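import Pool.Agent.DI.DTree
import Pool.Agent.DI.TrkB

/-!
# A coordinate on a line in a tree

`AxL G M w u`: `M` is convex, every point of `M` has at most two neighbours in `M`, `w u` is an edge of
`M`. `cd G w u q`: the distance from `w`, with sign. `cd_step`, `inj`, `up_iff`: the coordinate is
injective on `M`, changes by one along edges, and increases in one of the directions.
-/

namespace Pool.Agent.DI

open MulAction
open Pool.Agent.SAF (InC TAct Conv hull exists_next subset_hull hull_conv dist_edge)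
open Pool.Agent.BT (dist_cross conv_side exists_proj bey)
open Pool.Agent.BT.TA

open Classical in
/-- the coordinate -/
noncomputable def cd {X : Type} (G : SimpleGraph X) (w u q : X) : ℤ :=
  if q ∈ bey G w u then (G.dist w q : ℤ) else -(G.dist w q : ℤ)

/-- a line in a tree with an edge -/
structure AxL {X : Type} (G : SimpleGraph X) (M : Set X) (w u : X) : Prop where
  tree : G.IsTree
  conv : Conv G M
  two : ∀ p ∈ M, ∀ a b c, a ∈ M → b ∈ M → c ∈ M → G.Adj p a → G.Adj p b → G.Adj p c →
    a = b ∨ a = c ∨ b = c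
  adj : G.Adj w u
  hw : w ∈ M
  hu : u ∈ M

namespace AxL

variable {X : Type} {G : SimpleGraph X} {M : Set X} {w u : X}

theorem cd_in {q : X} (h : q ∈ bey G w u) : cd G w u q = G.dist w q := if_pos h

theorem cd_out {q : X} (h : q ∉ bey G w u) : cd G w u q = -(G.dist w q : ℤ) := if_neg h

variable (A : AxL G M w u)
include A

theorem cd_w : cd G w u w = 0 := by
  have h : w ∉ bey G w u := fun h => bey_not h (bey_self A.adj.symm)
  rw [cd_out h, SimpleGraph.dist_self]
  rfl

theorem cd_u : cd G w u u = 1 := by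
  rw [cd_in (bey_self A.adj), SimpleGraph.dist_eq_one_iff_adj.2 A.adj]
  rfl

/-- an edge which changes the side -/
theorem cross_eq {p r : X} (h : G.Adj p r) (hp : p ∈ bey G w u) (hr : r ∉ bey G w u) :
    p = u ∧ r = w := by
  have hr' : r ∈ bey G u w := (bey_or A.tree A.adj r).resolve_left hr
  have h1 := dist_cross A.tree A.adj (a := r) (b := p) hr' hp
  have h2 : G.dist r p = 1 := SimpleGraph.dist_eq_one_iff_adj.2 h.symm
  have h3 : G.dist r w = 0 := by omega
  have h4 : G.dist u p = 0 := by omega
  exact ⟨(A.tree.connected.dist_eq_zero_iff.1 h4).symm, A.tree.connected.dist_eq_zero_iff.1 h3⟩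

theorem cd_step {p r : X} (h : G.Adj p r) :
    cd G w u r = cd G w u p + 1 ∨ cd G w u p = cd G w u r + 1 := by
  have h1 := (dist_edge A.tree h w).1
  by_cases hp : p ∈ bey G w u
  · by_cases hr : r ∈ bey G w u
    · rw [cd_in hp, cd_in hr]
      omega
    · obtain ⟨rfl, rfl⟩ := A.cross_eq h hp hr
      rw [A.cd_w, A.cd_u]
      right; rfl
  · by_cases hr : r ∈ bey G w u
    · obtain ⟨rfl, rfl⟩ := A.cross_eq h.symm hr hp
      rw [A.cd_w, A.cd_u]
      left; rfl
    · rw [cd_out hp, cd_out hr]
      omega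

theorem inj_aux (n : ℕ) : ∀ p ∈ M, ∀ q ∈ M, G.dist w p = n → G.dist w q = n →
    (p ∈ bey G w u ↔ q ∈ bey G w u) → p = q := by
  induction n with
  | zero =>
    intro p _ q _ h1 h2 _
    rw [← A.tree.connected.dist_eq_zero_iff.1 h1, ← A.tree.connected.dist_eq_zero_iff.1 h2]
  | succ n ih =>
    intro p hp q hq h1 h2 hs
    have hpw : p ≠ w := by
      rintro rfl
      rw [SimpleGraph.dist_self] at h1
      omega
    have hqw : q ≠ w := by
      rintro rfl
      rw [SimpleGraph.dist_self] at h2
      omega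
    obtain ⟨p', hp', ap, dp⟩ := Conv.nbr A.tree A.conv hp A.hw hpw
    obtain ⟨q', hq', aq, dq⟩ := Conv.nbr A.tree A.conv hq A.hw hqw
    have e1 : G.dist p w = G.dist w p := SimpleGraph.dist_comm
    have e2 : G.dist q w = G.dist w q := SimpleGraph.dist_comm
    have e3 : G.dist p' w = G.dist w p' := SimpleGraph.dist_comm
    have e4 : G.dist q' w = G.dist w q' := SimpleGraph.dist_comm
    have hwn : w ∉ bey G w u := fun h => bey_not h (bey_self A.adj.symm)
    by_cases hn : n = 0
    · subst hn
      have hpw' : p' = w := A.tree.connected.dist_eq_zero_iff.1 (by omega)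
      have hqw' : q' = w := A.tree.connected.dist_eq_zero_iff.1 (by omega)
      subst hpw'
      subst hqw'
      by_cases hps : p ∈ bey G q' u
      · rw [(A.cross_eq ap hps hwn).1, (A.cross_eq aq (hs.1 hps) hwn).1]
      · have hqs : q ∉ bey G q' u := fun h => hps (hs.2 h)
        rcases A.two q' A.hw u p q A.hu hp hq A.adj ap.symm aq.symm with k | k | k
        · rw [← k] at hps
          exact absurd (bey_self A.adj) hps
        · rw [← k] at hqs
          exact absurd (bey_self A.adj) hqs
        · exact k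
    · have side : ∀ x x' : X, G.Adj x x' → G.dist w x = n + 1 → G.dist w x' = n →
          (x ∈ bey G w u ↔ x' ∈ bey G w u) := by
        intro x x' hx d1 d2
        constructor
        · intro h
          by_contra h'
          have := (A.cross_eq hx h h').2
          rw [this, SimpleGraph.dist_self] at d2
          exact hn d2.symm
        · intro h
          by_contra h'
          have := (A.cross_eq hx.symm h h').2
          rw [this, SimpleGraph.dist_self] at d1
          omega
      have hpp := ih p' hp' q' hq' (by omega) (by omega)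
        ((side p p' ap h1 (by omega)).symm.trans (hs.trans (side q q' aq h2 (by omega))))
      subst hpp
      have hrw : p' ≠ w := by
        intro hh
        rw [hh, SimpleGraph.dist_self] at dp
        omega
      obtain ⟨r', hr', ar, dr⟩ := Conv.nbr A.tree A.conv hp' A.hw hrw
      rcases A.two p' hp' p q r' hp hq hr' ap.symm aq.symm ar with k | k | k
      · exact k
      · subst k
        omega
      · subst k
        omega

/-- the coordinate is injective -/
theorem inj {p q : X} (hp : p ∈ M) (hq : q ∈ M) (h : cd G w u p = cd G w u q) : p = q := by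
  have hwn : w ∉ bey G w u := fun h => bey_not h (bey_self A.adj.symm)
  have h0 : ∀ x, x ∈ bey G w u → 0 < G.dist w x := by
    intro x hx
    rcases Nat.eq_zero_or_pos (G.dist w x) with k | k
    · rw [← A.tree.connected.dist_eq_zero_iff.1 k] at hx
      exact absurd hx hwn
    · exact k
  by_cases h1 : p ∈ bey G w u
  · by_cases h2 : q ∈ bey G w u
    · rw [cd_in h1, cd_in h2] at h
      exact A.inj_aux _ p hp q hq rfl (by omega) (iff_of_true h1 h2)
    · rw [cd_in h1, cd_out h2] at h
      have := h0 p h1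
      omega
  · by_cases h2 : q ∈ bey G w u
    · rw [cd_out h1, cd_in h2] at h
      have := h0 q h2
      omega
    · rw [cd_out h1, cd_out h2] at h
      exact A.inj_aux _ p hp q hq rfl (by omega) (iff_of_false h1 h2)

/-- the coordinate in a direction -/
theorem dir {p r q : X} (hp : p ∈ M) (hr : r ∈ M) (h : G.Adj p r) (hq : q ∈ M)
    (hb : q ∈ bey G p r) : (cd G w u r = cd G w u p + 1 → cd G w u p < cd G w u q) ∧
      (cd G w u p = cd G w u r + 1 → cd G w u q < cd G w u p) := by
  have hc : Conv G (M ∩ bey G p r) := fun a ha b hb' x hx =>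
    ⟨A.conv a ha.1 b hb'.1 x hx, bey_conv A.tree h a ha.2 b hb'.2 x hx⟩
  have hpn : p ∉ bey G p r := fun k => bey_not k (bey_self h.symm)
  have hR := Pool.Agent.SAF.Conv.rtg A.tree hc (a := r) (b := q) ⟨hr, bey_self h⟩ ⟨hq, hb⟩
  clear hb hq
  induction hR with
  | refl => exact ⟨fun k => by omega, fun k => by omega⟩
  | @tail x y _ hxy ih =>
    obtain ⟨h1, h2, h3⟩ := hxy
    have hne : cd G w u y ≠ cd G w u p := by
      intro k
      rw [A.inj h3.1 hp k] at h3
      exact hpn h3.2
    rcases A.cd_step h1 with k | k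
    · exact ⟨fun m => by have := ih.1 m; omega, fun m => by have := ih.2 m; omega⟩
    · exact ⟨fun m => by have := ih.1 m; omega, fun m => by have := ih.2 m; omega⟩

/-- going up or down -/
theorem dir_iff {p r q : X} (hp : p ∈ M) (hr : r ∈ M) (h : G.Adj p r) (hq : q ∈ M)
    (hb : q ∈ bey G p r) : (cd G w u r = cd G w u p + 1 ↔ cd G w u p < cd G w u q) ∧
      (cd G w u p = cd G w u r + 1 ↔ cd G w u q < cd G w u p) := by
  obtain ⟨h1, h2⟩ := A.dir hp hr h hq hb
  rcases A.cd_step h with k | k
  · have := h1 k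
    exact ⟨⟨h1, fun _ => k⟩, ⟨h2, fun m => by omega⟩⟩
  · have := h2 k
    exact ⟨⟨h1, fun m => by omega⟩, ⟨h2, fun _ => k⟩⟩

/-- points of the line beyond the edge `w u` -/
theorem bey_iff {q : X} : q ∈ bey G w u ↔ 0 < cd G w u q := by
  by_cases h : q ∈ bey G w u
  · rw [cd_in h]
    refine ⟨fun _ => ?_, fun _ => h⟩
    have : G.dist w q ≠ 0 := by
      intro k
      rw [← A.tree.connected.dist_eq_zero_iff.1 k] at h
      exact bey_not h (bey_self A.adj.symm)
    omega
  · rw [cd_out h]
    exact ⟨fun k => absurd k h, fun k => by omega⟩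

/-- a group element which is a translation of the line: every point has neighbours on both sides -/
theorem ends {H : Type} [Group H] [MulAction H X] {t : H}
    (hadj' : ∀ a b, G.Adj a b → G.Adj (t⁻¹ • a) (t⁻¹ • b))
    (hM : ∀ x ∈ M, t • x ∈ M) (hM' : ∀ x ∈ M, t⁻¹ • x ∈ M)
    (h1 : ∀ x : X, t • x ≠ x) (h2 : ∀ x : X, t • t • x ≠ x) {p : X} (hp : p ∈ M) :
    (∃ r ∈ M, G.Adj p r ∧ cd G w u r = cd G w u p + 1) ∧
      (∃ r ∈ M, G.Adj p r ∧ cd G w u p = cd G w u r + 1) := by
  -- an end of the line is a minimum or a maximum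
  have hmin : ∀ p ∈ M, (¬ ∃ r ∈ M, G.Adj p r ∧ cd G w u p = cd G w u r + 1) →
      ∀ q ∈ M, cd G w u p ≤ cd G w u q := by
    intro p hp hn q hq
    by_cases hpq : p = q
    · rw [hpq]
    obtain ⟨r, hr, ha, hd⟩ := Conv.nbr A.tree A.conv hp hq hpq
    have hb : q ∈ bey G p r := by
      show G.dist q p = G.dist q r + 1
      rw [SimpleGraph.dist_comm, hd, SimpleGraph.dist_comm]
    rcases A.cd_step ha with k | k
    · exact ((A.dir hp hr ha hq hb).1 k).le
    · exact absurd ⟨r, hr, ha, k⟩ hn
  have hmax : ∀ p ∈ M, (¬ ∃ r ∈ M, G.Adj p r ∧ cd G w u r = cd G w u p + 1) →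
      ∀ q ∈ M, cd G w u q ≤ cd G w u p := by
    intro p hp hn q hq
    by_cases hpq : p = q
    · rw [hpq]
    obtain ⟨r, hr, ha, hd⟩ := Conv.nbr A.tree A.conv hp hq hpq
    have hb : q ∈ bey G p r := by
      show G.dist q p = G.dist q r + 1
      rw [SimpleGraph.dist_comm, hd, SimpleGraph.dist_comm]
    rcases A.cd_step ha with k | k
    · exact absurd ⟨r, hr, ha, k⟩ hn
    · exact ((A.dir hp hr ha hq hb).2 k).le
  -- ends: all neighbours agree
  let En : X → Prop := fun p => ∀ a b, a ∈ M → b ∈ M → G.Adj p a → G.Adj p b → a = b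
  have hEt : ∀ p, En p → En (t • p) := by
    intro p h a b ha hb h3 h4
    have k3 := hadj' _ _ h3
    have k4 := hadj' _ _ h4
    rw [inv_smul_smul] at k3 k4
    exact smul_left_cancel t⁻¹ (h _ _ (hM' a ha) (hM' b hb) k3 k4)
  have hE1 : ∀ p, En p → (¬ ∃ r ∈ M, G.Adj p r ∧ cd G w u p = cd G w u r + 1) ∨
      ¬ ∃ r ∈ M, G.Adj p r ∧ cd G w u r = cd G w u p + 1 := by
    intro p h
    by_contra hcon
    rw [not_or, not_not, not_not] at hcon
    obtain ⟨⟨r, hr, ha, k⟩, ⟨r', hr', ha', k'⟩⟩ := hcon
    rw [h r r' hr hr' ha ha'] at k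
    omega
  have hno : ∀ p ∈ M, ¬ En p := by
    intro p hp h
    have m1 := hM p hp
    have m2 := hM _ m1
    have k1 := hE1 _ h
    have k2 := hE1 _ (hEt _ h)
    have k3 := hE1 _ (hEt _ (hEt _ h))
    have n1 : cd G w u (t • p) ≠ cd G w u p := fun e => h1 p (A.inj m1 hp e)
    have n2 : cd G w u (t • t • p) ≠ cd G w u p := fun e => h2 p (A.inj m2 hp e)
    have n3 : cd G w u (t • t • p) ≠ cd G w u (t • p) := fun e => h1 _ (A.inj m2 m1 e)
    rcases k1 with k1 | k1
    · have l1 := hmin p hp k1 _ m1
      have l1' := hmin p hp k1 _ m2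
      rcases k2 with k2 | k2
      · have := hmin _ m1 k2 _ hp
        omega
      · have l2 := hmax _ m1 k2 _ m2
        rcases k3 with k3 | k3
        · have := hmin _ m2 k3 _ hp
          omega
        · have := hmax _ m2 k3 _ m1
          omega
    · have l1 := hmax p hp k1 _ m1
      have l1' := hmax p hp k1 _ m2
      rcases k2 with k2 | k2
      · have l2 := hmin _ m1 k2 _ m2
        rcases k3 with k3 | k3
        · have := hmin _ m2 k3 _ m1
          omega
        · have := hmax _ m2 k3 _ hp
          omega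
      · have := hmax _ m1 k2 _ hp
        omega
  have h3 := hno p hp
  have : ∃ a b, a ∈ M ∧ b ∈ M ∧ G.Adj p a ∧ G.Adj p b ∧ a ≠ b := by
    by_contra hcon
    apply h3
    intro a b ha hb h4 h5
    by_contra hab
    exact hcon ⟨a, b, ha, hb, h4, h5, hab⟩
  obtain ⟨a, b, ha, hb, h4, h5, hab⟩ := this
  have hcd : cd G w u a ≠ cd G w u b := fun e => hab (A.inj ha hb e)
  rcases A.cd_step h4 with k4 | k4
  · rcases A.cd_step h5 with k5 | k5
    · omega
    · exact ⟨⟨a, ha, h4, k4⟩, ⟨b, hb, h5, k5⟩⟩
  · rcases A.cd_step h5 with k5 | k5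
    · exact ⟨⟨b, hb, h5, k5⟩, ⟨a, ha, h4, k4⟩⟩
    · omega

end AxL

end Pool.Agent.DI
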