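import Pool.Agent.DI.DL

/-!
# Lines of groups of `D_inf` type: basic facts

`act`: the action on the integers; `N`: its kernel (the largest finite normal subgroup); `St p`: the
stabiliser of the place `p` (the maximal finite subgroups); `Refl p g`: `g` is a reflection in `p`.
-/

namespace Pool.Agent.DI

open Pool.Agent.SAF (InC)
open Pool.Agent.SAG (IO Zt)

theorem pow_card_of_mem {J : Type} [Group J] {A : Subgroup J} {g : J} (hg : g ∈ A) :
    g ^ Nat.card A = 1 := by
  have h := congrArg Subtype.val (pow_card_eq_one' (x := (⟨g, hg⟩ : A)))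
  rw [Subgroup.coe_pow] at h
  exact h

namespace DL

variable {J : Type} [Group J] (L : DL J)

theorem ε_cases (g : J) : L.ε g = 1 ∨ L.ε g = -1 := Int.units_eq_one_or _

theorem ne_neg_one : (1 : ℤˣ) ≠ -1 := by decide

theorem ε_inv (g : J) : L.ε g⁻¹ = L.ε g := by
  rw [map_inv]
  rcases L.ε_cases g with h | h <;> rw [h] <;> decide

theorem ε_conj (g h : J) : L.ε (g * h * g⁻¹) = L.ε h := by
  rw [map_mul, map_mul, map_inv, mul_comm (L.ε g), mul_inv_cancel_right]

theorem ε_sq (g : J) : ((L.ε g : ℤˣ) : ℤ) * ((L.ε g : ℤˣ) : ℤ) = 1 := by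
  rcases L.ε_cases g with h | h <;> rw [h] <;> decide

@[simp] theorem τ_one : L.τ 1 = 0 := by
  have := L.τ_mul 1 1
  rw [mul_one, map_one, Units.val_one, one_mul] at this
  linarith

theorem τ_inv (g : J) : L.τ g⁻¹ = -(L.ε g * L.τ g) := by
  have h := L.τ_mul g⁻¹ g
  rw [inv_mul_cancel, τ_one, ε_inv] at h
  linarith

/-- the action on the line -/
def act (g : J) (n : ℤ) : ℤ := L.ε g * n + 2 * L.τ g

theorem act_one (n : ℤ) : L.act 1 n = n := by
  unfold act
  rw [map_one, τ_one, Units.val_one]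
  ring

theorem act_mul (g h : J) (n : ℤ) : L.act (g * h) n = L.act g (L.act h n) := by
  unfold act
  rw [map_mul, L.τ_mul, Units.val_mul]
  ring

theorem act_inv_act (g : J) (n : ℤ) : L.act g⁻¹ (L.act g n) = n := by
  rw [← act_mul, inv_mul_cancel, act_one]

theorem act_act_inv (g : J) (n : ℤ) : L.act g (L.act g⁻¹ n) = n := by
  rw [← act_mul, mul_inv_cancel, act_one]

theorem act_inj (g : J) {m n : ℤ} (h : L.act g m = L.act g n) : m = n := by
  rw [← L.act_inv_act g m, h, act_inv_act]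

/-- classes are invariant -/
theorem act_emod (g : J) (n : ℤ) : L.act g n % 2 = n % 2 := by
  unfold act
  rcases L.ε_cases g with h | h <;> rw [h]
  · rw [Units.val_one]; omega
  · rw [Units.val_neg, Units.val_one]; omega

/-- the action is isometric -/
theorem act_sub (g : J) (m n : ℤ) : L.act g m - L.act g n = L.ε g * (m - n) := by
  unfold act
  ring

/-! ### the kernel -/

/-- the kernel of the action on the line -/
def N : Subgroup J where
  carrier := {g | L.ε g = 1 ∧ L.τ g = 0}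
  mul_mem' := by
    rintro a b ⟨ha, ha'⟩ ⟨hb, hb'⟩
    refine ⟨by rw [map_mul, ha, hb, mul_one], ?_⟩
    rw [L.τ_mul, ha', hb', mul_zero, add_zero]
  one_mem' := ⟨map_one _, L.τ_one⟩
  inv_mem' := by
    rintro a ⟨ha, ha'⟩
    refine ⟨by rw [ε_inv, ha], ?_⟩
    rw [L.τ_inv, ha', mul_zero, neg_zero]

theorem mem_N {g : J} : g ∈ L.N ↔ L.ε g = 1 ∧ L.τ g = 0 := Iff.rfl

theorem mem_N_iff_act {g : J} : g ∈ L.N ↔ ∀ n, L.act g n = n := by
  constructor
  · rintro ⟨h1, h2⟩ n
    unfold act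
    rw [h1, h2, Units.val_one]
    ring
  · intro h
    have h0 := h 0
    have h1 := h 1
    unfold act at h0 h1
    have h2 : L.τ g = 0 := by omega
    refine ⟨?_, h2⟩
    rcases L.ε_cases g with h3 | h3
    · exact h3
    · rw [h3, h2, Units.val_neg, Units.val_one] at h1
      omega

instance N_finite : Finite ↥L.N := L.fin.to_subtype

instance N_normal : L.N.Normal where
  conj_mem := by
    intro n hn g
    rw [mem_N_iff_act] at hn ⊢
    intro m
    rw [act_mul, act_mul, hn, act_act_inv]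

/-! ### reflections and translations -/

/-- `g` is a reflection in the place `p` -/
def Refl (p : ℤ) (g : J) : Prop := L.ε g = -1 ∧ L.τ g = p

variable {L}

theorem Refl.act {p : ℤ} {g : J} (h : L.Refl p g) (n : ℤ) : L.act g n = 2 * p - n := by
  unfold DL.act
  rw [h.1, h.2, Units.val_neg, Units.val_one]
  ring

theorem Refl.fix {p : ℤ} {g : J} (h : L.Refl p g) : L.act g p = p := by
  rw [h.act]; ring

theorem Refl.fix_iff {p n : ℤ} {g : J} (h : L.Refl p g) : L.act g n = n ↔ n = p := by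
  rw [h.act]
  constructor <;> intro h <;> omega

theorem refl_of_fix {p : ℤ} {g : J} (h1 : L.ε g = -1) (h2 : L.act g p = p) : L.Refl p g := by
  refine ⟨h1, ?_⟩
  unfold DL.act at h2
  rw [h1, Units.val_neg, Units.val_one] at h2
  omega

theorem Refl.conj {p : ℤ} {g : J} (h : L.Refl p g) (k : J) :
    L.Refl (L.act k p) (k * g * k⁻¹) := by
  refine refl_of_fix (by rw [ε_conj, h.1]) ?_
  rw [act_mul, act_mul, act_inv_act, h.fix]

theorem Refl.unique {p q : ℤ} {g : J} (h : L.Refl p g) (h' : L.Refl q g) : p = q :=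
  h.2.symm.trans h'.2

theorem Refl.mul {p q : ℤ} {g h : J} (hg : L.Refl p g) (hh : L.Refl q h) :
    L.ε (g * h) = 1 ∧ L.τ (g * h) = p - q := by
  refine ⟨by rw [map_mul, hg.1, hh.1]; decide, ?_⟩
  rw [L.τ_mul, hg.1, hg.2, hh.2, Units.val_neg, Units.val_one]
  ring

theorem Refl.mul_N {p : ℤ} {g n : J} (hg : L.Refl p g) (hn : n ∈ L.N) : L.Refl p (g * n) := by
  refine ⟨by rw [map_mul, hg.1, hn.1, mul_one], ?_⟩
  rw [L.τ_mul, hn.2, hg.2, mul_zero, add_zero]

theorem Refl.N_mul {p : ℤ} {g n : J} (hg : L.Refl p g) (hn : n ∈ L.N) : L.Refl p (n * g) := by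
  refine ⟨by rw [map_mul, hg.1, hn.1, one_mul], ?_⟩
  rw [L.τ_mul, hn.1, hn.2, hg.2, Units.val_one, one_mul, zero_add]

variable (L)

theorem τ_pow {g : J} (h : L.ε g = 1) (n : ℕ) : L.τ (g ^ n) = n * L.τ g := by
  induction n with
  | zero => simp
  | succ n ih =>
    rw [pow_succ, L.τ_mul, ih, map_pow, h, one_pow, Units.val_one]
    push_cast
    ring

theorem ε_pow {g : J} (h : L.ε g = 1) (n : ℕ) : L.ε (g ^ n) = 1 := by
  rw [map_pow, h, one_pow]

theorem τ_zpow {g : J} (h : L.ε g = 1) (n : ℤ) : L.τ (g ^ n) = n * L.τ g := by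
  obtain ⟨m, rfl | rfl⟩ := n.eq_nat_or_neg
  · rw [zpow_natCast, L.τ_pow h]
  · rw [zpow_neg, zpow_natCast, τ_inv, L.τ_pow h, L.ε_pow h, Units.val_one]
    ring

theorem io_of {g : J} (h : L.ε g = 1) (h' : L.τ g ≠ 0) : IO g := by
  intro n hn e
  have h1 := L.τ_pow h n
  rw [e, τ_one] at h1
  rcases mul_eq_zero.1 h1.symm with h2 | h2
  · exact hn.ne' (by exact_mod_cast h2)
  · exact h' h2

theorem not_io_of_mem_N {g : J} (h : g ∈ L.N) : ¬ IO g := by
  intro hg
  exact hg (Nat.card L.N) Nat.card_pos (pow_card_of_mem h)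

theorem io_iff {g : J} : IO g ↔ L.ε g = 1 ∧ L.τ g ≠ 0 := by
  constructor
  · intro h
    rcases L.ε_cases g with h1 | h1
    · refine ⟨h1, fun h2 => L.not_io_of_mem_N ⟨h1, h2⟩ h⟩
    · exfalso
      have h2 : g * g ∈ L.N := by
        have := Refl.mul (L := L) (p := L.τ g) (q := L.τ g) ⟨h1, rfl⟩ ⟨h1, rfl⟩
        exact ⟨this.1, by rw [this.2]; ring⟩
      apply L.not_io_of_mem_N h2
      intro n hn e
      apply h (2 * n) (by omega)
      rw [pow_mul, pow_two, e]
  · rintro ⟨h1, h2⟩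
    exact L.io_of h1 h2

/-- there is an element of each type -/
theorem exists_trans (n : ℤ) : ∃ g, L.ε g = 1 ∧ L.τ g = n := by
  obtain ⟨a, ha, ha'⟩ := L.s0
  obtain ⟨b, hb, hb'⟩ := L.s1
  have h := Refl.mul (L := L) (p := 1) (q := 0) ⟨hb, hb'⟩ ⟨ha, ha'⟩
  refine ⟨(b * a) ^ n, by rw [map_zpow, h.1, one_zpow], ?_⟩
  rw [L.τ_zpow h.1, h.2]
  ring

theorem exists_refl (p : ℤ) : ∃ g, L.Refl p g := by
  obtain ⟨a, ha, ha'⟩ := L.s0
  obtain ⟨b, hb, hb'⟩ := L.exists_trans p
  refine ⟨b * a, by rw [map_mul, hb, ha, one_mul], ?_⟩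
  rw [L.τ_mul, hb, hb', ha', mul_zero, add_zero]

theorem infinite (L : DL J) : Infinite J := by
  obtain ⟨g, hg, hg'⟩ := L.exists_trans 1
  have h := L.io_of hg (by rw [hg']; decide)
  rw [← not_finite_iff_infinite]
  intro hf
  exact SAG.not_IO_finite g h

/-! ### finite subgroups -/

/-- the stabiliser of a place -/
def St (p : ℤ) : Subgroup J where
  carrier := {g | L.act g p = p}
  mul_mem' := by
    intro a b ha hb
    show L.act (a * b) p = p
    rw [act_mul, hb, ha]
  one_mem' := L.act_one p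
  inv_mem' := by
    intro a ha
    show L.act a⁻¹ p = p
    have h : L.act a p = p := ha
    conv_lhs => rw [← h]
    rw [act_inv_act]

theorem mem_St {p : ℤ} {g : J} : g ∈ L.St p ↔ L.act g p = p := Iff.rfl

theorem mem_St_iff {p : ℤ} {g : J} : g ∈ L.St p ↔ g ∈ L.N ∨ L.Refl p g := by
  constructor
  · intro h
    rcases L.ε_cases g with h1 | h1
    · left
      refine ⟨h1, ?_⟩
      have h2 : L.act g p = p := h
      unfold act at h2
      rw [h1, Units.val_one] at h2
      omega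
    · right
      exact refl_of_fix h1 h
  · rintro (h | h)
    · exact (L.mem_N_iff_act.1 h) p
    · exact h.fix

theorem N_le_St (p : ℤ) : L.N ≤ L.St p := fun _ h => L.mem_St_iff.2 (Or.inl h)

instance St_finite (p : ℤ) : Finite ↥(L.St p) := by
  obtain ⟨r, hr⟩ := L.exists_refl p
  have h : ((L.St p : Subgroup J) : Set J) ⊆ (L.N : Set J) ∪ (fun n => n * r) '' (L.N : Set J) := by
    intro g hg
    rcases L.mem_St_iff.1 hg with h | h
    · exact Or.inl h
    · right
      refine ⟨g * r⁻¹, ?_, inv_mul_cancel_right g r⟩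
      rw [SetLike.mem_coe, mem_N_iff_act]
      intro n
      rw [act_mul, h.act]
      have := hr.act (L.act r⁻¹ n)
      rw [act_act_inv] at this
      omega
  have hN : (L.N : Set J).Finite := L.fin
  exact ((hN.union (hN.image _)).subset h).to_subtype

/-- a finite subgroup fixes a place -/
theorem exists_place (A : Subgroup J) (hA : Finite ↥A) : ∃ p, A ≤ L.St p := by
  by_cases h : ∃ a ∈ A, L.ε a = -1
  · obtain ⟨a, ha, h1⟩ := h
    refine ⟨L.τ a, ?_⟩
    intro b hb
    have hno : ∀ g ∈ A, ¬ IO g := by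
      intro g hg hio
      exact hio (Nat.card A) Nat.card_pos (pow_card_of_mem hg)
    rw [mem_St_iff]
    rcases L.ε_cases b with h2 | h2
    · left
      refine ⟨h2, ?_⟩
      by_contra h3
      exact hno b hb (L.io_of h2 h3)
    · right
      refine ⟨h2, ?_⟩
      have h3 := Refl.mul (L := L) (p := L.τ b) (q := L.τ a) ⟨h2, rfl⟩ ⟨h1, rfl⟩
      by_contra h4
      exact hno (b * a) (A.mul_mem hb ha) (L.io_of h3.1 (by rw [h3.2]; omega))
  · refine ⟨0, ?_⟩
    intro b hb
    apply L.N_le_St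
    have h2 : L.ε b = 1 := (L.ε_cases b).resolve_right fun h2 => h ⟨b, hb, h2⟩
    refine ⟨h2, ?_⟩
    by_contra h3
    exact L.io_of h2 h3 (Nat.card A) Nat.card_pos (pow_card_of_mem hb)

theorem finite_iff (A : Subgroup J) : Finite ↥A ↔ ∃ p, A ≤ L.St p := by
  constructor
  · exact L.exists_place A
  · rintro ⟨p, hp⟩
    exact Finite.of_injective _ (Subgroup.inclusion_injective hp)

/-- a mirrored subgroup: it contains a reflection -/
def Mir (A : Subgroup J) : Prop := ∃ a ∈ A, L.ε a = -1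

theorem le_N_or_mir (A : Subgroup J) (hA : Finite ↥A) : A ≤ L.N ∨ L.Mir A := by
  by_cases h : L.Mir A
  · exact Or.inr h
  · left
    obtain ⟨p, hp⟩ := L.exists_place A hA
    intro a ha
    rcases L.mem_St_iff.1 (hp ha) with h1 | h1
    · exact h1
    · exact absurd ⟨a, ha, h1.1⟩ h

theorem not_mir_of_le_N {A : Subgroup J} (h : A ≤ L.N) : ¬ L.Mir A := by
  rintro ⟨a, ha, h1⟩
  rw [(h ha).1] at h1
  exact ne_neg_one h1

theorem Mir.mono {L : DL J} {A B : Subgroup J} (h : A ≤ B) (hA : L.Mir A) : L.Mir B := by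
  obtain ⟨a, ha, h1⟩ := hA
  exact ⟨a, h ha, h1⟩

theorem Mir.refl {L : DL J} {A : Subgroup J} (hA : L.Mir A) {p : ℤ} (hp : A ≤ L.St p) :
    ∃ a ∈ A, L.Refl p a := by
  obtain ⟨a, ha, h1⟩ := hA
  exact ⟨a, ha, refl_of_fix h1 (hp ha)⟩

/-- the place of a mirrored subgroup is unique -/
theorem Mir.place_unique {L : DL J} {A : Subgroup J} (hA : L.Mir A) {p q : ℤ} (hp : A ≤ L.St p)
    (hq : A ≤ L.St q) : p = q := by
  obtain ⟨a, ha, h1⟩ := hA.refl hp
  exact (h1.unique (refl_of_fix h1.1 (hq ha)))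

/-- when is the subgroup generated by two finite subgroups finite -/
theorem finite_sup_iff {A B : Subgroup J} (hA : Finite ↥A) (hB : Finite ↥B) :
    Finite ↥(A ⊔ B) ↔ A ≤ L.N ∨ B ≤ L.N ∨ ∃ p, A ≤ L.St p ∧ B ≤ L.St p := by
  constructor
  · intro h
    obtain ⟨p, hp⟩ := L.exists_place _ h
    exact Or.inr (Or.inr ⟨p, le_sup_left.trans hp, le_sup_right.trans hp⟩)
  · rintro (h | h | ⟨p, h, h'⟩)
    · obtain ⟨p, hp⟩ := L.exists_place _ hB
      rw [L.finite_iff]
      exact ⟨p, sup_le (h.trans (L.N_le_St p)) hp⟩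
    · obtain ⟨p, hp⟩ := L.exists_place _ hA
      rw [L.finite_iff]
      exact ⟨p, sup_le hp (h.trans (L.N_le_St p))⟩
    · rw [L.finite_iff]
      exact ⟨p, sup_le h h'⟩

/-- a finite subgroup which is normalised by an element of infinite order lies in the kernel -/
theorem le_N_of_norm {A : Subgroup J} (hA : Finite ↥A) {t : J} (ht : IO t)
    (hn : ∀ a ∈ A, t * a * t⁻¹ ∈ A) : A ≤ L.N := by
  refine (L.le_N_or_mir A hA).resolve_right fun hm => ?_
  obtain ⟨p, hp⟩ := L.exists_place A hA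
  obtain ⟨a, ha, h1⟩ := hm.refl hp
  have h2 := h1.conj t
  have h3 : L.Refl p (t * a * t⁻¹) := refl_of_fix h2.1 (hp (hn a ha))
  have h4 := h2.unique h3
  obtain ⟨h5, h6⟩ := L.io_iff.1 ht
  unfold act at h4
  rw [h5, Units.val_one] at h4
  omega

theorem le_N_of_normal {A : Subgroup J} (hA : Finite ↥A) (hn : A.Normal) : A ≤ L.N := by
  obtain ⟨t, h1, h2⟩ := L.exists_trans 1
  exact L.le_N_of_norm hA (L.io_of h1 (by rw [h2]; decide)) fun a ha => hn.conj_mem a ha t

/-- `J` is generated by the stabilisers of two adjacent places -/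
theorem sup_St (p : ℤ) : L.St p ⊔ L.St (p + 1) = ⊤ := by
  obtain ⟨a, ha⟩ := L.exists_refl p
  obtain ⟨b, hb⟩ := L.exists_refl (p + 1)
  have hS : ∀ g, g ∈ L.N → g ∈ L.St p ⊔ L.St (p + 1) := fun g hg =>
    (le_sup_left : L.St p ≤ _) (L.N_le_St p hg)
  have haS : a ∈ L.St p ⊔ L.St (p + 1) := (le_sup_left : L.St p ≤ _) ha.fix
  have hbS : b ∈ L.St p ⊔ L.St (p + 1) := (le_sup_right : L.St (p + 1) ≤ _) hb.fix
  have hm := hb.mul ha
  have hT : ∀ g, L.ε g = 1 → g ∈ L.St p ⊔ L.St (p + 1) := by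
    intro g hg
    have h1 : g * ((b * a) ^ L.τ g)⁻¹ ∈ L.N := by
      refine ⟨by rw [map_mul, map_inv, map_zpow, hm.1, hg, one_zpow]; decide, ?_⟩
      rw [L.τ_mul, L.τ_inv, L.τ_zpow hm.1, hm.2, map_zpow, hm.1, hg, one_zpow, Units.val_one]
      ring
    have h2 := Subgroup.mul_mem _ (hS _ h1)
      (Subgroup.zpow_mem _ (Subgroup.mul_mem _ hbS haS) (L.τ g))
    rwa [inv_mul_cancel_right] at h2
  rw [eq_top_iff]
  intro g _
  rcases L.ε_cases g with h | h
  · exact hT g h
  · have h1 := hT (g * a) (by rw [map_mul, h, ha.1]; decide)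
    have h2 := Subgroup.mul_mem _ h1 (Subgroup.inv_mem _ haS)
    rwa [mul_inv_cancel_right] at h2

/-- not finite-by-(infinite cyclic) -/
theorem not_zt (L : DL J) : ¬ Zt J := by
  intro h
  obtain ⟨t, ht, hc, -⟩ := h.central L.infinite
  obtain ⟨a, ha⟩ := L.exists_refl 0
  obtain ⟨h1, h2⟩ := L.io_iff.1 ht
  have h3 : a * t * a⁻¹ = t := by rw [hc a, mul_inv_cancel_right]
  have h4 : L.τ (a * t * a⁻¹) = -L.τ t := by
    rw [L.τ_mul, L.τ_mul, L.τ_inv, map_mul, h1, ha.1, ha.2]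
    simp
  rw [h3] at h4
  omega

end DL

end Pool.Agent.DI
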