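import Mathlib

/-!
# Finite multigraphs

`FG`: nodes `N`, lines `L`, ends `a`, `b` (loops and parallel lines are allowed). `C`: components,
`b1 = nL - nN + nC` (an integer, `b1_nonneg`). Restriction to a set of lines, contraction of a set of
lines (`b1_con`), partitions (`b1_part`), degrees (`sum_deg`), bridges (`b1_zero_iff`).
-/

namespace Pool.Agent.DI

/-- a finite multigraph -/
structure FG where
  N : Type
  L : Type
  fN : Finite N
  fL : Finite L
  a : L → N
  b : L → N

namespace FG

variable (G : FG)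

instance : Finite G.N := G.fN

instance : Finite G.L := G.fL

/-- a step along a line -/
def st (x y : G.N) : Prop := ∃ e, G.a e = x ∧ G.b e = y

/-- same component -/
def cs : Setoid G.N := Relation.EqvGen.setoid G.st

/-- components -/
def C : Type := Quotient G.cs

/-- the component of a node -/
def c (x : G.N) : G.C := Quotient.mk G.cs x

instance : Finite G.C := Quotient.finite _

variable {G}

theorem c_eq {x y : G.N} : G.c x = G.c y ↔ Relation.EqvGen G.st x y :=
  ⟨fun h => Quotient.exact h, fun h => Quotient.sound (s := G.cs) h⟩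

theorem c_surj (x : G.C) : ∃ y, G.c y = x := by
  induction x using Quotient.inductionOn with
  | h y => exact ⟨y, rfl⟩

theorem c_line (e : G.L) : G.c (G.a e) = G.c (G.b e) :=
  c_eq.2 (Relation.EqvGen.rel _ _ ⟨e, rfl, rfl⟩)

/-- a function which is constant along lines is constant on components -/
theorem const_of_line {T : Type*} {f : G.N → T} (h : ∀ e, f (G.a e) = f (G.b e)) {x y : G.N}
    (k : Relation.EqvGen G.st x y) : f x = f y := by
  induction k with
  | rel x y e =>
    obtain ⟨e, rfl, rfl⟩ := e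
    exact h e
  | refl x => rfl
  | symm x y _ ih => exact ih.symm
  | trans x y z _ _ h1 h2 => exact h1.trans h2

/-- a function on the components from a function which is constant along lines -/
def lift {T : Type*} (f : G.N → T) (h : ∀ e, f (G.a e) = f (G.b e)) : G.C → T :=
  Quotient.lift f (fun _ _ k => const_of_line h k)

@[simp] theorem lift_c {T : Type*} (f : G.N → T) (h : ∀ e, f (G.a e) = f (G.b e)) (x : G.N) :
    lift f h (G.c x) = f x := rfl

variable (G)

/-- number of nodes -/
noncomputable def nN : ℕ := Nat.card G.N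

/-- number of lines -/
noncomputable def nL : ℕ := Nat.card G.L

/-- number of components -/
noncomputable def nC : ℕ := Nat.card G.C

/-- first Betti number -/
noncomputable def b1 : ℤ := G.nL - G.nN + G.nC

/-! ### the coboundary map -/

/-- the coboundary of a function on the nodes -/
def dm : (G.N → ZMod 2) →ₗ[ZMod 2] (G.L → ZMod 2) where
  toFun f e := f (G.a e) + f (G.b e)
  map_add' f g := by
    funext e
    simp only [Pi.add_apply]
    ring
  map_smul' r f := by
    funext e
    simp only [Pi.smul_apply, smul_eq_mul, RingHom.id_apply]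
    ring

theorem dm_apply (f : G.N → ZMod 2) (e : G.L) : G.dm f e = f (G.a e) + f (G.b e) := rfl

theorem add_eq_zero_iff_eq' {x y : ZMod 2} : x + y = 0 ↔ x = y := by
  revert x y
  decide

theorem mem_ker {f : G.N → ZMod 2} : f ∈ LinearMap.ker G.dm ↔ ∀ e, f (G.a e) = f (G.b e) := by
  rw [LinearMap.mem_ker]
  constructor
  · intro h e
    have := congrFun h e
    exact add_eq_zero_iff_eq'.1 this
  · intro h
    funext e
    exact add_eq_zero_iff_eq'.2 (h e)

/-- the kernel consists of the functions on the components -/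
def kerEquiv : LinearMap.ker G.dm ≃ₗ[ZMod 2] (G.C → ZMod 2) where
  toFun f := lift f.1 (G.mem_ker.1 f.2)
  invFun g := ⟨fun x => g (G.c x), G.mem_ker.2 (fun e => congrArg g (c_line e))⟩
  left_inv f := rfl
  right_inv g := by
    funext x
    obtain ⟨y, rfl⟩ := c_surj x
    rfl
  map_add' f g := by
    funext x
    obtain ⟨y, rfl⟩ := c_surj x
    rfl
  map_smul' r f := by
    funext x
    obtain ⟨y, rfl⟩ := c_surj x
    rfl

theorem finrank_fun (T : Type) [Finite T] : Module.finrank (ZMod 2) (T → ZMod 2) = Nat.card T := by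
  have := Fintype.ofFinite T
  rw [Module.finrank_fintype_fun_eq_card, Nat.card_eq_fintype_card]

theorem finrank_ker : Module.finrank (ZMod 2) (LinearMap.ker G.dm) = G.nC := by
  rw [LinearEquiv.finrank_eq G.kerEquiv, finrank_fun, nC]

instance (T : Type) [Finite T] : Module.Finite (ZMod 2) (T → ZMod 2) := Module.Finite.pi

theorem finrank_range : Module.finrank (ZMod 2) (LinearMap.range G.dm) + G.nC = G.nN := by
  have h := LinearMap.finrank_range_add_finrank_ker G.dm
  rw [G.finrank_ker, finrank_fun] at h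
  exact h

theorem finrank_range_le : Module.finrank (ZMod 2) (LinearMap.range G.dm) ≤ G.nL := by
  have h := Submodule.finrank_le (LinearMap.range G.dm)
  rw [finrank_fun] at h
  exact h

theorem b1_eq : G.b1 = G.nL - Module.finrank (ZMod 2) (LinearMap.range G.dm) := by
  have h := G.finrank_range
  unfold b1
  omega

theorem b1_nonneg : 0 ≤ G.b1 := by
  rw [b1_eq]
  have := G.finrank_range_le
  omega

theorem nC_le : G.nC ≤ G.nN := by
  have h := G.finrank_range
  omega

theorem nN_le : G.nN ≤ G.nL + G.nC := by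
  have h := G.b1_nonneg
  unfold b1 at h
  omega

/-- `b1 = 0` iff every function on the lines is a coboundary -/
theorem b1_zero_iff_range : G.b1 = 0 ↔ LinearMap.range G.dm = ⊤ := by
  rw [b1_eq]
  constructor
  · intro h
    apply Submodule.eq_top_of_finrank_eq
    rw [finrank_fun]
    unfold nL at h
    omega
  · intro h
    rw [h, finrank_top, finrank_fun]
    unfold nL
    omega

/-- `b1 = 0` iff every line is a bridge -/
theorem b1_zero_iff : G.b1 = 0 ↔ ∀ e, ∃ f : G.N → ZMod 2, f (G.a e) ≠ f (G.b e) ∧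
    ∀ e', e' ≠ e → f (G.a e') = f (G.b e') := by
  classical
  rw [b1_zero_iff_range]
  constructor
  · intro h e
    have hm : (Pi.single e 1 : G.L → ZMod 2) ∈ LinearMap.range G.dm := by
      rw [h]
      trivial
    obtain ⟨f, hf⟩ := hm
    refine ⟨f, fun k => ?_, fun e' he' => ?_⟩
    · have h1 := congrFun hf e
      rw [dm_apply, Pi.single_eq_same, add_eq_zero_iff_eq'.2 k] at h1
      exact zero_ne_one h1
    · have h1 := congrFun hf e'
      rw [dm_apply, Pi.single_eq_of_ne he'] at h1
      exact add_eq_zero_iff_eq'.1 h1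
  · intro h
    have := Fintype.ofFinite G.L
    rw [eq_top_iff]
    intro g _
    have hg : g = ∑ e, g e • (Pi.single e 1 : G.L → ZMod 2) := by
      funext e
      rw [Finset.sum_apply, Finset.sum_eq_single e]
      · simp
      · intro e' _ hne
        rw [Pi.smul_apply, Pi.single_eq_of_ne (Ne.symm hne), smul_zero]
      · intro hh
        exact absurd (Finset.mem_univ e) hh
    rw [hg]
    refine Submodule.sum_mem _ (fun e _ => Submodule.smul_mem _ _ ?_)
    obtain ⟨f, hf1, hf2⟩ := h e
    refine ⟨f, ?_⟩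
    funext e'
    rw [dm_apply]
    by_cases he : e' = e
    · subst he
      rw [Pi.single_eq_same]
      revert hf1
      generalize f (G.a e') = x
      generalize f (G.b e') = y
      revert x y
      decide
    · rw [Pi.single_eq_of_ne he]
      exact add_eq_zero_iff_eq'.2 (hf2 e' he)

/-! ### restriction and contraction -/

/-- all nodes, some lines -/
def sub (A : Set G.L) : FG where
  N := G.N
  L := {e // e ∈ A}
  fN := G.fN
  fL := inferInstance
  a e := G.a e.1
  b e := G.b e.1

/-- contraction of the lines of `A` -/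
def con (A : Set G.L) : FG where
  N := (G.sub A).C
  L := {e // e ∉ A}
  fN := inferInstance
  fL := inferInstance
  a e := (G.sub A).c (G.a e.1)
  b e := (G.sub A).c (G.b e.1)

/-- the components do not change under contraction -/
def conC (A : Set G.L) : (G.con A).C ≃ G.C where
  toFun := lift (G := G.con A) (lift (G := G.sub A) G.c (fun e => c_line e.1))
    (fun e => c_line (G := G) e.1)
  invFun := lift (G := G) (fun x => (G.con A).c ((G.sub A).c x)) (fun e => by
    by_cases h : e ∈ A
    · have := c_line (G := G.sub A) ⟨e, h⟩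
      exact congrArg (G.con A).c this
    · exact c_line (G := G.con A) ⟨e, h⟩)
  left_inv x := by
    obtain ⟨y, rfl⟩ := c_surj x
    obtain ⟨z, rfl⟩ := c_surj y
    rfl
  right_inv x := by
    obtain ⟨y, rfl⟩ := c_surj x
    rfl

theorem nC_con (A : Set G.L) : (G.con A).nC = G.nC := Nat.card_congr (G.conC A)

theorem nL_con (A : Set G.L) : (G.sub A).nL + (G.con A).nL = G.nL := by
  classical
  have := Fintype.ofFinite G.L
  have h := Nat.card_congr (Equiv.sumCompl (fun e : G.L => e ∈ A))
  rw [Nat.card_sum] at h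
  exact h

theorem nN_con (A : Set G.L) : (G.con A).nN = (G.sub A).nC := rfl

theorem nN_sub (A : Set G.L) : (G.sub A).nN = G.nN := rfl

/-- contraction -/
theorem b1_con (A : Set G.L) : G.b1 = (G.sub A).b1 + (G.con A).b1 := by
  unfold b1
  have h1 := G.nL_con A
  have h2 := G.nC_con A
  have h3 := G.nN_con A
  have h4 := G.nN_sub A
  omega

theorem b1_sub_le (A : Set G.L) : (G.sub A).b1 ≤ G.b1 := by
  have h1 := G.b1_con A
  have h2 := (G.con A).b1_nonneg
  omega

theorem b1_con_le (A : Set G.L) : (G.con A).b1 ≤ G.b1 := by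
  have h1 := G.b1_con A
  have h2 := (G.sub A).b1_nonneg
  omega

/-! ### isomorphisms -/

/-- isomorphism, lines may be reversed -/
structure Iso (G G' : FG) where
  n : G.N ≃ G'.N
  l : G.L ≃ G'.L
  h : ∀ e, (G'.a (l e) = n (G.a e) ∧ G'.b (l e) = n (G.b e)) ∨
    (G'.a (l e) = n (G.b e) ∧ G'.b (l e) = n (G.a e))

variable {G}

/-- a map of graphs, given on the nodes only -/
theorem c_map {G' : FG} (f : G.N → G'.N) (h : ∀ e, G'.c (f (G.a e)) = G'.c (f (G.b e)))
    {x y : G.N} (k : G.c x = G.c y) : G'.c (f x) = G'.c (f y) :=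
  const_of_line (f := fun x => G'.c (f x)) h (c_eq.1 k)

theorem Iso.line {G' : FG} (i : Iso G G') (e : G.L) :
    G'.c (i.n (G.a e)) = G'.c (i.n (G.b e)) := by
  have h1 := c_line (G := G') (i.l e)
  rcases i.h e with ⟨h2, h3⟩ | ⟨h2, h3⟩
  · rwa [h2, h3] at h1
  · rw [h2, h3] at h1
    exact h1.symm

/-- the inverse isomorphism -/
def Iso.symm {G' : FG} (i : Iso G G') : Iso G' G where
  n := i.n.symm
  l := i.l.symm
  h e := by
    rcases i.h (i.l.symm e) with ⟨h1, h2⟩ | ⟨h1, h2⟩
    · left
      rw [i.l.apply_symm_apply] at h1 h2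
      rw [h1, h2, i.n.symm_apply_apply, i.n.symm_apply_apply]
      exact ⟨rfl, rfl⟩
    · right
      rw [i.l.apply_symm_apply] at h1 h2
      rw [h1, h2, i.n.symm_apply_apply, i.n.symm_apply_apply]
      exact ⟨rfl, rfl⟩

/-- the components of isomorphic graphs -/
def Iso.C {G' : FG} (i : Iso G G') : G.C ≃ G'.C where
  toFun := lift (fun x => G'.c (i.n x)) i.line
  invFun := lift (fun x => G.c (i.symm.n x)) i.symm.line
  left_inv x := by
    obtain ⟨y, rfl⟩ := c_surj x
    show G.c (i.n.symm (i.n y)) = _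
    rw [i.n.symm_apply_apply]
  right_inv x := by
    obtain ⟨y, rfl⟩ := c_surj x
    show G'.c (i.n (i.n.symm y)) = _
    rw [i.n.apply_symm_apply]

theorem Iso.nN {G' : FG} (i : Iso G G') : G.nN = G'.nN := Nat.card_congr i.n

theorem Iso.nL {G' : FG} (i : Iso G G') : G.nL = G'.nL := Nat.card_congr i.l

theorem Iso.nC {G' : FG} (i : Iso G G') : G.nC = G'.nC := Nat.card_congr i.C

theorem Iso.b1 {G' : FG} (i : Iso G G') : G.b1 = G'.b1 := by
  unfold FG.b1
  rw [i.nN, i.nL, i.nC]

variable (G)

/-! ### partitions -/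

/-- the part of the graph over `i`, for a function which is constant along lines -/
def part {ι : Type} (f : G.N → ι) (h : ∀ e, f (G.a e) = f (G.b e)) (i : ι) : FG where
  N := {x // f x = i}
  L := {e // f (G.a e) = i}
  fN := inferInstance
  fL := inferInstance
  a e := ⟨G.a e.1, e.2⟩
  b e := ⟨G.b e.1, (h e.1).symm.trans e.2⟩

variable {G} in
theorem part_c {ι : Type} {f : G.N → ι} (h : ∀ e, f (G.a e) = f (G.b e)) {i : ι} {x y : G.N}
    (hxy : Relation.EqvGen G.st x y) : ∀ (hx : f x = i) (hy : f y = i),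
      (G.part f h i).c ⟨x, hx⟩ = (G.part f h i).c ⟨y, hy⟩ := by
  induction hxy with
  | rel x y e =>
    obtain ⟨e, rfl, rfl⟩ := e
    intro hx hy
    exact c_line (G := G.part f h i) ⟨e, hx⟩
  | refl x => intro _ _; rfl
  | symm x y _ ih => intro hx hy; exact (ih hy hx).symm
  | trans x y z h1 _ ih1 ih2 =>
    intro hx hz
    have hy : f y = i := (const_of_line h h1).symm.trans hx
    exact (ih1 hx hy).trans (ih2 hy hz)

/-- the components of the part -/
noncomputable def partC {ι : Type} (f : G.N → ι) (h : ∀ e, f (G.a e) = f (G.b e)) (i : ι) :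
    (G.part f h i).C ≃ {c : G.C // lift f h c = i} :=
  Equiv.ofBijective
    (lift (G := G.part f h i) (fun x => (⟨G.c x.1, x.2⟩ : {c : G.C // lift f h c = i}))
      (fun e => Subtype.ext (c_line (G := G) e.1))) (by
    constructor
    · intro x y hxy
      obtain ⟨x, rfl⟩ := c_surj x
      obtain ⟨y, rfl⟩ := c_surj y
      have h1 : G.c x.1 = G.c y.1 := congrArg Subtype.val hxy
      exact part_c h (c_eq.1 h1) x.2 y.2
    · rintro ⟨x, hx⟩
      obtain ⟨y, rfl⟩ := c_surj x
      exact ⟨(G.part f h i).c ⟨y, hx⟩, rfl⟩)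

theorem card_fib {T ι : Type} [Finite T] [Fintype ι] (f : T → ι) :
    Nat.card T = ∑ i, Nat.card {x // f x = i} := by
  classical
  have := Fintype.ofFinite T
  rw [← Nat.card_congr (Equiv.sigmaFiberEquiv f), Nat.card_sigma]

/-- the Betti number is the sum over the parts -/
theorem b1_part {ι : Type} [Fintype ι] (f : G.N → ι) (h : ∀ e, f (G.a e) = f (G.b e)) :
    G.b1 = ∑ i, (G.part f h i).b1 := by
  unfold b1
  rw [Finset.sum_add_distrib, Finset.sum_sub_distrib]
  have h1 : G.nL = ∑ i, (G.part f h i).nL := card_fib (fun e : G.L => f (G.a e))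
  have h2 : G.nN = ∑ i, (G.part f h i).nN := card_fib f
  have h3 : G.nC = ∑ i, (G.part f h i).nC := by
    rw [nC, card_fib (lift f h)]
    exact Finset.sum_congr rfl fun i _ => (Nat.card_congr (G.partC f h i)).symm
  rw [h1, h2, h3]
  push_cast
  ring

/-! ### degrees -/

/-- the degree of a node (a loop counts twice) -/
noncomputable def deg (x : G.N) : ℕ := Nat.card {e // G.a e = x} + Nat.card {e // G.b e = x}

theorem sum_deg [Fintype G.N] : ∑ x, G.deg x = 2 * G.nL := by
  unfold deg
  rw [Finset.sum_add_distrib, ← card_fib G.a, ← card_fib G.b]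
  unfold nL
  ring

/-- `∑ (deg - 2) = 2 (b1 - nC)` -/
theorem sum_deg_sub [Fintype G.N] : ∑ x, ((G.deg x : ℤ) - 2) = 2 * (G.b1 - G.nC) := by
  have h := G.sum_deg
  rw [Finset.sum_sub_distrib]
  have h1 : (∑ x, (G.deg x : ℤ)) = 2 * G.nL := by exact_mod_cast h
  rw [h1]
  have h2 : G.nN = Fintype.card G.N := Nat.card_eq_fintype_card
  simp only [Finset.sum_const, Finset.card_univ, nsmul_eq_mul]
  unfold b1
  rw [h2]
  ring

/-- connected -/
def Cn : Prop := G.nC = 1

theorem cn_iff : G.Cn ↔ Nonempty G.N ∧ ∀ x y, G.c x = G.c y := by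
  unfold Cn nC
  rw [Nat.card_eq_one_iff_unique]
  constructor
  · rintro ⟨h1, ⟨c⟩⟩
    obtain ⟨x, -⟩ := c_surj c
    exact ⟨⟨x⟩, fun x y => Subsingleton.elim _ _⟩
  · rintro ⟨⟨x⟩, h⟩
    refine ⟨⟨fun a b => ?_⟩, ⟨G.c x⟩⟩
    obtain ⟨a, rfl⟩ := c_surj a
    obtain ⟨b, rfl⟩ := c_surj b
    exact h a b

/-- a connected graph with `b1 = 0` -/
def Tr' : Prop := G.Cn ∧ G.b1 = 0

theorem Cn.b1 (h : G.Cn) : G.b1 = G.nL - G.nN + 1 := by
  unfold FG.b1
  rw [h]
  rfl

theorem Cn.sub_con {A : Set G.L} (h : G.Cn) : (G.con A).Cn := (G.nC_con A).trans h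

end FG

end Pool.Agent.DI
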