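import Pool.Agent.DI.QF
import Pool.Agent.DI.FG

/-!
# The quotient multigraph

`JM J T Ed`: a graph with vertices `T` and edges `Ed` (ends `s e`, `t e`; several edges between two
vertices allowed) with an action of `J`, finitely many orbits. `JM.fg`: the finite multigraph of the
orbits.

* `JM.b1_zero_iff`: `b1 = 0` in cut form; `JM.qf`, `JM.b1_zero_of_qf`: comparison with `QF`;
* `JM.cn_iff`: connected if the steps and the translations connect all vertices;
* `JM.subIso`, `JM.conIso`: invariant sets of edges, contraction;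
* `JM.compIso`, `JM.b1_comp`: the components with their groups.
-/

namespace Pool.Agent.DI

open MulAction

section

variable (J : Type) {T Ed : Type} [Group J] [MulAction J T] [MulAction J Ed]

/-- the orbit of a point -/
def oq (x : T) : orbitRel.Quotient J T := Quotient.mk'' x

variable {J}

theorem oq_eq {x y : T} : oq J x = oq J y ↔ ∃ j : J, y = j • x := by
  unfold oq
  rw [Quotient.eq'']
  constructor
  · rintro ⟨j, hj⟩
    refine ⟨j⁻¹, ?_⟩
    have hj : j • y = x := hj
    rw [← hj, inv_smul_smul]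
  · rintro ⟨j, rfl⟩
    exact ⟨j⁻¹, inv_smul_smul j x⟩

theorem oq_smul (j : J) (x : T) : oq J (j • x) = oq J x := (oq_eq.2 ⟨j, rfl⟩).symm

theorem oq_surj (q : orbitRel.Quotient J T) : ∃ x, oq J x = q := by
  induction q using Quotient.inductionOn' with
  | h x => exact ⟨x, rfl⟩

/-- functions on the orbits -/
def olift {B : Sort*} (f : T → B) (h : ∀ (j : J) (x : T), f (j • x) = f x) :
    orbitRel.Quotient J T → B :=
  Quotient.lift f (fun a b hab => by
    obtain ⟨j, hj⟩ := hab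
    have hj : j • b = a := hj
    rw [← hj, h])

@[simp] theorem olift_oq {B : Sort*} (f : T → B) (h : ∀ (j : J) (x : T), f (j • x) = f x) (x : T) :
    olift f h (oq J x) = f x := rfl

/-- a graph with an action -/
structure JM (J T Ed : Type) [Group J] [MulAction J T] [MulAction J Ed] where
  s : Ed → T
  t : Ed → T
  hs : ∀ (j : J) (e : Ed), s (j • e) = j • s e
  ht : ∀ (j : J) (e : Ed), t (j • e) = j • t e
  fT : Finite (orbitRel.Quotient J T)
  fE : Finite (orbitRel.Quotient J Ed)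

namespace JM

variable (M : JM J T Ed)

/-- the graph of the orbits -/
def fg : FG where
  N := orbitRel.Quotient J T
  L := orbitRel.Quotient J Ed
  fN := M.fT
  fL := M.fE
  a := olift (fun e => oq J (M.s e)) (fun j e => by rw [M.hs, oq_smul])
  b := olift (fun e => oq J (M.t e)) (fun j e => by rw [M.ht, oq_smul])

@[simp] theorem fg_a (e : Ed) : M.fg.a (oq J e) = oq J (M.s e) := rfl

@[simp] theorem fg_b (e : Ed) : M.fg.b (oq J e) = oq J (M.t e) := rfl

/-- `b1 = 0` in cut form -/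
theorem b1_zero_iff : M.fg.b1 = 0 ↔ ∀ e : Ed, ∃ f : T → ZMod 2,
    (∀ (j : J) (z : T), f (j • z) = f z) ∧ f (M.s e) ≠ f (M.t e) ∧
      ∀ e', f (M.s e') ≠ f (M.t e') → ∃ j : J, e' = j • e := by
  rw [FG.b1_zero_iff]
  constructor
  · intro h e
    obtain ⟨f, h1, h2⟩ := h (oq J e)
    refine ⟨fun x => f (oq J x : orbitRel.Quotient J T),
      fun j z => congrArg (fun q : orbitRel.Quotient J T => f q) (oq_smul j z), h1, ?_⟩
    intro e' h3
    by_contra hne
    apply h3
    apply h2 (oq J e')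
    intro h4
    exact hne (oq_eq.1 h4.symm)
  · intro h q
    obtain ⟨e, rfl⟩ := oq_surj q
    obtain ⟨f, h1, h2, h3⟩ := h e
    refine ⟨olift f h1, h2, ?_⟩
    intro q' hq'
    obtain ⟨e', rfl⟩ := oq_surj q'
    by_contra h4
    obtain ⟨j, hj⟩ := h3 e' h4
    exact hq' (oq_eq.2 ⟨j, hj⟩).symm

/-- adjacency -/
def E (x y : T) : Prop := ∃ e, (M.s e = x ∧ M.t e = y) ∨ (M.t e = x ∧ M.s e = y)

theorem E_symm {x y : T} (h : M.E x y) : M.E y x := by
  obtain ⟨e, h | h⟩ := h
  · exact ⟨e, Or.inr ⟨h.2, h.1⟩⟩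
  · exact ⟨e, Or.inl ⟨h.2, h.1⟩⟩

theorem E_smul (j : J) {x y : T} (h : M.E x y) : M.E (j • x) (j • y) := by
  obtain ⟨e, h | h⟩ := h
  · exact ⟨j • e, Or.inl ⟨by rw [M.hs, h.1], by rw [M.ht, h.2]⟩⟩
  · exact ⟨j • e, Or.inr ⟨by rw [M.ht, h.1], by rw [M.hs, h.2]⟩⟩

/-- `b1 = 0` gives a quotient forest -/
theorem qf (h : M.fg.b1 = 0) : QF J M.E where
  symm := fun _ _ => M.E_symm
  smul := fun j _ _ => M.E_smul j
  cut := by
    rintro x y ⟨e, he⟩
    obtain ⟨f, f1, f2, f3⟩ := M.b1_zero_iff.1 h e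
    refine ⟨f, f1, ?_, ?_⟩
    · rcases he with ⟨rfl, rfl⟩ | ⟨rfl, rfl⟩
      · exact f2
      · exact Ne.symm f2
    · rintro z w ⟨e', he'⟩ hne
      have : f (M.s e') ≠ f (M.t e') := by
        rcases he' with ⟨rfl, rfl⟩ | ⟨rfl, rfl⟩
        · exact hne
        · exact Ne.symm hne
      obtain ⟨j, rfl⟩ := f3 e' this
      refine ⟨j, ?_⟩
      rw [M.hs, M.ht] at he'
      rcases he with ⟨rfl, rfl⟩ | ⟨rfl, rfl⟩ <;> rcases he' with ⟨rfl, rfl⟩ | ⟨rfl, rfl⟩
      · exact Or.inl ⟨rfl, rfl⟩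
      · exact Or.inr ⟨rfl, rfl⟩
      · exact Or.inr ⟨rfl, rfl⟩
      · exact Or.inl ⟨rfl, rfl⟩

/-- a quotient forest gives `b1 = 0` if the edges are determined by their ends -/
theorem b1_zero_of_qf (Q : QF J M.E)
    (hinj : ∀ e e' : Ed, ((M.s e' = M.s e ∧ M.t e' = M.t e) ∨ (M.s e' = M.t e ∧ M.t e' = M.s e)) →
      ∃ k : J, e' = k • e) : M.fg.b1 = 0 := by
  rw [M.b1_zero_iff]
  intro e
  obtain ⟨f, f1, f2, f3⟩ := Q.cut (M.s e) (M.t e) ⟨e, Or.inl ⟨rfl, rfl⟩⟩
  refine ⟨f, f1, f2, ?_⟩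
  intro e' hne
  obtain ⟨j, hj⟩ := f3 _ _ ⟨e', Or.inl ⟨rfl, rfl⟩⟩ hne
  obtain ⟨k, hk⟩ := hinj (j • e) e' (by
    rw [M.hs, M.ht]
    exact hj)
  exact ⟨k * j, by rw [mul_smul, ← hk]⟩

/-! ### connectedness -/

/-- a step along an edge -/
def st (x y : T) : Prop := ∃ e, M.s e = x ∧ M.t e = y

theorem st_smul (j : J) {x y : T} (h : M.st x y) : M.st (j • x) (j • y) := by
  obtain ⟨e, rfl, rfl⟩ := h
  exact ⟨j • e, M.hs j e, M.ht j e⟩

theorem eqv_smul (j : J) {x y : T} (h : Relation.EqvGen M.st x y) :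
    Relation.EqvGen M.st (j • x) (j • y) := by
  induction h with
  | rel x y h => exact Relation.EqvGen.rel _ _ (M.st_smul j h)
  | refl x => exact Relation.EqvGen.refl _
  | symm x y _ ih => exact Relation.EqvGen.symm _ _ ih
  | trans x y z _ _ h1 h2 => exact Relation.EqvGen.trans _ _ _ h1 h2

theorem c_of_eqv {x y : T} (h : Relation.EqvGen M.st x y) :
    M.fg.c (oq J x) = M.fg.c (oq J y) := by
  induction h with
  | rel x y h =>
    obtain ⟨e, rfl, rfl⟩ := h
    exact FG.c_line (G := M.fg) (oq J e)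
  | refl x => rfl
  | symm x y _ ih => exact ih.symm
  | trans x y z _ _ h1 h2 => exact h1.trans h2

/-- two orbits are in the same component iff some translates are connected -/
theorem c_eq_iff {x y : T} : M.fg.c (oq J x) = M.fg.c (oq J y) ↔
    ∃ j : J, Relation.EqvGen M.st x (j • y) := by
  constructor
  · intro h
    rw [FG.c_eq] at h
    have key : ∀ p q : orbitRel.Quotient J T, Relation.EqvGen M.fg.st p q → ∀ x y : T,
        oq J x = p → oq J y = q → ∃ j : J, Relation.EqvGen M.st x (j • y) := by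
      intro p q hpq
      induction hpq with
      | rel p q h =>
        intro x y hx hy
        obtain ⟨e', h1, h2⟩ := h
        obtain ⟨e, rfl⟩ := oq_surj e'
        obtain ⟨j, hj⟩ := oq_eq.1 (h1.trans hx.symm)
        obtain ⟨k, hk⟩ := oq_eq.1 (h2.trans hy.symm)
        refine ⟨j * k⁻¹, Relation.EqvGen.rel _ _ ⟨j • e, ?_, ?_⟩⟩
        · rw [M.hs]; exact hj.symm
        · rw [M.ht, hk, mul_smul, inv_smul_smul]
      | refl p =>
        intro x y hx hy
        obtain ⟨j, hj⟩ := oq_eq.1 (hx.trans hy.symm)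
        refine ⟨j⁻¹, ?_⟩
        rw [hj, inv_smul_smul]
        exact Relation.EqvGen.refl _
      | symm p q _ ih =>
        intro x y hx hy
        obtain ⟨j, hj⟩ := ih y x hy hx
        refine ⟨j⁻¹, ?_⟩
        have := M.eqv_smul j⁻¹ hj
        rw [inv_smul_smul] at this
        exact Relation.EqvGen.symm _ _ this
      | trans p q r _ _ h1 h2 =>
        intro x y hx hy
        obtain ⟨z, hz⟩ := oq_surj q
        obtain ⟨j, hj⟩ := h1 x z hx hz
        obtain ⟨k, hk⟩ := h2 z y hz hy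
        refine ⟨j * k, Relation.EqvGen.trans _ _ _ hj ?_⟩
        rw [mul_smul]
        exact M.eqv_smul j hk
    exact key _ _ h x y rfl rfl
  · rintro ⟨j, hj⟩
    rw [M.c_of_eqv hj, oq_smul]

/-- connectedness of the quotient -/
theorem cn_iff : M.fg.Cn ↔ Nonempty T ∧ ∀ x y : T, ∃ j : J, Relation.EqvGen M.st x (j • y) := by
  rw [FG.cn_iff]
  constructor
  · rintro ⟨⟨q⟩, h⟩
    obtain ⟨x, -⟩ := oq_surj q
    exact ⟨⟨x⟩, fun x y => M.c_eq_iff.1 (h (oq J x) (oq J y))⟩
  · rintro ⟨⟨x⟩, h⟩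
    refine ⟨⟨oq J x⟩, ?_⟩
    intro p q
    obtain ⟨x, rfl⟩ := oq_surj p
    obtain ⟨y, rfl⟩ := oq_surj q
    exact M.c_eq_iff.2 (h x y)

theorem cn_of_conn (hne : Nonempty T) (h : ∀ x y : T, Relation.EqvGen M.st x y) : M.fg.Cn :=
  M.cn_iff.2 ⟨hne, fun x y => ⟨1, by rw [one_smul]; exact h x y⟩⟩

/-! ### invariant sets of edges -/

/-- the orbits in an invariant set -/
def im (A : SubMulAction J Ed) : Set (orbitRel.Quotient J Ed) := {q | ∃ e ∈ A, oq J e = q}

theorem mem_im {A : SubMulAction J Ed} {e : Ed} : oq J e ∈ im A ↔ e ∈ A := by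
  constructor
  · rintro ⟨e', he', h⟩
    obtain ⟨j, rfl⟩ := oq_eq.1 h
    exact A.smul_mem j he'
  · intro h
    exact ⟨e, h, rfl⟩

/-- orbits of an invariant set -/
noncomputable def imEquiv (A : SubMulAction J Ed) :
    orbitRel.Quotient J ↥A ≃ {q : orbitRel.Quotient J Ed // q ∈ im A} :=
  Equiv.ofBijective
    (olift (fun e : ↥A => (⟨oq J e.1, mem_im.2 e.2⟩ : {q : orbitRel.Quotient J Ed // q ∈ im A}))
      (fun j e => Subtype.ext (oq_smul j e.1))) (by
    constructor
    · intro p q h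
      obtain ⟨e, rfl⟩ := oq_surj p
      obtain ⟨e', rfl⟩ := oq_surj q
      have h' : oq J e.1 = oq J e'.1 := congrArg Subtype.val h
      obtain ⟨j, hj⟩ := oq_eq.1 h'
      exact oq_eq.2 ⟨j, Subtype.ext hj⟩
    · rintro ⟨q, hq⟩
      obtain ⟨e, rfl⟩ := oq_surj q
      exact ⟨oq J ⟨e, mem_im.1 hq⟩, rfl⟩)

@[simp] theorem imEquiv_oq (A : SubMulAction J Ed) (e : ↥A) :
    (imEquiv A (oq J e)).1 = oq J e.1 := rfl

/-- the graph with fewer edges -/
def sub (A : SubMulAction J Ed) : JM J T ↥A where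
  s e := M.s e.1
  t e := M.t e.1
  hs j e := M.hs j e.1
  ht j e := M.ht j e.1
  fT := M.fT
  fE := by
    have := M.fE
    exact Finite.of_equiv _ (imEquiv A).symm

/-- the quotient of the graph with fewer edges -/
noncomputable def subIso (A : SubMulAction J Ed) : FG.Iso (M.sub A).fg (M.fg.sub (im A)) where
  n := Equiv.refl _
  l := imEquiv A
  h q := by
    obtain ⟨e, rfl⟩ := oq_surj q
    exact Or.inl ⟨rfl, rfl⟩

/-! ### contraction -/

/-- the complement of an invariant set -/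
def cpl (A : SubMulAction J Ed) : SubMulAction J Ed where
  carrier := {e | e ∉ A}
  smul_mem' j e he h := he (by
    have := A.smul_mem j⁻¹ h
    rwa [inv_smul_smul] at this)

theorem mem_cpl {A : SubMulAction J Ed} {e : Ed} : e ∈ cpl A ↔ e ∉ A := Iff.rfl

/-- the relation generated by the edges in `A` -/
def cs (A : SubMulAction J Ed) : Setoid T := Relation.EqvGen.setoid (M.sub A).st

/-- the vertices modulo the edges in `A` -/
def CT (A : SubMulAction J Ed) : Type := Quotient (M.cs A)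

/-- the class of a vertex -/
def ct (A : SubMulAction J Ed) (x : T) : M.CT A := Quotient.mk (M.cs A) x

theorem ct_eq {A : SubMulAction J Ed} {x y : T} :
    M.ct A x = M.ct A y ↔ Relation.EqvGen (M.sub A).st x y :=
  ⟨fun h => Quotient.exact h, fun h => Quotient.sound (s := M.cs A) h⟩

theorem ct_surj {A : SubMulAction J Ed} (c : M.CT A) : ∃ x, M.ct A x = c := by
  induction c using Quotient.inductionOn with
  | h x => exact ⟨x, rfl⟩

instance (A : SubMulAction J Ed) : MulAction J (M.CT A) where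
  smul j := Quotient.map (fun x => j • x) (fun _ _ h => (M.sub A).eqv_smul j h)
  one_smul c := by
    induction c using Quotient.inductionOn with
    | h x => exact congrArg (M.ct A) (one_smul J x)
  mul_smul j k c := by
    induction c using Quotient.inductionOn with
    | h x => exact congrArg (M.ct A) (mul_smul j k x)

theorem ct_smul (A : SubMulAction J Ed) (j : J) (x : T) : M.ct A (j • x) = j • M.ct A x := rfl

/-- the contracted graph -/
def con (A : SubMulAction J Ed) : JM J (M.CT A) ↥(cpl A) where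
  s e := M.ct A (M.s e.1)
  t e := M.ct A (M.t e.1)
  hs j e := by
    show M.ct A (M.s (j • e.1)) = _
    rw [M.hs]
    rfl
  ht j e := by
    show M.ct A (M.t (j • e.1)) = _
    rw [M.ht]
    rfl
  fT := by
    have := M.fT
    refine Finite.of_surjective (olift (fun x : T => oq J (M.ct A x)) (fun j x => by
      rw [M.ct_smul, oq_smul])) ?_
    intro q
    obtain ⟨c, rfl⟩ := oq_surj q
    obtain ⟨x, rfl⟩ := M.ct_surj c
    exact ⟨oq J x, rfl⟩
  fE := by
    have := M.fE
    exact Finite.of_equiv _ (imEquiv (cpl A)).symm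

/-- orbits of classes are components of the subgraph of the quotient -/
noncomputable def conN (A : SubMulAction J Ed) :
    orbitRel.Quotient J (M.CT A) ≃ (M.sub A).fg.C :=
  Equiv.ofBijective
    (olift (Quotient.lift (fun x : T => (M.sub A).fg.c (oq J x))
      (fun _ _ h => (M.sub A).c_of_eqv h)) (by
        intro j c
        obtain ⟨x, rfl⟩ := M.ct_surj c
        show (M.sub A).fg.c (oq J (j • x)) = (M.sub A).fg.c (oq J x)
        rw [oq_smul])) (by
    constructor
    · intro p q h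
      obtain ⟨c, rfl⟩ := oq_surj p
      obtain ⟨x, rfl⟩ := M.ct_surj c
      obtain ⟨d, rfl⟩ := oq_surj q
      obtain ⟨y, rfl⟩ := M.ct_surj d
      have h' : (M.sub A).fg.c (oq J x) = (M.sub A).fg.c (oq J y) := h
      obtain ⟨j, hj⟩ := (M.sub A).c_eq_iff.1 h'
      rw [M.ct_eq.2 hj, M.ct_smul, oq_smul]
    · intro c
      obtain ⟨q, rfl⟩ := FG.c_surj c
      obtain ⟨x, rfl⟩ := oq_surj q
      exact ⟨oq J (M.ct A x), rfl⟩)

@[simp] theorem conN_oq (A : SubMulAction J Ed) (x : T) :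
    M.conN A (oq J (M.ct A x)) = (M.sub A).fg.c (oq J x) := rfl

/-- orbits outside of an invariant set -/
noncomputable def cplEquiv (A : SubMulAction J Ed) :
    orbitRel.Quotient J ↥(cpl A) ≃ {q : orbitRel.Quotient J Ed // q ∉ im A} :=
  (imEquiv (cpl A)).trans (Equiv.subtypeEquivRight (fun q => by
    obtain ⟨e, rfl⟩ := oq_surj q
    rw [mem_im, mem_im, mem_cpl]))

@[simp] theorem cplEquiv_oq (A : SubMulAction J Ed) (e : ↥(cpl A)) :
    (cplEquiv A (oq J e)).1 = oq J e.1 := rfl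

/-- the quotient of the contracted graph -/
noncomputable def conIso (A : SubMulAction J Ed) : FG.Iso (M.con A).fg (M.fg.con (im A)) where
  n := (M.conN A).trans (M.subIso A).C
  l := cplEquiv A
  h q := by
    obtain ⟨e, rfl⟩ := oq_surj q
    exact Or.inl ⟨rfl, rfl⟩

/-- contraction of an invariant set of edges -/
theorem b1_con (A : SubMulAction J Ed) : M.fg.b1 = (M.sub A).fg.b1 + (M.con A).fg.b1 := by
  rw [M.fg.b1_con (im A), (M.subIso A).b1, (M.conIso A).b1]

/-! ### components -/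

/-- the stabiliser of the component of `x` -/
def grp (x : T) : Subgroup J where
  carrier := {j | Relation.EqvGen M.st x (j • x)}
  one_mem' := by
    show Relation.EqvGen M.st x ((1 : J) • x)
    rw [one_smul]
    exact Relation.EqvGen.refl _
  mul_mem' {a b} ha hb := by
    show Relation.EqvGen M.st x ((a * b) • x)
    rw [mul_smul]
    exact Relation.EqvGen.trans _ _ _ ha (M.eqv_smul a hb)
  inv_mem' {a} ha := by
    show Relation.EqvGen M.st x (a⁻¹ • x)
    have := M.eqv_smul a⁻¹ ha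
    rw [inv_smul_smul] at this
    exact Relation.EqvGen.symm _ _ this

theorem mem_grp {x : T} {j : J} : j ∈ M.grp x ↔ Relation.EqvGen M.st x (j • x) := Iff.rfl

/-- the component of `x` -/
def cT (x : T) : SubMulAction ↥(M.grp x) T where
  carrier := {y | Relation.EqvGen M.st x y}
  smul_mem' j y hy := Relation.EqvGen.trans _ _ _ j.2 (M.eqv_smul j.1 hy)

theorem mem_cT {x y : T} : y ∈ M.cT x ↔ Relation.EqvGen M.st x y := Iff.rfl

/-- the edges of the component of `x` -/
def cE (x : T) : SubMulAction ↥(M.grp x) Ed where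
  carrier := {e | Relation.EqvGen M.st x (M.s e)}
  smul_mem' j e he := by
    show Relation.EqvGen M.st x (M.s (j.1 • e))
    rw [M.hs]
    exact Relation.EqvGen.trans _ _ _ j.2 (M.eqv_smul j.1 he)

theorem mem_cE {x : T} {e : Ed} : e ∈ M.cE x ↔ Relation.EqvGen M.st x (M.s e) := Iff.rfl

theorem mem_cE' {x : T} {e : Ed} : e ∈ M.cE x ↔ Relation.EqvGen M.st x (M.t e) := by
  have h : Relation.EqvGen M.st (M.s e) (M.t e) := Relation.EqvGen.rel _ _ ⟨e, rfl, rfl⟩
  exact ⟨fun k => Relation.EqvGen.trans _ _ _ k h,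
    fun k => Relation.EqvGen.trans _ _ _ k (Relation.EqvGen.symm _ _ h)⟩

/-- an element which moves a vertex of the component into the component -/
theorem grp_of {x y : T} {j : J} (hy : y ∈ M.cT x) (h : j • y ∈ M.cT x) : j ∈ M.grp x :=
  Relation.EqvGen.trans _ _ _ h (Relation.EqvGen.symm _ _ (M.eqv_smul j hy))

/-- the vertices of a component modulo its group -/
noncomputable def compN (x : T) : orbitRel.Quotient ↥(M.grp x) ↥(M.cT x) ≃
    {q : orbitRel.Quotient J T // M.fg.c q = M.fg.c (oq J x)} :=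
  Equiv.ofBijective
    (olift (fun y : ↥(M.cT x) => (⟨oq J y.1, (M.c_of_eqv y.2).symm⟩ :
      {q : orbitRel.Quotient J T // M.fg.c q = M.fg.c (oq J x)}))
      (fun j y => Subtype.ext (oq_smul j.1 y.1))) (by
    constructor
    · intro p q h
      obtain ⟨y, rfl⟩ := oq_surj p
      obtain ⟨z, rfl⟩ := oq_surj q
      have h' : oq J y.1 = oq J z.1 := congrArg Subtype.val h
      obtain ⟨j, hj⟩ := oq_eq.1 h'
      have hz := z.2
      rw [hj] at hz
      exact oq_eq.2 ⟨⟨j, M.grp_of y.2 hz⟩, Subtype.ext hj⟩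
    · rintro ⟨q, hq⟩
      obtain ⟨y, rfl⟩ := oq_surj q
      obtain ⟨j, hj⟩ := M.c_eq_iff.1 hq.symm
      exact ⟨oq _ ⟨j • y, hj⟩, Subtype.ext (oq_smul j y)⟩)

/-- the edges of a component modulo its group -/
noncomputable def compE (x : T) : orbitRel.Quotient ↥(M.grp x) ↥(M.cE x) ≃
    {q : orbitRel.Quotient J Ed // M.fg.c (M.fg.a q) = M.fg.c (oq J x)} :=
  Equiv.ofBijective
    (olift (fun e : ↥(M.cE x) => (⟨oq J e.1, (M.c_of_eqv e.2).symm⟩ :
      {q : orbitRel.Quotient J Ed // M.fg.c (M.fg.a q) = M.fg.c (oq J x)}))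
      (fun j e => Subtype.ext (oq_smul j.1 e.1))) (by
    constructor
    · intro p q h
      obtain ⟨y, rfl⟩ := oq_surj p
      obtain ⟨z, rfl⟩ := oq_surj q
      have h' : oq J y.1 = oq J z.1 := congrArg Subtype.val h
      obtain ⟨j, hj⟩ := oq_eq.1 h'
      have hz : M.s z.1 ∈ M.cT x := z.2
      rw [hj, M.hs] at hz
      exact oq_eq.2 ⟨⟨j, M.grp_of y.2 hz⟩, Subtype.ext hj⟩
    · rintro ⟨q, hq⟩
      obtain ⟨e, rfl⟩ := oq_surj q
      obtain ⟨j, hj⟩ := M.c_eq_iff.1 hq.symm
      refine ⟨oq _ ⟨j • e, ?_⟩, Subtype.ext (oq_smul j e)⟩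
      rw [M.mem_cE, M.hs]
      exact hj)

/-- a component with its group -/
def comp (x : T) : JM ↥(M.grp x) ↥(M.cT x) ↥(M.cE x) where
  s e := ⟨M.s e.1, e.2⟩
  t e := ⟨M.t e.1, M.mem_cE'.1 e.2⟩
  hs j e := Subtype.ext (M.hs j.1 e.1)
  ht j e := Subtype.ext (M.ht j.1 e.1)
  fT := by
    have := M.fT
    exact Finite.of_equiv _ (M.compN x).symm
  fE := by
    have := M.fE
    exact Finite.of_equiv _ (M.compE x).symm

/-- the quotient of a component by its group is a component of the quotient -/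
noncomputable def compIso (x : T) :
    FG.Iso (M.comp x).fg (M.fg.part M.fg.c (fun e => FG.c_line e) (M.fg.c (oq J x))) where
  n := M.compN x
  l := M.compE x
  h q := by
    obtain ⟨e, rfl⟩ := oq_surj q
    exact Or.inl ⟨rfl, rfl⟩

/-- the Betti number is the sum over the orbits of components -/
theorem b1_comp [Fintype M.fg.C] (r : M.fg.C → T) (hr : ∀ c, M.fg.c (oq J (r c)) = c) :
    M.fg.b1 = ∑ c, (M.comp (r c)).fg.b1 := by
  rw [M.fg.b1_part M.fg.c (fun e => FG.c_line e)]
  apply Finset.sum_congr rfl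
  intro c _
  rw [(M.compIso (r c)).b1, hr c]

theorem comp_conn (x : T) (y z : ↥(M.cT x)) : Relation.EqvGen (M.comp x).st y z := by
  have key : ∀ a b : T, Relation.EqvGen M.st a b → ∀ (ha : a ∈ M.cT x) (hb : b ∈ M.cT x),
      Relation.EqvGen (M.comp x).st ⟨a, ha⟩ ⟨b, hb⟩ := by
    intro a b h
    induction h with
    | rel a b h =>
      intro ha hb
      obtain ⟨e, rfl, rfl⟩ := h
      exact Relation.EqvGen.rel _ _ ⟨⟨e, ha⟩, rfl, rfl⟩
    | refl a => intro ha hb; exact Relation.EqvGen.refl _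
    | symm a b _ ih => intro ha hb; exact Relation.EqvGen.symm _ _ (ih hb ha)
    | trans a b c h1 h2 ih1 ih2 =>
      intro ha hc
      have hb : b ∈ M.cT x := Relation.EqvGen.trans _ _ _ ha h1
      exact Relation.EqvGen.trans _ _ _ (ih1 ha hb) (ih2 hb hc)
  exact key y.1 z.1 (Relation.EqvGen.trans _ _ _ (Relation.EqvGen.symm _ _ y.2) z.2) y.2 z.2

theorem comp_cn (x : T) : (M.comp x).fg.Cn :=
  (M.comp x).cn_of_conn ⟨⟨x, Relation.EqvGen.refl _⟩⟩ (M.comp_conn x)

end JM

end

end Pool.Agent.DI
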