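import Pool.Agent.DI.SB
import Pool.Agent.DI.QFM
import Pool.Agent.DI.DLA

/-!
# Self vertices and cycles: `s + b ≥ 2`

`JM.mN P`: the orbits of the nodes whose stabiliser satisfies `P`. A connected graph with an action
of a group of `D_inf` type with finite stabilisers: `2 ≤ s + b` where `s` is the number of orbits of
mirrored nodes and `b` is the Betti number of the quotient (`JM.two_le`). With an action of a group
with swaps (a surjective character `σ`): `1 ≤ s + b` (`JM.one_le`). The same for contracted graphs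
(`JM.two_le_con`, `JM.one_le_con`): the nodes are the local pieces, the edges are the crossing
corners.
-/

namespace Pool.Agent.DI

open MulAction
open Pool.Agent.SAF (orbs FinOrb oc oc_mono)

namespace JM

variable {J T Ed : Type} [Group J] [MulAction J T] [MulAction J Ed] (M : JM J T Ed)

/-- orbits of nodes with a property of the stabiliser -/
def mN (_M : JM J T Ed) (P : Subgroup J → Prop) : Set (orbitRel.Quotient J T) :=
  orbs J {x : T | P (stabilizer J x)}

theorem mem_mN {P : Subgroup J → Prop} {q : orbitRel.Quotient J T} :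
    q ∈ M.mN P ↔ ∃ x, P (stabilizer J x) ∧ oq J x = q := Iff.rfl

include M in
theorem finOrb_T (s : Set T) : FinOrb J s := by
  have := M.fT
  exact Set.toFinite _

include M in
theorem finOrb_E (s : Set Ed) : FinOrb J s := by
  have := M.fE
  exact Set.toFinite _

theorem oc_univ : oc J (Set.univ : Set T) = M.fg.nN := by
  have h : orbs J (Set.univ : Set T) = Set.univ := by
    ext q
    refine ⟨fun _ => trivial, fun _ => ?_⟩
    obtain ⟨x, rfl⟩ := oq_surj q
    exact ⟨x, trivial, rfl⟩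
  show (orbs J (Set.univ : Set T)).ncard = _
  rw [h, Set.ncard_univ]
  rfl

theorem oc_univE : oc J (Set.univ : Set Ed) = M.fg.nL := by
  have h : orbs J (Set.univ : Set Ed) = Set.univ := by
    ext q
    refine ⟨fun _ => trivial, fun _ => ?_⟩
    obtain ⟨x, rfl⟩ := oq_surj q
    exact ⟨x, trivial, rfl⟩
  show (orbs J (Set.univ : Set Ed)).ncard = _
  rw [h, Set.ncard_univ]
  rfl

theorem card_mN (P : Subgroup J → Prop) :
    Nat.card ↥(M.mN P) = oc J {x : T | P (stabilizer J x)} := rfl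

theorem toMG (hne : Nonempty T) (hconn : ∀ x y : T, Relation.EqvGen M.st x y) :
    MG J (Set.univ : Set T) (Set.univ : Set Ed) M.s M.t where
  P_smul _ _ _ := trivial
  Q_smul _ _ _ := trivial
  s_smul g e _ := M.hs g e
  t_smul g e _ := M.ht g e
  s_mem _ _ := trivial
  t_mem _ _ := trivial
  finP := M.finOrb_T _
  finQ := M.finOrb_E _
  ne := Set.univ_nonempty
  conn x _ y _ := by
    induction hconn x y with
    | rel x y e =>
      obtain ⟨e, h1, h2⟩ := e
      exact Relation.EqvGen.rel _ _ ⟨e, trivial, h1, h2⟩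
    | refl x => exact Relation.EqvGen.refl _
    | symm x y _ ih => exact Relation.EqvGen.symm _ _ (ih trivial trivial)
    | trans x y z _ _ ih1 ih2 =>
      exact Relation.EqvGen.trans _ _ _ (ih1 trivial trivial) (ih2 trivial trivial)

/-- the rank inequality -/
theorem rank_le (hne : Nonempty T) (hconn : ∀ x y : T, Relation.EqvGen M.st x y)
    {X : Submodule (ZMod 2) (J → ZMod 2)} [FiniteDimensional (ZMod 2) X]
    (hX : ∀ χ ∈ X, ∀ g h : J, χ (g * h) = χ g + χ h) (P : Subgroup J → Prop)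
    (hP : ∀ x : T, ∀ χ ∈ X, ∀ g ∈ stabilizer J x, χ g ≠ 0 → P (stabilizer J x))
    (h1 : ∀ x : T, ∀ χ ∈ X, ∀ χ' ∈ X, (∃ g ∈ stabilizer J x, χ g ≠ 0) →
      (∃ g ∈ stabilizer J x, χ' g ≠ 0) → ∀ g ∈ stabilizer J x, χ g = χ' g) :
    (Module.finrank (ZMod 2) X : ℤ) ≤ Nat.card ↥(M.mN P) + M.fg.b1 := by
  have h := (M.toMG hne hconn).rank_le (X := X) hX (by
    rintro v _ χ hχ χ' hχ' ⟨g, hg, hn⟩ ⟨g', hg', hn'⟩ k hk
    exact h1 v χ hχ χ' hχ' ⟨g, hg, hn⟩ ⟨g', hg', hn'⟩ k hk)
  have h2 : oc J (MirX J (Set.univ : Set T) X) ≤ oc J {x : T | P (stabilizer J x)} := by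
    apply oc_mono (M.finOrb_T _)
    rintro v ⟨_, χ, hχ, g, hg, hn⟩
    exact hP v χ hχ g hg hn
  rw [M.oc_univ, M.oc_univE] at h
  rw [M.card_mN, (M.cn_of_conn hne hconn).b1]
  omega

/-! ### groups of dihedral type -/

section dl

variable (L : DL J)

/-- the orientation character -/
def _root_.Pool.Agent.DI.DL.c1 (g : J) : ZMod 2 := if L.ε g = 1 then 0 else 1

/-- the translation character -/
def _root_.Pool.Agent.DI.DL.c2 (g : J) : ZMod 2 := (L.τ g : ZMod 2)

theorem _root_.Pool.Agent.DI.DL.c1_mul (g h : J) : L.c1 (g * h) = L.c1 g + L.c1 h := by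
  unfold DL.c1
  rw [map_mul]
  rcases L.ε_cases g with hg | hg <;> rcases L.ε_cases h with hh | hh <;> rw [hg, hh]
  · simp
  · simp
  · simp
  · have h1 : ((-1 : ℤˣ) * -1) = 1 := by decide
    have h2 : ¬ ((-1 : ℤˣ) = 1) := by decide
    rw [h1, if_pos rfl, if_neg h2]
    decide

theorem _root_.Pool.Agent.DI.DL.c2_mul (g h : J) : L.c2 (g * h) = L.c2 g + L.c2 h := by
  unfold DL.c2
  rw [L.τ_mul]
  push_cast
  rcases L.ε_cases g with hg | hg
  · rw [hg]
    push_cast
    ring
  · rw [hg]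
    have h1 : (((-1 : ℤˣ) : ℤ) : ZMod 2) = 1 := by
      rw [Units.val_neg, Units.val_one]
      push_cast
      decide
    rw [h1, one_mul]

/-- the characters -/
def _root_.Pool.Agent.DI.DL.X : Submodule (ZMod 2) (J → ZMod 2) :=
  Submodule.span (ZMod 2) (Set.range ![L.c1, L.c2])

theorem _root_.Pool.Agent.DI.DL.mem_X {χ : J → ZMod 2} :
    χ ∈ L.X ↔ ∃ a b : ZMod 2, ∀ g, χ g = a * L.c1 g + b * L.c2 g := by
  unfold DL.X
  rw [Matrix.range_cons, Matrix.range_cons, Matrix.range_empty, Set.union_empty,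
    Set.singleton_union, Submodule.mem_span_pair]
  constructor
  · rintro ⟨a, b, rfl⟩
    exact ⟨a, b, fun g => rfl⟩
  · rintro ⟨a, b, h⟩
    refine ⟨a, b, ?_⟩
    funext g
    exact (h g).symm

instance _root_.Pool.Agent.DI.DL.fdX : FiniteDimensional (ZMod 2) L.X := by
  unfold DL.X
  exact FiniteDimensional.span_of_finite _ (Set.finite_range _)

theorem _root_.Pool.Agent.DI.DL.rank_X : Module.finrank (ZMod 2) L.X = 2 := by
  unfold DL.X
  rw [finrank_span_eq_card]
  · rfl
  · rw [LinearIndependent.pair_iff]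
    intro a b h
    obtain ⟨g0, e0, t0⟩ := L.s0
    obtain ⟨g1, e1, t1⟩ := L.s1
    have h2 : ¬ ((-1 : ℤˣ) = 1) := by decide
    have k0 := congrFun h g0
    have k1 := congrFun h g1
    change a * L.c1 g0 + b * L.c2 g0 = 0 at k0
    change a * L.c1 g1 + b * L.c2 g1 = 0 at k1
    unfold DL.c1 DL.c2 at k0 k1
    rw [e0, t0, if_neg h2] at k0
    rw [e1, t1, if_neg h2] at k1
    simp only [Int.cast_zero, Int.cast_one, mul_one, mul_zero, add_zero] at k0 k1
    rw [k0, zero_add] at k1
    exact ⟨k0, k1⟩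

/-- the value of a character on a finite subgroup with place `p` -/
theorem _root_.Pool.Agent.DI.DL.char_St {p : ℤ} {a b : ZMod 2} {g : J} (hg : g ∈ L.St p) :
    a * L.c1 g + b * L.c2 g = if L.ε g = 1 then 0 else a + b * (p : ZMod 2) := by
  unfold DL.c1 DL.c2
  rcases L.mem_St_iff.1 hg with h | h
  · rw [L.mem_N] at h
    rw [if_pos h.1, if_pos h.1, h.2]
    simp
  · have h2 : ¬ ((-1 : ℤˣ) = 1) := by decide
    have h3 : L.ε g = -1 := h.1
    have h4 : L.τ g = p := h.2
    rw [h3, h4, if_neg h2, if_neg h2, mul_one]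

/-- `2 ≤ s + b` -/
theorem two_le (hne : Nonempty T) (hconn : ∀ x y : T, Relation.EqvGen M.st x y)
    (hfin : ∀ x : T, Finite ↥(stabilizer J x)) :
    (2 : ℤ) ≤ Nat.card ↥(M.mN L.Mir) + M.fg.b1 := by
  have h := M.rank_le hne hconn (X := L.X) (by
    intro χ hχ g h
    obtain ⟨a, b, e⟩ := L.mem_X.1 hχ
    rw [e, e, e, L.c1_mul, L.c2_mul]
    ring) L.Mir (by
    intro x χ hχ g hg hn
    obtain ⟨a, b, e⟩ := L.mem_X.1 hχ
    obtain ⟨p, hp⟩ := L.exists_place _ (hfin x)
    rw [e, L.char_St (hp hg)] at hn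
    refine ⟨g, hg, ?_⟩
    rcases L.ε_cases g with h1 | h1
    · rw [if_pos h1] at hn
      exact absurd rfl hn
    · exact h1) (by
    rintro x χ hχ χ' hχ' ⟨g, hg, hn⟩ ⟨g', hg', hn'⟩ k hk
    obtain ⟨a, b, e⟩ := L.mem_X.1 hχ
    obtain ⟨a', b', e'⟩ := L.mem_X.1 hχ'
    obtain ⟨p, hp⟩ := L.exists_place _ (hfin x)
    rw [e, L.char_St (hp hg)] at hn
    rw [e', L.char_St (hp hg')] at hn'
    rw [e, e', L.char_St (hp hk), L.char_St (hp hk)]
    have key : ∀ z : ZMod 2, z ≠ 0 → z = 1 := by decide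
    split_ifs with h0
    · rfl
    · rw [key (a + b * (p : ZMod 2)), key (a' + b' * (p : ZMod 2))]
      · split_ifs at hn' with h1
        · exact absurd rfl hn'
        · exact hn'
      · split_ifs at hn with h1
        · exact absurd rfl hn
        · exact hn)
  rw [L.rank_X] at h
  exact_mod_cast h

end dl

/-! ### swaps -/

section swap

variable (σ : J →* ℤˣ)

/-- contains a swap -/
def _root_.Pool.Agent.DI.Sw {J : Type} [Group J] (σ : J →* ℤˣ) (A : Subgroup J) : Prop :=
  ∃ a ∈ A, σ a = -1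

/-- `1 ≤ s + b` -/
theorem one_le (hne : Nonempty T) (hconn : ∀ x y : T, Relation.EqvGen M.st x y)
    (hσ : ∃ g, σ g = -1) : (1 : ℤ) ≤ Nat.card ↥(M.mN (Sw σ)) + M.fg.b1 := by
  obtain ⟨c, hc⟩ : ∃ c : J → ZMod 2, c = fun g => if σ g = 1 then 0 else 1 := ⟨_, rfl⟩
  have hne1 : ¬ ((-1 : ℤˣ) = 1) := by decide
  have hcm : ∀ g h, c (g * h) = c g + c h := by
    intro g h
    rw [hc]
    simp only [map_mul]
    rcases Int.units_eq_one_or (σ g) with hg | hg <;>
      rcases Int.units_eq_one_or (σ h) with hh | hh <;> rw [hg, hh]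
    · simp
    · simp
    · simp
    · have h1 : ((-1 : ℤˣ) * -1) = 1 := by decide
      rw [h1, if_pos rfl, if_neg hne1]
      decide
  have hc0 : c ≠ 0 := by
    intro h
    obtain ⟨g, hg⟩ := hσ
    have := congrFun h g
    rw [hc] at this
    change (if σ g = 1 then (0 : ZMod 2) else 1) = 0 at this
    rw [hg, if_neg hne1] at this
    exact absurd this (by decide)
  have hmem : ∀ χ ∈ Submodule.span (ZMod 2) {c}, χ = 0 ∨ χ = c := by
    intro χ hχ
    obtain ⟨a, rfl⟩ := Submodule.mem_span_singleton.1 hχ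
    have key : ∀ z : ZMod 2, z = 0 ∨ z = 1 := by decide
    rcases key a with rfl | rfl
    · exact Or.inl (zero_smul _ _)
    · exact Or.inr (one_smul _ _)
  have hfd : FiniteDimensional (ZMod 2) (Submodule.span (ZMod 2) {c}) :=
    FiniteDimensional.span_of_finite _ (Set.finite_singleton _)
  have h := M.rank_le hne hconn (X := Submodule.span (ZMod 2) {c}) (by
    intro χ hχ g h
    rcases hmem χ hχ with rfl | rfl
    · show (0 : ZMod 2) = 0 + 0
      rw [add_zero]
    · exact hcm g h) (Sw σ) (by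
    intro x χ hχ g hg hn
    refine ⟨g, hg, ?_⟩
    rcases hmem χ hχ with rfl | rfl
    · exact absurd rfl hn
    · rcases Int.units_eq_one_or (σ g) with h1 | h1
      · rw [hc] at hn
        simp only [h1, if_true] at hn
        exact absurd rfl hn
      · exact h1) (by
    rintro x χ hχ χ' hχ' ⟨g, hg, hn⟩ ⟨g', hg', hn'⟩ k hk
    rcases hmem χ hχ with rfl | rfl
    · exact absurd rfl hn
    · rcases hmem χ' hχ' with rfl | rfl
      · exact absurd rfl hn'
      · rfl)
  rw [finrank_span_singleton hc0] at h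
  exact_mod_cast h

end swap

/-! ### contracted graphs -/

theorem con_conn (A : SubMulAction J Ed) (hconn : ∀ x y : T, Relation.EqvGen M.st x y)
    (x y : M.CT A) : Relation.EqvGen (M.con A).st x y := by
  obtain ⟨x, rfl⟩ := M.ct_surj x
  obtain ⟨y, rfl⟩ := M.ct_surj y
  induction hconn x y with
  | rel x y e =>
    obtain ⟨e, rfl, rfl⟩ := e
    by_cases he : e ∈ A
    · have h1 : M.ct A (M.s e) = M.ct A (M.t e) :=
        M.ct_eq.2 (Relation.EqvGen.rel _ _ ⟨⟨e, he⟩, rfl, rfl⟩)
      rw [h1]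
      exact Relation.EqvGen.refl _
    · exact Relation.EqvGen.rel _ _ ⟨⟨e, he⟩, rfl, rfl⟩
  | refl x => exact Relation.EqvGen.refl _
  | symm x y _ ih => exact Relation.EqvGen.symm _ _ ih
  | trans x y z _ _ ih1 ih2 => exact Relation.EqvGen.trans _ _ _ ih1 ih2

theorem con_ne (A : SubMulAction J Ed) (hne : Nonempty T) : Nonempty (M.CT A) :=
  hne.map (M.ct A)

/-- the stabiliser of a local piece -/
theorem stab_ct (A : SubMulAction J Ed) (x : T) : stabilizer J (M.ct A x) = (M.sub A).grp x := by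
  ext j
  rw [mem_stabilizer_iff, mem_grp, ← M.ct_smul, ← M.ct_eq]
  exact ⟨fun h => h.symm, fun h => h.symm⟩

/-- `2 ≤ s + b` for the graph of the local pieces -/
theorem two_le_con (L : DL J) (A : SubMulAction J Ed) (hne : Nonempty T)
    (hconn : ∀ x y : T, Relation.EqvGen M.st x y)
    (hfin : ∀ x : T, Finite ↥((M.sub A).grp x)) :
    (2 : ℤ) ≤ Nat.card ↥((M.con A).mN L.Mir) + (M.con A).fg.b1 := by
  apply (M.con A).two_le L (M.con_ne A hne) (M.con_conn A hconn)
  intro c
  obtain ⟨x, rfl⟩ := M.ct_surj c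
  rw [M.stab_ct]
  exact hfin x

/-- `1 ≤ s + b` for the graph of the local pieces -/
theorem one_le_con (σ : J →* ℤˣ) (A : SubMulAction J Ed) (hne : Nonempty T)
    (hconn : ∀ x y : T, Relation.EqvGen M.st x y) (hσ : ∃ g, σ g = -1) :
    (1 : ℤ) ≤ Nat.card ↥((M.con A).mN (Sw σ)) + (M.con A).fg.b1 :=
  (M.con A).one_le σ (M.con_ne A hne) (M.con_conn A hconn) hσ

end JM

end Pool.Agent.DI
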