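import Pool.Agent.DI.LawJ

/-!
# The law of the pole excess

`FG.pst P`: the number of the lines with an end in `P` (pole strands), `FG.exc P = pst P - |P|` (pole
excess: pole strands minus pole ends). `FG.exc_law`: the contribution `aftE` after the step minus
the pole excess before the step is at least `|S| + |H| + |P| - 2 + 2 b`, `b` the Betti number
without the poles, with the equality case.

For a graph with an action: `JM.exc_D` (`b + (s + h + b - 2)`), `JM.exc_Z` (`2 (b - 1)`),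
`JM.exc_self` (`b + (s + h + b - 1)`), `JM.exc_non` (`2 b`), `JM.exc_hair` (`2 b`).
-/

namespace Pool.Agent.DI

open MulAction
open Pool.Agent.SAF (orbs FinOrb oc oc_mono)

namespace FG

variable (G : FG)

/-- pole strands: lines with an end in `P` -/
noncomputable def pst (P : Set G.N) : ℕ := Nat.card {e // G.a e ∈ P ∨ G.b e ∈ P}

/-- pole excess -/
noncomputable def exc (P : Set G.N) : ℤ := (G.pst P : ℤ) - Nat.card ↥P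

theorem pst_add (P : Set G.N) : G.pst P + (G.del P).nL = G.nL := by
  classical
  have h := Nat.card_congr (Equiv.sumCompl (fun e : G.L => G.a e ∈ P ∨ G.b e ∈ P))
  rw [Nat.card_sum] at h
  unfold pst nL
  rw [← h]
  congr 1
  apply Nat.card_congr
  exact Equiv.subtypeEquivRight (fun e => not_or.symm)

/-- Betti number, poles deleted -/
theorem b1_exc (hc : G.Cn) {P : Set G.N} (hP : (G.del P).Cn) :
    G.b1 = (G.del P).b1 + G.exc P := by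
  have h1 := G.pst_add P
  have h2 := G.nN_del P
  rw [hc.b1, hP.b1]
  unfold exc
  omega

theorem pst_empty : G.pst ∅ = 0 := by
  unfold pst
  have : IsEmpty {e // G.a e ∈ (∅ : Set G.N) ∨ G.b e ∈ (∅ : Set G.N)} :=
    ⟨fun e => e.2.elim (fun h => h) (fun h => h)⟩
  exact Nat.card_of_isEmpty

theorem exc_empty : G.exc ∅ = 0 := by
  unfold exc
  rw [pst_empty]
  simp

/-- THE LAW of the pole excess -/
theorem exc_law [Fintype G.N] (hc : G.Cn) {P H S : Set G.N} (hPH : ∀ x ∈ H, x ∉ P)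
    (hSD : ∀ x ∈ S, x ∉ P ∪ H) (hP : (G.del P).Cn) (hdeg : ∀ x ∈ H, G.deg x = 1)
    (hDD : G.nDD (P ∪ H) = 0) (hex : ∃ x, x ∉ P ∪ H) {e : G.N → ℕ}
    (h1 : ∀ x ∈ S, e x ≤ 1) (h2 : ∀ x, x ∉ P ∪ H → e x ≤ 2) :
    (Nat.card ↥S : ℤ) + Nat.card ↥H + Nat.card ↥P - 2 + 2 * (G.del P).b1 ≤
      G.aftE (P ∪ H) e - G.exc P ∧
    ((Nat.card ↥S : ℤ) + Nat.card ↥H + Nat.card ↥P - 2 + 2 * (G.del P).b1 =
      G.aftE (P ∪ H) e - G.exc P ↔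
      ∀ x, x ∉ P ∪ H → (x ∈ S → e x = 1) ∧ (x ∉ S → e x = 2)) := by
  have h3 := G.lawPE hc hPH hSD hP hdeg hDD hex h1 h2
  have h4 := G.b1_exc hc hP
  refine ⟨by omega, ?_⟩
  rw [← h3.2]
  constructor
  · intro h
    omega
  · intro h
    omega

end FG

namespace JM

variable {J T Ed : Type} [Group J] [MulAction J T] [MulAction J Ed] (M : JM J T Ed)

/-- a sink of type `D_inf`: `b + (s + h + b - 2)` -/
theorem exc_D [Fintype M.fg.N] (L : DL J) (hne : Nonempty T)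
    (hconn : ∀ x y : T, Relation.EqvGen M.st x y) (hfin : ∀ x : T, Finite ↥(stabilizer J x))
    {H : Set M.fg.N} (hH : H ⊆ M.mNf L.Mir) (hdeg : ∀ x ∈ H, M.fg.deg x = 1)
    (hDD : M.fg.nDD H = 0) (hex : ∃ x, x ∉ H)
    {e : M.fg.N → ℕ} (h1 : ∀ x ∈ M.mNf L.Mir, x ∉ H → e x ≤ 1) (h2 : ∀ x, x ∉ H → e x ≤ 2) :
    0 ≤ (Nat.card ↥(M.mNf L.Mir \ H) : ℤ) + Nat.card ↥H + M.fg.b1 - 2 ∧
    M.fg.b1 + ((Nat.card ↥(M.mNf L.Mir \ H) : ℤ) + Nat.card ↥H + M.fg.b1 - 2) ≤ M.fg.aftE H e ∧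
    (M.fg.b1 + ((Nat.card ↥(M.mNf L.Mir \ H) : ℤ) + Nat.card ↥H + M.fg.b1 - 2) = M.fg.aftE H e ↔
      ∀ x, x ∉ H → (x ∈ M.mNf L.Mir → e x = 1) ∧ (x ∉ M.mNf L.Mir → e x = 2)) := by
  obtain ⟨h3, h4, h5⟩ := M.lawE_D L hne hconn hfin hH hdeg hDD hex h1 h2
  refine ⟨h3, by omega, ?_⟩
  rw [← h5]
  constructor
  · intro h
    omega
  · intro h
    omega

/-- if nothing is gained at a sink of type `D_inf` then `b = 0`, `s + h = 2` and all local pieces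
have all their pole ends -/
theorem exc_D_eq [Fintype M.fg.N] (L : DL J) (hne : Nonempty T)
    (hconn : ∀ x y : T, Relation.EqvGen M.st x y) (hfin : ∀ x : T, Finite ↥(stabilizer J x))
    {H : Set M.fg.N} (hH : H ⊆ M.mNf L.Mir) (hdeg : ∀ x ∈ H, M.fg.deg x = 1)
    (hDD : M.fg.nDD H = 0) (hex : ∃ x, x ∉ H)
    {e : M.fg.N → ℕ} (h1 : ∀ x ∈ M.mNf L.Mir, x ∉ H → e x ≤ 1) (h2 : ∀ x, x ∉ H → e x ≤ 2)
    (h0 : M.fg.aftE H e ≤ 0) :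
    M.fg.b1 = 0 ∧ Nat.card ↥(M.mNf L.Mir \ H) + Nat.card ↥H = 2 ∧
      ∀ x, x ∉ H → (x ∈ M.mNf L.Mir → e x = 1) ∧ (x ∉ M.mNf L.Mir → e x = 2) := by
  obtain ⟨h3, h4, h5⟩ := M.exc_D L hne hconn hfin hH hdeg hDD hex h1 h2
  have h6 := M.fg.b1_nonneg
  exact ⟨by omega, by omega, h5.1 (by omega)⟩

/-- a sink of type `ℤ`: `2 (b - 1)` -/
theorem exc_Z [Fintype M.fg.N] (hne : Nonempty T)
    (hconn : ∀ x y : T, Relation.EqvGen M.st x y)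
    (τ : J → ℤ) (hτ : ∀ g h, τ (g * h) = τ g + τ h) (hτ1 : ∃ g, τ g = 1)
    (hτ0 : ∀ x : T, ∀ g ∈ stabilizer J x, τ g = 0) {e : M.fg.N → ℕ} (h2 : ∀ x, e x ≤ 2) :
    0 ≤ M.fg.b1 - 1 ∧ 2 * (M.fg.b1 - 1) ≤ M.fg.aftE ∅ e ∧
    (2 * (M.fg.b1 - 1) = M.fg.aftE ∅ e ↔ ∀ x, e x = 2) := by
  obtain ⟨h3, h4, h5⟩ := M.lawE_Z hne hconn τ hτ hτ1 hτ0 h2
  refine ⟨h3, by omega, ?_⟩
  rw [← h5]
  constructor
  · intro h
    omega
  · intro h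
    omega

/-- a self piece: `b + (s + h + b - 1)` -/
theorem exc_self [Fintype M.fg.N] (σ : J →* ℤˣ) (hσ : ∃ g, σ g = -1) (hM : M.fg.Cn)
    {Pl : SubMulAction J T} (hp1 : Nat.card ↥(M.imN Pl) = 1)
    (hconn : ∀ x y : ↥(cpl Pl), Relation.EqvGen (M.dn Pl).st x y)
    {H : Set M.fg.N} (hH : H ⊆ M.mNf (Sw σ)) (hHP : ∀ x ∈ H, x ∉ M.imN Pl)
    (hdeg : ∀ x ∈ H, M.fg.deg x = 1) (hDD : M.fg.nDD (M.imN Pl ∪ H) = 0)
    (hex : ∃ x : M.fg.N, x ∉ M.imN Pl ∪ H)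
    {e : M.fg.N → ℕ} (h1 : ∀ x ∈ M.mNf (Sw σ), x ∉ M.imN Pl ∪ H → e x ≤ 1)
    (h2 : ∀ x, x ∉ M.imN Pl ∪ H → e x ≤ 2) :
    0 ≤ (Nat.card ↥(M.mNf (Sw σ) \ (M.imN Pl ∪ H)) : ℤ) + Nat.card ↥H + (M.dn Pl).fg.b1 - 1 ∧
    (M.dn Pl).fg.b1 + ((Nat.card ↥(M.mNf (Sw σ) \ (M.imN Pl ∪ H)) : ℤ) + Nat.card ↥H +
      (M.dn Pl).fg.b1 - 1) ≤ M.fg.aftE (M.imN Pl ∪ H) e - M.fg.exc (M.imN Pl) ∧
    ((M.dn Pl).fg.b1 + ((Nat.card ↥(M.mNf (Sw σ) \ (M.imN Pl ∪ H)) : ℤ) + Nat.card ↥H +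
      (M.dn Pl).fg.b1 - 1) = M.fg.aftE (M.imN Pl ∪ H) e - M.fg.exc (M.imN Pl) ↔
      ∀ x, x ∉ M.imN Pl ∪ H →
        (x ∈ M.mNf (Sw σ) → e x = 1) ∧ (x ∉ M.mNf (Sw σ) → e x = 2)) := by
  obtain ⟨h3, h4, h5⟩ := M.lawE_self σ hσ hM hp1 hconn hH hHP hdeg hDD hex h1 h2
  have hb := M.fg.b1_exc hM (M.del_cn (M.exists_not_of hex) hconn)
  rw [← (M.dnIso Pl).b1] at hb
  refine ⟨h3, by omega, ?_⟩
  rw [← h5]
  constructor
  · intro h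
    omega
  · intro h
    omega

/-- if nothing is gained at a self piece then `b = 0`, `s + h = 1` and all local pieces have all
their pole ends -/
theorem exc_self_eq [Fintype M.fg.N] (σ : J →* ℤˣ) (hσ : ∃ g, σ g = -1) (hM : M.fg.Cn)
    {Pl : SubMulAction J T} (hp1 : Nat.card ↥(M.imN Pl) = 1)
    (hconn : ∀ x y : ↥(cpl Pl), Relation.EqvGen (M.dn Pl).st x y)
    {H : Set M.fg.N} (hH : H ⊆ M.mNf (Sw σ)) (hHP : ∀ x ∈ H, x ∉ M.imN Pl)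
    (hdeg : ∀ x ∈ H, M.fg.deg x = 1) (hDD : M.fg.nDD (M.imN Pl ∪ H) = 0)
    (hex : ∃ x : M.fg.N, x ∉ M.imN Pl ∪ H)
    {e : M.fg.N → ℕ} (h1 : ∀ x ∈ M.mNf (Sw σ), x ∉ M.imN Pl ∪ H → e x ≤ 1)
    (h2 : ∀ x, x ∉ M.imN Pl ∪ H → e x ≤ 2)
    (h0 : M.fg.aftE (M.imN Pl ∪ H) e ≤ M.fg.exc (M.imN Pl)) :
    (M.dn Pl).fg.b1 = 0 ∧
      Nat.card ↥(M.mNf (Sw σ) \ (M.imN Pl ∪ H)) + Nat.card ↥H = 1 ∧
      ∀ x, x ∉ M.imN Pl ∪ H →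
        (x ∈ M.mNf (Sw σ) → e x = 1) ∧ (x ∉ M.mNf (Sw σ) → e x = 2) := by
  obtain ⟨h3, h4, h5⟩ := M.exc_self σ hσ hM hp1 hconn hH hHP hdeg hDD hex h1 h2
  have h6 := (M.dn Pl).fg.b1_nonneg
  exact ⟨by omega, by omega, h5.1 (by omega)⟩

/-- a piece which is not self with two orbits of poles: `2 b` -/
theorem exc_non [Fintype M.fg.N] (hM : M.fg.Cn) {Pl : SubMulAction J T}
    (hp : Nat.card ↥(M.imN Pl) = 2) (hne : ∃ x, x ∉ Pl)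
    (hconn : ∀ x y : ↥(cpl Pl), Relation.EqvGen (M.dn Pl).st x y)
    (hDD : M.fg.nDD (M.imN Pl) = 0)
    {e : M.fg.N → ℕ} (h2 : ∀ x, x ∉ M.imN Pl → e x ≤ 2) :
    0 ≤ (M.dn Pl).fg.b1 ∧
    2 * (M.dn Pl).fg.b1 ≤ M.fg.aftE (M.imN Pl) e - M.fg.exc (M.imN Pl) ∧
    (2 * (M.dn Pl).fg.b1 = M.fg.aftE (M.imN Pl) e - M.fg.exc (M.imN Pl) ↔
      ∀ x, x ∉ M.imN Pl → e x = 2) := by
  obtain ⟨h3, h4, h5⟩ := M.lawE_non hM hp hne hconn hDD h2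
  have hb := M.fg.b1_exc hM (M.del_cn hne hconn)
  rw [← (M.dnIso Pl).b1] at hb
  refine ⟨h3, by omega, ?_⟩
  rw [← h5]
  constructor
  · intro h
    omega
  · intro h
    omega

/-- a piece with one orbit of poles and a local piece with at most one pole end: `≥ 2 b` -/
theorem exc_hair [Fintype M.fg.N] (hM : M.fg.Cn) {Pl : SubMulAction J T}
    (hp : Nat.card ↥(M.imN Pl) = 1)
    (hconn : ∀ x y : ↥(cpl Pl), Relation.EqvGen (M.dn Pl).st x y)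
    (hDD : M.fg.nDD (M.imN Pl) = 0)
    {e : M.fg.N → ℕ} (h2 : ∀ x, x ∉ M.imN Pl → e x ≤ 2)
    (h1 : ∃ x, x ∉ M.imN Pl ∧ e x ≤ 1) :
    2 * (M.dn Pl).fg.b1 ≤ M.fg.aftE (M.imN Pl) e - M.fg.exc (M.imN Pl) := by
  have h4 := M.lawE_hair hM hp hconn hDD h2 h1
  have hne : ∃ x, x ∉ Pl := by
    obtain ⟨x, hx, _⟩ := h1
    obtain ⟨x, rfl⟩ := oq_surj x
    exact ⟨x, fun h => hx (M.mem_imN.2 h)⟩
  have hb := M.fg.b1_exc hM (M.del_cn hne hconn)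
  rw [← (M.dnIso Pl).b1] at hb
  omega

end JM

end Pool.Agent.DI
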