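import Pool.Agent.DI.LkE
import Pool.Agent.DI.ExcJ

/-!
# The pole excess of a complex (all cells free)

`K.strs`: the positions of cells which are pole strands (in-arrow - pole); `K.pols`: the private poles;
`K.pexc` = # strands - # private poles (orbits). `K.pexc_pc`: it is `FG.exc` of `K.pc` at the private poles.

-/

namespace Pool.Agent.DI

open MulAction
open Pool.Agent.SAF (InC orbs FinOrb oc mk_eq_iff FinOrb_iff)

namespace JM

variable {J T Ed : Type} [Group J] [MulAction J T] [MulAction J Ed] (M : JM J T Ed)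

/-- the number of the orbits in an invariant set of vertices -/
theorem card_imN (D : SubMulAction J T) : Nat.card ↥(M.imN D) = oc J (D : Set T) := by
  rw [← card_sub D]
  exact (Nat.card_congr (JM.imEquiv D)).symm

/-- the lines with an end in `D` -/
def inE (D : SubMulAction J T) : SubMulAction J Ed where
  carrier := {e | M.s e ∈ D ∨ M.t e ∈ D}
  smul_mem' j e he := by
    show M.s (j • e) ∈ D ∨ M.t (j • e) ∈ D
    rw [M.hs, M.ht]
    exact he.imp (D.smul_mem j) (D.smul_mem j)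

/-- the number of the lines with an end in `D` -/
theorem pst_imN (D : SubMulAction J T) : M.fg.pst (M.imN D) = oc J (M.inE D : Set Ed) := by
  rw [← card_sub (M.inE D)]
  symm
  refine (Nat.card_congr (JM.imEquiv (M.inE D))).trans (Nat.card_congr ?_)
  refine Equiv.subtypeEquivRight fun q => ?_
  obtain ⟨e, rfl⟩ := oq_surj q
  rw [JM.mem_im]
  exact or_congr (M.mem_imN (Q := D) (x := M.s e)).symm (M.mem_imN (Q := D) (x := M.t e)).symm

/-- the excess -/
theorem exc_imN (D : SubMulAction J T) :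
    M.fg.exc (M.imN D) = (oc J (M.inE D : Set Ed) : ℤ) - oc J (D : Set T) := by
  unfold FG.exc
  rw [M.pst_imN, M.card_imN]

end JM

namespace GX

variable {H V : Type} [Group H] [MulAction H V] (K : GX H V)

/-- THE POLE STRANDS -/
def strs : Set K.LE := {e | (K.ar (K.c0 e) (K.c1 e) ∧ K.ar (K.c1 e) (K.c2 e)) ∨
  (K.ar (K.c2 e) (K.c1 e) ∧ K.ar (K.c1 e) (K.c0 e))}

/-- THE PRIVATE POLES -/
def pols : Set (PN V) := {t | ∃ y a n, t = PN.pol y a (K.Pc y n) ∧ K.ar y a ∧ K.ar n y ∧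
  K.Cor a y n}

/-- THE POLE EXCESS -/
noncomputable def pexc : ℤ := (oc H K.strs : ℤ) - oc H K.pols

variable {K}

theorem not_both' {a b : V} (h : K.ar a b) : ¬ K.ar b a := fun k =>
  absurd (K.ar_rk _ _ h) (not_lt.2 (K.ar_rk _ _ k).le)

variable (K)

theorem strs_inv (h : H) : ∀ e ∈ K.strs, h • e ∈ K.strs := by
  intro e he
  show (K.ar (K.c0 (h • e)) (K.c1 (h • e)) ∧ K.ar (K.c1 (h • e)) (K.c2 (h • e))) ∨
    (K.ar (K.c2 (h • e)) (K.c1 (h • e)) ∧ K.ar (K.c1 (h • e)) (K.c0 (h • e)))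
  rw [K.c0_smul, K.c1_smul, K.c2_smul]
  exact he.imp (fun k => ⟨K.ar_smul h _ _ k.1, K.ar_smul h _ _ k.2⟩)
    (fun k => ⟨K.ar_smul h _ _ k.1, K.ar_smul h _ _ k.2⟩)

theorem pols_inv (h : H) : ∀ t ∈ K.pols, h • t ∈ K.pols := by
  rintro _ ⟨y, a, n, rfl, h1, h2, h3⟩
  refine ⟨h • y, h • a, h • n, ?_, K.ar_smul h _ _ h1, K.ar_smul h _ _ h2, h3.smul h⟩
  rw [PN.smul_pol, Pc_smul]

theorem fin_strs : FinOrb H K.strs := SAF.FinOrb.mono (Set.subset_univ _) K.fin_LE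

theorem pols_sub : K.pols ⊆ (K.PT : Set (PN V)) := by
  rintro t ⟨y, a, n, rfl, h1, h2, h3⟩
  exact ⟨h1, n, h2, h3, rfl⟩

theorem fin_pols : FinOrb H K.pols := SAF.FinOrb.mono K.pols_sub K.fin_PT

/-- the private poles as nodes of `K.pc` -/
def PO : SubMulAction H ↥K.PT where
  carrier := {t | t.1 ∈ K.pols}
  smul_mem' h t ht := K.pols_inv h t.1 ht

theorem nd_pols {y a b : V} (hc : K.Cor a y b) (h : K.ar a y ∨ K.ar b y) :
    K.nd y a b ∈ K.pols ↔ K.ar y a := by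
  constructor
  · rintro ⟨y', a', n, e, h1, h2, h3⟩
    rcases hc.E1 with k | k
    · exact k
    · rw [K.nd_in k] at e
      cases e
  · intro k
    rw [K.nd_pol k]
    exact ⟨y, a, b, rfl, k, h.resolve_left (not_both' k), hc⟩

/-- the lines at the private poles -/
theorem inE_PO (e : ↥K.PE) : e ∈ K.pc.inE K.PO ↔ e.1 ∈ K.strs := by
  have hc := K.cor_c e.1
  have h1 : K.pc.s e ∈ K.PO ↔ K.ar (K.c1 e.1) (K.c0 e.1) := K.nd_pols hc e.2
  have h2 : K.pc.t e ∈ K.PO ↔ K.ar (K.c1 e.1) (K.c2 e.1) := K.nd_pols hc.symm e.2.symm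
  have h3 : e ∈ K.pc.inE K.PO ↔ K.pc.s e ∈ K.PO ∨ K.pc.t e ∈ K.PO := Iff.rfl
  rw [h3, h1, h2]
  constructor
  · rintro (k | k)
    · exact Or.inr ⟨e.2.resolve_left (not_both' k), k⟩
    · exact Or.inl ⟨e.2.resolve_right (not_both' k), k⟩
  · rintro (k | k)
    · exact Or.inr k.2
    · exact Or.inl k.2

theorem oc_inE : oc H (K.pc.inE K.PO : Set ↥K.PE) = oc H K.strs := by
  refine oc_bij ?_ K.fin_strs ?_ (fun e => e.1) (fun h e _ => rfl) ?_ ?_ ?_
  · exact SAF.FinOrb.of_inj (H' := H) K.fin_LE (fun e => e.1) (fun _ _ => trivial)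
      (fun a _ b _ ⟨h, e⟩ => ⟨h, Subtype.ext e⟩)
  · exact fun h a ha => (K.pc.inE K.PO).smul_mem h ha
  · exact fun e he => (K.inE_PO e).1 he
  · intro e he
    have h : e ∈ K.PE := by
      rcases he with k | k
      · exact Or.inl k.1
      · exact Or.inr k.1
    exact ⟨⟨e, h⟩, (K.inE_PO ⟨e, h⟩).2 he, rfl⟩
  · exact fun a _ b _ e => Subtype.ext e

theorem oc_PO : oc H (K.PO : Set ↥K.PT) = oc H K.pols := by
  refine oc_bij ?_ K.fin_pols ?_ (fun t => t.1) (fun h e _ => rfl) ?_ ?_ ?_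
  · exact SAF.FinOrb.of_inj (H' := H) K.fin_PT (fun t => t.1) (fun a _ => a.2)
      (fun a _ b _ ⟨h, e⟩ => ⟨h, Subtype.ext e⟩)
  · exact fun h a ha => K.PO.smul_mem h ha
  · exact fun t ht => ht
  · exact fun t ht => ⟨⟨t, K.pols_sub ht⟩, ht, rfl⟩
  · exact fun a _ b _ e => Subtype.ext e

/-- THE POLE EXCESS OF THE GRAPH OF THE PIECES -/
theorem pexc_pc : K.pc.fg.exc (K.pc.imN K.PO) = K.pexc := by
  rw [JM.exc_imN, K.oc_inE, K.oc_PO]
  rfl

end GX

end Pool.Agent.DI
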