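import Pool.Agent.DI.FCk

/-!
# No edge of the raw slice is collapsed by the folds

`arQ_map'`: the image of an arrow of the raw slice is an arrow (in one of the two directions).
`SAr.fq_ne`, `sqN`: the steps of all cells of the raw slice are not collapsed (no minimality needed).
-/

namespace Pool.Agent.DI

open MulAction
open Pool.Agent.SAF (InC orbs FinOrb oc Decomp SAn SA Conv hull dist_edge FinOrb_iff exists_next)
open Pool.Agent.BT (PX PQ JS bey exits lz lz_self lz_ne lz_symm x_next_unique)
open Pool.Agent.BT.TA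

namespace SyQ

variable {H V : Type} [Group H] [MulAction H V] {S : SyQ H V}

/-- the image of an arrow is an arrow, possibly reversed -/
theorem arQ_map' {w : S.X} {O : S.OR w} {a b : S.SV w} (h : S.SAr w a b) :
    S.arQ w O (S.fq w O a) (S.fq w O b) ∨ S.arQ w O (S.fq w O b) (S.fq w O a) := by
  have key : ∀ n, ∀ (x s : V) (hx : w ∈ S.J x) (hs : w ∈ S.J s), S.K.rk x ≤ n → S.K.ar x s →
      S.arQ w O (S.fq w O (S.rho w x)) (S.fq w O (S.rho w s)) ∨
        S.arQ w O (S.fq w O (S.rho w s)) (S.fq w O (S.rho w x)) := by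
    intro n
    induction n with
    | zero =>
      intro x s _ _ hn e
      have := S.K.ar_rk _ _ e
      omega
    | succ n ih =>
      intro x s hx hs hn e
      by_cases hsk : ∃ u, S.Sk w O u (Sum.inl ⟨x, hx⟩)
      · obtain ⟨u, hu⟩ := hsk
        have hd : S.SD w u.1 x := (Sk.inl.1 hu).1
        have h1 := hd.1.two e
        have h2 := arQ_up (O := O) h1.1 h1.2
        right
        rw [S.rho_near hx, fq_inr.2 hu]
        exact h2
      · push Not at hsk
        by_cases hd : ∃ y, S.Dn w O x y
        · obtain ⟨y, u, s', hu, hc, h1, h2, h3, h4, h5⟩ := hd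
          have hy : S.Dn w O x y := ⟨u, s', hu, hc, h1, h2, h3, h4, h5⟩
          obtain rfl : s' = s := ar_ar_eq hc.1 h1 h2 e hs hu hc.2
          have hrk := S.K.ar_rk _ _ e
          have := ih s' y hs hy.mem.2 (by omega) h4
          rw [hy.fq]
          exact this.symm
        · push Not at hd
          exact Or.inl (arQ_term hx hsk hd (sar_hor hx hs e))
  cases h with
  | hor x s e =>
    have := key _ x.1 s.1 x.2 s.2 le_rfl e
    rw [S.rho_near x.2, S.rho_near s.2] at this
    exact this
  | up x u e =>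
    have := arQ_up (S := S) (w := w) (O := O) (x := x.1) u.2 ⟨x.2, e⟩
    rw [S.rho_near x.2] at this
    exact Or.inl this

/-- no arrow is collapsed -/
theorem SAr.fq_ne {w : S.X} {O : S.OR w} {a b : S.SV w} (h : S.SAr w a b) :
    S.fq w O a ≠ S.fq w O b := by
  intro e
  rcases arQ_map' (O := O) h with k | k
  · have := arQ_rk k
    rw [e] at this
    omega
  · have := arQ_rk k
    rw [e] at this
    omega

/-- no edge of the raw slice is collapsed -/
theorem k0_fq_ne {hc : S.Conn} {w : S.X} {O : S.OR w} {a b : S.SV w} (h : (S.k0 hc w).E a b) :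
    S.fq w O a ≠ S.fq w O b := by
  rcases h with h | h
  · exact SAr.fq_ne h
  · exact (SAr.fq_ne h).symm

/-- the image of an edge is an edge -/
theorem k0_fq_E {hc : S.Conn} {w : S.X} {O : S.OR w} {a b : S.SV w} (h : (S.k0 hc w).E a b) :
    (S.kf hc w O).E (S.fq w O a) (S.fq w O b) := by
  rcases h with h | h
  · rcases arQ_map' (O := O) h with k | k
    · exact Or.inl k
    · exact Or.inr k
  · rcases arQ_map' (O := O) h with k | k
    · exact Or.inr k
    · exact Or.inl k

variable (S)

/-- THE STEPS OF THE SQUARES ARE NOT COLLAPSED -/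
theorem sqN (hc : S.Conn) (w : S.X) (O : S.OR w) : S.SqN w O := by
  intro p _ k
  have h := (S.k0P hc w).E4 (i := Sum.inr p) ⟨p, rfl⟩ k
  rw [S.k0P_qt, S.k0P_qt] at h
  exact k0_fq_ne h

/-- the steps of the pentagons are not collapsed -/
theorem kf_ne' (hc : S.Conn) (w : S.X) (O : S.OR w) (i : S.C5 w) (k : Fin 5) :
    S.fq w O (S.rho w (S.tr i.g i.1 k)) ≠ S.fq w O (S.rho w (S.tr i.g i.1 (k + 1))) := by
  have hs : ¬ (S.k0P hc w).sq (Sum.inl i) := by
    rintro ⟨p, hp⟩
    cases hp
  have h := (S.k0P hc w).E5 hs k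
  exact k0_fq_ne h

end SyQ

end Pool.Agent.DI
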