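import Pool.Agent.SAF.AOrb

/-!
# Algebra of orbit numbers

`Dj G A B`: no orbit meets both. `oc_union`, `oc_add_le`: additivity. `oc_slice`: the orbits of a set of
flags and of the flags with a fixed second entry. `oc_pairs`: pairs over a set with exactly two elements
over each point; special points are counted once.
-/

namespace Pool.Agent.DI

open MulAction
open Pool.Agent.SAF (orbs FinOrb oc FinOrb_iff oc_mono oc_le_of_inj oc_le_of_surj oc_le_of_rel
  mk_eq_iff orbs_mono exists_rep)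

section

variable {G Y : Type} [Group G] [MulAction G Y]

theorem orbs_union (A B : Set Y) : orbs G (A ∪ B) = orbs G A ∪ orbs G B := Set.image_union _ _ _

theorem finOrb_union {A B : Set Y} (hA : FinOrb G A) (hB : FinOrb G B) : FinOrb G (A ∪ B) := by
  unfold FinOrb
  rw [orbs_union]
  exact Set.Finite.union hA hB

theorem oc_union_le (A B : Set Y) : oc G (A ∪ B) ≤ oc G A + oc G B := by
  unfold oc
  rw [orbs_union]
  exact Set.ncard_union_le _ _

theorem oc_empty : oc G (∅ : Set Y) = 0 := by simp [oc, orbs]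

variable (G)

/-- no orbit meets both sets -/
def Dj (A B : Set Y) : Prop := ∀ a ∈ A, ∀ g : G, g • a ∉ B

variable {G}

theorem Dj.symm {A B : Set Y} (h : Dj G A B) : Dj G B A := by
  intro b hb g ha
  apply h _ ha g⁻¹
  rw [inv_smul_smul]
  exact hb

theorem Dj.union {A B C : Set Y} (h1 : Dj G A C) (h2 : Dj G B C) : Dj G (A ∪ B) C := by
  rintro a (ha | ha) g
  · exact h1 a ha g
  · exact h2 a ha g

/-- disjoint sets, one of them invariant -/
theorem Dj.of_inv {A B : Set Y} (hA : ∀ g : G, ∀ a ∈ A, g • a ∈ A) (h : ∀ a ∈ A, a ∉ B) :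
    Dj G A B := fun a ha g => h _ (hA g a ha)

theorem orbs_disj {A B : Set Y} (h : Dj G A B) : Disjoint (orbs G A) (orbs G B) := by
  rw [Set.disjoint_left]
  rintro _ ⟨a, ha, rfl⟩ ⟨b, hb, e⟩
  obtain ⟨g, hg⟩ := mk_eq_iff.1 e
  have hg : g • a = b := hg
  exact h a ha g (by rw [hg]; exact hb)

theorem oc_union {A B : Set Y} (h : Dj G A B) (hA : FinOrb G A) (hB : FinOrb G B) :
    oc G (A ∪ B) = oc G A + oc G B := by
  unfold oc
  rw [orbs_union]
  exact Set.ncard_union_eq (orbs_disj h) hA hB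

theorem oc_add_le {A B C : Set Y} (h : Dj G A B) (hC : FinOrb G C) (hA : A ⊆ C) (hB : B ⊆ C) :
    oc G A + oc G B ≤ oc G C := by
  rw [← oc_union h (hC.mono hA) (hC.mono hB)]
  exact oc_mono hC (Set.union_subset hA hB)

/-- an invariant part and the rest -/
theorem oc_split {A : Set Y} (hA : FinOrb G A) (P : Y → Prop)
    (hP : ∀ g : G, ∀ y, y ∈ A → g • y ∈ A → P y → P (g • y)) :
    oc G A = oc G {y | y ∈ A ∧ P y} + oc G {y | y ∈ A ∧ ¬ P y} := by
  have h : Dj G {y | y ∈ A ∧ P y} {y | y ∈ A ∧ ¬ P y} := by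
    rintro a ⟨ha, hp⟩ g ⟨ha', hp'⟩
    exact hp' (hP g a ha ha' hp)
  rw [← oc_union h (hA.mono fun _ h => h.1) (hA.mono fun _ h => h.1)]
  congr 1
  ext y
  constructor
  · intro hy
    by_cases hp : P y
    · exact Or.inl ⟨hy, hp⟩
    · exact Or.inr ⟨hy, hp⟩
  · rintro (h | h)
    · exact h.1
    · exact h.1

end

/-! ### flags -/

section

variable {H Y : Type} [Group H] [MulAction H Y] {K1 K2 : Subgroup H}

theorem finOrb_slice {A1 A2 : Set Y} (hf : FinOrb ↥K1 A1) (hs : A2 ⊆ A1)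
    (hk : ∀ g ∈ K1, ∀ y ∈ A2, g • y ∈ A2 → g ∈ K2) : FinOrb ↥K2 A2 := by
  apply Pool.Agent.SAF.FinOrb.of_inj hf (fun y => y) hs
  rintro a ha b hb ⟨g, rfl⟩
  exact ⟨⟨g.1, hk g.1 g.2 a ha hb⟩, rfl⟩

/-- the orbits of a set of flags and of the flags at a fixed place -/
theorem oc_slice {A1 A2 : Set Y} (hK : K2 ≤ K1) (hf : FinOrb ↥K1 A1) (hs : A2 ⊆ A1)
    (hm : ∀ y ∈ A1, ∃ g ∈ K1, g • y ∈ A2) (hk : ∀ g ∈ K1, ∀ y ∈ A2, g • y ∈ A2 → g ∈ K2) :
    oc ↥K2 A2 = oc ↥K1 A1 := by
  apply le_antisymm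
  · apply oc_le_of_inj hf (fun y => y) hs
    rintro a ha b hb ⟨g, rfl⟩
    exact ⟨⟨g.1, hk g.1 g.2 a ha hb⟩, rfl⟩
  · apply oc_le_of_surj (finOrb_slice hf hs hk) (fun y => y)
    · intro b hb
      obtain ⟨g, hg, h⟩ := hm b hb
      refine ⟨g • b, h, ⟨g⁻¹, K1.inv_mem hg⟩, ?_⟩
      exact inv_smul_smul g b
    · rintro a _ b _ ⟨g, rfl⟩
      exact ⟨⟨g.1, hK g.2⟩, rfl⟩

end

/-! ### pairs -/

section

variable {G Y Z : Type} [Group G] [MulAction G Y] [MulAction G Z]

/-- the special points: an element of the stabiliser moves a point over it -/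
def Spc (G : Type) [Group G] {Y Z : Type} [MulAction G Y] [MulAction G Z] (R : Y → Z → Prop)
    (y : Y) : Prop := ∃ g : G, g • y = y ∧ ∃ a, R y a ∧ g • a ≠ a

theorem Spc.smul {R : Y → Z → Prop} (hR : ∀ (g : G) y z, R y z → R (g • y) (g • z)) (k : G) {y : Y}
    (h : Spc G R y) : Spc G R (k • y) := by
  obtain ⟨g, hg, a, ha, hne⟩ := h
  refine ⟨k * g * k⁻¹, ?_, k • a, hR k y a ha, ?_⟩
  · rw [mul_smul, mul_smul, inv_smul_smul, hg]
  · rw [mul_smul, mul_smul, inv_smul_smul]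
    intro e
    exact hne (smul_left_cancel k e)

/-- pairs over a set with exactly two elements over each point -/
theorem oc_pairs {Q : Set Y} {R : Y → Z → Prop} (hQ : ∀ (g : G), ∀ y ∈ Q, g • y ∈ Q)
    (hR : ∀ (g : G) y z, R y z → R (g • y) (g • z))
    (two : ∀ y ∈ Q, ∃ a b, a ≠ b ∧ R y a ∧ R y b ∧ ∀ c, R y c → c = a ∨ c = b)
    (hf : FinOrb G Q) (hfP : FinOrb G {p : Y × Z | p.1 ∈ Q ∧ R p.1 p.2}) :
    oc G {p : Y × Z | p.1 ∈ Q ∧ R p.1 p.2} + oc G {y | y ∈ Q ∧ Spc G R y} = 2 * oc G Q := by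
  classical
  obtain ⟨r, hr⟩ := exists_rep (H := G) Q
  have hr1 : ∀ q ∈ orbs G Q, r q ∈ Q := fun q hq => (hr q hq).1
  have hr2 : ∀ q ∈ orbs G Q, (Quotient.mk'' (r q) : orbitRel.Quotient G Y) = q :=
    fun q hq => (hr q hq).2
  choose a b hab ha hb hc using two
  set P : Set (Y × Z) := {p : Y × Z | p.1 ∈ Q ∧ R p.1 p.2} with hP
  set T : Set Y := {y | y ∈ Q ∧ Spc G R y} with hT
  have fP : Finite ↥(orbs G P) := Set.Finite.to_subtype hfP
  have fT : Finite ↥(orbs G T) := Set.Finite.to_subtype (hf.mono (fun _ h => h.1))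
  have fQ : Finite ↥(orbs G Q) := Set.Finite.to_subtype hf
  have mT : ∀ (g : G) y, y ∈ T → g • y ∈ T := fun g y h => ⟨hQ g y h.1, h.2.smul hR g⟩
  let f : ↥(orbs G Q) × Bool → ↥(orbs G P) ⊕ ↥(orbs G T) := fun x =>
    if x.2 then
      (if h : r x.1.1 ∈ T then Sum.inr ⟨x.1.1, r x.1.1, h, hr2 _ x.1.2⟩
        else Sum.inl ⟨Quotient.mk'' (r x.1.1, b _ (hr1 _ x.1.2)),
          ⟨_, ⟨hr1 _ x.1.2, hb _ (hr1 _ x.1.2)⟩, rfl⟩⟩)
    else Sum.inl ⟨Quotient.mk'' (r x.1.1, a _ (hr1 _ x.1.2)),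
      ⟨_, ⟨hr1 _ x.1.2, ha _ (hr1 _ x.1.2)⟩, rfl⟩⟩
  have f0 : ∀ o, f (o, false) = Sum.inl ⟨Quotient.mk'' (r o.1, a _ (hr1 _ o.2)),
      ⟨_, ⟨hr1 _ o.2, ha _ (hr1 _ o.2)⟩, rfl⟩⟩ := fun o => if_neg (by simp)
  have f1 : ∀ o : ↥(orbs G Q), ∀ h : r o.1 ∈ T,
      f (o, true) = Sum.inr ⟨o.1, r o.1, h, hr2 _ o.2⟩ := by
    intro o h
    show (if true then _ else _) = _
    simp only [if_true]
    exact dif_pos h
  have f2 : ∀ o : ↥(orbs G Q), r o.1 ∉ T → f (o, true) =
      Sum.inl ⟨Quotient.mk'' (r o.1, b _ (hr1 _ o.2)),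
        ⟨_, ⟨hr1 _ o.2, hb _ (hr1 _ o.2)⟩, rfl⟩⟩ := by
    intro o h
    show (if true then _ else _) = _
    simp only [if_true]
    exact dif_neg h
  have key : ∀ (o o' : ↥(orbs G Q)) (c c' : Z) (_ : (Quotient.mk'' (r o.1, c) :
      orbitRel.Quotient G (Y × Z)) = Quotient.mk'' (r o'.1, c')), o = o' ∧
        ∃ g : G, g • r o.1 = r o.1 ∧ g • c' = c := by
    intro o o' c c' e
    obtain ⟨g, hg⟩ := mk_eq_iff.1 e
    have h1 : g • r o'.1 = r o.1 := congrArg Prod.fst hg
    have h2 : g • c' = c := congrArg Prod.snd hg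
    have h3 : o = o' := by
      apply Subtype.ext
      rw [← hr2 _ o.2, ← hr2 _ o'.2]
      exact mk_eq_iff.2 ⟨g, h1⟩
    subst h3
    exact ⟨rfl, g, h1, h2⟩
  have hbij : Function.Bijective f := by
    constructor
    · rintro ⟨o, t⟩ ⟨o', t'⟩ e
      cases t <;> cases t'
      · rw [f0, f0] at e
        have := (key o o' _ _ (congrArg Subtype.val (Sum.inl.inj e))).1
        rw [this]
      · by_cases h : r o'.1 ∈ T
        · rw [f0, f1 o' h] at e
          cases e
        · rw [f0, f2 o' h] at e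
          obtain ⟨h1, g, h2, h3⟩ := key o o' _ _ (congrArg Subtype.val (Sum.inl.inj e))
          subst h1
          exact absurd ⟨hr1 _ o.2, g, h2, b _ (hr1 _ o.2), hb _ _, by
            rw [h3]; exact hab _ _⟩ h
      · by_cases h : r o.1 ∈ T
        · rw [f0, f1 o h] at e
          cases e
        · rw [f0, f2 o h] at e
          obtain ⟨h1, g, h2, h3⟩ := key o o' _ _ (congrArg Subtype.val (Sum.inl.inj e))
          subst h1
          exact absurd ⟨hr1 _ o.2, g, h2, a _ (hr1 _ o.2), ha _ _, by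
            rw [h3]; exact (hab _ _).symm⟩ h
      · by_cases h : r o.1 ∈ T <;> by_cases h' : r o'.1 ∈ T
        · rw [f1 o h, f1 o' h'] at e
          have := congrArg Subtype.val (Sum.inr.inj e)
          have h1 : o = o' := Subtype.ext this
          rw [h1]
        · rw [f1 o h, f2 o' h'] at e
          cases e
        · rw [f2 o h, f1 o' h'] at e
          cases e
        · rw [f2 o h, f2 o' h'] at e
          have := (key o o' _ _ (congrArg Subtype.val (Sum.inl.inj e))).1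
          rw [this]
    · rintro (⟨p, ⟨⟨y, c⟩, ⟨hy, hc'⟩, rfl⟩⟩ | ⟨o, ⟨y, hy, rfl⟩⟩)
      · have hy : y ∈ Q := hy
        have hc' : R y c := hc'
        let o : ↥(orbs G Q) := ⟨Quotient.mk'' y, y, hy, rfl⟩
        obtain ⟨g, hg⟩ := mk_eq_iff.1 (hr2 _ o.2)
        have hg : g • y = r o.1 := hg
        have h1 : R (r o.1) (g • c) := by
          rw [← hg]
          exact hR g y c hc'
        have h2 : (Quotient.mk'' (r o.1, g • c) : orbitRel.Quotient G (Y × Z)) =
            Quotient.mk'' (y, c) := mk_eq_iff.2 ⟨g, Prod.ext hg rfl⟩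
        rcases hc _ (hr1 _ o.2) _ h1 with e | e
        · refine ⟨(o, false), ?_⟩
          rw [f0]
          refine congrArg Sum.inl (Subtype.ext ?_)
          show (Quotient.mk'' (r o.1, a _ (hr1 _ o.2)) : orbitRel.Quotient G (Y × Z)) = _
          rw [← e]
          exact h2
        · by_cases h : r o.1 ∈ T
          · obtain ⟨-, k, hk, z, hz, hne⟩ := h
            refine ⟨(o, false), ?_⟩
            rw [f0]
            refine congrArg Sum.inl (Subtype.ext ?_)
            show (Quotient.mk'' (r o.1, a _ (hr1 _ o.2)) : orbitRel.Quotient G (Y × Z)) = _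
            refine Eq.trans ?_ h2
            rw [e]
            have hkz : R (r o.1) (k • z) := by
              have := hR k _ _ hz
              rwa [hk] at this
            -- `k` exchanges the two points
            rcases hc _ (hr1 _ o.2) _ hz with e1 | e1 <;>
              rcases hc _ (hr1 _ o.2) _ hkz with e2 | e2
            · exact absurd (e2.trans e1.symm) hne
            · refine (mk_eq_iff.2 ⟨k, Prod.ext hk ?_⟩).symm
              show k • a _ (hr1 _ o.2) = b _ (hr1 _ o.2)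
              rw [← e1, e2]
            · refine mk_eq_iff.2 ⟨k, Prod.ext hk ?_⟩
              show k • b _ (hr1 _ o.2) = a _ (hr1 _ o.2)
              rw [← e1, e2]
            · exact absurd (e2.trans e1.symm) hne
          · refine ⟨(o, true), ?_⟩
            rw [f2 o h]
            refine congrArg Sum.inl (Subtype.ext ?_)
            show (Quotient.mk'' (r o.1, b _ (hr1 _ o.2)) : orbitRel.Quotient G (Y × Z)) = _
            rw [← e]
            exact h2
      · let o : ↥(orbs G Q) := ⟨Quotient.mk'' y, y, hy.1, rfl⟩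
        obtain ⟨g, hg⟩ := mk_eq_iff.1 (hr2 _ o.2)
        have hg : g • y = r o.1 := hg
        have h : r o.1 ∈ T := by
          rw [← hg]
          exact mT g y hy
        refine ⟨(o, true), ?_⟩
        rw [f1 o h]
  have h1 := Nat.card_congr (Equiv.ofBijective f hbij)
  rw [Nat.card_prod, Nat.card_sum] at h1
  have h2 : Nat.card Bool = 2 := by simp
  have e1 : Nat.card ↥(orbs G Q) = oc G Q := Nat.card_coe_set_eq _
  have e2 : Nat.card ↥(orbs G P) = oc G P := Nat.card_coe_set_eq _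
  have e3 : Nat.card ↥(orbs G T) = oc G T := Nat.card_coe_set_eq _
  rw [h2, e1, e2, e3] at h1
  omega

end

end Pool.Agent.DI
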