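import Pool.Agent.DI.FCb
import Pool.Agent.DI.OcA

/-!
# Tops of squares, the static class of the squares, plain strands

For a complex `K` with listed pentagons and squares (`P : P45 K`).
`P.Top T a b y`: `T` is the top of a translate of a listed square, its sides are `a`, `b` (the poles of
`T`), its partner is `y`. `P.SqT`: every square has a top, one orbit of squares for every top, the
stabiliser of the top fixes the partner, a side has an arrow to the partner.
`P.X T a`: the plain strands of `T` at the pole `a`: the pentagons which pass `T, a` and the walks of the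
other squares which pass `T, a` (every walk once), modulo the stabiliser of `T` and `a`.
-/

namespace Pool.Agent.DI

open MulAction
open Pool.Agent.SAF (InC orbs FinOrb oc mk_eq_iff FinOrb_iff)

namespace P45

variable {H V : Type} [Group H] [MulAction H V] {K : GX H V} (P : P45 K)

/-! ### tops -/

/-- `T` is the top of a square with the sides `a`, `b` and the partner `y` -/
def Top (T a b y : V) : Prop := Q4 P a T b y ∧ K.ar T a ∧ K.ar T b

/-- the listed square `i` has its top at the place `j` -/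
def tp (i : K.I) (j : Fin 4) : Prop := K.ar (P.qt i j) (P.qt i (j + 1)) ∧
  K.ar (P.qt i j) (P.qt i (j + 3))

/-- THE STATIC CLASS OF THE SQUARES, `E` is a set of opened softs (empty in a state) -/
structure SqE (E : V → Prop) : Prop where
  /-- every listed square has a top -/
  top : ∀ i, P.sq i → ∃ j, P.tp i j
  /-- listed squares with tops in one orbit are equal -/
  one : ∀ i i', P.sq i → P.sq i' → ∀ j j', P.tp i j → P.tp i' j' →
    ∀ h : H, h • P.qt i j = P.qt i' j' → i = i'
  /-- the partner is unique, except at the opened softs -/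
  par : ∀ T a b y a' b' y', P.Top T a b y → P.Top T a' b' y' → E T ∨ y = y'
  /-- a side has an arrow to the partner, except at the opened softs -/
  side : ∀ T a b y, P.Top T a b y → E T ∨ K.ar a y ∨ K.ar b y
  Ey : ∀ T a b y, P.Top T a b y → E T → E y
  Ea : ∀ T a b y, P.Top T a b y → E T → K.ar y a
  Es : ∀ (h : H) (v : V), E v → E (h • v)
  nab : ∀ T a b y, P.Top T a b y → a ≠ b
  nTy : ∀ T a b y, P.Top T a b y → T ≠ y

/-- the static class of the squares of a state -/
abbrev SqT : Prop := P.SqE (fun _ => False)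

/-- gamma tops: the partner has an arrow to a side -/
def gam (T : V) : Prop := ∃ a b y, P.Top T a b y ∧ K.ar y a

/-- the arrows of the tops -/
def TA : Set (V × V) := {p | ∃ b y, P.Top p.1 p.2 b y}

/-- the arrows of the gamma tops -/
def TG : Set (V × V) := {p | p ∈ P.TA ∧ P.gam p.1}

/-- the arrows of the diamond tops -/
def TD : Set (V × V) := {p | p ∈ P.TA ∧ ¬ P.gam p.1}

/-- THE UPPER ARROWS of the gamma tops: `a → y → b` -/
def U : Set (V × V) := {p | ∃ b y, P.Top p.1 p.2 b y ∧ K.ar p.2 y ∧ K.ar y b}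

/-- THE ARROWS of the diamond tops: `a → y ← b` -/
def Dm : Set (V × V) := {p | ∃ b y, P.Top p.1 p.2 b y ∧ K.ar p.2 y ∧ K.ar b y}

/-! ### strands -/

/-- the vertex of a flag -/
noncomputable def fy (f : FL K) : V := K.c1 f.1

/-- the next vertex of a flag -/
noncomputable def fz (f : FL K) : V := if f.2 = true then K.c2 f.1 else K.c0 f.1

/-- the flags of the pentagons along arrows -/
def RP : Set (FL K) := {f | ¬ P.sq f.1.1.1 ∧ K.ar (fy f) (fz f)}

/-- the walks of squares `n - T - a - q` with `n → T → a`, written `((T, a), (q, n))` -/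
def ZP : Set ((V × V) × (V × V)) := {p | Q4 P p.2.2 p.1.1 p.1.2 p.2.1 ∧ K.ar p.1.1 p.1.2 ∧
  K.ar p.2.2 p.1.1}

/-- THE PLAIN STRANDS of `T` at the pole `a` -/
noncomputable def X (T a : V) : ℕ := oc ↥(stabilizer H (T, a)) {f : FL K | f ∈ P.RP ∧ (fy f, fz f) = (T, a)} +
  oc ↥(stabilizer H (T, a)) {p : (V × V) × (V × V) | p ∈ P.ZP ∧ p.1 = (T, a)}

/-- the strands at the arrows in `A` modulo `H` -/
noncomputable def sX (A : Set (V × V)) : ℕ := oc H {f : FL K | f ∈ P.RP ∧ (fy f, fz f) ∈ A} +
  oc H {p : (V × V) × (V × V) | p ∈ P.ZP ∧ p.1 ∈ A}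

/-- the strands at the arrows in `A` modulo `G` -/
noncomputable def sXG (G : Subgroup H) (A : Set (V × V)) : ℕ :=
  oc ↥G {f : FL K | f ∈ P.RP ∧ (fy f, fz f) ∈ A} +
    oc ↥G {p : (V × V) × (V × V) | p ∈ P.ZP ∧ p.1 ∈ A}

/-- SUM OF `X - 1` over the arrows in `A` modulo `H` -/
noncomputable def sm (A : Set (V × V)) : ℕ := P.sX A - oc H A

/-- sum of `X - 1` over the arrows in `A` modulo `G` -/
noncomputable def smG (G : Subgroup H) (A : Set (V × V)) : ℕ := P.sXG G A - oc ↥G A

/-- THE NUMBER sigma -/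
noncomputable def sigma : ℕ := 4 * P.sm P.U + 3 * P.sm P.Dm

/-- THE CLASS OF THE STATES: every arrow of a top has a strand -/
structure Cls : Prop extends P.SqE (fun _ => False) where
  x1 : ∀ p ∈ P.TA, 1 ≤ P.X p.1 p.2

variable {P}

theorem Top.symm' {T a b y : V} (h : P.Top T a b y) : P.Top T b a y := ⟨h.1.symm, h.2.2, h.2.1⟩

theorem Top.smul (g : H) {T a b y : V} (h : P.Top T a b y) :
    P.Top (g • T) (g • a) (g • b) (g • y) :=
  ⟨h.1.smul g, K.ar_smul g _ _ h.2.1, K.ar_smul g _ _ h.2.2⟩

theorem Top.Ea {T a b y : V} (h : P.Top T a b y) : K.E a y := h.1.E4.symm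

theorem Top.Eb {T a b y : V} (h : P.Top T a b y) : K.E b y := h.1.E3

/-- the stabiliser of a top fixes the partner -/
theorem SqE.fix {E : V → Prop} (hs : P.SqE E) {T a b y : V} (h : P.Top T a b y) (hE : ¬ E T)
    {g : H} (hg : g • T = T) : g • y = y := by
  have h1 := h.smul g
  rw [hg] at h1
  exact (hs.par _ _ _ _ _ _ _ h1 h).resolve_left hE

/-- the arrow of a top determines the square -/
theorem SqE.uniq {E : V → Prop} (hs : P.SqE E) {T a b y b' y' : V} (k : P.Top T a b y)
    (k' : P.Top T a b' y') (hE : ¬ E T) : b = b' ∧ y = y' := by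
  refine ⟨?_, (hs.par _ _ _ _ _ _ _ k k').resolve_left hE⟩
  rcases K.two _ _ _ _ k.2.1 k.2.2 k'.2.2 with e | e | e
  · exact absurd e (hs.nab _ _ _ _ k)
  · exact e
  · exact absurd e (hs.nab _ _ _ _ k')

/-- the sides are the poles -/
theorem SqE.sides {E : V → Prop} (hs : P.SqE E) {T a b y : V} (k : P.Top T a b y) {c : V}
    (hc : K.ar T c) : c = a ∨ c = b := by
  rcases K.two _ _ _ _ k.2.1 k.2.2 hc with e | e | e
  · exact absurd e (hs.nab _ _ _ _ k)
  · exact Or.inr e.symm
  · exact Or.inl e.symm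

/-- in a state every top is a gamma top or a diamond top -/
theorem SqE.cases {E : V → Prop} (hs : P.SqE E) {T a b y : V} (k : P.Top T a b y) (hE : ¬ E T) :
    (T, a) ∈ P.U ∨ (T, b) ∈ P.U ∨ ((T, a) ∈ P.Dm ∧ (T, b) ∈ P.Dm) := by
  rcases (hs.side _ _ _ _ k).resolve_left hE with h | h
  · rcases k.Eb with h' | h'
    · exact Or.inr (Or.inr ⟨⟨b, y, k, h, h'⟩, ⟨a, y, k.symm', h', h⟩⟩)
    · exact Or.inl ⟨b, y, k, h, h'⟩
  · rcases k.Ea with h' | h'
    · exact Or.inr (Or.inr ⟨⟨b, y, k, h', h⟩, ⟨a, y, k.symm', h, h'⟩⟩)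
    · exact Or.inr (Or.inl ⟨a, y, k.symm', h, h'⟩)

end P45

end Pool.Agent.DI
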