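import Pool.Agent.DI.FCk
import Pool.Agent.DI.QNe
import Pool.Agent.DI.Xt0

/-!
# The open stars of the near fold

`F`: the set of the folded two-pole hubs at `w`. `S.opF w F`: a star `(u, q)` is open iff `q` is over `w`
and `q ∉ F` (near stars over folded hubs are merged, all other near stars stay open).
`O.Nf`: what is used of the open stars (classification of the kept squares of the folded slice);
`S.NF w F`: the conditions on `F`, `NF.nf : S.NF w F → (S.opF w F _).Nf`.
-/

namespace Pool.Agent.DI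

open MulAction
open Pool.Agent.SAF (InC orbs FinOrb oc Decomp SAn SA Conv hull dist_edge FinOrb_iff exists_next)
open Pool.Agent.BT (PX PQ JS bey exits lz lz_self lz_ne lz_symm x_next_unique)
open Pool.Agent.BT.TA

namespace SyQ

variable {H V : Type} [Group H] [MulAction H V] (S : SyQ H V)

/-- all four vertices are over `w` -/
def Loc (w : S.X) (T a b y : V) : Prop := w ∈ S.J T ∧ w ∈ S.J a ∧ w ∈ S.J b ∧ w ∈ S.J y

variable {S}

/-- CONDITIONS ON THE OPEN STARS.
`n1`: a near star of a hub without diamonds is open.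
`n2`: the openness depends only on the hub.
`n3`: an open star over two poles of the hub consists of these two poles (no hair).
`n4`: an open hub has at most one two-pole star.
`n5`: the top of a local square has no two-pole star.
`n6`: a side of a local square is not a folded hub. -/
structure OR.Nf {w : S.X} (O : S.OR w) : Prop where
  n1 : ∀ q, w ∈ S.J q → (∀ u, ¬ S.Dia w u q) → ∀ u, S.D.G.Adj w u → O.op u q
  n2 : ∀ u u' q, O.op u q → S.D.G.Adj w u' → O.op u' q
  n3 : ∀ u q x y, O.op u q → S.Dia w u q → S.Qs w u q x y → S.K.ar q x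
  n4 : ∀ u u' q, O.op u q → S.Dia w u q → S.Dia w u' q → u = u'
  n5 : ∀ T a b y, S.P.Top T a b y → S.Loc w T a b y → ∀ u, ¬ S.Dia w u T
  n6 : ∀ T a b y, S.P.Top T a b y → S.Loc w T a b y → ∀ u, S.Dia w u a → O.op u a

variable (S)

/-- the near stars over the hubs which are not in `F` are open -/
def opF (w : S.X) (F : Set V) (hF : ∀ h : H, h • w = w → ∀ q ∈ F, h • q ∈ F) : S.OR w where
  op _ q := w ∈ S.J q ∧ q ∉ F
  smul := by
    rintro h u q ⟨h1, h2⟩
    have hw : h.1 • w = w := h.2
    refine ⟨?_, fun k => h2 ?_⟩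
    · have := S.js.smul h.1 _ _ h1
      rwa [hw] at this
    · have hw' : h.1⁻¹ • w = w := by
        rw [inv_smul_eq_iff]
        exact hw.symm
      have := hF h.1⁻¹ hw' _ k
      rwa [inv_smul_smul] at this
  near _ _ h := h.1

/-- CONDITIONS ON THE SET OF THE FOLDED HUBS AT `w` -/
structure NF (w : S.X) (F : Set V) : Prop where
  inv : ∀ h : H, h • w = w → ∀ q ∈ F, h • q ∈ F
  two : ∀ q ∈ F, ∃ u, S.Dia w u q
  hair : ∀ u q x y, q ∉ F → S.Dia w u q → S.Qs w u q x y → S.K.ar q x
  dq : ∀ u u' q, q ∉ F → S.Dia w u q → S.Dia w u' q → u = u'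
  loc : ∀ T a b y, S.P.Top T a b y → S.Loc w T a b y → ∀ u, ¬ S.Dia w u T
  sid : ∀ T a b y, S.P.Top T a b y → S.Loc w T a b y → a ∉ F

variable {S}

theorem NF.nf {w : S.X} {F : Set V} (h : S.NF w F) : (S.opF w F h.inv).Nf where
  n1 q hq hd u _ := ⟨hq, fun k => by
    obtain ⟨u', hu'⟩ := h.two q k
    exact hd u' hu'⟩
  n2 _ _ _ k _ := k
  n3 u q x y k := h.hair u q x y k.2
  n4 u u' q k := h.dq u u' q k.2
  n5 := h.loc
  n6 T a b y k l u _ := ⟨l.2.1, h.sid T a b y k l⟩

end SyQ

end Pool.Agent.DI
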