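import Pool.Agent.DI.OEMap

/-!
# DI/OEBlow: blow-up of an orbit of vertices of a decomposition by a tree

`ttG_tree`: a tree of trees is a tree. `exists_blow`: every vertex `h • u` of the decomposition is
replaced by a copy of a tree `F` with an action of the stabiliser of `u`; the edge from `u` to `y` is
attached at the vertex `t y` of `F`.
-/

namespace Pool.Agent.DI

open MulAction
open Pool.Agent.SAF (InC orbs FinOrb oc Decomp TAct FinOrb_iff isTree_of_cut exists_next dist_edge InC.iso)

/-! ### a tree of trees is a tree -/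

section TT

variable {X Y : Type} {G : SimpleGraph X}

/-- the cut function of an edge of a tree -/
theorem tt_cut (hG : G.IsTree) {x y : X} (h : G.Adj x y) : ∃ g : X → ZMod 2, g x ≠ g y ∧
    ∀ a b, G.Adj a b → g a ≠ g b → (a = x ∧ b = y) ∨ (a = y ∧ b = x) := by
  classical
  obtain ⟨g, hg, hg'⟩ : ∃ g : X → ZMod 2, g x ≠ g y ∧
      ∀ a b, G.Adj a b → g a ≠ g b → s(a, b) = s(x, y) := by
    have hac := hG.2
    rw [SimpleGraph.isAcyclic_iff_forall_adj_isBridge] at hac
    have hb := hac h
    rw [SimpleGraph.isBridge_iff] at hb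
    refine ⟨fun v => if (G.deleteEdges {s(x, y)}).Reachable x v then 0 else 1, ?_, ?_⟩
    · have h1 : (G.deleteEdges {s(x, y)}).Reachable x x := SimpleGraph.Reachable.refl _
      simp only [h1, if_true, hb, if_false]
      decide
    · intro a b hab hne
      by_contra hs
      apply hne
      have hadj : (G.deleteEdges {s(x, y)}).Adj a b := by
        rw [SimpleGraph.deleteEdges_adj]
        exact ⟨hab, hs⟩
      have : (G.deleteEdges {s(x, y)}).Reachable x a ↔
          (G.deleteEdges {s(x, y)}).Reachable x b :=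
        ⟨fun h => h.trans hadj.reachable, fun h => h.trans hadj.symm.reachable⟩
      simp only [this]
  refine ⟨g, hg, fun a b hab hne => ?_⟩
  have := hg' a b hab hne
  rw [Sym2.eq_iff] at this
  exact this

/-- the cut function is constant on the sides of the edge -/
theorem tt_side (hG : G.IsTree) {x y : X} (h : G.Adj x y) {f : X → ZMod 2}
    (hf : ∀ a b, G.Adj a b → f a ≠ f b → (a = x ∧ b = y) ∨ (a = y ∧ b = x)) {w : X}
    (hw : G.dist x w = G.dist y w + 1) : f w = f y := by
  obtain ⟨n, hn⟩ : ∃ n, G.dist y w = n := ⟨_, rfl⟩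
  induction n generalizing w with
  | zero =>
    have : y = w := hG.1.dist_eq_zero_iff.1 hn
    rw [this]
  | succ n ih =>
    have hcw : w ≠ y := by
      rintro rfl
      rw [SimpleGraph.dist_self] at hn
      omega
    obtain ⟨v, hv, ev⟩ := exists_next hG hcw
    have e1 : G.dist w y = G.dist y w := SimpleGraph.dist_comm
    have e2 : G.dist v y = G.dist y v := SimpleGraph.dist_comm
    have e3 : G.dist x w ≤ G.dist x v + G.dist v w := hG.1.dist_triangle
    have e4 : G.dist v w = 1 := SimpleGraph.dist_eq_one_iff_adj.2 hv.symm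
    have e5 : G.dist x v ≤ G.dist x y + G.dist y v := hG.1.dist_triangle
    have e6 : G.dist x y = 1 := SimpleGraph.dist_eq_one_iff_adj.2 h
    have e7 := ih (w := v) (by omega) (by omega)
    rw [← e7]
    by_contra hne
    rcases hf w v hv hne with ⟨k, k'⟩ | ⟨k, k'⟩
    · rw [k, SimpleGraph.dist_self] at hw
      omega
    · exact hcw k

/-- the next vertex is unique -/
theorem tt_next (hG : G.IsTree) {x z c d : X} (hc : G.Adj x c) (hd : G.Adj x d)
    (ec : G.dist x z = G.dist c z + 1) (ed : G.dist x z = G.dist d z + 1) : c = d := by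
  by_contra hcn
  obtain ⟨f, hf, hf'⟩ := tt_cut hG hc
  have k6 := tt_side hG hc hf' ec
  have k7 : f d = f x := by
    by_contra hne
    rcases hf' d x hd.symm hne with ⟨k, k'⟩ | ⟨k, k'⟩
    · exact hd.ne k.symm
    · exact hcn k.symm
  have k8 : ∀ w, G.dist x w = G.dist d w + 1 → f w = f d := by
    intro w hw
    obtain ⟨n, hn⟩ : ∃ n, G.dist d w = n := ⟨_, rfl⟩
    induction n generalizing w with
    | zero =>
      have : d = w := hG.1.dist_eq_zero_iff.1 hn
      rw [this]
    | succ n ih =>
      have hcw : w ≠ d := by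
        rintro rfl
        rw [SimpleGraph.dist_self] at hn
        omega
      obtain ⟨v, hv, ev⟩ := exists_next hG hcw
      have e1 : G.dist w d = G.dist d w := SimpleGraph.dist_comm
      have e2 : G.dist v d = G.dist d v := SimpleGraph.dist_comm
      have e3 : G.dist x w ≤ G.dist x v + G.dist v w := hG.1.dist_triangle
      have e4 : G.dist v w = 1 := SimpleGraph.dist_eq_one_iff_adj.2 hv.symm
      have e5 : G.dist x v ≤ G.dist x d + G.dist d v := hG.1.dist_triangle
      have e6 : G.dist x d = 1 := SimpleGraph.dist_eq_one_iff_adj.2 hd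
      have e7 := ih v (by omega) (by omega)
      rw [← e7]
      by_contra hne
      rcases hf' w v hv hne with ⟨k, k'⟩ | ⟨k, k'⟩
      · rw [k, SimpleGraph.dist_self] at hw
        omega
      · have e8 : G.dist x v = 0 := by rw [k', SimpleGraph.dist_self]
        omega
  exact hf (by rw [← k7, ← k8 z ed, k6])

/-- the graph on the total space of a family of graphs over a graph: `R` the edges in the fibres,
`att x y` the vertex over `x` at which the edge `x y` is attached -/
def ttG (G : SimpleGraph X) (π : Y → X) (R : Y → Y → Prop) (att : X → X → Y)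
    (hR : ∀ a b, R a b → R b a) (hRi : ∀ a, ¬ R a a) : SimpleGraph Y where
  Adj a b := R a b ∨ (G.Adj (π a) (π b) ∧ a = att (π a) (π b) ∧ b = att (π b) (π a))
  symm := ⟨by
    rintro a b (h | ⟨h1, h2, h3⟩)
    · exact Or.inl (hR _ _ h)
    · exact Or.inr ⟨h1.symm, h3, h2⟩⟩
  loopless := ⟨by
    rintro a (h | ⟨h1, h2, h3⟩)
    · exact hRi _ h
    · exact G.loopless.irrefl _ h1⟩

theorem ttG_tree (hG : G.IsTree) {π : Y → X} {R : Y → Y → Prop} {att : X → X → Y}
    (hR : ∀ a b, R a b → R b a) (hRi : ∀ a, ¬ R a a)
    (hRp : ∀ a b, R a b → π a = π b) (hatt : ∀ x y, G.Adj x y → π (att x y) = x)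
    (hne : Nonempty Y)
    (hconn : ∀ a b, π a = π b → Relation.ReflTransGen R a b)
    (hcut : ∀ a b, R a b → ∃ g : Y → ZMod 2, g a ≠ g b ∧
      ∀ c d, R c d → π c = π a → g c ≠ g d → (c = a ∧ d = b) ∨ (c = b ∧ d = a)) :
    (ttG G π R att hR hRi).IsTree := by
  classical
  apply isTree_of_cut
  · refine { nonempty := hne, preconnected := ?_ }
    intro a b
    have h1 : ∀ a b, π a = π b → (ttG G π R att hR hRi).Reachable a b := by
      intro a b e
      have h := hconn a b e
      induction h with
      | refl => exact SimpleGraph.Reachable.refl _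
      | tail _ h ih =>
        refine (ih ?_).trans (SimpleGraph.Adj.reachable (Or.inl h))
        rw [e, hRp _ _ h]
    obtain ⟨p⟩ := hG.1.preconnected (π a) (π b)
    have key : ∀ x y (p : G.Walk x y) (a b : Y), π a = x → π b = y →
        (ttG G π R att hR hRi).Reachable a b := by
      intro x y p
      induction p with
      | nil =>
        intro a b ha hb
        exact h1 a b (by rw [ha, hb])
      | @cons x z y h p ih =>
        intro a b ha hb
        refine (h1 a (att x z) (by rw [ha, hatt _ _ h])).trans ?_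
        refine SimpleGraph.Reachable.trans (SimpleGraph.Adj.reachable ?_)
          (ih (att z x) b (hatt _ _ h.symm) hb)
        right
        rw [hatt _ _ h, hatt _ _ h.symm]
        exact ⟨h, rfl, rfl⟩
    exact key _ _ p a b rfl rfl
  · rintro a b (h | ⟨h1, h2, h3⟩)
    · obtain ⟨g, hg, hg'⟩ := hcut a b h
      have hnx : ∀ z : X, ∃ c : X, z ≠ π a → G.Adj (π a) c ∧
          G.dist (π a) z = G.dist c z + 1 := by
        intro z
        by_cases hz : z = π a
        · exact ⟨z, fun h => absurd hz h⟩
        · obtain ⟨c, hc⟩ := exists_next hG (Ne.symm hz)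
          exact ⟨c, fun _ => hc⟩
      choose nx hnx using hnx
      have huniq : ∀ (z c : X), z ≠ π a → G.Adj (π a) c → G.dist (π a) z = G.dist c z + 1 →
          c = nx z := by
        intro z c hz hc e
        obtain ⟨k1, k2⟩ := hnx z hz
        exact tt_next hG hc k1 e k2
      let gg : Y → ZMod 2 := fun y => if π y = π a then g y else g (att (π a) (nx (π y)))
      have hpab := hRp _ _ h
      refine ⟨gg, ?_, ?_⟩
      · have e1 : gg a = g a := by simp [gg]
        have e2 : gg b = g b := by simp [gg, ← hpab]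
        rw [e1, e2]
        exact hg
      · rintro c d (hcd | ⟨m1, m2, m3⟩) hne
        · have e := hRp _ _ hcd
          by_cases hca : π c = π a
          · apply hg' c d hcd hca
            have hda : π d = π a := by rw [← e, hca]
            simpa [gg, hca, hda] using hne
          · exfalso
            apply hne
            simp only [gg, ← e]
            rw [if_neg hca, if_neg hca]
        · exfalso
          apply hne
          by_cases hca : π c = π a
          · have hda : π d ≠ π a := by
              intro hda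
              rw [hca, hda] at m1
              exact G.loopless.irrefl _ m1
            have e1 : π d = nx (π d) := by
              apply huniq _ _ hda
              · rw [← hca]; exact m1
              · rw [SimpleGraph.dist_self, zero_add, SimpleGraph.dist_eq_one_iff_adj, ← hca]
                exact m1
            simp only [gg]
            rw [if_pos hca, if_neg hda, ← e1, ← hca, ← m2]
          · by_cases hda : π d = π a
            · have e1 : π c = nx (π c) := by
                apply huniq _ _ hca
                · rw [← hda]; exact m1.symm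
                · rw [SimpleGraph.dist_self, zero_add, SimpleGraph.dist_eq_one_iff_adj, ← hda]
                  exact m1.symm
              simp only [gg]
              rw [if_neg hca, if_pos hda, ← e1, ← hda, ← m3]
            · have e1 : nx (π c) = nx (π d) := by
                obtain ⟨k1, k2⟩ := hnx (π c) hca
                apply huniq _ _ hda k1
                have e1 : G.dist (π d) (nx (π c)) = G.dist (nx (π c)) (π d) :=
                  SimpleGraph.dist_comm
                have e2 : G.dist (π d) (π a) = G.dist (π a) (π d) := SimpleGraph.dist_comm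
                rcases (dist_edge hG k1 (π d)).1 with k3 | k3
                · exfalso
                  obtain ⟨f, hf, hf'⟩ := tt_cut hG k1
                  have k4 := tt_side hG k1 hf' k2
                  have k5 : f (π d) = f (π a) := by
                    apply tt_side hG k1.symm (fun a b hab hne => (hf' a b hab hne).symm)
                    omega
                  have k6 : f (π c) ≠ f (π d) := by rw [k4, k5]; exact hf.symm
                  rcases hf' _ _ m1 k6 with ⟨k7, -⟩ | ⟨-, k7⟩
                  · exact hca k7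
                  · exact hda k7
                · omega
              simp only [gg]
              rw [if_neg hca, if_neg hda, e1]
    · obtain ⟨g, hg, hg'⟩ := tt_cut hG h1
      refine ⟨fun y => g (π y), hg, ?_⟩
      rintro c d (hcd | ⟨m1, m2, m3⟩) hne
      · exfalso
        apply hne
        simp only [hRp _ _ hcd]
      · rcases hg' _ _ m1 hne with ⟨e1, e2⟩ | ⟨e1, e2⟩
        · left
          refine ⟨?_, ?_⟩
          · rw [m2, e1, e2, ← h2]
          · rw [m3, e1, e2, ← h3]
        · right
          refine ⟨?_, ?_⟩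
          · rw [m2, e1, e2, ← h3]
          · rw [m3, e1, e2, ← h2]

end TT

/-! ### the induced set -/

section Ind

variable {H : Type} [Group H] {X : Type} [MulAction H X] (u : X) (F : Type)
  [MulAction ↥(stabilizer H u) F]

/-- the classes of pairs `(h, f)` under `(h, f) ~ (h g⁻¹, g f)` -/
def blS : Setoid (H × F) where
  r p q := ∃ g : ↥(stabilizer H u), q.1 = p.1 * (g : H)⁻¹ ∧ q.2 = g • p.2
  iseqv := by
    refine ⟨fun p => ⟨1, by simp, by simp⟩, ?_, ?_⟩
    · rintro p q ⟨g, h1, h2⟩
      refine ⟨g⁻¹, ?_, ?_⟩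
      · rw [h1]
        simp
      · rw [h2, inv_smul_smul]
    · rintro p q r ⟨g, h1, h2⟩ ⟨k, h3, h4⟩
      refine ⟨k * g, ?_, ?_⟩
      · rw [h3, h1]
        simp [mul_assoc]
      · rw [h4, h2, mul_smul]

/-- the vertices of the blow-up -/
def BlX : Type := {x : X // ∀ h : H, h • u ≠ x} ⊕ Quotient (blS (H := H) u F)

variable {u F}

/-- the projection -/
def blP : BlX (H := H) u F → X :=
  Sum.elim (fun x => x.1) (Quotient.lift (fun p => p.1 • u) (by
    rintro p q ⟨g, h1, -⟩
    show p.1 • u = q.1 • u
    rw [h1, mul_smul]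
    have h2 : (g : H)⁻¹ • u = u := by
      rw [inv_smul_eq_iff]
      exact (mem_stabilizer_iff.1 g.2).symm
    rw [h2]))

/-- translation -/
def blT (k : H) : BlX (H := H) u F → BlX (H := H) u F :=
  Sum.elim
    (fun x => Sum.inl ⟨k • x.1, fun h e => x.2 (k⁻¹ * h) (by rw [mul_smul, e, inv_smul_smul])⟩)
    (fun q => Sum.inr (Quotient.map (fun p => (k * p.1, p.2)) (by
      rintro p q ⟨g, h1, h2⟩
      exact ⟨g, by show k * q.1 = k * p.1 * (g : H)⁻¹; rw [h1, mul_assoc], h2⟩) q))

instance : MulAction H (BlX (H := H) u F) where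
  smul := blT
  one_smul := by
    rintro (x | q)
    · show Sum.inl _ = Sum.inl _
      congr 1
      exact Subtype.ext (one_smul _ _)
    · induction q using Quotient.inductionOn with
      | h p =>
        show Sum.inr _ = Sum.inr _
        congr 1
        show Quotient.mk _ (1 * p.1, p.2) = Quotient.mk _ p
        rw [one_mul]
  mul_smul := by
    rintro a b (x | q)
    · show Sum.inl _ = Sum.inl _
      congr 1
      exact Subtype.ext (mul_smul _ _ _)
    · induction q using Quotient.inductionOn with
      | h p =>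
        show Sum.inr _ = Sum.inr _
        congr 1
        show Quotient.mk _ (a * b * p.1, p.2) = Quotient.mk _ (a * (b * p.1), p.2)
        rw [mul_assoc]

theorem blP_smul (k : H) (y : BlX (H := H) u F) : blP (k • y) = k • blP y := by
  rcases y with x | q
  · rfl
  · induction q using Quotient.inductionOn with
    | h p => exact mul_smul _ _ _

/-- the fibre over `u` -/
def blI (f : F) : BlX (H := H) u F := Sum.inr (Quotient.mk _ (1, f))

theorem blP_I (f : F) : blP (blI f : BlX (H := H) u F) = u := one_smul _ _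

theorem blI_smul (g : ↥(stabilizer H u)) (f : F) :
    (g : H) • (blI f : BlX (H := H) u F) = blI (g • f) := by
  show Sum.inr _ = Sum.inr _
  congr 1
  apply Quotient.sound
  refine ⟨g, ?_, rfl⟩
  show (1 : H) = (g : H) * 1 * (g : H)⁻¹
  group

theorem blI_inj {f f' : F} (h : (blI f : BlX (H := H) u F) = blI f') : f = f' := by
  have h1 : (Quotient.mk (blS (H := H) u F) (1, f)) = Quotient.mk _ (1, f') := Sum.inr.inj h
  obtain ⟨g, h2, h3⟩ := Quotient.exact h1
  have h4 : (g : H) = 1 := by
    have : (1 : H) = 1 * (g : H)⁻¹ := h2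
    rw [one_mul] at this
    exact (inv_eq_one.1 this.symm)
  have h5 : g = 1 := Subtype.ext h4
  have h6 : f' = g • f := h3
  rw [h6, h5, one_smul]

theorem bl_eq_of_out {y y' : BlX (H := H) u F} (h : ∀ k : H, k • u ≠ blP y) (e : blP y = blP y') :
    y = y' := by
  rcases y with x | q
  · rcases y' with x' | q'
    · congr 1
      exact Subtype.ext e
    · exfalso
      induction q' using Quotient.inductionOn with
      | h p => exact h p.1 e.symm
  · exfalso
    induction q using Quotient.inductionOn with
    | h p => exact h p.1 rfl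

theorem bl_exists_of_in {y : BlX (H := H) u F} {k : H} (h : k • u = blP y) :
    ∃ f : F, y = k • blI f := by
  rcases y with x | q
  · exact absurd h (x.2 k)
  · induction q using Quotient.inductionOn with
    | h p =>
      have h1 : k • u = p.1 • u := h
      let g : ↥(stabilizer H u) := ⟨k⁻¹ * p.1, by
        rw [mem_stabilizer_iff, mul_smul, ← h1, inv_smul_smul]⟩
      refine ⟨g • p.2, ?_⟩
      show Sum.inr _ = Sum.inr _
      congr 1
      apply Quotient.sound
      refine ⟨g, ?_, rfl⟩
      show k * 1 = p.1 * (k⁻¹ * p.1)⁻¹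
      group

theorem bl_exists_out {x : X} (h : ∀ k : H, k • u ≠ x) : ∃ y : BlX (H := H) u F, blP y = x :=
  ⟨Sum.inl ⟨x, h⟩, rfl⟩

end Ind

/-! ### the blow-up -/

section Blow

variable {H : Type} [Group H]

theorem exists_blow (D : Decomp H) (u : D.X)
    (_hbip : ∀ x y, D.G.Adj x y → (∃ h : H, h • u = x) → ¬ ∃ h : H, h • u = y)
    (F : Type) [MulAction ↥(stabilizer H u) F] (GF : SimpleGraph F) (hF : GF.IsTree)
    (hadj : ∀ (k : ↥(stabilizer H u)) x y, GF.Adj x y → GF.Adj (k • x) (k • y))
    (hinv : ∀ (k : ↥(stabilizer H u)) x y, GF.Adj x y → ¬ (k • x = y ∧ k • y = x))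
    (hV : FinOrb ↥(stabilizer H u) (Set.univ : Set F))
    (hE : FinOrb ↥(stabilizer H u) {p : F × F | GF.Adj p.1 p.2})
    (hst : ∀ x : F, InC ↥(stabilizer ↥(stabilizer H u) x))
    (t : D.X → F)
    (ht : ∀ (k : ↥(stabilizer H u)) (y : D.X), D.G.Adj u y → t ((k : H) • y) = k • t y) :
    ∃ (D' : Decomp H) (c : D'.X → D.X), TMap D'.G D.G c ∧ (∀ (h : H) a, c (h • a) = h • c a) ∧
      (∀ a b, (∀ h : H, h • u ≠ c a) → c a = c b → a = b) ∧
      (∀ a, (∃ h : H, h • u = c a) → InC ↥(stabilizer H a)) := by
  classical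
  -- the vertex at which an edge is attached
  have hatt0 : ∀ x y : D.X, ∃ a : BlX (H := H) u F, blP a = x ∧
      ∀ h : H, h • u = x → D.G.Adj x y → a = h • blI (t (h⁻¹ • y)) := by
    intro x y
    by_cases hx : ∃ h : H, h • u = x
    · obtain ⟨h, rfl⟩ := hx
      refine ⟨h • blI (t (h⁻¹ • y)), by rw [blP_smul, blP_I], fun k hk hxy => ?_⟩
      let g : ↥(stabilizer H u) := ⟨k⁻¹ * h, by
        rw [mem_stabilizer_iff, mul_smul, ← hk, inv_smul_smul]⟩
      have h1 : D.G.Adj u (h⁻¹ • y) := by
        have := D.adj_smul h⁻¹ _ _ hxy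
        rwa [inv_smul_smul] at this
      have h2 := ht g _ h1
      have h3 : (g : H) • (h⁻¹ • y) = k⁻¹ • y := by
        show (k⁻¹ * h) • (h⁻¹ • y) = k⁻¹ • y
        rw [mul_smul, smul_inv_smul]
      rw [h3] at h2
      rw [h2, ← blI_smul]
      show h • _ = k • ((k⁻¹ * h) • _)
      rw [← mul_smul, mul_inv_cancel_left]
    · push Not at hx
      obtain ⟨a, ha⟩ := bl_exists_out (F := F) hx
      exact ⟨a, ha, fun h e => absurd e (hx h)⟩
  choose att hattP hattE using hatt0
  have hatts : ∀ (k : H) (x y : D.X), D.G.Adj x y → att (k • x) (k • y) = k • att x y := by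
    intro k x y hxy
    by_cases hx : ∃ h : H, h • u = x
    · obtain ⟨h, e⟩ := hx
      rw [hattE x y h e hxy, hattE (k • x) (k • y) (k * h) (by rw [mul_smul, e])
        (D.adj_smul k _ _ hxy), mul_smul]
      congr 3
      rw [mul_inv_rev, mul_smul, inv_smul_smul]
    · push Not at hx
      apply bl_eq_of_out
      · intro h e
        rw [hattP] at e
        exact hx (k⁻¹ * h) (by rw [mul_smul, e, inv_smul_smul])
      · rw [hattP, blP_smul, hattP]
  let R : BlX (H := H) u F → BlX (H := H) u F → Prop := fun a b =>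
    ∃ (h : H) (f f' : F), GF.Adj f f' ∧ a = h • blI f ∧ b = h • blI f'
  have hR : ∀ a b, R a b → R b a := by
    rintro a b ⟨h, f, f', e, e1, e2⟩
    exact ⟨h, f', f, e.symm, e2, e1⟩
  have hIinj : ∀ (h : H) (f f' : F), h • (blI f : BlX (H := H) u F) = h • blI f' → f = f' :=
    fun h f f' e => blI_inj (smul_left_cancel h e)
  have hRi : ∀ a, ¬ R a a := by
    rintro a ⟨h, f, f', e, e1, e2⟩
    exact e.ne (hIinj h f f' (by rw [← e1, ← e2]))
  have hRp : ∀ a b, R a b → blP a = blP b := by
    rintro a b ⟨h, f, f', e, rfl, rfl⟩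
    rw [blP_smul, blP_smul, blP_I, blP_I]
  have hRs : ∀ (k : H) a b, R a b → R (k • a) (k • b) := by
    rintro k a b ⟨h, f, f', e, rfl, rfl⟩
    exact ⟨k * h, f, f', e, by rw [mul_smul], by rw [mul_smul]⟩
  -- the same translate can be used for both ends
  have hRin : ∀ a b, R a b → ∀ k : H, k • u = blP a → ∃ f f', GF.Adj f f' ∧ a = k • blI f ∧
      b = k • blI f' := by
    rintro a b ⟨h, f, f', e, rfl, rfl⟩ k hk
    rw [blP_smul, blP_I] at hk
    let g : ↥(stabilizer H u) := ⟨k⁻¹ * h, by
      rw [mem_stabilizer_iff, mul_smul, ← hk, inv_smul_smul]⟩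
    have h1 : ∀ f : F, h • (blI f : BlX (H := H) u F) = k • blI (g • f) := by
      intro f
      rw [← blI_smul]
      show h • _ = k • ((k⁻¹ * h) • _)
      rw [← mul_smul, mul_inv_cancel_left]
    exact ⟨g • f, g • f', hadj g _ _ e, h1 f, h1 f'⟩
  have hne : Nonempty (BlX (H := H) u F) := ⟨blI hF.1.nonempty.some⟩
  have htree : (ttG D.G blP R att hR hRi).IsTree := by
    apply ttG_tree D.tree hR hRi hRp (fun x y _ => hattP x y) hne
    · intro a b e
      by_cases ha : ∃ h : H, h • u = blP a
      · obtain ⟨h, ha⟩ := ha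
        obtain ⟨f, rfl⟩ := bl_exists_of_in ha
        obtain ⟨f', rfl⟩ := bl_exists_of_in (ha.trans e)
        have hr : Relation.ReflTransGen GF.Adj f f' :=
          (SimpleGraph.reachable_iff_reflTransGen f f').1 (hF.1.preconnected f f')
        clear e
        induction hr with
        | refl => exact Relation.ReflTransGen.refl
        | tail _ e ih =>
          exact ih.tail ⟨h, _, _, e, rfl, rfl⟩
      · push Not at ha
        rw [bl_eq_of_out ha e]
    · rintro a b ⟨h, f, f', e, rfl, rfl⟩
      obtain ⟨g, hg, hg'⟩ := tt_cut hF e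
      have hex : ∀ y : BlX (H := H) u F, ∃ x : F, blP y = h • u → y = h • blI x := by
        intro y
        by_cases hy : blP y = h • u
        · obtain ⟨x, hx⟩ := bl_exists_of_in hy.symm
          exact ⟨x, fun _ => hx⟩
        · exact ⟨f, fun k => absurd k hy⟩
      choose w hw using hex
      have hwI : ∀ x : F, w (h • blI x) = x := by
        intro x
        have := hw (h • blI x) (by rw [blP_smul, blP_I])
        exact (hIinj h _ _ this).symm
      refine ⟨fun y => g (w y), ?_, ?_⟩
      · show g (w _) ≠ g (w _)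
        rw [hwI, hwI]
        exact hg
      · intro c d hcd hc hne
        have hc' : h • u = blP c := by rw [hc, blP_smul, blP_I]
        obtain ⟨x, x', hxx, rfl, rfl⟩ := hRin c d hcd h hc'
        have hne' : g x ≠ g x' := by
          have : g (w (h • blI x)) ≠ g (w (h • blI x')) := hne
          rwa [hwI, hwI] at this
        rcases hg' _ _ hxx hne' with ⟨rfl, rfl⟩ | ⟨rfl, rfl⟩
        · exact Or.inl ⟨rfl, rfl⟩
        · exact Or.inr ⟨rfl, rfl⟩
  -- stabilisers over the orbit of `u`
  have hstab : ∀ a : BlX (H := H) u F, (∃ h : H, h • u = blP a) → InC ↥(stabilizer H a) := by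
    rintro a ⟨h, ha⟩
    obtain ⟨f, rfl⟩ := bl_exists_of_in ha
    have h1 : InC ↥((stabilizer ↥(stabilizer H u) f).map (stabilizer H u).subtype) :=
      InC.iso ((stabilizer ↥(stabilizer H u) f).equivMapOfInjective _
        (stabilizer H u).subtype_injective) (hst f)
    have h2 : stabilizer H (blI f : BlX (H := H) u F) ≤
        (stabilizer ↥(stabilizer H u) f).map (stabilizer H u).subtype := by
      intro k hk
      rw [mem_stabilizer_iff] at hk
      have h3 : k • u = u := by
        have := congrArg blP hk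
        rwa [blP_smul, blP_I] at this
      refine ⟨⟨k, h3⟩, ?_, rfl⟩
      show (⟨k, h3⟩ : ↥(stabilizer H u)) • f = f
      apply blI_inj (H := H) (u := u)
      rw [← blI_smul]
      exact hk
    have h3 : InC ↥(stabilizer H (blI f : BlX (H := H) u F)) := Pool.Agent.SAG.InC.mono h2 h1
    exact InC.iso (stabilizerEquivStabilizer (rfl : h • _ = h • _)) h3
  have hadj' : ∀ (k : H) a b, (ttG D.G blP R att hR hRi).Adj a b →
      (ttG D.G blP R att hR hRi).Adj (k • a) (k • b) := by
    rintro k a b (h | ⟨h1, h2, h3⟩)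
    · exact Or.inl (hRs k a b h)
    · right
      rw [blP_smul, blP_smul]
      refine ⟨D.adj_smul k _ _ h1, ?_, ?_⟩
      · rw [hatts k _ _ h1, ← h2]
      · rw [hatts k _ _ h1.symm, ← h3]
  have hRu : ∀ a b, R a b → ∃ h : H, h • u = blP a := by
    rintro a b ⟨h, f, f', e, rfl, rfl⟩
    exact ⟨h, by rw [blP_smul, blP_I]⟩
  refine ⟨{ X := BlX (H := H) u F
            G := ttG D.G blP R att hR hRi
            tree := htree
            adj_smul := hadj'
            noinv := ?_
            finV := ?_
            finE := ?_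
            edgeC := ?_
            nofix := ?_ }, blP, ?_, blP_smul, ?_, hstab⟩
  · rintro k a b (h | ⟨h1, h2, h3⟩) ⟨e1, e2⟩
    · obtain ⟨h, f, f', e, rfl, rfl⟩ := h
      have h4 : k • h • u = h • u := by
        have := congrArg blP e1
        simpa only [blP_smul, blP_I] using this
      let g : ↥(stabilizer H u) := ⟨h⁻¹ * k * h, by
        rw [mem_stabilizer_iff, mul_smul, mul_smul, h4, inv_smul_smul]⟩
      have h5 : ∀ f f' : F, k • h • (blI f : BlX (H := H) u F) = h • blI f' → g • f = f' := by
        intro f f' e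
        apply blI_inj (H := H) (u := u)
        rw [← blI_smul]
        show (h⁻¹ * k * h) • _ = _
        rw [mul_smul, mul_smul, e, inv_smul_smul]
      exact hinv g f f' e ⟨h5 _ _ e1, h5 _ _ e2⟩
    · apply D.noinv k _ _ h1
      rw [← blP_smul, ← blP_smul, e1, e2]
      exact ⟨rfl, rfl⟩
  · rw [FinOrb_iff]
    obtain ⟨A, hA, -, hA'⟩ := FinOrb_iff.1 D.finV
    obtain ⟨B, hB, -, hB'⟩ := FinOrb_iff.1 hV
    refine ⟨(blP ⁻¹' A ∩ {a : BlX (H := H) u F | ∀ h : H, h • u ≠ blP a}) ∪ blI '' B, ?_,
      fun _ _ => trivial, ?_⟩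
    · refine Set.Finite.union ?_ (hB.image _)
      apply Set.Finite.of_finite_image (f := blP)
      · apply hA.subset
        rintro _ ⟨a, ha, rfl⟩
        exact ha.1
      · intro a ha b hb e
        exact bl_eq_of_out ha.2 e
    · intro a _
      by_cases ha : ∃ h : H, h • u = blP a
      · obtain ⟨h, ha⟩ := ha
        obtain ⟨f, rfl⟩ := bl_exists_of_in ha
        obtain ⟨f', hf', g, rfl⟩ := hB' f trivial
        refine ⟨blI f', Or.inr ⟨_, hf', rfl⟩, h * (g : H), ?_⟩
        rw [mul_smul, blI_smul]
      · push Not at ha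
        obtain ⟨x, hx, g, hg⟩ := hA' (blP a) trivial
        have h1 : blP (g⁻¹ • a) = x := by rw [blP_smul, ← hg, inv_smul_smul]
        refine ⟨g⁻¹ • a, Or.inl ⟨by show blP _ ∈ A; rwa [h1], ?_⟩, g, smul_inv_smul _ _⟩
        intro h e
        rw [blP_smul] at e
        exact ha (g * h) (by rw [mul_smul, e, smul_inv_smul])
  · rw [FinOrb_iff]
    obtain ⟨A, hA, hA1, hA'⟩ := FinOrb_iff.1 D.finE
    obtain ⟨B, hB, hB1, hB'⟩ := FinOrb_iff.1 hE
    refine ⟨((fun p : D.X × D.X => (att p.1 p.2, att p.2 p.1)) '' A) ∪
      ((fun p : F × F => ((blI p.1 : BlX (H := H) u F), (blI p.2 : BlX (H := H) u F))) '' B),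
      (hA.image _).union (hB.image _), ?_, ?_⟩
    · rintro _ (⟨p, hp, rfl⟩ | ⟨p, hp, rfl⟩)
      · right
        show D.G.Adj (blP (att p.1 p.2)) (blP (att p.2 p.1)) ∧ _
        rw [hattP, hattP]
        exact ⟨hA1 hp, rfl, rfl⟩
      · left
        exact ⟨1, p.1, p.2, hB1 hp, (one_smul _ _).symm, (one_smul _ _).symm⟩
    · rintro ⟨a, b⟩ (h | ⟨h1, h2, h3⟩)
      · obtain ⟨h, f, f', e, h4, h5⟩ := h
        obtain ⟨⟨x, y⟩, hx, g, hg⟩ := hB' (f, f') e
        refine ⟨_, Or.inr ⟨(x, y), hx, rfl⟩, h * (g : H), ?_⟩
        have e1 : g • x = f := congrArg Prod.fst hg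
        have e2 : g • y = f' := congrArg Prod.snd hg
        rw [Prod.smul_mk, mul_smul, mul_smul, blI_smul, blI_smul, e1, e2]
        exact Prod.ext h4.symm h5.symm
      · obtain ⟨⟨x, y⟩, hx, g, hg⟩ := hA' (blP a, blP b) h1
        refine ⟨_, Or.inl ⟨(x, y), hx, rfl⟩, g, ?_⟩
        have e1 : g • x = blP a := congrArg Prod.fst hg
        have e2 : g • y = blP b := congrArg Prod.snd hg
        have hxy : D.G.Adj x y := hA1 hx
        rw [Prod.smul_mk]
        apply Prod.ext
        · show g • att x y = a
          rw [← hatts g _ _ hxy, e1, e2]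
          exact h2.symm
        · show g • att y x = b
          rw [← hatts g _ _ hxy.symm, e1, e2]
          exact h3.symm
  · rintro a b (h | ⟨h1, h2, h3⟩)
    · exact Pool.Agent.SAG.InC.mono inf_le_left (hstab a (hRu a b h))
    · apply Pool.Agent.SAG.InC.mono _ (D.edgeC _ _ h1)
      rintro k ⟨hk1, hk2⟩
      refine ⟨?_, ?_⟩
      · show k • blP a = blP a
        rw [← blP_smul]
        exact congrArg blP hk1
      · show k • blP b = blP b
        rw [← blP_smul]
        exact congrArg blP hk2
  · intro a
    obtain ⟨h, hh⟩ := D.nofix (blP a)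
    refine ⟨h, fun e => hh ?_⟩
    rw [← blP_smul, e]
  · refine ⟨htree, D.tree, ?_, ?_, ?_, ?_⟩
    · intro x
      by_cases hx : ∃ h : H, h • u = x
      · obtain ⟨h, rfl⟩ := hx
        exact ⟨h • blI hF.1.nonempty.some, by rw [blP_smul, blP_I]⟩
      · push Not at hx
        exact bl_exists_out hx
    · rintro a b (h | ⟨h1, h2, h3⟩)
      · exact Or.inl (hRp a b h)
      · exact Or.inr h1
    · intro x y hxy
      refine ⟨att x y, att y x, hattP _ _, hattP _ _, Or.inr ?_⟩
      rw [hattP, hattP]
      exact ⟨hxy, rfl, rfl⟩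
    · rintro a b a' b' (h | ⟨h1, h2, h3⟩) h' hne e1 e2
      · exact absurd (hRp a b h) hne
      · rcases h' with h' | ⟨h1', h2', h3'⟩
        · exact absurd (by rw [e1, e2]; exact hRp a' b' h') hne
        · refine ⟨?_, ?_⟩
          · rw [h2, h2', e1, e2]
          · rw [h3, h3', e1, e2]
  · intro a b h e
    exact bl_eq_of_out h e

end Blow

end Pool.Agent.DI
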