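import Pool.Agent.DI.Slide

/-!
# DI/Repl: replacing a cell, complexes with pentagons only
-/

namespace Pool.Agent.DI

open MulAction
open Pool.Agent.SAF (InC orbs FinOrb oc)
open Pool.Agent.BT (PX)

section Repl

variable {H V : Type} [Group H] [MulAction H V]

open Classical in
/-- replace the cell `i0` by the closed walk `b, l` -/
noncomputable def GX.repl (K : GX H V) (i0 : K.I) (b : V) (l : List V) (hE : Wk K.E b l)
    (ht : tg b l = b)
    (h : ∀ φ, Coc H (Function.update K.cb i0 b) (Function.update K.cw i0 l) φ →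
      ps φ (K.cb i0) (K.cw i0) = 0) : GX H V where
  ar := K.ar
  rk := K.rk
  I := K.I
  finI := K.finI
  cb := Function.update K.cb i0 b
  cw := Function.update K.cw i0 l
  ar_rk := K.ar_rk
  ar_smul := K.ar_smul
  rk_smul := K.rk_smul
  two := K.two
  c_E i := by
    by_cases e : i = i0
    · subst e
      rw [Function.update_self, Function.update_self]
      exact hE
    · rw [Function.update_of_ne e, Function.update_of_ne e]
      exact K.c_E i
  c_tg i := by
    by_cases e : i = i0
    · subst e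
      rw [Function.update_self, Function.update_self]
      exact ht
    · rw [Function.update_of_ne e, Function.update_of_ne e]
      exact K.c_tg i
  ne := K.ne
  conn := K.conn
  H1 := by
    intro φ hs hc
    apply K.H1 φ hs
    intro i k
    by_cases e : i = i0
    · subst e
      have c : Coc H (Function.update K.cb i b) (Function.update K.cw i l) φ := ⟨hs, hc⟩
      have := h _ (c.smul k)
      rw [← ps_map (fun z => k • z) φ] at this
      exact this
    · have := hc i k
      rw [Function.update_of_ne e, Function.update_of_ne e] at this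
      exact this
  fin := K.fin
  stab := K.stab

open Classical in
theorem GX.repl_area (K : GX H V) (i0 : K.I) (b : V) (l : List V) (hE : Wk K.E b l)
    (ht : tg b l = b) (h) : (K.repl i0 b l hE ht h).area + ((K.cw i0).length - 4) =
      K.area + (l.length - 4) := by
  have := K.finI
  let := Fintype.ofFinite K.I
  have e1 : (K.repl i0 b l hE ht h).area =
      ∑ i : K.I, ((Function.update K.cw i0 l i).length - 4) :=
    finsum_eq_sum_of_fintype (fun i : K.I => (Function.update K.cw i0 l i).length - 4)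
  rw [e1, K.area_eq, ← Finset.sum_erase_add _ _ (Finset.mem_univ i0), Function.update_self,
    ← Finset.sum_erase_add (a := i0) _ (fun i => (K.cw i).length - 4) (Finset.mem_univ i0)]
  have e2 : ∑ x ∈ Finset.univ.erase i0, ((Function.update K.cw i0 l x).length - 4) =
      ∑ x ∈ Finset.univ.erase i0, ((K.cw x).length - 4) := by
    apply Finset.sum_congr rfl
    intro x hx
    rw [Function.update_of_ne (Finset.ne_of_mem_erase hx)]
  rw [e2]
  ring

end Repl

/-! ### Complexes with pentagons only -/

section Pent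

variable {H V : Type} [Group H] [MulAction H V]

/-- all cells are pentagons -/
structure Pt (K : GX H V) where
  pt : K.I → Fin 5 → V
  cb_eq : ∀ i, K.cb i = pt i 0
  cw_eq : ∀ i, K.cw i = [pt i 1, pt i 2, pt i 3, pt i 4, pt i 0]

/-- the area is minimal for the group -/
def GX.Min (K : GX H V) : Prop := ∀ (V' : Type) [MulAction H V'] (K' : GX H V'), K.area ≤ K'.area

/-- the pentagons of a clean pentagon complex -/
def ofClean_pt (K : PX H V) (hc : K.Clean) : Pt (ofClean K hc) where
  pt := K.pt
  cb_eq _ := rfl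
  cw_eq _ := rfl

theorem ofClean_min {K : PX H V} (hc : K.Clean) (hmin : K.AMin) : (ofClean K hc).Min := by
  intro V' _ K'
  rw [ofClean_area]
  exact area_ge hmin K'

theorem f5_1 : ∀ k j : Fin 5, k - 1 - j = k - j - 1 := by decide

theorem f5_2 : ∀ k j : Fin 5, k - 1 - j + 1 = k - j := by decide

theorem f5_3 : ∀ k j : Fin 5, k - (j + 1) + 1 = k - j := by decide

theorem f5_4 : ∀ k j : Fin 5, k - (j + 1) = k - j - 1 := by decide

/-- Any symmetric function has the same sum along a rotated or reflected pentagon. -/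
theorem sum_rot (f : Fin 5 → V) (φ : V → V → ZMod 2) (k : Fin 5) :
    ∑ j, φ (f (k + j)) (f (k + j + 1)) = ∑ j, φ (f j) (f (j + 1)) :=
  Fintype.sum_equiv (Equiv.addLeft k) _ _ (fun _ => rfl)

theorem sum_ref (f : Fin 5 → V) (φ : V → V → ZMod 2) (hs : ∀ x y, φ x y = φ y x) (k : Fin 5) :
    ∑ j, φ (f (k - j)) (f (k - j - 1)) = ∑ j, φ (f j) (f (j + 1)) := by
  refine Fintype.sum_equiv (Equiv.subLeft (k - 1)) _ _ (fun j => ?_)
  show φ (f (k - j)) (f (k - j - 1)) = φ (f (k - 1 - j)) (f (k - 1 - j + 1))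
  rw [hs, f5_2, f5_1]

namespace Pt

variable {K : GX H V} (P : Pt K)

theorem ps_cell (φ : V → V → ZMod 2) (i : K.I) (h : H) :
    ps φ (h • K.cb i) ((K.cw i).map (fun z => h • z)) =
      ∑ j : Fin 5, φ (h • P.pt i j) (h • P.pt i (j + 1)) := by
  rw [P.cb_eq, P.cw_eq, Fin.sum_univ_five]
  simp only [List.map_cons, List.map_nil, ps_cons, ps_nil, add_zero, add_assoc]
  rfl

theorem E (P : Pt K) (i : K.I) (j : Fin 5) : K.E (P.pt i j) (P.pt i (j + 1)) := by
  have h : Wk K.E (K.cb i) (K.cw i) := K.c_E i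
  rw [P.cb_eq, P.cw_eq] at h
  obtain ⟨h0, h1, h2, h3, h4, -⟩ := h
  fin_cases j
  · exact h0
  · exact h1
  · exact h2
  · exact h3
  · exact h4

theorem area_eq (P : Pt K) [Fintype K.I] : K.area = Fintype.card K.I := by
  rw [K.area_eq, Fintype.card, Finset.card_eq_sum_ones]
  apply Finset.sum_congr rfl
  intro i _
  rw [P.cw_eq]
  rfl

/-- the sequence `c` is a translate of the cell `i`, up to rotation and reflection -/
def At (c : Fin 5 → V) (i : K.I) : Prop := ∃ (h : H) (k : Fin 5),
  (∀ j, c j = h • P.pt i (k + j)) ∨ (∀ j, c j = h • P.pt i (k - j))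

theorem At.E {P : Pt K} {c : Fin 5 → V} {i : K.I} (a : P.At c i) (j : Fin 5) :
    K.E (c j) (c (j + 1)) := by
  obtain ⟨h, k, a | a⟩ := a
  · rw [a, a, ← add_assoc]
    exact K.E_smul h (P.E i _)
  · rw [a, a]
    have := (P.E i (k - (j + 1))).symm
    rw [f5_3] at this
    exact K.E_smul h this

/-- the sum along a translate of a cell is zero for cocycles -/
theorem At.sum {P : Pt K} {c : Fin 5 → V} {i : K.I} (a : P.At c i) {φ : V → V → ZMod 2}
    (hs : ∀ x y, φ x y = φ y x) (hz : ∀ h : H, ps φ (h • K.cb i) ((K.cw i).map (fun z => h • z)) = 0) :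
    ∑ j, φ (c j) (c (j + 1)) = 0 := by
  obtain ⟨h, k, a | a⟩ := a
  · have e := sum_rot (fun j => h • P.pt i j) φ k
    rw [← P.ps_cell φ i h, hz h] at e
    rw [← e]
    apply Finset.sum_congr rfl
    intro j _
    rw [a, a, ← add_assoc]
  · have e := sum_ref (fun j => h • P.pt i j) φ hs k
    rw [← P.ps_cell φ i h, hz h] at e
    rw [← e]
    apply Finset.sum_congr rfl
    intro j _
    rw [a, a, f5_4]

/-- conversely -/
theorem At.sum' {P : Pt K} {c : Fin 5 → V} {i : K.I} (a : P.At c i) : ∃ h : H,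
    ∀ φ : V → V → ZMod 2, (∀ x y, φ x y = φ y x) →
    ∑ j, φ (h • c j) (h • c (j + 1)) = ps φ (K.cb i) (K.cw i) := by
  obtain ⟨h, k, a⟩ := a
  refine ⟨h⁻¹, fun φ hs => ?_⟩
  have e0 := P.ps_cell φ i 1
  simp only [one_smul, List.map_id'] at e0
  rw [e0]
  rcases a with a | a
  · rw [← sum_rot (fun j => P.pt i j) φ k]
    apply Finset.sum_congr rfl
    intro j _
    rw [a, a, inv_smul_smul, inv_smul_smul, ← add_assoc]
  · rw [← sum_ref (fun j => P.pt i j) φ hs k]
    apply Finset.sum_congr rfl
    intro j _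
    rw [a, a, inv_smul_smul, inv_smul_smul, f5_4]

/-- in a minimal complex a cell cannot be replaced by a closed walk of length at most four -/
theorem no_short (P : Pt K) (hm : K.Min) (i0 : K.I) (b : V) (l : List V) (hE : Wk K.E b l)
    (ht : tg b l = b) (hl : l.length ≤ 4)
    (h : ∀ φ : V → V → ZMod 2, (∀ x y, φ x y = φ y x) → (∀ k : H, ps φ (k • b) (l.map (k • ·)) = 0) →
      (∀ i, i ≠ i0 → ∀ k : H, ps φ (k • K.cb i) ((K.cw i).map (fun z => k • z)) = 0) →
      ps φ (K.cb i0) (K.cw i0) = 0) : False := by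
  classical
  have h' : ∀ φ, Coc H (Function.update K.cb i0 b) (Function.update K.cw i0 l) φ →
      ps φ (K.cb i0) (K.cw i0) = 0 := by
    intro φ c
    apply h φ c.1
    · intro k
      have := c.2 i0 k
      rw [Function.update_self, Function.update_self] at this
      exact this
    · intro i hi k
      have := c.2 i k
      rw [Function.update_of_ne hi, Function.update_of_ne hi] at this
      exact this
  have h1 := K.repl_area i0 b l hE ht h'
  have h2 := hm V (K.repl i0 b l hE ht h')
  rw [P.cw_eq, Nat.sub_eq_zero_of_le hl] at h1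
  simp only [List.length_cons, List.length_nil] at h1
  omega

/-- no backtracks in the cells of a minimal complex -/
theorem At.ne2 {P : Pt K} (hm : K.Min) {c : Fin 5 → V} {i : K.I} (a : P.At c i) (j : Fin 5) :
    c j ≠ c (j + 2) := by
  intro e
  -- the closed walk `c (j+2), c (j+3), c (j+4)`
  obtain ⟨h, hh⟩ := a.sum'
  have e2 := a.E (j + 2)
  have e3 := a.E (j + 3)
  have e4 := a.E (j + 4)
  have g2 : j + 2 + 1 = j + 3 := by rw [add_assoc]; rfl
  have g3 : j + 3 + 1 = j + 4 := by rw [add_assoc]; rfl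
  have g4 : j + 4 + 1 = j := by rw [add_assoc]; exact add_zero j
  rw [g2] at e2
  rw [g3] at e3
  rw [g4, e] at e4
  refine P.no_short hm i (h • c (j + 2)) [h • c (j + 3), h • c (j + 4), h • c (j + 2)]
    ⟨K.E_smul h e2, K.E_smul h e3, K.E_smul h e4, trivial⟩ rfl (by simp) ?_
  intro φ hs hz _
  have h1 := hz 1
  simp only [one_smul, List.map_cons, List.map_nil, ps_cons, ps_nil, add_zero] at h1
  rw [← hh φ hs, ← sum_rot (fun j => h • c j) φ j, Fin.sum_univ_five]
  have g0 : j + 0 + 1 = j + 1 := by rw [add_zero]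
  have g1 : j + 1 + 1 = j + 2 := by rw [add_assoc]; rfl
  rw [g0, g1, g2, g3, g4, add_zero, e, hs (h • c (j + 1)) (h • c (j + 2))]
  have k := add_self_two (φ (h • c (j + 2)) (h • c (j + 1)))
  linear_combination k + h1

/-- two cells which differ by a closed walk of length four are equal -/
theorem At.uniq {P : Pt K} (hm : K.Min) {c d : Fin 5 → V} {i i' : K.I} (a : P.At c i)
    (a' : P.At d i') (h1 : c 1 = d 1) (h2 : c 2 = d 2) (h3 : c 3 = d 3) (h4 : c 4 = d 4) :
    i = i' := by
  by_contra hne
  obtain ⟨h, hh⟩ := a'.sum'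
  have e0 := a.E 0
  have e4 := a.E 4
  have f0 := a'.E 0
  have f4 := a'.E 4
  have g0 : (0 : Fin 5) + 1 = 1 := rfl
  have g4 : (4 : Fin 5) + 1 = 0 := rfl
  rw [g0] at e0 f0
  rw [g4] at e4 f4
  -- the closed walk `c 0, c 1, d 0, c 4`
  refine P.no_short hm i' (h • c 0) [h • c 1, h • d 0, h • c 4, h • c 0]
    ⟨K.E_smul h e0, K.E_smul h (by rw [h1]; exact f0.symm), K.E_smul h (by rw [h4]; exact f4.symm),
      K.E_smul h e4, trivial⟩ rfl (by simp) ?_
  intro φ hs hz hz'
  have k1 := hz 1
  simp only [one_smul, List.map_cons, List.map_nil, ps_cons, ps_nil, add_zero] at k1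
  have k2 := a.sum (φ := fun x y => φ (h • x) (h • y)) (fun x y => hs _ _) (by
    intro k
    have := hz' i hne (h * k)
    rw [mul_smul] at this
    rw [← ps_map (fun z => h • z) φ, List.map_map]
    convert this using 2
    refine List.map_congr_left fun z _ => ?_
    exact (mul_smul h k z).symm)
  rw [← hh φ hs]
  rw [Fin.sum_univ_five] at k2 ⊢
  have g1 : (1 : Fin 5) + 1 = 2 := rfl
  have g2 : (2 : Fin 5) + 1 = 3 := rfl
  have g3 : (3 : Fin 5) + 1 = 4 := rfl
  rw [g0, g1, g2, g3, g4] at k2 ⊢
  rw [← h1, ← h2, ← h3, ← h4, hs (h • d 0) (h • c 1)]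
  rw [hs (h • d 0) (h • c 4), hs (h • c 4) (h • c 0)] at k1
  rw [hs (h • c 4) (h • c 0)] at k2
  have s1 := add_self_two (φ (h • c 0) (h • c 1))
  have s2 := add_self_two (φ (h • c 0) (h • c 4))
  linear_combination k1 + k2 - s1 - s2

end Pt

end Pent

end Pool.Agent.DI
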