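import Pool.Agent.DI.Fold
import Pool.Agent.DI.Repl

/-!
# DI/Quot: quotients of complexes with listed cells

`Qt K f`: data of a quotient complex for an equivariant map `f : V → V'` (new arrows and ranks; `mg`:
the map is generated by folds; kept cells `ι : J → K.I`, the other ones are backtracking). `Q.gx`: the
quotient, its cells are the images of the kept cells with the stutters removed. `Q5 Q`: the kept cells
are pentagons and the dropped ones are short; then a minimal complex has no stutters (`Q5.ne`), the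
quotient is minimal (`Q5.min`) and has pentagons only (`Q5.pt`).
`mg_of_eqv`: `mg` from `EqvGen`. `stab_of_sinks`: it is enough to know the stabilisers of the sinks.
-/

namespace Pool.Agent.DI

open MulAction
open Pool.Agent.SAF (InC orbs FinOrb oc)
open Pool.Agent.BT (HG Mg lz lz_self lz_ne lz_symm)

variable {H V V' : Type} [Group H] [MulAction H V] [MulAction H V']

/-- the graph of a complex -/
def GX.hg (K : GX H V) : HG H V where
  E := K.E
  symm := fun _ _ h => h.symm
  smul := fun h _ _ e => K.E_smul h e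

theorem ps_dst (φ : V → V → ZMod 2) (x : V) (l : List V) : ps φ x (dst x l) = ps (lz φ) x l := by
  induction l generalizing x with
  | nil => rfl
  | cons y l ih =>
    by_cases h : y = x
    · rw [dst_cons_eq h, ih x, ps_cons, h, lz_self, zero_add]
    · rw [dst_cons_ne h, ps_cons, ih y, ps_cons, lz_ne φ (Ne.symm h)]

/-- the data for a quotient complex -/
structure Qt (K : GX H V) (f : V → V') where
  ar : V' → V' → Prop
  rk : V' → ℕ
  equi : ∀ (h : H) (x : V), f (h • x) = h • f x
  surj : Function.Surjective f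
  ar_rk : ∀ v a, ar v a → rk a < rk v
  ar_smul : ∀ (h : H) (v a : V'), ar v a → ar (h • v) (h • a)
  rk_smul : ∀ (h : H) (v : V'), rk (h • v) = rk v
  two : ∀ v a b c, ar v a → ar v b → ar v c → a = b ∨ b = c ∨ a = c
  e1 : ∀ x y, K.E x y → f x = f y ∨ (ar (f x) (f y) ∨ ar (f y) (f x))
  e2 : ∀ c d, ar c d → ∃ x y, K.E x y ∧ f x = c ∧ f y = d
  mg : ∀ x y, f x = f y → Mg K.hg f x y
  stab : ∀ v : V', InC ↥(stabilizer H v)
  J : Type
  finJ : Finite J
  ι : J → K.I
  drop : ∀ i, (∀ j, ι j ≠ i) → ∀ φ : V' → V' → ZMod 2, (∀ x y, φ x y = φ y x) →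
    ps (lz φ) (f (K.cb i)) ((K.cw i).map f) = 0

omit [MulAction H V'] in
/-- merging along common neighbours or edges -/
theorem mg_of_eqv {K : GX H V} {f : V → V'} {x y : V}
    (h : Relation.EqvGen (fun a b => f a = f b ∧ ((∃ c, K.E c a ∧ K.E c b) ∨ K.E a b)) x y) :
    Mg K.hg f x y := by
  induction h with
  | rel a b h =>
    obtain ⟨e, ⟨c, ha, hb⟩ | h⟩ := h
    · exact Mg.nb a b c c e (Mg.refl c) ha hb
    · exact Mg.adj a b e h
  | refl a => exact Mg.refl a
  | symm a b _ ih => exact Mg.symm _ _ ih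
  | trans a b c _ _ ih1 ih2 => exact Mg.trans _ _ _ ih1 ih2

/-- a function whose coboundary is the lift of a cochain is constant on classes -/
theorem mg_const' {K : GX H V} {f : V → V'} {φ : V' → V' → ZMod 2} {g : V → ZMod 2}
    (hf : ∀ (h : H) (x : V), f (h • x) = h • f x)
    (hg : ∀ x y, K.E x y → lz φ (f x) (f y) = g x + g y) {x y : V} (m : Mg K.hg f x y) :
    ∀ h : H, g (h • x) = g (h • y) ∧ f (h • x) = f (h • y) := by
  have hz : ∀ a b : ZMod 2, a + b = 0 → a = b := by decide
  have hz2 : ∀ a b c d t : ZMod 2, a = b → t = a + c → t = b + d → c = d := by decide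
  induction m with
  | refl x => exact fun h => ⟨rfl, rfl⟩
  | symm x y _ ih => exact fun h => ⟨(ih h).1.symm, (ih h).2.symm⟩
  | trans x y z _ _ ih1 ih2 => exact fun h => ⟨(ih1 h).1.trans (ih2 h).1, (ih1 h).2.trans (ih2 h).2⟩
  | smul k x y _ ih =>
    intro h
    rw [← mul_smul, ← mul_smul]
    exact ih _
  | adj x y e a =>
    intro h
    have e1 : f (h • x) = f (h • y) := by rw [hf, hf, e]
    refine ⟨hz _ _ ?_, e1⟩
    rw [← hg _ _ (K.E_smul h a), e1, lz_self]
  | nb x y z z' e _ a b ih =>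
    intro h
    have e1 : f (h • x) = f (h • y) := by rw [hf, hf, e]
    refine ⟨?_, e1⟩
    refine hz2 (g (h • z)) (g (h • z')) _ _ (lz φ (f (h • z)) (f (h • x))) (ih h).1
      (hg _ _ (K.E_smul h a)) ?_
    rw [(ih h).2, e1]
    exact hg _ _ (K.E_smul h b)

namespace Qt

variable {K : GX H V} {f : V → V'} (Q : Qt K f)

theorem e1' {x y : V} (e : K.E x y) : f y = f x ∨ (Q.ar (f x) (f y) ∨ Q.ar (f y) (f x)) :=
  (Q.e1 x y e).imp Eq.symm id

/-- the quotient complex -/
noncomputable def gx : GX H V' where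
  ar := Q.ar
  rk := Q.rk
  I := Q.J
  finI := Q.finJ
  cb j := f (K.cb (Q.ι j))
  cw j := dst (f (K.cb (Q.ι j))) ((K.cw (Q.ι j)).map f)
  ar_rk := Q.ar_rk
  ar_smul := Q.ar_smul
  rk_smul := Q.rk_smul
  two := Q.two
  c_E j := Wk_dst (E' := fun a b => Q.ar a b ∨ Q.ar b a) (f := f) (fun _ _ e => Q.e1' e)
    (K.c_E (Q.ι j))
  c_tg j := by rw [tg_dst, tg_map, K.c_tg]
  ne := K.ne.map f
  conn := by
    intro c d
    obtain ⟨x, rfl⟩ := Q.surj c
    obtain ⟨y, rfl⟩ := Q.surj d
    have := K.conn x y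
    induction this with
    | refl => exact Relation.ReflTransGen.refl
    | tail _ e ih =>
      rcases Q.e1 _ _ e with h | h
      · rw [← h]; exact ih
      · exact ih.tail h
  H1 := by
    intro φ hs hp
    obtain ⟨g, hg⟩ := K.H1 (fun x y => lz φ (f x) (f y)) (fun x y => lz_symm φ hs _ _)
      (fun i h => by
        rw [← ps_map f (lz φ), List.map_map]
        have e1 : (K.cw i).map (f ∘ fun z => h • z) =
            ((K.cw i).map f).map (fun z => h • z) := by
          rw [List.map_map]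
          refine List.map_congr_left fun z _ => ?_
          exact Q.equi h z
        rw [e1, Q.equi]
        by_cases hi : ∃ j, Q.ι j = i
        · obtain ⟨j, rfl⟩ := hi
          rw [← ps_dst, dst_smul]
          exact hp j h
        · push Not at hi
          have := Q.drop i hi (fun x y => φ (h • x) (h • y)) (fun x y => hs _ _)
          rw [ps_map (fun z => h • z)]
          have e2 : (fun a b : V' => lz φ (h • a) (h • b)) =
              lz (fun x y => φ (h • x) (h • y)) := by
            funext a b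
            by_cases e : a = b
            · rw [e, lz_self, lz_self]
            · rw [lz_ne _ e, lz_ne _ (fun k => e (smul_left_cancel h k))]
          rw [e2]
          exact this)
    have hc : ∀ x y, f x = f y → g x = g y := by
      intro x y e
      have := (mg_const' Q.equi (fun x y e => hg x y e) (Q.mg x y e) 1).1
      rwa [one_smul, one_smul] at this
    choose r hr using Q.surj
    refine ⟨fun c => g (r c), ?_⟩
    have main : ∀ c d, Q.ar c d → φ c d = g (r c) + g (r d) := by
      intro c d e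
      obtain ⟨x, y, exy, rfl, rfl⟩ := Q.e2 c d e
      have h1 := hg x y exy
      have h2 : f x ≠ f y := by
        intro h
        rw [h] at e
        exact absurd (Q.ar_rk _ _ e) (lt_irrefl _)
      simp only [lz_ne φ h2] at h1
      rw [h1, hc (r (f x)) x (hr _), hc (r (f y)) y (hr _)]
    rintro c d (e | e)
    · exact main c d e
    · rw [hs, main d c e, add_comm]
  fin := by
    apply SAF.FinOrb.image K.fin f
    · intro b _
      obtain ⟨x, rfl⟩ := Q.surj b
      exact ⟨x, trivial, 1, one_smul _ _⟩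
    · rintro a _ _ _ ⟨h, rfl⟩
      exact ⟨h, (Q.equi h a).symm⟩
  stab := Q.stab

theorem gx_ar : Q.gx.ar = Q.ar := rfl

theorem gx_rk : Q.gx.rk = Q.rk := rfl

theorem gx_E {x y : V'} : Q.gx.E x y ↔ Q.ar x y ∨ Q.ar y x := Iff.rfl

theorem gx_cb (j : Q.J) : Q.gx.cb j = f (K.cb (Q.ι j)) := rfl

theorem gx_cw (j : Q.J) : Q.gx.cw j = dst (f (K.cb (Q.ι j))) ((K.cw (Q.ι j)).map f) := rfl

/-- exact lengths -/
theorem gx_length (j : Q.J) :
    (Q.gx.cw j).length + stn f (K.cb (Q.ι j)) (K.cw (Q.ι j)) = (K.cw (Q.ι j)).length :=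
  length_dst f (K.cb (Q.ι j)) (K.cw (Q.ι j))

theorem gx_area [Fintype Q.J] :
    Q.gx.area = ∑ j : Q.J, ((K.cw (Q.ι j)).length - stn f (K.cb (Q.ι j)) (K.cw (Q.ι j)) - 4) := by
  have e : Q.gx.area = ∑ᶠ j : Q.J, ((Q.gx.cw j).length - 4) := rfl
  rw [e, finsum_eq_sum_of_fintype]
  refine Finset.sum_congr rfl fun i _ => ?_
  have := Q.gx_length i
  omega

/-- the area does not grow -/
theorem area_le (hi : Function.Injective Q.ι) : Q.gx.area ≤ K.area := by
  classical
  have := Q.finJ
  have := K.finI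
  let := Fintype.ofFinite Q.J
  let := Fintype.ofFinite K.I
  rw [Q.gx_area, K.area_eq]
  calc ∑ j : Q.J, ((K.cw (Q.ι j)).length - stn f (K.cb (Q.ι j)) (K.cw (Q.ι j)) - 4)
      ≤ ∑ j : Q.J, ((K.cw (Q.ι j)).length - 4) := Finset.sum_le_sum fun j _ => by omega
    _ = ∑ i ∈ Finset.univ.map ⟨Q.ι, hi⟩, ((K.cw i).length - 4) := by
      rw [Finset.sum_map]
      rfl
    _ ≤ ∑ i : K.I, ((K.cw i).length - 4) :=
      Finset.sum_le_sum_of_subset (Finset.subset_univ _)

end Qt

/-! ### pentagons -/

/-- the kept cells are pentagons, the dropped ones are short -/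
structure Q5 {K : GX H V} {f : V → V'} (Q : Qt K f) where
  p : Q.J → Fin 5 → V
  inj : Function.Injective Q.ι
  cb_eq : ∀ j, K.cb (Q.ι j) = p j 0
  cw_eq : ∀ j, K.cw (Q.ι j) = [p j 1, p j 2, p j 3, p j 4, p j 0]
  short : ∀ i, (∀ j, Q.ι j ≠ i) → (K.cw i).length ≤ 4

namespace Q5

variable {K : GX H V} {f : V → V'} {Q : Qt K f} (R : Q5 Q)

theorem area_eq (R : Q5 Q) : K.area = Nat.card Q.J := by
  classical
  have := Q.finJ
  have := K.finI
  let := Fintype.ofFinite Q.J
  let := Fintype.ofFinite K.I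
  rw [K.area_eq, Nat.card_eq_fintype_card]
  have e1 : ∑ i : K.I, ((K.cw i).length - 4) =
      ∑ i ∈ Finset.univ.map ⟨Q.ι, R.inj⟩, ((K.cw i).length - 4) := by
    symm
    apply Finset.sum_subset (Finset.subset_univ _)
    intro i _ hi
    apply Nat.sub_eq_zero_of_le
    apply R.short
    intro j hj
    exact hi (Finset.mem_map.2 ⟨j, Finset.mem_univ _, hj⟩)
  rw [e1, Finset.sum_map]
  have e2 : ∀ j, (K.cw ((⟨Q.ι, R.inj⟩ : Q.J ↪ K.I) j)).length - 4 = 1 := by
    intro j
    show (K.cw (Q.ι j)).length - 4 = 1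
    rw [R.cw_eq]
    rfl
  rw [Finset.sum_congr rfl (fun j _ => e2 j)]
  simp

theorem stn_zero (R : Q5 Q) (hm : K.Min) (j : Q.J) : stn f (K.cb (Q.ι j)) (K.cw (Q.ι j)) = 0 := by
  classical
  have := Q.finJ
  let := Fintype.ofFinite Q.J
  by_contra hne
  have h1 := hm V' Q.gx
  rw [R.area_eq, Q.gx_area, Nat.card_eq_fintype_card] at h1
  have h2 : ∑ j : Q.J, ((K.cw (Q.ι j)).length - stn f (K.cb (Q.ι j)) (K.cw (Q.ι j)) - 4) <
      ∑ _j : Q.J, 1 := by
    apply Finset.sum_lt_sum
    · intro j _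
      rw [R.cw_eq j]
      show 5 - _ - 4 ≤ 1
      omega
    · refine ⟨j, Finset.mem_univ _, ?_⟩
      have h3 : (K.cw (Q.ι j)).length = 5 := by
        rw [R.cw_eq]
        rfl
      omega
  rw [Finset.sum_const, Finset.card_univ, smul_eq_mul, mul_one] at h2
  omega

/-- no stutters in a minimal complex -/
theorem ne (R : Q5 Q) (hm : K.Min) (j : Q.J) (k : Fin 5) : f (R.p j k) ≠ f (R.p j (k + 1)) := by
  have h := R.stn_zero hm j
  rw [R.cb_eq, R.cw_eq] at h
  have key : ∀ (x y : V) (l : List V), stn f x (y :: l) = 0 → f x ≠ f y ∧ stn f y l = 0 := by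
    intro x y l h
    by_cases e : f y = f x
    · rw [stn_cons_eq e] at h
      omega
    · rw [stn_cons_ne e] at h
      exact ⟨fun k => e k.symm, h⟩
  obtain ⟨h0, h⟩ := key _ _ _ h
  obtain ⟨h1, h⟩ := key _ _ _ h
  obtain ⟨h2, h⟩ := key _ _ _ h
  obtain ⟨h3, h⟩ := key _ _ _ h
  obtain ⟨h4, -⟩ := key _ _ _ h
  fin_cases k
  · exact h0
  · exact h1
  · exact h2
  · exact h3
  · exact h4

theorem cb_gx (j : Q.J) : f (K.cb (Q.ι j)) = f (R.p j 0) := by rw [R.cb_eq]

theorem cw_gx (hm : K.Min) (j : Q.J) : dst (f (K.cb (Q.ι j))) ((K.cw (Q.ι j)).map f) =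
    [f (R.p j 1), f (R.p j 2), f (R.p j 3), f (R.p j 4), f (R.p j 0)] := by
  have h0 : f (R.p j 1) ≠ f (R.p j 0) := (R.ne hm j 0).symm
  have h1 : f (R.p j 2) ≠ f (R.p j 1) := (R.ne hm j 1).symm
  have h2 : f (R.p j 3) ≠ f (R.p j 2) := (R.ne hm j 2).symm
  have h3 : f (R.p j 4) ≠ f (R.p j 3) := (R.ne hm j 3).symm
  have h4 : f (R.p j 0) ≠ f (R.p j 4) := (R.ne hm j 4).symm
  rw [R.cb_eq, R.cw_eq]
  simp only [List.map_cons, List.map_nil]
  rw [dst_cons_ne h0, dst_cons_ne h1, dst_cons_ne h2, dst_cons_ne h3, dst_cons_ne h4, dst_nil]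

/-- the quotient has only pentagons -/
noncomputable def pt (hm : K.Min) : Pt Q.gx where
  pt j k := f (R.p j k)
  cb_eq := R.cb_gx
  cw_eq := R.cw_gx hm

theorem pt_pt (hm : K.Min) (j : Q.J) (k : Fin 5) : (R.pt hm).pt j k = f (R.p j k) := rfl

theorem area_gx (R : Q5 Q) (hm : K.Min) : Q.gx.area = K.area := by
  have := Q.finJ
  let := Fintype.ofFinite Q.J
  let : Fintype Q.gx.I := Fintype.ofFinite Q.J
  rw [R.area_eq, (R.pt hm).area_eq, Nat.card_eq_fintype_card]
  exact Fintype.card_congr (Equiv.refl Q.J)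

/-- the quotient is minimal, too -/
theorem min (R : Q5 Q) (hm : K.Min) : Q.gx.Min := by
  intro V'' _ K''
  rw [R.area_gx hm]
  exact hm V'' K''

end Q5

/-- five-element lists -/
theorem list5 {α : Type} {l : List α} (h : l.length = 5) (d : α) :
    l = [l.getD 0 d, l.getD 1 d, l.getD 2 d, l.getD 3 d, l.getD 4 d] := by
  rcases l with _ | ⟨a, _ | ⟨b, _ | ⟨c, _ | ⟨e, _ | ⟨g, _ | ⟨k, l⟩⟩⟩⟩⟩⟩ <;>
    simp_all

/-- all cells have length five: pentagons -/
noncomputable def Pt.of_length (K : GX H V) (h : ∀ i, (K.cw i).length = 5) : Pt K where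
  pt i k := if k = 0 then K.cb i else (K.cw i).getD (k.1 - 1) (K.cb i)
  cb_eq _ := (if_pos rfl).symm
  cw_eq i := by
    have h1 := list5 (h i) (K.cb i)
    have h2 : (K.cw i).getD 4 (K.cb i) = K.cb i := by
      have := K.c_tg i
      rw [h1] at this
      exact this
    have h3 : K.cw i = [(K.cw i).getD 0 (K.cb i), (K.cw i).getD 1 (K.cb i),
        (K.cw i).getD 2 (K.cb i), (K.cw i).getD 3 (K.cb i), K.cb i] := by
      rw [h2] at h1
      exact h1
    exact h3

/-! ### stabilisers -/

theorem out_finite {ar : V → V → Prop}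
    (two : ∀ v a b c, ar v a → ar v b → ar v c → a = b ∨ b = c ∨ a = c) (v : V) :
    {a | ar v a}.Finite := by
  by_cases h : ∃ a b, ar v a ∧ ar v b ∧ a ≠ b
  · obtain ⟨a, b, ha, hb, hab⟩ := h
    apply (Set.toFinite ({a, b} : Set V)).subset
    intro c hc
    rcases two v a b c ha hb hc with h | h | h
    · exact absurd h hab
    · exact Or.inr h.symm
    · exact Or.inl h.symm
  · push Not at h
    apply Set.Subsingleton.finite
    intro a ha b hb
    exact h a b ha hb

/-- it is enough to know the stabilisers of the sinks -/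
theorem stab_of_sinks {ar : V → V → Prop} {rk : V → ℕ} (ar_rk : ∀ v a, ar v a → rk a < rk v)
    (ar_smul : ∀ (h : H) (v a : V), ar v a → ar (h • v) (h • a))
    (two : ∀ v a b c, ar v a → ar v b → ar v c → a = b ∨ b = c ∨ a = c)
    (hs : ∀ v, (∀ a, ¬ ar v a) → InC ↥(stabilizer H v)) (v : V) : InC ↥(stabilizer H v) := by
  induction hn : rk v using Nat.strong_induction_on generalizing v with
  | _ n ih =>
    by_cases h : ∀ a, ¬ ar v a
    · exact hs v h
    · push Not at h
      obtain ⟨a, ha⟩ := h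
      have hC : InC ↥(stabilizer H a) := ih (rk a) (by rw [← hn]; exact ar_rk _ _ ha) a rfl
      -- the subgroup fixing `a`
      let A : Subgroup ↥(stabilizer H v) := stabilizer ↥(stabilizer H v) a
      let F : ↥A →* ↥(stabilizer H a) :=
        { toFun := fun g => ⟨g.1.1, g.2⟩
          map_one' := rfl
          map_mul' := fun _ _ => rfl }
      have hF : Function.Injective F := by
        intro x y e
        have e' : (F x).1 = (F y).1 := congrArg Subtype.val e
        exact Subtype.ext (Subtype.ext e')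
      have hA : InC ↥A :=
        Pool.Agent.SAF.InC.iso (MonoidHom.ofInjective hF).symm (Pool.Agent.SAG.InC.sub hC F.range)
      have hfin : (orbit ↥(stabilizer H v) a).Finite := by
        apply (out_finite two v).subset
        rintro _ ⟨g, rfl⟩
        have := ar_smul g.1 _ _ ha
        have hg : g.1 • v = v := g.2
        rw [hg] at this
        exact this
      refine SAG.InC.of_index A hA ?_
      show (stabilizer ↥(stabilizer H v) a).index ≠ 0
      rw [MulAction.index_stabilizer]
      exact (Set.ncard_pos hfin).2 ⟨a, mem_orbit_self a⟩ |>.ne'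

end Pool.Agent.DI
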