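import Pool.Agent.DI.K0d
import Pool.Agent.DI.Quot

/-!
# DI/KMin: minimal area at a vertex group

`S.WMin w`: no complex of the vertex group `H_w` has smaller area than `K`. Then every pentagon is
centred in the orbit of `w` (`c5_all`), the unfolded slice has the area of `K` and is minimal
(`k0_min`); the vertices `w` with `WMin` form one orbit (`wmin_orbit`, if there are pentagons), at the
other vertices no pentagon is centred and the area of the slice is zero.
-/

namespace Pool.Agent.DI

open MulAction
open Pool.Agent.SAF (InC orbs FinOrb oc Decomp SAn SA Conv hull dist_edge FinOrb_iff exists_next)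
open Pool.Agent.BT (PX PQ JS bey exits)

namespace Sys

variable {H V : Type} [Group H] [MulAction H V] (S : Sys H V)

/-- no complex of the vertex group has smaller area than `K` -/
def WMin (w : S.X) : Prop := ∀ (V' : Type) [MulAction ↥(stabilizer H w) V']
  (K' : GX ↥(stabilizer H w) V'), S.K.area ≤ K'.area

variable {S}

theorem card_le {w : S.X} (hc : S.Conn) (hw : S.WMin w) : Nat.card S.K.I ≤ Nat.card (S.C5 w) := by
  classical
  have := S.K.finI
  let ft := Fintype.ofFinite S.K.I
  have h := hw _ (S.k0 hc w)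
  rwa [S.k0_area, S.P.area_eq, ← Nat.card_eq_fintype_card] at h

/-- all pentagons are centred in the orbit of `w` -/
theorem c5_all {w : S.X} (hc : S.Conn) (hw : S.WMin w) (i : S.K.I) :
    ∃ h : H, S.IsC (S.tr h i) w := by
  classical
  have := S.K.finI
  let ft := Fintype.ofFinite S.K.I
  have hinj : Function.Injective (fun i : S.C5 w => i.1) := Subtype.val_injective
  have := S.finC5 w
  let ft' := Fintype.ofFinite (S.C5 w)
  have h1 := card_le hc hw
  rw [Nat.card_eq_fintype_card, Nat.card_eq_fintype_card] at h1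
  have h2 : Function.Bijective (fun i : S.C5 w => i.1) :=
    (Fintype.bijective_iff_injective_and_card _).2
      ⟨hinj, le_antisymm (Fintype.card_le_of_injective _ hinj) h1⟩
  obtain ⟨j, hj⟩ := h2.2 i
  rw [← hj]
  exact j.2

/-- every translate of a pentagon is centred in the orbit of `w` -/
theorem isC_of {w : S.X} (hc : S.Conn) (hw : S.WMin w) (h : H) (i : S.K.I) :
    ∃ g : H, S.IsC (S.tr h i) (g • w) := by
  obtain ⟨k, hk⟩ := c5_all hc hw i
  refine ⟨h * k⁻¹, ?_⟩
  have := (S.isC_smul (h * k⁻¹) k i w).2 hk
  rwa [inv_mul_cancel_right] at this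

/-- centres are in the orbit of `w` -/
theorem isC_orbit {w : S.X} (hc : S.Conn) (hw : S.WMin w) {h : H} {i : S.K.I} {c : S.X}
    (k : S.IsC (S.tr h i) c) : ∃ g : H, g • w = c := by
  obtain ⟨g, hg⟩ := isC_of hc hw h i
  exact ⟨g, S.isC_unique (S.tr_E h i) hg k⟩

theorem k0_area_eq {w : S.X} (hc : S.Conn) (hw : S.WMin w) : (S.k0 hc w).area = S.K.area :=
  le_antisymm (S.k0_area_le hc w) (hw _ _)

/-- the unfolded slice is minimal -/
theorem k0_min {w : S.X} (hc : S.Conn) (hw : S.WMin w) : (S.k0 hc w).Min := by
  intro V' _ K'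
  rw [k0_area_eq hc hw]
  exact hw V' K'

/-- the vertices with minimal area form one orbit -/
theorem wmin_orbit (hc : S.Conn) {w w' : S.X} (hw : S.WMin w) (hw' : S.WMin w')
    (i : S.K.I) : ∃ g : H, g • w = w' := by
  obtain ⟨h, hh⟩ := c5_all hc hw' i
  exact isC_orbit hc hw hh

/-- the slices at the other vertices have area zero -/
theorem k0_area_zero (hc : S.Conn) {w w' : S.X} (hw : S.WMin w) (hn : ∀ g : H, g • w ≠ w') :
    (S.k0 hc w').area = 0 := by
  rw [S.k0_area]
  have : IsEmpty (S.C5 w') := by
    refine ⟨fun i => ?_⟩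
    obtain ⟨g, hg⟩ := isC_orbit hc hw i.isC
    exact hn g hg
  exact Nat.card_of_isEmpty

end Sys

end Pool.Agent.DI
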