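import Pool.Agent.DI.CutX
import Pool.Agent.DI.Repl
import Pool.Agent.BT.PRips

/-!
# DI/Opt: bad pairs of minimal area

`Cd`: a candidate, i.e. a complex `K` with pentagons only of a group `H` which is not strongly
accessible, with connected links, whose area is minimal among ALL complexes of ALL groups which are
not strongly accessible.
`exists_Cd`: a finitely presented group which is not strongly accessible gives a candidate.
`Cd.reduce`: every bad pair (pentagons only) of minimal area has a part which is a candidate.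
`exists_min_Cd`: potentials with values in a well-founded order attain a minimum on candidates.
-/

namespace Pool.Agent.DI

open MulAction
open Pool.Agent.SAF (InC SA)
open Pool.Agent.BT (PX Red)

section

variable {H' V' H V : Type} [Group H'] [MulAction H' V'] [Group H] [MulAction H V]
  {K' : GX H' V'} {K : GX H V}

/-- a part of a complex with pentagons only has pentagons only -/
theorem SubGX.exists_pt (S : SubGX K' K) (P : Pt K) : Nonempty (Pt K') := by
  have key : ∀ i : K'.I, ∃ p : Fin 5 → V', K'.cb i = p 0 ∧ K'.cw i = [p 1, p 2, p 3, p 4, p 0] := by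
    intro i
    have hl := S.cw_length i
    rw [P.cw_eq] at hl
    have ht := K'.c_tg i
    obtain ⟨a1, a2, a3, a4, a5, e⟩ : ∃ a1 a2 a3 a4 a5, K'.cw i = [a1, a2, a3, a4, a5] := by
      generalize K'.cw i = l at hl
      match l, hl with
      | [a1, a2, a3, a4, a5], _ => exact ⟨a1, a2, a3, a4, a5, rfl⟩
    rw [e] at ht
    refine ⟨![K'.cb i, a1, a2, a3, a4], rfl, ?_⟩
    rw [e]
    show [a1, a2, a3, a4, a5] = [a1, a2, a3, a4, K'.cb i]
    have : a5 = K'.cb i := ht
    rw [this]
  choose p h1 h2 using key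
  exact ⟨⟨p, h1, h2⟩⟩

end

/-- candidates: bad pairs of minimal area with connected links -/
structure Cd : Type 1 where
  H : Type
  V : Type
  grp : Group H
  act : MulAction H V
  K : GX H V
  P : Pt K
  bad : ¬ SA H
  min : ∀ (H' V' : Type) [Group H'] [MulAction H' V'] (K' : GX H' V'), ¬ SA H' →
    K.area ≤ K'.area
  lc : ∀ v, K.LC v

namespace Cd

attribute [instance] Cd.grp Cd.act

/-- the area is minimal for the group -/
theorem Min (C : Cd) : C.K.Min := fun V' _ K' => C.min C.H V' K' C.bad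

theorem area_unique (C C' : Cd) : C.K.area = C'.K.area :=
  le_antisymm (C.min _ _ C'.K C'.bad) (C'.min _ _ C.K C.bad)

/-- every bad pair of minimal area has a part which is a candidate -/
theorem reduce (C : Cd) {H V : Type} [Group H] [MulAction H V] (K : GX H V) (P : Pt K)
    (hb : ¬ SA H) (ha : K.area ≤ C.K.area) :
    ∃ C' : Cd, Nonempty (SubGX C'.K K) := by
  obtain ⟨H', V', i1, i2, K', hb', ⟨S⟩, hlc⟩ := exists_conn K hb
  obtain ⟨P'⟩ := S.exists_pt P
  refine ⟨⟨H', V', i1, i2, K', P', hb', ?_, hlc⟩, ⟨S⟩⟩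
  intro H'' V'' _ _ K'' hb''
  exact (S.area_le.1.trans ha).trans (C.min _ _ K'' hb'')

/-- in a bad pair of minimal area every pentagon comes from a part with bad group -/
theorem all_cells (C : Cd) {H' V' H V : Type} [Group H'] [MulAction H' V'] [Group H]
    [MulAction H V] {K' : GX H' V'} {K : GX H V} (S : SubGX K' K) (P : Pt K)
    (ha : K.area ≤ C.K.area) (hb : ¬ SA H') (i : K.I) : ∃ i', S.ι i' = i := by
  apply S.area_le.2
  · exact le_antisymm S.area_le.1 (ha.trans (C.min _ _ K' hb))
  · rw [P.cw_eq]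
    simp

end Cd

/-- cleaning does not increase the number of pentagons -/
theorem Red_A {H V V' : Type} [Group H] [MulAction H V] [MulAction H V'] {K : PX H V}
    {K' : PX H V'} {f : V → V'} (r : Red K K' f) : K'.A ≤ K.A := by
  obtain ⟨ι, hi, -⟩ := r.pent
  have := K.finI
  exact Nat.card_le_card_of_injective ι hi

/-- from any bad pair one gets a candidate -/
theorem exists_Cd_of {H V : Type} [Group H] [MulAction H V] (K : GX H V) (hb : ¬ SA H) :
    Nonempty Cd := by
  classical
  -- the minimal area of all bad pairs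
  let Q : ℕ → Prop := fun n => ∃ (H V : Type) (_ : Group H) (_ : MulAction H V) (K : GX H V),
    ¬ SA H ∧ K.area = n
  have hQ : ∃ n, Q n := ⟨_, H, V, _, _, K, hb, rfl⟩
  obtain ⟨H1, V1, i1, j1, K1, hb1, e1⟩ := Nat.find_spec hQ
  have hmin : ∀ (H' V' : Type) [Group H'] [MulAction H' V'] (K' : GX H' V'), ¬ SA H' →
      K1.area ≤ K'.area := by
    intro H' V' _ _ K' hb'
    rw [e1]
    exact Nat.find_min' hQ ⟨H', V', _, _, K', hb', rfl⟩
  -- a clean pentagon complex of the same group
  obtain ⟨V2, j2, K2, h2⟩ := K1.toPX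
  obtain ⟨V3, j3, K3, f, r, hc⟩ := BT.exists_clean K2
  have h3 : (ofClean K3 hc).area ≤ K1.area := by
    rw [ofClean_area]
    exact (Red_A r).trans h2
  -- connected links
  obtain ⟨H4, V4, i4, j4, K4, hb4, ⟨S⟩, hlc⟩ := exists_conn (ofClean K3 hc) hb1
  obtain ⟨P4⟩ := S.exists_pt (ofClean_pt K3 hc)
  exact ⟨⟨H4, V4, i4, j4, K4, P4, hb4, fun H' V' _ _ K' hb' =>
    (S.area_le.1.trans h3).trans (hmin H' V' K' hb'), hlc⟩⟩

/-- a finitely presented group which is not strongly accessible gives a candidate -/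
theorem exists_Cd (G : Type) [Group G] [Group.IsFinitelyPresented G] (hb : ¬ SA G) :
    Nonempty Cd := by
  obtain ⟨V, i, ⟨K⟩⟩ := BT.exists_PX G
  obtain ⟨V3, j3, K3, f, r, hc⟩ := BT.exists_clean K
  exact exists_Cd_of (ofClean K3 hc) hb

/-- minimal candidates for a potential with values in a well-founded order -/
theorem exists_min_Cd (h : Nonempty Cd) {α : Type*} {r : α → α → Prop} (wf : WellFounded r)
    (F : Cd → α) : ∃ C : Cd, ∀ C' : Cd, ¬ r (F C') (F C) := by
  obtain ⟨a, ⟨C, rfl⟩, h2⟩ := wf.has_min (Set.range F) (Set.range_nonempty F)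
  exact ⟨C, fun C' => h2 _ ⟨C', rfl⟩⟩

/-- the same inside a class of candidates -/
theorem exists_min_Cd' {Q : Cd → Prop} (h : ∃ C, Q C) {α : Type*} {r : α → α → Prop}
    (wf : WellFounded r) (F : Cd → α) : ∃ C : Cd, Q C ∧ ∀ C' : Cd, Q C' → ¬ r (F C') (F C) := by
  obtain ⟨C0, h0⟩ := h
  obtain ⟨a, ⟨C, h1, rfl⟩, h2⟩ := wf.has_min (F '' {C | Q C}) ⟨_, C0, h0, rfl⟩
  exact ⟨C, h1, fun C' h' => h2 _ ⟨C', h', rfl⟩⟩

/-- two potentials, the second one bounded by a function of the first one (to be maximised) -/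
theorem exists_max_Cd {Q : Cd → Prop} (h : ∃ C, Q C) (F : Cd → ℕ) (b : ℕ)
    (hb : ∀ C, Q C → F C ≤ b) : ∃ C : Cd, Q C ∧ ∀ C' : Cd, Q C' → F C' ≤ F C := by
  obtain ⟨C, h1, h2⟩ := exists_min_Cd' h (measure (fun n : ℕ => b - n)).wf F
  refine ⟨C, h1, fun C' h' => ?_⟩
  have := h2 C' h'
  have e1 := hb C' h'
  have e2 := hb C h1
  have this : ¬ (b - F C' < b - F C) := this
  omega

end Pool.Agent.DI
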