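import Pool.Agent.DI.ELa
import Pool.Agent.DI.KMin
import Pool.Agent.DI.Opt

/-!
# DI/OETree: complexes without cells are trees

`GX.gr K`: the graph of a complex with listed cells; `GX.gr_tree`: it is a tree if there are no cells.
`Sys.c5_empty`: at a vertex outside the orbit of `w` (`w` of minimal area) no pentagon is centred.
`Sys.kf_blow`: all hypotheses of the blow-up (DI/OEBlow) for the folded slice `S.kf hc u` at a vertex
`u` where no pentagon is centred.
-/

namespace Pool.Agent.DI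

open MulAction
open Pool.Agent.SAF (InC orbs FinOrb oc Decomp SAn SA Conv hull dist_edge FinOrb_iff exists_next
  isTree_of_cut connected_of_rtg)

section

variable {H V : Type} [Group H] [MulAction H V]

namespace GX

variable (K : GX H V)

/-- the graph of a complex -/
def gr : SimpleGraph V where
  Adj x y := K.E x y
  symm := ⟨fun _ _ h => Or.symm h⟩
  loopless := ⟨fun x h => K.E_irr x h⟩

@[simp] theorem gr_adj {x y : V} : K.gr.Adj x y ↔ K.E x y := Iff.rfl

theorem gr_connected : K.gr.Connected := by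
  apply connected_of_rtg _ K.ne
  intro x y
  exact K.conn x y

/-- a complex without cells is a tree -/
theorem gr_tree (h : IsEmpty K.I) : K.gr.IsTree := by
  classical
  apply isTree_of_cut _ K.gr_connected
  intro v w hvw
  obtain ⟨g, hg⟩ := K.H1 (fun x y => if (x = v ∧ y = w) ∨ (x = w ∧ y = v) then 1 else 0)
    (by
      intro x y
      congr 1
      exact propext (or_comm.trans (or_congr and_comm and_comm)))
    (fun i => (h.false i).elim)
  refine ⟨g, ?_, ?_⟩
  · intro e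
    have h1 := hg v w hvw
    rw [if_pos (Or.inl ⟨rfl, rfl⟩), e] at h1
    have h2 : ∀ a : ZMod 2, ¬ (1 = a + a) := by decide
    exact h2 _ h1
  · intro a b hab hne
    have h1 := hg a b hab
    by_contra hcon
    rw [if_neg hcon] at h1
    have h2 : ∀ p q : ZMod 2, 0 = p + q → p = q := by decide
    exact hne (h2 _ _ h1)

theorem gr_smul (h : H) {x y : V} (e : K.gr.Adj x y) : K.gr.Adj (h • x) (h • y) := K.E_smul h e

/-- no inversions -/
theorem gr_noinv (h : H) {x y : V} (e : K.gr.Adj x y) : ¬ (h • x = y ∧ h • y = x) := by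
  rintro ⟨h1, h2⟩
  have r1 : K.rk y = K.rk x := by rw [← h1, K.rk_smul]
  rcases e with e | e
  · have := K.ar_rk _ _ e
    omega
  · have := K.ar_rk _ _ e
    omega

theorem finOrb_gr : FinOrb H {p : V × V | K.gr.Adj p.1 p.2} := by
  obtain ⟨F, hF, hF', hc⟩ := FinOrb_iff.1 K.finAr
  rw [FinOrb_iff]
  refine ⟨F ∪ Prod.swap '' F, hF.union (hF.image _), ?_, ?_⟩
  · rintro p (hp | ⟨q, hq, rfl⟩)
    · exact Or.inl (hF' hp)
    · exact Or.inr (hF' hq)
  · rintro ⟨x, y⟩ (h | h)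
    · obtain ⟨f, hf, g, e⟩ := hc (x, y) h
      exact ⟨f, Or.inl hf, g, e⟩
    · obtain ⟨f, hf, g, e⟩ := hc (y, x) h
      refine ⟨f.swap, Or.inr ⟨f, hf, rfl⟩, g, ?_⟩
      have e1 := congrArg Prod.fst e
      have e2 := congrArg Prod.snd e
      exact Prod.ext e2 e1

/-- all hypotheses of the blow-up for a complex without cells -/
theorem blow (h : IsEmpty K.I) : K.gr.IsTree ∧
    (∀ (k : H) (x y : V), K.gr.Adj x y → K.gr.Adj (k • x) (k • y)) ∧
    (∀ (k : H) (x y : V), K.gr.Adj x y → ¬ (k • x = y ∧ k • y = x)) ∧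
    FinOrb H (Set.univ : Set V) ∧ FinOrb H {p : V × V | K.gr.Adj p.1 p.2} ∧
    (∀ x : V, InC ↥(stabilizer H x)) :=
  ⟨K.gr_tree h, fun k _ _ e => K.gr_smul k e, fun k _ _ e => K.gr_noinv k e, K.fin, K.finOrb_gr,
    K.stab⟩

end GX

end

namespace Sys

variable {H V : Type} [Group H] [MulAction H V] {S : Sys H V}

/-- no pentagon is centred at the vertices outside the orbit of `w` -/
theorem c5_empty (hc : S.Conn) {w u : S.X} (hw : S.WMin w) (hn : ∀ g : H, g • w ≠ u) :
    IsEmpty (S.C5 u) := by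
  refine ⟨fun i => ?_⟩
  obtain ⟨g, hg⟩ := isC_orbit hc hw i.isC
  exact hn g hg

theorem kf_I_empty (hc : S.Conn) {u : S.X} (h : IsEmpty (S.C5 u)) : IsEmpty (S.kf hc u).I := h

variable (S)

open Classical in
/-- the attaching map of the blow-up: the sink of the edge `u y` -/
noncomputable def att (u : S.X) (y : S.X) : S.Q u :=
  if h : S.D.G.Adj u y then S.fq u (Sum.inr ⟨y, h⟩) else S.fq u (Classical.choice (by
    obtain ⟨g, hg⟩ := S.D.nofix u
    obtain ⟨z, hz, -⟩ := exists_next S.D.tree (a := u) (b := g • u) (fun e => hg e.symm)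
    exact ⟨Sum.inr ⟨z, hz⟩⟩))

theorem att_eq {u y : S.X} (h : S.D.G.Adj u y) : S.att u y = S.fq u (Sum.inr ⟨y, h⟩) :=
  dif_pos h

theorem att_smul {u y : S.X} (h : S.D.G.Adj u y) (k : ↥(stabilizer H u)) :
    S.att u ((k : H) • y) = k • S.att u y := by
  have hk : (k : H) • u = u := k.2
  have h' : S.D.G.Adj u ((k : H) • y) := by
    have := S.D.adj_smul (k : H) _ _ h
    rwa [hk] at this
  rw [S.att_eq h, S.att_eq h', ← fq_smul]
  rfl

variable {S}

/-- all hypotheses of the blow-up for the folded slice at a vertex where no pentagon is centred -/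
theorem kf_blow (hc : S.Conn) {u : S.X} (h : IsEmpty (S.C5 u)) :
    (S.kf hc u).gr.IsTree ∧
    (∀ (k : ↥(stabilizer H u)) (x y : S.Q u), (S.kf hc u).gr.Adj x y →
      (S.kf hc u).gr.Adj (k • x) (k • y)) ∧
    (∀ (k : ↥(stabilizer H u)) (x y : S.Q u), (S.kf hc u).gr.Adj x y →
      ¬ (k • x = y ∧ k • y = x)) ∧
    FinOrb ↥(stabilizer H u) (Set.univ : Set (S.Q u)) ∧
    FinOrb ↥(stabilizer H u) {p : S.Q u × S.Q u | (S.kf hc u).gr.Adj p.1 p.2} ∧
    (∀ x : S.Q u, InC ↥(stabilizer ↥(stabilizer H u) x)) ∧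
    (∀ (k : ↥(stabilizer H u)) (y : S.X), S.D.G.Adj u y → S.att u ((k : H) • y) = k • S.att u y) := by
  obtain ⟨h1, h2, h3, h4, h5, h6⟩ := (S.kf hc u).blow h
  exact ⟨h1, h2, h3, h4, h5, h6, fun k y hy => S.att_smul hy k⟩

/-- the same for vertices outside the orbit of a vertex of minimal area -/
theorem kf_blow' (hc : S.Conn) {w u : S.X} (hw : S.WMin w) (hn : ∀ g : H, g • w ≠ u) :
    (S.kf hc u).gr.IsTree ∧
    (∀ (k : ↥(stabilizer H u)) (x y : S.Q u), (S.kf hc u).gr.Adj x y →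
      (S.kf hc u).gr.Adj (k • x) (k • y)) ∧
    (∀ (k : ↥(stabilizer H u)) (x y : S.Q u), (S.kf hc u).gr.Adj x y →
      ¬ (k • x = y ∧ k • y = x)) ∧
    FinOrb ↥(stabilizer H u) (Set.univ : Set (S.Q u)) ∧
    FinOrb ↥(stabilizer H u) {p : S.Q u × S.Q u | (S.kf hc u).gr.Adj p.1 p.2} ∧
    (∀ x : S.Q u, InC ↥(stabilizer ↥(stabilizer H u) x)) ∧
    (∀ (k : ↥(stabilizer H u)) (y : S.X), S.D.G.Adj u y → S.att u ((k : H) • y) = k • S.att u y) :=
  kf_blow hc (c5_empty hc hw hn)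

end Sys

/-- bad vertex groups have minimal area -/
theorem Cd.wmin (C : Cd) {S : Sys C.H C.V} (hK : S.K = C.K) {w : S.X}
    (hb : ¬ SA ↥(stabilizer C.H w)) : S.WMin w := fun V' _ K' => by
  rw [hK]
  exact C.min _ _ K' hb

/-- all hypotheses of the blow-up at a vertex which is not in the orbit of a bad vertex -/
theorem Cd.kf_blow (C : Cd) {S : Sys C.H C.V} (hK : S.K = C.K) (hc : S.Conn) {w u : S.X}
    (hb : ¬ SA ↥(stabilizer C.H w)) (hn : ∀ g : C.H, g • w ≠ u) :
    IsEmpty (S.C5 u) ∧ (S.kf hc u).gr.IsTree ∧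
    (∀ (k : ↥(stabilizer C.H u)) (x y : S.Q u), (S.kf hc u).gr.Adj x y →
      (S.kf hc u).gr.Adj (k • x) (k • y)) ∧
    (∀ (k : ↥(stabilizer C.H u)) (x y : S.Q u), (S.kf hc u).gr.Adj x y →
      ¬ (k • x = y ∧ k • y = x)) ∧
    FinOrb ↥(stabilizer C.H u) (Set.univ : Set (S.Q u)) ∧
    FinOrb ↥(stabilizer C.H u) {p : S.Q u × S.Q u | (S.kf hc u).gr.Adj p.1 p.2} ∧
    (∀ x : S.Q u, InC ↥(stabilizer ↥(stabilizer C.H u) x)) ∧
    (∀ (k : ↥(stabilizer C.H u)) (y : S.X), S.D.G.Adj u y →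
      S.att u ((k : C.H) • y) = k • S.att u y) :=
  ⟨Sys.c5_empty hc (C.wmin hK hb) hn, Sys.kf_blow' hc (C.wmin hK hb) hn⟩

end Pool.Agent.DI
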