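import Pool.Agent.DI.QK0d
import Pool.Agent.DI.OETree
import Pool.Agent.DI.OEBlow
import Pool.Agent.BT.PClean
import Pool.Agent.BT.PQ

/-!
# DI/OQBlow: the tree of a good vertex for complexes with pentagons and squares

The unfolded slice at a vertex where no pentagon is centred, as a complex in which all 4-cycles are
filled, has a clean reduction without pentagons (`BT.exists_clean`): a tree. `SyQ.blow_tree`: all
hypotheses of `exists_blow`.
-/

namespace Pool.Agent.DI

open MulAction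
open Pool.Agent.SAF (InC orbs FinOrb oc Decomp SAn SA Conv exists_next)
open Pool.Agent.BT (PX PQ JS bey exits Red)

section

variable {H V : Type} [Group H] [MulAction H V]

theorem z4a : ∀ a b : ZMod 2, a + a + b + b = 0 := by decide

theorem z4b : ∀ a b : ZMod 2, a + b + b + a = 0 := by decide

/-- a clean complex without pentagons as a complex without cells -/
def cleanGX (K : PX H V) (hcl : K.Clean) (hI : IsEmpty K.I) : GX H V where
  ar := K.ar
  rk := K.rk
  I := Empty
  finI := inferInstance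
  cb := fun i => i.elim
  cw := fun i => i.elim
  ar_rk := K.ar_rk
  ar_smul := K.ar_smul
  rk_smul := K.rk_smul
  two := K.two
  c_E := fun i => i.elim
  c_tg := fun i => i.elim
  ne := K.ne
  conn := K.conn
  H1 := by
    intro φ hs _
    refine K.H1 φ hs ?_ ?_ (fun i => (hI.false i).elim)
    · intro x y z w h1 h2 h3 h4
      rcases hcl.c4 x y z w h1 h2 h3 h4 with rfl | rfl
      · rw [hs y x, hs w x]
        exact z4a _ _
      · rw [hs z y, hs y x]
        exact z4b _ _
    · intro x y z h1 h2 h3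
      exact (hcl.c3 x y z h1 h2 h3).elim
  fin := K.fin
  stab := K.stab

end

namespace SyQ

variable {H V : Type} [Group H] [MulAction H V] {S : SyQ H V}

open Classical in
/-- THE TREE OF A GOOD VERTEX -/
theorem blow_tree (hc : S.Conn) {u : S.X} (h5 : IsEmpty (S.C5 u)) :
    ∃ (F : Type) (_ : MulAction ↥(stabilizer H u) F) (GF : SimpleGraph F) (t : S.X → F),
      GF.IsTree ∧
      (∀ (k : ↥(stabilizer H u)) x y, GF.Adj x y → GF.Adj (k • x) (k • y)) ∧
      (∀ (k : ↥(stabilizer H u)) x y, GF.Adj x y → ¬ (k • x = y ∧ k • y = x)) ∧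
      FinOrb ↥(stabilizer H u) (Set.univ : Set F) ∧
      FinOrb ↥(stabilizer H u) {p : F × F | GF.Adj p.1 p.2} ∧
      (∀ x : F, InC ↥(stabilizer ↥(stabilizer H u) x)) ∧
      ∀ (k : ↥(stabilizer H u)) (y : S.X), S.D.G.Adj u y → t ((k : H) • y) = k • t y := by
  obtain ⟨F, iF, K', f, red, hcl⟩ := Pool.Agent.BT.exists_clean
    ((S.k0P hc u).pq.px (S.k0 hc u).stab)
  have hI : IsEmpty K'.I := by
    obtain ⟨ι, -⟩ := red.pent
    refine ⟨fun i => ?_⟩
    obtain ⟨j, hj⟩ := ι i
    rcases j with j | p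
    · exact h5.false j
    · exact hj ⟨p, rfl⟩
  obtain ⟨g1, g2, g3, g4, g5, g6⟩ := (cleanGX K' hcl hI).blow (inferInstance : IsEmpty Empty)
  have hnb : ∃ z, S.D.G.Adj u z := by
    obtain ⟨g, hg⟩ := S.D.nofix u
    obtain ⟨z, hz, -⟩ := exists_next S.D.tree (a := u) (b := g • u) (fun e => hg e.symm)
    exact ⟨z, hz⟩
  obtain ⟨z0, hz0⟩ := hnb
  let t : S.X → F := fun y => if h : S.D.G.Adj u y then f (Sum.inr ⟨y, h⟩)
    else f (Sum.inr ⟨z0, hz0⟩)
  refine ⟨F, iF, _, t, g1, g2, g3, g4, g5, g6, ?_⟩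
  intro k y hy
  have hk : (k : H) • u = u := k.2
  have h' : S.D.G.Adj u ((k : H) • y) := by
    have := S.D.adj_smul (k : H) _ _ hy
    rwa [hk] at this
  have e1 : t y = f (Sum.inr ⟨y, hy⟩) := dif_pos hy
  have e2 : t ((k : H) • y) = f (Sum.inr ⟨(k : H) • y, h'⟩) := dif_pos h'
  rw [e1, e2, ← red.equi]
  rfl

/-- the blow-up at a good vertex -/
theorem blow_up (hc : S.Conn) {u : S.X} (h5 : IsEmpty (S.C5 u))
    (hbip : ∀ x y : S.X, S.D.G.Adj x y → (∃ h : H, h • u = x) → ¬ ∃ h : H, h • u = y) :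
    ∃ (D' : Decomp H) (c : D'.X → S.X), TMap D'.G S.D.G c ∧
      (∀ (h : H) a, c (h • a) = h • c a) ∧
      (∀ a b, (∀ h : H, h • u ≠ c a) → c a = c b → a = b) ∧
      (∀ a, (∃ h : H, h • u = c a) → InC ↥(stabilizer H a)) := by
  obtain ⟨F, iF, GF, t, b1, b2, b3, b4, b5, b6, b7⟩ := blow_tree hc h5
  exact exists_blow S.D u hbip F GF b1 b2 b3 b4 b5 b6 t b7

end SyQ

end Pool.Agent.DI
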