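import Pool.Agent.DI.OERel

/-!
# DI/OERelB: existence of relative systems

`exists_rel_sys`: `S` good on `D`, `c : D' → D` a collapse: there is a system `J'` on `D'` with
`c '' J' x = J x`, axes for the broken sinks, points for the elliptic sinks.
-/

namespace Pool.Agent.DI

open MulAction
open Pool.Agent.SAF (InC orbs FinOrb oc Decomp SAn SA Conv exists_cut exists_next FinOrb_iff TAct)
open Pool.Agent.BT (PX PQ JS bey exits MinSub Ell mst Hyp Lq mst_conv axis bey_irr_l
  x_next_unique conv_tri_q QDat IsJQ jq_status exists_jq)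
open Pool.Agent.BT.TA

variable {H V : Type} [Group H] [MulAction H V]

theorem ell_smul {X : Type} [MulAction H X] {x : V} (h : Ell H X x) (g : H) :
    Ell H X (g • x) := by
  obtain ⟨w, hw⟩ := h
  refine ⟨g • w, ?_⟩
  intro a ha
  have ha' : a • g • x = g • x := ha
  have h1 := hw (g⁻¹ * a * g) (by
    change (g⁻¹ * a * g) • x = x
    rw [mul_smul, mul_smul, ha', inv_smul_smul])
  rw [mul_smul, mul_smul, inv_smul_eq_iff] at h1
  exact h1

theorem ell_smul_iff {X : Type} [MulAction H X] (x : V) (g : H) :
    Ell H X (g • x) ↔ Ell H X x := by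
  constructor
  · intro h
    have := ell_smul h g⁻¹
    rwa [inv_smul_smul] at this
  · intro h
    exact ell_smul h g

/-- an equivariant choice -/
theorem oe_equi {X : Type} [MulAction H X] [Nonempty X] {E : V → Prop} {P : V → X → Prop}
    (hE : ∀ (h : H) x, E x → E (h • x)) (hP : ∀ (h : H) x w, P x w → P (h • x) (h • w))
    (hex : ∀ x, E x → ∃ w, P x w ∧ ∀ h ∈ stabilizer H x, h • w = w) :
    ∃ q : V → X, (∀ (h : H) x, E x → q (h • x) = h • q x) ∧ ∀ x, E x → P x (q x) := by
  classical
  have h1 : ∀ o : orbitRel.Quotient H V, ∃ w : X, E (Quotient.out o) →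
      P (Quotient.out o) w ∧ ∀ h ∈ stabilizer H (Quotient.out o), h • w = w := by
    intro o
    by_cases ho : E (Quotient.out o)
    · obtain ⟨w, hw⟩ := hex _ ho
      exact ⟨w, fun _ => hw⟩
    · exact ⟨Classical.arbitrary X, fun h => absurd h ho⟩
  choose w hw using h1
  have h2 : ∀ x : V, ∃ g : H, g • Quotient.out (Quotient.mk'' x : orbitRel.Quotient H V) = x := by
    intro x
    have e : (Quotient.mk'' (Quotient.out (Quotient.mk'' x : orbitRel.Quotient H V)) :
        orbitRel.Quotient H V) = Quotient.mk'' x := Quotient.out_eq _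
    obtain ⟨g, hg⟩ := Pool.Agent.SAF.mk_eq_iff.1 e
    exact ⟨g⁻¹, by rw [← hg, inv_smul_smul]⟩
  choose g hg using h2
  have hout : ∀ x, E x → E (Quotient.out (Quotient.mk'' x : orbitRel.Quotient H V)) := by
    intro x hx
    have := hE (g x)⁻¹ x hx
    rwa [inv_smul_eq_iff.2 (hg x).symm] at this
  refine ⟨fun x => g x • w (Quotient.mk'' x), ?_, ?_⟩
  · intro h x hx
    have e1 : (Quotient.mk'' (h • x) : orbitRel.Quotient H V) = Quotient.mk'' x :=
      Pool.Agent.SAF.mk_eq_iff.2 ⟨h, rfl⟩
    have e2 := hg (h • x)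
    have e3 := hg x
    show g (h • x) • w (Quotient.mk'' (h • x)) = h • g x • w (Quotient.mk'' x)
    rw [e1] at e2 ⊢
    have h5 := (hw (Quotient.mk'' x) (hout x hx)).2 ((h * g x)⁻¹ * g (h • x)) (by
      change ((h * g x)⁻¹ * g (h • x)) • Quotient.out (Quotient.mk'' x : orbitRel.Quotient H V) = _
      rw [mul_smul, e2, mul_inv_rev, mul_smul, inv_smul_smul, inv_smul_eq_iff, e3])
    rw [mul_smul, inv_smul_eq_iff, mul_smul] at h5
    exact h5
  · intro x hx
    have h3 := hP (g x) _ _ (hw (Quotient.mk'' x) (hout x hx)).1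
    rwa [hg x] at h3

theorem mst_smul' {X : Type} [MulAction H X] {G : SimpleGraph X} (hG : TAct H G) (h : H)
    (x : V) {w : X} (hw : w ∈ mst G (stabilizer H x)) : h • w ∈ mst G (stabilizer H (h • x)) := by
  intro C hC hne hA
  have h1 : w ∈ {y | h • y ∈ C} := by
    apply hw
    · intro a ha b hb y hy
      refine hC _ ha _ hb _ ?_
      rw [hG.dist_smul, hG.dist_smul, hG.dist_smul]
      exact hy
    · obtain ⟨y, hy⟩ := hne
      refine ⟨h⁻¹ • y, ?_⟩
      change h • h⁻¹ • y ∈ C
      rwa [smul_inv_smul]
    · intro a ha y hy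
      have ha' : a • x = x := ha
      have h2 := hA (h * a * h⁻¹) (by
        change (h * a * h⁻¹) • h • x = h • x
        rw [mul_smul, mul_smul, inv_smul_smul, ha']) _ hy
      rw [mul_smul, mul_smul, inv_smul_smul] at h2
      exact h2
  exact h1

/-- the data for the sinks and points -/
theorem qdat_lq {K : PQ H V} (hst : ∀ v : V, InC ↥(stabilizer H v)) {D : Decomp H}
    (hsoft : ∀ x a, K.ar x a → Ell H D.X x) (q : V → D.X)
    (hq : ∀ (h : H) (x : V), Ell H D.X x → q (h • x) = h • q x) : QDat K D (Lq H q) q := by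
  classical
  have hLe : ∀ x, Ell H D.X x → Lq H q x = {q x} := fun x h => if_pos h
  have hLh : ∀ x, ¬ Ell H D.X x → Lq H q x = mst D.G (stabilizer H x) := fun x h => if_neg h
  have hax : ∀ x, ¬ Ell H D.X x → _ := fun x h =>
    axis D.tact (stabilizer H x) (hst x) (by
      unfold Ell at h
      push Not at h
      exact h)
  exact
    { L_conv := by
        intro x _
        by_cases hx : Ell H D.X x
        · rw [hLe x hx]
          exact Pool.Agent.BT.conv_singleton D.tree _
        · rw [hLh x hx]
          exact (hax x hx).1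
      L_ne := by
        intro x _
        by_cases hx : Ell H D.X x
        · rw [hLe x hx]
          exact Set.singleton_nonempty _
        · rw [hLh x hx]
          exact (hax x hx).2.1
      L_two := by
        intro x _
        by_cases hx : Ell H D.X x
        · rw [hLe x hx]
          intro w hw a b c e1 _ _ ha _ _
          rw [Set.mem_singleton_iff] at hw ha
          subst hw
          rw [ha] at e1
          exact absurd e1 (D.G.irrefl)
        · rw [hLh x hx]
          exact (hax x hx).2.2.1
      L_smul := by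
        intro h x w hw
        by_cases hx : Ell H D.X x
        · rw [hLe x hx] at hw
          rw [hLe _ (ell_smul hx h)]
          rw [Set.mem_singleton_iff] at hw ⊢
          rw [hw, hq h x hx]
        · rw [hLh x hx] at hw
          rw [hLh _ (fun h' => hx ((ell_smul_iff x h).1 h'))]
          exact mst_smul' D.tact h x hw
      L_fin := by
        intro x _
        by_cases hx : Ell H D.X x
        · rw [hLe x hx]
          exact Set.Finite.image _ (Set.finite_singleton _)
        · rw [hLh x hx]
          exact (hax x hx).2.2.2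
      q_smul := by
        rintro h x ⟨a, ha⟩
        exact hq h x (hsoft x a ha) }

theorem hyp_of_not_ell {X : Type} [MulAction H X] {x : V} (h : ¬ Ell H X x) :
    Hyp X (stabilizer H x) := by
  unfold Ell at h
  push Not at h
  exact h

/-- EXISTENCE OF RELATIVE SYSTEMS -/
theorem exists_rel_sys {S : Sys H V} (hg : S.Gd) {D' : Decomp H} {c : D'.X → S.X}
    (T : TMap D'.G S.D.G c) (hc : ∀ (h : H) a, c (h • a) = h • c a)
    (hsoft : ∀ x a, S.K.ar x a → Ell H D'.X x) :
    ∃ (J' : V → Set D'.X), JS S.P.pq D' J' ∧ (∀ x, c '' J' x = S.J x) ∧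
      (∀ x, Ell H D'.X x → (J' x).Finite) ∧
      (∀ z, (∀ a, ¬ S.K.ar z a) → ¬ Ell H D'.X z → J' z = mst D'.G (stabilizer H z)) ∧
      (∀ z, (∀ a, ¬ S.K.ar z a) → Ell H D'.X z → ∃ p', J' z = {p'}) := by
  classical
  have hne : Nonempty D'.X := D'.tree.connected.nonempty
  -- the stabiliser of `x` fixes the point `J x = {p}`
  have hfix : ∀ (x : V) (p : S.X), S.J x = {p} → ∀ h ∈ stabilizer H x, h • p = p := by
    intro x p hp h hh
    have h1 : p ∈ S.J x := by rw [hp]; rfl
    have h2 := S.js.smul h x p h1
    rw [show h • x = x from hh, hp] at h2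
    exact h2
  obtain ⟨q', hq1, hq2⟩ := oe_equi (H := H) (V := V) (X := D'.X)
    (E := fun x => Ell H D'.X x) (P := fun x w => ∀ p, S.J x = {p} → c w = p)
    (fun h x hx => ell_smul hx h) (by
      intro h x w hP p hp
      have h1 : S.J x = {h⁻¹ • p} := by
        ext y
        rw [Set.mem_singleton_iff]
        have h2 := S.mem_smul_iff h x y
        rw [hp, Set.mem_singleton_iff] at h2
        rw [← h2]
        exact ⟨fun e => by rw [← e, inv_smul_smul], fun e => by rw [e, smul_inv_smul]⟩
      rw [hc, hP _ h1, smul_inv_smul]) (by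
      intro x hx
      obtain ⟨y0, hy0⟩ := hx
      by_cases hp : ∃ p, S.J x = {p}
      · obtain ⟨p, hp⟩ := hp
        have hC : Conv D'.G (c ⁻¹' {p}) := T.conv_fibre p
        have hCne : (c ⁻¹' {p}).Nonempty := by
          obtain ⟨a, ha⟩ := T.surj p
          exact ⟨a, ha⟩
        obtain ⟨p', ⟨h1, h2⟩, h3⟩ := Pool.Agent.BT.exists_proj D'.tree hC hCne y0
        refine ⟨p', ?_, ?_⟩
        · intro p1 hp1
          have : p1 = p := by
            have h4 : p1 ∈ ({p} : Set S.X) := by
              rw [← hp, hp1]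
              rfl
            exact h4
          rw [this]
          exact h1
        · intro h hh
          apply h3
          have hinv : ∀ g ∈ stabilizer H x, ∀ a ∈ c ⁻¹' {p}, g • a ∈ c ⁻¹' {p} := by
            intro g hgx a ha
            show c (g • a) = p
            rw [hc, show c a = p from ha]
            exact hfix x p hp g hgx
          refine ⟨hinv h hh _ h1, ?_⟩
          intro a ha
          have h4 := h2 _ (hinv h⁻¹ (inv_mem hh) a ha)
          have e1 : D'.G.dist y0 (h⁻¹ • a) = D'.G.dist y0 a := by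
            rw [← D'.tact.dist_smul h, smul_inv_smul, hy0 h hh]
          have e2 : D'.G.dist p' (h⁻¹ • a) = D'.G.dist (h • p') a := by
            rw [← D'.tact.dist_smul h, smul_inv_smul]
          have e3 : D'.G.dist y0 p' = D'.G.dist y0 (h • p') := by
            conv_rhs => rw [← hy0 h hh]
            rw [D'.tact.dist_smul]
          rw [e1, e2, e3] at h4
          exact h4
      · exact ⟨y0, fun p hp1 => absurd ⟨p, hp1⟩ hp, hy0⟩)
  have hQ : QDat S.P.pq D' (Lq H q') q' := qdat_lq S.K.stab hsoft q' hq1
  obtain ⟨J', hJ', js', hfin⟩ := exists_jq S.P.pq D' _ q' hQ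
  have hLe : ∀ x, Ell H D'.X x → Lq H q' x = {q' x} := fun x h => if_pos h
  have hLh : ∀ x, ¬ Ell H D'.X x → Lq H q' x = mst D'.G (stabilizer H x) := fun x h => if_neg h
  refine ⟨J', js', ?_, ?_, ?_, ?_⟩
  · apply rel_image T S.js hQ hJ'
    · intro z hz
      by_cases he' : Ell H D'.X z
      · have he := ell_of_map hc he'
        obtain ⟨p, b, a, y, y', h, -⟩ := hg.seen z hz he
        rw [hLe z he', Set.image_singleton, hq2 z he' p h, h]
      · rw [hLh z he']
        have hax := axis D'.tact _ (S.K.stab z) (hyp_of_not_ell he')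
        by_cases he : Ell H S.X z
        · obtain ⟨p, b, a, y, y', h, -⟩ := hg.seen z hz he
          obtain ⟨w, hw⟩ := hax.2.1
          rw [h]
          apply Set.Subset.antisymm
          · rintro _ ⟨w', hw', rfl⟩
            exact T.mst_fibre hc (hfix z p h) hw'
          · intro x hx
            rw [Set.mem_singleton_iff.1 hx]
            exact ⟨w, hw, T.mst_fibre hc (hfix z p h) hw⟩
        · rw [hg.ax z hz he]
          exact T.mst_image hc hax.2.1 (axis S.D.tact _ (S.K.stab z) (hyp_of_not_ell he)).2.1
    · rintro x ⟨a, ha⟩ p hp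
      exact hq2 x (hsoft x a ha) p hp
  · intro x hx
    by_cases ha : ∃ a, S.K.ar x a
    · exact hfin x ha
    · push Not at ha
      rw [hJ'.sink x ha, hLe x hx]
      exact Set.finite_singleton _
  · intro z hz he
    rw [hJ'.sink z hz, hLh z he]
  · intro z hz he
    exact ⟨q' z, by rw [hJ'.sink z hz, hLe z he]⟩

end Pool.Agent.DI
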