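import Pool.Agent.DI.QSys

/-!
# The unfolded slice

`SV w`: vertices `x` over `w` and edges `w u` of the tree. `rho w : V → SV w`. Cells: the pentagons
centred at `w` and the zero squares of the pentagons which cross the edge at `w` towards their centre.
-/

namespace Pool.Agent.DI

open MulAction
open Pool.Agent.SAF (InC orbs FinOrb oc Decomp SAn SA Conv hull dist_edge FinOrb_iff exists_next)
open Pool.Agent.BT (PX PQ JS bey exits lz lz_self lz_ne lz_symm x_next_unique)
open Pool.Agent.BT.TA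

namespace SyQ

variable {H V : Type} [Group H] [MulAction H V] (S : SyQ H V)

/-! ### directions -/

theorem exists_dir {w : S.X} {z : V} (h : w ∉ S.J z) :
    ∃ u, S.D.G.Adj w u ∧ S.J z ⊆ bey S.D.G w u := by
  obtain ⟨y0, hy0⟩ := S.js.ne z
  have hne : w ≠ y0 := by
    rintro rfl
    exact h hy0
  obtain ⟨u, hu, e⟩ := exists_next S.D.tree hne
  refine ⟨u, hu, S.side_of hu (fun hc => h hc.1) hy0 ?_⟩
  show S.D.G.dist y0 w = S.D.G.dist y0 u + 1
  rw [SimpleGraph.dist_comm, e, SimpleGraph.dist_comm]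

open Classical in
/-- the neighbour of `w` in the direction of `J z` -/
noncomputable def dir (w : S.X) (z : V) : S.X :=
  if h : w ∉ S.J z then (S.exists_dir h).choose else w

theorem dir_adj {w : S.X} {z : V} (h : w ∉ S.J z) : S.D.G.Adj w (S.dir w z) := by
  unfold dir
  rw [dif_pos h]
  exact (S.exists_dir h).choose_spec.1

theorem dir_bey {w : S.X} {z : V} (h : w ∉ S.J z) : S.J z ⊆ bey S.D.G w (S.dir w z) := by
  unfold dir
  rw [dif_pos h]
  exact (S.exists_dir h).choose_spec.2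

theorem bey_unique {w u v x : S.X} (hu : S.D.G.Adj w u) (hv : S.D.G.Adj w v)
    (h1 : x ∈ bey S.D.G w u) (h2 : x ∈ bey S.D.G w v) : u = v :=
  x_next_unique S.D.tree hu hv h1 h2

theorem dir_eq {w u : S.X} {z : V} (hu : S.D.G.Adj w u) (hs : S.J z ⊆ bey S.D.G w u) :
    S.dir w z = u := by
  have h : w ∉ S.J z := fun h => bey_not (hs h) (bey_self hu.symm)
  obtain ⟨y, hy⟩ := S.js.ne z
  exact S.bey_unique (S.dir_adj h) hu (S.dir_bey h hy) (hs hy)

theorem not_mem_of_bey {w u : S.X} {z : V} (hu : S.D.G.Adj w u) (hs : S.J z ⊆ bey S.D.G w u) :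
    w ∉ S.J z := fun h => bey_not (hs h) (bey_self hu.symm)

theorem dir_smul (h : H) {w : S.X} {z : V} (hz : w ∉ S.J z) :
    S.dir (h • w) (h • z) = h • S.dir w z :=
  S.dir_eq (S.D.adj_smul h _ _ (S.dir_adj hz)) (S.sub_bey_smul h (S.dir_bey hz))

/-- a vertex over `w` with a neighbour not over `w` crosses the edge in its direction -/
theorem dir_cross {w : S.X} {z z' : V} (e : S.K.E z z') (hz : w ∈ S.J z) (hz' : w ∉ S.J z') :
    S.dir w z' ∈ S.J z := by
  have ha := S.dir_adj hz'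
  obtain ⟨p, p0, p1⟩ := S.one_ex e
  have h1 := S.dir_bey hz' p1
  exact (conv_cr S.D.tree (S.js.conv z) ha hz p0 (bey_self ha.symm) h1).2

theorem dir_far {w : S.X} {z z' : V} (e : S.K.E z z') (hz : w ∉ S.J z) (hz' : w ∉ S.J z') :
    S.dir w z = S.dir w z' := by
  obtain ⟨p, p0, p1⟩ := S.one_ex e
  exact S.bey_unique (S.dir_adj hz) (S.dir_adj hz') (S.dir_bey hz p0) (S.dir_bey hz' p1)

/-! ### vertices of the slice -/

/-- the vertices over `w` -/
def NV (w : S.X) : Type := {x : V // w ∈ S.J x}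

/-- the edges at `w` -/
def EV (w : S.X) : Type := {u : S.X // S.D.G.Adj w u}

instance actNV (w : S.X) : MulAction ↥(stabilizer H w) (S.NV w) where
  smul h x := ⟨h.1 • x.1, by
    have h1 := S.js.smul h.1 _ _ x.2
    have hw : h.1 • w = w := h.2
    rwa [hw] at h1⟩
  one_smul x := Subtype.ext (one_smul H x.1)
  mul_smul a b x := Subtype.ext (mul_smul a.1 b.1 x.1)

instance actEV (w : S.X) : MulAction ↥(stabilizer H w) (S.EV w) where
  smul h u := ⟨h.1 • u.1, by
    have h1 := S.D.adj_smul h.1 _ _ u.2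
    have hw : h.1 • w = w := h.2
    rwa [hw] at h1⟩
  one_smul x := Subtype.ext (one_smul H x.1)
  mul_smul a b x := Subtype.ext (mul_smul a.1 b.1 x.1)

/-- the vertices of the slice at `w` -/
abbrev SV (w : S.X) : Type := S.NV w ⊕ S.EV w

variable {S}

theorem NV_smul {w : S.X} (h : ↥(stabilizer H w)) (x : S.NV w) : (h • x).1 = h.1 • x.1 := rfl

theorem EV_smul {w : S.X} (h : ↥(stabilizer H w)) (x : S.EV w) : (h • x).1 = h.1 • x.1 := rfl

variable (S)

/-- a vertex over `w` -/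
def nv (w : S.X) (x : V) (h : w ∈ S.J x) : S.SV w := Sum.inl ⟨x, h⟩

/-- the sink of an edge -/
def tv (w u : S.X) (h : S.D.G.Adj w u) : S.SV w := Sum.inr ⟨u, h⟩

/-- arrows of the slice -/
inductive SAr (w : S.X) : S.SV w → S.SV w → Prop
  | hor (x a : S.NV w) : S.K.ar x.1 a.1 → SAr w (Sum.inl x) (Sum.inl a)
  | up (x : S.NV w) (u : S.EV w) : u.1 ∈ S.J x.1 → SAr w (Sum.inl x) (Sum.inr u)

variable {S}

theorem SAr.smul {w : S.X} (h : ↥(stabilizer H w)) {a b : S.SV w} (e : S.SAr w a b) :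
    S.SAr w (h • a) (h • b) := by
  cases e with
  | hor x a e => exact SAr.hor _ _ (S.K.ar_smul h.1 _ _ e)
  | up x u e => exact SAr.up _ _ (S.js.smul h.1 _ _ e)

variable (S)

/-- the rank -/
def rkS (w : S.X) : S.SV w → ℕ
  | Sum.inl x => S.K.rk x.1 + 1
  | Sum.inr _ => 0

open Classical in
/-- the image of a vertex in the slice -/
noncomputable def rho (w : S.X) (z : V) : S.SV w :=
  if h : w ∈ S.J z then Sum.inl ⟨z, h⟩ else Sum.inr ⟨S.dir w z, S.dir_adj h⟩

theorem rho_near {w : S.X} {z : V} (h : w ∈ S.J z) : S.rho w z = Sum.inl ⟨z, h⟩ := dif_pos h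

theorem rho_far {w : S.X} {z : V} (h : w ∉ S.J z) :
    S.rho w z = Sum.inr ⟨S.dir w z, S.dir_adj h⟩ := dif_neg h

theorem rho_bey {w u : S.X} {z : V} (hu : S.D.G.Adj w u) (hs : S.J z ⊆ bey S.D.G w u) :
    S.rho w z = Sum.inr ⟨u, hu⟩ := by
  rw [S.rho_far (S.not_mem_of_bey hu hs)]
  exact congrArg Sum.inr (Subtype.ext (S.dir_eq hu hs))

theorem rho_smul {w : S.X} (h : ↥(stabilizer H w)) (z : V) :
    S.rho w (h.1 • z) = h • S.rho w z := by
  have hw : h.1 • w = w := h.2
  by_cases hz : w ∈ S.J z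
  · have hz' : w ∈ S.J (h.1 • z) := by
      have := S.js.smul h.1 _ _ hz
      rwa [hw] at this
    rw [S.rho_near hz, S.rho_near hz']
    rfl
  · have hz' : w ∉ S.J (h.1 • z) := by
      intro h1
      have h2 : h.1 • w ∈ S.J (h.1 • z) := by
        rw [hw]
        exact h1
      exact hz ((S.mem_smul_iff h.1 z w).1 h2)
    rw [S.rho_far hz, S.rho_far hz']
    apply congrArg Sum.inr
    apply Subtype.ext
    show S.dir w (h.1 • z) = h.1 • S.dir w z
    rw [← S.dir_smul h.1 hz, hw]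

/-- adjacency in the slice -/
def SE (w : S.X) (a b : S.SV w) : Prop := S.SAr w a b ∨ S.SAr w b a

variable {S}

theorem SE.symm {w : S.X} {a b : S.SV w} (h : S.SE w a b) : S.SE w b a := Or.symm h

theorem rkS_lt {w : S.X} {a b : S.SV w} (e : S.SAr w a b) : S.rkS w b < S.rkS w a := by
  cases e with
  | hor x a e => exact Nat.succ_lt_succ (S.K.ar_rk _ _ e)
  | up x u e => exact Nat.succ_pos _

theorem SE.ne {w : S.X} {a b : S.SV w} (h : S.SE w a b) : a ≠ b := by
  rintro rfl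
  rcases h with h | h <;> exact absurd (rkS_lt h) (lt_irrefl _)

variable (S)

/-- images of adjacent vertices -/
theorem rho_step {w : S.X} {z z' : V} (e : S.K.E z z') :
    (w ∉ S.J z ∧ w ∉ S.J z' ∧ S.rho w z = S.rho w z') ∨ S.SE w (S.rho w z) (S.rho w z') := by
  by_cases hz : w ∈ S.J z
  · right
    by_cases hz' : w ∈ S.J z'
    · rw [S.rho_near hz, S.rho_near hz']
      exact Or.imp (fun h => SAr.hor (S := S) ⟨z, hz⟩ ⟨z', hz'⟩ h)
        (fun h => SAr.hor (S := S) ⟨z', hz'⟩ ⟨z, hz⟩ h) e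
    · rw [S.rho_near hz, S.rho_far hz']
      exact Or.inl (SAr.up (S := S) ⟨z, hz⟩ ⟨_, S.dir_adj hz'⟩ (S.dir_cross e hz hz'))
  · by_cases hz' : w ∈ S.J z'
    · right
      rw [S.rho_near hz', S.rho_far hz]
      exact Or.inr (SAr.up (S := S) ⟨z', hz'⟩ ⟨_, S.dir_adj hz⟩ (S.dir_cross (Or.symm e) hz' hz))
    · left
      refine ⟨hz, hz', ?_⟩
      rw [S.rho_far hz, S.rho_far hz']
      exact congrArg Sum.inr (Subtype.ext (S.dir_far e hz hz'))

theorem rho_step' {w : S.X} {z z' : V} (e : S.K.E z z') (h : w ∈ S.J z ∨ w ∈ S.J z') :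
    S.SE w (S.rho w z) (S.rho w z') := by
  rcases S.rho_step (w := w) e with ⟨h1, h2, _⟩ | h'
  · rcases h with h | h
    · exact absurd h h1
    · exact absurd h h2
  · exact h'

/-- the cochain on lazy steps -/
theorem lz_near {w : S.X} {φ : S.SV w → S.SV w → ZMod 2} {z z' : V} (e : S.K.E z z')
    (h : w ∈ S.J z ∨ w ∈ S.J z') : lz φ (S.rho w z) (S.rho w z') = φ (S.rho w z) (S.rho w z') :=
  lz_ne φ (S.rho_step' e h).ne

end SyQ

end Pool.Agent.DI
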