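import Pool.Agent.DI.OESys
import Pool.Agent.DI.QK0

/-!
# DI/OQCol: collapses of systems for complexes with pentagons and squares

`jsp_col`: the image of a system for a pre-complex. `SyQ.col`, `SyQ.Conn.col`: walls and slices (with
squares) stay connected.
-/

namespace Pool.Agent.DI

open MulAction
open Pool.Agent.SAF (InC orbs FinOrb oc Decomp SAn SA Conv exists_cut exists_next FinOrb_iff TAct)
open Pool.Agent.BT (PX PQ JS bey exits MinSub Ell mst Hyp Lq mst_conv axis bey_irr_l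
  x_next_unique conv_tri_q)
open Pool.Agent.BT.TA

section

variable {H V : Type} [Group H] [MulAction H V]

/-- sinks have points or axes -/
def SinkP (K : PQ H V) (D : Decomp H) (J : V → Set D.X) : Prop :=
  ∀ z, (∀ a, ¬ K.ar z a) → (∃ p, J z = {p}) ∨
    (Hyp D.X (stabilizer H z) ∧ J z = mst D.G (stabilizer H z))

/-- THE IMAGE OF A SYSTEM -/
theorem jsp_col {K : PQ H V} (hst : ∀ v : V, InC ↥(stabilizer H v)) {D : Decomp H}
    {J : V → Set D.X} (js : JS K D J) (hs : SinkP K D J) {D1 : Decomp H} {c : D.X → D1.X}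
    (T : TMap D.G D1.G c) (hc : ∀ (h : H) a, c (h • a) = h • c a) :
    JS K D1 (fun x => c '' J x) := by
  have hcross : ∀ x, (∃ a, K.ar x a) → ∀ w w', D1.G.Adj w w' → w ∈ c '' J x →
      w' ∈ c '' J x → ∃ a, K.ar x a ∧ c '' J a ⊆ bey D1.G w w' := by
    intro x hx w w' hww h1 h2
    obtain ⟨α, β, rfl, rfl, hab⟩ := T.lift w w' hww
    obtain ⟨k1, k2⟩ := T.mem_lift' (js.conv x) hab hww.ne h1 h2
    obtain ⟨a, ha, hs⟩ := js.cross x hx α β hab k1 k2
    refine ⟨a, ha, ?_⟩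
    rintro _ ⟨z, hz, rfl⟩
    exact (T.bey_iff hab hww.ne z).1 (hs hz)
  refine
    { conv := fun x => T.conv_image (js.conv x)
      ne := fun x => (js.ne x).image c
      smul := ?_
      one := ?_
      two := ?_
      cross := hcross
      fin := ?_ }
  · rintro h x _ ⟨w, hw, rfl⟩
    exact ⟨h • w, js.smul h x w hw, hc h w⟩
  · intro x y e
    obtain ⟨p, hp⟩ := js.one x y e
    have hpx : p ∈ J x ∩ J y := by rw [hp]; rfl
    refine ⟨c p, ?_⟩
    apply Set.Subset.antisymm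
    · rintro ξ ⟨⟨a, ha, ea⟩, ⟨b, hb, eb⟩⟩
      by_contra hne
      have hne' : c p ≠ ξ := fun k => hne k.symm
      obtain ⟨y', hy', hd⟩ := exists_next D1.tree hne'
      obtain ⟨α, β, h1, rfl, hab⟩ := T.lift _ _ hy'
      have hn : c α ≠ c β := by
        rw [h1]
        exact hy'.ne
      have hξ : ξ ∈ bey D1.G (c α) (c β) := by
        rw [h1]
        show D1.G.dist ξ (c p) = D1.G.dist ξ (c β) + 1
        rw [SimpleGraph.dist_comm, hd, SimpleGraph.dist_comm]
      have hpp : c p ∈ bey D1.G (c β) (c α) := by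
        rw [← h1]
        exact bey_self (T.adj' hab hn).symm
      have k1 := T.mem_lift (js.conv x) hab hn ⟨p, hpx.1, hpp⟩ ⟨a, ha, by rw [ea]; exact hξ⟩
      have k2 := T.mem_lift (js.conv y) hab hn ⟨p, hpx.2, hpp⟩ ⟨b, hb, by rw [eb]; exact hξ⟩
      have m1 : α ∈ J x ∩ J y := ⟨k1.1, k2.1⟩
      have m2 : β ∈ J x ∩ J y := ⟨k1.2, k2.2⟩
      rw [hp, Set.mem_singleton_iff] at m1 m2
      exact hab.ne (m1.trans m2.symm)
    · rintro _ rfl
      exact ⟨⟨p, hpx.1, rfl⟩, ⟨p, hpx.2, rfl⟩⟩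
  · intro x w hw s hs1 t ht u hu
    by_cases hx : ∃ a, K.ar x a
    · -- every exit belongs to a pole
      have key : ∀ s ∈ exits K D1.G (fun x => c '' J x) x w, ∃ a, K.ar x a ∧
          ((s = Sum.inl a ∧ w ∈ c '' J a) ∨ ∃ w', s = Sum.inr w' ∧ D1.G.Adj w w' ∧
            c '' J a ⊆ bey D1.G w w') := by
        rintro s (⟨a, rfl, ha, hwa⟩ | ⟨w', rfl, hww, hw'⟩)
        · exact ⟨a, ha, Or.inl ⟨rfl, hwa⟩⟩
        · obtain ⟨a, ha, hsub⟩ := hcross x hx w w' hww hw hw'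
          exact ⟨a, ha, Or.inr ⟨w', rfl, hww, hsub⟩⟩
      have inj : ∀ s s' a, ((s = Sum.inl a ∧ w ∈ c '' J a) ∨ ∃ w', s = Sum.inr w' ∧
            D1.G.Adj w w' ∧ c '' J a ⊆ bey D1.G w w') →
          ((s' = Sum.inl a ∧ w ∈ c '' J a) ∨ ∃ w', s' = Sum.inr w' ∧
            D1.G.Adj w w' ∧ c '' J a ⊆ bey D1.G w w') → s = s' := by
        rintro s s' a (⟨rfl, h1⟩ | ⟨w1, rfl, h1, h2⟩) (⟨rfl, h3⟩ | ⟨w2, rfl, h3, h4⟩)
        · rfl
        · exact absurd (h4 h1) bey_irr_l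
        · exact absurd (h2 h3) bey_irr_l
        · obtain ⟨z, hz⟩ := (js.ne a).image c
          rw [x_next_unique D1.tree h1 h3 (h2 hz) (h4 hz)]
      obtain ⟨a, ha, ka⟩ := key s hs1
      obtain ⟨b, hb, kb⟩ := key t ht
      obtain ⟨d, hd, kd⟩ := key u hu
      rcases K.two x a b d ha hb hd with rfl | rfl | rfl
      · exact Or.inl (inj _ _ _ ka kb)
      · exact Or.inr (Or.inr (inj _ _ _ kb kd))
      · exact Or.inr (Or.inl (inj _ _ _ ka kd))
    · push Not at hx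
      -- exits are edges
      have ed : ∀ s ∈ exits K D1.G (fun x => c '' J x) x w, ∃ w', s = Sum.inr w' ∧
          D1.G.Adj w w' ∧ w' ∈ c '' J x := by
        rintro s (⟨a, rfl, ha, -⟩ | ⟨w', rfl, hww, hw'⟩)
        · exact absurd ha (hx a)
        · exact ⟨w', rfl, hww, hw'⟩
      obtain ⟨a, rfl, ha, ha'⟩ := ed s hs1
      obtain ⟨b, rfl, hb, hb'⟩ := ed t ht
      obtain ⟨d, rfl, hd, hd'⟩ := ed u hu
      rcases hs x hx with ⟨p, hp⟩ | ⟨hy, hm⟩
      · exfalso
        change w ∈ c '' J x at hw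
        rw [hp, Set.image_singleton, Set.mem_singleton_iff] at hw ha'
        exact ha.ne (hw.trans ha'.symm)
      · by_cases he : Hyp D1.X (stabilizer H x)
        · have e1 := T.mst_image hc (axis D.tact _ (hst x) hy).2.1
            (axis D1.tact _ (hst x) he).2.1
          change w ∈ c '' J x at hw
          rw [hm, e1] at hw ha' hb' hd'
          have h3 := (axis D1.tact _ (hst x) he).2.2.1 w hw a b d ha hb hd ha' hb' hd'
          rcases h3 with e | e | e
          · exact Or.inl (by rw [e])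
          · exact Or.inr (Or.inl (by rw [e]))
          · exact Or.inr (Or.inr (by rw [e]))
        · exfalso
          unfold Hyp at he
          push Not at he
          obtain ⟨ξ, hξ⟩ := he
          change w ∈ c '' J x at hw
          rw [hm] at hw ha'
          obtain ⟨α, hα, e1⟩ := hw
          obtain ⟨β, hβ, e2⟩ := ha'
          have k1 := T.mst_fibre hc hξ hα
          have k2 := T.mst_fibre hc hξ hβ
          exact ha.ne (e1.symm.trans (k1.trans (k2.symm.trans e2)))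
  · apply js.fin.image (fun p => (p.1, c p.2))
    · rintro ⟨v, l⟩ ⟨w, hw, e⟩
      refine ⟨(v, w), hw, 1, ?_⟩
      rw [one_smul]
      exact Prod.ext rfl e
    · rintro a _ b _ ⟨h, rfl⟩
      refine ⟨h, ?_⟩
      exact Prod.ext rfl (hc h a.2).symm


end

namespace SyQ

variable {H V : Type} [Group H] [MulAction H V] {S : SyQ H V}

/-- sinks have points or axes -/
def SinkOK (S : SyQ H V) : Prop := SinkP S.P.pq S.D S.J

/-- two opposite vertices of a pentagon over `w` -/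
theorem pent_conn {x q z y y' : V} (hp : Qn S.P x q z y y') {w : S.X} (hx : w ∈ S.J x)
    (hz : w ∈ S.J z) (hne : ∀ w1, S.D.G.Adj w w1 → S.J q ⊆ bey S.D.G w w1 →
      ¬ S.J y ⊆ bey S.D.G w w1) : Relation.EqvGen (S.SR w) x z := by
  have hE : ∀ {a b : V}, S.K.E a b → w ∈ S.J a → w ∈ S.J b → Relation.EqvGen (S.SR w) a b :=
    fun e h1 h2 => Relation.EqvGen.rel _ _ (Or.inl ⟨e, h1, h2⟩)
  by_cases hq : w ∈ S.J q
  · exact (hE hp.E1 hx hq).trans _ _ _ (hE hp.E2 hq hz)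
  have ha := S.dir_adj hq
  have hb := S.dir_bey hq
  have c1 : S.Cs w (S.dir w q) x := ⟨hx, S.dir_cross hp.E1 hx hq⟩
  have c2 : S.Cs w (S.dir w q) z := ⟨hz, S.dir_cross hp.E2.symm hz hq⟩
  have n1 : ¬ S.Cs w (S.dir w q) y := S.adj_nc ha hp.E3 c2
  have n2 : ¬ S.Cs w (S.dir w q) y' := S.adj_nc ha hp.E5.symm c1
  have n1' : ¬ S.Cs (S.dir w q) w y := fun k => n1 k.swap
  have n2' : ¬ S.Cs (S.dir w q) w y' := fun k => n2 k.swap
  have hws : w ∈ bey S.D.G (S.dir w q) w := bey_self ha.symm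
  have fin : S.J y ⊆ bey S.D.G (S.dir w q) w → S.J y' ⊆ bey S.D.G (S.dir w q) w →
      Relation.EqvGen (S.SR w) x z := fun s1 s2 =>
    Relation.EqvGen.rel _ _ (Or.inr ⟨S.dir w q, ha, c1, c2, q,
      Or.inl ⟨hb, Or.inl ⟨y, y', hp, s1, s2⟩⟩⟩)
  by_cases hy : w ∈ S.J y
  · by_cases hy' : w ∈ S.J y'
    · exact ((hE hp.E3 hz hy).trans _ _ _ ((hE hp.E4 hy hy').trans _ _ _
        (hE hp.E5 hy' hx))).symm
    · have s1 := S.side_of ha.symm n1' hy hws
      exact fin s1 (S.side_adj ha.symm hp.E4 n2' s1)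
  · by_cases hy' : w ∈ S.J y'
    · have s2 := S.side_of ha.symm n2' hy' hws
      exact fin (S.side_adj ha.symm hp.E4.symm n1' s2) s2
    · rcases S.side_or ha n1 with s | s
      · exact absurd s (hne _ ha hb)
      · exact fin s (S.side_adj ha.symm hp.E4 n2' s)

/-- two opposite vertices of a square over `w` -/
theorem sq_conn {x q z y : V} (hp : Q4 S.P x q z y) {w : S.X} (hx : w ∈ S.J x)
    (hz : w ∈ S.J z) (hne : ∀ w1, S.D.G.Adj w w1 → S.J q ⊆ bey S.D.G w w1 →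
      ¬ S.J y ⊆ bey S.D.G w w1) : Relation.EqvGen (S.SR w) x z := by
  have hE : ∀ {a b : V}, S.K.E a b → w ∈ S.J a → w ∈ S.J b → Relation.EqvGen (S.SR w) a b :=
    fun e h1 h2 => Relation.EqvGen.rel _ _ (Or.inl ⟨e, h1, h2⟩)
  by_cases hq : w ∈ S.J q
  · exact (hE hp.E1 hx hq).trans _ _ _ (hE hp.E2 hq hz)
  by_cases hy : w ∈ S.J y
  · exact ((hE hp.E3 hz hy).trans _ _ _ (hE hp.E4 hy hx)).symm
  have ha := S.dir_adj hq
  have hb := S.dir_bey hq
  have c1 : S.Cs w (S.dir w q) x := ⟨hx, S.dir_cross hp.E1 hx hq⟩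
  have c2 : S.Cs w (S.dir w q) z := ⟨hz, S.dir_cross hp.E2.symm hz hq⟩
  have n1 : ¬ S.Cs w (S.dir w q) y := S.adj_nc ha hp.E3 c2
  rcases S.side_or ha n1 with s | s
  · exact absurd s (hne _ ha hb)
  · exact Relation.EqvGen.rel _ _ (Or.inr ⟨S.dir w q, ha, c1, c2, q,
      Or.inl ⟨hb, Or.inr ⟨y, hp, s⟩⟩⟩)

variable (S)

/-- the collapsed system -/
abbrev col (hs : S.SinkOK) {D1 : Decomp H} {c : S.X → D1.X} (T : TMap S.D.G D1.G c)
    (hc : ∀ (h : H) a, c (h • a) = h • c a) : SyQ H V where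
  K := S.K
  P := S.P
  D := D1
  J := fun x => c '' S.J x
  js := jsp_col S.K.stab S.js hs T hc

variable {S}

section

variable (hs : S.SinkOK) {D1 : Decomp H} {c : S.X → D1.X} (T : TMap S.D.G D1.G c)
    (hc : ∀ (h : H) a, c (h • a) = h • c a)

theorem col_cs {a b : S.X} (hab : S.D.G.Adj a b) (hne : c a ≠ c b) {x : V} :
    (S.col hs T hc).Cs (c a) (c b) x ↔ S.Cs a b x := by
  constructor
  · intro h
    exact T.mem_lift' (S.js.conv x) hab hne h.1 h.2
  · intro h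
    exact ⟨⟨a, h.1, rfl⟩, ⟨b, h.2, rfl⟩⟩

theorem col_cc {a b : S.X} (hab : S.D.G.Adj a b) (hne : c a ≠ c b) {x q z : V} :
    (S.col hs T hc).CC (c a) (c b) x q z ↔ S.CC a b x q z := by
  have hne' : c b ≠ c a := fun e => hne e.symm
  constructor
  · rintro ⟨a1, ⟨y, y', hp, a2, a3⟩ | ⟨y, hp, a2⟩⟩
    · exact ⟨(T.image_bey hab hne).1 a1, Or.inl ⟨y, y', hp, (T.image_bey hab.symm hne').1 a2,
        (T.image_bey hab.symm hne').1 a3⟩⟩
    · exact ⟨(T.image_bey hab hne).1 a1, Or.inr ⟨y, hp, (T.image_bey hab.symm hne').1 a2⟩⟩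
  · rintro ⟨a1, ⟨y, y', hp, a2, a3⟩ | ⟨y, hp, a2⟩⟩
    · exact ⟨(T.image_bey hab hne).2 a1, Or.inl ⟨y, y', hp, (T.image_bey hab.symm hne').2 a2,
        (T.image_bey hab.symm hne').2 a3⟩⟩
    · exact ⟨(T.image_bey hab hne).2 a1, Or.inr ⟨y, hp, (T.image_bey hab.symm hne').2 a2⟩⟩

theorem col_pw {a b : S.X} (hab : S.D.G.Adj a b) (hne : c a ≠ c b) {x z : V} :
    (S.col hs T hc).PW (c a) (c b) x z ↔ S.PW a b x z := by
  have hne' : c b ≠ c a := fun e => hne e.symm
  constructor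
  · rintro ⟨-, h2, h3, q, h4⟩
    exact ⟨hab, (col_cs hs T hc hab hne).1 h2, (col_cs hs T hc hab hne).1 h3, q,
      h4.imp (col_cc hs T hc hab hne).1 (col_cc hs T hc hab.symm hne').1⟩
  · rintro ⟨-, h2, h3, q, h4⟩
    exact ⟨T.adj' hab hne, (col_cs hs T hc hab hne).2 h2, (col_cs hs T hc hab hne).2 h3, q,
      h4.imp (col_cc hs T hc hab hne).2 (col_cc hs T hc hab.symm hne').2⟩

/-- steps in slices of the fibre -/
theorem col_sr {a : S.X} {x z : V} (h : S.SR a x z) :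
    Relation.EqvGen ((S.col hs T hc).SR (c a)) x z := by
  rcases h with ⟨e, h1, h2⟩ | ⟨a', h⟩
  · exact Relation.EqvGen.rel _ _ (Or.inl ⟨e, ⟨a, h1, rfl⟩, ⟨a, h2, rfl⟩⟩)
  · by_cases hne : c a = c a'
    · obtain ⟨hadj, h2, h3, q, h4⟩ := h
      -- no edge of the image has both sides beyond
      have nb : ∀ u u', S.D.G.Adj u u' → c u = c a → c u' = c a → ∀ y, S.J q ⊆ bey S.D.G u u' →
          S.J y ⊆ bey S.D.G u' u → ∀ w1, D1.G.Adj (c a) w1 → c '' S.J q ⊆ bey D1.G (c a) w1 →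
          ¬ c '' S.J y ⊆ bey D1.G (c a) w1 := by
        intro u u' huu e1 e2 y s1 s2 w1 hw1 k1 k2
        obtain ⟨α, β, f1, rfl, hab⟩ := T.lift (c a) w1 hw1
        have hn : c α ≠ c β := by
          rw [f1]
          exact hw1.ne
        have k1' : S.J q ⊆ bey S.D.G α β := (T.image_bey hab hn).1 (by rw [f1]; exact k1)
        have k2' : S.J y ⊆ bey S.D.G α β := (T.image_bey hab hn).1 (by rw [f1]; exact k2)
        obtain ⟨p, hp'⟩ := S.js.ne q
        obtain ⟨r, hr⟩ := S.js.ne y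
        have h5 := (conv_cr S.D.tree (bey_conv S.D.tree hab) huu (k2' hr) (k1' hp')
          (s2 hr) (s1 hp')).1
        have h6 := (T.bey_iff hab hn u).1 h5
        rw [e1, ← f1] at h6
        exact bey_irr_l h6
      rcases h4 with ⟨a1, ⟨y, y', hp, a2, -⟩ | ⟨y, hp, a2⟩⟩ | ⟨a1, ⟨y, y', hp, a2, -⟩ | ⟨y, hp, a2⟩⟩
      · exact pent_conn (S := S.col hs T hc) (y := y) (y' := y') hp ⟨a, h2.1, rfl⟩
          ⟨a, h3.1, rfl⟩ (nb a a' hadj rfl hne.symm y a1 a2)
      · exact sq_conn (S := S.col hs T hc) (y := y) hp ⟨a, h2.1, rfl⟩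
          ⟨a, h3.1, rfl⟩ (nb a a' hadj rfl hne.symm y a1 a2)
      · exact pent_conn (S := S.col hs T hc) (y := y) (y' := y') hp ⟨a, h2.1, rfl⟩
          ⟨a, h3.1, rfl⟩ (nb a' a hadj.symm hne.symm rfl y a1 a2)
      · exact sq_conn (S := S.col hs T hc) (y := y) hp ⟨a, h2.1, rfl⟩
          ⟨a, h3.1, rfl⟩ (nb a' a hadj.symm hne.symm rfl y a1 a2)
    · exact Relation.EqvGen.rel _ _ (Or.inr ⟨c a', (col_pw hs T hc h.1 hne).2 h⟩)

/-- WALLS AND SLICES STAY CONNECTED -/
theorem Conn.col (hcn : S.Conn) : (S.col hs T hc).Conn where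
  wall := by
    intro w w' hww x z hx hz
    obtain ⟨α, β, rfl, rfl, hab⟩ := T.lift w w' hww
    have hne : c α ≠ c β := hww.ne
    have k := hcn.wall α β hab x z ((col_cs hs T hc hab hne).1 hx)
      ((col_cs hs T hc hab hne).1 hz)
    exact Sys.eqv_bind (fun a b h => Relation.EqvGen.rel _ _ ((col_pw hs T hc hab hne).2 h)) k
  crossed := by
    intro w w' hww
    obtain ⟨α, β, rfl, rfl, hab⟩ := T.lift w w' hww
    obtain ⟨x, hx⟩ := hcn.crossed α β hab
    exact ⟨x, (col_cs hs T hc hab hww.ne).2 hx⟩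
  slice := by
    rintro w x z ⟨a, ha, rfl⟩ ⟨b, hb, hab⟩
    have key : ∀ (n : ℕ) (a b : S.X) (x z : V), S.D.G.dist a b = n → c b = c a → a ∈ S.J x →
        b ∈ S.J z → Relation.EqvGen ((S.col hs T hc).SR (c a)) x z := by
      intro n
      induction n with
      | zero =>
        intro a b x z hd _ ha hb
        have e : a = b := S.D.tree.connected.dist_eq_zero_iff.1 hd
        rw [← e] at hb
        exact Sys.eqv_bind (fun a b h => col_sr hs T hc h) (hcn.slice a x z ha hb)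
      | succ n ih =>
        intro a b x z hd hcb ha hb
        have hne : a ≠ b := by
          rintro rfl
          rw [SimpleGraph.dist_self] at hd
          omega
        obtain ⟨a1, h1, h2⟩ := exists_next S.D.tree hne
        obtain ⟨v, hv⟩ := hcn.crossed a a1 h1
        have hf : c a1 = c a := by
          have : a1 ∈ c ⁻¹' {c a} := by
            apply T.conv_fibre (c a) a rfl b hcb
            rw [SimpleGraph.dist_eq_one_iff_adj.2 h1]
            omega
          exact this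
        have k1 := Sys.eqv_bind (fun a b h => col_sr hs T hc h) (hcn.slice a x v ha hv.1)
        have k2 := ih a1 b v z (by omega) (hcb.trans hf.symm) hv.2 hb
        rw [hf] at k2
        exact k1.trans _ _ _ k2
    exact key _ a b x z rfl hab ha hb

end

end SyQ

end Pool.Agent.DI
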