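import Pool.Agent.DI.OERelB
import Pool.Agent.DI.OQCol

/-!
# DI/OQRel: relative systems for complexes with squares

`exists_rel_pq`: relative systems over a collapse, for any pre-complex (cf. `exists_rel_sys`).
`js_up`, `js_up_iff`: membership at a vertex with one point in the fibre.
-/

namespace Pool.Agent.DI

open MulAction
open Pool.Agent.SAF (InC orbs FinOrb oc Decomp SAn SA Conv exists_cut exists_next FinOrb_iff TAct)
open Pool.Agent.BT (PX PQ JS bey exits MinSub Ell mst Hyp Lq mst_conv axis bey_irr_l
  x_next_unique conv_tri_q QDat IsJQ jq_status exists_jq)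
open Pool.Agent.BT.TA

variable {H V : Type} [Group H] [MulAction H V]

theorem mem_js_iff {K : PQ H V} {D : Decomp H} {J : V → Set D.X} (js : JS K D J) (h : H) (x : V)
    (w : D.X) : h • w ∈ J (h • x) ↔ w ∈ J x := by
  constructor
  · intro hh
    have := js.smul h⁻¹ _ _ hh
    rwa [inv_smul_smul, inv_smul_smul] at this
  · exact js.smul h x w

/-- EXISTENCE OF RELATIVE SYSTEMS -/
theorem exists_rel_pq {K : PQ H V} (hst : ∀ v : V, InC ↥(stabilizer H v)) {D : Decomp H}
    {J : V → Set D.X} (js : JS K D J)
    (hone : ∀ z, (∀ a, ¬ K.ar z a) → Ell H D.X z → ∃ p, J z = {p})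
    (haxis : ∀ z, (∀ a, ¬ K.ar z a) → ¬ Ell H D.X z → J z = mst D.G (stabilizer H z))
    {D' : Decomp H} {c : D'.X → D.X}
    (T : TMap D'.G D.G c) (hc : ∀ (h : H) a, c (h • a) = h • c a)
    (hsoft : ∀ x a, K.ar x a → Ell H D'.X x) :
    ∃ (J' : V → Set D'.X), JS K D' J' ∧ (∀ x, c '' J' x = J x) ∧
      (∀ x, Ell H D'.X x → (J' x).Finite) ∧
      (∀ z, (∀ a, ¬ K.ar z a) → ¬ Ell H D'.X z → J' z = mst D'.G (stabilizer H z)) ∧
      (∀ z, (∀ a, ¬ K.ar z a) → Ell H D'.X z → ∃ p', J' z = {p'}) := by
  classical
  have hne : Nonempty D'.X := D'.tree.connected.nonempty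
  -- the stabiliser of `x` fixes the point `J x = {p}`
  have hfix : ∀ (x : V) (p : D.X), J x = {p} → ∀ h ∈ stabilizer H x, h • p = p := by
    intro x p hp h hh
    have h1 : p ∈ J x := by rw [hp]; rfl
    have h2 := js.smul h x p h1
    rw [show h • x = x from hh, hp] at h2
    exact h2
  obtain ⟨q', hq1, hq2⟩ := oe_equi (H := H) (V := V) (X := D'.X)
    (E := fun x => Ell H D'.X x) (P := fun x w => ∀ p, J x = {p} → c w = p)
    (fun h x hx => ell_smul hx h) (by
      intro h x w hP p hp
      have h1 : J x = {h⁻¹ • p} := by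
        ext y
        rw [Set.mem_singleton_iff]
        have h2 := mem_js_iff js h x y
        rw [hp, Set.mem_singleton_iff] at h2
        rw [← h2]
        exact ⟨fun e => by rw [← e, inv_smul_smul], fun e => by rw [e, smul_inv_smul]⟩
      rw [hc, hP _ h1, smul_inv_smul]) (by
      intro x hx
      obtain ⟨y0, hy0⟩ := hx
      by_cases hp : ∃ p, J x = {p}
      · obtain ⟨p, hp⟩ := hp
        have hC : Conv D'.G (c ⁻¹' {p}) := T.conv_fibre p
        have hCne : (c ⁻¹' {p}).Nonempty := by
          obtain ⟨a, ha⟩ := T.surj p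
          exact ⟨a, ha⟩
        obtain ⟨p', ⟨h1, h2⟩, h3⟩ := Pool.Agent.BT.exists_proj D'.tree hC hCne y0
        refine ⟨p', ?_, ?_⟩
        · intro p1 hp1
          have : p1 = p := by
            have h4 : p1 ∈ ({p} : Set D.X) := by
              rw [← hp, hp1]
              rfl
            exact h4
          rw [this]
          exact h1
        · intro h hh
          apply h3
          have hinv : ∀ g ∈ stabilizer H x, ∀ a ∈ c ⁻¹' {p}, g • a ∈ c ⁻¹' {p} := by
            intro g hgx a ha
            show c (g • a) = p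
            rw [hc, show c a = p from ha]
            exact hfix x p hp g hgx
          refine ⟨hinv h hh _ h1, ?_⟩
          intro a ha
          have h4 := h2 _ (hinv h⁻¹ (inv_mem hh) a ha)
          have e1 : D'.G.dist y0 (h⁻¹ • a) = D'.G.dist y0 a := by
            rw [← D'.tact.dist_smul h, smul_inv_smul, hy0 h hh]
          have e2 : D'.G.dist p' (h⁻¹ • a) = D'.G.dist (h • p') a := by
            rw [← D'.tact.dist_smul h, smul_inv_smul]
          have e3 : D'.G.dist y0 p' = D'.G.dist y0 (h • p') := by
            conv_rhs => rw [← hy0 h hh]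
            rw [D'.tact.dist_smul]
          rw [e1, e2, e3] at h4
          exact h4
      · exact ⟨y0, fun p hp1 => absurd ⟨p, hp1⟩ hp, hy0⟩)
  have hQ : QDat K D' (Lq H q') q' := qdat_lq hst hsoft q' hq1
  obtain ⟨J', hJ', js', hfin⟩ := exists_jq K D' _ q' hQ
  have hLe : ∀ x, Ell H D'.X x → Lq H q' x = {q' x} := fun x h => if_pos h
  have hLh : ∀ x, ¬ Ell H D'.X x → Lq H q' x = mst D'.G (stabilizer H x) := fun x h => if_neg h
  refine ⟨J', js', ?_, ?_, ?_, ?_⟩
  · apply rel_image T js hQ hJ'
    · intro z hz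
      by_cases he' : Ell H D'.X z
      · have he := ell_of_map hc he'
        obtain ⟨p, h⟩ := hone z hz he
        rw [hLe z he', Set.image_singleton, hq2 z he' p h, h]
      · rw [hLh z he']
        have hax := axis D'.tact _ (hst z) (hyp_of_not_ell he')
        by_cases he : Ell H D.X z
        · obtain ⟨p, h⟩ := hone z hz he
          obtain ⟨w, hw⟩ := hax.2.1
          rw [h]
          apply Set.Subset.antisymm
          · rintro _ ⟨w', hw', rfl⟩
            exact T.mst_fibre hc (hfix z p h) hw'
          · intro x hx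
            rw [Set.mem_singleton_iff.1 hx]
            exact ⟨w, hw, T.mst_fibre hc (hfix z p h) hw⟩
        · rw [haxis z hz he]
          exact T.mst_image hc hax.2.1 (axis D.tact _ (hst z) (hyp_of_not_ell he)).2.1
    · rintro x ⟨a, ha⟩ p hp
      exact hq2 x (hsoft x a ha) p hp
  · intro x hx
    by_cases ha : ∃ a, K.ar x a
    · exact hfin x ha
    · push Not at ha
      rw [hJ'.sink x ha, hLe x hx]
      exact Set.finite_singleton _
  · intro z hz he
    rw [hJ'.sink z hz, hLh z he]
  · intro z hz he
    exact ⟨q' z, by rw [hJ'.sink z hz, hLe z he]⟩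


/-- membership over a vertex whose fibre is one point -/
theorem js_up_iff {X' X : Type} {c : X' → X} {J : V → Set X} {J' : V → Set X'}
    (hJ : ∀ x, c '' J' x = J x) {p : X'} (hp : ∀ a, c a = c p → a = p) (x : V) :
    p ∈ J' x ↔ c p ∈ J x := by
  constructor
  · intro h
    rw [← hJ]
    exact ⟨p, h, rfl⟩
  · intro h
    rw [← hJ] at h
    obtain ⟨a, ha, e⟩ := h
    rw [← hp a e]
    exact ha

/-- points over a vertex whose fibre is one point -/
theorem js_up_pt {X' X : Type} {c : X' → X} {J : V → Set X} {J' : V → Set X'}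
    (hJ : ∀ x, c '' J' x = J x) {p : X'} (hp : ∀ a, c a = c p → a = p) {x : V}
    (hx : J x = {c p}) : J' x = {p} := by
  apply Set.Subset.antisymm
  · intro a ha
    have : c a ∈ J x := by
      rw [← hJ]
      exact ⟨a, ha, rfl⟩
    rw [hx, Set.mem_singleton_iff] at this
    exact Set.mem_singleton_iff.2 (hp a this)
  · rintro _ rfl
    rw [js_up_iff hJ hp, hx]
    exact rfl

end Pool.Agent.DI
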