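import Pool.Agent.DI.FlipR
import Pool.Agent.DI.OERelB
import Pool.Agent.DI.OQRel

/-!
# DI/OQFact: the stabiliser of a sink is not the group of a good vertex

`Cd.fix_nb`: if the stabiliser of `u` (in `C`) is contained in the stabiliser of a sink of `C.K` which
is elliptic, then it fixes a neighbour of `u`.
-/

namespace Pool.Agent.DI

open MulAction
open Pool.Agent.SAF (InC orbs FinOrb oc Decomp SAn SA Conv exists_cut exists_next FinOrb_iff TAct)
open Pool.Agent.BT (PX PQ JS bey exits MinSub Ell mst Hyp Lq mst_conv axis bey_irr_l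
  x_next_unique)
open Pool.Agent.BT.TA

theorem InC.of_injective' {G G' : Type} [Group G] [Group G'] (f : G →* G')
    (hf : Function.Injective f) (h : InC G') : InC G :=
  Pool.Agent.SAF.InC.iso (MonoidHom.ofInjective hf).symm (Pool.Agent.SAG.InC.sub h f.range)

theorem inC_smul {H X : Type} [Group H] [MulAction H X] (h : H) {w : X}
    (hw : InC ↥(stabilizer H w)) : InC ↥(stabilizer H (h • w)) := by
  have hmem : ∀ g : ↥(stabilizer H (h • w)), h⁻¹ * g.1 * h ∈ stabilizer H w := by
    intro g
    have h1 : g.1 • h • w = h • w := g.2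
    show (h⁻¹ * g.1 * h) • w = w
    rw [mul_smul, mul_smul, h1, inv_smul_smul]
  let f : ↥(stabilizer H (h • w)) →* ↥(stabilizer H w) :=
    { toFun := fun g => ⟨h⁻¹ * g.1 * h, hmem g⟩
      map_one' := Subtype.ext (by
        show h⁻¹ * 1 * h = 1
        group)
      map_mul' := fun a b => Subtype.ext (by
        show h⁻¹ * (a.1 * b.1) * h = h⁻¹ * a.1 * h * (h⁻¹ * b.1 * h)
        group) }
  refine Pool.Agent.DI.InC.of_injective' f ?_ hw
  intro a b e
  have e1 : h⁻¹ * a.1 * h = h⁻¹ * b.1 * h := congrArg Subtype.val e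
  exact Subtype.ext (mul_left_cancel (mul_right_cancel e1))

/-- if a group fixes two different vertices then it fixes the next vertex -/
theorem fix_next {H : Type} [Group H] (D : Decomp H) {A : Subgroup H} {x y : D.X}
    (hx : ∀ h ∈ A, h • x = x) (hy : ∀ h ∈ A, h • y = y) (hne : x ≠ y) :
    ∃ z, D.G.Adj x z ∧ ∀ h ∈ A, h • z = z := by
  obtain ⟨z, hz, hd⟩ := exists_next D.tree hne
  refine ⟨z, hz, fun h hh => ?_⟩
  have h1 : D.G.Adj x (h • z) := by
    have := D.adj_smul h _ _ hz
    rwa [hx h hh] at this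
  have h2 : D.G.dist (h • z) y = D.G.dist z y := by
    conv_lhs => rw [← hy h hh]
    exact D.tact.dist_smul h z y
  have k1 : y ∈ bey D.G x z := by
    show D.G.dist y x = D.G.dist y z + 1
    rw [SimpleGraph.dist_comm, hd, SimpleGraph.dist_comm]
  have k2 : y ∈ bey D.G x (h • z) := by
    show D.G.dist y x = D.G.dist y (h • z) + 1
    rw [SimpleGraph.dist_comm, hd, SimpleGraph.dist_comm (u := y), h2]
  exact x_next_unique D.tree h1 hz k2 k1

/-- a sink whose stabiliser contains the group of `u` -/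
theorem Cd.fix_nb (C : Cd) (D : Decomp C.H) {y : C.V} (hy : ∀ a, ¬ C.K.ar y a)
    (he : Ell C.H D.X y) {u : D.X} (hu : InC ↥(stabilizer C.H u))
    (huy : stabilizer C.H u ≤ stabilizer C.H y) :
    ∃ x : D.X, D.G.Adj u x ∧ ∀ h ∈ stabilizer C.H u, h • x = x := by
  classical
  have hne : Nonempty D.X := D.tree.connected.nonempty
  obtain ⟨q0, hq0, -⟩ := oe_equi (H := C.H) (V := C.V) (X := D.X)
    (E := fun x => Ell C.H D.X x) (P := fun _ _ => True)
    (fun h x hx => ell_smul hx h) (fun _ _ _ _ => trivial) (by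
      rintro x ⟨c, hc⟩
      exact ⟨c, trivial, hc⟩)
  obtain ⟨D1, v, q, J, hQ, hJ, js, -, -, hedge, hv, hvi, -, hseen⟩ :=
    FR.exists_seen_rel (K := C.P.px) (fun _ => True) (fun _ _ _ => trivial)
      (fun x _ y e => C.allP x y e) (fun x _ y z h1 h2 => C.linkC x y z h1 h2) D q0 hq0
      (fun js i c h => C.centre_not_inC js i c h) (fun D x a ha => C.soft_ell D ha)
  have he1 : Ell C.H D1.X y := by
    obtain ⟨c, hc⟩ := he
    exact ⟨v c, fun h hh => by rw [← hv, hc h hh]⟩
  obtain ⟨h, i, k, -, hk⟩ := hseen y hy trivial he1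
  have hnC : ¬ InC ↥(stabilizer C.H (q y)) := by
    have h1 := C.centre_not_inC js i (h⁻¹ • q y) (by
      intro k'
      have key : ∀ x : C.V, q y ∈ J (h • x) → h⁻¹ • q y ∈ J x := by
        intro x hx
        have := js.smul h⁻¹ _ _ hx
        rwa [inv_smul_smul] at this
      exact (hk k').imp (key _) (key _))
    intro h2
    exact h1 (inC_smul h⁻¹ h2)
  have hfix : ∀ g ∈ stabilizer C.H y, g • q y = q y := by
    intro g hg
    have hJy : J y = {q y} := by
      rw [hJ.sink y hy]
      exact if_pos he1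
    have h1 := js.smul g y (q y) (by rw [hJy]; rfl)
    rw [show g • y = y from hg, hJy] at h1
    exact h1
  have hst : stabilizer C.H (v u) = stabilizer C.H u := by
    ext g
    constructor
    · intro hg
      apply hvi
      rw [hv]
      exact hg
    · intro hg
      show g • v u = v u
      rw [← hv, show g • u = u from hg]
  have hne1 : v u ≠ q y := by
    intro e
    apply hnC
    rw [← e, hst]
    exact hu
  obtain ⟨x1, hx1, hx1'⟩ := fix_next D1 (A := stabilizer C.H u) (x := v u) (y := q y)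
    (fun g hg => by rw [← hv, show g • u = u from hg]) (fun g hg => hfix g (huy hg)) hne1
  obtain ⟨c, d, hcd, hle⟩ := hedge _ _ hx1
  have hfc : ∀ g ∈ stabilizer C.H u, g • c = c ∧ g • d = d := by
    intro g hg
    have h1 : g ∈ stabilizer C.H (v u) ⊓ stabilizer C.H x1 := ⟨by rw [hst]; exact hg, hx1' g hg⟩
    exact ⟨(hle h1).1, (hle h1).2⟩
  by_cases hc : u = c
  · rw [hc]
    exact ⟨d, hcd, fun g hg => (hfc g (by rw [hc]; exact hg)).2⟩
  · exact fix_next D (fun g hg => hg) (fun g hg => (hfc g hg).1) hc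

end Pool.Agent.DI
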