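import Pool.Agent.DI.QK0d
import Pool.Agent.DI.Quot

/-!
# DI/QKMin: minimal area at a vertex group, for pentagons and squares

Port of `DI/KMin`. `S.WMin w`: no complex of the vertex group `H_w` has smaller area than `K`. Then
every pentagon is centred in the orbit of `w`, the unfolded slice has the area of `K` and is minimal;
at the other vertices no pentagon is centred and the area of the slice is zero.
-/

namespace Pool.Agent.DI

open MulAction
open Pool.Agent.SAF (InC orbs FinOrb oc Decomp SAn SA Conv hull dist_edge FinOrb_iff exists_next)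
open Pool.Agent.BT (PX PQ JS bey exits)

namespace SyQ

variable {H V : Type} [Group H] [MulAction H V] (S : SyQ H V)

/-- no complex of the vertex group has smaller area than `K` -/
def WMin (w : S.X) : Prop := ∀ (V' : Type) [MulAction ↥(stabilizer H w) V']
  (K' : GX ↥(stabilizer H w) V'), S.K.area ≤ K'.area

variable {S}

theorem card_le {w : S.X} (hc : S.Conn) (hw : S.WMin w) :
    Nat.card {i : S.K.I // ¬ S.P.sq i} ≤ Nat.card (S.C5 w) := by
  have h := hw _ (S.k0 hc w)
  rwa [S.k0_area, S.P.area_eq] at h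

/-- all pentagons are centred in the orbit of `w` -/
theorem c5_all {w : S.X} (hc : S.Conn) (hw : S.WMin w) {i : S.K.I} (hi : ¬ S.P.sq i) :
    ∃ h : H, S.IsC (S.tr h i) w := by
  classical
  have := S.K.finI
  have := S.finC5 w
  let ft := Fintype.ofFinite {i : S.K.I // ¬ S.P.sq i}
  let ft' := Fintype.ofFinite (S.C5 w)
  let f : S.C5 w → {i : S.K.I // ¬ S.P.sq i} := fun i => ⟨i.1, i.2.1⟩
  have hinj : Function.Injective f := fun a b h =>
    Subtype.ext (congrArg (fun z : {i : S.K.I // ¬ S.P.sq i} => z.1) h)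
  have h1 := card_le hc hw
  rw [Nat.card_eq_fintype_card, Nat.card_eq_fintype_card] at h1
  have h2 : Function.Bijective f :=
    (Fintype.bijective_iff_injective_and_card _).2
      ⟨hinj, le_antisymm (Fintype.card_le_of_injective _ hinj) h1⟩
  obtain ⟨j, hj⟩ := h2.2 ⟨i, hi⟩
  have e : j.1 = i := congrArg Subtype.val hj
  rw [← e]
  exact j.2.2

/-- every translate of a pentagon is centred in the orbit of `w` -/
theorem isC_of {w : S.X} (hc : S.Conn) (hw : S.WMin w) (h : H) {i : S.K.I} (hi : ¬ S.P.sq i) :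
    ∃ g : H, S.IsC (S.tr h i) (g • w) := by
  obtain ⟨k, hk⟩ := c5_all hc hw hi
  refine ⟨h * k⁻¹, ?_⟩
  have := (S.isC_smul (h * k⁻¹) k i w).2 hk
  rwa [inv_mul_cancel_right] at this

/-- centres are in the orbit of `w` -/
theorem isC_orbit {w : S.X} (hc : S.Conn) (hw : S.WMin w) {h : H} {i : S.K.I}
    (hi : ¬ S.P.sq i) {c : S.X} (k : S.IsC (S.tr h i) c) : ∃ g : H, g • w = c := by
  obtain ⟨g, hg⟩ := isC_of hc hw h hi
  exact ⟨g, S.isC_unique (S.tr_E h hi) hg k⟩

theorem k0_area_eq {w : S.X} (hc : S.Conn) (hw : S.WMin w) : (S.k0 hc w).area = S.K.area :=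
  le_antisymm (S.k0_area_le hc w) (hw _ _)

/-- the unfolded slice is minimal -/
theorem k0_min {w : S.X} (hc : S.Conn) (hw : S.WMin w) : (S.k0 hc w).Min := by
  intro V' _ K'
  rw [k0_area_eq hc hw]
  exact hw V' K'

/-- the vertices with minimal area form one orbit -/
theorem wmin_orbit (hc : S.Conn) {w w' : S.X} (hw : S.WMin w) (hw' : S.WMin w')
    {i : S.K.I} (hi : ¬ S.P.sq i) : ∃ g : H, g • w = w' := by
  obtain ⟨h, hh⟩ := c5_all hc hw' hi
  exact isC_orbit hc hw hi hh

/-- no pentagon is centred at the other vertices -/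
theorem c5_isEmpty (hc : S.Conn) {w w' : S.X} (hw : S.WMin w) (hn : ∀ g : H, g • w ≠ w') :
    IsEmpty (S.C5 w') := by
  refine ⟨fun i => ?_⟩
  obtain ⟨g, hg⟩ := isC_orbit hc hw i.2.1 i.isC
  exact hn g hg

/-- the slices at the other vertices have area zero -/
theorem k0_area_zero (hc : S.Conn) {w w' : S.X} (hw : S.WMin w) (hn : ∀ g : H, g • w ≠ w') :
    (S.k0 hc w').area = 0 := by
  rw [S.k0_area]
  have := c5_isEmpty hc hw hn
  exact Nat.card_of_isEmpty

theorem IsC.smul (g : H) {v : Fin 5 → V} {c : S.X} (h : S.IsC v c) :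
    S.IsC (fun k => g • v k) (g • c) := by
  intro k
  rcases h k with h | h
  · exact Or.inl (S.js.smul g _ _ h)
  · exact Or.inr (S.js.smul g _ _ h)

/-- a pentagon in the form `Qn` is centred in the orbit of `w` -/
theorem qn_ctr {w : S.X} (hc : S.Conn) (hw : S.WMin w) {a q b y z : V}
    (hp : Qn S.P a q b y z) : ∃ g : H, S.IsC ![a, q, b, y, z] (g • w) := by
  have key : ∀ (h : H) (i : S.K.I) (j : Fin 5), ¬ S.P.sq i → ∃ g : H,
      S.IsC ![h • S.P.pt i j, h • S.P.pt i (j + 1), h • S.P.pt i (j + 2), h • S.P.pt i (j + 3),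
        h • S.P.pt i (j + 4)] (g • w) := by
    intro h i j hi
    obtain ⟨g, hg⟩ := isC_of hc hw h hi
    refine ⟨g, ?_⟩
    have h0 := hg j
    have h1 := hg (j + 1)
    have h2 := hg (j + 2)
    have h3 := hg (j + 3)
    have h4 := hg (j + 4)
    have e1 : j + 1 + 1 = j + 2 := by rw [add_assoc]; rfl
    have e2 : j + 2 + 1 = j + 3 := by rw [add_assoc]; rfl
    have e3 : j + 3 + 1 = j + 4 := by rw [add_assoc]; rfl
    have e4 : j + 4 + 1 = j := q41 j
    rw [e1] at h1
    rw [e2] at h2
    rw [e3] at h3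
    rw [e4] at h4
    intro k
    fin_cases k
    · exact h0
    · exact h1
    · exact h2
    · exact h3
    · exact h4
  obtain ⟨h, i, j, hi, ⟨h1, h2, h3, h4, h5⟩ | ⟨h1, h2, h3, h4, h5⟩⟩ := hp
  · rw [h1, h2, h3, h4, h5]
    exact key h i j hi
  · obtain ⟨g, hg⟩ := key h i j hi
    refine ⟨g, ?_⟩
    rw [← h1, ← h2, ← h3, ← h4, ← h5] at hg
    intro k
    fin_cases k
    · exact (hg 1).symm
    · exact (hg 0).symm
    · exact (hg 4).symm
    · exact (hg 3).symm
    · exact (hg 2).symm

end SyQ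

end Pool.Agent.DI
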