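import Pool.Agent.BT.FlipG
import Pool.Agent.BT.JQ
import Pool.Agent.BT.Sub
import Pool.Agent.BT.XCtr
import Pool.Agent.BT.Ax
import Pool.Agent.BT.PCrit
import Pool.Agent.SAF.A11
import Pool.Agent.SAF.AOrb
import Pool.Agent.SAG.AG

/-!
# DI/FlipR: relative form of BT/FlipG

`q` is chosen such that the sum of the distances from `q x` to the centres of the pentagons through
`x`, over the orbits of elliptic sinks `x`, is minimal. Hyperbolic sinks are allowed, their subtrees
are the axes.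
-/

namespace Pool.Agent.DI.FR

open MulAction
open Pool.Agent.BT
open Pool.Agent.SAF (InC orbs FinOrb oc Decomp SAn SA Conv hull TAct dist_edge exists_next)

/-! ### Trees -/

section Tree

variable {X : Type} {G : SimpleGraph X}

private theorem adj_conv (hG : G.IsTree) {a b : X} (h : G.Adj a b) : Conv G ({a, b} : Set X) := by
  have hab : G.dist a b = 1 := SimpleGraph.dist_eq_one_iff_adj.2 h
  have hba : G.dist b a = 1 := SimpleGraph.dist_eq_one_iff_adj.2 h.symm
  have key : ∀ u w : X, G.dist u w = 0 → w = u := fun u w e =>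
    ((hG.connected.dist_eq_zero_iff).1 e).symm
  intro u hu v hv w hw
  have h3 : G.dist u v ≤ 1 := by
    rcases hu with rfl | rfl <;> rcases hv with rfl | rfl <;> simp [hab, hba]
  have h4 : G.dist u w = 0 ∨ G.dist w v = 0 := by omega
  rcases h4 with h4 | h4
  · rw [key _ _ h4]; exact hu
  · have h5 : w = v := (hG.connected.dist_eq_zero_iff).1 h4
    rw [h5]; exact hv

/-- adjacent vertices are on the same side of every other edge -/
private theorem adj_side (hG : G.IsTree) {a b u u' : X} (h : G.Adj a b) (hu : G.Adj u u')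
    (hn : ¬ ((u = a ∧ u' = b) ∨ (u = b ∧ u' = a))) : a ∈ bey G u u' → b ∈ bey G u u' := by
  intro ha
  have ha' : G.dist a u = G.dist a u' + 1 := ha
  by_contra hb
  have hb' : G.dist b u' = G.dist b u + 1 := by
    rcases (dist_edge hG hu b).1 with e | e
    · exact e
    · exact absurd e hb
  have h1 := Conv.edge hG (adj_conv hG h) hu.symm (a := a) (b := b) (Or.inl rfl) (Or.inr rfl)
    ha' hb'
  have hne := hu.ne
  rcases h1 with ⟨h1 | h1, h2 | h2⟩
  · exact hne (h2.trans h1.symm)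
  · exact hn (Or.inr ⟨h2, h1⟩)
  · exact hn (Or.inl ⟨h2, h1⟩)
  · exact hne (h2.trans h1.symm)

private theorem tri (hG : G.IsTree) {C : Set X} (hC : Conv G C) {w w' : X}
    (h : G.Adj w w') : C ⊆ bey G w w' ∨ C ⊆ bey G w' w ∨ (w ∈ C ∧ w' ∈ C) := by
  by_contra hno
  push Not at hno
  obtain ⟨h1, h2, h3⟩ := hno
  rw [Set.not_subset] at h1 h2
  obtain ⟨a, ha, ha'⟩ := h1
  obtain ⟨b, hb, hb'⟩ := h2
  have ea : G.dist a w' = G.dist a w + 1 := by
    rcases (dist_edge hG h a).1 with e | e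
    · exact e
    · exact absurd e ha'
  have eb : G.dist b w = G.dist b w' + 1 := by
    rcases (dist_edge hG h b).1 with e | e
    · exact absurd e hb'
    · exact e
  have := Pool.Agent.SAF.Conv.edge hG hC h ha hb ea eb
  exact h3 this.1 this.2

private theorem fcentre_side (hG : G.IsTree) (J : Fin 5 → Set X) (hJ : ∀ k, Conv G (J k))
    (h1 : ∀ k, ∃ p, J k ∩ J (k + 1) = {p}) {c : X} (hc : ∀ k, c ∈ J k ∪ J (k + 1)) {w w' : X}
    (h : G.Adj w w') : c ∈ bey G w w' ↔ ∃ k, J k ⊆ bey G w w' ∧ J (k + 1) ⊆ bey G w w' := by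
  have hdisj : ∀ x, x ∈ bey G w w' → x ∈ bey G w' w → False := fun x e e' =>
    (dist_edge hG h x).2 ⟨e', e⟩
  constructor
  · intro hcb
    by_contra hno
    push Not at hno
    have key : ∀ k, ((w ∈ J (k + 1) ∧ w' ∈ J (k + 1)) ↔ ¬ (w ∈ J k ∧ w' ∈ J k)) := by
      intro k
      obtain ⟨p, hp⟩ := h1 k
      have hpm : p ∈ J k ∩ J (k + 1) := by rw [hp]; rfl
      constructor
      · rintro ⟨e1, e2⟩ ⟨e3, e4⟩
        have f1 : w ∈ J k ∩ J (k + 1) := ⟨e3, e1⟩
        have f2 : w' ∈ J k ∩ J (k + 1) := ⟨e4, e2⟩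
        rw [hp] at f1 f2
        exact h.ne ((show w = p from f1).trans (show w' = p from f2).symm)
      · intro hk
        by_contra hk1
        rcases tri hG (hJ k) h with a | a | a
        · rcases tri hG (hJ (k + 1)) h with b | b | b
          · exact hno k a b
          · exact hdisj p (a hpm.1) (b hpm.2)
          · exact hk1 b
        · rcases tri hG (hJ (k + 1)) h with b | b | b
          · exact hdisj p (b hpm.2) (a hpm.1)
          · rcases hc k with e | e
            · exact hdisj c hcb (a e)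
            · exact hdisj c hcb (b e)
          · exact hk1 b
        · exact hk a
    have k0 := key 0
    have k1 := key 1
    have k2 := key 2
    have k3 := key 3
    have k4 := key 4
    have e0 : (0 + 1 : Fin 5) = 1 := rfl
    have e1 : (1 + 1 : Fin 5) = 2 := rfl
    have e2 : (2 + 1 : Fin 5) = 3 := rfl
    have e3 : (3 + 1 : Fin 5) = 4 := rfl
    have e4 : (4 + 1 : Fin 5) = 0 := rfl
    rw [e0] at k0
    rw [e1] at k1
    rw [e2] at k2
    rw [e3] at k3
    rw [e4] at k4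
    tauto
  · rintro ⟨k, a, b⟩
    rcases hc k with e | e
    · exact a e
    · exact b e

end Tree

section

variable {H V : Type} [Group H] [MulAction H V]

private theorem Ell.smul {X : Type} [MulAction H X] {x : V} (h : Ell H X x) (g : H) :
    Ell H X (g • x) := by
  obtain ⟨w, hw⟩ := h
  refine ⟨g • w, ?_⟩
  intro a ha
  have ha' : a • g • x = g • x := ha
  have h1 := hw (g⁻¹ * a * g) (by
    change (g⁻¹ * a * g) • x = x
    rw [mul_smul, mul_smul, ha', inv_smul_smul])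
  rw [mul_smul, mul_smul, inv_smul_eq_iff] at h1
  exact h1

private theorem ell_iff {X : Type} [MulAction H X] (x : V) (g : H) :
    Ell H X (g • x) ↔ Ell H X x := by
  constructor
  · intro h
    have := Ell.smul h g⁻¹
    rwa [inv_smul_smul] at this
  · intro h
    exact Ell.smul h g

/-- an equivariant map -/
private theorem exists_equi (X : Type) [MulAction H X] [Nonempty X] :
    ∃ q : V → X, ∀ (h : H) (x : V), Ell H X x → q (h • x) = h • q x := by
  classical
  have h1 : ∀ o : orbitRel.Quotient H V, ∃ w : X, Ell H X (Quotient.out o) →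
      ∀ h ∈ stabilizer H (Quotient.out o), h • w = w := by
    intro o
    by_cases ho : Ell H X (Quotient.out o)
    · obtain ⟨w, hw⟩ := ho
      exact ⟨w, fun _ => hw⟩
    · exact ⟨Classical.arbitrary X, fun h => absurd h ho⟩
  choose w hw using h1
  have h2 : ∀ x : V, ∃ g : H, g • Quotient.out (Quotient.mk'' x : orbitRel.Quotient H V) = x := by
    intro x
    have e : (Quotient.mk'' (Quotient.out (Quotient.mk'' x : orbitRel.Quotient H V)) :
        orbitRel.Quotient H V) = Quotient.mk'' x := Quotient.out_eq _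
    obtain ⟨g, hg⟩ := Pool.Agent.SAF.mk_eq_iff.1 e
    exact ⟨g⁻¹, by rw [← hg, inv_smul_smul]⟩
  choose g hg using h2
  refine ⟨fun x => g x • w (Quotient.mk'' x), ?_⟩
  intro h x hx
  have e1 : (Quotient.mk'' (h • x) : orbitRel.Quotient H V) = Quotient.mk'' x :=
    Pool.Agent.SAF.mk_eq_iff.2 ⟨h, rfl⟩
  have e2 := hg (h • x)
  have e3 := hg x
  show g (h • x) • w (Quotient.mk'' (h • x)) = h • g x • w (Quotient.mk'' x)
  rw [e1] at e2 ⊢
  have hout : Ell H X (Quotient.out (Quotient.mk'' x : orbitRel.Quotient H V)) := by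
    rw [← ell_iff _ (g x), e3]
    exact hx
  have h5 := hw (Quotient.mk'' x) hout ((h * g x)⁻¹ * g (h • x)) (by
    change ((h * g x)⁻¹ * g (h • x)) • Quotient.out (Quotient.mk'' x : orbitRel.Quotient H V) = _
    rw [mul_smul, e2, mul_inv_rev, mul_smul, inv_smul_smul, inv_smul_eq_iff, e3])
  rw [mul_smul, inv_smul_eq_iff, mul_smul] at h5
  exact h5

private theorem mst_smul {X : Type} [MulAction H X] {G : SimpleGraph X} (hG : TAct H G) (h : H)
    (x : V) {w : X} (hw : w ∈ mst G (stabilizer H x)) : h • w ∈ mst G (stabilizer H (h • x)) := by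
  intro C hC hne hA
  have h1 : w ∈ {y | h • y ∈ C} := by
    apply hw
    · intro a ha b hb y hy
      refine hC _ ha _ hb _ ?_
      rw [hG.dist_smul, hG.dist_smul, hG.dist_smul]
      exact hy
    · obtain ⟨y, hy⟩ := hne
      refine ⟨h⁻¹ • y, ?_⟩
      change h • h⁻¹ • y ∈ C
      rwa [smul_inv_smul]
    · intro a ha y hy
      have ha' : a • x = x := ha
      have h2 := hA (h * a * h⁻¹) (by
        change (h * a * h⁻¹) • h • x = h • x
        rw [mul_smul, mul_smul, inv_smul_smul, ha']) _ hy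
      rw [mul_smul, mul_smul, inv_smul_smul] at h2
      exact h2
  exact h1

variable {K : PX H V} {D : Decomp H}

/-- `c` is the centre of a pentagon through `x` -/
private def Cx (K : PX H V) {D : Decomp H} (J : V → Set D.X) (x : V) (c : D.X) : Prop :=
  ∃ (h : H) (i : K.I) (k : Fin 5), x = h • K.pt i k ∧
    ∀ k', c ∈ J (h • K.pt i k') ∪ J (h • K.pt i (k' + 1))

private structure Good (K : PX H V) (D : Decomp H) (q : V → D.X) (J : V → Set D.X) : Prop where
  qd : QDat K.pq D (Lq H q) q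
  jq : IsJQ K.pq D (Lq H q) q J
  js : JS K.pq D J
  fin : ∀ x, Ell H D.X x → (J x).Finite
  qs : ∀ (h : H) (x : V), Ell H D.X x → q (h • x) = h • q x

private theorem exists_good (hsoft : ∀ x a, K.ar x a → Ell H D.X x) (q : V → D.X)
    (hq : ∀ (h : H) (x : V), Ell H D.X x → q (h • x) = h • q x) : ∃ J, Good K D q J := by
  classical
  have hLe : ∀ x, Ell H D.X x → Lq H q x = {q x} := fun x h => if_pos h
  have hLh : ∀ x, ¬ Ell H D.X x → Lq H q x = mst D.G (stabilizer H x) := fun x h => if_neg h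
  have hax : ∀ x, ¬ Ell H D.X x → _ := fun x h =>
    axis D.tact (stabilizer H x) (K.stab x) (by
      unfold Ell at h
      push Not at h
      exact h)
  have h1 : QDat K.pq D (Lq H q) q :=
    { L_conv := by
        intro x _
        by_cases hx : Ell H D.X x
        · rw [hLe x hx]
          intro a ha b hb w hw
          rw [Set.mem_singleton_iff] at ha hb ⊢
          subst ha hb
          rw [SimpleGraph.dist_self] at hw
          have h2 : D.G.dist w (q x) = 0 := by omega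
          exact (D.tree.connected.dist_eq_zero_iff).1 h2
        · rw [hLh x hx]
          exact (hax x hx).1
      L_ne := by
        intro x _
        by_cases hx : Ell H D.X x
        · rw [hLe x hx]
          exact Set.singleton_nonempty _
        · rw [hLh x hx]
          exact (hax x hx).2.1
      L_two := by
        intro x _
        by_cases hx : Ell H D.X x
        · rw [hLe x hx]
          intro w hw a b c e1 _ _ ha _ _
          rw [Set.mem_singleton_iff] at hw ha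
          subst hw
          rw [ha] at e1
          exact absurd e1 (D.G.irrefl)
        · rw [hLh x hx]
          exact (hax x hx).2.2.1
      L_smul := by
        intro h x w hw
        by_cases hx : Ell H D.X x
        · rw [hLe x hx] at hw
          rw [hLe _ (Ell.smul hx h)]
          rw [Set.mem_singleton_iff] at hw ⊢
          rw [hw, hq h x hx]
        · rw [hLh x hx] at hw
          rw [hLh _ (fun h' => hx ((ell_iff x h).1 h'))]
          exact mst_smul D.tact h x hw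
      L_fin := by
        intro x _
        by_cases hx : Ell H D.X x
        · rw [hLe x hx]
          exact Set.Finite.image _ (Set.finite_singleton _)
        · rw [hLh x hx]
          exact (hax x hx).2.2.2
      q_smul := by
        rintro h x ⟨a, ha⟩
        exact hq h x (hsoft x a ha) }
  obtain ⟨J, h2, h3, h4⟩ := exists_jq K.pq D _ q h1
  refine ⟨J, h1, h2, h3, ?_, hq⟩
  intro x hx
  by_cases ha : ∃ a, K.ar x a
  · exact h4 x ha
  · push Not at ha
    rw [h2.sink x ha, hLe x hx]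
    exact Set.finite_singleton _

variable {q : V → D.X} {J : V → Set D.X}

private theorem Good.sink (hg : Good K D q J) {x : V} (ha : ∀ a, ¬ K.ar x a)
    (he : Ell H D.X x) : J x = {q x} := by
  rw [hg.jq.sink x ha]
  exact if_pos he

private theorem Good.exists_c (hg : Good K D q J) (h : H) (i : K.I) :
    ∃! c, ∀ k', c ∈ J (h • K.pt i k') ∪ J (h • K.pt i (k' + 1)) :=
  x_centre D.tree (fun k => J (h • K.pt i k)) (fun _ => hg.js.conv _)
    (fun k => hg.js.one _ _ (K.E_smul h (K.pt_E i k)))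

/-- the direction at `q x` in which all centres lie -/
private theorem Good.dir (hg : Good K D q J) {x : V} (hA : ∀ y, K.E x y → K.InP x y)
    (hL : ∀ y z, K.E x y → K.E x z → Relation.ReflTransGen (fun a b => K.Cor a x b) y z)
    (he : Ell H D.X x) (ha : ∀ a, ¬ K.ar x a) (hne : ∃ y, K.E x y) (hn : ¬ Cx K J x (q x)) :
    ∃ w', D.G.Adj (q x) w' ∧ (∀ h ∈ stabilizer H x, h • w' = w') ∧
      (∃ c, Cx K J x c) ∧ ∀ c, Cx K J x c → D.G.dist (q x) c = D.G.dist w' c + 1 := by
  have hJx := hg.sink ha he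
  -- neighbours
  have hnb : ∀ y, K.InP x y → K.ar y x ∧ q x ∈ J y := by
    intro y hy
    have h3 := hy.E
    refine ⟨h3.resolve_left (ha y), ?_⟩
    obtain ⟨p, hp⟩ := hg.js.one x y hy.E
    have h4 : p ∈ J x ∩ J y := by rw [hp]; rfl
    have h5 : p = q x := by
      have := h4.1
      rw [hJx] at this
      exact this
    rw [← h5]
    exact h4.2
  -- at most one direction
  have huniq : ∀ y, K.InP x y → ∀ w' w'', D.G.Adj (q x) w' → D.G.Adj (q x) w'' → w' ∈ J y →
      w'' ∈ J y → w' = w'' := by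
    intro y hy w' w'' e1 e2 m1 m2
    obtain ⟨h2, h3⟩ := hnb y hy
    have hxx : q x ∈ J x := by rw [hJx]; rfl
    have := hg.js.two y (q x) h3 (Sum.inl x) (Or.inl ⟨x, rfl, h2, hxx⟩)
      (Sum.inr w') (Or.inr ⟨w', rfl, e1, m1⟩) (Sum.inr w'') (Or.inr ⟨w'', rfl, e2, m2⟩)
    rcases this with e | e | e
    · exact absurd e (by simp)
    · exact absurd e (by simp)
    · exact Sum.inr_injective e
  -- the centre of a pentagon
  have hcJ : ∀ c, Cx K J x c → ∀ y, c ∈ J x ∪ J y → K.InP x y →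
      ∃ w', D.G.Adj (q x) w' ∧ w' ∈ J y ∧ D.G.dist (q x) c = D.G.dist w' c + 1 := by
    intro c hc y hcy hy
    have hcq : q x ≠ c := by
      rintro rfl
      exact hn hc
    have hcy' : c ∈ J y := by
      rcases hcy with e | e
      · rw [hJx] at e
        exact absurd e.symm hcq
      · exact e
    obtain ⟨w', e1, e2⟩ := exists_next D.tree hcq
    refine ⟨w', e1, ?_, e2⟩
    have e3 : D.G.dist (q x) w' = 1 := SimpleGraph.dist_eq_one_iff_adj.2 e1
    exact hg.js.conv y _ (hnb y hy).2 _ hcy' _ (by rw [e3, e2, add_comm])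
  -- corners
  have hcor : ∀ y z, K.Cor y x z → K.InP x y ∧ K.InP x z ∧ ∃ c, Cx K J x c ∧ c ∈ J x ∪ J y ∧
      c ∈ J x ∪ J z := by
    rintro y z ⟨h, i, j, ⟨rfl, rfl, rfl⟩ | ⟨rfl, rfl, rfl⟩⟩
    · obtain ⟨c, hc, -⟩ := hg.exists_c h i
      have e : (j + 2 : Fin 5) = j + 1 + 1 := by rw [add_assoc]; rfl
      refine ⟨⟨h, i, j, Or.inr ⟨rfl, rfl⟩⟩, ⟨h, i, j + 1, Or.inl ⟨rfl, by rw [e]⟩⟩, c,
        ⟨h, i, j + 1, rfl, hc⟩, (hc j).symm, ?_⟩
      rw [e]
      exact hc (j + 1)
    · obtain ⟨c, hc, -⟩ := hg.exists_c h i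
      have e : (j + 2 : Fin 5) = j + 1 + 1 := by rw [add_assoc]; rfl
      refine ⟨⟨h, i, j + 1, Or.inl ⟨rfl, by rw [e]⟩⟩, ⟨h, i, j, Or.inr ⟨rfl, rfl⟩⟩, c,
        ⟨h, i, j + 1, rfl, hc⟩, ?_, (hc j).symm⟩
      rw [e]
      exact hc (j + 1)
  -- one neighbour
  obtain ⟨y0, hE0⟩ := hne
  have hy0 : K.InP x y0 := hA _ hE0
  obtain ⟨c0, hc0, hc0'⟩ : ∃ c, Cx K J x c ∧ c ∈ J x ∪ J y0 := by
    obtain ⟨h, i, j, ⟨rfl, rfl⟩ | ⟨rfl, rfl⟩⟩ := hy0
    · obtain ⟨c, hc, -⟩ := hg.exists_c h i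
      exact ⟨c, ⟨h, i, j, rfl, hc⟩, hc j⟩
    · obtain ⟨c, hc, -⟩ := hg.exists_c h i
      exact ⟨c, ⟨h, i, j + 1, rfl, hc⟩, (hc j).symm⟩
  obtain ⟨w', e1, e2, -⟩ := hcJ c0 hc0 y0 hc0' hy0
  have hall : ∀ y, K.InP x y → w' ∈ J y := by
    intro y hy
    have h1 := hL y0 y hE0 hy.E
    clear hy
    induction h1 with
    | refl => exact e2
    | tail _ h2 ih =>
      rename_i y z _
      obtain ⟨h3, h4, c, h5, h6, h7⟩ := hcor _ _ h2
      obtain ⟨w1, k1, k2, k3⟩ := hcJ c h5 _ h6 h3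
      have n1 : w1 = w' := huniq _ h3 _ _ k1 e1 k2 ih
      have n2 : w1 ∈ J z := by
        have hcz : c ∈ J z := by
          rcases h7 with e | e
          · rw [hJx] at e
            exact absurd (e ▸ h5) hn
          · exact e
        have e3 : D.G.dist (q x) w1 = 1 := SimpleGraph.dist_eq_one_iff_adj.2 k1
        exact hg.js.conv z _ (hnb z h4).2 _ hcz _ (by rw [e3, k3, add_comm])
      rw [← n1]
      exact n2
  refine ⟨w', e1, ?_, ⟨c0, hc0⟩, ?_⟩
  · intro h hh
    have hh' : h • x = x := hh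
    have h1 : K.InP x (h • y0) := by
      have := hy0.smul h
      rwa [hh'] at this
    have h2 : h • q x = q x := by
      rw [← hg.qs h x he, hh']
    refine huniq _ h1 _ _ ?_ e1 ?_ (hall _ h1)
    · have := D.adj_smul h _ _ e1
      rwa [h2] at this
    · exact hg.js.smul h y0 w' e2
  · intro c hc
    obtain ⟨h, i, k, hk, hc'⟩ := hc
    have h1 : K.InP x (h • K.pt i (k + 1)) := ⟨h, i, k, Or.inl ⟨hk, rfl⟩⟩
    obtain ⟨w1, k1, k2, k3⟩ := hcJ c ⟨h, i, k, hk, hc'⟩ _ (by rw [hk]; exact hc' k) h1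
    rw [huniq _ h1 _ _ k1 e1 k2 (hall _ h1)] at k3
    exact k3

/-! ### The flip -/

private theorem status (hg : Good K D q J) {q' : V → D.X} {J' : V → Set D.X}
    (hg' : Good K D q' J') {a b : D.X} (hab : D.G.Adj a b)
    (hs : ∀ y, (∀ c, ¬ K.ar y c) → J' y = J y ∨ ∃ g : H, J y = {g • a} ∧ J' y = {g • b})
    (hso : ∀ y, (∃ c, K.ar y c) → q' y = q y) :
    ∀ (n : ℕ) (y : V), K.rk y = n → ∀ u u', D.G.Adj u u' →
      (∀ g : H, ¬ ((u = g • a ∧ u' = g • b) ∨ (u = g • b ∧ u' = g • a))) →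
      (J y ⊆ bey D.G u u' ↔ J' y ⊆ bey D.G u u') := by
  intro n
  induction n using Nat.strong_induction_on with
  | _ n ih =>
    intro y hrk u u' hu hnf
    by_cases ha : ∃ c, K.ar y c
    · have h1 := (jq_status K.pq D _ q hg.qd J hg.jq hu y ha).2
      have h2 := (jq_status K.pq D _ q' hg'.qd J' hg'.jq hu y ha).2
      have hnf' : ∀ g : H, ¬ ((u' = g • a ∧ u = g • b) ∨ (u' = g • b ∧ u = g • a)) := by
        intro g e
        apply hnf g
        rcases e with ⟨e1, e2⟩ | ⟨e1, e2⟩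
        · exact Or.inr ⟨e2, e1⟩
        · exact Or.inl ⟨e2, e1⟩
      have h3 : ∀ c, K.ar y c → (J c ⊆ bey D.G u u' ↔ J' c ⊆ bey D.G u u') := by
        intro c hc
        exact ih (K.rk c) (by rw [← hrk]; exact K.ar_rk _ _ hc) c rfl u u' hu hnf
      have h4 : ∀ c, K.ar y c → (J c ⊆ bey D.G u' u ↔ J' c ⊆ bey D.G u' u) := by
        intro c hc
        exact ih (K.rk c) (by rw [← hrk]; exact K.ar_rk _ _ hc) c rfl u' u hu.symm hnf'
      rw [h1, h2, hso y ha]
      have h5 : (∃ c, K.pq.ar y c ∧ J c ⊆ bey D.G u' u) ↔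
          (∃ c, K.pq.ar y c ∧ J' c ⊆ bey D.G u' u) := by
        constructor
        · rintro ⟨c, hc, e⟩
          exact ⟨c, hc, (h4 c hc).1 e⟩
        · rintro ⟨c, hc, e⟩
          exact ⟨c, hc, (h4 c hc).2 e⟩
      have h6 : (∃ c, K.pq.ar y c ∧ J c ⊆ bey D.G u u') ↔
          (∃ c, K.pq.ar y c ∧ J' c ⊆ bey D.G u u') := by
        constructor
        · rintro ⟨c, hc, e⟩
          exact ⟨c, hc, (h3 c hc).1 e⟩
        · rintro ⟨c, hc, e⟩
          exact ⟨c, hc, (h3 c hc).2 e⟩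
      rw [h5, h6]
    · push Not at ha
      rcases hs y ha with e | ⟨g, e1, e2⟩
      · rw [e]
      · rw [e1, e2, Set.singleton_subset_iff, Set.singleton_subset_iff]
        have hadj := D.adj_smul g _ _ hab
        exact ⟨adj_side D.tree hadj hu (hnf g),
          adj_side D.tree hadj.symm hu (fun h => hnf g h.symm)⟩

/-- the centres are separated only by edges in the orbit of `a b` -/
private theorem centre_sep (hg : Good K D q J) {q' : V → D.X} {J' : V → Set D.X}
    (hg' : Good K D q' J') {a b : D.X} (hab : D.G.Adj a b)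
    (hs : ∀ y, (∀ c, ¬ K.ar y c) → J' y = J y ∨ ∃ g : H, J y = {g • a} ∧ J' y = {g • b})
    (hso : ∀ y, (∃ c, K.ar y c) → q' y = q y) {i : K.I} {c c' : D.X}
    (hc : ∀ k, c ∈ J (K.pt i k) ∪ J (K.pt i (k + 1)))
    (hc' : ∀ k, c' ∈ J' (K.pt i k) ∪ J' (K.pt i (k + 1))) {u u' : D.X} (hu : D.G.Adj u u')
    (h1 : c' ∈ bey D.G u u') (h2 : c ∉ bey D.G u u') :
    ∃ g : H, (u = g • a ∧ u' = g • b) ∨ (u = g • b ∧ u' = g • a) := by
  by_contra hno
  push Not at hno
  apply h2
  have hnf : ∀ g : H, ¬ ((u = g • a ∧ u' = g • b) ∨ (u = g • b ∧ u' = g • a)) := by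
    rintro g (⟨e1, e2⟩ | ⟨e1, e2⟩)
    · exact (hno g).1 e1 e2
    · exact (hno g).2 e1 e2
  have s1 := fcentre_side D.tree (fun k => J (K.pt i k)) (fun k => hg.js.conv _)
    (fun k => hg.js.one _ _ (K.pt_E i k)) hc hu
  have s2 := fcentre_side D.tree (fun k => J' (K.pt i k)) (fun k => hg'.js.conv _)
    (fun k => hg'.js.one _ _ (K.pt_E i k)) hc' hu
  rw [s1]
  obtain ⟨k, k1, k2⟩ := s2.1 h1
  exact ⟨k, (status hg hg' hab hs hso _ _ rfl u u' hu hnf).2 k1,
    (status hg hg' hab hs hso _ _ rfl u u' hu hnf).2 k2⟩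

/-- in a subdivision the centres which are not midpoints do not move -/
private theorem centre_eq {D0 : Decomp H} {v : D0.X → D.X} {m : D0.X → D0.X → D.X}
    (hv : ∀ (h : H) w, v (h • w) = h • v w)
    (hm : ∀ (h : H) w w', D0.G.Adj w w' → m (h • w) (h • w') = h • m w w')
    (hvm : ∀ u w w', D0.G.Adj w w' → v u ≠ m w w')
    (hmm : ∀ w w' u u', D0.G.Adj w w' → D0.G.Adj u u' → m w w' = m u u' →
        (w = u ∧ w' = u') ∨ (w = u' ∧ w' = u))
    (hadj : ∀ y z, D.G.Adj y z ↔ ∃ w w', D0.G.Adj w w' ∧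
        ((y = v w ∧ z = m w w') ∨ (z = v w ∧ y = m w w')))
    (hg : Good K D q J) {q' : V → D.X} {J' : V → Set D.X}
    (hg' : Good K D q' J') {a b : D.X} (hab : D.G.Adj a b)
    (hs : ∀ y, (∀ c, ¬ K.ar y c) → J' y = J y ∨ ∃ g : H, J y = {g • a} ∧ J' y = {g • b})
    (hso : ∀ y, (∃ c, K.ar y c) → q' y = q y) {i : K.I} {c c' : D.X}
    (hc : ∀ k, c ∈ J (K.pt i k) ∪ J (K.pt i (k + 1)))
    (hc' : ∀ k, c' ∈ J' (K.pt i k) ∪ J' (K.pt i (k + 1)))
    (n : ∀ w w', D0.G.Adj w w' → c ≠ m w w') (n' : ∀ w w', D0.G.Adj w w' → c' ≠ m w w') :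
    c = c' := by
  by_contra hne
  obtain ⟨z1, e1, d1⟩ := exists_next D.tree hne
  -- `c` is a vertex, `z1` a midpoint
  have hcm : ∀ z, D.G.Adj c z → ∃ w w', D0.G.Adj w w' ∧ z = m w w' := by
    intro z hz'
    obtain ⟨w, w', e, ⟨e2, e3⟩ | ⟨e2, e3⟩⟩ := (hadj _ _).1 hz'
    · exact ⟨w, w', e, e3⟩
    · exact absurd e3 (n w w' e)
  obtain ⟨t, t', et, hz1⟩ := hcm z1 e1
  have hne1 : z1 ≠ c' := by
    rintro rfl
    exact n' t t' et hz1
  obtain ⟨z2, e2, d2⟩ := exists_next D.tree hne1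
  have hne2 : z2 ≠ c := by
    rintro rfl
    omega
  have hd1 : D.G.dist c z1 = 1 := SimpleGraph.dist_eq_one_iff_adj.2 e1
  obtain ⟨g, hgg⟩ := centre_sep hg hg' hab hs hso hc hc' e1
    (show D.G.dist c' c = D.G.dist c' z1 + 1 by
      rw [SimpleGraph.dist_comm, d1, SimpleGraph.dist_comm (u := c') (v := z1)])
    (fun e => by
      have e' : D.G.dist c c = D.G.dist c z1 + 1 := e
      rw [SimpleGraph.dist_self] at e'
      omega)
  obtain ⟨g', hgg'⟩ := centre_sep hg hg' hab hs hso hc hc' e2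
    (show D.G.dist c' z1 = D.G.dist c' z2 + 1 by
      rw [SimpleGraph.dist_comm, d2, SimpleGraph.dist_comm (u := c') (v := z2)])
    (fun e => by
      have e' : D.G.dist c z1 = D.G.dist c z2 + 1 := e
      have e3 : D.G.dist z2 c = 0 := by
        rw [SimpleGraph.dist_comm]
        omega
      exact hne2 ((D.tree.connected.dist_eq_zero_iff).1 e3))
  -- the two ends of the edge `a b`
  obtain ⟨p, r, w, w', eww, hp, hr, h1, h2⟩ : ∃ p r w w', D0.G.Adj w w' ∧ p = v w ∧ r = m w w' ∧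
      ((c = g • p ∧ z1 = g • r) ∨ (c = g • r ∧ z1 = g • p)) ∧
      ((z1 = g' • p ∧ z2 = g' • r) ∨ (z1 = g' • r ∧ z2 = g' • p)) := by
    obtain ⟨w, w', e, ⟨k1, k2⟩ | ⟨k1, k2⟩⟩ := (hadj _ _).1 hab
    · exact ⟨a, b, w, w', e, k1, k2, hgg, hgg'⟩
    · exact ⟨b, a, w, w', e, k1, k2, hgg.symm, hgg'.symm⟩
  have hgr : ∀ x : H, x • r = m (x • w) (x • w') := by
    intro x
    rw [hr, hm x w w' eww]
  have hgp : ∀ x : H, x • p = v (x • w) := by
    intro x
    rw [hp, hv]
  have h1' : c = g • p ∧ z1 = g • r := by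
    rcases h1 with h | h
    · exact h
    · exact absurd (h.1.trans (hgr g)) (n _ _ (D0.adj_smul g _ _ eww))
  have h2' : z1 = g' • r ∧ z2 = g' • p := by
    rcases h2 with h | h
    · exact absurd (((hgp g').symm.trans h.1.symm).trans hz1) (hvm _ _ _ et)
    · exact h
  have h3 : m (g • w) (g • w') = m (g' • w) (g' • w') := by
    rw [← hgr, ← hgr, ← h1'.2, ← h2'.1]
  rcases hmm _ _ _ _ (D0.adj_smul g _ _ eww) (D0.adj_smul g' _ _ eww) h3 with ⟨k1, k2⟩ | ⟨k1, k2⟩
  · apply hne2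
    rw [h2'.2, h1'.1, hgp, hgp, k1]
  · apply D0.noinv (g'⁻¹ * g) w w' eww
    rw [mul_smul, mul_smul, k1, k2, inv_smul_smul, inv_smul_smul]
    exact ⟨rfl, rfl⟩

private theorem Good.cx_smul (hg : Good K D q J) (g : H) {x : V} {c : D.X} (h : Cx K J x c) :
    Cx K J (g • x) (g • c) := by
  obtain ⟨h', i, k, rfl, hc⟩ := h
  refine ⟨g * h', i, k, (mul_smul _ _ _).symm, ?_⟩
  intro k'
  rw [mul_smul, mul_smul]
  exact (hc k').imp (hg.js.smul g _ _) (hg.js.smul g _ _)

/-- distance from `q x` to the centres of the pentagons through `x` -/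
private noncomputable def dc (K : PX H V) {D : Decomp H} (q : V → D.X) (J : V → Set D.X)
    (x : V) : ℕ := sInf {n | ∃ c, Cx K J x c ∧ n = D.G.dist (q x) c}

end

section

variable {H V : Type} [Group H] [MulAction H V]

/-- RELATIVE FORM. The places `q0` of the elliptic vertices are given, `Z` is an invariant set of
vertices all of whose edges are in pentagons and whose links are connected: only the places of the
sinks in `Z` are changed, and these are seen. -/
theorem exists_seen_rel {K : PX H V} (Z : V → Prop) (hZs : ∀ (h : H) x, Z x → Z (h • x))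
    (hA : ∀ x, Z x → ∀ y, K.E x y → K.InP x y)
    (hL : ∀ x, Z x → ∀ y z, K.E x y → K.E x z →
      Relation.ReflTransGen (fun a b => K.Cor a x b) y z) (D : Decomp H)
    (q0 : V → D.X) (hq0 : ∀ (h : H) (x : V), Ell H D.X x → q0 (h • x) = h • q0 x)
    (hZ : ∀ {D : Decomp H} {J : V → Set D.X}, JS K.pq D J → ∀ (i : K.I) (c : D.X),
      (∀ k, c ∈ J (K.pt i k) ∪ J (K.pt i (k + 1))) → ¬ InC ↥(stabilizer H c))
    (hsoft : ∀ (D : Decomp H) (x a : V), K.ar x a → Ell H D.X x) :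
    ∃ (D1 : Decomp H) (v : D.X → D1.X) (q : V → D1.X) (J : V → Set D1.X),
      QDat K.pq D1 (Lq H (D := D1) q) q ∧
      IsJQ K.pq D1 (Lq H (D := D1) q) q J ∧ JS K.pq D1 J ∧ (∀ x, Ell H D1.X x → (J x).Finite) ∧
      (∀ x : V, Ell H D1.X x → Ell H D.X x) ∧
      (∀ a b, D1.G.Adj a b → ∃ c d, D.G.Adj c d ∧
        stabilizer H a ⊓ stabilizer H b ≤ stabilizer H c ⊓ stabilizer H d) ∧
      (∀ (h : H) w, v (h • w) = h • v w) ∧ Function.Injective v ∧
      (∀ x, Ell H D1.X x → ¬ Z x → q x = v (q0 x)) ∧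
      (∀ x, K.Sink x → Z x → Ell H D1.X x → ∃ (h : H) (i : K.I) (k : Fin 5), x = h • K.pt i k ∧
        ∀ k', q x ∈ J (h • K.pt i k') ∪ J (h • K.pt i (k' + 1))) := by
  classical
  obtain ⟨D1, v, m, hv, hm, -, hvi, hz, hvm, hmm, hadj⟩ := exists_sub D
  have : Nonempty D1.X := D1.tree.connected.nonempty
  have hell1 : ∀ x : V, Ell H D1.X x → Ell H D.X x := by
    rintro x ⟨z, hzx⟩
    rcases hz z with ⟨w, rfl⟩ | ⟨w, w', e, rfl⟩
    · refine ⟨w, fun h hh => hvi ?_⟩
      rw [hv, hzx h hh]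
    · refine ⟨w, fun h hh => ?_⟩
      have h1 := hzx h hh
      rw [← hm h w w' e] at h1
      rcases hmm _ _ _ _ (D.adj_smul h _ _ e) e h1 with ⟨k1, -⟩ | ⟨k1, k2⟩
      · exact k1
      · exact absurd ⟨k1, k2⟩ (D.noinv h w w' e)
  obtain ⟨J0, hg0⟩ := exists_good (K := K) (hsoft D1) (fun x => v (q0 x)) (by
    intro h x hx
    show v (q0 (h • x)) = h • v (q0 x)
    rw [hq0 h x (hell1 x hx), hv])
  have hfin : (orbs H {x : V | K.Sink x ∧ Ell H D1.X x}).Finite :=
    SAF.FinOrb.mono (Set.subset_univ _) K.fin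
  have hex : ∃ n : ℕ, ∃ (q : V → D1.X) (J : V → Set D1.X), Good K D1 q J ∧
      (∀ x, Ell H D1.X x → ¬ Z x → q x = v (q0 x)) ∧
      ∑ o ∈ hfin.toFinset, dc K q J (Quotient.out o) = n :=
    ⟨_, _, J0, hg0, fun _ _ _ => rfl, rfl⟩
  obtain ⟨q, J, hg, hqz, hn⟩ := Nat.find_spec hex
  have hmin : ∀ (q' : V → D1.X) (J' : V → Set D1.X), Good K D1 q' J' →
      (∀ x, Ell H D1.X x → ¬ Z x → q' x = v (q0 x)) →
      ∑ o ∈ hfin.toFinset, dc K q J (Quotient.out o) ≤
        ∑ o ∈ hfin.toFinset, dc K q' J' (Quotient.out o) := by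
    intro q' J' hg' hqz'
    rw [hn]
    exact Nat.find_min' hex ⟨q', J', hg', hqz', rfl⟩
  have hedge : ∀ a b, D1.G.Adj a b → ∃ c d, D.G.Adj c d ∧
        stabilizer H a ⊓ stabilizer H b ≤ stabilizer H c ⊓ stabilizer H d := by
    intro a b hab
    have main : ∀ w w', D.G.Adj w w' → ∀ g : H, g • v w = v w → g • m w w' = m w w' →
        g • w = w ∧ g • w' = w' := by
      intro w w' e g h1 h2
      have h3 : g • w = w := by
        apply hvi
        rw [hv, h1]
      refine ⟨h3, ?_⟩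
      rw [← hm g w w' e] at h2
      rcases hmm _ _ _ _ (D.adj_smul g _ _ e) e h2 with ⟨-, k2⟩ | ⟨k1, k2⟩
      · exact k2
      · exact absurd ⟨k1, k2⟩ (D.noinv g w w' e)
    obtain ⟨w, w', e, ⟨rfl, rfl⟩ | ⟨rfl, rfl⟩⟩ := (hadj a b).1 hab
    · exact ⟨w, w', e, fun g hg => main w w' e g hg.1 hg.2⟩
    · exact ⟨w, w', e, fun g hg => main w w' e g hg.2 hg.1⟩
  refine ⟨D1, v, q, J, hg.qd, hg.jq, hg.js, hg.fin, hell1, hedge, hv, hvi, hqz, ?_⟩
  by_contra hno
  push Not at hno
  obtain ⟨x0, hx0, hz0, he0, hx0'⟩ := hno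
  have hn0 : ¬ Cx K J x0 (q x0) := by
    rintro ⟨h, i, k, e1, e2⟩
    obtain ⟨k', hk'⟩ := hx0' h i k e1
    exact hk' (e2 k')
  -- the representative
  obtain ⟨o0, ho0⟩ : ∃ o0 : orbitRel.Quotient H V, o0 = Quotient.mk'' x0 := ⟨_, rfl⟩
  obtain ⟨x, hxo⟩ : ∃ x : V, x = Quotient.out o0 := ⟨_, rfl⟩
  have hxmk : (Quotient.mk'' x : orbitRel.Quotient H V) = o0 := by
    rw [hxo]
    exact Quotient.out_eq _
  obtain ⟨g0, hg0x⟩ : ∃ g : H, g • x0 = x := Pool.Agent.SAF.mk_eq_iff.1 (hxmk.trans ho0)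
  have hex : Ell H D1.X x := by
    rw [← hg0x]
    exact Ell.smul he0 g0
  have hx : K.Sink x := by
    intro a ha
    apply hx0 (g0⁻¹ • a)
    have := K.ar_smul g0⁻¹ _ _ ha
    rwa [← hg0x, inv_smul_smul] at this
  have hzx : Z x := by
    rw [← hg0x]
    exact hZs _ _ hz0
  have hnx : ¬ Cx K J x (q x) := by
    intro h
    apply hn0
    have := hg.cx_smul g0⁻¹ h
    rwa [← hg.qs _ _ hex, ← hg0x, inv_smul_smul] at this
  have hne : ∃ y, K.E x y := by
    by_contra hno
    push Not at hno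
    have hall : ∀ z, z = x := by
      intro z
      have := K.conn x z
      induction this with
      | refl => rfl
      | tail _ h2 ih =>
        rw [ih] at h2
        exact absurd h2 (hno _)
    obtain ⟨w, hw⟩ := hex
    obtain ⟨h, hh⟩ := D1.nofix w
    exact hh (hw h (hall _))
  obtain ⟨w', hadj', hfix, ⟨c0, hc0⟩, hdist⟩ := hg.dir (hA x hzx) (hL x hzx) hex hx hne hnx
  -- the new points
  obtain ⟨q', hq'⟩ : ∃ q' : V → D1.X, q' = fun y =>
      if h : ∃ g : H, g • x = y then h.choose • w' else q y := ⟨_, rfl⟩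
  have hq1 : ∀ g : H, q' (g • x) = g • w' := by
    intro g
    have h : ∃ g' : H, g' • x = g • x := ⟨g, rfl⟩
    rw [hq']
    dsimp only
    rw [dif_pos h]
    have h1 : h.choose • x = g • x := h.choose_spec
    have h2 := hfix (g⁻¹ * h.choose) (by
      change (g⁻¹ * h.choose) • x = x
      rw [mul_smul, h1, inv_smul_smul])
    rwa [mul_smul, inv_smul_eq_iff] at h2
  have hq2 : ∀ y, (¬ ∃ g : H, g • x = y) → q' y = q y := by
    intro y hy
    rw [hq']
    dsimp only
    rw [dif_neg hy]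
  have hqs : ∀ (h : H) (y : V), Ell H D1.X y → q' (h • y) = h • q' y := by
    intro h y hey
    by_cases hy : ∃ g : H, g • x = y
    · obtain ⟨g, rfl⟩ := hy
      rw [hq1, smul_smul, hq1, mul_smul]
    · rw [hq2 y hy, hq2 (h • y) ?_, hg.qs _ _ hey]
      rintro ⟨g, hgy⟩
      exact hy ⟨h⁻¹ * g, by rw [mul_smul, hgy, inv_smul_smul]⟩
  obtain ⟨J', hg'⟩ := exists_good (K := K) (hsoft D1) q' hqs
  have hs : ∀ y, (∀ c, ¬ K.ar y c) → J' y = J y ∨ ∃ g : H, J y = {g • q x} ∧ J' y = {g • w'} := by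
    intro y hy0
    by_cases hey : Ell H D1.X y
    · rw [hg.sink hy0 hey, hg'.sink hy0 hey]
      by_cases hy : ∃ g : H, g • x = y
      · obtain ⟨g, rfl⟩ := hy
        exact Or.inr ⟨g, by rw [hg.qs g x hex], by rw [hq1 g]⟩
      · exact Or.inl (by rw [hq2 y hy])
    · left
      rw [hg.jq.sink y hy0, hg'.jq.sink y hy0]
      unfold Lq
      rw [if_neg hey, if_neg hey]
  have hso : ∀ y, (∃ c, K.ar y c) → q' y = q y := by
    rintro y ⟨c, hc⟩
    apply hq2
    rintro ⟨g, rfl⟩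
    apply hx (g⁻¹ • c)
    have := K.ar_smul g⁻¹ _ _ hc
    rwa [inv_smul_smul] at this
  -- midpoints are not centres
  have hmid : ∀ {J : V → Set D1.X}, JS K.pq D1 J → ∀ (i : K.I) (c : D1.X),
      (∀ k, c ∈ J (K.pt i k) ∪ J (K.pt i (k + 1))) → ∀ w w', D.G.Adj w w' → c ≠ m w w' := by
    intro J hj i c hc w w' e hcm
    refine hZ hj i c hc (Pool.Agent.SAG.InC.mono ?_ (D.edgeC w w' e))
    intro h hh
    have h1 : h • c = c := hh
    rw [hcm, ← hm h w w' e] at h1
    rcases hmm _ _ _ _ (D.adj_smul h _ _ e) e h1 with ⟨k1, k2⟩ | ⟨k1, k2⟩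
    · exact ⟨k1, k2⟩
    · exact absurd ⟨k1, k2⟩ (D.noinv h w w' e)
  -- the centres do not move
  have hcen : ∀ (i : K.I), ∃ c, (∀ k, c ∈ J (K.pt i k) ∪ J (K.pt i (k + 1))) ∧
      (∀ k, c ∈ J' (K.pt i k) ∪ J' (K.pt i (k + 1))) := by
    intro i
    obtain ⟨c, hc, -⟩ := hg.exists_c 1 i
    obtain ⟨c', hc', -⟩ := hg'.exists_c 1 i
    simp only [one_smul] at hc hc'
    have := centre_eq hv hm hvm hmm hadj hg hg' hadj' hs hso hc hc'
      (hmid hg.js i c hc) (hmid hg'.js i c' hc')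
    rw [← this] at hc'
    exact ⟨c, hc, hc'⟩
  have hcx : ∀ y c, Cx K J' y c ↔ Cx K J y c := by
    have key : ∀ {q q' : V → D1.X} {J J' : V → Set D1.X}, Good K D1 q J → Good K D1 q' J' →
        (∀ (i : K.I), ∃ c, (∀ k, c ∈ J (K.pt i k) ∪ J (K.pt i (k + 1))) ∧
          (∀ k, c ∈ J' (K.pt i k) ∪ J' (K.pt i (k + 1)))) → ∀ y c, Cx K J y c → Cx K J' y c := by
      intro q q' J J' hg hg' hcen y c
      rintro ⟨h, i, k, e, hc⟩
      refine ⟨h, i, k, e, ?_⟩
      obtain ⟨c1, h1, h2⟩ := hcen i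
      obtain ⟨c2, h3, h4⟩ := hg.exists_c h i
      have e1 : c = h • c1 := by
        rw [h4 c hc]
        symm
        apply h4
        intro k'
        exact (h1 k').imp (hg.js.smul h _ _) (hg.js.smul h _ _)
      rw [e1]
      intro k'
      exact (h2 k').imp (hg'.js.smul h _ _) (hg'.js.smul h _ _)
    intro y c
    exact ⟨key hg' hg (fun i => (hcen i).imp fun c h => h.symm) y c, key hg hg' hcen y c⟩
  -- the sum drops
  have h1 := hmin q' J' hg' (by
    intro y hey hzy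
    rw [hq2 y ?_, hqz y hey hzy]
    rintro ⟨g, rfl⟩
    exact hzy (hZs g x hzx))
  apply absurd h1
  push Not
  have hdx : dc K q' J' x < dc K q J x := by
    obtain ⟨c, hc, hcd⟩ : ∃ c, Cx K J x c ∧ dc K q J x = D1.G.dist (q x) c :=
      Nat.sInf_mem (s := {n | ∃ c, Cx K J x c ∧ n = D1.G.dist (q x) c}) ⟨_, c0, hc0, rfl⟩
    have h2 : dc K q' J' x ≤ D1.G.dist (q' x) c := Nat.sInf_le ⟨c, (hcx x c).2 hc, rfl⟩
    have h3 : q' x = w' := by
      have := hq1 1
      rwa [one_smul, one_smul] at this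
    rw [h3] at h2
    rw [hcd, hdist c hc]
    omega
  have hdy : ∀ o : orbitRel.Quotient H V, o ≠ o0 →
      dc K q' J' (Quotient.out o) = dc K q J (Quotient.out o) := by
    intro o ho
    have h2 : q' (Quotient.out o) = q (Quotient.out o) := by
      apply hq2
      rintro ⟨g, hgx⟩
      apply ho
      rw [← hxmk]
      have e1 : (Quotient.mk'' (Quotient.out o) : orbitRel.Quotient H V) = o := Quotient.out_eq _
      rw [← e1]
      exact Pool.Agent.SAF.mk_eq_iff.2 ⟨g, hgx⟩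
    unfold dc
    rw [h2]
    simp only [hcx]
  apply Finset.sum_lt_sum
  · intro o _
    by_cases ho : o = o0
    · rw [ho, ← hxo]
      exact hdx.le
    · exact (hdy o ho).le
  · refine ⟨o0, ?_, by rw [← hxo]; exact hdx⟩
    rw [Set.Finite.mem_toFinset, ho0]
    exact ⟨x0, ⟨hx0, he0⟩, rfl⟩

end

end Pool.Agent.DI.FR
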