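import Pool.Agent.DI.Light
import Pool.Agent.DI.FlipE

/-!
`Cd.exists_sys'`: the good system on a refinement of the subdivision of a given tree has edge groups
contained in edge groups of the given tree.  Hence in the light world every decomposition has an
infinite edge group (`Cd.LW.exists_inf`), and all edge groups are infinite if there is one orbit of
edges (`Cd.LW.all_inf`).
-/

namespace Pool.Agent.DI

open MulAction
open Pool.Agent.SAF (InC orbs FinOrb oc Decomp SAn SA Conv exists_next)
open Pool.Agent.BT (PX PQ JS bey exits MinSub Ell mst Hyp Lq mst_conv axis)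

/-- existence of a good system; its edge groups are contained in edge groups of the given tree -/
theorem Cd.exists_sys' (C : Cd) (D : Decomp C.H) :
    ∃ (D' : Decomp C.H) (J' : C.V → Set D'.X) (js : JS C.P.pq D' J'),
      (Sys.mk C.K C.P D' J' js).Gd ∧ (∀ x : C.V, Ell C.H D'.X x → Ell C.H D.X x) ∧
      ∀ a b, D'.G.Adj a b → ∃ c d, D.G.Adj c d ∧
        stabilizer C.H a ⊓ stabilizer C.H b ≤ stabilizer C.H c ⊓ stabilizer C.H d := by
  classical
  obtain ⟨D1, q, J, hQ, hJ, js, hfin, hell, hedge, hseen⟩ := FE.exists_seen_gen (K := C.P.px)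
    C.allP C.linkC D (fun js i c h => C.centre_not_inC js i c h)
    (fun D x a ha => C.soft_ell D ha)
  let S1 : Sys C.H C.V := ⟨C.K, C.P, D1, J, js⟩
  obtain ⟨D', J', js', pr, hc, p1, p2, p3, p4, p5⟩ := Sys.exists_conn S1
  have hpr : ∀ x : C.V, Ell C.H D'.X x → Ell C.H D1.X x := by
    rintro x ⟨c, hc⟩
    exact ⟨pr c, fun g hg => by rw [← p1, hc g hg]⟩
  have hell' : ∀ x : C.V, Ell C.H D1.X x → Ell C.H D'.X x := by
    intro x hx
    by_contra hcon
    -- `J' x` is finite and invariant
    have hf : (J' x).Finite := by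
      apply Set.Finite.of_finite_image ((hfin x hx).subset _)
      · intro l hl m hm e
        exact p5 x l hl m hm e
      · rintro _ ⟨l, hl, rfl⟩
        exact p3 x l hl
    have hy : Hyp D'.X (stabilizer C.H x) := by
      unfold Ell at hcon
      push Not at hcon
      exact hcon
    have h1 : mst D'.G (stabilizer C.H x) ⊆ J' x := by
      intro w hw
      refine hw (J' x) (js'.conv x) (js'.ne x) ?_
      intro g hg c hc
      have := js'.smul g x c hc
      rwa [show g • x = x from hg] at this
    have h2 := axis D'.tact (stabilizer C.H x) (C.K.stab x) hy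
    -- a hyperbolic element has an infinite orbit in the finite set
    obtain ⟨w, hw⟩ := h2.2.1
    have hfm : (mst D'.G (stabilizer C.H x)).Finite := hf.subset h1
    -- the stabiliser of `w` in the group has finite index and is finite: then the group is finite
    have hst : Finite ↥(stabilizer C.H x ⊓ stabilizer C.H w) :=
      BT.finite_of_hyp D'.tact (C.K.stab x) hy inf_le_left (w := w) (fun b hb => hb.2)
    have horb : (MulAction.orbit ↥(stabilizer C.H x) w).Finite := by
      apply hfm.subset
      rintro _ ⟨g, rfl⟩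
      intro Cc h1 h2 h3
      exact h3 g.1 g.2 _ (hw Cc h1 h2 h3)
    have hfg : Finite ↥(stabilizer C.H x) := by
      have : Finite (MulAction.orbit ↥(stabilizer C.H x) w) := horb.to_subtype
      have h4 : Finite (↥(stabilizer C.H x) ⧸ stabilizer ↥(stabilizer C.H x) w) :=
        Finite.of_equiv _ (MulAction.orbitEquivQuotientStabilizer _ w)
      have h5 : Finite ↥(stabilizer ↥(stabilizer C.H x) w) := by
        refine Finite.of_injective (fun g : ↥(stabilizer ↥(stabilizer C.H x) w) =>
          (⟨g.1.1, g.1.2, g.2⟩ : ↥(stabilizer C.H x ⊓ stabilizer C.H w))) ?_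
        intro a b e
        have e' := congrArg Subtype.val e
        exact Subtype.ext (Subtype.ext e')
      exact Finite.of_equiv _ (Subgroup.groupEquivQuotientProdSubgroup
        (s := stabilizer ↥(stabilizer C.H x) w)).symm
    have := D'.tree.connected.nonempty
    obtain ⟨z, hz⟩ := Pool.Agent.SAG.fix_of_finite D'.tact _ hfg
    exact hcon ⟨z, hz⟩
  refine ⟨D', J', js', ⟨hc, ?_, ?_, ?_, ?_⟩, fun x hx => hell x (hpr x hx), ?_⟩
  rotate_left 4
  · intro a b hab
    obtain ⟨c, d, e, hle⟩ := hedge _ _ (p2 a b hab)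
    refine ⟨c, d, e, le_trans ?_ hle⟩
    intro g hg
    have h1 : g • a = a := hg.1
    have h2 : g • b = b := hg.2
    refine ⟨?_, ?_⟩
    · show g • pr a = pr a
      rw [← p1, h1]
    · show g • pr b = pr b
      rw [← p1, h2]
  · intro x a ha
    exact C.soft_ell D' ha
  · intro x hx
    apply Set.Finite.of_finite_image ((hfin x (hpr x hx)).subset _)
    · intro l hl m hm e
      exact p5 x l hl m hm e
    · rintro _ ⟨l, hl, rfl⟩
      exact p3 x l hl
  · intro z hz he
    have he1 := hpr z he
    have hJz : J z = {q z} := by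
      rw [hJ.sink z hz]
      exact if_pos he1
    obtain ⟨h, i, k, e, hk⟩ := hseen z hz he1
    -- the centre in the refined tree
    let S' : Sys C.H C.V := ⟨C.K, C.P, D', J', js'⟩
    obtain ⟨c, hcc⟩ := S'.cen (v := S'.tr h i) (S'.tr_E h i)
    have hc1 : S1.IsC (S1.tr h i) (pr c) := by
      intro k'
      exact (hcc k').imp (p3 _ _) (p3 _ _)
    have hc2 : S1.IsC (S1.tr h i) (q z) := fun k' => hk k'
    have hc3 : pr c = q z := S1.isC_unique (S1.tr_E h i) hc1 hc2
    have hmem : c ∈ J' z := by
      obtain ⟨l, hl, hl'⟩ := p4 z (q z) (by rw [show S1.J z = J z from rfl, hJz]; rfl)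
      rcases hcc k with h4 | h4
      · rw [e]
        exact h4
      · have e5 : C.K.E z (h • C.P.pt i (k + 1)) := by
          rw [e]
          exact C.K.E_smul h (C.P.E i k)
        obtain ⟨p, hp1, hp2⟩ := S'.one_ex e5
        have h8 : pr p = q z := by
          have := p3 _ _ hp1
          rw [show S1.J z = J z from rfl, hJz] at this
          exact this
        have h9 := p5 _ _ h4 _ hp2 (hc3.trans h8.symm)
        rw [h9]
        exact hp1
    refine ⟨c, h • C.P.pt i (k + 4), h • C.P.pt i (k + 1), h • C.P.pt i (k + 2),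
      h • C.P.pt i (k + 3), ?_, ?_, ?_⟩
    · ext l
      constructor
      · intro hl
        have h5 := p3 _ _ hl
        rw [show S1.J z = J z from rfl, hJz, Set.mem_singleton_iff] at h5
        exact p5 _ _ hl _ hmem (h5.trans hc3.symm)
      · rintro rfl
        exact hmem
    · have h6 := Pn_pt (P := C.P) h i (k + 4)
      have e1 : k + 4 + 1 = k := f41 k
      have e2 : k + 4 + 2 = k + 1 := by rw [add_assoc]; rfl
      have e3 : k + 4 + 3 = k + 2 := by rw [add_assoc]; rfl
      have e4 : k + 4 + 4 = k + 3 := by rw [add_assoc]; rfl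
      rw [e1, e2, e3, e4] at h6
      have e' : h • C.P.pt i k = z := e.symm
      rw [e'] at h6
      exact h6
    · have h7 := (Sys.ce_tr (S := S') (k + 4)).1 hcc
      have e1 : k + 4 + 1 = k := f41 k
      have e2 : k + 4 + 2 = k + 1 := by rw [add_assoc]; rfl
      have e3 : k + 4 + 3 = k + 2 := by rw [add_assoc]; rfl
      have e4 : k + 4 + 4 = k + 3 := by rw [add_assoc]; rfl
      rw [e1, e2, e3, e4] at h7
      have e' : S'.tr h i k = z := e.symm
      rw [e'] at h7
      exact h7
  · intro z hz he
    have he1 : ¬ Ell C.H D1.X z := fun h => he (hell' z h)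
    have hJz : J z = mst D1.G (stabilizer C.H z) := by
      rw [hJ.sink z hz]
      exact if_neg he1
    have hy : Hyp D'.X (stabilizer C.H z) := by
      unfold Ell at he
      push Not at he
      exact he
    have h1 : mst D'.G (stabilizer C.H z) ⊆ J' z := by
      intro w hw
      refine hw (J' z) (js'.conv z) (js'.ne z) ?_
      intro g hg c hc
      have := js'.smul g z c hc
      rwa [show g • z = z from hg] at this
    have h2 := axis D'.tact (stabilizer C.H z) (C.K.stab z) hy
    -- the image of the axis is convex and invariant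
    have h3 : mst D1.G (stabilizer C.H z) ⊆ pr '' (mst D'.G (stabilizer C.H z)) := by
      intro w hw
      refine hw _ ?_ ?_ ?_
      · rintro _ ⟨a, ha, rfl⟩ _ ⟨b, hb, rfl⟩ w hw
        obtain ⟨l, hl, hl'⟩ := walk_between D1.tree D'.tree pr (fun a b h => p2 a b h) _ a b rfl
          w hw
        exact ⟨l, h2.1 a ha b hb l hl', hl⟩
      · obtain ⟨w, hw⟩ := h2.2.1
        exact ⟨_, w, hw, rfl⟩
      · rintro g hg _ ⟨a, ha, rfl⟩
        refine ⟨g • a, ?_, p1 g a⟩
        intro Cc k1 k2 k3
        exact k3 g hg _ (ha Cc k1 k2 k3)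
    apply Set.Subset.antisymm _ h1
    intro l hl
    have h4 : pr l ∈ mst D1.G (stabilizer C.H z) := by
      rw [← hJz]
      exact p3 z l hl
    obtain ⟨m, hm, e⟩ := h3 h4
    rw [← p5 z m (h1 hm) l hl e]
    exact hm

/-- every decomposition of a candidate of the light world has an infinite edge group -/
theorem Cd.LW.exists_inf {C : Cd} (hC : C.LW) (D : Decomp C.H) : ∃ a b, D.G.Adj a b ∧
    Infinite ↥(stabilizer C.H a ⊓ stabilizer C.H b) := by
  obtain ⟨D', J', js, hg, -, hE⟩ := C.exists_sys' D
  obtain ⟨w, hw⟩ := exists_bad C.bad D'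
  obtain ⟨u, hu, hi⟩ := (hC.at (Sys.mk C.K C.P D' J' js) rfl hg hw).exists_inf
  obtain ⟨c, d, e, hle⟩ := hE _ _ hu
  exact ⟨c, d, e, Infinite.of_injective _ (Subgroup.inclusion_injective hle)⟩

/-- ... hence all edge groups are infinite if there is one orbit of edges -/
theorem Cd.LW.all_inf {C : Cd} (hC : C.LW) (D : Decomp C.H)
    (h1 : ∀ x y x' y', D.G.Adj x y → D.G.Adj x' y' →
      ∃ g : C.H, (g • x = x' ∧ g • y = y') ∨ (g • x = y' ∧ g • y = x')) {x y : D.X}
    (e : D.G.Adj x y) : Infinite ↥(stabilizer C.H x ⊓ stabilizer C.H y) := by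
  obtain ⟨a, b, hab, hi⟩ := hC.exists_inf D
  obtain ⟨g, ⟨g1, g2⟩ | ⟨g1, g2⟩⟩ := h1 _ _ _ _ hab e
  · subst g1 g2
    refine Infinite.of_injective (fun k : ↥(stabilizer C.H a ⊓ stabilizer C.H b) =>
      (⟨g * k.1 * g⁻¹, ?_, ?_⟩ : ↥(stabilizer C.H (g • a) ⊓ stabilizer C.H (g • b)))) ?_
    · have h : k.1 • a = a := k.2.1
      show (g * k.1 * g⁻¹) • g • a = g • a
      rw [mul_smul, mul_smul, inv_smul_smul, h]
    · have h : k.1 • b = b := k.2.2
      show (g * k.1 * g⁻¹) • g • b = g • b
      rw [mul_smul, mul_smul, inv_smul_smul, h]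
    · intro a b e
      have e' := congrArg Subtype.val e
      exact Subtype.ext (mul_left_cancel (mul_right_cancel e'))
  · subst g1 g2
    refine Infinite.of_injective (fun k : ↥(stabilizer C.H a ⊓ stabilizer C.H b) =>
      (⟨g * k.1 * g⁻¹, ?_, ?_⟩ : ↥(stabilizer C.H (g • b) ⊓ stabilizer C.H (g • a)))) ?_
    · have h : k.1 • b = b := k.2.2
      show (g * k.1 * g⁻¹) • g • b = g • b
      rw [mul_smul, mul_smul, inv_smul_smul, h]
    · have h : k.1 • a = a := k.2.1
      show (g * k.1 * g⁻¹) • g • a = g • a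
      rw [mul_smul, mul_smul, inv_smul_smul, h]
    · intro a b e
      have e' := congrArg Subtype.val e
      exact Subtype.ext (mul_left_cancel (mul_right_cancel e'))

end Pool.Agent.DI
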