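import Pool.Agent.DI.QK0c

/-!
# The unfolded slice as a complex with listed cells: the structure
-/

namespace Pool.Agent.DI

open MulAction
open Pool.Agent.SAF (InC orbs FinOrb oc Decomp SAn SA Conv hull dist_edge FinOrb_iff exists_next)
open Pool.Agent.BT (PX PQ JS bey exits lz lz_self lz_ne lz_symm x_next_unique)
open Pool.Agent.BT.TA

namespace SyQ

variable {H V : Type} [Group H] [MulAction H V] (S : SyQ H V)

theorem step_of_isC {v : Fin 5 → V} (hv : ∀ k, S.K.E (v k) (v (k + 1))) {w : S.X}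
    (h : S.IsC v w) (k : Fin 5) : S.SE w (S.rho w (v k)) (S.rho w (v (k + 1))) :=
  S.rho_step' (hv k) (h k)

/-- the four steps of a zero square -/
theorem steps_sq {v0 v1 v2 v3 v4 : V} {w u : S.X} (h : S.Sq w u v0 v1 v2 v3 v4)
    (e0 : S.K.E v0 v1) (e1 : S.K.E v1 v2) (e2 : S.K.E v2 v3) (e4 : S.K.E v4 v0) :
    S.SE w (S.rho w v0) (S.rho w v1) ∧ S.SE w (S.rho w v1) (S.rho w v2) ∧
      S.SE w (S.rho w v2) (S.rho w v3) ∧ S.SE w (S.rho w v3) (S.rho w v0) := by
  obtain ⟨hu, c0, c2, s1, s3, s4⟩ := h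
  refine ⟨S.rho_step' e0 (Or.inl c0.1), S.rho_step' e1 (Or.inr c2.1),
    S.rho_step' e2 (Or.inl c2.1), ?_⟩
  have := S.rho_step' e4 (Or.inr c0.1)
  rw [S.rho_bey hu s4] at this
  rw [S.rho_bey hu s3]
  exact this

theorem wk_cells (w : S.X) (c : S.CI w) : Wk (S.SE w) (S.cbS w c) (S.cwS w c) := by
  rcases c with i | p | p
  · have h := i.isC
    have hv := S.tr_E i.g i.2.1
    exact ⟨S.step_of_isC hv h 0, S.step_of_isC hv h 1, S.step_of_isC hv h 2,
      S.step_of_isC hv h 3, S.step_of_isC hv h 4, trivial⟩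
  · have hv := S.tr_E p.g p.2.1
    have e1 := hv (p.1.2.1 + 1)
    have e2 := hv (p.1.2.1 + 2)
    have e4 := hv (p.1.2.1 + 4)
    rw [q41] at e4
    rw [add_assoc] at e1 e2
    obtain ⟨a, b, c, d⟩ := S.steps_sq p.sq (hv p.1.2.1) e1 e2 e4
    exact ⟨a, b, c, d, trivial⟩
  · have hv := S.tq_E p.g p.2.1
    have st := S.nd_step hv p.nd
    exact ⟨S.rho_step' (hv 0) (st 0), S.rho_step' (hv 1) (st 1), S.rho_step' (hv 2) (st 2),
      S.rho_step' (hv 3) (st 3), trivial⟩

/-- degenerate squares -/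
theorem sum_deg {w : S.X} {φ : S.SV w → S.SV w → ZMod 2} (hs : ∀ x y, φ x y = φ y x)
    {v : Fin 4 → V} (h : ¬ S.ND w v) :
    lz φ (S.rho w (v 0)) (S.rho w (v 1)) + lz φ (S.rho w (v 1)) (S.rho w (v 2)) +
      lz φ (S.rho w (v 2)) (S.rho w (v 3)) + lz φ (S.rho w (v 3)) (S.rho w (v 0)) = 0 := by
  have hl := lz_symm φ hs
  have h' : S.rho w (v 0) = S.rho w (v 2) ∨ S.rho w (v 1) = S.rho w (v 3) := by
    by_contra hcon
    push Not at hcon
    exact h hcon
  rcases h' with e | e
  · rw [e, hl (S.rho w (v 1)) (S.rho w (v 2)), hl (S.rho w (v 3)) (S.rho w (v 2))]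
    have k1 := zz2 (lz φ (S.rho w (v 2)) (S.rho w (v 1)))
    have k2 := zz2 (lz φ (S.rho w (v 2)) (S.rho w (v 3)))
    linear_combination k1 + k2
  · rw [← e, hl (S.rho w (v 1)) (S.rho w (v 0)), hl (S.rho w (v 1)) (S.rho w (v 2))]
    have k1 := zz2 (lz φ (S.rho w (v 0)) (S.rho w (v 1)))
    have k2 := zz2 (lz φ (S.rho w (v 2)) (S.rho w (v 1)))
    linear_combination k1 + k2

/-- the sum along the image of a square -/
theorem h1_sq {w : S.X} {φ : S.SV w → S.SV w → ZMod 2} (hs : ∀ x y, φ x y = φ y x)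
    (hp : ∀ (c : S.CI w) (h : ↥(stabilizer H w)),
      ps φ (h • S.cbS w c) ((S.cwS w c).map (fun z => h • z)) = 0) {i : S.K.I} (hsq : S.P.sq i)
    (h : H) : ps (fun x y => lz φ (S.rho w x) (S.rho w y)) (h • S.K.cb i)
      ((S.K.cw i).map (fun z => h • z)) = 0 := by
  rw [S.P.ps4 _ hsq]
  by_cases hn : S.ND w (S.tq h i)
  · let c : S.C4q w := ⟨(i, h⁻¹ • w), hsq, h, smul_inv_smul h w, hn⟩
    have hgs : c.g • h⁻¹ • w = w := c.g_smul
    have hmem : (h * c.g⁻¹) • w = w := by
      have h3 : c.g⁻¹ • w = h⁻¹ • w := inv_smul_eq_iff.2 hgs.symm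
      rw [mul_smul, h3, smul_inv_smul]
    have := hp (Sum.inr (Sum.inr c)) ⟨h * c.g⁻¹, hmem⟩
    have e : ∀ j, (⟨h * c.g⁻¹, hmem⟩ : ↥(stabilizer H w)) • S.rho w (S.tq c.g i j) =
        S.rho w (S.tq h i j) := by
      intro j
      rw [← S.rho_smul]
      show S.rho w ((h * c.g⁻¹) • c.g • S.P.qt i j) = S.rho w (h • S.P.qt i j)
      rw [smul_smul, inv_mul_cancel_right]
    have hc1 : c.1.1 = i := rfl
    simp only [cbS, cwS, List.map_cons, List.map_nil, ps_cons, ps_nil] at this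
    rw [hc1, e, e, e, e] at this
    have hv := S.tq_E h hsq
    have st := S.nd_step hv hn
    have n0 : lz φ (S.rho w (S.tq h i 0)) (S.rho w (S.tq h i 1)) = _ :=
      S.lz_near (φ := φ) (hv 0) (st 0)
    have n1 : lz φ (S.rho w (S.tq h i 1)) (S.rho w (S.tq h i 2)) = _ :=
      S.lz_near (φ := φ) (hv 1) (st 1)
    have n2 : lz φ (S.rho w (S.tq h i 2)) (S.rho w (S.tq h i 3)) = _ :=
      S.lz_near (φ := φ) (hv 2) (st 2)
    have n3 : lz φ (S.rho w (S.tq h i 3)) (S.rho w (S.tq h i 0)) = _ :=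
      S.lz_near (φ := φ) (hv 3) (st 3)
    show lz φ (S.rho w (S.tq h i 0)) (S.rho w (S.tq h i 1)) +
      lz φ (S.rho w (S.tq h i 1)) (S.rho w (S.tq h i 2)) +
      lz φ (S.rho w (S.tq h i 2)) (S.rho w (S.tq h i 3)) +
      lz φ (S.rho w (S.tq h i 3)) (S.rho w (S.tq h i 0)) = 0
    rw [n0, n1, n2, n3]
    linear_combination this
  · exact S.sum_deg hs hn

/-- `H^1 = 0` -/
theorem h1_slice (hc : S.Conn) (w : S.X) (φ : S.SV w → S.SV w → ZMod 2)
    (hs : ∀ x y, φ x y = φ y x)
    (hp : ∀ (c : S.CI w) (h : ↥(stabilizer H w)),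
      ps φ (h • S.cbS w c) ((S.cwS w c).map (fun z => h • z)) = 0) :
    ∃ g : S.SV w → ZMod 2, ∀ x y, S.SE w x y → φ x y = g x + g y := by
  classical
  obtain ⟨g, hg⟩ := S.K.H1 (fun x y => lz φ (S.rho w x) (S.rho w y))
    (fun x y => lz_symm φ hs _ _)
    (fun i h => by
      by_cases hsq : S.P.sq i
      · exact S.h1_sq hs hp hsq h
      rw [S.P.ps5 _ hsq]
      have hv := S.tr_E h hsq
      by_cases hw : S.IsC (S.tr h i) w
      · -- centred at `w`
        have hi : ∃ k : H, S.IsC (S.tr k i) w := ⟨h, hw⟩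
        let c : S.C5 w := ⟨i, hsq, hi⟩
        have hcc := c.isC
        have h1 : S.IsC (S.tr h i) ((h * c.g⁻¹) • w) := by
          have := (S.isC_smul (h * c.g⁻¹) c.g i w).2 hcc
          rwa [inv_mul_cancel_right] at this
        have hmem : (h * c.g⁻¹) • w = w := S.isC_unique hv h1 hw
        have := hp (Sum.inl c) ⟨h * c.g⁻¹, hmem⟩
        have e : ∀ k, (⟨h * c.g⁻¹, hmem⟩ : ↥(stabilizer H w)) • S.rho w (S.tr c.g i k) =
            S.rho w (S.tr h i k) := by
          intro k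
          rw [← S.rho_smul]
          show S.rho w ((h * c.g⁻¹) • c.g • S.P.pt i k) = S.rho w (h • S.P.pt i k)
          rw [smul_smul, inv_mul_cancel_right]
        simp only [cbS, cwS, List.map_cons, List.map_nil, ps_cons, ps_nil] at this
        rw [e, e, e, e, e] at this
        rw [Fin.sum_univ_five]
        show lz φ (S.rho w (S.tr h i 0)) (S.rho w (S.tr h i 1)) +
          lz φ (S.rho w (S.tr h i 1)) (S.rho w (S.tr h i 2)) +
          lz φ (S.rho w (S.tr h i 2)) (S.rho w (S.tr h i 3)) +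
          lz φ (S.rho w (S.tr h i 3)) (S.rho w (S.tr h i 4)) +
          lz φ (S.rho w (S.tr h i 4)) (S.rho w (S.tr h i 0)) = 0
        have n0 := S.lz_near (φ := φ) (hv 0) (hw 0)
        have n1 := S.lz_near (φ := φ) (hv 1) (hw 1)
        have n2 := S.lz_near (φ := φ) (hv 2) (hw 2)
        have n3 := S.lz_near (φ := φ) (hv 3) (hw 3)
        have n4 := S.lz_near (φ := φ) (hv 4) (hw 4)
        have n0' : lz φ (S.rho w (S.tr h i 0)) (S.rho w (S.tr h i 1)) =
          φ (S.rho w (S.tr h i 0)) (S.rho w (S.tr h i 1)) := n0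
        have n1' : lz φ (S.rho w (S.tr h i 1)) (S.rho w (S.tr h i 2)) =
          φ (S.rho w (S.tr h i 1)) (S.rho w (S.tr h i 2)) := n1
        have n2' : lz φ (S.rho w (S.tr h i 2)) (S.rho w (S.tr h i 3)) =
          φ (S.rho w (S.tr h i 2)) (S.rho w (S.tr h i 3)) := n2
        have n3' : lz φ (S.rho w (S.tr h i 3)) (S.rho w (S.tr h i 4)) =
          φ (S.rho w (S.tr h i 3)) (S.rho w (S.tr h i 4)) := n3
        have n4' : lz φ (S.rho w (S.tr h i 4)) (S.rho w (S.tr h i 0)) =
          φ (S.rho w (S.tr h i 4)) (S.rho w (S.tr h i 0)) := n4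
        rw [n0', n1', n2', n3', n4']
        linear_combination this
      · obtain ⟨u, hu, hcase⟩ := S.off_cases hv hw
        rcases hcase with ⟨k, hk⟩ | hk
        · -- a zero square
          have hsum := S.sum_sq (φ := φ) hs hv hk
          show ∑ j : Fin 5, lz φ (S.rho w (S.tr h i j)) (S.rho w (S.tr h i (j + 1))) = 0
          rw [hsum]
          have hq : ∃ u', S.Sq (h⁻¹ • w) u' (S.P.pt i k) (S.P.pt i (k + 1)) (S.P.pt i (k + 2))
              (S.P.pt i (k + 3)) (S.P.pt i (k + 4)) := by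
            refine ⟨h⁻¹ • u, ?_⟩
            have := hk.smul h⁻¹
            simp only [tr, inv_smul_smul] at this
            exact this
          let c : S.C4 w := ⟨(i, k, h⁻¹ • w), hsq, ⟨h, smul_inv_smul h w⟩, hq⟩
          have hgs : c.g • h⁻¹ • w = w := c.g_smul
          have hmem : (h * c.g⁻¹) • w = w := by
            have h3 : c.g⁻¹ • w = h⁻¹ • w := inv_smul_eq_iff.2 hgs.symm
            rw [mul_smul, h3, smul_inv_smul]
          have := hp (Sum.inr (Sum.inl c)) ⟨h * c.g⁻¹, hmem⟩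
          have e : ∀ j, (⟨h * c.g⁻¹, hmem⟩ : ↥(stabilizer H w)) • S.rho w (S.tr c.g i j) =
              S.rho w (S.tr h i j) := by
            intro j
            rw [← S.rho_smul]
            show S.rho w ((h * c.g⁻¹) • c.g • S.P.pt i j) = S.rho w (h • S.P.pt i j)
            rw [smul_smul, inv_mul_cancel_right]
          simp only [cbS, cwS, List.map_cons, List.map_nil] at this
          have hc1 : c.1.1 = i := rfl
          have hc2 : c.1.2.1 = k := rfl
          rw [hc1, hc2, e, e, e, e] at this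
          exact this
        · exact S.sum_off hs hu hk)
  -- the function on the slice
  have hx : ∀ u : S.EV w, ∃ x, S.Cs w u.1 x := fun u => hc.crossed w u.1 u.2
  refine ⟨Sum.elim (fun x => g x.1) (fun u => g (hx u).choose +
    φ (S.rho w (hx u).choose) (Sum.inr u)), ?_⟩
  have main : ∀ a b, S.SAr w a b → φ a b =
      Sum.elim (fun x : S.NV w => g x.1) (fun u => g (hx u).choose +
        φ (S.rho w (hx u).choose) (Sum.inr u)) a +
      Sum.elim (fun x : S.NV w => g x.1) (fun u => g (hx u).choose +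
        φ (S.rho w (hx u).choose) (Sum.inr u)) b := by
    rintro a b (⟨x, a, e⟩ | ⟨x, u, e⟩)
    · have h1 := hg x.1 a.1 (Or.inl e)
      rw [S.lz_near (Or.inl e) (Or.inl x.2), S.rho_near x.2, S.rho_near a.2] at h1
      exact h1
    · have h1 := wall_const' hc hs hg u.2 (x := x.1) (z := (hx u).choose) ⟨x.2, e⟩
        (hx u).choose_spec
      have h2 : g x.1 + φ (Sum.inl x) (Sum.inr u) = g (hx u).choose +
          φ (S.rho w (hx u).choose) (Sum.inr u) := by
        have h3 : S.rho w x.1 = Sum.inl x := S.rho_near x.2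
        rw [← h3]
        exact h1
      show φ (Sum.inl x) (Sum.inr u) = g x.1 + (g (hx u).choose +
          φ (S.rho w (hx u).choose) (Sum.inr u))
      rw [← h2]
      have k := zz2 (g x.1)
      linear_combination - k
  rintro a b (e | e)
  · exact main a b e
  · rw [hs, main b a e, add_comm]

theorem conn_slice (hc : S.Conn) (w : S.X) (a b : S.SV w) :
    Relation.ReflTransGen (fun a b => S.SAr w a b ∨ S.SAr w b a) a b := by
  have near : ∀ x y,
      Relation.ReflTransGen (fun a b : S.SV w => S.SAr w a b ∨ S.SAr w b a)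
        (S.rho w x) (S.rho w y) := by
    intro x y
    have h := S.K.conn x y
    induction h with
    | refl => exact Relation.ReflTransGen.refl
    | tail _ e ih =>
      rename_i b c _
      rcases S.rho_step (w := w) e with ⟨_, _, h⟩ | h
      · rw [← h]; exact ih
      · exact ih.tail h
  have tonear : ∀ a : S.SV w, ∃ x, w ∈ S.J x ∧
      Relation.ReflTransGen (fun a b : S.SV w => S.SAr w a b ∨ S.SAr w b a) a (S.rho w x) ∧
      Relation.ReflTransGen (fun a b : S.SV w => S.SAr w a b ∨ S.SAr w b a) (S.rho w x) a := by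
    rintro (x | u)
    · refine ⟨x.1, x.2, ?_, ?_⟩
      · rw [S.rho_near x.2]
        exact Relation.ReflTransGen.refl
      · rw [S.rho_near x.2]
        exact Relation.ReflTransGen.refl
    · obtain ⟨x, hx⟩ := hc.crossed w u.1 u.2
      have e : S.SAr w (Sum.inl ⟨x, hx.1⟩) (Sum.inr u) := SAr.up (S := S) ⟨x, hx.1⟩ u hx.2
      refine ⟨x, hx.1, ?_, ?_⟩
      · rw [S.rho_near hx.1]
        exact Relation.ReflTransGen.single (Or.inr e)
      · rw [S.rho_near hx.1]
        exact Relation.ReflTransGen.single (Or.inl e)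
  obtain ⟨x, hx, h1, _⟩ := tonear a
  obtain ⟨y, hy, _, h2⟩ := tonear b
  exact h1.trans ((near x y).trans h2)

/-- THE UNFOLDED SLICE at `w` -/
noncomputable def k0 (hc : S.Conn) (w : S.X) : GX ↥(stabilizer H w) (S.SV w) where
  ar := S.SAr w
  rk := S.rkS w
  I := S.CI w
  finI := by
    have := S.finC5 w
    have := S.finC4 w
    have := S.finC4q w
    infer_instance
  cb := S.cbS w
  cw := S.cwS w
  ar_rk _ _ e := rkS_lt e
  ar_smul h _ _ e := e.smul h
  rk_smul := by
    rintro h (x | u)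
    · show S.K.rk (h.1 • x.1) + 1 = S.K.rk x.1 + 1
      rw [S.K.rk_smul]
    · rfl
  two := SAr.two
  c_E := S.wk_cells w
  c_tg := by
    rintro (i | p | p)
    · rfl
    · rfl
    · rfl
  ne := by
    obtain ⟨x, hx⟩ := hc.near w
    exact ⟨Sum.inl ⟨x, hx⟩⟩
  conn := S.conn_slice hc w
  H1 φ hs hp := S.h1_slice hc w φ hs hp
  fin := S.finOrb_SV w
  stab := S.inC_SV w

/-- its cells are pentagons and squares -/
noncomputable def k0P (hc : S.Conn) (w : S.X) : P45 (S.k0 hc w) where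
  sq c := ∃ p, c = Sum.inr p
  pt
    | Sum.inl i => fun k => S.rho w (S.tr i.g i.1 k)
    | Sum.inr p => fun _ => S.cbS w (Sum.inr p)
  qt
    | Sum.inl i => fun _ => S.cbS w (Sum.inl i)
    | Sum.inr (Sum.inl p) => ![S.rho w (S.tr p.g p.1.1 p.1.2.1),
        S.rho w (S.tr p.g p.1.1 (p.1.2.1 + 1)), S.rho w (S.tr p.g p.1.1 (p.1.2.1 + 2)),
        S.rho w (S.tr p.g p.1.1 (p.1.2.1 + 3))]
    | Sum.inr (Sum.inr p) => fun k => S.rho w (S.tq p.g p.1.1 k)
  cb5 := by
    rintro (i | p) h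
    · rfl
    · exact absurd ⟨p, rfl⟩ h
  cw5 := by
    rintro (i | p) h
    · rfl
    · exact absurd ⟨p, rfl⟩ h
  cb4 := by
    rintro (i | p | p) h
    · obtain ⟨p, h⟩ := h
      cases h
    · rfl
    · rfl
  cw4 := by
    rintro (i | p | p) h
    · obtain ⟨p, h⟩ := h
      cases h
    · rfl
    · rfl

/-- the area of the slice: the number of pentagons with centre in the orbit of `w` -/
theorem k0_area (hc : S.Conn) (w : S.X) : (S.k0 hc w).area = Nat.card (S.C5 w) := by
  classical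
  have := S.finC5 w
  have := S.finC4 w
  have := S.finC4q w
  let f5 := Fintype.ofFinite (S.C5 w)
  let f4 := Fintype.ofFinite (S.C4 w ⊕ S.C4q w)
  show ∑ᶠ c : S.CI w, ((S.cwS w c).length - 4) = _
  rw [finsum_eq_sum_of_fintype, Fintype.sum_sum_type, Nat.card_eq_fintype_card]
  have h1 : ∀ i : S.C5 w, (S.cwS w (Sum.inl i)).length - 4 = 1 := fun _ => rfl
  have h2 : ∀ i : S.C4 w ⊕ S.C4q w, (S.cwS w (Sum.inr i)).length - 4 = 0 := by
    rintro (p | p)
    · rfl
    · rfl
  rw [Finset.sum_congr rfl (fun i _ => h1 i), Finset.sum_congr rfl (fun i _ => h2 i)]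
  simp

end SyQ

/-- the area: the number of pentagons -/
theorem P45.area_eq {H V : Type} [Group H] [MulAction H V] {K : GX H V} (P : P45 K) :
    K.area = Nat.card {i : K.I // ¬ P.sq i} := by
  classical
  have := K.finI
  let ft := Fintype.ofFinite K.I
  rw [K.area_eq, Nat.card_eq_fintype_card, Fintype.card_subtype, Finset.card_filter]
  apply Finset.sum_congr rfl
  intro i _
  by_cases h : P.sq i
  · rw [P.cw4 i h, if_neg (fun k => k h)]
    rfl
  · rw [P.cw5 i h, if_pos h]
    rfl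

namespace SyQ

variable {H V : Type} [Group H] [MulAction H V] (S : SyQ H V)

theorem k0_area_le (hc : S.Conn) (w : S.X) : (S.k0 hc w).area ≤ S.K.area := by
  classical
  rw [S.k0_area]
  have := S.K.finI
  rw [S.P.area_eq]
  exact Nat.card_le_card_of_injective (fun i : S.C5 w => (⟨i.1, i.2.1⟩ : {i : S.K.I // ¬ S.P.sq i}))
    (fun a b h => Subtype.ext (congrArg (fun z : {i : S.K.I // ¬ S.P.sq i} => z.1) h))

end SyQ

end Pool.Agent.DI
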