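import Pool.Agent.DI.QTrkC
import Pool.Agent.DI.QK0d
import Pool.Agent.DI.LightD
import Pool.Agent.DI.FlipR

/-!
# DI/SeenQ: good systems of complexes with pentagons and squares

`SyQ.GdQ Z`: walls and slices are connected, elliptic vertices have finite subtrees, elliptic sinks one
point, every elliptic sink in `Z` lies in a pentagon whose centre is its point, hyperbolic sinks have
their axis. `P45.exists_sysQ`: existence, for every decomposition `D` and all prescribed places `q0`
of the elliptic sinks outside `Z` such that the two ends of a heavy arrow have the same place; then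
both ends of a heavy arrow have one and the same point.
-/

namespace Pool.Agent.DI

open MulAction
open Pool.Agent.SAF (InC orbs FinOrb oc Decomp SAn SA Conv exists_next)
open Pool.Agent.BT (PX PQ JS bey exits MinSub Ell mst Hyp Lq mst_conv axis)

section

variable {H V : Type} [Group H] [MulAction H V] {K : GX H V}

/-- the pentagons of a complex with pentagons and squares -/
def P45.px (P : P45 K) : PX H V where
  ar := K.ar
  rk := K.rk
  I := {i : K.I // ¬ P.sq i}
  finI := P.pq.finI
  pt i := P.pt i.1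
  ar_rk := K.ar_rk
  ar_smul := K.ar_smul
  rk_smul := K.rk_smul
  two := K.two
  pt_E i j := P.E5 i.2 j
  ne := K.ne
  conn := K.conn
  H1 := P.pq.H1
  fin := K.fin
  stab := K.stab

theorem P45.px_pq (P : P45 K) : P.px.pq = P.pq := rfl

variable {P : P45 K}

theorem Qn.px_cor {a q b y z : V} (h : Qn P a q b y z) : P.px.Cor a q b := by
  obtain ⟨g, i, j, hi, ⟨h1, h2, h3, -, -⟩ | ⟨h1, h2, h3, -, -⟩⟩ := h
  · exact ⟨g, ⟨i, hi⟩, j, Or.inl ⟨h1, h2, h3⟩⟩
  · exact ⟨g, ⟨i, hi⟩, j, Or.inr ⟨h1, h2, h3⟩⟩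

theorem Qn.px_inP {a q b y z : V} (h : Qn P a q b y z) : P.px.InP a q := by
  obtain ⟨g, i, j, hi, ⟨h1, h2, -, -, -⟩ | ⟨-, h2, h3, -, -⟩⟩ := h
  · exact ⟨g, ⟨i, hi⟩, j, Or.inl ⟨h1, h2⟩⟩
  · refine ⟨g, ⟨i, hi⟩, j + 1, Or.inr ⟨h2, ?_⟩⟩
    rw [h3, add_assoc]
    rfl

variable (P)

/-- the corners of a complex with pentagons and squares -/
theorem P45.cor_iff {a v b : V} :
    K.Cor a v b ↔ (∃ y z, Qn P a v b y z) ∨ ∃ y, Q4 P a v b y := by
  have e5 : ∀ (i : K.I) (h : H), ¬ P.sq i → K.tb i h = h • P.pt i 0 ∧ K.tw i h = [h • P.pt i 1,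
      h • P.pt i 2, h • P.pt i 3, h • P.pt i 4, h • P.pt i 0] := by
    intro i h hi
    unfold GX.tb GX.tw
    rw [P.cb5 i hi, P.cw5 i hi]
    exact ⟨rfl, rfl⟩
  have e4 : ∀ (i : K.I) (h : H), P.sq i → K.tb i h = h • P.qt i 0 ∧ K.tw i h = [h • P.qt i 1,
      h • P.qt i 2, h • P.qt i 3, h • P.qt i 0] := by
    intro i h hi
    unfold GX.tb GX.tw
    rw [P.cb4 i hi, P.cw4 i hi]
    exact ⟨rfl, rfl⟩
  have c4 : ∀ (f : Fin 4 → V) (a v b : V), CC a v b (f 0) [f 1, f 2, f 3, f 0] ↔
      ∃ k : Fin 4, a = f k ∧ v = f (k + 1) ∧ b = f (k + 2) := by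
    intro f a v b
    rw [CC4]
    constructor
    · rintro (h | h | h | h)
      · exact ⟨0, h⟩
      · exact ⟨1, h⟩
      · exact ⟨2, h⟩
      · exact ⟨3, h⟩
    · rintro ⟨k, h⟩
      fin_cases k
      · exact Or.inl h
      · exact Or.inr (Or.inl h)
      · exact Or.inr (Or.inr (Or.inl h))
      · exact Or.inr (Or.inr (Or.inr h))
  constructor
  · rintro ⟨i, h, hh⟩
    by_cases hi : P.sq i
    · right
      rw [(e4 i h hi).1, (e4 i h hi).2] at hh
      rcases hh with hh | hh
      · obtain ⟨k, h1, h2, h3⟩ := (c4 (fun j => h • P.qt i j) _ _ _).1 hh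
        exact ⟨_, h, i, k, hi, Or.inl ⟨h1, h2, h3, rfl⟩⟩
      · obtain ⟨k, h1, h2, h3⟩ := (c4 (fun j => h • P.qt i j) _ _ _).1 hh
        exact ⟨_, h, i, k, hi, Or.inr ⟨h1, h2, h3, rfl⟩⟩
    · left
      rw [(e5 i h hi).1, (e5 i h hi).2] at hh
      rcases hh with hh | hh
      · obtain ⟨k, h1, h2, h3⟩ := (CC5 (fun j => h • P.pt i j)).1 hh
        exact ⟨_, _, h, i, k, hi, Or.inl ⟨h1, h2, h3, rfl, rfl⟩⟩
      · obtain ⟨k, h1, h2, h3⟩ := (CC5 (fun j => h • P.pt i j)).1 hh
        exact ⟨_, _, h, i, k, hi, Or.inr ⟨h1, h2, h3, rfl, rfl⟩⟩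
  · rintro (⟨y, z, h, i, k, hi, hh⟩ | ⟨y, h, i, k, hi, hh⟩)
    · rcases hh with ⟨h1, h2, h3, -, -⟩ | ⟨h1, h2, h3, -, -⟩
      · refine ⟨i, h, Or.inl ?_⟩
        rw [(e5 i h hi).1, (e5 i h hi).2]
        exact (CC5 (fun j => h • P.pt i j)).2 ⟨k, h1, h2, h3⟩
      · refine ⟨i, h, Or.inr ?_⟩
        rw [(e5 i h hi).1, (e5 i h hi).2]
        exact (CC5 (fun j => h • P.pt i j)).2 ⟨k, h1, h2, h3⟩
    · rcases hh with ⟨h1, h2, h3, -⟩ | ⟨h1, h2, h3, -⟩
      · refine ⟨i, h, Or.inl ?_⟩
        rw [(e4 i h hi).1, (e4 i h hi).2]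
        exact (c4 (fun j => h • P.qt i j) _ _ _).2 ⟨k, h1, h2, h3⟩
      · refine ⟨i, h, Or.inr ?_⟩
        rw [(e4 i h hi).1, (e4 i h hi).2]
        exact (c4 (fun j => h • P.qt i j) _ _ _).2 ⟨k, h1, h2, h3⟩

/-- the vertex lies in no square -/
def P45.NoQ (z : V) : Prop := ∀ a b y, ¬ Q4 P a z b y

variable {P}

theorem P45.NoQ.smul {z : V} (hz : P.NoQ z) (g : H) : P.NoQ (g • z) := by
  intro a b y h
  have := h.smul g⁻¹
  rw [inv_smul_smul] at this
  exact hz _ _ _ this

theorem P45.NoQ.cor {z a b : V} (hz : P.NoQ z) (h : K.Cor a z b) : ∃ x y, Qn P a z b x y := by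
  rcases P.cor_iff.1 h with h | ⟨y, h⟩
  · exact h
  · exact absurd h (hz _ _ _)

theorem P45.NoQ.ncor {z a b : V} (hz : P.NoQ z) (h : K.Cor z a b) :
    ∃ x y, Qn P z a b x y := by
  rcases P.cor_iff.1 h with h | ⟨y, h⟩
  · exact h
  · exact absurd h.rot.rot.rot (hz _ _ _)

/-- edges at a vertex in no square are in pentagons -/
theorem P45.NoQ.inP (hl : ∀ v, K.LC v) (hb : ¬ SA H) {z : V} (hz : P.NoQ z) {y : V}
    (e : K.E z y) : P.px.InP z y := by
  rcases K.edge_corner hl hb e with ⟨b, -, h⟩ | ⟨b, -, h⟩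
  · obtain ⟨x', y', h⟩ := hz.cor h
    exact h.px_inP.symm
  · obtain ⟨x', y', h⟩ := hz.ncor h
    exact h.px_inP

/-- the link of a vertex in no square -/
theorem P45.NoQ.link (hl : ∀ v, K.LC v) {x : V} (hx : P.NoQ x) {y z : V} (hy : K.E x y)
    (hz : K.E x z) : Relation.ReflTransGen (fun a b => P.px.Cor a x b) y z := by
  have h := hl x y z hy hz
  have hsym : ∀ a b : V, Relation.ReflTransGen (fun a b => P.px.Cor a x b) a b →
      Relation.ReflTransGen (fun a b => P.px.Cor a x b) b a := by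
    intro a b k
    induction k with
    | refl => exact Relation.ReflTransGen.refl
    | tail _ k ih =>
      refine Relation.ReflTransGen.head ?_ ih
      obtain ⟨g, i, j, k⟩ := k
      exact ⟨g, i, j, Or.symm k⟩
  have key : ∀ a b, Relation.EqvGen (fun a b => K.Cor a x b) a b →
      Relation.ReflTransGen (fun a b => P.px.Cor a x b) a b := by
    intro a b k
    induction k with
    | rel a b h =>
      obtain ⟨y, z, h⟩ := hx.cor h
      exact Relation.ReflTransGen.single h.px_cor
    | refl a => exact Relation.ReflTransGen.refl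
    | symm a b _ ih => exact hsym _ _ ih
    | trans a b c _ _ i1 i2 => exact i1.trans i2
  exact key y z h

end

namespace SyQ

variable {H V : Type} [Group H] [MulAction H V]

/-- a good system; the elliptic sinks in `Z` are seen -/
structure GdQ (S : SyQ H V) (Z : V → Prop) : Prop where
  conn : S.Conn
  soft : ∀ x a, S.K.ar x a → Ell H S.X x
  fin : ∀ x, Ell H S.X x → (S.J x).Finite
  one : ∀ z, (∀ a, ¬ S.K.ar z a) → Ell H S.X z → ∃ p, S.J z = {p}
  seen : ∀ z, (∀ a, ¬ S.K.ar z a) → Z z → Ell H S.X z → ∃ p b c y y', S.J z = {p} ∧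
    Qn S.P b z c y y' ∧ S.IsC ![b, z, c, y, y'] p
  ax : ∀ z, (∀ a, ¬ S.K.ar z a) → ¬ Ell H S.X z → S.J z = mst S.D.G (stabilizer H z)

/-- both ends of the arrow have one and the same point -/
def Tog (S : SyQ H V) (x a : V) : Prop := ∃ p, S.J x = {p} ∧ S.J a = {p}

end SyQ

theorem inf_of_arrow {H V : Type} [Group H] [MulAction H V] {x a : V}
    (hi : Infinite ↥(stabilizer H ((x, a) : V × V))) : Infinite ↥(stabilizer H x) := by
  refine Infinite.of_injective (fun g : ↥(stabilizer H ((x, a) : V × V)) =>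
    (⟨g.1, congrArg Prod.fst g.2⟩ : ↥(stabilizer H x))) ?_
  intro a b e
  have e' := congrArg Subtype.val e
  exact Subtype.ext e'

/-- EXISTENCE OF A GOOD SYSTEM, with prescribed places of the elliptic sinks outside `Z` -/
theorem P45.exists_sysQ {H V : Type} [Group H] [MulAction H V] {K : GX H V} (P : P45 K)
    (Z : V → Prop) (hZs : ∀ (h : H) x, Z x → Z (h • x))
    (hA : ∀ x, Z x → ∀ y, K.E x y → P.px.InP x y)
    (hL : ∀ x, Z x → ∀ y z, K.E x y → K.E x z →
      Relation.ReflTransGen (fun a b => P.px.Cor a x b) y z) (D : Decomp H)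
    (q0 : V → D.X) (hq0 : ∀ (h : H) (x : V), Ell H D.X x → q0 (h • x) = h • q0 x)
    (hC : ∀ {D : Decomp H} {J : V → Set D.X}, JS P.pq D J → ∀ (i : P.pq.I) (c : D.X),
      (∀ k, c ∈ J (P.pq.pt i k) ∪ J (P.pq.pt i (k + 1))) → ¬ InC ↥(stabilizer H c))
    (hsoft : ∀ (D : Decomp H) (x a : V), K.ar x a → Ell H D.X x)
    (hh : ∀ x a, K.ar x a → Infinite ↥(stabilizer H ((x, a) : V × V)) →
      Ell H D.X a ∧ ¬ Z a ∧ q0 x = q0 a) :
    ∃ (D' : Decomp H) (J' : V → Set D'.X) (js : JS P.pq D' J') (Y : Type) (_ : MulAction H Y)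
      (v : D.X → Y) (pr : D'.X → Y),
      (SyQ.mk K P D' J' js).GdQ Z ∧ (∀ x : V, Ell H D'.X x → Ell H D.X x) ∧
      (∀ x a, K.ar x a → Infinite ↥(stabilizer H ((x, a) : V × V)) →
        (SyQ.mk K P D' J' js).Tog x a) ∧
      (∀ a b, D'.G.Adj a b → ∃ c d, D.G.Adj c d ∧
        stabilizer H a ⊓ stabilizer H b ≤ stabilizer H c ⊓ stabilizer H d) ∧
      (∀ (h : H) w, v (h • w) = h • v w) ∧ Function.Injective v ∧
      (∀ (h : H) w, pr (h • w) = h • pr w) ∧
      (∀ z, (∀ a, ¬ K.ar z a) → ¬ Z z → Ell H D'.X z → ∀ l ∈ J' z, pr l = v (q0 z)) ∧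
      (∀ x a, K.ar x a → Infinite ↥(stabilizer H ((x, a) : V × V)) →
        ∀ l, (l ∈ J' x ∨ l ∈ J' a) → pr l = v (q0 a)) := by
  classical
  obtain ⟨D1, v, q, J, hQ, hJ, js, hfin, hell, hedge, hv, hvi, hqz, hseen⟩ :=
    FR.exists_seen_rel (K := P.px) Z hZs hA hL D q0 hq0 hC hsoft
  let S1 : SyQ H V := ⟨K, P, D1, J, js⟩
  obtain ⟨D', J', js', pr, hc, p1, p2, p3, p4, p5⟩ := SyQ.exists_conn S1
  have hell1 : ∀ x : V, Ell H D.X x → Ell H D1.X x := by
    rintro x ⟨c, hc⟩
    exact ⟨v c, fun g hg => by rw [← hv, hc g hg]⟩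
  have hpr : ∀ x : V, Ell H D'.X x → Ell H D1.X x := by
    rintro x ⟨c, hc⟩
    exact ⟨pr c, fun g hg => by rw [← p1, hc g hg]⟩
  have hell' : ∀ x : V, Ell H D1.X x → Ell H D'.X x := by
    intro x hx
    by_contra hcon
    -- `J' x` is finite and invariant
    have hf : (J' x).Finite := by
      apply Set.Finite.of_finite_image ((hfin x hx).subset _)
      · intro l hl m hm e
        exact p5 x l hl m hm e
      · rintro _ ⟨l, hl, rfl⟩
        exact p3 x l hl
    have hy : Hyp D'.X (stabilizer H x) := by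
      unfold Ell at hcon
      push Not at hcon
      exact hcon
    have h1 : mst D'.G (stabilizer H x) ⊆ J' x := by
      intro w hw
      refine hw (J' x) (js'.conv x) (js'.ne x) ?_
      intro g hg c hc
      have := js'.smul g x c hc
      rwa [show g • x = x from hg] at this
    have h2 := axis D'.tact (stabilizer H x) (K.stab x) hy
    -- a hyperbolic element has an infinite orbit in the finite set
    obtain ⟨w, hw⟩ := h2.2.1
    have hfm : (mst D'.G (stabilizer H x)).Finite := hf.subset h1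
    -- the stabiliser of `w` in the group has finite index and is finite: then the group is finite
    have hst : Finite ↥(stabilizer H x ⊓ stabilizer H w) :=
      BT.finite_of_hyp D'.tact (K.stab x) hy inf_le_left (w := w) (fun b hb => hb.2)
    have horb : (MulAction.orbit ↥(stabilizer H x) w).Finite := by
      apply hfm.subset
      rintro _ ⟨g, rfl⟩
      intro Cc h1 h2 h3
      exact h3 g.1 g.2 _ (hw Cc h1 h2 h3)
    have hfg : Finite ↥(stabilizer H x) := by
      have : Finite (MulAction.orbit ↥(stabilizer H x) w) := horb.to_subtype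
      have h4 : Finite (↥(stabilizer H x) ⧸ stabilizer ↥(stabilizer H x) w) :=
        Finite.of_equiv _ (MulAction.orbitEquivQuotientStabilizer _ w)
      have h5 : Finite ↥(stabilizer ↥(stabilizer H x) w) := by
        refine Finite.of_injective (fun g : ↥(stabilizer ↥(stabilizer H x) w) =>
          (⟨g.1.1, g.1.2, g.2⟩ : ↥(stabilizer H x ⊓ stabilizer H w))) ?_
        intro a b e
        have e' := congrArg Subtype.val e
        exact Subtype.ext (Subtype.ext e')
      exact Finite.of_equiv _ (Subgroup.groupEquivQuotientProdSubgroup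
        (s := stabilizer ↥(stabilizer H x) w)).symm
    have := D'.tree.connected.nonempty
    obtain ⟨z, hz⟩ := Pool.Agent.SAG.fix_of_finite D'.tact _ hfg
    exact hcon ⟨z, hz⟩
  have hJ1 : ∀ z, (∀ a, ¬ K.ar z a) → Ell H D1.X z → J z = {q z} := by
    intro z hz he
    rw [hJ.sink z hz]
    exact if_pos he
  have hJq : ∀ z, (∀ a, ¬ K.ar z a) → ¬ Z z → Ell H D1.X z → J z = {v (q0 z)} := by
    intro z hz hz' he
    rw [hJ1 z hz he, hqz z he hz']
  -- heavy arrows in the first system
  have hhv : ∀ (n : ℕ) (a : V), K.rk a = n → ((∃ x, K.ar x a ∧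
      Infinite ↥(stabilizer H ((x, a) : V × V))) ∨
      ∃ b, K.ar a b ∧ Infinite ↥(stabilizer H ((a, b) : V × V))) → J a = {v (q0 a)} := by
    intro n
    induction n using Nat.strong_induction_on with
    | _ n ih =>
      intro a hn hcase
      have hinf : Infinite ↥(stabilizer H a) := by
        rcases hcase with ⟨x, -, hi⟩ | ⟨b, -, hi⟩
        · exact inf_snd hi
        · exact inf_of_arrow hi
      by_cases hs : ∃ b, K.ar a b
      · have key : ∀ b, K.ar a b → J b = {v (q0 a)} := by
          intro b hb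
          have hi := inf_pole (K := K) hb hinf
          rw [ih (K.rk b) (by rw [← hn]; exact K.ar_rk _ _ hb) b rfl (Or.inl ⟨a, hb, hi⟩),
            (hh a b hb hi).2.2]
        obtain ⟨b, hb⟩ := hs
        obtain ⟨p, hp, hp', -⟩ := hJ.pt a ⟨b, hb⟩ ⟨v (q0 a), fun b hb => by
          rw [key b hb]
          rfl⟩
        have h1 := hp' b hb
        rw [key b hb, Set.mem_singleton_iff] at h1
        rw [hp, h1]
      · push Not at hs
        rcases hcase with ⟨x, hx, hi⟩ | ⟨b, hb, -⟩
        · obtain ⟨e1, e2, -⟩ := hh x a hx hi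
          exact hJq a hs e2 (hell1 a e1)
        · exact absurd hb (hs b)
  have hheavy : ∀ x a, K.ar x a → Infinite ↥(stabilizer H ((x, a) : V × V)) →
      J x = {v (q0 a)} ∧ J a = {v (q0 a)} := by
    intro x a hx hi
    refine ⟨?_, hhv _ a rfl (Or.inl ⟨x, hx, hi⟩)⟩
    rw [hhv _ x rfl (Or.inr ⟨a, hx, hi⟩), (hh x a hx hi).2.2]
  refine ⟨D', J', js', D1.X, inferInstance, v, pr, ⟨hc, ?_, ?_, ?_, ?_, ?_⟩,
    fun x hx => hell x (hpr x hx), ?_, ?_, hv, hvi, p1, ?_, ?_⟩
  · intro x a ha
    exact hsoft D' x a ha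
  · intro x hx
    apply Set.Finite.of_finite_image ((hfin x (hpr x hx)).subset _)
    · intro l hl m hm e
      exact p5 x l hl m hm e
    · rintro _ ⟨l, hl, rfl⟩
      exact p3 x l hl
  · intro z hz he
    have hJz := hJ1 z hz (hpr z he)
    obtain ⟨l, hl, hl'⟩ := p4 z (q z) (by rw [show S1.J z = J z from rfl, hJz]; rfl)
    refine ⟨l, ?_⟩
    ext m
    constructor
    · intro hm
      have h5 := p3 _ _ hm
      rw [show S1.J z = J z from rfl, hJz, Set.mem_singleton_iff] at h5
      exact p5 _ _ hm _ hl (h5.trans hl'.symm)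
    · rintro rfl
      exact hl
  · intro z hz hz' he
    have he1 := hpr z he
    have hJz := hJ1 z hz he1
    obtain ⟨h, i, k, e, hk⟩ := hseen z hz hz' he1
    -- the centre in the refined tree
    let S' : SyQ H V := ⟨K, P, D', J', js'⟩
    obtain ⟨c, hcc⟩ := S'.cen (v := S'.tr h i.1) (S'.tr_E h i.2)
    have hc1 : S1.IsC (S1.tr h i.1) (pr c) := by
      intro k'
      exact (hcc k').imp (p3 _ _) (p3 _ _)
    have hc2 : S1.IsC (S1.tr h i.1) (q z) := fun k' => hk k'
    have hc3 : pr c = q z := S1.isC_unique (S1.tr_E h i.2) hc1 hc2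
    have e' : h • P.pt i.1 k = z := e.symm
    have hmem : c ∈ J' z := by
      rcases hcc k with h4 | h4
      · rw [← e']
        exact h4
      · have e5 : K.E z (h • P.pt i.1 (k + 1)) := by
          rw [← e']
          exact K.E_smul h (P.E5 i.2 k)
        obtain ⟨p, hp1, hp2⟩ := S'.one_ex e5
        have h8 : pr p = q z := by
          have := p3 _ _ hp1
          rw [show S1.J z = J z from rfl, hJz] at this
          exact this
        have h9 := p5 _ _ h4 _ hp2 (hc3.trans h8.symm)
        rw [h9]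
        exact hp1
    refine ⟨c, h • P.pt i.1 (k + 4), h • P.pt i.1 (k + 1), h • P.pt i.1 (k + 2),
      h • P.pt i.1 (k + 3), ?_, ?_, ?_⟩
    · ext l
      constructor
      · intro hl
        have h5 := p3 _ _ hl
        rw [show S1.J z = J z from rfl, hJz, Set.mem_singleton_iff] at h5
        exact p5 _ _ hl _ hmem (h5.trans hc3.symm)
      · rintro rfl
        exact hmem
    · have h6 := Qn_pt (P := P) h i.2 (k + 4)
      have e1 : k + 4 + 1 = k := f41 k
      have e2 : k + 4 + 2 = k + 1 := by rw [add_assoc]; rfl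
      have e3 : k + 4 + 3 = k + 2 := by rw [add_assoc]; rfl
      have e4 : k + 4 + 4 = k + 3 := by rw [add_assoc]; rfl
      rw [e1, e2, e3, e4, e'] at h6
      exact h6
    · have e1 : k + 4 + 1 = k := f41 k
      have h0 := hcc (k + 4)
      have h1 := hcc k
      have h2 := hcc (k + 1)
      have h3 := hcc (k + 2)
      have h4 := hcc (k + 3)
      rw [e1] at h0
      have e2 : k + 1 + 1 = k + 2 := by rw [add_assoc]; rfl
      have e3 : k + 2 + 1 = k + 3 := by rw [add_assoc]; rfl
      have e4 : k + 3 + 1 = k + 4 := by rw [add_assoc]; rfl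
      rw [e2] at h2
      rw [e3] at h3
      rw [e4] at h4
      have ez : S'.tr h i.1 k = z := e'
      rw [ez] at h0 h1
      intro k'
      fin_cases k'
      · exact h0
      · exact h1
      · exact h2
      · exact h3
      · exact h4
  · intro z hz he
    have he1 : ¬ Ell H D1.X z := fun h => he (hell' z h)
    have hJz : J z = mst D1.G (stabilizer H z) := by
      rw [hJ.sink z hz]
      exact if_neg he1
    have hy : Hyp D'.X (stabilizer H z) := by
      unfold Ell at he
      push Not at he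
      exact he
    have h1 : mst D'.G (stabilizer H z) ⊆ J' z := by
      intro w hw
      refine hw (J' z) (js'.conv z) (js'.ne z) ?_
      intro g hg c hc
      have := js'.smul g z c hc
      rwa [show g • z = z from hg] at this
    have h2 := axis D'.tact (stabilizer H z) (K.stab z) hy
    -- the image of the axis is convex and invariant
    have h3 : mst D1.G (stabilizer H z) ⊆ pr '' (mst D'.G (stabilizer H z)) := by
      intro w hw
      refine hw _ ?_ ?_ ?_
      · rintro _ ⟨a, ha, rfl⟩ _ ⟨b, hb, rfl⟩ w hw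
        obtain ⟨l, hl, hl'⟩ := walk_between D1.tree D'.tree pr (fun a b h => p2 a b h) _ a b rfl
          w hw
        exact ⟨l, h2.1 a ha b hb l hl', hl⟩
      · obtain ⟨w, hw⟩ := h2.2.1
        exact ⟨_, w, hw, rfl⟩
      · rintro g hg _ ⟨a, ha, rfl⟩
        refine ⟨g • a, ?_, p1 g a⟩
        intro Cc k1 k2 k3
        exact k3 g hg _ (ha Cc k1 k2 k3)
    apply Set.Subset.antisymm _ h1
    intro l hl
    have h4 : pr l ∈ mst D1.G (stabilizer H z) := by
      rw [← hJz]
      exact p3 z l hl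
    obtain ⟨m, hm, e⟩ := h3 h4
    rw [← p5 z m (h1 hm) l hl e]
    exact hm
  · intro x a hx hi
    obtain ⟨e1, e2⟩ := hheavy x a hx hi
    let S' : SyQ H V := ⟨K, P, D', J', js'⟩
    obtain ⟨p, hp1, hp2⟩ := S'.one_ex (Or.inl hx)
    refine ⟨p, ?_, ?_⟩
    · ext m
      constructor
      · intro hm
        have h5 : pr m ∈ J x := p3 _ _ hm
        have h6 : pr p ∈ J x := p3 _ _ hp1
        rw [e1, Set.mem_singleton_iff] at h5 h6
        exact p5 _ _ hm _ hp1 (h5.trans h6.symm)
      · rintro rfl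
        exact hp1
    · ext m
      constructor
      · intro hm
        have h5 : pr m ∈ J a := p3 _ _ hm
        have h6 : pr p ∈ J a := p3 _ _ hp2
        rw [e2, Set.mem_singleton_iff] at h5 h6
        exact p5 _ _ hm _ hp2 (h5.trans h6.symm)
      · rintro rfl
        exact hp2
  · intro a b hab
    obtain ⟨c, d, hcd, hle⟩ := hedge _ _ (p2 _ _ hab)
    refine ⟨c, d, hcd, le_trans ?_ hle⟩
    apply inf_le_inf
    · intro k hk
      rw [mem_stabilizer_iff] at hk ⊢
      rw [← p1, hk]
    · intro k hk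
      rw [mem_stabilizer_iff] at hk ⊢
      rw [← p1, hk]
  · intro z hz hz' he l hl
    have h5 : pr l ∈ J z := p3 _ _ hl
    rw [hJq z hz hz' (hpr z he), Set.mem_singleton_iff] at h5
    exact h5
  · intro x a hx hi l hl
    obtain ⟨e1, e2⟩ := hheavy x a hx hi
    rcases hl with hl | hl
    · have h5 : pr l ∈ J x := p3 _ _ hl
      rw [e1, Set.mem_singleton_iff] at h5
      exact h5
    · have h5 : pr l ∈ J a := p3 _ _ hl
      rw [e2, Set.mem_singleton_iff] at h5
      exact h5

/-- an equivariant map on the elliptic vertices -/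
theorem exists_equi' {H V : Type} [Group H] [MulAction H V] (X : Type) [MulAction H X]
    [Nonempty X] : ∃ q : V → X, ∀ (h : H) (x : V), Ell H X x → q (h • x) = h • q x := by
  classical
  have h1 : ∀ o : orbitRel.Quotient H V, ∃ w : X, Ell H X (Quotient.out o) →
      ∀ h ∈ stabilizer H (Quotient.out o), h • w = w := by
    intro o
    by_cases ho : Ell H X (Quotient.out o)
    · obtain ⟨w, hw⟩ := ho
      exact ⟨w, fun _ => hw⟩
    · exact ⟨Classical.arbitrary X, fun h => absurd h ho⟩
  choose w hw using h1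
  have h2 : ∀ x : V, ∃ g : H, g • Quotient.out (Quotient.mk'' x : orbitRel.Quotient H V) = x := by
    intro x
    have e : (Quotient.mk'' (Quotient.out (Quotient.mk'' x : orbitRel.Quotient H V)) :
        orbitRel.Quotient H V) = Quotient.mk'' x := Quotient.out_eq _
    obtain ⟨g, hg⟩ := Pool.Agent.SAF.mk_eq_iff.1 e
    exact ⟨g⁻¹, by rw [← hg, inv_smul_smul]⟩
  choose g hg using h2
  refine ⟨fun x => g x • w (Quotient.mk'' x), ?_⟩
  intro h x hx
  have e1 : (Quotient.mk'' (h • x) : orbitRel.Quotient H V) = Quotient.mk'' x :=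
    Pool.Agent.SAF.mk_eq_iff.2 ⟨h, rfl⟩
  have e2 := hg (h • x)
  have e3 := hg x
  show g (h • x) • w (Quotient.mk'' (h • x)) = h • g x • w (Quotient.mk'' x)
  rw [e1] at e2 ⊢
  have hout : Ell H X (Quotient.out (Quotient.mk'' x : orbitRel.Quotient H V)) := by
    obtain ⟨c, hc⟩ := hx
    refine ⟨(g x)⁻¹ • c, ?_⟩
    intro a ha
    have ha' : a • Quotient.out (Quotient.mk'' x : orbitRel.Quotient H V) = Quotient.out _ := ha
    have h3 := hc (g x * a * (g x)⁻¹) (by
      show (g x * a * (g x)⁻¹) • x = x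
      have e4 : (g x)⁻¹ • x = Quotient.out (Quotient.mk'' x : orbitRel.Quotient H V) := by
        rw [inv_smul_eq_iff, e3]
      rw [mul_smul, mul_smul, e4, ha', e3])
    rw [mul_smul, mul_smul] at h3
    rw [eq_inv_smul_iff]
    exact h3
  have h5 := hw (Quotient.mk'' x) hout ((h * g x)⁻¹ * g (h • x)) (by
    change ((h * g x)⁻¹ * g (h • x)) • Quotient.out (Quotient.mk'' x : orbitRel.Quotient H V) = _
    rw [mul_smul, e2, mul_inv_rev, mul_smul, inv_smul_smul, inv_smul_eq_iff, e3])
  rw [mul_smul, inv_smul_eq_iff, mul_smul] at h5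
  exact h5

/-- an equivariant map with prescribed values -/
theorem exists_equi_of {H V X : Type} [Group H] [MulAction H V] [MulAction H X] [Nonempty X]
    (R : V → X → Prop) (hR : ∀ (h : H) x p, R x p → R (h • x) (h • p))
    (hu : ∀ x p p', R x p → R x p' → p = p') :
    ∃ q : V → X, (∀ (h : H) (x : V), Ell H X x → q (h • x) = h • q x) ∧ ∀ x p, R x p → q x = p := by
  classical
  obtain ⟨q, hq⟩ := exists_equi' (H := H) (V := V) X
  refine ⟨fun x => if h : ∃ p, R x p then h.choose else q x, ?_, ?_⟩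
  · intro h x hx
    by_cases hp : ∃ p, R x p
    · have hp' : ∃ p, R (h • x) p := ⟨h • hp.choose, hR _ _ _ hp.choose_spec⟩
      simp only [dif_pos hp, dif_pos hp']
      exact hu _ _ _ hp'.choose_spec (hR _ _ _ hp.choose_spec)
    · have hp' : ¬ ∃ p, R (h • x) p := by
        rintro ⟨p, h1⟩
        apply hp
        have := hR h⁻¹ _ _ h1
        rw [inv_smul_smul] at this
        exact ⟨_, this⟩
      simp only [dif_neg hp, dif_neg hp']
      exact hq h x hx
  · intro x p hp
    have h1 : ∃ p, R x p := ⟨p, hp⟩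
    simp only [dif_pos h1]
    exact hu _ _ _ h1.choose_spec hp

/-- finite sinks -/
def GX.FS {H V : Type} [Group H] [MulAction H V] (K : GX H V) (z : V) : Prop :=
  K.Snk z ∧ Finite ↥(stabilizer H z)

theorem GX.FS.smul {H V : Type} [Group H] [MulAction H V] {K : GX H V} {z : V} (h : K.FS z)
    (g : H) : K.FS (g • z) := by
  refine ⟨h.1.smul g, ?_⟩
  have := h.2
  have e := MulAction.stabilizer_smul_eq_stabilizer_map_conj g z
  rw [e]
  have h3 : (stabilizer H z : Set H).Finite := Set.toFinite _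
  have h4 : ((stabilizer H z).map (MulAut.conj g).toMonoidHom : Set H).Finite := by
    rw [Subgroup.coe_map]
    exact h3.image _
  exact h4.to_subtype

/-- THE LIGHT WORLD FOR A COMPLEX `K` WITH SQUARES over a candidate `C` with maximal `(V_s, Hv)`:
`f` maps `K` to `C.K`, arrows with infinite source to arrows, the areas agree, finite sinks of `K` are
in no square. Then
every decomposition has a good refined system in which all finite sinks are seen and the two ends of a
heavy arrow have one and the same point. -/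
theorem Cd.LW.exists_sysQ {C : Cd} (hC : C.LW) {V : Type} [MulAction C.H V] {K : GX C.H V}
    (P : P45 K) (hK : K.area = C.K.area) (hl : ∀ v, K.LC v) (h6 : ∀ z, K.FS z → P.NoQ z)
    (f : V → C.V) (hf : ∀ (h : C.H) x, f (h • x) = h • f x)
    (hfa : ∀ x a, K.ar x a → Infinite ↥(stabilizer C.H x) → C.K.ar (f x) (f a))
    (D : Decomp C.H) : ∃ (D' : Decomp C.H) (J' : V → Set D'.X) (js : JS P.pq D' J'),
      (SyQ.mk K P D' J' js).GdQ K.FS ∧
      (∀ x : V, Ell C.H D'.X x → (∀ h : C.H, h • f x = f x → h • x = x) → Ell C.H D.X x) ∧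
      (∀ x a, K.ar x a → Infinite ↥(stabilizer C.H ((x, a) : V × V)) →
        (SyQ.mk K P D' J' js).Tog x a) ∧
      (∀ a b, D'.G.Adj a b → ∃ c d, D.G.Adj c d ∧
        stabilizer C.H a ⊓ stabilizer C.H b ≤ stabilizer C.H c ⊓ stabilizer C.H d) := by
  classical
  obtain ⟨D2, J2, js2, hg, he, hedge⟩ := C.exists_sys' D
  let S2 : Sys C.H C.V := ⟨C.K, C.P, D2, J2, js2⟩
  obtain ⟨w2, hw2⟩ := exists_bad C.bad D2
  have L : S2.LWat w2 := hC.at S2 rfl hg hw2
  have : Nonempty D2.X := D2.tree.connected.nonempty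
  have hst : ∀ {x : V} {h : C.H}, h • x = x → h • f x = f x := fun {x h} e => by rw [← hf, e]
  have hell : ∀ {X : Type} [MulAction C.H X] {x : V}, Ell C.H X (f x) → Ell C.H X x := by
    rintro X _ x ⟨c, hc⟩
    exact ⟨c, fun h hh => hc h (hst hh)⟩
  obtain ⟨q0, hq0, hq1⟩ := exists_equi_of (H := C.H) (V := V) (X := D2.X)
    (fun x p => J2 (f x) = {p}) (by
      intro h x p hp
      show J2 (f (h • x)) = {h • p}
      rw [hf]
      ext w
      rw [Set.mem_singleton_iff, ← inv_smul_eq_iff (g := h)]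
      have h1 : w ∈ J2 (h • f x) ↔ h⁻¹ • w ∈ J2 (f x) := by
        constructor
        · intro k
          have := js2.smul h⁻¹ _ _ k
          rwa [inv_smul_smul] at this
        · intro k
          have := js2.smul h _ _ k
          rwa [smul_inv_smul] at this
      rw [h1, hp, Set.mem_singleton_iff])
    (by
      intro x p p' h1 h2
      exact Set.singleton_injective (h1.symm.trans h2))
  have hA : P.px.A = C.P.px.A := by
    rw [Pt.px_A, ← hK, P.area_eq]
    rfl
  have hmin : MinSub C.H P.px.A := by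
    rw [hA]
    exact C.minSub
  obtain ⟨D', J', js, -, -, v, pr, h1, h2, h3, h4, -, -, -, -, -⟩ := P.exists_sysQ K.FS
    (fun h x hx => hx.smul h) (fun x hx y e => (h6 x hx).inP hl C.bad e)
    (fun x hx y z hy hz => (h6 x hx).link hl hy hz) D2 q0 hq0
    (fun js i c h => hmin.lemZ' C.bad (K := P.px) js i c h)
    (by
      intro D x a ha
      by_cases hx : Finite ↥(stabilizer C.H x)
      · have := D.tree.connected.nonempty
        obtain ⟨z, hz⟩ := Pool.Agent.SAG.fix_of_finite D.tact _ hx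
        exact ⟨z, hz⟩
      · exact hell (C.soft_ell D (hfa x a ha (not_finite_iff_infinite.1 hx))))
    (by
      intro x a ha hi
      have hia : Infinite ↥(stabilizer C.H ((f x, f a) : C.V × C.V)) := by
        refine Infinite.of_injective (fun g : ↥(stabilizer C.H ((x, a) : V × V)) =>
          (⟨g.1, Prod.ext (hst (congrArg Prod.fst g.2)) (hst (congrArg Prod.snd g.2))⟩ :
            ↥(stabilizer C.H ((f x, f a) : C.V × C.V)))) ?_
        intro a b e
        have e' := congrArg Subtype.val e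
        exact Subtype.ext e'
      have hfa' := hfa x a ha (inf_of_arrow hi)
      obtain ⟨p, hp⟩ := L.one_of_heavy hfa' (inf_of_arrow hia)
      obtain ⟨p', hp'⟩ := L.one_of_heavy_in hfa' hia
      obtain ⟨r, hr⟩ := js2.one (f x) (f a) (Or.inl hfa')
      have e1 : p = p' := by
        have h1 : r ∈ J2 (f x) ∩ J2 (f a) := by
          rw [hr]
          rfl
        have hpx : J2 (f x) = {p} := hp
        have hpa : J2 (f a) = {p'} := hp'
        rw [hpx, hpa] at h1
        exact h1.1.symm.trans h1.2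
      refine ⟨?_, ?_, ?_⟩
      · apply hell
        refine ⟨p', fun g hg => ?_⟩
        have h1 := js2.smul g (f a) p' (by
          rw [show J2 (f a) = {p'} from hp']
          rfl)
        rw [show g • f a = f a from hg, show J2 (f a) = {p'} from hp'] at h1
        exact h1
      · rintro ⟨-, hfin⟩
        exact not_finite_iff_infinite.2 (inf_snd hi) hfin
      · rw [hq1 x p hp, hq1 a p' hp', e1])
  refine ⟨D', J', js, h1, ?_, h3, ?_⟩
  · intro x hx hs
    obtain ⟨c, hc⟩ := he (f x) (by
      obtain ⟨c, hc⟩ := h2 x hx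
      exact ⟨c, fun g hg => hc g (hs g hg)⟩)
    exact ⟨c, fun g hg => hc g (hst hg)⟩
  · intro a b hab
    obtain ⟨c, d, hcd, hle⟩ := h4 a b hab
    obtain ⟨c', d', hcd', hle'⟩ := hedge c d hcd
    exact ⟨c', d', hcd', hle.trans hle'⟩

end Pool.Agent.DI
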