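import Pool.Agent.DI.OQConn
import Pool.Agent.DI.SeenQ
import Pool.Agent.DI.QKMin

/-!
# DI/OQGd: good systems for complexes with squares: collapse, refinement, fine systems

`GdQ.col`: a collapse of a good system is good. `GdQ0.next`: the refinement of a good system without
connectedness is good. `Tog.col`, `Tog.next`, `exists_fineQ` (cf. `exists_fine`).
-/

namespace Pool.Agent.DI

open MulAction
open Pool.Agent.SAF (InC orbs FinOrb oc Decomp SAn SA Conv exists_cut exists_next FinOrb_iff TAct)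
open Pool.Agent.BT (PX PQ JS bey exits MinSub Ell mst Hyp Lq mst_conv axis bey_irr_l
  x_next_unique conv_tri_q)
open Pool.Agent.BT.TA

namespace SyQ

variable {H V : Type} [Group H] [MulAction H V] {S : SyQ H V} {Z : V → Prop}

theorem GdQ.sinkOK (hg : S.GdQ Z) : S.SinkOK := by
  intro z hz
  by_cases he : Ell H S.X z
  · exact Or.inl (hg.one z hz he)
  · exact Or.inr ⟨hyp_of_not_ell he, hg.ax z hz he⟩

/-- GOOD SYSTEMS STAY GOOD -/
theorem GdQ.col (hg : S.GdQ Z) (hZ : ∀ z, (∀ a, ¬ S.K.ar z a) → Z z → Ell H S.X z)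
    {D1 : Decomp H} {c : S.X → D1.X}
    (T : TMap S.D.G D1.G c) (hc : ∀ (h : H) a, c (h • a) = h • c a) :
    (S.col hg.sinkOK T hc).GdQ Z := by
  -- broken sinks which become elliptic have one point
  have hfib : ∀ z : V, (∀ a, ¬ S.K.ar z a) → ¬ Ell H S.X z → Ell H D1.X z →
      ∃ ξ : D1.X, c '' S.J z = {ξ} := by
    rintro z hz he ⟨ξ, hξ⟩
    refine ⟨ξ, ?_⟩
    rw [hg.ax z hz he]
    have hax := axis S.D.tact _ (S.K.stab z) (hyp_of_not_ell he)
    obtain ⟨w, hw⟩ := hax.2.1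
    apply Set.Subset.antisymm
    · rintro _ ⟨w', hw', rfl⟩
      exact T.mst_fibre hc hξ hw'
    · rintro _ rfl
      exact ⟨w, hw, T.mst_fibre hc hξ hw⟩
  refine ⟨Conn.col hg.sinkOK T hc hg.conn, ?_, ?_, ?_, ?_, ?_⟩
  · intro x a ha
    exact ell_of_map hc (hg.soft x a ha)
  · intro x hx
    show (c '' S.J x).Finite
    by_cases he : Ell H S.X x
    · exact (hg.fin x he).image c
    · have hz : ∀ a, ¬ S.K.ar x a := fun a ha => he (hg.soft x a ha)
      obtain ⟨ξ, h⟩ := hfib x hz he hx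
      rw [h]
      exact Set.finite_singleton ξ
  · intro z hz he1
    show ∃ p, c '' S.J z = {p}
    by_cases he : Ell H S.X z
    · obtain ⟨p, h⟩ := hg.one z hz he
      exact ⟨c p, by rw [h, Set.image_singleton]⟩
    · exact hfib z hz he he1
  · intro z hz hzZ he1
    obtain ⟨p, b, a, y, y', h1, h2, h3⟩ := hg.seen z hz hzZ (hZ z hz hzZ)
    refine ⟨c p, b, a, y, y', ?_, h2, ?_⟩
    · show c '' S.J z = {c p}
      rw [h1, Set.image_singleton]
    · intro k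
      exact (h3 k).imp (fun h => ⟨p, h, rfl⟩) (fun h => ⟨p, h, rfl⟩)
  · intro z hz he1
    have he : ¬ Ell H S.X z := fun h => he1 (ell_of_map hc h)
    show c '' S.J z = mst D1.G (stabilizer H z)
    rw [hg.ax z hz he]
    exact T.mst_image hc (axis S.D.tact _ (S.K.stab z) (hyp_of_not_ell he)).2.1
      (axis D1.tact _ (S.K.stab z) (hyp_of_not_ell he1)).2.1

theorem Tog.col (hs : S.SinkOK) {D1 : Decomp H} {c : S.X → D1.X}
    (T : TMap S.D.G D1.G c) (hc : ∀ (h : H) a, c (h • a) = h • c a) {x a : V}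
    (h : S.Tog x a) : (S.col hs T hc).Tog x a := by
  obtain ⟨p, h1, h2⟩ := h
  refine ⟨c p, ?_, ?_⟩
  · show c '' S.J x = {c p}
    rw [h1, Set.image_singleton]
  · show c '' S.J a = {c p}
    rw [h2, Set.image_singleton]

/-- good systems without connectedness -/
structure GdQ0 (S : SyQ H V) (Z : V → Prop) : Prop where
  soft : ∀ x a, S.K.ar x a → Ell H S.X x
  fin : ∀ x, Ell H S.X x → (S.J x).Finite
  one : ∀ z, (∀ a, ¬ S.K.ar z a) → Ell H S.X z → ∃ p, S.J z = {p}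
  seen : ∀ z, (∀ a, ¬ S.K.ar z a) → Z z → Ell H S.X z → ∃ p b c y y', S.J z = {p} ∧
    Qn S.P b z c y y' ∧ S.IsC ![b, z, c, y, y'] p
  ax : ∀ z, (∀ a, ¬ S.K.ar z a) → ¬ Ell H S.X z → S.J z = mst S.D.G (stabilizer H z)

theorem Qn.hv {a q b y z : V} {K : GX H V} {P : P45 K} (h : Qn P a q b y z) :
    ∀ k, K.E (![a, q, b, y, z] k) (![a, q, b, y, z] (k + 1)) := by
  intro k
  fin_cases k
  exacts [h.E1, h.E2, h.E3, h.E4, h.E5]

/-- THE REFINEMENT IS GOOD -/
theorem GdQ0.next (hg : S.GdQ0 Z) : S.next.GdQ Z := by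
  have hell : ∀ x, Ell H S.X x → Ell H S.next.X x := fun x hx => S.next_ell (hg.fin x hx)
  refine ⟨S.next_conn, ?_, ?_, ?_, ?_, ?_⟩
  · intro x a ha
    exact hell x (hg.soft x a ha)
  · intro x hx
    apply Set.Finite.of_finite_image ((hg.fin x (S.next_ell_of hx)).subset _)
    · intro l hl m hm e
      exact S.J'_inj (x := x) hl hm e
    · rintro _ ⟨l, hl, rfl⟩
      exact S.J'_pr (x := x) hl
  · intro z hz he
    obtain ⟨p, hp⟩ := hg.one z hz (S.next_ell_of he)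
    obtain ⟨l, hl, -⟩ := S.next_pt hp
    exact ⟨l, hl⟩
  · intro z hz hzZ he
    obtain ⟨p, b, a, y, y', h1, h2, h3⟩ := hg.seen z hz hzZ (S.next_ell_of he)
    obtain ⟨l, -, hl2, hl3⟩ := S.next_cen (Qn.hv h2) h3
    exact ⟨l, b, a, y, y', hl3 1 h1, h2, hl2⟩
  · intro z hz he
    have he1 : ¬ Ell H S.X z := fun h => he (hell z h)
    exact S.next_ax (hg.ax z hz he1) he

theorem Tog.next {x a : V} (e : S.K.E x a) (h : S.Tog x a) : S.next.Tog x a := by
  obtain ⟨p, h1, h2⟩ := h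
  obtain ⟨l, hl, hl'⟩ := S.next_pt h1
  obtain ⟨m, hm, hm'⟩ := S.next_pt h2
  obtain ⟨r, hr1, hr2⟩ := S.next.one_ex e
  rw [hl] at hr1
  rw [hm] at hr2
  refine ⟨l, hl, ?_⟩
  rw [hm, ← Set.mem_singleton_iff.1 hr1, ← Set.mem_singleton_iff.1 hr2]

/-- THE FINE SYSTEM -/
theorem exists_fineQ {K : GX H V} {P : P45 K} {D : Decomp H} {J : V → Set D.X}
    {js : JS P.pq D J} (hg : (SyQ.mk K P D J js).GdQ Z) (w u : D.X)
    (hor : ∀ x : D.X, (∃ h : H, h • w = x) ∨ ∃ h : H, h • u = x)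
    (hn : ∀ h : H, h • u ≠ w)
    (hcen : ∀ {b z a y y' : V} {p : D.X}, Qn P b z a y y' →
      (SyQ.mk K P D J js).IsC ![b, z, a, y, y'] p → ∃ h : H, h • w = p)
    {D' : Decomp H} {c : D'.X → D.X} (T : TMap D'.G D.G c)
    (hc : ∀ (h : H) a, c (h • a) = h • c a)
    (hsing : ∀ a b, (∀ h : H, h • u ≠ c a) → c a = c b → a = b)
    (hC : ∀ a, (∃ h : H, h • u = c a) → InC ↥(stabilizer H a))
    (hsoft : ∀ x a, K.ar x a → Ell H D'.X x)
    (hZ : ∀ z, (∀ a, ¬ K.ar z a) → Z z → Ell H D.X z) :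
    ∃ (D2 : Decomp H) (J2 : V → Set D2.X) (js2 : JS P.pq D2 J2),
      (SyQ.mk K P D2 J2 js2).GdQ Z ∧
      (∀ x a b y z, Qn P x a b y z → (SyQ.mk K P D J js).Tog x a →
        (SyQ.mk K P D2 J2 js2).Tog x a) ∧
      ∃ w2 : D2.X, ∀ l, (∃ h : H, h • w2 = l) ∨ InC ↥(stabilizer H l) := by
  classical
  let S : SyQ H V := ⟨K, P, D, J, js⟩
  obtain ⟨J', js', hJ, hfin, hax, hpt⟩ := exists_rel_pq K.stab js hg.one hg.ax T hc hsoft
  let S' : SyQ H V := ⟨K, P, D', J', js'⟩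
  have hJ' : ∀ x, c '' J' x = J x := hJ
  have hnu : ∀ (h k : H), k • u ≠ h • w := by
    intro h k e
    apply hn (h⁻¹ * k)
    rw [mul_smul, e, inv_smul_smul]
  have hw1 : ∀ (h : H) a b, c a = h • w → c b = h • w → a = b := by
    intro h a b e1 e2
    exact hsing a b (fun k => by rw [e1]; exact hnu h k) (e1.trans e2.symm)
  -- centres lift
  have lift : ∀ {b z a y y' : V} {p : D.X}, Qn P b z a y y' → S.IsC ![b, z, a, y, y'] p →
      ∃ p', c p' = p ∧ (∀ a, c a = c p' → a = p') ∧ S'.IsC ![b, z, a, y, y'] p' := by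
    intro b z a y y' p hp hce
    obtain ⟨h, hh⟩ := hcen hp hce
    obtain ⟨c1, hc1⟩ := S'.cen (Qn.hv hp)
    have him : ∀ x : V, c1 ∈ J' x → c c1 ∈ J x := by
      intro x hx
      rw [← hJ']
      exact ⟨c1, hx, rfl⟩
    have h6 : S.IsC ![b, z, a, y, y'] (c c1) := fun k => (hc1 k).imp (him _) (him _)
    have h7 : c c1 = p := S.isC_unique (Qn.hv hp) h6 hce
    exact ⟨c1, h7, fun a ha => hw1 h _ _ (ha.trans (h7.trans hh.symm)) (h7.trans hh.symm), hc1⟩
  have hg0 : S'.GdQ0 Z := by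
    refine ⟨hsoft, hfin, ?_, ?_, hax⟩
    · intro z hz he
      exact hpt z hz he
    · intro z hz hzZ he'
      obtain ⟨p, b, a, y, y', h1, hp, h3⟩ := hg.seen z hz hzZ (hZ z hz hzZ)
      obtain ⟨p', e1, e2, e3⟩ := lift hp h3
      refine ⟨p', b, a, y, y', js_up_pt hJ' e2 ?_, hp, e3⟩
      rw [e1]
      exact h1
  have hgd := hg0.next
  -- the vertex over `w`
  obtain ⟨aw, haw⟩ := T.surj w
  have hmem : ∀ x : V, w ∈ J x → aw ∈ J' x := by
    intro x hx
    rw [← hJ'] at hx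
    obtain ⟨a, ha, e⟩ := hx
    have e2 : a = aw := hw1 1 _ _ (by rw [one_smul]; exact e) (by rw [one_smul]; exact haw)
    rw [← e2]
    exact ha
  have hsl : ∀ x z, aw ∈ S'.J x → aw ∈ S'.J z → Relation.EqvGen (S'.SR aw) x z := by
    intro x z hx hz
    have hx' : w ∈ S.J x := by
      show w ∈ J x
      rw [← hJ', ← haw]
      exact ⟨aw, hx, rfl⟩
    have hz' : w ∈ S.J z := by
      show w ∈ J z
      rw [← hJ', ← haw]
      exact ⟨aw, hz, rfl⟩
    refine Sys.eqv_bind ?_ (hg.conn.slice w x z hx' hz')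
    rintro a b (⟨e, h1, h2⟩ | ⟨w1, h⟩)
    · exact Relation.EqvGen.rel _ _ (Or.inl ⟨e, hmem a h1, hmem b h2⟩)
    · obtain ⟨hadj, h2, h3, q, h4⟩ := h
      obtain ⟨α, β, e1, rfl, hab⟩ := T.lift w w1 hadj
      have e2 : α = aw := hw1 1 _ _ (by rw [one_smul]; exact e1) (by rw [one_smul]; exact haw)
      subst e2
      have hne : c α ≠ c β := by
        rw [e1]
        exact hadj.ne
      have hcs : ∀ x : V, S.Cs w (c β) x → S'.Cs α β x := by
        rintro x ⟨k1, k2⟩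
        have k1' : w ∈ J x := k1
        have k2' : c β ∈ J x := k2
        rw [← hJ'] at k1' k2'
        rw [← e1] at k1'
        exact T.mem_lift' (js'.conv x) hab hne k1' k2'
      have hne' : c β ≠ c α := hne.symm
      have s1 : ∀ x : V, S.J x ⊆ bey D.G w (c β) → S'.J x ⊆ bey D'.G α β := by
        intro x hx
        apply (T.image_bey hab hne).1
        rw [hJ', e1]
        exact hx
      have s2 : ∀ x : V, S.J x ⊆ bey D.G (c β) w → S'.J x ⊆ bey D'.G β α := by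
        intro x hx
        apply (T.image_bey hab.symm hne').1
        rw [hJ', e1]
        exact hx
      refine Relation.EqvGen.rel _ _ (Or.inr ⟨β, hab, hcs _ h2, hcs _ h3, q, ?_⟩)
      rcases h4 with ⟨a1, ⟨y, y', hp, a2, a3⟩ | ⟨y, hp, a2⟩⟩ |
        ⟨a1, ⟨y, y', hp, a2, a3⟩ | ⟨y, hp, a2⟩⟩
      · exact Or.inl ⟨s1 _ a1, Or.inl ⟨y, y', hp, s2 _ a2, s2 _ a3⟩⟩
      · exact Or.inl ⟨s1 _ a1, Or.inr ⟨y, hp, s2 _ a2⟩⟩
      · exact Or.inr ⟨s2 _ a1, Or.inl ⟨y, y', hp, s1 _ a2, s1 _ a3⟩⟩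
      · exact Or.inr ⟨s2 _ a1, Or.inr ⟨y, hp, s1 _ a2⟩⟩
  obtain ⟨x0, hx0⟩ := hg.conn.near w
  obtain ⟨lw, hlw, hprw⟩ := S'.J'_ex (hmem x0 hx0)
  refine ⟨S'.LD, S'.J', S'.J'_js, hgd, ?_, lw, ?_⟩
  · intro x a b y z hp htog
    obtain ⟨p, h1, h2⟩ := htog
    -- `p` is the centre of the pentagon
    obtain ⟨c1, hc1⟩ := S.cen (Qn.hv hp)
    have h1' : S.J x = {p} := h1
    have h2' : S.J a = {p} := h2
    have h3 : c1 = p := by
      rcases hc1 0 with h | h
      · exact Set.mem_singleton_iff.1 (h1' ▸ h)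
      · exact Set.mem_singleton_iff.1 (h2' ▸ h)
    rw [h3] at hc1
    obtain ⟨p', e1, e2, -⟩ := lift hp hc1
    have k : S'.Tog x a := ⟨p', js_up_pt hJ' e2 (by rw [e1]; exact h1'),
      js_up_pt hJ' e2 (by rw [e1]; exact h2')⟩
    exact k.next hp.E1
  intro l
  rcases hor (c (S'.pr l)) with ⟨h, hh⟩ | ⟨h, hh⟩
  · left
    refine ⟨h, ?_⟩
    have e0 : S'.pr (h⁻¹ • (l : S'.LV)) = h⁻¹ • S'.pr l := S'.pr_smul h⁻¹ l
    have e1 : S'.pr (h⁻¹ • (l : S'.LV)) = aw := by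
      refine e0.trans ?_
      apply hw1 1
      · rw [hc, ← hh, inv_smul_smul, one_smul]
      · rw [one_smul]
        exact haw
    have e2 : h⁻¹ • (l : S'.LV) = lw := S'.pr_inj hsl e1 hprw
    exact (inv_smul_eq_iff.1 e2).symm
  · right
    refine Pool.Agent.SAG.InC.mono ?_ (hC (S'.pr l) ⟨h, hh⟩)
    intro g hgl
    have h1 : g • l = l := hgl
    have h2 : S'.pr (g • l) = g • S'.pr l := S'.pr_smul g l
    show g • S'.pr l = S'.pr l
    exact h2.symm.trans (congrArg S'.pr h1)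

end SyQ

end Pool.Agent.DI
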