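import Pool.Agent.DI.OneEdge
import Pool.Agent.DI.OQBlow
import Pool.Agent.DI.OQGd
import Pool.Agent.DI.OQFact

/-!
# DI/OneEdgeQ: one-edge systems for complexes with pentagons and squares

`Cd.LW.one_edgeQ`: `C` light candidate, `K` a complex with pentagons and squares of the same group and
area, `f : V → C.V` the fold. There is a good system for `K` with one orbit of edges; either there is
one orbit of vertices, or there are adjacent `w`, `u` with `H_w` bad, `H_u` in `C` and `u` has exactly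
two neighbours, exchanged by `H_u`.
-/

namespace Pool.Agent.DI

open MulAction
open Pool.Agent.SAF (InC orbs FinOrb oc Decomp SAn SA Conv exists_cut exists_next FinOrb_iff TAct)
open Pool.Agent.BT (PX PQ JS bey exits MinSub Ell mst Hyp Lq mst_conv axis)
open Pool.Agent.BT.TA

/-- inverted one-edge systems -/
structure SyQ.Inv1 {H V : Type} [Group H] [MulAction H V] (S : SyQ H V) (w u : S.X) : Prop where
  adj : S.D.G.Adj w u
  orb : ∀ x, (∃ h : H, h • w = x) ∨ ∃ h : H, h • u = x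
  ne : ∀ h : H, h • w ≠ u
  inC : InC ↥(stabilizer H u)
  flip : ∃ g ∈ stabilizer H u, g • w ≠ w ∧ ∀ y, S.D.G.Adj u y → y = w ∨ y = g • w

/-- with one orbit of edges no vertex has exactly one neighbour -/
theorem OneE.two {H : Type} [Group H] {D : Decomp H} (hone : OneE D) {w u : D.X}
    (hwu : D.G.Adj w u) (hn : ∀ h : H, h • w ≠ u) : ∃ y, D.G.Adj u y ∧ y ≠ w := by
  by_contra hcon
  push Not at hcon
  have hn' : ∀ h : H, h • u ≠ w := by
    intro h e
    apply hn h⁻¹
    rw [← e, inv_smul_smul]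
  have claim : ∀ x, x = w ∨ D.G.Adj w x := by
    intro x
    obtain ⟨p⟩ := D.tree.connected.preconnected x w
    induction p with
    | nil => exact Or.inl rfl
    | @cons x y z e p ih =>
      rcases ih hwu hn hcon hn' with rfl | k
      · exact Or.inr e.symm
      · obtain ⟨h, ⟨k1, k2⟩ | ⟨k1, k2⟩⟩ := hone _ _ _ _ hwu k
        · left
          have k3 := D.adj_smul h⁻¹ _ _ e.symm
          rw [← k2, inv_smul_smul] at k3
          have k4 := hcon _ k3
          rw [inv_smul_eq_iff] at k4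
          rw [k4, k1]
        · exact absurd k2 (hn' h)
  obtain ⟨h, hh⟩ := D.nofix w
  rcases claim (h • w) with k | k
  · exact hh k
  · obtain ⟨g, ⟨k1, k2⟩ | ⟨k1, k2⟩⟩ := hone _ _ _ _ hwu k
    · apply hn' (h⁻¹ * g)
      rw [mul_smul, k2, inv_smul_smul]
    · exact hn' g k2

/-- the group of `u` fixes no neighbour of `u` -/
theorem OneE.no_fix {H : Type} [Group H] {D : Decomp H} (hone : OneE D) {w u : D.X}
    (hwu : D.G.Adj w u) (hn : ∀ h : H, h • w ≠ u) {x : D.X} (hx : D.G.Adj u x)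
    (hfix : ∀ g ∈ stabilizer H u, g • x = x) : False := by
  have nb : ∀ y, D.G.Adj u y → ∃ g ∈ stabilizer H u, g • w = y := by
    intro y hy
    obtain ⟨h, ⟨k1, k2⟩ | ⟨k1, k2⟩⟩ := hone _ _ _ _ hwu hy
    · exact absurd k1 (hn h)
    · exact ⟨h, k2, k1⟩
  obtain ⟨g, hg, e⟩ := nb x hx
  have e2 : w = x := by
    have := hfix g⁻¹ (inv_mem hg)
    rw [← e, inv_smul_smul] at this
    rw [← this] at e
    exact this.trans (by rw [← hfix g hg, ← e])
  obtain ⟨y, hy, hne⟩ := hone.two hwu hn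
  obtain ⟨k, hk, e3⟩ := nb y hy
  apply hne
  rw [← e3, e2]
  exact hfix k hk

/-- `K` is a complex with pentagons and squares of the group of the candidate `C`, `f` its fold -/
structure FoldC (C : Cd) {V : Type} [MulAction C.H V] {K : GX C.H V} (P : P45 K) (f : V → C.V) :
    Prop where
  area : K.area = C.K.area
  lc : ∀ v, K.LC v
  fs : ∀ z, K.FS z → P.NoQ z
  smul : ∀ (h : C.H) x, f (h • x) = h • f x
  arr : ∀ x a, K.ar x a → Infinite ↥(stabilizer C.H x) → C.K.ar (f x) (f a)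
  snk : ∀ z, (∀ a, ¬ K.ar z a) → Infinite ↥(stabilizer C.H z) → ∀ b, ¬ C.K.ar (f z) b
  hv : ∀ x a, K.ar x a → Infinite ↥(stabilizer C.H ((x, a) : V × V)) → ∃ b y z, Qn P x a b y z

namespace FoldC

variable {C : Cd} {V : Type} [MulAction C.H V] {K : GX C.H V} {P : P45 K} {f : V → C.V}

theorem soft (F : FoldC C P f) (D : Decomp C.H) (x a : V) (ha : K.ar x a) : Ell C.H D.X x := by
  by_cases hx : Finite ↥(stabilizer C.H x)
  · have := D.tree.connected.nonempty
    obtain ⟨z, hz⟩ := Pool.Agent.SAG.fix_of_finite D.tact _ hx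
    exact ⟨z, hz⟩
  · obtain ⟨c, hc⟩ := C.soft_ell D (F.arr x a ha (not_finite_iff_infinite.1 hx))
    exact ⟨c, fun h hh => hc h (by
      show h • f x = f x
      rw [← F.smul, show h • x = x from hh])⟩

theorem fs_ell (D : Decomp C.H) (z : V) (hz : K.FS z) : Ell C.H D.X z := by
  have := D.tree.connected.nonempty
  obtain ⟨c, hc⟩ := Pool.Agent.SAG.fix_of_finite D.tact _ hz.2
  exact ⟨c, hc⟩

theorem wmin (F : FoldC C P f) {D : Decomp C.H} {J : V → Set D.X} (js : JS P.pq D J) {w : D.X}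
    (hb : ¬ SA ↥(stabilizer C.H w)) : (SyQ.mk K P D J js).WMin w := by
  intro V' _ K'
  show K.area ≤ K'.area
  rw [F.area]
  exact C.min _ _ K' hb

theorem exists_i (F : FoldC C P f) : ∃ i : K.I, ¬ P.sq i := by
  obtain ⟨i⟩ := C.exists_I
  have := C.K.finI
  let ft := Fintype.ofFinite C.K.I
  have h1 : 0 < C.K.area := by
    rw [C.P.area_eq]
    exact Fintype.card_pos_iff.2 ⟨i⟩
  rw [← F.area, P.area_eq] at h1
  obtain ⟨⟨i, hi⟩⟩ := (Nat.card_pos_iff.1 h1).1
  exact ⟨i, hi⟩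

/-- pentagons are centred in the orbit of a bad vertex -/
theorem cen (F : FoldC C P f) {D : Decomp C.H} {J : V → Set D.X} {js : JS P.pq D J}
    (hc : (SyQ.mk K P D J js).Conn) {w : D.X}
    (hb : ¬ SA ↥(stabilizer C.H w)) {b z a y y' : V} {p : D.X} (hp : Qn P b z a y y')
    (hce : (SyQ.mk K P D J js).IsC ![b, z, a, y, y'] p) : ∃ h : C.H, h • w = p := by
  obtain ⟨g, hg⟩ := SyQ.qn_ctr (S := SyQ.mk K P D J js) hc (F.wmin js hb) hp
  exact ⟨g, SyQ.isC_unique (S := SyQ.mk K P D J js) (SyQ.Qn.hv hp) hg hce⟩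

/-- no vertex over `u` is fixed by the group of `u` -/
theorem no_over (F : FoldC C P f) {D : Decomp C.H} {J : V → Set D.X} {js : JS P.pq D J}
    (hg : (SyQ.mk K P D J js).GdQ K.FS)
    (htog : ∀ x a, K.ar x a → Infinite ↥(stabilizer C.H ((x, a) : V × V)) →
      (SyQ.mk K P D J js).Tog x a) {w : D.X} (hb : ¬ SA ↥(stabilizer C.H w)) {u : D.X}
    (hone : OneE D) (hwu : D.G.Adj w u) (hn : ∀ h : C.H, h • w ≠ u)
    (hU : InC ↥(stabilizer C.H u)) (hUi : Infinite ↥(stabilizer C.H u)) {x : V} (hx : u ∈ J x) :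
    ¬ stabilizer C.H u ≤ stabilizer C.H x := by
  intro hle
  let S : SyQ C.H V := ⟨K, P, D, J, js⟩
  have hxi : Infinite ↥(stabilizer C.H x) := by
    refine Infinite.of_injective (fun g : ↥(stabilizer C.H u) =>
      (⟨g.1, hle g.2⟩ : ↥(stabilizer C.H x))) ?_
    intro a b e
    have e' := congrArg Subtype.val e
    exact Subtype.ext e'
  by_cases hs : ∀ a, ¬ K.ar x a
  · -- a sink
    have hell : Ell C.H D.X x := by
      by_contra hcon
      have hf : Finite ↥(stabilizer C.H x ⊓ stabilizer C.H u) :=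
        BT.finite_of_hyp D.tact (K.stab x) (hyp_of_not_ell hcon) inf_le_left (w := u)
          (fun b hb => hb.2)
      have : Infinite ↥(stabilizer C.H x ⊓ stabilizer C.H u) := by
        refine Infinite.of_injective (fun g : ↥(stabilizer C.H u) =>
          (⟨g.1, hle g.2, g.2⟩ : ↥(stabilizer C.H x ⊓ stabilizer C.H u))) ?_
        intro a b e
        have e' := congrArg Subtype.val e
        exact Subtype.ext e'
      exact not_finite_iff_infinite.2 this hf
    have hfle : stabilizer C.H u ≤ stabilizer C.H (f x) := by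
      intro g hgu
      show g • f x = f x
      rw [← F.smul, show g • x = x from hle hgu]
    -- the stabiliser of `f x` is elliptic
    have hell2 : Ell C.H D.X (f x) := by
      by_contra hcon
      have hf : Finite ↥(stabilizer C.H (f x) ⊓ stabilizer C.H u) :=
        BT.finite_of_hyp D.tact (C.K.stab (f x)) (hyp_of_not_ell hcon) inf_le_left (w := u)
          (fun b hb => hb.2)
      have : Infinite ↥(stabilizer C.H (f x) ⊓ stabilizer C.H u) := by
        refine Infinite.of_injective (fun g : ↥(stabilizer C.H u) =>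
          (⟨g.1, hfle g.2, g.2⟩ : ↥(stabilizer C.H (f x) ⊓ stabilizer C.H u))) ?_
        intro a b e
        have e' := congrArg Subtype.val e
        exact Subtype.ext e'
      exact not_finite_iff_infinite.2 this hf
    obtain ⟨y, hy, hfix⟩ := C.fix_nb D (F.snk x hs hxi) hell2 hU hfle
    exact hone.no_fix hwu hn hy hfix
  · push Not at hs
    obtain ⟨a, ha⟩ := hs
    have hpi : Infinite ↥(stabilizer C.H ((x, a) : V × V)) := by
      by_cases h : ∃ b, K.ar x b ∧ a ≠ b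
      · obtain ⟨b, hb, hne⟩ := h
        refine inf_of_le_two hxi (b := b) ?_
        intro g hgx
        have := K.ar_smul g _ _ ha
        rw [show g • x = x from hgx] at this
        exact GX.Sft.cases ha hb hne this
      · refine inf_of_le_two hxi (b := a) ?_
        intro g hgx
        have := K.ar_smul g _ _ ha
        rw [show g • x = x from hgx] at this
        left
        by_contra hne
        exact h ⟨_, this, fun e => hne e.symm⟩
    obtain ⟨p, h1, h2⟩ := htog x a ha hpi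
    have h1' : J x = {p} := h1
    have h2' : J a = {p} := h2
    rw [h1', Set.mem_singleton_iff] at hx
    obtain ⟨b, y, z, hp⟩ := F.hv x a ha hpi
    obtain ⟨c1, hc1⟩ := S.cen (SyQ.Qn.hv hp)
    have h3 : c1 = p := by
      rcases hc1 0 with h | h
      · exact Set.mem_singleton_iff.1 (h1' ▸ h)
      · exact Set.mem_singleton_iff.1 (h2' ▸ h)
    obtain ⟨g, hgg⟩ := F.cen hg.conn hb hp hc1
    exact hn g (hgg.trans (h3.trans hx.symm))

end FoldC

/-- ONE-EDGE SYSTEMS EXIST, pentagons and squares (from index two) -/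
theorem Cd.LW.one_edgeQ' {C : Cd} (hC : C.LW) {V : Type} [MulAction C.H V] {K : GX C.H V}
    {P : P45 K} {f : V → C.V} (F : FoldC C P f)
    (hidx : ∀ {D : Decomp C.H} {J : V → Set D.X} {js : JS P.pq D J},
      (SyQ.mk K P D J js).GdQ K.FS → OneE D → ∀ {w u : D.X}, D.G.Adj w u →
      (∀ h : C.H, h • w ≠ u) → InC ↥(stabilizer C.H u) → IsEmpty ((SyQ.mk K P D J js).C5 u) →
      Infinite ↥(stabilizer C.H w ⊓ stabilizer C.H u) →
      (∀ x, u ∈ J x → ¬ stabilizer C.H u ≤ stabilizer C.H x) →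
      ∃ w', w' ≠ w ∧ D.G.Adj u w' ∧ ∀ y, D.G.Adj u y → y = w ∨ y = w') :
    ∃ (D : Decomp C.H) (J : V → Set D.X) (js : JS P.pq D J),
      (SyQ.mk K P D J js).GdQ K.FS ∧
      (∀ x a, K.ar x a → Infinite ↥(stabilizer C.H ((x, a) : V × V)) →
        (SyQ.mk K P D J js).Tog x a) ∧ OneE D ∧ ((∀ x y : D.X, ∃ h : C.H, h • x = y) ∨
        ∃ w u : D.X, ¬ SA ↥(stabilizer C.H w) ∧ (SyQ.mk K P D J js).Inv1 w u) := by
  classical
  -- a good system and its collapse
  obtain ⟨D0⟩ : Nonempty (Decomp C.H) := by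
    by_contra hcon
    rw [not_nonempty_iff] at hcon
    exact C.bad (Pool.Agent.SAF.SA.of_empty hcon)
  obtain ⟨D1, J1, js1, hg1, -, ht1, -⟩ := hC.exists_sysQ P F.area F.lc F.fs f F.smul F.arr D0
  obtain ⟨w1, hw1⟩ := exists_bad C.bad D1
  obtain ⟨D2, c2, T2, hc2, hone2, halt2⟩ := exists_one D1 w1
  let S1 : SyQ C.H V := ⟨K, P, D1, J1, js1⟩
  let S2 : SyQ C.H V := S1.col hg1.sinkOK T2 hc2
  have hg2 : S2.GdQ K.FS := hg1.col (fun z _ hz => FoldC.fs_ell D1 z hz) T2 hc2
  have ht2 : ∀ x a, K.ar x a → Infinite ↥(stabilizer C.H ((x, a) : V × V)) → S2.Tog x a :=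
    fun x a h1 h2 => (ht1 x a h1 h2).col hg1.sinkOK T2 hc2
  rcases halt2 with h | ⟨v, hwv, hstv, hcwv, horb⟩
  · exact ⟨D2, _, S2.js, hg2, ht2, hone2, Or.inl h⟩
  obtain ⟨i0, hi0⟩ := F.exists_i
  -- the bad vertex
  obtain ⟨w2, hw2⟩ := exists_bad C.bad D2
  have hw2' : ∃ h : C.H, h • c2 w1 = w2 := by
    rcases horb w2 with h | ⟨h, rfl⟩
    · exact h
    · exfalso
      have e : stabilizer C.H (h • c2 v) = stabilizer C.H (h • v) := by
        ext k
        constructor
        · intro hk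
          have hk' : k • h • c2 v = h • c2 v := hk
          have h1 : (h⁻¹ * k * h) • c2 v = c2 v := by
            rw [mul_smul, mul_smul, hk', inv_smul_smul]
          have h2 := hstv _ h1
          rw [mul_smul, mul_smul, inv_smul_eq_iff] at h2
          exact h2
        · intro hk
          have hk' : k • h • v = h • v := hk
          show k • h • c2 v = h • c2 v
          rw [← hc2, ← hc2, hk']
      rw [e] at hw2
      obtain ⟨g, hg⟩ := SyQ.wmin_orbit (S := S1) hg1.conn (F.wmin js1 hw1)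
        (F.wmin js1 hw2) (i := i0) hi0
      apply hwv (h⁻¹ * g)
      rw [mul_smul, hg, inv_smul_smul]
  have hor2 : ∀ x, (∃ h : C.H, h • w2 = x) ∨ ∃ h : C.H, h • c2 v = x := by
    intro x
    rcases horb x with ⟨h, rfl⟩ | h
    · obtain ⟨k, rfl⟩ := hw2'
      exact Or.inl ⟨h * k⁻¹, by rw [mul_smul, inv_smul_smul]⟩
    · exact Or.inr h
  have hn2 : ∀ h : C.H, h • w2 ≠ c2 v := by
    obtain ⟨k, rfl⟩ := hw2'
    intro h e
    exact hcwv (h * k) (by rw [mul_smul]; exact e)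
  have hn2' : ∀ h : C.H, h • c2 v ≠ w2 := by
    intro h e
    exact hn2 h⁻¹ (by rw [← e, inv_smul_smul])
  -- the blow-up
  obtain ⟨D3, c3, T3, hc3, hsing, hC3⟩ := SyQ.blow_up (S := S2) hg2.conn (u := c2 v)
    (SyQ.c5_isEmpty hg2.conn (F.wmin S2.js hw2) hn2) (by
      rintro x y hxy hx ⟨k, hk⟩
      obtain ⟨h, hh⟩ := one_bip hone2 hor2 hn2 hxy hx
      apply hn2 (k⁻¹ * h)
      rw [mul_smul, hh, ← hk, inv_smul_smul])
  -- the fine system
  obtain ⟨D4, J4, js4, hg4, ht4, w4, hfine⟩ := SyQ.exists_fineQ (D := D2) (js := S2.js) hg2 w2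
    (c2 v) hor2 hn2' (fun hp hce => F.cen hg2.conn hw2 hp hce) T3 hc3 hsing hC3
    (fun x a ha => F.soft D3 x a ha) (fun z _ hz => FoldC.fs_ell D2 z hz)
  have ht4' : ∀ x a, K.ar x a → Infinite ↥(stabilizer C.H ((x, a) : V × V)) →
      (SyQ.mk K P D4 J4 js4).Tog x a := by
    intro x a h1 h2
    obtain ⟨b, y, z, hp⟩ := F.hv x a h1 h2
    exact ht4 x a b y z hp (ht2 x a h1 h2)
  obtain ⟨D5, c5, T5, hc5, hone5, halt5⟩ := exists_one D4 w4
  let S4 : SyQ C.H V := ⟨K, P, D4, J4, js4⟩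
  let S5 : SyQ C.H V := S4.col hg4.sinkOK T5 hc5
  have hg5 : S5.GdQ K.FS := hg4.col (fun z _ hz => FoldC.fs_ell D4 z hz) T5 hc5
  have ht5 : ∀ x a, K.ar x a → Infinite ↥(stabilizer C.H ((x, a) : V × V)) → S5.Tog x a :=
    fun x a h1 h2 => (ht4' x a h1 h2).col hg4.sinkOK T5 hc5
  rcases halt5 with h | ⟨v5, hwv5, hstv5, hcwv5, horb5⟩
  · exact ⟨D5, _, S5.js, hg5, ht5, hone5, Or.inl h⟩
  have hInC : ∀ k : C.H, InC ↥(stabilizer C.H (k • c5 v5)) := by
    intro k
    have h1 : InC ↥(stabilizer C.H (k • v5)) := by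
      rcases hfine (k • v5) with ⟨h, hh⟩ | h
      · exfalso
        apply hwv5 (k⁻¹ * h)
        rw [mul_smul, hh, inv_smul_smul]
      · exact h
    refine Pool.Agent.SAG.InC.mono ?_ h1
    intro g hg
    have hg' : g • k • c5 v5 = k • c5 v5 := hg
    have h2 : (k⁻¹ * g * k) • c5 v5 = c5 v5 := by
      rw [mul_smul, mul_smul, hg', inv_smul_smul]
    have h3 := hstv5 _ h2
    rw [mul_smul, mul_smul, inv_smul_eq_iff] at h3
    exact h3
  obtain ⟨w5, hw5⟩ := exists_bad C.bad D5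
  have hw5' : ∃ h : C.H, h • c5 w4 = w5 := by
    rcases horb5 w5 with h | ⟨h, rfl⟩
    · exact h
    · exact absurd (Pool.Agent.BT.SA_of_InC (hInC h)) hw5
  obtain ⟨u5, hu5⟩ := exists_nb D5 w5
  have hn5 : ∀ h : C.H, h • w5 ≠ c5 v5 := by
    obtain ⟨k, rfl⟩ := hw5'
    intro h e
    exact hcwv5 (h * k) (by rw [mul_smul]; exact e)
  have hor5 : ∀ x, (∃ h : C.H, h • w5 = x) ∨ ∃ h : C.H, h • c5 v5 = x := by
    intro x
    rcases horb5 x with ⟨h, rfl⟩ | h
    · obtain ⟨k, rfl⟩ := hw5'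
      exact Or.inl ⟨h * k⁻¹, by rw [mul_smul, inv_smul_smul]⟩
    · exact Or.inr h
  have hn5' : ∀ h : C.H, h • c5 v5 ≠ w5 := by
    intro h e
    exact hn5 h⁻¹ (by rw [← e, inv_smul_smul])
  obtain ⟨k5, rfl⟩ : ∃ h : C.H, h • c5 v5 = u5 :=
    one_bip hone5 (fun x => (hor5 x).symm) hn5' hu5 ⟨1, one_smul _ _⟩
  have hn6 : ∀ h : C.H, h • w5 ≠ k5 • c5 v5 := by
    intro h e
    apply hn5 (k5⁻¹ * h)
    rw [mul_smul, e, inv_smul_smul]
  have h5 : IsEmpty (S5.C5 (k5 • c5 v5)) := SyQ.c5_isEmpty hg5.conn (F.wmin S5.js hw5) hn6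
  have hinf := hC.all_inf D5 hone5 hu5
  have hUi : Infinite ↥(stabilizer C.H (k5 • c5 v5)) := by
    refine Infinite.of_injective (fun g : ↥(stabilizer C.H w5 ⊓ stabilizer C.H (k5 • c5 v5)) =>
      (⟨g.1, g.2.2⟩ : ↥(stabilizer C.H (k5 • c5 v5)))) ?_
    intro a b e
    have e' := congrArg Subtype.val e
    exact Subtype.ext e'
  obtain ⟨w', hw', hadj', hall'⟩ := hidx (js := S5.js) hg5 hone5 hu5 hn6 (hInC k5) h5 hinf
    (fun x hx => F.no_over hg5 ht5 hw5 hone5 hu5 hn6 (hInC k5) hUi hx)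
  refine ⟨D5, _, S5.js, hg5, ht5, hone5, Or.inr ⟨w5, k5 • c5 v5, hw5, ?_⟩⟩
  refine ⟨hu5, ?_, hn6, hInC k5, ?_⟩
  · intro x
    rcases hor5 x with h | ⟨h, rfl⟩
    · exact Or.inl h
    · exact Or.inr ⟨h * k5⁻¹, by rw [mul_smul, inv_smul_smul]⟩
  · obtain ⟨g, ⟨g1, g2⟩ | ⟨g1, g2⟩⟩ := hone5 _ _ _ _ hu5 hadj'.symm
    · exact ⟨g, g2, by rw [g1]; exact hw', fun y hy => by rw [g1]; exact hall' y hy⟩
    · exact absurd g1 (hn6 g)

end Pool.Agent.DI
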