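import Pool.Agent.DI.PhL

/-!
# Bare vertices in any position

`S.BrJ i p p0`: the square `i = (a, T, b, v)` of a bare vertex `v = qt i 3` over `p`, with `T = qt i 1`
over `p0`; the places need not be neighbours. `BrJ.oneDirR`: the corners of the local piece of `v` in
one direction are one orbit, without the duplicates; `lostR_of_brJ`, `lostD_of_brJ`.
-/

namespace Pool.Agent.DI

open MulAction
open Pool.Agent.SAF (InC orbs FinOrb oc Decomp SAn SA Conv hull dist_edge FinOrb_iff exists_next)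
open Pool.Agent.BT (PX PQ JS bey exits lz lz_self lz_ne lz_symm x_next_unique)
open Pool.Agent.BT.TA

namespace SyQ

variable {H V : Type} [Group H] [MulAction H V] {S : SyQ H V}

/-- a bare vertex `v = qt i 3` over `p` with `T = qt i 1` over `p0` -/
structure BrJ (S : SyQ H V) (i : S.K.I) (p p0 : S.X) : Prop extends S.P.Br i where
  Jv : S.J (S.P.qt i 3) = {p}
  JT : S.J (S.P.qt i 1) = {p0}
  ne : p0 ≠ p
  det : ∀ g : H, g • S.P.qt i 3 = S.P.qt i 3 →
    S.rho p (g • S.P.qt i 1) = S.rho p (S.P.qt i 1) → g • S.P.qt i 1 = S.P.qt i 1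
  rev : ∃ r : H, r • S.P.qt i 3 = S.P.qt i 3 ∧ S.rho p (r • S.P.qt i 1) ≠ S.rho p (S.P.qt i 1)

/-- a phantom with one direction for each orbit of corners -/
theorem Phm.oneDirJ {i : S.K.I} (hi : S.Phm i) {u : S.X} (hu : S.J (S.P.qt i 3) = {u})
    (hf : ∀ g : H, g • S.P.qt i 3 = S.P.qt i 3 →
      S.rho u (g • S.P.qt i 1) = S.rho u (S.P.qt i 1) → g • S.P.qt i 2 ≠ S.P.qt i 0)
    (g : H) {p : S.X} (hp : p ∈ S.J (g • S.P.qt i 3)) (y : V) :
    S.OneDir p y (g • S.P.qt i 3) := by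
  intro e e' b b' he he' h1 h1' h2 h2' h3 h3' h4
  have hpx : ∀ x : H, x • S.P.qt i 3 = g • S.P.qt i 3 → p = x • u := by
    intro x hx
    have h6 : x⁻¹ • p ∈ S.J (x⁻¹ • (g • S.P.qt i 3)) := S.js.smul x⁻¹ _ _ hp
    rw [← hx, inv_smul_smul, hu] at h6
    rw [← Set.mem_singleton_iff.1 h6, smul_inv_smul]
  have h5 := hi.LIJ_eq h3
  have h5' := hi.LIJ_eq h3'
  -- a corner at `a` and a corner at `b` have different directions
  have mix : ∀ x x' : H, x • S.P.qt i 3 = g • S.P.qt i 3 → x' • S.P.qt i 3 = g • S.P.qt i 3 →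
      x • S.P.qt i 0 = x' • S.P.qt i 2 →
      S.rho p (x • S.P.qt i 1) ≠ S.rho p (x' • S.P.qt i 1) := by
    intro x x' hx hx' k1 k2
    refine hf (x⁻¹ * x') ?_ ?_ ?_
    · rw [mul_smul, hx', ← hx, inv_smul_smul]
    · refine S.rho_eq_smul x ?_
      rw [← hpx x hx, ← mul_smul, mul_inv_cancel_left]
      exact k2.symm
    · rw [mul_smul, ← k1, inv_smul_smul]
  cases b with
  | true =>
    obtain ⟨c0, c1, c2⟩ := hi.cor0 (e := e) h5
    obtain ⟨q1, q2⟩ := hi.only0 (e := e) h5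
    have h5a : e.1.2 • S.P.qt i 3 = g • S.P.qt i 3 := c0.symm.trans h5
    cases b' with
    | true =>
      obtain ⟨q1', q2'⟩ := hi.only0 (e := e') h5'
      refine ⟨rfl, ?_⟩
      obtain ⟨j, hj⟩ := line_orb (e := ⟨e, he⟩) (e' := ⟨e', he'⟩) (pos_ext q1 q1' q2 q2')
      exact ⟨j, congrArg Subtype.val hj⟩
    | false =>
      exfalso
      obtain ⟨c0', c1', c2'⟩ := hi.cor2 (e := e') h5'
      have h5a' : e'.1.2 • S.P.qt i 3 = g • S.P.qt i 3 := c2'.symm.trans h5'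
      refine mix e.1.2 e'.1.2 h5a h5a' ?_ ?_
      · rw [← c1, ← c1', h1, h1']
      · rw [← c2, ← c0']
        exact h4
  | false =>
    obtain ⟨c0, c1, c2⟩ := hi.cor2 (e := e) h5
    obtain ⟨q1, q2⟩ := hi.only2 (e := e) h5
    have h5a : e.1.2 • S.P.qt i 3 = g • S.P.qt i 3 := c2.symm.trans h5
    cases b' with
    | true =>
      exfalso
      obtain ⟨c0', c1', c2'⟩ := hi.cor0 (e := e') h5'
      have h5a' : e'.1.2 • S.P.qt i 3 = g • S.P.qt i 3 := c0'.symm.trans h5'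
      refine mix e'.1.2 e.1.2 h5a' h5a ?_ ?_
      · rw [← c1, ← c1', h1, h1']
      · rw [← c0, ← c2']
        exact h4.symm
    | false =>
      obtain ⟨q1', q2'⟩ := hi.only2 (e := e') h5'
      refine ⟨rfl, ?_⟩
      obtain ⟨j, hj⟩ := line_orb (e := ⟨e, he⟩) (e' := ⟨e', he'⟩) (pos_ext q1 q1' q2 q2')
      exact ⟨j, congrArg Subtype.val hj⟩

/-- the top `T` of a walk `(a, T, b, v)` is no bare vertex -/
theorem _root_.Pool.Agent.DI.P45.Br.not_T {H V : Type} [Group H] [MulAction H V] {K : GX H V}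
    {P : P45 K} {i i' : K.I} (hi' : P.Br i') (hi : P.Ew i) (g : H) :
    P.qt i 1 ≠ g • P.qt i' 3 := by
  intro h
  have hl : K.len i = 4 := P.len4 hi.sq
  have l1 : 1 < K.len i := by
    rw [hl]
    omega
  have h1 : K.c0 ((⟨i, ⟨1, l1⟩⟩, g⁻¹) : K.LE) = P.qt i' 3 := by
    show g⁻¹ • K.vx i 1 = _
    have : K.vx i 1 = P.qt i 1 := P.vx4 hi.sq 1
    rw [this, h, inv_smul_smul]
  have h2 : (1 : ℕ) = 3 := (hi'.only _ h1).2
  omega

namespace BrJ

variable {i : S.K.I} {p p0 : S.X} (hi : S.BrJ i p p0)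
include hi

theorem ewk : S.Ewk i where
  toEw := hi.toEw
  sep0 q h1 h2 := by
    rw [hi.JT] at h2
    rw [hi.Jv] at h1
    exact hi.ne ((Set.mem_singleton_iff.1 h2).symm.trans (Set.mem_singleton_iff.1 h1))

theorem phm (hu : ∀ g : H, g • p ≠ p0) : S.Phm i where
  toEwk := hi.ewk
  only := hi.only
  sep g q h1 h2 := by
    rw [hi.JT] at h2
    have h3 : g⁻¹ • q ∈ S.J (g⁻¹ • (g • S.P.qt i 3)) := S.js.smul g⁻¹ _ _ h1
    rw [inv_smul_smul, hi.Jv] at h3
    apply hu g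
    rw [← Set.mem_singleton_iff.1 h3, smul_inv_smul]
    exact h2

/-- an element which fixes `v` and exchanges the poles at a fixed direction flips the square -/
theorem flp {k : H} (k1 : k • S.P.qt i 3 = S.P.qt i 3)
    (k2 : S.rho p (k • S.P.qt i 1) = S.rho p (S.P.qt i 1)) (k3 : k • S.P.qt i 2 = S.P.qt i 0) :
    S.Flp i := by
  have ka : S.K.ar (S.P.qt i 3) (k • S.P.qt i 0) := by
    have := S.K.ar_smul k _ _ hi.va
    rwa [k1] at this
  refine ⟨k, k1, hi.det k k1 k2, ?_, k3⟩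
  rcases S.K.two _ _ _ _ ka hi.va hi.vb with e | e | e
  · exfalso
    have : k • S.P.qt i 0 = k • S.P.qt i 2 := e.trans k3.symm
    exact hi.ab (smul_left_cancel k this)
  · exact absurd e hi.ab
  · exact e

/-- one direction is one orbit at a bare vertex which is not flipped -/
theorem oneDir (hu : ∀ g : H, g • p ≠ p0) (hf : ¬ S.Flp i) {g : H} {q : S.X}
    (hp : q ∈ S.J (g • S.P.qt i 3)) (y : V) : S.OneDir q y (g • S.P.qt i 3) :=
  (hi.phm hu).oneDirJ hi.Jv (fun _ k1 k2 k3 => hf (hi.flp k1 k2 k3)) g hp y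

/-- one direction is one orbit at a bare vertex, without the duplicates -/
theorem oneDirR (hu : ∀ g : H, g • p ≠ p0) {F : S.K.I → Prop}
    (hF : S.Flp i → F i) {g : H} {q : S.X} (hp : q ∈ S.J (g • S.P.qt i 3)) (y : V) :
    S.OneDirR (S.pR F) q y (g • S.P.qt i 3) := by
  by_cases hf : S.Flp i
  · exact (hi.phm hu).oneDirR (hF hf) g q y
  · exact (hi.oneDir hu hf hp y).R _

end BrJ

/-- [LOST]: if all lost nodes are bare vertices -/
theorem lostR_of_brJ {ι : Type} {w : ι → S.X} {F : S.K.I → Prop}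
    (h : ∀ y n, S.K.ar n y → ∀ p, p ∈ S.J y → p ∈ S.J n → ¬ Bp H w p →
      ∃ (i : S.K.I) (g : H) (u p0 : S.X), n = g • S.P.qt i 3 ∧ S.BrJ i u p0 ∧
        (∀ x : H, x • u ≠ p0) ∧ (S.Flp i → F i)) :
    S.LostR (S.pR F) w := by
  intro y n har p h1 h2 h3
  obtain ⟨i, g, u, p0, rfl, hi, hu, hF⟩ := h y n har p h1 h2 h3
  exact hi.oneDirR hu hF h2 y

/-- [LOST] if no bare vertex is flipped -/
theorem lostD_of_brJ {ι : Type} {w : ι → S.X}
    (h : ∀ y n, S.K.ar n y → ∀ p, p ∈ S.J y → p ∈ S.J n → ¬ Bp H w p →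
      ∃ (i : S.K.I) (g : H) (u p0 : S.X), n = g • S.P.qt i 3 ∧ S.BrJ i u p0 ∧
        (∀ x : H, x • u ≠ p0) ∧ ¬ S.Flp i) :
    S.LostD w := by
  intro y n har p h1 h2 h3
  obtain ⟨i, g, u, p0, rfl, hi, hu, hF⟩ := h y n har p h1 h2 h3
  exact hi.oneDir hu hF h2 y

/-- a bare vertex, if all vertices over `q` with a pole over `q` are bare: then no translate of `p` is
`p0` -/
theorem BrJ.hu {i : S.K.I} {p p0 : S.X} (hi : S.BrJ i p p0) (hcx : p0 ∈ S.J (S.P.qt i 0))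
    (hb : ∀ g : H, ∀ n y, S.K.ar n y → g • p ∈ S.J n → g • p ∈ S.J y →
      ∃ (i' : S.K.I) (x : H), n = x • S.P.qt i' 3 ∧ S.P.Br i') (g : H) : g • p ≠ p0 := by
  intro e
  have h1 : g • p ∈ S.J (S.P.qt i 1) := by
    rw [hi.JT, e]
    rfl
  obtain ⟨i', x, k1, k2⟩ := hb g (S.P.qt i 1) (S.P.qt i 0) hi.Ta h1 (by rw [e]; exact hcx)
  exact k2.not_T hi.toEw x k1

end SyQ

end Pool.Agent.DI
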