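import Pool.Agent.DI.OvQ

/-!
# DI/PlcQ: placement and connected walls at the same time, for pentagons and squares

The statements of DI/PlcD for `SyQ`. `exists_placedQ`: a one-edge inverted system in which every
vertex over the midpoint `u` is reversed; the collapse of `S.next` to the orbit of the edges at a
vertex over `u` with the same group is a good one-edge inverted system with the same groups `H_u`,
`H_w n H_u`, in which every vertex over the midpoint is reversed. The new system is given as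
`S.next.col` of an equivariant tree map, so everything that passes through `next` and `col` holds.
-/

namespace Pool.Agent.DI

open MulAction
open Pool.Agent.SAF (InC SA orbs FinOrb oc Decomp SAn Conv exists_next)
open Pool.Agent.BT (PX PQ JS bey exits Ell mst)
open Pool.Agent.BT.TA (bey_or bey_not bey_self conv_cr conv_sd)

namespace SyQ

variable {H V : Type} [Group H] [MulAction H V] {S : SyQ H V}

/-- two vertices over the same vertex of the refinement -/
theorem eqv_of_J' {l : S.LV} {x z : V} (hx : l ∈ S.J' x) (hz : l ∈ S.J' z) :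
    Relation.EqvGen (S.SR (S.pr l)) x z := by
  obtain ⟨a, ea⟩ := hx
  obtain ⟨b, eb⟩ := hz
  have key : ∀ q r : S.V1, Relation.EqvGen S.lr q r →
      q.1.2 = r.1.2 ∧ Relation.EqvGen (S.SR q.1.2) q.1.1 r.1.1 := by
    intro q r k
    induction k with
    | rel q r h => exact ⟨h.1, Relation.EqvGen.rel _ _ h.2⟩
    | refl q => exact ⟨rfl, Relation.EqvGen.refl _⟩
    | symm q r h ih =>
      refine ⟨ih.1.symm, ?_⟩
      rw [← ih.1]
      exact ih.2.symm _ _
    | trans q r s h h' ih1 ih2 =>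
      refine ⟨ih1.1.trans ih2.1, ?_⟩
      have := ih2.2
      rw [← ih1.1] at this
      exact ih1.2.trans _ _ _ this
  exact (key ⟨(x, S.pr l), a⟩ ⟨(z, S.pr l), b⟩ (Quotient.exact (ea.trans eb.symm))).2

variable (S) in
/-- the wall class over `u t` which belongs to `x` -/
def Cwp (u t : S.X) (x y : V) : Prop :=
  (S.Cs u t x ∧ Relation.EqvGen (S.PW u t) x y) ∨
    ∃ v a, (v = x ∨ S.K.ar x v) ∧ S.J v = {u} ∧ S.K.ar v a ∧ Relation.EqvGen (S.PW u t) a y

namespace Mp

variable {w u w' : S.X} (m : S.Mp w u w')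

include m

/-- pages and poles of a vertex over `u` are in one class -/
theorem page_eqv {v n a : V} (hv : S.J v = {u}) (hn : S.K.ar n v) (h : w' ∈ S.J n)
    (ha : S.K.ar v a) : Relation.EqvGen (S.PW u w') n a := by
  obtain ⟨k, h1, h2, h3⟩ := m.pc hn ha
  have key : ∀ x y, S.K.PC v x y → ((S.K.ar x v ∧ w' ∈ S.J x) ↔ (S.K.ar y v ∧ w' ∈ S.J y)) ∧
      ((S.K.ar x v ∧ w' ∈ S.J x) → Relation.EqvGen (S.PW u w') x y) := by
    intro x y hxy
    induction hxy with
    | rel x y h =>
      have e := m.symm.pc_side hv (Relation.EqvGen.rel _ _ h : S.K.PC v x y)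
      refine ⟨e, fun hx => ?_⟩
      rcases m.cor_pw hv h.2.2 with k | k
      · exact absurd k.l.2 (fun k' => m.page_one hv hx.1 k' hx.2)
      · exact Relation.EqvGen.rel _ _ k
    | refl x => exact ⟨Iff.rfl, fun _ => Relation.EqvGen.refl _⟩
    | symm x y _ ih => exact ⟨ih.1.symm, fun hy => (ih.2 (ih.1.2 hy)).symm _ _⟩
    | trans x y z _ _ i1 i2 =>
      exact ⟨i1.1.trans i2.1, fun hx => (i1.2 hx).trans _ _ _ (i2.2 (i1.1.1 hx))⟩
  obtain ⟨e1, e2⟩ := key n k h1
  have hk := e1.1 ⟨hn, h⟩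
  refine (e2 ⟨hn, h⟩).trans _ _ _ ?_
  rcases m.cor_pw hv h3 with k' | k'
  · exact absurd k'.l.2 (fun k'' => m.page_one hv hk.1 k'' hk.2)
  · exact Relation.EqvGen.rel _ _ k'

omit m in
theorem PW_eqv_smul {t : S.X} (g : H) (hu : g • u = u) {t' : S.X} (ht : g • t = t') {x y : V}
    (h : Relation.EqvGen (S.PW u t) x y) : Relation.EqvGen (S.PW u t') (g • x) (g • y) := by
  induction h with
  | rel x y h =>
    have := PW.smul S g h
    rw [hu, ht] at this
    exact Relation.EqvGen.rel _ _ this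
  | refl x => exact Relation.EqvGen.refl _
  | symm x y _ ih => exact ih.symm _ _
  | trans x y z _ _ i1 i2 => exact i1.trans _ _ _ i2

/-- the poles of a reversed vertex over `u` are in one class -/
theorem pole_eqv {v a a' : V} {g : H} (hv : S.J v = {u}) (hg : g • v = v) (hw : g • w = w')
    (ha : S.K.ar v a) (ha' : S.K.ar v a') : Relation.EqvGen (S.PW u w') a a' := by
  by_cases hne : a = a'
  · subst hne
    exact Relation.EqvGen.refl _
  have hu := m.fix_u hv hg
  by_cases hpg : ∃ n, S.K.ar n v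
  · obtain ⟨n0, hn0⟩ := hpg
    obtain ⟨n, hn, hwn⟩ : ∃ n, S.K.ar n v ∧ w' ∈ S.J n := by
      rcases (m.nb hv (Or.inr hn0)).2 with h | h
      · refine ⟨g • n0, ?_, ?_⟩
        · have := S.K.ar_smul g _ _ hn0
          rwa [hg] at this
        · rw [← hw]
          exact S.js.smul g _ _ h
      · exact ⟨n0, hn0, h⟩
    exact ((m.page_eqv hv hn hwn ha).symm).trans _ _ _ (m.page_eqv hv hn hwn ha')
  · push Not at hpg
    obtain ⟨b, hb⟩ := GX.EC_iff.1 (m.ec (Or.inr ha : S.K.E a v))
    have hvb : S.K.ar v b := hb.E2.resolve_right (hpg b)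
    have hab : a ≠ b := m.nbt hb
    have hba : b = a' := by
      rcases GX.Sft.cases ha ha' hne hvb with e | e
      · exact absurd e.symm hab
      · exact e
    subst hba
    rcases m.cor_pw hv hb with k | k
    · have h1 := PW_eqv_smul g hu hw (Relation.EqvGen.rel _ _ k)
      have i1 : S.K.ar v (g • a) := by
        have := S.K.ar_smul g _ _ ha
        rwa [hg] at this
      have i2 : S.K.ar v (g • b) := by
        have := S.K.ar_smul g _ _ hvb
        rwa [hg] at this
      have hgne : g • a ≠ g • b := fun e => hab (smul_left_cancel g e)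
      rcases GX.Sft.cases ha hvb hab i1 with e1 | e1 <;>
        rcases GX.Sft.cases ha hvb hab i2 with e2 | e2
      · exact absurd (e1.trans e2.symm) hgne
      · rw [e1, e2] at h1
        exact h1
      · rw [e1, e2] at h1
        exact h1.symm _ _
      · exact absurd (e1.trans e2.symm) hgne
    · exact Relation.EqvGen.rel _ _ k

section rev

variable (rev : ∀ v, S.J v = {u} → ∃ g : H, g • v = v ∧ g • w = w')

include rev

theorem rev_symm : ∀ v, S.J v = {u} → ∃ g : H, g • v = v ∧ g • w' = w := by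
  intro v hv
  obtain ⟨g, h1, h2⟩ := rev v hv
  refine ⟨g, h1, ?_⟩
  rcases m.mid.cases (m.fix_u hv h1) with h | h
  · exact absurd (h.1.symm.trans h2) m.mid.ne
  · exact h.2

/-- a pole of a vertex over `u` is not over `u` -/
theorem pole_not {v a : V} (hv : S.J v = {u}) (ha : S.K.ar v a) : S.J a ≠ {u} := by
  intro e
  obtain ⟨g, h1, h2⟩ := rev v hv
  have := (m.rev_pole hv h1 h2 ha).1
  rw [e] at this
  exact m.mid.hw.ne this.symm

theorem cwp_cs {x : V} (hx : S.Cs u w' x) (y : V) :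
    S.Cwp u w' x y ↔ Relation.EqvGen (S.PW u w') x y := by
  constructor
  · rintro (⟨-, h⟩ | ⟨v, a, hv, hJ, ha, h⟩)
    · exact h
    · rcases hv with rfl | hv
      · exfalso
        have := hx.2
        rw [hJ] at this
        exact m.mid.hw'.ne this.symm
      · exact (m.page_eqv hJ hv hx.2 ha).trans _ _ _ h
  · intro h
    exact Or.inl ⟨hx, h⟩

theorem cwp_over {x a : V} (hx : S.J x = {u}) (ha : S.K.ar x a) (y : V) :
    S.Cwp u w' x y ↔ Relation.EqvGen (S.PW u w') a y := by
  obtain ⟨g, g1, g2⟩ := rev x hx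
  constructor
  · rintro (⟨h, -⟩ | ⟨v, a', hv, hJ, ha', h⟩)
    · exfalso
      have := h.2
      rw [hx] at this
      exact m.mid.hw'.ne this.symm
    · rcases hv with rfl | hv
      · exact (m.pole_eqv hx g1 g2 ha ha').trans _ _ _ h
      · exact absurd hJ (m.pole_not rev hx hv)
  · intro h
    exact Or.inr ⟨x, a, Or.inl rfl, hx, ha, h⟩

theorem cwp_E' {x z : V} (hx : S.J x = {u}) (e : S.K.E x z) (y : V) :
    S.Cwp u w' x y ↔ S.Cwp u w' z y := by
  obtain ⟨a, ha⟩ := m.ov_pole hx
  obtain ⟨g, g1, g2⟩ := rev x hx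
  have hz := m.nb hx e
  rw [m.cwp_over rev hx ha]
  rcases e with e | e
  · -- `z` is a pole
    have hc := (m.rev_pole hx g1 g2 e).2
    rw [m.cwp_cs rev ⟨hz.1, hc⟩]
    have h := m.pole_eqv hx g1 g2 ha e
    exact ⟨fun k => (h.symm).trans _ _ _ k, fun k => h.trans _ _ _ k⟩
  · -- `z` is a page
    by_cases hc : w' ∈ S.J z
    · rw [m.cwp_cs rev ⟨hz.1, hc⟩]
      have h := m.page_eqv hx e hc ha
      exact ⟨fun k => h.trans _ _ _ k, fun k => (h.symm).trans _ _ _ k⟩
    · have hwz : w ∈ S.J z := hz.2.resolve_right hc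
      constructor
      · intro k
        exact Or.inr ⟨x, a, Or.inr e, hx, ha, k⟩
      · rintro (⟨h, -⟩ | ⟨v, a', hv, hJ, ha', h⟩)
        · exact absurd h.2 hc
        · rcases hv with rfl | hv
          · exfalso
            rw [hJ] at hwz
            exact m.mid.hw.ne hwz.symm
          · have hvx : v = x := by
              by_contra hne
              exact exll (a := v) (b := x) hv e hne hz.1 (by rw [hJ]; rfl) (by rw [hx]; rfl)
                m.mid.hw hwz
            subst hvx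
            exact (m.pole_eqv hx g1 g2 ha ha').trans _ _ _ h

/-- the class does not change along the slice at `u` -/
theorem cwp_sr {x z : V} (h : S.SR u x z) (y : V) : S.Cwp u w' x y ↔ S.Cwp u w' z y := by
  rcases h with ⟨e, hx, hz⟩ | ⟨t, h⟩
  · rcases m.u1 e hx hz with k | k
    · exact m.cwp_E' rev k e y
    · exact (m.cwp_E' rev k e.symm y).symm
  · have same : S.PW u w' x z → (S.Cwp u w' x y ↔ S.Cwp u w' z y) := by
      intro h
      rw [m.cwp_cs rev h.l, m.cwp_cs rev h.r]
      have k : Relation.EqvGen (S.PW u w') x z := Relation.EqvGen.rel _ _ h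
      exact ⟨fun k' => (k.symm).trans _ _ _ k', fun k' => k.trans _ _ _ k'⟩
    rcases m.mid.val t h.1 with rfl | rfl
    · rcases m.step' h.swap with ⟨q, hq, e1, e2⟩ | k
      · exact (m.cwp_E' rev hq e1.symm y).symm.trans (m.cwp_E' rev hq e2 y)
      · exact same k
    · exact same h

/-- THE CLASSES OVER `u w'` WHICH BELONG TO ONE VERTEX OF THE REFINEMENT -/
theorem one_class {l : S.LV} (hl : S.pr l = u) {x z : V} (hx : l ∈ S.J' x) (hz : l ∈ S.J' z)
    (cx : w' ∈ S.J x) (cz : w' ∈ S.J z) : Relation.EqvGen (S.PW u w') x z := by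
  have h1 := eqv_of_J' hx hz
  rw [hl] at h1
  have key : ∀ x z, Relation.EqvGen (S.SR u) x z → ∀ y, S.Cwp u w' x y ↔ S.Cwp u w' z y := by
    intro x z h
    induction h with
    | rel x z h => exact m.cwp_sr rev h
    | refl x => exact fun _ => Iff.rfl
    | symm x z _ ih => exact fun y => (ih y).symm
    | trans x y z _ _ i1 i2 => exact fun t => (i1 t).trans (i2 t)
  have h2 := key x z h1
  have ux : u ∈ S.J x := by
    have := S.J'_pr hx
    rwa [hl] at this
  have uz : u ∈ S.J z := by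
    have := S.J'_pr hz
    rwa [hl] at this
  have h3 := (h2 z).2 (Or.inl ⟨⟨uz, cz⟩, Relation.EqvGen.refl _⟩)
  exact (m.cwp_cs rev ⟨ux, cx⟩ z).1 h3

/-- only one neighbour over `w'` -/
theorem one_nbr {l : S.LV} (hl : S.pr l = u) {t t' : S.LV} (ht : S.LAdj l t) (ht' : S.LAdj l t')
    (e : S.pr t = w') (e' : S.pr t' = w') : t = t' := by
  obtain ⟨-, x, x1, x2⟩ := ht
  obtain ⟨-, z, z1, z2⟩ := ht'
  have cx : w' ∈ S.J x := by
    rw [← e]
    exact S.J'_pr x2
  have cz : w' ∈ S.J z := by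
    rw [← e']
    exact S.J'_pr z2
  have h := m.one_class rev hl x1 z1 cx cz
  rw [← hl, ← e] at h
  have h2 := (S.J'_wall h).2.1 x2
  exact S.J'_inj h2 z2 (e.trans e'.symm)

end rev

end Mp

/-- an inverted one-edge system in which all vertices over the midpoint are reversed -/
structure Plc (S : SyQ H V) (w u w' : S.X) : Prop where
  mp : S.Mp w u w'
  one : ∀ x y, S.D.G.Adj x y → Eo S.D w u x y
  ne : ∀ h : H, h • w ≠ u
  rev : ∀ v, S.J v = {u} → ∃ g : H, g • v = v ∧ g • w = w'

/-- PLACEMENT AND CONNECTED WALLS -/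
theorem exists_placedQ {Z : V → Prop} (h0 : S.GdQ0 Z)
    (hZ : ∀ z, (∀ a, ¬ S.K.ar z a) → Z z → Ell H S.next.X z)
    {w u w' : S.X} (p : S.Plc w u w')
    (hU : InC ↥(stabilizer H u)) {b : H} (hb : b • u = u) (hbw : b • w = w')
    (hinf : ∀ D1 : Decomp H, ∃ x y : D1.X, D1.G.Adj x y ∧
      Infinite ↥(stabilizer H x ⊓ stabilizer H y)) :
    ∃ (D1 : Decomp H) (c : S.next.X → D1.X) (T : TMap S.next.D.G D1.G c)
      (hc : ∀ (h : H) a, c (h • a) = h • c a) (hs : S.next.SinkOK) (w1 u1 w1' : D1.X),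
      (S.next.col hs T hc).GdQ Z ∧ (S.next.col hs T hc).Plc w1 u1 w1' ∧
      stabilizer H u1 = stabilizer H u ∧
      stabilizer H w1 ⊓ stabilizer H u1 = stabilizer H w ⊓ stabilizer H u ∧
      b • u1 = u1 ∧ b • w1 = w1' := by
  classical
  obtain ⟨m, hone, hn, rev⟩ := p
  have hgd : S.next.GdQ Z := h0.next
  have rev' := m.rev_symm rev
  -- the refinement
  let D2 : Decomp H := S.LD
  let S2 : SyQ H V := S.next
  let D : Decomp H := S.D
  let J : V → Set D.X := S.J
  let pr : D2.X → D.X := S.pr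
  have ps : ∀ (h : H) (l : D2.X), pr (h • l) = h • pr l := S.pr_smul
  have pa : ∀ l k : D2.X, D2.G.Adj l k → D.G.Adj (pr l) (pr k) := fun l k h =>
    (h : S.LAdj l k).1
  have pj : ∀ (x : V) (l : D2.X), l ∈ S2.J x → pr l ∈ J x := fun x l h => S.J'_pr h
  have pe : ∀ (x : V) (p : D.X), p ∈ J x → ∃ l : D2.X, l ∈ S2.J x ∧ pr l = p :=
    fun x p h => S.J'_ex h
  have mk : ∀ (x : V) (l k : D2.X), D.G.Adj (pr l) (pr k) → l ∈ S2.J x → k ∈ S2.J x →
      D2.G.Adj l k := fun x l k h1 h2 h3 => (⟨h1, x, h2, h3⟩ : S.LAdj l k)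
  -- the vertex over `u`
  obtain ⟨u2, hu2, hst⟩ := exists_fix_over (D := D) (D' := D2) (pr := pr) ps pa m.mid.val
    m.mid.ne hU hb hbw hone (hinf D2)
  have nb1 : ∀ t t' : D2.X, D2.G.Adj u2 t → D2.G.Adj u2 t' → pr t = w' → pr t' = w' →
      t = t' := fun t t' h1 h2 h3 h4 =>
    m.one_nbr rev hu2 (h1 : S.LAdj u2 t) (h2 : S.LAdj u2 t') h3 h4
  have nb2 : ∀ t t' : D2.X, D2.G.Adj u2 t → D2.G.Adj u2 t' → pr t = w → pr t' = w →
      t = t' := fun t t' h1 h2 h3 h4 =>
    m.symm.one_nbr rev' hu2 (h1 : S.LAdj u2 t) (h2 : S.LAdj u2 t') h3 h4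
  have fx : ∀ g : H, g • u = u → g • u2 = u2 := by
    intro g hg
    have : g ∈ stabilizer H u2 := by
      rw [hst]
      exact hg
    exact this
  have hbu2 : b • u2 = u2 := fx b hb
  have mv : ∀ (g : H) (t : D2.X), g • u = u → D2.G.Adj u2 t → D2.G.Adj u2 (g • t) := by
    intro g t hg ht
    have := D2.adj_smul g _ _ ht
    rwa [fx g hg] at this
  -- its neighbours
  obtain ⟨t0, ht0⟩ := exists_nb D2 u2
  have hbw' : b • w' = w := by
    rcases m.mid.cases hb with h | h
    · exact absurd (h.1.symm.trans hbw) m.mid.ne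
    · exact h.2
  obtain ⟨w2, hw2, hpw⟩ : ∃ w2, D2.G.Adj u2 w2 ∧ pr w2 = w := by
    have h1 : D.G.Adj u (pr t0) := by
      rw [← hu2]
      exact pa _ _ ht0
    rcases m.mid.val _ h1 with h | h
    · exact ⟨t0, ht0, h⟩
    · refine ⟨b • t0, mv b t0 hb ht0, ?_⟩
      rw [ps, h]
      exact hbw'
  have hw2' : D2.G.Adj u2 (b • w2) := mv b w2 hb hw2
  have hpw' : pr (b • w2) = w' := by
    rw [ps, hpw]
    exact hbw
  have hne : w2 ≠ b • w2 := by
    intro e
    apply m.mid.ne
    rw [← hpw, ← hpw', ← e]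
  have hval : ∀ z, D2.G.Adj u2 z → z = w2 ∨ z = b • w2 := by
    intro z hz
    have h1 : D.G.Adj u (pr z) := by
      rw [← hu2]
      exact pa _ _ hz
    rcases m.mid.val _ h1 with h | h
    · exact Or.inl (nb2 _ _ hz hw2 h hpw)
    · exact Or.inr (nb1 _ _ hz hw2' h hpw')
  -- the collapse
  obtain ⟨D1, c, T, hc, hcu, hcne, hval1, hone1⟩ := exists_mid_col (D := D2) (u := u2) (l := w2)
    (l' := b • w2) hw2 hw2' hne hval hbu2 rfl
  let S1 : SyQ H V := S2.col hgd.sinkOK T hc
  have hg1 : S1.GdQ Z := hgd.col hZ T hc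
  have hst1 : stabilizer H (c u2) = stabilizer H u := by
    rw [← hst]
    ext g
    constructor
    · intro h
      have h' : g • c u2 = c u2 := h
      rw [← hc] at h'
      exact hcu _ h'
    · intro h
      have h' : g • u2 = u2 := h
      show g • c u2 = c u2
      rw [← hc, h']
  have hmemJ : ∀ x : V, c u2 ∈ S1.J x → u2 ∈ S2.J x := by
    rintro x ⟨l, hl, e⟩
    rw [← hcu l e]
    exact hl
  have hmemU : ∀ x : V, c u2 ∈ S1.J x → u ∈ S.J x := by
    intro x hx
    have := pj x _ (hmemJ x hx)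
    rwa [hu2] at this
  have hlift : ∀ (x : V) (t : D.X) (t2 : D2.X), D2.G.Adj u2 t2 → pr t2 = t →
      (∀ z, D2.G.Adj u2 z → pr z = t → z = t2) → u2 ∈ S2.J x → t ∈ J x → t2 ∈ S2.J x := by
    intro x t t2 h1 h2 h3 h4 h5
    obtain ⟨l, hl, e⟩ := pe x t h5
    have h6 : D2.G.Adj u2 l := by
      apply mk x _ _ _ h4 hl
      rw [e, ← h2]
      exact pa _ _ h1
    rw [← h3 l h6 e]
    exact hl
  have hgw : ∀ g : H, g • u = u → g • w = w' → g • w2 = b • w2 := by
    intro g hg hw
    apply nb1 _ _ (mv g w2 hg hw2) hw2' _ hpw'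
    rw [ps, hpw]
    exact hw
  refine ⟨D1, c, T, hc, hgd.sinkOK, c w2, c u2, c (b • w2), hg1, ⟨?_, hone1, ?_, ?_⟩, hst1, ?_,
    ?_, (hc b w2).symm⟩
  · refine ⟨⟨?_, ?_, hcne, hval1⟩, m.ec, m.nbt, m.pc, ?_, ?_, ?_⟩
    · exact T.adj' hw2 (fun e => hw2.ne (hcu _ e.symm).symm)
    · exact T.adj' hw2' (fun e => hw2'.ne (hcu _ e.symm).symm)
    · intro a q b' y z hp hce
      obtain ⟨c2, hc2⟩ := Qn.cen (S := S2) hp
      have hv : ∀ k, S2.K.E (![a, q, b', y, z] k) (![a, q, b', y, z] (k + 1)) := Qn.hv hp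
      have h1 : S1.IsC ![a, q, b', y, z] (c c2) := by
        intro k
        exact (hc2 k).imp (fun h => ⟨_, h, rfl⟩) (fun h => ⟨_, h, rfl⟩)
      have h2 : c c2 = c u2 := S1.isC_unique hv h1 hce
      have h3 : c2 = u2 := hcu _ h2
      apply m.nc hp
      intro k
      have := hc2 k
      rw [h3] at this
      rw [← hu2]
      exact this.imp (pj _ _) (pj _ _)
    · intro a q b' y hp h1 h2 h3 h4
      exact m.nsq hp (hmemU _ h1) (hmemU _ h2) (hmemU _ h3) (hmemU _ h4)
    · intro z hz hz2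
      have h1 := hmemJ z hz2
      obtain ⟨h3, h4⟩ := m.snk z hz (hmemU z hz2)
      constructor
      · exact ⟨w2, hlift z w w2 hw2 hpw (fun k h5 h6 => nb2 _ _ h5 hw2 h6 hpw) h1 h3, rfl⟩
      · exact ⟨b • w2, hlift z w' (b • w2) hw2' hpw' (fun k h5 h6 => nb1 _ _ h5 hw2' h6 hpw')
          h1 h4, rfl⟩
  · intro h e
    have e' : h • c w2 = c u2 := e
    rw [← hc] at e'
    have h1 := hcu _ e'
    apply hn h
    have h2 : pr (h • w2) = pr u2 := congrArg pr h1
    rw [ps, hpw, hu2] at h2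
    exact h2
  · intro v hv
    have hv' : c '' S2.J v = {c u2} := hv
    have h1 : S.J v = {u} := by
      ext p
      constructor
      · intro hp
        obtain ⟨l, hl, e⟩ := pe v p hp
        have h2 : c l ∈ c '' S2.J v := ⟨l, hl, rfl⟩
        rw [hv', Set.mem_singleton_iff] at h2
        have h3 := hcu l h2
        rw [← e, h3]
        exact hu2
      · rintro rfl
        have h2 : c u2 ∈ S1.J v := by
          rw [show S1.J v = c '' S2.J v from rfl, hv']
          rfl
        exact hmemU v h2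
    obtain ⟨g, g1, g2⟩ := rev v h1
    refine ⟨g, g1, ?_⟩
    show g • c w2 = c (b • w2)
    rw [← hc, hgw g (m.fix_u h1 g1) g2]
  · rw [hst1]
    ext g
    constructor
    · rintro ⟨h1, h2⟩
      have h1' : g • c w2 = c w2 := h1
      have h2' : g • u = u := h2
      refine ⟨?_, h2⟩
      show g • w = w
      rcases m.mid.cases h2' with h | h
      · exact h.1
      · exfalso
        apply hcne
        rw [← hgw g h2' h.1, hc, h1']
    · rintro ⟨h1, h2⟩
      have h1' : g • w = w := h1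
      have h2' : g • u = u := h2
      refine ⟨?_, h2⟩
      show g • c w2 = c w2
      have h4 : g • w2 = w2 := by
        apply nb2 _ _ (mv g w2 h2' hw2) hw2 _ hpw
        rw [ps, hpw]
        exact h1'
      rw [← hc, h4]
  · rw [← hc, hbu2]

end SyQ

end Pool.Agent.DI
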