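import Pool.Agent.DI.QK0b

/-!
# DI/PlcdS: placed systems (helper11, helper93)

`S.Plcd`: a vertex with one point can not be moved over an edge towards all its pages; a soft without
pages not towards all centres of the pentagons at its direct corners.
-/

namespace Pool.Agent.DI

open MulAction
open Pool.Agent.BT (bey)

/-- PLACED SYSTEMS -/
structure SyQ.Plcd {H V : Type} [Group H] [MulAction H V] (S : SyQ H V) : Prop where
  page : ∀ (x : V) (p p' : S.X), S.J x = {p} → S.D.G.Adj p p' →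
    (∀ h : H, h • x = x → h • p' = p') → (∀ a, S.K.ar x a → p' ∈ S.J a) → (∃ n, S.K.ar n x) →
    ∃ n, S.K.ar n x ∧ p' ∉ S.J n
  nopage : ∀ (v : V) (p p' : S.X), (∃ a, S.K.ar v a) → (∀ n, ¬ S.K.ar n v) → S.J v = {p} →
    S.D.G.Adj p p' → (∀ h : H, h • v = v → h • p' = p') → (∀ a, S.K.ar v a → p' ∈ S.J a) →
    (∃ a b y z, Qn S.P a v b y z) →
    ∃ a b y z c, Qn S.P a v b y z ∧ S.IsC ![a, v, b, y, z] c ∧ c ∉ bey S.D.G p p'

end Pool.Agent.DI
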