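import Pool.Agent.DI.Lk

/-!
# Pieces

`K.IC y a b`: a corner `a y b` with two in-arrows `a → y`, `b → y`. `K.IJ y`: same piece. `K.Pc y n`:
the piece of `n` (a set). `K.ip`: the pieces without poles as `JM`; `K.cyc` its Betti number. `K.pc`: the
pieces with private poles (`PN.pol y a C`: the end of the piece `C` at the pole `a` of `y`), corners
between two poles are left out; `K.eh2` its Betti number (`= 2 E^h`).
-/

namespace Pool.Agent.DI

open MulAction
open Pool.Agent.SAF (InC orbs FinOrb oc mk_eq_iff FinOrb_iff)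

/-! ### the nodes -/

/-- nodes of the pieces and private poles -/
inductive PN (V : Type) : Type
  | inn : V → V → PN V
  | pol : V → V → Set V → PN V

instance {H V : Type} [Group H] [MulAction H V] : MulAction H (PN V) where
  smul h t := match t with
    | PN.inn y n => PN.inn (h • y) (h • n)
    | PN.pol y a C => PN.pol (h • y) (h • a) ((fun x => h • x) '' C)
  one_smul t := by
    cases t with
    | inn y n =>
      show PN.inn ((1 : H) • y) ((1 : H) • n) = _
      rw [one_smul, one_smul]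
    | pol y a C =>
      show PN.pol ((1 : H) • y) ((1 : H) • a) ((fun x => (1 : H) • x) '' C) = PN.pol y a C
      simp
  mul_smul a b t := by
    cases t with
    | inn y n =>
      show PN.inn ((a * b) • y) ((a * b) • n) = PN.inn (a • b • y) (a • b • n)
      rw [mul_smul, mul_smul]
    | pol y p C =>
      show PN.pol ((a * b) • y) ((a * b) • p) ((fun x => (a * b) • x) '' C) =
        PN.pol (a • b • y) (a • b • p) ((fun x => a • x) '' ((fun x => b • x) '' C))
      rw [Set.image_image, mul_smul, mul_smul]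
      simp only [mul_smul]

theorem PN.smul_inn {H V : Type} [Group H] [MulAction H V] (h : H) (y n : V) :
    h • PN.inn y n = PN.inn (h • y) (h • n) := rfl

theorem PN.smul_pol {H V : Type} [Group H] [MulAction H V] (h : H) (y a : V) (C : Set V) :
    h • PN.pol y a C = PN.pol (h • y) (h • a) ((fun x => h • x) '' C) := rfl

private theorem finOrb_union' {H X : Type} [Group H] [MulAction H X] {A B : Set X}
    (hA : FinOrb H A) (hB : FinOrb H B) : FinOrb H (A ∪ B) := by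
  have hA : (orbs H A).Finite := hA
  have hB : (orbs H B).Finite := hB
  have : orbs H (A ∪ B) = orbs H A ∪ orbs H B := Set.image_union _ _ _
  show (orbs H (A ∪ B)).Finite
  rw [this]
  exact hA.union hB

namespace GX

variable {H V : Type} [Group H] [MulAction H V] (K : GX H V)

/-! ### pieces -/

/-- a corner between two in-arrows -/
def IC (y a b : V) : Prop := K.Cor a y b ∧ K.ar a y ∧ K.ar b y

/-- same piece -/
def IJ (y a b : V) : Prop := Relation.EqvGen (K.IC y) a b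

/-- the piece of `n` -/
def Pc (y n : V) : Set V := {m | K.IJ y n m}

variable {K}

theorem IC.symm' {y a b : V} (h : K.IC y a b) : K.IC y b a := ⟨h.1.symm, h.2.2, h.2.1⟩

theorem IC.smul (g : H) {y a b : V} (h : K.IC y a b) : K.IC (g • y) (g • a) (g • b) :=
  ⟨h.1.smul g, K.ar_smul g _ _ h.2.1, K.ar_smul g _ _ h.2.2⟩

theorem IJ.smul (g : H) {y a b : V} (h : K.IJ y a b) : K.IJ (g • y) (g • a) (g • b) := by
  induction h with
  | rel a b h => exact Relation.EqvGen.rel _ _ (h.smul g)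
  | refl a => exact Relation.EqvGen.refl _
  | symm a b _ ih => exact ih.symm
  | trans a b c _ _ ih1 ih2 => exact ih1.trans _ _ _ ih2

theorem IJ.symm' {y a b : V} (h : K.IJ y a b) : K.IJ y b a := Relation.EqvGen.symm _ _ h

theorem IJ.trans' {y a b c : V} (h : K.IJ y a b) (h' : K.IJ y b c) : K.IJ y a c :=
  Relation.EqvGen.trans _ _ _ h h'

theorem IJ.lj {y a b : V} (h : K.IJ y a b) : K.LJ y a b := by
  induction h with
  | rel a b h => exact Relation.EqvGen.rel _ _ h.1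
  | refl a => exact Relation.EqvGen.refl _
  | symm a b _ ih => exact ih.symm
  | trans a b c _ _ ih1 ih2 => exact ih1.trans _ _ _ ih2

theorem IJ.ar {y a b : V} (h : K.IJ y a b) : K.ar a y ↔ K.ar b y := by
  induction h with
  | rel a b h => exact ⟨fun _ => h.2.2, fun _ => h.2.1⟩
  | refl a => exact Iff.rfl
  | symm a b _ ih => exact ih.symm
  | trans a b c _ _ ih1 ih2 => exact ih1.trans ih2

theorem mem_Pc {y n m : V} : m ∈ K.Pc y n ↔ K.IJ y n m := Iff.rfl

theorem self_Pc (y n : V) : n ∈ K.Pc y n := Relation.EqvGen.refl n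

theorem Pc_eq {y n m : V} : K.Pc y n = K.Pc y m ↔ K.IJ y n m := by
  constructor
  · intro h
    have := self_Pc (K := K) y m
    rw [← h] at this
    exact this
  · intro h
    ext z
    exact ⟨fun k => h.symm'.trans' k, fun k => h.trans' k⟩

theorem Pc_smul (g : H) (y n : V) : (fun x => g • x) '' K.Pc y n = K.Pc (g • y) (g • n) := by
  ext z
  constructor
  · rintro ⟨m, hm, rfl⟩
    exact IJ.smul g hm
  · intro hz
    refine ⟨g⁻¹ • z, ?_, smul_inv_smul g z⟩
    have := IJ.smul g⁻¹ hz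
    rw [inv_smul_smul, inv_smul_smul] at this
    exact this

/-- at a sink the pieces are the components of the link -/
theorem IJ_of_sink {y a b : V} (hy : ∀ c, ¬ K.ar y c) (ha : K.E y a) : K.LJ y a b → K.IJ y a b := by
  intro h
  have hin : ∀ c, K.E y c → K.ar c y := fun c e => e.resolve_left (hy c)
  have key : ∀ a b, K.LJ y a b → (K.E y a ↔ K.E y b) ∧ (K.E y a → K.IJ y a b) := by
    intro a b k
    induction k with
    | rel a b k =>
      exact ⟨⟨fun _ => k.E2, fun _ => k.E1⟩,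
        fun _ => Relation.EqvGen.rel _ _ ⟨k, hin _ k.E1, hin _ k.E2⟩⟩
    | refl a => exact ⟨Iff.rfl, fun _ => Relation.EqvGen.refl _⟩
    | symm a b _ ih => exact ⟨ih.1.symm, fun e => (ih.2 (ih.1.2 e)).symm'⟩
    | trans a b c _ _ i1 i2 =>
      exact ⟨i1.1.trans i2.1, fun e => (i1.2 e).trans' (i2.2 (i1.1.1 e))⟩
  exact (key a b h).2 ha

variable (K)

/-! ### the pieces without poles -/

/-- the in-nodes -/
def IN : SubMulAction H (V × V) where
  carrier := {p | K.ar p.2 p.1}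
  smul_mem' h _ e := K.ar_smul h _ _ e

/-- the corners between in-nodes -/
def IE : SubMulAction H K.LE where
  carrier := {e | K.ar (K.c0 e) (K.c1 e) ∧ K.ar (K.c2 e) (K.c1 e)}
  smul_mem' h e he := by
    have he : K.ar (K.c0 e) (K.c1 e) ∧ K.ar (K.c2 e) (K.c1 e) := he
    show K.ar (K.c0 (h • e)) (K.c1 (h • e)) ∧ K.ar (K.c2 (h • e)) (K.c1 (h • e))
    rw [K.c0_smul, K.c1_smul, K.c2_smul]
    exact ⟨K.ar_smul h _ _ he.1, K.ar_smul h _ _ he.2⟩

theorem fin_LE : FinOrb H (Set.univ : Set K.LE) := by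
  have : Finite (orbitRel.Quotient H K.LE) := Finite.of_equiv _ K.leq.symm
  exact Set.toFinite _

theorem fin_sub {T : Type} [MulAction H T] (h : FinOrb H (Set.univ : Set T))
    (A : SubMulAction H T) : Finite (orbitRel.Quotient H ↥A) :=
  finite_orb_sub A (SAF.FinOrb.mono (Set.subset_univ _) h)

theorem fin_IN : FinOrb H (K.IN : Set (V × V)) := by
  refine SAF.FinOrb.mono (fun p hp => ?_) K.fin_E
  exact Or.inr hp

/-- THE PIECES WITHOUT POLES -/
noncomputable def ip : JM H ↥K.IN ↥K.IE where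
  s e := ⟨(K.c1 e.1, K.c0 e.1), e.2.1⟩
  t e := ⟨(K.c1 e.1, K.c2 e.1), e.2.2⟩
  hs j e := Subtype.ext (Prod.ext (K.c1_smul j e.1) (K.c0_smul j e.1))
  ht j e := Subtype.ext (Prod.ext (K.c1_smul j e.1) (K.c2_smul j e.1))
  fT := finite_orb_sub K.IN K.fin_IN
  fE := fin_sub K.fin_LE K.IE

/-- the number of cycles of the pieces without poles -/
noncomputable def cyc : ℤ := K.ip.fg.b1

theorem ip_eqv {x y : ↥K.IN} : Relation.EqvGen K.ip.st x y ↔
    x.1.1 = y.1.1 ∧ K.IJ x.1.1 x.1.2 y.1.2 := by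
  constructor
  · intro h
    induction h with
    | rel x y h =>
      obtain ⟨e, rfl, rfl⟩ := h
      exact ⟨rfl, Relation.EqvGen.rel _ _
        ⟨K.cor_LE.2 ⟨e.1, Or.inl ⟨rfl, rfl, rfl⟩⟩, e.2.1, e.2.2⟩⟩
    | refl x => exact ⟨rfl, Relation.EqvGen.refl _⟩
    | symm x y _ ih => exact ⟨ih.1.symm, by rw [← ih.1]; exact ih.2.symm'⟩
    | trans x y z _ _ h1 h2 =>
      exact ⟨h1.1.trans h2.1, h1.2.trans' (by rw [h1.1]; exact h2.2)⟩
  · rintro ⟨h1, h2⟩
    have key : ∀ v a b, K.IJ v a b → ∀ (ha : K.ar a v) (hb : K.ar b v),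
        Relation.EqvGen K.ip.st ⟨(v, a), ha⟩ ⟨(v, b), hb⟩ := by
      intro v a b h
      induction h with
      | rel a b h =>
        intro ha hb
        obtain ⟨e, ⟨e0, e1, e2⟩ | ⟨e0, e1, e2⟩⟩ := K.cor_LE.1 h.1
        · apply Relation.EqvGen.rel
          refine ⟨⟨e, ?_⟩, Subtype.ext ?_, Subtype.ext ?_⟩
          · show K.ar (K.c0 e) (K.c1 e) ∧ K.ar (K.c2 e) (K.c1 e)
            rw [e0, e1, e2]
            exact h.2
          · show (K.c1 e, K.c0 e) = (v, a)
            rw [e0, e1]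
          · show (K.c1 e, K.c2 e) = (v, b)
            rw [e1, e2]
        · apply Relation.EqvGen.symm
          apply Relation.EqvGen.rel
          refine ⟨⟨e, ?_⟩, Subtype.ext ?_, Subtype.ext ?_⟩
          · show K.ar (K.c0 e) (K.c1 e) ∧ K.ar (K.c2 e) (K.c1 e)
            rw [e0, e1, e2]
            exact ⟨h.2.2, h.2.1⟩
          · show (K.c1 e, K.c0 e) = (v, b)
            rw [e0, e1]
          · show (K.c1 e, K.c2 e) = (v, a)
            rw [e1, e2]
      | refl a => intro ha hb; exact Relation.EqvGen.refl _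
      | symm a b _ ih => intro ha hb; exact (ih hb ha).symm
      | trans a b c k1 k2 ih1 ih2 =>
        intro ha hc
        have hb : K.ar b v := (IJ.ar k1).1 ha
        exact (ih1 ha hb).trans _ _ _ (ih2 hb hc)
    obtain ⟨⟨v, a⟩, ha⟩ := x
    obtain ⟨⟨v', b⟩, hb⟩ := y
    have h1 : v = v' := h1
    subst h1
    exact key v a b h2 ha hb

/-! ### the pieces with private poles -/

/-- a node of the pieces with private poles -/
def PV : PN V → Prop
  | PN.inn y n => K.ar n y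
  | PN.pol y a C => K.ar y a ∧ ∃ n, K.ar n y ∧ K.Cor a y n ∧ C = K.Pc y n

/-- the nodes of the pieces with private poles -/
def PT : SubMulAction H (PN V) where
  carrier := {t | K.PV t}
  smul_mem' h t ht := by
    cases t with
    | inn y n => exact K.ar_smul h _ _ ht
    | pol y a C =>
      obtain ⟨h1, n, h2, h3, rfl⟩ := ht
      refine ⟨K.ar_smul h _ _ h1, h • n, K.ar_smul h _ _ h2, h3.smul h, ?_⟩
      exact Pc_smul h y n

/-- the corners which are not between two poles -/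
def PE : SubMulAction H K.LE where
  carrier := {e | K.ar (K.c0 e) (K.c1 e) ∨ K.ar (K.c2 e) (K.c1 e)}
  smul_mem' h e he := by
    have he : K.ar (K.c0 e) (K.c1 e) ∨ K.ar (K.c2 e) (K.c1 e) := he
    show K.ar (K.c0 (h • e)) (K.c1 (h • e)) ∨ K.ar (K.c2 (h • e)) (K.c1 (h • e))
    rw [K.c0_smul, K.c1_smul, K.c2_smul]
    exact he.imp (K.ar_smul h _ _) (K.ar_smul h _ _)

theorem mem_PE {e : K.LE} : e ∈ K.PE ↔ K.ar (K.c0 e) (K.c1 e) ∨ K.ar (K.c2 e) (K.c1 e) := Iff.rfl

open Classical in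
/-- the node of the end `a` of the corner `a y b` -/
noncomputable def nd (y a b : V) : PN V := if K.ar a y then PN.inn y a else PN.pol y a (K.Pc y b)

theorem nd_in {y a b : V} (h : K.ar a y) : K.nd y a b = PN.inn y a := if_pos h

theorem nd_pol {y a b : V} (h : K.ar y a) : K.nd y a b = PN.pol y a (K.Pc y b) := by
  unfold nd
  rw [if_neg]
  intro h'
  have h1 := K.ar_rk _ _ h
  have h2 := K.ar_rk _ _ h'
  omega

theorem nd_smul (g : H) (y a b : V) : K.nd (g • y) (g • a) (g • b) = g • K.nd y a b := by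
  unfold nd
  by_cases h : K.ar a y
  · rw [if_pos h, if_pos (K.ar_smul g _ _ h)]
    rfl
  · rw [if_neg h, if_neg, PN.smul_pol, Pc_smul]
    intro h'
    have := K.ar_smul g⁻¹ _ _ h'
    rw [inv_smul_smul, inv_smul_smul] at this
    exact h this

theorem nd_PV {y a b : V} (hc : K.Cor a y b) (h : K.ar a y ∨ K.ar b y) : K.PV (K.nd y a b) := by
  by_cases ha : K.ar a y
  · rw [K.nd_in ha]
    exact ha
  · have hy : K.ar y a := hc.E1.resolve_right ha
    rw [K.nd_pol hy]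
    exact ⟨hy, b, h.resolve_left ha, hc, rfl⟩

theorem cor_c (e : K.LE) : K.Cor (K.c0 e) (K.c1 e) (K.c2 e) :=
  K.cor_LE.2 ⟨e, Or.inl ⟨rfl, rfl, rfl⟩⟩

theorem fin_PT : FinOrb H (K.PT : Set (PN V)) := by
  -- every private pole is the end of a corner
  have h1 : FinOrb H {t : PN V | ∃ y n, K.ar n y ∧ t = PN.inn y n} := by
    apply SAF.FinOrb.image K.fin_IN (fun p => PN.inn p.1 p.2)
    · rintro _ ⟨y, n, h, rfl⟩
      exact ⟨(y, n), h, 1, one_smul _ _⟩
    · rintro a _ _ _ ⟨h, rfl⟩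
      exact ⟨h, rfl⟩
  have h2 : FinOrb H {t : PN V | ∃ e : K.LE, t = K.nd (K.c1 e) (K.c0 e) (K.c2 e)} := by
    apply SAF.FinOrb.image K.fin_LE (fun e => K.nd (K.c1 e) (K.c0 e) (K.c2 e))
    · rintro _ ⟨e, rfl⟩
      exact ⟨e, trivial, 1, one_smul _ _⟩
    · rintro a _ _ _ ⟨h, rfl⟩
      refine ⟨h, ?_⟩
      show h • K.nd (K.c1 a) (K.c0 a) (K.c2 a) = K.nd (K.c1 (h • a)) (K.c0 (h • a)) (K.c2 (h • a))
      rw [K.c0_smul, K.c1_smul, K.c2_smul, K.nd_smul]
  have h3 : FinOrb H {t : PN V | ∃ e : K.LE, t = K.nd (K.c1 e) (K.c2 e) (K.c0 e)} := by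
    apply SAF.FinOrb.image K.fin_LE (fun e => K.nd (K.c1 e) (K.c2 e) (K.c0 e))
    · rintro _ ⟨e, rfl⟩
      exact ⟨e, trivial, 1, one_smul _ _⟩
    · rintro a _ _ _ ⟨h, rfl⟩
      refine ⟨h, ?_⟩
      show h • K.nd (K.c1 a) (K.c2 a) (K.c0 a) = K.nd (K.c1 (h • a)) (K.c2 (h • a)) (K.c0 (h • a))
      rw [K.c0_smul, K.c1_smul, K.c2_smul, K.nd_smul]
  have h4 := finOrb_union' (finOrb_union' h1 h2) h3
  refine SAF.FinOrb.mono ?_ h4
  intro t ht
  cases t with
  | inn y n => exact Or.inl (Or.inl ⟨y, n, ht, rfl⟩)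
  | pol y a C =>
    obtain ⟨hy, n, hn, hc, rfl⟩ := ht
    obtain ⟨e, ⟨e0, e1, e2⟩ | ⟨e0, e1, e2⟩⟩ := K.cor_LE.1 hc
    · refine Or.inl (Or.inr ⟨e, ?_⟩)
      rw [e0, e1, e2, K.nd_pol hy]
    · refine Or.inr ⟨e, ?_⟩
      rw [e0, e1, e2, K.nd_pol hy]

/-- THE PIECES WITH PRIVATE POLES -/
noncomputable def pc : JM H ↥K.PT ↥K.PE where
  s e := ⟨K.nd (K.c1 e.1) (K.c0 e.1) (K.c2 e.1), K.nd_PV (K.cor_c e.1) e.2⟩
  t e := ⟨K.nd (K.c1 e.1) (K.c2 e.1) (K.c0 e.1), K.nd_PV (K.cor_c e.1).symm e.2.symm⟩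
  hs j e := by
    apply Subtype.ext
    show K.nd (K.c1 (j • e.1)) (K.c0 (j • e.1)) (K.c2 (j • e.1)) = _
    rw [K.c0_smul, K.c1_smul, K.c2_smul, K.nd_smul]
    rfl
  ht j e := by
    apply Subtype.ext
    show K.nd (K.c1 (j • e.1)) (K.c2 (j • e.1)) (K.c0 (j • e.1)) = _
    rw [K.c0_smul, K.c1_smul, K.c2_smul, K.nd_smul]
    rfl
  fT := finite_orb_sub K.PT K.fin_PT
  fE := fin_sub K.fin_LE K.PE

theorem pc_s (e : ↥K.PE) : (K.pc.s e).1 = K.nd (K.c1 e.1) (K.c0 e.1) (K.c2 e.1) := rfl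

theorem pc_t (e : ↥K.PE) : (K.pc.t e).1 = K.nd (K.c1 e.1) (K.c2 e.1) (K.c0 e.1) := rfl

/-- twice the number `E^h` -/
noncomputable def eh2 : ℤ := K.pc.fg.b1

/-- the vertex and the piece of a node -/
def pk : PN V → V × Set V
  | PN.inn y n => (y, K.Pc y n)
  | PN.pol y _ C => (y, C)

theorem pk_nd {y a b : V} (hc : K.Cor a y b) (h : K.ar b y) :
    K.pk (K.nd y a b) = (y, K.Pc y b) := by
  by_cases ha : K.ar a y
  · rw [K.nd_in ha]
    show (y, K.Pc y a) = _
    rw [Pc_eq.2 (Relation.EqvGen.rel _ _ ⟨hc, ha, h⟩)]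
  · rw [K.nd_pol (hc.E1.resolve_right ha)]
    rfl

theorem pk_line (e : ↥K.PE) : K.pk (K.pc.s e).1 = K.pk (K.pc.t e).1 := by
  rw [pc_s, pc_t]
  have hc := K.cor_c e.1
  rcases K.mem_PE.1 e.2 with h | h
  · -- `c0` is an in-node
    rw [K.nd_in h]
    have := K.pk_nd hc.symm h
    rw [this]
    rfl
  · have := K.pk_nd hc h
    rw [this, K.nd_in h]
    rfl

/-- a node is connected with the in-nodes of its piece -/
theorem pc_inn {y a b : V} (h : K.IJ y a b) (ha : K.ar a y) (hb : K.ar b y) :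
    Relation.EqvGen K.pc.st ⟨PN.inn y a, ha⟩ ⟨PN.inn y b, hb⟩ := by
  induction h with
  | rel a b h =>
    obtain ⟨e, ⟨e0, e1, e2⟩ | ⟨e0, e1, e2⟩⟩ := K.cor_LE.1 h.1
    · have he : e ∈ K.PE := Or.inl (by rw [e0, e1]; exact ha)
      apply Relation.EqvGen.rel
      refine ⟨⟨e, he⟩, Subtype.ext ?_, Subtype.ext ?_⟩
      · show K.nd (K.c1 e) (K.c0 e) (K.c2 e) = _
        rw [e0, e1, e2, K.nd_in ha]
      · show K.nd (K.c1 e) (K.c2 e) (K.c0 e) = _
        rw [e0, e1, e2, K.nd_in hb]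
    · have he : e ∈ K.PE := Or.inl (by rw [e0, e1]; exact hb)
      apply Relation.EqvGen.symm
      apply Relation.EqvGen.rel
      refine ⟨⟨e, he⟩, Subtype.ext ?_, Subtype.ext ?_⟩
      · show K.nd (K.c1 e) (K.c0 e) (K.c2 e) = _
        rw [e0, e1, e2, K.nd_in hb]
      · show K.nd (K.c1 e) (K.c2 e) (K.c0 e) = _
        rw [e0, e1, e2, K.nd_in ha]
  | refl a => exact Relation.EqvGen.refl _
  | symm a b _ ih => exact (ih hb ha).symm
  | trans a b c k1 k2 ih1 ih2 =>
    have hb' : K.ar b y := (IJ.ar k1).1 ha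
    exact (ih1 ha hb').trans _ _ _ (ih2 hb' hb)

/-- a private pole is connected with the in-nodes of its piece -/
theorem pc_pol {y a : V} {C : Set V} (h : K.PV (PN.pol y a C)) {n : V} (hn : n ∈ C)
    (hny : K.ar n y) : Relation.EqvGen K.pc.st ⟨PN.pol y a C, h⟩ ⟨PN.inn y n, hny⟩ := by
  obtain ⟨hy, m, hm, hc, rfl⟩ := h
  have h1 : Relation.EqvGen K.pc.st (⟨PN.pol y a (K.Pc y m), ⟨hy, m, hm, hc, rfl⟩⟩ : ↥K.PT)
      ⟨PN.inn y m, hm⟩ := by
    obtain ⟨e, ⟨e0, e1, e2⟩ | ⟨e0, e1, e2⟩⟩ := K.cor_LE.1 hc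
    · have he : e ∈ K.PE := Or.inr (by rw [e2, e1]; exact hm)
      apply Relation.EqvGen.rel
      refine ⟨⟨e, he⟩, Subtype.ext ?_, Subtype.ext ?_⟩
      · show K.nd (K.c1 e) (K.c0 e) (K.c2 e) = _
        rw [e0, e1, e2, K.nd_pol hy]
      · show K.nd (K.c1 e) (K.c2 e) (K.c0 e) = _
        rw [e0, e1, e2, K.nd_in hm]
    · have he : e ∈ K.PE := Or.inl (by rw [e0, e1]; exact hm)
      apply Relation.EqvGen.symm
      apply Relation.EqvGen.rel
      refine ⟨⟨e, he⟩, Subtype.ext ?_, Subtype.ext ?_⟩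
      · show K.nd (K.c1 e) (K.c0 e) (K.c2 e) = _
        rw [e0, e1, e2, K.nd_in hm]
      · show K.nd (K.c1 e) (K.c2 e) (K.c0 e) = _
        rw [e0, e1, e2, K.nd_pol hy]
  exact h1.trans _ _ _ (K.pc_inn hn hm hny)

/-- every node has an in-node in its piece -/
theorem exists_inn (t : ↥K.PT) : ∃ y n, ∃ h : K.ar n y,
    Relation.EqvGen K.pc.st t ⟨PN.inn y n, h⟩ ∧ K.pk t.1 = (y, K.Pc y n) := by
  obtain ⟨t, ht⟩ := t
  cases t with
  | inn y n => exact ⟨y, n, ht, Relation.EqvGen.refl _, rfl⟩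
  | pol y a C =>
    obtain ⟨hy, m, hm, hc, rfl⟩ := ht
    exact ⟨y, m, hm, K.pc_pol _ (self_Pc y m) hm, rfl⟩

/-- THE COMPONENTS ARE THE PIECES -/
theorem pc_eqv {x y : ↥K.PT} : Relation.EqvGen K.pc.st x y ↔ K.pk x.1 = K.pk y.1 := by
  constructor
  · intro h
    induction h with
    | rel x y h =>
      obtain ⟨e, rfl, rfl⟩ := h
      exact K.pk_line e
    | refl x => rfl
    | symm x y _ ih => exact ih.symm
    | trans x y z _ _ h1 h2 => exact h1.trans h2
  · intro h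
    obtain ⟨y1, n1, h1, k1, l1⟩ := K.exists_inn x
    obtain ⟨y2, n2, h2, k2, l2⟩ := K.exists_inn y
    rw [l1, l2] at h
    have e1 : y1 = y2 := congrArg Prod.fst h
    subst e1
    have e2 : K.Pc y1 n1 = K.Pc y1 n2 := congrArg Prod.snd h
    exact (k1.trans _ _ _ (K.pc_inn (Pc_eq.1 e2) h1 h2)).trans _ _ _ k2.symm

/-- the group of a piece -/
theorem mem_pc_grp {y n : V} (h : K.ar n y) {j : H} :
    j ∈ K.pc.grp ⟨PN.inn y n, h⟩ ↔ j • y = y ∧ K.IJ y n (j • n) := by
  rw [JM.mem_grp, pc_eqv]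
  show (y, K.Pc y n) = (j • y, K.Pc (j • y) (j • n)) ↔ _
  constructor
  · intro e
    have e1 : y = j • y := congrArg Prod.fst e
    have e2 : K.Pc y n = K.Pc (j • y) (j • n) := congrArg Prod.snd e
    rw [← e1] at e2
    exact ⟨e1.symm, Pc_eq.1 e2⟩
  · rintro ⟨e1, e2⟩
    rw [e1, Pc_eq.2 e2]

theorem eh2_nonneg : 0 ≤ K.eh2 := FG.b1_nonneg _

theorem cyc_nonneg : 0 ≤ K.cyc := FG.b1_nonneg _

private theorem fg_b1_le (G : FG) : G.b1 ≤ G.nL := by
  have h : G.nC ≤ G.nN := Nat.card_le_card_of_surjective G.c (fun x => FG.c_surj x)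
  unfold FG.b1
  omega

theorem eh2_le : K.eh2 ≤ Nat.card K.Pos := by
  refine (fg_b1_le _).trans ?_
  have h : K.pc.fg.nL ≤ Nat.card K.Pos := by
    have : Finite K.Pos := inferInstance
    rw [← Nat.card_congr K.leq]
    have hf : Finite (orbitRel.Quotient H K.LE) := Finite.of_equiv _ K.leq.symm
    refine Nat.card_le_card_of_injective (olift (fun e : ↥K.PE => oq H e.1)
      (fun j e => oq_smul j e.1)) ?_
    intro p q h
    obtain ⟨e, rfl⟩ := oq_surj p
    obtain ⟨e', rfl⟩ := oq_surj q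
    obtain ⟨j, hj⟩ := oq_eq.1 (show oq H e.1 = oq H e'.1 from h)
    exact oq_eq.2 ⟨j, Subtype.ext hj⟩
  exact_mod_cast h

theorem cyc_le : K.cyc ≤ Nat.card K.Pos := by
  refine (fg_b1_le _).trans ?_
  have h : K.ip.fg.nL ≤ Nat.card K.Pos := by
    have : Finite K.Pos := inferInstance
    rw [← Nat.card_congr K.leq]
    have hf : Finite (orbitRel.Quotient H K.LE) := Finite.of_equiv _ K.leq.symm
    refine Nat.card_le_card_of_injective (olift (fun e : ↥K.IE => oq H e.1)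
      (fun j e => oq_smul j e.1)) ?_
    intro p q h
    obtain ⟨e, rfl⟩ := oq_surj p
    obtain ⟨e', rfl⟩ := oq_surj q
    obtain ⟨j, hj⟩ := oq_eq.1 (show oq H e.1 = oq H e'.1 from h)
    exact oq_eq.2 ⟨j, Subtype.ext hj⟩
  exact_mod_cast h

end GX

end Pool.Agent.DI
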