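import Pool.Agent.DI.DLA

/-!
# Lines of subgroups

Two lines are related by an affine map (`exists_emb`). Subgroups of index two: either the kernels
agree and the line is stretched by two, or the index of the kernels is two and the lines agree
(`index_two`). Intrinsic notions for subgroups of a group: `DT` (type `D_inf`), `Rev J g` (`g` is an
element of `J` which reverses the line of `J`).
-/

namespace Pool.Agent.DI

open Pool.Agent.SAF (InC)
open Pool.Agent.SAG (IO Zt)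

theorem io_map {J U : Type} [Group J] [Group U] (f : J →* U) (hf : Function.Injective f) {g : J} :
    IO (f g) ↔ IO g := by
  unfold Pool.Agent.SAG.IO
  refine forall_congr' fun n => forall_congr' fun _ => not_congr ?_
  rw [← map_pow]
  constructor
  · intro e; exact hf (by rw [e, map_one])
  · intro e; rw [e, map_one]

theorem io_coe {H : Type} [Group H] {J : Subgroup H} {g : J} : IO (g : H) ↔ IO g :=
  io_map J.subtype J.subtype_injective

namespace DL

section emb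

variable {J U : Type} [Group J] [Group U] (L' : DL J) (L : DL U) (f : J →* U)
  (hf : Function.Injective f)

include hf in
theorem map_N_le {g : J} (hg : g ∈ L'.N) : f g ∈ L.N := by
  obtain ⟨t, ht, ht'⟩ := L'.exists_trans 1
  have h1 : L'.N.map f ≤ L.N := by
    refine L.le_N_of_norm (A := L'.N.map f) ?_ (t := f t)
      ((io_map f hf).2 (L'.io_of ht (by rw [ht']; decide))) ?_
    · exact Finite.of_surjective (fun x : L'.N => (⟨f x.1, x.1, x.2, rfl⟩ : L'.N.map f)) (by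
        rintro ⟨_, x, hx, rfl⟩
        exact ⟨⟨x, hx⟩, rfl⟩)
    · rintro _ ⟨x, hx, rfl⟩
      refine ⟨t * x * t⁻¹, L'.N_normal.conj_mem x hx t, ?_⟩
      rw [map_mul, map_mul, map_inv]
  exact h1 ⟨g, hg, rfl⟩

include hf in
/-- two lines are related by an affine map -/
theorem exists_emb : ∃ c p : ℤ, c ≠ 0 ∧ (∀ g, L.ε (f g) = L'.ε g) ∧
    (∀ g, L'.ε g = 1 → L.τ (f g) = c * L'.τ g) ∧
    (∀ g, L'.ε g = -1 → L.τ (f g) = p + c * L'.τ g) ∧
    ∀ g n, L.act (f g) (p + c * n) = p + c * L'.act g n := by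
  obtain ⟨t, ht, ht'⟩ := L'.exists_trans 1
  obtain ⟨s, hs⟩ := L'.exists_refl 0
  have htio : IO t := L'.io_of ht (by rw [ht']; decide)
  obtain ⟨h1, h2⟩ := L.io_iff.1 ((io_map f hf).2 htio)
  have hP : ∀ g, L'.ε g = 1 → L.ε (f g) = 1 ∧ L.τ (f g) = L.τ (f t) * L'.τ g := by
    intro g hg
    have h3 : g * (t ^ L'.τ g)⁻¹ ∈ L'.N := by
      refine ⟨by rw [map_mul, map_inv, map_zpow, ht, hg, one_zpow]; decide, ?_⟩
      rw [L'.τ_mul, L'.τ_inv, L'.τ_zpow ht, ht', map_zpow, ht, hg, one_zpow, Units.val_one]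
      ring
    have h4 := L'.map_N_le L f hf h3
    obtain ⟨n, hn⟩ : ∃ n, n = f (g * (t ^ L'.τ g)⁻¹) := ⟨_, rfl⟩
    have h5 : f g = n * f t ^ L'.τ g := by
      rw [hn, map_mul, map_inv, map_zpow, inv_mul_cancel_right]
    rw [← hn] at h4
    refine ⟨by rw [h5, map_mul, map_zpow, h1, h4.1, one_zpow, one_mul], ?_⟩
    rw [h5, L.τ_mul, L.τ_zpow h1, h4.1, h4.2, Units.val_one]
    ring
  have hs1 : L.ε (f s) = -1 := by
    refine (L.ε_cases _).resolve_left fun h => ?_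
    have h3 : L'.ε (s * t * s⁻¹) = 1 := by rw [ε_conj, ht]
    have h4 : L'.τ (s * t * s⁻¹) = -1 := by
      rw [L'.τ_mul, L'.τ_mul, L'.τ_inv, map_mul, ht, hs.1, hs.2, ht']
      simp
    have h5 := (hP _ h3).2
    rw [h4, map_mul, map_mul, map_inv, L.τ_mul, L.τ_mul, L.τ_inv, map_mul, h1, h] at h5
    apply h2
    simp only [Units.val_one, one_mul, mul_one] at h5
    omega
  have hM : ∀ g, L'.ε g = -1 → L.ε (f g) = -1 ∧ L.τ (f g) = L.τ (f s) + L.τ (f t) * L'.τ g := by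
    intro g hg
    have h3 : L'.ε (g * s) = 1 := by rw [map_mul, hg, hs.1]; decide
    obtain ⟨h4, h5⟩ := hP _ h3
    have h6 : L'.τ (g * s) = L'.τ g := by rw [L'.τ_mul, hs.2, mul_zero, add_zero]
    have h7 : f g = f (g * s) * (f s)⁻¹ := by rw [map_mul, mul_inv_cancel_right]
    refine ⟨by rw [h7, map_mul, h4, ε_inv, hs1, one_mul], ?_⟩
    rw [h7, L.τ_mul, h4, h5, h6, L.τ_inv, hs1, Units.val_one, Units.val_neg, Units.val_one]
    ring
  refine ⟨L.τ (f t), L.τ (f s), h2, ?_, fun g hg => (hP g hg).2, fun g hg => (hM g hg).2, ?_⟩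
  · intro g
    rcases L'.ε_cases g with hg | hg
    · rw [(hP g hg).1, hg]
    · rw [(hM g hg).1, hg]
  · intro g n
    unfold act
    rcases L'.ε_cases g with hg | hg
    · rw [(hP g hg).1, (hP g hg).2, hg, Units.val_one]
      ring
    · rw [(hM g hg).1, (hM g hg).2, hg, Units.val_neg, Units.val_one]
      ring

include hf in
theorem ε_map (g : J) : L.ε (f g) = L'.ε g := by
  obtain ⟨c, p, -, h, -⟩ := L'.exists_emb L f hf
  exact h g

include hf in
theorem map_mem_N_iff {g : J} : f g ∈ L.N ↔ g ∈ L'.N := by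
  refine ⟨fun h => ?_, L'.map_N_le L f hf⟩
  obtain ⟨c, p, hc, h1, h2, -⟩ := L'.exists_emb L f hf
  have h3 : L'.ε g = 1 := by rw [← h1, h.1]
  refine ⟨h3, ?_⟩
  have h4 := h2 g h3
  rw [h.2] at h4
  exact (mul_eq_zero.1 h4.symm).resolve_left hc

end emb

/-- subgroups of index two -/
theorem index_two {J U : Type} [Group J] [Group U] {L' : DL J} {L : DL U} {f : J →* U}
    (hf : Function.Injective f) (hi : f.range.index = 2) {c p : ℤ}
    (h1 : ∀ g, L'.ε g = 1 → L.τ (f g) = c * L'.τ g)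
    (h2 : ∀ g, L'.ε g = -1 → L.τ (f g) = p + c * L'.τ g) :
    (L.N ≤ f.range ∧ (c = 2 ∨ c = -2)) ∨
      ((∃ b ∈ L.N, b ∉ f.range) ∧ (c = 1 ∨ c = -1)) := by
  have h0 := L'.ε_map L f hf
  obtain ⟨t, ht, ht'⟩ := L.exists_trans 1
  have hsq : t * t ∈ f.range := Subgroup.mul_self_mem_of_index_two hi t
  obtain ⟨g, hg⟩ := hsq
  have hεg : L'.ε g = 1 := by rw [← h0, hg, map_mul, ht, mul_one]
  have hc2 : c * L'.τ g = 2 := by
    rw [← h1 g hεg, hg, L.τ_mul, ht, ht']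
    norm_num
  have hc : c = 1 ∨ c = -1 ∨ c = 2 ∨ c = -2 := by
    have hd : c ∣ 2 := ⟨_, hc2.symm⟩
    have h3 := Int.le_of_dvd (by norm_num) hd
    have h4 : -c ≤ 2 := Int.le_of_dvd (by norm_num) (neg_dvd.2 hd)
    have h5 : c ≠ 0 := by
      rintro rfl
      rw [zero_mul] at hc2
      omega
    omega
  by_cases hN : L.N ≤ f.range
  · left
    refine ⟨hN, ?_⟩
    have hne : ¬ (c = 1 ∨ c = -1) := by
      intro hc1
      have hne1 : f.range ≠ ⊤ := by
        intro e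
        rw [e, Subgroup.index_top] at hi
        omega
      apply hne1
      rw [eq_top_iff]
      intro u _
      have hcc : c * c = 1 := by rcases hc1 with h | h <;> rw [h] <;> norm_num
      have key : ∃ g, L.ε (f g) = L.ε u ∧ L.τ (f g) = L.τ u := by
        rcases L.ε_cases u with hu | hu
        · obtain ⟨g, hg1, hg2⟩ := L'.exists_trans (c * L.τ u)
          refine ⟨g, by rw [h0, hg1, hu], ?_⟩
          rw [h1 g hg1, hg2, ← mul_assoc, hcc, one_mul]
        · obtain ⟨g, hg1, hg2⟩ := L'.exists_refl (c * (L.τ u - p))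
          refine ⟨g, by rw [h0, hg1, hu], ?_⟩
          rw [h2 g hg1, hg2, ← mul_assoc, hcc, one_mul]
          ring
      obtain ⟨g, hg1, hg2⟩ := key
      have h3 : u * (f g)⁻¹ ∈ L.N := by
        refine ⟨by rw [map_mul, map_inv, hg1, mul_inv_cancel], ?_⟩
        rw [L.τ_mul, L.τ_inv, hg1, hg2]
        have := L.ε_sq u
        linear_combination -(L.τ u) * this
      have h4 := f.range.mul_mem (hN h3) ⟨g, rfl⟩
      rwa [inv_mul_cancel_right] at h4
    omega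
  · right
    have hN' : ∃ b ∈ L.N, b ∉ f.range := by
      by_contra hcon
      push Not at hcon
      exact hN hcon
    refine ⟨hN', ?_⟩
    obtain ⟨b, hb, hb'⟩ := hN'
    have hne : ¬ (c = 2 ∨ c = -2) := by
      intro hc1
      have ht1 : t ∉ f.range := by
        rintro ⟨k, hk⟩
        have hk1 : L'.ε k = 1 := by rw [← h0, hk, ht]
        have h3 := h1 k hk1
        rw [hk, ht'] at h3
        rcases hc1 with h | h <;> rw [h] at h3 <;> omega
      have ht2 : t * b ∈ f.range := by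
        rw [Subgroup.mul_mem_iff_of_index_two hi]
        exact iff_of_false ht1 hb'
      obtain ⟨k, hk⟩ := ht2
      have hk1 : L'.ε k = 1 := by rw [← h0, hk, map_mul, ht, hb.1, mul_one]
      have h3 := h1 k hk1
      rw [hk, L.τ_mul, ht, ht', hb.2, mul_zero, add_zero] at h3
      rcases hc1 with h | h <;> rw [h] at h3 <;> omega
    omega

end DL

/-! ### subgroups of a group -/

section sub

variable {H : Type} [Group H]

/-- a two-ended subgroup of type `D_inf` -/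
def DT (J : Subgroup H) : Prop := InC ↥J ∧ Infinite ↥J ∧ ¬ Zt ↥J

theorem DT.nonempty {J : Subgroup H} (h : DT J) : Nonempty (DL ↥J) := exists_DL h.1 h.2.1 h.2.2

theorem DT.of_DL {J : Subgroup H} (hJ : InC ↥J) (L : DL ↥J) : DT J := ⟨hJ, L.infinite, L.not_zt⟩

/-- a line of `J` -/
noncomputable def DT.dl {J : Subgroup H} (h : DT J) : DL ↥J := Classical.choice h.nonempty

/-- `g` belongs to `J` and reverses the line of `J` -/
def Rev (J : Subgroup H) (g : H) : Prop := g ∈ J ∧ ∃ a ∈ J, IO a ∧ g * a * g⁻¹ = a⁻¹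

theorem rev_iff {J : Subgroup H} (L : DL ↥J) {g : H} (hg : g ∈ J) :
    Rev J g ↔ L.ε ⟨g, hg⟩ = -1 := by
  constructor
  · rintro ⟨-, a, ha, hio, e⟩
    have hio' : IO (⟨a, ha⟩ : J) := io_coe.1 hio
    obtain ⟨h1, h2⟩ := L.io_iff.1 hio'
    refine (L.ε_cases _).resolve_left fun h => ?_
    have e' : (⟨g, hg⟩ : J) * ⟨a, ha⟩ * (⟨g, hg⟩ : J)⁻¹ = (⟨a, ha⟩ : J)⁻¹ := Subtype.ext e
    have h3 := congrArg L.τ e'
    rw [L.τ_mul, L.τ_mul, L.τ_inv, L.τ_inv, map_mul, h1, h] at h3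
    simp only [Units.val_one, one_mul, mul_one] at h3
    omega
  · intro h
    refine ⟨hg, ?_⟩
    obtain ⟨a, ha1, ha2⟩ := L.exists_trans 1
    have hio : IO a := L.io_of ha1 (by rw [ha2]; decide)
    -- a power of `a` is inverted
    have h1 : ∀ k : ℕ, (⟨g, hg⟩ : J) * a ^ k * (⟨g, hg⟩ : J)⁻¹ * a ^ k ∈ L.N := by
      intro k
      refine ⟨by rw [map_mul, DL.ε_conj, map_pow, ha1, one_pow, mul_one], ?_⟩
      simp only [L.τ_mul, L.τ_inv, map_mul, map_pow, DL.ε_inv, ha1, h, L.τ_pow ha1, ha2,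
        Units.val_mul, Units.val_neg, Units.val_one, one_pow, mul_one]
      ring
    have hnf : Finite ↥L.N := inferInstance
    obtain ⟨k, l, hkl, e⟩ : ∃ k l : ℕ, k ≠ l ∧
        ((⟨g, hg⟩ : J) * a ^ k * (⟨g, hg⟩ : J)⁻¹ * a ^ k) =
          ((⟨g, hg⟩ : J) * a ^ l * (⟨g, hg⟩ : J)⁻¹ * a ^ l) := by
      obtain ⟨k, l, hkl, e⟩ := Finite.exists_ne_map_eq_of_infinite
        (fun k : ℕ => (⟨_, h1 k⟩ : L.N))
      exact ⟨k, l, hkl, congrArg Subtype.val e⟩
    -- `g a^(k-l) g⁻¹` and `a^(l-k)`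
    have key : ∀ k l : ℕ, k < l → ((⟨g, hg⟩ : J) * a ^ k * (⟨g, hg⟩ : J)⁻¹ * a ^ k) =
          ((⟨g, hg⟩ : J) * a ^ l * (⟨g, hg⟩ : J)⁻¹ * a ^ l) →
        ∃ b ∈ J, IO b ∧ g * b * g⁻¹ = b⁻¹ := by
      intro k l hkl e
      refine ⟨((a ^ (l - k) : J) : H), (a ^ (l - k)).2, io_coe.2 (hio.pow (by omega)), ?_⟩
      have e1 : (⟨g, hg⟩ : J) * a ^ (l - k) * (⟨g, hg⟩ : J)⁻¹ = (a ^ (l - k))⁻¹ := by
        have e2 : a ^ l = a ^ k * a ^ (l - k) := by rw [← pow_add]; congr 1; omega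
        have e3 : a ^ l = a ^ (l - k) * a ^ k := by rw [← pow_add]; congr 1; omega
        have e4 : (⟨g, hg⟩ : J) * a ^ l * (⟨g, hg⟩ : J)⁻¹ * a ^ l =
            (⟨g, hg⟩ : J) * a ^ k * (⟨g, hg⟩ : J)⁻¹ *
              ((⟨g, hg⟩ : J) * a ^ (l - k) * (⟨g, hg⟩ : J)⁻¹ * a ^ (l - k)) * a ^ k := by
          conv_lhs => rw [show (⟨g, hg⟩ : J) * a ^ l * (⟨g, hg⟩ : J)⁻¹ * a ^ l =
            (⟨g, hg⟩ : J) * a ^ l * (⟨g, hg⟩ : J)⁻¹ * (a ^ (l - k) * a ^ k) by rw [← e3]]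
          rw [e2]
          group
        rw [e4] at e
        have e5 : (⟨g, hg⟩ : J) * a ^ (l - k) * (⟨g, hg⟩ : J)⁻¹ * a ^ (l - k) = 1 := by
          have e6 := mul_right_cancel e
          have e7 : (⟨g, hg⟩ : J) * a ^ k * (⟨g, hg⟩ : J)⁻¹ * 1 =
            (⟨g, hg⟩ : J) * a ^ k * (⟨g, hg⟩ : J)⁻¹ *
              ((⟨g, hg⟩ : J) * a ^ (l - k) * (⟨g, hg⟩ : J)⁻¹ * a ^ (l - k)) := by
            rw [mul_one]; exact e6
          exact (mul_left_cancel e7).symm
        exact eq_inv_of_mul_eq_one_left e5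
      exact congrArg Subtype.val e1
    rcases lt_or_gt_of_ne hkl with h2 | h2
    · exact key k l h2 e
    · exact key l k h2 e.symm

theorem Rev.mono {J U : Subgroup H} (h : J ≤ U) {g : H} (hg : Rev J g) : Rev U g := by
  obtain ⟨h1, a, ha, h2⟩ := hg
  exact ⟨h h1, a, h ha, h2⟩

theorem Rev.conj {J : Subgroup H} {g : H} (hg : Rev J g) (k : H) {J' : Subgroup H}
    (h : ∀ x, x ∈ J → k * x * k⁻¹ ∈ J') : Rev J' (k * g * k⁻¹) := by
  obtain ⟨h1, a, ha, h2, h3⟩ := hg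
  refine ⟨h g h1, k * a * k⁻¹, h a ha, h2.conj k, ?_⟩
  calc k * g * k⁻¹ * (k * a * k⁻¹) * (k * g * k⁻¹)⁻¹ = k * (g * a * g⁻¹) * k⁻¹ := by group
    _ = (k * a * k⁻¹)⁻¹ := by rw [h3]; group

/-- for subgroups of type `D_inf` the notions agree -/
theorem rev_of_le {J U : Subgroup H} (hJ : DT J) (hU : DT U) (h : J ≤ U) {g : H} (hg : g ∈ J)
    (hr : Rev U g) : Rev J g := by
  have h1 := (rev_iff hU.dl (h hg)).1 hr
  rw [rev_iff hJ.dl hg]
  have h2 := hJ.dl.ε_map hU.dl (Subgroup.inclusion h) (Subgroup.inclusion_injective h) ⟨g, hg⟩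
  rw [← h2]
  exact h1

/-- a subgroup of a two-ended group of type `D_inf` is finite, or of type `Zt`, or of type `D_inf` -/
theorem DT.sub {J U : Subgroup H} (hU : DT U) (h : J ≤ U) : Finite ↥J ∨ Zt ↥J ∨ DT J := by
  have hJ : InC ↥J := SAG.InC.mono h hU.1
  by_cases h1 : Zt ↥J
  · exact Or.inr (Or.inl h1)
  · by_cases h2 : Finite ↥J
    · exact Or.inl h2
    · exact Or.inr (Or.inr ⟨hJ, not_finite_iff_infinite.1 h2, h1⟩)

/-- an infinite subgroup with a reversing element is of type `D_inf` -/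
theorem DT.of_rev {J : Subgroup H} (hJ : InC ↥J) {g : H} (hg : Rev J g) : DT J := by
  obtain ⟨h1, a, ha, hio, e⟩ := hg
  refine ⟨hJ, ?_, ?_⟩
  · rw [← not_finite_iff_infinite]
    intro hf
    exact SAG.not_IO_finite (⟨a, ha⟩ : J) (io_coe.1 hio)
  · rintro ⟨φ, hφ⟩
    have e' : (⟨g, h1⟩ : J) * ⟨a, ha⟩ * (⟨g, h1⟩ : J)⁻¹ = (⟨a, ha⟩ : J)⁻¹ := Subtype.ext e
    have h3 := congrArg (fun x => Multiplicative.toAdd (φ x)) e'
    simp only [map_mul, map_inv, toAdd_mul, toAdd_inv] at h3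
    have h4 : Multiplicative.toAdd (φ ⟨a, ha⟩) = 0 := by omega
    have h5 : (⟨a, ha⟩ : J) ∈ φ.ker := by
      rw [MonoidHom.mem_ker]
      exact Multiplicative.toAdd.injective (by rw [h4, toAdd_one])
    have h6 := pow_card_of_mem h5
    exact (io_coe.1 hio) (Nat.card φ.ker) Nat.card_pos h6

end sub

end Pool.Agent.DI
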