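import Pool.Agent.DI.Vis
import Pool.Agent.DI.Opt
import Pool.Agent.DI.DLE

/-!
# DI/Pot0: the elementary numbers of a pair `(H, K)`

`K.Snk v`, `K.Sft v`, `K.Spc v`: sinks, softs, special softs. `K.EC x y`: the edge lies in a cell,
`K.VC v`: the vertex lies in a cell.
`K.nU`, `K.nW`: light ordinary, light special softs; `K.nE`: light half-edges; `K.nV0`, `K.nVZ`,
`K.nVD`, `K.nV`: sinks by type; `K.nVs`: finite sinks in cells; `K.nVc`: sinks in cells; `K.nHv`: sinks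
with a heavy in-arrow in a cell; `K.b2`, `K.R`: `b'' = U - V_0 - V_D`, `R = E + 2 b''`.

`nE_eq : E = 2 U + W`, `nV_eq`, `R_eq`.
Parts: `SubGX.nU_le`, `nW_le`, `nE_le` (no hypothesis: softs of a part have the same stabiliser, the
same poles and the same kind), `SubGX.nVs_le`, `nVc_le`, `nHv_le` (all cells belong to the part: the
numbers do not decrease), `SubGX.oc_le_LC` (vertices with connected link).
Bounds for complexes of bad groups with connected links: `nAr_le`, `nE_le`, `nV_le` (`5 A`).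
-/

namespace Pool.Agent.DI

open MulAction
open Pool.Agent.SAF (InC SA orbs FinOrb oc FinOrb_iff mk_eq_iff exists_rep oc_le_of_inj
  oc_le_of_surj oc_mono)
open Pool.Agent.SAG (Zt)

/-! ### orbit numbers -/

section Oc

variable {H Y Y' : Type} [Group H] [MulAction H Y] [MulAction H Y']

theorem oc_union_disj {s t : Set Y} (hs : FinOrb H s) (ht : FinOrb H t)
    (hd : ∀ x ∈ s, ∀ y ∈ t, ∀ h : H, h • x ≠ y) : oc H (s ∪ t) = oc H s + oc H t := by
  unfold oc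
  have e : orbs H (s ∪ t) = orbs H s ∪ orbs H t := Set.image_union _ _ _
  rw [e, Set.ncard_union_eq ?_ hs ht]
  rw [Set.disjoint_left]
  rintro q ⟨x, hx, rfl⟩ ⟨y, hy, e'⟩
  obtain ⟨h, hh⟩ := mk_eq_iff.1 e'
  exact hd x hx y hy h hh

/-- an equivariant map whose fibres are single orbits of the stabilisers -/
theorem oc_eq_of_fib {s : Set Y} {s' : Set Y'} (hs : FinOrb H s) (hs' : FinOrb H s') (p : Y' → Y)
    (hp : ∀ (h : H) (z : Y'), p (h • z) = h • p z) (hinv : ∀ (h : H), ∀ z ∈ s', h • z ∈ s')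
    (hps : ∀ z ∈ s', p z ∈ s) (hsurj : ∀ y ∈ s, ∃ z ∈ s', p z = y)
    (hinj : ∀ z ∈ s', ∀ z' ∈ s', p z = p z' → ∃ h : H, h • z = z') : oc H s' = oc H s := by
  apply le_antisymm
  · refine oc_le_of_inj hs p hps ?_
    rintro z hz z' hz' ⟨h, hh⟩
    obtain ⟨k, hk⟩ := hinj _ (hinv h z hz) _ hz' (by rw [hp, hh])
    exact ⟨k * h, by rw [mul_smul, hk]⟩
  · refine oc_le_of_surj hs' p ?_ ?_
    · intro y hy
      obtain ⟨z, hz, e⟩ := hsurj y hy
      exact ⟨z, hz, 1, by rw [one_smul, e]⟩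
    · rintro z _ z' _ ⟨h, hh⟩
      exact ⟨h, by rw [← hp, hh]⟩

/-- an equivariant map whose fibres have two points which are not equivalent -/
theorem oc_eq_two {s : Set Y} {s' : Set Y'} (hs : FinOrb H s) (p : Y' → Y)
    (hp : ∀ (h : H) (z : Y'), p (h • z) = h • p z) (hinv : ∀ (h : H), ∀ z ∈ s', h • z ∈ s')
    (hps : ∀ z ∈ s', p z ∈ s) (a b : Y → Y') (ha : ∀ y ∈ s, a y ∈ s' ∧ p (a y) = y)
    (hb : ∀ y ∈ s, b y ∈ s' ∧ p (b y) = y) (hz : ∀ z ∈ s', z = a (p z) ∨ z = b (p z))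
    (hab : ∀ y ∈ s, ∀ h : H, h • a y ≠ b y) : oc H s' = 2 * oc H s := by
  classical
  obtain ⟨r, hr⟩ := exists_rep (H := H) s
  have hr1 : ∀ q ∈ orbs H s, r q ∈ s := fun q hq => (hr q hq).1
  have hr2 : ∀ q ∈ orbs H s, (Quotient.mk'' (r q) : orbitRel.Quotient H Y) = q :=
    fun q hq => (hr q hq).2
  have hq : ∀ q ∈ orbs H s, ∀ q' ∈ orbs H s, (∃ h : H, h • r q = r q') → q = q' := by
    rintro q hq q' hq' ⟨h, hh⟩
    rw [← hr2 q hq, ← hr2 q' hq']
    exact (mk_eq_iff.2 ⟨h, hh⟩).symm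
  let fa : orbitRel.Quotient H Y → orbitRel.Quotient H Y' := fun q => Quotient.mk'' (a (r q))
  let fb : orbitRel.Quotient H Y → orbitRel.Quotient H Y' := fun q => Quotient.mk'' (b (r q))
  have e : orbs H s' = fa '' orbs H s ∪ fb '' orbs H s := by
    apply Set.Subset.antisymm
    · rintro _ ⟨z, hzs, rfl⟩
      have h1 : (Quotient.mk'' (p z) : orbitRel.Quotient H Y) ∈ orbs H s := ⟨p z, hps z hzs, rfl⟩
      obtain ⟨h, hh⟩ := mk_eq_iff.1 (hr2 _ h1)
      rcases hz (h • z) (hinv h z hzs) with h2 | h2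
      · refine Or.inl ⟨_, h1, ?_⟩
        rw [hp, hh] at h2
        exact mk_eq_iff.2 ⟨h, h2⟩
      · refine Or.inr ⟨_, h1, ?_⟩
        rw [hp, hh] at h2
        exact mk_eq_iff.2 ⟨h, h2⟩
    · rintro _ (⟨q, hq, rfl⟩ | ⟨q, hq, rfl⟩)
      · exact ⟨_, (ha _ (hr1 q hq)).1, rfl⟩
      · exact ⟨_, (hb _ (hr1 q hq)).1, rfl⟩
  have hfa : Set.InjOn fa (orbs H s) := by
    intro q hq1 q' hq2 e1
    obtain ⟨h, hh⟩ := mk_eq_iff.1 e1
    have := congrArg p hh
    rw [hp, (ha _ (hr1 q hq1)).2, (ha _ (hr1 q' hq2)).2] at this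
    exact (hq _ hq2 _ hq1 ⟨h, this⟩).symm
  have hfb : Set.InjOn fb (orbs H s) := by
    intro q hq1 q' hq2 e1
    obtain ⟨h, hh⟩ := mk_eq_iff.1 e1
    have := congrArg p hh
    rw [hp, (hb _ (hr1 q hq1)).2, (hb _ (hr1 q' hq2)).2] at this
    exact (hq _ hq2 _ hq1 ⟨h, this⟩).symm
  have hd : Disjoint (fa '' orbs H s) (fb '' orbs H s) := by
    rw [Set.disjoint_left]
    rintro _ ⟨q, hq1, rfl⟩ ⟨q', hq2, e1⟩
    obtain ⟨h, hh⟩ := mk_eq_iff.1 e1
    have := congrArg p hh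
    rw [hp, (ha _ (hr1 q hq1)).2, (hb _ (hr1 q' hq2)).2] at this
    obtain rfl := hq _ hq1 _ hq2 ⟨h, this⟩
    exact hab _ (hr1 q hq1) h hh
  unfold oc
  rw [e, Set.ncard_union_eq hd (Set.Finite.image fa hs) (Set.Finite.image fb hs),
    hfa.ncard_image, hfb.ncard_image, two_mul]

end Oc

/-! ### consecutive vertices -/

section Lists

variable {V : Type}

theorem Cn2_iff_zip {a b x : V} {l : List V} : Cn2 a b x l ↔ (a, b) ∈ (x :: l).zip l := by
  induction l generalizing x with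
  | nil => exact ⟨fun h => h.elim, fun h => by simp at h⟩
  | cons y l ih =>
    rw [List.zip_cons_cons, List.mem_cons, ← ih]
    constructor
    · rintro (⟨rfl, rfl⟩ | h)
      · exact Or.inl rfl
      · exact Or.inr h
    · rintro (h | h)
      · exact Or.inl ⟨congrArg Prod.fst h, congrArg Prod.snd h⟩
      · exact Or.inr h

/-- two consecutive vertices of a closed walk are the first two vertices of a corner -/
theorem Cn2.cc {a b x : V} {l : List V} (ht : tg x l = x) (h : Cn2 a b x l) : ∃ c, CC a b c x l := by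
  have key : ∀ (l : List V) (x : V), Cn2 a b x l → ∀ z, ∃ c, Cn3 a b c x (l ++ [z]) := by
    intro l
    induction l with
    | nil => intro x h; exact h.elim
    | cons y l ih =>
      intro x h z
      cases l with
      | nil =>
        rcases h with ⟨rfl, rfl⟩ | h
        · exact ⟨z, Or.inl ⟨rfl, rfl, rfl⟩⟩
        · exact h.elim
      | cons w l =>
        rcases h with ⟨rfl, rfl⟩ | h
        · exact ⟨w, Or.inl ⟨rfl, rfl, rfl⟩⟩
        · obtain ⟨c, hc⟩ := ih y h z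
          exact ⟨c, Or.inr hc⟩
  cases l with
  | nil => exact h.elim
  | cons y l =>
    obtain ⟨c, hc⟩ := key _ _ h y
    exact ⟨c, hc⟩

theorem Cn2.cc' {a b x : V} {l : List V} (ht : tg x l = x) (h : Cn2 a b x l) :
    ∃ c, CC c a b x l := by
  have k1 : ∀ (l : List V) (x y : V) (z : V), ∃ c, Cn3 c (tg x (y :: l)) z x (y :: l ++ [z]) := by
    intro l
    induction l with
    | nil => intro x y z; exact ⟨x, Or.inl ⟨rfl, rfl, rfl⟩⟩
    | cons w l ih =>
      intro x y z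
      obtain ⟨c, hc⟩ := ih y w z
      exact ⟨c, Or.inr hc⟩
  have k2 : ∀ (l : List V) (x y : V) (m : List V), Cn2 a b y l → ∃ c, Cn3 c a b x (y :: l ++ m) := by
    intro l
    induction l with
    | nil => intro x y m h; exact h.elim
    | cons w l ih =>
      intro x y m h
      rcases h with ⟨rfl, rfl⟩ | h
      · exact ⟨x, Or.inl ⟨rfl, rfl, rfl⟩⟩
      · obtain ⟨c, hc⟩ := ih y w m h
        exact ⟨c, Or.inr hc⟩
  cases l with
  | nil => exact h.elim
  | cons y l =>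
    rcases h with ⟨rfl, rfl⟩ | h
    · obtain ⟨c, hc⟩ := k1 l a b b
      rw [ht] at hc
      exact ⟨c, hc⟩
    · obtain ⟨c, hc⟩ := k2 l x y [y] h
      exact ⟨c, hc⟩

end Lists

namespace GX

variable {H V : Type} [Group H] [MulAction H V] (K : GX H V)

/-! ### kinds of vertices -/

/-- sink: no out-arrow -/
def Snk (v : V) : Prop := ∀ a, ¬ K.ar v a

/-- soft: two poles -/
def Sft (v : V) : Prop := ∃ a b, K.ar v a ∧ K.ar v b ∧ a ≠ b

/-- special: an element of the stabiliser moves a pole -/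
def Spc (v : V) : Prop := ∃ h : H, h • v = v ∧ ∃ a, K.ar v a ∧ h • a ≠ a

/-- the edge `x y` lies in a cell -/
def EC (x y : V) : Prop :=
  ∃ (i : K.I) (h : H), Cn2 x y (K.tb i h) (K.tw i h) ∨ Cn2 y x (K.tb i h) (K.tw i h)

/-- the vertex lies in a cell -/
def VC (v : V) : Prop := ∃ y, K.EC v y

variable {K}

theorem ar_smul_iff (h : H) {v a : V} : K.ar (h • v) (h • a) ↔ K.ar v a := by
  refine ⟨fun e => ?_, K.ar_smul h v a⟩
  have := K.ar_smul h⁻¹ _ _ e
  rwa [inv_smul_smul, inv_smul_smul] at this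

theorem Snk.smul (h : H) {v : V} (hv : K.Snk v) : K.Snk (h • v) := by
  intro a ha
  apply hv (h⁻¹ • a)
  rw [← ar_smul_iff h, smul_inv_smul]
  exact ha

theorem Sft.smul (h : H) {v : V} (hv : K.Sft v) : K.Sft (h • v) := by
  obtain ⟨a, b, ha, hb, hne⟩ := hv
  exact ⟨h • a, h • b, K.ar_smul h _ _ ha, K.ar_smul h _ _ hb, fun e => hne (smul_left_cancel h e)⟩

theorem Spc.smul (h : H) {v : V} (hv : K.Spc v) : K.Spc (h • v) := by
  obtain ⟨k, hk, a, ha, hne⟩ := hv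
  refine ⟨h * k * h⁻¹, ?_, h • a, K.ar_smul h _ _ ha, ?_⟩
  · rw [mul_smul, mul_smul, inv_smul_smul, hk]
  · rw [mul_smul, mul_smul, inv_smul_smul]
    exact fun e => hne (smul_left_cancel h e)

theorem Spc.sft {v : V} (hv : K.Spc v) : K.Sft v := by
  obtain ⟨k, hk, a, ha, hne⟩ := hv
  refine ⟨a, k • a, ha, ?_, hne.symm⟩
  have := K.ar_smul k _ _ ha
  rwa [hk] at this

theorem Snk_smul_iff (h : H) {v : V} : K.Snk (h • v) ↔ K.Snk v :=
  ⟨fun e => by have := e.smul h⁻¹; rwa [inv_smul_smul] at this, Snk.smul h⟩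

theorem Sft_smul_iff (h : H) {v : V} : K.Sft (h • v) ↔ K.Sft v :=
  ⟨fun e => by have := e.smul h⁻¹; rwa [inv_smul_smul] at this, Sft.smul h⟩

theorem Spc_smul_iff (h : H) {v : V} : K.Spc (h • v) ↔ K.Spc v :=
  ⟨fun e => by have := e.smul h⁻¹; rwa [inv_smul_smul] at this, Spc.smul h⟩

theorem Sft.not_snk {v : V} (hv : K.Sft v) : ¬ K.Snk v := by
  obtain ⟨a, _, ha, _, _⟩ := hv
  exact fun h => h a ha

/-- sink, soft, or exactly one out-neighbour -/
theorem kinds (v : V) : K.Snk v ∨ K.Sft v ∨ ∃ a, ∀ b, K.ar v b ↔ b = a := by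
  by_cases h1 : K.Snk v
  · exact Or.inl h1
  by_cases h2 : K.Sft v
  · exact Or.inr (Or.inl h2)
  unfold Snk at h1
  push Not at h1
  obtain ⟨a, ha⟩ := h1
  refine Or.inr (Or.inr ⟨a, fun b => ⟨fun hb => ?_, fun e => e ▸ ha⟩⟩)
  by_contra hne
  exact h2 ⟨b, a, hb, ha, hne⟩

/-- the two poles of a soft -/
theorem Sft.cases {v a b c : V} (ha : K.ar v a) (hb : K.ar v b) (hne : a ≠ b) (hc : K.ar v c) :
    c = a ∨ c = b := by
  rcases K.two v a b c ha hb hc with h | h | h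
  · exact absurd h hne
  · exact Or.inr h.symm
  · exact Or.inl h.symm

theorem EC.symm {x y : V} (h : K.EC x y) : K.EC y x := by
  obtain ⟨i, k, h⟩ := h
  exact ⟨i, k, h.symm⟩

theorem EC.smul (g : H) {x y : V} (h : K.EC x y) : K.EC (g • x) (g • y) := by
  obtain ⟨i, k, h⟩ := h
  refine ⟨i, g * k, ?_⟩
  rw [K.tb_mul, K.tw_mul]
  exact h.imp (fun c => c.map (fun z => g • z)) (fun c => c.map (fun z => g • z))

theorem EC.E {x y : V} (h : K.EC x y) : K.E x y := by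
  obtain ⟨i, k, h | h⟩ := h
  · exact h.wk (K.tw_E i k)
  · exact GX.E.symm (h.wk (K.tw_E i k))

theorem VC.smul (g : H) {x : V} (h : K.VC x) : K.VC (g • x) := by
  obtain ⟨y, h⟩ := h
  exact ⟨g • y, h.smul g⟩

/-- an edge lies in a cell iff it has a corner -/
theorem EC_iff {x y : V} : K.EC x y ↔ ∃ b, K.Cor x y b := by
  constructor
  · rintro ⟨i, k, h | h⟩
    · obtain ⟨c, hc⟩ := h.cc (K.tw_tg i k)
      exact ⟨c, i, k, Or.inl hc⟩
    · obtain ⟨c, hc⟩ := h.cc' (K.tw_tg i k)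
      exact ⟨c, i, k, Or.inr hc⟩
  · rintro ⟨b, i, k, h | h⟩
    · exact ⟨i, k, Or.inl (h.two (K.tw_tg i k)).1⟩
    · exact ⟨i, k, Or.inr (h.two (K.tw_tg i k)).2⟩

/-- a special soft has a swap -/
theorem Spc.swap {v a b : V} (hs : K.Spc v) (ha : K.ar v a) (hb : K.ar v b) (hne : a ≠ b) :
    ∃ h : H, h • v = v ∧ h • a = b ∧ h • b = a := by
  obtain ⟨h, hh, c, hc, hne'⟩ := hs
  have key : ∀ x y, K.ar v x → K.ar v y → x ≠ y → h • x ≠ x → h • x = y ∧ h • y = x := by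
    intro x y hx hy hxy hm
    have h1 : K.ar v (h • x) := by
      have := K.ar_smul h _ _ hx
      rwa [hh] at this
    have h2 : K.ar v (h • y) := by
      have := K.ar_smul h _ _ hy
      rwa [hh] at this
    have e1 : h • x = y := (Sft.cases hx hy hxy h1).resolve_left hm
    refine ⟨e1, (Sft.cases hx hy hxy h2).resolve_right fun e2 => hxy ?_⟩
    exact smul_left_cancel h (e1.trans e2.symm)
  rcases Sft.cases ha hb hne hc with rfl | rfl
  · exact ⟨h, hh, key _ _ ha hb hne hne'⟩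
  · exact ⟨h, hh, (key _ _ hb ha hne.symm hne').2, (key _ _ hb ha hne.symm hne').1⟩

theorem fin_smul_iff (h : H) (v : V) :
    Finite ↥(stabilizer H (h • v)) ↔ Finite ↥(stabilizer H v) :=
  (stabilizerEquivStabilizer (rfl : h • v = h • v)).toEquiv.finite_iff.symm

theorem zt_smul_iff (h : H) (v : V) : Zt ↥(stabilizer H (h • v)) ↔ Zt ↥(stabilizer H v) := by
  let e := stabilizerEquivStabilizer (rfl : h • v = h • v)
  exact ⟨fun k => k.of_inj e.toMonoidHom e.injective,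
    fun k => k.of_inj e.symm.toMonoidHom e.symm.injective⟩

theorem inf_smul_iff (h : H) (v : V) :
    Infinite ↥(stabilizer H (h • v)) ↔ Infinite ↥(stabilizer H v) := by
  rw [← not_finite_iff_infinite, ← not_finite_iff_infinite, fin_smul_iff]

theorem dt_iff (K : GX H V) (v : V) : DT (stabilizer H v) ↔
    Infinite ↥(stabilizer H v) ∧ ¬ Zt ↥(stabilizer H v) :=
  ⟨fun h => h.2, fun h => ⟨K.stab v, h⟩⟩

/-! ### numbers -/

variable (K)

/-- the light half-edges -/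
def sE : Set (V × V) := {p | K.ar p.1 p.2 ∧ K.Sft p.1 ∧ Finite ↥(stabilizer H p.1)}

/-- the light ordinary softs -/
def sU : Set V := {v | K.Sft v ∧ ¬ K.Spc v ∧ Finite ↥(stabilizer H v)}

/-- the light special softs -/
def sW : Set V := {v | K.Spc v ∧ Finite ↥(stabilizer H v)}

/-- the finite sinks -/
def sV0 : Set V := {v | K.Snk v ∧ Finite ↥(stabilizer H v)}

/-- the sinks of Z-type -/
def sVZ : Set V := {v | K.Snk v ∧ Infinite ↥(stabilizer H v) ∧ Zt ↥(stabilizer H v)}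

/-- the sinks of D-type -/
def sVD : Set V := {v | K.Snk v ∧ Infinite ↥(stabilizer H v) ∧ ¬ Zt ↥(stabilizer H v)}

/-- the finite sinks in cells -/
def sVs : Set V := {v | K.Snk v ∧ Finite ↥(stabilizer H v) ∧ K.VC v}

/-- the sinks in cells -/
def sVc : Set V := {v | K.Snk v ∧ K.VC v}

/-- the sinks with a heavy in-arrow in a cell -/
def sHv : Set V :=
  {v | K.Snk v ∧ ∃ n, K.ar n v ∧ K.EC n v ∧ Infinite ↥(stabilizer H ((n, v) : V × V))}

/-- the number of all arrows -/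
noncomputable def nAr : ℕ := oc H {p : V × V | K.ar p.1 p.2}

/-- `E`: the number of light half-edges -/
noncomputable def nE : ℕ := oc H K.sE

/-- `U`: the number of light ordinary softs -/
noncomputable def nU : ℕ := oc H K.sU

/-- `W`: the number of light special softs -/
noncomputable def nW : ℕ := oc H K.sW

/-- `V`: the number of sinks -/
noncomputable def nV : ℕ := oc H {v | K.Snk v}

/-- `V_0`: the number of finite sinks -/
noncomputable def nV0 : ℕ := oc H K.sV0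

/-- `V_Z`: the number of sinks of Z-type -/
noncomputable def nVZ : ℕ := oc H K.sVZ

/-- `V_D`: the number of sinks of D-type -/
noncomputable def nVD : ℕ := oc H K.sVD

/-- `V_s`: the number of finite sinks in cells -/
noncomputable def nVs : ℕ := oc H K.sVs

/-- the number of sinks in cells -/
noncomputable def nVc : ℕ := oc H K.sVc

/-- `Hv`: the number of sinks with a heavy in-arrow in a cell -/
noncomputable def nHv : ℕ := oc H K.sHv

/-- `b'' = U - V_0 - V_D` -/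
noncomputable def b2 : ℤ := K.nU - K.nV0 - K.nVD

/-- `R = 4 U + W - 2 V_D - 2 V_0` -/
noncomputable def R : ℤ := 4 * K.nU + K.nW - 2 * K.nVD - 2 * K.nV0

include K in
/-- every set of vertices has finitely many orbits -/
theorem fo (s : Set V) : FinOrb H s := K.fin.mono (Set.subset_univ _)

theorem foE {s : Set (V × V)} (h : ∀ p ∈ s, K.E p.1 p.2) : FinOrb H s := K.fin_E.mono h

theorem fo_sE : FinOrb H K.sE := K.fin_ar.mono fun _ h => h.1

/-- `E = 2 U + W` -/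
theorem nE_eq : K.nE = 2 * K.nU + K.nW := by
  classical
  have e0 : K.sE = {p | K.ar p.1 p.2 ∧ p.1 ∈ K.sU} ∪ {p | K.ar p.1 p.2 ∧ p.1 ∈ K.sW} := by
    ext p
    constructor
    · rintro ⟨h1, h2, h3⟩
      by_cases hs : K.Spc p.1
      · exact Or.inr ⟨h1, hs, h3⟩
      · exact Or.inl ⟨h1, h2, hs, h3⟩
    · rintro (⟨h1, h2, h3, h4⟩ | ⟨h1, h2, h3⟩)
      · exact ⟨h1, h2, h4⟩
      · exact ⟨h1, h2.sft, h3⟩
  have f1 : FinOrb H {p : V × V | K.ar p.1 p.2 ∧ p.1 ∈ K.sU} := K.fin_ar.mono fun _ h => h.1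
  have f2 : FinOrb H {p : V × V | K.ar p.1 p.2 ∧ p.1 ∈ K.sW} := K.fin_ar.mono fun _ h => h.1
  have iU : ∀ (h : H), ∀ v ∈ K.sU, h • v ∈ K.sU := by
    rintro h v ⟨h1, h2, h3⟩
    exact ⟨h1.smul h, fun e => h2 ((Spc_smul_iff h).1 e), (fin_smul_iff h v).2 h3⟩
  have iW : ∀ (h : H), ∀ v ∈ K.sW, h • v ∈ K.sW := by
    rintro h v ⟨h1, h2⟩
    exact ⟨h1.smul h, (fin_smul_iff h v).2 h2⟩
  unfold nE
  rw [e0, oc_union_disj f1 f2]
  · congr 1
    · have hc : ∀ v : V, ∃ a b, v ∈ K.sU → K.ar v a ∧ K.ar v b ∧ a ≠ b := by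
        intro v
        by_cases hv : v ∈ K.sU
        · obtain ⟨a, b, h⟩ := hv.1
          exact ⟨a, b, fun _ => h⟩
        · exact ⟨v, v, fun h => absurd h hv⟩
      choose a b hab using hc
      refine oc_eq_two (K.fo _) Prod.fst (fun _ _ => rfl) ?_ (fun _ h => h.2)
        (fun v => (v, a v)) (fun v => (v, b v)) ?_ ?_ ?_ ?_
      · rintro h ⟨v, c⟩ ⟨h1, h2⟩
        exact ⟨K.ar_smul h _ _ h1, iU h _ h2⟩
      · intro v hv
        exact ⟨⟨(hab v hv).1, hv⟩, rfl⟩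
      · intro v hv
        exact ⟨⟨(hab v hv).2.1, hv⟩, rfl⟩
      · rintro ⟨v, c⟩ ⟨h1, h2⟩
        obtain ⟨ha, hb, hne⟩ := hab v h2
        rcases Sft.cases ha hb hne h1 with h | h
        · exact Or.inl (Prod.ext rfl h)
        · exact Or.inr (Prod.ext rfl h)
      · intro v hv h e
        obtain ⟨ha, hb, hne⟩ := hab v hv
        have e1 : h • v = v := congrArg Prod.fst e
        have e2 : h • a v = b v := congrArg Prod.snd e
        exact hv.2.1 ⟨h, e1, a v, ha, by rw [e2]; exact hne.symm⟩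
    · refine oc_eq_of_fib (K.fo _) f2 Prod.fst (fun _ _ => rfl) ?_ (fun _ h => h.2) ?_ ?_
      · rintro h ⟨v, c⟩ ⟨h1, h2⟩
        exact ⟨K.ar_smul h _ _ h1, iW h _ h2⟩
      · intro v hv
        obtain ⟨a, _, ha, _, _⟩ := hv.1.sft
        exact ⟨(v, a), ⟨ha, hv⟩, rfl⟩
      · rintro ⟨v, a⟩ ⟨ha, hv⟩ ⟨v', b⟩ ⟨hb, _⟩ e
        obtain rfl : v = v' := e
        by_cases hne : a = b
        · exact ⟨1, by rw [one_smul, hne]⟩
        · obtain ⟨h, e1, e2, -⟩ := Spc.swap hv.1 ha hb hne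
          exact ⟨h, Prod.ext e1 e2⟩
  · rintro ⟨v, a⟩ ⟨_, h1⟩ ⟨v', b⟩ ⟨_, h2⟩ h e
    have e1 : h • v = v' := congrArg Prod.fst e
    subst e1
    exact (iU h v h1).2.1 h2.1

/-- the sinks by type -/
theorem nV_eq : K.nV = K.nV0 + K.nVZ + K.nVD := by
  classical
  have e0 : {v | K.Snk v} = (K.sV0 ∪ K.sVZ) ∪ K.sVD := by
    ext v
    constructor
    · intro h
      by_cases h1 : Finite ↥(stabilizer H v)
      · exact Or.inl (Or.inl ⟨h, h1⟩)
      · rw [not_finite_iff_infinite] at h1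
        by_cases h2 : Zt ↥(stabilizer H v)
        · exact Or.inl (Or.inr ⟨h, h1, h2⟩)
        · exact Or.inr ⟨h, h1, h2⟩
    · rintro ((h | h) | h)
      · exact h.1
      · exact h.1
      · exact h.1
  unfold nV
  rw [e0, oc_union_disj (K.fo _) (K.fo _), oc_union_disj (K.fo _) (K.fo _)]
  · rfl
  · rintro v ⟨_, h1⟩ w ⟨_, h2, _⟩ h rfl
    rw [inf_smul_iff] at h2
    exact not_finite_iff_infinite.2 h2 h1
  · rintro v hv w ⟨_, h2, h3⟩ h rfl
    rw [inf_smul_iff] at h2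
    rw [zt_smul_iff] at h3
    rcases hv with ⟨_, h1⟩ | ⟨_, _, h1⟩
    · exact not_finite_iff_infinite.2 h2 h1
    · exact h3 h1

/-- `R = E + 2 b''` -/
theorem R_eq : K.R = K.nE + 2 * K.b2 := by
  rw [R, b2, nE_eq]
  push_cast
  ring

theorem nE_le_nAr : K.nE ≤ K.nAr := oc_mono K.fin_ar fun _ h => h.1

theorem nVs_le_nV0 : K.nVs ≤ K.nV0 := oc_mono (K.fo _) fun _ h => ⟨h.1, h.2.1⟩

theorem nVs_le_nVc : K.nVs ≤ K.nVc := oc_mono (K.fo _) fun _ h => ⟨h.1, h.2.2⟩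

theorem nVc_le_nV : K.nVc ≤ K.nV := oc_mono (K.fo _) fun _ h => h.1

theorem nHv_le_nVc : K.nHv ≤ K.nVc :=
  oc_mono (K.fo _) fun _ h => ⟨h.1, h.2.imp fun _ h' => h'.2.1.symm⟩

end GX

/-! ### parts -/

namespace SubGX

variable {H' V' H V : Type} [Group H'] [MulAction H' V'] [Group H] [MulAction H V]
  {K' : GX H' V'} {K : GX H V}

theorem sft (S : SubGX K' K) {v : V'} (hv : K'.Sft v) : K.Sft (S.f v) := by
  obtain ⟨a, b, ha, hb, hne⟩ := hv
  exact ⟨S.f a, S.f b, (S.ar_iff _ _).1 ha, (S.ar_iff _ _).1 hb, fun e => hne (S.f_inj e)⟩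

theorem snk (S : SubGX K' K) {v : V'} (hv : K.Snk (S.f v)) : K'.Snk v :=
  fun a ha => hv (S.f a) ((S.ar_iff _ _).1 ha)

theorem fin_of (S : SubGX K' K) {v : V'} (h : Finite ↥(stabilizer H (S.f v))) :
    Finite ↥(stabilizer H' v) := by
  refine Finite.of_injective (fun k : ↥(stabilizer H' v) =>
    (⟨S.φ k.1, by rw [mem_stabilizer_iff, ← S.f_smul, mem_stabilizer_iff.1 k.2]⟩ :
      ↥(stabilizer H (S.f v)))) ?_
  intro k l e
  exact Subtype.ext (S.φ_inj (congrArg Subtype.val e))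

/-- the stabilisers are the same if all elements of the big one come from the part -/
noncomputable def stabIso (S : SubGX K' K) {v : V'}
    (hb : ∀ h : H, h • S.f v = S.f v → ∃ k, S.φ k = h) :
    ↥(stabilizer H' v) ≃* ↥(stabilizer H (S.f v)) :=
  MulEquiv.ofBijective
    ({ toFun := fun k => (⟨S.φ k.1, by rw [mem_stabilizer_iff, ← S.f_smul,
        mem_stabilizer_iff.1 k.2]⟩ : ↥(stabilizer H (S.f v)))
       map_one' := Subtype.ext (map_one S.φ)
       map_mul' := fun k l => Subtype.ext (map_mul S.φ k.1 l.1) } :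
      ↥(stabilizer H' v) →* ↥(stabilizer H (S.f v)))
    ⟨fun k l e => Subtype.ext (S.φ_inj (congrArg Subtype.val e)), by
      rintro ⟨h, hh⟩
      obtain ⟨k, rfl⟩ := hb h hh
      refine ⟨⟨k, S.f_inj ?_⟩, rfl⟩
      rw [S.f_smul]
      exact hh⟩

/-- equivalent softs of the part are equivalent in the part -/
theorem soft_back (S : SubGX K' K) {v v' : V'} (hv : K'.Sft v) (hv' : K'.Sft v') {h : H}
    (e : h • S.f v = S.f v') : ∃ k, S.φ k = h ∧ k • v = v' := by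
  obtain ⟨a, _, ha, _, _⟩ := hv
  obtain ⟨a', b', ha', hb', hne'⟩ := hv'
  have h1 : K.ar (S.f v') (h • S.f a) := by
    have := K.ar_smul h _ _ ((S.ar_iff _ _).1 ha)
    rwa [e] at this
  have key : ∀ c, K'.ar v' c → h • S.f a = S.f c → ∃ k, S.φ k = h ∧ k • v = v' := by
    intro c hc e2
    obtain ⟨k, rfl⟩ := S.edge v a v' c h (Or.inl ha) (Or.inl hc) e e2
    exact ⟨k, rfl, S.f_inj (by rw [S.f_smul]; exact e)⟩
  rcases GX.Sft.cases ((S.ar_iff _ _).1 ha') ((S.ar_iff _ _).1 hb')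
    (fun e => hne' (S.f_inj e)) h1 with e2 | e2
  · exact key _ ha' e2
  · exact key _ hb' e2

/-- the softs of a part have the same stabiliser -/
theorem soft_stab (S : SubGX K' K) {v : V'} (hv : K'.Sft v) :
    ∀ h : H, h • S.f v = S.f v → ∃ k, S.φ k = h := by
  intro h e
  obtain ⟨k, hk, _⟩ := S.soft_back hv hv e
  exact ⟨k, hk⟩

theorem soft_fin (S : SubGX K' K) {v : V'} (hv : K'.Sft v) :
    Finite ↥(stabilizer H' v) ↔ Finite ↥(stabilizer H (S.f v)) :=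
  (S.stabIso (S.soft_stab hv)).toEquiv.finite_iff

/-- the softs of a part have the same kind -/
theorem spc_iff (S : SubGX K' K) {v : V'} (hv : K'.Sft v) : K'.Spc v ↔ K.Spc (S.f v) := by
  constructor
  · rintro ⟨k, hk, a, ha, hne⟩
    refine ⟨S.φ k, by rw [← S.f_smul, hk], S.f a, (S.ar_iff _ _).1 ha, fun e => hne ?_⟩
    rw [← S.f_smul] at e
    exact S.f_inj e
  · rintro ⟨h, hh, c, hc, hne⟩
    obtain ⟨k, rfl, hk⟩ := S.soft_back hv hv hh
    obtain ⟨a, b, ha, hb, hne'⟩ := hv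
    rcases GX.Sft.cases ((S.ar_iff _ _).1 ha) ((S.ar_iff _ _).1 hb)
      (fun e => hne' (S.f_inj e)) hc with rfl | rfl
    · exact ⟨k, hk, a, ha, fun e => hne (by rw [← S.f_smul, e])⟩
    · exact ⟨k, hk, b, hb, fun e => hne (by rw [← S.f_smul, e])⟩

/-- `U` does not increase -/
theorem nU_le (S : SubGX K' K) : K'.nU ≤ K.nU := by
  refine oc_le_of_inj (K.fo _) S.f ?_ ?_
  · rintro v ⟨h1, h2, h3⟩
    exact ⟨S.sft h1, fun e => h2 ((S.spc_iff h1).2 e), (S.soft_fin h1).1 h3⟩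
  · rintro v ⟨h1, _, _⟩ v' ⟨h1', _, _⟩ ⟨h, e⟩
    obtain ⟨k, _, hk⟩ := S.soft_back h1 h1' e
    exact ⟨k, hk⟩

/-- `W` does not increase -/
theorem nW_le (S : SubGX K' K) : K'.nW ≤ K.nW := by
  refine oc_le_of_inj (K.fo _) S.f ?_ ?_
  · rintro v ⟨h1, h3⟩
    exact ⟨(S.spc_iff h1.sft).1 h1, (S.soft_fin h1.sft).1 h3⟩
  · rintro v ⟨h1, _⟩ v' ⟨h1', _⟩ ⟨h, e⟩
    obtain ⟨k, _, hk⟩ := S.soft_back h1.sft h1'.sft e
    exact ⟨k, hk⟩

/-- `E` does not increase -/
theorem nE_le (S : SubGX K' K) : K'.nE ≤ K.nE := by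
  rw [GX.nE_eq, GX.nE_eq]
  have := S.nU_le
  have := S.nW_le
  omega

/-- if `E` is the same then `U` and `W` are the same -/
theorem nUW_eq (S : SubGX K' K) (h : K.nE ≤ K'.nE) : K'.nU = K.nU ∧ K'.nW = K.nW := by
  rw [GX.nE_eq, GX.nE_eq] at h
  have := S.nU_le
  have := S.nW_le
  omega

theorem EC (S : SubGX K' K) {x y : V'} (h : K'.EC x y) : K.EC (S.f x) (S.f y) := by
  obtain ⟨i, k, h⟩ := h
  obtain ⟨g, hg⟩ := S.tb_f i
  obtain ⟨e1, e2⟩ := hg k
  refine ⟨S.ι i, S.φ k * g, ?_⟩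
  rw [← e1, ← e2]
  exact h.imp (fun c => c.map S.f) (fun c => c.map S.f)

/-- if all cells belong to the part then every edge of a cell comes from the part -/
theorem EC_back (S : SubGX K' K) (hall : ∀ i : K.I, ∃ i', S.ι i' = i) {x y : V} (h : K.EC x y) :
    ∃ (g : H) (x' y' : V'), g • S.f x' = x ∧ g • S.f y' = y ∧ K'.EC x' y' := by
  obtain ⟨i, k, h⟩ := h
  obtain ⟨i', rfl⟩ := hall i
  obtain ⟨g, hg⟩ := S.tb_f i'
  obtain ⟨e1, e2⟩ := hg 1
  rw [map_one, one_mul] at e1 e2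
  have hi : Function.Injective (fun z : V' => (k * g⁻¹) • S.f z) :=
    fun a b e => S.f_inj (smul_left_cancel _ e)
  have t1 : K.tb (S.ι i') k = (k * g⁻¹) • S.f (K'.tb i' 1) := by
    rw [e1, ← K.tb_mul, inv_mul_cancel_right]
  have t2 : K.tw (S.ι i') k = (K'.tw i' 1).map (fun z => (k * g⁻¹) • S.f z) := by
    rw [← inv_mul_cancel_right k g, K.tw_mul, ← e2, List.map_map, inv_mul_cancel_right]
    rfl
  have key : ∀ a b : V, Cn2 a b (K.tb (S.ι i') k) (K.tw (S.ι i') k) →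
      ∃ a' b' : V', (k * g⁻¹) • S.f a' = a ∧ (k * g⁻¹) • S.f b' = b ∧
        Cn2 a' b' (K'.tb i' 1) (K'.tw i' 1) := by
    intro a b hab
    rw [t1, t2] at hab
    have hm := hab.mem
    obtain ⟨a', rfl⟩ : ∃ a', (k * g⁻¹) • S.f a' = a := by
      rcases hm.1 with h1 | h1
      · exact ⟨_, h1.symm⟩
      · obtain ⟨z, _, hz⟩ := List.mem_map.1 h1
        exact ⟨z, hz⟩
    obtain ⟨b', rfl⟩ : ∃ b', (k * g⁻¹) • S.f b' = b := by
      obtain ⟨z, _, hz⟩ := List.mem_map.1 hm.2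
      exact ⟨z, hz⟩
    exact ⟨a', b', rfl, rfl, Cn2.of_map (f := fun z : V' => (k * g⁻¹) • S.f z) hi hab⟩
  rcases h with h | h
  · obtain ⟨a, b, h1, h2, h3⟩ := key _ _ h
    exact ⟨_, a, b, h1, h2, i', 1, Or.inl h3⟩
  · obtain ⟨a, b, h1, h2, h3⟩ := key _ _ h
    exact ⟨_, b, a, h2, h1, i', 1, Or.inr h3⟩

/-- if all cells belong to the part then the number of sinks in cells does not decrease -/
theorem nVc_le (S : SubGX K' K) (hall : ∀ i : K.I, ∃ i', S.ι i' = i) : K.nVc ≤ K'.nVc := by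
  refine oc_le_of_surj (K'.fo _) S.f ?_ ?_
  · rintro v ⟨h1, y, h2⟩
    obtain ⟨g, x', y', rfl, rfl, h3⟩ := S.EC_back hall h2
    rw [GX.Snk_smul_iff] at h1
    exact ⟨x', ⟨S.snk h1, y', h3⟩, g, rfl⟩
  · rintro a _ b _ ⟨h, rfl⟩
    exact ⟨S.φ h, (S.f_smul _ _).symm⟩

/-- if all cells belong to the part then `V_s` does not decrease -/
theorem nVs_le (S : SubGX K' K) (hall : ∀ i : K.I, ∃ i', S.ι i' = i) : K.nVs ≤ K'.nVs := by
  refine oc_le_of_surj (K'.fo _) S.f ?_ ?_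
  · rintro v ⟨h1, h4, y, h2⟩
    obtain ⟨g, x', y', rfl, rfl, h3⟩ := S.EC_back hall h2
    rw [GX.Snk_smul_iff] at h1
    rw [GX.fin_smul_iff] at h4
    exact ⟨x', ⟨S.snk h1, S.fin_of h4, y', h3⟩, g, rfl⟩
  · rintro a _ b _ ⟨h, rfl⟩
    exact ⟨S.φ h, (S.f_smul _ _).symm⟩

/-- the stabiliser of an edge is the same -/
theorem inf_edge (S : SubGX K' K) {x y : V'} (e : K'.E x y)
    (h : Infinite ↥(stabilizer H ((S.f x, S.f y) : V × V))) :
    Infinite ↥(stabilizer H' ((x, y) : V' × V')) := by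
  have hex : ∀ k : ↥(stabilizer H ((S.f x, S.f y) : V × V)), ∃ k' : H', S.φ k' = k.1 ∧
      k' • x = x ∧ k' • y = y := fun k =>
    S.stab_edge e (congrArg Prod.fst k.2) (congrArg Prod.snd k.2)
  choose g hg using hex
  refine Infinite.of_injective (fun k => (⟨g k, Prod.ext (hg k).2.1 (hg k).2.2⟩ :
    ↥(stabilizer H' ((x, y) : V' × V')))) ?_
  intro k l e'
  have e2 : g k = g l := congrArg Subtype.val e'
  exact Subtype.ext (by rw [← (hg k).1, ← (hg l).1, e2])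

/-- if all cells belong to the part then `Hv` does not decrease -/
theorem nHv_le (S : SubGX K' K) (hall : ∀ i : K.I, ∃ i', S.ι i' = i) : K.nHv ≤ K'.nHv := by
  refine oc_le_of_surj (K'.fo _) S.f ?_ ?_
  · rintro v ⟨h1, n, h2, h3, h4⟩
    obtain ⟨g, n', v', rfl, rfl, h5⟩ := S.EC_back hall h3
    rw [GX.Snk_smul_iff] at h1
    rw [GX.ar_smul_iff] at h2
    have h6 : Infinite ↥(stabilizer H (g • ((S.f n', S.f v') : V × V))) := h4
    rw [GX.inf_smul_iff] at h6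
    exact ⟨v', ⟨S.snk h1, n', (S.ar_iff _ _).2 h2, h5, S.inf_edge h5.E h6⟩, g, rfl⟩
  · rintro a _ b _ ⟨h, rfl⟩
    exact ⟨S.φ h, (S.f_smul _ _).symm⟩

/-- equivalent vertices with connected link are equivalent in the part -/
theorem back_LC (S : SubGX K' K) {v n v' n' : V'} (hv : K.LC (S.f v)) (e : K'.E v n)
    (e' : K'.E v' n') {h : H} (hh : h • S.f v = S.f v') : ∃ k, S.φ k = h ∧ k • v = v' := by
  have hv' : K.LC (S.f v') := by
    rw [← hh]
    exact K.LC_smul h hv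
  have e1 : K.E (S.f v') (h • S.f n) := by
    have := K.E_smul h (S.E_iff.1 e)
    rwa [hh] at this
  obtain ⟨b', h1, h2⟩ := S.nbr_of_LC hv' e' e1
  obtain ⟨k, rfl⟩ := S.edge v n v' b' h e h2 hh h1.symm
  exact ⟨k, rfl, S.f_inj (by rw [S.f_smul]; exact hh)⟩

/-- numbers of orbits of vertices with connected link do not increase -/
theorem oc_le_LC (S : SubGX K' K) {Z' : Set V'} {Z : Set V} (hm : ∀ v ∈ Z', S.f v ∈ Z)
    (hn : ∀ v ∈ Z', ∃ n, K'.E v n) (hl : ∀ v ∈ Z', K.LC (S.f v)) : oc H' Z' ≤ oc H Z := by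
  refine oc_le_of_inj (K.fo _) S.f hm ?_
  rintro v hv v' hv' ⟨h, e⟩
  obtain ⟨n, hn1⟩ := hn v hv
  obtain ⟨n', hn2⟩ := hn v' hv'
  obtain ⟨k, _, hk⟩ := S.back_LC (hl v hv) hn1 hn2 e
  exact ⟨k, hk⟩

end SubGX

/-! ### bounds -/

namespace GX

variable {H V : Type} [Group H] [MulAction H V] (K : GX H V)

/-- every vertex has a neighbour -/
theorem exists_nbr (hb : ¬ SA H) (v : V) : ∃ y, K.E v y := by
  by_contra hcon
  push Not at hcon
  have hall : ∀ z, z = v := by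
    intro z
    have := K.conn v z
    induction this with
    | refl => rfl
    | tail _ e ih =>
      rw [ih] at e
      exact absurd e (hcon _)
  exact hb (SAF.SA.of_stabilizer_top (fun h => hall (h • v)) (Pool.Agent.BT.SA_of_InC (K.stab v)))

theorem EC_of_E (hLC : ∀ v, K.LC v) (hb : ¬ SA H) {x y : V} (e : K.E x y) : K.EC x y := by
  rcases K.edge_corner hLC hb e with ⟨b, _, h⟩ | ⟨b, _, h⟩
  · exact (EC_iff.2 ⟨b, h⟩).symm
  · exact EC_iff.2 ⟨b, h⟩

theorem VC_all (hLC : ∀ v, K.LC v) (hb : ¬ SA H) (v : V) : K.VC v := by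
  obtain ⟨y, hy⟩ := K.exists_nbr hb v
  exact ⟨y, K.EC_of_E hLC hb hy⟩

/-- the number of arrows in cells is at most the sum of the lengths of the cells -/
theorem oc_ar_EC_le : oc H {p : V × V | K.ar p.1 p.2 ∧ K.EC p.1 p.2} ≤
    Nat.card (Σ i : K.I, Fin ((K.cb i :: K.cw i).zip (K.cw i)).length) := by
  classical
  have := K.finI
  let g : (Σ i : K.I, Fin ((K.cb i :: K.cw i).zip (K.cw i)).length) →
      orbitRel.Quotient H (V × V) := fun q =>
    if K.ar (((K.cb q.1 :: K.cw q.1).zip (K.cw q.1)).get q.2).1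
        (((K.cb q.1 :: K.cw q.1).zip (K.cw q.1)).get q.2).2 then
      Quotient.mk'' (((K.cb q.1 :: K.cw q.1).zip (K.cw q.1)).get q.2)
    else Quotient.mk'' (((K.cb q.1 :: K.cw q.1).zip (K.cw q.1)).get q.2).swap
  have hsub : orbs H {p : V × V | K.ar p.1 p.2 ∧ K.EC p.1 p.2} ⊆ Set.range g := by
    rintro _ ⟨⟨x, y⟩, ⟨h1, i, k, h2⟩, rfl⟩
    have key : ∀ a b : V, Cn2 a b (K.tb i k) (K.tw i k) →
        ∃ j : Fin ((K.cb i :: K.cw i).zip (K.cw i)).length,
          ((K.cb i :: K.cw i).zip (K.cw i)).get j = (k⁻¹ • a, k⁻¹ • b) := by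
      intro a b hab
      have h3 : Cn2 (k • k⁻¹ • a) (k • k⁻¹ • b) (k • K.cb i) ((K.cw i).map (fun z => k • z)) := by
        rw [smul_inv_smul, smul_inv_smul]
        exact hab
      have h4 := Cn2.of_map (f := fun z : V => k • z) (MulAction.injective k) h3
      rw [Cn2_iff_zip] at h4
      exact List.mem_iff_get.1 h4
    rcases h2 with h2 | h2
    · obtain ⟨j, hj⟩ := key _ _ h2
      refine ⟨⟨i, j⟩, ?_⟩
      show (if _ then _ else _) = _
      rw [if_pos]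
      · rw [hj]
        exact mk_eq_iff.2 ⟨k⁻¹, rfl⟩
      · rw [hj]
        exact K.ar_smul _ _ _ h1
    · obtain ⟨j, hj⟩ := key _ _ h2
      refine ⟨⟨i, j⟩, ?_⟩
      show (if _ then _ else _) = _
      rw [if_neg]
      · rw [hj]
        exact mk_eq_iff.2 ⟨k⁻¹, rfl⟩
      · rw [hj]
        intro h3
        have h4 := K.ar_rk _ _ h3
        have h5 : K.rk y < K.rk x := K.ar_rk _ _ h1
        simp only [K.rk_smul] at h4
        omega
  unfold oc
  calc (orbs H {p : V × V | K.ar p.1 p.2 ∧ K.EC p.1 p.2}).ncard ≤ (Set.range g).ncard :=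
        Set.ncard_le_ncard hsub (Set.finite_range g)
    _ ≤ _ := by
        rw [← Nat.card_coe_set_eq]
        exact Finite.card_range_le g

theorem oc_ar_EC_le_five (P : Pt K) :
    oc H {p : V × V | K.ar p.1 p.2 ∧ K.EC p.1 p.2} ≤ 5 * K.area := by
  classical
  have := K.finI
  let ft := Fintype.ofFinite K.I
  refine K.oc_ar_EC_le.trans (le_of_eq ?_)
  rw [Nat.card_sigma, P.area_eq]
  have : ∀ i : K.I, Nat.card (Fin ((K.cb i :: K.cw i).zip (K.cw i)).length) = 5 := by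
    intro i
    rw [Nat.card_eq_fintype_card, Fintype.card_fin, P.cw_eq]
    rfl
  simp only [this]
  rw [Finset.sum_const, smul_eq_mul, mul_comm]
  rfl

theorem nAr_le (P : Pt K) (hLC : ∀ v, K.LC v) (hb : ¬ SA H) : K.nAr ≤ 5 * K.area := by
  refine le_trans ?_ (K.oc_ar_EC_le_five P)
  have hs : {p : V × V | K.ar p.1 p.2} ⊆ {p : V × V | K.ar p.1 p.2 ∧ K.EC p.1 p.2} :=
    fun p hp => ⟨hp, K.EC_of_E hLC hb (Or.inl hp)⟩
  exact oc_mono (K.fin_ar.mono fun _ h => h.1) hs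

theorem nV_le_nAr (hb : ¬ SA H) : K.nV ≤ K.nAr := by
  refine oc_le_of_surj K.fin_ar Prod.snd ?_ ?_
  · intro v hv
    obtain ⟨y, h | h⟩ := K.exists_nbr hb v
    · exact absurd h (hv y)
    · exact ⟨(y, v), h, 1, one_smul _ _⟩
  · rintro a _ b _ ⟨h, rfl⟩
    exact ⟨h, rfl⟩

theorem nVs_eq (hLC : ∀ v, K.LC v) (hb : ¬ SA H) : K.nVs = K.nV0 :=
  le_antisymm K.nVs_le_nV0
    (oc_mono (K.fo _) fun v h => ⟨h.1, h.2, K.VC_all hLC hb v⟩)

theorem nVc_eq (hLC : ∀ v, K.LC v) (hb : ¬ SA H) : K.nVc = K.nV :=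
  le_antisymm K.nVc_le_nV (oc_mono (K.fo _) fun v h => ⟨h, K.VC_all hLC hb v⟩)

end GX

/-! ### candidates -/

namespace Cd

variable (C : Cd)

theorem nAr_le : C.K.nAr ≤ 5 * C.K.area := C.K.nAr_le C.P C.lc C.bad

theorem nE_le : C.K.nE ≤ 5 * C.K.area := C.K.nE_le_nAr.trans C.nAr_le

theorem nV_le : C.K.nV ≤ 5 * C.K.area := (C.K.nV_le_nAr C.bad).trans C.nAr_le

theorem nVs_eq : C.K.nVs = C.K.nV0 := C.K.nVs_eq C.lc C.bad

theorem nVc_eq : C.K.nVc = C.K.nV := C.K.nVc_eq C.lc C.bad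

theorem nVs_le : C.K.nVs ≤ 5 * C.K.area :=
  (C.K.nVs_le_nVc.trans C.K.nVc_le_nV).trans C.nV_le

theorem nHv_le : C.K.nHv ≤ 5 * C.K.area :=
  (C.K.nHv_le_nVc.trans C.K.nVc_le_nV).trans C.nV_le

/-- `V_s` is maximal, then `Hv` is maximal -/
def LW : Prop := ∀ C' : Cd, C'.K.nVs ≤ C.K.nVs ∧ (C'.K.nVs = C.K.nVs → C'.K.nHv ≤ C.K.nHv)

theorem exists_LW (h : Nonempty Cd) : ∃ C : Cd, C.LW := by
  obtain ⟨C0⟩ := h
  obtain ⟨C1, -, h1⟩ := exists_max_Cd (Q := fun _ => True) ⟨C0, trivial⟩ (fun C => C.K.nVs)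
    (5 * C0.K.area) (fun C _ => by
      have := C.nVs_le
      rwa [C.area_unique C0] at this)
  obtain ⟨C2, h2, h3⟩ := exists_max_Cd (Q := fun C => C.K.nVs = C1.K.nVs) ⟨C1, rfl⟩
    (fun C => C.K.nHv) (5 * C0.K.area) (fun C _ => by
      have := C.nHv_le
      rwa [C.area_unique C0] at this)
  refine ⟨C2, fun C' => ⟨?_, fun e => h3 C' ?_⟩⟩
  · have := h1 C' trivial
    show C'.K.nVs ≤ C2.K.nVs
    rw [h2]
    exact this
  · show C'.K.nVs = C1.K.nVs
    rw [e, h2]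

variable {C}

/-- every bad pair of minimal area has a part which is a candidate with all its cells -/
theorem reduce' (C : Cd) {H V : Type} [Group H] [MulAction H V] (K : GX H V) (P : Pt K)
    (hb : ¬ SA H) (ha : K.area ≤ C.K.area) :
    ∃ (C' : Cd) (S : SubGX C'.K K), (∀ i : K.I, ∃ i', S.ι i' = i) ∧
      C'.K.nU ≤ K.nU ∧ C'.K.nW ≤ K.nW ∧ C'.K.nE ≤ K.nE ∧ K.nVs ≤ C'.K.nVs ∧
      K.nHv ≤ C'.K.nHv ∧ K.nVc ≤ C'.K.nVc := by
  obtain ⟨C', ⟨S⟩⟩ := C.reduce K P hb ha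
  have hall := fun i => C.all_cells S P ha C'.bad i
  exact ⟨C', S, hall, S.nU_le, S.nW_le, S.nE_le, S.nVs_le hall, S.nHv_le hall, S.nVc_le hall⟩

/-- maximality of `V_s`, `Hv` over all bad pairs of minimal area -/
theorem LW.pair (hC : C.LW) {H V : Type} [Group H] [MulAction H V] (K : GX H V) (P : Pt K)
    (hb : ¬ SA H) (ha : K.area ≤ C.K.area) :
    K.nVs ≤ C.K.nVs ∧ (K.nVs = C.K.nVs → K.nHv ≤ C.K.nHv) := by
  obtain ⟨C', S, hall, -, -, -, h1, h2, -⟩ := C.reduce' K P hb ha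
  have h3 := (hC C').1
  refine ⟨h1.trans h3, fun e => h2.trans ((hC C').2 (le_antisymm h3 ?_))⟩
  rw [← e]
  exact h1

theorem LW.of_eq (hC : C.LW) {C' : Cd} (h1 : C.K.nVs ≤ C'.K.nVs) (h2 : C.K.nHv ≤ C'.K.nHv) :
    C'.LW := by
  have e1 : C'.K.nVs = C.K.nVs := le_antisymm (hC C').1 h1
  have e2 : C'.K.nHv = C.K.nHv := le_antisymm ((hC C').2 e1) h2
  intro D
  rw [e1, e2]
  exact hC D

/-- a bad pair of minimal area with the same `V_s`, `Hv` has a part which is again a candidate with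
maximal `V_s`, `Hv`; `U`, `W`, `E` do not increase -/
theorem LW.reduce (hC : C.LW) {H V : Type} [Group H] [MulAction H V] (K : GX H V) (P : Pt K)
    (hb : ¬ SA H) (ha : K.area ≤ C.K.area) (h1 : C.K.nVs ≤ K.nVs) (h2 : C.K.nHv ≤ K.nHv) :
    ∃ (C' : Cd) (S : SubGX C'.K K), C'.LW ∧ (∀ i : K.I, ∃ i', S.ι i' = i) ∧
      C'.K.nU ≤ K.nU ∧ C'.K.nW ≤ K.nW ∧ C'.K.nE ≤ K.nE ∧ K.nVc ≤ C'.K.nVc := by
  obtain ⟨C', S, hall, h3, h4, h5, h6, h7, h8⟩ := C.reduce' K P hb ha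
  exact ⟨C', S, hC.of_eq (h1.trans h6) (h2.trans h7), hall, h3, h4, h5, h8⟩

end Cd

end Pool.Agent.DI
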