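import Pool.Agent.DI.P3d
import Pool.Agent.DI.Pc
import Pool.Agent.DI.Pot0
import Pool.Agent.SAG.AH

/-!
# The characters `P_4` and `P_5` of a complex

`NY y a`: `a` lies in the maximal finite normal subgroup of the two-ended stabiliser of `y` (`ny_dl`, `ny_zt`;
no such `a` if the stabiliser is finite). `K.P4`, `K.P5`: the characters `H → ℤ/2` which kill

* `P4`: the stabilisers of the sinks in cells (of `Z` type: only the elements of finite order) and the
  groups of the pieces of all vertices which are not sinks;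
* `P5`: `N_y` for the sinks `y` in cells and the elements of the groups of the pieces which fix all
  poles.

`GX.finite_h2`, `finite_P4`, `finite_P5`: finite dimension. `SubGX.P4_le`, `SubGX.P5_le`: parts with the same
group which contain all cells.
-/

namespace Pool.Agent.DI

open MulAction
open Pool.Agent.SAF (InC orbs FinOrb oc FinOrb_iff mk_eq_iff exists_rep)
open Pool.Agent.SAG (IO Zt)

/-! ### the finite normal subgroup -/

section NY

variable {H V : Type} [Group H] [MulAction H V]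

/-- `a` fixes `y`, has finite order and commutes with an element of infinite order of the stabiliser -/
def NY (y : V) (a : H) : Prop := a • y = y ∧ ¬ IO a ∧ ∃ t : H, t • y = y ∧ IO t ∧ a * t = t * a

theorem NY.fix {y : V} {a : H} (h : NY y a) : a • y = y := h.1

theorem NY.not_io {y : V} {a : H} (h : NY y a) : ¬ IO a := h.2.1

theorem NY.smul (g : H) {y : V} {a : H} (h : NY y a) : NY (g • y) (g * a * g⁻¹) := by
  obtain ⟨h1, h2, t, h3, h4, h5⟩ := h
  refine ⟨?_, fun k => h2 ?_, g * t * g⁻¹, ?_, h4.conj g, ?_⟩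
  · rw [mul_smul, inv_smul_smul, mul_smul, h1]
  · have := k.conj g⁻¹
    have e : g⁻¹ * (g * a * g⁻¹) * g⁻¹⁻¹ = a := by group
    rwa [e] at this
  · rw [mul_smul, inv_smul_smul, mul_smul, h3]
  · calc g * a * g⁻¹ * (g * t * g⁻¹) = g * (a * t) * g⁻¹ := by group
      _ = g * t * g⁻¹ * (g * a * g⁻¹) := by rw [h5]; group

/-- an element of a finite subgroup which is normalised by an element `t` of infinite order commutes with
an element of infinite order -/
theorem exists_comm_of_norm {A : Subgroup H} (hA : Finite ↥A) {t : H}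
    (hn : ∀ a ∈ A, t * a * t⁻¹ ∈ A) {a : H} (ha : a ∈ A) :
    ∃ k : ℕ, 0 < k ∧ a * t ^ k = t ^ k * a := by
  have hp : ∀ n : ℕ, t ^ n * a * (t ^ n)⁻¹ ∈ A := by
    intro n
    induction n with
    | zero => simpa using ha
    | succ n ih =>
      have := hn _ ih
      have e : t * (t ^ n * a * (t ^ n)⁻¹) * t⁻¹ = t ^ (n + 1) * a * (t ^ (n + 1))⁻¹ := by
        rw [pow_succ']
        group
      rwa [e] at this
  obtain ⟨m, n, hmn, e⟩ := Finite.exists_ne_map_eq_of_infinite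
    (fun n : ℕ => (⟨_, hp n⟩ : ↥A))
  have e : t ^ m * a * (t ^ m)⁻¹ = t ^ n * a * (t ^ n)⁻¹ := congrArg Subtype.val e
  have key : ∀ m n : ℕ, m < n → t ^ m * a * (t ^ m)⁻¹ = t ^ n * a * (t ^ n)⁻¹ →
      ∃ k : ℕ, 0 < k ∧ a * t ^ k = t ^ k * a := by
    intro m n hmn e
    refine ⟨n - m, by omega, ?_⟩
    have e2 : t ^ n = t ^ m * t ^ (n - m) := by rw [← pow_add]; congr 1; omega
    rw [e2] at e
    have e3 : t ^ m * a * (t ^ m)⁻¹ = t ^ m * (t ^ (n - m) * a * (t ^ (n - m))⁻¹) * (t ^ m)⁻¹ := by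
      rw [e]
      group
    have e4 := mul_left_cancel (mul_right_cancel e3)
    calc a * t ^ (n - m) = t ^ (n - m) * a * (t ^ (n - m))⁻¹ * t ^ (n - m) := by rw [← e4]
      _ = t ^ (n - m) * a := by group
  rcases lt_or_gt_of_ne hmn with h | h
  · exact key m n h e
  · exact key n m h e.symm

/-- an infinite group of `Z` type: its elements of finite order commute with an element of infinite
order -/
theorem zt_comm {A : Subgroup H} (hz : Zt ↥A) (hi : Infinite ↥A) {a : H} (ha : a ∈ A)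
    (hio : ¬ IO a) : ∃ t ∈ A, IO t ∧ a * t = t * a := by
  obtain ⟨f, hf⟩ := hz
  -- an element outside the kernel
  obtain ⟨t, ht⟩ : ∃ t : ↥A, t ∉ f.ker := by
    by_contra hcon
    push Not at hcon
    have : Finite ↥A := by
      refine Finite.of_injective (fun a : ↥A => (⟨a, hcon a⟩ : ↥f.ker)) ?_
      intro a b e
      exact congrArg (fun z : ↥f.ker => z.1) e
    exact not_finite_iff_infinite.2 hi this
  have hft : Multiplicative.toAdd (f t) ≠ 0 := by
    intro h
    apply ht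
    rw [MonoidHom.mem_ker]
    exact Multiplicative.toAdd.injective (by rw [h, toAdd_one])
  have htio : IO t := by
    intro n hn e
    have h1 : f t ^ n = 1 := by rw [← map_pow, e, map_one]
    have h2 := congrArg Multiplicative.toAdd h1
    rw [toAdd_pow, nsmul_eq_mul, toAdd_one] at h2
    rcases mul_eq_zero.1 h2 with h | h
    · have : n = 0 := by exact_mod_cast h
      omega
    · exact hft h
  have hak : (⟨a, ha⟩ : ↥A) ∈ f.ker := by
    by_contra hne
    apply hio
    have hfa : Multiplicative.toAdd (f ⟨a, ha⟩) ≠ 0 := by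
      intro h
      apply hne
      rw [MonoidHom.mem_ker]
      exact Multiplicative.toAdd.injective (by rw [h, toAdd_one])
    intro n hn e
    have h0 : (⟨a, ha⟩ : ↥A) ^ n = 1 := Subtype.ext e
    have h1 : f ⟨a, ha⟩ ^ n = 1 := by rw [← map_pow, h0, map_one]
    have h2 := congrArg Multiplicative.toAdd h1
    rw [toAdd_pow, nsmul_eq_mul, toAdd_one] at h2
    rcases mul_eq_zero.1 h2 with h | h
    · have : n = 0 := by exact_mod_cast h
      omega
    · exact hfa h
  obtain ⟨k, hk, e⟩ := exists_comm_of_norm (A := f.ker) hf (t := t) (fun b hb => by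
    rw [MonoidHom.mem_ker] at hb ⊢
    rw [map_mul, map_mul, hb, mul_one, map_inv, mul_inv_cancel]) hak
  refine ⟨(t ^ k).1, (t ^ k).2, ?_, congrArg Subtype.val e⟩
  exact io_coe.2 (htio.pow hk)

theorem ny_zt {y : V} (hz : Zt ↥(stabilizer H y)) (hi : Infinite ↥(stabilizer H y)) {a : H} :
    NY y a ↔ a • y = y ∧ ¬ IO a := by
  constructor
  · exact fun h => ⟨h.1, h.2.1⟩
  · rintro ⟨h1, h2⟩
    obtain ⟨t, ht, h3, h4⟩ := zt_comm hz hi h1 h2
    exact ⟨h1, h2, t, ht, h3, h4⟩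

theorem ny_fin {y : V} (hf : Finite ↥(stabilizer H y)) {a : H} : ¬ NY y a := by
  rintro ⟨-, -, t, ht, hio, -⟩
  exact SAG.not_IO_finite (⟨t, ht⟩ : ↥(stabilizer H y)) (io_coe.1 hio)

/-- in a line group the elements are the members of the kernel -/
theorem comm_dl {A : Subgroup H} (L : DL ↥A) {a : H} (ha : a ∈ A) :
    (¬ IO a ∧ ∃ t ∈ A, IO t ∧ a * t = t * a) ↔ (⟨a, ha⟩ : ↥A) ∈ L.N := by
  constructor
  · rintro ⟨h1, t, ht, h2, h3⟩
    have ht' : IO (⟨t, ht⟩ : ↥A) := io_coe.1 h2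
    obtain ⟨k1, k2⟩ := L.io_iff.1 ht'
    have e : (⟨a, ha⟩ : ↥A) * ⟨t, ht⟩ = ⟨t, ht⟩ * ⟨a, ha⟩ := Subtype.ext h3
    have e2 := congrArg L.τ e
    rw [L.τ_mul, L.τ_mul, k1, Units.val_one, one_mul] at e2
    have hε : L.ε ⟨a, ha⟩ = 1 := by
      refine (L.ε_cases _).resolve_right fun h => ?_
      rw [h, Units.val_neg, Units.val_one] at e2
      apply k2
      omega
    refine ⟨hε, ?_⟩
    by_contra hne
    exact h1 (io_coe.2 (L.io_iff.2 ⟨hε, hne⟩))
  · intro h
    refine ⟨fun k => L.not_io_of_mem_N h (io_coe.1 k), ?_⟩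
    obtain ⟨t, ht1, ht2⟩ := L.exists_trans 1
    have hio : IO t := L.io_of ht1 (by rw [ht2]; decide)
    obtain ⟨k, hk, e⟩ := exists_comm_of_norm (A := L.N) inferInstance (t := t)
      (fun b hb => L.N_normal.conj_mem b hb t) h
    exact ⟨(t ^ k).1, (t ^ k).2, io_coe.2 (hio.pow hk), congrArg Subtype.val e⟩

theorem ny_dl {y : V} (L : DL ↥(stabilizer H y)) {a : H} (ha : a • y = y) :
    NY y a ↔ (⟨a, ha⟩ : ↥(stabilizer H y)) ∈ L.N := by
  rw [← comm_dl L (a := a) ha]
  constructor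
  · rintro ⟨h1, h2, t, h3, h4, h5⟩
    exact ⟨h2, t, h3, h4, h5⟩
  · rintro ⟨h2, t, h3, h4, h5⟩
    exact ⟨ha, h2, t, h3, h4, h5⟩

end NY

/-! ### the spaces -/

namespace GX

variable {H V : Type} [Group H] [MulAction H V] (K : GX H V)

/-- `a` keeps the piece of `n` at the vertex `y` which is not a sink; the edge `n y` lies in a cell -/
def PG (y n : V) (a : H) : Prop :=
  (∃ b, K.ar y b) ∧ K.ar n y ∧ K.EC n y ∧ a • y = y ∧ K.IJ y n (a • n)

variable {K}

theorem PG.smul (g : H) {y n : V} {a : H} (h : K.PG y n a) :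
    K.PG (g • y) (g • n) (g * a * g⁻¹) := by
  obtain ⟨⟨b, h1⟩, h2, h3, h4, h5⟩ := h
  refine ⟨⟨g • b, K.ar_smul g _ _ h1⟩, K.ar_smul g _ _ h2, h3.smul g, ?_, ?_⟩
  · rw [mul_smul, inv_smul_smul, mul_smul, h4]
  · have := h5.smul g
    rwa [mul_smul, inv_smul_smul, mul_smul]

variable (K)

/-- `P_4` -/
def P4 : Submodule (ZMod 2) (H2m H) where
  carrier := {φ | (∀ y, K.Snk y → K.VC y → ∀ a : H, a • y = y →
      (Zt ↥(stabilizer H y) → Infinite ↥(stabilizer H y) → ¬ IO a) → φ (Additive.ofMul a) = 0) ∧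
    ∀ y n a, K.PG y n a → φ (Additive.ofMul a) = 0}
  add_mem' := by
    rintro φ ψ ⟨h1, h2⟩ ⟨k1, k2⟩
    refine ⟨fun y e1 e2 a e3 e4 => ?_, fun y n a e => ?_⟩
    · rw [AddMonoidHom.add_apply, h1 y e1 e2 a e3 e4, k1 y e1 e2 a e3 e4, add_zero]
    · rw [AddMonoidHom.add_apply, h2 y n a e, k2 y n a e, add_zero]
  zero_mem' := ⟨fun _ _ _ _ _ _ => rfl, fun _ _ _ _ => rfl⟩
  smul_mem' := by
    rintro c φ ⟨h1, h2⟩
    refine ⟨fun y e1 e2 a e3 e4 => ?_, fun y n a e => ?_⟩
    · show c • φ (Additive.ofMul a) = 0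
      rw [h1 y e1 e2 a e3 e4, smul_zero]
    · show c • φ (Additive.ofMul a) = 0
      rw [h2 y n a e, smul_zero]

/-- `P_5` -/
def P5 : Submodule (ZMod 2) (H2m H) where
  carrier := {φ | (∀ y, K.Snk y → K.VC y → ∀ a : H, NY y a → φ (Additive.ofMul a) = 0) ∧
    ∀ y n a, K.PG y n a → (∀ b, K.ar y b → a • b = b) → φ (Additive.ofMul a) = 0}
  add_mem' := by
    rintro φ ψ ⟨h1, h2⟩ ⟨k1, k2⟩
    refine ⟨fun y e1 e2 a e3 => ?_, fun y n a e e' => ?_⟩
    · rw [AddMonoidHom.add_apply, h1 y e1 e2 a e3, k1 y e1 e2 a e3, add_zero]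
    · rw [AddMonoidHom.add_apply, h2 y n a e e', k2 y n a e e', add_zero]
  zero_mem' := ⟨fun _ _ _ _ _ => rfl, fun _ _ _ _ _ => rfl⟩
  smul_mem' := by
    rintro c φ ⟨h1, h2⟩
    refine ⟨fun y e1 e2 a e3 => ?_, fun y n a e e' => ?_⟩
    · show c • φ (Additive.ofMul a) = 0
      rw [h1 y e1 e2 a e3, smul_zero]
    · show c • φ (Additive.ofMul a) = 0
      rw [h2 y n a e e', smul_zero]

/-- `p_4` -/
noncomputable def p4 : ℕ := Module.finrank (ZMod 2) ↥K.P4

/-- `p_5` -/
noncomputable def p5 : ℕ := Module.finrank (ZMod 2) ↥K.P5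

variable {K}

theorem mem_P4 {φ : H2m H} : φ ∈ K.P4 ↔ (∀ y, K.Snk y → K.VC y → ∀ a : H, a • y = y →
      (Zt ↥(stabilizer H y) → Infinite ↥(stabilizer H y) → ¬ IO a) → φ (Additive.ofMul a) = 0) ∧
    ∀ y n a, K.PG y n a → φ (Additive.ofMul a) = 0 := Iff.rfl

theorem mem_P5 {φ : H2m H} : φ ∈ K.P5 ↔
    (∀ y, K.Snk y → K.VC y → ∀ a : H, NY y a → φ (Additive.ofMul a) = 0) ∧
    ∀ y n a, K.PG y n a → (∀ b, K.ar y b → a • b = b) → φ (Additive.ofMul a) = 0 := Iff.rfl

theorem P4_le_P5 : K.P4 ≤ K.P5 := by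
  rintro φ ⟨h1, h2⟩
  exact ⟨fun y e1 e2 a e3 => h1 y e1 e2 a e3.1 (fun _ _ => e3.2.1), fun y n a e _ => h2 y n a e⟩

/-- finitely many elements and the stabilisers of finitely many vertices detect the characters -/
theorem finite_h2 (K : GX H V) : FiniteDimensional (ZMod 2) (H2m H) := by
  classical
  have hfin : Finite (orbitRel.Quotient H V) := finite_orb K.fin
  let r : V → V := fun x => Quotient.out (Quotient.mk'' x : orbitRel.Quotient H V)
  have hr : ∀ x, ∃ g : H, g • r x = x := by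
    intro x
    have h1 : (Quotient.mk'' (r x) : orbitRel.Quotient H V) = Quotient.mk'' x :=
      Quotient.out_eq' (s₁ := orbitRel H V) _
    have h2 : (orbitRel H V).r x (r x) := Quotient.exact h1.symm
    exact h2
  have hrr : ∀ x (h : H), r (h • x) = r x := by
    intro x h
    have : (Quotient.mk'' (h • x) : orbitRel.Quotient H V) = Quotient.mk'' x :=
      Quotient.sound (⟨h, rfl⟩ : (orbitRel H V).r (h • x) x)
    show Quotient.out _ = Quotient.out _
    rw [this]
  choose g hg using hr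
  have hs : ∀ q : orbitRel.Quotient H V, ∃ T : Finset ↥(stabilizer H (Quotient.out q)),
      Subgroup.closure (T : Set ↥(stabilizer H (Quotient.out q))) = ⊤ := by
    intro q
    have := SAG.InC.fg (K.stab (Quotient.out q))
    exact Group.fg_def.1 this
  choose T hT using hs
  obtain ⟨F, hF, -, hFc⟩ := FinOrb_iff.1 K.fin_ar
  have : Finite ↥F := hF.to_subtype
  let ev : H2m H →ₗ[ZMod 2] (((q : orbitRel.Quotient H V) × ↥(T q)) ⊕ ↥F → ZMod 2) :=
    { toFun := fun φ s => match s with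
        | Sum.inl p => φ (Additive.ofMul (p.2.1 : H))
        | Sum.inr p => φ (Additive.ofMul ((g p.1.1)⁻¹ * g p.1.2))
      map_add' := by
        intro φ ψ
        funext s
        cases s <;> rfl
      map_smul' := by
        intro c φ
        funext s
        cases s <;> rfl }
  have hz : ∀ φ : H2m H, ev φ = 0 → φ = 0 := by
    intro φ h0
    have h1 : ∀ (q : orbitRel.Quotient H V) (a : H), a ∈ stabilizer H (Quotient.out q) →
        φ (Additive.ofMul a) = 0 := by
      intro q a ha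
      have h2 : ∀ b ∈ (T q : Set ↥(stabilizer H (Quotient.out q))),
          (res2 (stabilizer H (Quotient.out q)) φ) (Additive.ofMul b) = 0 := by
        intro b hb
        exact congrFun h0 (Sum.inl ⟨q, b, hb⟩)
      have h3 := h2_closure (φ := res2 (stabilizer H (Quotient.out q)) φ) h2
        (a := (⟨a, ha⟩ : ↥(stabilizer H (Quotient.out q)))) (by rw [hT]; trivial)
      exact h3
    have h2 : ∀ (h : H) (x : V), φ (Additive.ofMul (g (h • x))) =
        φ (Additive.ofMul h) + φ (Additive.ofMul (g x)) := by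
      intro h x
      have e1 : ((g (h • x))⁻¹ * h * g x) ∈ stabilizer H (r x) := by
        rw [mem_stabilizer_iff, mul_smul, hg, mul_smul, inv_smul_eq_iff]
        have := hg (h • x)
        rw [hrr] at this
        exact this.symm
      have e2 := h1 _ _ e1
      rw [h2_mul, h2_mul, h2_inv] at e2
      linear_combination -e2
    have h3 : ∀ x y, K.ar x y → φ (Additive.ofMul (g x)) = φ (Additive.ofMul (g y)) := by
      intro x y e
      obtain ⟨p, hp, a, ha⟩ := hFc (x, y) e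
      have ex : a • p.1 = x := congrArg Prod.fst ha
      have ey : a • p.2 = y := congrArg Prod.snd ha
      have e1 : φ (Additive.ofMul ((g p.1)⁻¹ * g p.2)) = 0 := congrFun h0 (Sum.inr ⟨p, hp⟩)
      rw [h2_mul, h2_inv] at e1
      rw [← ex, ← ey, h2, h2]
      linear_combination -e1
    have h4 : ∀ x y, φ (Additive.ofMul (g x)) = φ (Additive.ofMul (g y)) := by
      intro x y
      have := K.conn x y
      induction this with
      | refl => rfl
      | tail _ e ih =>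
        rcases e with e | e
        · exact ih.trans (h3 _ _ e)
        · exact ih.trans (h3 _ _ e).symm
    apply h2_ext
    intro h
    obtain ⟨x⟩ := K.ne
    have e1 := h2 h x
    have e2 := h4 (h • x) x
    show φ (Additive.ofMul h) = 0
    linear_combination e2 - e1
  have hi : Function.Injective ev := by
    intro a b hab
    have h1 : ev (a - b) = 0 := by rw [map_sub, hab, sub_self]
    exact sub_eq_zero.1 (hz _ h1)
  have : Finite ((q : orbitRel.Quotient H V) × ↥(T q)) := inferInstance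
  exact FiniteDimensional.of_injective ev hi

theorem finite_P4 (K : GX H V) : FiniteDimensional (ZMod 2) ↥K.P4 := by
  have := K.finite_h2
  infer_instance

theorem finite_P5 (K : GX H V) : FiniteDimensional (ZMod 2) ↥K.P5 := by
  have := K.finite_h2
  infer_instance

/-- the spaces depend only on the arrows and on the corners -/
theorem P4_le_of_cor {K' : GX H V} (h1 : ∀ x y, K'.ar x y ↔ K.ar x y)
    (h2 : ∀ a v b, K'.Cor a v b ↔ K.Cor a v b) : K'.P4 ≤ K.P4 ∧ K'.P5 ≤ K.P5 := by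
  have hE : ∀ x y, K'.EC x y ↔ K.EC x y := by
    intro x y
    rw [EC_iff, EC_iff]
    exact exists_congr fun b => h2 _ _ _
  have hV : ∀ x, K'.VC x ↔ K.VC x := fun x => exists_congr fun y => hE x y
  have hS : ∀ x, K'.Snk x ↔ K.Snk x := fun x => forall_congr' fun a => not_congr (h1 x a)
  have hI : ∀ y a b, K.IJ y a b → K'.IJ y a b := by
    intro y a b h
    refine Relation.EqvGen.mono ?_ _ _ h
    rintro a b ⟨k1, k2, k3⟩
    exact ⟨(h2 _ _ _).2 k1, (h1 _ _).2 k2, (h1 _ _).2 k3⟩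
  have hP : ∀ y n a, K.PG y n a → K'.PG y n a := by
    rintro y n a ⟨⟨b, k1⟩, k2, k3, k4, k5⟩
    exact ⟨⟨b, (h1 _ _).2 k1⟩, (h1 _ _).2 k2, (hE _ _).2 k3, k4, hI _ _ _ k5⟩
  refine ⟨?_, ?_⟩
  · rintro φ ⟨k1, k2⟩
    exact ⟨fun y e1 e2 a e3 e4 => k1 y ((hS y).2 e1) ((hV y).2 e2) a e3 e4,
      fun y n a e => k2 y n a (hP y n a e)⟩
  · rintro φ ⟨k1, k2⟩
    exact ⟨fun y e1 e2 a e3 => k1 y ((hS y).2 e1) ((hV y).2 e2) a e3,
      fun y n a e e' => k2 y n a (hP y n a e) (fun b hb => e' b ((h1 _ _).1 hb))⟩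

end GX

/-! ### parts -/

namespace SubGX

variable {H' V' H V : Type} [Group H'] [MulAction H' V'] [Group H] [MulAction H V]
  {K' : GX H' V'} {K : GX H V}

/-- pieces of the part -/
theorem IJ_back (S : SubGX K' K) {v : V'} {a b : V} (h : K.IJ (S.f v) a b) :
    (∀ a', S.f a' = a → K'.E v a' → ∃ b', S.f b' = b ∧ K'.IJ v a' b') ∧
    ∀ b', S.f b' = b → K'.E v b' → ∃ a', S.f a' = a ∧ K'.IJ v a' b' := by
  have hE : ∀ {x y : V'}, K'.IJ v x y → (K'.E v x ↔ K'.E v y) := by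
    intro x y h
    induction h with
    | rel x y h => exact ⟨fun _ => h.1.E2, fun _ => h.1.E1⟩
    | refl x => exact Iff.rfl
    | symm x y _ ih => exact ih.symm
    | trans x y z _ _ ih1 ih2 => exact ih1.trans ih2
  induction h with
  | rel a b h =>
    refine ⟨?_, ?_⟩
    · rintro a' rfl e
      obtain ⟨b', rfl, c⟩ := S.corner_back e h.1
      exact ⟨b', rfl, Relation.EqvGen.rel _ _ ⟨c, (S.ar_iff _ _).2 h.2.1, (S.ar_iff _ _).2 h.2.2⟩⟩
    · rintro b' rfl e
      obtain ⟨a', rfl, c⟩ := S.corner_back e h.1.symm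
      exact ⟨a', rfl, Relation.EqvGen.rel _ _
        ⟨c.symm, (S.ar_iff _ _).2 h.2.1, (S.ar_iff _ _).2 h.2.2⟩⟩
  | refl a =>
    exact ⟨fun a' e _ => ⟨a', e, Relation.EqvGen.refl _⟩,
      fun b' e _ => ⟨b', e, Relation.EqvGen.refl _⟩⟩
  | symm a b _ ih =>
    refine ⟨?_, ?_⟩
    · intro b' e e'
      obtain ⟨a', h1, h2⟩ := ih.2 b' e e'
      exact ⟨a', h1, h2.symm'⟩
    · intro a' e e'
      obtain ⟨b', h1, h2⟩ := ih.1 a' e e'
      exact ⟨b', h1, h2.symm'⟩
  | trans a b c _ _ ih1 ih2 =>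
    refine ⟨?_, ?_⟩
    · intro a' e e'
      obtain ⟨b', h1, h2⟩ := ih1.1 a' e e'
      obtain ⟨c', h3, h4⟩ := ih2.1 b' h1 ((hE h2).1 e')
      exact ⟨c', h3, h2.trans' h4⟩
    · intro c' e e'
      obtain ⟨b', h1, h2⟩ := ih2.2 c' e e'
      obtain ⟨a', h3, h4⟩ := ih1.2 b' h1 ((hE h2).2 e')
      exact ⟨a', h3, h4.trans' h2⟩

variable (S : SubGX K' K) (hφ : Function.Surjective S.φ) (hall : ∀ i : K.I, ∃ i', S.ι i' = i)

/-- the pull-back of characters -/
def pull : H2m H →ₗ[ZMod 2] H2m H' where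
  toFun φ := mkHa (fun a => φ (Additive.ofMul (S.φ a))) (fun a b => by
    show φ (Additive.ofMul (S.φ (a * b))) = _
    rw [map_mul, h2_mul])
  map_add' _ _ := rfl
  map_smul' _ _ := rfl

theorem pull_apply (φ : H2m H) (a : H') :
    S.pull φ (Additive.ofMul a) = φ (Additive.ofMul (S.φ a)) := rfl

include hφ in
theorem pull_surj : Function.Surjective S.pull := by
  intro ψ
  let e : H' ≃* H := MulEquiv.ofBijective S.φ ⟨S.φ_inj, hφ⟩
  refine ⟨mkHa (fun a => ψ (Additive.ofMul (e.symm a))) (fun a b => by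
    show ψ (Additive.ofMul (e.symm (a * b))) = _
    rw [map_mul, h2_mul]), ?_⟩
  apply h2_ext
  intro a
  show ψ (Additive.ofMul (e.symm (S.φ a))) = _
  have : e.symm (S.φ a) = a := e.symm_apply_apply a
  rw [this]

include hφ hall in
theorem exists_of_VC {y : V} (h : K.VC y) : ∃ y', S.f y' = y ∧ K'.VC y' := by
  obtain ⟨x, h⟩ := h
  obtain ⟨g, y', x', h1, h2, h3⟩ := S.EC_back hall h
  obtain ⟨k, rfl⟩ := hφ g
  refine ⟨k • y', by rw [S.f_smul, h1], k • x', h3.smul k⟩

include hφ hall in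
theorem exists_of_EC {x y : V} (h : K.EC x y) : ∃ x' y', S.f x' = x ∧ S.f y' = y ∧ K'.EC x' y' := by
  obtain ⟨g, x', y', h1, h2, h3⟩ := S.EC_back hall h
  obtain ⟨k, rfl⟩ := hφ g
  exact ⟨k • x', k • y', by rw [S.f_smul, h1], by rw [S.f_smul, h2], h3.smul k⟩

theorem smul_f_iff {a : H'} {y : V'} : S.φ a • S.f y = S.f y ↔ a • y = y := by
  rw [← S.f_smul]
  exact ⟨fun e => S.f_inj e, fun e => by rw [e]⟩

include hφ hall in
/-- the pieces of the complex are pieces of the part -/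
theorem PG_back (hs : ∀ y', K'.VC y' → K'.Snk y' → K.Snk (S.f y')) {y n : V} {a : H}
    (h : K.PG y n a) : ∃ y' n' a', S.f y' = y ∧ S.φ a' = a ∧ K'.PG y' n' a' := by
  obtain ⟨⟨b, h1⟩, h2, h3, h4, h5⟩ := h
  obtain ⟨n', y', rfl, rfl, h6⟩ := S.exists_of_EC hφ hall h3
  obtain ⟨a', rfl⟩ := hφ a
  refine ⟨y', n', a', rfl, rfl, ?_, (S.ar_iff _ _).2 h2, h6, S.smul_f_iff.1 h4, ?_⟩
  · by_contra hcon
    have h7 : K'.Snk y' := fun b hb => hcon ⟨b, hb⟩
    exact hs y' ⟨n', h6.symm⟩ h7 b h1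
  · obtain ⟨m', h7, h8⟩ := (S.IJ_back h5).1 n' rfl (Or.inr ((S.ar_iff _ _).2 h2))
    have : m' = a' • n' := S.f_inj (by rw [h7, S.f_smul])
    rwa [this] at h8

theorem io_phi {a : H'} : IO (S.φ a) ↔ IO a := io_map S.φ S.φ_inj

include hφ in
theorem NY_back {y : V'} {a : H'} (h : NY (S.f y) (S.φ a)) : NY y a := by
  obtain ⟨h1, h2, t, h3, h4, h5⟩ := h
  obtain ⟨t, rfl⟩ := hφ t
  refine ⟨S.smul_f_iff.1 h1, fun k => h2 (S.io_phi.2 k), t, S.smul_f_iff.1 h3, S.io_phi.1 h4, ?_⟩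
  apply S.φ_inj
  rw [map_mul, map_mul, h5]

include hφ hall in
/-- a character of the part is a character of the complex -/
theorem P5_of_pull (hs : ∀ y', K'.VC y' → K'.Snk y' → K.Snk (S.f y')) {φ : H2m H}
    (h : S.pull φ ∈ K'.P5) : φ ∈ K.P5 := by
  obtain ⟨h1, h2⟩ := h
  refine ⟨fun y e1 e2 a e3 => ?_, fun y n a e e' => ?_⟩
  · obtain ⟨y', rfl, hy'⟩ := S.exists_of_VC hφ hall e2
    obtain ⟨a, rfl⟩ := hφ a
    exact h1 y' (S.snk e1) hy' a (S.NY_back hφ e3)
  · obtain ⟨y', n', a', rfl, rfl, h3⟩ := S.PG_back hφ hall hs e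
    refine h2 y' n' a' h3 (fun b hb => S.f_inj ?_)
    rw [S.f_smul]
    exact e' _ ((S.ar_iff _ _).1 hb)

include hφ hall in
theorem P4_of_pull (hs : ∀ y', K'.VC y' → K'.Snk y' → K.Snk (S.f y')) {φ : H2m H}
    (h : S.pull φ ∈ K'.P4) : φ ∈ K.P4 := by
  obtain ⟨h1, h2⟩ := h
  refine ⟨fun y e1 e2 a e3 e4 => ?_, fun y n a e => ?_⟩
  · obtain ⟨y', rfl, hy'⟩ := S.exists_of_VC hφ hall e2
    obtain ⟨a, rfl⟩ := hφ a
    refine h1 y' (S.snk e1) hy' a (S.smul_f_iff.1 e3) (fun hz hi => ?_)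
    let e : ↥(stabilizer H' y') ≃* ↥(stabilizer H (S.f y')) := S.stabIso (fun h _ => hφ h)
    have k1 : Zt ↥(stabilizer H (S.f y')) := hz.of_inj e.symm.toMonoidHom e.symm.injective
    have k2 : Infinite ↥(stabilizer H (S.f y')) := Infinite.of_injective e e.injective
    exact fun k => e4 k1 k2 (S.io_phi.2 k)
  · obtain ⟨y', n', a', rfl, rfl, h3⟩ := S.PG_back hφ hall hs e
    exact h2 y' n' a' h3

include hφ hall in
/-- PARTS WITH THE SAME GROUP WHICH CONTAIN ALL CELLS -/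
theorem p4_le (hs : ∀ y', K'.VC y' → K'.Snk y' → K.Snk (S.f y')) : K'.p4 ≤ K.p4 ∧ K'.p5 ≤ K.p5 := by
  have f4 := K.finite_P4
  have f5 := K.finite_P5
  have key : ∀ (A : Submodule (ZMod 2) (H2m H')) (B : Submodule (ZMod 2) (H2m H))
      (_ : FiniteDimensional (ZMod 2) ↥B), (∀ φ, S.pull φ ∈ A → φ ∈ B) →
      Module.finrank (ZMod 2) ↥A ≤ Module.finrank (ZMod 2) ↥B := by
    intro A B hB h
    let C : Submodule (ZMod 2) (H2m H) := A.comap S.pull
    have hC : C ≤ B := fun φ hφ => h φ hφ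
    have fC : FiniteDimensional (ZMod 2) ↥C := Submodule.finiteDimensional_of_le hC
    let r : ↥C →ₗ[ZMod 2] ↥A := S.pull.restrict (fun φ h => h)
    have hr : Function.Surjective r := by
      rintro ⟨f, hf⟩
      obtain ⟨φ, rfl⟩ := S.pull_surj hφ f
      exact ⟨⟨φ, hf⟩, rfl⟩
    exact (LinearMap.finrank_le_finrank_of_surjective hr).trans (Submodule.finrank_mono hC)
  exact ⟨key _ _ f4 (fun φ h => S.P4_of_pull hφ hall hs h),
    key _ _ f5 (fun φ h => S.P5_of_pull hφ hall hs h)⟩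

end SubGX

end Pool.Agent.DI
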