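import Pool.Agent.DI.Ph1
import Pool.Agent.DI.P5Def

/-!
# DI/DrN: direct arrows

`DrN K y a`: the elements which fix `y` and `a` fix the poles of `a` (`Dr`), and lie in `N_a` if `a` is an
infinite sink.
-/

namespace Pool.Agent.DI

open MulAction

variable {H V : Type} [Group H] [MulAction H V] {K : GX H V}

/-- DIRECT: the elements which fix `y` and `a` fix the poles of `a` and lie in `N_a` for an infinite sink -/
def DrN (K : GX H V) (y a : V) : Prop := Dr K y a ∧
  (K.Snk a → Infinite ↥(stabilizer H a) → ∀ g : H, g • y = y → g • a = a → NY a g)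

theorem DrN.dr {y a : V} (h : DrN K y a) : Dr K y a := h.1

theorem inf_stab_smul (g : H) {a : V} (h : Infinite ↥(stabilizer H (g • a))) :
    Infinite ↥(stabilizer H a) := by
  refine Infinite.of_injective (fun k : ↥(stabilizer H (g • a)) =>
    (⟨g⁻¹ * k.1 * g, by
      have := k.2
      rw [mem_stabilizer_iff] at this ⊢
      rw [mul_smul, mul_smul, this, inv_smul_smul]⟩ : ↥(stabilizer H a))) ?_
  intro k l e
  have e' : g⁻¹ * k.1 * g = g⁻¹ * l.1 * g := congrArg Subtype.val e
  exact Subtype.ext (mul_left_cancel (mul_right_cancel e'))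

theorem DrN.smul (g : H) {y a : V} (h : DrN K y a) : DrN K (g • y) (g • a) := by
  refine ⟨h.1.smul g, fun hs hi k ky ka => ?_⟩
  have hs' : K.Snk a := by
    have := hs.smul g⁻¹
    rwa [inv_smul_smul] at this
  have e1 : (g⁻¹ * k * g) • y = y := by rw [mul_smul, mul_smul, ky, inv_smul_smul]
  have e2 : (g⁻¹ * k * g) • a = a := by rw [mul_smul, mul_smul, ka, inv_smul_smul]
  have h1 := (h.2 hs' (inf_stab_smul g hi) _ e1 e2).smul g
  have e3 : g * (g⁻¹ * k * g) * g⁻¹ = k := by group
  rwa [e3] at h1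

theorem DrN.smul_iff (g : H) {y a : V} : DrN K (g • y) (g • a) ↔ DrN K y a := by
  refine ⟨fun h => ?_, fun h => h.smul g⟩
  have := h.smul g⁻¹
  rwa [inv_smul_smul, inv_smul_smul] at this

end Pool.Agent.DI
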