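import Pool.Agent.DI.GX

/-!
# Long cells are cut by free soft vertices: a complex of area `n` gives a pentagon complex with at
most `n` pentagons
-/

namespace Pool.Agent.DI

open MulAction
open Pool.Agent.SAF (InC orbs FinOrb oc FinOrb_iff)
open Pool.Agent.BT (PX)

theorem add_self_two (a : ZMod 2) : a + a = 0 := CharTwo.add_self_eq_zero a

/-- a sum of two invariant cofinite sets -/
theorem finOrb_sum {H X Y : Type} [Group H] [MulAction H X] [MulAction H Y]
    (h1 : FinOrb H (Set.univ : Set X)) (h2 : FinOrb H (Set.univ : Set Y)) :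
    FinOrb H (Set.univ : Set (X ⊕ Y)) := by
  obtain ⟨F1, f1, -, c1⟩ := FinOrb_iff.1 h1
  obtain ⟨F2, f2, -, c2⟩ := FinOrb_iff.1 h2
  refine FinOrb_iff.2 ⟨Sum.inl '' F1 ∪ Sum.inr '' F2, (f1.image _).union (f2.image _),
    Set.subset_univ _, ?_⟩
  rintro (x | y) _
  · obtain ⟨f, hf, h, e⟩ := c1 x trivial
    exact ⟨Sum.inl f, Or.inl ⟨f, hf, rfl⟩, h, congrArg Sum.inl e⟩
  · obtain ⟨f, hf, h, e⟩ := c2 y trivial
    exact ⟨Sum.inr f, Or.inr ⟨f, hf, rfl⟩, h, congrArg Sum.inr e⟩

theorem finOrb_self (H : Type) [Group H] : FinOrb H (Set.univ : Set H) := by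
  refine FinOrb_iff.2 ⟨{1}, Set.finite_singleton _, Set.subset_univ _, ?_⟩
  intro y _
  exact ⟨1, rfl, y, mul_one y⟩

theorem inC_of_subsingleton {G : Type} [Group G] [Subsingleton G] : InC G :=
  Or.inl inferInstance

/-- sums along translates of images -/
theorem ps_smul_map {H X Y : Type} [Group H] [MulAction H X] [MulAction H Y] (f : X → Y)
    (hf : ∀ (h : H) (x : X), f (h • x) = h • f x) (φ : Y → Y → ZMod 2) (h : H) (x : X)
    (l : List X) : ps φ (h • f x) ((l.map f).map (fun z => h • z)) =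
      ps (fun a b => φ (f a) (f b)) (h • x) (l.map (fun z => h • z)) := by
  induction l generalizing x with
  | nil => rfl
  | cons y l ih =>
    simp only [List.map_cons, ps_cons]
    rw [ih, hf, hf]

namespace GX

variable {H V : Type} [Group H] [MulAction H V]

/-- the ranks are bounded -/
theorem rk_bdd (K : GX H V) : ∃ n, ∀ v, K.rk v ≤ n := by
  obtain ⟨F, hF, -, hc⟩ := FinOrb_iff.1 K.fin
  obtain ⟨n, hn⟩ := (hF.image K.rk).bddAbove
  refine ⟨n, fun v => ?_⟩
  obtain ⟨f, hf, h, rfl⟩ := hc v trivial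
  rw [K.rk_smul]
  exact hn ⟨f, hf, rfl⟩

section cut

variable (K : GX H V) (i0 : K.I) (x1 x2 x3 : V) (l : List V) (n : ℕ)

/-- arrows after cutting: the new vertex `k` has the poles `k • cb i0` and `k • x3` -/
inductive CAr : V ⊕ H → V ⊕ H → Prop
  | old (v a : V) : K.ar v a → CAr (Sum.inl v) (Sum.inl a)
  | p0 (k : H) : CAr (Sum.inr k) (Sum.inl (k • K.cb i0))
  | p3 (k : H) : CAr (Sum.inr k) (Sum.inl (k • x3))

/-- base vertices of the new cells -/
def ccb : Option K.I → V ⊕ H
  | none => Sum.inl (K.cb i0)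
  | some i => Sum.inl (K.cb i)

open Classical in
/-- the new cells -/
noncomputable def ccw : Option K.I → List (V ⊕ H)
  | none => [Sum.inl x1, Sum.inl x2, Sum.inl x3, Sum.inr 1, Sum.inl (K.cb i0)]
  | some i => if i = i0 then Sum.inr 1 :: Sum.inl x3 :: l.map Sum.inl else (K.cw i).map Sum.inl

variable {K i0 x1 x2 x3 l n}

theorem ccw_none : K.ccw i0 x1 x2 x3 l none =
    [Sum.inl x1, Sum.inl x2, Sum.inl x3, Sum.inr (1 : H), Sum.inl (K.cb i0)] := rfl

theorem ccw_same : K.ccw i0 x1 x2 x3 l (some i0) =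
    Sum.inr (1 : H) :: Sum.inl x3 :: l.map Sum.inl := if_pos rfl

theorem ccw_ne {i : K.I} (h : i ≠ i0) : K.ccw i0 x1 x2 x3 l (some i) = (K.cw i).map Sum.inl :=
  if_neg h

theorem CAr.smul (h : H) {a b : V ⊕ H} (e : K.CAr i0 x3 a b) : K.CAr i0 x3 (h • a) (h • b) := by
  cases e with
  | old v a e => exact CAr.old _ _ (K.ar_smul h _ _ e)
  | p0 k =>
    have := CAr.p0 (K := K) (i0 := i0) (x3 := x3) (h * k)
    rw [mul_smul] at this
    exact this
  | p3 k =>
    have := CAr.p3 (K := K) (i0 := i0) (x3 := x3) (h * k)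
    rw [mul_smul] at this
    exact this

theorem CAr.inl {v : V} {b : V ⊕ H} (e : K.CAr i0 x3 (Sum.inl v) b) :
    ∃ a, b = Sum.inl a ∧ K.ar v a := by
  cases e with
  | old v a e => exact ⟨a, rfl, e⟩

theorem CAr.inr {k : H} {b : V ⊕ H} (e : K.CAr i0 x3 (Sum.inr k) b) :
    b = Sum.inl (k • K.cb i0) ∨ b = Sum.inl (k • x3) := by
  cases e with
  | p0 k => exact Or.inl rfl
  | p3 k => exact Or.inr rfl

/-- cutting a cell -/
noncomputable def cut (K : GX H V) (i0 : K.I) (x1 x2 x3 : V) (l : List V) (n : ℕ)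
    (hn : ∀ v, K.rk v ≤ n) (hw : K.cw i0 = x1 :: x2 :: x3 :: l) : GX H (V ⊕ H) where
  ar := K.CAr i0 x3
  rk := Sum.elim K.rk (fun _ => n + 1)
  I := Option K.I
  finI := by
    have := K.finI
    infer_instance
  cb := K.ccb i0
  cw := K.ccw i0 x1 x2 x3 l
  ar_rk := by
    rintro v a (⟨v, a, e⟩ | k | k)
    · exact K.ar_rk _ _ e
    · show K.rk (k • K.cb i0) < n + 1
      exact Nat.lt_succ_of_le (hn _)
    · show K.rk (k • x3) < n + 1
      exact Nat.lt_succ_of_le (hn _)
  ar_smul h _ _ e := e.smul h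
  rk_smul := by
    rintro h (v | k)
    · exact K.rk_smul h v
    · rfl
  two := by
    rintro (v | k) a b c ha hb hc
    · obtain ⟨a, rfl, ha'⟩ := ha.inl
      obtain ⟨b, rfl, hb'⟩ := hb.inl
      obtain ⟨c, rfl, hc'⟩ := hc.inl
      rcases K.two _ _ _ _ ha' hb' hc' with e | e | e
      · exact Or.inl (congrArg _ e)
      · exact Or.inr (Or.inl (congrArg _ e))
      · exact Or.inr (Or.inr (congrArg _ e))
    · rcases ha.inr with rfl | rfl <;> rcases hb.inr with rfl | rfl <;>
        rcases hc.inr with rfl | rfl <;> simp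
  c_E := by
    have h0 := K.c_E i0
    rw [hw] at h0
    have old : ∀ x y, (K.ar x y ∨ K.ar y x) → (K.CAr i0 x3 (Sum.inl x) (Sum.inl y) ∨
        K.CAr i0 x3 (Sum.inl y) (Sum.inl x)) := fun x y e =>
      e.imp (CAr.old _ _) (CAr.old _ _)
    have e0 : K.CAr i0 x3 (Sum.inr 1) (Sum.inl (K.cb i0)) := by
      have := CAr.p0 (K := K) (i0 := i0) (x3 := x3) 1
      rwa [one_smul] at this
    have e3 : K.CAr i0 x3 (Sum.inr 1) (Sum.inl x3) := by
      have := CAr.p3 (K := K) (i0 := i0) (x3 := x3) 1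
      rwa [one_smul] at this
    rintro (_ | i)
    · exact ⟨old _ _ h0.1, old _ _ h0.2.1, old _ _ h0.2.2.1, Or.inr e3, Or.inl e0, trivial⟩
    · show Wk _ (Sum.inl (K.cb i)) (K.ccw i0 x1 x2 x3 l (some i))
      by_cases h : i = i0
      · subst h
        rw [ccw_same]
        exact ⟨Or.inr e0, Or.inl e3, Wk_map _ old h0.2.2.2⟩
      · rw [ccw_ne h]
        exact Wk_map _ old (K.c_E i)
  c_tg := by
    rintro (_ | i)
    · rfl
    · show tg (Sum.inl (K.cb i)) (K.ccw i0 x1 x2 x3 l (some i)) = Sum.inl (K.cb i)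
      by_cases h : i = i0
      · subst h
        rw [ccw_same, tg_cons, tg_cons, tg_map]
        have := K.c_tg i
        rw [hw] at this
        exact congrArg _ this
      · rw [ccw_ne h, tg_map, K.c_tg]
  ne := ⟨Sum.inl K.ne.some⟩
  conn := by
    have old : ∀ x y : V, Relation.ReflTransGen
        (fun a b => K.CAr i0 x3 a b ∨ K.CAr i0 x3 b a) (Sum.inl x) (Sum.inl y) := by
      intro x y
      have h := K.conn x y
      induction h with
      | refl => exact Relation.ReflTransGen.refl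
      | tail _ e ih => exact ih.tail (e.imp (CAr.old _ _) (CAr.old _ _))
    rintro (x | k) (y | k')
    · exact old x y
    · exact (old x (k' • K.cb i0)).tail (Or.inr (CAr.p0 k'))
    · exact Relation.ReflTransGen.head (Or.inl (CAr.p0 k)) (old (k • K.cb i0) y)
    · refine Relation.ReflTransGen.head (Or.inl (CAr.p0 k)) ?_
      exact (old (k • K.cb i0) (k' • K.cb i0)).tail (Or.inr (CAr.p0 k'))
  H1 := by
    intro φ hs hp
    have hN : ∀ h : H, φ (Sum.inl (h • K.cb i0)) (Sum.inl (h • x1)) +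
        (φ (Sum.inl (h • x1)) (Sum.inl (h • x2)) + (φ (Sum.inl (h • x2)) (Sum.inl (h • x3)) +
        (φ (Sum.inl (h • x3)) (Sum.inr h) + (φ (Sum.inr h) (Sum.inl (h • K.cb i0)) + 0)))) = 0 := by
      intro h
      have := hp none h
      have e : (h • (Sum.inr (1 : H)) : V ⊕ H) = Sum.inr h := congrArg Sum.inr (mul_one h)
      simp only [ccb, ccw, List.map_cons, List.map_nil, ps_cons, ps_nil, e, Sum.smul_inl] at this
      exact this
    obtain ⟨g, hg⟩ := K.H1 (fun x y => φ (Sum.inl x) (Sum.inl y)) (fun x y => hs _ _) (by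
      intro i h
      by_cases hi : i = i0
      · subst hi
        have h1 := hp (some i) h
        have e : (h • (Sum.inr (1 : H)) : V ⊕ H) = Sum.inr h := congrArg Sum.inr (mul_one h)
        rw [ccw_same] at h1
        simp only [ccb, List.map_cons, ps_cons, e] at h1
        have h2 := hN h
        rw [hw]
        simp only [List.map_cons, ps_cons]
        rw [ps_smul_map (H := H) (Sum.inl : V → V ⊕ H) (fun _ _ => rfl) φ h x3 l] at h1
        simp only [Sum.smul_inl] at h1
        rw [hs (Sum.inl (h • K.cb i)) (Sum.inr h), hs (Sum.inr h) (Sum.inl (h • x3))] at h1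
        have k1 := add_self_two (φ (Sum.inr h) (Sum.inl (h • K.cb i)))
        have k2 := add_self_two (φ (Sum.inl (h • x3)) (Sum.inr h))
        linear_combination h1 + h2 - k1 - k2
      · have h1 := hp (some i) h
        rw [ccw_ne hi] at h1
        simp only [ccb] at h1
        rw [ps_smul_map (H := H) (Sum.inl : V → V ⊕ H) (fun _ _ => rfl) φ h (K.cb i) (K.cw i)]
          at h1
        exact h1)
    have h0 := K.c_E i0
    rw [hw] at h0
    have sm : ∀ (h : H) x y, (K.ar x y ∨ K.ar y x) → (K.ar (h • x) (h • y) ∨ K.ar (h • y) (h • x)) :=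
      fun h x y e => e.imp (K.ar_smul h _ _) (K.ar_smul h _ _)
    have key : ∀ k : H, φ (Sum.inr k) (Sum.inl (k • x3)) =
        (g (k • K.cb i0) + φ (Sum.inr k) (Sum.inl (k • K.cb i0))) + g (k • x3) := by
      intro k
      have h2 := hN k
      have a1 := hg _ _ (sm k _ _ h0.1)
      have a2 := hg _ _ (sm k _ _ h0.2.1)
      have a3 := hg _ _ (sm k _ _ h0.2.2.1)
      rw [a1, a2, a3, hs (Sum.inl (k • x3)) (Sum.inr k)] at h2
      have k1 := add_self_two (g (k • x1))
      have k2 := add_self_two (g (k • x2))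
      have k3 := add_self_two (g (k • K.cb i0))
      have k4 := add_self_two (g (k • x3))
      have k5 := add_self_two (φ (Sum.inr k) (Sum.inl (k • K.cb i0)))
      linear_combination h2 - k1 - k2 - k3 - k4 - k5
    refine ⟨Sum.elim g (fun k => g (k • K.cb i0) + φ (Sum.inr k) (Sum.inl (k • K.cb i0))), ?_⟩
    have main : ∀ a b, K.CAr i0 x3 a b → φ a b =
        Sum.elim g (fun k => g (k • K.cb i0) + φ (Sum.inr k) (Sum.inl (k • K.cb i0))) a +
        Sum.elim g (fun k => g (k • K.cb i0) + φ (Sum.inr k) (Sum.inl (k • K.cb i0))) b := by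
      rintro a b (⟨v, a, e⟩ | k | k)
      · exact hg v a (Or.inl e)
      · show φ (Sum.inr k) (Sum.inl (k • K.cb i0)) =
          (g (k • K.cb i0) + φ (Sum.inr k) (Sum.inl (k • K.cb i0))) + g (k • K.cb i0)
        have k3 := add_self_two (g (k • K.cb i0))
        linear_combination - k3
      · exact key k
    rintro a b (e | e)
    · exact main a b e
    · rw [hs, main b a e, add_comm]
  fin := finOrb_sum K.fin (finOrb_self H)
  stab := by
    rintro (v | k)
    · have : stabilizer H (Sum.inl v : V ⊕ H) = stabilizer H v := by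
        ext h
        rw [mem_stabilizer_iff, mem_stabilizer_iff, Sum.smul_inl]
        exact Sum.inl_injective.eq_iff
      rw [this]
      exact K.stab v
    · have : Subsingleton ↥(stabilizer H (Sum.inr k : V ⊕ H)) := by
        constructor
        rintro ⟨a, ha⟩ ⟨b, hb⟩
        have ha' : a * k = k := Sum.inr.inj ha
        have hb' : b * k = k := Sum.inr.inj hb
        apply Subtype.ext
        exact mul_right_cancel (ha'.trans hb'.symm)
      exact inC_of_subsingleton

theorem cut_area {hn : ∀ v, K.rk v ≤ n} {hw : K.cw i0 = x1 :: x2 :: x3 :: l} (hl : 3 ≤ l.length) :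
    (K.cut i0 x1 x2 x3 l n hn hw).area = K.area := by
  classical
  have := K.finI
  let ft := Fintype.ofFinite K.I
  rw [GX.area_eq K]
  show ∑ᶠ i : Option K.I, ((K.ccw i0 x1 x2 x3 l i).length - 4) = _
  rw [finsum_eq_sum_of_fintype, Fintype.sum_option, ← Finset.add_sum_erase _ _ (Finset.mem_univ i0),
    ← Finset.add_sum_erase (Finset.univ : Finset K.I) (fun i => (K.cw i).length - 4)
      (Finset.mem_univ i0)]
  have h1 : ∑ x ∈ Finset.univ.erase i0, ((K.ccw i0 x1 x2 x3 l (some x)).length - 4) =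
      ∑ x ∈ Finset.univ.erase i0, ((K.cw x).length - 4) := by
    apply Finset.sum_congr rfl
    intro i hi
    have hi' : i ≠ i0 := (Finset.mem_erase.1 hi).1
    simp only [ccw, hi', if_false, List.length_map]
  rw [h1, ← add_assoc]
  congr 1
  rw [hw]
  simp only [ccw, if_true, List.length_cons, List.length_map, List.length_nil]
  omega

/-- the excess: the sum of `length - 5` -/
noncomputable def exc (K : GX H V) : ℕ := ∑ᶠ i : K.I, ((K.cw i).length - 5)

theorem exc_eq (K : GX H V) [Fintype K.I] : K.exc = ∑ i, ((K.cw i).length - 5) :=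
  finsum_eq_sum_of_fintype _

theorem cut_exc {hn : ∀ v, K.rk v ≤ n} {hw : K.cw i0 = x1 :: x2 :: x3 :: l} (hl : 3 ≤ l.length) :
    (K.cut i0 x1 x2 x3 l n hn hw).exc < K.exc := by
  classical
  have := K.finI
  let ft := Fintype.ofFinite K.I
  rw [GX.exc_eq K]
  show ∑ᶠ i : Option K.I, ((K.ccw i0 x1 x2 x3 l i).length - 5) < _
  rw [finsum_eq_sum_of_fintype, Fintype.sum_option, ← Finset.add_sum_erase _ _ (Finset.mem_univ i0),
    ← Finset.add_sum_erase (Finset.univ : Finset K.I) (fun i => (K.cw i).length - 5)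
      (Finset.mem_univ i0)]
  have h1 : ∑ x ∈ Finset.univ.erase i0, ((K.ccw i0 x1 x2 x3 l (some x)).length - 5) =
      ∑ x ∈ Finset.univ.erase i0, ((K.cw x).length - 5) := by
    apply Finset.sum_congr rfl
    intro i hi
    have hi' : i ≠ i0 := (Finset.mem_erase.1 hi).1
    simp only [ccw, hi', if_false, List.length_map]
  rw [h1, ← add_assoc]
  apply Nat.add_lt_add_right
  rw [hw]
  simp only [ccw, if_true, List.length_cons, List.length_map, List.length_nil]
  omega

end cut

/-- the vertex number `j` of a cell -/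
def cv (K : GX H V) (i : K.I) (j : Fin 5) : V := (K.cb i :: K.cw i).getD j.1 (K.cb i)

/-- complexes without long cells -/
def px5 (K : GX H V) (h5 : ∀ i, (K.cw i).length ≤ 5) : PX H V where
  ar := K.ar
  rk := K.rk
  I := {i : K.I // (K.cw i).length = 5}
  finI := by
    have := K.finI
    infer_instance
  pt i j := K.cv i.1 j
  ar_rk := K.ar_rk
  ar_smul := K.ar_smul
  rk_smul := K.rk_smul
  two := K.two
  pt_E := by
    rintro ⟨i, hi⟩ j
    have h1 := K.c_E i
    have h2 := K.c_tg i
    unfold cv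
    obtain ⟨x1, x2, x3, x4, x5, hl⟩ : ∃ x1 x2 x3 x4 x5, K.cw i = [x1, x2, x3, x4, x5] := by
      match h : K.cw i, hi with
      | [x1, x2, x3, x4, x5], _ => exact ⟨x1, x2, x3, x4, x5, rfl⟩
    rw [hl] at h1 h2
    have h2' : x5 = K.cb i := h2
    subst h2'
    show K.ar ((K.cb i :: K.cw i).getD j.1 (K.cb i)) ((K.cb i :: K.cw i).getD (j + 1).1 (K.cb i)) ∨
      K.ar ((K.cb i :: K.cw i).getD (j + 1).1 (K.cb i)) ((K.cb i :: K.cw i).getD j.1 (K.cb i))
    rw [hl]
    fin_cases j
    · exact h1.1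
    · exact h1.2.1
    · exact h1.2.2.1
    · exact h1.2.2.2.1
    · exact h1.2.2.2.2.1
  ne := K.ne
  conn := K.conn
  H1 := by
    intro φ hs h4 h3 hp
    apply K.H1 φ hs
    intro i h
    have h1 := K.c_E i
    have h2 := K.c_tg i
    have sm : ∀ x y, (K.ar x y ∨ K.ar y x) → (K.ar (h • x) (h • y) ∨ K.ar (h • y) (h • x)) :=
      fun x y e => e.imp (K.ar_smul h _ _) (K.ar_smul h _ _)
    match hl : K.cw i, h5 i with
    | [], _ => rfl
    | [x1], _ =>
      rw [hl] at h1 h2
      have h2' : x1 = K.cb i := h2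
      subst h2'
      exact absurd h1.1 (K.E_irr _)
    | [x1, x2], _ =>
      rw [hl] at h1 h2
      have h2' : x2 = K.cb i := h2
      subst h2'
      show φ (h • K.cb i) (h • x1) + (φ (h • x1) (h • K.cb i) + 0) = 0
      rw [hs (h • x1), add_zero]
      exact add_self_two _
    | [x1, x2, x3], _ =>
      rw [hl] at h1 h2
      have h2' : x3 = K.cb i := h2
      subst h2'
      have := h3 _ _ _ (sm _ _ h1.1) (sm _ _ h1.2.1) (sm _ _ h1.2.2.1)
      show φ (h • K.cb i) (h • x1) + (φ (h • x1) (h • x2) + (φ (h • x2) (h • K.cb i) + 0)) = 0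
      linear_combination this
    | [x1, x2, x3, x4], _ =>
      rw [hl] at h1 h2
      have h2' : x4 = K.cb i := h2
      subst h2'
      have := h4 _ _ _ _ (sm _ _ h1.1) (sm _ _ h1.2.1) (sm _ _ h1.2.2.1) (sm _ _ h1.2.2.2.1)
      show φ (h • K.cb i) (h • x1) + (φ (h • x1) (h • x2) + (φ (h • x2) (h • x3) +
        (φ (h • x3) (h • K.cb i) + 0))) = 0
      linear_combination this
    | [x1, x2, x3, x4, x5], _ =>
      rw [hl] at h1 h2
      have h2' : x5 = K.cb i := h2
      subst h2'
      have := hp ⟨i, by rw [hl]; rfl⟩ h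
      rw [Fin.sum_univ_five] at this
      have e0 : K.cv i 0 = K.cb i := by unfold cv; rw [hl]; rfl
      have e1 : K.cv i 1 = x1 := by unfold cv; rw [hl]; rfl
      have e2 : K.cv i 2 = x2 := by unfold cv; rw [hl]; rfl
      have e3 : K.cv i 3 = x3 := by unfold cv; rw [hl]; rfl
      have e4 : K.cv i 4 = x4 := by unfold cv; rw [hl]; rfl
      have f1 : (0 : Fin 5) + 1 = 1 := rfl
      have f2 : (1 : Fin 5) + 1 = 2 := rfl
      have f3 : (2 : Fin 5) + 1 = 3 := rfl
      have f4 : (3 : Fin 5) + 1 = 4 := rfl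
      have f5 : (4 : Fin 5) + 1 = 0 := rfl
      rw [f1, f2, f3, f4, f5, e0, e1, e2, e3, e4] at this
      show φ (h • K.cb i) (h • x1) + (φ (h • x1) (h • x2) + (φ (h • x2) (h • x3) +
        (φ (h • x3) (h • x4) + (φ (h • x4) (h • K.cb i) + 0)))) = 0
      linear_combination this
    | _ :: _ :: _ :: _ :: _ :: _ :: l, h =>
      exfalso
      simp only [List.length_cons] at h
      omega
  fin := K.fin
  stab := K.stab

theorem px5_A (K : GX H V) (h5 : ∀ i, (K.cw i).length ≤ 5) : (K.px5 h5).A ≤ K.area := by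
  classical
  have := K.finI
  let ft := Fintype.ofFinite K.I
  rw [GX.area_eq]
  show Nat.card {i : K.I // (K.cw i).length = 5} ≤ _
  rw [Nat.card_eq_fintype_card, Fintype.card_subtype, Finset.card_filter]
  apply Finset.sum_le_sum
  intro i _
  split_ifs with h
  · rw [h]
  · exact Nat.zero_le _

/-- B1: a complex of area `n` gives a pentagon complex with at most `n` pentagons -/
theorem exists_px {H : Type} [Group H] : ∀ (m : ℕ) (V : Type) [MulAction H V] (K : GX H V),
    K.exc = m → ∃ (V' : Type) (_ : MulAction H V') (K' : PX H V'), K'.A ≤ K.area := by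
  intro m
  induction m using Nat.strong_induction_on with
  | _ m ih =>
    intro V _ K hm
    by_cases h5 : ∀ i, (K.cw i).length ≤ 5
    · exact ⟨V, inferInstance, K.px5 h5, K.px5_A h5⟩
    · push Not at h5
      obtain ⟨i0, hi0⟩ := h5
      obtain ⟨n, hn⟩ := K.rk_bdd
      obtain ⟨x1, x2, x3, l, hl⟩ : ∃ x1 x2 x3 l, K.cw i0 = x1 :: x2 :: x3 :: l := by
        match h : K.cw i0, hi0 with
        | x1 :: x2 :: x3 :: l, _ => exact ⟨x1, x2, x3, l, rfl⟩
        | [], h' => simp at h'
        | [_], h' => simp at h'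
        | [_, _], h' => simp at h'
      have hl3 : 3 ≤ l.length := by
        rw [hl] at hi0
        simp only [List.length_cons] at hi0
        omega
      obtain ⟨V', i', K', h'⟩ := ih _ (by rw [← hm]; exact cut_exc (hn := hn) (hw := hl) hl3) _
        (K.cut i0 x1 x2 x3 l n hn hl) rfl
      refine ⟨V', i', K', h'.trans ?_⟩
      rw [cut_area hl3]

theorem toPX (K : GX H V) : ∃ (V' : Type) (_ : MulAction H V') (K' : PX H V'), K'.A ≤ K.area :=
  exists_px _ V K rfl

end GX

end Pool.Agent.DI
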