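import Pool.Agent.DI.Xt0
import Pool.Agent.DI.DrN
import Pool.Agent.DI.GXCut

/-!
# DI/RedT: complexes without foldable tops, the tower over a thin top

`P.Ld T b y` (load): every top over the top `T` has the partner `b`, and `y → b` is not direct (`DrN`). `P.Pur T a y` (purity): the elements which fix `T` and its poles fix the poles of `y`,
and lie in `N_y` if `y` is an infinite sink. `P.red E`: no top outside `E` is foldable (thin, loaded as in
`Ld`, pure).
`red.step`: over a thin pure top which is not in `E` there is a pure top. `red.tower`: over a thin pure top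
there is a fat top in a tower.
-/

namespace Pool.Agent.DI

open MulAction
open Pool.Agent.SAF (InC SA orbs FinOrb oc)
open Pool.Agent.SAG (IO Zt)

namespace P45

variable {H V : Type} [Group H] [MulAction H V] {K : GX H V} (P : P45 K)

/-- THE LOAD OF A TOP: the tops over `T` have the partner `b`, a pole of `y`, and the arrow from `y` to `b`
is not direct -/
def Ld (T b y : V) : Prop := ∀ T' m z, P.Top T' T m z → K.ar T z →
  z = b ∧ K.ar y b ∧ ¬ DrN K y b

/-- PURE: the stabiliser of `T` and `a` fixes the poles of `y`, and lies in `N_y` for an infinite sink `y` -/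
structure Pur (K : GX H V) (T a y : V) : Prop where
  fp : ∀ g : H, g • T = T → g • a = a → ∀ c, K.ar y c → g • c = c
  ny : K.Snk y → Infinite ↥(stabilizer H y) → ∀ g : H, g • T = T → g • a = a → NY y g

/-- NO FOLDABLE TOP OUTSIDE `E` -/
def red (E : V → Prop) : Prop := ∀ T a b y, P.Top T a b y → ¬ E T → K.ar a y → P.X T a ≤ 1 →
  P.X T b ≤ 1 → P.Ld T b y → Pur K T a y → False

/-- `T'` is a top over `T`: `T` is a pole of `T'` with an arrow to the partner -/
def Ov (T T' : V) : Prop := ∃ m z, P.Top T' T m z ∧ K.ar T z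

/-- thin tops: one strand at most at both poles -/
def Tn (T : V) : Prop := ∀ a b y, P.Top T a b y → P.X T a ≤ 1

variable {P}

theorem Tn.b {T a b y : V} (h : P.Tn T) (k : P.Top T a b y) : P.X T b ≤ 1 := h _ _ _ k.symm'

theorem Ov.top {T T' : V} (h : P.Ov T T') : ∃ m z, P.Top T' T m z ∧ K.ar T z := h

theorem Ov.rk {T T' : V} (h : P.Ov T T') : K.rk T < K.rk T' := by
  obtain ⟨m, z, h, -⟩ := h
  exact K.ar_rk _ _ h.2.1

/-- a top over `T` does not lie in `E` -/
theorem SqE.ov_E {E : V → Prop} (hs : P.SqE E) {T T' : V} (h : P.Ov T T') : ¬ E T' := by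
  obtain ⟨m, z, h, e⟩ := h
  intro hE
  have h1 := K.ar_rk _ _ (hs.Ea _ _ _ _ h hE)
  have h2 := K.ar_rk _ _ e
  omega

/-- the fixed poles -/
theorem fixp {z y c : V} (hy : K.ar z y) (hc : K.ar z c) {g : H} (hz : g • z = z) (hg : g • y = y) :
    g • c = c := by
  have hgc : K.ar z (g • c) := by
    have := K.ar_smul g _ _ hc
    rwa [hz] at this
  rcases K.two _ _ _ _ hy hc hgc with e | e | e
  · rw [← e]
    exact hg
  · exact e.symm
  · -- `y = g • c`
    have : c = y := by
      have h1 : g • y = g • c := by rw [hg]; exact e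
      exact (smul_left_cancel g h1).symm
    rw [this]
    exact hg

/-- THE STEP: a thin pure top is not foldable, so there is a pure top over it -/
theorem red.step {E : V → Prop} (hr : P.red E) (hs : P.SqE E) {T a b y : V}
    (k : P.Top T a b y) (hE : ¬ E T) (hay : K.ar a y) (ha : P.X T a ≤ 1) (hb : P.X T b ≤ 1)
    (hp : Pur K T a y) :
    ∃ T' m z, P.Top T' T m z ∧ K.ar T z ∧ Pur K T' T z ∧
      (z = a ∨ z = b ∧ (K.ar b y ∨ (K.ar y b ∧ DrN K y b))) := by
  have h1 : ¬ P.Ld T b y := fun h => hr _ _ _ _ k hE hay ha hb h hp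
  unfold Ld at h1
  push Not at h1
  obtain ⟨T', m, z, k', hz, h2⟩ := h1
  have hE' : ¬ E T' := hs.ov_E ⟨m, z, k', hz⟩
  -- the elements of the stabiliser of `T'` and `T`
  have hfix : ∀ g : H, g • T' = T' → g • T = T → g • z = z ∧ g • y = y := by
    intro g h3 h4
    exact ⟨hs.fix k' hE' h3, hs.fix k hE h4⟩
  rcases hs.sides k hz with rfl | rfl
  · refine ⟨T', m, z, k', hz, ⟨?_, ?_⟩, Or.inl rfl⟩
    · intro g h3 h4 c hc
      obtain ⟨h5, h6⟩ := hfix g h3 h4
      exact fixp hay hc h5 h6
    · intro hsn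
      exact absurd hay (hsn _)
  · rcases k.Eb with hb' | hb'
    · refine ⟨T', m, z, k', hz, ⟨?_, ?_⟩, Or.inr ⟨rfl, Or.inl hb'⟩⟩
      · intro g h3 h4 c hc
        obtain ⟨h5, h6⟩ := hfix g h3 h4
        exact fixp hb' hc h5 h6
      · intro hsn
        exact absurd hb' (hsn _)
    · have h7 := h2 rfl hb'
      refine ⟨T', m, z, k', hz, ⟨?_, ?_⟩, Or.inr ⟨rfl, Or.inr ⟨hb', h7⟩⟩⟩
      · intro g h3 h4 c hc
        obtain ⟨h5, h6⟩ := hfix g h3 h4
        exact h7.1 g h6 h5 c hc
      · intro hsn hinf g h3 h4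
        obtain ⟨h5, h6⟩ := hfix g h3 h4
        exact h7.2 hsn hinf g h6 h5

/-- THE TOWER LEMMA: if no top is foldable, over a thin pure top there is a fat top in a tower -/
theorem red.tower {E : V → Prop} (hr : P.red E) (hs : P.SqE E) {T a b y : V}
    (k : P.Top T a b y) (hE : ¬ E T) (hay : K.ar a y) (ht : P.Tn T) (hp : Pur K T a y) :
    ∃ T', Relation.TransGen P.Ov T T' ∧ ¬ P.Tn T' := by
  obtain ⟨B, hB⟩ := K.rk_bdd
  suffices H : ∀ n : ℕ, ∀ T a b y, B - K.rk T = n → P.Top T a b y → ¬ E T → K.ar a y → P.Tn T →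
      Pur K T a y → ∃ T', Relation.TransGen P.Ov T T' ∧ ¬ P.Tn T' from H _ T a b y rfl k hE hay ht hp
  intro n
  induction n using Nat.strong_induction_on with
  | _ n ih =>
    intro T a b y hn k hE hay ht hp
    obtain ⟨T', m, z, k', hz, hp', -⟩ := hr.step hs k hE hay (ht _ _ _ k) (ht.b k) hp
    have hov : P.Ov T T' := ⟨m, z, k', hz⟩
    by_cases ht' : P.Tn T'
    · have h1 := hov.rk
      have h2 := hB T'
      obtain ⟨T'', h3, h4⟩ := ih (B - K.rk T') (by omega) T' T m z rfl k' (hs.ov_E hov) hz ht' hp'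
      exact ⟨T'', Relation.TransGen.head hov h3, h4⟩
    · exact ⟨T', Relation.TransGen.single hov, ht'⟩

end P45

end Pool.Agent.DI
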