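import Pool.Agent.DI.Ns3
import Pool.Agent.DI.RedT

/-!
# DI/Stc: the static input of the laws of a step

`P.TallS n Y T1`: a fat top in a tower which starts with `T1`. `P.Stc E`: the minimal cut with marks, the
values at the two poles of a top, the tower lemma, no top over a top and its partner, the strict minimal
cut under a tower with a fat top.
-/

namespace Pool.Agent.DI

namespace P45

variable {H V : Type} [Group H] [MulAction H V] {K : GX H V}

/-- A FAT TOP IN A TOWER which starts with `T1`: `T1` is fat, or a fat top `T'` over a member `T`, the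
partner is `z`; for the arrows of translates of `T'` to `n` the labels (`Y`) of `T'` and `z` are equal -/
def TallS (P : P45 K) (n : V) (Y : Set V) (T1 : V) : Prop := ¬ P.Tn T1 ∨
  ∃ T T' m z, Relation.ReflTransGen P.Ov T1 T ∧ P.Top T' T m z ∧ K.ar T z ∧ ¬ P.Tn T' ∧
    ∀ g : H, K.ar (g • T') n → (g • T' ∈ Y ↔ g • z ∈ Y)

/-- THE STATIC INPUT -/
structure Stc (P : P45 K) (E : V → Prop) : Prop where
  /-- the minimal cut with marks -/
  pm : ∃ F : V → V → ℕ, P.FX F ∧ (∀ p ∈ P.CA, P.X p.1 p.2 ≤ F p.1 p.2) ∧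
    ∀ n x Y, P.PmS n x Y → (∀ y ∈ Y, ¬ E y) → P.PmF F n x Y
  /-- Corollary 1 -/
  cor1 : ∀ T a b y, P.Top T a b y → ¬ E T → P.X T a = P.X T b
  /-- the tower lemma -/
  nft : ∀ k s T, (k, s) ∈ P.U → Relation.TransGen P.Ov k T → P.Tn T
  /-- no top over a top and its partner -/
  nd : ∀ T a b y T' z, P.Top T a b y → ¬ E T → ¬ E T' → ¬ P.Top T' T y z
  /-- the minimal cut is strict under a tower with a fat top -/
  tall : ∀ n x Y, P.PmS n x Y → (∀ y ∈ Y, ¬ E y) → ∀ T0 b s T1, T0 ∈ Y → P.Top T0 n b x →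
    K.ar b x → (∀ g : H, g • T0 ∈ Y → g • b = n → g • x = x) → P.Top T1 T0 s n → s ∈ Y →
    P.TallS n Y T1 → P.PmG (fun _ _ => 1) 1 n x Y

end P45

end Pool.Agent.DI
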