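import Pool.Agent.DI.State
import Pool.Agent.DI.ONf
import Pool.Agent.DI.OneEdgeQ
import Pool.Agent.DI.QKMin
import Pool.Agent.DI.ExcG
import Pool.Agent.DI.PlcQ
import Pool.Agent.DI.PlcdS
import Pool.Agent.DI.PhB
import Pool.Agent.DI.RedT
import Pool.Agent.DI.Stc

/-!
# DI/Psv: the objects of a step

`S.Sy1 w`: a good placed one-edge system at a bad vertex `w`, light world.
`S.Psv w O E`: in addition the static class relative to `E` and the fold rule `O.Nf`. The tail laws (exc,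
`N''`, `p_4`, `p_5`, `V_D`, `phi_0`, `V_Z`) are stated for `S : SyQ H V`, `h : S.Psv w O E` and
`S.kf h.gd.conn w O`.
-/

namespace Pool.Agent.DI

open MulAction
open Pool.Agent.SAF (InC SA orbs FinOrb oc Decomp)
open Pool.Agent.BT (bey)

namespace P45

variable {H V : Type} [Group H] [MulAction H V] {K : GX H V} (P : P45 K)

/-- the special tops -/
def sSp : Set V := {T | (∃ a b y, P.Top T a b y) ∧ K.Spc T}

/-- the number of special tops -/
noncomputable def nSp : ℕ := oc H P.sSp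

/-- THE POLE EXCESS without the special tops -/
noncomputable def exc : ℤ := K.pexc - P.nSp

/-- bare vertices: no page and no direct corner of a pentagon -/
def Bare (T : V) : Prop := (∀ n, ¬ K.ar n T) ∧
  ∀ a b y z, K.ar T a → K.ar T b → ¬ Qn P a T b y z

end P45

namespace SyQ

variable {H V : Type} [Group H] [MulAction H V] (S : SyQ H V)

/-- A GOOD ONE-EDGE SYSTEM AT A BAD VERTEX -/
structure Sy1 (w : S.X) : Prop where
  gd : S.GdQ S.K.FS
  tog : ∀ x a, S.K.ar x a → Infinite ↥(stabilizer H ((x, a) : V × V)) → S.Tog x a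
  one : OneE S.D
  alt : (∀ x y : S.X, ∃ h : H, h • x = y) ∨ ∃ u, S.Inv1 w u
  badw : ¬ SA ↥(stabilizer H w)
  bad : ¬ SA H
  wm : S.WMin w
  lc : ∀ v, S.K.LC v
  inf : ∀ x y, S.D.G.Adj x y → Infinite ↥(stabilizer H x ⊓ stabilizer H y)
  tf : ∀ T a b y, S.P.Top T a b y → Finite ↥(stabilizer H T)
  fs : ∀ z, S.K.FS z → S.P.NoQ z
  hv : ∀ x a b y, Q4 S.P x a b y → S.K.ar x a → Finite ↥(stabilizer H ((x, a) : V × V))

/-- THE DATA OF A STEP: `E` = the opened softs and their copies (empty without opened softs), all stars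
over `w` are open except the stars over bare vertices -/
structure Psv (w : S.X) (O : S.OR w) (E : V → Prop) : Prop extends S.Sy1 w where
  /-- the static class -/
  sq : S.P.SqE E
  /-- a bare top is opened -/
  bE : ∀ T a b y, S.P.Top T a b y → S.P.Bare T → E T
  /-- every arrow of a top which is not bare has a strand -/
  x1 : ∀ p ∈ S.P.TA, ¬ S.P.Bare p.1 → 1 ≤ S.P.X p.1 p.2
  /-- no opened top is local -/
  noE : ∀ T a b y, S.P.Top T a b y → S.Loc w T a b y → ¬ E T
  /-- the partner of a top which is not bare is unique -/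
  par : ∀ T a b y a' b' y', S.P.Top T a b y → S.P.Top T a' b' y' → ¬ S.P.Bare T → y = y'
  /-- R0: no page crosses an edge which the two poles cross -/
  page : ∀ x a b p p' n, S.K.ar x a → S.K.ar x b → a ≠ b → S.J x = {p} → S.D.G.Adj p p' →
    p' ∈ S.J a → p' ∈ S.J b → S.K.ar n x → p' ∉ S.J n
  /-- R0: no direct corner is centred beyond an edge which the two poles cross -/
  dir : ∀ x a b p p' y z c, S.K.ar x a → S.K.ar x b → a ≠ b → S.J x = {p} → S.D.G.Adj p p' →
    p' ∈ S.J a → p' ∈ S.J b → Qn S.P a x b y z → S.IsC ![a, x, b, y, z] c → c ∉ bey S.D.G p p'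
  /-- an opened vertex has one place -/
  eJ : ∀ v, E v → w ∈ S.J v → ∀ p ∈ S.J v, p = w
  /-- every piece has a corner at every pole -/
  pc : ∀ n v a, S.K.ar n v → S.K.ar v a → ∃ k, S.K.PC v n k ∧ S.K.ar k v ∧ S.K.Cor k v a
  /-- no foldable top -/
  red : S.P.red E
  /-- there is a pentagon -/
  pe : ∃ i, ¬ S.P.sq i
  /-- the walks of the opened vertices -/
  eW : ∀ T a b y, S.P.Top T a b y → E T → ∃ (i : S.K.I) (g : H), S.P.Ew i ∧
    (T = g • S.P.qt i 1 ∧ y = g • S.P.qt i 3 ∨ T = g • S.P.qt i 3 ∧ y = g • S.P.qt i 1)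
  /-- two parts at the ends of a walk are not exchanged -/
  eb : ∀ T a b y, S.P.Top T a b y → E T → ¬ S.P.Bare T → ¬ S.P.Bare y → ∀ g : H, g • T ≠ y
  /-- the static input (minimal cuts) -/
  st : S.P.Stc E
  /-- the bare vertices -/
  bw : ∀ v a b y, S.P.Top v a b y → S.P.Bare v →
    ∃ (i : S.K.I) (g : H) (p p0 : S.X), v = g • S.P.qt i 3 ∧ S.BrJ i p p0
  /-- over a midpoint there are only bare vertices -/
  bo : ∀ u, S.Inv1 w u → ∀ v, S.J v = {u} → S.P.Bare v ∧ ∃ a b y, S.P.Top v a b y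
  /-- placed -/
  pl : S.Plcd
  /-- placed over the midpoint -/
  mid : ∀ u, S.Inv1 w u → ∃ w', S.Plc w u w'
  /-- the fold rule -/
  opn : ∀ u q, O.op u q ↔ w ∈ S.J q ∧ ¬ S.P.Bare q
  two : ∀ q, w ∈ S.J q → S.P.Bare q → ∃ u, S.Dia w u q
  nf : O.Nf
  /-- the area is minimal -/
  amin : ∀ (H' V' : Type) [Group H'] [MulAction H' V'] (K' : GX H' V'), ¬ SA H' →
    S.K.area ≤ K'.area
  /-- the light world -/
  lw : ∀ C : Cd, C.K.nVs ≤ S.K.nVs ∧ (C.K.nVs = S.K.nVs → C.K.nHv ≤ S.K.nHv)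

end SyQ

end Pool.Agent.DI
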