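import Pool.Agent.DI.BndE
import Pool.Agent.DI.Psv

/-!
# DI/Bare: bare vertices

`P.Bare T` (Psv): no page at `T` (no arrow into `T`), no pentagon passes `T` between two poles of `T`. A bare
vertex has no strand (`Bare.X0`), so the condition `x1` of the opened complexes excludes them:
`∀ p ∈ P.TA, ¬ P.Bare p.1 → 1 ≤ P.X p.1 p.2`. A vertex with a strand at a pole is not bare (`not_bare`).
-/

namespace Pool.Agent.DI

open MulAction
open Pool.Agent.SAF (InC orbs FinOrb oc)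

namespace P45

variable {H V : Type} [Group H] [MulAction H V] {K : GX H V}

variable {P : P45 K}

theorem Bare.smul {T : V} (h : P.Bare T) (g : H) : P.Bare (g • T) := by
  refine ⟨fun n hn => h.1 (g⁻¹ • n) ?_, fun a b y z ha hb hq => ?_⟩
  · have := K.ar_smul g⁻¹ _ _ hn
    rwa [inv_smul_smul] at this
  · have h1 := K.ar_smul g⁻¹ _ _ ha
    have h2 := K.ar_smul g⁻¹ _ _ hb
    have h3 := hq.smul g⁻¹
    rw [inv_smul_smul] at h1 h2 h3
    exact h.2 _ _ _ _ h1 h2 h3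

theorem bare_iff {T : V} (g : H) : P.Bare (g • T) ↔ P.Bare T := by
  refine ⟨fun h => ?_, fun h => h.smul g⟩
  have := h.smul g⁻¹
  rwa [inv_smul_smul] at this

/-- the pentagon of a flag of a pentagon -/
theorem bare_qn {f : FL K} (hi : ¬ P.sq f.1.1.1) : ∃ y z, Qn P (fx f) (fy f) (fz f) y z := by
  obtain ⟨e, b⟩ := f
  have hi : ¬ P.sq e.1.1 := hi
  have key : ∃ y z, Qn P (K.c0 e) (K.c1 e) (K.c2 e) y z := by
    have hj : e.1.2.1 % 5 < 5 := Nat.mod_lt _ (by norm_num)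
    let j : Fin 5 := ⟨e.1.2.1 % 5, hj⟩
    refine ⟨K.vk e 3, K.vk e 4, e.2, e.1.1, j, hi, Or.inl ⟨?_, ?_, ?_, ?_, ?_⟩⟩
    · exact P45.vk5 hi 0 j rfl
    · refine P45.vk5 hi 1 (j + 1) ?_
      show (e.1.2.1 + 1) % 5 = (e.1.2.1 % 5 + 1) % 5
      omega
    · refine P45.vk5 hi 2 (j + 2) ?_
      show (e.1.2.1 + 2) % 5 = (e.1.2.1 % 5 + 2) % 5
      omega
    · refine P45.vk5 hi 3 (j + 3) ?_
      show (e.1.2.1 + 3) % 5 = (e.1.2.1 % 5 + 3) % 5
      omega
    · refine P45.vk5 hi 4 (j + 4) ?_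
      show (e.1.2.1 + 4) % 5 = (e.1.2.1 % 5 + 4) % 5
      omega
  obtain ⟨y, z, h⟩ := key
  cases b
  · exact ⟨z, y, h.symm⟩
  · exact ⟨y, z, h⟩

/-- A BARE VERTEX HAS NO STRAND -/
theorem Bare.X0 {T a : V} (h : P.Bare T) (ha : K.ar T a) : P.X T a = 0 := by
  by_contra hc
  rcases X_pos (P := P) (Nat.one_le_iff_ne_zero.2 hc) with ⟨f, hf, e⟩ | ⟨q, n, -, -, hn⟩
  · have e1 : fy f = T := congrArg Prod.fst e
    have e2 : fz f = a := congrArg Prod.snd e
    obtain ⟨y, z, hq⟩ := bare_qn hf.1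
    rw [e1, e2] at hq
    rcases hq.E1 with k | k
    · exact h.1 _ k
    · exact h.2 _ _ _ _ k ha hq
  · exact h.1 _ hn

theorem not_bare {T a : V} (ha : K.ar T a) (h : 1 ≤ P.X T a) : ¬ P.Bare T := fun hb => by
  have := hb.X0 ha
  omega

/-- the tops of the static class of a state are not bare -/
theorem Cls.nbare (hc : P.Cls) {T a b y : V} (h : P.Top T a b y) : ¬ P.Bare T :=
  not_bare h.2.1 (hc.x1 (T, a) ⟨b, y, h⟩)

end P45

end Pool.Agent.DI
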