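import Pool.Agent.DI.Beta
import Pool.Agent.DI.DLA

/-!
# DI/Beta2: the laws for `beta` at one-edge decompositions
-/

namespace Pool.Agent.DI

open MulAction
open Pool.Agent.SAF (InC)
open Pool.Agent.SAG (IO Zt)

section grp

variable {J : Type} [Group J]

theorem hv_tors (φ : Hq J) {g : J} (h : ¬ SAG.IO g) : hv φ g = 0 := by
  unfold SAG.IO at h
  push Not at h
  obtain ⟨n, hn, e⟩ := h
  apply hv_eq_zero_of_pow φ hn
  rw [e, hv_one]

/-- no homomorphisms from a group of `D_inf` type -/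
theorem DL.hq_zero (L : DL J) (φ : Hq J) : φ = 0 := by
  have h1 : ∀ g, L.ε g = -1 → hv φ g = 0 := by
    intro g hg
    apply hv_tors
    intro h
    have := (L.io_iff.1 h).1
    rw [hg] at this
    exact DL.ne_neg_one this.symm
  apply hv_ext
  intro g
  rw [hv_zero]
  rcases L.ε_cases g with h | h
  · obtain ⟨s, hs, -⟩ := L.s0
    have h2 : L.ε (g * s) = -1 := by rw [map_mul, h, hs, one_mul]
    have h3 := h1 _ h2
    rw [hv_mul, h1 s hs, add_zero] at h3
    exact h3
  · exact h1 g h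

theorem hq_zero_of_finite [Finite J] (φ : Hq J) : φ = 0 := by
  apply hv_ext
  intro g
  rw [hv_zero]
  apply hv_eq_zero_of_pow φ (Nat.card_pos (α := J))
  rw [pow_card_eq_one', hv_one]

/-- the space of homomorphisms of a finite or two-ended group has dimension at most one -/
theorem exists_inj_of_inC (h : InC J) : ∃ g : J, ∀ φ : Hq J, hv φ g = 0 → φ = 0 := by
  rcases h with h | ⟨g, -, h⟩
  · exact ⟨1, fun φ _ => hq_zero_of_finite φ⟩
  · refine ⟨g, fun φ hφ => ?_⟩
    have hz : ∀ n : ℤ, hv φ (g ^ n) = 0 := by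
      have hn : ∀ n : ℕ, hv φ (g ^ n) = 0 := by
        intro n
        induction n with
        | zero => rw [pow_zero, hv_one]
        | succ n ih => rw [pow_succ, hv_mul, ih, hφ, add_zero]
      intro n
      rcases Int.eq_nat_or_neg n with ⟨m, rfl | rfl⟩
      · rw [zpow_natCast, hn]
      · rw [zpow_neg, hv_inv, zpow_natCast, hn, neg_zero]
    apply hv_ext
    intro a
    rw [hv_zero]
    obtain ⟨n, hn, hm⟩ := Subgroup.exists_pow_mem_of_index_ne_zero h.index_ne_zero a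
    apply hv_eq_zero_of_pow φ hn
    obtain ⟨k, hk⟩ := Subgroup.mem_zpowers_iff.1 hm.2
    rw [← hk, hz]

/-- extension of homomorphisms in groups of `ℤ` type -/
theorem zt_ext {H : Type} [Group H] {A B : Subgroup H} (hAB : A ≤ B) (hB : Zt ↥B) (ψ : Hq ↥A) :
    ∃ ψ' : Hq ↥B, resq2 hAB ψ' = ψ := by
  obtain ⟨f, hf⟩ := hB
  let F : ↥A → ℤ := fun a => Multiplicative.toAdd (f ⟨a.1, hAB a.2⟩)
  have hFm : ∀ a b : ↥A, F (a * b) = F a + F b := by
    intro a b
    show Multiplicative.toAdd (f ⟨(a * b).1, hAB (a * b).2⟩) = _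
    have : (⟨(a * b).1, hAB (a * b).2⟩ : ↥B) = ⟨a.1, hAB a.2⟩ * ⟨b.1, hAB b.2⟩ := rfl
    rw [this, map_mul, toAdd_mul]
  have hF1 : F 1 = 0 := by
    have := hFm 1 1
    rw [mul_one] at this
    omega
  have hFi : ∀ a : ↥A, F a⁻¹ = - F a := by
    intro a
    have := hFm a a⁻¹
    rw [mul_inv_cancel, hF1] at this
    omega
  have hFp : ∀ (a : ↥A) (n : ℤ), F (a ^ n) = n * F a := by
    intro a
    have hn : ∀ n : ℕ, F (a ^ n) = n * F a := by
      intro n
      induction n with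
      | zero => rw [pow_zero, hF1]; simp
      | succ n ih => rw [pow_succ, hFm, ih]; push_cast; ring
    intro n
    rcases Int.eq_nat_or_neg n with ⟨m, rfl | rfl⟩
    · rw [zpow_natCast, hn]
    · rw [zpow_neg, hFi, zpow_natCast, hn]
      ring
  have hvp : ∀ (a : ↥A) (n : ℤ), hv ψ (a ^ n) = n * hv ψ a := by
    intro a
    have hn : ∀ n : ℕ, hv ψ (a ^ n) = n * hv ψ a := by
      intro n
      induction n with
      | zero => rw [pow_zero, hv_one]; simp
      | succ n ih => rw [pow_succ, hv_mul, ih]; push_cast; ring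
    intro n
    rcases Int.eq_nat_or_neg n with ⟨m, rfl | rfl⟩
    · rw [zpow_natCast, hn]
      push_cast
      rfl
    · rw [zpow_neg, hv_inv, zpow_natCast, hn]
      push_cast
      ring
  have hker : ∀ a : ↥A, F a = 0 → hv ψ a = 0 := by
    intro a ha
    have hm : (⟨a.1, hAB a.2⟩ : ↥B) ∈ f.ker := by
      rw [MonoidHom.mem_ker]
      exact Multiplicative.toAdd.injective ha
    have hfo : IsOfFinOrder (⟨⟨a.1, hAB a.2⟩, hm⟩ : ↥f.ker) := isOfFinOrder_of_finite _
    obtain ⟨n, hn, e⟩ := hfo.exists_pow_eq_one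
    apply hv_eq_zero_of_pow ψ hn
    have e1 : ((⟨⟨a.1, hAB a.2⟩, hm⟩ : ↥f.ker) ^ n).1.1 = 1 := by rw [e]; rfl
    have e2 : a ^ n = 1 := Subtype.ext e1
    rw [e2, hv_one]
  by_cases h0 : ∀ a : ↥A, F a = 0
  · refine ⟨0, ?_⟩
    apply hv_ext
    intro a
    rw [hv_resq2, hv_zero, hker a (h0 a)]
  · push Not at h0
    obtain ⟨j0, hj0⟩ := h0
    have hq : (F j0 : ℚ) ≠ 0 := by exact_mod_cast hj0
    refine ⟨mkHq (fun b => hv ψ j0 / F j0 * (Multiplicative.toAdd (f b) : ℤ)) ?_, ?_⟩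
    · intro a b
      rw [map_mul, toAdd_mul]
      push_cast
      ring
    · apply hv_ext
      intro a
      rw [hv_resq2, hv_mk]
      show hv ψ j0 / F j0 * (F a : ℤ) = hv ψ a
      have h1 : hv ψ (a ^ (F j0) * (j0 ^ (F a))⁻¹) = 0 := by
        apply hker
        rw [hFm, hFi, hFp, hFp]
        ring
      rw [hv_mul, hv_inv, hvp, hvp] at h1
      field_simp
      linarith

end grp

section laws

variable {X : Type} {H : Type} [Group H] [MulAction H X]

/-- a linear map with many values -/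
theorem finrank_le_of_ker {V W Z : Type*} [AddCommGroup V] [Module ℚ V] [AddCommGroup W]
    [Module ℚ W] [AddCommGroup Z] [Module ℚ Z] [FiniteDimensional ℚ V] (r : V →ₗ[ℚ] W)
    (d : W →ₗ[ℚ] Z) [FiniteDimensional ℚ Z] (h : ∀ ψ, d ψ = 0 → ∃ φ, r φ = ψ) :
    Module.finrank ℚ W + Module.finrank ℚ (LinearMap.ker r) ≤
      Module.finrank ℚ V + Module.finrank ℚ Z := by
  have hk : LinearMap.ker d ≤ LinearMap.range r := by
    intro ψ hψ
    obtain ⟨φ, hφ⟩ := h ψ hψ
    exact ⟨φ, hφ⟩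
  have : FiniteDimensional ℚ (LinearMap.range r) := inferInstance
  have f1 : FiniteDimensional ℚ (LinearMap.ker d) := Submodule.finiteDimensional_of_le hk
  have f2 : FiniteDimensional ℚ W := by
    have e := d.quotKerEquivRange
    have f3 : FiniteDimensional ℚ (W ⧸ LinearMap.ker d) := Module.Finite.equiv e.symm
    exact Module.Finite.of_submodule_quotient (LinearMap.ker d)
  have h1 := LinearMap.finrank_range_add_finrank_ker d
  have h2 := LinearMap.finrank_range_add_finrank_ker r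
  have h3 := Submodule.finrank_mono hk
  have h4 := Submodule.finrank_le (LinearMap.range d)
  omega


/-- the value at one element -/
def hvl {J : Type} [Group J] (g : J) : Hq J →ₗ[ℚ] ℚ where
  toFun φ := hv φ g
  map_add' _ _ := rfl
  map_smul' _ _ := rfl

theorem finrank_hq_le_one {J : Type} [Group J] (h : InC J) :
    FiniteDimensional ℚ (Hq J) ∧ Module.finrank ℚ (Hq J) ≤ 1 := by
  obtain ⟨g, hg⟩ := exists_inj_of_inC h
  have hi : Function.Injective (hvl g) := by
    intro a b hab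
    have h1 : hv (a - b) g = 0 := by
      have : hvl g (a - b) = 0 := by rw [map_sub, hab, sub_self]
      exact this
    exact sub_eq_zero.1 (hg _ h1)
  have hf : FiniteDimensional ℚ (Hq J) := FiniteDimensional.of_injective (hvl g) hi
  refine ⟨hf, ?_⟩
  have := LinearMap.finrank_le_finrank_of_injective hi
  rwa [Module.finrank_self] at this

section inv

variable {G : SimpleGraph X} (hG : G.IsTree)
  (hsm : ∀ (h : H) (x y : X), G.Adj x y → G.Adj (h • x) (h • y)) {w u : X}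
  (he : ∀ x y, G.Adj x y → ∃ h : H, (h • w = x ∧ h • u = y) ∨ (h • w = y ∧ h • u = x))
  (hwu : G.Adj w u) (hne : ∀ h : H, h • w ≠ u) [FiniteDimensional ℚ (Hq H)]

include hG hsm he hwu hne

/-- `D/D`, `Z/Z`: every homomorphism of the edge group extends to `U` -/
theorem beta_inv (hext : ∀ ψ : Hq ↥(stabilizer H w ⊓ stabilizer H u),
    ∃ ψ' : Hq ↥(stabilizer H u), resq2 inf_le_right ψ' = ψ) :
    beta ↥(stabilizer H w) ≤ beta H := by
  have h1 := finrank_le_of_ker (Z := PUnit) (resq (stabilizer H w)) 0 (by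
    intro ψ _
    obtain ⟨ψ', h'⟩ := hext (resq2 inf_le_left ψ)
    obtain ⟨φ, h1, -⟩ := exists_hom_inv hG hsm he hwu hne ψ ψ' (by
      intro a ha hb
      have := congrArg (fun f : Hq ↥(stabilizer H w ⊓ stabilizer H u) => hv f ⟨a, ha, hb⟩) h'
      exact this.symm)
    exact ⟨φ, h1⟩)
  have h2 : Module.finrank ℚ PUnit = 0 := Module.finrank_zero_of_subsingleton
  unfold beta
  omega

/-- any edge group -/
theorem beta_inv_one (hC : InC ↥(stabilizer H w ⊓ stabilizer H u)) :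
    beta ↥(stabilizer H w) ≤ beta H + 1 := by
  obtain ⟨f1, f2⟩ := finrank_hq_le_one hC
  have h1 := finrank_le_of_ker (resq (stabilizer H w))
    (resq2 (A := stabilizer H w ⊓ stabilizer H u) inf_le_left) (by
    intro ψ h0
    obtain ⟨φ, h1, -⟩ := exists_hom_inv hG hsm he hwu hne ψ 0 (by
      intro a ha hb
      have := congrArg (fun f : Hq ↥(stabilizer H w ⊓ stabilizer H u) => hv f ⟨a, ha, hb⟩) h0
      exact this)
    exact ⟨φ, h1⟩)
  unfold beta
  omega

end inv

section hnn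

variable {G : SimpleGraph X} (hG : G.IsTree)
  (hsm : ∀ (h : H) (x y : X), G.Adj x y → G.Adj (h • x) (h • y)) {w : X} {t : H}
  (he : ∀ x y, G.Adj x y → ∃ h : H, (h • w = x ∧ h • t • w = y) ∨ (h • w = y ∧ h • t • w = x))
  (hall : ∀ x, ∃ h : H, h • w = x) (hwt : G.Adj w (t • w))
  (hni : ∀ (h : H) (x y : X), G.Adj x y → ¬ (h • x = y ∧ h • y = x))
  [FiniteDimensional ℚ (Hq H)]

theorem conj_mem_w {w : X} {t : H} (a : ↥(stabilizer H w ⊓ stabilizer H (t • w))) :
    t⁻¹ * a.1 * t ∈ stabilizer H w := by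
  have h2 : a.1 • t • w = t • w := a.2.2
  rw [mem_stabilizer_iff, mul_smul, mul_smul, h2, inv_smul_smul]

/-- the difference of the two restrictions to the edge group -/
def dfq (w : X) (t : H) :
    Hq ↥(stabilizer H w) →ₗ[ℚ] Hq ↥(stabilizer H w ⊓ stabilizer H (t • w)) where
  toFun ψ := mkHq (fun a => hv ψ ⟨a.1, a.2.1⟩ - hv ψ ⟨_, conj_mem_w a⟩) (by
    intro a b
    have e1 : hv ψ ⟨(a * b).1, (a * b).2.1⟩ = hv ψ ⟨a.1, a.2.1⟩ + hv ψ ⟨b.1, b.2.1⟩ := by
      rw [← hv_mul]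
      rfl
    have e2 : hv ψ ⟨_, conj_mem_w (a * b)⟩ =
        hv ψ ⟨_, conj_mem_w a⟩ + hv ψ ⟨_, conj_mem_w b⟩ := by
      rw [← hv_mul]
      congr 1
      apply Subtype.ext
      show t⁻¹ * (a.1 * b.1) * t = (t⁻¹ * a.1 * t) * (t⁻¹ * b.1 * t)
      group
    rw [e1, e2]
    ring)
  map_add' ψ ψ' := by
    apply hv_ext
    intro a
    show (hv ψ ⟨a.1, a.2.1⟩ + hv ψ' ⟨a.1, a.2.1⟩) -
        (hv ψ ⟨_, conj_mem_w a⟩ + hv ψ' ⟨_, conj_mem_w a⟩) =
      (hv ψ ⟨a.1, a.2.1⟩ - hv ψ ⟨_, conj_mem_w a⟩) + (hv ψ' ⟨a.1, a.2.1⟩ - hv ψ' ⟨_, conj_mem_w a⟩)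
    ring
  map_smul' r ψ := by
    apply hv_ext
    intro a
    show r * hv ψ ⟨a.1, a.2.1⟩ - r * hv ψ ⟨_, conj_mem_w a⟩ =
      r * (hv ψ ⟨a.1, a.2.1⟩ - hv ψ ⟨_, conj_mem_w a⟩)
    ring

theorem hv_dfq {w : X} {t : H} (ψ : Hq ↥(stabilizer H w))
    (a : ↥(stabilizer H w ⊓ stabilizer H (t • w))) :
    hv (dfq w t ψ) a = hv ψ ⟨a.1, a.2.1⟩ - hv ψ ⟨_, conj_mem_w a⟩ := rfl

include hG hsm he hall hwt hni

/-- HNN extensions -/
theorem beta_hnn_aux (hf : FiniteDimensional ℚ (Hq ↥(stabilizer H w ⊓ stabilizer H (t • w)))) :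
    beta ↥(stabilizer H w) + 1 ≤
      beta H + Module.finrank ℚ (Hq ↥(stabilizer H w ⊓ stabilizer H (t • w))) := by
  have h1 := finrank_le_of_ker (resq (stabilizer H w)) (dfq w t) (by
    intro ψ h0
    apply exists_hom_hnn hG hsm he hall ψ
    intro a ha hb
    have hb' : a ∈ stabilizer H (t • w) := by
      rw [mem_stabilizer_iff]
      have : (t⁻¹ * a * t) • w = w := hb
      rw [mul_smul, mul_smul, inv_smul_eq_iff] at this
      exact this
    have := congrArg (fun f : Hq ↥(stabilizer H w ⊓ stabilizer H (t • w)) => hv f ⟨a, ha, hb'⟩) h0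
    have h2 : hv (dfq w t ψ) ⟨a, ha, hb'⟩ = 0 := this
    rw [hv_dfq] at h2
    exact sub_eq_zero.1 h2)
  obtain ⟨φ, p1, p2⟩ := exists_hom_t hG hsm he hwt hni
  have h3 : 0 < Module.finrank ℚ (LinearMap.ker (resq (stabilizer H w))) := by
    rw [Module.finrank_pos_iff_exists_ne_zero]
    refine ⟨⟨φ, p1⟩, fun e => ?_⟩
    have : φ = 0 := congrArg Subtype.val e
    rw [this, hv_zero] at p2
    exact zero_ne_one p2
  unfold beta
  omega

/-- HNN extensions over groups in the class -/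
theorem beta_hnn (hC : InC ↥(stabilizer H w ⊓ stabilizer H (t • w))) :
    beta ↥(stabilizer H w) ≤ beta H := by
  obtain ⟨f1, f2⟩ := finrank_hq_le_one hC
  have := beta_hnn_aux hG hsm he hall hwt hni f1
  omega

/-- HNN extensions over groups of `D_inf` type -/
theorem beta_hnn_D (h0 : ∀ φ : Hq ↥(stabilizer H w ⊓ stabilizer H (t • w)), φ = 0) :
    beta ↥(stabilizer H w) + 1 ≤ beta H := by
  have hs : Subsingleton (Hq ↥(stabilizer H w ⊓ stabilizer H (t • w))) :=
    ⟨fun a b => (h0 a).trans (h0 b).symm⟩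
  have f1 : FiniteDimensional ℚ (Hq ↥(stabilizer H w ⊓ stabilizer H (t • w))) := inferInstance
  have h2 : Module.finrank ℚ (Hq ↥(stabilizer H w ⊓ stabilizer H (t • w))) = 0 :=
    Module.finrank_zero_of_subsingleton
  have := beta_hnn_aux hG hsm he hall hwt hni f1
  omega

end hnn

end laws

end Pool.Agent.DI
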