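import Pool.Agent.DI.CutW

/-!
# Connected links: the reduction

`K.Cor a v b`: corner of a translate of a cell; `K.LC v`: the link of `v` is connected.
`SubGX K' K`: `K'` is a part of `K` (same cells and corners, orbits of edges inject).
`exists_conn`: a complex of a bad group has a part with connected links whose group is bad.
-/

namespace Pool.Agent.DI

open MulAction
open Pool.Agent.SAF (InC SA orbs FinOrb oc Decomp TAct FinOrb_iff oc_lt_of_inj bad_vertex SA.iso)

section Lists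

variable {V V' : Type}

/-- `a, b` are consecutive in the walk `x, l` -/
def Cn2 (a b : V) : V → List V → Prop
  | _, [] => False
  | x, y :: l => (a = x ∧ b = y) ∨ Cn2 a b y l

theorem Cn2.map (f : V → V') {a b x : V} {l : List V} (h : Cn2 a b x l) :
    Cn2 (f a) (f b) (f x) (l.map f) := by
  induction l generalizing x with
  | nil => exact h
  | cons y l ih =>
    rcases h with ⟨rfl, rfl⟩ | h
    · exact Or.inl ⟨rfl, rfl⟩
    · exact Or.inr (ih h)

theorem Cn2.of_map {f : V → V'} (hf : Function.Injective f) {a b x : V} {l : List V}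
    (h : Cn2 (f a) (f b) (f x) (l.map f)) : Cn2 a b x l := by
  induction l generalizing x with
  | nil => exact h
  | cons y l ih =>
    rcases h with ⟨h1, h2⟩ | h
    · exact Or.inl ⟨hf h1, hf h2⟩
    · exact Or.inr (ih h)

theorem Cn3.of_map {f : V → V'} (hf : Function.Injective f) {a v b x : V} {l : List V}
    (h : Cn3 (f a) (f v) (f b) (f x) (l.map f)) : Cn3 a v b x l := by
  induction l generalizing x with
  | nil => exact h
  | cons y l ih =>
    cases l with
    | nil => exact h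
    | cons z l =>
      rcases h with ⟨h1, h2, h3⟩ | h
      · exact Or.inl ⟨hf h1, hf h2, hf h3⟩
      · exact Or.inr (ih h)

theorem CC.of_map {f : V → V'} (hf : Function.Injective f) {a v b x : V} {l : List V}
    (h : CC (f a) (f v) (f b) (f x) (l.map f)) : CC a v b x l := by
  unfold CC at h ⊢
  rw [← List.map_take, ← List.map_append] at h
  exact h.of_map hf

theorem Cn2.mem {a b x : V} {l : List V} (h : Cn2 a b x l) : (a = x ∨ a ∈ l) ∧ b ∈ l := by
  induction l generalizing x with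
  | nil => exact h.elim
  | cons y l ih =>
    rcases h with ⟨rfl, rfl⟩ | h
    · exact ⟨Or.inl rfl, List.mem_cons_self⟩
    · obtain ⟨h1, h2⟩ := ih h
      refine ⟨Or.inr ?_, List.mem_cons_of_mem _ h2⟩
      rcases h1 with rfl | h1
      · exact List.mem_cons_self
      · exact List.mem_cons_of_mem _ h1

theorem Cn2.ne_nil {a b x : V} {l : List V} (h : Cn2 a b x l) : l ≠ [] := by
  rintro rfl
  exact h

theorem Cn3.two {a v b x : V} {l : List V} (h : Cn3 a v b x l) : Cn2 a v x l ∧ Cn2 v b x l := by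
  induction l generalizing x with
  | nil => exact h.elim
  | cons y l ih =>
    cases l with
    | nil => exact h.elim
    | cons z l =>
      rcases h with ⟨rfl, rfl, rfl⟩ | h
      · exact ⟨Or.inl ⟨rfl, rfl⟩, Or.inr (Or.inl ⟨rfl, rfl⟩)⟩
      · obtain ⟨h1, h2⟩ := ih h
        exact ⟨Or.inr h1, Or.inr h2⟩

theorem Cn2.of_append {a b x : V} {l m : List V} (h : Cn2 a b x (l ++ m)) :
    Cn2 a b x l ∨ Cn2 a b (tg x l) m := by
  induction l generalizing x with
  | nil => exact Or.inr h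
  | cons y l ih =>
    rcases h with h | h
    · exact Or.inl (Or.inl h)
    · rcases ih h with h | h
      · exact Or.inl (Or.inr h)
      · exact Or.inr h

/-- a closed walk has no new edge when it is closed up -/
theorem Cn2.of_close {a b x : V} {l : List V} (ht : tg x l = x) (h : Cn2 a b x (l ++ l.take 1)) :
    Cn2 a b x l := by
  rcases h.of_append with h | h
  · exact h
  · cases l with
    | nil => exact h
    | cons y l =>
      rw [ht] at h
      rcases h with ⟨rfl, rfl⟩ | h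
      · exact Or.inl ⟨rfl, rfl⟩
      · exact h.elim

theorem CC.two {a v b x : V} {l : List V} (ht : tg x l = x) (h : CC a v b x l) :
    Cn2 a v x l ∧ Cn2 v b x l :=
  ⟨(Cn3.two h).1.of_close ht, (Cn3.two h).2.of_close ht⟩

theorem Cn2.wk {E : V → V → Prop} {a b x : V} {l : List V} (h : Cn2 a b x l) (w : Wk E x l) :
    E a b := by
  induction l generalizing x with
  | nil => exact h.elim
  | cons y l ih =>
    rcases h with ⟨rfl, rfl⟩ | h
    · exact w.1
    · exact ih h w.2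

end Lists

/-! ### corners and links -/

namespace GX

variable {H V : Type} [Group H] [MulAction H V] (K : GX H V)

/-- the translate of a cell: base vertex -/
def tb (i : K.I) (h : H) : V := h • K.cb i

/-- the translate of a cell: further vertices -/
def tw (i : K.I) (h : H) : List V := (K.cw i).map (fun z => h • z)

theorem tw_E (i : K.I) (h : H) : Wk K.E (K.tb i h) (K.tw i h) :=
  Wk_map (E := K.E) (fun z => h • z) (fun _ _ e => K.E_smul h e) (K.c_E i)

theorem tw_tg (i : K.I) (h : H) : tg (K.tb i h) (K.tw i h) = K.tb i h := by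
  unfold tb tw
  rw [tg_map (fun z => h • z), K.c_tg]

theorem tb_mul (i : K.I) (g h : H) : K.tb i (g * h) = g • K.tb i h := mul_smul _ _ _

theorem tw_mul (i : K.I) (g h : H) : K.tw i (g * h) = (K.tw i h).map (fun z => g • z) := by
  unfold tw
  rw [List.map_map]
  apply List.map_congr_left
  intro z _
  exact mul_smul g h z

/-- a corner of a translate of a cell, in one of the two directions -/
def Cor (a v b : V) : Prop :=
  ∃ (i : K.I) (h : H), CC a v b (K.tb i h) (K.tw i h) ∨ CC b v a (K.tb i h) (K.tw i h)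

variable {K}

theorem Cor.symm {a v b : V} (h : K.Cor a v b) : K.Cor b v a := by
  obtain ⟨i, g, h⟩ := h
  exact ⟨i, g, Or.symm h⟩

theorem CC_smul {a v b : V} {i : K.I} {h : H} (hc : CC a v b (K.tb i h) (K.tw i h)) (g : H) :
    CC (g • a) (g • v) (g • b) (K.tb i (g * h)) (K.tw i (g * h)) := by
  rw [tb_mul, tw_mul]
  exact hc.map (fun z => g • z)

theorem Cor.smul (g : H) {a v b : V} (h : K.Cor a v b) : K.Cor (g • a) (g • v) (g • b) := by
  obtain ⟨i, k, h⟩ := h
  exact ⟨i, g * k, h.imp (fun c => CC_smul c g) (fun c => CC_smul c g)⟩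

theorem Cor.E1 {a v b : V} (h : K.Cor a v b) : K.E v a := by
  obtain ⟨i, k, h | h⟩ := h
  · exact ((h.two (K.tw_tg i k)).1.wk (K.tw_E i k)).symm
  · exact (h.two (K.tw_tg i k)).2.wk (K.tw_E i k)

theorem Cor.E2 {a v b : V} (h : K.Cor a v b) : K.E v b := h.symm.E1

variable (K)

/-- two vertices are joined in the link of `v` -/
def LJ (v a b : V) : Prop := Relation.EqvGen (fun a b => K.Cor a v b) a b

variable {K}

theorem LJ.smul (g : H) {v a b : V} (h : K.LJ v a b) : K.LJ (g • v) (g • a) (g • b) := by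
  induction h with
  | rel a b h => exact Relation.EqvGen.rel _ _ (h.smul g)
  | refl a => exact Relation.EqvGen.refl _
  | symm a b _ ih => exact ih.symm
  | trans a b c _ _ ih1 ih2 => exact ih1.trans _ _ _ ih2

variable (K)

/-- the link of `v` is connected -/
def LC (v : V) : Prop := ∀ a b, K.E v a → K.E v b → K.LJ v a b

theorem LC_smul (g : H) {v : V} (h : K.LC v) : K.LC (g • v) := by
  intro a b ha hb
  have h1 := K.E_smul g⁻¹ ha
  have h2 := K.E_smul g⁻¹ hb
  rw [inv_smul_smul] at h1 h2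
  have := (h _ _ h1 h2).smul g
  rwa [smul_inv_smul, smul_inv_smul] at this

/-- the cut of a component of a link -/
def cutOf {s n0 : V} (h0 : K.E s n0) : CutV K where
  s := s
  R := {n | K.E s n ∧ K.LJ s n0 n}
  n0 := n0
  n0R := ⟨h0, Relation.EqvGen.refl _⟩
  sub _ h := h.1
  corner i h a b hc := by
    have h1 : K.Cor a s b := ⟨i, h, Or.inl hc⟩
    constructor
    · rintro ⟨-, h2⟩
      exact ⟨h1.E2, h2.trans _ _ _ (Relation.EqvGen.rel _ _ h1)⟩
    · rintro ⟨-, h2⟩
      exact ⟨h1.E1, h2.trans _ _ _ (Relation.EqvGen.rel _ _ h1.symm)⟩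
  blk g hg n hn hgn m hm := by
    refine ⟨?_, ?_⟩
    · have := K.E_smul g hm.1
      rwa [hg] at this
    · have h1 : K.LJ s n m := (hn.2.symm).trans _ _ _ hm.2
      have h2 := h1.smul g
      rw [hg] at h2
      exact hgn.2.trans _ _ _ h2

theorem poles_finite (v : V) : {a | K.ar v a}.Finite := by
  by_cases h : ∃ a b, K.ar v a ∧ K.ar v b ∧ a ≠ b
  · obtain ⟨a, b, ha, hb, hne⟩ := h
    apply (Set.toFinite {a, b}).subset
    intro c hc
    rcases K.two v a b c ha hb hc with h | h | h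
    · exact absurd h hne
    · exact Or.inr h.symm
    · exact Or.inl h.symm
  · push Not at h
    by_cases h2 : ∃ a, K.ar v a
    · obtain ⟨a, ha⟩ := h2
      apply (Set.toFinite {a}).subset
      intro c hc
      exact (h a c ha hc).symm
    · push Not at h2
      have : {a | K.ar v a} = ∅ := Set.eq_empty_of_forall_notMem fun a ha => h2 a ha
      rw [this]
      exact Set.finite_empty

theorem fin_ar : FinOrb H {p : V × V | K.ar p.1 p.2} := by
  obtain ⟨F, hF, -, hc⟩ := FinOrb_iff.1 K.fin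
  rw [FinOrb_iff]
  refine ⟨⋃ v ∈ F, (fun a => (v, a)) '' {a | K.ar v a},
    hF.biUnion (fun v _ => (K.poles_finite v).image _), ?_, ?_⟩
  · intro p hp
    simp only [Set.mem_iUnion] at hp
    obtain ⟨v, _, a, ha, rfl⟩ := hp
    exact ha
  · rintro ⟨v, a⟩ hva
    obtain ⟨w, hw, h, e⟩ := hc v trivial
    refine ⟨(w, h⁻¹ • a), ?_, h, ?_⟩
    · simp only [Set.mem_iUnion]
      refine ⟨w, hw, h⁻¹ • a, ?_, rfl⟩
      have := K.ar_smul h⁻¹ _ _ hva
      rw [← e, inv_smul_smul] at this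
      exact this
    · exact Prod.ext e (smul_inv_smul h a)

theorem fin_E : FinOrb H {p : V × V | K.E p.1 p.2} := by
  obtain ⟨F, hF, hF', hc⟩ := FinOrb_iff.1 K.fin_ar
  rw [FinOrb_iff]
  refine ⟨F ∪ Prod.swap '' F, hF.union (hF.image _), ?_, ?_⟩
  · rintro p (hp | ⟨q, hq, rfl⟩)
    · exact Or.inl (hF' hp)
    · exact Or.inr (hF' hq)
  · rintro ⟨x, y⟩ (h | h)
    · obtain ⟨f, hf, g, e⟩ := hc (x, y) h
      exact ⟨f, Or.inl hf, g, e⟩
    · obtain ⟨f, hf, g, e⟩ := hc (y, x) h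
      refine ⟨f.swap, Or.inr ⟨f, hf, rfl⟩, g, ?_⟩
      have e1 := congrArg Prod.fst e
      have e2 := congrArg Prod.snd e
      exact Prod.ext e2 e1

/-- the edges at vertices with a disconnected link -/
def Zd : Set (V × V) := {p | K.E p.1 p.2 ∧ ¬ K.LC p.1}

theorem fin_Zd : FinOrb H K.Zd := K.fin_E.mono fun _ h => h.1

end GX

/-! ### parts -/

/-- `K'` is a part of `K` -/
structure SubGX {H' V' H V : Type} [Group H'] [MulAction H' V'] [Group H] [MulAction H V]
    (K' : GX H' V') (K : GX H V) where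
  φ : H' →* H
  f : V' → V
  ι : K'.I → K.I
  φ_inj : Function.Injective φ
  f_inj : Function.Injective f
  ι_inj : Function.Injective ι
  f_smul : ∀ h v, f (h • v) = φ h • f v
  ar_iff : ∀ x y, K'.ar x y ↔ K.ar (f x) (f y)
  rk_eq : ∀ x, K'.rk x = K.rk (f x)
  edge : ∀ (x y x' y' : V') (h : H), K'.E x y → K'.E x' y' → h • f x = f x' → h • f y = f y' →
    ∃ h', φ h' = h
  cell : ∀ i : K'.I, ∃ h : H, f (K'.cb i) = K.tb (ι i) h ∧ (K'.cw i).map f = K.tw (ι i) h
  back : ∀ (i : K.I) (h : H) (x y : V'), K'.E x y → Cn2 (f x) (f y) (K.tb i h) (K.tw i h) →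
    ∃ (i' : K'.I) (h' : H'), ι i' = i ∧ f (K'.tb i' h') = K.tb i h ∧
      (K'.tw i' h').map f = K.tw i h

namespace SubGX

section

variable {H'' V'' H' V' H V : Type} [Group H''] [MulAction H'' V''] [Group H'] [MulAction H' V']
  [Group H] [MulAction H V] {K'' : GX H'' V''} {K' : GX H' V'} {K : GX H V}

/-- the complex itself -/
def refl (K : GX H V) : SubGX K K where
  φ := MonoidHom.id H
  f := id
  ι := id
  φ_inj := Function.injective_id
  f_inj := Function.injective_id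
  ι_inj := Function.injective_id
  f_smul _ _ := rfl
  ar_iff _ _ := Iff.rfl
  rk_eq _ := rfl
  edge _ _ _ _ h _ _ _ _ := ⟨h, rfl⟩
  cell i := ⟨1, (one_smul _ _).symm, by
    unfold GX.tw
    rw [List.map_id]
    simp only [id, one_smul, List.map_id']⟩
  back i h x y _ _ := ⟨i, h, rfl, rfl, List.map_id _⟩

theorem E_iff (S : SubGX K' K) {x y : V'} : K'.E x y ↔ K.E (S.f x) (S.f y) :=
  or_congr (S.ar_iff x y) (S.ar_iff y x)

/-- parts of parts -/
def trans (S' : SubGX K'' K') (S : SubGX K' K) : SubGX K'' K where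
  φ := S.φ.comp S'.φ
  f := S.f ∘ S'.f
  ι := S.ι ∘ S'.ι
  φ_inj := S.φ_inj.comp S'.φ_inj
  f_inj := S.f_inj.comp S'.f_inj
  ι_inj := S.ι_inj.comp S'.ι_inj
  f_smul h v := by
    show S.f (S'.f (h • v)) = S.φ (S'.φ h) • S.f (S'.f v)
    rw [S'.f_smul, S.f_smul]
  ar_iff x y := (S'.ar_iff x y).trans (S.ar_iff _ _)
  rk_eq x := (S'.rk_eq x).trans (S.rk_eq _)
  edge x y x' y' h e e' h1 h2 := by
    obtain ⟨k, rfl⟩ := S.edge _ _ _ _ h (S'.E_iff.1 e) (S'.E_iff.1 e') h1 h2
    have h3 : k • S'.f x = S'.f x' := S.f_inj (by rw [S.f_smul]; exact h1)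
    have h4 : k • S'.f y = S'.f y' := S.f_inj (by rw [S.f_smul]; exact h2)
    obtain ⟨m, rfl⟩ := S'.edge _ _ _ _ k e e' h3 h4
    exact ⟨m, rfl⟩
  cell i := by
    obtain ⟨h', e1, e2⟩ := S'.cell i
    obtain ⟨h, e3, e4⟩ := S.cell (S'.ι i)
    refine ⟨S.φ h' * h, ?_, ?_⟩
    · show S.f (S'.f (K''.cb i)) = K.tb (S.ι (S'.ι i)) (S.φ h' * h)
      rw [e1, K.tb_mul, ← e3]
      exact S.f_smul _ _
    · show (K''.cw i).map (S.f ∘ S'.f) = K.tw (S.ι (S'.ι i)) (S.φ h' * h)
      rw [K.tw_mul, ← e4, ← List.map_map, e2]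
      unfold GX.tw
      rw [List.map_map, List.map_map]
      apply List.map_congr_left
      intro z _
      exact S.f_smul _ _
  back i h x y e c := by
    obtain ⟨i', h', h1, h2, h3⟩ := S.back i h (S'.f x) (S'.f y) (S'.E_iff.1 e) c
    have c' : Cn2 (S'.f x) (S'.f y) (K'.tb i' h') (K'.tw i' h') := by
      apply Cn2.of_map S.f_inj
      rw [h2, h3]
      exact c
    obtain ⟨i'', h'', k1, k2, k3⟩ := S'.back i' h' x y e c'
    refine ⟨i'', h'', ?_, ?_, ?_⟩
    · show S.ι (S'.ι i'') = i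
      rw [k1, h1]
    · show S.f (S'.f _) = _
      rw [k2, h2]
    · rw [← List.map_map, k3, h3]

theorem cw_length (S : SubGX K' K) (i : K'.I) : (K'.cw i).length = (K.cw (S.ι i)).length := by
  obtain ⟨h, -, e⟩ := S.cell i
  have := congrArg List.length e
  rw [List.length_map] at this
  rw [this]
  unfold GX.tw
  rw [List.length_map]

theorem area_eq (S : SubGX K' K) : K'.area = ∑ᶠ i : K'.I, ((K.cw (S.ι i)).length - 4) := by
  unfold GX.area
  exact finsum_congr fun i => by rw [S.cw_length]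

/-- the area does not increase; if it is the same then every cell with at least five edges is a
cell of the part -/
theorem area_le (S : SubGX K' K) : K'.area ≤ K.area ∧
    (K'.area = K.area → ∀ i : K.I, 4 < (K.cw i).length → ∃ i', S.ι i' = i) := by
  classical
  have := K.finI
  have := K'.finI
  let f1 := Fintype.ofFinite K.I
  let f2 := Fintype.ofFinite K'.I
  have e1 : K'.area = ∑ i : K'.I, ((K.cw (S.ι i)).length - 4) := by
    rw [S.area_eq, finsum_eq_sum_of_fintype]
  have e2 : K.area = ∑ i : K.I, ((K.cw i).length - 4) := K.area_eq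
  have e3 : ∑ i : K'.I, ((K.cw (S.ι i)).length - 4)
      = ∑ i ∈ Finset.univ.image S.ι, ((K.cw i).length - 4) := by
    rw [Finset.sum_image]
    intro a _ b _ h
    exact S.ι_inj h
  have e4 := Finset.sum_add_sum_compl (Finset.univ.image S.ι)
    (fun i : K.I => ((K.cw i).length - 4))
  refine ⟨?_, ?_⟩
  · rw [e1, e3, e2]
    omega
  · intro h i hi
    by_contra hcon
    have h1 : i ∈ (Finset.univ.image S.ι)ᶜ := by
      rw [Finset.mem_compl, Finset.mem_image]
      rintro ⟨j, -, hj⟩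
      exact hcon ⟨j, hj⟩
    have h2 : (K.cw i).length - 4 ≤ ∑ i ∈ (Finset.univ.image S.ι)ᶜ, ((K.cw i).length - 4) :=
      Finset.single_le_sum (f := fun i : K.I => ((K.cw i).length - 4)) (fun _ _ => Nat.zero_le _) h1
    rw [e1, e3, e2] at h
    omega

/-- the corners at an edge of the part are corners of the part -/
theorem corner_back (S : SubGX K' K) {a v : V'} {b : V} (e : K'.E v a)
    (hc : K.Cor (S.f a) (S.f v) b) : ∃ b', S.f b' = b ∧ K'.Cor a v b' := by
  obtain ⟨i, h, hc⟩ := hc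
  have key : ∀ (x y z : V), CC x y z (K.tb i h) (K.tw i h) → ∀ (i' : K'.I) (h' : H'),
      S.f (K'.tb i' h') = K.tb i h → (K'.tw i' h').map S.f = K.tw i h →
      ∃ x' y' z', S.f x' = x ∧ S.f y' = y ∧ S.f z' = z ∧ CC x' y' z' (K'.tb i' h') (K'.tw i' h') := by
    intro x y z hh i' h' h1 h2
    have hx : ∀ w, w = K.tb i h ∨ w ∈ K.tw i h → ∃ w', S.f w' = w := by
      rintro w (rfl | hw)
      · exact ⟨_, h1⟩
      · rw [← h2] at hw
        obtain ⟨w', -, e⟩ := List.mem_map.1 hw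
        exact ⟨w', e⟩
    have t := hh.two (K.tw_tg i h)
    obtain ⟨x', rfl⟩ := hx x t.1.mem.1
    obtain ⟨y', rfl⟩ := hx y (Or.inr t.1.mem.2)
    obtain ⟨z', rfl⟩ := hx z (Or.inr t.2.mem.2)
    refine ⟨x', y', z', rfl, rfl, rfl, ?_⟩
    rw [← h1, ← h2] at hh
    exact hh.of_map S.f_inj
  rcases hc with hc | hc
  · obtain ⟨i', h', -, h1, h2⟩ := S.back i h a v e.symm (hc.two (K.tw_tg i h)).1
    obtain ⟨x', y', z', e1, e2, e3, c⟩ := key _ _ _ hc i' h' h1 h2
    have e1 := S.f_inj e1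
    have e2 := S.f_inj e2
    subst e1; subst e2
    exact ⟨z', e3, i', h', Or.inl c⟩
  · obtain ⟨i', h', -, h1, h2⟩ := S.back i h v a e (hc.two (K.tw_tg i h)).2
    obtain ⟨x', y', z', e1, e2, e3, c⟩ := key _ _ _ hc i' h' h1 h2
    have e3 := S.f_inj e3
    have e2 := S.f_inj e2
    subst e3; subst e2
    exact ⟨x', e1, i', h', Or.inr c⟩

/-- the corners of the part are corners -/
theorem corner (S : SubGX K' K) {a v b : V'} (hc : K'.Cor a v b) :
    K.Cor (S.f a) (S.f v) (S.f b) := by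
  obtain ⟨i, h, hc⟩ := hc
  obtain ⟨k, e1, e2⟩ := S.cell i
  have e3 : S.f (K'.tb i h) = K.tb (S.ι i) (S.φ h * k) := by
    rw [K.tb_mul, ← e1]
    exact S.f_smul _ _
  have e4 : (K'.tw i h).map S.f = K.tw (S.ι i) (S.φ h * k) := by
    rw [K.tw_mul, ← e2]
    unfold GX.tw
    rw [List.map_map, List.map_map]
    apply List.map_congr_left
    intro z _
    exact S.f_smul _ _
  refine ⟨S.ι i, S.φ h * k, ?_⟩
  rw [← e3, ← e4]
  exact hc.imp (fun c => c.map S.f) (fun c => c.map S.f)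

/-- joined in the link of the part -/
theorem LJ_back (S : SubGX K' K) {v : V'} {a b : V} (h : K.LJ (S.f v) a b) :
    (∀ a', S.f a' = a → K'.E v a' → ∃ b', S.f b' = b ∧ K'.LJ v a' b') ∧
    ∀ b', S.f b' = b → K'.E v b' → ∃ a', S.f a' = a ∧ K'.LJ v a' b' := by
  have hE : ∀ {x y : V'}, K'.LJ v x y → (K'.E v x ↔ K'.E v y) := by
    intro x y h
    induction h with
    | rel x y h => exact ⟨fun _ => h.E2, fun _ => h.E1⟩
    | refl x => exact Iff.rfl
    | symm x y _ ih => exact ih.symm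
    | trans x y z _ _ ih1 ih2 => exact ih1.trans ih2
  induction h with
  | rel a b h =>
    refine ⟨?_, ?_⟩
    · rintro a' rfl e
      obtain ⟨b', e', c⟩ := S.corner_back e h
      exact ⟨b', e', Relation.EqvGen.rel _ _ c⟩
    · rintro b' rfl e
      obtain ⟨a', e', c⟩ := S.corner_back e h.symm
      exact ⟨a', e', Relation.EqvGen.rel _ _ c.symm⟩
  | refl a =>
    exact ⟨fun a' e _ => ⟨a', e, Relation.EqvGen.refl _⟩, fun b' e _ => ⟨b', e, Relation.EqvGen.refl _⟩⟩
  | symm a b _ ih =>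
    refine ⟨?_, ?_⟩
    · intro b' e e'
      obtain ⟨a', h1, h2⟩ := ih.2 b' e e'
      exact ⟨a', h1, h2.symm⟩
    · intro a' e e'
      obtain ⟨b', h1, h2⟩ := ih.1 a' e e'
      exact ⟨b', h1, h2.symm⟩
  | trans a b c _ _ ih1 ih2 =>
    refine ⟨?_, ?_⟩
    · intro a' e e'
      obtain ⟨b', h1, h2⟩ := ih1.1 a' e e'
      obtain ⟨c', h3, h4⟩ := ih2.1 b' h1 ((hE h2).1 e')
      exact ⟨c', h3, h2.trans _ _ _ h4⟩
    · intro c' e e'
      obtain ⟨b', h1, h2⟩ := ih2.2 c' e e'
      obtain ⟨a', h3, h4⟩ := ih1.2 b' h1 ((hE h2).2 e')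
      exact ⟨a', h3, h4.trans _ _ _ h2⟩

/-- connected links stay connected -/
theorem LC (S : SubGX K' K) {v : V'} (h : K.LC (S.f v)) : K'.LC v := by
  intro a b ha hb
  obtain ⟨b', h1, h2⟩ := (S.LJ_back (h _ _ (S.E_iff.1 ha) (S.E_iff.1 hb))).1 a rfl ha
  rwa [S.f_inj h1] at h2

end

end SubGX

/-! ### the parts of a cut -/

namespace CutV

variable {H V : Type} [Group H] [MulAction H V] {K : GX H V} (C : CutV K)

theorem In_eq (c : C.X) (h : H) (i : K.I) : C.In c h i ↔
    (K.tb i h ∈ C.PV c ∧ ∀ y ∈ K.tw i h, y ∈ C.PV c) := by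
  refine and_congr Iff.rfl ⟨?_, ?_⟩
  · intro hh y hy
    obtain ⟨z, hz, rfl⟩ := List.mem_map.1 hy
    exact hh z hz
  · intro hh y hy
    exact hh _ (List.mem_map.2 ⟨y, hy, rfl⟩)

/-- a cell with an edge in the part lies in the part -/
theorem In_of_edge {c : C.X} {h : H} {i : K.I} {x y : V} (hx : x ∈ C.PV c) (hy : y ∈ C.PV c)
    (hc : Cn2 x y (K.tb i h) (K.tw i h)) : C.In c h i := by
  obtain ⟨d, hd⟩ := C.exists_In h i
  have hd' := (C.In_eq d h i).1 hd
  have hx' : x ∈ C.PV d := by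
    rcases hc.mem.1 with rfl | hh
    · exact hd'.1
    · exact hd'.2 _ hh
  have hy' : y ∈ C.PV d := hd'.2 _ hc.mem.2
  have := C.PV_unique (hc.wk (K.tw_E i h)) hx hy hx' hy'
  rw [this]
  exact hd

theorem part_cell {c : C.X} {h : H} {i : K.I} (hi : C.In c h i) (hl : K.cw i ≠ []) :
    ∃ k : ↥(stabilizer H c), ((C.part c).tb ⟨i, h, hi⟩ k : V) = K.tb i h ∧
      ((C.part c).tw ⟨i, h, hi⟩ k).map Subtype.val = K.tw i h := by
  let i' : C.IP c := ⟨i, h, hi⟩
  have h1 := i'.2.choose_spec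
  have h2 := h1.smul (C := C) (h * i'.2.choose⁻¹)
  rw [inv_mul_cancel_right] at h2
  have h3 : (h * i'.2.choose⁻¹) • c = c := C.In_unique hl h2 hi
  refine ⟨⟨h * i'.2.choose⁻¹, h3⟩, ?_, ?_⟩
  · show (h * i'.2.choose⁻¹) • i'.2.choose • K.cb i = h • K.cb i
    rw [mul_smul, inv_smul_smul]
  · unfold GX.tw
    rw [List.map_map]
    have e3 : (Subtype.val ∘ fun z : ↥(C.PV c) =>
        (⟨h * i'.2.choose⁻¹, h3⟩ : ↥(stabilizer H c)) • z)
        = (fun z : V => (h * i'.2.choose⁻¹) • z) ∘ Subtype.val := by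
      funext z; rfl
    rw [e3, ← List.map_map]
    have e4 : ((C.part c).cw ⟨i, h, hi⟩).map Subtype.val
        = (K.cw i).map (fun z => i'.2.choose • z) := C.cwP_map c i'.2.choose_spec
    rw [e4, List.map_map]
    apply List.map_congr_left
    intro z _
    show (h * i'.2.choose⁻¹) • i'.2.choose • z = h • z
    rw [mul_smul, inv_smul_smul]

/-- the part of a class is a part -/
noncomputable def sub' (c : C.X) : SubGX (C.part c) K where
  φ := (stabilizer H c).subtype
  f := Subtype.val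
  ι := Subtype.val
  φ_inj := Subgroup.subtype_injective _
  f_inj := Subtype.val_injective
  ι_inj := Subtype.val_injective
  f_smul _ _ := rfl
  ar_iff _ _ := Iff.rfl
  rk_eq _ := rfl
  edge x y x' y' h e e' h1 h2 := by
    refine ⟨⟨h, ?_⟩, rfl⟩
    have hx : x'.1 ∈ C.PV (h • c) := by rw [← h1]; exact C.PV_smul h x.2
    have hy : y'.1 ∈ C.PV (h • c) := by rw [← h2]; exact C.PV_smul h y.2
    exact C.PV_unique e' hx hy x'.2 y'.2
  cell i := ⟨i.2.choose, rfl, C.cwP_map c i.2.choose_spec⟩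
  back i h x y e hc := by
    have hi : C.In c h i := C.In_of_edge x.2 y.2 hc
    have hl : K.cw i ≠ [] := by
      intro h0
      apply hc.ne_nil
      unfold GX.tw
      rw [h0]; rfl
    obtain ⟨k, h1, h2⟩ := C.part_cell hi hl
    exact ⟨⟨i, h, hi⟩, k, rfl, h1, h2⟩

end CutV

/-! ### the reduction -/

section Red

variable {H V : Type} [Group H] [MulAction H V]

/-- one step -/
theorem red_step (K : GX H V) (hb : ¬ SA H) {s : V} (hs : ¬ K.LC s) :
    ∃ (C : CutV K) (c : C.X), ¬ SA ↥(stabilizer H c) ∧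
      oc ↥(stabilizer H c) (C.part c).Zd < oc H K.Zd := by
  have hs' : ∃ a b, K.E s a ∧ K.E s b ∧ ¬ K.LJ s a b := by
    by_contra hcon
    push Not at hcon
    exact hs hcon
  obtain ⟨n0, m0, hn0, hm0, hnj⟩ := hs'
  let C := K.cutOf hn0
  have hbad : ∃ c : C.X, ¬ SA ↥(stabilizer H c) := by
    by_cases hfix : ∃ c : C.X, ∀ h : H, h • c = c
    · obtain ⟨c, hc⟩ := hfix
      exact ⟨c, fun h => hb (SAF.SA.of_stabilizer_top hc h)⟩
    · push Not at hfix
      exact bad_vertex (C.decomp hfix) hb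
  obtain ⟨c, hc⟩ := hbad
  refine ⟨C, c, hc, ?_⟩
  let S := C.sub' c
  refine oc_lt_of_inj K.fin_Zd (fun p : ↥(C.PV c) × ↥(C.PV c) => (p.1.1, p.2.1)) ?_ ?_
    (b0 := (s, n0)) ⟨hn0, hs⟩ ?_
  · rintro ⟨v, n⟩ ⟨e, hv⟩
    exact ⟨e, fun h => hv (S.LC h)⟩
  · rintro ⟨v, n⟩ ⟨e, -⟩ ⟨v', n'⟩ ⟨e', -⟩ ⟨h, hh⟩
    have h1 : h • v.1 = v'.1 := congrArg Prod.fst hh
    have h2 : h • n.1 = n'.1 := congrArg Prod.snd hh
    obtain ⟨k, hk⟩ := S.edge v n v' n' h e e' h1 h2
    refine ⟨k, Prod.ext (Subtype.ext ?_) (Subtype.ext ?_)⟩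
    · show (k : H) • v.1 = v'.1
      rw [← h1, ← hk]; rfl
    · show (k : H) • n.1 = n'.1
      rw [← h2, ← hk]; rfl
  · rintro ⟨v, n⟩ ⟨e, hv⟩ h hh
    have h1 : h • v.1 = s := congrArg Prod.fst hh
    have h2 : h • n.1 = n0 := congrArg Prod.snd hh
    have hEd : C.Ed h⁻¹ v.1 n.1 := by
      refine ⟨?_, ?_⟩
      · show v.1 = h⁻¹ • s
        rw [← h1, inv_smul_smul]
      · show (h⁻¹)⁻¹ • n.1 ∈ C.R
        rw [inv_inv, h2]
        exact C.n0R
    have hvc : C.cl v.1 ≠ c := by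
      intro hcl
      have : (C.cl v.1 = c ∧ C.cl n.1 = c) ∨ (∃ g, C.Ed g v.1 n.1 ∧ C.cl n.1 = c) ∨
        ∃ g, C.Ed g n.1 v.1 ∧ C.cl v.1 = c := C.kinds e v.2 n.2
      rcases this with ⟨h3, h4⟩ | ⟨g, -, h4⟩ | ⟨g, h3, -⟩
      · exact C.ne_of_Ed hEd (h3.trans h4.symm)
      · exact C.ne_of_Ed hEd (hcl.trans h4.symm)
      · exact CutV.not_orb hEd h3.1
    have hnc : C.cl n.1 = c := by
      rcases C.kinds e v.2 n.2 with ⟨h3, h4⟩ | ⟨g, -, h4⟩ | ⟨g, h3, h4⟩
      · exact h4
      · exact h4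
      · exact absurd h4 hvc
    apply hv
    intro a b ha hb
    have key : ∀ a : ↥(C.PV c), (C.part c).E v a → K.LJ v.1 n.1 a.1 := by
      intro a ha
      have hEa : C.Ed h⁻¹ v.1 a.1 := by
        rcases C.kinds ha v.2 a.2 with ⟨h3, -⟩ | ⟨g, h3, h4⟩ | ⟨g, h3, h4⟩
        · exact absurd h3 hvc
        · exact C.cut_unique hEd h3 (Or.inl ⟨rfl, h4.trans hnc.symm⟩)
        · exact absurd h4 hvc
      have h5 : (h⁻¹)⁻¹ • a.1 ∈ C.R := hEa.2
      rw [inv_inv] at h5
      have h6 : K.LJ s n0 (h • a.1) := h5.2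
      have h7 := h6.smul h⁻¹
      rwa [inv_smul_smul, ← h1, ← h2, inv_smul_smul, inv_smul_smul] at h7
    have h8 : K.LJ v.1 a.1 b.1 := ((key a ha).symm).trans _ _ _ (key b hb)
    obtain ⟨b', h9, h10⟩ := (S.LJ_back h8).1 a rfl ha
    rwa [S.f_inj h9] at h10

/-- REDUCTION: a complex of a bad group has a part with connected links and bad group -/
theorem exists_conn (K : GX H V) (hb : ¬ SA H) :
    ∃ (H' V' : Type) (_ : Group H') (_ : MulAction H' V') (K' : GX H' V'),
      ¬ SA H' ∧ Nonempty (SubGX K' K) ∧ ∀ v, K'.LC v := by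
  have key : ∀ (m : ℕ) (H' V' : Type) (_ : Group H') (_ : MulAction H' V') (K' : GX H' V'),
      oc H' K'.Zd = m → ¬ SA H' → ∃ (H'' V'' : Type) (_ : Group H'') (_ : MulAction H'' V'')
        (K'' : GX H'' V''), ¬ SA H'' ∧ Nonempty (SubGX K'' K') ∧ ∀ v, K''.LC v := by
    intro m
    induction m using Nat.strong_induction_on with
    | _ m ih =>
      intro H' V' i1 i2 K' hm hb'
      by_cases hall : ∀ v, K'.LC v
      · exact ⟨H', V', i1, i2, K', hb', ⟨SubGX.refl K'⟩, hall⟩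
      · push Not at hall
        obtain ⟨s, hs⟩ := hall
        obtain ⟨C, c, h1, h2⟩ := red_step K' hb' hs
        obtain ⟨H'', V'', j1, j2, K'', k1, ⟨k2⟩, k3⟩ :=
          ih _ (by rw [← hm]; exact h2) _ _ _ _ (C.part c) rfl h1
        exact ⟨H'', V'', j1, j2, K'', k1, ⟨k2.trans (C.sub' c)⟩, k3⟩
  exact key _ H V _ _ K rfl hb

end Red

end Pool.Agent.DI
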