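import Pool.Agent.DI.QFM
import Pool.Agent.SAF.AOrb

/-!
# The quotient multigraph, part 2

* `JM.ofO`: the edges are the pairs of an invariant relation `O`; `JM.ofO_b1_zero_iff`: if `O` is
  asymmetric then `b1 = 0` iff the quotient of the symmetric relation is a forest;
* `finite_orb`: finitely many orbits from `FinOrb`;
* `JM.res`: restriction to a subgroup `J` of index two of `U`; `JM.bn`, `JM.bl`: the involution of the
  quotient by `J` induced by an element outside of `J`.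
-/

namespace Pool.Agent.DI

open MulAction
open Pool.Agent.SAF (orbs FinOrb mk_eq_iff FinOrb_iff)

section

variable {J T : Type} [Group J] [MulAction J T]

theorem finite_orb (h : FinOrb J (Set.univ : Set T)) : Finite (orbitRel.Quotient J T) := by
  have h1 : (orbs J (Set.univ : Set T)).Finite := h
  have h2 : orbs J (Set.univ : Set T) = Set.univ := by
    ext q
    refine ⟨fun _ => trivial, fun _ => ?_⟩
    obtain ⟨x, rfl⟩ := oq_surj q
    exact ⟨x, trivial, rfl⟩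
  rw [h2] at h1
  exact Set.finite_univ_iff.1 h1

/-- finitely many orbits on an invariant set -/
theorem finite_orb_sub (A : SubMulAction J T) (h : FinOrb J (A : Set T)) :
    Finite (orbitRel.Quotient J ↥A) := by
  have h1 : (orbs J (A : Set T)).Finite := h
  have : Finite ↥(orbs J (A : Set T)) := h1.to_subtype
  refine Finite.of_injective
    (olift (fun e : ↥A => (⟨oq J e.1, e.1, e.2, rfl⟩ : ↥(orbs J (A : Set T))))
      (fun j e => Subtype.ext (oq_smul j e.1))) ?_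
  intro p q h
  obtain ⟨e, rfl⟩ := oq_surj p
  obtain ⟨e', rfl⟩ := oq_surj q
  have h' : oq J e.1 = oq J e'.1 := congrArg Subtype.val h
  obtain ⟨j, hj⟩ := oq_eq.1 h'
  exact oq_eq.2 ⟨j, Subtype.ext hj⟩

/-! ### edges as pairs -/

/-- the pairs of an invariant relation -/
def oS (O : T → T → Prop) (hO : ∀ (j : J) x y, O x y → O (j • x) (j • y)) :
    SubMulAction J (T × T) where
  carrier := {p | O p.1 p.2}
  smul_mem' j p hp := hO j _ _ hp

/-- the graph with the pairs of `O` as edges -/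
def JM.ofO (O : T → T → Prop) (hO : ∀ (j : J) x y, O x y → O (j • x) (j • y))
    (fT : Finite (orbitRel.Quotient J T)) (fE : Finite (orbitRel.Quotient J ↥(oS O hO))) :
    JM J T ↥(oS O hO) where
  s e := e.1.1
  t e := e.1.2
  hs _ _ := rfl
  ht _ _ := rfl
  fT := fT
  fE := fE

variable {O : T → T → Prop} {hO : ∀ (j : J) x y, O x y → O (j • x) (j • y)}
  {fT : Finite (orbitRel.Quotient J T)} {fE : Finite (orbitRel.Quotient J ↥(oS O hO))}

theorem JM.ofO_E (x y : T) : (JM.ofO O hO fT fE).E x y ↔ O x y ∨ O y x := by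
  constructor
  · rintro ⟨⟨⟨a, b⟩, h⟩, ⟨rfl, rfl⟩ | ⟨rfl, rfl⟩⟩
    · exact Or.inl h
    · exact Or.inr h
  · rintro (h | h)
    · exact ⟨⟨(x, y), h⟩, Or.inl ⟨rfl, rfl⟩⟩
    · exact ⟨⟨(y, x), h⟩, Or.inr ⟨rfl, rfl⟩⟩

theorem JM.ofO_st (x y : T) : (JM.ofO O hO fT fE).st x y ↔ O x y := by
  constructor
  · rintro ⟨⟨⟨a, b⟩, h⟩, rfl, rfl⟩
    exact h
  · intro h
    exact ⟨⟨(x, y), h⟩, rfl, rfl⟩

/-- the quotient is a forest iff its Betti number is zero -/
theorem JM.ofO_b1_zero_iff (has : ∀ x y, O x y → ¬ O y x) :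
    (JM.ofO O hO fT fE).fg.b1 = 0 ↔ QF J (fun x y => O x y ∨ O y x) := by
  have hE : (JM.ofO O hO fT fE).E = fun x y => O x y ∨ O y x := by
    funext x y
    exact propext (JM.ofO_E x y)
  constructor
  · intro h
    have := (JM.ofO O hO fT fE).qf h
    rwa [hE] at this
  · intro h
    apply (JM.ofO O hO fT fE).b1_zero_of_qf
    · rw [hE]; exact h
    · rintro ⟨⟨a, b⟩, h1⟩ ⟨⟨c, d⟩, h2⟩ (⟨e1, e2⟩ | ⟨e1, e2⟩)
      · have e1 : c = a := e1
        have e2 : d = b := e2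
        subst e1 e2
        exact ⟨1, (one_smul _ _).symm⟩
      · have e1 : c = b := e1
        have e2 : d = a := e2
        subst e1 e2
        exact absurd h2 (has _ _ h1)

end

/-! ### subgroups of index two -/

section

variable {U T Ed : Type} [Group U] [MulAction U T] [MulAction U Ed]

/-- `b` is an element outside of `J` which represents the quotient of order two -/
structure Two (J : Subgroup U) (b : U) : Prop where
  all : ∀ u : U, u ∈ J ∨ b⁻¹ * u ∈ J
  nor : ∀ j ∈ J, b * j * b⁻¹ ∈ J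
  sq : b * b ∈ J

variable {J : Subgroup U} {b : U} (h2 : Two J b)

include h2 in
theorem Two.finite [Finite (orbitRel.Quotient U T)] : Finite (orbitRel.Quotient ↥J T) := by
  refine Finite.of_surjective (fun p : orbitRel.Quotient U T × Bool =>
    oq ↥J (if p.2 then Quotient.out p.1 else b • Quotient.out p.1)) ?_
  intro q
  obtain ⟨x, rfl⟩ := oq_surj q
  have h1 : oq U (Quotient.out (oq U x)) = oq U x := Quotient.out_eq' (s₁ := orbitRel U T) _
  obtain ⟨u, hu⟩ := oq_eq.1 h1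
  rcases h2.all u with h | h
  · refine ⟨(oq U x, true), ?_⟩
    exact oq_eq.2 ⟨⟨u, h⟩, hu⟩
  · refine ⟨(oq U x, false), ?_⟩
    have h3 : b * (b⁻¹ * u) * b⁻¹ ∈ J := h2.nor _ h
    have h4 : b * (b⁻¹ * u) * b⁻¹ = u * b⁻¹ := by group
    rw [h4] at h3
    refine oq_eq.2 ⟨⟨u * b⁻¹, h3⟩, ?_⟩
    show x = (u * b⁻¹) • b • Quotient.out (oq U x)
    rw [mul_smul, inv_smul_smul]
    exact hu

/-- the involution on the orbits of `J` -/
def Two.inv (T : Type) [MulAction U T] : orbitRel.Quotient ↥J T → orbitRel.Quotient ↥J T :=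
  olift (fun x => oq ↥J (b • x)) (by
    intro j x
    refine (oq_eq.2 ⟨⟨b * j.1 * b⁻¹, h2.nor _ j.2⟩, ?_⟩).symm
    show b • j.1 • x = (b * j.1 * b⁻¹) • b • x
    rw [← mul_smul, ← mul_smul]
    congr 1
    group)

@[simp] theorem Two.inv_oq (x : T) : h2.inv T (oq ↥J x) = oq ↥J (b • x) := rfl

theorem Two.inv_inv (q : orbitRel.Quotient ↥J T) : h2.inv T (h2.inv T q) = q := by
  obtain ⟨x, rfl⟩ := oq_surj q
  rw [h2.inv_oq, h2.inv_oq, ← mul_smul]
  exact oq_smul (⟨b * b, h2.sq⟩ : ↥J) x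

/-- the orbits of `U` -/
theorem Two.oq_U {x y : T} : oq U x = oq U y ↔ oq ↥J x = oq ↥J y ∨
    oq ↥J y = h2.inv T (oq ↥J x) := by
  constructor
  · intro h
    obtain ⟨u, rfl⟩ := oq_eq.1 h
    rcases h2.all u with h | h
    · exact Or.inl (oq_eq.2 ⟨⟨u, h⟩, rfl⟩)
    · right
      have h3 : b * (b⁻¹ * u) * b⁻¹ ∈ J := h2.nor _ h
      have h4 : b * (b⁻¹ * u) * b⁻¹ = u * b⁻¹ := by group
      rw [h4] at h3
      rw [h2.inv_oq]
      refine (oq_eq.2 ⟨⟨u * b⁻¹, h3⟩, ?_⟩).symm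
      show u • x = (u * b⁻¹) • b • x
      rw [mul_smul, inv_smul_smul]
  · rintro (h | h)
    · obtain ⟨j, rfl⟩ := oq_eq.1 h
      exact oq_eq.2 ⟨j.1, rfl⟩
    · rw [h2.inv_oq] at h
      obtain ⟨j, hj⟩ := oq_eq.1 h.symm
      refine oq_eq.2 ⟨j.1 * b, ?_⟩
      rw [hj, mul_smul]
      rfl

variable (M : JM U T Ed)

/-- restriction to the subgroup -/
def JM.res : JM ↥J T Ed where
  s := M.s
  t := M.t
  hs j e := M.hs j.1 e
  ht j e := M.ht j.1 e
  fT := by
    have := M.fT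
    exact h2.finite
  fE := by
    have := M.fE
    exact h2.finite

theorem JM.res_st (x y : T) : (M.res h2).st x y ↔ M.st x y := Iff.rfl

theorem JM.res_E (x y : T) : (M.res h2).E x y ↔ M.E x y := Iff.rfl

/-- the involution on the nodes -/
def JM.bn : (M.res h2).fg.N → (M.res h2).fg.N := h2.inv T

/-- the involution on the lines -/
def JM.bl : (M.res h2).fg.L → (M.res h2).fg.L := h2.inv Ed

theorem JM.bn_bn (x : (M.res h2).fg.N) : M.bn h2 (M.bn h2 x) = x := h2.inv_inv x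

theorem JM.bl_bl (x : (M.res h2).fg.L) : M.bl h2 (M.bl h2 x) = x := h2.inv_inv x

theorem JM.a_bl (q : (M.res h2).fg.L) : (M.res h2).fg.a (M.bl h2 q) = M.bn h2 ((M.res h2).fg.a q) := by
  obtain ⟨e, rfl⟩ := oq_surj q
  show oq ↥J (M.s (b • e)) = oq ↥J (b • M.s e)
  rw [M.hs]

theorem JM.b_bl (q : (M.res h2).fg.L) : (M.res h2).fg.b (M.bl h2 q) = M.bn h2 ((M.res h2).fg.b q) := by
  obtain ⟨e, rfl⟩ := oq_surj q
  show oq ↥J (M.t (b • e)) = oq ↥J (b • M.t e)
  rw [M.ht]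

/-- the projection of nodes -/
def JM.pn : (M.res h2).fg.N → M.fg.N :=
  olift (fun x => oq U x) (fun j x => oq_smul (J := U) j.1 x)

/-- the projection of lines -/
def JM.pl : (M.res h2).fg.L → M.fg.L :=
  olift (fun x => oq U x) (fun j x => oq_smul (J := U) j.1 x)

theorem JM.pn_surj : Function.Surjective (M.pn h2) := by
  intro q
  obtain ⟨x, rfl⟩ := oq_surj q
  exact ⟨oq ↥J x, rfl⟩

theorem JM.pl_surj : Function.Surjective (M.pl h2) := by
  intro q
  obtain ⟨x, rfl⟩ := oq_surj q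
  exact ⟨oq ↥J x, rfl⟩

theorem JM.pn_eq (p q : (M.res h2).fg.N) : M.pn h2 p = M.pn h2 q ↔ p = q ∨ q = M.bn h2 p := by
  obtain ⟨x, rfl⟩ := oq_surj p
  obtain ⟨y, rfl⟩ := oq_surj q
  exact h2.oq_U

theorem JM.pl_eq (p q : (M.res h2).fg.L) : M.pl h2 p = M.pl h2 q ↔ p = q ∨ q = M.bl h2 p := by
  obtain ⟨x, rfl⟩ := oq_surj p
  obtain ⟨y, rfl⟩ := oq_surj q
  exact h2.oq_U

theorem JM.a_pl (q : (M.res h2).fg.L) : M.fg.a (M.pl h2 q) = M.pn h2 ((M.res h2).fg.a q) := by
  obtain ⟨e, rfl⟩ := oq_surj q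
  rfl

theorem JM.b_pl (q : (M.res h2).fg.L) : M.fg.b (M.pl h2 q) = M.pn h2 ((M.res h2).fg.b q) := by
  obtain ⟨e, rfl⟩ := oq_surj q
  rfl

end

end Pool.Agent.DI
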