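import Pool.Agent.DI.Beta2
import Pool.Agent.DI.CutX
import Pool.Agent.DI.QFM2

/-!
# DI/Beta3: `Hom(H, ℚ)` is finite-dimensional for groups with a complex
-/

namespace Pool.Agent.DI

open MulAction
open Pool.Agent.SAF (InC FinOrb FinOrb_iff)

/-- a group with a complex has a finite-dimensional space of homomorphisms to `ℚ` -/
theorem GX.finite_hq {H V : Type} [Group H] [MulAction H V] (K : GX H V) :
    FiniteDimensional ℚ (Hq H) := by
  classical
  have hfin : Finite (orbitRel.Quotient H V) := finite_orb K.fin
  -- representatives of the orbits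
  let r : V → V := fun x => Quotient.out (Quotient.mk'' x : orbitRel.Quotient H V)
  have hr : ∀ x, ∃ g : H, g • r x = x := by
    intro x
    have h1 : (Quotient.mk'' (r x) : orbitRel.Quotient H V) = Quotient.mk'' x :=
      Quotient.out_eq' (s₁ := orbitRel H V) _
    have h2 : (orbitRel H V).r x (r x) := Quotient.exact h1.symm
    exact h2
  have hrr : ∀ x (h : H), r (h • x) = r x := by
    intro x h
    have : (Quotient.mk'' (h • x) : orbitRel.Quotient H V) = Quotient.mk'' x :=
      Quotient.sound (⟨h, rfl⟩ : (orbitRel H V).r (h • x) x)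
    show Quotient.out _ = Quotient.out _
    rw [this]
  choose g hg using hr
  have hs : ∀ q : orbitRel.Quotient H V, ∃ k : ↥(stabilizer H (Quotient.out q)),
      ∀ φ : Hq ↥(stabilizer H (Quotient.out q)), hv φ k = 0 → φ = 0 :=
    fun q => exists_inj_of_inC (K.stab _)
  choose k hk using hs
  obtain ⟨F, hF, -, hFc⟩ := FinOrb_iff.1 K.fin_ar
  have : Finite ↥F := hF.to_subtype
  -- the evaluation at finitely many elements
  let ev : Hq H →ₗ[ℚ] ((orbitRel.Quotient H V ⊕ ↥F) → ℚ) :=
    { toFun := fun φ s => match s with
        | Sum.inl q => hv φ (k q).1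
        | Sum.inr p => hv φ ((g p.1.1)⁻¹ * g p.1.2)
      map_add' := by
        intro φ ψ
        funext s
        cases s <;> rfl
      map_smul' := by
        intro c φ
        funext s
        cases s <;> rfl }
  have hz : ∀ φ : Hq H, ev φ = 0 → φ = 0 := by
    intro φ h0
    have h1 : ∀ (q : orbitRel.Quotient H V) (a : H), a ∈ stabilizer H (Quotient.out q) →
        hv φ a = 0 := by
      intro q a ha
      have e1 : hv φ (k q).1 = 0 := congrFun h0 (Sum.inl q)
      have e2 : resq (stabilizer H (Quotient.out q)) φ = 0 := hk q _ e1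
      have := congrArg (fun f : Hq ↥(stabilizer H (Quotient.out q)) => hv f ⟨a, ha⟩) e2
      exact this
    have h2 : ∀ (h : H) (x : V), hv φ (g (h • x)) = hv φ h + hv φ (g x) := by
      intro h x
      have e1 : ((g (h • x))⁻¹ * h * g x) ∈ stabilizer H (r x) := by
        rw [mem_stabilizer_iff, mul_smul, hg, mul_smul, inv_smul_eq_iff]
        have := hg (h • x)
        rw [hrr] at this
        exact this.symm
      have e2 := h1 _ _ e1
      rw [hv_mul, hv_mul, hv_inv] at e2
      linarith
    have h3 : ∀ x y, K.ar x y → hv φ (g x) = hv φ (g y) := by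
      intro x y e
      obtain ⟨p, hp, a, ha⟩ := hFc (x, y) e
      have ex : a • p.1 = x := congrArg Prod.fst ha
      have ey : a • p.2 = y := congrArg Prod.snd ha
      have e1 : hv φ ((g p.1)⁻¹ * g p.2) = 0 := congrFun h0 (Sum.inr ⟨p, hp⟩)
      rw [hv_mul, hv_inv] at e1
      rw [← ex, ← ey, h2, h2]
      linarith
    have h4 : ∀ x y, hv φ (g x) = hv φ (g y) := by
      intro x y
      have := K.conn x y
      induction this with
      | refl => rfl
      | tail _ e ih =>
        rcases e with e | e
        · exact ih.trans (h3 _ _ e)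
        · exact ih.trans (h3 _ _ e).symm
    apply hv_ext
    intro h
    rw [hv_zero]
    obtain ⟨x⟩ := K.ne
    have e1 := h2 h x
    have e2 := h4 (h • x) x
    linarith
  have hi : Function.Injective ev := by
    intro a b hab
    have h1 : ev (a - b) = 0 := by rw [map_sub, hab, sub_self]
    exact sub_eq_zero.1 (hz _ h1)
  exact FiniteDimensional.of_injective ev hi

end Pool.Agent.DI
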