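import Pool.Agent.DI.Beta2

/-!
# `beta` and splittings along finite groups

`resq_surj`: if all edge stabilisers are finite (or: all homomorphisms of the edge stabilisers vanish),
every homomorphism of a vertex stabiliser extends. `beta_cut`: `beta` does not rise. `beta_congr`.
-/

namespace Pool.Agent.DI

open MulAction

section

variable {X : Type} {H : Type} [Group H] [MulAction H X]

/-- a family which is given on one orbit only -/
theorem resq_surj {G : SimpleGraph X} (hG : G.IsTree)
    (hsm : ∀ (h : H) (x y : X), G.Adj x y → G.Adj (h • x) (h • y))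
    (hfin : ∀ x y, G.Adj x y → ∀ φ : Hq ↥(stabilizer H x ⊓ stabilizer H y), φ = 0) (w : X)
    (ψw : Hq ↥(stabilizer H w)) : ∃ φ : Hq H, resq (stabilizer H w) φ = ψw := by
  classical
  let ψ : X → H → ℚ := fun x a =>
    if hx : ∃ h : H, h • w = x then exq ψw (hx.choose⁻¹ * a * hx.choose) else 0
  have hw : ∀ (x : X) (k a : H), k • w = x → a • x = x → ψ x a = exq ψw (k⁻¹ * a * k) := by
    intro x k a hk ha
    have hx : ∃ h : H, h • w = x := ⟨k, hk⟩
    show (if hx : ∃ h : H, h • w = x then exq ψw (hx.choose⁻¹ * a * hx.choose) else _) = _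
    rw [dif_pos hx]
    exact fam_eq ψw hx.choose_spec hk ha
  have hu : ∀ (x : X) (a : H), (¬ ∃ h : H, h • w = x) → ψ x a = 0 := fun x a hx => dif_neg hx
  have hmul : ∀ x a b, a • x = x → b • x = x → ψ x (a * b) = ψ x a + ψ x b := by
    intro x a b ha hb
    have hab : (a * b) • x = x := by rw [mul_smul, hb, ha]
    by_cases hx : ∃ h : H, h • w = x
    · obtain ⟨k, hk⟩ := hx
      rw [hw x k _ hk hab, hw x k _ hk ha, hw x k _ hk hb]
      exact fam_mul ψw hk ha hb
    · rw [hu x _ hx, hu x _ hx, hu x _ hx, add_zero]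
  obtain ⟨φ, hφ⟩ := exists_hom hG hsm ψ hmul (by
    intro x h a ha
    have ha' : (h * a * h⁻¹) • h • x = h • x := by
      rw [mul_smul, inv_smul_smul, mul_smul, ha]
    by_cases hx : ∃ h : H, h • w = x
    · obtain ⟨k, hk⟩ := hx
      have hk' : (h * k) • w = h • x := by rw [mul_smul, hk]
      rw [hw _ (h * k) _ hk' ha', hw x k a hk ha]
      congr 1
      group
    · have hx' : ¬ ∃ k : H, k • w = h • x := by
        rintro ⟨k, hk⟩
        exact hx ⟨h⁻¹ * k, by rw [mul_smul, hk, inv_smul_smul]⟩
      rw [hu x _ hx, hu _ _ hx']) (by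
    intro x y e a ha hb
    have h0 := hfin x y e (mkHq (fun a : ↥(stabilizer H x ⊓ stabilizer H y) => ψ x a.1)
      (fun a b => hmul x a.1 b.1 a.2.1 b.2.1))
    have h1 := hfin x y e (mkHq (fun a : ↥(stabilizer H x ⊓ stabilizer H y) => ψ y a.1)
      (fun a b => hmul y a.1 b.1 a.2.2 b.2.2))
    have h2 := congrArg (fun f => hv f ⟨a, ha, hb⟩) h0
    have h3 := congrArg (fun f => hv f ⟨a, ha, hb⟩) h1
    simp only [hv_mk, hv_zero] at h2 h3
    rw [h2, h3])
  refine ⟨φ, hv_ext fun a => ?_⟩
  rw [hv_resq, hφ w a.1 a.2, hw w 1 a.1 (one_smul _ _) a.2, inv_one, one_mul, mul_one,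
    exq_of ψw a.2]

/-- splittings along finite groups do not raise `beta` -/
theorem beta_cut {G : SimpleGraph X} (hG : G.IsTree)
    (hsm : ∀ (h : H) (x y : X), G.Adj x y → G.Adj (h • x) (h • y))
    (hfin : ∀ x y, G.Adj x y → Finite ↥(stabilizer H x ⊓ stabilizer H y))
    [FiniteDimensional ℚ (Hq H)] (w : X) : beta ↥(stabilizer H w) ≤ beta H := by
  have hs : Function.Surjective (resq (stabilizer H w)) := by
    intro ψ
    exact resq_surj hG hsm (fun x y e φ => by
      have := hfin x y e
      exact hq_zero_of_finite φ) w ψ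
  exact LinearMap.finrank_le_finrank_of_surjective hs

/-- the pull back along a homomorphism -/
def pullq {A B : Type} [Group A] [Group B] (f : A →* B) : Hq B →ₗ[ℚ] Hq A where
  toFun φ := mkHq (fun a => hv φ (f a)) (fun a b => by rw [map_mul, hv_mul])
  map_add' _ _ := rfl
  map_smul' _ _ := rfl

theorem hv_pullq {A B : Type} [Group A] [Group B] (f : A →* B) (φ : Hq B) (a : A) :
    hv (pullq f φ) a = hv φ (f a) := rfl

theorem beta_congr {A B : Type} [Group A] [Group B] (e : A ≃* B) : beta A = beta B := by
  apply LinearEquiv.finrank_eq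
  exact
    { pullq e.symm.toMonoidHom with
      invFun := pullq e.toMonoidHom
      left_inv := by
        intro φ
        apply hv_ext
        intro a
        show hv φ (e.symm (e a)) = _
        rw [e.symm_apply_apply]
      right_inv := by
        intro φ
        apply hv_ext
        intro a
        show hv φ (e (e.symm a)) = _
        rw [e.apply_symm_apply] }

/-- a surjection -/
theorem beta_of_surj {A B : Type} [Group A] [Group B] (f : A →* B) (hf : Function.Surjective f)
    [FiniteDimensional ℚ (Hq A)] : beta B ≤ beta A := by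
  have hi : Function.Injective (pullq f) := by
    intro φ ψ h
    apply hv_ext
    intro b
    obtain ⟨a, rfl⟩ := hf b
    rw [← hv_pullq, h, hv_pullq]
  exact LinearMap.finrank_le_finrank_of_injective hi

end

end Pool.Agent.DI
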