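import Pool.Agent.DI.CutX

/-!
# DI/BetaS: characters `H → ℤ/2` which vanish on the stabilisers of all vertices

`K.Ch`: the set of these characters, `K.b2s` their number. It is finite, it does not increase when
one passes to a part (`SubGX`), nor under equivariant maps of the vertices (folds).
-/

namespace Pool.Agent.DI

open MulAction
open Pool.Agent.SAF (FinOrb_iff)

section

variable {H V : Type} [Group H] [MulAction H V]

/-- characters of `H` with values in `ℤ/2` which vanish on the stabilisers of all points -/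
def Chs (H V : Type) [Group H] [MulAction H V] : Set (H → ZMod 2) :=
  {ψ | (∀ a b, ψ (a * b) = ψ a + ψ b) ∧ ∀ (h : H) (v : V), h • v = v → ψ h = 0}

theorem zmod2_add_self (a : ZMod 2) : a + a = 0 := CharTwo.add_self_eq_zero a

theorem zmod2_eq_of_add {a b : ZMod 2} (h : a + b = 0) : a = b := by
  have := zmod2_add_self b
  have h2 : a + b = b + b := by rw [h, this]
  exact add_right_cancel h2

namespace Chs

theorem mul {ψ : H → ZMod 2} (h : ψ ∈ Chs H V) (a b : H) : ψ (a * b) = ψ a + ψ b := h.1 a b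

theorem one {ψ : H → ZMod 2} (h : ψ ∈ Chs H V) : ψ 1 = 0 := by
  have := h.1 1 1
  rw [mul_one] at this
  exact left_eq_add.1 this

theorem inv {ψ : H → ZMod 2} (h : ψ ∈ Chs H V) (a : H) : ψ a⁻¹ = ψ a := by
  have h1 := h.1 a⁻¹ a
  rw [inv_mul_cancel, Chs.one h] at h1
  exact zmod2_eq_of_add h1.symm

theorem zero : (0 : H → ZMod 2) ∈ Chs H V := ⟨fun _ _ => (add_zero 0).symm, fun _ _ _ => rfl⟩

/-- a primitive -/
theorem exists_prim {ψ : H → ZMod 2} (h : ψ ∈ Chs H V) :
    ∃ g : V → ZMod 2, ∀ (a : H) (v : V), g (a • v) = ψ a + g v := by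
  classical
  let r : V → V := fun x => Quotient.out (Quotient.mk'' x : orbitRel.Quotient H V)
  have hr : ∀ x, ∃ g : H, g • r x = x := by
    intro x
    have h1 : (Quotient.mk'' (r x) : orbitRel.Quotient H V) = Quotient.mk'' x :=
      Quotient.out_eq' (s₁ := orbitRel H V) _
    have h2 : (orbitRel H V).r x (r x) := Quotient.exact h1.symm
    exact h2
  have hrr : ∀ x (h : H), r (h • x) = r x := by
    intro x h
    have : (Quotient.mk'' (h • x) : orbitRel.Quotient H V) = Quotient.mk'' x :=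
      Quotient.sound (⟨h, rfl⟩ : (orbitRel H V).r (h • x) x)
    show Quotient.out _ = Quotient.out _
    rw [this]
  choose k hk using hr
  refine ⟨fun x => ψ (k x), fun a v => ?_⟩
  have h1 : ((k (a • v))⁻¹ * (a * k v)) • r v = r v := by
    rw [mul_smul, mul_smul, hk, inv_smul_eq_iff]
    have := hk (a • v)
    rw [hrr] at this
    exact this.symm
  have h2 := h.2 _ _ h1
  rw [h.1, Chs.inv h, h.1] at h2
  exact zmod2_eq_of_add h2

end Chs

namespace GX

variable (K : GX H V)

/-- characters of `H` with values in `ℤ/2` which vanish on the stabilisers of all vertices -/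
def Ch (_ : GX H V) : Set (H → ZMod 2) := Chs H V

/-- the number of characters which vanish on the stabilisers of all vertices -/
noncomputable def b2s (K : GX H V) : ℕ := Nat.card ↥K.Ch

/-- connectedness -/
theorem const_of_E {α : Type*} {f : V → α} (h : ∀ x y, K.E x y → f x = f y) (x y : V) :
    f x = f y := by
  induction K.conn x y with
  | refl => rfl
  | tail _ e ih => exact ih.trans (h _ _ e)

/-- there are finitely many such characters -/
theorem finite_Ch : Finite ↥K.Ch := by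
  classical
  obtain ⟨F, hF, -, hc⟩ := FinOrb_iff.1 K.fin_E
  have : Finite F := hF
  choose g hg using fun ψ : ↥K.Ch => Chs.exists_prim (V := V) ψ.2
  have hinv : ∀ (ψ : ↥K.Ch) (a : H) (x y : V), g ψ (a • x) + g ψ (a • y) = g ψ x + g ψ y := by
    intro ψ a x y
    rw [hg, hg]
    have := zmod2_add_self (ψ.1 a)
    linear_combination this
  refine Finite.of_injective (β := F → ZMod 2) (fun ψ p => g ψ p.1.1 + g ψ p.1.2) ?_
  intro ψ ψ' e
  have h1 : ∀ x y, K.E x y → g ψ x + g ψ y = g ψ' x + g ψ' y := by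
    intro x y exy
    obtain ⟨r, hr, a, ha⟩ := hc (x, y) exy
    have e2 : g ψ r.1 + g ψ r.2 = g ψ' r.1 + g ψ' r.2 := congrFun e ⟨r, hr⟩
    have ex : x = a • r.1 := (congrArg Prod.fst ha).symm
    have ey : y = a • r.2 := (congrArg Prod.snd ha).symm
    rw [ex, ey, hinv, hinv, e2]
  have h2 : ∀ x y, g ψ x + g ψ' x = g ψ y + g ψ' y := by
    refine K.const_of_E ?_
    intro x y exy
    have h3 := h1 x y exy
    have a1 := zmod2_add_self (g ψ y)
    have a2 := zmod2_add_self (g ψ' x)
    linear_combination h3 - a1 + a2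
  apply Subtype.ext
  funext a
  obtain ⟨v⟩ := K.ne
  have h3 := h2 (a • v) v
  rw [hg, hg] at h3
  apply zmod2_eq_of_add
  have a1 := zmod2_add_self (g ψ v)
  have a2 := zmod2_add_self (g ψ' v)
  linear_combination h3

theorem b2s_pos : 0 < K.b2s := by
  have := K.finite_Ch
  have : Nonempty ↥K.Ch := ⟨⟨0, Chs.zero⟩⟩
  exact Nat.card_pos

end GX

/-- extension of characters gives an inequality -/
theorem b2s_le_of_ext {H' V' H V : Type} [Group H'] [MulAction H' V'] [Group H] [MulAction H V]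
    {K' : GX H' V'} {K : GX H V} (φ : H' → H)
    (hext : ∀ ψ' ∈ K'.Ch, ∃ ψ ∈ K.Ch, ∀ h, ψ (φ h) = ψ' h) : K'.b2s ≤ K.b2s := by
  have := K.finite_Ch
  choose f hf hf2 using hext
  refine Nat.card_le_card_of_injective (fun ψ : ↥K'.Ch => (⟨f ψ.1 ψ.2, hf _ _⟩ : ↥K.Ch)) ?_
  intro ψ ψ' e
  apply Subtype.ext
  funext h
  have e2 : f ψ.1 ψ.2 = f ψ'.1 ψ'.2 := congrArg Subtype.val e
  rw [← hf2 ψ.1 ψ.2 h, ← hf2 ψ'.1 ψ'.2 h, e2]

/-- strict form: some character different from zero is killed -/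
theorem b2s_lt_of_ext {H' V' H V : Type} [Group H'] [MulAction H' V'] [Group H] [MulAction H V]
    {K' : GX H' V'} {K : GX H V} (φ : H' → H)
    (hext : ∀ ψ' ∈ K'.Ch, ∃ ψ ∈ K.Ch, ∀ h, ψ (φ h) = ψ' h)
    (hχ : ∃ χ ∈ K.Ch, χ ≠ 0 ∧ ∀ h, χ (φ h) = 0) : K'.b2s < K.b2s := by
  have hfin := K.finite_Ch
  have hfin' := K'.finite_Ch
  refine lt_of_le_of_ne (b2s_le_of_ext φ hext) ?_
  intro hcard
  choose f hf hf2 using hext
  let s : ↥K'.Ch → ↥K.Ch := fun ψ => ⟨f ψ.1 ψ.2, hf _ _⟩
  have hs : Function.Injective s := by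
    intro ψ ψ' e
    apply Subtype.ext
    funext h
    have e2 : f ψ.1 ψ.2 = f ψ'.1 ψ'.2 := congrArg Subtype.val e
    rw [← hf2 ψ.1 ψ.2 h, ← hf2 ψ'.1 ψ'.2 h, e2]
  have hb : Function.Bijective s := by
    rw [Nat.bijective_iff_injective_and_card]
    exact ⟨hs, hcard⟩
  obtain ⟨χ, hχ1, hχ2, hχ3⟩ := hχ
  obtain ⟨a, ha⟩ := hb.2 ⟨χ, hχ1⟩
  obtain ⟨b, hb'⟩ := hb.2 ⟨0, Chs.zero⟩
  have e1 : f a.1 a.2 = χ := congrArg Subtype.val ha
  have e2 : f b.1 b.2 = 0 := congrArg Subtype.val hb'
  have e3 : a = b := by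
    apply Subtype.ext
    funext h
    rw [← hf2 a.1 a.2 h, ← hf2 b.1 b.2 h, e1, e2, hχ3]
    rfl
  apply hχ2
  rw [← e1, e3, e2]

/-- folds (the same group, an equivariant map of the vertices) -/
theorem b2s_le_of_map {H V V' : Type} [Group H] [MulAction H V] [MulAction H V']
    {K' : GX H V'} {K : GX H V} (f : V → V') (hf : ∀ (h : H) v, f (h • v) = h • f v) :
    K'.b2s ≤ K.b2s := by
  refine b2s_le_of_ext (fun h => h) (fun ψ' h' => ⟨ψ', ⟨h'.1, fun h v hv => ?_⟩, fun _ => rfl⟩)
  exact h'.2 h (f v) (by rw [← hf, hv])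

end

namespace SubGX

variable {H' V' H V : Type} [Group H'] [MulAction H' V'] [Group H] [MulAction H V]
  {K' : GX H' V'} {K : GX H V}

/-- characters of a part extend -/
theorem ch_ext (S : SubGX K' K) {ψ' : H' → ZMod 2} (hψ : ψ' ∈ K'.Ch) :
    ∃ ψ ∈ K.Ch, ∀ h, ψ (S.φ h) = ψ' h := by
  classical
  obtain ⟨g', hg'⟩ := Chs.exists_prim (V := V') hψ
  have hinv : ∀ (a : H') (x y : V'), g' (a • x) + g' (a • y) = g' x + g' y := by
    intro a x y
    rw [hg', hg']
    have := zmod2_add_self (ψ' a)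
    linear_combination this
  -- extension by zero
  let Q : V → V → ZMod 2 → Prop := fun x y c => ∃ (h : H) (x' y' : V'), K'.E x' y' ∧
    x = h • S.f x' ∧ y = h • S.f y' ∧ c = g' x' + g' y'
  have hQ : ∀ {x y c c'}, Q x y c → Q x y c' → c = c' := by
    rintro x y c c' ⟨h, a, b, e, rfl, rfl, rfl⟩ ⟨k, a', b', e', h1, h2, rfl⟩
    have e1 : (k⁻¹ * h) • S.f a = S.f a' := by rw [mul_smul, h1, inv_smul_smul]
    have e2 : (k⁻¹ * h) • S.f b = S.f b' := by rw [mul_smul, h2, inv_smul_smul]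
    obtain ⟨j, hj⟩ := S.edge a b a' b' _ e e' e1 e2
    rw [← hj, ← S.f_smul] at e1 e2
    rw [← S.f_inj e1, ← S.f_inj e2, hinv]
  let φ : V → V → ZMod 2 := fun x y => if h : ∃ c, Q x y c then h.choose else 0
  have hφ : ∀ {x y c}, Q x y c → φ x y = c := by
    intro x y c h
    have hx : ∃ c, Q x y c := ⟨c, h⟩
    show (if h : ∃ c, Q x y c then h.choose else 0) = c
    rw [dif_pos hx]
    exact hQ hx.choose_spec h
  have hφ0 : ∀ {x y}, (¬ ∃ c, Q x y c) → φ x y = 0 := fun h => dif_neg h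
  have Qsymm : ∀ {x y c}, Q x y c → Q y x c := by
    rintro x y c ⟨h, a, b, e, h1, h2, rfl⟩
    exact ⟨h, b, a, e.symm, h2, h1, add_comm _ _⟩
  have Qsmul : ∀ {x y c} (k : H), Q x y c → Q (k • x) (k • y) c := by
    rintro x y c k ⟨h, a, b, e, rfl, rfl, rfl⟩
    exact ⟨k * h, a, b, e, (mul_smul _ _ _).symm, (mul_smul _ _ _).symm, rfl⟩
  have φsymm : ∀ x y, φ x y = φ y x := by
    intro x y
    by_cases h : ∃ c, Q x y c
    · obtain ⟨c, h⟩ := h
      rw [hφ h, hφ (Qsymm h)]
    · have h' : ¬ ∃ c, Q y x c := fun ⟨c, hc⟩ => h ⟨c, Qsymm hc⟩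
      rw [hφ0 h, hφ0 h']
  have φsmul : ∀ (k : H) x y, φ (k • x) (k • y) = φ x y := by
    intro k x y
    by_cases h : ∃ c, Q x y c
    · obtain ⟨c, h⟩ := h
      rw [hφ h, hφ (Qsmul k h)]
    · have h' : ¬ ∃ c, Q (k • x) (k • y) c := by
        rintro ⟨c, hc⟩
        apply h
        have := Qsmul k⁻¹ hc
        rw [inv_smul_smul, inv_smul_smul] at this
        exact ⟨c, this⟩
      rw [hφ0 h, hφ0 h']
  have φf : ∀ {a b : V'}, K'.E a b → φ (S.f a) (S.f b) = g' a + g' b := fun {a b} e =>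
    hφ ⟨1, a, b, e, (one_smul _ _).symm, (one_smul _ _).symm, rfl⟩
  -- sums over the cells
  have hcell : ∀ (i : K.I) (h : H), ps φ (K.tb i h) (K.tw i h) = 0 := by
    intro i h
    by_cases hx : ∃ (k : H) (x y : V'), K'.E x y ∧
        Cn2 (k • S.f x) (k • S.f y) (K.tb i h) (K.tw i h)
    · obtain ⟨k, x, y, e, hc⟩ := hx
      -- translate by `k⁻¹`
      have e1 : K.tb i (k⁻¹ * h) = k⁻¹ • K.tb i h := by
        unfold GX.tb
        rw [mul_smul]
      have e2 : K.tw i (k⁻¹ * h) = (K.tw i h).map (fun z => k⁻¹ • z) := by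
        unfold GX.tw
        rw [List.map_map]
        apply List.map_congr_left
        intro z _
        exact mul_smul _ _ _
      have hc2 : Cn2 (S.f x) (S.f y) (K.tb i (k⁻¹ * h)) (K.tw i (k⁻¹ * h)) := by
        rw [e1, e2]
        have := hc.map (fun z => k⁻¹ • z)
        simp only [inv_smul_smul] at this
        exact this
      obtain ⟨i', h', -, h3, h4⟩ := S.back i _ x y e hc2
      have h5 : ps φ (K.tb i (k⁻¹ * h)) (K.tw i (k⁻¹ * h)) = 0 := by
        rw [← h3, ← h4, ps_map]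
        have hw := K'.tw_E i' h'
        rw [ps_cob (E := K'.E) (g := g') (fun a b e => φf e) hw, K'.tw_tg]
        exact zmod2_add_self _
      rw [e1, e2, ps_map] at h5
      have h6 : (fun a b => φ (k⁻¹ • a) (k⁻¹ • b)) = φ := by
        funext a b
        exact φsmul _ _ _
      rwa [h6] at h5
    · have h0 : ∀ (l : List V) (x : V), (∀ a b, Cn2 a b x l → φ a b = 0) → ps φ x l = 0 := by
        intro l
        induction l with
        | nil => intro x _; rfl
        | cons y l ih =>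
          intro x hh
          rw [ps_cons, hh x y (Or.inl ⟨rfl, rfl⟩), ih y (fun a b hab => hh a b (Or.inr hab)),
            add_zero]
      apply h0
      intro a b hab
      apply hφ0
      rintro ⟨c, k, x, y, e, rfl, rfl, -⟩
      exact hx ⟨k, x, y, e, hab⟩
  obtain ⟨g, hg⟩ := K.H1 φ φsymm (fun i h => hcell i h)
  have hEg : ∀ x y, K.E x y → φ x y = g x + g y := hg
  have hconst : ∀ (a : H) (x y : V), g (a • x) + g x = g (a • y) + g y := by
    intro a
    refine K.const_of_E ?_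
    intro x y e
    have h1 := hEg _ _ e
    have h2 := hEg _ _ (K.E_smul a e)
    rw [φsmul, h1] at h2
    have a1 := zmod2_add_self (g x)
    have a2 := zmod2_add_self (g (a • y))
    have a3 := zmod2_add_self (g (a • x))
    have a4 := zmod2_add_self (g y)
    linear_combination h2 + a3 - a4
  obtain ⟨v'⟩ := K'.ne
  refine ⟨fun a => g (a • S.f v') + g (S.f v'), ⟨?_, ?_⟩, ?_⟩
  · intro a b
    show g ((a * b) • S.f v') + g (S.f v') = (g (a • S.f v') + g (S.f v')) +
      (g (b • S.f v') + g (S.f v'))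
    have h1 := hconst a (b • S.f v') (S.f v')
    rw [mul_smul]
    have a1 := zmod2_add_self (g (b • S.f v'))
    linear_combination h1 - a1
  · intro h v hv
    show g (h • S.f v') + g (S.f v') = 0
    rw [hconst h (S.f v') v, hv]
    exact zmod2_add_self _
  · intro h
    show g (S.φ h • S.f v') + g (S.f v') = ψ' h
    have hc : ∀ x y : V', g (S.f x) + g' x = g (S.f y) + g' y := by
      refine K'.const_of_E ?_
      intro x y e
      have h1 := hEg _ _ (S.E_iff.1 e)
      rw [φf e] at h1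
      have a1 := zmod2_add_self (g (S.f y))
      have a2 := zmod2_add_self (g' x)
      linear_combination a2 - h1 - a1
    have h2 := hc (h • v') v'
    rw [S.f_smul, hg'] at h2
    have a1 := zmod2_add_self (g (S.f v'))
    have a2 := zmod2_add_self (g' v')
    have a3 := zmod2_add_self (ψ' h)
    linear_combination h2 + a1 - a2 - a3 + a2

/-- the number of characters does not increase when one passes to a part -/
theorem b2s_le (S : SubGX K' K) : K'.b2s ≤ K.b2s :=
  b2s_le_of_ext S.φ (fun _ h => S.ch_ext h)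

end SubGX

end Pool.Agent.DI
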