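import Pool.Agent.DI.BndE

/-!
# The pole excess by walks and by positions (owner: helper79)

`P.FZ`: the flags which are strands of squares. In a state (`hs : P.SqT`): `oc_FZ : oc P.FZ = 2 * # tops`,
`oc_ZP : oc P.ZP = oc P.TA` (the walks `n → T → a` of squares and the arrows of tops),
`oc_strs : oc K.strs = oc P.FS + oc P.FZ` and `pexc_eq : K.pexc = P.wexc + oc P.spT`.
-/

namespace Pool.Agent.DI

open MulAction
open Pool.Agent.SAF (InC orbs FinOrb oc mk_eq_iff FinOrb_iff oc_mono oc_le_of_inj oc_le_of_rel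
  oc_le_of_surj)

namespace P45

variable {H V : Type} [Group H] [MulAction H V] {K : GX H V} (P : P45 K)

/-- the next flag -/
def rf (f : FL K) : FL K := (if f.2 = true then K.nx f.1 else K.pv f.1, f.2)

/-- the reversed flag -/
def vf (f : FL K) : FL K := (f.1, !f.2)

/-- the strands of the squares -/
def FZ : Set (FL K) := {f | f ∈ P.RQ ∧ K.ar (fx f) (fy f)}

/-- the flags at the direct corners of the squares -/
def FY : Set (FL K) := {f | f ∈ P.RQ ∧ ¬ K.ar (fx f) (fy f)}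

variable {P}

theorem rf_smul (h : H) (f : FL K) : rf (h • f) = h • rf f := by
  obtain ⟨e, b⟩ := f
  cases b <;> rfl

theorem vf_smul (h : H) (f : FL K) : vf (h • f) = h • vf f := rfl

theorem rf_vf_rf (f : FL K) : rf (vf (rf f)) = vf f := by
  obtain ⟨e, b⟩ := f
  cases b
  · exact Prod.ext (K.nx_pv e) rfl
  · exact Prod.ext (K.pv_nx e) rfl

theorem vf_vf (f : FL K) : vf (vf f) = f := by
  obtain ⟨e, b⟩ := f
  cases b <;> rfl

theorem vf_inj {f g : FL K} (h : vf f = vf g) : f = g := by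
  rw [← vf_vf f, h, vf_vf]

theorem rf_inj {f g : FL K} (h : rf f = rf g) : f = g := by
  apply vf_inj
  rw [← rf_vf_rf f, h, rf_vf_rf]

theorem fy_rf (f : FL K) : fy (rf f) = fz f := by
  obtain ⟨e, b⟩ := f
  cases b
  · exact K.c1_pv e
  · exact K.c1_nx e

theorem fx_rf (f : FL K) : fx (rf f) = fy f := by
  obtain ⟨e, b⟩ := f
  cases b
  · exact K.c2_pv e
  · exact K.c0_nx e

theorem fy_vf (f : FL K) : fy (vf f) = fy f := rfl

theorem fx_vf (f : FL K) : fx (vf f) = fz f := by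
  obtain ⟨e, b⟩ := f
  cases b <;> rfl

theorem fz_vf (f : FL K) : fz (vf f) = fx f := by
  obtain ⟨e, b⟩ := f
  cases b <;> rfl

theorem sq_rf {f : FL K} : P.sq (rf f).1.1.1 ↔ P.sq f.1.1.1 := by
  obtain ⟨e, b⟩ := f
  cases b <;> exact Iff.rfl

theorem sq_vf {f : FL K} : P.sq (vf f).1.1.1 ↔ P.sq f.1.1.1 := Iff.rfl

theorem rf4 {f : FL K} (h : P.sq f.1.1.1) : rf (rf (rf (rf f))) = f := by
  obtain ⟨e, b⟩ := f
  have hl := P.len4 h
  cases b
  · exact Prod.ext (K.pv_len e hl) rfl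
  · exact Prod.ext (K.nx_len e hl) rfl

theorem fz_rf2 {f : FL K} (h : P.sq f.1.1.1) : fz (rf (rf f)) = fx f := by
  have h1 := congrArg fx (rf4 h)
  rw [fx_rf, fy_rf] at h1
  exact h1

/-- the walk of a flag of a square -/
theorem fl_Q4' {f : FL K} (h : P.sq f.1.1.1) : Q4 P (fx f) (fy f) (fz f) (fz (rf f)) := by
  obtain ⟨⟨⟨i, j⟩, g⟩, b⟩ := f
  have h : P.sq i := h
  have hl := P.ln4 h
  have hm : ∀ m, m % 4 < 4 := fun m => Nat.mod_lt _ (by norm_num)
  have k := Q4_qt (P := P) g h ⟨j.1 % 4, hm _⟩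
  have e0 : K.c0 ((⟨i, j⟩, g) : K.LE) = g • P.qt i ⟨j.1 % 4, hm _⟩ :=
    congrArg (g • ·) (P.vx4n h _ _ rfl)
  have e1 : K.c1 ((⟨i, j⟩, g) : K.LE) = g • P.qt i (⟨j.1 % 4, hm _⟩ + 1) := by
    refine congrArg (g • ·) (P.vx4n h _ _ ?_)
    show (j.1 + 1) % 4 = (j.1 % 4 + 1) % 4
    omega
  have e2 : K.c2 ((⟨i, j⟩, g) : K.LE) = g • P.qt i (⟨j.1 % 4, hm _⟩ + 2) := by
    refine congrArg (g • ·) (P.vx4n h _ _ ?_)
    show (j.1 + 2) % 4 = (j.1 % 4 + 2) % 4
    omega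
  have e3 : g • K.vx i (j.1 + 3) = g • P.qt i (⟨j.1 % 4, hm _⟩ + 3) := by
    refine congrArg (g • ·) (P.vx4n h _ _ ?_)
    show (j.1 + 3) % 4 = (j.1 % 4 + 3) % 4
    omega
  rw [← e0, ← e1, ← e2, ← e3] at k
  cases b
  · have e4 : fz (rf (((⟨i, j⟩, g) : K.LE), false)) = g • K.vx i (j.1 + 3) := by
      show g • K.vx i ((j.1 + (K.len i - 1)) % K.len i) = _
      have h3 : K.len i - 1 = 3 := by omega
      rw [K.vx_mod, h3]
    rw [e4]
    exact k.symm
  · have e4 : fz (rf (((⟨i, j⟩, g) : K.LE), true)) = g • K.vx i (j.1 + 3) := by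
      show g • K.vx i ((j.1 + 1) % K.len i + 2) = _
      rw [K.vx_modadd]
    rw [e4]
    exact k

/-! ### strands of squares -/

/-- the direct corner of a square is its top -/
theorem FY_Top {f : FL K} (hf : f ∈ P.FY) : P.Top (fy f) (fz f) (fx f) (fz (rf f)) := by
  obtain ⟨⟨h1, h2⟩, h3⟩ := hf
  exact ⟨(fl_Q4' h1).symm, h2, (fl_E1 f).resolve_right h3⟩

theorem fin_FY : FinOrb H P.FY := fin_FL.mono (Set.subset_univ _)

theorem fin_FZ : FinOrb H P.FZ := fin_FL.mono (Set.subset_univ _)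

theorem FY_le_FZ (hs : P.SqT) : oc H P.FY ≤ oc H P.FZ := by
  refine oc_le_of_rel fin_FZ (fun f g => (g = rf f ∧ K.ar (fz f) (fz (rf f))) ∨
    (g = vf (rf (rf f)) ∧ K.ar (fz (rf f)) (fz f))) ?_ ?_
  · intro f hf
    have k := FY_Top hf
    have hq := hf.1.1
    by_cases ha : K.ar (fz f) (fz (rf f))
    · refine ⟨rf f, ⟨⟨sq_rf.2 hq, ?_⟩, ?_⟩, Or.inl ⟨rfl, ha⟩⟩
      · rw [fy_rf]
        exact ha
      · rw [fx_rf, fy_rf]
        exact hf.1.2
    · have hb : K.ar (fx f) (fz (rf f)) :=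
        ((hs.side _ _ _ _ k).resolve_left id).resolve_left ha
      have ha' : K.ar (fz (rf f)) (fz f) := k.Ea.resolve_left ha
      refine ⟨vf (rf (rf f)), ⟨⟨?_, ?_⟩, ?_⟩, Or.inr ⟨rfl, ha'⟩⟩
      · exact sq_vf.2 (sq_rf.2 (sq_rf.2 hq))
      · rw [fy_vf, fz_vf, fx_rf, fy_rf, fy_rf]
        exact ha'
      · rw [fx_vf, fy_vf, fz_rf2 hq, fy_rf]
        exact hb
  · rintro f hf f' hf' g - g' - r r' ⟨h, e⟩
    have key : ∀ (f f' : FL K), f ∈ P.FY → f' ∈ P.FY → ∀ h : H, h • rf f = vf (rf (rf f')) →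
        False := by
      intro f f' hf hf' h e
      have e1 : h • rf (rf f) = vf (rf f') := by
        rw [← rf_smul, e, rf_vf_rf]
      have e2 : h • rf (rf (rf f)) = vf f' := by
        rw [← rf_smul, e1, rf_vf_rf]
      have a1 : h • fy f = fx f' := by
        have := congrArg fx e
        rw [fx_smul, fx_rf, fx_vf, fz_rf2 hf'.1.1] at this
        exact this
      have a2 : h • fx f = fy f' := by
        have := congrArg fy e2
        rw [fy_smul, fy_rf, fz_rf2 hf.1.1, fy_vf] at this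
        exact this
      have h1 := K.ar_smul h _ _ (FY_Top hf).2.2
      rw [a1, a2] at h1
      exact GX.not_both' h1 (FY_Top hf').2.2
    rcases r with ⟨rfl, k⟩ | ⟨rfl, k⟩ <;> rcases r' with ⟨rfl, k'⟩ | ⟨rfl, k'⟩
    · rw [← rf_smul] at e
      exact ⟨h, rf_inj e⟩
    · exact (key f f' hf hf' h e).elim
    · refine (key f' f hf' hf h⁻¹ ?_).elim
      rw [← e, inv_smul_smul]
    · rw [← vf_smul, ← rf_smul, ← rf_smul] at e
      exact ⟨h, rf_inj (rf_inj (vf_inj e))⟩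

theorem oc_FZ_FY : oc H P.FZ + oc H P.FY = oc H P.RQ := by
  have h := oc_split (G := H) (fin_RQ (P := P)) (fun f => K.ar (fx f) (fy f))
    (fun g f _ _ k => by
      show K.ar (fx (g • f)) (fy (g • f))
      rw [fx_smul, fy_smul]
      exact K.ar_smul g _ _ k)
  exact h.symm

/-- THE STRANDS OF THE SQUARES by positions -/
theorem oc_FZ (hs : P.SqT) : oc H P.FZ = 2 * oc H P.tops := by
  have h1 : 2 * oc H P.tops ≤ oc H P.FY := two_tops_le (P := P)
  have h2 := FY_le_FZ hs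
  have h3 := oc_FZ_FY (P := P)
  have h4 := oc_RQ_le (P := P)
  have h5 := card_sq_le hs
  omega

/-- the number of the listed squares -/
theorem card_sq (hs : P.SqT) : Nat.card {i : K.I // P.sq i} = oc H P.tops := by
  have h1 : 2 * oc H P.tops ≤ oc H P.FY := two_tops_le (P := P)
  have h2 := FY_le_FZ hs
  have h3 := oc_FZ_FY (P := P)
  have h4 := oc_RQ_le (P := P)
  have h5 := card_sq_le hs
  omega

theorem oc_FY (hs : P.SqT) : oc H P.FY = 2 * oc H P.tops := by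
  have h1 : 2 * oc H P.tops ≤ oc H P.FY := two_tops_le (P := P)
  have h2 := FY_le_FZ hs
  have h3 := oc_FZ hs
  omega

/-- THE STRANDS OF THE SQUARES by walks -/
theorem oc_ZP (hs : P.SqT) : oc H P.ZP = oc H P.TA := by
  refine le_antisymm (oc_ZP_le hs) ?_
  refine oc_le_of_rel fin_ZP (fun p z => ∃ b y, P.Top p.1 p.2 b y ∧
    ((z = ((p.2, y), (b, p.1)) ∧ K.ar p.2 y) ∨
      (z = ((y, p.2), (p.1, b)) ∧ K.ar b y ∧ K.ar y p.2))) ?_ ?_
  · rintro ⟨T, a⟩ ⟨b, y, k⟩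
    have k : P.Top T a b y := k
    by_cases ha : K.ar a y
    · exact ⟨((a, y), (b, T)), ⟨k.1.symm.rot, ha, k.2.1⟩, b, y, k,
        Or.inl ⟨rfl, ha⟩⟩
    · have hb : K.ar b y := ((hs.side _ _ _ _ k).resolve_left id).resolve_left ha
      have ha' : K.ar y a := k.Ea.resolve_left ha
      exact ⟨((y, a), (T, b)), ⟨k.1.rot.rot, ha', hb⟩, b, y, k, Or.inr ⟨rfl, hb, ha'⟩⟩
  · rintro ⟨T, a⟩ - ⟨T', a'⟩ - z - z' - ⟨b, y, k, r⟩ ⟨b', y', k', r'⟩ ⟨h, e⟩
    have k : P.Top T a b y := k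
    have k' : P.Top T' a' b' y' := k'
    rcases r with ⟨rfl, -⟩ | ⟨rfl, -⟩ <;> rcases r' with ⟨rfl, -⟩ | ⟨rfl, -⟩
    · exact ⟨h, Prod.ext (congrArg (fun z => z.2.2) e) (congrArg (fun z => z.1.1) e)⟩
    · exfalso
      have a1 : h • T = b' := congrArg (fun z => z.2.2) e
      have a2 : h • b = T' := congrArg (fun z => z.2.1) e
      have h1 := K.ar_smul h _ _ k.2.2
      rw [a1, a2] at h1
      exact GX.not_both' h1 k'.2.2
    · exfalso
      have a1 : h • T = b' := congrArg (fun z => z.2.1) e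
      have a2 : h • b = T' := congrArg (fun z => z.2.2) e
      have h1 := K.ar_smul h _ _ k.2.2
      rw [a1, a2] at h1
      exact GX.not_both' h1 k'.2.2
    · exact ⟨h, Prod.ext (congrArg (fun z => z.2.1) e) (congrArg (fun z => z.1.2) e)⟩

/-! ### the pole excess -/

/-- the strands by positions -/
theorem oc_strs : oc H K.strs = oc H P.FS + oc H P.FZ := by
  have hf : FinOrb H {f : FL K | K.ar (fx f) (fy f) ∧ K.ar (fy f) (fz f)} :=
    fin_FL.mono (Set.subset_univ _)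
  have h1 : oc H {f : FL K | K.ar (fx f) (fy f) ∧ K.ar (fy f) (fz f)} = oc H K.strs := by
    refine oc_bij hf K.fin_strs ?_ (fun f : FL K => f.1) (fun h f _ => rfl) ?_ ?_ ?_
    · rintro h f ⟨k1, k2⟩
      show K.ar (fx (h • f)) (fy (h • f)) ∧ K.ar (fy (h • f)) (fz (h • f))
      rw [fx_smul, fy_smul, fz_smul]
      exact ⟨K.ar_smul h _ _ k1, K.ar_smul h _ _ k2⟩
    · rintro ⟨e, c⟩ ⟨k1, k2⟩
      cases c
      · exact Or.inr ⟨k1, k2⟩
      · exact Or.inl ⟨k1, k2⟩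
    · rintro e (⟨k1, k2⟩ | ⟨k1, k2⟩)
      · exact ⟨(e, true), ⟨k1, k2⟩, rfl⟩
      · exact ⟨(e, false), ⟨k1, k2⟩, rfl⟩
    · rintro ⟨e, c⟩ ⟨k1, k2⟩ ⟨e', c'⟩ ⟨k1', k2'⟩ h
      have h : e = e' := h
      subst h
      cases c <;> cases c'
      · rfl
      · exact absurd (show K.ar (K.c1 e) (K.c2 e) from k2') (GX.not_both' k1)
      · exact absurd (show K.ar (K.c1 e) (K.c0 e) from k2') (GX.not_both' k1)
      · rfl
  have h2 := oc_split (G := H) hf (fun f => P.sq f.1.1.1) (fun g f _ _ k => k)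
  have e1 : {f : FL K | f ∈ {f : FL K | K.ar (fx f) (fy f) ∧ K.ar (fy f) (fz f)} ∧
      P.sq f.1.1.1} = P.FZ := by
    ext f
    exact ⟨fun k => ⟨⟨k.2, k.1.2⟩, k.1.1⟩, fun k => ⟨⟨k.2, k.1.2⟩, k.1.1⟩⟩
  have e2 : {f : FL K | f ∈ {f : FL K | K.ar (fx f) (fy f) ∧ K.ar (fy f) (fz f)} ∧
      ¬ P.sq f.1.1.1} = P.FS := by
    ext f
    exact ⟨fun k => ⟨⟨k.2, k.1.2⟩, k.1.1⟩, fun k => ⟨⟨k.2, k.1.2⟩, k.1.1⟩⟩
  rw [e1, e2] at h2
  omega

/-- THE POLE EXCESS BY POSITIONS AND BY WALKS -/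
theorem pexc_eq (hs : P.SqT) : K.pexc = P.wexc + oc H P.spT := by
  have h1 := oc_strs (P := P)
  have h2 := oc_FZ hs
  have h3 := oc_ZP hs
  have h4 := oc_TA_spT hs
  unfold GX.pexc wexc
  omega

end P45

end Pool.Agent.DI
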