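import Pool.Agent.DI.Psv
import Pool.Agent.DI.ExcW

/-!
# The two definitions of special tops, the bound of `P.exc`
-/

namespace Pool.Agent.DI

open MulAction
open Pool.Agent.SAF (InC orbs FinOrb oc)

namespace P45

variable {H V : Type} [Group H] [MulAction H V] {K : GX H V} {P : P45 K}

/-- the special tops of `Psv` are the special tops of `BndE` -/
theorem sSp_eq {E : V → Prop} (hs : P.SqE E) : P.sSp = P.spT := by
  ext T
  constructor
  · rintro ⟨⟨a, b, y, k⟩, h, hT, c, hc, hne⟩
    refine ⟨a, b, y, k, h, hT, ?_⟩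
    have h1 := K.ar_smul h _ _ k.2.1
    have h2 := K.ar_smul h _ _ k.2.2
    rw [hT] at h1 h2
    rcases hs.sides k h1 with e | e
    · exfalso
      rcases hs.sides k hc with rfl | rfl
      · exact hne e
      · rcases hs.sides k h2 with e' | e'
        · exact hs.nab _ _ _ _ k (smul_left_cancel h (e.trans e'.symm))
        · exact hne e'
    · exact e
  · rintro ⟨a, b, y, k, h, hT, hb⟩
    exact ⟨⟨a, b, y, k⟩, h, hT, a, k.2.1, fun e => hs.nab _ _ _ _ k (e.symm.trans hb)⟩

theorem nSp_eq {E : V → Prop} (hs : P.SqE E) : P.nSp = oc H P.spT := by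
  unfold nSp
  rw [sSp_eq hs]

/-- in a state `P.exc` is the excess by walks -/
theorem exc_eq (hs : P.SqT) : P.exc = P.wexc := by
  unfold exc
  rw [nSp_eq hs, pexc_eq hs]
  ring

/-- THE BOUND OF THE EXCESS -/
theorem exc_le {E : V → Prop} (hs : P.SqE E) (x1 : ∀ p ∈ P.TA, 1 ≤ P.X p.1 p.2) :
    P.exc ≤ 5 * K.area := by
  have h := P45.pexc_le hs x1
  unfold exc
  rw [nSp_eq hs]
  linarith

end P45

end Pool.Agent.DI
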