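import Pool.Agent.DI.HDL
import Pool.Agent.DI.SpT

/-!
# Bounds of the potentials of a state

`St.nV_le`, `St.nVZ_le`, `St.nVD_le`: the number of the sinks is at most `5 * area` (through the total fold);
`St.sigma_le` (`35 * area`), `St.exc_le` (`5 * area`).
-/

namespace Pool.Agent.DI

open MulAction
open Pool.Agent.SAF (InC SA orbs FinOrb oc oc_le_of_inj)

namespace St

variable (C : St)

/-- THE NUMBER OF THE SINKS of a state -/
theorem nV_le : C.K.nV ≤ 5 * C.K.area := by
  have h1 := C.fd.nV_le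
  rw [← C.area_Cd C.fd] at h1
  refine le_trans ?_ h1
  refine oc_le_of_inj (C.fd.K.fo _) C.tp.f ?_ ?_
  · intro z hz
    exact C.cls.toSqE.snk_f (fun _ h => h) hz
  · rintro z hz z' hz' ⟨k, hk⟩
    rw [← C.tp.f_smul] at hk
    exact ⟨k, C.cls.toSqE.f_inj (fun _ h => h) (GX.Snk.smul k hz) hz' hk⟩

theorem nVZ_le : C.K.nVZ ≤ 5 * C.K.area := by
  have := C.nV_le
  rw [C.K.nV_eq] at this
  omega

theorem nVD_le : C.K.nVD ≤ 5 * C.K.area := by
  have := C.nV_le
  rw [C.K.nV_eq] at this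
  omega

theorem sigma_le : C.P.sigma ≤ 35 * C.K.area := C.cls.sigma_le

theorem exc_le : C.P.exc ≤ 5 * C.K.area := P45.exc_le C.cls.toSqE C.cls.x1

end St

end Pool.Agent.DI
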