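import Pool.Agent.BT.ThA4
import Pool.Agent.BT.XBridge
import Pool.Agent.DI.Repl

/-!
# Systems of subtrees for a complex with listed pentagons and squares

Like `DI/Sys`, but the cells of `K` are pentagons and squares (`P : P45 K`). A square `a q b y`
crosses the edge `w w'` at `a` and `b` if both cross it and `J q`, `J y` are on different sides.
-/

namespace Pool.Agent.DI

open MulAction
open Pool.Agent.SAF (InC orbs FinOrb oc Decomp SAn SA Conv hull dist_edge FinOrb_iff)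
open Pool.Agent.BT (PX PQ JS bey exits)
open Pool.Agent.BT.TA

section

variable {H V : Type} [Group H] [MulAction H V] {K : GX H V}

/-- the cells are pentagons or squares -/
structure P45 (K : GX H V) where
  sq : K.I → Prop
  pt : K.I → Fin 5 → V
  qt : K.I → Fin 4 → V
  cb5 : ∀ i, ¬ sq i → K.cb i = pt i 0
  cw5 : ∀ i, ¬ sq i → K.cw i = [pt i 1, pt i 2, pt i 3, pt i 4, pt i 0]
  cb4 : ∀ i, sq i → K.cb i = qt i 0
  cw4 : ∀ i, sq i → K.cw i = [qt i 1, qt i 2, qt i 3, qt i 0]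

/-- all cells are pentagons -/
def Pt.toP45 (P : Pt K) : P45 K where
  sq _ := False
  pt := P.pt
  qt i _ := P.pt i 0
  cb5 i _ := P.cb_eq i
  cw5 i _ := P.cw_eq i
  cb4 _ h := h.elim
  cw4 _ h := h.elim

namespace P45

variable (P : P45 K)

theorem ps5 (φ : V → V → ZMod 2) {i : K.I} (hi : ¬ P.sq i) (h : H) :
    ps φ (h • K.cb i) ((K.cw i).map (fun z => h • z)) =
      ∑ j : Fin 5, φ (h • P.pt i j) (h • P.pt i (j + 1)) := by
  rw [P.cb5 i hi, P.cw5 i hi, Fin.sum_univ_five]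
  simp only [List.map_cons, List.map_nil, ps_cons, ps_nil, add_zero, add_assoc]
  rfl

theorem ps4 (φ : V → V → ZMod 2) {i : K.I} (hi : P.sq i) (h : H) :
    ps φ (h • K.cb i) ((K.cw i).map (fun z => h • z)) =
      φ (h • P.qt i 0) (h • P.qt i 1) + φ (h • P.qt i 1) (h • P.qt i 2) +
      φ (h • P.qt i 2) (h • P.qt i 3) + φ (h • P.qt i 3) (h • P.qt i 0) := by
  rw [P.cb4 i hi, P.cw4 i hi]
  simp only [List.map_cons, List.map_nil, ps_cons, ps_nil, add_zero, add_assoc]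

theorem E5 {i : K.I} (hi : ¬ P.sq i) (j : Fin 5) : K.E (P.pt i j) (P.pt i (j + 1)) := by
  have h : Wk K.E (K.cb i) (K.cw i) := K.c_E i
  rw [P.cb5 i hi, P.cw5 i hi] at h
  obtain ⟨h0, h1, h2, h3, h4, -⟩ := h
  fin_cases j
  · exact h0
  · exact h1
  · exact h2
  · exact h3
  · exact h4

theorem E4 {i : K.I} (hi : P.sq i) (j : Fin 4) : K.E (P.qt i j) (P.qt i (j + 1)) := by
  have h : Wk K.E (K.cb i) (K.cw i) := K.c_E i
  rw [P.cb4 i hi, P.cw4 i hi] at h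
  obtain ⟨h0, h1, h2, h3, -⟩ := h
  fin_cases j
  · exact h0
  · exact h1
  · exact h2
  · exact h3

/-- the complex as a pre-complex (more walks are filled) -/
def pq : PQ H V where
  ar := K.ar
  rk := K.rk
  I := {i : K.I // ¬ P.sq i}
  finI := by
    have := K.finI
    infer_instance
  pt i := P.pt i.1
  ar_rk := K.ar_rk
  ar_smul := K.ar_smul
  rk_smul := K.rk_smul
  two := K.two
  pt_E i j := P.E5 i.2 j
  ne := K.ne
  conn := K.conn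
  H1 φ hs h4 _ hp := K.H1 φ hs (fun i h => by
    by_cases hi : P.sq i
    · rw [P.ps4 φ hi]
      exact h4 _ _ _ _ (K.E_smul h (P.E4 hi 0)) (K.E_smul h (P.E4 hi 1)) (K.E_smul h (P.E4 hi 2))
        (K.E_smul h (P.E4 hi 3))
    · rw [P.ps5 φ hi]
      exact hp ⟨i, hi⟩ h)
  fin := K.fin

end P45

/-- the vertices of a translate of a pentagon in cyclic order -/
def Qn (P : P45 K) (a q b y z : V) : Prop := ∃ (h : H) (i : K.I) (j : Fin 5), ¬ P.sq i ∧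
  ((a = h • P.pt i j ∧ q = h • P.pt i (j + 1) ∧ b = h • P.pt i (j + 2) ∧ y = h • P.pt i (j + 3) ∧
    z = h • P.pt i (j + 4)) ∨
  (b = h • P.pt i j ∧ q = h • P.pt i (j + 1) ∧ a = h • P.pt i (j + 2) ∧ z = h • P.pt i (j + 3) ∧
    y = h • P.pt i (j + 4)))

/-- the vertices of a translate of a square in cyclic order -/
def Q4 (P : P45 K) (a q b y : V) : Prop := ∃ (h : H) (i : K.I) (j : Fin 4), P.sq i ∧
  ((a = h • P.qt i j ∧ q = h • P.qt i (j + 1) ∧ b = h • P.qt i (j + 2) ∧ y = h • P.qt i (j + 3)) ∨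
  (b = h • P.qt i j ∧ q = h • P.qt i (j + 1) ∧ a = h • P.qt i (j + 2) ∧ y = h • P.qt i (j + 3)))

variable {P : P45 K}

theorem Qn.symm {a q b y z : V} (h : Qn P a q b y z) : Qn P b q a z y := by
  obtain ⟨g, i, j, hi, h | h⟩ := h
  · exact ⟨g, i, j, hi, Or.inr ⟨h.1, h.2.1, h.2.2.1, h.2.2.2.1, h.2.2.2.2⟩⟩
  · exact ⟨g, i, j, hi, Or.inl ⟨h.1, h.2.1, h.2.2.1, h.2.2.2.1, h.2.2.2.2⟩⟩

theorem Qn.smul (g : H) {a q b y z : V} (h : Qn P a q b y z) :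
    Qn P (g • a) (g • q) (g • b) (g • y) (g • z) := by
  obtain ⟨k, i, j, hi, h⟩ := h
  refine ⟨g * k, i, j, hi, ?_⟩
  rcases h with ⟨rfl, rfl, rfl, rfl, rfl⟩ | ⟨rfl, rfl, rfl, rfl, rfl⟩
  · left; simp only [mul_smul, and_self]
  · right; simp only [mul_smul, and_self]

theorem Qn_pt (h : H) {i : K.I} (hi : ¬ P.sq i) (j : Fin 5) :
    Qn P (h • P.pt i j) (h • P.pt i (j + 1))
    (h • P.pt i (j + 2)) (h • P.pt i (j + 3)) (h • P.pt i (j + 4)) :=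
  ⟨h, i, j, hi, Or.inl ⟨rfl, rfl, rfl, rfl, rfl⟩⟩

/-- rotation -/
theorem Qn.rot {a q b y z : V} (h : Qn P a q b y z) : Qn P q b y z a := by
  obtain ⟨g, i, j, hi, h⟩ := h
  have e5 : ∀ j : Fin 5, j + 1 + 4 = j := by decide
  have e4 : ∀ j : Fin 5, j + 4 + 1 = j := by decide
  rcases h with ⟨rfl, rfl, rfl, rfl, rfl⟩ | ⟨rfl, rfl, rfl, rfl, rfl⟩
  · refine ⟨g, i, j + 1, hi, Or.inl ⟨rfl, ?_, ?_, ?_, ?_⟩⟩
    · rw [add_assoc]; rfl
    · rw [add_assoc]; rfl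
    · rw [add_assoc]; rfl
    · rw [e5]
  · refine ⟨g, i, j + 4, hi, Or.inr ⟨rfl, ?_, ?_, ?_, ?_⟩⟩
    · rw [e4]
    · rw [show j + 4 + 2 = j + 1 from by rw [add_assoc]; rfl]
    · rw [show j + 4 + 3 = j + 2 from by rw [add_assoc]; rfl]
    · rw [show j + 4 + 4 = j + 3 from by rw [add_assoc]; rfl]

theorem Qn.E1 {a q b y z : V} (h : Qn P a q b y z) : K.E a q := by
  obtain ⟨g, i, j, hi, h⟩ := h
  rcases h with ⟨rfl, rfl, rfl, rfl, rfl⟩ | ⟨rfl, rfl, rfl, rfl, rfl⟩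
  · exact K.E_smul g (P.E5 hi j)
  · have := K.E_smul g (P.E5 hi (j + 1))
    rw [show j + 1 + 1 = j + 2 from by rw [add_assoc]; rfl] at this
    exact Or.symm this

theorem Qn.E2 {a q b y z : V} (h : Qn P a q b y z) : K.E q b := h.rot.E1

theorem Qn.E3 {a q b y z : V} (h : Qn P a q b y z) : K.E b y := h.rot.rot.E1

theorem Qn.E4 {a q b y z : V} (h : Qn P a q b y z) : K.E y z := h.rot.rot.rot.E1

theorem Qn.E5 {a q b y z : V} (h : Qn P a q b y z) : K.E z a := h.rot.rot.rot.rot.E1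

theorem Q4.symm {a q b y : V} (h : Q4 P a q b y) : Q4 P b q a y := by
  obtain ⟨g, i, j, hi, h | h⟩ := h
  · exact ⟨g, i, j, hi, Or.inr ⟨h.1, h.2.1, h.2.2.1, h.2.2.2⟩⟩
  · exact ⟨g, i, j, hi, Or.inl ⟨h.1, h.2.1, h.2.2.1, h.2.2.2⟩⟩

theorem Q4.smul (g : H) {a q b y : V} (h : Q4 P a q b y) :
    Q4 P (g • a) (g • q) (g • b) (g • y) := by
  obtain ⟨k, i, j, hi, h⟩ := h
  refine ⟨g * k, i, j, hi, ?_⟩
  rcases h with ⟨rfl, rfl, rfl, rfl⟩ | ⟨rfl, rfl, rfl, rfl⟩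
  · left; simp only [mul_smul, and_self]
  · right; simp only [mul_smul, and_self]

theorem Q4_qt (h : H) {i : K.I} (hi : P.sq i) (j : Fin 4) :
    Q4 P (h • P.qt i j) (h • P.qt i (j + 1)) (h • P.qt i (j + 2)) (h • P.qt i (j + 3)) :=
  ⟨h, i, j, hi, Or.inl ⟨rfl, rfl, rfl, rfl⟩⟩

/-- rotation -/
theorem Q4.rot {a q b y : V} (h : Q4 P a q b y) : Q4 P q b y a := by
  obtain ⟨g, i, j, hi, h⟩ := h
  have e4 : ∀ j : Fin 4, j + 1 + 3 = j := by decide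
  have e3 : ∀ j : Fin 4, j + 3 + 1 = j := by decide
  rcases h with ⟨rfl, rfl, rfl, rfl⟩ | ⟨rfl, rfl, rfl, rfl⟩
  · refine ⟨g, i, j + 1, hi, Or.inl ⟨rfl, ?_, ?_, ?_⟩⟩
    · rw [add_assoc]; rfl
    · rw [add_assoc]; rfl
    · rw [e4]
  · refine ⟨g, i, j + 3, hi, Or.inr ⟨rfl, ?_, ?_, ?_⟩⟩
    · rw [e3]
    · rw [show j + 3 + 2 = j + 1 from by rw [add_assoc]; rfl]
    · rw [show j + 3 + 3 = j + 2 from by rw [add_assoc]; rfl]

theorem Q4.E1 {a q b y : V} (h : Q4 P a q b y) : K.E a q := by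
  obtain ⟨g, i, j, hi, h⟩ := h
  rcases h with ⟨rfl, rfl, rfl, rfl⟩ | ⟨rfl, rfl, rfl, rfl⟩
  · exact K.E_smul g (P.E4 hi j)
  · have := K.E_smul g (P.E4 hi (j + 1))
    rw [show j + 1 + 1 = j + 2 from by rw [add_assoc]; rfl] at this
    exact Or.symm this

theorem Q4.E2 {a q b y : V} (h : Q4 P a q b y) : K.E q b := h.rot.E1

theorem Q4.E3 {a q b y : V} (h : Q4 P a q b y) : K.E b y := h.rot.rot.E1

theorem Q4.E4 {a q b y : V} (h : Q4 P a q b y) : K.E y a := h.rot.rot.rot.E1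

end

/-- systems of subtrees for a complex with pentagons and squares -/
structure SyQ (H V : Type) [Group H] [MulAction H V] where
  K : GX H V
  P : P45 K
  D : Decomp H
  J : V → Set D.X
  js : JS P.pq D J

namespace SyQ

variable {H V : Type} [Group H] [MulAction H V] (S : SyQ H V)

/-- the vertices of the tree -/
abbrev X : Type := S.D.X

/-- `x` crosses the edge `w w'` -/
def Cs (w w' : S.X) (x : V) : Prop := w ∈ S.J x ∧ w' ∈ S.J x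

/-- a cell crosses the edge `w w'` at `a` and `b`, `J q` is on the side of `w'` -/
def CC (w w' : S.X) (a q b : V) : Prop := S.J q ⊆ bey S.D.G w w' ∧
  ((∃ y z, Qn S.P a q b y z ∧ S.J y ⊆ bey S.D.G w' w ∧ S.J z ⊆ bey S.D.G w' w) ∨
    ∃ y, Q4 S.P a q b y ∧ S.J y ⊆ bey S.D.G w' w)

/-- consecutive vertices of the wall of `w w'` -/
def PW (w w' : S.X) (a b : V) : Prop := S.D.G.Adj w w' ∧ S.Cs w w' a ∧ S.Cs w w' b ∧
  ∃ q, S.CC w w' a q b ∨ S.CC w' w a q b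

/-- the generating relation of the slice at `w` -/
def SR (w : S.X) (x z : V) : Prop :=
  (S.K.E x z ∧ w ∈ S.J x ∧ w ∈ S.J z) ∨ ∃ w', S.PW w w' x z

/-- walls and slices are connected, every edge is crossed -/
structure Conn : Prop where
  wall : ∀ w w', S.D.G.Adj w w' → ∀ x z, S.Cs w w' x → S.Cs w w' z →
    Relation.EqvGen (S.PW w w') x z
  slice : ∀ w, ∀ x z, w ∈ S.J x → w ∈ S.J z → Relation.EqvGen (S.SR w) x z
  crossed : ∀ w w', S.D.G.Adj w w' → ∃ x, S.Cs w w' x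

variable {S}

theorem CC.symm' {w w' : S.X} {a q b : V} (h : S.CC w w' a q b) : S.CC w w' b q a := by
  obtain ⟨h1, ⟨y, z, hp, h2, h3⟩ | ⟨y, hp, h2⟩⟩ := h
  · exact ⟨h1, Or.inl ⟨z, y, hp.symm, h3, h2⟩⟩
  · exact ⟨h1, Or.inr ⟨y, hp.symm, h2⟩⟩

theorem CC.E1 {w w' : S.X} {a q b : V} (h : S.CC w w' a q b) : S.K.E a q := by
  obtain ⟨h1, ⟨y, z, hp, h2, h3⟩ | ⟨y, hp, h2⟩⟩ := h
  · exact hp.E1
  · exact hp.E1

theorem CC.E2 {w w' : S.X} {a q b : V} (h : S.CC w w' a q b) : S.K.E q b := h.symm'.E1.symm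

theorem PW.symm' {w w' : S.X} {a b : V} (h : S.PW w w' a b) : S.PW w w' b a := by
  obtain ⟨h1, h2, h3, q, h | h⟩ := h
  · exact ⟨h1, h3, h2, q, Or.inl h.symm'⟩
  · exact ⟨h1, h3, h2, q, Or.inr h.symm'⟩

theorem Cs.swap {w w' : S.X} {x : V} (h : S.Cs w w' x) : S.Cs w' w x := ⟨h.2, h.1⟩

theorem Cs.smul (g : H) {w w' : S.X} {x : V} (h : S.Cs w w' x) : S.Cs (g • w) (g • w') (g • x) :=
  ⟨S.js.smul g _ _ h.1, S.js.smul g _ _ h.2⟩

theorem PW.swap {w w' : S.X} {a b : V} (h : S.PW w w' a b) : S.PW w' w a b := by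
  obtain ⟨h1, h2, h3, q, h⟩ := h
  exact ⟨h1.symm, h2.swap, h3.swap, q, h.symm⟩

theorem PW.l {w w' : S.X} {a b : V} (h : S.PW w w' a b) : S.Cs w w' a := h.2.1

theorem PW.r {w w' : S.X} {a b : V} (h : S.PW w w' a b) : S.Cs w w' b := h.2.2.1

variable (S)

theorem mem_smul_iff (h : H) (x : V) (w : S.X) : h • w ∈ S.J (h • x) ↔ w ∈ S.J x := by
  constructor
  · intro hh
    have := S.js.smul h⁻¹ _ _ hh
    rwa [inv_smul_smul, inv_smul_smul] at this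
  · exact S.js.smul h x w

theorem bey_smul (h : H) {w w' x : S.X} (e : x ∈ bey S.D.G w w') :
    h • x ∈ bey S.D.G (h • w) (h • w') :=
  Pool.Agent.BT.TA.bey_smul S.D.adj_smul S.D.tree S.D.noinv h e

theorem sub_bey_smul (h : H) {w w' : S.X} {x : V} (e : S.J x ⊆ bey S.D.G w w') :
    S.J (h • x) ⊆ bey S.D.G (h • w) (h • w') := by
  intro u hu
  have h1 : h⁻¹ • u ∈ S.J x := by
    have := S.js.smul h⁻¹ _ _ hu
    rwa [inv_smul_smul] at this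
  have h2 := S.bey_smul h (e h1)
  rwa [smul_inv_smul] at h2

theorem CC.smul (g : H) {w w' : S.X} {a q b : V} (h : S.CC w w' a q b) :
    S.CC (g • w) (g • w') (g • a) (g • q) (g • b) := by
  obtain ⟨h1, ⟨y, z, hp, h2, h3⟩ | ⟨y, hp, h2⟩⟩ := h
  · exact ⟨S.sub_bey_smul g h1, Or.inl ⟨g • y, g • z, hp.smul g, S.sub_bey_smul g h2,
      S.sub_bey_smul g h3⟩⟩
  · exact ⟨S.sub_bey_smul g h1, Or.inr ⟨g • y, hp.smul g, S.sub_bey_smul g h2⟩⟩

theorem PW.smul (g : H) {w w' : S.X} {a b : V} (h : S.PW w w' a b) :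
    S.PW (g • w) (g • w') (g • a) (g • b) := by
  obtain ⟨h1, h2, h3, q, h⟩ := h
  exact ⟨S.D.adj_smul g _ _ h1, h2.smul g, h3.smul g, g • q,
    h.imp (fun k => CC.smul S g k) (fun k => CC.smul S g k)⟩

theorem SR.symm' {w : S.X} {x z : V} (k : S.SR w x z) : S.SR w z x := by
  rcases k with ⟨e, h1, h2⟩ | ⟨w', k⟩
  · exact Or.inl ⟨Or.symm e, h2, h1⟩
  · exact Or.inr ⟨w', k.symm'⟩

theorem SR.mem {w : S.X} {x z : V} (k : S.SR w x z) : w ∈ S.J x ∧ w ∈ S.J z := by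
  rcases k with ⟨e, h1, h2⟩ | ⟨w', k⟩
  · exact ⟨h1, h2⟩
  · exact ⟨k.l.1, k.r.1⟩

theorem SR.smul {w : S.X} {x z : V} (h : H) (k : S.SR w x z) : S.SR (h • w) (h • x) (h • z) := by
  rcases k with ⟨e, h1, h2⟩ | ⟨w', k⟩
  · exact Or.inl ⟨S.K.E_smul h e, S.js.smul h _ _ h1, S.js.smul h _ _ h2⟩
  · exact Or.inr ⟨h • w', PW.smul S h k⟩

/-- the common point of adjacent subtrees -/
theorem one_eq {x y : V} (e : S.K.E x y) {a b : S.X} (h1 : a ∈ S.J x) (h2 : a ∈ S.J y)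
    (h3 : b ∈ S.J x) (h4 : b ∈ S.J y) : a = b := by
  obtain ⟨p, hp⟩ := S.js.one x y e
  have ha : a ∈ S.J x ∩ S.J y := ⟨h1, h2⟩
  have hb : b ∈ S.J x ∩ S.J y := ⟨h3, h4⟩
  rw [hp] at ha hb
  rw [Set.mem_singleton_iff.1 ha, Set.mem_singleton_iff.1 hb]

theorem one_ex {x y : V} (e : S.K.E x y) : ∃ p, p ∈ S.J x ∧ p ∈ S.J y := by
  obtain ⟨p, hp⟩ := S.js.one x y e
  have : p ∈ S.J x ∩ S.J y := by rw [hp]; exact rfl
  exact ⟨p, this.1, this.2⟩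

theorem not_both {w w' : S.X} (h : S.D.G.Adj w w') {x y : V} (e : S.K.E x y) (hx : S.Cs w w' x)
    (hy : S.Cs w w' y) : False :=
  h.ne (S.one_eq e hx.1 hy.1 hx.2 hy.2)

/-- the subtree of a vertex which does not cross is on one side -/
theorem side_of {w w' : S.X} (h : S.D.G.Adj w w') {x : V} (hn : ¬ S.Cs w w' x) {u : S.X}
    (hu : u ∈ S.J x) (hb : u ∈ bey S.D.G w w') : S.J x ⊆ bey S.D.G w w' :=
  conv_sd S.D.tree (S.js.conv x) h hn hu hb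

theorem side_or {w w' : S.X} (h : S.D.G.Adj w w') {x : V} (hn : ¬ S.Cs w w' x) :
    S.J x ⊆ bey S.D.G w w' ∨ S.J x ⊆ bey S.D.G w' w := by
  obtain ⟨u, hu⟩ := S.js.ne x
  rcases bey_or S.D.tree h u with hb | hb
  · exact Or.inl (S.side_of h hn hu hb)
  · exact Or.inr (S.side_of h.symm (fun e => hn e.swap) hu hb)

theorem adj_nc {w w' : S.X} (h : S.D.G.Adj w w') {x y : V} (e : S.K.E x y) (hx : S.Cs w w' x) :
    ¬ S.Cs w w' y := fun hy => S.not_both h e hx hy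

/-- adjacent vertices which do not cross are on the same side -/
theorem side_adj {w w' : S.X} (h : S.D.G.Adj w w') {x y : V} (e : S.K.E x y)
    (hy : ¬ S.Cs w w' y) (hs : S.J x ⊆ bey S.D.G w w') : S.J y ⊆ bey S.D.G w w' := by
  obtain ⟨p, p0, p1⟩ := S.one_ex e
  exact S.side_of h hy p1 (hs p0)

/-- centres exist -/
theorem cen {v : Fin 5 → V} (hv : ∀ k, S.K.E (v k) (v (k + 1))) :
    ∃ c, ∀ k, c ∈ S.J (v k) ∪ S.J (v (k + 1)) := by
  have hU : ∀ k, Conv S.D.G (S.J (v k) ∪ S.J (v (k + 1))) := by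
    intro k
    obtain ⟨p, p0, p1⟩ := S.one_ex (hv k)
    exact conv_union S.D.tree (S.js.conv _) (S.js.conv _) p0 p1
  obtain ⟨p0, a0, b0⟩ := S.one_ex (hv 0)
  obtain ⟨p1, a1, b1⟩ := S.one_ex (hv 1)
  obtain ⟨p2, a2, b2⟩ := S.one_ex (hv 2)
  obtain ⟨p3, a3, b3⟩ := S.one_ex (hv 3)
  obtain ⟨p4, a4, b4⟩ := S.one_ex (hv 4)
  obtain ⟨m, m0, m1, m2, m3, m4⟩ := helly5 S.D.tree (hU 0) (hU 1) (hU 2) (hU 3) (hU 4)
    ⟨p0, Or.inl a0, Or.inl b0⟩ ⟨p1, Or.inr a1, Or.inl b1⟩ ⟨p1, Or.inl a1, Or.inl b1⟩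
    ⟨p4, Or.inl b4, Or.inr a4⟩ ⟨p2, Or.inr a2, Or.inl b2⟩ ⟨p2, Or.inl a2, Or.inl b2⟩
    ⟨p0, Or.inl a0, Or.inr a0⟩ ⟨p0, Or.inl b0, Or.inr a0⟩ ⟨p3, Or.inr a3, Or.inl b3⟩
    ⟨p3, Or.inl a3, Or.inl b3⟩
  refine ⟨m, fun k => ?_⟩
  fin_cases k
  · exact m0
  · exact m1
  · exact m2
  · exact m3
  · exact m4

end SyQ

end Pool.Agent.DI
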