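import Pool.Agent.DI.FCa
import Pool.Agent.DI.ExcG
import Pool.Agent.DI.QSys

/-!
# The flags of the listed cells

`FL K`: the positions of the translates of the cells with a direction. `P.fc : FC K (FL K)` for a complex
with listed pentagons and squares, no square degenerate. `fc_exc : P.fc.exc = K.pexc`, same corners and
pieces.
-/

namespace Pool.Agent.DI

open MulAction
open Pool.Agent.SAF (InC orbs FinOrb oc mk_eq_iff FinOrb_iff)

/-- positions with a direction -/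
def FL {H V : Type} [Group H] [MulAction H V] (K : GX H V) : Type := K.LE × Bool

instance {H V : Type} [Group H] [MulAction H V] (K : GX H V) : MulAction H (FL K) where
  smul g f := (g • f.1, f.2)
  one_smul f := Prod.ext (one_smul H f.1) rfl
  mul_smul a b f := Prod.ext (mul_smul a b f.1) rfl

namespace GX

variable {H V : Type} [Group H] [MulAction H V] (K : GX H V)

theorem vx_modadd (i : K.I) (a b : ℕ) : K.vx i (a % K.len i + b) = K.vx i (a + b) := by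
  rw [← K.vx_mod i (a % K.len i + b), ← K.vx_mod i (a + b), Nat.mod_add_mod]

/-- the next position -/
def nx (e : K.LE) : K.LE :=
  (⟨e.1.1, ⟨(e.1.2 + 1) % K.len e.1.1, Nat.mod_lt _ (Nat.zero_lt_of_lt e.1.2.2)⟩⟩, e.2)

/-- the last position -/
def pv (e : K.LE) : K.LE :=
  (⟨e.1.1, ⟨(e.1.2 + (K.len e.1.1 - 1)) % K.len e.1.1,
    Nat.mod_lt _ (Nat.zero_lt_of_lt e.1.2.2)⟩⟩, e.2)

theorem nx_smul (h : H) (e : K.LE) : K.nx (h • e) = h • K.nx e := rfl

theorem pv_smul (h : H) (e : K.LE) : K.pv (h • e) = h • K.pv e := rfl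

theorem le_ext {i : K.I} {j j' : Fin (K.len i)} {h : H} (e : j.1 = j'.1) :
    ((⟨i, j⟩, h) : K.LE) = (⟨i, j'⟩, h) := by
  rw [Fin.ext e]

theorem pv_nx (e : K.LE) : K.pv (K.nx e) = e := by
  obtain ⟨⟨i, j⟩, h⟩ := e
  refine K.le_ext ?_
  show ((j.1 + 1) % K.len i + (K.len i - 1)) % K.len i = j.1
  have hl := j.2
  rw [Nat.mod_add_mod, show j.1 + 1 + (K.len i - 1) = j.1 + K.len i by omega, Nat.add_mod_right,
    Nat.mod_eq_of_lt hl]

theorem nx_pv (e : K.LE) : K.nx (K.pv e) = e := by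
  obtain ⟨⟨i, j⟩, h⟩ := e
  refine K.le_ext ?_
  show ((j.1 + (K.len i - 1)) % K.len i + 1) % K.len i = j.1
  have hl := j.2
  rw [Nat.mod_add_mod, show j.1 + (K.len i - 1) + 1 = j.1 + K.len i by omega, Nat.add_mod_right,
    Nat.mod_eq_of_lt hl]

theorem c0_nx (e : K.LE) : K.c0 (K.nx e) = K.c1 e := by
  show e.2 • K.vx e.1.1 ((e.1.2.1 + 1) % K.len e.1.1) = e.2 • K.vx e.1.1 (e.1.2.1 + 1)
  have := K.vx_modadd e.1.1 (e.1.2.1 + 1) 0
  rw [add_zero, add_zero] at this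
  rw [this]

theorem c1_nx (e : K.LE) : K.c1 (K.nx e) = K.c2 e := by
  show e.2 • K.vx e.1.1 ((e.1.2.1 + 1) % K.len e.1.1 + 1) = e.2 • K.vx e.1.1 (e.1.2.1 + 2)
  rw [K.vx_modadd]

theorem c1_pv (e : K.LE) : K.c1 (K.pv e) = K.c0 e := by
  have := K.c0_nx (K.pv e)
  rw [K.nx_pv] at this
  exact this.symm

theorem c2_pv (e : K.LE) : K.c2 (K.pv e) = K.c1 e := by
  have := K.c1_nx (K.pv e)
  rw [K.nx_pv] at this
  exact this.symm

theorem nx_val (i : K.I) (j : Fin (K.len i)) (h : H) (k : ℕ) :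
    (K.nx)^[k] ((⟨i, j⟩, h) : K.LE) =
      (⟨i, ⟨(j.1 + k) % K.len i, Nat.mod_lt _ (Nat.zero_lt_of_lt j.2)⟩⟩, h) := by
  induction k with
  | zero =>
    refine K.le_ext ?_
    show j.1 = (j.1 + 0) % K.len i
    rw [add_zero, Nat.mod_eq_of_lt j.2]
  | succ k ih =>
    rw [Function.iterate_succ_apply', ih]
    refine K.le_ext ?_
    show ((j.1 + k) % K.len i + 1) % K.len i = (j.1 + (k + 1)) % K.len i
    rw [Nat.mod_add_mod, add_assoc]

theorem nx_len (e : K.LE) {n : ℕ} (hn : K.len e.1.1 = n) : (K.nx)^[n] e = e := by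
  subst hn
  obtain ⟨⟨i, j⟩, h⟩ := e
  rw [K.nx_val]
  refine K.le_ext ?_
  show (j.1 + K.len i) % K.len i = j.1
  rw [Nat.add_mod_right, Nat.mod_eq_of_lt j.2]

theorem pv_len (e : K.LE) {n : ℕ} (hn : K.len e.1.1 = n) : (K.pv)^[n] e = e := by
  have h1 : (K.nx)^[n] ((K.pv)^[n] e) = e :=
    (Function.LeftInverse.iterate (f := K.pv) (g := K.nx) K.nx_pv n) e
  have h2 : ∀ m, ((K.pv)^[m] e).1.1 = e.1.1 := by
    intro m
    induction m with
    | zero => rfl
    | succ m ih =>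
      rw [Function.iterate_succ_apply']
      exact ih
  have h3 := K.nx_len ((K.pv)^[n] e) (n := n) (by rw [h2]; exact hn)
  rw [h3] at h1
  exact h1

end GX

namespace P45

variable {H V : Type} [Group H] [MulAction H V] {K : GX H V} (P : P45 K)

theorem len4 {i : K.I} (h : P.sq i) : K.len i = 4 := by
  show (K.cw i).length = 4
  rw [P.cw4 i h]
  rfl

theorem len5 {i : K.I} (h : ¬ P.sq i) : K.len i = 5 := by
  show (K.cw i).length = 5
  rw [P.cw5 i h]
  rfl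

/-- no square is degenerate -/
def ND : Prop := ∀ i, P.sq i → P.qt i 0 ≠ P.qt i 2 ∧ P.qt i 1 ≠ P.qt i 3

theorem vx4 {i : K.I} (h : P.sq i) (j : Fin 4) : K.vx i j.1 = P.qt i j := by
  have hl : j.1 ≤ K.len i := by
    rw [P.len4 h]
    omega
  rw [K.vx_of_le hl, P.cb4 i h, P.cw4 i h]
  fin_cases j <;> rfl

theorem vx_ne (nd : P.ND) {i : K.I} (h : P.sq i) (j : ℕ) : K.vx i j ≠ K.vx i (j + 2) := by
  have h4 := P.len4 h
  have e1 : K.vx i j = P.qt i ⟨j % 4, Nat.mod_lt _ (by norm_num)⟩ := by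
    rw [← P.vx4 h, ← K.vx_mod i j, h4]
  have e2 : K.vx i (j + 2) = P.qt i ⟨(j + 2) % 4, Nat.mod_lt _ (by norm_num)⟩ := by
    rw [← P.vx4 h, ← K.vx_mod i (j + 2), h4]
  obtain ⟨n1, n2⟩ := nd i h
  rw [e1, e2]
  have hj : j % 4 = 0 ∨ j % 4 = 1 ∨ j % 4 = 2 ∨ j % 4 = 3 := by omega
  rcases hj with k | k | k | k
  · have k' : (j + 2) % 4 = 2 := by omega
    simp only [k, k']
    exact n1
  · have k' : (j + 2) % 4 = 3 := by omega
    simp only [k, k']
    exact n2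
  · have k' : (j + 2) % 4 = 0 := by omega
    simp only [k, k']
    exact n1.symm
  · have k' : (j + 2) % 4 = 1 := by omega
    simp only [k, k']
    exact n2.symm

/-- THE FLAGS OF THE LISTED CELLS -/
noncomputable def fc (nd : P.ND) : FC K (FL K) where
  y f := K.c1 f.1
  r f := (if f.2 = true then K.nx f.1 else K.pv f.1, f.2)
  v f := (f.1, !f.2)
  sq f := P.sq f.1.1.1
  y_smul h f := K.c1_smul h f.1
  r_smul h f := by
    obtain ⟨e, b⟩ := f
    cases b <;> rfl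
  v_smul h f := rfl
  sq_smul h f := Iff.rfl
  vv f := by
    obtain ⟨e, b⟩ := f
    cases b <;> rfl
  rv f := by
    obtain ⟨e, b⟩ := f
    cases b
    · exact Prod.ext (K.nx_pv e) rfl
    · exact Prod.ext (K.pv_nx e) rfl
  yv f := rfl
  E f := by
    obtain ⟨e, b⟩ := f
    cases b
    · show K.E (K.c1 e) (K.c1 (K.pv e))
      rw [K.c1_pv]
      exact K.c_E0 e
    · show K.E (K.c1 e) (K.c1 (K.nx e))
      rw [K.c1_nx]
      exact K.c_E2 e
  sq_r f := by
    obtain ⟨e, b⟩ := f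
    cases b <;> exact Iff.rfl
  sq_v f := Iff.rfl
  r4 f hf := by
    obtain ⟨e, b⟩ := f
    have h := P.len4 hf
    cases b
    · exact Prod.ext (K.pv_len e h) rfl
    · exact Prod.ext (K.nx_len e h) rfl
  r5 f hf := by
    obtain ⟨e, b⟩ := f
    have h := P.len5 hf
    cases b
    · exact Prod.ext (K.pv_len e h) rfl
    · exact Prod.ext (K.nx_len e h) rfl
  ne f hf := by
    have key : ∀ e : K.LE, P.sq e.1.1 → K.c1 e ≠ K.c1 (K.nx (K.nx e)) := by
      rintro ⟨⟨i, j⟩, h⟩ hi e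
      rw [K.c1_nx] at e
      have e : h • K.vx i (j.1 + 1) = h • K.vx i ((j.1 + 1) % K.len i + 2) := e
      rw [K.vx_modadd] at e
      exact P.vx_ne nd hi _ (smul_left_cancel h e)
    obtain ⟨e, b⟩ := f
    cases b
    · show K.c1 e ≠ K.c1 (K.pv (K.pv e))
      have := key (K.pv (K.pv e)) hf
      rw [K.nx_pv, K.nx_pv] at this
      exact this.symm
    · exact key e hf
  fin := by
    have h := K.fin_LE
    have h1 : ∀ b : Bool, FinOrb H {f : FL K | f.2 = b} := by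
      intro b
      refine SAF.FinOrb.image h (fun e => ((e, b) : FL K)) ?_ ?_
      · rintro ⟨e, b'⟩ rfl
        exact ⟨e, trivial, 1, one_smul _ _⟩
      · rintro a - _ - ⟨g, rfl⟩
        exact ⟨g, rfl⟩
    refine SAF.FinOrb.mono ?_ (finOrb_union (h1 true) (h1 false))
    rintro ⟨e, b⟩ -
    cases b
    · exact Or.inr rfl
    · exact Or.inl rfl

variable (nd : P.ND)

theorem fc_y (f : FL K) : (P.fc nd).y f = K.c1 f.1 := rfl

theorem fc_z (e : K.LE) : (P.fc nd).z ((e, true) : FL K) = K.c2 e := K.c1_nx e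

theorem fc_x (e : K.LE) : (P.fc nd).x ((e, true) : FL K) = K.c0 e := K.c1_pv e

theorem fc_z' (e : K.LE) : (P.fc nd).z ((e, false) : FL K) = K.c0 e := K.c1_pv e

theorem fc_x' (e : K.LE) : (P.fc nd).x ((e, false) : FL K) = K.c2 e := K.c1_nx e

/-- the same corners -/
theorem fc_Co {a y b : V} : (P.fc nd).Co a y b ↔ K.Cor a y b := by
  rw [K.cor_LE]
  constructor
  · rintro ⟨⟨e, c⟩, h1, h2, h3⟩
    refine ⟨e, ?_⟩
    cases c
    · rw [P.fc_x'] at h1
      rw [P.fc_z'] at h3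
      exact Or.inr ⟨h3, h2, h1⟩
    · rw [P.fc_x] at h1
      rw [P.fc_z] at h3
      exact Or.inl ⟨h1, h2, h3⟩
  · rintro ⟨e, ⟨h1, h2, h3⟩ | ⟨h1, h2, h3⟩⟩
    · exact ⟨(e, true), by rw [P.fc_x, h1], h2, by rw [P.fc_z, h3]⟩
    · exact ⟨(e, false), by rw [P.fc_x', h3], h2, by rw [P.fc_z', h1]⟩

theorem fc_IC {y a b : V} : (P.fc nd).IC y a b ↔ K.IC y a b := by
  unfold FC.IC GX.IC
  rw [P.fc_Co]

/-- the same pieces -/
theorem fc_IJ {y a b : V} : (P.fc nd).IJ y a b ↔ K.IJ y a b := by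
  unfold FC.IJ GX.IJ
  have : (P.fc nd).IC y = K.IC y := by
    funext a b
    exact propext (P.fc_IC nd)
  rw [this]

theorem fc_Pc (y n : V) : (P.fc nd).Pc y n = K.Pc y n := by
  ext m
  exact P.fc_IJ nd

theorem fc_strs : oc H (P.fc nd).strs = oc H K.strs := by
  refine oc_bij ((P.fc nd).fin_sub _) K.fin_strs (P.fc nd).strs_inv (fun f : FL K => f.1)
    (fun h f _ => rfl) ?_ ?_ ?_
  · rintro ⟨e, c⟩ ⟨h1, h2⟩
    cases c
    · rw [P.fc_x'] at h1
      rw [P.fc_z'] at h2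
      exact Or.inr ⟨h1, h2⟩
    · rw [P.fc_x] at h1
      rw [P.fc_z] at h2
      exact Or.inl ⟨h1, h2⟩
  · rintro e (⟨h1, h2⟩ | ⟨h1, h2⟩)
    · refine ⟨(e, true), ⟨?_, ?_⟩, rfl⟩
      · rw [P.fc_x]
        exact h1
      · rw [P.fc_z]
        exact h2
    · refine ⟨(e, false), ⟨?_, ?_⟩, rfl⟩
      · rw [P.fc_x']
        exact h1
      · rw [P.fc_z']
        exact h2
  · rintro ⟨e, c⟩ ⟨h1, h2⟩ ⟨e', c'⟩ ⟨h1', h2'⟩ h
    have h : e = e' := h
    subst h
    cases c <;> cases c'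
    · rfl
    · rw [P.fc_x'] at h1
      rw [P.fc_z] at h2'
      exact absurd h2' (GX.not_both' h1)
    · rw [P.fc_x] at h1
      rw [P.fc_z'] at h2'
      exact absurd h2' (GX.not_both' h1)
    · rfl

theorem fc_pols : oc H (P.fc nd).pols = oc H K.pols := by
  let F : NF V (FL K) → PN V := fun t => match t with
    | NF.inn y n => PN.inn y n
    | NF.mid _ => PN.inn K.ne.some K.ne.some
    | NF.pol y a C => PN.pol y a C
  refine oc_bij (P.fc nd).fin_pols K.fin_pols (P.fc nd).pols_inv F ?_ ?_ ?_ ?_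
  · rintro h _ ⟨y, a, n, rfl, -⟩
    rfl
  · rintro _ ⟨y, a, n, rfl, h1, h2, h3⟩
    refine ⟨y, a, n, ?_, h1, h2, (P.fc_Co nd).1 h3.symm⟩
    show PN.pol y a _ = _
    rw [P.fc_Pc]
  · rintro _ ⟨y, a, n, rfl, h1, h2, h3⟩
    refine ⟨_, ⟨y, a, n, rfl, h1, h2, ((P.fc_Co nd).2 h3).symm⟩, ?_⟩
    show PN.pol y a _ = _
    rw [P.fc_Pc]
  · rintro _ ⟨y, a, n, rfl, -⟩ _ ⟨y', a', n', rfl, -⟩ e
    obtain ⟨rfl, rfl, e3⟩ := PN.pol.inj (show PN.pol y a ((P.fc nd).Pc y n) =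
      PN.pol y' a' ((P.fc nd).Pc y' n') from e)
    rw [e3]

/-- THE SAME POLE EXCESS -/
theorem fc_exc : (P.fc nd).exc = K.pexc := by
  unfold FC.exc GX.pexc
  rw [P.fc_strs, P.fc_pols]

end P45

end Pool.Agent.DI
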