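import Pool.Agent.DI.GXCut
import Pool.Agent.BT.PNeut2

/-!
# A clean pentagon complex as a complex with listed cells
-/

namespace Pool.Agent.DI

open MulAction
open Pool.Agent.SAF (InC orbs FinOrb oc FinOrb_iff)
open Pool.Agent.BT (PX)

variable {H V : Type} [Group H] [MulAction H V]

/-- a pentagon complex of girth at least five, only the pentagons are listed -/
def ofPX (K : PX H V) (c3 : ∀ x y z, K.E x y → K.E y z → K.E z x → False)
    (c4 : ∀ x y z w, K.E x y → K.E y z → K.E z w → K.E w x → x = z ∨ y = w) : GX H V where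
  ar := K.ar
  rk := K.rk
  I := K.I
  finI := K.finI
  cb i := K.pt i 0
  cw i := [K.pt i 1, K.pt i 2, K.pt i 3, K.pt i 4, K.pt i 0]
  ar_rk := K.ar_rk
  ar_smul := K.ar_smul
  rk_smul := K.rk_smul
  two := K.two
  c_E i := ⟨K.pt_E i 0, K.pt_E i 1, K.pt_E i 2, K.pt_E i 3, K.pt_E i 4, trivial⟩
  c_tg _ := rfl
  ne := K.ne
  conn := K.conn
  H1 := by
    intro φ hs hp
    apply K.H1 φ hs
    · intro x y z w e1 e2 e3 e4
      rcases c4 x y z w e1 e2 e3 e4 with h | h
      · rw [← h, hs y x, hs w x]
        have k1 := add_self_two (φ x y)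
        have k2 := add_self_two (φ x w)
        linear_combination k1 + k2
      · rw [← h, hs z y, hs y x]
        have k1 := add_self_two (φ y z)
        have k2 := add_self_two (φ x y)
        linear_combination k1 + k2
    · intro x y z e1 e2 e3
      exact absurd (c3 x y z e1 e2 e3) id
    · intro i h
      have := hp i h
      rw [Fin.sum_univ_five]
      have f1 : (0 : Fin 5) + 1 = 1 := rfl
      have f2 : (1 : Fin 5) + 1 = 2 := rfl
      have f3 : (2 : Fin 5) + 1 = 3 := rfl
      have f4 : (3 : Fin 5) + 1 = 4 := rfl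
      have f5 : (4 : Fin 5) + 1 = 0 := rfl
      rw [f1, f2, f3, f4, f5]
      simp only [List.map_cons, List.map_nil, ps_cons, ps_nil] at this
      linear_combination this
  fin := K.fin
  stab := K.stab

theorem ofPX_area (K : PX H V) (c3) (c4) : (ofPX K c3 c4).area = K.A := by
  have := K.finI
  let ft := Fintype.ofFinite K.I
  show ∑ᶠ i : K.I, ([K.pt i 1, K.pt i 2, K.pt i 3, K.pt i 4, K.pt i 0].length - 4) = Nat.card K.I
  rw [finsum_eq_sum_of_fintype, Nat.card_eq_fintype_card]
  simp

/-- a clean pentagon complex -/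
def ofClean (K : PX H V) (hc : K.Clean) : GX H V := ofPX K hc.c3 hc.c4

theorem ofClean_area (K : PX H V) (hc : K.Clean) : (ofClean K hc).area = K.A := ofPX_area _ _ _

/-- `A` is minimal for the group: no complex with listed cells has smaller area -/
theorem area_ge {K : PX H V} (hmin : K.AMin) {V' : Type} [MulAction H V'] (K' : GX H V') :
    K.A ≤ K'.area := by
  obtain ⟨V'', i'', L, hL⟩ := K'.toPX
  exact (hmin V'' L).trans hL

end Pool.Agent.DI
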