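import Pool.Agent.DI.GXTr
import Pool.Agent.DI.GXOf

/-!
# DI/Slide: moving in-arrows to a pole

`Sl K`: arrows `n → v` which are moved to `n → τ n v`, where `τ n v` is a pole of `v`. Two vertices `v`
with moved in-arrows are never adjacent. The new complex `S.gx` has the same vertices; a cell of length
`n` becomes a cell of length `n + Σ σ`, the sum over the corners `x v z` of the cell
(`σ = -1`: one neighbour is moved and the other one is its target; `σ = 1`: one neighbour is moved and
the other one is neither moved nor the target; `σ = 2`: two different targets; otherwise `0`).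
-/

namespace Pool.Agent.DI

open MulAction
open Pool.Agent.SAF (InC orbs FinOrb oc)
open Pool.Agent.BT (PX)

/-- moved arrows -/
structure Sl {H V : Type} [Group H] [MulAction H V] (K : GX H V) where
  mv : V → V → Prop
  τ : V → V → V
  mv_ar : ∀ n v, mv n v → K.ar n v
  mv_smul : ∀ (h : H) (n v : V), mv n v → mv (h • n) (h • v)
  τ_smul : ∀ (h : H) (n v : V), mv n v → τ (h • n) (h • v) = h • τ n v
  τ_ar : ∀ n v, mv n v → K.ar v (τ n v)
  far : ∀ n v n' v', mv n v → mv n' v' → ¬ K.E v v'

section Seg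

variable {V : Type} (mv : V → V → Prop) (τ : V → V → V)

open Classical in
/-- what replaces the vertex `v` between `x` and `z` -/
noncomputable def seg (x v z : V) : List V :=
  if mv x v then
    (if mv z v then (if τ x v = τ z v then [τ x v] else [τ x v, v, τ z v])
     else if z = τ x v then [] else [τ x v, v])
  else if mv z v then (if x = τ z v then [] else [v, τ z v]) else [v]

/-- change of length at a corner -/
noncomputable def sg (x v z : V) : ℤ := (seg mv τ x v z).length - 1

open Classical in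
/-- the new walk -/
noncomputable def slw : V → List V → List V
  | _, [] => []
  | _, [y] => [y]
  | x, y :: z :: r => if ∃ n, mv n y then seg mv τ x y z ++ z :: slw z r else y :: slw y (z :: r)

/-- the sum of `sg` over the interior corners of a walk -/
noncomputable def sgs : V → List V → ℤ
  | _, [] => 0
  | _, [_] => 0
  | x, y :: z :: r => sg mv τ x y z + sgs y (z :: r)

variable {mv τ}

theorem seg_of_not {x v z : V} (h : ¬ ∃ n, mv n v) : seg mv τ x v z = [v] := by
  push Not at h
  unfold seg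
  rw [if_neg (h x), if_neg (h z)]

theorem sg_of_not {x v z : V} (h : ¬ ∃ n, mv n v) : sg mv τ x v z = 0 := by
  unfold sg
  rw [seg_of_not h]
  simp

theorem sg_symm (x v z : V) : sg mv τ x v z = sg mv τ z v x := by
  unfold sg seg
  by_cases h1 : mv x v <;> by_cases h2 : mv z v
  · simp only [h1, h2, if_true]
    by_cases h3 : τ x v = τ z v
    · rw [if_pos h3, if_pos h3.symm]
      rfl
    · rw [if_neg h3, if_neg (fun e => h3 e.symm)]
      rfl
  · simp only [h1, h2, if_true, if_false]
    split_ifs <;> rfl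
  · simp only [h1, h2, if_true, if_false]
    split_ifs <;> rfl
  · simp only [h1, h2, if_false]

end Seg

namespace Sl

variable {H V : Type} [Group H] [MulAction H V] {K : GX H V} (S : Sl K)

/-- a vertex with a moved in-arrow -/
def M (v : V) : Prop := ∃ n, S.mv n v

theorem mv_iff (h : H) (n v : V) : S.mv (h • n) (h • v) ↔ S.mv n v := by
  refine ⟨fun e => ?_, S.mv_smul h n v⟩
  have := S.mv_smul h⁻¹ _ _ e
  rwa [inv_smul_smul, inv_smul_smul] at this

theorem not_MM {x y : V} (hx : S.M x) (hy : S.M y) : ¬ K.E x y := by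
  obtain ⟨n, hn⟩ := hx
  obtain ⟨m, hm⟩ := hy
  exact S.far _ _ _ _ hn hm

theorem M_smul {v : V} (h : H) (hv : S.M v) : S.M (h • v) := by
  obtain ⟨n, hn⟩ := hv
  exact ⟨h • n, S.mv_smul h _ _ hn⟩

theorem M_iff {v : V} (h : H) : S.M (h • v) ↔ S.M v := by
  refine ⟨fun e => ?_, S.M_smul h⟩
  have := S.M_smul h⁻¹ e
  rwa [inv_smul_smul] at this

/-- the new arrows -/
def ar' (x y : V) : Prop := (K.ar x y ∧ ¬ S.mv x y) ∨ ∃ v, S.mv x v ∧ S.τ x v = y

/-- the new adjacency -/
def E' (x y : V) : Prop := S.ar' x y ∨ S.ar' y x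

theorem E'.symm {S : Sl K} {x y : V} (h : S.E' x y) : S.E' y x := Or.symm h

theorem not_mv_τ {n v : V} (h : S.mv n v) (w : V) : ¬ S.mv w (S.τ n v) := fun k =>
  S.far _ _ _ _ h k (Or.inl (S.τ_ar _ _ h))

theorem not_mv_rev {n v w : V} (h : S.mv n v) : ¬ S.mv v w := fun k =>
  S.far _ _ _ _ h k (Or.inl (S.mv_ar _ _ k))

/-- the target of a moved arrow -/
theorem E'_τ {n v : V} (h : S.mv n v) : S.E' n (S.τ n v) := Or.inl (Or.inr ⟨v, h, rfl⟩)

theorem E'_vτ {n v : V} (h : S.mv n v) : S.E' v (S.τ n v) :=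
  Or.inl (Or.inl ⟨S.τ_ar _ _ h, S.not_mv_τ h v⟩)

/-- an unmoved edge -/
theorem E'_of {x y : V} (e : K.E x y) (h1 : ¬ S.mv x y) (h2 : ¬ S.mv y x) : S.E' x y := by
  rcases e with e | e
  · exact Or.inl (Or.inl ⟨e, h1⟩)
  · exact Or.inr (Or.inl ⟨e, h2⟩)

/-- an edge of which no end has moved in-arrows -/
theorem E'_of_not {x y : V} (e : K.E x y) (h1 : ¬ S.M x) (h2 : ¬ S.M y) : S.E' x y :=
  S.E'_of e (fun k => h2 ⟨x, k⟩) (fun k => h1 ⟨y, k⟩)

/-- an edge at a vertex with moved in-arrows -/
theorem E'_of_M {x v : V} (e : K.E x v) (h1 : S.M v) (h2 : ¬ S.mv x v) : S.E' x v :=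
  S.E'_of e h2 (fun k => S.not_MM h1 ⟨v, k⟩ e.symm)

open Classical in
/-- the word of an edge -/
noncomputable def w (x y : V) : List V :=
  if S.mv x y then [S.τ x y, y] else if S.mv y x then [S.τ y x, y] else [y]

theorem w_mv {x y : V} (h : S.mv x y) : S.w x y = [S.τ x y, y] := if_pos h

theorem w_vm {x y : V} (h : S.mv y x) : S.w x y = [S.τ y x, y] := by
  unfold w
  rw [if_neg (S.not_mv_rev h), if_pos h]

theorem w_not {x y : V} (h : ¬ S.mv x y) (h' : ¬ S.mv y x) : S.w x y = [y] := by
  unfold w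
  rw [if_neg h, if_neg h']

/-- the sum along a word at a vertex with moved in-arrows -/
theorem ps_seg {φ : V → V → ZMod 2} (hs : ∀ x y, φ x y = φ y x) {x v z : V} (hv : S.M v)
    (ex : K.E x v) (ez : K.E v z) (l : List V) :
    ps φ x (seg S.mv S.τ x v z ++ z :: l) = ps φ x (S.w x v) + ps φ v (S.w v z) + ps φ z l := by
  have hxv : ¬ S.mv v x := fun k => S.not_MM hv ⟨v, k⟩ ex.symm
  have hzv : ¬ S.mv v z := fun k => S.not_MM hv ⟨v, k⟩ ez
  unfold seg
  by_cases h1 : S.mv x v
  · rw [if_pos h1, S.w_mv h1]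
    by_cases h2 : S.mv z v
    · rw [if_pos h2, S.w_vm h2]
      split_ifs with h3
      · simp only [List.cons_append, List.nil_append, ps_cons, ps_nil]
        rw [← h3, hs (S.τ x v) v]
        have k := add_self_two (φ v (S.τ x v))
        linear_combination -k
      · simp only [List.cons_append, List.nil_append, ps_cons, ps_nil]
        ring
    · rw [if_neg h2, S.w_not hzv h2]
      split_ifs with h3
      · subst h3
        simp only [List.nil_append, ps_cons, ps_nil]
        rw [hs (S.τ x v) v]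
        have k := add_self_two (φ v (S.τ x v))
        linear_combination -k
      · simp only [List.cons_append, List.nil_append, ps_cons, ps_nil]
        ring
  · rw [if_neg h1, S.w_not h1 hxv]
    by_cases h2 : S.mv z v
    · rw [if_pos h2, S.w_vm h2]
      split_ifs with h3
      · subst h3
        simp only [List.nil_append, ps_cons, ps_nil]
        rw [hs (S.τ z v) v]
        have k := add_self_two (φ v (S.τ z v))
        linear_combination -k
      · simp only [List.cons_append, List.nil_append, ps_cons, ps_nil]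
        ring
    · rw [if_neg h2, S.w_not hzv h2]
      simp only [List.cons_append, List.nil_append, ps_cons, ps_nil]
      ring

theorem Wk_seg {x v z : V} (hv : S.M v) (ex : K.E x v) (ez : K.E v z) {l : List V}
    (hl : Wk S.E' z l) : Wk S.E' x (seg S.mv S.τ x v z ++ z :: l) := by
  unfold seg
  by_cases h1 : S.mv x v
  · rw [if_pos h1]
    by_cases h2 : S.mv z v
    · rw [if_pos h2]
      split_ifs with h3
      · exact ⟨S.E'_τ h1, by rw [h3]; exact (S.E'_τ h2).symm, hl⟩
      · exact ⟨S.E'_τ h1, (S.E'_vτ h1).symm, S.E'_vτ h2, (S.E'_τ h2).symm, hl⟩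
    · rw [if_neg h2]
      split_ifs with h3
      · exact ⟨by rw [h3]; exact S.E'_τ h1, hl⟩
      · exact ⟨S.E'_τ h1, (S.E'_vτ h1).symm, (S.E'_of_M ez.symm hv h2).symm, hl⟩
  · rw [if_neg h1]
    by_cases h2 : S.mv z v
    · rw [if_pos h2]
      split_ifs with h3
      · exact ⟨by rw [h3]; exact (S.E'_τ h2).symm, hl⟩
      · exact ⟨S.E'_of_M ex hv h1, S.E'_vτ h2, (S.E'_τ h2).symm, hl⟩
    · rw [if_neg h2]
      exact ⟨S.E'_of_M ex hv h1, (S.E'_of_M ez.symm hv h2).symm, hl⟩

/-- properties of the new walk -/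
theorem slw_spec : ∀ (n : ℕ) (x : V) (l : List V), l.length ≤ n → ¬ S.M x → Wk K.E x l →
    ¬ S.M (tg x l) →
    Wk S.E' x (slw S.mv S.τ x l) ∧ tg x (slw S.mv S.τ x l) = tg x l ∧
    ((slw S.mv S.τ x l).length : ℤ) = l.length + sgs S.mv S.τ x l ∧
    ∀ φ : V → V → ZMod 2, (∀ x y, φ x y = φ y x) →
      ps φ x (slw S.mv S.τ x l) = ps φ x (sub S.w x l) := by
  intro n
  induction n with
  | zero =>
    intro x l hl _ _ _
    have : l = [] := List.length_eq_zero_iff.1 (by omega)
    subst this
    exact ⟨trivial, rfl, by simp [slw, sgs], fun _ _ => rfl⟩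
  | succ n ih =>
    intro x l hl hx hw ht
    match l, hl, hw, ht with
    | [], _, _, _ => exact ⟨trivial, rfl, by simp [slw, sgs], fun _ _ => rfl⟩
    | [y], _, hw, ht =>
      refine ⟨⟨S.E'_of_not hw.1 hx ht, trivial⟩, rfl, by simp [slw, sgs], fun φ _ => ?_⟩
      have h1 : ¬ S.mv x y := fun k => ht ⟨x, k⟩
      have h2 : ¬ S.mv y x := fun k => hx ⟨y, k⟩
      show ps φ x [y] = ps φ x (S.w x y ++ [])
      rw [S.w_not h1 h2]
      rfl
    | y :: z :: r, hl, hw, ht =>
      obtain ⟨e1, e2, hr⟩ := hw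
      have hwtg : ∀ x y, tg x (S.w x y) = y := by
        intro x y
        unfold w
        split_ifs <;> rfl
      have hsub : ∀ (φ : V → V → ZMod 2), ps φ x (sub S.w x (y :: z :: r)) =
          ps φ x (S.w x y) + ps φ y (S.w y z) + ps φ z (sub S.w z r) := by
        intro φ
        rw [sub_cons, sub_cons, ps_append, hwtg, ps_append, hwtg, add_assoc]
      by_cases hy : S.M y
      · have hz : ¬ S.M z := fun k => S.not_MM hy k e2
        have hlen : r.length ≤ n := by
          simp only [List.length_cons] at hl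
          omega
        obtain ⟨i1, i2, i3, i4⟩ := ih z r hlen hz hr ht
        have e : slw S.mv S.τ x (y :: z :: r) = seg S.mv S.τ x y z ++ z :: slw S.mv S.τ z r := by
          have hy' : ∃ n, S.mv n y := hy
          simp only [slw]
          rw [if_pos hy']
        rw [e]
        have hsgs : sgs S.mv S.τ y (z :: r) = sgs S.mv S.τ z r := by
          cases r with
          | nil => rfl
          | cons u r =>
            show sg S.mv S.τ y z u + sgs S.mv S.τ z (u :: r) = _
            rw [sg_of_not hz, zero_add]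
        refine ⟨S.Wk_seg hy e1 e2 i1, ?_, ?_, ?_⟩
        · rw [tg_append, tg_cons, i2]
          rfl
        · rw [List.length_append, List.length_cons]
          show _ = ((r.length + 1 + 1 : ℕ) : ℤ) + (sg S.mv S.τ x y z + sgs S.mv S.τ y (z :: r))
          rw [hsgs]
          unfold sg
          push_cast
          linarith
        · intro φ hs
          rw [S.ps_seg hs hy e1 e2, hsub, i4 φ hs]
      · have hlen : (z :: r).length ≤ n := by
          simp only [List.length_cons] at hl ⊢
          omega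
        obtain ⟨i1, i2, i3, i4⟩ := ih y (z :: r) hlen hy ⟨e2, hr⟩ ht
        have e : slw S.mv S.τ x (y :: z :: r) = y :: slw S.mv S.τ y (z :: r) := by
          have hy' : ¬ ∃ n, S.mv n y := hy
          simp only [slw]
          rw [if_neg hy']
        rw [e]
        refine ⟨⟨S.E'_of_not e1 hx hy, i1⟩, i2, ?_, ?_⟩
        · rw [List.length_cons]
          show _ = (((z :: r).length + 1 : ℕ) : ℤ) + (sg S.mv S.τ x y z + sgs S.mv S.τ y (z :: r))
          rw [sg_of_not hy]
          push_cast
          linarith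
        · intro φ hs
          have h1 : ¬ S.mv x y := fun k => hy ⟨x, k⟩
          have h2 : ¬ S.mv y x := fun k => hx ⟨y, k⟩
          rw [sub_cons, ps_append, hwtg, ← i4 φ hs, S.w_not h1 h2]
          simp

/-- the sum of `sg` over all corners of a closed walk -/
noncomputable def _root_.Pool.Agent.DI.csg {V : Type} (mv : V → V → Prop) (τ : V → V → V) (x : V) :
    List V → ℤ
  | [] => 0
  | y :: l => sgs mv τ x (y :: l ++ [y])

theorem sgs_skip {x y : V} (hy : ¬ S.M y) (l : List V) :
    sgs S.mv S.τ x (y :: l) = sgs S.mv S.τ y l := by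
  cases l with
  | nil => rfl
  | cons z l =>
    show sg S.mv S.τ x y z + sgs S.mv S.τ y (z :: l) = _
    rw [sg_of_not hy, zero_add]

theorem sgs_last : ∀ (x : V) (l : List V) (y : V), ¬ S.M (tg x l) →
    sgs S.mv S.τ x (l ++ [y]) = sgs S.mv S.τ x l := by
  intro x l
  induction l generalizing x with
  | nil => intro y _; rfl
  | cons z l ih =>
    intro y h
    cases l with
    | nil =>
      have h' : ¬ ∃ n, S.mv n z := h
      show sg S.mv S.τ x z y + 0 = 0
      rw [sg_of_not h', add_zero]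
    | cons u l =>
      show sg S.mv S.τ x z u + sgs S.mv S.τ z (u :: l ++ [y]) =
        sg S.mv S.τ x z u + sgs S.mv S.τ z (u :: l)
      rw [ih z y h]

open Classical in
/-- the base of the rotated cell -/
noncomputable def rb (i : K.I) : V :=
  match K.cw i with
  | [] => K.cb i
  | y :: _ => if S.M (K.cb i) then y else K.cb i

open Classical in
/-- the walk of the rotated cell -/
noncomputable def rl (i : K.I) : List V :=
  match K.cw i with
  | [] => []
  | y :: l => if S.M (K.cb i) then l ++ [y] else y :: l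

theorem rot_spec (i : K.I) :
    (S.rl i = [] ∨ ¬ S.M (S.rb i)) ∧ Wk K.E (S.rb i) (S.rl i) ∧ tg (S.rb i) (S.rl i) = S.rb i ∧
    ((S.rl i).length : ℤ) + sgs S.mv S.τ (S.rb i) (S.rl i) =
      (K.cw i).length + csg S.mv S.τ (K.cb i) (K.cw i) ∧
    ∀ φ : V → V → ZMod 2, ps φ (S.rb i) (S.rl i) = ps φ (K.cb i) (K.cw i) := by
  have hE : Wk K.E (K.cb i) (K.cw i) := K.c_E i
  have ht : tg (K.cb i) (K.cw i) = K.cb i := K.c_tg i
  unfold rb rl
  cases hc : K.cw i with
  | nil => exact ⟨Or.inl rfl, trivial, rfl, rfl, fun _ => rfl⟩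
  | cons y l =>
    rw [hc] at hE ht
    simp only
    by_cases hM : S.M (K.cb i)
    · rw [if_pos hM, if_pos hM]
      have hy : ¬ S.M y := fun k => S.not_MM hM k hE.1
      rw [tg_cons] at ht
      refine ⟨Or.inr hy, ?_, ?_, ?_, ?_⟩
      · rw [Wk_append, ht]
        exact ⟨hE.2, hE.1, trivial⟩
      · rw [tg_append]
        rfl
      · show _ = _ + sgs S.mv S.τ (K.cb i) (y :: (l ++ [y]))
        rw [S.sgs_skip hy]
        simp
      · intro φ
        rw [ps_append, ht, ps_cons, ps_cons, ps_nil]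
        ring
    · rw [if_neg hM, if_neg hM]
      refine ⟨Or.inr hM, hE, ht, ?_, fun _ => rfl⟩
      show _ = _ + sgs S.mv S.τ (K.cb i) (y :: l ++ [y])
      rw [S.sgs_last _ _ _ (by rw [ht]; exact hM)]

/-- properties of the new cells -/
theorem cell_spec (i : K.I) :
    Wk S.E' (S.rb i) (slw S.mv S.τ (S.rb i) (S.rl i)) ∧
    tg (S.rb i) (slw S.mv S.τ (S.rb i) (S.rl i)) = S.rb i ∧
    ((slw S.mv S.τ (S.rb i) (S.rl i)).length : ℤ) =
      (K.cw i).length + csg S.mv S.τ (K.cb i) (K.cw i) ∧
    ∀ φ : V → V → ZMod 2, (∀ x y, φ x y = φ y x) →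
      ps φ (S.rb i) (slw S.mv S.τ (S.rb i) (S.rl i)) = ps φ (K.cb i) (sub S.w (K.cb i) (K.cw i)) := by
  obtain ⟨h1, h2, h3, h4, h5⟩ := S.rot_spec i
  have hwtg : ∀ x y, tg x (S.w x y) = y := by
    intro x y
    unfold w
    split_ifs <;> rfl
  have hsub : ∀ φ : V → V → ZMod 2, ps φ (S.rb i) (sub S.w (S.rb i) (S.rl i)) =
      ps φ (K.cb i) (sub S.w (K.cb i) (K.cw i)) := by
    intro φ
    have e1 := ps_sub (f := fun x : V => x) (w := S.w) (E := K.E) (fun x y _ => hwtg x y) φ h2
    have e2 := ps_sub (f := fun x : V => x) (w := S.w) (E := K.E) (fun x y _ => hwtg x y) φ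
      (K.c_E i : Wk K.E (K.cb i) (K.cw i))
    rw [e1, e2, h5]
  rcases h1 with h1 | h1
  · rw [h1] at h3 h4 hsub ⊢
    refine ⟨trivial, rfl, h4, fun φ _ => ?_⟩
    rw [← hsub φ]
    rfl
  · obtain ⟨i1, i2, i3, i4⟩ := S.slw_spec _ _ _ le_rfl h1 h2 (by rw [h3]; exact h1)
    exact ⟨i1, i2.trans h3, i3.trans h4, fun φ hs => (i4 φ hs).trans (hsub φ)⟩

theorem ar'_rk {x y : V} (e : S.ar' x y) : K.rk y < K.rk x := by
  rcases e with ⟨e, -⟩ | ⟨v, e, rfl⟩
  · exact K.ar_rk _ _ e
  · exact lt_trans (K.ar_rk _ _ (S.τ_ar _ _ e)) (K.ar_rk _ _ (S.mv_ar _ _ e))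

/-- the complex after the slide -/
noncomputable def gx : GX H V where
  ar := S.ar'
  rk := K.rk
  I := K.I
  finI := K.finI
  cb := S.rb
  cw i := slw S.mv S.τ (S.rb i) (S.rl i)
  ar_rk := fun _ _ e => S.ar'_rk e
  ar_smul := by
    rintro h x y (⟨e, e'⟩ | ⟨v, e, rfl⟩)
    · exact Or.inl ⟨K.ar_smul h _ _ e, fun k => e' ((S.mv_iff h _ _).1 k)⟩
    · exact Or.inr ⟨h • v, S.mv_smul h _ _ e, S.τ_smul h _ _ e⟩
  rk_smul := K.rk_smul
  two := by
    classical
    have key : ∀ x y, S.ar' x y → ∃ p, K.ar x p ∧ (if S.mv x p then S.τ x p else p) = y := by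
      rintro x y (⟨e, e'⟩ | ⟨v, e, rfl⟩)
      · exact ⟨y, e, if_neg e'⟩
      · exact ⟨v, S.mv_ar _ _ e, if_pos e⟩
    intro v a b c ha hb hc
    obtain ⟨p, hp, rfl⟩ := key _ _ ha
    obtain ⟨q, hq, rfl⟩ := key _ _ hb
    obtain ⟨r, hr, rfl⟩ := key _ _ hc
    rcases K.two v p q r hp hq hr with h | h | h
    · exact Or.inl (by rw [h])
    · exact Or.inr (Or.inl (by rw [h]))
    · exact Or.inr (Or.inr (by rw [h]))
  c_E i := (S.cell_spec i).1
  c_tg i := (S.cell_spec i).2.1
  ne := K.ne
  conn := by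
    intro x y
    have h := K.conn x y
    induction h with
    | refl => exact Relation.ReflTransGen.refl
    | @tail b c _ e ih =>
      refine ih.trans ?_
      have e : K.E b c := e
      by_cases h1 : S.mv b c
      · exact (Relation.ReflTransGen.single (S.E'_τ h1)).tail (S.E'_vτ h1).symm
      · by_cases h2 : S.mv c b
        · exact (Relation.ReflTransGen.single (S.E'_vτ h2)).tail (S.E'_τ h2).symm
        · exact Relation.ReflTransGen.single (S.E'_of e h1 h2)
  H1 := by
    refine K.transport (E' := fun x y => S.ar' x y ∨ S.ar' y x) (fun x => x) S.w (fun _ _ => rfl)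
      ?_ ?_ ?_ ?_ ?_
    · intro x y _
      unfold w
      split_ifs <;> rfl
    · intro h x y _
      by_cases h1 : S.mv x y
      · rw [S.w_mv h1, S.w_mv (S.mv_smul h _ _ h1), S.τ_smul h _ _ h1]
        rfl
      · by_cases h2 : S.mv y x
        · rw [S.w_vm h2, S.w_vm (S.mv_smul h _ _ h2), S.τ_smul h _ _ h2]
          rfl
        · rw [S.w_not h1 h2, S.w_not (fun k => h1 ((S.mv_iff h _ _).1 k))
            (fun k => h2 ((S.mv_iff h _ _).1 k))]
          rfl
    · intro φ c x y _
      by_cases h1 : S.mv x y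
      · rw [S.w_mv h1, S.w_vm h1]
        simp only [ps_cons, ps_nil]
        rw [c.1 x, c.1 _ y]
        ring
      · by_cases h2 : S.mv y x
        · rw [S.w_mv h2, S.w_vm h2]
          simp only [ps_cons, ps_nil]
          rw [c.1 x, c.1 _ y]
          ring
        · rw [S.w_not h1 h2, S.w_not h2 h1]
          simp only [ps_cons, ps_nil]
          rw [c.1 x]
    · intro φ c i
      rw [← (S.cell_spec i).2.2.2 φ c.1]
      have := c.2 i 1
      simp only [one_smul, List.map_id'] at this
      exact this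
    · intro φ c g hg
      refine ⟨g, ?_⟩
      have key : ∀ x y, S.ar' x y → φ x y = g x + g y := by
        rintro x y (⟨e, e'⟩ | ⟨v, e, rfl⟩)
        · have h := hg x y (Or.inl e)
          have h2 : ¬ S.mv y x := fun k => absurd (K.ar_rk _ _ (S.mv_ar _ _ k))
            (not_lt.2 (K.ar_rk _ _ e).le)
          rw [S.w_not e' h2] at h
          simpa using h
        · have h := hg x v (Or.inl (S.mv_ar _ _ e))
          rw [S.w_mv e] at h
          have h' := hg v (S.τ x v) (Or.inl (S.τ_ar _ _ e))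
          have hn : ¬ S.mv (S.τ x v) v := fun k =>
            absurd (K.ar_rk _ _ (S.mv_ar _ _ k)) (not_lt.2 (K.ar_rk _ _ (S.τ_ar _ _ e)).le)
          rw [S.w_not (S.not_mv_τ e v) hn] at h'
          simp only [ps_cons, ps_nil, add_zero] at h h'
          rw [c.1 (S.τ x v) v, h'] at h
          have k := add_self_two (g v)
          have k2 := add_self_two (g (S.τ x v))
          linear_combination h - k2
      rintro x y (e | e)
      · exact key x y e
      · rw [c.1, key y x e, add_comm]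
  fin := K.fin
  stab := K.stab

theorem gx_length (i : K.I) : ((S.gx.cw i).length : ℤ) =
    (K.cw i).length + csg S.mv S.τ (K.cb i) (K.cw i) := (S.cell_spec i).2.2.1

end Sl

/-! ### Pentagons -/

section Pent

variable {H V : Type} [Group H] [MulAction H V] {K : PX H V} {hc : K.Clean}

/-- the length of the new cells, as a sum over the corners of the pentagon -/
theorem Sl.pent_length (S : Sl (ofClean K hc)) (i : K.I) : ((S.gx.cw i).length : ℤ) =
    5 + ∑ j : Fin 5, sg S.mv S.τ (K.pt i j) (K.pt i (j + 1)) (K.pt i (j + 2)) := by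
  rw [S.gx_length i]
  show ((5 : ℕ) : ℤ) + (sg S.mv S.τ (K.pt i 0) (K.pt i 1) (K.pt i 2) +
    (sg S.mv S.τ (K.pt i 1) (K.pt i 2) (K.pt i 3) + (sg S.mv S.τ (K.pt i 2) (K.pt i 3) (K.pt i 4) +
    (sg S.mv S.τ (K.pt i 3) (K.pt i 4) (K.pt i 0) +
    (sg S.mv S.τ (K.pt i 4) (K.pt i 0) (K.pt i 1) + 0))))) = _
  rw [Fin.sum_univ_five]
  have f0 : (0 : Fin 5) + 1 = 1 := rfl
  have f1 : (1 : Fin 5) + 1 = 2 := rfl
  have f2 : (2 : Fin 5) + 1 = 3 := rfl
  have f3 : (3 : Fin 5) + 1 = 4 := rfl
  have f4 : (4 : Fin 5) + 1 = 0 := rfl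
  have g0 : (0 : Fin 5) + 2 = 2 := rfl
  have g1 : (1 : Fin 5) + 2 = 3 := rfl
  have g2 : (2 : Fin 5) + 2 = 4 := rfl
  have g3 : (3 : Fin 5) + 2 = 0 := rfl
  have g4 : (4 : Fin 5) + 2 = 1 := rfl
  rw [f0, f1, f2, f3, f4, g0, g1, g2, g3, g4]
  push_cast
  ring

/-- the slide inequality -/
theorem Sl.ineq (S : Sl (ofClean K hc)) (hmin : K.AMin) [Fintype K.I] :
    (Fintype.card K.I : ℤ) ≤ ∑ i, max 0 (1 + ∑ j : Fin 5,
      sg S.mv S.τ (K.pt i j) (K.pt i (j + 1)) (K.pt i (j + 2))) := by
  have h1 := area_ge hmin S.gx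
  have h2 : S.gx.area = ∑ i : K.I, ((S.gx.cw i).length - 4) :=
    finsum_eq_sum_of_fintype (fun i : K.I => (S.gx.cw i).length - 4)
  rw [h2] at h1
  have h3 : K.A = Fintype.card K.I := Nat.card_eq_fintype_card
  rw [h3] at h1
  have h4 : (Fintype.card K.I : ℤ) ≤ ((∑ i : K.I, ((S.gx.cw i).length - 4) : ℕ) : ℤ) := by
    exact_mod_cast h1
  refine h4.trans ?_
  rw [Nat.cast_sum]
  apply Finset.sum_le_sum
  intro i _
  have h5 := S.pent_length i
  rcases le_total 4 (S.gx.cw i).length with h | h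
  · rw [Nat.cast_sub h, h5]
    push_cast
    apply le_max_of_le_right
    linarith
  · rw [Nat.sub_eq_zero_of_le h]
    exact le_max_left _ _

end Pent

end Pool.Agent.DI
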