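import Pool.Agent.DI.Cr
import Pool.Agent.DI.Slide

/-!
# The corners of the cells of a complex

`K.cr : Cr V` for `K : GX H V` (cells of any length) and `crP K : Cr V` for `K : PX H V` (pentagons). The
corners of the complex modulo the group are the positions of the listed cells (the cells are a free set).
-/

namespace Pool.Agent.DI

open MulAction
open Pool.Agent.BT (PX)

/-- the edges of a walk -/
theorem Wk_get {V : Type} {E : V → V → Prop} {x : V} {l : List V} (w : Wk E x l) (j : ℕ)
    (h : j < l.length) : E ((x :: l).getD j x) ((x :: l).getD (j + 1) x) := by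
  induction l generalizing x j with
  | nil => exact absurd h (Nat.not_lt_zero _)
  | cons y l ih =>
    cases j with
    | zero => exact w.1
    | succ j =>
      have hj : j < l.length := Nat.lt_of_succ_lt_succ h
      have h1 := ih w.2 j hj
      have e1 : (x :: y :: l).getD (j + 1) x = (y :: l).getD j y := by
        rw [List.getD_cons_succ, List.getD_eq_getElem _ _ (by simp; omega),
          List.getD_eq_getElem _ _ (by simp; omega)]
      have e2 : (x :: y :: l).getD (j + 1 + 1) x = (y :: l).getD (j + 1) y := by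
        rw [List.getD_cons_succ, List.getD_eq_getElem _ _ (by simp; omega),
          List.getD_eq_getElem _ _ (by simp; omega)]
      rw [e1, e2]
      exact h1

/-- the last vertex of a walk -/
theorem tg_get {V : Type} (x : V) (l : List V) : (x :: l).getD l.length x = tg x l := by
  induction l generalizing x with
  | nil => rfl
  | cons y l ih =>
    rw [tg_cons, ← ih y, List.length_cons, List.getD_cons_succ,
      List.getD_eq_getElem _ _ (by simp), List.getD_eq_getElem _ _ (by simp)]

namespace GX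

variable {H V : Type} [Group H] [MulAction H V] (K : GX H V)

/-- the length of a cell -/
def len (i : K.I) : ℕ := (K.cw i).length

/-- vertex number `j` of the cell `i`, periodic -/
def vx (i : K.I) (j : ℕ) : V := (K.cb i :: K.cw i).getD (j % K.len i) (K.cb i)

theorem vx_zero (i : K.I) : K.vx i 0 = K.cb i := by
  rw [vx, Nat.zero_mod]
  rfl

theorem vx_mod (i : K.I) (j : ℕ) : K.vx i (j % K.len i) = K.vx i j := by
  rw [vx, vx, Nat.mod_mod]

theorem vx_add_len (i : K.I) (j : ℕ) : K.vx i (j + K.len i) = K.vx i j := by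
  rw [vx, vx, Nat.add_mod_right]

theorem vx_of_lt {i : K.I} {j : ℕ} (h : j < K.len i) :
    K.vx i j = (K.cb i :: K.cw i).getD j (K.cb i) := by
  rw [vx, Nat.mod_eq_of_lt h]

theorem vx_of_le {i : K.I} {j : ℕ} (h : j ≤ K.len i) :
    K.vx i j = (K.cb i :: K.cw i).getD j (K.cb i) := by
  rcases h.lt_or_eq with h | h
  · exact K.vx_of_lt h
  · rw [h, vx, Nat.mod_self]
    have e := tg_get (K.cb i) (K.cw i)
    rw [K.c_tg] at e
    exact e.symm

theorem vx_E {i : K.I} (h : 0 < K.len i) (j : ℕ) : K.E (K.vx i j) (K.vx i (j + 1)) := by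
  have h1 : K.vx i j = K.vx i (j % K.len i) := (K.vx_mod i j).symm
  have h2 : K.vx i (j + 1) = K.vx i (j % K.len i + 1) := by
    rw [← K.vx_mod i (j + 1), ← K.vx_mod i (j % K.len i + 1), Nat.mod_add_mod]
  have h3 : j % K.len i < K.len i := Nat.mod_lt _ h
  rw [h1, h2, K.vx_of_le h3.le, K.vx_of_le h3]
  exact Wk_get (K.c_E i) _ h3

theorem len_ne_one (i : K.I) : K.len i ≠ 1 := by
  intro h
  have h1 := K.vx_E (i := i) (by omega) 0
  have h2 : K.vx i (0 + 1) = K.vx i 0 := by
    rw [← h, K.vx_add_len]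
  rw [h2] at h1
  exact K.E_irr _ h1

/-- positions -/
abbrev Pos : Type := Σ i : K.I, Fin (K.len i)

noncomputable instance : Fintype K.I := @Fintype.ofFinite _ K.finI

/-- the next position -/
def nxt : K.Pos ≃ K.Pos := Equiv.sigmaCongrRight (fun i => finRotate (K.len i))

theorem nxt_coe (p : K.Pos) : ((K.nxt p).2 : ℕ) = ((p.2 : ℕ) + 1) % K.len p.1 := by
  obtain ⟨i, j⟩ := p
  have : ∀ (n : ℕ) (j : Fin n), ((finRotate n j : Fin n) : ℕ) = ((j : ℕ) + 1) % n := by
    intro n j
    cases n with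
    | zero => exact j.elim0
    | succ n =>
      rw [finRotate_apply, Fin.val_add]
      simp
  exact this _ j

theorem vx_nxt (p : K.Pos) (k : ℕ) :
    K.vx p.1 (((K.nxt p).2 : ℕ) + k) = K.vx p.1 (p.2 + 1 + k) := by
  rw [nxt_coe, ← K.vx_mod, Nat.mod_add_mod, K.vx_mod]

/-- the corners of the cells -/
noncomputable def cr : Cr V where
  P := K.Pos
  ft := inferInstance
  v0 p := K.vx p.1 p.2
  v1 p := K.vx p.1 (p.2 + 1)
  v2 p := K.vx p.1 (p.2 + 2)
  nxt := K.nxt
  h0 p := K.vx_nxt p 0
  h1 p := K.vx_nxt p 1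

theorem cr_E01 (p : K.cr.P) : K.E (K.cr.v0 p) (K.cr.v1 p) :=
  K.vx_E (Nat.zero_lt_of_lt (show K.Pos from p).2.2) _

theorem cr_E12 (p : K.cr.P) : K.E (K.cr.v1 p) (K.cr.v2 p) :=
  K.vx_E (Nat.zero_lt_of_lt (show K.Pos from p).2.2) _

/-- the sum of a weight over the corners of a cell -/
noncomputable def ccs (i : K.I) (w : V → V → V → ℤ) : ℤ :=
  ∑ j : Fin (K.len i), w (K.vx i j) (K.vx i (j + 1)) (K.vx i (j + 2))

theorem cs_eq (w : V → V → V → ℤ) : K.cr.cs w = ∑ i, K.ccs i w := Fintype.sum_sigma _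

/-- the number of all corners -/
theorem cs_one : K.cr.cs (fun _ _ _ => 1) = ∑ i, (K.len i : ℤ) := by
  rw [cs_eq]
  refine Finset.sum_congr rfl fun i _ => ?_
  rw [ccs]
  simp

/-- an arrow is not equivalent to its reverse -/
theorem not_Tr_swap {v a x y : V} (h : K.ar v a) (t : Tr H v a x y) : ¬ Tr H a v x y := by
  obtain ⟨k, rfl, rfl⟩ := t
  rintro ⟨l, h1, -⟩
  have h2 := congrArg K.rk h1
  rw [K.rk_smul, K.rk_smul] at h2
  exact absurd (K.ar_rk _ _ h) (by omega)

/-- `λ` is the number of the corners at the lower end, counted with the leg -/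
theorem lam_top {v a : V} (h : K.ar v a) : K.cr.lam H v a =
    K.cr.cn (fun x y _ => Tr H a v y x) + K.cr.cn (fun _ y z => Tr H a v y z) := by
  rw [K.cr.lam_comm]
  exact K.cr.lam_eq fun x y t t' => K.not_Tr_swap h t' t

/-- `λ` is the number of the corners at the upper end, counted with the leg -/
theorem lam_bot {v a : V} (h : K.ar v a) : K.cr.lam H v a =
    K.cr.cn (fun x y _ => Tr H v a y x) + K.cr.cn (fun _ y z => Tr H v a y z) :=
  K.cr.lam_eq fun _ _ t => K.not_Tr_swap h t

/-- the moved edges of a slide -/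
theorem mvn_eq (S A : V → V → Prop) (hS : ∀ n v, S n v → K.ar n v) (hA : ∀ v a, A v a → K.ar v a) :
    K.cr.mvn S = K.cr.pn S A + K.cr.cut S A + 2 * K.cr.ssn S :=
  K.cr.mvn_eq S A (fun _ _ h h' => absurd (K.ar_rk _ _ (hS _ _ h))
      (by have := K.ar_rk _ _ (hS _ _ h'); omega))
    (fun _ _ h h' => absurd (K.ar_rk _ _ (hS _ _ h))
      (by have := K.ar_rk _ _ (hA _ _ h'); omega))

end GX

/-! ### pentagon complexes -/

section PX

variable {H V : Type} [Group H] [MulAction H V] (K : PX H V)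

/-- the corners of the pentagons -/
noncomputable def crP : Cr V where
  P := K.I × Fin 5
  ft := by
    haveI := K.finI
    haveI : Fintype K.I := Fintype.ofFinite _
    infer_instance
  v0 p := K.pt p.1 p.2
  v1 p := K.pt p.1 (p.2 + 1)
  v2 p := K.pt p.1 (p.2 + 2)
  nxt := Equiv.prodCongrRight (fun _ => finRotate 5)
  h0 p := by
    show K.pt p.1 (finRotate 5 p.2) = _
    rw [finRotate_apply]
  h1 p := by
    show K.pt p.1 (finRotate 5 p.2 + 1) = _
    rw [finRotate_apply, add_assoc]
    rfl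

theorem crP_E01 (p : (crP K).P) : K.E ((crP K).v0 p) ((crP K).v1 p) := K.pt_E p.1 p.2

theorem crP_E12 (p : (crP K).P) : K.E ((crP K).v1 p) ((crP K).v2 p) := by
  have h := K.pt_E p.1 (p.2 + 1)
  have e : p.2 + 1 + 1 = p.2 + 2 := by
    rw [add_assoc]
    rfl
  rwa [e] at h

/-- the sum over the corners of the pentagons -/
theorem crP_cs [Fintype K.I] (w : V → V → V → ℤ) : (crP K).cs w =
    ∑ i : K.I, ∑ j : Fin 5, w (K.pt i j) (K.pt i (j + 1)) (K.pt i (j + 2)) := by
  have h : ∀ (F G : Fintype (K.I × Fin 5)) (f : K.I × Fin 5 → ℤ),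
      (@Finset.sum _ _ _ (@Finset.univ _ F) f) = @Finset.sum _ _ _ (@Finset.univ _ G) f := by
    intro F G f
    rw [Subsingleton.elim F G]
  rw [← Fintype.sum_prod_type']
  exact h _ _ _

theorem crP_one : ((crP K).cn (fun _ _ _ => True) : ℤ) = 5 * K.A := by
  have := K.finI
  have : Fintype K.I := Fintype.ofFinite _
  rw [Cr.cn_true, PX.A, Nat.card_eq_fintype_card]
  have : Fintype.card (crP K).P = Fintype.card (K.I × Fin 5) := by
    refine Fintype.card_congr' rfl
  rw [this, Fintype.card_prod, Fintype.card_fin]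
  push_cast
  ring

/-- an arrow is not equivalent to its reverse -/
theorem crP_not_Tr_swap {v a x y : V} (h : K.ar v a) (t : Tr H v a x y) : ¬ Tr H a v x y := by
  obtain ⟨k, rfl, rfl⟩ := t
  rintro ⟨l, h1, -⟩
  have h2 := congrArg K.rk h1
  rw [K.rk_smul, K.rk_smul] at h2
  exact absurd (K.ar_rk _ _ h) (by omega)

/-- `λ` is the number of the corners at the lower end, counted with the leg -/
theorem crP_lam_top {v a : V} (h : K.ar v a) : (crP K).lam H v a =
    (crP K).cn (fun x y _ => Tr H a v y x) + (crP K).cn (fun _ y z => Tr H a v y z) := by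
  rw [(crP K).lam_comm]
  exact (crP K).lam_eq fun x y t t' => crP_not_Tr_swap K h t' t

/-- `λ` is the number of the corners at the upper end, counted with the leg -/
theorem crP_lam_bot {v a : V} (h : K.ar v a) : (crP K).lam H v a =
    (crP K).cn (fun x y _ => Tr H v a y x) + (crP K).cn (fun _ y z => Tr H v a y z) :=
  (crP K).lam_eq fun _ _ t => crP_not_Tr_swap K h t

/-- the moved edges of a slide -/
theorem crP_mvn_eq (S A : V → V → Prop) (hS : ∀ n v, S n v → K.ar n v)
    (hA : ∀ v a, A v a → K.ar v a) :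
    (crP K).mvn S = (crP K).pn S A + (crP K).cut S A + 2 * (crP K).ssn S :=
  (crP K).mvn_eq S A (fun _ _ h h' => absurd (K.ar_rk _ _ (hS _ _ h))
      (by have := K.ar_rk _ _ (hS _ _ h'); omega))
    (fun _ _ h h' => absurd (K.ar_rk _ _ (hS _ _ h))
      (by have := K.ar_rk _ _ (hA _ _ h'); omega))

/-- the change of length of a slide to one pole, summed over all pentagons, is `cut - p` -/
theorem crP_sg (S : V → V → Prop) (τ : V → V → V) (a : V → V)
    (hS : ∀ n v, S n v → K.ar n v) (hτ : ∀ n v, S n v → τ n v = a v)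
    (hA : ∀ n v, S n v → K.ar v (a v)) :
    (crP K).cs (sg S τ) = (crP K).cut S (fun v x => x = a v ∧ ∃ n, S n v) -
      (crP K).pn S (fun v x => x = a v ∧ ∃ n, S n v) := by
  classical
  have hSA : ∀ n v, S n v → n ≠ a v := by
    rintro n v h e
    have h1 := K.ar_rk _ _ (hS _ _ h)
    have h2 := K.ar_rk _ _ (hA _ _ h)
    rw [← e] at h2
    omega
  rw [Cr.cut, Cr.pn, Cr.cn_eq, Cr.cn_eq, ← Cr.cs_sub]
  refine (crP K).cs_congr fun p => ?_
  generalize (crP K).v0 p = x
  generalize (crP K).v1 p = v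
  generalize (crP K).v2 p = z
  unfold sg seg
  by_cases h1 : S x v <;> by_cases h2 : S z v
  · have e1 := hτ _ _ h1
    have e2 := hτ _ _ h2
    have n1 := hSA _ _ h1
    have n2 := hSA _ _ h2
    simp [h1, h2, e1, e2, n1, n2]
  · have e1 := hτ _ _ h1
    have n1 := hSA _ _ h1
    have ex : ∃ n, S n v := ⟨x, h1⟩
    by_cases h3 : z = a v
    · have h4 : ¬ S (a v) v := h3 ▸ h2
      simp [h1, e1, n1, h3, h4, ex]
    · simp [h1, h2, e1, n1, h3, ex]
  · have e1 := hτ _ _ h2
    have n1 := hSA _ _ h2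
    have ex : ∃ n, S n v := ⟨z, h2⟩
    by_cases h3 : x = a v
    · have h4 : ¬ S (a v) v := h3 ▸ h1
      simp [h2, e1, n1, h3, h4, ex]
    · simp [h1, h2, e1, n1, h3, ex]
  · simp [h1, h2]

end PX

end Pool.Agent.DI
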