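import Pool.Agent.DI.QFM2
import Pool.Agent.DI.Count
import Pool.Agent.DI.CutX
import Pool.Agent.DI.Repl

/-!
# The links of a complex as one graph with an action

`K.LN`: the pairs `(y, n)` of adjacent vertices (`n` is a node of the link of `y`). `K.LE`: the corners =
positions of the translates of the cells. `K.lk : JM H K.LN K.LE`: all links at once; `K.lk.fg`: all
links modulo the stabilisers. The cells have any length.
-/

namespace Pool.Agent.DI

open MulAction
open Pool.Agent.SAF (InC orbs FinOrb oc mk_eq_iff FinOrb_iff)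

/-! ### corners of lists by positions -/

section Lists

variable {V : Type}

theorem Cn3_iff (d : V) {a v b x : V} {l : List V} : Cn3 a v b x l ↔ ∃ j, j + 1 < l.length ∧
    a = (x :: l).getD j d ∧ v = (x :: l).getD (j + 1) d ∧ b = (x :: l).getD (j + 2) d := by
  induction l generalizing x with
  | nil =>
    constructor
    · exact fun h => h.elim
    · rintro ⟨j, hj, -⟩
      exact absurd hj (Nat.not_lt_zero _)
  | cons y l ih =>
    cases l with
    | nil =>
      constructor
      · exact fun h => h.elim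
      · rintro ⟨j, hj, -⟩
        exact absurd hj (by simp)
    | cons z l =>
      constructor
      · rintro (⟨rfl, rfl, rfl⟩ | h)
        · exact ⟨0, by simp, rfl, rfl, rfl⟩
        · obtain ⟨j, hj, h1, h2, h3⟩ := ih.1 h
          refine ⟨j + 1, by simpa using hj, ?_, ?_, ?_⟩
          · rw [List.getD_cons_succ]; exact h1
          · rw [List.getD_cons_succ]; exact h2
          · rw [List.getD_cons_succ]; exact h3
      · rintro ⟨j, hj, h1, h2, h3⟩
        cases j with
        | zero => exact Or.inl ⟨h1, h2, h3⟩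
        | succ j =>
          right
          apply ih.2
          rw [List.getD_cons_succ] at h1 h2 h3
          exact ⟨j, by simpa using hj, h1, h2, h3⟩

end Lists

namespace GX

variable {H V : Type} [Group H] [MulAction H V] (K : GX H V)

theorem CC_iff {a v b : V} (i : K.I) : CC a v b (K.cb i) (K.cw i) ↔
    ∃ j : Fin (K.len i), a = K.vx i j ∧ v = K.vx i (j + 1) ∧ b = K.vx i (j + 2) := by
  unfold CC
  rw [Cn3_iff (K.cb i)]
  rcases h : K.cw i with _ | ⟨y, l⟩
  · constructor
    · rintro ⟨j, hj, -⟩
      exact absurd hj (by simp)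
    · rintro ⟨j, -⟩
      have h2 : K.len i = 0 := by
        unfold len
        rw [h]
        rfl
      have h3 := j.2
      omega
  · have hl : K.len i = l.length + 1 := by
      unfold len
      rw [h]
      rfl
    have h1 : K.len i ≠ 1 := K.len_ne_one i
    have hlen : (y :: l ++ (y :: l).take 1).length = K.len i + 1 := by
      rw [hl]
      simp
    -- the entries
    have e1 : ∀ k, k ≤ K.len i → (K.cb i :: (y :: l ++ (y :: l).take 1)).getD k (K.cb i) =
        K.vx i k := by
      intro k hk
      rw [K.vx_of_le hk, h]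
      have hk1 : k < (K.cb i :: (y :: l)).length := by
        rw [List.length_cons, List.length_cons]
        omega
      have hk2 : k < (K.cb i :: (y :: l ++ (y :: l).take 1)).length := by
        rw [List.length_cons, hlen]
        omega
      rw [List.getD_eq_getElem _ _ hk1, List.getD_eq_getElem _ _ hk2]
      exact List.getElem_append_left (as := K.cb i :: (y :: l)) (bs := (y :: l).take 1) hk1
    have e2 : (K.cb i :: (y :: l ++ (y :: l).take 1)).getD (K.len i + 1) (K.cb i) =
        K.vx i (K.len i + 1) := by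
      have hk2 : K.len i + 1 < (K.cb i :: (y :: l ++ (y :: l).take 1)).length := by
        rw [List.length_cons, hlen]
        omega
      rw [List.getD_eq_getElem _ _ hk2]
      have hx : K.vx i (K.len i + 1) = y := by
        rw [add_comm, K.vx_add_len, K.vx_of_le (by omega), h]
        rfl
      rw [hx]
      have : (K.cb i :: (y :: l ++ (y :: l).take 1))[K.len i + 1]'hk2 =
          ((y :: l).take 1)[K.len i + 1 - (K.cb i :: (y :: l)).length]'(by
            rw [List.length_cons, List.length_cons, hl]; simp) := by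
        exact List.getElem_append_right (as := K.cb i :: (y :: l)) (bs := (y :: l).take 1)
          (by rw [List.length_cons, List.length_cons]; omega)
      rw [this]
      simp [hl]
    have e3 : ∀ k, k ≤ K.len i + 1 → (K.cb i :: (y :: l ++ (y :: l).take 1)).getD k (K.cb i) =
        K.vx i k := by
      intro k hk
      rcases Nat.lt_or_ge (K.len i) k with hk' | hk'
      · have : k = K.len i + 1 := by omega
        rw [this]
        exact e2
      · exact e1 k hk'
    constructor
    · rintro ⟨j, hj, h1, h2, h3⟩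
      rw [hlen] at hj
      refine ⟨⟨j, by omega⟩, ?_, ?_, ?_⟩
      · rw [h1]; exact e3 _ (by omega)
      · rw [h2]; exact e3 _ (by omega)
      · rw [h3]; exact e3 _ (by omega)
    · rintro ⟨j, h1, h2, h3⟩
      have hj := j.2
      refine ⟨j, by rw [hlen]; omega, ?_, ?_, ?_⟩
      · rw [h1]; exact (e3 _ (by omega)).symm
      · rw [h2]; exact (e3 _ (by omega)).symm
      · rw [h3]; exact (e3 _ (by omega)).symm

/-! ### nodes and corners -/

/-- the nodes of the links: pairs of adjacent vertices -/
def LN : SubMulAction H (V × V) where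
  carrier := {p | K.E p.1 p.2}
  smul_mem' h _ e := K.E_smul h e

/-- the corners: positions of the translates of the cells -/
def LE : Type := K.Pos × H

instance : MulAction H K.LE where
  smul g e := (e.1, g * e.2)
  one_smul e := Prod.ext rfl (one_mul _)
  mul_smul a b e := Prod.ext rfl (mul_assoc a b e.2)

/-- the vertices of a corner -/
noncomputable def c0 (e : K.LE) : V := e.2 • K.vx e.1.1 e.1.2

noncomputable def c1 (e : K.LE) : V := e.2 • K.vx e.1.1 (e.1.2 + 1)

noncomputable def c2 (e : K.LE) : V := e.2 • K.vx e.1.1 (e.1.2 + 2)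

theorem c0_smul (g : H) (e : K.LE) : K.c0 (g • e) = g • K.c0 e := mul_smul _ _ _

theorem c1_smul (g : H) (e : K.LE) : K.c1 (g • e) = g • K.c1 e := mul_smul _ _ _

theorem c2_smul (g : H) (e : K.LE) : K.c2 (g • e) = g • K.c2 e := mul_smul _ _ _

theorem c_E0 (e : K.LE) : K.E (K.c1 e) (K.c0 e) := by
  have h : 0 < K.len e.1.1 := Nat.zero_lt_of_lt e.1.2.2
  exact K.E_smul e.2 (K.vx_E h _).symm

theorem c_E2 (e : K.LE) : K.E (K.c1 e) (K.c2 e) := by
  have h : 0 < K.len e.1.1 := Nat.zero_lt_of_lt e.1.2.2
  exact K.E_smul e.2 (K.vx_E h _)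

/-- the corners are the triples of `Cor` -/
theorem cor_LE {a v b : V} : K.Cor a v b ↔ ∃ e : K.LE,
    (K.c0 e = a ∧ K.c1 e = v ∧ K.c2 e = b) ∨ (K.c0 e = b ∧ K.c1 e = v ∧ K.c2 e = a) := by
  have key : ∀ (i : K.I) (h : H) (a v b : V), CC a v b (K.tb i h) (K.tw i h) ↔
      ∃ j : Fin (K.len i), K.c0 (⟨i, j⟩, h) = a ∧ K.c1 (⟨i, j⟩, h) = v ∧
        K.c2 (⟨i, j⟩, h) = b := by
    intro i h a v b
    constructor
    · intro hc
      have h1 := CC_smul hc h⁻¹
      rw [inv_mul_cancel] at h1
      have h2 : K.tb i 1 = K.cb i := one_smul _ _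
      have h3 : K.tw i 1 = K.cw i := by
        unfold tw
        simp
      rw [h2, h3] at h1
      obtain ⟨j, e1, e2, e3⟩ := (K.CC_iff i).1 h1
      refine ⟨j, ?_, ?_, ?_⟩
      · show h • K.vx i j = a
        rw [← e1, smul_inv_smul]
      · show h • K.vx i (j + 1) = v
        rw [← e2, smul_inv_smul]
      · show h • K.vx i (j + 2) = b
        rw [← e3, smul_inv_smul]
    · rintro ⟨j, rfl, rfl, rfl⟩
      have h1 := ((K.CC_iff i).2 ⟨j, rfl, rfl, rfl⟩).map (fun z => h • z)
      exact h1
  constructor
  · rintro ⟨i, h, hc | hc⟩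
    · obtain ⟨j, hj⟩ := (key i h a v b).1 hc
      exact ⟨(⟨i, j⟩, h), Or.inl hj⟩
    · obtain ⟨j, hj⟩ := (key i h b v a).1 hc
      exact ⟨(⟨i, j⟩, h), Or.inr hj⟩
  · rintro ⟨⟨⟨i, j⟩, h⟩, hc | hc⟩
    · exact ⟨i, h, Or.inl ((key i h a v b).2 ⟨j, hc⟩)⟩
    · exact ⟨i, h, Or.inr ((key i h b v a).2 ⟨j, hc⟩)⟩

/-- the orbits of the corners are the positions -/
noncomputable def leq : orbitRel.Quotient H K.LE ≃ K.Pos where
  toFun := olift (fun e => e.1) (fun _ _ => rfl)
  invFun p := oq H ((p, 1) : K.LE)
  left_inv q := by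
    obtain ⟨e, rfl⟩ := oq_surj q
    rw [olift_oq]
    exact oq_eq.2 ⟨e.2, Prod.ext rfl (mul_one e.2).symm⟩
  right_inv p := by
    rw [olift_oq]

/-- ALL LINKS -/
noncomputable def lk : JM H ↥K.LN K.LE where
  s e := ⟨(K.c1 e, K.c0 e), K.c_E0 e⟩
  t e := ⟨(K.c1 e, K.c2 e), K.c_E2 e⟩
  hs j e := Subtype.ext (Prod.ext (K.c1_smul j e) (K.c0_smul j e))
  ht j e := Subtype.ext (Prod.ext (K.c1_smul j e) (K.c2_smul j e))
  fT := finite_orb_sub K.LN K.fin_E
  fE := Finite.of_equiv _ K.leq.symm

theorem lk_s (e : K.LE) : (K.lk.s e).1 = (K.c1 e, K.c0 e) := rfl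

theorem lk_t (e : K.LE) : (K.lk.t e).1 = (K.c1 e, K.c2 e) := rfl

/-- the number of the lines = the number of the positions -/
theorem lk_nL : K.lk.fg.nL = Nat.card K.Pos := Nat.card_congr K.leq

theorem cor_symm_st {x y : ↥K.LN} (h : K.lk.st x y) :
    x.1.1 = y.1.1 ∧ K.Cor x.1.2 x.1.1 y.1.2 := by
  obtain ⟨e, rfl, rfl⟩ := h
  exact ⟨rfl, K.cor_LE.2 ⟨e, Or.inl ⟨rfl, rfl, rfl⟩⟩⟩

/-- the components of the links -/
theorem lk_eqv {x y : ↥K.LN} : Relation.EqvGen K.lk.st x y ↔
    x.1.1 = y.1.1 ∧ K.LJ x.1.1 x.1.2 y.1.2 := by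
  constructor
  · intro h
    induction h with
    | rel x y h =>
      obtain ⟨h1, h2⟩ := K.cor_symm_st h
      exact ⟨h1, Relation.EqvGen.rel _ _ h2⟩
    | refl x => exact ⟨rfl, Relation.EqvGen.refl _⟩
    | symm x y _ ih => exact ⟨ih.1.symm, by rw [← ih.1]; exact ih.2.symm⟩
    | trans x y z _ _ h1 h2 =>
      exact ⟨h1.1.trans h2.1, h1.2.trans _ _ _ (by rw [h1.1]; exact h2.2)⟩
  · rintro ⟨h1, h2⟩
    have key : ∀ v a b, K.LJ v a b → ∀ (ha : K.E v a) (hb : K.E v b),
        Relation.EqvGen K.lk.st ⟨(v, a), ha⟩ ⟨(v, b), hb⟩ := by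
      intro v a b h
      induction h with
      | rel a b h =>
        intro ha hb
        obtain ⟨e, ⟨e0, e1, e2⟩ | ⟨e0, e1, e2⟩⟩ := K.cor_LE.1 h
        · apply Relation.EqvGen.rel
          refine ⟨e, Subtype.ext ?_, Subtype.ext ?_⟩
          · rw [lk_s, e0, e1]
          · rw [lk_t, e1, e2]
        · apply Relation.EqvGen.symm
          apply Relation.EqvGen.rel
          refine ⟨e, Subtype.ext ?_, Subtype.ext ?_⟩
          · rw [lk_s, e0, e1]
          · rw [lk_t, e1, e2]
      | refl a => intro ha hb; exact Relation.EqvGen.refl _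
      | symm a b _ ih => intro ha hb; exact (ih hb ha).symm
      | trans a b c k1 k2 ih1 ih2 =>
        intro ha hc
        by_cases hab : a = b
        · subst hab
          exact ih2 ha hc
        · have hb : K.E v b := by
            have : ∀ a b, K.LJ v a b → (K.E v a ↔ K.E v b) := by
              intro a b k
              induction k with
              | rel a b k => exact ⟨fun _ => k.E2, fun _ => k.E1⟩
              | refl a => exact Iff.rfl
              | symm a b _ ih => exact ih.symm
              | trans a b c _ _ i1 i2 => exact i1.trans i2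
            exact (this _ _ k1).1 ha
          exact (ih1 ha hb).trans _ _ _ (ih2 hb hc)
    obtain ⟨⟨v, a⟩, ha⟩ := x
    obtain ⟨⟨v', b⟩, hb⟩ := y
    have h1 : v = v' := h1
    subst h1
    exact key v a b h2 ha hb

/-- if the link of `y` is connected then the component is the whole link and its group is the
stabiliser of `y` -/
theorem lk_grp {y n : V} (e : K.E y n) (hc : K.LC y) :
    K.lk.grp ⟨(y, n), e⟩ = stabilizer H y := by
  ext j
  rw [JM.mem_grp, lk_eqv]
  constructor
  · rintro ⟨h1, -⟩
    exact h1.symm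
  · intro h
    have h : j • y = y := h
    refine ⟨h.symm, hc _ _ e ?_⟩
    have := K.E_smul j e
    rw [h] at this
    exact this

/-- the number of the lines of a complex with pentagons only -/
theorem card_pos (P : Pt K) : Nat.card K.Pos = 5 * K.area := by
  classical
  have := K.finI
  let := Fintype.ofFinite K.I
  have e : ∀ i, K.len i = 5 := by
    intro i
    unfold len
    rw [P.cw_eq]
    rfl
  rw [P.area_eq, Nat.card_eq_fintype_card]
  have h : Fintype.card K.Pos = ∑ i : K.I, Fintype.card (Fin (K.len i)) := Fintype.card_sigma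
  rw [h]
  simp [e, mul_comm]

end GX

end Pool.Agent.DI
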