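import Pool.Agent.DI.QK0b
import Pool.Agent.DI.Lk

/-!
# The wall of an edge with one crossing corner (owner: helper78)

`S : SyQ`, the edge `w u`, `u` has the neighbours `w` and `w'` only. `WC w u w' v`: the structure over
`u`, one lost vertex `v` (`J v = {u}`), at each pole `z` of `v` there is a cell which crosses the edge
with `v` cut off, and the corners of `z` which cross the edge are one orbit. Then every cell which
crosses the edge has a translate of `v` cut off (`WC.far`), every vertex which crosses the edge is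
adjacent to a translate of `v` (`WC.adj`); no wall is disconnected, no count is used.
-/

namespace Pool.Agent.DI

open MulAction
open Pool.Agent.SAF (InC orbs FinOrb oc Decomp SAn SA Conv hull dist_edge FinOrb_iff exists_next)
open Pool.Agent.BT (PX PQ JS bey exits)
open Pool.Agent.BT.TA

namespace GX

variable {H V : Type} [Group H] [MulAction H V] (K : GX H V)

/-- the vertices of the cell of a corner -/
noncomputable def vk (e : K.LE) (k : ℕ) : V := e.2 • K.vx e.1.1 (e.1.2 + k)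

theorem vk_smul (g : H) (e : K.LE) (k : ℕ) : K.vk (g • e) k = g • K.vk e k := mul_smul _ _ _

theorem vk_c0 (e : K.LE) : K.vk e 0 = K.c0 e := rfl

theorem vk_c1 (e : K.LE) : K.vk e 1 = K.c1 e := rfl

theorem vk_c2 (e : K.LE) : K.vk e 2 = K.c2 e := rfl

theorem vk_mod (e : K.LE) (k : ℕ) : K.vk e (k % K.len e.1.1) = K.vk e k := by
  unfold vk
  rw [← K.vx_mod e.1.1 (e.1.2 + k % K.len e.1.1), ← K.vx_mod e.1.1 (e.1.2 + k), Nat.add_mod_mod]

end GX

namespace P45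

variable {H V : Type} [Group H] [MulAction H V] {K : GX H V} (P : P45 K)

theorem ln5 {i : K.I} (hi : ¬ P.sq i) : K.len i = 5 := by
  unfold GX.len
  rw [P.cw5 i hi]
  rfl

theorem ln4 {i : K.I} (hi : P.sq i) : K.len i = 4 := by
  unfold GX.len
  rw [P.cw4 i hi]
  rfl

theorem vx5n {i : K.I} (hi : ¬ P.sq i) (n : ℕ) (j : Fin 5) (h : n % 5 = j) :
    K.vx i n = P.pt i j := by
  rw [← K.vx_mod, P.ln5 hi, h, K.vx_of_lt (by rw [P.ln5 hi]; exact j.2), P.cb5 i hi, P.cw5 i hi]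
  fin_cases j <;> rfl

theorem vx4n {i : K.I} (hi : P.sq i) (n : ℕ) (j : Fin 4) (h : n % 4 = j) :
    K.vx i n = P.qt i j := by
  rw [← K.vx_mod, P.ln4 hi, h, K.vx_of_lt (by rw [P.ln4 hi]; exact j.2), P.cb4 i hi, P.cw4 i hi]
  fin_cases j <;> rfl

variable {P}

theorem vk5 {e : K.LE} (hi : ¬ P.sq e.1.1) (k : ℕ) (j : Fin 5) (h : (e.1.2.1 + k) % 5 = j) :
    K.vk e k = e.2 • P.pt e.1.1 j := by
  unfold GX.vk
  rw [P.vx5n hi _ j h]

theorem vk4 {e : K.LE} (hi : P.sq e.1.1) (k : ℕ) (j : Fin 4) (h : (e.1.2.1 + k) % 4 = j) :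
    K.vk e k = e.2 • P.qt e.1.1 j := by
  unfold GX.vk
  rw [P.vx4n hi _ j h]

/-- the corner of a pentagon at its first vertex -/
theorem _root_.Pool.Agent.DI.Qn.le {a q b y z : V} (h : Qn P a q b y z) : ∃ e : K.LE,
    ¬ P.sq e.1.1 ∧ K.c1 e = a ∧
    ((K.c0 e = z ∧ K.c2 e = q ∧ K.vk e 3 = b ∧ K.vk e 4 = y) ∨
      (K.c0 e = q ∧ K.c2 e = z ∧ K.vk e 3 = y ∧ K.vk e 4 = b)) := by
  obtain ⟨g, i, j, hi, h⟩ := h
  have hl := P.ln5 hi
  have hm : ∀ m : ℕ, m % 5 < K.len i := fun m => by rw [hl]; exact Nat.mod_lt _ (by norm_num)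
  have key : ∀ (m k : ℕ) (j' : Fin 5), (m + k) % 5 = j' →
      K.vk ((⟨i, ⟨m % 5, hm m⟩⟩, g) : K.LE) k = g • P.pt i j' := by
    intro m k j' h'
    refine vk5 (P := P) (e := ((⟨i, ⟨m % 5, hm m⟩⟩, g) : K.LE)) hi k j' ?_
    show (m % 5 + k) % 5 = j'
    rw [Nat.mod_add_mod]
    exact h'
  rcases h with ⟨rfl, rfl, rfl, rfl, rfl⟩ | ⟨rfl, rfl, rfl, rfl, rfl⟩
  · refine ⟨(⟨i, ⟨(j.1 + 4) % 5, hm _⟩⟩, g), hi, ?_, Or.inl ⟨?_, ?_, ?_, ?_⟩⟩
    · exact key _ 1 j (by omega)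
    · exact key _ 0 (j + 4) (by fin_cases j <;> rfl)
    · exact key _ 2 (j + 1) (by fin_cases j <;> rfl)
    · exact key _ 3 (j + 2) (by fin_cases j <;> rfl)
    · exact key _ 4 (j + 3) (by fin_cases j <;> rfl)
  · refine ⟨(⟨i, ⟨(j.1 + 1) % 5, hm _⟩⟩, g), hi, ?_, Or.inr ⟨?_, ?_, ?_, ?_⟩⟩
    · exact key _ 1 (j + 2) (by fin_cases j <;> rfl)
    · exact key _ 0 (j + 1) (by fin_cases j <;> rfl)
    · exact key _ 2 (j + 3) (by fin_cases j <;> rfl)
    · exact key _ 3 (j + 4) (by fin_cases j <;> rfl)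
    · exact key _ 4 j (by fin_cases j <;> rfl)

/-- the corner of a square at its first vertex -/
theorem _root_.Pool.Agent.DI.Q4.le {a q b y : V} (h : Q4 P a q b y) : ∃ e : K.LE,
    P.sq e.1.1 ∧ K.c1 e = a ∧ K.vk e 3 = b ∧
    ((K.c0 e = y ∧ K.c2 e = q) ∨ (K.c0 e = q ∧ K.c2 e = y)) := by
  obtain ⟨g, i, j, hi, h⟩ := h
  have hl := P.ln4 hi
  have hm : ∀ m : ℕ, m % 4 < K.len i := fun m => by rw [hl]; exact Nat.mod_lt _ (by norm_num)
  have key : ∀ (m k : ℕ) (j' : Fin 4), (m + k) % 4 = j' →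
      K.vk ((⟨i, ⟨m % 4, hm m⟩⟩, g) : K.LE) k = g • P.qt i j' := by
    intro m k j' h'
    refine vk4 (P := P) (e := ((⟨i, ⟨m % 4, hm m⟩⟩, g) : K.LE)) hi k j' ?_
    show (m % 4 + k) % 4 = j'
    rw [Nat.mod_add_mod]
    exact h'
  rcases h with ⟨rfl, rfl, rfl, rfl⟩ | ⟨rfl, rfl, rfl, rfl⟩
  · refine ⟨(⟨i, ⟨(j.1 + 3) % 4, hm _⟩⟩, g), hi, ?_, ?_, Or.inl ⟨?_, ?_⟩⟩
    · exact key _ 1 j (by omega)
    · exact key _ 3 (j + 2) (by fin_cases j <;> rfl)
    · exact key _ 0 (j + 3) (by fin_cases j <;> rfl)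
    · exact key _ 2 (j + 1) (by fin_cases j <;> rfl)
  · refine ⟨(⟨i, ⟨(j.1 + 1) % 4, hm _⟩⟩, g), hi, ?_, ?_, Or.inr ⟨?_, ?_⟩⟩
    · exact key _ 1 (j + 2) (by fin_cases j <;> rfl)
    · exact key _ 3 j (by fin_cases j <;> rfl)
    · exact key _ 0 (j + 1) (by fin_cases j <;> rfl)
    · exact key _ 2 (j + 3) (by fin_cases j <;> rfl)

/-- the vertices of the cell of a corner of a pentagon -/
theorem vk5_cases {e : K.LE} (hi : ¬ P.sq e.1.1) (k : ℕ) : K.vk e k = K.c0 e ∨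
    K.vk e k = K.c1 e ∨ K.vk e k = K.c2 e ∨ K.vk e k = K.vk e 3 ∨ K.vk e k = K.vk e 4 := by
  rw [← K.vk_mod, P.ln5 hi]
  have h : k % 5 < 5 := Nat.mod_lt _ (by norm_num)
  generalize k % 5 = m at h
  interval_cases m
  · exact Or.inl rfl
  · exact Or.inr (Or.inl rfl)
  · exact Or.inr (Or.inr (Or.inl rfl))
  · exact Or.inr (Or.inr (Or.inr (Or.inl rfl)))
  · exact Or.inr (Or.inr (Or.inr (Or.inr rfl)))

/-- the vertices of the cell of a corner of a square -/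
theorem vk4_cases {e : K.LE} (hi : P.sq e.1.1) (k : ℕ) : K.vk e k = K.c0 e ∨
    K.vk e k = K.c1 e ∨ K.vk e k = K.c2 e ∨ K.vk e k = K.vk e 3 := by
  rw [← K.vk_mod, P.ln4 hi]
  have h : k % 4 < 4 := Nat.mod_lt _ (by norm_num)
  generalize k % 4 = m at h
  interval_cases m
  · exact Or.inl rfl
  · exact Or.inr (Or.inl rfl)
  · exact Or.inr (Or.inr (Or.inl rfl))
  · exact Or.inr (Or.inr (Or.inr rfl))

end P45

namespace SyQ

variable {H V : Type} [Group H] [MulAction H V] (S : SyQ H V)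

/-- the structure over a midpoint -/
structure OvQ (w u w' : S.X) : Prop where
  hw : S.D.G.Adj u w
  hw' : S.D.G.Adj u w'
  ne : w ≠ w'
  val : ∀ z, S.D.G.Adj u z → z = w ∨ z = w'
  u1 : ∀ x y, S.K.E x y → u ∈ S.J x → u ∈ S.J y → S.J x = {u} ∨ S.J y = {u}
  pol : ∀ v, S.J v = {u} → ∃ a, S.K.ar v a
  crs : ∀ v a, S.J v = {u} → S.K.ar v a → w ∈ S.J a ∧ w' ∈ S.J a

/-- a corner crosses the edge -/
def Xe (w u : S.X) (e : S.K.LE) : Prop :=
  (S.J (S.K.c0 e) ⊆ bey S.D.G w u ∧ S.J (S.K.c2 e) ⊆ bey S.D.G u w) ∨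
  (S.J (S.K.c2 e) ⊆ bey S.D.G w u ∧ S.J (S.K.c0 e) ⊆ bey S.D.G u w)

/-- the corners of `z` which cross the edge are one orbit -/
def UqC (w u : S.X) (z : V) : Prop := ∀ e e' : S.K.LE, S.K.c1 e = z → S.K.c1 e' = z →
  S.Xe w u e → S.Xe w u e' → ∃ g : H, g • z = z ∧ g • w = w ∧ g • u = u ∧ e' = g • e

/-- the corners of `z` which cross the edge are one orbit, as triples -/
def UqK (w u : S.X) (z : V) : Prop := ∀ x v n m, S.K.Cor x z v → S.J x ⊆ bey S.D.G w u →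
  S.J v ⊆ bey S.D.G u w → S.K.Cor n z m → S.J n ⊆ bey S.D.G w u → S.J m ⊆ bey S.D.G u w →
    ∃ g : H, g • z = z ∧ g • w = w ∧ g • u = u ∧ n = g • x ∧ m = g • v

/-- the wall of a thin step -/
structure WC (w u w' : S.X) (v : V) : Prop where
  ov : S.OvQ w u w'
  Jv : S.J v = {u}
  cz : ∀ z, S.K.ar v z → ∃ b, S.CC w u z v b ∧ S.Cs w u b
  uq : ∀ z, S.K.ar v z → S.UqK w u z

variable {S}

theorem ne_mem {u z : S.X} {v : V} (h : S.J v = {u}) (hz : z ∈ S.J v) : z = u := by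
  rw [h] at hz
  exact hz

theorem Js_smul {g : H} {u : S.X} {v : V} (h : S.J v = {u}) : S.J (g • v) = {g • u} := by
  ext y
  rw [Set.mem_singleton_iff]
  constructor
  · intro hy
    have h1 : g • g⁻¹ • y ∈ S.J (g • v) := by rwa [smul_inv_smul]
    have h2 := (S.mem_smul_iff g v (g⁻¹ • y)).1 h1
    rw [← ne_mem h h2, smul_inv_smul]
  · rintro rfl
    rw [S.mem_smul_iff, h]
    rfl

/-- translating a side by an element which fixes the edge -/
theorem sub_bey_fix {g : H} {w u : S.X} (hw : g • w = w) (hu : g • u = u) {x : V} :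
    S.J (g • x) ⊆ bey S.D.G w u ↔ S.J x ⊆ bey S.D.G w u := by
  constructor
  · intro h
    have h1 := S.sub_bey_smul g⁻¹ h
    rwa [inv_smul_smul, inv_smul_eq_iff.2 hw.symm, inv_smul_eq_iff.2 hu.symm] at h1
  · intro h
    have h1 := S.sub_bey_smul g h
    rwa [hw, hu] at h1

theorem Cs_fix {g : H} {w u : S.X} (hw : g • w = w) (hu : g • u = u) {x : V} :
    S.Cs w u (g • x) ↔ S.Cs w u x := by
  constructor
  · intro h
    have h1 := h.smul g⁻¹
    rwa [inv_smul_smul, inv_smul_eq_iff.2 hw.symm, inv_smul_eq_iff.2 hu.symm] at h1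
  · intro h
    have h1 := h.smul g
    rwa [hw, hu] at h1

theorem cor5 {a q b y z : V} (h : Qn S.P a q b y z) : S.K.Cor z a q := by
  obtain ⟨e, -, h1, h⟩ := h.le
  apply S.K.cor_LE.2
  rcases h with ⟨e0, e2, -, -⟩ | ⟨e0, e2, -, -⟩
  · exact ⟨e, Or.inl ⟨e0, h1, e2⟩⟩
  · exact ⟨e, Or.inr ⟨e0, h1, e2⟩⟩

theorem cor4 {a q b y : V} (h : Q4 S.P a q b y) : S.K.Cor y a q := by
  obtain ⟨e, -, h1, -, h⟩ := h.le
  apply S.K.cor_LE.2
  rcases h with ⟨e0, e2⟩ | ⟨e0, e2⟩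
  · exact ⟨e, Or.inl ⟨e0, h1, e2⟩⟩
  · exact ⟨e, Or.inr ⟨e0, h1, e2⟩⟩

/-- the corner of a cell which crosses the edge with `q` cut off -/
theorem CC.cor {w u : S.X} {a q b : V} (h : S.CC w u a q b) : S.J q ⊆ bey S.D.G w u ∧
    ∃ n, S.K.Cor q a n ∧ S.J n ⊆ bey S.D.G u w := by
  obtain ⟨hq, ⟨y, z, hp, hy, hz⟩ | ⟨y, hp, hy⟩⟩ := h
  · exact ⟨hq, z, (cor5 hp).symm, hz⟩
  · exact ⟨hq, y, (cor4 hp).symm, hy⟩

/-! ### the structure over the midpoint -/

theorem OvQ.no_self {w u w' : S.X} (o : S.OvQ w u w') {x v : V} (hx : S.J x = {u})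
    (hv : S.J v = {u}) : ¬ S.K.E x v := by
  rintro (h | h)
  · exact o.hw.ne (ne_mem hv (o.crs x v hx h).1).symm
  · exact o.hw.ne (ne_mem hx (o.crs v x hv h).1).symm

/-- a point of `J x` beyond `u` -/
theorem OvQ.next {w u w' : S.X} (o : S.OvQ w u w') {x : V} {p : S.X} (hu : u ∈ S.J x)
    (hp : p ∈ S.J x) (hb : p ∈ bey S.D.G w u) (hw' : w' ∉ S.J x) : p = u := by
  by_contra hne
  obtain ⟨z, hz, e⟩ := exists_next S.D.tree (fun h : u = p => hne h.symm)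
  have hpz : p ∈ bey S.D.G u z := by
    show S.D.G.dist p u = S.D.G.dist p z + 1
    rw [SimpleGraph.dist_comm, e, SimpleGraph.dist_comm]
  have hzx : z ∈ S.J x :=
    (conv_cr S.D.tree (S.js.conv x) hz hu hp (bey_self hz.symm) hpz).2
  rcases o.val z hz with rfl | rfl
  · exact bey_not hb hpz
  · exact hw' hzx

/-- an element with an arrow to a lost vertex crosses one edge at `u` only -/
theorem OvQ.page {w u w' : S.X} (o : S.OvQ w u w') {x v : V} (h1 : u ∈ S.J x)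
    (h2 : S.J v = {u}) (h3 : S.K.ar x v) : ¬ (w ∈ S.J x ∧ w' ∈ S.J x) := by
  rintro ⟨k1, k2⟩
  obtain ⟨a, a1, a2⟩ := S.js.cross x ⟨v, h3⟩ u w o.hw h1 k1
  obtain ⟨b, b1, b2⟩ := S.js.cross x ⟨v, h3⟩ u w' o.hw' h1 k2
  obtain ⟨p, hp⟩ := S.js.ne a
  obtain ⟨q, hq⟩ := S.js.ne b
  rcases S.K.two x a b v a1 b1 h3 with e | e | e
  · subst e
    exact o.ne (S.bey_unique o.hw o.hw' (a2 hp) (b2 hp))
  · subst e
    have := b2 hq
    rw [ne_mem h2 hq] at this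
    exact bey_not this (bey_self o.hw'.symm)
  · subst e
    have := a2 hp
    rw [ne_mem h2 hp] at this
    exact bey_not this (bey_self o.hw.symm)

/-- the lost vertex of a page is unique -/
theorem OvQ.uniq {w u w' : S.X} (o : S.OvQ w u w') {x v v' : V} (hx : S.Cs w u x)
    (h2 : S.J v = {u}) (h2' : S.J v' = {u}) (h3 : S.K.ar x v) (h3' : S.K.ar x v') : v = v' := by
  obtain ⟨a, a1, a2⟩ := S.js.cross x ⟨v, h3⟩ u w o.hw hx.2 hx.1
  obtain ⟨p, hp⟩ := S.js.ne a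
  have hna : ∀ v'', S.J v'' = {u} → a ≠ v'' := by
    rintro v'' hv e
    subst e
    have := a2 hp
    rw [ne_mem hv hp] at this
    exact bey_not this (bey_self o.hw.symm)
  rcases S.K.two x v v' a h3 h3' a1 with e | e | e
  · exact e
  · exact absurd e.symm (hna v' h2')
  · exact absurd e.symm (hna v h2)

/-- a node of a page beyond the edge is the lost vertex -/
theorem OvQ.far_eq {w u w' : S.X} (o : S.OvQ w u w') {x v n : V} (hx : S.Cs w u x)
    (hv : S.J v = {u}) (h3 : S.K.ar x v) (e : S.K.E x n) (hn : S.J n ⊆ bey S.D.G w u) :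
    n = v := by
  have hw' : w' ∉ S.J x := fun h => o.page hx.2 hv h3 ⟨hx.1, h⟩
  obtain ⟨p, p0, p1⟩ := S.one_ex e
  have hp := o.next hx.2 p0 (hn p1) hw'
  rw [hp] at p1
  rcases o.u1 x n e hx.2 p1 with h | h
  · exact absurd (ne_mem h hx.1) o.hw.ne.symm
  · rcases e with e | e
    · exact o.uniq hx h hv e h3
    · exact absurd (o.crs n x h e).2 hw'

variable {w u w' : S.X} {v : V}

/-- the wall of the edge near a pole -/
theorem WC.one_pole (h : S.WC w u w' v) {z q n : V} (hz : S.K.ar v z)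
    (hc : S.K.Cor q z n) (hq : S.J q ⊆ bey S.D.G w u) (hn : S.J n ⊆ bey S.D.G u w) :
    ∃ j : H, j • z = z ∧ j • w = w ∧ j • u = u ∧ q = j • v := by
  obtain ⟨b0, hc0, hb0⟩ := h.cz z hz
  obtain ⟨hv, m, hm, hm'⟩ := hc0.cor
  obtain ⟨g, gz, gw, gu, e, -⟩ := h.uq z hz v m q n hm hv hm' hc hq hn
  exact ⟨g, gz, gw, gu, e⟩

/-- no pentagon crosses the edge with two vertices on the side of `u` -/
theorem WC.no_pole (h : S.WC w u w' v) {z q b y y' : V} (hz : S.K.ar v z) (hb : S.Cs w u b)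
    (hq : Qn S.P z q b y y') (hn : S.J q ⊆ bey S.D.G u w)
    (hy' : S.J y' ⊆ bey S.D.G w u) : False := by
  obtain ⟨g, -, -, gu, e⟩ := h.one_pole hz (cor5 hq) hy' hn
  have hJ := Js_smul (g := g) h.Jv
  rw [gu, ← e] at hJ
  obtain ⟨p, p0, p1⟩ := S.one_ex hq.E4
  rw [ne_mem hJ p1] at p0
  rcases h.ov.u1 _ _ hq.E3 hb.2 p0 with k | k
  · exact h.ov.hw.ne (ne_mem k hb.1).symm
  · exact h.ov.no_self k hJ hq.E4

/-- the vertices of the edge which are adjacent to a translate of `v` -/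
def Mv (w u : S.X) (v x : V) : Prop := ∃ j : H, j • w = w ∧ j • u = u ∧ S.K.E (j • v) x

theorem WC.one_aux (h : S.WC w u w' v) {a q b : V} (ha : S.Cs w u a) (hb : S.Cs w u b)
    (hM : S.Mv w u v a) (hc : S.CC w u a q b) :
    ∃ j : H, j • w = w ∧ j • u = u ∧ q = j • v := by
  obtain ⟨j, jw, ju, he⟩ := hM
  have jw' : j⁻¹ • w = w := inv_smul_eq_iff.2 jw.symm
  have ju' : j⁻¹ • u = u := inv_smul_eq_iff.2 ju.symm
  have he' : S.K.E v (j⁻¹ • a) := by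
    have := S.K.E_smul j⁻¹ he
    rwa [inv_smul_smul] at this
  have hc' := CC.smul S j⁻¹ hc
  rw [jw', ju'] at hc'
  have ha' : S.Cs w u (j⁻¹ • a) := (Cs_fix jw' ju').2 ha
  have hb' : S.Cs w u (j⁻¹ • b) := (Cs_fix jw' ju').2 hb
  rcases he' with he' | he'
  · obtain ⟨hq, n, hn, hn'⟩ := hc'.cor
    obtain ⟨g, -, gw, gu, e⟩ := h.one_pole he' hn hq hn'
    refine ⟨j * g, by rw [mul_smul, gw, jw], by rw [mul_smul, gu, ju], ?_⟩
    rw [mul_smul, ← e, smul_inv_smul]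
  · have e := h.ov.far_eq ha' h.Jv he' hc'.E1 hc'.1
    exact ⟨j, jw, ju, by rw [← e, smul_inv_smul]⟩

theorem WC.no_aux (h : S.WC w u w' v) {a q b y z : V} (ha : S.Cs w u a) (hb : S.Cs w u b)
    (hM : S.Mv w u v a) (hq : Qn S.P a q b y z) (hn : S.J q ⊆ bey S.D.G u w)
    (hy : S.J y ⊆ bey S.D.G w u) (hz : S.J z ⊆ bey S.D.G w u) : False := by
  obtain ⟨j, jw, ju, he⟩ := hM
  have jw' : j⁻¹ • w = w := inv_smul_eq_iff.2 jw.symm
  have ju' : j⁻¹ • u = u := inv_smul_eq_iff.2 ju.symm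
  have he' : S.K.E v (j⁻¹ • a) := by
    have := S.K.E_smul j⁻¹ he
    rwa [inv_smul_smul] at this
  have hq' := hq.smul j⁻¹
  have ha' : S.Cs w u (j⁻¹ • a) := (Cs_fix jw' ju').2 ha
  have hb' : S.Cs w u (j⁻¹ • b) := (Cs_fix jw' ju').2 hb
  have hy' : S.J (j⁻¹ • y) ⊆ bey S.D.G w u := (sub_bey_fix jw' ju').2 hy
  have hz' : S.J (j⁻¹ • z) ⊆ bey S.D.G w u := (sub_bey_fix jw' ju').2 hz
  have hn' : S.J (j⁻¹ • q) ⊆ bey S.D.G u w := (sub_bey_fix ju' jw').2 hn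
  rcases he' with he' | he'
  · exact h.no_pole he' hb' hq' hn' hz'
  · -- a page
    have e := h.ov.far_eq ha' h.Jv he' (Or.symm hq'.E5) hz'
    -- `y` is adjacent to `v`, hence over `u`
    have e1 : S.K.E (j⁻¹ • y) v := by
      have := hq'.E4
      rwa [e] at this
    obtain ⟨p, p0, p1⟩ := S.one_ex e1
    rw [ne_mem h.Jv p1] at p0
    rcases h.ov.u1 _ _ hq'.E3 hb'.2 p0 with k | k
    · exact h.ov.hw.ne (ne_mem k hb'.1).symm
    · exact h.ov.no_self k h.Jv e1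

/-- one step of the wall -/
theorem WC.step (h : S.WC w u w' v) {a b : V} (hp : S.PW w u a b) (hM : S.Mv w u v a) :
    S.Mv w u v b := by
  obtain ⟨-, ha, hb, q, hc | hc⟩ := hp
  · obtain ⟨j, jw, ju, e⟩ := h.one_aux ha hb hM hc
    have := hc.E2
    rw [e] at this
    exact ⟨j, jw, ju, this⟩
  · obtain ⟨hn, ⟨y, z, hq, hy, hz⟩ | ⟨y, hq, hy⟩⟩ := hc
    · exact absurd (h.no_aux ha hb hM hq hn hy hz) id
    · have hc' : S.CC w u a y b := ⟨hy, Or.inr ⟨q, hq.rot.rot.symm, hn⟩⟩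
      obtain ⟨j, jw, ju, e⟩ := h.one_aux ha hb hM hc'
      have := hc'.E2
      rw [e] at this
      exact ⟨j, jw, ju, this⟩

/-- EVERY VERTEX WHICH CROSSES THE EDGE IS ADJACENT TO A TRANSLATE OF `v` -/
theorem WC.adj (h : S.WC w u w' v) (hc : S.Conn) {x : V} (hx : S.Cs w u x) :
    S.Mv w u v x := by
  obtain ⟨z, hz⟩ := h.ov.pol v h.Jv
  have hzu : S.Cs w u z := by
    obtain ⟨p, p0, p1⟩ := S.one_ex (Or.inl hz : S.K.E v z)
    rw [ne_mem h.Jv p0] at p1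
    exact ⟨(h.ov.crs v z h.Jv hz).1, p1⟩
  have h0 : S.Mv w u v z := ⟨1, one_smul _ _, one_smul _ _, by rw [one_smul]; exact Or.inl hz⟩
  have key : ∀ a b, Relation.EqvGen (S.PW w u) a b → (S.Mv w u v a ↔ S.Mv w u v b) := by
    intro a b k
    induction k with
    | rel a b k => exact ⟨h.step k, h.step k.symm'⟩
    | refl a => exact Iff.rfl
    | symm a b _ ih => exact ih.symm
    | trans a b c _ _ i1 i2 => exact i1.trans i2
  exact (key _ _ (hc.wall w u h.ov.hw.symm z x hzu hx)).1 h0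

/-- EVERY CELL WHICH CROSSES THE EDGE HAS A TRANSLATE OF `v` CUT OFF -/
theorem WC.far (h : S.WC w u w' v) (hc : S.Conn) {a q b : V} (ha : S.Cs w u a)
    (hb : S.Cs w u b) (hq : S.CC w u a q b) : ∃ j : H, j • w = w ∧ j • u = u ∧ q = j • v :=
  h.one_aux ha hb (h.adj hc ha) hq

/-- no pentagon crosses the edge with two vertices on the side of `u` -/
theorem WC.no_two (h : S.WC w u w' v) (hc : S.Conn) {a q b y z : V} (ha : S.Cs w u a)
    (hb : S.Cs w u b) (hq : Qn S.P a q b y z) (hn : S.J q ⊆ bey S.D.G u w)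
    (hy : S.J y ⊆ bey S.D.G w u) (hz : S.J z ⊆ bey S.D.G w u) : False :=
  h.no_aux ha hb (h.adj hc ha) hq hn hy hz

/-- a cell which crosses the edge: some translate of `v` is cut off -/
theorem WC.far' (h : S.WC w u w' v) (hc : S.Conn) {a q b : V} (ha : S.Cs w u a)
    (hb : S.Cs w u b) (hq : S.CC u w a q b) : ∃ y, Q4 S.P a q b y ∧ S.CC w u a y b := by
  obtain ⟨hn, ⟨y, z, hq, hy, hz⟩ | ⟨y, hq, hy⟩⟩ := hq
  · exact absurd (h.no_two hc ha hb hq hn hy hz) id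
  · exact ⟨y, hq, hy, Or.inr ⟨q, hq.rot.rot.symm, hn⟩⟩

/-- a vertex which crosses both edges at `u` is a pole of a translate of `v` -/
theorem WC.both (h : S.WC w u w' v) (hc : S.Conn) {x : V} (hx : S.Cs w u x) (hx' : w' ∈ S.J x) :
    ∃ j : H, j • w = w ∧ j • u = u ∧ S.K.ar (j • v) x := by
  obtain ⟨j, jw, ju, he | he⟩ := h.adj hc hx
  · exact ⟨j, jw, ju, he⟩
  · exfalso
    have hJ := Js_smul (g := j) h.Jv
    rw [ju] at hJ
    exact h.ov.page hx.2 hJ he ⟨hx.1, hx'⟩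

end SyQ

end Pool.Agent.DI
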