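import Pool.Agent.DI.XtL
import Pool.Agent.DI.FCb
import Pool.Agent.DI.WallC

/-!
# Bounds of the pole excess and of the number of the arrows of cells (owner: helper79)

`P.tops`: the tops; `P.spT`: the special tops (an element of the stabiliser moves one side to the other);
`fx`: the other neighbour of a flag; `P.FS`: the flags which are strands of pentagons; `P.wexc`: the pole
excess by walks, # strands of pentagons + # walks `n → T → a` of squares - # private poles.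
In the raw class (`hs : P.SqE E`, `x1`: one strand at every arrow of a top):
* `wexc_le : P.wexc ≤ 5 * K.area` (for any number of tops);
* `pexc_le : K.pexc ≤ 5 * K.area + oc H P.spT`;
* `ars_le : oc H A + P.sm P.TA ≤ 5 * K.area` for an invariant set `A` of arrows of cells, no arrow of a top.
-/

namespace Pool.Agent.DI

open MulAction
open Pool.Agent.SAF (InC orbs FinOrb oc mk_eq_iff FinOrb_iff oc_mono oc_le_of_inj oc_le_of_rel
  oc_le_of_surj)

namespace P45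

variable {H V : Type} [Group H] [MulAction H V] {K : GX H V} (P : P45 K)

/-- the other neighbour of a flag -/
noncomputable def fx (f : FL K) : V := if f.2 = true then K.c0 f.1 else K.c2 f.1

/-- the tops -/
def tops : Set V := {T | ∃ a b y, P.Top T a b y}

/-- the special tops -/
def spT : Set V := {T | ∃ a b y, P.Top T a b y ∧ ∃ g : H, g • T = T ∧ g • a = b}

/-- the flags of the squares along arrows -/
def RQ : Set (FL K) := {f | P.sq f.1.1.1 ∧ K.ar (fy f) (fz f)}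

/-- the strands of the pentagons -/
def FS : Set (FL K) := {f | f ∈ P.RP ∧ K.ar (fx f) (fy f)}

/-- the flags at the direct corners of the pentagons -/
def FD : Set (FL K) := {f | f ∈ P.RP ∧ ¬ K.ar (fx f) (fy f)}

/-- THE POLE EXCESS BY WALKS: every walk of a square once -/
noncomputable def wexc : ℤ := (oc H P.FS : ℤ) + oc H P.ZP - oc H K.pols

variable {P}

theorem fx_smul (h : H) (f : FL K) : fx (h • f) = h • fx f := by
  obtain ⟨e, b⟩ := f
  cases b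
  · exact K.c2_smul h e
  · exact K.c0_smul h e

theorem fl_E1 (f : FL K) : K.E (fy f) (fx f) := by
  obtain ⟨e, b⟩ := f
  cases b
  · exact K.c_E2 e
  · exact K.c_E0 e

theorem fl_cor (f : FL K) : K.Cor (fx f) (fy f) (fz f) := by
  obtain ⟨e, b⟩ := f
  cases b
  · exact (K.cor_c e).symm
  · exact K.cor_c e

theorem out_of_not {a b : V} (h : K.E a b) (k : ¬ K.ar b a) : K.ar a b := h.resolve_right k

/-- the walk of a flag of a square -/
theorem fl_Q4e {f : FL K} (h : P.sq f.1.1.1) : ∃ q, Q4 P (fx f) (fy f) (fz f) q := by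
  obtain ⟨⟨⟨i, j⟩, g⟩, b⟩ := f
  have h : P.sq i := h
  have hm : ∀ m, m % 4 < 4 := fun m => Nat.mod_lt _ (by norm_num)
  have k := Q4_qt (P := P) g h ⟨j.1 % 4, hm _⟩
  have e0 : K.c0 ((⟨i, j⟩, g) : K.LE) = g • P.qt i ⟨j.1 % 4, hm _⟩ :=
    congrArg (g • ·) (P.vx4n h _ _ rfl)
  have e1 : K.c1 ((⟨i, j⟩, g) : K.LE) = g • P.qt i (⟨j.1 % 4, hm _⟩ + 1) := by
    refine congrArg (g • ·) (P.vx4n h _ _ ?_)
    show (j.1 + 1) % 4 = (j.1 % 4 + 1) % 4
    omega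
  have e2 : K.c2 ((⟨i, j⟩, g) : K.LE) = g • P.qt i (⟨j.1 % 4, hm _⟩ + 2) := by
    refine congrArg (g • ·) (P.vx4n h _ _ ?_)
    show (j.1 + 2) % 4 = (j.1 % 4 + 2) % 4
    omega
  rw [← e0, ← e1, ← e2] at k
  cases b
  · exact ⟨_, k.symm⟩
  · exact ⟨_, k⟩

/-- the flags of a walk of a square -/
theorem Q4_fl {n T a q : V} (h : Q4 P n T a q) : ∃ e : K.LE, P.sq e.1.1 ∧ K.c1 e = T ∧
    ((K.c0 e = n ∧ K.c2 e = a) ∨ (K.c0 e = a ∧ K.c2 e = n)) := by
  obtain ⟨e, h1, h2, -, h3⟩ := h.rot.le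
  exact ⟨e, h1, h2, h3⟩

theorem Q4_cor {n T a q : V} (h : Q4 P n T a q) : K.Cor a T n := by
  obtain ⟨e, -, h1, h3⟩ := Q4_fl h
  rcases h3 with ⟨h3, h4⟩ | ⟨h3, h4⟩
  · exact K.cor_LE.2 ⟨e, Or.inr ⟨h3, h1, h4⟩⟩
  · exact K.cor_LE.2 ⟨e, Or.inl ⟨h3, h1, h4⟩⟩

/-! ### tops -/

theorem tops_smul (h : H) : ∀ T ∈ P.tops, h • T ∈ P.tops := by
  rintro T ⟨a, b, y, k⟩
  exact ⟨h • a, h • b, h • y, k.smul h⟩

theorem spT_smul (h : H) : ∀ T ∈ P.spT, h • T ∈ P.spT := by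
  rintro T ⟨a, b, y, k, g, hg, hb⟩
  refine ⟨h • a, h • b, h • y, k.smul h, h * g * h⁻¹, ?_, ?_⟩
  · rw [mul_smul, mul_smul, inv_smul_smul, hg]
  · rw [mul_smul, mul_smul, inv_smul_smul, hb]

theorem spT_sub : P.spT ⊆ P.tops := fun _ ⟨a, b, y, k, _⟩ => ⟨a, b, y, k⟩

theorem fin_tops : FinOrb H P.tops := by
  refine SAF.FinOrb.image (fin_TA (P := P)) Prod.fst ?_ ?_
  · rintro T ⟨a, b, y, k⟩
    exact ⟨(T, a), ⟨b, y, k⟩, 1, one_smul _ _⟩
  · rintro a - _ - ⟨g, rfl⟩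
    exact ⟨g, rfl⟩

theorem fin_spT : FinOrb H P.spT := fin_tops.mono spT_sub

theorem tp_Top0 {i : K.I} (hi : P.sq i) {j : Fin 4} (h : P.tp i j) :
    P.Top (P.qt i j) (P.qt i (j + 3)) (P.qt i (j + 1)) (P.qt i (j + 2)) := by
  have k := Q4_qt (P := P) (1 : H) hi (j + 3)
  simp only [one_smul] at k
  have e1 : j + 3 + 1 = j := by
    have : ∀ j : Fin 4, j + 3 + 1 = j := by decide
    exact this j
  have e2 : j + 3 + 2 = j + 1 := by
    have : ∀ j : Fin 4, j + 3 + 2 = j + 1 := by decide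
    exact this j
  have e3 : j + 3 + 3 = j + 2 := by
    have : ∀ j : Fin 4, j + 3 + 3 = j + 2 := by decide
    exact this j
  rw [e1, e2, e3] at k
  exact ⟨k, h.2, h.1⟩

/-- the arrows of the tops and the special tops -/
theorem oc_TA_spT {E : V → Prop} (hs : P.SqE E) :
    oc H P.TA + oc H P.spT = 2 * oc H P.tops := by
  have hR : ∀ (g : H) (y z : V), (y, z) ∈ P.TA → (g • y, g • z) ∈ P.TA :=
    fun g y z h => TA_smul g (y, z) h
  have e1 : {p : V × V | p.1 ∈ P.tops ∧ (p.1, p.2) ∈ P.TA} = P.TA := by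
    ext p
    constructor
    · exact fun h => h.2
    · intro h
      obtain ⟨b, y, k⟩ := id h
      exact ⟨⟨p.2, b, y, k⟩, h⟩
  have e2 : {y | y ∈ P.tops ∧ Spc H (fun T a => (T, a) ∈ P.TA) y} = P.spT := by
    ext T
    constructor
    · rintro ⟨-, g, hg, a, ⟨b, y, k⟩, hne⟩
      have k : P.Top T a b y := k
      refine ⟨a, b, y, k, g, hg, ?_⟩
      have h1 := K.ar_smul g _ _ k.2.1
      rw [hg] at h1
      exact (hs.sides k h1).resolve_left hne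
    · rintro ⟨a, b, y, k, g, hg, hb⟩
      refine ⟨⟨a, b, y, k⟩, g, hg, a, ⟨b, y, k⟩, ?_⟩
      rw [hb]
      exact fun e => hs.nab _ _ _ _ k e.symm
  have h := oc_pairs (G := H) (Q := P.tops) (R := fun T a => (T, a) ∈ P.TA)
    (fun g y hy => tops_smul g y hy) hR ?_ fin_tops (by rw [e1]; exact fin_TA)
  · rw [e1, e2] at h
    exact h
  · rintro T ⟨a, b, y, k⟩
    refine ⟨a, b, hs.nab _ _ _ _ k, ⟨b, y, k⟩, ⟨a, y, k.symm'⟩, ?_⟩
    rintro c ⟨b', y', k'⟩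
    exact hs.sides k k'.2.1

/-- one orbit of squares for every orbit of tops -/
theorem card_sq_le {E : V → Prop} (hs : P.SqE E) : Nat.card {i : K.I // P.sq i} ≤ oc H P.tops := by
  have ft : Finite ↥(orbs H P.tops) := Set.Finite.to_subtype fin_tops
  unfold oc
  rw [← Nat.card_coe_set_eq]
  choose r hr using hs.top
  apply Nat.card_le_card_of_injective (fun i : {i : K.I // P.sq i} =>
    (⟨omk H (P.qt i.1 (r i.1 i.2)), _, ⟨_, _, _, tp_Top0 i.2 (hr i.1 i.2)⟩, rfl⟩ :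
      ↥(orbs H P.tops)))
  intro i i' e
  obtain ⟨h, hh⟩ := omk_eq.1 (congrArg Subtype.val e)
  exact Subtype.ext (hs.one _ _ i'.2 i.2 _ _ (hr _ i'.2) (hr _ i.2) h hh).symm

/-! ### flags of the squares -/

theorem oc_sq_LE : oc H {e : K.LE | P.sq e.1.1} ≤ 4 * Nat.card {i : K.I // P.sq i} := by
  classical
  have := K.finI
  have h1 : oc H {e : K.LE | P.sq e.1.1} ≤ Nat.card ({i : K.I // P.sq i} × Fin 4) := by
    unfold oc
    rw [← Nat.card_coe_set_eq]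
    have key : ∀ q : ↥(orbs H {e : K.LE | P.sq e.1.1}), ∃ e : K.LE, P.sq e.1.1 ∧
        omk H e = q.1 := by
      rintro ⟨q, e, he, rfl⟩
      exact ⟨e, he, rfl⟩
    choose r hr1 hr2 using key
    apply Nat.card_le_card_of_injective
      (fun q => ((⟨(r q).1.1, hr1 q⟩ : {i : K.I // P.sq i}),
        (⟨(r q).1.2.1, by
          have h2 := (r q).1.2.2
          have h3 := P.len4 (hr1 q)
          omega⟩ : Fin 4)))
    intro q q' e
    have e1 : (r q).1.1 = (r q').1.1 := congrArg Subtype.val (Prod.ext_iff.1 e).1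
    have e2 : (r q).1.2.1 = (r q').1.2.1 := congrArg Fin.val (Prod.ext_iff.1 e).2
    apply Subtype.ext
    rw [← hr2 q, ← hr2 q']
    have e3 : (r q).1 = (r q').1 := by
      generalize (r q).1 = p at e1 e2
      generalize (r q').1 = p' at e1 e2
      obtain ⟨i, j⟩ := p
      obtain ⟨i', j'⟩ := p'
      have e1 : i = i' := e1
      subst e1
      have e2 : j.1 = j'.1 := e2
      rw [Fin.ext e2]
    refine omk_eq.2 ⟨(r q).2 * (r q').2⁻¹, Prod.ext e3.symm ?_⟩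
    show (r q).2 * (r q').2⁻¹ * (r q').2 = (r q).2
    rw [inv_mul_cancel_right]
  rw [Nat.card_prod, Nat.card_eq_fintype_card (α := Fin 4), Fintype.card_fin, mul_comm] at h1
  exact h1

theorem fin_RQ : FinOrb H P.RQ := fin_FL.mono (Set.subset_univ _)

/-- the arrows of the squares: each position once -/
theorem oc_RQ_le : oc H P.RQ ≤ 4 * Nat.card {i : K.I // P.sq i} := by
  refine le_trans ?_ (oc_sq_LE (P := P))
  have hf : FinOrb H {e : K.LE | P.sq e.1.1} := K.fin_LE.mono (Set.subset_univ _)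
  refine oc_le_of_inj hf (fun f => if f.2 = true then f.1 else K.pv f.1) ?_ ?_
  · rintro ⟨e, b⟩ ⟨h1, -⟩
    cases b
    · exact h1
    · exact h1
  · rintro ⟨e, b⟩ ⟨h1, h2⟩ ⟨e', b'⟩ ⟨h1', h2'⟩ ⟨h, k⟩
    cases b <;> cases b'
    · have k : h • K.pv e = K.pv e' := k
      have k2 : K.nx (h • K.pv e) = K.nx (K.pv e') := by rw [k]
      rw [K.nx_smul, K.nx_pv, K.nx_pv] at k2
      exact ⟨h, Prod.ext k2 rfl⟩
    · have k : h • K.pv e = e' := k
      exfalso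
      have a1 : K.c1 e' = h • K.c0 e := by
        rw [← k, K.c1_smul, K.c1_pv]
      have a2 : K.c2 e' = h • K.c1 e := by
        rw [← k, K.c2_smul, K.c2_pv]
      have b1 : K.ar (K.c1 e) (K.c0 e) := h2
      have b2 : K.ar (K.c1 e') (K.c2 e') := h2'
      rw [a1, a2] at b2
      exact GX.not_both' (K.ar_smul h _ _ b1) b2
    · have k : h • e = K.pv e' := k
      exfalso
      have a1 : h • K.c1 e = K.c0 e' := by
        rw [← K.c1_smul, k, K.c1_pv]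
      have a2 : h • K.c2 e = K.c1 e' := by
        rw [← K.c2_smul, k, K.c2_pv]
      have b1 : K.ar (K.c1 e) (K.c2 e) := h2
      have b2 : K.ar (K.c1 e') (K.c0 e') := h2'
      rw [← a1, ← a2] at b2
      exact GX.not_both' (K.ar_smul h _ _ b1) b2
    · exact ⟨h, Prod.ext k rfl⟩

/-- the direct corners of the squares: two flags for every top -/
theorem two_tops_le :
    2 * oc H P.tops ≤ oc H {f : FL K | f ∈ P.RQ ∧ ¬ K.ar (fx f) (fy f)} := by
  have key : ∀ T ∈ P.tops, ∀ b : Bool, ∃ f : FL K, (f ∈ P.RQ ∧ ¬ K.ar (fx f) (fy f)) ∧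
      f.2 = b ∧ fy f = T := by
    rintro T ⟨a, b, y, k⟩ c
    obtain ⟨e, h1, h2, h3⟩ := Q4_fl k.1
    have k0 : K.ar (K.c1 e) (K.c0 e) := by
      rcases h3 with h | h
      · rw [h2, h.1]
        exact k.2.1
      · rw [h2, h.1]
        exact k.2.2
    have k2 : K.ar (K.c1 e) (K.c2 e) := by
      rcases h3 with h | h
      · rw [h2, h.2]
        exact k.2.2
      · rw [h2, h.2]
        exact k.2.1
    refine ⟨(e, c), ?_, rfl, h2⟩
    cases c
    · exact ⟨⟨h1, k0⟩, GX.not_both' k2⟩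
    · exact ⟨⟨h1, k2⟩, GX.not_both' k0⟩
  have hf : FinOrb H {f : FL K | f ∈ P.RQ ∧ ¬ K.ar (fx f) (fy f)} :=
    fin_FL.mono (Set.subset_univ _)
  have h2 := oc_split (G := H) hf (fun f => f.2 = true) (fun g f _ _ h => h)
  have h3 : oc H P.tops ≤ oc H {f : FL K | f ∈ {f : FL K | f ∈ P.RQ ∧ ¬ K.ar (fx f) (fy f)} ∧
      f.2 = true} := by
    refine oc_le_of_surj (hf.mono fun _ k => k.1) fy ?_ ?_
    · intro T hT
      obtain ⟨f, h1, h2, h3⟩ := key T hT true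
      exact ⟨f, ⟨h1, h2⟩, 1, by rw [h3, one_smul]⟩
    · rintro f - _ - ⟨g, rfl⟩
      exact ⟨g, (fy_smul g f).symm⟩
  have h4 : oc H P.tops ≤ oc H {f : FL K | f ∈ {f : FL K | f ∈ P.RQ ∧ ¬ K.ar (fx f) (fy f)} ∧
      ¬ f.2 = true} := by
    refine oc_le_of_surj (hf.mono fun _ k => k.1) fy ?_ ?_
    · intro T hT
      obtain ⟨f, h1, h2, h3⟩ := key T hT false
      exact ⟨f, ⟨h1, by rw [h2]; exact Bool.false_ne_true⟩, 1, by rw [h3, one_smul]⟩
    · rintro f - _ - ⟨g, rfl⟩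
      exact ⟨g, (fy_smul g f).symm⟩
  omega

/-! ### poles -/

theorem fin_FS : FinOrb H P.FS := fin_FL.mono (Set.subset_univ _)

theorem fin_FD : FinOrb H P.FD := fin_FL.mono (Set.subset_univ _)

/-- the strands of a pole -/
theorem X_pos {T a : V} (h : 1 ≤ P.X T a) : (∃ f ∈ P.RP, (fy f, fz f) = (T, a)) ∨
    ∃ q n, ((T, a), (q, n)) ∈ P.ZP := by
  by_contra hc
  rw [not_or] at hc
  obtain ⟨h1, h2⟩ := hc
  have e1 : {f : FL K | f ∈ P.RP ∧ (fy f, fz f) = (T, a)} = ∅ := by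
    ext f
    exact ⟨fun k => h1 ⟨f, k.1, k.2⟩, fun k => k.elim⟩
  have e2 : {p : (V × V) × (V × V) | p ∈ P.ZP ∧ p.1 = (T, a)} = ∅ := by
    ext p
    refine ⟨fun k => h2 ⟨p.2.1, p.2.2, ?_⟩, fun k => k.elim⟩
    rw [← k.2]
    exact k.1
  unfold X at h
  rw [e1, e2, oc_empty, oc_empty] at h
  omega

/-- a private pole or a direct corner of a pentagon at every arrow of a top -/
theorem oc_TA_pols (x1 : ∀ p ∈ P.TA, 1 ≤ P.X p.1 p.2) :
    oc H P.TA ≤ oc H K.pols + oc H P.FD := by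
  have h1 : P.TA ⊆ {p : V × V | ∃ C, PN.pol p.1 p.2 C ∈ K.pols} ∪
      {p : V × V | ∃ f ∈ P.FD, (fy f, fz f) = p} := by
    intro p hp
    rcases X_pos (x1 p hp) with ⟨f, hf, e⟩ | ⟨q, n, hq, ha, hn⟩
    · have e : (fy f, fz f) = p := e
      by_cases hx : K.ar (fx f) (fy f)
      · left
        refine ⟨K.Pc (fy f) (fx f), ?_⟩
        rw [← e]
        exact ⟨_, _, _, rfl, hf.2, hx, (fl_cor f).symm⟩
      · exact Or.inr ⟨f, ⟨hf, hx⟩, e⟩
    · have hq : Q4 P n p.1 p.2 q := hq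
      exact Or.inl ⟨K.Pc p.1 n, _, _, _, rfl, ha, hn, Q4_cor hq⟩
  have f1 : FinOrb H {p : V × V | ∃ C, PN.pol p.1 p.2 C ∈ K.pols} := by
    have h : FinOrb H {p : V × V | K.E p.1 p.2} := K.fin_E
    refine h.mono ?_
    rintro p ⟨C, y, a, n, e, h1, -⟩
    obtain ⟨e1, e2, -⟩ := PN.pol.inj e
    show K.E p.1 p.2
    rw [e1, e2]
    exact Or.inl h1
  have f2 : FinOrb H {p : V × V | ∃ f ∈ P.FD, (fy f, fz f) = p} := by
    refine SAF.FinOrb.image (fin_FD (P := P)) (fun f => (fy f, fz f)) ?_ ?_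
    · rintro p ⟨f, hf, e⟩
      exact ⟨f, hf, 1, by rw [one_smul]; exact e⟩
    · rintro f - _ - ⟨g, rfl⟩
      exact ⟨g, (fyz_smul g f).symm⟩
  have h2 : oc H P.TA ≤ oc H ({p : V × V | ∃ C, PN.pol p.1 p.2 C ∈ K.pols} ∪
      {p : V × V | ∃ f ∈ P.FD, (fy f, fz f) = p}) := oc_mono (finOrb_union f1 f2) h1
  have h3 : oc H {p : V × V | ∃ C, PN.pol p.1 p.2 C ∈ K.pols} ≤ oc H K.pols := by
    refine oc_le_of_rel K.fin_pols (fun p t => ∃ C, t = PN.pol p.1 p.2 C) ?_ ?_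
    · rintro p ⟨C, hC⟩
      exact ⟨_, hC, C, rfl⟩
    · rintro p - p' - _ - _ - ⟨C, rfl⟩ ⟨C', rfl⟩ ⟨h, e⟩
      rw [PN.smul_pol] at e
      obtain ⟨e1, e2, -⟩ := PN.pol.inj e
      exact ⟨h, Prod.ext e1 e2⟩
  have h4 : oc H {p : V × V | ∃ f ∈ P.FD, (fy f, fz f) = p} ≤ oc H P.FD := by
    refine oc_le_of_surj fin_FD (fun f => (fy f, fz f)) ?_ ?_
    · rintro p ⟨f, hf, e⟩
      exact ⟨f, hf, 1, by rw [one_smul]; exact e⟩
    · rintro f - _ - ⟨g, rfl⟩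
      exact ⟨g, (fyz_smul g f).symm⟩
  have h5 := oc_union_le (G := H) {p : V × V | ∃ C, PN.pol p.1 p.2 C ∈ K.pols}
    {p : V × V | ∃ f ∈ P.FD, (fy f, fz f) = p}
  omega

theorem oc_FS_FD : oc H P.FS + oc H P.FD = oc H P.RP := by
  have h := oc_split (G := H) (fin_RP (P := P)) (fun f => K.ar (fx f) (fy f))
    (fun g f _ _ k => by
      show K.ar (fx (g • f)) (fy (g • f))
      rw [fx_smul, fy_smul]
      exact K.ar_smul g _ _ k)
  exact h.symm

/-- THE BOUND OF THE POLE EXCESS BY WALKS -/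
theorem wexc_le {E : V → Prop} (hs : P.SqE E) (x1 : ∀ p ∈ P.TA, 1 ≤ P.X p.1 p.2) :
    P.wexc ≤ 5 * K.area := by
  have h1 := oc_FS_FD (P := P)
  have h2 := oc_RP_le (P := P)
  have h3 := oc_ZP_le hs
  have h4 := oc_TA_pols x1
  unfold wexc
  have h5 : oc H P.FS + oc H P.ZP ≤ oc H K.pols + 5 * K.area := by omega
  have h6 : ((oc H P.FS + oc H P.ZP : ℕ) : ℤ) ≤ ((oc H K.pols + 5 * K.area : ℕ) : ℤ) :=
    Int.ofNat_le.2 h5
  push_cast at h6
  linarith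

/-- THE BOUND OF THE POLE EXCESS -/
theorem pexc_le {E : V → Prop} (hs : P.SqE E) (x1 : ∀ p ∈ P.TA, 1 ≤ P.X p.1 p.2) :
    K.pexc ≤ 5 * K.area + oc H P.spT := by
  have h1 := oc_FS_FD (P := P)
  have h2 := oc_RP_le (P := P)
  have h3 := oc_TA_spT hs
  have h4 := oc_TA_pols x1
  have h5 := card_sq_le hs
  have h6 := oc_RQ_le (P := P)
  have h7 := two_tops_le (P := P)
  have h8 := oc_split (G := H) (fin_RQ (P := P)) (fun f => K.ar (fx f) (fy f))
    (fun g f _ _ k => by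
      show K.ar (fx (g • f)) (fy (g • f))
      rw [fx_smul, fy_smul]
      exact K.ar_smul g _ _ k)
  have f1 : FinOrb H ({f : FL K | f ∈ P.RQ ∧ K.ar (fx f) (fy f)}) :=
    fin_FL.mono (Set.subset_univ _)
  have h9 : oc H K.strs ≤ oc H (P.FS ∪ {f : FL K | f ∈ P.RQ ∧ K.ar (fx f) (fy f)}) := by
    refine oc_le_of_rel (finOrb_union fin_FS f1) (fun e f => f.1 = e) ?_ ?_
    · have key : ∀ f : FL K, K.ar (fx f) (fy f) → K.ar (fy f) (fz f) →
          f ∈ P.FS ∪ {f : FL K | f ∈ P.RQ ∧ K.ar (fx f) (fy f)} := by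
        intro f k1 k2
        by_cases h : P.sq f.1.1.1
        · exact Or.inr ⟨⟨h, k2⟩, k1⟩
        · exact Or.inl ⟨⟨h, k2⟩, k1⟩
      rintro e (⟨k1, k2⟩ | ⟨k1, k2⟩)
      · exact ⟨(e, true), key (e, true) k1 k2, rfl⟩
      · exact ⟨(e, false), key (e, false) k1 k2, rfl⟩
    · rintro e - e' - f - f' - rfl rfl ⟨h, k⟩
      exact ⟨h, congrArg Prod.fst k⟩
  have h10 := oc_union_le (G := H) P.FS {f : FL K | f ∈ P.RQ ∧ K.ar (fx f) (fy f)}
  have h11 : oc H K.strs ≤ oc H K.pols + 5 * K.area + oc H P.spT := by omega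
  have h12 : ((oc H K.strs : ℕ) : ℤ) ≤ ((oc H K.pols + 5 * K.area + oc H P.spT : ℕ) : ℤ) :=
    Int.ofNat_le.2 h11
  push_cast at h12
  unfold GX.pexc
  linarith

/-! ### the number of the arrows -/

/-- strands at disjoint sets of arrows -/
theorem sX_add_le {E : V → Prop} (hs : P.SqE E) {A : Set (V × V)}
    (hA : ∀ h : H, ∀ p ∈ A, h • p ∈ A) (hT : ∀ p ∈ A, p ∉ P.TA) :
    P.sX A + P.sX P.TA ≤ 5 * K.area + oc H P.TA := by
  have h1 : oc H {f : FL K | f ∈ P.RP ∧ (fy f, fz f) ∈ A} +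
      oc H {f : FL K | f ∈ P.RP ∧ (fy f, fz f) ∈ P.TA} ≤ oc H P.RP := by
    refine oc_add_le ?_ fin_RP (fun _ k => k.1) (fun _ k => k.1)
    refine Dj.of_inv ?_ ?_
    · rintro g f ⟨k1, k2⟩
      refine ⟨RP_smul g f k1, ?_⟩
      rw [fyz_smul]
      exact hA g _ k2
    · rintro f ⟨-, k⟩ ⟨-, k'⟩
      exact hT _ k k'
  have h2 : oc H {p : (V × V) × (V × V) | p ∈ P.ZP ∧ p.1 ∈ A} +
      oc H {p : (V × V) × (V × V) | p ∈ P.ZP ∧ p.1 ∈ P.TA} ≤ oc H P.ZP := by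
    refine oc_add_le ?_ fin_ZP (fun _ k => k.1) (fun _ k => k.1)
    refine Dj.of_inv ?_ ?_
    · rintro g f ⟨k1, k2⟩
      exact ⟨ZP_smul g f k1, hA g _ k2⟩
    · rintro f ⟨-, k⟩ ⟨-, k'⟩
      exact hT _ k k'
  have h3 := oc_RP_le (P := P)
  have h4 := oc_ZP_le hs
  unfold sX
  omega

/-- an arrow of a cell is an arrow of a top or a strand passes it -/
theorem fl_cases (f : FL K) (h : K.ar (fy f) (fz f)) : (fy f, fz f) ∈ P.TA ∨ f ∈ P.RP ∨
    ∃ q, ((fy f, fz f), (q, fx f)) ∈ P.ZP := by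
  by_cases hi : P.sq f.1.1.1
  · obtain ⟨q, k⟩ := fl_Q4e hi
    rcases fl_E1 f with e | e
    · left
      exact ⟨fx f, q, k.symm, h, e⟩
    · exact Or.inr (Or.inr ⟨q, k, h, e⟩)
  · exact Or.inr (Or.inl ⟨hi, h⟩)

/-- a set of arrows of cells, no arrow of a top: the strands -/
theorem oc_le_sX' {A : Set (V × V)} (hc : ∀ p ∈ A, ∃ f : FL K, (fy f, fz f) = p ∧ K.ar p.1 p.2)
    (hT : ∀ p ∈ A, p ∉ P.TA) : oc H A ≤ P.sX A := by
  have h1 : A ⊆ {p : V × V | ∃ f ∈ {f : FL K | f ∈ P.RP ∧ (fy f, fz f) ∈ A}, (fy f, fz f) = p} ∪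
      {p : V × V | ∃ z ∈ {p : (V × V) × (V × V) | p ∈ P.ZP ∧ p.1 ∈ A}, z.1 = p} := by
    intro p hp
    obtain ⟨f, e, ha⟩ := hc p hp
    have ha' : K.ar (fy f) (fz f) := by
      rw [← e] at ha
      exact ha
    rcases fl_cases (P := P) f ha' with k | k | ⟨q, k⟩
    · rw [e] at k
      exact absurd k (hT p hp)
    · exact Or.inl ⟨f, ⟨k, by rw [e]; exact hp⟩, e⟩
    · exact Or.inr ⟨_, ⟨k, by show (fy f, fz f) ∈ A; rw [e]; exact hp⟩, e⟩
  have f1 : FinOrb H {f : FL K | f ∈ P.RP ∧ (fy f, fz f) ∈ A} := fin_RP.mono fun _ k => k.1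
  have f2 : FinOrb H {p : (V × V) × (V × V) | p ∈ P.ZP ∧ p.1 ∈ A} := fin_ZP.mono fun _ k => k.1
  have s1 : ∀ p ∈ {p : V × V | ∃ f ∈ {f : FL K | f ∈ P.RP ∧ (fy f, fz f) ∈ A}, (fy f, fz f) = p},
      ∃ f ∈ {f : FL K | f ∈ P.RP ∧ (fy f, fz f) ∈ A}, ∃ h : H, h • (fy f, fz f) = p := by
    rintro p ⟨f, hf, e⟩
    exact ⟨f, hf, 1, by rw [one_smul]; exact e⟩
  have s1' : ∀ f ∈ {f : FL K | f ∈ P.RP ∧ (fy f, fz f) ∈ A},
      ∀ f' ∈ {f : FL K | f ∈ P.RP ∧ (fy f, fz f) ∈ A}, (∃ h : H, h • f = f') →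
        ∃ h : H, h • (fy f, fz f) = (fy f', fz f') := by
    rintro f - _ - ⟨g, rfl⟩
    exact ⟨g, (fyz_smul g f).symm⟩
  have s2 : ∀ p ∈ {p : V × V | ∃ z ∈ {p : (V × V) × (V × V) | p ∈ P.ZP ∧ p.1 ∈ A}, z.1 = p},
      ∃ z ∈ {p : (V × V) × (V × V) | p ∈ P.ZP ∧ p.1 ∈ A}, ∃ h : H, h • z.1 = p := by
    rintro p ⟨f, hf, e⟩
    exact ⟨f, hf, 1, by rw [one_smul]; exact e⟩
  have s2' : ∀ z ∈ {p : (V × V) × (V × V) | p ∈ P.ZP ∧ p.1 ∈ A},
      ∀ z' ∈ {p : (V × V) × (V × V) | p ∈ P.ZP ∧ p.1 ∈ A}, (∃ h : H, h • z = z') →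
        ∃ h : H, h • z.1 = z'.1 := by
    rintro f - _ - ⟨g, rfl⟩
    exact ⟨g, rfl⟩
  have g1 := oc_le_of_surj f1 (fun f => (fy f, fz f)) s1 s1'
  have g2 := oc_le_of_surj f2 (fun z => z.1) s2 s2'
  have k1 := SAF.FinOrb.image f1 (fun f => (fy f, fz f)) s1 s1'
  have k2 := SAF.FinOrb.image f2 (fun z => z.1) s2 s2'
  have h2 := oc_mono (finOrb_union k1 k2) h1
  have h3 := oc_union_le (G := H)
    {p : V × V | ∃ f ∈ {f : FL K | f ∈ P.RP ∧ (fy f, fz f) ∈ A}, (fy f, fz f) = p}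
    {p : V × V | ∃ z ∈ {p : (V × V) × (V × V) | p ∈ P.ZP ∧ p.1 ∈ A}, z.1 = p}
  unfold sX
  omega

/-- THE BOUND OF THE NUMBER OF THE ARROWS of cells which are no arrows of tops -/
theorem ars_le {E : V → Prop} (hs : P.SqE E) (x1 : ∀ p ∈ P.TA, 1 ≤ P.X p.1 p.2)
    {A : Set (V × V)} (hA : ∀ h : H, ∀ p ∈ A, h • p ∈ A)
    (hc : ∀ p ∈ A, ∃ f : FL K, (fy f, fz f) = p ∧ K.ar p.1 p.2)
    (hT : ∀ p ∈ A, p ∉ P.TA) : oc H A + P.sm P.TA ≤ 5 * K.area := by
  have h1 := sX_add_le hs hA hT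
  have h2 := oc_le_sX' (P := P) hc hT
  have h3 := oc_le_sX (P := P) TA_smul (fin_TA (P := P)) x1
  unfold sm
  omega

/-! ### special tops are diamond tops -/

/-- a special top is a diamond top -/
theorem spT_Dm {E : V → Prop} (hs : P.SqE E) {T a b y : V} (k : P.Top T a b y) (hE : ¬ E T)
    {g : H} (hg : g • T = T) (hb : g • a = b) : (T, a) ∈ P.Dm := by
  have hy := hs.fix k hE hg
  have key : ∀ a b : V, P.Top T a b y → g • a = b → (T, a) ∈ P.U → False := by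
    rintro a b k hb ⟨b', y', k', h1, h2⟩
    obtain ⟨e1, e2⟩ := hs.uniq k k' hE
    have h1 : K.ar a y' := h1
    rw [← e2] at h1 h2
    rw [← e1] at h2
    have h3 := K.ar_smul g _ _ h1
    rw [hb, hy] at h3
    exact GX.not_both' h3 h2
  rcases hs.cases k hE with h | h | h
  · exact (key a b k hb h).elim
  · have hb' : g • b = a := by
      have h1 := K.ar_smul g _ _ k.2.2
      rw [hg] at h1
      refine (hs.sides k h1).resolve_right fun e => ?_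
      rw [← hb] at e
      have e' := smul_left_cancel g e
      rw [hb] at e'
      exact hs.nab _ _ _ _ k e'.symm
    exact (key b a k.symm' hb' h).elim
  · exact h.1

theorem oc_spT_le_Dm {E : V → Prop} (hs : P.SqE E) (hE : ∀ T ∈ P.tops, ¬ E T) :
    oc H P.spT ≤ oc H P.Dm := by
  refine oc_le_of_rel fin_Dm (fun T p => p.1 = T) ?_ ?_
  · rintro T ⟨a, b, y, k, g, hg, hb⟩
    exact ⟨(T, a), spT_Dm hs k (hE T ⟨a, b, y, k⟩) hg hb, rfl⟩
  · rintro T - T' - p - p' - rfl rfl ⟨h, e⟩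
    exact ⟨h, congrArg Prod.fst e⟩

end P45

end Pool.Agent.DI
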