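import Pool.Agent.DI.QK0d
import Pool.Agent.DI.FCb
import Pool.Agent.DI.Lk

/-!
# The corners of the unfolded slice by positions: complexes with pentagons and squares

`P.l5`, `P.l4`: positions of translates of pentagons and squares. `S.bkq hc : (S.k0 hc w).LE → S.K.LE`:
the corner of `K` which gives a corner of the slice. `S.vsq w`: the corners of `K` at a vertex over `w`
whose ends have different images. `S.vsqE`: the corners of the slice at the vertices `inl x` are the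
visible corners (for complexes without backtracking cells).
-/

namespace Pool.Agent.DI

open MulAction
open Pool.Agent.SAF (InC orbs FinOrb oc Decomp SAn SA Conv hull dist_edge FinOrb_iff exists_next)
open Pool.Agent.BT (PX PQ JS bey exits lz lz_self lz_ne lz_symm x_next_unique)
open Pool.Agent.BT.TA

/-! ### positions -/

namespace P45

variable {H V : Type} [Group H] [MulAction H V] {K : GX H V} (P : P45 K)

theorem vx5 {i : K.I} (hi : ¬ P.sq i) (j : Fin 5) : K.vx i j = P.pt i j := by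
  have h : K.vx i j = (K.cb i :: K.cw i).getD j (K.cb i) :=
    K.vx_of_lt (by rw [P.len5 hi]; exact j.2)
  rw [h, P.cb5 i hi, P.cw5 i hi]
  fin_cases j <;> rfl

theorem vx5_add {i : K.I} (hi : ¬ P.sq i) (j m : Fin 5) :
    K.vx i ((j : ℕ) + (m : ℕ)) = P.pt i (j + m) := by
  rw [← P.vx5 hi, ← K.vx_mod, P.len5 hi, Fin.val_add]

theorem vx4_add {i : K.I} (hi : P.sq i) (j m : Fin 4) :
    K.vx i ((j : ℕ) + (m : ℕ)) = P.qt i (j + m) := by
  rw [← P.vx4 hi, ← K.vx_mod, P.len4 hi, Fin.val_add]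

/-- positions of translates of pentagons -/
def l5 (i : K.I) (hi : ¬ P.sq i) (j : Fin 5) (h : H) : K.LE :=
  (⟨i, Fin.cast (P.len5 hi).symm j⟩, h)

/-- positions of translates of squares -/
def l4 (i : K.I) (hi : P.sq i) (j : Fin 4) (h : H) : K.LE :=
  (⟨i, Fin.cast (P.len4 hi).symm j⟩, h)

theorem l_cases (e : K.LE) : (∃ i hi j h, e = P.l5 i hi j h) ∨ ∃ i hi j h, e = P.l4 i hi j h := by
  obtain ⟨⟨i, j⟩, h⟩ := e
  by_cases hi : P.sq i
  · exact Or.inr ⟨i, hi, Fin.cast (P.len4 hi) j, h, rfl⟩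
  · exact Or.inl ⟨i, hi, Fin.cast (P.len5 hi) j, h, rfl⟩

theorem l5_inj {i i' : K.I} {hi : ¬ P.sq i} {hi' : ¬ P.sq i'} {j j' : Fin 5} {h h' : H}
    (e : P.l5 i hi j h = P.l5 i' hi' j' h') : i = i' ∧ j = j' ∧ h = h' := by
  have e1 := congrArg Prod.fst e
  have e2 : h = h' := congrArg Prod.snd e
  obtain ⟨e3, e4⟩ := Sigma.mk.inj_iff.1 e1
  subst e3
  refine ⟨rfl, ?_, e2⟩
  have e5 := eq_of_heq e4
  have e6 := congrArg Fin.val e5
  exact Fin.ext e6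

theorem l4_inj {i i' : K.I} {hi : P.sq i} {hi' : P.sq i'} {j j' : Fin 4} {h h' : H}
    (e : P.l4 i hi j h = P.l4 i' hi' j' h') : i = i' ∧ j = j' ∧ h = h' := by
  have e1 := congrArg Prod.fst e
  have e2 : h = h' := congrArg Prod.snd e
  obtain ⟨e3, e4⟩ := Sigma.mk.inj_iff.1 e1
  subst e3
  refine ⟨rfl, ?_, e2⟩
  have e5 := eq_of_heq e4
  have e6 := congrArg Fin.val e5
  exact Fin.ext e6

theorem l5_ne_l4 {i i' : K.I} {hi : ¬ P.sq i} {hi' : P.sq i'} {j : Fin 5} {j' : Fin 4} {h h' : H}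
    (e : P.l5 i hi j h = P.l4 i' hi' j' h') : False := by
  have e1 : i = i' := congrArg (fun z => z.1.1) e
  subst e1
  exact hi hi'

theorem l5_smul (g : H) (i : K.I) (hi : ¬ P.sq i) (j : Fin 5) (h : H) :
    g • P.l5 i hi j h = P.l5 i hi j (g * h) := rfl

theorem l4_smul (g : H) (i : K.I) (hi : P.sq i) (j : Fin 4) (h : H) :
    g • P.l4 i hi j h = P.l4 i hi j (g * h) := rfl

theorem c0_5 (i : K.I) (hi : ¬ P.sq i) (j : Fin 5) (h : H) :
    K.c0 (P.l5 i hi j h) = h • P.pt i j := congrArg (fun x => h • x) (P.vx5 hi j)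

theorem c1_5 (i : K.I) (hi : ¬ P.sq i) (j : Fin 5) (h : H) :
    K.c1 (P.l5 i hi j h) = h • P.pt i (j + 1) := congrArg (fun x => h • x) (P.vx5_add hi j 1)

theorem c2_5 (i : K.I) (hi : ¬ P.sq i) (j : Fin 5) (h : H) :
    K.c2 (P.l5 i hi j h) = h • P.pt i (j + 2) := congrArg (fun x => h • x) (P.vx5_add hi j 2)

theorem c0_4 (i : K.I) (hi : P.sq i) (j : Fin 4) (h : H) :
    K.c0 (P.l4 i hi j h) = h • P.qt i j := congrArg (fun x => h • x) (P.vx4 hi j)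

theorem c1_4 (i : K.I) (hi : P.sq i) (j : Fin 4) (h : H) :
    K.c1 (P.l4 i hi j h) = h • P.qt i (j + 1) := congrArg (fun x => h • x) (P.vx4_add hi j 1)

theorem c2_4 (i : K.I) (hi : P.sq i) (j : Fin 4) (h : H) :
    K.c2 (P.l4 i hi j h) = h • P.qt i (j + 2) := congrArg (fun x => h • x) (P.vx4_add hi j 2)

end P45

namespace SyQ

variable {H V : Type} [Group H] [MulAction H V] {S : SyQ H V}

/-! ### uniqueness of the apex -/

theorem Sq.cen_bey {w u : S.X} {h : H} {i : S.K.I} {k : Fin 5}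
    (hs : S.Sq w u (S.tr h i k) (S.tr h i (k + 1)) (S.tr h i (k + 2)) (S.tr h i (k + 3))
      (S.tr h i (k + 4))) {c : S.X} (hc : S.IsC (S.tr h i) c) : c ∈ bey S.D.G w u := by
  have h1 := hc (k + 3)
  have e : k + 3 + 1 = k + 4 := by rw [add_assoc]; rfl
  rw [e] at h1
  rcases h1 with h1 | h1
  · exact hs.2.2.2.2.1 h1
  · exact hs.2.2.2.2.2 h1

theorem Sq.not_isC {w u : S.X} {h : H} {i : S.K.I} {k : Fin 5}
    (hs : S.Sq w u (S.tr h i k) (S.tr h i (k + 1)) (S.tr h i (k + 2)) (S.tr h i (k + 3))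
      (S.tr h i (k + 4))) : ¬ S.IsC (S.tr h i) w := by
  intro hc
  exact bey_not (hs.cen_bey hc) (bey_self hs.1.symm)

theorem exists_isC (h : H) {i : S.K.I} (hi : ¬ S.P.sq i) : ∃ c, S.IsC (S.tr h i) c := by
  obtain ⟨c, hc⟩ := S.cen (S.tr_E h hi)
  exact ⟨c, hc⟩

theorem Sq.apex_unique {w u u' : S.X} {h : H} {i : S.K.I} (hi : ¬ S.P.sq i) {k k' : Fin 5}
    (hs : S.Sq w u (S.tr h i k) (S.tr h i (k + 1)) (S.tr h i (k + 2)) (S.tr h i (k + 3))
      (S.tr h i (k + 4)))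
    (hs' : S.Sq w u' (S.tr h i k') (S.tr h i (k' + 1)) (S.tr h i (k' + 2)) (S.tr h i (k' + 3))
      (S.tr h i (k' + 4))) : k = k' ∧ u = u' := by
  obtain ⟨c, hc⟩ := exists_isC (S := S) h hi
  have hu : u = u' := S.bey_unique hs.1 hs'.1 (hs.cen_bey hc) (hs'.cen_bey hc)
  subst hu
  refine ⟨?_, rfl⟩
  -- the apex is the only vertex on the side of `w`
  have key : ∀ m : Fin 5, S.J (S.tr h i (k + m)) ⊆ bey S.D.G u w → m = 1 := by
    intro m hm
    fin_cases m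
    · exfalso
      have h0 : S.J (S.tr h i k) ⊆ bey S.D.G u w := by
        have : k + ((0 : Fin 5)) = k := add_zero k
        rw [← this]
        exact hm
      exact bey_not (h0 hs.2.1.2) (bey_self hs.1)
    · rfl
    · exfalso
      exact bey_not ((show S.J (S.tr h i (k + 2)) ⊆ bey S.D.G u w from hm) hs.2.2.1.2)
        (bey_self hs.1)
    · exfalso
      obtain ⟨p, hp⟩ := S.js.ne (S.tr h i (k + 3))
      exact bey_not (hs.2.2.2.2.1 hp) ((show S.J (S.tr h i (k + 3)) ⊆ bey S.D.G u w from hm) hp)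
    · exfalso
      obtain ⟨p, hp⟩ := S.js.ne (S.tr h i (k + 4))
      exact bey_not (hs.2.2.2.2.2 hp) ((show S.J (S.tr h i (k + 4)) ⊆ bey S.D.G u w from hm) hp)
  have h1 := hs'.2.2.2.1
  have e : k' + 1 = k + (k' + 1 - k) := (add_sub_cancel k (k' + 1)).symm
  rw [e] at h1
  have h2 := key _ h1
  have h3 : k' = k := by
    have : k' + 1 = k + 1 := by rw [e, h2]
    exact add_right_cancel this
  exact h3.symm

theorem rho34 {w u : S.X} {a q b y z : V} (h : S.Sq w u a q b y z) :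
    S.rho w y = Sum.inr ⟨u, h.1⟩ ∧ S.rho w z = Sum.inr ⟨u, h.1⟩ :=
  ⟨S.rho_bey h.1 h.2.2.2.2.1, S.rho_bey h.1 h.2.2.2.2.2⟩

theorem rho_inl {w : S.X} {z : V} {x : S.NV w} (h : S.rho w z = Sum.inl x) : z = x.1 := by
  by_cases hz : w ∈ S.J z
  · rw [S.rho_near hz] at h
    exact congrArg Subtype.val (Sum.inl.inj h)
  · rw [S.rho_far hz] at h
    cases h

theorem rho_inr {w : S.X} {z : V} {u : S.EV w} (h : S.rho w z = Sum.inr u) :
    S.J z ⊆ bey S.D.G w u.1 := by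
  by_cases hz : w ∈ S.J z
  · rw [S.rho_near hz] at h
    cases h
  · rw [S.rho_far hz] at h
    have h1 := S.dir_bey hz
    have h2 : S.dir w z = u.1 := congrArg Subtype.val (Sum.inr.inj h)
    rwa [h2] at h1

/-! ### visible corners -/

/-- no backtracking -/
def NB (S : SyQ H V) : Prop := ∀ e : S.K.LE, S.K.c0 e ≠ S.K.c2 e

variable (S) in
/-- the corners of `K` at a vertex over `w` which are not collapsed -/
def vsq (w : S.X) : SubMulAction ↥(stabilizer H w) S.K.LE where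
  carrier := {e | w ∈ S.J (S.K.c1 e) ∧ S.rho w (S.K.c0 e) ≠ S.rho w (S.K.c2 e)}
  smul_mem' g e he := by
    have hw : g.1 • w = w := g.2
    have e0 : S.K.c0 (g • e) = g.1 • S.K.c0 e := S.K.c0_smul g.1 e
    have e1 : S.K.c1 (g • e) = g.1 • S.K.c1 e := S.K.c1_smul g.1 e
    have e2 : S.K.c2 (g • e) = g.1 • S.K.c2 e := S.K.c2_smul g.1 e
    show w ∈ S.J (S.K.c1 (g • e)) ∧ S.rho w (S.K.c0 (g • e)) ≠ S.rho w (S.K.c2 (g • e))
    rw [e0, e1, e2, S.rho_smul, S.rho_smul]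
    refine ⟨?_, fun h => he.2 (smul_left_cancel g h)⟩
    have := S.js.smul g.1 _ _ he.1
    rwa [hw] at this

/-! ### the vertices of the corners of the slice -/

/-- a corner of a pentagon centred at `w` -/
def e5 (hc : S.Conn) {w : S.X} (c : S.C5 w) (j : Fin 5) (l : ↥(stabilizer H w)) :
    (S.k0 hc w).LE := (⟨Sum.inl c, j⟩, l)

/-- a corner of a zero square of a pentagon -/
def e4 (hc : S.Conn) {w : S.X} (p : S.C4 w) (j : Fin 4) (l : ↥(stabilizer H w)) :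
    (S.k0 hc w).LE := (⟨Sum.inr (Sum.inl p), j⟩, l)

/-- a corner of a square of `K` -/
def e4q (hc : S.Conn) {w : S.X} (p : S.C4q w) (j : Fin 4) (l : ↥(stabilizer H w)) :
    (S.k0 hc w).LE := (⟨Sum.inr (Sum.inr p), j⟩, l)

/-- every corner is of one of the three kinds -/
theorem e_cases (hc : S.Conn) {w : S.X} (e : (S.k0 hc w).LE) :
    (∃ c j l, e = e5 hc c j l) ∨ (∃ p j l, e = e4 hc p j l) ∨ ∃ p j l, e = e4q hc p j l := by
  obtain ⟨⟨c | p | p, j⟩, l⟩ := e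
  · exact Or.inl ⟨c, j, l, rfl⟩
  · exact Or.inr (Or.inl ⟨p, j, l, rfl⟩)
  · exact Or.inr (Or.inr ⟨p, j, l, rfl⟩)

theorem k0_len5 (hc : S.Conn) {w : S.X} (c : S.C5 w) : (S.k0 hc w).len (Sum.inl c) = 5 := rfl

theorem k0_len4 (hc : S.Conn) {w : S.X} (p : S.C4 w) :
    (S.k0 hc w).len (Sum.inr (Sum.inl p)) = 4 := rfl

theorem k0_len4q (hc : S.Conn) {w : S.X} (p : S.C4q w) :
    (S.k0 hc w).len (Sum.inr (Sum.inr p)) = 4 := rfl

theorem k0_vx5 (hc : S.Conn) {w : S.X} (c : S.C5 w) (j m : Fin 5) :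
    (S.k0 hc w).vx (Sum.inl c) ((j : ℕ) + (m : ℕ)) = S.rho w (S.tr c.g c.1 (j + m)) := by
  have key : ∀ j : Fin 5, (S.k0 hc w).vx (Sum.inl c) (j : ℕ) = S.rho w (S.tr c.g c.1 j) := by
    intro j
    have h : (S.k0 hc w).vx (Sum.inl c) (j : ℕ) =
        ((S.k0 hc w).cb (Sum.inl c) :: (S.k0 hc w).cw (Sum.inl c)).getD j
          ((S.k0 hc w).cb (Sum.inl c)) := (S.k0 hc w).vx_of_lt j.2
    rw [h]
    fin_cases j <;> rfl
  rw [← key, ← (S.k0 hc w).vx_mod, k0_len5, Fin.val_add]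

/-- the vertices of a zero square -/
noncomputable def sq4 {w : S.X} (p : S.C4 w) : Fin 4 → S.SV w :=
  ![S.rho w (S.tr p.g p.1.1 p.1.2.1), S.rho w (S.tr p.g p.1.1 (p.1.2.1 + 1)),
    S.rho w (S.tr p.g p.1.1 (p.1.2.1 + 2)), S.rho w (S.tr p.g p.1.1 (p.1.2.1 + 3))]

theorem k0_vx4 (hc : S.Conn) {w : S.X} (p : S.C4 w) (j m : Fin 4) :
    (S.k0 hc w).vx (Sum.inr (Sum.inl p)) ((j : ℕ) + (m : ℕ)) = sq4 p (j + m) := by
  have key : ∀ j : Fin 4, (S.k0 hc w).vx (Sum.inr (Sum.inl p)) (j : ℕ) = sq4 p j := by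
    intro j
    have h : (S.k0 hc w).vx (Sum.inr (Sum.inl p)) (j : ℕ) =
        ((S.k0 hc w).cb (Sum.inr (Sum.inl p)) :: (S.k0 hc w).cw (Sum.inr (Sum.inl p))).getD j
          ((S.k0 hc w).cb (Sum.inr (Sum.inl p))) := (S.k0 hc w).vx_of_lt j.2
    rw [h]
    fin_cases j <;> rfl
  rw [← key, ← (S.k0 hc w).vx_mod, k0_len4, Fin.val_add]

theorem k0_vx4q (hc : S.Conn) {w : S.X} (p : S.C4q w) (j m : Fin 4) :
    (S.k0 hc w).vx (Sum.inr (Sum.inr p)) ((j : ℕ) + (m : ℕ)) =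
      S.rho w (S.tq p.g p.1.1 (j + m)) := by
  have key : ∀ j : Fin 4, (S.k0 hc w).vx (Sum.inr (Sum.inr p)) (j : ℕ) =
      S.rho w (S.tq p.g p.1.1 j) := by
    intro j
    have h : (S.k0 hc w).vx (Sum.inr (Sum.inr p)) (j : ℕ) =
        ((S.k0 hc w).cb (Sum.inr (Sum.inr p)) :: (S.k0 hc w).cw (Sum.inr (Sum.inr p))).getD j
          ((S.k0 hc w).cb (Sum.inr (Sum.inr p))) := (S.k0 hc w).vx_of_lt j.2
    rw [h]
    fin_cases j <;> rfl
  rw [← key, ← (S.k0 hc w).vx_mod, k0_len4q, Fin.val_add]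

theorem l_rho {w : S.X} (l : ↥(stabilizer H w)) (g : H) (i : S.K.I) (k : Fin 5) :
    l • S.rho w (S.tr g i k) = S.rho w (S.tr (l.1 * g) i k) := by
  rw [← S.rho_smul]
  show S.rho w (l.1 • g • S.P.pt i k) = S.rho w ((l.1 * g) • S.P.pt i k)
  rw [smul_smul]

theorem l_rhoq {w : S.X} (l : ↥(stabilizer H w)) (g : H) (i : S.K.I) (k : Fin 4) :
    l • S.rho w (S.tq g i k) = S.rho w (S.tq (l.1 * g) i k) := by
  rw [← S.rho_smul]
  show S.rho w (l.1 • g • S.P.qt i k) = S.rho w ((l.1 * g) • S.P.qt i k)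
  rw [smul_smul]

theorem e5_c0 (hc : S.Conn) {w : S.X} (c : S.C5 w) (j : Fin 5) (l : ↥(stabilizer H w)) :
    (S.k0 hc w).c0 (e5 hc c j l) = S.rho w (S.tr (l.1 * c.g) c.1 j) := by
  have h := k0_vx5 hc c j 0
  rw [add_zero] at h
  show l • (S.k0 hc w).vx (Sum.inl c) (j : ℕ) = _
  rw [← l_rho]
  exact congrArg (fun x => l • x) h

theorem e5_c1 (hc : S.Conn) {w : S.X} (c : S.C5 w) (j : Fin 5) (l : ↥(stabilizer H w)) :
    (S.k0 hc w).c1 (e5 hc c j l) = S.rho w (S.tr (l.1 * c.g) c.1 (j + 1)) := by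
  rw [← l_rho]
  exact congrArg (fun x => l • x) (k0_vx5 hc c j 1)

theorem e5_c2 (hc : S.Conn) {w : S.X} (c : S.C5 w) (j : Fin 5) (l : ↥(stabilizer H w)) :
    (S.k0 hc w).c2 (e5 hc c j l) = S.rho w (S.tr (l.1 * c.g) c.1 (j + 2)) := by
  rw [← l_rho]
  exact congrArg (fun x => l • x) (k0_vx5 hc c j 2)

theorem e4q_c0 (hc : S.Conn) {w : S.X} (p : S.C4q w) (j : Fin 4) (l : ↥(stabilizer H w)) :
    (S.k0 hc w).c0 (e4q hc p j l) = S.rho w (S.tq (l.1 * p.g) p.1.1 j) := by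
  have h := k0_vx4q hc p j 0
  rw [add_zero] at h
  show l • (S.k0 hc w).vx (Sum.inr (Sum.inr p)) (j : ℕ) = _
  rw [← l_rhoq]
  exact congrArg (fun x => l • x) h

theorem e4q_c1 (hc : S.Conn) {w : S.X} (p : S.C4q w) (j : Fin 4) (l : ↥(stabilizer H w)) :
    (S.k0 hc w).c1 (e4q hc p j l) = S.rho w (S.tq (l.1 * p.g) p.1.1 (j + 1)) := by
  rw [← l_rhoq]
  exact congrArg (fun x => l • x) (k0_vx4q hc p j 1)

theorem e4q_c2 (hc : S.Conn) {w : S.X} (p : S.C4q w) (j : Fin 4) (l : ↥(stabilizer H w)) :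
    (S.k0 hc w).c2 (e4q hc p j l) = S.rho w (S.tq (l.1 * p.g) p.1.1 (j + 2)) := by
  rw [← l_rhoq]
  exact congrArg (fun x => l • x) (k0_vx4q hc p j 2)

/-- the translated zero square -/
noncomputable def sq4l {w : S.X} (p : S.C4 w) (l : ↥(stabilizer H w)) : Fin 4 → S.SV w :=
  ![S.rho w (S.tr (l.1 * p.g) p.1.1 p.1.2.1), S.rho w (S.tr (l.1 * p.g) p.1.1 (p.1.2.1 + 1)),
    S.rho w (S.tr (l.1 * p.g) p.1.1 (p.1.2.1 + 2)),
    S.rho w (S.tr (l.1 * p.g) p.1.1 (p.1.2.1 + 3))]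

theorem sq4_smul {w : S.X} (p : S.C4 w) (l : ↥(stabilizer H w)) (j : Fin 4) :
    l • sq4 p j = sq4l p l j := by
  fin_cases j
  · exact l_rho l _ _ _
  · exact l_rho l _ _ _
  · exact l_rho l _ _ _
  · exact l_rho l _ _ _

theorem e4_c0 (hc : S.Conn) {w : S.X} (p : S.C4 w) (j : Fin 4) (l : ↥(stabilizer H w)) :
    (S.k0 hc w).c0 (e4 hc p j l) = sq4l p l j := by
  have h := k0_vx4 hc p j 0
  rw [add_zero] at h
  rw [← sq4_smul]
  exact congrArg (fun x => l • x) h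

theorem e4_c1 (hc : S.Conn) {w : S.X} (p : S.C4 w) (j : Fin 4) (l : ↥(stabilizer H w)) :
    (S.k0 hc w).c1 (e4 hc p j l) = sq4l p l (j + 1) := by
  rw [← sq4_smul]
  exact congrArg (fun x => l • x) (k0_vx4 hc p j 1)

theorem e4_c2 (hc : S.Conn) {w : S.X} (p : S.C4 w) (j : Fin 4) (l : ↥(stabilizer H w)) :
    (S.k0 hc w).c2 (e4 hc p j l) = sq4l p l (j + 2) := by
  rw [← sq4_smul]
  exact congrArg (fun x => l • x) (k0_vx4 hc p j 2)

/-- the translated zero square is a zero square at `w` -/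
theorem C4.sql {w : S.X} (p : S.C4 w) (l : ↥(stabilizer H w)) :
    S.Sq w (l.1 • p.u) (S.tr (l.1 * p.g) p.1.1 p.1.2.1)
      (S.tr (l.1 * p.g) p.1.1 (p.1.2.1 + 1)) (S.tr (l.1 * p.g) p.1.1 (p.1.2.1 + 2))
      (S.tr (l.1 * p.g) p.1.1 (p.1.2.1 + 3)) (S.tr (l.1 * p.g) p.1.1 (p.1.2.1 + 4)) := by
  have h1 := p.sq.smul l.1
  have hw : l.1 • w = w := l.2
  rw [hw] at h1
  have e2 : ∀ j, l.1 • S.tr p.g p.1.1 j = S.tr (l.1 * p.g) p.1.1 j :=
    fun j => (mul_smul _ _ _).symm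
  rw [e2, e2, e2, e2, e2] at h1
  exact h1

theorem C5.isCl {w : S.X} (c : S.C5 w) (l : ↥(stabilizer H w)) :
    S.IsC (S.tr (l.1 * c.g) c.1) w := by
  have := (S.isC_smul l.1 c.g c.1 w).2 c.isC
  have hw : l.1 • w = w := l.2
  rwa [hw] at this

theorem C4q.ndl {w : S.X} (p : S.C4q w) (l : ↥(stabilizer H w)) :
    S.ND w (S.tq (l.1 * p.g) p.1.1) := by
  have h := (S.nd_smul l).2 p.nd
  have e : (fun k => l.1 • S.tq p.g p.1.1 k) = S.tq (l.1 * p.g) p.1.1 :=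
    funext fun k => (mul_smul _ _ _).symm
  rwa [e] at h

/-- a centred pentagon comes from the slice -/
theorem exists_e5 {w : S.X} {h : H} {i : S.K.I} (hi : ¬ S.P.sq i) (hI : S.IsC (S.tr h i) w) :
    ∃ (c : S.C5 w) (l : ↥(stabilizer H w)), c.1 = i ∧ l.1 * c.g = h := by
  let c : S.C5 w := ⟨i, hi, h, hI⟩
  have h1 : S.IsC (S.tr h i) ((h * c.g⁻¹) • w) := by
    have := (S.isC_smul (h * c.g⁻¹) c.g i w).2 c.isC
    rwa [inv_mul_cancel_right] at this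
  have hmem : (h * c.g⁻¹) • w = w := S.isC_unique (S.tr_E h hi) h1 hI
  exact ⟨c, ⟨h * c.g⁻¹, hmem⟩, rfl, inv_mul_cancel_right _ _⟩

/-- a zero square comes from the slice -/
theorem exists_e4 {w u : S.X} {h : H} {i : S.K.I} (hi : ¬ S.P.sq i) {k : Fin 5}
    (hs : S.Sq w u (S.tr h i k) (S.tr h i (k + 1)) (S.tr h i (k + 2)) (S.tr h i (k + 3))
      (S.tr h i (k + 4))) :
    ∃ (p : S.C4 w) (l : ↥(stabilizer H w)), p.1.1 = i ∧ p.1.2.1 = k ∧ l.1 * p.g = h := by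
  have hq : ∃ u', S.Sq (h⁻¹ • w) u' (S.P.pt i k) (S.P.pt i (k + 1)) (S.P.pt i (k + 2))
      (S.P.pt i (k + 3)) (S.P.pt i (k + 4)) := by
    refine ⟨h⁻¹ • u, ?_⟩
    have := hs.smul h⁻¹
    simp only [tr, inv_smul_smul] at this
    exact this
  let c : S.C4 w := ⟨(i, k, h⁻¹ • w), hi, ⟨h, smul_inv_smul h w⟩, hq⟩
  have hgs : c.g • h⁻¹ • w = w := c.g_smul
  have hmem : (h * c.g⁻¹) • w = w := by
    have h3 : c.g⁻¹ • w = h⁻¹ • w := inv_smul_eq_iff.2 hgs.symm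
    rw [mul_smul, h3, smul_inv_smul]
  exact ⟨c, ⟨h * c.g⁻¹, hmem⟩, rfl, rfl, inv_mul_cancel_right _ _⟩

/-- a square comes from the slice -/
theorem exists_e4q {w : S.X} {h : H} {i : S.K.I} (hi : S.P.sq i) (hn : S.ND w (S.tq h i)) :
    ∃ (p : S.C4q w) (l : ↥(stabilizer H w)), p.1.1 = i ∧ l.1 * p.g = h := by
  let c : S.C4q w := ⟨(i, h⁻¹ • w), hi, h, smul_inv_smul h w, hn⟩
  have hgs : c.g • h⁻¹ • w = w := c.g_smul
  have hmem : (h * c.g⁻¹) • w = w := by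
    have h3 : c.g⁻¹ • w = h⁻¹ • w := inv_smul_eq_iff.2 hgs.symm
    rw [mul_smul, h3, smul_inv_smul]
  exact ⟨c, ⟨h * c.g⁻¹, hmem⟩, rfl, inv_mul_cancel_right _ _⟩

theorem C5.eq_of {w : S.X} {c c' : S.C5 w} {l l' : ↥(stabilizer H w)} (h1 : c.1 = c'.1)
    (h2 : l.1 * c.g = l'.1 * c'.g) : c = c' ∧ l = l' := by
  have e : c = c' := Subtype.ext h1
  subst e
  exact ⟨rfl, Subtype.ext (mul_right_cancel h2)⟩

theorem C4.eq_of {w : S.X} {p p' : S.C4 w} {l l' : ↥(stabilizer H w)} (h1 : p.1.1 = p'.1.1)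
    (h2 : l.1 * p.g = l'.1 * p'.g) : p = p' ∧ l = l' := by
  have s1 := p.sql l
  have s2 := p'.sql l'
  rw [← h2, ← h1] at s2
  have hk := (Sq.apex_unique p.2.1 s1 s2).1
  have hw : p.1.2.2 = p'.1.2.2 := by
    have a1 := p.g_smul
    have a2 := p'.g_smul
    have b1 : l.1 • w = w := l.2
    have b2 : l'.1 • w = w := l'.2
    have c1 : (l.1 * p.g) • p.1.2.2 = w := by rw [mul_smul, a1, b1]
    have c2 : (l'.1 * p'.g) • p'.1.2.2 = w := by rw [mul_smul, a2, b2]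
    rw [← h2] at c2
    exact smul_left_cancel _ (c1.trans c2.symm)
  have e : p = p' := Subtype.ext (Prod.ext h1 (Prod.ext hk hw))
  subst e
  exact ⟨rfl, Subtype.ext (mul_right_cancel h2)⟩

theorem C4q.eq_of {w : S.X} {p p' : S.C4q w} {l l' : ↥(stabilizer H w)} (h1 : p.1.1 = p'.1.1)
    (h2 : l.1 * p.g = l'.1 * p'.g) : p = p' ∧ l = l' := by
  have hw : p.1.2 = p'.1.2 := by
    have a1 := p.g_smul
    have a2 := p'.g_smul
    have b1 : l.1 • w = w := l.2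
    have b2 : l'.1 • w = w := l'.2
    have c1 : (l.1 * p.g) • p.1.2 = w := by rw [mul_smul, a1, b1]
    have c2 : (l'.1 * p'.g) • p'.1.2 = w := by rw [mul_smul, a2, b2]
    rw [← h2] at c2
    exact smul_left_cancel _ (c1.trans c2.symm)
  have e : p = p' := Subtype.ext (Prod.ext h1 hw)
  subst e
  exact ⟨rfl, Subtype.ext (mul_right_cancel h2)⟩

/-! ### the way back -/

/-- the shift of the index -/
def dlq : Fin 4 → Fin 5 := ![0, 1, 0, 4]

theorem dlq_inj : ∀ j j' : Fin 4, dlq j = dlq j' → j ≠ 2 → j' ≠ 2 → j = j' := by decide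

/-- the corner of `K` which gives a corner of the slice -/
noncomputable def bkq (hc : S.Conn) {w : S.X} : (S.k0 hc w).LE → S.K.LE
  | (⟨Sum.inl c, j⟩, l) => S.P.l5 c.1 c.2.1 j (l.1 * c.g)
  | (⟨Sum.inr (Sum.inl p), j⟩, l) => S.P.l5 p.1.1 p.2.1 (p.1.2.1 + dlq j) (l.1 * p.g)
  | (⟨Sum.inr (Sum.inr p), j⟩, l) => S.P.l4 p.1.1 p.2.1 j (l.1 * p.g)

theorem bkq_e5 (hc : S.Conn) {w : S.X} (c : S.C5 w) (j : Fin 5) (l : ↥(stabilizer H w)) :
    bkq hc (e5 hc c j l) = S.P.l5 c.1 c.2.1 j (l.1 * c.g) := rfl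

theorem bkq_e4 (hc : S.Conn) {w : S.X} (p : S.C4 w) (j : Fin 4) (l : ↥(stabilizer H w)) :
    bkq hc (e4 hc p j l) = S.P.l5 p.1.1 p.2.1 (p.1.2.1 + dlq j) (l.1 * p.g) := rfl

theorem bkq_e4q (hc : S.Conn) {w : S.X} (p : S.C4q w) (j : Fin 4) (l : ↥(stabilizer H w)) :
    bkq hc (e4q hc p j l) = S.P.l4 p.1.1 p.2.1 j (l.1 * p.g) := rfl

theorem bkq_smul (hc : S.Conn) {w : S.X} (g : ↥(stabilizer H w)) (e : (S.k0 hc w).LE) :
    bkq hc (g • e) = g.1 • bkq hc e := by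
  rcases e_cases hc e with ⟨c, j, l, rfl⟩ | ⟨p, j, l, rfl⟩ | ⟨p, j, l, rfl⟩
  · have h1 : g • e5 hc c j l = e5 hc c j (g * l) := rfl
    rw [h1, bkq_e5, bkq_e5, P45.l5_smul, ← mul_assoc]
    rfl
  · have h1 : g • e4 hc p j l = e4 hc p j (g * l) := rfl
    rw [h1, bkq_e4, bkq_e4, P45.l5_smul, ← mul_assoc]
    rfl
  · have h1 : g • e4q hc p j l = e4q hc p j (g * l) := rfl
    rw [h1, bkq_e4q, bkq_e4q, P45.l4_smul, ← mul_assoc]
    rfl

/-- the vertices -/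
theorem bkq_c (hc : S.Conn) {w : S.X} (e : (S.k0 hc w).LE) (he : ∀ p l, e ≠ e4 hc p 2 l) :
    (S.k0 hc w).c0 e = S.rho w (S.K.c0 (bkq hc e)) ∧
    (S.k0 hc w).c1 e = S.rho w (S.K.c1 (bkq hc e)) ∧
    (S.k0 hc w).c2 e = S.rho w (S.K.c2 (bkq hc e)) := by
  rcases e_cases hc e with ⟨c, j, l, rfl⟩ | ⟨p, j, l, rfl⟩ | ⟨p, j, l, rfl⟩
  · rw [bkq_e5, P45.c0_5, P45.c1_5, P45.c2_5]
    exact ⟨e5_c0 hc c j l, e5_c1 hc c j l, e5_c2 hc c j l⟩
  · rw [bkq_e4, P45.c0_5, P45.c1_5, P45.c2_5, e4_c0, e4_c1, e4_c2]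
    have hs := rho34 (p.sql l)
    fin_cases j
    · have a0 : p.1.2.1 + dlq 0 = p.1.2.1 := add_zero _
      show sq4l p l 0 = S.rho w (S.tr _ _ (p.1.2.1 + dlq 0)) ∧
        sq4l p l 1 = S.rho w (S.tr _ _ (p.1.2.1 + dlq 0 + 1)) ∧
        sq4l p l 2 = S.rho w (S.tr _ _ (p.1.2.1 + dlq 0 + 2))
      rw [a0]
      exact ⟨rfl, rfl, rfl⟩
    · have a2 : p.1.2.1 + dlq 1 + 1 = p.1.2.1 + 2 := by rw [add_assoc]; rfl
      have a3 : p.1.2.1 + dlq 1 + 2 = p.1.2.1 + 3 := by rw [add_assoc]; rfl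
      show sq4l p l 1 = S.rho w (S.tr _ _ (p.1.2.1 + dlq 1)) ∧
        sq4l p l 2 = S.rho w (S.tr _ _ (p.1.2.1 + dlq 1 + 1)) ∧
        sq4l p l 3 = S.rho w (S.tr _ _ (p.1.2.1 + dlq 1 + 2))
      rw [a2, a3]
      exact ⟨rfl, rfl, rfl⟩
    · exact absurd rfl (he p l)
    · have a0 : p.1.2.1 + dlq 3 + 1 = p.1.2.1 := by
        rw [add_assoc]
        exact add_zero _
      have a1 : p.1.2.1 + dlq 3 + 2 = p.1.2.1 + 1 := by rw [add_assoc]; rfl
      show sq4l p l 3 = S.rho w (S.tr _ _ (p.1.2.1 + dlq 3)) ∧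
        sq4l p l 0 = S.rho w (S.tr _ _ (p.1.2.1 + dlq 3 + 1)) ∧
        sq4l p l 1 = S.rho w (S.tr _ _ (p.1.2.1 + dlq 3 + 2))
      rw [a0, a1]
      refine ⟨?_, rfl, rfl⟩
      have h1 : sq4l p l 3 = S.rho w (S.tr (l.1 * p.g) p.1.1 (p.1.2.1 + 3)) := rfl
      have h2 : S.rho w (S.tr (l.1 * p.g) p.1.1 (p.1.2.1 + dlq 3)) =
        S.rho w (S.tr (l.1 * p.g) p.1.1 (p.1.2.1 + 4)) := rfl
      rw [h1, h2, hs.1, hs.2]
  · rw [bkq_e4q, P45.c0_4, P45.c1_4, P45.c2_4]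
    exact ⟨e4q_c0 hc p j l, e4q_c1 hc p j l, e4q_c2 hc p j l⟩

/-- the corners at the sinks in the zero squares -/
theorem e4_two (hc : S.Conn) {w : S.X} (p : S.C4 w) (l : ↥(stabilizer H w)) :
    (S.k0 hc w).c1 (e4 hc p 2 l) = Sum.inr ⟨l.1 • p.u, (p.sql l).1⟩ := by
  rw [e4_c1]
  exact (rho34 (p.sql l)).1

theorem bk_ne (hc : S.Conn) {w : S.X} {e : (S.k0 hc w).LE} {x : S.NV w}
    (hx : (S.k0 hc w).c1 e = Sum.inl x) (p : S.C4 w) (l : ↥(stabilizer H w)) :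
    e ≠ e4 hc p 2 l := by
  rintro rfl
  rw [e4_two] at hx
  cases hx

/-- a corner of a centred pentagon is visible -/
theorem isC_vis {w : S.X} {v : Fin 5 → V} (hv : ∀ k, S.K.E (v k) (v (k + 1))) (hI : S.IsC v w)
    (j : Fin 5) (hne : v j ≠ v (j + 2)) : S.rho w (v j) ≠ S.rho w (v (j + 2)) := by
  intro h
  rcases S.rho_eq_iff.1 h with h | ⟨h0, h2, hd⟩
  · exact hne h
  · have a1 : j + 2 + 1 = j + 3 := by rw [add_assoc]; rfl
    have a2 : j + 3 + 1 = j + 4 := by rw [add_assoc]; rfl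
    have a3 : j + 4 + 1 = j := q41 j
    have w3 : w ∈ S.J (v (j + 3)) := by
      have := hI (j + 2)
      rw [a1] at this
      exact this.resolve_left h2
    have w4 : w ∈ S.J (v (j + 4)) := by
      have := hI (j + 4)
      rw [a3] at this
      exact this.resolve_right h0
    have ev2 := hv (j + 2)
    rw [a1] at ev2
    have ev3 := hv (j + 3)
    rw [a2] at ev3
    have ev4 := hv (j + 4)
    rw [a3] at ev4
    have c3 := S.dir_cross (w := w) (Or.symm ev2) w3 h2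
    have c4 := S.dir_cross (w := w) ev4 w4 h0
    rw [hd] at c4
    exact S.not_both (S.dir_adj h2) ev3 ⟨w3, c3⟩ ⟨w4, c4⟩

/-- THE VISIBLE CORNERS ARE THE CORNERS OF THE SLICE AT THE VERTICES OVER `w` -/
theorem bkq_vis (hc : S.Conn) (hnb : S.NB) {w : S.X} (e : (S.k0 hc w).LE) {x : S.NV w}
    (hx : (S.k0 hc w).c1 e = Sum.inl x) : bkq hc e ∈ S.vsq w ∧ S.K.c1 (bkq hc e) = x.1 := by
  have hne := bk_ne hc hx
  have h1 := (bkq_c hc e hne).2.1
  have e1 : S.K.c1 (bkq hc e) = x.1 := rho_inl (h1.symm.trans hx)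
  refine ⟨⟨by rw [e1]; exact x.2, ?_⟩, e1⟩
  have h2 := hnb (bkq hc e)
  rcases e_cases hc e with ⟨c, j, l, rfl⟩ | ⟨p, j, l, rfl⟩ | ⟨p, j, l, rfl⟩
  · rw [bkq_e5, P45.c0_5, P45.c2_5] at h2 ⊢
    exact isC_vis (S.tr_E _ c.2.1) (c.isCl l) j h2
  · rw [bkq_e4, P45.c0_5, P45.c2_5] at h2 ⊢
    have hs := p.sql l
    have near_far : ∀ (a b : V), S.J a ⊆ bey S.D.G (l.1 • p.u) w →
        S.rho w b = Sum.inr ⟨l.1 • p.u, hs.1⟩ → S.rho w a ≠ S.rho w b := by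
      intro a b ha hb h
      rw [hb] at h
      have h3 := rho_inr h
      obtain ⟨q, hq⟩ := S.js.ne a
      exact bey_not (h3 hq) (ha hq)
    fin_cases j
    · have a0 : p.1.2.1 + dlq 0 = p.1.2.1 := add_zero _
      have h3 : (l.1 * p.g) • S.P.pt p.1.1 (p.1.2.1 + dlq 0) ≠
        (l.1 * p.g) • S.P.pt p.1.1 (p.1.2.1 + dlq 0 + 2) := h2
      show S.rho w (S.tr _ _ (p.1.2.1 + dlq 0)) ≠ S.rho w (S.tr _ _ (p.1.2.1 + dlq 0 + 2))
      rw [a0] at h3 ⊢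
      intro h
      rcases S.rho_eq_iff.1 h with h | ⟨h0, -⟩
      · exact h3 h
      · exact h0 hs.2.1.1
    · have a3 : p.1.2.1 + dlq 1 + 2 = p.1.2.1 + 3 := by rw [add_assoc]; rfl
      show S.rho w (S.tr _ _ (p.1.2.1 + 1)) ≠ S.rho w (S.tr _ _ (p.1.2.1 + dlq 1 + 2))
      rw [a3]
      exact near_far _ _ hs.2.2.2.1 (rho34 hs).1
    · exact absurd rfl (hne p l)
    · have a1 : p.1.2.1 + dlq 3 + 2 = p.1.2.1 + 1 := by rw [add_assoc]; rfl
      show S.rho w (S.tr _ _ (p.1.2.1 + 4)) ≠ S.rho w (S.tr _ _ (p.1.2.1 + dlq 3 + 2))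
      rw [a1]
      exact (near_far _ _ hs.2.2.2.1 (rho34 hs).2).symm
  · rw [bkq_e4q, P45.c0_4, P45.c2_4]
    have hn := p.ndl l
    fin_cases j
    · exact hn.1
    · exact hn.2
    · exact hn.1.symm
    · exact hn.2.symm

/-- the kinds of a translate of a pentagon at a vertex over `w`, by positions -/
theorem visq_cases {w : S.X} {h : H} {i : S.K.I} (hi : ¬ S.P.sq i) {j : Fin 5}
    (hx : w ∈ S.J (S.tr h i (j + 1))) (hf : S.rho w (S.tr h i j) ≠ S.rho w (S.tr h i (j + 2))) :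
    S.IsC (S.tr h i) w ∨
      ∃ u k, S.Sq w u (S.tr h i k) (S.tr h i (k + 1)) (S.tr h i (k + 2)) (S.tr h i (k + 3))
        (S.tr h i (k + 4)) ∧ (j = k ∨ j = k + 1 ∨ j = k + 4) := by
  by_cases hI : S.IsC (S.tr h i) w
  · exact Or.inl hI
  · right
    obtain ⟨u, hu, ⟨k, hk⟩ | hk⟩ := S.off_cases (S.tr_E h hi) hI
    · refine ⟨u, k, hk, ?_⟩
      obtain ⟨m, rfl⟩ : ∃ m, j = k + m := ⟨j - k, (add_sub_cancel k j).symm⟩
      have n3 : w ∉ S.J (S.tr h i (k + 3)) := S.not_mem_of_bey hu hk.2.2.2.2.1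
      have n4 : w ∉ S.J (S.tr h i (k + 4)) := S.not_mem_of_bey hu hk.2.2.2.2.2
      fin_cases m
      · exact Or.inl (add_zero k)
      · exact Or.inr (Or.inl rfl)
      · exfalso
        apply n3
        have : k + 2 + 1 = k + 3 := by rw [add_assoc]; rfl
        rw [← this]
        exact hx
      · exfalso
        apply n4
        have : k + 3 + 1 = k + 4 := by rw [add_assoc]; rfl
        rw [← this]
        exact hx
      · exact Or.inr (Or.inr rfl)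
    · exfalso
      rcases hk (j + 1) with ⟨-, h1, h2⟩ | h1
      · have a1 : j + 1 + 1 = j + 2 := by rw [add_assoc]; rfl
        have a2 : j + 1 + 4 = j := by
          rw [add_assoc]
          exact add_zero j
        rw [a1] at h1
        rw [a2] at h2
        exact hf (h2.trans h1.symm)
      · rw [S.rho_near hx] at h1
        cases h1

theorem exists_vsq (hc : S.Conn) (hnb : S.NB) {w : S.X} {e : S.K.LE} (he : e ∈ S.vsq w) :
    ∃ e' : (S.k0 hc w).LE, bkq hc e' = e ∧ ∀ p l, e' ≠ e4 hc p 2 l := by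
  obtain ⟨h1, h2⟩ : w ∈ S.J (S.K.c1 e) ∧ S.rho w (S.K.c0 e) ≠ S.rho w (S.K.c2 e) := he
  have h3 := hnb
  rcases S.P.l_cases e with ⟨i, hi, j, h, rfl⟩ | ⟨i, hi, j, h, rfl⟩
  · rw [P45.c1_5] at h1
    rw [P45.c0_5, P45.c2_5] at h2
    rcases visq_cases hi h1 h2 with hI | ⟨u, k, hs, hj⟩
    · obtain ⟨c, l, rfl, rfl⟩ := exists_e5 hi hI
      refine ⟨e5 hc c j l, rfl, ?_⟩
      intro p l' e
      have : (Sum.inl c : S.CI w) = Sum.inr (Sum.inl p) := congrArg (fun e => e.1.1) e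
      cases this
    · obtain ⟨p, l, rfl, rfl, rfl⟩ := exists_e4 hi hs
      have key : ∀ m : Fin 4, m ≠ 2 → ∀ p' l', e4 hc p m l ≠ e4 hc p' 2 l' := by
        intro m hm p' l' e
        have e1 : (⟨Sum.inr (Sum.inl p), m⟩ : Σ c : S.CI w, Fin ((S.k0 hc w).len c)) =
          ⟨Sum.inr (Sum.inl p'), (2 : Fin 4)⟩ := congrArg (fun e => e.1) e
        obtain ⟨e2, e3⟩ := Sigma.mk.inj_iff.1 e1
        have e2' : p = p' := Sum.inl.inj (Sum.inr.inj e2)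
        subst e2'
        exact hm (eq_of_heq e3)
      rcases hj with rfl | rfl | rfl
      · refine ⟨e4 hc p 0 l, ?_, key 0 (by decide)⟩
        rw [bkq_e4]
        have a0 : p.1.2.1 + dlq 0 = p.1.2.1 := add_zero _
        rw [a0]
      · exact ⟨e4 hc p 1 l, rfl, key 1 (by decide)⟩
      · exact ⟨e4 hc p 3 l, rfl, key 3 (by decide)⟩
  · rw [P45.c1_4] at h1
    rw [P45.c0_4, P45.c2_4] at h2
    have hopp : h • S.P.qt i (j + 1) ≠ h • S.P.qt i (j + 3) := by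
      have := hnb (S.P.l4 i hi (j + 1) h)
      rw [P45.c0_4, P45.c2_4] at this
      have a1 : j + 1 + 2 = j + 3 := by rw [add_assoc]; rfl
      rwa [a1] at this
    have h4 : S.rho w (S.tq h i (j + 1)) ≠ S.rho w (S.tq h i (j + 3)) := by
      intro k
      rcases S.rho_eq_iff.1 k with k | ⟨k, -⟩
      · exact hopp k
      · exact k h1
    have hn : S.ND w (S.tq h i) := by
      have h2 : S.rho w (S.tq h i j) ≠ S.rho w (S.tq h i (j + 2)) := h2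
      fin_cases j
      · exact ⟨h2, h4⟩
      · exact ⟨h4.symm, h2⟩
      · exact ⟨h2.symm, h4.symm⟩
      · exact ⟨h4, h2.symm⟩
    obtain ⟨p, l, rfl, rfl⟩ := exists_e4q hi hn
    refine ⟨e4q hc p j l, rfl, ?_⟩
    intro p' l' e
    have : (Sum.inr (Sum.inr p) : S.CI w) = Sum.inr (Sum.inl p') := congrArg (fun e => e.1.1) e
    cases this

/-- `bkq` is injective on the corners at the vertices over `w` -/
theorem bkq_inj (hc : S.Conn) {w : S.X} {e e' : (S.k0 hc w).LE} (he : ∀ p l, e ≠ e4 hc p 2 l)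
    (he' : ∀ p l, e' ≠ e4 hc p 2 l) (h : bkq hc e = bkq hc e') : e = e' := by
  rcases e_cases hc e with ⟨c, j, l, rfl⟩ | ⟨p, j, l, rfl⟩ | ⟨p, j, l, rfl⟩ <;>
    rcases e_cases hc e' with ⟨c', j', l', rfl⟩ | ⟨p', j', l', rfl⟩ | ⟨p', j', l', rfl⟩
  · rw [bkq_e5, bkq_e5] at h
    obtain ⟨h2, h3, h4⟩ := S.P.l5_inj h
    obtain ⟨rfl, rfl⟩ := C5.eq_of h2 h4
    rw [h3]
  · exfalso
    rw [bkq_e5, bkq_e4] at h
    obtain ⟨h2, h3, h4⟩ := S.P.l5_inj h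
    have s1 := c.isCl l
    have s2 := p'.sql l'
    rw [← h4, ← h2] at s2
    exact s2.not_isC s1
  · exfalso
    rw [bkq_e5, bkq_e4q] at h
    exact S.P.l5_ne_l4 h
  · exfalso
    rw [bkq_e4, bkq_e5] at h
    obtain ⟨h2, h3, h4⟩ := S.P.l5_inj h
    have s1 := c'.isCl l'
    have s2 := p.sql l
    rw [h4, h2] at s2
    exact s2.not_isC s1
  · rw [bkq_e4, bkq_e4] at h
    obtain ⟨h2, h3, h4⟩ := S.P.l5_inj h
    obtain ⟨rfl, rfl⟩ := C4.eq_of h2 h4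
    have h5 : dlq j = dlq j' := add_left_cancel h3
    have n1 : j ≠ 2 := fun k => he p l (by rw [k])
    have n2 : j' ≠ 2 := fun k => he' p l (by rw [k])
    rw [dlq_inj j j' h5 n1 n2]
  · exfalso
    rw [bkq_e4, bkq_e4q] at h
    exact S.P.l5_ne_l4 h
  · exfalso
    rw [bkq_e4q, bkq_e5] at h
    exact S.P.l5_ne_l4 h.symm
  · exfalso
    rw [bkq_e4q, bkq_e4] at h
    exact S.P.l5_ne_l4 h.symm
  · rw [bkq_e4q, bkq_e4q] at h
    obtain ⟨h2, h3, h4⟩ := S.P.l4_inj h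
    obtain ⟨rfl, rfl⟩ := C4q.eq_of h2 h4
    rw [h3]

/-- the corner of the slice -/
theorem exists_lift (hc : S.Conn) (hnb : S.NB) {w : S.X} {e : S.K.LE} (he : e ∈ S.vsq w) :
    ∃ e' : (S.k0 hc w).LE, bkq hc e' = e ∧ (S.k0 hc w).c0 e' = S.rho w (S.K.c0 e) ∧
      (S.k0 hc w).c1 e' = Sum.inl ⟨S.K.c1 e, he.1⟩ ∧ (S.k0 hc w).c2 e' = S.rho w (S.K.c2 e) := by
  obtain ⟨e', h1, h2⟩ := exists_vsq hc hnb he
  have h3 := bkq_c hc e' h2
  rw [h1, S.rho_near he.1] at h3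
  exact ⟨e', h1, h3⟩

theorem lift_unique (hc : S.Conn) {w : S.X} {e e' : (S.k0 hc w).LE} {x x' : S.NV w}
    (h1 : (S.k0 hc w).c1 e = Sum.inl x) (h1' : (S.k0 hc w).c1 e' = Sum.inl x')
    (h : bkq hc e = bkq hc e') : e = e' :=
  bkq_inj hc (bk_ne hc h1) (bk_ne hc h1') h

/-- the vertices of a corner of the slice at a vertex over `w` -/
theorem bkq_v (hc : S.Conn) {w : S.X} {e : (S.k0 hc w).LE} {x : S.NV w}
    (hx : (S.k0 hc w).c1 e = Sum.inl x) : (S.k0 hc w).c0 e = S.rho w (S.K.c0 (bkq hc e)) ∧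
      S.K.c1 (bkq hc e) = x.1 ∧ (S.k0 hc w).c2 e = S.rho w (S.K.c2 (bkq hc e)) := by
  have h := bkq_c hc e (bk_ne hc hx)
  exact ⟨h.1, rho_inl (h.2.1.symm.trans hx), h.2.2⟩

end SyQ

end Pool.Agent.DI
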