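import Pool.Agent.DI.OpnX
import Pool.Agent.DI.QK0P

/-!
# The cells of the opened complex

`O.p45 P : P45 O.gx` for `P : P45 K`: the lifted pentagons and squares and the new squares. `Qn_π`,
`Qn_lift`, `Q4_π`, `Q4_lift`, `Q4_new`; `p45_nd`, `nb`: no degenerate cells.
-/

namespace Pool.Agent.DI

open MulAction
open Pool.Agent.SAF (InC orbs FinOrb oc mk_eq_iff FinOrb_iff)

namespace OpW

variable {H V W : Type} [Group H] [MulAction H V] [MulAction H W] {K : GX H V} (O : OpW K W)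

theorem fl4 (f : ℕ → W) : fl f 4 = [f 1, f 2, f 3, f 4] := rfl

theorem fl5 (f : ℕ → W) : fl f 5 = [f 1, f 2, f 3, f 4, f 5] := rfl

/-- THE CELLS OF THE OPENED COMPLEX -/
noncomputable def p45 (P : P45 K) : P45 O.gx where
  sq
    | Sum.inl i => P.sq i
    | Sum.inr _ => True
  pt
    | Sum.inl i => fun k => O.lp i k.1
    | Sum.inr j => fun _ => O.js j
  qt
    | Sum.inl i => fun k => O.lp i k.1
    | Sum.inr j => ![O.e (O.π (O.js j)) (O.ja j), O.js j, O.e (O.π (O.js j)) (O.jb j), O.jt j]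
  cb5 := by
    rintro (i | j) h
    · rfl
    · exact absurd trivial h
  cw5 := by
    rintro (i | j) h
    · have h : ¬ P.sq i := h
      have h5 := P.len5 h
      have e : O.lp i 5 = O.lp i 0 := by
        have := O.lp_len i 0
        rwa [h5] at this
      show fl (O.lp i) (K.len i) = [O.lp i 1, O.lp i 2, O.lp i 3, O.lp i 4, O.lp i 0]
      rw [h5, fl5, e]
    · exact absurd trivial h
  cb4 := by
    rintro (i | j) h
    · rfl
    · rfl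
  cw4 := by
    rintro (i | j) h
    · have h : P.sq i := h
      have h4 := P.len4 h
      have e : O.lp i 4 = O.lp i 0 := by
        have := O.lp_len i 0
        rwa [h4] at this
      show fl (O.lp i) (K.len i) = [O.lp i 1, O.lp i 2, O.lp i 3, O.lp i 0]
      rw [h4, fl4, e]
    · rfl

variable (P : P45 K)

theorem p45_sq_inl (i : K.I) : (O.p45 P).sq (Sum.inl i) ↔ P.sq i := Iff.rfl

theorem p45_sq_inr (j : O.J) : (O.p45 P).sq (Sum.inr j) := trivial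

theorem π_pt {i : K.I} (h : ¬ P.sq i) (k : Fin 5) : O.π ((O.p45 P).pt (Sum.inl i) k) = P.pt i k := by
  show O.π (O.lp i k.1) = _
  rw [O.π_lp]
  have hl : k.1 ≤ K.len i := by
    rw [P.len5 h]
    omega
  rw [K.vx_of_le hl, P.cb5 i h, P.cw5 i h]
  fin_cases k <;> rfl

theorem π_qt {i : K.I} (h : P.sq i) (k : Fin 4) : O.π ((O.p45 P).qt (Sum.inl i) k) = P.qt i k := by
  show O.π (O.lp i k.1) = _
  rw [O.π_lp, P.vx4 h]

/-- the image of a pentagon -/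
theorem Qn_π {a q b y z : W} (h : Qn (O.p45 P) a q b y z) :
    Qn P (O.π a) (O.π q) (O.π b) (O.π y) (O.π z) := by
  obtain ⟨g, i | j, k, hi, h⟩ := h
  · have hi : ¬ P.sq i := hi
    refine ⟨g, i, k, hi, ?_⟩
    rcases h with ⟨rfl, rfl, rfl, rfl, rfl⟩ | ⟨rfl, rfl, rfl, rfl, rfl⟩
    · left
      simp only [O.π_smul, O.π_pt P hi, and_self]
    · right
      simp only [O.π_smul, O.π_pt P hi, and_self]
  · exact absurd trivial hi

/-- a pentagon has a lift -/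
theorem Qn_lift {a q b y z : V} (h : Qn P a q b y z) : ∃ a' q' b' y' z' : W,
    O.π a' = a ∧ O.π q' = q ∧ O.π b' = b ∧ O.π y' = y ∧ O.π z' = z ∧
    Qn (O.p45 P) a' q' b' y' z' := by
  obtain ⟨g, i, k, hi, ⟨rfl, rfl, rfl, rfl, rfl⟩ | ⟨rfl, rfl, rfl, rfl, rfl⟩⟩ := h
  · have hi' : ¬ (O.p45 P).sq (Sum.inl i) := hi
    refine ⟨_, _, _, _, _, ?_, ?_, ?_, ?_, ?_, g, Sum.inl i, k, hi', Or.inl ⟨rfl, rfl, rfl, rfl, rfl⟩⟩
    all_goals rw [O.π_smul, O.π_pt P hi]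
  · have hi' : ¬ (O.p45 P).sq (Sum.inl i) := hi
    refine ⟨_, _, _, _, _, ?_, ?_, ?_, ?_, ?_, g, Sum.inl i, k, hi', Or.inr ⟨rfl, rfl, rfl, rfl, rfl⟩⟩
    all_goals rw [O.π_smul, O.π_pt P hi]

/-- a translate of a new square, `a`, `b` the common poles -/
def NSq (a q b y : W) : Prop := ∃ (h : H) (j : O.J),
  (q = h • O.js j ∧ y = h • O.jt j ∨ q = h • O.jt j ∧ y = h • O.js j) ∧
  (a = h • O.e (O.π (O.js j)) (O.ja j) ∧ b = h • O.e (O.π (O.js j)) (O.jb j) ∨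
    a = h • O.e (O.π (O.js j)) (O.jb j) ∧ b = h • O.e (O.π (O.js j)) (O.ja j))

/-- the image of a square -/
theorem Q4_π {a q b y : W} (h : Q4 (O.p45 P) a q b y) :
    Q4 P (O.π a) (O.π q) (O.π b) (O.π y) ∨ O.NSq a q b y ∨ O.NSq q b y a := by
  obtain ⟨g, i | j, k, hi, h⟩ := h
  · left
    have hi : P.sq i := hi
    refine ⟨g, i, k, hi, ?_⟩
    rcases h with ⟨rfl, rfl, rfl, rfl⟩ | ⟨rfl, rfl, rfl, rfl⟩
    · left
      simp only [O.π_smul, O.π_qt P hi, and_self]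
    · right
      simp only [O.π_smul, O.π_qt P hi, and_self]
  · right
    rcases h with ⟨rfl, rfl, rfl, rfl⟩ | ⟨rfl, rfl, rfl, rfl⟩
    · fin_cases k
      · exact Or.inl ⟨g, j, Or.inl ⟨rfl, rfl⟩, Or.inl ⟨rfl, rfl⟩⟩
      · exact Or.inr ⟨g, j, Or.inr ⟨rfl, rfl⟩, Or.inr ⟨rfl, rfl⟩⟩
      · exact Or.inl ⟨g, j, Or.inr ⟨rfl, rfl⟩, Or.inr ⟨rfl, rfl⟩⟩
      · exact Or.inr ⟨g, j, Or.inl ⟨rfl, rfl⟩, Or.inl ⟨rfl, rfl⟩⟩
    · fin_cases k
      · exact Or.inl ⟨g, j, Or.inl ⟨rfl, rfl⟩, Or.inr ⟨rfl, rfl⟩⟩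
      · exact Or.inr ⟨g, j, Or.inl ⟨rfl, rfl⟩, Or.inr ⟨rfl, rfl⟩⟩
      · exact Or.inl ⟨g, j, Or.inr ⟨rfl, rfl⟩, Or.inl ⟨rfl, rfl⟩⟩
      · exact Or.inr ⟨g, j, Or.inr ⟨rfl, rfl⟩, Or.inl ⟨rfl, rfl⟩⟩

/-- a square has a lift -/
theorem Q4_lift {a q b y : V} (h : Q4 P a q b y) : ∃ a' q' b' y' : W,
    O.π a' = a ∧ O.π q' = q ∧ O.π b' = b ∧ O.π y' = y ∧ Q4 (O.p45 P) a' q' b' y' := by
  obtain ⟨g, i, k, hi, ⟨rfl, rfl, rfl, rfl⟩ | ⟨rfl, rfl, rfl, rfl⟩⟩ := h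
  · have hi' : (O.p45 P).sq (Sum.inl i) := hi
    refine ⟨_, _, _, _, ?_, ?_, ?_, ?_, g, Sum.inl i, k, hi', Or.inl ⟨rfl, rfl, rfl, rfl⟩⟩
    all_goals rw [O.π_smul, O.π_qt P hi]
  · have hi' : (O.p45 P).sq (Sum.inl i) := hi
    refine ⟨_, _, _, _, ?_, ?_, ?_, ?_, g, Sum.inl i, k, hi', Or.inr ⟨rfl, rfl, rfl, rfl⟩⟩
    all_goals rw [O.π_smul, O.π_qt P hi]

/-- the new squares -/
theorem Q4_new {a q b y : W} (h : O.NSq a q b y) : Q4 (O.p45 P) a q b y := by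
  obtain ⟨g, j, ⟨rfl, rfl⟩ | ⟨rfl, rfl⟩, ⟨rfl, rfl⟩ | ⟨rfl, rfl⟩⟩ := h
  · exact ⟨g, Sum.inr j, 0, trivial, Or.inl ⟨rfl, rfl, rfl, rfl⟩⟩
  · exact ⟨g, Sum.inr j, 0, trivial, Or.inr ⟨rfl, rfl, rfl, rfl⟩⟩
  · exact ⟨g, Sum.inr j, 2, trivial, Or.inr ⟨rfl, rfl, rfl, rfl⟩⟩
  · exact ⟨g, Sum.inr j, 2, trivial, Or.inl ⟨rfl, rfl, rfl, rfl⟩⟩

/-- the vertices of a new square -/
theorem NSq.ar {a q b y : W} (h : O.NSq a q b y) : O.gx.ar q a ∧ O.gx.ar q b ∧ O.gx.ar y a ∧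
    O.gx.ar y b ∧ O.π q = O.π y ∧ O.π a ≠ O.π b := by
  obtain ⟨g, j, h1, h2⟩ := h
  obtain ⟨a1, a2, a3, a4⟩ := O.sq_ar j g
  have hp : O.π (g • O.js j) = O.π (g • O.jt j) := by rw [O.π_smul, O.π_smul, O.j_eq]
  have hab : O.π (g • O.e (O.π (O.js j)) (O.ja j)) ≠ O.π (g • O.e (O.π (O.js j)) (O.jb j)) := by
    rw [O.π_smul, O.π_smul, O.π_e _ _ (O.j_a j), O.π_e _ _ (O.j_b j)]
    exact fun e => O.j_ab j (smul_left_cancel g e)
  rcases h1 with ⟨rfl, rfl⟩ | ⟨rfl, rfl⟩ <;> rcases h2 with ⟨rfl, rfl⟩ | ⟨rfl, rfl⟩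
  · exact ⟨a1, a2, a3, a4, hp, hab⟩
  · exact ⟨a2, a1, a4, a3, hp, hab.symm⟩
  · exact ⟨a3, a4, a1, a2, hp.symm, hab⟩
  · exact ⟨a4, a3, a2, a1, hp.symm, hab.symm⟩

/-- no square is degenerate -/
theorem p45_nd (nd : P.ND) (hj : ∀ j, O.js j ≠ O.jt j) : (O.p45 P).ND := by
  rintro (i | j) hi
  · have hi : P.sq i := hi
    obtain ⟨n1, n2⟩ := nd i hi
    constructor
    · intro e
      apply n1
      rw [← O.π_qt P hi, ← O.π_qt P hi, e]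
    · intro e
      apply n2
      rw [← O.π_qt P hi, ← O.π_qt P hi, e]
  · constructor
    · show O.e (O.π (O.js j)) (O.ja j) ≠ O.e (O.π (O.js j)) (O.jb j)
      intro e
      have := congrArg O.π e
      rw [O.π_e _ _ (O.j_a j), O.π_e _ _ (O.j_b j)] at this
      exact O.j_ab j this
    · exact hj j

/-- no backtracking -/
theorem nb (hnb : ∀ e : K.LE, K.c0 e ≠ K.c2 e) (hj : ∀ j, O.js j ≠ O.jt j) (e' : O.gx.LE) :
    O.gx.c0 e' ≠ O.gx.c2 e' := by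
  rcases O.LE_cases e' with ⟨e, rfl⟩ | ⟨j, k, h, he⟩
  · intro q
    apply hnb e
    rw [← O.π_up0, ← O.π_up2, q]
  · subst he
    have hl := O.gx_len_inr j
    obtain ⟨v0, v1, v2, v3⟩ := O.vx_inr j
    have v4 : O.gx.vx (Sum.inr j) 4 = O.gx.vx (Sum.inr j) 0 := by
      rw [← O.gx.vx_mod (Sum.inr j) 4, hl]
    have v5 : O.gx.vx (Sum.inr j) 5 = O.gx.vx (Sum.inr j) 1 := by
      rw [← O.gx.vx_mod (Sum.inr j) 5, hl]
    have hab : O.e (O.π (O.js j)) (O.ja j) ≠ O.e (O.π (O.js j)) (O.jb j) := by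
      intro e
      have := congrArg O.π e
      rw [O.π_e _ _ (O.j_a j), O.π_e _ _ (O.j_b j)] at this
      exact O.j_ab j this
    have hk : k.1 < 4 := lt_of_lt_of_eq k.2 hl
    have key : ∀ n, k.1 = n → O.gx.vx (Sum.inr j) n ≠ O.gx.vx (Sum.inr j) (n + 2) →
        O.gx.c0 ((⟨Sum.inr j, k⟩, h) : O.gx.LE) ≠ O.gx.c2 ((⟨Sum.inr j, k⟩, h) : O.gx.LE) := by
      rintro n rfl hn e
      exact hn (smul_left_cancel h e)
    have hk' : k.1 = 0 ∨ k.1 = 1 ∨ k.1 = 2 ∨ k.1 = 3 := by omega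
    rcases hk' with q | q | q | q
    · refine key 0 q ?_
      rw [v0, v2]
      exact hab
    · refine key 1 q ?_
      rw [v1, v3]
      exact hj j
    · refine key 2 q ?_
      rw [v2, v4, v0]
      exact hab.symm
    · refine key 3 q ?_
      rw [v3, v5, v1]
      exact (hj j).symm

end OpW

namespace OpD

variable {H V : Type} [Group H] [MulAction H V] {K : GX H V} (O : OpD K)

theorem opn_ne (ch : K.I → ℕ → O.W) (hch : ∀ i j, ch i (j + K.len i) = ch i j)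
    (hπ : ∀ i j, O.π (ch i j) = K.vx i j) (j : (O.opn ch hch hπ).J) :
    (O.opn ch hch hπ).js j ≠ (O.opn ch hch hπ).jt j := by
  intro e
  have e : (Sum.inr ((1 : H) : H ⧸ O.D) : O.W) = Sum.inr (O.r : H ⧸ O.D) := e
  have h := O.mk_eq.1 (Sum.inr.inj e)
  rw [inv_one, one_mul] at h
  exact O.rD h

theorem opp_ne (ch : K.I → ℕ → V ⊕ (H ⧸ O.D)) (hch : ∀ i j, ch i (j + K.len i) = ch i j)
    (hπ : ∀ i j, O.πp (ch i j) = K.vx i j) (j : (O.opp ch hch hπ).J) :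
    (O.opp ch hch hπ).js j ≠ (O.opp ch hch hπ).jt j := by
  intro e
  have e : (Sum.inr ((1 : H) : H ⧸ O.D) : V ⊕ (H ⧸ O.D)) = Sum.inl O.v := e
  cases e

end OpD

end Pool.Agent.DI
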