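import Pool.Agent.DI.ELt

/-!
# The graph `TT` over a midpoint and the comparison with `Theta`

`Mid w u w'`: the neighbours of `u` are `w` and `w'`. `Sys.JTT`: the graph `TT` with a group between
`Je w u` and `stabilizer H u`. `Sys.b1_Th_le`: `b1 (Theta) ≤ b1 (TT)` (both modulo `Je w u`).
-/

namespace Pool.Agent.DI

open MulAction
open Pool.Agent.SAF (InC orbs FinOrb oc Decomp SAn SA Conv hull dist_edge FinOrb_iff exists_next
  mk_eq_iff oc_le_of_inj oc_le_of_rel oc_le_of_surj oc_mono)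
open Pool.Agent.BT (PX PQ JS bey exits lz lz_self lz_ne lz_symm x_next_unique)
open Pool.Agent.BT.TA

namespace Sys

variable {H V : Type} [Group H] [MulAction H V] {S : Sys H V}

variable (S) in
/-- the neighbours of `u` are `w` and `w'` -/
structure Mid (w u w' : S.X) : Prop where
  hw : S.D.G.Adj u w
  hw' : S.D.G.Adj u w'
  ne : w ≠ w'
  val : ∀ z, S.D.G.Adj u z → z = w ∨ z = w'

variable (S) in
/-- adjacent vertices over `u`: one of them is over `u` only -/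
def U1 (u : S.X) : Prop := ∀ x y, S.K.E x y → u ∈ S.J x → u ∈ S.J y → S.J x = {u} ∨ S.J y = {u}

namespace Mid

variable {w u w' : S.X} (m : S.Mid w u w')

include m

theorem symm : S.Mid w' u w := ⟨m.hw', m.hw, m.ne.symm, fun z hz => (m.val z hz).symm⟩

/-- an element which fixes `u` fixes or exchanges `w` and `w'` -/
theorem cases {g : H} (hg : g • u = u) :
    (g • w = w ∧ g • w' = w') ∨ (g • w = w' ∧ g • w' = w) := by
  have h1 : S.D.G.Adj u (g • w) := by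
    have := S.D.adj_smul g _ _ m.hw
    rwa [hg] at this
  have h2 : S.D.G.Adj u (g • w') := by
    have := S.D.adj_smul g _ _ m.hw'
    rwa [hg] at this
  have h3 : g • w ≠ g • w' := fun e => m.ne (smul_left_cancel g e)
  rcases m.val _ h1 with h | h <;> rcases m.val _ h2 with h' | h'
  · exact absurd (h.trans h'.symm) h3
  · exact Or.inl ⟨h, h'⟩
  · exact Or.inr ⟨h, h'⟩
  · exact absurd (h.trans h'.symm) h3

theorem fix' {g : H} (hg : g • u = u) (h : g • w = w) : g • w' = w' := by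
  rcases m.cases hg with h' | h'
  · exact h'.2
  · exact absurd (h.symm.trans h'.1) m.ne

theorem je_eq : (Je w u : Subgroup H) = Je w' u := by
  ext g
  rw [mem_Je, mem_Je]
  exact ⟨fun h => ⟨m.fix' h.2 h.1, h.2⟩, fun h => ⟨m.symm.fix' h.2 h.1, h.2⟩⟩

end Mid

/-! ### invariance of `TT` -/

theorem TTO.swap {w u w' : S.X} {t s : TV V} (h : S.TTO w u w' t s) : S.TTO w' u w t s := by
  obtain ⟨x, q, rfl, h | h | h⟩ := h
  · exact ⟨x, q, rfl, Or.inr (Or.inl h)⟩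
  · exact ⟨x, q, rfl, Or.inl h⟩
  · exact ⟨x, q, rfl, Or.inr (Or.inr h)⟩

theorem TTN.swap {w u w' : S.X} {t : TV V} (h : S.TTN w u w' t) : S.TTN w' u w t := by
  rcases h with ⟨x, rfl, h1, h2⟩ | ⟨t', h⟩ | h
  · exact Or.inl ⟨x, rfl, h1, h2.symm⟩
  · exact Or.inr (Or.inl ⟨t', h.swap⟩)
  · exact Or.inr (Or.inr h)

theorem J_sing {g : H} {u : S.X} {v : V} (h : S.J v = {u}) : S.J (g • v) = {g • u} := by
  ext z
  constructor
  · intro hz
    have h1 : g⁻¹ • z ∈ S.J v := by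
      have := S.js.smul g⁻¹ _ _ hz
      rwa [inv_smul_smul] at this
    rw [h, Set.mem_singleton_iff] at h1
    rw [Set.mem_singleton_iff, ← h1, smul_inv_smul]
  · intro hz
    rw [Set.mem_singleton_iff] at hz
    rw [hz]
    exact S.js.smul g _ _ (by rw [h]; exact rfl)

theorem TTO.smul {w u w' : S.X} (g : H) {t s : TV V} (h : S.TTO w u w' t s) :
    S.TTO (g • w) (g • u) (g • w') (g • t) (g • s) := by
  obtain ⟨x, q, rfl, h⟩ := h
  refine ⟨g • x, g • q, rfl, ?_⟩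
  rcases h with ⟨x', h1, rfl⟩ | ⟨x', h1, rfl⟩ | ⟨h1, h2, h3, rfl⟩
  · exact Or.inl ⟨g • x', h1.smul' g, by rw [TV.smul_st, Star_smul]⟩
  · exact Or.inr (Or.inl ⟨g • x', h1.smul' g, by rw [TV.smul_st, Star_smul]⟩)
  · exact Or.inr (Or.inr ⟨J_sing h1, S.js.smul g _ _ h2, S.K.E_smul g h3, by
      rw [TV.smul_st, Set.image_empty]⟩)

theorem TTN.smul {w u w' : S.X} (g : H) {t : TV V} (h : S.TTN w u w' t) :
    S.TTN (g • w) (g • u) (g • w') (g • t) := by
  rcases h with ⟨x, rfl, h1, h2⟩ | ⟨t', h⟩ | ⟨v, h, rfl⟩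
  · exact Or.inl ⟨g • x, rfl, S.js.smul g _ _ h1, h2.imp (S.js.smul g _ _) (S.js.smul g _ _)⟩
  · exact Or.inr (Or.inl ⟨g • t', h.smul g⟩)
  · exact Or.inr (Or.inr ⟨g • v, J_sing h, by rw [TV.smul_st, Set.image_empty]⟩)

theorem TTO.smulU {w u w' : S.X} (m : S.Mid w u w') {g : H} (hg : g • u = u) {t s : TV V}
    (h : S.TTO w u w' t s) : S.TTO w u w' (g • t) (g • s) := by
  have h1 := h.smul g
  rcases m.cases hg with ⟨h2, h3⟩ | ⟨h2, h3⟩
  · rwa [hg, h2, h3] at h1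
  · rw [hg, h2, h3] at h1
    exact h1.swap

theorem TTN.smulU {w u w' : S.X} (m : S.Mid w u w') {g : H} (hg : g • u = u) {t : TV V}
    (h : S.TTN w u w' t) : S.TTN w u w' (g • t) := by
  have h1 := h.smul g
  rcases m.cases hg with ⟨h2, h3⟩ | ⟨h2, h3⟩
  · rwa [hg, h2, h3] at h1
  · rw [hg, h2, h3] at h1
    exact h1.swap

/-! ### finiteness -/

/-- from the stabiliser of a midpoint to the stabiliser of an edge -/
theorem finOrb_mid {w u w' : S.X} (m : S.Mid w u w') {Y : Type} [MulAction H Y] {A : Set Y}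
    (hA : ∀ g : H, g • u = u → ∀ y ∈ A, g • y ∈ A) (h : FinOrb ↥(stabilizer H u) A) :
    FinOrb ↥(Je w u : Subgroup H) A := by
  rw [FinOrb_iff] at h ⊢
  obtain ⟨F, hF, hFA, h⟩ := h
  by_cases hb : ∃ b : H, b • u = u ∧ b • w = w'
  · obtain ⟨b, hb1, hb2⟩ := hb
    refine ⟨F ∪ (fun y => b • y) '' F, hF.union (hF.image _), ?_, ?_⟩
    · rintro y (hy | ⟨z, hz, rfl⟩)
      · exact hFA hy
      · exact hA b hb1 z (hFA hz)
    · intro y hy
      obtain ⟨f, hf, g, rfl⟩ := h y hy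
      rcases m.cases (g := g.1) g.2 with ⟨h2, h3⟩ | ⟨h2, h3⟩
      · exact ⟨f, Or.inl hf, ⟨g.1, h2, g.2⟩, rfl⟩
      · refine ⟨b • f, Or.inr ⟨f, hf, rfl⟩, ⟨g.1 * b⁻¹, ?_, ?_⟩, ?_⟩
        · have h4 : b⁻¹ • w' = w := by rw [← hb2, inv_smul_smul]
          have h5 : (g.1 * b⁻¹) • w' = w' := by rw [mul_smul, h4, h2]
          have h6 : (g.1 * b⁻¹) • u = u := by
            rw [mul_smul, inv_smul_eq_iff.2 hb1.symm]
            exact g.2
          exact m.symm.fix' h6 h5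
        · show (g.1 * b⁻¹) • u = u
          rw [mul_smul, inv_smul_eq_iff.2 hb1.symm]
          exact g.2
        · show (g.1 * b⁻¹) • b • f = g.1 • f
          rw [mul_smul, inv_smul_smul]
  · refine ⟨F, hF, hFA, ?_⟩
    intro y hy
    obtain ⟨f, hf, g, rfl⟩ := h y hy
    rcases m.cases (g := g.1) g.2 with ⟨h2, h3⟩ | ⟨h2, h3⟩
    · exact ⟨f, hf, ⟨g.1, h2, g.2⟩, rfl⟩
    · exact absurd ⟨g.1, g.2, h2⟩ hb

/-- pairs of adjacent vertices over `u` -/
theorem fin_pl (u : S.X) : FinOrb ↥(stabilizer H u)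
    {p : V × V | S.K.E p.1 p.2 ∧ u ∈ S.J p.1 ∧ u ∈ S.J p.2} := by
  have h1 : FinOrb ↥(stabilizer H u) {p : V × V | S.K.ar p.1 p.2 ∧ u ∈ S.J p.1 ∧ u ∈ S.J p.2} := by
    apply Pool.Agent.SAF.FinOrb.of_inj S.K.finAr (fun p => p) (fun p h => h.1)
    rintro a ⟨ha1, ha2, ha3⟩ b ⟨hb1, hb2, hb3⟩ ⟨g, e⟩
    have e : g • a = b := e
    subst e
    have h2 : g • u = u := S.one_eq (Or.inl hb1) (S.js.smul g _ _ ha2) (S.js.smul g _ _ ha3) hb2 hb3
    exact ⟨⟨g, h2⟩, rfl⟩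
  have h2 : FinOrb ↥(stabilizer H u) {p : V × V | S.K.ar p.2 p.1 ∧ u ∈ S.J p.1 ∧ u ∈ S.J p.2} := by
    apply Pool.Agent.SAF.FinOrb.of_inj (s := {p : V × V | S.K.ar p.2 p.1 ∧ u ∈ S.J p.1 ∧ u ∈ S.J p.2})
      h1 (fun p : V × V => (p.2, p.1)) (fun p h => ⟨h.1, h.2.2, h.2.1⟩)
    rintro a _ b _ ⟨g, e⟩
    exact ⟨g, Prod.ext (congrArg Prod.snd e) (congrArg Prod.fst e)⟩
  refine Pool.Agent.SAF.FinOrb.mono ?_ (finOrb_union h1 h2)
  rintro p ⟨h3 | h3, h4⟩
  · exact Or.inl ⟨h3, h4⟩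
  · exact Or.inr ⟨h3, h4⟩

/-- finitely many orbits of lines of `TT` -/
theorem fin_TTO {w u w' : S.X} (m : S.Mid w u w') :
    FinOrb ↥(Je w u : Subgroup H) {p : TV V × TV V | S.TTO w u w' p.1 p.2} := by
  have h1 : ∀ z : S.X, FinOrb ↥(Je z u : Subgroup H)
      {p : TV V × TV V | ∃ x q, (x, q) ∈ S.nQ z u ∧ p = (TV.el x, TV.st q (S.Star z u q x))} := by
    intro z
    apply Pool.Agent.SAF.FinOrb.image (fin_nQ (S := S) z u)
      (fun p => (TV.el p.1, TV.st p.2 (S.Star z u p.2 p.1)))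
    · rintro _ ⟨x, q, h, rfl⟩
      exact ⟨(x, q), h, 1, one_smul _ _⟩
    · rintro ⟨x, q⟩ _ _ _ ⟨g, rfl⟩
      refine ⟨g, Prod.ext rfl ?_⟩
      show g.1 • TV.st q (S.Star z u q x) = TV.st (g.1 • q) (S.Star z u (g.1 • q) (g.1 • x))
      rw [TV.smul_st, Star_smul, (je_smul g).1, (je_smul g).2]
  have h2 := h1 w'
  rw [← m.je_eq] at h2
  have h3 : FinOrb ↥(Je w u : Subgroup H)
      {p : V × V | S.K.E p.1 p.2 ∧ u ∈ S.J p.1 ∧ u ∈ S.J p.2} := by
    apply finOrb_mid m _ (fin_pl u)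
    rintro g hg p ⟨h4, h5, h6⟩
    have h5 := S.js.smul g _ _ h5
    have h6 := S.js.smul g _ _ h6
    rw [hg] at h5 h6
    exact ⟨S.K.E_smul g h4, h5, h6⟩
  have h4 : FinOrb ↥(Je w u : Subgroup H) {p : TV V × TV V | ∃ x q, (S.K.E x q ∧ u ∈ S.J x ∧
      u ∈ S.J q) ∧ p = (TV.el x, TV.st q ∅)} := by
    apply Pool.Agent.SAF.FinOrb.image h3 (fun p => (TV.el p.1, TV.st p.2 ∅))
    · rintro _ ⟨x, q, h, rfl⟩
      exact ⟨(x, q), h, 1, one_smul _ _⟩
    · rintro ⟨x, q⟩ _ _ _ ⟨g, rfl⟩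
      refine ⟨g, Prod.ext rfl ?_⟩
      show g.1 • TV.st q ∅ = TV.st (g.1 • q) ∅
      rw [TV.smul_st, Set.image_empty]
  refine Pool.Agent.SAF.FinOrb.mono ?_ (finOrb_union (finOrb_union (h1 w) h2) h4)
  rintro ⟨t, s⟩ ⟨x, q, h0, h⟩
  have h0 : t = TV.el x := h0
  subst h0
  have h : (∃ x', S.Qs w u q x x' ∧ s = TV.st q (S.Star w u q x)) ∨
    (∃ x', S.Qs w' u q x x' ∧ s = TV.st q (S.Star w' u q x)) ∨
    (S.J q = {u} ∧ u ∈ S.J x ∧ S.K.E x q ∧ s = TV.st q ∅) := h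
  rcases h with ⟨x', h5, rfl⟩ | ⟨x', h5, rfl⟩ | ⟨h5, h6, h7, rfl⟩
  · exact Or.inl (Or.inl ⟨x, q, ⟨x', h5⟩, rfl⟩)
  · exact Or.inl (Or.inr ⟨x, q, ⟨x', h5⟩, rfl⟩)
  · exact Or.inr ⟨x, q, ⟨h7, h6, by rw [h5]; exact rfl⟩, rfl⟩

/-- finitely many orbits of vertices of `TT` -/
theorem fin_TTN {w u w' : S.X} (m : S.Mid w u w') :
    FinOrb ↥(Je w u : Subgroup H) {t : TV V | S.TTN w u w' t} := by
  have h1 : FinOrb ↥(Je w u : Subgroup H) {x : V | u ∈ S.J x} := by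
    apply finOrb_mid m _ (fin_over u)
    intro g hg x hx
    have := S.js.smul g _ _ hx
    rwa [hg] at this
  have h2 : FinOrb ↥(Je w u : Subgroup H) {t : TV V | ∃ x, u ∈ S.J x ∧ t = TV.el x} := by
    apply Pool.Agent.SAF.FinOrb.image h1 TV.el
    · rintro _ ⟨x, h, rfl⟩
      exact ⟨x, h, 1, one_smul _ _⟩
    · rintro x _ _ _ ⟨g, rfl⟩
      exact ⟨g, rfl⟩
  have h2' : FinOrb ↥(Je w u : Subgroup H) {t : TV V | ∃ x, u ∈ S.J x ∧ t = TV.st x ∅} := by
    apply Pool.Agent.SAF.FinOrb.image h1 (fun x => TV.st x ∅)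
    · rintro _ ⟨x, h, rfl⟩
      exact ⟨x, h, 1, one_smul _ _⟩
    · rintro x _ _ _ ⟨g, rfl⟩
      refine ⟨g, ?_⟩
      show g.1 • TV.st x ∅ = TV.st (g.1 • x) ∅
      rw [TV.smul_st, Set.image_empty]
  have h3 : FinOrb ↥(Je w u : Subgroup H) {t : TV V | ∃ t', S.TTO w u w' t' t} := by
    apply Pool.Agent.SAF.FinOrb.image (fin_TTO m) (fun p => p.2)
    · rintro s ⟨t', h⟩
      exact ⟨(t', s), h, 1, one_smul _ _⟩
    · rintro a _ _ _ ⟨g, rfl⟩
      exact ⟨g, rfl⟩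
  refine Pool.Agent.SAF.FinOrb.mono ?_ (finOrb_union (finOrb_union h2 h2') h3)
  rintro t (⟨x, rfl, h, -⟩ | h | ⟨v, h, rfl⟩)
  · exact Or.inl (Or.inl ⟨x, h, rfl⟩)
  · exact Or.inr h
  · exact Or.inl (Or.inr ⟨v, by rw [h]; exact rfl, rfl⟩)

/-- a bigger group -/
theorem finOrb_le {Y : Type} [MulAction H Y] {K1 K2 : Subgroup H} (hK : K1 ≤ K2) {A : Set Y}
    (h : FinOrb ↥K1 A) : FinOrb ↥K2 A := by
  apply Pool.Agent.SAF.FinOrb.image h (fun y => y)
  · intro y hy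
    exact ⟨y, hy, 1, one_smul _ _⟩
  · rintro a _ b _ ⟨g, rfl⟩
    exact ⟨⟨g.1, hK g.2⟩, rfl⟩

/-! ### the graph `TT` -/

variable (S) in
/-- the vertices of `TT` -/
def TTS {w u w' : S.X} (m : S.Mid w u w') {K : Subgroup H} (hK : K ≤ stabilizer H u) :
    SubMulAction ↥K (TV V) where
  carrier := {t | S.TTN w u w' t}
  smul_mem' g _ h := TTN.smulU m (hK g.2) h

variable (S) in
/-- the lines of `TT` -/
def TTU {w u w' : S.X} (m : S.Mid w u w') {K : Subgroup H} (hK : K ≤ stabilizer H u)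
    (a b : ↥(S.TTS m hK)) : Prop := S.TTO w u w' a.1 b.1

theorem TTU.smul {w u w' : S.X} (m : S.Mid w u w') {K : Subgroup H} (hK : K ≤ stabilizer H u)
    (g : ↥K) (a b : ↥(S.TTS m hK)) (h : S.TTU m hK a b) : S.TTU m hK (g • a) (g • b) :=
  TTO.smulU m (hK g.2) h

theorem finite_TTS {w u w' : S.X} (m : S.Mid w u w') {K : Subgroup H} (hK : K ≤ stabilizer H u)
    (hJ : Je w u ≤ K) : Finite (orbitRel.Quotient ↥K ↥(S.TTS m hK)) :=
  finite_orb_sub _ (finOrb_le hJ (fin_TTN m))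

theorem finite_TTU {w u w' : S.X} (m : S.Mid w u w') {K : Subgroup H} (hK : K ≤ stabilizer H u)
    (hJ : Je w u ≤ K) :
    Finite (orbitRel.Quotient ↥K ↥(oS (S.TTU m hK) (TTU.smul m hK))) :=
  finite_oS (S.TTS m hK) (S.TTO w u w') _ (fun _ _ h => h) (finOrb_le hJ (fin_TTO m))

variable (S) in
/-- the graph `TT` with a group between the edge group and the vertex group -/
def JTT {w u w' : S.X} (m : S.Mid w u w') {K : Subgroup H} (hK : K ≤ stabilizer H u)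
    (hJ : Je w u ≤ K) : JM ↥K ↥(S.TTS m hK) ↥(oS (S.TTU m hK) (TTU.smul m hK)) :=
  JM.ofO (S.TTU m hK) (TTU.smul m hK) (finite_TTS m hK hJ) (finite_TTU m hK hJ)

theorem je_le_u (w u : S.X) : (Je w u : Subgroup H) ≤ stabilizer H u := inf_le_right

/-! ### the map from `Theta` to `TT` -/

theorem bey_nest {w u u1 : S.X} (hu : S.D.G.Adj w u) (hu1 : S.D.G.Adj w u1) (hne : u1 ≠ u) :
    bey S.D.G w u1 ⊆ bey S.D.G u w := by
  intro x hx
  rcases bey_or S.D.tree hu x with h | h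
  · exact absurd (S.bey_unique hu1 hu hx h) hne
  · exact h

/-- at most two directions -/
theorem dir_two {w : S.X} {x : V} (hx : w ∈ S.J x) {a b c : S.X} (ha : S.D.G.Adj w a ∧ a ∈ S.J x)
    (hb : S.D.G.Adj w b ∧ b ∈ S.J x) (hc : S.D.G.Adj w c ∧ c ∈ S.J x) : a = b ∨ b = c ∨ a = c := by
  rcases S.js.two x w hx (Sum.inr a) (Or.inr ⟨a, rfl, ha⟩) (Sum.inr b) (Or.inr ⟨b, rfl, hb⟩)
    (Sum.inr c) (Or.inr ⟨c, rfl, hc⟩) with h | h | h
  · exact Or.inl (Sum.inr.inj h)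
  · exact Or.inr (Or.inr (Sum.inr.inj h))
  · exact Or.inr (Or.inl (Sum.inr.inj h))

theorem not_near_far {w u : S.X} {q : V} (h1 : S.J q ⊆ bey S.D.G u w)
    (h2 : S.J q ⊆ bey S.D.G w u) : False := by
  obtain ⟨p, hp⟩ := S.js.ne q
  exact bey_not (h1 hp) (h2 hp)

theorem near_not_u {w u : S.X} (hu : S.D.G.Adj w u) {q : V} (h1 : S.J q ⊆ bey S.D.G u w) :
    u ∉ S.J q := fun h => bey_not (h1 h) (bey_self hu)

/-- far stars of `w u` beyond `u` are near stars of `w' u` -/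
theorem Qs.flip {w u w' : S.X} (m : S.Mid w u w') {u1 : S.X} (hne : u1 ≠ u) {q a b : V}
    (hq : S.J q ⊆ bey S.D.G w u) (hqu : u ∉ S.J q) (h : S.Qs w u1 q a b) : S.Qs w' u q a b := by
  have ha : ∀ {a b : V}, S.Qs w u1 q a b → S.Cs w' u a := by
    intro a b h
    have h1 := far_pas hne m.hw.symm h hq
    have h2 : u ∈ S.J a := h1.1.2.1.2
    have h3 : S.dir u q ∈ S.J a := S.dir_cross h.E1 h2 hqu
    rcases m.val _ (S.dir_adj hqu) with h4 | h4
    · exfalso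
      have h5 := S.dir_bey hqu
      rw [h4] at h5
      exact not_near_far h5 hq
    · rw [h4] at h3
      exact ⟨h3, h2⟩
  have c1 := ha h
  have c2 := ha h.symm'
  obtain ⟨y, z, hp, hs⟩ := h
  have hqd : S.J q ⊆ bey S.D.G u w' := by
    rcases m.val _ (S.dir_adj hqu) with h4 | h4
    · exfalso
      have h5 := S.dir_bey hqu
      rw [h4] at h5
      exact not_near_far h5 hq
    · have h5 := S.dir_bey hqu
      rwa [h4] at h5
  have hsub : bey S.D.G w u1 ⊆ bey S.D.G w' u := by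
    intro p hp
    exact bey_nest m.hw' m.hw m.ne (bey_nest m.hw.symm hs.1 hne hp)
  exact ⟨y, z, hp, m.hw'.symm, c1, c2, hqd, fun p hp => hsub (hs.2.2.2.2.1 hp),
    fun p hp => hsub (hs.2.2.2.2.2 hp)⟩

theorem Gc.flip {w u w' : S.X} (m : S.Mid w u w') {u1 : S.X} (hne : u1 ≠ u) {q a b : V}
    (hq : S.J q ⊆ bey S.D.G w u) (hqu : u ∉ S.J q) (h : S.Gc w u1 q a b) : S.Gc w' u q a b := by
  induction h with
  | rel a b h => exact Relation.EqvGen.rel _ _ (h.flip m hne hq hqu)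
  | refl a => exact Relation.EqvGen.refl _
  | symm a b _ ih => exact Relation.EqvGen.symm _ _ ih
  | trans a b c _ _ ih1 ih2 => exact Relation.EqvGen.trans _ _ _ ih1 ih2

variable (S)

open Classical in
/-- the map on vertices -/
noncomputable def nm (w u w' : S.X) : TV V → TV V
  | TV.el x => TV.el x
  | TV.st q C => if S.J q = {u} then TV.st q ∅
      else if C = ∅ then TV.st q {z | ∃ a, S.K.ar q a ∧ S.Gc w u q a z}
      else if S.J q ⊆ bey S.D.G u w then TV.st q C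
      else TV.st q {z | ∃ x ∈ C, S.Gc w' u q x z}

variable {S}

theorem nm_el (w u w' : S.X) (x : V) : S.nm w u w' (TV.el x) = TV.el x := rfl

theorem nm_u {w u w' : S.X} {q : V} {C : Set V} (h : S.J q = {u}) :
    S.nm w u w' (TV.st q C) = TV.st q ∅ := if_pos h

theorem nm_dq {w u w' : S.X} {q : V} (h : S.J q ≠ {u}) :
    S.nm w u w' (TV.st q ∅) = TV.st q {z | ∃ a, S.K.ar q a ∧ S.Gc w u q a z} :=
  (if_neg h).trans (if_pos rfl)

theorem nm_near {w u w' : S.X} {q : V} {C : Set V} (h : S.J q ≠ {u}) (hC : C ≠ ∅)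
    (hq : S.J q ⊆ bey S.D.G u w) : S.nm w u w' (TV.st q C) = TV.st q C :=
  (if_neg h).trans ((if_neg hC).trans (if_pos hq))

theorem nm_far {w u w' : S.X} {q : V} {C : Set V} (h : S.J q ≠ {u}) (hC : C ≠ ∅)
    (hq : ¬ S.J q ⊆ bey S.D.G u w) :
    S.nm w u w' (TV.st q C) = TV.st q {z | ∃ x ∈ C, S.Gc w' u q x z} :=
  (if_neg h).trans ((if_neg hC).trans (if_neg hq))

theorem Star_ne (w u : S.X) (q x : V) : S.Star w u q x ≠ ∅ := by
  intro h
  have := self_Star (S := S) w u q x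
  rw [h] at this
  exact this

/-- the three kinds of lines and their images -/
theorem ThO.nm {w u w' : S.X} (m : S.Mid w u w') (hU : S.U1 u) {x : V} {s : TV V}
    (h : S.ThO w u (TV.el x) s) : ∃ q C, s = TV.st q C ∧
      S.TTO w u w' (TV.el x) (S.nm w u w' s) ∧ ∃ C', S.nm w u w' s = TV.st q C' := by
  obtain ⟨x, q, h0, h⟩ := h
  cases h0
  rcases h with ⟨h1, ⟨x', h2⟩, rfl⟩ | ⟨u1, h1, h2, ⟨x', h3⟩, h4, rfl⟩ | ⟨h1, h2, rfl⟩
  · refine ⟨q, _, rfl, ?_⟩
    have hn : S.J q ≠ {u} := by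
      intro e
      exact near_not_u m.hw.symm h2.near (by rw [e]; exact rfl)
    rw [nm_near hn (Star_ne _ _ _ _) h2.near]
    exact ⟨⟨x, q, rfl, Or.inl ⟨x', h2, rfl⟩⟩, _, rfl⟩
  · refine ⟨q, _, rfl, ?_⟩
    have hp := far_pas h1 h2 h3 h4
    have hux : u ∈ S.J x := hp.1.2.1.2
    by_cases hq : S.J q = {u}
    · rw [nm_u hq]
      exact ⟨⟨x, q, rfl, Or.inr (Or.inr ⟨hq, hux, h3.E1, rfl⟩)⟩, _, rfl⟩
    · have hqu : u ∉ S.J q := by
        intro hu
        rcases hU x q h3.E1 hux hu with e | e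
        · have hw : w ∈ S.J x := hp.1.2.1.1
          rw [e] at hw
          exact m.hw.ne hw.symm
        · exact hq e
      have hnn : ¬ S.J q ⊆ bey S.D.G u w := fun k => not_near_far k h4
      rw [nm_far hq (Star_ne _ _ _ _) hnn]
      have he : {z | ∃ y ∈ S.Star w u1 q x, S.Gc w' u q y z} = S.Star w' u q x := by
        ext z
        constructor
        · rintro ⟨y, hy, hz⟩
          exact Relation.EqvGen.trans _ _ _ (Gc.flip m h1 h4 hqu hy) hz
        · intro hz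
          exact ⟨x, self_Star _ _ _ _, hz⟩
      rw [he]
      exact ⟨⟨x, q, rfl, Or.inr (Or.inl ⟨x', h3.flip m h1 h4 hqu, rfl⟩)⟩, _, rfl⟩
  · refine ⟨q, _, rfl, ?_⟩
    have hw : w ∈ S.J q := h1.1.1
    have hn : S.J q ≠ {u} := by
      intro e
      rw [e] at hw
      exact m.hw.ne hw.symm
    rw [nm_dq hn]
    obtain ⟨-, a, b, hab, ha, hb, hc⟩ := h1.1
    have hx : x = a ∨ x = b := by
      rcases S.K.two q x a b h2 ha hb with e | e | e
      · exact Or.inl e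
      · exact absurd e hab
      · exact Or.inr e
    have he : {z | ∃ a, S.K.ar q a ∧ S.Gc w u q a z} = S.Star w u q x := by
      have key : ∀ c, S.K.ar q c → S.Gc w u q x c := by
        intro c hc'
        have hcc : c = a ∨ c = b := by
          rcases S.K.two q c a b hc' ha hb with e | e | e
          · exact Or.inl e
          · exact absurd e hab
          · exact Or.inr e
        rcases hx with rfl | rfl <;> rcases hcc with rfl | rfl
        · exact Relation.EqvGen.refl _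
        · exact hc
        · exact Relation.EqvGen.symm _ _ hc
        · exact Relation.EqvGen.refl _
      ext z
      constructor
      · rintro ⟨c, hc1, hc2⟩
        exact Relation.EqvGen.trans _ _ _ (key c hc1) hc2
      · intro hz
        exact ⟨x, h2, hz⟩
    rw [he]
    have h3 : ∃ x', S.Qs w u q x x' := by
      have h4 := eqv_jn hc hab
      rcases hx with rfl | rfl
      · exact h4.1
      · exact h4.2
    obtain ⟨x', h3⟩ := h3
    exact ⟨⟨x, q, rfl, Or.inl ⟨x', h3, rfl⟩⟩, _, rfl⟩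

/-- the line of `Theta` through an arrow is unique -/
theorem ThO_uniq2 {w u : S.X} {x q : V} {C C' : Set V} (h : S.ThO w u (TV.el x) (TV.st q C))
    (h' : S.ThO w u (TV.el x) (TV.st q C')) : C = C' := by
  obtain ⟨x1, q1, h0, h⟩ := h
  cases h0
  obtain ⟨x2, q2, h0', h'⟩ := h'
  cases h0'
  rcases h with ⟨h1, ⟨y, h2⟩, e⟩ | ⟨u1, h1, h2, ⟨y, h3⟩, h4, e⟩ | ⟨h1, h2, e⟩ <;>
    rcases h' with ⟨k1, ⟨y', k2⟩, e'⟩ | ⟨u2, k1, k2, ⟨y', k3⟩, k4, e'⟩ | ⟨k1, k2, e'⟩ <;>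
    cases e <;> cases e'
  · rfl
  · exact absurd k4 (fun k => not_near_far h2.near k)
  · exact absurd k1.1.1 h1
  · exact absurd h4 (fun k => not_near_far k2.near k)
  · have hp := far_pas h1 h2 h3 h4
    have hw : w ∈ S.J x := hp.1.2.1.1
    rcases dir_two hw ⟨h3.adj, h3.l.2⟩ ⟨h2, hp.1.2.1.2⟩ ⟨k3.adj, k3.l.2⟩ with e | e | e
    · exact absurd e h1
    · exact absurd e.symm k1
    · rw [e]
  · exact absurd k1.1.1 (S.not_mem_of_bey h2 h4)
  · exact absurd h1.1.1 k1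
  · exact absurd h1.1.1 (S.not_mem_of_bey k2 k4)
  · rfl

/-- equivariance -/
theorem nm_smul {w u w' : S.X} (m : S.Mid w u w') (g : ↥(Je w u : Subgroup H)) (t : TV V) :
    S.nm w u w' (g • t) = g • S.nm w u w' t := by
  have gw : g.1 • w = w := g.2.1
  have gu : g.1 • u = u := g.2.2
  have gw' : g.1 • w' = w' := m.fix' gu gw
  cases t with
  | el x => rfl
  | st q C =>
    have e1 : S.J (g.1 • q) = {u} ↔ S.J q = {u} := by
      constructor
      · intro h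
        have := J_sing (g := g.1⁻¹) h
        rwa [inv_smul_smul, inv_smul_eq_iff.2 gu.symm] at this
      · intro h
        have := J_sing (g := g.1) h
        rwa [gu] at this
    have e2 : (fun x => g.1 • x) '' C = ∅ ↔ C = ∅ := Set.image_eq_empty
    have e3 : S.J (g.1 • q) ⊆ bey S.D.G u w ↔ S.J q ⊆ bey S.D.G u w := by
      constructor
      · intro h
        have := S.sub_bey_smul g.1⁻¹ h
        rwa [inv_smul_smul, inv_smul_eq_iff.2 gu.symm, inv_smul_eq_iff.2 gw.symm] at this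
      · intro h
        have := S.sub_bey_smul g.1 h
        rwa [gu, gw] at this
    have hG : ∀ (v : S.X), g.1 • v = v → ∀ x z, S.Gc v u q x z ↔
        S.Gc v u (g.1 • q) (g.1 • x) (g.1 • z) := by
      intro v hv x z
      constructor
      · intro h
        have := eqv_smul g.1 h
        rwa [hv, gu] at this
      · intro h
        have := eqv_smul g.1⁻¹ h
        rwa [inv_smul_smul, inv_smul_smul, inv_smul_smul, inv_smul_eq_iff.2 gu.symm,
          inv_smul_eq_iff.2 hv.symm] at this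
    show S.nm w u w' (TV.st (g.1 • q) ((fun x => g.1 • x) '' C)) = g.1 • S.nm w u w' (TV.st q C)
    by_cases h1 : S.J q = {u}
    · rw [nm_u (e1.2 h1), nm_u h1, TV.smul_st, Set.image_empty]
    · by_cases h2 : C = ∅
      · subst h2
        rw [Set.image_empty, nm_dq (fun h => h1 (e1.1 h)), nm_dq h1, TV.smul_st]
        congr 1
        ext z
        constructor
        · rintro ⟨a, ha, hz⟩
          refine ⟨g.1⁻¹ • z, ⟨g.1⁻¹ • a, ?_, ?_⟩, smul_inv_smul g.1 z⟩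
          · have := S.K.ar_smul g.1⁻¹ _ _ ha
            rwa [inv_smul_smul] at this
          · rw [hG w gw, smul_inv_smul, smul_inv_smul]
            exact hz
        · rintro ⟨z, ⟨a, ha, hz⟩, rfl⟩
          exact ⟨g.1 • a, S.K.ar_smul g.1 _ _ ha, (hG w gw _ _).1 hz⟩
      · have h2' : (fun x => g.1 • x) '' C ≠ ∅ := fun h => h2 (e2.1 h)
        by_cases h3 : S.J q ⊆ bey S.D.G u w
        · rw [nm_near (fun h => h1 (e1.1 h)) h2' (e3.2 h3), nm_near h1 h2 h3, TV.smul_st]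
        · rw [nm_far (fun h => h1 (e1.1 h)) h2' (fun h => h3 (e3.1 h)), nm_far h1 h2 h3,
            TV.smul_st]
          congr 1
          ext z
          constructor
          · rintro ⟨_, ⟨x, hx, rfl⟩, hz⟩
            refine ⟨g.1⁻¹ • z, ⟨x, hx, ?_⟩, smul_inv_smul g.1 z⟩
            rw [hG w' gw', smul_inv_smul]
            exact hz
          · rintro ⟨z, ⟨x, hx, hz⟩, rfl⟩
            exact ⟨g.1 • x, ⟨x, hx, rfl⟩, (hG w' gw' _ _).1 hz⟩

theorem ThN.nm {w u w' : S.X} (m : S.Mid w u w') (hU : S.U1 u) {t : TV V} (h : S.ThN w u t) :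
    S.TTN w u w' (S.nm w u w' t) := by
  rcases h with ⟨x, rfl, h⟩ | ⟨t', h⟩
  · exact Or.inl ⟨x, rfl, h.2.1.2, Or.inl h.2.1.1⟩
  · obtain ⟨x, rfl, -⟩ := h.pas
    obtain ⟨q, C, -, h1, -⟩ := h.nm m hU
    exact Or.inr (Or.inl ⟨_, h1⟩)

/-- `b1 (Theta) ≤ b1 (TT)` -/
theorem b1_Th_le {w u w' : S.X} (m : S.Mid w u w') (hU : S.U1 u) :
    (S.JTh w u m.hw.symm).fg.b1 ≤ (S.JTT m (je_le_u w u) le_rfl).fg.b1 := by
  apply JM.ofO_b1_le (J := ↥(Je w u : Subgroup H))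
    (fun t : ↥(S.ThS w u) => (⟨S.nm w u w' t.1, t.2.nm m hU⟩ : ↥(S.TTS m (je_le_u w u))))
  · intro j t
    exact Subtype.ext (nm_smul m j t.1)
  · rintro ⟨t, ht⟩ ⟨s, hs⟩ h
    have h : S.ThO w u t s := h
    obtain ⟨x, rfl, -⟩ := h.pas
    obtain ⟨q, C, -, h1, -⟩ := h.nm m hU
    exact h1
  · rintro ⟨t, ht⟩ ⟨s, hs⟩ ⟨t', ht'⟩ ⟨s', hs'⟩ j h h' e1 e2
    have h : S.ThO w u t s := h
    have h' : S.ThO w u t' s' := h'
    have e1 : S.nm w u w' t' = j • S.nm w u w' t := congrArg Subtype.val e1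
    have e2 : S.nm w u w' s' = j • S.nm w u w' s := congrArg Subtype.val e2
    obtain ⟨x, rfl, -⟩ := h.pas
    obtain ⟨x', rfl, -⟩ := h'.pas
    have e1 : TV.el x' = j • TV.el x := e1
    have hj := h.smulJ j
    rw [← e1] at hj
    rw [← nm_smul m] at e2
    obtain ⟨q, C, h1, -, C1, h2⟩ := hj.nm m hU
    obtain ⟨q', C', h1', -, C1', h2'⟩ := h'.nm m hU
    rw [h2, h2'] at e2
    cases e2
    rw [h1] at hj
    rw [h1'] at h'
    have := ThO_uniq2 hj h'
    subst this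
    refine ⟨j, Subtype.ext e1, Subtype.ext ?_⟩
    show s' = j • s
    rw [h1', h1]

end Sys

end Pool.Agent.DI
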