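import Pool.Agent.DI.LightA
import Pool.Agent.DI.ELt2

/-!
# DI/OvP: structure over a vertex `u` of valence two over which there is no centre

`Pt.piece`: in a minimal complex with connected links every piece of the link of `v` (component of
the link minus the poles) has a corner at every pole.
`Mp S u w w'`: `u` has exactly the neighbours `w`, `w'`, no pentagon has its centre at `u`, sinks
over `u` cross both edges. Then (2887 2, note 2964 (1)): no edge of the complex joins a vertex which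
crosses only `u w` with a vertex which crosses only `u w'` (`Mp.no_LL`); a vertex which crosses
exactly one of the edges has a pole `v` with `J v = {u}` (`Mp.ex_pole`); every neighbour of such a
`v` crosses one of the edges (`Mp.nb`), the poles cross the edges of the pages (`Mp.page_pole`).
-/

namespace Pool.Agent.DI

open MulAction
open Pool.Agent.SAF (InC SA orbs FinOrb oc Decomp SAn Conv exists_next)
open Pool.Agent.BT (PX PQ JS bey exits Ell mst)
open Pool.Agent.BT.TA (bey_or bey_not bey_self conv_cr conv_sd)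

section Piece

variable {H V : Type} [Group H] [MulAction H V] {K : GX H V}

/-- consecutive in-arrows in the link of `v` -/
def GX.PR (K : GX H V) (v n m : V) : Prop := K.ar n v ∧ K.ar m v ∧ K.Cor n v m

/-- the pieces of `v` -/
def GX.PC (K : GX H V) (v : V) : V → V → Prop := Relation.EqvGen (K.PR v)

theorem GX.PC.ar {v n m : V} (h : K.PC v n m) : K.ar n v ↔ K.ar m v := by
  induction h with
  | rel a b h => exact ⟨fun _ => h.2.1, fun _ => h.1⟩
  | refl a => exact Iff.rfl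
  | symm a b _ ih => exact ih.symm
  | trans a b c _ _ ih1 ih2 => exact ih1.trans ih2

theorem GX.PC.smul (g : H) {v n m : V} (h : K.PC v n m) : K.PC (g • v) (g • n) (g • m) := by
  induction h with
  | rel a b h => exact Relation.EqvGen.rel _ _ ⟨K.ar_smul g _ _ h.1, K.ar_smul g _ _ h.2.1,
      h.2.2.smul g⟩
  | refl a => exact Relation.EqvGen.refl _
  | symm a b _ ih => exact ih.symm
  | trans a b c _ _ ih1 ih2 => exact ih1.trans _ _ _ ih2

/-- a piece has a corner at a pole -/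
theorem GX.touch (hl : ∀ v, K.LC v) {v n a : V} (hn : K.ar n v) (ha : K.ar v a) :
    ∃ m b, K.PC v n m ∧ K.ar m v ∧ K.ar v b ∧ K.Cor m v b := by
  by_contra hcon
  have hcl : ∀ x y : V, Relation.EqvGen (fun a b => K.Cor a v b) x y →
      ((K.ar x v ∧ K.PC v n x) ↔ (K.ar y v ∧ K.PC v n y)) := by
    have step : ∀ x y : V, K.Cor x v y → (K.ar x v ∧ K.PC v n x) → (K.ar y v ∧ K.PC v n y) := by
      rintro x y hc ⟨h1, h2⟩
      rcases hc.E2 with e | e
      · exact absurd ⟨x, y, h2, h1, e, hc⟩ hcon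
      · exact ⟨e, h2.trans _ _ _ (Relation.EqvGen.rel _ _ ⟨h1, e, hc⟩)⟩
    intro x y h
    induction h with
    | rel a b h => exact ⟨step a b h, step b a h.symm⟩
    | refl a => exact Iff.rfl
    | symm a b _ ih => exact ih.symm
    | trans a b c _ _ ih1 ih2 => exact ih1.trans ih2
  have h1 := (hcl n a (hl v n a (Or.inr hn) (Or.inl ha))).1 ⟨hn, Relation.EqvGen.refl _⟩
  have h2 := K.ar_rk _ _ h1.1
  have h3 := K.ar_rk _ _ ha
  omega

/-- EVERY PIECE HAS A CORNER AT EVERY POLE -/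
theorem Pt.piece (P : Pt K) (hm : K.Min) (hl : ∀ v, K.LC v) {v n a : V} (hn : K.ar n v)
    (ha : K.ar v a) : ∃ m, K.PC v n m ∧ K.ar m v ∧ K.Cor m v a := by
  obtain ⟨m, b, h1, h2, h3, h4⟩ := GX.touch hl hn ha
  by_cases hba : b = a
  · subst hba
    exact ⟨m, h1, h2, h4⟩
  have hcase : ∀ c, K.ar v c → c = a ∨ c = b := fun c hc => GX.Sft.cases ha h3 (Ne.symm hba) hc
  by_cases hsw : ∃ g : H, g • v = v ∧ K.PC v n (g • n) ∧ g • b ≠ b
  · obtain ⟨g, g1, g2, g3⟩ := hsw
    have e1 : g • b = a := by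
      have := K.ar_smul g _ _ h3
      rw [g1] at this
      exact (hcase _ this).resolve_right g3
    refine ⟨g • m, ?_, ?_, ?_⟩
    · have := h1.smul g
      rw [g1] at this
      exact g2.trans _ _ _ this
    · have := K.ar_smul g _ _ h2
      rwa [g1] at this
    · have := h4.smul g
      rwa [g1, e1] at this
  push Not at hsw
  let D : PcD P :=
    { v := v
      a := b
      b := a
      R := {x | K.ar x v ∧ ∃ g : H, g • v = v ∧ g • b = b ∧ K.PC v (g • n) x}
      va := h3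
      vb := ha
      ab := hba
      R_ar := fun x hx => hx.1
      stab := by
        rintro g hg x ⟨-, g1, k1, k2, k3⟩ ⟨-, g2, l1, l2, l3⟩
        have h5 := k3.smul g
        rw [hg] at h5
        -- `g g1 n ~ g x ~ g2 n`
        have h6 : K.PC v (g • g1 • n) (g2 • n) := h5.trans _ _ _ (Relation.EqvGen.symm _ _ l3)
        have h7 := h6.smul g2⁻¹
        rw [show g2⁻¹ • v = v from inv_smul_eq_iff.2 l1.symm, inv_smul_smul] at h7
        have h8 := hsw (g2⁻¹ * g * g1) (by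
          rw [mul_smul, mul_smul, k1, hg]
          exact inv_smul_eq_iff.2 l1.symm) (by
          rw [mul_smul, mul_smul]
          exact Relation.EqvGen.symm _ _ h7)
        rw [mul_smul, mul_smul, k2, inv_smul_eq_iff, l2] at h8
        exact h8
      inv := by
        rintro g hg hb x ⟨hx, g1, k1, k2, k3⟩
        refine ⟨?_, g * g1, ?_, ?_, ?_⟩
        · have := K.ar_smul g _ _ hx
          rwa [hg] at this
        · rw [mul_smul, k1, hg]
        · rw [mul_smul, k2, hb]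
        · have := k3.smul g
          rwa [hg, ← mul_smul] at this
      cl := by
        rintro c i hc e1 ⟨hx, g1, k1, k2, k3⟩
        have hcor : K.Cor (c 0) v (c 2) := by
          have := P.cor_iff.2 ⟨_, _, At_pn hc⟩
          rwa [e1] at this
        rcases hcor.E2 with e | e
        · exact Or.inr e
        · exact Or.inl ⟨e, g1, k1, k2, k3.trans _ _ _ (Relation.EqvGen.rel _ _ ⟨hx, e, hcor⟩)⟩ }
  have hpos : 0 < K.cr.cn D.ca := by
    rw [Cr.cn_pos]
    have hmR : m ∈ D.R := ⟨h2, 1, one_smul _ _, one_smul _ _, by rw [one_smul]; exact h1⟩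
    obtain ⟨p, g, ⟨q0, q1, q2⟩ | ⟨q0, q1, q2⟩⟩ := exists_pos P h4
    · refine ⟨p, g⁻¹, ?_, Or.inl ⟨?_, ?_⟩⟩
      · show _ = g⁻¹ • v
        rw [q1, inv_smul_smul]
      · show g⁻¹⁻¹ • _ ∈ D.R
        rw [inv_inv, ← q0]
        exact hmR
      · show _ = g⁻¹ • b
        rw [q2, inv_smul_smul]
    · refine ⟨p, g⁻¹, ?_, Or.inr ⟨?_, ?_⟩⟩
      · show _ = g⁻¹ • v
        rw [q1, inv_smul_smul]
      · show g⁻¹⁻¹ • _ ∈ D.R
        rw [inv_inv, ← q2]
        exact hmR
      · show _ = g⁻¹ • b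
        rw [q0, inv_smul_smul]
  rw [D.pq hm, Cr.cn_pos] at hpos
  obtain ⟨p, g, q1, hq⟩ := hpos
  have q1 : K.cr.v1 p = g • v := q1
  -- a corner of an element of `R` at `a`
  obtain ⟨x, hx, hxa⟩ : ∃ x ∈ D.R, K.Cor x v a := by
    have h3 := cor_smul P g⁻¹ (cor_pos P p)
    rcases hq with ⟨hx, hy⟩ | ⟨hx, hy⟩
    · have hy : K.cr.v2 p = g • a := hy
      rw [q1, hy, inv_smul_smul, inv_smul_smul] at h3
      exact ⟨_, hx, h3⟩
    · have hy : K.cr.v0 p = g • a := hy
      rw [q1, hy, inv_smul_smul, inv_smul_smul] at h3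
      exact ⟨_, hx, h3.symm⟩
  obtain ⟨hx, g1, k1, k2, k3⟩ := hx
  have k1' : g1⁻¹ • v = v := inv_smul_eq_iff.2 k1.symm
  have ka : g1⁻¹ • a = a := by
    have h5 := K.ar_smul g1⁻¹ _ _ ha
    rw [k1'] at h5
    rcases hcase _ h5 with e | e
    · exact e
    · exfalso
      rw [inv_smul_eq_iff, k2] at e
      exact hba e.symm
  refine ⟨g1⁻¹ • x, ?_, ?_, ?_⟩
  · have := k3.smul g1⁻¹
    rwa [k1', inv_smul_smul] at this
  · have := K.ar_smul g1⁻¹ _ _ hx
    rwa [k1'] at this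
  · have := hxa.smul g1⁻¹
    rwa [k1', ka] at this

end Piece

namespace Sys

variable {H V : Type} [Group H] [MulAction H V] {S : Sys H V}

variable (S) in
/-- a midpoint `u` over which there is no centre -/
structure Mp (w u w' : S.X) : Prop where
  hm : S.K.Min
  lc : ∀ v, S.K.LC v
  bad : ¬ SA H
  mid : S.Mid w u w'
  nc : ∀ {a q b y z : V}, Pn S.P a q b y z → ¬ S.Ce u a q b y z
  snk : ∀ z, (∀ a, ¬ S.K.ar z a) → u ∈ S.J z → w ∈ S.J z ∧ w' ∈ S.J z

/-- a centre of a pentagon -/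
theorem Pn.cen {a q b y z : V} (h : Pn S.P a q b y z) : ∃ c, S.Ce c a q b y z := by
  obtain ⟨c, hc⟩ := S.cen (v := ![a, q, b, y, z]) (Pn.EE h)
  exact ⟨c, ce_iff.2 hc⟩

/-- a vertex on the way from `u` -/
theorem bey_of_ne {u c : S.X} (h : u ≠ c) : ∃ t, S.D.G.Adj u t ∧ c ∈ bey S.D.G u t := by
  obtain ⟨t, h1, h2⟩ := exists_next S.D.tree h
  refine ⟨t, h1, ?_⟩
  show S.D.G.dist c u = S.D.G.dist c t + 1
  rw [SimpleGraph.dist_comm, h2, SimpleGraph.dist_comm]

/-- a convex set with more than the vertex `u` contains a neighbour of `u` -/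
theorem ex_nbr {u p : S.X} {x : V} (hu : u ∈ S.J x) (hp : p ∈ S.J x) (hne : u ≠ p) :
    ∃ t, S.D.G.Adj u t ∧ t ∈ S.J x ∧ p ∈ bey S.D.G u t := by
  obtain ⟨t, h1, h2⟩ := bey_of_ne hne
  exact ⟨t, h1, (conv_cr S.D.tree (S.js.conv x) h1 hu hp (bey_self h1.symm) h2).2, h2⟩

namespace Mp

variable {w u w' : S.X} (m : S.Mp w u w')

include m

theorem symm : S.Mp w' u w := ⟨m.hm, m.lc, m.bad, m.mid.symm, m.nc, fun z h1 h2 => (m.snk z h1 h2).symm⟩

/-- the centre is beyond `w` or `w'` -/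
theorem cen_bey {a q b y z : V} {c : S.X} (hp : Pn S.P a q b y z) (hc : S.Ce c a q b y z) :
    c ∈ bey S.D.G u w ∨ c ∈ bey S.D.G u w' := by
  have hne : u ≠ c := by
    rintro rfl
    exact m.nc hp hc
  obtain ⟨t, h1, h2⟩ := bey_of_ne hne
  rcases m.mid.val t h1 with rfl | rfl
  · exact Or.inl h2
  · exact Or.inr h2

omit m in
/-- the centre is beyond `t` and `x` does not cross `u t`: the neighbours of `x` do -/
theorem nbr_cs {a x b y z : V} {t c : S.X} (hp : Pn S.P a x b y z) (hc : S.Ce c a x b y z)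
    (hx : u ∈ S.J x) (ht : S.D.G.Adj u t) (hcb : c ∈ bey S.D.G u t) (hn : t ∉ S.J x) :
    (u ∈ S.J a ∧ t ∈ S.J a) ∧ (u ∈ S.J b ∧ t ∈ S.J b) := by
  have hs : S.J x ⊆ bey S.D.G t u :=
    conv_sd S.D.tree (S.js.conv x) ht.symm (fun e => hn e.1) hx (bey_self ht.symm)
  have hcx : c ∉ S.J x := fun h => bey_not hcb (hs h)
  constructor
  · obtain ⟨p, p0, p1⟩ := S.one_ex hp.E1
    have h1 : c ∈ S.J a := hc.1.resolve_right hcx
    exact conv_cr S.D.tree (S.js.conv a) ht p0 h1 (hs p1) hcb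
  · obtain ⟨p, p0, p1⟩ := S.one_ex hp.E2
    have h1 : c ∈ S.J b := hc.2.1.resolve_left hcx
    exact conv_cr S.D.tree (S.js.conv b) ht p1 h1 (hs p0) hcb

omit m in
/-- three exits: one pole and two edges -/
theorem exl {x a : V} {t t' : S.X} (ha : S.K.ar x a) (hx : u ∈ S.J x) (hu : u ∈ S.J a)
    (h1 : S.D.G.Adj u t) (h2 : S.D.G.Adj u t') (hne : t ≠ t') (k1 : t ∈ S.J x) (k2 : t' ∈ S.J x) :
    False := by
  rcases S.js.two x u hx (Sum.inl a) (Or.inl ⟨a, rfl, ha, hu⟩) (Sum.inr t)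
    (Or.inr ⟨t, rfl, h1, k1⟩) (Sum.inr t') (Or.inr ⟨t', rfl, h2, k2⟩) with e | e | e
  · cases e
  · cases e
  · exact hne (Sum.inr.inj e)

omit m in
/-- three exits: two poles and an edge -/
theorem exll {x a b : V} {t : S.X} (ha : S.K.ar x a) (hb : S.K.ar x b) (hne : a ≠ b)
    (hx : u ∈ S.J x) (hua : u ∈ S.J a) (hub : u ∈ S.J b)
    (h1 : S.D.G.Adj u t) (k1 : t ∈ S.J x) : False := by
  rcases S.js.two x u hx (Sum.inl a) (Or.inl ⟨a, rfl, ha, hua⟩) (Sum.inl b)
    (Or.inl ⟨b, rfl, hb, hub⟩) (Sum.inr t) (Or.inr ⟨t, rfl, h1, k1⟩) with e | e | e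
  · exact hne (Sum.inl.inj e)
  · cases e
  · cases e

/-- the main step: no arrow with source in `L'` and target in `L`, if there is none with a target of
bigger rank -/
theorem step1 {x y : V} (hyx : S.K.ar y x) (hux : u ∈ S.J x) (hwx : w ∈ S.J x) (huy : u ∈ S.J y)
    (hwy : w' ∈ S.J y)
    (ih : ∀ x1 y1, S.K.ar y1 x1 → S.K.rk x < S.K.rk x1 → u ∈ S.J x1 → u ∈ S.J y1 →
      ¬ (w' ∈ S.J x1 ∧ w ∈ S.J y1)) : False := by
  have hw'x : w' ∉ S.J x := fun h => m.mid.hw'.ne (S.one_eq (Or.inl hyx) huy hux hwy h)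
  -- all elements of the piece
  have key : ∀ n, u ∈ S.J n → w' ∈ S.J n → S.K.ar n x → ∀ k, S.K.Cor n x k →
      u ∈ S.J k ∧ w' ∈ S.J k := by
    intro n h1 h2 h3 k hc
    obtain ⟨z, z', hp⟩ := S.P.cor_iff.1 hc
    obtain ⟨c, hce⟩ := Pn.cen hp
    rcases m.cen_bey hp hce with hb | hb
    · exfalso
      have hwn : w ∉ S.J n := fun h => m.mid.hw.ne (S.one_eq (Or.inl h3) h1 hux h hwx)
      -- `z'` crosses `u w`
      have hp' : Pn S.P z' n x k z := by
        have := hp.rot.rot.rot.rot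
        exact this
      have hce' : S.Ce c z' n x k z := hce.rot.rot.rot.rot
      obtain ⟨⟨k1, k2⟩, -⟩ := nbr_cs hp' hce' h1 m.mid.hw hb hwn
      rcases hp'.E1 with e | e
      · exact ih n z' e (S.K.ar_rk _ _ h3) h1 k1 ⟨h2, k2⟩
      · obtain ⟨d, i, hd, h0, -, hd2, -⟩ := Pn_at hp'
        have hne : z' ≠ x := by
          have := hd.ne2 m.hm 0
          have g : (0 : Fin 5) + 2 = 2 := rfl
          rwa [g, h0, hd2] at this
        exact exll e h3 hne h1 k1 hux m.mid.hw' h2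
    · exact (nbr_cs hp hce hux m.mid.hw' hb hw'x).2
  have hpc : ∀ n, S.K.PC x y n → (u ∈ S.J n ∧ w' ∈ S.J n) ∧ S.K.ar n x := by
    have h0 : ∀ a b, S.K.PC x a b → (((u ∈ S.J a ∧ w' ∈ S.J a) ∧ S.K.ar a x) ↔
        ((u ∈ S.J b ∧ w' ∈ S.J b) ∧ S.K.ar b x)) := by
      intro a b h
      induction h with
      | rel a b h => exact ⟨fun k => ⟨key a k.1.1 k.1.2 k.2 b h.2.2, h.2.1⟩,
          fun k => ⟨key b k.1.1 k.1.2 k.2 a h.2.2.symm, h.1⟩⟩
      | refl a => exact Iff.rfl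
      | symm a b _ ih => exact ih.symm
      | trans a b c _ _ ih1 ih2 => exact ih1.trans ih2
    intro n hn
    exact (h0 y n hn).1 ⟨⟨huy, hwy⟩, hyx⟩
  -- the poles
  have hpole : ∀ a, S.K.ar x a → u ∈ S.J a := by
    intro a ha
    obtain ⟨n, h1, h2, h3⟩ := S.P.piece m.hm m.lc hyx ha
    exact (key n (hpc n h1).1.1 (hpc n h1).1.2 h2 a h3).1
  have hex : ∃ a, S.K.ar x a := by
    by_contra hcon
    push Not at hcon
    exact hw'x (m.snk x hcon hux).2
  obtain ⟨a, ha, hJa⟩ := S.js.cross x hex u w m.mid.hw hux hwx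
  have := hJa (hpole a ha)
  exact Pool.Agent.BT.bey_irr_l this

/-- NO EDGE JOINS `L` AND `L'` -/
theorem no_LL {x y : V} (e : S.K.E x y) (hux : u ∈ S.J x) (hwx : w ∈ S.J x) (huy : u ∈ S.J y)
    (hwy : w' ∈ S.J y) : False := by
  obtain ⟨N, hN⟩ := S.K.rk_bdd
  have key : ∀ n : ℕ, ∀ x y, S.K.ar y x → N - S.K.rk x ≤ n → u ∈ S.J x → u ∈ S.J y →
      ¬ ((w ∈ S.J x ∧ w' ∈ S.J y) ∨ (w' ∈ S.J x ∧ w ∈ S.J y)) := by
    intro n
    induction n with
    | zero =>
      intro x y h1 h2 _ _ _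
      have := S.K.ar_rk _ _ h1
      have := hN y
      omega
    | succ n ih =>
      intro x y h1 h2 h3 h4 h5
      have ih' : ∀ x1 y1, S.K.ar y1 x1 → S.K.rk x < S.K.rk x1 → u ∈ S.J x1 → u ∈ S.J y1 →
          ¬ ((w ∈ S.J x1 ∧ w' ∈ S.J y1) ∨ (w' ∈ S.J x1 ∧ w ∈ S.J y1)) := by
        intro x1 y1 k1 k2 k3 k4
        apply ih x1 y1 k1 _ k3 k4
        have := hN x1
        omega
      rcases h5 with ⟨h5, h6⟩ | ⟨h5, h6⟩
      · exact m.step1 h1 h3 h5 h4 h6 (fun x1 y1 k1 k2 k3 k4 k5 => ih' x1 y1 k1 k2 k3 k4 (Or.inr k5))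
      · exact m.symm.step1 h1 h3 h5 h4 h6
          (fun x1 y1 k1 k2 k3 k4 k5 => ih' x1 y1 k1 k2 k3 k4 (Or.inl k5))
  rcases e with e | e
  · exact key _ y x e le_rfl huy hux (Or.inr ⟨hwy, hwx⟩)
  · exact key _ x y e le_rfl hux huy (Or.inl ⟨hwx, hwy⟩)

theorem u1 : S.U1 u := by
  intro x y e hx hy
  by_contra hcon
  push Not at hcon
  obtain ⟨h1, h2⟩ := hcon
  have ex : ∀ z, u ∈ S.J z → S.J z ≠ {u} → w ∈ S.J z ∨ w' ∈ S.J z := by
    intro z hz hne
    by_contra hc
    push Not at hc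
    apply hne
    ext p
    constructor
    · intro hp
      by_contra hpu
      obtain ⟨t, k1, k2, -⟩ := ex_nbr hz hp (fun e => hpu e.symm)
      rcases m.mid.val t k1 with rfl | rfl
      · exact hc.1 k2
      · exact hc.2 k2
    · rintro rfl
      exact hz
  rcases ex x hx h1 with k | k <;> rcases ex y hy h2 with k' | k'
  · exact m.mid.hw.ne (S.one_eq e hx hy k k')
  · exact m.no_LL e hx k hy k'
  · exact m.no_LL e.symm hy k' hx k
  · exact m.mid.hw'.ne (S.one_eq e hx hy k k')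

/-- a vertex which crosses exactly one of the two edges has a pole over `u` -/
theorem ex_pole {x : V} (hux : u ∈ S.J x) (hwx : w ∈ S.J x) (hn : w' ∉ S.J x) :
    ∃ v, S.K.ar x v ∧ S.J v = {u} := by
  have hex : ∃ a, S.K.ar x a := by
    by_contra hcon
    push Not at hcon
    exact hn (m.snk x hcon hux).2
  obtain ⟨a, ha, hJa⟩ := S.js.cross x hex w u m.mid.hw.symm hwx hux
  obtain ⟨p, p0, p1⟩ := S.one_ex (Or.inl ha)
  have hpu : p = u := by
    by_contra hne
    obtain ⟨t, k1, k2, k3⟩ := ex_nbr hux p0 (fun e => hne e.symm)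
    rcases m.mid.val t k1 with rfl | rfl
    · exact bey_not k3 (hJa p1)
    · exact hn k2
  subst hpu
  refine ⟨a, ha, ?_⟩
  rcases m.u1 x a (Or.inl ha) hux p1 with h | h
  · exfalso
    rw [h] at hwx
    exact m.mid.hw.ne hwx.symm
  · exact h

/-- every neighbour of a vertex over `u` crosses one of the edges -/
theorem nb {v y : V} (hv : S.J v = {u}) (e : S.K.E v y) : u ∈ S.J y ∧ (w ∈ S.J y ∨ w' ∈ S.J y) := by
  obtain ⟨b, hb⟩ := GX.EC_iff.1 (S.K.EC_of_E m.lc m.bad e.symm)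
  obtain ⟨z, z', hp⟩ := S.P.cor_iff.1 hb
  obtain ⟨c, hce⟩ := Pn.cen hp
  have hu : u ∈ S.J v := by rw [hv]; rfl
  rcases m.cen_bey hp hce with h | h
  · have hn : w ∉ S.J v := by
      rw [hv]
      exact m.mid.hw.ne'
    have := (nbr_cs hp hce hu m.mid.hw h hn).1
    exact ⟨this.1, Or.inl this.2⟩
  · have hn : w' ∉ S.J v := by
      rw [hv]
      exact m.mid.hw'.ne'
    have := (nbr_cs hp hce hu m.mid.hw' h hn).1
    exact ⟨this.1, Or.inr this.2⟩

/-- the two neighbours of a vertex over `u` in a pentagon cross the same edge -/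
theorem cor_cs {v n k : V} (hv : S.J v = {u}) (hc : S.K.Cor n v k) :
    (w ∈ S.J n ∧ w ∈ S.J k) ∨ (w' ∈ S.J n ∧ w' ∈ S.J k) := by
  obtain ⟨z, z', hp⟩ := S.P.cor_iff.1 hc
  obtain ⟨c, hce⟩ := Pn.cen hp
  have hu : u ∈ S.J v := by rw [hv]; rfl
  rcases m.cen_bey hp hce with h | h
  · have hn : w ∉ S.J v := by
      rw [hv]
      exact m.mid.hw.ne'
    have := nbr_cs hp hce hu m.mid.hw h hn
    exact Or.inl ⟨this.1.2, this.2.2⟩
  · have hn : w' ∉ S.J v := by
      rw [hv]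
      exact m.mid.hw'.ne'
    have := nbr_cs hp hce hu m.mid.hw' h hn
    exact Or.inr ⟨this.1.2, this.2.2⟩

/-- a page crosses only one of the edges -/
theorem page_one {v n : V} (hv : S.J v = {u}) (hn : S.K.ar n v) (h1 : w ∈ S.J n)
    (h2 : w' ∈ S.J n) : False := by
  have hu : u ∈ S.J v := by rw [hv]; rfl
  exact exl hn (m.nb hv (Or.inr hn)).1 hu m.mid.hw m.mid.hw' m.mid.ne h1 h2

/-- the pieces are on one side -/
theorem pc_side {v n n' : V} (hv : S.J v = {u}) (h : S.K.PC v n n') :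
    (S.K.ar n v ∧ w ∈ S.J n) ↔ (S.K.ar n' v ∧ w ∈ S.J n') := by
  induction h with
  | rel a b h =>
    obtain ⟨ha, hb, hc⟩ := h
    rcases m.cor_cs hv hc with ⟨k1, k2⟩ | ⟨k1, k2⟩
    · exact ⟨fun _ => ⟨hb, k2⟩, fun _ => ⟨ha, k1⟩⟩
    · exact ⟨fun k => absurd k1 (fun k1 => m.page_one hv ha k.2 k1),
        fun k => absurd k2 (fun k2 => m.page_one hv hb k.2 k2)⟩
  | refl a => exact Iff.rfl
  | symm a b _ ih => exact ih.symm
  | trans a b c _ _ ih1 ih2 => exact ih1.trans ih2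

/-- the poles cross the edge of a page -/
theorem page_pole {v n a : V} (hv : S.J v = {u}) (hn : S.K.ar n v) (h : w ∈ S.J n)
    (ha : S.K.ar v a) : w ∈ S.J a := by
  obtain ⟨k, h1, h2, h3⟩ := S.P.piece m.hm m.lc hn ha
  have h4 := (m.pc_side hv h1).1 ⟨hn, h⟩
  rcases m.cor_cs hv h3 with ⟨k1, k2⟩ | ⟨k1, k2⟩
  · exact k2
  · exact absurd k1 (fun k1 => m.page_one hv h2 h4.2 k1)

/-- a vertex over `u` has a pole -/
theorem ov_pole {v : V} (hv : S.J v = {u}) : ∃ a, S.K.ar v a := by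
  by_contra hcon
  push Not at hcon
  have := (m.snk v hcon (by rw [hv]; rfl)).1
  rw [hv] at this
  exact m.mid.hw.ne this.symm

/-- there is an edge which is crossed by all poles -/
theorem exists_side {v : V} (hv : S.J v = {u}) : (∀ a, S.K.ar v a → w ∈ S.J a) ∨
    (∀ a, S.K.ar v a → w' ∈ S.J a) := by
  obtain ⟨a, ha⟩ := m.ov_pole hv
  obtain ⟨b, hb⟩ := GX.EC_iff.1 (S.K.EC_of_E m.lc m.bad (Or.inr ha : S.K.E a v))
  have hcase : ∀ {w w' : S.X} (m : S.Mp w u w'), w ∈ S.J a → w ∈ S.J b → ∀ c, S.K.ar v c →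
      w ∈ S.J c := by
    intro w w' m h1 h2 c hc
    rcases hb.E2 with e | e
    · -- two poles
      have hne : a ≠ b := by
        obtain ⟨z, z', hp⟩ := S.P.cor_iff.1 hb
        obtain ⟨d, i, hd, h0, -, hd2, -⟩ := Pn_at hp
        have := hd.ne2 m.hm 0
        have g : (0 : Fin 5) + 2 = 2 := rfl
        rwa [g, h0, hd2] at this
      rcases GX.Sft.cases ha e hne hc with rfl | rfl
      · exact h1
      · exact h2
    · exact m.page_pole hv e h2 hc
  rcases m.cor_cs hv hb with ⟨k1, k2⟩ | ⟨k1, k2⟩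
  · exact Or.inl (hcase m k1 k2)
  · exact Or.inr (hcase m.symm k1 k2)

/-- the poles of a reversed vertex over `u` cross both edges -/
theorem rev_pole {v a : V} {g : H} (hv : S.J v = {u}) (hg : g • v = v) (hw : g • w = w')
    (ha : S.K.ar v a) : w ∈ S.J a ∧ w' ∈ S.J a := by
  have hu : g • u = u := by
    have h1 : g • u ∈ S.J (g • v) := S.js.smul g v u (by rw [hv]; rfl)
    rw [hg, hv] at h1
    exact h1
  have hw' : g • w' = w := by
    rcases m.mid.cases hu with h | h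
    · exact absurd (h.1.symm.trans hw) m.mid.ne
    · exact h.2
  have hi : g⁻¹ • v = v := inv_smul_eq_iff.2 hg.symm
  have h2 : S.K.ar v (g⁻¹ • a) := by
    have := S.K.ar_smul g⁻¹ _ _ ha
    rwa [hi] at this
  rcases m.exists_side hv with h | h
  · refine ⟨h a ha, ?_⟩
    have := S.js.smul g _ _ (h _ h2)
    rwa [smul_inv_smul, hw] at this
  · refine ⟨?_, h a ha⟩
    have := S.js.smul g _ _ (h _ h2)
    rwa [smul_inv_smul, hw'] at this

/-- a wall step over `w u`: a vertex over `u` is cut off, or both ends cross `u w'` -/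
theorem step {x z : V} (h : S.PW w u x z) : (∃ q, S.J q = {u} ∧ S.K.E x q ∧ S.K.E q z) ∨
    (w' ∈ S.J x ∧ w' ∈ S.J z) := by
  obtain ⟨-, hx, hz, q, y, y', hp, ⟨h1, h2, h3⟩ | ⟨h1, h2, h3⟩⟩ := h
  · -- `q` on the side of `u`
    have hwq : w ∉ S.J q := fun h => Pool.Agent.BT.bey_irr_l (h1 h)
    by_cases hu : u ∈ S.J q
    · rcases m.u1 x q hp.E1 hx.2 hu with h | h
      · exfalso
        have := hx.1
        rw [h] at this
        exact m.mid.hw.ne this.symm
      · exact Or.inl ⟨q, h, hp.E1, hp.E2⟩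
    · right
      have hq : S.J q ⊆ bey S.D.G u w' := by
        obtain ⟨p, hpq⟩ := S.js.ne q
        have hne : u ≠ p := by
          rintro rfl
          exact hu hpq
        obtain ⟨t, k1, k2⟩ := bey_of_ne hne
        rcases m.mid.val t k1 with rfl | rfl
        · exact absurd (h1 hpq) (fun k => bey_not k k2)
        · exact conv_sd S.D.tree (S.js.conv q) k1 (fun e => hu e.1) hpq k2
      constructor
      · obtain ⟨p, p0, p1⟩ := S.one_ex hp.E1
        exact (conv_cr S.D.tree (S.js.conv x) m.mid.hw' hx.2 p0 (bey_self m.mid.hw'.symm) (hq p1)).2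
      · obtain ⟨p, p0, p1⟩ := S.one_ex hp.E2
        exact (conv_cr S.D.tree (S.js.conv z) m.mid.hw' hz.2 p1 (bey_self m.mid.hw'.symm) (hq p0)).2
  · right
    obtain ⟨c, hce⟩ := Pn.cen hp
    have hcb : c ∈ bey S.D.G w u := by
      rcases hce.2.2.2.1 with k | k
      · exact h2 k
      · exact h3 k
    have hcb' : c ∈ bey S.D.G u w' := by
      rcases m.cen_bey hp hce with k | k
      · exact absurd hcb (fun k' => bey_not k' k)
      · exact k
    have hcq : c ∉ S.J q := fun k => bey_not (h1 k) hcb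
    constructor
    · exact (conv_cr S.D.tree (S.js.conv x) m.mid.hw' hx.2 (hce.1.resolve_right hcq)
        (bey_self m.mid.hw'.symm) hcb').2
    · exact (conv_cr S.D.tree (S.js.conv z) m.mid.hw' hz.2 (hce.2.1.resolve_left hcq)
        (bey_self m.mid.hw'.symm) hcb').2

end Mp

end Sys

end Pool.Agent.DI
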