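import Pool.Agent.DI.OpnX
import Pool.Agent.DI.OpnP
import Pool.Agent.DI.OvP

/-!
# DI/OpnPc: pieces and poles in an opened complex

`OpW.pc_up`: if every piece of `K` has a corner at every pole, then this is true in the opened complex.
`OpW.nbt_up`: no backtracking.
-/

namespace Pool.Agent.DI

open MulAction

variable {H V W : Type} [Group H] [MulAction H V] [MulAction H W] {K : GX H V}

theorem GX.PC_iff {v n m : V} : K.PC v n m ↔ K.IJ v n m := by
  constructor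
  · intro h
    induction h with
    | rel a b h => exact Relation.EqvGen.rel _ _ ⟨h.2.2, h.1, h.2.1⟩
    | refl a => exact Relation.EqvGen.refl _
    | symm a b _ ih => exact ih.symm
    | trans a b c _ _ ih1 ih2 => exact ih1.trans _ _ _ ih2
  · intro h
    induction h with
    | rel a b h => exact Relation.EqvGen.rel _ _ ⟨h.2.1, h.2.2, h.1⟩
    | refl a => exact Relation.EqvGen.refl _
    | symm a b _ ih => exact ih.symm
    | trans a b c _ _ ih1 ih2 => exact ih1.trans _ _ _ ih2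

namespace OpW

variable (O : OpW K W)

/-- EVERY PIECE HAS A CORNER AT EVERY POLE, in the opened complex -/
theorem pc_up (ht : O.Tw)
    (pc : ∀ {v n a : V}, K.ar n v → K.ar v a → ∃ k, K.PC v n k ∧ K.ar k v ∧ K.Cor k v a)
    {v n a : W} (hn : O.gx.ar n v) (ha : O.gx.ar v a) :
    ∃ k, O.gx.PC v n k ∧ O.gx.ar k v ∧ O.gx.Cor k v a := by
  obtain ⟨k, h1, h2, h3⟩ := pc (O.ar_π hn) (O.ar_π ha)
  have hI := O.IJ_lift ht (GX.PC_iff.1 h1)
  obtain ⟨k1, v1, a1, e1, e2, e3, hc⟩ := O.Cor_lift h3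
  have hk : O.gx.ar k1 v1 := O.ar_of_E hc.E1.symm (by rw [e1, e2]; exact h2)
  have ev : v1 = v := by
    have l1 := O.ar_e' hk
    rw [e1, e2] at l1
    rw [← l1, ← hI.1 (O.ar_π hn), O.ar_e' hn]
  subst ev
  have hva : O.gx.ar v1 a1 := O.ar_of_E hc.E2 (by rw [e3]; exact O.ar_π ha)
  have ea : a1 = a := by
    rw [← O.ar_e' hva, e3, O.ar_e' ha]
  subst ea
  exact ⟨k1, GX.PC_iff.2 (hI.2 v1 n k1 rfl rfl e1 hn hk), hk, hc⟩

/-- no backtracking -/
theorem nbt_up (hnb : ∀ e : K.LE, K.c0 e ≠ K.c2 e) (hj : ∀ j, O.js j ≠ O.jt j) {n v k : W}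
    (h : O.gx.Cor n v k) : n ≠ k := by
  obtain ⟨e, ⟨h0, h1, h2⟩ | ⟨h0, h1, h2⟩⟩ := O.gx.cor_LE.1 h
  · rw [← h0, ← h2]
    exact O.nb hnb hj e
  · rw [← h0, ← h2]
    exact (O.nb hnb hj e).symm

end OpW

theorem GX.nbt_of (hnb : ∀ e : K.LE, K.c0 e ≠ K.c2 e) {n v k : V} (h : K.Cor n v k) : n ≠ k := by
  obtain ⟨e, ⟨h0, h1, h2⟩ | ⟨h0, h1, h2⟩⟩ := K.cor_LE.1 h
  · rw [← h0, ← h2]
    exact hnb e
  · rw [← h0, ← h2]
    exact (hnb e).symm

end Pool.Agent.DI
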