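import Pool.Agent.DI.OpnN

/-!
# DI/OpnL: the general opening step

`O : OpL K`: a soft `v` with poles `a`, `b`, a subgroup `D` of its stabiliser and a `D`-invariant set `L`
of in-arrows, closed under the corners of the cells between in-arrows, with `g • n ∈ L → g ∈ D` for
`n ∈ L`, `g` in the stabiliser of `v`. The new vertices are the cosets of `D`; the in-arrows in `g • L`
go to the coset of `g`, THE OTHERS STAY AT `v`. `O.opl ch : OpW K (V ⊕ H ⧸ D)` (`ch`: lifts at the direct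
corners), squares `a, D, b, v`. With `L ∪ r L` = all in-arrows this is `OpD.opp`; with `D` = the stabiliser
of `v` it cuts the part `L` off.
-/

namespace Pool.Agent.DI

open MulAction
open Pool.Agent.SAF (InC orbs FinOrb oc)

section Cor

variable {H V : Type} [Group H] [MulAction H V] (K : GX H V)

theorem GX.vx_add_mod (i : K.I) (j k : ℕ) : K.vx i (j % K.len i + k) = K.vx i (j + k) := by
  rw [← K.vx_mod i (j % K.len i + k), ← K.vx_mod i (j + k), Nat.mod_add_mod]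

/-- a corner of a cell -/
theorem GX.cor_vx (i : K.I) (j : ℕ) (h : H) (hl : 0 < K.len i) :
    K.Cor (h • K.vx i j) (h • K.vx i (j + 1)) (h • K.vx i (j + 2)) := by
  have k := K.cor_c (⟨⟨i, ⟨j % K.len i, Nat.mod_lt _ hl⟩⟩, h⟩ : K.LE)
  have e0 : K.c0 (⟨⟨i, ⟨j % K.len i, Nat.mod_lt _ hl⟩⟩, h⟩ : K.LE) = h • K.vx i j := by
    show h • K.vx i (j % K.len i) = _
    rw [K.vx_mod]
  have e1 : K.c1 (⟨⟨i, ⟨j % K.len i, Nat.mod_lt _ hl⟩⟩, h⟩ : K.LE) = h • K.vx i (j + 1) := by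
    show h • K.vx i (j % K.len i + 1) = _
    rw [K.vx_add_mod]
  have e2 : K.c2 (⟨⟨i, ⟨j % K.len i, Nat.mod_lt _ hl⟩⟩, h⟩ : K.LE) = h • K.vx i (j + 2) := by
    show h • K.vx i (j % K.len i + 2) = _
    rw [K.vx_add_mod]
  rwa [e0, e1, e2] at k

end Cor

/-- data of a general opening step -/
structure OpL {H V : Type} [Group H] [MulAction H V] (K : GX H V) where
  v : V
  a : V
  b : V
  va : K.ar v a
  vb : K.ar v b
  ab : a ≠ b
  D : Subgroup H
  Dv : ∀ g ∈ D, g • v = v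
  L : Set V
  Linv : ∀ g ∈ D, ∀ n ∈ L, g • n ∈ L
  Lst : ∀ g : H, g • v = v → ∀ n ∈ L, g • n ∈ L → g ∈ D
  cor : ∀ n n' : V, K.Cor n v n' → K.ar n v → K.ar n' v → n ∈ L → n' ∈ L

namespace OpL

variable {H V : Type} [Group H] [MulAction H V] {K : GX H V} (O : OpL K)

/-- the vertices of the opened complex -/
abbrev W : Type := V ⊕ (H ⧸ O.D)

/-- the vertex below a coset -/
def q (s : H ⧸ O.D) : V := Quotient.liftOn' s (fun g => g • O.v) (by
  intro g g' h
  have h' : g⁻¹ * g' ∈ O.D := QuotientGroup.leftRel_apply.1 h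
  have := O.Dv _ h'
  rw [mul_smul, inv_smul_eq_iff] at this
  exact this.symm)

@[simp] theorem q_mk (g : H) : O.q (g : H ⧸ O.D) = g • O.v := rfl

theorem q_smul (h : H) (s : H ⧸ O.D) : O.q (h • s) = h • O.q s := by
  induction s using QuotientGroup.induction_on with
  | _ g =>
    rw [q_mk, ← mul_smul]
    rfl

/-- equality of cosets -/
theorem mk_eq {g g' : H} : ((g : H ⧸ O.D) = (g' : H ⧸ O.D)) ↔ g⁻¹ * g' ∈ O.D := QuotientGroup.eq

/-- the projection -/
def π : O.W → V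
  | Sum.inl x => x
  | Sum.inr s => O.q s

theorem π_smul (h : H) (x : O.W) : O.π (h • x) = h • O.π x := by
  rcases x with x | s
  · rfl
  · exact O.q_smul h s

/-- `n` is an in-arrow of `y` which is moved to the coset of `g` -/
def Lb (n y : V) (g : H) : Prop := y = g • O.v ∧ g⁻¹ • n ∈ O.L

theorem Lb_uniq {n y : V} {g g' : H} (h : O.Lb n y g) (h' : O.Lb n y g') :
    (g : H ⧸ O.D) = (g' : H ⧸ O.D) := by
  obtain ⟨h1, h2⟩ := h
  obtain ⟨k1, k2⟩ := h'
  refine (O.mk_eq.2 (O.Lst _ ?_ _ h2 ?_)).symm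
  · rw [mul_smul, ← h1, k1, inv_smul_smul]
  · rw [mul_smul, smul_inv_smul]
    exact k2

theorem Lb_smul (h : H) {n y : V} {g : H} (k : O.Lb n y g) : O.Lb (h • n) (h • y) (h * g) := by
  obtain ⟨h1, h2⟩ := k
  refine ⟨?_, ?_⟩
  · rw [h1, mul_smul]
  · rw [mul_inv_rev, mul_smul, inv_smul_smul]
    exact h2

open Classical in
/-- the label of an in-arrow -/
noncomputable def e (n y : V) : O.W :=
  if h' : ∃ g : H, O.Lb n y g then Sum.inr ((Classical.choose h' : H) : H ⧸ O.D)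
  else Sum.inl y

theorem e_inr {n y : V} {g : H} (h : O.Lb n y g) : O.e n y = Sum.inr (g : H ⧸ O.D) := by
  have h' : ∃ g : H, O.Lb n y g := ⟨g, h⟩
  unfold e
  rw [dif_pos h']
  exact congrArg Sum.inr (O.Lb_uniq (Classical.choose_spec h') h)

theorem e_inl {n y : V} (h : ∀ g : H, ¬ O.Lb n y g) : O.e n y = Sum.inl y := by
  unfold e
  rw [dif_neg]
  rintro ⟨g, hg⟩
  exact h g hg

/-- an in-arrow of `v` in `L` goes to the new vertex -/
theorem e_mem {n : V} (h : n ∈ O.L) : O.e n O.v = Sum.inr ((1 : H) : H ⧸ O.D) := by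
  refine O.e_inr ⟨(one_smul _ _).symm, ?_⟩
  rw [inv_one, one_smul]
  exact h

/-- over another vertex -/
theorem e_of_ne {n y : V} (h : ∀ g : H, y ≠ g • O.v) : O.e n y = Sum.inl y :=
  O.e_inl fun g hg => h g hg.1

theorem π_e (n y : V) : O.π (O.e n y) = y := by
  by_cases h : ∃ g : H, O.Lb n y g
  · obtain ⟨g, hg⟩ := h
    rw [O.e_inr hg, hg.1]
    rfl
  · rw [O.e_inl fun g hg => h ⟨g, hg⟩]
    rfl

theorem e_smul (h : H) (n y : V) : O.e (h • n) (h • y) = h • O.e n y := by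
  by_cases k : ∃ g : H, O.Lb n y g
  · obtain ⟨g, hg⟩ := k
    rw [O.e_inr hg, O.e_inr (O.Lb_smul h hg)]
    rfl
  · rw [O.e_inl fun g hg => k ⟨g, hg⟩, O.e_inl]
    · rfl
    · intro g hg
      have := O.Lb_smul h⁻¹ hg
      rw [inv_smul_smul, inv_smul_smul] at this
      exact k ⟨_, this⟩

/-- every coset is joined to the vertex below -/
theorem sq_q (s : H ⧸ O.D) : ∃ h : H, h • (Sum.inr ((1 : H) : H ⧸ O.D) : O.W) = Sum.inr s ∧
    h • (Sum.inl O.v : O.W) = Sum.inl (O.q s) := by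
  induction s using QuotientGroup.induction_on with
  | _ g =>
    refine ⟨g, ?_, rfl⟩
    show (Sum.inr ((g * 1 : H) : H ⧸ O.D) : O.W) = _
    rw [mul_one]

/-- the corner condition at a translate of `v` -/
theorem Lb_cor {n y n' : V} {g : H} (hc : K.Cor n y n') (h1 : K.ar n y) (h2 : K.ar n' y)
    (h : O.Lb n y g) : O.Lb n' y g := by
  obtain ⟨k1, k2⟩ := h
  have e1 : g⁻¹ • y = O.v := by rw [k1, inv_smul_smul]
  have c := hc.smul g⁻¹
  have a1 := K.ar_smul g⁻¹ _ _ h1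
  have a2 := K.ar_smul g⁻¹ _ _ h2
  rw [e1] at c a1 a2
  exact ⟨k1, O.cor _ _ c a1 a2 k2⟩

/-- the labels along a corner agree -/
theorem e_cor {n y n' : V} (hc : K.Cor n y n') (h1 : K.ar n y) (h2 : K.ar n' y) :
    O.e n y = O.e n' y := by
  by_cases k : ∃ g : H, O.Lb n y g
  · obtain ⟨g, hg⟩ := k
    rw [O.e_inr hg, O.e_inr (O.Lb_cor hc h1 h2 hg)]
  · rw [O.e_inl fun g hg => k ⟨g, hg⟩, O.e_inl]
    exact fun g hg => k ⟨g, O.Lb_cor hc.symm h2 h1 hg⟩

theorem corE : CorE K O.e := by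
  intro i j hl h1 h2
  have hc := K.cor_vx i j 1 hl
  simp only [one_smul] at hc
  exact O.e_cor hc h1 h2

theorem fin : FinOrb H (Set.univ : Set O.W) := by
  have h1 : FinOrb H (Set.range (fun x : V => (Sum.inl x : O.W))) := by
    refine FinOrb.of_inj (H' := H) K.fin O.π (fun _ _ => trivial) ?_
    rintro _ ⟨x, rfl⟩ _ ⟨y, rfl⟩ ⟨h, e⟩
    exact ⟨h, congrArg Sum.inl e⟩
  have h2 : FinOrb H (Set.range (fun s : H ⧸ O.D => (Sum.inr s : O.W))) := by
    refine Pool.Agent.SAF.FinOrb_iff.2 ⟨{Sum.inr ((1 : H) : H ⧸ O.D)}, Set.finite_singleton _, ?_, ?_⟩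
    · rintro _ rfl
      exact ⟨_, rfl⟩
    · rintro _ ⟨s, rfl⟩
      obtain ⟨h, h1, -⟩ := O.sq_q s
      exact ⟨_, rfl, h, h1⟩
  have un : ∀ (A B : Set O.W), FinOrb H A → FinOrb H B → FinOrb H (A ∪ B) := by
    intro A B hA hB
    have e : orbs H (A ∪ B) = orbs H A ∪ orbs H B := Set.image_union _ _ _
    unfold FinOrb
    rw [e]
    exact Set.Finite.union hA hB
  refine (un _ _ h1 h2).mono ?_
  rintro (x | s) -
  · exact Or.inl ⟨x, rfl⟩
  · exact Or.inr ⟨s, rfl⟩

theorem stab_le (x : O.W) : stabilizer H x ≤ stabilizer H (O.π x) := by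
  intro h hh
  rw [mem_stabilizer_iff] at hh ⊢
  rw [← O.π_smul, hh]

/-- two vertices over the same vertex -/
theorem two_over {x y : O.W} (h : O.π x = O.π y) (hne : x ≠ y) : ∃ g : H, O.π x = g • O.v := by
  have key : ∀ s : H ⧸ O.D, ∃ g : H, O.q s = g • O.v := by
    intro s
    induction s using QuotientGroup.induction_on with
    | _ g => exact ⟨g, rfl⟩
  rcases x with x | s
  · rcases y with y | t
    · exact absurd (congrArg Sum.inl h) hne
    · rw [h]
      exact key t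
  · exact key s

section Opl

variable (ch : K.I → ℕ → O.W) (hch : ∀ i j, ch i (j + K.len i) = ch i j)
  (hπ : ∀ i j, O.π (ch i j) = K.vx i j)

/-- THE OPENED COMPLEX: the part `L` is moved to the cosets of `D` -/
noncomputable def opl : OpW K O.W where
  π := O.π
  e := O.e
  π_smul := O.π_smul
  e_smul h n y _ := O.e_smul h n y
  π_e n y _ := O.π_e n y
  sur x := ⟨Sum.inl x, rfl⟩
  pole x y h hne := by
    obtain ⟨g, hg⟩ := O.two_over h hne
    rw [hg]
    exact ⟨g • O.a, K.ar_smul g _ _ O.va⟩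
  J := Unit
  finJ := inferInstance
  js _ := Sum.inr ((1 : H) : H ⧸ O.D)
  jt _ := Sum.inl O.v
  ja _ := O.a
  jb _ := O.b
  j_eq _ := by
    show O.v = (1 : H) • O.v
    rw [one_smul]
  j_a _ := by
    show K.ar ((1 : H) • O.v) O.a
    rw [one_smul]
    exact O.va
  j_b _ := by
    show K.ar ((1 : H) • O.v) O.b
    rw [one_smul]
    exact O.vb
  j_ab _ := O.ab
  cov x y h a b ha hb hab := by
    have key : ∀ x : O.W, Relation.EqvGen (fun x y => ∃ (_ : Unit) (h : H),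
        h • (Sum.inr ((1 : H) : H ⧸ O.D) : O.W) = x ∧
        h • (Sum.inl O.v : O.W) = y) x (Sum.inl (O.π x)) := by
      intro x
      rcases x with x | s
      · exact Relation.EqvGen.refl _
      · obtain ⟨h, h1, h2⟩ := O.sq_q s
        exact Relation.EqvGen.rel _ _ ⟨(), h, h1, h2⟩
    have k1 := key x
    have k2 := key y
    rw [← h] at k2
    exact k1.trans _ _ _ k2.symm
  lp := lpOf K O.e ch
  lp_len := lpOf_len hch
  π_lp := π_lpOf (fun n y _ => O.π_e n y) hπ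
  lp_E := lpOf_E O.corE
  fin := O.fin
  stab x := Pool.Agent.BT.InC.of_injective (Subgroup.inclusion (O.stab_le x))
    (Subgroup.inclusion_injective _) (K.stab _)

theorem opl_ne (j : (O.opl ch hch hπ).J) : (O.opl ch hch hπ).js j ≠ (O.opl ch hch hπ).jt j := by
  intro e
  have e : (Sum.inr ((1 : H) : H ⧸ O.D) : O.W) = Sum.inl O.v := e
  cases e

theorem opl_Js : (O.opl ch hch hπ).Js := fun _ _ _ _ => rfl

theorem opl_dbl {x : O.W} (h : (O.opl ch hch hπ).Dbl x) : ∃ g : H, O.π x = g • O.v := by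
  obtain ⟨y, h1, h2⟩ := h
  exact O.two_over h1 h2

/-- the opened vertices are the vertices over the orbit of `v` -/
theorem opl_dbl_iff {x : O.W} : (O.opl ch hch hπ).Dbl x ↔ ∃ g : H, O.π x = g • O.v := by
  refine ⟨O.opl_dbl ch hch hπ, ?_⟩
  rintro ⟨g, hg⟩
  rcases x with x | s
  · refine ⟨Sum.inr (g : H ⧸ O.D), ?_, fun e => by cases e⟩
    exact hg
  · exact ⟨Sum.inl (O.q s), rfl, fun e => by cases e⟩

theorem opl_Tw : (O.opl ch hch hπ).Tw := by
  intro x y h hne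
  obtain ⟨g, hg⟩ := O.two_over h hne
  show ∃ a b, a ≠ b ∧ K.ar (O.π x) a ∧ K.ar (O.π x) b
  rw [hg]
  exact ⟨g • O.a, g • O.b, fun e => O.ab (smul_left_cancel g e), K.ar_smul g _ _ O.va,
    K.ar_smul g _ _ O.vb⟩

/-- `v` is not a top -/
theorem opl_NT (P : P45 K) (hT : O.v ∉ P.tops) : (O.opl ch hch hπ).NT P := by
  intro x y h hne a b z k
  obtain ⟨g, hg⟩ := O.two_over (x := x) (y := y) h hne
  apply hT
  have k' : P.Top (O.π x) a b z := k
  rw [hg] at k'
  have := P45.tops_smul g⁻¹ _ ⟨a, b, z, k'⟩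
  rwa [inv_smul_smul] at this

theorem ar_v {g : H} {a : V} (h : K.ar (g • O.v) a) : a = g • O.a ∨ a = g • O.b := by
  rcases K.two _ _ _ _ (K.ar_smul g _ _ O.va) (K.ar_smul g _ _ O.vb) h with q | q | q
  · exact absurd (smul_left_cancel g q) O.ab
  · exact Or.inr q.symm
  · exact Or.inl q.symm

/-- the edges of `v` lie in cells -/
theorem opl_CE (h1 : K.EC O.v O.a) (h2 : K.EC O.v O.b) : (O.opl ch hch hπ).CE := by
  intro x hx a ha
  obtain ⟨g, hg⟩ := O.opl_dbl ch hch hπ hx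
  have ha : K.ar (O.π x) a := ha
  show K.EC (O.π x) a
  rw [hg] at ha ⊢
  rcases O.ar_v ha with rfl | rfl
  · exact h1.smul g
  · exact h2.smul g

/-- `v` is finite -/
theorem opl_DF (hf : Finite ↥(stabilizer H O.v)) : (O.opl ch hch hπ).DF := by
  intro x hx
  obtain ⟨g, hg⟩ := O.opl_dbl ch hch hπ hx
  show Finite ↥(stabilizer H (O.π x))
  rw [hg]
  exact (GX.fin_smul_iff g O.v).2 hf

theorem opl_pexc : (O.opl ch hch hπ).gx.pexc = K.pexc :=
  (O.opl ch hch hπ).pexc_eq (O.opl_Tw ch hch hπ)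

/-- the stabiliser of the new vertex -/
theorem stab_inr (g : H) : stabilizer H (Sum.inr (g : H ⧸ O.D) : O.W) =
    O.D.map (MulAut.conj g).toMonoidHom := by
  ext h
  rw [mem_stabilizer_iff, Subgroup.mem_map]
  constructor
  · intro k
    have k' : ((h * g : H) : H ⧸ O.D) = (g : H ⧸ O.D) := Sum.inr.inj k
    have k2 := O.mk_eq.1 k'.symm
    refine ⟨_, k2, ?_⟩
    show g * (g⁻¹ * (h * g)) * g⁻¹ = h
    group
  · rintro ⟨d, hd, rfl⟩
    show (Sum.inr (((g * d * g⁻¹) * g : H) : H ⧸ O.D) : O.W) = _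
    refine congrArg Sum.inr (O.mk_eq.2 ?_).symm
    have e : g⁻¹ * (g * d * g⁻¹ * g) = d := by group
    rw [e]
    exact hd

theorem stab_inr_one : stabilizer H (Sum.inr ((1 : H) : H ⧸ O.D) : O.W) = O.D := by
  ext h
  rw [mem_stabilizer_iff]
  constructor
  · intro k
    have k' : ((h * 1 : H) : H ⧸ O.D) = ((1 : H) : H ⧸ O.D) := Sum.inr.inj k
    have k2 := O.mk_eq.1 k'.symm
    rw [inv_one, one_mul, mul_one] at k2
    exact k2
  · intro hd
    show (Sum.inr ((h * 1 : H) : H ⧸ O.D) : O.W) = _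
    refine congrArg Sum.inr (O.mk_eq.2 ?_).symm
    rw [inv_one, one_mul, mul_one]
    exact hd

/-- the walk of the new vertex -/
theorem opl_top (P : P45 K) : ((O.opl ch hch hπ).p45 P).Top (Sum.inr ((1 : H) : H ⧸ O.D))
    ((O.opl ch hch hπ).e O.v O.a) ((O.opl ch hch hπ).e O.v O.b) (Sum.inl O.v) := by
  have e : (O.opl ch hch hπ).π ((O.opl ch hch hπ).js ()) = O.v := by
    show (1 : H) • O.v = O.v
    rw [one_smul]
  refine (O.opl ch hch hπ).Top_new P ⟨1, (), Or.inl ⟨(one_smul _ _).symm, (one_smul _ _).symm⟩,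
    Or.inl ⟨?_, ?_⟩⟩
  · rw [one_smul, e]
    rfl
  · rw [one_smul, e]
    rfl

end Opl

end OpL

end Pool.Agent.DI
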