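import Pool.Agent.DI.OpnN
import Pool.Agent.DI.OpnL

/-!
# DI/OpnR: openings given by labels

`O : OpR K X` (`X` an `H`-set of labels): `O.Lb` the labels which occur over a vertex, `O.r n y` the label
of the in-arrow `n → y` (the same along the corners between in-arrows), `O.d i j` the label of the cell
`i` at its corner number `j` (used at direct corners only). The vertices of the opened complex are the
pairs `(y, x)` in `O.Lb`; `O.opr : OpW K O.W`, with squares for ALL pairs of labels over one vertex.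
Two labels over one vertex are only allowed if it has two poles.
-/

namespace Pool.Agent.DI

open MulAction
open Pool.Agent.SAF (InC orbs FinOrb oc FinOrb_iff)

/-- data of an opening by labels -/
structure OpR {H V : Type} [Group H] [MulAction H V] (K : GX H V) (X : Type) [MulAction H X] where
  Lb : Set (V × X)
  inv : ∀ (h : H), ∀ p ∈ Lb, h • p ∈ Lb
  sur : ∀ y : V, ∃ x, (y, x) ∈ Lb
  r : V → V → X
  r_smul : ∀ (h : H) (n y : V), K.ar n y → r (h • n) (h • y) = h • r n y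
  r_mem : ∀ n y : V, K.ar n y → (y, r n y) ∈ Lb
  r_cor : ∀ n y n' : V, K.Cor n y n' → K.ar n y → K.ar n' y → r n y = r n' y
  d : K.I → ℕ → X
  d_len : ∀ i j, d i (j + K.len i) = d i j
  d_mem : ∀ i j, (K.vx i j, d i j) ∈ Lb
  two : ∀ y x x', (y, x) ∈ Lb → (y, x') ∈ Lb → x ≠ x' → ∃ a b, a ≠ b ∧ K.ar y a ∧ K.ar y b
  fin : FinOrb H Lb
  fin2 : FinOrb H {p : (V × X) × (V × X) | p.1 ∈ Lb ∧ p.2 ∈ Lb ∧ p.1.1 = p.2.1 ∧ p.1 ≠ p.2}

namespace OpR

variable {H V X : Type} [Group H] [MulAction H V] [MulAction H X] {K : GX H V} (O : OpR K X)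

/-- the vertices of the opened complex -/
def sub : SubMulAction H (V × X) where
  carrier := O.Lb
  smul_mem' h _ hp := O.inv h _ hp

abbrev W : Type := ↥O.sub

theorem mem_sub {p : V × X} : p ∈ O.sub ↔ p ∈ O.Lb := Iff.rfl

/-- the projection -/
def π (w : O.W) : V := w.1.1

theorem π_smul (h : H) (w : O.W) : O.π (h • w) = h • O.π w := rfl

/-- a vertex over `y` -/
noncomputable def some (y : V) : O.W := ⟨(y, Classical.choose (O.sur y)), Classical.choose_spec (O.sur y)⟩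

open Classical in
/-- the label of an in-arrow -/
noncomputable def e (n y : V) : O.W := if h : K.ar n y then ⟨(y, O.r n y), O.r_mem n y h⟩ else O.some y

theorem e_ar {n y : V} (h : K.ar n y) : O.e n y = ⟨(y, O.r n y), O.r_mem n y h⟩ := dif_pos h

theorem π_e (n y : V) (h : K.ar n y) : O.π (O.e n y) = y := by
  rw [O.e_ar h]
  rfl

theorem e_smul (h : H) (n y : V) (a : K.ar n y) : O.e (h • n) (h • y) = h • O.e n y := by
  rw [O.e_ar a, O.e_ar (K.ar_smul h _ _ a)]
  refine Subtype.ext (Prod.ext rfl ?_)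
  exact O.r_smul h n y a

theorem corE : CorE K O.e := by
  intro i j hl h1 h2
  have hc := K.cor_vx i j 1 hl
  simp only [one_smul] at hc
  rw [O.e_ar h1, O.e_ar h2]
  exact Subtype.ext (Prod.ext rfl (O.r_cor _ _ _ hc h1 h2))

theorem finW : FinOrb H (Set.univ : Set O.W) := by
  refine FinOrb.of_inj (H' := H) O.fin (fun w : O.W => w.1) (fun w _ => w.2) ?_
  rintro a - b - ⟨h, e⟩
  exact ⟨h, Subtype.ext e⟩

theorem stab_le (w : O.W) : stabilizer H w ≤ stabilizer H (O.π w) := by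
  intro h hh
  rw [mem_stabilizer_iff] at hh ⊢
  rw [← O.π_smul, hh]

/-- the pairs of different vertices over one vertex -/
def Pr : Set (O.W × O.W) := {p | O.π p.1 = O.π p.2 ∧ p.1 ≠ p.2}

theorem finPr : FinOrb H O.Pr := by
  refine FinOrb.of_inj (H' := H) O.fin2 (fun p : O.W × O.W => (p.1.1, p.2.1)) ?_ ?_
  · rintro ⟨x, y⟩ ⟨h1, h2⟩
    exact ⟨x.2, y.2, h1, fun e => h2 (Subtype.ext e)⟩
  · rintro a - b - ⟨h, e⟩
    refine ⟨h, ?_⟩
    have e1 := congrArg Prod.fst e
    have e2 := congrArg Prod.snd e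
    exact Prod.ext (Subtype.ext e1) (Subtype.ext e2)

theorem ex_rep (j : ↥(orbs H O.Pr)) : ∃ p : O.W × O.W, p ∈ O.Pr ∧
    (Quotient.mk'' p : orbitRel.Quotient H (O.W × O.W)) = j.1 := by
  obtain ⟨p, hp, e⟩ := j.2
  exact ⟨p, hp, e⟩

/-- a representative of an orbit of pairs -/
noncomputable def rep (j : ↥(orbs H O.Pr)) : O.W × O.W := Classical.choose (O.ex_rep j)

theorem rep_mem (j : ↥(orbs H O.Pr)) : O.rep j ∈ O.Pr := (Classical.choose_spec (O.ex_rep j)).1

theorem rep_mk (j : ↥(orbs H O.Pr)) :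
    (Quotient.mk'' (O.rep j) : orbitRel.Quotient H (O.W × O.W)) = j.1 :=
  (Classical.choose_spec (O.ex_rep j)).2

theorem poles (j : ↥(orbs H O.Pr)) : ∃ a b, a ≠ b ∧ K.ar (O.π (O.rep j).1) a ∧
    K.ar (O.π (O.rep j).1) b := by
  have h := O.rep_mem j
  have h2 : (O.π (O.rep j).1, (O.rep j).2.1.2) ∈ O.Lb := by
    rw [h.1]
    exact (O.rep j).2.2
  refine O.two _ _ _ (O.rep j).1.2 h2 fun e => h.2 (Subtype.ext (Prod.ext h.1 e))

/-- THE OPENED COMPLEX -/
noncomputable def opr : OpW K O.W where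
  π := O.π
  e := O.e
  π_smul := O.π_smul
  e_smul := O.e_smul
  π_e := O.π_e
  sur y := ⟨O.some y, rfl⟩
  pole x y h hne := by
    have h2 : (O.π x, y.1.2) ∈ O.Lb := by
      rw [h]
      exact y.2
    obtain ⟨a, b, -, ha, -⟩ := O.two _ _ _ x.2 h2 fun e => hne (Subtype.ext (Prod.ext h e))
    exact ⟨a, ha⟩
  J := ↥(orbs H O.Pr)
  finJ := Set.finite_coe_iff.2 O.finPr
  js j := (O.rep j).1
  jt j := (O.rep j).2
  ja j := Classical.choose (O.poles j)
  jb j := Classical.choose (Classical.choose_spec (O.poles j))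
  j_eq j := (O.rep_mem j).1.symm
  j_a j := (Classical.choose_spec (Classical.choose_spec (O.poles j))).2.1
  j_b j := (Classical.choose_spec (Classical.choose_spec (O.poles j))).2.2
  j_ab j := (Classical.choose_spec (Classical.choose_spec (O.poles j))).1
  cov x y h a b ha hb hab := by
    by_cases hne : x = y
    · rw [hne]
      exact Relation.EqvGen.refl _
    have hp : (x, y) ∈ O.Pr := ⟨h, hne⟩
    refine Relation.EqvGen.rel _ _ ⟨⟨_, (x, y), hp, rfl⟩, ?_⟩
    have e := O.rep_mk ⟨_, (x, y), hp, rfl⟩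
    obtain ⟨g, hg⟩ := Pool.Agent.SAF.mk_eq_iff.1 e.symm
    exact ⟨g, congrArg Prod.fst hg, congrArg Prod.snd hg⟩
  lp := lpOf K O.e (fun i j => ⟨(K.vx i j, O.d i j), O.d_mem i j⟩)
  lp_len := lpOf_len (fun i j => Subtype.ext (Prod.ext (K.vx_add_len i j) (O.d_len i j)))
  π_lp := π_lpOf O.π_e (fun _ _ => rfl)
  lp_E := lpOf_E O.corE
  fin := O.finW
  stab x := Pool.Agent.BT.InC.of_injective (Subgroup.inclusion (O.stab_le x))
    (Subgroup.inclusion_injective _) (K.stab _)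

theorem opr_ne (j : O.opr.J) : O.opr.js j ≠ O.opr.jt j := (O.rep_mem j).2

theorem opr_Tw : O.opr.Tw := by
  intro x y h hne
  have h : O.π x = O.π y := h
  have h2 : (O.π x, y.1.2) ∈ O.Lb := by
    rw [h]
    exact y.2
  exact O.two _ _ _ x.2 h2 fun e => hne (Subtype.ext (Prod.ext h e))

/-- a vertex with two labels -/
theorem opr_dbl {x : O.W} : O.opr.Dbl x ↔ ∃ l, (O.π x, l) ∈ O.Lb ∧ l ≠ x.1.2 := by
  constructor
  · rintro ⟨y, h, hne⟩
    have h : O.π x = O.π y := h
    refine ⟨y.1.2, ?_, fun e => hne (Subtype.ext (Prod.ext h e.symm))⟩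
    rw [h]
    exact y.2
  · rintro ⟨l, hl, hne⟩
    refine ⟨⟨(O.π x, l), hl⟩, rfl, fun e => hne ?_⟩
    exact (congrArg (fun w : O.W => w.1.2) e).symm

/-- ALL squares of pairs: every pair of different vertices over one vertex is in a new square -/
theorem opr_NSq {x y : O.W} (h : O.π x = O.π y) (hne : x ≠ y) {a b : V} (ha : K.ar (O.π x) a)
    (hb : K.ar (O.π x) b) (hab : a ≠ b) : O.opr.NSq (O.e (O.π x) a) x (O.e (O.π x) b) y := by
  have hp : (x, y) ∈ O.Pr := ⟨h, hne⟩
  have e := O.rep_mk ⟨_, (x, y), hp, rfl⟩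
  obtain ⟨g, hg⟩ := Pool.Agent.SAF.mk_eq_iff.1 e.symm
  have g1 : g • (O.rep ⟨_, (x, y), hp, rfl⟩).1 = x := congrArg Prod.fst hg
  have g2 : g • (O.rep ⟨_, (x, y), hp, rfl⟩).2 = y := congrArg Prod.snd hg
  refine ⟨g, ⟨_, (x, y), hp, rfl⟩, Or.inl ⟨g1.symm, g2.symm⟩, ?_⟩
  set j : O.opr.J := ⟨_, (x, y), hp, rfl⟩ with hj
  have e1 : g • O.π (O.rep j).1 = O.π x := by
    rw [← O.π_smul, g1]
  have ja := O.opr.j_a j
  have jb := O.opr.j_b j
  have jab := O.opr.j_ab j
  have ka : K.ar (O.π x) (g • O.opr.ja j) := by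
    rw [← e1]
    exact K.ar_smul g _ _ ja
  have kb : K.ar (O.π x) (g • O.opr.jb j) := by
    rw [← e1]
    exact K.ar_smul g _ _ jb
  have kab : g • O.opr.ja j ≠ g • O.opr.jb j := fun e => jab (smul_left_cancel g e)
  have ea : g • O.opr.e (O.opr.π (O.opr.js j)) (O.opr.ja j) = O.e (O.π x) (g • O.opr.ja j) := by
    exact (O.e_smul g _ _ ja).symm.trans (congrArg (fun t => O.e t (g • O.opr.ja j)) e1)
  have eb : g • O.opr.e (O.opr.π (O.opr.js j)) (O.opr.jb j) = O.e (O.π x) (g • O.opr.jb j) := by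
    exact (O.e_smul g _ _ jb).symm.trans (congrArg (fun t => O.e t (g • O.opr.jb j)) e1)
  rw [ea, eb]
  rcases K.two _ _ _ _ ha hb ka with q | q | q
  · exact absurd q hab
  · rcases K.two _ _ _ _ ha hb kb with q' | q' | q'
    · exact absurd q' hab
    · exact absurd (q.symm.trans q') kab
    · exact Or.inr ⟨by rw [q'], by rw [q]⟩
  · rcases K.two _ _ _ _ ha hb kb with q' | q' | q'
    · exact absurd q' hab
    · exact Or.inl ⟨by rw [q], by rw [q']⟩
    · exact absurd (q.symm.trans q') kab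

end OpR

end Pool.Agent.DI
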