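import Pool.Agent.DI.FCk

/-!
# No backtracking in the raw slice

`P45.nb_of`: no degenerate cell. `SyQ.k0_nb`: the raw slice of a system without backtracking cells has
no backtracking cells.
-/

namespace Pool.Agent.DI

open MulAction

/-- no backtracking corner -/
theorem P45.nb_of {H V : Type} [Group H] [MulAction H V] {K : GX H V} (P : P45 K)
    (h5 : ∀ i, ¬ P.sq i → ∀ j : Fin 5, P.pt i j ≠ P.pt i (j + 2)) (nd : P.ND) (e : K.LE) :
    K.c0 e ≠ K.c2 e := by
  rcases P.l_cases e with ⟨i, hi, j, h, rfl⟩ | ⟨i, hi, j, h, rfl⟩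
  · rw [P.c0_5, P.c2_5]
    exact fun k => h5 i hi j (smul_left_cancel h k)
  · rw [P.c0_4, P.c2_4]
    intro k
    have k := smul_left_cancel h k
    obtain ⟨n0, n1⟩ := nd i hi
    fin_cases j
    · exact n0 k
    · exact n1 k
    · exact n0 k.symm
    · exact n1 k.symm

namespace SyQ

variable {H V : Type} [Group H] [MulAction H V] (S : SyQ H V)

/-- NO BACKTRACKING IN THE RAW SLICE -/
theorem k0_nb (hc : S.Conn) (hnb : S.NB) (w : S.X) (e : (S.k0 hc w).LE) :
    (S.k0 hc w).c0 e ≠ (S.k0 hc w).c2 e := by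
  refine (S.k0P hc w).nb_of ?_ (S.k0P_nd hc hnb w) e
  rintro (i | p) hi j
  · exact isC_vis (S.tr_E _ i.2.1) i.isC j (fun k => S.P.nb5 hnb i.2.1 j (smul_left_cancel _ k))
  · exact absurd ⟨p, rfl⟩ hi

end SyQ

end Pool.Agent.DI
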