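import Pool.Agent.DI.OStO
import Pool.Agent.DI.QNB
import Pool.Agent.DI.OpnR
import Pool.Agent.DI.OpnPc

/-!
# DI/OStK: the pieces of a state and of its openings

`St.nbt`: no backtracking corner. `St.two`: every soft has two poles. `St.pc`: every piece has a corner
at every pole. `OpR.nbt`, `OpR.pc`: the same for the openings of a state by labels.
-/

namespace Pool.Agent.DI

open MulAction

variable {H V : Type} [Group H] [MulAction H V] {K : GX H V}

theorem P45.nb5m {P : P45 K} (hm : K.Min) (nd : P.ND) (e : K.LE) : K.c0 e ≠ K.c2 e :=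
  P.nb_of (fun i hi j => P45.hne hm (a := P.pt i j) (q := P.pt i (j + 1)) (b := P.pt i (j + 2))
    (y := P.pt i (j + 3)) (z := P.pt i (j + 4))
    ⟨1, i, j, hi, Or.inl ⟨(one_smul _ _).symm, (one_smul _ _).symm, (one_smul _ _).symm,
      (one_smul _ _).symm, (one_smul _ _).symm⟩⟩) nd e

namespace St

variable (C : St)

theorem nb (e : C.K.LE) : C.K.c0 e ≠ C.K.c2 e := P45.nb5m C.Min C.nd e

/-- no backtracking corner -/
theorem nbt {n v k : C.V} (h : C.K.Cor n v k) : n ≠ k := GX.nbt_of C.nb h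

/-- EVERY SOFT HAS TWO POLES -/
theorem two {v c : C.V} (hc : C.K.ar v c) : ∃ d, C.K.ar v d ∧ d ≠ c := by
  by_contra hcon
  push Not at hcon
  obtain ⟨y, hy⟩ := GX.EC_iff.1 (C.K.EC_of_E C.lc C.bad (Or.inr hc : C.K.E c v))
  exact P45.SqT.no_one C.cls.toSqE C.Min C.cls.x1 hc hy.symm hcon

/-- EVERY PIECE HAS A CORNER AT EVERY POLE -/
theorem pc {v n a : C.V} (hn : C.K.ar n v) (ha : C.K.ar v a) :
    ∃ k, C.K.PC v n k ∧ C.K.ar k v ∧ C.K.Cor k v a :=
  P45.SqT.os C.cls.toSqE C.Min C.cls.x1 C.lc hn ha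

end St

namespace OpR

variable {C : St} {X : Type} [MulAction C.H X] (O : OpR C.K X)

theorem two' (x y : O.W) (h : O.opr.π x = O.opr.π y) (hne : x ≠ y) :
    ∃ a b, a ≠ b ∧ C.K.ar (O.opr.π x) a ∧ C.K.ar (O.opr.π x) b :=
  O.opr_Tw x y h hne

/-- no backtracking corner in the opening -/
theorem nbt {n v k : O.W} (h : O.opr.gx.Cor n v k) : n ≠ k :=
  GX.nbt_of (O.opr.nb C.nb O.opr_ne) h

/-- every piece of the opening has a corner at every pole -/
theorem pc {v n a : O.W} (hn : O.opr.gx.ar n v) (ha : O.opr.gx.ar v a) :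
    ∃ k, O.opr.gx.PC v n k ∧ O.opr.gx.ar k v ∧ O.opr.gx.Cor k v a :=
  O.opr.os C.P O.two' (fun h1 h2 => C.pc h1 h2) hn ha

end OpR

end Pool.Agent.DI
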