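import Pool.Agent.DI.OpnP
import Pool.Agent.DI.Xt0

/-!
# Strands in the opened complex

`O.NT P`: no opened vertex is a top. `X_eq`: the plain strands of an arrow out of a vertex which is not
opened. `Top_π`, `Top_new`, `Top_lift`: the tops of the opened complex. `RP_up`, `RP_cases`, `ZP_π`,
`ZP_inj`, `ZP_lift`: flags of pentagons and walks of squares. `sigma_eq`: sigma does not change,
`sqE`: the opened complex is in the class relative to the set `O.Dbl` of the opened vertices.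
-/

namespace Pool.Agent.DI

open MulAction
open Pool.Agent.SAF (InC orbs FinOrb oc mk_eq_iff FinOrb_iff)

/-- a bijection of orbits -/
theorem oc_rel {G G' Y Y' : Type} [Group G] [Group G'] [MulAction G Y] [MulAction G' Y']
    {s : Set Y} {s' : Set Y'} (f : Y → Y') (hm : ∀ a ∈ s, f a ∈ s')
    (hsur : ∀ b ∈ s', ∃ a ∈ s, ∃ g : G', g • f a = b)
    (hrel : ∀ a ∈ s, ∀ b ∈ s, (∃ g : G, g • a = b) ↔ ∃ g : G', g • f a = f b) :
    oc G s = oc G' s' := by
  classical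
  unfold oc
  have key : ∀ a ∈ s, ∀ b ∈ s, (Quotient.mk (orbitRel G Y) a = Quotient.mk (orbitRel G Y) b ↔
      Quotient.mk (orbitRel G' Y') (f a) = Quotient.mk (orbitRel G' Y') (f b)) := by
    intro a ha b hb
    have sw : ∀ {G Y : Type} [Group G] [MulAction G Y] (x y : Y), (∃ g : G, g • x = y) ↔
        ∃ g : G, g • y = x := by
      intro G Y _ _ x y
      constructor
      · rintro ⟨g, rfl⟩
        exact ⟨g⁻¹, inv_smul_smul g x⟩
      · rintro ⟨g, rfl⟩
        exact ⟨g⁻¹, inv_smul_smul g y⟩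
    rw [mk_eq_iff, mk_eq_iff]
    exact ((sw b a).trans (hrel a ha b hb)).trans (sw _ _)
  refine Set.ncard_congr (fun o (ho : o ∈ orbs G s) => Quotient.mk (orbitRel G' Y')
    (f (Classical.choose ho))) ?_ ?_ ?_
  · intro o ho
    exact ⟨_, hm _ (Classical.choose_spec ho).1, rfl⟩
  · intro o o' ho ho' e
    have h1 := Classical.choose_spec ho
    have h2 := Classical.choose_spec ho'
    have h3 := (key _ h1.1 _ h2.1).2 e
    exact h1.2.symm.trans (h3.trans h2.2)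
  · rintro _ ⟨b, hb, rfl⟩
    obtain ⟨a, ha, g, hg⟩ := hsur b hb
    have ho : Quotient.mk (orbitRel G Y) a ∈ orbs G s := ⟨a, ha, rfl⟩
    refine ⟨_, ho, ?_⟩
    have h1 := Classical.choose_spec ho
    have h2 := (key _ h1.1 _ ha).1 h1.2
    refine h2.trans ?_
    refine mk_eq_iff.2 ⟨g⁻¹, ?_⟩
    rw [← hg]
    exact inv_smul_smul g _

namespace OpW

variable {H V W : Type} [Group H] [MulAction H V] [MulAction H W] {K : GX H V} (O : OpW K W)

/-- the flags over a flag -/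
def upF (f : FL K) : FL O.gx := (O.up f.1, f.2)

theorem upF_smul (h : H) (f : FL K) : O.upF (h • f) = h • O.upF f := rfl

theorem upF_inj {f g : FL K} (h : O.upF f = O.upF g) : f = g := by
  have h1 : O.up f.1 = O.up g.1 := congrArg Prod.fst h
  have h2 : f.2 = g.2 := congrArg (fun z : FL O.gx => z.2) h
  exact Prod.ext (O.up_inj h1) h2

theorem π_fy (f : FL K) : O.π (P45.fy (O.upF f)) = P45.fy f := O.π_up1 f.1

theorem π_fz (f : FL K) : O.π (P45.fz (O.upF f)) = P45.fz f := by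
  unfold P45.fz upF
  by_cases h : f.2 = true
  · rw [if_pos h, if_pos h]
    exact O.π_up2 f.1
  · rw [if_neg h, if_neg h]
    exact O.π_up0 f.1

theorem E_fyz (K : GX H V) (f : FL K) : K.E (P45.fy f) (P45.fz f) := by
  unfold P45.fz P45.fy
  by_cases h : f.2 = true
  · rw [if_pos h]
    exact K.c_E2 f.1
  · rw [if_neg h]
    exact K.c_E0 f.1

variable (P : P45 K)

theorem RP_up (f : FL K) : O.upF f ∈ (O.p45 P).RP ↔ f ∈ P.RP := by
  refine and_congr Iff.rfl ?_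
  rw [O.ar_iff (E_fyz O.gx (O.upF f)), O.π_fy, O.π_fz]

theorem RP_cases {f' : FL O.gx} (h : f' ∈ (O.p45 P).RP) : ∃ f ∈ P.RP, f' = O.upF f := by
  obtain ⟨e', b⟩ := f'
  rcases O.LE_cases e' with ⟨e, rfl⟩ | ⟨j, k, g, rfl⟩
  · exact ⟨(e, b), (O.RP_up P (e, b)).1 h, rfl⟩
  · exact absurd trivial h.1

/-- no opened vertex is a top -/
def NT : Prop := ∀ x y : W, O.π x = O.π y → x ≠ y → ∀ a b z, ¬ P.Top (O.π x) a b z

/-- the projection of walks -/
def πw (p : (W × W) × (W × W)) : (V × V) × (V × V) :=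
  ((O.π p.1.1, O.π p.1.2), (O.π p.2.1, O.π p.2.2))

theorem πw_smul (h : H) (p : (W × W) × (W × W)) : O.πw (h • p) = h • O.πw p := by
  unfold πw
  refine Prod.ext (Prod.ext ?_ ?_) (Prod.ext ?_ ?_)
  all_goals exact O.π_smul h _

theorem ZP_π {p : (W × W) × (W × W)} (h : p ∈ (O.p45 P).ZP) : O.πw p ∈ P.ZP := by
  obtain ⟨⟨T, a⟩, q, n⟩ := p
  obtain ⟨h1, h2, h3⟩ := h
  have h1 : Q4 (O.p45 P) n T a q := h1
  have h2 : O.gx.ar T a := h2
  have h3 : O.gx.ar n T := h3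
  refine ⟨?_, O.ar_π h2, O.ar_π h3⟩
  rcases O.Q4_π P h1 with k | k | k
  · exact k
  · exact absurd h3 (GX.not_both' (NSq.ar O k).1)
  · exact absurd h2 (GX.not_both' (NSq.ar O k).1)

theorem ZP_inj (hv : O.NT P) {p p' : (W × W) × (W × W)} (h : p ∈ (O.p45 P).ZP)
    (h' : p' ∈ (O.p45 P).ZP) (e : O.πw p = O.πw p') : p = p' := by
  have k := O.ZP_π P h
  obtain ⟨⟨T, a⟩, q, n⟩ := p
  obtain ⟨⟨T', a'⟩, q', n'⟩ := p'
  obtain ⟨h1, h2, h3⟩ := h
  obtain ⟨h1', h2', h3'⟩ := h'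
  obtain ⟨k1, k2, k3⟩ := k
  have h1 : Q4 (O.p45 P) n T a q := h1
  have h2 : O.gx.ar T a := h2
  have h3 : O.gx.ar n T := h3
  have h1' : Q4 (O.p45 P) n' T' a' q' := h1'
  have h2' : O.gx.ar T' a' := h2'
  have h3' : O.gx.ar n' T' := h3'
  have k1 : Q4 P (O.π n) (O.π T) (O.π a) (O.π q) := k1
  have k2 : K.ar (O.π T) (O.π a) := k2
  have k3 : K.ar (O.π n) (O.π T) := k3
  have e1 : O.π T = O.π T' := congrArg (fun z => z.1.1) e
  have e2 : O.π a = O.π a' := congrArg (fun z => z.1.2) e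
  have e3 : O.π q = O.π q' := congrArg (fun z => z.2.1) e
  have e4 : O.π n = O.π n' := congrArg (fun z => z.2.2) e
  have eT : T = T' := by rw [← O.ar_e' h3, ← O.ar_e' h3', e4, e1]
  have ea : a = a' := by rw [← O.ar_e' h2, ← O.ar_e' h2', e1, e2]
  have en : n = n' := by
    by_contra hne
    rcases k1.E4 with s | s
    · have s1 : O.gx.ar q n := O.ar_of_E h1.E4 s
      have s2 : O.gx.ar q' n' := O.ar_of_E h1'.E4 (by rw [← e3, ← e4]; exact s)
      exact hne (by rw [← O.ar_e' s1, ← O.ar_e' s2, e3, e4])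
    · exact hv n n' e4 hne _ _ _ ⟨k1.rot.rot.rot, s, k3⟩
  have eq : q = q' := by
    by_contra hne
    rcases k1.E3 with s | s
    · have s1 : O.gx.ar a q := O.ar_of_E h1.E3 s
      have s2 : O.gx.ar a' q' := O.ar_of_E h1'.E3 (by rw [← e3, ← e2]; exact s)
      exact hne (by rw [← O.ar_e' s1, ← O.ar_e' s2, e3, e2])
    · rcases k1.E4 with t | t
      · exact hv q q' e3 hne _ _ _ ⟨k1.rot.rot, s, t⟩
      · have s1 : O.gx.ar n q := O.ar_of_E h1.E4.symm t
        have s2 : O.gx.ar n' q' := O.ar_of_E h1'.E4.symm (by rw [← e3, ← e4]; exact t)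
        exact hne (by rw [← O.ar_e' s1, ← O.ar_e' s2, e3, e4])
  rw [eT, ea, eq, en]

theorem ZP_lift {p : (V × V) × (V × V)} (h : p ∈ P.ZP) : ∃ p' ∈ (O.p45 P).ZP, O.πw p' = p := by
  obtain ⟨⟨T, a⟩, q, n⟩ := p
  obtain ⟨h1, h2, h3⟩ := h
  have h1 : Q4 P n T a q := h1
  have h2 : K.ar T a := h2
  have h3 : K.ar n T := h3
  obtain ⟨n', T', a', q', rfl, rfl, rfl, rfl, hq⟩ := O.Q4_lift P h1
  exact ⟨((T', a'), (q', n')), ⟨hq, O.ar_of_E hq.E2 h2, O.ar_of_E hq.E1 h3⟩, rfl⟩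

/-- the stabiliser of an arrow out of a vertex which is not opened -/
theorem stab_pair {T a : W} (hT : ∀ x, O.π x = O.π T → x = T) (ha : O.gx.ar T a) (h : H) :
    h • (T, a) = (T, a) ↔ h • (O.π T, O.π a) = (O.π T, O.π a) := by
  constructor
  · intro e
    have e1 : h • T = T := congrArg Prod.fst e
    have e2 : h • a = a := congrArg Prod.snd e
    refine Prod.ext ?_ ?_
    · show h • O.π T = O.π T
      rw [← O.π_smul, e1]
    · show h • O.π a = O.π a
      rw [← O.π_smul, e2]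
  · intro e
    have e1 : h • O.π T = O.π T := congrArg Prod.fst e
    have e2 : h • O.π a = O.π a := congrArg Prod.snd e
    have e3 : h • T = T := hT _ (by rw [O.π_smul, e1])
    refine Prod.ext e3 ?_
    have k := O.gx.ar_smul h _ _ ha
    rw [e3] at k
    show h • a = a
    have k1 := O.ar_e' k
    rw [O.π_smul, e2, O.ar_e' ha] at k1
    exact k1.symm

/-- THE STRANDS OF A VERTEX WHICH IS NOT OPENED -/
theorem X_eq (hv : O.NT P) {T a : W} (hT : ∀ x, O.π x = O.π T → x = T) (ha : O.gx.ar T a) :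
    (O.p45 P).X T a = P.X (O.π T) (O.π a) := by
  have at_ : ∀ T' a' : W, O.gx.ar T' a' → O.π T' = O.π T → O.π a' = O.π a → (T', a') = (T, a) := by
    intro T' a' k e1 e2
    have e3 := hT _ e1
    subst e3
    rw [← O.ar_e' k, ← O.ar_e' ha, e2]
  unfold P45.X
  congr 1
  · refine (oc_rel O.upF ?_ ?_ ?_).symm
    · rintro f ⟨h1, h2⟩
      refine ⟨(O.RP_up P f).2 h1, ?_⟩
      have k := ((O.RP_up P f).2 h1).2
      refine at_ _ _ k ?_ ?_
      · exact (O.π_fy f).trans (congrArg Prod.fst h2)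
      · exact (O.π_fz f).trans (congrArg Prod.snd h2)
    · rintro f' ⟨h1, h2⟩
      obtain ⟨f, hf, rfl⟩ := O.RP_cases P h1
      refine ⟨f, ⟨hf, ?_⟩, 1, one_smul _ _⟩
      have k1 : P45.fy (O.upF f) = T := congrArg Prod.fst h2
      have k2 : P45.fz (O.upF f) = a := congrArg Prod.snd h2
      refine Prod.ext ?_ ?_
      · exact (O.π_fy f).symm.trans (congrArg O.π k1)
      · exact (O.π_fz f).symm.trans (congrArg O.π k2)
    · rintro f - g -
      constructor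
      · rintro ⟨⟨h, hh⟩, e⟩
        refine ⟨⟨h, (O.stab_pair hT ha h).2 hh⟩, ?_⟩
        have e : h • f = g := e
        show h • O.upF f = O.upF g
        rw [← O.upF_smul, e]
      · rintro ⟨⟨h, hh⟩, e⟩
        refine ⟨⟨h, (O.stab_pair hT ha h).1 hh⟩, ?_⟩
        have e : h • O.upF f = O.upF g := e
        rw [← O.upF_smul] at e
        exact O.upF_inj e
  · refine oc_rel O.πw ?_ ?_ ?_
    · rintro p ⟨h1, h2⟩
      refine ⟨O.ZP_π P h1, ?_⟩
      refine Prod.ext ?_ ?_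
      · exact congrArg (fun z => O.π z.1) h2
      · exact congrArg (fun z => O.π z.2) h2
    · rintro p ⟨h1, h2⟩
      obtain ⟨p', hp', rfl⟩ := O.ZP_lift P h1
      refine ⟨p', ⟨hp', ?_⟩, 1, one_smul _ _⟩
      exact at_ _ _ hp'.2.1 (congrArg Prod.fst h2) (congrArg Prod.snd h2)
    · rintro p ⟨hp, -⟩ p' ⟨hp', -⟩
      constructor
      · rintro ⟨⟨h, hh⟩, e⟩
        refine ⟨⟨h, (O.stab_pair hT ha h).1 hh⟩, ?_⟩
        have e : h • p = p' := e
        show h • O.πw p = O.πw p'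
        rw [← O.πw_smul, e]
      · rintro ⟨⟨h, hh⟩, e⟩
        refine ⟨⟨h, (O.stab_pair hT ha h).2 hh⟩, ?_⟩
        have e : h • O.πw p = O.πw p' := e
        rw [← O.πw_smul] at e
        show h • p = p'
        refine O.ZP_inj P hv ?_ hp' e
        exact ⟨hp.1.smul h, O.gx.ar_smul h _ _ hp.2.1, O.gx.ar_smul h _ _ hp.2.2⟩

/-! ### tops -/

theorem Top_π {T a b y : W} (h : (O.p45 P).Top T a b y) :
    P.Top (O.π T) (O.π a) (O.π b) (O.π y) ∨ O.NSq a T b y := by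
  obtain ⟨h1, h2, h3⟩ := h
  rcases O.Q4_π P h1 with k | k | k
  · exact Or.inl ⟨k, O.ar_π h2, O.ar_π h3⟩
  · exact Or.inr k
  · exact absurd h3 (GX.not_both' (NSq.ar O k).1)

theorem Top_new {T a b y : W} (h : O.NSq a T b y) : (O.p45 P).Top T a b y :=
  ⟨O.Q4_new P h, (NSq.ar O h).1, (NSq.ar O h).2.1⟩

theorem Top_lift {T a b y : V} (h : P.Top T a b y) : ∃ T' a' b' y' : W, O.π T' = T ∧ O.π a' = a ∧
    O.π b' = b ∧ O.π y' = y ∧ (O.p45 P).Top T' a' b' y' := by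
  obtain ⟨h1, h2, h3⟩ := h
  obtain ⟨a', T', b', y', rfl, rfl, rfl, rfl, hq⟩ := O.Q4_lift P h1
  exact ⟨T', a', b', y', rfl, rfl, rfl, rfl, hq, O.ar_of_E hq.E1.symm h2, O.ar_of_E hq.E2 h3⟩


/-! ### the opened vertices -/

/-- `x` is opened -/
def Dbl (x : W) : Prop := ∃ y, O.π x = O.π y ∧ x ≠ y

theorem Dbl.smul {O : OpW K W} {x : W} (h : O.Dbl x) (g : H) : O.Dbl (g • x) := by
  obtain ⟨y, h1, h2⟩ := h
  exact ⟨g • y, by rw [O.π_smul, O.π_smul, h1], fun e => h2 (smul_left_cancel g e)⟩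

theorem Dbl.congr {O : OpW K W} {x y : W} (h : O.Dbl x) (e : O.π x = O.π y) : O.Dbl y := by
  obtain ⟨z, h1, h2⟩ := h
  by_cases hy : y = x
  · rw [hy]
    exact ⟨z, h1, h2⟩
  · exact ⟨x, e.symm, hy⟩

theorem not_dbl {x y : W} (h : ¬ O.Dbl x) (e : O.π y = O.π x) : y = x := by
  by_contra hne
  exact h ⟨y, e.symm, fun k => hne k.symm⟩

theorem NT.top {O : OpW K W} {P : P45 K} (hv : O.NT P) {T : W} {a b y : V}
    (h : P.Top (O.π T) a b y) : ¬ O.Dbl T := by
  rintro ⟨y, h1, h2⟩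
  exact hv T y h1 h2 _ _ _ h

theorem NSq.dbl {O : OpW K W} (hj : ∀ j, O.js j ≠ O.jt j) {a T b y : W} (h : O.NSq a T b y) :
    O.Dbl T ∧ T ≠ y := by
  have hp := (NSq.ar O h).2.2.2.2.1
  have hne : T ≠ y := by
    obtain ⟨g, j, h1, h2⟩ := h
    rcases h1 with ⟨rfl, rfl⟩ | ⟨rfl, rfl⟩
    · exact fun e => hj j (smul_left_cancel g e)
    · exact fun e => hj j (smul_left_cancel g e).symm
  exact ⟨⟨y, hp, hne⟩, hne⟩

/-- the arrows over the arrows in `A` -/
def upA (A : Set (V × V)) : Set (W × W) := {p | O.gx.ar p.1 p.2 ∧ (O.π p.1, O.π p.2) ∈ A}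

/-- the arrows over arrows out of vertices which are not opened -/
theorem oc_upA {A : Set (V × V)} (hA : ∀ p ∈ A, K.ar p.1 p.2)
    (hD : ∀ T : W, ∀ a, (O.π T, a) ∈ A → ¬ O.Dbl T) : oc H (O.upA A) = oc H A := by
  refine oc_rel (fun p => (O.π p.1, O.π p.2)) (fun p hp => hp.2) ?_ ?_
  · rintro ⟨T, a⟩ h
    obtain ⟨T', rfl⟩ := O.sur T
    have hT := hA _ h
    refine ⟨(T', O.e (O.π T') a), ⟨O.ar_e T' hT, ?_⟩, 1, ?_⟩
    · rw [O.π_e _ _ hT]
      exact h
    · rw [one_smul, O.π_e _ _ hT]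
  · rintro ⟨T, a⟩ h ⟨T', a'⟩ h'
    have h1 : O.gx.ar T a := h.1
    have h2 : (O.π T, O.π a) ∈ A := h.2
    have h1' : O.gx.ar T' a' := h'.1
    have h2' : (O.π T', O.π a') ∈ A := h'.2
    constructor
    · rintro ⟨g, e⟩
      have e1 : g • T = T' := congrArg Prod.fst e
      have e2 : g • a = a' := congrArg Prod.snd e
      refine ⟨g, Prod.ext ?_ ?_⟩
      · show g • O.π T = O.π T'
        rw [← O.π_smul, e1]
      · show g • O.π a = O.π a'
        rw [← O.π_smul, e2]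
    · rintro ⟨g, e⟩
      have e1 : g • O.π T = O.π T' := congrArg Prod.fst e
      have e2 : g • O.π a = O.π a' := congrArg Prod.snd e
      have e3 : g • T = T' := O.not_dbl (hD T' _ h2') (by rw [O.π_smul, e1])
      refine ⟨g, Prod.ext e3 ?_⟩
      have k := O.gx.ar_smul g _ _ h1
      rw [e3] at k
      have k1 := O.ar_e' k
      rw [O.π_smul, e2, O.ar_e' h1'] at k1
      exact k1.symm

/-- the strands over a set of arrows -/
theorem sX_upA (hv : O.NT P) (A : Set (V × V)) : (O.p45 P).sX (O.upA A) = P.sX A := by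
  unfold P45.sX
  congr 1
  · refine (oc_rel O.upF ?_ ?_ ?_).symm
    · rintro f ⟨h1, h2⟩
      have k := (O.RP_up P f).2 h1
      refine ⟨k, k.2, ?_⟩
      show (O.π (P45.fy (O.upF f)), O.π (P45.fz (O.upF f))) ∈ A
      rw [O.π_fy, O.π_fz]
      exact h2
    · rintro f' ⟨h1, h2⟩
      obtain ⟨f, hf, rfl⟩ := O.RP_cases P h1
      refine ⟨f, ⟨hf, ?_⟩, 1, one_smul _ _⟩
      have h3 : (O.π (P45.fy (O.upF f)), O.π (P45.fz (O.upF f))) ∈ A := h2.2
      rwa [O.π_fy, O.π_fz] at h3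
    · rintro f - g -
      constructor
      · rintro ⟨h, e⟩
        exact ⟨h, by rw [← O.upF_smul, e]⟩
      · rintro ⟨h, e⟩
        exact ⟨h, O.upF_inj (by rw [O.upF_smul, e])⟩
  · refine oc_rel O.πw ?_ ?_ ?_
    · rintro p ⟨h1, h2⟩
      exact ⟨O.ZP_π P h1, h2.2⟩
    · rintro p ⟨h1, h2⟩
      obtain ⟨p', hp', rfl⟩ := O.ZP_lift P h1
      exact ⟨p', ⟨hp', hp'.2.1, h2⟩, 1, one_smul _ _⟩
    · rintro p ⟨hp, -⟩ p' ⟨hp', -⟩
      constructor
      · rintro ⟨h, e⟩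
        exact ⟨h, by rw [← O.πw_smul, e]⟩
      · rintro ⟨h, e⟩
        refine ⟨h, O.ZP_inj P hv ?_ hp' (by rw [O.πw_smul, e])⟩
        exact ⟨hp.1.smul h, O.gx.ar_smul h _ _ hp.2.1, O.gx.ar_smul h _ _ hp.2.2⟩

/-- `Σ (X - 1)` over a set of arrows -/
theorem sm_upA (hv : O.NT P) {A : Set (V × V)} (hA : A ⊆ P.TA) :
    (O.p45 P).sm (O.upA A) = P.sm A := by
  unfold P45.sm
  rw [O.sX_upA P hv, O.oc_upA]
  · intro p hp
    obtain ⟨b, y, h⟩ := hA hp
    exact h.2.1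
  · intro T a h
    obtain ⟨b, y, k⟩ := hA h
    exact hv.top k

/-- the lift of an old top -/
theorem top_at (hv : O.NT P) {T a T' a' : W} {b y : V} (h1 : O.gx.ar T a)
    (h : P.Top (O.π T) (O.π a) b y) (h2 : O.gx.ar T' a') (e1 : O.π T' = O.π T)
    (e2 : O.π a' = O.π a) : T' = T ∧ a' = a := by
  have e3 : T' = T := O.not_dbl (hv.top h) e1
  subst e3
  exact ⟨rfl, by rw [← O.ar_e' h1, ← O.ar_e' h2, e2]⟩

theorem U_upA (hv : O.NT P) : (O.p45 P).U = O.upA P.U := by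
  ext ⟨T, a⟩
  constructor
  · rintro ⟨b, y, h, h1, h2⟩
    have h : (O.p45 P).Top T a b y := h
    have h1 : O.gx.ar a y := h1
    refine ⟨h.2.1, ?_⟩
    rcases O.Top_π P h with k | k
    · exact ⟨O.π b, O.π y, k, O.ar_π h1, O.ar_π h2⟩
    · exact absurd h1 (GX.not_both' (NSq.ar O k).2.2.1)
  · rintro ⟨h1, b, y, h, h2, h3⟩
    have h1 : O.gx.ar T a := h1
    have h : P.Top (O.π T) (O.π a) b y := h
    have h2 : K.ar (O.π a) y := h2
    have h3 : K.ar y b := h3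
    obtain ⟨T', a', b', y', e1, e2, rfl, rfl, k⟩ := O.Top_lift P h
    obtain ⟨eT, ea⟩ := O.top_at P hv h1 h k.2.1 e1 e2
    subst eT
    subst ea
    exact ⟨b', y', k, O.ar_of_E k.Ea h2, O.ar_of_E k.Eb.symm h3⟩

theorem Dm_upA (hv : O.NT P) : (O.p45 P).Dm = O.upA P.Dm := by
  ext ⟨T, a⟩
  constructor
  · rintro ⟨b, y, h, h1, h2⟩
    have h : (O.p45 P).Top T a b y := h
    have h1 : O.gx.ar a y := h1
    refine ⟨h.2.1, ?_⟩
    rcases O.Top_π P h with k | k
    · exact ⟨O.π b, O.π y, k, O.ar_π h1, O.ar_π h2⟩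
    · exact absurd h1 (GX.not_both' (NSq.ar O k).2.2.1)
  · rintro ⟨h1, b, y, h, h2, h3⟩
    have h1 : O.gx.ar T a := h1
    have h : P.Top (O.π T) (O.π a) b y := h
    have h2 : K.ar (O.π a) y := h2
    have h3 : K.ar b y := h3
    obtain ⟨T', a', b', y', e1, e2, rfl, rfl, k⟩ := O.Top_lift P h
    obtain ⟨eT, ea⟩ := O.top_at P hv h1 h k.2.1 e1 e2
    subst eT
    subst ea
    exact ⟨b', y', k, O.ar_of_E k.Ea h2, O.ar_of_E k.Eb h3⟩

theorem U_sub' : P.U ⊆ P.TA := fun _ ⟨b, y, k, _⟩ => ⟨b, y, k⟩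

theorem Dm_sub' : P.Dm ⊆ P.TA := fun _ ⟨b, y, k, _⟩ => ⟨b, y, k⟩

/-- THE UPPER ARROWS OF THE GAMMA TOPS COUNT THE SAME -/
theorem smU_eq (hv : O.NT P) : (O.p45 P).sm (O.p45 P).U = P.sm P.U := by
  rw [O.U_upA P hv, O.sm_upA P hv (U_sub' P)]

/-- THE ARROWS OF THE DIAMOND TOPS COUNT THE SAME -/
theorem smDm_eq (hv : O.NT P) : (O.p45 P).sm (O.p45 P).Dm = P.sm P.Dm := by
  rw [O.Dm_upA P hv, O.sm_upA P hv (Dm_sub' P)]

/-- SIGMA DOES NOT CHANGE -/
theorem sigma_eq (hv : O.NT P) : (O.p45 P).sigma = P.sigma := by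
  unfold P45.sigma
  rw [O.smU_eq P hv, O.smDm_eq P hv]

/-! ### the class relative to the opened vertices -/

/-- at most two vertices over a vertex -/
def Bi : Prop := ∀ x y z : W, O.π x = O.π y → O.π y = O.π z → x = y ∨ y = z ∨ x = z

/-- the new squares of different indices have different orbits of tops -/
def Js : Prop := ∀ (j j' : O.J) (h : H), (h • O.js j = O.js j' ∨ h • O.js j = O.jt j' ∨
  h • O.jt j = O.js j' ∨ h • O.jt j = O.jt j') → j = j'

theorem tp_inl {i : K.I} (hi : P.sq i) (j : Fin 4) : (O.p45 P).tp (Sum.inl i) j ↔ P.tp i j := by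
  have key : ∀ a b : Fin 4, O.gx.E ((O.p45 P).qt (Sum.inl i) a) ((O.p45 P).qt (Sum.inl i) b) →
      (O.gx.ar ((O.p45 P).qt (Sum.inl i) a) ((O.p45 P).qt (Sum.inl i) b) ↔
        K.ar (P.qt i a) (P.qt i b)) := by
    intro a b h
    rw [O.ar_iff h, O.π_qt P hi, O.π_qt P hi]
  have q := Q4_qt (P := O.p45 P) (1 : H) (i := Sum.inl i) hi j
  simp only [one_smul] at q
  have e3 : j + 3 + 1 = j := by
    fin_cases j <;> rfl
  refine and_congr (key _ _ q.E1) (key _ _ ?_)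
  exact q.E4.symm


theorem qt_inr (j : O.J) : (O.p45 P).qt (Sum.inr j) 0 = O.e (O.π (O.js j)) (O.ja j) ∧
    (O.p45 P).qt (Sum.inr j) 1 = O.js j ∧
    (O.p45 P).qt (Sum.inr j) 2 = O.e (O.π (O.js j)) (O.jb j) ∧
    (O.p45 P).qt (Sum.inr j) 3 = O.jt j := ⟨rfl, rfl, rfl, rfl⟩

theorem tp_inr (j : O.J) : (O.p45 P).tp (Sum.inr j) 1 := by
  have h := O.sq_ar j (1 : H)
  simp only [one_smul] at h
  exact ⟨h.2.1, h.1⟩

theorem tp_inr_cases {j : O.J} {k : Fin 4} (h : (O.p45 P).tp (Sum.inr j) k) :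
    (O.p45 P).qt (Sum.inr j) k = O.js j ∨ (O.p45 P).qt (Sum.inr j) k = O.jt j := by
  have q := O.sq_ar j (1 : H)
  simp only [one_smul] at q
  obtain ⟨h1, h2⟩ := h
  fin_cases k
  · exact absurd h1 (GX.not_both' q.1)
  · exact Or.inl rfl
  · exact absurd h1 (GX.not_both' q.2.2.2)
  · exact Or.inr rfl

theorem tp_top {i : K.I} (hi : P.sq i) {j : Fin 4} (h : P.tp i j) :
    P.Top (P.qt i j) (P.qt i (j + 3)) (P.qt i (j + 1)) (P.qt i (j + 2)) := by
  refine ⟨?_, h.2, h.1⟩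
  have q := Q4_qt (P := P) (1 : H) (i := i) hi j
  simp only [one_smul] at q
  exact q.rot.rot.rot

/-- every square of the opened complex has a top -/
theorem sq_top (ht : ∀ i, P.sq i → ∃ j, P.tp i j) (i : O.gx.I) (hi : (O.p45 P).sq i) :
    ∃ j, (O.p45 P).tp i j := by
  rcases i with i | j
  · obtain ⟨k, hk⟩ := ht i hi
    exact ⟨k, (O.tp_inl P hi k).2 hk⟩
  · exact ⟨1, O.tp_inr P j⟩

/-- a top of an old square is not opened -/
theorem tp_ndbl (hv : O.NT P) {i : K.I} (hi : P.sq i) {k : Fin 4} (h : P.tp i k) :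
    ¬ O.Dbl ((O.p45 P).qt (Sum.inl i) k) := by
  have k1 := tp_top P hi h
  rw [← O.π_qt P hi k] at k1
  exact hv.top k1

/-- one orbit of squares for every top -/
theorem sq_one (hv : O.NT P) (hj : ∀ j, O.js j ≠ O.jt j) (hJ : O.Js)
    (h1 : ∀ i i', P.sq i → P.sq i' → ∀ j j', P.tp i j → P.tp i' j' →
      ∀ h : H, h • P.qt i j = P.qt i' j' → i = i')
    (i i' : O.gx.I) (hi : (O.p45 P).sq i) (hi' : (O.p45 P).sq i') (k k' : Fin 4)
    (hk : (O.p45 P).tp i k) (hk' : (O.p45 P).tp i' k') (h : H)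
    (e : h • (O.p45 P).qt i k = (O.p45 P).qt i' k') : i = i' := by
  have hdj : ∀ (j : O.J) (k : Fin 4), (O.p45 P).tp (Sum.inr j) k →
      O.Dbl ((O.p45 P).qt (Sum.inr j) k) := by
    intro j k hk
    rcases O.tp_inr_cases P hk with q | q
    · rw [q]
      exact ⟨O.jt j, (O.j_eq j).symm, hj j⟩
    · rw [q]
      exact ⟨O.js j, O.j_eq j, (hj j).symm⟩
  rcases i with i | j <;> rcases i' with i' | j'
  · have hi : P.sq i := hi
    have hi' : P.sq i' := hi'
    have e' := congrArg O.π e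
    rw [O.π_smul, O.π_qt P hi, O.π_qt P hi'] at e'
    rw [h1 i i' hi hi' k k' ((O.tp_inl P hi k).1 hk) ((O.tp_inl P hi' k').1 hk') h e']
  · have hi : P.sq i := hi
    have n1 := O.tp_ndbl P hv hi ((O.tp_inl P hi k).1 hk)
    have n2 := (hdj j' k' hk').smul h⁻¹
    rw [← e, inv_smul_smul] at n2
    exact absurd n2 n1
  · have hi' : P.sq i' := hi'
    have n1 := O.tp_ndbl P hv hi' ((O.tp_inl P hi' k').1 hk')
    have n2 := (hdj j k hk).smul h
    rw [e] at n2
    exact absurd n2 n1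
  · congr 1
    refine hJ j j' h ?_
    rcases O.tp_inr_cases P hk with q | q <;> rcases O.tp_inr_cases P hk' with q' | q' <;>
      rw [q, q'] at e
    · exact Or.inl e
    · exact Or.inr (Or.inl e)
    · exact Or.inr (Or.inr (Or.inl e))
    · exact Or.inr (Or.inr (Or.inr e))

/-- the vertices which are opened or in `E0` -/
def EE (E0 : V → Prop) (x : W) : Prop := O.Dbl x ∨ E0 (O.π x)

/-- the partner is unique, except at the opened vertices -/
theorem sq_par {E0 : V → Prop} (hs : P.SqE E0) (hj : ∀ j, O.js j ≠ O.jt j)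
    (hp : ∀ T a b y a' b' y', P.Top T a b y → P.Top T a' b' y' → E0 T ∨ y = y')
    {T a b y a' b' y' : W}
    (h : (O.p45 P).Top T a b y) (h' : (O.p45 P).Top T a' b' y') : O.EE E0 T ∨ y = y' := by
  by_cases hd : O.Dbl T
  · exact Or.inl (Or.inl hd)
  by_cases hE : E0 (O.π T)
  · exact Or.inl (Or.inr hE)
  right
  rcases O.Top_π P h with k | k
  · rcases O.Top_π P h' with k' | k'
    · have e := (hp _ _ _ _ _ _ _ k k').resolve_left hE
      -- a side with an arrow to the partner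
      have key : ∀ a b y a' b' y' : W, (O.p45 P).Top T a b y → (O.p45 P).Top T a' b' y' →
          P.Top (O.π T) (O.π a') (O.π b') (O.π y') →
          O.π y = O.π y' → K.ar (O.π a) (O.π y) → y = y' := by
        intro a b y a' b' y' h h' k' e hay
        have l1 := O.ar_of_E h.Ea hay
        have e1 : a = a' ∨ a = b' := by
          rcases O.gx.two _ _ _ _ h.2.1 h'.2.1 h'.2.2 with q | q | q
          · exact Or.inl q
          · exact absurd (congrArg O.π q) (hs.nab _ _ _ _ k')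
          · exact Or.inr q
        rcases e1 with rfl | rfl
        · have l2 := O.ar_of_E h'.Ea (by rw [← e]; exact hay)
          rw [← O.ar_e' l1, ← O.ar_e' l2, e]
        · have l2 := O.ar_of_E h'.Eb (by rw [← e]; exact hay)
          rw [← O.ar_e' l1, ← O.ar_e' l2, e]
      rcases hs.side _ _ _ _ k with q | q | q
      · exact absurd q hE
      · exact key a b y a' b' y' h h' k' e q
      · exact key b a y a' b' y' h.symm' h' k' e q
    · exact absurd (NSq.dbl hj k').1 hd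
  · exact absurd (NSq.dbl hj k).1 hd

theorem sq_side {E0 : V → Prop} (hs : P.SqE E0) (hj : ∀ j, O.js j ≠ O.jt j) {T a b y : W}
    (h : (O.p45 P).Top T a b y) : O.EE E0 T ∨ O.gx.ar a y ∨ O.gx.ar b y := by
  rcases O.Top_π P h with k | k
  · rcases hs.side _ _ _ _ k with q | q | q
    · exact Or.inl (Or.inr q)
    · exact Or.inr (Or.inl (O.ar_of_E h.Ea q))
    · exact Or.inr (Or.inr (O.ar_of_E h.Eb q))
  · exact Or.inl (Or.inl (NSq.dbl hj k).1)

theorem sq_Ey {E0 : V → Prop} (hs : P.SqE E0) (hv : O.NT P) (hj : ∀ j, O.js j ≠ O.jt j)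
    {T a b y : W} (h : (O.p45 P).Top T a b y) (hE : O.EE E0 T) : O.EE E0 y := by
  rcases O.Top_π P h with k | k
  · rcases hE with q | q
    · exact absurd q (hv.top k)
    · exact Or.inr (hs.Ey _ _ _ _ k q)
  · exact Or.inl ((NSq.dbl hj k).1.congr (NSq.ar O k).2.2.2.2.1)

theorem sq_nab {E0 : V → Prop} (hs : P.SqE E0) {T a b y : W}
    (h : (O.p45 P).Top T a b y) : a ≠ b := by
  intro e
  rcases O.Top_π P h with k | k
  · exact hs.nab _ _ _ _ k (congrArg O.π e)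
  · exact (NSq.ar O k).2.2.2.2.2 (congrArg O.π e)

theorem sq_nTy {E0 : V → Prop} (hs : P.SqE E0) (hj : ∀ j, O.js j ≠ O.jt j) {T a b y : W}
    (h : (O.p45 P).Top T a b y) : T ≠ y := by
  intro e
  rcases O.Top_π P h with k | k
  · exact hs.nTy _ _ _ _ k (congrArg O.π e)
  · exact (NSq.dbl hj k).2 e

theorem sq_Es {E0 : V → Prop} (hs : P.SqE E0) (h : H) (x : W) (hx : O.EE E0 x) :
    O.EE E0 (h • x) := by
  rcases hx with q | q
  · exact Or.inl (q.smul h)
  · right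
    rw [O.π_smul]
    exact hs.Es h _ q

end OpW

end Pool.Agent.DI
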