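import Pool.Agent.DI.OpnZ
import Pool.Agent.DI.FCb

/-!
# The opening does not change the pole excess (all cells free)

`O : OpW K W`, `O.Tw`: two vertices over the same vertex have two poles. `pexc_eq : O.gx.pexc = K.pexc`.
`Pc_π`, `Pc_inj`: the pieces of `O.gx` are the pieces of `K`. The same for `OpD.opn`, `OpD.opp`.
-/

namespace Pool.Agent.DI

open MulAction
open Pool.Agent.SAF (InC orbs FinOrb oc mk_eq_iff FinOrb_iff)

namespace OpW

variable {H V W : Type} [Group H] [MulAction H V] [MulAction H W] {K : GX H V} (O : OpW K W)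

/-- two vertices over the same vertex have two poles -/
def Tw : Prop := ∀ x y : W, O.π x = O.π y → x ≠ y → ∃ a b, a ≠ b ∧ K.ar (O.π x) a ∧ K.ar (O.π x) b

/-- the vertices of a new square -/
theorem vx_inr (j : O.J) : O.gx.vx (Sum.inr j) 0 = O.e (O.π (O.js j)) (O.ja j) ∧
    O.gx.vx (Sum.inr j) 1 = O.js j ∧ O.gx.vx (Sum.inr j) 2 = O.e (O.π (O.js j)) (O.jb j) ∧
    O.gx.vx (Sum.inr j) 3 = O.jt j := by
  have hl := O.gx_len_inr j
  refine ⟨?_, ?_, ?_, ?_⟩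
  · rw [O.gx.vx_of_le (by omega)]
    rfl
  · rw [O.gx.vx_of_le (by omega)]
    rfl
  · rw [O.gx.vx_of_le (by omega)]
    rfl
  · rw [O.gx.vx_of_le (by omega)]
    rfl

/-- the arrows of a new square -/
theorem sq_ar (j : O.J) (h : H) : O.gx.ar (h • O.js j) (h • O.e (O.π (O.js j)) (O.ja j)) ∧
    O.gx.ar (h • O.js j) (h • O.e (O.π (O.js j)) (O.jb j)) ∧
    O.gx.ar (h • O.jt j) (h • O.e (O.π (O.js j)) (O.ja j)) ∧
    O.gx.ar (h • O.jt j) (h • O.e (O.π (O.js j)) (O.jb j)) := by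
  have h1 := O.ar_e (O.js j) (O.j_a j)
  have h2 := O.ar_e (O.js j) (O.j_b j)
  have h3 := O.ar_e (O.jt j) (a := O.ja j) (by rw [O.j_eq]; exact O.j_a j)
  have h4 := O.ar_e (O.jt j) (a := O.jb j) (by rw [O.j_eq]; exact O.j_b j)
  rw [O.j_eq] at h3 h4
  exact ⟨O.gx.ar_smul h _ _ h1, O.gx.ar_smul h _ _ h2, O.gx.ar_smul h _ _ h3,
    O.gx.ar_smul h _ _ h4⟩

/-- the corners of a new square -/
theorem new_pos (j : O.J) (k : Fin (O.gx.len (Sum.inr j))) (h : H) (e' : O.gx.LE)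
    (he : e' = (⟨Sum.inr j, k⟩, h)) :
    (O.gx.ar (O.gx.c0 e') (O.gx.c1 e') ∧ O.gx.ar (O.gx.c2 e') (O.gx.c1 e') ∧
      O.π (O.gx.c0 e') = O.π (O.gx.c2 e')) ∨
    (O.gx.ar (O.gx.c1 e') (O.gx.c0 e') ∧ O.gx.ar (O.gx.c1 e') (O.gx.c2 e')) := by
  subst he
  have hl := O.gx_len_inr j
  obtain ⟨v0, v1, v2, v3⟩ := O.vx_inr j
  have v4 : O.gx.vx (Sum.inr j) 4 = O.gx.vx (Sum.inr j) 0 := by
    rw [← O.gx.vx_mod (Sum.inr j) 4, hl]
  have v5 : O.gx.vx (Sum.inr j) 5 = O.gx.vx (Sum.inr j) 1 := by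
    rw [← O.gx.vx_mod (Sum.inr j) 5, hl]
  obtain ⟨a1, a2, a3, a4⟩ := O.sq_ar j h
  have c0 : ∀ n, k.1 = n → O.gx.c0 ((⟨Sum.inr j, k⟩, h) : O.gx.LE) =
      h • O.gx.vx (Sum.inr j) n := by
    rintro n rfl
    rfl
  have c1 : ∀ n, k.1 = n → O.gx.c1 ((⟨Sum.inr j, k⟩, h) : O.gx.LE) =
      h • O.gx.vx (Sum.inr j) (n + 1) := by
    rintro n rfl
    rfl
  have c2 : ∀ n, k.1 = n → O.gx.c2 ((⟨Sum.inr j, k⟩, h) : O.gx.LE) =
      h • O.gx.vx (Sum.inr j) (n + 2) := by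
    rintro n rfl
    rfl
  have hk : k.1 < 4 := lt_of_lt_of_eq k.2 hl
  have hk' : k.1 = 0 ∨ k.1 = 1 ∨ k.1 = 2 ∨ k.1 = 3 := by omega
  have hp : O.π (h • O.js j) = O.π (h • O.jt j) := by
    rw [O.π_smul, O.π_smul, O.j_eq]
  rcases hk' with q | q | q | q
  · right
    rw [c0 _ q, c1 _ q, c2 _ q, v0, v1, v2]
    exact ⟨a1, a2⟩
  · left
    rw [c0 _ q, c1 _ q, c2 _ q, v1, v2, v3]
    exact ⟨a2, a4, hp⟩
  · right
    rw [c0 _ q, c1 _ q, c2 _ q, v2, v3, v4, v0]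
    exact ⟨a4, a3⟩
  · left
    rw [c0 _ q, c1 _ q, c2 _ q, v3, v4, v5, v0, v1]
    exact ⟨a3, a1, hp.symm⟩

/-- the positions -/
theorem LE_cases (e' : O.gx.LE) : (∃ e, e' = O.up e) ∨
    ∃ (j : O.J) (k : Fin (O.gx.len (Sum.inr j))) (h : H), e' = (⟨Sum.inr j, k⟩, h) := by
  obtain ⟨⟨i | j, k⟩, h⟩ := e'
  · left
    refine ⟨(⟨i, Fin.cast (O.gx_len_inl i) k⟩, h), ?_⟩
    rfl
  · exact Or.inr ⟨j, k, h, rfl⟩

/-- the image of a corner -/
theorem Cor_π {a y b : W} (h : O.gx.Cor a y b) : K.Cor (O.π a) (O.π y) (O.π b) ∨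
    (O.gx.ar a y ∧ O.gx.ar b y ∧ O.π a = O.π b) ∨ (O.gx.ar y a ∧ O.gx.ar y b) := by
  obtain ⟨e', he'⟩ := O.gx.cor_LE.1 h
  rcases O.LE_cases e' with ⟨e, rfl⟩ | ⟨j, k, g, he⟩
  · left
    refine K.cor_LE.2 ⟨e, ?_⟩
    rw [← O.π_up0, ← O.π_up1, ← O.π_up2]
    rcases he' with ⟨rfl, rfl, rfl⟩ | ⟨rfl, rfl, rfl⟩
    · exact Or.inl ⟨rfl, rfl, rfl⟩
    · exact Or.inr ⟨rfl, rfl, rfl⟩
  · right
    have := O.new_pos j k g e' he
    rcases he' with ⟨rfl, rfl, rfl⟩ | ⟨rfl, rfl, rfl⟩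
    · exact this
    · rcases this with ⟨h1, h2, h3⟩ | ⟨h1, h2⟩
      · exact Or.inl ⟨h2, h1, h3.symm⟩
      · exact Or.inr ⟨h2, h1⟩

theorem Cor_up (e : K.LE) : O.gx.Cor (O.gx.c0 (O.up e)) (O.gx.c1 (O.up e)) (O.gx.c2 (O.up e)) :=
  O.gx.cor_c _

/-- a corner has a lift -/
theorem Cor_lift {a y b : V} (h : K.Cor a y b) : ∃ a' y' b', O.π a' = a ∧ O.π y' = y ∧
    O.π b' = b ∧ O.gx.Cor a' y' b' := by
  obtain ⟨e, ⟨h0, h1, h2⟩ | ⟨h0, h1, h2⟩⟩ := K.cor_LE.1 h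
  · exact ⟨_, _, _, (O.π_up0 e).trans h0, (O.π_up1 e).trans h1, (O.π_up2 e).trans h2, O.Cor_up e⟩
  · exact ⟨_, _, _, (O.π_up2 e).trans h2, (O.π_up1 e).trans h1, (O.π_up0 e).trans h0,
      (O.Cor_up e).symm⟩

theorem IJ_π {y a b : W} (h : O.gx.IJ y a b) : K.IJ (O.π y) (O.π a) (O.π b) := by
  induction h with
  | rel a b h =>
    obtain ⟨hc, ha, hb⟩ := h
    rcases O.Cor_π hc with h | ⟨-, -, h⟩ | ⟨h, -⟩
    · exact Relation.EqvGen.rel _ _ ⟨h, O.ar_π ha, O.ar_π hb⟩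
    · rw [h]
      exact Relation.EqvGen.refl _
    · exact absurd h (GX.not_both' ha)
  | refl a => exact Relation.EqvGen.refl _
  | symm a b _ ih => exact ih.symm
  | trans a b c _ _ ih1 ih2 => exact ih1.trans _ _ _ ih2

/-- the new squares join the vertices over the same vertex -/
theorem fib (ht : O.Tw) {x y z : W} (hx : O.gx.ar x y) (hz : O.gx.ar z y) (e : O.π x = O.π z) :
    O.gx.IJ y x z := by
  by_cases hne : x = z
  · rw [hne]
    exact Relation.EqvGen.refl _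
  obtain ⟨a, b, hab, ha, hb⟩ := ht x z e hne
  have key : ∀ x z : W, Relation.EqvGen (fun x y => ∃ (j : O.J) (h : H), h • O.js j = x ∧
      h • O.jt j = y) x z → O.π x = O.π z ∧ (O.gx.ar x y → O.gx.IJ y x z) := by
    intro x z h
    induction h with
    | rel x z h =>
      obtain ⟨j, g, rfl, rfl⟩ := h
      have hp : O.π (g • O.js j) = O.π (g • O.jt j) := by rw [O.π_smul, O.π_smul, O.j_eq]
      refine ⟨hp, fun k => Relation.EqvGen.rel _ _ ⟨?_, k, O.ar_congr k hp⟩⟩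
      obtain ⟨a1, a2, a3, a4⟩ := O.sq_ar j g
      obtain ⟨v0, v1, v2, v3⟩ := O.vx_inr j
      have hl := O.gx_len_inr j
      have hy : y = g • O.e (O.π (O.js j)) (O.ja j) ∨ y = g • O.e (O.π (O.js j)) (O.jb j) := by
        rcases O.gx.two _ _ _ _ k a1 a2 with q | q | q
        · exact Or.inl q
        · exfalso
          have q' := smul_left_cancel g q
          have q2 := congrArg O.π q'
          rw [O.π_e _ _ (O.j_a j), O.π_e _ _ (O.j_b j)] at q2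
          exact O.j_ab j q2
        · exact Or.inr q
      rcases hy with rfl | rfl
      · -- the corner `jt, ea, js`
        refine O.gx.cor_LE.2 ⟨(⟨Sum.inr j, ⟨3, by omega⟩⟩, g), Or.inr ⟨?_, ?_, ?_⟩⟩
        · show g • O.gx.vx (Sum.inr j) 3 = _
          rw [v3]
        · show g • O.gx.vx (Sum.inr j) 4 = _
          rw [← O.gx.vx_mod (Sum.inr j) 4, hl]
          show g • O.gx.vx (Sum.inr j) 0 = _
          rw [v0]
        · show g • O.gx.vx (Sum.inr j) 5 = _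
          rw [← O.gx.vx_mod (Sum.inr j) 5, hl]
          show g • O.gx.vx (Sum.inr j) 1 = _
          rw [v1]
      · refine O.gx.cor_LE.2 ⟨(⟨Sum.inr j, ⟨1, by omega⟩⟩, g), Or.inl ⟨?_, ?_, ?_⟩⟩
        · show g • O.gx.vx (Sum.inr j) 1 = _
          rw [v1]
        · show g • O.gx.vx (Sum.inr j) 2 = _
          rw [v2]
        · show g • O.gx.vx (Sum.inr j) 3 = _
          rw [v3]
    | refl x => exact ⟨rfl, fun _ => Relation.EqvGen.refl _⟩
    | symm x z _ ih =>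
      exact ⟨ih.1.symm, fun k => (ih.2 (O.ar_congr k ih.1.symm)).symm'⟩
    | trans x z w _ _ h1 h2 =>
      exact ⟨h1.1.trans h2.1, fun k => (h1.2 k).trans' (h2.2 (O.ar_congr k h1.1))⟩
  exact (key x z (O.cov x z e a b ha hb hab)).2 hx

theorem IJ_lift (ht : O.Tw) {y a b : V} (h : K.IJ y a b) :
    (K.ar a y → O.e a y = O.e b y) ∧
    ∀ y' a' b', O.π y' = y → O.π a' = a → O.π b' = b → O.gx.ar a' y' → O.gx.ar b' y' →
      O.gx.IJ y' a' b' := by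
  induction h with
  | rel a b h =>
    obtain ⟨hc, ha, hb⟩ := h
    obtain ⟨a1, y1, b1, e1, e2, e3, hc'⟩ := O.Cor_lift hc
    have k1 : O.gx.ar a1 y1 := O.ar_of_E hc'.E1.symm (by rw [e1, e2]; exact ha)
    have k2 : O.gx.ar b1 y1 := O.ar_of_E hc'.E2.symm (by rw [e3, e2]; exact hb)
    have l1 := O.ar_e' k1
    have l2 := O.ar_e' k2
    rw [e1, e2] at l1
    rw [e3, e2] at l2
    refine ⟨fun _ => l1.trans l2.symm, ?_⟩
    intro y' a' b' f1 f2 f3 f4 f5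
    have l3 := O.ar_e' f4
    rw [f2, f1] at l3
    have hy : y1 = y' := l1.symm.trans l3
    subst hy
    exact ((O.fib ht f4 k1 (f2.trans e1.symm)).trans'
      (Relation.EqvGen.rel _ _ ⟨hc', k1, k2⟩)).trans' (O.fib ht k2 f5 (e3.trans f3.symm))
  | refl a =>
    refine ⟨fun _ => rfl, ?_⟩
    intro y' a' b' f1 f2 f3 f4 f5
    exact O.fib ht f4 f5 (f2.trans f3.symm)
  | symm a b h ih =>
    refine ⟨fun ha => (ih.1 ((GX.IJ.ar h).2 ha)).symm, ?_⟩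
    intro y' a' b' f1 f2 f3 f4 f5
    exact (ih.2 y' b' a' f1 f3 f2 f5 f4).symm'
  | trans a b c h1 h2 ih1 ih2 =>
    refine ⟨fun ha => (ih1.1 ha).trans (ih2.1 ((GX.IJ.ar h1).1 ha)), ?_⟩
    intro y' a' c' f1 f2 f3 f4 f5
    obtain ⟨b', hb'⟩ := O.sur b
    have ha : K.ar a y := by
      have := O.ar_π f4
      rwa [f2, f1] at this
    have l3 := O.ar_e' f4
    rw [f2, f1] at l3
    have hb : O.gx.ar b' y' := by
      refine ⟨?_, ?_⟩
      · rw [hb', f1]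
        exact (GX.IJ.ar h1).1 ha
      · rw [hb', f1, ← ih1.1 ha, l3]
    exact (ih1.2 y' a' b' f1 f2 hb' f4 hb).trans' (ih2.2 y' b' c' f1 hb' f3 hb f5)

/-- THE IMAGE OF A PIECE IS A PIECE -/
theorem Pc_π (ht : O.Tw) {y n : W} (h : O.gx.ar n y) :
    O.π '' O.gx.Pc y n = K.Pc (O.π y) (O.π n) := by
  ext m
  constructor
  · rintro ⟨m', hm', rfl⟩
    exact O.IJ_π hm'
  · intro hm
    have hm : K.IJ (O.π y) (O.π n) m := hm
    obtain ⟨m', rfl⟩ := O.sur m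
    refine ⟨m', ?_, rfl⟩
    have k := O.IJ_lift ht hm
    have hm' : O.gx.ar m' y :=
      ⟨(GX.IJ.ar hm).1 (O.ar_π h), by rw [← k.1 (O.ar_π h)]; exact O.ar_e' h⟩
    exact k.2 y n m' rfl rfl rfl h hm'

/-- A PIECE IS DETERMINED BY ITS IMAGE -/
theorem Pc_inj (ht : O.Tw) {y y' n n' : W} (h : O.gx.ar n y) (h' : O.gx.ar n' y')
    (e : O.π y = O.π y') (e' : O.π '' O.gx.Pc y n = O.π '' O.gx.Pc y' n') :
    y = y' ∧ O.gx.Pc y n = O.gx.Pc y' n' := by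
  have h1 : O.π n ∈ O.π '' O.gx.Pc y' n' := by
    rw [← e']
    exact ⟨n, GX.self_Pc y n, rfl⟩
  obtain ⟨m, hm, h2⟩ := h1
  have hm : O.gx.IJ y' n' m := hm
  have h3 : O.gx.ar m y' := (GX.IJ.ar hm).1 h'
  have h4 : y = y' := by
    rw [← O.ar_e' h, ← O.ar_e' h3, e, h2]
  subst h4
  refine ⟨rfl, GX.Pc_eq.2 ?_⟩
  exact (O.fib ht h h3 h2.symm).trans' hm.symm'

/-- the strands -/
theorem strs_up : oc H O.gx.strs = oc H K.strs := by
  refine (oc_bij K.fin_strs O.gx.fin_strs K.strs_inv O.up (fun h e _ => O.up_smul h e) ?_ ?_ ?_).symm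
  · intro e he
    refine he.imp ?_ ?_
    · rintro ⟨h1, h2⟩
      exact ⟨OZ.ar_up01 e |>.2 h1, OZ.ar_up12 e |>.2 h2⟩
    · rintro ⟨h1, h2⟩
      exact ⟨OZ.ar_up21 e |>.2 h1, OZ.ar_up10 e |>.2 h2⟩
  · intro e' he'
    rcases O.LE_cases e' with ⟨e, rfl⟩ | ⟨j, k, g, he⟩
    · refine ⟨e, ?_, rfl⟩
      refine he'.imp ?_ ?_
      · rintro ⟨h1, h2⟩
        exact ⟨(OZ.ar_up01 e).1 h1, (OZ.ar_up12 e).1 h2⟩
      · rintro ⟨h1, h2⟩
        exact ⟨(OZ.ar_up21 e).1 h1, (OZ.ar_up10 e).1 h2⟩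
    · exfalso
      rcases O.new_pos j k g e' he with ⟨h1, h2, -⟩ | ⟨h1, h2⟩
      · rcases he' with ⟨-, q⟩ | ⟨-, q⟩
        · exact GX.not_both' q h2
        · exact GX.not_both' q h1
      · rcases he' with ⟨q, -⟩ | ⟨q, -⟩
        · exact GX.not_both' q h1
        · exact GX.not_both' q h2
  · exact fun a _ b _ e => O.up_inj e

/-- the projection of the nodes -/
def gP (t : PN W) : PN V := match t with
  | PN.inn y n => PN.inn (O.π y) (O.π n)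
  | PN.pol y a C => PN.pol (O.π y) (O.π a) (O.π '' C)

theorem gP_smul (h : H) (t : PN W) : O.gP (h • t) = h • O.gP t := by
  cases t with
  | inn y n =>
    show PN.inn (O.π (h • y)) (O.π (h • n)) = _
    rw [O.π_smul, O.π_smul]
    rfl
  | pol y a C =>
    show PN.pol (O.π (h • y)) (O.π (h • a)) (O.π '' ((fun x => h • x) '' C)) = _
    rw [O.π_smul, O.π_smul, OZ.im_smul]
    rfl

/-- the private poles -/
theorem pols_up (ht : O.Tw) : oc H O.gx.pols = oc H K.pols := by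
  refine oc_bij O.gx.fin_pols K.fin_pols O.gx.pols_inv O.gP (fun h t _ => O.gP_smul h t) ?_ ?_ ?_
  · rintro _ ⟨y, a, n, rfl, h1, h2, h3⟩
    refine ⟨O.π y, O.π a, O.π n, ?_, O.ar_π h1, O.ar_π h2, ?_⟩
    · show PN.pol (O.π y) (O.π a) (O.π '' O.gx.Pc y n) = _
      rw [O.Pc_π ht h2]
    · rcases O.Cor_π h3 with k | ⟨k, -, -⟩ | ⟨-, k⟩
      · exact k
      · exact absurd h1 (GX.not_both' k)
      · exact absurd h2 (GX.not_both' k)
  · rintro _ ⟨y, a, n, rfl, h1, h2, h3⟩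
    obtain ⟨a', y', n', rfl, rfl, rfl, hc⟩ := O.Cor_lift h3
    have k1 := O.ar_of_E hc.E1 h1
    have k2 := O.ar_of_E hc.E2.symm h2
    refine ⟨_, ⟨y', a', n', rfl, k1, k2, hc⟩, ?_⟩
    show PN.pol (O.π y') (O.π a') (O.π '' O.gx.Pc y' n') = _
    rw [O.Pc_π ht k2]
  · rintro _ ⟨y, a, n, rfl, h1, h2, h3⟩ _ ⟨y', a', n', rfl, h1', h2', h3'⟩ e
    obtain ⟨e1, e2, e3⟩ := PN.pol.inj (show PN.pol (O.π y) (O.π a) (O.π '' O.gx.Pc y n) =
      PN.pol (O.π y') (O.π a') (O.π '' O.gx.Pc y' n') from e)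
    obtain ⟨rfl, e4⟩ := O.Pc_inj ht h2 h2' e1 e3
    have e5 : a = a' := by
      rw [← O.ar_e' h1, ← O.ar_e' h1', e2]
    rw [e5, e4]

/-- THE OPENING DOES NOT CHANGE THE POLE EXCESS -/
theorem pexc_eq (ht : O.Tw) : O.gx.pexc = K.pexc := by
  unfold GX.pexc
  rw [O.strs_up, O.pols_up ht]

/-- the groups of the pieces: an element keeps a piece iff it keeps the vertex and the image -/
theorem grp_piece (ht : O.Tw) {y n : W} (h : O.gx.ar n y) {j : H} :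
    (j • y = y ∧ O.gx.IJ y n (j • n)) ↔ (j • O.π y = O.π y ∧ K.IJ (O.π y) (O.π n) (j • O.π n)) := by
  constructor
  · rintro ⟨h1, h2⟩
    refine ⟨?_, ?_⟩
    · rw [← O.π_smul, h1]
    · rw [← O.π_smul]
      exact O.IJ_π h2
  · rintro ⟨h1, h2⟩
    have h3 := O.IJ_lift ht h2
    have hn := O.ar_π h
    have hy : j • y = y := by
      have e1 := O.ar_e' h
      have e2 := h3.1 hn
      have e3 := O.e_smul j _ _ hn
      rw [h1] at e3
      rw [← e1, ← e3, ← e2]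
    refine ⟨hy, ?_⟩
    have hj : O.gx.ar (j • n) y := by
      have := O.gx.ar_smul j _ _ h
      rwa [hy] at this
    exact h3.2 y n (j • n) rfl rfl (O.π_smul j n) h hj

end OpW

namespace OpD

variable {H V : Type} [Group H] [MulAction H V] {K : GX H V} (O : OpD K)

theorem opn_Tw (ch : K.I → ℕ → O.W) (hch : ∀ i j, ch i (j + K.len i) = ch i j)
    (hπ : ∀ i j, O.π (ch i j) = K.vx i j) : (O.opn ch hch hπ).Tw := by
  intro x y h hne
  obtain ⟨g, rfl, rfl⟩ := O.two_over h hne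
  exact ⟨g • O.a, g • O.b, fun e => O.ab (smul_left_cancel g e), K.ar_smul g _ _ O.va,
    K.ar_smul g _ _ O.vb⟩

theorem opp_Tw (ch : K.I → ℕ → V ⊕ (H ⧸ O.D)) (hch : ∀ i j, ch i (j + K.len i) = ch i j)
    (hπ : ∀ i j, O.πp (ch i j) = K.vx i j) : (O.opp ch hch hπ).Tw := by
  intro x y h hne
  have key : ∀ s : H ⧸ O.D, ∃ a b, a ≠ b ∧ K.ar (O.q s) a ∧ K.ar (O.q s) b := by
    intro s
    induction s using QuotientGroup.induction_on with
    | _ g =>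
      exact ⟨g • O.a, g • O.b, fun e => O.ab (smul_left_cancel g e), K.ar_smul g _ _ O.va,
        K.ar_smul g _ _ O.vb⟩
  have h : O.πp x = O.πp y := h
  show ∃ a b, a ≠ b ∧ K.ar (O.πp x) a ∧ K.ar (O.πp x) b
  rcases x with x | s
  · rcases y with y | t
    · exact absurd (congrArg Sum.inl h) hne
    · rw [h]
      exact key t
  · exact key s

/-- `K°` and `K⁺` have the same pole excess as `K` -/
theorem opn_pexc (ch : K.I → ℕ → O.W) (hch : ∀ i j, ch i (j + K.len i) = ch i j)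
    (hπ : ∀ i j, O.π (ch i j) = K.vx i j) : (O.opn ch hch hπ).gx.pexc = K.pexc :=
  (O.opn ch hch hπ).pexc_eq (O.opn_Tw ch hch hπ)

theorem opp_pexc (ch : K.I → ℕ → V ⊕ (H ⧸ O.D)) (hch : ∀ i j, ch i (j + K.len i) = ch i j)
    (hπ : ∀ i j, O.πp (ch i j) = K.vx i j) : (O.opp ch hch hπ).gx.pexc = K.pexc :=
  (O.opp ch hch hπ).pexc_eq (O.opp_Tw ch hch hπ)

end OpD

end Pool.Agent.DI
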