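import Pool.Agent.DI.HrF
import Pool.Agent.DI.OpnX
import Pool.Agent.DI.OpnS

/-!
# DI/SqWO: the class `SqW` for an opened complex

`O : OpW K W` over a complex with the static class `P.SqT`. Twins: `O.π x = O.π y`, softs. Tops:
vertices which carry a lift of an old square (`O.Tw1`), `O.pw T`: the partner in this lift, it is unique.
`OpW.sqW`: the class `SqW` (DI/HrF) for `O.p45 P`.
-/

namespace Pool.Agent.DI

open MulAction
open Pool.Agent.SAF (InC orbs FinOrb oc)

namespace OpW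

variable {H V W : Type} [Group H] [MulAction H V] [MulAction H W] {K : GX H V} (O : OpW K W)
  (P : P45 K)

/-- twins -/
def Tw2 (x y : W) : Prop := O.π x = O.π y ∧ ∃ a, O.gx.ar x a

/-- `T` is the top of a lift of an old square with the sides `a`, `b` and the partner `y` -/
def Tq (T a b y : W) : Prop := (O.p45 P).Top T a b y ∧ P.Top (O.π T) (O.π a) (O.π b) (O.π y)

/-- `T` carries an old square -/
def Tc (T : W) : Prop := ∃ a b y, O.Tq P T a b y

open Classical in
/-- the partner -/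
noncomputable def pw (T : W) : W := if h : ∃ y, ∃ a b, O.Tq P T a b y then h.choose else T

variable {P}

theorem Tq.symm' {O : OpW K W} {T a b y : W} (h : O.Tq P T a b y) : O.Tq P T b a y :=
  ⟨h.1.symm', h.2.symm'⟩

theorem Tq.smul {O : OpW K W} {T a b y : W} (g : H) (h : O.Tq P T a b y) :
    O.Tq P (g • T) (g • a) (g • b) (g • y) := by
  refine ⟨h.1.smul g, ?_⟩
  have := h.2.smul g
  simpa only [O.π_smul] using this

/-- two poles of `T` -/
theorem Tq.poles {O : OpW K W} {T a b y c : W} (hs : P.SqT) (h : O.Tq P T a b y)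
    (hc : O.gx.ar T c) : c = a ∨ c = b := by
  have hab : a ≠ b := fun e => hs.nab _ _ _ _ h.2 (congrArg O.π e)
  rcases O.gx.two _ _ _ _ h.1.2.1 h.1.2.2 hc with e | e | e
  · exact absurd e hab
  · exact Or.inr e.symm
  · exact Or.inl e.symm

/-- the partner is unique -/
theorem Tq.uniq {O : OpW K W} {T a b y a' b' y' : W} (hs : P.SqT) (h : O.Tq P T a b y)
    (h' : O.Tq P T a' b' y') : y = y' := by
  have e : O.π y = O.π y' := (hs.par _ _ _ _ _ _ _ h.2 h'.2).resolve_left id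
  have key : ∀ c d, (c = a ∨ c = b) → (d = a' ∨ d = b') → c = d → K.ar (O.π c) (O.π y) →
      y = y' := by
    intro c d hc hd hcd hk
    have e1 : O.gx.E c y := by
      rcases hc with rfl | rfl
      · exact h.1.Ea
      · exact h.1.Eb
    have e2 : O.gx.E d y' := by
      rcases hd with rfl | rfl
      · exact h'.1.Ea
      · exact h'.1.Eb
    have k1 := O.ar_of_E e1 hk
    have k2 := O.ar_of_E e2 (by rw [← hcd, ← e]; exact hk)
    have k1' := O.ar_e' k1
    have k2' := O.ar_e' k2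
    rw [← k1', ← k2', ← hcd, e]
  have pol : ∀ c, (c = a ∨ c = b) → ∃ d, (d = a' ∨ d = b') ∧ c = d := by
    intro c hc
    have hT : O.gx.ar T c := by
      rcases hc with rfl | rfl
      · exact h.1.2.1
      · exact h.1.2.2
    exact ⟨c, h'.poles hs hT, rfl⟩
  rcases (hs.side _ _ _ _ h.2).resolve_left id with k | k
  · obtain ⟨d, h1, h2⟩ := pol a (Or.inl rfl)
    exact key a d (Or.inl rfl) h1 h2 k
  · obtain ⟨d, h1, h2⟩ := pol b (Or.inr rfl)
    exact key b d (Or.inr rfl) h1 h2 k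

theorem pw_eq {T a b y : W} (hs : P.SqT) (h : O.Tq P T a b y) : O.pw P T = y := by
  have h' : ∃ y, ∃ a b, O.Tq P T a b y := ⟨y, a, b, h⟩
  unfold pw
  rw [dif_pos h']
  obtain ⟨a', b', k⟩ := h'.choose_spec
  exact k.uniq hs h

/-- a lift of an old square with a top -/
theorem Tq.of {O : OpW K W} {T a b y : W} (h : Q4 (O.p45 P) a T b y)
    (h' : P.Top (O.π T) (O.π a) (O.π b) (O.π y)) : O.Tq P T a b y :=
  ⟨⟨h, O.ar_of_E h.E1.symm h'.2.1, O.ar_of_E h.E2 h'.2.2⟩, h'⟩

/-- THE CLASS OF THE OPENED COMPLEX -/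
theorem sqW (hs : P.SqT) : (O.p45 P).SqW O.Tw2 (O.Tc P) (O.pw P) where
  q4 a q b y h := by
    rcases O.Q4_π P h with k | k | k
    · rcases hs.q4 k with t | t | t | t
      · have l : O.Tq P a y q b := Tq.of (O := O) h.rot.rot.rot t
        exact Or.inr (Or.inr (Or.inl ⟨⟨_, _, _, l⟩, l.1, O.pw_eq hs l⟩))
      · have l : O.Tq P q a b y := Tq.of (O := O) h t
        exact Or.inr (Or.inr (Or.inr (Or.inl ⟨⟨_, _, _, l⟩, l.1, O.pw_eq hs l⟩)))
      · have l : O.Tq P b q y a := Tq.of (O := O) h.rot t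
        exact Or.inr (Or.inr (Or.inr (Or.inr (Or.inl ⟨⟨_, _, _, l⟩, l.1, O.pw_eq hs l⟩))))
      · have l : O.Tq P y b a q := Tq.of (O := O) h.rot.rot t
        exact Or.inr (Or.inr (Or.inr (Or.inr (Or.inr ⟨⟨_, _, _, l⟩, l.1, O.pw_eq hs l⟩))))
    · have l := NSq.ar O k
      exact Or.inr (Or.inl ⟨⟨l.2.2.2.2.1, _, l.1⟩, l.1, l.2.1⟩)
    · have l := NSq.ar O k
      exact Or.inl ⟨⟨l.2.2.2.2.1.symm, _, l.2.2.1⟩, l.2.2.1⟩
  Ts h T := by
    rintro ⟨a, b, y, k⟩
    exact ⟨_, _, _, k.smul h⟩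
  ps h T := by
    rintro ⟨a, b, y, k⟩
    rw [O.pw_eq hs k, O.pw_eq hs (k.smul h)]
  lt T := by
    rintro ⟨a, b, y, k⟩
    rw [O.pw_eq hs k]
    exact hs.rk_lt k.2
  nab T a b y h := by
    intro e
    rcases O.Top_π P h with k | k
    · exact hs.nab _ _ _ _ k (congrArg O.π e)
    · exact (NSq.ar O k).2.2.2.2.2 (congrArg O.π e)
  twr x y h := congrArg K.rk h.1

/-- the old partner of a top of the opened complex -/
theorem Tc.top {O : OpW K W} {T : W} (h : O.Tc P T) : ∃ a b y, P.Top (O.π T) a b y := by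
  obtain ⟨a, b, y, k⟩ := h
  exact ⟨_, _, _, k.2⟩

/-- twins have the same poles -/
theorem Tw2.poles {O : OpW K W} (x y : W) (h : O.Tw2 x y) :
    (∃ a, O.gx.ar x a) ∧ ∀ a, O.gx.ar x a → O.gx.ar y a :=
  ⟨h.2, fun _ ha => O.ar_congr ha h.1⟩

end OpW

end Pool.Agent.DI
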