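import Pool.Agent.DI.OpnS
import Pool.Agent.DI.BndE
import Pool.Agent.DI.Pot0

/-!
# Numbers of the opened complex

`O : OpW K W` (so for `OpD.opn` and `OpD.opp`). Sinks are not opened; if the opened vertices are finite
and their edges to the poles lie in cells, then the numbers of sinks of all kinds are the same:
`nVD_eq`, `nVZ_eq`, `nV0_eq`, `nVs_eq`, `nVc_eq`, `nHv_eq`. `Spc_iff`: special vertices.
-/

namespace Pool.Agent.DI

open MulAction
open Pool.Agent.SAF (InC orbs FinOrb oc mk_eq_iff FinOrb_iff)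
open Pool.Agent.SAG (Zt)

namespace OpW

variable {H V W : Type} [Group H] [MulAction H V] [MulAction H W] {K : GX H V} (O : OpW K W)

theorem snk_iff {x : W} : O.gx.Snk x ↔ K.Snk (O.π x) := by
  constructor
  · intro h a ha
    exact h _ (O.ar_e x ha)
  · intro h a ha
    exact h _ (O.ar_π ha)

theorem snk_ndbl {x : W} (h : K.Snk (O.π x)) : ¬ O.Dbl x := by
  rintro ⟨y, h1, h2⟩
  obtain ⟨a, ha⟩ := O.pole x y h1 h2
  exact h a ha

/-- the stabiliser of a vertex which is not opened -/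
theorem stab_eq {x : W} (h : ¬ O.Dbl x) : stabilizer H x = stabilizer H (O.π x) := by
  ext g
  rw [mem_stabilizer_iff, mem_stabilizer_iff]
  constructor
  · intro e
    rw [← O.π_smul, e]
  · intro e
    exact O.not_dbl h (by rw [O.π_smul, e])

theorem stab_pair_eq {x y : W} (h : ¬ O.Dbl x) (ha : O.gx.ar x y) :
    stabilizer H (x, y) = stabilizer H (O.π x, O.π y) := by
  ext g
  rw [mem_stabilizer_iff, mem_stabilizer_iff]
  exact O.stab_pair (fun z hz => O.not_dbl h hz) ha g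

/-- orbits of vertices which are not opened -/
theorem oc_ndbl {A : Set V} (hA : ∀ x : W, O.π x ∈ A → ¬ O.Dbl x) :
    oc H {x : W | O.π x ∈ A} = oc H A := by
  refine oc_rel O.π (fun x hx => hx) ?_ ?_
  · intro b hb
    obtain ⟨x, rfl⟩ := O.sur b
    exact ⟨x, hb, 1, one_smul _ _⟩
  · intro x _ y hy
    constructor
    · rintro ⟨g, rfl⟩
      exact ⟨g, (O.π_smul g x).symm⟩
    · rintro ⟨g, e⟩
      exact ⟨g, O.not_dbl (hA y hy) (by rw [O.π_smul, e])⟩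

theorem nVD_eq : O.gx.nVD = K.nVD := by
  have e : O.gx.sVD = {x : W | O.π x ∈ K.sVD} := by
    ext x
    show (O.gx.Snk x ∧ _ ∧ _) ↔ (K.Snk (O.π x) ∧ _ ∧ _)
    rw [O.snk_iff]
    refine and_congr_right fun h => ?_
    rw [O.stab_eq (O.snk_ndbl h)]
  unfold GX.nVD
  rw [e]
  exact O.oc_ndbl fun x hx => O.snk_ndbl hx.1

theorem nVZ_eq : O.gx.nVZ = K.nVZ := by
  have e : O.gx.sVZ = {x : W | O.π x ∈ K.sVZ} := by
    ext x
    show (O.gx.Snk x ∧ _ ∧ _) ↔ (K.Snk (O.π x) ∧ _ ∧ _)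
    rw [O.snk_iff]
    refine and_congr_right fun h => ?_
    rw [O.stab_eq (O.snk_ndbl h)]
  unfold GX.nVZ
  rw [e]
  exact O.oc_ndbl fun x hx => O.snk_ndbl hx.1

theorem nV0_eq : O.gx.nV0 = K.nV0 := by
  have e : O.gx.sV0 = {x : W | O.π x ∈ K.sV0} := by
    ext x
    show (O.gx.Snk x ∧ _) ↔ (K.Snk (O.π x) ∧ _)
    rw [O.snk_iff]
    refine and_congr_right fun h => ?_
    rw [O.stab_eq (O.snk_ndbl h)]
  unfold GX.nV0
  rw [e]
  exact O.oc_ndbl fun x hx => O.snk_ndbl hx.1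

theorem nV_eq : O.gx.nV = K.nV := by
  have e : {x : W | O.gx.Snk x} = {x : W | O.π x ∈ {v : V | K.Snk v}} := by
    ext x
    exact O.snk_iff
  unfold GX.nV
  rw [e]
  exact O.oc_ndbl fun x hx => O.snk_ndbl hx

/-! ### cells -/

/-- the vertices of a new square: every second one is opened -/
theorem new_dbl (hj : ∀ j, O.js j ≠ O.jt j) (j : O.J) (k : Fin (O.gx.len (Sum.inr j))) (h : H)
    (e' : O.gx.LE) (he : e' = (⟨Sum.inr j, k⟩, h)) :
    (O.Dbl (O.gx.c1 e') ∧ O.gx.ar (O.gx.c1 e') (O.gx.c0 e')) ∨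
    (O.Dbl (O.gx.c0 e') ∧ O.gx.ar (O.gx.c0 e') (O.gx.c1 e')) := by
  subst he
  have hl := O.gx_len_inr j
  obtain ⟨v0, v1, v2, v3⟩ := O.vx_inr j
  have v4 : O.gx.vx (Sum.inr j) 4 = O.gx.vx (Sum.inr j) 0 := by
    rw [← O.gx.vx_mod (Sum.inr j) 4, hl]
  obtain ⟨a1, a2, a3, a4⟩ := O.sq_ar j h
  have c0 : ∀ n, k.1 = n → O.gx.c0 ((⟨Sum.inr j, k⟩, h) : O.gx.LE) =
      h • O.gx.vx (Sum.inr j) n := by
    rintro n rfl
    rfl
  have c1 : ∀ n, k.1 = n → O.gx.c1 ((⟨Sum.inr j, k⟩, h) : O.gx.LE) =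
      h • O.gx.vx (Sum.inr j) (n + 1) := by
    rintro n rfl
    rfl
  have hk : k.1 < 4 := lt_of_lt_of_eq k.2 hl
  have hk' : k.1 = 0 ∨ k.1 = 1 ∨ k.1 = 2 ∨ k.1 = 3 := by omega
  have d1 : O.Dbl (h • O.js j) := Dbl.smul ⟨O.jt j, (O.j_eq j).symm, hj j⟩ h
  have d2 : O.Dbl (h • O.jt j) := Dbl.smul ⟨O.js j, O.j_eq j, (hj j).symm⟩ h
  rcases hk' with q | q | q | q
  · left
    rw [c0 _ q, c1 _ q, v0, v1]
    exact ⟨d1, a1⟩
  · right
    rw [c0 _ q, c1 _ q, v1, v2]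
    exact ⟨d1, a2⟩
  · left
    rw [c0 _ q, c1 _ q, v2, v3]
    exact ⟨d2, a4⟩
  · right
    rw [c0 _ q, c1 _ q, v3, v4, v0]
    exact ⟨d2, a3⟩

/-- an edge lies in a cell of `K` or it is an arrow out of an opened vertex -/
theorem EC_π (hj : ∀ j, O.js j ≠ O.jt j) {x y : W} (h : O.gx.EC x y) :
    K.EC (O.π x) (O.π y) ∨ (O.Dbl x ∧ O.gx.ar x y) ∨ (O.Dbl y ∧ O.gx.ar y x) := by
  rw [GX.EC_iff] at h
  obtain ⟨b, hb⟩ := h
  obtain ⟨e', he'⟩ := O.gx.cor_LE.1 hb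
  rcases O.LE_cases e' with ⟨e, rfl⟩ | ⟨j, k, g, he⟩
  · left
    rw [GX.EC_iff]
    refine ⟨O.π b, K.cor_LE.2 ⟨e, ?_⟩⟩
    rw [← O.π_up0, ← O.π_up1, ← O.π_up2]
    rcases he' with ⟨rfl, rfl, rfl⟩ | ⟨rfl, rfl, rfl⟩
    · exact Or.inl ⟨rfl, rfl, rfl⟩
    · exact Or.inr ⟨rfl, rfl, rfl⟩
  · right
    rcases he' with ⟨rfl, rfl, rfl⟩ | ⟨rfl, rfl, rfl⟩
    · rcases O.new_dbl hj j k g e' he with q | q
      · exact Or.inr q
      · exact Or.inl q
    · -- the edge `c2, c1`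
      have hp := O.new_pos j k g e' he
      rcases O.new_dbl hj j k g e' he with q | q
      · right
        rcases hp with ⟨h1, -, -⟩ | ⟨-, h2⟩
        · exact absurd h1 (GX.not_both' q.2)
        · exact ⟨q.1, h2⟩
      · left
        rcases hp with ⟨-, h2, h3⟩ | ⟨h1, -⟩
        · refine ⟨q.1.congr h3, h2⟩
        · exact absurd h1 (GX.not_both' q.2)

/-- the lift of an edge in a cell -/
theorem EC_lift {x y : V} (h : K.EC x y) : ∃ x' y', O.π x' = x ∧ O.π y' = y ∧ O.gx.EC x' y' := by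
  rw [GX.EC_iff] at h
  obtain ⟨b, hb⟩ := h
  obtain ⟨x', y', b', h1, h2, -, h4⟩ := O.Cor_lift hb
  exact ⟨x', y', h1, h2, GX.EC_iff.2 ⟨b', h4⟩⟩

/-- the edges of the opened vertices lie in cells of `K` -/
def CE : Prop := ∀ x : W, O.Dbl x → ∀ a, K.ar (O.π x) a → K.EC (O.π x) a

theorem EC_π' (hj : ∀ j, O.js j ≠ O.jt j) (hc : O.CE) {x y : W} (h : O.gx.EC x y) :
    K.EC (O.π x) (O.π y) := by
  rcases O.EC_π hj h with q | q | q
  · exact q
  · exact hc x q.1 _ (O.ar_π q.2)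
  · exact (hc y q.1 _ (O.ar_π q.2)).symm

theorem VC_snk (hj : ∀ j, O.js j ≠ O.jt j) (hc : O.CE) {x : W} (hx : K.Snk (O.π x)) :
    O.gx.VC x ↔ K.VC (O.π x) := by
  constructor
  · rintro ⟨y, h⟩
    exact ⟨O.π y, O.EC_π' hj hc h⟩
  · rintro ⟨y, h⟩
    obtain ⟨x', y', h1, h2, h3⟩ := O.EC_lift h
    rw [O.not_dbl (O.snk_ndbl hx) h1] at h3
    exact ⟨y', h3⟩

theorem nVs_eq (hj : ∀ j, O.js j ≠ O.jt j) (hc : O.CE) : O.gx.nVs = K.nVs := by
  have e : O.gx.sVs = {x : W | O.π x ∈ K.sVs} := by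
    ext x
    show (O.gx.Snk x ∧ _ ∧ _) ↔ (K.Snk (O.π x) ∧ _ ∧ _)
    rw [O.snk_iff]
    refine and_congr_right fun h => ?_
    rw [O.stab_eq (O.snk_ndbl h), O.VC_snk hj hc h]
  unfold GX.nVs
  rw [e]
  exact O.oc_ndbl fun x hx => O.snk_ndbl hx.1

theorem nVc_eq (hj : ∀ j, O.js j ≠ O.jt j) (hc : O.CE) : O.gx.nVc = K.nVc := by
  have e : O.gx.sVc = {x : W | O.π x ∈ K.sVc} := by
    ext x
    show (O.gx.Snk x ∧ _) ↔ (K.Snk (O.π x) ∧ _)
    rw [O.snk_iff]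
    refine and_congr_right fun h => ?_
    rw [O.VC_snk hj hc h]
  unfold GX.nVc
  rw [e]
  exact O.oc_ndbl fun x hx => O.snk_ndbl hx.1

/-- the opened vertices are finite -/
def DF : Prop := ∀ x : W, O.Dbl x → Finite ↥(stabilizer H (O.π x))

theorem fin_of_dbl (hf : O.DF) {x y : W} (h : O.Dbl x) : Finite ↥(stabilizer H ((x, y) : W × W)) := by
  have := hf x h
  refine Finite.of_injective (fun g : ↥(stabilizer H ((x, y) : W × W)) =>
    (⟨g.1, ?_⟩ : ↥(stabilizer H (O.π x)))) ?_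
  · have h1 : g.1 • ((x, y) : W × W) = (x, y) := g.2
    have h2 : g.1 • x = x := congrArg Prod.fst h1
    show g.1 • O.π x = O.π x
    rw [← O.π_smul, h2]
  · intro g g' e
    exact Subtype.ext (Subtype.mk.inj e)

theorem nHv_eq (hj : ∀ j, O.js j ≠ O.jt j) (hf : O.DF) : O.gx.nHv = K.nHv := by
  have e : O.gx.sHv = {x : W | O.π x ∈ K.sHv} := by
    ext x
    show (O.gx.Snk x ∧ _) ↔ (K.Snk (O.π x) ∧ _)
    rw [O.snk_iff]
    refine and_congr_right fun h => ?_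
    constructor
    · rintro ⟨n, h1, h2, h3⟩
      have hn : ¬ O.Dbl n := fun k => not_finite_iff_infinite.2 h3 (O.fin_of_dbl hf k)
      refine ⟨O.π n, O.ar_π h1, ?_, ?_⟩
      · rcases O.EC_π hj h2 with q | q | q
        · exact q
        · exact absurd q.1 hn
        · exact absurd q.1 (O.snk_ndbl h)
      · rw [← O.stab_pair_eq hn h1]
        exact h3
    · rintro ⟨n, h1, h2, h3⟩
      obtain ⟨n', x', rfl, h5, h6⟩ := O.EC_lift h2
      rw [O.not_dbl (O.snk_ndbl h) h5] at h6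
      have h7 := O.ar_of_E h6.E h1
      have hn : ¬ O.Dbl n' := by
        intro k
        refine not_finite_iff_infinite.2 h3 ?_
        have := hf n' k
        refine Finite.of_injective (fun g : ↥(stabilizer H ((O.π n', O.π x) : V × V)) =>
          (⟨g.1, ?_⟩ : ↥(stabilizer H (O.π n')))) ?_
        · have h1 : g.1 • ((O.π n', O.π x) : V × V) = (O.π n', O.π x) := g.2
          exact congrArg Prod.fst h1
        · intro g g' e
          exact Subtype.ext (Subtype.mk.inj e)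
      refine ⟨n', h7, h6, ?_⟩
      rw [O.stab_pair_eq hn h7]
      exact h3
  unfold GX.nHv
  rw [e]
  exact O.oc_ndbl fun x hx => O.snk_ndbl hx.1

/-! ### special vertices -/

theorem Spc_iff {x : W} (h : ¬ O.Dbl x) : O.gx.Spc x ↔ K.Spc (O.π x) := by
  constructor
  · rintro ⟨g, h1, a, h2, h3⟩
    refine ⟨g, by rw [← O.π_smul, h1], O.π a, O.ar_π h2, fun e => h3 ?_⟩
    have k := O.gx.ar_smul g _ _ h2
    rw [h1] at k
    have k1 := O.ar_e' k
    rw [O.π_smul, e, O.ar_e' h2] at k1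
    exact k1.symm
  · rintro ⟨g, h1, a, h2, h3⟩
    refine ⟨g, O.not_dbl h (by rw [O.π_smul, h1]), O.e (O.π x) a, O.ar_e x h2, fun e => h3 ?_⟩
    have := congrArg O.π e
    rwa [O.π_smul, O.π_e _ _ h2] at this

variable (P : P45 K)

/-- the tops which are not opened -/
theorem tops_eq (hv : O.NT P) (hj : ∀ j, O.js j ≠ O.jt j) (x : W) :
    (¬ O.Dbl x ∧ x ∈ (O.p45 P).tops) ↔ O.π x ∈ P.tops := by
  constructor
  · rintro ⟨hd, a, b, y, h⟩
    rcases O.Top_π P h with k | k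
    · exact ⟨_, _, _, k⟩
    · exact absurd (NSq.dbl hj k).1 hd
  · rintro ⟨a, b, y, h⟩
    have hd := hv.top h
    refine ⟨hd, ?_⟩
    obtain ⟨T', a', b', y', h1, -, -, -, h5⟩ := O.Top_lift P h
    rw [O.not_dbl hd h1] at h5
    exact ⟨a', b', y', h5⟩

/-- the special tops which are not opened -/
theorem spT_eq (hv : O.NT P) (hj : ∀ j, O.js j ≠ O.jt j) (x : W) :
    (¬ O.Dbl x ∧ x ∈ (O.p45 P).spT) ↔ O.π x ∈ P.spT := by
  constructor
  · rintro ⟨hd, a, b, y, h, g, h1, h2⟩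
    rcases O.Top_π P h with k | k
    · exact ⟨_, _, _, k, g, by rw [← O.π_smul, h1], by rw [← O.π_smul, h2]⟩
    · exact absurd (NSq.dbl hj k).1 hd
  · rintro ⟨a, b, y, h, g, h1, h2⟩
    have hd := hv.top h
    refine ⟨hd, ?_⟩
    obtain ⟨T', a', b', y', e1, rfl, rfl, rfl, h5⟩ := O.Top_lift P h
    rw [O.not_dbl hd e1] at h5
    have h3 : g • x = x := O.not_dbl hd (by rw [O.π_smul, h1])
    refine ⟨a', b', y', h5, g, h3, ?_⟩
    have k := O.gx.ar_smul g _ _ h5.2.1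
    rw [h3] at k
    rw [← O.ar_e' k, ← O.ar_e' h5.2.2, O.π_smul, h2]

/-- THE NUMBER OF SPECIAL TOPS WHICH ARE NOT OPENED -/
theorem oc_spT (hv : O.NT P) (hj : ∀ j, O.js j ≠ O.jt j) :
    oc H {x : W | ¬ O.Dbl x ∧ x ∈ (O.p45 P).spT} = oc H P.spT := by
  have e : {x : W | ¬ O.Dbl x ∧ x ∈ (O.p45 P).spT} = {x : W | O.π x ∈ P.spT} := by
    ext x
    exact O.spT_eq P hv hj x
  rw [e]
  exact O.oc_ndbl fun x ⟨a, b, y, h, _⟩ => hv.top h

/-- the strands of the pentagons -/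
theorem FS_up : oc H (O.p45 P).FS = oc H P.FS := by
  have hfx : ∀ f : FL K, O.π (P45.fx (O.upF f)) = P45.fx f := by
    rintro ⟨e, b⟩
    cases b
    · exact O.π_up2 e
    · exact O.π_up0 e
  have har : ∀ f : FL K, O.gx.ar (P45.fx (O.upF f)) (P45.fy (O.upF f)) ↔
      K.ar (P45.fx f) (P45.fy f) := by
    intro f
    rw [O.ar_iff (P45.fl_E1 (O.upF f)).symm, hfx, O.π_fy]
  refine (oc_rel O.upF ?_ ?_ ?_).symm
  · rintro f ⟨h1, h2⟩
    exact ⟨(O.RP_up P f).2 h1, (har f).2 h2⟩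
  · rintro f' ⟨h1, h2⟩
    obtain ⟨f, hf, rfl⟩ := O.RP_cases P h1
    exact ⟨f, ⟨hf, (har f).1 h2⟩, 1, one_smul _ _⟩
  · rintro f - g -
    constructor
    · rintro ⟨h, e⟩
      exact ⟨h, by rw [← O.upF_smul, e]⟩
    · rintro ⟨h, e⟩
      exact ⟨h, O.upF_inj (by rw [O.upF_smul, e])⟩

/-- the walks of the squares -/
theorem ZP_up (hv : O.NT P) : oc H (O.p45 P).ZP = oc H P.ZP := by
  refine oc_rel O.πw ?_ ?_ ?_
  · intro p h
    exact O.ZP_π P h
  · intro p h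
    obtain ⟨p', hp', rfl⟩ := O.ZP_lift P h
    exact ⟨p', hp', 1, one_smul _ _⟩
  · rintro p hp p' hp'
    constructor
    · rintro ⟨h, e⟩
      exact ⟨h, by rw [← O.πw_smul, e]⟩
    · rintro ⟨h, e⟩
      refine ⟨h, O.ZP_inj P hv ?_ hp' (by rw [O.πw_smul, e])⟩
      exact ⟨hp.1.smul h, O.gx.ar_smul h _ _ hp.2.1, O.gx.ar_smul h _ _ hp.2.2⟩

/-- THE POLE EXCESS BY WALKS DOES NOT CHANGE -/
theorem wexc_eq (ht : O.Tw) (hv : O.NT P) : (O.p45 P).wexc = P.wexc := by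
  unfold P45.wexc
  rw [O.FS_up P, O.ZP_up P hv, O.pols_up ht]

end OpW

/-! ### the two forms of the opening -/

namespace OpD

variable {H V : Type} [Group H] [MulAction H V] {K : GX H V} (O : OpD K)

/-- an opened vertex lies over a translate of `v` -/
theorem opn_dbl (ch : K.I → ℕ → O.W) (hch : ∀ i j, ch i (j + K.len i) = ch i j)
    (hπ : ∀ i j, O.π (ch i j) = K.vx i j) {x : O.W} (h : (O.opn ch hch hπ).Dbl x) :
    ∃ g : H, O.π x = g • O.v := by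
  obtain ⟨y, h1, h2⟩ := h
  obtain ⟨g, rfl, rfl⟩ := O.two_over h1 h2
  exact ⟨g, rfl⟩

theorem opp_dbl (ch : K.I → ℕ → V ⊕ (H ⧸ O.D)) (hch : ∀ i j, ch i (j + K.len i) = ch i j)
    (hπ : ∀ i j, O.πp (ch i j) = K.vx i j) {x : V ⊕ (H ⧸ O.D)} (h : (O.opp ch hch hπ).Dbl x) :
    ∃ g : H, O.πp x = g • O.v := by
  obtain ⟨y, h1, h2⟩ := h
  have h1 : O.πp x = O.πp y := h1
  have key : ∀ s : H ⧸ O.D, ∃ g : H, O.q s = g • O.v := by
    intro s
    induction s using QuotientGroup.induction_on with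
    | _ g => exact ⟨g, rfl⟩
  show ∃ g : H, O.πp x = g • O.v
  rcases x with x | s
  · rcases y with y | t
    · exact absurd (congrArg Sum.inl h1) h2
    · rw [h1]
      exact key t
  · exact key s

/-- `v` is not a top -/
theorem opn_NT (P : P45 K) (ch : K.I → ℕ → O.W) (hch : ∀ i j, ch i (j + K.len i) = ch i j)
    (hπ : ∀ i j, O.π (ch i j) = K.vx i j) (hT : O.v ∉ P.tops) : (O.opn ch hch hπ).NT P := by
  intro x y h hne a b z k
  obtain ⟨g, hg⟩ := O.opn_dbl ch hch hπ ⟨y, h, hne⟩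
  apply hT
  have k' : P.Top (O.π x) a b z := k
  rw [hg] at k'
  have := P45.tops_smul g⁻¹ _ ⟨a, b, z, k'⟩
  rwa [inv_smul_smul] at this

theorem opp_NT (P : P45 K) (ch : K.I → ℕ → V ⊕ (H ⧸ O.D))
    (hch : ∀ i j, ch i (j + K.len i) = ch i j)
    (hπ : ∀ i j, O.πp (ch i j) = K.vx i j) (hT : O.v ∉ P.tops) : (O.opp ch hch hπ).NT P := by
  intro x y h hne a b z k
  obtain ⟨g, hg⟩ := O.opp_dbl ch hch hπ ⟨y, h, hne⟩
  apply hT
  have k' : P.Top (O.πp x) a b z := k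
  rw [hg] at k'
  have := P45.tops_smul g⁻¹ _ ⟨a, b, z, k'⟩
  rwa [inv_smul_smul] at this

theorem ar_v {g : H} {a : V} (h : K.ar (g • O.v) a) : a = g • O.a ∨ a = g • O.b := by
  rcases K.two _ _ _ _ (K.ar_smul g _ _ O.va) (K.ar_smul g _ _ O.vb) h with q | q | q
  · exact absurd (smul_left_cancel g q) O.ab
  · exact Or.inr q.symm
  · exact Or.inl q.symm

/-- the edges of `v` lie in cells -/
theorem opn_CE (ch : K.I → ℕ → O.W) (hch : ∀ i j, ch i (j + K.len i) = ch i j)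
    (hπ : ∀ i j, O.π (ch i j) = K.vx i j) (h1 : K.EC O.v O.a) (h2 : K.EC O.v O.b) :
    (O.opn ch hch hπ).CE := by
  intro x hx a ha
  obtain ⟨g, hg⟩ := O.opn_dbl ch hch hπ hx
  have ha : K.ar (O.π x) a := ha
  show K.EC (O.π x) a
  rw [hg] at ha ⊢
  rcases O.ar_v ha with rfl | rfl
  · exact h1.smul g
  · exact h2.smul g

theorem opp_CE (ch : K.I → ℕ → V ⊕ (H ⧸ O.D)) (hch : ∀ i j, ch i (j + K.len i) = ch i j)
    (hπ : ∀ i j, O.πp (ch i j) = K.vx i j) (h1 : K.EC O.v O.a) (h2 : K.EC O.v O.b) :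
    (O.opp ch hch hπ).CE := by
  intro x hx a ha
  obtain ⟨g, hg⟩ := O.opp_dbl ch hch hπ hx
  have ha : K.ar (O.πp x) a := ha
  show K.EC (O.πp x) a
  rw [hg] at ha ⊢
  rcases O.ar_v ha with rfl | rfl
  · exact h1.smul g
  · exact h2.smul g

/-- `v` is finite -/
theorem opn_DF (ch : K.I → ℕ → O.W) (hch : ∀ i j, ch i (j + K.len i) = ch i j)
    (hπ : ∀ i j, O.π (ch i j) = K.vx i j) (hf : Finite ↥(stabilizer H O.v)) :
    (O.opn ch hch hπ).DF := by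
  intro x hx
  obtain ⟨g, hg⟩ := O.opn_dbl ch hch hπ hx
  show Finite ↥(stabilizer H (O.π x))
  rw [hg]
  exact (GX.fin_smul_iff g O.v).2 hf

theorem opp_DF (ch : K.I → ℕ → V ⊕ (H ⧸ O.D)) (hch : ∀ i j, ch i (j + K.len i) = ch i j)
    (hπ : ∀ i j, O.πp (ch i j) = K.vx i j) (hf : Finite ↥(stabilizer H O.v)) :
    (O.opp ch hch hπ).DF := by
  intro x hx
  obtain ⟨g, hg⟩ := O.opp_dbl ch hch hπ hx
  show Finite ↥(stabilizer H (O.πp x))
  rw [hg]
  exact (GX.fin_smul_iff g O.v).2 hf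

theorem opn_Js (ch : K.I → ℕ → O.W) (hch : ∀ i j, ch i (j + K.len i) = ch i j)
    (hπ : ∀ i j, O.π (ch i j) = K.vx i j) : (O.opn ch hch hπ).Js := fun _ _ _ _ => rfl

theorem opp_Js (ch : K.I → ℕ → V ⊕ (H ⧸ O.D)) (hch : ∀ i j, ch i (j + K.len i) = ch i j)
    (hπ : ∀ i j, O.πp (ch i j) = K.vx i j) : (O.opp ch hch hπ).Js := fun _ _ _ _ => rfl

end OpD

end Pool.Agent.DI
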