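import Pool.Agent.DI.MuM
import Pool.Agent.DI.OpnN

/-!
# DI/SysO: placed one-edge systems for opened complexes

`OpW.gj_pull`: a system of `K` on a tree gives, along `π`, a system of the opened complex `O.gx` on the
same tree. `FoldC.opn`: the fold of the opened complex. `Cd.LW.placed_of_gj`: placed one-edge systems
from one system on a one-edge tree. `Cd.LW.one_placedO`: placed one-edge systems of `O.gx`.
-/

namespace Pool.Agent.DI

open MulAction
open Pool.Agent.SAF (InC orbs FinOrb oc Decomp SAn SA Conv exists_cut exists_next FinOrb_iff TAct)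
open Pool.Agent.BT (PX PQ JS bey exits MinSub Ell mst Hyp)
open Pool.Agent.BT.TA

namespace OpW

variable {H V W : Type} [Group H] [MulAction H V] [MulAction H W] {K : GX H V} (O : OpW K W)

/-- the vertices over a vertex are finitely many -/
theorem fib_fin (hf : O.DF) (v : V) : {y : W | O.π y = v}.Finite := by
  by_cases hd : ∃ x, O.π x = v ∧ O.Dbl x
  · obtain ⟨x, rfl, hx⟩ := hd
    have hfin := hf x hx
    obtain ⟨F, hF, -, hF2⟩ := (FinOrb_iff (H := H)).1 O.fin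
    -- one representative over `π x` for each element of `F`
    have hr : ∀ f : W, ∃ r : W, (∃ h : H, O.π (h • f) = O.π x) → O.π r = O.π x ∧
        ∃ h : H, h • f = r := by
      intro f
      by_cases h : ∃ h : H, O.π (h • f) = O.π x
      · obtain ⟨h, hh⟩ := h
        exact ⟨h • f, fun _ => ⟨hh, h, rfl⟩⟩
      · exact ⟨f, fun k => absurd k h⟩
    choose r hr using hr
    have h1 : (⋃ f ∈ F, Set.range (fun g : ↥(stabilizer H (O.π x)) => g.1 • r f)).Finite :=
      hF.biUnion fun f _ => Set.finite_range _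
    refine h1.subset ?_
    intro y hy
    obtain ⟨f, hfF, h, rfl⟩ := hF2 y (Set.mem_univ _)
    obtain ⟨k1, k, k2⟩ := hr f ⟨h, hy⟩
    rw [Set.mem_iUnion₂]
    refine ⟨f, hfF, ⟨h * k⁻¹, ?_⟩, ?_⟩
    · show (h * k⁻¹) • O.π x = O.π x
      have h2 : O.π (h • f) = O.π x := hy
      rw [mul_smul, ← k1, ← k2, ← O.π_smul k⁻¹, inv_smul_smul, ← O.π_smul, h2, ← k1, ← k2]
    · show (h * k⁻¹) • r f = h • f
      rw [← k2, mul_smul, inv_smul_smul]
  · push Not at hd
    obtain ⟨x, rfl⟩ := O.sur v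
    refine (Set.finite_singleton x).subset ?_
    intro y hy
    exact O.not_dbl (hd x rfl) hy

/-- the system along `π` -/
theorem js_pull (P : P45 K) (hf : O.DF) {D : Decomp H} {J : V → Set D.X} (js : JS P.pq D J) :
    JS (O.p45 P).pq D (fun x : W => J (O.π x)) where
  conv := fun x => js.conv _
  ne := fun x => js.ne _
  smul := by
    intro h x w hw
    show h • w ∈ J (O.π (h • x))
    rw [O.π_smul]
    exact js.smul h _ w hw
  one := by
    intro x y e
    have e : O.gx.E x y := e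
    exact js.one _ _ (e.imp O.ar_π O.ar_π)
  two := by
    intro x w hw
    have key : ∀ s ∈ exits (O.p45 P).pq D.G (fun x : W => J (O.π x)) x w,
        ∃ s' ∈ exits P.pq D.G J (O.π x) w, (∀ t ∈ exits (O.p45 P).pq D.G
          (fun x : W => J (O.π x)) x w, (Sum.map O.π id s : V ⊕ D.X) = Sum.map O.π id t →
          s = t) ∧ s' = Sum.map O.π id s := by
      rintro s (⟨a, rfl, ha, hw'⟩ | ⟨w', rfl, h1, h2⟩)
      · refine ⟨Sum.inl (O.π a), Or.inl ⟨_, rfl, O.ar_π ha, hw'⟩, ?_, rfl⟩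
        rintro t (⟨b, rfl, hb, -⟩ | ⟨w2, rfl, -⟩) e
        · have e1 : O.π a = O.π b := by
            simpa using e
          have ha : O.gx.ar x a := ha
          have hb : O.gx.ar x b := hb
          rw [← O.ar_e' ha, ← O.ar_e' hb, e1]
        · simp at e
      · refine ⟨Sum.inr w', Or.inr ⟨_, rfl, h1, h2⟩, ?_, rfl⟩
        rintro t (⟨b, rfl, -⟩ | ⟨w2, rfl, -⟩) e
        · simp at e
        · have e1 : w' = w2 := by simpa using e
          rw [e1]
    intro s hs t ht u hu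
    obtain ⟨s', hs', hs1, rfl⟩ := key s hs
    obtain ⟨t', ht', ht1, rfl⟩ := key t ht
    obtain ⟨u', hu', hu1, rfl⟩ := key u hu
    rcases js.two (O.π x) w hw _ hs' _ ht' _ hu' with e | e | e
    · exact Or.inl (hs1 t ht e)
    · exact Or.inr (Or.inl (hs1 u hu e))
    · exact Or.inr (Or.inr (ht1 u hu e))
  cross := by
    rintro x ⟨a, ha⟩ w w' e h1 h2
    have ha : O.gx.ar x a := ha
    obtain ⟨c, hc, hJ⟩ := js.cross (O.π x) ⟨O.π a, O.ar_π ha⟩ w w' e h1 h2
    refine ⟨O.e (O.π x) c, O.ar_e x hc, ?_⟩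
    show J (O.π _) ⊆ _
    rw [O.π_e _ _ hc]
    exact hJ
  fin := by
    obtain ⟨F, hF, hF1, hF2⟩ := (FinOrb_iff (H := H)).1 js.fin
    refine (FinOrb_iff (H := H)).2 ⟨{p : W × D.X | (O.π p.1, p.2) ∈ F}, ?_, ?_, ?_⟩
    · have h1 : (⋃ q ∈ F, (fun y : W => (y, q.2)) '' {y : W | O.π y = q.1}).Finite :=
        hF.biUnion fun q _ => (O.fib_fin hf q.1).image _
      refine h1.subset ?_
      rintro ⟨y, p⟩ hy
      rw [Set.mem_iUnion₂]
      exact ⟨_, hy, y, rfl, rfl⟩
    · rintro ⟨y, p⟩ hy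
      exact hF1 hy
    · rintro ⟨y, p⟩ hy
      obtain ⟨f, hfF, h, e⟩ := hF2 (O.π y, p) hy
      have e1 : h • f.1 = O.π y := congrArg Prod.fst e
      have e2 : h • f.2 = p := congrArg Prod.snd e
      refine ⟨(h⁻¹ • y, h⁻¹ • p), ?_, h, ?_⟩
      · show (O.π (h⁻¹ • y), h⁻¹ • p) ∈ F
        rw [O.π_smul, ← e1, ← e2, inv_smul_smul, inv_smul_smul]
        exact hfF
      · exact Prod.ext (smul_inv_smul h y) (smul_inv_smul h p)

/-- fixed points of an opened vertex -/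
theorem ell_π (hf : O.DF) (D : Decomp H) {x : W} (h : Ell H D.X x) : Ell H D.X (O.π x) := by
  by_cases hd : O.Dbl x
  · have h1 := hf x hd
    have := D.tree.connected.nonempty
    obtain ⟨z, hz⟩ := Pool.Agent.SAG.fix_of_finite D.tact (stabilizer H (O.π x)) h1
    exact ⟨z, hz⟩
  · obtain ⟨z, hz⟩ := h
    refine ⟨z, ?_⟩
    rw [← O.stab_eq hd]
    exact hz

theorem ell_π' (D : Decomp H) {x : W} (h : Ell H D.X (O.π x)) : Ell H D.X x := by
  obtain ⟨z, hz⟩ := h
  refine ⟨z, fun g hg => hz g ?_⟩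
  show g • O.π x = O.π x
  rw [← O.π_smul, show g • x = x from hg]

theorem inf_pair {x y : W} (h : Infinite ↥(stabilizer H ((x, y) : W × W))) :
    Infinite ↥(stabilizer H ((O.π x, O.π y) : V × V)) := by
  refine Infinite.of_injective (fun g : ↥(stabilizer H ((x, y) : W × W)) =>
    (⟨g.1, ?_⟩ : ↥(stabilizer H ((O.π x, O.π y) : V × V)))) ?_
  · have h1 : g.1 • ((x, y) : W × W) = (x, y) := g.2
    show g.1 • ((O.π x, O.π y) : V × V) = (O.π x, O.π y)
    refine Prod.ext ?_ ?_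
    · show g.1 • O.π x = O.π x
      rw [← O.π_smul, show g.1 • x = x from congrArg Prod.fst h1]
    · show g.1 • O.π y = O.π y
      rw [← O.π_smul, show g.1 • y = y from congrArg Prod.snd h1]
  · intro g g' e
    exact Subtype.ext (Subtype.mk.inj e)

theorem inf_vtx {x : W} (h : Infinite ↥(stabilizer H x)) :
    Infinite ↥(stabilizer H (O.π x)) := by
  refine Infinite.of_injective (fun g : ↥(stabilizer H x) =>
    (⟨g.1, ?_⟩ : ↥(stabilizer H (O.π x)))) ?_
  · show g.1 • O.π x = O.π x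
    rw [← O.π_smul, show g.1 • x = x from g.2]
  · intro g g' e
    exact Subtype.ext (Subtype.mk.inj e)

/-- THE SYSTEM OF `K` IS A SYSTEM OF THE OPENED COMPLEX -/
theorem gj_pull (P : P45 K) (hf : O.DF) {D : Decomp H} {J : V → Set D.X} (g : GJ P.pq D J) :
    GJ (O.p45 P).pq D (fun x : W => J (O.π x)) where
  js := O.js_pull P hf g.js
  fin := fun x hx => g.fin _ (O.ell_π hf D hx)
  one := by
    intro z hz he
    have hz : O.gx.Snk z := hz
    exact g.one _ (O.snk_iff.1 hz) (O.ell_π hf D he)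
  ax := by
    intro z hz he
    have hz : O.gx.Snk z := hz
    have hs : K.Snk (O.π z) := O.snk_iff.1 hz
    have h1 := g.ax _ hs (fun k => he (O.ell_π' D k))
    show J (O.π z) = _
    rw [h1, O.stab_eq (O.snk_ndbl hs)]
  tog := by
    intro x a ha hi
    have ha : O.gx.ar x a := ha
    exact g.tog _ _ (O.ar_π ha) (O.inf_pair hi)

end OpW

/-- the fold of an opened complex -/
theorem FoldC.opn {C : Cd} {V : Type} [MulAction C.H V] {K : GX C.H V} {P : P45 K} {f : V → C.V}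
    (F : FoldC C P f) {W : Type} [MulAction C.H W] (O : OpW K W) (hf : O.DF)
    (lc : ∀ v, O.gx.LC v) (fs : ∀ z, O.gx.FS z → (O.p45 P).NoQ z) :
    FoldC C (O.p45 P) (fun x => f (O.π x)) where
  area := O.gx_area.trans F.area
  lc := lc
  fs := fs
  smul := by
    intro h x
    show f (O.π (h • x)) = _
    rw [O.π_smul, F.smul]
  arr := by
    intro x a ha hi
    exact F.arr _ _ (O.ar_π ha) (O.inf_vtx hi)
  snk := by
    intro z hz hi b
    exact F.snk _ (O.snk_iff.1 hz) (O.inf_vtx hi) b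
  hv := by
    intro x a ha hi
    obtain ⟨b, y, z, hp⟩ := F.hv _ _ (O.ar_π ha) (O.inf_pair hi)
    obtain ⟨x', a', b', y', z', h1, h2, -, -, -, h5⟩ := O.Qn_lift P hp
    have hd : ¬ O.Dbl x := fun k => not_finite_iff_infinite.2 hi (O.fin_of_dbl hf k)
    have e1 : x' = x := O.not_dbl hd h1
    subst e1
    have e2 : a' = a := by
      have h6 : O.gx.ar x' a' := O.ar_of_E h5.E1 (by rw [h2]; exact O.ar_π ha)
      rw [← O.ar_e' h6, h2, O.ar_e' ha]
    rw [e2] at h5
    exact ⟨b', y', z', h5⟩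

/-- the conclusion of the existence theorems: a placed one-edge system -/
def PlOut {H V : Type} [Group H] [MulAction H V] {K : GX H V} (P : P45 K) : Prop :=
  (∃ (D : Decomp H) (J : V → Set D.X) (js : JS P.pq D J),
      (SyQ.mk K P D J js).GdQ K.FS ∧
      (∀ x a, K.ar x a → Infinite ↥(stabilizer H ((x, a) : V × V)) →
        (SyQ.mk K P D J js).Tog x a) ∧ (SyQ.mk K P D J js).Plcd ∧ OneE D ∧
      ∀ x y : D.X, ∃ h : H, h • x = y) ∨
    ∃ (D : Decomp H) (J : V → Set D.X) (js : JS P.pq D J) (w u : D.X),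
      (SyQ.mk K P D J js).GdQ0 K.FS ∧
      (∀ x a, K.ar x a → Infinite ↥(stabilizer H ((x, a) : V × V)) →
        (SyQ.mk K P D J js).Tog x a) ∧ (SyQ.mk K P D J js).Plcd ∧ OneE D ∧
      ¬ SA ↥(stabilizer H w) ∧ (SyQ.mk K P D J js).Inv1 w u ∧
      ∀ a q b y z, Qn P a q b y z → ¬ (SyQ.mk K P D J js).IsC ![a, q, b, y, z] u

/-- PLACED SYSTEMS FROM ONE SYSTEM ON A ONE-EDGE TREE -/
theorem FoldC.placed_of_gj {C : Cd} {V : Type} [MulAction C.H V] {K : GX C.H V}
    {P : P45 K} {f : V → C.V} (F : FoldC C P f) {D5 : Decomp C.H} {J5 : V → Set D5.X}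
    (g5 : GJ P.pq D5 J5) (hone5 : OneE D5) (halt : (∀ x y : D5.X, ∃ h : C.H, h • x = y) ∨
      ∃ w u : D5.X, ¬ SA ↥(stabilizer C.H w) ∧ D5.G.Adj w u ∧
        (∀ x, (∃ h : C.H, h • w = x) ∨ ∃ h : C.H, h • u = x) ∧ (∀ h : C.H, h • w ≠ u) ∧
        InC ↥(stabilizer C.H u) ∧
        ∃ g ∈ stabilizer C.H u, g • w ≠ w ∧ ∀ y, D5.G.Adj u y → y = w ∨ y = g • w) :
    PlOut P := by
  have hsoft : ∀ (D : Decomp C.H) x a, K.ar x a → Ell C.H D.X x := fun D x a ha =>
    F.soft D x a ha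
  obtain ⟨J6, g6, pl6⟩ := exists_plcd P (hsoft D5) g5
  let S6 : SyQ C.H V := ⟨K, P, D5, J6, g6.js⟩
  have hg6 : S6.GdQ0 K.FS := SyQ.Plcd.gdQ0 (S := S6) pl6 g6 F.lc C.bad (hsoft D5) F.fs
  have ht6 : ∀ x a, K.ar x a → Infinite ↥(stabilizer C.H ((x, a) : V × V)) → S6.Tog x a := g6.tog
  rcases halt with htr | ⟨w, u, hw, h1, h2, h3, h4, h5⟩
  · left
    have hg7 := hg6.next
    have pl7 : S6.next.Plcd := SyQ.Plcd.next pl6
    obtain ⟨l, t, hodd⟩ := SyQ.next_odd (S := S6) htr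
    obtain ⟨D8, c8, T8, hc8, hone8, htr8⟩ := exists_hnn_col S6.next.D hodd
    refine ⟨D8, _, (S6.next.col hg7.sinkOK T8 hc8).js, ?_, ?_, ?_, hone8, htr8⟩
    · exact hg7.col (fun z _ hz => FoldC.fs_ell S6.next.D z hz) T8 hc8
    · intro x a ha hi
      exact SyQ.Tog.col hg7.sinkOK T8 hc8 ((ht6 x a ha hi).next (Or.inl ha))
    · exact SyQ.Plcd.col pl7 hg7.sinkOK T8 hc8
  · right
    refine ⟨D5, J6, g6.js, w, u, hg6, ht6, pl6, hone5, hw, ⟨h1, h2, h3, h4, h5⟩, ?_⟩
    intro a q b y z hp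
    exact F.nc g6.js h4 hp

/-- PLACED ONE-EDGE SYSTEMS OF THE OPENED COMPLEX -/
theorem Cd.LW.one_placedO {C : Cd} (hC : C.LW) {V : Type} [MulAction C.H V] {K : GX C.H V}
    {P : P45 K} {f : V → C.V} (F : FoldC C P f) (hT : P.SqT) {W : Type} [MulAction C.H W]
    (O : OpW K W) (hf : O.DF) (lc : ∀ v, O.gx.LC v)
    (fs : ∀ z, O.gx.FS z → (O.p45 P).NoQ z) : PlOut (O.p45 P) := by
  obtain ⟨D5, J5, js5, hg5, ht5, hone5, halt⟩ := hC.one_edgeQ F hT
  have g5 : GJ P.pq D5 J5 := hg5.gj ht5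
  refine (F.opn O hf lc fs).placed_of_gj (O.gj_pull P hf g5) hone5 ?_
  rcases halt with h | ⟨w, u, hw, hi⟩
  · exact Or.inl h
  · exact Or.inr ⟨w, u, hw, hi.adj, hi.orb, hi.ne, hi.inC, hi.flip⟩

end Pool.Agent.DI
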