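import Pool.Agent.DI.MovV
import Pool.Agent.DI.PlcQ
import Pool.Agent.DI.SysO

/-!
# DI/SysP: complexes whose softs have one piece: nothing sits over a midpoint

`P45.Prt P Z`: the vertices of `Z` are parts (one piece of pages, or one pentagon corner), every square
has a middle in `Z`, all other softs are heavy or have a finite sink as a pole. `SyQ.Mq.mpZ`,
`SyQ.Mq.void`: in a placed system no square and no vertex sits over a midpoint without centres.
`SyQ.SyP`: good placed one-edge systems at a bad vertex, nothing over the midpoint.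
`Cd.LW.exists_syP`, `Cd.LW.exists_syO`: they exist.
-/

namespace Pool.Agent.DI

open MulAction
open Pool.Agent.SAF (InC SA orbs FinOrb oc Decomp SAn Conv exists_next)
open Pool.Agent.BT (PX PQ JS bey exits Ell mst x_next_unique bey_irr_l Hyp)
open Pool.Agent.BT.TA (bey_or bey_not bey_self conv_cr conv_sd conv_union)

/-- THE VERTICES OF `Z` ARE PARTS -/
structure P45.Prt {H V : Type} [Group H] [MulAction H V] {K : GX H V} (P : P45 K)
    (Z : V → Prop) : Prop where
  /-- every square has a middle in `Z` -/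
  sq : ∀ {a q b y : V}, Q4 P a q b y → (Z q ∧ K.ar q a ∧ K.ar q b) ∨ (Z y ∧ K.ar y a ∧ K.ar y b) ∨
    (Z a ∧ K.ar a q ∧ K.ar a y) ∨ (Z b ∧ K.ar b q ∧ K.ar b y)
  /-- the pages of a part are one piece -/
  one : ∀ {x n k : V}, Z x → K.ar n x → K.ar k x → K.PC x n k
  /-- a part without pages has a pentagon -/
  pent : ∀ {x : V}, Z x → (∀ n, ¬ K.ar n x) → ∃ n k y z, Qn P n x k y z
  /-- and only one -/
  dir : ∀ {x n k y z n' k' y' z' : V}, Z x → (∀ n, ¬ K.ar n x) → Qn P n x k y z →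
    Qn P n' x k' y' z' → (n' = n ∧ k' = k ∧ y' = y ∧ z' = z) ∨
      (n' = k ∧ k' = n ∧ y' = z ∧ z' = y)
  /-- the parts have poles -/
  sft : ∀ {x : V}, Z x → ∃ a, K.ar x a
  /-- the other softs -/
  rest : ∀ {x a : V}, K.ar x a → ¬ Z x → Infinite ↥(stabilizer H x) ∨ ∃ b, K.ar x b ∧ K.FS b

namespace SyQ

variable {H V : Type} [Group H] [MulAction H V] {S : SyQ H V}

namespace Mq

variable {w u w' : S.X} (m : S.Mq w u w') {Z : V → Prop} (hz : S.P.Prt Z)

include m hz

/-- a part with pages over `u` -/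
theorem pgZ (hp : S.Plcd) {x n0 a0 : V} (hx : Z x) (hJ : S.J x = {u})
    (hG : ∀ n k y, Q4 S.P n x k y → S.K.ar n x → u ∉ S.J y) (hn0 : S.K.ar n0 x)
    (ha0 : S.K.ar x a0) : False := by
  have hux : u ∈ S.J x := by rw [hJ]; rfl
  obtain ⟨k0, h1, h2, h3⟩ := m.pc hn0 ha0
  obtain ⟨t, ht, k1, -⟩ := m.tt hJ hG h2 h3
  -- all pages contain `t`
  have hpg : ∀ k, S.K.ar k x → t ∈ S.J k := by
    intro k hk
    exact ((m.pct hJ ht hG (hz.one hx h2 hk)).1 ⟨h2, k1⟩).2
  -- all poles contain `t`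
  have hpole : ∀ c, S.K.ar x c → t ∈ S.J c := by
    intro c hc
    obtain ⟨l, l1, l2, l3⟩ := m.pc hn0 hc
    obtain ⟨t1, m1, m2, m3⟩ := m.tt hJ hG l2 l3
    rwa [mq_one l2 hux (mq_mem hJ (Or.inl l2)) m1 ht m2 (hpg l l2)] at m3
  have hfix : ∀ h : H, h • x = x → h • t = t := by
    intro h hh
    have hu : h • u = u := mq_fix hJ hh
    have hadj : S.D.G.Adj u (h • t) := by
      have := S.D.adj_smul h _ _ ht
      rwa [hu] at this
    have hk' : S.K.ar (h • n0) x := by
      have := S.K.ar_smul h _ _ hn0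
      rwa [hh] at this
    exact mq_one hk' hux (mq_mem hJ (Or.inl hk')) hadj ht (S.js.smul h _ _ (hpg n0 hn0))
      (hpg _ hk')
  obtain ⟨k, l1, l2⟩ := hp.page x u t hJ ht hfix hpole ⟨n0, hn0⟩
  exact l2 (hpg k l1)

/-- a part without pages over `u` -/
theorem dirZ (hp : S.Plcd) {x : V} (hx : Z x) (hJ : S.J x = {u}) (hn : ∀ n, ¬ S.K.ar n x) :
    False := by
  have hux : u ∈ S.J x := by rw [hJ]; rfl
  obtain ⟨a, b, y, z, hq⟩ := hz.pent hx hn
  obtain ⟨c, hce⟩ := Qn.cen hq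
  have hne : u ≠ c := by
    rintro rfl
    exact m.nc hq hce
  obtain ⟨t, ht, h2⟩ := bey_of_ne hne
  have h3 : t ∉ S.J x := by
    rw [hJ]
    exact ht.ne'
  obtain ⟨c1, c2⟩ := nbr_cs hq hce hux ht h2 h3
  have ha : S.K.ar x a := (hq.E1).resolve_left (hn a)
  have hb : S.K.ar x b := (hq.E2).resolve_right (hn b)
  have hpole : ∀ d, S.K.ar x d → t ∈ S.J d := by
    intro d hd
    rcases GX.Sft.cases ha hb (m.nbt hq.rot.cor.symm) hd with rfl | rfl
    · exact c1.2
    · exact c2.2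
  -- all pentagons at `x` have the centre `c`
  have huniq : ∀ {n k y' z' : V} {c' : S.X}, Qn S.P n x k y' z' →
      S.IsC ![n, x, k, y', z'] c' → c' = c := by
    intro n k y' z' c' h h'
    rcases hz.dir hx hn hq h with ⟨rfl, rfl, rfl, rfl⟩ | ⟨rfl, rfl, rfl, rfl⟩
    · exact S.isC_unique (Qn.hv hq) h' hce
    · refine S.isC_unique (Qn.hv hq) ?_ hce
      intro i
      have e0 := h' 0
      have e1 := h' 1
      have e2 := h' 2
      have e3 := h' 3
      have e4 := h' 4
      fin_cases i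
      · exact Or.symm e1
      · exact Or.symm e0
      · exact Or.symm e4
      · exact Or.symm e3
      · exact Or.symm e2
  have hfix : ∀ h : H, h • x = x → h • t = t := by
    intro h hh
    have hu : h • u = u := mq_fix hJ hh
    have hadj : S.D.G.Adj u (h • t) := by
      have := S.D.adj_smul h _ _ ht
      rwa [hu] at this
    have hq' := hq.smul h
    rw [hh] at hq'
    have hc' : S.IsC ![h • a, x, h • b, h • y, h • z] (h • c) := by
      obtain ⟨c', hc'⟩ := Qn.cen hq'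
      have e : h⁻¹ • c' = c := by
        refine S.isC_unique (Qn.hv hq) ?_ hce
        intro i
        have e0 := hc' 0
        have e1 := hc' 1
        have e2 := hc' 2
        have e3 := hc' 3
        have e4 := hc' 4
        have mv : ∀ {v : V}, c' ∈ S.J (h • v) → h⁻¹ • c' ∈ S.J v := by
          intro v hv
          have := S.js.smul h⁻¹ _ _ hv
          rwa [inv_smul_smul] at this
        have mx : c' ∈ S.J x → h⁻¹ • c' ∈ S.J x := by
          intro hv
          apply mv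
          rw [hh]
          exact hv
        fin_cases i
        · exact e0.imp mv mx
        · exact e1.imp mx mv
        · exact e2.imp mv mv
        · exact e3.imp mv mv
        · exact e4.imp mv mv
      rw [← e, smul_inv_smul]
      exact hc'
    have e := huniq hq' hc'
    refine x_next_unique S.D.tree hadj ht (b := c) ?_ h2
    have h5 := S.D.tact.dist_smul h c u
    have h6 := S.D.tact.dist_smul h c t
    rw [e, hu] at h5
    rw [e] at h6
    have h2' : S.D.G.dist c u = S.D.G.dist c t + 1 := h2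
    rw [h5, h6]
    exact h2'
  obtain ⟨a', b', y', z', c', l1, l2, l3⟩ := hp.nopage x u t ⟨a, ha⟩ hn hJ ht hfix hpole
    ⟨_, _, _, _, hq⟩
  rw [huniq l1 l2] at l3
  exact l3 h2

/-- NO SQUARE OVER `u` -/
theorem nsqZ (hp : S.Plcd) {a q b y : V}
    (hq : Q4 S.P a q b y) (ha : u ∈ S.J a) (hq' : u ∈ S.J q) (hb : u ∈ S.J b) (hy : u ∈ S.J y) :
    False := by
  obtain ⟨N, hN⟩ := S.K.rk_bdd
  have key : ∀ k : ℕ, ∀ x a b y, Z x → Q4 S.P a x b y → S.K.ar x a → S.K.ar x b →
      u ∈ S.J x → u ∈ S.J a → u ∈ S.J b → u ∈ S.J y → N + 1 ≤ S.K.rk x + k → False := by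
    intro k
    induction k with
    | zero =>
      intro x a b y _ _ _ _ _ _ _ _ h2
      have h5 := hN x
      omega
    | succ k ih =>
      intro x a b y hx hs hxa hxb hx0 ha hb hy hr
      have hab : a ≠ b := (m.nbt hs.rot.cor).symm
      have hJ : S.J x = {u} := by
        ext p
        constructor
        · intro hpT
          by_contra hpu
          obtain ⟨t, k1, k2, -⟩ := ex_nbp hx0 hpT (fun e => hpu e.symm)
          obtain ⟨c, hc, hJc⟩ := S.js.cross x ⟨a, hxa⟩ u t k1 hx0 k2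
          have huc : u ∈ S.J c := by
            rcases GX.Sft.cases hxa hxb hab hc with rfl | rfl
            · exact ha
            · exact hb
          exact Pool.Agent.BT.bey_irr_l (hJc huc)
        · rintro rfl
          exact hx0
      have hG : ∀ n l z, Q4 S.P n x l z → S.K.ar n x → u ∉ S.J z := by
        intro n l z hs hn hzz
        have hun := mq_mem hJ hs.E1
        have hul := mq_mem hJ (Or.symm hs.E2)
        have h1 := S.K.ar_rk _ _ hn
        rcases hz.sq hs with ⟨-, h, -⟩ | ⟨h, h2, h3⟩ | ⟨h, h2, h3⟩ | ⟨h, h2, h3⟩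
        · have := S.K.ar_rk _ _ h
          omega
        · have := S.K.ar_rk _ _ h2
          exact ih z n l x h hs.symm.rot.rot h2 h3 hzz hun hul hx0 (by omega)
        · exact ih n x z l h hs.rot.rot.rot.symm h2 h3 hun hx0 hzz hul (by omega)
        · exact ih l x z n h hs.rot h2 h3 hul hx0 hzz hun (by
            have := S.K.ar_rk _ _ h2
            omega)
      by_cases hpg : ∃ n, S.K.ar n x
      · obtain ⟨n0, hn0⟩ := hpg
        exact m.pgZ hz hp hx hJ hG hn0 hxa
      · push Not at hpg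
        exact m.dirZ hz hp hx hJ hpg
  rcases hz.sq hq with ⟨h, h2, h3⟩ | ⟨h, h2, h3⟩ | ⟨h, h2, h3⟩ | ⟨h, h2, h3⟩
  · exact key (N + 1) q a b y h hq h2 h3 hq' ha hb hy (by omega)
  · exact key (N + 1) y a b q h hq.symm.rot.rot h2 h3 hy ha hb hq' (by omega)
  · exact key (N + 1) a q y b h hq.rot.rot.rot.symm h2 h3 ha hq' hy hb (by omega)
  · exact key (N + 1) b q y a h hq.rot h2 h3 hb hq' hy ha (by omega)

/-- a placed system has nothing but crossing vertices over `u` -/
theorem mpZ (hp : S.Plcd) {Y : V → Prop} (h0 : S.GdQ0 Y) : S.Mp w u w' where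
  mid := m.mid
  ec := m.ec
  nbt := m.nbt
  pc := m.pc
  nc := m.nc
  nsq := fun hq => m.nsqZ hz hp hq
  snk := m.snk h0 (fun hq => m.nsqZ hz hp hq) hp

/-- NOTHING SITS OVER THE MIDPOINT -/
theorem voidZ (hp : S.Plcd) {Y : V → Prop} (h0 : S.GdQ0 Y)
    (ht : ∀ x a, S.K.ar x a → Infinite ↥(stabilizer H ((x, a) : V × V)) → S.Tog x a)
    (hv : ∀ x a, S.K.ar x a → Infinite ↥(stabilizer H ((x, a) : V × V)) →
      ∃ b y z, Qn S.P x a b y z) (v : V) : S.J v ≠ {u} := by
  intro hJ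
  have huv : u ∈ S.J v := by rw [hJ]; rfl
  by_cases hs : ∀ a, ¬ S.K.ar v a
  · exact m.no_snk (fun hq => m.nsqZ hz hp hq) hp hs hJ
  push Not at hs
  obtain ⟨a, ha⟩ := hs
  have hG : ∀ n k y, Q4 S.P n v k y → S.K.ar n v → u ∉ S.J y := fun n k y hq _ hy =>
    m.nsqZ hz hp hq (mq_mem hJ hq.E1) huv (mq_mem hJ (Or.symm hq.E2)) hy
  by_cases hZv : Z v
  · by_cases hpg : ∃ n, S.K.ar n v
    · obtain ⟨n0, hn0⟩ := hpg
      exact m.pgZ hz hp hZv hJ hG hn0 ha
    · push Not at hpg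
      exact m.dirZ hz hp hZv hJ hpg
  · rcases hz.rest ha hZv with hi | ⟨b, hb, hfs⟩
    · have hi' := inf_pole ha hi
      obtain ⟨p, h1, h2⟩ := ht v a ha hi'
      have e : u = p := by
        rw [hJ] at h1
        exact Set.singleton_injective h1
      subst e
      obtain ⟨b, y, z, hq⟩ := hv v a ha hi'
      obtain ⟨c, hc⟩ := Qn.cen hq
      have e : c = u := by
        have h0 : c ∈ S.J v ∨ c ∈ S.J a := hc 0
        rw [h1, h2] at h0
        exact h0.elim id id
      rw [e] at hc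
      exact m.nc hq hc
    · have hub : u ∈ S.J b := mq_mem hJ (Or.inr hb)
      have hfin : Finite ↥(stabilizer H b) := hfs.2
      have := S.D.tree.connected.nonempty
      have hell : Ell H S.X b := by
        obtain ⟨c, hc⟩ := Pool.Agent.SAG.fix_of_finite S.D.tact (stabilizer H b) hfin
        exact ⟨c, hc⟩
      obtain ⟨p, hp1⟩ := h0.one b hfs.1 hell
      rw [hp1, Set.mem_singleton_iff] at hub
      rw [← hub] at hp1
      exact m.no_snk (fun hq => m.nsqZ hz hp hq) hp hfs.1 hp1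

end Mq

/-! ### facts on `Plc` -/

theorem Plc.oneE {w u w' : S.X} (p : S.Plc w u w') : OneE S.D := by
  intro x y x' y' h h'
  exact Eo.one (p.one x y h) (p.one x' y' h')

theorem Plc.orb {w u w' : S.X} (p : S.Plc w u w') (x : S.X) :
    (∃ h : H, h • w = x) ∨ ∃ h : H, h • u = x := by
  obtain ⟨y, hy⟩ := exists_nb S.D x
  obtain ⟨g, ⟨g1, g2⟩ | ⟨g1, g2⟩⟩ := p.one x y hy
  · exact Or.inl ⟨g, g1⟩
  · exact Or.inr ⟨g, g2⟩

theorem Plc.inv1 {w u w' : S.X} (p : S.Plc w u w') (hU : InC ↥(stabilizer H u)) {b : H}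
    (hb : b • u = u) (hbw : b • w = w') : S.Inv1 w u where
  adj := p.mp.mid.hw.symm
  orb := p.orb
  ne := p.ne
  inC := hU
  flip := by
    refine ⟨b, hb, ?_, ?_⟩
    · rw [hbw]
      exact p.mp.mid.ne.symm
    · intro y hy
      rw [hbw]
      exact p.mp.mid.val y hy

/-- `w` is bad -/
theorem Plc.badw {w u w' : S.X} (p : S.Plc w u w') (hU : InC ↥(stabilizer H u)) (hb : ¬ SA H) :
    ¬ SA ↥(stabilizer H w) := by
  obtain ⟨x, hx⟩ := exists_bad hb S.D
  rcases p.orb x with ⟨g, rfl⟩ | ⟨g, rfl⟩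
  · intro h
    apply hx
    have e : stabilizer H (g • w) = (stabilizer H w).map (MulAut.conj g).toMonoidHom :=
      MulAction.stabilizer_smul_eq_stabilizer_map_conj g w
    rw [e]
    exact Pool.Agent.SAF.SA.iso (Subgroup.equivMapOfInjective _ _ (MulAut.conj g).injective) h
  · exact absurd (Pool.Agent.BT.SA_of_InC (inC_stab_smul g u hU)) hx

variable (S) in
/-- A GOOD PLACED ONE-EDGE SYSTEM AT A BAD VERTEX; in the inverted case nothing sits over the
midpoint -/
structure SyP (w : S.X) : Prop where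
  gd : S.GdQ S.K.FS
  tog : ∀ x a, S.K.ar x a → Infinite ↥(stabilizer H ((x, a) : V × V)) → S.Tog x a
  plcd : S.Plcd
  one : OneE S.D
  badw : ¬ SA ↥(stabilizer H w)
  bad : ¬ SA H
  wm : S.WMin w
  lc : ∀ v, S.K.LC v
  inf : ∀ x y, S.D.G.Adj x y → Infinite ↥(stabilizer H x ⊓ stabilizer H y)
  fs : ∀ z, S.K.FS z → S.P.NoQ z
  alt : (∀ x y : S.X, ∃ h : H, h • x = y) ∨ ∃ (u w' : S.X) (b : H), S.Plc w u w' ∧
    InC ↥(stabilizer H u) ∧ b • u = u ∧ b • w = w' ∧ ∀ v, S.J v ≠ {u}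

end SyQ

/-- GOOD PLACED ONE-EDGE SYSTEMS EXIST, for complexes of parts -/
theorem FoldC.exists_syP {C : Cd} (hC : C.LW) {V : Type} [MulAction C.H V] {K : GX C.H V}
    {P : P45 K} {f : V → C.V} (F : FoldC C P f) (hout : PlOut P) {Z : V → Prop} (hz : P.Prt Z)
    (nbt : ∀ {n v k : V}, K.Cor n v k → n ≠ k)
    (pc : ∀ {v n a : V}, K.ar n v → K.ar v a → ∃ k, K.PC v n k ∧ K.ar k v ∧ K.Cor k v a) :
    ∃ (D : Decomp C.H) (J : V → Set D.X) (js : JS P.pq D J) (w : D.X),
      (SyQ.mk K P D J js).SyP w := by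
  have key : ∀ {D : Decomp C.H} {J : V → Set D.X} {js : JS P.pq D J} {w : D.X},
      (SyQ.mk K P D J js).GdQ K.FS →
      (∀ x a, K.ar x a → Infinite ↥(stabilizer C.H ((x, a) : V × V)) →
        (SyQ.mk K P D J js).Tog x a) → (SyQ.mk K P D J js).Plcd → OneE D →
      ¬ SA ↥(stabilizer C.H w) → ((∀ x y : D.X, ∃ h : C.H, h • x = y) ∨
        ∃ (u w' : D.X) (b : C.H), (SyQ.mk K P D J js).Plc w u w' ∧
        InC ↥(stabilizer C.H u) ∧ b • u = u ∧ b • w = w' ∧ ∀ v, J v ≠ {u}) →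
      (SyQ.mk K P D J js).SyP w := by
    intro D J js w h1 h2 h3 h4 h5 h6
    exact
      { gd := h1
        tog := h2
        plcd := h3
        one := h4
        badw := h5
        bad := C.bad
        wm := F.wmin js h5
        lc := F.lc
        inf := fun x y e => hC.all_inf D h4 e
        fs := F.fs
        alt := h6 }
  rcases hout with ⟨D, J, js, h1, h2, h3, h4, h5⟩ | ⟨D, J, js, w, u, h0, ht, hp, hone, hw, hi, hnc⟩
  · obtain ⟨w, hw⟩ := exists_bad C.bad D
    exact ⟨D, J, js, w, key h1 h2 h3 h4 hw (Or.inl h5)⟩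
  · let S : SyQ C.H V := ⟨K, P, D, J, js⟩
    obtain ⟨b, hbu, hbw, hval⟩ := hi.flip
    have hbu : b • u = u := hbu
    have hadj : S.D.G.Adj u w := hi.adj.symm
    have hadj' : S.D.G.Adj u (b • w) := by
      have := S.D.adj_smul b _ _ hadj
      rwa [hbu] at this
    have m : S.Mq w u (b • w) :=
      { mid := ⟨hadj, hadj', hbw.symm, hval⟩
        lc := F.lc
        ec := fun e => K.EC_of_E F.lc C.bad e
        nbt := nbt
        pc := pc
        nc := fun hq => hnc _ _ _ _ _ hq }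
    have mp := m.mpZ hz hp h0
    have hvoid := m.voidZ hz hp h0 ht F.hv
    have plc : S.Plc w u (b • w) :=
      ⟨mp, fun x y h => hone _ _ _ _ hi.adj h, hi.ne, fun v hv => absurd hv (hvoid v)⟩
    obtain ⟨D1, c, T, hc, hs, w1, u1, w1', g1, p1, e1, -, b1, b2⟩ :=
      SyQ.exists_placedQ (S := S) h0 (fun z _ hz => FoldC.fs_ell S.next.D z hz) plc hi.inC hbu rfl
        (fun D1 => hC.exists_inf D1)
    let S1 : SyQ C.H V := S.next.col hs T hc
    have hp1 : S1.Plcd := SyQ.Plcd.col (SyQ.Plcd.next hp) hs T hc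
    have ht1 : ∀ x a, K.ar x a → Infinite ↥(stabilizer C.H ((x, a) : V × V)) → S1.Tog x a := by
      intro x a ha hi
      exact SyQ.Tog.col hs T hc ((ht x a ha hi).next (Or.inl ha))
    have hU1 : InC ↥(stabilizer C.H u1) := by
      rw [e1]
      exact hi.inC
    have m1 : S1.Mq w1 u1 w1' :=
      { mid := p1.mp.mid
        lc := F.lc
        ec := p1.mp.ec
        nbt := p1.mp.nbt
        pc := p1.mp.pc
        nc := p1.mp.nc }
    have h01 : S1.GdQ0 K.FS := ⟨g1.soft, g1.fin, g1.one, g1.seen, g1.ax⟩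
    have hvoid1 := m1.voidZ hz hp1 h01 ht1 F.hv
    exact ⟨D1, _, S1.js, w1, key g1 ht1 hp1 p1.oneE (p1.badw hU1 C.bad)
      (Or.inr ⟨u1, w1', b, p1, hU1, b1, b2, hvoid1⟩)⟩

/-- GOOD PLACED ONE-EDGE SYSTEMS OF AN OPENED COMPLEX -/
theorem Cd.LW.exists_syO {C : Cd} (hC : C.LW) {V : Type} [MulAction C.H V] {K : GX C.H V}
    {P : P45 K} {f : V → C.V} (F : FoldC C P f) (hT : P.SqT) {W : Type} [MulAction C.H W]
    (O : OpW K W) (hf : O.DF) (lc : ∀ v, O.gx.LC v)
    (fs : ∀ z, O.gx.FS z → (O.p45 P).NoQ z) {Z : W → Prop} (hz : (O.p45 P).Prt Z)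
    (nbt : ∀ {n v k : W}, O.gx.Cor n v k → n ≠ k)
    (pc : ∀ {v n a : W}, O.gx.ar n v → O.gx.ar v a →
      ∃ k, O.gx.PC v n k ∧ O.gx.ar k v ∧ O.gx.Cor k v a) :
    ∃ (D : Decomp C.H) (J : W → Set D.X) (js : JS (O.p45 P).pq D J) (w : D.X),
      (SyQ.mk O.gx (O.p45 P) D J js).SyP w :=
  (F.opn O hf lc fs).exists_syP hC (hC.one_placedO F hT O hf lc fs) hz nbt pc

end Pool.Agent.DI
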