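import Pool.Agent.DI.OpnZs
import Pool.Agent.DI.OStK
import Pool.Agent.DI.SysP
import Pool.Agent.DI.SqWO

/-!
# DI/SpSt: the total split of a state

`C : St`. `C.ofs : OpR C.K (Lbl C.V C.K.LE)` (labels = pieces, direct corners of pentagons),
`C.ow : OpW C.K C.ofs.W`. `ow_DF`, `ow_lc`, `ow_noq`, `ow_prt`, `ow_mix`, `ow_sqw`, `ow_twp`, `ow_TZ`,
`ow_nbt`, `ow_pc`: the inputs of `Cd.LW.exists_syO`, `FoldC.rk_syP`.
-/

namespace Pool.Agent.DI

open MulAction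
open Pool.Agent.SAF (InC orbs FinOrb oc FinOrb_iff)

namespace SpD

variable {H V : Type} [Group H] [MulAction H V] {K : GX H V} {P : P45 K} {Z : Set V} (O : SpD P Z)

/-- a part without pages has a pentagon -/
theorem sp_pent {x : O.sp.W} (hx : O.sp.π x ∈ Z)
    (hor : (∃ n, K.ar n (O.sp.π x)) ∨ ∃ f, f ∈ P.DP (O.sp.π x))
    (hn : ∀ n, ¬ O.sp.opr.gx.ar n x) : ∃ n k y z, Qn (O.sp.opr.p45 P) n x k y z := by
  rcases O.cases x with ⟨-, h⟩ | ⟨-, n, h1, h2⟩ | ⟨-, f, h1, h2⟩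
  · exfalso
    obtain ⟨k1, k2⟩ := h hx
    rcases hor with ⟨n, hn'⟩ | ⟨f, hf⟩
    · exact k1 n hn'
    · exact k2 f hf
  · exfalso
    obtain ⟨n', rfl⟩ := O.sp.opr.sur n
    refine hn n' (O.sp.ar_mk h1 ?_)
    rw [h2]
    exact (r_Z hx).symm
  · obtain ⟨⟨i, j⟩, g⟩ := f
    obtain ⟨hi, e1, a0, a2⟩ := h1
    have hi : ¬ P.sq i := hi
    have hl := P.len5 hi
    have e1 : g • K.vx i ((j : ℕ) + 1) = O.sp.π x := e1
    have a0 : K.ar (O.sp.π x) (g • K.vx i (j : ℕ)) := a0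
    have a2 : K.ar (O.sp.π x) (g • K.vx i ((j : ℕ) + 2)) := a2
    set m : Fin 5 := Fin.cast hl j with hm
    have hmj : (m : ℕ) = (j : ℕ) := rfl
    have f1 : ∀ m : Fin 5, ((m : ℕ) + 1) % 5 = ((m + 1 : Fin 5) : ℕ) := by decide
    have f2 : ∀ m : Fin 5, ((m : ℕ) + 2) % 5 = ((m + 2 : Fin 5) : ℕ) := by decide
    have v0 : K.vx i (j : ℕ) = P.pt i m := P.vx5 hi m
    have v1 : K.vx i ((j : ℕ) + 1) = P.pt i (m + 1) := by
      rw [← hmj, ← K.vx_mod, hl, f1, P.vx5 hi]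
    have v2 : K.vx i ((j : ℕ) + 2) = P.pt i (m + 2) := by
      rw [← hmj, ← K.vx_mod, hl, f2, P.vx5 hi]
    rw [v1] at e1
    rw [v0, ← e1] at a0
    rw [v2, ← e1] at a2
    have b0 : K.ar (P.pt i (m + 1)) (P.pt i m) := by
      have := K.ar_smul g⁻¹ _ _ a0
      rwa [inv_smul_smul, inv_smul_smul] at this
    have b2 : K.ar (P.pt i (m + 1)) (P.pt i (m + 2)) := by
      have := K.ar_smul g⁻¹ _ _ a2
      rwa [inv_smul_smul, inv_smul_smul] at this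
    have hz : K.vx i ((m + 1 : Fin 5) : ℕ) ∈ Z := by
      rw [P.vx5 hi]
      have := O.inv g⁻¹ _ hx
      rw [← e1, inv_smul_smul] at this
      exact this
    have key : x = g • O.sp.opr.lp i ((m + 1 : Fin 5) : ℕ) := by
      refine Subtype.ext (Prod.ext ?_ ?_)
      · show O.sp.π x = g • O.sp.π (O.sp.opr.lp i ((m + 1 : Fin 5) : ℕ))
        rw [show O.sp.π (O.sp.opr.lp i ((m + 1 : Fin 5) : ℕ)) = P.pt i (m + 1) from
          (O.sp.opr.π_lp _ _).trans (P.vx5 hi _)]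
        exact e1.symm
      · show x.1.2 = g • (O.sp.opr.lp i ((m + 1 : Fin 5) : ℕ)).1.2
        rw [O.dir_aux hi m hz b0 b2, h2]
        exact (congrArg Lbl.dir (LE_one K ⟨i, Fin.cast (P.len5 hi).symm m⟩ g)).symm
    exact ⟨_, _, _, _, g, Sum.inl i, m, hi, Or.inl ⟨rfl, key, rfl, rfl, rfl⟩⟩

end SpD

namespace St

variable (C : St)

/-- a soft of the standard set has an in-arrow or a direct corner of a pentagon -/
theorem or_Zs {y : C.V} (hy : y ∈ C.K.Zs) : (∃ n, C.K.ar n y) ∨ ∃ f, f ∈ C.P.DP y := by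
  by_contra hcon
  rw [not_or] at hcon
  obtain ⟨h1, h2⟩ := hcon
  push Not at h1
  obtain ⟨-, ⟨a, b, hab, ha, hb⟩, -⟩ := hy
  obtain ⟨x, hx⟩ := GX.EC_iff.1 (C.K.EC_of_E C.lc C.bad (Or.inr ha : C.K.E a y))
  have hx1 : C.K.ar y x := by
    rcases hx.E2 with k | k
    · exact k
    · exact absurd k (h1 _)
  rcases C.P.cor_iff.1 hx with ⟨z, z', g, i, j, hi, k⟩ | ⟨z, k⟩
  · apply h2
    refine ⟨C.P.l5 i hi j g, hi, ?_, ?_, ?_⟩
    · rw [C.P.c1_5]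
      rcases k with k | k
      · exact k.2.1.symm
      · exact k.2.1.symm
    · rw [C.P.c0_5]
      rcases k with k | k
      · rw [← k.1]
        exact ha
      · rw [← k.1]
        exact hx1
    · rw [C.P.c2_5]
      rcases k with k | k
      · rw [← k.2.2.1]
        exact hx1
      · rw [← k.2.2.1]
        exact ha
  · have hT : C.P.Top y a x z := ⟨k, ha, hx1⟩
    rcases P45.tp_of (T := y) (a := a) (C.cls.x1 (y, a) ⟨x, z, hT⟩) with ⟨n, hn⟩ | ⟨f, hf⟩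
    · exact h1 n hn
    · exact h2 ⟨f, hf⟩

/-- THE TOTAL SPLIT OF A STATE -/
noncomputable def ofs : OpR C.K (Lbl C.V C.K.LE) := (P45.Zs_sp C.cls).sp

/-- the same as an opening -/
noncomputable def ow : OpW C.K C.ofs.W := C.ofs.opr

/-- the parts -/
def Zf (x : C.ofs.W) : Prop := C.ofs.π x ∈ C.K.Zs

theorem ow_Tw : C.ow.Tw := C.ofs.opr_Tw

theorem ow_ne (j : C.ow.J) : C.ow.js j ≠ C.ow.jt j := C.ofs.opr_ne j

theorem ow_DE : C.ow.DE := C.ofs.opr_DE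

theorem ow_DF : C.ow.DF := (P45.Zs_sp C.cls).sp_DF

theorem ow_NP : C.ow.NP := (P45.Zs_sp C.cls).sp_NP fun _ hy a ha => hy.2.2 a ha

theorem ow_lc (v : C.ofs.W) : C.ow.gx.LC v := C.ow.lc C.ow_Tw C.ow_DE C.lc v

theorem ow_noq (z : C.ofs.W) (hz : C.ow.gx.FS z) : (C.ow.p45 C.P).NoQ z :=
  C.ow.noq C.ow_NP C.ow_ne C.fs z hz

theorem ow_nbt {n v k : C.ofs.W} (h : C.ow.gx.Cor n v k) : n ≠ k := C.ofs.nbt h

theorem ow_pc {v n a : C.ofs.W} (hn : C.ow.gx.ar n v) (ha : C.ow.gx.ar v a) :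
    ∃ k, C.ow.gx.PC v n k ∧ C.ow.gx.ar k v ∧ C.ow.gx.Cor k v a := C.ofs.pc hn ha

/-- THE PARTS -/
theorem ow_prt : (C.ow.p45 C.P).Prt C.Zf where
  sq h := (P45.Zs_sp C.cls).sp_sq (fun _ _ _ _ k => P45.sq_Zs C.cls C.tf C.fs k) h
  one hx hn hk := (P45.Zs_sp C.cls).sp_one hx hn hk
  pent hx hn := (P45.Zs_sp C.cls).sp_pent hx (C.or_Zs hx) hn
  dir := by
    intro x n k y z n' k' y' z' hx hn h h'
    have a1 : C.ow.gx.ar x n := h.E1.resolve_left (hn n)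
    have a2 : C.ow.gx.ar x k := h.E2.resolve_right (hn k)
    have b1 : C.ow.gx.ar x n' := h'.E1.resolve_left (hn n')
    have b2 : C.ow.gx.ar x k' := h'.E2.resolve_right (hn k')
    exact (P45.Zs_sp C.cls).sp_dir hx b1 b2 h' a1 a2 h
  sft := by
    intro x hx
    obtain ⟨a, -, -, ha, -⟩ := hx.2.1
    exact ⟨_, C.ow.ar_e x ha⟩
  rest := by
    intro x a ha hz
    by_contra hcon
    rw [not_or] at hcon
    obtain ⟨h1, h2⟩ := hcon
    have hfin : Finite ↥(stabilizer C.H x) := by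
      by_contra hi
      exact h1 (not_finite_iff_infinite.1 hi)
    apply hz
    have hd : ¬ C.ow.Dbl x := fun hd => hz ((P45.Zs_sp C.cls).dbl_Z hd)
    have e := C.ow.stab_eq hd
    refine ⟨?_, ?_, ?_⟩
    · rw [e] at hfin
      exact hfin
    · obtain ⟨d, hd1, hd2⟩ := C.two (C.ow.ar_π ha)
      exact ⟨_, d, hd2.symm, C.ow.ar_π ha, hd1⟩
    · intro b hb hs
      refine h2 ⟨_, C.ow.ar_e x hb, C.ow.fs_up ?_⟩
      rw [show C.ow.π (C.ow.e (C.ow.π x) b) = b from C.ow.π_e _ _ hb]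
      exact hs

/-- a part with a page has no direct pentagon -/
theorem ow_mix (x n a b y z : C.ofs.W) (hx : C.Zf x) (hn : C.ow.gx.ar n x) (ha : C.ow.gx.ar x a)
    (hb : C.ow.gx.ar x b) : ¬ Qn (C.ow.p45 C.P) a x b y z :=
  fun h => (P45.Zs_sp C.cls).dir_nopage hx ha hb h hn

/-- the class of the squares -/
theorem ow_sqw : (C.ow.p45 C.P).SqW C.ow.Tw2 (C.ow.Tc C.P) (C.ow.pw C.P) :=
  C.ow.sqW C.cls.toSqE

theorem ow_twp (x y : C.ofs.W) (h : C.ow.Tw2 x y) :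
    (∃ a, C.ow.gx.ar x a) ∧ ∀ a, C.ow.gx.ar x a → C.ow.gx.ar y a := OpW.Tw2.poles x y h

theorem ow_TZ (T : C.ofs.W) (h : C.ow.Tc C.P T) : C.Zf T := by
  obtain ⟨a, b, y, k⟩ := OpW.Tc.top h
  exact P45.top_Zs C.cls C.tf C.fs k

end St

end Pool.Agent.DI
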