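import Pool.Agent.DI.DscU
import Pool.Agent.DI.SpSt

/-!
# DI/DscN: the vertices of the step complex

`s : m.Stp J`. `not_bare`: an opened label is not bare, if every vertex of the split complex with a twin has
an in-arrow or a direct corner of a pentagon. `bare_top`: a bare top is a translate of the bare vertex of a
listed square. `two_parts`, `pt_parts`, `inj_parts`: the opened vertices which are not bare. `hbb`: two
vertices which are no labels are never opposite in a square. `noE`: the top of a local square is not opened.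
`St.ow_hz`: the hypothesis `Hz` for the total split of a state.
-/

namespace Pool.Agent.DI

open MulAction
open Pool.Agent.SAF (InC SA orbs FinOrb oc Decomp SAn Conv FinOrb_iff exists_next)
open Pool.Agent.BT (PX PQ JS bey exits Ell mst)

namespace OpMap

variable {H V W W1 : Type} [Group H] [MulAction H V] [MulAction H W] [MulAction H W1]
  {K : GX H V} {P : P45 K} {O : OpW K W} {O1 : OpW K W1} {m : OpMap O O1} {D : Decomp H}
  {J : W → Set D.X} {σ : V → D.X}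

variable (P) in
/-- every vertex of the split complex with a twin has an in-arrow or a direct corner of a pentagon -/
def Hz (O : OpW K W) : Prop := ∀ x, O.Dbl x → (∃ n, O.gx.ar n x) ∨
  ∃ a b y z, O.gx.ar x a ∧ O.gx.ar x b ∧ Qn (O.p45 P) a x b y z

/-- a label of a vertex with an in-arrow or a direct corner of a pentagon is not bare -/
theorem not_bare_f {x : W} (h : (∃ n, O.gx.ar n x) ∨
    ∃ a b y z, O.gx.ar x a ∧ O.gx.ar x b ∧ Qn (O.p45 P) a x b y z) :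
    ¬ (O1.p45 P).Bare (m.f x) := by
  intro hb
  rcases h with ⟨n, hn⟩ | ⟨a, b, y, z, ha, hb', hq⟩
  · exact hb.1 _ (m.ar hn)
  · exact hb.2 _ _ _ _ (m.ar ha) (m.ar hb') (m.pent P hq)

/-- a lifted square consists of labels -/
theorem q4_im {a v b y : W1} (h : ∃ (g : H) (i : K.I) (k : Fin 4), P.sq i ∧
      ((a = g • (O1.p45 P).qt (Sum.inl i) k ∧ v = g • (O1.p45 P).qt (Sum.inl i) (k + 1) ∧
        b = g • (O1.p45 P).qt (Sum.inl i) (k + 2) ∧ y = g • (O1.p45 P).qt (Sum.inl i) (k + 3)) ∨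
      (b = g • (O1.p45 P).qt (Sum.inl i) k ∧ v = g • (O1.p45 P).qt (Sum.inl i) (k + 1) ∧
        a = g • (O1.p45 P).qt (Sum.inl i) (k + 2) ∧ y = g • (O1.p45 P).qt (Sum.inl i) (k + 3)))) :
    m.Im a ∧ m.Im v ∧ m.Im b ∧ m.Im y := by
  obtain ⟨g, i, k, hi, h⟩ := h
  have e : ∀ k : Fin 4, m.Im (g • (O1.p45 P).qt (Sum.inl i) k) := by
    intro k
    refine ⟨g • (O.p45 P).qt (Sum.inl i) k, ?_⟩
    rw [m.f_smul]
    exact congrArg (fun t => g • t) (m.f_lp i k.1)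
  rcases h with ⟨rfl, rfl, rfl, rfl⟩ | ⟨rfl, rfl, rfl, rfl⟩
  · exact ⟨e _, e _, e _, e _⟩
  · exact ⟨e _, e _, e _, e _⟩

namespace Stp

variable (s : m.Stp J)
include s

/-- AN OPENED LABEL IS NOT BARE -/
theorem not_bare (hz : Hz P O) {v : W1} (hv : m.Im v) (hd : O1.Dbl v) :
    ¬ (O1.p45 P).Bare v := by
  obtain ⟨x, rfl⟩ := hv
  refine not_bare_f (hz x ?_)
  obtain ⟨x1, x2, e1, e2, hne⟩ := s.dbl_two hd
  rw [m.f_π] at e1 e2
  by_cases k : x1 = x
  · exact ⟨x2, e2.symm, fun q => hne (by rw [k, q])⟩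
  · exact ⟨x1, e1.symm, fun q => k q.symm⟩

/-- an opened vertex is a label iff it is not bare -/
theorem bare_iff (hz : Hz P O) {v : W1} (hd : O1.Dbl v) : (O1.p45 P).Bare v ↔ ¬ m.Im v :=
  ⟨fun h hv => s.not_bare hz hv hd h, nIm_bare⟩

/-- the first vertex of a listed square is a label -/
theorem js_im (j : O1.J) : m.Im (O1.js j) := by
  rcases s.jj j with ⟨x, x', e1, -⟩ | ⟨h, -⟩
  · exact ⟨x, e1⟩
  · exact h

variable {js : JS (O.p45 P).pq D J} {hc : (SyQ.mk O.gx (O.p45 P) D J js).Conn}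
  {tw : W → W → Prop} {Tp : W → Prop} {pt : W → W} {Z : W → Prop}

/-- a top which is no label, in a square -/
theorem nIm_jt {a v b y : W1} (h : O1.NSq a v b y) (hv : ¬ m.Im v) :
    ∃ (j : O1.J) (g : H), v = g • O1.jt j ∧ y = g • O1.js j ∧ ¬ m.Im (O1.jt j) := by
  obtain ⟨g, j, ⟨rfl, rfl⟩ | ⟨rfl, rfl⟩, -⟩ := h
  · exact absurd ((s.js_im j).smul g) hv
  · exact ⟨j, g, rfl, rfl, fun k => hv (k.smul g)⟩

/-- A BARE TOP -/
theorem bare_top (r : (SyQ.mk O.gx (O.p45 P) D J js).RK hc tw Tp pt Z) (hT : P.SqT)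
    (hz : Hz P O) (hb0 : ∀ T a b y, P.Top T a b y → ¬ P.Bare T) {v a b y : W1}
    (h : (O1.p45 P).Top v a b y) (hb : (O1.p45 P).Bare v) :
    ∃ (j : O1.J) (g : H), v = g • O1.jt j ∧ y = g • O1.js j ∧ ¬ m.Im (O1.jt j) := by
  have hd : O1.Dbl v := by
    by_contra hd
    rcases O1.Top_π P h with k | k
    · exact hb0 _ _ _ _ k ((OpW.bare_iff hd).1 hb)
    · exact hd (OpW.NSq.dbl s.ne k).1
  rcases O1.Top_π P h with k | k
  · exact absurd hd ((s.nt r hT).top k)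
  · exact s.nIm_jt k fun hv => s.not_bare hz hv hd hb

/-- a vertex which is no label is a translate of the bare vertex of a listed square -/
theorem nIm_rep {v : W1} (hv : ¬ m.Im v) (ht : O.Tw) : ∃ (j : O1.J) (g : H),
    v = g • O1.jt j ∧ ¬ m.Im (O1.jt j) := by
  obtain ⟨x, x', e1, e2, hne⟩ := exc_two (s.br v hv)
  obtain ⟨a, b, hab, ha, hb⟩ := SyQ.part_poles ht (e1.trans e2.symm) (fun k => hne (by rw [k]))
  have k := s.sqb x v a b hv e1.symm ha hb hab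
  obtain ⟨j, g, h1, -, h2⟩ := s.nIm_jt (OpW.NSq.swap k) hv
  exact ⟨j, g, h1, h2⟩

/-- TWO VERTICES WHICH ARE NO LABELS ARE NOT OPPOSITE -/
theorem hbb (js : JS (O.p45 P).pq D J) {a v b v' : W1} (hv : ¬ m.Im v) (hv' : ¬ m.Im v') :
    ¬ Q4 (O1.p45 P) a v b v' := by
  intro h
  rcases O1.Q4_cases P h with k | k | k
  · exact hv (q4_im k).2.1
  · rcases s.nsq js k with ⟨x, -, e, -⟩ | ⟨h1, -⟩ | ⟨h1, -⟩
    · exact hv ⟨x, e⟩
    · exact hv h1
    · exact hv' h1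
  · exact hv (Im.pole (OpW.NSq.ar _ k).1)

/-- OVER AN OPENED VERTEX THERE ARE TWO VERTICES WHICH ARE NOT BARE -/
theorem two_parts (hz : Hz P O) {x : W1} (h : O1.Dbl x) : ∃ x1 x2, O1.π x1 = O1.π x ∧
    O1.π x2 = O1.π x ∧ x1 ≠ x2 ∧ ¬ (O1.p45 P).Bare x1 ∧ ¬ (O1.p45 P).Bare x2 := by
  obtain ⟨y1, y2, e1, e2, hne⟩ := s.dbl_two h
  have hn : m.f y1 ≠ m.f y2 := fun k => hne (s.inj _ _ k)
  have p1 : O1.π (m.f y1) = O1.π x := by rw [m.f_π, e1]
  have p2 : O1.π (m.f y2) = O1.π x := by rw [m.f_π, e2]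
  exact ⟨m.f y1, m.f y2, p1, p2, hn,
    s.not_bare hz ⟨y1, rfl⟩ ⟨m.f y2, p1.trans p2.symm, hn⟩,
    s.not_bare hz ⟨y2, rfl⟩ ⟨m.f y1, p2.trans p1.symm, hn.symm⟩⟩

/-- THE LABELS ARE THE PLACES -/
theorem inj_parts {x y : W1} (e : O1.π x = O1.π y) (hx : ¬ (O1.p45 P).Bare x)
    (hy : ¬ (O1.p45 P).Bare y) (hJ : m.J1 J σ x = m.J1 J σ y) : x = y := by
  have ix : m.Im x := by
    by_contra k
    exact hx (nIm_bare k)
  have iy : m.Im y := by
    by_contra k
    exact hy (nIm_bare k)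
  obtain ⟨x0, rfl⟩ := ix
  obtain ⟨y0, rfl⟩ := iy
  rw [s.J1_f, s.J1_f] at hJ
  exact s.lab _ _ (by rw [← m.f_π, ← m.f_π, e]) hJ

/-- THE TOP OF A LOCAL SQUARE IS NOT OPENED -/
theorem noE (r : (SyQ.mk O.gx (O.p45 P) D J js).RK hc tw Tp pt Z) (hT : P.SqT) (ht : O.Tw)
    (sg : Sig O J σ) {w : D.X} {T a b y : W1} (h : (O1.p45 P).Top T a b y)
    (h1 : w ∈ m.J1 J σ T) (h2 : w ∈ m.J1 J σ y) : ¬ O1.Dbl T := by
  intro hd
  rcases O1.Top_π P h with k | k
  · exact absurd hd ((s.nt r hT).top k)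
  · obtain ⟨p, p', e1, e2, e3⟩ := s.nsq_ne js ht sg k
    rw [e1] at h1
    rw [e2] at h2
    exact e3 ((Set.mem_singleton_iff.1 h1).symm.trans (Set.mem_singleton_iff.1 h2))

end Stp

end OpMap

/-- the total split of a state has the property `Hz` -/
theorem St.ow_hz (C : St) : OpMap.Hz C.P C.ow := by
  intro x hd
  have hx : C.Zf x := (P45.Zs_sp C.cls).dbl_Z hd
  by_cases h : ∃ n, C.ow.gx.ar n x
  · exact Or.inl h
  · push Not at h
    obtain ⟨n, k, y, z, hq⟩ := C.ow_prt.pent hx h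
    exact Or.inr ⟨n, k, y, z, hq.E1.resolve_left (h n), hq.E2.resolve_right (h k), hq⟩

end Pool.Agent.DI
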