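import Pool.Agent.DI.K1X
import Pool.Agent.DI.DscN
import Pool.Agent.DI.PhB

/-!
# DI/BrK: the bare vertices of the opening by labels

`O : OpK K X`, a system over `O.opk.gx` (`J`). `OpK.Mdl O J`: the bare vertex over `y` sits at `m`, the
labels sit at `p` and `p'`, in different directions from `m`. `OpK.brJ`: then `SyQ.BrJ`. `St.kx_bw`: the
field `bw` of `SyQ.Psv` for the step complex `C.kx r`.
-/

namespace Pool.Agent.DI

open MulAction
open Pool.Agent.SAF (InC orbs FinOrb oc Decomp SAn SA)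
open Pool.Agent.BT (PX PQ JS bey exits Ell mst)

namespace SyQ

variable {H V : Type} [Group H] [MulAction H V] {S : SyQ H V}

/-- the directions from `m` to `p` and to `p'` are different -/
theorem rho_ne_of_dir {m p p' s t : S.X} {T T' : V} (hT : S.J T = {p}) (hT' : S.J T' = {p'})
    (hs : S.D.G.Adj m s) (ht : S.D.G.Adj m t) (hst : s ≠ t)
    (h1 : S.D.G.dist p m = S.D.G.dist p s + 1) (h2 : S.D.G.dist p' m = S.D.G.dist p' t + 1) :
    S.rho m T ≠ S.rho m T' := by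
  have b1 : S.J T ⊆ bey S.D.G m s := by
    rw [hT]
    rintro _ rfl
    exact h1
  have b2 : S.J T' ⊆ bey S.D.G m t := by
    rw [hT']
    rintro _ rfl
    exact h2
  rw [S.rho_bey hs b1, S.rho_bey ht b2]
  intro e
  exact hst (congrArg Subtype.val (Sum.inr.inj e))

end SyQ

namespace OpK

variable {H V X : Type} [Group H] [MulAction H V] [MulAction H X] {K : GX H V} {O : OpK K X}
  {P : P45 K}

/-- the listed square over a vertex with exchanged labels -/
theorem br_Br {j : O.opk.J} (hE : O.Exch (O.rep2 j)) : (O.opk.p45 P).Br (Sum.inr j) := by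
  have hs := O.opk.sq_ar j (1 : H)
  simp only [one_smul] at hs
  have et : O.opk.jt j = O.br (O.rep2 j) hE := O.tK_ex _ hE
  refine { sq := trivial, Ta := hs.1, Tb := hs.2.1, va := hs.2.2.1, vb := hs.2.2.2, ab := ?_,
           only := ?_, nin := ?_ }
  · intro e
    have e : O.opk.e (O.opk.π (O.opk.js j)) (O.opk.ja j) =
      O.opk.e (O.opk.π (O.opk.js j)) (O.opk.jb j) := e
    have e1 := O.opk.π_e _ _ (O.opk.j_a j)
    have e2 := O.opk.π_e _ _ (O.opk.j_b j)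
    rw [e, e2] at e1
    exact O.opk.j_ab j e1.symm
  · rintro ⟨⟨i | j', k⟩, x⟩ h
    · exfalso
      have hl : 0 < K.len i := by
        have h1 := k.2
        have h2 := O.opk.gx_len_inl i
        omega
      have h : x • O.opk.lp i k.1 = O.br (O.rep2 j) hE := by
        have h : x • O.opk.gx.vx (Sum.inl i) k.1 = O.br (O.rep2 j) hE := h.trans et
        rwa [O.opk.gx_vx_inl i hl] at h
      exact O.lp_ne_br i k.1 x h
    · obtain ⟨v0, v1, v2, v3⟩ := O.opk.vx_inr j'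
      have h : x • O.opk.gx.vx (Sum.inr j') k.1 = O.br (O.rep2 j) hE := h.trans et
      have hk : k.1 < 4 := k.2
      have ne_e : ∀ n y : V, x • O.e2 n y ≠ O.br (O.rep2 j) hE := by
        intro n y e
        obtain ⟨z, hz, e1⟩ := O.e2_pt n y
        rw [e1, smul_pt] at e
        exact pt_ne_br e
      obtain hk | hk | hk | hk : k.1 = 0 ∨ k.1 = 1 ∨ k.1 = 2 ∨ k.1 = 3 := by omega
      · exfalso
        rw [hk, v0] at h
        exact ne_e _ _ h
      · exfalso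
        rw [hk, v1] at h
        have h : x • O.pt (O.rep2 j', O.l1 (O.rep2_dl j')) (O.l1_mem _) = _ := h
        rw [smul_pt] at h
        exact pt_ne_br h
      · exfalso
        rw [hk, v2] at h
        exact ne_e _ _ h
      · rw [hk, v3] at h
        refine ⟨?_, hk⟩
        have e1 := congrArg O.π2 h
        have e2 : O.π2 (O.opk.jt j') = O.rep2 j' := O.π2_tK _
        rw [π2_smul, e2] at e1
        have e1 : x • O.rep2 j' = O.rep2 j := e1
        rw [O.rep2_inj x e1]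
  · intro n hn
    have hn : O.opk.gx.ar n (O.opk.jt j) := hn
    rw [et] at hn
    exact O.ar_br hn

variable {D : Decomp H}

/-- THE PLACES OVER A VERTEX WITH EXCHANGED LABELS: the labels `x`, `x'` sit at `p`, `p'`, in different
directions from the place `m` of the bare vertex -/
def Mdl (O : OpK K X) (J : O.W2 → Set D.X) : Prop := ∀ (y : V) (hE : O.Exch y) (x x' : X)
  (hx : (y, x) ∈ O.Lb) (hx' : (y, x') ∈ O.Lb), x ≠ x' → ∃ p p' m : D.X,
    J (O.pt (y, x) hx) = {p} ∧ J (O.pt (y, x') hx') = {p'} ∧ J (O.br y hE) = {m} ∧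
    m ≠ p ∧ ∃ s t, D.G.Adj m s ∧ D.G.Adj m t ∧ s ≠ t ∧ D.G.dist p m = D.G.dist p s + 1 ∧
      D.G.dist p' m = D.G.dist p' t + 1

/-- THE SQUARE OF A BARE VERTEX -/
theorem brJ {J : O.W2 → Set D.X} {js : JS (O.opk.p45 P).pq D J} (hM : Mdl O J) {j : O.opk.J}
    (hE : O.Exch (O.rep2 j)) :
    ∃ p p0 : D.X, (SyQ.mk O.opk.gx (O.opk.p45 P) D J js).BrJ (Sum.inr j) p p0 := by
  have et : O.opk.jt j = O.br (O.rep2 j) hE := O.tK_ex _ hE
  have es : O.opk.js j = O.pt (O.rep2 j, O.l1 (O.rep2_dl j)) (O.l1_mem _) := rfl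
  obtain ⟨p, p', m, h1, h2, h3, h4, s, t, h5, h6, h7, h8, h9⟩ := hM _ hE _ _
    (O.l1_mem (O.rep2_dl j)) (O.l2_mem (O.rep2_dl j)) (O.l_ne (O.rep2_dl j))
  have hne : (SyQ.mk O.opk.gx (O.opk.p45 P) D J js).rho m (O.opk.js j) ≠
      (SyQ.mk O.opk.gx (O.opk.p45 P) D J js).rho m
        (O.pt (O.rep2 j, O.l2 (O.rep2_dl j)) (O.l2_mem _)) :=
    SyQ.rho_ne_of_dir (S := SyQ.mk O.opk.gx (O.opk.p45 P) D J js) h1 h2 h5 h6 h7 h8 h9
  -- the two images of `js j` under the stabiliser of the bare vertex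
  have key : ∀ g : H, g • O.opk.jt j = O.opk.jt j → g • O.opk.js j = O.opk.js j ∨
      g • O.opk.js j = O.pt (O.rep2 j, O.l2 (O.rep2_dl j)) (O.l2_mem _) := by
    intro g hg
    rw [et, stab_br] at hg
    have m1 : (O.rep2 j, g • O.l1 (O.rep2_dl j)) ∈ O.Lb := by
      have := O.inv g _ (O.l1_mem (O.rep2_dl j))
      have e : g • ((O.rep2 j, O.l1 (O.rep2_dl j)) : V × X) =
        (g • O.rep2 j, g • O.l1 (O.rep2_dl j)) := rfl
      rw [e, hg] at this
      exact this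
    rw [es, smul_pt]
    rcases two_lb (O.l1_mem (O.rep2_dl j)) (O.l2_mem (O.rep2_dl j)) (O.l_ne (O.rep2_dl j)) m1
      with e | e
    · exact Or.inl (pt_inj.2 (Prod.ext hg e))
    · exact Or.inr (pt_inj.2 (Prod.ext hg e))
  refine ⟨m, p, ?_⟩
  refine { toBr := br_Br hE, Jv := ?_, JT := ?_, ne := h4.symm, det := ?_, rev := ?_ }
  · show J (O.opk.jt j) = {m}
    rw [et]
    exact h3
  · show J (O.opk.js j) = {p}
    exact h1
  · intro g hg hr
    rcases key g hg with e | e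
    · exact e
    · exfalso
      refine hne ?_
      have hr : (SyQ.mk O.opk.gx (O.opk.p45 P) D J js).rho m (g • O.opk.js j) =
        (SyQ.mk O.opk.gx (O.opk.p45 P) D J js).rho m (O.opk.js j) := hr
      rw [e] at hr
      exact hr.symm
  · obtain ⟨g, g1, g2⟩ := hE.sw (O.l1_mem (O.rep2_dl j)) (O.l2_mem (O.rep2_dl j))
      (O.l_ne (O.rep2_dl j))
    refine ⟨g, ?_, ?_⟩
    · show g • O.opk.jt j = O.opk.jt j
      rw [et, stab_br]
      exact g1
    · show (SyQ.mk O.opk.gx (O.opk.p45 P) D J js).rho m (g • O.opk.js j) ≠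
        (SyQ.mk O.opk.gx (O.opk.p45 P) D J js).rho m (O.opk.js j)
      have e : g • O.opk.js j = O.pt (O.rep2 j, O.l2 (O.rep2_dl j)) (O.l2_mem _) := by
        rw [es, smul_pt, pt_inj]
        exact Prod.ext g1 g2
      rw [e]
      exact hne.symm

/-- THE FIELD `bw` for the bare vertices `O.br y` -/
theorem bw {J : O.W2 → Set D.X} {js : JS (O.opk.p45 P).pq D J} (hM : Mdl O J) {y : V}
    (hE : O.Exch y) : ∃ (i : O.opk.gx.I) (g : H) (p p0 : D.X),
      O.br y hE = g • (O.opk.p45 P).qt i 3 ∧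
        (SyQ.mk O.opk.gx (O.opk.p45 P) D J js).BrJ i p p0 := by
  obtain ⟨j, g, hg⟩ := O.ex_j hE.dl
  have hE' : O.Exch (O.rep2 j) := (exch_iff g).1 (by rw [hg]; exact hE)
  obtain ⟨p, p0, h⟩ := brJ (P := P) (js := js) hM hE'
  refine ⟨Sum.inr j, g, p, p0, ?_, h⟩
  have et : O.opk.jt j = O.br (O.rep2 j) hE' := O.tK_ex _ hE'
  show O.br y hE = g • O.opk.jt j
  rw [et, smul_br, br_inj, hg]

end OpK

namespace St

variable (C : St) {D : Decomp C.H} {J : C.ofs.W → Set D.X} {js : JS (C.ow.p45 C.P).pq D J}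
  {hc : (SyQ.mk C.ow.gx (C.ow.p45 C.P) D J js).Conn} {tw : C.ofs.W → C.ofs.W → Prop}
  {Tp : C.ofs.W → Prop} {pt : C.ofs.W → C.ofs.W} {Z : C.ofs.W → Prop}
  (r : (SyQ.mk C.ow.gx (C.ow.p45 C.P) D J js).RK hc tw Tp pt Z) {σ : C.V → D.X}
  (sg : Sig C.ow J σ)

/-- the places over a vertex with exchanged labels -/
theorem kx_Mdl : OpK.Mdl (LbJ.opK r C.ow_Tw) (C.kxJ r sg) := by
  intro y hE L L' hx hx' hne
  obtain ⟨x, e1, e2⟩ := id hx
  obtain ⟨x', e1', e2'⟩ := id hx'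
  have e1 : C.ow.π x = y := e1
  have e2 : J x = L := e2
  have e1' : C.ow.π x' = y := e1'
  have e2' : J x' = L' := e2'
  have hJ : J x ≠ J x' := fun k => hne (e2.symm.trans (k.trans e2'))
  have e := e1.trans e1'.symm
  obtain ⟨a, b, hab, ha, hb⟩ := SyQ.part_poles C.ow_Tw e (fun k => hJ (by rw [k]))
  have hm : Mid C.ow J (C.ow.π x) (σ y) := by
    rw [e1]
    exact sg.mid y hE
  obtain ⟨p, p', s, t, h1, h2, -, h4, -, -, -, -, -, -, -, k1, k2, k3, k4, k5⟩ :=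
    Mid.dir r e hJ ha hb hab hm
  have st := LbJ.stp r C.ow_Tw
  refine ⟨p, p', σ y, ?_, ?_, ?_, h4, s, t, k1, k2, k3, k4, k5⟩
  · have e3 : (LbJ.mp r C.ow_Tw).f x = (LbJ.opK r C.ow_Tw).pt (y, L) hx :=
      LbJ.fK_pt r C.ow_Tw hx e1 e2
    have := st.J1_f (σ := σ) x
    rw [e3] at this
    exact this.trans h1
  · have e3 : (LbJ.mp r C.ow_Tw).f x' = (LbJ.opK r C.ow_Tw).pt (y, L') hx' :=
      LbJ.fK_pt r C.ow_Tw hx' e1' e2'
    have := st.J1_f (σ := σ) x'
    rw [e3] at this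
    exact this.trans h2
  · exact OpMap.J1_br (LbJ.im_br r C.ow_Tw)

/-- the square of a bare vertex -/
theorem kx_bw0 {v : (C.kx r).W} (h : ¬ ∃ x, (C.kxM r sg).f x = v) :
    ∃ (i : (C.kx r).K.I) (g : C.H) (p p0 : D.X), v = g • (C.kx r).P.qt i 3 ∧
      (SyQ.mk (C.kx r).K (C.kx r).P D (C.kxJ r sg) (C.kx_js r sg)).BrJ i p p0 := by
  obtain ⟨y, hE, rfl⟩ := LbJ.nim r C.ow_Tw h
  exact OpK.bw (P := C.P) (js := C.kx_js r sg) (C.kx_Mdl r sg) hE

/-- a bare top is no label -/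
theorem kx_bare {v a b y : (C.kx r).W} (ht : (C.kx r).P.Top v a b y) (hb : (C.kx r).P.Bare v) :
    ¬ ∃ x, (C.kxM r sg).f x = v := by
  obtain ⟨j, g, e, -, hi⟩ := (LbJ.stp r C.ow_Tw).bare_top r C.cls.toSqE C.ow_hz
    (fun _ _ _ _ h hb => C.cls.nbare h hb) ht hb
  intro k
  have k : (LbJ.mp r C.ow_Tw).Im v := k
  rw [e] at k
  exact hi ((OpMap.Im.smul_iff g).1 k)

/-- THE FIELD `bw` OF `SyQ.Psv` -/
theorem kx_bw (v a b y : (C.kx r).W) (ht : (C.kx r).P.Top v a b y) (hb : (C.kx r).P.Bare v) :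
    ∃ (i : (C.kx r).K.I) (g : C.H) (p p0 : D.X), v = g • (C.kx r).P.qt i 3 ∧
      (SyQ.mk (C.kx r).K (C.kx r).P D (C.kxJ r sg) (C.kx_js r sg)).BrJ i p p0 :=
  C.kx_bw0 r sg (C.kx_bare r sg ht hb)

end St

end Pool.Agent.DI
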