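import Pool.Agent.DI.QFM4

/-!
# Bridges

`FG.Br e`: the line `e` is a bridge (cut form). `FG.br_tr`: let `G' → G` be a map which is injective on
lines and `b1 G ≤ b1 G'`. A line of `G` which is not a bridge is the image of a line of `G'` which is
not a bridge. `JM.Br`, `JM.br_tr`: the same for graphs with an action.
-/

namespace Pool.Agent.DI

open MulAction

namespace FG

variable {G G' : FG}

/-- a bridge -/
def Br (G : FG) (e : G.L) : Prop := ∃ f : G.N → ZMod 2, f (G.a e) ≠ f (G.b e) ∧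
  ∀ e', e' ≠ e → f (G.a e') = f (G.b e')

theorem b1_zero_of_br (h : ∀ e, G.Br e) : G.b1 = 0 := G.b1_zero_iff.2 h

theorem br_iff [DecidableEq G.L] (e : G.L) :
    G.Br e ↔ (Pi.single e 1 : G.L → ZMod 2) ∈ LinearMap.range G.dm := by
  constructor
  · rintro ⟨f, hf1, hf2⟩
    refine ⟨f, ?_⟩
    funext e'
    rw [dm_apply]
    by_cases he : e' = e
    · subst he
      rw [Pi.single_eq_same]
      revert hf1
      generalize f (G.a e') = x
      generalize f (G.b e') = y
      revert x y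
      decide
    · rw [Pi.single_eq_of_ne he]
      exact add_eq_zero_iff_eq'.2 (hf2 e' he)
  · rintro ⟨f, hf⟩
    refine ⟨f, fun k => ?_, fun e' he' => ?_⟩
    · have h1 := congrFun hf e
      rw [dm_apply, Pi.single_eq_same, add_eq_zero_iff_eq'.2 k] at h1
      exact zero_ne_one h1
    · have h1 := congrFun hf e'
      rw [dm_apply, Pi.single_eq_of_ne he'] at h1
      exact add_eq_zero_iff_eq'.1 h1

/-- a function on the lines of `G` whose restriction to `G'` is a coboundary is a coboundary, if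
`b1 G ≤ b1 G'` -/
theorem range_of_restr (n : G'.N → G.N) (l : G'.L → G.L) (hl : Function.Injective l)
    (h : ∀ e, (G.a (l e) = n (G'.a e) ∧ G.b (l e) = n (G'.b e)) ∨
      (G.a (l e) = n (G'.b e) ∧ G.b (l e) = n (G'.a e))) (hb : G.b1 ≤ G'.b1)
    (c : G.L → ZMod 2) (hc : (fun e => c (l e)) ∈ LinearMap.range G'.dm) :
    c ∈ LinearMap.range G.dm := by
  classical
  let ρ : (G.L → ZMod 2) →ₗ[ZMod 2] (G'.L → ZMod 2) :=
    { toFun := fun f e => f (l e)
      map_add' := fun f g => rfl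
      map_smul' := fun r f => rfl }
  have hρ : Function.Surjective ρ := by
    intro g
    refine ⟨fun e => if h : ∃ e', l e' = e then g h.choose else 0, ?_⟩
    funext e
    have h1 : ∃ e', l e' = l e := ⟨e, rfl⟩
    show (if h : ∃ e', l e' = l e then g h.choose else 0) = g e
    rw [dif_pos h1]
    exact congrArg g (hl h1.choose_spec)
  have hmap : LinearMap.range G.dm ≤ (LinearMap.range G'.dm).comap ρ := by
    rintro _ ⟨f, rfl⟩
    refine ⟨fun x => f (n x), ?_⟩
    funext e
    show f (n (G'.a e)) + f (n (G'.b e)) = f (G.a (l e)) + f (G.b (l e))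
    rcases h e with ⟨h1, h2⟩ | ⟨h1, h2⟩
    · rw [h1, h2]
    · rw [h1, h2, add_comm]
  let φ := (LinearMap.range G'.dm).mkQ.comp ρ
  have hφ : Function.Surjective φ := (Submodule.mkQ_surjective _).comp hρ
  have hker : LinearMap.ker φ = (LinearMap.range G'.dm).comap ρ := by
    rw [LinearMap.ker_comp, Submodule.ker_mkQ]
  have h1 := LinearMap.finrank_range_add_finrank_ker φ
  rw [LinearMap.range_eq_top.2 hφ, finrank_top, hker, finrank_fun] at h1
  have h2 := Submodule.finrank_quotient_add_finrank (LinearMap.range G'.dm)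
  rw [finrank_fun] at h2
  have h3 := G.b1_eq
  have h4 := G'.b1_eq
  have h5 : Nat.card G.L = G.nL := rfl
  have h6 : Nat.card G'.L = G'.nL := rfl
  have heq : LinearMap.range G.dm = (LinearMap.range G'.dm).comap ρ := by
    apply Submodule.eq_of_le_of_finrank_le hmap
    omega
  rw [heq]
  exact hc

/-- transfer of bridges -/
theorem br_tr (n : G'.N → G.N) (l : G'.L → G.L) (hl : Function.Injective l)
    (h : ∀ e, (G.a (l e) = n (G'.a e) ∧ G.b (l e) = n (G'.b e)) ∨
      (G.a (l e) = n (G'.b e) ∧ G.b (l e) = n (G'.a e))) (hb : G.b1 ≤ G'.b1) (e : G.L)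
    (he : ¬ G.Br e) : ∃ e', l e' = e ∧ ¬ G'.Br e' := by
  classical
  by_contra hcon
  apply he
  rw [br_iff]
  apply range_of_restr n l hl h hb
  by_cases hex : ∃ e', l e' = e
  · obtain ⟨e', rfl⟩ := hex
    have hbr : G'.Br e' := by
      by_contra hn
      exact hcon ⟨e', rfl, hn⟩
    have h1 : (fun e1 => (Pi.single (l e') 1 : G.L → ZMod 2) (l e1)) =
        (Pi.single e' 1 : G'.L → ZMod 2) := by
      funext e1
      by_cases h2 : e1 = e'
      · subst h2
        rw [Pi.single_eq_same, Pi.single_eq_same]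
      · rw [Pi.single_eq_of_ne h2, Pi.single_eq_of_ne (fun k => h2 (hl k))]
    rw [h1]
    exact (br_iff e').1 hbr
  · have h1 : (fun e1 => (Pi.single e 1 : G.L → ZMod 2) (l e1)) = 0 := by
      funext e1
      rw [Pi.single_eq_of_ne (fun k => hex ⟨e1, k⟩)]
      rfl
    rw [h1]
    exact Submodule.zero_mem _

end FG

section

variable {J T Ed T' Ed' : Type} [Group J] [MulAction J T] [MulAction J Ed] [MulAction J T']
  [MulAction J Ed'] (M : JM J T Ed) (M' : JM J T' Ed')

/-- a bridge of the quotient -/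
def JM.Br (e : Ed) : Prop := ∃ f : T → ZMod 2, (∀ (j : J) (z : T), f (j • z) = f z) ∧
  f (M.s e) ≠ f (M.t e) ∧ ∀ e', f (M.s e') ≠ f (M.t e') → ∃ j : J, e' = j • e

theorem JM.br_iff (e : Ed) : M.fg.Br (oq J e) ↔ M.Br e := by
  constructor
  · rintro ⟨f, h1, h2⟩
    refine ⟨fun x => f (oq J x : orbitRel.Quotient J T),
      fun j z => congrArg (fun q : orbitRel.Quotient J T => f q) (oq_smul j z), h1, ?_⟩
    intro e' h3
    by_contra hne
    apply h3
    apply h2 (oq J e')
    intro h4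
    exact hne (oq_eq.1 h4.symm)
  · rintro ⟨f, h1, h2, h3⟩
    refine ⟨olift f h1, h2, ?_⟩
    intro q' hq'
    obtain ⟨e', rfl⟩ := oq_surj q'
    by_contra h4
    obtain ⟨j, hj⟩ := h3 e' h4
    exact hq' (oq_eq.2 ⟨j, hj⟩).symm

theorem JM.b1_zero_of_br (h : ∀ e, M.Br e) : M.fg.b1 = 0 := by
  apply FG.b1_zero_of_br
  intro q
  obtain ⟨e, rfl⟩ := oq_surj q
  exact (M.br_iff e).2 (h e)

theorem JM.Br_smul (j : J) {e : Ed} (h : M.Br e) : M.Br (j • e) := by
  rw [← M.br_iff] at h ⊢
  rwa [oq_smul]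

/-- transfer of bridges -/
theorem JM.br_tr (n : T' → T) (l : Ed' → Ed) (hn : ∀ (j : J) x, n (j • x) = j • n x)
    (hl : ∀ (j : J) e, l (j • e) = j • l e) (hs : ∀ e, M.s (l e) = n (M'.s e))
    (ht : ∀ e, M.t (l e) = n (M'.t e))
    (hinj : ∀ (e e' : Ed') (j : J), l e' = j • l e → ∃ k : J, e' = k • e)
    (hb : M.fg.b1 ≤ M'.fg.b1) (e : Ed) (he : ¬ M.Br e) :
    ∃ e' : Ed', (∃ j : J, e = j • l e') ∧ ¬ M'.Br e' := by
  obtain ⟨q, h1, h2⟩ := FG.br_tr (G := M.fg) (G' := M'.fg)
    (olift (fun x => oq J (n x)) (fun j x => by rw [hn, oq_smul]))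
    (olift (fun e => oq J (l e)) (fun j e => by rw [hl, oq_smul])) (by
      intro p q h
      obtain ⟨e, rfl⟩ := oq_surj p
      obtain ⟨e', rfl⟩ := oq_surj q
      have h' : oq J (l e) = oq J (l e') := h
      obtain ⟨j, hj⟩ := oq_eq.1 h'
      obtain ⟨k, hk⟩ := hinj e e' j hj
      exact oq_eq.2 ⟨k, hk⟩) (by
      intro q
      obtain ⟨e, rfl⟩ := oq_surj q
      left
      constructor
      · show oq J (M.s (l e)) = oq J (n (M'.s e))
        rw [hs]
      · show oq J (M.t (l e)) = oq J (n (M'.t e))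
        rw [ht]) hb (oq J e) (fun k => he ((M.br_iff e).1 k))
  obtain ⟨e', rfl⟩ := oq_surj q
  have h1' : oq J (l e') = oq J e := h1
  exact ⟨e', oq_eq.1 h1', fun k => h2 ((M'.br_iff e').2 k)⟩

end

end Pool.Agent.DI
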