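import Pool.Agent.DI.Geo4T

/-!
# DI/Geo4K: the squares of the unfolded slice

`Q4.k0`: a square of `K` seen at `w` is a square of `S.k0 hc w`; `Qn.k0`: so is a pentagon which is a
zero square at `w`. `k0_Q4`: these are all. `k0_Q4_cases`: a square of the slice either has its four
vertices over `w` (a square of `K`), or it is `x, q, x', t_u` for a zero square `S.Qs w u q x x'`.
-/

namespace Pool.Agent.DI

open MulAction
open Pool.Agent.SAF (InC orbs FinOrb oc Decomp SAn SA Conv hull dist_edge FinOrb_iff exists_next)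
open Pool.Agent.BT (PX PQ JS bey exits lz lz_self lz_ne lz_symm x_next_unique)
open Pool.Agent.BT.TA

/-- `A B C E` is a rotation of `a b c d` -/
def Rt {α : Type} (a b c d A B C E : α) : Prop :=
  (A = a ∧ B = b ∧ C = c ∧ E = d) ∨ (A = b ∧ B = c ∧ C = d ∧ E = a) ∨
    (A = c ∧ B = d ∧ C = a ∧ E = b) ∨ (A = d ∧ B = a ∧ C = b ∧ E = c)

namespace SyQ

variable {H V : Type} [Group H] [MulAction H V] {S : SyQ H V}

/-- the vertices of the squares of the slice -/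
theorem k0P_qtq (hc : S.Conn) {w : S.X} (p : S.C4q w) (l : ↥(stabilizer H w)) (k : Fin 4) :
    l • (S.k0P hc w).qt (Sum.inr (Sum.inr p)) k = S.rho w (S.tq (l.1 * p.g) p.1.1 k) :=
  l_rhoq l _ _ _

theorem k0P_qt4 (hc : S.Conn) {w : S.X} (p : S.C4 w) (l : ↥(stabilizer H w)) (k : Fin 4) :
    l • (S.k0P hc w).qt (Sum.inr (Sum.inl p)) k = sq4l p l k := sq4_smul p l k

/-- A SQUARE OF `K` SEEN AT `w` -/
theorem _root_.Pool.Agent.DI.Q4.k0 (hc : S.Conn) {w : S.X} {a q b y : V} (h : Q4 S.P a q b y)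
    (hn : S.Nd4 w a q b y) :
    Q4 (S.k0P hc w) (S.rho w a) (S.rho w q) (S.rho w b) (S.rho w y) := by
  obtain ⟨g, i, j, hi, h⟩ := h
  have key : ∀ {a q b y : V}, (a = g • S.P.qt i j ∧ q = g • S.P.qt i (j + 1) ∧
      b = g • S.P.qt i (j + 2) ∧ y = g • S.P.qt i (j + 3)) → S.Nd4 w a q b y →
      Q4 (S.k0P hc w) (S.rho w a) (S.rho w q) (S.rho w b) (S.rho w y) := by
    rintro a q b y ⟨rfl, rfl, rfl, rfl⟩ hn
    have hnd : S.ND w (S.tq g i) := by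
      fin_cases j
      · exact hn
      · exact hn.rot.rot.rot
      · exact hn.rot.rot
      · exact hn.rot
    obtain ⟨p, l, e1, e2⟩ := exists_e4q hi hnd
    refine ⟨l, Sum.inr (Sum.inr p), j, ⟨_, rfl⟩, Or.inl ⟨?_, ?_, ?_, ?_⟩⟩
    all_goals
      rw [k0P_qtq, e1, e2]
      rfl
  rcases h with h | ⟨h1, h2, h3, h4⟩
  · exact key h hn
  · exact (key ⟨h1, h2, h3, h4⟩ hn.rev).symm

/-- A PENTAGON SEEN AS A ZERO SQUARE AT `w` -/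
theorem _root_.Pool.Agent.DI.Qn.k0 (hc : S.Conn) {w u : S.X} {x q x' y z : V}
    (h : Qn S.P x q x' y z) (hs : S.Sq w u x q x' y z) :
    Q4 (S.k0P hc w) (S.rho w x) (S.rho w q) (S.rho w x') (Sum.inr ⟨u, hs.1⟩) := by
  obtain ⟨g, i, j, hi, h⟩ := h
  have key : ∀ {x q x' y z : V} (hs : S.Sq w u x q x' y z), (x = g • S.P.pt i j ∧
      q = g • S.P.pt i (j + 1) ∧ x' = g • S.P.pt i (j + 2) ∧ y = g • S.P.pt i (j + 3) ∧
      z = g • S.P.pt i (j + 4)) →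
      Q4 (S.k0P hc w) (S.rho w x) (S.rho w q) (S.rho w x') (Sum.inr ⟨u, hs.1⟩) := by
    rintro x q x' y z hs ⟨rfl, rfl, rfl, rfl, rfl⟩
    obtain ⟨p, l, e1, e2, e3⟩ := exists_e4 (S := S) (w := w) (u := u) (h := g) hi hs
    have r3 : S.rho w (g • S.P.pt i (j + 3)) = Sum.inr ⟨u, hs.1⟩ := S.rho_bey hs.1 hs.2.2.2.2.1
    refine ⟨l, Sum.inr (Sum.inl p), 0, ⟨_, rfl⟩, Or.inl ⟨?_, ?_, ?_, ?_⟩⟩
    · rw [k0P_qt4]
      show _ = S.rho w (S.tr (l.1 * p.g) p.1.1 p.1.2.1)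
      rw [e1, e2, e3]
      rfl
    · rw [k0P_qt4]
      show _ = S.rho w (S.tr (l.1 * p.g) p.1.1 (p.1.2.1 + 1))
      rw [e1, e2, e3]
      rfl
    · rw [k0P_qt4]
      show _ = S.rho w (S.tr (l.1 * p.g) p.1.1 (p.1.2.1 + 2))
      rw [e1, e2, e3]
      rfl
    · rw [k0P_qt4, ← r3]
      show _ = S.rho w (S.tr (l.1 * p.g) p.1.1 (p.1.2.1 + 3))
      rw [e1, e2, e3]
      rfl
  rcases h with h | ⟨h1, h2, h3, h4, h5⟩
  · exact key hs h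
  · have hs' : S.Sq w u x' q x z y :=
      ⟨hs.1, hs.2.2.1, hs.2.1, hs.2.2.2.1, hs.2.2.2.2.2, hs.2.2.2.2.1⟩
    exact (key hs' ⟨h1, h2, h3, h4, h5⟩).symm

/-- a zero square of the slice -/
theorem Qs.k0s (hc : S.Conn) {w u : S.X} {q x x' : V} (h : S.Qs w u q x x') (hne : x ≠ x') :
    Q4 (S.k0P hc w) (S.rho w x) (S.rho w q) (S.rho w x') (Sum.inr ⟨u, h.1⟩) := by
  obtain ⟨hu, c, c', hn, ⟨y, z, hp, hy, hz⟩ | ⟨y, hp, hy⟩⟩ := h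
  · exact Qn.k0 hc hp ⟨hu, c, c', hn, hy, hz⟩
  · obtain ⟨p, p', ha, hb⟩ := hp.w4.al_of hu c c' hn hy
    have := Q4.k0 hc hp ((ha.nd_iff hp.w4).2 ⟨(hb.mem S.D.tree).1, hne⟩)
    rwa [ha.rho3 hp.w4 hb] at this

/-- THE SQUARES OF THE SLICE -/
theorem k0_Q4 (hc : S.Conn) {w : S.X} {A B C E : S.SV w} (h : Q4 (S.k0P hc w) A B C E) :
    (∃ a q b y, Q4 S.P a q b y ∧ S.Nd4 w a q b y ∧ A = S.rho w a ∧ B = S.rho w q ∧
      C = S.rho w b ∧ E = S.rho w y) ∨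
    ∃ (u : S.X) (x q x' y z : V) (hs : S.Sq w u x q x' y z), Qn S.P x q x' y z ∧
      Rt (S.rho w x) (S.rho w q) (S.rho w x') (Sum.inr ⟨u, hs.1⟩) A B C E := by
  obtain ⟨l, c, j, ⟨pp, rfl⟩, h⟩ := h
  rcases pp with p | p
  · right
    have hs := p.sql l
    have hq := Qn_pt (P := S.P) (l.1 * p.g) p.2.1 p.1.2.1
    have r3 : S.rho w (S.tr (l.1 * p.g) p.1.1 (p.1.2.1 + 3)) = Sum.inr ⟨_, hs.1⟩ :=
      S.rho_bey hs.1 hs.2.2.2.2.1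
    have hs' : S.Sq w (l.1 • p.u) (S.tr (l.1 * p.g) p.1.1 (p.1.2.1 + 2))
        (S.tr (l.1 * p.g) p.1.1 (p.1.2.1 + 1)) (S.tr (l.1 * p.g) p.1.1 p.1.2.1)
        (S.tr (l.1 * p.g) p.1.1 (p.1.2.1 + 4)) (S.tr (l.1 * p.g) p.1.1 (p.1.2.1 + 3)) :=
      ⟨hs.1, hs.2.2.1, hs.2.1, hs.2.2.2.1, hs.2.2.2.2.2, hs.2.2.2.2.1⟩
    simp only [k0P_qt4] at h
    rcases h with ⟨h1, h2, h3, h4⟩ | ⟨h1, h2, h3, h4⟩
    · refine ⟨_, _, _, _, _, _, hs, hq, ?_⟩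
      rw [← r3]
      fin_cases j
      · exact Or.inl ⟨h1, h2, h3, h4⟩
      · exact Or.inr (Or.inl ⟨h1, h2, h3, h4⟩)
      · exact Or.inr (Or.inr (Or.inl ⟨h1, h2, h3, h4⟩))
      · exact Or.inr (Or.inr (Or.inr ⟨h1, h2, h3, h4⟩))
    · refine ⟨_, _, _, _, _, _, hs', hq.symm, ?_⟩
      rw [← r3]
      fin_cases j
      · exact Or.inl ⟨h3, h2, h1, h4⟩
      · exact Or.inr (Or.inr (Or.inr ⟨h3, h2, h1, h4⟩))
      · exact Or.inr (Or.inr (Or.inl ⟨h3, h2, h1, h4⟩))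
      · exact Or.inr (Or.inl ⟨h3, h2, h1, h4⟩)
  · left
    have hn := p.ndl l
    simp only [k0P_qtq] at h
    have hq := Q4_qt (P := S.P) (l.1 * p.g) p.2.1 j
    have hnd : S.Nd4 w (S.tq (l.1 * p.g) p.1.1 j) (S.tq (l.1 * p.g) p.1.1 (j + 1))
        (S.tq (l.1 * p.g) p.1.1 (j + 2)) (S.tq (l.1 * p.g) p.1.1 (j + 3)) := by
      have hn' : S.Nd4 w (S.tq (l.1 * p.g) p.1.1 0) (S.tq (l.1 * p.g) p.1.1 1)
        (S.tq (l.1 * p.g) p.1.1 2) (S.tq (l.1 * p.g) p.1.1 3) := hn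
      fin_cases j
      · exact hn'
      · exact hn'.rot
      · exact hn'.rot.rot
      · exact hn'.rot.rot.rot
    rcases h with ⟨h1, h2, h3, h4⟩ | ⟨h1, h2, h3, h4⟩
    · exact ⟨_, _, _, _, hq, hnd, h1, h2, h3, h4⟩
    · exact ⟨_, _, _, _, hq.symm, hnd.rev, h3, h2, h1, h4⟩

/-- the position of a square of `K` seen at `w`: all four vertices over `w`, or a zero square -/
theorem nd4_cases {w : S.X} {a q b y : V} (h : Q4 S.P a q b y) (hn : S.Nd4 w a q b y) :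
    S.At4 a q b y w ∨
    ∃ (u : S.X) (x r x' : V) (hs : S.Qs w u r x x'), x ≠ x' ∧
      Rt (S.rho w x) (S.rho w r) (S.rho w x') (Sum.inr ⟨u, hs.1⟩) (S.rho w a) (S.rho w q)
        (S.rho w b) (S.rho w y) := by
  have key : ∀ {x0 x1 x2 x3 : V} {p p' : S.X}, Q4 S.P x0 x1 x2 x3 → S.Nd4 w x0 x1 x2 x3 →
      S.Al x0 x1 x2 x3 p p' → ∃ (u : S.X) (x r x' : V) (hs : S.Qs w u r x x'), x ≠ x' ∧
      Rt (S.rho w x) (S.rho w r) (S.rho w x') (Sum.inr ⟨u, hs.1⟩) (S.rho w x0) (S.rho w x1)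
        (S.rho w x2) (S.rho w x3) := by
    intro x0 x1 x2 x3 p p' hq hn k
    obtain ⟨hw, hne⟩ := (k.nd_iff hq.w4).1 hn
    by_cases e : w = p'
    · subst e
      obtain ⟨u, b⟩ := exists_Bt S.D.tree (Sgm.left w p) (Ne.symm k.ne)
      refine ⟨u, x2, x3, x0, (k.qs' hq b.symm).symm', hne.symm, ?_⟩
      have e1 := k.rho1 hq.w4 b.symm
      exact Or.inr (Or.inr (Or.inl ⟨rfl, e1, rfl, rfl⟩))
    · obtain ⟨u, b⟩ := exists_Bt S.D.tree hw e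
      refine ⟨u, x0, x1, x2, k.qs hq b, hne, ?_⟩
      have e3 := k.rho3 hq.w4 b
      exact Or.inl ⟨rfl, rfl, rfl, e3⟩
  rcases h.w4.pos with ⟨p, p', k⟩ | ⟨p, p', k⟩ | ⟨p, k⟩
  · exact Or.inr (key h hn k)
  · obtain ⟨u, x, r, x', hs, hne, hr⟩ := key h.rot hn.rot k
    refine Or.inr ⟨u, x, r, x', hs, hne, ?_⟩
    rcases hr with ⟨h1, h2, h3, h4⟩ | ⟨h1, h2, h3, h4⟩ | ⟨h1, h2, h3, h4⟩ | ⟨h1, h2, h3, h4⟩
    · exact Or.inr (Or.inr (Or.inr ⟨h4, h1, h2, h3⟩))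
    · exact Or.inl ⟨h4, h1, h2, h3⟩
    · exact Or.inr (Or.inl ⟨h4, h1, h2, h3⟩)
    · exact Or.inr (Or.inr (Or.inl ⟨h4, h1, h2, h3⟩))
  · left
    rw [((k.nd_iff h.w4).1 hn).1]
    exact k

/-- THE SQUARES OF THE SLICE, short form: a square of `K` with four vertices over `w`, or `x, q, x', t_u`
for a zero square -/
theorem k0_Q4_cases (hc : S.Conn) {w : S.X} {A B C E : S.SV w} (h : Q4 (S.k0P hc w) A B C E) :
    (∃ a q b y, Q4 S.P a q b y ∧ S.At4 a q b y w ∧ a ≠ b ∧ q ≠ y ∧ A = S.rho w a ∧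
      B = S.rho w q ∧ C = S.rho w b ∧ E = S.rho w y) ∨
    ∃ (u : S.X) (x q x' : V) (hs : S.Qs w u q x x'), Rt (S.rho w x) (S.rho w q) (S.rho w x')
      (Sum.inr ⟨u, hs.1⟩) A B C E := by
  rcases k0_Q4 hc h with ⟨a, q, b, y, hq, hn, e1, e2, e3, e4⟩ | ⟨u, x, q, x', y, z, hs, hq, hr⟩
  · rcases nd4_cases hq hn with k | ⟨u, x, r, x', hs, -, hr⟩
    · obtain ⟨-, n1, n2⟩ := (k.nd_iff hq.w4).1 hn
      exact Or.inl ⟨a, q, b, y, hq, k, n1, n2, e1, e2, e3, e4⟩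
    · rw [e1, e2, e3, e4]
      exact Or.inr ⟨u, x, r, x', hs, hr⟩
  · exact Or.inr ⟨u, x, q, x', ⟨hs.1, hs.2.1, hs.2.2.1, hs.2.2.2.1, Or.inl ⟨y, z, hq,
      hs.2.2.2.2.1, hs.2.2.2.2.2⟩⟩, hr⟩

end SyQ

end Pool.Agent.DI
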