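import Pool.Agent.DI.PQ3

/-!
# DI/PG: complexes with pentagons and other cells

`PG K`: the cells with `five i` are pentagons, the others are arbitrary.
-/

namespace Pool.Agent.DI

open MulAction
open Pool.Agent.SAF (InC orbs FinOrb oc)
open Pool.Agent.BT (PX)

variable {H V : Type} [Group H] [MulAction H V]

/-- some cells are pentagons -/
structure PG (K : GX H V) where
  five : K.I → Prop
  pt : K.I → Fin 5 → V
  cb_eq : ∀ i, five i → K.cb i = pt i 0
  cw_eq : ∀ i, five i → K.cw i = [pt i 1, pt i 2, pt i 3, pt i 4, pt i 0]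

/-- all cells are pentagons -/
def Pt.toPG {K : GX H V} (P : Pt K) : PG K where
  five _ := True
  pt := P.pt
  cb_eq i _ := P.cb_eq i
  cw_eq i _ := P.cw_eq i

namespace PG

variable {K : GX H V} (P : PG K)

theorem ps_cell (φ : V → V → ZMod 2) {i : K.I} (hi : P.five i) (h : H) :
    ps φ (h • K.cb i) ((K.cw i).map (fun z => h • z)) =
      ∑ j : Fin 5, φ (h • P.pt i j) (h • P.pt i (j + 1)) := by
  rw [P.cb_eq i hi, P.cw_eq i hi, Fin.sum_univ_five]
  simp only [List.map_cons, List.map_nil, ps_cons, ps_nil, add_zero, add_assoc]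
  rfl

theorem E (P : PG K) {i : K.I} (hi : P.five i) (j : Fin 5) : K.E (P.pt i j) (P.pt i (j + 1)) := by
  have h : Wk K.E (K.cb i) (K.cw i) := K.c_E i
  rw [P.cb_eq i hi, P.cw_eq i hi] at h
  obtain ⟨h0, h1, h2, h3, h4, -⟩ := h
  fin_cases j
  · exact h0
  · exact h1
  · exact h2
  · exact h3
  · exact h4

/-- the sequence `c` is a translate of the cell `i`, up to rotation and reflection -/
def At (c : Fin 5 → V) (i : K.I) : Prop := P.five i ∧ ∃ (h : H) (k : Fin 5),
  (∀ j, c j = h • P.pt i (k + j)) ∨ (∀ j, c j = h • P.pt i (k - j))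

theorem At.E {P : PG K} {c : Fin 5 → V} {i : K.I} (a : P.At c i) (j : Fin 5) :
    K.E (c j) (c (j + 1)) := by
  obtain ⟨hi, h, k, a | a⟩ := a
  · rw [a, a, ← add_assoc]
    exact K.E_smul h (P.E hi _)
  · rw [a, a]
    have := (P.E hi (k - (j + 1))).symm
    rw [f5_3] at this
    exact K.E_smul h this

/-- the sum along a translate of a cell is zero for cocycles -/
theorem At.sum {P : PG K} {c : Fin 5 → V} {i : K.I} (a : P.At c i) {φ : V → V → ZMod 2}
    (hs : ∀ x y, φ x y = φ y x) (hz : ∀ h : H, ps φ (h • K.cb i) ((K.cw i).map (fun z => h • z)) = 0) :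
    ∑ j, φ (c j) (c (j + 1)) = 0 := by
  obtain ⟨hi, h, k, a | a⟩ := a
  · have e := sum_rot (fun j => h • P.pt i j) φ k
    rw [← P.ps_cell φ hi h, hz h] at e
    rw [← e]
    apply Finset.sum_congr rfl
    intro j _
    rw [a, a, ← add_assoc]
  · have e := sum_ref (fun j => h • P.pt i j) φ hs k
    rw [← P.ps_cell φ hi h, hz h] at e
    rw [← e]
    apply Finset.sum_congr rfl
    intro j _
    rw [a, a, f5_4]

/-- conversely -/
theorem At.sum' {P : PG K} {c : Fin 5 → V} {i : K.I} (a : P.At c i) : ∃ h : H,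
    ∀ φ : V → V → ZMod 2, (∀ x y, φ x y = φ y x) →
    ∑ j, φ (h • c j) (h • c (j + 1)) = ps φ (K.cb i) (K.cw i) := by
  obtain ⟨hi, h, k, a⟩ := a
  refine ⟨h⁻¹, fun φ hs => ?_⟩
  have e0 := P.ps_cell φ hi 1
  simp only [one_smul, List.map_id'] at e0
  rw [e0]
  rcases a with a | a
  · rw [← sum_rot (fun j => P.pt i j) φ k]
    apply Finset.sum_congr rfl
    intro j _
    rw [a, a, inv_smul_smul, inv_smul_smul, ← add_assoc]
  · rw [← sum_ref (fun j => P.pt i j) φ hs k]
    apply Finset.sum_congr rfl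
    intro j _
    rw [a, a, inv_smul_smul, inv_smul_smul, f5_4]

/-- in a minimal complex a cell cannot be replaced by a closed walk of length at most four -/
theorem no_short (P : PG K) (hm : K.Min) {i0 : K.I} (hi : P.five i0) (b : V) (l : List V) (hE : Wk K.E b l)
    (ht : tg b l = b) (hl : l.length ≤ 4)
    (h : ∀ φ : V → V → ZMod 2, (∀ x y, φ x y = φ y x) → (∀ k : H, ps φ (k • b) (l.map (k • ·)) = 0) →
      (∀ i, i ≠ i0 → ∀ k : H, ps φ (k • K.cb i) ((K.cw i).map (fun z => k • z)) = 0) →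
      ps φ (K.cb i0) (K.cw i0) = 0) : False := by
  classical
  have h' : ∀ φ, Coc H (Function.update K.cb i0 b) (Function.update K.cw i0 l) φ →
      ps φ (K.cb i0) (K.cw i0) = 0 := by
    intro φ c
    apply h φ c.1
    · intro k
      have := c.2 i0 k
      rw [Function.update_self, Function.update_self] at this
      exact this
    · intro i hi k
      have := c.2 i k
      rw [Function.update_of_ne hi, Function.update_of_ne hi] at this
      exact this
  have h1 := K.repl_area i0 b l hE ht h'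
  have h2 := hm V (K.repl i0 b l hE ht h')
  rw [P.cw_eq i0 hi, Nat.sub_eq_zero_of_le hl] at h1
  simp only [List.length_cons, List.length_nil] at h1
  omega

/-- no backtracks in the cells of a minimal complex -/
theorem At.ne2 {P : PG K} (hm : K.Min) {c : Fin 5 → V} {i : K.I} (a : P.At c i) (j : Fin 5) :
    c j ≠ c (j + 2) := by
  intro e
  -- the closed walk `c (j+2), c (j+3), c (j+4)`
  obtain ⟨h, hh⟩ := a.sum'
  have e2 := a.E (j + 2)
  have e3 := a.E (j + 3)
  have e4 := a.E (j + 4)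
  have g2 : j + 2 + 1 = j + 3 := by rw [add_assoc]; rfl
  have g3 : j + 3 + 1 = j + 4 := by rw [add_assoc]; rfl
  have g4 : j + 4 + 1 = j := by rw [add_assoc]; exact add_zero j
  rw [g2] at e2
  rw [g3] at e3
  rw [g4, e] at e4
  refine P.no_short hm a.1 (h • c (j + 2)) [h • c (j + 3), h • c (j + 4), h • c (j + 2)]
    ⟨K.E_smul h e2, K.E_smul h e3, K.E_smul h e4, trivial⟩ rfl (by simp) ?_
  intro φ hs hz _
  have h1 := hz 1
  simp only [one_smul, List.map_cons, List.map_nil, ps_cons, ps_nil, add_zero] at h1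
  rw [← hh φ hs, ← sum_rot (fun j => h • c j) φ j, Fin.sum_univ_five]
  have g0 : j + 0 + 1 = j + 1 := by rw [add_zero]
  have g1 : j + 1 + 1 = j + 2 := by rw [add_assoc]; rfl
  rw [g0, g1, g2, g3, g4, add_zero, e, hs (h • c (j + 1)) (h • c (j + 2))]
  have k := add_self_two (φ (h • c (j + 2)) (h • c (j + 1)))
  linear_combination k + h1

/-- two cells which differ by a closed walk of length four are equal -/
theorem At.uniq {P : PG K} (hm : K.Min) {c d : Fin 5 → V} {i i' : K.I} (a : P.At c i)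
    (a' : P.At d i') (h1 : c 1 = d 1) (h2 : c 2 = d 2) (h3 : c 3 = d 3) (h4 : c 4 = d 4) :
    i = i' := by
  by_contra hne
  obtain ⟨h, hh⟩ := a'.sum'
  have e0 := a.E 0
  have e4 := a.E 4
  have f0 := a'.E 0
  have f4 := a'.E 4
  have g0 : (0 : Fin 5) + 1 = 1 := rfl
  have g4 : (4 : Fin 5) + 1 = 0 := rfl
  rw [g0] at e0 f0
  rw [g4] at e4 f4
  -- the closed walk `c 0, c 1, d 0, c 4`
  refine P.no_short hm a'.1 (h • c 0) [h • c 1, h • d 0, h • c 4, h • c 0]
    ⟨K.E_smul h e0, K.E_smul h (by rw [h1]; exact f0.symm), K.E_smul h (by rw [h4]; exact f4.symm),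
      K.E_smul h e4, trivial⟩ rfl (by simp) ?_
  intro φ hs hz hz'
  have k1 := hz 1
  simp only [one_smul, List.map_cons, List.map_nil, ps_cons, ps_nil, add_zero] at k1
  have k2 := a.sum (φ := fun x y => φ (h • x) (h • y)) (fun x y => hs _ _) (by
    intro k
    have := hz' i hne (h * k)
    rw [mul_smul] at this
    rw [← ps_map (fun z => h • z) φ, List.map_map]
    convert this using 2
    refine List.map_congr_left fun z _ => ?_
    exact (mul_smul h k z).symm)
  rw [← hh φ hs]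
  rw [Fin.sum_univ_five] at k2 ⊢
  have g1 : (1 : Fin 5) + 1 = 2 := rfl
  have g2 : (2 : Fin 5) + 1 = 3 := rfl
  have g3 : (3 : Fin 5) + 1 = 4 := rfl
  rw [g0, g1, g2, g3, g4] at k2 ⊢
  rw [← h1, ← h2, ← h3, ← h4, hs (h • d 0) (h • c 1)]
  rw [hs (h • d 0) (h • c 4), hs (h • c 4) (h • c 0)] at k1
  rw [hs (h • c 4) (h • c 0)] at k2
  have s1 := add_self_two (φ (h • c 0) (h • c 1))
  have s2 := add_self_two (φ (h • c 0) (h • c 4))
  linear_combination k1 + k2 - s1 - s2


variable {P : PG K}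

theorem At.rot {c : Fin 5 → V} {i : K.I} (a : P.At c i) (m : Fin 5) :
    P.At (fun j => c (m + j)) i := by
  obtain ⟨hi, h, k, a | a⟩ := a
  · exact ⟨hi, h, k + m, Or.inl fun j => by
      show c (m + j) = _
      rw [a, add_assoc]⟩
  · exact ⟨hi, h, k - m, Or.inr fun j => by
      show c (m + j) = _
      rw [a, g5_1]⟩

theorem At.refl {c : Fin 5 → V} {i : K.I} (a : P.At c i) (m : Fin 5) :
    P.At (fun j => c (m - j)) i := by
  obtain ⟨hi, h, k, a | a⟩ := a
  · exact ⟨hi, h, k + m, Or.inr fun j => by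
      show c (m - j) = _
      rw [a, g5_3]⟩
  · exact ⟨hi, h, k - m, Or.inl fun j => by
      show c (m - j) = _
      rw [a, g5_2]⟩

theorem At.smul {c : Fin 5 → V} {i : K.I} (a : P.At c i) (g : H) :
    P.At (fun j => g • c j) i := by
  obtain ⟨hi, h, k, a | a⟩ := a
  · exact ⟨hi, g * h, k, Or.inl fun j => by
      show g • c j = _
      rw [a, mul_smul]⟩
  · exact ⟨hi, g * h, k, Or.inr fun j => by
      show g • c j = _
      rw [a, mul_smul]⟩

theorem at_pt (P : PG K) {i : K.I} (hi : P.five i) : P.At (P.pt i) i :=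
  ⟨hi, 1, 0, Or.inl fun j => by rw [one_smul, zero_add]⟩

/-- a sum over the corners does not depend on the translate -/
theorem At.corners {c : Fin 5 → V} {i : K.I} (a : P.At c i) {F : V → V → V → ℤ}
    (hF : ∀ x y z, F x y z = F z y x) (hH : ∀ (h : H) x y z, F (h • x) (h • y) (h • z) = F x y z) :
    ∑ j, F (c j) (c (j + 1)) (c (j + 2)) =
      ∑ j, F (P.pt i j) (P.pt i (j + 1)) (P.pt i (j + 2)) := by
  obtain ⟨hi, h, k, a | a⟩ := a
  · refine Fintype.sum_equiv (Equiv.addLeft k) _ _ (fun j => ?_)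
    show F (c j) (c (j + 1)) (c (j + 2)) = F (P.pt i (k + j)) (P.pt i (k + j + 1)) (P.pt i (k + j + 2))
    rw [a, a, a, hH, g5_7, g5_8]
  · refine Fintype.sum_equiv (Equiv.subLeft (k - 2)) _ _ (fun j => ?_)
    show F (c j) (c (j + 1)) (c (j + 2)) =
      F (P.pt i (k - 2 - j)) (P.pt i (k - 2 - j + 1)) (P.pt i (k - 2 - j + 2))
    rw [a, a, a, hH, g5_6, g5_5, g5_4, hF]

/-- the sum over the corners of a pentagon -/
theorem csg_eq (P : PG K) (S : Sl K) {i : K.I} (hi : P.five i) : csg S.mv S.τ (K.cb i) (K.cw i) =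
    ∑ j : Fin 5, sg S.mv S.τ (P.pt i j) (P.pt i (j + 1)) (P.pt i (j + 2)) := by
  rw [P.cb_eq i hi, P.cw_eq i hi]
  show (sg S.mv S.τ (P.pt i 0) (P.pt i 1) (P.pt i 2) +
    (sg S.mv S.τ (P.pt i 1) (P.pt i 2) (P.pt i 3) + (sg S.mv S.τ (P.pt i 2) (P.pt i 3) (P.pt i 4) +
    (sg S.mv S.τ (P.pt i 3) (P.pt i 4) (P.pt i 0) +
    (sg S.mv S.τ (P.pt i 4) (P.pt i 0) (P.pt i 1) + 0))))) = _
  rw [Fin.sum_univ_five]
  have f0 : (0 : Fin 5) + 1 = 1 := rfl
  have f1 : (1 : Fin 5) + 1 = 2 := rfl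
  have f2 : (2 : Fin 5) + 1 = 3 := rfl
  have f3 : (3 : Fin 5) + 1 = 4 := rfl
  have f4 : (4 : Fin 5) + 1 = 0 := rfl
  have g0 : (0 : Fin 5) + 2 = 2 := rfl
  have g1 : (1 : Fin 5) + 2 = 3 := rfl
  have g2 : (2 : Fin 5) + 2 = 4 := rfl
  have g3 : (3 : Fin 5) + 2 = 0 := rfl
  have g4 : (4 : Fin 5) + 2 = 1 := rfl
  rw [f0, f1, f2, f3, f4, g0, g1, g2, g3, g4]
  ring

/-- every pentagon can be written such that only `c 1`, `c 3` have moved in-arrows -/
theorem norm (P : PG K) (S : Sl K) {i : K.I} (hi : P.five i) : ∃ c, P.At c i ∧ ¬ S.M (c 0) ∧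
    ¬ S.M (c 2) ∧ ¬ S.M (c 4) := by
  classical
  obtain ⟨k, h0, h2, h4⟩ := ind5 (fun j => decide (S.M (P.pt i j))) (by
    rintro j ⟨h1, h2⟩
    exact S.not_MM (of_decide_eq_true h1) (of_decide_eq_true h2) (P.E hi j))
  refine ⟨_, (P.at_pt hi).rot k, ?_, of_decide_eq_false h2, of_decide_eq_false h4⟩
  have := of_decide_eq_false h0
  show ¬ S.M (P.pt i (k + 0))
  rwa [add_zero]

/-- a comparison with another complex with the same index set -/
theorem _root_.Pool.Agent.DI.GX.Min.le_max {K : GX H V} (hm : K.Min) [Fintype K.I] {V' : Type}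
    [MulAction H V'] (K' : GX H V')
    (e : K'.I = K.I) (L : K.I → ℕ) (hL : ∀ i : K'.I, (K'.cw i).length = L (cast e i)) :
    ∑ i, max 0 (((K.cw i).length : ℤ) - 4) ≤ ∑ i, max 0 ((L i : ℤ) - 4) := by
  have h1 := hm V' K'
  have : Fintype K'.I := by rw [e]; infer_instance
  have h2 : K'.area = ∑ i : K'.I, (L (cast e i) - 4) := by
    rw [K'.area_eq]
    exact Finset.sum_congr rfl fun i _ => by rw [hL]
  have h3 : ∑ i : K'.I, (L (cast e i) - 4) = ∑ i : K.I, (L i - 4) :=
    Fintype.sum_equiv (Equiv.cast e) _ _ fun _ => rfl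
  rw [h2, h3, K.area_eq] at h1
  have key : ∀ n : ℕ, ((n - 4 : ℕ) : ℤ) = max 0 ((n : ℤ) - 4) := by
    intro n
    omega
  have h4 : ((∑ i : K.I, ((K.cw i).length - 4) : ℕ) : ℤ) ≤ ((∑ i : K.I, (L i - 4) : ℕ) : ℤ) := by
    exact_mod_cast h1
  rw [Nat.cast_sum, Nat.cast_sum] at h4
  simpa only [key] using h4

end PG

end Pool.Agent.DI
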