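import Pool.Agent.DI.FCs
import Pool.Agent.DI.ONf
import Pool.Agent.DI.Geo4K
import Pool.Agent.DI.QNB
import Pool.Agent.DI.PG

/-!
# The dropped flags of the folded slice

`P45.fl_Q4`, `Q4.fl`: the flags of the squares. `SyQ.arc`: the arrows of the raw slice and their images.
`SyQ.drop_cases`: a dropped flag belongs to a zero square `x, q, x', t_u`.
-/

namespace Pool.Agent.DI

open MulAction
open Pool.Agent.SAF (InC orbs FinOrb oc)

namespace P45

variable {H V : Type} [Group H] [MulAction H V] {K : GX H V} (P : P45 K) (nd : P.ND)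

theorem nx_4 {i : K.I} (hi : P.sq i) (j : Fin 4) (h : H) :
    K.nx (P.l4 i hi j h) = P.l4 i hi (j + 1) h := by
  apply K.le_ext
  show (j.1 + 1) % K.len i = (j + 1).1
  rw [P.len4 hi]
  fin_cases j <;> rfl

theorem pv_4 {i : K.I} (hi : P.sq i) (j : Fin 4) (h : H) :
    K.pv (P.l4 i hi j h) = P.l4 i hi (j + 3) h := by
  have h1 := K.pv_nx (P.l4 i hi (j + 3) h)
  rw [nx_4] at h1
  have : j + 3 + 1 = j := by fin_cases j <;> rfl
  rwa [this] at h1

/-- the square of a flag -/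
theorem fl_Q4 {f : FL K} (hi : P.sq f.1.1.1) : Q4 P ((P.fc nd).x f) ((P.fc nd).y f)
    ((P.fc nd).z f) ((P.fc nd).z ((P.fc nd).r f)) := by
  obtain ⟨e, b⟩ := f
  obtain ⟨i, hi', j, h, rfl⟩ | ⟨i, hi', j, h, rfl⟩ := P.l_cases e
  · exact absurd hi hi'
  · cases b
    · refine ⟨h, i, j, hi', Or.inr ⟨(P.fc_z' nd _).trans (P.c0_4 i hi' j h), P.c1_4 i hi' j h,
        (P.fc_x' nd _).trans (P.c2_4 i hi' j h), ?_⟩⟩
      have e : (P.fc nd).r ((P.l4 i hi' j h, false) : FL K) = (P.l4 i hi' (j + 3) h, false) :=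
        Prod.ext (P.pv_4 hi' j h) rfl
      rw [e, P.fc_z', P.c0_4]
    · refine ⟨h, i, j, hi', Or.inl ⟨(P.fc_x nd _).trans (P.c0_4 i hi' j h), P.c1_4 i hi' j h,
        (P.fc_z nd _).trans (P.c2_4 i hi' j h), ?_⟩⟩
      have e : (P.fc nd).r ((P.l4 i hi' j h, true) : FL K) = (P.l4 i hi' (j + 1) h, true) :=
        Prod.ext (P.nx_4 hi' j h) rfl
      rw [e, P.fc_z, P.c2_4]
      have : j + 1 + 2 = j + 3 := by fin_cases j <;> rfl
      rw [this]

/-- a flag of a square -/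
theorem _root_.Pool.Agent.DI.Q4.fl {a q b y : V} (h : Q4 P a q b y) : ∃ f : FL K, P.sq f.1.1.1 ∧
    (P.fc nd).x f = a ∧ (P.fc nd).y f = q ∧ (P.fc nd).z f = b ∧
    (P.fc nd).z ((P.fc nd).r f) = y := by
  obtain ⟨h, i, j, hi, ⟨h1, h2, h3, h4⟩ | ⟨h1, h2, h3, h4⟩⟩ := h
  · refine ⟨(P.l4 i hi j h, true), hi, (P.fc_x nd _).trans ((P.c0_4 i hi j h).trans h1.symm),
      (P.c1_4 i hi j h).trans h2.symm, (P.fc_z nd _).trans ((P.c2_4 i hi j h).trans h3.symm), ?_⟩
    have e : (P.fc nd).r ((P.l4 i hi j h, true) : FL K) = (P.l4 i hi (j + 1) h, true) :=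
      Prod.ext (P.nx_4 hi j h) rfl
    rw [e, P.fc_z, P.c2_4, h4]
    have : j + 1 + 2 = j + 3 := by fin_cases j <;> rfl
    rw [this]
  · refine ⟨(P.l4 i hi j h, false), hi, (P.fc_x' nd _).trans ((P.c2_4 i hi j h).trans h3.symm),
      (P.c1_4 i hi j h).trans h2.symm, (P.fc_z' nd _).trans ((P.c0_4 i hi j h).trans h1.symm), ?_⟩
    have e : (P.fc nd).r ((P.l4 i hi j h, false) : FL K) = (P.l4 i hi (j + 3) h, false) :=
      Prod.ext (P.pv_4 hi j h) rfl
    rw [e, P.fc_z', P.c0_4, h4]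

end P45

namespace SyQ

variable {H V : Type} [Group H] [MulAction H V] {S : SyQ H V}

/-- THE FOLDED HUBS `F` OF `O` -/
structure FO (w : S.X) (O : S.OR w) (F : Set V) : Prop where
  op : ∀ u q, O.op u q ↔ (w ∈ S.J q ∧ q ∉ F)
  two : ∀ q ∈ F, ∃ u, S.Dia w u q

theorem FO.mem {w : S.X} {O : S.OR w} {F : Set V} (h : S.FO w O F) {q : V} (hq : q ∈ F) :
    w ∈ S.J q := by
  obtain ⟨u, hu⟩ := h.two q hq
  exact hu.1

theorem FO.nop {w : S.X} {O : S.OR w} {F : Set V} (h : S.FO w O F) {q : V} (hq : q ∈ F)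
    (u : S.X) : ¬ O.op u q := fun k => ((h.op u q).1 k).2 hq

theorem FO.of_nop {w : S.X} {O : S.OR w} {F : Set V} (h : S.FO w O F) {q : V} {u : S.X}
    (hw : w ∈ S.J q) (k : ¬ O.op u q) : q ∈ F := by
  by_contra hq
  exact k ((h.op u q).2 ⟨hw, hq⟩)

/-- a folded hub crosses no edge at `w` -/
theorem FO.ncs {w : S.X} {O : S.OR w} {F : Set V} (h : S.FO w O F) {q : V} (hq : q ∈ F)
    {u : S.X} (hu : S.D.G.Adj w u) : u ∉ S.J q := by
  obtain ⟨u', hd⟩ := h.two q hq
  exact fun c => hd.not_cs hu c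

/-- THE ARROWS OF THE RAW SLICE AND THEIR IMAGES: an arrow is kept or it is the arrow of a simple
diamond hub of `F` (reversed), or it ends at a hub of `F` which is no simple diamond -/
theorem FO.arc {w : S.X} {O : S.OR w} {F : Set V} (h : S.FO w O F) {a b : S.SV w}
    (e : S.SAr w a b) : S.arQ w O (S.fq w O a) (S.fq w O b) ∨
      (∃ (u : S.X) (q p : V) (hq : w ∈ S.J q) (hp : w ∈ S.J p), q ∈ F ∧ S.SD w u q ∧ S.K.ar q p ∧
        a = Sum.inl ⟨q, hq⟩ ∧ b = Sum.inl ⟨p, hp⟩) ∨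
      ∃ (q : V) (hq : w ∈ S.J q), q ∈ F ∧ (∀ u, ¬ S.SD w u q) ∧ b = Sum.inl ⟨q, hq⟩ := by
  cases e with
  | hor x s e =>
    obtain ⟨x, hx⟩ := x
    obtain ⟨s, hs⟩ := s
    by_cases hsk : ∃ u, S.Sk w O u (Sum.inl ⟨x, hx⟩)
    · obtain ⟨u, hu⟩ := hsk
      obtain ⟨h1, h2⟩ := Sk.inl.1 hu
      exact Or.inr (Or.inl ⟨u.1, x, s, hx, hs, h.of_nop hx h2, h1, e, rfl, rfl⟩)
    · push Not at hsk
      by_cases hd : ∃ y, S.Dn w O x y
      · obtain ⟨y, u, s', hu, hc, h1, h2, h3, h4, h5⟩ := hd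
        have hy : S.Dn w O x y := ⟨u, s', hu, hc, h1, h2, h3, h4, h5⟩
        obtain rfl : s' = s := ar_ar_eq hc.1 h1 h2 e hs hu hc.2
        have hF : s' ∈ F := h.of_nop h2 h3.2
        by_cases hk : ∃ u0, S.SD w u0 s'
        · left
          obtain ⟨u0, hk⟩ := hk
          have c := hk.1.two h4
          have k1 := arQ_up (O := O) c.1 c.2
          have k2 := hy.fq
          rw [S.rho_near hx] at k2
          rw [k2]
          have k3 : S.fq w O (Sum.inl ⟨s', hs⟩) = S.fq w O (Sum.inr ⟨u0, c.1⟩) :=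
            fq_inr.2 (Sk.inl.2 ⟨hk, h.nop hF _⟩)
          rw [k3]
          exact k1
        · push Not at hk
          exact Or.inr (Or.inr ⟨s', hs, hF, hk, rfl⟩)
      · push Not at hd
        left
        have := arQ_term hx hsk hd (sar_hor hx hs e)
        rwa [S.rho_near hx, S.rho_near hs] at this
  | up x u e =>
    left
    have := arQ_up (S := S) (w := w) (O := O) (x := x.1) u.2 ⟨x.2, e⟩
    rwa [S.rho_near x.2] at this

/-- the types of the dropped zero squares -/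
def DTy (w : S.X) (O : S.OR w) (F : Set V) (q x x' : V) : Prop :=
  (w ∉ S.J q) ∨ q ∈ F ∨ (w ∈ S.J q ∧ q ∉ F ∧ S.K.ar x q ∧ S.K.ar x' q ∧
    S.fq w O (S.rho w x) = S.fq w O (S.rho w x'))

theorem DTy.symm {w : S.X} {O : S.OR w} {F : Set V} {q x x' : V} (h : S.DTy w O F q x x') :
    S.DTy w O F q x' x := by
  rcases h with h | h | ⟨h1, h2, h3, h4, h5⟩
  · exact Or.inl h
  · exact Or.inr (Or.inl h)
  · exact Or.inr (Or.inr ⟨h1, h2, h4, h3, h5.symm⟩)

/-- WHAT IS USED OF THE KEPT SQUARES: local squares are kept, the poles of a hub which is not folded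
are not merged -/
structure KSq (w : S.X) (O : S.OR w) (F : Set V) : Prop where
  ni : ∀ a q b y, Q4 S.P a q b y → S.At4 a q b y w → a ≠ b →
    S.fq w O (S.rho w a) ≠ S.fq w O (S.rho w b)
  pp : ∀ u q a b, w ∈ S.J q → q ∉ F → S.Qs w u q a b → a ≠ b → S.K.ar q a → S.K.ar q b →
    S.fq w O (S.rho w a) ≠ S.fq w O (S.rho w b)

/-- a dropped flag belongs to a square with two merged opposite vertices -/
theorem not_kp4 {hc : S.Conn} {hnb : S.NB} {w : S.X} {O : S.OR w} {hm : (S.k0 hc w).Min}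
    {hn : S.SqN w O} {g : FL (S.k0 hc w)} (hg : ¬ (S.kfM hc hnb w O hm hn).Kp g) :
    (S.k0P hc w).sq g.1.1.1 ∧
    (S.fq w O ((S.k0fc hc hnb w).x g) = S.fq w O ((S.k0fc hc hnb w).z g) ∨
    S.fq w O ((S.k0fc hc hnb w).y g) =
      S.fq w O ((S.k0fc hc hnb w).z ((S.k0fc hc hnb w).r g))) := by
  have h1 : ¬ ∀ p, g.1.1.1 = Sum.inr p → S.kept w O p := fun k =>
    hg ((S.kfM_ph hc hnb w O hm hn g).2 k)
  push Not at h1
  obtain ⟨p, hp, hk⟩ := h1
  have hsq : (S.k0P hc w).sq g.1.1.1 := ⟨p, hp⟩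
  refine ⟨hsq, ?_⟩
  obtain ⟨⟨⟨i, jj⟩, l⟩, b⟩ := g
  obtain rfl : i = Sum.inr p := hp
  obtain ⟨i', hi', j, h, he⟩ | ⟨i', hi', j, h, he⟩ := (S.k0P hc w).l_cases (⟨⟨Sum.inr p, jj⟩, l⟩)
  · exfalso
    have : i' = Sum.inr p := (congrArg (fun e => e.1.1) he).symm
    subst this
    exact hi' hsq
  · have : i' = Sum.inr p := (congrArg (fun e => e.1.1) he).symm
    subst this
    rw [he]
    have hk' := not_kept hk j
    have e3 : j + 1 + 2 = j + 3 := by fin_cases j <;> rfl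
    cases b
    · have e : (S.k0fc hc hnb w).r (((S.k0P hc w).l4 (Sum.inr p) hi' j h, false) :
          FL (S.k0 hc w)) = ((S.k0P hc w).l4 (Sum.inr p) hi' (j + 3) h, false) :=
        Prod.ext ((S.k0P hc w).pv_4 hi' j h) rfl
      have ex : (S.k0fc hc hnb w).x (((S.k0P hc w).l4 (Sum.inr p) hi' j h, false) :
          FL (S.k0 hc w)) = h • S.vq w p (j + 2) := by
        rw [← S.k0P_qt hc w]
        exact ((S.k0P hc w).fc_x' _ _).trans ((S.k0P hc w).c2_4 _ hi' j h)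
      have ez : (S.k0fc hc hnb w).z (((S.k0P hc w).l4 (Sum.inr p) hi' j h, false) :
          FL (S.k0 hc w)) = h • S.vq w p j := by
        rw [← S.k0P_qt hc w]
        exact ((S.k0P hc w).fc_z' _ _).trans ((S.k0P hc w).c0_4 _ hi' j h)
      have ey : (S.k0fc hc hnb w).y (((S.k0P hc w).l4 (Sum.inr p) hi' j h, false) :
          FL (S.k0 hc w)) = h • S.vq w p (j + 1) := by
        rw [← S.k0P_qt hc w]
        exact (S.k0P hc w).c1_4 _ hi' j h
      have ew : (S.k0fc hc hnb w).z (((S.k0P hc w).l4 (Sum.inr p) hi' (j + 3) h, false) :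
          FL (S.k0 hc w)) = h • S.vq w p (j + 3) := by
        rw [← S.k0P_qt hc w]
        exact ((S.k0P hc w).fc_z' _ _).trans ((S.k0P hc w).c0_4 _ hi' (j + 3) h)
      rw [e, ex, ey, ez, ew, fq_smul, fq_smul, fq_smul, fq_smul]
      rcases hk' with k | k
      · exact Or.inl (by rw [k])
      · exact Or.inr (by rw [k])
    · have e : (S.k0fc hc hnb w).r (((S.k0P hc w).l4 (Sum.inr p) hi' j h, true) :
          FL (S.k0 hc w)) = ((S.k0P hc w).l4 (Sum.inr p) hi' (j + 1) h, true) :=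
        Prod.ext ((S.k0P hc w).nx_4 hi' j h) rfl
      have ex : (S.k0fc hc hnb w).x (((S.k0P hc w).l4 (Sum.inr p) hi' j h, true) :
          FL (S.k0 hc w)) = h • S.vq w p j := by
        rw [← S.k0P_qt hc w]
        exact ((S.k0P hc w).fc_x _ _).trans ((S.k0P hc w).c0_4 _ hi' j h)
      have ez : (S.k0fc hc hnb w).z (((S.k0P hc w).l4 (Sum.inr p) hi' j h, true) :
          FL (S.k0 hc w)) = h • S.vq w p (j + 2) := by
        rw [← S.k0P_qt hc w]
        exact ((S.k0P hc w).fc_z _ _).trans ((S.k0P hc w).c2_4 _ hi' j h)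
      have ey : (S.k0fc hc hnb w).y (((S.k0P hc w).l4 (Sum.inr p) hi' j h, true) :
          FL (S.k0 hc w)) = h • S.vq w p (j + 1) := by
        rw [← S.k0P_qt hc w]
        exact (S.k0P hc w).c1_4 _ hi' j h
      have ew : (S.k0fc hc hnb w).z (((S.k0P hc w).l4 (Sum.inr p) hi' (j + 1) h, true) :
          FL (S.k0 hc w)) = h • S.vq w p (j + 3) := by
        rw [← S.k0P_qt hc w, ← e3]
        exact ((S.k0P hc w).fc_z _ _).trans ((S.k0P hc w).c2_4 _ hi' (j + 1) h)
      rw [e, ex, ey, ez, ew, fq_smul, fq_smul, fq_smul, fq_smul]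
      rcases hk' with k | k
      · exact Or.inl (by rw [k])
      · exact Or.inr (by rw [k])

/-- a zero square with two merged opposite vertices -/
theorem FO.dty {w : S.X} {O : S.OR w} {F : Set V} (h : S.FO w O F) (hk : S.KSq w O F)
    {u : S.X} {q x x' : V} (hs : S.Qs w u q x x') (hne : x ≠ x')
    (e : S.fq w O (S.rho w x) = S.fq w O (S.rho w x') ∨
      S.fq w O (S.rho w q) = S.fq w O (Sum.inr ⟨u, hs.adj⟩)) : S.DTy w O F q x x' := by
  by_cases hw : w ∈ S.J q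
  · by_cases hF : q ∈ F
    · exact Or.inr (Or.inl hF)
    · have e2 : S.fq w O (S.rho w q) ≠ S.fq w O (Sum.inr ⟨u, hs.adj⟩) := by
        intro k
        rw [S.rho_near hw] at k
        exact (Sk.inl.1 (fq_inr.1 k)).2 ((h.op _ _).2 ⟨hw, hF⟩)
      have e1 := e.resolve_right e2
      have nF : ∀ {y : V}, S.Cs w u y → y ∉ F := fun {y} c k => h.ncs k hs.adj c.2
      -- the arrows between `q` and a page or a pole which crosses `w u` are kept
      have up : ∀ {y : V}, S.Cs w u y → S.K.ar y q →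
          S.arQ w O (S.fq w O (S.rho w y)) (S.fq w O (S.rho w q)) := by
        intro y c hy
        have hh := h.arc (SAr.hor (S := S) ⟨y, c.1⟩ ⟨q, hw⟩ hy)
        rw [S.rho_near c.1, S.rho_near hw]
        rcases hh with k | ⟨u', q', p', hq', hp', k1, -, -, k2, -⟩ | ⟨q', hq', k1, -, k2⟩
        · exact k
        · have : y = q' := congrArg Subtype.val (Sum.inl.inj k2)
          exact absurd (by rw [this]; exact k1) (nF c)
        · have : q = q' := congrArg Subtype.val (Sum.inl.inj k2)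
          exact absurd (by rw [this]; exact k1) hF
      have dn : ∀ {y : V}, S.Cs w u y → S.K.ar q y →
          S.arQ w O (S.fq w O (S.rho w q)) (S.fq w O (S.rho w y)) := by
        intro y c hy
        have hh := h.arc (SAr.hor (S := S) ⟨q, hw⟩ ⟨y, c.1⟩ hy)
        rw [S.rho_near c.1, S.rho_near hw]
        rcases hh with k | ⟨u', q', p', hq', hp', k1, -, -, k2, -⟩ | ⟨q', hq', k1, -, k2⟩
        · exact k
        · have : q = q' := congrArg Subtype.val (Sum.inl.inj k2)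
          exact absurd (by rw [this]; exact k1) hF
        · have : y = q' := congrArg Subtype.val (Sum.inl.inj k2)
          exact absurd (by rw [this]; exact k1) (nF c)
      rcases hs.E1 with a1 | a1
      · rcases hs.E2 with a2 | a2
        · exact Or.inr (Or.inr ⟨hw, hF, a1, a2, e1⟩)
        · exfalso
          have r1 := arQ_rk (up hs.l a1)
          have r2 := arQ_rk (dn hs.r a2)
          rw [e1] at r1
          omega
      · rcases hs.E2 with a2 | a2
        · exfalso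
          have r1 := arQ_rk (up hs.r a2)
          have r2 := arQ_rk (dn hs.l a1)
          rw [e1] at r2
          omega
        · exact absurd e1 (hk.pp u q x x' hw hF hs hne a1 a2)
  · exact Or.inl hw

/-- THE DROPPED FLAGS -/
theorem FO.drop {hc : S.Conn} {hnb : S.NB} {w : S.X} {O : S.OR w} {hm : (S.k0 hc w).Min}
    {hn : S.SqN w O} {F : Set V} (h : S.FO w O F) (hk : S.KSq w O F) {g : FL (S.k0 hc w)}
    (hg : ¬ (S.kfM hc hnb w O hm hn).Kp g) :
    ∃ (u : S.EV w) (q x x' : V), S.Qs w u.1 q x x' ∧ x ≠ x' ∧ S.DTy w O F q x x' ∧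
      (((S.k0fc hc hnb w).y g = S.rho w q ∧ (S.k0fc hc hnb w).x g = S.rho w x ∧
        (S.k0fc hc hnb w).z g = S.rho w x') ∨
      ((S.k0fc hc hnb w).y g = S.rho w x ∧ (S.k0fc hc hnb w).x g = S.rho w q ∧
        (S.k0fc hc hnb w).z g = Sum.inr u) ∨
      ((S.k0fc hc hnb w).y g = S.rho w x ∧ (S.k0fc hc hnb w).x g = Sum.inr u ∧
        (S.k0fc hc hnb w).z g = S.rho w q) ∨
      (S.k0fc hc hnb w).y g = Sum.inr u) := by
  obtain ⟨hsq, he⟩ := not_kp4 hg
  have hQ := (S.k0P hc w).fl_Q4 (S.k0P_nd hc hnb w) hsq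
  have hxz : (S.k0fc hc hnb w).x g ≠ (S.k0fc hc hnb w).z g := (S.k0fc hc hnb w).ne_x g hsq
  have hyw : (S.k0fc hc hnb w).y g ≠ (S.k0fc hc hnb w).z ((S.k0fc hc hnb w).r g) :=
    (S.k0fc hc hnb w).ne g hsq
  rcases k0_Q4_cases hc hQ with ⟨a, q, b, y, hq, h4, nab, nqy, ea, eq, eb, ey⟩ |
    ⟨u, x, q, x', hs, hr⟩
  · exfalso
    have ea' : (S.k0fc hc hnb w).x g = S.rho w a := ea
    have eq' : (S.k0fc hc hnb w).y g = S.rho w q := eq
    have eb' : (S.k0fc hc hnb w).z g = S.rho w b := eb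
    have ey' : (S.k0fc hc hnb w).z ((S.k0fc hc hnb w).r g) = S.rho w y := ey
    rw [ea', eb', eq', ey'] at he
    rcases he with k | k
    · exact hk.ni _ _ _ _ hq h4 nab k
    · exact hk.ni _ _ _ _ hq.rot h4.rot nqy k
  · have hr' : Rt (S.rho w x) (S.rho w q) (S.rho w x') (Sum.inr ⟨u, hs.1⟩)
        ((S.k0fc hc hnb w).x g) ((S.k0fc hc hnb w).y g) ((S.k0fc hc hnb w).z g)
        ((S.k0fc hc hnb w).z ((S.k0fc hc hnb w).r g)) := hr
    rcases hr' with ⟨h1, h2, h3, h4⟩ | ⟨h1, h2, h3, h4⟩ | ⟨h1, h2, h3, h4⟩ | ⟨h1, h2, h3, h4⟩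
    · have hne : x ≠ x' := fun k => hxz (by rw [h1, h3, k])
      rw [h1, h3, h2, h4] at he
      exact ⟨⟨u, hs.1⟩, q, x, x', hs, hne, h.dty hk hs hne he, Or.inl ⟨h2, h1, h3⟩⟩
    · have hne : x ≠ x' := fun k => hyw (by rw [h2, h4, k])
      rw [h1, h3, h2, h4] at he
      refine ⟨⟨u, hs.1⟩, q, x', x, hs.symm', hne.symm, (h.dty hk hs hne ?_).symm,
        Or.inr (Or.inl ⟨h2, h1, h3⟩)⟩
      rcases he with k | k
      · exact Or.inr k
      · exact Or.inl k.symm
    · have hne : x ≠ x' := fun k => hxz (by rw [h1, h3, k])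
      rw [h1, h3, h2, h4] at he
      refine ⟨⟨u, hs.1⟩, q, x, x', hs, hne, h.dty hk hs hne ?_, Or.inr (Or.inr (Or.inr h2))⟩
      rcases he with k | k
      · exact Or.inl k.symm
      · exact Or.inr k.symm
    · have hne : x ≠ x' := fun k => hyw (by rw [h2, h4, k])
      rw [h1, h3, h2, h4] at he
      refine ⟨⟨u, hs.1⟩, q, x, x', hs, hne, h.dty hk hs hne ?_,
        Or.inr (Or.inr (Or.inl ⟨h2, h1, h3⟩))⟩
      rcases he with k | k
      · exact Or.inr k.symm
      · exact Or.inl k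

end SyQ

/-! ### no backtracking -/

/-- the pentagons -/
def P45.kxPG {H V : Type} [Group H] [MulAction H V] {K : GX H V} (P : P45 K) : PG K where
  five i := ¬ P.sq i
  pt := P.pt
  cb_eq := P.cb5
  cw_eq := P.cw5

/-- no backtracking in a minimal complex -/
theorem P45.nb_min {H V : Type} [Group H] [MulAction H V] {K : GX H V} (P : P45 K)
    (hm : K.Min) (nd : P.ND) (e : K.LE) : K.c0 e ≠ K.c2 e := by
  refine P.nb_of (fun i hi j => ?_) nd e
  have a : P.kxPG.At (fun j => P.pt i j) i := ⟨hi, 1, 0, Or.inl fun j => by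
    rw [one_smul, zero_add]; rfl⟩
  exact a.ne2 hm j

/-- no backtracking flags -/
theorem P45.fc_nb {H V : Type} [Group H] [MulAction H V] {K : GX H V} (P : P45 K)
    (hm : K.Min) (nd : P.ND) (g : FL K) : (P.fc nd).x g ≠ (P.fc nd).z g := by
  obtain ⟨e, b⟩ := g
  cases b
  · rw [P.fc_x', P.fc_z']
    exact (P.nb_min hm nd e).symm
  · rw [P.fc_x, P.fc_z]
    exact P.nb_min hm nd e

end Pool.Agent.DI
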