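import Pool.Agent.DI.ONf
import Pool.Agent.DI.Geo4K

/-!
# The squares of the folded slice and their tops

`O : S.OR w` with `O.Nf` (near stars are open, except over the folded hubs). Kept squares of
`S.kf hc w O`:
`KN w O u q z x` (near star: `z` is a pole of `q`, `x → q`): top `[x]`, sides `[q]`, `t_u`, partner `[z]`;
`KH w O u q z x` (two-pole star of an open hub): top `[q]`, sides `[z]`, `[x]`, partner `t_u`;
the local squares of `K` (`Loc w T a b y`): top `[T]`, sides `[a]`, `[b]`, partner `[y]`.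
`kf_Top`: these are all tops. `kf_top`, `kf_par`, `kf_side`: every kept square has a top, the partner is
unique, a side has an arrow to the partner. `cls_one`, `cls_par`: the classes of the tops.
-/

namespace Pool.Agent.DI

open MulAction
open Pool.Agent.SAF (InC orbs FinOrb oc Decomp SAn SA Conv hull dist_edge FinOrb_iff exists_next)
open Pool.Agent.BT (PX PQ JS bey exits lz lz_self lz_ne lz_symm x_next_unique)
open Pool.Agent.BT.TA

/-! ### tops of walks -/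

section

variable {H V : Type} [Group H] [MulAction H V] {K : GX H V} {P : P45 K}

theorem GX.ck_asym {x y : V} (h : K.ar x y) : ¬ K.ar y x := fun h' =>
  absurd ((K.ar_rk _ _ h).trans (K.ar_rk _ _ h')) (lt_irrefl _)

theorem P45.ck_tp {i : K.I} (hi : P.sq i) {j : Fin 4} (ht : P.tp i j) :
    P.Top (P.qt i j) (P.qt i (j + 1)) (P.qt i (j + 3)) (P.qt i (j + 2)) := by
  refine ⟨?_, ht.1, ht.2⟩
  have h := (Q4_qt (P := P) 1 hi (j + 3)).symm
  simp only [one_smul] at h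
  have e1 : j + 3 + 1 = j := by
    have : ∀ j : Fin 4, j + 3 + 1 = j := by decide
    exact this j
  have e2 : j + 3 + 2 = j + 1 := by
    have : ∀ j : Fin 4, j + 3 + 2 = j + 1 := by decide
    exact this j
  have e3 : j + 3 + 3 = j + 2 := by
    have : ∀ j : Fin 4, j + 3 + 3 = j + 2 := by decide
    exact this j
  rw [e1, e2, e3] at h
  exact h

/-- every walk has a top -/
theorem Q4.ck_top (ht : ∀ i, P.sq i → ∃ j, P.tp i j) {a q b y : V} (h : Q4 P a q b y) :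
    P.Top a q y b ∨ P.Top q b a y ∨ P.Top b y q a ∨ P.Top y a b q := by
  obtain ⟨g, i, j, hi, h⟩ := h
  obtain ⟨k, hk⟩ := ht i hi
  have t := (P45.ck_tp hi hk).smul g
  obtain ⟨m, rfl⟩ : ∃ m, k = j + m := ⟨k - j, (add_sub_cancel j k).symm⟩
  have key : ∀ a q b y : V, (a = g • P.qt i j ∧ q = g • P.qt i (j + 1) ∧ b = g • P.qt i (j + 2) ∧
      y = g • P.qt i (j + 3)) → P.Top a q y b ∨ P.Top q b a y ∨ P.Top b y q a ∨ P.Top y a b q := by
    rintro a q b y ⟨rfl, rfl, rfl, rfl⟩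
    have s1 : ∀ j : Fin 4, j + 1 + 1 = j + 2 := by decide
    have s2 : ∀ j : Fin 4, j + 1 + 2 = j + 3 := by decide
    have s3 : ∀ j : Fin 4, j + 1 + 3 = j := by decide
    have s4 : ∀ j : Fin 4, j + 2 + 1 = j + 3 := by decide
    have s5 : ∀ j : Fin 4, j + 2 + 2 = j := by decide
    have s6 : ∀ j : Fin 4, j + 2 + 3 = j + 1 := by decide
    have s7 : ∀ j : Fin 4, j + 3 + 1 = j := by decide
    have s8 : ∀ j : Fin 4, j + 3 + 2 = j + 1 := by decide
    have s9 : ∀ j : Fin 4, j + 3 + 3 = j + 2 := by decide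
    fin_cases m
    · left
      have t : P.Top (g • P.qt i (j + 0)) (g • P.qt i (j + 0 + 1)) (g • P.qt i (j + 0 + 3))
        (g • P.qt i (j + 0 + 2)) := t
      rwa [add_zero] at t
    · right; left
      have t : P.Top (g • P.qt i (j + 1)) (g • P.qt i (j + 1 + 1)) (g • P.qt i (j + 1 + 3))
        (g • P.qt i (j + 1 + 2)) := t
      rwa [s1, s2, s3] at t
    · right; right; left
      have t : P.Top (g • P.qt i (j + 2)) (g • P.qt i (j + 2 + 1)) (g • P.qt i (j + 2 + 3))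
        (g • P.qt i (j + 2 + 2)) := t
      rwa [s4, s5, s6] at t
    · right; right; right
      have t : P.Top (g • P.qt i (j + 3)) (g • P.qt i (j + 3 + 1)) (g • P.qt i (j + 3 + 3))
        (g • P.qt i (j + 3 + 2)) := t
      rwa [s7, s8, s9] at t
  rcases h with h | ⟨h1, h2, h3, h4⟩
  · exact key _ _ _ _ h
  · rcases key b q a y ⟨h1, h2, h3, h4⟩ with k | k | k | k
    · exact Or.inr (Or.inr (Or.inl k.symm'))
    · exact Or.inr (Or.inl k.symm')
    · exact Or.inl k.symm'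
    · exact Or.inr (Or.inr (Or.inr k.symm'))

theorem Q4.ck_ne (nd : P.ND) {a q b y : V} (h : Q4 P a q b y) : a ≠ b ∧ q ≠ y := by
  obtain ⟨g, i, j, hi, h⟩ := h
  have key : ∀ k : Fin 4, P.qt i k ≠ P.qt i (k + 2) := by
    intro k
    fin_cases k
    · exact (nd i hi).1
    · exact (nd i hi).2
    · exact (nd i hi).1.symm
    · exact (nd i hi).2.symm
  have k1 := key (j + 1)
  have e : ∀ j : Fin 4, j + 1 + 2 = j + 3 := by decide
  rw [e] at k1
  rcases h with ⟨rfl, rfl, rfl, rfl⟩ | ⟨rfl, rfl, rfl, rfl⟩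
  · exact ⟨fun e => key j (smul_left_cancel g e), fun e => k1 (smul_left_cancel g e)⟩
  · exact ⟨fun e => key j (smul_left_cancel g e).symm, fun e => k1 (smul_left_cancel g e)⟩

end

namespace SyQ

variable {H V : Type} [Group H] [MulAction H V] {S : SyQ H V}

/-! ### walks of the folded slice -/

/-- the squares of the folded slice are images of squares of the slice -/
theorem kf_Q4 {hc : S.Conn} {w : S.X} {O : S.OR w} {hm : (S.k0 hc w).Min} {hn : S.SqN w O}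
    {a q b y : S.Q w O} (h : Q4 (S.kfP hc w O hm hn) a q b y) :
    ∃ A B C E, Q4 (S.k0P hc w) A B C E ∧ a = S.fq w O A ∧ q = S.fq w O B ∧ b = S.fq w O C ∧
      y = S.fq w O E ∧ a ≠ b ∧ q ≠ y := by
  obtain ⟨n1, n2⟩ := h.ck_ne (S.kfP_nd hc w O hm hn)
  obtain ⟨g, i, j, hi, h⟩ := h
  rcases h with ⟨rfl, rfl, rfl, rfl⟩ | ⟨rfl, rfl, rfl, rfl⟩
  · exact ⟨_, _, _, _, Q4_qt (P := S.k0P hc w) g (i := (S.kfQ hc w O).ι i) hi j, rfl, rfl, rfl, rfl,
      n1, n2⟩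
  · exact ⟨_, _, _, _, (Q4_qt (P := S.k0P hc w) g (i := (S.kfQ hc w O).ι i) hi j).symm, rfl, rfl,
      rfl, rfl, n1, n2⟩

/-- the images of the squares of the slice which are not degenerate -/
theorem k0_Q4_kf {hc : S.Conn} {w : S.X} {O : S.OR w} (hm : (S.k0 hc w).Min) (hn : S.SqN w O)
    {A B C E : S.SV w} (h : Q4 (S.k0P hc w) A B C E) (h1 : S.fq w O A ≠ S.fq w O C)
    (h2 : S.fq w O B ≠ S.fq w O E) :
    Q4 (S.kfP hc w O hm hn) (S.fq w O A) (S.fq w O B) (S.fq w O C) (S.fq w O E) := by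
  obtain ⟨g, i, j, ⟨p, rfl⟩, h⟩ := h
  have key : ∀ {A B C E : S.SV w}, S.fq w O A ≠ S.fq w O C → S.fq w O B ≠ S.fq w O E →
      (A = g • (S.k0P hc w).qt (Sum.inr p) j ∧ B = g • (S.k0P hc w).qt (Sum.inr p) (j + 1) ∧
      C = g • (S.k0P hc w).qt (Sum.inr p) (j + 2) ∧ E = g • (S.k0P hc w).qt (Sum.inr p) (j + 3)) →
      Q4 (S.kfP hc w O hm hn) (S.fq w O A) (S.fq w O B) (S.fq w O C) (S.fq w O E) := by
    rintro A B C E n1 n2 ⟨rfl, rfl, rfl, rfl⟩
    have e : ∀ k, S.fq w O (g • (S.k0P hc w).qt (Sum.inr p) k) = g • S.fq w O (S.vq w p k) := by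
      intro k
      rw [S.k0P_qt]
      rfl
    rw [e, e] at n1 n2
    have m1 : S.fq w O (S.vq w p j) ≠ S.fq w O (S.vq w p (j + 2)) := fun k => n1 (by rw [k])
    have m2 : S.fq w O (S.vq w p (j + 1)) ≠ S.fq w O (S.vq w p (j + 3)) := fun k => n2 (by rw [k])
    have hp : S.kept w O p := by
      fin_cases j
      · exact ⟨m1, m2⟩
      · exact ⟨m2.symm, m1⟩
      · exact ⟨m1.symm, m2.symm⟩
      · exact ⟨m2, m1.symm⟩
    have := Q4_qt (P := S.kfP hc w O hm hn) g (i := Sum.inr ⟨p, hp⟩) ⟨p, rfl⟩ j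
    exact this
  rcases h with h | ⟨e1, e2, e3, e4⟩
  · exact key h1 h2 h
  · exact (key h1.symm h2 ⟨e1, e2, e3, e4⟩).symm

/-- THE SQUARES OF THE FOLDED SLICE: local squares of `K` or zero squares of open stars with a pole -/
theorem kf_Q4_cases {hc : S.Conn} {w : S.X} {O : S.OR w} {hm : (S.k0 hc w).Min} {hn : S.SqN w O}
    {a q b y : S.Q w O} (h : Q4 (S.kfP hc w O hm hn) a q b y) : a ≠ b ∧ q ≠ y ∧
    ((∃ a0 q0 b0 y0, Q4 S.P a0 q0 b0 y0 ∧ S.At4 a0 q0 b0 y0 w ∧ a0 ≠ b0 ∧ q0 ≠ y0 ∧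
      a = S.fq w O (S.rho w a0) ∧ q = S.fq w O (S.rho w q0) ∧ b = S.fq w O (S.rho w b0) ∧
      y = S.fq w O (S.rho w y0)) ∨
    ∃ (u : S.X) (x s x' : V) (hs : S.Qs w u s x x'), O.op u s ∧ (S.K.ar s x ∨ S.K.ar s x') ∧
      S.fq w O (S.rho w x) ≠ S.fq w O (S.rho w x') ∧
      Rt (S.fq w O (S.rho w x)) (S.fq w O (S.rho w s)) (S.fq w O (S.rho w x'))
        (S.fq w O (Sum.inr ⟨u, hs.1⟩)) a q b y) := by
  obtain ⟨A, B, C, E, h', rfl, rfl, rfl, rfl, n1, n2⟩ := kf_Q4 h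
  refine ⟨n1, n2, ?_⟩
  rcases k0_Q4_cases hc h' with ⟨a0, q0, b0, y0, k1, k2, k3, k4, rfl, rfl, rfl, rfl⟩ |
    ⟨u, x, s, x', hs, hr⟩
  · exact Or.inl ⟨a0, q0, b0, y0, k1, k2, k3, k4, rfl, rfl, rfl, rfl⟩
  · right
    have hr' : Rt (S.fq w O (S.rho w x)) (S.fq w O (S.rho w s)) (S.fq w O (S.rho w x'))
        (S.fq w O (Sum.inr ⟨u, hs.1⟩)) (S.fq w O A) (S.fq w O B) (S.fq w O C) (S.fq w O E) := by
      rcases hr with ⟨rfl, rfl, rfl, rfl⟩ | ⟨rfl, rfl, rfl, rfl⟩ | ⟨rfl, rfl, rfl, rfl⟩ |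
        ⟨rfl, rfl, rfl, rfl⟩
      · exact Or.inl ⟨rfl, rfl, rfl, rfl⟩
      · exact Or.inr (Or.inl ⟨rfl, rfl, rfl, rfl⟩)
      · exact Or.inr (Or.inr (Or.inl ⟨rfl, rfl, rfl, rfl⟩))
      · exact Or.inr (Or.inr (Or.inr ⟨rfl, rfl, rfl, rfl⟩))
    have nn : S.fq w O (S.rho w x) ≠ S.fq w O (S.rho w x') ∧
        S.fq w O (S.rho w s) ≠ S.fq w O (Sum.inr ⟨u, hs.1⟩) := by
      rcases hr' with ⟨e1, e2, e3, e4⟩ | ⟨e1, e2, e3, e4⟩ | ⟨e1, e2, e3, e4⟩ | ⟨e1, e2, e3, e4⟩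
      · rw [← e1, ← e2, ← e3, ← e4]
        exact ⟨n1, n2⟩
      · rw [← e1, ← e2, ← e3, ← e4]
        exact ⟨n2.symm, n1⟩
      · rw [← e1, ← e2, ← e3, ← e4]
        exact ⟨n1.symm, n2.symm⟩
      · rw [← e1, ← e2, ← e3, ← e4]
        exact ⟨n2, n1.symm⟩
    rcases fold_sq (O := O) hs with k | k | k
    · exact absurd k nn.1
    · exact absurd k nn.2
    · exact ⟨u, x, s, x', hs, k.1, k.2, nn.1, hr'⟩

/-! ### the classes of the tops -/

/-- a vertex over `w` which crosses no edge at `w` and is not folded to a sink is alone in its class -/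
theorem cls_one {w : S.X} {O : S.OR w} {x : V} (hx : w ∈ S.J x)
    (h1 : ∀ u, S.D.G.Adj w u → u ∉ S.J x) (h2 : ∀ u, ¬ S.Sk w O u (Sum.inl ⟨x, hx⟩)) {c : S.SV w}
    (h : S.fq w O c = S.fq w O (S.rho w x)) : c = S.rho w x := by
  rw [S.rho_near hx] at h ⊢
  have key : ∀ a b, S.FR w O a b → (a = Sum.inl ⟨x, hx⟩ ↔ b = Sum.inl ⟨x, hx⟩) := by
    intro a b k
    cases k with
    | mer u q y y' k1 k2 =>
      constructor
      · intro e
        have e' : y.1 = x := congrArg Subtype.val (Sum.inl.inj e)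
        have := k1.l.2
        rw [e'] at this
        exact absurd this (h1 u k1.adj)
      · intro e
        have e' : y'.1 = x := congrArg Subtype.val (Sum.inl.inj e)
        have := k1.r.2
        rw [e'] at this
        exact absurd this (h1 u k1.adj)
    | par u q y y' k1 k2 =>
      constructor
      · intro e
        have e' : y.1 = x := congrArg Subtype.val (Sum.inl.inj e)
        have := k1.l.2
        rw [e'] at this
        exact absurd this (h1 u k1.adj)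
      · intro e
        have e' : y'.1 = x := congrArg Subtype.val (Sum.inl.inj e)
        have := k1.r.2
        rw [e'] at this
        exact absurd this (h1 u k1.adj)
    | dia q u k k' =>
      constructor
      · intro e
        rw [← e] at h2
        exact absurd (Sk.inl.2 ⟨k, k'⟩) (h2 u)
      · intro e
        cases e
  have : ∀ a b, Relation.EqvGen (S.FR w O) a b →
      (a = Sum.inl ⟨x, hx⟩ ↔ b = Sum.inl ⟨x, hx⟩) := by
    intro a b k
    induction k with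
    | rel a b k => exact key a b k
    | refl a => exact Iff.rfl
    | symm a b _ ih => exact ih.symm
    | trans a b c _ _ i1 i2 => exact i1.trans i2
  exact (this _ _ (fq_eq.1 h)).2 rfl

/-- THE CLASS OF A VERTEX WITH AN ARROW TO THE HUB OF AN OPEN STAR: its component of parallel vertices -/
theorem cls_par {w u : S.X} {O : S.OR w} (hO : O.Nf) {q y : V} (ho : O.op u q)
    (hu : S.D.G.Adj w u) (hy : S.Cs w u y) (e : S.K.ar y q) {c : S.SV w}
    (h : S.fq w O c = S.fq w O (S.rho w y)) :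
    ∃ y', c = S.rho w y' ∧ S.Cs w u y' ∧ S.K.ar y' q ∧ S.Gc w u q y y' := by
  have hq : w ∈ S.J q := O.near u q ho
  have key : ∀ a b, S.FR w O a b →
      ((∃ y', a = S.rho w y' ∧ S.Cs w u y' ∧ S.K.ar y' q ∧ S.Gc w u q y y') ↔
        ∃ y', b = S.rho w y' ∧ S.Cs w u y' ∧ S.K.ar y' q ∧ S.Gc w u q y y') := by
    have mer : ∀ (u' : S.X) (s x x' : V), S.Qs w u' s x x' → ¬ S.SD w u' s → ¬ O.op u' s →
        S.Cs w u x → S.K.ar x q → False := by
      intro u' s x x' k1 k2 k3 c e'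
      obtain rfl : u' = u := ar_cs_eq c.1 e' hq k1.adj hu k1.l.2 c.2
      have hs : w ∈ S.J s := by
        by_contra hs
        have ha := S.dir_adj hs
        have hb := S.dir_bey hs
        have hne : u' ≠ S.dir w s := by
          intro e
          obtain ⟨p, hp⟩ := S.js.ne s
          have h1 := k1.near hp
          have h2 := hb hp
          rw [← e] at h2
          exact bey_not h1 h2
        exact hne (ar_cs_eq c.1 e' hq hu ha c.2 (S.dir_cross k1.E1 c.1 hs))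
      rcases k1.E1 with e1 | e1
      · obtain rfl : s = q := ar_ar_eq c.1 e1 hs e' hq hu c.2
        exact k3 ho
      · by_cases hd : ∃ v, S.Dia w v s
        · obtain ⟨v, hv⟩ := hd
          have key2 : ∀ v, S.Dia w v s → v = u' := by
            intro v hv
            have c1 := hv.two e1
            exact ar_cs_eq c.1 e' hq c1.1 hu c1.2.2 c.2
          obtain rfl := key2 v hv
          exact k2 ⟨hv, key2⟩
        · push Not at hd
          exact k3 (hO.n1 s hs hd u' hu)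
    intro a b k
    cases k with
    | mer u' s x x' k1 k2 k3 =>
      constructor
      · rintro ⟨y', e1, c, e2, -⟩
        rw [S.rho_near c.1] at e1
        have e' : x.1 = y' := congrArg Subtype.val (Sum.inl.inj e1)
        subst e'
        exact (mer u' s _ _ k1 k2 k3 c e2).elim
      · rintro ⟨y', e1, c, e2, -⟩
        rw [S.rho_near c.1] at e1
        have e' : x'.1 = y' := congrArg Subtype.val (Sum.inl.inj e1)
        subst e'
        exact (mer u' s _ _ k1.symm' k2 k3 c e2).elim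
    | par u' s x x' k1 k2 k3 k4 =>
      have hs := O.near u' s k2
      constructor
      · rintro ⟨y', e1, c, e2, g⟩
        rw [S.rho_near c.1] at e1
        have e' : x.1 = y' := congrArg Subtype.val (Sum.inl.inj e1)
        subst e'
        obtain rfl : u' = u := ar_cs_eq c.1 e2 hq k1.adj hu k1.l.2 c.2
        obtain rfl : s = q := ar_ar_eq c.1 k3 hs e2 hq hu c.2
        exact ⟨x'.1, (S.rho_near x'.2).symm, k1.r, k4, g.trans _ _ _ (Relation.EqvGen.rel _ _ k1)⟩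
      · rintro ⟨y', e1, c, e2, g⟩
        rw [S.rho_near c.1] at e1
        have e' : x'.1 = y' := congrArg Subtype.val (Sum.inl.inj e1)
        subst e'
        obtain rfl : u' = u := ar_cs_eq c.1 e2 hq k1.adj hu k1.r.2 c.2
        obtain rfl : s = q := ar_ar_eq c.1 k4 hs e2 hq hu c.2
        exact ⟨x.1, (S.rho_near x.2).symm, k1.l, k3,
          g.trans _ _ _ (Relation.EqvGen.rel _ _ k1.symm')⟩
    | dia s u' k1 k2 =>
      constructor
      · rintro ⟨y', e1, c, e2, -⟩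
        rw [S.rho_near c.1] at e1
        have e' : s.1 = y' := congrArg Subtype.val (Sum.inl.inj e1)
        subst e'
        exact (k1.1.not_cs hu c.2).elim
      · rintro ⟨y', e1, c, -⟩
        rw [S.rho_near c.1] at e1
        cases e1
  have : ∀ a b, Relation.EqvGen (S.FR w O) a b →
      ((∃ y', a = S.rho w y' ∧ S.Cs w u y' ∧ S.K.ar y' q ∧ S.Gc w u q y y') ↔
        ∃ y', b = S.rho w y' ∧ S.Cs w u y' ∧ S.K.ar y' q ∧ S.Gc w u q y y') := by
    intro a b k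
    induction k with
    | rel a b k => exact key a b k
    | refl a => exact Iff.rfl
    | symm a b _ ih => exact ih.symm
    | trans a b c _ _ i1 i2 => exact i1.trans i2
  exact (this _ _ (fq_eq.1 h)).2 ⟨y, rfl, hy, e, Relation.EqvGen.refl _⟩

/-- the hub of an open star is not folded to a sink -/
theorem OR.Nf.nsk {w u : S.X} {O : S.OR w} (hO : O.Nf) {q : V} (ho : O.op u q) (hq : w ∈ S.J q)
    (v : S.EV w) : ¬ S.Sk w O v (Sum.inl ⟨q, hq⟩) := fun k =>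
  (Sk.inl.1 k).2 (hO.n2 u v.1 q ho v.2)

/-! ### the three kinds of squares -/

/-- NEAR STAR with one pole: top `[x]`, sides `[q]`, `t_u`, partner `[z]` -/
def KN (w : S.X) (O : S.OR w) (u : S.X) (q z x : V) : Prop :=
  S.Qs w u q z x ∧ O.op u q ∧ S.K.ar q z ∧ S.K.ar x q

/-- TWO-POLE STAR of an open hub: top `[q]`, sides `[z]`, `[x]`, partner `t_u` -/
def KH (w : S.X) (O : S.OR w) (u : S.X) (q z x : V) : Prop :=
  S.Qs w u q z x ∧ O.op u q ∧ S.K.ar q z ∧ S.K.ar q x ∧ z ≠ x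

/-- the arrow of a hub to a vertex which crosses an edge -/
theorem OR.Nf.ar_pole {w u : S.X} {O : S.OR w} (hO : O.Nf) {q z : V} (ho : O.op u q)
    (hu : S.D.G.Adj w u) (e : S.K.ar q z) (hz : S.Cs w u z) :
    S.arQ w O (S.fq w O (S.rho w q)) (S.fq w O (S.rho w z)) := by
  have hq : w ∈ S.J q := O.near u q ho
  refine arQ_term hq (fun v => hO.nsk ho hq v) ?_ (sar_hor hq hz.1 e)
  rintro x' ⟨v, s, hv, hc, h1, h2, h3, h4, h5⟩
  obtain rfl : s = z := ar_ar_eq hq h1 h2 e hz.1 hv hc.2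
  by_cases hd : ∃ v', S.Dia w v' s
  · obtain ⟨v', hv'⟩ := hd
    exact hv'.not_cs hu hz.2
  · push Not at hd
    exact h3.2 (hO.n1 s h2 hd v hv)

/-- the arrow of a vertex of a star to an open hub -/
theorem OR.ar_hub {w u : S.X} {O : S.OR w} {q x : V} (ho : O.op u q)
    (hu : S.D.G.Adj w u) (e : S.K.ar x q) (hx : S.Cs w u x) :
    S.arQ w O (S.fq w O (S.rho w x)) (S.fq w O (S.rho w q)) := by
  have hq : w ∈ S.J q := O.near u q ho
  refine arQ_term hx.1 (fun v => Sk.not_el hu hx.2) ?_ (sar_hor hx.1 hq e)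
  rintro x' ⟨v, s, hv, hc, h1, h2, h3, h4, h5⟩
  obtain rfl : v = u := ar_cs_eq hc.1 e hq hv hu hc.2 hx.2
  obtain rfl : s = q := ar_ar_eq hc.1 h1 h2 e hq hv hc.2
  exact h3.2 ho

theorem KN.adj {w u : S.X} {O : S.OR w} {q z x : V} (h : S.KN w O u q z x) : S.D.G.Adj w u :=
  h.1.adj

theorem KH.adj {w u : S.X} {O : S.OR w} {q z x : V} (h : S.KH w O u q z x) : S.D.G.Adj w u :=
  h.1.adj

theorem KN.arrows {w u : S.X} {O : S.OR w} (hO : O.Nf) {q z x : V} (h : S.KN w O u q z x) :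
    S.arQ w O (S.fq w O (S.rho w x)) (S.fq w O (S.rho w q)) ∧
    S.arQ w O (S.fq w O (S.rho w x)) (S.fq w O (Sum.inr ⟨u, h.adj⟩)) ∧
    S.arQ w O (S.fq w O (S.rho w q)) (S.fq w O (S.rho w z)) ∧
    S.arQ w O (S.fq w O (S.rho w z)) (S.fq w O (Sum.inr ⟨u, h.adj⟩)) :=
  ⟨OR.ar_hub h.2.1 h.adj h.2.2.2 h.1.r, arQ_up h.adj h.1.r,
    hO.ar_pole h.2.1 h.adj h.2.2.1 h.1.l, arQ_up h.adj h.1.l⟩

theorem KH.arrows {w u : S.X} {O : S.OR w} (hO : O.Nf) {q z x : V} (h : S.KH w O u q z x) :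
    S.arQ w O (S.fq w O (S.rho w q)) (S.fq w O (S.rho w z)) ∧
    S.arQ w O (S.fq w O (S.rho w q)) (S.fq w O (S.rho w x)) ∧
    S.arQ w O (S.fq w O (S.rho w z)) (S.fq w O (Sum.inr ⟨u, h.adj⟩)) ∧
    S.arQ w O (S.fq w O (S.rho w x)) (S.fq w O (Sum.inr ⟨u, h.adj⟩)) :=
  ⟨hO.ar_pole h.2.1 h.adj h.2.2.1 h.1.l, hO.ar_pole h.2.1 h.adj h.2.2.2.1 h.1.r,
    arQ_up h.adj h.1.l, arQ_up h.adj h.1.r⟩

theorem KH.dia {w u : S.X} {O : S.OR w} {q z x : V} (h : S.KH w O u q z x) : S.Dia w u q :=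
  ⟨O.near u q h.2.1, z, x, h.2.2.2.2, h.2.2.1, h.2.2.2.1, Relation.EqvGen.rel _ _ h.1⟩

/-- what is used of the squares of `K` at `w` -/
structure KIn (S : SyQ H V) (w : S.X) : Prop where
  top : ∀ i, S.P.sq i → ∃ j, S.P.tp i j
  par : ∀ T a b y a' b' y', S.P.Top T a b y → S.Loc w T a b y → S.P.Top T a' b' y' → y = y'
  side : ∀ T a b y, S.P.Top T a b y → S.Loc w T a b y → S.K.ar a y ∨ S.K.ar b y
  nab : ∀ T a b y, S.P.Top T a b y → a ≠ b

theorem KIn.of {E : V → Prop} (h : S.P.SqE E) {w : S.X}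
    (hE : ∀ T a b y, S.P.Top T a b y → S.Loc w T a b y → ¬ E T) : S.KIn w where
  top := h.top
  par _ _ _ _ _ _ _ ht hl ht' := (h.par _ _ _ _ _ _ _ ht ht').resolve_left (hE _ _ _ _ ht hl)
  side T a b y ht hl := (h.side T a b y ht).resolve_left (hE T a b y ht hl)
  nab := h.nab

/-- the top of a local square crosses no edge -/
theorem KIn.no_cs {w : S.X} (hK : S.KIn w) {T a b y : V} (ht : S.P.Top T a b y)
    (hl : S.Loc w T a b y) {u : S.X} (hu : S.D.G.Adj w u) : u ∉ S.J T :=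
  poles_edge (hK.nab _ _ _ _ ht) hl.1 ht.2.1 ht.2.2 hl.2.1 hl.2.2.1 hu

/-- the top of a local square is not folded -/
theorem OR.Nf.loc_nsk {w : S.X} {O : S.OR w} (hO : O.Nf) {T a b y : V} (ht : S.P.Top T a b y)
    (hl : S.Loc w T a b y) (hT : w ∈ S.J T) (v : S.EV w) : ¬ S.Sk w O v (Sum.inl ⟨T, hT⟩) :=
  fun k => hO.n5 T a b y ht hl v.1 (Sk.inl.1 k).1.1

/-- the arrows of the top of a local square -/
theorem loc_ar {w : S.X} {O : S.OR w} (hO : O.Nf) (hK : S.KIn w) {T a b y : V}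
    (ht : S.P.Top T a b y) (hl : S.Loc w T a b y) :
    S.arQ w O (S.fq w O (S.rho w T)) (S.fq w O (S.rho w a)) ∧
    S.arQ w O (S.fq w O (S.rho w T)) (S.fq w O (S.rho w b)) := by
  have nd : ∀ x, ¬ S.Dn w O T x := by
    rintro x ⟨v, s, hv, hc, -⟩
    exact hK.no_cs ht hl hv hc.2
  exact ⟨arQ_term hl.1 (fun v => hO.loc_nsk ht hl hl.1 v) nd (sar_hor hl.1 hl.2.1 ht.2.1),
    arQ_term hl.1 (fun v => hO.loc_nsk ht hl hl.1 v) nd (sar_hor hl.1 hl.2.2.1 ht.2.2)⟩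

/-- a side of a local square is not folded to a sink -/
theorem OR.Nf.side_nsk {w : S.X} {O : S.OR w} (hO : O.Nf) {T a b y : V} (ht : S.P.Top T a b y)
    (hl : S.Loc w T a b y) (ha : w ∈ S.J a) (v : S.EV w) : ¬ S.Sk w O v (Sum.inl ⟨a, ha⟩) :=
  fun k => (Sk.inl.1 k).2 (hO.n6 T a b y ht hl v.1 (Sk.inl.1 k).1.1)

theorem loc_side_aux {w : S.X} {O : S.OR w} (hO : O.Nf) {T a b y : V}
    (ht : S.P.Top T a b y) (hl : S.Loc w T a b y) (e : S.K.ar a y)
    (hne : S.fq w O (S.rho w a) ≠ S.fq w O (S.rho w b)) :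
    S.arQ w O (S.fq w O (S.rho w a)) (S.fq w O (S.rho w y)) ∨
    S.arQ w O (S.fq w O (S.rho w b)) (S.fq w O (S.rho w y)) := by
  obtain ⟨hT, ha, hb, hy⟩ := hl
  have hl : S.Loc w T a b y := ⟨hT, ha, hb, hy⟩
  by_cases hda : ∀ x, ¬ S.Dn w O a x
  · exact Or.inl (arQ_term ha (fun v => hO.side_nsk ht hl ha v) hda (sar_hor ha hy e))
  push Not at hda
  obtain ⟨x, u, s, hu, hc, h1, h2, h3, h4, h5⟩ := hda
  have hx : S.Dn w O a x := ⟨u, s, hu, hc, h1, h2, h3, h4, h5⟩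
  obtain rfl : s = y := ar_ar_eq hc.1 h1 h2 e hy hu hc.2
  -- `s = y` is a hub which is not open
  have hno : ∀ v, ¬ O.op v s := fun v k => h3.2 (hO.n2 v u s k hu)
  obtain ⟨u', hd⟩ : ∃ u', S.Dia w u' s := by
    by_contra hcon
    push Not at hcon
    exact h3.2 (hO.n1 s hy hcon u hu)
  by_cases hs : S.SD w u' s
  · -- folded to `t_u'`
    left
    have c1 := hd.two h4
    have e1 : S.fq w O (S.rho w s) = S.fq w O (Sum.inr ⟨u', c1.1⟩) := by
      rw [S.rho_near hy]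
      exact fq_inr.2 (Sk.inl.2 ⟨hs, hno u'⟩)
    rw [hx.fq, e1]
    exact arQ_up c1.1 c1.2
  · -- the poles of `s` are in one class
    have hpol : ∀ p, S.K.ar s p → S.fq w O (S.rho w p) = S.fq w O (S.rho w x) := by
      intro p hp
      obtain ⟨-, p1, p2, hne', hp1, hp2, hg⟩ := hd
      have e1 := hg.fq (O := O) hs (hno u')
      have all : ∀ p, S.K.ar s p → S.fq w O (S.rho w p) = S.fq w O (S.rho w p1) := by
        intro p hp
        rcases S.K.two _ _ _ _ hp1 hp2 hp with k | k | k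
        · exact absurd k hne'
        · rw [← k, ← e1]
        · rw [← k]
      rw [all p hp, all x h4]
    rcases ht.Eb with k | k
    · -- `b → y`
      by_cases hdb : ∀ x, ¬ S.Dn w O b x
      · exact Or.inr (arQ_term hb (fun v => hO.side_nsk ht.symm' ⟨hT, hb, ha, hy⟩ hb v) hdb
          (sar_hor hb hy k))
      push Not at hdb
      obtain ⟨x', u1, s1, hu1, hc1, g1, g2, g3, g4, g5⟩ := hdb
      have hx' : S.Dn w O b x' := ⟨u1, s1, hu1, hc1, g1, g2, g3, g4, g5⟩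
      obtain rfl : s1 = s := ar_ar_eq hc1.1 g1 g2 k hy hu1 hc1.2
      exfalso
      apply hne
      rw [hx.fq, hx'.fq, hpol x' g4]
    · -- `y → b`
      exfalso
      apply hne
      rw [hx.fq, hpol b k]

/-- A SIDE OF A LOCAL SQUARE HAS AN ARROW TO THE PARTNER -/
theorem loc_side {w : S.X} {O : S.OR w} (hO : O.Nf) (hK : S.KIn w) {T a b y : V}
    (ht : S.P.Top T a b y) (hl : S.Loc w T a b y)
    (hne : S.fq w O (S.rho w a) ≠ S.fq w O (S.rho w b)) :
    S.arQ w O (S.fq w O (S.rho w a)) (S.fq w O (S.rho w y)) ∨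
    S.arQ w O (S.fq w O (S.rho w b)) (S.fq w O (S.rho w y)) := by
  rcases hK.side T a b y ht hl with e | e
  · exact loc_side_aux hO ht hl e hne
  · exact (loc_side_aux hO ht.symm' ⟨hl.1, hl.2.2.1, hl.2.1, hl.2.2.2⟩ e hne.symm).symm

/-- the three kinds of tops -/
def KT (w : S.X) (O : S.OR w) (T a b y : S.Q w O) : Prop :=
  (∃ (u : S.X) (q z x : V) (h : S.KN w O u q z x), T = S.fq w O (S.rho w x) ∧
    y = S.fq w O (S.rho w z) ∧ ((a = S.fq w O (S.rho w q) ∧ b = S.fq w O (Sum.inr ⟨u, h.adj⟩)) ∨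
      (a = S.fq w O (Sum.inr ⟨u, h.adj⟩) ∧ b = S.fq w O (S.rho w q)))) ∨
  (∃ (u : S.X) (q z x : V) (h : S.KH w O u q z x), T = S.fq w O (S.rho w q) ∧
    y = S.fq w O (Sum.inr ⟨u, h.adj⟩) ∧ a = S.fq w O (S.rho w z) ∧ b = S.fq w O (S.rho w x)) ∨
  ∃ (T0 a0 b0 y0 : V), S.P.Top T0 a0 b0 y0 ∧ S.Loc w T0 a0 b0 y0 ∧ T = S.fq w O (S.rho w T0) ∧
    a = S.fq w O (S.rho w a0) ∧ b = S.fq w O (S.rho w b0) ∧ y = S.fq w O (S.rho w y0)

theorem KT.symm {w : S.X} {O : S.OR w} {T a b y : S.Q w O} (h : S.KT w O T a b y) :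
    S.KT w O T b a y := by
  rcases h with ⟨u, q, z, x, h, e1, e2, e3 | e3⟩ | ⟨u, q, z, x, h, e1, e2, e3, e4⟩ |
    ⟨T0, a0, b0, y0, h, hl, e1, e2, e3, e4⟩
  · exact Or.inl ⟨u, q, z, x, h, e1, e2, Or.inr ⟨e3.2, e3.1⟩⟩
  · exact Or.inl ⟨u, q, z, x, h, e1, e2, Or.inl ⟨e3.2, e3.1⟩⟩
  · exact Or.inr (Or.inl ⟨u, q, x, z, ⟨h.1.symm', h.2.1, h.2.2.2.1, h.2.2.1, h.2.2.2.2.symm⟩, e1,
      e2, e4, e3⟩)
  · exact Or.inr (Or.inr ⟨T0, b0, a0, y0, h.symm', ⟨hl.1, hl.2.2.1, hl.2.1, hl.2.2.2⟩, e1, e3, e2,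
      e4⟩)

theorem not_arQ_inr {w : S.X} {O : S.OR w} {v : S.EV w} {d : S.Q w O} :
    ¬ S.arQ w O (S.fq w O (Sum.inr v)) d := by
  rw [arQ_fq, GN_sk (u := v) (Or.inl rfl)]
  exact Set.notMem_empty d

theorem arQ_asym {w : S.X} {O : S.OR w} {c d : S.Q w O} (h : S.arQ w O c d) :
    ¬ S.arQ w O d c := fun h' => absurd ((arQ_rk h).trans (arQ_rk h')) (lt_irrefl _)

/-- every walk of a square has a top of one of the three kinds -/
theorem kf_Q4_KT {hc : S.Conn} {w : S.X} {O : S.OR w} {hm : (S.k0 hc w).Min} {hn : S.SqN w O}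
    (hK : S.KIn w) {a q b y : S.Q w O} (h : Q4 (S.kfP hc w O hm hn) a q b y) :
    S.KT w O a q y b ∨ S.KT w O q b a y ∨ S.KT w O b y q a ∨ S.KT w O y a b q := by
  obtain ⟨n1, n2, ⟨a0, q0, b0, y0, k1, k2, k3, k4, rfl, rfl, rfl, rfl⟩ |
    ⟨u, x, s, x', hs, ho, hp, hne, hr⟩⟩ := kf_Q4_cases h
  · rcases k1.ck_top hK.top with t | t | t | t
    · exact Or.inl (Or.inr (Or.inr ⟨a0, q0, y0, b0, t, ⟨k2.p0, k2.p1, k2.p3, k2.p2⟩, rfl, rfl, rfl,
        rfl⟩))
    · exact Or.inr (Or.inl (Or.inr (Or.inr ⟨q0, b0, a0, y0, t, ⟨k2.p1, k2.p2, k2.p0, k2.p3⟩, rfl,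
        rfl, rfl, rfl⟩)))
    · exact Or.inr (Or.inr (Or.inl (Or.inr (Or.inr ⟨b0, y0, q0, a0, t,
        ⟨k2.p2, k2.p3, k2.p1, k2.p0⟩, rfl, rfl, rfl, rfl⟩))))
    · exact Or.inr (Or.inr (Or.inr (Or.inr (Or.inr ⟨y0, a0, b0, q0, t,
        ⟨k2.p3, k2.p0, k2.p2, k2.p1⟩, rfl, rfl, rfl, rfl⟩))))
  · -- the top is `x'`, `x` or `s`
    have key : S.KT w O (S.fq w O (S.rho w x')) (S.fq w O (S.rho w s))
        (S.fq w O (Sum.inr ⟨u, hs.1⟩)) (S.fq w O (S.rho w x)) ∨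
      S.KT w O (S.fq w O (S.rho w x)) (S.fq w O (S.rho w s))
        (S.fq w O (Sum.inr ⟨u, hs.1⟩)) (S.fq w O (S.rho w x')) ∨
      S.KT w O (S.fq w O (S.rho w s)) (S.fq w O (S.rho w x)) (S.fq w O (S.rho w x'))
        (S.fq w O (Sum.inr ⟨u, hs.1⟩)) := by
      have hxx : x ≠ x' := fun e => hne (by rw [e])
      rcases hp with e | e
      · rcases hs.E2 with e' | e'
        · exact Or.inl (Or.inl ⟨u, s, x, x', ⟨hs, ho, e, e'⟩, rfl, rfl, Or.inl ⟨rfl, rfl⟩⟩)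
        · exact Or.inr (Or.inr (Or.inr (Or.inl ⟨u, s, x, x', ⟨hs, ho, e, e', hxx⟩, rfl, rfl, rfl,
            rfl⟩)))
      · rcases hs.E1 with e' | e'
        · exact Or.inr (Or.inl (Or.inl ⟨u, s, x', x, ⟨hs.symm', ho, e, e'⟩, rfl, rfl,
            Or.inl ⟨rfl, rfl⟩⟩))
        · exact Or.inr (Or.inr (Or.inr (Or.inl ⟨u, s, x, x', ⟨hs, ho, e', e, hxx⟩, rfl, rfl, rfl,
            rfl⟩)))
    rcases hr with ⟨rfl, rfl, rfl, rfl⟩ | ⟨rfl, rfl, rfl, rfl⟩ | ⟨rfl, rfl, rfl, rfl⟩ |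
      ⟨rfl, rfl, rfl, rfl⟩
    · rcases key with k | k | k
      · exact Or.inr (Or.inr (Or.inl k.symm))
      · exact Or.inl k
      · exact Or.inr (Or.inl k.symm)
    · rcases key with k | k | k
      · exact Or.inr (Or.inl k.symm)
      · exact Or.inr (Or.inr (Or.inr k))
      · exact Or.inl k.symm
    · rcases key with k | k | k
      · exact Or.inl k.symm
      · exact Or.inr (Or.inr (Or.inl k))
      · exact Or.inr (Or.inr (Or.inr k.symm))
    · rcases key with k | k | k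
      · exact Or.inr (Or.inr (Or.inr k.symm))
      · exact Or.inr (Or.inl k)
      · exact Or.inr (Or.inr (Or.inl k.symm))

/-- the arrows of the three kinds -/
theorem KT.arrows {w : S.X} {O : S.OR w} (hO : O.Nf) (hK : S.KIn w) {T a b y : S.Q w O}
    (h : S.KT w O T a b y) (hab : a ≠ b) :
    S.arQ w O T a ∧ S.arQ w O T b ∧ (S.arQ w O a y ∨ S.arQ w O b y) := by
  rcases h with ⟨u, q, z, x, h, rfl, rfl, ⟨rfl, rfl⟩ | ⟨rfl, rfl⟩⟩ |
    ⟨u, q, z, x, h, rfl, rfl, rfl, rfl⟩ | ⟨T0, a0, b0, y0, h, hl, rfl, rfl, rfl, rfl⟩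
  · have k := h.arrows hO
    exact ⟨k.1, k.2.1, Or.inl k.2.2.1⟩
  · have k := h.arrows hO
    exact ⟨k.2.1, k.1, Or.inr k.2.2.1⟩
  · have k := h.arrows hO
    exact ⟨k.1, k.2.1, Or.inl k.2.2.1⟩
  · have k := loc_ar hO hK h hl
    exact ⟨k.1, k.2, loc_side hO hK h hl hab⟩

/-- THE TOPS OF THE FOLDED SLICE -/
theorem kf_Top {hc : S.Conn} {w : S.X} {O : S.OR w} {hm : (S.k0 hc w).Min} {hn : S.SqN w O}
    (hO : O.Nf) (hK : S.KIn w) {T a b y : S.Q w O} (h : (S.kfP hc w O hm hn).Top T a b y) :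
    S.KT w O T a b y := by
  obtain ⟨hq, h1, h2⟩ := h
  have h1 : S.arQ w O T a := h1
  have h2 : S.arQ w O T b := h2
  obtain ⟨n1, n2⟩ := hq.ck_ne (S.kfP_nd hc w O hm hn)
  rcases kf_Q4_KT hK hq with k | k | k | k
  · exact absurd (k.arrows hO hK n2).1 (arQ_asym h1)
  · exact k.symm
  · exact absurd (k.arrows hO hK n2.symm).2.1 (arQ_asym h2)
  · exfalso
    rcases (k.arrows hO hK n1).2.2 with e | e
    · exact arQ_asym h1 e
    · exact arQ_asym h2 e

/-- THE PARTNER IS UNIQUE -/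
theorem KT.par {w : S.X} {O : S.OR w} (hO : O.Nf) (hK : S.KIn w) {T a b y a' b' y' : S.Q w O}
    (h : S.KT w O T a b y) (h' : S.KT w O T a' b' y') : y = y' := by
  -- hubs are alone
  have hub : ∀ {u : S.X} {q z x : V}, S.KH w O u q z x → ∀ c,
      S.fq w O c = S.fq w O (S.rho w q) → c = S.rho w q := by
    intro u q z x k c e
    have hq := O.near u q k.2.1
    exact cls_one hq (fun v hv hc => k.dia.not_cs hv hc) (fun v => hO.nsk k.2.1 hq v) e
  have loc : ∀ {T0 a0 b0 y0 : V}, S.P.Top T0 a0 b0 y0 → S.Loc w T0 a0 b0 y0 → ∀ c,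
      S.fq w O c = S.fq w O (S.rho w T0) → c = S.rho w T0 := by
    intro T0 a0 b0 y0 k l c e
    exact cls_one l.1 (fun v hv => hK.no_cs k l hv) (fun v => hO.loc_nsk k l l.1 v) e
  have inj : ∀ {x x' : V}, w ∈ S.J x → w ∈ S.J x' → S.rho w x = S.rho w x' → x = x' := by
    intro x x' hx hx' e
    rw [S.rho_near hx, S.rho_near hx'] at e
    exact congrArg Subtype.val (Sum.inl.inj e)
  -- near star against a single vertex
  have n1 : ∀ {u : S.X} {q z x t : V}, S.KN w O u q z x → w ∈ S.J t →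
      (∀ v, S.D.G.Adj w v → v ∉ S.J t) →
      (∀ c, S.fq w O c = S.fq w O (S.rho w t) → c = S.rho w t) →
      S.fq w O (S.rho w x) ≠ S.fq w O (S.rho w t) := by
    intro u q z x t k ht hcr hc e
    have := inj k.1.r.1 ht (hc _ e)
    rw [← this] at hcr
    exact hcr u k.adj k.1.r.2
  rcases h with ⟨u, q, z, x, h, rfl, rfl, -⟩ | ⟨u, q, z, x, h, rfl, rfl, -, -⟩ |
    ⟨T0, a0, b0, y0, h, hl, rfl, -, -, rfl⟩
  · rcases h' with ⟨u', q', z', x', h', e, rfl, -⟩ | ⟨u', q', z', x', h', e, rfl, -, -⟩ |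
      ⟨T0, a0, b0, y0, h', hl, e, -, -, rfl⟩
    · -- two near stars
      obtain ⟨x1, e1, c1, e2, g⟩ := cls_par hO h.2.1 h.adj h.1.r h.2.2.2 e.symm
      have hq := O.near u q h.2.1
      have hq' := O.near u' q' h'.2.1
      obtain rfl := inj h'.1.r.1 c1.1 e1
      obtain rfl : u' = u := ar_cs_eq c1.1 e2 hq h'.adj h.adj h'.1.r.2 c1.2
      obtain rfl : q' = q := ar_ar_eq c1.1 h'.2.2.2 hq' e2 hq h.adj c1.2
      by_cases ezz : z = z'
      · rw [ezz]
      · exfalso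
        have hd : S.Dia w u' q' := ⟨hq, z, z', ezz, h.2.2.1, h'.2.2.1,
          Relation.EqvGen.trans _ _ _ (Relation.EqvGen.rel _ _ h.1)
            (Relation.EqvGen.trans _ _ _ g (Relation.EqvGen.rel _ _ h'.1.symm'))⟩
        exact GX.ck_asym h.2.2.2 (hO.n3 u' q' x z h.2.1 hd h.1.symm')
    · exact absurd e (n1 h (O.near u' q' h'.2.1) (fun v hv hc => h'.dia.not_cs hv hc) (hub h'))
    · exact absurd e (n1 h hl.1 (fun v hv => hK.no_cs h' hl hv) (loc h' hl))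
  · rcases h' with ⟨u', q', z', x', h', e, rfl, -⟩ | ⟨u', q', z', x', h', e, rfl, -, -⟩ |
      ⟨T0, a0, b0, y0, h', hl, e, -, -, rfl⟩
    · exact absurd e.symm (n1 h' (O.near u q h.2.1) (fun v hv hc => h.dia.not_cs hv hc) (hub h))
    · obtain rfl := inj (O.near u' q' h'.2.1) (O.near u q h.2.1) (hub h _ e.symm)
      obtain rfl : u = u' := hO.n4 u u' q' h.2.1 h.dia h'.dia
      rfl
    · exfalso
      obtain rfl := inj hl.1 (O.near u q h.2.1) (hub h _ e.symm)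
      exact hO.n5 _ _ _ _ h' hl u h.dia
  · rcases h' with ⟨u', q', z', x', h', e, rfl, -⟩ | ⟨u', q', z', x', h', e, rfl, -, -⟩ |
      ⟨T1, a1, b1, y1, h', hl', e, -, -, rfl⟩
    · exact absurd e.symm (n1 h' hl.1 (fun v hv => hK.no_cs h hl hv) (loc h hl))
    · exfalso
      obtain rfl := inj (O.near u' q' h'.2.1) hl.1 (loc h hl _ e.symm)
      exact hO.n5 _ _ _ _ h hl u' h'.dia
    · obtain rfl := inj hl'.1 hl.1 (loc h hl _ e.symm)
      rw [hK.par _ _ _ _ _ _ _ h hl h']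

section

variable {hc : S.Conn} {w : S.X} {O : S.OR w} {hm : (S.k0 hc w).Min} {hn : S.SqN w O}

theorem kf_nab {T a b y : S.Q w O} (h : (S.kfP hc w O hm hn).Top T a b y) : a ≠ b :=
  (h.1.ck_ne (S.kfP_nd hc w O hm hn)).1

theorem kf_nTy {T a b y : S.Q w O} (h : (S.kfP hc w O hm hn).Top T a b y) : T ≠ y :=
  (h.1.ck_ne (S.kfP_nd hc w O hm hn)).2

theorem kf_par (hO : O.Nf) (hK : S.KIn w) {T a b y a' b' y' : S.Q w O}
    (h : (S.kfP hc w O hm hn).Top T a b y) (h' : (S.kfP hc w O hm hn).Top T a' b' y') : y = y' :=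
  (kf_Top hO hK h).par hO hK (kf_Top hO hK h')

theorem kf_side (hO : O.Nf) (hK : S.KIn w) {T a b y : S.Q w O}
    (h : (S.kfP hc w O hm hn).Top T a b y) : (S.kf hc w O).ar a y ∨ (S.kf hc w O).ar b y :=
  ((kf_Top hO hK h).arrows hO hK (kf_nab h)).2.2

/-- EVERY KEPT SQUARE HAS A TOP -/
theorem kf_top (hO : O.Nf) (hK : S.KIn w) (i : (S.kf hc w O).I) (hi : (S.kfP hc w O hm hn).sq i) :
    ∃ j, (S.kfP hc w O hm hn).tp i j := by
  have h := Q4_qt (P := S.kfP hc w O hm hn) 1 hi 0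
  simp only [one_smul] at h
  obtain ⟨n1, n2⟩ := h.ck_ne (S.kfP_nd hc w O hm hn)
  rcases kf_Q4_KT hK h with k | k | k | k
  · have k := k.arrows hO hK n2
    exact ⟨0, k.1, k.2.1⟩
  · have k := k.arrows hO hK n1.symm
    exact ⟨1, k.1, k.2.1⟩
  · have k := k.arrows hO hK n2.symm
    exact ⟨2, k.1, k.2.1⟩
  · have k := k.arrows hO hK n1
    exact ⟨3, k.1, k.2.1⟩

/-- a top has an arrow to a sink `t_u`, or it is a single vertex over `w` only -/
theorem kf_top_J (hO : O.Nf) (hK : S.KIn w) {T a b y : S.Q w O}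
    (h : (S.kfP hc w O hm hn).Top T a b y) :
    (∃ v, (S.kf hc w O).ar T (S.fq w O (Sum.inr v))) ∨
    ∃ t, S.J t = {w} ∧ T = S.fq w O (S.rho w t) ∧ (∀ c, S.fq w O c = T → c = S.rho w t) ∧
      ((∃ u p, S.D.G.Adj w u ∧ S.K.ar t p ∧ S.Cs w u p) ∨
        ∃ a0 b0 y0, S.P.Top t a0 b0 y0 ∧ S.Loc w t a0 b0 y0) := by
  rcases kf_Top hO hK h with ⟨u, q, z, x, k, rfl, -⟩ | ⟨u, q, z, x, k, rfl, -, -, -⟩ |
    ⟨T0, a0, b0, y0, k, hl, rfl, -⟩
  · exact Or.inl ⟨_, (k.arrows hO).2.1⟩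
  · have hq := O.near u q k.2.1
    refine Or.inr ⟨q, poles_point k.2.2.2.2 hq k.2.2.1 k.2.2.2.1 k.1.l.1 k.1.r.1, rfl, ?_,
      Or.inl ⟨u, z, k.adj, k.2.2.1, k.1.l⟩⟩
    intro c e
    exact cls_one hq (fun v hv hc => k.dia.not_cs hv hc) (fun v => hO.nsk k.2.1 hq v) e
  · refine Or.inr ⟨T0, poles_point (hK.nab _ _ _ _ k) hl.1 k.2.1 k.2.2 hl.2.1 hl.2.2.1, rfl, ?_,
      Or.inr ⟨a0, b0, y0, k, hl⟩⟩
    intro c e
    exact cls_one hl.1 (fun v hv => hK.no_cs k hl hv) (fun v => hO.loc_nsk k hl hl.1 v) e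

end

end SyQ

end Pool.Agent.DI
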