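import Pool.Agent.DI.NsP
import Pool.Agent.DI.ClsK

/-!
# Local tops: the far strands as strands of the near stars

`S.fkS w O k`, `S.ck w O k`: the far strands of the near star arrow `k = ([n], [q])` (hub `q`) and their
number. `fkS_eq`: for every representation. `S.Qk w O κ k`: the near star `k` lies over its hub with the
partner given by `κ`. `LTp.loc42`: `X T a ≤ X' [T] [a] + Σ_{Q ([T],[a]) k} (ck k - 1)`.
-/

namespace Pool.Agent.DI

open MulAction
open Pool.Agent.SAF (InC orbs FinOrb oc Decomp SAn SA Conv hull dist_edge FinOrb_iff exists_next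
  mk_eq_iff oc_mono oc_le_of_inj oc_le_of_rel oc_le_of_surj)
open Pool.Agent.BT (PX PQ JS bey exits lz lz_self lz_ne lz_symm x_next_unique)
open Pool.Agent.BT.TA
open P45

/-- sums over corresponding sets -/
theorem os_of_inj {G1 G2 Y Z : Type} [Group G1] [Group G2] [MulAction G1 Y] [MulAction G2 Z]
    {A : Set Y} {B : Set Z} (hA : FinOrb G1 A) (hB : FinOrb G2 B) (i : Y → Z)
    (hi : ∀ y ∈ A, i y ∈ B) (hin : ∀ x ∈ A, ∀ y ∈ A, (∃ g : G2, g • i x = i y) → ∃ g : G1, g • x = y)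
    {f : Y → ℕ} {f' : Z → ℕ} (hf' : ∀ (g : G2), ∀ z ∈ B, g • z ∈ B → f' (g • z) = f' z)
    (hff : ∀ y ∈ A, f y ≤ f' (i y)) : os G1 A f ≤ os G2 B f' := by
  classical
  rw [os_eq hA, os_eq hB]
  let F : orbitRel.Quotient G1 Y → orbitRel.Quotient G2 Z := fun q => Quotient.mk'' (i (rp G1 A q))
  have hF : ∀ q ∈ hA.toFinset, F q ∈ hB.toFinset := fun q hq =>
    hB.mem_toFinset.2 ⟨_, hi _ (rp_mem G1 (hA.mem_toFinset.1 hq)), rfl⟩
  have hinj : ∀ q ∈ hA.toFinset, ∀ q' ∈ hA.toFinset, F q = F q' → q = q' := by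
    intro q hq q' hq' e
    obtain ⟨g, hg⟩ := mk_eq_iff.1 e.symm
    obtain ⟨g', hg'⟩ := hin _ (rp_mem G1 (hA.mem_toFinset.1 hq)) _
      (rp_mem G1 (hA.mem_toFinset.1 hq')) ⟨g, hg⟩
    rw [← rp_mk G1 (hA.mem_toFinset.1 hq), ← rp_mk G1 (hA.mem_toFinset.1 hq')]
    exact (mk_eq_iff.2 ⟨g', hg'⟩).symm
  calc ∑ q ∈ hA.toFinset, f (rp G1 A q) ≤ ∑ q ∈ hA.toFinset, f' (rp G2 B (F q)) := by
        refine Finset.sum_le_sum fun q hq => ?_
        have h1 := rp_mem G1 (hA.mem_toFinset.1 hq)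
        refine (hff _ h1).trans (le_of_eq ?_)
        have h2 := hB.mem_toFinset.1 (hF q hq)
        obtain ⟨g, hg⟩ := mk_eq_iff.1 (rp_mk G2 h2).symm
        have hg' : g • rp G2 B (F q) = i (rp G1 A q) := hg
        rw [← hg']
        exact hf' g _ (rp_mem G2 h2) (by rw [hg']; exact hi _ h1)
    _ = ∑ z ∈ hA.toFinset.image F, f' (rp G2 B z) :=
        (Finset.sum_image (f := fun z => f' (rp G2 B z)) hinj).symm
    _ ≤ ∑ z ∈ hB.toFinset, f' (rp G2 B z) := by
        refine Finset.sum_le_sum_of_subset_of_nonneg ?_ fun _ _ _ => Nat.zero_le _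
        intro z hz
        obtain ⟨q, hq, rfl⟩ := Finset.mem_image.1 hz
        exact hF q hq

/-- the number of orbits of a fibre depends only on the orbit of the point -/
theorem oc_stab_smul {G X Y : Type} [Group G] [MulAction G X] [MulAction G Y] {F : X → Set Y}
    (hF : ∀ (g : G) x, ∀ y ∈ F x, g • y ∈ F (g • x)) (g : G) (x : X)
    (hf : FinOrb ↥(stabilizer G x) (F x)) :
    oc ↥(stabilizer G (g • x)) (F (g • x)) = oc ↥(stabilizer G x) (F x) := by
  have hc1 : ∀ (a : ↥(stabilizer G (g • x))), g⁻¹ * a.1 * g ∈ stabilizer G x := by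
    intro a
    have := mem_stabilizer_iff.1 a.2
    rw [mem_stabilizer_iff, mul_smul, mul_smul, this, inv_smul_smul]
  have hc2 : ∀ (a : ↥(stabilizer G x)), g * a.1 * g⁻¹ ∈ stabilizer G (g • x) := by
    intro a
    have := mem_stabilizer_iff.1 a.2
    rw [mem_stabilizer_iff, mul_smul, mul_smul, inv_smul_smul, this]
  have hb : ∀ y ∈ F (g • x), g⁻¹ • y ∈ F x := by
    intro y hy
    have := hF g⁻¹ _ _ hy
    rwa [inv_smul_smul] at this
  have hi : ∀ y ∈ F (g • x), ∀ z ∈ F (g • x), (∃ a : ↥(stabilizer G x), a • g⁻¹ • y = g⁻¹ • z) →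
      ∃ a : ↥(stabilizer G (g • x)), a • y = z := by
    rintro y - z - ⟨a, ha⟩
    refine ⟨⟨_, hc2 a⟩, ?_⟩
    show (g * a.1 * g⁻¹) • y = z
    have ha : a.1 • g⁻¹ • y = g⁻¹ • z := ha
    rw [mul_smul, mul_smul, ha, smul_inv_smul]
  have hf' : FinOrb ↥(stabilizer G (g • x)) (F (g • x)) :=
    Pool.Agent.SAF.FinOrb.of_inj hf (fun y => g⁻¹ • y) hb hi
  apply le_antisymm
  · exact oc_le_of_inj hf (fun y => g⁻¹ • y) hb hi
  · refine oc_le_of_inj hf' (fun y => g • y) (fun y hy => hF g x y hy) ?_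
    rintro y - z - ⟨a, ha⟩
    refine ⟨⟨_, hc1 a⟩, ?_⟩
    show (g⁻¹ * a.1 * g) • y = z
    have ha : a.1 • g • y = g • z := ha
    rw [mul_smul, mul_smul, ha, inv_smul_smul]

namespace SyQ

variable {H V : Type} [Group H] [MulAction H V] (S : SyQ H V)

/-- the far strands of the near star arrow `([n], [q])` -/
def fkS (w : S.X) (O : S.OR w) (k : S.Q w O × S.Q w O) : Set (FL S.K ⊕ ((V × V) × (V × V))) :=
  {i | ∃ u q z n, S.KN w O u q z n ∧ k = (S.fq w O (S.rho w n), S.fq w O (S.rho w q)) ∧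
    i ∈ S.farS w u O q z n}

/-- THE NUMBER OF THE FAR STRANDS of the near star arrow `([n], [q])` -/
noncomputable def ck (w : S.X) (O : S.OR w) (k : S.Q w O × S.Q w O) : ℕ :=
  oc ↥(stabilizer ↥(stabilizer H w) k) (S.fkS w O k)

/-- the near star arrow `k = ([n], [q])` lies over the arrow `κ = ([q], [z])` -/
def Qk (w : S.X) (O : S.OR w) (κ k : S.Q w O × S.Q w O) : Prop :=
  ∃ u q z n, S.KN w O u q z n ∧ κ = (S.fq w O (S.rho w q), S.fq w O (S.rho w z)) ∧
    k = (S.fq w O (S.rho w n), S.fq w O (S.rho w q))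

variable {S}

theorem KN.nst {w u : S.X} {O : S.OR w} {q z n : V} (h : S.KN w O u q z n) :
    S.NSt w u O q z n := ⟨h.2.1, h.1.symm', h.2.2.2, h.2.2.1⟩

theorem KN.smul {w u : S.X} {O : S.OR w} {q z n : V} (h : S.KN w O u q z n)
    (g : ↥(stabilizer H w)) : S.KN w O (g.1 • u) (g.1 • q) (g.1 • z) (g.1 • n) := by
  have h1 := h.1.smul g
  exact ⟨h1, O.smul g _ _ h.2.1, S.K.ar_smul g.1 _ _ h.2.2.1, S.K.ar_smul g.1 _ _ h.2.2.2⟩

theorem Yc_eq {w : S.X} {O : S.OR w} {y z : V} (h : z ∈ S.Yc w O y) : S.Yc w O z = S.Yc w O y := by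
  have h : S.fq w O (S.rho w z) = S.fq w O (S.rho w y) := h
  ext m
  show _ = _ ↔ _ = _
  rw [h]

/-- the representations of a near star arrow -/
theorem KN.uniq {w u u' : S.X} {O : S.OR w} (hO : O.Nf) {q z n q' z' n' : V}
    (h : S.KN w O u q z n) (h' : S.KN w O u' q' z' n')
    (e : S.fq w O (S.rho w n') = S.fq w O (S.rho w n)) : q' = q ∧ u' = u ∧ z' = z := by
  have hn : n' ∈ S.Yc w O n := e
  obtain ⟨e1, e2⟩ := h.nst.nv.hub hO h'.nst.nv hn
  subst e1 e2
  refine ⟨rfl, rfl, ?_⟩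
  rcases h.nst.cases hO hn h'.nst.qs with k | k
  · exfalso
    have h1 := S.K.ar_rk _ _ (h.nst.nv.cl hO k).1.yn
    have h2 := S.K.ar_rk _ _ h'.2.2.1
    omega
  · exact k

/-- the far strands of a near star arrow do not depend on the representation -/
theorem fkS_eq {w u : S.X} {O : S.OR w} (hO : O.Nf) {q z n : V} (h : S.KN w O u q z n) :
    S.fkS w O (S.fq w O (S.rho w n), S.fq w O (S.rho w q)) = S.farS w u O q z n := by
  ext i
  constructor
  · rintro ⟨u', q', z', n', h', e, hi⟩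
    have e1 : S.fq w O (S.rho w n) = S.fq w O (S.rho w n') := congrArg Prod.fst e
    obtain ⟨rfl, rfl, rfl⟩ := h.uniq hO h' e1.symm
    have eY : S.Yc w O n' = S.Yc w O n := Yc_eq e1.symm
    unfold farS at hi ⊢
    rwa [eY] at hi
  · exact fun hi => ⟨u, q, z, n, h, rfl, hi⟩

/-- the number of the far strands of a near star arrow -/
theorem ck_eq {w u : S.X} {O : S.OR w} (hO : O.Nf) {q z n : V} (h : S.KN w O u q z n) :
    S.ck w O (S.fq w O (S.rho w n), S.fq w O (S.rho w q)) =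
      oc ↥(stabilizer ↥(stabilizer H w) (S.fq w O (S.rho w n), S.fq w O (S.rho w q)))
        (S.farS w u O q z n) := by
  unfold ck
  rw [fkS_eq hO h]

theorem farS_smul {w u : S.X} {O : S.OR w} {q z n : V} (g : ↥(stabilizer H w))
    {i : FL S.K ⊕ ((V × V) × (V × V))} (hi : i ∈ S.farS w u O q z n) :
    g.1 • i ∈ S.farS w (g.1 • u) O (g.1 • q) (g.1 • z) (g.1 • n) := by
  have ew : g.1 • w = w := g.2
  have hY : ∀ m, m ∈ S.Yc w O n → g.1 • m ∈ S.Yc w O (g.1 • n) := by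
    intro m hm
    have hm : S.fq w O (S.rho w m) = S.fq w O (S.rho w n) := hm
    show S.fq w O (S.rho w (g.1 • m)) = S.fq w O (S.rho w (g.1 • n))
    have e1 : S.rho w (g.1 • m) = g • S.rho w m := S.rho_smul g m
    have e2 : S.rho w (g.1 • n) = g • S.rho w n := S.rho_smul g n
    rw [e1, e2, fq_smul, fq_smul, hm]
  have hb : ∀ m, S.J m ⊆ bey S.D.G w u → S.J (g.1 • m) ⊆ bey S.D.G w (g.1 • u) := by
    intro m hm
    have := S.sub_bey_smul g.1 hm
    rwa [ew] at this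
  rcases i with f | p
  · obtain ⟨h1, h2, h3, h4, h5⟩ := hi
    refine ⟨h1, ?_, ?_, ?_, ?_⟩
    · show P45.fprv (g.1 • f) ∈ _
      rw [P45.fprv_smul]
      exact hY _ h2
    · show P45.fy (g.1 • f) = _
      rw [P45.fy_smul, h3]
    · show P45.fz (g.1 • f) = _
      rw [P45.fz_smul, h4]
    · show S.J (P45.fv (g.1 • f)) ⊆ _
      rw [P45.fv_smul]
      exact hb _ h5
  · obtain ⟨⟨a, b⟩, ⟨c, d⟩⟩ := p
    obtain ⟨h1, h2, h3, h4, h5⟩ := hi
    exact ⟨Q4.smul (P := S.P) g.1 h1, hY _ h2, congrArg (g.1 • ·) h3, congrArg (g.1 • ·) h4, hb _ h5⟩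


namespace LTp

variable {w : S.X} {O : S.OR w} {T a b : V} (h : S.LTp w O T a b)

include h

theorem kn_of {u : S.X} {n : V} (k1 : S.Qs w u T a n) (k2 : S.K.ar n T) : S.KN w O u T a n :=
  ⟨k1, h.op u k1.adj, h.ta, k2⟩

/-- a far pentagon strand, with the next vertex -/
theorem far5v (hnb : S.NB) {f : FL S.K} (hf : f ∈ S.F5 w T a) :
    ∃ u, S.Qs w u T a (fprv f) ∧ S.K.ar (fprv f) T ∧ S.J (fv f) ⊆ bey S.D.G w u := by
  obtain ⟨u0, q1, q2⟩ := h.far5 hnb hf
  obtain ⟨⟨⟨h1, h2⟩, h3⟩, hI⟩ := hf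
  obtain ⟨i, hi, j, g, c, rfl⟩ := flag5 h1
  have b1 : ∀ k : Fin 5, k + 1 + 1 = k + 2 := by decide
  have b2 : ∀ k : Fin 5, k + 1 + 2 = k + 3 := by decide
  have hT : S.tr g i (j + 1) = T := by
    have e1 : fy ((S.P.l5 i hi j g, c) : FL S.K) = T := congrArg Prod.fst h3
    rw [← e1]
    exact (P45.c1_5 S.P i hi j g).symm
  have hN : ∀ k : Fin 5, S.tr g i k ≠ S.tr g i (k + 2) := fun k e =>
    S.P.nb5 hnb hi k (smul_left_cancel g e)
  have hE : ∀ k, S.K.E (S.tr g i k) (S.tr g i (k + 1)) := S.tr_E g hi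
  have w0 : w ∈ S.J (S.tr g i j) := h.wn (hT ▸ hE j)
  have hvis : S.rho w (S.tr g i j) ≠ S.rho w (S.tr g i (j + 2)) := rho_ne_of_ne w0 (hN j)
  obtain hC | ⟨u, k, hs, hj⟩ := visq_cases hi (by rw [hT]; exact h.wT) hvis
  · exact absurd hC hI
  have hjk : j = k := by
    rcases hj with rfl | rfl | rfl
    · rfl
    · exfalso
      apply h.loc hs.1
      rw [← hT, show k + 1 + 1 = k + 2 from by rw [add_assoc]; rfl]
      exact hs.2.2.1.2
    · exfalso
      apply h.loc hs.1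
      rw [← hT, q41]
      exact hs.2.1.2
  subst hjk
  refine ⟨u, ?_⟩
  -- the edge is the same
  have hfp : S.Cs w u (fprv ((S.P.l5 i hi j g, c) : FL S.K)) := by
    unfold fprv
    cases c
    · rw [if_neg Bool.false_ne_true, P45.c2_5]
      exact hs.2.2.1
    · rw [if_pos rfl, P45.c0_5]
      exact hs.2.1
  have e0 : u = u0 := pole_edge hfp.1 q2 h.wT hs.1 q1.adj hfp.2 q1.r.2
  subst e0
  refine ⟨q1, q2, ?_⟩
  cases c
  · have ev : fv ((S.P.l5 i hi j g, false) : FL S.K) = S.tr g i (j + 4) := by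
      show S.K.c0 (S.K.pv _) = _
      rw [P45.pv_l5, P45.c0_5]
      rfl
    rw [ev]
    exact hs.2.2.2.2.2
  · have ev : fv ((S.P.l5 i hi j g, true) : FL S.K) = S.tr g i (j + 3) := by
      show S.K.c2 (S.K.nx _) = _
      rw [P45.nx_l5, P45.c2_5, b2]
      rfl
    rw [ev]
    exact hs.2.2.2.2.1

/-- THE FAR STRANDS of the class of a page are the far strands of the near star -/
theorem far_eq (hO : O.Nf) (hnb : S.NB) {u : S.X} {n : V} (hk : S.KN w O u T a n) :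
    S.farS w u O T a n =
      sSum {f | f ∈ S.F5 w T a ∧ S.cl5 w O f = S.fq w O (S.rho w n)}
        {p | p ∈ S.F4 w T a ∧ S.cl4 w O p = S.fq w O (S.rho w n)} := by
  have hu := hk.1.adj
  ext i
  rcases i with f | p
  · rw [sSum_inl]
    constructor
    · rintro ⟨h1, h2, h3, h4, h5⟩
      have hn' := hk.nst.nv.cl hO h2
      refine ⟨⟨⟨⟨h1, ?_⟩, ?_⟩, ?_⟩, h2⟩
      · show S.K.ar (fy f) (fz f)
        rw [h3, h4]
        exact h.ta
      · exact Prod.ext h3 h4
      · intro hI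
        obtain ⟨i, hi, j, g, c, rfl⟩ := flag5 h1
        have b1 : ∀ k : Fin 5, k + 3 + 1 = k + 4 := by decide
        have b2 : ∀ k : Fin 5, k + 1 + 2 = k + 3 := by decide
        have b3 : ∀ k : Fin 5, k + 4 + 1 = k := by decide
        have b4 : ∀ k : Fin 5, k + 2 + 1 = k + 3 := by decide
        have hE : ∀ k, S.K.E (S.tr g i k) (S.tr g i (k + 1)) := S.tr_E g hi
        have hcr : ∀ x y, S.K.E x y → w ∈ S.J x → S.J y ⊆ bey S.D.G w u → u ∈ S.J x := by
          intro x y e hx hy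
          obtain ⟨p, p0, p1⟩ := S.one_ex e
          exact (conv_cr S.D.tree (S.js.conv x) hu hx p0 (bey_self hu.symm) (hy p1)).2
        have hno : ∀ x y, S.K.E x y → w ∈ S.J x → w ∈ S.J y → u ∈ S.J x → u ∈ S.J y → False := by
          intro x y e h1 h2 h3 h4
          exact hu.ne (S.one_eq e h1 h2 h3 h4)
        cases c
        · have ev : fv ((S.P.l5 i hi j g, false) : FL S.K) = S.tr g i (j + 4) := by
            show S.K.c0 (S.K.pv _) = _
            rw [P45.pv_l5, P45.c0_5]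
            rfl
          have ex : P45.fprv ((S.P.l5 i hi j g, false) : FL S.K) = S.tr g i (j + 2) := by
            show S.K.c2 _ = _
            rw [P45.c2_5]
            rfl
          rw [ev] at h5
          rw [ex] at hn'
          have k1 := hI (j + 3)
          rw [b1] at k1
          rcases k1 with k1 | k1
          · have k2 := hcr _ _ (b1 j ▸ hE (j + 3)) k1 h5
            exact hno _ _ (b4 j ▸ hE (j + 2)) hn'.1.cs.1 k1 hn'.1.cs.2 k2
          · exact S.not_mem_of_bey hu h5 k1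
        · have ev : fv ((S.P.l5 i hi j g, true) : FL S.K) = S.tr g i (j + 3) := by
            show S.K.c2 (S.K.nx _) = _
            rw [P45.nx_l5, P45.c2_5, b2]
            rfl
          have ex : P45.fprv ((S.P.l5 i hi j g, true) : FL S.K) = S.tr g i j := by
            show S.K.c0 _ = _
            rw [P45.c0_5]
            rfl
          rw [ev] at h5
          rw [ex] at hn'
          have k1 := hI (j + 3)
          rw [b1] at k1
          rcases k1 with k1 | k1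
          · exact S.not_mem_of_bey hu h5 k1
          · have k2 := hcr _ _ (Or.symm (b1 j ▸ hE (j + 3))) k1 h5
            have k3 := hE (j + 4)
            rw [b3] at k3
            exact hno _ _ k3 k1 hn'.1.cs.1 k2 hn'.1.cs.2
    · rintro ⟨hf, hc⟩
      obtain ⟨u', k1, k2, k3⟩ := h.far5v hnb hf
      have hY : fprv f ∈ S.Yc w O n := hc
      obtain ⟨-, e2, -⟩ := hk.uniq hO (h.kn_of k1 k2) hc
      subst e2
      exact ⟨hf.1.1.1, hY, congrArg Prod.fst hf.1.2, congrArg Prod.snd hf.1.2, k3⟩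
  · rw [sSum_inr]
    obtain ⟨⟨p1, p2⟩, ⟨p3, p4⟩⟩ := p
    constructor
    · rintro ⟨h1, h2, h3, h4, h5⟩
      have h3 : p1 = T := h3
      have h4 : p2 = a := h4
      subst h3 h4
      have hn' := hk.nst.nv.cl hO h2
      exact ⟨⟨⟨⟨h1, h.ta, hn'.1.yn⟩, rfl⟩, S.not_mem_of_bey hu h5⟩, h2⟩
    · rintro ⟨hp, hc⟩
      obtain ⟨u', k1, k2⟩ := h.far4 hp
      obtain ⟨-, e2, -⟩ := hk.uniq hO (h.kn_of k1 k2) hc
      obtain ⟨⟨⟨q1, q2, q3⟩, q4⟩, q5⟩ := hp
      obtain ⟨rfl, rfl⟩ : p1 = T ∧ p2 = a := Prod.ext_iff.1 q4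
      refine ⟨q1, hc, rfl, rfl, ?_⟩
      have q5 : w ∉ S.J p3 := q5
      have q1 : Q4 S.P p4 p1 p2 p3 := q1
      have ca := S.dir_cross q1.E3 h.wa q5
      have cn := S.dir_cross (Or.symm q1.E4) (h.wn (Or.inl q3)) q5
      have e3 : S.dir w p3 = u := by
        rw [← e2]
        exact pole_edge (h.wn (Or.inl q3)) q3 h.wT (S.dir_adj q5) k1.adj cn k1.r.2
      show S.J p3 ⊆ bey S.D.G w u
      rw [← e3]
      exact S.dir_bey q5

/-- the group of the near star arrow -/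
theorem st_kn (hO : O.Nf) {u : S.X} {n : V} (hk : S.KN w O u T a n) (g : ↥(stabilizer H w)) :
    g • (S.fq w O (S.rho w n), S.fq w O (S.rho w T)) =
      (S.fq w O (S.rho w n), S.fq w O (S.rho w T)) ↔
    g • (S.fq w O (S.rho w T), S.fq w O (S.rho w a)) =
      (S.fq w O (S.rho w T), S.fq w O (S.rho w a)) ∧
      g • S.fq w O (S.rho w n) = S.fq w O (S.rho w n) := by
  constructor
  · intro e
    have e1 : g • S.fq w O (S.rho w n) = S.fq w O (S.rho w n) := congrArg Prod.fst e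
    have e2 : g • S.fq w O (S.rho w T) = S.fq w O (S.rho w T) := congrArg Prod.snd e
    refine ⟨Prod.ext e2 ?_, e1⟩
    have k := hk.smul g
    have e3 : S.fq w O (S.rho w (g.1 • n)) = S.fq w O (S.rho w n) := by
      rw [S.rho_smul, fq_smul, e1]
    obtain ⟨-, -, k3⟩ := hk.uniq hO k e3
    show g • S.fq w O (S.rho w a) = S.fq w O (S.rho w a)
    rw [← fq_smul, ← S.rho_smul, k3]
  · rintro ⟨e1, e2⟩
    exact Prod.ext e2 (congrArg Prod.fst e1)

/-- finitely many far strands of a class -/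
theorem fin_cl (k : S.Q w O) :
    FinOrb ↥(stabilizer ↥(stabilizer ↥(stabilizer H w)
      (S.fq w O (S.rho w T), S.fq w O (S.rho w a))) k) {f | f ∈ S.F5 w T a ∧ S.cl5 w O f = k} ∧
    FinOrb ↥(stabilizer ↥(stabilizer ↥(stabilizer H w)
      (S.fq w O (S.rho w T), S.fq w O (S.rho w a))) k) {p | p ∈ S.F4 w T a ∧ S.cl4 w O p = k} := by
  have f5 := finOrb_same (fun g => h.h12 g) (fin5 (S := S) (w := w) (T := T) (a := a))
  have f4 := finOrb_same (fun g => h.h12 g) (fin4 (S := S) (w := w) (T := T) (a := a))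
  exact ⟨fin_fib (π := S.cl5 w O) cl5_smul f5 k, fin_fib (π := S.cl4 w O) cl4_smul f4 k⟩

/-- the two groups have the same transformations -/
theorem grp (hO : O.Nf) {u : S.X} {n : V} (hk : S.KN w O u T a n) {Y : Type} [MulAction H Y] :
    (∀ g : ↥(stabilizer ↥(stabilizer H w) (S.fq w O (S.rho w n), S.fq w O (S.rho w T))),
      ∃ g' : ↥(stabilizer ↥(stabilizer ↥(stabilizer H w)
        (S.fq w O (S.rho w T), S.fq w O (S.rho w a))) (S.fq w O (S.rho w n))),
        ∀ y : Y, g' • y = g • y) ∧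
    ∀ g : ↥(stabilizer ↥(stabilizer ↥(stabilizer H w)
        (S.fq w O (S.rho w T), S.fq w O (S.rho w a))) (S.fq w O (S.rho w n))),
      ∃ g' : ↥(stabilizer ↥(stabilizer H w) (S.fq w O (S.rho w n), S.fq w O (S.rho w T))),
        ∀ y : Y, g' • y = g • y := by
  constructor
  · intro g
    obtain ⟨k1, k2⟩ := (h.st_kn hO hk g.1).1 g.2
    exact ⟨⟨⟨g.1, k1⟩, k2⟩, fun _ => rfl⟩
  · intro g
    exact ⟨⟨g.1.1, (h.st_kn hO hk g.1.1).2 ⟨g.1.2, g.2⟩⟩, fun _ => rfl⟩

theorem fin_far (hO : O.Nf) (hnb : S.NB) {u : S.X} {n : V} (hk : S.KN w O u T a n) :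
    FinOrb ↥(stabilizer ↥(stabilizer H w) (S.fq w O (S.rho w n), S.fq w O (S.rho w T)))
      (S.farS w u O T a n) := by
  rw [h.far_eq hO hnb hk]
  obtain ⟨f5, f4⟩ := h.fin_cl (S.fq w O (S.rho w n))
  exact finOrb_sSum (finOrb_same (h.grp hO hk).2 f5) (finOrb_same (h.grp hO hk).2 f4)

/-- THE TWO NUMBERS ARE EQUAL -/
theorem ck_cF (hO : O.Nf) (hnb : S.NB) {u : S.X} {n : V} (hk : S.KN w O u T a n) :
    S.ck w O (S.fq w O (S.rho w n), S.fq w O (S.rho w T)) =
      S.cF w O T a (S.fq w O (S.rho w n)) := by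
  rw [ck_eq hO hk, h.far_eq hO hnb hk]
  obtain ⟨f5, f4⟩ := h.fin_cl (S.fq w O (S.rho w n))
  rw [oc_sSum (finOrb_same (h.grp hO hk).2 f5) (finOrb_same (h.grp hO hk).2 f4)]
  unfold cF
  rw [oc_same (h.grp hO hk).2 (h.grp hO hk).1 f5, oc_same (h.grp hO hk).2 (h.grp hO hk).1 f4]

omit h in
theorem fkS_smul (g : ↥(stabilizer H w)) (k : S.Q w O × S.Q w O) :
    ∀ i ∈ S.fkS w O k, g • i ∈ S.fkS w O (g • k) := by
  rintro i ⟨u, q, z, n, h1, rfl, h3⟩
  refine ⟨_, _, _, _, h1.smul g, ?_, farS_smul g h3⟩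
  rw [S.rho_smul, S.rho_smul, fq_smul, fq_smul]
  rfl

/-- the near stars over the arrow of a local top -/
theorem qk_iff {k : S.Q w O × S.Q w O} :
    S.Qk w O (S.fq w O (S.rho w T), S.fq w O (S.rho w a)) k ↔
      ∃ c ∈ S.FK w O T a, k = (c, S.fq w O (S.rho w T)) := by
  constructor
  · rintro ⟨u, q, z, n, h1, h2, rfl⟩
    have e1 : S.fq w O (S.rho w q) = S.fq w O (S.rho w T) := (congrArg Prod.fst h2).symm
    have e2 : S.fq w O (S.rho w z) = S.fq w O (S.rho w a) := (congrArg Prod.snd h2).symm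
    have e3 := h.T_eq e1
    rw [S.rho_near h.wT] at e3
    have e4 : q = T := rho_inl e3
    subst e4
    have e5 : z = a := by
      rcases h.poles h1.2.2.1 with e | e
      · exact e
      · rw [e] at e2
        exact absurd e2.symm h.nab
    subst e5
    exact ⟨_, ⟨u, n, h1.1, h1.2.2.2, rfl⟩, rfl⟩
  · rintro ⟨c, ⟨u, n, h1, h2, rfl⟩, rfl⟩
    exact ⟨u, T, a, n, h.kn_of h1 h2, rfl, rfl⟩

theorem fin_qk : FinOrb ↥(stabilizer ↥(stabilizer H w)
    (S.fq w O (S.rho w T), S.fq w O (S.rho w a)))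
    {k | S.Qk w O (S.fq w O (S.rho w T), S.fq w O (S.rho w a)) k} := by
  refine Pool.Agent.SAF.FinOrb.image h.finFK (fun c => (c, S.fq w O (S.rho w T))) ?_ ?_
  · intro k hk
    obtain ⟨c, hc, rfl⟩ := h.qk_iff.1 hk
    exact ⟨c, hc, 1, one_smul _ _⟩
  · rintro c - _ - ⟨g, rfl⟩
    exact ⟨g, Prod.ext rfl (congrArg Prod.fst g.2)⟩

/-- (LOC) IN THE FORM OF THE CHARGES -/
theorem loc42 (hO : O.Nf) (hnb : S.NB) {hc : S.Conn} {hm : (S.k0 hc w).Min} {hn : S.SqN w O}
    {E : V → Prop} (hs : S.P.SqE E) (ho : S.OldT w O) :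
    S.P.X T a ≤ (S.kfP hc w O hm hn).X (S.fq w O (S.rho w T)) (S.fq w O (S.rho w a)) +
      os ↥(stabilizer ↥(stabilizer H w) (S.fq w O (S.rho w T), S.fq w O (S.rho w a)))
        {k | S.Qk w O (S.fq w O (S.rho w T), S.fq w O (S.rho w a)) k}
        (fun k => S.ck w O k - 1) := by
  refine (h.law_sub (hm := hm) (hn := hn) hnb hs ho).trans (Nat.add_le_add_left ?_ _)
  refine os_of_inj h.finFK h.fin_qk (fun c => (c, S.fq w O (S.rho w T)))
    (fun c hc => h.qk_iff.2 ⟨c, hc, rfl⟩) ?_ ?_ ?_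
  · rintro c - c' - ⟨g, hg⟩
    exact ⟨g, congrArg Prod.fst hg⟩
  · intro g k hk hk'
    obtain ⟨c, ⟨u, n, h1, h2, rfl⟩, rfl⟩ := h.qk_iff.1 hk
    have hkn := h.kn_of h1 h2
    have := oc_stab_smul (G := ↥(stabilizer H w)) (F := S.fkS w O) (fun g x y hy => fkS_smul g x y hy)
      g.1 (S.fq w O (S.rho w n), S.fq w O (S.rho w T)) (by
        rw [fkS_eq hO hkn]
        exact h.fin_far hO hnb hkn)
    show S.ck w O (g.1 • _) - 1 = S.ck w O _ - 1
    unfold ck
    rw [this]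
  · rintro c ⟨u, n, h1, h2, rfl⟩
    rw [h.ck_cF hO hnb (h.kn_of h1 h2)]

end LTp

end SyQ

end Pool.Agent.DI
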