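import Pool.Agent.DI.Geo4

/-!
# DI/Geo4T: tops in the tree

For `h : S.P.Top T a b y` (with `a ≠ b`): `Top.pos4` (the three cases), the subtree of `T` (`Cas1.JT`,
`Cas2.JT`, `Cas3.JT`), the ends of the subtrees of the sides and of the partner, the action of the
stabiliser of the top (`Cas1.fix`, `Cas2.fix`, `Cas3.fix`).
-/

namespace Pool.Agent.DI

open MulAction
open Pool.Agent.SAF (InC orbs FinOrb oc Decomp SAn SA Conv hull dist_edge FinOrb_iff exists_next
  hull_conv Conv.rtg)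
open Pool.Agent.BT (PX PQ JS bey exits lz lz_self lz_ne lz_symm x_next_unique)
open Pool.Agent.BT.TA

/-- a convex set which does not leave the segment -/
theorem conv_eq_Sgm {X : Type} {G : SimpleGraph X} (hG : G.IsTree) {C : Set X} (hC : Conv G C)
    {p q : X} (hp : p ∈ C) (hq : q ∈ C)
    (h : ∀ w ∈ Sgm G p q, ∀ u, G.Adj w u → u ∈ C → u ∈ Sgm G p q) : C = Sgm G p q := by
  apply Set.Subset.antisymm _ (Sgm_sub hC hp hq)
  intro r hr
  have k := Conv.rtg hG hC hp hr
  induction k with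
  | refl => exact Sgm.left _ _
  | tail _ h2 ih => exact h _ (ih h2.2.1) _ h2.1 h2.2.2

/-- a convex set without a second point -/
theorem conv_eq_singleton {X : Type} {G : SimpleGraph X} (hG : G.IsTree) {C : Set X}
    (hC : Conv G C) {p : X} (hp : p ∈ C) (h : ∀ u, G.Adj p u → u ∉ C) : C = {p} := by
  apply Set.Subset.antisymm
  · intro r hr
    have k := Conv.rtg hG hC hp hr
    induction k with
    | refl => exact rfl
    | tail _ h2 ih =>
      exfalso
      have e := Set.mem_singleton_iff.1 (ih h2.2.1)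
      rw [e] at h2
      exact h _ h2.1 h2.2.2
  · rintro _ rfl
    exact hp

namespace SyQ

variable {H V : Type} [Group H] [MulAction H V] {S : SyQ H V}

/-! ### exits -/

theorem ex_pole {x a : V} {w : S.X} (e : S.K.ar x a) (h : w ∈ S.J a) :
    Sum.inl a ∈ exits S.P.pq S.D.G S.J x w := Or.inl ⟨a, rfl, e, h⟩

theorem ex_edge {x : V} {w u : S.X} (e : S.D.G.Adj w u) (h : u ∈ S.J x) :
    Sum.inr u ∈ exits S.P.pq S.D.G S.J x w := Or.inr ⟨u, rfl, e, h⟩

/-- a pole over `w`: at most one edge -/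
theorem pole_edge {x a : V} {w u u' : S.X} (hw : w ∈ S.J x) (e : S.K.ar x a) (ha : w ∈ S.J a)
    (hu : S.D.G.Adj w u) (hu' : S.D.G.Adj w u') (h : u ∈ S.J x) (h' : u' ∈ S.J x) : u = u' := by
  rcases S.js.two x w hw _ (ex_pole e ha) _ (ex_edge hu h) _ (ex_edge hu' h') with k | k | k
  · cases k
  · cases k
  · exact Sum.inr.inj k

/-- two poles over `w`: no edge -/
theorem poles_edge {x a b : V} {w u : S.X} (hab : a ≠ b) (hw : w ∈ S.J x) (e : S.K.ar x a)
    (e' : S.K.ar x b) (ha : w ∈ S.J a) (hb : w ∈ S.J b) (hu : S.D.G.Adj w u) : u ∉ S.J x := by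
  intro h
  rcases S.js.two x w hw _ (ex_pole e ha) _ (ex_pole e' hb) _ (ex_edge hu h) with k | k | k
  · exact hab (Sum.inl.inj k)
  · cases k
  · cases k

/-- two poles over `w`: a point -/
theorem poles_point {x a b : V} {w : S.X} (hab : a ≠ b) (hw : w ∈ S.J x) (e : S.K.ar x a)
    (e' : S.K.ar x b) (ha : w ∈ S.J a) (hb : w ∈ S.J b) : S.J x = {w} :=
  conv_eq_singleton S.D.tree (S.js.conv x) hw (fun _ hu => poles_edge hab hw e e' ha hb hu)

/-- three edges at a point of a subtree -/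
theorem edge3 {x : V} {w u u1 u2 : S.X} (hw : w ∈ S.J x) (h0 : S.D.G.Adj w u)
    (h1 : S.D.G.Adj w u1) (h2 : S.D.G.Adj w u2) (c0 : u ∈ S.J x) (c1 : u1 ∈ S.J x)
    (c2 : u2 ∈ S.J x) : u = u1 ∨ u = u2 ∨ u1 = u2 := by
  rcases S.js.two x w hw _ (ex_edge h0 c0) _ (ex_edge h1 c1) _ (ex_edge h2 c2) with k | k | k
  · exact Or.inl (Sum.inr.inj k)
  · exact Or.inr (Or.inl (Sum.inr.inj k))
  · exact Or.inr (Or.inr (Sum.inr.inj k))

/-! ### the three cases -/

theorem _root_.Pool.Agent.DI.P45.Top.w4 {T a b y : V} (h : S.P.Top T a b y) : S.W4 a T b y :=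
  h.1.w4

theorem _root_.Pool.Agent.DI.P45.Top.w4' {T a b y : V} (h : S.P.Top T a b y) : S.W4 T a y b :=
  h.w4.rev.rot

theorem _root_.Pool.Agent.DI.P45.Top.q4' {T a b y : V} (h : S.P.Top T a b y) : Q4 S.P T a y b :=
  h.1.symm.rot

/-- THE THREE CASES OF A TOP -/
theorem _root_.Pool.Agent.DI.P45.Top.pos4 {T a b y : V} (h : S.P.Top T a b y) :
    (∃ p q, S.Cas1 T a b y p q) ∨ (∃ p q, S.Cas2 T a b y p q) ∨ ∃ p, S.Cas3 T a b y p := by
  rcases h.w4.pos with ⟨p, q, k⟩ | ⟨p, q, k⟩ | ⟨p, k⟩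
  · exact Or.inr (Or.inl ⟨p, q, k⟩)
  · exact Or.inl ⟨q, p, k.flip⟩
  · exact Or.inr (Or.inr ⟨p, k⟩)

theorem Cas1.symm {T a b y : V} {p q : S.X} (h : S.Cas1 T a b y p q) : S.Cas1 T b a y q p :=
  Al.flip h

theorem Cas2.symm {T a b y : V} {p q : S.X} (h : S.Cas2 T a b y p q) : S.Cas2 T b a y p q :=
  Al.rev h

theorem Cas3.symm {T a b y : V} {p : S.X} (h : S.Cas3 T a b y p) : S.Cas3 T b a y p :=
  At4.rev h

theorem Cas1.smul (g : H) {T a b y : V} {p q : S.X} (h : S.Cas1 T a b y p q) :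
    S.Cas1 (g • T) (g • a) (g • b) (g • y) (g • p) (g • q) := Al.smul g h

theorem Cas2.smul (g : H) {T a b y : V} {p q : S.X} (h : S.Cas2 T a b y p q) :
    S.Cas2 (g • T) (g • a) (g • b) (g • y) (g • p) (g • q) := Al.smul g h

theorem Cas3.smul (g : H) {T a b y : V} {p : S.X} (h : S.Cas3 T a b y p) :
    S.Cas3 (g • T) (g • a) (g • b) (g • y) (g • p) := At4.smul g h

/-! ### case 1 -/

section C1

variable {T a b y : V} {p q : S.X}

/-- the exits of `T` at the points of the segment -/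
theorem Cas1.JT (h : S.P.Top T a b y) (k : S.Cas1 T a b y p q) : S.J T = Sgm S.D.G p q := by
  apply conv_eq_Sgm S.D.tree (S.js.conv T) k.p0 k.q0
  intro w hw u hu hc
  have hw' : w ∈ Sgm S.D.G q p := by
    rw [Sgm_symm]
    exact hw
  have hwT : w ∈ S.J T := Al.m0 k hw
  by_cases e1 : w = p
  · subst e1
    obtain ⟨u0, b0⟩ := exists_Bt S.D.tree hw k.ne
    have e := pole_edge hwT h.2.1 k.p1 hu b0.1 hc (Al.cs0 k b0).2
    rw [e]
    exact (b0.mem S.D.tree).2
  · obtain ⟨u1, b1⟩ := exists_Bt S.D.tree hw' e1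
    have m1 : u1 ∈ Sgm S.D.G p q := (b1.symm.mem S.D.tree).1
    by_cases e2 : w = q
    · subst e2
      have e := pole_edge hwT h.2.2 k.q3 hu b1.1 hc (Al.m0 k m1)
      rw [e]
      exact m1
    · obtain ⟨u2, b2⟩ := exists_Bt S.D.tree hw e2
      have m2 : u2 ∈ Sgm S.D.G p q := (b2.mem S.D.tree).2
      rcases edge3 hwT hu b1.1 b2.1 hc (Al.m0 k m1) (Al.m0 k m2) with e | e | e
      · rw [e]
        exact m1
      · rw [e]
        exact m2
      · exfalso
        rw [← e] at b2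
        exact bey_not b1.2.1 b2.2.2

/-- the partner: the segment is in its subtree -/
theorem Cas1.Jy (k : S.Cas1 T a b y p q) : Sgm S.D.G p q ⊆ S.J y := fun _ hr => Al.m2 k hr

/-- an arrow `a → y`: at most one edge of `J a` at `p` -/
theorem Cas1.end_a (k : S.Cas1 T a b y p q) (e : S.K.ar a y) {u u' : S.X}
    (hu : S.D.G.Adj p u) (hu' : S.D.G.Adj p u') (c : u ∈ S.J a) (c' : u' ∈ S.J a) : u = u' :=
  pole_edge k.p1 e k.p2 hu hu' c c'

/-- an arrow `y → b`: the subtree of `y` ends at `q` -/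
theorem Cas1.end_y (k : S.Cas1 T a b y p q) (e : S.K.ar y b) {u : S.X}
    (hu : S.D.G.Adj q u) (c : u ∈ S.J y) : Bt S.D.G p q u q := by
  have hq' : q ∈ Sgm S.D.G q p := Sgm.left _ _
  obtain ⟨u1, b1⟩ := exists_Bt S.D.tree hq' (Ne.symm k.ne)
  have m1 : u1 ∈ Sgm S.D.G p q := (b1.symm.mem S.D.tree).1
  have e' := pole_edge k.q2 e k.q3 hu b1.1 c (Al.m2 k m1)
  rw [e']
  exact b1.symm

/-- the end `p` is a neighbour of the next point of the segment only in the direction of `q` -/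
theorem Cas1.JT_p (h : S.P.Top T a b y) (k : S.Cas1 T a b y p q) {u : S.X}
    (hu : S.D.G.Adj p u) (c : u ∈ S.J T) : Bt S.D.G p q p u := by
  obtain ⟨u0, b0⟩ := exists_Bt S.D.tree (Sgm.left p q) k.ne
  have e := pole_edge k.p0 h.2.1 k.p1 hu b0.1 c (Al.cs0 k b0).2
  rw [e]
  exact b0

/-- the stabiliser of the top fixes or exchanges the ends -/
theorem Cas1.fix (h : S.P.Top T a b y) (hab : a ≠ b) (k : S.Cas1 T a b y p q) {g : H}
    (hT : g • T = T) (hy : g • y = y) :
    (g • a = a ∧ g • b = b ∧ g • p = p ∧ g • q = q) ∨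
      (g • a = b ∧ g • b = a ∧ g • p = q ∧ g • q = p) := by
  have k' := k.smul g
  have h' := h.smul g
  rw [hT, hy] at k' h'
  have ha : g • a = a ∨ g • a = b := by
    rcases S.K.two T a b (g • a) h.2.1 h.2.2 h'.2.1 with e | e | e
    · exact absurd e hab
    · exact Or.inr e.symm
    · exact Or.inl e.symm
  have hb : g • b = a ∨ g • b = b := by
    rcases S.K.two T a b (g • b) h.2.1 h.2.2 h'.2.2 with e | e | e
    · exact absurd e hab
    · exact Or.inr e.symm
    · exact Or.inl e.symm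
  rcases ha with ha | ha <;> rcases hb with hb | hb
  · exact absurd (smul_left_cancel g (ha.trans hb.symm)) hab
  · left
    rw [ha, hb] at k'
    obtain ⟨e1, e2⟩ := Al.unique h.w4' k k'
    exact ⟨ha, hb, e1.symm, e2.symm⟩
  · right
    rw [ha, hb] at k'
    obtain ⟨e1, e2⟩ := Al.unique h.w4' k k'.symm
    exact ⟨ha, hb, e2.symm, e1.symm⟩
  · exact absurd (smul_left_cancel g (ha.trans hb.symm)) hab

end C1

/-! ### case 2 -/

section C2

variable {T a b y : V} {p q : S.X}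

/-- the top sits at `p` -/
theorem Cas2.JT (h : S.P.Top T a b y) (hab : a ≠ b) (k : S.Cas2 T a b y p q) : S.J T = {p} :=
  poles_point hab k.p1 h.2.1 h.2.2 k.p0 k.p2

/-- an arrow `a → y`: the subtree of `a` ends at `q` -/
theorem Cas2.end_a (k : S.Cas2 T a b y p q) (e : S.K.ar a y) {u : S.X}
    (hu : S.D.G.Adj q u) (c : u ∈ S.J a) : Bt S.D.G p q u q := by
  obtain ⟨u1, b1⟩ := exists_Bt S.D.tree (Sgm.left q p) (Ne.symm k.ne)
  have m1 : u1 ∈ Sgm S.D.G p q := (b1.symm.mem S.D.tree).1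
  have e' := pole_edge k.q0 e k.q3 hu b1.1 c (Al.m0 k m1)
  rw [e']
  exact b1.symm

/-- an arrow `b → y`: the subtree of `b` ends at `q` -/
theorem Cas2.end_b (k : S.Cas2 T a b y p q) (e : S.K.ar b y) {u : S.X}
    (hu : S.D.G.Adj q u) (c : u ∈ S.J b) : Bt S.D.G p q u q := k.symm.end_a e hu c

/-- an arrow `y → b`: at most one edge of `J y` at `q` -/
theorem Cas2.end_y (k : S.Cas2 T a b y p q) (e : S.K.ar y b) {u u' : S.X}
    (hu : S.D.G.Adj q u) (hu' : S.D.G.Adj q u') (c : u ∈ S.J y) (c' : u' ∈ S.J y) : u = u' :=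
  pole_edge k.q3 e k.q2 hu hu' c c'

/-- the stabiliser of the top fixes both ends -/
theorem Cas2.fix (h : S.P.Top T a b y) (hab : a ≠ b) (k : S.Cas2 T a b y p q) {g : H}
    (hT : g • T = T) (hy : g • y = y) : g • p = p ∧ g • q = q := by
  have k' := k.smul g
  have h' := h.smul g
  rw [hT, hy] at k' h'
  have ha : g • a = a ∨ g • a = b := by
    rcases S.K.two T a b (g • a) h.2.1 h.2.2 h'.2.1 with e | e | e
    · exact absurd e hab
    · exact Or.inr e.symm
    · exact Or.inl e.symm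
  have hb : g • b = a ∨ g • b = b := by
    rcases S.K.two T a b (g • b) h.2.1 h.2.2 h'.2.2 with e | e | e
    · exact absurd e hab
    · exact Or.inr e.symm
    · exact Or.inl e.symm
  rcases ha with ha | ha <;> rcases hb with hb | hb
  · exact absurd (smul_left_cancel g (ha.trans hb.symm)) hab
  · rw [ha, hb] at k'
    obtain ⟨e1, e2⟩ := Al.unique h.w4 k k'
    exact ⟨e1.symm, e2.symm⟩
  · rw [ha, hb] at k'
    obtain ⟨e1, e2⟩ := Al.unique h.w4 k k'.symm
    exact ⟨e1.symm, e2.symm⟩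
  · exact absurd (smul_left_cancel g (ha.trans hb.symm)) hab

end C2

/-! ### case 3 -/

section C3

variable {T a b y : V} {p : S.X}

/-- the top sits at `p` -/
theorem Cas3.JT (h : S.P.Top T a b y) (hab : a ≠ b) (k : S.Cas3 T a b y p) : S.J T = {p} :=
  poles_point hab k.p1 h.2.1 h.2.2 k.p0 k.p2

/-- an arrow `a → y`: at most one edge of `J a` at `p` -/
theorem Cas3.end_a (k : S.Cas3 T a b y p) (e : S.K.ar a y) {u u' : S.X}
    (hu : S.D.G.Adj p u) (hu' : S.D.G.Adj p u') (c : u ∈ S.J a) (c' : u' ∈ S.J a) : u = u' :=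
  pole_edge k.p0 e k.p3 hu hu' c c'

/-- an arrow `y → b`: at most one edge of `J y` at `p` -/
theorem Cas3.end_y (k : S.Cas3 T a b y p) (e : S.K.ar y b) {u u' : S.X}
    (hu : S.D.G.Adj p u) (hu' : S.D.G.Adj p u') (c : u ∈ S.J y) (c' : u' ∈ S.J y) : u = u' :=
  pole_edge k.p3 e k.p2 hu hu' c c'

/-- the stabiliser of the top fixes the point -/
theorem Cas3.fix (h : S.P.Top T a b y) (hab : a ≠ b) (k : S.Cas3 T a b y p) {g : H}
    (hT : g • T = T) : g • p = p := by
  have hJ := k.JT h hab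
  have h1 : g • p ∈ S.J (g • T) := S.js.smul g _ _ k.p1
  rw [hT, hJ] at h1
  exact Set.mem_singleton_iff.1 h1

end C3

/-! ### the levels of a top -/

/-- the sides of a top cross no common edge except in case 2 -/
theorem Cas1.nab_cs {T a b y : V} {p q : S.X} (h : S.P.Top T a b y) (k : S.Cas1 T a b y p q)
    {w u : S.X} (ca : S.Cs w u a) (cb : S.Cs w u b) : False :=
  Al.disj h.w4' k ca.1 cb.1

end SyQ

end Pool.Agent.DI
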