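import Pool.Agent.DI.ClsK
import Pool.Agent.DI.Geo4T

/-!
# The carriers of the tops of `K` in the folded slice

`KN.Top`, `KH.Top`, `loc_Top`: the near stars over open hubs, the two-pole stars of open hubs and the local
squares are tops of `S.kfP hc w O`. For `h : S.P.Top T a b y`:
`Cas1.cG` (top and partner cross the edge `w u`, side `a` at `w`, `a → y`): near star of `T` over `a`,
`Cas2.cG` (the sides cross, `y → b` at `w`): near star of `a` over `y`,
`Cas2.cD` (the sides cross, `T` at `w`): two-pole star of `T`,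
`Cas3.cL`: local. Injectivity: `KN.inj`, `KH.inj`, `loc_inj`.
-/

namespace Pool.Agent.DI

open MulAction
open Pool.Agent.SAF (InC orbs FinOrb oc Decomp SAn SA Conv hull dist_edge FinOrb_iff exists_next)
open Pool.Agent.BT (PX PQ JS bey exits lz lz_self lz_ne lz_symm x_next_unique)
open Pool.Agent.BT.TA

namespace SyQ

variable {H V : Type} [Group H] [MulAction H V] {S : SyQ H V}

theorem arQ_ne {w : S.X} {O : S.OR w} {c d : S.Q w O} (h : S.arQ w O c d) : c ≠ d := by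
  rintro rfl
  exact absurd (arQ_rk h) (lt_irrefl _)

theorem arQ_ne2 {w : S.X} {O : S.OR w} {c d e : S.Q w O} (h : S.arQ w O c d)
    (h' : S.arQ w O d e) : c ≠ e := by
  rintro rfl
  exact absurd ((arQ_rk h).trans (arQ_rk h')) (lt_irrefl _)

/-- the class of an open hub is not the class of a sink -/
theorem OR.Nf.ne_inr {w u : S.X} {O : S.OR w} (hO : O.Nf) {q : V} (ho : O.op u q)
    (v : S.EV w) : S.fq w O (S.rho w q) ≠ S.fq w O (Sum.inr v) := by
  have hq := O.near u q ho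
  rw [S.rho_near hq]
  intro e
  exact hO.nsk ho hq v (fq_inr.1 e)

section Tops

variable {hc : S.Conn} {w : S.X} {O : S.OR w} {hm : (S.k0 hc w).Min} {hn : S.SqN w O}

/-- A NEAR STAR OVER AN OPEN HUB IS A TOP -/
theorem KN.Top (hO : O.Nf) {u : S.X} {q z x : V} (h : S.KN w O u q z x) :
    (S.kfP hc w O hm hn).Top (S.fq w O (S.rho w x)) (S.fq w O (S.rho w q))
      (S.fq w O (Sum.inr ⟨u, h.adj⟩)) (S.fq w O (S.rho w z)) := by
  obtain ⟨a1, a2, a3, a4⟩ := h.arrows hO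
  have hxz : z ≠ x := by
    rintro rfl
    exact absurd ((arQ_rk a1).trans (arQ_rk a3)) (lt_irrefl _)
  have h4 := (Qs.k0s hc h.1 hxz).rot
  refine ⟨k0_Q4_kf hm hn h4 (hO.ne_inr h.2.1 _) (arQ_ne2 a1 a3), a1, a2⟩

/-- A TWO-POLE STAR OF AN OPEN HUB IS A TOP -/
theorem KH.Top (hO : O.Nf) {u : S.X} {q z x : V} (h : S.KH w O u q z x)
    (hne : S.fq w O (S.rho w z) ≠ S.fq w O (S.rho w x)) :
    (S.kfP hc w O hm hn).Top (S.fq w O (S.rho w q)) (S.fq w O (S.rho w z))
      (S.fq w O (S.rho w x)) (S.fq w O (Sum.inr ⟨u, h.adj⟩)) := by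
  obtain ⟨a1, a2, a3, a4⟩ := h.arrows hO
  exact ⟨k0_Q4_kf hm hn (Qs.k0s hc h.1 h.2.2.2.2) hne (hO.ne_inr h.2.1 _), a1, a2⟩

/-- A LOCAL SQUARE IS A TOP -/
theorem loc_Top (hO : O.Nf) (hK : S.KIn w) {T a b y : V} (ht : S.P.Top T a b y)
    (hl : S.Loc w T a b y) (hTy : T ≠ y)
    (hne : S.fq w O (S.rho w a) ≠ S.fq w O (S.rho w b)) :
    (S.kfP hc w O hm hn).Top (S.fq w O (S.rho w T)) (S.fq w O (S.rho w a))
      (S.fq w O (S.rho w b)) (S.fq w O (S.rho w y)) := by
  obtain ⟨a1, a2⟩ := loc_ar hO hK ht hl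
  have hTy' : S.fq w O (S.rho w T) ≠ S.fq w O (S.rho w y) := by
    rcases loc_side hO hK ht hl hne with e | e
    · exact arQ_ne2 a1 e
    · exact arQ_ne2 a2 e
  have hat : S.At4 a T b y w := ⟨hl.2.1, hl.1, hl.2.2.1, hl.2.2.2⟩
  have hn4 := (hat.nd_iff ht.w4).2 ⟨rfl, hK.nab _ _ _ _ ht, hTy⟩
  exact ⟨k0_Q4_kf hm hn (ht.1.k0 hc hn4) hne hTy', a1, a2⟩

end Tops

/-! ### the seven cases -/

section Cases

variable {w u : S.X} {O : S.OR w}

/-- CASES G1, D1: the near star of `T` over the side `a` -/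
theorem Cas1.kn {T a b y : V} (h : S.P.Top T a b y) {q : S.X} (k : S.Cas1 T a b y w q)
    (hb : Bt S.D.G w q w u) (e : S.K.ar a y) (ho : O.op u a) : S.KN w O u a y T := by
  have hq := Al.qs k h.q4' hb
  exact ⟨hq.symm', ho, e, h.2.1⟩

/-- CASE G2: the near star of the side `a` over the partner -/
theorem Cas2.kn {T a b y : V} (h : S.P.Top T a b y) {p : S.X} (k : S.Cas2 T a b y p w)
    (hb : Bt S.D.G w p w u) (e : S.K.ar a y) (e' : S.K.ar y b) (ho : O.op u y) :
    S.KN w O u y b a := by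
  have hq := Al.qs' k h.1 hb.symm
  exact ⟨hq.symm', ho, e', e⟩

/-- CASES P4, D2: the two-pole star of the top -/
theorem Cas2.kh {T a b y : V} (h : S.P.Top T a b y) (hab : a ≠ b) {q : S.X}
    (k : S.Cas2 T a b y w q) (hb : Bt S.D.G w q w u) (ho : O.op u T) : S.KH w O u T a b :=
  ⟨Al.qs k h.1 hb, ho, h.2.1, h.2.2, hab⟩

/-- CASES G3, D3: local -/
theorem Cas3.loc {T a b y : V} (k : S.Cas3 T a b y w) : S.Loc w T a b y := ⟨k.p1, k.p0, k.p2, k.p3⟩

theorem Loc.cas3 {T a b y : V} (k : S.Loc w T a b y) : S.Cas3 T a b y w :=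
  ⟨k.2.1, k.1, k.2.2.1, k.2.2.2⟩

end Cases

/-! ### injectivity -/

section Inj

variable {w : S.X} {O : S.OR w}

theorem car_inj {x x' : V} (hx : w ∈ S.J x) (hx' : w ∈ S.J x') (e : S.rho w x = S.rho w x') :
    x = x' := by
  rw [S.rho_near hx, S.rho_near hx'] at e
  exact congrArg Subtype.val (Sum.inl.inj e)

/-- an open two-pole hub is alone in its class -/
theorem KH.alone {u : S.X} (hO : O.Nf) {q z x : V} (h : S.KH w O u q z x) {c : S.SV w}
    (e : S.fq w O c = S.fq w O (S.rho w q)) : c = S.rho w q := by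
  have hq := O.near u q h.2.1
  exact cls_one hq (fun v hv hc => h.dia.not_cs hv hc) (fun v => hO.nsk h.2.1 hq v) e

theorem KH.inj {u : S.X} (hO : O.Nf) {q z x q' : V} (h : S.KH w O u q z x) (hq' : w ∈ S.J q')
    (e : S.fq w O (S.rho w q') = S.fq w O (S.rho w q)) : q' = q :=
  car_inj hq' (O.near u q h.2.1) (h.alone hO e)

/-- the top of a local square is alone in its class -/
theorem loc_alone (hO : O.Nf) (hK : S.KIn w) {T a b y : V} (ht : S.P.Top T a b y)
    (hl : S.Loc w T a b y) {c : S.SV w} (e : S.fq w O c = S.fq w O (S.rho w T)) :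
    c = S.rho w T :=
  cls_one hl.1 (fun _ hv => hK.no_cs ht hl hv) (fun v => hO.loc_nsk ht hl hl.1 v) e

theorem loc_inj (hO : O.Nf) (hK : S.KIn w) {T a b y T' : V} (ht : S.P.Top T a b y)
    (hl : S.Loc w T a b y) (hT' : w ∈ S.J T')
    (e : S.fq w O (S.rho w T') = S.fq w O (S.rho w T)) : T' = T :=
  car_inj hT' hl.1 (loc_alone hO hK ht hl e)

/-- NEAR STARS: the same class means the same hub, the same edge and the same component -/
theorem KN.inj (hO : O.Nf) {u u' : S.X} {q z x q' z' x' : V} (h : S.KN w O u q z x)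
    (h' : S.KN w O u' q' z' x') (e : S.fq w O (S.rho w x') = S.fq w O (S.rho w x)) :
    u' = u ∧ q' = q ∧ S.Gc w u q x x' := by
  obtain ⟨x1, e1, c1, e2, g⟩ := cls_par hO h.2.1 h.adj h.1.r h.2.2.2 e
  obtain rfl := car_inj h'.1.r.1 c1.1 e1
  have hq := O.near u q h.2.1
  have hq' := O.near u' q' h'.2.1
  obtain rfl : u' = u := ar_cs_eq h'.1.r.1 e2 hq h'.adj h.adj h'.1.r.2 c1.2
  obtain rfl : q' = q := ar_ar_eq h'.1.r.1 h'.2.2.2 hq' e2 hq h.adj c1.2
  exact ⟨rfl, rfl, g⟩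

/-- the three kinds are different -/
theorem KN.ne_kh (hO : O.Nf) {u u' : S.X} {q z x q' z' x' : V} (h : S.KN w O u q z x)
    (h' : S.KH w O u' q' z' x') : S.fq w O (S.rho w x) ≠ S.fq w O (S.rho w q') := by
  intro e
  obtain rfl := h'.inj hO h.1.r.1 e
  exact h'.dia.not_cs h.adj h.1.r.2

theorem KN.ne_loc (hO : O.Nf) (hK : S.KIn w) {u : S.X} {q z x T a b y : V}
    (h : S.KN w O u q z x) (ht : S.P.Top T a b y) (hl : S.Loc w T a b y) :
    S.fq w O (S.rho w x) ≠ S.fq w O (S.rho w T) := by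
  intro e
  obtain rfl := loc_inj hO hK ht hl h.1.r.1 e
  exact hK.no_cs ht hl h.adj h.1.r.2

theorem KH.ne_loc (hO : O.Nf) {u : S.X} {q z x T a b y : V}
    (h : S.KH w O u q z x) (ht : S.P.Top T a b y) (hl : S.Loc w T a b y) :
    S.fq w O (S.rho w q) ≠ S.fq w O (S.rho w T) := by
  intro e
  obtain rfl := h.inj hO hl.1 e.symm
  exact hO.n5 _ _ _ _ ht hl u h.dia

end Inj

end SyQ

end Pool.Agent.DI
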