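import Pool.Agent.DI.Xt
import Pool.Agent.DI.QK0d

/-!
# The bound of `sg + sd`

In the static class: `sg + sd ≤ 5 * area`, and the number of the arrows of tops is at most `5 * area`
if all tops are fat.
-/

namespace Pool.Agent.DI

open MulAction
open Pool.Agent.SAF (InC orbs FinOrb oc mk_eq_iff FinOrb_iff oc_mono oc_le_of_inj oc_le_of_rel
  oc_le_of_surj)

namespace P45

variable {H V : Type} [Group H] [MulAction H V] {K : GX H V} {P : P45 K}

/-! ### gamma and diamond -/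

theorem oc_TA : oc H P.TG + oc H P.TD = oc H P.TA := by
  have h := oc_split (G := H) (P.fin_TA) (fun p => P.gam p.1)
    (fun g y _ _ k => gam_smul g k)
  exact h.symm

theorem sX_TA : P.sX P.TG + P.sX P.TD = P.sX P.TA := by
  unfold sX
  have h1 := oc_split (G := H) (A := {f : FL K | f ∈ P.RP ∧ (fy f, fz f) ∈ P.TA})
    (fin_RP.mono fun _ k => k.1) (fun f => P.gam (fy f))
    (fun g f _ _ k => by rw [fy_smul]; exact gam_smul g k)
  have h2 := oc_split (G := H) (A := {p : (V × V) × (V × V) | p ∈ P.ZP ∧ p.1 ∈ P.TA})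
    (fin_ZP.mono fun _ k => k.1) (fun p => P.gam p.1.1)
    (fun g p _ _ k => gam_smul g k)
  have e1 : {y : FL K | y ∈ {f : FL K | f ∈ P.RP ∧ (fy f, fz f) ∈ P.TA} ∧ P.gam (fy y)} =
      {f : FL K | f ∈ P.RP ∧ (fy f, fz f) ∈ P.TG} := by
    ext f
    exact ⟨fun k => ⟨k.1.1, k.1.2, k.2⟩, fun k => ⟨⟨k.1, k.2.1⟩, k.2.2⟩⟩
  have e2 : {y : FL K | y ∈ {f : FL K | f ∈ P.RP ∧ (fy f, fz f) ∈ P.TA} ∧ ¬ P.gam (fy y)} =
      {f : FL K | f ∈ P.RP ∧ (fy f, fz f) ∈ P.TD} := by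
    ext f
    exact ⟨fun k => ⟨k.1.1, k.1.2, k.2⟩, fun k => ⟨⟨k.1, k.2.1⟩, k.2.2⟩⟩
  have e3 : {y : (V × V) × (V × V) | y ∈ {p : (V × V) × (V × V) | p ∈ P.ZP ∧ p.1 ∈ P.TA} ∧
      P.gam y.1.1} = {p : (V × V) × (V × V) | p ∈ P.ZP ∧ p.1 ∈ P.TG} := by
    ext f
    exact ⟨fun k => ⟨k.1.1, k.1.2, k.2⟩, fun k => ⟨⟨k.1, k.2.1⟩, k.2.2⟩⟩
  have e4 : {y : (V × V) × (V × V) | y ∈ {p : (V × V) × (V × V) | p ∈ P.ZP ∧ p.1 ∈ P.TA} ∧
      ¬ P.gam y.1.1} = {p : (V × V) × (V × V) | p ∈ P.ZP ∧ p.1 ∈ P.TD} := by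
    ext f
    exact ⟨fun k => ⟨k.1.1, k.1.2, k.2⟩, fun k => ⟨⟨k.1, k.2.1⟩, k.2.2⟩⟩
  rw [e1, e2] at h1
  rw [e3, e4] at h2
  rw [h1, h2]
  ring

/-! ### the pentagons -/

theorem oc_pos : oc H {e : K.LE | ¬ P.sq e.1.1} ≤ 5 * K.area := by
  classical
  have := K.finI
  rw [P.area_eq]
  have h1 : oc H {e : K.LE | ¬ P.sq e.1.1} ≤ Nat.card ({i : K.I // ¬ P.sq i} × Fin 5) := by
    unfold oc
    rw [← Nat.card_coe_set_eq]
    have key : ∀ q : ↥(orbs H {e : K.LE | ¬ P.sq e.1.1}), ∃ e : K.LE, ¬ P.sq e.1.1 ∧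
        omk H e = q.1 := by
      rintro ⟨q, e, he, rfl⟩
      exact ⟨e, he, rfl⟩
    choose r hr1 hr2 using key
    apply Nat.card_le_card_of_injective
      (fun q => ((⟨(r q).1.1, hr1 q⟩ : {i : K.I // ¬ P.sq i}),
        (⟨(r q).1.2.1, by
          have h2 := (r q).1.2.2
          have h3 := P.len5 (hr1 q)
          omega⟩ : Fin 5)))
    intro q q' e
    have e1 : (r q).1.1 = (r q').1.1 := congrArg Subtype.val (Prod.ext_iff.1 e).1
    have e2 : (r q).1.2.1 = (r q').1.2.1 := congrArg Fin.val (Prod.ext_iff.1 e).2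
    apply Subtype.ext
    rw [← hr2 q, ← hr2 q']
    have e3 : (r q).1 = (r q').1 := by
      generalize (r q).1 = p at e1 e2
      generalize (r q').1 = p' at e1 e2
      obtain ⟨i, j⟩ := p
      obtain ⟨i', j'⟩ := p'
      have e1 : i = i' := e1
      subst e1
      have e2 : j.1 = j'.1 := e2
      rw [Fin.ext e2]
    refine omk_eq.2 ⟨(r q).2 * (r q').2⁻¹, Prod.ext e3.symm ?_⟩
    show (r q).2 * (r q').2⁻¹ * (r q').2 = (r q).2
    rw [inv_mul_cancel_right]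
  rw [Nat.card_prod, Nat.card_eq_fintype_card (α := Fin 5), Fintype.card_fin, mul_comm] at h1
  exact h1

/-- the arrows of the pentagons: each position once -/
theorem oc_RP_le : oc H P.RP ≤ 5 * K.area := by
  refine le_trans ?_ (oc_pos (P := P))
  have hf : FinOrb H {e : K.LE | ¬ P.sq e.1.1} := K.fin_LE.mono (Set.subset_univ _)
  refine oc_le_of_inj hf (fun f => if f.2 = true then f.1 else K.pv f.1) ?_ ?_
  · rintro ⟨e, b⟩ ⟨h1, -⟩
    cases b
    · exact h1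
    · exact h1
  · rintro ⟨e, b⟩ ⟨h1, h2⟩ ⟨e', b'⟩ ⟨h1', h2'⟩ ⟨h, k⟩
    cases b <;> cases b'
    · have k : h • K.pv e = K.pv e' := k
      have k2 : K.nx (h • K.pv e) = K.nx (K.pv e') := by rw [k]
      rw [K.nx_smul, K.nx_pv, K.nx_pv] at k2
      exact ⟨h, Prod.ext k2 rfl⟩
    · have k : h • K.pv e = e' := k
      exfalso
      have a1 : K.c1 e' = h • K.c0 e := by
        rw [← k, K.c1_smul, K.c1_pv]
      have a2 : K.c2 e' = h • K.c1 e := by
        rw [← k, K.c2_smul, K.c2_pv]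
      have b1 : K.ar (K.c1 e) (K.c0 e) := h2
      have b2 : K.ar (K.c1 e') (K.c2 e') := h2'
      rw [a1, a2] at b2
      exact GX.not_both' (K.ar_smul h _ _ b1) b2
    · have k : h • e = K.pv e' := k
      exfalso
      have a1 : h • K.c1 e = K.c0 e' := by
        rw [← K.c1_smul, k, K.c1_pv]
      have a2 : h • K.c2 e = K.c1 e' := by
        rw [← K.c2_smul, k, K.c2_pv]
      have b1 : K.ar (K.c1 e) (K.c2 e) := h2
      have b2 : K.ar (K.c1 e') (K.c0 e') := h2'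
      rw [← a1, ← a2] at b2
      exact GX.not_both' (K.ar_smul h _ _ b1) b2
    · exact ⟨h, Prod.ext k rfl⟩

/-! ### the squares -/

theorem arr_pair {a b : V} (g : H) {x y : V} (h : K.ar x y) (e1 : a = g • x) (e2 : b = g • y) :
    K.ar a b := by
  rw [e1, e2]
  exact K.ar_smul g _ _ h

/-- a square has a top -/
theorem SqE.exists_top {E : V → Prop} (hs : P.SqE E) {a q b y : V} (k : Q4 P a q b y) :
    P.Top q a b y ∨ P.Top b q y a ∨ P.Top y b a q ∨ P.Top a y q b := by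
  have hj : ∀ j j' : Fin 4, j' = j ∨ j' = j + 1 ∨ j' = j + 2 ∨ j' = j + 3 := by decide
  have e11 : ∀ j : Fin 4, j + 1 + 1 = j + 2 := by decide
  have e13 : ∀ j : Fin 4, j + 1 + 3 = j := by decide
  have e21 : ∀ j : Fin 4, j + 2 + 1 = j + 3 := by decide
  have e23 : ∀ j : Fin 4, j + 2 + 3 = j + 1 := by decide
  have e31 : ∀ j : Fin 4, j + 3 + 1 = j := by decide
  have e33 : ∀ j : Fin 4, j + 3 + 3 = j + 2 := by decide
  have k0 := k
  obtain ⟨g, i, j, hi, k'⟩ := k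
  obtain ⟨j', h1, h2⟩ := hs.top i hi
  rcases k' with ⟨ea, eq, eb, ey⟩ | ⟨eb, eq, ea, ey⟩
  · rcases hj j j' with rfl | rfl | rfl | rfl
    · exact Or.inr (Or.inr (Or.inr ⟨k0.rot.rot.rot, arr_pair g h2 ea ey, arr_pair g h1 ea eq⟩))
    · rw [e11] at h1
      rw [e13] at h2
      exact Or.inl ⟨k0, arr_pair g h2 eq ea, arr_pair g h1 eq eb⟩
    · rw [e21] at h1
      rw [e23] at h2
      exact Or.inr (Or.inl ⟨k0.rot, arr_pair g h2 eb eq, arr_pair g h1 eb ey⟩)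
    · rw [e31] at h1
      rw [e33] at h2
      exact Or.inr (Or.inr (Or.inl ⟨k0.rot.rot, arr_pair g h2 ey eb, arr_pair g h1 ey ea⟩))
  · rcases hj j j' with rfl | rfl | rfl | rfl
    · exact Or.inr (Or.inl ⟨k0.rot, arr_pair g h1 eb eq, arr_pair g h2 eb ey⟩)
    · rw [e11] at h1
      rw [e13] at h2
      exact Or.inl ⟨k0, arr_pair g h1 eq ea, arr_pair g h2 eq eb⟩
    · rw [e21] at h1
      rw [e23] at h2
      exact Or.inr (Or.inr (Or.inr ⟨k0.rot.rot.rot, arr_pair g h1 ea ey, arr_pair g h2 ea eq⟩))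
    · rw [e31] at h1
      rw [e33] at h2
      exact Or.inr (Or.inr (Or.inl ⟨k0.rot.rot, arr_pair g h1 ey eb, arr_pair g h2 ey ea⟩))

/-- the walks of squares at an arrow, at most one for every arrow of a top -/
theorem oc_ZP_le {E : V → Prop} (hs : P.SqE E) : oc H P.ZP ≤ oc H P.TA := by
  refine oc_le_of_rel fin_TA (fun p t => (t = (p.2.2, p.1.1) ∧ P.Top p.2.2 p.1.1 p.2.1 p.1.2) ∨
    (t = (p.2.1, p.1.2) ∧ P.Top p.2.1 p.1.2 p.2.2 p.1.1)) ?_ ?_
  · rintro ⟨⟨T, a⟩, ⟨q, n⟩⟩ ⟨h1, h2, h3⟩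
    have h1 : Q4 P n T a q := h1
    have h2 : K.ar T a := h2
    have h3 : K.ar n T := h3
    rcases hs.exists_top h1 with k | k | k | k
    · exact (GX.not_both' h3 k.2.1).elim
    · exact (GX.not_both' h2 k.2.1).elim
    · exact ⟨(q, a), ⟨_, _, k⟩, Or.inr ⟨rfl, k⟩⟩
    · exact ⟨(n, T), ⟨_, _, k.symm'⟩, Or.inl ⟨rfl, k.symm'⟩⟩
  · rintro ⟨⟨T, a⟩, ⟨q, n⟩⟩ ⟨h1, h2, h3⟩ ⟨⟨T', a'⟩, ⟨q', n'⟩⟩ ⟨h1', h2', h3'⟩ t - t' - r r'
      ⟨g, e⟩
    have h2 : K.ar T a := h2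
    have h3 : K.ar n T := h3
    have h2' : K.ar T' a' := h2'
    have h3' : K.ar n' T' := h3'
    refine ⟨g, ?_⟩
    rcases r with ⟨e1, k⟩ | ⟨e1, k⟩ <;> rcases r' with ⟨e1', k'⟩ | ⟨e1', k'⟩
    · have k : P.Top n T q a := k
      have k' : P.Top n' T' q' a' := k'
      rw [e1, e1'] at e
      have ea : g • n = n' := congrArg Prod.fst e
      have eb : g • T = T' := congrArg Prod.snd e
      have hE : ¬ E n' := fun h => GX.not_both' h2' (hs.Ea _ _ _ _ k' h)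
      have kk := k.smul g
      rw [ea, eb] at kk
      obtain ⟨u1, u2⟩ := hs.uniq kk k' hE
      exact Prod.ext (Prod.ext eb u2) (Prod.ext u1 ea)
    · have k : P.Top n T q a := k
      have k' : P.Top q' a' n' T' := k'
      rw [e1, e1'] at e
      have ea : g • n = q' := congrArg Prod.fst e
      have eb : g • T = a' := congrArg Prod.snd e
      have hE : ¬ E q' := fun h => GX.not_both' h3' (hs.Ea _ _ _ _ k'.symm' h)
      have kk := k.smul g
      rw [ea, eb] at kk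
      obtain ⟨u1, u2⟩ := hs.uniq kk k' hE
      have h4 := K.ar_smul g _ _ h2
      rw [eb, u2] at h4
      exact (GX.not_both' h4 h2').elim
    · have k : P.Top q a n T := k
      have k' : P.Top n' T' q' a' := k'
      rw [e1, e1'] at e
      have ea : g • q = n' := congrArg Prod.fst e
      have eb : g • a = T' := congrArg Prod.snd e
      have hE : ¬ E n' := fun h => GX.not_both' h2' (hs.Ea _ _ _ _ k' h)
      have kk := k.smul g
      rw [ea, eb] at kk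
      obtain ⟨u1, u2⟩ := hs.uniq kk k' hE
      have h4 := K.ar_smul g _ _ h2
      rw [eb, u2] at h4
      exact (GX.not_both' h4 h2').elim
    · have k : P.Top q a n T := k
      have k' : P.Top q' a' n' T' := k'
      rw [e1, e1'] at e
      have ea : g • q = q' := congrArg Prod.fst e
      have eb : g • a = a' := congrArg Prod.snd e
      have hE : ¬ E q' := fun h => GX.not_both' h3' (hs.Ea _ _ _ _ k'.symm' h)
      have kk := k.smul g
      rw [ea, eb] at kk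
      obtain ⟨u1, u2⟩ := hs.uniq kk k' hE
      exact Prod.ext (Prod.ext u2 eb) (Prod.ext ea u1)

/-! ### the bound -/

/-- the strands at the arrows of the tops -/
theorem sX_TA_le {E : V → Prop} (hs : P.SqE E) : P.sX P.TA ≤ 5 * K.area + oc H P.TA := by
  have h1 : oc H {f : FL K | f ∈ P.RP ∧ (fy f, fz f) ∈ P.TA} ≤ oc H P.RP :=
    oc_mono fin_RP fun _ k => k.1
  have h2 : oc H {p : (V × V) × (V × V) | p ∈ P.ZP ∧ p.1 ∈ P.TA} ≤ oc H P.ZP :=
    oc_mono fin_ZP fun _ k => k.1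
  have h3 := oc_RP_le (P := P)
  have h4 := oc_ZP_le hs
  unfold sX
  omega

/-! ### the bound -/

/-- monotone in the set of arrows -/
theorem sm_mono {A B : Set (V × V)} (hA : ∀ h : H, ∀ p ∈ A, h • p ∈ A)
    (hB : ∀ h : H, ∀ p ∈ B, h • p ∈ B) (hAB : A ⊆ B) (hBT : B ⊆ P.TA)
    (h1 : ∀ p ∈ P.TA, 1 ≤ P.X p.1 p.2) : P.sm A ≤ P.sm B := by
  have fA : (orbs H A).Finite := fin_of (hAB.trans hBT)
  have fB : (orbs H B).Finite := fin_of hBT
  unfold sm
  rw [sub_eq hA fA (fun p hp => h1 p (hBT (hAB hp))), sub_eq hB fB (fun p hp => h1 p (hBT hp))]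
  apply Finset.sum_le_sum_of_subset
  intro c hc
  rw [Set.Finite.mem_toFinset] at hc ⊢
  exact Pool.Agent.SAF.orbs_mono hAB hc

theorem sm_TA_le {E : V → Prop} (hs : P.SqE E) : P.sm P.TA ≤ 5 * K.area := by
  have a3 := sX_TA_le hs
  unfold sm
  omega

theorem sm_le {E : V → Prop} (hs : P.SqE E) {A : Set (V × V)}
    (hA : ∀ h : H, ∀ p ∈ A, h • p ∈ A) (hAT : A ⊆ P.TA) (h1 : ∀ p ∈ P.TA, 1 ≤ P.X p.1 p.2) :
    P.sm A ≤ 5 * K.area :=
  (sm_mono hA TA_smul hAT le_rfl h1).trans (sm_TA_le hs)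

/-- THE BOUND of sigma -/
theorem Cls.sigma_le (hc : P.Cls) : P.sigma ≤ 35 * K.area := by
  have a1 := sm_le hc.toSqE U_smul U_sub hc.x1
  have a2 := sm_le hc.toSqE Dm_smul Dm_sub hc.x1
  unfold sigma
  omega

end P45

end Pool.Agent.DI
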