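import Pool.Agent.DI.SgD
import Pool.Agent.DI.XtB

/-!
# DI/SgC: sigma as one sum over the counted arrows

`P.CA = P.U ∪ P.Dm`: the counted arrows; `P.val`: `4 (X - 1)` on `P.U`, `3 (X - 1)` on `P.Dm`.
`sigma_os : P.sigma = os H P.CA P.val`.
-/

namespace Pool.Agent.DI

open MulAction
open Pool.Agent.SAF (orbs FinOrb oc FinOrb_iff oc_mono oc_le_of_inj oc_le_of_surj oc_le_of_rel
  mk_eq_iff orbs_mono exists_rep)

section os

variable {G : Type} [Group G] {W : Type} [MulAction G W]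

/-- multiples -/
theorem os_mul {A : Set W} (h : FinOrb G A) (n : ℕ) (X : W → ℕ) :
    os G A (fun p => n * X p) = n * os G A X := by
  rw [os_eq h, os_eq h, Finset.mul_sum]

/-- the sum over the orbits of a function on the orbits -/
theorem os_fun {A : Set W} (h : FinOrb G A) {X : W → ℕ} {F : orbitRel.Quotient G W → ℕ}
    (hF : ∀ p, F (Quotient.mk'' p) = X p) : os G A X = ∑ c ∈ h.toFinset, F c := by
  rw [os_eq h]
  refine Finset.sum_congr rfl fun q hq => ?_
  rw [← hF, rp_mk _ (h.mem_toFinset.1 hq)]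

/-- two disjoint invariant sets -/
theorem os_union {A B : Set W} (hA : FinOrb G A) (hB : FinOrb G B)
    (iA : ∀ (g : G), ∀ p ∈ A, g • p ∈ A) (hd : ∀ p ∈ A, p ∉ B) {X : W → ℕ}
    (hX : ∀ (g : G) p, X (g • p) = X p) : os G (A ∪ B) X = os G A X + os G B X := by
  classical
  let F : orbitRel.Quotient G W → ℕ := fun q => X (Quotient.out q)
  have hF : ∀ p : W, F (Quotient.mk'' p) = X p := by
    intro p
    show X (Quotient.out (Quotient.mk'' p : orbitRel.Quotient G W)) = X p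
    obtain ⟨g, hg⟩ := mk_eq_iff.1 (Quotient.out_eq' (Quotient.mk'' p : orbitRel.Quotient G W))
    rw [← hg]
    exact hX g p
  have hAB : FinOrb G (A ∪ B) := by
    refine (Set.Finite.union hA hB).subset ?_
    rintro _ ⟨p, h | h, rfl⟩
    · exact Or.inl ⟨p, h, rfl⟩
    · exact Or.inr ⟨p, h, rfl⟩
  rw [os_fun hAB hF, os_fun hA hF, os_fun hB hF, ← Finset.sum_union]
  · refine Finset.sum_congr ?_ fun _ _ => rfl
    ext q
    rw [Finset.mem_union, hAB.mem_toFinset, hA.mem_toFinset, hB.mem_toFinset]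
    constructor
    · rintro ⟨p, h | h, rfl⟩
      · exact Or.inl ⟨p, h, rfl⟩
      · exact Or.inr ⟨p, h, rfl⟩
    · rintro (⟨p, h, rfl⟩ | ⟨p, h, rfl⟩)
      · exact ⟨p, Or.inl h, rfl⟩
      · exact ⟨p, Or.inr h, rfl⟩
  · rw [Finset.disjoint_left]
    intro q h1 h2
    obtain ⟨p, hp, rfl⟩ := hA.mem_toFinset.1 h1
    obtain ⟨p', hp', e⟩ := hB.mem_toFinset.1 h2
    obtain ⟨g, hg⟩ := mk_eq_iff.1 e.symm
    have hg' : g • p' = p := hg
    have : g⁻¹ • p = p' := by rw [← hg', inv_smul_smul]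
    exact hd _ (iA g⁻¹ p hp) (by rw [this]; exact hp')

end os

namespace P45

variable {H V : Type} [Group H] [MulAction H V] {K : GX H V} (P : P45 K)

/-- THE COUNTED ARROWS: the upper arrows of the gamma tops, the arrows of the diamond tops -/
def CA : Set (V × V) := P.U ∪ P.Dm

open Classical in
/-- the value of a counted arrow -/
noncomputable def val (p : V × V) : ℕ :=
  if p ∈ P.U then 4 * (P.X p.1 p.2 - 1) else 3 * (P.X p.1 p.2 - 1)

variable {P}

theorem CA_smul (h : H) : ∀ p ∈ P.CA, h • p ∈ P.CA := by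
  rintro p (k | k)
  · exact Or.inl (U_smul h p k)
  · exact Or.inr (Dm_smul h p k)

theorem CA_sub : P.CA ⊆ P.TA := Set.union_subset U_sub Dm_sub

theorem fin_CA : FinOrb H P.CA := fin_of CA_sub

theorem val_U {p : V × V} (h : p ∈ P.U) : P.val p = 4 * (P.X p.1 p.2 - 1) := if_pos h

theorem val_nU {p : V × V} (h : p ∉ P.U) : P.val p = 3 * (P.X p.1 p.2 - 1) := if_neg h

theorem val_smul (h : H) (p : V × V) : P.val (h • p) = P.val p := by
  have e : P.X (h • p).1 (h • p).2 = P.X p.1 p.2 := X_smul h p.1 p.2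
  by_cases k : p ∈ P.U
  · rw [val_U k, val_U (U_smul h p k), e]
  · have k' : h • p ∉ P.U := by
      intro l
      apply k
      have := U_smul h⁻¹ _ l
      rwa [inv_smul_smul] at this
    rw [val_nU k, val_nU k', e]

theorem val_le (p : V × V) : P.val p ≤ 4 * (P.X p.1 p.2 - 1) := by
  by_cases k : p ∈ P.U
  · rw [val_U k]
  · rw [val_nU k]
    omega

theorem le_val (p : V × V) : 3 * (P.X p.1 p.2 - 1) ≤ P.val p := by
  by_cases k : p ∈ P.U
  · rw [val_U k]
    omega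
  · rw [val_nU k]

/-- no arrow is upper arrow of a gamma top and arrow of a diamond top -/
theorem SqE.U_Dm {E : V → Prop} (hs : P.SqE E) : ∀ p ∈ P.U, p ∉ P.Dm := by
  rintro p ⟨b, y, k, k1, k2⟩ ⟨b', y', l, l1, l2⟩
  obtain ⟨rfl, rfl⟩ := hs.uniq k l fun hE => GX.not_both' k1 (hs.Ea _ _ _ _ k hE)
  have h1 := K.ar_rk _ _ k2
  have h2 := K.ar_rk _ _ l2
  omega

/-- SIGMA IS THE SUM OF THE VALUES -/
theorem sm_os {A : Set (V × V)} (hi : ∀ h : H, ∀ p ∈ A, h • p ∈ A) (hA : FinOrb H A)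
    (h1 : ∀ p ∈ A, 1 ≤ P.X p.1 p.2) : P.sm A = os H A (fun p => P.X p.1 p.2 - 1) := by
  have h2 : P.sm A = ∑ c ∈ hA.toFinset, (P.Xo c - 1) := sub_eq hi hA h1
  rw [h2]
  symm
  refine os_fun hA (F := fun c => P.Xo c - 1) fun p => ?_
  show P.Xo (omk H (p.1, p.2)) - 1 = _
  rw [← X_eq]

theorem sigma_os' (hd : ∀ p ∈ P.U, p ∉ P.Dm) (h1 : ∀ p ∈ P.CA, 1 ≤ P.X p.1 p.2) :
    P.sigma = os H P.CA P.val := by
  have e1 : os H P.U P.val = 4 * P.sm P.U := by
    rw [sm_os U_smul (fin_of U_sub) (fun p hp => h1 p (Or.inl hp)), ← os_mul (fin_of U_sub)]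
    exact os_congr (fin_of U_sub) fun p hp => val_U hp
  have e2 : os H P.Dm P.val = 3 * P.sm P.Dm := by
    rw [sm_os Dm_smul (fin_of Dm_sub) (fun p hp => h1 p (Or.inr hp)), ← os_mul (fin_of Dm_sub)]
    exact os_congr (fin_of Dm_sub) fun p hp => val_nU fun k => hd p k hp
  have e3 : os H P.CA P.val = os H P.U P.val + os H P.Dm P.val :=
    os_union (fin_of U_sub) (fin_of Dm_sub) U_smul hd val_smul
  rw [e3, e1, e2]
  rfl

theorem sigma_os {E : V → Prop} (hs : P.SqE E) (h1 : ∀ p ∈ P.CA, 1 ≤ P.X p.1 p.2) :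
    P.sigma = os H P.CA P.val := sigma_os' hs.U_Dm h1

end P45

end Pool.Agent.DI
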