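import Pool.Agent.DI.SgE
import Pool.Agent.DI.SgC
import Pool.Agent.DI.CarK

/-!
# DI/SgL: the carriers of the counted arrows in the folded slice

`S.Ca w O p k`: the counted arrow `p` of `K` is carried at `w` by the arrow `k` of the folded slice. The
place is the point of `J a ∩ J y` if `p = (T, a)` is the upper arrow of a gamma top and this point is bad,
the point of `J T ∩ J a` otherwise. `Ca.cases`: near star of `T` over `a`, near star of `a` over the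
partner, two-pole star of `T`, local square. `Ca.mem`: the carrier is a counted arrow.
-/

namespace Pool.Agent.DI

open MulAction
open Pool.Agent.SAF (InC orbs FinOrb oc Decomp SAn SA Conv hull dist_edge FinOrb_iff exists_next
  mk_eq_iff)
open Pool.Agent.BT (PX PQ JS bey exits lz lz_self lz_ne lz_symm x_next_unique)
open Pool.Agent.BT.TA

namespace SyQ

variable {H V : Type} [Group H] [MulAction H V] (S : SyQ H V)

/-- `q` is a bad vertex: in the orbit of `w` -/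
def Bd (w q : S.X) : Prop := ∃ h : H, h • w = q

/-- upper arrows of gamma tops whose partner meets the side at another bad vertex -/
def GB (w : S.X) (p : V × V) : Prop := ∃ b y q, S.P.Top p.1 p.2 b y ∧ S.K.ar p.2 y ∧
  S.K.ar y b ∧ q ∈ S.J p.2 ∧ q ∈ S.J y ∧ q ∉ S.J p.1 ∧ S.Bd w q

/-- THE CARRIERS -/
def Ca (w : S.X) (O : S.OR w) (p : V × V) (k : S.Q w O × S.Q w O) : Prop :=
  p ∈ S.P.CA ∧ w ∈ S.J p.2 ∧
  ((¬ S.GB w p ∧ w ∈ S.J p.1 ∧ k = (S.fq w O (S.rho w p.1), S.fq w O (S.rho w p.2))) ∨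
   ∃ b y, S.P.Top p.1 p.2 b y ∧ S.K.ar p.2 y ∧ S.K.ar y b ∧ w ∈ S.J y ∧ w ∉ S.J p.1 ∧
     k = (S.fq w O (S.rho w p.2), S.fq w O (S.rho w y)))

/-- WHAT IS USED OF THE FOLD -/
structure SgO (w : S.X) (O : S.OR w) (E : V → Prop) : Prop where
  nf : O.Nf
  kin : S.KIn w
  sq : S.P.SqE E
  /-- nothing lies over a folded hub -/
  n7 : ∀ u q z x, S.Qs w u q z x → w ∈ S.J q → S.K.ar q z → S.K.ar x q → O.op u q
  /-- an old top is not folded -/
  n8 : ∀ T a b y, S.P.Top T a b y → (T, a) ∈ S.P.CA → w ∈ S.J T → w ∈ S.J a → w ∈ S.J b →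
    ∀ u, S.D.G.Adj w u → O.op u T
  /-- the sides of an old top are not identified -/
  nab : ∀ T a b y, S.P.Top T a b y → (T, a) ∈ S.P.CA → w ∈ S.J T → w ∈ S.J a → w ∈ S.J b →
    S.fq w O (S.rho w a) ≠ S.fq w O (S.rho w b)
  /-- placement -/
  pl : ∀ p ∈ S.P.CA, ¬ S.GB w p → ∃ q, q ∈ S.J p.1 ∧ q ∈ S.J p.2 ∧ S.Bd w q

variable {S}

theorem Bd.self (w : S.X) : S.Bd w w := ⟨1, one_smul _ _⟩

theorem Bd.smul (g : H) {w q : S.X} (h : S.Bd w q) : S.Bd w (g • q) := by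
  obtain ⟨h, rfl⟩ := h
  exact ⟨g * h, mul_smul _ _ _⟩

theorem GB.smul (g : H) {w : S.X} {p : V × V} (h : S.GB w p) : S.GB w (g • p) := by
  obtain ⟨b, y, q, h1, h2, h3, h4, h5, h6, h7⟩ := h
  refine ⟨g • b, g • y, g • q, h1.smul g, S.K.ar_smul g _ _ h2, S.K.ar_smul g _ _ h3,
    S.js.smul g _ _ h4, S.js.smul g _ _ h5, ?_, h7.smul g⟩
  intro k
  apply h6
  have k : g • q ∈ S.J (g • p.1) := k
  have := S.js.smul g⁻¹ _ _ k
  rwa [inv_smul_smul, inv_smul_smul] at this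

theorem GB.smul_iff (g : H) {w : S.X} {p : V × V} : S.GB w (g • p) ↔ S.GB w p := by
  refine ⟨fun h => ?_, fun h => h.smul g⟩
  have := h.smul g⁻¹
  rwa [inv_smul_smul] at this

/-! ### no passing merges -/

section Fold

variable {w : S.X} {O : S.OR w} {E : V → Prop}

theorem SgO.chain (h : S.SgO w O E) {u : S.X} {s x y : V} (hs : w ∈ S.J s) (ho : ¬ O.op u s)
    (g : S.Gc w u s x y) : S.K.ar x s ↔ S.K.ar y s := by
  induction g with
  | rel x y k =>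
    constructor
    · intro e
      rcases k.E2 with e' | e'
      · exact e'
      · exact absurd (h.n7 u s y x k.symm' hs e' e) ho
    · intro e
      rcases k.E1 with e' | e'
      · exact e'
      · exact absurd (h.n7 u s x y k hs e' e) ho
  | refl x => exact Iff.rfl
  | symm x y _ ih => exact ih.symm
  | trans x y z _ _ i1 i2 => exact i1.trans i2

/-- there are no passing merges -/
theorem SgO.nDn (h : S.SgO w O E) (z x : V) : ¬ S.Dn w O z x := by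
  rintro ⟨u, s, hu, hc, h1, h2, h3, h4, h5⟩
  exact GX.ck_asym ((h.chain h2 h3.2 h5).1 h1) h4

/-- the arrows of a vertex which is not folded to a sink -/
theorem SgO.ar (h : S.SgO w O E) {x y : V} (hx : w ∈ S.J x)
    (hs : ∀ v : S.EV w, ¬ S.Sk w O v (Sum.inl ⟨x, hx⟩)) (hy : w ∈ S.J y) (e : S.K.ar x y) :
    S.arQ w O (S.fq w O (S.rho w x)) (S.fq w O (S.rho w y)) :=
  arQ_term hx hs (h.nDn x) (sar_hor hx hy e)

end Fold

/-! ### the kinds of the carriers -/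

section Kinds

/-- the square of a counted arrow -/
theorem CA_ex {T a : V} (hp : (T, a) ∈ S.P.CA) : ∃ b y, S.P.Top T a b y ∧ S.K.ar a y := by
  rcases hp with ⟨b, y, k, k1, -⟩ | ⟨b, y, k, k1, -⟩
  · exact ⟨b, y, k, k1⟩
  · exact ⟨b, y, k, k1⟩

variable {w : S.X} {O : S.OR w} {E : V → Prop} (h : S.SgO w O E)

include h

/-- the top of a counted arrow is not an opened soft -/
theorem SgO.nE {T a : V} (hp : (T, a) ∈ S.P.CA) : ¬ E T := by
  obtain ⟨b, y, ht, e⟩ := CA_ex hp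
  exact fun k => GX.ck_asym e (h.sq.Ea _ _ _ _ ht k)

theorem SgO.ar_y {T a b y : V} (hp : (T, a) ∈ S.P.CA) (ht : S.P.Top T a b y) : S.K.ar a y := by
  obtain ⟨b', y', ht', e⟩ := CA_ex hp
  obtain ⟨rfl, rfl⟩ := h.sq.uniq ht ht' (h.nE hp)
  exact e

/-- CASE 1 at the end of the side -/
theorem SgO.k1 {T a b y : V} (hp : (T, a) ∈ S.P.CA) (ht : S.P.Top T a b y) {q : S.X}
    (k : S.Cas1 T a b y w q) : ∃ u, S.KN w O u a y T := by
  obtain ⟨u, hb⟩ := exists_Bt S.D.tree (Sgm.left w q) k.ne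
  have e := h.ar_y hp ht
  have hq := Al.qs k ht.q4' hb
  exact ⟨u, Cas1.kn ht k hb e (h.n7 u a y T hq.symm' k.p1 e ht.2.1)⟩

/-- CASE 2 at the top -/
theorem SgO.k2 {T a b y : V} (hp : (T, a) ∈ S.P.CA) (ht : S.P.Top T a b y) {q : S.X}
    (k : S.Cas2 T a b y w q) : ∃ u, S.KH w O u T a b := by
  obtain ⟨u, hb⟩ := exists_Bt S.D.tree (Sgm.left w q) k.ne
  exact ⟨u, Cas2.kh ht (h.sq.nab _ _ _ _ ht) k hb (h.n8 _ _ _ _ ht hp k.p1 k.p0 k.p2 u hb.1)⟩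

/-- CASE 2 at the partner, gamma -/
theorem SgO.k3 {T a b y : V} (ht : S.P.Top T a b y) {p : S.X} (k : S.Cas2 T a b y p w)
    (e : S.K.ar a y) (e' : S.K.ar y b) : ∃ u, S.KN w O u y b a := by
  obtain ⟨u, hb⟩ := exists_Bt S.D.tree (Sgm.left w p) k.ne.symm
  have hq := Al.qs' k ht.1 hb.symm
  exact ⟨u, Cas2.kn ht k hb e e' (h.n7 u y b a hq.symm' k.q3 e' e)⟩

/-- THE KINDS OF THE CARRIERS -/
theorem Ca.cases {T a : V} {k : S.Q w O × S.Q w O} (hk : S.Ca w O (T, a) k) :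
    (T, a) ∈ S.P.CA ∧ ∃ b y, S.P.Top T a b y ∧ S.K.ar a y ∧
    ((∃ u, S.KN w O u a y T ∧ k = (S.fq w O (S.rho w T), S.fq w O (S.rho w a))) ∨
     (∃ u, S.KN w O u y b a ∧ (T, a) ∈ S.P.U ∧
        k = (S.fq w O (S.rho w a), S.fq w O (S.rho w y))) ∨
     (∃ u, S.KH w O u T a b ∧ k = (S.fq w O (S.rho w T), S.fq w O (S.rho w a))) ∨
     (S.Loc w T a b y ∧ k = (S.fq w O (S.rho w T), S.fq w O (S.rho w a)))) := by
  obtain ⟨hp, ha, hk⟩ := hk
  obtain ⟨b, y, ht, e⟩ := CA_ex hp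
  refine ⟨hp, b, y, ht, e, ?_⟩
  rcases hk with ⟨-, hT, rfl⟩ | ⟨b', y', ht', e1, e2, hy, hT, rfl⟩
  · have hT : w ∈ S.J T := hT
    have ha : w ∈ S.J a := ha
    rcases ht.pos4 with ⟨p, q, c⟩ | ⟨p, q, c⟩ | ⟨p, c⟩
    · obtain rfl : p = w := S.one_eq (Or.inl ht.2.1) c.p0 c.p1 hT ha
      obtain ⟨u, k⟩ := h.k1 hp ht c
      exact Or.inl ⟨u, k, rfl⟩
    · obtain rfl : p = w := S.one_eq (Or.inl ht.2.1) c.p1 c.p0 hT ha
      obtain ⟨u, k⟩ := h.k2 hp ht c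
      exact Or.inr (Or.inr (Or.inl ⟨u, k, rfl⟩))
    · obtain rfl : p = w := S.one_eq (Or.inl ht.2.1) c.p1 c.p0 hT ha
      exact Or.inr (Or.inr (Or.inr ⟨Cas3.loc c, rfl⟩))
  · obtain ⟨rfl, rfl⟩ := h.sq.uniq ht ht' (h.nE hp)
    have hT : w ∉ S.J T := hT
    have ha : w ∈ S.J a := ha
    rcases ht.pos4 with ⟨p, q, c⟩ | ⟨p, q, c⟩ | ⟨p, c⟩
    · obtain rfl : p = w := S.one_eq (Or.inl e) c.p1 c.p2 ha hy
      exact absurd c.p0 hT
    · obtain rfl : q = w := S.one_eq (Or.inl e) c.q0 c.q3 ha hy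
      obtain ⟨u, k⟩ := h.k3 ht c e1 e2
      exact Or.inr (Or.inl ⟨u, k, ⟨_, _, ht, e1, e2⟩, rfl⟩)
    · obtain rfl : p = w := S.one_eq (Or.inl e) c.p0 c.p3 ha hy
      exact absurd c.p1 hT

end Kinds

/-! ### the carriers are counted arrows -/

section Img

variable {hc : S.Conn} {w : S.X} {O : S.OR w} {hm : (S.k0 hc w).Min} {hn : S.SqN w O}
  {E : V → Prop}

/-- a near star gives an upper arrow of a gamma top -/
theorem KN.U (hO : O.Nf) {u : S.X} {q z x : V} (h : S.KN w O u q z x) :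
    (S.fq w O (S.rho w x), S.fq w O (S.rho w q)) ∈ (S.kfP hc w O hm hn).U := by
  obtain ⟨a1, a2, a3, a4⟩ := h.arrows hO
  exact ⟨_, _, h.Top hO, a3, a4⟩

/-- an open two-pole star gives two arrows of a diamond top -/
theorem KH.Dm (hO : O.Nf) {u : S.X} {q z x : V} (h : S.KH w O u q z x)
    (hne : S.fq w O (S.rho w z) ≠ S.fq w O (S.rho w x)) :
    (S.fq w O (S.rho w q), S.fq w O (S.rho w z)) ∈ (S.kfP hc w O hm hn).Dm := by
  obtain ⟨a1, a2, a3, a4⟩ := h.arrows hO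
  exact ⟨_, _, h.Top hO hne, a3, a4⟩

theorem KH.symm' {u : S.X} {q z x : V} (h : S.KH w O u q z x) : S.KH w O u q x z :=
  ⟨h.1.symm', h.2.1, h.2.2.2.1, h.2.2.1, h.2.2.2.2.symm⟩

/-- local squares: a gamma square stays a gamma square, or its partner is folded to a sink -/
theorem SgO.loc_U (h : S.SgO w O E) {T a b y : V} (ht : S.P.Top T a b y)
    (hp : (T, a) ∈ S.P.U) (hl : S.Loc w T a b y) :
    (S.fq w O (S.rho w T), S.fq w O (S.rho w a)) ∈ (S.kfP hc w O hm hn).U ∨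
    ∃ v : S.EV w, S.fq w O (S.rho w y) = S.fq w O (Sum.inr v) ∧
      S.arQ w O (S.fq w O (S.rho w a)) (S.fq w O (S.rho w y)) ∧
      S.arQ w O (S.fq w O (S.rho w b)) (S.fq w O (S.rho w y)) := by
  have hp' : (T, a) ∈ S.P.CA := Or.inl hp
  obtain ⟨b', y', ht', e1, e2⟩ := hp
  obtain ⟨rfl, rfl⟩ := h.sq.uniq ht ht' (h.nE hp')
  have hab := h.nab _ _ _ _ ht hp' hl.1 hl.2.1 hl.2.2.1
  have hT := loc_Top (hm := hm) (hn := hn) h.nf h.kin ht hl (h.sq.nTy _ _ _ _ ht) hab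
  have ea : S.arQ w O (S.fq w O (S.rho w a)) (S.fq w O (S.rho w y)) :=
    h.ar hl.2.1 (fun v => h.nf.side_nsk ht hl hl.2.1 v) hl.2.2.2 e1
  by_cases hs : ∃ v : S.EV w, S.Sk w O v (Sum.inl ⟨y, hl.2.2.2⟩)
  · obtain ⟨v, hv⟩ := hs
    have ey : S.fq w O (S.rho w y) = S.fq w O (Sum.inr v) := by
      rw [S.rho_near hl.2.2.2]
      exact fq_inr.2 hv
    have cb := (Sk.inl.1 hv).1.1.two e2
    refine Or.inr ⟨v, ey, ea, ?_⟩
    rw [ey]
    exact arQ_up v.2 cb.2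
  · push Not at hs
    left
    exact ⟨_, _, hT, ea, h.ar hl.2.2.2 hs hl.2.2.1 e2⟩

/-- local squares: a diamond stays a diamond -/
theorem SgO.loc_Dm (h : S.SgO w O E) {T a b y : V} (ht : S.P.Top T a b y)
    (hp : (T, a) ∈ S.P.Dm) (hl : S.Loc w T a b y) :
    (S.fq w O (S.rho w T), S.fq w O (S.rho w a)) ∈ (S.kfP hc w O hm hn).Dm := by
  have hp' : (T, a) ∈ S.P.CA := Or.inr hp
  obtain ⟨b', y', ht', e1, e2⟩ := hp
  obtain ⟨rfl, rfl⟩ := h.sq.uniq ht ht' (h.nE hp')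
  have hab := h.nab _ _ _ _ ht hp' hl.1 hl.2.1 hl.2.2.1
  have hT := loc_Top (hm := hm) (hn := hn) h.nf h.kin ht hl (h.sq.nTy _ _ _ _ ht) hab
  have ea : S.arQ w O (S.fq w O (S.rho w a)) (S.fq w O (S.rho w y)) :=
    h.ar hl.2.1 (fun v => h.nf.side_nsk ht hl hl.2.1 v) hl.2.2.2 e1
  have eb : S.arQ w O (S.fq w O (S.rho w b)) (S.fq w O (S.rho w y)) :=
    h.ar hl.2.2.1 (fun v => h.nf.side_nsk ht.symm' ⟨hl.1, hl.2.2.1, hl.2.1, hl.2.2.2⟩ hl.2.2.1 v)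
      hl.2.2.2 e2
  exact ⟨_, _, hT, ea, eb⟩

/-- THE CARRIER IS A COUNTED ARROW -/
theorem Ca.mem (h : S.SgO w O E) {p : V × V} {k : S.Q w O × S.Q w O} (hk : S.Ca w O p k) :
    k ∈ (S.kfP hc w O hm hn).CA := by
  obtain ⟨T, a⟩ := p
  obtain ⟨hp, b, y, ht, e, ⟨u, l, rfl⟩ | ⟨u, l, -, rfl⟩ | ⟨u, l, rfl⟩ | ⟨hl, rfl⟩⟩ :=
    Ca.cases h hk
  · exact Or.inl (l.U h.nf)
  · exact Or.inl (l.U h.nf)
  · exact Or.inr (l.Dm h.nf (h.nab _ _ _ _ ht hp (O.near u T l.2.1) l.1.l.1 l.1.r.1))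
  · rcases hp with hp | hp
    · rcases h.loc_U (hm := hm) (hn := hn) ht hp hl with k | ⟨v, ey, ea, eb⟩
      · exact Or.inl k
      · have hab := h.nab _ _ _ _ ht (Or.inl hp) hl.1 hl.2.1 hl.2.2.1
        have hT := loc_Top (hm := hm) (hn := hn) h.nf h.kin ht hl (h.sq.nTy _ _ _ _ ht) hab
        exact Or.inr ⟨_, _, hT, ea, eb⟩
    · exact Or.inr (h.loc_Dm ht hp hl)

end Img

/-! ### the relation of the carriers -/

section Rel

variable {w : S.X} {O : S.OR w} {E : V → Prop}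

theorem fr_smul (g : ↥(stabilizer H w)) (x : V) :
    S.fq w O (S.rho w (g.1 • x)) = g • S.fq w O (S.rho w x) := by
  rw [S.rho_smul, fq_smul]

theorem mem_smul (g : ↥(stabilizer H w)) {x : V} (h : w ∈ S.J x) : w ∈ S.J (g.1 • x) := by
  have := S.js.smul g.1 _ _ h
  rwa [show g.1 • w = w from g.2] at this

theorem Ca.smul (g : ↥(stabilizer H w)) {p : V × V} {k : S.Q w O × S.Q w O}
    (h : S.Ca w O p k) : S.Ca w O (g • p) (g • k) := by
  obtain ⟨hp, ha, hk⟩ := h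
  refine ⟨P45.CA_smul g.1 p hp, mem_smul g ha, ?_⟩
  rcases hk with ⟨h1, h2, rfl⟩ | ⟨b, y, h1, h2, h3, h4, h5, rfl⟩
  · refine Or.inl ⟨fun k => h1 ((GB.smul_iff g.1).1 k), mem_smul g h2, ?_⟩
    exact Prod.ext (fr_smul g p.1).symm (fr_smul g p.2).symm
  · refine Or.inr ⟨g.1 • b, g.1 • y, h1.smul g.1, S.K.ar_smul _ _ _ h2, S.K.ar_smul _ _ _ h3,
      mem_smul g h4, ?_, ?_⟩
    · intro k
      apply h5
      have k : w ∈ S.J (g.1 • p.1) := k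
      have := mem_smul g⁻¹ k
      have e : (g⁻¹).1 • g.1 • p.1 = p.1 := inv_smul_smul g.1 p.1
      rwa [e] at this
    · exact Prod.ext (fr_smul g p.2).symm (fr_smul g y).symm

theorem Ca.fun (h : S.SgO w O E) {p : V × V} {k k' : S.Q w O × S.Q w O} (hk : S.Ca w O p k)
    (hk' : S.Ca w O p k') : k = k' := by
  obtain ⟨hp, ha, hk⟩ := hk
  obtain ⟨-, -, hk'⟩ := hk'
  rcases hk with ⟨h1, h2, rfl⟩ | ⟨b, y, h1, h2, h3, h4, h5, rfl⟩ <;>
    rcases hk' with ⟨h1', h2', rfl⟩ | ⟨b', y', h1', h2', h3', h4', h5', rfl⟩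
  · rfl
  · exact absurd h2 h5'
  · exact absurd h2' h5
  · obtain ⟨T, a⟩ := p
    obtain ⟨rfl, rfl⟩ := h.sq.uniq h1 h1' (h.nE hp)
    rfl

theorem Ca.ex (h : S.SgO w O E) {p : V × V} (hp : p ∈ S.P.CA) :
    ∃ (g : H) (k : S.Q w O × S.Q w O), S.Ca w O (g • p) k := by
  by_cases hg : S.GB w p
  · obtain ⟨b, y, q, h1, h2, h3, h4, h5, h6, g, hq⟩ := hg
    have hgp : ∀ {x : V}, q ∈ S.J x → w ∈ S.J (g⁻¹ • x) := by
      intro x hx
      have := S.js.smul g⁻¹ _ _ hx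
      rwa [← hq, inv_smul_smul] at this
    refine ⟨g⁻¹, _, P45.CA_smul g⁻¹ p hp, hgp h4, Or.inr ⟨g⁻¹ • b, g⁻¹ • y, h1.smul g⁻¹,
      S.K.ar_smul _ _ _ h2, S.K.ar_smul _ _ _ h3, hgp h5, ?_, rfl⟩⟩
    intro k
    apply h6
    have k : w ∈ S.J (g⁻¹ • p.1) := k
    have := S.js.smul g _ _ k
    rwa [smul_inv_smul, hq] at this
  · obtain ⟨q, h1, h2, g, hq⟩ := h.pl p hp hg
    have hgp : ∀ {x : V}, q ∈ S.J x → w ∈ S.J (g⁻¹ • x) := by
      intro x hx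
      have := S.js.smul g⁻¹ _ _ hx
      rwa [← hq, inv_smul_smul] at this
    exact ⟨g⁻¹, _, P45.CA_smul g⁻¹ p hp, hgp h2, Or.inl ⟨fun k => hg ((GB.smul_iff g⁻¹).1 k),
      hgp h1, rfl⟩⟩

theorem Ca.slice {p : V × V} (h : S.SgO w O E) {k k' : S.Q w O × S.Q w O} {g : H}
    (hk : S.Ca w O p k) (hk' : S.Ca w O (g • p) k') : g • w = w := by
  obtain ⟨T, a⟩ := p
  have bk : ∀ {x : V}, w ∈ S.J (g • x) → g⁻¹ • w ∈ S.J x := by
    intro x hx
    have := S.js.smul g⁻¹ _ _ hx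
    rwa [inv_smul_smul] at this
  have fin : g⁻¹ • w = w → g • w = w := fun e => by
    rw [inv_smul_eq_iff] at e
    exact e.symm
  obtain ⟨hp, ha, hk⟩ := hk
  obtain ⟨-, ha', hk'⟩ := hk'
  have ha : w ∈ S.J a := ha
  have ha' : w ∈ S.J (g • a) := ha'
  obtain ⟨b0, y0, ht0, -⟩ := CA_ex hp
  rcases hk with ⟨h1, h2, rfl⟩ | ⟨b, y, h1, h2, h3, h4, h5, rfl⟩ <;>
    rcases hk' with ⟨h1', h2', rfl⟩ | ⟨b', y', h1', h2', h3', h4', h5', rfl⟩
  · have h2' : w ∈ S.J (g • T) := h2'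
    exact fin (S.one_eq (Or.inl ht0.2.1) (bk h2') (bk ha') h2 ha)
  · exfalso
    have h1' : S.P.Top (g • T) (g • a) b' y' := h1'
    exact h1 ((GB.smul_iff g).1 ⟨b', y', w, h1', h2', h3', ha', h4', h5', Bd.self w⟩)
  · exfalso
    exact h1' (GB.smul g ⟨b, y, w, h1, h2, h3, ha, h4, h5, Bd.self w⟩)
  · have h1 : S.P.Top T a b y := h1
    have h2 : S.K.ar a y := h2
    have h1' : S.P.Top (g • T) (g • a) b' y' := h1'
    obtain ⟨e1, e2⟩ := h.sq.uniq (h1.smul g) h1' (h.nE (P45.CA_smul g (T, a) hp))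
    rw [← e2] at h4'
    exact fin (S.one_eq (Or.inl h2) (bk ha') (bk h4') ha h4)

end Rel

end SyQ

end Pool.Agent.DI
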