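import Pool.Agent.DI.KpW
import Pool.Agent.DI.KXa
import Pool.Agent.DI.SgL
import Pool.Agent.DI.Bare
import Pool.Agent.DI.LT4

/-!
# DI/OpB: all stars over `w` open, except at the bare vertices

`S.Rz w O E`: what the existence theorem gives at the bad vertex `w` for the opened complex: `E` = the
opened vertices; a star `(u, q)` is open iff `q` is over `w` and not bare; `par`: the partner of a top
which is not bare is unique; `page`, `dir`: no page of `x` and no direct corner of `x` crosses an edge at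
the place of `x` which both poles cross.

`Rz.top_of_dia`: a two-pole star of a vertex which is not bare comes from a square with this vertex as
top, its partner is beyond the edge. `Rz.nF`, `Rz.nf`: the conditions on the open stars (`S.NF`, `O.Nf`).
`Rz.hst`: the strand condition of the tops. `Rz.pp`, `Rz.kSq`, `Rz.kpF`: the poles of the open hubs and
the local squares do not degenerate. `Rz.ltp`: every top over `w` with both poles over `w`, not bare, is a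
local top in the sense of `LTp`. `Rz.sgO`: the conditions of the sigma law, input: the placement.
-/

namespace Pool.Agent.DI

open MulAction
open Pool.Agent.SAF (InC orbs FinOrb oc Decomp SAn SA Conv hull dist_edge FinOrb_iff exists_next)
open Pool.Agent.BT (PX PQ JS bey exits lz lz_self lz_ne lz_symm x_next_unique)
open Pool.Agent.BT.TA

open P45

namespace SyQ

variable {H V : Type} [Group H] [MulAction H V] (S : SyQ H V)

/-- THE RESULT OF THE EXISTENCE THEOREM at `w`, for the opened complex -/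
structure Rz (w : S.X) (O : S.OR w) (E : V → Prop) : Prop where
  /-- the static class relative to the opened vertices -/
  sq : S.P.SqE E
  /-- a bare top is opened -/
  bE : ∀ T a b y, S.P.Top T a b y → S.P.Bare T → E T
  /-- every arrow of a top which is not bare has a strand -/
  x1 : ∀ p ∈ S.P.TA, ¬ S.P.Bare p.1 → 1 ≤ S.P.X p.1 p.2
  /-- no opened top is local -/
  noE : ∀ T a b y, S.P.Top T a b y → S.Loc w T a b y → ¬ E T
  /-- the fold rule -/
  opn : ∀ u q, O.op u q ↔ w ∈ S.J q ∧ ¬ S.P.Bare q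
  two : ∀ q, w ∈ S.J q → S.P.Bare q → ∃ u, S.Dia w u q
  /-- the partner of a top which is not bare is unique -/
  par : ∀ T a b y a' b' y', S.P.Top T a b y → S.P.Top T a' b' y' → ¬ S.P.Bare T → y = y'
  /-- NO PAGE CROSSES AN EDGE AT THE PLACE WHICH THE TWO POLES CROSS -/
  page : ∀ x a b p p' n, S.K.ar x a → S.K.ar x b → a ≠ b → S.J x = {p} → S.D.G.Adj p p' →
    p' ∈ S.J a → p' ∈ S.J b → S.K.ar n x → p' ∉ S.J n
  /-- NO DIRECT CORNER IS CENTRED BEYOND SUCH AN EDGE -/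
  dir : ∀ x a b p p' y z c, S.K.ar x a → S.K.ar x b → a ≠ b → S.J x = {p} → S.D.G.Adj p p' →
    p' ∈ S.J a → p' ∈ S.J b → Qn S.P a x b y z → S.IsC ![a, x, b, y, z] c →
    c ∉ bey S.D.G p p'

variable {S}

theorem OR.ext_op {w : S.X} {O O' : S.OR w} (e : O.op = O'.op) : O = O' := by
  obtain ⟨op, h1, h2⟩ := O
  obtain ⟨op', h1', h2'⟩ := O'
  have e : op = op' := e
  subst e
  rfl

theorem rz_cen {a x b y z : V} (h : Qn S.P a x b y z) : ∃ c, S.IsC ![a, x, b, y, z] c := by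
  refine S.cen (v := ![a, x, b, y, z]) ?_
  intro k
  fin_cases k
  · exact h.E1
  · exact h.E2
  · exact h.E3
  · exact h.E4
  · exact h.E5

/-- a vertex over `w` with two poles over `w` sits at `w` -/
theorem rz_J {w : S.X} {q a b : V} (hq : w ∈ S.J q) (wa : w ∈ S.J a) (wb : w ∈ S.J b)
    (qa : S.K.ar q a) (qb : S.K.ar q b) (hab : a ≠ b) : S.J q = {w} :=
  Set.eq_singleton_iff_unique_mem.2 ⟨hq, fun _ hp =>
    one_of_loc hq (fun _ hu => loc_of_ar qa qb hab hq wa wb hu) hp⟩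

/-- a top over `w` only, partner not over `w`, has a two-pole star -/
theorem dia_of_sq {w : S.X} {v a b y : V} (hw : w ∈ S.J v) (hJ : ∀ p ∈ S.J v, p = w)
    (ht : S.P.Top v a b y) (hab : a ≠ b) (wy : w ∉ S.J y) : ∃ u, S.Dia w u v := by
  obtain ⟨u, k⟩ := kw_four hJ ht.1 wy
  exact ⟨u, hw, a, b, hab, ht.2.1, ht.2.2, Relation.EqvGen.rel _ _ k⟩

/-- a bare vertex over `w` has a two-pole star -/
theorem two_of {w : S.X} {E : V → Prop} (hs : S.P.SqE E)
    (bE : ∀ T a b y, S.P.Top T a b y → S.P.Bare T → E T)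
    (noE : ∀ T a b y, S.P.Top T a b y → S.Loc w T a b y → ¬ E T) {v : V}
    (bt : ∃ a b y, S.P.Top v a b y) (hJ : ∀ p ∈ S.J v, p = w) (hw : w ∈ S.J v)
    (hb : S.P.Bare v) : ∃ u, S.Dia w u v := by
  obtain ⟨a, b, y, ht⟩ := bt
  have wa : w ∈ S.J a := by
    obtain ⟨p, p0, p1⟩ := S.one_ex ht.1.E1
    rwa [hJ p p1] at p0
  have wb : w ∈ S.J b := by
    obtain ⟨p, p0, p1⟩ := S.one_ex ht.1.E2
    rwa [hJ p p0] at p1
  exact dia_of_sq hw hJ ht (hs.nab _ _ _ _ ht)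
    (fun k => noE v a b y ht ⟨hw, wa, wb, k⟩ (bE v a b y ht hb))

namespace Rz

variable {w : S.X} {O : S.OR w} {E : V → Prop} (h : S.Rz w O E)

/-- the bare vertices over `w` -/
def F (_ : S.Rz w O E) : Set V := {q | w ∈ S.J q ∧ S.P.Bare q}

theorem mem_F {q : V} : q ∈ h.F ↔ w ∈ S.J q ∧ S.P.Bare q := Iff.rfl

include h

theorem op_of {q : V} (hq : w ∈ S.J q) (hb : ¬ S.P.Bare q) (u : S.X) : O.op u q :=
  (h.opn u q).2 ⟨hq, hb⟩

omit h in
/-- a vertex with a page is not bare -/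
theorem nb_of_page {q n : V} (e : S.K.ar n q) : ¬ S.P.Bare q := fun k => k.1 n e

omit h in
/-- the side of a top is not bare -/
theorem nb_side {T a b y : V} (ht : S.P.Top T a b y) : ¬ S.P.Bare a := nb_of_page ht.2.1

theorem nb_top {T a b y : V} (ht : S.P.Top T a b y) (hE : ¬ E T) : ¬ S.P.Bare T :=
  fun k => hE (h.bE T a b y ht k)

theorem nb_loc {T a b y : V} (ht : S.P.Top T a b y) (hl : S.Loc w T a b y) : ¬ S.P.Bare T :=
  h.nb_top ht (h.noE T a b y ht hl)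

/-- a page does not cross -/
theorem pgw {x a b n : V} {u : S.X} (hx : w ∈ S.J x) (xa : S.K.ar x a) (xb : S.K.ar x b)
    (hab : a ≠ b) (hu : S.D.G.Adj w u) (ca : S.Cs w u a) (cb : S.Cs w u b) (e : S.K.ar n x) :
    ¬ S.Cs w u n := fun k => h.page x a b w u n xa xb hab
  (rz_J hx ca.1 cb.1 xa xb hab) hu ca.2 cb.2 e k.2

/-- a direct corner is not beyond -/
theorem drw {x a b y z : V} {u : S.X} (hx : w ∈ S.J x) (xa : S.K.ar x a) (xb : S.K.ar x b)
    (hab : a ≠ b) (hu : S.D.G.Adj w u) (ca : S.Cs w u a) (cb : S.Cs w u b)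
    (hq : Qn S.P a x b y z) : ¬ (S.J y ⊆ bey S.D.G w u ∧ S.J z ⊆ bey S.D.G w u) := by
  rintro ⟨k1, k2⟩
  obtain ⟨c, hc⟩ := rz_cen hq
  refine h.dir x a b w u y z c xa xb hab (rz_J hx ca.1 cb.1 xa xb hab) hu ca.2 cb.2 hq hc ?_
  rcases hc 3 with k | k
  · exact k1 k
  · exact k2 k

/-! ### two-pole stars -/

/-- a star over two crossing poles consists of these poles -/
theorem hair {q a b x y : V} {u : S.X} (hq : w ∈ S.J q) (qa : S.K.ar q a)
    (qb : S.K.ar q b) (hab : a ≠ b) (ca : S.Cs w u a) (cb : S.Cs w u b)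
    (k : S.Qs w u q x y) : S.K.ar q x := by
  rcases k.E1 with e | e
  · exact absurd k.l (h.pgw hq qa qb hab k.adj ca cb e)
  · exact e

/-- A TWO-POLE STAR COMES FROM A SQUARE -/
theorem top_of_dia {q : V} {u : S.X} (hd : S.Dia w u q) :
    ∃ a b y, S.P.Top q a b y ∧ a ≠ b ∧ S.Cs w u a ∧ S.Cs w u b ∧ S.J y ⊆ bey S.D.G w u ∧
      S.Qs w u q a b := by
  obtain ⟨hq, a, b, hab, qa, qb, hg⟩ := hd
  obtain ⟨hu, ca, cb, -, -, hJ⟩ := hg.ne hab
  have hu' : ∀ x y, S.Qs w u q x y → S.K.ar q x := fun x y k =>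
    h.hair hq qa qb hab ca cb k
  -- one of the zero squares joins two poles
  have key : ∃ x y, S.Qs w u q x y ∧ x ≠ y := by
    by_contra hcon
    push Not at hcon
    have : ∀ x y, S.Gc w u q x y → x = y := by
      intro x y k
      induction k with
      | rel x y k => exact hcon x y k
      | refl x => rfl
      | symm x y _ ih => exact ih.symm
      | trans x y z _ _ i1 i2 => exact i1.trans i2
    exact hab (this a b hg)
  obtain ⟨x, y, k, hxy⟩ := key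
  have qx := hu' x y k
  have qy := hu' y x k.symm'
  have cx := k.l
  have cy := k.r
  rcases k.2.2.2.2 with ⟨y', z', k1, k2, k3⟩ | ⟨y', k1, k2⟩
  · exact absurd ⟨k2, k3⟩ (h.drw hq qx qy hxy hu cx cy k1)
  · exact ⟨x, y, y', ⟨k1, qx, qy⟩, hxy, cx, cy, k2, k⟩

/-- two two-pole stars: bare -/
theorem bare_of_dq {q : V} {u u' : S.X} (hd : S.Dia w u q) (hd' : S.Dia w u' q) (hne : u ≠ u') :
    S.P.Bare q := by
  by_contra hb
  obtain ⟨a, b, y, k1, -, -, -, k2, k3⟩ := h.top_of_dia hd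
  obtain ⟨a', b', y', l1, -, -, -, l2, l3⟩ := h.top_of_dia hd'
  obtain rfl := h.par _ _ _ _ _ _ _ k1 l1 hb
  obtain ⟨p, hp⟩ := S.js.ne y
  exact hne (x_next_unique S.D.tree k3.adj l3.adj (k2 hp) (l2 hp))

/-- the top of a local square has no two-pole star -/
theorem nd_loc {T a b y : V} (ht : S.P.Top T a b y) (hl : S.Loc w T a b y) (u : S.X) :
    ¬ S.Dia w u T := by
  intro hd
  have hb := h.nb_loc ht hl
  obtain ⟨a', b', y', k1, -, -, -, k2, k3⟩ := h.top_of_dia hd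
  obtain rfl := h.par _ _ _ _ _ _ _ ht k1 hb
  exact S.not_mem_of_bey k3.adj k2 hl.2.2.2

theorem F_inv : ∀ g : H, g • w = w → ∀ q ∈ h.F, g • q ∈ h.F := by
  rintro g hg q ⟨k1, k2⟩
  refine ⟨?_, k2.smul g⟩
  have := S.js.smul g _ _ k1
  rwa [hg] at this

/-- THE CONDITIONS ON THE FOLDED HUBS -/
theorem nF : S.NF w h.F where
  inv := h.F_inv
  two q hq := h.two q hq.1 hq.2
  hair u q x y _ hd k := by
    obtain ⟨hw, a, b, hab, qa, qb, hg⟩ := hd
    obtain ⟨-, ca, cb, -⟩ := hg.ne hab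
    exact h.hair hw qa qb hab ca cb k
  dq u u' q hq hd hd' := by
    by_contra hne
    exact hq ⟨hd.1, h.bare_of_dq hd hd' hne⟩
  loc T a b y ht hl u := h.nd_loc ht hl u
  sid T a b y ht _ k := nb_side ht k.2

theorem O_eq : O = S.opF w h.F h.F_inv := by
  refine OR.ext_op ?_
  funext u q
  apply propext
  rw [h.opn]
  show _ ↔ w ∈ S.J q ∧ q ∉ h.F
  rw [h.mem_F]
  constructor
  · rintro ⟨k1, k2⟩
    exact ⟨k1, fun k => k2 k.2⟩
  · rintro ⟨k1, k2⟩
    exact ⟨k1, fun k => k2 ⟨k1, k⟩⟩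

/-- THE CONDITIONS ON THE OPEN STARS -/
theorem nf : O.Nf := by
  rw [h.O_eq]
  exact h.nF.nf

theorem fO : S.FO w O h.F where
  op u q := by
    rw [h.opn, h.mem_F]
    constructor
    · rintro ⟨k1, k2⟩
      exact ⟨k1, fun k => k2 k.2⟩
    · rintro ⟨k1, k2⟩
      exact ⟨k1, fun k => k2 ⟨k1, k⟩⟩
  two q hq := h.two q hq.1 hq.2

theorem kin : S.KIn w := KIn.of h.sq h.noE

theorem nd : S.P.ND := fun i hi => by
  obtain ⟨j, hj⟩ := h.sq.top i hi
  have ht := ck_tp hi hj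
  have k1 := h.sq.nab _ _ _ _ ht
  have k2 := h.sq.nTy _ _ _ _ ht
  fin_cases j
  · exact ⟨k2, k1⟩
  · exact ⟨k1.symm, k2⟩
  · exact ⟨k2.symm, k1.symm⟩
  · exact ⟨k1, k2.symm⟩

/-- a hub with a page is open -/
theorem n7 {u : S.X} {q x : V} (hq : w ∈ S.J q) (e : S.K.ar x q) : O.op u q :=
  h.op_of hq (nb_of_page e) u

/-- a top which is not opened is open over `w` -/
theorem op_top {T a b y : V} (ht : S.P.Top T a b y) (hE : ¬ E T) (hT : w ∈ S.J T) (u : S.X) :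
    O.op u T := h.op_of hT (h.nb_top ht hE) u

/-- the sides of the tops are open over `w` -/
theorem op_side {T a b y : V} (ht : S.P.Top T a b y) (ha : w ∈ S.J a) (u : S.X) :
    O.op u a := h.op_of ha (nb_side ht) u

/-- a counted top is not opened -/
theorem ca_nE {T a : V} (hc : (T, a) ∈ S.P.CA) : ¬ E T := by
  rintro he
  rcases hc with ⟨b', y', k, k1, -⟩ | ⟨b', y', k, k1, -⟩
  · exact GX.ck_asym k1 (h.sq.Ea _ _ _ _ k he)
  · exact GX.ck_asym k1 (h.sq.Ea _ _ _ _ k he)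

/-! ### strands of the hubs -/

/-- pentagons with a direct corner at a top over `w` with both poles over `w` are centred at `w` -/
theorem cen_dir {q a b y z : V} (hq : w ∈ S.J q) (qa : S.K.ar q a) (qb : S.K.ar q b)
    (hab : a ≠ b) (wa : w ∈ S.J a) (wb : w ∈ S.J b) (hp : Qn S.P a q b y z) :
    S.IsC ![a, q, b, y, z] w := by
  have hJ := rz_J hq wa wb qa qb hab
  rcases kw_fiveS (fun p hp => by rw [hJ] at hp; exact hp) hp with r | ⟨u, r, r1, r2⟩
  · exact r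
  · exact absurd ⟨r1, r2⟩ (h.drw hq qa qb hab r.adj r.l r.r hp)

/-- THE STRAND CONDITION of a top over `w` with both poles over `w` -/
theorem hst (hnb : S.NB) {q a b y : V} (hq : w ∈ S.J q) (hb : ¬ S.P.Bare q)
    (ht : S.P.Top q a b y) (wa : w ∈ S.J a) (wb : w ∈ S.J b) : S.HSt w q a := by
  have hab := h.sq.nab _ _ _ _ ht
  have hJ := rz_J hq wa wb ht.2.1 ht.2.2 hab
  rcases hw_strand (h.x1 (q, a) ⟨b, y, ht⟩ hb) with ⟨n, y', z', hq5⟩ | ⟨n, m, hq4, hn⟩
  · left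
    refine ⟨n, y', z', hq5, ?_⟩
    rcases hq5.E1 with k | k
    · exact Or.inl k
    · right
      have hna : n ≠ a := kw_ne hnb hq5
      have wn : w ∈ S.J n := by
        obtain ⟨p, p0, p1⟩ := S.one_ex hq5.E1
        rw [hJ] at p1
        rwa [Set.mem_singleton_iff.1 p1] at p0
      exact h.cen_dir hq k ht.2.1 hna wn wa hq5
  · exact Or.inr ⟨n, m, hq4, hn⟩

/-- a zero square over two poles comes from a square with the hub as top -/
theorem top_of_Qs {u : S.X} {q a b : V} (hq : w ∈ S.J q)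
    (qa : S.K.ar q a) (qb : S.K.ar q b) (hab : a ≠ b) (hQ : S.Qs w u q a b) :
    ∃ y, S.P.Top q a b y ∧ S.J y ⊆ bey S.D.G w u := by
  rcases hQ.2.2.2.2 with ⟨y', z', k1, k2, k3⟩ | ⟨y', k1, k2⟩
  · exact absurd ⟨k2, k3⟩ (h.drw hq qa qb hab hQ.adj hQ.l hQ.r k1)
  · exact ⟨y', ⟨k1, qa, qb⟩, k2⟩

/-- `[a] ≠ [b]` at an open hub, ranked form -/
theorem pp_r {hc : S.Conn} {hm : (S.k0 hc w).Min} {hn : S.SqN w O} {q a b y : V}
    (hx : KXr hm hn (S.rkQ w O (S.fq w O (S.rho w q)))) (hnb : S.NB)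
    (hq : w ∈ S.J q) (hb : ¬ S.P.Bare q) (ht : S.P.Top q a b y) (wa : w ∈ S.J a)
    (wb : w ∈ S.J b) : S.fq w O (S.rho w a) ≠ S.fq w O (S.rho w b) :=
  Lv.hub_ne' hx h.nd ⟨ht.2.1, ht.2.2, h.sq.nab _ _ _ _ ht, hq, wa, wb,
    fun u _ => h.op_of hq hb u⟩ (Or.inl (h.hst hnb hq hb ht wa wb))

/-- `[a] ≠ [b]` at an open hub -/
theorem pp {hc : S.Conn} {hm : (S.k0 hc w).Min} {hn : S.SqN w O} (hx : KX1 hm hn) (hnb : S.NB)
    {q a b y : V} (hq : w ∈ S.J q) (hb : ¬ S.P.Bare q) (ht : S.P.Top q a b y) (wa : w ∈ S.J a)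
    (wb : w ∈ S.J b) : S.fq w O (S.rho w a) ≠ S.fq w O (S.rho w b) :=
  h.pp_r (hx.r _) hnb hq hb ht wa wb

/-- LOCAL TOPS AND OPEN HUBS, ranked form -/
theorem ltp_r {hc : S.Conn} {hm : (S.k0 hc w).Min} {hn : S.SqN w O} {q a b y : V}
    (hx : KXr hm hn (S.rkQ w O (S.fq w O (S.rho w q)))) (hnb : S.NB)
    (hq : w ∈ S.J q) (hb : ¬ S.P.Bare q) (ht : S.P.Top q a b y) (wa : w ∈ S.J a)
    (wb : w ∈ S.J b) : S.LTp w O q a b where
  ta := ht.2.1
  tb := ht.2.2
  ne := h.sq.nab _ _ _ _ ht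
  wT := hq
  wa := wa
  wb := wb
  op u _ := h.op_of hq hb u
  nab := h.pp_r hx hnb hq hb ht wa wb
  hd _ _ k := h.cen_dir hq ht.2.1 ht.2.2 (h.sq.nab _ _ _ _ ht) wa wb k 3

/-- LOCAL TOPS AND OPEN HUBS -/
theorem ltp {hc : S.Conn} {hm : (S.k0 hc w).Min} {hn : S.SqN w O} (hx : KX1 hm hn) (hnb : S.NB)
    {q a b y : V} (hq : w ∈ S.J q) (hb : ¬ S.P.Bare q) (ht : S.P.Top q a b y) (wa : w ∈ S.J a)
    (wb : w ∈ S.J b) : S.LTp w O q a b := h.ltp_r (hx.r _) hnb hq hb ht wa wb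

/-- WHAT IS USED OF THE KEPT SQUARES (helper62) -/
theorem kSq {hc : S.Conn} {hm : (S.k0 hc w).Min} {hn : S.SqN w O} (hx : KX1 hm hn)
    (hnb : S.NB) : S.KSq w O h.F where
  ni _ _ _ _ k hl _ := loc_kept hx h.nf h.kin h.nd hnb
    (fun T a b y ht hl => h.x1 (T, a) ⟨b, y, ht⟩ (h.nb_loc ht hl)) k hl
  pp u q a b hq hF hQ hab qa qb := by
    obtain ⟨y, ht, -⟩ := h.top_of_Qs hq qa qb hab hQ
    exact h.pp hx hnb hq (fun k => hF ⟨hq, k⟩) ht hQ.l.1 hQ.r.1

/-- THE CONDITIONS OF THE SIGMA LAW (helper42), `pl` is the placement -/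
theorem sgO {hc : S.Conn} {hm : (S.k0 hc w).Min} {hn : S.SqN w O} (hx : KX1 hm hn)
    (hnb : S.NB) (pl : ∀ p ∈ S.P.CA, ¬ S.GB w p → ∃ q, q ∈ S.J p.1 ∧ q ∈ S.J p.2 ∧ S.Bd w q) :
    S.SgO w O E where
  nf := h.nf
  kin := h.kin
  sq := h.sq
  n7 _ _ _ _ _ hq _ e := h.n7 hq e
  n8 _ _ _ _ ht hc hT _ _ u _ := h.op_top ht (h.ca_nE hc) hT u
  nab _ _ _ _ ht hc hT ha hb := h.pp hx hnb hT (h.nb_top ht (h.ca_nE hc)) ht ha hb
  pl := pl

end Rz

/-- THE OBJECTS OF A STEP SATISFY `Rz` -/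
theorem Psv.rz {w : S.X} {O : S.OR w} {E : V → Prop} (h : S.Psv w O E) : S.Rz w O E where
  sq := h.sq
  bE := h.bE
  x1 := h.x1
  noE := h.noE
  opn := h.opn
  two := h.two
  par := h.par
  page := h.page
  dir := h.dir

end SyQ

end Pool.Agent.DI
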