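import Pool.Agent.DI.KXe
import Pool.Agent.DI.OpB
import Pool.Agent.DI.PhB

/-!
# Bare vertices

`S.BrJ i p p0` (DI/PhB): the bare vertex `v = qt i 3` of the square `i` over `p`. `bareF_of`: the hypothesis of the
fold law `BareF`. `BrJ.bare`: `S.Bare` at a midpoint.
-/

namespace Pool.Agent.DI

open MulAction
open Pool.Agent.SAF (InC orbs FinOrb oc Conv exists_next)
open Pool.Agent.BT (PX PQ JS bey exits)
open Pool.Agent.BT.TA

namespace SyQ

variable {H V : Type} [Group H] [MulAction H V] {S : SyQ H V}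

/-- `J` of a translate -/
theorem J_sg {g : H} {v : V} {p : S.X} (h : S.J v = {p}) : S.J (g • v) = {g • p} := by
  ext x
  rw [Set.mem_singleton_iff]
  constructor
  · intro hx
    have h1 := S.js.smul g⁻¹ _ _ hx
    rw [inv_smul_smul, h] at h1
    rw [← Set.mem_singleton_iff.1 h1, smul_inv_smul]
  · rintro rfl
    exact S.js.smul g _ _ (by rw [h]; rfl)

theorem rho_tr (g : H) {p : S.X} {z z' : V} (h : S.rho p z = S.rho p z') :
    S.rho (g • p) (g • z) = S.rho (g • p) (g • z') := by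
  rcases S.rho_eq_iff.1 h with h | ⟨h1, h2, h3⟩
  · rw [h]
  · have m : ∀ {z : V}, p ∉ S.J z → g • p ∉ S.J (g • z) := by
      intro z hz k
      have := S.js.smul g⁻¹ _ _ k
      rw [inv_smul_smul, inv_smul_smul] at this
      exact hz this
    exact S.rho_eq_iff.2 (Or.inr ⟨m h1, m h2, by
      rw [S.dir_smul g h1, S.dir_smul g h2, h3]⟩)

theorem rho_tr_iff (g : H) {p : S.X} {z z' : V} :
    S.rho (g • p) (g • z) = S.rho (g • p) (g • z') ↔ S.rho p z = S.rho p z' := by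
  refine ⟨fun h => ?_, rho_tr g⟩
  have := rho_tr g⁻¹ h
  rwa [inv_smul_smul, inv_smul_smul, inv_smul_smul] at this

/-- a walk at a vertex over `w` only, with its direction -/
theorem qs_dir {w : S.X} {n T a q : V} (hT : ∀ p ∈ S.J T, p = w)
    (h : Q4 S.P n T a q) (hq : w ∉ S.J q) : S.Qs w (S.dir w q) T n a := by
  have wn : w ∈ S.J n := by
    obtain ⟨p, p0, p1⟩ := S.one_ex h.E1
    rwa [hT p p1] at p0
  have wa : w ∈ S.J a := by
    obtain ⟨p, p0, p1⟩ := S.one_ex h.E2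
    rwa [hT p p0] at p1
  have hu := S.dir_adj hq
  have ca := S.dir_cross h.E3 wa hq
  have cn := S.dir_cross (Or.symm h.E4) wn hq
  have hJ : S.J T ⊆ bey S.D.G (S.dir w q) w := by
    intro p hp
    rw [hT p hp]
    exact bey_self hu.symm
  exact ⟨hu, ⟨wn, cn⟩, ⟨wa, ca⟩, hJ, Or.inr ⟨q, h, S.dir_bey hq⟩⟩

namespace BrJ

variable {i : S.K.I} {p p0 : S.X} (h : S.BrJ i p p0)
include h

theorem nT (g : H) : g • p ∉ S.J (g • S.P.qt i 1) := by
  rw [J_sg h.JT]
  intro k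
  exact h.ne (smul_left_cancel g (Set.mem_singleton_iff.1 k)).symm

theorem only' {e : S.K.LE} {g : H} (k : S.K.c0 e = g • S.P.qt i 3) :
    e.1.1 = i ∧ e.1.2.1 = 3 := by
  have h1 : S.K.c0 (g⁻¹ • e) = S.P.qt i 3 := by
    rw [S.K.c0_smul, k, inv_smul_smul]
  exact h.only (g⁻¹ • e) h1

/-- the two poles are joined over the direction of `T` -/
theorem dia (g : H) : S.Dia (g • p) (S.dir (g • p) (g • S.P.qt i 1)) (g • S.P.qt i 3) := by
  have hQ := Q4_qt g h.sq 2
  have e0 : (2 : Fin 4) + 2 = 0 := by decide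
  have e1 : (2 : Fin 4) + 1 = 3 := by decide
  have e3 : (2 : Fin 4) + 3 = 1 := by decide
  rw [e0, e1, e3] at hQ
  have hJ : ∀ x ∈ S.J (g • S.P.qt i 3), x = g • p := by
    intro x hx
    rw [J_sg h.Jv] at hx
    exact hx
  refine ⟨by rw [J_sg h.Jv]; rfl, g • S.P.qt i 2, g • S.P.qt i 0,
    fun k => h.ab (smul_left_cancel g k).symm, S.K.ar_smul g _ _ h.vb, S.K.ar_smul g _ _ h.va,
    Relation.EqvGen.rel _ _ (qs_dir hJ hQ (h.nT g))⟩

end BrJ

/-- THE HYPOTHESES OF THE FOLD LAW -/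
theorem bareF_of {w : S.X} {F : Set V} (hb : ∀ v ∈ F, w ∈ S.J v ∧
    ∃ (i : S.K.I) (g : H) (p p0 : S.X), v = g • S.P.qt i 3 ∧ S.BrJ i p p0) : S.BareF w F where
  dq q hq := by
    obtain ⟨hw, i, g, p, p0, rfl, h⟩ := hb q hq
    obtain ⟨r, hr, hne⟩ := h.rev
    have hwp : w = g • p := by
      rw [J_sg h.Jv] at hw
      exact hw
    have hrp : r • p = p := by
      have h1 : r • p ∈ S.J (r • S.P.qt i 3) := S.js.smul r _ _ (by rw [h.Jv]; rfl)
      rw [hr, h.Jv] at h1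
      exact h1
    have d1 := h.dia g
    have d2 := h.dia (g * r)
    have e1 : (g * r) • p = g • p := by rw [mul_smul, hrp]
    have e2 : (g * r) • S.P.qt i 3 = g • S.P.qt i 3 := by rw [mul_smul, hr]
    rw [e1, e2] at d2
    rw [hwp]
    refine ⟨_, _, d1, d2, ?_⟩
    intro k
    apply hne
    rw [← rho_tr_iff g, S.rho_eq_iff]
    right
    have n2 := h.nT (g * r)
    rw [e1, mul_smul] at n2
    rw [mul_smul] at k
    exact ⟨n2, h.nT g, k.symm⟩
  nin q hq n k := by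
    obtain ⟨hw, i, g, p, p0, rfl, h⟩ := hb q hq
    have := S.K.ar_smul g⁻¹ _ _ k
    rw [inv_smul_smul] at this
    exact h.nin _ this
  ewk q hq e k := by
    obtain ⟨hw, i, g, p, p0, rfl, h⟩ := hb q hq
    obtain ⟨h1, h2⟩ := h.only' k
    exact ⟨h1 ▸ h.ewk, h2⟩
  uni q hq e e' k k' hr := by
    obtain ⟨hw, i, g, p, p0, rfl, h⟩ := hb q hq
    obtain ⟨h1, h2⟩ := h.only' k
    obtain ⟨h1', h2'⟩ := h.only' k'
    have hpos := pos_ext h1 h1' h2 h2'
    refine ⟨hpos, ?_⟩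
    have key : ∀ {e : S.K.LE}, e.1.1 = i → e.1.2.1 = 3 → S.K.c0 e = e.2 • S.P.qt i 3 ∧
        S.K.c2 e = e.2 • S.P.qt i 1 := by
      rintro ⟨⟨j, l⟩, x⟩ h1 h2
      have h1 : j = i := h1
      subst h1
      have h2 : l.1 = 3 := h2
      constructor
      · show x • S.K.vx j l.1 = _
        rw [h2, Phm.vx h.sq 3 3 rfl]
      · show x • S.K.vx j (l.1 + 2) = _
        rw [h2, Phm.vx h.sq 5 1 rfl]
    obtain ⟨a0, a2⟩ := key h1 h2
    obtain ⟨b0, b2⟩ := key h1' h2'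
    rw [a0] at k
    rw [b0] at k'
    rw [a2, b2] at hr ⊢
    have hwp : w = e.2 • p := by
      rw [← k, J_sg h.Jv] at hw
      exact hw
    have f1 : (e.2⁻¹ * e'.2) • S.P.qt i 3 = S.P.qt i 3 := by
      rw [mul_smul, k', ← k, inv_smul_smul]
    have f2 := h.det _ f1 (by
      rw [← rho_tr_iff e.2, ← hwp, mul_smul, smul_inv_smul]
      exact hr.symm)
    rw [mul_smul] at f2
    rw [← smul_inv_smul e.2 (e'.2 • S.P.qt i 1), f2]

/-- at a midpoint -/
theorem BrJ.bare {i : S.K.I} {u w0 : S.X} (h : S.BrJ i u w0) (ha : S.D.G.Adj u w0)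
    (hu : ∀ g : H, g • u ≠ w0) : S.Bare i u w0 where
  toBr := h.toBr
  Jv := h.Jv
  JT := h.JT
  adj := ha
  uw := hu
  det g h1 h2 := by
    refine h.det g h1 ?_
    have hgu : g • u = u := by
      have h3 : g • u ∈ S.J (g • S.P.qt i 3) := S.js.smul g _ _ (by rw [h.Jv]; rfl)
      rw [h1, h.Jv] at h3
      exact h3
    have k1 : S.J (g • S.P.qt i 1) ⊆ bey S.D.G u w0 := by
      rw [J_sg h.JT, h2]
      rintro x rfl
      exact bey_self ha
    have k2 : S.J (S.P.qt i 1) ⊆ bey S.D.G u w0 := by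
      rw [h.JT]
      rintro x rfl
      exact bey_self ha
    rw [S.rho_bey ha k1, S.rho_bey ha k2]

end SyQ

end Pool.Agent.DI
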