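import Pool.Agent.DI.C5D

/-!
# Chapter 5 (thin tail): positions
-/

namespace Pool.Agent.DI

open MulAction
open Pool.Agent.SAF (InC orbs FinOrb TAct Conv exists_next)
open Pool.Agent.SAG (IO Zt)
open Pool.Agent.BT (bey mst Hyp side_or dist_cross)

namespace T5

variable {H V X : Type} [Group H] [MulAction H V] [MulAction H X] (S : T5 H V X)

/-- translates of `w` -/
def Bad (x : X) : Prop := ∃ h : H, h • S.w = x

/-- translates of `u` -/
def Mid (x : X) : Prop := ∃ h : H, h • S.u = x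

/-- `x` crosses the edge `y z` -/
def Cs (x : V) (y z : X) : Prop := S.T.Adj y z ∧ y ∈ S.J x ∧ z ∈ S.J x

/-- the stabiliser of the edge `w u` -/
def JJ : Subgroup H := stabilizer H S.w ⊓ stabilizer H S.u

variable {S}

theorem mem_JJ {g : H} : g ∈ S.JJ ↔ g • S.w = S.w ∧ g • S.u = S.u := Iff.rfl

theorem not_both {x : X} (h1 : S.Bad x) (h2 : S.Mid x) : False := by
  obtain ⟨g, rfl⟩ := h1
  obtain ⟨h, e⟩ := h2
  exact S.wu (h⁻¹ * g) (by rw [mul_smul, ← e, inv_smul_smul])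

theorem Bad.smul {x : X} (h : S.Bad x) (g : H) : S.Bad (g • x) := by
  obtain ⟨k, rfl⟩ := h
  exact ⟨g * k, mul_smul _ _ _⟩

theorem Mid.smul {x : X} (h : S.Mid x) (g : H) : S.Mid (g • x) := by
  obtain ⟨k, rfl⟩ := h
  exact ⟨g * k, mul_smul _ _ _⟩

theorem bad_w : S.Bad S.w := ⟨1, one_smul _ _⟩

theorem mid_u : S.Mid S.u := ⟨1, one_smul _ _⟩

theorem Bad.mid {x y : X} (h : S.Bad x) (e : S.T.Adj x y) : S.Mid y := by
  rcases S.bip _ _ e with ⟨g, h1, h2⟩ | ⟨g, h1, h2⟩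
  · exact ⟨g, h2⟩
  · exact absurd (not_both h ⟨g, h1⟩) id

theorem Mid.bad {x y : X} (h : S.Mid x) (e : S.T.Adj x y) : S.Bad y := by
  rcases S.bip _ _ e with ⟨g, h1, h2⟩ | ⟨g, h1, h2⟩
  · exact absurd (not_both ⟨g, h1⟩ h) id
  · exact ⟨g, h2⟩

/-- the edges at `w` are one orbit -/
theorem oneE {x : X} (e : S.T.Adj S.w x) : ∃ g : H, g • S.w = S.w ∧ g • S.u = x := by
  rcases S.bip _ _ e with ⟨g, h1, h2⟩ | ⟨g, h1, h2⟩
  · exact ⟨g, h1, h2⟩
  · exact absurd (not_both bad_w ⟨g, h1⟩) id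

theorem J_smul_iff (h : H) (x : V) (y : X) : h • y ∈ S.J (h • x) ↔ y ∈ S.J x := by
  constructor
  · intro hh
    have := S.J_smul h⁻¹ _ _ hh
    rwa [inv_smul_smul, inv_smul_smul] at this
  · exact S.J_smul h x y

/-- the point of a lost soft -/
theorem J_v (g : H) : S.J (g • S.v) = {g • S.u} := by
  ext y
  rw [Set.mem_singleton_iff]
  constructor
  · intro h
    have h1 : g • (g⁻¹ • y) ∈ S.J (g • S.v) := by rwa [smul_inv_smul]
    have h2 := (J_smul_iff g _ _).1 h1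
    rw [S.Jv, Set.mem_singleton_iff] at h2
    rw [← h2, smul_inv_smul]
  · rintro rfl
    rw [J_smul_iff, S.Jv]
    rfl

theorem mem_J_v {g : H} {y : X} : y ∈ S.J (g • S.v) ↔ y = g • S.u := by
  rw [J_v, Set.mem_singleton_iff]

theorem b_u : S.b • S.u = S.u := by
  have h : S.b • S.u ∈ S.J (S.b • S.v) := mem_J_v.2 rfl
  rw [S.bv, S.Jv] at h
  exact h

/-- adjacent vertices have one common point -/
theorem one_eq {x y : V} (e : S.ar x y) {p q : X} (h1 : p ∈ S.J x) (h2 : p ∈ S.J y)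
    (h3 : q ∈ S.J x) (h4 : q ∈ S.J y) : p = q := by
  obtain ⟨r, hr⟩ := S.one x y e
  have ha : p ∈ S.J x ∩ S.J y := ⟨h1, h2⟩
  have hb : q ∈ S.J x ∩ S.J y := ⟨h3, h4⟩
  rw [hr] at ha hb
  rw [Set.mem_singleton_iff.1 ha, Set.mem_singleton_iff.1 hb]

theorem one_ex {x y : V} (e : S.ar x y) : ∃ p, p ∈ S.J x ∧ p ∈ S.J y := by
  obtain ⟨r, hr⟩ := S.one x y e
  have : r ∈ S.J x ∩ S.J y := by rw [hr]; exact rfl
  exact ⟨r, this.1, this.2⟩

theorem ar_smul_iff (h : H) (x y : V) : S.ar (h • x) (h • y) ↔ S.ar x y := by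
  constructor
  · intro hh
    have := S.ar_smul h⁻¹ _ _ hh
    rwa [inv_smul_smul, inv_smul_smul] at this
  · exact S.ar_smul h x y

/-- a vertex which crosses an edge is not lost -/
theorem Cs.not_lost {x : V} {y z : X} (h : S.Cs x y z) (g : H) : x ≠ g • S.v := by
  rintro rfl
  have h1 := mem_J_v.1 h.2.1
  have h2 := mem_J_v.1 h.2.2
  exact h.1.ne (h1.trans h2.symm)

/-- (c): a node placed at a midpoint of an edge which is crossed is lost -/
theorem node_lost {m n : V} {y t : X} (e : S.ar m n) (hy : S.Mid y) (hm : y ∈ S.J m)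
    (hn : S.Cs n y t) : ∃ g : H, m = g • S.v ∧ g • S.u = y := by
  obtain ⟨c, k, hc⟩ := S.vis m n e (Or.inr (Or.inr ⟨y, t, hn⟩))
  obtain ⟨h1, h2, h3⟩ := S.H1 _ _ _ _ hc
  have hcn : c ∈ S.J n := by
    rcases h3 with h3 | ⟨g, rfl, -⟩
    · exact h3
    · exact absurd rfl (hn.not_lost g)
  rcases h2 with h2 | ⟨g, rfl, -⟩
  · exfalso
    have := one_eq e h2 hcn hm hn.2.1
    rw [this] at h1
    exact not_both h1 hy
  · exact ⟨g, rfl, (mem_J_v.1 hm).symm⟩

/-- (c): a pole placed at a midpoint of an edge which is crossed is lost -/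
theorem pole_lost {s a : V} {y t : X} (e : S.ar s a) (hy : S.Mid y) (ha : y ∈ S.J a)
    (hs : S.Cs s y t) : ∃ g : H, a = g • S.v ∧ g • S.u = y := by
  obtain ⟨c, k, hc⟩ := S.vis s a e (Or.inl (S.light s a y t e hs.1 hs.2.1 hs.2.2))
  obtain ⟨h1, h2, h3⟩ := S.H1 _ _ _ _ hc
  have hcs : c ∈ S.J s := by
    rcases h2 with h2 | ⟨g, rfl, -⟩
    · exact h2
    · exact absurd rfl (hs.not_lost g)
  rcases h3 with h3 | ⟨g, rfl, -⟩
  · exfalso
    have := one_eq e hcs h3 hs.2.1 ha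
    rw [this] at h1
    exact not_both h1 hy
  · exact ⟨g, rfl, (mem_J_v.1 ha).symm⟩

/-- in-arrows of lost softs cross an edge -/
theorem page_cs {m : V} {g : H} (e : S.ar m (g • S.v)) : ∃ c, S.Cs m (g • S.u) c := by
  have hf : Finite ↥(stabilizer H (g • S.v)) := by
    have := S.vfin
    exact Finite.of_equiv _ (stabilizerEquivStabilizer (g := g) rfl).toEquiv
  obtain ⟨c, k, hc⟩ := S.vis m (g • S.v) e (Or.inr (Or.inl hf))
  obtain ⟨h1, h2, h3⟩ := S.H1 _ _ _ _ hc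
  have hadj : S.T.Adj c (g • S.u) := by
    rcases h3 with h3 | ⟨g', e', h3⟩
    · exact absurd (not_both h1 ⟨g, (mem_J_v.1 h3).symm⟩) id
    · have : g' • S.u ∈ S.J (g • S.v) := by rw [e']; exact mem_J_v.2 rfl
      rwa [mem_J_v.1 this] at h3
  obtain ⟨p, hp1, hp2⟩ := one_ex e
  have hp := mem_J_v.1 hp2
  rw [hp] at hp1
  refine ⟨c, hadj.symm, hp1, ?_⟩
  rcases h2 with h2 | ⟨g', rfl, -⟩
  · exact h2
  · exfalso
    have := S.ar_rk _ _ e
    rw [S.rk_smul, S.rk_smul] at this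
    exact lt_irrefl _ this

theorem b_z2 : S.b • S.z2 = S.z2 := by
  have h := S.ar_smul S.b _ _ S.az2
  rw [S.bv] at h
  rcases S.two _ _ _ _ S.az1 S.az2 h with h1 | h1 | h1
  · exact absurd h1 S.zne
  · exact h1.symm
  · exfalso
    have h2 : S.b • S.z1 = S.b • S.z2 := by rw [S.bz1, h1]
    exact S.zne (smul_left_cancel _ h2)

theorem b_w' : S.b • S.w' = S.w := by
  have h1 : S.T.Adj S.u (S.b • S.w') := by
    have h2 : S.T.Adj S.u S.w' := (S.only _).2 (Or.inr rfl)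
    have h3 := S.act.adj_smul S.b _ _ h2
    rwa [b_u] at h3
  rcases (S.only _).1 h1 with h | h
  · exact h
  · exfalso
    have h2 : S.b • S.w' = S.b • S.w := by rw [h, S.bw]
    exact S.ne (smul_left_cancel _ h2).symm

theorem adj' : S.T.Adj S.w' S.u := ((S.only _).2 (Or.inr rfl)).symm

/-- a vertex which crosses both edges at a midpoint is a pole of a lost soft and is reversed -/
theorem reversed {x : V} {y t1 t2 : X} (hy : S.Mid y) (hne : t1 ≠ t2) (h1 : S.Cs x y t1)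
    (h2 : S.Cs x y t2) : ∃ g : H, g • S.u = y ∧ S.ar (g • S.v) x ∧ ∃ r : H, r • x = x ∧
      r • g • S.v = g • S.v ∧ r • y = y ∧ r • t1 = t2 ∧ r • t2 = t1 := by
  obtain ⟨k, rfl⟩ := hy
  -- translate to `u`
  have key : ∀ (x : V) (t1 t2 : X), t1 ≠ t2 → S.Cs x S.u t1 → S.Cs x S.u t2 →
      ∃ g : H, g • S.u = S.u ∧ S.ar (g • S.v) x ∧ ∃ r : H, r • x = x ∧
      r • g • S.v = g • S.v ∧ r • S.u = S.u ∧ r • t1 = t2 ∧ r • t2 = t1 := by
    intro x t1 t2 hne h1 h2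
    have hw : S.w ∈ S.J x ∧ S.w' ∈ S.J x := by
      rcases (S.only _).1 h1.1 with e1 | e1 <;> rcases (S.only _).1 h2.1 with e2 | e2
      · exact absurd (e1.trans e2.symm) hne
      · exact ⟨e1 ▸ h1.2.2, e2 ▸ h2.2.2⟩
      · exact ⟨e2 ▸ h2.2.2, e1 ▸ h1.2.2⟩
      · exact absurd (e1.trans e2.symm) hne
    obtain ⟨g, hg, hv⟩ := S.rev x hw.1 h1.2.1 hw.2
    refine ⟨g, hg, hv, g * S.b * g⁻¹, ?_, ?_, ?_, ?_⟩
    · -- `x` is a pole of `g • v`
      have hx : g⁻¹ • x = S.z1 ∨ g⁻¹ • x = S.z2 := by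
        have h3 := S.ar_smul g⁻¹ _ _ hv
        rw [inv_smul_smul] at h3
        rcases S.two _ _ _ _ S.az1 S.az2 h3 with h4 | h4 | h4
        · exact absurd h4 S.zne
        · exact Or.inr h4.symm
        · exact Or.inl h4.symm
      rw [mul_smul, mul_smul]
      rcases hx with e | e
      · rw [e, S.bz1, ← e, smul_inv_smul]
      · rw [e, b_z2, ← e, smul_inv_smul]
    · rw [mul_smul, mul_smul, inv_smul_smul, S.bv]
    · have hg' : g⁻¹ • S.u = S.u := by rw [inv_smul_eq_iff, hg]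
      rw [mul_smul, mul_smul, hg', b_u, hg]
    · -- `g b g⁻¹` exchanges `w` and `w'`
      have hsw : ∀ r : H, r • S.u = S.u → r • S.w ≠ S.w → (r • S.w = S.w' ∧ r • S.w' = S.w) := by
        intro r hr hrw
        have a1 : S.T.Adj S.u (r • S.w) := by
          have := S.act.adj_smul r _ _ S.adj.symm
          rwa [hr] at this
        have a2 : S.T.Adj S.u (r • S.w') := by
          have := S.act.adj_smul r _ _ S.adj'.symm
          rwa [hr] at this
        have e1 := ((S.only _).1 a1).resolve_left hrw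
        refine ⟨e1, ?_⟩
        rcases (S.only _).1 a2 with e2 | e2
        · exact e2
        · exact absurd (smul_left_cancel _ (e1.trans e2.symm)) S.ne
      have hgu' : g⁻¹ • S.u = S.u := by rw [inv_smul_eq_iff, hg]
      have hru : (g * S.b * g⁻¹) • S.u = S.u := by
        rw [mul_smul, mul_smul, hgu', b_u, hg]
      have hrw : (g * S.b * g⁻¹) • S.w ≠ S.w := by
        intro e
        rw [mul_smul, mul_smul, smul_eq_iff_eq_inv_smul] at e
        -- `b` fixes `g⁻¹ w`, one of `w, w'`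
        have a1 : S.T.Adj S.u (g⁻¹ • S.w) := by
          have := S.act.adj_smul g⁻¹ _ _ S.adj.symm
          rwa [hgu'] at this
        rcases (S.only _).1 a1 with e1 | e1
        · rw [e1, S.bw] at e
          exact S.ne e.symm
        · rw [e1, b_w'] at e
          exact S.ne e
      obtain ⟨f1, f2⟩ := hsw _ hru hrw
      rcases (S.only _).1 h1.1 with e1 | e1 <;> rcases (S.only _).1 h2.1 with e2 | e2
      · exact absurd (e1.trans e2.symm) hne
      · rw [e1, e2]; exact ⟨f1, f2⟩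
      · rw [e1, e2]; exact ⟨f2, f1⟩
      · exact absurd (e1.trans e2.symm) hne
  have tr : ∀ t, S.Cs x (k • S.u) t → S.Cs (k⁻¹ • x) S.u (k⁻¹ • t) := by
    intro t ht
    have a := S.act.adj_smul k⁻¹ _ _ ht.1
    have b := S.J_smul k⁻¹ _ _ ht.2.1
    rw [inv_smul_smul] at a b
    exact ⟨a, b, S.J_smul k⁻¹ _ _ ht.2.2⟩
  obtain ⟨g, hg, hv, r, r1, r2, r3, r4, r5⟩ := key (k⁻¹ • x) (k⁻¹ • t1) (k⁻¹ • t2)
    (fun e => hne (smul_left_cancel _ e)) (tr _ h1) (tr _ h2)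
  refine ⟨k * g, by rw [mul_smul, hg], ?_, k * r * k⁻¹, ?_, ?_, ?_, ?_, ?_⟩
  · have := S.ar_smul k _ _ hv
    rwa [smul_inv_smul, ← mul_smul] at this
  · rw [mul_smul, mul_smul, r1, smul_inv_smul]
  · rw [mul_smul, mul_smul, mul_smul k g, inv_smul_smul, r2]
  · rw [mul_smul, mul_smul, inv_smul_smul, r3]
  · rw [mul_smul, mul_smul, r4, smul_inv_smul]
  · rw [mul_smul, mul_smul, r5, smul_inv_smul]

/-- a soft is reversed at one midpoint at most -/
theorem mid_unique {s a : V} (ha : S.ar s a) {y1 y2 t1 t1' t2 t2' : X} (hy1 : S.Mid y1)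
    (hy2 : S.Mid y2) (hne1 : t1 ≠ t1') (hne2 : t2 ≠ t2') (h1 : S.Cs s y1 t1) (h1' : S.Cs s y1 t1')
    (h2 : S.Cs s y2 t2) (h2' : S.Cs s y2 t2') : y1 = y2 := by
  have hfin := S.light s a y1 t1 ha h1.1 h1.2.1 h1.2.2
  obtain ⟨c0, hc0, hfix⟩ := fix_in S.act (S.J_conv s) (S.J_ne s) hfin (fun g hg c hc => by
    have := S.J_smul g s c hc
    rwa [show g • s = s from hg] at this)
  have key : ∀ (y t t' : X), S.Mid y → t ≠ t' → S.Cs s y t → S.Cs s y t' → c0 = y := by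
    intro y t t' hy hne h h'
    by_contra hc
    obtain ⟨-, -, -, r, r1, -, r3, r4, -⟩ := reversed hy hne h h'
    obtain ⟨z, hz, hd⟩ := exists_next S.act.tree (Ne.symm hc)
    have hrc := hfix r r1
    -- `r z = z`
    have hrz : r • z = z := by
      have e1 : S.T.Adj y (r • z) := by
        have := S.act.adj_smul r _ _ hz
        rwa [r3] at this
      refine next_unique S.act.tree e1 hz ?_ hd
      rw [← S.act.dist_smul r z c0, hrc] at hd
      exact hd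
    have hzJ : z ∈ S.J s := by
      apply S.J_conv s y h.2.1 c0 hc0
      have : S.T.dist y z = 1 := SimpleGraph.dist_eq_one_iff_adj.2 hz
      omega
    -- `z` is `t` or `t'`
    rcases S.exits3 s y z t t' h.2.1 hz h.1 h'.1 hzJ h.2.2 h'.2.2 with e | e | e
    · rw [e, r4] at hrz
      exact hne hrz.symm
    · exact hne e
    · have h5 : r • t = r • t' := by rw [r4, ← e, hrz]
      exact hne (smul_left_cancel _ h5)
  rw [← key y1 t1 t1' hy1 hne1 h1 h1', ← key y2 t2 t2' hy2 hne2 h2 h2']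

/-- two bad points of a soft are the neighbours of its midpoint -/
theorem bad_pair {s a : V} (ha : S.ar s a) {t1 t2 : X} (hb1 : S.Bad t1) (hb2 : S.Bad t2)
    (h1 : t1 ∈ S.J s) (h2 : t2 ∈ S.J s) (hne : t1 ≠ t2) :
    ∃ y, S.Mid y ∧ S.Cs s y t1 ∧ S.Cs s y t2 := by
  obtain ⟨y, hy, hd⟩ := exists_next S.act.tree hne
  have hT := S.act.tree
  have hmy : S.Mid y := hb1.mid hy
  have hyt : y ≠ t2 := fun e => not_both (e ▸ hb2) hmy
  obtain ⟨z, hz, hd'⟩ := exists_next hT hyt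
  have dy : S.T.dist t1 y = 1 := SimpleGraph.dist_eq_one_iff_adj.2 hy
  have dz : S.T.dist y z = 1 := SimpleGraph.dist_eq_one_iff_adj.2 hz
  have hyJ : y ∈ S.J s := S.J_conv s t1 h1 t2 h2 y (by omega)
  have hzJ : z ∈ S.J s := S.J_conv s y hyJ t2 h2 z (by omega)
  have hz1 : z ≠ t1 := by
    rintro rfl
    omega
  have hbz : S.Bad z := hmy.bad hz
  have c1 : S.Cs s y t1 := ⟨hy.symm, hyJ, h1⟩
  have c2 : S.Cs s y z := ⟨hz, hyJ, hzJ⟩
  by_cases e : z = t2
  · exact ⟨y, hmy, c1, e ▸ c2⟩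
  exfalso
  obtain ⟨y2, hy2, hd2⟩ := exists_next hT e
  have hmy2 : S.Mid y2 := hbz.mid hy2
  have hyt2 : y2 ≠ t2 := fun e => not_both (e ▸ hb2) hmy2
  obtain ⟨z2, hz2, hd2'⟩ := exists_next hT hyt2
  have dy2 : S.T.dist z y2 = 1 := SimpleGraph.dist_eq_one_iff_adj.2 hy2
  have dz2 : S.T.dist y2 z2 = 1 := SimpleGraph.dist_eq_one_iff_adj.2 hz2
  have hy2J : y2 ∈ S.J s := S.J_conv s z hzJ t2 h2 y2 (by omega)
  have hz2J : z2 ∈ S.J s := S.J_conv s y2 hy2J t2 h2 z2 (by omega)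
  have hzz : z ≠ z2 := by
    rintro rfl
    omega
  have h5 := mid_unique ha hmy hmy2 hz1.symm hzz c1 c2 ⟨hy2.symm, hy2J, hzJ⟩ ⟨hz2, hy2J, hz2J⟩
  rw [h5] at hd'
  omega

/-- a light soft which is not lost has a bad point -/
theorem exists_bad {s a : V} (ha : S.ar s a) (hf : Finite ↥(stabilizer H s))
    (hn : ∀ g : H, s ≠ g • S.v) : ∃ c, S.Bad c ∧ c ∈ S.J s := by
  obtain ⟨c, k, hc⟩ := S.vis s a ha (Or.inl hf)
  obtain ⟨h1, h2, -⟩ := S.H1 _ _ _ _ hc
  refine ⟨c, h1, ?_⟩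
  rcases h2 with h2 | ⟨g, h2, -⟩
  · exact h2
  · exact absurd h2 (hn g)

/-- the elements of the stabiliser of a soft which fix one of the points next to the midpoint -/
theorem fix_mid {s : V} {y t1 t2 : X} (h1 : S.Cs s y t1) (h2 : S.Cs s y t2)
    (hne : t1 ≠ t2) (hy : S.Mid y) {a : V} (ha : S.ar s a) {g : H} (hg : g • s = s)
    (ht : g • t1 = t1) : g • y = y ∧ g • t2 = t2 := by
  have c1 : S.Cs s (g • y) (g • t1) := ⟨S.act.adj_smul g _ _ h1.1, by
    have := S.J_smul g _ _ h1.2.1; rwa [hg] at this, by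
    have := S.J_smul g _ _ h1.2.2; rwa [hg] at this⟩
  have c2 : S.Cs s (g • y) (g • t2) := ⟨S.act.adj_smul g _ _ h2.1, by
    have := S.J_smul g _ _ h2.2.1; rwa [hg] at this, by
    have := S.J_smul g _ _ h2.2.2; rwa [hg] at this⟩
  have e : g • y = y := mid_unique ha (hy.smul g) hy (fun e => hne (smul_left_cancel _ e)) hne
    c1 c2 h1 h2
  refine ⟨e, ?_⟩
  rw [e] at c2
  rcases S.exits3 s y t1 t2 (g • t2) h1.2.1 h1.1 h2.1 c2.1 h1.2.2 h2.2.2 c2.2.2 with h | h | h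
  · exact absurd h hne
  · exact h.symm
  · exfalso
    have h5 : g • t1 = g • t2 := by rw [ht, h]
    exact hne (smul_left_cancel _ h5)

/-- the poles of a reversed soft are placed at the two points next to the midpoint -/
theorem rev_pole {s a : V} {y t1 t2 : X} (h1 : S.Cs s y t1) (h2 : S.Cs s y t2)
    (hne : t1 ≠ t2) (hy : S.Mid y) (ha : S.ar s a) : t1 ∈ S.J a ∨ t2 ∈ S.J a := by
  obtain ⟨p, hp1, hp2⟩ := one_ex ha
  have hbt1 : S.Bad t1 := hy.bad h1.1
  by_cases e : p = t1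
  · exact Or.inl (e ▸ hp2)
  obtain ⟨g, hg, hv, -⟩ := reversed hy hne h1 h2
  have hT := S.act.tree
  -- `p` is bad or a midpoint
  obtain ⟨q, hq, hd⟩ := exists_next hT e
  have dq : S.T.dist p q = 1 := SimpleGraph.dist_eq_one_iff_adj.2 hq
  have hqJ : q ∈ S.J s := S.J_conv s p hp1 t1 h1.2.2 q (by omega)
  by_cases hb : S.Bad p
  · obtain ⟨y', hy', c1, c2⟩ := bad_pair ha hb hbt1 hp1 h1.2.2 e
    have : y' = y := mid_unique ha hy' hy e hne c1 c2 h1 h2
    subst this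
    rcases S.exits3 s y' p t1 t2 c1.2.1 c1.1 h1.1 h2.1 hp1 h1.2.2 h2.2.2 with h | h | h
    · exact absurd h e
    · exact absurd h hne
    · exact Or.inr (h ▸ hp2)
  · have hm : S.Mid p := by
      rcases S.bip _ _ hq with ⟨k, k1, -⟩ | ⟨k, k1, -⟩
      · exact absurd ⟨k, k1⟩ hb
      · exact ⟨k, k1⟩
    obtain ⟨k, rfl, -⟩ := pole_lost ha hm hp2 (t := q) ⟨hq, hp1, hqJ⟩
    exfalso
    have r1 := S.ar_rk _ _ hv
    have r2 := S.ar_rk _ _ ha
    rw [S.rk_smul] at r1 r2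
    omega

end T5

end Pool.Agent.DI
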