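import Pool.Agent.DI.DLE

/-!
# Chapter 5: the group theory of the thin tail

`DL.N_le`: `G` of type `D_inf` is generated by two finite subgroups `P`, `Q` and by `R`; a normal
subgroup `K` of the kernel `N` of the line which contains `R`, `P ⊓ N`, `Q ⊓ N` is equal to `N`.
`DL.char_eq_one`: the form for characters. `ker_le_of_gen`: the index two version.
-/

namespace Pool.Agent.DI

open Pool.Agent.SAF (InC)
open Pool.Agent.SAG (IO Zt)

/-- a group generated by two involutions (or trivial elements) -/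
theorem gen_two {Q : Type} [Group Q] {x y : Q} (hx : x * x = 1) (hy : y * y = 1)
    (hgen : Subgroup.closure {x, y} = ⊤) (g : Q) :
    ∃ i : ℤ, g = (x * y) ^ i ∨ g = (x * y) ^ i * x := by
  have hx' : x⁻¹ = x := inv_eq_of_mul_eq_one_left hx
  have hy' : y⁻¹ = y := inv_eq_of_mul_eq_one_left hy
  obtain ⟨z, hz⟩ : ∃ z, z = x * y := ⟨_, rfl⟩
  have hyz : y = x * z := by rw [hz, ← mul_assoc, hx, one_mul]
  have hinv : z⁻¹ = y * x := by rw [hz, mul_inv_rev, hx', hy']
  have hxc : ∀ i : ℤ, x * z ^ i = z ^ (-i) * x := by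
    intro i
    have h1 : x * z * x⁻¹ = z⁻¹ := by
      rw [hx', hinv, ← hyz]
    have h2 : x * z ^ i * x⁻¹ = z ^ (-i) := by
      rw [← conj_zpow, h1, inv_zpow, zpow_neg]
    rw [← h2, inv_mul_cancel_right]
  rw [← hz]
  have hg : g ∈ Subgroup.closure {x, y} := by rw [hgen]; exact Subgroup.mem_top g
  have hstep : ∀ b : Q, (∃ i : ℤ, b = z ^ i ∨ b = z ^ i * x) →
      ∃ i : ℤ, x * b = z ^ i ∨ x * b = z ^ i * x := by
    rintro b ⟨i, rfl | rfl⟩
    · exact ⟨-i, Or.inr (hxc i)⟩
    · refine ⟨-i, Or.inl ?_⟩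
      rw [← mul_assoc, hxc, mul_assoc, hx, mul_one]
  have hstep2 : ∀ b : Q, (∃ i : ℤ, b = z ^ i ∨ b = z ^ i * x) →
      ∃ i : ℤ, z * b = z ^ i ∨ z * b = z ^ i * x := by
    rintro b ⟨i, rfl | rfl⟩
    · exact ⟨1 + i, Or.inl (by rw [zpow_add, zpow_one])⟩
    · exact ⟨1 + i, Or.inr (by rw [zpow_add, zpow_one, mul_assoc])⟩
  clear hinv
  induction hg using Subgroup.closure_induction_left with
  | one => exact ⟨0, Or.inl (by rw [zpow_zero])⟩
  | mul_left a ha b _ ih =>
    rcases ha with rfl | ha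
    · exact hstep b ih
    · have ha' : a = x * z := by rw [← hyz]; exact ha
      rw [ha', mul_assoc]
      exact hstep _ (hstep2 b ih)
  | inv_mul_cancel a ha b _ ih =>
    rcases ha with rfl | ha
    · rw [hx']
      exact hstep b ih
    · have ha' : a⁻¹ = x * z := by rw [← hyz, ← hy']; exact congrArg _ ha
      rw [ha', mul_assoc]
      exact hstep _ (hstep2 b ih)

namespace DL

variable {G : Type} [Group G] (L : DL G)

theorem N_le {P Q R K : Subgroup G} (hK : K.Normal) (hKN : K ≤ L.N) (hP : Finite ↥P)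
    (hQ : Finite ↥Q) (hgen : P ⊔ Q ⊔ R = ⊤) (hPK : P ⊓ L.N ≤ K) (hQK : Q ⊓ L.N ≤ K)
    (hRK : R ≤ K) : L.N ≤ K := by
  -- representatives of the reflections
  have hrep : ∀ P : Subgroup G, Finite ↥P → P ⊓ L.N ≤ K → ∃ b ∈ P, b * b ∈ K ∧
      (∀ g ∈ P, g ∈ K ∨ b⁻¹ * g ∈ K) ∧ (b ∈ K ∨ ∃ p, P ≤ L.St p ∧ L.Refl p b) := by
    intro P hP hPK
    rcases L.le_N_or_mir P hP with h | h
    · exact ⟨1, P.one_mem, by rw [mul_one]; exact K.one_mem, fun g hg => Or.inl (hPK ⟨hg, h hg⟩),
        Or.inl K.one_mem⟩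
    · obtain ⟨p, hp⟩ := L.exists_place P hP
      obtain ⟨b, hb, hr⟩ := h.refl hp
      have hN : ∀ g ∈ P, L.ε g = 1 → g ∈ K := by
        intro g hg h1
        rcases L.mem_St_iff.1 (hp hg) with h2 | h2
        · exact hPK ⟨hg, h2⟩
        · rw [h2.1] at h1
          exact absurd h1.symm ne_neg_one
      refine ⟨b, hb, hN _ (P.mul_mem hb hb) (by rw [map_mul, hr.1]; decide), ?_, Or.inr ⟨p, hp, hr⟩⟩
      intro g hg
      rcases L.ε_cases g with h1 | h1
      · exact Or.inl (hN g hg h1)
      · right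
        exact hN _ (P.mul_mem (P.inv_mem hb) hg) (by rw [map_mul, ε_inv, hr.1, h1]; decide)
  obtain ⟨b, hb, hb2, hbP, hbr⟩ := hrep P hP hPK
  obtain ⟨r, hr, hr2, hrQ, hrr⟩ := hrep Q hQ hQK
  -- the quotient
  have hgen' : Subgroup.closure {(QuotientGroup.mk b : G ⧸ K), QuotientGroup.mk r} = ⊤ := by
    have h1 : P ⊔ Q ⊔ R ≤ (Subgroup.closure {(QuotientGroup.mk b : G ⧸ K),
        QuotientGroup.mk r}).comap (QuotientGroup.mk' K) := by
      have hone : ∀ g ∈ K, QuotientGroup.mk' K g ∈ Subgroup.closure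
          {(QuotientGroup.mk b : G ⧸ K), QuotientGroup.mk r} := by
        intro g hg
        have : QuotientGroup.mk' K g = 1 := (QuotientGroup.eq_one_iff g).2 hg
        rw [this]
        exact Subgroup.one_mem _
      refine sup_le (sup_le ?_ ?_) ?_
      · intro g hg
        rcases hbP g hg with h | h
        · exact hone g h
        · have : (QuotientGroup.mk g : G ⧸ K) = QuotientGroup.mk b := (QuotientGroup.eq.2 h).symm
          show (QuotientGroup.mk g : G ⧸ K) ∈ Subgroup.closure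
            {(QuotientGroup.mk b : G ⧸ K), QuotientGroup.mk r}
          rw [this]
          exact Subgroup.subset_closure (Or.inl rfl)
      · intro g hg
        rcases hrQ g hg with h | h
        · exact hone g h
        · have : (QuotientGroup.mk g : G ⧸ K) = QuotientGroup.mk r := (QuotientGroup.eq.2 h).symm
          show (QuotientGroup.mk g : G ⧸ K) ∈ Subgroup.closure
            {(QuotientGroup.mk b : G ⧸ K), QuotientGroup.mk r}
          rw [this]
          exact Subgroup.subset_closure (Or.inr rfl)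
      · intro g hg
        exact hone g (hRK hg)
    rw [hgen] at h1
    rw [eq_top_iff]
    rintro q -
    obtain ⟨g, rfl⟩ := QuotientGroup.mk_surjective q
    exact h1 (Subgroup.mem_top g)
  have hmk : ∀ g : G, g * g ∈ K → (QuotientGroup.mk g : G ⧸ K) * QuotientGroup.mk g = 1 := by
    intro g hg
    exact (QuotientGroup.eq_one_iff (g * g)).2 hg
  -- every element of `G` is a product up to `K`
  have hall : ∀ g : G, ∃ i : ℤ, ∃ k ∈ K, g = (b * r) ^ i * k ∨ g = (b * r) ^ i * b * k := by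
    intro g
    obtain ⟨i, h | h⟩ := gen_two (hmk b hb2) (hmk r hr2) hgen' (QuotientGroup.mk g)
    · refine ⟨i, ((b * r) ^ i)⁻¹ * g, ?_, Or.inl (by rw [mul_inv_cancel_left])⟩
      apply QuotientGroup.eq.1
      rw [h]
      rfl
    · refine ⟨i, ((b * r) ^ i * b)⁻¹ * g, ?_, Or.inr (by rw [mul_inv_cancel_left])⟩
      apply QuotientGroup.eq.1
      rw [h]
      rfl
  -- both subgroups are mirrored, at different places
  have hboth : ∃ p q, p ≠ q ∧ L.Refl p b ∧ L.Refl q r := by
    -- a translation is not in the subgroup generated otherwise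
    obtain ⟨t, ht, ht'⟩ := L.exists_trans 1
    have hfin : ∀ c : ℤ, (∀ i : ℤ, ∀ k ∈ K, L.ε ((b * r) ^ i * k) = 1 →
        L.τ ((b * r) ^ i * k) = c) → (∀ i : ℤ, ∀ k ∈ K, L.ε ((b * r) ^ i * b * k) = 1 →
        L.τ ((b * r) ^ i * b * k) = c) → False := by
      intro c h1 h2
      have h3 : ∀ g, L.ε g = 1 → L.τ g = c := by
        intro g hg
        obtain ⟨i, k, hk, rfl | rfl⟩ := hall g
        · exact h1 i k hk hg
        · exact h2 i k hk hg
      have e1 := h3 1 (map_one _)
      have e2 := h3 t ht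
      rw [L.τ_one] at e1
      omega
    have hKN' : ∀ k ∈ K, L.ε k = 1 ∧ L.τ k = 0 := fun k hk => hKN hk
    have hNN : ∀ g k, k ∈ K → L.ε (g * k) = L.ε g ∧ L.τ (g * k) = L.τ g := by
      intro g k hk
      obtain ⟨h1, h2⟩ := hKN' k hk
      exact ⟨by rw [map_mul, h1, mul_one], by rw [L.τ_mul, h2, mul_zero, add_zero]⟩
    rcases hbr with hbK | ⟨p, hp, hbr⟩
    · -- `b` in `K`
      exfalso
      rcases hrr with hrK | ⟨q, hq, hrr⟩
      · have hN : ∀ i : ℤ, (b * r) ^ i ∈ K := fun i => K.zpow_mem (K.mul_mem hbK hrK) i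
        apply hfin 0
        · intro i k hk _
          exact (hKN' _ (K.mul_mem (hN i) hk)).2
        · intro i k hk _
          exact (hKN' _ (K.mul_mem (K.mul_mem (hN i) hbK) hk)).2
      · -- powers of `b * r` with `b` in `K`: `(b r)^2` in `N`
        have hr' : L.Refl q (b * r) := hrr.N_mul (hKN hbK)
        have hSt : ∀ i : ℤ, (b * r) ^ i ∈ L.St q := fun i =>
          (L.St q).zpow_mem (L.mem_St_iff.2 (Or.inr hr')) i
        have hz : ∀ g ∈ L.St q, L.ε g = 1 → L.τ g = 0 := by
          intro g hg h1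
          rcases L.mem_St_iff.1 hg with h2 | h2
          · exact h2.2
          · rw [h2.1] at h1
            exact absurd h1.symm ne_neg_one
        apply hfin 0
        · intro i k hk h1
          exact hz _ ((L.St q).mul_mem (hSt i) (L.N_le_St q (hKN hk))) h1
        · intro i k hk h1
          exact hz _ ((L.St q).mul_mem ((L.St q).mul_mem (hSt i) (L.N_le_St q (hKN hbK)))
            (L.N_le_St q (hKN hk))) h1
    · rcases hrr with hrK | ⟨q, hq, hrr⟩
      · exfalso
        have hb' : L.Refl p (b * r) := hbr.mul_N (hKN hrK)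
        have hSt : ∀ i : ℤ, (b * r) ^ i ∈ L.St p := fun i =>
          (L.St p).zpow_mem (L.mem_St_iff.2 (Or.inr hb')) i
        have hz : ∀ g ∈ L.St p, L.ε g = 1 → L.τ g = 0 := by
          intro g hg h1
          rcases L.mem_St_iff.1 hg with h2 | h2
          · exact h2.2
          · rw [h2.1] at h1
            exact absurd h1.symm ne_neg_one
        apply hfin 0
        · intro i k hk h1
          exact hz _ ((L.St p).mul_mem (hSt i) (L.N_le_St p (hKN hk))) h1
        · intro i k hk h1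
          exact hz _ ((L.St p).mul_mem ((L.St p).mul_mem (hSt i) (L.mem_St_iff.2 (Or.inr hbr)))
            (L.N_le_St p (hKN hk))) h1
      · refine ⟨p, q, ?_, hbr, hrr⟩
        rintro rfl
        have hbr' : b * r ∈ L.N := by
          have := hbr.mul hrr
          exact ⟨this.1, by rw [this.2, sub_self]⟩
        have hNi : ∀ i : ℤ, (b * r) ^ i ∈ L.N := fun i => L.N.zpow_mem hbr' i
        apply hfin 0
        · intro i k hk _
          exact (L.N.mul_mem (hNi i) (hKN hk)).2
        · intro i k hk h1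
          exfalso
          rw [(hNN _ k hk).1, map_mul, (hNi i).1, hbr.1, one_mul] at h1
          exact ne_neg_one h1.symm
  obtain ⟨p, q, hpq, hbr', hrr'⟩ := hboth
  have hm := hbr'.mul hrr'
  intro n hn
  obtain ⟨i, k, hk, h | h⟩ := hall n
  · have h1 : (b * r) ^ i ∈ L.N := by
      have : (b * r) ^ i = n * k⁻¹ := by rw [h, mul_inv_cancel_right]
      rw [this]
      exact L.N.mul_mem hn (L.N.inv_mem (hKN hk))
    have h2 := h1.2
    rw [L.τ_zpow hm.1, hm.2] at h2
    have h3 : i = 0 := by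
      rcases mul_eq_zero.1 h2 with h4 | h4
      · exact h4
      · exact absurd (by omega) hpq
    rw [h, h3, zpow_zero, one_mul]
    exact hk
  · exfalso
    have h1 : L.ε n = -1 := by
      rw [h, map_mul, map_mul, map_zpow, hm.1, hbr'.1, (hKN hk).1, one_zpow]
      decide
    rw [hn.1] at h1
    exact ne_neg_one h1

/-- an invariant character of the kernel which vanishes on the vertex groups is trivial -/
theorem char_eq_one {P Q R : Subgroup G} (hP : Finite ↥P) (hQ : Finite ↥Q)
    (hgen : P ⊔ Q ⊔ R = ⊤) (hRN : R ≤ L.N) (χ : ↥L.N →* ℤˣ)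
    (hinv : ∀ (g : G) (n : ↥L.N), χ ⟨g * n.1 * g⁻¹, L.N_normal.conj_mem n.1 n.2 g⟩ = χ n)
    (hχP : ∀ n : ↥L.N, n.1 ∈ P → χ n = 1) (hχQ : ∀ n : ↥L.N, n.1 ∈ Q → χ n = 1)
    (hχR : ∀ n : ↥L.N, n.1 ∈ R → χ n = 1) (n : ↥L.N) : χ n = 1 := by
  have hK : (χ.ker.map L.N.subtype).Normal := by
    constructor
    rintro _ ⟨k, hk, rfl⟩ g
    refine ⟨⟨g * k.1 * g⁻¹, L.N_normal.conj_mem k.1 k.2 g⟩, ?_, rfl⟩
    show χ _ = 1
    rw [hinv]
    exact hk
  have h1 : L.N ≤ χ.ker.map L.N.subtype := by
    apply L.N_le hK ?_ hP hQ hgen ?_ ?_ ?_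
    · rintro _ ⟨k, -, rfl⟩
      exact k.2
    · rintro g ⟨hg, hg'⟩
      exact ⟨⟨g, hg'⟩, hχP ⟨g, hg'⟩ hg, rfl⟩
    · rintro g ⟨hg, hg'⟩
      exact ⟨⟨g, hg'⟩, hχQ ⟨g, hg'⟩ hg, rfl⟩
    · intro g hg
      exact ⟨⟨g, hRN hg⟩, hχR ⟨g, hRN hg⟩ hg, rfl⟩
  obtain ⟨k, hk, e⟩ := h1 n.2
  have : k = n := Subtype.ext e
  rw [← this]
  exact hk

end DL

/-- the index two version: `S` is generated by `A` (in the kernel of `σ`), `C` (in the kernel) and an
element `g` with `g * g` in `A`; a normal subgroup which contains `A` and `C` contains the kernel -/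
theorem ker_le_of_gen {S : Type} [Group S] (σ : S →* ℤˣ) {A C K : Subgroup S} {g : S}
    (hgen : A ⊔ C ⊔ Subgroup.zpowers g = ⊤) (hσg : σ g = -1) (hgg : g * g ∈ K) (hK : K.Normal)
    (hA : A ≤ K) (hC : C ≤ K) (hKσ : K ≤ σ.ker) : σ.ker ≤ K := by
  have hall : ∀ s : S, s ∈ K ∨ g⁻¹ * s ∈ K := by
    let T : Subgroup S :=
      { carrier := {s | s ∈ K ∨ g⁻¹ * s ∈ K}
        one_mem' := Or.inl K.one_mem
        mul_mem' := by
          rintro a b (ha | ha) (hb | hb)
          · exact Or.inl (K.mul_mem ha hb)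
          · right
            have h1 : g⁻¹ * (a * b) = g⁻¹ * a * g * (g⁻¹ * b) := by group
            have h2 : g⁻¹ * a * g ∈ K := by
              have := hK.conj_mem a ha g⁻¹
              rwa [inv_inv] at this
            rw [h1]
            exact K.mul_mem h2 hb
          · right
            rw [← mul_assoc]
            exact K.mul_mem ha hb
          · left
            have h1 : a * b = g * (g⁻¹ * a) * g⁻¹ * (g * g) * (g⁻¹ * b) := by group
            rw [h1]
            exact K.mul_mem (K.mul_mem (hK.conj_mem _ ha g) hgg) hb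
        inv_mem' := by
          rintro a (ha | ha)
          · exact Or.inl (K.inv_mem ha)
          · right
            have h1 : g⁻¹ * a⁻¹ = g⁻¹ * (g⁻¹ * a)⁻¹ * g * (g * g)⁻¹ := by group
            have h2 : g⁻¹ * (g⁻¹ * a)⁻¹ * g ∈ K := by
              have := hK.conj_mem _ (K.inv_mem ha) g⁻¹
              rwa [inv_inv] at this
            rw [h1]
            exact K.mul_mem h2 (K.inv_mem hgg) }
    have hT : A ⊔ C ⊔ Subgroup.zpowers g ≤ T := by
      refine sup_le (sup_le ?_ ?_) ?_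
      · exact fun s hs => Or.inl (hA hs)
      · exact fun s hs => Or.inl (hC hs)
      · rw [Subgroup.zpowers_le]
        right
        rw [inv_mul_cancel]
        exact K.one_mem
    intro s
    rw [hgen] at hT
    exact hT (Subgroup.mem_top s)
  intro s hs
  rcases hall s with h | h
  · exact h
  · exfalso
    have h1 : σ (g⁻¹ * s) = 1 := hKσ h
    have h2 : σ s = 1 := hs
    rw [map_mul, map_inv, hσg, h2, mul_one] at h1
    exact absurd h1 (by decide)

end Pool.Agent.DI
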