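import Pool.Agent.DI.C5A
import Pool.Agent.DI.DG

/-!
# Chapter 5 (thin tail): the group of the edge (owner: helper78)
-/

namespace Pool.Agent.DI

open MulAction
open Pool.Agent.SAF (InC orbs FinOrb TAct Conv exists_next)
open Pool.Agent.SAG (IO Zt)
open Pool.Agent.BT (bey mst Hyp)

namespace T5

variable {H V X : Type} [Group H] [MulAction H V] [MulAction H X] {S : T5 H V X}

theorem u_z {z : V} (h : S.ar S.v z) : S.u ∈ S.J z := by
  obtain ⟨p, h1, h2⟩ := one_ex h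
  rw [S.Jv, Set.mem_singleton_iff] at h1
  rwa [h1] at h2

/-- the stabiliser of a vertex which crosses the edge is finite in the edge group -/
theorem fin_cross {x : V} (hw : S.w ∈ S.J x) (hu : S.u ∈ S.J x) :
    Finite ↥(stabilizer H x ⊓ S.JJ) := by
  by_cases h : ∃ a, S.ar x a
  · obtain ⟨a, ha⟩ := h
    have := S.light x a S.u S.w ha S.adj.symm hu hw
    exact Finite.of_injective _ (Subgroup.inclusion_injective
      (inf_le_left : stabilizer H x ⊓ S.JJ ≤ stabilizer H x))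
  · push Not at h
    rcases S.snk x h with ⟨p, hp⟩ | ⟨hD, hyp, hJ⟩
    · exfalso
      rw [hp, Set.mem_singleton_iff] at hw hu
      exact S.adj.ne (hw.trans hu.symm)
    · obtain ⟨a, m, hL⟩ := exists_line (L := hD.dl) S.act hD.1 hyp
      rw [hJ] at hw hu
      have key : ∀ g : ↥(stabilizer H x ⊓ S.JJ), (⟨g.1, g.2.1⟩ : ↥(stabilizer H x)) ∈ hD.dl.N :=
        fun g => hL.stab_edge S.act hw hu S.adj.ne g.2.2.1 g.2.2.2
      exact Finite.of_injective (fun g => (⟨⟨g.1, g.2.1⟩, key g⟩ : ↥hD.dl.N)) (by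
        intro g g' e
        have h1 := congrArg (fun y : ↥hD.dl.N => y.1.1) e
        exact Subtype.ext h1)

/-- the stabiliser of a pole of `v` in the edge group is finite -/
theorem fin_z1 : Finite ↥(stabilizer H S.z1 ⊓ S.JJ) := fin_cross S.wz1 (u_z S.az1)

theorem fin_z2 : Finite ↥(stabilizer H S.z2 ⊓ S.JJ) := fin_cross S.wz2 (u_z S.az2)

/-- elements which fix the midpoint permute the two edges -/
theorem fix_w' {g : H} (hg : g ∈ S.JJ) : g • S.w' = S.w' := by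
  have h1 : S.T.Adj S.u (g • S.w') := by
    have := S.act.adj_smul g _ _ adj'.symm
    rwa [hg.2] at this
  rcases (S.only _).1 h1 with h | h
  · exfalso
    have h2 : g • S.w' = g • S.w := h.trans hg.1.symm
    exact S.ne (smul_left_cancel _ h2).symm
  · exact h

theorem u_inv {r : H} (hr : r • S.u = S.u) : r⁻¹ • S.u = S.u := by
  rw [inv_smul_eq_iff, hr]

/-- elements of the stabiliser of the midpoint normalise the edge group -/
theorem conj_JJ {g r : H} (hr : r • S.u = S.u) (h : g ∈ S.JJ) : r * g * r⁻¹ ∈ S.JJ := by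
  refine ⟨?_, ?_⟩
  · show (r * g * r⁻¹) • S.w = S.w
    have h1 : S.T.Adj S.u (r⁻¹ • S.w) := by
      have := S.act.adj_smul r⁻¹ _ _ S.adj.symm
      rwa [u_inv hr] at this
    rcases (S.only _).1 h1 with e | e
    · rw [mul_smul, mul_smul, e, show g • S.w = S.w from h.1]
      exact (inv_smul_eq_iff.1 e).symm
    · rw [mul_smul, mul_smul, e, fix_w' h]
      exact (inv_smul_eq_iff.1 e).symm
  · show (r * g * r⁻¹) • S.u = S.u
    rw [mul_smul, mul_smul, u_inv hr, show g • S.u = S.u from h.2, hr]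

/-- a cell cut off at the edge -/
theorem cut_off {a b q : V} {c : X} (hc : S.Cc c a q b)
    (h : (S.J q ⊆ bey S.T S.w S.u ∧ c ∈ bey S.T S.u S.w) ∨
      (S.J q ⊆ bey S.T S.u S.w ∧ c ∈ bey S.T S.w S.u)) :
    c = S.w ∧ ∃ k ∈ S.JJ, q = k • S.v := by
  obtain ⟨h1, -, h3⟩ := S.H1 _ _ _ _ hc
  have hT := S.act.tree
  -- `c` is not in `J q`
  have hcq : c ∉ S.J q := by
    intro hcq
    rcases h with ⟨h4, h5⟩ | ⟨h4, h5⟩
    · have h6 := h4 hcq
      have h6' : S.T.dist c S.w = S.T.dist c S.u + 1 := h6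
      have h5' : S.T.dist c S.u = S.T.dist c S.w + 1 := h5
      omega
    · have h6 := h4 hcq
      have h6' : S.T.dist c S.u = S.T.dist c S.w + 1 := h6
      have h5' : S.T.dist c S.w = S.T.dist c S.u + 1 := h5
      omega
  obtain ⟨g, rfl, hadj⟩ := h3.resolve_left hcq
  have hgJ : g • S.u ∈ S.J (g • S.v) := mem_J_v.2 rfl
  have hcross : ∀ y z : X, y ∈ bey S.T S.w S.u → z ∈ bey S.T S.u S.w → S.T.Adj z y →
      z = S.w ∧ y = S.u := by
    intro y z hy hz e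
    have hy' : S.T.dist y S.w = S.T.dist y S.u + 1 := hy
    have hz' : S.T.dist z S.u = S.T.dist z S.w + 1 := hz
    have d1 : S.T.dist z y = 1 := SimpleGraph.dist_eq_one_iff_adj.2 e
    have d2 : S.T.dist S.w S.u = 1 := SimpleGraph.dist_eq_one_iff_adj.2 S.adj
    have e1 : S.T.dist S.w y = S.T.dist y S.w := SimpleGraph.dist_comm
    have e2 : S.T.dist S.w z = S.T.dist z S.w := SimpleGraph.dist_comm
    have e3 : S.T.dist S.u y = S.T.dist y S.u := SimpleGraph.dist_comm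
    have e4 : S.T.dist S.u z = S.T.dist z S.u := SimpleGraph.dist_comm
    have hcr := Pool.Agent.BT.dist_cross hT S.adj
      (by show S.T.dist z S.u = S.T.dist z S.w + 1; exact hz')
      (by show S.T.dist y S.w = S.T.dist y S.u + 1; exact hy')
    have h0 : S.T.dist z S.w = 0 := by omega
    have h0' : S.T.dist y S.u = 0 := by omega
    exact ⟨hT.connected.dist_eq_zero_iff.1 h0, hT.connected.dist_eq_zero_iff.1 h0'⟩
  rcases h with ⟨h4, h5⟩ | ⟨h4, h5⟩
  · obtain ⟨e1, e2⟩ := hcross _ _ (h4 hgJ) h5 hadj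
    refine ⟨e1, ?_⟩
    -- `g` maps `w` to `w` or to `w'`
    have hgw : S.T.Adj S.u (g • S.w) := by
      have := S.act.adj_smul g _ _ S.adj.symm
      rwa [e2] at this
    rcases (S.only _).1 hgw with e3 | e3
    · exact ⟨g, ⟨e3, e2⟩, rfl⟩
    · refine ⟨g * S.b, ⟨?_, ?_⟩, ?_⟩
      · show (g * S.b) • S.w = S.w
        rw [mul_smul, S.bw]
        have hgw' : S.T.Adj S.u (g • S.w') := by
          have := S.act.adj_smul g _ _ adj'.symm
          rwa [e2] at this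
        rcases (S.only _).1 hgw' with e4 | e4
        · exact e4
        · exfalso
          exact S.ne (smul_left_cancel _ (e3.trans e4.symm))
      · show (g * S.b) • S.u = S.u
        rw [mul_smul, b_u, e2]
      · rw [mul_smul, S.bv]
  · exfalso
    obtain ⟨e1, e2⟩ := hcross _ _ h5 (h4 hgJ) hadj.symm
    rw [e2] at h1
    exact not_both h1 mid_u

/-- there is a corner at `w` from a lost soft to its pole -/
theorem corner_w {k : H} {x : V} (hk : k ∈ S.JJ) (hx : x = k • S.z1 ∨ x = k • S.z2)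
    (har : S.ar (k • S.v) x) : ∃ m, S.Cc S.w (k • S.v) x m := by
  have hfin : Finite ↥(stabilizer H (k • S.v)) := by
    have := S.vfin
    exact Finite.of_equiv _ (stabilizerEquivStabilizer (g := k) rfl).toEquiv
  obtain ⟨c, m, hc⟩ := S.vis _ _ har (Or.inl hfin)
  obtain ⟨h1, h2, -⟩ := S.H1 _ _ _ _ hc
  have hku : k • S.u = S.u := hk.2
  have hadj : S.T.Adj c S.u := by
    rcases h2 with h2 | ⟨g, e, h2⟩
    · exfalso
      rw [mem_J_v] at h2
      rw [h2, hku] at h1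
      exact not_both h1 mid_u
    · have h4 : g • S.u ∈ S.J (k • S.v) := by rw [e]; exact mem_J_v.2 rfl
      rw [mem_J_v, hku] at h4
      rwa [h4] at h2
  rcases (S.only _).1 hadj.symm with e | e
  · exact ⟨m, e ▸ hc⟩
  · rw [e] at hc
    have h5 := S.Cc_smul (k * S.b * k⁻¹) _ _ _ _ hc
    have hkw' : k⁻¹ • S.w' = S.w' := by
      rw [inv_smul_eq_iff, fix_w' hk]
    have hkw : k • S.w = S.w := hk.1
    have e1 : (k * S.b * k⁻¹) • S.w' = S.w := by
      rw [mul_smul, mul_smul, hkw', b_w', hkw]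
    have e2 : (k * S.b * k⁻¹) • k • S.v = k • S.v := by
      rw [mul_smul, mul_smul, inv_smul_smul, S.bv]
    have e3 : (k * S.b * k⁻¹) • x = x := by
      rcases hx with rfl | rfl
      · rw [mul_smul, mul_smul, inv_smul_smul, S.bz1]
      · rw [mul_smul, mul_smul, inv_smul_smul, b_z2]
    rw [e1, e2, e3] at h5
    exact ⟨_, h5⟩

/-- tags of the vertices which cross the edge -/
def Tg (S : T5 H V X) (x : V) (k : H) : Prop :=
  k ∈ S.JJ ∧ S.w ∈ S.J x ∧ S.u ∈ S.J x ∧ (x = k • S.z1 ∨ x = k • S.z2 ∨ S.ar x (k • S.v))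

theorem Tg.uniq {K : Subgroup H} (h1 : ∀ g ∈ S.JJ, g • S.z1 = S.z1 → g ∈ K)
    (h2 : ∀ g ∈ S.JJ, g • S.z2 = S.z2 → g ∈ K) (hv : ∀ g ∈ S.JJ, g • S.v = S.v → g ∈ K)
    {x : V} {k k' : H} (hk : Tg S x k) (hk' : Tg S x k') : k⁻¹ * k' ∈ K := by
  obtain ⟨a1, a2, a3, a4⟩ := hk
  obtain ⟨b1, b2, b3, b4⟩ := hk'
  have hm : k⁻¹ * k' ∈ S.JJ := S.JJ.mul_mem (S.JJ.inv_mem a1) b1
  -- both are poles
  have pole : ∀ {k k' : H}, k ∈ S.JJ → k' ∈ S.JJ → (x = k • S.z1 ∨ x = k • S.z2) →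
      (x = k' • S.z1 ∨ x = k' • S.z2) → ∃ g : H, g ∈ S.JJ ∧ g • x = x ∧
        g • k • S.v = k' • S.v := by
    intro k k' hk hk' e e'
    have har : S.ar (k • S.v) x := by
      rcases e with e | e
      · rw [e]; exact S.ar_smul _ _ _ S.az1
      · rw [e]; exact S.ar_smul _ _ _ S.az2
    have har' : S.ar (k' • S.v) x := by
      rcases e' with e' | e'
      · rw [e']; exact S.ar_smul _ _ _ S.az1
      · rw [e']; exact S.ar_smul _ _ _ S.az2
    obtain ⟨m, hm⟩ := corner_w hk e har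
    obtain ⟨m', hm'⟩ := corner_w hk' e' har'
    have hw' : S.w' ∈ S.J x := by
      -- `k b k⁻¹` fixes `x` and maps `w` to `w'`
      have hkw' : k • S.w' = S.w' := fix_w' hk
      have hkw : k⁻¹ • S.w = S.w := by
        rw [inv_smul_eq_iff]; exact hk.1.symm
      have e3 : (k * S.b * k⁻¹) • x = x := by
        rcases e with rfl | rfl
        · rw [mul_smul, mul_smul, inv_smul_smul, S.bz1]
        · rw [mul_smul, mul_smul, inv_smul_smul, b_z2]
      have := S.J_smul (k * S.b * k⁻¹) x S.w a2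
      rw [e3, mul_smul, mul_smul, hkw, S.bw, hkw'] at this
      exact this
    obtain ⟨g, g1, g2, g3, g4, -⟩ := S.T3 x k k' m m' a2 a3 hw' hk.2 hk'.2 hm hm'
    exact ⟨g, ⟨g2, g3⟩, g1, g4⟩
  have rkv : ∀ {k k' : H}, (x = k • S.z1 ∨ x = k • S.z2) → S.ar x (k' • S.v) → False := by
    intro k k' e h
    have r1 := S.ar_rk _ _ h
    have r2 := S.ar_rk _ _ S.az1
    have r3 := S.ar_rk _ _ S.az2
    rw [S.rk_smul] at r1
    rcases e with e | e
    · rw [e, S.rk_smul] at r1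
      omega
    · rw [e, S.rk_smul] at r1
      omega
  have same : (x = k • S.z1 ∨ x = k • S.z2) → (x = k' • S.z1 ∨ x = k' • S.z2) →
      k⁻¹ * k' ∈ K := by
    intro e e'
    obtain ⟨g, g1, g2, g3⟩ := pole a1 b1 e e'
    -- `k'⁻¹ g k` fixes `v`, `k⁻¹ g k` fixes `z1` or `z2`
    have t1 : k'⁻¹ * g * k ∈ K := by
      apply hv _ (S.JJ.mul_mem (S.JJ.mul_mem (S.JJ.inv_mem b1) g1) a1)
      rw [mul_smul, mul_smul, g3, inv_smul_smul]
    have t2 : k⁻¹ * g * k ∈ K := by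
      have hJ : k⁻¹ * g * k ∈ S.JJ := S.JJ.mul_mem (S.JJ.mul_mem (S.JJ.inv_mem a1) g1) a1
      rcases e with e | e
      · apply h1 _ hJ
        rw [mul_smul, mul_smul, ← e, g2, e, inv_smul_smul]
      · apply h2 _ hJ
        rw [mul_smul, mul_smul, ← e, g2, e, inv_smul_smul]
    have t3 := K.mul_mem t2 (K.inv_mem t1)
    have e5 : k⁻¹ * g * k * (k'⁻¹ * g * k)⁻¹ = k⁻¹ * k' := by group
    rwa [e5] at t3
  rcases a4 with a4 | a4 | a4 <;> rcases b4 with b4 | b4 | b4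
  · exact same (Or.inl a4) (Or.inl b4)
  · exact same (Or.inl a4) (Or.inr b4)
  · exact absurd (rkv (Or.inl a4) b4) id
  · exact same (Or.inr a4) (Or.inl b4)
  · exact same (Or.inr a4) (Or.inr b4)
  · exact absurd (rkv (Or.inr a4) b4) id
  · exact absurd (rkv (Or.inl b4) a4) id
  · exact absurd (rkv (Or.inr b4) a4) id
  · by_cases e : k • S.v = k' • S.v
    · apply hv _ hm
      rw [mul_smul, ← e, inv_smul_smul]
    · exfalso
      have u1 : S.u ∈ S.J (k • S.v) := mem_J_v.2 (show S.u = k • S.u from a1.2.symm)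
      have u2 : S.u ∈ S.J (k' • S.v) := mem_J_v.2 (show S.u = k' • S.u from b1.2.symm)
      exact S.exits1 x S.u _ _ S.w a3 a4 b4 u1 u2 e S.adj.symm a2

/-- the edge group is generated by the stabilisers of `z1`, `z2`, `v` -/
theorem gen_JJ (K : Subgroup H) (h1 : ∀ g ∈ S.JJ, g • S.z1 = S.z1 → g ∈ K)
    (h2 : ∀ g ∈ S.JJ, g • S.z2 = S.z2 → g ∈ K) (hv : ∀ g ∈ S.JJ, g • S.v = S.v → g ∈ K) :
    S.JJ ≤ K := by
  intro j hj
  have hu1 := u_z S.az1
  have t1 : Tg S S.z1 1 := ⟨S.JJ.one_mem, S.wz1, hu1, Or.inl (one_smul _ _).symm⟩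
  have tj : Tg S (j • S.z1) j := by
    refine ⟨hj, ?_, ?_, Or.inl rfl⟩
    · have := S.J_smul j _ _ S.wz1
      rwa [show j • S.w = S.w from hj.1] at this
    · have := S.J_smul j _ _ hu1
      rwa [show j • S.u = S.u from hj.2] at this
  have hco := S.walls S.z1 (j • S.z1) S.wz1 hu1 tj.2.1 tj.2.2.1
  have step : ∀ (a b : V), ((S.w ∈ S.J a ∧ S.u ∈ S.J a) ∧ (S.w ∈ S.J b ∧ S.u ∈ S.J b) ∧
      ∃ q c, S.Cc c a q b ∧ ((S.J q ⊆ bey S.T S.w S.u ∧ c ∈ bey S.T S.u S.w) ∨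
        (S.J q ⊆ bey S.T S.u S.w ∧ c ∈ bey S.T S.w S.u))) →
      ∃ k, Tg S a k ∧ Tg S b k := by
    rintro a b ⟨ha, hb, q, c, hc, h⟩
    obtain ⟨-, k, hk, rfl⟩ := cut_off hc h
    have one : ∀ n m : V, S.w ∈ S.J n → S.u ∈ S.J n → S.Cc c n (k • S.v) m → Tg S n k := by
      intro n m hn hn' hc
      refine ⟨hk, hn, hn', ?_⟩
      rcases S.Cc_E _ _ _ _ hc with e | e
      · exact Or.inr (Or.inr e)
      · have e' : S.ar S.v (k⁻¹ • n) := by
          have := S.ar_smul k⁻¹ _ _ e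
          rwa [inv_smul_smul] at this
        rcases S.two _ _ _ _ S.az1 S.az2 e' with h4 | h4 | h4
        · exact absurd h4 S.zne
        · exact Or.inr (Or.inl (by rw [h4, smul_inv_smul]))
        · exact Or.inl (by rw [h4, smul_inv_smul])
    exact ⟨k, one a b ha.1 ha.2 hc, one b a hb.1 hb.2 (S.Cc_symm _ _ _ _ hc)⟩
  have sp := (tag_spread (tag := Tg S) (S := K)
    (fun n m k hR hn => by
      obtain ⟨k', a1, a2⟩ := step n m hR
      exact ⟨k', a2, Tg.uniq h1 h2 hv hn a1⟩)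
    (fun n m k hR hm => by
      obtain ⟨k', a1, a2⟩ := step n m hR
      exact ⟨k', a1, Tg.uniq h1 h2 hv hm a2⟩) hco).1 1 t1
  obtain ⟨k', a1, a2⟩ := sp
  have a3 := Tg.uniq h1 h2 hv a1 tj
  have := K.mul_mem a2 a3
  rwa [inv_one, one_mul, mul_inv_cancel_left] at this

/-- a line of the edge group -/
noncomputable def LJ (S : T5 H V X) : DL ↥S.JJ := DT.dl S.J_dt

/-- if the three stabilisers fix one place, contradiction -/
theorem no_place (p : ℤ) (h1 : ∀ g : ↥S.JJ, g.1 • S.z1 = S.z1 → g ∈ S.LJ.St p)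
    (h2 : ∀ g : ↥S.JJ, g.1 • S.z2 = S.z2 → g ∈ S.LJ.St p)
    (hv : ∀ g : ↥S.JJ, g.1 • S.v = S.v → g ∈ S.LJ.St p) : False := by
  have h := gen_JJ (S := S) ((S.LJ.St p).map S.JJ.subtype)
    (fun g hg e => ⟨⟨g, hg⟩, h1 _ e, rfl⟩) (fun g hg e => ⟨⟨g, hg⟩, h2 _ e, rfl⟩)
    (fun g hg e => ⟨⟨g, hg⟩, hv _ e, rfl⟩)
  have hall : ∀ g : ↥S.JJ, g ∈ S.LJ.St p := by
    intro g
    obtain ⟨x, hx, e⟩ := h g.2
    have : x = g := Subtype.ext e
    rw [← this]
    exact hx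
  have hinf := S.LJ.infinite
  have hfin := S.LJ.St_finite p
  exact hinf.not_finite (Finite.of_injective
    (fun g : ↥S.JJ => (⟨g, hall g⟩ : ↥(S.LJ.St p)))
    (fun a b e => congrArg Subtype.val e))

/-- the stabiliser of a vertex in the edge group -/
def sJ (S : T5 H V X) (x : V) : Subgroup ↥S.JJ := (stabilizer H x).comap S.JJ.subtype

theorem sJ_finite {x : V} (h : Finite ↥(stabilizer H x ⊓ S.JJ)) : Finite ↥(sJ S x) :=
  Finite.of_injective (fun g : ↥(sJ S x) => (⟨g.1.1, g.2, g.1.2⟩ : ↥(stabilizer H x ⊓ S.JJ)))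
    (fun a b e => by
      have h1 := congrArg (fun y : ↥(stabilizer H x ⊓ S.JJ) => y.1) e
      exact Subtype.ext (Subtype.ext h1))

theorem fin_v : Finite ↥(stabilizer H S.v ⊓ S.JJ) := by
  have := S.vfin
  exact Finite.of_injective _ (Subgroup.inclusion_injective
    (inf_le_left : stabilizer H S.v ⊓ S.JJ ≤ stabilizer H S.v))

theorem fix_z2 {g : H} (hv : g • S.v = S.v) (h1 : g • S.z1 = S.z1) : g • S.z2 = S.z2 := by
  have h := S.ar_smul g _ _ S.az2
  rw [hv] at h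
  rcases S.two _ _ _ _ S.az1 S.az2 h with h2 | h2 | h2
  · exact absurd h2 S.zne
  · exact h2.symm
  · exfalso
    have h3 : g • S.z1 = g • S.z2 := by rw [h1, h2]
    exact S.zne (smul_left_cancel _ h3)

theorem swap_or {g : H} (hv : g • S.v = S.v) : g • S.z1 = S.z1 ∨ g • S.z1 = S.z2 := by
  have h := S.ar_smul g _ _ S.az1
  rw [hv] at h
  rcases S.two _ _ _ _ S.az1 S.az2 h with h2 | h2 | h2
  · exact absurd h2 S.zne
  · exact Or.inr h2.symm
  · exact Or.inl h2.symm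

theorem not_rev {g : H} (hg : g ∈ S.JJ) (hv : g • S.v = S.v) (h1 : g • S.z1 = S.z1) :
    ¬ Rev S.JJ g := by
  intro hr
  have hε := (rev_iff S.LJ hg).1 hr
  have h2 := fix_z2 hv h1
  obtain ⟨p1, hp1⟩ := S.LJ.exists_place (sJ S S.z1) (sJ_finite fin_z1)
  obtain ⟨p2, hp2⟩ := S.LJ.exists_place (sJ S S.z2) (sJ_finite fin_z2)
  obtain ⟨p3, hp3⟩ := S.LJ.exists_place (sJ S S.v) (sJ_finite fin_v)
  have r1 : S.LJ.Refl p1 ⟨g, hg⟩ := DL.refl_of_fix hε (hp1 (show g • S.z1 = S.z1 from h1))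
  have r2 : S.LJ.Refl p2 ⟨g, hg⟩ := DL.refl_of_fix hε (hp2 (show g • S.z2 = S.z2 from h2))
  have r3 : S.LJ.Refl p3 ⟨g, hg⟩ := DL.refl_of_fix hε (hp3 (show g • S.v = S.v from hv))
  have e2 : p2 = p1 := r2.unique r1
  have e3 : p3 = p1 := r3.unique r1
  rw [e2] at hp2
  rw [e3] at hp3
  exact no_place p1 (fun g h => hp1 h) (fun g h => hp2 h) (fun g h => hp3 h)

theorem rev_of_swap {g : H} (hg : g ∈ S.JJ) (hv : g • S.v = S.v) (h1 : g • S.z1 = S.z2) :
    Rev S.JJ g := by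
  by_contra hr
  have hε : S.LJ.ε ⟨g, hg⟩ = 1 :=
    (S.LJ.ε_cases _).resolve_right (fun h => hr ((rev_iff S.LJ hg).2 h))
  have hN : ∀ h : ↥S.JJ, h.1 • S.v = S.v → h ∈ S.LJ.N := by
    have hle := S.LJ.le_N_or_mir (sJ S S.v) (sJ_finite fin_v)
    refine fun h hh => (hle.resolve_right ?_) hh
    rintro ⟨a, ha, ea⟩
    have hav : a.1 • S.v = S.v := ha
    rcases swap_or hav with e | e
    · exact not_rev a.2 hav e ((rev_iff S.LJ a.2).2 ea)
    · have hm : g⁻¹ * a.1 ∈ S.JJ := S.JJ.mul_mem (S.JJ.inv_mem hg) a.2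
      have f1 : (g⁻¹ * a.1) • S.v = S.v := by
        rw [mul_smul, hav, inv_smul_eq_iff, hv]
      have f2 : (g⁻¹ * a.1) • S.z1 = S.z1 := by
        rw [mul_smul, e, ← h1, inv_smul_smul]
      apply not_rev hm f1 f2
      rw [rev_iff S.LJ hm]
      have e3 : (⟨g⁻¹ * a.1, hm⟩ : ↥S.JJ) = (⟨g, hg⟩ : ↥S.JJ)⁻¹ * a := rfl
      rw [e3, map_mul, DL.ε_inv, hε, ea]
      decide
  obtain ⟨p1, hp1⟩ := S.LJ.exists_place (sJ S S.z1) (sJ_finite fin_z1)
  refine no_place p1 (fun h hh => hp1 hh) ?_ (fun h hh => S.LJ.N_le_St p1 (hN h hh))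
  intro h hh
  have hgN : (⟨g, hg⟩ : ↥S.JJ) ∈ S.LJ.N := hN _ hv
  have f1 : ((⟨g, hg⟩ : ↥S.JJ)⁻¹ * h * ⟨g, hg⟩) ∈ S.LJ.St p1 := by
    apply hp1
    show (g⁻¹ * h.1 * g) • S.z1 = S.z1
    rw [mul_smul, mul_smul, h1, hh, ← h1, inv_smul_smul]
  have f2 : (⟨g, hg⟩ : ↥S.JJ) ∈ S.LJ.St p1 := S.LJ.N_le_St p1 hgN
  have f3 := (S.LJ.St p1).mul_mem ((S.LJ.St p1).mul_mem f2 f1)
    ((S.LJ.St p1).inv_mem f2)
  have e5 : (⟨g, hg⟩ : ↥S.JJ) * ((⟨g, hg⟩ : ↥S.JJ)⁻¹ * h * ⟨g, hg⟩) * (⟨g, hg⟩ : ↥S.JJ)⁻¹ = h := by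
    group
  rwa [e5] at f3

/-- elements of the stabiliser of the midpoint normalise the edge group -/
theorem rev_conj {g r : H} (hr : r • S.u = S.u) (h : Rev S.JJ g) : Rev S.JJ (r * g * r⁻¹) := by
  exact h.conj r (fun x hx => conj_JJ hr hx)

end T5

end Pool.Agent.DI
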