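import Pool.Agent.DI.C5A

/-!
# Chapter 5 (thin tail): reversing elements (owner: helper4)
-/

namespace Pool.Agent.DI

open MulAction
open Pool.Agent.SAF (InC orbs FinOrb TAct Conv exists_next)
open Pool.Agent.SAG (IO Zt)
open Pool.Agent.BT (bey mst Hyp side_or dist_cross)

namespace T5

variable {H V X : Type} [Group H] [MulAction H V] [MulAction H X] {S : T5 H V X}

/-! ### positions of the images -/

private theorem cs_smul {x : V} {y t : X} (h : S.Cs x y t) {g : H} (hx : g • x = x)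
    (hy : g • y = y) : S.Cs x y (g • t) := by
  obtain ⟨h1, h2, h3⟩ := h
  refine ⟨?_, h2, ?_⟩
  · have := S.act.adj_smul g _ _ h1
    rwa [hy] at this
  · have := S.J_smul g _ _ h3
    rwa [hx] at this

private theorem swap_of {x : V} {y t1 t2 : X} (h1 : S.Cs x y t1) (h2 : S.Cs x y t2) (hne : t1 ≠ t2)
    {g : H} (hx : g • x = x) (hy : g • y = y) : g • t1 = t1 ∨ g • t1 = t2 := by
  have h3 := cs_smul h1 hx hy
  rcases S.exits3 x y t1 t2 (g • t1) h1.2.1 h1.1 h2.1 h3.1 h1.2.2 h2.2.2 h3.2.2 with e | e | e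
  · exact absurd e hne
  · exact Or.inr e.symm
  · exact Or.inl e.symm

/-- the sides of two neighbours are disjoint -/
private theorem bey_disj {y t1 t2 : X} (h1 : S.T.Adj y t1) (h2 : S.T.Adj y t2) (hne : t1 ≠ t2)
    {p : X} (hp1 : p ∈ bey S.T y t1) (hp2 : p ∈ bey S.T y t2) : False := by
  have e1 : S.T.dist p y = S.T.dist p t1 + 1 := hp1
  have e2 : S.T.dist p y = S.T.dist p t2 + 1 := hp2
  refine hne (next_unique S.act.tree (b := p) h1 h2 ?_ ?_)
  · rw [SimpleGraph.dist_comm, e1, SimpleGraph.dist_comm]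
  · rw [SimpleGraph.dist_comm, e2, SimpleGraph.dist_comm]

private theorem bey_smul {y t p : X} (g : H) (hp : p ∈ bey S.T y t) :
    g • p ∈ bey S.T (g • y) (g • t) := by
  have e : S.T.dist p y = S.T.dist p t + 1 := hp
  show S.T.dist (g • p) (g • y) = S.T.dist (g • p) (g • t) + 1
  rw [S.act.dist_smul, S.act.dist_smul, e]

/-- a pole of `x` which lies beyond `y t` is mapped to a pole beyond `g • y g • t` -/
private theorem sub_bey_smul {a : V} {y t : X} (h : S.J a ⊆ bey S.T y t) (g : H) :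
    S.J (g • a) ⊆ bey S.T (g • y) (g • t) := by
  intro p hp
  have h1 : g⁻¹ • p ∈ S.J a := by
    have := S.J_smul g⁻¹ _ _ hp
    rwa [inv_smul_smul] at this
  have h2 := bey_smul g (h h1)
  rwa [smul_inv_smul] at h2

private theorem pole_or {x a1 a2 b : V} (h1 : S.ar x a1) (h2 : S.ar x a2) (hne : a1 ≠ a2)
    (hb : S.ar x b) : b = a1 ∨ b = a2 := by
  rcases S.two x a1 a2 b h1 h2 hb with e | e | e
  · exact absurd e hne
  · exact Or.inr e.symm
  · exact Or.inl e.symm

/-- the soft case -/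
private theorem neg_soft {x : V} {y t1 t2 : X} (h1 : S.Cs x y t1) (h2 : S.Cs x y t2)
    (hne : t1 ≠ t2) {g : H} (hx : g • x = x) (hy : g • y = y) {a : V} (ha : S.ar x a) :
    Neg S.ar x g ↔ g • t1 = t2 := by
  obtain ⟨a1, ha1, hb1⟩ := S.cross x ⟨a, ha⟩ y t1 h1.1 h1.2.1 h1.2.2
  obtain ⟨a2, ha2, hb2⟩ := S.cross x ⟨a, ha⟩ y t2 h2.1 h2.2.1 h2.2.2
  have hdis : ∀ {b : V} {s s' : X}, S.T.Adj y s → S.T.Adj y s' → s ≠ s' →
      S.J b ⊆ bey S.T y s → S.J b ⊆ bey S.T y s' → False := by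
    intro b s s' k1 k2 k3 k4 k5
    obtain ⟨p, hp⟩ := S.J_ne b
    exact bey_disj k1 k2 k3 (k4 hp) (k5 hp)
  have ha12 : a1 ≠ a2 := by
    rintro rfl
    exact hdis h1.1 h2.1 hne hb1 hb2
  have hg1 : S.J (g • a1) ⊆ bey S.T y (g • t1) := by
    have := sub_bey_smul hb1 g
    rwa [hy] at this
  have hg2 : S.J (g • a2) ⊆ bey S.T y (g • t2) := by
    have := sub_bey_smul hb2 g
    rwa [hy] at this
  have har1 : S.ar x (g • a1) := by
    have := S.ar_smul g _ _ ha1
    rwa [hx] at this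
  constructor
  · rintro ⟨-, ⟨hs, -⟩ | ⟨p, q, hpq, hp, hq, e⟩⟩
    · exact absurd ha (hs a)
    · rcases swap_of h1 h2 hne hx hy with e1 | e1
      · exfalso
        have e2 : g • t2 = t2 := by
          rcases swap_of h2 h1 hne.symm hx hy with e2 | e2
          · exact e2
          · exact absurd (smul_left_cancel _ (e1.trans e2.symm)) hne
        rcases pole_or ha1 ha2 ha12 hp with rfl | rfl <;>
          rcases pole_or ha1 ha2 ha12 hq with rfl | rfl
        · exact hpq rfl
        · rw [e, e1] at hg1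
          exact hdis h1.1 h2.1 hne hg1 hb2
        · rw [e, e2] at hg2
          exact hdis h2.1 h1.1 hne.symm hg2 hb1
        · exact hpq rfl
      · exact e1
  · intro e
    refine ⟨hx, Or.inr ⟨a1, a2, ha12, ha1, ha2, ?_⟩⟩
    rcases pole_or ha1 ha2 ha12 har1 with e1 | e1
    · exfalso
      rw [e1, e] at hg1
      exact hdis h1.1 h2.1 hne hb1 hg1
    · exact e1

/-- the sink case -/
private theorem neg_sink {x : V} {y t1 t2 : X} (h1 : S.Cs x y t1) (h2 : S.Cs x y t2)
    (hne : t1 ≠ t2) {g : H} (hx : g • x = x) (hy : g • y = y) (ha : ∀ a, ¬ S.ar x a) :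
    Neg S.ar x g ↔ g • t1 = t2 := by
  obtain ⟨hD, hH, hJ⟩ : DT (stabilizer H x) ∧ Hyp X (stabilizer H x) ∧
      S.J x = mst S.T (stabilizer H x) := by
    rcases S.snk x ha with ⟨p, hp⟩ | h
    · exfalso
      have e1 := h1.2.1
      have e2 := h1.2.2
      rw [hp] at e1 e2
      exact h1.1.ne (e1.trans e2.symm)
    · exact h
  have hgx : g ∈ stabilizer H x := hx
  have hy' : y ∈ mst S.T (stabilizer H x) := hJ ▸ h1.2.1
  have ht1 : t1 ∈ mst S.T (stabilizer H x) := hJ ▸ h1.2.2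
  have hNeg : Neg S.ar x g ↔ hD.dl.ε ⟨g, hgx⟩ = -1 := by
    rw [← rev_iff hD.dl hgx]
    constructor
    · rintro ⟨-, ⟨-, h⟩ | ⟨p, q, -, hp, -⟩⟩
      · exact h
      · exact absurd hp (ha p)
    · intro h
      exact ⟨hx, Or.inl ⟨ha, h⟩⟩
  obtain ⟨a, m, hL⟩ := exists_line hD.dl S.act hD.1 hH
  rw [hNeg]
  constructor
  · intro hε
    rcases swap_of h1 h2 hne hx hy with e | e
    · exfalso
      have h3 := hL.stab_edge S.act hy' ht1 h1.1.ne (g := ⟨g, hgx⟩) hy e
      rw [h3.1] at hε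
      exact DL.ne_neg_one hε
    · exact e
  · intro e
    rcases hD.dl.ε_cases ⟨g, hgx⟩ with hε | hε
    · exfalso
      have hN : (⟨g, hgx⟩ : ↥(stabilizer H x)) ∈ hD.dl.N := by
        rcases hL.stab S.act hy' (g := ⟨g, hgx⟩) hy with h3 | ⟨n, -, h3⟩
        · exact h3
        · rcases hD.dl.mem_St_iff.1 h3 with h4 | h4
          · exact h4
          · rw [h4.1] at hε
            exact absurd hε.symm DL.ne_neg_one
      have h5 : g • t1 = t1 := fixN_aux hD.dl S.act hD.1 hH hN ht1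
      exact hne (h5.symm.trans e)
    · exact hε

/-- an element which fixes `x` and the point `y` inside `J x` reverses `x` iff it exchanges the two
neighbours of `y` in `J x` (sinks and softs; `y` bad or a midpoint) -/
theorem neg_iff {x : V} {y t1 t2 : X} (h1 : S.Cs x y t1) (h2 : S.Cs x y t2) (hne : t1 ≠ t2)
    {g : H} (hx : g • x = x) (hy : g • y = y) : Neg S.ar x g ↔ g • t1 = t2 := by
  by_cases h : ∀ a, ¬ S.ar x a
  · exact neg_sink h1 h2 hne hx hy h
  · push Not at h
    obtain ⟨a, ha⟩ := h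
    exact neg_soft h1 h2 hne hx hy ha

/-- conjugation -/
theorem neg_conj {a : V} {g k : H} (h : Neg S.ar a g) : Neg S.ar (k • a) (k * g * k⁻¹) := by
  obtain ⟨h1, h2⟩ := h
  have e : (k * g * k⁻¹) • k • a = k • a := by
    rw [mul_smul, mul_smul, inv_smul_smul, h1]
  refine ⟨e, ?_⟩
  rcases h2 with ⟨h2, h3⟩ | ⟨p, q, hpq, hp, hq, h3⟩
  · refine Or.inl ⟨?_, h3.conj k ?_⟩
    · intro b hb
      refine h2 (k⁻¹ • b) ?_
      have := S.ar_smul k⁻¹ _ _ hb
      rwa [inv_smul_smul] at this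
    · intro x hx
      have hx' : x • a = a := hx
      show (k * x * k⁻¹) • k • a = k • a
      rw [mul_smul, mul_smul, inv_smul_smul, hx']
  · refine Or.inr ⟨k • p, k • q, fun e => hpq (smul_left_cancel _ e), S.ar_smul k _ _ hp,
      S.ar_smul k _ _ hq, ?_⟩
    rw [mul_smul, mul_smul, inv_smul_smul, h3]

/-! ### the slice -/

/-- if `w` has no neighbour in `J a` then `J a` is `w` -/
private theorem single {a : V} (ha : S.w ∈ S.J a) (hn : ∀ x, S.T.Adj S.w x → x ∉ S.J a) :
    S.J a = {S.w} := by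
  ext p
  rw [Set.mem_singleton_iff]
  constructor
  · intro hp
    by_contra hne
    obtain ⟨c, hc, hd⟩ := exists_next S.act.tree (Ne.symm hne)
    refine hn c hc (S.J_conv a _ ha _ hp c ?_)
    have : S.T.dist S.w c = 1 := SimpleGraph.dist_eq_one_iff_adj.2 hc
    omega
  · rintro rfl
    exact ha

/-- a point of an axis has two neighbours on it -/
private theorem two_nb {a : V} (hs : ∀ b, ¬ S.ar a b) {y t : X} (h : S.Cs a y t) :
    ∃ t1 t2, t1 ≠ t2 ∧ S.Cs a y t1 ∧ S.Cs a y t2 := by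
  obtain ⟨hD, hH, hJ⟩ : DT (stabilizer H a) ∧ Hyp X (stabilizer H a) ∧
      S.J a = mst S.T (stabilizer H a) := by
    rcases S.snk a hs with ⟨p, hp⟩ | h'
    · exfalso
      have e1 := h.2.1
      have e2 := h.2.2
      rw [hp] at e1 e2
      exact h.1.ne (e1.trans e2.symm)
    · exact h'
  obtain ⟨pt, m, hL⟩ := exists_line hD.dl S.act hD.1 hH
  have hT := S.act.tree
  have hy : y ∈ mst S.T (stabilizer H a) := hJ ▸ h.2.1
  have hpt : ∀ n, pt n ∈ S.J a := by
    intro n
    rw [hJ]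
    refine (hL.axis _).2 ⟨n, ?_⟩
    have := hL.dist' n (n + 1)
    rw [SimpleGraph.dist_self, zero_add, this]
    have : (n - (n + 1)).natAbs = 1 := by omega
    rw [this, one_mul]
  -- two points with `y` strictly between
  obtain ⟨p, q, hp, hq, hpy, hqy, hd⟩ : ∃ p q, p ∈ S.J a ∧ q ∈ S.J a ∧ y ≠ p ∧ y ≠ q ∧
      S.T.dist p y + S.T.dist y q = S.T.dist p q := by
    by_cases hn : ∃ n, y = pt n
    · obtain ⟨n, rfl⟩ := hn
      refine ⟨pt (n - 1), pt (n + 1), hpt _, hpt _, ?_, ?_, ?_⟩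
      · intro e
        have := hL.inj e
        omega
      · intro e
        have := hL.inj e
        omega
      · rw [hL.dist', hL.dist', hL.dist']
        have e1 : (n - 1 - n).natAbs = 1 := by omega
        have e2 : (n - (n + 1)).natAbs = 1 := by omega
        have e3 : (n - 1 - (n + 1)).natAbs = 2 := by omega
        rw [e1, e2, e3]
        ring
    · push Not at hn
      obtain ⟨n, hn'⟩ := (hL.axis y).1 hy
      refine ⟨pt n, pt (n + 1), hpt _, hpt _, hn _, hn _, ?_⟩
      rw [hn', hL.dist']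
      have : (n - (n + 1)).natAbs = 1 := by omega
      rw [this, one_mul]
  obtain ⟨t1, ht1, hd1⟩ := exists_next hT hpy
  obtain ⟨t2, ht2, hd2⟩ := exists_next hT hqy
  have e1 : S.T.dist y t1 = 1 := SimpleGraph.dist_eq_one_iff_adj.2 ht1
  have e2 : S.T.dist y t2 = 1 := SimpleGraph.dist_eq_one_iff_adj.2 ht2
  refine ⟨t1, t2, ?_, ⟨ht1, h.2.1, S.J_conv a _ h.2.1 _ hp t1 (by omega)⟩,
    ⟨ht2, h.2.1, S.J_conv a _ h.2.1 _ hq t2 (by omega)⟩⟩
  rintro rfl
  have t := hT.connected.dist_triangle (u := p) (v := t1) (w := q)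
  have c1 : S.T.dist p t1 = S.T.dist t1 p := SimpleGraph.dist_comm
  have c2 : S.T.dist p y = S.T.dist y p := SimpleGraph.dist_comm
  omega

variable {Y : Type} [MulAction ↥(stabilizer H S.w) Y] (L : Slc S Y)

private theorem nr_fix {a : V} (ha : S.w ∈ S.J a) {g : ↥(stabilizer H S.w)} :
    g • L.nr a ha = L.nr a ha ↔ g.1 • a = a := by
  have hgw : g.1 • S.w = S.w := g.2
  have h' : S.w ∈ S.J (g.1 • a) := by
    have := S.J_smul g.1 _ _ ha
    rwa [hgw] at this
  rw [L.nr_smul g a ha h']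
  constructor
  · intro e
    exact L.nr_inj _ _ _ _ e
  · intro e
    congr 1

private theorem tv_fix {x : X} (hx : S.T.Adj S.w x) {g : ↥(stabilizer H S.w)} :
    g • L.tv x hx = L.tv x hx ↔ g.1 • x = x := by
  have hgw : g.1 • S.w = S.w := g.2
  have h' : S.T.Adj S.w (g.1 • x) := by
    have := S.act.adj_smul g.1 _ _ hx
    rwa [hgw] at this
  rw [L.tv_smul g x hx h']
  constructor
  · intro e
    exact L.tv_inj _ _ _ _ e
  · intro e
    congr 1

private theorem io_sub {g : ↥(stabilizer H S.w)} : IO (g : H) ↔ IO g := io_coe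

/-- reversing elements in the slice, sinks of the slice -/
private theorem rev_nr {a : V} (ha : S.w ∈ S.J a) (h1 : S.J a = {S.w})
    {g : ↥(stabilizer H S.w)} :
    Rev (stabilizer ↥(stabilizer H S.w) (L.nr a ha)) g ↔ Rev (stabilizer H a) g.1 := by
  constructor
  · rintro ⟨hg, c, hc, hio, e⟩
    exact ⟨(nr_fix L ha).1 hg, c.1, (nr_fix L ha).1 hc, io_sub.2 hio,
      congrArg Subtype.val e⟩
  · rintro ⟨hg, c, hc, hio, e⟩
    have hcw : c • S.w = S.w := by
      have h2 := S.J_smul c _ _ ha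
      rw [show c • a = a from hc, h1] at h2
      exact h2
    exact ⟨(nr_fix L ha).2 hg, ⟨c, hcw⟩, (nr_fix L ha).2 hc, io_sub.1 hio, Subtype.ext e⟩

/-- reversing elements in the slice, old vertices -/
theorem neg_nr {a : V} (ha : S.w ∈ S.J a) {g : ↥(stabilizer H S.w)} (hg : g.1 • a = a) :
    Neg L.ar (L.nr a ha) g ↔ Neg S.ar a g.1 := by
  have hgw : g.1 • S.w = S.w := g.2
  have hfix : g • L.nr a ha = L.nr a ha := (nr_fix L ha).2 hg
  constructor
  · rintro ⟨-, ⟨hs, hr⟩ | ⟨p, q, hpq, hp, hq, e⟩⟩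
    · -- a sink of the slice
      have hn : ∀ x, S.T.Adj S.w x → x ∉ S.J a := by
        intro x hx hxa
        exact hs _ ((L.ar_tv a x ha hx).2 hxa)
      have h1 := single ha hn
      have hsink : ∀ b, ¬ S.ar a b := by
        intro b hb
        obtain ⟨p, hp1, hp2⟩ := one_ex hb
        rw [h1] at hp1
        rw [Set.mem_singleton_iff.1 hp1] at hp2
        exact hs _ ((L.ar_nr a b ha hp2).2 hb)
      exact ⟨hg, Or.inl ⟨hsink, (rev_nr L ha h1).1 hr⟩⟩
    · rcases L.cases p with ⟨x, hx, rfl⟩ | ⟨x, hx, rfl⟩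
      · have hx' : S.w ∈ S.J (g.1 • x) := by
          have := S.J_smul g.1 _ _ hx
          rwa [hgw] at this
        rw [L.nr_smul g x hx hx'] at e
        have hax := (L.ar_nr a x ha hx).1 hp
        subst e
        have hax' := (L.ar_nr a _ ha hx').1 hq
        refine ⟨hg, Or.inr ⟨x, g.1 • x, ?_, hax, hax', rfl⟩⟩
        intro e
        apply hpq
        congr 1
      · have hx' : S.T.Adj S.w (g.1 • x) := by
          have := S.act.adj_smul g.1 _ _ hx
          rwa [hgw] at this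
        rw [L.tv_smul g x hx hx'] at e
        subst e
        have hax := (L.ar_tv a x ha hx).1 hp
        have hax' := (L.ar_tv a _ ha hx').1 hq
        refine (neg_iff (S := S) (y := S.w) ⟨hx, ha, hax⟩ ⟨hx', ha, hax'⟩ ?_ hg hgw).2 rfl
        intro e
        apply hpq
        congr 1
  · rintro ⟨-, ⟨hs, hr⟩ | ⟨p, q, hpq, hp, hq, e⟩⟩
    · -- a sink
      by_cases hn : ∀ x, S.T.Adj S.w x → x ∉ S.J a
      · refine ⟨hfix, Or.inl ⟨?_, (rev_nr L ha (single ha hn)).2 hr⟩⟩
        intro b hb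
        rcases L.cases b with ⟨x, hx, rfl⟩ | ⟨x, hx, rfl⟩
        · exact hs _ ((L.ar_nr a x ha hx).1 hb)
        · exact hn x hx ((L.ar_tv a x ha hx).1 hb)
      · push Not at hn
        obtain ⟨x, hx, hxa⟩ := hn
        obtain ⟨t1, t2, hne, c1, c2⟩ := two_nb hs ⟨hx, ha, hxa⟩
        have h3 := (neg_iff c1 c2 hne hg hgw).1 ⟨hg, Or.inl ⟨hs, hr⟩⟩
        refine ⟨hfix, Or.inr ⟨L.tv t1 c1.1, L.tv t2 c2.1, fun e => hne (L.tv_inj _ _ _ _ e),
          (L.ar_tv _ _ _ _).2 c1.2.2, (L.ar_tv _ _ _ _).2 c2.2.2, ?_⟩⟩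
        have hx' : S.T.Adj S.w (g.1 • t1) := by
          rw [h3]; exact c2.1
        rw [L.tv_smul g t1 c1.1 hx']
        congr 1
    · -- a soft
      refine ⟨hfix, Or.inr ?_⟩
      by_cases hwp : S.w ∈ S.J p
      · have hwq : S.w ∈ S.J q := by
          have := S.J_smul g.1 _ _ hwp
          rwa [hgw, e] at this
        refine ⟨L.nr p hwp, L.nr q hwq, fun e => hpq (L.nr_inj _ _ _ _ e),
          (L.ar_nr _ _ _ _).2 hp, (L.ar_nr _ _ _ _).2 hq, ?_⟩
        have h' : S.w ∈ S.J (g.1 • p) := by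
          rw [e]; exact hwq
        rw [L.nr_smul g p hwp h']
        congr 1
      · -- a neighbour of `w` in `J a`
        obtain ⟨x, hx, hxa⟩ : ∃ x, S.T.Adj S.w x ∧ x ∈ S.J a := by
          by_contra hcon
          push Not at hcon
          have h1 := single ha hcon
          obtain ⟨r, hr1, hr2⟩ := one_ex hp
          rw [h1] at hr1
          rw [Set.mem_singleton_iff.1 hr1] at hr2
          exact hwp hr2
        have hx' : S.T.Adj S.w (g.1 • x) := by
          have := S.act.adj_smul g.1 _ _ hx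
          rwa [hgw] at this
        have hxa' : g.1 • x ∈ S.J a := by
          have := S.J_smul g.1 _ _ hxa
          rwa [hg] at this
        have hne : x ≠ g.1 • x := by
          intro hfx
          -- both poles are on one side
          obtain ⟨b, hb, hbJ⟩ := S.cross a ⟨p, hp⟩ S.w x hx ha hxa
          obtain ⟨b', hb', hbJ'⟩ := S.cross a ⟨p, hp⟩ x S.w hx.symm hxa ha
          have hgq : g.1 • q = p := by
            have h5 : S.ar a (g.1 • q) := by
              have := S.ar_smul g.1 _ _ hq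
              rwa [hg] at this
            rcases pole_or hp hq hpq h5 with e5 | e5
            · exact e5
            · exact absurd (smul_left_cancel _ (e.trans e5.symm)) hpq
          have hb1 := sub_bey_smul hbJ g.1
          rw [hgw, ← hfx] at hb1
          have hdis : ∀ {c : V}, S.J c ⊆ bey S.T S.w x → S.J c ⊆ bey S.T x S.w → False := by
            intro c k1 k2
            obtain ⟨r, hr⟩ := S.J_ne c
            have e1 : S.T.dist r S.w = S.T.dist r x + 1 := k1 hr
            have e2 : S.T.dist r x = S.T.dist r S.w + 1 := k2 hr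
            omega
          rcases pole_or hp hq hpq hb with rfl | rfl <;>
            rcases pole_or hp hq hpq hb' with rfl | rfl
          · exact hdis hbJ hbJ'
          · rw [e] at hb1
            exact hdis hb1 hbJ'
          · rw [hgq] at hb1
            exact hdis hb1 hbJ'
          · exact hdis hbJ hbJ'
        refine ⟨L.tv x hx, L.tv (g.1 • x) hx', fun e => hne (L.tv_inj _ _ _ _ e),
          (L.ar_tv _ _ _ _).2 hxa, (L.ar_tv _ _ _ _).2 hxa', ?_⟩
        rw [L.tv_smul g x hx hx']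

/-- reversing elements in the slice, new sinks -/
theorem neg_tv {x : X} (hx : S.T.Adj S.w x) {g : ↥(stabilizer H S.w)} (hg : g.1 • x = x) :
    Neg L.ar (L.tv x hx) g ↔ Rev (stabilizer H S.w ⊓ stabilizer H x) g.1 := by
  have hfix : g • L.tv x hx = L.tv x hx := (tv_fix L hx).2 hg
  constructor
  · rintro ⟨-, ⟨-, hr⟩ | ⟨p, q, -, hp, -⟩⟩
    · obtain ⟨h1, c, hc, hio, e⟩ := hr
      exact ⟨⟨g.2, hg⟩, c.1, ⟨c.2, (tv_fix L hx).1 hc⟩, io_sub.2 hio, congrArg Subtype.val e⟩
    · exact absurd hp (L.tv_sink _ _ _)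
  · rintro ⟨h1, c, hc, hio, e⟩
    refine ⟨hfix, Or.inl ⟨fun b => L.tv_sink _ _ _, hfix, ⟨c, hc.1⟩, (tv_fix L hx).2 hc.2,
      io_sub.1 hio, Subtype.ext e⟩⟩

end T5

end Pool.Agent.DI
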