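import Pool.Agent.DI.DLT

/-!
# Stabilisers on the axis of a group of type `D_inf`
-/

namespace Pool.Agent.DI

open MulAction
open Pool.Agent.SAF (InC TAct Conv hull exists_next subset_hull hull_conv fix_of_finite_inv dist_edge)
open Pool.Agent.SAG (IO Zt)
open Pool.Agent.BT (side_or dist_cross conv_side exists_proj mst Hyp mst_conv axis finite_of_hyp)

namespace DL.OnTree

variable {H X : Type} [Group H] [MulAction H X] {G : SimpleGraph X} {A : Subgroup H} {L : DL ↥A}
  {a : ℤ → X} {m : ℕ}

theorem dist' (h : L.OnTree G a m) (n k : ℤ) : G.dist (a n) (a k) = (n - k).natAbs * m := by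
  rcases le_total n k with h1 | h1
  · obtain ⟨i, hi⟩ : ∃ i : ℕ, k = n + i := ⟨(k - n).toNat, by omega⟩
    rw [hi, h.dist]
    congr 1
    omega
  · obtain ⟨i, hi⟩ : ∃ i : ℕ, n = k + i := ⟨(n - k).toNat, by omega⟩
    rw [hi, SimpleGraph.dist_comm, h.dist]
    congr 1
    omega

theorem inj (h : L.OnTree G a m) {n k : ℤ} (e : a n = a k) : n = k := by
  have h1 := h.dist' n k
  rw [e, SimpleGraph.dist_self] at h1
  have h2 := h.pos
  rcases Nat.mul_eq_zero.1 h1.symm with h3 | h3 <;> omega

theorem smul_iff (h : L.OnTree G a m) {n : ℤ} {g : ↥A} : (g : H) • a n = a n ↔ g ∈ L.St n := by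
  rw [h.smul]
  constructor
  · intro e
    exact h.inj e
  · intro e
    have : L.act g n = n := e
    rw [this]

/-- a point in two segments is an end of both -/
theorem two_segs (h : L.OnTree G a m) (hG : G.IsTree) {n k : ℤ} {w : X}
    (h1 : G.dist (a n) w + G.dist w (a (n + 1)) = m)
    (h2 : G.dist (a k) w + G.dist w (a (k + 1)) = m) (hlt : n < k) : k = n + 1 ∧ w = a k := by
  have d1 := h.dist' n (k + 1)
  have d2 := h.dist' (n + 1) (k + 1)
  have d3 := h.dist' n k
  have hp := h.pos
  have t1 : G.dist (a n) (a (k + 1)) ≤ G.dist (a n) w + G.dist w (a (k + 1)) :=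
    hG.connected.dist_triangle
  obtain ⟨i, hi⟩ : ∃ i : ℕ, k = n + 1 + i := ⟨(k - n - 1).toNat, by omega⟩
  have e1 : (n - (k + 1)).natAbs = i + 2 := by omega
  rw [e1] at d1
  have e2 : (i + 2) * m = i * m + m + m := by ring
  have h3 : i * m = 0 ∧ G.dist (a n) w = m ∧ G.dist w (a (k + 1)) = m := by omega
  have h4 : i = 0 := by
    rcases Nat.mul_eq_zero.1 h3.1 with h | h <;> omega
  refine ⟨by omega, ?_⟩
  have h5 : G.dist (a k) w = 0 := by omega
  exact (hG.connected.dist_eq_zero_iff.1 h5).symm

/-- the stabiliser of a point of the axis -/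
theorem stab (h : L.OnTree G a m) (hG : TAct H G) {w : X} (hw : w ∈ mst G A) {g : ↥A}
    (hg : (g : H) • w = w) : g ∈ L.N ∨ ∃ n, w = a n ∧ g ∈ L.St n := by
  by_cases hn : ∃ n, w = a n
  · obtain ⟨n, rfl⟩ := hn
    exact Or.inr ⟨n, rfl, h.smul_iff.1 hg⟩
  left
  push Not at hn
  obtain ⟨n, hn'⟩ := (h.axis w).1 hw
  have h1 : G.dist ((g : H) • a n) ((g : H) • w) + G.dist ((g : H) • w) ((g : H) • a (n + 1)) = m := by
    rw [hG.dist_smul, hG.dist_smul, hn']
  rw [hg, h.smul, h.smul] at h1
  have h3 := L.act_sub g (n + 1) n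
  have h4 := L.act_emod g n
  rcases L.ε_cases g with hε | hε
  · rw [hε, Units.val_one] at h3
    rw [show L.act g (n + 1) = L.act g n + 1 by omega] at h1
    have h5 : L.act g n = n := by
      by_contra hne
      rcases lt_or_gt_of_ne hne with h6 | h6
      · exact hn n (h.two_segs hG.tree h1 hn' h6).2
      · exact hn _ (h.two_segs hG.tree hn' h1 h6).2
    refine ⟨hε, ?_⟩
    unfold DL.act at h5
    rw [hε, Units.val_one] at h5
    omega
  · exfalso
    rw [hε, Units.val_neg, Units.val_one] at h3
    have h5 : L.act g n = L.act g (n + 1) + 1 := by omega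
    rw [h5] at h1
    have h6 : G.dist (a (L.act g (n + 1))) w + G.dist w (a (L.act g (n + 1) + 1)) = m := by
      have c1 : G.dist (a (L.act g (n + 1))) w = G.dist w (a (L.act g (n + 1))) :=
        SimpleGraph.dist_comm
      have c2 : G.dist w (a (L.act g (n + 1) + 1)) = G.dist (a (L.act g (n + 1) + 1)) w :=
        SimpleGraph.dist_comm
      omega
    have h7 : L.act g (n + 1) ≠ n := by omega
    rcases lt_or_gt_of_ne h7 with h8 | h8
    · exact hn n (h.two_segs hG.tree h6 hn' h8).2
    · exact hn _ (h.two_segs hG.tree hn' h6 h8).2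

/-- edges of the axis are fixed by the kernel only -/
theorem stab_edge (h : L.OnTree G a m) (hG : TAct H G) {w w' : X} (hw : w ∈ mst G A)
    (hw' : w' ∈ mst G A) (hne : w ≠ w') {g : ↥A} (hg : (g : H) • w = w) (hg' : (g : H) • w' = w') :
    g ∈ L.N := by
  rcases h.stab hG hw hg with h1 | ⟨n, e1, h1⟩
  · exact h1
  rcases h.stab hG hw' hg' with h2 | ⟨k, e2, h2⟩
  · exact h2
  rcases L.mem_St_iff.1 h1 with h3 | h3
  · exact h3
  rcases L.mem_St_iff.1 h2 with h4 | h4
  · exact h4
  exact absurd (by rw [e1, e2, h3.unique h4]) hne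

/-- the reversing elements which fix a point of the axis -/
theorem rev_fix (h : L.OnTree G a m) (hG : TAct H G) {w : X} (hw : w ∈ mst G A) {g : ↥A}
    (hg : (g : H) • w = w) (hε : L.ε g = -1) : ∃ n, w = a n ∧ L.Refl n g := by
  rcases h.stab hG hw hg with h1 | ⟨n, e1, h1⟩
  · rw [h1.1] at hε
    exact absurd hε DL.ne_neg_one
  · rcases L.mem_St_iff.1 h1 with h3 | h3
    · rw [h3.1] at hε
      exact absurd hε DL.ne_neg_one
    · exact ⟨n, e1, h3⟩

/-- every edge of the axis has a translate between the places `0` and `1` -/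
theorem cover (h : L.OnTree G a m) (hG : TAct H G) {w w' : X} (hw : w ∈ mst G A)
    (hw' : w' ∈ mst G A) (hadj : G.Adj w w') : ∃ g : ↥A,
      G.dist (a 0) ((g : H) • w) + G.dist ((g : H) • w) (a 1) = m ∧
      G.dist (a 0) ((g : H) • w') + G.dist ((g : H) • w') (a 1) = m := by
  -- both points lie in one segment
  obtain ⟨n, h1, h2⟩ : ∃ n, G.dist (a n) w + G.dist w (a (n + 1)) = m ∧
      G.dist (a n) w' + G.dist w' (a (n + 1)) = m := by
    have hww : G.dist w w' = 1 := SimpleGraph.dist_eq_one_iff_adj.2 hadj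
    obtain ⟨n, hn⟩ := (h.axis w).1 hw
    obtain ⟨k, hk⟩ := (h.axis w').1 hw'
    have key : ∀ (n k : ℤ) (w w' : X), G.dist w w' = 1 →
        G.dist (a n) w + G.dist w (a (n + 1)) = m → G.dist (a k) w' + G.dist w' (a (k + 1)) = m →
        n < k → ∃ n, G.dist (a n) w + G.dist w (a (n + 1)) = m ∧
          G.dist (a n) w' + G.dist w' (a (n + 1)) = m := by
      intro n k w w' hww hn hk hlt
      -- the geodesic from `a n` to `a (k+1)` passes `w`, `a (n+1)`, `w'`
      have hp := h.pos
      have d1 := h.dist' n (k + 1)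
      have d2 := h.dist' (n + 1) (k + 1)
      have d3 := h.dist' (n + 1) k
      have d4 := h.dist' n k
      obtain ⟨i, hi⟩ : ∃ i : ℕ, k = n + 1 + i := ⟨(k - n - 1).toNat, by omega⟩
      have e1 : (n - (k + 1)).natAbs = i + 2 := by omega
      have e2 : (n + 1 - (k + 1)).natAbs = i + 1 := by omega
      have e3 : (n + 1 - k).natAbs = i := by omega
      have e4 : (n - k).natAbs = i + 1 := by omega
      rw [e1] at d1
      rw [e2] at d2
      rw [e3] at d3
      rw [e4] at d4
      have f1 : (i + 2) * m = i * m + m + m := by ring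
      have f2 : (i + 1) * m = i * m + m := by ring
      have t1 : G.dist (a n) (a (k + 1)) ≤ G.dist (a n) w + G.dist w (a (k + 1)) :=
        hG.tree.connected.dist_triangle
      have t2 : G.dist w (a (k + 1)) ≤ G.dist w w' + G.dist w' (a (k + 1)) :=
        hG.tree.connected.dist_triangle
      have c1 : G.dist w' (a k) = G.dist (a k) w' := SimpleGraph.dist_comm
      -- dist w (a(n+1)) + i*m + dist (a k) w' = dist w w' = 1
      have h5 : G.dist w (a (n + 1)) + i * m + G.dist (a k) w' ≤ 1 := by omega
      by_cases hi0 : i = 0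
      · subst hi0
        have hk1 : k = n + 1 := by omega
        subst hk1
        by_cases h6 : G.dist w (a (n + 1)) = 0
        · have h7 : w = a (n + 1) := hG.tree.connected.dist_eq_zero_iff.1 h6
          refine ⟨n + 1, ?_, hk⟩
          rw [h7, SimpleGraph.dist_self, zero_add, h.dist' (n + 1) (n + 1 + 1)]
          have : (n + 1 - (n + 1 + 1)).natAbs = 1 := by omega
          rw [this, one_mul]
        · have h7 : w' = a (n + 1) := (hG.tree.connected.dist_eq_zero_iff.1 (by omega)).symm
          refine ⟨n, hn, ?_⟩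
          rw [h7, SimpleGraph.dist_self, add_zero, h.dist' n (n + 1)]
          have : (n - (n + 1)).natAbs = 1 := by omega
          rw [this, one_mul]
      · -- then `m = 1`, `i = 1`, contradiction with `w = a (n+1)`, `w' = a k`
        have h8 : 1 * m ≤ i * m := Nat.mul_le_mul_right m (by omega)
        have h9 : w = a (n + 1) := hG.tree.connected.dist_eq_zero_iff.1 (by omega)
        have h10 : w' = a k := (hG.tree.connected.dist_eq_zero_iff.1 (by omega)).symm
        rw [h9, h10, d3] at hww
        refine ⟨n + 1, ?_, ?_⟩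
        · rw [h9, SimpleGraph.dist_self, zero_add, h.dist' (n + 1) (n + 1 + 1)]
          have : (n + 1 - (n + 1 + 1)).natAbs = 1 := by omega
          rw [this, one_mul]
        · have hi1 : i = 1 := by
            have h11 := Nat.eq_one_of_mul_eq_one_right hww
            exact h11
          rw [h10, show k = n + 1 + 1 by omega, SimpleGraph.dist_self, add_zero,
            h.dist' (n + 1) (n + 1 + 1)]
          have : (n + 1 - (n + 1 + 1)).natAbs = 1 := by omega
          rw [this, one_mul]
    rcases lt_trichotomy n k with h3 | h3 | h3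
    · exact key n k w w' hww hn hk h3
    · subst h3
      exact ⟨n, hn, hk⟩
    · obtain ⟨i, h4, h5⟩ := key k n w' w (by rw [SimpleGraph.dist_comm]; exact hww) hk hn h3
      exact ⟨i, h5, h4⟩
  -- move the segment to `0, 1`
  have hmove : ∀ g : ↥A, ∀ x, G.dist (a n) x + G.dist x (a (n + 1)) = m →
      G.dist (a (L.act g n)) ((g : H) • x) + G.dist ((g : H) • x) (a (L.act g (n + 1))) = m := by
    intro g x hx
    rw [← h.smul, ← h.smul, hG.dist_smul, hG.dist_smul, hx]
  rcases Int.emod_two_eq_zero_or_one n with hn | hn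
  · obtain ⟨g, hg, hg'⟩ := L.exists_trans (-(n / 2))
    have e1 : L.act g n = 0 := by
      unfold DL.act
      rw [hg, hg', Units.val_one]
      omega
    have e2 : L.act g (n + 1) = 1 := by
      unfold DL.act
      rw [hg, hg', Units.val_one]
      omega
    refine ⟨g, ?_, ?_⟩
    · have := hmove g w h1
      rwa [e1, e2] at this
    · have := hmove g w' h2
      rwa [e1, e2] at this
  · obtain ⟨g, hg, hg'⟩ := L.exists_refl ((n + 1) / 2)
    have e1 : L.act g n = 1 := by
      unfold DL.act
      rw [hg, hg', Units.val_neg, Units.val_one]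
      omega
    have e2 : L.act g (n + 1) = 0 := by
      unfold DL.act
      rw [hg, hg', Units.val_neg, Units.val_one]
      omega
    have hmove' : ∀ x, G.dist (a n) x + G.dist x (a (n + 1)) = m →
        G.dist (a 0) ((g : H) • x) + G.dist ((g : H) • x) (a 1) = m := by
      intro x hx
      have := hmove g x hx
      rw [e1, e2] at this
      have c1 : G.dist (a 1) ((g : H) • x) = G.dist ((g : H) • x) (a 1) := SimpleGraph.dist_comm
      have c2 : G.dist ((g : H) • x) (a 0) = G.dist (a 0) ((g : H) • x) := SimpleGraph.dist_comm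
      omega
    exact ⟨g, hmove' w h1, hmove' w' h2⟩

end DL.OnTree

end Pool.Agent.DI
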