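import Pool.Agent.DI.C5G
import Pool.Agent.DI.DLS
import Pool.Agent.DI.DLE

/-!
# Chapter 5 (thin tail), definitions

`Neg ar a g`: `g` fixes `a` and reverses it (a sink: `g` reverses the line of its stabiliser, a soft:
`g` exchanges the poles). `LkC ar Co s`: the link of `s` without its poles, connected components.
`Weak ar Co s`: a light soft whose two characters agree, are not trivial, and are trivial on the
stabilisers of the pieces. `T5`: a thin step (one edge `w u` of the tree up to the group, inverted at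
the midpoint `u`, one lost soft `v`, everything crosses as in the thin tail). `Slc`: the slice at `w`.
-/

namespace Pool.Agent.DI

open MulAction
open Pool.Agent.SAF (InC orbs FinOrb TAct Conv)
open Pool.Agent.SAG (IO Zt)
open Pool.Agent.BT (bey mst Hyp)

section

variable {H V : Type} [Group H] [MulAction H V]

/-- `g` fixes `a` and reverses it -/
def Neg (ar : V → V → Prop) (a : V) (g : H) : Prop :=
  g • a = a ∧ (((∀ b, ¬ ar a b) ∧ Rev (stabilizer H a) g) ∨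
    ∃ p q, p ≠ q ∧ ar a p ∧ ar a q ∧ g • p = q)

/-- consecutive nodes of the link of `s` which are in-arrows -/
def LkR (ar : V → V → Prop) (Co : V → V → V → Prop) (s n m : V) : Prop :=
  ar n s ∧ ar m s ∧ Co n s m

/-- the pieces of `s` -/
def LkC (ar : V → V → Prop) (Co : V → V → V → Prop) (s : V) : V → V → Prop :=
  Relation.EqvGen (LkR ar Co s)

/-- weak softs -/
def Weak (H : Type) {V : Type} [Group H] [MulAction H V] (ar : V → V → Prop)
    (Co : V → V → V → Prop) (s : V) : Prop :=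
  Finite ↥(stabilizer H s) ∧ ∃ a b, a ≠ b ∧ ar s a ∧ ar s b ∧
    (∀ g : H, g • s = s → g • a = a → (Neg ar a g ↔ Neg ar b g)) ∧
    (∃ g : H, g • s = s ∧ g • a = a ∧ Neg ar a g) ∧
    (∀ (n : V) (g : H), ar n s → g • s = s → g • a = a → LkC ar Co s n (g • n) → ¬ Neg ar a g)

end

/-- a thin step -/
structure T5 (H V X : Type) [Group H] [MulAction H V] [MulAction H X] where
  ar : V → V → Prop
  rk : V → ℕ
  ar_rk : ∀ v a, ar v a → rk a < rk v
  ar_smul : ∀ (h : H) (v a : V), ar v a → ar (h • v) (h • a)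
  rk_smul : ∀ (h : H) (v : V), rk (h • v) = rk v
  two : ∀ v a b c, ar v a → ar v b → ar v c → a = b ∨ b = c ∨ a = c
  -- the tree
  T : SimpleGraph X
  act : TAct H T
  J : V → Set X
  J_smul : ∀ (h : H) (x : V) (y : X), y ∈ J x → h • y ∈ J (h • x)
  J_conv : ∀ x, Conv T (J x)
  J_ne : ∀ x, (J x).Nonempty
  one : ∀ x y, ar x y → ∃ p, J x ∩ J y = {p}
  exits1 : ∀ x y a b z, y ∈ J x → ar x a → ar x b → y ∈ J a → y ∈ J b → a ≠ b →
    T.Adj y z → z ∉ J x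
  exits2 : ∀ x y a z t, y ∈ J x → ar x a → y ∈ J a → T.Adj y z → T.Adj y t → z ∈ J x →
    t ∈ J x → z = t
  exits3 : ∀ x y z t r, y ∈ J x → T.Adj y z → T.Adj y t → T.Adj y r → z ∈ J x →
    t ∈ J x → r ∈ J x → z = t ∨ t = r ∨ z = r
  cross : ∀ x, (∃ a, ar x a) → ∀ y z, T.Adj y z → y ∈ J x → z ∈ J x →
    ∃ a, ar x a ∧ J a ⊆ bey T y z
  snk : ∀ x, (∀ a, ¬ ar x a) → (∃ p, J x = {p}) ∨
    (DT (stabilizer H x) ∧ Hyp X (stabilizer H x) ∧ J x = mst T (stabilizer H x))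
  light : ∀ x a y z, ar x a → T.Adj y z → y ∈ J x → z ∈ J x → Finite ↥(stabilizer H x)
  -- corners `n, s, m` of cells with centre `c`
  Cc : X → V → V → V → Prop
  Cc_symm : ∀ c n s m, Cc c n s m → Cc c m s n
  Cc_smul : ∀ (h : H) c n s m, Cc c n s m → Cc (h • c) (h • n) (h • s) (h • m)
  Cc_E : ∀ c n s m, Cc c n s m → ar n s ∨ ar s n
  vis : ∀ n s, ar n s → ((Finite ↥(stabilizer H n)) ∨ (Finite ↥(stabilizer H s)) ∨
    ∃ y z, T.Adj y z ∧ y ∈ J s ∧ z ∈ J s) → ∃ c m, Cc c n s m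
  -- the edge `w u`, inverted at `u`
  w : X
  u : X
  w' : X
  adj : T.Adj w u
  ne : w ≠ w'
  only : ∀ x, T.Adj u x ↔ x = w ∨ x = w'
  bip : ∀ x y, T.Adj x y → (∃ h : H, h • w = x ∧ h • u = y) ∨ (∃ h : H, h • u = x ∧ h • w = y)
  wu : ∀ h : H, h • w ≠ u
  J_dt : DT (stabilizer H w ⊓ stabilizer H u)
  -- the lost soft
  v : V
  Jv : J v = {u}
  vfin : Finite ↥(stabilizer H v)
  z1 : V
  z2 : V
  zne : z1 ≠ z2
  az1 : ar v z1
  az2 : ar v z2
  wz1 : w ∈ J z1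
  wz2 : w ∈ J z2
  b : H
  bv : b • v = v
  bz1 : b • z1 = z1
  bw : b • w = w'
  -- crossing
  rev : ∀ x, w ∈ J x → u ∈ J x → w' ∈ J x → ∃ g : H, g • u = u ∧ ar (g • v) x
  H1 : ∀ c n s m, Cc c n s m → (∃ h : H, h • w = c) ∧
    (c ∈ J n ∨ ∃ (g : H), n = g • v ∧ T.Adj c (g • u)) ∧
    (c ∈ J s ∨ ∃ (g : H), s = g • v ∧ T.Adj c (g • u))
  T3 : ∀ (x : V) (g1 g2 : H) (k1 k2 : V), w ∈ J x → u ∈ J x → w' ∈ J x → g1 • u = u → g2 • u = u →
    Cc w (g1 • v) x k1 → Cc w (g2 • v) x k2 →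
    ∃ g : H, g • x = x ∧ g • w = w ∧ g • u = u ∧ g • g1 • v = g2 • v ∧ g • k1 = k2
  no2 : ∀ (x : V) (g1 g2 : H), w ∈ J x → u ∈ J x → w' ∈ J x → g1 • u = u → g2 • u = u →
    ¬ Cc w (g1 • v) x (g2 • v)
  walls : ∀ x y, w ∈ J x → u ∈ J x → w ∈ J y → u ∈ J y →
    Relation.EqvGen (fun a b => (w ∈ J a ∧ u ∈ J a) ∧ (w ∈ J b ∧ u ∈ J b) ∧
      ∃ q c, Cc c a q b ∧ ((J q ⊆ bey T w u ∧ c ∈ bey T u w) ∨ (J q ⊆ bey T u w ∧ c ∈ bey T w u)))
      x y
  lk : ∀ x, (∀ a, ¬ ar x a) → (∃ y z, T.Adj y z ∧ y ∈ J x ∧ z ∈ J x) → ∀ n m, ar n x → ar m x →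
    LkC ar (fun n s m => ∃ c, Cc c n s m) x n m

namespace T5

variable {H V X : Type} [Group H] [MulAction H V] [MulAction H X] (S : T5 H V X)

/-- corners -/
def Co (n s m : V) : Prop := ∃ c, S.Cc c n s m

end T5

/-- the slice at `w` -/
structure Slc {H V X : Type} [Group H] [MulAction H V] [MulAction H X] (S : T5 H V X)
    (Y : Type) [MulAction ↥(stabilizer H S.w) Y] where
  nr : ∀ x : V, S.w ∈ S.J x → Y
  tv : ∀ x : X, S.T.Adj S.w x → Y
  ar : Y → Y → Prop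
  Co : Y → Y → Y → Prop
  cases : ∀ y, (∃ x h, y = nr x h) ∨ ∃ x h, y = tv x h
  nr_inj : ∀ x x' h h', nr x h = nr x' h' → x = x'
  tv_inj : ∀ x x' h h', tv x h = tv x' h' → x = x'
  nr_ne_tv : ∀ x x' h h', nr x h ≠ tv x' h'
  nr_smul : ∀ (g : ↥(stabilizer H S.w)) (x : V) (h : S.w ∈ S.J x) (h' : S.w ∈ S.J (g.1 • x)),
    g • nr x h = nr (g.1 • x) h'
  tv_smul : ∀ (g : ↥(stabilizer H S.w)) (x : X) (h : S.T.Adj S.w x) (h' : S.T.Adj S.w (g.1 • x)),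
    g • tv x h = tv (g.1 • x) h'
  ar_nr : ∀ x a h h', ar (nr x h) (nr a h') ↔ S.ar x a
  ar_tv : ∀ x y h h', ar (nr x h) (tv y h') ↔ y ∈ S.J x
  tv_sink : ∀ x h y, ¬ ar (tv x h) y
  Co_of : ∀ n s m h1 h2 h3, S.Cc S.w n s m → Co (nr n h1) (nr s h2) (nr m h3)
  Co_smul : ∀ (g : ↥(stabilizer H S.w)) (a b c : Y), Co a b c → Co (g • a) (g • b) (g • c)

end Pool.Agent.DI
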