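import Pool.Agent.DI.C5B
import Pool.Agent.DI.C5C

/-!
# Chapter 5 (thin tail): the lost soft is weak; softs which are not reversed (owner: helper50)
-/

namespace Pool.Agent.DI

open MulAction
open Pool.Agent.SAF (InC orbs FinOrb TAct Conv exists_next)
open Pool.Agent.SAG (IO Zt)
open Pool.Agent.BT (bey mst Hyp)

namespace T5

variable {H V X : Type} [Group H] [MulAction H V] [MulAction H X] {S : T5 H V X}

/-- an element which fixes a soft and one of its poles fixes the other pole -/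
private theorem fix_pole {s a c : V} (ha : S.ar s a) (hc : S.ar s c) (hne : a ≠ c) {g : H}
    (hg : g • s = s) (hga : g • a = a) : g • c = c := by
  have h := S.ar_smul g _ _ hc
  rw [hg] at h
  rcases S.two _ _ _ _ ha hc h with h1 | h1 | h1
  · exact absurd h1 hne
  · exact h1.symm
  · exfalso
    have h2 : g • a = g • c := by rw [hga]; exact h1
    exact hne (smul_left_cancel _ h2)

private theorem fix_u {g : H} (hg : g • S.v = S.v) : g • S.u = S.u := by
  have h : g • S.u ∈ S.J (g • S.v) := mem_J_v.2 rfl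
  rw [hg, S.Jv] at h
  exact h

private theorem u_pole {z : V} (hz : S.ar S.v z) : S.u ∈ S.J z := by
  obtain ⟨p, hp1, hp2⟩ := one_ex hz
  rw [S.Jv, Set.mem_singleton_iff] at hp1
  rwa [hp1] at hp2

/-- the poles of `v` cross both edges -/
private theorem pole_cs {z : V} (hz : S.ar S.v z) : S.Cs z S.u S.w ∧ S.Cs z S.u S.w' := by
  have hcase : z = S.z1 ∨ z = S.z2 := by
    rcases S.two _ _ _ _ S.az1 S.az2 hz with h | h | h
    · exact absurd h S.zne
    · exact Or.inr h.symm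
    · exact Or.inl h.symm
  have hw : S.w ∈ S.J z := by
    rcases hcase with rfl | rfl
    · exact S.wz1
    · exact S.wz2
  have hb : S.b • z = z := by
    rcases hcase with rfl | rfl
    · exact S.bz1
    · exact b_z2
  have hw' : S.w' ∈ S.J z := by
    have := S.J_smul S.b _ _ hw
    rwa [hb, S.bw] at this
  exact ⟨⟨S.adj.symm, u_pole hz, hw⟩, ⟨adj'.symm, u_pole hz, hw'⟩⟩

/-- the pole `z` of `v` is reversed by `g` iff `g` exchanges `w` and `w'` -/
private theorem neg_pole {z : V} (hz : S.ar S.v z) {g : H} (hg : g • S.v = S.v)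
    (hgz : g • z = z) : Neg S.ar z g ↔ g • S.w = S.w' :=
  neg_iff (pole_cs hz).1 (pole_cs hz).2 S.ne hgz (fix_u hg)

/-- corners at `v` -/
private theorem corner_v {n m : V} {c : X} (hn : S.ar n S.v) (h : S.Cc c n S.v m) :
    S.Cs n S.u c := by
  obtain ⟨h1, h2, h3⟩ := S.H1 _ _ _ _ h
  have hu : S.u ∈ S.J n := by
    obtain ⟨p, hp1, hp2⟩ := one_ex hn
    rw [S.Jv, Set.mem_singleton_iff] at hp2
    rwa [hp2] at hp1
  refine ⟨?_, hu, ?_⟩
  · rcases h3 with h3 | ⟨g, e, h3⟩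
    · rw [S.Jv, Set.mem_singleton_iff] at h3
      exact absurd (not_both h1 ⟨1, by rw [one_smul, h3]⟩) id
    · rw [fix_u e.symm] at h3
      exact h3.symm
  · rcases h2 with h2 | ⟨g, rfl, -⟩
    · exact h2
    · exfalso
      have := S.ar_rk _ _ hn
      rw [S.rk_smul] at this
      exact lt_irrefl _ this

/-- an in-arrow of `v` crosses one edge only -/
private theorem one_side {n : V} (hn : S.ar n S.v) {c c' : X} (h : S.Cs n S.u c)
    (h' : S.Cs n S.u c') : c = c' := by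
  by_contra hne
  have hw : S.w ∈ S.J n ∧ S.w' ∈ S.J n := by
    rcases (S.only _).1 h.1 with e1 | e1 <;> rcases (S.only _).1 h'.1 with e2 | e2
    · exact absurd (e1.trans e2.symm) hne
    · exact ⟨e1 ▸ h.2.2, e2 ▸ h'.2.2⟩
    · exact ⟨e2 ▸ h'.2.2, e1 ▸ h.2.2⟩
    · exact absurd (e1.trans e2.symm) hne
  obtain ⟨g, -, hv⟩ := S.rev n hw.1 h.2.1 hw.2
  have h1 := S.ar_rk _ _ hv
  have h2 := S.ar_rk _ _ hn
  rw [S.rk_smul] at h1
  omega

/-- all nodes of a piece of `v` cross the same edge -/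
private theorem piece_side {n m : V} (h : LkC S.ar S.Co S.v n m) :
    n = m ∨ (S.ar n S.v ∧ S.ar m S.v ∧ ∃ c, S.Cs n S.u c ∧ S.Cs m S.u c) := by
  induction h with
  | rel x y h =>
    obtain ⟨h1, h2, c, h3⟩ := h
    exact Or.inr ⟨h1, h2, c, corner_v h1 h3, corner_v h2 (S.Cc_symm _ _ _ _ h3)⟩
  | refl x => exact Or.inl rfl
  | symm x y _ ih =>
    rcases ih with rfl | ⟨h1, h2, c, h3, h4⟩
    · exact Or.inl rfl
    · exact Or.inr ⟨h2, h1, c, h4, h3⟩
  | trans x y z _ _ ih1 ih2 =>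
    rcases ih1 with rfl | ⟨h1, h2, c, h3, h4⟩
    · exact ih2
    rcases ih2 with rfl | ⟨h1', h2', c', h3', h4'⟩
    · exact Or.inr ⟨h1, h2, c, h3, h4⟩
    · have e := one_side h2 h4 h3'
      subst e
      exact Or.inr ⟨h1, h2', c, h3, h4'⟩

/-- LEMMA 1 -/
theorem weak_v : Weak H S.ar S.Co S.v := by
  refine ⟨S.vfin, S.z1, S.z2, S.zne, S.az1, S.az2, ?_, ?_, ?_⟩
  · intro g hg h1
    have h2 := fix_pole S.az1 S.az2 S.zne hg h1
    rw [neg_pole S.az1 hg h1, neg_pole S.az2 hg h2]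
  · exact ⟨S.b, S.bv, S.bz1, (neg_pole S.az1 S.bv S.bz1).2 S.bw⟩
  · intro n g hn hg h1 hc hneg
    have hw := (neg_pole S.az1 hg h1).1 hneg
    -- `n` crosses the edge to `c`, `g` fixes `c`
    obtain ⟨c, hc1, hc2⟩ : ∃ c, S.Cs n S.u c ∧ S.Cs (g • n) S.u c := by
      rcases piece_side hc with e | ⟨-, -, c, h3, h4⟩
      · obtain ⟨c, h⟩ := page_cs (m := n) (g := (1 : H)) (by rw [one_smul]; exact hn)
        rw [one_smul] at h
        exact ⟨c, h, e ▸ h⟩
      · exact ⟨c, h3, h4⟩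
    have hgc : S.Cs (g • n) S.u (g • c) := by
      have a1 := S.act.adj_smul g _ _ hc1.1
      have a2 := S.J_smul g _ _ hc1.2.1
      rw [fix_u hg] at a1 a2
      exact ⟨a1, a2, S.J_smul g _ _ hc1.2.2⟩
    have hgn : S.ar (g • n) S.v := by
      have := S.ar_smul g _ _ hn
      rwa [hg] at this
    have e := one_side hgn hc2 hgc
    rcases (S.only _).1 hc1.1 with e1 | e1
    · rw [e1, hw] at e
      exact S.ne e
    · rw [e1, ← hw] at e
      exact S.ne (hw ▸ (smul_left_cancel _ e))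

variable {Y : Type} [MulAction ↥(stabilizer H S.w) Y] (L : Slc S Y)

/-- for a page the new pole has the same reversing elements -/
theorem neg_page {s a : V} (hs : S.w ∈ S.J s) (e : S.ar s a) {x : X} (hx : S.Cs s S.w x)
    (hax : x ∈ S.J a) {g : H} (hg : g • s = s) (ha : g • a = a) (hw : g • S.w = S.w) :
    Rev (stabilizer H S.w ⊓ stabilizer H x) g ↔ Neg S.ar a g := by
  have hmx : S.Mid x := bad_w.mid hx.1
  obtain ⟨k, rfl, hkx⟩ := pole_lost e hmx hax (t := S.w) ⟨hx.1.symm, hx.2.2, hx.2.1⟩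
  -- one can take `k` in the stabiliser of `w`
  obtain ⟨k', h1, h2, h3⟩ : ∃ k' : H, k' • S.v = k • S.v ∧ k' • S.u = x ∧ k' • S.w = S.w := by
    have hadj : S.T.Adj S.u (k⁻¹ • S.w) := by
      have := S.act.adj_smul k⁻¹ _ _ hx.1.symm
      rwa [← hkx, inv_smul_smul] at this
    rcases (S.only _).1 hadj with e1 | e1
    · refine ⟨k, rfl, hkx, ?_⟩
      have h5 : k • k⁻¹ • S.w = k • S.w := congrArg (k • ·) e1
      rw [smul_inv_smul] at h5
      exact h5.symm
    · refine ⟨k * S.b, by rw [mul_smul, S.bv], by rw [mul_smul, b_u, hkx], ?_⟩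
      have h5 : k • k⁻¹ • S.w = k • S.w' := congrArg (k • ·) e1
      rw [smul_inv_smul] at h5
      rw [mul_smul, S.bw, h5.symm]
  rw [← h1] at ha ⊢
  clear h1
  -- the conjugate
  obtain ⟨m, hm⟩ : ∃ m, m = k'⁻¹ * g * k' := ⟨_, rfl⟩
  have hgm : g = k' * m * k'⁻¹ := by rw [hm]; group
  have hmv : m • S.v = S.v := by
    rw [hm, mul_smul, mul_smul, ha, inv_smul_smul]
  have hmw : m • S.w = S.w := by
    rw [hm, mul_smul, mul_smul, h3, hw, inv_smul_eq_iff, h3]
  have hmJ : m ∈ S.JJ := mem_JJ.2 ⟨hmw, fix_u hmv⟩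
  have hRev : Rev (stabilizer H S.w ⊓ stabilizer H x) g ↔ Rev S.JJ m := by
    constructor
    · intro h
      rw [hm]
      have := h.conj k'⁻¹ (J' := S.JJ) (fun y hy => by
        have hy1 : y • S.w = S.w := hy.1
        have hy2 : y • x = x := hy.2
        refine mem_JJ.2 ⟨?_, ?_⟩
        · rw [inv_inv, mul_smul, mul_smul, h3, hy1, inv_smul_eq_iff, h3]
        · rw [inv_inv, mul_smul, mul_smul, h2, hy2, ← h2, inv_smul_smul])
      rwa [inv_inv] at this
    · intro h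
      rw [hgm]
      refine h.conj k' (fun y hy => ?_)
      have hy' := mem_JJ.1 hy
      refine ⟨?_, ?_⟩
      · show (k' * y * k'⁻¹) • S.w = S.w
        have : k'⁻¹ • S.w = S.w := by rw [inv_smul_eq_iff, h3]
        rw [mul_smul, mul_smul, this, hy'.1, h3]
      · show (k' * y * k'⁻¹) • x = x
        rw [mul_smul, mul_smul, ← h2, inv_smul_smul, hy'.2]
  have hz : m • S.z1 = S.z1 ∨ m • S.z1 = S.z2 := by
    have h := S.ar_smul m _ _ S.az1
    rw [hmv] at h
    rcases S.two _ _ _ _ S.az1 S.az2 h with h1 | h1 | h1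
    · exact absurd h1 S.zne
    · exact Or.inr h1.symm
    · exact Or.inl h1.symm
  rw [hRev]
  have harr : ∀ p, S.ar (k' • S.v) p → p = k' • S.z1 ∨ p = k' • S.z2 := by
    intro p hp
    rcases S.two _ _ _ _ (S.ar_smul k' _ _ S.az1) (S.ar_smul k' _ _ S.az2) hp with h1 | h1 | h1
    · exact absurd (smul_left_cancel _ h1) S.zne
    · exact Or.inr h1.symm
    · exact Or.inl h1.symm
  rcases hz with hz | hz
  · constructor
    · intro h
      exact absurd h (not_rev hmJ hmv hz)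
    · rintro ⟨-, h | ⟨p, q, hpq, hp, hq, hgp⟩⟩
      · exact absurd (S.ar_smul k' _ _ S.az1) (h.1 _)
      · exfalso
        have hz2 := fix_pole S.az1 S.az2 S.zne hmv hz
        rcases harr p hp with rfl | rfl
        · apply hpq
          rw [← hgp, hgm, mul_smul, mul_smul, inv_smul_smul, hz]
        · apply hpq
          rw [← hgp, hgm, mul_smul, mul_smul, inv_smul_smul, hz2]
  · constructor
    · intro _
      refine ⟨ha, Or.inr ⟨k' • S.z1, k' • S.z2, fun h => S.zne (smul_left_cancel _ h),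
        S.ar_smul k' _ _ S.az1, S.ar_smul k' _ _ S.az2, ?_⟩⟩
      rw [hgm, mul_smul, mul_smul, inv_smul_smul, hz]
    · intro _
      exact rev_of_swap hmJ hmv hz

/-- the correspondence of the poles of `s` and of the soft of the slice -/
private theorem pole_corr {s a : V} (hs : S.w ∈ S.J s) (ha : S.ar s a)
    (hN : ∀ y t1 t2, S.Mid y → t1 ≠ t2 → S.Cs s y t1 → S.Cs s y t2 → False)
    {a' : Y} (ha' : L.ar (L.nr s hs) a') :
    ∃ (p : V) (q : X), S.ar s p ∧ q ∈ S.J s ∧ q ∈ S.J p ∧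
      ((∃ h, a' = L.nr p h ∧ q = S.w) ∨ ∃ h, a' = L.tv q h) := by
  rcases L.cases a' with ⟨p, h, rfl⟩ | ⟨x, h, rfl⟩
  · exact ⟨p, S.w, (L.ar_nr _ _ _ _).1 ha', hs, h, Or.inl ⟨h, rfl, rfl⟩⟩
  · have hx : x ∈ S.J s := (L.ar_tv _ _ _ _).1 ha'
    have hmx : S.Mid x := bad_w.mid h
    obtain ⟨p, hp, hpb⟩ := S.cross s ⟨a, ha⟩ S.w x h hs hx
    obtain ⟨q, hq1, hq2⟩ := one_ex hp
    refine ⟨p, x, hp, hx, ?_, Or.inr ⟨h, rfl⟩⟩
    by_cases e : x = q
    · rwa [e]
    exfalso
    obtain ⟨z, hz, hd⟩ := exists_next S.act.tree e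
    have dz : S.T.dist x z = 1 := SimpleGraph.dist_eq_one_iff_adj.2 hz
    have hzJ : z ∈ S.J s := S.J_conv s x hx q hq1 z (by omega)
    have hqb : S.T.dist q S.w = S.T.dist q x + 1 := hpb hq2
    refine hN x S.w z hmx ?_ ⟨h.symm, hx, hs⟩ ⟨hz, hx, hzJ⟩
    intro ez
    rw [← ez] at hd
    rw [SimpleGraph.dist_comm (u := q) (v := S.w), SimpleGraph.dist_comm (u := q) (v := x)] at hqb
    omega

/-- properties of the correspondence -/
private theorem corr_fix {s p : V} {q : X} (hs : S.w ∈ S.J s) (hp : S.ar s p) (hq : q ∈ S.J s)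
    (hqp : q ∈ S.J p) {a' : Y} (hc : (∃ h, a' = L.nr p h ∧ q = S.w) ∨ ∃ h, a' = L.tv q h)
    {g : ↥(stabilizer H S.w)} (hg : g.1 • s = s) : g • a' = a' ↔ g.1 • p = p := by
  rcases hc with ⟨h, rfl, rfl⟩ | ⟨h, rfl⟩
  · have h' : S.w ∈ S.J (g.1 • p) := by
      have := S.J_smul g.1 _ _ h
      rwa [show g.1 • S.w = S.w from g.2] at this
    rw [L.nr_smul g p h h']
    constructor
    · intro e
      exact L.nr_inj _ _ _ _ e
    · intro e
      congr 1
  · have h' : S.T.Adj S.w (g.1 • q) := by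
      have := S.act.adj_smul g.1 _ _ h
      rwa [show g.1 • S.w = S.w from g.2] at this
    rw [L.tv_smul g q h h']
    constructor
    · intro e
      have e' : g.1 • q = q := L.tv_inj _ _ _ _ e
      by_contra hne
      have hgp : S.ar s (g.1 • p) := by
        have := S.ar_smul g.1 _ _ hp
        rwa [hg] at this
      have hqg : q ∈ S.J (g.1 • p) := by
        have := S.J_smul g.1 _ _ hqp
        rwa [e'] at this
      exact S.exits1 s q (g.1 • p) p S.w hq hgp hp hqg hqp hne h.symm hs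
    · intro e
      have e' : g.1 • q = q := by
        refine one_eq hp ?_ ?_ hq hqp
        · have := S.J_smul g.1 _ _ hq
          rwa [hg] at this
        · have := S.J_smul g.1 _ _ hqp
          rwa [e] at this
      congr 1

private theorem corr_neg {s p : V} {q : X} (hs : S.w ∈ S.J s) (hp : S.ar s p) (hq : q ∈ S.J s)
    (hqp : q ∈ S.J p) {a' : Y} (hc : (∃ h, a' = L.nr p h ∧ q = S.w) ∨ ∃ h, a' = L.tv q h)
    {g : ↥(stabilizer H S.w)} (hg : g.1 • s = s) (hgp : g.1 • p = p) :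
    Neg L.ar a' g ↔ Neg S.ar p g.1 := by
  rcases hc with ⟨h, rfl, rfl⟩ | ⟨h, rfl⟩
  · exact neg_nr L h hgp
  · have e' : g.1 • q = q := by
      refine one_eq hp ?_ ?_ hq hqp
      · have := S.J_smul g.1 _ _ hq
        rwa [hg] at this
      · have := S.J_smul g.1 _ _ hqp
        rwa [hgp] at this
    rw [neg_tv L h e']
    exact neg_page hs hp ⟨h, hs, hq⟩ hqp hg hgp g.2

/-- (b) for softs which are not reversed -/
theorem weak_N {s a : V} (hs : S.w ∈ S.J s) (ha : S.ar s a)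
    (hN : ∀ y t1 t2, S.Mid y → t1 ≠ t2 → S.Cs s y t1 → S.Cs s y t2 → False)
    (hw : Weak ↥(stabilizer H S.w) L.ar L.Co (L.nr s hs)) : Weak H S.ar S.Co s := by
  -- `w` is the only bad point of `J s`
  have huniq : ∀ c, S.Bad c → c ∈ S.J s → c = S.w := by
    intro c hc hcs
    by_contra hne
    obtain ⟨y, hy, c1, c2⟩ := bad_pair ha hc bad_w hcs hs hne
    exact hN y c S.w hy hne c1 c2
  have hfix : ∀ g : H, g • s = s → g • S.w = S.w := by
    intro g hg
    refine huniq _ (bad_w.smul g) ?_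
    have := S.J_smul g _ _ hs
    rwa [hg] at this
  have hnot : ∀ g : H, s ≠ g • S.v := by
    rintro g rfl
    exact not_both bad_w ⟨g, (mem_J_v.1 hs).symm⟩
  -- the stabilisers
  have hst : ∀ g : ↥(stabilizer H S.w), g.1 • s = s ↔ g • L.nr s hs = L.nr s hs := by
    intro g
    have h' : S.w ∈ S.J (g.1 • s) := by
      have := S.J_smul g.1 _ _ hs
      rwa [show g.1 • S.w = S.w from g.2] at this
    rw [L.nr_smul g s hs h']
    constructor
    · intro e
      congr 1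
    · intro e
      exact L.nr_inj _ _ _ _ e
  obtain ⟨hf, a', b', hne, ha', hb', hchar, ⟨g0, hg01, hg02, hg03⟩, hpc⟩ := hw
  have hfin : Finite ↥(stabilizer H s) := by
    refine Finite.of_injective (fun g : ↥(stabilizer H s) =>
      (⟨⟨g.1, hfix g.1 g.2⟩, (hst ⟨g.1, hfix g.1 g.2⟩).1 g.2⟩ :
        ↥(stabilizer ↥(stabilizer H S.w) (L.nr s hs)))) ?_
    intro g1 g2 h
    exact Subtype.ext (congrArg (fun x => x.1.1) h)
  obtain ⟨p1, q1, hp1, hq1, hqp1, hc1⟩ := pole_corr L hs ha hN ha'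
  obtain ⟨p2, q2, hp2, hq2, hqp2, hc2⟩ := pole_corr L hs ha hN hb'
  have hpne : p1 ≠ p2 := by
    rintro rfl
    apply hne
    have hq : q1 = q2 := one_eq hp1 hq1 hqp1 hq2 hqp2
    subst hq
    rcases hc1 with ⟨h1, e1, e1'⟩ | ⟨h1, e1⟩ <;> rcases hc2 with ⟨h2, e2, e2'⟩ | ⟨h2, e2⟩
    · rw [e1, e2]
    · rw [e1'] at h2
      exact absurd rfl h2.ne
    · rw [e2'] at h1
      exact absurd rfl h1.ne
    · rw [e1, e2]
  refine ⟨hfin, p1, p2, hpne, hp1, hp2, ?_, ?_, ?_⟩
  · intro g hg hg1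
    have hg2 := fix_pole hp1 hp2 hpne hg hg1
    have hgw := hfix g hg
    have h1 := hchar ⟨g, hgw⟩ ((hst ⟨g, hgw⟩).1 hg)
      ((corr_fix L hs hp1 hq1 hqp1 hc1 (g := ⟨g, hgw⟩) hg).2 hg1)
    rwa [corr_neg L hs hp1 hq1 hqp1 hc1 (g := ⟨g, hgw⟩) hg hg1,
      corr_neg L hs hp2 hq2 hqp2 hc2 (g := ⟨g, hgw⟩) hg hg2] at h1
  · have h1 := (hst g0).2 hg01
    have h2 := (corr_fix L hs hp1 hq1 hqp1 hc1 h1).1 hg02
    exact ⟨g0.1, h1, h2, (corr_neg L hs hp1 hq1 hqp1 hc1 h1 h2).1 hg03⟩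
  · -- the nodes of `s` are placed at `w`
    have hcor : ∀ c n m, S.ar n s → S.Cc c n s m → c = S.w ∧ S.w ∈ S.J n := by
      intro c n m hn hc
      obtain ⟨h1, h2, h3⟩ := S.H1 _ _ _ _ hc
      have hcs : c = S.w := by
        rcases h3 with h3 | ⟨g, h3, -⟩
        · exact huniq c h1 h3
        · exact absurd h3 (hnot g)
      refine ⟨hcs, ?_⟩
      rcases h2 with h2 | ⟨g, rfl, h2⟩
      · rwa [← hcs]
      · exfalso
        obtain ⟨p, hp1, hp2⟩ := one_ex hn
        have hp := mem_J_v.1 hp1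
        have hz : S.ar S.v (g⁻¹ • s) := by
          have := S.ar_smul g⁻¹ _ _ hn
          rwa [inv_smul_smul] at this
        have tr : ∀ t, S.Cs (g⁻¹ • s) S.u t → S.Cs s (g • S.u) (g • t) := by
          intro t ht
          have e1 := S.act.adj_smul g _ _ ht.1
          have e2 := S.J_smul g _ _ ht.2.1
          have e3 := S.J_smul g _ _ ht.2.2
          rw [smul_inv_smul] at e2 e3
          exact ⟨e1, e2, e3⟩
        exact hN (g • S.u) (g • S.w) (g • S.w') (mid_u.smul g)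
          (fun e => S.ne (smul_left_cancel _ e)) (tr _ (pole_cs hz).1) (tr _ (pole_cs hz).2)
    have hnode : ∀ n, S.ar n s → S.w ∈ S.J n := by
      intro n hn
      obtain ⟨c, m, hc⟩ := S.vis n s hn (Or.inr (Or.inl hfin))
      exact (hcor c n m hn hc).2
    have htr : ∀ n m, LkC S.ar S.Co s n m → n = m ∨ ∃ hn hm,
        LkC L.ar L.Co (L.nr s hs) (L.nr n hn) (L.nr m hm) := by
      intro n m h
      induction h with
      | rel x y h =>
        obtain ⟨h1, h2, c, h3⟩ := h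
        obtain ⟨rfl, hx⟩ := hcor c x y h1 h3
        have hy := hnode y h2
        exact Or.inr ⟨hx, hy, Relation.EqvGen.rel _ _ ⟨(L.ar_nr _ _ _ _).2 h1,
          (L.ar_nr _ _ _ _).2 h2, L.Co_of _ _ _ _ _ _ h3⟩⟩
      | refl x => exact Or.inl rfl
      | symm x y _ ih =>
        rcases ih with rfl | ⟨h1, h2, h3⟩
        · exact Or.inl rfl
        · exact Or.inr ⟨h2, h1, Relation.EqvGen.symm _ _ h3⟩
      | trans x y z _ _ ih1 ih2 =>
        rcases ih1 with rfl | ⟨h1, h2, h3⟩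
        · exact ih2
        rcases ih2 with rfl | ⟨h1', h2', h3'⟩
        · exact Or.inr ⟨h1, h2, h3⟩
        · exact Or.inr ⟨h1, h2', Relation.EqvGen.trans _ _ _ h3 h3'⟩
    intro n g hn hg hg1 hc hneg
    have hgw := hfix g hg
    have hnw := hnode n hn
    have hgn : S.w ∈ S.J (g • n) := by
      have := S.J_smul g _ _ hnw
      rwa [hgw] at this
    refine hpc (L.nr n hnw) ⟨g, hgw⟩ ((L.ar_nr _ _ _ _).2 hn) ((hst ⟨g, hgw⟩).1 hg)
      ((corr_fix L hs hp1 hq1 hqp1 hc1 (g := ⟨g, hgw⟩) hg).2 hg1) ?_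
      ((corr_neg L hs hp1 hq1 hqp1 hc1 (g := ⟨g, hgw⟩) hg hg1).2 hneg)
    rw [L.nr_smul ⟨g, hgw⟩ n hnw hgn]
    rcases htr _ _ hc with e | ⟨h1, h2, h3⟩
    · have e' : L.nr n hnw = L.nr (g • n) hgn := by congr 1
      rw [e']
      exact Relation.EqvGen.refl _
    · exact h3

end T5

end Pool.Agent.DI
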