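import Pool.Agent.DI.C5T

/-!
# Chapter 5 (thin tail): reversed softs (b)
-/

namespace Pool.Agent.DI

open MulAction
open Pool.Agent.SAF (InC orbs FinOrb TAct Conv exists_next)
open Pool.Agent.SAG (IO Zt)
open Pool.Agent.BT (bey mst Hyp)

namespace T5

variable {H V X : Type} [Group H] [MulAction H V] [MulAction H X] {S : T5 H V X}

/-- a reversed soft has a pole placed at `w` -/
theorem RevD.exists_pole {s : V} (D : RevD S s) {a : V} (ha : S.ar s a) :
    ∃ p, S.ar s p ∧ S.w ∈ S.J p := by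
  obtain ⟨p, hp, hpj⟩ := S.cross s ⟨a, ha⟩ S.u S.w S.adj.symm D.mu D.mw
  refine ⟨p, hp, ?_⟩
  rcases rev_pole D.csw D.csw' S.ne mid_u hp with h | h
  · exact h
  · exfalso
    have h1 : S.T.dist S.w' S.u = S.T.dist S.w' S.w + 1 := hpj h
    rw [SimpleGraph.dist_eq_one_iff_adj.2 S.adj'] at h1
    have h2 : S.T.dist S.w' S.w = 0 := by omega
    exact S.ne (S.act.tree.connected.dist_eq_zero_iff.1 h2).symm

variable {Y : Type} [MulAction ↥(stabilizer H S.w) Y] (L : Slc S Y)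

/-- (b) for a soft reversed at `u` -/
theorem weak_R0 {s a : V} (D : RevD S s) (ha : S.ar s a)
    (hwk : Weak ↥(stabilizer H S.w) L.ar L.Co (L.nr s D.mw)) : Weak H S.ar S.Co s := by
  obtain ⟨a1, ha1, hwa1⟩ := D.exists_pole ha
  have hb1 : S.ar s (D.r • a1) := by
    have := S.ar_smul D.r _ _ ha1
    rwa [D.rs] at this
  have hne : a1 ≠ D.r • a1 := by
    intro e
    have h1 : S.w' ∈ S.J a1 := by
      have := S.J_smul D.r _ _ hwa1
      rwa [D.rw1, ← e] at this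
    exact S.ne (one_eq ha1 D.mw hwa1 D.mw' h1)
  have hb1w : S.w ∉ S.J (D.r • a1) := by
    intro h
    have h1 : S.w' ∈ S.J (D.r • a1) := by
      have := S.J_smul D.r _ _ hwa1
      rwa [D.rw1] at this
    exact S.ne (one_eq hb1 D.mw h D.mw' h1)
  -- elements of the stabiliser which fix `a1` fix `w`
  have hfw : ∀ g : H, g • s = s → g • a1 = a1 → g • S.w = S.w := by
    intro g hs h
    have h1 : g • S.w ∈ S.J s := by
      have := S.J_smul g _ _ D.mw
      rwa [hs] at this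
    have h2 : g • S.w ∈ S.J a1 := by
      have := S.J_smul g _ _ hwa1
      rwa [h] at this
    exact one_eq ha1 h1 h2 D.mw hwa1
  have hfa : ∀ g : H, g • s = s → g • S.w = S.w → g • a1 = a1 := by
    intro g hs hw
    have h1 : S.ar s (g • a1) := by
      have := S.ar_smul g _ _ ha1
      rwa [hs] at this
    have h2 : S.w ∈ S.J (g • a1) := by
      have := S.J_smul g _ _ hwa1
      rwa [hw] at this
    rcases S.two _ _ _ _ ha1 hb1 h1 with e | e | e
    · exact absurd e hne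
    · exact absurd (e ▸ h2) hb1w
    · exact e.symm
  -- the poles in the slice
  have hpole : ∀ A, L.ar (L.nr s D.mw) A → A = L.nr a1 hwa1 ∨ A = L.tv S.u S.adj := by
    intro A hA
    rcases L.cases A with ⟨x, hx, rfl⟩ | ⟨x, hx, rfl⟩
    · left
      have h1 := (L.ar_nr _ _ _ _).1 hA
      have e : x = a1 := by
        rcases S.two _ _ _ _ ha1 hb1 h1 with e | e | e
        · exact absurd e hne
        · exact absurd (e ▸ hx) hb1w
        · exact e.symm
      subst e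
      rfl
    · right
      have h1 := (L.ar_tv _ _ _ _).1 hA
      have e : x = S.u := S.exits2 s S.w a1 x S.u D.mw ha1 hwa1 hx S.adj h1 D.mu
      subst e
      rfl
  have hJ : ∀ g : H, g • s = s → g • S.w = S.w → g ∈ S.JJ := fun g h1 h2 =>
    mem_JJ.2 ⟨h2, D.fix_u ha h1⟩
  have hNr : ∀ (g : H) (hs : g • s = s) (hw : g • S.w = S.w),
      Neg L.ar (L.nr a1 hwa1) (⟨g, hw⟩ : ↥(stabilizer H S.w)) ↔ Neg S.ar a1 g := fun g hs hw =>
    neg_nr L hwa1 (g := ⟨g, hw⟩) (hfa g hs hw)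
  have hNt : ∀ (g : H) (hs : g • s = s) (hw : g • S.w = S.w),
      Neg L.ar (L.tv S.u S.adj) (⟨g, hw⟩ : ↥(stabilizer H S.w)) ↔ Rev S.JJ g := fun g hs hw =>
    neg_tv L S.adj (g := ⟨g, hw⟩) (D.fix_u ha hs)
  -- the data of the weak soft, in symmetric form
  obtain ⟨-, A, B, hAB, hA, hB, k1, ⟨g0, k2, k3, k4⟩, k5⟩ := hwk
  have hsm : ∀ g : ↥(stabilizer H S.w), g • L.nr s D.mw = L.nr s D.mw ↔ g.1 • s = s := fun g =>
    Slc.nr_smul_eq L D.mw
  have hfA : ∀ (C : Y), L.ar (L.nr s D.mw) C → ∀ (g : H) (hs : g • s = s) (hw : g • S.w = S.w),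
      (⟨g, hw⟩ : ↥(stabilizer H S.w)) • C = C := by
    intro C hC g hs hw
    rcases hpole C hC with rfl | rfl
    · exact (Slc.nr_smul_eq L hwa1).2 (hfa g hs hw)
    · have hu : g • S.u = S.u := D.fix_u ha hs
      rw [L.tv_smul (⟨g, hw⟩ : ↥(stabilizer H S.w)) S.u S.adj
        (Slc.adj_smul' (⟨g, hw⟩ : ↥(stabilizer H S.w)) S.adj)]
      congr 1
  have hiff : ∀ (g : H) (hs : g • s = s) (hw : g • S.w = S.w), (Neg S.ar a1 g ↔ Rev S.JJ g) ∧
      (Neg L.ar A (⟨g, hw⟩ : ↥(stabilizer H S.w)) ↔ Rev S.JJ g) := by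
    intro g hs hw
    have h1 := k1 ⟨g, hw⟩ ((hsm _).2 hs) (hfA A hA g hs hw)
    have h2 := hNr g hs hw
    have h3 := hNt g hs hw
    rcases hpole A hA with eA | eA <;> rcases hpole B hB with eB | eB
    · exact absurd (eA.trans eB.symm) hAB
    · rw [eA, eB] at h1
      rw [eA]
      exact ⟨h2.symm.trans (h1.trans h3), h1.trans h3⟩
    · rw [eA, eB] at h1
      rw [eA]
      exact ⟨h2.symm.trans (h1.symm.trans h3), h3⟩
    · exact absurd (eA.trans eB.symm) hAB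
  -- the holonomy of the local pieces
  have hhol : ∀ (n : V) (g : H), S.ar n s → S.w ∈ S.J n → g • s = s → g • S.w = S.w →
      g • S.u = S.u → Relation.EqvGen (Rl S s S.w) n (g • n) → ¬ Rev S.JJ g := by
    intro n g hn hwn hs hw _ h
    rw [← (hiff g hs hw).2]
    exact Rl.hol L D.mw k5 hn hwn hs hw (hfA A hA g hs hw) h
  have hri : (D.r)⁻¹ • s = s := by rw [inv_smul_eq_iff, D.rs]
  refine ⟨S.light s a S.w S.u ha S.adj D.mw D.mu, a1, D.r • a1, hne, ha1, hb1, ?_, ?_, ?_⟩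
  · intro g hs hga
    have hw := hfw g hs hga
    rw [(hiff g hs hw).1, neg_smul_iff S.ar_smul]
    have e1 : ((D.r)⁻¹ * g * D.r) • s = s := by rw [mul_smul, mul_smul, D.rs, hs, hri]
    have e2 : ((D.r)⁻¹ * g * D.r) • S.w = S.w := by
      rw [mul_smul, mul_smul, D.rw1, RevD.fix_w' hw (D.fix_u ha hs), ← D.rw1, inv_smul_smul]
    rw [(hiff _ e1 e2).1]
    have e3 : (D.r)⁻¹ • S.u = S.u := by rw [inv_smul_eq_iff, D.ru]
    have := rev_conj_iff (S := S) (g := g) (r := (D.r)⁻¹) e3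
    rw [inv_inv] at this
    exact this.symm
  · have hs0 : g0.1 • s = s := (hsm _).1 k2
    exact ⟨g0.1, hs0, hfa _ hs0 g0.2, (hiff g0.1 hs0 g0.2).1.2 ((hiff g0.1 hs0 g0.2).2.1 k4)⟩
  · intro n g hn hs hga hl
    have hw := hfw g hs hga
    rw [(hiff g hs hw).1]
    exact D.hol hhol ha hn hs hw hl

/-- (b) for reversed softs -/
theorem weak_R {s a : V} (hs : S.w ∈ S.J s) (ha : S.ar s a) {x t : X} (hne : S.w ≠ t)
    (h1 : S.Cs s x S.w) (h2 : S.Cs s x t)
    (hwk : Weak ↥(stabilizer H S.w) L.ar L.Co (L.nr s hs)) : Weak H S.ar S.Co s := by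
  obtain ⟨k, hkw, hku⟩ := oneE (S := S) h1.1.symm
  have hki : k⁻¹ • S.w = S.w := by rw [inv_smul_eq_iff, hkw]
  have m1 : S.w ∈ S.J (k⁻¹ • s) := by
    have := S.J_smul k⁻¹ _ _ hs
    rwa [hki] at this
  have m2 : S.u ∈ S.J (k⁻¹ • s) := by
    have := S.J_smul k⁻¹ _ _ h1.2.1
    rwa [← hku, inv_smul_smul] at this
  have m3 : S.w' ∈ S.J (k⁻¹ • s) := by
    have h3 := S.J_smul k⁻¹ _ _ h2.2.2
    have h4 : S.T.Adj S.u (k⁻¹ • t) := by
      have := S.act.adj_smul k⁻¹ _ _ h2.1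
      rwa [← hku, inv_smul_smul] at this
    rcases (S.only _).1 h4 with e | e
    · exfalso
      apply hne
      rw [inv_smul_eq_iff, hkw] at e
      exact e.symm
    · rwa [e] at h3
  obtain ⟨D⟩ := exists_RevD m1 m2 m3
  have ha' : S.ar (k⁻¹ • s) (k⁻¹ • a) := S.ar_smul _ _ _ ha
  have hwk' : Weak ↥(stabilizer H S.w) L.ar L.Co (L.nr (k⁻¹ • s) D.mw) := by
    have := Weak.smul (Slc.ar_smul L) L.Co_smul (⟨k⁻¹, hki⟩ : ↥(stabilizer H S.w)) hwk
    rwa [L.nr_smul (⟨k⁻¹, hki⟩ : ↥(stabilizer H S.w)) s hs D.mw] at this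
  have h5 := weak_R0 L D ha' hwk'
  have h6 := Weak.smul S.ar_smul (fun h a b c e => by
    obtain ⟨c', e⟩ := e
    exact ⟨h • c', S.Cc_smul h _ _ _ _ e⟩) k h5
  rwa [smul_inv_smul] at h6

end T5

end Pool.Agent.DI
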