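import Pool.Agent.DI.C5B

/-!
# Chapter 5 (thin tail): the neighbours of `w` on the line of a broken sink (owner: helper78)
-/

namespace Pool.Agent.DI

open MulAction
open Pool.Agent.SAF (InC orbs FinOrb TAct Conv exists_next)
open Pool.Agent.SAG (IO Zt)
open Pool.Agent.BT (bey mst Hyp mst_conv)

section

variable {H X : Type} [Group H] [MulAction H X] {G : SimpleGraph X}

/-- every point of the line of a group of type `D_inf` has two neighbours on the line -/
theorem mst_two (hG : TAct H G) {A : Subgroup H} (hA : DT A) (hyp : Hyp X A) {y : X}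
    (hy : y ∈ mst G A) : ∃ t1 t2, t1 ≠ t2 ∧ G.Adj y t1 ∧ G.Adj y t2 ∧ t1 ∈ mst G A ∧
      t2 ∈ mst G A := by
  have hT := hG.tree
  obtain ⟨a, m, hL⟩ := exists_line (L := hA.dl) hG hA.1 hyp
  obtain ⟨n, hn⟩ := (hL.axis y).1 hy
  have hpos := hL.pos
  have d1 : G.dist (a (n - 1)) (a (n + 2)) = 3 * m := by
    rw [hL.dist']
    congr 1
    omega
  have d2 : G.dist (a (n - 1)) (a n) = m := by
    rw [hL.dist']
    have : (n - 1 - n).natAbs = 1 := by omega
    rw [this, one_mul]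
  have d3 : G.dist (a (n + 1)) (a (n + 2)) = m := by
    rw [hL.dist']
    have : (n + 1 - (n + 2)).natAbs = 1 := by omega
    rw [this, one_mul]
  have t1 : G.dist (a (n - 1)) y ≤ G.dist (a (n - 1)) (a n) + G.dist (a n) y :=
    hT.connected.dist_triangle
  have t2 : G.dist y (a (n + 2)) ≤ G.dist y (a (n + 1)) + G.dist (a (n + 1)) (a (n + 2)) :=
    hT.connected.dist_triangle
  have t3 : G.dist (a (n - 1)) (a (n + 2)) ≤ G.dist (a (n - 1)) y + G.dist y (a (n + 2)) :=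
    hT.connected.dist_triangle
  have e1 : G.dist (a (n - 1)) y = m + G.dist (a n) y := by omega
  have e2 : G.dist y (a (n + 2)) = G.dist y (a (n + 1)) + m := by omega
  have hp : y ≠ a (n - 1) := by
    rintro rfl
    rw [SimpleGraph.dist_self] at e1
    omega
  have hq : y ≠ a (n + 2) := by
    rintro rfl
    rw [SimpleGraph.dist_self] at e2
    omega
  obtain ⟨p, p1, p2⟩ := exists_next hT hp
  obtain ⟨q, q1, q2⟩ := exists_next hT hq
  have c1 : G.dist (a (n - 1)) y = G.dist y (a (n - 1)) := SimpleGraph.dist_comm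
  have c2 : G.dist (a (n - 1)) p = G.dist p (a (n - 1)) := SimpleGraph.dist_comm
  have dp : G.dist y p = 1 := SimpleGraph.dist_eq_one_iff_adj.2 p1
  have dq : G.dist y q = 1 := SimpleGraph.dist_eq_one_iff_adj.2 q1
  have hpM : p ∈ mst G A := by
    apply mst_conv A y hy (a (n - 1)) (hL.mem _)
    omega
  have hqM : q ∈ mst G A := by
    apply mst_conv A y hy (a (n + 2)) (hL.mem _)
    omega
  refine ⟨p, q, ?_, p1, q1, hpM, hqM⟩
  rintro rfl
  have t4 : G.dist (a (n - 1)) (a (n + 2)) ≤ G.dist (a (n - 1)) p + G.dist p (a (n + 2)) :=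
    hT.connected.dist_triangle
  omega

end

namespace T5

variable {H V X : Type} [Group H] [MulAction H V] [MulAction H X] {S : T5 H V X}

/-- the two neighbours of `w` on the line of a broken sink -/
theorem birth_nbrs {x : V} (hD : DT (stabilizer H x)) (hH : Hyp X (stabilizer H x))
    (hJ : S.J x = mst S.T (stabilizer H x)) (hw : S.w ∈ S.J x) :
    ∃ u1 u2 z1 z2 : X, u1 ≠ u2 ∧ S.Mid u1 ∧ S.Mid u2 ∧ S.Cs x u1 S.w ∧ S.Cs x u2 S.w ∧
      S.Cs x u1 z1 ∧ S.w ≠ z1 ∧ S.Cs x u2 z2 ∧ S.w ≠ z2 ∧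
      ∀ y, S.T.Adj S.w y → y ∈ S.J x → y = u1 ∨ y = u2 := by
  have hw' : S.w ∈ mst S.T (stabilizer H x) := hJ ▸ hw
  obtain ⟨u1, u2, hne, a1, a2, m1, m2⟩ := mst_two S.act hD hH hw'
  have n1 : u1 ∈ S.J x := by rw [hJ]; exact m1
  have n2 : u2 ∈ S.J x := by rw [hJ]; exact m2
  have far : ∀ u, u ∈ mst S.T (stabilizer H x) → S.T.Adj S.w u → ∃ z, S.Cs x u z ∧ S.w ≠ z := by
    intro u hu hadj
    obtain ⟨t1, t2, k1, k2, k3, k4, k5⟩ := mst_two S.act hD hH hu
    have huJ : u ∈ S.J x := by rw [hJ]; exact hu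
    by_cases e : S.w = t1
    · refine ⟨t2, ⟨k3, huJ, by rw [hJ]; exact k5⟩, ?_⟩
      rw [e]
      exact k1
    · exact ⟨t1, ⟨k2, huJ, by rw [hJ]; exact k4⟩, e⟩
  obtain ⟨z1, f1, g1⟩ := far u1 m1 a1
  obtain ⟨z2, f2, g2⟩ := far u2 m2 a2
  refine ⟨u1, u2, z1, z2, hne, bad_w.mid a1, bad_w.mid a2, ⟨a1.symm, n1, hw⟩, ⟨a2.symm, n2, hw⟩,
    f1, g1, f2, g2, ?_⟩
  intro y hy hyJ
  rcases S.exits3 x S.w u1 u2 y hw a1 a2 hy n1 n2 hyJ with e | e | e
  · exact absurd e hne
  · exact Or.inr e.symm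
  · exact Or.inl e.symm

/-- an element of the group of a broken sink which fixes an edge of its line fixes the line -/
theorem birth_fix {x : V} (hD : DT (stabilizer H x)) (hH : Hyp X (stabilizer H x))
    (hJ : S.J x = mst S.T (stabilizer H x)) {y z : X} (h : S.Cs x y z) {g : H} (hx : g • x = x)
    (hy : g • y = y) (hz : g • z = z) : (∀ p ∈ S.J x, g • p = p) ∧ ¬ Rev (stabilizer H x) g := by
  obtain ⟨a, m, hL⟩ := exists_line (L := hD.dl) S.act hD.1 hH
  have h1 : y ∈ mst S.T (stabilizer H x) := hJ ▸ h.2.1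
  have h2 : z ∈ mst S.T (stabilizer H x) := hJ ▸ h.2.2
  have hgx : g ∈ stabilizer H x := hx
  have hN := hL.stab_edge S.act h1 h2 h.1.ne (g := ⟨g, hgx⟩) hy hz
  constructor
  · intro p hp
    exact hL.fixN ⟨g, hgx⟩ hN p (hJ ▸ hp)
  · rw [rev_iff hD.dl hgx, hN.1]
    exact DL.ne_neg_one

/-- an element of the group of a broken sink which fixes a point of its line and moves a neighbour
exchanges the two neighbours and reverses the line -/
theorem birth_rev {x : V} (hD : DT (stabilizer H x)) (hH : Hyp X (stabilizer H x))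
    (hJ : S.J x = mst S.T (stabilizer H x)) {y t1 t2 : X} (h1 : S.Cs x y t1) (h2 : S.Cs x y t2)
    (hne : t1 ≠ t2) {g : H} (hx : g • x = x) (hy : g • y = y) (ht : g • t1 ≠ t1) :
    g • t1 = t2 ∧ g • t2 = t1 ∧ Rev (stabilizer H x) g := by
  have c1 : S.Cs x y (g • t1) := by
    refine ⟨?_, h1.2.1, ?_⟩
    · have := S.act.adj_smul g _ _ h1.1
      rwa [hy] at this
    · have := S.J_smul g _ _ h1.2.2
      rwa [hx] at this
  have c2 : S.Cs x y (g • t2) := by
    refine ⟨?_, h2.2.1, ?_⟩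
    · have := S.act.adj_smul g _ _ h2.1
      rwa [hy] at this
    · have := S.J_smul g _ _ h2.2.2
      rwa [hx] at this
  have e1 : g • t1 = t2 := by
    rcases S.exits3 x y t1 t2 (g • t1) h1.2.1 h1.1 h2.1 c1.1 h1.2.2 h2.2.2 c1.2.2 with e | e | e
    · exact absurd e hne
    · exact e.symm
    · exact absurd e.symm ht
  have e2 : g • t2 = t1 := by
    rcases S.exits3 x y t1 t2 (g • t2) h1.2.1 h1.1 h2.1 c2.1 h1.2.2 h2.2.2 c2.2.2 with e | e | e
    · exact absurd e hne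
    · exact absurd (smul_left_cancel _ (e1.trans e)) hne
    · exact e.symm
  refine ⟨e1, e2, ?_⟩
  have hgx : g ∈ stabilizer H x := hx
  by_contra hr
  have hε : hD.dl.ε ⟨g, hgx⟩ = 1 :=
    (hD.dl.ε_cases _).resolve_right (fun h => hr ((rev_iff hD.dl hgx).2 h))
  obtain ⟨a, m, hL⟩ := exists_line (L := hD.dl) S.act hD.1 hH
  have hyM : y ∈ mst S.T (stabilizer H x) := hJ ▸ h1.2.1
  have ht1 : t1 ∈ mst S.T (stabilizer H x) := hJ ▸ h1.2.2
  have hN : (⟨g, hgx⟩ : ↥(stabilizer H x)) ∈ hD.dl.N := by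
    rcases hL.stab S.act hyM (g := ⟨g, hgx⟩) hy with h | ⟨n, -, h⟩
    · exact h
    · rcases hD.dl.mem_St_iff.1 h with h | h
      · exact h
      · exfalso
        rw [h.1] at hε
        exact DL.ne_neg_one hε.symm
  exact ht (hL.fixN ⟨g, hgx⟩ hN t1 ht1)

end T5

end Pool.Agent.DI
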