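import Pool.Agent.DI.C5S
import Pool.Agent.DI.C5Y

/-!
# Chapter 5 (thin tail): a sink of `K` over `w` is not weak in the slice (owner: helper24)
-/

namespace Pool.Agent.DI

open MulAction Subgroup
open Pool.Agent.SAF (InC orbs FinOrb TAct Conv exists_next)
open Pool.Agent.SAG (IO Zt)
open Pool.Agent.BT (bey mst Hyp)

namespace T5

variable {H V X : Type} [Group H] [MulAction H V] [MulAction H X] {S : T5 H V X}

namespace PD

variable {x : V} {y : X} (D : PD S x y)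

/-- leaving a lost soft -/
theorem leave {k : H} {c : X} {m : V} (hk : k • x = x) (hc : S.Cc c (k • D.gg • S.v) x m) :
    ∃ e g : H, (e = 1 ∨ e = D.r) ∧ g • x = x ∧ g • S.w = S.w ∧ g • y = y ∧
      g • D.gg • S.v = D.gg • S.v ∧ c = (k * e) • S.w ∧ m = (k * e * g) • D.nn := by
  have hki : k⁻¹ • x = x := by rw [inv_smul_eq_iff, hk]
  have h1 := S.Cc_smul k⁻¹ _ _ _ _ hc
  rw [inv_smul_smul, hki] at h1
  obtain ⟨c1, c2, -⟩ := S.H1 _ _ _ _ h1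
  have hadj : S.T.Adj (k⁻¹ • c) y := by
    rcases c2 with c2 | ⟨g', e', c2⟩
    · exact absurd (not_both c1 ⟨D.gg, (mem_J_v.1 c2).symm⟩) id
    · have : g' • S.u ∈ S.J (D.gg • S.v) := by rw [e']; exact mem_J_v.2 rfl
      rw [mem_J_v.1 this, D.ggu] at c2
      exact c2
  rcases (D.only _).1 hadj.symm with e | e
  · rw [e] at h1
    obtain ⟨g, a1, a2, a3, a4, a5⟩ := D.t3 D.gg _ D.ggu h1
    refine ⟨1, g, Or.inl rfl, a1, a2, a3, a4, ?_, ?_⟩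
    · rw [mul_one, ← e, smul_inv_smul]
    · rw [mul_one, mul_smul, a5, smul_inv_smul]
  · rw [e] at h1
    have hri : (D.r)⁻¹ • x = x := by rw [inv_smul_eq_iff, D.rx]
    have hrv : (D.r)⁻¹ • D.gg • S.v = D.gg • S.v := by rw [inv_smul_eq_iff, D.rv]
    have h2 := S.Cc_smul (D.r)⁻¹ _ _ _ _ h1
    rw [inv_smul_smul, hri, hrv] at h2
    obtain ⟨g, a1, a2, a3, a4, a5⟩ := D.t3 D.gg _ D.ggu h2
    refine ⟨D.r, g, Or.inr rfl, a1, a2, a3, a4, ?_, ?_⟩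
    · rw [mul_smul, ← e, smul_inv_smul]
    · rw [mul_smul, mul_smul, a5, smul_inv_smul, smul_inv_smul]

end PD

/-- data of a sink over `w` which crosses both edges at two neighbours of `w` -/
structure BD (S : T5 H V X) (x : V) (u1 u2 : X) where
  hx : ∀ a, ¬ S.ar x a
  D1 : PD S x u1
  D2 : PD S x u2
  ne12 : u1 ≠ u2
  nb : ∀ y, S.T.Adj S.w y → y ∈ S.J x → y = u1 ∨ y = u2
  fix12 : ∀ g : H, g • x = x → g • S.w = S.w → g • u1 = u1 → g • u2 = u2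
  fix21 : ∀ g : H, g • x = x → g • S.w = S.w → g • u2 = u2 → g • u1 = u1
  C1 : ∀ g : H, g • x = x → g • S.w = S.w → g • u1 = u1 →
    (Rev (stabilizer H S.w ⊓ stabilizer H u1) g ↔ Rev (stabilizer H S.w ⊓ stabilizer H u2) g)
  C3 : ∀ (n : V) (g : H), S.ar n x → S.w ∈ S.J n → g • x = x → g • S.w = S.w → g • u1 = u1 →
    Relation.EqvGen (Rl S x S.w) n (g • n) → ¬ Rev (stabilizer H S.w ⊓ stabilizer H u1) g

namespace BD

variable {x : V} {u1 u2 : X}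

/-- exchange of the two sides -/
def symm (B : BD S x u1 u2) : BD S x u2 u1 where
  hx := B.hx
  D1 := B.D2
  D2 := B.D1
  ne12 := B.ne12.symm
  nb := fun y h1 h2 => (B.nb y h1 h2).symm
  fix12 := B.fix21
  fix21 := B.fix12
  C1 := fun g h1 h2 h3 => (B.C1 g h1 h2 (B.fix21 g h1 h2 h3)).symm
  C3 := fun n g hn hw h1 h2 h3 h => by
    rw [← B.C1 g h1 h2 (B.fix21 g h1 h2 h3)]
    exact B.C3 n g hn hw h1 h2 (B.fix21 g h1 h2 h3) h

variable (B : BD S x u1 u2)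

/-- the kernel -/
def KK : Subgroup H where
  carrier := {g | g • x = x ∧ g • S.w = S.w ∧ g • u1 = u1 ∧
    ¬ Rev (stabilizer H S.w ⊓ stabilizer H u1) g}
  mul_mem' := by
    rintro g h ⟨a1, a2, a3, a4⟩ ⟨b1, b2, b3, b4⟩
    exact ⟨by rw [mul_smul, b1, a1], by rw [mul_smul, b2, a2], by rw [mul_smul, b3, a3],
      B.D1.rmul g h a2 a3 b2 b3 a4 b4⟩
  one_mem' := ⟨one_smul _ _, one_smul _ _, one_smul _ _, B.D1.rone⟩
  inv_mem' := by
    rintro g ⟨a1, a2, a3, a4⟩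
    exact ⟨by rw [inv_smul_eq_iff, a1], by rw [inv_smul_eq_iff, a2], by rw [inv_smul_eq_iff, a3],
      B.D1.rinv g a2 a3 a4⟩

theorem mem_KK {g : H} : g ∈ B.KK ↔ g • x = x ∧ g • S.w = S.w ∧ g • u1 = u1 ∧
    ¬ Rev (stabilizer H S.w ⊓ stabilizer H u1) g := Iff.rfl

theorem KK_symm {g : H} : g ∈ B.symm.KK ↔ g ∈ B.KK := by
  rw [mem_KK, mem_KK]
  constructor
  · rintro ⟨a1, a2, a3, a4⟩
    have h := B.fix21 g a1 a2 a3
    exact ⟨a1, a2, h, by rw [B.C1 g a1 a2 h]; exact a4⟩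
  · rintro ⟨a1, a2, a3, a4⟩
    have h := B.fix12 g a1 a2 a3
    exact ⟨a1, a2, h, by rw [← B.C1 g a1 a2 a3]; exact a4⟩

theorem rr_mem : B.D1.r * B.D1.r ∈ B.KK := by
  have h1 : (B.D1.r * B.D1.r) • S.w = S.w := by
    have a1 : S.T.Adj u1 (B.D1.r • B.D1.r • S.w) := by
      have := S.act.adj_smul B.D1.r _ _ ((B.D1.only _).2 (Or.inr rfl))
      rwa [B.D1.ry] at this
    rcases (B.D1.only _).1 a1 with e | e
    · rw [mul_smul, e]
    · exact absurd (smul_left_cancel _ e) B.D1.rne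
  have h2 : (B.D1.r * B.D1.r) • x = x := by rw [mul_smul, B.D1.rx, B.D1.rx]
  have h3 : (B.D1.r * B.D1.r) • u1 = u1 := by rw [mul_smul, B.D1.ry, B.D1.ry]
  exact ⟨h2, h1, h3, B.D1.nrev _ h2 h1 h3 (by rw [mul_smul, B.D1.rv, B.D1.rv])⟩

theorem rr_mem2 : B.D2.r * B.D2.r ∈ B.KK := B.KK_symm.1 B.symm.rr_mem

theorem conj_mem {g : H} (hg : g ∈ B.KK) : B.D1.r * g * (B.D1.r)⁻¹ ∈ B.KK := by
  obtain ⟨a1, a2, a3, a4⟩ := B.mem_KK.1 hg
  have hri : (B.D1.r)⁻¹ • x = x := by rw [inv_smul_eq_iff, B.D1.rx]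
  have hru : (B.D1.r)⁻¹ • u1 = u1 := by rw [inv_smul_eq_iff, B.D1.ry]
  have hadj : S.T.Adj u1 ((B.D1.r)⁻¹ • S.w) := by
    have := S.act.adj_smul (B.D1.r)⁻¹ _ _ B.D1.adj.symm
    rwa [hru] at this
  have hgr : g • B.D1.r • S.w = B.D1.r • S.w := by
    have b1 : S.T.Adj u1 (g • B.D1.r • S.w) := by
      have := S.act.adj_smul g _ _ ((B.D1.only _).2 (Or.inr rfl))
      rwa [a3] at this
    rcases (B.D1.only _).1 b1 with e | e
    · exact absurd (smul_left_cancel g (e.trans a2.symm)) B.D1.rne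
    · exact e
  have hfix : g • (B.D1.r)⁻¹ • S.w = (B.D1.r)⁻¹ • S.w := by
    rcases (B.D1.only _).1 hadj with e | e
    · rw [e, a2]
    · rw [e, hgr]
  refine ⟨by rw [mul_smul, mul_smul, hri, a1, B.D1.rx], by rw [mul_smul, mul_smul, hfix,
    smul_inv_smul], by rw [mul_smul, mul_smul, hru, a3, B.D1.ry], ?_⟩
  rw [B.D1.rconj g a2 a3]
  exact a4

theorem conj_mem2 {g : H} (hg : g ∈ B.KK) : B.D2.r * g * (B.D2.r)⁻¹ ∈ B.KK :=
  B.KK_symm.1 (B.symm.conj_mem (B.KK_symm.2 hg))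

/-- the group of the two reflections -/
def SS : Subgroup H := closure ((B.KK : Set H) ∪ {B.D1.r, B.D2.r})

theorem SS_x {g : H} (hg : g ∈ B.SS) : g • x = x := by
  have h : B.SS ≤ stabilizer H x := by
    refine (closure_le _).2 ?_
    rintro k (hk | hk | hk)
    · exact hk.1
    · rw [hk]; exact B.D1.rx
    · rw [Set.mem_singleton_iff.1 hk]; exact B.D2.rx
  exact h hg

theorem KK_le {g : H} (hg : g ∈ B.KK) : g ∈ B.SS := subset_closure (Or.inl hg)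

theorem r1_mem : B.D1.r ∈ B.SS := subset_closure (Or.inr (Or.inl rfl))

theorem r2_mem : B.D2.r ∈ B.SS := subset_closure (Or.inr (Or.inr rfl))

theorem e1_mem {e : H} (h : e = 1 ∨ e = B.D1.r) : e ∈ B.SS := by
  rcases h with rfl | rfl
  · exact one_mem _
  · exact B.r1_mem

theorem e2_mem {e : H} (h : e = 1 ∨ e = B.D2.r) : e ∈ B.SS := by
  rcases h with rfl | rfl
  · exact one_mem _
  · exact B.r2_mem

/-- positions -/
theorem pos : ∃ (L0 : DL ↥(stabilizer H x)) (a : ℤ → X) (p1 p2 : ℤ), (∀ n k, a n = a k → n = k) ∧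
    (∀ (g : ↥(stabilizer H x)) (n : ℤ), (g : H) • a n = a (L0.act g n)) ∧
    u1 = a p1 ∧ u2 = a p2 ∧ L0.Refl p1 ⟨B.D1.r, B.D1.rx⟩ ∧ L0.Refl p2 ⟨B.D2.r, B.D2.rx⟩ := by
  obtain ⟨hD, hH, hJ⟩ : DT (stabilizer H x) ∧ Hyp X (stabilizer H x) ∧
      S.J x = mst S.T (stabilizer H x) := by
    rcases S.snk x B.hx with ⟨p, hp⟩ | h
    · exfalso
      have e1 := B.D1.my
      have e2 := B.D1.mw
      rw [hp] at e1 e2
      exact B.D1.adj.ne (e2.trans e1.symm)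
    · exact h
  obtain ⟨a, m, hL⟩ := exists_line hD.dl S.act hD.1 hH
  have key : ∀ {y : X} (D : PD S x y), ∃ n, y = a n ∧ hD.dl.Refl n ⟨D.r, D.rx⟩ := by
    intro y D
    have hc1 : S.Cs x y S.w := ⟨D.adj.symm, D.my, D.mw⟩
    have hc2 : S.Cs x y (D.r • S.w) := by
      refine ⟨(D.only _).2 (Or.inr rfl), D.my, ?_⟩
      have := S.J_smul D.r _ _ D.mw
      rwa [D.rx] at this
    have hN := (neg_iff hc1 hc2 D.rne.symm D.rx D.ry).2 rfl
    have hR : Rev (stabilizer H x) D.r := by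
      rcases hN with ⟨-, ⟨-, h⟩ | ⟨p, q, -, hp, -⟩⟩
      · exact h
      · exact absurd hp (B.hx p)
    rw [rev_iff hD.dl (show D.r ∈ stabilizer H x from D.rx)] at hR
    exact hL.rev_fix S.act (hJ ▸ D.my) (g := ⟨D.r, D.rx⟩) D.ry hR
  obtain ⟨p1, e1, r1⟩ := key B.D1
  obtain ⟨p2, e2, r2⟩ := key B.D2
  exact ⟨hD.dl, a, p1, p2, fun n k => hL.inj, hL.smul, e1, e2, r1, r2⟩

theorem act_r (k : ℤ) {L0 : DL ↥(stabilizer H x)} {p1 p2 : ℤ}
    (h1 : L0.Refl p1 ⟨B.D1.r, B.D1.rx⟩) (h2 : L0.Refl p2 ⟨B.D2.r, B.D2.rx⟩) (n : ℤ) :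
    L0.act ((⟨B.D1.r, B.D1.rx⟩ * ⟨B.D2.r, B.D2.rx⟩ : ↥(stabilizer H x)) ^ k) n =
      n + 2 * k * (p1 - p2) := by
  obtain ⟨e1, e2⟩ := h1.mul h2
  unfold DL.act
  have e3 : L0.ε ((⟨B.D1.r, B.D1.rx⟩ * ⟨B.D2.r, B.D2.rx⟩ : ↥(stabilizer H x)) ^ k) = 1 := by
    rw [map_zpow, e1, one_zpow]
  rw [e3, L0.τ_zpow e1, e2, Units.val_one]
  ring

/-- elements of `SS` -/
theorem form {g : H} (hg : g ∈ B.SS) :
    g • u2 ≠ u1 ∧ (g • u1 = u1 → ∃ c ∈ B.KK, g • B.D1.gg • S.v = c • B.D1.gg • S.v) := by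
  obtain ⟨L0, a, p1, p2, ainj, asm, e1, e2, r1, r2⟩ := B.pos
  have hp : p1 ≠ p2 := fun h => B.ne12 (by rw [e1, e2, h])
  have hKu1 : ∀ c ∈ B.KK, c • u1 = u1 := fun c hc => hc.2.2.1
  have hKu2 : ∀ c ∈ B.KK, c • u2 = u2 := fun c hc => B.fix12 c hc.1 hc.2.1 hc.2.2.1
  have hT : ∀ (k n : ℤ), ((B.D1.r * B.D2.r) ^ k) • a n = a (n + 2 * k * (p1 - p2)) := by
    intro k n
    rw [← B.act_r k r1 r2, ← asm]
    rfl
  have hT1 : ∀ k : ℤ, ((B.D1.r * B.D2.r) ^ k) • u1 = a (p1 + 2 * k * (p1 - p2)) := fun k =>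
    (congrArg (fun z => ((B.D1.r * B.D2.r) ^ k) • z) e1).trans (hT k p1)
  have hT2 : ∀ k : ℤ, ((B.D1.r * B.D2.r) ^ k) • u2 = a (p2 + 2 * k * (p1 - p2)) := fun k =>
    (congrArg (fun z => ((B.D1.r * B.D2.r) ^ k) • z) e2).trans (hT k p2)
  have hr1 : B.D1.r • u2 = a (2 * p1 - p2) := by
    refine (congrArg (fun z => B.D1.r • z) e2).trans ?_
    rw [← r1.act, ← asm]
  obtain ⟨k, c, hc, rfl | rfl⟩ := two_inv_form B.rr_mem B.rr_mem2 (fun k hk => B.conj_mem hk)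
    (fun k hk => B.conj_mem2 hk) hg
  · constructor
    · rw [mul_smul, hKu2 c hc, hT2]
      intro h
      have h := ainj _ _ (h.trans e1)
      have h3 : (2 * k - 1) * (p1 - p2) = 0 := by linear_combination h
      rcases mul_eq_zero.1 h3 with h4 | h4
      · omega
      · exact hp (by linarith)
    · rw [mul_smul, hKu1 c hc, hT1]
      intro h
      have h := ainj _ _ (h.trans e1)
      have h3 : k * (p1 - p2) = 0 := by linarith
      have hk : k = 0 := by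
        rcases mul_eq_zero.1 h3 with h4 | h4
        · exact h4
        · exact absurd (by linarith) hp
      refine ⟨c, hc, ?_⟩
      rw [hk, zpow_zero, one_mul]
  · constructor
    · rw [mul_smul, mul_smul, hKu2 c hc, hr1, hT]
      intro h
      have h := ainj _ _ (h.trans e1)
      have h3 : (2 * k + 1) * (p1 - p2) = 0 := by linear_combination h
      rcases mul_eq_zero.1 h3 with h4 | h4
      · omega
      · exact hp (by linarith)
    · rw [mul_smul, mul_smul, hKu1 c hc, B.D1.ry, hT1]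
      intro h
      have h := ainj _ _ (h.trans e1)
      have h3 : k * (p1 - p2) = 0 := by linarith
      have hk : k = 0 := by
        rcases mul_eq_zero.1 h3 with h4 | h4
        · exact h4
        · exact absurd (by linarith) hp
      refine ⟨B.D1.r * c * (B.D1.r)⁻¹, B.conj_mem hc, ?_⟩
      have hrv : (B.D1.r)⁻¹ • B.D1.gg • S.v = B.D1.gg • S.v := by rw [inv_smul_eq_iff, B.D1.rv]
      rw [hk, zpow_zero, one_mul, mul_smul, mul_smul, mul_smul, hrv]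

include B in
/-- the other node of a corner at a node over `w` -/
theorem enter {n m : V} {c : X} (hn : S.ar n x) (hwn : S.w ∈ S.J n) (hm : S.ar m x)
    (hc : S.Cc c n x m) : c = S.w ∧ (S.w ∈ S.J m ∨
      ∃ g : H, m = g • S.v ∧ (g • S.u = u1 ∨ g • S.u = u2)) := by
  have hlost : ∀ {y : V} {c : X}, S.w ∈ S.J y → (c ∈ S.J y ∨ ∃ g : H, y = g • S.v ∧
      S.T.Adj c (g • S.u)) → c ∈ S.J y := by
    rintro y c hy (h | ⟨g, rfl, -⟩)
    · exact h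
    · exfalso
      have h1 := mem_J_v.1 hy
      exact S.wu g⁻¹ (by rw [h1, inv_smul_smul])
  obtain ⟨c1, c2, c3⟩ := S.H1 _ _ _ _ hc
  have hcw : c = S.w := one_eq hn (hlost hwn c2) (hlost B.D1.mw c3) hwn B.D1.mw
  subst hcw
  refine ⟨rfl, ?_⟩
  obtain ⟨-, c4, -⟩ := S.H1 _ _ _ _ (S.Cc_symm _ _ _ _ hc)
  rcases c4 with h | ⟨g, rfl, hg⟩
  · exact Or.inl h
  · right
    refine ⟨g, rfl, B.nb _ hg ?_⟩
    obtain ⟨p, hp1, hp2⟩ := one_ex hm
    rwa [mem_J_v.1 hp1] at hp2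

include B in
/-- nodes of corners at `x` -/
theorem arn {c : X} {n m : V} (hc : S.Cc c n x m) : S.ar n x ∧ S.ar m x :=
  ⟨(S.Cc_E _ _ _ _ hc).resolve_right (B.hx n),
    (S.Cc_E _ _ _ _ (S.Cc_symm _ _ _ _ hc)).resolve_right (B.hx m)⟩

/-- the step out of a node over `k w` -/
theorem step3 {k : H} (hk : k • x = x) {n m : V} {c : X} (hc : S.Cc c n x m)
    (hn : k • S.w ∈ S.J n) (hl : Relation.EqvGen (Rl S x (k • S.w)) (k • B.D1.nn) n) :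
    (k • S.w ∈ S.J m ∧ Relation.EqvGen (Rl S x (k • S.w)) (k • B.D1.nn) m) ∨
    (∃ h ∈ B.KK, m = (k * h) • B.D1.gg • S.v) ∨
    (∃ h : H, h • x = x ∧ h • S.w = S.w ∧ h • u1 = u1 ∧ m = (k * h) • B.D2.gg • S.v ∧
      Relation.EqvGen (Rl S x S.w) B.D1.nn (h • B.D2.nn)) := by
  have hki : k⁻¹ • x = x := by rw [inv_smul_eq_iff, hk]
  obtain ⟨han, ham⟩ := B.arn hc
  have han' : S.ar (k⁻¹ • n) x := by
    have := S.ar_smul k⁻¹ _ _ han
    rwa [hki] at this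
  have ham' : S.ar (k⁻¹ • m) x := by
    have := S.ar_smul k⁻¹ _ _ ham
    rwa [hki] at this
  have hc' : S.Cc (k⁻¹ • c) (k⁻¹ • n) x (k⁻¹ • m) := by
    have := S.Cc_smul k⁻¹ _ _ _ _ hc
    rwa [hki] at this
  have hn' : S.w ∈ S.J (k⁻¹ • n) := by
    have := S.J_smul k⁻¹ _ _ hn
    rwa [inv_smul_smul] at this
  have hl' : Relation.EqvGen (Rl S x S.w) B.D1.nn (k⁻¹ • n) := by
    have := Rl.smul k⁻¹ hl
    rwa [hki, inv_smul_smul, inv_smul_smul] at this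
  obtain ⟨e, h⟩ := B.enter han' hn' ham' hc'
  rw [e] at hc'
  rcases h with h | ⟨g, hg, hgu⟩
  · left
    have h1 := S.J_smul k _ _ h
    rw [smul_inv_smul] at h1
    refine ⟨h1, ?_⟩
    have h2 : Relation.EqvGen (Rl S x S.w) B.D1.nn (k⁻¹ • m) :=
      Relation.EqvGen.trans _ _ _ hl' (Relation.EqvGen.rel _ _ ⟨han', ham', hc', hn', h⟩)
    have h3 := Rl.smul k h2
    rwa [hk, smul_inv_smul] at h3
  · rcases hgu with hgu | hgu
    · right; left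
      obtain ⟨h, a1, a2, a3, a4, a5⟩ := B.D1.t3 g _ hgu (hg ▸ S.Cc_symm _ _ _ _ hc')
      refine ⟨h, ⟨a1, a2, a3, ?_⟩, ?_⟩
      · refine B.C3 B.D1.nn h (B.arn B.D1.hnn).2 ?_ a1 a2 a3 (by rw [a5]; exact hl')
        exact (Rl.mem hl').2 hn'
      · rw [mul_smul, a4, ← hg, smul_inv_smul]
    · right; right
      obtain ⟨h, a1, a2, a3, a4, a5⟩ := B.D2.t3 g _ hgu (hg ▸ S.Cc_symm _ _ _ _ hc')
      refine ⟨h, a1, a2, B.fix21 h a1 a2 a3, ?_, by rw [a5]; exact hl'⟩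
      rw [mul_smul, a4, ← hg, smul_inv_smul]

theorem inv_mul3 (k e g : H) : k⁻¹ * (k * e * g) = e * g := by group

/-- the step out of a lost soft over `k u1` -/
theorem step1 {k : H} (hk : k • x = x) {m : V} {c : X}
    (hc : S.Cc c (k • B.D1.gg • S.v) x m) :
    ∃ h : H, h • x = x ∧ k⁻¹ * h ∈ B.SS ∧ m = h • B.D1.nn := by
  obtain ⟨e, g, he, g1, g2, g3, g4, -, g6⟩ := B.D1.leave hk hc
  have hgK : g ∈ B.KK := ⟨g1, g2, g3, B.D1.nrev g g1 g2 g3 g4⟩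
  refine ⟨k * e * g, ?_, ?_, g6⟩
  · rw [mul_smul, mul_smul, g1, B.SS_x (B.e1_mem he), hk]
  · rw [inv_mul3]
    exact mul_mem (B.e1_mem he) (B.KK_le hgK)

/-- the step out of a lost soft over `k u2` -/
theorem step2 {k : H} (hk : k • x = x) {m : V} {c : X}
    (hc : S.Cc c (k • B.D2.gg • S.v) x m) :
    ∃ h : H, h • x = x ∧ k⁻¹ * h ∈ B.SS ∧ m = h • B.D2.nn := by
  obtain ⟨e, g, he, g1, g2, g3, g4, -, g6⟩ := B.D2.leave hk hc
  have hgK : g ∈ B.symm.KK := ⟨g1, g2, g3, B.D2.nrev g g1 g2 g3 g4⟩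
  refine ⟨k * e * g, ?_, ?_, g6⟩
  · rw [mul_smul, mul_smul, g1, B.SS_x (B.e2_mem he), hk]
  · rw [inv_mul3]
    exact mul_mem (B.e2_mem he) (B.KK_le (B.KK_symm.1 hgK))

include B in
theorem co_symm {n m : V} (h : LkR S.ar S.Co x n m) : LkR S.ar S.Co x m n := by
  obtain ⟨h1, h2, c, h3⟩ := h
  exact ⟨h2, h1, c, S.Cc_symm _ _ _ _ h3⟩

/-- the end of the argument -/
theorem finish {tag : V → H → Prop}
    (htag : ∀ n k, tag n k → k • x = x ∧ (n = k • B.D1.gg • S.v ∨ n = k • B.D2.gg • S.v ∨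
      k • S.w ∈ S.J n))
    (h1 : tag (B.D1.gg • S.v) 1)
    (hR : ∀ n m k, LkR S.ar S.Co x n m → tag n k → ∃ k', tag m k' ∧ k⁻¹ * k' ∈ B.SS)
    {m : V} (hm : S.ar m x) : ∃ k ∈ B.SS, m = k • B.D1.gg • S.v ∨ m = k • B.D2.gg • S.v ∨
      k • S.w ∈ S.J m := by
  have hlk := S.lk x B.hx ⟨S.w, u1, B.D1.adj, B.D1.mw, B.D1.my⟩ _ _ B.D1.ar hm
  obtain ⟨k, hk, hk'⟩ := (tag_spread (G := H) hR (fun n m k h ht => hR m n k (B.co_symm h) ht)
    hlk).1 1 h1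
  rw [inv_one, one_mul] at hk'
  exact ⟨k, hk', (htag _ _ hk).2⟩

/-- cases (I) and (II): all nodes are tagged by `SS` -/
theorem no_rev (h : ∀ m, S.ar m x → ∃ k ∈ B.SS, m = k • B.D1.gg • S.v ∨
      m = k • B.D2.gg • S.v ∨ k • S.w ∈ S.J m)
    {g0 : H} (g1 : g0 • x = x) (g2 : g0 • S.w = S.w) (g3 : g0 • u1 = u1) :
    ¬ Rev (stabilizer H S.w ⊓ stabilizer H u1) g0 := by
  have ha : S.ar (g0 • B.D1.gg • S.v) x := by
    have := S.ar_smul g0 _ _ B.D1.ar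
    rwa [g1] at this
  have hu : u1 ∈ S.J (g0 • B.D1.gg • S.v) := by
    rw [← mul_smul]
    apply mem_J_v.2
    rw [mul_smul, B.D1.ggu, g3]
  obtain ⟨k, hk, h1 | h1 | h1⟩ := h _ ha
  · have hku : k • u1 = u1 := by
      rw [h1, ← mul_smul] at hu
      have := mem_J_v.1 hu
      rw [mul_smul, B.D1.ggu] at this
      exact this.symm
    obtain ⟨c, hc, hc'⟩ := (B.form hk).2 hku
    have hcx : c⁻¹ • x = x := by rw [inv_smul_eq_iff, hc.1]
    have hcw : c⁻¹ • S.w = S.w := by rw [inv_smul_eq_iff, hc.2.1]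
    have hcu : c⁻¹ • u1 = u1 := by rw [inv_smul_eq_iff, hc.2.2.1]
    have h2 : ¬ Rev (stabilizer H S.w ⊓ stabilizer H u1) (c⁻¹ * g0) := by
      apply B.D1.nrev
      · rw [mul_smul, g1, hcx]
      · rw [mul_smul, g2, hcw]
      · rw [mul_smul, g3, hcu]
      · rw [mul_smul, h1, hc', inv_smul_smul]
    have h3 := B.D1.rmul c (c⁻¹ * g0) hc.2.1 hc.2.2.1 (by rw [mul_smul, g2, hcw])
      (by rw [mul_smul, g3, hcu]) hc.2.2.2 h2
    rwa [mul_inv_cancel_left] at h3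
  · exfalso
    rw [h1, ← mul_smul] at hu
    have := mem_J_v.1 hu
    rw [mul_smul, B.D2.ggu] at this
    exact (B.form hk).1 this.symm
  · exfalso
    rw [← mul_smul] at h1
    have := mem_J_v.1 h1
    exact S.wu ((g0 * B.D1.gg)⁻¹ * k) (by rw [mul_smul, this, inv_smul_smul])

/-- (I) -/
theorem caseI (h1 : S.w ∈ S.J B.D1.nn) (h12 : Relation.EqvGen (Rl S x S.w) B.D1.nn B.D2.nn)
    {g0 : H} (a1 : g0 • x = x) (a2 : g0 • S.w = S.w) (a3 : g0 • u1 = u1) :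
    ¬ Rev (stabilizer H S.w ⊓ stabilizer H u1) g0 := by
  refine B.no_rev (fun m hm => B.finish (tag := fun n k => k • x = x ∧
    (n = k • B.D1.gg • S.v ∨ n = k • B.D2.gg • S.v ∨ (k • S.w ∈ S.J n ∧
      Relation.EqvGen (Rl S x (k • S.w)) (k • B.D1.nn) n))) ?_ ?_ ?_ hm) a1 a2 a3
  · rintro n k ⟨e, h | h | h⟩
    · exact ⟨e, Or.inl h⟩
    · exact ⟨e, Or.inr (Or.inl h)⟩
    · exact ⟨e, Or.inr (Or.inr h.1)⟩
  · exact ⟨one_smul _ _, Or.inl (by rw [one_smul])⟩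
  · rintro n m k ⟨-, -, c, hc⟩ ⟨hk, h | h | h⟩
    · rw [h] at hc
      obtain ⟨l, l1, l2, rfl⟩ := B.step1 hk hc
      exact ⟨l, ⟨l1, Or.inr (Or.inr ⟨S.J_smul l _ _ h1, Relation.EqvGen.refl _⟩)⟩, l2⟩
    · rw [h] at hc
      obtain ⟨l, l1, l2, rfl⟩ := B.step2 hk hc
      refine ⟨l, ⟨l1, Or.inr (Or.inr ⟨S.J_smul l _ _ ((Rl.mem h12).1 h1), ?_⟩)⟩, l2⟩
      have := Rl.smul l h12
      rwa [l1] at this
    · rcases B.step3 hk hc h.1 h.2 with e | ⟨l, hl, rfl⟩ | ⟨l, l1, l2, l3, rfl, l5⟩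
      · exact ⟨k, ⟨hk, Or.inr (Or.inr e)⟩, by rw [inv_mul_cancel]; exact one_mem _⟩
      · refine ⟨k * l, ⟨by rw [mul_smul, hl.1, hk], Or.inl rfl⟩, ?_⟩
        rw [inv_mul_cancel_left]
        exact B.KK_le hl
      · refine ⟨k * l, ⟨by rw [mul_smul, l1, hk], Or.inr (Or.inl rfl)⟩, ?_⟩
        rw [inv_mul_cancel_left]
        refine B.KK_le ⟨l1, l2, l3, ?_⟩
        refine B.C3 B.D2.nn l (B.arn B.D2.hnn).2 ((Rl.mem h12).1 h1) l1 l2 l3 ?_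
        exact Relation.EqvGen.trans _ _ _ (Relation.EqvGen.symm _ _ h12) l5

/-- (II) -/
theorem caseII (h1 : B.D1.nn = B.D2.gg • S.v) (h2 : B.D2.nn = B.D1.gg • S.v)
    {g0 : H} (a1 : g0 • x = x) (a2 : g0 • S.w = S.w) (a3 : g0 • u1 = u1) :
    ¬ Rev (stabilizer H S.w ⊓ stabilizer H u1) g0 := by
  refine B.no_rev (fun m hm => B.finish (tag := fun n k => k • x = x ∧
    (n = k • B.D1.gg • S.v ∨ n = k • B.D2.gg • S.v)) ?_ ?_ ?_ hm) a1 a2 a3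
  · rintro n k ⟨e, h | h⟩
    · exact ⟨e, Or.inl h⟩
    · exact ⟨e, Or.inr (Or.inl h)⟩
  · exact ⟨one_smul _ _, Or.inl (by rw [one_smul])⟩
  · rintro n m k ⟨-, -, c, hc⟩ ⟨hk, h | h⟩
    · rw [h] at hc
      obtain ⟨l, l1, l2, rfl⟩ := B.step1 hk hc
      exact ⟨l, ⟨l1, Or.inr (by rw [h1])⟩, l2⟩
    · rw [h] at hc
      obtain ⟨l, l1, l2, rfl⟩ := B.step2 hk hc
      exact ⟨l, ⟨l1, Or.inl (by rw [h2])⟩, l2⟩

/-- (III) -/
theorem caseIII (h1 : S.w ∈ S.J B.D1.nn)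
    (h12 : ∀ h : H, h • x = x → h • S.w = S.w → h • u1 = u1 →
      ¬ Relation.EqvGen (Rl S x S.w) B.D1.nn (h • B.D2.nn)) : False := by
  have hlk := S.lk x B.hx ⟨S.w, u1, B.D1.adj, B.D1.mw, B.D1.my⟩ _ _ B.D1.ar B.D2.ar
  have hR : ∀ n m k, LkR S.ar S.Co x n m → (k • x = x ∧
      (n = k • B.D1.gg • S.v ∨ (k • S.w ∈ S.J n ∧
      Relation.EqvGen (Rl S x (k • S.w)) (k • B.D1.nn) n))) → ∃ k', (k' • x = x ∧
      (m = k' • B.D1.gg • S.v ∨ (k' • S.w ∈ S.J m ∧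
      Relation.EqvGen (Rl S x (k' • S.w)) (k' • B.D1.nn) m))) ∧ k⁻¹ * k' ∈ B.SS := by
    rintro n m k ⟨-, -, c, hc⟩ ⟨hk, h | h⟩
    · rw [h] at hc
      obtain ⟨l, l1, l2, rfl⟩ := B.step1 hk hc
      exact ⟨l, ⟨l1, Or.inr ⟨S.J_smul l _ _ h1, Relation.EqvGen.refl _⟩⟩, l2⟩
    · rcases B.step3 hk hc h.1 h.2 with e | ⟨l, hl, rfl⟩ | ⟨l, l1, l2, l3, rfl, l5⟩
      · exact ⟨k, ⟨hk, Or.inr e⟩, by rw [inv_mul_cancel]; exact one_mem _⟩
      · refine ⟨k * l, ⟨by rw [mul_smul, hl.1, hk], Or.inl rfl⟩, ?_⟩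
        rw [inv_mul_cancel_left]
        exact B.KK_le hl
      · exact absurd l5 (h12 l l1 l2 l3)
  obtain ⟨k, ⟨hk, hk'⟩, hk2⟩ := (tag_spread (G := H) (tag := fun n k => k • x = x ∧
      (n = k • B.D1.gg • S.v ∨ (k • S.w ∈ S.J n ∧
      Relation.EqvGen (Rl S x (k • S.w)) (k • B.D1.nn) n))) hR
    (fun n m k h ht => hR m n k (B.co_symm h) ht) hlk).1 1
    ⟨one_smul _ _, Or.inl (by rw [one_smul])⟩
  rw [inv_one, one_mul] at hk2
  have hu : u2 ∈ S.J (B.D2.gg • S.v) := mem_J_v.2 B.D2.ggu.symm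
  rcases hk' with h | h
  · rw [h, ← mul_smul] at hu
    have := mem_J_v.1 hu
    rw [mul_smul, B.D1.ggu] at this
    exact (B.form (B.SS.inv_mem hk2)).1 (by rw [this, inv_smul_smul])
  · have := mem_J_v.1 h.1
    exact S.wu ((B.D2.gg)⁻¹ * k) (by rw [mul_smul, this, inv_smul_smul])

include B in
/-- the conclusion -/
theorem not_rev {g0 : H} (a1 : g0 • x = x) (a2 : g0 • S.w = S.w) (a3 : g0 • u1 = u1) :
    ¬ Rev (stabilizer H S.w ⊓ stabilizer H u1) g0 := by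
  by_cases h1 : S.w ∈ S.J B.D1.nn
  · by_cases h2 : ∃ h : H, h • x = x ∧ h • S.w = S.w ∧ h • u1 = u1 ∧
      Relation.EqvGen (Rl S x S.w) B.D1.nn (h • B.D2.nn)
    · obtain ⟨h, h3, h4, h5, h6⟩ := h2
      obtain ⟨D', -, d2⟩ := B.D2.translate h3 h4 (B.fix12 h h3 h4 h5)
      exact caseI (B := { B with D2 := D' }) h1 (by rw [← d2] at h6; exact h6) a1 a2 a3
    · exact absurd (B.caseIII h1 fun h e1 e2 e3 e4 => h2 ⟨h, e1, e2, e3, e4⟩) id
  · obtain ⟨c1, -, -⟩ := S.H1 _ _ _ _ B.D1.hnn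
    obtain ⟨-, c4, -⟩ := S.H1 _ _ _ _ (S.Cc_symm _ _ _ _ B.D1.hnn)
    rcases c4 with h | ⟨g, hg, hgu⟩
    · exact absurd h h1
    · have hgx : g • S.u ∈ S.J x := by
        obtain ⟨p, hp1, hp2⟩ := one_ex (B.arn B.D1.hnn).2
        rw [hg] at hp1
        rwa [mem_J_v.1 hp1] at hp2
      rcases B.nb _ hgu hgx with e | e
      · exfalso
        have := B.D1.hnn
        rw [hg] at this
        exact B.D1.no_two _ _ _ B.D1.ggu e this
      · obtain ⟨h, e1, e2, e3, e4, e5⟩ := B.D2.t3 g _ e (hg ▸ S.Cc_symm _ _ _ _ B.D1.hnn)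
        obtain ⟨D', d1, d2⟩ := B.D2.translate e1 e2 e3
        exact caseII (B := { B with D2 := D' }) (by
          show B.D1.nn = D'.gg • S.v
          rw [d1, e4, hg]) (by
          show D'.nn = B.D1.gg • S.v
          rw [d2, e5]) a1 a2 a3

end BD

variable {Y : Type} [MulAction ↥(stabilizer H S.w) Y] (L : Slc S Y)

private theorem tv_fix' {y : X} (hy : S.T.Adj S.w y) {g : ↥(stabilizer H S.w)} :
    g • L.tv y hy = L.tv y hy ↔ g.1 • y = y := by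
  rw [L.tv_smul g y hy (Slc.adj_smul' g hy)]
  constructor
  · intro e
    exact L.tv_inj _ _ _ _ e
  · intro e
    congr 1

/-- births -/
theorem not_weak_birth {x : V} (hx : ∀ a, ¬ S.ar x a) (hw : S.w ∈ S.J x) :
    ¬ Weak ↥(stabilizer H S.w) L.ar L.Co (L.nr x hw) := by
  rintro ⟨-, A, B, hAB, hA, hB, k1, ⟨g0, k2, k3, k4⟩, k5⟩
  have hpole : ∀ C, L.ar (L.nr x hw) C → ∃ (y : X) (hy : S.T.Adj S.w y), C = L.tv y hy ∧
      y ∈ S.J x := by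
    intro C hC
    rcases L.cases C with ⟨a, ha, rfl⟩ | ⟨y, hy, rfl⟩
    · exact absurd ((L.ar_nr _ _ _ _).1 hC) (hx a)
    · exact ⟨y, hy, rfl, (L.ar_tv _ _ _ _).1 hC⟩
  obtain ⟨y1, hy1, rfl, m1⟩ := hpole A hA
  obtain ⟨y2, hy2, rfl, m2⟩ := hpole B hB
  have hne : y1 ≠ y2 := by
    rintro rfl
    exact hAB rfl
  obtain ⟨hD, hH, hJ⟩ : DT (stabilizer H x) ∧ Hyp X (stabilizer H x) ∧
      S.J x = mst S.T (stabilizer H x) := by
    rcases S.snk x hx with ⟨p, hp⟩ | h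
    · exfalso
      rw [hp] at m1 hw
      exact hy1.ne (hw.trans m1.symm)
    · exact h
  obtain ⟨u1, u2, z1, z2, b1, b2, b3, b4, b5, b6, b7, b8, b9, b10⟩ := birth_nbrs hD hH hJ hw
  have hPD : ∀ y, S.T.Adj S.w y → y ∈ S.J x → Nonempty (PD S x y) := by
    intro y h1 h2
    rcases b10 y h1 h2 with rfl | rfl
    · exact exists_PD hw b4 b6 b7
    · exact exists_PD hw b5 b8 b9
  have hnb : ∀ y, S.T.Adj S.w y → y ∈ S.J x → y = y1 ∨ y = y2 := by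
    intro y h1 h2
    rcases b10 y h1 h2 with rfl | rfl <;> rcases b10 y1 hy1 m1 with rfl | rfl <;>
      rcases b10 y2 hy2 m2 with rfl | rfl
    all_goals first
      | exact Or.inl rfl
      | exact Or.inr rfl
      | exact absurd rfl hne
  obtain ⟨D1⟩ := hPD y1 hy1 m1
  obtain ⟨D2⟩ := hPD y2 hy2 m2
  have f12 : ∀ g : H, g • x = x → g • S.w = S.w → g • y1 = y1 → g • y2 = y2 := fun g e1 e2 e3 =>
    (birth_fix hD hH hJ (y := S.w) (z := y1) ⟨hy1, hw, m1⟩ e1 e2 e3).1 _ m2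
  have f21 : ∀ g : H, g • x = x → g • S.w = S.w → g • y2 = y2 → g • y1 = y1 := fun g e1 e2 e3 =>
    (birth_fix hD hH hJ (y := S.w) (z := y2) ⟨hy2, hw, m2⟩ e1 e2 e3).1 _ m1
  let B : BD S x y1 y2 :=
    { hx := hx
      D1 := D1
      D2 := D2
      ne12 := hne
      nb := hnb
      fix12 := f12
      fix21 := f21
      C1 := fun g e1 e2 e3 => by
        have h1 := k1 ⟨g, e2⟩ ((Slc.nr_smul_eq L hw).2 e1) ((tv_fix' L hy1).2 e3)
        rwa [neg_tv L hy1 (g := ⟨g, e2⟩) e3, neg_tv L hy2 (g := ⟨g, e2⟩) (f12 g e1 e2 e3)] at h1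
      C3 := fun n g hn hwn e1 e2 e3 h => by
        have h1 := Rl.hol L hw k5 hn hwn e1 e2 ((tv_fix' L hy1).2 e3) h
        rwa [neg_tv L hy1 (g := ⟨g, e2⟩) e3] at h1 }
  have e1 : g0.1 • x = x := (Slc.nr_smul_eq L hw).1 k2
  have e3 : g0.1 • y1 = y1 := (tv_fix' L hy1).1 k3
  exact B.not_rev e1 g0.2 e3 ((neg_tv L hy1 e3).1 k4)

end T5

end Pool.Agent.DI
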