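import Pool.Agent.DI.C5E
import Pool.Agent.DI.C5U
import Pool.Agent.DI.C5X
import Pool.Agent.SAF.AOrb

/-!
# Chapter 5 (thin tail): the number of orbits of weak softs drops
-/

namespace Pool.Agent.DI

open MulAction
open Pool.Agent.SAF (InC orbs oc FinOrb TAct Conv exists_next)
open Pool.Agent.SAG (IO Zt)
open Pool.Agent.BT (bey mst Hyp)

namespace T5

variable {H V X : Type} [Group H] [MulAction H V] [MulAction H X] {S : T5 H V X}
variable {Y : Type} [MulAction ↥(stabilizer H S.w) Y] (L : Slc S Y)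

/-- a weak soft of the slice is a weak soft of `K` over `w`, not in the orbit of `v` -/
theorem weak_of_slice {y : Y} (hy : Weak ↥(stabilizer H S.w) L.ar L.Co y) :
    ∃ (s : V) (h : S.w ∈ S.J s), y = L.nr s h ∧ Weak H S.ar S.Co s := by
  rcases L.cases y with ⟨s, h, rfl⟩ | ⟨x, h, rfl⟩
  · refine ⟨s, h, rfl, ?_⟩
    by_cases hsk : ∀ a, ¬ S.ar s a
    · exact absurd hy (not_weak_birth L hsk h)
    · obtain ⟨a, ha⟩ := not_forall_not.1 hsk
      by_cases hN : ∀ y t1 t2, S.Mid y → t1 ≠ t2 → S.Cs s y t1 → S.Cs s y t2 → False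
      · exact weak_N L h ha hN hy
      · obtain ⟨y, t1, t2, hm, hne, h1, h2⟩ : ∃ y t1 t2, S.Mid y ∧ t1 ≠ t2 ∧ S.Cs s y t1 ∧
            S.Cs s y t2 := by
          by_contra hc
          exact hN (fun y t1 t2 a b c d => hc ⟨y, t1, t2, a, b, c, d⟩)
        by_cases e : S.w = t1
        · subst e
          exact weak_R L h ha hne h1 h2 hy
        · obtain ⟨y', -, c1, c2⟩ := bad_pair ha bad_w (hm.bad h1.1) h h1.2.2 e
          exact weak_R L h ha e c1 c2 hy
  · obtain ⟨-, a, -, -, ha, -⟩ := hy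
    exact absurd ha (L.tv_sink _ _ _)

/-- two softs over `w` in one orbit of `H` are in one orbit of the stabiliser of `w` -/
theorem orb_inj {s a : V} (hs : S.w ∈ S.J s) (ha : S.ar s a) {g : H} (hg : S.w ∈ S.J (g • s)) :
    ∃ k : H, k • S.w = S.w ∧ k • s = g • s := by
  have h1 : g⁻¹ • S.w ∈ S.J s := by
    have := S.J_smul g⁻¹ _ _ hg
    rwa [inv_smul_smul] at this
  by_cases e : S.w = g⁻¹ • S.w
  · exact ⟨g, by rw [smul_eq_iff_eq_inv_smul]; exact e, rfl⟩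
  · obtain ⟨y, hy, c1, c2⟩ := bad_pair ha bad_w (bad_w.smul g⁻¹) hs h1 e
    obtain ⟨-, -, -, r, r1, -, -, r4, -⟩ := reversed hy e c1 c2
    exact ⟨g * r, by rw [mul_smul, r4, smul_inv_smul], by rw [mul_smul, r1]⟩

/-- `nu` drops -/
theorem nu_lt (hF : FinOrb H {s : V | Weak H S.ar S.Co s}) :
    oc ↥(stabilizer H S.w) {y : Y | Weak ↥(stabilizer H S.w) L.ar L.Co y} <
      oc H {s : V | Weak H S.ar S.Co s} := by
  classical
  have hex : ∀ y : Y, ∃ s : V, Weak ↥(stabilizer H S.w) L.ar L.Co y →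
      ∃ h : S.w ∈ S.J s, y = L.nr s h ∧ Weak H S.ar S.Co s := by
    intro y
    by_cases hy : Weak ↥(stabilizer H S.w) L.ar L.Co y
    · obtain ⟨s, h⟩ := weak_of_slice L hy
      exact ⟨s, fun _ => h⟩
    · exact ⟨S.v, fun h => absurd h hy⟩
  choose f hf using hex
  refine SAF.oc_lt_of_inj hF f (fun y hy => (hf y hy).2.2) ?_ (b0 := S.v) weak_v ?_
  · rintro y hy z hz ⟨h, e⟩
    obtain ⟨hw1, e1, hk1⟩ := hf y hy
    obtain ⟨hw2, e2, hk2⟩ := hf z hz
    obtain ⟨-, a, -, -, ha, -⟩ := hk1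
    obtain ⟨k, k1, k2⟩ := orb_inj (g := h) hw1 ha (by rw [e]; exact hw2)
    refine ⟨⟨k, k1⟩, ?_⟩
    have hw3 : S.w ∈ S.J (k • f y) := by rw [k2, e]; exact hw2
    rw [e1, L.nr_smul ⟨k, k1⟩ (f y) hw1 hw3, e2]
    congr 1
    rw [k2, e]
  · intro y hy h e
    obtain ⟨hw1, -, -⟩ := hf y hy
    have h1 := S.J_smul h _ _ hw1
    rw [e, S.Jv] at h1
    exact S.wu h h1

end T5

end Pool.Agent.DI
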