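import Mathlib

/-!
# Chapter 5 (thin tail), the group part

`two_inv`: if `K ≤ N`, `b * b ∈ K`, `r * r ∈ K`, `b`, `r` normalise `K` and no nontrivial alternating
word in `b`, `r` lies in `N`, then the subgroup generated by `K`, `b`, `r` meets `N` in `K`.
-/

namespace Pool.Agent.DI

open Subgroup

section

variable {H : Type} [Group H] {K N : Subgroup H} {b r : H}

private theorem nrm_inv (hb : b * b ∈ K) (hbK : ∀ k ∈ K, b * k * b⁻¹ ∈ K) {k : H} (hk : k ∈ K) :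
    b⁻¹ * k * b ∈ K := by
  have h := K.mul_mem (K.mul_mem (K.inv_mem hb) (hbK k hk)) hb
  have e : (b * b)⁻¹ * (b * k * b⁻¹) * (b * b) = b⁻¹ * k * b := by group
  rwa [e] at h

/-- the normal form -/
theorem two_inv_form (hb : b * b ∈ K) (hr : r * r ∈ K) (hbK : ∀ k ∈ K, b * k * b⁻¹ ∈ K)
    (hrK : ∀ k ∈ K, r * k * r⁻¹ ∈ K) {g : H} (hg : g ∈ closure ((K : Set H) ∪ {b, r})) :
    ∃ (k : ℤ) (c : H), c ∈ K ∧ (g = (b * r) ^ k * c ∨ g = (b * r) ^ k * b * c) := by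
  have stepb : ∀ g : H, (∃ (k : ℤ) (c : H), c ∈ K ∧ (g = (b * r) ^ k * c ∨
      g = (b * r) ^ k * b * c)) → ∃ (k : ℤ) (c : H), c ∈ K ∧ (g * b = (b * r) ^ k * c ∨
      g * b = (b * r) ^ k * b * c) := by
    rintro _ ⟨k, c, hc, rfl | rfl⟩
    · refine ⟨k, b⁻¹ * c * b, nrm_inv hb hbK hc, Or.inr ?_⟩
      group
    · refine ⟨k, (b * b) * (b⁻¹ * c * b), K.mul_mem hb (nrm_inv hb hbK hc), Or.inl ?_⟩
      group
  have stepr : ∀ g : H, (∃ (k : ℤ) (c : H), c ∈ K ∧ (g = (b * r) ^ k * c ∨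
      g = (b * r) ^ k * b * c)) → ∃ (k : ℤ) (c : H), c ∈ K ∧ (g * r = (b * r) ^ k * c ∨
      g * r = (b * r) ^ k * b * c) := by
    rintro _ ⟨k, c, hc, rfl | rfl⟩
    · refine ⟨k - 1, (r * r) * (r⁻¹ * c * r), K.mul_mem hr (nrm_inv hr hrK hc), Or.inr ?_⟩
      rw [zpow_sub_one]
      group
    · refine ⟨k + 1, r⁻¹ * c * r, nrm_inv hr hrK hc, Or.inl ?_⟩
      rw [zpow_add_one]
      group
  have stepK : ∀ g : H, ∀ x ∈ K, (∃ (k : ℤ) (c : H), c ∈ K ∧ (g = (b * r) ^ k * c ∨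
      g = (b * r) ^ k * b * c)) → ∃ (k : ℤ) (c : H), c ∈ K ∧ (g * x = (b * r) ^ k * c ∨
      g * x = (b * r) ^ k * b * c) := by
    rintro _ x hx ⟨k, c, hc, rfl | rfl⟩
    · exact ⟨k, c * x, K.mul_mem hc hx, Or.inl (by rw [mul_assoc])⟩
    · exact ⟨k, c * x, K.mul_mem hc hx, Or.inr (by rw [mul_assoc])⟩
  induction hg using closure_induction_right with
  | one => exact ⟨0, 1, K.one_mem, Or.inl (by simp)⟩
  | mul_right x hx y hy ih =>
    rcases hy with hy | hy | hy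
    · exact stepK x y hy ih
    · rw [hy]; exact stepb x ih
    · rw [Set.mem_singleton_iff.1 hy]; exact stepr x ih
  | mul_inv_cancel x hx y hy ih =>
    rcases hy with hy | hy | hy
    · exact stepK x _ (K.inv_mem hy) ih
    · rw [hy]
      have e : x * b⁻¹ = x * b * (b * b)⁻¹ := by group
      rw [e]
      exact stepK _ _ (K.inv_mem hb) (stepb x ih)
    · rw [Set.mem_singleton_iff.1 hy]
      have e : x * r⁻¹ = x * r * (r * r)⁻¹ := by group
      rw [e]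
      exact stepK _ _ (K.inv_mem hr) (stepr x ih)

/-- the subgroup generated by `K` and two elements meets `N` in `K` -/
theorem two_inv (hb : b * b ∈ K) (hr : r * r ∈ K) (hbK : ∀ k ∈ K, b * k * b⁻¹ ∈ K)
    (hrK : ∀ k ∈ K, r * k * r⁻¹ ∈ K) (hKN : K ≤ N)
    (h1 : ∀ k : ℤ, (b * r) ^ k ∈ N → k = 0) (h2 : ∀ k : ℤ, (b * r) ^ k * b ∉ N)
    {g : H} (hg : g ∈ closure ((K : Set H) ∪ {b, r})) (hn : g ∈ N) : g ∈ K := by
  obtain ⟨k, c, hc, rfl | rfl⟩ := two_inv_form hb hr hbK hrK hg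
  · have h : (b * r) ^ k ∈ N := by
      have := N.mul_mem hn (N.inv_mem (hKN hc))
      rwa [mul_inv_cancel_right] at this
    rw [h1 k h, zpow_zero, one_mul]
    exact hc
  · exfalso
    apply h2 k
    have := N.mul_mem hn (N.inv_mem (hKN hc))
    rwa [mul_inv_cancel_right] at this

/-- one element -/
theorem one_inv (hb : b * b ∈ K) (hbK : ∀ k ∈ K, b * k * b⁻¹ ∈ K) (hKN : K ≤ N) (h2 : b ∉ N)
    {g : H} (hg : g ∈ closure ((K : Set H) ∪ {b})) (hn : g ∈ N) : g ∈ K := by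
  have hg' : g ∈ closure ((K : Set H) ∪ {b, b}) := by
    rwa [Set.pair_eq_singleton]
  obtain ⟨k, c, hc, h⟩ := two_inv_form hb hb hbK hbK hg'
  have hk : (b * b) ^ k ∈ K := K.zpow_mem hb k
  rcases h with rfl | rfl
  · exact K.mul_mem hk hc
  · exfalso
    apply h2
    have h3 := N.mul_mem hn (N.inv_mem (hKN hc))
    rw [mul_inv_cancel_right] at h3
    have h4 := N.mul_mem (N.inv_mem (hKN hk)) h3
    rwa [inv_mul_cancel_left] at h4

end

/-! ### graphs with few orbits of edges -/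

section

variable {G Ω : Type} [Group G] [MulAction G Ω]

/-- nodes with tags: `tag n k` is invariant, adjacent nodes have tags which differ by an element of
`S`, and two tags of one node differ by an element of `S` -/
theorem tag_spread {R : Ω → Ω → Prop} {tag : Ω → G → Prop} {S : Subgroup G}
    (hR : ∀ n m k, R n m → tag n k → ∃ k', tag m k' ∧ k⁻¹ * k' ∈ S)
    (hR' : ∀ n m k, R n m → tag m k → ∃ k', tag n k' ∧ k⁻¹ * k' ∈ S)
    {n m : Ω} (h : Relation.EqvGen R n m) :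
    (∀ k, tag n k → ∃ k', tag m k' ∧ k⁻¹ * k' ∈ S) ∧
      (∀ k, tag m k → ∃ k', tag n k' ∧ k⁻¹ * k' ∈ S) := by
  induction h with
  | rel x y h => exact ⟨fun k hk => hR x y k h hk, fun k hk => hR' x y k h hk⟩
  | refl x =>
    exact ⟨fun k hk => ⟨k, hk, by rw [inv_mul_cancel]; exact S.one_mem⟩,
      fun k hk => ⟨k, hk, by rw [inv_mul_cancel]; exact S.one_mem⟩⟩
  | symm x y _ ih => exact ⟨ih.2, ih.1⟩
  | trans x y z _ _ ih1 ih2 =>
    constructor
    · intro k hk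
      obtain ⟨k1, h1, e1⟩ := ih1.1 k hk
      obtain ⟨k2, h2, e2⟩ := ih2.1 k1 h1
      refine ⟨k2, h2, ?_⟩
      have := S.mul_mem e1 e2
      rwa [mul_assoc, mul_inv_cancel_left] at this
    · intro k hk
      obtain ⟨k1, h1, e1⟩ := ih2.2 k hk
      obtain ⟨k2, h2, e2⟩ := ih1.2 k1 h1
      refine ⟨k2, h2, ?_⟩
      have := S.mul_mem e1 e2
      rwa [mul_assoc, mul_inv_cancel_left] at this

/-- the holonomy of a connected set of tagged nodes lies in `S` -/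
theorem tag_hol {R : Ω → Ω → Prop} {tag : Ω → G → Prop} {S : Subgroup G}
    (hR : ∀ n m k, R n m → tag n k → ∃ k', tag m k' ∧ k⁻¹ * k' ∈ S)
    (hR' : ∀ n m k, R n m → tag m k → ∃ k', tag n k' ∧ k⁻¹ * k' ∈ S)
    (hs : ∀ (g : G) n k, tag n k → tag (g • n) (g * k))
    (hu : ∀ n k k', tag n k → tag n k' → k⁻¹ * k' ∈ S)
    {n : Ω} {g k : G} (h : Relation.EqvGen R n (g • n)) (hk : tag n k) : k⁻¹ * g * k ∈ S := by
  obtain ⟨k', h1, h2⟩ := (tag_spread hR hR' h).1 k hk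
  have h3 := hu _ _ _ h1 (hs g n k hk)
  have := S.mul_mem h2 h3
  have e : k⁻¹ * k' * (k'⁻¹ * (g * k)) = k⁻¹ * g * k := by group
  rwa [e] at this

end

end Pool.Agent.DI
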