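import Pool.Agent.DI.C5PT

/-!
# Chapter 5 (thin tail), characters: a character which is trivial on the kernels and pieces of the
slice is trivial on the kernels and pieces of `K`
-/

namespace Pool.Agent.DI

open MulAction
open Pool.Agent.SAF (InC orbs FinOrb TAct Conv exists_next)
open Pool.Agent.SAG (IO Zt)
open Pool.Agent.BT (bey mst Hyp)

section sub

variable {H : Type} [Group H] {K0 : Subgroup H} {M : Subgroup ↥K0} {M' : Subgroup H}

/-- a subgroup of a subgroup -/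
def subEquiv (h : ∀ g : H, g ∈ M' ↔ ∃ hg : g ∈ K0, (⟨g, hg⟩ : ↥K0) ∈ M) : ↥M ≃* ↥M' where
  toFun m := ⟨m.1.1, (h _).2 ⟨m.1.2, m.2⟩⟩
  invFun x := ⟨⟨x.1, ((h x.1).1 x.2).1⟩, ((h x.1).1 x.2).2⟩
  left_inv _ := rfl
  right_inv _ := rfl
  map_mul' _ _ := rfl

theorem dt_sub (h : ∀ g : H, g ∈ M' ↔ ∃ hg : g ∈ K0, (⟨g, hg⟩ : ↥K0) ∈ M) (hd : DT M') :
    DT M := by
  obtain ⟨h1, h2, h3⟩ := hd
  refine ⟨SAF.InC.iso (subEquiv h).symm h1, (subEquiv h).toEquiv.infinite_iff.2 h2, fun hz => h3 ?_⟩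
  exact SAG.Zt.of_inj (subEquiv h).symm.toMonoidHom (subEquiv h).symm.injective hz

theorem nnn_sub (h : ∀ g : H, g ∈ M' ↔ ∃ hg : g ∈ K0, (⟨g, hg⟩ : ↥K0) ∈ M) {g : ↥K0}
    (hg : NNn M' g.1) : NNn M g := by
  obtain ⟨h1, h2, h3⟩ := hg
  refine ⟨((h g.1).1 h1).2, fun hr => h2 ?_, fun hi => h3 (io_coe.2 hi)⟩
  obtain ⟨-, a, ha, hio, e⟩ := hr
  exact ⟨h1, a.1, (h _).2 ⟨a.2, ha⟩, io_coe.2 hio, congrArg Subtype.val e⟩

theorem NNn.conj {V : Type} [MulAction H V] {y : V} {g : H} (h : NNn (stabilizer H y) g) (k : H) :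
    NNn (stabilizer H (k • y)) (k * g * k⁻¹) := by
  obtain ⟨h1, h2, h3⟩ := h
  refine ⟨?_, fun hr => h2 ?_, fun hi => h3 ?_⟩
  · show (k * g * k⁻¹) • k • y = k • y
    rw [mul_smul, mul_smul, inv_smul_smul, show g • y = y from h1]
  · have := hr.conj k⁻¹ (J' := stabilizer H y) (fun x hx => by
      show (k⁻¹ * x * k⁻¹⁻¹) • y = y
      rw [inv_inv, mul_smul, mul_smul, show x • k • y = k • y from hx, inv_smul_smul])
    have e : k⁻¹ * (k * g * k⁻¹) * k⁻¹⁻¹ = g := by group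
    rwa [e] at this
  · have := hi.conj k⁻¹
    have e : k⁻¹ * (k * g * k⁻¹) * k⁻¹⁻¹ = g := by group
    rwa [e] at this

theorem DT.smul {V : Type} [MulAction H V] {y : V} (h : DT (stabilizer H y)) (k : H) :
    DT (stabilizer H (k • y)) := by
  obtain ⟨h1, h2, h3⟩ := h
  have e := stabilizerEquivStabilizer (g := k) (a := y) rfl
  exact ⟨SAF.InC.iso e h1, e.toEquiv.infinite_iff.1 h2, fun hz => h3
    (SAG.Zt.of_inj e.toMonoidHom e.injective hz)⟩

end sub

namespace T5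

variable {H V X A : Type} [Group H] [MulAction H V] [MulAction H X] [CommGroup A] {S : T5 H V X}

theorem phi_conj (phi : H →* A) (k g : H) : phi (k * g * k⁻¹) = phi g := by
  rw [map_mul, map_mul, map_inv, mul_comm (phi k), mul_assoc, mul_inv_cancel, mul_one]

theorem phi_conj' (phi : H →* A) (k g : H) : phi (k⁻¹ * g * k) = phi g := by
  have := phi_conj phi k⁻¹ g
  rwa [inv_inv] at this

variable {Y : Type} [MulAction ↥(stabilizer H S.w) Y] (L : Slc S Y)

/-- corners of the slice at the new vertices: in the cells with centre `w` the lost softs are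
replaced by new vertices -/
structure STv (L : Slc S Y) : Prop where
  co1 : ∀ (g : H) (s m : V) (h : S.T.Adj S.w (g • S.u)) h2 h3, S.Cc S.w (g • S.v) s m →
    L.Co (L.tv (g • S.u) h) (L.nr s h2) (L.nr m h3)
  co2 : ∀ (n : V) (g : H) (m : V) h1 (h : S.T.Adj S.w (g • S.u)) h3, S.Cc S.w n (g • S.v) m →
    L.Co (L.nr n h1) (L.tv (g • S.u) h) (L.nr m h3)
  symm : ∀ a b c, L.Co a b c → L.Co c b a

theorem tv_fix2 {y : X} (hy : S.T.Adj S.w y) {g : ↥(stabilizer H S.w)} :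
    g • L.tv y hy = L.tv y hy ↔ g.1 • y = y := by
  rw [L.tv_smul g y hy (Slc.adj_smul' g hy)]
  constructor
  · intro e
    exact L.tv_inj _ _ _ _ e
  · intro e
    congr 1

/-- elements which fix `v`, a pole and `w` -/
theorem av_nnn {g : H} (hv : g • S.v = S.v) (hz : g • S.z1 = S.z1) (hw : g • S.w = S.w) :
    NNn S.JJ g := by
  have hu : g • S.u = S.u := by
    have h : g • S.u ∈ S.J (g • S.v) := mem_J_v.2 rfl
    rw [hv, S.Jv] at h
    exact h
  refine ⟨mem_JJ.2 ⟨hw, hu⟩, not_rev (mem_JJ.2 ⟨hw, hu⟩) hv hz, fun hi => ?_⟩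
  have hf : Finite ↥(stabilizer H S.v) := S.vfin
  obtain ⟨n, hn, e⟩ := isOfFinOrder_iff_pow_eq_one.1
    (isOfFinOrder_of_finite (⟨g, hv⟩ : ↥(stabilizer H S.v)))
  exact hi n hn (congrArg Subtype.val e)

variable {phi : H →* A}

/-- the character is trivial on the kernel of the edge group -/
theorem phi_JJ (ht : ∃ n m, L.Co n (L.tv S.u S.adj) m)
    (hP : P2 ↥(stabilizer H S.w) L.ar L.Co (phi.comp (stabilizer H S.w).subtype)) {g : H}
    (hg : NNn S.JJ g) : phi g = 1 := by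
  have hJ : ∀ x : H, x ∈ S.JJ ↔ ∃ hx : x ∈ stabilizer H S.w,
      (⟨x, hx⟩ : ↥(stabilizer H S.w)) ∈ stabilizer ↥(stabilizer H S.w) (L.tv S.u S.adj) := by
    intro x
    rw [mem_JJ]
    constructor
    · rintro ⟨h1, h2⟩
      exact ⟨h1, (tv_fix2 L S.adj).2 h2⟩
    · rintro ⟨h1, h2⟩
      exact ⟨h1, (tv_fix2 L S.adj).1 h2⟩
  have hw : g • S.w = S.w := (mem_JJ.1 hg.1).1
  exact hP.snk (L.tv S.u S.adj) (L.tv_sink _ _) (dt_sub hJ S.J_dt) ht ⟨g, hw⟩
    (nnn_sub hJ (g := ⟨g, hw⟩) hg)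

/-- sinks -/
theorem p2_sink (T : STv L) (ht : ∃ n m, L.Co n (L.tv S.u S.adj) m)
    (hP : P2 ↥(stabilizer H S.w) L.ar L.Co (phi.comp (stabilizer H S.w).subtype)) {y : V}
    (hy : ∀ a, ¬ S.ar y a) (hd : DT (stabilizer H y)) (hw : S.w ∈ S.J y)
    {n m : V} (hco : S.Cc S.w n y m) {g : H} (hg : NNn (stabilizer H y) g) : phi g = 1 := by
  have hgy : g • y = y := hg.1
  by_cases hn : ∃ x, S.T.Adj S.w x ∧ x ∈ S.J y
  · -- broken
    obtain ⟨x, hx, hxy⟩ := hn
    obtain ⟨hD, hH, hJ⟩ : DT (stabilizer H y) ∧ Hyp X (stabilizer H y) ∧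
        S.J y = mst S.T (stabilizer H y) := by
      rcases S.snk y hy with ⟨p, hp⟩ | h
      · exfalso
        rw [hp] at hxy hw
        exact hx.ne (hw.trans hxy.symm)
      · exact h
    obtain ⟨u1, u2, z1, z2, b1, b2, b3, b4, b5, b6, b7, b8, b9, b10⟩ := birth_nbrs hD hH hJ hw
    obtain ⟨D1⟩ := exists_PD hw b4 b6 b7
    obtain ⟨D2⟩ := exists_PD hw b5 b8 b9
    have f12 : ∀ g : H, g • y = y → g • S.w = S.w → g • u1 = u1 → g • u2 = u2 :=
      fun g e1 e2 e3 => (birth_fix hD hH hJ (y := S.w) (z := u1) ⟨b4.1.symm, hw, b4.2.1⟩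
        e1 e2 e3).1 _ b5.2.1
    have f21 : ∀ g : H, g • y = y → g • S.w = S.w → g • u2 = u2 → g • u1 = u1 :=
      fun g e1 e2 e3 => (birth_fix hD hH hJ (y := S.w) (z := u2) ⟨b5.1.symm, hw, b5.2.1⟩
        e1 e2 e3).1 _ b4.2.1
    have hA : ∀ g : H, g • S.v = S.v → g • S.z1 = S.z1 → g • S.w = S.w → phi g = 1 :=
      fun g e1 e2 e3 => phi_JJ L ht hP (av_nnn e1 e2 e3)
    let B : BP S y u1 u2 phi :=
      { hx := hy
        D1 := D1
        D2 := D2
        ne12 := b1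
        nb := b10
        fix12 := f12
        fix21 := f21
        A1 := fun g e1 e2 e3 e4 => phi_lost hA D1.ar e1 e4 (by rw [D1.ggu]; exact D1.adj.symm) e2
        A2 := fun g e1 e2 e3 e4 => phi_lost hA D2.ar e1 e4 (by rw [D2.ggu]; exact D2.adj.symm) e2
        C3 := fun n g hn hv hwn e1 e2 e3 h => by
          obtain ⟨m', hm'⟩ := hv
          -- the node is visible in the slice
          have hvis : ∃ M, L.Co (L.nr n hwn) (L.nr y hw) M := by
            obtain ⟨c1, c2, -⟩ := S.H1 _ _ _ _ (S.Cc_symm _ _ _ _ hm')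
            rcases c2 with c2 | ⟨k, rfl, c2⟩
            · exact ⟨_, L.Co_of _ _ _ hwn hw c2 hm'⟩
            · exact ⟨_, T.symm _ _ _ (T.co1 k y n c2 hw hwn (S.Cc_symm _ _ _ _ hm'))⟩
          have hpole : ∀ C, L.ar (L.nr y hw) C → (⟨g, e2⟩ : ↥(stabilizer H S.w)) • C = C := by
            intro C hC
            rcases L.cases C with ⟨a, ha, rfl⟩ | ⟨z, hz, rfl⟩
            · exact absurd ((L.ar_nr _ _ _ _).1 hC) (hy a)
            · rw [tv_fix2]
              rcases b10 z hz ((L.ar_tv _ _ _ _).1 hC) with rfl | rfl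
              · exact e3
              · exact f12 g e1 e2 e3
          refine hP.soft (L.nr y hw) (L.nr n hwn) ⟨g, e2⟩ ⟨_, (L.ar_tv y u1 hw b4.1.symm).2 b4.2.1⟩
            ((L.ar_nr _ _ _ _).2 hn) hvis ((Slc.nr_smul_eq L hw).2 e1) hpole ?_
          rw [L.nr_smul _ n hwn (Slc.w_mem_smul _ hwn)]
          rcases Rl.lk L hw h with e | ⟨h1, h2, h3⟩
          · have h5 : L.nr (g • n) (Slc.w_mem_smul (⟨g, e2⟩ : ↥(stabilizer H S.w)) hwn) =
                L.nr n hwn := by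
              congr 1
              exact e.symm
            have h4 : LkC L.ar L.Co (L.nr y hw) (L.nr n hwn) (L.nr n hwn) :=
              Relation.EqvGen.refl _
            conv at h4 => rhs; rw [← h5]
            exact h4
          · exact h3 }
    -- `g` fixes the axis
    have hN : (⟨g, hgy⟩ : ↥(stabilizer H y)) ∈ hD.dl.N := by
      have h1 : hD.dl.ε ⟨g, hgy⟩ = 1 := (hD.dl.ε_cases _).resolve_right fun h =>
        hg.2.1 ((rev_iff hD.dl hgy).2 h)
      refine ⟨h1, ?_⟩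
      by_contra h2
      exact hg.2.2 (io_coe.2 (hD.dl.io_of h1 h2) : IO ((⟨g, hgy⟩ : ↥(stabilizer H y)) : H))
    obtain ⟨a, mm, hL⟩ := exists_line hD.dl S.act hD.1 hH
    exact B.phi_one hgy (hL.fixN _ hN _ (hJ ▸ hw)) (hL.fixN _ hN _ (hJ ▸ b4.2.1))
  · -- not broken
    have h1 : S.J y = {S.w} := by
      ext p
      rw [Set.mem_singleton_iff]
      constructor
      · intro hp
        by_contra hne
        obtain ⟨c, hc, hd⟩ := exists_next S.act.tree (Ne.symm hne)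
        refine hn ⟨c, hc, S.J_conv y _ hw _ hp c ?_⟩
        have : S.T.dist S.w c = 1 := SimpleGraph.dist_eq_one_iff_adj.2 hc
        omega
      · rintro rfl
        exact hw
    have hfw : ∀ k : H, k • y = y → k • S.w = S.w := by
      intro k hk
      have h2 := S.J_smul k _ _ hw
      rw [hk, h1] at h2
      exact h2
    have hS : ∀ x : H, x ∈ stabilizer H y ↔ ∃ hx : x ∈ stabilizer H S.w,
        (⟨x, hx⟩ : ↥(stabilizer H S.w)) ∈ stabilizer ↥(stabilizer H S.w) (L.nr y hw) := by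
      intro x
      constructor
      · intro h
        exact ⟨hfw x h, (Slc.nr_smul_eq L hw).2 h⟩
      · rintro ⟨h2, h3⟩
        exact (Slc.nr_smul_eq L hw).1 h3
    -- nodes of corners at `y` are over `w`
    have hover : ∀ n m, S.Cc S.w n y m → S.w ∈ S.J n := by
      intro n m hco
      obtain ⟨-, c2, -⟩ := S.H1 _ _ _ _ hco
      rcases c2 with c2 | ⟨k, rfl, c2⟩
      · exact c2
      · exfalso
        have har := (S.Cc_E _ _ _ _ hco).resolve_right (hy _)
        obtain ⟨p, hp1, hp2⟩ := one_ex har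
        rw [h1, Set.mem_singleton_iff] at hp2
        rw [hp2] at hp1
        exact not_both bad_w ⟨k, (mem_J_v.1 hp1).symm⟩
    have hnw := hover n m hco
    have hmw := hover m n (S.Cc_symm _ _ _ _ hco)
    have hsink : ∀ B, ¬ L.ar (L.nr y hw) B := by
      intro B hB
      rcases L.cases B with ⟨a, ha, rfl⟩ | ⟨z, hz, rfl⟩
      · exact hy a ((L.ar_nr _ _ _ _).1 hB)
      · have := (L.ar_tv _ _ _ _).1 hB
        exact hn ⟨z, hz, this⟩
    exact hP.snk (L.nr y hw) hsink (dt_sub hS hd) ⟨_, _, L.Co_of _ _ _ hnw hw hmw hco⟩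
      ⟨g, hfw g hgy⟩ (nnn_sub hS (g := ⟨g, hfw g hgy⟩) hg)

end T5

end Pool.Agent.DI
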