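import Pool.Agent.DI.C5PC

/-!
# Chapter 5 (thin tail), characters: softs, and the final statement
-/

namespace Pool.Agent.DI

open MulAction
open Pool.Agent.SAF (InC orbs FinOrb TAct Conv exists_next)
open Pool.Agent.SAG (IO Zt)
open Pool.Agent.BT (bey mst Hyp)

namespace T5

variable {H V X A : Type} [Group H] [MulAction H V] [MulAction H X] [CommGroup A] {S : T5 H V X}
variable {Y : Type} [MulAction ↥(stabilizer H S.w) Y] (L : Slc S Y)
variable {phi : H →* A}

/-- the poles of a lost soft cross both edges -/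
private theorem pole_cs' {z : V} (hz : S.ar S.v z) : S.Cs z S.u S.w ∧ S.Cs z S.u S.w' := by
  have hcase : z = S.z1 ∨ z = S.z2 := by
    rcases S.two _ _ _ _ S.az1 S.az2 hz with h | h | h
    · exact absurd h S.zne
    · exact Or.inr h.symm
    · exact Or.inl h.symm
  have hu : S.u ∈ S.J z := by
    obtain ⟨p, hp1, hp2⟩ := one_ex hz
    rw [S.Jv, Set.mem_singleton_iff] at hp1
    rwa [hp1] at hp2
  have hw : S.w ∈ S.J z := by
    rcases hcase with rfl | rfl
    · exact S.wz1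
    · exact S.wz2
  have hb : S.b • z = z := by
    rcases hcase with rfl | rfl
    · exact S.bz1
    · exact b_z2
  have hw' : S.w' ∈ S.J z := by
    have := S.J_smul S.b _ _ hw
    rwa [hb, S.bw] at this
  exact ⟨⟨S.adj.symm, hu, hw⟩, ⟨adj'.symm, hu, hw'⟩⟩

private theorem bey_disj' {y t1 t2 : X} (h1 : S.T.Adj y t1) (h2 : S.T.Adj y t2) (hne : t1 ≠ t2)
    {p : X} (hp1 : p ∈ bey S.T y t1) (hp2 : p ∈ bey S.T y t2) : False := by
  have e1 : S.T.dist p y = S.T.dist p t1 + 1 := hp1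
  have e2 : S.T.dist p y = S.T.dist p t2 + 1 := hp2
  refine hne (next_unique S.act.tree (b := p) h1 h2 ?_ ?_)
  · rw [SimpleGraph.dist_comm, e1, SimpleGraph.dist_comm]
  · rw [SimpleGraph.dist_comm, e2, SimpleGraph.dist_comm]

/-- a neighbour of `w` in `J s` is fixed by the elements which fix `s`, `w` and the poles -/
private theorem fix_nb {s a : V} (hs : S.w ∈ S.J s) (ha : S.ar s a) {x : X} (hx : S.T.Adj S.w x)
    (hxs : x ∈ S.J s) {g : H} (hgw : g • S.w = S.w)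
    (hp : ∀ a, S.ar s a → g • a = a) : g • x = x := by
  obtain ⟨b, hb, hbJ⟩ := S.cross s ⟨a, ha⟩ S.w x hx hs hxs
  by_contra hne
  have hadj : S.T.Adj S.w (g • x) := by
    have := S.act.adj_smul g _ _ hx
    rwa [hgw] at this
  obtain ⟨p, hpb⟩ := S.J_ne b
  have h1 : S.T.dist p S.w = S.T.dist p x + 1 := hbJ hpb
  have h2 : g • p ∈ S.J b := by
    have := S.J_smul g _ _ hpb
    rwa [hp b hb] at this
  have h3 : S.T.dist (g • p) S.w = S.T.dist (g • p) x + 1 := hbJ h2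
  have h4 : S.T.dist (g • p) S.w = S.T.dist (g • p) (g • x) + 1 := by
    have e1 : S.T.dist (g • p) (g • S.w) = S.T.dist p S.w := S.act.dist_smul _ _ _
    have e2 : S.T.dist (g • p) (g • x) = S.T.dist p x := S.act.dist_smul _ _ _
    rw [hgw] at e1
    omega
  exact bey_disj' hx hadj (fun e => hne e.symm) (p := g • p) h3 h4

/-- a corner with centre `w` is visible in the slice -/
theorem vis_slice (T : STv L) {n s m : V} (hs : S.w ∈ S.J s) (hn : S.w ∈ S.J n)
    (hc : S.Cc S.w n s m) : ∃ M, L.Co (L.nr n hn) (L.nr s hs) M := by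
  obtain ⟨-, c2, -⟩ := S.H1 _ _ _ _ (S.Cc_symm _ _ _ _ hc)
  rcases c2 with c2 | ⟨k, rfl, c2⟩
  · exact ⟨_, L.Co_of _ _ _ hn hs c2 hc⟩
  · exact ⟨_, T.symm _ _ _ (T.co1 k s n c2 hs hn (S.Cc_symm _ _ _ _ hc))⟩

/-- softs over `w` which have no midpoint in the interior -/
theorem p2_softN (T : STv L)
    (hP : P2 ↥(stabilizer H S.w) L.ar L.Co (phi.comp (stabilizer H S.w).subtype)) {s a : V}
    (hs : S.w ∈ S.J s) (ha : S.ar s a)
    (hN : ∀ y t1 t2, S.Mid y → t1 ≠ t2 → S.Cs s y t1 → S.Cs s y t2 → False) {n m : V}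
    (hn : S.ar n s) (hco : S.Co n s m) {g : H} (hg : g • s = s) (hp : ∀ a, S.ar s a → g • a = a)
    (hl : LkC S.ar S.Co s n (g • n)) : phi g = 1 := by
  have huniq : ∀ c, S.Bad c → c ∈ S.J s → c = S.w := by
    intro c hc hcs
    by_contra hne
    obtain ⟨y, hy, c1, c2⟩ := bad_pair ha hc bad_w hcs hs hne
    exact hN y c S.w hy hne c1 c2
  have hfix : ∀ g : H, g • s = s → g • S.w = S.w := by
    intro g hg
    refine huniq _ (bad_w.smul g) ?_
    have := S.J_smul g _ _ hs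
    rwa [hg] at this
  have hnot : ∀ g : H, s ≠ g • S.v := by
    rintro g rfl
    exact not_both bad_w ⟨g, (mem_J_v.1 hs).symm⟩
  have hcor : ∀ c n m, S.ar n s → S.Cc c n s m → c = S.w ∧ S.w ∈ S.J n := by
    intro c n m hn hc
    obtain ⟨h1, h2, h3⟩ := S.H1 _ _ _ _ hc
    have hcs : c = S.w := by
      rcases h3 with h3 | ⟨g, h3, -⟩
      · exact huniq c h1 h3
      · exact absurd h3 (hnot g)
    refine ⟨hcs, ?_⟩
    rcases h2 with h2 | ⟨g, rfl, h2⟩
    · rwa [← hcs]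
    · exfalso
      have hz : S.ar S.v (g⁻¹ • s) := by
        have := S.ar_smul g⁻¹ _ _ hn
        rwa [inv_smul_smul] at this
      have tr : ∀ t, S.Cs (g⁻¹ • s) S.u t → S.Cs s (g • S.u) (g • t) := by
        intro t ht
        have e1 := S.act.adj_smul g _ _ ht.1
        have e2 := S.J_smul g _ _ ht.2.1
        have e3 := S.J_smul g _ _ ht.2.2
        rw [smul_inv_smul] at e2 e3
        exact ⟨e1, e2, e3⟩
      exact hN (g • S.u) (g • S.w) (g • S.w') (mid_u.smul g)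
        (fun e => S.ne (smul_left_cancel _ e)) (tr _ (pole_cs' hz).1) (tr _ (pole_cs' hz).2)
  have htr : ∀ n m, LkC S.ar S.Co s n m → n = m ∨ ∃ hn hm,
      LkC L.ar L.Co (L.nr s hs) (L.nr n hn) (L.nr m hm) := by
    intro n m h
    induction h with
    | rel x y h =>
      obtain ⟨h1, h2, c, h3⟩ := h
      obtain ⟨rfl, hx⟩ := hcor c x y h1 h3
      obtain ⟨-, hy⟩ := hcor S.w y x h2 (S.Cc_symm _ _ _ _ h3)
      exact Or.inr ⟨hx, hy, Relation.EqvGen.rel _ _ ⟨(L.ar_nr _ _ _ _).2 h1,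
        (L.ar_nr _ _ _ _).2 h2, L.Co_of _ _ _ _ _ _ h3⟩⟩
    | refl x => exact Or.inl rfl
    | symm x y _ ih =>
      rcases ih with rfl | ⟨h1, h2, h3⟩
      · exact Or.inl rfl
      · exact Or.inr ⟨h2, h1, Relation.EqvGen.symm _ _ h3⟩
    | trans x y z _ _ ih1 ih2 =>
      rcases ih1 with rfl | ⟨h1, h2, h3⟩
      · exact ih2
      rcases ih2 with rfl | ⟨h1', h2', h3'⟩
      · exact Or.inr ⟨h1, h2, h3⟩
      · exact Or.inr ⟨h1, h2', Relation.EqvGen.trans _ _ _ h3 h3'⟩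
  obtain ⟨c, hc⟩ := hco
  obtain ⟨rfl, hnw⟩ := hcor c n m hn hc
  have hgw := hfix g hg
  have hvis := vis_slice L T hs hnw hc
  have hpole : ∀ C, L.ar (L.nr s hs) C → (⟨g, hgw⟩ : ↥(stabilizer H S.w)) • C = C := by
    intro C hC
    rcases L.cases C with ⟨b, hb, rfl⟩ | ⟨z, hz, rfl⟩
    · exact (Slc.nr_smul_eq L hb).2 (hp b ((L.ar_nr _ _ _ _).1 hC))
    · rw [tv_fix2]
      exact fix_nb hs ha hz ((L.ar_tv _ _ _ _).1 hC) hgw hp
  have hout : ∃ B, L.ar (L.nr s hs) B := by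
    obtain ⟨q, hq1, hq2⟩ := one_ex ha
    by_cases e : q = S.w
    · subst e
      exact ⟨_, (L.ar_nr s a hs hq2).2 ha⟩
    · obtain ⟨z, hz, hd⟩ := exists_next S.act.tree (Ne.symm e)
      have dz : S.T.dist S.w z = 1 := SimpleGraph.dist_eq_one_iff_adj.2 hz
      exact ⟨_, (L.ar_tv s z hs hz).2 (S.J_conv s _ hs q hq1 z (by omega))⟩
  refine hP.soft (L.nr s hs) (L.nr n hnw) ⟨g, hgw⟩ hout ((L.ar_nr _ _ _ _).2 hn) hvis
    ((Slc.nr_smul_eq L hs).2 hg) hpole ?_
  have hgn : S.w ∈ S.J (g • n) := Slc.w_mem_smul (⟨g, hgw⟩ : ↥(stabilizer H S.w)) hnw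
  rw [L.nr_smul ⟨g, hgw⟩ n hnw hgn]
  rcases htr _ _ hl with e | ⟨h1, h2, h3⟩
  · have e' : L.nr n hnw = L.nr (g • n) hgn := by congr 1
    rw [e']
    exact Relation.EqvGen.refl _
  · exact h3

/-- reversed softs -/
theorem p2_softR (T : STv L) (ht : ∃ n m, L.Co n (L.tv S.u S.adj) m)
    (hP : P2 ↥(stabilizer H S.w) L.ar L.Co (phi.comp (stabilizer H S.w).subtype)) {s a : V}
    (D : RevD S s) (ha : S.ar s a) {n m : V} (hn : S.ar n s) (hco : S.Co n s m) {g : H}
    (hg : g • s = s) (hp : ∀ a, S.ar s a → g • a = a) (hl : LkC S.ar S.Co s n (g • n)) :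
    phi g = 1 := by
  obtain ⟨a1, ha1, hwa1⟩ := D.exists_pole ha
  have hA : ∀ g : H, g • S.v = S.v → g • S.z1 = S.z1 → g • S.w = S.w → phi g = 1 :=
    fun g e1 e2 e3 => phi_JJ L ht hP (av_nnn e1 e2 e3)
  have hgw : g • S.w = S.w := by
    have h1 : g • S.w ∈ S.J s := by
      have := S.J_smul g _ _ D.mw
      rwa [hg] at this
    have h2 : g • S.w ∈ S.J a1 := by
      have := S.J_smul g _ _ hwa1
      rwa [hp a1 ha1] at this
    exact one_eq ha1 h1 h2 D.mw hwa1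
  -- the other pole is not over `w`
  have hb1 : S.ar s (D.r • a1) := by
    have := S.ar_smul D.r _ _ ha1
    rwa [D.rs] at this
  have hne : a1 ≠ D.r • a1 := by
    intro e
    have h1 : S.w' ∈ S.J a1 := by
      have := S.J_smul D.r _ _ hwa1
      rwa [D.rw1, ← e] at this
    exact S.ne (one_eq ha1 D.mw hwa1 D.mw' h1)
  have hb1w : S.w ∉ S.J (D.r • a1) := by
    intro h
    have h1 : S.w' ∈ S.J (D.r • a1) := by
      have := S.J_smul D.r _ _ hwa1
      rwa [D.rw1] at this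
    exact S.ne (one_eq hb1 D.mw h D.mw' h1)
  have hfa : ∀ k : H, k • s = s → k • S.w = S.w → k • a1 = a1 := by
    intro k hs hw
    have h1 : S.ar s (k • a1) := by
      have := S.ar_smul k _ _ ha1
      rwa [hs] at this
    have h2 : S.w ∈ S.J (k • a1) := by
      have := S.J_smul k _ _ hwa1
      rwa [hw] at this
    rcases S.two _ _ _ _ ha1 hb1 h1 with e | e | e
    · exact absurd e hne
    · exact absurd (e ▸ h2) hb1w
    · exact e.symm
  refine D.holP hA ?_ ha hn ⟨m, hco⟩ hg hgw hl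
  intro n k hn hv hwn hs hw hu h
  obtain ⟨m', hm'⟩ := hv
  have hpole : ∀ C, L.ar (L.nr s D.mw) C → (⟨k, hw⟩ : ↥(stabilizer H S.w)) • C = C := by
    intro C hC
    rcases L.cases C with ⟨b, hb, rfl⟩ | ⟨z, hz, rfl⟩
    · refine (Slc.nr_smul_eq L hb).2 ?_
      have h1 := (L.ar_nr _ _ _ _).1 hC
      have e : b = a1 := by
        rcases S.two _ _ _ _ ha1 hb1 h1 with e | e | e
        · exact absurd e hne
        · exact absurd (e ▸ hb) hb1w
        · exact e.symm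
      rw [e]
      exact hfa k hs hw
    · rw [tv_fix2]
      have h1 := (L.ar_tv _ _ _ _).1 hC
      have e : z = S.u := S.exits2 s S.w a1 z S.u D.mw ha1 hwa1 hz S.adj h1 D.mu
      rw [e]
      exact hu
  refine hP.soft (L.nr s D.mw) (L.nr n hwn) ⟨k, hw⟩ ⟨_, (L.ar_tv s S.u D.mw S.adj).2 D.mu⟩
    ((L.ar_nr _ _ _ _).2 hn) (vis_slice L T D.mw hwn hm') ((Slc.nr_smul_eq L D.mw).2 hs) hpole ?_
  have hgn : S.w ∈ S.J (k • n) := Slc.w_mem_smul (⟨k, hw⟩ : ↥(stabilizer H S.w)) hwn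
  rw [L.nr_smul ⟨k, hw⟩ n hwn hgn]
  rcases Rl.lk L D.mw h with e | ⟨h1, h2, h3⟩
  · have e' : L.nr n hwn = L.nr (k • n) hgn := by congr 1
    rw [e']
    exact Relation.EqvGen.refl _
  · exact h3

/-- the lost soft -/
theorem p2_v (ht : ∃ n m, L.Co n (L.tv S.u S.adj) m)
    (hP : P2 ↥(stabilizer H S.w) L.ar L.Co (phi.comp (stabilizer H S.w).subtype)) {n : V}
    (hn : S.ar n S.v) {g : H} (hg : g • S.v = S.v) (hp : ∀ a, S.ar S.v a → g • a = a)
    (hl : LkC S.ar S.Co S.v n (g • n)) : phi g = 1 := by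
  obtain ⟨-, a, b, hab, ha, hb, -, -, h5⟩ := weak_v (S := S)
  have hu : g • S.u = S.u := by
    have h : g • S.u ∈ S.J (g • S.v) := mem_J_v.2 rfl
    rw [hg, S.Jv] at h
    exact h
  have h1 := h5 n g hn hg (hp a ha) hl
  rw [neg_iff (pole_cs' ha).1 (pole_cs' ha).2 S.ne (hp a ha) hu] at h1
  have hw : g • S.w = S.w := by
    rcases RevD.w_or hu with ⟨e, -⟩ | ⟨e, -⟩
    · exact e
    · exact absurd e h1
  exact phi_JJ L ht hP (av_nnn hg (hp _ S.az1) hw)

/-- THE CLAIM: a character of `H` whose restriction to the stabiliser of `w` is trivial on the kernels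
and the pieces of the slice is trivial on the kernels and the pieces of `K` -/
theorem p2_claim (T : STv L) (ht : ∃ n m, L.Co n (L.tv S.u S.adj) m)
    (hP : P2 ↥(stabilizer H S.w) L.ar L.Co (phi.comp (stabilizer H S.w).subtype)) :
    P2 H S.ar S.Co phi := by
  constructor
  · rintro y hy hd ⟨n, m, c, hc⟩ g hg
    obtain ⟨⟨k, rfl⟩, -, c3⟩ := S.H1 _ _ _ _ hc
    have hcy : k • S.w ∈ S.J y := by
      rcases c3 with c3 | ⟨k', rfl, -⟩
      · exact c3
      · exact absurd (S.ar_smul k' _ _ S.az1) (hy _)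
    have h1 : S.w ∈ S.J (k⁻¹ • y) := by
      have := S.J_smul k⁻¹ _ _ hcy
      rwa [inv_smul_smul] at this
    have h2 := S.Cc_smul k⁻¹ _ _ _ _ hc
    rw [inv_smul_smul] at h2
    have h3 : ∀ a, ¬ S.ar (k⁻¹ • y) a := by
      intro a ha
      have := S.ar_smul k _ _ ha
      rw [smul_inv_smul] at this
      exact hy _ this
    have h4 := p2_sink L T ht hP h3 (hd.smul k⁻¹) h1 h2 (hg.conj k⁻¹)
    rwa [phi_conj] at h4
  · rintro s n g ⟨a, ha⟩ hn ⟨m, c, hc⟩ hg hp hl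
    -- translation
    have key : ∀ (k : H), (∀ g' : H, g' • k⁻¹ • s = k⁻¹ • s →
        (∀ a, S.ar (k⁻¹ • s) a → g' • a = a) → LkC S.ar S.Co (k⁻¹ • s) (k⁻¹ • n) (g' • k⁻¹ • n) →
        phi g' = 1) → phi g = 1 := by
      intro k h
      have h1 := h (k⁻¹ * g * k) (by rw [mul_smul, mul_smul, smul_inv_smul, hg]) (by
        intro b hb
        have h2 := S.ar_smul k _ _ hb
        rw [smul_inv_smul] at h2
        rw [mul_smul, mul_smul, hp _ h2, inv_smul_smul]) (by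
        have h2 := LkC.smul S.ar_smul (fun h a b c e => by
          obtain ⟨c', e⟩ := e
          exact ⟨h • c', S.Cc_smul h _ _ _ _ e⟩) k⁻¹ hl
        have e : (k⁻¹ * g * k) • k⁻¹ • n = k⁻¹ • g • n := by
          rw [mul_smul, mul_smul, smul_inv_smul]
        rwa [e])
      rwa [phi_conj'] at h1
    have hn' : ∀ k : H, S.ar (k⁻¹ • n) (k⁻¹ • s) := fun k => S.ar_smul _ _ _ hn
    have ha' : ∀ k : H, S.ar (k⁻¹ • s) (k⁻¹ • a) := fun k => S.ar_smul _ _ _ ha
    have hc' : ∀ k : H, S.Co (k⁻¹ • n) (k⁻¹ • s) (k⁻¹ • m) := fun k =>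
      ⟨k⁻¹ • c, S.Cc_smul _ _ _ _ _ hc⟩
    obtain ⟨⟨k, rfl⟩, -, c3⟩ := S.H1 _ _ _ _ hc
    rcases c3 with c3 | ⟨k', rfl, -⟩
    · -- `s` is over a bad point
      by_cases hN : ∃ y t1 t2, S.Mid y ∧ t1 ≠ t2 ∧ S.Cs s y t1 ∧ S.Cs s y t2
      · -- reversed
        obtain ⟨y, t1, t2, ⟨l, rfl⟩, hne, h1, h2⟩ := hN
        -- the neighbours are `l w` and `l w'`
        apply key l
        intro g' e1 e2 e3
        have tr : ∀ t, S.Cs s (l • S.u) t → S.Cs (l⁻¹ • s) S.u (l⁻¹ • t) := by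
          intro t ht
          have f1 := S.act.adj_smul l⁻¹ _ _ ht.1
          have f2 := S.J_smul l⁻¹ _ _ ht.2.1
          have f3 := S.J_smul l⁻¹ _ _ ht.2.2
          rw [inv_smul_smul] at f1 f2
          exact ⟨f1, f2, f3⟩
        have hall : S.w ∈ S.J (l⁻¹ • s) ∧ S.w' ∈ S.J (l⁻¹ • s) := by
          have f1 := tr _ h1
          have f2 := tr _ h2
          rcases (S.only _).1 f1.1 with i1 | i1 <;> rcases (S.only _).1 f2.1 with i2 | i2
          · exact absurd (smul_left_cancel _ (i1.trans i2.symm)) hne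
          · exact ⟨i1 ▸ f1.2.2, i2 ▸ f2.2.2⟩
          · exact ⟨i2 ▸ f2.2.2, i1 ▸ f1.2.2⟩
          · exact absurd (smul_left_cancel _ (i1.trans i2.symm)) hne
        obtain ⟨D⟩ := exists_RevD hall.1 (tr _ h1).2.1 hall.2
        exact p2_softR L T ht hP D (ha' l) (hn' l) (hc' l) e1 e2 e3
      · apply key k
        intro g' e1 e2 e3
        have h1 : S.w ∈ S.J (k⁻¹ • s) := by
          have := S.J_smul k⁻¹ _ _ c3
          rwa [inv_smul_smul] at this
        refine p2_softN L T hP h1 (ha' k) ?_ (hn' k) (hc' k) e1 e2 e3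
        intro y t1 t2 hy hne f1 f2
        apply hN
        have tr : ∀ t, S.Cs (k⁻¹ • s) y t → S.Cs s (k • y) (k • t) := by
          intro t ht
          have g1 := S.act.adj_smul k _ _ ht.1
          have g2 := S.J_smul k _ _ ht.2.1
          have g3 := S.J_smul k _ _ ht.2.2
          rw [smul_inv_smul] at g2 g3
          exact ⟨g1, g2, g3⟩
        exact ⟨k • y, k • t1, k • t2, hy.smul k, fun e => hne (smul_left_cancel _ e), tr _ f1,
          tr _ f2⟩
    · -- a lost soft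
      apply key k'
      intro g' e1 e2 e3
      rw [inv_smul_smul] at e1 e2 e3
      have h1 := hn' k'
      rw [inv_smul_smul] at h1
      exact p2_v L ht hP h1 e1 e2 e3

end T5

end Pool.Agent.DI
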