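import Pool.Agent.DI.C5PD

/-!
# Chapter 5 (thin tail), characters: the version with all two-ended sinks
-/

namespace Pool.Agent.DI

open MulAction
open Pool.Agent.SAF (InC orbs FinOrb TAct Conv exists_next)
open Pool.Agent.SAG (IO Zt)
open Pool.Agent.BT (bey mst Hyp)

/-- characters which are trivial on the kernels of all two-ended sinks (type `Z` and type `D_inf`) and
on the stabilisers of the pieces of the softs (fixing the poles) -/
structure P5 (H : Type) {V A : Type} [Group H] [MulAction H V] [CommGroup A] (ar : V → V → Prop)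
    (Co : V → V → V → Prop) (phi : H →* A) : Prop where
  snk : ∀ y, (∀ a, ¬ ar y a) → InC ↥(stabilizer H y) → Infinite ↥(stabilizer H y) →
    (∃ n m, Co n y m) → ∀ g, NNn (stabilizer H y) g → phi g = 1
  soft : ∀ s n g, (∃ a, ar s a) → ar n s → (∃ m, Co n s m) → g • s = s →
    (∀ a, ar s a → g • a = a) → LkC ar Co s n (g • n) → phi g = 1

theorem P5.p2 {H V A : Type} [Group H] [MulAction H V] [CommGroup A] {ar : V → V → Prop}
    {Co : V → V → V → Prop} {phi : H →* A} (h : P5 H ar Co phi) : P2 H ar Co phi :=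
  ⟨fun y h1 h2 h3 g h4 => h.snk y h1 h2.1 h2.2.1 h3 g h4, h.soft⟩

namespace T5

variable {H V X A : Type} [Group H] [MulAction H V] [MulAction H X] [CommGroup A] {S : T5 H V X}
variable {Y : Type} [MulAction ↥(stabilizer H S.w) Y] (L : Slc S Y)
variable {phi : H →* A}

/-- unbroken sinks -/
theorem p5_sink
    (hP : P5 ↥(stabilizer H S.w) L.ar L.Co (phi.comp (stabilizer H S.w).subtype)) {y : V}
    (hy : ∀ a, ¬ S.ar y a) (hC : InC ↥(stabilizer H y)) (hI : Infinite ↥(stabilizer H y))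
    (hw : S.w ∈ S.J y) {n m : V} (hco : S.Cc S.w n y m)
    (hn : ¬ ∃ x, S.T.Adj S.w x ∧ x ∈ S.J y) {g : H} (hg : NNn (stabilizer H y) g) :
    phi g = 1 := by
  have hgy : g • y = y := hg.1
  have h1 : S.J y = {S.w} := by
    ext p
    rw [Set.mem_singleton_iff]
    constructor
    · intro hp
      by_contra hne
      obtain ⟨c, hc, hd⟩ := exists_next S.act.tree (Ne.symm hne)
      refine hn ⟨c, hc, S.J_conv y _ hw _ hp c ?_⟩
      have : S.T.dist S.w c = 1 := SimpleGraph.dist_eq_one_iff_adj.2 hc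
      omega
    · rintro rfl
      exact hw
  have hfw : ∀ k : H, k • y = y → k • S.w = S.w := by
    intro k hk
    have h2 := S.J_smul k _ _ hw
    rw [hk, h1] at h2
    exact h2
  have hS : ∀ x : H, x ∈ stabilizer H y ↔ ∃ hx : x ∈ stabilizer H S.w,
      (⟨x, hx⟩ : ↥(stabilizer H S.w)) ∈ stabilizer ↥(stabilizer H S.w) (L.nr y hw) := by
    intro x
    constructor
    · intro h
      exact ⟨hfw x h, (Slc.nr_smul_eq L hw).2 h⟩
    · rintro ⟨h2, h3⟩
      exact (Slc.nr_smul_eq L hw).1 h3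
  have hover : ∀ n m, S.Cc S.w n y m → S.w ∈ S.J n := by
    intro n m hco
    obtain ⟨-, c2, -⟩ := S.H1 _ _ _ _ hco
    rcases c2 with c2 | ⟨k, rfl, c2⟩
    · exact c2
    · exfalso
      have har := (S.Cc_E _ _ _ _ hco).resolve_right (hy _)
      obtain ⟨p, hp1, hp2⟩ := one_ex har
      rw [h1, Set.mem_singleton_iff] at hp2
      rw [hp2] at hp1
      exact not_both bad_w ⟨k, (mem_J_v.1 hp1).symm⟩
  have hnw := hover n m hco
  have hmw := hover m n (S.Cc_symm _ _ _ _ hco)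
  have hsink : ∀ B, ¬ L.ar (L.nr y hw) B := by
    intro B hB
    rcases L.cases B with ⟨a, ha, rfl⟩ | ⟨z, hz, rfl⟩
    · exact hy a ((L.ar_nr _ _ _ _).1 hB)
    · have := (L.ar_tv _ _ _ _).1 hB
      exact hn ⟨z, hz, this⟩
  exact hP.snk (L.nr y hw) hsink (SAF.InC.iso (subEquiv hS).symm hC)
    ((subEquiv hS).toEquiv.infinite_iff.2 hI) ⟨_, _, L.Co_of _ _ _ hnw hw hmw hco⟩
    ⟨g, hfw g hgy⟩ (nnn_sub hS (g := ⟨g, hfw g hgy⟩) hg)

/-- THE CLAIM for all two-ended sinks -/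
theorem p5_claim (T : STv L) (ht : ∃ n m, L.Co n (L.tv S.u S.adj) m)
    (hP : P5 ↥(stabilizer H S.w) L.ar L.Co (phi.comp (stabilizer H S.w).subtype)) :
    P5 H S.ar S.Co phi := by
  have h2 := p2_claim L T ht hP.p2
  refine ⟨?_, h2.soft⟩
  intro y hy hC hI hv g hg
  obtain ⟨n, m, c, hc⟩ := hv
  obtain ⟨⟨k, rfl⟩, -, c3⟩ := S.H1 _ _ _ _ hc
  have hcy : k • S.w ∈ S.J y := by
    rcases c3 with c3 | ⟨k', rfl, -⟩
    · exact c3
    · exact absurd (S.ar_smul k' _ _ S.az1) (hy _)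
  by_cases hD : DT (stabilizer H y)
  · exact h2.snk y hy hD ⟨n, m, _, hc⟩ g hg
  have h1 : S.w ∈ S.J (k⁻¹ • y) := by
    have := S.J_smul k⁻¹ _ _ hcy
    rwa [inv_smul_smul] at this
  have h3 := S.Cc_smul k⁻¹ _ _ _ _ hc
  rw [inv_smul_smul] at h3
  have h4 : ∀ a, ¬ S.ar (k⁻¹ • y) a := by
    intro a ha
    have := S.ar_smul k _ _ ha
    rw [smul_inv_smul] at this
    exact hy _ this
  have e := stabilizerEquivStabilizer (g := k⁻¹) (a := y) rfl
  have h5 : ¬ ∃ x, S.T.Adj S.w x ∧ x ∈ S.J (k⁻¹ • y) := by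
    rintro ⟨x, hx, hxy⟩
    rcases S.snk (k⁻¹ • y) h4 with ⟨p, hp⟩ | ⟨h6, -, -⟩
    · rw [hp] at hxy h1
      exact hx.ne (h1.trans hxy.symm)
    · apply hD
      have := h6.smul k
      rwa [smul_inv_smul] at this
  have h6 := p5_sink L hP h4 (SAF.InC.iso e hC) (e.toEquiv.infinite_iff.1 hI) h1 h3 h5
    (hg.conj k⁻¹)
  rwa [phi_conj] at h6

end T5

end Pool.Agent.DI
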