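import Pool.Agent.DI.C5P

/-!
# Chapter 5 (thin tail), characters: reversed softs (the version of `C5T` for a character)
-/

namespace Pool.Agent.DI

open MulAction
open Pool.Agent.SAF (InC orbs FinOrb TAct Conv exists_next)
open Pool.Agent.SAG (IO Zt)
open Pool.Agent.BT (bey mst Hyp)

namespace T5

variable {H V X A : Type} [Group H] [MulAction H V] [MulAction H X] [CommGroup A] {S : T5 H V X}

/-- elements which fix a lost soft, one of its poles and an adjacent bad point -/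
theorem phi_lost {phi : H →* A}
    (hA : ∀ g : H, g • S.v = S.v → g • S.z1 = S.z1 → g • S.w = S.w → phi g = 1)
    {k g : H} {x : V} {y : X} (hx : S.ar (k • S.v) x) (hgx : g • x = x)
    (hgv : g • k • S.v = k • S.v) (hy : S.T.Adj (k • S.u) y) (hgy : g • y = y) : phi g = 1 := by
  have key : phi (k⁻¹ * g * k) = 1 := by
    have hv : (k⁻¹ * g * k) • S.v = S.v := by rw [mul_smul, mul_smul, hgv, inv_smul_smul]
    have hu : (k⁻¹ * g * k) • S.u = S.u := by
      have h : (k⁻¹ * g * k) • S.u ∈ S.J ((k⁻¹ * g * k) • S.v) := mem_J_v.2 rfl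
      rw [hv, S.Jv] at h
      exact h
    have hy' : (k⁻¹ * g * k) • k⁻¹ • y = k⁻¹ • y := by
      rw [mul_smul, mul_smul, smul_inv_smul, hgy]
    have ha : S.T.Adj S.u (k⁻¹ • y) := by
      have := S.act.adj_smul k⁻¹ _ _ hy
      rwa [inv_smul_smul] at this
    have hw : (k⁻¹ * g * k) • S.w = S.w := by
      rcases (S.only _).1 ha with e | e
      · rw [e] at hy'; exact hy'
      · rw [e] at hy'
        rcases RevD.w_or hu with ⟨h1, -⟩ | ⟨-, h1⟩
        · exact h1
        · exact absurd (h1.symm.trans hy') S.ne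
    have hx' : S.ar S.v (k⁻¹ • x) := by
      have := S.ar_smul k⁻¹ _ _ hx
      rwa [inv_smul_smul] at this
    have hxx : (k⁻¹ * g * k) • k⁻¹ • x = k⁻¹ • x := by
      rw [mul_smul, mul_smul, smul_inv_smul, hgx]
    apply hA _ hv _ hw
    have h5 := S.ar_smul (k⁻¹ * g * k) _ _ S.az1
    rw [hv] at h5
    rcases S.two _ _ _ _ S.az1 S.az2 hx' with h3 | h3 | h3
    · exact absurd h3 S.zne
    · rw [← h3] at hxx
      rcases S.two _ _ _ _ S.az1 S.az2 h5 with h4 | h4 | h4
      · exact absurd h4 S.zne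
      · exfalso
        exact S.zne (smul_left_cancel _ (hxx.trans h4)).symm
      · exact h4.symm
    · rw [← h3] at hxx
      exact hxx
  rw [map_mul, map_mul, map_inv, mul_comm (phi k)⁻¹, mul_assoc, inv_mul_cancel, mul_one] at key
  exact key

namespace RevD

variable {s : V} (D : RevD S s) {phi : H →* A}

/-- the kernel -/
def KKp (S : T5 H V X) (s : V) (phi : H →* A) : Subgroup H where
  carrier := {g | g • s = s ∧ g • S.w = S.w ∧ g • S.u = S.u ∧ phi g = 1}
  mul_mem' := by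
    rintro g h ⟨a1, a2, a3, a4⟩ ⟨b1, b2, b3, b4⟩
    exact ⟨by rw [mul_smul, b1, a1], by rw [mul_smul, b2, a2], by rw [mul_smul, b3, a3],
      by rw [map_mul, a4, b4, mul_one]⟩
  one_mem' := ⟨one_smul _ _, one_smul _ _, one_smul _ _, map_one _⟩
  inv_mem' := by
    rintro g ⟨a1, a2, a3, a4⟩
    exact ⟨by rw [inv_smul_eq_iff, a1], by rw [inv_smul_eq_iff, a2], by rw [inv_smul_eq_iff, a3],
      by rw [map_inv, a4, inv_one]⟩

theorem r_conjP {k : H} (hk : k ∈ KKp S s phi) : D.r * k * D.r⁻¹ ∈ KKp S s phi := by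
  obtain ⟨a1, a2, a3, a4⟩ := hk
  have i1 : D.r⁻¹ • s = s := by rw [inv_smul_eq_iff, D.rs]
  have i2 : D.r⁻¹ • S.w = S.w' := by rw [inv_smul_eq_iff, D.rw2]
  have i3 : D.r⁻¹ • S.u = S.u := by rw [inv_smul_eq_iff, D.ru]
  refine ⟨?_, ?_, ?_, ?_⟩
  · rw [mul_smul, mul_smul, i1, a1, D.rs]
  · rw [mul_smul, mul_smul, i2, fix_w' a2 a3, D.rw2]
  · rw [mul_smul, mul_smul, i3, a3, D.ru]
  · rw [map_mul, map_mul, map_inv, a4, mul_one, mul_inv_cancel]

variable (hA : ∀ g : H, g • S.v = S.v → g • S.z1 = S.z1 → g • S.w = S.w → phi g = 1)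

include hA in
theorem nrevP {g : H} (hs : g • s = s) (hw : g • S.w = S.w)
    (hv : g • D.g0 • S.v = D.g0 • S.v) : phi g = 1 :=
  phi_lost hA D.hv hs hv (by rw [D.g0u]; exact S.adj.symm) hw

include hA in
theorem r_sqP : D.r * D.r ∈ KKp S s phi := by
  have h1 : (D.r * D.r) • S.w = S.w := by rw [mul_smul, D.rw1, D.rw2]
  have h2 : (D.r * D.r) • S.u = S.u := by rw [mul_smul, D.ru, D.ru]
  have h3 : (D.r * D.r) • s = s := by rw [mul_smul, D.rs, D.rs]
  exact ⟨h3, h1, h2, D.nrevP hA h3 h1 (by rw [mul_smul, D.rv, D.rv])⟩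

/-- the subgroup generated by the kernel and the mover -/
def SgP (phi : H →* A) : Subgroup H := Subgroup.closure ((KKp S s phi : Set H) ∪ {D.r})

theorem KK_le_SgP : KKp S s phi ≤ D.SgP phi := fun _ h => Subgroup.subset_closure (Or.inl h)

theorem r_mem_SgP : D.r ∈ D.SgP phi := Subgroup.subset_closure (Or.inr rfl)

include hA in
theorem Sg_infP {g : H} (hg : g ∈ D.SgP phi) (hw : g • S.w = S.w) (hu : g • S.u = S.u)
    (hs : g • s = s) : phi g = 1 := by
  have h := one_inv (K := KKp S s phi) (N := stabilizer H s ⊓ S.JJ) (b := D.r) (D.r_sqP hA)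
    (fun k hk => D.r_conjP hk) (fun k hk => ⟨hk.1, mem_JJ.2 ⟨hk.2.1, hk.2.2.1⟩⟩)
    (fun h => S.ne (by
      have := (mem_JJ.1 h.2).1
      rw [D.rw1] at this
      exact this.symm)) hg ⟨hs, mem_JJ.2 ⟨hw, hu⟩⟩
  exact h.2.2.2

variable (hhol : ∀ (n : V) (g : H), S.ar n s → (∃ m, S.Cc S.w n s m) → S.w ∈ S.J n → g • s = s → g • S.w = S.w →
  g • S.u = S.u → Relation.EqvGen (Rl S s S.w) n (g • n) → phi g = 1)

include hhol in
theorem loc_holP (hn0 : S.ar D.n0 s) (hw0 : S.w ∈ S.J D.n0) {g : H} (hs : g • s = s)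
    (hw : g • S.w = S.w) (hu : g • S.u = S.u)
    (h : Relation.EqvGen (Rl S s S.w) D.n0 (g • D.n0)) : g ∈ KKp S s phi :=
  ⟨hs, hw, hu, hhol D.n0 g hn0 ⟨_, S.Cc_symm _ _ _ _ D.hn0⟩ hw0 hs hw hu h⟩

include hA hhol in
theorem tag_stepP {a : V} (ha : S.ar s a) {n m : V} {k : ↥(stabilizer H s)}
    (h : LkR S.ar S.Co s n m) (ht : D.tag n k) :
    ∃ k' : ↥(stabilizer H s), D.tag m k' ∧ k⁻¹ * k' ∈ (D.SgP phi).comap (stabilizer H s).subtype := by
  obtain ⟨han, ham, c, hc⟩ := h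
  have hks : k.1 • s = s := k.2
  have hku := D.fix_u ha hks
  have hki : (k.1)⁻¹ • s = s := by rw [inv_smul_eq_iff, hks]
  have hkiu : (k.1)⁻¹ • S.u = S.u := by rw [inv_smul_eq_iff, hku]
  obtain ⟨c1, c2, c3⟩ := S.H1 _ _ _ _ hc
  obtain ⟨-, c4, -⟩ := S.H1 _ _ _ _ (S.Cc_symm _ _ _ _ hc)
  have hcs : c ∈ S.J s := by
    rcases c3 with c3 | ⟨g, e, -⟩
    · exact c3
    · exact absurd e (D.csw.not_lost g)
  have hcw := D.bad_or ha c1 hcs
  rcases ht with rfl | ⟨hn0, hw0, hl⟩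
  · -- `n` is lost
    have hkg : (k.1 * D.g0) • S.u = S.u := by rw [mul_smul, D.g0u, hku]
    rcases c4 with c4 | ⟨g, rfl, -⟩
    · -- `m` is over `c`
      -- an element `k1` with `k1 w = c`, `k1 v0 = k v0`
      obtain ⟨k1, hk1, hk1s, hk1w, hk1v⟩ : ∃ k1 : H, (k.1)⁻¹ * k1 ∈ (D.SgP phi) ∧ k1 • s = s ∧
          k1 • S.w = c ∧ k1 • D.g0 • S.v = k.1 • D.g0 • S.v := by
        rcases w_or hku with ⟨e1, e2⟩ | ⟨e1, e2⟩ <;> rcases hcw with rfl | rfl
        · exact ⟨k.1, by rw [inv_mul_cancel]; exact (D.SgP phi).one_mem, hks, e1, rfl⟩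
        · exact ⟨k.1 * D.r, by rw [inv_mul_cancel_left]; exact D.r_mem_SgP,
            by rw [mul_smul, D.rs, hks], by rw [mul_smul, D.rw1, e2], by rw [mul_smul, D.rv]⟩
        · exact ⟨k.1 * D.r, by rw [inv_mul_cancel_left]; exact D.r_mem_SgP,
            by rw [mul_smul, D.rs, hks], by rw [mul_smul, D.rw1, e2], by rw [mul_smul, D.rv]⟩
        · exact ⟨k.1, by rw [inv_mul_cancel]; exact (D.SgP phi).one_mem, hks, e1, rfl⟩
      have i1 : k1⁻¹ • s = s := by rw [inv_smul_eq_iff, hk1s]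
      have hc' := S.Cc_smul k1⁻¹ _ _ _ _ hc
      rw [i1, ← hk1v, inv_smul_smul, ← hk1w, inv_smul_smul] at hc'
      obtain ⟨g, e1, e2, e3, e4, e5⟩ := D.t3 D.g0u hc'
      have hm : m = (k1 * g) • D.n0 := by rw [mul_smul, e5, smul_inv_smul]
      have hkk : (k1 * g) • s = s := by rw [mul_smul, e1, hk1s]
      refine ⟨⟨k1 * g, hkk⟩, Or.inr ⟨?_, ?_, ?_⟩, ?_⟩
      · have := S.ar_smul (k1 * g)⁻¹ _ _ ham
        rw [hm, inv_smul_smul, show (k1 * g)⁻¹ • s = s by rw [inv_smul_eq_iff, hkk]] at this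
        exact this
      · rw [hm] at c4
        have h2 : (k1 * g) • S.w = c := by rw [mul_smul, e2, hk1w]
        rw [← h2] at c4
        exact (J_smul_iff _ _ _).1 c4
      · show Relation.EqvGen (Rl S s ((k1 * g) • S.w)) ((k1 * g) • D.n0) m
        rw [hm]
        exact Relation.EqvGen.refl _
      · show (k.1)⁻¹ * (k1 * g) ∈ (D.SgP phi)
        rw [← mul_assoc]
        refine (D.SgP phi).mul_mem hk1 (D.KK_le_SgP ⟨e1, e2, e3, D.nrevP hA e1 e2 e4⟩)
    · -- two lost softs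
      exfalso
      have hgu := D.lost_u ha ham
      rw [← mul_smul] at hc
      exact D.no_two hkg hgu hc
  · -- `n` is in a local piece
    have hkn : k.1 • S.w ∈ S.J (k.1 • D.n0) := S.J_smul _ _ _ hw0
    have hkn' : k.1 • S.w ∈ S.J n := (Rl.mem hl).1 hkn
    have hks' : k.1 • S.w ∈ S.J s := by
      have := S.J_smul k.1 _ _ D.mw
      rwa [hks] at this
    have hcn : c ∈ S.J n := by
      rcases c2 with c2 | ⟨g, rfl, -⟩
      · exact c2
      · exact absurd (not_both (bad_w.smul k.1) ⟨g, (mem_J_v.1 hkn').symm⟩) id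
    have hck : c = k.1 • S.w := one_eq han hcn hcs hkn' hks'
    subst hck
    rcases c4 with c4 | ⟨g1, rfl, -⟩
    · exact ⟨k, Or.inr ⟨hn0, hw0, Relation.EqvGen.trans _ _ _ hl
        (Relation.EqvGen.rel _ _ ⟨han, ham, hc, hcn, c4⟩)⟩, by
          rw [inv_mul_cancel]; exact Subgroup.one_mem _⟩
    · have hgu := D.lost_u ha ham
      have hc' := S.Cc_smul (k.1)⁻¹ _ _ _ _ (S.Cc_symm _ _ _ _ hc)
      rw [inv_smul_smul, hki, ← mul_smul] at hc'
      obtain ⟨g, e1, e2, e3, e4, e5⟩ := D.t3 (by rw [mul_smul, hgu, hkiu]) hc'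
      refine ⟨⟨k.1 * g, by rw [mem_stabilizer_iff, mul_smul, e1, hks]⟩, Or.inl ?_, ?_⟩
      · show g1 • S.v = (k.1 * g) • D.g0 • S.v
        rw [mul_smul, e4, mul_smul, smul_inv_smul]
      · show (k.1)⁻¹ * (k.1 * g) ∈ (D.SgP phi)
        rw [inv_mul_cancel_left]
        apply D.KK_le_SgP
        apply D.loc_holP hhol hn0 hw0 e1 e2 e3
        rw [e5]
        have := Rl.smul (k.1)⁻¹ hl
        rwa [hki, inv_smul_smul, inv_smul_smul] at this

include hA hhol in
theorem tag_uniqueP {a : V} (ha : S.ar s a) {n : V} {k k' : ↥(stabilizer H s)} (h : D.tag n k)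
    (h' : D.tag n k') : k⁻¹ * k' ∈ (D.SgP phi).comap (stabilizer H s).subtype := by
  show (k.1)⁻¹ * k'.1 ∈ (D.SgP phi)
  have hks : k.1 • s = s := k.2
  have hks' : k'.1 • s = s := k'.2
  have hku := D.fix_u ha hks
  have hku' := D.fix_u ha hks'
  have hki : (k.1)⁻¹ • s = s := by rw [inv_smul_eq_iff, hks]
  have hkiu : (k.1)⁻¹ • S.u = S.u := by rw [inv_smul_eq_iff, hku]
  have hgs : ((k.1)⁻¹ * k'.1) • s = s := by rw [mul_smul, hks', hki]
  have hgu : ((k.1)⁻¹ * k'.1) • S.u = S.u := by rw [mul_smul, hku', hkiu]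
  have mixed : ∀ (k k' : H) (n : V), k • s = s → k • S.u = S.u → n = k • D.g0 • S.v →
      S.w ∈ S.J D.n0 → Relation.EqvGen (Rl S s (k' • S.w)) (k' • D.n0) n → False := by
    intro k k' n hk hku e h2 h3
    have h4 := (Rl.mem h3).1 (S.J_smul k' _ _ h2)
    rw [e, ← mul_smul, mem_J_v] at h4
    exact not_both (bad_w.smul k') ⟨_, h4.symm⟩
  rcases h with h | ⟨h1, h2, h3⟩
  · rcases h' with h' | ⟨-, h5, h6⟩
    · have hgv : ((k.1)⁻¹ * k'.1) • D.g0 • S.v = D.g0 • S.v := by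
        rw [mul_smul, ← h', h, inv_smul_smul]
      rcases w_or hgu with ⟨e1, e2⟩ | ⟨e1, e2⟩
      · exact D.KK_le_SgP ⟨hgs, e1, hgu, D.nrevP hA hgs e1 hgv⟩
      · have i1 : D.r⁻¹ • s = s := by rw [inv_smul_eq_iff, D.rs]
        have i2 : D.r⁻¹ • S.w' = S.w := by rw [inv_smul_eq_iff, D.rw1]
        have i3 : D.r⁻¹ • S.u = S.u := by rw [inv_smul_eq_iff, D.ru]
        have i4 : D.r⁻¹ • D.g0 • S.v = D.g0 • S.v := by rw [inv_smul_eq_iff, D.rv]
        have hm : D.r⁻¹ * ((k.1)⁻¹ * k'.1) ∈ (D.SgP phi) := by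
          apply D.KK_le_SgP
          have a1 : (D.r⁻¹ * ((k.1)⁻¹ * k'.1)) • s = s := by rw [mul_smul, hgs, i1]
          have a2 : (D.r⁻¹ * ((k.1)⁻¹ * k'.1)) • S.w = S.w := by rw [mul_smul, e1, i2]
          have a3 : (D.r⁻¹ * ((k.1)⁻¹ * k'.1)) • S.u = S.u := by rw [mul_smul, hgu, i3]
          exact ⟨a1, a2, a3, D.nrevP hA a1 a2 (by rw [mul_smul, hgv, i4])⟩
        have := (D.SgP phi).mul_mem D.r_mem_SgP hm
        rwa [mul_inv_cancel_left] at this
    · exact absurd (mixed _ _ _ hks hku h h5 h6) id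
  · rcases h' with h' | ⟨-, -, h6⟩
    · exact absurd (mixed _ _ _ hks' hku' h' h2 h3) id
    · -- both in local pieces
      have hn1 : k.1 • S.w ∈ S.J n := (Rl.mem h3).1 (S.J_smul _ _ _ h2)
      have hn2 : k'.1 • S.w ∈ S.J n := (Rl.mem h6).1 (S.J_smul _ _ _ h2)
      have hs1 : k.1 • S.w ∈ S.J s := by
        have := S.J_smul k.1 _ _ D.mw; rwa [hks] at this
      have hs2 : k'.1 • S.w ∈ S.J s := by
        have := S.J_smul k'.1 _ _ D.mw; rwa [hks'] at this
      -- `n` is a node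
      have hnode : S.ar n s := by
        have : ∀ (c : X) (x y : V), Relation.EqvGen (Rl S s c) x y → (S.ar x s ↔ S.ar y s) := by
          intro c x y h
          induction h with
          | rel x y h => exact ⟨fun _ => h.2.1, fun _ => h.1⟩
          | refl x => exact Iff.rfl
          | symm x y _ ih => exact ih.symm
          | trans x y z _ _ ih1 ih2 => exact ih1.trans ih2
        apply (this _ _ _ h3).1
        have := S.ar_smul k.1 _ _ h1
        rwa [hks] at this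
      have hww : k.1 • S.w = k'.1 • S.w := one_eq hnode hn1 hs1 hn2 hs2
      have e1 : ((k.1)⁻¹ * k'.1) • S.w = S.w := by rw [mul_smul, ← hww, inv_smul_smul]
      apply D.KK_le_SgP
      apply D.loc_holP hhol h1 h2 hgs e1 hgu
      have g1 : Relation.EqvGen (Rl S s (k.1 • S.w)) (k.1 • D.n0) (k'.1 • D.n0) := by
        rw [← hww] at h6
        exact Relation.EqvGen.trans _ _ _ h3 (Relation.EqvGen.symm _ _ h6)
      have g2 := Rl.smul (k.1)⁻¹ g1
      rw [hki, inv_smul_smul, inv_smul_smul] at g2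
      rwa [← mul_smul] at g2

include D hA hhol in
/-- THE HOLONOMY OF THE PIECES OF A REVERSED SOFT -/
theorem holP {a : V} (ha : S.ar s a) {n : V} {g : H} (hn : S.ar n s) (hvs : ∃ m, S.Co n s m)
    (hs : g • s = s) (hw : g • S.w = S.w) (h : LkC S.ar S.Co s n (g • n)) : phi g = 1 := by
  have hu := D.fix_u ha hs
  have hR := fun (n m : V) (k : ↥(stabilizer H s)) (h : LkR S.ar S.Co s n m) (ht : D.tag n k) =>
    D.tag_stepP hA hhol ha h ht
  have hR' := fun (n m : V) (k : ↥(stabilizer H s)) (h : LkR S.ar S.Co s n m) (ht : D.tag m k) =>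
    D.tag_stepP hA hhol ha (lkR_symm h) ht
  by_cases ht : ∃ k, D.tag n k
  · obtain ⟨k, hk⟩ := ht
    have h1 := tag_hol (Ω := V) (G := ↥(stabilizer H s)) (g := ⟨g, hs⟩) hR hR'
      (fun g n k h => D.tag_smul h) (fun n k k' h h' => D.tag_uniqueP hA hhol ha h h') h hk
    have h2 : (k.1)⁻¹ * g * k.1 ∈ (D.SgP phi) := h1
    have hks : k.1 • s = s := k.2
    have hku := D.fix_u ha hks
    have hki : (k.1)⁻¹ • s = s := by rw [inv_smul_eq_iff, hks]
    have hkiu : (k.1)⁻¹ • S.u = S.u := by rw [inv_smul_eq_iff, hku]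
    have e1 : ((k.1)⁻¹ * g * k.1) • S.w = S.w := by
      rw [mul_smul, mul_smul]
      have : g • k.1 • S.w = k.1 • S.w := by
        rcases w_or hku with ⟨e, -⟩ | ⟨e, -⟩
        · rw [e, hw]
        · rw [e, fix_w' hw hu]
      rw [this, inv_smul_smul]
    have e2 : ((k.1)⁻¹ * g * k.1) • S.u = S.u := by rw [mul_smul, mul_smul, hku, hu, hkiu]
    have e3 : ((k.1)⁻¹ * g * k.1) • s = s := by rw [mul_smul, mul_smul, hks, hs, hki]
    have h3 := D.Sg_infP hA h2 e1 e2 e3
    rw [map_mul, map_mul, map_inv, mul_comm (phi k.1)⁻¹, mul_assoc, inv_mul_cancel,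
      mul_one] at h3
    exact h3
  · -- no tags: the path stays in a local piece
    have htm : ∀ m, LkC S.ar S.Co s n m → ¬ ∃ k, D.tag m k := by
      rintro m hm ⟨k, hk⟩
      obtain ⟨k', hk', -⟩ := (tag_spread hR hR' hm).2 k hk
      exact ht ⟨k', hk'⟩
    -- lost nodes have tags
    have hlost : ∀ (m : V) (g : H), S.ar m s → m = g • S.v → ∃ k, D.tag m k := by
      rintro m g1 hm rfl
      obtain ⟨g, e1, e2, e3, e4⟩ := D.lost_orb (D.lost_u ha hm) hm
      exact ⟨⟨g, e1⟩, Or.inl e4.symm⟩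
    have key : ∀ x y, LkC S.ar S.Co s x y → (∀ m, LkC S.ar S.Co s x m → ¬ ∃ k, D.tag m k) →
        x = y ∨ (S.ar x s ∧ S.ar y s ∧ ∃ c, c ∈ S.J s ∧ c ∈ S.J x ∧ c ∈ S.J y ∧
          Relation.EqvGen (Rl S s c) x y) := by
      intro x y hxy
      unfold LkC at hxy
      induction hxy with
      | rel x y h =>
        intro hx
        right
        have hl : LkC S.ar S.Co s x y := Relation.EqvGen.rel _ _ h
        obtain ⟨hax, hay, c, hc⟩ := h
        obtain ⟨c1, c2, c3⟩ := S.H1 _ _ _ _ hc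
        obtain ⟨-, c4, -⟩ := S.H1 _ _ _ _ (S.Cc_symm _ _ _ _ hc)
        have hcs : c ∈ S.J s := by
          rcases c3 with c3 | ⟨g, e, -⟩
          · exact c3
          · exact absurd e (D.csw.not_lost g)
        have hcx : c ∈ S.J x := by
          rcases c2 with c2 | ⟨g, e, -⟩
          · exact c2
          · exact absurd (hlost x g hax e) (hx x (Relation.EqvGen.refl _))
        have hcy : c ∈ S.J y := by
          rcases c4 with c4 | ⟨g, e, -⟩
          · exact c4
          · exact absurd (hlost y g hay e) (hx y hl)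
        exact ⟨hax, hay, c, hcs, hcx, hcy, Relation.EqvGen.rel _ _ ⟨hax, hay, hc, hcx, hcy⟩⟩
      | refl x => intro _; exact Or.inl rfl
      | symm x y hxy ih =>
        intro hy
        have hx : ∀ m, LkC S.ar S.Co s x m → ¬ ∃ k, D.tag m k := fun m hm =>
          hy m (Relation.EqvGen.trans _ _ _ (Relation.EqvGen.symm _ _ hxy) hm)
        rcases ih hx with e | ⟨h1, h2, c, h3, h4, h5, h6⟩
        · exact Or.inl e.symm
        · exact Or.inr ⟨h2, h1, c, h3, h5, h4, Relation.EqvGen.symm _ _ h6⟩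
      | trans x y z hxy hyz ih1 ih2 =>
        intro hx
        have hy : ∀ m, LkC S.ar S.Co s y m → ¬ ∃ k, D.tag m k := fun m hm =>
          hx m (Relation.EqvGen.trans _ _ _ hxy hm)
        rcases ih1 hx with rfl | ⟨h1, h2, c, h3, h4, h5, h6⟩
        · exact ih2 hy
        · rcases ih2 hy with rfl | ⟨i1, i2, c', i3, i4, i5, i6⟩
          · exact Or.inr ⟨h1, h2, c, h3, h4, h5, h6⟩
          · have hcc : c = c' := one_eq h2 h5 h3 i4 i3
            subst hcc
            exact Or.inr ⟨h1, i2, c, h3, h4, i5, Relation.EqvGen.trans _ _ _ h6 i6⟩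
    -- a point over `w` or `w'`
    have fin : ∀ (n : V) (g : H), S.ar n s → (∃ m, S.Co n s m) → g • s = s → g • S.w = S.w → g • S.u = S.u →
        S.w ∈ S.J n → (n = g • n ∨ ∃ c, c ∈ S.J s ∧ c ∈ S.J n ∧
          Relation.EqvGen (Rl S s c) n (g • n)) → phi g = 1 := by
      intro n g hn hvs hs hw hu hwn h
      have hvs' : ∃ m, S.Cc S.w n s m := by
        obtain ⟨m, c, hc⟩ := hvs
        obtain ⟨c1, c2, c3⟩ := S.H1 _ _ _ _ hc
        have hcn : c ∈ S.J n := by
          rcases c2 with c2 | ⟨g, rfl, -⟩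
          · exact c2
          · exact absurd (not_both bad_w ⟨g, (mem_J_v.1 hwn).symm⟩) id
        have hcs : c ∈ S.J s := by
          rcases c3 with c3 | ⟨g, e, -⟩
          · exact c3
          · exact absurd e (D.csw.not_lost g)
        have e : c = S.w := one_eq hn hcn hcs hwn D.mw
        exact ⟨m, e ▸ hc⟩
      rcases h with e | ⟨c, h1, h2, h3⟩
      · apply hhol n g hn hvs' hwn hs hw hu
        rw [← e]
        exact Relation.EqvGen.refl _
      · have hcw : c = S.w := one_eq hn h2 h1 hwn D.mw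
        subst hcw
        exact hhol n g hn hvs' hwn hs hw hu h3
    have hk : n = g • n ∨ ∃ c, c ∈ S.J s ∧ c ∈ S.J n ∧ Relation.EqvGen (Rl S s c) n (g • n) := by
      rcases key _ _ h htm with e | ⟨-, -, c, h1, h2, -, h3⟩
      · exact Or.inl e
      · exact Or.inr ⟨c, h1, h2, h3⟩
    rcases D.node_cases ha hn with h1 | h1 | ⟨g1, -, e⟩
    · exact fin n g hn hvs hs hw hu h1 hk
    · -- apply `r`
      have i1 : D.r⁻¹ • s = s := by rw [inv_smul_eq_iff, D.rs]
      have i2 : D.r⁻¹ • S.w = S.w' := by rw [inv_smul_eq_iff, D.rw2]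
      have i3 : D.r⁻¹ • S.u = S.u := by rw [inv_smul_eq_iff, D.ru]
      have hcj : phi (D.r * g * D.r⁻¹) = 1 ↔ phi g = 1 := by
        rw [map_mul, map_mul, map_inv, mul_comm (phi D.r), mul_assoc, mul_inv_cancel, mul_one]
      rw [← hcj]
      have hsm : (D.r * g * D.r⁻¹) • D.r • n = D.r • g • n := by
        rw [mul_smul, mul_smul, inv_smul_smul]
      apply fin (D.r • n) (D.r * g * D.r⁻¹)
      · have := S.ar_smul D.r _ _ hn
        rwa [D.rs] at this
      · obtain ⟨m, c, hc⟩ := hvs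
        have := S.Cc_smul D.r _ _ _ _ hc
        rw [D.rs] at this
        exact ⟨_, _, this⟩
      · rw [mul_smul, mul_smul, i1, hs, D.rs]
      · rw [mul_smul, mul_smul, i2, fix_w' hw hu, D.rw2]
      · rw [mul_smul, mul_smul, i3, hu, D.ru]
      · have := S.J_smul D.r _ _ h1
        rwa [D.rw2] at this
      · rw [hsm]
        rcases hk with e | ⟨c, h4, h5, h6⟩
        · left
          rw [← e]
        · right
          refine ⟨D.r • c, ?_, S.J_smul _ _ _ h5, ?_⟩
          · have := S.J_smul D.r _ _ h4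
            rwa [D.rs] at this
          · have := Rl.smul D.r h6
            rwa [D.rs] at this
    · exact absurd (hlost n g1 hn e) ht

end RevD

end T5

end Pool.Agent.DI
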