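import Pool.Agent.DI.C5A

/-!
# Chapter 5 (thin tail): weak softs and the action
-/

namespace Pool.Agent.DI

open MulAction
open Pool.Agent.SAF (InC orbs FinOrb TAct Conv exists_next)
open Pool.Agent.SAG (IO Zt)
open Pool.Agent.BT (bey mst Hyp)

section

variable {H V : Type} [Group H] [MulAction H V] {ar : V → V → Prop} {Co : V → V → V → Prop}

theorem neg_smul (har : ∀ (h : H) a b, ar a b → ar (h • a) (h • b)) {a : V} {g : H} (k : H)
    (h : Neg ar a g) : Neg ar (k • a) (k * g * k⁻¹) := by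
  obtain ⟨h1, h2⟩ := h
  refine ⟨by rw [mul_smul, mul_smul, inv_smul_smul, h1], ?_⟩
  rcases h2 with ⟨h2, h3⟩ | ⟨p, q, hpq, hp, hq, e⟩
  · left
    refine ⟨fun b hb => ?_, ?_⟩
    · have := har k⁻¹ _ _ hb
      rw [inv_smul_smul] at this
      exact h2 _ this
    · refine h3.conj k (fun x hx => ?_)
      show (k * x * k⁻¹) • k • a = k • a
      rw [mul_smul, mul_smul, inv_smul_smul, show x • a = a from hx]
  · right
    refine ⟨k • p, k • q, fun e => hpq (smul_left_cancel _ e), har k _ _ hp, har k _ _ hq, ?_⟩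
    rw [mul_smul, mul_smul, inv_smul_smul, e]

theorem neg_smul_iff (har : ∀ (h : H) a b, ar a b → ar (h • a) (h • b)) {a : V} {g : H} (k : H) :
    Neg ar (k • a) g ↔ Neg ar a (k⁻¹ * g * k) := by
  constructor
  · intro h
    have := neg_smul har k⁻¹ h
    rwa [inv_smul_smul, inv_inv] at this
  · intro h
    have := neg_smul har k h
    have e : k * (k⁻¹ * g * k) * k⁻¹ = g := by group
    rwa [e] at this

theorem LkC.smul (har : ∀ (h : H) a b, ar a b → ar (h • a) (h • b))
    (hco : ∀ (h : H) a b c, Co a b c → Co (h • a) (h • b) (h • c)) {s n m : V} (k : H)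
    (h : LkC ar Co s n m) : LkC ar Co (k • s) (k • n) (k • m) := by
  unfold LkC at h ⊢
  induction h with
  | rel x y h => exact Relation.EqvGen.rel _ _ ⟨har k _ _ h.1, har k _ _ h.2.1, hco k _ _ _ h.2.2⟩
  | refl x => exact Relation.EqvGen.refl _
  | symm x y _ ih => exact Relation.EqvGen.symm _ _ ih
  | trans x y z _ _ ih1 ih2 => exact Relation.EqvGen.trans _ _ _ ih1 ih2

theorem Weak.smul (har : ∀ (h : H) a b, ar a b → ar (h • a) (h • b))
    (hco : ∀ (h : H) a b c, Co a b c → Co (h • a) (h • b) (h • c)) {s : V} (k : H)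
    (h : Weak H ar Co s) : Weak H ar Co (k • s) := by
  obtain ⟨hf, a, b, hab, ha, hb, h1, ⟨g0, h2, h3, h4⟩, h5⟩ := h
  have tr : ∀ (g : H) (x : V), g • k • x = k • x → (k⁻¹ * g * k) • x = x := by
    intro g x e
    rw [mul_smul, mul_smul, e, inv_smul_smul]
  refine ⟨Finite.of_equiv _ (stabilizerEquivStabilizer (g := k) rfl).toEquiv, k • a, k • b,
    fun e => hab (smul_left_cancel _ e), har k _ _ ha, har k _ _ hb, ?_, ?_, ?_⟩
  · intro g e1 e2
    rw [neg_smul_iff har, neg_smul_iff har]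
    exact h1 _ (tr g s e1) (tr g a e2)
  · refine ⟨k * g0 * k⁻¹, ?_, ?_, neg_smul har k h4⟩
    · rw [mul_smul, mul_smul, inv_smul_smul, h2]
    · rw [mul_smul, mul_smul, inv_smul_smul, h3]
  · intro n g hn e1 e2 hl
    rw [neg_smul_iff har]
    apply h5 (k⁻¹ • n) _ _ (tr g s e1) (tr g a e2)
    · have := LkC.smul har hco k⁻¹ hl
      rw [inv_smul_smul] at this
      have e : (k⁻¹ * g * k) • k⁻¹ • n = k⁻¹ • g • n := by
        rw [← mul_smul, ← mul_smul]
        congr 1
        group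
      rwa [e]
    · have := har k⁻¹ _ _ hn
      rwa [inv_smul_smul] at this

end

namespace Slc

variable {H V X Y : Type} [Group H] [MulAction H V] [MulAction H X] {S : T5 H V X}
  [MulAction ↥(stabilizer H S.w) Y] (L : Slc S Y)

theorem w_mem_smul {x : V} (g : ↥(stabilizer H S.w)) (h : S.w ∈ S.J x) : S.w ∈ S.J (g.1 • x) := by
  have := S.J_smul g.1 _ _ h
  rwa [show g.1 • S.w = S.w from g.2] at this

theorem adj_smul' {x : X} (g : ↥(stabilizer H S.w)) (h : S.T.Adj S.w x) :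
    S.T.Adj S.w (g.1 • x) := by
  have := S.act.adj_smul g.1 _ _ h
  rwa [show g.1 • S.w = S.w from g.2] at this

theorem ar_smul (g : ↥(stabilizer H S.w)) (a b : Y) (h : L.ar a b) : L.ar (g • a) (g • b) := by
  rcases L.cases a with ⟨x, hx, rfl⟩ | ⟨x, hx, rfl⟩
  · rcases L.cases b with ⟨y, hy, rfl⟩ | ⟨y, hy, rfl⟩
    · rw [L.nr_smul g x hx (w_mem_smul g hx), L.nr_smul g y hy (w_mem_smul g hy), L.ar_nr]
      exact S.ar_smul _ _ _ ((L.ar_nr _ _ _ _).1 h)
    · rw [L.nr_smul g x hx (w_mem_smul g hx), L.tv_smul g y hy (adj_smul' g hy), L.ar_tv]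
      exact S.J_smul _ _ _ ((L.ar_tv _ _ _ _).1 h)
  · exact absurd h (L.tv_sink _ _ _)

theorem nr_smul_eq {g : ↥(stabilizer H S.w)} {x : V} (h : S.w ∈ S.J x) :
    g • L.nr x h = L.nr x h ↔ g.1 • x = x := by
  rw [L.nr_smul g x h (w_mem_smul g h)]
  constructor
  · intro e
    exact L.nr_inj _ _ _ _ e
  · intro e
    congr 1

end Slc

end Pool.Agent.DI
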