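import Pool.Agent.DI.C5B
import Pool.Agent.DI.C5C
import Pool.Agent.DI.C5W

/-!
# Chapter 5 (thin tail): reversed softs
-/

namespace Pool.Agent.DI

open MulAction
open Pool.Agent.SAF (InC orbs FinOrb TAct Conv exists_next)
open Pool.Agent.SAG (IO Zt)
open Pool.Agent.BT (bey mst Hyp)

namespace T5

variable {H V X : Type} [Group H] [MulAction H V] [MulAction H X] {S : T5 H V X}

/-! ### the edge group -/

theorem rev_mul {g h : H} (hg : g ∈ S.JJ) (hh : h ∈ S.JJ) (h1 : ¬ Rev S.JJ g)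
    (h2 : ¬ Rev S.JJ h) : ¬ Rev S.JJ (g * h) := by
  have L : DL ↥S.JJ := DT.dl S.J_dt
  rw [rev_iff L hg] at h1
  rw [rev_iff L hh] at h2
  rw [rev_iff L (S.JJ.mul_mem hg hh)]
  have e1 := (L.ε_cases _).resolve_right h1
  have e2 := (L.ε_cases _).resolve_right h2
  have e : (⟨g * h, S.JJ.mul_mem hg hh⟩ : S.JJ) = ⟨g, hg⟩ * ⟨h, hh⟩ := rfl
  rw [e, map_mul, e1, e2, mul_one]
  exact DL.ne_neg_one

theorem rev_inv {g : H} (hg : g ∈ S.JJ) (h1 : ¬ Rev S.JJ g) : ¬ Rev S.JJ g⁻¹ := by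
  have L : DL ↥S.JJ := DT.dl S.J_dt
  rw [rev_iff L hg] at h1
  rw [rev_iff L (S.JJ.inv_mem hg)]
  have e : (⟨g⁻¹, S.JJ.inv_mem hg⟩ : S.JJ) = (⟨g, hg⟩ : S.JJ)⁻¹ := rfl
  rw [e, L.ε_inv]
  exact h1

theorem not_rev_one : ¬ Rev S.JJ 1 := by
  have L : DL ↥S.JJ := DT.dl S.J_dt
  rw [rev_iff L S.JJ.one_mem]
  have e : (⟨1, S.JJ.one_mem⟩ : S.JJ) = 1 := rfl
  rw [e, map_one]
  exact DL.ne_neg_one

theorem rev_conj_iff {g r : H} (hr : r • S.u = S.u) :
    Rev S.JJ (r * g * r⁻¹) ↔ Rev S.JJ g := by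
  constructor
  · intro h
    have h1 := rev_conj (r := r⁻¹) (by rw [inv_smul_eq_iff, hr]) h
    have e : r⁻¹ * (r * g * r⁻¹) * r⁻¹⁻¹ = g := by group
    rwa [e] at h1
  · exact rev_conj hr

/-- elements which fix a lost soft over `u` and one of its poles -/
theorem not_rev' {x : V} {g0 g : H} (h0 : g0 • S.u = S.u) (hx : S.ar (g0 • S.v) x)
    (hg : g ∈ S.JJ) (hv : g • g0 • S.v = g0 • S.v) (hgx : g • x = x) : ¬ Rev S.JJ g := by
  have h0' : g0⁻¹ • S.u = S.u := by rw [inv_smul_eq_iff, h0]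
  have hz : g0⁻¹ • x = S.z1 ∨ g0⁻¹ • x = S.z2 := by
    have h3 := S.ar_smul g0⁻¹ _ _ hx
    rw [inv_smul_smul] at h3
    rcases S.two _ _ _ _ S.az1 S.az2 h3 with h4 | h4 | h4
    · exact absurd h4 S.zne
    · exact Or.inr h4.symm
    · exact Or.inl h4.symm
  have hv' : (g0⁻¹ * g * g0) • S.v = S.v := by
    rw [mul_smul, mul_smul, hv, inv_smul_smul]
  have hx' : (g0⁻¹ * g * g0) • g0⁻¹ • x = g0⁻¹ • x := by
    rw [mul_smul, mul_smul, smul_inv_smul, hgx]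
  have hz1 : (g0⁻¹ * g * g0) • S.z1 = S.z1 := by
    rcases hz with e | e
    · rw [← e]; exact hx'
    · have h5 := S.ar_smul (g0⁻¹ * g * g0) _ _ S.az1
      rw [hv'] at h5
      rw [e] at hx'
      rcases S.two _ _ _ _ S.az1 S.az2 h5 with h4 | h4 | h4
      · exact absurd h4 S.zne
      · exfalso
        have h6 : (g0⁻¹ * g * g0) • S.z2 = (g0⁻¹ * g * g0) • S.z1 := by rw [hx', h4]
        exact S.zne (smul_left_cancel _ h6).symm
      · exact h4.symm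
  have hJ : g0⁻¹ * g * g0 ∈ S.JJ := by
    rw [mem_JJ]
    have hg1 := (mem_JJ.1 hg).1
    have hg2 := (mem_JJ.1 hg).2
    have hu : (g0⁻¹ * g * g0) • S.u = S.u := by rw [mul_smul, mul_smul, h0, hg2, h0']
    refine ⟨?_, hu⟩
    -- `g0 w` is `w` or `w'`; `g` fixes both
    have hgw' : g • S.w' = S.w' := by
      have a1 : S.T.Adj S.u (g • S.w') := by
        have := S.act.adj_smul g _ _ S.adj'.symm
        rwa [hg2] at this
      rcases (S.only _).1 a1 with e | e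
      · exact absurd (smul_left_cancel _ (hg1.trans e.symm)) S.ne
      · exact e
    have a2 : S.T.Adj S.u (g0 • S.w) := by
      have := S.act.adj_smul g0 _ _ S.adj.symm
      rwa [h0] at this
    have hf : g • g0 • S.w = g0 • S.w := by
      rcases (S.only _).1 a2 with e | e
      · rw [e, hg1]
      · rw [e, hgw']
    rw [mul_smul, mul_smul, hf, inv_smul_smul]
  have := not_rev hJ hv' hz1
  intro hr
  apply this
  have h7 := rev_conj (r := g0⁻¹) h0' hr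
  rwa [inv_inv] at h7

/-! ### local pieces -/

/-- corners with centre `c` between nodes over `c` -/
def Rl (S : T5 H V X) (s : V) (c : X) (n m : V) : Prop :=
  S.ar n s ∧ S.ar m s ∧ S.Cc c n s m ∧ c ∈ S.J n ∧ c ∈ S.J m

theorem Rl.smul {s : V} {c : X} {n m : V} (k : H) (h : Relation.EqvGen (Rl S s c) n m) :
    Relation.EqvGen (Rl S (k • s) (k • c)) (k • n) (k • m) := by
  induction h with
  | rel x y h => exact Relation.EqvGen.rel _ _ ⟨S.ar_smul k _ _ h.1, S.ar_smul k _ _ h.2.1,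
      S.Cc_smul k _ _ _ _ h.2.2.1, S.J_smul k _ _ h.2.2.2.1, S.J_smul k _ _ h.2.2.2.2⟩
  | refl x => exact Relation.EqvGen.refl _
  | symm x y _ ih => exact Relation.EqvGen.symm _ _ ih
  | trans x y z _ _ ih1 ih2 => exact Relation.EqvGen.trans _ _ _ ih1 ih2

theorem Rl.mem {s : V} {c : X} {n m : V} (h : Relation.EqvGen (Rl S s c) n m) :
    (c ∈ S.J n ↔ c ∈ S.J m) := by
  induction h with
  | rel x y h => exact ⟨fun _ => h.2.2.2.2, fun _ => h.2.2.2.1⟩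
  | refl x => exact Iff.rfl
  | symm x y _ ih => exact ih.symm
  | trans x y z _ _ ih1 ih2 => exact ih1.trans ih2

section slice

variable {Y : Type} [MulAction ↥(stabilizer H S.w) Y] (L : Slc S Y)

/-- local pieces over `w` are mapped to pieces of the slice -/
theorem Rl.lk {s : V} (hs : S.w ∈ S.J s) {n m : V} (h : Relation.EqvGen (Rl S s S.w) n m) :
    n = m ∨ ∃ (h1 : S.w ∈ S.J n) (h2 : S.w ∈ S.J m),
      LkC L.ar L.Co (L.nr s hs) (L.nr n h1) (L.nr m h2) := by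
  induction h with
  | rel x y h =>
    right
    exact ⟨h.2.2.2.1, h.2.2.2.2, Relation.EqvGen.rel _ _ ⟨(L.ar_nr _ _ _ _).2 h.1,
      (L.ar_nr _ _ _ _).2 h.2.1, L.Co_of _ _ _ _ _ _ h.2.2.1⟩⟩
  | refl x => exact Or.inl rfl
  | symm x y _ ih =>
    rcases ih with rfl | ⟨h1, h2, h3⟩
    · exact Or.inl rfl
    · exact Or.inr ⟨h2, h1, Relation.EqvGen.symm _ _ h3⟩
  | trans x y z _ _ ih1 ih2 =>
    rcases ih1 with rfl | ⟨h1, h2, h3⟩
    · exact ih2
    · rcases ih2 with rfl | ⟨h4, h5, h6⟩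
      · exact Or.inr ⟨h1, h2, h3⟩
      · exact Or.inr ⟨h1, h5, Relation.EqvGen.trans _ _ _ h3 h6⟩

/-- elements of the stabiliser of a local piece of a weak soft of the slice are not reversing -/
theorem Rl.hol {s : V} (hs : S.w ∈ S.J s) {A : Y}
    (hA : ∀ (N : Y) (g : ↥(stabilizer H S.w)), L.ar N (L.nr s hs) → g • L.nr s hs = L.nr s hs →
      g • A = A → LkC L.ar L.Co (L.nr s hs) N (g • N) → ¬ Neg L.ar A g)
    {n : V} (hn : S.ar n s) (hwn : S.w ∈ S.J n) {g : H} (hgs : g • s = s) (hgw : g • S.w = S.w)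
    (hgA : (⟨g, hgw⟩ : ↥(stabilizer H S.w)) • A = A)
    (h : Relation.EqvGen (Rl S s S.w) n (g • n)) : ¬ Neg L.ar A (⟨g, hgw⟩ : ↥(stabilizer H S.w)) := by
  apply hA (L.nr n hwn) _ ((L.ar_nr _ _ _ _).2 hn) ((Slc.nr_smul_eq L hs).2 hgs) hgA
  rw [L.nr_smul _ n hwn (Slc.w_mem_smul _ hwn)]
  rcases Rl.lk L hs h with e | ⟨h1, h2, h3⟩
  · have : L.nr (g • n) (Slc.w_mem_smul (⟨g, hgw⟩ : ↥(stabilizer H S.w)) hwn) = L.nr n hwn := by
      congr 1
      exact e.symm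
    have h4 : LkC L.ar L.Co (L.nr s hs) (L.nr n hwn) (L.nr n hwn) := Relation.EqvGen.refl _
    conv at h4 => rhs; rw [← this]
    exact h4
  · exact h3

end slice

/-! ### a vertex which crosses `w u` and `u w'` -/

/-- the mover of a lost soft fixes its poles -/
theorem mover {x : V} {g1 : H} (h0 : g1 • S.u = S.u) (hx : S.ar (g1 • S.v) x) :
    ∃ r : H, r • x = x ∧ r • g1 • S.v = g1 • S.v ∧ r • S.u = S.u ∧ r • S.w = S.w' ∧
      r • S.w' = S.w := by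
  have h0' : g1⁻¹ • S.u = S.u := by rw [inv_smul_eq_iff, h0]
  have hz : g1⁻¹ • x = S.z1 ∨ g1⁻¹ • x = S.z2 := by
    have h3 := S.ar_smul g1⁻¹ _ _ hx
    rw [inv_smul_smul] at h3
    rcases S.two _ _ _ _ S.az1 S.az2 h3 with h4 | h4 | h4
    · exact absurd h4 S.zne
    · exact Or.inr h4.symm
    · exact Or.inl h4.symm
  have hru : (g1 * S.b * g1⁻¹) • S.u = S.u := by
    rw [mul_smul, mul_smul, h0', b_u, h0]
  have a1 : S.T.Adj S.u (g1⁻¹ • S.w) := by
    have := S.act.adj_smul g1⁻¹ _ _ S.adj.symm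
    rwa [h0'] at this
  have a2 : S.T.Adj S.u (g1⁻¹ • S.w') := by
    have := S.act.adj_smul g1⁻¹ _ _ S.adj'.symm
    rwa [h0'] at this
  refine ⟨g1 * S.b * g1⁻¹, ?_, ?_, hru, ?_, ?_⟩
  · rw [mul_smul, mul_smul]
    rcases hz with e | e
    · rw [e, S.bz1, ← e, smul_inv_smul]
    · rw [e, b_z2, ← e, smul_inv_smul]
  · rw [mul_smul, mul_smul, inv_smul_smul, S.bv]
  · rw [mul_smul, mul_smul]
    rcases (S.only _).1 a1 with e | e
    · rw [e, S.bw]
      rcases (S.only _).1 a2 with e2 | e2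
      · exact absurd (smul_left_cancel _ (e.trans e2.symm)) S.ne
      · exact eq_inv_smul_iff.1 e2.symm
    · rw [e, b_w']
      rcases (S.only _).1 a2 with e2 | e2
      · exact eq_inv_smul_iff.1 e2.symm
      · exact absurd (smul_left_cancel _ (e.trans e2.symm)) S.ne
  · rw [mul_smul, mul_smul]
    rcases (S.only _).1 a2 with e | e
    · rw [e, S.bw]
      rcases (S.only _).1 a1 with e2 | e2
      · exact absurd (smul_left_cancel _ (e2.trans e.symm)) S.ne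
      · exact eq_inv_smul_iff.1 e2.symm
    · rw [e, b_w']
      rcases (S.only _).1 a1 with e2 | e2
      · exact eq_inv_smul_iff.1 e2.symm
      · exact absurd (smul_left_cancel _ (e2.trans e.symm)) S.ne

/-- data of a vertex which crosses `w u` and `u w'` -/
structure RevD (S : T5 H V X) (s : V) where
  mw : S.w ∈ S.J s
  mu : S.u ∈ S.J s
  mw' : S.w' ∈ S.J s
  g0 : H
  g0u : g0 • S.u = S.u
  hv : S.ar (g0 • S.v) s
  r : H
  rs : r • s = s
  rv : r • g0 • S.v = g0 • S.v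
  ru : r • S.u = S.u
  rw1 : r • S.w = S.w'
  rw2 : r • S.w' = S.w
  n0 : V
  hn0 : S.Cc S.w (g0 • S.v) s n0

/-- the centre of a corner at a lost soft over `u` -/
theorem cen_lost {g : H} (hg : g • S.u = S.u) {c : X} {s m : V} (hc : S.Cc c (g • S.v) s m) :
    c = S.w ∨ c = S.w' := by
  obtain ⟨c1, c2, -⟩ := S.H1 _ _ _ _ hc
  have hadj : S.T.Adj c S.u := by
    rcases c2 with c2 | ⟨g', e', c2⟩
    · exact absurd (not_both c1 ⟨g, (mem_J_v.1 c2).symm⟩) id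
    · have : g' • S.u ∈ S.J (g • S.v) := by rw [e']; exact mem_J_v.2 rfl
      rw [mem_J_v.1 this, hg] at c2
      exact c2
  exact (S.only c).1 hadj.symm

theorem exists_RevD {s : V} (h1 : S.w ∈ S.J s) (h2 : S.u ∈ S.J s) (h3 : S.w' ∈ S.J s) :
    Nonempty (RevD S s) := by
  obtain ⟨g, hg, hv⟩ := S.rev s h1 h2 h3
  obtain ⟨r, r1, r2, r3, r4, r5⟩ := mover hg hv
  obtain ⟨c, m, hc⟩ := S.vis (g • S.v) s hv (Or.inr (Or.inr ⟨S.w, S.u, S.adj, h1, h2⟩))
  rcases cen_lost hg hc with e | e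
  · exact ⟨⟨h1, h2, h3, g, hg, hv, r, r1, r2, r3, r4, r5, m, e ▸ hc⟩⟩
  · refine ⟨⟨h1, h2, h3, g, hg, hv, r, r1, r2, r3, r4, r5, r • m, ?_⟩⟩
    have := S.Cc_smul r _ _ _ _ hc
    rwa [e, r5, r2, r1] at this

namespace RevD

variable {s : V} (D : RevD S s)

/-- `T3` -/
theorem t3 {g1 : H} {k : V} (hg : g1 • S.u = S.u) (hk : S.Cc S.w (g1 • S.v) s k) :
    ∃ g : H, g • s = s ∧ g • S.w = S.w ∧ g • S.u = S.u ∧ g • D.g0 • S.v = g1 • S.v ∧
      g • D.n0 = k :=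
  S.T3 s D.g0 g1 D.n0 k D.mw D.mu D.mw' D.g0u hg D.hn0 hk

/-- a lost soft over `u` with pole `s` is a translate of `g0 v` -/
theorem lost_orb {g1 : H} (hg : g1 • S.u = S.u) (hv : S.ar (g1 • S.v) s) :
    ∃ g : H, g • s = s ∧ g • S.w = S.w ∧ g • S.u = S.u ∧ g • D.g0 • S.v = g1 • S.v := by
  obtain ⟨r, r1, r2, r3, r4, r5⟩ := mover hg hv
  obtain ⟨c, m, hc⟩ := S.vis (g1 • S.v) s hv (Or.inr (Or.inr ⟨S.w, S.u, S.adj, D.mw, D.mu⟩))
  have hk : ∃ k, S.Cc S.w (g1 • S.v) s k := by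
    rcases cen_lost hg hc with e | e
    · exact ⟨m, e ▸ hc⟩
    · refine ⟨r • m, ?_⟩
      have := S.Cc_smul r _ _ _ _ hc
      rwa [e, r5, r2, r1] at this
  obtain ⟨k, hk⟩ := hk
  obtain ⟨g, e1, e2, e3, e4, -⟩ := D.t3 hg hk
  exact ⟨g, e1, e2, e3, e4⟩

include D in
/-- no corner joins two lost softs over `u` -/
theorem no_two {g1 g2 : H} (h1 : g1 • S.u = S.u) (h2 : g2 • S.u = S.u) {c : X}
    (hc : S.Cc c (g1 • S.v) s (g2 • S.v)) : False := by
  have key : ∀ (g1 g2 : H), g1 • S.u = S.u → g2 • S.u = S.u →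
      S.Cc S.w (g1 • S.v) s (g2 • S.v) → False :=
    fun g1 g2 h1 h2 hc => S.no2 s g1 g2 D.mw D.mu D.mw' h1 h2 hc
  rcases cen_lost h1 hc with e | e
  · exact key g1 g2 h1 h2 (e ▸ hc)
  · have := S.Cc_smul D.r _ _ _ _ hc
    rw [e, D.rw2, D.rs, ← mul_smul, ← mul_smul] at this
    exact key _ _ (by rw [mul_smul, h1, D.ru]) (by rw [mul_smul, h2, D.ru]) this

/-- elements of the stabiliser which fix the lost soft -/
theorem nrev {g : H} (hs : g • s = s) (hw : g • S.w = S.w) (hu : g • S.u = S.u)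
    (hv : g • D.g0 • S.v = D.g0 • S.v) : ¬ Rev S.JJ g :=
  not_rev' D.g0u D.hv (mem_JJ.2 ⟨hw, hu⟩) hv hs

/-- the kernel -/
def KK (S : T5 H V X) (s : V) : Subgroup H where
  carrier := {g | g • s = s ∧ g • S.w = S.w ∧ g • S.u = S.u ∧ ¬ Rev S.JJ g}
  mul_mem' := by
    rintro g h ⟨a1, a2, a3, a4⟩ ⟨b1, b2, b3, b4⟩
    exact ⟨by rw [mul_smul, b1, a1], by rw [mul_smul, b2, a2], by rw [mul_smul, b3, a3],
      rev_mul (mem_JJ.2 ⟨a2, a3⟩) (mem_JJ.2 ⟨b2, b3⟩) a4 b4⟩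
  one_mem' := ⟨one_smul _ _, one_smul _ _, one_smul _ _, not_rev_one⟩
  inv_mem' := by
    rintro g ⟨a1, a2, a3, a4⟩
    exact ⟨by rw [inv_smul_eq_iff, a1], by rw [inv_smul_eq_iff, a2], by rw [inv_smul_eq_iff, a3],
      rev_inv (mem_JJ.2 ⟨a2, a3⟩) a4⟩

theorem mem_KK {g : H} : g ∈ KK S s ↔ g • s = s ∧ g • S.w = S.w ∧ g • S.u = S.u ∧
    ¬ Rev S.JJ g := Iff.rfl

/-- an element which fixes `u` and `w` fixes `w'` -/
theorem fix_w' {g : H} (hw : g • S.w = S.w) (hu : g • S.u = S.u) : g • S.w' = S.w' := by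
  have a1 : S.T.Adj S.u (g • S.w') := by
    have := S.act.adj_smul g _ _ S.adj'.symm
    rwa [hu] at this
  rcases (S.only _).1 a1 with e | e
  · exact absurd (smul_left_cancel _ (hw.trans e.symm)) S.ne
  · exact e

/-- an element which fixes `u` fixes or exchanges `w` and `w'` -/
theorem w_or {g : H} (hu : g • S.u = S.u) : (g • S.w = S.w ∧ g • S.w' = S.w') ∨
    (g • S.w = S.w' ∧ g • S.w' = S.w) := by
  have a1 : S.T.Adj S.u (g • S.w) := by
    have := S.act.adj_smul g _ _ S.adj.symm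
    rwa [hu] at this
  rcases (S.only _).1 a1 with e | e
  · exact Or.inl ⟨e, fix_w' e hu⟩
  · right
    refine ⟨e, ?_⟩
    have a2 : S.T.Adj S.u (g • S.w') := by
      have := S.act.adj_smul g _ _ S.adj'.symm
      rwa [hu] at this
    rcases (S.only _).1 a2 with e2 | e2
    · exact e2
    · exact absurd (smul_left_cancel _ (e.trans e2.symm)) S.ne

theorem r_conj {k : H} (hk : k ∈ KK S s) : D.r * k * D.r⁻¹ ∈ KK S s := by
  obtain ⟨a1, a2, a3, a4⟩ := hk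
  have i1 : D.r⁻¹ • s = s := by rw [inv_smul_eq_iff, D.rs]
  have i2 : D.r⁻¹ • S.w = S.w' := by rw [inv_smul_eq_iff, D.rw2]
  have i3 : D.r⁻¹ • S.u = S.u := by rw [inv_smul_eq_iff, D.ru]
  refine ⟨?_, ?_, ?_, ?_⟩
  · rw [mul_smul, mul_smul, i1, a1, D.rs]
  · rw [mul_smul, mul_smul, i2, fix_w' a2 a3, D.rw2]
  · rw [mul_smul, mul_smul, i3, a3, D.ru]
  · rw [rev_conj_iff D.ru]; exact a4

theorem r_sq : D.r * D.r ∈ KK S s := by
  have h1 : (D.r * D.r) • S.w = S.w := by rw [mul_smul, D.rw1, D.rw2]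
  have h2 : (D.r * D.r) • S.u = S.u := by rw [mul_smul, D.ru, D.ru]
  have h3 : (D.r * D.r) • s = s := by rw [mul_smul, D.rs, D.rs]
  exact ⟨h3, h1, h2, D.nrev h3 h1 h2 (by rw [mul_smul, D.rv, D.rv])⟩

/-- the subgroup generated by the kernel and the mover -/
def Sg : Subgroup H := Subgroup.closure ((KK S s : Set H) ∪ {D.r})

theorem KK_le_Sg : KK S s ≤ D.Sg := fun _ h => Subgroup.subset_closure (Or.inl h)

theorem r_mem_Sg : D.r ∈ D.Sg := Subgroup.subset_closure (Or.inr rfl)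

theorem Sg_inf {g : H} (hg : g ∈ D.Sg) (hw : g • S.w = S.w) (hu : g • S.u = S.u) (hs : g • s = s) :
    ¬ Rev S.JJ g := by
  have h := one_inv (K := KK S s) (N := stabilizer H s ⊓ S.JJ) (b := D.r) D.r_sq
    (fun k hk => D.r_conj hk) (fun k hk => ⟨hk.1, mem_JJ.2 ⟨hk.2.1, hk.2.2.1⟩⟩)
    (fun h => S.ne (by
      have := (mem_JJ.1 h.2).1
      rw [D.rw1] at this
      exact this.symm)) hg ⟨hs, mem_JJ.2 ⟨hw, hu⟩⟩
  exact h.2.2.2

end RevD

end T5

end Pool.Agent.DI
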