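import Pool.Agent.DI.C5T

/-!
# Chapter 5 (thin tail): births
-/

namespace Pool.Agent.DI

open MulAction
open Pool.Agent.SAF (InC orbs FinOrb TAct Conv exists_next)
open Pool.Agent.SAG (IO Zt)
open Pool.Agent.BT (bey mst Hyp)

namespace T5

variable {H V X : Type} [Group H] [MulAction H V] [MulAction H X] {S : T5 H V X}

/-- data of a vertex which crosses both edges at a neighbour `y` of `w` -/
structure PD (S : T5 H V X) (x : V) (y : X) where
  adj : S.T.Adj S.w y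
  mw : S.w ∈ S.J x
  my : y ∈ S.J x
  gg : H
  ggu : gg • S.u = y
  ar : S.ar (gg • S.v) x
  r : H
  rx : r • x = x
  rv : r • gg • S.v = gg • S.v
  ry : r • y = y
  rne : r • S.w ≠ S.w
  nn : V
  hnn : S.Cc S.w (gg • S.v) x nn
  t3 : ∀ (g1 : H) (k : V), g1 • S.u = y → S.Cc S.w (g1 • S.v) x k →
    ∃ g : H, g • x = x ∧ g • S.w = S.w ∧ g • y = y ∧ g • gg • S.v = g1 • S.v ∧ g • nn = k
  nrev : ∀ g : H, g • x = x → g • S.w = S.w → g • y = y → g • gg • S.v = gg • S.v →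
    ¬ Rev (stabilizer H S.w ⊓ stabilizer H y) g
  rconj : ∀ g : H, g • S.w = S.w → g • y = y → (Rev (stabilizer H S.w ⊓ stabilizer H y)
    (r * g * r⁻¹) ↔ Rev (stabilizer H S.w ⊓ stabilizer H y) g)
  no_two : ∀ (g1 g2 : H) (c : X), g1 • S.u = y → g2 • S.u = y →
    S.Cc c (g1 • S.v) x (g2 • S.v) → False
  only : ∀ z, S.T.Adj y z ↔ z = S.w ∨ z = r • S.w
  rmul : ∀ g h : H, g • S.w = S.w → g • y = y → h • S.w = S.w → h • y = y →
    ¬ Rev (stabilizer H S.w ⊓ stabilizer H y) g → ¬ Rev (stabilizer H S.w ⊓ stabilizer H y) h →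
    ¬ Rev (stabilizer H S.w ⊓ stabilizer H y) (g * h)
  rinv : ∀ g : H, g • S.w = S.w → g • y = y → ¬ Rev (stabilizer H S.w ⊓ stabilizer H y) g →
    ¬ Rev (stabilizer H S.w ⊓ stabilizer H y) g⁻¹
  rone : ¬ Rev (stabilizer H S.w ⊓ stabilizer H y) 1

theorem rev_translate {k g : H} {A B : Subgroup H} (h : ∀ x, x ∈ A ↔ k * x * k⁻¹ ∈ B) :
    Rev B (k * g * k⁻¹) ↔ Rev A g := by
  constructor
  · intro hr
    have := hr.conj k⁻¹ (J' := A) (fun x hx => by
      rw [h]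
      have e : k * (k⁻¹ * x * k⁻¹⁻¹) * k⁻¹ = x := by group
      rwa [e])
    have e : k⁻¹ * (k * g * k⁻¹) * k⁻¹⁻¹ = g := by group
    rwa [e] at this
  · intro hr
    exact hr.conj k (fun x hx => (h x).1 hx)

/-- translation of the data at `u` -/
theorem exists_PD {x : V} {y z : X} (hw : S.w ∈ S.J x) (h1 : S.Cs x y S.w) (h2 : S.Cs x y z)
    (hne : S.w ≠ z) : Nonempty (PD S x y) := by
  obtain ⟨k, hkw, hku⟩ := oneE (S := S) h1.1.symm
  have hki : k⁻¹ • S.w = S.w := by rw [inv_smul_eq_iff, hkw]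
  have hkiu : k⁻¹ • y = S.u := by rw [inv_smul_eq_iff, hku]
  have m1 : S.w ∈ S.J (k⁻¹ • x) := by
    have := S.J_smul k⁻¹ _ _ hw
    rwa [hki] at this
  have m2 : S.u ∈ S.J (k⁻¹ • x) := by
    have := S.J_smul k⁻¹ _ _ h1.2.1
    rwa [hkiu] at this
  have m3 : S.w' ∈ S.J (k⁻¹ • x) := by
    have h3 := S.J_smul k⁻¹ _ _ h2.2.2
    have h4 : S.T.Adj S.u (k⁻¹ • z) := by
      have := S.act.adj_smul k⁻¹ _ _ h2.1
      rwa [hkiu] at this
    rcases (S.only _).1 h4 with e | e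
    · exfalso
      apply hne
      rw [inv_smul_eq_iff, hkw] at e
      exact e.symm
    · rwa [e] at h3
  obtain ⟨D⟩ := exists_RevD m1 m2 m3
  -- conjugation of the edge groups
  have hcj : ∀ g, g ∈ S.JJ ↔ k * g * k⁻¹ ∈ stabilizer H S.w ⊓ stabilizer H y := by
    intro g
    rw [mem_JJ, Subgroup.mem_inf, mem_stabilizer_iff, mem_stabilizer_iff, mul_smul, mul_smul,
      mul_smul, mul_smul, hki, hkiu]
    constructor
    · rintro ⟨a, b⟩
      rw [a, b]
      exact ⟨hkw, hku⟩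
    · rintro ⟨a, b⟩
      exact ⟨smul_left_cancel k (by rw [a, hkw]), smul_left_cancel k (by rw [b, hku])⟩
  have hx : ∀ g : H, g • k⁻¹ • x = k⁻¹ • x ↔ (k * g * k⁻¹) • x = x := by
    intro g
    rw [mul_smul, mul_smul]
    constructor
    · intro e
      rw [e, smul_inv_smul]
    · intro e
      exact smul_left_cancel k (by rw [e, smul_inv_smul])
  refine ⟨⟨h1.1.symm, hw, h1.2.1, k * D.g0, by rw [mul_smul, D.g0u, hku], ?_, k * D.r * k⁻¹,
    (hx _).1 D.rs, ?_, ?_, ?_, k • D.n0, ?_, ?_, ?_, ?_, ?_, ?_, ?_, ?_, ?_⟩⟩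
  · have := S.ar_smul k _ _ D.hv
    rwa [smul_inv_smul, ← mul_smul] at this
  · rw [mul_smul, mul_smul, mul_smul k D.g0, inv_smul_smul, D.rv]
  · rw [mul_smul, mul_smul, hkiu, D.ru, hku]
  · rw [mul_smul, mul_smul, hki, D.rw1]
    intro e
    exact S.ne (smul_left_cancel k (by rw [e, hkw])).symm
  · have := S.Cc_smul k _ _ _ _ D.hn0
    rwa [hkw, smul_inv_smul, ← mul_smul] at this
  · intro g1 m hg1 hm
    have hm' := S.Cc_smul k⁻¹ _ _ _ _ hm
    rw [hki, ← mul_smul] at hm'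
    obtain ⟨g, e1, e2, e3, e4, e5⟩ := D.t3 (g1 := k⁻¹ * g1)
      (by rw [mul_smul, hg1, hkiu]) hm'
    refine ⟨k * g * k⁻¹, (hx _).1 e1, ?_, ?_, ?_, ?_⟩
    · rw [mul_smul, mul_smul, hki, e2, hkw]
    · rw [mul_smul, mul_smul, hkiu, e3, hku]
    · rw [mul_smul, mul_smul, mul_smul k D.g0, inv_smul_smul, e4, mul_smul, smul_inv_smul]
    · rw [mul_smul, mul_smul, inv_smul_smul, e5, smul_inv_smul]
  · intro g e1 e2 e3 e4
    have e : g = k * (k⁻¹ * g * k) * k⁻¹ := by group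
    rw [e, rev_translate hcj]
    apply D.nrev
    · rw [hx, ← e, e1]
    · rw [mul_smul, mul_smul, hkw, e2, hki]
    · rw [mul_smul, mul_smul, hku, e3, hkiu]
    · rw [mul_smul k D.g0] at e4
      rw [mul_smul, mul_smul, e4, inv_smul_smul]
  · intro g e2 e3
    have e : k * D.r * k⁻¹ * g * (k * D.r * k⁻¹)⁻¹ =
      k * (D.r * (k⁻¹ * g * k) * (D.r)⁻¹) * k⁻¹ := by group
    rw [e, rev_translate hcj, rev_conj_iff D.ru]
    have e' : g = k * (k⁻¹ * g * k) * k⁻¹ := by group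
    conv_rhs => rw [e']
    rw [rev_translate hcj]
  · intro g1 g2 c hg1 hg2 hc
    have hc' := S.Cc_smul k⁻¹ _ _ _ _ hc
    rw [← mul_smul, ← mul_smul] at hc'
    exact D.no_two (by rw [mul_smul, hg1, hkiu]) (by rw [mul_smul, hg2, hkiu]) hc'
  · intro z
    have e1 : (k * D.r * k⁻¹) • S.w = k • S.w' := by rw [mul_smul, mul_smul, hki, D.rw1]
    rw [e1]
    have h3 := S.only (k⁻¹ • z)
    constructor
    · intro h
      have h4 := S.act.adj_smul k⁻¹ _ _ h
      rw [hkiu] at h4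
      rcases h3.1 h4 with e | e
      · rw [inv_smul_eq_iff, hkw] at e
        exact Or.inl e
      · rw [inv_smul_eq_iff] at e
        exact Or.inr e
    · intro h
      have h4 : S.T.Adj S.u (k⁻¹ • z) := by
        apply h3.2
        rcases h with e | e
        · left; rw [e, hki]
        · right; rw [e, inv_smul_smul]
      have h5 := S.act.adj_smul k _ _ h4
      rwa [hku, smul_inv_smul] at h5
  · intro g h g1 g2 h1 h2 hg hh
    have eg : g = k * (k⁻¹ * g * k) * k⁻¹ := by group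
    have eh : h = k * (k⁻¹ * h * k) * k⁻¹ := by group
    have egh : g * h = k * ((k⁻¹ * g * k) * (k⁻¹ * h * k)) * k⁻¹ := by group
    have mg : k⁻¹ * g * k ∈ S.JJ := by
      rw [hcj, ← eg]
      exact ⟨g1, g2⟩
    have mh : k⁻¹ * h * k ∈ S.JJ := by
      rw [hcj, ← eh]
      exact ⟨h1, h2⟩
    rw [eg, rev_translate hcj] at hg
    rw [eh, rev_translate hcj] at hh
    rw [egh, rev_translate hcj]
    exact rev_mul mg mh hg hh
  · intro g g1 g2 hg
    have eg : g = k * (k⁻¹ * g * k) * k⁻¹ := by group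
    have egi : g⁻¹ = k * (k⁻¹ * g * k)⁻¹ * k⁻¹ := by group
    have mg : k⁻¹ * g * k ∈ S.JJ := by
      rw [hcj, ← eg]
      exact ⟨g1, g2⟩
    rw [eg, rev_translate hcj] at hg
    rw [egi, rev_translate hcj]
    exact rev_inv mg hg
  · have e : (1 : H) = k * 1 * k⁻¹ := by group
    rw [e, rev_translate hcj]
    exact not_rev_one

/-- translation by an element which fixes `x`, `w`, `y` -/
theorem PD.translate {x : V} {y : X} (D : PD S x y) {h : H} (h1 : h • x = x) (h2 : h • S.w = S.w)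
    (h3 : h • y = y) : ∃ D' : PD S x y, D'.gg • S.v = h • D.gg • S.v ∧ D'.nn = h • D.nn := by
  have h1i : h⁻¹ • x = x := by rw [inv_smul_eq_iff, h1]
  have h2i : h⁻¹ • S.w = S.w := by rw [inv_smul_eq_iff, h2]
  have h3i : h⁻¹ • y = y := by rw [inv_smul_eq_iff, h3]
  -- `h` fixes the other neighbour of `y`
  have h4 : h • D.r • S.w = D.r • S.w := by
    have a1 : S.T.Adj y (h • D.r • S.w) := by
      have := S.act.adj_smul h _ _ ((D.only _).2 (Or.inr rfl))
      rwa [h3] at this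
    rcases (D.only _).1 a1 with e | e
    · exfalso
      exact D.rne (smul_left_cancel h (by rw [e, h2]))
    · exact e
  have hmem : h ∈ stabilizer H S.w ⊓ stabilizer H y := ⟨h2, h3⟩
  have hcj : ∀ g, g ∈ stabilizer H S.w ⊓ stabilizer H y ↔
      h * g * h⁻¹ ∈ stabilizer H S.w ⊓ stabilizer H y := by
    intro g
    constructor
    · intro hg
      exact mul_mem (mul_mem hmem hg) (inv_mem hmem)
    · intro hg
      have := mul_mem (mul_mem (inv_mem hmem) hg) hmem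
      have e : h⁻¹ * (h * g * h⁻¹) * h = g := by group
      rwa [e] at this
  refine ⟨⟨D.adj, D.mw, D.my, h * D.gg, ?_, ?_, h * D.r * h⁻¹, ?_, ?_, ?_, ?_, h • D.nn, ?_, ?_, ?_,
    ?_, ?_, ?_, D.rmul, D.rinv, D.rone⟩, by rw [mul_smul], rfl⟩
  · rw [mul_smul, D.ggu, h3]
  · have := S.ar_smul h _ _ D.ar
    rwa [h1, ← mul_smul] at this
  · rw [mul_smul, mul_smul, h1i, D.rx, h1]
  · rw [mul_smul, mul_smul, mul_smul h D.gg, inv_smul_smul, D.rv]
  · rw [mul_smul, mul_smul, h3i, D.ry, h3]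
  · rw [mul_smul, mul_smul, h2i, h4]
    exact D.rne
  · have := S.Cc_smul h _ _ _ _ D.hnn
    rwa [h2, h1, ← mul_smul] at this
  · intro g1 m hg1 hm
    obtain ⟨g, e1, e2, e3, e4, e5⟩ := D.t3 g1 m hg1 hm
    refine ⟨g * h⁻¹, ?_, ?_, ?_, ?_, ?_⟩
    · rw [mul_smul, h1i, e1]
    · rw [mul_smul, h2i, e2]
    · rw [mul_smul, h3i, e3]
    · rw [mul_smul, mul_smul h D.gg, inv_smul_smul, e4]
    · rw [mul_smul, inv_smul_smul, e5]
  · intro g e1 e2 e3 e4
    have e : g = h * (h⁻¹ * g * h) * h⁻¹ := by group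
    rw [e, rev_translate hcj]
    apply D.nrev
    · rw [mul_smul, mul_smul, h1, e1, h1i]
    · rw [mul_smul, mul_smul, h2, e2, h2i]
    · rw [mul_smul, mul_smul, h3, e3, h3i]
    · rw [mul_smul h D.gg] at e4
      rw [mul_smul, mul_smul, e4, inv_smul_smul]
  · intro g e2 e3
    have e : h * D.r * h⁻¹ * g * (h * D.r * h⁻¹)⁻¹ =
      h * (D.r * (h⁻¹ * g * h) * (D.r)⁻¹) * h⁻¹ := by group
    rw [e, rev_translate hcj, D.rconj]
    · have e' : g = h * (h⁻¹ * g * h) * h⁻¹ := by group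
      conv_rhs => rw [e']
      rw [rev_translate hcj]
    · rw [mul_smul, mul_smul, h2, e2, h2i]
    · rw [mul_smul, mul_smul, h3, e3, h3i]
  · exact D.no_two
  · intro z
    rw [mul_smul, mul_smul, h2i, h4]
    exact D.only z

end T5

end Pool.Agent.DI
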