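import Pool.Agent.DI.C5R

/-!
# Chapter 5 (thin tail): reversed softs, holonomy of the pieces
-/

namespace Pool.Agent.DI

open MulAction
open Pool.Agent.SAF (InC orbs FinOrb TAct Conv exists_next)
open Pool.Agent.SAG (IO Zt)
open Pool.Agent.BT (bey mst Hyp)

namespace T5

variable {H V X : Type} [Group H] [MulAction H V] [MulAction H X] {S : T5 H V X}

namespace RevD

variable {s : V} (D : RevD S s)

include D in
theorem csw : S.Cs s S.u S.w := ⟨S.adj.symm, D.mu, D.mw⟩

include D in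
theorem csw' : S.Cs s S.u S.w' := ⟨S.adj'.symm, D.mu, D.mw'⟩

include D in
/-- the bad points of a reversed soft -/
theorem bad_or {a : V} (ha : S.ar s a) {c : X} (hc : S.Bad c) (hm : c ∈ S.J s) :
    c = S.w ∨ c = S.w' := by
  by_cases e : c = S.w
  · exact Or.inl e
  right
  obtain ⟨y, hy, c1, c2⟩ := bad_pair ha hc bad_w hm D.mw e
  have : y = S.u := mid_unique ha hy mid_u e S.ne c1 c2 D.csw D.csw'
  subst this
  rcases (S.only _).1 c1.1 with h | h
  · exact absurd h e
  · exact h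

include D in
/-- the midpoints of a reversed soft -/
theorem mid_eq {a : V} (ha : S.ar s a) {y : X} (hy : S.Mid y) (hm : y ∈ S.J s) : y = S.u := by
  by_contra hne
  -- the neighbour of `y` in direction `u` is bad
  obtain ⟨c, hc, hd⟩ := exists_next S.act.tree hne
  have dc : S.T.dist y c = 1 := SimpleGraph.dist_eq_one_iff_adj.2 hc
  have hcJ : c ∈ S.J s := S.J_conv s y hm S.u D.mu c (by omega)
  have hcb : S.Bad c := hy.bad hc
  -- a pole is placed at `c`: two exits
  have key : ∀ c, S.T.Adj y c → c = S.w ∨ c = S.w' → False := by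
    intro c hc hcw
    -- a pole `p` with `c ∈ J p`
    obtain ⟨p, hp, hpj⟩ := S.cross s ⟨a, ha⟩ S.u c (by
      rcases hcw with e | e
      · rw [e]; exact S.adj.symm
      · rw [e]; exact S.adj'.symm) D.mu (by
      rcases hcw with e | e
      · rw [e]; exact D.mw
      · rw [e]; exact D.mw')
    have hcp : c ∈ S.J p := by
      rcases rev_pole D.csw D.csw' S.ne mid_u hp with h | h
      · rcases hcw with e | e
        · rw [e]; exact h
        · exfalso
          have h1 : S.T.dist S.w S.u = S.T.dist S.w c + 1 := hpj h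
          rw [e, SimpleGraph.dist_eq_one_iff_adj.2 S.adj] at h1
          have h2 : S.T.dist S.w S.w' = 0 := by omega
          exact S.ne (S.act.tree.connected.dist_eq_zero_iff.1 h2)
      · rcases hcw with e | e
        · exfalso
          have h1 : S.T.dist S.w' S.u = S.T.dist S.w' c + 1 := hpj h
          rw [e, SimpleGraph.dist_eq_one_iff_adj.2 S.adj'] at h1
          have h2 : S.T.dist S.w' S.w = 0 := by omega
          exact S.ne (S.act.tree.connected.dist_eq_zero_iff.1 h2).symm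
        · rw [e]; exact h
    have hcs : c ∈ S.J s := by
      rcases hcw with e | e
      · rw [e]; exact D.mw
      · rw [e]; exact D.mw'
    have hcu : S.T.Adj c S.u := by
      rcases hcw with e | e
      · rw [e]; exact S.adj
      · rw [e]; exact S.adj'
    exact hne (S.exits2 s c p y S.u hcs hp hcp hc.symm hcu hm D.mu)
  exact key c hc (D.bad_or ha hcb hcJ)

include D in
/-- a lost soft with pole `s` is over `u` -/
theorem lost_u {a : V} (ha : S.ar s a) {g : H} (hv : S.ar (g • S.v) s) : g • S.u = S.u := by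
  obtain ⟨p, hp1, hp2⟩ := one_ex hv
  rw [mem_J_v] at hp1
  rw [hp1] at hp2
  exact D.mid_eq ha (mid_u.smul g) hp2

include D in
/-- nodes of the link of a reversed soft -/
theorem node_cases {a n : V} (ha : S.ar s a) (hn : S.ar n s) :
    S.w ∈ S.J n ∨ S.w' ∈ S.J n ∨ ∃ g : H, g • S.u = S.u ∧ n = g • S.v := by
  obtain ⟨p, hp1, hp2⟩ := one_ex hn
  by_cases hb : S.Bad p
  · rcases D.bad_or ha hb hp2 with e | e
    · exact Or.inl (e ▸ hp1)
    · exact Or.inr (Or.inl (e ▸ hp1))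
  · right; right
    have hm : S.Mid p := by
      obtain ⟨q, hq⟩ : ∃ q, S.T.Adj p q := by
        by_cases e : p = S.w
        · exact absurd (e ▸ bad_w) hb
        · obtain ⟨q, hq, -⟩ := exists_next S.act.tree e
          exact ⟨q, hq⟩
      rcases S.bip _ _ hq with ⟨k, k1, -⟩ | ⟨k, k1, -⟩
      · exact absurd ⟨k, k1⟩ hb
      · exact ⟨k, k1⟩
    have e := D.mid_eq ha hm hp2
    subst e
    obtain ⟨g, e1, e2⟩ := node_lost hn mid_u hp1 D.csw
    exact ⟨g, e2, e1⟩

include D in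
/-- elements of the stabiliser fix `u` -/
theorem fix_u {a : V} (ha : S.ar s a) {k : H} (hk : k • s = s) : k • S.u = S.u := by
  apply D.mid_eq ha (mid_u.smul k)
  have := S.J_smul k _ _ D.mu
  rwa [hk] at this

/-- tags of the nodes -/
def tag (n : V) (k : ↥(stabilizer H s)) : Prop :=
  n = k.1 • D.g0 • S.v ∨ (S.ar D.n0 s ∧ S.w ∈ S.J D.n0 ∧
    Relation.EqvGen (Rl S s (k.1 • S.w)) (k.1 • D.n0) n)

variable (hhol : ∀ (n : V) (g : H), S.ar n s → S.w ∈ S.J n → g • s = s → g • S.w = S.w →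
  g • S.u = S.u → Relation.EqvGen (Rl S s S.w) n (g • n) → ¬ Rev S.JJ g)

include hhol in
theorem loc_hol (hn0 : S.ar D.n0 s) (hw0 : S.w ∈ S.J D.n0) {g : H} (hs : g • s = s)
    (hw : g • S.w = S.w) (hu : g • S.u = S.u)
    (h : Relation.EqvGen (Rl S s S.w) D.n0 (g • D.n0)) : g ∈ KK S s :=
  ⟨hs, hw, hu, hhol D.n0 g hn0 hw0 hs hw hu h⟩

include hhol in
theorem tag_step {a : V} (ha : S.ar s a) {n m : V} {k : ↥(stabilizer H s)}
    (h : LkR S.ar S.Co s n m) (ht : D.tag n k) :
    ∃ k' : ↥(stabilizer H s), D.tag m k' ∧ k⁻¹ * k' ∈ D.Sg.comap (stabilizer H s).subtype := by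
  obtain ⟨han, ham, c, hc⟩ := h
  have hks : k.1 • s = s := k.2
  have hku := D.fix_u ha hks
  have hki : (k.1)⁻¹ • s = s := by rw [inv_smul_eq_iff, hks]
  have hkiu : (k.1)⁻¹ • S.u = S.u := by rw [inv_smul_eq_iff, hku]
  obtain ⟨c1, c2, c3⟩ := S.H1 _ _ _ _ hc
  obtain ⟨-, c4, -⟩ := S.H1 _ _ _ _ (S.Cc_symm _ _ _ _ hc)
  have hcs : c ∈ S.J s := by
    rcases c3 with c3 | ⟨g, e, -⟩
    · exact c3
    · exact absurd e (D.csw.not_lost g)
  have hcw := D.bad_or ha c1 hcs
  rcases ht with rfl | ⟨hn0, hw0, hl⟩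
  · -- `n` is lost
    have hkg : (k.1 * D.g0) • S.u = S.u := by rw [mul_smul, D.g0u, hku]
    rcases c4 with c4 | ⟨g, rfl, -⟩
    · -- `m` is over `c`
      -- an element `k1` with `k1 w = c`, `k1 v0 = k v0`
      obtain ⟨k1, hk1, hk1s, hk1w, hk1v⟩ : ∃ k1 : H, (k.1)⁻¹ * k1 ∈ D.Sg ∧ k1 • s = s ∧
          k1 • S.w = c ∧ k1 • D.g0 • S.v = k.1 • D.g0 • S.v := by
        rcases w_or hku with ⟨e1, e2⟩ | ⟨e1, e2⟩ <;> rcases hcw with rfl | rfl
        · exact ⟨k.1, by rw [inv_mul_cancel]; exact D.Sg.one_mem, hks, e1, rfl⟩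
        · exact ⟨k.1 * D.r, by rw [inv_mul_cancel_left]; exact D.r_mem_Sg,
            by rw [mul_smul, D.rs, hks], by rw [mul_smul, D.rw1, e2], by rw [mul_smul, D.rv]⟩
        · exact ⟨k.1 * D.r, by rw [inv_mul_cancel_left]; exact D.r_mem_Sg,
            by rw [mul_smul, D.rs, hks], by rw [mul_smul, D.rw1, e2], by rw [mul_smul, D.rv]⟩
        · exact ⟨k.1, by rw [inv_mul_cancel]; exact D.Sg.one_mem, hks, e1, rfl⟩
      have i1 : k1⁻¹ • s = s := by rw [inv_smul_eq_iff, hk1s]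
      have hc' := S.Cc_smul k1⁻¹ _ _ _ _ hc
      rw [i1, ← hk1v, inv_smul_smul, ← hk1w, inv_smul_smul] at hc'
      obtain ⟨g, e1, e2, e3, e4, e5⟩ := D.t3 D.g0u hc'
      have hm : m = (k1 * g) • D.n0 := by rw [mul_smul, e5, smul_inv_smul]
      have hkk : (k1 * g) • s = s := by rw [mul_smul, e1, hk1s]
      refine ⟨⟨k1 * g, hkk⟩, Or.inr ⟨?_, ?_, ?_⟩, ?_⟩
      · have := S.ar_smul (k1 * g)⁻¹ _ _ ham
        rw [hm, inv_smul_smul, show (k1 * g)⁻¹ • s = s by rw [inv_smul_eq_iff, hkk]] at this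
        exact this
      · rw [hm] at c4
        have h2 : (k1 * g) • S.w = c := by rw [mul_smul, e2, hk1w]
        rw [← h2] at c4
        exact (J_smul_iff _ _ _).1 c4
      · show Relation.EqvGen (Rl S s ((k1 * g) • S.w)) ((k1 * g) • D.n0) m
        rw [hm]
        exact Relation.EqvGen.refl _
      · show (k.1)⁻¹ * (k1 * g) ∈ D.Sg
        rw [← mul_assoc]
        refine D.Sg.mul_mem hk1 (D.KK_le_Sg ⟨e1, e2, e3, D.nrev e1 e2 e3 e4⟩)
    · -- two lost softs
      exfalso
      have hgu := D.lost_u ha ham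
      rw [← mul_smul] at hc
      exact D.no_two hkg hgu hc
  · -- `n` is in a local piece
    have hkn : k.1 • S.w ∈ S.J (k.1 • D.n0) := S.J_smul _ _ _ hw0
    have hkn' : k.1 • S.w ∈ S.J n := (Rl.mem hl).1 hkn
    have hks' : k.1 • S.w ∈ S.J s := by
      have := S.J_smul k.1 _ _ D.mw
      rwa [hks] at this
    have hcn : c ∈ S.J n := by
      rcases c2 with c2 | ⟨g, rfl, -⟩
      · exact c2
      · exact absurd (not_both (bad_w.smul k.1) ⟨g, (mem_J_v.1 hkn').symm⟩) id
    have hck : c = k.1 • S.w := one_eq han hcn hcs hkn' hks'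
    subst hck
    rcases c4 with c4 | ⟨g1, rfl, -⟩
    · exact ⟨k, Or.inr ⟨hn0, hw0, Relation.EqvGen.trans _ _ _ hl
        (Relation.EqvGen.rel _ _ ⟨han, ham, hc, hcn, c4⟩)⟩, by
          rw [inv_mul_cancel]; exact Subgroup.one_mem _⟩
    · have hgu := D.lost_u ha ham
      have hc' := S.Cc_smul (k.1)⁻¹ _ _ _ _ (S.Cc_symm _ _ _ _ hc)
      rw [inv_smul_smul, hki, ← mul_smul] at hc'
      obtain ⟨g, e1, e2, e3, e4, e5⟩ := D.t3 (by rw [mul_smul, hgu, hkiu]) hc'
      refine ⟨⟨k.1 * g, by rw [mem_stabilizer_iff, mul_smul, e1, hks]⟩, Or.inl ?_, ?_⟩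
      · show g1 • S.v = (k.1 * g) • D.g0 • S.v
        rw [mul_smul, e4, mul_smul, smul_inv_smul]
      · show (k.1)⁻¹ * (k.1 * g) ∈ D.Sg
        rw [inv_mul_cancel_left]
        apply D.KK_le_Sg
        apply D.loc_hol hhol hn0 hw0 e1 e2 e3
        rw [e5]
        have := Rl.smul (k.1)⁻¹ hl
        rwa [hki, inv_smul_smul, inv_smul_smul] at this

theorem lkR_symm {n m : V} (h : LkR S.ar S.Co s n m) : LkR S.ar S.Co s m n := by
  obtain ⟨h1, h2, c, h3⟩ := h
  exact ⟨h2, h1, c, S.Cc_symm _ _ _ _ h3⟩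

theorem tag_smul {g k : ↥(stabilizer H s)} {n : V} (ht : D.tag n k) : D.tag (g • n) (g * k) := by
  rcases ht with rfl | ⟨h1, h2, h3⟩
  · left
    show g.1 • k.1 • D.g0 • S.v = (g.1 * k.1) • D.g0 • S.v
    rw [mul_smul]
  · right
    refine ⟨h1, h2, ?_⟩
    have := Rl.smul g.1 h3
    rw [show g.1 • s = s from g.2] at this
    show Relation.EqvGen (Rl S s ((g.1 * k.1) • S.w)) ((g.1 * k.1) • D.n0) (g.1 • n)
    rw [mul_smul, mul_smul]
    exact this

include hhol in
theorem tag_unique {a : V} (ha : S.ar s a) {n : V} {k k' : ↥(stabilizer H s)} (h : D.tag n k)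
    (h' : D.tag n k') : k⁻¹ * k' ∈ D.Sg.comap (stabilizer H s).subtype := by
  show (k.1)⁻¹ * k'.1 ∈ D.Sg
  have hks : k.1 • s = s := k.2
  have hks' : k'.1 • s = s := k'.2
  have hku := D.fix_u ha hks
  have hku' := D.fix_u ha hks'
  have hki : (k.1)⁻¹ • s = s := by rw [inv_smul_eq_iff, hks]
  have hkiu : (k.1)⁻¹ • S.u = S.u := by rw [inv_smul_eq_iff, hku]
  have hgs : ((k.1)⁻¹ * k'.1) • s = s := by rw [mul_smul, hks', hki]
  have hgu : ((k.1)⁻¹ * k'.1) • S.u = S.u := by rw [mul_smul, hku', hkiu]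
  have mixed : ∀ (k k' : H) (n : V), k • s = s → k • S.u = S.u → n = k • D.g0 • S.v →
      S.w ∈ S.J D.n0 → Relation.EqvGen (Rl S s (k' • S.w)) (k' • D.n0) n → False := by
    intro k k' n hk hku e h2 h3
    have h4 := (Rl.mem h3).1 (S.J_smul k' _ _ h2)
    rw [e, ← mul_smul, mem_J_v] at h4
    exact not_both (bad_w.smul k') ⟨_, h4.symm⟩
  rcases h with h | ⟨h1, h2, h3⟩
  · rcases h' with h' | ⟨-, h5, h6⟩
    · have hgv : ((k.1)⁻¹ * k'.1) • D.g0 • S.v = D.g0 • S.v := by
        rw [mul_smul, ← h', h, inv_smul_smul]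
      rcases w_or hgu with ⟨e1, e2⟩ | ⟨e1, e2⟩
      · exact D.KK_le_Sg ⟨hgs, e1, hgu, D.nrev hgs e1 hgu hgv⟩
      · have i1 : D.r⁻¹ • s = s := by rw [inv_smul_eq_iff, D.rs]
        have i2 : D.r⁻¹ • S.w' = S.w := by rw [inv_smul_eq_iff, D.rw1]
        have i3 : D.r⁻¹ • S.u = S.u := by rw [inv_smul_eq_iff, D.ru]
        have i4 : D.r⁻¹ • D.g0 • S.v = D.g0 • S.v := by rw [inv_smul_eq_iff, D.rv]
        have hm : D.r⁻¹ * ((k.1)⁻¹ * k'.1) ∈ D.Sg := by
          apply D.KK_le_Sg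
          have a1 : (D.r⁻¹ * ((k.1)⁻¹ * k'.1)) • s = s := by rw [mul_smul, hgs, i1]
          have a2 : (D.r⁻¹ * ((k.1)⁻¹ * k'.1)) • S.w = S.w := by rw [mul_smul, e1, i2]
          have a3 : (D.r⁻¹ * ((k.1)⁻¹ * k'.1)) • S.u = S.u := by rw [mul_smul, hgu, i3]
          exact ⟨a1, a2, a3, D.nrev a1 a2 a3 (by rw [mul_smul, hgv, i4])⟩
        have := D.Sg.mul_mem D.r_mem_Sg hm
        rwa [mul_inv_cancel_left] at this
    · exact absurd (mixed _ _ _ hks hku h h5 h6) id
  · rcases h' with h' | ⟨-, -, h6⟩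
    · exact absurd (mixed _ _ _ hks' hku' h' h2 h3) id
    · -- both in local pieces
      have hn1 : k.1 • S.w ∈ S.J n := (Rl.mem h3).1 (S.J_smul _ _ _ h2)
      have hn2 : k'.1 • S.w ∈ S.J n := (Rl.mem h6).1 (S.J_smul _ _ _ h2)
      have hs1 : k.1 • S.w ∈ S.J s := by
        have := S.J_smul k.1 _ _ D.mw; rwa [hks] at this
      have hs2 : k'.1 • S.w ∈ S.J s := by
        have := S.J_smul k'.1 _ _ D.mw; rwa [hks'] at this
      -- `n` is a node
      have hnode : S.ar n s := by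
        have : ∀ (c : X) (x y : V), Relation.EqvGen (Rl S s c) x y → (S.ar x s ↔ S.ar y s) := by
          intro c x y h
          induction h with
          | rel x y h => exact ⟨fun _ => h.2.1, fun _ => h.1⟩
          | refl x => exact Iff.rfl
          | symm x y _ ih => exact ih.symm
          | trans x y z _ _ ih1 ih2 => exact ih1.trans ih2
        apply (this _ _ _ h3).1
        have := S.ar_smul k.1 _ _ h1
        rwa [hks] at this
      have hww : k.1 • S.w = k'.1 • S.w := one_eq hnode hn1 hs1 hn2 hs2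
      have e1 : ((k.1)⁻¹ * k'.1) • S.w = S.w := by rw [mul_smul, ← hww, inv_smul_smul]
      apply D.KK_le_Sg
      apply D.loc_hol hhol h1 h2 hgs e1 hgu
      have g1 : Relation.EqvGen (Rl S s (k.1 • S.w)) (k.1 • D.n0) (k'.1 • D.n0) := by
        rw [← hww] at h6
        exact Relation.EqvGen.trans _ _ _ h3 (Relation.EqvGen.symm _ _ h6)
      have g2 := Rl.smul (k.1)⁻¹ g1
      rw [hki, inv_smul_smul, inv_smul_smul] at g2
      rwa [← mul_smul] at g2

include D hhol in
/-- THE HOLONOMY OF THE PIECES OF A REVERSED SOFT -/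
theorem hol {a : V} (ha : S.ar s a) {n : V} {g : H} (hn : S.ar n s) (hs : g • s = s)
    (hw : g • S.w = S.w) (h : LkC S.ar S.Co s n (g • n)) : ¬ Rev S.JJ g := by
  have hu := D.fix_u ha hs
  have hR := fun (n m : V) (k : ↥(stabilizer H s)) (h : LkR S.ar S.Co s n m) (ht : D.tag n k) =>
    D.tag_step hhol ha h ht
  have hR' := fun (n m : V) (k : ↥(stabilizer H s)) (h : LkR S.ar S.Co s n m) (ht : D.tag m k) =>
    D.tag_step hhol ha (lkR_symm h) ht
  by_cases ht : ∃ k, D.tag n k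
  · obtain ⟨k, hk⟩ := ht
    have h1 := tag_hol (Ω := V) (G := ↥(stabilizer H s)) (g := ⟨g, hs⟩) hR hR'
      (fun g n k h => D.tag_smul h) (fun n k k' h h' => D.tag_unique hhol ha h h') h hk
    have h2 : (k.1)⁻¹ * g * k.1 ∈ D.Sg := h1
    have hks : k.1 • s = s := k.2
    have hku := D.fix_u ha hks
    have hki : (k.1)⁻¹ • s = s := by rw [inv_smul_eq_iff, hks]
    have hkiu : (k.1)⁻¹ • S.u = S.u := by rw [inv_smul_eq_iff, hku]
    have e1 : ((k.1)⁻¹ * g * k.1) • S.w = S.w := by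
      rw [mul_smul, mul_smul]
      have : g • k.1 • S.w = k.1 • S.w := by
        rcases w_or hku with ⟨e, -⟩ | ⟨e, -⟩
        · rw [e, hw]
        · rw [e, fix_w' hw hu]
      rw [this, inv_smul_smul]
    have e2 : ((k.1)⁻¹ * g * k.1) • S.u = S.u := by rw [mul_smul, mul_smul, hku, hu, hkiu]
    have e3 : ((k.1)⁻¹ * g * k.1) • s = s := by rw [mul_smul, mul_smul, hks, hs, hki]
    have h3 := D.Sg_inf h2 e1 e2 e3
    intro hr
    apply h3
    have := rev_conj (r := (k.1)⁻¹) hkiu hr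
    rwa [inv_inv] at this
  · -- no tags: the path stays in a local piece
    have htm : ∀ m, LkC S.ar S.Co s n m → ¬ ∃ k, D.tag m k := by
      rintro m hm ⟨k, hk⟩
      obtain ⟨k', hk', -⟩ := (tag_spread hR hR' hm).2 k hk
      exact ht ⟨k', hk'⟩
    -- lost nodes have tags
    have hlost : ∀ (m : V) (g : H), S.ar m s → m = g • S.v → ∃ k, D.tag m k := by
      rintro m g1 hm rfl
      obtain ⟨g, e1, e2, e3, e4⟩ := D.lost_orb (D.lost_u ha hm) hm
      exact ⟨⟨g, e1⟩, Or.inl e4.symm⟩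
    have key : ∀ x y, LkC S.ar S.Co s x y → (∀ m, LkC S.ar S.Co s x m → ¬ ∃ k, D.tag m k) →
        x = y ∨ (S.ar x s ∧ S.ar y s ∧ ∃ c, c ∈ S.J s ∧ c ∈ S.J x ∧ c ∈ S.J y ∧
          Relation.EqvGen (Rl S s c) x y) := by
      intro x y hxy
      unfold LkC at hxy
      induction hxy with
      | rel x y h =>
        intro hx
        right
        have hl : LkC S.ar S.Co s x y := Relation.EqvGen.rel _ _ h
        obtain ⟨hax, hay, c, hc⟩ := h
        obtain ⟨c1, c2, c3⟩ := S.H1 _ _ _ _ hc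
        obtain ⟨-, c4, -⟩ := S.H1 _ _ _ _ (S.Cc_symm _ _ _ _ hc)
        have hcs : c ∈ S.J s := by
          rcases c3 with c3 | ⟨g, e, -⟩
          · exact c3
          · exact absurd e (D.csw.not_lost g)
        have hcx : c ∈ S.J x := by
          rcases c2 with c2 | ⟨g, e, -⟩
          · exact c2
          · exact absurd (hlost x g hax e) (hx x (Relation.EqvGen.refl _))
        have hcy : c ∈ S.J y := by
          rcases c4 with c4 | ⟨g, e, -⟩
          · exact c4
          · exact absurd (hlost y g hay e) (hx y hl)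
        exact ⟨hax, hay, c, hcs, hcx, hcy, Relation.EqvGen.rel _ _ ⟨hax, hay, hc, hcx, hcy⟩⟩
      | refl x => intro _; exact Or.inl rfl
      | symm x y hxy ih =>
        intro hy
        have hx : ∀ m, LkC S.ar S.Co s x m → ¬ ∃ k, D.tag m k := fun m hm =>
          hy m (Relation.EqvGen.trans _ _ _ (Relation.EqvGen.symm _ _ hxy) hm)
        rcases ih hx with e | ⟨h1, h2, c, h3, h4, h5, h6⟩
        · exact Or.inl e.symm
        · exact Or.inr ⟨h2, h1, c, h3, h5, h4, Relation.EqvGen.symm _ _ h6⟩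
      | trans x y z hxy hyz ih1 ih2 =>
        intro hx
        have hy : ∀ m, LkC S.ar S.Co s y m → ¬ ∃ k, D.tag m k := fun m hm =>
          hx m (Relation.EqvGen.trans _ _ _ hxy hm)
        rcases ih1 hx with rfl | ⟨h1, h2, c, h3, h4, h5, h6⟩
        · exact ih2 hy
        · rcases ih2 hy with rfl | ⟨i1, i2, c', i3, i4, i5, i6⟩
          · exact Or.inr ⟨h1, h2, c, h3, h4, h5, h6⟩
          · have hcc : c = c' := one_eq h2 h5 h3 i4 i3
            subst hcc
            exact Or.inr ⟨h1, i2, c, h3, h4, i5, Relation.EqvGen.trans _ _ _ h6 i6⟩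
    -- a point over `w` or `w'`
    have fin : ∀ (n : V) (g : H), S.ar n s → g • s = s → g • S.w = S.w → g • S.u = S.u →
        S.w ∈ S.J n → (n = g • n ∨ ∃ c, c ∈ S.J s ∧ c ∈ S.J n ∧
          Relation.EqvGen (Rl S s c) n (g • n)) → ¬ Rev S.JJ g := by
      intro n g hn hs hw hu hwn h
      rcases h with e | ⟨c, h1, h2, h3⟩
      · apply hhol n g hn hwn hs hw hu
        rw [← e]
        exact Relation.EqvGen.refl _
      · have hcw : c = S.w := one_eq hn h2 h1 hwn D.mw
        subst hcw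
        exact hhol n g hn hwn hs hw hu h3
    have hk : n = g • n ∨ ∃ c, c ∈ S.J s ∧ c ∈ S.J n ∧ Relation.EqvGen (Rl S s c) n (g • n) := by
      rcases key _ _ h htm with e | ⟨-, -, c, h1, h2, -, h3⟩
      · exact Or.inl e
      · exact Or.inr ⟨c, h1, h2, h3⟩
    rcases D.node_cases ha hn with h1 | h1 | ⟨g1, -, e⟩
    · exact fin n g hn hs hw hu h1 hk
    · -- apply `r`
      have i1 : D.r⁻¹ • s = s := by rw [inv_smul_eq_iff, D.rs]
      have i2 : D.r⁻¹ • S.w = S.w' := by rw [inv_smul_eq_iff, D.rw2]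
      have i3 : D.r⁻¹ • S.u = S.u := by rw [inv_smul_eq_iff, D.ru]
      have hcj := (rev_conj_iff (S := S) (g := g) D.ru)
      rw [← hcj]
      have hsm : (D.r * g * D.r⁻¹) • D.r • n = D.r • g • n := by
        rw [mul_smul, mul_smul, inv_smul_smul]
      apply fin (D.r • n) (D.r * g * D.r⁻¹)
      · have := S.ar_smul D.r _ _ hn
        rwa [D.rs] at this
      · rw [mul_smul, mul_smul, i1, hs, D.rs]
      · rw [mul_smul, mul_smul, i2, fix_w' hw hu, D.rw2]
      · rw [mul_smul, mul_smul, i3, hu, D.ru]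
      · have := S.J_smul D.r _ _ h1
        rwa [D.rw2] at this
      · rw [hsm]
        rcases hk with e | ⟨c, h4, h5, h6⟩
        · left
          rw [← e]
        · right
          refine ⟨D.r • c, ?_, S.J_smul _ _ _ h5, ?_⟩
          · have := S.J_smul D.r _ _ h4
            rwa [D.rs] at this
          · have := Rl.smul D.r h6
            rwa [D.rs] at this
    · exact absurd (hlost n g1 hn e) ht

end RevD

end T5

end Pool.Agent.DI
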