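import Pool.Agent.DI.GXAdd

/-!
# DI/Short: other cells on the same graph, cells which share a path

`GX.recell`: the same graph with other cells. `SD.short`: the cells in `I0` contain the path
`g b, g l` (`D.l` is a walk from `b` to `a`); the new soft `d = {a, b}` and ONE new cell
`(a, d, b, l)` replace this path by `b, d, a` in all these cells.
-/

namespace Pool.Agent.DI

open MulAction
open Pool.Agent.SAF (InC orbs FinOrb oc)

variable {H V : Type} [Group H] [MulAction H V]

/-- the same graph with other cells -/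
def GX.recell (K : GX H V) {I' : Type} (fI : Finite I') (cb' : I' → V) (cw' : I' → List V)
    (hE : ∀ i, Wk K.E (cb' i) (cw' i)) (ht : ∀ i, tg (cb' i) (cw' i) = cb' i)
    (h : ∀ φ, Coc H cb' cw' φ → ∀ i, ps φ (K.cb i) (K.cw i) = 0) : GX H V where
  ar := K.ar
  rk := K.rk
  I := I'
  finI := fI
  cb := cb'
  cw := cw'
  ar_rk := K.ar_rk
  ar_smul := K.ar_smul
  rk_smul := K.rk_smul
  two := K.two
  c_E := hE
  c_tg := ht
  ne := K.ne
  conn := K.conn
  H1 := by
    intro φ hs hc
    apply K.H1 φ hs
    intro i k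
    have c : Coc H cb' cw' φ := ⟨hs, hc⟩
    have := h _ (c.smul k) i
    rw [← ps_map (fun z => k • z) φ] at this
    exact this
  fin := K.fin
  stab := K.stab

namespace SD

variable {K : GX H V} (D : SD K) (I0 : Set K.I) (g : K.I → H) (rl : K.I → List V)

open Classical in
/-- base vertices of the new cells -/
noncomputable def scb : K.I ⊕ Unit → V ⊕ H ⧸ D.D
  | Sum.inl i => if i ∈ I0 then Sum.inl (g i • D.b) else Sum.inl (K.cb i)
  | Sum.inr _ => Sum.inl D.a

open Classical in
/-- further vertices of the new cells -/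
noncomputable def scw : K.I ⊕ Unit → List (V ⊕ H ⧸ D.D)
  | Sum.inl i => if i ∈ I0 then
      Sum.inr ((g i : H) : H ⧸ D.D) :: Sum.inl (g i • D.a) :: (rl i).map Sum.inl
      else (K.cw i).map Sum.inl
  | Sum.inr _ => Sum.inr ((1 : H) : H ⧸ D.D) :: Sum.inl D.b :: D.l.map Sum.inl

variable {I0 g rl}

theorem scb_pos {i : K.I} (h : i ∈ I0) : D.scb I0 g (Sum.inl i) = Sum.inl (g i • D.b) := by
  show (open Classical in if i ∈ I0 then _ else _) = _
  rw [if_pos h]

theorem scb_neg {i : K.I} (h : i ∉ I0) : D.scb I0 g (Sum.inl i) = Sum.inl (K.cb i) := by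
  show (open Classical in if i ∈ I0 then _ else _) = _
  rw [if_neg h]

theorem scw_pos {i : K.I} (h : i ∈ I0) : D.scw I0 g rl (Sum.inl i) =
    Sum.inr ((g i : H) : H ⧸ D.D) :: Sum.inl (g i • D.a) :: (rl i).map Sum.inl := by
  show (open Classical in if i ∈ I0 then _ else _) = _
  rw [if_pos h]

theorem scw_neg {i : K.I} (h : i ∉ I0) : D.scw I0 g rl (Sum.inl i) = (K.cw i).map Sum.inl := by
  show (open Classical in if i ∈ I0 then _ else _) = _
  rw [if_neg h]

/-- the complex with the shortened cells -/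
noncomputable def short (h1 : ∀ i ∈ I0, Wk K.E (g i • D.a) (rl i))
    (h2 : ∀ i ∈ I0, tg (g i • D.a) (rl i) = g i • D.b)
    (h3 : ∀ i ∈ I0, ∀ φ : V → V → ZMod 2, (∀ x y, φ x y = φ y x) →
      ps φ (K.cb i) (K.cw i) =
        ps φ (g i • D.b) (D.l.map (fun z => g i • z)) + ps φ (g i • D.a) (rl i)) :
    GX H (V ⊕ H ⧸ D.D) :=
  D.ns.add.recell (I' := K.I ⊕ Unit) (by
      have := K.finI
      infer_instance) (D.scb I0 g) (D.scw I0 g rl)
    (by
      rintro (i | u)
      · by_cases hi : i ∈ I0
        · rw [D.scb_pos hi, D.scw_pos hi]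
          refine ⟨Or.inr (D.pl_mk.2 (Or.inr rfl)), Or.inl (D.pl_mk.2 (Or.inl rfl)),
            Wk_map Sum.inl (fun _ _ e => e) (h1 i hi)⟩
        · rw [D.scb_neg hi, D.scw_neg hi]
          exact Wk_map Sum.inl (fun _ _ e => e) (K.c_E i)
      · exact D.ns.add.c_E (Sum.inr ()))
    (by
      rintro (i | u)
      · by_cases hi : i ∈ I0
        · rw [D.scb_pos hi, D.scw_pos hi, tg_cons, tg_cons, tg_map Sum.inl, h2 i hi]
        · rw [D.scb_neg hi, D.scw_neg hi, tg_map Sum.inl, K.c_tg]
      · exact D.ns.add.c_tg (Sum.inr ()))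
    (by
      intro φ c i
      rcases i with i | u
      · have e0 : ps φ (D.ns.add.cb (Sum.inl i)) (D.ns.add.cw (Sum.inl i)) =
            ps φ (Sum.inl (K.cb i)) ((K.cw i).map Sum.inl) := rfl
        rw [e0]
        by_cases hi : i ∈ I0
        · have k1 := c.2 (Sum.inl i) 1
          rw [D.scb_pos hi, D.scw_pos hi] at k1
          simp only [one_smul, List.map_id'] at k1
          rw [ps_cons, ps_cons, ps_map Sum.inl] at k1
          have k2 := c.2 (Sum.inr ()) (g i)
          have k2 : φ (Sum.inl (g i • D.a)) (Sum.inr ((g i : H) : H ⧸ D.D)) +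
              (φ (Sum.inr ((g i : H) : H ⧸ D.D)) (Sum.inl (g i • D.b)) +
                ps φ (Sum.inl (g i • D.b)) ((D.l.map Sum.inl : List (V ⊕ H ⧸ D.D)).map
                  (fun z => g i • z))) = 0 := by
            have e1 : g i • ((1 : H) : H ⧸ D.D) = ((g i : H) : H ⧸ D.D) := by
              change ((g i * 1 : H) : H ⧸ D.D) = _
              rw [mul_one]
            have k3 : φ (Sum.inl (g i • D.a)) (Sum.inr (g i • ((1 : H) : H ⧸ D.D))) +
              (φ (Sum.inr (g i • ((1 : H) : H ⧸ D.D))) (Sum.inl (g i • D.b)) +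
                ps φ (Sum.inl (g i • D.b)) ((D.l.map Sum.inl : List (V ⊕ H ⧸ D.D)).map
                  (fun z => g i • z))) = 0 := k2
            rw [e1] at k3
            exact k3
          have e2 : (D.l.map Sum.inl : List (V ⊕ H ⧸ D.D)).map (fun z => g i • z) =
              (D.l.map (fun z => g i • z)).map Sum.inl := by
            rw [List.map_map, List.map_map]
            rfl
          rw [e2, ps_map Sum.inl] at k2
          rw [ps_map Sum.inl, h3 i hi _ (fun x y => c.1 _ _)]
          rw [c.1 (Sum.inl (g i • D.a)), c.1 (Sum.inr ((g i : H) : H ⧸ D.D)) (Sum.inl (g i • D.b))]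
            at k2
          have z1 := CharTwo.add_self_eq_zero (φ (Sum.inr ((g i : H) : H ⧸ D.D))
            (Sum.inl (g i • D.a)))
          have z2 := CharTwo.add_self_eq_zero (φ (Sum.inl (g i • D.b))
            (Sum.inr ((g i : H) : H ⧸ D.D)))
          linear_combination k1 + k2 - z1 - z2
        · have k1 := c.2 (Sum.inl i) 1
          rw [D.scb_neg hi, D.scw_neg hi] at k1
          simp only [one_smul, List.map_id'] at k1
          exact k1
      · have k1 := c.2 (Sum.inr ()) 1
        simp only [one_smul, List.map_id'] at k1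
        exact k1)

open Classical in
theorem short_area [Fintype K.I] {h1 : ∀ i ∈ I0, Wk K.E (g i • D.a) (rl i)} {h2} {h3} :
    (D.short (I0 := I0) (g := g) (rl := rl) h1 h2 h3).area = (D.l.length - 2) +
      ∑ i, (if i ∈ I0 then (rl i).length - 2 else (K.cw i).length - 4) := by
  have e : (D.short (I0 := I0) (g := g) (rl := rl) h1 h2 h3).area =
      ∑ i : K.I ⊕ Unit, ((D.scw I0 g rl i).length - 4) :=
    finsum_eq_sum_of_fintype (fun i : K.I ⊕ Unit => (D.scw I0 g rl i).length - 4)
  rw [e, Fintype.sum_sum_type, add_comm]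
  congr 1
  · rw [Fintype.sum_unique]
    show (Sum.inr ((1 : H) : H ⧸ D.D) :: Sum.inl D.b :: D.l.map Sum.inl).length - 4 = _
    rw [List.length_cons, List.length_cons, List.length_map]
    omega
  · refine Finset.sum_congr rfl fun i _ => ?_
    by_cases hi : i ∈ I0
    · rw [D.scw_pos hi, if_pos hi, List.length_cons, List.length_cons, List.length_map]
      omega
    · rw [D.scw_neg hi, if_neg hi, List.length_map]

end SD

end Pool.Agent.DI
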