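import Pool.Agent.DI.PQ3
import Pool.Agent.DI.Short
import Pool.Agent.SAG.AG

/-!
# DI/CPath: the common path lemma

`C : CPd P`: a soft `v` with poles `a`, `b`, a union `R` of pieces of `v` (`C.D : PcD P`), possibly
also the direct corners `(a, v, b)` (`C.dir`, only if no element of the stabiliser of `v` exchanges the
poles), such that every cell which passes `(x, v, b)`, `x ∈ R` (or `x = a`), goes on to one and the
same pole `t` of `b` (modulo the stabiliser of `v` and `a`). Then in a minimal complex `R` (with the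
direct corners) has at most one corner at the pole `a`.
-/

namespace Pool.Agent.DI

open MulAction
open Pool.Agent.SAF (InC orbs FinOrb oc)
open Pool.Agent.BT (PX)

variable {H V : Type} [Group H] [MulAction H V] {K : GX H V}

/-! ### sums along folded walks -/

section Fold

variable {V' : Type} (f : V → V') (φ : V' → V' → ZMod 2)

/-- the cochain pulled back along a map -/
noncomputable def pf (x y : V) : ZMod 2 := ps φ (f x) (fw f x y)

theorem pf_eq {x y : V} (h : f y = f x) : pf f φ x y = 0 := by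
  unfold pf
  rw [fw_eq h]
  rfl

theorem pf_ne {x y : V} (h : f y ≠ f x) : pf f φ x y = φ (f x) (f y) := by
  unfold pf
  rw [fw_ne h]
  simp

theorem pf_symm (hs : ∀ x y, φ x y = φ y x) (x y : V) : pf f φ x y = pf f φ y x := by
  by_cases h : f y = f x
  · rw [pf_eq f φ h, pf_eq f φ h.symm]
  · rw [pf_ne f φ h, pf_ne f φ (Ne.symm h), hs]

theorem ps_dst1 (x : V) (l : List V) : ps φ (f x) (dst (f x) (l.map f)) = ps (pf f φ) x l := by
  induction l generalizing x with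
  | nil => rfl
  | cons y l ih =>
    by_cases h : f y = f x
    · rw [List.map_cons, dst_cons_eq h, ← h, ih y, ps_cons, pf_eq f φ h, zero_add]
    · rw [List.map_cons, dst_cons_ne h, ps_cons, ih y, ps_cons, pf_ne f φ h]

end Fold

/-- the sum along the words of a slide, as a sum of a symmetric function -/
theorem Sl.ps_w (S : Sl K) (φ : V → V → ZMod 2) (i : K.I) :
    ps φ (K.cb i) (sub S.w (K.cb i) (K.cw i)) =
      ps (fun x y => ps φ x (S.w x y)) (K.cb i) (K.cw i) :=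
  ps_sub (f := fun x : V => x) (w := S.w) (E := K.E) (fun x y _ => by
    unfold Sl.w
    split_ifs <;> rfl) φ (K.c_E i : Wk K.E (K.cb i) (K.cw i))

theorem Sl.w_symm (S : Sl K) {φ : V → V → ZMod 2} (hs : ∀ x y, φ x y = φ y x) (x y : V) :
    ps φ x (S.w x y) = ps φ y (S.w y x) := by
  by_cases h1 : S.mv x y
  · rw [S.w_mv h1, S.w_vm h1]
    simp only [ps_cons, ps_nil]
    rw [hs x, hs _ y]
    ring
  · by_cases h2 : S.mv y x
    · rw [S.w_mv h2, S.w_vm h2]
      simp only [ps_cons, ps_nil]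
      rw [hs x, hs _ y]
      ring
    · rw [S.w_not h1 h2, S.w_not h2 h1]
      simp only [ps_cons, ps_nil]
      rw [hs x]

/-- the first inequality behind `PQd.sum_nonneg` -/
theorem PQd.key {P : Pt K} (Q : PQd P) (hm : K.Min) (i : K.I) :
    max 0 (((Q.fo.gx.cw i).length : ℤ) - 4) + max 0 (1 + Q.tN i) ≤ 2 + Q.t i := by
  have l1 : ((Q.fo.gx.cw i).length : ℤ) + stn Q.ff (Q.S.gx.cb i) (Q.S.gx.cw i) = 5 + Q.t i := by
    have e1 : ((Q.fo.gx.cw i).length : ℤ) + stn Q.ff (Q.S.gx.cb i) (Q.S.gx.cw i) =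
        (Q.S.gx.cw i).length := by exact_mod_cast Q.fo.gx_length i
    rw [e1]
    exact P.slide_length Q.S i
  have l2 : (0 : ℤ) ≤ stn Q.ff (Q.S.gx.cb i) (Q.S.gx.cw i) := by positivity
  have l3 := Q.tN_le hm i
  rcases le_or_gt (Q.t i) (-2) with h | h
  · obtain ⟨h3, h4⟩ := Q.two_le i h
    rw [max_eq_left (by omega), max_eq_left (by omega)]
    omega
  · rcases le_or_gt (Q.tN i) 0 with h' | h'
    · have m1 : max 0 (((Q.fo.gx.cw i).length : ℤ) - 4) ≤ 1 + Q.t i :=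
        max_le (by omega) (by omega)
      have m2 : max 0 (1 + Q.tN i) ≤ 1 := max_le (by omega) (by omega)
      omega
    · obtain ⟨h3, c, a, h4, h5, h6⟩ := Q.tN_pos hm i (by omega)
      have := Q.stn_one a h4 h5 h6
      have l4 : (1 : ℤ) ≤ stn Q.ff (Q.S.gx.cb i) (Q.S.gx.cw i) := by exact_mod_cast this
      have m1 : max 0 (((Q.fo.gx.cw i).length : ℤ) - 4) ≤ Q.t i :=
        max_le (by omega) (by omega)
      have m2 : max 0 (1 + Q.tN i) ≤ 2 := max_le (by omega) (by omega)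
      omega

theorem PQd.ff_low {P : Pt K} (Q : PQd P) {x : V} (h : K.rk x ≤ Q.ρ) : Q.ff x = x := by
  apply Q.ff_not
  intro k
  obtain ⟨w, hw⟩ := Q.N_mv k
  have := Q.lt1 hw
  omega

/-! ### the data -/

/-- the data of the common path lemma -/
structure CPd (P : Pt K) where
  D : PcD P
  t : V
  bt : K.ar D.b t
  dir : Prop
  hd : dir → ∀ g : H, g • D.v = D.v → g • D.a = D.a
  stk : ∀ (c : Fin 5 → V) (i : K.I), P.At c i → (c 0 ∈ D.R ∨ (dir ∧ c 0 = D.a)) → c 1 = D.v →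
    c 2 = D.b → ∃ r : H, r • D.v = D.v ∧ r • D.a = D.a ∧ c 3 = r • t

namespace CPd

variable {P : Pt K} (C : CPd P)

/-- the slide -/
noncomputable abbrev Q : PQd P := C.D.pqd

/-- direct corners -/
def dc (x y z : V) : Prop := C.dir ∧ ∃ h : H, y = h • C.D.v ∧
  ((x = h • C.D.a ∧ z = h • C.D.b) ∨ (x = h • C.D.b ∧ z = h • C.D.a))

/-- the corners which are counted -/
def cc (x y z : V) : Prop := C.D.ca x y z ∨ C.dc x y z

open Classical in
/-- the number at a corner -/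
noncomputable def lf (x y z : V) : ℤ := if C.cc x y z then 1 else 0

/-- the number of corners of a cell which are counted -/
noncomputable def ln (i : K.I) : ℤ := ∑ j, C.lf (P.pt i j) (P.pt i (j + 1)) (P.pt i (j + 2))

theorem cc_symm (x y z : V) : C.cc x y z ↔ C.cc z y x := by
  have h : ∀ x y z, C.cc x y z → C.cc z y x := by
    rintro x y z (⟨h, h1, h2 | h2⟩ | ⟨hd, h, h1, ⟨h2, h3⟩ | ⟨h2, h3⟩⟩)
    · exact Or.inl ⟨h, h1, Or.inr h2⟩
    · exact Or.inl ⟨h, h1, Or.inl h2⟩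
    · exact Or.inr ⟨hd, h, h1, Or.inr ⟨h3, h2⟩⟩
    · exact Or.inr ⟨hd, h, h1, Or.inl ⟨h3, h2⟩⟩
  exact ⟨h x y z, h z y x⟩

theorem cc_smul (k : H) {x y z : V} (e : C.cc x y z) : C.cc (k • x) (k • y) (k • z) := by
  rcases e with ⟨h, h1, h2⟩ | ⟨hd, h, h1, ⟨h2, h3⟩ | ⟨h2, h3⟩⟩
  · refine Or.inl ⟨k * h, by rw [h1, mul_smul], ?_⟩
    rw [mul_inv_rev, mul_smul, mul_smul, mul_smul, inv_smul_smul, inv_smul_smul]
    rcases h2 with ⟨h2, h3⟩ | ⟨h2, h3⟩
    · exact Or.inl ⟨h2, by rw [h3]⟩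
    · exact Or.inr ⟨h2, by rw [h3]⟩
  · exact Or.inr ⟨hd, k * h, by rw [h1, mul_smul],
      Or.inl ⟨by rw [h2, mul_smul], by rw [h3, mul_smul]⟩⟩
  · exact Or.inr ⟨hd, k * h, by rw [h1, mul_smul],
      Or.inr ⟨by rw [h2, mul_smul], by rw [h3, mul_smul]⟩⟩

theorem cc_iff (k : H) (x y z : V) : C.cc (k • x) (k • y) (k • z) ↔ C.cc x y z := by
  refine ⟨fun e => ?_, C.cc_smul k⟩
  have := C.cc_smul k⁻¹ e
  rwa [inv_smul_smul, inv_smul_smul, inv_smul_smul] at this

theorem lf_pos {x y z : V} (h : C.cc x y z) : C.lf x y z = 1 := by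
  unfold lf
  rw [if_pos h]

theorem lf_neg {x y z : V} (h : ¬ C.cc x y z) : C.lf x y z = 0 := by
  unfold lf
  rw [if_neg h]

theorem lf_congr {x y z x' y' z' : V} (h : C.cc x y z ↔ C.cc x' y' z') :
    C.lf x y z = C.lf x' y' z' := by
  by_cases k : C.cc x y z
  · rw [C.lf_pos k, C.lf_pos (h.1 k)]
  · rw [C.lf_neg k, C.lf_neg (fun e => k (h.2 e))]

theorem ln_eq {c : Fin 5 → V} {i : K.I} (a : P.At c i) :
    C.ln i = ∑ j, C.lf (c j) (c (j + 1)) (c (j + 2)) :=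
  (a.corners (F := C.lf) (fun x y z => C.lf_congr (C.cc_symm x y z))
    (fun h x y z => C.lf_congr (C.cc_iff h x y z))).symm

theorem cn_eq : (K.cr.cn C.cc : ℤ) = ∑ i, C.ln i := by
  rw [K.cr.cn_eq, P.cs_eq]
  rfl

/-- a translate of `v` -/
def T (u : V) : Prop := ∃ g : H, u = g • C.D.v

theorem rkT {u : V} (h : C.T u) : K.rk u = K.rk C.D.v := by
  obtain ⟨g, rfl⟩ := h
  exact K.rk_smul g _

theorem lf_not {x u z : V} (h : ¬ C.T u) : C.lf x u z = 0 := by
  apply C.lf_neg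
  rintro (⟨g, e, -⟩ | ⟨-, g, e, -⟩)
  · exact h ⟨g, e⟩
  · exact h ⟨g, e⟩

theorem M_T {u : V} (h : C.Q.S.M u) : C.T u := by
  obtain ⟨n, g, -, e⟩ := h
  exact ⟨g, e⟩

theorem s_not {x u z : V} (h : ¬ C.T u) : C.Q.s x u z = 0 :=
  sg_of_not (fun k => h (C.M_T k))

theorem sN_not {x u z : V} (h : ¬ C.T u) : C.Q.sN x u z = 0 :=
  sg_of_not (fun ⟨n, hn⟩ => h (C.M_T ⟨n, hn.1⟩))

/-- stacked cells -/
def St (i : K.I) : Prop := ∃ c : Fin 5 → V, P.At c i ∧
  (c 0 ∈ C.D.R ∨ (C.dir ∧ c 0 = C.D.a)) ∧ c 1 = C.D.v ∧ c 2 = C.D.b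

theorem rk_a : K.rk C.D.a < K.rk C.D.v := K.ar_rk _ _ C.D.va

theorem rk_b : K.rk C.D.b < K.rk C.D.v := K.ar_rk _ _ C.D.vb

theorem rk_t : K.rk C.t < K.rk C.D.b := K.ar_rk _ _ C.bt

/-- neighbours of smaller rank -/
theorem out {g : H} {z : V} (e : K.ar (g • C.D.v) z) : z = g • C.D.a ∨ z = g • C.D.b := by
  rcases K.two _ _ _ _ e (K.ar_smul g _ _ C.D.va) (K.ar_smul g _ _ C.D.vb) with h | h | h
  · exact Or.inl h
  · exact absurd (smul_left_cancel g h) C.D.ab
  · exact Or.inr h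

/-- the pole `b` is fixed by the elements which fix `v` and `a` -/
theorem stk_ar {c : Fin 5 → V} {i : K.I} {g : H} (a : P.At c i)
    (h0 : g⁻¹ • c 0 ∈ C.D.R ∨ (C.dir ∧ c 0 = g • C.D.a)) (h1 : c 1 = g • C.D.v)
    (h2 : c 2 = g • C.D.b) : K.ar (c 2) (c 3) := by
  obtain ⟨r, r1, r2, r3⟩ := C.stk (fun j => g⁻¹ • c j) i (a.smul g⁻¹) (by
    rcases h0 with h0 | ⟨h0, h0'⟩
    · exact Or.inl h0
    · exact Or.inr ⟨h0, by rw [h0', inv_smul_smul]⟩) (by rw [h1, inv_smul_smul])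
    (by rw [h2, inv_smul_smul])
  have e := K.ar_smul (g * r) _ _ C.bt
  rw [mul_smul, mul_smul, C.D.fix_b r1 r2, ← r3, smul_inv_smul, ← h2] at e
  exact e

/-- normal form of a stacked cell -/
theorem st_data {i : K.I} (h : C.St i) : ∃ (c : Fin 5 → V) (g : H), P.At c i ∧
    (g⁻¹ • c 0 ∈ C.D.R ∨ (C.dir ∧ c 0 = g • C.D.a)) ∧ c 1 = g • C.D.v ∧ c 2 = g • C.D.b ∧
    c 3 = g • C.t ∧ ∀ φ : V → V → ZMod 2, (∀ x y, φ x y = φ y x) →
      ∑ j, φ (c j) (c (j + 1)) = ps φ (K.cb i) (K.cw i) := by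
  obtain ⟨c, a, h0, h1, h2⟩ := h
  obtain ⟨r, r1, r2, r3⟩ := C.stk c i a h0 h1 h2
  have e1 : r⁻¹ • C.D.v = C.D.v := by rw [inv_smul_eq_iff, r1]
  have e2 : r⁻¹ • C.D.a = C.D.a := by rw [inv_smul_eq_iff, r2]
  have e3 := C.D.fix_b e1 e2
  obtain ⟨h, hh⟩ := (a.smul r⁻¹).sum'
  refine ⟨fun j => h • r⁻¹ • c j, h, (a.smul r⁻¹).smul h, ?_, ?_, ?_, ?_, fun φ hs => hh φ hs⟩
  · show h⁻¹ • h • r⁻¹ • c 0 ∈ C.D.R ∨ (C.dir ∧ h • r⁻¹ • c 0 = h • C.D.a)
    rw [inv_smul_smul]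
    rcases h0 with h0 | ⟨h0, h0'⟩
    · exact Or.inl (C.D.inv _ e1 e2 _ h0)
    · exact Or.inr ⟨h0, by rw [h0', e2]⟩
  · show h • r⁻¹ • c 1 = _
    rw [h1, e1]
  · show h • r⁻¹ • c 2 = _
    rw [h2, e3]
  · show h • r⁻¹ • c 3 = _
    rw [r3, inv_smul_smul]

theorem st_of {c : Fin 5 → V} {i : K.I} {g : H} (a : P.At c i)
    (h0 : g⁻¹ • c 0 ∈ C.D.R ∨ (C.dir ∧ c 0 = g • C.D.a)) (h1 : c 1 = g • C.D.v)
    (h2 : c 2 = g • C.D.b) : C.St i := by
  have e1 : g⁻¹ • c 1 = C.D.v := by rw [h1, inv_smul_smul]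
  have e2 : g⁻¹ • c 2 = C.D.b := by rw [h2, inv_smul_smul]
  refine ⟨fun j => g⁻¹ • c j, a.smul g⁻¹, ?_, e1, e2⟩
  rcases h0 with h0 | ⟨h0, h0'⟩
  · exact Or.inl h0
  · have e0 : g⁻¹ • c 0 = C.D.a := by rw [h0', inv_smul_smul]
    exact Or.inr ⟨h0, e0⟩

/-! ### the other cells -/

theorem s_of_not {c : Fin 5 → V} {i : K.I} (a : P.At c i) (hi : ¬ C.St i) :
    C.Q.s (c 0) (c 1) (c 2) = - C.lf (c 0) (c 1) (c 2) := by
  classical
  have hB : ¬ C.Q.cB (c 0) (c 1) (c 2) := by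
    intro e
    rcases (C.D.cB_iff _ _ _).1 e with ⟨h, h1, ⟨h2, h3⟩ | ⟨h2, h3⟩⟩
    · exact hi (C.st_of a (Or.inl h2) h1 h3)
    · exact hi (C.st_of (a.refl 2) (Or.inl h2) h1 h3)
  have hd : ¬ C.dc (c 0) (c 1) (c 2) := by
    rintro ⟨hd, h, h1, ⟨h2, h3⟩ | ⟨h2, h3⟩⟩
    · exact hi (C.st_of a (Or.inr ⟨hd, h2⟩) h1 h3)
    · exact hi (C.st_of (a.refl 2) (Or.inr ⟨hd, h3⟩) h1 h2)
  rw [C.Q.s_eq a, if_neg hB]
  by_cases h : C.D.ca (c 0) (c 1) (c 2)
  · have h' : cA C.Q.S.mv C.Q.S.τ (c 0) (c 1) (c 2) := (C.D.cA_iff _ _ _).2 h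
    rw [if_pos h', C.lf_pos (Or.inl h)]
    rfl
  · have h' : ¬ cA C.Q.S.mv C.Q.S.τ (c 0) (c 1) (c 2) := fun k => h ((C.D.cA_iff _ _ _).1 k)
    rw [if_neg h', C.lf_neg (by rintro (k | k); exacts [h k, hd k])]
    rfl

theorem t_of_not {i : K.I} (hi : ¬ C.St i) : C.Q.t i = - C.ln i := by
  unfold PQd.t ln
  rw [← Finset.sum_neg_distrib]
  refine Finset.sum_congr rfl fun j _ => ?_
  have a := (P.at_pt i).rot j
  have h := C.s_of_not a hi
  have h : C.Q.s (P.pt i (j + 0)) (P.pt i (j + 1)) (P.pt i (j + 2)) =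
    - C.lf (P.pt i (j + 0)) (P.pt i (j + 1)) (P.pt i (j + 2)) := h
  rwa [add_zero] at h

/-! ### the stacked cells -/

/-- the new walk of a stacked cell -/
theorem st_cell (hm : K.Min) {i : K.I} (hi : C.St i) : ∃ (g : H) (rl : List V),
    Wk C.Q.S.gx.E (g • C.t) rl ∧ tg (g • C.t) rl = g • C.D.a ∧
    (∀ φ : V → V → ZMod 2, (∀ x y, φ x y = φ y x) →
      ps φ (K.cb i) (sub C.Q.S.w (K.cb i) (K.cw i)) =
        ps φ (g • C.D.a) [g • C.D.v, g • C.D.b, g • C.t] + ps φ (g • C.t) rl) ∧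
    max 0 ((rl.length : ℤ) - stn C.Q.ff (g • C.t) rl - 2) + max 0 (1 + C.Q.tN i) ≤
      2 - C.ln i := by
  classical
  obtain ⟨c, g, a, h0, h1, h2, h3, hs⟩ := C.st_data hi
  have rka := C.rk_a
  have rkb := C.rk_b
  have rkt := C.rk_t
  have r1 : K.rk (c 1) = K.rk C.D.v := by rw [h1, K.rk_smul]
  have r2 : K.rk (c 2) = K.rk C.D.b := by rw [h2, K.rk_smul]
  have r3 : K.rk (c 3) = K.rk C.t := by rw [h3, K.rk_smul]
  have T1 : C.T (c 1) := ⟨g, h1⟩
  have T2 : ¬ C.T (c 2) := fun k => by have := C.rkT k; omega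
  have T3 : ¬ C.T (c 3) := fun k => by have := C.rkT k; omega
  have T0 : ¬ C.T (c 0) := by
    intro k
    have := C.rkT k
    rcases h0 with h0 | ⟨-, h0⟩
    · have := K.ar_rk _ _ (C.D.R_ar _ h0)
      rw [K.rk_smul] at this
      omega
    · rw [h0, K.rk_smul] at this
      omega
  have mT : ∀ {n u}, C.Q.S.mv n u → C.T u := fun {n u} h => C.M_T ⟨n, h⟩
  have mr : ∀ {n u}, C.Q.S.mv n u → K.rk C.D.v < K.rk n := by
    intro n u h
    have := K.ar_rk _ _ (C.Q.S.mv_ar _ _ h)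
    rwa [C.rkT (mT h)] at this
  have e34 : K.E (c 3) (c 4) := a.E 3
  have e40 : K.E (c 4) (c 0) := a.E 4
  have n41 : c 4 ≠ c 1 := a.ne2 hm 4
  have n30 : c 3 ≠ c 0 := a.ne2 hm 3
  -- sums
  have hln : C.ln i = C.lf (c 0) (c 1) (c 2) + C.lf (c 3) (c 4) (c 0) := by
    rw [C.ln_eq a, Fin.sum_univ_five]
    have f1 : C.lf (c 1) (c (1 + 1)) (c (1 + 2)) = 0 := C.lf_not T2
    have f2 : C.lf (c 2) (c (2 + 1)) (c (2 + 2)) = 0 := C.lf_not T3
    have f4 : C.lf (c 4) (c (4 + 1)) (c (4 + 2)) = 0 := C.lf_not T0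
    rw [f1, f2, f4]
    show C.lf (c 0) (c 1) (c 2) + 0 + 0 + C.lf (c 3) (c 4) (c 0) + 0 = _
    ring
  have htN : C.Q.tN i = C.Q.sN (c 0) (c 1) (c 2) + C.Q.sN (c 3) (c 4) (c 0) := by
    rw [C.Q.tN_eq a, Fin.sum_univ_five]
    have f1 : C.Q.sN (c 1) (c (1 + 1)) (c (1 + 2)) = 0 := C.sN_not T2
    have f2 : C.Q.sN (c 2) (c (2 + 1)) (c (2 + 2)) = 0 := C.sN_not T3
    have f4 : C.Q.sN (c 4) (c (4 + 1)) (c (4 + 2)) = 0 := C.sN_not T0
    rw [f1, f2, f4]
    show C.Q.sN (c 0) (c 1) (c 2) + 0 + 0 + C.Q.sN (c 3) (c 4) (c 0) + 0 = _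
    ring
  have hsum : ∀ φ : V → V → ZMod 2, (∀ x y, φ x y = φ y x) →
      ps φ (K.cb i) (sub C.Q.S.w (K.cb i) (K.cw i)) =
        ps φ (c 0) (C.Q.S.w (c 0) (c 1)) + φ (c 1) (c 2) + φ (c 2) (c 3) + φ (c 3) (c 4) +
          ps φ (c 4) (C.Q.S.w (c 4) (c 0)) := by
    intro φ hφ
    rw [C.Q.S.ps_w, ← hs _ (C.Q.S.w_symm hφ), Fin.sum_univ_five]
    have w1 : C.Q.S.w (c 1) (c 2) = [c 2] := C.Q.S.w_not (fun k => T2 (mT k)) (fun k => by
      have := mr k
      omega)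
    have w2 : C.Q.S.w (c 2) (c 3) = [c 3] := C.Q.S.w_not (fun k => T3 (mT k))
      (fun k => T2 (mT k))
    have w3 : C.Q.S.w (c 3) (c 4) = [c 4] := C.Q.S.w_not (fun k => by
      have := mr k
      omega) (fun k => T3 (mT k))
    show ps φ (c 0) (C.Q.S.w (c 0) (c 1)) + ps φ (c 1) (C.Q.S.w (c 1) (c 2)) +
      ps φ (c 2) (C.Q.S.w (c 2) (c 3)) + ps φ (c 3) (C.Q.S.w (c 3) (c 4)) +
      ps φ (c 4) (C.Q.S.w (c 4) (c 0)) = _
    rw [w1, w2, w3]
    simp only [ps_cons, ps_nil, add_zero]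
  -- the other end of the cell
  have E34 : C.Q.S.gx.E (c 3) (c 4) := C.Q.S.E'_of e34 (fun k => by
    have := mr k
    omega) (fun k => T3 (mT k))
  by_cases hx : g⁻¹ • c 0 ∈ C.D.R
  · -- a moved vertex at `c 1`
    have m01 : C.Q.S.mv (c 0) (c 1) := ⟨g, hx, h1⟩
    have τ01 : C.Q.S.τ (c 0) (c 1) = g • C.D.a := C.D.τ_eq hx h1
    have r0 := mr m01
    have w0 : C.Q.S.w (c 0) (c 1) = [g • C.D.a, c 1] := by rw [C.Q.S.w_mv m01, τ01]
    have E0a : C.Q.S.gx.E (c 0) (g • C.D.a) := by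
      have := C.Q.S.E'_τ m01
      rwa [τ01] at this
    have l0 : C.lf (c 0) (c 1) (c 2) = 0 := by
      apply C.lf_neg
      rintro (⟨h, k1, ⟨k2, k3⟩ | ⟨k2, k3⟩⟩ | ⟨-, h, k1, ⟨k2, k3⟩ | ⟨k2, k3⟩⟩)
      · have e1 : (h⁻¹ * g) • C.D.v = C.D.v := by
          rw [mul_smul, ← h1, k1, inv_smul_smul]
        have e2 : (h⁻¹ * g) • g⁻¹ • c 0 ∈ C.D.R := by
          rw [mul_smul, smul_inv_smul]
          exact k2
        have e3 := C.D.fix_b e1 (C.D.stab _ e1 _ hx e2)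
        rw [mul_smul, ← h2, k3, inv_smul_smul] at e3
        exact C.D.ab e3
      · have := K.ar_rk _ _ (C.D.R_ar _ k2)
        rw [K.rk_smul] at this
        omega
      · rw [k2, K.rk_smul] at r0
        omega
      · rw [k2, K.rk_smul] at r0
        omega
    have s0 : C.Q.sN (c 0) (c 1) (c 2) = if C.Q.N (c 0) then 1 else 0 := by
      have hz : ¬ C.Q.SN.mv (c 2) (c 1) := fun k => by
        have := mr k.1
        omega
      split_ifs with hN
      · refine sg_mv_not (mv := C.Q.SN.mv) (τ := C.Q.SN.τ) ⟨m01, hN⟩ hz ?_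
        show c 2 ≠ C.Q.S.τ (c 0) (c 1)
        rw [τ01, h2]
        exact fun e => C.D.ab (smul_left_cancel g e).symm
      · exact sg_not_not (mv := C.Q.SN.mv) (τ := C.Q.SN.τ) (fun k => hN k.2) hz
    by_cases hy : C.Q.S.mv (c 0) (c 4)
    · -- the cell is also shortened at `c 4`
      have hN : ¬ C.Q.N (c 0) := by
        intro hN
        exact n41 (C.Q.N_uniq hN (C.Q.S.mv_ar _ _ hy) (C.Q.S.mv_ar _ _ m01)
          (C.Q.rk1 _ _ hy) (C.Q.rk1 _ _ m01))
      obtain ⟨k, k1, k2⟩ := id hy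
      have τ04 : C.Q.S.τ (c 0) (c 4) = k • C.D.a := C.D.τ_eq k1 k2
      have ar43 : K.ar (c 4) (c 3) := by
        rcases e34 with e | e
        · have := K.ar_rk _ _ e
          rw [C.rkT (mT hy)] at this
          omega
        · exact e
      have h3a : c 3 = k • C.D.a := by
        rw [k2] at ar43
        rcases C.out ar43 with e | e
        · exact e
        · exfalso
          have := C.stk_ar (a.refl 0) (g := k) (Or.inl k1) k2 e
          have := K.ar_rk _ _ (show K.ar (c 3) (c 2) from this)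
          omega
      have l3 : C.lf (c 3) (c 4) (c 0) = 1 := C.lf_pos (Or.inl ⟨k, k2, Or.inr ⟨k1, h3a⟩⟩)
      have s3 : C.Q.sN (c 3) (c 4) (c 0) = 0 := by
        rw [C.Q.sN_symm, C.Q.sN_τ hy (by rw [τ04, h3a]), if_neg hN]
      refine ⟨g, [c 0, g • C.D.a], ⟨?_, E0a, trivial⟩, rfl, ?_, ?_⟩
      · rw [← h3, h3a, ← τ04]
        exact (C.Q.S.E'_τ hy).symm
      · intro φ hφ
        have w4 : C.Q.S.w (c 4) (c 0) = [c 3, c 0] := by rw [C.Q.S.w_vm hy, τ04, h3a]
        rw [hsum φ hφ, w0, w4, ← h1, ← h2, ← h3]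
        simp only [ps_cons, ps_nil, add_zero]
        have z := add_self_two (φ (c 3) (c 4))
        rw [hφ (c 4) (c 3)]
        linear_combination z
      · rw [hln, htN, l0, l3, s0, s3, if_neg hN]
        have : (0 : ℤ) ≤ stn C.Q.ff (g • C.t) [c 0, g • C.D.a] := by positivity
        rw [max_eq_left (by
          simp only [List.length_cons, List.length_nil]
          push_cast
          linarith)]
        norm_num
    · have l3 : C.lf (c 3) (c 4) (c 0) = 0 := by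
        apply C.lf_neg
        rintro (⟨h, k1, ⟨k2, k3⟩ | ⟨k2, k3⟩⟩ | ⟨-, h, k1, ⟨k2, k3⟩ | ⟨k2, k3⟩⟩)
        · have := K.ar_rk _ _ (C.D.R_ar _ k2)
          rw [K.rk_smul] at this
          omega
        · exact hy ⟨h, k2, k1⟩
        · rw [k3, K.rk_smul] at r0
          omega
        · rw [k3, K.rk_smul] at r0
          omega
      have s3 : C.Q.sN (c 3) (c 4) (c 0) = 0 :=
        sg_not_not (mv := C.Q.SN.mv) (τ := C.Q.SN.τ) (fun k => by
          have := mr k.1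
          omega) (fun k => hy k.1)
      have E40 : C.Q.S.gx.E (c 4) (c 0) := C.Q.S.E'_of e40 (fun k => T0 (mT k)) hy
      refine ⟨g, [c 4, c 0, g • C.D.a], ⟨?_, E40, E0a, trivial⟩, rfl, ?_, ?_⟩
      · rw [← h3]
        exact E34
      · intro φ hφ
        have w4 : C.Q.S.w (c 4) (c 0) = [c 0] := C.Q.S.w_not (fun k => T0 (mT k)) hy
        rw [hsum φ hφ, w0, w4, ← h1, ← h2, ← h3]
        simp only [ps_cons, ps_nil, add_zero]
        ring
      · rw [hln, htN, l0, l3, s0, s3]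
        by_cases hN : C.Q.N (c 0)
        · rw [if_pos hN]
          have : 1 ≤ stn C.Q.ff (g • C.t) [c 4, c 0, g • C.D.a] := by
            refine stn_pos (a := c 0) (b := g • C.D.a) ?_ [g • C.t, c 4] [] _ _ rfl
            rw [C.Q.ff_N hN m01, ← τ01, C.Q.ff_τ m01]
          have : (1 : ℤ) ≤ stn C.Q.ff (g • C.t) [c 4, c 0, g • C.D.a] := by exact_mod_cast this
          rw [max_eq_left (by
            simp only [List.length_cons, List.length_nil]
            push_cast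
            linarith)]
          norm_num
        · rw [if_neg hN]
          have : (0 : ℤ) ≤ stn C.Q.ff (g • C.t) [c 4, c 0, g • C.D.a] := by positivity
          have : max 0 ((([c 4, c 0, g • C.D.a].length : ℕ) : ℤ) -
              stn C.Q.ff (g • C.t) [c 4, c 0, g • C.D.a] - 2) ≤ 1 :=
            max_le (by norm_num) (by
              simp only [List.length_cons, List.length_nil]
              push_cast
              linarith)
          have e : max (0 : ℤ) (1 + (0 + 0)) = 1 := by norm_num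
          rw [e]
          linarith
  · -- a direct corner
    obtain ⟨hd, h0⟩ := h0.resolve_left hx
    have r0 : K.rk (c 0) = K.rk C.D.a := by rw [h0, K.rk_smul]
    have l0 : C.lf (c 0) (c 1) (c 2) = 1 := C.lf_pos (Or.inr ⟨hd, g, h1, Or.inl ⟨h0, h2⟩⟩)
    have s0 : C.Q.sN (c 0) (c 1) (c 2) = 0 :=
      sg_not_not (mv := C.Q.SN.mv) (τ := C.Q.SN.τ) (fun k => by
        have := mr k.1
        omega) (fun k => by
        have := mr k.1
        omega)
    have T4 : ¬ C.T (c 4) := by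
      rintro ⟨k, hk⟩
      have r4 : K.rk (c 4) = K.rk C.D.v := by rw [hk, K.rk_smul]
      have ar43 : K.ar (c 4) (c 3) := by
        rcases e34 with e | e
        · have := K.ar_rk _ _ e
          omega
        · exact e
      have ar40 : K.ar (c 4) (c 0) := by
        rcases e40 with e | e
        · exact e
        · have := K.ar_rk _ _ e
          omega
      rw [hk] at ar43 ar40
      rcases C.out ar43 with e3 | e3 <;> rcases C.out ar40 with e0 | e0
      · exact n30 (e3.trans e0.symm)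
      · have := C.stk_ar (a.rot 3) (g := k) (Or.inr ⟨hd, e3⟩) hk e0
        have := K.ar_rk _ _ (show K.ar (c 0) (c 1) from this)
        omega
      · have := C.stk_ar (a.refl 0) (g := k) (Or.inr ⟨hd, e0⟩) hk e3
        have := K.ar_rk _ _ (show K.ar (c 3) (c 2) from this)
        omega
      · exact n30 (e3.trans e0.symm)
    have l3 : C.lf (c 3) (c 4) (c 0) = 0 := C.lf_not T4
    have s3 : C.Q.sN (c 3) (c 4) (c 0) = 0 := C.sN_not T4
    have E40 : C.Q.S.gx.E (c 4) (c 0) := C.Q.S.E'_of e40 (fun k => T0 (mT k)) (fun k => T4 (mT k))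
    refine ⟨g, [c 4, g • C.D.a], ⟨?_, ?_, trivial⟩, rfl, ?_, ?_⟩
    · rw [← h3]
      exact E34
    · rw [← h0]
      exact E40
    · intro φ hφ
      have w0 : C.Q.S.w (c 0) (c 1) = [c 1] := C.Q.S.w_not (fun k => by
        have := mr k
        omega) (fun k => T0 (mT k))
      have w4 : C.Q.S.w (c 4) (c 0) = [c 0] := C.Q.S.w_not (fun k => T0 (mT k))
        (fun k => T4 (mT k))
      rw [hsum φ hφ, w0, w4, ← h0, ← h1, ← h2, ← h3]
      simp only [ps_cons, ps_nil, add_zero]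
      ring
    · rw [hln, htN, l0, l3, s0, s3]
      have : (0 : ℤ) ≤ stn C.Q.ff (g • C.t) [c 4, g • C.D.a] := by positivity
      rw [max_eq_left (by
        simp only [List.length_cons, List.length_nil]
        push_cast
        linarith)]
      norm_num

/-! ### the lemma -/

theorem ff_v (g : H) : C.Q.ff (g • C.D.v) = g • C.D.v :=
  C.Q.ff_low (K.rk_smul g _).le

theorem ff_a (g : H) : C.Q.ff (g • C.D.a) = g • C.D.a :=
  C.Q.ff_low (by
    have := C.rk_a
    rw [K.rk_smul]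
    exact this.le)

theorem ff_b (g : H) : C.Q.ff (g • C.D.b) = g • C.D.b :=
  C.Q.ff_low (by
    have := C.rk_b
    rw [K.rk_smul]
    exact this.le)

theorem ff_t (g : H) : C.Q.ff (g • C.t) = g • C.t :=
  C.Q.ff_low (by
    have := C.rk_b
    have := C.rk_t
    rw [K.rk_smul]
    show K.rk C.t ≤ K.rk C.D.v
    omega)

/-- edges of the folded complex -/
theorem E_of {x y : V} (e : C.Q.S.gx.E x y) (hx : C.Q.ff x = x) (hy : C.Q.ff y = y) :
    C.Q.fo.gx.E x y := by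
  have hne : x ≠ y := by
    rintro rfl
    exact C.Q.S.gx.E_irr _ e
  have h1 : C.Q.fo.f x = x := hx
  have h2 : C.Q.fo.f y = y := hy
  rcases C.Q.fo.E_map e with h | h
  · rw [h1, h2] at h
    exact absurd h.symm hne
  · rw [h1, h2] at h
    exact h

theorem Eva : C.Q.S.gx.E C.D.a C.D.v := by
  have h : ¬ C.Q.S.mv C.D.v C.D.a := fun k => by
    have := C.rkT (C.M_T ⟨_, k⟩)
    have := C.rk_a
    omega
  have h' : ¬ C.Q.S.mv C.D.a C.D.v := fun k => by
    have := K.ar_rk _ _ (C.Q.S.mv_ar _ _ k)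
    have := C.rk_a
    omega
  exact C.Q.S.E'_of (Or.inr C.D.va) h' h

theorem Evb : C.Q.S.gx.E C.D.v C.D.b := by
  have h : ¬ C.Q.S.mv C.D.v C.D.b := fun k => by
    have := C.rkT (C.M_T ⟨_, k⟩)
    have := C.rk_b
    omega
  have h' : ¬ C.Q.S.mv C.D.b C.D.v := fun k => by
    have := K.ar_rk _ _ (C.Q.S.mv_ar _ _ k)
    have := C.rk_b
    omega
  exact C.Q.S.E'_of (Or.inl C.D.vb) h h'

theorem Ebt : C.Q.S.gx.E C.D.b C.t := by
  have h : ¬ C.Q.S.mv C.D.b C.t := fun k => by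
    have := C.rkT (C.M_T ⟨_, k⟩)
    have := C.rk_b
    have := C.rk_t
    omega
  have h' : ¬ C.Q.S.mv C.t C.D.b := fun k => by
    have := K.ar_rk _ _ (C.Q.S.mv_ar _ _ k)
    have := C.rk_t
    omega
  exact C.Q.S.E'_of (Or.inl C.bt) h h'

/-- the new soft -/
noncomputable def sd : SD C.Q.fo.gx where
  D := (stabilizer H C.D.v ⊓ stabilizer H C.D.a) ⊓ stabilizer H C.t
  a := C.t
  b := C.D.a
  l := [C.D.v, C.D.b, C.t]
  inC := Pool.Agent.SAG.InC.mono (inf_le_left.trans inf_le_left) (K.stab C.D.v)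
  fix := by
    rintro d ⟨⟨h1, h2⟩, h3⟩
    exact Or.inl ⟨h3, h2⟩
  wk := by
    have f1 := C.ff_v 1
    have f2 := C.ff_a 1
    have f3 := C.ff_b 1
    have f4 := C.ff_t 1
    rw [one_smul] at f1 f2 f3 f4
    exact ⟨C.E_of C.Eva f2 f1, C.E_of C.Evb f1 f3, C.E_of C.Ebt f3 f4, trivial⟩
  tgl := rfl

/-- THE COMMON PATH LEMMA -/
theorem cn_le_one (hm : K.Min) : K.cr.cn C.cc ≤ 1 := by
  classical
  have hex : ∀ i : K.I, ∃ (g : H) (rl : List V), C.St i →
      (Wk C.Q.S.gx.E (g • C.t) rl ∧ tg (g • C.t) rl = g • C.D.a ∧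
      (∀ φ : V → V → ZMod 2, (∀ x y, φ x y = φ y x) →
        ps φ (K.cb i) (sub C.Q.S.w (K.cb i) (K.cw i)) =
          ps φ (g • C.D.a) [g • C.D.v, g • C.D.b, g • C.t] + ps φ (g • C.t) rl) ∧
      max 0 ((rl.length : ℤ) - stn C.Q.ff (g • C.t) rl - 2) + max 0 (1 + C.Q.tN i) ≤
        2 - C.ln i) := by
    intro i
    by_cases h : C.St i
    · obtain ⟨g, rl, k⟩ := C.st_cell hm h
      exact ⟨g, rl, fun _ => k⟩
    · exact ⟨1, [], fun k => absurd k h⟩
  choose g rl hrl using hex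
  set L : C.Q.fo.gx.I → List V := fun i => dst (g i • C.t) ((rl i).map C.Q.ff) with hL
  let I0 : Set C.Q.fo.gx.I := {i | C.St i}
  have h1 : ∀ i ∈ I0, Wk C.Q.fo.gx.E (g i • C.sd.a) (L i) := by
    intro i hi
    have k := Wk_dst (E' := C.Q.fo.gx.E) (f := C.Q.fo.f) (fun _ _ e => C.Q.fo.E_map e)
      (hrl i hi).1
    have e : C.Q.fo.f (g i • C.t) = g i • C.t := C.ff_t _
    rw [e] at k
    exact k
  have h2 : ∀ i ∈ I0, tg (g i • C.sd.a) (L i) = g i • C.sd.b := by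
    intro i hi
    show tg (g i • C.t) (dst (g i • C.t) ((rl i).map C.Q.ff)) = g i • C.D.a
    rw [tg_dst]
    have e := tg_map C.Q.ff (g i • C.t) (rl i)
    rw [C.ff_t, (hrl i hi).2.1, C.ff_a] at e
    exact e
  have h3 : ∀ i ∈ I0, ∀ φ : V → V → ZMod 2, (∀ x y, φ x y = φ y x) →
      ps φ (C.Q.fo.gx.cb i) (C.Q.fo.gx.cw i) =
        ps φ (g i • C.sd.b) (C.sd.l.map (fun z => g i • z)) + ps φ (g i • C.sd.a) (L i) := by
    intro i hi φ hφ
    have e1 : ps φ (C.Q.fo.gx.cb i) (C.Q.fo.gx.cw i) =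
        ps (pf C.Q.ff φ) (C.Q.S.gx.cb i) (C.Q.S.gx.cw i) :=
      ps_dst1 C.Q.ff φ (C.Q.S.gx.cb i) (C.Q.S.gx.cw i)
    have hs := pf_symm C.Q.ff φ hφ
    have e2 : ps (pf C.Q.ff φ) (C.Q.S.gx.cb i) (C.Q.S.gx.cw i) = _ :=
      (C.Q.S.cell_spec i).2.2.2 _ hs
    have e3 : ps φ (g i • C.t) (L i) = ps (pf C.Q.ff φ) (g i • C.t) (rl i) := by
      have := ps_dst1 C.Q.ff φ (g i • C.t) (rl i)
      rw [C.ff_t] at this
      exact this
    have e4 : ps (pf C.Q.ff φ) (g i • C.D.a) [g i • C.D.v, g i • C.D.b, g i • C.t] =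
        ps φ (g i • C.D.a) [g i • C.D.v, g i • C.D.b, g i • C.t] := by
      have a1 := C.rk_a
      have a2 := C.rk_b
      have a3 := C.rk_t
      have n1 : C.Q.ff (g i • C.D.v) ≠ C.Q.ff (g i • C.D.a) := by
        rw [C.ff_v, C.ff_a]
        intro e
        rw [smul_left_cancel _ e] at a1
        exact lt_irrefl _ a1
      have n2 : C.Q.ff (g i • C.D.b) ≠ C.Q.ff (g i • C.D.v) := by
        rw [C.ff_v, C.ff_b]
        intro e
        rw [smul_left_cancel _ e] at a2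
        exact lt_irrefl _ a2
      have n3 : C.Q.ff (g i • C.t) ≠ C.Q.ff (g i • C.D.b) := by
        rw [C.ff_t, C.ff_b]
        intro e
        rw [smul_left_cancel _ e] at a3
        exact lt_irrefl _ a3
      simp only [ps_cons, ps_nil]
      rw [pf_ne _ _ n1, pf_ne _ _ n2, pf_ne _ _ n3, C.ff_v, C.ff_a, C.ff_b, C.ff_t]
    rw [e1, e2, (hrl i hi).2.2.1 _ hs, e4]
    show _ = ps φ (g i • C.D.a) [g i • C.D.v, g i • C.D.b, g i • C.t] + ps φ (g i • C.t) (L i)
    rw [e3]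
  have hA := hm _ (C.sd.short (I0 := I0) (g := g) (rl := L) h1 h2 h3)
  rw [C.sd.short_area, P.area_eq] at hA
  have hA : Fintype.card K.I ≤ 1 + ∑ i : K.I, (if C.St i then (L i).length - 2 else
      (C.Q.fo.gx.cw i).length - 4) := hA
  have hB := P.slide_ineq hm C.Q.SN
  have hB : (Fintype.card K.I : ℤ) ≤ ∑ i, max 0 (1 + C.Q.tN i) := hB
  have key : ∀ i : K.I, (((if C.St i then (L i).length - 2 else
      (C.Q.fo.gx.cw i).length - 4 : ℕ)) : ℤ) + max 0 (1 + C.Q.tN i) ≤ 2 - C.ln i := by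
    intro i
    by_cases hi : C.St i
    · rw [if_pos hi]
      refine le_trans (add_le_add ?_ le_rfl) (hrl i hi).2.2.2
      have e := length_dst C.Q.ff (g i • C.t) (rl i)
      rw [C.ff_t] at e
      have e : (L i).length + stn C.Q.ff (g i • C.t) (rl i) = (rl i).length := e
      rcases le_total 2 (L i).length with h | h
      · rw [Nat.cast_sub h]
        apply le_max_of_le_right
        push_cast
        omega
      · rw [Nat.sub_eq_zero_of_le h]
        exact le_max_left _ _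
    · rw [if_neg hi]
      have k := C.Q.key hm i
      rw [C.t_of_not hi] at k
      refine le_trans (add_le_add ?_ le_rfl) (k.trans (by linarith))
      rcases le_total 4 (C.Q.fo.gx.cw i).length with h | h
      · rw [Nat.cast_sub h]
        exact le_max_right _ _
      · rw [Nat.sub_eq_zero_of_le h]
        exact le_max_left _ _
  have h4 := Finset.sum_le_sum fun i (_ : i ∈ (Finset.univ : Finset K.I)) => key i
  rw [Finset.sum_add_distrib, Finset.sum_sub_distrib, Finset.sum_const, Finset.card_univ,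
    ← C.cn_eq, ← Nat.cast_sum] at h4
  have e : ((Fintype.card K.I) • (2 : ℤ)) = 2 * Fintype.card K.I := by
    rw [nsmul_eq_mul]
    ring
  rw [e] at h4
  have hA' : (Fintype.card K.I : ℤ) ≤ 1 + ((∑ i : K.I, (if C.St i then (L i).length - 2 else
      (C.Q.fo.gx.cw i).length - 4) : ℕ) : ℤ) := by exact_mod_cast hA
  have : (K.cr.cn C.cc : ℤ) ≤ 1 := by linarith
  exact_mod_cast this

end CPd

/-- The common path lemma for an ordinary soft `v` with poles `α`, `β`: if every cell which passes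
from `v` to `α` goes on to one and the same pole `t` of `α` (modulo the stabiliser of `v`), then
`v` has at most one corner at `β`. -/
theorem Pt.common_path (P : Pt K) (hm : K.Min) {v α β t : V} (hα : K.ar v α) (hβ : K.ar v β)
    (hne : β ≠ α) (ht : K.ar α t) (fx : ∀ h : H, h • v = v → h • β = β)
    (stk : ∀ (c : Fin 5 → V) (i : K.I), P.At c i → c 0 = v → c 1 = α →
      ∃ r : H, r • v = v ∧ c 2 = r • t) : K.cr.lam H v β ≤ 1 := by
  let D : PcD P :=
    { v := v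
      a := β
      b := α
      R := {n | K.ar n v}
      va := hβ
      vb := hα
      ab := hne
      R_ar := fun n hn => hn
      stab := fun g hg _ _ _ => fx g hg
      inv := by
        intro g hg _ n hn
        have := K.ar_smul g _ _ (show K.ar n v from hn)
        rwa [hg] at this
      cl := by
        intro c i a h1 _
        rcases (a.E 1 : K.E (c 1) (c 2)) with e | e
        · right
          rwa [h1] at e
        · left
          rwa [h1] at e }
  let C : CPd P :=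
    { D := D
      t := t
      bt := ht
      dir := True
      hd := fun _ => fx
      stk := by
        intro c i a _ h1 h2
        obtain ⟨r, r1, r2⟩ := stk (fun j => c (1 + j)) i (a.rot 1) h1 h2
        exact ⟨r, r1, fx r r1, r2⟩ }
  have h1 := C.cn_le_one hm
  rw [K.lam_bot hβ, ← K.cr.cn_add ?_]
  · refine le_trans (le_of_eq ?_) h1
    refine K.cr.cn_congr fun p => ?_
    obtain ⟨c, a, e0, e1, e2⟩ := P.at_pos p
    rw [← e0, ← e1, ← e2]
    constructor
    · have key : ∀ {c : Fin 5 → V}, P.At c (show K.Pos from p).1 → Tr H v β (c 1) (c 0) →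
          C.cc (c 0) (c 1) (c 2) := by
        rintro c a ⟨h, h1, h0⟩
        rcases (a.E 1 : K.E (c 1) (c 2)) with e | e
        · have e' : K.ar (h • C.D.v) (c 2) := by rwa [h1] at e
          rcases C.out e' with k | k
          · exact absurd (h0.trans k.symm) (a.ne2 hm 0)
          · exact Or.inr ⟨trivial, h, h1, Or.inl ⟨h0, k⟩⟩
        · left
          refine ⟨h, h1, Or.inr ⟨?_, h0⟩⟩
          have := K.ar_smul h⁻¹ _ _ e
          rw [h1, inv_smul_smul] at this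
          exact this
      rintro (k | k)
      · exact key a k
      · have := key (a.refl 2) (c := fun j => c (2 - j)) k
        exact (C.cc_symm _ _ _).1 this
    · rintro (⟨h, h1, ⟨-, h3⟩ | ⟨-, h3⟩⟩ | ⟨-, h, h1, ⟨h2, -⟩ | ⟨-, h3⟩⟩)
      · exact Or.inr ⟨h, h1, h3⟩
      · exact Or.inl ⟨h, h1, h3⟩
      · exact Or.inl ⟨h, h1, h2⟩
      · exact Or.inr ⟨h, h1, h3⟩
  · intro p
    obtain ⟨c, a, e0, e1, e2⟩ := P.at_pos p
    rw [← e0, ← e1, ← e2]
    rintro ⟨h, h1, h0⟩ ⟨k, k1, k2⟩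
    have e : (k⁻¹ * h) • v = v := by
      rw [mul_smul, ← h1, k1, inv_smul_smul]
    have e' := fx _ e
    rw [mul_smul, inv_smul_eq_iff] at e'
    exact a.ne2 hm 0 (h0.trans (e'.trans k2.symm))

end Pool.Agent.DI
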