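import Pool.Agent.DI.Hr3
import Pool.Agent.DI.ClsK
import Pool.Agent.DI.WallC

/-!
# DI/HrW: hairs with walks

`P.hairW`: `x → c`, `c` the only out-neighbour of `x`, in a minimal complex in which every listed square
has a top and the arrows of the tops over `x` have strands. Then no pentagon passes `x c` and no walk
`n, x, c, q` of a listed square has `n → x`.

Proof: after the fold `x ~ c` the top of the walk has two adjacent (or equal) poles, so it folds into each
of them and no pentagon passes its arrows; its strands are walks, whose tops have larger rank and again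
adjacent poles after the fold. The ranks of the tops are bounded.
-/

namespace Pool.Agent.DI

open MulAction
open Pool.Agent.SAF (InC orbs FinOrb oc)

variable {H V : Type} [Group H] [MulAction H V]

/-- `K2` comes from `K` by folding vertices of rank `< R` into out-neighbours, `φ` is the fold -/
structure HF (K K2 : GX H V) (φ : V → V) (R : ℕ) : Prop where
  min : K2.Min
  rk : K2.rk = K.rk
  lo : ∀ u, φ u ≠ u → K.rk u < R
  le : ∀ u, K.rk (φ u) ≤ K.rk u
  out : ∀ u, φ u = u → ∀ d, K2.ar u d → ∃ z, K.ar u z ∧ φ z = d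
  inn : ∀ u z, φ u = u → K.ar u z → K2.ar u (φ z)
  edge : ∀ u z, K.E u z → φ u = φ z ∨ K2.E (φ u) (φ z)
  pass : ∀ i x z, K.Long i → K.Pass i x z → ∃ i2, K2.Long i2 ∧ K2.Pass i2 (φ x) (φ z)

namespace HF

variable {K K2 : GX H V} {φ : V → V} {R : ℕ}

theorem refl (hm : K.Min) : HF K K id 0 where
  min := hm
  rk := rfl
  lo _ h := absurd rfl h
  le _ := le_refl _
  out _ _ d h := ⟨d, h, rfl⟩
  inn _ _ _ h := h
  edge _ _ h := Or.inr h
  pass i _ _ h5 h := ⟨i, h5, h⟩

/-- one more fold -/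
theorem step (h : HF K K2 φ R) {t p : V} (D : AdjD K2 t p) {R' : ℕ} (hR : R ≤ R')
    (ht : K.rk t < R') : HF K D.fo.gx (fun u => D.fo.f (φ u)) R' := by
  have hle : ∀ u, K.rk (D.fo.f (φ u)) ≤ K.rk (φ u) := by
    intro u
    have := D.fo.rk_f (φ u)
    rwa [h.rk] at this
  -- unfolded vertices
  have un : ∀ u, D.fo.f (φ u) = u → φ u = u ∧ D.fo.f u = u := by
    intro u e
    by_cases e1 : D.fo.f (φ u) = φ u
    · have e2 : φ u = u := e1.symm.trans e
      exact ⟨e2, by rw [e2] at e; exact e⟩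
    · have h1 := K2.ar_rk _ _ (D.fo.f_ar _ e1)
      rw [e, h.rk] at h1
      have := h.le u
      omega
  refine ⟨D.fo.min h.min, ?_, ?_, fun u => (hle u).trans (h.le u), ?_, ?_, ?_, ?_⟩
  · rw [Fo.gx_rk, h.rk]
  · intro u hu
    by_cases e : φ u = u
    · have hu' : D.fo.f u ≠ u := by
        intro k
        apply hu
        show D.fo.f (φ u) = u
        rw [e]
        exact k
      have : K2.rk u = K2.rk t := by
        by_contra hne
        exact hu' (D.fo_lt hne)
      rw [h.rk] at this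
      omega
    · have := h.lo u e
      omega
  · intro u hu d hd
    obtain ⟨e1, e2⟩ := un u hu
    rcases hd with ⟨-, z, h1, h2⟩ | ⟨h1, -⟩
    · obtain ⟨z', h3, h4⟩ := h.out u e1 z h1
      refine ⟨z', h3, ?_⟩
      show D.fo.f (φ z') = d
      rw [h4, h2]
    · exact absurd e2 h1
  · intro u z hu hz
    obtain ⟨e1, e2⟩ := un u hu
    exact Or.inl ⟨e2, φ z, h.inn u z e1 hz, rfl⟩
  · intro u z e
    rcases h.edge u z e with k | k
    · left
      show D.fo.f (φ u) = D.fo.f (φ z)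
      rw [k]
    · rcases D.fo.E_map k with k | k
      · exact Or.inl k.symm
      · exact Or.inr k
  · intro i x z h5 hp
    obtain ⟨i2, h6, h7⟩ := h.pass i x z h5 hp
    exact ⟨i2, D.fo.long h.min h6, D.fo.pass h.min h6 h7⟩

/-- the fold of a vertex whose poles are adjacent or equal -/
theorem adjD (h : HF K K2 φ R) {t a b : V} (ht : φ t = t) (ta : K.ar t a) (tb : K.ar t b)
    (hab : a ≠ b) (e : φ a = φ b ∨ K2.E (φ a) (φ b)) : AdjD K2 t (φ a) := by
  have k1 := h.inn t a ht ta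
  have k2 := h.inn t b ht tb
  have hout : ∀ d, K2.ar t d → d = φ a ∨ d = φ b := by
    intro d hd
    obtain ⟨z, h1, rfl⟩ := h.out t ht d hd
    rcases out_two ta tb hab h1 with rfl | rfl
    · exact Or.inl rfl
    · exact Or.inr rfl
  refine ⟨k1, ?_, ?_⟩
  · intro d hd
    rcases hout d hd with rfl | rfl
    · exact Or.inl rfl
    · rcases e with e | e | e
      · exact Or.inl e.symm
      · exact Or.inr (Or.inr e)
      · exact Or.inr (Or.inl e)
  · intro g hg
    rcases e with e | e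
    · have h1 := K2.ar_smul g _ _ k1
      rw [hg] at h1
      rcases hout _ h1 with k | k
      · exact k
      · rw [k, e]
    · refine fix_of_rk k1 hout ?_ hg
      rcases e with e | e
      · exact (K2.ar_rk _ _ e).ne'
      · exact (K2.ar_rk _ _ e).ne

end HF

namespace P45

variable {K : GX H V} {P : P45 K}

theorem hw_le5 {e : K.LE} (hi : ¬ P.sq e.1.1) : ∃ y z, Qn P (K.c0 e) (K.c1 e) (K.c2 e) y z := by
  have hj : e.1.2.1 % 5 < 5 := Nat.mod_lt _ (by norm_num)
  let j : Fin 5 := ⟨e.1.2.1 % 5, hj⟩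
  refine ⟨K.vk e 3, K.vk e 4, e.2, e.1.1, j, hi, Or.inl ⟨?_, ?_, ?_, ?_, ?_⟩⟩
  · exact P45.vk5 hi 0 j rfl
  · refine P45.vk5 hi 1 (j + 1) ?_
    show (e.1.2.1 + 1) % 5 = (e.1.2.1 % 5 + 1) % 5
    omega
  · refine P45.vk5 hi 2 (j + 2) ?_
    show (e.1.2.1 + 2) % 5 = (e.1.2.1 % 5 + 2) % 5
    omega
  · refine P45.vk5 hi 3 (j + 3) ?_
    show (e.1.2.1 + 3) % 5 = (e.1.2.1 % 5 + 3) % 5
    omega
  · refine P45.vk5 hi 4 (j + 4) ?_
    show (e.1.2.1 + 4) % 5 = (e.1.2.1 % 5 + 4) % 5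
    omega

/-- a strand is a pentagon or a walk -/
theorem hw_strand {T a : V} (h : 1 ≤ P.X T a) : (∃ n y z, Qn P n T a y z) ∨
    ∃ n q, Q4 P n T a q ∧ K.ar n T := by
  by_contra hcon
  push Not at hcon
  obtain ⟨h1, h2⟩ := hcon
  have e1 : {f : FL K | f ∈ P.RP ∧ (fy f, fz f) = (T, a)} = ∅ := by
    ext f
    simp only [Set.mem_ofPred_eq, Set.mem_empty_iff_false, iff_false]
    rintro ⟨⟨k1, -⟩, k2⟩
    have k3 : fy f = T := congrArg Prod.fst k2
    have k4 : fz f = a := congrArg Prod.snd k2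
    obtain ⟨y, z, hq⟩ := hw_le5 (P := P) (e := f.1) k1
    unfold fy at k3
    unfold fz at k4
    by_cases hb : f.2 = true
    · rw [if_pos hb] at k4
      rw [k3, k4] at hq
      exact h1 _ _ _ hq
    · rw [if_neg hb] at k4
      rw [k3, k4] at hq
      exact h1 _ _ _ hq.symm
  have e2 : {p : (V × V) × (V × V) | p ∈ P.ZP ∧ p.1 = (T, a)} = ∅ := by
    ext p
    simp only [Set.mem_ofPred_eq, Set.mem_empty_iff_false, iff_false]
    rintro ⟨⟨k1, -, k3⟩, k2⟩
    rw [k2] at k1 k3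
    exact h2 _ _ k1 k3
  unfold P45.X at h
  rw [e1, e2, oc_empty, oc_empty] at h
  omega

/-- the ranks of the tops are bounded -/
theorem hw_bound (P : P45 K) : ∃ M, ∀ T a b y, P.Top T a b y → K.rk T ≤ M := by
  have := K.finI
  obtain ⟨M, hM⟩ := (Set.finite_range (fun p : K.I × Fin 4 => K.rk (P.qt p.1 p.2))).bddAbove
  refine ⟨M, ?_⟩
  intro T a b y h
  obtain ⟨g, i, j, hi, h⟩ := h.1
  rcases h with ⟨-, rfl, -, -⟩ | ⟨-, rfl, -, -⟩
  · rw [K.rk_smul]
    exact hM ⟨(i, j + 1), rfl⟩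
  · rw [K.rk_smul]
    exact hM ⟨(i, j + 1), rfl⟩

/-- the next top over a folded vertex -/
theorem hw_next {K2 : GX H V} {φ : V → V} {R : ℕ} (h : HF K K2 φ R)
    (ht : ∀ i, P.sq i → ∃ j, P.tp i j) {n t p q : V} (hq : Q4 P n t p q) (hn : K.ar n t)
    (tp : K.ar t p) (e : φ t = φ p) :
    (∃ a b y, P.Top n a b y ∧ (φ a = φ b ∨ K2.E (φ a) (φ b)) ∧ K.rk t < K.rk n) ∨
    ∃ a b y, P.Top q a b y ∧ (φ a = φ b ∨ K2.E (φ a) (φ b)) ∧ K.rk t < K.rk q := by
  rcases hq.ck_top ht with k | k | k | k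
  · left
    refine ⟨t, q, p, k, ?_, K.ar_rk _ _ hn⟩
    rw [e]
    exact h.edge p q k.Eb.symm
  · exact absurd k.2.2 (GX.ck_asym hn)
  · exact absurd k.2.2 (GX.ck_asym tp)
  · right
    refine ⟨n, p, t, k, ?_, (K.ar_rk _ _ hn).trans (K.ar_rk _ _ k.2.1)⟩
    rw [← e]
    exact h.edge n t (Or.inl hn)

theorem hw_main (nd : P.ND) (ht : ∀ i, P.sq i → ∃ j, P.tp i j) (R0 : ℕ)
    (x1 : ∀ T a b y, P.Top T a b y → R0 < K.rk T → 1 ≤ P.X T a) {M : ℕ}
    (hM : ∀ T a b y, P.Top T a b y → K.rk T ≤ M) (n : ℕ) :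
    ∀ (K2 : GX H V) (φ : V → V) (R : ℕ) (t a b y : V), HF K K2 φ R → P.Top t a b y →
      R ≤ K.rk t → R0 < K.rk t → (φ a = φ b ∨ K2.E (φ a) (φ b)) → M - K.rk t = n → False := by
  induction n using Nat.strong_induction_on with
  | _ n ih =>
    intro K2 φ R t a b y h top hR hR0 e hn
    have hφ : φ t = t := by
      by_contra hne
      have := h.lo t hne
      omega
    have hab : a ≠ b := (top.1.ck_ne nd).1
    let D := h.adjD hφ top.2.1 top.2.2 hab e
    have r1 := K.ar_rk _ _ top.2.1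
    have np : ∀ i, K.Long i → K.Pass i t a → False := by
      intro i h5 hp
      obtain ⟨i2, h6, h7⟩ := h.pass i t a h5 hp
      rw [hφ] at h7
      exact h.min.adj D h6 h7
    rcases hw_strand (x1 t a b y top hR0) with ⟨n', y', z', hq⟩ | ⟨n', q, hq, hn'⟩
    · obtain ⟨i, h5, hp⟩ := hq.rot.pass
      exact np i h5 hp
    · have h' := h.step D (R' := K.rk t + 1) (by omega) (by omega)
      have e' : D.fo.f (φ t) = D.fo.f (φ a) := by
        rw [hφ, D.fo_x]
        refine (D.fo_lt ?_).symm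
        rw [h.rk]
        have := h.le a
        omega
      rcases hw_next h' ht hq hn' top.2.1 e' with ⟨a', b', y', k1, k2, k3⟩ | ⟨a', b', y', k1, k2, k3⟩
      · refine ih (M - K.rk n') ?_ _ _ _ n' a' b' y' h' k1 (by omega) (by omega) k2 rfl
        have := hM _ _ _ _ k1
        omega
      · refine ih (M - K.rk q) ?_ _ _ _ q a' b' y' h' k1 (by omega) (by omega) k2 rfl
        have := hM _ _ _ _ k1
        omega

/-- HAIRS WITH WALKS -/
theorem hairW (P : P45 K) (nd : P.ND) (hm : K.Min) (ht : ∀ i, P.sq i → ∃ j, P.tp i j) {x c : V}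
    (x1 : ∀ T a b y, P.Top T a b y → K.rk x < K.rk T → 1 ≤ P.X T a) (hc : K.ar x c)
    (h : ∀ d, K.ar x d → d = c) :
    (∀ n y z, ¬ Qn P n x c y z) ∧ ∀ n q, Q4 P n x c q → ¬ K.ar n x := by
  constructor
  · intro n y z hq
    obtain ⟨i, h5, hp⟩ := hq.rot.pass
    exact hm.hair hc h h5 hp
  · intro n q hq hn
    obtain ⟨M, hM⟩ := hw_bound P
    let D : AdjD K x c :=
      { xy := hc
        out := fun a k => Or.inl (h a k)
        st := by
          intro g e
          have := K.ar_smul g _ _ hc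
          rw [e] at this
          exact h _ this }
    have h' := (HF.refl hm).step D (R' := K.rk x + 1) (by omega) (by omega)
    have e' : D.fo.f (id x) = D.fo.f (id c) := by
      show D.fo.f x = D.fo.f c
      rw [D.fo_x, D.fo_lt (K.ar_rk _ _ hc).ne]
    rcases hw_next h' ht hq hn hc e' with ⟨a', b', y', k1, k2, k3⟩ | ⟨a', b', y', k1, k2, k3⟩
    · exact hw_main nd ht (K.rk x) x1 hM _ _ _ _ n a' b' y' h' k1 (by omega) (by omega) k2 rfl
    · exact hw_main nd ht (K.rk x) x1 hM _ _ _ _ q a' b' y' h' k1 (by omega) (by omega) k2 rfl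

/-- a vertex with one out-neighbour has no strands -/
theorem hairX (P : P45 K) (nd : P.ND) (hm : K.Min) (ht : ∀ i, P.sq i → ∃ j, P.tp i j) {x c : V}
    (x1 : ∀ T a b y, P.Top T a b y → K.rk x < K.rk T → 1 ≤ P.X T a) (hc : K.ar x c)
    (h : ∀ d, K.ar x d → d = c) : P.X x c = 0 := by
  by_contra hne
  obtain ⟨h1, h2⟩ := P.hairW nd hm ht x1 hc h
  rcases hw_strand (P := P) (T := x) (a := c) (by omega) with ⟨n, y, z, k⟩ | ⟨n, q, k, l⟩
  · exact h1 n y z k
  · exact h2 n q k l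

end P45

end Pool.Agent.DI
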