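import Pool.Agent.DI.SqFb
import Pool.Agent.DI.HrW

/-!
# DI/ClA: the class of the complexes in the induction of plain min-cut

Relative to a set `E` of opened softs. `P.DT E T a b y`: `T` is the designated top of a translate of a listed
square with sides `a`, `b`, partner `y` of smaller rank, `T` not in `E`. `P.EW E e a b e'`: a neutral square
with `e`, `e'` in `E`. `P.PE E x z`: the edge `x z` is passed by a pentagon or by a square with a designated
top which is not on this edge. `P.ClE E`: THE CLASS: every listed square has a designated top or is neutral,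
one listed square and one partner for every orbit of designated tops, the arrows of the designated tops are
passed. `ClE.hair`, `ClE.nd2`: a vertex whose poles are identified by a fold (or which has one pole) has no
passes. `ClE.fold`: the class is closed under the fold of one orbit of designated tops, exactly one listed
square is dropped (`ClE.Bt_iff`). `SqE.clE`: the static class with strands is in the class.
-/

namespace Pool.Agent.DI

open MulAction

namespace P45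

variable {H V : Type} [Group H] [MulAction H V] {K : GX H V} (P : P45 K)

/-- the listed square `i` has its designated top at the place `j` -/
def dt (E : V → Prop) (i : K.I) (j : Fin 4) : Prop := K.ar (P.qt i j) (P.qt i (j + 1)) ∧
  K.ar (P.qt i j) (P.qt i (j + 3)) ∧ K.rk (P.qt i (j + 2)) < K.rk (P.qt i j) ∧ ¬ E (P.qt i j)

/-- the listed square `i` is neutral, with an opened soft at the place `j` -/
def ew (E : V → Prop) (i : K.I) (j : Fin 4) : Prop := K.ar (P.qt i j) (P.qt i (j + 1)) ∧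
  K.ar (P.qt i j) (P.qt i (j + 3)) ∧ K.ar (P.qt i (j + 2)) (P.qt i (j + 1)) ∧
  K.ar (P.qt i (j + 2)) (P.qt i (j + 3)) ∧ E (P.qt i j) ∧ E (P.qt i (j + 2))

/-- `T` is a designated top with the sides `a`, `b` and the partner `y` -/
def DT (E : V → Prop) (T a b y : V) : Prop := Q4 P a T b y ∧ K.ar T a ∧ K.ar T b ∧
  K.rk y < K.rk T ∧ ¬ E T

/-- a neutral square -/
def EW (E : V → Prop) (e a b e' : V) : Prop := Q4 P a e b e' ∧ K.ar e a ∧ K.ar e b ∧
  K.ar e' a ∧ K.ar e' b ∧ E e ∧ E e'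

/-- the edge `x z` is passed by a pentagon or by a square, its designated top is not `x`, `z` -/
def PE (E : V → Prop) (x z : V) : Prop := (∃ n q t, Qn P n x z q t) ∨ (∃ T b, P.DT E T x b z) ∨
  ∃ T b, P.DT E T z b x

/-- THE CLASS -/
structure ClE (E : V → Prop) : Prop where
  nd : P.ND
  min : K.Min
  Es : ∀ (h : H) (v : V), E v → E (h • v)
  top : ∀ i, P.sq i → (∃ j, P.dt E i j) ∨ ∃ j, P.ew E i j
  one : ∀ i i', P.sq i → P.sq i' → ∀ j j', P.dt E i j → P.dt E i' j' →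
    ∀ h : H, h • P.qt i j = P.qt i' j' → i = i'
  par : ∀ T a b y a' b' y', P.DT E T a b y → P.DT E T a' b' y' → y = y'
  x1 : ∀ T a b y, P.DT E T a b y → P.PE E T a
  xE : ∀ e a b e', P.EW E e a b e' → P.PE E e a ∨ P.PE E e' a

variable {P} {E : V → Prop}

theorem DT.symm' {T a b y : V} (h : P.DT E T a b y) : P.DT E T b a y :=
  ⟨h.1.symm, h.2.2.1, h.2.1, h.2.2.2⟩

theorem EW.symm' {e a b e' : V} (h : P.EW E e a b e') : P.EW E e b a e' :=
  ⟨h.1.symm, h.2.2.1, h.2.1, h.2.2.2.2.1, h.2.2.2.1, h.2.2.2.2.2⟩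

theorem EW.swap {e a b e' : V} (h : P.EW E e a b e') : P.EW E e' a b e :=
  ⟨h.1.rot.symm.rot.rot.rot, h.2.2.2.1, h.2.2.2.2.1, h.2.1, h.2.2.1, h.2.2.2.2.2.2, h.2.2.2.2.2.1⟩

theorem PE.symm' {x z : V} (h : P.PE E x z) : P.PE E z x := by
  rcases h with ⟨n, q, t, h⟩ | h | h
  · exact Or.inl ⟨q, n, t, h.symm.rot.rot.rot.rot⟩
  · exact Or.inr (Or.inr h)
  · exact Or.inr (Or.inl h)

theorem DT.ne {T a b y : V} (h : P.DT E T a b y) : T ≠ y := by
  rintro rfl
  exact absurd h.2.2.2.1 (lt_irrefl _)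

theorem dt.DT' {i : K.I} (hi : P.sq i) {j : Fin 4} (ht : P.dt E i j) :
    P.DT E (P.qt i j) (P.qt i (j + 1)) (P.qt i (j + 3)) (P.qt i (j + 2)) :=
  ⟨(P45.ck_tp hi ⟨ht.1, ht.2.1⟩).1, ht.1, ht.2.1, ht.2.2⟩

theorem ew.EW' {i : K.I} (hi : P.sq i) {j : Fin 4} (ht : P.ew E i j) :
    P.EW E (P.qt i j) (P.qt i (j + 1)) (P.qt i (j + 3)) (P.qt i (j + 2)) :=
  ⟨(P45.ck_tp hi ⟨ht.1, ht.2.1⟩).1, ht.1, ht.2.1, ht.2.2.1, ht.2.2.2.1, ht.2.2.2.2⟩

namespace ClE

variable (hC : P.ClE E)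

include hC

theorem E_iff (h : H) (v : V) : E (h • v) ↔ E v := by
  refine ⟨fun k => ?_, hC.Es h v⟩
  have := hC.Es h⁻¹ _ k
  rwa [inv_smul_smul] at this

theorem DT_smul (g : H) {T a b y : V} (h : P.DT E T a b y) :
    P.DT E (g • T) (g • a) (g • b) (g • y) := by
  refine ⟨h.1.smul g, K.ar_smul g _ _ h.2.1, K.ar_smul g _ _ h.2.2.1, ?_, ?_⟩
  · rw [K.rk_smul, K.rk_smul]
    exact h.2.2.2.1
  · rw [hC.E_iff]
    exact h.2.2.2.2

theorem EW_smul (g : H) {e a b e' : V} (h : P.EW E e a b e') :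
    P.EW E (g • e) (g • a) (g • b) (g • e') :=
  ⟨h.1.smul g, K.ar_smul g _ _ h.2.1, K.ar_smul g _ _ h.2.2.1, K.ar_smul g _ _ h.2.2.2.1,
    K.ar_smul g _ _ h.2.2.2.2.1, hC.Es g _ h.2.2.2.2.2.1, hC.Es g _ h.2.2.2.2.2.2⟩

theorem PE_smul (g : H) {x z : V} (h : P.PE E x z) : P.PE E (g • x) (g • z) := by
  rcases h with ⟨n, q, t, h⟩ | ⟨T, b, h⟩ | ⟨T, b, h⟩
  · exact Or.inl ⟨_, _, _, h.smul g⟩
  · exact Or.inr (Or.inl ⟨_, _, hC.DT_smul g h⟩)
  · exact Or.inr (Or.inr ⟨_, _, hC.DT_smul g h⟩)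

/-- the types of the squares -/
theorem q4 {a q b y : V} (h : Q4 P a q b y) :
    (P.DT E a q y b ∨ P.DT E q b a y ∨ P.DT E b y q a ∨ P.DT E y a b q) ∨
    (P.EW E a q y b ∨ P.EW E q b a y) := by
  obtain ⟨g, i, j, hi, h⟩ := h
  have key : ∀ a q b y : V, (a = g • P.qt i j ∧ q = g • P.qt i (j + 1) ∧ b = g • P.qt i (j + 2) ∧
      y = g • P.qt i (j + 3)) → (P.DT E a q y b ∨ P.DT E q b a y ∨ P.DT E b y q a ∨
      P.DT E y a b q) ∨ (P.EW E a q y b ∨ P.EW E q b a y) := by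
    rintro a q b y ⟨rfl, rfl, rfl, rfl⟩
    have s1 : ∀ j : Fin 4, j + 1 + 1 = j + 2 := by decide
    have s2 : ∀ j : Fin 4, j + 1 + 2 = j + 3 := by decide
    have s3 : ∀ j : Fin 4, j + 1 + 3 = j := by decide
    have s4 : ∀ j : Fin 4, j + 2 + 1 = j + 3 := by decide
    have s5 : ∀ j : Fin 4, j + 2 + 2 = j := by decide
    have s6 : ∀ j : Fin 4, j + 2 + 3 = j + 1 := by decide
    have s7 : ∀ j : Fin 4, j + 3 + 1 = j := by decide
    have s8 : ∀ j : Fin 4, j + 3 + 2 = j + 1 := by decide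
    have s9 : ∀ j : Fin 4, j + 3 + 3 = j + 2 := by decide
    rcases hC.top i hi with ⟨k, hk⟩ | ⟨k, hk⟩
    · left
      have t := hC.DT_smul g (hk.DT' hi)
      obtain ⟨m, rfl⟩ : ∃ m, k = j + m := ⟨k - j, (add_sub_cancel j k).symm⟩
      fin_cases m
      · left
        have t : P.DT E (g • P.qt i (j + 0)) (g • P.qt i (j + 0 + 1)) (g • P.qt i (j + 0 + 3))
          (g • P.qt i (j + 0 + 2)) := t
        rwa [add_zero] at t
      · right; left
        have t : P.DT E (g • P.qt i (j + 1)) (g • P.qt i (j + 1 + 1)) (g • P.qt i (j + 1 + 3))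
          (g • P.qt i (j + 1 + 2)) := t
        rwa [s1, s2, s3] at t
      · right; right; left
        have t : P.DT E (g • P.qt i (j + 2)) (g • P.qt i (j + 2 + 1)) (g • P.qt i (j + 2 + 3))
          (g • P.qt i (j + 2 + 2)) := t
        rwa [s4, s5, s6] at t
      · right; right; right
        have t : P.DT E (g • P.qt i (j + 3)) (g • P.qt i (j + 3 + 1)) (g • P.qt i (j + 3 + 3))
          (g • P.qt i (j + 3 + 2)) := t
        rwa [s7, s8, s9] at t
    · right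
      have t := hC.EW_smul g (hk.EW' hi)
      obtain ⟨m, rfl⟩ : ∃ m, k = j + m := ⟨k - j, (add_sub_cancel j k).symm⟩
      fin_cases m
      · left
        have t : P.EW E (g • P.qt i (j + 0)) (g • P.qt i (j + 0 + 1)) (g • P.qt i (j + 0 + 3))
          (g • P.qt i (j + 0 + 2)) := t
        rwa [add_zero] at t
      · right
        have t : P.EW E (g • P.qt i (j + 1)) (g • P.qt i (j + 1 + 1)) (g • P.qt i (j + 1 + 3))
          (g • P.qt i (j + 1 + 2)) := t
        rwa [s1, s2, s3] at t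
      · left
        have t : P.EW E (g • P.qt i (j + 2)) (g • P.qt i (j + 2 + 1)) (g • P.qt i (j + 2 + 3))
          (g • P.qt i (j + 2 + 2)) := t
        rw [s4, s5, s6] at t
        exact t.swap.symm'
      · right
        have t : P.EW E (g • P.qt i (j + 3)) (g • P.qt i (j + 3 + 1)) (g • P.qt i (j + 3 + 3))
          (g • P.qt i (j + 3 + 2)) := t
        rw [s7, s8, s9] at t
        exact t.swap.symm'
  rcases h with h | ⟨h1, h2, h3, h4⟩
  · exact key _ _ _ _ h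
  · rcases key b q a y ⟨h1, h2, h3, h4⟩ with (k | k | k | k) | k | k
    · exact Or.inl (Or.inr (Or.inr (Or.inl k.symm')))
    · exact Or.inl (Or.inr (Or.inl k.symm'))
    · exact Or.inl (Or.inl k.symm')
    · exact Or.inl (Or.inr (Or.inr (Or.inr k.symm')))
    · exact Or.inr (Or.inl k.swap)
    · exact Or.inr (Or.inr k.symm')

theorem nab {T a b y : V} (h : P.DT E T a b y) : a ≠ b := (h.1.ck_ne hC.nd).1

theorem sides {T a b y c : V} (h : P.DT E T a b y) (hc : K.ar T c) : c = a ∨ c = b :=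
  out_two h.2.1 h.2.2.1 (hC.nab h) hc

theorem fix {T a b y : V} (h : P.DT E T a b y) {g : H} (hg : g • T = T) : g • y = y := by
  have h1 := hC.DT_smul g h
  rw [hg] at h1
  exact hC.par _ _ _ _ _ _ _ h1 h

omit hC in
/-- the listed square of a designated top -/
theorem _root_.Pool.Agent.DI.P45.DT.idx {T a b y : V} (h : P.DT E T a b y) (hE : ∀ (h : H) (v : V), E v → E (h • v)) :
    ∃ (g : H) (i : K.I) (j : Fin 4), P.sq i ∧ P.dt E i j ∧ T = g • P.qt i j ∧
      y = g • P.qt i (j + 2) := by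
  obtain ⟨⟨g, i, j, hi, hq⟩, h1, h2, h3, h4⟩ := h
  have s1 : j + 1 + 1 = j + 2 := by rw [add_assoc]; rfl
  have s2 : j + 1 + 2 = j + 3 := by rw [add_assoc]; rfl
  have s3 : j + 1 + 3 = j := by
    have : ∀ j : Fin 4, j + 1 + 3 = j := by decide
    exact this j
  refine ⟨g, i, j + 1, hi, ?_, ?_, ?_⟩
  · have back : ∀ {x z : V}, K.ar (g • x) (g • z) → K.ar x z := by
      intro x z k
      have := K.ar_smul g⁻¹ _ _ k
      rwa [inv_smul_smul, inv_smul_smul] at this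
    rcases hq with ⟨rfl, rfl, rfl, rfl⟩ | ⟨rfl, rfl, rfl, rfl⟩
    · refine ⟨?_, ?_, ?_, fun k => h4 (hE g _ k)⟩
      · rw [s1]; exact back h2
      · rw [s3]; exact back h1
      · rw [s2]
        rwa [K.rk_smul, K.rk_smul] at h3
    · refine ⟨?_, ?_, ?_, fun k => h4 (hE g _ k)⟩
      · rw [s1]; exact back h1
      · rw [s3]; exact back h2
      · rw [s2]
        rwa [K.rk_smul, K.rk_smul] at h3
  · rcases hq with ⟨-, h, -, -⟩ | ⟨-, h, -, -⟩ <;> exact h
  · rw [s2]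
    rcases hq with ⟨-, -, -, h⟩ | ⟨-, -, -, h⟩ <;> exact h

/-- the fold data of a designated top -/
def sq1 {T a b y : V} (h : P.DT E T a b y) : Sq1 K where
  T := T
  y := y
  rk := h.2.2.2.1
  E c hc := by
    rcases hC.sides h hc with rfl | rfl
    · exact h.1.E4
    · exact h.1.E3.symm
  ex := ⟨a, h.2.1⟩
  fix _ hg := hC.fix h hg

end ClE

/-- `u` and `v` are identified by `T ~ y` -/
def Gl (H : Type) {V : Type} [Group H] [MulAction H V] (T y u v : V) : Prop :=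
  (∃ g : H, u = g • T ∧ v = g • y) ∨ (∃ g : H, v = g • T ∧ u = g • y) ∨
  ∃ g g' : H, u = g • T ∧ v = g' • T ∧ g • y = g' • y

end P45

namespace Sq1

variable {H V : Type} [Group H] [MulAction H V] {K : GX H V} (D : Sq1 K)

theorem nO_of_lt {x : V} (h : K.rk D.T < K.rk x) : ∀ g : H, x ≠ g • D.T := by
  rintro g rfl
  rw [K.rk_smul] at h
  omega

theorem nO_of_gt {x : V} (h : K.rk x < K.rk D.T) : ∀ g : H, x ≠ g • D.T := by
  rintro g rfl
  rw [K.rk_smul] at h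
  omega

theorem nO_y (g : H) : ∀ g' : H, g • D.y ≠ g' • D.T := by
  intro g' e
  have := congrArg K.rk e
  rw [K.rk_smul, K.rk_smul] at this
  have := D.rk
  omega

theorem F_Ty1 (g : H) : D.toF.F (g • D.T) = D.toF.F (g • D.y) := by
  rw [D.toF.F_eq, D.f_T, D.f_not (D.nO_y g)]

/-- the identified vertices -/
theorem F_iff {u v : V} (huv : u ≠ v) : D.toF.F u = D.toF.F v ↔ P45.Gl H D.T D.y u v := by
  classical
  rw [D.toF.F_eq]
  by_cases hu : ∃ g : H, u = g • D.T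
  · obtain ⟨g, rfl⟩ := hu
    rw [D.f_T]
    by_cases hv : ∃ g : H, v = g • D.T
    · obtain ⟨g', rfl⟩ := hv
      rw [D.f_T]
      constructor
      · intro e
        exact Or.inr (Or.inr ⟨g, g', rfl, rfl, e⟩)
      · rintro (⟨k, h1, h2⟩ | ⟨k, h1, h2⟩ | ⟨k, k', h1, h2, h3⟩)
        · exact absurd h2.symm (D.nO_y k g')
        · exact absurd h2.symm (D.nO_y k g)
        · have e1 : (k⁻¹ * g) • D.T = D.T := by rw [mul_smul, h1, inv_smul_smul]
          have e2 : (k'⁻¹ * g') • D.T = D.T := by rw [mul_smul, h2, inv_smul_smul]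
          have e1 := D.fix _ e1
          have e2 := D.fix _ e2
          rw [mul_smul, inv_smul_eq_iff] at e1 e2
          rw [e1, e2, h3]
    · push Not at hv
      rw [D.f_not hv]
      constructor
      · intro e
        exact Or.inl ⟨g, rfl, e.symm⟩
      · rintro (⟨k, h1, h2⟩ | ⟨k, h1, h2⟩ | ⟨k, k', h1, h2, h3⟩)
        · have e1 : (k⁻¹ * g) • D.T = D.T := by rw [mul_smul, h1, inv_smul_smul]
          have e1 := D.fix _ e1
          rw [mul_smul, inv_smul_eq_iff] at e1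
          rw [e1, h2]
        · exact absurd h1 (hv k)
        · exact absurd h2 (hv k')
  · push Not at hu
    rw [D.f_not hu]
    by_cases hv : ∃ g : H, v = g • D.T
    · obtain ⟨g', rfl⟩ := hv
      rw [D.f_T]
      constructor
      · intro e
        exact Or.inr (Or.inl ⟨g', rfl, e⟩)
      · rintro (⟨k, h1, h2⟩ | ⟨k, h1, h2⟩ | ⟨k, k', h1, h2, h3⟩)
        · exact absurd h1 (hu k)
        · have e1 : (k⁻¹ * g') • D.T = D.T := by rw [mul_smul, h1, inv_smul_smul]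
          have e1 := D.fix _ e1
          rw [mul_smul, inv_smul_eq_iff] at e1
          rw [e1, h2]
        · exact absurd h1 (hu k)
    · push Not at hv
      rw [D.f_not hv]
      constructor
      · exact fun e => absurd e huv
      · rintro (⟨k, h1, h2⟩ | ⟨k, h1, h2⟩ | ⟨k, k', h1, h2, h3⟩)
        · exact absurd h1 (hu k)
        · exact absurd h1 (hv k)
        · exact absurd h1 (hu k)

theorem not_O {x : V} : ¬ D.toF.O x ↔ ∀ g : H, x ≠ g • D.T := by
  rw [D.toF_O]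
  push Not
  exact Iff.rfl

/-- arrows of unfolded vertices -/
theorem ar_map {x z : V} (hx : ∀ g : H, x ≠ g • D.T) (h : K.ar x z) :
    D.toF.gx.ar (D.toF.F x) (D.toF.F z) := by
  refine ⟨z, ?_, rfl⟩
  rw [D.toF.F_coe, D.f_not hx]
  exact h

theorem ar_back {x : V} {d : D.toF.W} (hx : ∀ g : H, x ≠ g • D.T)
    (h : D.toF.gx.ar (D.toF.F x) d) : ∃ z, K.ar x z ∧ D.toF.F z = d := by
  obtain ⟨z, h1, h2⟩ := h
  rw [D.toF.F_coe, D.f_not hx] at h1
  exact ⟨z, h1, h2⟩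

theorem rk_F (x : V) : D.toF.gx.rk (D.toF.F x) ≤ K.rk x := D.toF.rk_f x

theorem rk_F_not {x : V} (hx : ∀ g : H, x ≠ g • D.T) : D.toF.gx.rk (D.toF.F x) = K.rk x := by
  rw [D.toF.gx_rk, D.toF.F_coe, D.f_not hx]

theorem val_not (c : D.toF.W) : ∀ g : H, c.1 ≠ g • D.T := D.not_O.1 c.2

end Sq1

namespace P45

variable {H V : Type} [Group H] [MulAction H V] {K : GX H V} {P : P45 K} {E : V → Prop}

/-! ### one fold -/

/-- the set `E` in the fold -/
def foldE (D : Sq1 K) (E : V → Prop) (c : D.toF.W) : Prop := E c.1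

namespace ClE

variable (hC : P.ClE E) {T y : V} {a b : V}

/-- a fold of the class: the partner of `T` is `y`, the sides of the other designated tops stay different -/
structure Fd (D : Sq1 K) (P : Pool.Agent.DI.P45 K) (E : V → Prop) : Prop where
  cl : P.ClE E
  top : ∃ a b, P.DT E D.T a b D.y
  nd : ∀ T' a' b' y', P.DT E T' a' b' y' → (∀ g : H, T' ≠ g • D.T) → D.toF.F a' ≠ D.toF.F b'

namespace Fd

variable {D : Sq1 K} (h : Fd D P E)

include h

theorem E_O {x : V} (hx : E x) : ∀ g : H, x ≠ g • D.T := by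
  rintro g rfl
  obtain ⟨a, b, k⟩ := h.top
  exact k.2.2.2.2 ((h.cl.E_iff g _).1 hx)

theorem par_T {g : H} {a b y : V} (k : P.DT E (g • D.T) a b y) : y = g • D.y := by
  obtain ⟨a', b', k'⟩ := h.top
  exact h.cl.par _ _ _ _ _ _ _ k (h.cl.DT_smul g k')

/-- a designated top whose sides and which with its partner stay different -/
theorem core {a' T' b' y' : V} (hq : Q4 P a' T' b' y') (n1 : D.toF.F a' ≠ D.toF.F b')
    (n2 : D.toF.F T' ≠ D.toF.F y') (r1 : D.toF.gx.ar (D.toF.F T') (D.toF.F a'))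
    (r2 : D.toF.gx.ar (D.toF.F T') (D.toF.F b'))
    (r3 : D.toF.gx.rk (D.toF.F y') < D.toF.gx.rk (D.toF.F T'))
    (r4 : ¬ foldE D E (D.toF.F T')) : P.DT E T' a' b' y' ∧ ∀ g : H, T' ≠ g • D.T := by
  -- designated tops with different partner are not folded
  have nf : ∀ {x c d z : V}, P.DT E x c d z → D.toF.F x ≠ D.toF.F z → ∀ g : H, x ≠ g • D.T := by
    rintro x c d z k hne g rfl
    rw [h.par_T k] at hne
    exact hne (D.F_Ty1 g)
  rcases h.cl.q4 hq with (k | k | k | k) | k | k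
  · exact absurd (D.ar_map (nf k n1) k.2.1) (GX.ck_asym r1)
  · exact ⟨k.symm', nf k n2⟩
  · exact absurd (D.ar_map (nf k n1.symm) k.2.2.1) (GX.ck_asym r2)
  · have e1 := D.rk_F_not (nf k n2.symm)
    have e2 := D.rk_F T'
    have := k.2.2.2.1
    omega
  · exact absurd (D.ar_map (h.E_O k.2.2.2.2.2.1) k.2.1) (GX.ck_asym r1)
  · exfalso
    apply r4
    show E (D.toF.F T').1
    rw [D.toF.F_coe, D.f_not (h.E_O k.2.2.2.2.2.1)]
    exact k.2.2.2.2.2.1

/-- the designated tops of the fold -/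
theorem DT_back {c d e k : D.toF.W} (hk : (D.flat.P45 P).DT (foldE D E) c d e k) :
    ∃ a b y, P.DT E c.1 a b y ∧ D.toF.F a = d ∧ D.toF.F b = e ∧ D.toF.F y = k := by
  obtain ⟨hq, r1, r2, r3, r4⟩ := hk
  obtain ⟨a', T', b', y', k1, rfl, rfl, rfl, rfl, n1, n2⟩ := (D.flat.Q4_iff P).1 hq
  obtain ⟨k2, k3⟩ := h.core k1 n1 n2 r1 r2 r3 r4
  refine ⟨a', b', y', ?_, rfl, rfl, rfl⟩
  rw [D.toF.F_coe, D.f_not k3]
  exact k2

/-- the other designated tops are kept -/
theorem DT_img {T' a' b' y' : V} (k : P.DT E T' a' b' y') (hT : ∀ g : H, T' ≠ g • D.T) :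
    (D.flat.P45 P).DT (foldE D E) (D.toF.F T') (D.toF.F a') (D.toF.F b') (D.toF.F y') := by
  have hr : D.toF.gx.rk (D.toF.F y') < D.toF.gx.rk (D.toF.F T') := by
    rw [D.rk_F_not hT]
    exact lt_of_le_of_lt (D.rk_F y') k.2.2.2.1
  refine ⟨(D.flat.Q4_iff P).2 ⟨_, _, _, _, k.1, rfl, rfl, rfl, rfl, h.nd _ _ _ _ k hT, ?_⟩,
    D.ar_map hT k.2.1, D.ar_map hT k.2.2.1, hr, ?_⟩
  · intro e
    rw [e] at hr
    exact absurd hr (lt_irrefl _)
  · show ¬ E (D.toF.F T').1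
    rw [D.toF.F_coe, D.f_not hT]
    exact k.2.2.2.2

/-- the neutral squares of the fold -/
theorem EW_back {c d e k : D.toF.W} (hk : (D.flat.P45 P).EW (foldE D E) c d e k) :
    ∃ a b y, P.EW E c.1 a b y ∧ D.toF.F a = d ∧ D.toF.F b = e ∧ D.toF.F y = k := by
  obtain ⟨hq, r1, r2, r3, r4, r5, r6⟩ := hk
  obtain ⟨a', T', b', y', k1, rfl, rfl, rfl, rfl, n1, n2⟩ := (D.flat.Q4_iff P).1 hq
  have nf : ∀ {x c d z : V}, P.DT E x c d z → D.toF.F x ≠ D.toF.F z → ∀ g : H, x ≠ g • D.T := by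
    rintro x c d z k hne g rfl
    rw [h.par_T k] at hne
    exact hne (D.F_Ty1 g)
  have nE : ∀ {x c d z : V}, P.DT E x c d z → D.toF.F x ≠ D.toF.F z → ¬ foldE D E (D.toF.F x) := by
    intro x c d z k hne hx
    apply k.2.2.2.2
    have hx' : E (D.toF.F x).1 := hx
    rw [D.toF.F_coe, D.f_not (nf k hne)] at hx'
    exact hx'
  rcases h.cl.q4 k1 with (k | k | k | k) | k | k
  · exact absurd (D.ar_map (nf k n1) k.2.1) (GX.ck_asym r1)
  · exact absurd r5 (nE k n2)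
  · exact absurd (D.ar_map (nf k n1.symm) k.2.2.1) (GX.ck_asym r2)
  · exact absurd r6 (nE k n2.symm)
  · exact absurd (D.ar_map (h.E_O k.2.2.2.2.2.1) k.2.1) (GX.ck_asym r1)
  · refine ⟨a', b', y', ?_, rfl, rfl, rfl⟩
    rw [D.toF.F_coe, D.f_not (h.E_O k.2.2.2.2.2.1)]
    exact k.symm'

/-- the passes are kept -/
theorem PE_map {x z : V} (k : P.PE E x z) : (D.flat.P45 P).PE (foldE D E) (D.toF.F x) (D.toF.F z) := by
  have k5 : ∀ {n x z q t : V}, Qn P n x z q t → (D.flat.P45 P).PE (foldE D E) (D.toF.F x) (D.toF.F z) :=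
    fun k => Or.inl ⟨_, _, _, (D.flat.Qn_iff P).2 ⟨_, _, _, _, _, k, rfl, rfl, rfl, rfl, rfl⟩⟩
  -- the own square
  have own : ∀ {g : H} {x b z : V}, P.DT E (g • D.T) x b z →
      (D.flat.P45 P).PE (foldE D E) (D.toF.F x) (D.toF.F z) := by
    intro g x b z k
    have ez : D.toF.F z = D.toF.F (g • D.T) := by rw [h.par_T k, D.F_Ty1]
    rw [ez]
    rcases h.cl.x1 _ _ _ _ k with ⟨n, q, t, k'⟩ | ⟨T', b', k'⟩ | ⟨T', b', k'⟩
    · exact (k5 k').symm'
    · have hT : ∀ g' : H, T' ≠ g' • D.T := D.nO_of_lt (by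
        have := K.ar_rk _ _ k'.2.1
        rwa [K.rk_smul] at this)
      exact Or.inr (Or.inr ⟨_, _, h.DT_img k' hT⟩)
    · have hT : ∀ g' : H, T' ≠ g' • D.T := D.nO_of_lt (by
        have := k'.2.2.2.1
        rwa [K.rk_smul] at this)
      exact Or.inr (Or.inl ⟨_, _, h.DT_img k' hT⟩)
  rcases k with ⟨n, q, t, k⟩ | ⟨T', b', k⟩ | ⟨T', b', k⟩
  · exact k5 k
  · by_cases hT : ∃ g : H, T' = g • D.T
    · obtain ⟨g, rfl⟩ := hT
      exact own k
    · push Not at hT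
      exact Or.inr (Or.inl ⟨_, _, h.DT_img k hT⟩)
  · by_cases hT : ∃ g : H, T' = g • D.T
    · obtain ⟨g, rfl⟩ := hT
      exact (own k).symm'
    · push Not at hT
      exact Or.inr (Or.inr ⟨_, _, h.DT_img k hT⟩)

/-- the square of a translate of `T` is dropped -/
theorem Bt_own {i : K.I} (hi : P.sq i) {j : Fin 4} (hj : P.dt E i j) {g : H}
    (e : P.qt i j = g • D.T) : D.toF.Bt i := by
  have k := hj.DT' hi
  have e2 : D.toF.F (P.qt i j) = D.toF.F (P.qt i (j + 2)) := by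
    rw [e] at k ⊢
    rw [h.par_T k, D.F_Ty1]
  rw [D.flat.Bt4_iff P hi]
  fin_cases j
  · exact Or.inl e2
  · exact Or.inr e2
  · exact Or.inl e2.symm
  · exact Or.inr e2.symm

theorem not_Bt {i : K.I} (hi : P.sq i) {j : Fin 4} (hj : P.dt E i j)
    (hT : ∀ g : H, P.qt i j ≠ g • D.T) : ¬ D.toF.Bt i := by
  have k := hj.DT' hi
  have n1 := h.nd _ _ _ _ k hT
  have n2 : D.toF.F (P.qt i j) ≠ D.toF.F (P.qt i (j + 2)) := by
    intro e
    have e1 := D.rk_F_not hT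
    have e2 := D.rk_F (P.qt i (j + 2))
    have := k.2.2.2.1
    rw [e] at e1
    omega
  exact D.flat.not_Bt4 P hi j n2 n1

/-- THE FOLD IS IN THE CLASS -/
theorem fold : (D.flat.P45 P).ClE (foldE D E) where
  nd := by
    intro i hi
    have h0 := D.flat.opp_ne P (i := i.1) hi i.2 0
    have h1 := D.flat.opp_ne P (i := i.1) hi i.2 1
    exact ⟨h0, h1⟩
  min := D.toF.min h.cl.min
  Es g c hc := h.cl.Es g _ hc
  top := by
    rintro i hi
    have hi' : P.sq i.1 := hi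
    rcases h.cl.top i.1 hi' with ⟨j, hj⟩ | ⟨j, hj⟩
    · left
      have hT : ∀ g : H, P.qt i.1 j ≠ g • D.T := fun g e => i.2 (h.Bt_own hi' hj e)
      refine ⟨j, D.ar_map hT hj.1, D.ar_map hT hj.2.1, ?_, ?_⟩
      · show D.toF.gx.rk (D.toF.F (P.qt i.1 (j + 2))) < D.toF.gx.rk (D.toF.F (P.qt i.1 j))
        rw [D.rk_F_not hT]
        exact lt_of_le_of_lt (D.rk_F _) hj.2.2.1
      · show ¬ E (D.toF.F (P.qt i.1 j)).1
        rw [D.toF.F_coe, D.f_not hT]
        exact hj.2.2.2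
    · right
      have hT := h.E_O hj.2.2.2.2.1
      have hT' := h.E_O hj.2.2.2.2.2
      refine ⟨j, D.ar_map hT hj.1, D.ar_map hT hj.2.1, D.ar_map hT' hj.2.2.1,
        D.ar_map hT' hj.2.2.2.1, ?_, ?_⟩
      · show E (D.toF.F (P.qt i.1 j)).1
        rw [D.toF.F_coe, D.f_not hT]
        exact hj.2.2.2.2.1
      · show E (D.toF.F (P.qt i.1 (j + 2))).1
        rw [D.toF.F_coe, D.f_not hT']
        exact hj.2.2.2.2.2
  one := by
    rintro i i' hi hi' j j' hj hj' g e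
    have key : ∀ (i : D.toF.gx.I) (_ : (D.flat.P45 P).sq i) (j : Fin 4),
        (D.flat.P45 P).dt (foldE D E) i j → P.dt E i.1 j ∧ ∀ g : H, P.qt i.1 j ≠ g • D.T := by
      intro i hi j hj
      have hi' : P.sq i.1 := hi
      have hq : Q4 P (P.qt i.1 (j + 1)) (P.qt i.1 j) (P.qt i.1 (j + 3)) (P.qt i.1 (j + 2)) := by
        have h0 := (Q4_qt (P := P) 1 hi' j).rot.rot.rot.symm
        simp only [one_smul] at h0
        exact h0
      have n1 := D.flat.opp_ne P hi' i.2 (j + 1)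
      rw [show j + 1 + 2 = j + 3 by rw [add_assoc]; rfl] at n1
      obtain ⟨k1, k2⟩ := h.core hq n1 (D.flat.opp_ne P hi' i.2 j) hj.1 hj.2.1 hj.2.2.1 hj.2.2.2
      exact ⟨k1.2, k2⟩
    obtain ⟨k1, k2⟩ := key i hi j hj
    obtain ⟨k3, k4⟩ := key i' hi' j' hj'
    refine Subtype.ext (h.cl.one i.1 i'.1 hi hi' j j' k1 k3 g ?_)
    have e' : g • D.toF.F (P.qt i.1 j) = D.toF.F (P.qt i'.1 j') := e
    rw [← D.toF.F_smul] at e'
    have e2 := congrArg Subtype.val e'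
    rw [D.toF.F_coe, D.toF.F_coe, D.f_not k4, D.f_not] at e2
    · exact e2
    · intro g' hg'
      apply k2 (g⁻¹ * g')
      rw [mul_smul, ← hg', inv_smul_smul]
  par := by
    intro c d e k d' e' k' h1 h2
    obtain ⟨a, b, y, m1, rfl, rfl, rfl⟩ := h.DT_back h1
    obtain ⟨a', b', y', m2, rfl, rfl, rfl⟩ := h.DT_back h2
    rw [h.cl.par _ _ _ _ _ _ _ m1 m2]
  x1 := by
    intro c d e k h1
    obtain ⟨a, b, y, m1, rfl, rfl, rfl⟩ := h.DT_back h1
    have := h.PE_map (h.cl.x1 _ _ _ _ m1)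
    rwa [D.toF.F_val] at this
  xE := by
    intro c d e k h1
    obtain ⟨a, b, y, m1, rfl, rfl, rfl⟩ := h.EW_back h1
    rcases h.cl.xE _ _ _ _ m1 with k1 | k1
    · left
      have := h.PE_map k1
      rwa [D.toF.F_val] at this
    · right
      exact h.PE_map k1

/-- fewer cells -/
theorem card_lt : Nat.card D.toF.gx.I < Nat.card K.I := by
  obtain ⟨a, b, k⟩ := h.top
  obtain ⟨g, i, j, h1, h2, h3, h4⟩ := k.idx h.cl.Es
  have := K.finI
  have hB : D.toF.Bt i := by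
    refine h.Bt_own h1 h2 (g := g⁻¹) ?_
    rw [h3, inv_smul_smul]
  exact Finite.card_subtype_lt (x := i) (not_not.2 hB)

end Fd

/-- the fold of a designated top of maximal rank -/
theorem fd_max (hC : P.ClE E) {T a b y : V} (h : P.DT E T a b y)
    (hm : ∀ T' a' b' y', P.DT E T' a' b' y' → K.rk T' ≤ K.rk T) : Fd (hC.sq1 h) P E where
  cl := hC
  top := ⟨a, b, h⟩
  nd := by
    intro T' a' b' y' k hT e
    have h1 := hm _ _ _ _ k
    have h2 := K.ar_rk _ _ k.2.1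
    have h3 := K.ar_rk _ _ k.2.2.1
    have e' := (hC.sq1 h).toF.F_eq.1 e
    rw [(hC.sq1 h).f_not ((hC.sq1 h).nO_of_gt (by
      show K.rk a' < K.rk T
      omega)), (hC.sq1 h).f_not ((hC.sq1 h).nO_of_gt (by
      show K.rk b' < K.rk T
      omega))] at e'
    exact hC.nab k e'

/-- a designated top of maximal rank -/
theorem exists_max (P : Pool.Agent.DI.P45 K) {E : V → Prop} {T a b y : V} (h : P.DT E T a b y) :
    ∃ T0 a0 b0 y0, P.DT E T0 a0 b0 y0 ∧ ∀ T' a' b' y', P.DT E T' a' b' y' → K.rk T' ≤ K.rk T0 := by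
  classical
  obtain ⟨M, hM⟩ := hw_bound P
  let p : ℕ → Prop := fun r => ∃ T a b y, P.DT E T a b y ∧ K.rk T = r
  have hb : ∀ T a b y, P.DT E T a b y → K.rk T ≤ M := fun T a b y k =>
    hM T a b y ⟨k.1, k.2.1, k.2.2.1⟩
  have h0 : p (K.rk T) := ⟨T, a, b, y, h, rfl⟩
  obtain ⟨T0, a0, b0, y0, h1, h2⟩ := Nat.findGreatest_spec (P := p) (hb _ _ _ _ h) h0
  refine ⟨T0, a0, b0, y0, h1, ?_⟩
  intro T' a' b' y' k
  rw [h2]
  exact Nat.le_findGreatest (hb _ _ _ _ k) ⟨T', a', b', y', k, rfl⟩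

end ClE

end P45

/-! ### hairs -/

namespace P45.ClE

variable {H : Type} [Group H]

/-- the top of a pass which is not a pentagon has larger rank -/
theorem PE_top {V : Type} [MulAction H V] {K : GX H V} {P : P45 K} {E : V → Prop} {x z : V}
    (_ : K.ar x z) (h : P.PE E x z) : (∃ n q t, Qn P n x z q t) ∨
    ∃ T a b y, P.DT E T a b y ∧ K.rk x < K.rk T := by
  rcases h with h | ⟨T, b, h⟩ | ⟨T, b, h⟩
  · exact Or.inl h
  · exact Or.inr ⟨_, _, _, _, h, K.ar_rk _ _ h.2.1⟩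
  · exact Or.inr ⟨_, _, _, _, h, h.2.2.2.1⟩

theorem hair_aux (n : ℕ) : ∀ (V : Type) (_ : MulAction H V) (K : GX H V) (P : P45 K)
    (E : V → Prop), P.ClE E → Nat.card K.I = n → ∀ v c, K.ar v c → (∀ d, K.ar v d → d = c) →
    P.PE E v c → False := by
  induction n using Nat.strong_induction_on with
  | _ n ih =>
    intro V _ K P E hC hn v c hc hd hp
    rcases PE_top hc hp with ⟨m, q, t, k⟩ | ⟨T, a, b, y, k, kr⟩
    · obtain ⟨i, h5, hp⟩ := k.rot.pass
      exact hC.min.hair hc hd h5 hp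
    · obtain ⟨T0, a0, b0, y0, k0, km⟩ := exists_max P k
      have F := hC.fd_max k0 km
      have hr : K.rk v < K.rk T0 := lt_of_lt_of_le kr (km _ _ _ _ k)
      have hv := (hC.sq1 k0).nO_of_gt hr
      refine ih _ (by rw [← hn]; exact F.card_lt) _ _ _ _ _ F.fold rfl _ _
        ((hC.sq1 k0).ar_map hv hc) ?_ (F.PE_map hp)
      intro d h
      obtain ⟨z, h1, rfl⟩ := (hC.sq1 k0).ar_back hv h
      rw [hd z h1]

/-- HAIR: a vertex with one pole has no passes -/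
theorem hair {V : Type} [MulAction H V] {K : GX H V} {P : P45 K} {E : V → Prop} (hC : P.ClE E)
    {v c : V} (hc : K.ar v c) (hd : ∀ d, K.ar v d → d = c) : ¬ P.PE E v c :=
  fun h => hair_aux _ V _ K P E hC rfl v c hc hd h

theorem Gl_map {V W : Type} [MulAction H V] [MulAction H W] (F : V → W)
    (hF : ∀ (h : H) x, F (h • x) = h • F x) {T y u v : V} (h : Gl H T y u v) :
    Gl H (F T) (F y) (F u) (F v) := by
  rcases h with ⟨g, rfl, rfl⟩ | ⟨g, rfl, rfl⟩ | ⟨g, g', rfl, rfl, e⟩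
  · exact Or.inl ⟨g, hF _ _, hF _ _⟩
  · exact Or.inr (Or.inl ⟨g, hF _ _, hF _ _⟩)
  · exact Or.inr (Or.inr ⟨g, g', hF _ _, hF _ _, by rw [← hF, ← hF, e]⟩)

theorem Gl_rk {V : Type} [MulAction H V] {K : GX H V} {T y u v : V} (h : Gl H T y u v) :
    K.rk u = K.rk T ∨ K.rk v = K.rk T := by
  rcases h with ⟨g, rfl, rfl⟩ | ⟨g, rfl, rfl⟩ | ⟨g, g', rfl, rfl, e⟩
  · exact Or.inl (K.rk_smul _ _)
  · exact Or.inr (K.rk_smul _ _)
  · exact Or.inl (K.rk_smul _ _)

theorem nd2_aux (n : ℕ) : ∀ (V : Type) (_ : MulAction H V) (K : GX H V) (P : P45 K)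
    (E : V → Prop), P.ClE E → Nat.card K.I = n → ∀ T a b y, P.DT E T a b y → ∀ x a' b',
    K.ar x a' → K.ar x b' → a' ≠ b' → Gl H T y a' b' → P.PE E x a' → False := by
  induction n using Nat.strong_induction_on with
  | _ n ih =>
    intro V _ K P E hC hn T a b y hT x a' b' xa xb hab hg hp
    have hrx : K.rk T < K.rk x := by
      have h1 := K.ar_rk _ _ xa
      have h2 := K.ar_rk _ _ xb
      rcases Gl_rk (K := K) hg with h | h <;> omega
    rcases PE_top xa hp with ⟨m, q, t, k⟩ | ⟨T1, a1, b1, y1, k, kr⟩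
    · -- a pentagon: fold `T`
      set D := hC.sq1 hT with hD
      have hx : ∀ g : H, x ≠ g • D.T := D.nO_of_lt hrx
      have k' := (D.flat.Qn_iff P).2 ⟨_, _, _, _, _, k, rfl, rfl, rfl, rfl, rfl⟩
      obtain ⟨i, h5, hp⟩ := k'.rot.pass
      refine (D.toF.min hC.min).hair (D.ar_map hx xa) ?_ h5 hp
      intro d h
      obtain ⟨z, h1, rfl⟩ := D.ar_back hx h
      have e : D.toF.F a' = D.toF.F b' := (D.F_iff hab).2 hg
      rcases out_two xa xb hab h1 with rfl | rfl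
      · rfl
      · exact e.symm
    · obtain ⟨T0, a0, b0, y0, k0, km⟩ := exists_max P k
      have F := hC.fd_max k0 km
      have hr : K.rk x < K.rk T0 := lt_of_lt_of_le kr (km _ _ _ _ k)
      have hx := (hC.sq1 k0).nO_of_gt hr
      have hT' := (hC.sq1 k0).nO_of_gt (hrx.trans hr)
      have ha : K.rk a' < K.rk T0 := (K.ar_rk _ _ xa).trans hr
      have hb : K.rk b' < K.rk T0 := (K.ar_rk _ _ xb).trans hr
      refine ih _ (by rw [← hn]; exact F.card_lt) _ _ _ _ _ F.fold rfl _ _ _ _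
        (F.DT_img hT hT') _ _ _
        ((hC.sq1 k0).ar_map hx xa) ((hC.sq1 k0).ar_map hx xb) ?_
        (Gl_map _ (hC.sq1 k0).toF.F_smul hg) (F.PE_map hp)
      intro e
      have e' := (hC.sq1 k0).toF.F_eq.1 e
      rw [(hC.sq1 k0).f_not ((hC.sq1 k0).nO_of_gt ha), (hC.sq1 k0).f_not
        ((hC.sq1 k0).nO_of_gt hb)] at e'
      exact hab e'

/-- ND: a vertex whose poles are identified by one fold has no passes -/
theorem nd2 {V : Type} [MulAction H V] {K : GX H V} {P : P45 K} {E : V → Prop} (hC : P.ClE E)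
    {T a b y x a' b' : V} (hT : P.DT E T a b y) (xa : K.ar x a') (xb : K.ar x b') (hab : a' ≠ b')
    (hg : (hC.sq1 hT).toF.F a' = (hC.sq1 hT).toF.F b') : ¬ P.PE E x a' :=
  fun h => nd2_aux _ V _ K P E hC rfl T a b y hT x a' b' xa xb hab
    (((hC.sq1 hT).F_iff hab).1 hg) h

variable {V : Type} [MulAction H V] {K : GX H V} {P : P45 K} {E : V → Prop}

/-- EVERY SINGLE FOLD keeps the class -/
theorem fd (hC : P.ClE E) {T a b y : V} (h : P.DT E T a b y) : Fd (hC.sq1 h) P E where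
  cl := hC
  top := ⟨a, b, h⟩
  nd _ _ _ _ k _ e := hC.nd2 h k.2.1 k.2.2.1 (hC.nab k) e (hC.x1 _ _ _ _ k)

/-- the sides of a neutral square stay different -/
theorem Fd.ew_ne {D : Sq1 K} (F : Fd D P E) {e a b e' : V} (k : P.EW E e a b e') :
    D.toF.F a ≠ D.toF.F b := by
  intro he
  obtain ⟨a0, b0, k0⟩ := F.top
  have hab : a ≠ b := (k.1.ck_ne F.cl.nd).1
  have hg : (F.cl.sq1 k0).toF.F a = (F.cl.sq1 k0).toF.F b := he
  rcases F.cl.xE _ _ _ _ k with h | h
  · exact F.cl.nd2 k0 k.2.1 k.2.2.1 hab hg h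
  · exact F.cl.nd2 k0 k.2.2.2.1 k.2.2.2.2.1 hab hg h

/-- neutral squares are kept -/
theorem Fd.EW_img {D : Sq1 K} (F : Fd D P E) {e a b e' : V} (k : P.EW E e a b e') :
    (D.flat.P45 P).EW (foldE D E) (D.toF.F e) (D.toF.F a) (D.toF.F b) (D.toF.F e') := by
  have h1 := F.E_O k.2.2.2.2.2.1
  have h2 := F.E_O k.2.2.2.2.2.2
  refine ⟨(D.flat.Q4_iff P).2 ⟨_, _, _, _, k.1, rfl, rfl, rfl, rfl, F.ew_ne k, ?_⟩,
    D.ar_map h1 k.2.1, D.ar_map h1 k.2.2.1, D.ar_map h2 k.2.2.2.1, D.ar_map h2 k.2.2.2.2.1, ?_, ?_⟩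
  · intro e
    have e' := D.toF.F_eq.1 e
    rw [D.f_not h1, D.f_not h2] at e'
    exact (k.1.ck_ne F.cl.nd).2 e'
  · show E (D.toF.F e).1
    rw [D.toF.F_coe, D.f_not h1]
    exact k.2.2.2.2.2.1
  · show E (D.toF.F e').1
    rw [D.toF.F_coe, D.f_not h2]
    exact k.2.2.2.2.2.2

/-- EXACTLY THE OWN SQUARE IS DROPPED: `i0` is the listed square with its designated top in the orbit
of `T` -/
theorem Fd.Bt_iff {D : Sq1 K} (F : Fd D P E) {i : K.I} (hi : P.sq i) : D.toF.Bt i ↔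
    ∃ j, P.dt E i j ∧ ∃ g : H, P.qt i j = g • D.T := by
  constructor
  · intro hB
    rcases F.cl.top i hi with ⟨j, hj⟩ | ⟨j, hj⟩
    · by_contra hcon
      push Not at hcon
      exact F.not_Bt hi hj (hcon j hj) hB
    · exfalso
      have k := hj.EW' hi
      have n2 : D.toF.F (P.qt i j) ≠ D.toF.F (P.qt i (j + 2)) := by
        intro e
        have e' := D.toF.F_eq.1 e
        rw [D.f_not (F.E_O k.2.2.2.2.2.1), D.f_not (F.E_O k.2.2.2.2.2.2)] at e'
        exact (k.1.ck_ne F.cl.nd).2 e'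
      exact D.flat.not_Bt4 P hi j n2 (F.ew_ne k) hB
  · rintro ⟨j, hj, g, e⟩
    exact F.Bt_own hi hj e

/-- pentagons are kept -/
theorem Fd.not_Bt5 {D : Sq1 K} (_ : Fd D P E) {i : K.I} (hi : ¬ P.sq i) : ¬ D.toF.Bt i :=
  D.flat.not_Bt5 P hi

/-- the own square -/
theorem Fd.exists_own {D : Sq1 K} (F : Fd D P E) : ∃ i0, P.sq i0 ∧ (∃ j, P.dt E i0 j ∧
    ∃ g : H, P.qt i0 j = g • D.T) ∧ ∀ i, D.toF.Bt i ↔ i = i0 := by
  obtain ⟨a, b, k⟩ := F.top
  obtain ⟨g, i, j, h1, h2, h3, h4⟩ := k.idx F.cl.Es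
  have h5 : P.qt i j = g⁻¹ • D.T := by rw [h3, inv_smul_smul]
  refine ⟨i, h1, ⟨j, h2, g⁻¹, h5⟩, ?_⟩
  intro i'
  constructor
  · intro hB
    by_cases hi : P.sq i'
    · obtain ⟨j', k1, g', k2⟩ := (F.Bt_iff hi).1 hB
      refine F.cl.one i' i hi h1 j' j k1 h2 (g⁻¹ * g'⁻¹) ?_
      rw [k2, h5, mul_smul, inv_smul_smul]
    · exact absurd hB (F.not_Bt5 hi)
  · rintro rfl
    exact F.Bt_own h1 h2 h5

end P45.ClE

/-! ### the static class -/

namespace P45

variable {H V : Type} [Group H] [MulAction H V] {K : GX H V} {P : P45 K} {E : V → Prop}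

/-- tops of the static class are designated -/
theorem SqE.DT_of (hs : P.SqE E) {T a b y : V} (h : P.Top T a b y) (hE : ¬ E T) :
    P.DT E T a b y := by
  refine ⟨h.1, h.2.1, h.2.2, ?_, hE⟩
  rcases (hs.side _ _ _ _ h).resolve_left hE with k | k
  · exact (K.ar_rk _ _ k).trans (K.ar_rk _ _ h.2.1)
  · exact (K.ar_rk _ _ k).trans (K.ar_rk _ _ h.2.2)

theorem DT.top' {T a b y : V} (h : P.DT E T a b y) : P.Top T a b y := ⟨h.1, h.2.1, h.2.2.1⟩

/-- a strand is a pass -/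
theorem SqE.PE_of (hs : P.SqE E) {T a : V} (e : K.ar T a) (h : 1 ≤ P.X T a) : P.PE E T a := by
  rcases hw_strand h with ⟨n, y, z, k⟩ | ⟨n, q, k, kn⟩
  · exact Or.inl ⟨_, _, _, k⟩
  · rcases k.ck_top hs.top with t | t | t | t
    · -- the top is `n`, the partner is `a`
      by_cases hE : E n
      · exact absurd (hs.Ea _ _ _ _ t hE) (GX.ck_asym e)
      · exact Or.inr (Or.inl ⟨_, _, hs.DT_of t hE⟩)
    · exact absurd t.2.2 (GX.ck_asym kn)
    · exact absurd t.2.2 (GX.ck_asym e)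
    · by_cases hE : E q
      · exact absurd (hs.Ea _ _ _ _ t hE) (GX.ck_asym kn)
      · exact Or.inr (Or.inr ⟨_, _, (hs.DT_of t hE).symm'⟩)

/-- THE STATIC CLASS WITH STRANDS -/
theorem SqE.clE (hs : P.SqE E) (nd : P.ND) (hm : K.Min)
    (x1 : ∀ T a b y, P.Top T a b y → ¬ E T → 1 ≤ P.X T a)
    (xE : ∀ e a b e', P.Top e a b e' → E e → 1 ≤ P.X e a ∨ 1 ≤ P.X e' a) : P.ClE E where
  nd := nd
  min := hm
  Es := hs.Es
  top := by
    intro i hi
    obtain ⟨j, hj⟩ := hs.top i hi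
    have t := P45.ck_tp hi hj
    by_cases hE : E (P.qt i j)
    · exact Or.inr ⟨j, hj.1, hj.2, hs.Ea _ _ _ _ t hE, hs.Ea _ _ _ _ t.symm' hE, hE,
        hs.Ey _ _ _ _ t hE⟩
    · exact Or.inl ⟨j, hj.1, hj.2, (hs.DT_of t hE).2.2.2.1, hE⟩
  one i i' hi hi' j j' hj hj' := hs.one i i' hi hi' j j' ⟨hj.1, hj.2.1⟩ ⟨hj'.1, hj'.2.1⟩
  par T a b y a' b' y' h1 h2 := (hs.par _ _ _ _ _ _ _ h1.top' h2.top').resolve_left h1.2.2.2.2
  x1 T a b y h := hs.PE_of h.2.1 (x1 _ _ _ _ h.top' h.2.2.2.2)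
  xE e a b e' h := (xE _ _ _ _ ⟨h.1, h.2.1, h.2.2.1⟩ h.2.2.2.2.2.1).imp (hs.PE_of h.2.1)
    (hs.PE_of h.2.2.2.1)

/-- a state -/
theorem Cls.clE (hs : P.Cls) (nd : P.ND) (hm : K.Min) : P.ClE (fun _ => False) :=
  hs.toSqE.clE nd hm (fun T a b y h _ => hs.x1 (T, a) ⟨b, y, h⟩) (fun _ _ _ _ _ h => h.elim)

end P45

end Pool.Agent.DI
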