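import Pool.Agent.DI.PmC

/-!
# DI/PmS: the fold step, the hub is the partner of the top

`hP : D.Pt1 D1`: the hub `D.v` is the partner of the top `D1.T`, whose poles are in `D.R` or the pole `D.a`.
`part_corner`: the corner values of `hP.part` at the image of a corner. `part_wcs`: the weighted sums.
`GX.NHr`: no arrow of a hair is passed by a cell. `GX.NBt`: no backtracking.
-/

namespace Pool.Agent.DI

open MulAction
open Pool.Agent.SAF (InC orbs FinOrb oc)

variable {H V : Type} [Group H] [MulAction H V]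

/-- no cell passes the arrow of a vertex with one out-arrow -/
structure GX.NHr (K : GX H V) : Prop where
  l : ∀ (i : K.I) (j : ℕ), K.ar (K.vx i j) (K.vx i (j + 1)) →
    ∃ d, K.ar (K.vx i j) d ∧ d ≠ K.vx i (j + 1)
  r : ∀ (i : K.I) (j : ℕ), K.ar (K.vx i (j + 1)) (K.vx i j) →
    ∃ d, K.ar (K.vx i (j + 1)) d ∧ d ≠ K.vx i j

/-- no backtracking cells -/
def GX.NBt (K : GX H V) : Prop := ∀ (i : K.I) (j : ℕ), K.vx i j ≠ K.vx i (j + 2)

theorem lg_pos {T c p q : V} (h : Tr H T c p q) : lg H T c p q = 1 := if_pos h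

theorem lg_neg {T c p q : V} (h : ¬ Tr H T c p q) : lg H T c p q = 0 := if_neg h

namespace CuD

variable {K : GX H V} {D : CuD K} {D1 : Sq1 K}

theorem not_mv_top (hr : K.rk D.v < K.rk D1.T) {x : V} (h : H) : ¬ D.mv x (h • D1.T) := by
  rintro ⟨g, -, e⟩
  have := congrArg K.rk e
  rw [K.rk_smul, K.rk_smul] at this
  omega

variable (hP : Pt1 D D1)

include hP

theorem Pt1.fF (h : H) : D1.toF.F (h • D1.T) = h • D1.toF.F D.v := by
  apply Subtype.ext
  show D1.toF.f (h • D1.T) = h • (D1.toF.F D.v).1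
  rw [D1.f_T, hP.hy, F_v D1 hP.hr]

/-- the neighbours of the hub are not folded -/
theorem Pt1.nOn {p : V} {g : H} (h : K.E p (g • D.v)) : ¬ D1.toF.O p := by
  rintro ⟨k, rfl⟩
  have hr := hP.hr
  rcases h with h | h
  · have h1 := K.ar_smul k⁻¹ _ _ h
    rw [inv_smul_smul] at h1
    rcases hP.hp _ h1 with h2 | h2
    · have r := K.ar_rk _ _ (D.R_ar _ h2)
      rw [K.rk_smul, K.rk_smul] at r
      omega
    · have r := D.ra
      rw [← h2, K.rk_smul, K.rk_smul] at r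
      omega
  · have r := K.ar_rk _ _ h
    rw [K.rk_smul, K.rk_smul] at r
    omega

/-- the neighbours of the top are not folded -/
theorem Pt1.nOT {p : V} {g : H} (h : K.E p (g • D1.T)) : ¬ D1.toF.O p := by
  rintro ⟨k, rfl⟩
  rcases h with h | h
  · have r := K.ar_rk _ _ h
    rw [K.rk_smul, K.rk_smul] at r
    omega
  · have r := K.ar_rk _ _ h
    rw [K.rk_smul, K.rk_smul] at r
    omega

/-- THE LEGS AT THE HUB -/
theorem Pt1.mv_v {p : V} {g : H} (hE : K.E p (g • D.v))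
    (hn : D1.toF.gx.ar (D1.toF.F p) (D1.toF.F (g • D.v)) →
      ∃ d, D1.toF.gx.ar (D1.toF.F p) d ∧ d ≠ D1.toF.F (g • D.v)) :
    hP.part.mv (D1.toF.F p) (D1.toF.F (g • D.v)) ↔ D.mv p (g • D.v) := by
  have np := hP.nOn hE
  have fp : D1.toF.f p = p := D1.toF.f_not np
  constructor
  · intro hm
    have har := hP.part.mv_ar hm
    have hpn : K.ar p (g • D.v) := by
      rcases hE with hE | hE
      · exact hE
      · exfalso
        have r1 := D1.toF.gx.ar_rk _ _ har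
        have r2 : K.rk (D1.toF.f (g • D.v)) < K.rk (D1.toF.f p) := r1
        rw [fp, f_hub D1 hP.hr] at r2
        have r3 := K.ar_rk _ _ hE
        omega
    obtain ⟨h, ⟨h1, h2⟩, h3⟩ := hm
    have h3' : g • D.v = h • D.v := by
      have := congrArg Subtype.val h3
      rw [D1.toF.smul_coe] at this
      have e1 : (D1.toF.F (g • D.v)).1 = g • D.v := f_hub D1 hP.hr g
      have e2 : (hP.part.v).1 = D.v := F_v D1 hP.hr
      rw [e1, e2] at this
      exact this
    have c1 : (h⁻¹ • D1.toF.F p).1 = h⁻¹ • p := by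
      rw [D1.toF.smul_coe]
      show h⁻¹ • D1.toF.f p = _
      rw [fp]
    refine ⟨h, ?_, h3'⟩
    rcases h2 with h2 | ⟨k, k1, k2, k3⟩
    · rwa [c1] at h2
    · exfalso
      have h4 : K.ar (h⁻¹ • D1.toF.F p).1 D.v := by
        rw [c1]
        have := K.ar_smul h⁻¹ _ _ hpn
        rwa [h3', inv_smul_smul] at this
      have e := hP.one h1 k3 h4 (hP.f_top k1) (D1.toF.f_not (nOv D1 hP.hr))
      exact nOv D1 hP.hr ⟨k, e.symm⟩
  · rintro ⟨h, h1, h2⟩
    have c1 : (h⁻¹ • D1.toF.F p).1 = h⁻¹ • p := by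
      rw [D1.toF.smul_coe]
      show h⁻¹ • D1.toF.f p = _
      rw [fp]
    have hF : D1.toF.F (g • D.v) = h • D1.toF.F D.v := by rw [h2, D1.toF.F_smul]
    refine ⟨h, ⟨?_, Or.inl (by rw [c1]; exact h1)⟩, hF⟩
    have h5 : D1.toF.gx.ar (D1.toF.F p) (D1.toF.F (g • D.v)) := by
      refine ⟨g • D.v, ?_, rfl⟩
      show K.ar (D1.toF.f p) _
      rw [fp, h2]
      have := K.ar_smul h _ _ (D.R_ar _ h1)
      rwa [smul_inv_smul] at this
    obtain ⟨d, d1, d2⟩ := hn h5
    refine ⟨h⁻¹ • d, D1.toF.gx.ar_smul _ _ _ d1, ?_⟩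
    intro e
    apply d2
    rw [hF, ← e, smul_inv_smul]

theorem Pt1.τ_v {p : V} {g : H} (hm : D.mv p (g • D.v))
    (hm' : hP.part.mv (D1.toF.F p) (D1.toF.F (g • D.v))) :
    (hP.part.τ (D1.toF.F p) (D1.toF.F (g • D.v))).1 = D.τ p (g • D.v) := by
  have hE : K.E p (g • D.v) := Or.inl (D.mv_ar hm)
  have fp : D1.toF.f p = p := D1.toF.f_not (hP.nOn hE)
  obtain ⟨h, h0, h3⟩ := hm'
  have h3' : g • D.v = h • D.v := by
    have := congrArg Subtype.val h3
    rw [D1.toF.smul_coe] at this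
    have e1 : (D1.toF.F (g • D.v)).1 = g • D.v := f_hub D1 hP.hr g
    have e2 : (hP.part.v).1 = D.v := F_v D1 hP.hr
    rw [e1, e2] at this
    exact this
  obtain ⟨k, k1, k2⟩ := hm
  -- the element `h⁻¹ * k` fixes the hub, it fixes the pole
  have hk : D.mv (h⁻¹ • p) D.v := by
    have := D.mv_smul h⁻¹ ⟨k, k1, k2⟩
    rwa [h3', inv_smul_smul] at this
  rw [hP.part.τ_eq h0 h3, D.τ_eq k1 k2]
  have c1 : (h⁻¹ • D1.toF.F p).1 = h⁻¹ • p := by
    rw [D1.toF.smul_coe]
    show h⁻¹ • D1.toF.f p = _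
    rw [fp]
  have e3 : (h⁻¹ * k) • D.v = D.v := by
    rw [mul_smul, ← k2, h3', inv_smul_smul]
  have e4 : (h⁻¹ * k) • D.a = D.a := by
    rcases h0 with ⟨h4, h5 | ⟨l, l1, l2, l3⟩⟩
    · rw [c1] at h5
      refine D.stab _ e3 _ k1 ?_
      rw [mul_smul, smul_inv_smul]
      exact h5
    · exfalso
      have h6 : K.ar (h⁻¹ • D1.toF.F p).1 D.v := by
        rw [c1]
        exact D.mv_ar hk
      have e := hP.one h4 l3 h6 (hP.f_top l1) (D1.toF.f_not (nOv D1 hP.hr))
      exact nOv D1 hP.hr ⟨l, e.symm⟩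
  have e5 : k • D.a = h • D.a := by
    rw [mul_smul, inv_smul_eq_iff] at e4
    exact e4
  rw [D1.toF.smul_coe, e5]
  show h • (D1.toF.F D.a).1 = _
  rw [F_a D1 hP.hr]

/-- THE LEGS AT THE TOP -/
theorem Pt1.mv_T {p : V} {g : H} (hE : K.E p (g • D1.T))
    (hn : D1.toF.gx.ar (D1.toF.F p) (D1.toF.F (g • D1.T)) →
      ∃ d, D1.toF.gx.ar (D1.toF.F p) d ∧ d ≠ D1.toF.F (g • D1.T)) :
    (p ≠ g • D.a → hP.part.mv (D1.toF.F p) (D1.toF.F (g • D1.T)) ∧
      hP.part.τ (D1.toF.F p) (D1.toF.F (g • D1.T)) = D1.toF.F (g • D.a)) ∧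
    (p = g • D.a → ¬ hP.part.mv (D1.toF.F p) (D1.toF.F (g • D1.T))) := by
  have np := hP.nOT hE
  have fp : D1.toF.f p = p := D1.toF.f_not np
  have hF : D1.toF.F (g • D1.T) = g • D1.toF.F D.v := hP.fF g
  constructor
  · intro hne
    have c1 : (g⁻¹ • D1.toF.F p).1 = g⁻¹ • p := by
      rw [D1.toF.smul_coe]
      show g⁻¹ • D1.toF.f p = _
      rw [fp]
    have h5 : D1.toF.gx.ar (D1.toF.F p) (D1.toF.F (g • D1.T)) ∧
        ((g⁻¹ • D1.toF.F p).1 ∈ D.R ∨ ∃ h : H, h • D.v = D.v ∧ h • D.a = D.a ∧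
          K.ar (g⁻¹ • D1.toF.F p).1 (h • D1.T)) := by
      rcases hE with hE | hE
      · refine ⟨⟨g • D1.T, ?_, rfl⟩, Or.inr ⟨1, one_smul _ _, one_smul _ _, ?_⟩⟩
        · show K.ar (D1.toF.f p) _
          rw [fp]
          exact hE
        · rw [c1, one_smul]
          have := K.ar_smul g⁻¹ _ _ hE
          rwa [inv_smul_smul] at this
      · have h1 := K.ar_smul g⁻¹ _ _ hE
        rw [inv_smul_smul] at h1
        rcases hP.hp _ h1 with h2 | h2
        · refine ⟨⟨g • D.v, ?_, ?_⟩, Or.inl (by rw [c1]; exact h2)⟩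
          · show K.ar (D1.toF.f p) _
            rw [fp]
            have := K.ar_smul g _ _ (D.R_ar _ h2)
            rwa [smul_inv_smul] at this
          · rw [hF, D1.toF.F_smul]
        · exact absurd (by rw [← h2, smul_inv_smul]) hne
    obtain ⟨h5, h6⟩ := h5
    obtain ⟨d, d1, d2⟩ := hn h5
    have hR : g⁻¹ • D1.toF.F p ∈ hP.part.R := by
      refine ⟨⟨g⁻¹ • d, D1.toF.gx.ar_smul _ _ _ d1, ?_⟩, h6⟩
      intro e
      apply d2
      rw [hF, ← e, smul_inv_smul]
    refine ⟨⟨g, hR, hF⟩, ?_⟩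
    rw [hP.part.τ_eq hR hF, D1.toF.F_smul]
    rfl
  · intro e hm
    have har := hP.part.mv_ar hm
    have r1 : K.rk (D1.toF.F (g • D1.T)).1 < K.rk (D1.toF.F p).1 := D1.toF.gx.ar_rk _ _ har
    have e1 : (D1.toF.F p).1 = g • D.a := by
      rw [e]
      exact f_pa D1 hP.hr g
    have e2 : (D1.toF.F (g • D1.T)).1 = g • D.v := by
      rw [hF, D1.toF.smul_coe, F_v D1 hP.hr]
    rw [e1, e2, K.rk_smul, K.rk_smul] at r1
    have := D.ra
    omega

/-- the pole of the top is determined -/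
theorem Pt1.lgT {p : V} {g : H} (hE : K.E p (g • D1.T)) :
    Tr H D.a D1.T p (g • D1.T) ↔ p = g • D.a := by
  constructor
  · rintro ⟨h, h1, h2⟩
    have h3 : (h⁻¹ * g) • D1.T = D1.T := by rw [mul_smul, h2, inv_smul_smul]
    have h4 : K.E (g⁻¹ • p) D1.T := by
      have := K.E_smul g⁻¹ hE
      rwa [inv_smul_smul] at this
    have r0 : K.rk (g⁻¹ • p) = K.rk D.a := by rw [h1, K.rk_smul, K.rk_smul]
    have ra := D.ra
    have hr := hP.hr
    rcases h4 with h4 | h4
    · have := K.ar_rk _ _ h4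
      omega
    · rcases hP.hp _ h4 with h5 | h5
      · have := K.ar_rk _ _ (D.R_ar _ h5)
        omega
      · rw [← h5, smul_inv_smul]
  · rintro rfl
    exact ⟨g, rfl, rfl⟩

/-- THE CORNER VALUES of the partner form -/
theorem Pt1.part_corner {x y z : V} (h1 : K.E x y) (h2 : K.E z y)
    (hx : D1.toF.gx.ar (D1.toF.F x) (D1.toF.F y) →
      ∃ d, D1.toF.gx.ar (D1.toF.F x) d ∧ d ≠ D1.toF.F y)
    (hz : D1.toF.gx.ar (D1.toF.F z) (D1.toF.F y) →
      ∃ d, D1.toF.gx.ar (D1.toF.F z) d ∧ d ≠ D1.toF.F y)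
    (hne : D1.toF.F x ≠ D1.toF.F z) :
    hP.part.sv (D1.toF.F x) (D1.toF.F y) (D1.toF.F z) =
      D.sv x y z - (lg H D.a D1.T x y + lg H D.a D1.T z y) := by
  by_cases hv : ∃ g : H, y = g • D.v
  · obtain ⟨g, rfl⟩ := hv
    have nl : ∀ p : V, ¬ Tr H D.a D1.T p (g • D.v) := by
      rintro p ⟨h, -, e⟩
      have := congrArg K.rk e
      rw [K.rk_smul, K.rk_smul] at this
      have := hP.hr
      omega
    rw [lg_neg (nl x), lg_neg (nl z), add_zero, sub_zero]
    have m1 := hP.mv_v h1 hx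
    have m2 := hP.mv_v h2 hz
    have fx : (D1.toF.F x).1 = x := D1.toF.f_not (hP.nOn h1)
    have fz : (D1.toF.F z).1 = z := D1.toF.f_not (hP.nOn h2)
    set D' := hP.part with hD'
    by_cases k1 : D.mv x (g • D.v)
    · have t1 := hP.τ_v k1 (m1.2 k1)
      by_cases k2 : D.mv z (g • D.v)
      · have t2 := hP.τ_v k2 (m2.2 k2)
        by_cases k3 : D.τ x (g • D.v) = D.τ z (g • D.v)
        · rw [D.sv_mm k1 k2 k3, D'.sv_mm (m1.2 k1) (m2.2 k2)]
          exact Subtype.ext (by rw [t1, t2, k3])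
        · rw [D.sv_two k1 k2 k3, D'.sv_two (m1.2 k1) (m2.2 k2)]
          intro k
          exact k3 (by rw [← t1, ← t2]; exact congrArg Subtype.val k)
      · by_cases k3 : z = D.τ x (g • D.v)
        · rw [D.sv_τ k1 k3, D'.sv_τ (m1.2 k1)]
          exact Subtype.ext (by rw [t1, fz, k3])
        · rw [D.sv_one k1 k2 k3, D'.sv_one (m1.2 k1) (fun k => k2 (m2.1 k))]
          intro k
          exact k3 (by rw [← t1, ← fz]; exact congrArg Subtype.val k)
    · by_cases k2 : D.mv z (g • D.v)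
      · have t2 := hP.τ_v k2 (m2.2 k2)
        rw [D.sv_symm, D'.sv_symm]
        by_cases k3 : x = D.τ z (g • D.v)
        · rw [D.sv_τ k2 k3, D'.sv_τ (m2.2 k2)]
          exact Subtype.ext (by rw [t2, fx, k3])
        · rw [D.sv_one k2 k1 k3, D'.sv_one (m2.2 k2) (fun k => k1 (m1.1 k))]
          intro k
          exact k3 (by rw [← t2, ← fx]; exact congrArg Subtype.val k)
      · rw [D.sv_not k1 k2, D'.sv_not (fun k => k1 (m1.1 k)) (fun k => k2 (m2.1 k))]
  by_cases hT : ∃ g : H, y = g • D1.T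
  · obtain ⟨g, rfl⟩ := hT
    rw [D.sv_not (not_mv_top hP.hr g) (not_mv_top hP.hr g), zero_sub]
    obtain ⟨a1, a2⟩ := hP.mv_T h1 hx
    obtain ⟨b1, b2⟩ := hP.mv_T h2 hz
    have l1 := hP.lgT h1
    have l2 := hP.lgT h2
    set D' := hP.part with hD'
    by_cases k1 : x = g • D.a
    · have k2 : z ≠ g • D.a := fun k => hne (by rw [k1, k])
      rw [lg_pos (l1.2 k1), lg_neg (fun k => k2 (l2.1 k)), D'.sv_symm, D'.sv_τ (b1 k2).1]
      · norm_num
      · rw [(b1 k2).2, k1]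
    · by_cases k2 : z = g • D.a
      · rw [lg_neg (fun k => k1 (l1.1 k)), lg_pos (l2.2 k2), D'.sv_τ (a1 k1).1]
        · norm_num
        · rw [(a1 k1).2, k2]
      · rw [lg_neg (fun k => k1 (l1.1 k)), lg_neg (fun k => k2 (l2.1 k)),
          D'.sv_mm (a1 k1).1 (b1 k2).1]
        · norm_num
        · rw [(a1 k1).2, (b1 k2).2]
  · have nl : ∀ p : V, ¬ Tr H D.a D1.T p y := by
      rintro p ⟨h, -, e⟩
      exact hT ⟨h, e⟩
    have nm : ∀ p : V, ¬ D.mv p y := by
      rintro p ⟨h, -, e⟩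
      exact hv ⟨h, e⟩
    have fy : D1.toF.f y = y := D1.toF.f_not (fun ⟨h, e⟩ => hT ⟨h, e⟩)
    have nm' : ∀ p : V, ¬ hP.part.mv (D1.toF.F p) (D1.toF.F y) := by
      rintro p ⟨h, -, e⟩
      apply hv
      refine ⟨h, ?_⟩
      have := congrArg Subtype.val e
      rw [D1.toF.smul_coe] at this
      have e2 : (hP.part.v).1 = D.v := F_v D1 hP.hr
      rw [e2] at this
      rw [← fy]
      exact this
    rw [lg_neg (nl x), lg_neg (nl z), D.sv_not (nm x) (nm z), hP.part.sv_not (nm' x) (nm' z)]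
    norm_num

end CuD

/-- the corners of a square, from a place on -/
theorem P45.ccs_at {K : GX H V} (P : P45 K) {i : K.I} (hi : P.sq i) (j : Fin 4)
    (F : V → V → V → ℤ) : K.ccs i F =
      F (P.qt i (j + 3)) (P.qt i j) (P.qt i (j + 1)) + F (P.qt i j) (P.qt i (j + 1)) (P.qt i (j + 2)) +
      F (P.qt i (j + 1)) (P.qt i (j + 2)) (P.qt i (j + 3)) +
      F (P.qt i (j + 2)) (P.qt i (j + 3)) (P.qt i j) := by
  rw [P.ccs4 hi, Fin.sum_univ_four]
  have a : (0 : Fin 4) + 1 = 1 ∧ (0 : Fin 4) + 2 = 2 ∧ (0 : Fin 4) + 3 = 3 ∧ (1 : Fin 4) + 1 = 2 ∧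
    (1 : Fin 4) + 2 = 3 ∧ (1 : Fin 4) + 3 = 0 ∧ (2 : Fin 4) + 1 = 3 ∧ (2 : Fin 4) + 2 = 0 ∧
    (2 : Fin 4) + 3 = 1 ∧ (3 : Fin 4) + 1 = 0 ∧ (3 : Fin 4) + 2 = 1 ∧ (3 : Fin 4) + 3 = 2 := by decide
  obtain ⟨b1, b2, b3, b4, b5, b6, b7, b8, b9, b10, b11, b12⟩ := a
  have c : ∀ j : Fin 4, j = 0 ∨ j = 1 ∨ j = 2 ∨ j = 3 := by decide
  rcases c j with rfl | rfl | rfl | rfl
  · rw [b1, b2, b3, b4, b5, b7, b8, b10, b11]
    ring
  · rw [b1, b2, b4, b5, b6, b7, b8, b10, b11]
  · rw [b1, b2, b4, b5, b7, b8, b9, b10, b11]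
    ring
  · rw [b1, b2, b4, b5, b7, b8, b10, b11, b12]
    ring

namespace CuD

variable {K : GX H V} {D : CuD K} {D1 : Sq1 K}

open Classical in
/-- THE WEIGHTED SUMS, general weights -/
theorem Pt1.part_wcs (hP : Pt1 D D1) (P : P45 K) (hB : ∀ i, D1.toF.Bt i ↔ P.own D1.T i)
    (nh : D1.toF.gx.NHr) (nb : D1.toF.gx.NBt) (w : K.I → ℤ) :
    K.wcs w D.sv = D1.toF.gx.wcs (fun j => w j.1) hP.part.sv +
      (∑ i, if P.own D1.T i then 0 else
        w i * K.ccs i (fun x y z => lg H D.a D1.T x y + lg H D.a D1.T z y)) +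
      ∑ i, if P.own D1.T i then w i * K.ccs i D.sv else 0 := by
  rw [D1.flat.wcs_if P w hP.part.sv]
  unfold GX.wcs
  rw [← Finset.sum_add_distrib, ← Finset.sum_add_distrib]
  refine Finset.sum_congr rfl fun i _ => ?_
  by_cases ho : P.own D1.T i
  · rw [if_pos ((hB i).2 ho), if_pos ho, if_pos ho]
    ring
  · have hb : ¬ D1.toF.Bt i := fun k => ho ((hB i).1 k)
    rw [if_neg hb, if_neg ho, if_neg ho]
    have key : K.ccs i (fun x y z => hP.part.sv (D1.toF.F x) (D1.toF.F y) (D1.toF.F z)) =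
        K.ccs i (fun x y z => D.sv x y z - (lg H D.a D1.T x y + lg H D.a D1.T z y)) := by
      refine K.ccs_congr i fun j => ?_
      have hl : 0 < K.len i := by
        by_cases hs : P.sq i
        · rw [P.tlen4 hs]
          norm_num
        · rw [P.tlen5 hs]
          norm_num
      let i' : D1.toF.gx.I := ⟨i, hb⟩
      have v : ∀ k, D1.toF.gx.vx i' k = D1.toF.F (K.vx i k) := fun k => D1.flat.vx P i' k
      refine hP.part_corner (K.vx_E hl j) (K.vx_E hl (j + 1)).symm ?_ ?_ ?_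
      · have := nh.l i' j
        rw [v, v] at this
        exact this
      · have := nh.r i' (j + 1)
        rw [v, v] at this
        exact this
      · have := nb i' j
        rw [v, v] at this
        exact this
    rw [key, K.ccs_sub]
    ring

open Classical in
/-- THE OWN SQUARE -/
theorem Pt1.own_ccs (hP : Pt1 D D1) (P : P45 K) (hC : P.Cl)
    (hy1 : ∀ a b y, P.TopR D1.T a b y → y = D1.y) {i : K.I} (hi : P.own D1.T i) :
    K.ccs i D.sv = if K.ar D1.T D.a then -1 else 0 := by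
  obtain ⟨hs, h, j, hj, e⟩ := hi
  have ht := (P45.tq_TopR hs hj).smul h
  rw [e] at ht
  have ey := hy1 _ _ _ ht
  rw [hP.hy] at ey
  have hab := hC.nab _ _ _ _ ht
  have sm : ∀ x y z : V, D.sv x y z = D.sv (h • x) (h • y) (h • z) := fun x y z =>
    (D.sv_smul h x y z).symm
  rw [P.ccs_at hs j D.sv, sm (P.qt i (j + 3)), sm (P.qt i j), sm (P.qt i (j + 1)) (P.qt i (j + 2)),
    sm (P.qt i (j + 2)), e, ey]
  set p := h • P.qt i (j + 1) with hp'
  set q := h • P.qt i (j + 3) with hq'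
  have tp : K.ar D1.T p := ht.1.2.1
  have tq : K.ar D1.T q := ht.1.2.2
  have hr := hP.hr
  have hra := D.ra
  have n1 : ∀ x, ¬ D.mv x D1.T := by
    rintro x ⟨g, -, e'⟩
    have := congrArg K.rk e'
    rw [K.rk_smul] at this
    omega
  have n2 : ∀ s, K.ar D1.T s → ∀ x, ¬ D.mv x s := by
    rintro s hs' x ⟨g, -, e'⟩
    have h3 := congrArg K.rk e'
    rw [K.rk_smul] at h3
    rcases hP.hp s hs' with h4 | h4
    · have := K.ar_rk _ _ (D.R_ar _ h4)
      omega
    · rw [h4] at h3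
      omega
  rw [D.sv_not (n1 _) (n1 _), D.sv_not (n2 p tp _) (n2 p tp _), D.sv_not (n2 q tq _) (n2 q tq _)]
  have mR : ∀ s ∈ D.R, D.mv s D.v ∧ D.τ s D.v = D.a := by
    intro s hs'
    have h5 : (1 : H)⁻¹ • s ∈ D.R := by
      rw [inv_one, one_smul]
      exact hs'
    refine ⟨⟨1, h5, (one_smul _ _).symm⟩, ?_⟩
    rw [D.τ_eq h5 (one_smul _ _).symm, one_smul]
  rcases hP.hp p tp with h4 | h4
  · rcases hP.hp q tq with h5 | h5
    · have h6 : ¬ K.ar D1.T D.a := by
        intro h6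
        rcases K.two _ _ _ _ tp tq h6 with k | k | k
        · exact hab k
        · have := K.ar_rk _ _ (D.R_ar _ h5)
          rw [k] at this
          omega
        · have := K.ar_rk _ _ (D.R_ar _ h4)
          rw [k] at this
          omega
      rw [if_neg h6, D.sv_mm (mR p h4).1 (mR q h5).1 (by rw [(mR p h4).2, (mR q h5).2])]
      norm_num
    · rw [if_pos (by rw [← h5]; exact tq), D.sv_τ (mR p h4).1 (by rw [(mR p h4).2, h5])]
      norm_num
  · rcases hP.hp q tq with h5 | h5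
    · rw [if_pos (by rw [← h4]; exact tp), D.sv_symm, D.sv_τ (mR q h5).1 (by rw [(mR q h5).2, h4])]
      norm_num
    · exact absurd (by rw [h4, h5]) hab

end CuD

namespace P45

variable {K : GX H V} {P : P45 K}

/-- the square of a top is unique -/
theorem Cl.own_uniq (hC : P.Cl) {T : V} {i i' : K.I} (h : P.own T i) (h' : P.own T i') : i = i' := by
  obtain ⟨hs, g, j, hj, e⟩ := h
  obtain ⟨hs', g', j', hj', e'⟩ := h'
  refine hC.one i i' hs hs' j j' hj hj' (g'⁻¹ * g) ?_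
  rw [mul_smul, e, ← e', inv_smul_smul]

/-- a top has a square -/
theorem Cl.own_ex {T a b y : V} (h : P.TopR T a b y) : ∃ i, P.own T i := by
  obtain ⟨⟨⟨g, i, j, hi, e⟩, ta, tb⟩, hr⟩ := h
  have c1 : ∀ j : Fin 4, j + 1 + 1 = j + 2 ∧ j + 1 + 3 = j ∧ j + 1 + 2 = j + 3 := by decide
  obtain ⟨d1, d2, d3⟩ := c1 j
  have dn : ∀ {u v : V}, K.ar (g • u) (g • v) → K.ar u v := by
    intro u v k
    have := K.ar_smul g⁻¹ _ _ k
    rwa [inv_smul_smul, inv_smul_smul] at this
  have key : T = g • P.qt i (j + 1) → K.ar T (g • P.qt i (j + 2)) → K.ar T (g • P.qt i j) →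
      y = g • P.qt i (j + 3) → P.own T i := by
    intro e1 a1 a2 e2
    refine ⟨hi, g, j + 1, ⟨⟨?_, ?_⟩, ?_⟩, e1.symm⟩
    · rw [d1]
      rw [e1] at a1
      exact dn a1
    · rw [d2]
      rw [e1] at a2
      exact dn a2
    · rw [d3]
      rw [e1, e2, K.rk_smul, K.rk_smul] at hr
      exact hr
  rcases e with ⟨e0, e1, e2, e3⟩ | ⟨e0, e1, e2, e3⟩
  · exact ⟨i, key e1 (by rw [← e2]; exact tb) (by rw [← e0]; exact ta) e3⟩
  · exact ⟨i, key e1 (by rw [← e2]; exact ta) (by rw [← e0]; exact tb) e3⟩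

end P45

namespace P45

variable {K : GX H V} {P : P45 K}

/-- the place of the top is unique -/
theorem tq_uniq {i : K.I} {j j' : Fin 4} (h : P.tq i j) (h' : P.tq i j') : j = j' := by
  have key : ∀ j : Fin 4, P.tq i j → ¬ P.tq i (j + 1) := by
    intro j h h'
    have e : ∀ j : Fin 4, j + 1 + 3 = j := by decide
    have k := h'.1.2
    rw [e] at k
    exact GX.not_both' h.1.1 k
  have key2 : ∀ j : Fin 4, P.tq i j → ¬ P.tq i (j + 2) := by
    intro j h h'
    have e1 : ∀ j : Fin 4, j + 2 + 2 = j := by decide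
    have k := h'.2
    rw [e1] at k
    have := h.2
    omega
  have hcc : ∀ j j' : Fin 4, j' = j ∨ j' = j + 1 ∨ j' = j + 2 ∨ j = j' + 1 := by decide
  rcases hcc j j' with e | e | e | e
  · exact e.symm
  · rw [e] at h'
    exact absurd h' (key j h)
  · rw [e] at h'
    exact absurd h' (key2 j h)
  · rw [e] at h
    exact absurd h (key j' h')

end P45

namespace CuD

variable {K : GX H V} {D : CuD K} {D1 : Sq1 K}

/-- the square of the top is not reversed if `D.a` is a pole of the top -/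
theorem Pt1.wq_own (hP : Pt1 D D1) (P : P45 K) (hC : P.Cl) {i : K.I} (hi : P.own D1.T i)
    (ha : K.ar D1.T D.a) : P.wq i = 2 := by
  unfold P45.wq
  rw [if_neg]
  rintro ⟨hs, g, j', hj', e1, e2⟩
  obtain ⟨-, h, j, hj, e⟩ := hi
  have ej := P45.tq_uniq hj hj'
  subst ej
  have ht := (P45.tq_TopR hs hj).smul h
  rw [e] at ht
  have hab := hC.nab _ _ _ _ ht
  have e3 : K.rk (h • P.qt i (j + 1)) = K.rk (h • P.qt i (j + 3)) := by
    rw [K.rk_smul, K.rk_smul, ← e2, K.rk_smul]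
  have tp : K.ar D1.T (h • P.qt i (j + 1)) := ht.1.2.1
  have tq : K.ar D1.T (h • P.qt i (j + 3)) := ht.1.2.2
  have hra := D.ra
  rcases hP.hp _ tp with h4 | h4
  · have r := K.ar_rk _ _ (D.R_ar _ h4)
    rcases hP.hp _ tq with h5 | h5
    · have r' := K.ar_rk _ _ (D.R_ar _ h5)
      rcases K.two _ _ _ _ tp tq ha with k | k | k
      · exact hab k
      · rw [k] at r'
        omega
      · rw [k] at r
        omega
    · rw [h5] at e3
      omega
  · rcases hP.hp _ tq with h5 | h5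
    · have r' := K.ar_rk _ _ (D.R_ar _ h5)
      rw [h4] at e3
      omega
    · exact hab (by rw [h4, h5])

open Classical in
/-- THE STEP 'PARTNER' -/
theorem Pt1.part_step (hP : Pt1 D D1) (P : P45 K) (hC : P.Cl)
    (hB : ∀ i, D1.toF.Bt i ↔ P.own D1.T i) (nh : D1.toF.gx.NHr) (nb : D1.toF.gx.NBt)
    {a b : V} (ht : P.TopR D1.T a b D1.y) :
    K.wcs P.wq D.sv = D1.toF.gx.wcs (fun j => P.wq j.1) hP.part.sv +
      if K.ar D1.T D.a then (∑ i, if P.own D1.T i then 0 else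
        P.wq i * K.ccs i (fun x y z => lg H D.a D1.T x y + lg H D.a D1.T z y)) - 2 else 0 := by
  rw [hP.part_wcs P hB nh nb P.wq, add_assoc]
  congr 1
  have hy1 : ∀ a' b' y', P.TopR D1.T a' b' y' → y' = D1.y := fun a' b' y' h' =>
    hC.par _ _ _ _ _ _ _ h' ht
  obtain ⟨i0, h0⟩ := P45.Cl.own_ex ht
  have hu : ∀ i, P.own D1.T i → i = i0 := fun i hi => hC.own_uniq hi h0
  have e2 : (∑ i, if P.own D1.T i then P.wq i * K.ccs i D.sv else 0) =
      P.wq i0 * K.ccs i0 D.sv := by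
    rw [Finset.sum_eq_single i0]
    · rw [if_pos h0]
    · intro i _ hi
      rw [if_neg (fun k => hi (hu i k))]
    · intro h
      exact absurd (Finset.mem_univ _) h
  rw [e2, hP.own_ccs P hC hy1 h0]
  by_cases ha : K.ar D1.T D.a
  · rw [if_pos ha, if_pos ha, hP.wq_own P hC h0 ha]
    ring
  · rw [if_neg ha, if_neg ha, mul_zero, add_zero]
    refine Finset.sum_eq_zero fun i _ => ?_
    by_cases ho : P.own D1.T i
    · rw [if_pos ho]
    · rw [if_neg ho]
      have hl : 0 < K.len i := by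
        by_cases hs : P.sq i
        · rw [P.tlen4 hs]
          norm_num
        · rw [P.tlen5 hs]
          norm_num
      have nt : ∀ x y, K.E x y → ¬ Tr H D.a D1.T x y := by
        rintro _ _ hE ⟨g, rfl, rfl⟩
        have h1 := K.E_smul g⁻¹ hE
        rw [inv_smul_smul, inv_smul_smul] at h1
        rcases h1 with h1 | h1
        · have := K.ar_rk _ _ h1
          have := hP.hr
          have := D.ra
          omega
        · exact ha h1
      have e3 : K.ccs i (fun x y z => lg H D.a D1.T x y + lg H D.a D1.T z y) =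
          K.ccs i (fun _ _ _ => 0) := by
        refine K.ccs_congr i fun j => ?_
        rw [lg_neg (nt _ _ (K.vx_E hl j)), lg_neg (nt _ _ (K.vx_E hl (j + 1)).symm), add_zero]
      rw [e3]
      unfold GX.ccs
      rw [Finset.sum_const_zero, mul_zero]

end CuD

end Pool.Agent.DI
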