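import Pool.Agent.DI.ClA
import Pool.Agent.DI.PmS

/-!
# DI/ClB: the class of the min-cut theorem under one fold

`Cl.toE`, `ClE.toCl`: the class `P.Cl` of DI/PmD is the class `P.ClE` of DI/ClA without opened softs (in a
minimal complex). For `D1 : Sq1 K`, `ht : P.TopR D1.T a b D1.y`: `Cl.fold1`: the fold is in the class,
`Cl.Bt_own`: exactly the own square is dropped, `Cl.wq1`: the weights are the weights, `Cl.card1`: fewer
cells, `Cl.TopR1`, `Cl.TopR_back`: the tops of the fold, `Cl.sides1`: their sides stay different.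
-/

namespace Pool.Agent.DI

open MulAction

namespace P45

variable {H V : Type} [Group H] [MulAction H V] {K : GX H V} {P : P45 K}

/-! ### the two classes -/

theorem tq_dt {E : V → Prop} {i : K.I} {j : Fin 4} (h : P.tq i j) (hE : ¬ E (P.qt i j)) :
    P.dt E i j := ⟨h.1.1, h.1.2, h.2, hE⟩

theorem dt.tq {E : V → Prop} {i : K.I} {j : Fin 4} (h : P.dt E i j) : P.tq i j :=
  ⟨⟨h.1, h.2.1⟩, h.2.2.1⟩

theorem TopR.DT {T a b y : V} (h : P.TopR T a b y) : P.DT (fun _ => False) T a b y :=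
  ⟨h.1.1, h.1.2.1, h.1.2.2, h.2, id⟩

theorem DT.TopR {E : V → Prop} {T a b y : V} (h : P.DT E T a b y) : P.TopR T a b y :=
  ⟨⟨h.1, h.2.1, h.2.2.1⟩, h.2.2.2.1⟩

namespace Cl

variable (hC : P.Cl)

include hC

theorem nd1 : P.ND := by
  have key : ∀ i, P.sq i → ∀ j, P.tq i j → P.qt i (j + 1) ≠ P.qt i (j + 3) ∧
      P.qt i j ≠ P.qt i (j + 2) := by
    intro i hi j hj
    refine ⟨hC.nab _ _ _ _ (tq_TopR hi hj), ?_⟩
    intro e
    have := hj.2
    rw [e] at this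
    exact absurd this (lt_irrefl _)
  intro i hi
  obtain ⟨j, hj⟩ := hC.top i hi
  obtain ⟨h1, h2⟩ := key i hi j hj
  fin_cases j
  · exact ⟨h2, h1⟩
  · exact ⟨h1.symm, h2⟩
  · exact ⟨h2.symm, h1.symm⟩
  · exact ⟨h1, h2.symm⟩

/-- every walk has a top -/
theorem q41 {a q b y : V} (h : Q4 P a q b y) :
    P.TopR a q y b ∨ P.TopR q b a y ∨ P.TopR b y q a ∨ P.TopR y a b q := by
  have tr : ∀ {x c d z : V}, P.Top x c d z → K.rk z < K.rk x → P.TopR x c d z :=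
    fun h1 h2 => ⟨h1, h2⟩
  obtain ⟨g, i, j, hi, h⟩ := h
  obtain ⟨k, hk⟩ := hC.top i hi
  have t := (tq_TopR hi hk).smul g
  obtain ⟨m, rfl⟩ : ∃ m, k = j + m := ⟨k - j, (add_sub_cancel j k).symm⟩
  have key : ∀ a q b y : V, (a = g • P.qt i j ∧ q = g • P.qt i (j + 1) ∧ b = g • P.qt i (j + 2) ∧
      y = g • P.qt i (j + 3)) →
      P.TopR a q y b ∨ P.TopR q b a y ∨ P.TopR b y q a ∨ P.TopR y a b q := by
    rintro a q b y ⟨rfl, rfl, rfl, rfl⟩
    have s1 : ∀ j : Fin 4, j + 1 + 1 = j + 2 := by decide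
    have s2 : ∀ j : Fin 4, j + 1 + 2 = j + 3 := by decide
    have s3 : ∀ j : Fin 4, j + 1 + 3 = j := by decide
    have s4 : ∀ j : Fin 4, j + 2 + 1 = j + 3 := by decide
    have s5 : ∀ j : Fin 4, j + 2 + 2 = j := by decide
    have s6 : ∀ j : Fin 4, j + 2 + 3 = j + 1 := by decide
    have s7 : ∀ j : Fin 4, j + 3 + 1 = j := by decide
    have s8 : ∀ j : Fin 4, j + 3 + 2 = j + 1 := by decide
    have s9 : ∀ j : Fin 4, j + 3 + 3 = j + 2 := by decide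
    fin_cases m
    · left
      have t : P.TopR (g • P.qt i (j + 0)) (g • P.qt i (j + 0 + 1)) (g • P.qt i (j + 0 + 3))
        (g • P.qt i (j + 0 + 2)) := t
      rwa [add_zero] at t
    · right; left
      have t : P.TopR (g • P.qt i (j + 1)) (g • P.qt i (j + 1 + 1)) (g • P.qt i (j + 1 + 3))
        (g • P.qt i (j + 1 + 2)) := t
      rwa [s1, s2, s3] at t
    · right; right; left
      have t : P.TopR (g • P.qt i (j + 2)) (g • P.qt i (j + 2 + 1)) (g • P.qt i (j + 2 + 3))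
        (g • P.qt i (j + 2 + 2)) := t
      rwa [s4, s5, s6] at t
    · right; right; right
      have t : P.TopR (g • P.qt i (j + 3)) (g • P.qt i (j + 3 + 1)) (g • P.qt i (j + 3 + 3))
        (g • P.qt i (j + 3 + 2)) := t
      rwa [s7, s8, s9] at t
  rcases h with h | ⟨h1, h2, h3, h4⟩
  · exact key _ _ _ _ h
  · rcases key b q a y ⟨h1, h2, h3, h4⟩ with k | k | k | k
    · exact Or.inr (Or.inr (Or.inl k.symm'))
    · exact Or.inr (Or.inl k.symm')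
    · exact Or.inl k.symm'
    · exact Or.inr (Or.inr (Or.inr k.symm'))

/-- a second pass of an arrow of a top is a pass in the sense of DI/ClA -/
theorem PE_of {T a b y : V} (h : P.TopR T a b y) (hx : (∃ n q z, Qn P n T a q z) ∨
    ∃ n q, Q4 P n T a q ∧ ¬ (n = b ∧ q = y)) : P.PE (fun _ => False) T a := by
  rcases hx with ⟨n, q, z, k⟩ | ⟨n, q, k, hne⟩
  · exact Or.inl ⟨_, _, _, k⟩
  · rcases hC.q41 k with t | t | t | t
    · exact Or.inr (Or.inl ⟨_, _, t.DT⟩)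
    · exfalso
      apply hne
      have e1 := hC.par _ _ _ _ _ _ _ t h
      refine ⟨?_, e1⟩
      rcases K.two _ _ _ _ h.1.2.1 h.1.2.2 t.1.2.2 with e | e | e
      · exact absurd e (hC.nab _ _ _ _ h)
      · exact e.symm
      · exact absurd e (hC.nab _ _ _ _ t)
    · exact absurd t.1.2.2 (GX.ck_asym h.1.2.1)
    · exact Or.inr (Or.inr ⟨_, _, t.symm'.DT⟩)

/-- the class of DI/ClA -/
theorem toE (hm : K.Min) : P.ClE (fun _ => False) where
  nd := hC.nd1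
  min := hm
  Es _ _ h := h
  top i hi := by
    obtain ⟨j, hj⟩ := hC.top i hi
    exact Or.inl ⟨j, tq_dt hj id⟩
  one i i' hi hi' j j' hj hj' := hC.one i i' hi hi' j j' hj.tq hj'.tq
  par T a b y a' b' y' h1 h2 := hC.par _ _ _ _ _ _ _ h1.TopR h2.TopR
  x1 T a b y h := hC.PE_of h.TopR (hC.x1 _ _ _ _ h.TopR)
  xE e a b e' h := h.2.2.2.2.2.1.elim

end Cl

/-- the class of DI/PmD -/
theorem ClE.toCl {E : V → Prop} (hC : P.ClE E) (hE : ∀ v, ¬ E v) : P.Cl where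
  top i hi := by
    rcases hC.top i hi with ⟨j, hj⟩ | ⟨j, hj⟩
    · exact ⟨j, hj.tq⟩
    · exact absurd hj.2.2.2.2.1 (hE _)
  one i i' hi hi' j j' hj hj' := hC.one i i' hi hi' j j' (tq_dt hj (hE _)) (tq_dt hj' (hE _))
  par T a b y a' b' y' h1 h2 := hC.par T a b y a' b' y'
    ⟨h1.1.1, h1.1.2.1, h1.1.2.2, h1.2, hE _⟩ ⟨h2.1.1, h2.1.2.1, h2.1.2.2, h2.2, hE _⟩
  nab T a b y h := hC.nab (T := T) (a := a) (b := b) (y := y)
    ⟨h.1.1, h.1.2.1, h.1.2.2, h.2, hE _⟩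
  x1 T a b y h := by
    rcases hC.x1 T a b y ⟨h.1.1, h.1.2.1, h.1.2.2, h.2, hE _⟩ with ⟨n, q, t, k⟩ | ⟨n, q, k⟩ |
      ⟨n, q, k⟩
    · exact Or.inl ⟨_, _, _, k⟩
    · refine Or.inr ⟨n, q, k.1.symm.rot, ?_⟩
      rintro ⟨rfl, -⟩
      exact GX.ck_asym k.2.1 h.1.2.2
    · refine Or.inr ⟨q, n, k.1.rot.rot, ?_⟩
      rintro ⟨-, rfl⟩
      have h1 := k.2.2.2.1
      have h2 := h.2
      omega

/-! ### one fold -/

namespace Cl

variable (hC : P.Cl) (hm : K.Min) {D1 : Sq1 K} {a b : V} (ht : P.TopR D1.T a b D1.y)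

include hC hm ht

/-- the fold data of DI/ClA -/
theorem fd1 : ClE.Fd D1 P (fun _ => False) := (hC.toE hm).fd ht.DT

/-- THE FOLD IS IN THE CLASS -/
theorem fold1 : (D1.flat.P45 P).Cl := (hC.fd1 hm ht).fold.toCl fun _ h => h

/-- EXACTLY THE OWN SQUARE IS DROPPED -/
theorem Bt_own (i : K.I) : D1.toF.Bt i ↔ P.own D1.T i := by
  have F := hC.fd1 hm ht
  by_cases hi : P.sq i
  · rw [F.Bt_iff hi]
    constructor
    · rintro ⟨j, hj, g, e⟩
      exact ⟨hi, g⁻¹, j, hj.tq, by rw [e, inv_smul_smul]⟩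
    · rintro ⟨-, g, j, hj, e⟩
      exact ⟨j, tq_dt hj id, g⁻¹, by rw [← e, inv_smul_smul]⟩
  · exact iff_of_false (F.not_Bt5 hi) fun h => hi h.1

/-- fewer cells -/
theorem card1 : Nat.card D1.toF.gx.I < Nat.card K.I := (hC.fd1 hm ht).card_lt

/-- the sides of the other tops stay different -/
theorem sides1 {T c d z : V} (k : P.TopR T c d z) (hT : ∀ g : H, T ≠ g • D1.T) :
    D1.toF.F c ≠ D1.toF.F d := (hC.fd1 hm ht).nd _ _ _ _ k.DT hT

/-- the other tops are kept -/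
theorem TopR1 {T c d z : V} (k : P.TopR T c d z) (hT : ∀ g : H, T ≠ g • D1.T) :
    (D1.flat.P45 P).TopR (D1.toF.F T) (D1.toF.F c) (D1.toF.F d) (D1.toF.F z) :=
  ((hC.fd1 hm ht).DT_img k.DT hT).TopR

/-- the tops of the fold -/
theorem TopR_back {T c d z : D1.toF.W} (k : (D1.flat.P45 P).TopR T c d z) :
    ∃ c' d' z', P.TopR T.1 c' d' z' ∧ (∀ g : H, T.1 ≠ g • D1.T) ∧ D1.toF.F c' = c ∧
      D1.toF.F d' = d ∧ D1.toF.F z' = z := by
  obtain ⟨c', d', z', h1, h2, h3, h4⟩ := (hC.fd1 hm ht).DT_back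
    (c := T) (d := c) (e := d) (k := z) ⟨k.1.1, k.1.2.1, k.1.2.2, k.2, id⟩
  exact ⟨c', d', z', h1.TopR, D1.val_not T, h2, h3, h4⟩

/-- the place of the top -/
theorem tq1 (j : D1.toF.gx.I) (hj : P.sq j.1) (k : Fin 4) : (D1.flat.P45 P).tq j k ↔ P.tq j.1 k := by
  have F := hC.fd1 hm ht
  have c1 := hC.fold1 hm ht
  have key : P.tq j.1 k → (D1.flat.P45 P).tq j k := by
    intro h
    have hT : ∀ g : H, P.qt j.1 k ≠ g • D1.T := fun g e => j.2 ((hC.Bt_own hm ht j.1).2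
      ⟨hj, g⁻¹, k, h, by rw [e, inv_smul_smul]⟩)
    refine ⟨⟨D1.ar_map hT h.1.1, D1.ar_map hT h.1.2⟩, ?_⟩
    show D1.toF.gx.rk (D1.toF.F (P.qt j.1 (k + 2))) < D1.toF.gx.rk (D1.toF.F (P.qt j.1 k))
    rw [D1.rk_F_not hT]
    exact lt_of_le_of_lt (D1.rk_F _) h.2
  refine ⟨fun h => ?_, key⟩
  obtain ⟨k', hk'⟩ := hC.top j.1 hj
  have h2 : (D1.flat.P45 P).tq j k' := by
    have hT : ∀ g : H, P.qt j.1 k' ≠ g • D1.T := fun g e => j.2 ((hC.Bt_own hm ht j.1).2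
      ⟨hj, g⁻¹, k', hk', by rw [e, inv_smul_smul]⟩)
    refine ⟨⟨D1.ar_map hT hk'.1.1, D1.ar_map hT hk'.1.2⟩, ?_⟩
    show D1.toF.gx.rk (D1.toF.F (P.qt j.1 (k' + 2))) < D1.toF.gx.rk (D1.toF.F (P.qt j.1 k'))
    rw [D1.rk_F_not hT]
    exact lt_of_le_of_lt (D1.rk_F _) hk'.2
  rw [tq_uniq h h2]
  exact hk'

/-- reversed squares -/
theorem flq1 (j : D1.toF.gx.I) : (D1.flat.P45 P).flq j ↔ P.flq j.1 := by
  constructor
  · rintro ⟨hs, g, k, hk, e1, e2⟩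
    have hs' : P.sq j.1 := hs
    have hk' := (hC.tq1 hm ht j hs' k).1 hk
    have hT : ∀ g : H, P.qt j.1 k ≠ g • D1.T := fun g e => j.2 ((hC.Bt_own hm ht j.1).2
      ⟨hs', g⁻¹, k, hk', by rw [e, inv_smul_smul]⟩)
    have t := tq_TopR hs' hk'
    have e1' : g • D1.toF.F (P.qt j.1 k) = D1.toF.F (P.qt j.1 k) := e1
    rw [← D1.toF.F_smul] at e1'
    have e3 := congrArg Subtype.val e1'
    rw [D1.toF.F_coe, D1.toF.F_coe, D1.f_not hT, D1.f_not] at e3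
    · refine ⟨hs', g, k, hk', e3, ?_⟩
      have t2 := t.smul g
      rw [e3] at t2
      rcases K.two _ _ _ _ t.1.2.1 t.1.2.2 t2.1.2.1 with h | h | h
      · exact absurd h (hC.nab _ _ _ _ t)
      · exact h.symm
      · exfalso
        have e2' : g • D1.toF.F (P.qt j.1 (k + 1)) = D1.toF.F (P.qt j.1 (k + 3)) := e2
        rw [← D1.toF.F_smul, ← h] at e2'
        exact hC.sides1 hm ht t hT e2'
    · intro g' hg'
      apply hT (g⁻¹ * g')
      rw [mul_smul, ← hg', inv_smul_smul]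
  · rintro ⟨hs, g, k, hk, e1, e2⟩
    refine ⟨hs, g, k, (hC.tq1 hm ht j hs k).2 hk, ?_, ?_⟩
    · show g • D1.toF.F (P.qt j.1 k) = D1.toF.F (P.qt j.1 k)
      rw [← D1.toF.F_smul, e1]
    · show g • D1.toF.F (P.qt j.1 (k + 1)) = D1.toF.F (P.qt j.1 (k + 3))
      rw [← D1.toF.F_smul, e2]

/-- THE WEIGHTS -/
theorem wq1 (j : D1.toF.gx.I) : (D1.flat.P45 P).wq j = P.wq j.1 := by
  unfold wq
  by_cases h : P.flq j.1
  · rw [if_pos h, if_pos ((hC.flq1 hm ht j).2 h)]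
  · rw [if_neg h, if_neg fun k => h ((hC.flq1 hm ht j).1 k)]

/-- the own squares of the other tops -/
theorem own1 {T : V} (hT : ∀ g : H, T ≠ g • D1.T) (j : D1.toF.gx.I) :
    (D1.flat.P45 P).own (D1.toF.F T) j ↔ P.own T j.1 := by
  constructor
  · rintro ⟨hs, g, k, hk, e⟩
    have hs' : P.sq j.1 := hs
    have hk' := (hC.tq1 hm ht j hs' k).1 hk
    have hT' : ∀ g : H, P.qt j.1 k ≠ g • D1.T := fun g e => j.2 ((hC.Bt_own hm ht j.1).2
      ⟨hs', g⁻¹, k, hk', by rw [e, inv_smul_smul]⟩)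
    refine ⟨hs', g, k, hk', ?_⟩
    have e' : g • D1.toF.F (P.qt j.1 k) = D1.toF.F T := e
    rw [← D1.toF.F_smul] at e'
    have e3 := congrArg Subtype.val e'
    rw [D1.toF.F_coe, D1.toF.F_coe, D1.f_not hT, D1.f_not] at e3
    · exact e3
    · intro g' hg'
      apply hT' (g⁻¹ * g')
      rw [mul_smul, ← hg', inv_smul_smul]
  · rintro ⟨hs, g, k, hk, e⟩
    refine ⟨hs, g, k, (hC.tq1 hm ht j hs k).2 hk, ?_⟩
    show g • D1.toF.F (P.qt j.1 k) = D1.toF.F T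
    rw [← D1.toF.F_smul, e]

end Cl

end P45

end Pool.Agent.DI
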