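import Pool.Agent.DI.WkC
import Pool.Agent.DI.BndE

/-!
# Flags and walks against weighted positions

`K.oc_LE`, `K.oc_FL`: orbits of corners / of flags of the cells with `Q` against the sums `K.ccs`.
`P.WC`: the (small) class of squares for which `P.wt i * P.ws i = 2`, `P.wt i = 1` if the walk of `i` is
flipped, `2` otherwise. `sq_count`, `sq_count4`: orbits of walks against weighted positions.
`all_count`: pentagon flags plus walks. `two_sX`, `two_X`: the plain strands.
-/

namespace Pool.Agent.DI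

open MulAction
open Pool.Agent.SAF (InC orbs FinOrb oc mk_eq_iff FinOrb_iff)

namespace GX

variable {H V : Type} [Group H] [MulAction H V] (K : GX H V)

/-- the corner of the position -/
def pe (p : K.Pos) : K.LE := (p, 1)

/-- the flag of the corner -/
def ef (b : Bool) (e : K.LE) : FL K := (e, b)

open Classical in
/-- orbits of the corners of the cells with `Q` -/
theorem oc_LE (Q : K.I → Prop) (G : V → V → V → Prop)
    (hG : ∀ (g : H) x y z, G x y z → G (g • x) (g • y) (g • z)) :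
    (oc H {e : K.LE | Q e.1.1 ∧ G (K.c0 e) (K.c1 e) (K.c2 e)} : ℤ) =
      ∑ i, if Q i then K.ccs i (fun x y z => if G x y z then 1 else 0) else 0 := by
  have h := oc_rep (H := H) (fun p : K.Pos => K.pe p) (fun _ => 1) 1
    (fun _ _ _ => rfl) ?_ (fun e => Q e.1.1 ∧ G (K.c0 e) (K.c1 e) (K.c2 e)) ?_
  · have e1 : {e : K.LE | (∃ (g : H) (p : K.Pos), e = g • K.pe p) ∧
        (Q e.1.1 ∧ G (K.c0 e) (K.c1 e) (K.c2 e))} =
        {e : K.LE | Q e.1.1 ∧ G (K.c0 e) (K.c1 e) (K.c2 e)} := by
      ext e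
      refine ⟨fun h => h.2, fun h => ⟨⟨e.2, e.1, ?_⟩, h⟩⟩
      exact Prod.ext rfl (mul_one e.2).symm
    rw [e1, one_mul] at h
    rw [h, Finset.sum_filter]
    push_cast
    rw [Fintype.sum_sigma]
    refine Finset.sum_congr rfl fun i _ => ?_
    by_cases hi : Q i
    · rw [if_pos hi]
      unfold ccs
      refine Finset.sum_congr rfl fun j _ => ?_
      have e2 : (Q i ∧ G (K.c0 (K.pe ⟨i, j⟩)) (K.c1 (K.pe ⟨i, j⟩)) (K.c2 (K.pe ⟨i, j⟩))) ↔
          G (K.vx i j) (K.vx i (j + 1)) (K.vx i (j + 2)) := by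
        unfold c0 c1 c2 pe
        simp only [one_smul]
        exact ⟨fun h => h.2, fun h => ⟨hi, h⟩⟩
      exact if_congr e2 rfl rfl
    · rw [if_neg hi]
      refine Finset.sum_eq_zero fun j _ => ?_
      rw [if_neg]
      exact fun h => hi h.1
  · intro p
    rw [one_mul, Finset.card_eq_one]
    refine ⟨p, ?_⟩
    ext p'
    constructor
    · intro hp
      obtain ⟨-, g, hg⟩ := Finset.mem_filter.1 hp
      exact Finset.mem_singleton.2 (congrArg (fun e : K.LE => e.1) hg).symm
    · intro hp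
      rw [Finset.mem_singleton.1 hp]
      exact Finset.mem_filter.2 ⟨Finset.mem_univ _, 1, one_smul _ _⟩
  · rintro g e ⟨h1, h2⟩
    refine ⟨h1, ?_⟩
    rw [K.c0_smul, K.c1_smul, K.c2_smul]
    exact hG g _ _ _ h2

open Classical in
/-- orbits of the flags of the cells with `Q` -/
theorem oc_FLp (Q : K.I → Prop) (G : V → V → V → Prop)
    (hG : ∀ (g : H) x y z, G x y z → G (g • x) (g • y) (g • z)) :
    (oc H {f : FL K | Q f.1.1.1 ∧ G (P45.fx f) (P45.fy f) (P45.fz f)} : ℤ) =
      ∑ i, if Q i then K.ccs i (fun x y z => (if G x y z then 1 else 0) + if G z y x then 1 else 0)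
        else 0 := by
  have h1 := K.oc_LE Q G hG
  have h2 := K.oc_LE Q (fun x y z => G z y x) (fun g x y z h => hG g z y x h)
  have hs : oc H {f : FL K | Q f.1.1.1 ∧ G (P45.fx f) (P45.fy f) (P45.fz f)} =
      oc H {e : K.LE | Q e.1.1 ∧ G (K.c0 e) (K.c1 e) (K.c2 e)} +
        oc H {e : K.LE | Q e.1.1 ∧ G (K.c2 e) (K.c1 e) (K.c0 e)} := by
    have hf : FinOrb H {f : FL K | Q f.1.1.1 ∧ G (P45.fx f) (P45.fy f) (P45.fz f)} :=
      P45.fin_FL.mono (Set.subset_univ _)
    rw [oc_split (G := H) hf (fun f : FL K => f.2 = true) (fun _ _ _ _ k => k)]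
    congr 1
    · refine (oc_img (G := H) (K.ef true) (fun _ _ => rfl) ?_ ?_)
      · intro e e' h
        exact congrArg (fun f : FL K => f.1) h
      · ext f
        constructor
        · rintro ⟨e, he, rfl⟩
          exact ⟨he, rfl⟩
        · obtain ⟨e, b⟩ := f
          rintro ⟨he, hb⟩
          have hb : b = true := hb
          subst hb
          exact ⟨e, he, rfl⟩
    · refine (oc_img (G := H) (K.ef false) (fun _ _ => rfl) ?_ ?_)
      · intro e e' h
        exact congrArg (fun f : FL K => f.1) h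
      · ext f
        constructor
        · rintro ⟨e, he, rfl⟩
          exact ⟨he, fun h => Bool.false_ne_true h⟩
        · obtain ⟨e, b⟩ := f
          rintro ⟨he, hb⟩
          have hb : b = false := by
            cases b
            · rfl
            · exact absurd rfl hb
          subst hb
          exact ⟨e, he, rfl⟩
  rw [hs]
  push_cast
  rw [h1, h2, ← Finset.sum_add_distrib]
  refine Finset.sum_congr rfl fun i _ => ?_
  by_cases hi : Q i
  · rw [if_pos hi, if_pos hi, if_pos hi]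
    unfold ccs
    rw [← Finset.sum_add_distrib]
  · rw [if_neg hi, if_neg hi, if_neg hi, add_zero]

/-- the sum over the positions of a cell, four consecutive vertices -/
noncomputable def cc4 (i : K.I) (w : V → V → V → V → ℤ) : ℤ :=
  ∑ j : Fin (K.len i), w (K.vx i j) (K.vx i (j + 1)) (K.vx i (j + 2)) (K.vx i (j + 3))

theorem cc4_ccs (i : K.I) (w : V → V → V → ℤ) : K.cc4 i (fun x y z _ => w x y z) = K.ccs i w := rfl

end GX

namespace P45

variable {H V : Type} [Group H] [MulAction H V] {K : GX H V} (P : P45 K)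

/-- what is used of the squares -/
structure WC : Prop where
  top : ∀ i, P.sq i → ∃ j, P.tp i j
  nopl : P.NoPl
  nab : ∀ T a b y, P.Top T a b y → a ≠ b
  fix : ∀ T a b y, P.Top T a b y → ∀ g : H, g • T = T → g • y = y
  nod : ∀ T a b y, P.Top T a b y → ¬ P.Top y a b T

/-- the walk of `i` is flipped -/
def flp (i : K.I) : Prop := ∃ (g : H) (j : Fin 4), P.tp i j ∧ g • P.qt i j = P.qt i j ∧
  g • P.qt i (j + 1) = P.qt i (j + 3)

open Classical in
/-- THE WEIGHT OF A CELL: `1` for flipped squares, `2` otherwise -/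
noncomputable def wt (i : K.I) : ℕ := if P.sq i ∧ P.flp i then 1 else 2

variable {P}

theorem SqT.wc (hs : P.SqT) : P.WC where
  top := hs.top
  nopl := hs.noPl
  nab := hs.nab
  fix T a b y h g hg := hs.fix h (fun k => k) hg
  nod T a b y h h' := by
    rcases (hs.side _ _ _ _ h).resolve_left (fun k => k) with k | k
    · exact GX.not_both' k h'.2.1
    · exact GX.not_both' k h'.2.2

namespace WC

variable (hc : P.WC)

include hc

/-- a square has one top -/
theorem tp_uniq {i : K.I} (hi : P.sq i) {j j' : Fin 4} (h : P.tp i j) (h' : P.tp i j') : j = j' := by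
  have key : ∀ j : Fin 4, P.tp i j → ¬ P.tp i (j + 1) := by
    intro j h h'
    have e : ∀ j : Fin 4, j + 1 + 3 = j := by decide
    have k := h'.2
    rw [e] at k
    exact GX.not_both' h.1 k
  have key2 : ∀ j : Fin 4, P.tp i j → ¬ P.tp i (j + 2) := by
    intro j h h'
    have e1 : ∀ j : Fin 4, j + 2 + 1 = j + 3 := by decide
    have e2 : ∀ j : Fin 4, j + 2 + 2 = j := by decide
    have e3 : ∀ j : Fin 4, j + 2 + 3 = j + 1 := by decide
    have k1 := P.tp_Top hi h
    have k2 := P.tp_Top hi h'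
    rw [e1, e2, e3] at k2
    exact hc.nod _ _ _ _ k1 k2.symm'
  have hcc : ∀ j j' : Fin 4, j' = j ∨ j' = j + 1 ∨ j' = j + 2 ∨ j = j' + 1 := by decide
  rcases hcc j j' with e | e | e | e
  · exact e.symm
  · rw [e] at h'
    exact absurd h' (key j h)
  · rw [e] at h'
    exact absurd h' (key2 j h)
  · rw [e] at h
    exact absurd h (key j' h')

/-- THE WEIGHT TIMES THE NUMBER OF THE SYMMETRIES -/
theorem wt_ws {i : K.I} (hi : P.sq i) : P.wt i * P.ws i = 2 := by
  classical
  obtain ⟨j, hj⟩ := hc.top i hi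
  have kT := P.tp_Top hi hj
  set T := P.qt i j with hT
  set a := P.qt i (j + 1) with ha
  set b := P.qt i (j + 3) with hb
  set y := P.qt i (j + 2) with hy
  have w0 : P.wk i (j + 3, true) = ((T, a), (y, b)) := by
    have a1 : j + 3 + 1 = j := by
      have : ∀ j : Fin 4, j + 3 + 1 = j := by decide
      exact this j
    have a2 : j + 3 + 2 = j + 1 := by
      have : ∀ j : Fin 4, j + 3 + 2 = j + 1 := by decide
      exact this j
    have a3 : j + 3 + 3 = j + 2 := by
      have : ∀ j : Fin 4, j + 3 + 3 = j + 2 := by decide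
      exact this j
    show ((P.qt i (j + 3 + 1), P.qt i (j + 3 + 2)), (P.qt i (j + 3 + 3), P.qt i (j + 3))) = _
    rw [a1, a2, a3]
  have w1 : P.wk i (j + 2, false) = ((T, b), (y, a)) := by
    have a1 : j + 2 + 2 = j := by
      have : ∀ j : Fin 4, j + 2 + 2 = j := by decide
      exact this j
    have a2 : j + 2 + 1 = j + 3 := by
      have : ∀ j : Fin 4, j + 2 + 1 = j + 3 := by decide
      exact this j
    have a3 : j + 2 + 3 = j + 1 := by
      have : ∀ j : Fin 4, j + 2 + 3 = j + 1 := by decide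
      exact this j
    show ((P.qt i (j + 2 + 2), P.qt i (j + 2 + 1)), (P.qt i (j + 2), P.qt i (j + 2 + 3))) = _
    rw [a1, a2, a3]
  have only : ∀ (x : Fin 4 × Bool) (g : H), g • P.wk i (j + 3, true) = P.wk i x →
      x = (j + 3, true) ∨ x = (j + 2, false) := by
    intro x g hg
    rw [w0] at hg
    obtain ⟨m, c⟩ := x
    have k := kT.smul g
    have e1 := congrArg (fun t : (V × V) × (V × V) => t.1.1) hg
    have e2 := congrArg (fun t : (V × V) × (V × V) => t.1.2) hg
    have e3 := congrArg (fun t : (V × V) × (V × V) => t.2.2) hg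
    cases c
    · right
      have e1 : g • T = P.qt i (m + 2) := e1
      have e2 : g • a = P.qt i (m + 1) := e2
      have e3 : g • b = P.qt i (m + 3) := e3
      have ht : P.tp i (m + 2) := by
        have a1 : ∀ m : Fin 4, m + 2 + 1 = m + 3 := by decide
        have a2 : ∀ m : Fin 4, m + 2 + 3 = m + 1 := by decide
        refine ⟨?_, ?_⟩
        · rw [a1, ← e1, ← e3]
          exact k.2.2
        · rw [a2, ← e1, ← e2]
          exact k.2.1
      have := hc.tp_uniq hi ht hj
      have h2 : m = j + 2 := by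
        rw [← this, add_assoc]
        exact (add_zero m).symm
      rw [h2]
    · left
      have e1 : g • T = P.qt i (m + 1) := e1
      have e2 : g • a = P.qt i (m + 2) := e2
      have e3 : g • b = P.qt i m := e3
      have ht : P.tp i (m + 1) := by
        have a1 : ∀ m : Fin 4, m + 1 + 1 = m + 2 := by decide
        have a2 : ∀ m : Fin 4, m + 1 + 3 = m := by decide
        refine ⟨?_, ?_⟩
        · rw [a1, ← e1, ← e2]
          exact k.2.1
        · rw [a2, ← e1, ← e3]
          exact k.2.2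
      have := hc.tp_uniq hi ht hj
      have h2 : m = j + 3 := by
        rw [← this, add_assoc]
        exact (add_zero m).symm
      rw [h2]
  have hne : ((j + 3, true) : Fin 4 × Bool) ≠ (j + 2, false) := fun h =>
    Bool.false_ne_true (congrArg Prod.snd h).symm
  rw [← P.wcl_eq i (j + 3, true)]
  unfold wcl
  by_cases hf : P.flp i
  · have e : (Finset.univ.filter (fun x => ∃ g : H, g • P.wk i (j + 3, true) = P.wk i x)) =
        {(j + 3, true), (j + 2, false)} := by
      ext x
      rw [Finset.mem_filter, Finset.mem_insert, Finset.mem_singleton]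
      constructor
      · rintro ⟨-, g, hg⟩
        exact only x g hg
      · rintro (rfl | rfl)
        · exact ⟨Finset.mem_univ _, 1, one_smul _ _⟩
        · obtain ⟨g, j', hj', h1, h2⟩ := hf
          have := hc.tp_uniq hi hj' hj
          subst this
          refine ⟨Finset.mem_univ _, g, ?_⟩
          have h3 := hc.fix _ _ _ _ kT g h1
          have h4 : g • b = a := by
            have k := K.ar_smul g _ _ kT.2.2
            rw [h1] at k
            rcases K.two _ _ _ _ kT.2.1 kT.2.2 k with e | e | e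
            · exact absurd e (hc.nab _ _ _ _ kT)
            · exfalso
              exact hc.nab _ _ _ _ kT (smul_left_cancel g (h2.trans e))
            · exact e.symm
          rw [w0, w1]
          exact Prod.ext (Prod.ext h1 h2) (Prod.ext h3 h4)
    rw [e, Finset.card_pair hne]
    unfold wt
    rw [if_pos ⟨hi, hf⟩]
  · have e : (Finset.univ.filter (fun x => ∃ g : H, g • P.wk i (j + 3, true) = P.wk i x)) =
        {(j + 3, true)} := by
      ext x
      rw [Finset.mem_filter, Finset.mem_singleton]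
      constructor
      · rintro ⟨-, g, hg⟩
        rcases only x g hg with h | h
        · exact h
        · exfalso
          rw [h, w0, w1] at hg
          exact hf ⟨g, j, hj, congrArg (fun t : (V × V) × (V × V) => t.1.1) hg,
            congrArg (fun t : (V × V) × (V × V) => t.1.2) hg⟩
      · rintro rfl
        exact ⟨Finset.mem_univ _, 1, one_smul _ _⟩
    rw [e, Finset.card_singleton]
    unfold wt
    rw [if_neg fun h => hf h.2]

end WC

theorem wt_pent {i : K.I} (hi : ¬ P.sq i) : P.wt i = 2 := by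
  unfold wt
  rw [if_neg fun h => hi h.1]

open Classical in
/-- the points and directions with `F` against the positions -/
theorem card_wk {i : K.I} (hi : P.sq i) (F : (V × V) × (V × V) → Prop) :
    (((Finset.univ.filter (fun x : Fin 4 × Bool => F (P.wk i x))).card : ℕ) : ℤ) =
      K.cc4 i (fun x y z u => (if F ((y, z), (u, x)) then 1 else 0) +
        if F ((y, x), (u, z)) then 1 else 0) := by
  have e1 : K.cc4 i (fun x y z u => (if F ((y, z), (u, x)) then (1 : ℤ) else 0) +
        if F ((y, x), (u, z)) then 1 else 0) = ∑ j ∈ Finset.range 4,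
        ((if F ((K.vx i (j + 1), K.vx i (j + 2)), (K.vx i (j + 3), K.vx i j)) then (1 : ℤ) else 0) +
        if F ((K.vx i (j + 1), K.vx i j), (K.vx i (j + 3), K.vx i (j + 2))) then 1 else 0) := by
    unfold GX.cc4
    rw [Finset.sum_range, P.len4 hi]
  have v0 : K.vx i 0 = P.qt i 0 := P.vx4n hi 0 0 rfl
  have v1 : K.vx i 1 = P.qt i 1 := P.vx4n hi 1 1 rfl
  have v2 : K.vx i 2 = P.qt i 2 := P.vx4n hi 2 2 rfl
  have v3 : K.vx i 3 = P.qt i 3 := P.vx4n hi 3 3 rfl
  have v4 : K.vx i 4 = P.qt i 0 := P.vx4n hi 4 0 rfl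
  have v5 : K.vx i 5 = P.qt i 1 := P.vx4n hi 5 1 rfl
  have v6 : K.vx i 6 = P.qt i 2 := P.vx4n hi 6 2 rfl
  rw [e1, Finset.card_filter]
  push_cast
  rw [Fintype.sum_prod_type, Fin.sum_univ_four]
  simp only [Fintype.sum_bool, Finset.sum_range_succ, Finset.sum_range_zero, zero_add, Nat.reduceAdd,
    v0, v1, v2, v3, v4, v5, v6]
  have w : ∀ (j : Fin 4), P.wk i (j, true) = ((P.qt i (j + 1), P.qt i (j + 2)),
    (P.qt i (j + 3), P.qt i j)) := fun _ => rfl
  have w' : ∀ (j : Fin 4), P.wk i (j, false) = ((P.qt i (j + 2), P.qt i (j + 1)),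
    (P.qt i j, P.qt i (j + 3))) := fun _ => rfl
  simp only [w, w']
  have a : (0 : Fin 4) + 1 = 1 ∧ (0 : Fin 4) + 2 = 2 ∧ (0 : Fin 4) + 3 = 3 ∧ (1 : Fin 4) + 1 = 2 ∧
    (1 : Fin 4) + 2 = 3 ∧ (1 : Fin 4) + 3 = 0 ∧ (2 : Fin 4) + 1 = 3 ∧ (2 : Fin 4) + 2 = 0 ∧
    (2 : Fin 4) + 3 = 1 ∧ (3 : Fin 4) + 1 = 0 ∧ (3 : Fin 4) + 2 = 1 ∧ (3 : Fin 4) + 3 = 2 := by decide
  obtain ⟨b1, b2, b3, b4, b5, b6, b7, b8, b9, b10, b11, b12⟩ := a
  rw [b1, b2, b3, b4, b5, b6, b7, b8, b9, b10, b11, b12]
  ring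

open Classical in
/-- ORBITS OF WALKS WITH `F` AGAINST WEIGHTED POSITIONS -/
theorem WC.sq_count4 (hc : P.WC) (F : (V × V) × (V × V) → Prop)
    (hF : ∀ (g : H) t, F t → F (g • t)) :
    (2 : ℤ) * oc H {t | P.W4 t ∧ F t} = ∑ i, if P.sq i then (P.wt i : ℤ) *
      K.cc4 i (fun x y z u => (if F ((y, z), (u, x)) then 1 else 0) +
        if F ((y, x), (u, z)) then 1 else 0) else 0 := by
  have h := walks_count hc.nopl P.wt 2 (fun i hi => hc.wt_ws hi) F hF
  have h' : ((2 * oc H {t | P.W4 t ∧ F t} : ℕ) : ℤ) = ((∑ i ∈ Finset.univ.filter (fun i => P.sq i),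
        P.wt i * (Finset.univ.filter (fun x : Fin 4 × Bool => F (P.wk i x))).card : ℕ) : ℤ) := by
    rw [h]
  push_cast at h'
  rw [h', Finset.sum_filter]
  refine Finset.sum_congr rfl fun i _ => ?_
  by_cases hi : P.sq i
  · rw [if_pos hi, if_pos hi, ← card_wk hi F]
  · rw [if_neg hi, if_neg hi]

open Classical in
/-- ORBITS OF WALKS WITH A PROPERTY OF THE CORNER -/
theorem WC.sq_count (hc : P.WC) (G : V → V → V → Prop)
    (hG : ∀ (g : H) x y z, G x y z → G (g • x) (g • y) (g • z)) :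
    (2 : ℤ) * oc H {t | P.W4 t ∧ G t.2.2 t.1.1 t.1.2} = ∑ i, if P.sq i then (P.wt i : ℤ) *
      K.ccs i (fun x y z => (if G x y z then 1 else 0) + if G z y x then 1 else 0) else 0 := by
  exact hc.sq_count4 (fun t => G t.2.2 t.1.1 t.1.2) (fun g t h => hG g _ _ _ h)

open Classical in
/-- PENTAGON FLAGS AND WALKS WITH A PROPERTY OF THE CORNER -/
theorem WC.all_count (hc : P.WC) (G : V → V → V → Prop)
    (hG : ∀ (g : H) x y z, G x y z → G (g • x) (g • y) (g • z)) :
    (2 : ℤ) * (oc H {f : FL K | ¬ P.sq f.1.1.1 ∧ G (fx f) (fy f) (fz f)} +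
      oc H {t | P.W4 t ∧ G t.2.2 t.1.1 t.1.2}) = ∑ i, (P.wt i : ℤ) *
      K.ccs i (fun x y z => (if G x y z then 1 else 0) + if G z y x then 1 else 0) := by
  rw [mul_add, hc.sq_count G hG, K.oc_FLp (fun i => ¬ P.sq i) G hG, Finset.mul_sum,
    ← Finset.sum_add_distrib]
  refine Finset.sum_congr rfl fun i _ => ?_
  by_cases hi : P.sq i
  · rw [if_neg (not_not.2 hi), if_pos hi, mul_zero, zero_add]
  · rw [if_pos hi, if_neg hi, wt_pent hi, add_zero]
    push_cast
    rfl

open Classical in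
/-- THE PLAIN STRANDS at an invariant set of arrows -/
theorem WC.two_sX (hc : P.WC) (A : Set (V × V)) (hA : ∀ (g : H), ∀ p ∈ A, g • p ∈ A) :
    (2 : ℤ) * P.sX A = ∑ i, (P.wt i : ℤ) * if P.sq i then
      K.ccs i (fun x y z => (if K.ar x y ∧ K.ar y z ∧ (y, z) ∈ A then 1 else 0) +
        if K.ar z y ∧ K.ar y x ∧ (y, x) ∈ A then 1 else 0)
      else K.ccs i (fun x y z => (if K.ar y z ∧ (y, z) ∈ A then 1 else 0) +
        if K.ar y x ∧ (y, x) ∈ A then 1 else 0) := by
  have h1 := K.oc_FLp (fun i => ¬ P.sq i) (fun _ y z => K.ar y z ∧ (y, z) ∈ A)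
    (fun g _ y z h => ⟨K.ar_smul g _ _ h.1, hA g _ h.2⟩)
  have h2 := hc.sq_count (fun x y z => K.ar x y ∧ K.ar y z ∧ (y, z) ∈ A)
    (fun g x y z h => ⟨K.ar_smul g _ _ h.1, K.ar_smul g _ _ h.2.1, hA g _ h.2.2⟩)
  have e1 : {f : FL K | f ∈ P.RP ∧ (fy f, fz f) ∈ A} = {f : FL K | ¬ P.sq f.1.1.1 ∧
      (K.ar (fy f) (fz f) ∧ (fy f, fz f) ∈ A)} := by
    ext f
    exact ⟨fun h => ⟨h.1.1, h.1.2, h.2⟩, fun h => ⟨⟨h.1, h.2.1⟩, h.2.2⟩⟩
  have e2 : {p : (V × V) × (V × V) | p ∈ P.ZP ∧ p.1 ∈ A} = {t | P.W4 t ∧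
      (K.ar t.2.2 t.1.1 ∧ K.ar t.1.1 t.1.2 ∧ (t.1.1, t.1.2) ∈ A)} := by
    ext t
    exact ⟨fun h => ⟨h.1.1, h.1.2.2, h.1.2.1, h.2⟩, fun h => ⟨⟨h.1, h.2.2.1, h.2.1⟩, h.2.2.2⟩⟩
  unfold sX
  push_cast
  rw [e1, e2, mul_add, h1, h2, Finset.mul_sum, ← Finset.sum_add_distrib]
  refine Finset.sum_congr rfl fun i _ => ?_
  by_cases hi : P.sq i
  · rw [if_neg (not_not.2 hi), if_pos hi, if_pos hi, mul_zero, zero_add]
    congr!
  · rw [if_pos hi, if_neg hi, if_neg hi, wt_pent hi, add_zero]
    push_cast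
    congr!

/-- the strands at one arrow are the strands at its orbit -/
theorem X_sX (T a : V) : P.X T a = P.sX {p | omk H p = omk H (T, a)} := by
  rw [X_eq]
  rfl

end P45

end Pool.Agent.DI
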