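import Pool.Agent.DI.SqC
import Pool.Agent.DI.WkD

/-!
# DI/PmD: definitions for the min-cut theorem PMC

`P.tq i j`: the listed square `i` has its top at the place `j`, the partner has smaller rank.
`P.Cl`: the class of the induction. `P.wq i`: `1` for the squares which are reversed by an element of `H`,
`2` otherwise. `D.sv x y z`: the change of length at the corner `x, y, z` under the slide of the cut
data `D`. `P.PMC`: `0 ≤ K.wcs P.wq D.sv` for all `D`. `P.XW T c`: the weighted number of the passes of the
arrow `T, c` by the cells which are not the own square of `T` (twice the number of strands).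
-/

namespace Pool.Agent.DI

open MulAction
open Pool.Agent.SAF (InC orbs FinOrb oc)

variable {H V : Type} [Group H] [MulAction H V]

/-- the value of a corner under the slide: `2`, `1`, `0`, `-1` -/
noncomputable def CuD.sv {K : GX H V} (D : CuD K) (x y z : V) : ℤ := sg D.sl.mv D.sl.τ x y z

open Classical in
/-- the leg `p` of a corner at `q` is a translate of the arrow `T, c` -/
noncomputable def lg (H : Type) {V : Type} [Group H] [MulAction H V] (T c p q : V) : ℤ :=
  if Tr H T c p q then 1 else 0

namespace P45

variable {K : GX H V} (P : P45 K)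

/-- the top of the listed square `i` is at the place `j`, the partner has smaller rank -/
def tq (i : K.I) (j : Fin 4) : Prop := P.tp i j ∧ K.rk (P.qt i (j + 2)) < K.rk (P.qt i j)

/-- `T` is the top of a square with the sides `a`, `b` and the partner `y` of smaller rank -/
def TopR (T a b y : V) : Prop := P.Top T a b y ∧ K.rk y < K.rk T

/-- THE CLASS OF THE INDUCTION (closed under folds `T ~ y`): every square has a top, one orbit of squares
for every top, the partner of a top is unique and has smaller rank, the edges at the top are passed by a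
pentagon or by the walk of another square -/
structure Cl : Prop where
  top : ∀ i, P.sq i → ∃ j, P.tq i j
  one : ∀ i i', P.sq i → P.sq i' → ∀ j j', P.tq i j → P.tq i' j' →
    ∀ h : H, h • P.qt i j = P.qt i' j' → i = i'
  par : ∀ T a b y a' b' y', P.TopR T a b y → P.TopR T a' b' y' → y = y'
  nab : ∀ T a b y, P.TopR T a b y → a ≠ b
  x1 : ∀ T a b y, P.TopR T a b y → (∃ n q z, Qn P n T a q z) ∨
    ∃ n q, Q4 P n T a q ∧ ¬ (n = b ∧ q = y)

/-- the listed square `i` is reversed -/
def flq (i : K.I) : Prop := P.sq i ∧ ∃ (g : H) (j : Fin 4), P.tq i j ∧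
  g • P.qt i j = P.qt i j ∧ g • P.qt i (j + 1) = P.qt i (j + 3)

open Classical in
/-- THE WEIGHT OF A CELL -/
noncomputable def wq (i : K.I) : ℤ := if P.flq i then 1 else 2

/-- THE MIN-CUT PROPERTY -/
def PMC : Prop := ∀ D : CuD K, 0 ≤ K.wcs P.wq D.sv

/-- the listed square `i` is the square of the orbit of the top `T` -/
def own (T : V) (i : K.I) : Prop := P.sq i ∧ ∃ (h : H) (j : Fin 4), P.tq i j ∧ h • P.qt i j = T

open Classical in
/-- the weighted number of the passes of the arrow `T, c` by the cells which are not the square of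
`T`, twice the number of strands -/
noncomputable def XW (T c : V) : ℤ := ∑ i, if P.own T i then 0 else
  P.wq i * K.ccs i (fun x y z => lg H T c x y + lg H T c z y)

variable {P}

theorem wq_pos (i : K.I) : 0 < P.wq i := by
  unfold wq
  split_ifs <;> norm_num

theorem wq_pent {i : K.I} (hi : ¬ P.sq i) : P.wq i = 2 := by
  unfold wq
  rw [if_neg fun h => hi h.1]

/-- in a complex with static squares the two notions of tops are equal -/
theorem SqE.TopR {E : V → Prop} (hs : P.SqE E) {T a b y : V} (h : P.Top T a b y) (hE : ¬ E T) :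
    P.TopR T a b y := by
  refine ⟨h, ?_⟩
  rcases (hs.side _ _ _ _ h).resolve_left hE with k | k
  · exact lt_trans (K.ar_rk _ _ k) (K.ar_rk _ _ h.2.1)
  · exact lt_trans (K.ar_rk _ _ k) (K.ar_rk _ _ h.2.2)

theorem TopR.smul (g : H) {T a b y : V} (h : P.TopR T a b y) :
    P.TopR (g • T) (g • a) (g • b) (g • y) :=
  ⟨h.1.smul g, by rw [K.rk_smul, K.rk_smul]; exact h.2⟩

theorem TopR.symm' {T a b y : V} (h : P.TopR T a b y) : P.TopR T b a y := ⟨h.1.symm', h.2⟩

theorem Cl.fix (hC : P.Cl) {T a b y : V} (h : P.TopR T a b y) {g : H} (hg : g • T = T) :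
    g • y = y := by
  have h1 := h.smul g
  rw [hg] at h1
  exact hC.par _ _ _ _ _ _ _ h1 h

theorem tq_TopR {i : K.I} (hi : P.sq i) {j : Fin 4} (h : P.tq i j) :
    P.TopR (P.qt i j) (P.qt i (j + 1)) (P.qt i (j + 3)) (P.qt i (j + 2)) :=
  ⟨(tp_Top0 hi h.1).symm', h.2⟩

end P45

end Pool.Agent.DI
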