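import Pool.Agent.DI.Hlf2
import Pool.Agent.DI.PmD

/-!
# DI/Hlf3: the cut inequality with flipped squares, statement

`CuD.base`: `0 ≤ Σ w_i u_i` for a minimal complex with listed squares, `u_i` = change of the length of a
pentagon, `u_i = max 0` of it for a square, `w = 2` at pentagons, `w ≥ 2` at squares, `w ≥ 1` at flipped
squares, if no corner of a square has two legs moved to the same target with a leg which is the top of a
double. `pm_base`: the same for the class `P.Cl`.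
-/

namespace Pool.Agent.DI

open MulAction
open Pool.Agent.SAF (InC orbs FinOrb oc)

variable {H V : Type} [Group H] [MulAction H V]

namespace CuD

variable {K : GX H V} (D : CuD K) (P : P45 K)

/-- the cut data as a system of moved arrows -/
noncomputable def hQ : PQa P.hPG := ⟨D.sl, _, _, D.rk1, D.rk2⟩

theorem hN_iff {n : V} : (D.hQ P).N n ↔ D.Nt P n := by
  constructor
  · rintro ⟨d, i, ⟨hi, h, k, a⟩, rfl, h1, h2, h3, h4, h5⟩
    refine ⟨d 0, d 1, d 3, d 4, ?_, h1, h2, h3, h4, h5⟩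
    rcases a with a | a
    · refine ⟨h, i, k, hi, Or.inl ⟨?_, a 1, a 2, a 3, a 4⟩⟩
      rw [a 0, add_zero]
      rfl
    · have e1 : ∀ k : Fin 5, k - 1 = k - 2 + 1 := by decide
      have e0 : ∀ k : Fin 5, k - 0 = k - 2 + 2 := by decide
      have e3 : ∀ k : Fin 5, k - 3 = k - 2 + 4 := by decide
      have e4 : ∀ k : Fin 5, k - 4 = k - 2 + 3 := by decide
      refine ⟨h, i, k - 2, hi, Or.inr ⟨a 2, ?_, ?_, ?_, ?_⟩⟩
      · rw [a 1, e1]
        rfl
      · rw [a 0, e0]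
        rfl
      · rw [a 4, e4]
        rfl
      · rw [a 3, e3]
        rfl
  · rintro ⟨t, v, m, v', ⟨h, i, j, hi, hq⟩, h1, h2, h3, h4, h5⟩
    have key : ∀ d : Fin 5 → V, P.hPG.At d i → d 0 = t → d 1 = v → d 2 = n → d 3 = m → d 4 = v' →
        (D.hQ P).N n := by
      intro d hd e0 e1 e2 e3 e4
      subst e0 e1 e2 e3 e4
      exact ⟨d, i, hd, rfl, h1, h2, h3, h4, h5⟩
    rcases hq with ⟨rfl, rfl, rfl, rfl, rfl⟩ | ⟨rfl, rfl, rfl, rfl, rfl⟩
    · exact key (fun x => h • P.pt i (j + x)) ⟨hi, h, j, Or.inl fun _ => rfl⟩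
        (by simp only [add_zero]) rfl rfl rfl rfl
    · have f1 : ∀ j : Fin 5, j + 2 - 1 = j + 1 := by decide
      have f2 : ∀ j : Fin 5, j + 2 - 2 = j := by decide
      have f3 : ∀ j : Fin 5, j + 2 - 3 = j + 4 := by decide
      have f4 : ∀ j : Fin 5, j + 2 - 4 = j + 3 := by decide
      refine key (fun x => h • P.pt i (j + 2 - x)) ⟨hi, h, j + 2, Or.inr fun _ => rfl⟩ ?_ ?_ ?_ ?_ ?_
      · simp only [sub_zero]
      · show h • P.pt i (j + 2 - 1) = _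
        rw [f1]
      · show h • P.pt i (j + 2 - 2) = _
        rw [f2]
      · show h • P.pt i (j + 2 - 3) = _
        rw [f3]
      · show h • P.pt i (j + 2 - 4) = _
        rw [f4]

variable {P}

/-- tops of doubles of the new complex are old -/
theorem hNt (hnd : P.ND) {z : V ⊕ P.HS} (h : (D.hD P hnd).Nt (P.hP hnd) z) :
    ∃ n, z = Sum.inl n ∧ D.Nt P n := by
  obtain ⟨t, v, m, v', ⟨g, ⟨x, hx⟩, j, hi, hq⟩, h1, h2, h3, h4, h5⟩ := h
  rcases x with i | i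
  swap
  · exact absurd trivial hi
  have hi' : ¬ P.sq i := hi
  have hpt : ∀ k, g • (P.hP hnd).pt ⟨(Sum.inl i : K.I ⊕ {i : K.I // P.Hf i}), hx⟩ k =
      Sum.inl (g • P.pt i k) := fun _ => rfl
  obtain ⟨t0, v0, n0, m0, w0, e1, e2, e3, e4, e5, hQ⟩ : ∃ t0 v0 n0 m0 w0 : V,
      t = Sum.inl t0 ∧ v = Sum.inl v0 ∧ z = Sum.inl n0 ∧ m = Sum.inl m0 ∧ v' = Sum.inl w0 ∧
      Qn P t0 v0 n0 m0 w0 := by
    rcases hq with ⟨e1, e2, e3, e4, e5⟩ | ⟨e1, e2, e3, e4, e5⟩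
    · exact ⟨_, _, _, _, _, e1, e2, e3, e4, e5, g, i, j, hi', Or.inl ⟨rfl, rfl, rfl, rfl, rfl⟩⟩
    · exact ⟨_, _, _, _, _, e3, e2, e1, e5, e4, g, i, j, hi', Or.inr ⟨rfl, rfl, rfl, rfl, rfl⟩⟩
  subst e1 e2 e3 e4 e5
  have k1 := (D.hmv P hnd).1 h1
  have k3 := (D.hmv P hnd).1 h3
  refine ⟨n0, rfl, t0, v0, m0, w0, hQ, k1, h2, k3, ?_, ?_⟩
  · rw [D.hτ P hnd k1] at h4
    exact Sum.inl_injective h4
  · rw [D.hτ P hnd k3] at h5
    exact Sum.inl_injective h5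

/-- the condition at the corners of the squares of the new complex -/
theorem hcond (hnd : P.ND)
    (hN : ∀ i, P.sq i → ∀ j, D.mv (P.qt i j) (P.qt i (j + 1)) →
      D.mv (P.qt i (j + 2)) (P.qt i (j + 1)) →
      D.τ (P.qt i j) (P.qt i (j + 1)) = D.τ (P.qt i (j + 2)) (P.qt i (j + 1)) →
      ¬ D.Nt P (P.qt i j) ∧ ¬ D.Nt P (P.qt i (j + 2)))
    (x : (P.hK hnd).I) (hx : (P.hP hnd).sq x) (j : Fin 4)
    (h1 : (D.hD P hnd).mv ((P.hP hnd).qt x j) ((P.hP hnd).qt x (j + 1)))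
    (h2 : (D.hD P hnd).mv ((P.hP hnd).qt x (j + 2)) ((P.hP hnd).qt x (j + 1)))
    (h3 : (D.hD P hnd).τ ((P.hP hnd).qt x j) ((P.hP hnd).qt x (j + 1)) =
      (D.hD P hnd).τ ((P.hP hnd).qt x (j + 2)) ((P.hP hnd).qt x (j + 1))) :
    ¬ (D.hD P hnd).Nt (P.hP hnd) ((P.hP hnd).qt x j) ∧
      ¬ (D.hD P hnd).Nt (P.hP hnd) ((P.hP hnd).qt x (j + 2)) := by
  obtain ⟨x, hx'⟩ := x
  rcases x with i | i
  · have h1 : (D.hD P hnd).mv (Sum.inl (P.qt i j)) (Sum.inl (P.qt i (j + 1))) := h1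
    have h2 : (D.hD P hnd).mv (Sum.inl (P.qt i (j + 2))) (Sum.inl (P.qt i (j + 1))) := h2
    have h3 : (D.hD P hnd).τ (Sum.inl (P.qt i j)) (Sum.inl (P.qt i (j + 1))) =
      (D.hD P hnd).τ (Sum.inl (P.qt i (j + 2))) (Sum.inl (P.qt i (j + 1))) := h3
    have k1 := (D.hmv P hnd).1 h1
    have k2 := (D.hmv P hnd).1 h2
    rw [D.hτ P hnd k1, D.hτ P hnd k2] at h3
    obtain ⟨m1, m2⟩ := hN i hx j k1 k2 (Sum.inl_injective h3)
    show ¬ (D.hD P hnd).Nt (P.hP hnd) (Sum.inl (P.qt i j)) ∧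
      ¬ (D.hD P hnd).Nt (P.hP hnd) (Sum.inl (P.qt i (j + 2)))
    constructor
    · intro k
      obtain ⟨n, e, k⟩ := D.hNt hnd k
      rw [← Sum.inl_injective e] at k
      exact m1 k
    · intro k
      obtain ⟨n, e, k⟩ := D.hNt hnd k
      rw [← Sum.inl_injective e] at k
      exact m2 k
  · obtain ⟨g, b, hb, g1, g2, g3, g4, e1, e2, hne, hal⟩ := hfl hnd i
    set x : (P.hK hnd).I := ⟨(Sum.inr i : K.I ⊕ {i : K.I // P.Hf i}), hx'⟩ with hxd
    have q0 : (P.hP hnd).qt x 0 = Sum.inl (P.hT i) := rfl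
    have q1 : (P.hP hnd).qt x 1 = Sum.inr (P.hs i) := rfl
    have q2 : (P.hP hnd).qt x 2 = Sum.inl (P.ho i) := rfl
    have q3 : (P.hP hnd).qt x 3 = Sum.inl (P.ha i) := rfl
    have nr : ¬ (D.hD P hnd).Nt (P.hP hnd) (Sum.inr (P.hs i)) := by
      intro k
      obtain ⟨n, e, -⟩ := D.hNt hnd k
      exact absurd e (by simp)
    have nl : ∀ {y : V}, ¬ D.Nt P y → ¬ (D.hD P hnd).Nt (P.hP hnd) (Sum.inl y) := by
      intro y hy k
      obtain ⟨n, e, k⟩ := D.hNt hnd k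
      rw [← Sum.inl_injective e] at k
      exact hy k
    have b2 : P.hj i + 1 + 1 = P.hj i + 2 := by rw [add_assoc]; rfl
    have b3 : P.hj i + 1 + 2 = P.hj i + 3 := by rw [add_assoc]; rfl
    fin_cases j
    · exact absurd h1 (D.hmv_inr P hnd)
    · have h1' : (D.hD P hnd).mv (Sum.inr (P.hs i)) (Sum.inl (P.ho i)) := h1
      obtain ⟨-, h, k1, k2⟩ := D.hmv_s P hnd h1'
      have m1 : D.mv (P.ha i) (P.ho i) := ⟨h, k2 _ e1, k1⟩
      have m2 : D.mv b (P.ho i) := ⟨h, k2 _ e2, k1⟩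
      have m3 : D.τ (P.ha i) (P.ho i) = D.τ b (P.ho i) := by
        rw [D.τ_eq (k2 _ e1) k1, D.τ_eq (k2 _ e2) k1]
      have := hN i.1 (P.hj_spec i).1 (P.hj i + 1)
      rw [b2, b3, ← hb] at this
      obtain ⟨n1, -⟩ := this m1 m2 m3
      exact ⟨nr, nl n1⟩
    · have h1' : (D.hD P hnd).mv (Sum.inl (P.ho i)) (Sum.inl (P.ha i)) := h1
      have h2' : (D.hD P hnd).mv (Sum.inl (P.hT i)) (Sum.inl (P.ha i)) := h2
      have h3' : (D.hD P hnd).τ (Sum.inl (P.ho i)) (Sum.inl (P.ha i)) =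
        (D.hD P hnd).τ (Sum.inl (P.hT i)) (Sum.inl (P.ha i)) := h3
      have m1 := (D.hmv P hnd).1 h1'
      have m2 := (D.hmv P hnd).1 h2'
      rw [D.hτ P hnd m1, D.hτ P hnd m2] at h3'
      obtain ⟨n1, n2⟩ := hN i.1 (P.hj_spec i).1 (P.hj i) m2 m1 (Sum.inl_injective h3').symm
      exact ⟨nl n2, nl n1⟩
    · have h1' : (D.hD P hnd).mv (Sum.inl (P.ha i)) (Sum.inl (P.hT i)) := h1
      have k := D.mv_ar ((D.hmv P hnd).1 h1')
      exact absurd ((K.ar_rk _ _ k).trans (K.ar_rk _ _ e1)) (lt_irrefl _)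

theorem hIsSq (hnd : P.ND) (x : (P.hK hnd).I) (hx : (P.hP hnd).sq x) :
    IsSq (P.hK hnd) x ((P.hP hnd).qt x) := by
  refine ⟨(P.hP hnd).cb4 x hx, (P.hP hnd).cw4 x hx, ?_, ?_⟩
  · obtain ⟨x | x, hx'⟩ := x
    · exact fun e => (hnd x hx).1 (Sum.inl_injective e)
    · exact fun e => P45.ND.h P hnd (P.hj_spec x).1 (P.hj x) (Sum.inl_injective e)
  · obtain ⟨x | x, hx'⟩ := x
    · exact fun e => (hnd x hx).2 (Sum.inl_injective e)
    · intro e
      have e' : (Sum.inr (P.hs x) : V ⊕ P.HS) = Sum.inl (P.ha x) := e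
      exact absurd e' (by simp)

open Classical in
theorem sum_sub_if {A : Type} [Fintype A] (p : A → Prop) (f : A → ℤ) :
    ∑ x : {x // p x}, f x.1 = ∑ x, if p x then f x else 0 := by
  rw [← Finset.sum_filter, Finset.sum_subtype ((Finset.univ : Finset A).filter p) (p := p)
    (fun x => by simp) f]

open Classical in
/-- THE CUT INEQUALITY WITH FLIPPED SQUARES -/
theorem base (hm : K.Min) (hnd : P.ND)
    (hN : ∀ i, P.sq i → ∀ j, D.mv (P.qt i j) (P.qt i (j + 1)) →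
      D.mv (P.qt i (j + 2)) (P.qt i (j + 1)) →
      D.τ (P.qt i j) (P.qt i (j + 1)) = D.τ (P.qt i (j + 2)) (P.qt i (j + 1)) →
      ¬ D.Nt P (P.qt i j) ∧ ¬ D.Nt P (P.qt i (j + 2)))
    (w : K.I → ℤ) (w5 : ∀ i, ¬ P.sq i → w i = 2)
    (w4 : ∀ i, P.sq i → 2 ≤ w i ∨ (1 ≤ w i ∧ P.Hf i) ∨ (0 ≤ w i ∧ K.ccs i D.hv ≤ 0)) :
    0 ≤ ∑ i, w i * (if P.sq i then max 0 (K.ccs i D.hv) else K.ccs i D.hv) := by
  set D' := D.hD P hnd with hD'
  set Q := D'.hQ (P.hP hnd) with hQ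
  have h := Q.sum_nonneg_sq (P.hK_min hnd hm) (P.hP hnd).qt
    (fun x hx => hIsSq hnd x (not_not.1 hx)) (by
      intro x hx j h1 h2 h3
      obtain ⟨n1, n2⟩ := D.hcond hnd hN x (not_not.1 hx) j h1 h2 h3
      exact iff_of_false (fun k => n1 ((D'.hN_iff (P.hP hnd)).1 k))
        (fun k => n2 ((D'.hN_iff (P.hP hnd)).1 k)))
  have ht : ∀ x, Q.t x = (P.hK hnd).ccs x D'.hv := fun x => (P.hK hnd).csg_ccs _ _ x
  -- the contributions
  set u : K.I → ℤ := fun i => if P.sq i then max 0 (K.ccs i D.hv) else K.ccs i D.hv with hu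
  let F : K.I ⊕ {i : K.I // P.Hf i} → ℤ := Sum.elim (fun i => 2 * u i) (fun i => u i.1)
  have key : ∀ (p q : Prop) [Decidable p] [Decidable q] (t c : ℤ), (p ↔ ¬ q) → t = c →
      2 * (if p then t else max 0 t) = 2 * (if q then max 0 c else c) := by
    intro p q _ _ t c h1 h2
    by_cases hq : q
    · rw [if_pos hq, if_neg (fun k => h1.1 k hq), h2]
    · rw [if_neg hq, if_pos (h1.2 hq), h2]
  have key2 : ∀ (p : Prop) [Decidable p] (t : ℤ), ¬ p →
      2 * (if p then t else max 0 t) = 2 * max 0 t := by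
    intro p _ t h1
    rw [if_neg h1]
  have key3 : ∀ t t' c : ℤ, c = 2 * t' → t = t' → 2 * max 0 t = max 0 c := by
    rintro t t' c rfl rfl
    rcases le_total 0 t with k | k
    · rw [max_eq_right k, max_eq_right (by linarith)]
    · rw [max_eq_left k, max_eq_left (by linarith), mul_zero]
  have hF : ∀ x : (P.hK hnd).I, 2 * (if (P.hP hnd).hPG.five x then Q.t x else max 0 (Q.t x)) =
      F x.1 := by
    rintro ⟨i | i, hx⟩
    · have e : (P.hK hnd).ccs ⟨(Sum.inl i : K.I ⊕ {i : K.I // P.Hf i}), hx⟩ D'.hv =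
          K.ccs i D.hv := by
        by_cases hi : P.sq i
        · rw [P.ccs4 hi]
          refine ((P.hP hnd).ccs4 (i := ⟨(Sum.inl i : K.I ⊕ {i : K.I // P.Hf i}), hx⟩) hi
            D'.hv).trans ?_
          exact Finset.sum_congr rfl fun j _ => D.hc_old P hnd _ _ _
        · rw [P.ccs5 hi]
          refine ((P.hP hnd).ccs5 (i := ⟨(Sum.inl i : K.I ⊕ {i : K.I // P.Hf i}), hx⟩) hi
            D'.hv).trans ?_
          exact Finset.sum_congr rfl fun j _ => D.hc_old P hnd _ _ _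
      exact (key ((P.hP hnd).hPG.five ⟨(Sum.inl i : K.I ⊕ {i : K.I // P.Hf i}), hx⟩) (P.sq i) _ _
        Iff.rfl ((ht _).trans e)).trans rfl
    · have e := D.hc_half hnd ⟨(Sum.inr i : K.I ⊕ {i : K.I // P.Hf i}), hx⟩ i rfl
      have hi : P.sq i.1 := (P.hj_spec i).1
      have hs : ¬ (P.hP hnd).hPG.five ⟨(Sum.inr i : K.I ⊕ {i : K.I // P.Hf i}), hx⟩ :=
        fun k => k trivial
      refine (key2 _ _ hs).trans ?_
      have e2 : u i.1 = max 0 (K.ccs i.1 D.hv) := if_pos hi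
      refine Eq.trans ?_ e2.symm
      exact key3 _ _ _ e (ht _)
  have h6 : ∀ (I J : Fintype {x : K.I ⊕ {i : K.I // P.Hf i} // P.hJ x})
      (f : {x : K.I ⊕ {i : K.I // P.Hf i} // P.hJ x} → ℤ),
      (@Finset.sum _ _ _ (@Finset.univ _ I) f) = @Finset.sum _ _ _ (@Finset.univ _ J) f := by
    intro I J f
    rw [Subsingleton.elim I J]
  have h1 : 0 ≤ ∑ x : (P.hK hnd).I, F x.1 := by
    have : ∑ x : (P.hK hnd).I, F x.1 = 2 * ∑ x : (P.hK hnd).I,
        (if (P.hP hnd).hPG.five x then Q.t x else max 0 (Q.t x)) := by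
      rw [Finset.mul_sum]
      exact Finset.sum_congr rfl fun x _ => (hF x).symm
    rw [this]
    linarith
  have h2 : ∑ x : (P.hK hnd).I, F x.1 =
      ∑ x : K.I ⊕ {i : K.I // P.Hf i}, if P.hJ x then F x else 0 := by
    have k1 : ∑ x : (P.hK hnd).I, F x.1 =
        ∑ x : {x : K.I ⊕ {i : K.I // P.Hf i} // P.hJ x}, F x.1 := h6 _ _ _
    exact k1.trans (sum_sub_if (A := K.I ⊕ {i : K.I // P.Hf i}) P.hJ F)
  have h3 : ∑ x : K.I ⊕ {i : K.I // P.Hf i}, (if P.hJ x then F x else 0) =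
      ∑ i : K.I, (if P.Hf i then u i else 2 * u i) := by
    rw [Fintype.sum_sum_type]
    have k1 : ∑ i : K.I, (if P.hJ (Sum.inl i : K.I ⊕ {i : K.I // P.Hf i}) then
        F (Sum.inl i) else 0) = ∑ i : K.I, (if P.Hf i then 0 else 2 * u i) := by
      refine Finset.sum_congr rfl fun i _ => ?_
      by_cases hi : P.Hf i
      · rw [if_neg (fun k => (P.hJ_inl i).1 k hi), if_pos hi]
      · rw [if_pos ((P.hJ_inl i).2 hi), if_neg hi]
        rfl
    have k2 : ∑ i : {i : K.I // P.Hf i}, (if P.hJ (Sum.inr i : K.I ⊕ {i : K.I // P.Hf i}) then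
        F (Sum.inr i) else 0) = ∑ i : K.I, (if P.Hf i then u i else 0) := by
      refine Eq.trans ?_ (sum_sub_if P.Hf u)
      refine Finset.sum_congr rfl fun i _ => ?_
      rw [if_pos (P.hJ_inr i)]
      rfl
    rw [k1, k2, ← Finset.sum_add_distrib]
    refine Finset.sum_congr rfl fun i _ => ?_
    by_cases hi : P.Hf i
    · rw [if_pos hi, if_pos hi, if_pos hi, zero_add]
    · rw [if_neg hi, if_neg hi, if_neg hi, add_zero]
  rw [h2, h3] at h1
  refine h1.trans (Finset.sum_le_sum fun i _ => ?_)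
  show (if P.Hf i then u i else 2 * u i) ≤ w i * u i
  by_cases hi : P.sq i
  · have hu0 : u i = max 0 (K.ccs i D.hv) := by
      rw [hu]
      simp only [if_pos hi]
    have hu1 : 0 ≤ u i := by
      rw [hu0]
      exact le_max_left _ _
    rcases w4 i hi with k | ⟨k, k'⟩ | ⟨k, k'⟩
    · by_cases hf : P.Hf i
      · rw [if_pos hf]
        nlinarith
      · rw [if_neg hf]
        nlinarith
    · rw [if_pos k']
      nlinarith
    · have hu2 : u i = 0 := by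
        rw [hu0]
        exact max_eq_left k'
      rw [hu2]
      simp
  · have hf : ¬ P.Hf i := fun ⟨j, hj⟩ => hi hj.1
    rw [if_neg hf, w5 i hi]

end CuD

namespace P45

variable {K : GX H V} {P : P45 K}

/-- in the class `P.Cl` no square is degenerate -/
theorem Cl.hnd (hC : P.Cl) : P.ND := by
  intro i hi
  obtain ⟨j, hj⟩ := hC.top i hi
  have h1 := hC.nab _ _ _ _ (tq_TopR hi hj)
  have h2 : P.qt i j ≠ P.qt i (j + 2) := fun e => by
    have := hj.2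
    rw [← e] at this
    exact lt_irrefl _ this
  fin_cases j
  · exact ⟨h2, h1⟩
  · exact ⟨h1.symm, h2⟩
  · exact ⟨h2.symm, h1.symm⟩
  · exact ⟨h1, h2.symm⟩

theorem Cl.hf (hC : P.Cl) {i : K.I} (h : P.flq i) : P.Hf i := by
  obtain ⟨hi, g, j, hj, g1, g2⟩ := h
  exact ⟨j, hi, hj.1.1, g, g1, hC.fix (tq_TopR hi hj) g1, g2⟩

open Classical in
/-- THE BASE OF THE MIN-CUT THEOREM -/
theorem pm_base (hC : P.Cl) (hm : K.Min) (D : CuD K)
    (hN : ∀ i, P.sq i → ∀ j, D.mv (P.qt i j) (P.qt i (j + 1)) →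
      D.mv (P.qt i (j + 2)) (P.qt i (j + 1)) →
      D.τ (P.qt i j) (P.qt i (j + 1)) = D.τ (P.qt i (j + 2)) (P.qt i (j + 1)) →
      ¬ D.Nt P (P.qt i j) ∧ ¬ D.Nt P (P.qt i (j + 2))) :
    0 ≤ ∑ i, P.wq i * (if P.sq i then max 0 (K.ccs i D.sv) else K.ccs i D.sv) := by
  refine D.base hm hC.hnd hN P.wq (fun i hi => wq_pent hi) (fun i hi => ?_)
  by_cases h : P.flq i
  · right
    left
    refine ⟨?_, hC.hf h⟩
    have := wq_pos (P := P) i
    omega
  · left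
    unfold wq
    rw [if_neg h]

/-- THE BASE, if no square has a negative sum -/
theorem pm_base' (hC : P.Cl) (hm : K.Min) (D : CuD K)
    (hN : ∀ i, P.sq i → ∀ j, D.mv (P.qt i j) (P.qt i (j + 1)) →
      D.mv (P.qt i (j + 2)) (P.qt i (j + 1)) →
      D.τ (P.qt i j) (P.qt i (j + 1)) = D.τ (P.qt i (j + 2)) (P.qt i (j + 1)) →
      ¬ D.Nt P (P.qt i j) ∧ ¬ D.Nt P (P.qt i (j + 2)))
    (h0 : ∀ i, P.sq i → 0 ≤ K.ccs i D.sv) : 0 ≤ K.wcs P.wq D.sv := by
  classical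
  refine (pm_base hC hm D hN).trans (le_of_eq (Finset.sum_congr rfl fun i _ => ?_))
  by_cases hi : P.sq i
  · rw [if_pos hi, max_eq_right (h0 i hi)]
  · rw [if_neg hi]

/-- the sum over a square is not negative if no corner is a corner between a moved arrow and its
target -/
theorem h0_of (D : CuD K) {i : K.I} (hi : P.sq i)
    (h : ∀ j, ¬ cA D.sl.mv D.sl.τ (P.qt i j) (P.qt i (j + 1)) (P.qt i (j + 2))) :
    0 ≤ K.ccs i D.sv := by
  classical
  rw [P.ccs4 hi]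
  refine Finset.sum_nonneg fun j _ => ?_
  show 0 ≤ sg D.sl.mv D.sl.τ _ _ _
  rw [D.sg_eq, if_neg (h j), sub_zero]
  have h1 : (0 : ℤ) ≤ if D.c1 (P.qt i j) (P.qt i (j + 1)) (P.qt i (j + 2)) then 1 else 0 := by
    split_ifs <;> norm_num
  have h2 : (0 : ℤ) ≤ if D.c2 (P.qt i j) (P.qt i (j + 1)) (P.qt i (j + 2)) then 1 else 0 := by
    split_ifs <;> norm_num
  linarith

end P45

end Pool.Agent.DI
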