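import Pool.Agent.DI.PmS
import Pool.Agent.DI.Hlf3

/-!
# DI/PmI: the frame of the min-cut theorem PMC

`P.Phi D`: the weighted change of length, `P.nq`: the number of listed squares.
`Cl.cor1`: both poles of a vertex have the same number of strands, from PMC for this vertex.
`PmH H`: the inputs (base, fold, step at the partner, step at a side), `PmH.pmc`: PMC.
-/

namespace Pool.Agent.DI

open MulAction
open Pool.Agent.SAF (InC orbs FinOrb oc)

variable {H V : Type} [Group H] [MulAction H V]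

namespace P45

variable {K : GX H V} (P : P45 K)

/-- the pentagons -/
def pmG : PG K where
  five i := ¬ P.sq i
  pt := P.pt
  cb_eq i hi := P.cb5 i hi
  cw_eq i hi := P.cw5 i hi

/-- the weighted change of length -/
noncomputable def Phi (D : CuD K) : ℤ := K.wcs P.wq D.sv

/-- the number of listed squares -/
noncomputable def nq : ℕ := Nat.card {i : K.I // P.sq i}

variable {P}

/-! ### tops -/

/-- every walk has a top -/
theorem Cl.q4t (hC : P.Cl) {a q b y : V} (h : Q4 P a q b y) :
    P.TopR a q y b ∨ P.TopR q b a y ∨ P.TopR b y q a ∨ P.TopR y a b q := by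
  obtain ⟨g, i, j, hi, h⟩ := h
  obtain ⟨k, hk⟩ := hC.top i hi
  have t := (tq_TopR hi hk).smul g
  obtain ⟨m, rfl⟩ : ∃ m, k = j + m := ⟨k - j, (add_sub_cancel j k).symm⟩
  have key : ∀ a q b y : V, (a = g • P.qt i j ∧ q = g • P.qt i (j + 1) ∧ b = g • P.qt i (j + 2) ∧
      y = g • P.qt i (j + 3)) →
      P.TopR a q y b ∨ P.TopR q b a y ∨ P.TopR b y q a ∨ P.TopR y a b q := by
    rintro a q b y ⟨rfl, rfl, rfl, rfl⟩
    have s1 : ∀ j : Fin 4, j + 1 + 1 = j + 2 := by decide
    have s2 : ∀ j : Fin 4, j + 1 + 2 = j + 3 := by decide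
    have s3 : ∀ j : Fin 4, j + 1 + 3 = j := by decide
    have s4 : ∀ j : Fin 4, j + 2 + 1 = j + 3 := by decide
    have s5 : ∀ j : Fin 4, j + 2 + 2 = j := by decide
    have s6 : ∀ j : Fin 4, j + 2 + 3 = j + 1 := by decide
    have s7 : ∀ j : Fin 4, j + 3 + 1 = j := by decide
    have s8 : ∀ j : Fin 4, j + 3 + 2 = j + 1 := by decide
    have s9 : ∀ j : Fin 4, j + 3 + 3 = j + 2 := by decide
    fin_cases m
    · left
      have t : P.TopR (g • P.qt i (j + 0)) (g • P.qt i (j + 0 + 1)) (g • P.qt i (j + 0 + 3))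
        (g • P.qt i (j + 0 + 2)) := t
      rwa [add_zero] at t
    · right; left
      have t : P.TopR (g • P.qt i (j + 1)) (g • P.qt i (j + 1 + 1)) (g • P.qt i (j + 1 + 3))
        (g • P.qt i (j + 1 + 2)) := t
      rwa [s1, s2, s3] at t
    · right; right; left
      have t : P.TopR (g • P.qt i (j + 2)) (g • P.qt i (j + 2 + 1)) (g • P.qt i (j + 2 + 3))
        (g • P.qt i (j + 2 + 2)) := t
      rwa [s4, s5, s6] at t
    · right; right; right
      have t : P.TopR (g • P.qt i (j + 3)) (g • P.qt i (j + 3 + 1)) (g • P.qt i (j + 3 + 3))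
        (g • P.qt i (j + 3 + 2)) := t
      rwa [s7, s8, s9] at t
  rcases h with h | h
  · exact key _ _ _ _ h
  · rcases key _ _ _ _ h with h | h | h | h
    · exact Or.inr (Or.inr (Or.inl h.symm'))
    · exact Or.inr (Or.inl h.symm')
    · exact Or.inl h.symm'
    · exact Or.inr (Or.inr (Or.inr h.symm'))

/-- opposite vertices of a listed square are different -/
theorem Cl.ndj (hC : P.Cl) {i : K.I} (hi : P.sq i) (j : Fin 4) : P.qt i j ≠ P.qt i (j + 2) := by
  obtain ⟨k, hk⟩ := hC.top i hi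
  have t := tq_TopR hi hk
  have h0 : P.qt i k ≠ P.qt i (k + 2) := fun e => absurd t.2 (by rw [← e]; exact lt_irrefl _)
  have h1 : P.qt i (k + 1) ≠ P.qt i (k + 3) := hC.nab _ _ _ _ t
  obtain ⟨m, rfl⟩ : ∃ m, j = k + m := ⟨j - k, (add_sub_cancel k j).symm⟩
  have s1 : ∀ j : Fin 4, j + 1 + 2 = j + 3 := by decide
  have s2 : ∀ j : Fin 4, j + 2 + 2 = j := by decide
  have s3 : ∀ j : Fin 4, j + 3 + 2 = j + 1 := by decide
  fin_cases m
  · show P.qt i (k + 0) ≠ P.qt i (k + 0 + 2)
    rw [add_zero]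
    exact h0
  · show P.qt i (k + 1) ≠ P.qt i (k + 1 + 2)
    rw [s1]
    exact h1
  · show P.qt i (k + 2) ≠ P.qt i (k + 2 + 2)
    rw [s2]
    exact h0.symm
  · show P.qt i (k + 3) ≠ P.qt i (k + 3 + 2)
    rw [s3]
    exact h1.symm

/-- no cell turns back -/
theorem Cl.vx_ne (hC : P.Cl) (hm : K.Min) (i : K.I) (j : ℕ) : K.vx i j ≠ K.vx i (j + 2) := by
  by_cases hi : P.sq i
  · rw [P.tvx4 hi, P.tvx4 hi]
    have e : Fin.ofNat 4 (j + 2) = Fin.ofNat 4 j + 2 := by
      ext
      simp [Fin.val_add]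
    rw [e]
    exact hC.ndj hi _
  · rw [P.tvx5 hi, P.tvx5 hi]
    have e : Fin.ofNat 5 (j + 2) = Fin.ofNat 5 j + 2 := by
      ext
      simp [Fin.val_add]
    rw [e]
    have a : P.pmG.At (fun k => P.pt i k) i := ⟨hi, 1, 0, Or.inl fun k => by
      rw [one_smul, zero_add]
      rfl⟩
    exact a.ne2 hm _

theorem pm_len (P : P45 K) (i : K.I) : 0 < K.len i := by
  by_cases hi : P.sq i
  · rw [P.tlen4 hi]; norm_num
  · rw [P.tlen5 hi]; norm_num

/-- the sides of a top are its poles -/
theorem Cl.sides (hC : P.Cl) {T a b y : V} (h : P.TopR T a b y) {c : V} (hc : K.ar T c) :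
    c = a ∨ c = b := by
  rcases K.two _ _ _ _ h.1.2.1 h.1.2.2 hc with e | e | e
  · exact absurd e (hC.nab _ _ _ _ h)
  · exact Or.inr e.symm
  · exact Or.inl e.symm

/-- the fold of a top -/
def Cl.s1 (hC : P.Cl) {T a b y : V} (h : P.TopR T a b y) : Sq1 K where
  T := T
  y := y
  rk := h.2
  E c hc := by
    rcases hC.sides h hc with rfl | rfl
    · exact h.1.Ea.symm
    · exact h.1.Eb.symm
  ex := ⟨a, h.1.2.1⟩
  fix g hg := hC.fix h hg

/-! ### the number of squares -/

theorem own_smul (g : H) (T : V) (i : K.I) : P.own (g • T) i ↔ P.own T i := by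
  constructor
  · rintro ⟨hi, h, j, k, e⟩
    exact ⟨hi, g⁻¹ * h, j, k, by rw [mul_smul, e, inv_smul_smul]⟩
  · rintro ⟨hi, h, j, k, e⟩
    exact ⟨hi, g * h, j, k, by rw [mul_smul, e]⟩

/-- a top has its own square -/
theorem Cl.own_ey {T a b y : V} (h : P.TopR T a b y) : ∃ i, P.own T i ∧
    ∃ (g : H) (j : Fin 4), P.sq i ∧ P.tq i j ∧ g • P.qt i j = T ∧ g • P.qt i (j + 2) = y := by
  obtain ⟨⟨⟨g, i, j, hi, h4⟩, ha, hb⟩, hr⟩ := h
  have s2 : ∀ j : Fin 4, j + 1 + 1 = j + 2 := by decide
  have s3 : ∀ j : Fin 4, j + 1 + 2 = j + 3 := by decide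
  have s4 : ∀ j : Fin 4, j + 1 + 3 = j := by decide
  have ht : P.tq i (j + 1) := by
    rcases h4 with ⟨rfl, rfl, rfl, rfl⟩ | ⟨rfl, rfl, rfl, rfl⟩
    · refine ⟨⟨?_, ?_⟩, ?_⟩
      · rw [s2]
        have := K.ar_smul g⁻¹ _ _ hb
        rwa [inv_smul_smul, inv_smul_smul] at this
      · rw [s4]
        have := K.ar_smul g⁻¹ _ _ ha
        rwa [inv_smul_smul, inv_smul_smul] at this
      · rw [s3]
        rwa [K.rk_smul, K.rk_smul] at hr
    · refine ⟨⟨?_, ?_⟩, ?_⟩
      · rw [s2]
        have := K.ar_smul g⁻¹ _ _ ha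
        rwa [inv_smul_smul, inv_smul_smul] at this
      · rw [s4]
        have := K.ar_smul g⁻¹ _ _ hb
        rwa [inv_smul_smul, inv_smul_smul] at this
      · rw [s3]
        rwa [K.rk_smul, K.rk_smul] at hr
  have e1 : g • P.qt i (j + 1) = T := by rcases h4 with h4 | h4 <;> exact h4.2.1.symm
  have e2 : g • P.qt i (j + 1 + 2) = y := by
    rw [s3]
    rcases h4 with h4 | h4 <;> exact h4.2.2.2.symm
  exact ⟨i, ⟨hi, g, j + 1, ht, e1⟩, g, j + 1, hi, ht, e1, e2⟩

/-- the number of squares drops -/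
theorem nq_fold (D1 : Sq1 K) {a b : V} (h : P.TopR D1.T a b D1.y) :
    (D1.flat.P45 P).nq < P.nq := by
  classical
  have := K.finI
  obtain ⟨i0, -, g, j, hi, ht, e1, e2⟩ := Cl.own_ey h
  have hB : D1.toF.Bt i0 := by
    have e3 : D1.toF.F (P.qt i0 j) = D1.toF.F (P.qt i0 (j + 2)) := by
      have h1 : P.qt i0 j = g⁻¹ • D1.T := by rw [← e1, inv_smul_smul]
      have h2 : P.qt i0 (j + 2) = g⁻¹ • D1.y := by rw [← e2, inv_smul_smul]
      rw [h1, h2]
      apply D1.toF.F_eq.2
      rw [D1.f_T, D1.toF.f_not]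
      exact fun k => D1.flat.np D1.T ⟨1, (one_smul H _).symm⟩ (by
        have h5 : D1.ρ D1.T = D1.y := by
          have := D1.ρ_eq (1 : H)
          rwa [one_smul, one_smul] at this
        show D1.toF.O (D1.ρ D1.T)
        rw [h5]
        have := D1.toF.O_smul g _ k
        rwa [smul_inv_smul] at this)
    rw [D1.flat.Bt4_iff P hi]
    fin_cases j
    · exact Or.inl e3
    · exact Or.inr e3
    · exact Or.inl e3.symm
    · exact Or.inr e3.symm
  let f : {j : D1.toF.gx.I // (D1.flat.P45 P).sq j} → {i : K.I // P.sq i} :=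
    fun j => ⟨j.1.1, j.2⟩
  have hf : Function.Injective f := fun j j' e =>
    Subtype.ext (Subtype.ext (congrArg (fun x : {i : K.I // P.sq i} => x.1) e))
  have hfin : Finite {i : K.I // P.sq i} := inferInstance
  refine lt_of_lt_of_le (b := Nat.card (Set.range f) + 1) ?_ ?_
  · unfold nq
    rw [← Nat.card_congr (Equiv.ofInjective f hf)]
    exact Nat.lt_succ_self _
  · unfold nq
    have h1 : (⟨i0, hi⟩ : {i : K.I // P.sq i}) ∉ Set.range f := by
      rintro ⟨j, hj⟩
      have h2 : j.1.1 = i0 := congrArg Subtype.val hj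
      exact j.1.2 (by rw [h2]; exact hB)
    have h3 : (insert (⟨i0, hi⟩ : {i : K.I // P.sq i}) (Set.range f)).ncard =
        (Set.range f).ncard + 1 := Set.ncard_insert_of_notMem h1 (Set.toFinite _)
    have h4 : (Set.range f).ncard = Nat.card (Set.range f) := rfl
    rw [← h4, ← h3]
    exact Set.ncard_le_card _

/-! ### the strands -/

theorem lg_smul (g : H) (T c p q : V) : lg H (g • T) (g • c) p q = lg H T c p q := by
  classical
  unfold lg
  refine if_congr ?_ rfl rfl
  constructor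
  · rintro ⟨h, rfl, rfl⟩
    exact ⟨h * g, (mul_smul _ _ _).symm, (mul_smul _ _ _).symm⟩
  · rintro ⟨h, rfl, rfl⟩
    exact ⟨h * g⁻¹, by rw [mul_smul, inv_smul_smul], by rw [mul_smul, inv_smul_smul]⟩

theorem XW_smul (g : H) (T c : V) : P.XW (g • T) (g • c) = P.XW T c := by
  classical
  unfold XW
  refine Finset.sum_congr rfl fun i _ => ?_
  by_cases h : P.own T i
  · rw [if_pos h, if_pos ((own_smul g T i).2 h)]
  · rw [if_neg h, if_neg (fun k => h ((own_smul g T i).1 k))]
    simp only [lg_smul]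

open Classical in
/-- the strands, counted at the corners at the top -/
theorem XW_top (T c : V) : P.XW T c = ∑ i, if P.own T i then 0 else
    P.wq i * K.ccs i (fun x y z => lg H T c y x + lg H T c y z) := by
  unfold XW
  refine Finset.sum_congr rfl fun i _ => ?_
  by_cases h : P.own T i
  · rw [if_pos h, if_pos h]
  · rw [if_neg h, if_neg h]
    congr 1
    rw [K.ccs_add, K.ccs_add]
    have h1 := K.ccs_shift i (fun x y => lg H T c x y)
    have h2 := K.ccs_shift i (fun x y => lg H T c y x)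
    rw [h1, ← h2, add_comm]

/-- the cut data of all in-arrows of an ordinary vertex -/
def cuO {s a b : V} (ha : K.ar s a) (hb : K.ar s b) (ne : a ≠ b)
    (hs : ∀ g : H, g • s = s → g • a = a) : CuD K where
  v := s
  a := a
  b := b
  R := {n | K.ar n s}
  va := ha
  vb := hb
  ab := ne
  R_ar _ h := h
  stab g hg _ _ _ := hs g hg
  inv g hg _ n hn := by
    have := K.ar_smul g _ _ hn
    rwa [hg] at this

open Classical in
/-- the values at the corners -/
theorem cuO_sv {s a b : V} (ha : K.ar s a) (hb : K.ar s b) (ne : a ≠ b)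
    (hs : ∀ g : H, g • s = s → g • a = a) {x y z : V} (hxy : K.E x y) (hyz : K.E y z)
    (hxz : x ≠ z) : (cuO ha hb ne hs).sv x y z =
      (lg H s b y x + lg H s b y z) - (lg H s a y x + lg H s a y z) := by
  set D := cuO ha hb ne hs with hD
  by_cases hy : ∃ h : H, y = h • s
  · obtain ⟨h, rfl⟩ := hy
    have mv1 : ∀ p, D.mv p (h • s) ↔ K.ar p (h • s) := by
      intro p
      refine ⟨fun k => D.mv_ar k, fun k => ⟨h, ?_, rfl⟩⟩
      show K.ar (h⁻¹ • p) s
      have := K.ar_smul h⁻¹ _ _ k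
      rwa [inv_smul_smul] at this
    have t1 : ∀ p, K.ar p (h • s) → D.τ p (h • s) = h • a := fun p k =>
      D.τ_eq (h := h) (by
        have := K.ar_smul h⁻¹ _ _ k
        rwa [inv_smul_smul] at this) rfl
    have out : ∀ p, K.E p (h • s) → K.ar p (h • s) ∨ p = h • a ∨ p = h • b := by
      rintro p (k | k)
      · exact Or.inl k
      · right
        rcases K.two _ _ _ _ (K.ar_smul h _ _ ha) (K.ar_smul h _ _ hb) k with e | e | e
        · exact absurd (smul_left_cancel h e) ne
        · exact Or.inr e.symm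
        · exact Or.inl e.symm
    have la : ∀ p, lg H s a (h • s) p = if p = h • a then 1 else 0 := by
      intro p
      unfold lg
      refine if_congr ?_ rfl rfl
      constructor
      · rintro ⟨g, e1, e2⟩
        have e3 : (h⁻¹ * g) • s = s := by rw [mul_smul, ← e1, inv_smul_smul]
        have e4 := hs _ e3
        rw [mul_smul, inv_smul_eq_iff] at e4
        rw [e2, e4]
      · rintro rfl
        exact ⟨h, rfl, rfl⟩
    have hs' : ∀ g : H, g • s = s → g • b = b := by
      intro g hg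
      rcases K.two _ _ _ _ ha hb (by
        have := K.ar_smul g _ _ hb
        rwa [hg] at this) with e | e | e
      · exact absurd e ne
      · exact e.symm
      · exact absurd (smul_left_cancel g ((hs g hg).trans e)) ne
    have lb : ∀ p, lg H s b (h • s) p = if p = h • b then 1 else 0 := by
      intro p
      unfold lg
      refine if_congr ?_ rfl rfl
      constructor
      · rintro ⟨g, e1, e2⟩
        have e3 : (h⁻¹ * g) • s = s := by rw [mul_smul, ← e1, inv_smul_smul]
        have e4 := hs' _ e3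
        rw [mul_smul, inv_smul_eq_iff] at e4
        rw [e2, e4]
      · rintro rfl
        exact ⟨h, rfl, rfl⟩
    have na : ¬ K.ar (h • a) (h • s) := fun k => by
      have h1 := K.ar_rk _ _ k
      have h2 := K.ar_rk _ _ (K.ar_smul h _ _ ha)
      omega
    have nb : ¬ K.ar (h • b) (h • s) := fun k => by
      have h1 := K.ar_rk _ _ k
      have h2 := K.ar_rk _ _ (K.ar_smul h _ _ hb)
      omega
    have nab : h • a ≠ h • b := fun e => ne (smul_left_cancel h e)
    rw [la, la, lb, lb]
    rcases out x hxy with kx | kx | kx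
    · have x1 : x ≠ h • a := fun e => na (by rw [← e]; exact kx)
      have x2 : x ≠ h • b := fun e => nb (by rw [← e]; exact kx)
      rcases out z hyz.symm with kz | kz | kz
      · have z1 : z ≠ h • a := fun e => na (by rw [← e]; exact kz)
        have z2 : z ≠ h • b := fun e => nb (by rw [← e]; exact kz)
        rw [D.sv_mm ((mv1 x).2 kx) ((mv1 z).2 kz) (by rw [t1 _ kx, t1 _ kz]), if_neg x1, if_neg x2,
          if_neg z1, if_neg z2]
        norm_num
      · rw [D.sv_τ ((mv1 x).2 kx) (by rw [t1 _ kx]; exact kz), if_neg x1, if_neg x2, if_pos kz,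
          if_neg (by rw [kz]; exact nab)]
        norm_num
      · rw [D.sv_one ((mv1 x).2 kx) (fun k => nb (by rw [← kz]; exact (mv1 z).1 k))
          (by rw [t1 _ kx, kz]; exact nab.symm), if_neg x1, if_neg x2, if_pos kz,
          if_neg (by rw [kz]; exact nab.symm)]
        norm_num
    · have x2 : x ≠ h • b := by rw [kx]; exact nab
      rcases out z hyz.symm with kz | kz | kz
      · have z1 : z ≠ h • a := fun e => na (by rw [← e]; exact kz)
        have z2 : z ≠ h • b := fun e => nb (by rw [← e]; exact kz)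
        rw [D.sv_symm, D.sv_τ ((mv1 z).2 kz) (by rw [t1 _ kz]; exact kx), if_neg z1, if_neg z2,
          if_pos kx, if_neg x2]
        norm_num
      · exact absurd (kx.trans kz.symm) hxz
      · rw [D.sv_not (fun k => na (by rw [← kx]; exact (mv1 x).1 k))
          (fun k => nb (by rw [← kz]; exact (mv1 z).1 k)), if_pos kx, if_neg x2, if_pos kz,
          if_neg (by rw [kz]; exact nab.symm)]
        norm_num
    · have x1 : x ≠ h • a := by rw [kx]; exact nab.symm
      rcases out z hyz.symm with kz | kz | kz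
      · have z1 : z ≠ h • a := fun e => na (by rw [← e]; exact kz)
        have z2 : z ≠ h • b := fun e => nb (by rw [← e]; exact kz)
        rw [D.sv_symm, D.sv_one ((mv1 z).2 kz) (fun k => nb (by rw [← kx]; exact (mv1 x).1 k))
          (by rw [t1 _ kz, kx]; exact nab.symm), if_neg z1, if_neg z2, if_pos kx, if_neg x1]
        norm_num
      · rw [D.sv_not (fun k => nb (by rw [← kx]; exact (mv1 x).1 k))
          (fun k => na (by rw [← kz]; exact (mv1 z).1 k)), if_pos kx, if_neg x1, if_pos kz,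
          if_neg (by rw [kz]; exact nab)]
        norm_num
      · exact absurd (kx.trans kz.symm) hxz
  · have h1 : ∀ p q : V, lg H s p y q = 0 := fun p q => by
      unfold lg
      rw [if_neg]
      rintro ⟨h, e, -⟩
      exact hy ⟨h, e⟩
    have h2 : ∀ p, ¬ D.mv p y := fun p ⟨h, _, e⟩ => hy ⟨h, e⟩
    rw [h1, h1, h1, h1, D.sv_not (h2 x) (h2 z)]
    norm_num

/-- the rank of the top is the greatest rank of its square -/
theorem tq_rk {i : K.I} (_hi : P.sq i) {k : Fin 4} (h : P.tq i k) {m : Fin 4}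
    (hr : K.rk (P.qt i m) = K.rk (P.qt i k)) : m = k := by
  have h1 := K.ar_rk _ _ h.1.1
  have h2 := K.ar_rk _ _ h.1.2
  have h3 := h.2
  obtain ⟨l, rfl⟩ : ∃ l, m = k + l := ⟨m - k, (add_sub_cancel k m).symm⟩
  fin_cases l
  · exact add_zero k
  · have hr : K.rk (P.qt i (k + 1)) = K.rk (P.qt i k) := hr
    omega
  · have hr : K.rk (P.qt i (k + 2)) = K.rk (P.qt i k) := hr
    omega
  · have hr : K.rk (P.qt i (k + 3)) = K.rk (P.qt i k) := hr
    omega

/-- at the own square the top has one corner, the legs are the two poles -/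
theorem Cl.own_zero (hC : P.Cl) {s a b : V} (ha : K.ar s a) (hb : K.ar s b) (ne : a ≠ b)
    (hs : ∀ g : H, g • s = s → g • a = a) {i : K.I} (ho : P.own s i) (m : Fin 4) :
    (lg H s b (P.qt i (m + 1)) (P.qt i m) + lg H s b (P.qt i (m + 1)) (P.qt i (m + 2))) -
      (lg H s a (P.qt i (m + 1)) (P.qt i m) + lg H s a (P.qt i (m + 1)) (P.qt i (m + 2))) = 0 := by
  classical
  obtain ⟨hi, h, k, hk, e⟩ := ho
  by_cases hm : m + 1 = k
  · subst hm
    have t := tq_TopR hi hk
    have s1 : ∀ m : Fin 4, m + 1 + 1 = m + 2 := by decide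
    have s2 : ∀ m : Fin 4, m + 1 + 3 = m := by decide
    rw [s1, s2] at t
    have hs' : ∀ g : H, g • s = s → g • b = b := by
      intro g hg
      rcases K.two _ _ _ _ ha hb (by
        have := K.ar_smul g _ _ hb
        rwa [hg] at this) with e | e | e
      · exact absurd e ne
      · exact e.symm
      · exact absurd (smul_left_cancel g ((hs g hg).trans e)) ne
    have ey : P.qt i (m + 1) = h⁻¹ • s := by rw [← e, inv_smul_smul]
    have lc : ∀ c, (∀ g : H, g • s = s → g • c = c) → ∀ p, lg H s c (P.qt i (m + 1)) p =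
        if p = h⁻¹ • c then 1 else 0 := by
      intro c hc p
      unfold lg
      refine if_congr ?_ rfl rfl
      constructor
      · rintro ⟨g, e1, e2⟩
        rw [ey] at e1
        have e3 : (h * g) • s = s := by rw [mul_smul, ← e1, smul_inv_smul]
        have e4 := hc _ e3
        rw [e2, eq_inv_smul_iff, ← mul_smul]
        exact e4
      · rintro rfl
        exact ⟨h⁻¹, ey, rfl⟩
    have hA : K.ar (P.qt i (m + 1)) (h⁻¹ • a) := by rw [ey]; exact K.ar_smul _ _ _ ha
    have hB : K.ar (P.qt i (m + 1)) (h⁻¹ • b) := by rw [ey]; exact K.ar_smul _ _ _ hb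
    have nAB : h⁻¹ • a ≠ h⁻¹ • b := fun e => ne (smul_left_cancel _ e)
    have cA := hC.sides t hA
    have cB := hC.sides t hB
    have nt := hC.nab _ _ _ _ t
    rw [lc a hs, lc a hs, lc b hs', lc b hs']
    rcases cA with cA | cA
    · rcases cB with cB | cB
      · exact absurd (cA.trans cB.symm) nAB
      · rw [cA, cB, if_pos rfl, if_pos rfl, if_neg nt, if_neg nt.symm]
        norm_num
    · rcases cB with cB | cB
      · rw [cA, cB, if_pos rfl, if_pos rfl, if_neg nt, if_neg nt.symm]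
        norm_num
      · exact absurd (cA.trans cB.symm) nAB
  · have key : ∀ c p, lg H s c (P.qt i (m + 1)) p = 0 := by
      intro c p
      unfold lg
      rw [if_neg]
      rintro ⟨g, e1, -⟩
      apply hm
      apply tq_rk hi hk
      rw [e1, K.rk_smul, ← e, K.rk_smul]
    rw [key, key, key, key]
    norm_num

/-- the change of length of the slide of all in-arrows -/
theorem Cl.cuO_Phi (hC : P.Cl) (hm : K.Min) {s a b : V} (ha : K.ar s a) (hb : K.ar s b)
    (ne : a ≠ b) (hs : ∀ g : H, g • s = s → g • a = a) :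
    P.Phi (cuO ha hb ne hs) = P.XW s b - P.XW s a := by
  classical
  rw [XW_top, XW_top, ← Finset.sum_sub_distrib]
  unfold Phi GX.wcs
  refine Finset.sum_congr rfl fun i _ => ?_
  have h1 : K.ccs i (cuO ha hb ne hs).sv = K.ccs i (fun x y z =>
      (lg H s b y x + lg H s b y z) - (lg H s a y x + lg H s a y z)) := K.ccs_congr i fun j =>
    cuO_sv ha hb ne hs (K.vx_E (P.pm_len i) j) (K.vx_E (P.pm_len i) (j + 1)) (hC.vx_ne hm i j)
  by_cases ho : P.own s i
  · rw [if_pos ho, if_pos ho, h1, P.ccs4 ho.1]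
    rw [Finset.sum_eq_zero fun m _ => hC.own_zero ha hb ne hs ho m]
    ring
  · rw [if_neg ho, if_neg ho, h1, K.ccs_sub, mul_sub]

/-- COR 1: both poles of a vertex have the same number of strands, from PMC for this vertex -/
theorem Cl.cor1 (hC : P.Cl) (hm : K.Min) {s a b : V} (ha : K.ar s a) (hb : K.ar s b)
    (hP : ∀ D : CuD K, D.v = s → 0 ≤ P.Phi D) : P.XW s a = P.XW s b := by
  by_cases ne : a = b
  · rw [ne]
  by_cases hs : ∀ g : H, g • s = s → g • a = a
  · have hs' : ∀ g : H, g • s = s → g • b = b := by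
      intro g hg
      rcases K.two _ _ _ _ ha hb (by
        have := K.ar_smul g _ _ hb
        rwa [hg] at this) with e | e | e
      · exact absurd e ne
      · exact e.symm
      · exact absurd (smul_left_cancel g ((hs g hg).trans e)) ne
    have h1 := hP (cuO ha hb ne hs) rfl
    have h2 := hP (cuO hb ha (Ne.symm ne) hs') rfl
    rw [hC.cuO_Phi hm ha hb ne hs] at h1
    rw [hC.cuO_Phi hm hb ha (Ne.symm ne) hs'] at h2
    omega
  · push Not at hs
    obtain ⟨g, h1, h2⟩ := hs
    have h3 : g • a = b := by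
      rcases K.two _ _ _ _ ha hb (by
        have := K.ar_smul g _ _ ha
        rwa [h1] at this) with e | e | e
      · exact absurd e ne
      · exact e.symm
      · exact absurd e.symm h2
    have h4 := XW_smul (P := P) g s a
    rw [h1, h3] at h4
    exact h4.symm

end P45

/-! ### the frame -/

/-- THE INPUTS OF THE FRAME: the class of a fold, the steps at a side, two weighted passes at the arrows
of the tops -/
structure PmH (H : Type) [Group H] : Prop where
  fold : ∀ {V : Type} [MulAction H V] {K : GX H V} {P : P45 K}, P.Cl → K.Min → ∀ (D1 : Sq1 K)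
    (a b : V), P.TopR D1.T a b D1.y → (D1.flat.P45 P).Cl
  bt : ∀ {V : Type} [MulAction H V] {K : GX H V} {P : P45 K}, P.Cl → K.Min → ∀ (D1 : Sq1 K)
    (a b : V), P.TopR D1.T a b D1.y → ∀ i, D1.toF.Bt i ↔ P.own D1.T i
  wqf : ∀ {V : Type} [MulAction H V] {K : GX H V} {P : P45 K}, P.Cl → K.Min → ∀ (D1 : Sq1 K)
    (a b : V), P.TopR D1.T a b D1.y → ∀ j, (D1.flat.P45 P).wq j = P.wq j.1
  nhr : ∀ {V : Type} [MulAction H V] {K : GX H V} {P : P45 K}, P.Cl → K.Min → K.NHr
  two : ∀ {V : Type} [MulAction H V] {K : GX H V} {P : P45 K}, P.Cl → K.Min → ∀ (T a b y : V),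
    P.TopR T a b y → 2 ≤ P.XW T a
  side0 : ∀ {V : Type} [MulAction H V] {K : GX H V} {P : P45 K}, P.Cl → K.Min → ∀ (D : CuD K)
    (D1 : Sq1 K) (hr : K.rk D.v < K.rk D1.T) (c : V), P.TopR D1.T c D.v D1.y → D1.T ∈ D.R →
    D1.y ∈ D.R → (∀ h : H, K.ar (h • D1.T) D.v → (h • D1.T ∈ D.R ↔ h • D1.y ∈ D.R)) →
    K.wcs P.wq D.sv = D1.toF.gx.wcs (fun j => P.wq j.1) (D.side D1 hr).sv
  sideOne : ∀ {V : Type} [MulAction H V] {K : GX H V} {P : P45 K}, P.Cl → K.Min → ∀ (D : CuD K)
    (D1 : Sq1 K) (hr : K.rk D.v < K.rk D1.T) (c : V), P.TopR D1.T c D.v D1.y → D1.T ∈ D.R →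
    D1.y = D.a → (∀ h : H, h • D1.T ∈ D.R → Tr H D1.T D.v (h • D1.T) D.v) →
    D1.toF.gx.wcs (fun j => P.wq j.1) (D.side D1 hr).sv + P.XW D1.T D.v - 2 ≤ K.wcs P.wq D.sv
  sideTwo : ∀ {V : Type} [MulAction H V] {K : GX H V} {P : P45 K}, P.Cl → K.Min → ∀ (D : CuD K)
    (D1 : Sq1 K) (hr : K.rk D.v < K.rk D1.T) (c : V), P.TopR D1.T c D.v D1.y → D1.T ∈ D.R →
    D1.y = D.a → ∀ h : H, h • c = D.v → h • D1.T ∈ D.R → h • D.a = D.a → ¬ Tr H D1.T D.v D1.T c →
    D1.toF.gx.wcs (fun j => P.wq j.1) (D.side D1 hr).sv + P.XW D1.T D.v + P.XW D1.T c - 4 ≤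
      K.wcs P.wq D.sv
  sideT : ∀ {V : Type} [MulAction H V] {K : GX H V} {P : P45 K}, P.Cl → K.Min → ∀ (D : CuD K)
    (D1 : Sq1 K) (hr : K.rk D.v < K.rk D1.T) (c : V), P.TopR D1.T c D.v D1.y → D1.T ∈ D.R →
    D1.y = D.a → ∀ h : H, h • c = D.v → h • D1.T ∈ D.R → h • D.a ≠ D.a →
    D1.toF.gx.wcs (fun j => P.wq j.1) (D.side D1 hr).sv + P.XW D1.T D.v - P.XW D1.T c ≤
      K.wcs P.wq D.sv

namespace P45

variable {K : GX H V} {P : P45 K}

/-- a negative corner -/
theorem sv_neg (D : CuD K) {x y z : V} (h : D.sv x y z < 0) :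
    (D.mv x y ∧ z = D.τ x y) ∨ (D.mv z y ∧ x = D.τ z y) := by
  by_cases h1 : D.mv x y
  · by_cases h2 : z = D.τ x y
    · exact Or.inl ⟨h1, h2⟩
    · exfalso
      by_cases h3 : D.mv z y
      · by_cases h4 : D.τ x y = D.τ z y
        · rw [D.sv_mm h1 h3 h4] at h
          exact absurd h (lt_irrefl _)
        · rw [D.sv_two h1 h3 h4] at h
          norm_num at h
      · rw [D.sv_one h1 h3 h2] at h
        norm_num at h
  · by_cases h3 : D.mv z y
    · by_cases h2 : x = D.τ z y
      · exact Or.inr ⟨h3, h2⟩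
      · exfalso
        rw [D.sv_symm, D.sv_one h3 h1 h2] at h
        norm_num at h
    · rw [D.sv_not h1 h3] at h
      exact absurd h (lt_irrefl _)

/-- a corner of a walk with a moved leg and its target: (I) or (III) -/
theorem Cl.neg (hC : P.Cl) (D : CuD K) {x y z w : V} (h : Q4 P x y z w) (h1 : D.mv x y)
    (h2 : z = D.τ x y) : ∃ x' ∈ D.R, (∃ w', P.TopR x' D.v w' D.a) ∨ ∃ w', P.TopR w' x' D.a D.v := by
  obtain ⟨g, g1, rfl⟩ := h1
  rw [D.τ_eq g1 rfl] at h2
  have h3 := h.smul g⁻¹
  rw [inv_smul_smul, h2, inv_smul_smul] at h3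
  refine ⟨_, g1, ?_⟩
  have r := K.ar_rk _ _ (D.R_ar _ g1)
  have ra := D.ra
  rcases hC.q4t h3 with k | k | k | k
  · exact Or.inl ⟨_, k⟩
  · have := K.ar_rk _ _ k.1.2.2
    omega
  · have := K.ar_rk _ _ k.1.2.2
    omega
  · exact Or.inr ⟨_, k⟩

/-- a top of a double has no other out-neighbour of the rank of the hub -/
theorem Nt_pole {D : CuD K} {x w : V} (hN : D.Nt P x) (hx : K.ar x D.v) (hw : K.ar x w)
    (ne : w ≠ D.v) : K.rk D.v < K.rk w := by
  obtain ⟨t, v, m, v', -, h1, h2, h3, -, -⟩ := hN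
  have r1 : K.rk v = K.rk D.v := D.rk1 _ _ h1
  have r2 : K.rk v' = K.rk D.v := D.rk1 _ _ h3
  have r3 := K.ar_rk _ _ (D.mv_ar h3)
  have hu : v = D.v := by
    rcases K.two _ _ _ _ (D.mv_ar h1) h2 hx with e | e | e
    · rw [e] at r1
      omega
    · rw [e] at r3
      omega
    · exact e
  rcases K.two _ _ _ _ (D.mv_ar h1) h2 hw with e | e | e
  · rw [e] at r1
    omega
  · rw [← e]
    omega
  · exact absurd (e.symm.trans hu) ne

theorem Nt_smul {D : CuD K} (g : H) {x : V} (h : D.Nt P x) : D.Nt P (g • x) := by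
  obtain ⟨t, v, m, v', h0, h1, h2, h3, h4, h5⟩ := h
  exact ⟨g • t, g • v, g • m, g • v', h0.smul g, D.mv_smul g h1, K.ar_smul g _ _ h2, D.mv_smul g h3,
    by rw [D.τ_smul g h1, ← h4], by rw [D.τ_smul g h3, ← h5]⟩

/-- the corners of the top, seen from the arrow -/
theorem lg_swap (T c p q : V) : lg H T c p q = lg H c T q p := by
  classical
  unfold lg
  refine if_congr ?_ rfl rfl
  exact ⟨fun ⟨h, a, b⟩ => ⟨h, b, a⟩, fun ⟨h, a, b⟩ => ⟨h, b, a⟩⟩

end P45

namespace PmH

variable (X : PmH H)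

include X

/-- the weighted sum of the fold -/
theorem wcs_fold {K : GX H V} {P : P45 K} (hC : P.Cl) (hm : K.Min) (D1 : Sq1 K) {a b : V}
    (ht : P.TopR D1.T a b D1.y) (D' : CuD D1.toF.gx) :
    D1.toF.gx.wcs (fun j => P.wq j.1) D'.sv = (D1.flat.P45 P).Phi D' := by
  have e : (fun j : D1.toF.gx.I => P.wq j.1) = (D1.flat.P45 P).wq :=
    funext fun j => (X.wqf hC hm D1 a b ht j).symm
  rw [e]
  rfl

/-- THE STEP AT THE PARTNER -/
theorem part {K : GX H V} {P : P45 K} (hC : P.Cl) (hm : K.Min) (D : CuD K) (D1 : Sq1 K)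
    (hP : D.Pt1 D1) {a b : V} (ht : P.TopR D1.T a b D1.y) :
    (K.ar D1.T D.a → P.Phi D = (D1.flat.P45 P).Phi hP.part + (P.XW D1.T D.a - 2)) ∧
    (¬ K.ar D1.T D.a → P.Phi D = (D1.flat.P45 P).Phi hP.part) := by
  classical
  have hC' := X.fold hC hm D1 a b ht
  have hm' := D1.toF.min hm
  have h := hP.part_step P hC (X.bt hC hm D1 a b ht) (X.nhr hC' hm') (fun i j => hC'.vx_ne hm' i j) ht
  rw [X.wcs_fold hC hm D1 ht] at h
  refine ⟨fun ha => ?_, fun ha => ?_⟩
  · rw [if_pos ha] at h
    have e : (∑ i, if P.own D1.T i then 0 else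
        P.wq i * K.ccs i (fun x y z => lg H D.a D1.T x y + lg H D.a D1.T z y)) =
        P.XW D1.T D.a := by
      rw [P45.XW_top]
      refine Finset.sum_congr rfl fun i _ => ?_
      by_cases ho : P.own D1.T i
      · rw [if_pos ho, if_pos ho]
      · rw [if_neg ho, if_neg ho]
        congr 1
        refine K.ccs_congr i fun j => ?_
        rw [P45.lg_swap D.a, P45.lg_swap D.a]
    rw [e] at h
    exact h
  · rw [if_neg ha, add_zero] at h
    exact h

/-- THE MIN-CUT THEOREM -/
theorem pmc' (m : ℕ) : ∀ {V : Type} [MulAction H V] {K : GX H V} {P : P45 K}, P.Cl → K.Min →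
    P.nq = m → ∀ D : CuD K, 0 ≤ P.Phi D := by
  induction m using Nat.strong_induction_on with
  | _ m ih =>
  intro V _ K P hC hm hn
  obtain ⟨N, hN⟩ := K.rk_bdd
  have hfold : ∀ (D1 : Sq1 K) (a b : V), P.TopR D1.T a b D1.y → ∀ D' : CuD D1.toF.gx,
      0 ≤ (D1.flat.P45 P).Phi D' := fun D1 a b ht D' =>
    ih _ (by rw [← hn]; exact P45.nq_fold D1 ht) (X.fold hC hm D1 a b ht) (D1.toF.min hm) rfl D'
  have key : ∀ r, ∀ D : CuD K, N - K.rk D.v = r → 0 ≤ P.Phi D := by
    intro r
    induction r using Nat.strong_induction_on with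
    | _ r ihr =>
    intro D hD
    by_cases h1 : ∃ i, P.sq i ∧ ∃ j, D.sv (P.qt i j) (P.qt i (j + 1)) (P.qt i (j + 2)) < 0
    · obtain ⟨i, hi, j, hj⟩ := h1
      have q := Q4_qt (P := P) (1 : H) hi j
      simp only [one_smul] at q
      have c : ∃ x' ∈ D.R, (∃ w', P.TopR x' D.v w' D.a) ∨ ∃ w', P.TopR w' x' D.a D.v := by
        rcases P45.sv_neg D hj with ⟨k1, k2⟩ | ⟨k1, k2⟩
        · exact hC.neg D q k1 k2
        · exact hC.neg D q.symm k1 k2
      obtain ⟨T, hT, ⟨b', ht⟩ | ⟨T', ht⟩⟩ := c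
      · -- (I)
        have hr : K.rk D.v < K.rk T := K.ar_rk _ _ (D.R_ar _ hT)
        have h2 := hfold (hC.s1 ht) _ _ ht (D.side (hC.s1 ht) hr)
        have hw := X.wcs_fold hC hm (hC.s1 ht) ht (D.side (hC.s1 ht) hr)
        have two1 : 2 ≤ P.XW (hC.s1 ht).T D.v := X.two hC hm _ _ _ _ ht
        have two2 : 2 ≤ P.XW (hC.s1 ht).T b' := X.two hC hm _ _ _ _ ht.symm'
        have cor : P.XW (hC.s1 ht).T D.v = P.XW (hC.s1 ht).T b' :=
          hC.cor1 hm ht.1.2.1 ht.1.2.2 fun D' hD' => ihr (N - K.rk D'.v) (by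
            have h6 := hN T
            have h7 : D'.v = T := hD'
            rw [h7]
            omega) D' rfl
        show 0 ≤ K.wcs P.wq D.sv
        by_cases hs : ∀ h : H, h • T ∈ D.R → Tr H T D.v (h • T) D.v
        · have h3 := X.sideOne hC hm D (hC.s1 ht) hr b' ht.symm' hT rfl hs
          rw [hw] at h3
          omega
        · push Not at hs
          obtain ⟨h, e1, e2⟩ := hs
          have e3 : h • b' = D.v := by
            have k := K.ar_smul h⁻¹ _ _ (D.R_ar _ e1)
            rw [inv_smul_smul] at k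
            rcases hC.sides ht k with e | e
            · exfalso
              apply e2
              refine ⟨h, rfl, ?_⟩
              rw [inv_smul_eq_iff] at e
              exact e
            · rw [← e, smul_inv_smul]
          by_cases ea : h • D.a = D.a
          · by_cases hTr : Tr H T D.v T b'
            · exfalso
              obtain ⟨g, g1, g2⟩ := hTr
              apply e2
              refine ⟨h * g, ?_, ?_⟩
              · rw [mul_smul, ← g1]
              · rw [mul_smul, ← g2, e3]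
            · have h3 := X.sideTwo hC hm D (hC.s1 ht) hr b' ht.symm' hT rfl h e3 e1 ea hTr
              rw [hw] at h3
              omega
          · have h3 := X.sideT hC hm D (hC.s1 ht) hr b' ht.symm' hT rfl h e3 e1 ea
            rw [hw] at h3
            omega
      · -- (III)
        have hP : D.Pt1 (hC.s1 ht) := ⟨rfl, fun p hp => by
          rcases hC.sides ht hp with rfl | rfl
          · exact Or.inl hT
          · exact Or.inr rfl, ⟨T, ht.1.2.1, hT⟩⟩
        have h2 := hfold (hC.s1 ht) _ _ ht hP.part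
        have h3 := (X.part hC hm D (hC.s1 ht) hP ht).1 ht.1.2.2
        have h4 := X.two hC hm _ _ _ _ ht.symm'
        have h5 : 2 ≤ P.XW (hC.s1 ht).T D.a := h4
        omega
    push Not at h1
    by_cases h2 : ∃ i, P.sq i ∧ ∃ j, D.mv (P.qt i j) (P.qt i (j + 1)) ∧
        D.mv (P.qt i (j + 2)) (P.qt i (j + 1)) ∧
        D.τ (P.qt i j) (P.qt i (j + 1)) = D.τ (P.qt i (j + 2)) (P.qt i (j + 1)) ∧
        (D.Nt P (P.qt i j) ∨ D.Nt P (P.qt i (j + 2)))
    · obtain ⟨i, hi, j, k1, k2, k3, k4⟩ := h2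
      have q := Q4_qt (P := P) (1 : H) hi j
      simp only [one_smul] at q
      obtain ⟨g, e1, e2, e3⟩ := D.same k1 k2 k3
      have q2 := q.smul g⁻¹
      rw [e1, inv_smul_smul] at q2
      set x' := g⁻¹ • P.qt i j with hx'
      set z' := g⁻¹ • P.qt i (j + 2) with hz'
      set w' := g⁻¹ • P.qt i (j + 3) with hw'
      have k4' : D.Nt P x' ∨ D.Nt P z' := k4.imp (P45.Nt_smul _) (P45.Nt_smul _)
      have rx := K.ar_rk _ _ (D.R_ar _ e2)
      have rz := K.ar_rk _ _ (D.R_ar _ e3)
      -- one leg is the top, the other leg is the partner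
      have side : ∀ T o b' : V, P.TopR T D.v b' o → T ∈ D.R → o ∈ D.R → (D.Nt P T ∨ D.Nt P o) →
          0 ≤ P.Phi D := by
        intro T o b' ht hT ho hNd
        have hr : K.rk D.v < K.rk T := K.ar_rk _ _ (D.R_ar _ hT)
        have ro : K.rk D.v < K.rk o := K.ar_rk _ _ (D.R_ar _ ho)
        have nb : D.v ≠ b' := hC.nab _ _ _ _ ht
        have rb : K.rk D.v < K.rk b' := by
          rcases hNd with h | h
          · exact P45.Nt_pole h (D.R_ar _ hT) ht.1.2.2 nb.symm
          · rcases ht.1.Eb with e | e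
            · have := K.ar_rk _ _ e
              omega
            · exact P45.Nt_pole h (D.R_ar _ ho) e nb.symm
        have h3 := X.side0 hC hm D (hC.s1 ht) hr b' ht.symm' hT ho fun h e => by
          have k := K.ar_smul h⁻¹ _ _ e
          rw [inv_smul_smul] at k
          have hv : h • D.v = D.v := by
            rcases hC.sides ht k with e' | e'
            · exact (inv_smul_eq_iff.1 e').symm
            · exfalso
              rw [← e', K.rk_smul] at rb
              exact lt_irrefl _ rb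
          have hv' : h⁻¹ • D.v = D.v := by rw [inv_smul_eq_iff, hv]
          constructor
          · intro e1
            exact D.inv h hv (D.stab h hv _ hT e1) _ ho
          · intro e1
            exact D.inv h hv (D.stab h hv _ ho e1) _ hT
        rw [X.wcs_fold hC hm (hC.s1 ht) ht] at h3
        have h4 := hfold (hC.s1 ht) _ _ ht (D.side (hC.s1 ht) hr)
        show 0 ≤ K.wcs P.wq D.sv
        rw [h3]
        exact h4
      rcases hC.q4t q2 with k | k | k | k
      · exact side _ _ _ k e2 e3 k4'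
      · have := K.ar_rk _ _ k.1.2.1
        omega
      · exact side _ _ _ k.symm' e3 e2 k4'.symm
      · have hP : D.Pt1 (hC.s1 k) := ⟨rfl, fun p hp => by
          rcases hC.sides k hp with rfl | rfl
          · exact Or.inl e2
          · exact Or.inl e3, ⟨_, k.1.2.1, e2⟩⟩
        have h2 := hfold (hC.s1 k) _ _ k hP.part
        have h3 := X.part hC hm D (hC.s1 k) hP k
        by_cases ha : K.ar (hC.s1 k).T D.a
        · exfalso
          have := D.ra
          rcases hC.sides k ha with e | e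
          · rw [e] at this
            omega
          · rw [e] at this
            omega
        · rw [h3.2 ha]
          exact h2
    · push Not at h2
      refine P45.pm_base' hC hm D (fun i hi j k1 k2 k3 => h2 i hi j k1 k2 k3) fun i hi => ?_
      rw [P.ccs4 hi]
      exact Finset.sum_nonneg fun j _ => h1 i hi j
  exact fun D => key _ D rfl

/-- THE MIN-CUT THEOREM -/
theorem pmc {K : GX H V} {P : P45 K} (hC : P.Cl) (hm : K.Min) : P.PMC :=
  fun D => X.pmc' _ hC hm rfl D

/-- COR 1 -/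
theorem cor1 {K : GX H V} {P : P45 K} (hC : P.Cl) (hm : K.Min) {s a b : V} (ha : K.ar s a)
    (hb : K.ar s b) : P.XW s a = P.XW s b :=
  hC.cor1 hm ha hb fun D _ => X.pmc' _ hC hm rfl D

end PmH

end Pool.Agent.DI
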