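import Pool.Agent.DI.ClB
import Pool.Agent.DI.PmI

/-!
# DI/ClC: the passes of the tops under one fold

`Cl.mono`: `P.XW T a' ≤ (D1.flat.P45 P).XW (F T) (F a')` for a top `T` which is not in the orbit of
`D1.T`, if the arrows of `D1.T` have two weighted passes: the passes of `T → a'` by the dropped square are
replaced by passes of an arrow of `D1.T`.
-/

namespace Pool.Agent.DI

open MulAction
open Pool.Agent.SAF (InC orbs FinOrb oc)

namespace P45

variable {H V : Type} [Group H] [MulAction H V] {K : GX H V} {P : P45 K}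

theorem lg_r (g : H) (T c p q : V) : lg H T c (g • p) (g • q) = lg H T c p q := by
  classical
  unfold lg
  refine if_congr ?_ rfl rfl
  constructor
  · rintro ⟨h, e1, e2⟩
    refine ⟨g⁻¹ * h, ?_, ?_⟩
    · rw [mul_smul, ← e1, inv_smul_smul]
    · rw [mul_smul, ← e2, inv_smul_smul]
  · rintro ⟨h, e1, e2⟩
    refine ⟨g * h, ?_, ?_⟩
    · rw [mul_smul, ← e1]
    · rw [mul_smul, ← e2]

theorem lg_01 (T c p q : V) : lg H T c p q = 0 ∨ lg H T c p q = 1 := by
  classical
  unfold lg
  split_ifs
  · exact Or.inr rfl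
  · exact Or.inl rfl

theorem lg_nn (T c p q : V) : 0 ≤ lg H T c p q := by
  rcases lg_01 (H := H) T c p q with h | h <;> rw [h]
  norm_num

theorem lg_one {T c p q : V} (h : lg H T c p q = 1) : Tr H T c p q := by
  classical
  by_contra hne
  rw [lg_neg hne] at h
  exact absurd h (by norm_num)

theorem lg_of_ne {T c p q : V} (h : lg H T c p q ≠ 0) : Tr H T c p q := by
  classical
  by_contra hne
  exact h (lg_neg hne)

variable {D1 : Sq1 K}

/-- the image of an arrow -/
theorem lg_F {T c x y : V} (h : Tr H T c x y) :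
    Tr H (D1.toF.F T) (D1.toF.F c) (D1.toF.F x) (D1.toF.F y) := by
  obtain ⟨g, rfl, rfl⟩ := h
  exact ⟨g, D1.toF.F_smul g T, D1.toF.F_smul g c⟩

namespace Cl

variable (hC : P.Cl) (hm : K.Min) {a b : V} (ht : P.TopR D1.T a b D1.y)

include hC hm ht

open Classical in
/-- the passes in the fold -/
theorem XW_img {T a' : V} (hT : ∀ g : H, T ≠ g • D1.T) :
    (D1.flat.P45 P).XW (D1.toF.F T) (D1.toF.F a') = ∑ i : K.I, if D1.toF.Bt i then 0 else
      (if P.own T i then 0 else P.wq i) * K.ccs i (fun x y z =>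
        lg H (D1.toF.F T) (D1.toF.F a') (D1.toF.F x) (D1.toF.F y) +
        lg H (D1.toF.F T) (D1.toF.F a') (D1.toF.F z) (D1.toF.F y)) := by
  have h1 := D1.flat.wcs_if P (fun i => if P.own T i then 0 else P.wq i)
    (fun x y z => lg H (D1.toF.F T) (D1.toF.F a') x y + lg H (D1.toF.F T) (D1.toF.F a') z y)
  rw [← h1]
  unfold XW GX.wcs
  refine Finset.sum_congr rfl fun j _ => ?_
  by_cases h : P.own T j.1
  · rw [if_pos ((hC.own1 hm ht hT j).2 h)]
    show (0 : ℤ) = (if P.own T j.1 then 0 else P.wq j.1) * _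
    rw [if_pos h, zero_mul]
  · rw [if_neg (fun k => h ((hC.own1 hm ht hT j).1 k))]
    show _ * _ = (if P.own T j.1 then 0 else P.wq j.1) * _
    rw [if_neg h, hC.wq1 hm ht j]

omit hC hm ht in
theorem own_ne {T : V} (hT : ∀ g : H, T ≠ g • D1.T) {i : K.I} (h : P.own D1.T i) : ¬ P.own T i := by
  rintro ⟨-, g, j, hj, e⟩
  obtain ⟨-, g', j', hj', e'⟩ := h
  have ej := tq_uniq hj hj'
  subst ej
  apply hT (g * g'⁻¹)
  rw [mul_smul, ← e', inv_smul_smul, e]

open Classical in
theorem mono_core {T a' : V} (hT : ∀ g : H, T ≠ g • D1.T) (E : V → V → ℤ)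
    (hE : ∀ x y, lg H T a' x y + E x y ≤
      lg H (D1.toF.F T) (D1.toF.F a') (D1.toF.F x) (D1.toF.F y))
    {i0 : K.I} (hi0 : P.own D1.T i0)
    (hs : P.wq i0 * K.ccs i0 (fun x y z => lg H T a' x y + lg H T a' z y) ≤
      ∑ i, if P.own D1.T i then 0 else P.wq i * K.ccs i (fun x y z => E x y + E z y))
    (hz : ∀ i, P.own T i → K.ccs i (fun x y z => E x y + E z y) = 0) :
    P.XW T a' ≤ (D1.flat.P45 P).XW (D1.toF.F T) (D1.toF.F a') := by
  have h1 : P.wq i0 * K.ccs i0 (fun x y z => lg H T a' x y + lg H T a' z y) =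
      ∑ i, if P.own D1.T i then P.wq i * K.ccs i (fun x y z => lg H T a' x y + lg H T a' z y)
        else 0 := by
    rw [Finset.sum_eq_single i0]
    · rw [if_pos hi0]
    · intro i _ hne
      rw [if_neg fun h => hne (hC.own_uniq h hi0)]
    · intro h
      exact absurd (Finset.mem_univ _) h
  rw [hC.XW_img hm ht hT]
  have h2 : P.XW T a' - (∑ i, if P.own D1.T i then P.wq i * K.ccs i (fun x y z =>
      lg H T a' x y + lg H T a' z y) else 0) + (∑ i, if P.own D1.T i then 0 else
      P.wq i * K.ccs i (fun x y z => E x y + E z y)) ≤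
      ∑ i : K.I, if D1.toF.Bt i then 0 else
      (if P.own T i then 0 else P.wq i) * K.ccs i (fun x y z =>
        lg H (D1.toF.F T) (D1.toF.F a') (D1.toF.F x) (D1.toF.F y) +
        lg H (D1.toF.F T) (D1.toF.F a') (D1.toF.F z) (D1.toF.F y)) := by
    unfold XW
    rw [← Finset.sum_sub_distrib, ← Finset.sum_add_distrib]
    refine Finset.sum_le_sum fun i _ => ?_
    by_cases ho : P.own D1.T i
    · rw [if_pos ((hC.Bt_own hm ht i).2 ho), if_pos ho, if_pos ho, if_neg (Cl.own_ne hT ho)]
      simp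
    · rw [if_neg (fun h => ho ((hC.Bt_own hm ht i).1 h)), if_neg ho, if_neg ho]
      by_cases hp : P.own T i
      · rw [if_pos hp, if_pos hp, hz i hp]
        simp
      · rw [if_neg hp, if_neg hp, sub_zero, ← mul_add, ← K.ccs_add]
        refine mul_le_mul_of_nonneg_left ?_ (P.wq_pos i).le
        refine K.ccs_mono i fun j => ?_
        have e1 := hE (K.vx i j) (K.vx i (j + 1))
        have e2 := hE (K.vx i (j + 2)) (K.vx i (j + 1))
        linarith
  linarith

omit hC hm ht in
/-- the vertices of the square of `T` have rank at most the rank of `T` -/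
theorem own_rk {T : V} {i : K.I} (h : P.own T i) (k : Fin 4) : K.rk (P.qt i k) ≤ K.rk T := by
  obtain ⟨hs, g, j, hj, rfl⟩ := h
  rw [K.rk_smul]
  have h1 := K.ar_rk _ _ hj.1.1
  have h2 := K.ar_rk _ _ hj.1.2
  have h3 := hj.2
  have c : ∀ k j : Fin 4, k = j ∨ k = j + 1 ∨ k = j + 2 ∨ k = j + 3 := by decide
  rcases c k j with rfl | rfl | rfl | rfl
  · exact le_refl _
  · exact h1.le
  · exact h3.le
  · exact h2.le

omit hC hm ht in
/-- no pass of an arrow of a vertex of larger rank -/
theorem own_zero1 {T T1 : V} {i : K.I} (h : P.own T i) (hr : K.rk T < K.rk T1) (E : V → V → ℤ)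
    (hE : ∀ x y, K.rk x ≠ K.rk T1 → K.rk y ≠ K.rk T1 → E x y = 0) :
    K.ccs i (fun x y z => E x y + E z y) = 0 := by
  have hn : ∀ k, K.rk (P.qt i k) ≠ K.rk T1 := fun k => by
    have := Cl.own_rk h k
    omega
  rw [P.ccs4 h.1]
  refine Finset.sum_eq_zero fun k _ => ?_
  rw [hE _ _ (hn _) (hn _), hE _ _ (hn _) (hn _)]
  rfl

omit hm in
/-- the own square of `D1.T` in standard form -/
theorem own_form : ∃ (i0 : K.I) (g : H) (j : Fin 4), P.sq i0 ∧ P.tq i0 j ∧ P.own D1.T i0 ∧
    g • P.qt i0 j = D1.T ∧ P.TopR D1.T (g • P.qt i0 (j + 1)) (g • P.qt i0 (j + 3)) D1.y ∧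
    g • P.qt i0 (j + 2) = D1.y := by
  obtain ⟨i0, h⟩ := own_ex ht
  obtain ⟨hs, g, j, hj, e⟩ := h
  have t := (tq_TopR hs hj).smul g
  rw [e] at t
  have e2 := hC.par _ _ _ _ _ _ _ t ht
  rw [e2] at t
  exact ⟨i0, g, j, hs, hj, ⟨hs, g, j, hj, e⟩, e, t, e2⟩

open Classical in
theorem mono_dir {T a' : V} (hT : ∀ g : H, T ≠ g • D1.T) {c d : V} (e : V → V → V → ℤ) (u v : ℤ)
    {i0 : K.I} (hi0 : P.own D1.T i0) (h01 : ∀ s x y, e s x y = 0 ∨ e s x y = 1)
    (hu : u = 0 ∨ u = 1) (hv : v = 0 ∨ v = 1)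
    (h2c : u = 1 → ∀ x y, e c x y = 1 →
      lg H (D1.toF.F T) (D1.toF.F a') (D1.toF.F x) (D1.toF.F y) = 1 ∧ lg H T a' x y = 0)
    (h2d : v = 1 → ∀ x y, e d x y = 1 →
      lg H (D1.toF.F T) (D1.toF.F a') (D1.toF.F x) (D1.toF.F y) = 1 ∧ lg H T a' x y = 0)
    (h3 : ¬ P.flq i0 → ∀ x y, e c x y = 1 → e d x y = 1 → False)
    (h4c : 2 ≤ ∑ i, if P.own D1.T i then 0 else
      P.wq i * K.ccs i (fun x y z => e c x y + e c z y))
    (h4d : 2 ≤ ∑ i, if P.own D1.T i then 0 else
      P.wq i * K.ccs i (fun x y z => e d x y + e d z y))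
    (h5 : ∀ s i, P.own T i → K.ccs i (fun x y z => e s x y + e s z y) = 0)
    (hN : K.ccs i0 (fun x y z => lg H T a' x y + lg H T a' z y) = u + v) :
    P.XW T a' ≤ (D1.flat.P45 P).XW (D1.toF.F T) (D1.toF.F a') := by
  have hG : ∀ x y, lg H T a' x y ≤
      lg H (D1.toF.F T) (D1.toF.F a') (D1.toF.F x) (D1.toF.F y) := by
    intro x y
    by_cases h : Tr H T a' x y
    · rw [lg_pos h, lg_pos (lg_F h)]
    · rw [lg_neg h]
      exact lg_nn _ _ _ _
  -- one side
  have one : ∀ s, (∀ x y, e s x y = 1 →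
      lg H (D1.toF.F T) (D1.toF.F a') (D1.toF.F x) (D1.toF.F y) = 1 ∧ lg H T a' x y = 0) →
      (2 ≤ ∑ i, if P.own D1.T i then 0 else
        P.wq i * K.ccs i (fun x y z => e s x y + e s z y)) → P.wq i0 * (u + v) ≤ 2 →
      P.XW T a' ≤ (D1.flat.P45 P).XW (D1.toF.F T) (D1.toF.F a') := by
    intro s k1 k2 k3
    refine hC.mono_core hm ht hT (e s) ?_ hi0 ?_ (h5 s)
    · intro x y
      rcases h01 s x y with h | h
      · rw [h, add_zero]
        exact hG x y
      · obtain ⟨m1, m2⟩ := k1 x y h
        rw [h, m1, m2]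
        norm_num
    · rw [hN]
      exact k3.trans k2
  have hw : P.wq i0 = 1 ∨ P.wq i0 = 2 := by
    unfold wq
    split_ifs
    · exact Or.inl rfl
    · exact Or.inr rfl
  rcases hu with hu | hu
  · rcases hv with hv | hv
    · refine hC.mono_core hm ht hT (fun _ _ => 0) ?_ hi0 ?_ ?_
      · intro x y
        rw [add_zero]
        exact hG x y
      · rw [hN, hu, hv, add_zero, mul_zero]
        refine Finset.sum_nonneg fun i _ => ?_
        split_ifs
        · exact le_refl _
        · exact mul_nonneg (P.wq_pos i).le (K.ccs_nonneg i fun _ => by norm_num)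
      · intro i _
        have := K.ccs_mul i 0 (fun _ _ _ => 0)
        simpa using this
    · refine one d (h2d hv) h4d ?_
      rcases hw with h | h <;> rw [h, hu, hv] <;> norm_num
  · rcases hv with hv | hv
    · refine one c (h2c hu) h4c ?_
      rcases hw with h | h <;> rw [h, hu, hv] <;> norm_num
    · by_cases hf : P.flq i0
      · refine one c (h2c hu) h4c ?_
        have : P.wq i0 = 1 := by
          unfold wq
          rw [if_pos hf]
        rw [this, hu, hv]
        norm_num
      · refine hC.mono_core hm ht hT (fun x y => e c x y + e d x y) ?_ hi0 ?_ ?_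
        · intro x y
          rcases h01 c x y with h | h
          · rcases h01 d x y with h' | h'
            · rw [h, h']
              have := hG x y
              linarith
            · obtain ⟨m1, m2⟩ := h2d hv x y h'
              rw [h, h', m1, m2]
              norm_num
          · rcases h01 d x y with h' | h'
            · obtain ⟨m1, m2⟩ := h2c hu x y h
              rw [h, h', m1, m2]
              norm_num
            · exact (h3 hf x y h h').elim
        · rw [hN, hu, hv]
          have e1 : (∑ i, if P.own D1.T i then 0 else P.wq i * K.ccs i (fun x y z =>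
              (e c x y + e d x y) + (e c z y + e d z y))) =
              (∑ i, if P.own D1.T i then 0 else P.wq i * K.ccs i (fun x y z =>
                e c x y + e c z y)) +
              ∑ i, if P.own D1.T i then 0 else P.wq i * K.ccs i (fun x y z =>
                e d x y + e d z y) := by
            rw [← Finset.sum_add_distrib]
            refine Finset.sum_congr rfl fun i _ => ?_
            split_ifs
            · rfl
            · rw [← mul_add, ← K.ccs_add]
              congr 1
              exact K.ccs_congr i fun j => by ring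
          have hw2 : P.wq i0 ≤ 2 := by
            rcases hw with h | h
            · rw [h]
              norm_num
            · rw [h]
          have : (∑ i, if P.own D1.T i then 0 else P.wq i * K.ccs i (fun x y z =>
              (fun x y => e c x y + e d x y) x y + (fun x y => e c x y + e d x y) z y)) =
              (∑ i, if P.own D1.T i then 0 else P.wq i * K.ccs i (fun x y z =>
                (e c x y + e d x y) + (e c z y + e d z y))) := rfl
          rw [this, e1]
          linarith
        · intro i hi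
          have k1 := h5 c i hi
          have k2 := h5 d i hi
          have : K.ccs i (fun x y z => (e c x y + e d x y) + (e c z y + e d z y)) = 0 := by
            have e2 : K.ccs i (fun x y z => (e c x y + e d x y) + (e c z y + e d z y)) =
                K.ccs i (fun x y z => e c x y + e c z y) +
                K.ccs i (fun x y z => e d x y + e d z y) := by
              rw [← K.ccs_add]
              exact K.ccs_congr i fun j => by ring
            rw [e2, k1, k2, add_zero]
          exact this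

/-- THE PASSES DO NOT DROP -/
theorem mono (two : ∀ c d, P.TopR D1.T c d D1.y → 2 ≤ P.XW D1.T c) {T a' : V}
    (k : K.ar T a') (hT : ∀ g : H, T ≠ g • D1.T) :
    P.XW T a' ≤ (D1.flat.P45 P).XW (D1.toF.F T) (D1.toF.F a') := by
  classical
  obtain ⟨i0, g, j, hs, hj, ho, e0, t, e2⟩ := hC.own_form ht
  have rT := K.ar_rk _ _ k
  have r0 := t.2
  set c := g • P.qt i0 (j + 1) with hc
  set d := g • P.qt i0 (j + 3) with hd
  have rc := K.ar_rk _ _ t.1.2.1
  have rd := K.ar_rk _ _ t.1.2.2
  -- ranks of the ends of a leg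
  have rk1 : ∀ {x y : V}, Tr H T a' x y → K.rk x = K.rk T ∧ K.rk y = K.rk a' := by
    rintro x y ⟨h, rfl, rfl⟩
    exact ⟨K.rk_smul _ _, K.rk_smul _ _⟩
  have ar1 : ∀ {x y : V}, Tr H T a' x y → K.ar x y := by
    rintro x y ⟨h, rfl, rfl⟩
    exact K.ar_smul h _ _ k
  have z1 : ∀ x, lg H T a' D1.T x = 0 := fun x => lg_neg (by
    rintro ⟨h, e, -⟩
    apply hT h⁻¹
    rw [e, inv_smul_smul])
  have z2 : ∀ x, K.ar D1.T x → lg H T a' x D1.T = 0 := fun x hx => lg_neg fun h =>
    GX.ck_asym hx (ar1 h)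
  have hN : K.ccs i0 (fun x y z => lg H T a' x y + lg H T a' z y) =
      (lg H T a' D1.y c + lg H T a' D1.y d) + (lg H T a' c D1.y + lg H T a' d D1.y) := by
    rw [P.ccs_at hs j, ← lg_r g T a' (P.qt i0 (j + 3)) (P.qt i0 j),
      ← lg_r g T a' (P.qt i0 (j + 1)) (P.qt i0 j), ← lg_r g T a' (P.qt i0 j) (P.qt i0 (j + 1)),
      ← lg_r g T a' (P.qt i0 (j + 2)) (P.qt i0 (j + 1)),
      ← lg_r g T a' (P.qt i0 (j + 1)) (P.qt i0 (j + 2)),
      ← lg_r g T a' (P.qt i0 (j + 3)) (P.qt i0 (j + 2)),
      ← lg_r g T a' (P.qt i0 (j + 2)) (P.qt i0 (j + 3)),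
      ← lg_r g T a' (P.qt i0 j) (P.qt i0 (j + 3)), e0, e2, ← hc, ← hd, z1, z1,
      z2 _ t.1.2.1, z2 _ t.1.2.2]
    ring
  have fl : ∀ {x y : V}, Tr H D1.T c x y → Tr H D1.T d x y → P.flq i0 := by
    rintro x y ⟨h, rfl, rfl⟩ ⟨h', e3, e4⟩
    refine ⟨hs, g⁻¹ * (h⁻¹ * h')⁻¹ * g, j, hj, ?_, ?_⟩
    · rw [mul_smul, mul_smul, e0, mul_inv_rev, inv_inv, mul_smul]
      rw [e3, inv_smul_smul, ← e0, inv_smul_smul]
    · rw [mul_smul, mul_smul, ← hc, mul_inv_rev, inv_inv, mul_smul, e4, inv_smul_smul, hd,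
        inv_smul_smul]
  have two1 := two _ _ t
  have two2 := two _ _ t.symm'
  by_cases hd1 : K.rk D1.y = K.rk T
  · -- the partner is over `T`
    have y1 : lg H T a' c D1.y = 0 := lg_neg fun h => by
      have := (rk1 h).2
      omega
    have y2 : lg H T a' d D1.y = 0 := lg_neg fun h => by
      have := (rk1 h).2
      omega
    have key : ∀ s, lg H T a' D1.y s = 1 → ∀ x y, lg H D1.T s x y = 1 →
        lg H (D1.toF.F T) (D1.toF.F a') (D1.toF.F x) (D1.toF.F y) = 1 ∧ lg H T a' x y = 0 := by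
      intro s h x y h'
      obtain ⟨h1, e3, e4⟩ := lg_one h
      obtain ⟨h2, e5, e6⟩ := lg_one h'
      constructor
      · refine lg_pos ⟨h2 * h1, ?_, ?_⟩
        · rw [e5, D1.F_Ty1, e3, ← mul_smul, D1.toF.F_smul]
        · rw [e6, e4, ← mul_smul, D1.toF.F_smul]
      · refine lg_neg fun h3 => ?_
        have := (rk1 h3).1
        rw [e5, K.rk_smul] at this
        omega
    refine hC.mono_dir hm ht hT (c := c) (d := d) (fun s x y => lg H D1.T s x y)
      (lg H T a' D1.y c) (lg H T a' D1.y d) ho (fun s x y => lg_01 _ _ _ _) (lg_01 _ _ _ _)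
      (lg_01 _ _ _ _) (key c) (key d) ?_ two1 two2 ?_ ?_
    · intro hf x y h1 h2
      exact hf (fl (lg_one h1) (lg_one h2))
    · intro s i hi
      refine Cl.own_zero1 (T1 := D1.T) hi (by omega) (fun x y => lg H D1.T s x y) ?_
      intro x y hx _
      exact lg_neg fun ⟨h, e, _⟩ => hx (by rw [e, K.rk_smul])
    · rw [hN, y1, y2]
      ring
  · have y1 : lg H T a' D1.y c = 0 := lg_neg fun h => hd1 (rk1 h).1
    have y2 : lg H T a' D1.y d = 0 := lg_neg fun h => hd1 (rk1 h).1
    -- no pass at all, or a side is over `T`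
    by_cases hd2 : K.rk T < K.rk D1.T
    · have key : ∀ s, lg H T a' s D1.y = 1 → ∀ x y, lg H D1.T s y x = 1 →
          lg H (D1.toF.F T) (D1.toF.F a') (D1.toF.F x) (D1.toF.F y) = 1 ∧ lg H T a' x y = 0 := by
        intro s h x y h'
        obtain ⟨h1, e3, e4⟩ := lg_one h
        obtain ⟨h2, e5, e6⟩ := lg_one h'
        constructor
        · refine lg_pos ⟨h2 * h1, ?_, ?_⟩
          · rw [e6, e3, ← mul_smul, D1.toF.F_smul]
          · rw [e5, D1.F_Ty1, e4, ← mul_smul, D1.toF.F_smul]
        · refine lg_neg fun h3 => ?_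
          have := (rk1 h3).2
          rw [e5, K.rk_smul] at this
          omega
      refine hC.mono_dir hm ht hT (c := c) (d := d) (fun s x y => lg H D1.T s y x)
        (lg H T a' c D1.y) (lg H T a' d D1.y) ho (fun s x y => lg_01 _ _ _ _) (lg_01 _ _ _ _)
        (lg_01 _ _ _ _) (key c) (key d) ?_ ?_ ?_ ?_ ?_
      · intro hf x y h1 h2
        exact hf (fl (lg_one h1) (lg_one h2))
      · rw [XW_top] at two1
        exact two1
      · rw [XW_top] at two2
        exact two2
      · intro s i hi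
        refine Cl.own_zero1 (T1 := D1.T) hi hd2 (fun x y => lg H D1.T s y x) ?_
        intro x y _ hy
        exact lg_neg fun ⟨h, e, _⟩ => hy (by rw [e, K.rk_smul])
      · rw [hN, y1, y2]
        ring
    · have w1 : lg H T a' c D1.y = 0 := lg_neg fun h => by
        have := (rk1 h).1
        omega
      have w2 : lg H T a' d D1.y = 0 := lg_neg fun h => by
        have := (rk1 h).1
        omega
      refine hC.mono_core hm ht hT (fun _ _ => 0) ?_ ho ?_ ?_
      · intro x y
        rw [add_zero]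
        by_cases h : Tr H T a' x y
        · rw [lg_pos h, lg_pos (lg_F h)]
        · rw [lg_neg h]
          exact lg_nn _ _ _ _
      · rw [hN, y1, y2, w1, w2]
        simp only [add_zero, mul_zero]
        refine Finset.sum_nonneg fun i _ => ?_
        split_ifs
        · exact le_refl _
        · exact mul_nonneg (P.wq_pos i).le (K.ccs_nonneg i fun _ => by norm_num)
      · intro i _
        have := K.ccs_mul i 0 (fun _ _ _ => 0)
        simpa using this

end Cl

end P45

end Pool.Agent.DI
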