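import Pool.Agent.DI.Fd2
import Pool.Agent.DI.Quot

/-!
# The folded slice
-/

namespace Pool.Agent.DI

open MulAction
open Pool.Agent.SAF (InC orbs FinOrb oc Decomp SAn SA Conv hull dist_edge FinOrb_iff exists_next)
open Pool.Agent.BT (PX PQ JS bey exits lz lz_self lz_ne lz_symm x_next_unique)
open Pool.Agent.BT.TA

namespace Sys

variable {H V : Type} [Group H] [MulAction H V] (S : Sys H V)

/-- the two diagonals of a zero square: one of them is collapsed -/
theorem fold_sq {w : S.X} {u : S.X} {x q x' y z : V} (hp : Pn S.P x q x' y z)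
    (hs : S.Sq w u x q x' y z) : S.fq w (S.rho w x) = S.fq w (S.rho w x') ∨
      S.fq w (S.rho w q) = S.fq w (S.rho w y) := by
  have hq : S.Qs w u q x x' := ⟨y, z, hp, hs⟩
  by_cases h : S.SD w u q
  · right
    have hw := h.1.1
    obtain ⟨hu, c0, c2, s1, s3, s4⟩ := hs
    rw [S.rho_near hw, S.rho_bey hu s3]
    exact fq_inr.2 (Sk.inl.2 h)
  · left
    exact Gc.fq (Relation.EqvGen.rel _ _ hq) h

/-- the data of the folded slice -/
noncomputable def kfQ (hc : S.Conn) (w : S.X) : Qt (S.k0 hc w) (S.fq w) where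
  ar := S.arQ w
  rk := S.rkQ w
  equi h a := fq_smul h a
  surj := fq_surj w
  ar_rk _ _ h := arQ_rk h
  ar_smul h _ _ k := arQ_smul h k
  rk_smul h c := rkQ_smul h c
  two _ _ _ _ ha hb hc := arQ_two ha hb hc
  e1 := by
    rintro a b (e | e)
    · exact arQ_map e
    · rcases arQ_map e with k | k | k
      · exact Or.inl k.symm
      · exact Or.inr (Or.inr k)
      · exact Or.inr (Or.inl k)
  e2 := by
    rintro c d ⟨a, rfl, hs, x, rfl, y, hy, rfl⟩
    refine ⟨S.rho w (S.tm w x.1), y, Or.inl hy, ?_, rfl⟩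
    rw [← (Tm_tm w x.1).fq, S.rho_near x.2]
    rfl
  mg := by
    intro x y h
    apply mg_of_eqv
    have k := fq_eq.1 h
    have key : ∀ a b, S.FR w a b → S.fq w a = S.fq w b ∧
        ((∃ c, (S.k0 hc w).E c a ∧ (S.k0 hc w).E c b) ∨ (S.k0 hc w).E a b) := by
      intro a b k
      refine ⟨k.fq, Or.inl ?_⟩
      cases k with
      | mer u q x x' h1 h2 =>
        have e1 := sar_up h1.adj h1.l
        have e2 := sar_up h1.adj h1.r
        rw [S.rho_near x.2] at e1
        rw [S.rho_near x'.2] at e2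
        exact ⟨Sum.inr ⟨u, h1.adj⟩, Or.inr e1, Or.inr e2⟩
      | dia q u h1 =>
        obtain ⟨hw, a, b, hne, ha, hb, hg⟩ := h1.1
        have ca := h1.1.two ha
        have e1 := sar_up ca.1 ca.2
        have e2 := sar_hor q.2 ca.2.1 ha
        rw [S.rho_near q.2] at e2
        exact ⟨S.rho w a, Or.inr e2, Or.inl e1⟩
    exact Relation.EqvGen.mono key _ _ k
  stab := S.inC_Q w
  J := S.C5 w
  finJ := S.finC5 w
  ι := Sum.inl
  drop := by
    rintro (i | p) hi φ hs
    · exact absurd rfl (hi i)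
    · have hv := S.tr_E p.g p.1.1
      have hp : Pn S.P (S.tr p.g p.1.1 p.1.2.1) (S.tr p.g p.1.1 (p.1.2.1 + 1))
          (S.tr p.g p.1.1 (p.1.2.1 + 2)) (S.tr p.g p.1.1 (p.1.2.1 + 3))
          (S.tr p.g p.1.1 (p.1.2.1 + 4)) := Pn_pt p.g p.1.1 p.1.2.1
      have hl := lz_symm φ hs
      have h := S.fold_sq hp p.sq
      show ps (lz φ) (S.fq w (S.rho w (S.tr p.g p.1.1 p.1.2.1)))
        [S.fq w (S.rho w (S.tr p.g p.1.1 (p.1.2.1 + 1))),
          S.fq w (S.rho w (S.tr p.g p.1.1 (p.1.2.1 + 2))),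
          S.fq w (S.rho w (S.tr p.g p.1.1 (p.1.2.1 + 3))),
          S.fq w (S.rho w (S.tr p.g p.1.1 p.1.2.1))] = 0
      generalize S.fq w (S.rho w (S.tr p.g p.1.1 p.1.2.1)) = a at h ⊢
      generalize S.fq w (S.rho w (S.tr p.g p.1.1 (p.1.2.1 + 1))) = b at h ⊢
      generalize S.fq w (S.rho w (S.tr p.g p.1.1 (p.1.2.1 + 2))) = c at h ⊢
      generalize S.fq w (S.rho w (S.tr p.g p.1.1 (p.1.2.1 + 3))) = d at h ⊢
      simp only [ps_cons, ps_nil, add_zero]
      rcases h with rfl | rfl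
      · rw [hl b a, hl d a]
        have k1 := zz2 (lz φ a b)
        have k2 := zz2 (lz φ a d)
        linear_combination k1 + k2
      · rw [hl b a, hl b c]
        have k1 := zz2 (lz φ a b)
        have k2 := zz2 (lz φ c b)
        linear_combination k1 + k2

/-- THE FOLDED SLICE at `w` -/
noncomputable def kf (hc : S.Conn) (w : S.X) : GX ↥(stabilizer H w) (S.Q w) := (S.kfQ hc w).gx

/-- its cells are the images of pentagons -/
noncomputable def kf5 (hc : S.Conn) (w : S.X) : Q5 (S.kfQ hc w) where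
  p i k := S.rho w (S.tr i.g i.1 k)
  inj := Sum.inl_injective
  cb_eq _ := rfl
  cw_eq _ := rfl
  short := by
    rintro (i | p) hi
    · exact absurd rfl (hi i)
    · exact le_refl 4

theorem kf_ar (hc : S.Conn) (w : S.X) : (S.kf hc w).ar = S.arQ w := rfl

theorem kf_rk (hc : S.Conn) (w : S.X) : (S.kf hc w).rk = S.rkQ w := rfl

theorem kf_area_le (hc : S.Conn) (w : S.X) : (S.kf hc w).area ≤ S.K.area :=
  ((S.kfQ hc w).area_le Sum.inl_injective).trans (S.k0_area_le hc w)

/-- the pentagons of the folded slice (if the unfolded slice is minimal) -/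
noncomputable def kfP (hc : S.Conn) (w : S.X) (hm : (S.k0 hc w).Min) : Pt (S.kf hc w) :=
  (S.kf5 hc w).pt hm

theorem kfP_pt (hc : S.Conn) (w : S.X) (hm : (S.k0 hc w).Min) (i : S.C5 w) (k : Fin 5) :
    (S.kfP hc w hm).pt i k = S.fq w (S.rho w (S.tr i.g i.1 k)) := rfl

theorem kf_min (hc : S.Conn) (w : S.X) (hm : (S.k0 hc w).Min) : (S.kf hc w).Min :=
  (S.kf5 hc w).min hm

end Sys

end Pool.Agent.DI
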