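import Pool.Agent.DI.PQ2
import Pool.Agent.DI.Count

/-!
# DI/PQ3: p = q for unions of pieces
-/

namespace Pool.Agent.DI

open MulAction
open Pool.Agent.SAF (InC orbs FinOrb oc)
open Pool.Agent.BT (PX)

variable {H V : Type} [Group H] [MulAction H V] {K : GX H V}

namespace Pt

theorem len_eq (P : Pt K) (i : K.I) : K.len i = 5 := by
  show (K.cw i).length = 5
  rw [P.cw_eq]
  rfl

theorem vx_eq (P : Pt K) (i : K.I) (j : Fin 5) : K.vx i j = P.pt i j := by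
  have h : (j : ℕ) < K.len i := by
    rw [P.len_eq]
    exact j.2
  rw [K.vx_of_lt h, P.cb_eq, P.cw_eq]
  fin_cases j <;> rfl

theorem vx_nat (P : Pt K) (i : K.I) (n : ℕ) (j : Fin 5) (h : n % 5 = j) :
    K.vx i n = P.pt i j := by
  have e : n % K.len i = j := by
    rw [P.len_eq]
    exact h
  rw [← K.vx_mod, e]
  exact P.vx_eq i j

theorem vx_three (P : Pt K) (i : K.I) (n : ℕ) (j : Fin 5) (h : n % 5 = j) :
    K.vx i n = P.pt i j ∧ K.vx i (n + 1) = P.pt i (j + 1) ∧ K.vx i (n + 2) = P.pt i (j + 2) := by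
  refine ⟨P.vx_nat i n j h, P.vx_nat i _ _ ?_, P.vx_nat i _ _ ?_⟩
  · rw [Fin.val_add, ← h]
    show (n + 1) % 5 = (n % 5 + 1) % 5
    omega
  · rw [Fin.val_add, ← h]
    show (n + 2) % 5 = (n % 5 + 2) % 5
    omega

/-- sums over the corners of a complex with pentagons only -/
theorem ccs_eq (P : Pt K) (i : K.I) (w : V → V → V → ℤ) :
    K.ccs i w = ∑ j : Fin 5, w (P.pt i j) (P.pt i (j + 1)) (P.pt i (j + 2)) := by
  have hl := P.len_eq i
  unfold GX.ccs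
  refine Fintype.sum_equiv (finCongr hl) _ _ (fun j => ?_)
  obtain ⟨h0, h1, h2⟩ := P.vx_three i j (finCongr hl j) (Nat.mod_eq_of_lt (by
    show (j : ℕ) < 5
    rw [← hl]
    exact j.2))
  rw [h0, h1, h2]

theorem cs_eq (P : Pt K) (w : V → V → V → ℤ) : K.cr.cs w =
    ∑ i, ∑ j : Fin 5, w (P.pt i j) (P.pt i (j + 1)) (P.pt i (j + 2)) := by
  rw [K.cs_eq]
  exact Finset.sum_congr rfl fun i _ => P.ccs_eq i w

/-- positions are corners of cells -/
theorem at_pos (P : Pt K) (p : K.cr.P) : ∃ c, P.At c (show K.Pos from p).1 ∧ c 0 = K.cr.v0 p ∧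
    c 1 = K.cr.v1 p ∧ c 2 = K.cr.v2 p := by
  obtain ⟨i, j⟩ := (show K.Pos from p)
  have hl := P.len_eq i
  obtain ⟨h0, h1, h2⟩ := P.vx_three i j (finCongr hl j) (Nat.mod_eq_of_lt (by
    show (j : ℕ) < 5
    rw [← hl]
    exact j.2))
  exact ⟨fun k => P.pt i (finCongr hl j + k), (P.at_pt i).rot _,
    (congrArg (P.pt i) (add_zero _)).trans h0.symm, h1.symm, h2.symm⟩

end Pt

/-- the corners with a leg moved and the other leg the target -/
def cA (mv : V → V → Prop) (τ : V → V → V) (x y z : V) : Prop :=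
  (mv x y ∧ z = τ x y) ∨ (mv z y ∧ x = τ z y)

namespace PQd

variable {P : Pt K} (Q : PQd P)

/-- the corners with a leg moved and the other leg an out-neighbour which is not the target -/
def cB (x y z : V) : Prop :=
  (Q.S.mv x y ∧ K.ar y z ∧ z ≠ Q.S.τ x y) ∨ (Q.S.mv z y ∧ K.ar y x ∧ x ≠ Q.S.τ z y)

open Classical in
/-- the value of `s` at the corners of the cells -/
theorem s_eq {c : Fin 5 → V} {i : K.I} (a : P.At c i) : Q.s (c 0) (c 1) (c 2) =
    (if Q.cB (c 0) (c 1) (c 2) then 1 else 0) -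
      (if cA Q.S.mv Q.S.τ (c 0) (c 1) (c 2) then 1 else 0) := by
  have up : ∀ {x y}, Q.S.mv x y → ¬ K.ar y x := fun h h' => by
    have := K.ar_rk _ _ (Q.S.mv_ar _ _ h)
    have := K.ar_rk _ _ h'
    omega
  -- moved first leg
  have key : ∀ {c : Fin 5 → V}, P.At c i → Q.S.mv (c 0) (c 1) →
      Q.s (c 0) (c 1) (c 2) = (if Q.cB (c 0) (c 1) (c 2) then 1 else 0) -
        (if cA Q.S.mv Q.S.τ (c 0) (c 1) (c 2) then 1 else 0) := by
    intro c a h1
    rcases Q.comp c i a h1 with ⟨h2, h3⟩ | h | h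
    · have hA : ¬ cA Q.S.mv Q.S.τ (c 0) (c 1) (c 2) := by
        rintro (⟨-, e⟩ | ⟨-, e⟩)
        · have := Q.not_mv_of_τ h1 (c 1)
          rw [← e] at this
          exact this h2
        · have := Q.not_mv_of_τ h2 (c 1)
          rw [← e] at this
          exact this h1
      have hB : ¬ Q.cB (c 0) (c 1) (c 2) := by
        rintro (⟨-, e, -⟩ | ⟨-, e, -⟩)
        · exact up h2 e
        · exact up h1 e
      rw [if_neg hA, if_neg hB]
      exact sg_mv_mv h1 h2 h3.symm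
    · have hz : ¬ Q.S.mv (c 2) (c 1) := by rw [h]; exact Q.not_mv_of_τ h1 (c 1)
      have hA : cA Q.S.mv Q.S.τ (c 0) (c 1) (c 2) := Or.inl ⟨h1, h⟩
      have hB : ¬ Q.cB (c 0) (c 1) (c 2) := by
        rintro (⟨-, -, e⟩ | ⟨e, -⟩)
        · exact e h
        · exact hz e
      rw [if_pos hA, if_neg hB]
      exact sg_mv_τ h1 hz h
    · have hz : ¬ Q.S.mv (c 2) (c 1) := fun k => up k h
      by_cases e : c 2 = Q.S.τ (c 0) (c 1)
      · have hA : cA Q.S.mv Q.S.τ (c 0) (c 1) (c 2) := Or.inl ⟨h1, e⟩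
        have hB : ¬ Q.cB (c 0) (c 1) (c 2) := by
          rintro (⟨-, -, e'⟩ | ⟨e', -⟩)
          · exact e' e
          · exact hz e'
        rw [if_pos hA, if_neg hB]
        exact sg_mv_τ h1 hz e
      · have hA : ¬ cA Q.S.mv Q.S.τ (c 0) (c 1) (c 2) := by
          rintro (⟨-, e'⟩ | ⟨e', -⟩)
          · exact e e'
          · exact hz e'
        have hB : Q.cB (c 0) (c 1) (c 2) := Or.inl ⟨h1, h, e⟩
        rw [if_neg hA, if_pos hB]
        exact sg_mv_not h1 hz e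
  by_cases h1 : Q.S.mv (c 0) (c 1)
  · exact key a h1
  by_cases h2 : Q.S.mv (c 2) (c 1)
  · have k := key (c := fun j => c (2 - j)) (a.refl 2) h2
    have k : Q.s (c 2) (c 1) (c 0) = (if Q.cB (c 2) (c 1) (c 0) then 1 else 0) -
        (if cA Q.S.mv Q.S.τ (c 2) (c 1) (c 0) then 1 else 0) := k
    rw [Q.s_symm, k]
    have e1 : Q.cB (c 2) (c 1) (c 0) ↔ Q.cB (c 0) (c 1) (c 2) := Or.comm
    have e2 : cA Q.S.mv Q.S.τ (c 2) (c 1) (c 0) ↔ cA Q.S.mv Q.S.τ (c 0) (c 1) (c 2) := Or.comm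
    simp only [e1, e2]
  · have hA : ¬ cA Q.S.mv Q.S.τ (c 0) (c 1) (c 2) := by
      rintro (⟨e, -⟩ | ⟨e, -⟩)
      · exact h1 e
      · exact h2 e
    have hB : ¬ Q.cB (c 0) (c 1) (c 2) := by
      rintro (⟨e, -⟩ | ⟨e, -⟩)
      · exact h1 e
      · exact h2 e
    rw [if_neg hA, if_neg hB]
    exact sg_not_not h1 h2

/-- the inequality as a count of corners -/
theorem cn_le (hm : K.Min) : K.cr.cn (cA Q.S.mv Q.S.τ) ≤ K.cr.cn Q.cB := by
  classical
  have h1 := Q.sum_nonneg hm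
  have h2 : ∑ i, Q.t i = K.cr.cs Q.s := (P.cs_eq Q.s).symm
  have h3 : K.cr.cs Q.s = (K.cr.cn Q.cB : ℤ) - K.cr.cn (cA Q.S.mv Q.S.τ) := by
    rw [K.cr.cn_eq, K.cr.cn_eq, ← Cr.cs_sub]
    refine K.cr.cs_congr fun p => ?_
    obtain ⟨c, a, e0, e1, e2⟩ := P.at_pos p
    rw [← e0, ← e1, ← e2]
    exact Q.s_eq a
  rw [h2, h3] at h1
  exact_mod_cast (by linarith : (K.cr.cn (cA Q.S.mv Q.S.τ) : ℤ) ≤ K.cr.cn Q.cB)

end PQd

/-! ### pieces -/

/-- a set `R` of in-arrows of `v` whose corners stay in `R` or go to an out-neighbour; elements of the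
stabiliser of `v` fix the pole `a` and preserve `R`, or move `R` off itself -/
structure PcD (P : Pt K) where
  v : V
  a : V
  b : V
  R : Set V
  va : K.ar v a
  vb : K.ar v b
  ab : a ≠ b
  R_ar : ∀ n ∈ R, K.ar n v
  stab : ∀ g : H, g • v = v → ∀ n ∈ R, g • n ∈ R → g • a = a
  inv : ∀ g : H, g • v = v → g • a = a → ∀ n ∈ R, g • n ∈ R
  cl : ∀ (c : Fin 5 → V) (i : K.I), P.At c i → c 1 = v → c 0 ∈ R → c 2 ∈ R ∨ K.ar v (c 2)

namespace PcD

variable {P : Pt K} (D : PcD P)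

/-- the other pole is fixed, too -/
theorem fix_b {g : H} (hv : g • D.v = D.v) (ha : g • D.a = D.a) : g • D.b = D.b := by
  have h := K.ar_smul g _ _ D.vb
  rw [hv] at h
  rcases K.two _ _ _ _ D.va D.vb h with e | e | e
  · exact absurd e D.ab
  · exact e.symm
  · exfalso
    rw [← ha] at e
    exact D.ab (smul_left_cancel g e)

/-- the same with the poles exchanged -/
def swap : PcD P where
  v := D.v
  a := D.b
  b := D.a
  R := D.R
  va := D.vb
  vb := D.va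
  ab := D.ab.symm
  R_ar := D.R_ar
  stab g hv n hn hg := D.fix_b hv (D.stab g hv n hn hg)
  inv g hv hb n hn := by
    refine D.inv g hv ?_ n hn
    have h := K.ar_smul g _ _ D.va
    rw [hv] at h
    rcases K.two _ _ _ _ D.va D.vb h with e | e | e
    · exact absurd e D.ab
    · exfalso
      rw [← hb] at e
      exact D.ab (smul_left_cancel g e.symm)
    · exact e.symm
  cl := D.cl

/-- moved arrows -/
def mv (n y : V) : Prop := ∃ h : H, h⁻¹ • n ∈ D.R ∧ y = h • D.v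

theorem mv_ar {n y : V} (e : D.mv n y) : K.ar n y := by
  obtain ⟨h, h1, rfl⟩ := e
  have := K.ar_smul h _ _ (D.R_ar _ h1)
  rwa [smul_inv_smul] at this

open Classical in
/-- targets -/
noncomputable def τ (n y : V) : V := if e : D.mv n y then (Classical.choose e) • D.a else y

theorem τ_eq {n y : V} {h : H} (h1 : h⁻¹ • n ∈ D.R) (h2 : y = h • D.v) : D.τ n y = h • D.a := by
  have e : D.mv n y := ⟨h, h1, h2⟩
  unfold τ
  rw [dif_pos e]
  obtain ⟨k1, k2⟩ := Classical.choose_spec e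
  set k := Classical.choose e
  have e1 : (h⁻¹ * k) • D.v = D.v := by
    rw [mul_smul, ← k2, h2, inv_smul_smul]
  have e2 : (h⁻¹ * k) • (k⁻¹ • n) ∈ D.R := by
    rw [mul_smul, smul_inv_smul]
    exact h1
  have e3 := D.stab _ e1 _ k1 e2
  rw [mul_smul, inv_smul_eq_iff] at e3
  exact e3

/-- the slide -/
noncomputable def sl : Sl K where
  mv := D.mv
  τ := D.τ
  mv_ar _ _ e := D.mv_ar e
  mv_smul h n y := by
    rintro ⟨k, h1, rfl⟩
    refine ⟨h * k, ?_, (mul_smul h k _).symm⟩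
    rw [mul_inv_rev, mul_smul, inv_smul_smul]
    exact h1
  τ_smul h n y := by
    rintro ⟨k, h1, rfl⟩
    rw [D.τ_eq h1 rfl, D.τ_eq (h := h * k) (n := h • n) (y := h • k • D.v) ?_ (mul_smul h k _).symm,
      mul_smul]
    rw [mul_inv_rev, mul_smul, inv_smul_smul]
    exact h1
  τ_ar n y := by
    rintro ⟨k, h1, rfl⟩
    rw [D.τ_eq h1 rfl]
    exact K.ar_smul k _ _ D.va
  far := by
    rintro n v n' v' ⟨k, -, rfl⟩ ⟨k', -, rfl⟩ e
    have h1 := K.rk_smul k D.v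
    have h2 := K.rk_smul k' D.v
    rcases e with e | e
    · have := K.ar_rk _ _ e
      omega
    · have := K.ar_rk _ _ e
      omega

/-- the data of `PQd` -/
noncomputable def pqd : PQd P where
  S := D.sl
  ρ := K.rk D.v
  ρ' := K.rk D.a
  rk1 := by
    rintro n v ⟨k, -, rfl⟩
    exact K.rk_smul k _
  rk2 := by
    rintro n v ⟨k, h1, rfl⟩
    show K.rk (D.τ _ _) = _
    rw [D.τ_eq h1 rfl, K.rk_smul]
  comp := by
    rintro c i a ⟨k, h1, h2⟩
    have e1 : k⁻¹ • c 1 = D.v := by rw [h2, inv_smul_smul]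
    rcases D.cl (fun j => k⁻¹ • c j) i (a.smul k⁻¹) e1 h1 with h | h
    · left
      refine ⟨⟨k, h, h2⟩, ?_⟩
      show D.τ _ _ = D.τ _ _
      rw [D.τ_eq h h2, D.τ_eq h1 h2]
    · right
      right
      have := K.ar_smul k _ _ h
      rwa [smul_inv_smul, ← h2] at this

/-- corners of the piece at the translates of the pole `a` -/
def ca (x y z : V) : Prop := ∃ h : H, y = h • D.v ∧
  ((h⁻¹ • x ∈ D.R ∧ z = h • D.a) ∨ (h⁻¹ • z ∈ D.R ∧ x = h • D.a))

theorem cA_iff (x y z : V) : cA D.sl.mv D.sl.τ x y z ↔ D.ca x y z := by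
  constructor
  · rintro (⟨⟨h, h1, h2⟩, e⟩ | ⟨⟨h, h1, h2⟩, e⟩)
    · exact ⟨h, h2, Or.inl ⟨h1, e.trans (D.τ_eq h1 h2)⟩⟩
    · exact ⟨h, h2, Or.inr ⟨h1, e.trans (D.τ_eq h1 h2)⟩⟩
  · rintro ⟨h, h2, ⟨h1, e⟩ | ⟨h1, e⟩⟩
    · exact Or.inl ⟨⟨h, h1, h2⟩, e.trans (D.τ_eq h1 h2).symm⟩
    · exact Or.inr ⟨⟨h, h1, h2⟩, e.trans (D.τ_eq h1 h2).symm⟩

theorem cB_iff (x y z : V) : D.pqd.cB x y z ↔ D.swap.ca x y z := by
  have key : ∀ {x z : V} {h : H}, y = h • D.v → h⁻¹ • x ∈ D.R →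
      ((K.ar y z ∧ z ≠ D.τ x y) ↔ z = h • D.b) := by
    intro x z h h2 h1
    rw [D.τ_eq h1 h2]
    constructor
    · rintro ⟨e, e'⟩
      rw [h2] at e
      rcases K.two _ _ _ _ (K.ar_smul h _ _ D.va) (K.ar_smul h _ _ D.vb) e with k | k | k
      · exact absurd (smul_left_cancel h k) D.ab
      · exact k.symm
      · exact absurd k.symm e'
    · rintro rfl
      refine ⟨by rw [h2]; exact K.ar_smul h _ _ D.vb, fun k => D.ab (smul_left_cancel h k).symm⟩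
  constructor
  · rintro (⟨⟨h, h1, h2⟩, e⟩ | ⟨⟨h, h1, h2⟩, e⟩)
    · exact ⟨h, h2, Or.inl ⟨h1, (key h2 h1).1 e⟩⟩
    · exact ⟨h, h2, Or.inr ⟨h1, (key h2 h1).1 e⟩⟩
  · rintro ⟨h, h2, ⟨h1, e⟩ | ⟨h1, e⟩⟩
    · exact Or.inl ⟨⟨h, h1, h2⟩, (key h2 h1).2 e⟩
    · exact Or.inr ⟨⟨h, h1, h2⟩, (key h2 h1).2 e⟩

theorem le (hm : K.Min) : K.cr.cn D.ca ≤ K.cr.cn D.swap.ca := by
  have h := D.pqd.cn_le hm
  rwa [K.cr.cn_congr (P := cA D.pqd.S.mv D.pqd.S.τ) (Q := D.ca) (fun p => D.cA_iff _ _ _),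
    K.cr.cn_congr (P := D.pqd.cB) (Q := D.swap.ca) (fun p => D.cB_iff _ _ _)] at h

/-- `p = q` -/
theorem pq (hm : K.Min) : K.cr.cn D.ca = K.cr.cn D.swap.ca :=
  le_antisymm (D.le hm) (D.swap.le hm)

end PcD

end Pool.Agent.DI
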