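import Pool.Agent.DI.Seen
import Pool.Agent.DI.Pot0
import Pool.Agent.DI.KF
import Pool.Agent.DI.KMin
import Pool.Agent.DI.PQ3

/-!
Corners of pentagons as positions; `pole_cell` (if one pole arrow of a vertex with two poles lies
in a cell, the other one does too); `S.fr w z` = image of a vertex in the folded slice;
`kf_pn`: pentagons centred at `w` are cells of the folded slice; `S.Only w x` (`x` sits at `w`, its
poles cross no edge at `w`): its class is a singleton (`Only.cls`), arrows to it stay arrows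
(`Only.ar`), and if it is seen all its edges are in cells of the folded slice (`Only.EC`).
-/

namespace Pool.Agent.DI

open MulAction
open Pool.Agent.SAF (InC SA orbs FinOrb oc Decomp SAn Conv exists_next FinOrb_iff oc_le_of_inj
  oc_lt_of_inj)
open Pool.Agent.BT (PX PQ JS bey exits Ell mst)

section Pole

variable {H V : Type} [Group H] [MulAction H V] {K : GX H V}

theorem pos_of (P : Pt K) (i : K.I) (j : Fin 5) : ∃ p : K.cr.P, K.cr.v0 p = P.pt i j ∧
    K.cr.v1 p = P.pt i (j + 1) ∧ K.cr.v2 p = P.pt i (j + 2) := by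
  have hl := P.len_eq i
  refine ⟨(⟨i, (finCongr hl).symm j⟩ : K.Pos), P.vx_three i j j (Nat.mod_eq_of_lt j.2)⟩

theorem At_pn {P : Pt K} {c : Fin 5 → V} {i : K.I} (a : P.At c i) :
    Pn P (c 0) (c 1) (c 2) (c 3) (c 4) := by
  obtain ⟨h, k, a | a⟩ := a
  · refine ⟨h, i, k, Or.inl ⟨?_, a 1, a 2, a 3, a 4⟩⟩
    rw [a 0, add_zero]
  · refine ⟨h, i, k - 2, Or.inr ⟨a 2, ?_, ?_, ?_, ?_⟩⟩
    · rw [a 1]
      congr 2
      clear a
      revert k
      decide
    · rw [a 0]
      congr 2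
      clear a
      revert k
      decide
    · rw [a 4]
      congr 2
      clear a
      revert k
      decide
    · rw [a 3]
      congr 2
      clear a
      revert k
      decide

theorem Pn_at {P : Pt K} {a q b y z : V} (h : Pn P a q b y z) :
    ∃ (c : Fin 5 → V) (i : K.I), P.At c i ∧ c 0 = a ∧ c 1 = q ∧ c 2 = b ∧ c 3 = y ∧ c 4 = z := by
  obtain ⟨h, i, j, ⟨rfl, rfl, rfl, rfl, rfl⟩ | ⟨rfl, rfl, rfl, rfl, rfl⟩⟩ := h
  · exact ⟨fun k => h • P.pt i (j + k), i, ⟨h, j, Or.inl fun _ => rfl⟩, by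
      show h • P.pt i (j + 0) = _
      rw [add_zero], rfl, rfl, rfl, rfl⟩
  · refine ⟨fun k => h • P.pt i (j + 2 - k), i, ⟨h, j + 2, Or.inr fun _ => rfl⟩, ?_, ?_, ?_, ?_,
      ?_⟩
    all_goals
      show h • P.pt i _ = h • P.pt i _
      congr 2
      revert j
      decide

theorem exists_pos (P : Pt K) {a v b : V} (h : K.Cor a v b) : ∃ (p : K.cr.P) (g : H),
    (a = g • K.cr.v0 p ∧ v = g • K.cr.v1 p ∧ b = g • K.cr.v2 p) ∨
    (b = g • K.cr.v0 p ∧ v = g • K.cr.v1 p ∧ a = g • K.cr.v2 p) := by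
  obtain ⟨y, z, g, i, j, ⟨rfl, rfl, rfl, -, -⟩ | ⟨rfl, rfl, rfl, -, -⟩⟩ := P.cor_iff.1 h
  · obtain ⟨p, h0, h1, h2⟩ := pos_of P i j
    exact ⟨p, g, Or.inl ⟨by rw [h0], by rw [h1], by rw [h2]⟩⟩
  · obtain ⟨p, h0, h1, h2⟩ := pos_of P i j
    exact ⟨p, g, Or.inr ⟨by rw [h0], by rw [h1], by rw [h2]⟩⟩

theorem cor_pos (P : Pt K) (p : K.cr.P) : K.Cor (K.cr.v0 p) (K.cr.v1 p) (K.cr.v2 p) := by
  obtain ⟨c, a, h0, h1, h2⟩ := P.at_pos p
  rw [← h0, ← h1, ← h2]
  exact P.cor_iff.2 ⟨_, _, At_pn a⟩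

theorem cor_symm (P : Pt K) {a v b : V} (h : K.Cor a v b) : K.Cor b v a := by
  obtain ⟨y, z, h⟩ := P.cor_iff.1 h
  exact P.cor_iff.2 ⟨_, _, h.symm⟩

theorem cor_smul (P : Pt K) (g : H) {a v b : V} (h : K.Cor a v b) :
    K.Cor (g • a) (g • v) (g • b) := by
  obtain ⟨y, z, h⟩ := P.cor_iff.1 h
  exact P.cor_iff.2 ⟨_, _, h.smul g⟩

theorem pole_cell (P : Pt K) (hm : K.Min) {s a b : V} (ha : K.ar s a) (hb : K.ar s b)
    (hne : a ≠ b) (he : K.EC s a) : K.EC s b := by
  by_cases hs : K.Spc s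
  · obtain ⟨h, h1, h2, -⟩ := hs.swap ha hb hne
    have := he.smul h
    rwa [h1, h2] at this
  have fixa : ∀ g : H, g • s = s → g • a = a := by
    intro g hg
    by_contra hc
    exact hs ⟨g, hg, a, ha, hc⟩
  let D : PcD P :=
    { v := s
      a := a
      b := b
      R := {n | K.ar n s}
      va := ha
      vb := hb
      ab := hne
      R_ar := fun n hn => hn
      stab := fun g hg n _ _ => fixa g hg
      inv := fun g hg _ n hn => by
        have := K.ar_smul g _ _ hn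
        rwa [hg] at this
      cl := by
        intro c i hc h1 _
        have e := hc.E 1
        have g1 : (1 : Fin 5) + 1 = 2 := rfl
        rw [g1, h1] at e
        rcases e with e | e
        · exact Or.inr e
        · exact Or.inl e }
  obtain ⟨c, hc⟩ := GX.EC_iff.1 he.symm
  by_cases hcb : c = b
  · subst hcb
    exact (GX.EC_iff.2 ⟨_, cor_symm P hc⟩).symm
  have hE : K.ar c s := by
    obtain ⟨y, z, h⟩ := P.cor_iff.1 hc
    have hca : a ≠ c := by
      obtain ⟨d, i, hd, h0, -, h2, -⟩ := Pn_at h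
      have := hd.ne2 hm 0
      have g : (0 : Fin 5) + 2 = 2 := rfl
      rwa [g, h0, h2] at this
    rcases h.E2 with e | e
    · rcases GX.Sft.cases ha hb hne e with e | e
      · exact absurd e.symm hca
      · exact absurd e hcb
    · exact e
  have hpos : 0 < K.cr.cn D.ca := by
    rw [Cr.cn_pos]
    obtain ⟨p, g, ⟨h0, h1, h2⟩ | ⟨h0, h1, h2⟩⟩ := exists_pos P hc
    · refine ⟨p, g⁻¹, ?_, Or.inr ⟨?_, ?_⟩⟩
      · show _ = g⁻¹ • s
        rw [h1, inv_smul_smul]
      · show K.ar (g⁻¹⁻¹ • _) s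
        rw [inv_inv, ← h2]
        exact hE
      · show _ = g⁻¹ • a
        rw [h0, inv_smul_smul]
    · refine ⟨p, g⁻¹, ?_, Or.inl ⟨?_, ?_⟩⟩
      · show _ = g⁻¹ • s
        rw [h1, inv_smul_smul]
      · show K.ar (g⁻¹⁻¹ • _) s
        rw [inv_inv, ← h0]
        exact hE
      · show _ = g⁻¹ • a
        rw [h2, inv_smul_smul]
  rw [D.pq hm, Cr.cn_pos] at hpos
  obtain ⟨p, g, h1, ⟨-, h2⟩ | ⟨-, h2⟩⟩ := hpos
  · have h3 := cor_smul P g⁻¹ (cor_pos P p)
    have e1 : K.cr.v1 p = g • s := h1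
    have e2 : K.cr.v2 p = g • b := h2
    rw [e1, e2, inv_smul_smul, inv_smul_smul] at h3
    exact (GX.EC_iff.2 ⟨_, cor_symm P h3⟩).symm
  · have h3 := cor_smul P g⁻¹ (cor_pos P p)
    have e1 : K.cr.v1 p = g • s := h1
    have e2 : K.cr.v0 p = g • b := h2
    rw [e1, e2, inv_smul_smul, inv_smul_smul] at h3
    exact (GX.EC_iff.2 ⟨_, h3⟩).symm

end Pole


namespace Sys

variable {H V : Type} [Group H] [MulAction H V] {S : Sys H V}

variable (S) in
/-- the image of a vertex in the folded slice -/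
noncomputable def fr (w : S.X) (z : V) : S.Q w := S.fq w (S.rho w z)

theorem fr_smul {w : S.X} (h : ↥(stabilizer H w)) (z : V) : S.fr w (h.1 • z) = h • S.fr w z := by
  unfold fr
  rw [S.rho_smul, fq_smul]

/-- pentagons with centre `w` are cells of the folded slice -/
theorem kf_pn (hc : S.Conn) {w : S.X} (hm : (S.k0 hc w).Min) {a q b y z : V}
    (hp : Pn S.P a q b y z) (h : S.Ce w a q b y z) :
    Pn (S.kfP hc w hm) (S.fr w a) (S.fr w q) (S.fr w b) (S.fr w y) (S.fr w z) := by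
  obtain ⟨g, i, k, hh⟩ := hp
  have key2 : S.IsC (S.tr g i) w → ∃ (c : S.C5 w) (l : ↥(stabilizer H w)), ∀ j,
      S.fr w (S.tr g i j) = l • (S.kfP hc w hm).pt c j := by
    intro hI
    let c : S.C5 w := ⟨i, g, hI⟩
    have h1 : S.IsC (S.tr g i) ((g * c.g⁻¹) • w) := by
      have := (S.isC_smul (g * c.g⁻¹) c.g i w).2 c.isC
      rwa [inv_mul_cancel_right] at this
    have hmem : (g * c.g⁻¹) • w = w := S.isC_unique (S.tr_E g i) h1 hI
    refine ⟨c, ⟨g * c.g⁻¹, hmem⟩, fun j => ?_⟩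
    rw [kfP_pt]
    show _ = (⟨g * c.g⁻¹, hmem⟩ : ↥(stabilizer H w)) • S.fr w (S.tr c.g i j)
    rw [← fr_smul]
    show S.fr w (g • S.P.pt i j) = S.fr w ((g * c.g⁻¹) • c.g • S.P.pt i j)
    rw [smul_smul, inv_mul_cancel_right]
  rcases hh with ⟨h1, h2, h3, h4, h5⟩ | ⟨h1, h2, h3, h4, h5⟩
  · have hI : S.IsC (S.tr g i) w := by
      rw [ce_tr k]
      subst h1 h2 h3 h4 h5
      exact h
    obtain ⟨c, l, hl⟩ := key2 hI
    subst h1 h2 h3 h4 h5
    exact ⟨l, c, k, Or.inl ⟨hl k, hl _, hl _, hl _, hl _⟩⟩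
  · have hI : S.IsC (S.tr g i) w := by
      rw [ce_tr k]
      subst h1 h2 h3 h4 h5
      exact h.symm
    obtain ⟨c, l, hl⟩ := key2 hI
    subst h1 h2 h3 h4 h5
    exact ⟨l, c, k, Or.inr ⟨hl k, hl _, hl _, hl _, hl _⟩⟩

theorem kf_cor (hc : S.Conn) {w : S.X} (hm : (S.k0 hc w).Min) {a q b y z : V}
    (hp : Pn S.P a q b y z) (h : S.Ce w a q b y z) :
    (S.kf hc w).Cor (S.fr w a) (S.fr w q) (S.fr w b) :=
  (S.kfP hc w hm).cor_iff.2 ⟨_, _, kf_pn hc hm hp h⟩

theorem kf_EC (hc : S.Conn) {w : S.X} (hm : (S.k0 hc w).Min) {a q b y z : V}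
    (hp : Pn S.P a q b y z) (h : S.Ce w a q b y z) :
    (S.kf hc w).EC (S.fr w a) (S.fr w q) :=
  GX.EC_iff.2 ⟨_, kf_cor hc hm hp h⟩

theorem kf_VC (hc : S.Conn) {w : S.X} (hm : (S.k0 hc w).Min) {a q b y z : V}
    (hp : Pn S.P a q b y z) (h : S.Ce w a q b y z) :
    (S.kf hc w).VC (S.fr w a) := ⟨_, kf_EC hc hm hp h⟩

variable (S) in
/-- `x` sits at `w` and its poles cross no edge at `w` -/
def Only (w : S.X) (x : V) : Prop :=
  S.J x = {w} ∧ ∀ a, S.K.ar x a → ∀ u, S.D.G.Adj w u → u ∉ S.J a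

theorem Only.mem {w : S.X} {x : V} (h : S.Only w x) : w ∈ S.J x := by
  rw [h.1]
  exact rfl

theorem Only.ncr {w u : S.X} {x : V} (h : S.Only w x) (hu : S.D.G.Adj w u) : u ∉ S.J x := by
  rw [h.1]
  rintro rfl
  exact S.D.G.irrefl hu

theorem Only.not_dia {w u : S.X} {x : V} (h : S.Only w x) : ¬ S.Dia w u x := by
  intro hd
  obtain ⟨-, a, -, -, ha, -⟩ := id hd
  obtain ⟨h1, h2⟩ := hd.two ha
  exact h.2 a ha u h1 h2.2

theorem Only.not_fr {w : S.X} {x : V} (h : S.Only w x) {a b : S.SV w} (k : S.FR w a b) :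
    a ≠ S.rho w x ∧ b ≠ S.rho w x := by
  rw [S.rho_near h.mem]
  cases k with
  | mer u q y y' h1 h2 =>
    refine ⟨fun e => ?_, fun e => ?_⟩
    · have e := congrArg Subtype.val (Sum.inl.inj e)
      have e : y.1 = x := e
      have := h1.l.2
      rw [e] at this
      exact h.ncr h1.adj this
    · have e := congrArg Subtype.val (Sum.inl.inj e)
      have e : y'.1 = x := e
      have := h1.r.2
      rw [e] at this
      exact h.ncr h1.adj this
  | dia q u h1 =>
    refine ⟨fun e => ?_, fun e => ?_⟩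
    · have e := congrArg Subtype.val (Sum.inl.inj e)
      have e : q.1 = x := e
      rw [e] at h1
      exact h.not_dia h1.1
    · cases e

/-- the class of `x` has one element -/
theorem Only.cls {w : S.X} {x : V} (h : S.Only w x) {b : S.SV w} (e : S.fq w b = S.fr w x) :
    b = S.rho w x := by
  have key : ∀ a b : S.SV w, Relation.EqvGen (S.FR w) a b → (a = S.rho w x ↔ b = S.rho w x) := by
    intro a b k
    induction k with
    | rel a b k => exact iff_of_false (h.not_fr k).1 (h.not_fr k).2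
    | refl a => exact Iff.rfl
    | symm a b _ ih => exact ih.symm
    | trans a b c _ _ h1 h2 => exact h1.trans h2
  exact (key _ _ (fq_eq.1 e)).2 rfl

theorem Only.cls' {w : S.X} {x z : V} (h : S.Only w x) (e : S.fr w z = S.fr w x) : z = x := by
  have := h.cls e
  rw [S.rho_near h.mem] at this
  exact rho_inl this

theorem Only.not_sk {w : S.X} {x : V} (h : S.Only w x) (u : S.EV w) :
    ¬ S.Sk w u (Sum.inl ⟨x, h.mem⟩) := by
  intro k
  exact h.not_dia (Sk.inl.1 k).1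

theorem Only.ne_t {w : S.X} {x : V} (h : S.Only w x) (u : S.EV w) :
    S.fr w x ≠ S.fq w (Sum.inr u) := by
  intro e
  have e1 : S.fq w (S.rho w x) = S.fq w (Sum.inr u) := e
  rw [fq_inr, S.rho_near h.mem] at e1
  exact h.not_sk u e1

theorem Only.snk {w : S.X} {x : V} (h : S.Only w x) (hx : S.K.Snk x) (hc : S.Conn) :
    (S.kf hc w).Snk (S.fr w x) := by
  intro d hd
  rw [kf_ar] at hd
  have hd : S.arQ w (S.fq w (S.rho w x)) d := hd
  rw [arQ_fq, S.rho_near h.mem, GN_inl h.not_sk] at hd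
  have ht : S.tm w x = x := (Tm_tm w x).eq_of_term (by
    rintro y ⟨u, s, -, -, hs, -⟩
    exact hx _ hs)
  rw [show ((⟨x, h.mem⟩ : S.NV w).1) = x from rfl, ht] at hd
  obtain ⟨y, hy, -⟩ := hd
  rw [S.rho_near h.mem] at hy
  cases hy with
  | hor x' a ha => exact hx _ ha
  | up x' u hu => exact h.ncr u.2 hu

/-- an arrow `v → x` with `x` at `w` is an arrow of the folded slice -/
theorem Only.ar {w : S.X} {v x : V} (h : S.Only w x) (hv : S.K.ar v x) :
    S.arQ w (S.fr w v) (S.fr w x) := by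
  have hw : w ∈ S.J v := by
    obtain ⟨p, h1, h2⟩ := S.one_ex (x := v) (y := x) (Or.inl hv)
    rw [h.1] at h2
    have h2 : p = w := h2
    rwa [h2] at h1
  refine arQ_term hw ?_ ?_ (sar_hor hw h.mem hv)
  · intro u hu
    obtain ⟨h1, h2⟩ := (Sk.inl.1 hu).1.two hv
    exact h.ncr h1 h2.2
  · rintro y ⟨u, s, h1, h2, h3, h4, h5, h6, h7⟩
    have e := ar_ar_eq hw h3 h4 hv h.mem h1 h2.2
    rw [e] at h6 h7
    have := h7.cs h2
    exact h.2 y h6 u h1 this.2

theorem Only.nbr {w : S.X} {x n : V} (h : S.Only w x) (hn : S.K.E x n) : w ∈ S.J n := by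
  obtain ⟨p, h1, h2⟩ := S.one_ex hn
  rw [h.1] at h1
  have h1 : p = w := h1
  rwa [h1] at h2

/-- all edges at `x` are in cells of the folded slice -/
theorem Only.EC (hc : S.Conn) {w : S.X} (hm : (S.k0 hc w).Min) {x : V} (h : S.Only w x)
    (hl : S.K.LC x) {b c y z : V} (hp : Pn S.P b x c y z) (hce : S.Ce w b x c y z) {n : V}
    (hn : S.K.E x n) : (S.kf hc w).EC (S.fr w n) (S.fr w x) := by
  have step : ∀ a b, S.K.Cor a x b →
      ((S.kf hc w).EC (S.fr w a) (S.fr w x) ↔ (S.kf hc w).EC (S.fr w b) (S.fr w x)) := by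
    intro a b k
    obtain ⟨y, z, hp⟩ := S.P.cor_iff.1 k
    rcases corner_cases hp h.mem with h1 | ⟨u, h1 | h1 | h1 | h1⟩
    · have e1 := kf_EC hc hm hp h1
      have e2 := kf_EC hc hm hp.symm h1.symm
      exact iff_of_true e1 e2
    · have : S.fr w a = S.fr w b := by
        rcases fold_sq (S := S) hp h1 with e | e
        · exact e
        · exfalso
          obtain ⟨hu, c0, c2, s1, s3, s4⟩ := h1
          rw [S.rho_bey hu s3] at e
          exact h.ne_t ⟨u, hu⟩ e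
      rw [this]
    · exact absurd h1.2.1.2 (h.ncr h1.1)
    · exact absurd h1.2.1.2 (h.ncr h1.1)
    · exact absurd h1.2.1.2 (h.ncr h1.1)
  have key : ∀ a b, S.K.LJ x a b →
      ((S.kf hc w).EC (S.fr w a) (S.fr w x) ↔ (S.kf hc w).EC (S.fr w b) (S.fr w x)) := by
    intro a b k
    induction k with
    | rel a b k => exact step a b k
    | refl a => exact Iff.rfl
    | symm a b _ ih => exact ih.symm
    | trans a b c _ _ h1 h2 => exact h1.trans h2
  exact (key b n (hl b n hp.E1.symm hn)).1 (kf_EC hc hm hp hce)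

end Sys

end Pool.Agent.DI
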