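import Pool.Agent.DI.Pot1
import Pool.Agent.DI.LightA

/-!
# DI/CutL: the cut is harmless (T0+, note 2941)

`K.CLC v`: the link of `v` without its isolated nodes is connected. `K.EL x y`: the edge lies in a long
cell (at least five edges); `K.nVl`: the number of finite sinks in long cells.

`SubGX.clc`: let `K'` be a part of `K` with connected links which contains all long cells. If finite
sinks are not more numerous in `K'`, the corners at a pole of a light soft join it to the other pole,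
and sinks and heavy vertices of `K` have connected links, then all links of `K` without their
isolated nodes are connected.
`SubGX.cl_back`, `cl_stab`, `cl_surj`, `oc_cl`: then the part is the complex without the vertices which
lie in no cell: the orbits and the stabilisers of the vertices in cells are the same.
-/

namespace Pool.Agent.DI

open MulAction
open Pool.Agent.SAF (InC SA orbs FinOrb oc FinOrb_iff mk_eq_iff exists_rep oc_le_of_inj
  oc_le_of_surj oc_mono oc_lt_of_inj)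
open Pool.Agent.SAG (IO Zt)

namespace GX

variable {H V : Type} [Group H] [MulAction H V] (K : GX H V)

/-- the link of `v` without its isolated nodes is connected -/
def CLC (v : V) : Prop := ∀ a b, K.EC v a → K.EC v b → K.LJ v a b

/-- the edge `x y` lies in a long cell -/
def EL (x y : V) : Prop := ∃ (i : K.I) (h : H), 4 < (K.cw i).length ∧
  (Cn2 x y (K.tb i h) (K.tw i h) ∨ Cn2 y x (K.tb i h) (K.tw i h))

/-- the finite sinks in long cells -/
def sVl : Set V := {v | K.Snk v ∧ Finite ↥(stabilizer H v) ∧ ∃ y, K.EL v y}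

/-- the number of finite sinks in long cells -/
noncomputable def nVl : ℕ := oc H K.sVl

variable {K}

theorem LC.clc {v : V} (h : K.LC v) : K.CLC v := fun a b ha hb => h a b ha.E hb.E

theorem EL.ec {x y : V} (h : K.EL x y) : K.EC x y := by
  obtain ⟨i, k, -, h⟩ := h
  exact ⟨i, k, h⟩

theorem EL.symm {x y : V} (h : K.EL x y) : K.EL y x := by
  obtain ⟨i, k, h0, h⟩ := h
  exact ⟨i, k, h0, h.symm⟩

theorem EL.smul (g : H) {x y : V} (h : K.EL x y) : K.EL (g • x) (g • y) := by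
  obtain ⟨i, k, h0, h⟩ := h
  refine ⟨i, g * k, h0, ?_⟩
  rw [K.tb_mul, K.tw_mul]
  exact h.imp (fun c => c.map (fun z => g • z)) (fun c => c.map (fun z => g • z))

theorem EC_el (P : Pt K) {x y : V} (h : K.EC x y) : K.EL x y := by
  obtain ⟨i, k, h⟩ := h
  refine ⟨i, k, ?_, h⟩
  rw [P.cw_eq]
  simp

theorem nVl_eq (P : Pt K) : K.nVl = K.nVs := by
  unfold nVl nVs
  congr 1
  ext v
  exact ⟨fun h => ⟨h.1, h.2.1, h.2.2.imp fun _ h' => h'.ec⟩,
    fun h => ⟨h.1, h.2.1, h.2.2.imp fun _ h' => EC_el P h'⟩⟩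

theorem EC.cor {v a : V} (h : K.EC v a) : ∃ c, K.Cor a v c := EC_iff.1 h.symm

theorem CLC_smul (g : H) {v : V} (h : K.CLC v) : K.CLC (g • v) := by
  intro a b ha hb
  have h1 := ha.smul g⁻¹
  have h2 := hb.smul g⁻¹
  rw [inv_smul_smul] at h1 h2
  have := (h _ _ h1 h2).smul g
  rwa [smul_inv_smul, smul_inv_smul] at this

end GX

namespace SubGX

variable {H' V' H V : Type} [Group H'] [MulAction H' V'] [Group H] [MulAction H V]
  {K' : GX H' V'} {K : GX H V}

theorem LJ_map (S : SubGX K' K) {v a b : V'} (h : K'.LJ v a b) : K.LJ (S.f v) (S.f a) (S.f b) := by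
  unfold GX.LJ at h ⊢
  induction h with
  | rel a b h => exact Relation.EqvGen.rel _ _ (S.corner h)
  | refl a => exact Relation.EqvGen.refl _
  | symm a b _ ih => exact ih.symm
  | trans a b c _ _ ih1 ih2 => exact ih1.trans _ _ _ ih2

/-- an edge of a cell of the part comes from the part -/
theorem cell_back (S : SubGX K' K) {i : K.I} (hi : ∃ i', S.ι i' = i) {k : H} {x y : V}
    (h : Cn2 x y (K.tb i k) (K.tw i k) ∨ Cn2 y x (K.tb i k) (K.tw i k)) :
    ∃ (g : H) (x' y' : V') (i' : K'.I), S.ι i' = i ∧ g • S.f x' = x ∧ g • S.f y' = y ∧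
      (Cn2 x' y' (K'.tb i' 1) (K'.tw i' 1) ∨ Cn2 y' x' (K'.tb i' 1) (K'.tw i' 1)) := by
  obtain ⟨i', rfl⟩ := hi
  obtain ⟨g, hg⟩ := S.tb_f i'
  obtain ⟨e1, e2⟩ := hg 1
  rw [map_one, one_mul] at e1 e2
  have hi : Function.Injective (fun z : V' => (k * g⁻¹) • S.f z) :=
    fun a b e => S.f_inj (smul_left_cancel _ e)
  have t1 : K.tb (S.ι i') k = (k * g⁻¹) • S.f (K'.tb i' 1) := by
    rw [e1, ← K.tb_mul, inv_mul_cancel_right]
  have t2 : K.tw (S.ι i') k = (K'.tw i' 1).map (fun z => (k * g⁻¹) • S.f z) := by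
    rw [← inv_mul_cancel_right k g, K.tw_mul, ← e2, List.map_map, inv_mul_cancel_right]
    rfl
  have key : ∀ a b : V, Cn2 a b (K.tb (S.ι i') k) (K.tw (S.ι i') k) →
      ∃ a' b' : V', (k * g⁻¹) • S.f a' = a ∧ (k * g⁻¹) • S.f b' = b ∧
        Cn2 a' b' (K'.tb i' 1) (K'.tw i' 1) := by
    intro a b hab
    rw [t1, t2] at hab
    have hm := hab.mem
    obtain ⟨a', rfl⟩ : ∃ a', (k * g⁻¹) • S.f a' = a := by
      rcases hm.1 with h1 | h1
      · exact ⟨_, h1.symm⟩
      · obtain ⟨z, _, hz⟩ := List.mem_map.1 h1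
        exact ⟨z, hz⟩
    obtain ⟨b', rfl⟩ : ∃ b', (k * g⁻¹) • S.f b' = b := by
      obtain ⟨z, _, hz⟩ := List.mem_map.1 hm.2
      exact ⟨z, hz⟩
    exact ⟨a', b', rfl, rfl, Cn2.of_map (f := fun z : V' => (k * g⁻¹) • S.f z) hi hab⟩
  rcases h with h | h
  · obtain ⟨a, b, h1, h2, h3⟩ := key _ _ h
    exact ⟨_, a, b, i', rfl, h1, h2, Or.inl h3⟩
  · obtain ⟨a, b, h1, h2, h3⟩ := key _ _ h
    exact ⟨_, b, a, i', rfl, h2, h1, Or.inr h3⟩

/-- if all long cells belong to the part then every edge of a long cell comes from the part -/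
theorem EL_back (S : SubGX K' K) (h5 : ∀ i : K.I, 4 < (K.cw i).length → ∃ i', S.ι i' = i) {x y : V}
    (h : K.EL x y) : ∃ (g : H) (x' y' : V'), g • S.f x' = x ∧ g • S.f y' = y ∧ K'.EL x' y' := by
  obtain ⟨i, k, hl, h⟩ := h
  obtain ⟨g, x', y', i', rfl, h1, h2, h3⟩ := S.cell_back (h5 i hl) h
  exact ⟨g, x', y', h1, h2, i', 1, by rwa [S.cw_length], h3⟩

theorem nVl_le (S : SubGX K' K) (h5 : ∀ i : K.I, 4 < (K.cw i).length → ∃ i', S.ι i' = i) :
    K.nVl ≤ oc H' {v | v ∈ K'.sVl ∧ K.Snk (S.f v)} := by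
  refine oc_le_of_surj (K'.fo _) S.f ?_ ?_
  · rintro v ⟨h1, h4, y, h2⟩
    obtain ⟨g, x', y', rfl, rfl, h3⟩ := S.EL_back h5 h2
    rw [GX.Snk_smul_iff] at h1
    rw [GX.fin_smul_iff] at h4
    exact ⟨x', ⟨⟨S.snk h1, S.fin_of h4, y', h3⟩, h1⟩, g, rfl⟩
  · rintro a _ b _ ⟨h, rfl⟩
    exact ⟨S.φ h, (S.f_smul _ _).symm⟩

/-- a component of the link of a light vertex with out-arrows which has a long corner and no pole
becomes a new finite sink of the part -/
theorem pole_of_long (S : SubGX K' K)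
    (h5 : ∀ i : K.I, 4 < (K.cw i).length → ∃ i', S.ι i' = i) (hLC : ∀ v, K'.LC v)
    (hVs : K'.nVl ≤ K.nVl) {v a : V} (hv : ¬ K.Snk v) (hf : Finite ↥(stabilizer H v))
    (ha : K.EL v a) : ∃ p, K.ar v p ∧ K.LJ v a p := by
  by_contra hcon
  push Not at hcon
  obtain ⟨g, v', a', rfl, rfl, h3⟩ := S.EL_back h5 ha
  rw [GX.Snk_smul_iff] at hv
  rw [GX.fin_smul_iff] at hf
  have hs : K'.Snk v' := by
    intro p hp
    have h4 := (S.LJ_map (hLC v' a' p h3.ec.E (Or.inl hp))).smul g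
    exact hcon (g • S.f p) (K.ar_smul g _ _ ((S.ar_iff _ _).1 hp)) h4
  have hlt : oc H' {v | v ∈ K'.sVl ∧ K.Snk (S.f v)} < K'.nVl := by
    refine oc_lt_of_inj (K'.fo _) (fun x => x) (fun x hx => hx.1) (fun x _ y _ h => h)
      (b0 := v') ⟨hs, S.fin_of hf, a', h3⟩ ?_
    rintro x ⟨_, hx⟩ h rfl
    apply hv
    rw [S.f_smul]
    exact hx.smul _
  have := S.nVl_le h5
  omega

/-- T0+: all links without their isolated nodes are connected, and the out-arrows of the vertices in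
cells are in cells -/
theorem clc (S : SubGX K' K)
    (h5 : ∀ i : K.I, 4 < (K.cw i).length → ∃ i', S.ι i' = i) (hLC : ∀ v, K'.LC v)
    (hVs : K'.nVl ≤ K.nVl)
    (hpq : ∀ v a b c, Finite ↥(stabilizer H v) → K.ar v a → K.ar v b → K.Cor a v c → K.LJ v a b)
    (hsq : ∀ v a, ¬ K.Snk v → Finite ↥(stabilizer H v) → K.EC v a →
      ∃ b, K.LJ v a b ∧ (K.ar v b ∨ K.EL v b))
    (hL1 : ∀ v, K.Snk v → K.CLC v) (hL2 : ∀ v, ¬ K.Snk v → Infinite ↥(stabilizer H v) → K.LC v) :
    (∀ v, K.CLC v) ∧ ∀ v b, K.VC v → K.ar v b → K.EC v b := by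
  -- every node with a corner is joined to a pole with a corner
  have key : ∀ v, ¬ K.Snk v → Finite ↥(stabilizer H v) → ∀ a, K.EC v a →
      ∃ p c, K.ar v p ∧ K.LJ v a p ∧ K.Cor p v c := by
    intro v hv hf a ha
    have h1 : ∃ p, K.ar v p ∧ K.LJ v a p := by
      obtain ⟨b, hb, h | h⟩ := hsq v a hv hf ha
      · exact ⟨b, h, hb⟩
      · obtain ⟨p, hp, hbp⟩ := S.pole_of_long h5 hLC hVs hv hf h
        exact ⟨p, hp, hb.trans _ _ _ hbp⟩
    obtain ⟨p, hp, hap⟩ := h1
    by_cases e : p = a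
    · subst e
      obtain ⟨c, hc⟩ := ha.cor
      exact ⟨p, c, hp, hap, hc⟩
    · obtain ⟨c, -, hc⟩ := GX.LJ.corner (Relation.EqvGen.symm _ _ hap) e
      exact ⟨p, c, hp, hap, hc⟩
  have fin : ∀ v : V, Finite ↥(stabilizer H v) ∨ Infinite ↥(stabilizer H v) := fun v =>
    finite_or_infinite _
  constructor
  · intro v
    by_cases hv : K.Snk v
    · exact hL1 v hv
    rcases fin v with hf | hf
    swap
    · exact (hL2 v hv hf).clc
    intro a b ha hb
    obtain ⟨p, c, hp, hap, hc⟩ := key v hv hf a ha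
    obtain ⟨q, d, hq, hbq, -⟩ := key v hv hf b hb
    exact (hap.trans _ _ _ (hpq v p q c hf hp hq hc)).trans _ _ _ (Relation.EqvGen.symm _ _ hbq)
  · rintro v b ⟨y, hy⟩ hb
    have hv : ¬ K.Snk v := fun h => h b hb
    have h1 : ∃ p c, K.LJ v p b ∧ K.Cor p v c := by
      rcases fin v with hf | hf
      · obtain ⟨p, c, hp, -, hc⟩ := key v hv hf y hy
        exact ⟨p, c, hpq v p b c hf hp hb hc, hc⟩
      · obtain ⟨c, hc⟩ := hy.cor
        exact ⟨y, c, hL2 v hv hf y b hy.E (Or.inl hb), hc⟩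
    obtain ⟨p, c, h2, hc⟩ := h1
    by_cases e : b = p
    · subst e
      exact (GX.EC_iff.2 ⟨c, hc⟩).symm
    · obtain ⟨d, -, hd⟩ := GX.LJ.corner (Relation.EqvGen.symm _ _ h2) e
      exact (GX.EC_iff.2 ⟨d, hd⟩).symm

end SubGX

/-! ### poles of softs in minimal complexes -/

section Pole

variable {H V : Type} [Group H] [MulAction H V] {K : GX H V}

/-- if a pole of a soft is in a corner then it is joined to the other pole -/
theorem pole_join (P : Pt K) (hm : K.Min) {v a b c : V} (ha : K.ar v a) (hb : K.ar v b)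
    (hc : K.Cor a v c) : K.LJ v a b := by
  by_cases hne : a = b
  · subst hne
    exact Relation.EqvGen.refl _
  by_contra hcon
  have two : ∀ x, K.ar v x → x = a ∨ x = b := fun x hx => GX.Sft.cases ha hb hne hx
  let D : PcD P :=
    { v := v
      a := a
      b := b
      R := {n | K.ar n v ∧ K.LJ v a n}
      va := ha
      vb := hb
      ab := hne
      R_ar := fun n hn => hn.1
      stab := by
        intro g hg n hn hgn
        have h1 := K.ar_smul g _ _ ha
        rw [hg] at h1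
        rcases two _ h1 with e | e
        · exact e
        · exfalso
          apply hcon
          have h2 := hn.2.smul g
          rw [hg, e] at h2
          exact hgn.2.trans _ _ _ h2.symm
      inv := by
        intro g hg hga n hn
        have h1 := K.ar_smul g _ _ hn.1
        have h2 := hn.2.smul g
        rw [hg] at h1 h2
        rw [hga] at h2
        exact ⟨h1, h2⟩
      cl := by
        intro d i hd h1 h0
        have h2 : K.Cor (d 0) v (d 2) := by
          rw [← h1]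
          exact P.cor_iff.2 ⟨_, _, At_pn hd⟩
        rcases h2.E2 with e | e
        · exact Or.inr e
        · exact Or.inl ⟨e, h0.2.trans _ _ _ (Relation.EqvGen.rel _ _ h2)⟩ }
  have hLc : K.LJ v a c := Relation.EqvGen.rel _ _ hc
  have hcb : c ≠ b := by
    rintro rfl
    exact hcon hLc
  have hE : K.ar c v := by
    obtain ⟨y, z, h⟩ := P.cor_iff.1 hc
    have hca : a ≠ c := by
      obtain ⟨d, i, hd, h0, -, h2, -⟩ := Pn_at h
      have := hd.ne2 hm 0
      have g : (0 : Fin 5) + 2 = 2 := rfl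
      rwa [g, h0, h2] at this
    rcases h.E2 with e | e
    · rcases two _ e with e | e
      · exact absurd e.symm hca
      · exact absurd e hcb
    · exact e
  have hR : c ∈ D.R := ⟨hE, hLc⟩
  have hpos : 0 < K.cr.cn D.ca := by
    rw [Cr.cn_pos]
    obtain ⟨p, g, ⟨h0, h1, h2⟩ | ⟨h0, h1, h2⟩⟩ := exists_pos P hc
    · refine ⟨p, g⁻¹, ?_, Or.inr ⟨?_, ?_⟩⟩
      · show _ = g⁻¹ • v
        rw [h1, inv_smul_smul]
      · show g⁻¹⁻¹ • _ ∈ D.R
        rw [inv_inv, ← h2]
        exact hR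
      · show _ = g⁻¹ • a
        rw [h0, inv_smul_smul]
    · refine ⟨p, g⁻¹, ?_, Or.inl ⟨?_, ?_⟩⟩
      · show _ = g⁻¹ • v
        rw [h1, inv_smul_smul]
      · show g⁻¹⁻¹ • _ ∈ D.R
        rw [inv_inv, ← h0]
        exact hR
      · show _ = g⁻¹ • a
        rw [h2, inv_smul_smul]
  rw [D.pq hm, Cr.cn_pos] at hpos
  obtain ⟨p, g, h1, ⟨h3, h2⟩ | ⟨h3, h2⟩⟩ := hpos
  · have h4 := cor_smul P g⁻¹ (cor_pos P p)
    have e1 : K.cr.v1 p = g • v := h1
    have e2 : K.cr.v2 p = g • b := h2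
    rw [e1, e2, inv_smul_smul, inv_smul_smul] at h4
    have h3 : g⁻¹ • K.cr.v0 p ∈ D.R := h3
    exact hcon (h3.2.trans _ _ _ (Relation.EqvGen.rel _ _ h4))
  · have h4 := cor_smul P g⁻¹ (cor_pos P p)
    have e1 : K.cr.v1 p = g • v := h1
    have e2 : K.cr.v0 p = g • b := h2
    rw [e1, e2, inv_smul_smul, inv_smul_smul] at h4
    have h3 : g⁻¹ • K.cr.v2 p ∈ D.R := h3
    exact hcon (h3.2.trans _ _ _ (Relation.EqvGen.rel _ _ h4.symm))

end Pole

end Pool.Agent.DI
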