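import Pool.Agent.DI.FCa
import Pool.Agent.DI.OcA

/-!
# Maps of complexes with flags, the merge law

`M : FM C C1`: an equivariant map `M.f` of the vertices and the kept flags `M.ph : F1 → F` (injective,
compatible with rotation and reflection). `FC.quo`: the flag complex of a quotient.
`Mer M`: no node is merged with a pole, the dropped flags are no pole strands, and the corners between
in-arrows stay in one piece. THE MERGE LAW: `Mer.strs : # strands` is constant, `Mer.pols_le`: the number of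
private poles does not grow, `Mer.exc_le : C.exc ≤ C1.exc`. `Mer.exc_eq`: in the equality case each private
pole of the quotient comes from one orbit of private poles; `Mer.one_part`, `Mer.self_part`.
-/

namespace Pool.Agent.DI

open MulAction
open Pool.Agent.SAF (InC orbs FinOrb oc mk_eq_iff FinOrb_iff)

/-- a map of complexes with flags -/
structure FM {H V F V1 F1 : Type} [Group H] [MulAction H V] [MulAction H F] [MulAction H V1]
    [MulAction H F1] {K : GX H V} {K1 : GX H V1} (C : FC K F) (C1 : FC K1 F1) where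
  f : V → V1
  ph : F1 → F
  f_smul : ∀ (h : H) (x : V), f (h • x) = h • f x
  ph_smul : ∀ (h : H) (g : F1), ph (h • g) = h • ph g
  inj : Function.Injective ph
  y_ph : ∀ g, f (C.y (ph g)) = C1.y g
  r_ph : ∀ g, C.r (ph g) = ph (C1.r g)
  v_ph : ∀ g, C.v (ph g) = ph (C1.v g)

namespace FM

variable {H V F V1 F1 : Type} [Group H] [MulAction H V] [MulAction H F] [MulAction H V1]
    [MulAction H F1] {K : GX H V} {K1 : GX H V1} {C : FC K F} {C1 : FC K1 F1} (M : FM C C1)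

theorem z_ph (g : F1) : M.f (C.z (M.ph g)) = C1.z g := by
  unfold FC.z
  rw [M.r_ph, M.y_ph]

theorem x_ph (g : F1) : M.f (C.x (M.ph g)) = C1.x g := by
  unfold FC.x
  rw [M.v_ph, M.r_ph, M.y_ph]

/-- the types of the kept flags, and the dropped flags -/
structure Mer : Prop where
  ty : ∀ g, K.ar (C.y (M.ph g)) (C.z (M.ph g)) → K1.ar (C1.y g) (C1.z g)
  ty' : ∀ g, K.ar (C.z (M.ph g)) (C.y (M.ph g)) → K1.ar (C1.z g) (C1.y g)
  ds : ∀ e ∈ C.strs, ∃ g, M.ph g = e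
  di : ∀ e ∈ C.fin2, (∀ g, M.ph g ≠ e) → C1.IJ (M.f (C.y e)) (M.f (C.x e)) (M.f (C.z e))

namespace Mer

variable {M} (R : M.Mer)
include R

theorem ar_z {g : F1} : K1.ar (C1.y g) (C1.z g) ↔ K.ar (C.y (M.ph g)) (C.z (M.ph g)) := by
  refine ⟨fun h => ?_, R.ty g⟩
  rcases C.Ez (M.ph g) with k | k
  · exact k
  · exact absurd (R.ty' g k) (FC.not_both h)

theorem ar_z' {g : F1} : K1.ar (C1.z g) (C1.y g) ↔ K.ar (C.z (M.ph g)) (C.y (M.ph g)) := by
  refine ⟨fun h => ?_, R.ty' g⟩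
  rcases C.Ez (M.ph g) with k | k
  · exact absurd (R.ty g k) (FC.not_both h)
  · exact k

theorem ar_x {g : F1} : K1.ar (C1.x g) (C1.y g) ↔ K.ar (C.x (M.ph g)) (C.y (M.ph g)) := by
  have h := R.ar_z' (g := C1.v g)
  rw [C1.zv, C1.yv, ← M.v_ph, C.zv, C.yv] at h
  exact h

theorem ar_x' {g : F1} : K1.ar (C1.y g) (C1.x g) ↔ K.ar (C.y (M.ph g)) (C.x (M.ph g)) := by
  have h := R.ar_z (g := C1.v g)
  rw [C1.zv, C1.yv, ← M.v_ph, C.zv, C.yv] at h
  exact h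

theorem mem_strs {g : F1} : g ∈ C1.strs ↔ M.ph g ∈ C.strs :=
  and_congr R.ar_x R.ar_z

theorem mem_fin2 {g : F1} : g ∈ C1.fin2 ↔ M.ph g ∈ C.fin2 :=
  and_congr R.ar_x R.ar_z'

/-- THE STRANDS ARE THE SAME -/
theorem strs : oc H C1.strs = oc H C.strs := by
  refine oc_bij (C1.fin_sub _) (C.fin_sub _) (fun h a ha => C1.strs_inv h a ha) M.ph
    (fun h a _ => M.ph_smul h a) (fun a ha => R.mem_strs.1 ha) ?_ (fun a _ b _ e => M.inj e)
  intro e he
  obtain ⟨g, rfl⟩ := R.ds e he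
  exact ⟨g, R.mem_strs.2 he, rfl⟩

/-- pieces go to pieces -/
theorem ic {y a b : V} (h : C.IC y a b) : C1.IJ (M.f y) (M.f a) (M.f b) := by
  obtain ⟨⟨e, rfl, rfl, rfl⟩, ha, hb⟩ := h
  by_cases hk : ∃ g, M.ph g = e
  · obtain ⟨g, rfl⟩ := hk
    rw [M.x_ph, M.y_ph, M.z_ph]
    exact Relation.EqvGen.rel _ _ ⟨FC.co g, R.ar_x.2 ha, R.ar_z'.2 hb⟩
  · push Not at hk
    exact R.di e ⟨ha, hb⟩ hk

theorem ij {y a b : V} (h : C.IJ y a b) : C1.IJ (M.f y) (M.f a) (M.f b) := by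
  induction h with
  | rel a b h => exact R.ic h
  | refl a => exact Relation.EqvGen.refl _
  | symm a b _ ih => exact ih.symm
  | trans a b c _ _ ih1 ih2 => exact ih1.trans _ _ _ ih2

end Mer

/-- a private pole of the quotient and a private pole over it -/
def PR (t1 : NF V1 F1) (t : NF V F) : Prop := ∃ y a n, t = NF.pol y a (C.Pc y n) ∧
  t1 = NF.pol (M.f y) (M.f a) (C1.Pc (M.f y) (M.f n))

namespace Mer

variable {M} (R : M.Mer)
include R

/-- the image of a private pole is determined up to the group -/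
theorem pr_eq {t1 t2 : NF V1 F1} {s1 s2 : NF V F} (h1 : M.PR t1 s1) (h2 : M.PR t2 s2)
    (h : ∃ g : H, g • s1 = s2) : ∃ g : H, g • t1 = t2 := by
  obtain ⟨g, e⟩ := h
  obtain ⟨y1, a1, n1, rfl, rfl⟩ := h1
  obtain ⟨y2, a2, n2, rfl, rfl⟩ := h2
  rw [NF.smul_pol, FC.Pc_smul] at e
  obtain ⟨e1, e2, e3⟩ := NF.pol.inj e
  refine ⟨g, ?_⟩
  rw [NF.smul_pol, FC.Pc_smul, ← M.f_smul, ← M.f_smul, ← M.f_smul, e1, e2]
  rw [e1] at e3
  rw [FC.Pc_eq.2 (R.ij (FC.Pc_eq.1 e3))]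

/-- every private pole of the quotient comes from one of the complex -/
theorem exists_pr {t1 : NF V1 F1} (h : t1 ∈ C1.pols) : ∃ t ∈ C.pols, M.PR t1 t := by
  obtain ⟨y, a, n, rfl, h1, h2, ⟨g, rfl, rfl, rfl⟩⟩ := h
  have k1 : K.ar (C.y (M.ph g)) (C.z (M.ph g)) := R.ar_z.1 h1
  have k2 : K.ar (C.x (M.ph g)) (C.y (M.ph g)) := R.ar_x.1 h2
  refine ⟨_, ⟨C.y (M.ph g), C.z (M.ph g), C.x (M.ph g), rfl, k1, k2, FC.co _⟩, ?_⟩
  refine ⟨C.y (M.ph g), C.z (M.ph g), C.x (M.ph g), rfl, ?_⟩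
  rw [M.x_ph, M.y_ph, M.z_ph]

/-- the image of a private pole is one -/
theorem pr_mem {t1 : NF V1 F1} {t : NF V F} (h : M.PR t1 t) (ht : t ∈ C.pols) : t1 ∈ C1.pols := by
  obtain ⟨y, a, n, rfl, rfl⟩ := h
  obtain ⟨y', a', n', e, h1, h2, ⟨e0, rfl, rfl, rfl⟩⟩ := ht
  obtain ⟨e1, e2, e3⟩ := NF.pol.inj e
  subst e1
  subst e2
  obtain ⟨g, rfl⟩ := R.ds e0 ⟨h2, h1⟩
  refine ⟨C1.y g, C1.z g, C1.x g, ?_, R.ar_z.2 h1, R.ar_x.2 h2, FC.co g⟩
  rw [M.y_ph, M.z_ph]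
  have h3 := R.ij (FC.Pc_eq.1 e3)
  rw [M.y_ph, M.x_ph] at h3
  rw [FC.Pc_eq.2 h3]

/-- THE NUMBER OF THE PRIVATE POLES DOES NOT GROW -/
theorem pols_le : oc H C1.pols ≤ oc H C.pols := by
  refine SAF.oc_le_of_rel C.fin_pols M.PR (fun a ha => R.exists_pr ha) ?_
  intro a _ b _ a' _ b' _ h1 h2 h
  exact R.pr_eq h1 h2 h

/-- THE MERGE LAW -/
theorem exc_le : C.exc ≤ C1.exc := by
  unfold FC.exc
  rw [R.strs]
  have := R.pols_le
  omega

/-- equality: each private pole comes from one orbit -/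
theorem pols_inj (he : oc H C.pols ≤ oc H C1.pols) {s1 s2 : NF V F} {t1 t2 : NF V1 F1}
    (h1 : s1 ∈ C.pols) (h2 : s2 ∈ C.pols) (k1 : M.PR t1 s1) (k2 : M.PR t2 s2)
    (h : ∃ g : H, g • t1 = t2) : ∃ g : H, g • s1 = s2 := by
  classical
  by_contra hne
  -- choose the preimages so that `s2` is missed
  have hex : ∀ t : NF V1 F1, ∃ s : NF V F, t ∈ C1.pols → (s ∈ C.pols ∧ M.PR t s ∧
      ∀ g : H, g • s ≠ s2) := by
    intro t
    by_cases ht : t ∈ C1.pols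
    · obtain ⟨s, hs, hr⟩ := R.exists_pr ht
      by_cases hm : ∃ g : H, g • s = s2
      · -- then `t` is in the orbit of `t1`
        obtain ⟨g, hg⟩ := R.pr_eq hr k2 hm
        obtain ⟨g', hg'⟩ := h
        refine ⟨(g⁻¹ * g') • s1, fun _ => ⟨C.pols_inv _ _ h1, ?_, ?_⟩⟩
        · obtain ⟨y, a, n, rfl, rfl⟩ := k1
          refine ⟨(g⁻¹ * g') • y, (g⁻¹ * g') • a, (g⁻¹ * g') • n, ?_, ?_⟩
          · rw [NF.smul_pol, FC.Pc_smul]
          · have e1 : t = (g⁻¹ * g') • NF.pol (M.f y) (M.f a) (C1.Pc (M.f y) (M.f n)) := by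
              rw [mul_smul, hg', ← hg, inv_smul_smul]
            rw [e1, NF.smul_pol, FC.Pc_smul, M.f_smul, M.f_smul, M.f_smul]
        · intro k hk
          exact hne ⟨k * (g⁻¹ * g'), by rw [mul_smul]; exact hk⟩
      · push Not at hm
        exact ⟨s, fun _ => ⟨hs, hr, hm⟩⟩
    · exact ⟨s1, fun k => absurd k ht⟩
  choose F hF using hex
  have := SAF.oc_lt_of_inj (H := H) (s := C1.pols) C.fin_pols F (fun a ha => (hF a ha).1)
    (fun a ha b hb e => R.pr_eq (hF a ha).2.1 (hF b hb).2.1 e) h2 (fun a ha g => (hF a ha).2.2 g)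
  omega

theorem pols_of_exc (he : C1.exc ≤ C.exc) : oc H C.pols ≤ oc H C1.pols := by
  unfold FC.exc at he
  rw [R.strs] at he
  omega

/-- (E3): a piece with a pole comes from one orbit of pieces with this pole -/
theorem one_part (he : C1.exc ≤ C.exc) {y1 a1 n1 y2 a2 n2 : V} (h1 : C.Co n1 y1 a1)
    (h1' : K.ar n1 y1) (h1a : K.ar y1 a1) (h2 : C.Co n2 y2 a2) (h2' : K.ar n2 y2) (h2a : K.ar y2 a2)
    {g : H} (ey : g • M.f y1 = M.f y2) (ea : g • M.f a1 = M.f a2)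
    (en : C1.IJ (M.f y2) (g • M.f n1) (M.f n2)) :
    ∃ k : H, k • y1 = y2 ∧ k • a1 = a2 ∧ C.IJ y2 (k • n1) n2 := by
  obtain ⟨k, hk⟩ := R.pols_inj (R.pols_of_exc he) (s1 := NF.pol y1 a1 (C.Pc y1 n1))
    (s2 := NF.pol y2 a2 (C.Pc y2 n2)) ⟨y1, a1, n1, rfl, h1a, h1', h1⟩
    ⟨y2, a2, n2, rfl, h2a, h2', h2⟩ ⟨y1, a1, n1, rfl, rfl⟩ ⟨y2, a2, n2, rfl, rfl⟩
    ⟨g, by rw [NF.smul_pol, FC.Pc_smul, ey, ea, FC.Pc_eq.2 en]⟩
  rw [NF.smul_pol, FC.Pc_smul] at hk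
  obtain ⟨e1, e2, e3⟩ := NF.pol.inj hk
  refine ⟨k, e1, e2, ?_⟩
  rw [e1] at e3
  exact FC.Pc_eq.1 e3

/-- (E3): a self piece comes from a self piece, if the part has both poles -/
theorem self_part (he : C1.exc ≤ C.exc) {y a b n m : V} (h1 : C.Co n y a) (h2 : C.Co m y b)
    (hnm : C.IJ y n m) (hn : K.ar n y) (ha : K.ar y a) (hb : K.ar y b)
    {g : H} (ey : g • M.f y = M.f y) (ea : g • M.f a = M.f b)
    (en : C1.IJ (M.f y) (g • M.f n) (M.f n)) :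
    ∃ k : H, k • y = y ∧ k • a = b ∧ C.IJ y (k • n) n := by
  obtain ⟨k, e1, e2, e3⟩ := R.one_part he h1 hn ha h2 ((FC.IJ.ar hnm).1 hn) hb ey ea
    (en.trans _ _ _ (R.ij hnm))
  exact ⟨k, e1, e2, e3.trans _ _ _ hnm.symm⟩

end Mer

end FM

/-! ### the flags of a quotient -/

namespace FC

variable {H V F V1 : Type} [Group H] [MulAction H V] [MulAction H F] [MulAction H V1]
    {K : GX H V} {K1 : GX H V1} (C : FC K F)

/-- the flag complex of a quotient: `D` = the kept flags -/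
def quo (K1 : GX H V1) (f : V → V1) (f_smul : ∀ (h : H) (x : V), f (h • x) = h • f x)
    (D : SubMulAction H F) (hr : ∀ e ∈ D, C.r e ∈ D) (hv : ∀ e ∈ D, C.v e ∈ D)
    (hE : ∀ e ∈ D, K1.E (f (C.y e)) (f (C.z e)))
    (hne : ∀ e ∈ D, C.sq e → f (C.y e) ≠ f (C.y (C.r (C.r e)))) : FC K1 ↥D where
  y e := f (C.y e.1)
  r e := ⟨C.r e.1, hr _ e.2⟩
  v e := ⟨C.v e.1, hv _ e.2⟩
  sq e := C.sq e.1
  y_smul h e := by
    show f (C.y (h • e.1)) = h • f (C.y e.1)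
    rw [C.y_smul, f_smul]
  r_smul h e := Subtype.ext (C.r_smul h e.1)
  v_smul h e := Subtype.ext (C.v_smul h e.1)
  sq_smul h e := C.sq_smul h e.1
  vv e := Subtype.ext (C.vv e.1)
  rv e := Subtype.ext (C.rv e.1)
  yv e := congrArg f (C.yv e.1)
  E e := hE e.1 e.2
  sq_r e := C.sq_r e.1
  sq_v e := C.sq_v e.1
  r4 e h := Subtype.ext (C.r4 e.1 h)
  r5 e h := Subtype.ext (C.r5 e.1 h)
  ne e h := hne e.1 e.2 h
  fin := by
    refine SAF.FinOrb.of_inj C.fin Subtype.val (fun _ _ => Set.mem_univ _) ?_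
    rintro a - b - ⟨h, e⟩
    exact ⟨h, Subtype.ext e⟩

/-- the quotient map -/
def quoM (K1 : GX H V1) (f : V → V1) (f_smul : ∀ (h : H) (x : V), f (h • x) = h • f x)
    (D : SubMulAction H F) (hr : ∀ e ∈ D, C.r e ∈ D) (hv : ∀ e ∈ D, C.v e ∈ D)
    (hE : ∀ e ∈ D, K1.E (f (C.y e)) (f (C.z e)))
    (hne : ∀ e ∈ D, C.sq e → f (C.y e) ≠ f (C.y (C.r (C.r e)))) :
    FM C (C.quo K1 f f_smul D hr hv hE hne) where
  f := f
  ph := Subtype.val
  f_smul := f_smul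
  ph_smul _ _ := rfl
  inj := Subtype.val_injective
  y_ph _ := rfl
  r_ph _ := rfl
  v_ph _ := rfl

end FC

end Pool.Agent.DI
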