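import Pool.Agent.DI.Thin
import Pool.Agent.DI.Xt0
import Pool.Agent.DI.FCq
import Pool.Agent.DI.CutL

/-!
# DI/Thin2: tops, plain strands, flags and numbers of the thinned complex

Everything in terms of corners, of 4-walks and of pentagons is the same for `P.thin` and `K`:
`thin_Top`, `thin_TA`, `thin_TG`, `thin_TD`, `thin_U`, `thin_Dm`, `thin_X`, `thin_sX`, `thin_sXG`,
`thin_sm`, `thin_smG`, `thin_sigma`, `thin_ND`, `thin_EC`, `thin_CLC`, `thin_EL`, the numbers of
`Pot0`. `thin_SqE`: the static class of the squares.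
`thinM : FM (P.fc nd) (P.thinP.fc _)`: the map of the flag complexes. `P.NoPl`: no two parallel
listed squares.
-/

namespace Pool.Agent.DI

open MulAction
open Pool.Agent.SAF (InC orbs FinOrb oc mk_eq_iff FinOrb_iff)

/-- the number of orbits of an image under an injective equivariant map; no finiteness -/
theorem oc_img {G Y Y' : Type} [Group G] [MulAction G Y] [MulAction G Y'] (f : Y → Y')
    (hf : ∀ (g : G) (a : Y), f (g • a) = g • f a) (hi : Function.Injective f) {s : Set Y}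
    {s' : Set Y'} (h : f '' s = s') : oc G s' = oc G s := by
  let F : orbitRel.Quotient G Y → orbitRel.Quotient G Y' := Quotient.map' f (by
    rintro a b ⟨g, hg⟩
    have hg : g • b = a := hg
    exact ⟨g, by show g • f b = f a; rw [← hf, hg]⟩)
  have hF : Function.Injective F := by
    intro a b
    induction a using Quotient.inductionOn'
    induction b using Quotient.inductionOn'
    rename_i a b
    intro e
    have e : (Quotient.mk'' (f a) : orbitRel.Quotient G Y') = Quotient.mk'' (f b) := e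
    obtain ⟨g, hg⟩ := mk_eq_iff.1 e
    refine mk_eq_iff.2 ⟨g, hi ?_⟩
    rw [hf, hg]
  have h2 : orbs G s' = F '' orbs G s := by
    rw [← h]
    ext q
    constructor
    · rintro ⟨_, ⟨a, ha, rfl⟩, rfl⟩
      exact ⟨Quotient.mk'' a, ⟨a, ha, rfl⟩, rfl⟩
    · rintro ⟨_, ⟨a, ha, rfl⟩, rfl⟩
      exact ⟨f a, ⟨a, ha, rfl⟩, rfl⟩
  unfold SAF.oc
  rw [h2]
  exact Set.ncard_image_of_injective _ hF

variable {H V : Type} [Group H] [MulAction H V] {K : GX H V}

namespace P45

variable (P : P45 K)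

/-! ### tops -/

theorem thin_Top {T a b y : V} : P.thinP.Top T a b y ↔ P.Top T a b y :=
  and_congr P.thin_Q4 Iff.rfl

theorem thin_tp (i : P.thin.I) (j : Fin 4) : P.thinP.tp i j ↔ P.tp i.1 j := Iff.rfl

theorem thin_gam {T : V} : P.thinP.gam T ↔ P.gam T := by
  unfold gam
  simp only [P.thin_Top]
  rfl

theorem thin_TA : P.thinP.TA = P.TA := by
  ext p
  exact exists_congr fun b => exists_congr fun y => P.thin_Top

theorem thin_TG : P.thinP.TG = P.TG := by
  unfold TG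
  rw [P.thin_TA]
  ext p
  exact and_congr Iff.rfl P.thin_gam

theorem thin_TD : P.thinP.TD = P.TD := by
  unfold TD
  rw [P.thin_TA]
  ext p
  exact and_congr Iff.rfl (not_congr P.thin_gam)

theorem thin_U : P.thinP.U = P.U := by
  ext p
  exact exists_congr fun b => exists_congr fun y => and_congr P.thin_Top Iff.rfl

theorem thin_Dm : P.thinP.Dm = P.Dm := by
  ext p
  exact exists_congr fun b => exists_congr fun y => and_congr P.thin_Top Iff.rfl

/-! ### flags -/

/-- the position as a position of `K` -/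
def tE (e : P.thin.LE) : K.LE := (⟨e.1.1.1, e.1.2⟩, e.2)

theorem tE_inj {e e' : P.thin.LE} (h : P.tE e = P.tE e') : e = e' := by
  obtain ⟨⟨i, j⟩, g⟩ := e
  obtain ⟨⟨i', j'⟩, g'⟩ := e'
  have h1 : (⟨i.1, j⟩ : K.Pos) = ⟨i'.1, j'⟩ := congrArg Prod.fst h
  have h2 : g = g' := congrArg Prod.snd h
  subst h2
  have h3 : i = i' := Subtype.ext (congrArg Sigma.fst h1)
  subst h3
  have h4 := eq_of_heq (Sigma.mk.inj h1).2
  rw [h4]

theorem tE_c0 (e : P.thin.LE) : K.c0 (P.tE e) = P.thin.c0 e := rfl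

theorem tE_c1 (e : P.thin.LE) : K.c1 (P.tE e) = P.thin.c1 e := rfl

theorem tE_c2 (e : P.thin.LE) : K.c2 (P.tE e) = P.thin.c2 e := rfl

/-- the flag as a flag of `K` -/
def tF (f : FL P.thin) : FL K := (P.tE f.1, f.2)

theorem tF_inj {f f' : FL P.thin} (h : P.tF f = P.tF f') : f = f' :=
  Prod.ext (P.tE_inj (congrArg (fun z : FL K => z.1) h)) (congrArg (fun z : FL K => z.2) h)

theorem tF_smul (h : H) (f : FL P.thin) : P.tF (h • f) = h • P.tF f := rfl

theorem tF_fy (f : FL P.thin) : P45.fy (P.tF f) = P45.fy f := rfl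

theorem tF_fz (f : FL P.thin) : P45.fz (P.tF f) = P45.fz f := rfl

theorem tF_RP (f : FL P.thin) : P.tF f ∈ P.RP ↔ f ∈ P.thinP.RP := Iff.rfl

theorem tF_surj (f : FL K) (hf : P.rp f.1.1.1 = f.1.1.1) : ∃ g, P.tF g = f :=
  ⟨((⟨⟨f.1.1.1, hf⟩, f.1.1.2⟩, f.1.2), f.2), rfl⟩

theorem thin_ZP : P.thinP.ZP = P.ZP := by
  ext p
  exact and_congr P.thin_Q4 Iff.rfl

theorem thin_ND (nd : P.ND) : P.thinP.ND := fun i h => nd i.1 h

theorem tF_injv : Function.Injective P.tF := fun _ _ h => P.tF_inj h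

/-- the flags of the pentagons -/
theorem tF_img (C : V × V → Prop) :
    P.tF '' {f : FL P.thin | f ∈ P.thinP.RP ∧ C (P45.fy f, P45.fz f)} =
      {f : FL K | f ∈ P.RP ∧ C (P45.fy f, P45.fz f)} := by
  ext f
  constructor
  · rintro ⟨g, hg, rfl⟩
    exact hg
  · rintro ⟨h1, h2⟩
    obtain ⟨g, rfl⟩ := P.tF_surj f (P.rp_not h1.1)
    exact ⟨g, ⟨h1, h2⟩, rfl⟩

/-! ### plain strands -/

theorem thin_X (T a : V) : P.thinP.X T a = P.X T a := by
  unfold X
  rw [P.thin_ZP]
  congr 1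
  exact (oc_img (G := ↥(stabilizer H (T, a))) P.tF (fun g f => P.tF_smul g.1 f) (P.tF_injv)
    (P.tF_img (fun p => p = (T, a)))).symm

theorem thin_sX (A : Set (V × V)) : P.thinP.sX A = P.sX A := by
  unfold sX
  rw [P.thin_ZP]
  congr 1
  exact (oc_img P.tF P.tF_smul (P.tF_injv) (P.tF_img (fun p => p ∈ A))).symm

theorem thin_sXG (G : Subgroup H) (A : Set (V × V)) : P.thinP.sXG G A = P.sXG G A := by
  unfold sXG
  rw [P.thin_ZP]
  congr 1
  exact (oc_img (G := ↥G) P.tF (fun g f => P.tF_smul g.1 f) (P.tF_injv)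
    (P.tF_img (fun p => p ∈ A))).symm

theorem thin_sm (A : Set (V × V)) : P.thinP.sm A = P.sm A := by
  unfold sm
  rw [P.thin_sX]

theorem thin_smG (G : Subgroup H) (A : Set (V × V)) : P.thinP.smG G A = P.smG G A := by
  unfold smG
  rw [P.thin_sXG]

/-- SIGMA DOES NOT CHANGE -/
theorem thin_sigma : P.thinP.sigma = P.sigma := by
  unfold sigma
  simp only [P.thin_sm, P.thin_U, P.thin_Dm]

/-! ### the static class -/

/-- two listed squares with the same top (up to translation) and the same partner are parallel -/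
theorem pl_of_top {i i' : K.I} (hi : P.sq i) (hi' : P.sq i') {j j' : Fin 4} (ht : P.tp i j)
    (ht' : P.tp i' j') (hne : P.qt i (j + 1) ≠ P.qt i (j + 3))
    (hne' : P.qt i' (j' + 1) ≠ P.qt i' (j' + 3)) (h : H) (e : h • P.qt i j = P.qt i' j')
    (e2 : h • P.qt i (j + 2) = P.qt i' (j' + 2)) : P.Pl i i' := by
  have a1 : K.ar (P.qt i' j') (h • P.qt i (j + 1)) := by
    rw [← e]
    exact K.ar_smul h _ _ ht.1
  have a3 : K.ar (P.qt i' j') (h • P.qt i (j + 3)) := by
    rw [← e]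
    exact K.ar_smul h _ _ ht.2
  have hne2 : h • P.qt i (j + 1) ≠ h • P.qt i (j + 3) := fun k => hne (smul_left_cancel h k)
  have key : (h • P.qt i (j + 1) = P.qt i' (j' + 1) ∧ h • P.qt i (j + 3) = P.qt i' (j' + 3)) ∨
      (h • P.qt i (j + 1) = P.qt i' (j' + 3) ∧ h • P.qt i (j + 3) = P.qt i' (j' + 1)) := by
    rcases K.two _ _ _ _ a1 ht'.1 ht'.2 with k | k | k
    · rcases K.two _ _ _ _ a3 ht'.1 ht'.2 with k' | k' | k'
      · exact absurd (k.trans k'.symm) hne2
      · exact absurd k' hne'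
      · exact Or.inl ⟨k, k'⟩
    · exact absurd k hne'
    · rcases K.two _ _ _ _ a3 ht'.1 ht'.2 with k' | k' | k'
      · exact Or.inr ⟨k, k'⟩
      · exact absurd k' hne'
      · exact absurd (k.trans k'.symm) hne2
  refine ⟨hi, hi', h, ?_⟩
  rcases key with ⟨k1, k3⟩ | ⟨k1, k3⟩
  · refine ⟨j' - j, Or.inl fun m => ?_⟩
    have c : ∀ j j' m : Fin 4, (m = j ∧ m + (j' - j) = j') ∨ (m = j + 1 ∧ m + (j' - j) = j' + 1) ∨
        (m = j + 2 ∧ m + (j' - j) = j' + 2) ∨ (m = j + 3 ∧ m + (j' - j) = j' + 3) := by decide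
    rcases c j j' m with ⟨c1, c2⟩ | ⟨c1, c2⟩ | ⟨c1, c2⟩ | ⟨c1, c2⟩
    · rw [c2, c1, e]
    · rw [c2, c1, k1]
    · rw [c2, c1, e2]
    · rw [c2, c1, k3]
  · refine ⟨j' + j, Or.inr fun m => ?_⟩
    have c : ∀ j j' m : Fin 4, (m = j ∧ j' + j - m = j') ∨ (m = j + 1 ∧ j' + j - m = j' + 3) ∨
        (m = j + 2 ∧ j' + j - m = j' + 2) ∨ (m = j + 3 ∧ j' + j - m = j' + 1) := by decide
    rcases c j j' m with ⟨c1, c2⟩ | ⟨c1, c2⟩ | ⟨c1, c2⟩ | ⟨c1, c2⟩
    · rw [c2, c1, e]
    · rw [c2, c1, k1]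
    · rw [c2, c1, e2]
    · rw [c2, c1, k3]

/-- the square of a top place, in the form of `Top` -/
theorem tp_Top {i : K.I} (hi : P.sq i) {j : Fin 4} (ht : P.tp i j) :
    P.Top (P.qt i j) (P.qt i (j + 1)) (P.qt i (j + 3)) (P.qt i (j + 2)) := by
  refine ⟨?_, ht.1, ht.2⟩
  have h := (Q4_qt (P := P) 1 hi (j + 3)).symm
  simp only [one_smul] at h
  have e1 : j + 3 + 1 = j := by
    have : ∀ j : Fin 4, j + 3 + 1 = j := by decide
    exact this j
  have e2 : j + 3 + 2 = j + 1 := by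
    have : ∀ j : Fin 4, j + 3 + 2 = j + 1 := by decide
    exact this j
  have e3 : j + 3 + 3 = j + 2 := by
    have : ∀ j : Fin 4, j + 3 + 3 = j + 2 := by decide
    exact this j
  rw [e1, e2, e3] at h
  exact h

/-- THE STATIC CLASS OF THE THINNED COMPLEX -/
theorem thin_SqE {E : V → Prop} (top : ∀ i, P.sq i → ∃ j, P.tp i j)
    (par : ∀ T a b y a' b' y', P.Top T a b y → P.Top T a' b' y' → y = y')
    (side : ∀ T a b y, P.Top T a b y → E T ∨ K.ar a y ∨ K.ar b y)
    (Ey : ∀ T a b y, P.Top T a b y → E T → E y) (Ea : ∀ T a b y, P.Top T a b y → E T → K.ar y a)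
    (Es : ∀ (h : H) (v : V), E v → E (h • v)) (nab : ∀ T a b y, P.Top T a b y → a ≠ b)
    (nTy : ∀ T a b y, P.Top T a b y → T ≠ y) : P.thinP.SqE E where
  top i hi := top i.1 hi
  one := by
    intro i i' hi hi' j j' ht ht' h e
    have t1 := P.tp_Top hi ht
    have t2 := P.tp_Top hi' ht'
    apply P.thin_one
    have e' : h • P.qt i.1 j = P.qt i'.1 j' := e
    have e2 : h • P.qt i.1 (j + 2) = P.qt i'.1 (j' + 2) := by
      have t3 := t1.smul h
      rw [e'] at t3
      exact par _ _ _ _ _ _ _ t3 t2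
    obtain ⟨-, -, g, k, s⟩ := P.pl_of_top hi hi' ht ht' (nab _ _ _ _ t1) (nab _ _ _ _ t2) h e' e2
    exact ⟨hi, hi', g, k, s⟩
  par T a b y a' b' y' h h' := Or.inr (par T a b y a' b' y' (P.thin_Top.1 h) (P.thin_Top.1 h'))
  side T a b y ht := side T a b y (P.thin_Top.1 ht)
  Ey T a b y ht := Ey T a b y (P.thin_Top.1 ht)
  Ea T a b y ht := Ea T a b y (P.thin_Top.1 ht)
  Es := Es
  nab T a b y ht := nab T a b y (P.thin_Top.1 ht)
  nTy T a b y ht := nTy T a b y (P.thin_Top.1 ht)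

/-- the fields on strands -/
theorem thin_x1 (h : ∀ p ∈ P.TA, 1 ≤ P.X p.1 p.2) : ∀ p ∈ P.thinP.TA, 1 ≤ P.thinP.X p.1 p.2 := by
  intro p hp
  rw [P.thin_TA] at hp
  rw [P.thin_X]
  exact h p hp

/-- the raw class goes to the thinned complex -/
theorem thin_Cls (h : P.Cls) : P.thinP.Cls where
  toSqE := P.thin_SqE h.top (fun _ _ _ _ _ _ _ k k' => (h.par _ _ _ _ _ _ _ k k').resolve_left id)
    h.side h.Ey h.Ea h.Es h.nab h.nTy
  x1 := P.thin_x1 h.x1

/-- the static class goes to the thinned complex -/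
theorem thin_SqE' {E : V → Prop} (h : P.SqE E) : P.thinP.SqE E where
  top i hi := h.top i.1 hi
  one i i' hi hi' j j' ht ht' g e := Subtype.ext (h.one i.1 i'.1 hi hi' j j' ht ht' g e)
  par T a b y a' b' y' k k' := h.par T a b y a' b' y' (P.thin_Top.1 k) (P.thin_Top.1 k')
  side T a b y ht := h.side T a b y (P.thin_Top.1 ht)
  Ey T a b y ht := h.Ey T a b y (P.thin_Top.1 ht)
  Ea T a b y ht := h.Ea T a b y (P.thin_Top.1 ht)
  Es := h.Es
  nab T a b y ht := h.nab T a b y (P.thin_Top.1 ht)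
  nTy T a b y ht := h.nTy T a b y (P.thin_Top.1 ht)

/-! ### the map of the flag complexes -/

/-- THE MAP OF THE FLAG COMPLEXES -/
noncomputable def thinM (nd : P.ND) : FM (P.fc nd) (P.thinP.fc (P.thin_ND nd)) where
  f := fun x => x
  ph := P.tF
  f_smul _ _ := rfl
  ph_smul := P.tF_smul
  inj _ _ h := P.tF_inj h
  y_ph _ := rfl
  r_ph f := by
    obtain ⟨e, b⟩ := f
    cases b <;> rfl
  v_ph _ := rfl

/-- the kept flags -/
theorem thinM_ph (nd : P.ND) (f : FL K) :
    (∃ g, (P.thinM nd).ph g = f) ↔ P.rp f.1.1.1 = f.1.1.1 := by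
  constructor
  · rintro ⟨g, rfl⟩
    exact g.1.1.1.2
  · exact P.tF_surj f

/-! ### cells at edges, the numbers -/

theorem thin_EC {x y : V} : P.thin.EC x y ↔ K.EC x y := by
  rw [GX.EC_iff, GX.EC_iff]
  exact exists_congr fun b => P.thin_Cor

theorem thin_VC {x : V} : P.thin.VC x ↔ K.VC x := exists_congr fun _ => P.thin_EC

theorem thin_LJ {v a b : V} : P.thin.LJ v a b ↔ K.LJ v a b := by
  unfold GX.LJ
  simp only [P.thin_Cor]

theorem thin_CLC {v : V} : P.thin.CLC v ↔ K.CLC v := by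
  unfold GX.CLC
  simp only [P.thin_EC, P.thin_LJ]

theorem thin_EL {x y : V} : P.thin.EL x y ↔ K.EL x y := by
  constructor
  · rintro ⟨i, h, h1, h2⟩
    exact ⟨i.1, h, h1, h2⟩
  · rintro ⟨i, h, h1, h2⟩
    have hi : ¬ P.sq i := by
      intro hs
      rw [P.cw4 i hs] at h1
      simp at h1
    exact ⟨⟨i, P.rp_not hi⟩, h, h1, h2⟩

theorem thin_Snk {v : V} : P.thin.Snk v ↔ K.Snk v := Iff.rfl

theorem thin_Sft {v : V} : P.thin.Sft v ↔ K.Sft v := Iff.rfl

theorem thin_Spc {v : V} : P.thin.Spc v ↔ K.Spc v := Iff.rfl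

theorem thin_nAr : P.thin.nAr = K.nAr := rfl

theorem thin_nE : P.thin.nE = K.nE := rfl

theorem thin_nU : P.thin.nU = K.nU := rfl

theorem thin_nW : P.thin.nW = K.nW := rfl

theorem thin_nV : P.thin.nV = K.nV := rfl

theorem thin_nV0 : P.thin.nV0 = K.nV0 := rfl

theorem thin_nVZ : P.thin.nVZ = K.nVZ := rfl

theorem thin_nVD : P.thin.nVD = K.nVD := rfl

theorem thin_nVs : P.thin.nVs = K.nVs := by
  unfold GX.nVs GX.sVs
  simp only [P.thin_VC]
  rfl

theorem thin_nVc : P.thin.nVc = K.nVc := by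
  unfold GX.nVc GX.sVc
  simp only [P.thin_VC]
  rfl

theorem thin_nHv : P.thin.nHv = K.nHv := by
  unfold GX.nHv GX.sHv
  simp only [P.thin_EC]
  rfl

theorem thin_nVl : P.thin.nVl = K.nVl := by
  unfold GX.nVl GX.sVl
  simp only [P.thin_EL]
  rfl

/-! ### no parallel squares -/

/-- no two parallel listed squares -/
def NoPl : Prop := ∀ i i', P.Pl i i' → i = i'

theorem NoPl.rp {P : P45 K} (h : P.NoPl) (i : K.I) : P.rp i = i := by
  rcases P.rp_rel i with e | e
  · exact e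
  · exact h _ _ e

theorem thin_NoPl : P.thinP.NoPl := fun _ _ h => P.thin_one h

/-- a complex in the static class has no parallel squares -/
theorem SqE.noPl {P : P45 K} {E : V → Prop} (h : P.SqE E) : P.NoPl := by
  rintro i i' ⟨h1, h2, g, k, e⟩
  obtain ⟨j, hj⟩ := h.top i h1
  rcases e with e | e
  · refine h.one i i' h1 h2 j (j + k) hj ?_ g (e j)
    have a1 := K.ar_smul g _ _ hj.1
    have a3 := K.ar_smul g _ _ hj.2
    rw [e, e] at a1 a3
    rw [show j + 1 + k = j + k + 1 by abel] at a1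
    rw [show j + 3 + k = j + k + 3 by abel] at a3
    exact ⟨a1, a3⟩
  · refine h.one i i' h1 h2 j (k - j) hj ?_ g (e j)
    have a1 := K.ar_smul g _ _ hj.1
    have a3 := K.ar_smul g _ _ hj.2
    rw [e, e] at a1 a3
    have c1 : ∀ j k : Fin 4, k - (j + 1) = k - j + 3 := by decide
    have c3 : ∀ j k : Fin 4, k - (j + 3) = k - j + 1 := by decide
    rw [c1] at a1
    rw [c3] at a3
    exact ⟨a3, a1⟩

end P45

end Pool.Agent.DI
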