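import Pool.Agent.DI.ClsK
import Pool.Agent.DI.Thin2

/-!
# The static class of the squares of the thinned folded slice
-/

namespace Pool.Agent.DI

open MulAction
open Pool.Agent.SAF (InC orbs FinOrb oc Decomp SAn SA Conv hull dist_edge FinOrb_iff exists_next)

namespace SyQ

variable {H V : Type} [Group H] [MulAction H V] {S : SyQ H V}
variable {hc : S.Conn} {w : S.X} {O : S.OR w} {hm : (S.k0 hc w).Min} {hn : S.SqN w O}

/-- THE STATIC CLASS OF THE THINNED FOLDED SLICE -/
theorem kf_thin_SqT (hO : O.Nf) (hK : S.KIn w) : (S.kfP hc w O hm hn).thinP.SqT :=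
  (S.kfP hc w O hm hn).thin_SqE (kf_top hO hK) (fun _ _ _ _ _ _ _ h h' => kf_par hO hK h h')
    (fun _ _ _ _ h => Or.inr (kf_side hO hK h)) (fun _ _ _ _ _ h => h.elim)
    (fun _ _ _ _ _ h => h.elim) (fun _ _ h => h.elim)
    (fun _ _ _ _ h => kf_nab h) (fun _ _ _ _ h => kf_nTy h)

/-- the static class of the folded slice itself, if no two listed squares are parallel -/
theorem kf_SqT (hO : O.Nf) (hK : S.KIn w) (hp : (S.kfP hc w O hm hn).NoPl) :
    (S.kfP hc w O hm hn).SqT where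
  top := kf_top hO hK
  one := by
    intro i i' hi hi' j j' ht ht' h e
    have t1 := P45.ck_tp hi ht
    have t2 := P45.ck_tp hi' ht'
    have e2 : h • (S.kfP hc w O hm hn).qt i (j + 2) = (S.kfP hc w O hm hn).qt i' (j' + 2) := by
      have t3 := t1.smul h
      rw [e] at t3
      exact kf_par hO hK t3 t2
    exact hp _ _ ((S.kfP hc w O hm hn).pl_of_top hi hi' ht ht' (kf_nab t1) (kf_nab t2) h e e2)
  par _ _ _ _ _ _ _ h h' := Or.inr (kf_par hO hK h h')
  side _ _ _ _ h := Or.inr (kf_side hO hK h)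
  Ey _ _ _ _ _ h := h.elim
  Ea _ _ _ _ _ h := h.elim
  Es _ _ h := h.elim
  nab _ _ _ _ h := kf_nab h
  nTy _ _ _ _ h := kf_nTy h

end SyQ

end Pool.Agent.DI
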