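import Pool.Agent.DI.TowX

/-!
# DI/Cor2p: the partner of a fat gamma top is special

`h : P.ToF D1 a b`, a gamma top: `a → y → b`. `h.lowB`: the fold adds the strands of the top to the arrow
of the partner to `b`. `h.uppB`: the strands of the partner at another pole `d` do not grow, if no element
exchanges `b` and `d`. `PmL.cor2p`: Corollary 2 (ii): if the partner `y` is not special, the top is thin.
`SqT.cor2px`, `SqT.cor2U`: the same for the plain strands; `cor2U_thin`: in a complex whose thinned complex is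
static; `kf_cor2p`: in the folded slice.
-/

namespace Pool.Agent.DI

open MulAction

variable {H V : Type} [Group H] [MulAction H V]

namespace P45

variable {K : GX H V} {P : P45 K}

/-- THE OWN SQUARE at the arrow of the partner to the bottom -/
theorem own_valB {T a b y : V} {i : K.I} (hC : P.Cl) (h : P.TopR T a b y) (ay : K.ar a y)
    (yb : K.ar y b) (h0 : P.own T i) :
    K.ccs i (fun x q z => lg H y b x q + lg H y b z q) = 1 := by
  obtain ⟨hi, g, j, hj, e⟩ := h0
  have ht := (tq_TopR hi hj).smul g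
  rw [e] at ht
  have ey : g • P.qt i (j + 2) = y := hC.par _ _ _ _ _ _ _ ht h
  have ra := K.ar_rk _ _ ay
  have rT := K.ar_rk _ _ h.1.2.1
  have rb := K.ar_rk _ _ h.1.2.2
  have rc := K.ar_rk _ _ yb
  have key : ∀ x q : V, lg H y b x q = lg H y b (g • x) (g • q) := fun x q => by
    classical
    unfold lg
    refine if_congr ?_ rfl rfl
    constructor
    · rintro ⟨k, rfl, rfl⟩
      exact ⟨g * k, by rw [mul_smul], by rw [mul_smul]⟩
    · rintro ⟨k, k1, k2⟩
      exact ⟨g⁻¹ * k, by rw [mul_smul, ← k1, inv_smul_smul], by rw [mul_smul, ← k2, inv_smul_smul]⟩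
  rw [P.ccs_at hi j]
  rw [key (P.qt i (j + 3)) (P.qt i j), key (P.qt i (j + 1)) (P.qt i j),
    key (P.qt i j) (P.qt i (j + 1)), key (P.qt i (j + 2)) (P.qt i (j + 1)),
    key (P.qt i (j + 1)) (P.qt i (j + 2)), key (P.qt i (j + 3)) (P.qt i (j + 2)),
    key (P.qt i (j + 2)) (P.qt i (j + 3)), key (P.qt i j) (P.qt i (j + 3))]
  rw [e, ey]
  have hab := hC.nab _ _ _ _ h
  have hp : (g • P.qt i (j + 1) = a ∧ g • P.qt i (j + 3) = b) ∨
      (g • P.qt i (j + 1) = b ∧ g • P.qt i (j + 3) = a) := by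
    have hab' := hC.nab _ _ _ _ ht
    rcases hC.sides h ht.1.2.1 with k1 | k1
    · rcases hC.sides h ht.1.2.2 with k2 | k2
      · exact absurd (k1.trans k2.symm) hab'
      · exact Or.inl ⟨k1, k2⟩
    · rcases hC.sides h ht.1.2.2 with k2 | k2
      · exact Or.inr ⟨k1, k2⟩
      · exact absurd (k1.trans k2.symm) hab'
  -- the values: only the bottom is a translate of `b`
  have nq : ∀ x q, K.rk b ≠ K.rk q → lg H y b x q = 0 := fun x q hr => lg_neg (by
    rintro ⟨k, -, e'⟩
    apply hr
    rw [e', K.rk_smul])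
  have nT : lg H y b T b = 0 := lg_neg (by
    rintro ⟨k, e', -⟩
    have := congrArg K.rk e'
    rw [K.rk_smul] at this
    omega)
  have vy : lg H y b y b = 1 := lg_pos ⟨1, (one_smul _ _).symm, (one_smul _ _).symm⟩
  have q1 : ∀ x, lg H y b x T = 0 := fun x => nq _ _ (by omega)
  have q2 : ∀ x, lg H y b x a = 0 := fun x => nq _ _ (by omega)
  have q3 : ∀ x, lg H y b x y = 0 := fun x => nq _ _ (by omega)
  rcases hp with ⟨k1, k2⟩ | ⟨k1, k2⟩
  · rw [k1, k2]
    simp only [q1, q2, q3, vy, nT]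
    norm_num
  · rw [k1, k2]
    simp only [q1, q2, q3, vy, nT]
    norm_num

namespace ToF

variable {D1 : Sq1 K} {a b : V} (h : P.ToF D1 a b)

include h

/-- THE STRANDS OF THE PARTNER at the bottom, after the fold -/
theorem lowB (yb : K.ar D1.y b) (ay : K.ar a D1.y) :
    P.XW D1.y b + P.XW D1.T b - 2 ≤ (D1.flat.P45 P).XW (D1.toF.F D1.y) (D1.toF.F b) := by
  classical
  obtain ⟨i0, h0⟩ := P45.Cl.own_ex h.top
  have hr : K.rk D1.y < K.rk D1.T := D1.rk
  have hv := P45.own_valB h.hC h.top ay yb h0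
  have hw : P.wq i0 ≤ 2 := by
    by_cases hf : P.flq i0
    · rw [show P.wq i0 = 1 from if_pos hf]
      norm_num
    · rw [show P.wq i0 = 2 from if_neg hf]
  have hu : ∀ i, P.own D1.T i → i = i0 := fun i hi => h.hC.own_uniq hi h0
  have hns : ∀ i, P.own D1.y i → ¬ P.own D1.T i := by
    rintro i ⟨hi, g, k, hk, e⟩ ⟨hi', g', k', hk', e'⟩
    have ek := P45.tq_uniq hk hk'
    subst ek
    rw [← e, ← e', K.rk_smul, K.rk_smul] at hr
    exact lt_irrefl _ hr
  -- the cells owned by the partner do not pass the top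
  have hz : ∀ i, P.own D1.y i → K.ccs i (fun x y z => lg H D1.T b x y + lg H D1.T b z y) = 0 := by
    rintro i ⟨hi, g, k, hk, e⟩
    have ht := tq_TopR hi hk
    have r0 : K.rk (P.qt i k) = K.rk D1.y := by rw [← e, K.rk_smul]
    have r1 := K.ar_rk _ _ ht.1.2.1
    have r2 := K.ar_rk _ _ ht.1.2.2
    have r3 := ht.2
    have rk : ∀ m : Fin 4, K.rk (P.qt i m) < K.rk D1.T := by
      intro m
      obtain ⟨l, rfl⟩ : ∃ l, m = k + l := ⟨m - k, (add_sub_cancel k m).symm⟩
      fin_cases l
      · show K.rk (P.qt i (k + 0)) < _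
        rw [add_zero]
        omega
      · show K.rk (P.qt i (k + 1)) < _
        omega
      · show K.rk (P.qt i (k + 2)) < _
        omega
      · show K.rk (P.qt i (k + 3)) < _
        omega
    rw [P.ccs4 hi]
    refine Finset.sum_eq_zero fun j _ => ?_
    have n : ∀ m q, ¬ Tr H D1.T b (P.qt i m) q := by
      rintro m q ⟨h, e', -⟩
      have := rk m
      rw [e', K.rk_smul] at this
      exact lt_irrefl _ this
    rw [lg_neg (n _ _), lg_neg (n _ _), add_zero]
  refine le_trans ?_ (h.lowG (s := D1.y) (c := D1.toF.F b) (O_rk hr)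
    (fun x q => lg H D1.y b x q + lg H D1.T b x q) ?_)
  · have e1 : P.wq i0 * K.ccs i0 (fun x y z => lg H D1.y b x y + lg H D1.y b z y) =
        ∑ i, if P.own D1.T i then
          P.wq i * K.ccs i (fun x y z => lg H D1.y b x y + lg H D1.y b z y) else 0 := by
      rw [Finset.sum_eq_single i0]
      · rw [if_pos h0]
      · intro i _ hi
        rw [if_neg (fun k => hi (hu i k))]
      · intro k
        exact absurd (Finset.mem_univ _) k
    have e2 : P.XW D1.y b + P.XW D1.T b -
        P.wq i0 * K.ccs i0 (fun x y z => lg H D1.y b x y + lg H D1.y b z y) =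
        ∑ i, if P.own D1.T i then 0 else if P.own D1.y i then 0 else
          P.wq i * K.ccs i (fun x y z => (lg H D1.y b x y + lg H D1.T b x y) +
            (lg H D1.y b z y + lg H D1.T b z y)) := by
      rw [e1]
      unfold XW
      rw [← Finset.sum_add_distrib, ← Finset.sum_sub_distrib]
      refine Finset.sum_congr rfl fun i _ => ?_
      have e3 : K.ccs i (fun x y z => (lg H D1.y b x y + lg H D1.T b x y) +
          (lg H D1.y b z y + lg H D1.T b z y)) =
          K.ccs i (fun x y z => lg H D1.y b x y + lg H D1.y b z y) +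
          K.ccs i (fun x y z => lg H D1.T b x y + lg H D1.T b z y) := by
        rw [← K.ccs_add]
        exact K.ccs_congr i fun j => by ring
      by_cases k : P.own D1.T i
      · have k' : ¬ P.own D1.y i := fun k' => hns i k' k
        rw [if_pos k, if_pos k, if_pos k, if_neg k']
        ring
      · rw [if_neg k, if_neg k, if_neg k]
        by_cases k' : P.own D1.y i
        · rw [if_pos k', if_pos k', hz i k']
          ring
        · rw [if_neg k', if_neg k', e3]
          ring
    rw [← e2, hv]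
    omega
  · intro x q
    by_cases k1 : Tr H D1.y b x q
    · have k3 : ¬ Tr H D1.T b x q := by
        rintro ⟨g, e, -⟩
        obtain ⟨g', e', -⟩ := k1
        rw [← K.rk_smul g D1.T, ← e, e', K.rk_smul] at hr
        exact lt_irrefl _ hr
      obtain ⟨g, rfl, rfl⟩ := k1
      show lg H D1.y b _ _ + lg H D1.T b _ _ ≤ _
      rw [lg_neg k3, add_zero,
        lg_pos (T := D1.toF.F D1.y) ⟨g, D1.toF.F_smul _ _, D1.toF.F_smul _ _⟩]
      exact lg_le_one _ _ _ _
    · show lg H D1.y b _ _ + lg H D1.T b _ _ ≤ _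
      rw [lg_neg k1, zero_add]
      by_cases k2 : Tr H D1.T b x q
      · obtain ⟨g, rfl, rfl⟩ := k2
        rw [lg_pos (T := D1.toF.F D1.y) ⟨g, F_T g, D1.toF.F_smul _ _⟩]
        exact lg_le_one _ _ _ _
      · rw [lg_neg k2]
        exact lg_nonneg' _ _ _ _

/-- THE STRANDS OF THE PARTNER at another pole `d` -/
theorem uppB {d : V} (ay : K.ar a D1.y) (yd : K.ar D1.y d)
    (n1 : ∀ g : H, g • D1.y = D1.y → g • d ≠ b) :
    (D1.flat.P45 P).XW (D1.toF.F D1.y) (D1.toF.F d) ≤ P.XW D1.y d := by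
  classical
  have rk' : K.rk D1.y < K.rk D1.T := D1.rk
  have r3 := K.ar_rk _ _ yd
  have ra := K.ar_rk _ _ ay
  rw [h.XW_F (O_rk rk'), XW]
  refine Finset.sum_le_sum fun i _ => ?_
  have nn : 0 ≤ P.wq i * K.ccs i (fun x y z => lg H D1.y d x y + lg H D1.y d z y) :=
    mul_nonneg (wq_pos i).le (K.ccs_nonneg i fun j =>
      add_nonneg (lg_nonneg' _ _ _ _) (lg_nonneg' _ _ _ _))
  have key : ∀ x q : V, K.E x q → lg H (D1.toF.F D1.y) (D1.toF.F d) (D1.toF.F x) (D1.toF.F q) ≤
      lg H D1.y d x q := by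
    intro x q hE
    by_cases t : Tr H (D1.toF.F D1.y) (D1.toF.F d) (D1.toF.F x) (D1.toF.F q)
    · obtain ⟨g, e1, e2⟩ := t
      have f1 : D1.toF.f x = g • D1.y := by
        have := congrArg Subtype.val e1
        rw [D1.toF.smul_coe] at this
        show (D1.toF.F x).1 = _
        rw [this]
        show g • D1.toF.f D1.y = _
        rw [f_rk rk']
      have f2 : D1.toF.f q = g • d := by
        have := congrArg Subtype.val e2
        rw [D1.toF.smul_coe] at this
        show (D1.toF.F q).1 = _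
        rw [this]
        show g • D1.toF.f d = _
        rw [f_rk (r3.trans rk')]
      have g2 : q = g • d := by
        by_cases hx : D1.toF.O q
        · exfalso
          obtain ⟨h', rfl⟩ := hx
          rw [D1.f_T] at f2
          have := congrArg K.rk f2
          rw [K.rk_smul, K.rk_smul] at this
          omega
        · rwa [D1.toF.f_not hx] at f2
      have g1 : x = g • D1.y := by
        by_cases hx : D1.toF.O x
        · exfalso
          obtain ⟨h', rfl⟩ := hx
          rw [D1.f_T] at f1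
          have hT : K.ar (h' • D1.T) (g • d) := by
            rw [g2] at hE
            rcases hE with hE | hE
            · exact hE
            · have := K.ar_rk _ _ hE
              rw [K.rk_smul, K.rk_smul] at this
              omega
          have hT' : K.ar D1.T (h'⁻¹ • g • d) := by
            have := K.ar_smul h'⁻¹ _ _ hT
            rwa [inv_smul_smul] at this
          have e3 : (h'⁻¹ * g) • D1.y = D1.y := by rw [mul_smul, ← f1, inv_smul_smul]
          rcases h.hC.sides h.top hT' with e | e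
          · have h1 : K.rk (h'⁻¹ • g • d) = K.rk a := by rw [e]
            rw [K.rk_smul, K.rk_smul] at h1
            omega
          · exact n1 (h'⁻¹ * g) e3 (by rw [mul_smul]; exact e)
        · rwa [D1.toF.f_not hx] at f1
      rw [lg_pos (T := D1.y) (c := d) ⟨g, g1, g2⟩]
      exact lg_le_one _ _ _ _
    · rw [lg_neg t]
      exact lg_nonneg' _ _ _ _
  by_cases k1 : P.own D1.T i
  · rw [if_pos k1]
    split_ifs
    · exact le_refl _
    · exact nn
  · rw [if_neg k1]
    by_cases k2 : P.own D1.y i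
    · rw [if_pos k2, if_pos k2, zero_mul]
    · rw [if_neg k2, if_neg k2]
      have hl := P.pm_len i
      exact mul_le_mul_of_nonneg_left (K.ccs_mono i fun j => add_le_add
        (key _ _ (K.vx_E hl j)) (key _ _ (K.vx_E hl (j + 1)).symm)) (wq_pos i).le

end ToF

end P45

namespace PmL

variable (X : PmL H)

include X

/-- COROLLARY 2 (ii): the partner of a fat gamma top is special -/
theorem cor2p {K : GX H V} {P : P45 K} (hC : P.Cl) (hm : K.Min) {T a b y d : V}
    (h : P.TopR T a b y) (ay : K.ar a y) (yb : K.ar y b) (yd : K.ar y d)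
    (n1 : ∀ g : H, g • y = y → g • d ≠ b) : P.XW T b ≤ 2 := by
  have F := X.toF hC hm h
  set D1 := hC.s1 h with hD
  have hC' : (D1.flat.P45 P).Cl := X.fold hC hm D1 a b h
  have hm' := D1.toF.min hm
  have ry : K.rk y < K.rk D1.T := h.2
  have e1 : (D1.flat.P45 P).XW (D1.toF.F y) (D1.toF.F b) =
      (D1.flat.P45 P).XW (D1.toF.F y) (D1.toF.F d) :=
    X.cor1 hC' hm' (F.ar_F ry yb) (F.ar_F ry yd)
  have e2 : P.XW y b = P.XW y d := X.cor1 hC hm yb yd
  have e3 : (D1.flat.P45 P).XW (D1.toF.F y) (D1.toF.F d) ≤ P.XW y d := F.uppB ay yd n1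
  have e4 : P.XW y b + P.XW T b - 2 ≤ (D1.flat.P45 P).XW (D1.toF.F y) (D1.toF.F b) :=
    F.lowB yb ay
  omega

/-- the same at both sides, poles of different rank -/
theorem cor2pr {K : GX H V} {P : P45 K} (hC : P.Cl) (hm : K.Min) {T a b y d c : V}
    (h : P.TopR T a b y) (ay : K.ar a y) (yb : K.ar y b) (yd : K.ar y d) (hr : K.rk d ≠ K.rk b)
    (hc : K.ar T c) : P.XW T c ≤ 2 := by
  rw [X.cor1 hC hm hc h.1.2.2]
  exact X.cor2p hC hm h ay yb yd fun g _ e => hr (by rw [← e, K.rk_smul])

end PmL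

namespace P45

variable {K : GX H V} {P : P45 K}

/-- COROLLARY 2 (ii) for the plain strands -/
theorem SqT.cor2px (hs : P.SqT) (h1 : ∀ T a b y, P.Top T a b y → 1 ≤ P.X T a) (hm : K.Min)
    {T a b y d : V} (h : P.Top T a b y) (ay : K.ar a y) (yb : K.ar y b) (yd : K.ar y d)
    (n1 : ∀ g : H, g • y = y → g • d ≠ b) : P.X T a ≤ 1 := by
  have hC := SqT.cl hs h1
  have e := pmL.cor2p hC hm (SqE.TopR hs h (fun k => k)) ay yb yd n1
  rw [Cl.cor1Z hC hm h.2.2 h.2.1, SqT.XW_eq hs h] at e
  omega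

/-- the partner of a fat gamma top is no gamma top -/
theorem SqT.cor2U (hs : P.SqT) (h1 : ∀ T a b y, P.Top T a b y → 1 ≤ P.X T a) (hm : K.Min)
    {T a b y s : V} (h : P.Top T a b y) (hU : (T, a) ∈ P.U) (hy : (y, s) ∈ P.U) :
    P.X T a ≤ 1 := by
  obtain ⟨b0, y0, h0, e1, e2⟩ := hU
  have h0 : P.Top T a b0 y0 := h0
  obtain ⟨rfl, rfl⟩ := hs.uniq h h0 (fun k => k)
  have ay : K.ar a y := e1
  have yb : K.ar y b := e2
  obtain ⟨d, z, hz, e3, e4⟩ := hy
  have hz : P.Top y s d z := hz
  have r3 := K.ar_rk _ _ e3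
  have r4 := K.ar_rk _ _ e4
  have rr : K.rk d < K.rk s := lt_trans r4 r3
  rcases K.two _ _ _ _ hz.2.1 hz.2.2 yb with e | e | e
  · rw [e] at rr
    exact absurd rr (lt_irrefl _)
  · refine hs.cor2px h1 hm h ay yb hz.2.1 fun g _ e' => ?_
    have h2 := congrArg K.rk e'
    have h3 := congrArg K.rk e
    rw [K.rk_smul] at h2
    omega
  · refine hs.cor2px h1 hm h ay yb hz.2.2 fun g _ e' => ?_
    have h2 := congrArg K.rk e'
    have h3 := congrArg K.rk e
    rw [K.rk_smul] at h2
    omega

/-- the same in a complex whose thinned complex is static -/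
theorem cor2U_thin (hs : P.thinP.SqT) (h1 : ∀ T a b y, P.Top T a b y → 1 ≤ P.X T a) (hm : K.Min)
    {T a b y s : V} (h : P.Top T a b y) (hU : (T, a) ∈ P.U) (hy : (y, s) ∈ P.U) :
    P.X T a ≤ 1 := by
  rw [← P.thin_X]
  refine SqT.cor2U (K := P.thin) hs ?_ (P.thin_Min.2 hm) (P.thin_Top.2 h) (s := s) ?_ ?_
  · intro T a b y h
    rw [P.thin_X]
    exact h1 _ _ _ _ (P.thin_Top.1 h)
  · rw [P.thin_U]
    exact hU
  · rw [P.thin_U]
    exact hy

end P45

namespace SyQ

variable {S : SyQ H V}
variable {hc : S.Conn} {w : S.X} {O : S.OR w} {hm : (S.k0 hc w).Min} {hn : S.SqN w O}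

/-- THE FIELD `cor2p` of `CrH` -/
theorem kf_cor2p (hO : O.Nf) (hK : S.KIn w)
    (x1 : ∀ p ∈ (S.kfP hc w O hm hn).TA, 1 ≤ (S.kfP hc w O hm hn).X p.1 p.2)
    (T a b y s : S.Q w O) (h : (S.kfP hc w O hm hn).Top T a b y)
    (hU : (T, a) ∈ (S.kfP hc w O hm hn).U) (hy : (y, s) ∈ (S.kfP hc w O hm hn).U) :
    (S.kfP hc w O hm hn).X T a ≤ 1 :=
  P45.cor2U_thin (kf_thin_SqT hO hK) (fun _ _ _ _ h => x1 (_, _) ⟨_, _, h⟩) (S.kf_min hc w O hm)
    h hU hy

end SyQ

end Pool.Agent.DI
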