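import Pool.Agent.DI.PmD

/-!
# DI/CorA: Corollary 1 of the min-cut theorem

`D.mir`: the cut data with the poles exchanged. `D.Sep`: `R` is a union of pieces. `CuD.phi_mir`: then the
sums of `D` and `D.mir` add up to zero; `CuD.phi_zero`: so they vanish if both are not negative. `Cl.cor1_ord`:
the numbers of strands of an ordinary soft at its two poles are equal.
-/

namespace Pool.Agent.DI

open MulAction

variable {H V : Type} [Group H] [MulAction H V]

/-- the corners of the cells -/
theorem P45.vx_cor {K : GX H V} (P : P45 K) (i : K.I) (j : ℕ) :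
    K.Cor (K.vx i j) (K.vx i (j + 1)) (K.vx i (j + 2)) := by
  by_cases hi : P.sq i
  · have e1 : Fin.ofNat 4 (j + 1) = Fin.ofNat 4 j + 1 := by
      apply Fin.ext
      simp [Fin.ofNat, Fin.val_add]
    have e2 : Fin.ofNat 4 (j + 2) = Fin.ofNat 4 j + 2 := by
      apply Fin.ext
      simp [Fin.ofNat, Fin.val_add]
    rw [P.tvx4 hi, P.tvx4 hi, P.tvx4 hi, e1, e2]
    refine P.cor_iff.2 (Or.inr ⟨P.qt i (Fin.ofNat 4 j + 3), ?_⟩)
    have := Q4_qt (P := P) (1 : H) hi (Fin.ofNat 4 j)
    simpa only [one_smul] using this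
  · have e1 : Fin.ofNat 5 (j + 1) = Fin.ofNat 5 j + 1 := by
      apply Fin.ext
      simp [Fin.ofNat, Fin.val_add]
    have e2 : Fin.ofNat 5 (j + 2) = Fin.ofNat 5 j + 2 := by
      apply Fin.ext
      simp [Fin.ofNat, Fin.val_add]
    rw [P.tvx5 hi, P.tvx5 hi, P.tvx5 hi, e1, e2]
    refine P.cor_iff.2 (Or.inl ⟨P.pt i (Fin.ofNat 5 j + 3), P.pt i (Fin.ofNat 5 j + 4), ?_⟩)
    have := Qn_pt (P := P) (1 : H) hi (Fin.ofNat 5 j)
    simpa only [one_smul] using this

namespace CuD

variable {K : GX H V} (D : CuD K)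

theorem fix_iff {g : H} (hg : g • D.v = D.v) : g • D.a = D.a ↔ g • D.b = D.b := by
  have key : ∀ (a b : V), K.ar D.v a → K.ar D.v b → a ≠ b → g • a = a → g • b = b := by
    intro a b ha hb hab h
    have h1 : K.ar D.v (g • b) := by
      have := K.ar_smul g _ _ hb
      rwa [hg] at this
    rcases K.two _ _ _ _ ha hb h1 with k | k | k
    · exact absurd k hab
    · exact k.symm
    · exact absurd (smul_left_cancel g (h.trans k)) hab
  exact ⟨key _ _ D.va D.vb D.ab, key _ _ D.vb D.va D.ab.symm⟩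

/-- the poles exchanged -/
def mir : CuD K where
  v := D.v
  a := D.b
  b := D.a
  R := D.R
  va := D.vb
  vb := D.va
  ab := D.ab.symm
  R_ar := D.R_ar
  stab g hg n hn h := (D.fix_iff hg).1 (D.stab g hg n hn h)
  inv g hg h n hn := D.inv g hg ((D.fix_iff hg).2 h) n hn

/-- `R` is a union of pieces -/
def Sep : Prop := ∀ n ∈ D.R, ∀ m, K.Cor n D.v m → K.ar m D.v → m ∈ D.R

variable {D}

theorem mv_mir {x y : V} : D.mir.mv x y ↔ D.mv x y := Iff.rfl

/-- the other leg of a corner with a moved leg -/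
theorem Sep.leg (hS : D.Sep) {x z : V} {h : H} (hx : h⁻¹ • x ∈ D.R) (hc : K.Cor x (h • D.v) z) :
    h⁻¹ • z ∈ D.R ∨ z = h • D.a ∨ z = h • D.b := by
  have h1 : K.Cor (h⁻¹ • x) D.v (h⁻¹ • z) := by
    have := hc.smul h⁻¹
    rwa [inv_smul_smul] at this
  rcases h1.E2 with e | e
  · rcases K.two _ _ _ _ D.va D.vb e with k | k | k
    · exact absurd k D.ab
    · right; right
      rw [k, smul_inv_smul]
    · right; left
      rw [k, smul_inv_smul]
  · exact Or.inl (hS _ hx _ h1 e)

theorem pole_not_mv {h : H} {c : V} (hc : K.ar D.v c) : ¬ D.mv (h • c) (h • D.v) := by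
  intro e
  have h1 := D.mv_ar e
  have h2 := K.ar_smul h _ _ hc
  exact absurd (K.ar_rk _ _ h1) (not_lt.2 (K.ar_rk _ _ h2).le)

theorem mir_τ {n y : V} {h : H} (h1 : h⁻¹ • n ∈ D.R) (h2 : y = h • D.v) :
    D.mir.τ n y = h • D.b := D.mir.τ_eq h1 h2

open Classical in
/-- the value of a corner at a translate of `v` with a moved leg -/
theorem sv_of_mv {x y z : V} (h : D.mv x y) : D.sv x y z =
    if D.mv z y then (if D.τ x y = D.τ z y then 0 else 2) else if z = D.τ x y then -1 else 1 := by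
  show sg D.mv D.τ x y z = _
  unfold sg seg
  rw [if_pos h]
  split_ifs <;> rfl

open Classical in
theorem sv_of_not {x y z : V} (h : ¬ D.mv x y) : D.sv x y z =
    if D.mv z y then (if x = D.τ z y then -1 else 1) else 0 := by
  show sg D.mv D.τ x y z = _
  unfold sg seg
  rw [if_neg h]
  split_ifs <;> rfl

theorem sv_rev (x y z : V) : D.sv x y z = D.sv z y x := by
  classical
  by_cases hx : D.mv x y
  · rw [sv_of_mv hx]
    by_cases hz : D.mv z y
    · rw [sv_of_mv hz, if_pos hx, if_pos hz]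
      simp only [eq_comm]
    · rw [sv_of_not hz, if_pos hx, if_neg hz]
  · rw [sv_of_not hx]
    by_cases hz : D.mv z y
    · rw [sv_of_mv hz, if_neg hx, if_pos hz]
    · rw [sv_of_not hz, if_neg hx, if_neg hz]

/-- the two values at a corner -/
theorem Sep.sv_mv (hS : D.Sep) {x y z : V} (hc : K.Cor x y z) (hx : D.mv x y) :
    D.sv x y z + D.mir.sv x y z = 0 := by
  classical
  have hx' : D.mir.mv x y := hx
  obtain ⟨h, h1, h2⟩ := id hx
  rw [sv_of_mv hx, sv_of_mv hx', D.τ_eq h1 h2, mir_τ h1 h2]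
  rw [h2] at hc
  rcases hS.leg h1 hc with k | k | k
  · have hz : D.mv z y := ⟨h, k, h2⟩
    have hz' : D.mir.mv z y := hz
    rw [if_pos hz, if_pos hz', D.τ_eq k h2, mir_τ k h2, if_pos rfl, if_pos rfl]
    rfl
  · have hz : ¬ D.mv z y := by
      rw [k, h2]
      exact pole_not_mv D.va
    have hz' : ¬ D.mir.mv z y := hz
    have hne : z ≠ h • D.b := by
      rw [k]
      exact fun e => D.ab (smul_left_cancel h e)
    rw [if_neg hz, if_neg hz', if_pos k, if_neg hne]
    rfl
  · have hz : ¬ D.mv z y := by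
      rw [k, h2]
      exact pole_not_mv D.vb
    have hz' : ¬ D.mir.mv z y := hz
    have hne : z ≠ h • D.a := by
      rw [k]
      exact fun e => D.ab (smul_left_cancel h e).symm
    rw [if_neg hz, if_neg hz', if_neg hne, if_pos k]
    rfl

theorem Sep.sv (hS : D.Sep) {x y z : V} (hc : K.Cor x y z) :
    D.sv x y z + D.mir.sv x y z = 0 := by
  classical
  by_cases hx : D.mv x y
  · exact hS.sv_mv hc hx
  · by_cases hz : D.mv z y
    · rw [sv_rev, sv_rev (D := D.mir)]
      exact hS.sv_mv hc.symm hz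
    · have hx' : ¬ D.mir.mv x y := hx
      have hz' : ¬ D.mir.mv z y := hz
      rw [sv_of_not hx, sv_of_not hx', if_neg hz, if_neg hz']
      rfl

/-- the sums of `D` and `D.mir` -/
theorem Sep.phi_add (hS : D.Sep) (P : P45 K) (w : K.I → ℤ) :
    K.wcs w D.sv + K.wcs w D.mir.sv = 0 := by
  rw [← K.wcs_add, K.wcs_congr w (G := fun _ _ _ => 0) fun i j => hS.sv (P.vx_cor i j), K.wcs_zero]

/-- COROLLARY 1 for unions of pieces -/
theorem Sep.phi_zero (hS : D.Sep) (P : P45 K) (w : K.I → ℤ) (h1 : 0 ≤ K.wcs w D.sv)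
    (h2 : 0 ≤ K.wcs w D.mir.sv) : K.wcs w D.sv = 0 := by
  have := hS.phi_add P w
  omega

end CuD

/-- COROLLARY 1 for unions of pieces, from PMC -/
theorem P45.PMC.zero {K : GX H V} {P : P45 K} (hP : P.PMC) {D : CuD K} (hS : D.Sep) :
    K.wcs P.wq D.sv = 0 := hS.phi_zero P _ (hP D) (hP D.mir)

namespace P45

variable {K : GX H V} {P : P45 K}

/-! ### passes of an arrow, seen from both ends -/

theorem lg_comm (T c p q : V) : lg H T c p q = lg H c T q p := by
  unfold lg
  by_cases h : Tr H T c p q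
  · rw [if_pos h, if_pos h.swap]
  · rw [if_neg h, if_neg fun k => h k.swap]

theorem ccs_lg (i : K.I) (T c : V) : K.ccs i (fun x y z => lg H T c x y + lg H T c z y) =
    K.ccs i (fun x y z => lg H c T x y + lg H c T z y) := by
  rw [K.ccs_add, K.ccs_add, K.ccs_shift i (fun x y => lg H T c x y),
    ← K.ccs_shift i (fun y z => lg H T c z y), add_comm]
  congr 1
  · exact K.ccs_congr i fun _ => lg_comm _ _ _ _
  · exact K.ccs_congr i fun _ => lg_comm _ _ _ _

open Classical in
/-- `XW` from the other end -/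
theorem XW_end (T c : V) : P.XW T c = ∑ i, if P.own T i then 0 else
    P.wq i * K.ccs i (fun x y z => lg H c T x y + lg H c T z y) := by
  unfold XW
  refine Finset.sum_congr rfl fun i _ => ?_
  split_ifs
  · rfl
  · rw [ccs_lg]

/-! ### no backtracking -/

theorem corA_fin4 (k t : Fin 4) : k = t ∨ k = t + 2 ∨ k = t + 1 ∨ k = t + 3 := by
  revert k t
  decide

theorem Cl.vx_ne2 (hC : P.Cl) (hm : K.Min) (i : K.I) (j : ℕ) : K.vx i j ≠ K.vx i (j + 2) := by
  by_cases hi : P.sq i
  · have e2 : Fin.ofNat 4 (j + 2) = Fin.ofNat 4 j + 2 := by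
      apply Fin.ext
      simp [Fin.ofNat, Fin.val_add]
    rw [P.tvx4 hi, P.tvx4 hi, e2]
    generalize Fin.ofNat 4 j = k
    obtain ⟨t, ht⟩ := hC.top i hi
    have h1 : P.qt i t ≠ P.qt i (t + 2) := fun e => by
      have := ht.2
      rw [← e] at this
      exact lt_irrefl _ this
    have h2 : P.qt i (t + 1) ≠ P.qt i (t + 3) := hC.nab _ _ _ _ (tq_TopR hi ht)
    have h4 := corA_fin4 k t
    have e4 : ∀ t : Fin 4, t + 2 + 2 = t := by decide
    have e5 : ∀ t : Fin 4, t + 1 + 2 = t + 3 := by decide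
    have e6 : ∀ t : Fin 4, t + 3 + 2 = t + 1 := by decide
    rcases h4 with rfl | rfl | rfl | rfl
    · exact h1
    · rw [e4]
      exact h1.symm
    · rw [e5]
      exact h2
    · rw [e6]
      exact h2.symm
  · have e2 : Fin.ofNat 5 (j + 2) = Fin.ofNat 5 j + 2 := by
      apply Fin.ext
      simp [Fin.ofNat, Fin.val_add]
    rw [P.tvx5 hi, P.tvx5 hi, e2]
    let G : PG K := { five := fun i => ¬ P.sq i, pt := P.pt, cb_eq := P.cb5, cw_eq := P.cw5 }
    have a : G.At (fun j => P.pt i j) i := ⟨hi, 1, 0, Or.inl fun j => by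
      rw [one_smul, zero_add]⟩
    exact a.ne2 hm _

/-! ### ordinary softs -/

/-- the cut data of an ordinary soft: all in-arrows -/
def ordD {n a b : V} (na : K.ar n a) (nb : K.ar n b) (hab : a ≠ b)
    (ord : ∀ g : H, g • n = n → g • a = a) : CuD K where
  v := n
  a := a
  b := b
  R := {m | K.ar m n}
  va := na
  vb := nb
  ab := hab
  R_ar _ h := h
  stab g hg _ _ _ := ord g hg
  inv g hg _ m hm := by
    have := K.ar_smul g _ _ hm
    rwa [hg] at this

open Classical in
theorem lg_ord {n a : V} (ord : ∀ g : H, g • n = n → g • a = a) (h : H) (x : V) :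
    lg H a n x (h • n) = if x = h • a then 1 else 0 := by
  unfold lg
  have : Tr H a n x (h • n) ↔ x = h • a := by
    constructor
    · rintro ⟨g, rfl, e⟩
      have h1 := ord (h⁻¹ * g) (by rw [mul_smul, ← e, inv_smul_smul])
      rw [mul_smul, inv_smul_eq_iff] at h1
      exact h1
    · rintro rfl
      exact ⟨h, rfl, rfl⟩
  simp only [this]

theorem ordD_sv {n a b : V} (na : K.ar n a) (nb : K.ar n b) (hab : a ≠ b)
    (ord : ∀ g : H, g • n = n → g • a = a) {x y z : V} (hc : K.Cor x y z) (hne : x ≠ z) :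
    (ordD na nb hab ord).sv x y z = (lg H b n x y + lg H b n z y) -
      (lg H a n x y + lg H a n z y) := by
  classical
  set D := ordD na nb hab ord with hD
  have ord' : ∀ g : H, g • n = n → g • b = b := fun g hg => (D.fix_iff hg).1 (ord g hg)
  by_cases hy : ∃ h : H, y = h • n
  · obtain ⟨h, rfl⟩ := hy
    rw [lg_ord ord, lg_ord ord, lg_ord ord', lg_ord ord']
    have key : ∀ {x : V}, K.E x (h • n) → K.ar (h⁻¹ • x) n ∨ x = h • a ∨ x = h • b := by
      intro x e
      have e1 : K.E (h⁻¹ • x) n := by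
        have := K.E_smul h⁻¹ e
        rwa [inv_smul_smul] at this
      rcases e1 with e1 | e1
      · exact Or.inl e1
      · rcases K.two _ _ _ _ na nb e1 with k | k | k
        · exact absurd k hab
        · right; right
          rw [k, smul_inv_smul]
        · right; left
          rw [k, smul_inv_smul]
    have hm : ∀ {x : V}, K.ar (h⁻¹ • x) n → D.mv x (h • n) := fun k => ⟨h, k, rfl⟩
    have hτ : ∀ {x : V}, K.ar (h⁻¹ • x) n → D.τ x (h • n) = h • a :=
      fun k => D.τ_eq (h := h) k rfl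
    have ha : ¬ D.mv (h • a) (h • n) := CuD.pole_not_mv na
    have hb : ¬ D.mv (h • b) (h • n) := CuD.pole_not_mv nb
    have hne' : ∀ {x : V}, K.ar (h⁻¹ • x) n → x ≠ h • a ∧ x ≠ h • b := by
      intro x k
      refine ⟨fun e => ?_, fun e => ?_⟩
      · rw [e] at k
        exact ha (hm k)
      · rw [e] at k
        exact hb (hm k)
    have hab' : h • a ≠ h • b := fun e => hab (smul_left_cancel h e)
    rcases key hc.E1.symm with kx | rfl | rfl
    · rw [CuD.sv_of_mv (hm kx), hτ kx, if_neg (hne' kx).1, if_neg (hne' kx).2]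
      rcases key hc.E2.symm with kz | rfl | rfl
      · rw [if_pos (hm kz), hτ kz, if_pos rfl, if_neg (hne' kz).1, if_neg (hne' kz).2]
        rfl
      · rw [if_neg ha, if_pos rfl, if_neg hab', if_pos rfl]
        rfl
      · rw [if_neg hb, if_neg hab'.symm, if_pos rfl, if_neg hab'.symm]
        rfl
    · rw [CuD.sv_of_not ha, if_neg hab', if_pos rfl]
      rcases key hc.E2.symm with kz | rfl | rfl
      · rw [if_pos (hm kz), hτ kz, if_pos rfl, if_neg (hne' kz).1, if_neg (hne' kz).2]
        rfl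
      · exact absurd rfl hne
      · rw [if_neg hb, if_pos rfl, if_neg hab'.symm]
        rfl
    · rw [CuD.sv_of_not hb, if_pos rfl, if_neg hab'.symm]
      rcases key hc.E2.symm with kz | rfl | rfl
      · rw [if_pos (hm kz), hτ kz, if_neg hab'.symm, if_neg (hne' kz).1, if_neg (hne' kz).2]
        rfl
      · rw [if_neg ha, if_neg hab', if_pos rfl]
        rfl
      · exact absurd rfl hne
  · have h1 : ∀ x : V, ¬ D.mv x y := by
      rintro x ⟨h, -, k⟩
      exact hy ⟨h, k⟩
    have h2 : ∀ (a x : V), lg H a n x y = 0 := by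
      intro a x
      unfold lg
      rw [if_neg]
      rintro ⟨h, -, k⟩
      exact hy ⟨h, k⟩
    rw [CuD.sv_of_not (h1 x), if_neg (h1 z), h2, h2, h2, h2]
    rfl

/-- the own square of `n` does not count -/
theorem ordD_own {n a b : V} (na : K.ar n a) (nb : K.ar n b) (hab : a ≠ b)
    (ord : ∀ g : H, g • n = n → g • a = a) {i : K.I} (hi : P.own n i) :
    K.ccs i (ordD na nb hab ord).sv = 0 := by
  classical
  set D := ordD na nb hab ord with hD
  obtain ⟨hs, g, t, ht, e⟩ := hi
  have hrk : K.rk n = K.rk (P.qt i t) := by rw [← e, K.rk_smul]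
  have hmv : ∀ (k : Fin 4) (x : V), (x = P.qt i (k + 1) ∨ x = P.qt i (k + 3)) →
      ¬ D.mv x (P.qt i k) := by
    intro k x hx hmv
    have hk : K.rk (P.qt i k) = K.rk n := by
      obtain ⟨h, -, k2⟩ := id hmv
      rw [k2, K.rk_smul]
      rfl
    have hT := tq_TopR hs ht
    have hkt : k = t := by
      by_contra hne
      have h4 := corA_fin4 k t
      rcases h4 with rfl | rfl | rfl | rfl
      · exact hne rfl
      · have := hT.2
        omega
      · have := K.ar_rk _ _ hT.1.2.1
        omega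
      · have := K.ar_rk _ _ hT.1.2.2
        omega
    subst hkt
    have h5 : K.ar (P.qt i k) x := by
      rcases hx with rfl | rfl
      · exact hT.1.2.1
      · exact hT.1.2.2
    have h6 := D.mv_ar hmv
    exact absurd (K.ar_rk _ _ h5) (not_lt.2 (K.ar_rk _ _ h6).le)
  rw [P.ccs4 hs]
  refine Finset.sum_eq_zero fun j _ => ?_
  have e3 : ∀ j : Fin 4, j + 1 + 3 = j := by decide
  have e1 : ∀ j : Fin 4, j + 1 + 1 = j + 2 := by decide
  have h1 := hmv (j + 1) (P.qt i j) (Or.inr (by rw [e3]))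
  have h2 := hmv (j + 1) (P.qt i (j + 2)) (Or.inl (by rw [e1]))
  rw [CuD.sv_of_not h1, if_neg h2]

/-- the sum of the corners of an ordinary soft -/
theorem Cl.phi_ord (hC : P.Cl) (hm : K.Min) {n a b : V} (na : K.ar n a) (nb : K.ar n b)
    (hab : a ≠ b) (ord : ∀ g : H, g • n = n → g • a = a) :
    K.wcs P.wq (ordD na nb hab ord).sv = P.XW n b - P.XW n a := by
  classical
  rw [XW_end, XW_end, ← Finset.sum_sub_distrib]
  unfold GX.wcs
  refine Finset.sum_congr rfl fun i _ => ?_
  by_cases hi : P.own n i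
  · rw [if_pos hi, if_pos hi, ordD_own na nb hab ord hi]
    ring
  · rw [if_neg hi, if_neg hi, ← mul_sub, ← K.ccs_sub]
    congr 1
    exact K.ccs_congr i fun j => ordD_sv na nb hab ord (P.vx_cor i j) (hC.vx_ne2 hm i j)

theorem ordD_sep {n a b : V} (na : K.ar n a) (nb : K.ar n b) (hab : a ≠ b)
    (ord : ∀ g : H, g • n = n → g • a = a) : (ordD na nb hab ord).Sep := fun _ _ _ _ h => h

/-- COROLLARY 1: an ordinary soft has the same number of strands at its poles (`hP` is PMC for the hub
`n` only) -/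
theorem Cl.cor1_ord (hC : P.Cl) (hm : K.Min) {n a b : V}
    (hP : ∀ D : CuD K, D.v = n → 0 ≤ K.wcs P.wq D.sv) (na : K.ar n a) (nb : K.ar n b)
    (ord : ∀ g : H, g • n = n → g • a = a) : P.XW n a = P.XW n b := by
  by_cases hab : a = b
  · rw [hab]
  have h1 := (ordD_sep na nb hab ord).phi_zero P P.wq (hP _ rfl) (hP _ rfl)
  rw [hC.phi_ord hm] at h1
  omega

end P45

end Pool.Agent.DI
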