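import Pool.Agent.DI.CorA
import Pool.Agent.DI.PmS
import Pool.Agent.DI.Pc

/-!
# DI/CorB: pieces as cut data, Corollary 2 (ii)

`NSf n a T`: the piece of `T` at `n` is no self piece. `pcD`: the cut data of the orbit of such a piece under
the elements which fix the poles. `cor2_part`: if the hub `n` is the partner of the top `T = {m, a}` and `m` is
in a union `R` of pieces without swaps then the arrow from `T` to `a` has one strand.
-/

namespace Pool.Agent.DI

open MulAction

variable {H V : Type} [Group H] [MulAction H V] {K : GX H V}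

/-- the piece of `m` at `n` is no self piece -/
def NSf (K : GX H V) (n a m : V) : Prop := ∀ g : H, g • n = n → K.IJ n m (g • m) → g • a = a

/-- the cut data of the orbit of a piece which is no self piece -/
def pcD {n a b m : V} (na : K.ar n a) (nb : K.ar n b) (hab : a ≠ b) (hm : K.ar m n)
    (hns : NSf K n a m) : CuD K where
  v := n
  a := a
  b := b
  R := {c | ∃ g : H, g • n = n ∧ g • a = a ∧ K.IJ n (g • m) c}
  va := na
  vb := nb
  ab := hab
  R_ar := by
    rintro c ⟨g, h1, -, h2⟩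
    refine (GX.IJ.ar h2).1 ?_
    have := K.ar_smul g _ _ hm
    rwa [h1] at this
  stab := by
    rintro g hg c ⟨k, k1, k2, k3⟩ ⟨l, l1, l2, l3⟩
    have h1 : K.IJ n (g • k • m) (g • c) := by
      have := k3.smul g
      rwa [hg] at this
    have h2 : K.IJ n (l • m) (g • k • m) := l3.trans' h1.symm'
    have l1' : l⁻¹ • n = n := by rw [inv_smul_eq_iff]; exact l1.symm
    have h3 : K.IJ n m (l⁻¹ • g • k • m) := by
      have := h2.smul l⁻¹
      rwa [l1', inv_smul_smul] at this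
    have h4 := hns (l⁻¹ * g * k) (by rw [mul_smul, mul_smul, k1, hg, l1'])
      (by rw [mul_smul, mul_smul]; exact h3)
    rw [mul_smul, mul_smul, k2, inv_smul_eq_iff, l2] at h4
    exact h4
  inv := by
    rintro g hg ha c ⟨k, k1, k2, k3⟩
    refine ⟨g * k, by rw [mul_smul, k1, hg], by rw [mul_smul, k2, ha], ?_⟩
    have := k3.smul g
    rw [hg] at this
    rwa [mul_smul]

theorem pcD_sep {n a b m : V} (na : K.ar n a) (nb : K.ar n b) (hab : a ≠ b) (hm : K.ar m n)
    (hns : NSf K n a m) : (pcD na nb hab hm hns).Sep := by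
  rintro c ⟨g, h1, h2, h3⟩ d hd har
  refine ⟨g, h1, h2, h3.trans' (Relation.EqvGen.rel _ _ ⟨hd, ?_, har⟩)⟩
  refine (GX.IJ.ar h3).1 ?_
  have := K.ar_smul g _ _ hm
  rwa [h1] at this

theorem pcD_mem {n a b m : V} (na : K.ar n a) (nb : K.ar n b) (hab : a ≠ b) (hm : K.ar m n)
    (hns : NSf K n a m) : m ∈ (pcD na nb hab hm hns).R :=
  ⟨1, one_smul _ _, one_smul _ _, by rw [one_smul]; exact Relation.EqvGen.refl _⟩

/-- COROLLARY 2 (ii), on cut data: `Pm` is PMC for the two complexes -/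
theorem CuD.Pt1.cor2 {D : CuD K} {D1 : Sq1 K} (hP : CuD.Pt1 D D1) (P : P45 K) (hC : P.Cl)
    (hB : ∀ i, D1.toF.Bt i ↔ P.own D1.T i) (nh : D1.toF.gx.NHr) (nb : D1.toF.gx.NBt)
    {a b : V} (ht : P.TopR D1.T a b D1.y) (ha : K.ar D1.T D.a) (hS : D.Sep)
    (h1 : 0 ≤ K.wcs P.wq D.sv) (h2 : 0 ≤ K.wcs P.wq D.mir.sv)
    (h3 : 0 ≤ D1.toF.gx.wcs (fun j => P.wq j.1) hP.part.sv) (h4 : 2 ≤ P.XW D1.T D.a) :
    P.XW D1.T D.a = 2 := by
  have e1 := hS.phi_zero P P.wq h1 h2
  have e2 := hP.part_step P hC hB nh nb ht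
  rw [if_pos ha, ← P45.XW_end, e1] at e2
  omega

end Pool.Agent.DI
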