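import Pool.Agent.DI.PmI
import Pool.Agent.DI.CorB

/-!
# DI/CorC: Corollary 2 of the min-cut theorem

`PmH.zero`: the sum vanishes for a union of pieces without swaps. `PmH.c2s`: COROLLARY 2 (i), on cut data: the
top `T` in `R` lies over the hub `n`, its partner is the pole `a` of `n`, no translate of `T` in `R` has the
other pole of `n` as its partner: `T → n` has one strand. `PmH.c2p`: COROLLARY 2 (ii). `PmH.cor2i`,
`PmH.cor2ii`: the same for a soft `n` and a piece of `n` which is no self piece.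
-/

namespace Pool.Agent.DI

open MulAction

namespace PmH

variable {H : Type} [Group H] (X : PmH H)

include X

variable {V : Type} [MulAction H V] {K : GX H V} {P : P45 K}

theorem zero (hC : P.Cl) (hm : K.Min) {D : CuD K} (hS : D.Sep) : P.Phi D = 0 :=
  (X.pmc hC hm).zero hS

/-- COROLLARY 2 (i), on cut data -/
theorem c2s (hC : P.Cl) (hm : K.Min) {D : CuD K} (hS : D.Sep) {T c : V}
    (ht : P.TopR T c D.v D.a) (hT : T ∈ D.R)
    (nst : ∀ h : H, h • c = D.v → h • T ∈ D.R → h • D.a = D.a) : P.XW T D.v = 2 := by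
  have hr : K.rk D.v < K.rk T := K.ar_rk _ _ (D.R_ar _ hT)
  have h0 : K.wcs P.wq D.sv = 0 := X.zero hC hm hS
  have h2 : 0 ≤ (((hC.s1 ht).flat).P45 P).Phi (D.side (hC.s1 ht) hr) :=
    X.pmc (X.fold hC hm (hC.s1 ht) _ _ ht) ((hC.s1 ht).toF.min hm) _
  have hw := X.wcs_fold hC hm (hC.s1 ht) ht (D.side (hC.s1 ht) hr)
  have two1 : 2 ≤ P.XW T D.v := X.two hC hm _ _ _ _ ht.symm'
  have two2 : 2 ≤ P.XW T c := X.two hC hm _ _ _ _ ht
  by_cases hs : ∀ h : H, h • T ∈ D.R → Tr H T D.v (h • T) D.v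
  · have h3 : (hC.s1 ht).toF.gx.wcs (fun j => P.wq j.1) (D.side (hC.s1 ht) hr).sv +
        P.XW T D.v - 2 ≤ K.wcs P.wq D.sv := X.sideOne hC hm D (hC.s1 ht) hr c ht hT rfl hs
    rw [hw] at h3
    omega
  · push Not at hs
    obtain ⟨h, e1, e2⟩ := hs
    have e3 : h • c = D.v := by
      have k := K.ar_smul h⁻¹ _ _ (D.R_ar _ e1)
      rw [inv_smul_smul] at k
      rcases hC.sides ht k with e | e
      · rw [← e, smul_inv_smul]
      · exfalso
        apply e2
        refine ⟨h, rfl, ?_⟩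
        rw [inv_smul_eq_iff] at e
        exact e
    have ea := nst h e3 e1
    have hTr : ¬ Tr H T D.v T c := by
      rintro ⟨g, g1, g2⟩
      apply e2
      refine ⟨h * g, ?_, ?_⟩
      · rw [mul_smul, ← g1]
      · rw [mul_smul, ← g2, e3]
    have h3 : (hC.s1 ht).toF.gx.wcs (fun j => P.wq j.1) (D.side (hC.s1 ht) hr).sv +
        P.XW T D.v + P.XW T c - 4 ≤ K.wcs P.wq D.sv :=
      X.sideTwo hC hm D (hC.s1 ht) hr c ht hT rfl h e3 e1 ea hTr
    rw [hw] at h3
    omega

/-- COROLLARY 2 (ii), on cut data -/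
theorem c2p (hC : P.Cl) (hm : K.Min) {D : CuD K} (hS : D.Sep) {T m : V}
    (ht : P.TopR T m D.a D.v) (hM : m ∈ D.R) : P.XW T D.a = 2 := by
  have h0 : P.Phi D = 0 := X.zero hC hm hS
  have hP : D.Pt1 (hC.s1 ht) := ⟨rfl, fun p hp => by
    rcases hC.sides ht hp with rfl | rfl
    · exact Or.inl hM
    · exact Or.inr rfl, ⟨m, ht.1.2.1, hM⟩⟩
  have h1 := (X.part hC hm D (hC.s1 ht) hP ht).1 ht.1.2.2
  have h2 : 0 ≤ (((hC.s1 ht).flat).P45 P).Phi hP.part :=
    X.pmc (X.fold hC hm (hC.s1 ht) _ _ ht) ((hC.s1 ht).toF.min hm) _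
  have h3 : 2 ≤ P.XW T D.a := X.two hC hm _ _ _ _ ht.symm'
  have h4 : P.Phi D = (((hC.s1 ht).flat).P45 P).Phi hP.part + (P.XW T D.a - 2) := h1
  omega

/-- COROLLARY 2 (i): a top `T` over `n` in a piece which is no self piece, with partner a pole of `n` -/
theorem cor2i (hC : P.Cl) (hm : K.Min) {T c n x x' : V} (ht : P.TopR T c n x) (hx : K.ar n x)
    (hx' : K.ar n x') (hne : x ≠ x') (hns : NSf K n x T)
    (nst : ∀ h : H, h • c = n → h • x ≠ x') : P.XW T n = 2 := by
  have hTn : K.ar T n := ht.1.2.2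
  refine X.c2s hC hm (D := pcD hx hx' hne hTn hns) (pcD_sep hx hx' hne hTn hns) ht
    (pcD_mem hx hx' hne hTn hns) ?_
  intro h hc hR
  have h1 : K.ar n (h • x) := by
    have h2 := hC.par
    have e : K.E n (h • x) := by
      have := (ht.smul h).1.1
      rw [hc] at this
      exact this.E4.symm
    rcases e with e | e
    · exact e
    · exfalso
      have r1 := K.ar_rk _ _ e
      have r2 := K.ar_rk _ _ hx
      rw [K.rk_smul] at r1
      omega
  rcases K.two _ _ _ _ hx hx' h1 with k | k | k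
  · exact absurd k hne
  · exact absurd k.symm (nst h hc)
  · exact k.symm

/-- COROLLARY 2 (ii): `n` is the partner of the top `T` with the sides `m`, `x`, `x` a pole of `n`, `m` in a
piece of `n` which is no self piece -/
theorem cor2ii (hC : P.Cl) (hm : K.Min) {T m n x x' : V} (ht : P.TopR T m x n) (hx : K.ar n x)
    (hx' : K.ar n x') (hne : x ≠ x') (hmn : K.ar m n) (hns : NSf K n x m) : P.XW T x = 2 :=
  X.c2p hC hm (D := pcD hx hx' hne hmn hns) (pcD_sep hx hx' hne hmn hns) ht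
    (pcD_mem hx hx' hne hmn hns)

end PmH

end Pool.Agent.DI
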