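import Mathlib

/-!
# Systems of corners

A finite set of positions with a cyclic shift; at each position three consecutive vertices. Numbers of
corners, sums over the corners, edges counted at their two ends, the four kinds of corners of a slide.
-/

namespace Pool.Agent.DI

open MulAction

/-- a system of corners: positions `P`, the shift `nxt`, three consecutive vertices at each position -/
structure Cr (V : Type) where
  P : Type
  ft : Fintype P
  v0 : P → V
  v1 : P → V
  v2 : P → V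
  nxt : P ≃ P
  h0 : ∀ p, v0 (nxt p) = v1 p
  h1 : ∀ p, v1 (nxt p) = v2 p

namespace Cr

variable {V : Type} (C : Cr V)

instance : Fintype C.P := C.ft

/-! ### sums over the corners -/

/-- the sum of a weight over the corners -/
noncomputable def cs (w : V → V → V → ℤ) : ℤ := ∑ p : C.P, w (C.v0 p) (C.v1 p) (C.v2 p)

theorem cs_add (w w' : V → V → V → ℤ) :
    C.cs (fun x y z => w x y z + w' x y z) = C.cs w + C.cs w' := Finset.sum_add_distrib

theorem cs_sub (w w' : V → V → V → ℤ) :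
    C.cs (fun x y z => w x y z - w' x y z) = C.cs w - C.cs w' := Finset.sum_sub_distrib _ _

theorem cs_mul (c : ℤ) (w : V → V → V → ℤ) :
    C.cs (fun x y z => c * w x y z) = c * C.cs w := (Finset.mul_sum _ _ _).symm

theorem cs_congr {w w' : V → V → V → ℤ}
    (h : ∀ p, w (C.v0 p) (C.v1 p) (C.v2 p) = w' (C.v0 p) (C.v1 p) (C.v2 p)) : C.cs w = C.cs w' :=
  Finset.sum_congr rfl fun p _ => h p

theorem cs_mono {w w' : V → V → V → ℤ}
    (h : ∀ p, w (C.v0 p) (C.v1 p) (C.v2 p) ≤ w' (C.v0 p) (C.v1 p) (C.v2 p)) : C.cs w ≤ C.cs w' :=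
  Finset.sum_le_sum fun p _ => h p

theorem cs_nonneg {w : V → V → V → ℤ}
    (h : ∀ p, 0 ≤ w (C.v0 p) (C.v1 p) (C.v2 p)) : 0 ≤ C.cs w :=
  Finset.sum_nonneg fun p _ => h p

theorem cs_sum {ι : Type} (s : Finset ι) (w : ι → V → V → V → ℤ) :
    C.cs (fun x y z => ∑ i ∈ s, w i x y z) = ∑ i ∈ s, C.cs (w i) := Finset.sum_comm

/-- the shift -/
theorem cs_shift (w : V → V → ℤ) : C.cs (fun x y _ => w x y) = C.cs (fun _ y z => w y z) := by
  have h := Equiv.sum_comp C.nxt (fun p => w (C.v0 p) (C.v1 p))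
  rw [cs, cs, ← h]
  refine Finset.sum_congr rfl fun p _ => ?_
  show w (C.v0 (C.nxt p)) (C.v1 (C.nxt p)) = _
  rw [C.h0, C.h1]

/-! ### numbers of corners -/

open Classical in
/-- the number of the corners with a property -/
noncomputable def cn (P : V → V → V → Prop) : ℕ :=
  (Finset.univ.filter (fun p : C.P => P (C.v0 p) (C.v1 p) (C.v2 p))).card

open Classical in
theorem cn_eq (P : V → V → V → Prop) :
    (C.cn P : ℤ) = C.cs (fun x y z => if P x y z then 1 else 0) := by
  rw [cn, cs, Finset.card_filter]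
  push_cast
  rfl

theorem cn_nat (P : V → V → V → Prop) :
    C.cn P = Nat.card {p : C.P // P (C.v0 p) (C.v1 p) (C.v2 p)} := by
  classical
  rw [cn, Nat.card_eq_fintype_card, Fintype.card_subtype]

theorem cn_true : C.cn (fun _ _ _ => True) = Fintype.card C.P := by
  classical
  rw [cn]
  simp

theorem cn_congr {P Q : V → V → V → Prop}
    (h : ∀ p, P (C.v0 p) (C.v1 p) (C.v2 p) ↔ Q (C.v0 p) (C.v1 p) (C.v2 p)) : C.cn P = C.cn Q := by
  classical
  have : (C.cn P : ℤ) = C.cn Q := by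
    rw [cn_eq, cn_eq]
    refine C.cs_congr fun p => ?_
    rw [if_congr (h p) rfl rfl]
  exact_mod_cast this

theorem cn_mono {P Q : V → V → V → Prop}
    (h : ∀ p, P (C.v0 p) (C.v1 p) (C.v2 p) → Q (C.v0 p) (C.v1 p) (C.v2 p)) : C.cn P ≤ C.cn Q := by
  classical
  refine Finset.card_le_card fun p hp => ?_
  rw [Finset.mem_filter] at hp ⊢
  exact ⟨hp.1, h p hp.2⟩

theorem cn_add {P Q : V → V → V → Prop}
    (h : ∀ p, P (C.v0 p) (C.v1 p) (C.v2 p) → ¬ Q (C.v0 p) (C.v1 p) (C.v2 p)) :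
    C.cn (fun x y z => P x y z ∨ Q x y z) = C.cn P + C.cn Q := by
  classical
  have : (C.cn (fun x y z => P x y z ∨ Q x y z) : ℤ) = C.cn P + C.cn Q := by
    rw [cn_eq, cn_eq, cn_eq, ← cs_add]
    refine C.cs_congr fun p => ?_
    have := h p
    by_cases hP : P (C.v0 p) (C.v1 p) (C.v2 p)
    · have hQ := h p hP
      simp [hP, hQ]
    · simp [hP]
  exact_mod_cast this

theorem cn_or_le (P Q : V → V → V → Prop) :
    C.cn (fun x y z => P x y z ∨ Q x y z) ≤ C.cn P + C.cn Q := by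
  classical
  have : (C.cn (fun x y z => P x y z ∨ Q x y z) : ℤ) ≤ C.cn P + C.cn Q := by
    rw [cn_eq, cn_eq, cn_eq, ← cs_add]
    refine C.cs_mono fun p => ?_
    by_cases hP : P (C.v0 p) (C.v1 p) (C.v2 p) <;> by_cases hQ : Q (C.v0 p) (C.v1 p) (C.v2 p) <;>
      simp [hP, hQ]
  exact_mod_cast this

theorem cn_split (P Q : V → V → V → Prop) :
    C.cn P = C.cn (fun x y z => P x y z ∧ Q x y z) + C.cn (fun x y z => P x y z ∧ ¬ Q x y z) := by
  rw [← C.cn_add (fun p h h' => h'.2 h.2)]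
  refine C.cn_congr fun p => ?_
  by_cases hQ : Q (C.v0 p) (C.v1 p) (C.v2 p) <;> simp [hQ]

theorem cn_shift (P : V → V → Prop) : C.cn (fun x y _ => P x y) = C.cn (fun _ y z => P y z) := by
  classical
  have : (C.cn (fun x y _ => P x y) : ℤ) = C.cn (fun _ y z => P y z) := by
    rw [cn_eq, cn_eq]
    exact C.cs_shift (fun x y => if P x y then 1 else 0)
  exact_mod_cast this

theorem cn_zero {P : V → V → V → Prop} (h : ∀ p, ¬ P (C.v0 p) (C.v1 p) (C.v2 p)) :
    C.cn P = 0 := by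
  classical
  rw [cn, Finset.card_eq_zero, Finset.filter_eq_empty_iff]
  exact fun p _ => h p

theorem cn_pos {P : V → V → V → Prop} :
    0 < C.cn P ↔ ∃ p : C.P, P (C.v0 p) (C.v1 p) (C.v2 p) := by
  classical
  rw [cn, Finset.card_pos]
  constructor
  · rintro ⟨p, hp⟩
    exact ⟨p, (Finset.mem_filter.1 hp).2⟩
  · rintro ⟨p, hp⟩
    exact ⟨p, Finset.mem_filter.2 ⟨Finset.mem_univ _, hp⟩⟩

/-- two different corners with a property -/
theorem cn_one_lt {P : V → V → V → Prop} {p q : C.P} (h : p ≠ q)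
    (hp : P (C.v0 p) (C.v1 p) (C.v2 p)) (hq : P (C.v0 q) (C.v1 q) (C.v2 q)) : 1 < C.cn P := by
  classical
  rw [cn, Finset.one_lt_card]
  exact ⟨p, Finset.mem_filter.2 ⟨Finset.mem_univ _, hp⟩, q,
    Finset.mem_filter.2 ⟨Finset.mem_univ _, hq⟩, h⟩

/-- an injection of corners -/
theorem cn_le_of_inj {V' : Type} (C' : Cr V') {P : V → V → V → Prop} {Q : V' → V' → V' → Prop}
    (f : C.P → C'.P) (hf : ∀ p q, P (C.v0 p) (C.v1 p) (C.v2 p) → P (C.v0 q) (C.v1 q) (C.v2 q) →
      f p = f q → p = q)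
    (h : ∀ p, P (C.v0 p) (C.v1 p) (C.v2 p) → Q (C'.v0 (f p)) (C'.v1 (f p)) (C'.v2 (f p))) :
    C.cn P ≤ C'.cn Q := by
  classical
  refine Finset.card_le_card_of_injOn f (fun p hp => ?_) (fun p hp q hq e => ?_)
  · have hp' := (Finset.mem_filter.1 hp).2
    exact Finset.mem_coe.2 (Finset.mem_filter.2 ⟨Finset.mem_univ _, h p hp'⟩)
  · exact hf p q (Finset.mem_filter.1 hp).2 (Finset.mem_filter.1 hq).2 e

/-! ### slides: the kinds of corners

`S n v`: the in-arrow `n → v` is moved; `A v a`: `a` is the pole of `v` to which it is moved. -/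

variable (S A : V → V → Prop)

/-- corners `(a, v, n)`: the arrow `n → v` is moved to `a` -/
noncomputable def pn : ℕ := C.cn (fun x v y => (A v x ∧ S y v) ∨ (A v y ∧ S x v))

/-- corners `(n, v, y)`: the arrow `n → v` is moved, `y` stays and is not the pole -/
noncomputable def cut : ℕ :=
  C.cn (fun x v y => (S x v ∧ ¬ S y v ∧ ¬ A v y) ∨ (S y v ∧ ¬ S x v ∧ ¬ A v x))

/-- corners `(n, v, n')`, both arrows are moved -/
noncomputable def ssn : ℕ := C.cn (fun x v y => S x v ∧ S y v)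

/-- the number of the moved edges in the cells -/
noncomputable def mvn : ℕ := C.cn (fun x y _ => S x y ∨ S y x)

/-- the moved edges, counted at the corners at their lower ends -/
theorem mvn_eq (hSS : ∀ x y, S x y → ¬ S y x) (hSA : ∀ x v, S x v → ¬ A v x) :
    C.mvn S = C.pn S A + C.cut S A + 2 * C.ssn S := by
  classical
  have h1 : C.mvn S = C.cn (fun x y _ => S x y) + C.cn (fun _ y z => S z y) := by
    rw [mvn, C.cn_add (fun p h => hSS _ _ h), C.cn_shift (fun x y => S y x)]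
  have h2 : (C.mvn S : ℤ) = C.pn S A + C.cut S A + 2 * C.ssn S := by
    rw [h1, pn, cut, ssn]
    push_cast
    rw [cn_eq, cn_eq, cn_eq, cn_eq, cn_eq, ← cs_mul, ← cs_add, ← cs_add, ← cs_add]
    refine C.cs_congr fun p => ?_
    have a1 := hSA (C.v0 p) (C.v1 p)
    have a2 := hSA (C.v2 p) (C.v1 p)
    by_cases s1 : S (C.v0 p) (C.v1 p) <;> by_cases s2 : S (C.v2 p) (C.v1 p) <;>
      by_cases t1 : A (C.v1 p) (C.v0 p) <;> by_cases t2 : A (C.v1 p) (C.v2 p) <;> simp_all
  exact_mod_cast h2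

/-! ### arrows -/

/-- the pair `(x, y)` is a translate of `(v, a)` -/
def _root_.Pool.Agent.DI.Tr (H : Type) {V : Type} [Group H] [MulAction H V] (v a x y : V) : Prop :=
  ∃ h : H, x = h • v ∧ y = h • a

section Tr

variable {H : Type} [Group H] [MulAction H V]

theorem _root_.Pool.Agent.DI.Tr.refl (v a : V) : Tr H v a v a :=
  ⟨1, (one_smul _ _).symm, (one_smul _ _).symm⟩

theorem _root_.Pool.Agent.DI.Tr.symm {v a x y : V} (t : Tr H v a x y) : Tr H x y v a := by
  obtain ⟨h, rfl, rfl⟩ := t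
  exact ⟨h⁻¹, (inv_smul_smul _ _).symm, (inv_smul_smul _ _).symm⟩

theorem _root_.Pool.Agent.DI.Tr.trans {v a x y z w : V} (t : Tr H v a x y) (s : Tr H x y z w) :
    Tr H v a z w := by
  obtain ⟨h, rfl, rfl⟩ := t
  obtain ⟨k, rfl, rfl⟩ := s
  exact ⟨k * h, (mul_smul _ _ _).symm, (mul_smul _ _ _).symm⟩

theorem _root_.Pool.Agent.DI.Tr.smul {v a x y : V} (h : H) (t : Tr H v a x y) :
    Tr H v a (h • x) (h • y) := t.trans ⟨h, rfl, rfl⟩

theorem _root_.Pool.Agent.DI.Tr.swap {v a x y : V} (t : Tr H v a x y) : Tr H a v y x := by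
  obtain ⟨h, rfl, rfl⟩ := t
  exact ⟨h, rfl, rfl⟩

variable (H)

/-- the number of the cell edges in the orbit of the edge `(v, a)` -/
noncomputable def lam (v a : V) : ℕ := C.cn (fun x y _ => Tr H v a x y ∨ Tr H a v x y)

variable {H}

theorem lam_congr {v a x y : V} (t : Tr H v a x y) : C.lam H v a = C.lam H x y := by
  refine C.cn_congr fun p => ?_
  exact or_congr ⟨fun h => t.symm.trans h, fun h => t.trans h⟩
    ⟨fun h => t.swap.symm.trans h, fun h => t.swap.trans h⟩

theorem lam_comm (v a : V) : C.lam H v a = C.lam H a v :=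
  C.cn_congr fun _ => or_comm

theorem lam_smul (h : H) (v a : V) : C.lam H (h • v) (h • a) = C.lam H v a :=
  (C.lam_congr ⟨h, rfl, rfl⟩).symm

/-- `λ` is the number of the corners at the vertex `v`, counted with the leg -/
theorem lam_eq {v a : V} (h : ∀ x y, Tr H v a x y → ¬ Tr H a v x y) : C.lam H v a =
    C.cn (fun x y _ => Tr H v a y x) + C.cn (fun _ y z => Tr H v a y z) := by
  have h1 : C.lam H v a = C.cn (fun x y _ => Tr H v a x y) + C.cn (fun x y _ => Tr H a v x y) :=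
    C.cn_add fun p t => h _ _ t
  rw [h1, C.cn_shift (fun x y => Tr H v a x y), add_comm]
  congr 1
  exact C.cn_congr fun p => ⟨Tr.swap, Tr.swap⟩

end Tr

end Cr

end Pool.Agent.DI
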