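import Pool.Agent.DI.DTree
import Pool.Agent.DI.DLE

/-!
# Lines of groups of `D_inf` type which act on trees

`A` of type `D_inf` acts hyperbolically on a tree; its axis `mst G A` is identified with its line:
`exists_line` gives points `a n` (the places on the axis), at distance `m` from each other.
-/

namespace Pool.Agent.DI

open MulAction
open Pool.Agent.SAF (InC TAct Conv hull exists_next subset_hull hull_conv fix_of_finite_inv dist_edge)
open Pool.Agent.SAG (IO Zt)
open Pool.Agent.BT (side_or dist_cross conv_side exists_proj mst Hyp mst_conv axis finite_of_hyp)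

section

variable {H X : Type} [Group H] [MulAction H X] {G : SimpleGraph X}

theorem mst_inv {A : Subgroup H} {g : H} (hg : g ∈ A) {w : X} (hw : w ∈ mst G A) :
    g • w ∈ mst G A := fun C hC hne hA => hA g hg w (hw C hC hne hA)

theorem mst_sub {A : Subgroup H} {C : Set X} (hC : Conv G C) (hne : C.Nonempty)
    (hA : ∀ a ∈ A, ∀ c ∈ C, a • c ∈ C) : mst G A ⊆ C := fun _ hw => hw C hC hne hA

/-- elements of infinite order are hyperbolic -/
theorem hyp_io (hG : TAct H G) {A : Subgroup H} (hA : InC ↥A) (hn : Hyp X A) {t : H} (ht : t ∈ A)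
    (hio : IO t) (x : X) : t • x ≠ x := by
  intro e
  have h1 : Finite ↥(Subgroup.zpowers t) := by
    apply finite_of_hyp hG hA hn (by rw [Subgroup.zpowers_le]; exact ht) (w := x)
    rintro b ⟨n, rfl⟩
    exact zpow_smul_eq_iff_minimalPeriod_dvd.2 (by
      rw [Function.minimalPeriod_eq_one_iff_isFixedPt.2 e]
      exact one_dvd _)
  exact SAG.not_IO_finite (⟨t, Subgroup.mem_zpowers t⟩ : Subgroup.zpowers t) (io_coe.1 hio)

/-- a finite normal subgroup fixes the axis -/
theorem fix_mst (hG : TAct H G) {A : Subgroup H} (hA : InC ↥A) (hn : Hyp X A) {B : Subgroup H}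
    (hB : Finite ↥B) (hBA : B ≤ A) (hnorm : ∀ a ∈ A, ∀ b ∈ B, a⁻¹ * b * a ∈ B) {b : H}
    (hb : b ∈ B) {w : X} (hw : w ∈ mst G A) : b • w = w := by
  obtain ⟨c, hc, hcB⟩ := fix_in hG (mst_conv A) (axis hG A hA hn).2.1 hB
    (fun b hb c hc => mst_inv (hBA hb) hc)
  have h1 : mst G A ⊆ {x : X | ∀ b ∈ (B : Set H), b • x = x} := by
    apply mst_sub (fix_conv hG _) ⟨c, hcB⟩
    intro a ha x hx b hb
    have h2 := hx (a⁻¹ * b * a) (hnorm a ha b hb)
    rw [mul_smul, mul_smul, inv_smul_eq_iff] at h2
    exact h2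
  exact h1 hw b hb

end

section line

variable {H X : Type} [Group H] [MulAction H X] {G : SimpleGraph X} {A : Subgroup H} (L : DL ↥A)

/-- the points `a n` are the places of the line of `A` on its axis in the tree, at distance `m` -/
structure DL.OnTree (L : DL ↥A) (G : SimpleGraph X) (a : ℤ → X) (m : ℕ) : Prop where
  pos : 0 < m
  mem : ∀ n, a n ∈ mst G A
  smul : ∀ (g : ↥A) (n : ℤ), (g : H) • a n = a (L.act g n)
  dist : ∀ (n : ℤ) (k : ℕ), G.dist (a n) (a (n + k)) = k * m
  axis : ∀ w, w ∈ mst G A ↔ ∃ n, G.dist (a n) w + G.dist w (a (n + 1)) = m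
  fixN : ∀ g ∈ L.N, ∀ w ∈ mst G A, (g : H) • w = w
  refl : ∀ (n : ℤ) (g : ↥A) (w : X), L.Refl n g → w ∈ mst G A → (g : H) • w = w → w = a n

theorem fixN_aux (hG : TAct H G) (hA : InC ↥A) (hn : Hyp X A) {g : ↥A} (hg : g ∈ L.N) {w : X}
    (hw : w ∈ mst G A) : (g : H) • w = w := by
  have hf : Finite ↥(L.N.map A.subtype) := by
    refine Finite.of_surjective (fun x : L.N => (⟨(x.1 : H), x.1, x.2, rfl⟩ : L.N.map A.subtype)) ?_
    rintro ⟨_, x, hx, rfl⟩
    exact ⟨⟨x, hx⟩, rfl⟩
  refine fix_mst hG hA hn hf ?_ ?_ (b := (g : H)) ⟨g, hg, rfl⟩ hw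
  · rintro _ ⟨x, -, rfl⟩
    exact x.2
  · rintro a ha _ ⟨x, hx, rfl⟩
    refine ⟨(⟨a, ha⟩ : ↥A)⁻¹ * x * ⟨a, ha⟩, ?_, rfl⟩
    have := L.N_normal.conj_mem x hx (⟨a, ha⟩ : ↥A)⁻¹
    rwa [inv_inv] at this

/-- a reflection fixes one point of the axis -/
theorem refl_aux (hG : TAct H G) (hA : InC ↥A) (hn : Hyp X A) {p : ℤ} {r : ↥A} (hr : L.Refl p r)
    {u v : X} (hu : u ∈ mst G A) (hv : v ∈ mst G A) (hru : (r : H) • u = u)
    (hrv : (r : H) • v = v) : u = v := by
  by_contra hne
  have hT := hG.tree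
  have hM := mst_conv (G := G) A
  obtain ⟨u', hu', hadj, hd⟩ := Conv.nbr hT hM hu hv hne
  have hfix : ∀ x y : X, (r : H) • x = x → (r : H) • y = y → ∀ x', G.Adj x x' →
      G.dist x y = G.dist x' y + 1 → (r : H) • x' = x' := by
    intro x y hx hy x' hxx' hd'
    have h1 : G.Adj x ((r : H) • x') := by
      have := hG.adj_smul r _ _ hxx'
      rwa [hx] at this
    refine next_unique hT h1 hxx' ?_ hd'
    rw [← hG.dist_smul r x' y, hy] at hd'
    exact hd'
  have hru' : (r : H) • u' = u' := hfix u v hru hrv u' hadj hd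
  -- propagate
  have hthree := (axis hG A hA hn).2.2.1
  have hprop : ∀ x y : X, x ∈ mst G A → y ∈ mst G A → G.Adj x y → (r : H) • x = x →
      (r : H) • y = y → ∀ z ∈ mst G A, G.Adj x z → (r : H) • z = z := by
    intro x y hx hy hxy hrx hry z hz hxz
    have h1 : G.Adj x ((r : H) • z) := by
      have := hG.adj_smul r _ _ hxz
      rwa [hrx] at this
    have h2 : (r : H) • z ∈ mst G A := mst_inv r.2 hz
    rcases hthree x hx y z ((r : H) • z) hxy hxz h1 hy hz h2 with h | h | h
    · rw [← h, hry]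
    · have h3 : (r : H) • z = (r : H) • y := by rw [← h, hry]
      have h4 := smul_left_cancel _ h3
      rw [h4, hry]
    · exact h.symm
  have hall : ∀ x, Relation.ReflTransGen (fun a b => G.Adj a b ∧ a ∈ mst G A ∧ b ∈ mst G A) u x →
      x ∈ mst G A ∧ (r : H) • x = x ∧ ∃ y ∈ mst G A, G.Adj x y ∧ (r : H) • y = y := by
    intro x hx
    induction hx with
    | refl => exact ⟨hu, hru, u', hu', hadj, hru'⟩
    | tail _ e ih =>
      rename_i b c _
      obtain ⟨-, h2, y, hy, hby, hry⟩ := ih
      exact ⟨e.2.2, hprop b y e.2.1 hy hby h2 hry c e.2.2 e.1, b, e.2.1, e.1.symm, h2⟩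
  obtain ⟨t, ht, ht'⟩ := L.exists_trans 1
  have htu := (hall _ (Conv.rtg hT hM hu (mst_inv t.2 hu))).2.1
  -- `r * t * r⁻¹ = t⁻¹ * n`
  have hN : t * (r * t * r⁻¹) ∈ L.N := by
    refine ⟨by rw [map_mul, DL.ε_conj, ht, mul_one], ?_⟩
    simp only [L.τ_mul, L.τ_inv, map_mul, ht, ht', hr.1, hr.2, Units.val_neg, Units.val_one,
      Units.val_mul]
    ring
  have h1 := fixN_aux L hG hA hn hN hu
  have h2 : ((t * (r * t * r⁻¹) : ↥A) : H) • u = (t : H) • ((r : H) • ((t : H) • ((r : H)⁻¹ • u))) := by
    rw [← mul_smul, ← mul_smul, ← mul_smul]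
    congr 1
    push_cast
    group
  have h3 : (r : H)⁻¹ • u = u := by rw [inv_smul_eq_iff, hru]
  rw [h2, h3, htu, ← mul_smul] at h1
  refine hyp_io hG hA hn (A.mul_mem t.2 t.2) ?_ u h1
  have h4 : IO ((t * t : ↥A) : H) := io_coe.2 (L.io_of (by rw [map_mul, ht, mul_one]) (by
    rw [L.τ_mul, ht, ht']; decide))
  exact h4

theorem exists_line (hG : TAct H G) (hA : InC ↥A) (hn : Hyp X A) :
    ∃ (a : ℤ → X) (m : ℕ), L.OnTree G a m := by
  have hT := hG.tree
  have hM := mst_conv (G := G) A
  have hMne := (axis hG A hA hn).2.1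
  -- the places
  have hex : ∀ n : ℤ, ∃ w ∈ mst G A, ∀ g : ↥A, g ∈ L.St n → (g : H) • w = w := by
    intro n
    have hf : Finite ↥((L.St n).map A.subtype) := by
      refine Finite.of_surjective
        (fun x : L.St n => (⟨(x.1 : H), x.1, x.2, rfl⟩ : (L.St n).map A.subtype)) ?_
      rintro ⟨_, x, hx, rfl⟩
      exact ⟨⟨x, hx⟩, rfl⟩
    obtain ⟨w, hw, hfix⟩ := fix_in hG hM hMne hf (by
      rintro _ ⟨x, -, rfl⟩ c hc
      exact mst_inv x.2 hc)
    exact ⟨w, hw, fun g hg => hfix g ⟨g, hg, rfl⟩⟩
  choose a haM hafix using hex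
  have hfixN : ∀ g ∈ L.N, ∀ w ∈ mst G A, (g : H) • w = w := fun g hg w hw =>
    fixN_aux L hG hA hn hg hw
  have hrefl : ∀ (n : ℤ) (g : ↥A) (w : X), L.Refl n g → w ∈ mst G A → (g : H) • w = w →
      w = a n := by
    intro n g w hg hw hgw
    exact refl_aux L hG hA hn hg hw (haM n) hgw (hafix n g (L.mem_St_iff.2 (Or.inr hg)))
  have hsmul : ∀ (g : ↥A) (n : ℤ), (g : H) • a n = a (L.act g n) := by
    intro g n
    obtain ⟨r, hr⟩ := L.exists_refl n
    refine hrefl _ (g * r * g⁻¹) _ (hr.conj g) (mst_inv g.2 (haM n)) ?_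
    have h1 : (r : H) • a n = a n := hafix n r (L.mem_St_iff.2 (Or.inr hr))
    show ((g : H) * (r : H) * (g : H)⁻¹) • (g : H) • a n = (g : H) • a n
    rw [mul_smul, mul_smul, inv_smul_smul, h1]
  -- consecutive distances
  have hd1 : ∀ n : ℤ, G.dist (a (n + 1)) (a (n + 2)) = G.dist (a n) (a (n + 1)) := by
    intro n
    obtain ⟨r, hr⟩ := L.exists_refl (n + 1)
    have e1 : L.act r (n + 1) = n + 1 := hr.fix
    have e2 : L.act r n = n + 2 := by rw [hr.act]; ring
    have h1 := hG.dist_smul (r : H) (a n) (a (n + 1))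
    rw [hsmul, hsmul, e1, e2, SimpleGraph.dist_comm] at h1
    exact h1
  obtain ⟨m, hm⟩ : ∃ m, m = G.dist (a 0) (a 1) := ⟨_, rfl⟩
  have hd : ∀ n : ℤ, G.dist (a n) (a (n + 1)) = m := by
    intro n
    induction n using Int.induction_on with
    | zero => rw [hm, zero_add]
    | succ i ih =>
      rw [show (i : ℤ) + 1 + 1 = i + 2 by ring, hd1, ih]
    | pred i ih =>
      have := hd1 (-(i : ℤ) - 1)
      rw [show -(i : ℤ) - 1 + 1 = -i by ring, show -(i : ℤ) - 1 + 2 = -i + 1 by ring, ih] at this
      rw [show -(i : ℤ) - 1 + 1 = -i by ring]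
      exact this.symm
  have hpos : 0 < m := by
    rw [Nat.pos_iff_ne_zero]
    intro h0
    have h1 : a 0 = a 1 := by
      have := hd 0
      rw [h0, zero_add] at this
      exact hT.connected.dist_eq_zero_iff.1 this
    have h2 : ∀ g ∈ L.St 0 ⊔ L.St 1, (g : H) • a 0 = a 0 := by
      intro g hg
      have h3 : L.St 0 ⊔ L.St 1 ≤ (stabilizer H (a 0)).comap A.subtype := by
        apply sup_le
        · intro g hg
          exact hafix 0 g hg
        · intro g hg
          show (g : H) • a 0 = a 0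
          rw [h1]
          exact hafix 1 g hg
      exact h3 hg
    obtain ⟨g, hg, hne⟩ := hn (a 0)
    apply hne
    have h3 := L.sup_St 0
    rw [zero_add] at h3
    exact h2 ⟨g, hg⟩ (by rw [h3]; exact Subgroup.mem_top _)
  -- two steps
  have hd2 : ∀ n : ℤ, G.dist (a n) (a (n + 2)) = G.dist (a n) (a (n + 1)) +
      G.dist (a (n + 1)) (a (n + 2)) := by
    intro n
    obtain ⟨r, hr⟩ := L.exists_refl (n + 1)
    have e1 : L.act r (n + 1) = n + 1 := hr.fix
    have e2 : L.act r n = n + 2 := by rw [hr.act]; ring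
    have e3 : L.act r (n + 2) = n := by rw [hr.act]; ring
    have hrz : (r : H) • a (n + 1) = a (n + 1) := by rw [hsmul, e1]
    have hrx : (r : H) • a n = a (n + 2) := by rw [hsmul, e2]
    have hry : (r : H) • a (n + 2) = a n := by rw [hsmul, e3]
    -- project `a (n+1)` to the segment
    have hCc : Conv G (hull G ({a n, a (n + 2)} : Set X)) := hull_conv hT _
    obtain ⟨c, ⟨hc, hpr⟩, -⟩ := exists_proj hT hCc
      ⟨a n, subset_hull _ (Or.inl rfl)⟩ (a (n + 1))
    have hsub : hull G ({a n, a (n + 2)} : Set X) ⊆ mst G A := by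
      apply Conv.hull_sub hM
      rintro _ (rfl | rfl)
      · exact haM n
      · exact haM (n + 2)
    have hrc : (r : H) • c ∈ hull G ({a n, a (n + 2)} : Set X) := by
      have h1 := hG.hull_smul (r : H) _ _ hc
      have h2 : (fun x => (r : H) • x) '' ({a n, a (n + 2)} : Set X) = {a n, a (n + 2)} := by
        rw [Set.image_pair, hrx, hry, Set.pair_comm]
      rwa [h2] at h1
    have h3 : (r : H) • c = c := fix_proj hG hpr hrz hrc
    have h4 : c = a (n + 1) := hrefl (n + 1) r c hr (hsub hc) h3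
    rw [h4] at hc
    obtain ⟨x, hx, y, hy, e⟩ := hc
    have e4 : G.dist (a (n + 1)) (a n) = m := by rw [SimpleGraph.dist_comm]; exact hd n
    have e5 : G.dist (a n) (a (n + 1)) = m := hd n
    have e6 : G.dist (a (n + 1)) (a (n + 2)) = m := by
      have := hd (n + 1)
      rwa [show n + 1 + 1 = n + 2 by ring] at this
    have e7 : G.dist (a (n + 2)) (a (n + 1)) = m := by rw [SimpleGraph.dist_comm]; exact e6
    rcases hx with rfl | rfl <;> rcases hy with rfl | rfl
    · rw [SimpleGraph.dist_self] at e; omega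
    · omega
    · rw [SimpleGraph.dist_comm (u := a (n + 2)) (v := a n)] at e; omega
    · rw [SimpleGraph.dist_self] at e; omega
  have hne1 : ∀ n : ℤ, a n ≠ a (n + 1) := by
    intro n e
    have := hd n
    rw [← e, SimpleGraph.dist_self] at this
    omega
  have hdist : ∀ (k : ℕ) (n : ℤ), G.dist (a n) (a (n + k)) = k * m := by
    intro k
    induction k with
    | zero =>
      intro n
      rw [Nat.cast_zero, add_zero, SimpleGraph.dist_self, zero_mul]
    | succ k ih =>
      intro n
      rcases k with _ | k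
      · rw [show (n + ((0 + 1 : ℕ) : ℤ)) = n + 1 by push_cast; ring, hd, zero_add, one_mul]
      · have h1 := ih n
        have h2 := hd2 (n + k)
        have h3 : G.dist (a n) (a (n + k + 1)) = G.dist (a n) (a (n + k)) +
            G.dist (a (n + k)) (a (n + k + 1)) := by
          by_cases hk : k = 0
          · subst hk
            rw [Nat.cast_zero, add_zero, SimpleGraph.dist_self, zero_add]
          · -- from the induction hypothesis
            have h4 : G.dist (a n) (a (n + k + 1)) = (k + 1) * m := by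
              have := h1
              rw [show n + ((k + 1 : ℕ) : ℤ) = n + k + 1 by push_cast; ring] at this
              exact this
            have h5 : G.dist (a (n + k)) (a (n + k + 1)) = m := hd _
            have h6 : G.dist (a n) (a (n + k)) ≤ k * m := by
              clear h1 h2 h4 h5 ih hk
              induction k with
              | zero => rw [Nat.cast_zero, add_zero, SimpleGraph.dist_self]; exact Nat.zero_le _
              | succ k ih =>
                have t1 : G.dist (a n) (a (n + (k + 1 : ℕ))) ≤ G.dist (a n) (a (n + k)) +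
                    G.dist (a (n + k)) (a (n + (k + 1 : ℕ))) := hT.connected.dist_triangle
                have t2 : G.dist (a (n + k)) (a (n + (k + 1 : ℕ))) = m := by
                  have := hd (n + k)
                  rwa [show n + (k : ℤ) + 1 = n + ((k + 1 : ℕ) : ℤ) by push_cast; ring] at this
                calc _ ≤ _ := t1
                  _ ≤ k * m + m := by rw [t2]; exact Nat.add_le_add_right ih _
                  _ = (k + 1) * m := by ring
            have t3 : G.dist (a n) (a (n + k + 1)) ≤ G.dist (a n) (a (n + k)) +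
                G.dist (a (n + k)) (a (n + k + 1)) := hT.connected.dist_triangle
            have e8 : (k + 1) * m = k * m + m := by ring
            omega
        have h7 := seg_concat hT (hne1 (n + k)) h3 (by
          rw [show n + (k : ℤ) + 2 = n + k + 2 by ring] at h2
          exact h2)
        have h8 : G.dist (a (n + k + 1)) (a (n + k + 2)) = m := by
          have := hd (n + k + 1)
          rwa [show n + (k : ℤ) + 1 + 1 = n + k + 2 by ring] at this
        rw [show n + ((k + 1 + 1 : ℕ) : ℤ) = n + k + 2 by push_cast; ring, h7, h8,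
          show n + (k : ℤ) + 1 = n + ((k + 1 : ℕ) : ℤ) by push_cast; ring, h1]
        ring
  -- the axis
  have haxis : ∀ w, w ∈ mst G A ↔ ∃ n, G.dist (a n) w + G.dist w (a (n + 1)) = m := by
    intro w
    constructor
    · have hsegs : ∀ (k : ℕ) (n : ℤ) (w : X), G.dist (a n) w + G.dist w (a (n + k)) =
          G.dist (a n) (a (n + k)) → ∃ n, G.dist (a n) w + G.dist w (a (n + 1)) = m := by
        intro k
        induction k with
        | zero =>
          intro n w hw
          rw [Nat.cast_zero, add_zero, SimpleGraph.dist_self] at hw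
          have h1 : a n = w := hT.connected.dist_eq_zero_iff.1 (by omega)
          exact ⟨n, by rw [← h1, SimpleGraph.dist_self, zero_add, hd]⟩
        | succ k ih =>
          intro n w hw
          have h1 : G.dist (a n) (a (n + 1)) + G.dist (a (n + 1)) (a (n + (k + 1 : ℕ))) =
              G.dist (a n) (a (n + (k + 1 : ℕ))) := by
            rw [hd, hdist, show n + ((k + 1 : ℕ) : ℤ) = n + 1 + (k : ℤ) by push_cast; ring,
              hdist]
            ring
          rcases seg_split hT h1 hw with h2 | h2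
          · exact ⟨n, by rw [h2, hd]⟩
          · rw [show n + ((k + 1 : ℕ) : ℤ) = n + 1 + (k : ℤ) by push_cast; ring] at h2
            exact ih (n + 1) w h2
      have hC : Conv G {w | ∃ n, G.dist (a n) w + G.dist w (a (n + 1)) = m} := by
        -- between two points of the line
        have hbig : ∀ x ∈ {w | ∃ n, G.dist (a n) w + G.dist w (a (n + 1)) = m},
            ∃ K : ℕ, ∀ k : ℕ, K ≤ k → G.dist (a (-k)) x + G.dist x (a (-k + (2 * k : ℕ))) =
              G.dist (a (-k)) (a (-k + (2 * k : ℕ))) := by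
          rintro x ⟨n, hx⟩
          refine ⟨n.natAbs + 1, fun k hk => ?_⟩
          have hxn : G.dist (a n) x + G.dist x (a (n + 1)) = G.dist (a n) (a (n + 1)) := by
            rw [hx, hd]
          obtain ⟨i, hi⟩ : ∃ i : ℕ, -(k : ℤ) + i = n := ⟨(n + k).toNat, by omega⟩
          obtain ⟨j, hj⟩ : ∃ j : ℕ, n + 1 + (j : ℤ) = -(k : ℤ) + (2 * k : ℕ) :=
            ⟨(k - n - 1).toNat, by omega⟩
          have t1 := hdist i (-(k : ℤ))
          rw [hi] at t1
          have t2 := hdist j (n + 1)
          rw [hj] at t2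
          have t3 := hdist (2 * k) (-(k : ℤ))
          have hk2 : 2 * k = i + 1 + j := by omega
          have u1 : G.dist (a (-k)) x ≤ G.dist (a (-k)) (a n) + G.dist (a n) x :=
            hT.connected.dist_triangle
          have u2 : G.dist x (a (-k + (2 * k : ℕ))) ≤ G.dist x (a (n + 1)) +
            G.dist (a (n + 1)) (a (-k + (2 * k : ℕ))) := hT.connected.dist_triangle
          have u3 : G.dist (a (-k)) (a (-k + (2 * k : ℕ))) ≤ G.dist (a (-k)) x +
            G.dist x (a (-k + (2 * k : ℕ))) := hT.connected.dist_triangle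
          have e9 : 2 * k * m = i * m + m + j * m := by rw [hk2]; ring
          rw [t3]
          rw [t3] at u3
          rw [hd] at hxn
          omega
        intro x hx y hy w hw
        obtain ⟨K1, h1⟩ := hbig x hx
        obtain ⟨K2, h2⟩ := hbig y hy
        obtain ⟨k, hk1, hk2⟩ : ∃ k, K1 ≤ k ∧ K2 ≤ k := ⟨K1 + K2, by omega, by omega⟩
        have hx' : x ∈ hull G ({a (-k), a (-k + (2 * k : ℕ))} : Set X) :=
          ⟨_, Or.inl rfl, _, Or.inr rfl, h1 k hk1⟩
        have hy' : y ∈ hull G ({a (-k), a (-k + (2 * k : ℕ))} : Set X) :=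
          ⟨_, Or.inl rfl, _, Or.inr rfl, h2 k hk2⟩
        obtain ⟨b, hb, c, hc, e⟩ := hull_conv hT _ x hx' y hy' w hw
        have hz : ∀ n : ℤ, ∀ z, G.dist (a n) z + G.dist z (a n) = G.dist (a n) (a n) → 
            ∃ n, G.dist (a n) z + G.dist z (a (n + 1)) = m := by
          intro n z h
          rw [SimpleGraph.dist_self] at h
          have h1 : a n = z := hT.connected.dist_eq_zero_iff.1 (by omega)
          exact ⟨n, by rw [← h1, SimpleGraph.dist_self, zero_add, hd]⟩
        rcases hb with rfl | rfl <;> rcases hc with rfl | rfl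
        · exact hz _ _ e
        · exact hsegs _ _ _ e
        · apply hsegs (2 * k) (-k) w
          rw [SimpleGraph.dist_comm (u := a (-k + (2 * k : ℕ))) (v := w),
            SimpleGraph.dist_comm (u := w) (v := a (-k)),
            SimpleGraph.dist_comm (u := a (-k + (2 * k : ℕ))) (v := a (-k))] at e
          omega
        · exact hz _ _ e
      intro hw
      apply mst_sub hC ⟨a 0, 0, by rw [SimpleGraph.dist_self, zero_add, hd]⟩ ?_ hw
      rintro g hg x ⟨n, hx⟩
      have h1 : G.dist (g • a n) (g • x) + G.dist (g • x) (g • a (n + 1)) = m := by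
        rw [hG.dist_smul, hG.dist_smul, hx]
      have e1 : g • a n = a (L.act ⟨g, hg⟩ n) := hsmul ⟨g, hg⟩ n
      have e2 : g • a (n + 1) = a (L.act ⟨g, hg⟩ (n + 1)) := hsmul ⟨g, hg⟩ (n + 1)
      have h3 := L.act_sub ⟨g, hg⟩ (n + 1) n
      rw [e1, e2] at h1
      rcases L.ε_cases ⟨g, hg⟩ with h | h
      · rw [h, Units.val_one] at h3
        refine ⟨L.act ⟨g, hg⟩ n, ?_⟩
        rw [show L.act ⟨g, hg⟩ n + 1 = L.act ⟨g, hg⟩ (n + 1) by omega]
        exact h1
      · rw [h, Units.val_neg, Units.val_one] at h3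
        refine ⟨L.act ⟨g, hg⟩ (n + 1), ?_⟩
        rw [show L.act ⟨g, hg⟩ (n + 1) + 1 = L.act ⟨g, hg⟩ n by omega]
        have c1 : G.dist (a (L.act ⟨g, hg⟩ (n + 1))) (g • x) =
          G.dist (g • x) (a (L.act ⟨g, hg⟩ (n + 1))) := SimpleGraph.dist_comm
        have c2 : G.dist (a (L.act ⟨g, hg⟩ n)) (g • x) =
          G.dist (g • x) (a (L.act ⟨g, hg⟩ n)) := SimpleGraph.dist_comm
        omega
    · rintro ⟨n, hn'⟩
      exact hM _ (haM n) _ (haM (n + 1)) w (by rw [hn', hd])
  exact ⟨a, m, hpos, haM, hsmul, fun n k => hdist k n, haxis, hfixN, hrefl⟩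

end line

end Pool.Agent.DI
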