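import Pool.Agent.DI.XQ
import Pool.Agent.DI.SeenQ

/-!
# [LINE]: the sinks of a good system are points and lines

`mst_line`: every point of the minimal invariant subtree of a group without fixed point has two
neighbours in it. `mst_two_eq`: they are the only ones. `SyQ.SinkH.line2`, `line_two`: the same for
the sinks with `SinkH`. `SyQ.GdQ.sinkH`: a good system with `LC` at the sinks has `SinkH`.
-/

namespace Pool.Agent.DI

open MulAction
open Pool.Agent.SAF (InC orbs FinOrb oc Decomp SAn SA Conv hull dist_edge FinOrb_iff exists_next TAct)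
open Pool.Agent.SAG (IO Zt)
open Pool.Agent.BT (PX PQ JS bey exits mst Hyp Ell finite_of_hyp mst_conv axis)
open Pool.Agent.BT.TA

section

variable {H X : Type} [Group H] [MulAction H X] {G : SimpleGraph X}

/-- every point of the minimal invariant subtree has two neighbours in it -/
theorem mst_line (hG : TAct H G) {A : Subgroup H} (hn : Hyp X A) {p : X} (hp : p ∈ mst G A) :
    ∃ a b, a ∈ mst G A ∧ b ∈ mst G A ∧ G.Adj p a ∧ G.Adj p b ∧ a ≠ b := by
  have hT := hG.tree
  have hc := mst_conv (G := G) A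
  by_contra hcon
  let En : X → Prop := fun q => ∀ a b, a ∈ mst G A → b ∈ mst G A → G.Adj q a → G.Adj q b → a = b
  have hEp : En p := by
    intro a b ha hb h1 h2
    by_contra hab
    exact hcon ⟨a, b, ha, hb, h1, h2, hab⟩
  let C : Set X := {q | q ∈ mst G A ∧ ¬ En q}
  have hCc : Conv G C := by
    intro a ha b hb q hq
    have hq1 : q ∈ mst G A := hc a ha.1 b hb.1 q hq
    by_cases hqa : q = a
    · rw [hqa]; exact ha
    by_cases hqb : q = b
    · rw [hqb]; exact hb
    refine ⟨hq1, fun hE => ?_⟩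
    obtain ⟨a', ha', h1, h2⟩ := Conv.nbr hT hc hq1 ha.1 hqa
    obtain ⟨b', hb', h3, h4⟩ := Conv.nbr hT hc hq1 hb.1 hqb
    have e := hE a' b' ha' hb' h1 h3
    subst e
    have h5 : G.dist a b ≤ G.dist a a' + G.dist a' b := hT.connected.dist_triangle
    have h6 : G.dist a q = G.dist q a := SimpleGraph.dist_comm
    have h7 : G.dist a a' = G.dist a' a := SimpleGraph.dist_comm
    omega
  have hCA : ∀ g ∈ A, ∀ c ∈ C, g • c ∈ C := by
    rintro g hg c ⟨h1, h2⟩
    refine ⟨mst_inv hg h1, fun hE => h2 ?_⟩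
    intro a b ha hb h3 h4
    have := hE (g • a) (g • b) (mst_inv hg ha) (mst_inv hg hb) (hG.adj_smul g _ _ h3)
      (hG.adj_smul g _ _ h4)
    exact smul_left_cancel g this
  by_cases hne : C.Nonempty
  · exact (mst_sub hCc hne hCA hp).2 hEp
  · -- all points are ends
    have hall : ∀ q, q ∈ mst G A → En q := by
      intro q hq
      by_contra hE
      exact hne ⟨q, hq, hE⟩
    obtain ⟨g, hg, hgp⟩ := hn p
    obtain ⟨u, hu, hu1, -⟩ := Conv.nbr hT hc hp (mst_inv hg hp) (Ne.symm hgp)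
    have hsub : mst G A ⊆ {p, u} := by
      intro q hq
      by_contra hcq
      simp only [Set.mem_insert_iff, Set.mem_singleton_iff, not_or] at hcq
      obtain ⟨u1, k1, k2, k3⟩ := Conv.nbr hT hc hp hq (Ne.symm hcq.1)
      obtain ⟨u2, l1, l2, l3⟩ := Conv.nbr hT hc hu hq (Ne.symm hcq.2)
      have e1 := hEp u1 u k1 hu k2 hu1
      subst e1
      have e2 := hall u1 k1 u2 p l1 hp l2 hu1.symm
      subst e2
      omega
    have hf : (mst G A).Finite := (Set.toFinite {p, u}).subset hsub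
    obtain ⟨c, hc⟩ := Pool.Agent.SAF.fix_of_finite_inv hG (mst G A) hf ⟨p, hp⟩
    obtain ⟨g, hg, hgc⟩ := hn c
    exact hgc (hc g (fun o ho => mst_inv hg ho))

end

namespace SyQ

variable {H V : Type} [Group H] [MulAction H V] {S : SyQ H V}

/-- every point of a sink with an edge has two neighbours at the sink -/
theorem SinkH.line (hS : S.SinkH) {y : V} (hy : ∀ a, ¬ S.K.ar y a) {q u : S.X} (hq : q ∈ S.J y)
    (hu : u ∈ S.J y) (hqu : q ≠ u) {p : S.X} (hp : p ∈ S.J y) :
    ∃ a b, a ∈ S.J y ∧ b ∈ S.J y ∧ S.D.G.Adj p a ∧ S.D.G.Adj p b ∧ a ≠ b := by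
  rcases hS.ty y hy with ⟨r, hr⟩ | ⟨h1, h2, -⟩
  · rw [hr] at hq hu
    exact absurd ((Set.mem_singleton_iff.1 hq).trans (Set.mem_singleton_iff.1 hu).symm) hqu
  · rw [h2] at hp ⊢
    exact mst_line S.D.tact h1 hp

/-- every point of a sink has at most two neighbours at the sink -/
theorem SinkH.line_two (hS : S.SinkH) {y : V} (hy : ∀ a, ¬ S.K.ar y a) {p a b c : S.X}
    (hp : p ∈ S.J y) (ha : a ∈ S.J y) (hb : b ∈ S.J y) (hc : c ∈ S.J y) (h1 : S.D.G.Adj p a)
    (h2 : S.D.G.Adj p b) (h3 : S.D.G.Adj p c) : a = b ∨ a = c ∨ b = c := by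
  rcases hS.ty y hy with ⟨r, hr⟩ | ⟨k1, k2, -⟩
  · rw [hr] at hp ha
    rw [Set.mem_singleton_iff.1 hp, Set.mem_singleton_iff.1 ha] at h1
    exact absurd rfl h1.ne
  · rw [k2] at hp ha hb hc
    exact (axis S.D.tact _ (S.K.stab y) k1).2.2.1 p hp a b c h1 h2 h3 ha hb hc

/-- a sink with an edge at `p` has exactly two -/
theorem SinkH.line_ex (hS : S.SinkH) {y : V} (hy : ∀ a, ¬ S.K.ar y a) {p u : S.X}
    (hp : p ∈ S.J y) (hu : u ∈ S.J y) (hpu : S.D.G.Adj p u) :
    ∃ v, v ∈ S.J y ∧ S.D.G.Adj p v ∧ v ≠ u ∧ ∀ x, x ∈ S.J y → S.D.G.Adj p x → x = u ∨ x = v := by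
  obtain ⟨a, b, ha, hb, h1, h2, hab⟩ := hS.line hy hp hu hpu.ne hp
  have key : ∀ v, v ∈ S.J y → S.D.G.Adj p v → v ≠ u → ∃ v, v ∈ S.J y ∧ S.D.G.Adj p v ∧ v ≠ u ∧
      ∀ x, x ∈ S.J y → S.D.G.Adj p x → x = u ∨ x = v := by
    intro v hv hpv hne
    refine ⟨v, hv, hpv, hne, fun x hx hpx => ?_⟩
    rcases hS.line_two hy hp hu hv hx hpu hpv hpx with k | k | k
    · exact absurd k.symm hne
    · exact Or.inl k.symm
    · exact Or.inr k.symm
  by_cases hau : a = u
  · exact key b hb h2 (fun k => hab (hau.trans k.symm))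
  · exact key a ha h1 hau

/-- [LINE]: the sinks of a good system -/
theorem GdQ.sinkH {Z : V → Prop} (hg : S.GdQ Z)
    (hlc : ∀ y, (∀ a, ¬ S.K.ar y a) → S.K.LC y) : S.SinkH := by
  refine ⟨hlc, fun y hy => ?_⟩
  by_cases he : Ell H S.X y
  · exact Or.inl (hg.one y hy he)
  · have hn : Hyp S.X (stabilizer H y) := by
      unfold Ell at he
      push Not at he
      exact he
    have hi : Infinite ↥(stabilizer H y) := by
      by_contra hcon
      rw [not_infinite_iff_finite] at hcon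
      have := S.D.tree.connected.nonempty
      obtain ⟨c, hc⟩ := Pool.Agent.SAG.fix_of_finite S.D.tact _ hcon
      exact he ⟨c, hc⟩
    refine Or.inr ⟨hn, hg.ax y hy he, ?_⟩
    by_cases hz : Zt ↥(stabilizer H y)
    · exact Or.inr ⟨hi, hz⟩
    · exact Or.inl ⟨S.K.stab y, hi, hz⟩

end SyQ

end Pool.Agent.DI
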