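import Pool.Agent.DI.OQGd
import Mathlib.Data.DFinsupp.WellFounded

/-!
# DI/MuJ: placement of a system on a fixed tree, by lexicographic crossing numbers

`GJ K D J`: `J` is a system for the pre-complex `K` on the tree `D`; elliptic sinks have one point,
hyperbolic sinks their axis, heavy arrows have both ends at one point. `mu_r J` is the number of orbits
of pairs `(x, w)`, `rk x = r`, `w ∈ J x`, `J x` not a point. If `J x = {p}`, `H_x` fixes `p'` next to
`p`, all poles and all pages (in-arrows) of `x` contain `p'`, and there is a page, then moving `x` to `p'`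
lowers `(mu_0, mu_1, ...)` lexicographically (`GJ.step`). So there is a system in which this does not
occur (`GJ.exists_min`).
-/

namespace Pool.Agent.DI

open MulAction
open Pool.Agent.SAF (InC orbs FinOrb oc Decomp SAn SA Conv exists_cut exists_next FinOrb_iff TAct
  oc_mono oc_lt_of_inj)
open Pool.Agent.BT (PX PQ JS bey exits MinSub Ell mst Hyp Lq mst_conv axis bey_irr_l
  x_next_unique conv_tri_q QDat IsJQ jq_status exists_jq)
open Pool.Agent.BT.TA

variable {H V : Type} [Group H] [MulAction H V]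

/-- good systems, without connectedness and without the condition on finite sinks -/
structure GJ (K : PQ H V) (D : Decomp H) (J : V → Set D.X) : Prop where
  js : JS K D J
  fin : ∀ x, Ell H D.X x → (J x).Finite
  one : ∀ z, (∀ a, ¬ K.ar z a) → Ell H D.X z → ∃ p, J z = {p}
  ax : ∀ z, (∀ a, ¬ K.ar z a) → ¬ Ell H D.X z → J z = mst D.G (stabilizer H z)
  tog : ∀ x a, K.ar x a → Infinite ↥(stabilizer H ((x, a) : V × V)) → ∃ p, J x = {p} ∧ J a = {p}

/-- the crossing edges of a soft vertex -/
theorem js_cross_iff {K : PQ H V} {D : Decomp H} {J : V → Set D.X} (js : JS K D J) {x : V}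
    (hx : ∃ a, K.ar x a) {w w' : D.X} (e : D.G.Adj w w') :
    (w ∈ J x ∧ w' ∈ J x) ↔ ∃ a b, K.ar x a ∧ K.ar x b ∧ J a ⊆ bey D.G w w' ∧
      J b ⊆ bey D.G w' w := by
  constructor
  · rintro ⟨h1, h2⟩
    obtain ⟨a, ha, ha'⟩ := js.cross x hx w w' e h1 h2
    obtain ⟨b, hb, hb'⟩ := js.cross x hx w' w e.symm h2 h1
    exact ⟨a, b, ha, hb, ha', hb'⟩
  · rintro ⟨a, b, ha, hb, h1, h2⟩
    obtain ⟨p, hp⟩ := js.one x a (Or.inl ha)
    obtain ⟨r, hr⟩ := js.one x b (Or.inl hb)
    have hp' : p ∈ J x ∩ J a := by rw [hp]; rfl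
    have hr' : r ∈ J x ∩ J b := by rw [hr]; rfl
    exact conv_cr D.tree (js.conv x) e hr'.1 hp'.1 (h2 hr'.2) (h1 hp'.2)

/-- the set counted by `mu_r` -/
def muS (K : PQ H V) {D : Decomp H} (J : V → Set D.X) (r : ℕ) : Set (V × D.X) :=
  {y | K.rk y.1 = r ∧ y.2 ∈ J y.1 ∧ ∃ w, w ∈ J y.1 ∧ w ≠ y.2}

/-- the crossing numbers -/
noncomputable def muN (K : PQ H V) {D : Decomp H} (J : V → Set D.X) (r : ℕ) : ℕ :=
  oc H (muS K J r)

theorem muS_smul {K : PQ H V} {D : Decomp H} {J : V → Set D.X} (js : JS K D J) {r : ℕ} (h : H)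
    {y : V × D.X} (hy : y ∈ muS K J r) : h • y ∈ muS K J r := by
  obtain ⟨h1, h2, w, h3, h4⟩ := hy
  refine ⟨?_, js.smul h _ _ h2, h • w, js.smul h _ _ h3, ?_⟩
  · show K.rk (h • y.1) = r
    rw [K.rk_smul]
    exact h1
  · intro e
    exact h4 (smul_left_cancel h e)

theorem muS_fin {K : PQ H V} {D : Decomp H} {J : V → Set D.X} (js : JS K D J) (r : ℕ) :
    FinOrb H (muS K J r) := js.fin.mono (fun _ h => h.2.1)

/-- the stabiliser of `x` fixes the point of `x` -/
theorem js_fix {K : PQ H V} {D : Decomp H} {J : V → Set D.X} (js : JS K D J) {x : V} {p : D.X}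
    (hp : J x = {p}) {h : H} (hh : h • x = x) : h • p = p := by
  have h1 : p ∈ J x := by rw [hp]; rfl
  have h2 := js.smul h x p h1
  rw [hh, hp] at h2
  exact h2

theorem js_pt_smul {K : PQ H V} {D : Decomp H} {J : V → Set D.X} (js : JS K D J) {x : V} {p : D.X}
    (hp : J x = {p}) (h : H) : J (h • x) = {h • p} := by
  ext y
  rw [Set.mem_singleton_iff, ← inv_smul_eq_iff (g := h), ← Set.mem_singleton_iff, ← hp]
  have := mem_js_iff js h x (h⁻¹ • y)
  rw [smul_inv_smul] at this
  exact this

/-- an edge whose ends are on different sides of `u u'` is the edge `u u'` -/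
theorem mj_edge {X : Type} {G : SimpleGraph X} (hG : G.IsTree) {a b u u' : X} (h : G.Adj a b)
    (e : G.Adj u u') (h1 : a ∈ bey G u' u) (h2 : b ∈ bey G u u') : u = a ∧ u' = b := by
  have h3 : G.dist a u' = G.dist a u + 1 := h1
  have h4 : G.dist b u = G.dist b u' + 1 := h2
  have h5 := Pool.Agent.BT.dist_cross hG e h3 h4
  have h6 : G.dist a b = 1 := SimpleGraph.dist_eq_one_iff_adj.2 h
  have h7 : G.dist a u = 0 := by omega
  have h8 : G.dist u' b = 0 := by omega
  exact ⟨((hG.connected.dist_eq_zero_iff).1 h7).symm, (hG.connected.dist_eq_zero_iff).1 h8⟩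

/-- THE STEP -/
theorem GJ.step {K : PQ H V} (hst : ∀ v : V, InC ↥(stabilizer H v)) {D : Decomp H}
    (hsoft : ∀ x a, K.ar x a → Ell H D.X x) {J : V → Set D.X} (g : GJ K D J) {x0 : V}
    {p p1 : D.X} (hJ0 : J x0 = {p}) (hadj : D.G.Adj p p1)
    (hfix : ∀ h : H, h • x0 = x0 → h • p1 = p1) (hpole : ∀ a, K.ar x0 a → p1 ∈ J a)
    (hpage : ∃ n, K.ar n x0) (hall : ∀ n, K.ar n x0 → p1 ∈ J n) :
    ∃ J', GJ K D J' ∧ ∃ r, (∀ i, i < r → muN K J' i = muN K J i) ∧ muN K J' r < muN K J r := by
  classical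
  have hne : Nonempty D.X := D.tree.connected.nonempty
  have js := g.js
  obtain ⟨q, hq1, hq2⟩ := oe_equi (H := H) (V := V) (X := D.X)
    (E := fun x => Ell H D.X x) (P := fun x w => (∀ k : H, k • x0 = x → w = k • p1) ∧
      ((∀ k : H, k • x0 ≠ x) → ∀ s, J x = {s} → w = s))
    (fun h x hx => ell_smul hx h) (by
      rintro h x w ⟨h1, h2⟩
      refine ⟨?_, ?_⟩
      · intro k hk
        have := h1 (h⁻¹ * k) (by rw [mul_smul, hk, inv_smul_smul])
        rw [this, mul_smul, smul_inv_smul]
      · intro hn s hs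
        have h3 : J x = {h⁻¹ • s} := by
          have := js_pt_smul js hs h⁻¹
          rwa [inv_smul_smul] at this
        have := h2 (fun k hk => hn (h * k) (by rw [mul_smul, hk])) _ h3
        rw [this, smul_inv_smul]) (by
      intro x hx
      by_cases h0 : ∃ k : H, k • x0 = x
      · obtain ⟨k, rfl⟩ := h0
        have key : ∀ k' : H, k' • x0 = k • x0 → k' • p1 = k • p1 := by
          intro k' hk'
          have h1 := hfix (k⁻¹ * k') (by rw [mul_smul, hk', inv_smul_smul])
          rw [mul_smul, inv_smul_eq_iff] at h1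
          exact h1
        refine ⟨k • p1, ⟨fun k' hk' => (key k' hk').symm, fun hn => absurd rfl (hn k)⟩, ?_⟩
        intro h hh
        have hh' : h • k • x0 = k • x0 := hh
        have := key (h * k) (by rw [mul_smul]; exact hh')
        rwa [mul_smul] at this
      · push Not at h0
        by_cases hs : ∃ s, J x = {s}
        · obtain ⟨s, hs⟩ := hs
          refine ⟨s, ⟨fun k hk => absurd hk (h0 k), fun _ s' hs' => ?_⟩, ?_⟩
          · exact Set.singleton_injective (hs.symm.trans hs')
          · intro h hh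
            exact js_fix js hs hh
        · obtain ⟨y, hy⟩ := hx
          exact ⟨y, ⟨fun k hk => absurd hk (h0 k), fun _ s hs' => absurd ⟨s, hs'⟩ hs⟩, hy⟩)
  have hQ : QDat K D (Lq H q) q := qdat_lq hst hsoft q hq1
  obtain ⟨J', hJ', js', hfin⟩ := exists_jq K D _ q hQ
  have hLe : ∀ x, Ell H D.X x → Lq H q x = {q x} := fun x h => if_pos h
  have hLh : ∀ x, ¬ Ell H D.X x → Lq H q x = mst D.G (stabilizer H x) := fun x h => if_neg h
  have hpt : ∀ {x : V} {s : D.X}, J x = {s} → Ell H D.X x := fun {x s} hs =>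
    ⟨s, fun h hh => js_fix js hs hh⟩
  have hpp : p ∈ J x0 := by rw [hJ0]; rfl
  have hE0 := hpt hJ0
  -- the least rank of a page
  have hex : ∃ r, ∃ n, K.ar n x0 ∧ K.rk n = r := by
    obtain ⟨n, hn⟩ := hpage
    exact ⟨_, n, hn, rfl⟩
  obtain ⟨n0, hn0, hr0⟩ := Nat.find_spec hex
  set r1 := Nat.find hex with hr1
  have hmin : ∀ (k : H) n, K.ar n (k • x0) → r1 ≤ K.rk n := by
    intro k n hn
    apply Nat.find_min' hex
    refine ⟨k⁻¹ • n, ?_, K.rk_smul _ _⟩
    have := K.ar_smul k⁻¹ _ _ hn
    rwa [inv_smul_smul] at this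
  have hlt : ∀ k : H, K.rk (k • x0) < r1 := by
    intro k
    rw [K.rk_smul, ← hr0]
    exact K.ar_rk _ _ hn0
  -- equality of positions gives equality
  have eq_of : ∀ x, (∀ k : H, k • x0 ≠ x) → (∀ a, K.ar x a → J' a = J a) → J' x = J x := by
    intro x hx0 ihp
    by_cases hx : ∃ a, K.ar x a
    · have hgx := hJ'.good hQ x
      refine TMap.eq_of_pos D.tree hgx.1 (js.conv x) hgx.2 (js.ne x) ?_
      intro w w' e
      rw [(jq_status K D _ q hQ J' hJ' e x hx).2, js_status js hx ((by
        intro s hs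
        obtain ⟨a, ha⟩ := hx
        exact (hq2 x (hsoft x a ha)).2 hx0 s hs) : ∀ s, J x = {s} → q x = s) e]
      have e1 : ∀ u u' : D.X, (∃ a, K.ar x a ∧ J' a ⊆ bey D.G u u') ↔
          ∃ a, K.ar x a ∧ J a ⊆ bey D.G u u' := by
        intro u u'
        constructor
        · rintro ⟨a, ha, h⟩
          exact ⟨a, ha, by rwa [ihp a ha] at h⟩
        · rintro ⟨a, ha, h⟩
          exact ⟨a, ha, by rwa [ihp a ha]⟩
      rw [e1, e1]
    · push Not at hx
      rw [hJ'.sink x hx]
      by_cases he : Ell H D.X x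
      · obtain ⟨s, hs⟩ := g.one x hx he
        rw [hLe x he, (hq2 x he).2 hx0 s hs, hs]
      · rw [hLh x he, g.ax x hx he]
  -- low ranks
  have low : ∀ n x, K.rk x ≤ n → K.rk x ≤ r1 → (∀ k : H, k • x0 ≠ x) →
      (∀ k : H, ¬ K.ar x (k • x0)) → J' x = J x := by
    intro n
    induction n using Nat.strong_induction_on with
    | _ n ih =>
      intro x hn hr hx0 hxp
      apply eq_of x hx0
      intro a ha
      have h1 := K.ar_rk _ _ ha
      refine ih (K.rk a) (by omega) a le_rfl (by omega) ?_ ?_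
      · rintro k rfl
        exact hxp k ha
      · intro k hk
        have := hmin k a hk
        omega
  -- the moved orbit
  have mv : ∀ k : H, J' (k • x0) = {k • p1} := by
    intro k
    have hEk : Ell H D.X (k • x0) := ell_smul hE0 k
    have hqk : q (k • x0) = k • p1 := (hq2 _ hEk).1 k rfl
    by_cases hx : ∃ a, K.ar (k • x0) a
    · have hin : ∀ a, K.ar (k • x0) a → k • p1 ∈ J' a := by
        intro a ha
        have h1 := K.ar_rk _ _ ha
        have h2 := hlt k
        have h3 : J' a = J a := by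
          refine low _ a le_rfl (by omega) ?_ ?_
          · rintro k' rfl
            have e1 := K.rk_smul k x0
            have e2 := K.rk_smul k' x0
            omega
          · intro k' hk'
            have := hmin k' a hk'
            omega
        rw [h3]
        have h4 := K.ar_smul k⁻¹ _ _ ha
        rw [inv_smul_smul] at h4
        have h5 := js.smul k _ _ (hpole _ h4)
        rwa [smul_inv_smul] at h5
      obtain ⟨s, hs1, hs2, hs3⟩ := hJ'.pt _ hx ⟨k • p1, hin⟩
      have h4 := hs3 (k • p1) hin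
      rw [hqk, SimpleGraph.dist_self] at h4
      have h5 : D.G.dist (k • p1) s = 0 := by omega
      rw [hs1, (D.tree.connected.dist_eq_zero_iff).1 h5]
    · push Not at hx
      rw [hJ'.sink _ hx, hLe _ hEk, hqk]
  -- pages of the moved orbit contain the edge
  have pg : ∀ (k : H) n, K.ar n (k • x0) → k • p ∈ J n ∧ k • p1 ∈ J n := by
    intro k n hn
    have hn' : K.ar (k⁻¹ • n) x0 := by
      have := K.ar_smul k⁻¹ _ _ hn
      rwa [inv_smul_smul] at this
    obtain ⟨s, hs⟩ := js.one _ _ (Or.inl hn')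
    have hs' : s ∈ J (k⁻¹ • n) ∩ J x0 := by rw [hs]; rfl
    have h1 : p ∈ J (k⁻¹ • n) := by
      have := hs'.2
      rw [hJ0, Set.mem_singleton_iff] at this
      rw [← this]
      exact hs'.1
    constructor
    · have := js.smul k _ _ h1
      rwa [smul_inv_smul] at this
    · have := js.smul k _ _ (hall _ hn')
      rwa [smul_inv_smul] at this
  -- rank `r1`: crossings do not increase
  have cr : ∀ x, K.rk x = r1 → ∀ w w', D.G.Adj w w' → w ∈ J' x → w' ∈ J' x → w ∈ J x ∧ w' ∈ J x := by
    intro x hxr w w' e h1 h2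
    by_cases hxp : ∀ k : H, ¬ K.ar x (k • x0)
    · have : J' x = J x := by
        refine low _ x le_rfl (by omega) ?_ hxp
        rintro k rfl
        have := hlt k
        omega
      rw [this] at h1 h2
      exact ⟨h1, h2⟩
    · push Not at hxp
      obtain ⟨k0, hk0⟩ := hxp
      have hx : ∃ a, K.ar x a := ⟨_, hk0⟩
      by_cases hsp : ∃ k : H, K.ar x (k • x0) ∧ ((w = k • p ∧ w' = k • p1) ∨
          (w = k • p1 ∧ w' = k • p))
      · obtain ⟨k, hk, ⟨rfl, rfl⟩ | ⟨rfl, rfl⟩⟩ := hsp
        · exact pg k x hk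
        · exact ⟨(pg k x hk).2, (pg k x hk).1⟩
      · push Not at hsp
        obtain ⟨a, b, ha, hb, h3, h4⟩ := (js_cross_iff js' hx e).1 ⟨h1, h2⟩
        -- positions of the poles agree
        have side : ∀ a, K.ar x a → ∀ u u', ((u = w ∧ u' = w') ∨ (u = w' ∧ u' = w)) →
            J' a ⊆ bey D.G u u' → J a ⊆ bey D.G u u' := by
          intro a ha u u' huu hs
          by_cases hak : ∃ k : H, k • x0 = a
          · obtain ⟨k, rfl⟩ := hak
            rw [mv k, Set.singleton_subset_iff] at hs
            rw [js_pt_smul js hJ0 k, Set.singleton_subset_iff]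
            have hak : D.G.Adj (k • p) (k • p1) := D.adj_smul k _ _ hadj
            have huadj : D.G.Adj u u' := by
              rcases huu with ⟨rfl, rfl⟩ | ⟨rfl, rfl⟩
              · exact e
              · exact e.symm
            by_contra hcon
            have hcon' : k • p ∈ bey D.G u' u := (bey_or D.tree huadj _).resolve_left hcon
            -- the edge is `u u'`
            have c3 : u = k • p ∧ u' = k • p1 := mj_edge D.tree hak huadj hcon' hs
            have hh := hsp k ha
            rcases huu with ⟨rfl, rfl⟩ | ⟨rfl, rfl⟩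
            · exact hh.1 c3.1 c3.2
            · exact hh.2 c3.2 c3.1
          · have h5 : J' a = J a := by
              have h6 := K.ar_rk _ _ ha
              refine low _ a le_rfl (by omega) (fun k hk => hak ⟨k, hk⟩) ?_
              intro k hk
              have := hmin k a hk
              omega
            rwa [h5] at hs
        exact (js_cross_iff js hx e).2 ⟨a, b, ha, hb, side a ha _ _ (Or.inl ⟨rfl, rfl⟩) h3,
          side b hb _ _ (Or.inr ⟨rfl, rfl⟩) h4⟩
  -- the page `n0` loses the edge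
  have hn0' : K.ar n0 ((1 : H) • x0) := by rwa [one_smul]
  have los : ¬ (p ∈ J' n0 ∧ p1 ∈ J' n0) := by
    rintro ⟨h1, h2⟩
    have hx : ∃ a, K.ar n0 a := ⟨_, hn0⟩
    obtain ⟨h3, h4⟩ := pg 1 n0 hn0'
    rw [one_smul] at h3 h4
    obtain ⟨a, b, ha, hb, h5, h6⟩ := (js_cross_iff js' hx hadj).1 ⟨h1, h2⟩
    obtain ⟨a1, b1, ha1, hb1, h7, h8⟩ := (js_cross_iff js hx hadj).1 ⟨h3, h4⟩
    have m0 := mv 1
    rw [one_smul, one_smul] at m0
    have hbx : b ≠ x0 := by
      rintro rfl
      rw [m0, Set.singleton_subset_iff] at h6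
      exact bey_not h6 (bey_self hadj)
    have hax : a1 ≠ x0 := by
      rintro rfl
      rw [hJ0, Set.singleton_subset_iff] at h7
      exact bey_irr_l h7
    have hab : a1 = b := by
      rcases K.two n0 a1 b x0 ha1 hb hn0 with e | e | e
      · exact e
      · exact absurd e hbx
      · exact absurd e hax
    subst hab
    by_cases hk : ∃ k : H, k • x0 = a1
    · obtain ⟨k, rfl⟩ := hk
      rw [mv k, Set.singleton_subset_iff] at h6
      rw [js_pt_smul js hJ0 k, Set.singleton_subset_iff] at h7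
      have hak : D.G.Adj (k • p) (k • p1) := D.adj_smul k _ _ hadj
      obtain ⟨c1, c2⟩ := mj_edge D.tree hak hadj.symm h7 h6
      exact D.noinv k p p1 hadj ⟨c1.symm, c2.symm⟩
    · have h9 : J' a1 = J a1 := by
        have h10 := K.ar_rk _ _ hb
        refine low _ a1 le_rfl (by omega) (fun k hk' => hk ⟨k, hk'⟩) ?_
        intro k hk'
        have := hmin k a1 hk'
        omega
      rw [h9] at h6
      obtain ⟨y, hy⟩ := js.ne a1
      exact bey_not (h7 hy) (h6 hy)
  have hp1n : p1 ∈ J' n0 := by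
    obtain ⟨s, hs⟩ := js'.one _ _ (Or.inl hn0)
    have hs' : s ∈ J' n0 ∩ J' x0 := by rw [hs]; rfl
    have m0 := mv 1
    rw [one_smul, one_smul] at m0
    have := hs'.2
    rw [m0, Set.mem_singleton_iff] at this
    rw [← this]
    exact hs'.1
  -- heavy arrows
  have hv : ∀ n y, K.rk y ≤ n → ((∃ a, K.ar y a ∧ Infinite ↥(stabilizer H ((y, a) : V × V))) ∨
      ∃ x, K.ar x y ∧ Infinite ↥(stabilizer H ((x, y) : V × V))) → J' y = J y := by
    intro n
    induction n using Nat.strong_induction_on with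
    | _ n ih =>
      intro y hn hcase
      have hy0 : ∀ k : H, k • x0 ≠ y := by
        rintro k rfl
        have hk := js_pt_smul js hJ0 k
        have hak : D.G.Adj (k • p) (k • p1) := D.adj_smul k _ _ hadj
        rcases hcase with ⟨a, ha, hi⟩ | ⟨x, hx, hi⟩
        · obtain ⟨s, h1, h2⟩ := g.tog _ _ ha hi
          have h3 : s = k • p := Set.singleton_injective (h1.symm.trans hk)
          have h4 := K.ar_smul k⁻¹ _ _ ha
          rw [inv_smul_smul] at h4
          have h5 := js.smul k _ _ (hpole _ h4)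
          rw [smul_inv_smul, h2, h3, Set.mem_singleton_iff] at h5
          exact hak.ne h5.symm
        · obtain ⟨s, h1, h2⟩ := g.tog _ _ hx hi
          have h3 : s = k • p := Set.singleton_injective (h2.symm.trans hk)
          have h5 := (pg k x hx).2
          rw [h1, h3, Set.mem_singleton_iff] at h5
          exact hak.ne h5.symm
      by_cases hs : ∃ b, K.ar y b
      · have hinf : Infinite ↥(stabilizer H y) := by
          rcases hcase with ⟨b, -, hi⟩ | ⟨x, -, hi⟩
          · exact inf_of_arrow hi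
          · exact inf_snd hi
        apply eq_of y hy0
        intro a ha
        have h1 := K.ar_rk _ _ ha
        refine ih (K.rk a) (by omega) a le_rfl (Or.inr ⟨y, ha, ?_⟩)
        by_cases h : ∃ b, K.ar y b ∧ a ≠ b
        · obtain ⟨b, hb, hne⟩ := h
          refine inf_of_le_two hinf (b := b) ?_
          intro k hk
          have h2 := K.ar_smul k _ _ ha
          rw [hk] at h2
          rcases K.two y a b _ ha hb h2 with e | e | e
          · exact absurd e hne
          · exact Or.inr e.symm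
          · exact Or.inl e.symm
        · refine inf_of_le_two hinf (b := a) ?_
          intro k hk
          have h2 := K.ar_smul k _ _ ha
          rw [hk] at h2
          left
          by_contra hne
          exact h ⟨_, h2, fun e => hne e.symm⟩
      · exact eq_of y hy0 (fun a ha => absurd ⟨a, ha⟩ hs)
  refine ⟨J', ⟨js', ?_, ?_, ?_, ?_⟩, r1, ?_, ?_⟩
  · intro x hx
    by_cases ha : ∃ a, K.ar x a
    · exact hfin x ha
    · push Not at ha
      rw [hJ'.sink x ha, hLe x hx]
      exact Set.finite_singleton _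
  · intro z hz he
    exact ⟨q z, by rw [hJ'.sink z hz, hLe z he]⟩
  · intro z hz he
    rw [hJ'.sink z hz, hLh z he]
  · intro x a ha hi
    rw [hv _ x le_rfl (Or.inl ⟨a, ha, hi⟩), hv _ a le_rfl (Or.inr ⟨x, ha, hi⟩)]
    exact g.tog x a ha hi
  · intro i hi
    have : muS K J' i = muS K J i := by
      ext y
      obtain ⟨x, w⟩ := y
      by_cases hx : ∃ k : H, k • x0 = x
      · obtain ⟨k, rfl⟩ := hx
        constructor
        · rintro ⟨-, h2, w2, h3, h4⟩
          have h2 : w ∈ J' (k • x0) := h2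
          have h3 : w2 ∈ J' (k • x0) := h3
          rw [mv k, Set.mem_singleton_iff] at h2 h3
          exact absurd (h3.trans h2.symm) h4
        · rintro ⟨-, h2, w2, h3, h4⟩
          have h2 : w ∈ J (k • x0) := h2
          have h3 : w2 ∈ J (k • x0) := h3
          rw [js_pt_smul js hJ0 k, Set.mem_singleton_iff] at h2 h3
          exact absurd (h3.trans h2.symm) h4
      · push Not at hx
        by_cases hr : K.rk x = i
        · have h1 : J' x = J x := by
            refine low _ x le_rfl (by omega) hx ?_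
            intro k hk
            have := hmin k x hk
            omega
          show (K.rk x = i ∧ w ∈ J' x ∧ ∃ w2, w2 ∈ J' x ∧ w2 ≠ w) ↔
            (K.rk x = i ∧ w ∈ J x ∧ ∃ w2, w2 ∈ J x ∧ w2 ≠ w)
          rw [h1]
        · exact ⟨fun h => absurd h.1 hr, fun h => absurd h.1 hr⟩
    unfold muN
    rw [this]
  · refine oc_lt_of_inj (muS_fin js r1) id ?_ (fun _ _ _ _ h => h) (b0 := (n0, p)) ?_ ?_
    · rintro ⟨x, w⟩ ⟨h1, h2, w2, h3, h4⟩
      obtain ⟨u, hu, hd⟩ := exists_next D.tree (Ne.symm h4)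
      have h5 : u ∈ J' x := by
        refine js'.conv x _ h2 _ h3 u ?_
        rw [SimpleGraph.dist_eq_one_iff_adj.2 hu]
        have hd' : D.G.dist w w2 = D.G.dist u w2 + 1 := hd
        show 1 + D.G.dist u w2 = D.G.dist w w2
        omega
      obtain ⟨h6, h7⟩ := cr x h1 w u hu h2 h5
      exact ⟨h1, h6, u, h7, hu.ne'⟩
    · exact ⟨hr0, (by
        have := (pg 1 n0 hn0').1
        rwa [one_smul] at this), p1, (by
        have := (pg 1 n0 hn0').2
        rwa [one_smul] at this), hadj.ne'⟩
    · intro a ha h e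
      have h1 := muS_smul js' h ha
      rw [show h • a = (n0, p) from e] at h1
      exact los ⟨h1.2.1, hp1n⟩

/-- no place next to the place of `x` which is fixed by `H_x` lies in all poles and all pages -/
def PageP (K : PQ H V) {D : Decomp H} (J : V → Set D.X) : Prop :=
  ∀ x p p1, J x = {p} → D.G.Adj p p1 → (∀ h : H, h • x = x → h • p1 = p1) →
    (∀ a, K.ar x a → p1 ∈ J a) → (∃ n, K.ar n x) → ∃ n, K.ar n x ∧ p1 ∉ J n

theorem PQ_rk_bdd (K : PQ H V) : ∃ N, ∀ v, K.rk v ≤ N := by
  have h1 : (orbs H (Set.univ : Set V)).Finite := K.fin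
  have h2 : ((fun o : orbitRel.Quotient H V => K.rk (Quotient.out o)) ''
    (orbs H (Set.univ : Set V))).Finite := h1.image _
  obtain ⟨N, hN⟩ := h2.bddAbove
  refine ⟨N, fun v => ?_⟩
  have h3 : K.rk (Quotient.out (Quotient.mk'' v : orbitRel.Quotient H V)) ≤ N :=
    hN ⟨_, ⟨v, trivial, rfl⟩, rfl⟩
  have e : (Quotient.mk'' (Quotient.out (Quotient.mk'' v : orbitRel.Quotient H V)) :
      orbitRel.Quotient H V) = Quotient.mk'' v := Quotient.out_eq _
  obtain ⟨g, hg⟩ := Pool.Agent.SAF.mk_eq_iff.1 e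
  rw [← hg, K.rk_smul] at h3
  exact h3

/-- THE MINIMUM -/
theorem GJ.exists_page {K : PQ H V} (hst : ∀ v : V, InC ↥(stabilizer H v)) {D : Decomp H}
    (hsoft : ∀ x a, K.ar x a → Ell H D.X x) {J0 : V → Set D.X} (g0 : GJ K D J0) :
    ∃ J, GJ K D J ∧ PageP K J := by
  obtain ⟨N, hN⟩ := PQ_rk_bdd K
  have wf : WellFounded (Pi.Lex (· < ·) (fun {_ : Fin (N + 1)} => ((· < ·) : ℕ → ℕ → Prop))) :=
    Pi.Lex.wellFounded _ (fun _ => wellFounded_lt)
  let f : (V → Set D.X) → Fin (N + 1) → ℕ := fun J i => muN K J i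
  obtain ⟨m, ⟨J, hJ, rfl⟩, hmin⟩ := wf.has_min {m | ∃ J, GJ K D J ∧ f J = m} ⟨f J0, J0, g0, rfl⟩
  refine ⟨J, hJ, ?_⟩
  intro x p p1 h1 h2 h3 h4 h5
  by_contra hcon
  push Not at hcon
  obtain ⟨J', hJ', r, hr1, hr2⟩ := hJ.step hst hsoft h1 h2 h3 h4 h5 hcon
  have hrN : r < N + 1 := by
    by_contra hcon2
    have h6 : muS K J r = ∅ := by
      ext y
      constructor
      · intro hy
        have h7 : K.rk y.1 = r := hy.1
        have := hN y.1
        omega
      · intro hy
        exact hy.elim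
    have h8 : muN K J r = 0 := by
      unfold muN
      rw [h6]
      simp [oc, orbs]
    omega
  exact hmin (f J') ⟨J', hJ', rfl⟩ ⟨⟨r, hrN⟩, fun j hj => hr1 j hj, hr2⟩

end Pool.Agent.DI
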