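import Pool.Agent.DI.RedT
import Pool.Agent.DI.LineQ
import Pool.Agent.DI.Geo4T
import Pool.Agent.DI.MuJ
import Pool.Agent.DI.DLT

/-!
# DI/CrP: a top in case 1 is pure

`ny_of_line`: an element of finite order of a hyperbolic two-ended group which fixes an edge of the line
lies in the finite normal subgroup. `poles_of_edge`: an element which fixes a soft vertex and an edge which
it crosses fixes the poles. `Cas1.pur`: a top in case 1 is pure (`Pur`).
-/

namespace Pool.Agent.DI

open MulAction
open Pool.Agent.SAF (InC orbs FinOrb oc Decomp SAn SA Conv hull dist_edge FinOrb_iff exists_next TAct)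
open Pool.Agent.SAG (IO Zt)
open Pool.Agent.BT (PX PQ JS bey exits mst Hyp Ell finite_of_hyp mst_conv axis)
open Pool.Agent.BT.TA

section

variable {H V X : Type} [Group H] [MulAction H V] [MulAction H X] {G : SimpleGraph X}

/-- an element which fixes an edge of a line fixes the line -/
theorem fix_line (hG : TAct H G) {C : Set X} (hC : Conv G C)
    (two : ∀ p ∈ C, ∀ a b c, G.Adj p a → G.Adj p b → G.Adj p c → a ∈ C → b ∈ C → c ∈ C →
      a = b ∨ a = c ∨ b = c) {g : H} (hg : ∀ c ∈ C, g • c ∈ C) {w u : X} (hw : w ∈ C)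
    (hu : u ∈ C) (hwu : G.Adj w u) (gw : g • w = w) (gu : g • u = u) : ∀ q ∈ C, g • q = q := by
  have hT := hG.tree
  -- the fixed points
  have hF : Conv G {x : X | ∀ b ∈ ({g} : Set H), b • x = x} := fix_conv hG _
  have mF : ∀ x : X, x ∈ {x : X | ∀ b ∈ ({g} : Set H), b • x = x} ↔ g • x = x := by
    intro x
    simp
  have key : ∀ n : ℕ, ∀ p q : X, p ∈ C → q ∈ C → g • p = p → (∃ s ∈ C, G.Adj p s ∧ g • s = s) →
      G.dist p q = n → g • q = q := by
    intro n
    induction n with
    | zero =>
      intro p q hp hq gp _ hd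
      rw [← (hT.connected.dist_eq_zero_iff).1 hd]
      exact gp
    | succ n ih =>
      intro p q hp hq gp hs hd
      have hne : p ≠ q := by
        rintro rfl
        rw [SimpleGraph.dist_self] at hd
        omega
      obtain ⟨r, hr, hpr, hd'⟩ := Conv.nbr hT hC hp hq hne
      obtain ⟨s, hsC, hps, gs⟩ := hs
      have gr : g • r = r := by
        by_cases hrs : r = s
        · rw [hrs]
          exact gs
        · have h1 : G.Adj p (g • r) := by
            have := hG.adj_smul g _ _ hpr
            rwa [gp] at this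
          rcases two p hp r s (g • r) hpr hps h1 hr hsC (hg r hr) with e | e | e
          · exact absurd e hrs
          · exact e.symm
          · exfalso
            apply hrs
            have : g • s = g • r := by rw [gs]; exact e
            exact (smul_left_cancel g this).symm
      exact ih r q hr hq gr ⟨p, hp, hpr.symm, gp⟩ (by omega)
  intro q hq
  exact key _ w q hw hq gw ⟨u, hu, hwu, gu⟩ rfl

/-- an element of finite order which fixes an edge of the line lies in the finite normal subgroup -/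
theorem ny_of_line (hG : TAct H G) {y : V} (hA : InC ↥(stabilizer H y))
    (hn : Hyp X (stabilizer H y))
    (ht : DT (stabilizer H y) ∨ (Infinite ↥(stabilizer H y) ∧ Zt ↥(stabilizer H y)))
    {g : H} (hg : g • y = y) (hio : ¬ IO g) {w u : X} (hw : w ∈ mst G (stabilizer H y))
    (hu : u ∈ mst G (stabilizer H y)) (hwu : G.Adj w u) (gw : g • w = w) (gu : g • u = u) :
    NY y g := by
  rcases ht with hd | ⟨hi, hz⟩
  · -- the kernel of the action on the line
    have hfix : ∀ q ∈ mst G (stabilizer H y), g • q = q := by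
      refine fix_line hG (mst_conv _) ?_ (fun c hc => Pool.Agent.DI.mst_inv hg hc) hw hu hwu gw gu
      intro p hp a b c h1 h2 h3 ha hb hc
      exact (axis hG _ hA hn).2.2.1 p hp a b c h1 h2 h3 ha hb hc
    let B : Subgroup H :=
      { carrier := {b | b • y = y ∧ ∀ q ∈ mst G (stabilizer H y), b • q = q}
        one_mem' := ⟨one_smul _ _, fun q _ => one_smul _ _⟩
        mul_mem' := by
          rintro a b ⟨a1, a2⟩ ⟨b1, b2⟩
          exact ⟨by rw [mul_smul, b1, a1], fun q hq => by rw [mul_smul, b2 q hq, a2 q hq]⟩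
        inv_mem' := by
          rintro a ⟨a1, a2⟩
          refine ⟨by rw [inv_smul_eq_iff]; exact a1.symm, fun q hq => ?_⟩
          rw [inv_smul_eq_iff]
          exact (a2 q hq).symm }
    have hB : Finite ↥B := finite_of_hyp hG hA hn (B := B) (fun b hb => hb.1)
      (w := w) (fun b hb => hb.2 w hw)
    obtain ⟨t, ht1, ht2⟩ := hd.dl.exists_trans 1
    have hio' : IO t := hd.dl.io_of ht1 (by rw [ht2]; decide)
    have hty : (t : H) • y = y := t.2
    obtain ⟨k, hk, e⟩ := exists_comm_of_norm (A := B) hB (t := (t : H)) (by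
      rintro b ⟨b1, b2⟩
      refine ⟨?_, fun q hq => ?_⟩
      · rw [mul_smul, mul_smul]
        have : (t : H)⁻¹ • y = y := by
          rw [inv_smul_eq_iff]
          exact hty.symm
        rw [this, b1, hty]
      · rw [mul_smul, mul_smul, b2 _ (Pool.Agent.DI.mst_inv (inv_mem t.2) hq), smul_inv_smul])
      (a := g) ⟨hg, hfix⟩
    refine ⟨hg, hio, (t : H) ^ k, ?_, ?_, e⟩
    · exact (stabilizer H y).pow_mem t.2 k
    · exact (io_coe.2 hio').pow hk
  · rw [ny_zt hz hi]
    exact ⟨hg, hio⟩

end

namespace SyQ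

variable {H V : Type} [Group H] [MulAction H V] {S : SyQ H V}

/-- an element which fixes a soft vertex and an edge which it crosses fixes the poles -/
theorem poles_of_edge {x : V} {w u : S.X} (hwu : S.D.G.Adj w u) (hw : w ∈ S.J x) (hu : u ∈ S.J x)
    {g : H} (gx : g • x = x) (gw : g • w = w) (gu : g • u = u) {c : V} (hc : S.K.ar x c) :
    g • c = c := by
  obtain ⟨a, b, ha, hb, h1, h2⟩ := (js_cross_iff S.js (K := S.P.pq) ⟨c, hc⟩ hwu).1 ⟨hw, hu⟩
  have ha : S.K.ar x a := ha
  have hb : S.K.ar x b := hb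
  have hgc : S.K.ar x (g • a) := by
    have := S.K.ar_smul g _ _ ha
    rwa [gx] at this
  have h3 : g • a ≠ b := by
    intro e
    obtain ⟨p, hp⟩ := S.js.ne b
    have hp1 := h2 hp
    have hp2 : g⁻¹ • p ∈ S.J a := by
      have := S.js.smul g⁻¹ _ _ hp
      rwa [← e, inv_smul_smul] at this
    have hp3 : g⁻¹ • p ∈ bey S.D.G w u := h1 hp2
    have hp4 : p ∈ bey S.D.G w u := by
      have := S.bey_smul g hp3
      rwa [smul_inv_smul, gw, gu] at this
    exact bey_not hp4 hp1
  have h4 : g • a = a := by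
    rcases S.K.two _ _ _ _ ha hb hgc with e | e | e
    · exfalso
      obtain ⟨p, hp⟩ := S.js.ne a
      exact bey_not (h1 hp) (h2 (e ▸ hp))
    · exact absurd e.symm h3
    · exact e.symm
  exact P45.fixp ha hc gx h4

/-- the elements which fix a top in case 1 and a pole fix an edge which the partner crosses -/
theorem Cas1.fix_edge {E : V → Prop} (hs : S.P.SqE E) {T a b y : V} {p q : S.X}
    (ht : S.P.Top T a b y) (hE : ¬ E T) (k : S.Cas1 T a b y p q) {g : H} (gT : g • T = T)
    (ga : g • a = a) : g • y = y ∧ ∀ r ∈ Sgm S.D.G p q, g • r = r := by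
  have gy := hs.fix ht hE gT
  have hab := hs.nab _ _ _ _ ht
  refine ⟨gy, ?_⟩
  rcases k.fix ht hab gT gy with ⟨-, -, gp, gq⟩ | ⟨e, -⟩
  · intro r hr
    have h1 := fix_conv S.D.tact ({g} : Set H) p (by simpa using gp) q (by simpa using gq) r hr
    simpa using h1
  · exact absurd (ga.symm.trans e) hab

/-- A TOP IN CASE 1 IS PURE -/
theorem Cas1.pur {E : V → Prop} (hs : S.P.SqE E) (hS : S.SinkH) {T a b y : V} {p q : S.X}
    (ht : S.P.Top T a b y) (hE : ¬ E T) (tf : Finite ↥(stabilizer H T))
    (k : S.Cas1 T a b y p q) : P45.Pur S.K T a y := by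
  obtain ⟨u, hb⟩ := exists_Bt S.D.tree (Sgm.left (G := S.D.G) p q) k.ne
  have m := hb.mem S.D.tree
  constructor
  · intro g gT ga c hc
    obtain ⟨gy, gr⟩ := k.fix_edge hs ht hE gT ga
    exact poles_of_edge hb.1 (k.Jy m.1) (k.Jy m.2) gy (gr _ m.1) (gr _ m.2) hc
  · intro hy _ g gT ga
    obtain ⟨gy, gr⟩ := k.fix_edge hs ht hE gT ga
    have hio : ¬ IO g := fun h =>
      SAG.not_IO_finite (⟨g, gT⟩ : ↥(stabilizer H T)) (io_coe.1 h)
    have m1 := k.Jy m.1
    have m2 := k.Jy m.2
    rcases hS.ty y hy with ⟨r, hr⟩ | ⟨hn, hJ, hty⟩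
    · rw [hr] at m1 m2
      exact absurd (Set.mem_singleton_iff.1 m1 |>.trans (Set.mem_singleton_iff.1 m2).symm) hb.1.ne
    · rw [hJ] at m1 m2
      exact ny_of_line S.D.tact (S.K.stab y) hn hty gy hio m1 m2 hb.1 (gr _ m.1) (gr _ m.2)

end SyQ

end Pool.Agent.DI
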