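import Pool.Agent.DI.LT2

/-!
# Local tops: the far strands

`LTp.far5`, `LTp.far4`: a far strand of `(T, a)` gives a zero square `a, T, n, t_u`. `S.cF w O T a k`: the
number of the far strands with class `k`. `LTp.law`: `X T a + #FK ≤ X' [T] [a] + Σ_{k ∈ FK} cF k`.
`LTp.law_one`: `X T a ≤ X' [T] [a]` if every class has only one far strand.
-/

namespace Pool.Agent.DI

open MulAction
open Pool.Agent.SAF (InC orbs FinOrb oc Decomp SAn SA Conv hull dist_edge FinOrb_iff exists_next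
  mk_eq_iff oc_mono oc_le_of_inj oc_le_of_rel oc_le_of_surj)
open Pool.Agent.BT (PX PQ JS bey exits lz lz_self lz_ne lz_symm x_next_unique)
open Pool.Agent.BT.TA
open P45

/-- groups with the same transformations have the same orbits -/
theorem finOrb_same {G1 G2 Y : Type} [Group G1] [Group G2] [MulAction G1 Y] [MulAction G2 Y]
    (h12 : ∀ g : G1, ∃ g' : G2, ∀ y : Y, g' • y = g • y) {s : Set Y} (h : FinOrb G1 s) :
    FinOrb G2 s := by
  refine Pool.Agent.SAF.FinOrb.of_inj h (fun y => y) (fun _ h => h) ?_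
  rintro x - y - ⟨g, rfl⟩
  obtain ⟨g', hg'⟩ := h12 g
  exact ⟨g', hg' x⟩

theorem oc_same {G1 G2 Y : Type} [Group G1] [Group G2] [MulAction G1 Y] [MulAction G2 Y]
    (h12 : ∀ g : G1, ∃ g' : G2, ∀ y : Y, g' • y = g • y)
    (h21 : ∀ g : G2, ∃ g' : G1, ∀ y : Y, g' • y = g • y) {s : Set Y} (h : FinOrb G1 s) :
    oc G1 s = oc G2 s := by
  apply le_antisymm
  · refine oc_le_of_inj (finOrb_same h12 h) (fun y => y) (fun _ h => h) ?_
    rintro x - y - ⟨g, rfl⟩
    obtain ⟨g', hg'⟩ := h21 g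
    exact ⟨g', hg' x⟩
  · refine oc_le_of_inj h (fun y => y) (fun _ h => h) ?_
    rintro x - y - ⟨g, rfl⟩
    obtain ⟨g', hg'⟩ := h12 g
    exact ⟨g', hg' x⟩

namespace SyQ

variable {H V : Type} [Group H] [MulAction H V] (S : SyQ H V)

/-- the class of a pentagon strand -/
noncomputable def cl5 (w : S.X) (O : S.OR w) (f : FL S.K) : S.Q w O := S.fq w O (S.rho w (fprv f))

/-- the class of a walk -/
noncomputable def cl4 (w : S.X) (O : S.OR w) (p : (V × V) × (V × V)) : S.Q w O :=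
  S.fq w O (S.rho w p.2.2)

/-- THE NUMBER OF THE FAR STRANDS with class `k` -/
noncomputable def cF (w : S.X) (O : S.OR w) (T a : V) (k : S.Q w O) : ℕ :=
  oc ↥(stabilizer ↥(stabilizer ↥(stabilizer H w)
    (S.fq w O (S.rho w T), S.fq w O (S.rho w a))) k) {f | f ∈ S.F5 w T a ∧ S.cl5 w O f = k} +
  oc ↥(stabilizer ↥(stabilizer ↥(stabilizer H w)
    (S.fq w O (S.rho w T), S.fq w O (S.rho w a))) k) {p | p ∈ S.F4 w T a ∧ S.cl4 w O p = k}

variable {S}

namespace LTp

variable {w : S.X} {O : S.OR w} {T a b : V} (h : S.LTp w O T a b)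

include h

/-- the far pentagon strands -/
theorem far5 (hnb : S.NB) {f : FL S.K} (hf : f ∈ S.F5 w T a) :
    ∃ u, S.Qs w u T a (fprv f) ∧ S.K.ar (fprv f) T := by
  obtain ⟨⟨⟨h1, h2⟩, h3⟩, hI⟩ := hf
  obtain ⟨i, hi, j, g, c, rfl⟩ := flag5 h1
  have hT : S.tr g i (j + 1) = T := by
    have e1 : fy ((S.P.l5 i hi j g, c) : FL S.K) = T := congrArg Prod.fst h3
    rw [← e1]
    exact (P45.c1_5 S.P i hi j g).symm
  have hN : ∀ k : Fin 5, S.tr g i k ≠ S.tr g i (k + 2) := fun k e =>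
    S.P.nb5 hnb hi k (smul_left_cancel g e)
  have hE : ∀ k, S.K.E (S.tr g i k) (S.tr g i (k + 1)) := S.tr_E g hi
  have hE0 : S.K.E (S.tr g i j) T := hT ▸ hE j
  have hE2 : S.K.E (S.tr g i (j + 2)) T := by
    have := hE (j + 1)
    rw [hT, show j + 1 + 1 = j + 2 from by rw [add_assoc]; rfl] at this
    exact Or.symm this
  have w0 := h.wn hE0
  have w2 := h.wn hE2
  have hvis : S.rho w (S.tr g i j) ≠ S.rho w (S.tr g i (j + 2)) := rho_ne_of_ne w0 (hN j)
  obtain hC | ⟨u, k, hs, hj⟩ := visq_cases hi (by rw [hT]; exact h.wT) hvis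
  · exact absurd hC hI
  -- the apex is `T`
  have hjk : j = k := by
    rcases hj with rfl | rfl | rfl
    · rfl
    · exfalso
      apply h.loc hs.1
      rw [← hT, show k + 1 + 1 = k + 2 from by rw [add_assoc]; rfl]
      exact hs.2.2.1.2
    · exfalso
      apply h.loc hs.1
      rw [← hT, q41]
      exact hs.2.1.2
  subst hjk
  have hq := Qn_pt g hi j
  have hq' : Qn S.P (S.tr g i j) T (S.tr g i (j + 2)) (S.tr g i (j + 3)) (S.tr g i (j + 4)) := by
    rw [← hT]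
    exact hq
  have hsT : S.J T ⊆ bey S.D.G u w := hT ▸ hs.2.2.2.1
  have hQ : S.Qs w u T (S.tr g i j) (S.tr g i (j + 2)) :=
    ⟨hs.1, hs.2.1, hs.2.2.1, hsT, Or.inl ⟨_, _, hq', hs.2.2.2.2.1, hs.2.2.2.2.2⟩⟩
  -- the other vertex is not `b`
  have hfar : ∀ n, (∃ y z, Qn S.P a T n y z ∧ S.J y ⊆ bey S.D.G w u ∧ S.J z ⊆ bey S.D.G w u) →
      S.K.E n T → n ≠ a → S.K.ar n T := by
    rintro n ⟨y, z, k1, k2, k3⟩ e hne
    rcases e with e | e
    · exact e
    · exfalso
      rcases h.poles e with r | r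
      · exact hne r
      · rw [r] at k1
        rcases h.hd y z k1 with r | r
        · exact S.not_mem_of_bey hs.1 k2 r
        · exact S.not_mem_of_bey hs.1 k3 r
  have e2 : fz ((S.P.l5 i hi j g, c) : FL S.K) = a := congrArg Prod.snd h3
  cases c
  · have ea : S.tr g i j = a := by
      rw [← e2]
      unfold fz
      rw [if_neg Bool.false_ne_true]
      exact (P45.c0_5 S.P i hi j g).symm
    have en : fprv ((S.P.l5 i hi j g, false) : FL S.K) = S.tr g i (j + 2) := by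
      unfold fprv
      rw [if_neg Bool.false_ne_true]
      exact P45.c2_5 S.P i hi j g
    rw [en]
    refine ⟨u, by rw [← ea]; exact hQ, hfar _ ⟨_, _, by rw [← ea]; exact hq', hs.2.2.2.2.1,
      hs.2.2.2.2.2⟩ hE2 ?_⟩
    rw [← ea]
    exact (hN j).symm
  · have ea : S.tr g i (j + 2) = a := by
      rw [← e2]
      unfold fz
      rw [if_pos rfl]
      exact (P45.c2_5 S.P i hi j g).symm
    have en : fprv ((S.P.l5 i hi j g, true) : FL S.K) = S.tr g i j := by
      unfold fprv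
      rw [if_pos rfl]
      exact P45.c0_5 S.P i hi j g
    rw [en]
    refine ⟨u, by rw [← ea]; exact hQ.symm', hfar _ ⟨_, _, by rw [← ea]; exact hq'.symm,
      hs.2.2.2.2.2, hs.2.2.2.2.1⟩ hE0 ?_⟩
    rw [← ea]
    exact hN j

/-- the far walks -/
theorem far4 {p : (V × V) × (V × V)} (hp : p ∈ S.F4 w T a) :
    ∃ u, S.Qs w u T a p.2.2 ∧ S.K.ar p.2.2 T := by
  obtain ⟨⟨T', a'⟩, ⟨q, n⟩⟩ := p
  obtain ⟨⟨⟨k1, k2, k3⟩, k4⟩, k5⟩ := hp
  obtain ⟨rfl, rfl⟩ : T' = T ∧ a' = a := Prod.ext_iff.1 k4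
  have k1 : Q4 S.P n T' a' q := k1
  have k3 : S.K.ar n T' := k3
  have k5 : w ∉ S.J q := k5
  have wn := h.wn (Or.inl k3)
  have hu := S.dir_adj k5
  have ca := S.dir_cross k1.E3 h.wa k5
  have cn := S.dir_cross (Or.symm k1.E4) wn k5
  have hT : S.J T' ⊆ bey S.D.G (S.dir w q) w := by
    intro p hp
    rw [h.J1 hp]
    exact bey_self hu.symm
  exact ⟨S.dir w q, ⟨hu, ⟨h.wa, ca⟩, ⟨wn, cn⟩, hT, Or.inr ⟨q, k1.symm, S.dir_bey k5⟩⟩, k3⟩

/-! ### the groups -/

theorem h12 {Y : Type} [MulAction H Y] (g : ↥(stabilizer H (T, a))) :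
    ∃ g' : ↥(stabilizer ↥(stabilizer H w) (S.fq w O (S.rho w T), S.fq w O (S.rho w a))),
      ∀ y : Y, g' • y = g • y := by
  have hg : g.1 • (T, a) = (T, a) := g.2
  obtain ⟨k, hk⟩ := h.ex_st (congrArg Prod.fst hg) (congrArg Prod.snd hg)
  refine ⟨k, fun y => ?_⟩
  show k.1.1 • y = g.1 • y
  rw [hk]

theorem h21 {Y : Type} [MulAction H Y]
    (g : ↥(stabilizer ↥(stabilizer H w) (S.fq w O (S.rho w T), S.fq w O (S.rho w a)))) :
    ∃ g' : ↥(stabilizer H (T, a)), ∀ y : Y, g' • y = g • y :=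
  ⟨⟨g.1.1, Prod.ext (h.mem_st g).1 (h.mem_st g).2⟩, fun _ => rfl⟩

omit h in
theorem fin5 : FinOrb ↥(stabilizer H (T, a)) (S.F5 w T a) :=
  (fin_fib (π := fun f : FL S.K => (fy f, fz f)) (fun g f => fyz_smul g f)
    (fin_RP (P := S.P)) (T, a)).mono fun _ k => k.1

omit h in
theorem fin4 : FinOrb ↥(stabilizer H (T, a)) (S.F4 w T a) :=
  (fin_fib (π := fun p : (V × V) × (V × V) => p.1) (fun _ _ => rfl)
    (fin_ZP (P := S.P)) (T, a)).mono fun _ k => k.1

theorem inv5 (g : ↥(stabilizer ↥(stabilizer H w) (S.fq w O (S.rho w T), S.fq w O (S.rho w a))))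
    {f : FL S.K} (hf : f ∈ S.F5 w T a) : g • f ∈ S.F5 w T a := by
  have hg := h.mem_st g
  obtain ⟨⟨h1, h2⟩, h3⟩ := hf
  refine ⟨⟨RP_smul g.1.1 f h1, ?_⟩, ?_⟩
  · show (fy (g.1.1 • f), fz (g.1.1 • f)) = (T, a)
    rw [fyz_smul, h2]
    exact Prod.ext hg.1 hg.2
  · intro k
    apply h3
    have := (S.isC_smul g.1.1 f.1.2 f.1.1.1 w).1 (by
      have e : g.1.1 • w = w := g.1.2
      rw [e]
      exact k)
    exact this

theorem inv4 (g : ↥(stabilizer ↥(stabilizer H w) (S.fq w O (S.rho w T), S.fq w O (S.rho w a))))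
    {p : (V × V) × (V × V)} (hp : p ∈ S.F4 w T a) : g • p ∈ S.F4 w T a := by
  have hg := h.mem_st g
  obtain ⟨⟨h1, h2⟩, h3⟩ := hp
  refine ⟨⟨ZP_smul g.1.1 p h1, ?_⟩, ?_⟩
  · show g.1.1 • p.1 = (T, a)
    rw [h2]
    exact Prod.ext hg.1 hg.2
  · intro k
    apply h3
    have e : g.1.1 • w = w := g.1.2
    have k : w ∈ S.J (g.1.1 • p.2.1) := k
    have k' : g.1.1 • w ∈ S.J (g.1.1 • p.2.1) := by rw [e]; exact k
    exact (S.mem_smul_iff g.1.1 p.2.1 w).1 k'

omit h in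
theorem cl5_smul (g : ↥(stabilizer ↥(stabilizer H w)
    (S.fq w O (S.rho w T), S.fq w O (S.rho w a)))) (f : FL S.K) :
    S.cl5 w O (g • f) = g • S.cl5 w O f := by
  show S.fq w O (S.rho w (fprv (g.1.1 • f))) = g.1 • S.fq w O (S.rho w (fprv f))
  rw [fprv_smul, ← fq_smul, ← S.rho_smul]

omit h in
theorem cl4_smul (g : ↥(stabilizer ↥(stabilizer H w)
    (S.fq w O (S.rho w T), S.fq w O (S.rho w a)))) (p : (V × V) × (V × V)) :
    S.cl4 w O (g • p) = g • S.cl4 w O p := by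
  show S.fq w O (S.rho w (g.1.1 • p.2.2)) = g.1 • S.fq w O (S.rho w p.2.2)
  rw [← fq_smul, ← S.rho_smul]

theorem FK_smul (g : ↥(stabilizer ↥(stabilizer H w)
    (S.fq w O (S.rho w T), S.fq w O (S.rho w a)))) : ∀ k ∈ S.FK w O T a, g • k ∈ S.FK w O T a := by
  rintro k ⟨u, n, k1, k2, rfl⟩
  have hg := h.mem_st g
  have k1' := k1.smul g.1
  rw [hg.1, hg.2] at k1'
  have k2' := S.K.ar_smul g.1.1 _ _ k2
  rw [hg.1] at k2'
  refine ⟨_, _, k1', k2', ?_⟩
  show _ = g.1 • S.fq w O (S.rho w n)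
  rw [← fq_smul, ← S.rho_smul]

/-- every class has a far strand -/
theorem FK_ex {k : S.Q w O} (hk : k ∈ S.FK w O T a) :
    (∃ f ∈ S.F5 w T a, S.cl5 w O f = k) ∨ ∃ p ∈ S.F4 w T a, S.cl4 w O p = k := by
  obtain ⟨u, n, k1, k2, rfl⟩ := hk
  obtain ⟨hu, ca, cn, hT, ⟨y, z, k3, k4, k5⟩ | ⟨y, k3, k4⟩⟩ := k1
  · left
    obtain ⟨g, i, j, hi, ⟨e1, e2, e3, e4, e5⟩ | ⟨e1, e2, e3, e4, e5⟩⟩ := k3
    · refine ⟨(S.P.l5 i hi j g, false), ⟨⟨⟨hi, ?_⟩, ?_⟩, ?_⟩, ?_⟩
      · show S.K.ar (fy ((S.P.l5 i hi j g, false) : FL S.K)) (fz ((S.P.l5 i hi j g, false) : FL S.K))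
        have y1 : fy ((S.P.l5 i hi j g, false) : FL S.K) = T := by
          rw [e2]
          exact P45.c1_5 S.P i hi j g
        have y2 : fz ((S.P.l5 i hi j g, false) : FL S.K) = a := by
          rw [e1]
          unfold fz
          rw [if_neg Bool.false_ne_true]
          exact P45.c0_5 S.P i hi j g
        rw [y1, y2]
        exact h.ta
      · refine Prod.ext ?_ ?_
        · show fy ((S.P.l5 i hi j g, false) : FL S.K) = T
          rw [e2]
          exact P45.c1_5 S.P i hi j g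
        · show fz ((S.P.l5 i hi j g, false) : FL S.K) = a
          rw [e1]
          unfold fz
          rw [if_neg Bool.false_ne_true]
          exact P45.c0_5 S.P i hi j g
      · intro hI
        have h1 := hI (j + 3)
        rw [show j + 3 + 1 = j + 4 from by rw [add_assoc]; rfl] at h1
        rcases h1 with h1 | h1
        · exact S.not_mem_of_bey hu k4 (by rw [e4]; exact h1)
        · exact S.not_mem_of_bey hu k5 (by rw [e5]; exact h1)
      · unfold cl5 fprv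
        rw [if_neg Bool.false_ne_true, e3]
        exact congrArg (fun x => S.fq w O (S.rho w x)) (P45.c2_5 S.P i hi j g)
    · refine ⟨(S.P.l5 i hi j g, true), ⟨⟨⟨hi, ?_⟩, ?_⟩, ?_⟩, ?_⟩
      · show S.K.ar (fy ((S.P.l5 i hi j g, true) : FL S.K)) (fz ((S.P.l5 i hi j g, true) : FL S.K))
        have y1 : fy ((S.P.l5 i hi j g, true) : FL S.K) = T := by
          rw [e2]
          exact P45.c1_5 S.P i hi j g
        have y2 : fz ((S.P.l5 i hi j g, true) : FL S.K) = a := by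
          rw [e3]
          unfold fz
          rw [if_pos rfl]
          exact P45.c2_5 S.P i hi j g
        rw [y1, y2]
        exact h.ta
      · refine Prod.ext ?_ ?_
        · show fy ((S.P.l5 i hi j g, true) : FL S.K) = T
          rw [e2]
          exact P45.c1_5 S.P i hi j g
        · show fz ((S.P.l5 i hi j g, true) : FL S.K) = a
          rw [e3]
          unfold fz
          rw [if_pos rfl]
          exact P45.c2_5 S.P i hi j g
      · intro hI
        have h1 := hI (j + 3)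
        rw [show j + 3 + 1 = j + 4 from by rw [add_assoc]; rfl] at h1
        rcases h1 with h1 | h1
        · exact S.not_mem_of_bey hu k5 (by rw [e4]; exact h1)
        · exact S.not_mem_of_bey hu k4 (by rw [e5]; exact h1)
      · unfold cl5 fprv
        rw [if_pos rfl, e1]
        exact congrArg (fun x => S.fq w O (S.rho w x)) (P45.c0_5 S.P i hi j g)
  · right
    exact ⟨((T, a), (y, n)), ⟨⟨⟨k3.symm, h.ta, k2⟩, rfl⟩, S.not_mem_of_bey hu k4⟩, rfl⟩

theorem finFK : FinOrb ↥(stabilizer ↥(stabilizer H w)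
    (S.fq w O (S.rho w T), S.fq w O (S.rho w a))) (S.FK w O T a) := by
  have f5 := finOrb_same (fun g => h.h12 g) (fin5 (S := S) (w := w) (T := T) (a := a))
  have f4 := finOrb_same (fun g => h.h12 g) (fin4 (S := S) (w := w) (T := T) (a := a))
  have f5' : FinOrb ↥(stabilizer ↥(stabilizer H w) (S.fq w O (S.rho w T), S.fq w O (S.rho w a)))
      {k | ∃ f ∈ S.F5 w T a, S.cl5 w O f = k} := by
    refine Pool.Agent.SAF.FinOrb.image f5 (S.cl5 w O) ?_ ?_
    · rintro k ⟨f, hf, rfl⟩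
      exact ⟨f, hf, 1, one_smul _ _⟩
    · rintro f - _ - ⟨g, rfl⟩
      exact ⟨g, (cl5_smul g f).symm⟩
  have f4' : FinOrb ↥(stabilizer ↥(stabilizer H w) (S.fq w O (S.rho w T), S.fq w O (S.rho w a)))
      {k | ∃ p ∈ S.F4 w T a, S.cl4 w O p = k} := by
    refine Pool.Agent.SAF.FinOrb.image f4 (S.cl4 w O) ?_ ?_
    · rintro k ⟨f, hf, rfl⟩
      exact ⟨f, hf, 1, one_smul _ _⟩
    · rintro f - _ - ⟨g, rfl⟩
      exact ⟨g, (cl4_smul g f).symm⟩
  exact (finOrb_union f5' f4').mono fun k hk => h.FK_ex hk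

/-- THE FAR STRANDS AS A SUM OVER THE CLASSES -/
theorem far_sum (hnb : S.NB) : oc ↥(stabilizer H (T, a)) (S.F5 w T a) +
    oc ↥(stabilizer H (T, a)) (S.F4 w T a) =
    os ↥(stabilizer ↥(stabilizer H w) (S.fq w O (S.rho w T), S.fq w O (S.rho w a)))
      (S.FK w O T a) (S.cF w O T a) := by
  have f5 := finOrb_same (fun g => h.h12 g) (fin5 (S := S) (w := w) (T := T) (a := a))
  have f4 := finOrb_same (fun g => h.h12 g) (fin4 (S := S) (w := w) (T := T) (a := a))
  have e5 := os_oc (f := S.cl5 w O) f5 h.finFK (fun g s hs => h.inv5 g hs) (h.FK_smul) cl5_smul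
  have e4 := os_oc (f := S.cl4 w O) f4 h.finFK (fun g s hs => h.inv4 g hs) (h.FK_smul) cl4_smul
  have s5 : {s | s ∈ S.F5 w T a ∧ S.cl5 w O s ∈ S.FK w O T a} = S.F5 w T a := by
    ext f
    constructor
    · exact fun k => k.1
    · intro hf
      obtain ⟨u, k1, k2⟩ := h.far5 hnb hf
      exact ⟨hf, u, _, k1, k2, rfl⟩
  have s4 : {s | s ∈ S.F4 w T a ∧ S.cl4 w O s ∈ S.FK w O T a} = S.F4 w T a := by
    ext f
    constructor
    · exact fun k => k.1
    · intro hf
      obtain ⟨u, k1, k2⟩ := h.far4 hf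
      exact ⟨hf, u, _, k1, k2, rfl⟩
  rw [s5] at e5
  rw [s4] at e4
  rw [oc_same (fun g => h.h12 g) (fun g => h.h21 g) (fin5 (S := S) (w := w) (T := T) (a := a)),
    oc_same (fun g => h.h12 g) (fun g => h.h21 g) (fin4 (S := S) (w := w) (T := T) (a := a)), ← e5, ← e4, ← os_add h.finFK]
  rfl

/-- THE LAW OF A LOCAL TOP -/
theorem law (hnb : S.NB) {hc : S.Conn} {hm : (S.k0 hc w).Min} {hn : S.SqN w O} {E : V → Prop}
    (hs : S.P.SqE E) (ho : S.OldT w O) :
    S.P.X T a + oc ↥(stabilizer ↥(stabilizer H w) (S.fq w O (S.rho w T), S.fq w O (S.rho w a)))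
        (S.FK w O T a) ≤
      (S.kfP hc w O hm hn).X (S.fq w O (S.rho w T)) (S.fq w O (S.rho w a)) +
      os ↥(stabilizer ↥(stabilizer H w) (S.fq w O (S.rho w T), S.fq w O (S.rho w a)))
        (S.FK w O T a) (S.cF w O T a) := by
  have h1 := h.X_eq
  have h2 := h.far_sum hnb
  have h3 := h.le (hm := hm) (hn := hn) hs ho
  omega

/-- every class has a far strand -/
theorem cF_pos {k : S.Q w O} (hk : k ∈ S.FK w O T a) : 1 ≤ S.cF w O T a k := by
  have pos : ∀ {G Y : Type} [Group G] [MulAction G Y] {A : Set Y} {y : Y}, FinOrb G A → y ∈ A →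
      1 ≤ oc G A := by
    intro G Y _ _ A y hf hy
    exact (Set.ncard_pos hf).2 ⟨Quotient.mk'' y, y, hy, rfl⟩
  have f5 := finOrb_same (fun g => h.h12 g) (fin5 (S := S) (w := w) (T := T) (a := a))
  have f4 := finOrb_same (fun g => h.h12 g) (fin4 (S := S) (w := w) (T := T) (a := a))
  unfold cF
  rcases h.FK_ex hk with ⟨f, hf, rfl⟩ | ⟨p, hp, rfl⟩
  · have := pos (fin_fib (π := S.cl5 w O) cl5_smul f5 (S.cl5 w O f)) (y := f) ⟨hf, rfl⟩
    omega
  · have := pos (fin_fib (π := S.cl4 w O) cl4_smul f4 (S.cl4 w O p)) (y := p) ⟨hp, rfl⟩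
    omega

/-- (LOC): THE LOSS AT A LOCAL TOP IS AT MOST THE SUM OF `c_k - 1` -/
theorem law_sub (hnb : S.NB) {hc : S.Conn} {hm : (S.k0 hc w).Min} {hn : S.SqN w O} {E : V → Prop}
    (hs : S.P.SqE E) (ho : S.OldT w O) :
    S.P.X T a ≤ (S.kfP hc w O hm hn).X (S.fq w O (S.rho w T)) (S.fq w O (S.rho w a)) +
      os ↥(stabilizer ↥(stabilizer H w) (S.fq w O (S.rho w T), S.fq w O (S.rho w a)))
        (S.FK w O T a) (fun k => S.cF w O T a k - 1) := by
  have h2 := h.law (hm := hm) (hn := hn) hnb hs ho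
  have h3 : os ↥(stabilizer ↥(stabilizer H w) (S.fq w O (S.rho w T), S.fq w O (S.rho w a)))
      (S.FK w O T a) (S.cF w O T a) =
      os ↥(stabilizer ↥(stabilizer H w) (S.fq w O (S.rho w T), S.fq w O (S.rho w a)))
      (S.FK w O T a) (fun k => S.cF w O T a k - 1) +
      oc ↥(stabilizer ↥(stabilizer H w) (S.fq w O (S.rho w T), S.fq w O (S.rho w a)))
      (S.FK w O T a) := by
    rw [← os_one h.finFK, ← os_add h.finFK]
    refine os_congr h.finFK fun k hk => ?_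
    have := h.cF_pos hk
    omega
  omega

/-- the stabiliser of the old arrow in `H_w` is the stabiliser of its image -/
theorem st_eq : stabilizer ↥(stabilizer H w) (T, a) =
    stabilizer ↥(stabilizer H w) (S.fq w O (S.rho w T), S.fq w O (S.rho w a)) := by
  ext g
  constructor
  · intro hg
    have hg' : g.1 • (T, a) = (T, a) := hg
    exact h.st_iff.2 ⟨congrArg Prod.fst hg', congrArg Prod.snd hg'⟩
  · intro hg
    obtain ⟨h1, h2⟩ := h.st_iff.1 hg
    exact Prod.ext h1 h2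

theorem os_st {Z : Type} [MulAction ↥(stabilizer H w) Z] (A : Set Z) (f : Z → ℕ) :
    os ↥(stabilizer ↥(stabilizer H w) (T, a)) A f =
    os ↥(stabilizer ↥(stabilizer H w) (S.fq w O (S.rho w T), S.fq w O (S.rho w a))) A f :=
  congrArg (fun K : Subgroup ↥(stabilizer H w) => os ↥K A f) h.st_eq

/-- every class has only one far strand -/
theorem law_one (hnb : S.NB) {hc : S.Conn} {hm : (S.k0 hc w).Min} {hn : S.SqN w O} {E : V → Prop}
    (hs : S.P.SqE E) (ho : S.OldT w O) (h1 : ∀ k ∈ S.FK w O T a, S.cF w O T a k ≤ 1) :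
    S.P.X T a ≤ (S.kfP hc w O hm hn).X (S.fq w O (S.rho w T)) (S.fq w O (S.rho w a)) := by
  have h2 := h.law (hm := hm) (hn := hn) hnb hs ho
  have h3 := os_le h.finFK h1
  rw [os_one h.finFK] at h3
  omega

end LTp

end SyQ

end Pool.Agent.DI
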