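import Pool.Agent.DI.QFd2
import Pool.Agent.DI.Quot

/-!
# The folded slice, complexes with pentagons and squares

Cells of `S.kf hc w O`: the images of the pentagons centred in the orbit of `w` and of the squares
(zero squares of pentagons, squares of `K`) whose image is not degenerate.
-/

namespace Pool.Agent.DI

open MulAction
open Pool.Agent.SAF (InC orbs FinOrb oc Decomp SAn SA Conv hull dist_edge FinOrb_iff exists_next)
open Pool.Agent.BT (PX PQ JS bey exits lz lz_self lz_ne lz_symm x_next_unique)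
open Pool.Agent.BT.TA

namespace SyQ

variable {H V : Type} [Group H] [MulAction H V] (S : SyQ H V)

/-- no star is open -/
def OR.none (w : S.X) : S.OR w where
  op _ _ := False
  smul _ _ _ h := h
  near _ _ h := h.elim

variable {S}

/-- the fate of a zero square: one of the diagonals is collapsed or it belongs to an open star and
contains a pole of `q` -/
theorem fold_sq {w u : S.X} {O : S.OR w} {x q x' : V} (hq : S.Qs w u q x x') :
    S.fq w O (S.rho w x) = S.fq w O (S.rho w x') ∨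
      S.fq w O (S.rho w q) = S.fq w O (Sum.inr ⟨u, hq.adj⟩) ∨
      (O.op u q ∧ (S.K.ar q x ∨ S.K.ar q x')) := by
  by_cases ho : O.op u q
  · have hw := O.near u q ho
    rcases hq.E1 with e1 | e1
    · rcases hq.E2 with e2 | e2
      · left
        rw [S.rho_near hq.l.1, S.rho_near hq.r.1]
        exact (FR.par u q ⟨x, hq.l.1⟩ ⟨x', hq.r.1⟩ hq ho e1 e2).fq
      · exact Or.inr (Or.inr ⟨ho, Or.inr e2⟩)
    · exact Or.inr (Or.inr ⟨ho, Or.inl e1⟩)
  · by_cases h : S.SD w u q
    · right; left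
      have hw := h.1.1
      rw [S.rho_near hw]
      exact fq_inr.2 (Sk.inl.2 ⟨h, ho⟩)
    · left
      exact Gc.fq (Relation.EqvGen.rel _ _ hq) h ho

variable (S)

/-- the four vertices of a square of the unfolded slice -/
noncomputable def vq (w : S.X) : S.C4 w ⊕ S.C4q w → Fin 4 → S.SV w
  | Sum.inl p => ![S.rho w (S.tr p.g p.1.1 p.1.2.1), S.rho w (S.tr p.g p.1.1 (p.1.2.1 + 1)),
      S.rho w (S.tr p.g p.1.1 (p.1.2.1 + 2)), S.rho w (S.tr p.g p.1.1 (p.1.2.1 + 3))]
  | Sum.inr p => fun k => S.rho w (S.tq p.g p.1.1 k)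

theorem vq_cb (hc : S.Conn) (w : S.X) (p : S.C4 w ⊕ S.C4q w) :
    (S.k0 hc w).cb (Sum.inr p) = S.vq w p 0 := by
  rcases p with p | p
  · rfl
  · rfl

theorem vq_cw (hc : S.Conn) (w : S.X) (p : S.C4 w ⊕ S.C4q w) :
    (S.k0 hc w).cw (Sum.inr p) = [S.vq w p 1, S.vq w p 2, S.vq w p 3, S.vq w p 0] := by
  rcases p with p | p
  · rfl
  · rfl

/-- the square stays open -/
def kept (w : S.X) (O : S.OR w) (p : S.C4 w ⊕ S.C4q w) : Prop :=
  S.fq w O (S.vq w p 0) ≠ S.fq w O (S.vq w p 2) ∧ S.fq w O (S.vq w p 1) ≠ S.fq w O (S.vq w p 3)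

/-- the data of the folded slice -/
noncomputable def kfQ (hc : S.Conn) (w : S.X) (O : S.OR w) : Qt (S.k0 hc w) (S.fq w O) where
  ar := S.arQ w O
  rk := S.rkQ w O
  equi h a := fq_smul h a
  surj := fq_surj w O
  ar_rk _ _ h := arQ_rk h
  ar_smul h _ _ k := arQ_smul h k
  rk_smul h c := rkQ_smul h c
  two _ _ _ _ ha hb hc := arQ_two ha hb hc
  e1 := by
    rintro a b (e | e)
    · exact arQ_map e
    · rcases arQ_map (O := O) e with k | k | k
      · exact Or.inl k.symm
      · exact Or.inr (Or.inr k)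
      · exact Or.inr (Or.inl k)
  e2 := by
    rintro c d ⟨a, rfl, hs, x, rfl, y, hy, rfl⟩
    refine ⟨S.rho w (S.tm w O x.1), y, Or.inl hy, ?_, rfl⟩
    rw [← (Tm_tm w O x.1).fq, S.rho_near x.2]
    rfl
  mg := by
    intro x y h
    apply mg_of_eqv
    have k := fq_eq.1 h
    have key : ∀ a b, S.FR w O a b → S.fq w O a = S.fq w O b ∧
        ((∃ c, (S.k0 hc w).E c a ∧ (S.k0 hc w).E c b) ∨ (S.k0 hc w).E a b) := by
      intro a b k
      refine ⟨k.fq, Or.inl ?_⟩
      cases k with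
      | mer u q x x' h1 h2 =>
        have e1 := sar_up h1.adj h1.l
        have e2 := sar_up h1.adj h1.r
        rw [S.rho_near x.2] at e1
        rw [S.rho_near x'.2] at e2
        exact ⟨Sum.inr ⟨u, h1.adj⟩, Or.inr e1, Or.inr e2⟩
      | par u q x x' h1 h2 =>
        have e1 := sar_up h1.adj h1.l
        have e2 := sar_up h1.adj h1.r
        rw [S.rho_near x.2] at e1
        rw [S.rho_near x'.2] at e2
        exact ⟨Sum.inr ⟨u, h1.adj⟩, Or.inr e1, Or.inr e2⟩
      | dia q u h1 =>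
        obtain ⟨hw, a, b, hne, ha, hb, hg⟩ := h1.1
        have ca := h1.1.two ha
        have e1 := sar_up ca.1 ca.2
        have e2 := sar_hor q.2 ca.2.1 ha
        rw [S.rho_near q.2] at e2
        exact ⟨S.rho w a, Or.inr e2, Or.inl e1⟩
    exact Relation.EqvGen.mono key _ _ k
  stab := S.inC_Q w O
  J := S.C5 w ⊕ {p : S.C4 w ⊕ S.C4q w // S.kept w O p}
  finJ := by
    have := S.finC5 w
    have := S.finC4 w
    have := S.finC4q w
    infer_instance
  ι := Sum.map id Subtype.val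
  drop := by
    rintro (i | p) hi φ hs
    · exact absurd rfl (hi (Sum.inl i))
    · have hl := lz_symm φ hs
      have h : S.fq w O (S.vq w p 0) = S.fq w O (S.vq w p 2) ∨
          S.fq w O (S.vq w p 1) = S.fq w O (S.vq w p 3) := by
        by_contra hcon
        push Not at hcon
        exact hi (Sum.inr ⟨p, hcon⟩) rfl
      rw [S.vq_cb, S.vq_cw]
      simp only [List.map_cons, List.map_nil]
      generalize S.fq w O (S.vq w p 0) = a at h ⊢
      generalize S.fq w O (S.vq w p 1) = b at h ⊢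
      generalize S.fq w O (S.vq w p 2) = c at h ⊢
      generalize S.fq w O (S.vq w p 3) = d at h ⊢
      simp only [ps_cons, ps_nil, add_zero]
      rcases h with rfl | rfl
      · rw [hl b a, hl d a]
        have k1 := zz2 (lz φ a b)
        have k2 := zz2 (lz φ a d)
        linear_combination k1 + k2
      · rw [hl b a, hl b c]
        have k1 := zz2 (lz φ a b)
        have k2 := zz2 (lz φ c b)
        linear_combination k1 + k2

/-- THE FOLDED SLICE at `w` -/
noncomputable def kf (hc : S.Conn) (w : S.X) (O : S.OR w) : GX ↥(stabilizer H w) (S.Q w O) :=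
  (S.kfQ hc w O).gx

theorem kf_ar (hc : S.Conn) (w : S.X) (O : S.OR w) : (S.kf hc w O).ar = S.arQ w O := rfl

theorem kf_rk (hc : S.Conn) (w : S.X) (O : S.OR w) : (S.kf hc w O).rk = S.rkQ w O := rfl

theorem kfQ_inj (hc : S.Conn) (w : S.X) (O : S.OR w) : Function.Injective (S.kfQ hc w O).ι :=
  Function.Injective.sumMap Function.injective_id Subtype.val_injective

theorem kf_area_le (hc : S.Conn) (w : S.X) (O : S.OR w) : (S.kf hc w O).area ≤ S.K.area :=
  ((S.kfQ hc w O).area_le (S.kfQ_inj hc w O)).trans (S.k0_area_le hc w)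

/-- in the minimal case the pentagons have no stutters -/
theorem kf_area (hc : S.Conn) (w : S.X) (O : S.OR w) (hm : (S.k0 hc w).Min) :
    (S.kf hc w O).area = (S.k0 hc w).area := by
  apply le_antisymm ((S.kfQ hc w O).area_le (S.kfQ_inj hc w O))
  exact hm _ (S.kf hc w O)

theorem kf_min (hc : S.Conn) (w : S.X) (O : S.OR w) (hm : (S.k0 hc w).Min) :
    (S.kf hc w O).Min := by
  intro V'' _ K''
  rw [S.kf_area hc w O hm]
  exact hm V'' K''

theorem kf_stn (hc : S.Conn) (w : S.X) (O : S.OR w) (hm : (S.k0 hc w).Min) (i : S.C5 w) :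
    stn (S.fq w O) (S.cbS w (Sum.inl i)) (S.cwS w (Sum.inl i)) = 0 := by
  classical
  have := (S.kfQ hc w O).finJ
  have := (S.k0 hc w).finI
  let := Fintype.ofFinite (S.kfQ hc w O).J
  let := Fintype.ofFinite (S.k0 hc w).I
  by_contra hne
  have h0 := S.kf_area hc w O hm
  have h1 : (S.kf hc w O).area = _ := (S.kfQ hc w O).gx_area
  have h2 : (S.k0 hc w).area = _ := (S.k0 hc w).area_eq
  rw [h1, h2] at h0
  have h3 : ∑ j : (S.kfQ hc w O).J, (((S.k0 hc w).cw ((S.kfQ hc w O).ι j)).length -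
      stn (S.fq w O) ((S.k0 hc w).cb ((S.kfQ hc w O).ι j))
        ((S.k0 hc w).cw ((S.kfQ hc w O).ι j)) - 4) <
      ∑ j : (S.kfQ hc w O).J, (((S.k0 hc w).cw ((S.kfQ hc w O).ι j)).length - 4) := by
    apply Finset.sum_lt_sum
    · intro j _
      omega
    · refine ⟨Sum.inl i, Finset.mem_univ _, ?_⟩
      have e1 : (S.k0 hc w).cw ((S.kfQ hc w O).ι (Sum.inl i)) = S.cwS w (Sum.inl i) := rfl
      have e2 : (S.k0 hc w).cb ((S.kfQ hc w O).ι (Sum.inl i)) = S.cbS w (Sum.inl i) := rfl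
      have e3 : (S.cwS w (Sum.inl i)).length = 5 := rfl
      rw [e1, e2, e3]
      omega
  have h4 : ∑ j : (S.kfQ hc w O).J, (((S.k0 hc w).cw ((S.kfQ hc w O).ι j)).length - 4) =
      ∑ c ∈ Finset.univ.map ⟨(S.kfQ hc w O).ι, S.kfQ_inj hc w O⟩,
        (((S.k0 hc w).cw c).length - 4) := by
    rw [Finset.sum_map]
    rfl
  have h5 : ∑ c ∈ Finset.univ.map ⟨(S.kfQ hc w O).ι, S.kfQ_inj hc w O⟩,
        (((S.k0 hc w).cw c).length - 4) ≤ ∑ c : (S.k0 hc w).I, (((S.k0 hc w).cw c).length - 4) :=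
    Finset.sum_le_sum_of_subset (Finset.subset_univ _)
  omega

/-- consecutive vertices of a pentagon are not identified -/
theorem kf_ne (hc : S.Conn) (w : S.X) (O : S.OR w) (hm : (S.k0 hc w).Min) (i : S.C5 w)
    (k : Fin 5) : S.fq w O (S.rho w (S.tr i.g i.1 k)) ≠ S.fq w O (S.rho w (S.tr i.g i.1 (k + 1))) := by
  have h := S.kf_stn hc w O hm i
  have key : ∀ (x y : S.SV w) (l : List (S.SV w)), stn (S.fq w O) x (y :: l) = 0 →
      S.fq w O x ≠ S.fq w O y ∧ stn (S.fq w O) y l = 0 := by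
    intro x y l h
    by_cases e : S.fq w O y = S.fq w O x
    · rw [stn_cons_eq e] at h
      omega
    · rw [stn_cons_ne e] at h
      exact ⟨fun k => e k.symm, h⟩
  obtain ⟨h0, h⟩ := key _ _ _ h
  obtain ⟨h1, h⟩ := key _ _ _ h
  obtain ⟨h2, h⟩ := key _ _ _ h
  obtain ⟨h3, h⟩ := key _ _ _ h
  obtain ⟨h4, -⟩ := key _ _ _ h
  fin_cases k
  · exact h0
  · exact h1
  · exact h2
  · exact h3
  · exact h4

/-- the steps of the squares are not collapsed -/
theorem sq_ne (w : S.X) (O : S.OR w) (p : S.C4 w ⊕ S.C4q w) (hp : S.kept w O p) (hc : S.Conn)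
    (hn : ∀ k : Fin 4, S.fq w O (S.vq w p k) ≠ S.fq w O (S.vq w p (k + 1))) :
    (S.kf hc w O).cw (Sum.inr ⟨p, hp⟩) = [S.fq w O (S.vq w p 1), S.fq w O (S.vq w p 2),
      S.fq w O (S.vq w p 3), S.fq w O (S.vq w p 0)] := by
  have h0 : S.fq w O (S.vq w p 1) ≠ S.fq w O (S.vq w p 0) := (hn 0).symm
  have h1 : S.fq w O (S.vq w p 2) ≠ S.fq w O (S.vq w p 1) := (hn 1).symm
  have h2 : S.fq w O (S.vq w p 3) ≠ S.fq w O (S.vq w p 2) := (hn 2).symm
  have h3 : S.fq w O (S.vq w p 0) ≠ S.fq w O (S.vq w p 3) := (hn 3).symm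
  have e : (S.kf hc w O).cw (Sum.inr ⟨p, hp⟩) = dst (S.fq w O ((S.k0 hc w).cb (Sum.inr p)))
      (((S.k0 hc w).cw (Sum.inr p)).map (S.fq w O)) := rfl
  rw [e, S.vq_cb, S.vq_cw]
  simp only [List.map_cons, List.map_nil]
  rw [dst_cons_ne h0, dst_cons_ne h1, dst_cons_ne h2, dst_cons_ne h3, dst_nil]

end SyQ

end Pool.Agent.DI
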