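import Pool.Agent.DI.FCb
import Pool.Agent.DI.FCq
import Pool.Agent.DI.QKF
import Pool.Agent.DI.QK0P

/-!
# Flags of the raw slice and of the folded slice

`Qt.P45`, `Qt.fm`: a quotient `Q : Qt K f` without stutters in the kept cells and without degenerate kept
squares: the kept cells are pentagons and squares, and the flags of the quotient are the flags of the kept
cells (`FM`). `S.k0P_nd`, `S.k0fc`: the flags of the raw slice of `S : SyQ`; `S.kfP`, `S.kffc`,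
`S.kfM : FM (k0fc) (kffc)`.
-/

namespace Pool.Agent.DI

open MulAction
open Pool.Agent.SAF (InC orbs FinOrb oc mk_eq_iff FinOrb_iff)

theorem dst_map {V V' : Type} (f : V → V') (x : V) (l : List V) (h : stn f x l = 0) :
    dst (f x) (l.map f) = l.map f := by
  induction l generalizing x with
  | nil => rfl
  | cons y l ih =>
    by_cases e : f y = f x
    · rw [stn_cons_eq e] at h
      omega
    · rw [stn_cons_ne e] at h
      rw [List.map_cons, dst_cons_ne e, ih y h]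

namespace Qt

variable {H V V' : Type} [Group H] [MulAction H V] [MulAction H V'] {K : GX H V} {f : V → V'}
  (Q : Qt K f)

/-- the kept cells have no stutters -/
def NSt : Prop := ∀ j, stn f (K.cb (Q.ι j)) (K.cw (Q.ι j)) = 0

variable {Q} (hs : Q.NSt)

include hs

theorem cw_eq (j : Q.J) : Q.gx.cw j = (K.cw (Q.ι j)).map f := dst_map f _ _ (hs j)

theorem len_eq (j : Q.J) : Q.gx.len j = K.len (Q.ι j) := by
  show (Q.gx.cw j).length = (K.cw (Q.ι j)).length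
  rw [cw_eq hs, List.length_map]

theorem vx_eq (j : Q.J) (n : ℕ) : Q.gx.vx j n = f (K.vx (Q.ι j) n) := by
  rw [← Q.gx.vx_mod j n, ← K.vx_mod (Q.ι j) n, len_eq hs]
  rcases Nat.eq_zero_or_pos (K.len (Q.ι j)) with h0 | h0
  · have e1 : K.cw (Q.ι j) = [] := List.length_eq_zero_iff.1 h0
    have e2 : Q.gx.cw j = [] := by rw [cw_eq hs, e1]; rfl
    have h1 : Q.gx.len j = 0 := by
      show (Q.gx.cw j).length = 0
      rw [e2]
      rfl
    have k1 : ∀ m, K.vx (Q.ι j) m = K.cb (Q.ι j) := by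
      intro m
      unfold GX.vx
      rw [e1]
      show (K.cb (Q.ι j) :: []).getD (m % _) _ = _
      rcases (m % K.len (Q.ι j)) with _ | k
      · rfl
      · rfl
    have k2 : ∀ m, Q.gx.vx j m = Q.gx.cb j := by
      intro m
      unfold GX.vx
      rw [e2]
      show (Q.gx.cb j :: []).getD (m % _) _ = _
      rcases (m % Q.gx.len j) with _ | k
      · rfl
      · rfl
    rw [k1, k2]
    rfl
  · have hl : n % K.len (Q.ι j) < K.len (Q.ι j) := Nat.mod_lt _ h0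
    rw [Q.gx.vx_of_le (by rw [len_eq hs]; exact hl.le), K.vx_of_le hl.le, cw_eq hs]
    generalize n % K.len (Q.ι j) = m at hl
    cases m with
    | zero => rfl
    | succ m =>
      rw [List.getD_cons_succ, List.getD_cons_succ]
      have hm : m < (K.cw (Q.ι j)).length := Nat.lt_of_succ_lt hl
      rw [List.getD_eq_getElem _ _ (by rw [List.length_map]; exact hm),
        List.getD_eq_getElem _ _ hm, List.getElem_map]

/-- the kept cells are pentagons and squares -/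
noncomputable def p45 (P : P45 K) : P45 Q.gx where
  sq j := P.sq (Q.ι j)
  pt j k := f (P.pt (Q.ι j) k)
  qt j k := f (P.qt (Q.ι j) k)
  cb5 j h := by
    show f (K.cb (Q.ι j)) = _
    rw [P.cb5 _ h]
  cw5 j h := by
    rw [cw_eq hs, P.cw5 _ h]
    rfl
  cb4 j h := by
    show f (K.cb (Q.ι j)) = _
    rw [P.cb4 _ h]
  cw4 j h := by
    rw [cw_eq hs, P.cw4 _ h]
    rfl

/-- the lift of a position -/
noncomputable def lf (e : Q.gx.LE) : K.LE :=
  (⟨Q.ι e.1.1, Fin.cast (len_eq hs e.1.1) e.1.2⟩, e.2)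

theorem lf_c (e : Q.gx.LE) : f (K.c0 (lf hs e)) = Q.gx.c0 e ∧ f (K.c1 (lf hs e)) = Q.gx.c1 e ∧
    f (K.c2 (lf hs e)) = Q.gx.c2 e := by
  refine ⟨?_, ?_, ?_⟩
  · show f (e.2 • K.vx (Q.ι e.1.1) _) = e.2 • Q.gx.vx e.1.1 _
    rw [Q.equi, vx_eq hs]
    rfl
  · show f (e.2 • K.vx (Q.ι e.1.1) _) = e.2 • Q.gx.vx e.1.1 _
    rw [Q.equi, vx_eq hs]
    rfl
  · show f (e.2 • K.vx (Q.ι e.1.1) _) = e.2 • Q.gx.vx e.1.1 _
    rw [Q.equi, vx_eq hs]
    rfl

theorem lf_nx (e : Q.gx.LE) : lf hs (Q.gx.nx e) = K.nx (lf hs e) := by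
  obtain ⟨⟨i, j⟩, g⟩ := e
  exact K.le_ext (congrArg (fun n => ((j : ℕ) + 1) % n) (len_eq hs i))

theorem lf_pv (e : Q.gx.LE) : lf hs (Q.gx.pv e) = K.pv (lf hs e) := by
  obtain ⟨⟨i, j⟩, g⟩ := e
  exact K.le_ext (congrArg (fun n => ((j : ℕ) + (n - 1)) % n) (len_eq hs i))

theorem lf_inj (hi : Function.Injective Q.ι) {e e' : Q.gx.LE} (h : lf hs e = lf hs e') :
    e = e' := by
  obtain ⟨⟨i, j⟩, g⟩ := e
  obtain ⟨⟨i', j'⟩, g'⟩ := e'
  have h1 : (⟨Q.ι i, Fin.cast (len_eq hs i) j⟩ : K.Pos) = ⟨Q.ι i', Fin.cast (len_eq hs i') j'⟩ :=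
    congrArg Prod.fst h
  have h2 : g = g' := congrArg Prod.snd h
  subst h2
  have h3 := hi (congrArg Sigma.fst h1)
  subst h3
  have h4 := eq_of_heq (Sigma.mk.inj h1).2
  have h5 := congrArg Fin.val h4
  exact Q.gx.le_ext h5

/-- no kept square is degenerate -/
theorem p45_nd (P : P45 K) (hn : ∀ j, P.sq (Q.ι j) →
    f (P.qt (Q.ι j) 0) ≠ f (P.qt (Q.ι j) 2) ∧ f (P.qt (Q.ι j) 1) ≠ f (P.qt (Q.ι j) 3)) :
    (p45 hs P).ND := hn

/-- THE MAP OF THE FLAG COMPLEXES -/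
noncomputable def fm (P : P45 K) (nd : P.ND) (hi : Function.Injective Q.ι)
    (nd' : (p45 hs P).ND) : FM (P.fc nd) ((p45 hs P).fc nd') where
  f := f
  ph g := (lf hs g.1, g.2)
  f_smul := Q.equi
  ph_smul h g := rfl
  inj := by
    rintro ⟨e, b⟩ ⟨e', b'⟩ h
    have h1 : lf hs e = lf hs e' := congrArg Prod.fst h
    have h2 : b = b' := congrArg Prod.snd h
    rw [lf_inj hs hi h1, h2]
  y_ph g := (lf_c hs g.1).2.1
  r_ph g := by
    obtain ⟨e, b⟩ := g
    cases b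
    · exact Prod.ext (lf_pv hs e).symm rfl
    · exact Prod.ext (lf_nx hs e).symm rfl
  v_ph g := rfl

/-- the kept flags -/
theorem fm_ph (P : P45 K) (nd : P.ND) (hi : Function.Injective Q.ι) (nd' : (p45 hs P).ND)
    (g : FL K) : (∃ g1, (fm hs P nd hi nd').ph g1 = g) ↔ ∃ j, Q.ι j = g.1.1.1 := by
  constructor
  · rintro ⟨g1, rfl⟩
    exact ⟨g1.1.1.1, rfl⟩
  · obtain ⟨⟨⟨i, k⟩, h⟩, b⟩ := g
    rintro ⟨j, rfl⟩
    exact ⟨((⟨j, Fin.cast (len_eq hs j).symm k⟩, h), b), rfl⟩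

end Qt

namespace P45

variable {H V : Type} [Group H] [MulAction H V] {K : GX H V} (P : P45 K)

theorem vx5' {i : K.I} (h : ¬ P.sq i) (j : Fin 5) : K.vx i j.1 = P.pt i j := by
  have hl : j.1 ≤ K.len i := by
    rw [P.len5 h]
    omega
  rw [K.vx_of_le hl, P.cb5 i h, P.cw5 i h]
  fin_cases j <;> rfl

/-- no backtracking pentagon -/
theorem nb5 (hnb : ∀ e : K.LE, K.c0 e ≠ K.c2 e) {i : K.I} (h : ¬ P.sq i) (k : Fin 5) :
    P.pt i k ≠ P.pt i (k + 2) := by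
  have h5 := P.len5 h
  have hk : k.1 < K.len i := by
    rw [h5]
    exact k.2
  have := hnb ((⟨i, ⟨k.1, hk⟩⟩, 1) : K.LE)
  intro e
  apply this
  show (1 : H) • K.vx i k.1 = (1 : H) • K.vx i (k.1 + 2)
  rw [one_smul, one_smul]
  have e2 : K.vx i (k.1 + 2) = P.pt i (k + 2) := by
    rw [← P.vx5' h, ← K.vx_mod i (k.1 + 2), h5]
    rfl
  rw [P.vx5' h, e2]
  exact e

/-- no degenerate square -/
theorem nd_nb (hnb : ∀ e : K.LE, K.c0 e ≠ K.c2 e) : P.ND := by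
  intro i h
  have h4 := P.len4 h
  have key : ∀ k : Fin 4, P.qt i k ≠ P.qt i (k + 2) := by
    intro k e
    have hk : k.1 < K.len i := by
      rw [h4]
      exact k.2
    apply hnb ((⟨i, ⟨k.1, hk⟩⟩, 1) : K.LE)
    show (1 : H) • K.vx i k.1 = (1 : H) • K.vx i (k.1 + 2)
    rw [one_smul, one_smul]
    have e2 : K.vx i (k.1 + 2) = P.qt i (k + 2) := by
      rw [← P.vx4 h, ← K.vx_mod i (k.1 + 2), h4]
      rfl
    rw [P.vx4 h, e2]
    exact e
  exact ⟨key 0, key 1⟩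

end P45

namespace SyQ

variable {H V : Type} [Group H] [MulAction H V] (S : SyQ H V)

/-- the squares of the raw slice are not degenerate -/
theorem k0P_nd (hc : S.Conn) (hnb : S.NB) (w : S.X) : (S.k0P hc w).ND := by
  rintro c ⟨p, rfl⟩
  rcases p with p | p
  · obtain ⟨hu, c0, c2, s1, s3, s4⟩ := p.sq
    constructor
    · show S.rho w (S.tr p.g p.1.1 p.1.2.1) ≠ S.rho w (S.tr p.g p.1.1 (p.1.2.1 + 2))
      rw [S.rho_near c0.1, S.rho_near c2.1]
      intro e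
      have e1 : S.tr p.g p.1.1 p.1.2.1 = S.tr p.g p.1.1 (p.1.2.1 + 2) :=
        congrArg Subtype.val (Sum.inl.inj e)
      exact S.P.nb5 hnb p.2.1 _ (smul_left_cancel p.g e1)
    · show S.rho w (S.tr p.g p.1.1 (p.1.2.1 + 1)) ≠ S.rho w (S.tr p.g p.1.1 (p.1.2.1 + 3))
      rw [S.rho_bey hu s3]
      intro e
      by_cases hw : w ∈ S.J (S.tr p.g p.1.1 (p.1.2.1 + 1))
      · rw [S.rho_near hw] at e
        cases e
      · rw [S.rho_far hw] at e
        have e1 : S.dir w (S.tr p.g p.1.1 (p.1.2.1 + 1)) = p.u :=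
          congrArg Subtype.val (Sum.inr.inj e)
        obtain ⟨y, hy⟩ := S.js.ne (S.tr p.g p.1.1 (p.1.2.1 + 1))
        have h1 := S.dir_bey hw hy
        rw [e1] at h1
        exact BT.TA.bey_not (s1 hy) h1
  · exact p.nd

/-- THE FLAGS OF THE RAW SLICE -/
noncomputable def k0fc (hc : S.Conn) (hnb : S.NB) (w : S.X) :
    FC (S.k0 hc w) (FL (S.k0 hc w)) := (S.k0P hc w).fc (S.k0P_nd hc hnb w)

theorem k0fc_exc (hc : S.Conn) (hnb : S.NB) (w : S.X) :
    (S.k0fc hc hnb w).exc = (S.k0 hc w).pexc := (S.k0P hc w).fc_exc _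

/-- the steps of the kept squares are not collapsed -/
def SqN (w : S.X) (O : S.OR w) : Prop := ∀ p, S.kept w O p → ∀ k : Fin 4,
  S.fq w O (S.vq w p k) ≠ S.fq w O (S.vq w p (k + 1))

/-- no stutters in the folded slice -/
theorem kf_nst (hc : S.Conn) (w : S.X) (O : S.OR w) (hm : (S.k0 hc w).Min) (hn : S.SqN w O) :
    (S.kfQ hc w O).NSt := by
  rintro (i | ⟨p, hp⟩)
  · exact S.kf_stn hc w O hm i
  · show stn (S.fq w O) ((S.k0 hc w).cb (Sum.inr p)) ((S.k0 hc w).cw (Sum.inr p)) = 0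
    rw [S.vq_cb, S.vq_cw]
    have h := hn p hp
    have h0 : S.fq w O (S.vq w p 1) ≠ S.fq w O (S.vq w p 0) := (h 0).symm
    have h1 : S.fq w O (S.vq w p 2) ≠ S.fq w O (S.vq w p 1) := (h 1).symm
    have h2 : S.fq w O (S.vq w p 3) ≠ S.fq w O (S.vq w p 2) := (h 2).symm
    have h3 : S.fq w O (S.vq w p 0) ≠ S.fq w O (S.vq w p 3) := (h 3).symm
    rw [stn_cons_ne h0, stn_cons_ne h1, stn_cons_ne h2, stn_cons_ne h3, stn_nil]

theorem k0P_qt (hc : S.Conn) (w : S.X) (p : S.C4 w ⊕ S.C4q w) (k : Fin 4) :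
    (S.k0P hc w).qt (Sum.inr p) k = S.vq w p k := by
  rcases p with p | p
  · rfl
  · rfl

/-- THE CELLS OF THE FOLDED SLICE ARE PENTAGONS AND SQUARES -/
noncomputable def kfP (hc : S.Conn) (w : S.X) (O : S.OR w) (hm : (S.k0 hc w).Min)
    (hn : S.SqN w O) : P45 (S.kf hc w O) := Qt.p45 (S.kf_nst hc w O hm hn) (S.k0P hc w)

theorem kfP_nd (hc : S.Conn) (w : S.X) (O : S.OR w) (hm : (S.k0 hc w).Min) (hn : S.SqN w O) :
    (S.kfP hc w O hm hn).ND := by
  refine Qt.p45_nd _ _ ?_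
  rintro (i | ⟨p, hp⟩) h
  · obtain ⟨p, h⟩ := h
    cases h
  · have e : (S.kfQ hc w O).ι (Sum.inr ⟨p, hp⟩) = Sum.inr p := rfl
    rw [e, S.k0P_qt, S.k0P_qt, S.k0P_qt, S.k0P_qt]
    exact hp

/-- THE FLAGS OF THE FOLDED SLICE -/
noncomputable def kffc (hc : S.Conn) (w : S.X) (O : S.OR w) (hm : (S.k0 hc w).Min)
    (hn : S.SqN w O) : FC (S.kf hc w O) (FL (S.kf hc w O)) :=
  (S.kfP hc w O hm hn).fc (S.kfP_nd hc w O hm hn)

theorem kffc_exc (hc : S.Conn) (w : S.X) (O : S.OR w) (hm : (S.k0 hc w).Min)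
    (hn : S.SqN w O) : (S.kffc hc w O hm hn).exc = (S.kf hc w O).pexc :=
  (S.kfP hc w O hm hn).fc_exc _

/-- THE MAP FROM THE RAW SLICE TO THE FOLDED SLICE -/
noncomputable def kfM (hc : S.Conn) (hnb : S.NB) (w : S.X) (O : S.OR w)
    (hm : (S.k0 hc w).Min) (hn : S.SqN w O) :
    FM (S.k0fc hc hnb w) (S.kffc hc w O hm hn) :=
  Qt.fm (S.kf_nst hc w O hm hn) (S.k0P hc w) (S.k0P_nd hc hnb w) (S.kfQ_inj hc w O)
    (S.kfP_nd hc w O hm hn)

theorem kfM_f (hc : S.Conn) (hnb : S.NB) (w : S.X) (O : S.OR w)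
    (hm : (S.k0 hc w).Min) (hn : S.SqN w O) : (S.kfM hc hnb w O hm hn).f = S.fq w O := rfl

/-- the kept flags: all flags of the pentagons and the flags of the kept squares -/
theorem kfM_ph (hc : S.Conn) (hnb : S.NB) (w : S.X) (O : S.OR w) (hm : (S.k0 hc w).Min)
    (hn : S.SqN w O) (g : FL (S.k0 hc w)) : (∃ g1, (S.kfM hc hnb w O hm hn).ph g1 = g) ↔
      ∀ p, g.1.1.1 = Sum.inr p → S.kept w O p := by
  refine (Qt.fm_ph (S.kf_nst hc w O hm hn) (S.k0P hc w) (S.k0P_nd hc hnb w) (S.kfQ_inj hc w O)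
    (S.kfP_nd hc w O hm hn) g).trans ?_
  constructor
  · rintro ⟨j, hj⟩ p hp
    rw [hp] at hj
    rcases j with i | q
    · cases hj
    · have h : q.1 = p := Sum.inr.inj hj
      rw [← h]
      exact q.2
  · intro h
    rcases hg : g.1.1.1 with i | p
    · exact ⟨Sum.inl i, rfl⟩
    · exact ⟨Sum.inr ⟨p, h p hg⟩, rfl⟩

end SyQ

end Pool.Agent.DI
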