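import Pool.Agent.DI.ELa

/-!
# The graphs `Theta` and `TT` as quotient multigraphs

`JM.isoOf`, `JM.ofO_iso`: comparison of quotients by different groups. `Sys.fin_ThN`, `Sys.fin_ThO`:
finiteness at a fixed edge. `Sys.JTh w u`: `Theta` at the edge `w u` with the group `Je w u`,
`Sys.JThw w`: `Theta` on the flags at `w`, `Sys.Th_iso`: they agree if all edges at `w` are in one orbit.
-/

namespace Pool.Agent.DI

open MulAction
open Pool.Agent.SAF (InC orbs FinOrb oc Decomp SAn SA Conv hull dist_edge FinOrb_iff exists_next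
  mk_eq_iff oc_le_of_inj oc_le_of_rel oc_le_of_surj oc_mono)
open Pool.Agent.BT (PX PQ JS bey exits lz lz_self lz_ne lz_symm x_next_unique)
open Pool.Agent.BT.TA

/-! ### comparison of quotients -/

section

variable {J T Ed J' T' Ed' : Type} [Group J] [MulAction J T] [MulAction J Ed] [Group J']
  [MulAction J' T'] [MulAction J' Ed']

/-- orbits of different groups -/
noncomputable def oqEqv (n : T → T')
    (h1 : ∀ x y : T, (∃ j : J, y = j • x) ↔ ∃ j : J', n y = j • n x)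
    (h2 : ∀ y : T', ∃ (x : T) (j : J'), y = j • n x) :
    orbitRel.Quotient J T ≃ orbitRel.Quotient J' T' :=
  Equiv.ofBijective
    (olift (fun x : T => oq J' (n x)) (fun j x => (oq_eq.2 ((h1 x (j • x)).1 ⟨j, rfl⟩)).symm)) (by
    constructor
    · intro p q h
      obtain ⟨x, rfl⟩ := oq_surj p
      obtain ⟨y, rfl⟩ := oq_surj q
      have h' : oq J' (n x) = oq J' (n y) := h
      exact oq_eq.2 ((h1 x y).2 (oq_eq.1 h'))
    · intro q
      obtain ⟨y, rfl⟩ := oq_surj q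
      obtain ⟨x, j, rfl⟩ := h2 y
      exact ⟨oq J x, (oq_smul j _).symm⟩)

@[simp] theorem oqEqv_oq (n : T → T')
    (h1 : ∀ x y : T, (∃ j : J, y = j • x) ↔ ∃ j : J', n y = j • n x)
    (h2 : ∀ y : T', ∃ (x : T) (j : J'), y = j • n x) (x : T) :
    oqEqv n h1 h2 (oq J x) = oq J' (n x) := rfl

/-- comparison of graphs with different groups -/
noncomputable def JM.isoOf (M : JM J T Ed) (M' : JM J' T' Ed') (n : T → T') (l : Ed → Ed')
    (n1 : ∀ x y : T, (∃ j : J, y = j • x) ↔ ∃ j : J', n y = j • n x)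
    (n2 : ∀ y : T', ∃ (x : T) (j : J'), y = j • n x)
    (l1 : ∀ x y : Ed, (∃ j : J, y = j • x) ↔ ∃ j : J', l y = j • l x)
    (l2 : ∀ y : Ed', ∃ (x : Ed) (j : J'), y = j • l x)
    (hs : ∀ e, M'.s (l e) = n (M.s e)) (ht : ∀ e, M'.t (l e) = n (M.t e)) :
    FG.Iso M.fg M'.fg where
  n := oqEqv n n1 n2
  l := oqEqv l l1 l2
  h q := by
    obtain ⟨e, rfl⟩ := oq_surj q
    left
    constructor
    · show oq J' (M'.s (l e)) = oq J' (n (M.s e))
      rw [hs]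
    · show oq J' (M'.t (l e)) = oq J' (n (M.t e))
      rw [ht]

variable {O : T → T → Prop} {hO : ∀ (j : J) x y, O x y → O (j • x) (j • y)}
  {fT : Finite (orbitRel.Quotient J T)} {fE : Finite (orbitRel.Quotient J ↥(oS O hO))}
  {O' : T' → T' → Prop} {hO' : ∀ (j : J') x y, O' x y → O' (j • x) (j • y)}
  {fT' : Finite (orbitRel.Quotient J' T')} {fE' : Finite (orbitRel.Quotient J' ↥(oS O' hO'))}

/-- comparison of graphs with different groups, edges given by relations -/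
noncomputable def JM.ofO_iso (n : T → T')
    (n1 : ∀ x y : T, (∃ j : J, y = j • x) ↔ ∃ j : J', n y = j • n x)
    (n2 : ∀ y : T', ∃ (x : T) (j : J'), y = j • n x)
    (h : ∀ x y, O x y → O' (n x) (n y))
    (l1 : ∀ x y x' y' : T, O x y → O x' y' → ((∃ j : J, x' = j • x ∧ y' = j • y) ↔
      ∃ j : J', n x' = j • n x ∧ n y' = j • n y))
    (l2 : ∀ a b : T', O' a b → ∃ (x y : T) (j : J'), O x y ∧ a = j • n x ∧ b = j • n y) :
    FG.Iso (JM.ofO O hO fT fE).fg (JM.ofO O' hO' fT' fE').fg :=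
  JM.isoOf (JM.ofO O hO fT fE) (JM.ofO O' hO' fT' fE') n (fun e => ⟨(n e.1.1, n e.1.2), h _ _ e.2⟩)
    n1 n2
    (by
      rintro ⟨⟨x, y⟩, h1⟩ ⟨⟨x', y'⟩, h2⟩
      constructor
      · rintro ⟨j, hj⟩
        have hj' : (x', y') = j • (x, y) := congrArg Subtype.val hj
        obtain ⟨k, k1, k2⟩ := (l1 x y x' y' h1 h2).1 ⟨j, congrArg Prod.fst hj', congrArg Prod.snd hj'⟩
        exact ⟨k, Subtype.ext (Prod.ext k1 k2)⟩
      · rintro ⟨j, hj⟩
        have hj' : (n x', n y') = j • (n x, n y) := congrArg Subtype.val hj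
        obtain ⟨k, k1, k2⟩ := (l1 x y x' y' h1 h2).2 ⟨j, congrArg Prod.fst hj', congrArg Prod.snd hj'⟩
        exact ⟨k, Subtype.ext (Prod.ext k1 k2)⟩)
    (by
      rintro ⟨⟨a, b⟩, hab⟩
      obtain ⟨x, y, j, h1, h2, h3⟩ := l2 a b hab
      exact ⟨⟨(x, y), h1⟩, j, Subtype.ext (Prod.ext h2 h3)⟩)
    (fun _ => rfl) (fun _ => rfl)

end

namespace Sys

variable {H V : Type} [Group H] [MulAction H V] {S : Sys H V}

/-! ### finiteness at a fixed edge -/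

variable (S)

/-- lines at near stars of the edge `w u` -/
def nQ (w u : S.X) : Set (V × V) := {p | ∃ x', S.Qs w u p.2 p.1 x'}

/-- lines at the far stars of `w u` which are near stars of another edge at `w` -/
def fQ (w u : S.X) : Set (S.X × (V × V)) := {p | p ∈ S.nl w ∧ p.1 ≠ u ∧ S.J p.2.2 ⊆ bey S.D.G w u}

/-- lines at the DQ's -/
def dQ (w u : S.X) : Set (V × V) := {p | S.DQ w u p.2 ∧ S.K.ar p.2 p.1}

variable {S}

theorem je_smul {w u : S.X} (g : ↥(Je w u : Subgroup H)) : g.1 • w = w ∧ g.1 • u = u := g.2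

/-- an element of `Je` as an element of the stabiliser of `w` -/
def jw {w u : S.X} (g : ↥(Je w u : Subgroup H)) : ↥(stabilizer H w) := ⟨g.1, g.2.1⟩

theorem ThO.smulJ {w u : S.X} (g : ↥(Je w u : Subgroup H)) {t s : TV V} (h : S.ThO w u t s) :
    S.ThO w u (g • t) (g • s) := by
  have := h.smul (jw g)
  rwa [show (jw g).1 • u = u from g.2.2] at this

theorem ThN.smulJ {w u : S.X} (g : ↥(Je w u : Subgroup H)) {t : TV V} (h : S.ThN w u t) :
    S.ThN w u (g • t) := by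
  have := h.smul (jw g)
  rwa [show (jw g).1 • u = u from g.2.2] at this

theorem fin_nQ (w u : S.X) : FinOrb ↥(Je w u : Subgroup H) (S.nQ w u) := by
  apply Pool.Agent.SAF.FinOrb.of_inj (fin_nl (S := S) w) (fun p => (u, p)) (fun p h => h)
  rintro a _ b _ ⟨g, e⟩
  have h1 : g.1 • u = u := congrArg Prod.fst e
  have h2 : g.1 • a = b := congrArg Prod.snd e
  exact ⟨⟨g.1, g.2, h1⟩, h2⟩

theorem fin_fQ (w u : S.X) (hu : S.D.G.Adj w u) : FinOrb ↥(Je w u : Subgroup H) (S.fQ w u) := by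
  apply Pool.Agent.SAF.FinOrb.of_inj (fin_nl (S := S) w) (fun p => p) (fun p h => h.1)
  rintro a ha b hb ⟨g, e⟩
  have h0 : g.1 • a = b := e
  have h1 : g.1 • u = u := by
    have k1 := sub_smul' g ha.2.2
    have k2 := hb.2.2
    rw [← h0] at k2
    obtain ⟨p, hp⟩ := S.js.ne (g.1 • a.2.2)
    exact S.bey_unique (adj_smul' g hu) hu (k1 hp) (k2 hp)
  exact ⟨⟨g.1, g.2, h1⟩, h0⟩

theorem fin_dQ (w u : S.X) : FinOrb ↥(Je w u : Subgroup H) (S.dQ w u) := by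
  have h1 : FinOrb ↥(stabilizer H w) {p : V × S.X | p.1 ∈ {x : V | w ∈ S.J x} ∧ S.DQ w p.2 p.1} := by
    apply finOrb_rel (R := fun (q : V) (u : S.X) => S.DQ w u q) (fin_over w)
      (fun g q u h => DQ.smul g h)
    intro q _
    by_cases hq : ∃ a, S.K.ar q a
    · obtain ⟨a, ha⟩ := hq
      apply (fin_dirs w a).subset
      intro u hu
      exact hu.1.two ha
    · apply Set.Subsingleton.finite
      intro u hu
      obtain ⟨-, a, b, -, ha, -⟩ := hu.1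
      exact absurd ⟨a, ha⟩ hq
  have h2 : FinOrb ↥(Je w u : Subgroup H) {q : V | S.DQ w u q} := by
    apply Pool.Agent.SAF.FinOrb.of_inj h1 (fun q => (q, u)) (fun q h => ⟨h.1.1, h⟩)
    rintro a _ b _ ⟨g, e⟩
    have h3 : g.1 • a = b := congrArg Prod.fst e
    have h4 : g.1 • u = u := congrArg Prod.snd e
    exact ⟨⟨g.1, g.2, h4⟩, h3⟩
  have h3 := finOrb_rel (R := fun q a => S.K.ar q a) h2
    (fun g q a h => S.K.ar_smul g.1 _ _ h) (fun q _ => out_finite S.K.two q)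
  apply Pool.Agent.SAF.FinOrb.of_inj (s := S.dQ w u) h3 (fun p : V × V => (p.2, p.1))
    (fun p h => h)
  rintro a _ b _ ⟨g, e⟩
  exact ⟨g, Prod.ext (congrArg Prod.snd e) (congrArg Prod.fst e)⟩

/-- finitely many orbits of lines of `Theta` at an edge -/
theorem fin_ThO (w u : S.X) (hu : S.D.G.Adj w u) :
    FinOrb ↥(Je w u : Subgroup H) {p : TV V × TV V | S.ThO w u p.1 p.2} := by
  have h1 : FinOrb ↥(Je w u : Subgroup H) {p : TV V × TV V | ∃ x q, (x, q) ∈ S.nQ w u ∧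
      p = (TV.el x, TV.st q (S.Star w u q x))} := by
    apply Pool.Agent.SAF.FinOrb.image (fin_nQ (S := S) w u)
      (fun p => (TV.el p.1, TV.st p.2 (S.Star w u p.2 p.1)))
    · rintro _ ⟨x, q, h, rfl⟩
      exact ⟨(x, q), h, 1, one_smul _ _⟩
    · rintro ⟨x, q⟩ _ _ _ ⟨g, rfl⟩
      refine ⟨g, Prod.ext rfl ?_⟩
      show g.1 • TV.st q (S.Star w u q x) = TV.st (g.1 • q) (S.Star w u (g.1 • q) (g.1 • x))
      rw [TV.smul_st, Star_smul, (je_smul g).1, (je_smul g).2]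
  have h2 : FinOrb ↥(Je w u : Subgroup H) {p : TV V × TV V | ∃ u' x q, (u', (x, q)) ∈ S.fQ w u ∧
      p = (TV.el x, TV.st q (S.Star w u' q x))} := by
    apply Pool.Agent.SAF.FinOrb.image (fin_fQ (S := S) w u hu)
      (fun p => (TV.el p.2.1, TV.st p.2.2 (S.Star w p.1 p.2.2 p.2.1)))
    · rintro _ ⟨u', x, q, h, rfl⟩
      exact ⟨(u', x, q), h, 1, one_smul _ _⟩
    · rintro ⟨u', x, q⟩ _ _ _ ⟨g, rfl⟩
      refine ⟨g, Prod.ext rfl ?_⟩
      show g.1 • TV.st q (S.Star w u' q x) =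
        TV.st (g.1 • q) (S.Star w (g.1 • u') (g.1 • q) (g.1 • x))
      rw [TV.smul_st, Star_smul, (je_smul g).1]
  have h3 : FinOrb ↥(Je w u : Subgroup H) {p : TV V × TV V | ∃ x q, (x, q) ∈ S.dQ w u ∧
      p = (TV.el x, TV.st q ∅)} := by
    apply Pool.Agent.SAF.FinOrb.image (fin_dQ (S := S) w u)
      (fun p => (TV.el p.1, TV.st p.2 ∅))
    · rintro _ ⟨x, q, h, rfl⟩
      exact ⟨(x, q), h, 1, one_smul _ _⟩
    · rintro ⟨x, q⟩ _ _ _ ⟨g, rfl⟩
      refine ⟨g, Prod.ext rfl ?_⟩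
      show g.1 • TV.st q ∅ = TV.st (g.1 • q) ∅
      rw [TV.smul_st, Set.image_empty]
  refine Pool.Agent.SAF.FinOrb.mono ?_ (finOrb_union (finOrb_union h1 h2) h3)
  rintro ⟨_, s⟩ ⟨x, q, rfl, ⟨h4, ⟨x', h5⟩, rfl⟩ | ⟨u', h4, h5, ⟨x', h6⟩, h7, rfl⟩ | ⟨h4, h5, rfl⟩⟩
  · exact Or.inl (Or.inl ⟨x, q, ⟨x', h5⟩, rfl⟩)
  · exact Or.inl (Or.inr ⟨u', x, q, ⟨⟨x', h6⟩, h4, h7⟩, rfl⟩)
  · exact Or.inr ⟨x, q, ⟨h4, h5⟩, rfl⟩

/-- finitely many orbits of vertices of `Theta` at an edge -/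
theorem fin_ThN (w u : S.X) (hu : S.D.G.Adj w u) :
    FinOrb ↥(Je w u : Subgroup H) {t : TV V | S.ThN w u t} := by
  have h1 : FinOrb ↥(Je w u : Subgroup H) {x : V | S.Cs w u x} := by
    apply Pool.Agent.SAF.FinOrb.of_inj (fin_vf (S := S) w) (fun x => (u, x)) (fun x h => ⟨hu, h⟩)
    rintro a _ b _ ⟨g, e⟩
    have h3 : g.1 • u = u := congrArg Prod.fst e
    have h4 : g.1 • a = b := congrArg Prod.snd e
    exact ⟨⟨g.1, g.2, h3⟩, h4⟩
  have h2 : FinOrb ↥(Je w u : Subgroup H) {t : TV V | ∃ x, S.Cs w u x ∧ t = TV.el x} := by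
    apply Pool.Agent.SAF.FinOrb.image h1 TV.el
    · rintro _ ⟨x, h, rfl⟩
      exact ⟨x, h, 1, one_smul _ _⟩
    · rintro x _ _ _ ⟨g, rfl⟩
      exact ⟨g, rfl⟩
  have h3 : FinOrb ↥(Je w u : Subgroup H) {t : TV V | ∃ t', S.ThO w u t' t} := by
    apply Pool.Agent.SAF.FinOrb.image (fin_ThO (S := S) w u hu) (fun p => p.2)
    · rintro s ⟨t', h⟩
      exact ⟨(t', s), h, 1, one_smul _ _⟩
    · rintro a _ _ _ ⟨g, rfl⟩
      exact ⟨g, rfl⟩
  refine Pool.Agent.SAF.FinOrb.mono ?_ (finOrb_union h2 h3)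
  rintro t (⟨x, rfl, h⟩ | h)
  · exact Or.inl ⟨x, h.2.1, rfl⟩
  · exact Or.inr h

/-! ### the graphs -/

variable (S)

/-- the vertices of `Theta` at an edge -/
def ThS (w u : S.X) : SubMulAction ↥(Je w u : Subgroup H) (TV V) where
  carrier := {t | S.ThN w u t}
  smul_mem' g _ h := ThN.smulJ g h

/-- the lines of `Theta` at an edge -/
def ThU (w u : S.X) (a b : ↥(S.ThS w u)) : Prop := S.ThO w u a.1 b.1

variable {S}

theorem ThU.smul {w u : S.X} (g : ↥(Je w u : Subgroup H)) (a b : ↥(S.ThS w u))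
    (h : S.ThU w u a b) : S.ThU w u (g • a) (g • b) := ThO.smulJ g h

theorem finite_ThS (w u : S.X) (hu : S.D.G.Adj w u) :
    Finite (orbitRel.Quotient ↥(Je w u : Subgroup H) ↥(S.ThS w u)) :=
  finite_orb_sub _ (fin_ThN w u hu)

/-- finiteness of the pairs of a relation on an invariant set -/
theorem finite_oS {G Y : Type} [Group G] [MulAction G Y] (A : SubMulAction G Y)
    (R : Y → Y → Prop) {O : ↥A → ↥A → Prop} (hO : ∀ (g : G) x y, O x y → O (g • x) (g • y))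
    (hR : ∀ a b, O a b → R a.1 b.1) (h : FinOrb G {p : Y × Y | R p.1 p.2}) :
    Finite (orbitRel.Quotient G ↥(oS O hO)) := by
  apply finite_orb_sub
  apply Pool.Agent.SAF.FinOrb.of_inj h (fun p : ↥A × ↥A => (p.1.1, p.2.1)) (fun p hp => hR _ _ hp)
  rintro a _ b _ ⟨g, e⟩
  exact ⟨g, Prod.ext (Subtype.ext (congrArg Prod.fst e)) (Subtype.ext (congrArg Prod.snd e))⟩

theorem finite_ThU (w u : S.X) (hu : S.D.G.Adj w u) :
    Finite (orbitRel.Quotient ↥(Je w u : Subgroup H) ↥(oS (S.ThU w u) ThU.smul)) :=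
  finite_oS (S.ThS w u) (S.ThO w u) _ (fun _ _ h => h) (fin_ThO w u hu)

variable (S)

/-- `Theta` at an edge -/
def JTh (w u : S.X) (hu : S.D.G.Adj w u) :
    JM ↥(Je w u : Subgroup H) ↥(S.ThS w u) ↥(oS (S.ThU w u) ThU.smul) :=
  JM.ofO (S.ThU w u) ThU.smul (finite_ThS w u hu) (finite_ThU w u hu)

variable {S}

/-! ### flags -/

theorem ThR.smul' {w : S.X} (g : ↥(stabilizer H w)) (a b : ↥(S.ThT w)) (h : S.ThR w a b) :
    S.ThR w (g • a) (g • b) := ThR.smul g h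

theorem ThN.adj {w u : S.X} {t : TV V} (h : S.ThN w u t) : S.D.G.Adj w u := by
  rcases h with ⟨x, rfl, h⟩ | ⟨t', h⟩
  · exact h.1
  · obtain ⟨x, -, h⟩ := h.pas
    exact h.1

/-- flags of lines -/
theorem fin_ThOw (w : S.X) : FinOrb ↥(stabilizer H w)
    {p : S.X × (TV V × TV V) | S.ThO w p.1 p.2.1 p.2.2} := by
  have h1 : FinOrb ↥(stabilizer H w) {p : S.X × (TV V × TV V) | ∃ u x q, (u, (x, q)) ∈ S.nl w ∧
      p = (u, (TV.el x, TV.st q (S.Star w u q x)))} := by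
    apply Pool.Agent.SAF.FinOrb.image (fin_nl (S := S) w)
      (fun p => (p.1, (TV.el p.2.1, TV.st p.2.2 (S.Star w p.1 p.2.2 p.2.1))))
    · rintro _ ⟨u, x, q, h, rfl⟩
      exact ⟨(u, (x, q)), h, 1, one_smul _ _⟩
    · rintro ⟨u, x, q⟩ _ _ _ ⟨g, rfl⟩
      refine ⟨g, Prod.ext rfl (Prod.ext rfl ?_)⟩
      show g.1 • TV.st q (S.Star w u q x) =
        TV.st (g.1 • q) (S.Star w (g.1 • u) (g.1 • q) (g.1 • x))
      rw [TV.smul_st, Star_smul, stab_w g]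
  have h2 : FinOrb ↥(stabilizer H w) {p : S.X × (TV V × TV V) | ∃ u x q, (u, (x, q)) ∈ S.nl w ∧
      w ∉ S.J q ∧ p = (S.dir w q, (TV.el x, TV.st q (S.Star w u q x)))} := by
    apply Pool.Agent.SAF.FinOrb.image (s := {p | p ∈ S.nl w ∧ w ∉ S.J p.2.2})
      ((fin_nl (S := S) w).mono fun _ h => h.1)
      (fun p => (S.dir w p.2.2, (TV.el p.2.1, TV.st p.2.2 (S.Star w p.1 p.2.2 p.2.1))))
    · rintro _ ⟨u, x, q, h, h', rfl⟩
      exact ⟨(u, (x, q)), ⟨h, h'⟩, 1, one_smul _ _⟩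
    · rintro ⟨u, x, q⟩ ⟨_, h⟩ _ _ ⟨g, rfl⟩
      refine ⟨g, Prod.ext ?_ (Prod.ext rfl ?_)⟩
      · show g.1 • S.dir w q = S.dir w (g.1 • q)
        have := S.dir_smul g.1 (w := w) (z := q) h
        rw [stab_w g] at this
        exact this.symm
      · show g.1 • TV.st q (S.Star w u q x) =
          TV.st (g.1 • q) (S.Star w (g.1 • u) (g.1 • q) (g.1 • x))
        rw [TV.smul_st, Star_smul, stab_w g]
  have h4 : FinOrb ↥(stabilizer H w) {p : V × S.X | p.1 ∈ {x : V | w ∈ S.J x} ∧ S.DQ w p.2 p.1} := by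
    apply finOrb_rel (R := fun (q : V) (u : S.X) => S.DQ w u q) (fin_over w)
      (fun g q u h => DQ.smul g h)
    intro q _
    by_cases hq : ∃ a, S.K.ar q a
    · obtain ⟨a, ha⟩ := hq
      apply (fin_dirs w a).subset
      intro u hu
      exact hu.1.two ha
    · apply Set.Subsingleton.finite
      intro u hu
      obtain ⟨-, a, b, -, ha, -⟩ := hu.1
      exact absurd ⟨a, ha⟩ hq
  have h5 := finOrb_rel (R := fun (p : V × S.X) a => S.K.ar p.1 a) h4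
    (fun g q a h => S.K.ar_smul g.1 _ _ h) (fun q _ => out_finite S.K.two q.1)
  have h3 : FinOrb ↥(stabilizer H w) {p : S.X × (TV V × TV V) | ∃ u x q, S.DQ w u q ∧ S.K.ar q x ∧
      p = (u, (TV.el x, TV.st q ∅))} := by
    apply Pool.Agent.SAF.FinOrb.image h5
      (fun p => (p.1.2, (TV.el p.2, TV.st p.1.1 ∅)))
    · rintro _ ⟨u, x, q, h, h', rfl⟩
      exact ⟨((q, u), x), ⟨⟨h.1.1, h⟩, h'⟩, 1, one_smul _ _⟩
    · rintro ⟨⟨q, u⟩, x⟩ _ _ _ ⟨g, rfl⟩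
      refine ⟨g, Prod.ext rfl (Prod.ext rfl ?_)⟩
      show g.1 • TV.st q ∅ = TV.st (g.1 • q) ∅
      rw [TV.smul_st, Set.image_empty]
  refine Pool.Agent.SAF.FinOrb.mono ?_ (finOrb_union (finOrb_union h1 h2) h3)
  rintro ⟨u, t, s⟩ ⟨x, q, h0, h⟩
  have h0 : t = TV.el x := h0
  subst h0
  have h : (w ∉ S.J q ∧ (∃ x', S.Qs w u q x x') ∧ s = TV.st q (S.Star w u q x)) ∨
    (∃ u', u' ≠ u ∧ S.D.G.Adj w u ∧ (∃ x', S.Qs w u' q x x') ∧ S.J q ⊆ bey S.D.G w u ∧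
      s = TV.st q (S.Star w u' q x)) ∨
    (S.DQ w u q ∧ S.K.ar q x ∧ s = TV.st q ∅) := h
  rcases h with ⟨h4, ⟨x', h5⟩, rfl⟩ | ⟨u', h4, h5, ⟨x', h6⟩, h7, rfl⟩ | ⟨h4, h5, rfl⟩
  · exact Or.inl (Or.inl ⟨u, x, q, ⟨x', h5⟩, rfl⟩)
  · refine Or.inl (Or.inr ⟨u', x, q, ⟨x', h6⟩, S.not_mem_of_bey h5 h7, ?_⟩)
    rw [S.dir_eq h5 h7]
  · exact Or.inr ⟨u, x, q, h4, h5, rfl⟩

theorem finite_ThT (w : S.X) : Finite (orbitRel.Quotient ↥(stabilizer H w) ↥(S.ThT w)) := by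
  apply finite_orb_sub
  have h2 : FinOrb ↥(stabilizer H w) {p : S.X × TV V | ∃ u x, (u, x) ∈ S.vf w ∧
      p = (u, TV.el x)} := by
    apply Pool.Agent.SAF.FinOrb.image (fin_vf (S := S) w) (fun p => (p.1, TV.el p.2))
    · rintro _ ⟨u, x, h, rfl⟩
      exact ⟨(u, x), h, 1, one_smul _ _⟩
    · rintro x _ _ _ ⟨g, rfl⟩
      exact ⟨g, rfl⟩
  have h3 : FinOrb ↥(stabilizer H w) {p : S.X × TV V | ∃ t', S.ThO w p.1 t' p.2} := by
    apply Pool.Agent.SAF.FinOrb.image (fin_ThOw (S := S) w) (fun p => (p.1, p.2.2))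
    · rintro ⟨u, s⟩ ⟨t', h⟩
      exact ⟨(u, (t', s)), h, 1, one_smul _ _⟩
    · rintro a _ _ _ ⟨g, rfl⟩
      exact ⟨g, rfl⟩
  refine Pool.Agent.SAF.FinOrb.mono ?_ (finOrb_union h2 h3)
  rintro ⟨u, t⟩ (⟨x, h', h⟩ | h)
  · have h' : t = TV.el x := h'
    subst h'
    exact Or.inl ⟨u, x, ⟨h.1, h.2.1⟩, rfl⟩
  · exact Or.inr h

theorem finite_ThR (w : S.X) :
    Finite (orbitRel.Quotient ↥(stabilizer H w) ↥(oS (S.ThR w) ThR.smul')) := by
  apply finite_orb_sub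
  apply Pool.Agent.SAF.FinOrb.of_inj (fin_ThOw (S := S) w)
    (fun p : ↥(S.ThT w) × ↥(S.ThT w) => (p.1.1.1, (p.1.1.2, p.2.1.2))) (fun p hp => hp.2)
  rintro a ha b hb ⟨g, e⟩
  have e1 : g.1 • a.1.1.1 = b.1.1.1 := congrArg Prod.fst e
  have e2 : g.1 • a.1.1.2 = b.1.1.2 := congrArg (fun z => z.2.1) e
  have e3 : g.1 • a.2.1.2 = b.2.1.2 := congrArg (fun z => z.2.2) e
  have h1 : a.1.1.1 = a.2.1.1 := ha.1
  have h2 : b.1.1.1 = b.2.1.1 := hb.1
  have e4 : g.1 • a.2.1.1 = b.2.1.1 := by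
    rw [← h1, ← h2]
    exact e1
  exact ⟨g, Prod.ext (Subtype.ext (Prod.ext e1 e2)) (Subtype.ext (Prod.ext e4 e3))⟩

variable (S)

/-- `Theta` on the flags at `w` -/
def JThw (w : S.X) : JM ↥(stabilizer H w) ↥(S.ThT w) ↥(oS (S.ThR w) ThR.smul') :=
  JM.ofO (S.ThR w) ThR.smul' (finite_ThT w) (finite_ThR w)

variable {S}

/-- the two forms of `Theta` agree if all edges at `w` are in one orbit -/
noncomputable def Th_iso (w u : S.X) (hu : S.D.G.Adj w u)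
    (htr : ∀ u', S.D.G.Adj w u' → ∃ g : ↥(stabilizer H w), g.1 • u = u') :
    FG.Iso (S.JTh w u hu).fg (S.JThw w).fg :=
  JM.ofO_iso (fun t => ⟨(u, t.1), t.2⟩)
    (by
      rintro ⟨t, ht⟩ ⟨t', ht'⟩
      constructor
      · rintro ⟨j, hj⟩
        refine ⟨jw j, Subtype.ext (Prod.ext j.2.2.symm (congrArg Subtype.val hj))⟩
      · rintro ⟨j, hj⟩
        have h1 : (u, t') = j • (u, t) := congrArg Subtype.val hj
        have h2 : u = j.1 • u := congrArg Prod.fst h1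
        have h3 : t' = j.1 • t := congrArg Prod.snd h1
        exact ⟨⟨j.1, j.2, h2.symm⟩, Subtype.ext h3⟩)
    (by
      rintro ⟨⟨u', t⟩, ht⟩
      obtain ⟨g, rfl⟩ := htr u' (ThN.adj ht)
      have h1 : S.ThN w u (g⁻¹.1 • t) := by
        have := ThN.smul g⁻¹ ht
        rwa [show g⁻¹.1 • g.1 • u = u from inv_smul_smul g.1 u] at this
      exact ⟨⟨g⁻¹.1 • t, h1⟩, g, Subtype.ext (Prod.ext rfl (smul_inv_smul g.1 t).symm)⟩)
    (fun x y h => ⟨rfl, h⟩)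
    (by
      rintro ⟨t, ht⟩ ⟨s, hs⟩ ⟨t', ht'⟩ ⟨s', hs'⟩ h h'
      constructor
      · rintro ⟨j, hj, hj'⟩
        exact ⟨jw j, Subtype.ext (Prod.ext j.2.2.symm (congrArg Subtype.val hj)),
          Subtype.ext (Prod.ext j.2.2.symm (congrArg Subtype.val hj'))⟩
      · rintro ⟨j, hj, hj'⟩
        have h1 : (u, t') = j • (u, t) := congrArg Subtype.val hj
        have h1' : (u, s') = j • (u, s) := congrArg Subtype.val hj'
        have h2 : u = j.1 • u := congrArg Prod.fst h1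
        have h3 : t' = j.1 • t := congrArg Prod.snd h1
        have h3' : s' = j.1 • s := congrArg Prod.snd h1'
        exact ⟨⟨j.1, j.2, h2.symm⟩, Subtype.ext h3, Subtype.ext h3'⟩)
    (by
      rintro ⟨⟨u', t⟩, ht⟩ ⟨⟨u'', s⟩, hs⟩ ⟨he, h⟩
      have he : u' = u'' := he
      subst he
      obtain ⟨g, rfl⟩ := htr u' (ThN.adj ht)
      have h1 : S.ThO w u (g⁻¹.1 • t) (g⁻¹.1 • s) := by
        have := ThO.smul g⁻¹ h
        rwa [show g⁻¹.1 • g.1 • u = u from inv_smul_smul g.1 u] at this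
      have h2 : S.ThN w u (g⁻¹.1 • t) := by
        have := ThN.smul g⁻¹ ht
        rwa [show g⁻¹.1 • g.1 • u = u from inv_smul_smul g.1 u] at this
      exact ⟨⟨g⁻¹.1 • t, h2⟩, ⟨g⁻¹.1 • s, Or.inr ⟨_, h1⟩⟩, g, h1,
        Subtype.ext (Prod.ext rfl (smul_inv_smul g.1 t).symm),
        Subtype.ext (Prod.ext rfl (smul_inv_smul g.1 s).symm)⟩)

end Sys

end Pool.Agent.DI
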