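import Pool.Agent.DI.LawH

/-!
# The law at all types of vertices

`FG.aftE D e`: the contribution after the step, the sum of `deg x - e x` over the local pieces (the
nodes outside of `D`), `e x` is the number of the pole ends at `x`. `FG.lawPE`: the law with poles `P`
and leaves `H` (ends of half-edges, thin lost softs): `aftE - b1 ≥ |S| + |H| + |P| + b1 (G - P) - 2`
if `e ≤ 1` on `S` and `e ≤ 2`, with the equality case.

`JM.dn Q`: the graph without the invariant set `Q` of nodes, its quotient is `FG.del`. For a graph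
with an action: `JM.lawE_D` (sink of type `D_inf`: `s + h + b - 2 ≥ 0`), `JM.lawE_Z` (sink of type
`ℤ`: `b - 1 ≥ 0`), `JM.lawE_self` (one orbit of poles and a swap: `s + h + b - 1 ≥ 0`),
`JM.lawE_non` (two orbits of poles: `b ≥ 0`), `JM.lawE_hair` (one orbit of poles, a local piece with
one pole end: `b ≥ 0`), `JM.lawE_fin` (no poles, a local piece with at most one pole end).
-/

namespace Pool.Agent.DI

open MulAction
open Pool.Agent.SAF (orbs FinOrb oc oc_mono)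

namespace FG

variable (G : FG)

/-- the contribution after the step: `e x` pole ends at the local piece `x` -/
noncomputable def aftE [Fintype G.N] (D : Set G.N) (e : G.N → ℕ) : ℤ := by
  classical
  exact ∑ x, (if x ∈ D then 0 else (G.deg x : ℤ) - e x)

variable {G} in
theorem aftE_term {D S : Set G.N} {e : G.N → ℕ} (h1 : ∀ x, x ∉ D → x ∈ S → e x ≤ 1)
    (h2 : ∀ x, x ∉ D → e x ≤ 2) [DecidablePred (· ∈ D)] [DecidablePred (· ∈ S)] (x : G.N) :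
    (if x ∈ D then (0:ℤ) else if x ∈ S then (G.deg x : ℤ) - 1 else (G.deg x : ℤ) - 2) ≤
      (if x ∈ D then (0:ℤ) else (G.deg x : ℤ) - e x) := by
  split_ifs with hD hS
  · exact le_refl _
  · have := h1 x hD hS
    omega
  · have := h2 x hD
    omega

theorem aft_le_E [Fintype G.N] {D S : Set G.N} {e : G.N → ℕ}
    (h1 : ∀ x, x ∉ D → x ∈ S → e x ≤ 1) (h2 : ∀ x, x ∉ D → e x ≤ 2) :
    G.aft D S ≤ G.aftE D e := by
  classical
  unfold aft aftE
  apply Finset.sum_le_sum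
  intro x _
  exact aftE_term h1 h2 x

/-- equality iff every local piece has all its pole ends -/
theorem aft_eq_E [Fintype G.N] {D S : Set G.N} {e : G.N → ℕ}
    (h1 : ∀ x, x ∉ D → x ∈ S → e x ≤ 1) (h2 : ∀ x, x ∉ D → e x ≤ 2) :
    G.aft D S = G.aftE D e ↔
      ∀ x, x ∉ D → (x ∈ S → e x = 1) ∧ (x ∉ S → e x = 2) := by
  classical
  unfold aft aftE
  rw [Finset.sum_eq_sum_iff_of_le (fun x _ => aftE_term h1 h2 x)]
  constructor
  · intro h x hD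
    have h3 := h x (Finset.mem_univ x)
    constructor
    · intro hS
      rw [if_neg hD, if_neg hD, if_pos hS] at h3
      omega
    · intro hS
      rw [if_neg hD, if_neg hD, if_neg hS] at h3
      omega
  · intro h x _
    split_ifs with hD hS
    · rfl
    · rw [(h x hD).1 hS]
      rfl
    · rw [(h x hD).2 hS]
      rfl

theorem aftE_nonneg [Fintype G.N] {D : Set G.N} {e : G.N → ℕ} (h : ∀ x, x ∉ D → e x ≤ G.deg x) :
    0 ≤ G.aftE D e := by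
  classical
  unfold aftE
  apply Finset.sum_nonneg
  intro x _
  split_ifs with hD
  · exact le_refl _
  · have := h x hD
    omega

/-- deletion in two steps -/
def delDel (P H : Set G.N) :
    FG.Iso ((G.del P).del {x | x.1 ∈ H}) (G.del (P ∪ H)) where
  n := {
    toFun := fun x => ⟨x.1.1, fun h => h.elim x.1.2 x.2⟩
    invFun := fun x => ⟨⟨x.1, fun h => x.2 (Or.inl h)⟩, fun h => x.2 (Or.inr h)⟩
    left_inv := fun _ => rfl
    right_inv := fun _ => rfl }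
  l := {
    toFun := fun e => ⟨e.1.1, fun h => h.elim e.1.2.1 e.2.1, fun h => h.elim e.1.2.2 e.2.2⟩
    invFun := fun e => ⟨⟨e.1, fun h => e.2.1 (Or.inl h), fun h => e.2.2 (Or.inl h)⟩,
      fun h => e.2.1 (Or.inr h), fun h => e.2.2 (Or.inr h)⟩
    left_inv := fun _ => rfl
    right_inv := fun _ => rfl }
  h _ := Or.inl ⟨rfl, rfl⟩

/-- the degree of a node which is not joined to `P` -/
theorem deg_del {P : Set G.N} {x : G.N} (hx : x ∉ P)
    (h : ∀ e, (G.a e = x → G.b e ∉ P) ∧ (G.b e = x → G.a e ∉ P)) :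
    (G.del P).deg ⟨x, hx⟩ = G.deg x := by
  unfold deg
  congr 1
  · apply Nat.card_congr
    exact {
      toFun := fun e => ⟨e.1.1, congrArg Subtype.val e.2⟩
      invFun := fun e => ⟨⟨e.1, by rw [e.2]; exact hx, (h e.1).1 e.2⟩, Subtype.ext e.2⟩
      left_inv := fun _ => rfl
      right_inv := fun _ => rfl }
  · apply Nat.card_congr
    exact {
      toFun := fun e => ⟨e.1.1, congrArg Subtype.val e.2⟩
      invFun := fun e => ⟨⟨e.1, (h e.1).2 e.2, by rw [e.2]; exact hx⟩, Subtype.ext e.2⟩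
      left_inv := fun _ => rfl
      right_inv := fun _ => rfl }

theorem nDD_zero {D : Set G.N} : G.nDD D = 0 ↔ ∀ e, ¬ (G.a e ∈ D ∧ G.b e ∈ D) := by
  unfold nDD
  rw [Finite.card_eq_zero_iff]
  exact ⟨fun h e he => h.false ⟨e, he⟩, fun h => ⟨fun e => h e.1 e.2⟩⟩

/-- THE LAW with poles `P` and ends `H` of half-edges -/
theorem lawP [Fintype G.N] (hc : G.Cn) {P H S : Set G.N} (hPH : ∀ x ∈ H, x ∉ P)
    (hSD : ∀ x ∈ S, x ∉ P ∪ H) (hP : (G.del P).Cn) (hdeg : ∀ x ∈ H, G.deg x = 1)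
    (hDD : G.nDD (P ∪ H) = 0) (hex : ∃ x, x ∉ P ∪ H) :
    G.aft (P ∪ H) S - G.b1 =
      (Nat.card ↥S : ℤ) + Nat.card ↥H + Nat.card ↥P + (G.del P).b1 - 2 := by
  classical
  have hno := G.nDD_zero.1 hDD
  have hfN : Fintype (G.del P).N := Fintype.ofFinite _
  have hD' : ∀ x ∈ ({x | x.1 ∈ H} : Set (G.del P).N), (G.del P).deg x = 1 := by
    rintro ⟨x, hx⟩ hxH
    rw [G.deg_del hx]
    · exact hdeg x hxH
    · intro e
      refine ⟨fun h1 h2 => hno e ⟨Or.inr ?_, Or.inl h2⟩, fun h1 h2 => hno e ⟨Or.inl h2, Or.inr ?_⟩⟩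
      · rw [h1]; exact hxH
      · rw [h1]; exact hxH
  have hDD' : (G.del P).nDD {x | x.1 ∈ H} = 0 := by
    rw [nDD_zero]
    rintro e ⟨h1, h2⟩
    exact hno e.1 ⟨Or.inr h1, Or.inr h2⟩
  obtain ⟨x0, hx0⟩ := hex
  have hcn := (G.del P).cn_del_leaf hP hD' hDD' ⟨⟨x0, fun h => hx0 (Or.inl h)⟩,
    fun h => hx0 (Or.inr h)⟩
  have hb := (G.del P).b1_del_leaf hP hcn hD' hDD'
  have i := G.delDel P H
  have hcn2 : (G.del (P ∪ H)).Cn := by
    unfold FG.Cn at hcn ⊢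
    rw [← i.nC]
    exact hcn
  rw [i.b1] at hb
  rw [G.lawH hc hSD hcn2, hb, hDD]
  have hfin : Finite G.N := inferInstance
  have hc2 : Nat.card ↥(P ∪ H) = Nat.card ↥P + Nat.card ↥H := by
    exact Set.ncard_union_eq (Set.disjoint_left.2 (fun x h1 h2 => hPH x h2 h1))
      (Set.toFinite P) (Set.toFinite H)
  rw [hc2]
  push_cast
  ring

/-- THE LAW with poles `P`, ends `H` of half-edges and `e x` pole ends at the local piece `x` -/
theorem lawPE [Fintype G.N] (hc : G.Cn) {P H S : Set G.N} (hPH : ∀ x ∈ H, x ∉ P)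
    (hSD : ∀ x ∈ S, x ∉ P ∪ H) (hP : (G.del P).Cn) (hdeg : ∀ x ∈ H, G.deg x = 1)
    (hDD : G.nDD (P ∪ H) = 0) (hex : ∃ x, x ∉ P ∪ H) {e : G.N → ℕ}
    (h1 : ∀ x ∈ S, e x ≤ 1) (h2 : ∀ x, x ∉ P ∪ H → e x ≤ 2) :
    (Nat.card ↥S : ℤ) + Nat.card ↥H + Nat.card ↥P + (G.del P).b1 - 2 ≤
      G.aftE (P ∪ H) e - G.b1 ∧
    ((Nat.card ↥S : ℤ) + Nat.card ↥H + Nat.card ↥P + (G.del P).b1 - 2 =
      G.aftE (P ∪ H) e - G.b1 ↔
      ∀ x, x ∉ P ∪ H → (x ∈ S → e x = 1) ∧ (x ∉ S → e x = 2)) := by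
  have h3 := G.lawP hc hPH hSD hP hdeg hDD hex
  have h4 := G.aft_le_E (D := P ∪ H) (S := S) (e := e) (fun x _ hx => h1 x hx) h2
  have h5 := G.aft_eq_E (D := P ∪ H) (S := S) (e := e) (fun x _ hx => h1 x hx) h2
  refine ⟨by omega, ?_⟩
  rw [← h5]
  constructor
  · intro h
    omega
  · intro h
    omega

theorem aftE_star [Fintype G.N] {P H : Set G.N} {e : G.N → ℕ} (hall : ∀ x, x ∈ P ∨ x ∈ H) :
    G.aftE (P ∪ H) e = 0 := by
  classical
  unfold aftE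
  apply Finset.sum_eq_zero
  intro x _
  exact if_pos (hall x)

/-- the degenerate case: all nodes outside of the pole are leaves -/
theorem b1_star [Fintype G.N] (hc : G.Cn) {P H : Set G.N} (hall : ∀ x, x ∈ P ∨ x ∈ H)
    (hPH : ∀ x ∈ H, x ∉ P) (h1 : Nat.card ↥P = 1) (hdeg : ∀ x ∈ H, G.deg x = 1)
    (hP : G.nDD P = 0) (hH : G.nDD H = 0) : G.b1 = 0 := by
  obtain ⟨h1a, ⟨p⟩⟩ := Nat.card_eq_one_iff_unique.1 h1
  have hcn := G.cn_del_leaf hc hdeg hH ⟨p.1, fun h => hPH _ h p.2⟩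
  rw [← G.b1_del_leaf hc hcn hdeg hH, hcn.b1]
  have e1 : (G.del H).nL = 0 := by
    unfold nL
    rw [Finite.card_eq_zero_iff]
    exact ⟨fun e => G.nDD_zero.1 hP e.1
      ⟨(hall _).resolve_right e.2.1, (hall _).resolve_right e.2.2⟩⟩
  have e2 : (G.del H).nN = 1 := by
    unfold nN
    rw [← h1]
    apply Nat.card_congr
    exact {
      toFun := fun x => ⟨x.1, (hall _).resolve_right x.2⟩
      invFun := fun x => ⟨x.1, fun h => hPH _ h x.2⟩
      left_inv := fun _ => rfl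
      right_inv := fun _ => rfl }
  rw [e1, e2]
  norm_num

end FG

namespace JM

variable {J T Ed : Type} [Group J] [MulAction J T] [MulAction J Ed] (M : JM J T Ed)

/-- the edges which avoid `Q` -/
def avE (Q : SubMulAction J T) : SubMulAction J Ed where
  carrier := {e | M.s e ∉ Q ∧ M.t e ∉ Q}
  smul_mem' j e he := by
    refine ⟨fun h => he.1 ?_, fun h => he.2 ?_⟩
    · rw [M.hs] at h
      have := Q.smul_mem j⁻¹ h
      rwa [inv_smul_smul] at this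
    · rw [M.ht] at h
      have := Q.smul_mem j⁻¹ h
      rwa [inv_smul_smul] at this

/-- the orbits in `Q` as nodes of the quotient -/
def imN (Q : SubMulAction J T) : Set M.fg.N := im Q

/-- the orbits of the nodes whose stabiliser satisfies `P`, as nodes of the quotient -/
def mNf (P : Subgroup J → Prop) : Set M.fg.N := M.mN P

theorem mem_imN {Q : SubMulAction J T} {x : T} :
    ((oq J x : orbitRel.Quotient J T) : M.fg.N) ∈ M.imN Q ↔ x ∈ Q := mem_im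

theorem mem_avE {Q : SubMulAction J T} {e : Ed} : e ∈ M.avE Q ↔ M.s e ∉ Q ∧ M.t e ∉ Q := Iff.rfl

/-- the graph without the nodes of `Q` -/
def dn (Q : SubMulAction J T) : JM J ↥(cpl Q) ↥(M.avE Q) where
  s e := ⟨M.s e.1, e.2.1⟩
  t e := ⟨M.t e.1, e.2.2⟩
  hs j e := Subtype.ext (M.hs j e.1)
  ht j e := Subtype.ext (M.ht j e.1)
  fT := by
    have := M.fT
    exact Finite.of_equiv _ (imEquiv (cpl Q)).symm
  fE := by
    have := M.fE
    exact Finite.of_equiv _ (imEquiv (M.avE Q)).symm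

/-- its quotient -/
noncomputable def dnIso (Q : SubMulAction J T) : FG.Iso (M.dn Q).fg (M.fg.del (M.imN Q)) where
  n := cplEquiv Q
  l := (imEquiv (M.avE Q)).trans (Equiv.subtypeEquivRight (fun q => by
    obtain ⟨e, rfl⟩ := oq_surj q
    rw [mem_im, mem_avE]
    show _ ↔ oq J (M.s e) ∉ im Q ∧ oq J (M.t e) ∉ im Q
    rw [mem_im, mem_im]))
  h q := by
    obtain ⟨e, rfl⟩ := oq_surj q
    exact Or.inl ⟨rfl, rfl⟩

theorem dn_cn {Q : SubMulAction J T} (hne : ∃ x, x ∉ Q)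
    (hc : ∀ x y : ↥(cpl Q), ∃ j : J, Relation.EqvGen (M.dn Q).st x (j • y)) :
    (M.fg.del (M.imN Q)).Cn := by
  have h : (M.dn Q).fg.Cn := by
    rw [cn_iff]
    obtain ⟨x, hx⟩ := hne
    exact ⟨⟨⟨x, hx⟩⟩, hc⟩
  unfold FG.Cn at h ⊢
  rw [← (M.dnIso Q).nC]
  exact h

/-- THE LAW -/
theorem law [Fintype M.fg.N] (hM : M.fg.Cn) {Q : SubMulAction J T} {S : Set M.fg.N}
    (hS : ∀ x ∈ S, x ∉ M.imN Q) (hne : ∃ x, x ∉ Q)
    (hc : ∀ x y : ↥(cpl Q), ∃ j : J, Relation.EqvGen (M.dn Q).st x (j • y)) :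
    M.fg.aft (M.imN Q) S - M.fg.b1 =
      (Nat.card ↥S : ℤ) + (M.dn Q).fg.b1 + Nat.card ↥(M.imN Q) - 2 - M.fg.nDD (M.imN Q) := by
  rw [M.fg.lawH hM hS (M.dn_cn hne hc), ← (M.dnIso Q).b1]

/-- the orbits of the nodes with a property outside of `Q` -/
theorem dn_mN (Q : SubMulAction J T) (P : Subgroup J → Prop) :
    Nat.card ↥((M.dn Q).mN P) = Nat.card ↥(M.mNf P \ M.imN Q) := by
  apply Nat.card_congr
  refine Equiv.ofBijective (fun q => ⟨(cplEquiv Q q.1).1, ?_⟩) ⟨?_, ?_⟩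
  · obtain ⟨x, hx, hq⟩ := q.2
    refine ⟨?_, ?_⟩
    · rw [← hq]
      refine ⟨x.1, ?_, rfl⟩
      have : stabilizer J x.1 = stabilizer J x := by
        ext j
        rw [mem_stabilizer_iff, mem_stabilizer_iff]
        exact ⟨fun h => Subtype.ext h, fun h => congrArg Subtype.val h⟩
      show P (stabilizer J x.1)
      rw [this]
      exact hx
    · exact (cplEquiv Q q.1).2
  · intro a b h
    have h1 := congrArg Subtype.val h
    exact Subtype.ext ((cplEquiv Q).injective (Subtype.ext h1))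
  · rintro ⟨q, ⟨x, hx, rfl⟩, hq⟩
    have hxQ : x ∉ Q := fun h => hq (mem_im.2 h)
    refine ⟨⟨oq J ⟨x, hxQ⟩, ⟨x, hxQ⟩, ?_, rfl⟩, rfl⟩
    have : stabilizer J (⟨x, hxQ⟩ : ↥(cpl Q)) = stabilizer J x := by
      ext j
      rw [mem_stabilizer_iff, mem_stabilizer_iff]
      exact ⟨fun h => congrArg Subtype.val h, fun h => Subtype.ext h⟩
    show P (stabilizer J (⟨x, hxQ⟩ : ↥(cpl Q)))
    rw [this]
    exact hx

/-- one orbit of nodes -/
theorem card_im_le {Q : SubMulAction J T} {p : T} (hp : ∀ x ∈ Q, ∃ j : J, x = j • p) :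
    Nat.card ↥(M.imN Q) ≤ 1 := by
  have h : ∀ q ∈ M.imN Q, q = oq J p := by
    rintro q ⟨x, hx, rfl⟩
    obtain ⟨j, rfl⟩ := hp x hx
    exact oq_smul j p
  have : Subsingleton ↥(M.imN Q) := ⟨fun a b => Subtype.ext ((h a.1 a.2).trans (h b.1 b.2).symm)⟩
  exact Finite.card_le_one_iff_subsingleton.2 this

/-! ### a character -/

/-- the generation inequality for one character -/
theorem char_le (hne : Nonempty T) (hconn : ∀ x y : T, Relation.EqvGen M.st x y)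
    (c : J → ZMod 2) (hcm : ∀ g h, c (g * h) = c g + c h) (hc : ∃ g, c g ≠ 0) :
    (1 : ℤ) ≤ Nat.card ↥(M.mN (fun A => ∃ a ∈ A, c a ≠ 0)) + M.fg.b1 := by
  have hc0 : c ≠ 0 := by
    intro h
    obtain ⟨g, hg⟩ := hc
    rw [h] at hg
    exact hg rfl
  have hmem : ∀ χ ∈ Submodule.span (ZMod 2) {c}, χ = 0 ∨ χ = c := by
    intro χ hχ
    obtain ⟨a, rfl⟩ := Submodule.mem_span_singleton.1 hχ
    have key : ∀ z : ZMod 2, z = 0 ∨ z = 1 := by decide
    rcases key a with rfl | rfl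
    · exact Or.inl (zero_smul _ _)
    · exact Or.inr (one_smul _ _)
  have hfd : FiniteDimensional (ZMod 2) (Submodule.span (ZMod 2) {c}) :=
    FiniteDimensional.span_of_finite _ (Set.finite_singleton _)
  have key : ∀ z : ZMod 2, z ≠ 0 → z = 1 := by decide
  have h := M.rank_le hne hconn (X := Submodule.span (ZMod 2) {c}) (by
    intro χ hχ g h
    rcases hmem χ hχ with rfl | rfl
    · show (0 : ZMod 2) = 0 + 0
      rw [add_zero]
    · exact hcm g h) (fun A => ∃ a ∈ A, c a ≠ 0) (by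
    intro x χ hχ g hg hn
    rcases hmem χ hχ with rfl | rfl
    · exact absurd rfl hn
    · exact ⟨g, hg, hn⟩) (by
    rintro x χ hχ χ' hχ' ⟨g, hg, hn⟩ ⟨g', hg', hn'⟩ k hk
    rcases hmem χ hχ with rfl | rfl
    · exact absurd rfl hn
    · rcases hmem χ' hχ' with rfl | rfl
      · exact absurd rfl hn'
      · rfl)
  rw [finrank_span_singleton hc0] at h
  exact_mod_cast h

/-! ### sinks of type `ℤ` -/

/-- `1 ≤ b` for a group with a surjection to `ℤ` -/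
theorem one_le_Z (hne : Nonempty T) (hconn : ∀ x y : T, Relation.EqvGen M.st x y)
    (τ : J → ℤ) (hτ : ∀ g h, τ (g * h) = τ g + τ h) (h1 : ∃ g, τ g = 1)
    (h0 : ∀ x : T, ∀ g ∈ stabilizer J x, τ g = 0) : 1 ≤ M.fg.b1 := by
  have h := M.char_le hne hconn (fun g => (τ g : ZMod 2)) (fun g h => by
    simp only [hτ]
    push_cast
    ring) (by
    obtain ⟨g, hg⟩ := h1
    refine ⟨g, ?_⟩
    simp only [hg]
    decide)
  have h2 : Nat.card ↥(M.mN (fun A => ∃ a ∈ A, (τ a : ZMod 2) ≠ 0)) = 0 := by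
    rw [card_mN]
    have : {x : T | ∃ a ∈ stabilizer J x, (τ a : ZMod 2) ≠ 0} = ∅ := by
      ext x
      simp only [Set.mem_ofPred_eq, Set.mem_empty_iff_false, iff_false]
      rintro ⟨a, ha, hn⟩
      rw [h0 x a ha] at hn
      exact hn (by simp)
    rw [this]
    show (orbs J (∅ : Set T)).ncard = 0
    unfold orbs
    rw [Set.image_empty, Set.ncard_empty]
  rw [h2] at h
  push_cast at h
  omega

theorem nDD_empty : M.fg.nDD ∅ = 0 := by
  rw [FG.nDD_zero]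
  rintro e ⟨h, _⟩
  exact h

theorem del_empty_cn (hM : M.fg.Cn) : (M.fg.del ∅).Cn := by
  have hN : Nonempty {x : M.fg.N // x ∉ (∅ : Set M.fg.N)} := by
    obtain ⟨⟨x⟩, _⟩ := M.fg.cn_iff.1 hM
    exact ⟨⟨x, fun h => h⟩⟩
  exact M.fg.cn_del_leaf hM (fun x hx => absurd hx (fun h => h)) M.nDD_empty
    ⟨hN.some.1, hN.some.2⟩

/-- no poles: `|S| + |H| + b1 - 2 ≤ aftE - b1` -/
theorem lawE_sink [Fintype M.fg.N] (hM : M.fg.Cn) {H S : Set M.fg.N} (hSH : ∀ x ∈ S, x ∉ H)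
    (hdeg : ∀ x ∈ H, M.fg.deg x = 1) (hDD : M.fg.nDD H = 0) (hex : ∃ x, x ∉ H)
    {e : M.fg.N → ℕ} (h1 : ∀ x ∈ S, e x ≤ 1) (h2 : ∀ x, x ∉ H → e x ≤ 2) :
    (Nat.card ↥S : ℤ) + Nat.card ↥H + M.fg.b1 - 2 ≤ M.fg.aftE H e - M.fg.b1 ∧
    ((Nat.card ↥S : ℤ) + Nat.card ↥H + M.fg.b1 - 2 = M.fg.aftE H e - M.fg.b1 ↔
      ∀ x, x ∉ H → (x ∈ S → e x = 1) ∧ (x ∉ S → e x = 2)) := by
  have h3 := M.fg.lawPE hM (P := ∅) (H := H) (S := S) (e := e) (fun x _ h => h)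
    (fun x hx h => h.elim (fun h => h) (hSH x hx)) (M.del_empty_cn hM) hdeg
    (by rw [Set.empty_union]; exact hDD) (by simpa using hex) h1 (by
      intro x hx
      apply h2
      intro h
      exact hx (Or.inr h))
  have hb : (M.fg.del ∅).b1 = M.fg.b1 :=
    M.fg.b1_del_leaf hM (M.del_empty_cn hM) (fun x hx => absurd hx (fun h => h)) M.nDD_empty
  have hc : Nat.card ↥(∅ : Set M.fg.N) = 0 := by simp
  rw [Set.empty_union, hb, hc] at h3
  have e1 : (Nat.card ↥S : ℤ) + Nat.card ↥H + ((0 : ℕ) : ℤ) + M.fg.b1 - 2 =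
      (Nat.card ↥S : ℤ) + Nat.card ↥H + M.fg.b1 - 2 := by
    push_cast
    ring
  rw [e1] at h3
  exact h3

/-- THE LAW for a sink of type `ℤ` (a sink of type `ℤ` counts `b1 - 1` before the step): the term is
`b - 1 ≥ 0` -/
theorem lawE_Z [Fintype M.fg.N] (hne : Nonempty T)
    (hconn : ∀ x y : T, Relation.EqvGen M.st x y)
    (τ : J → ℤ) (hτ : ∀ g h, τ (g * h) = τ g + τ h) (hτ1 : ∃ g, τ g = 1)
    (hτ0 : ∀ x : T, ∀ g ∈ stabilizer J x, τ g = 0) {e : M.fg.N → ℕ} (h2 : ∀ x, e x ≤ 2) :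
    0 ≤ M.fg.b1 - 1 ∧ M.fg.b1 - 1 ≤ M.fg.aftE ∅ e - (M.fg.b1 - 1) ∧
    (M.fg.b1 - 1 = M.fg.aftE ∅ e - (M.fg.b1 - 1) ↔ ∀ x, e x = 2) := by
  have h3 := M.one_le_Z hne hconn τ hτ hτ1 hτ0
  have hM := M.cn_of_conn hne hconn
  have hN : Nonempty M.fg.N := by
    obtain ⟨x⟩ := hne
    exact ⟨oq J x⟩
  have h4 := M.lawE_sink hM (H := ∅) (S := ∅) (e := e) (fun x hx => absurd hx (fun h => h))
    (fun x hx => absurd hx (fun h => h)) M.nDD_empty ⟨hN.some, fun h => h⟩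
    (fun x hx => absurd hx (fun h => h)) (fun x _ => h2 x)
  have hc : Nat.card ↥(∅ : Set M.fg.N) = 0 := by simp
  rw [hc] at h4
  obtain ⟨h5, h6⟩ := h4
  push_cast at h5 h6
  refine ⟨by omega, by omega, ?_⟩
  constructor
  · intro h x
    exact ((h6.1 (by omega)) x (fun h => h)).2 (fun h => h)
  · intro h
    have := h6.2 (fun x _ => ⟨fun h => absurd h (fun h => h), fun _ => h x⟩)
    omega

/-- THE LAW for a sink of type `D_inf`: the term is `s + h + b - 2 ≥ 0` -/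
theorem lawE_D [Fintype M.fg.N] (L : DL J) (hne : Nonempty T)
    (hconn : ∀ x y : T, Relation.EqvGen M.st x y) (hfin : ∀ x : T, Finite ↥(stabilizer J x))
    {H : Set M.fg.N} (hH : H ⊆ M.mNf L.Mir) (hdeg : ∀ x ∈ H, M.fg.deg x = 1)
    (hDD : M.fg.nDD H = 0) (hex : ∃ x, x ∉ H)
    {e : M.fg.N → ℕ} (h1 : ∀ x ∈ M.mNf L.Mir, x ∉ H → e x ≤ 1) (h2 : ∀ x, x ∉ H → e x ≤ 2) :
    0 ≤ (Nat.card ↥(M.mNf L.Mir \ H) : ℤ) + Nat.card ↥H + M.fg.b1 - 2 ∧
    (Nat.card ↥(M.mNf L.Mir \ H) : ℤ) + Nat.card ↥H + M.fg.b1 - 2 ≤ M.fg.aftE H e - M.fg.b1 ∧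
    ((Nat.card ↥(M.mNf L.Mir \ H) : ℤ) + Nat.card ↥H + M.fg.b1 - 2 = M.fg.aftE H e - M.fg.b1 ↔
      ∀ x, x ∉ H → (x ∈ M.mNf L.Mir → e x = 1) ∧ (x ∉ M.mNf L.Mir → e x = 2)) := by
  have h3 := M.two_le L hne hconn hfin
  have h4 := M.lawE_sink (M.cn_of_conn hne hconn) (H := H) (S := M.mNf L.Mir \ H) (e := e)
    (fun x hx => hx.2) hdeg hDD hex (fun x hx => h1 x hx.1 hx.2) h2
  have h5 : Nat.card ↥(M.mNf L.Mir \ H) + Nat.card ↥H = Nat.card ↥(M.mNf L.Mir) :=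
    Set.ncard_sdiff_add_ncard_of_subset hH (Set.toFinite _)
  have h6 : Nat.card ↥(M.mNf L.Mir) = Nat.card ↥(M.mN L.Mir) := rfl
  refine ⟨by omega, h4.1, ?_⟩
  rw [h4.2]
  constructor
  · intro h x hx
    exact ⟨fun hm => (h x hx).1 ⟨hm, hx⟩, fun hm => (h x hx).2 (fun k => hm k.1)⟩
  · intro h x hx
    exact ⟨fun hm => (h x hx).1 hm.1, fun hm => (h x hx).2 (fun k => hm ⟨k, hx⟩)⟩

/-- THE LAW for a sink with a local piece with at most one pole end, in particular if the group is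
finite -/
theorem lawE_fin [Fintype M.fg.N] (hM : M.fg.Cn) {H : Set M.fg.N}
    (hdeg : ∀ x ∈ H, M.fg.deg x = 1) (hDD : M.fg.nDD H = 0)
    {e : M.fg.N → ℕ} (he : ∀ x, x ∉ H → e x ≤ M.fg.deg x) (h2 : ∀ x, x ∉ H → e x ≤ 2)
    (h1 : M.fg.b1 = 0 ∨ ∃ x, x ∉ H ∧ e x ≤ 1) : 0 ≤ M.fg.aftE H e - M.fg.b1 := by
  have h0 := M.fg.aftE_nonneg (D := H) he
  by_cases hb : M.fg.b1 = 0
  · omega
  · obtain ⟨x, hx, hx1⟩ := h1.resolve_left hb
    have h4 := (M.lawE_sink hM (H := H) (S := {x}) (e := e)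
      (fun y hy => by rw [Set.mem_singleton_iff.1 hy]; exact hx) hdeg hDD ⟨x, hx⟩
      (fun y hy => by rw [Set.mem_singleton_iff.1 hy]; exact hx1) h2).1
    have hc : Nat.card ↥({x} : Set M.fg.N) = 1 := by simp
    rw [hc] at h4
    have := M.fg.b1_nonneg
    push_cast at h4
    omega

/-! ### pieces of softs -/

theorem del_cn {Pl : SubMulAction J T} (hne : ∃ x, x ∉ Pl)
    (hconn : ∀ x y : ↥(cpl Pl), Relation.EqvGen (M.dn Pl).st x y) :
    (M.fg.del (M.imN Pl)).Cn :=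
  M.dn_cn hne (fun x y => ⟨1, by rw [one_smul]; exact hconn x y⟩)

theorem exists_not_of {Pl : SubMulAction J T} {H : Set M.fg.N}
    (hex : ∃ x : M.fg.N, x ∉ M.imN Pl ∪ H) : ∃ x, x ∉ Pl := by
  obtain ⟨q, hq⟩ := hex
  obtain ⟨x, rfl⟩ := oq_surj q
  exact ⟨x, fun h => hq (Or.inl (M.mem_imN.2 h))⟩

/-- THE LAW for a self piece with one orbit of poles `Pl` and ends `H` of half-edges: the term is
`s + h + b - 1 ≥ 0` -/
theorem lawE_self [Fintype M.fg.N] (σ : J →* ℤˣ) (hσ : ∃ g, σ g = -1) (hM : M.fg.Cn)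
    {Pl : SubMulAction J T} (hp1 : Nat.card ↥(M.imN Pl) = 1)
    (hconn : ∀ x y : ↥(cpl Pl), Relation.EqvGen (M.dn Pl).st x y)
    {H : Set M.fg.N} (hH : H ⊆ M.mNf (Sw σ)) (hHP : ∀ x ∈ H, x ∉ M.imN Pl)
    (hdeg : ∀ x ∈ H, M.fg.deg x = 1) (hDD : M.fg.nDD (M.imN Pl ∪ H) = 0)
    (hex : ∃ x : M.fg.N, x ∉ M.imN Pl ∪ H)
    {e : M.fg.N → ℕ} (h1 : ∀ x ∈ M.mNf (Sw σ), x ∉ M.imN Pl ∪ H → e x ≤ 1)
    (h2 : ∀ x, x ∉ M.imN Pl ∪ H → e x ≤ 2) :
    0 ≤ (Nat.card ↥(M.mNf (Sw σ) \ (M.imN Pl ∪ H)) : ℤ) + Nat.card ↥H + (M.dn Pl).fg.b1 - 1 ∧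
    (Nat.card ↥(M.mNf (Sw σ) \ (M.imN Pl ∪ H)) : ℤ) + Nat.card ↥H + (M.dn Pl).fg.b1 - 1 ≤
      M.fg.aftE (M.imN Pl ∪ H) e - M.fg.b1 ∧
    ((Nat.card ↥(M.mNf (Sw σ) \ (M.imN Pl ∪ H)) : ℤ) + Nat.card ↥H + (M.dn Pl).fg.b1 - 1 =
      M.fg.aftE (M.imN Pl ∪ H) e - M.fg.b1 ↔ ∀ x, x ∉ M.imN Pl ∪ H →
        (x ∈ M.mNf (Sw σ) → e x = 1) ∧ (x ∉ M.mNf (Sw σ) → e x = 2)) := by
  have hne := M.exists_not_of hex
  have hneT : Nonempty ↥(cpl Pl) := ⟨⟨hne.choose, hne.choose_spec⟩⟩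
  have hL := M.fg.lawPE hM (P := M.imN Pl) (H := H) (S := M.mNf (Sw σ) \ (M.imN Pl ∪ H)) (e := e)
    hHP (fun x hx => hx.2) (M.del_cn hne hconn) hdeg hDD hex
    (fun x hx => h1 x hx.1 hx.2) h2
  rw [← (M.dnIso Pl).b1, hp1] at hL
  have h3 := (M.dn Pl).one_le σ hneT hconn hσ
  rw [M.dn_mN] at h3
  have h4 : Nat.card ↥(M.mNf (Sw σ) \ (M.imN Pl ∪ H)) + Nat.card ↥H =
      Nat.card ↥(M.mNf (Sw σ) \ M.imN Pl) := by
    have hs : H ⊆ M.mNf (Sw σ) \ M.imN Pl := fun x hx => ⟨hH hx, hHP x hx⟩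
    have h5 := Set.ncard_sdiff_add_ncard_of_subset hs (Set.toFinite _)
    rw [Set.sdiff_sdiff] at h5
    exact h5
  obtain ⟨hL1, hL2⟩ := hL
  have e1 : (Nat.card ↥(M.mNf (Sw σ) \ (M.imN Pl ∪ H)) : ℤ) + Nat.card ↥H + ((1 : ℕ) : ℤ) +
      (M.dn Pl).fg.b1 - 2 =
      (Nat.card ↥(M.mNf (Sw σ) \ (M.imN Pl ∪ H)) : ℤ) + Nat.card ↥H + (M.dn Pl).fg.b1 - 1 := by
    push_cast
    ring
  rw [e1] at hL1 hL2
  refine ⟨by omega, hL1, ?_⟩
  rw [hL2]
  constructor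
  · intro h x hx
    exact ⟨fun hm => (h x hx).1 ⟨hm, hx⟩, fun hm => (h x hx).2 (fun k => hm k.1)⟩
  · intro h x hx
    exact ⟨fun hm => (h x hx).1 hm.1, fun hm => (h x hx).2 (fun k => hm ⟨k, hx⟩)⟩

/-- THE LAW for a piece which is not self, with two orbits of poles: the term is `b ≥ 0` -/
theorem lawE_non [Fintype M.fg.N] (hM : M.fg.Cn) {Pl : SubMulAction J T}
    (hp : Nat.card ↥(M.imN Pl) = 2) (hne : ∃ x, x ∉ Pl)
    (hconn : ∀ x y : ↥(cpl Pl), Relation.EqvGen (M.dn Pl).st x y)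
    (hDD : M.fg.nDD (M.imN Pl) = 0)
    {e : M.fg.N → ℕ} (h2 : ∀ x, x ∉ M.imN Pl → e x ≤ 2) :
    0 ≤ (M.dn Pl).fg.b1 ∧ (M.dn Pl).fg.b1 ≤ M.fg.aftE (M.imN Pl) e - M.fg.b1 ∧
    ((M.dn Pl).fg.b1 = M.fg.aftE (M.imN Pl) e - M.fg.b1 ↔ ∀ x, x ∉ M.imN Pl → e x = 2) := by
  have hex : ∃ x : M.fg.N, x ∉ M.imN Pl ∪ (∅ : Set M.fg.N) := by
    obtain ⟨x, hx⟩ := hne
    exact ⟨oq J x, fun h => h.elim (fun h => hx (M.mem_imN.1 h)) (fun h => h)⟩
  have hL := M.fg.lawPE hM (P := M.imN Pl) (H := ∅) (S := ∅) (e := e)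
    (fun x hx => absurd hx (fun h => h)) (fun x hx => absurd hx (fun h => h))
    (M.del_cn hne hconn) (fun x hx => absurd hx (fun h => h))
    (by rw [Set.union_empty]; exact hDD) hex (fun x hx => absurd hx (fun h => h))
    (by rw [Set.union_empty]; exact h2)
  have hc : Nat.card ↥(∅ : Set M.fg.N) = 0 := by simp
  rw [← (M.dnIso Pl).b1, hp, hc, Set.union_empty] at hL
  obtain ⟨hL1, hL2⟩ := hL
  push_cast at hL1 hL2
  refine ⟨(M.dn Pl).fg.b1_nonneg, by omega, ?_⟩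
  constructor
  · intro h x hx
    exact ((hL2.1 (by omega)) x hx).2 (fun h => h)
  · intro h
    have := hL2.2 (fun x hx => ⟨fun h => absurd h (fun h => h), fun _ => h x hx⟩)
    omega

/-- THE LAW for a piece with one orbit of poles and a local piece with at most one pole end: the
term is `≥ b` -/
theorem lawE_hair [Fintype M.fg.N] (hM : M.fg.Cn) {Pl : SubMulAction J T}
    (hp : Nat.card ↥(M.imN Pl) = 1)
    (hconn : ∀ x y : ↥(cpl Pl), Relation.EqvGen (M.dn Pl).st x y)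
    (hDD : M.fg.nDD (M.imN Pl) = 0)
    {e : M.fg.N → ℕ} (h2 : ∀ x, x ∉ M.imN Pl → e x ≤ 2)
    (h1 : ∃ x, x ∉ M.imN Pl ∧ e x ≤ 1) :
    (M.dn Pl).fg.b1 ≤ M.fg.aftE (M.imN Pl) e - M.fg.b1 := by
  obtain ⟨x, hx, hx1⟩ := h1
  have hne : ∃ x, x ∉ Pl := by
    obtain ⟨x, rfl⟩ := oq_surj x
    exact ⟨x, fun h => hx (M.mem_imN.2 h)⟩
  have hL := (M.fg.lawPE hM (P := M.imN Pl) (H := ∅) (S := {x}) (e := e)
    (fun x hx => absurd hx (fun h => h))
    (fun y hy => by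
      rw [Set.mem_singleton_iff.1 hy, Set.union_empty]
      exact hx)
    (M.del_cn hne hconn) (fun x hx => absurd hx (fun h => h))
    (by rw [Set.union_empty]; exact hDD) ⟨x, by rw [Set.union_empty]; exact hx⟩
    (fun y hy => by rw [Set.mem_singleton_iff.1 hy]; exact hx1)
    (by rw [Set.union_empty]; exact h2)).1
  have hc : Nat.card ↥(∅ : Set M.fg.N) = 0 := by simp
  have hc1 : Nat.card ↥({x} : Set M.fg.N) = 1 := by simp
  rw [← (M.dnIso Pl).b1, hp, hc, hc1, Set.union_empty] at hL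
  push_cast at hL
  omega

end JM

end Pool.Agent.DI
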