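import Pool.Agent.DI.M14a
import Pool.Agent.DI.ELt
import Pool.Agent.DI.LawJ

/-!
# The unfolded law for graphs with actions

`JCut M M'`: `M'` (with a group `J'`) is obtained from `M` (with a group `J`) by cutting the edges
which are not local (`∉ A`) and keeping the bad nodes `Bd`; `D`: the private ends. Vertices and edges are
compared by maps which induce bijections of the orbits. `JCut.cut : FG.CutD M.fg M'.fg`.
-/

namespace Pool.Agent.DI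

open MulAction

/-! ### isomorphisms and degrees -/

theorem FG.deg_sum (G : FG) [Fintype G.L] [DecidableEq G.N] (x : G.N) :
    G.deg x = ∑ e, ((if G.a e = x then 1 else 0) + (if G.b e = x then 1 else 0)) := by
  rw [Finset.sum_add_distrib, ← Finset.card_filter, ← Finset.card_filter]
  unfold FG.deg
  congr 1
  · rw [Nat.card_eq_fintype_card, Fintype.card_subtype]
  · rw [Nat.card_eq_fintype_card, Fintype.card_subtype]

theorem FG.Iso.deg {G G' : FG} (φ : FG.Iso G G') (x : G.N) : G'.deg (φ.n x) = G.deg x := by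
  classical
  have := Fintype.ofFinite G.L
  have := Fintype.ofFinite G'.L
  rw [G.deg_sum, G'.deg_sum]
  symm
  apply Fintype.sum_equiv φ.l
  intro e
  rcases φ.h e with ⟨h1, h2⟩ | ⟨h1, h2⟩
  · simp only [h1, h2, φ.n.injective.eq_iff]
  · simp only [h1, h2, φ.n.injective.eq_iff]
    exact add_comm _ _

/-- cutting the edges which are not local -/
structure JCut {J T Ed J' T' Ed' : Type} [Group J] [MulAction J T] [MulAction J Ed] [Group J']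
    [MulAction J' T'] [MulAction J' Ed'] (M : JM J T Ed) (M' : JM J' T' Ed') where
  /-- the local edges -/
  A : SubMulAction J Ed
  /-- the bad vertices -/
  Bd : SubMulAction J T
  hA : ∀ e ∈ A, M.s e ∈ Bd ∧ M.t e ∈ Bd
  /-- the private ends -/
  D : SubMulAction J' T'
  dd : ∀ e, ¬ (M'.s e ∈ D ∧ M'.t e ∈ D)
  n : ∀ x : T', x ∉ D → T
  n0 : ∀ x h, n x h ∈ Bd
  n1 : ∀ x y hx hy, (∃ j : J', y = j • x) ↔ ∃ j : J, n y hy = j • n x hx
  n2 : ∀ y ∈ Bd, ∃ x h, ∃ j : J, y = j • n x h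
  l : ∀ e : Ed', M'.s e ∉ D → M'.t e ∉ D → Ed
  l0 : ∀ e h h', l e h h' ∈ A
  l1 : ∀ e e' hs ht hs' ht', (∃ j : J', e' = j • e) ↔ ∃ j : J, l e' hs' ht' = j • l e hs ht
  l2 : ∀ e ∈ A, ∃ e' hs ht, ∃ j : J, e = j • l e' hs ht
  hl : ∀ e hs ht, (M.s (l e hs ht) = n (M'.s e) hs ∧ M.t (l e hs ht) = n (M'.t e) ht) ∨
    (M.s (l e hs ht) = n (M'.t e) ht ∧ M.t (l e hs ht) = n (M'.s e) hs)
  /-- the local piece of a private end -/
  pb : ∀ d : T', d ∈ D → M.CT A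
  pbi : ∀ (j : J') d hd hd', oq J (pb (j • d) hd') = oq J (pb d hd)
  pa : ∀ e (hs : M'.s e ∈ D) (ht : M'.t e ∉ D),
    oq J (M.ct A (n (M'.t e) ht)) = oq J (pb (M'.s e) hs)
  pa' : ∀ e (ht : M'.t e ∈ D) (hs : M'.s e ∉ D),
    oq J (M.ct A (n (M'.s e) hs)) = oq J (pb (M'.t e) ht)
  pe : ∀ d ∈ D, ∃ e, M'.s e = d ∨ M'.t e = d
  /-- the half-line: the edge and the bad end (`true`: the source) -/
  f : ∀ e : Ed', M'.s e ∈ D ∨ M'.t e ∈ D → Ed × Bool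
  f0 : ∀ e h, (f e h).1 ∉ A ∧ (((f e h).2 = true ∧ M.s (f e h).1 ∈ Bd) ∨
    ((f e h).2 = false ∧ M.t (f e h).1 ∈ Bd))
  f1 : ∀ e e' h h', (∃ j : J', e' = j • e) ↔
    ((f e' h').2 = (f e h).2 ∧ ∃ j : J, (f e' h').1 = j • (f e h).1)
  f2 : ∀ (e : Ed) (b : Bool), e ∉ A → ((b = true ∧ M.s e ∈ Bd) ∨ (b = false ∧ M.t e ∈ Bd)) →
    ∃ e' h, (f e' h).2 = b ∧ ∃ j : J, e = j • (f e' h).1

namespace JCut

variable {J T Ed J' T' Ed' : Type} [Group J] [MulAction J T] [MulAction J Ed] [Group J']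
  [MulAction J' T'] [MulAction J' Ed'] {M : JM J T Ed} {M' : JM J' T' Ed'} (c : JCut M M')

/-- the vertices -/
noncomputable def nnE : orbitRel.Quotient J' ↥(JM.cpl c.D) ≃ orbitRel.Quotient J ↥c.Bd :=
  oqEqv (fun x : ↥(JM.cpl c.D) => (⟨c.n x.1 x.2, c.n0 x.1 x.2⟩ : ↥c.Bd))
    (fun x y => by
      constructor
      · rintro ⟨j, hj⟩
        obtain ⟨k, hk⟩ := (c.n1 x.1 y.1 x.2 y.2).1 ⟨j, congrArg Subtype.val hj⟩
        exact ⟨k, Subtype.ext hk⟩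
      · rintro ⟨k, hk⟩
        obtain ⟨j, hj⟩ := (c.n1 x.1 y.1 x.2 y.2).2 ⟨k, congrArg Subtype.val hk⟩
        exact ⟨j, Subtype.ext hj⟩)
    (fun y => by
      obtain ⟨x, h, j, hj⟩ := c.n2 y.1 y.2
      exact ⟨⟨x, h⟩, j, Subtype.ext hj⟩)

/-- the local edges -/
noncomputable def llE : orbitRel.Quotient J' ↥(M'.avE c.D) ≃ orbitRel.Quotient J ↥c.A :=
  oqEqv (fun x : ↥(M'.avE c.D) => (⟨c.l x.1 x.2.1 x.2.2, c.l0 _ _ _⟩ : ↥c.A))
    (fun x y => by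
      constructor
      · rintro ⟨j, hj⟩
        obtain ⟨k, hk⟩ := (c.l1 x.1 y.1 x.2.1 x.2.2 y.2.1 y.2.2).1 ⟨j, congrArg Subtype.val hj⟩
        exact ⟨k, Subtype.ext hk⟩
      · rintro ⟨k, hk⟩
        obtain ⟨j, hj⟩ := (c.l1 x.1 y.1 x.2.1 x.2.2 y.2.1 y.2.2).2 ⟨k, congrArg Subtype.val hk⟩
        exact ⟨j, Subtype.ext hj⟩)
    (fun y => by
      obtain ⟨x, h, h', j, hj⟩ := c.l2 y.1 y.2
      exact ⟨⟨x, h, h'⟩, j, Subtype.ext hj⟩)

/-- the vertices as nodes of the quotients -/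
noncomputable def nn : {x : M'.fg.N // x ∉ M'.imN c.D} ≃ {x : M.fg.N // x ∈ M.imN c.Bd} :=
  (M'.dnIso c.D).n.symm.trans (c.nnE.trans (JM.imEquiv c.Bd))

theorem nn_oq (x : T') (hx : x ∉ c.D) (h : (oq J' x : M'.fg.N) ∉ M'.imN c.D) :
    (c.nn ⟨oq J' x, h⟩).1 = oq J (c.n x hx) := by
  have h1 : (M'.dnIso c.D).n (oq J' (⟨x, hx⟩ : ↥(JM.cpl c.D))) =
    (⟨oq J' x, h⟩ : {x : M'.fg.N // x ∉ M'.imN c.D}) := rfl
  rw [← h1]
  show ((c.nnE.trans (JM.imEquiv c.Bd)) ((M'.dnIso c.D).n.symm _)).1 = _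
  rw [Equiv.symm_apply_apply]
  rfl

/-- the local edges as lines of the quotients -/
noncomputable def ll : {e : M'.fg.L // M'.fg.a e ∉ M'.imN c.D ∧ M'.fg.b e ∉ M'.imN c.D} ≃
    {e : M.fg.L // e ∈ (JM.im c.A : Set M.fg.L)} :=
  (M'.dnIso c.D).l.symm.trans (c.llE.trans (JM.imEquiv c.A))


theorem ll_oq (e : Ed') (hs : M'.s e ∉ c.D) (ht : M'.t e ∉ c.D)
    (h : M'.fg.a (oq J' e) ∉ M'.imN c.D ∧ M'.fg.b (oq J' e) ∉ M'.imN c.D) :
    (c.ll ⟨oq J' e, h⟩).1 = oq J (c.l e hs ht) := by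
  have h1 : (M'.dnIso c.D).l (oq J' (⟨e, hs, ht⟩ : ↥(M'.avE c.D))) =
    (⟨oq J' e, h⟩ : {e : M'.fg.L // M'.fg.a e ∉ M'.imN c.D ∧ M'.fg.b e ∉ M'.imN c.D}) := rfl
  rw [← h1]
  show ((c.llE.trans (JM.imEquiv c.A)) ((M'.dnIso c.D).l.symm _)).1 = _
  rw [Equiv.symm_apply_apply]
  rfl

/-- the edges at the private ends -/
def HD : SubMulAction J' Ed' where
  carrier := {e | M'.s e ∈ c.D ∨ M'.t e ∈ c.D}
  smul_mem' j e he := by
    have he : M'.s e ∈ c.D ∨ M'.t e ∈ c.D := he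
    show M'.s (j • e) ∈ c.D ∨ M'.t (j • e) ∈ c.D
    rw [M'.hs, M'.ht]
    exact he.imp (c.D.smul_mem j) (c.D.smul_mem j)

/-- the half-lines -/
noncomputable def hE : {e : M'.fg.L // M'.fg.a e ∈ M'.imN c.D ∨ M'.fg.b e ∈ M'.imN c.D} ≃
    {e : M.fg.L // e ∉ (JM.im c.A : Set M.fg.L) ∧ M.fg.a e ∈ M.imN c.Bd} ⊕
    {e : M.fg.L // e ∉ (JM.im c.A : Set M.fg.L) ∧ M.fg.b e ∈ M.imN c.Bd} := by
  classical
  have e0 : {e : M'.fg.L // M'.fg.a e ∈ M'.imN c.D ∨ M'.fg.b e ∈ M'.imN c.D} ≃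
      orbitRel.Quotient J' ↥c.HD := by
    symm
    refine (JM.imEquiv c.HD).trans (Equiv.subtypeEquivRight (fun q => ?_))
    obtain ⟨e, rfl⟩ := oq_surj q
    rw [JM.mem_im]
    show _ ↔ oq J' (M'.s e) ∈ JM.im c.D ∨ oq J' (M'.t e) ∈ JM.im c.D
    rw [JM.mem_im, JM.mem_im]
    exact Iff.rfl
  refine e0.trans ?_
  let F0 : ↥c.HD → {e : M.fg.L // e ∉ (JM.im c.A : Set M.fg.L) ∧ M.fg.a e ∈ M.imN c.Bd} ⊕
      {e : M.fg.L // e ∉ (JM.im c.A : Set M.fg.L) ∧ M.fg.b e ∈ M.imN c.Bd} := fun e =>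
    if h : (c.f e.1 e.2).2 = true then Sum.inl ⟨oq J (c.f e.1 e.2).1,
      fun k => (c.f0 e.1 e.2).1 (JM.mem_im.1 k), by
        rcases (c.f0 e.1 e.2).2 with h1 | h1
        · exact JM.mem_im.2 h1.2
        · rw [h1.1] at h
          exact absurd h (by decide)⟩
    else Sum.inr ⟨oq J (c.f e.1 e.2).1, fun k => (c.f0 e.1 e.2).1 (JM.mem_im.1 k), by
        rcases (c.f0 e.1 e.2).2 with h1 | h1
        · exact absurd h1.1 h
        · exact JM.mem_im.2 h1.2⟩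
  have F1 : ∀ (e : ↥c.HD) (h : (c.f e.1 e.2).2 = true), ∃ k, F0 e =
      Sum.inl ⟨oq J (c.f e.1 e.2).1, k⟩ := fun e h => ⟨_, dif_pos h⟩
  have F2 : ∀ (e : ↥c.HD) (h : (c.f e.1 e.2).2 = false), ∃ k, F0 e =
      Sum.inr ⟨oq J (c.f e.1 e.2).1, k⟩ := fun e h => ⟨_, dif_neg (by rw [h]; decide)⟩
  have hcase : ∀ e : ↥c.HD, (c.f e.1 e.2).2 = true ∨ (c.f e.1 e.2).2 = false := by
    intro e
    cases (c.f e.1 e.2).2
    · exact Or.inr rfl
    · exact Or.inl rfl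
  have hF : ∀ e e' : ↥c.HD, F0 e' = F0 e ↔ ∃ j : J', e' = j • e := by
    intro e e'
    have h1 := c.f1 e.1 e'.1 e.2 e'.2
    have h2 : (∃ j : J', e' = j • e) ↔ ∃ j : J', e'.1 = j • e.1 :=
      ⟨fun ⟨j, hj⟩ => ⟨j, congrArg Subtype.val hj⟩, fun ⟨j, hj⟩ => ⟨j, Subtype.ext hj⟩⟩
    rw [h2, h1]
    rcases hcase e with h | h <;> rcases hcase e' with h' | h'
    · obtain ⟨k, hk⟩ := F1 e h
      obtain ⟨k', hk'⟩ := F1 e' h'
      rw [hk, hk', h, h']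
      constructor
      · intro he
        have he := congrArg Subtype.val (Sum.inl.inj he)
        exact ⟨rfl, oq_eq.1 he.symm⟩
      · rintro ⟨-, he⟩
        exact congrArg Sum.inl (Subtype.ext (oq_eq.2 he).symm)
    · obtain ⟨k, hk⟩ := F1 e h
      obtain ⟨k', hk'⟩ := F2 e' h'
      rw [hk, hk', h, h']
      constructor
      · intro he
        cases he
      · rintro ⟨he, -⟩
        cases he
    · obtain ⟨k, hk⟩ := F2 e h
      obtain ⟨k', hk'⟩ := F1 e' h'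
      rw [hk, hk', h, h']
      constructor
      · intro he
        cases he
      · rintro ⟨he, -⟩
        cases he
    · obtain ⟨k, hk⟩ := F2 e h
      obtain ⟨k', hk'⟩ := F2 e' h'
      rw [hk, hk', h, h']
      constructor
      · intro he
        have he := congrArg Subtype.val (Sum.inr.inj he)
        exact ⟨rfl, oq_eq.1 he.symm⟩
      · rintro ⟨-, he⟩
        exact congrArg Sum.inr (Subtype.ext (oq_eq.2 he).symm)
  refine Equiv.ofBijective (olift F0 (fun j e => (hF e (j • e)).2 ⟨j, rfl⟩)) ⟨?_, ?_⟩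
  · intro p q h
    obtain ⟨e, rfl⟩ := oq_surj p
    obtain ⟨e', rfl⟩ := oq_surj q
    have h : F0 e = F0 e' := h
    exact oq_eq.2 ((hF e e').1 h.symm)
  · rintro (⟨q, hq, hb⟩ | ⟨q, hq, hb⟩)
    · obtain ⟨e, rfl⟩ := oq_surj q
      obtain ⟨e', h, h1, j, h2⟩ := c.f2 e true (fun k => hq (JM.mem_im.2 k))
        (Or.inl ⟨rfl, JM.mem_im.1 hb⟩)
      refine ⟨oq J' ⟨e', h⟩, ?_⟩
      obtain ⟨k, hk⟩ := F1 ⟨e', h⟩ h1
      show F0 ⟨e', h⟩ = _
      rw [hk]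
      exact congrArg Sum.inl (Subtype.ext (oq_eq.2 ⟨j, h2⟩))
    · obtain ⟨e, rfl⟩ := oq_surj q
      obtain ⟨e', h, h1, j, h2⟩ := c.f2 e false (fun k => hq (JM.mem_im.2 k))
        (Or.inr ⟨rfl, JM.mem_im.1 hb⟩)
      refine ⟨oq J' ⟨e', h⟩, ?_⟩
      obtain ⟨k, hk⟩ := F2 ⟨e', h⟩ h1
      show F0 ⟨e', h⟩ = _
      rw [hk]
      exact congrArg Sum.inr (Subtype.ext (oq_eq.2 ⟨j, h2⟩))

/-- the orbits of private ends -/
theorem exists_D (d : ↥(M'.imN c.D)) : ∃ x, ∃ hx : x ∈ c.D, (oq J' x : M'.fg.N) = d.1 := by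
  obtain ⟨x, hx⟩ := oq_surj d.1
  refine ⟨x, ?_, hx⟩
  apply JM.mem_im.1
  rw [hx]
  exact d.2

/-- the local piece of an orbit of private ends -/
noncomputable def pbq (d : ↥(M'.imN c.D)) : (M.fg.con (JM.im c.A)).N :=
  (M.conIso c.A).n (oq J (c.pb (c.exists_D d).choose (c.exists_D d).choose_spec.choose))

theorem pbq_oq (x : T') (hx : x ∈ c.D) (h : (oq J' x : M'.fg.N) ∈ M'.imN c.D) :
    c.pbq ⟨oq J' x, h⟩ = (M.conIso c.A).n (oq J (c.pb x hx)) := by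
  unfold pbq
  congr 1
  have h1 := (c.exists_D ⟨oq J' x, h⟩).choose_spec.choose_spec
  have h2 : oq J' (c.exists_D ⟨oq J' x, h⟩).choose = oq J' x := h1
  obtain ⟨j, hj⟩ := oq_eq.1 h2.symm
  have key : ∀ (y : T') (hy : y ∈ c.D), y = j • x → oq J (c.pb y hy) = oq J (c.pb x hx) := by
    rintro _ hy rfl
    exact c.pbi j x hx hy
  exact key _ _ hj

theorem conIso_ct (x : T) : (M.conIso c.A).n (oq J (M.ct c.A x)) =
    (M.fg.sub (JM.im c.A)).c (oq J x) := rfl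

/-- THE CUT -/
noncomputable def cut : FG.CutD M.fg M'.fg where
  A := JM.im c.A
  Bd := M.imN c.Bd
  hA q hq := by
    obtain ⟨e, rfl⟩ := oq_surj q
    have h := c.hA e (JM.mem_im.1 hq)
    exact ⟨JM.mem_im.2 h.1, JM.mem_im.2 h.2⟩
  D := M'.imN c.D
  nn := c.nn
  ll := c.ll
  hll := by
    rintro ⟨q, hq⟩
    obtain ⟨e, rfl⟩ := oq_surj q
    have hs : M'.s e ∉ c.D := fun k => hq.1 (JM.mem_im.2 k)
    have ht : M'.t e ∉ c.D := fun k => hq.2 (JM.mem_im.2 k)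
    have e1 := c.ll_oq e hs ht hq
    have e2 := c.nn_oq (M'.s e) hs hq.1
    have e3 := c.nn_oq (M'.t e) ht hq.2
    rw [e1]
    have e2' : (c.nn ⟨M'.fg.a (oq J' e), hq.1⟩).1 = oq J (c.n (M'.s e) hs) := e2
    have e3' : (c.nn ⟨M'.fg.b (oq J' e), hq.2⟩).1 = oq J (c.n (M'.t e) ht) := e3
    rw [e2', e3']
    rcases c.hl e hs ht with ⟨h1, h2⟩ | ⟨h1, h2⟩
    · exact Or.inl ⟨congrArg (oq J) h1, congrArg (oq J) h2⟩
    · exact Or.inr ⟨congrArg (oq J) h1, congrArg (oq J) h2⟩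
  dd := by
    intro q
    obtain ⟨e, rfl⟩ := oq_surj q
    rintro ⟨h1, h2⟩
    exact c.dd e ⟨JM.mem_im.1 h1, JM.mem_im.1 h2⟩
  pb := c.pbq
  pa := by
    intro q ha hb
    obtain ⟨e, rfl⟩ := oq_surj q
    have hs : M'.s e ∈ c.D := JM.mem_im.1 ha
    have ht : M'.t e ∉ c.D := fun k => hb (JM.mem_im.2 k)
    have e1 : (c.nn ⟨M'.fg.b (oq J' e), hb⟩).1 = oq J (c.n (M'.t e) ht) := c.nn_oq _ ht hb
    have e2 : c.pbq ⟨M'.fg.a (oq J' e), ha⟩ = (M.conIso c.A).n (oq J (c.pb (M'.s e) hs)) :=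
      c.pbq_oq _ hs ha
    rw [e1, e2, ← c.pa e hs ht]
    exact (c.conIso_ct _).symm
  pa' := by
    intro q hb ha
    obtain ⟨e, rfl⟩ := oq_surj q
    have ht : M'.t e ∈ c.D := JM.mem_im.1 hb
    have hs : M'.s e ∉ c.D := fun k => ha (JM.mem_im.2 k)
    have e1 : (c.nn ⟨M'.fg.a (oq J' e), ha⟩).1 = oq J (c.n (M'.s e) hs) := c.nn_oq _ hs ha
    have e2 : c.pbq ⟨M'.fg.b (oq J' e), hb⟩ = (M.conIso c.A).n (oq J (c.pb (M'.t e) ht)) :=
      c.pbq_oq _ ht hb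
    rw [e1, e2, ← c.pa' e ht hs]
    exact (c.conIso_ct _).symm
  pe := by
    rintro ⟨q, hq⟩
    obtain ⟨x, rfl⟩ := oq_surj q
    obtain ⟨e, he | he⟩ := c.pe x (JM.mem_im.1 hq)
    · exact ⟨oq J' e, Or.inl (congrArg (oq J') he)⟩
    · exact ⟨oq J' e, Or.inr (congrArg (oq J') he)⟩
  hh := by
    rw [← Nat.card_sum]
    exact Nat.card_congr c.hE

/-! ### the laws in terms of the contracted graph with action -/

/-- the number of the private ends at a local piece -/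
noncomputable def e (P : (M.con c.A).fg.N) : ℕ :=
  Nat.card {d : ↥(M'.imN c.D) // c.pbq d = (M.conIso c.A).n P}

/-- the bad local pieces -/
def Bcon : SubMulAction J (M.CT c.A) where
  carrier := {C | ∃ x ∈ c.Bd, M.ct c.A x = C}
  smul_mem' j C := by
    rintro ⟨x, hx, rfl⟩
    exact ⟨j • x, c.Bd.smul_mem j hx, rfl⟩

theorem mem_Bcon {x : T} : M.ct c.A x ∈ c.Bcon ↔ x ∈ c.Bd := by
  constructor
  · rintro ⟨y, hy, h⟩
    have h1 : (M.fg.sub (JM.im c.A)).c (oq J y) ∈ c.cut.Bc := c.cut.mem_Bc.2 (JM.mem_im.2 hy)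
    have h2 : (M.fg.sub (JM.im c.A)).c (oq J x) = (M.fg.sub (JM.im c.A)).c (oq J y) := by
      rw [← c.conIso_ct, ← c.conIso_ct, h]
    have h3 := h1
    rw [← h2] at h3
    exact JM.mem_im.1 (c.cut.mem_Bc.1 h3)
  · intro h
    exact ⟨x, h, rfl⟩

theorem Bc_iff (P : (M.con c.A).fg.N) :
    (M.conIso c.A).n P ∈ c.cut.Bc ↔ P ∈ (M.con c.A).imN c.Bcon := by
  obtain ⟨C, rfl⟩ := oq_surj P
  obtain ⟨x, rfl⟩ := M.ct_surj C
  have h1 : (oq J (M.ct c.A x) : (M.con c.A).fg.N) ∈ (M.con c.A).imN c.Bcon ↔ x ∈ c.Bd := by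
    rw [JM.mem_imN, c.mem_Bcon]
  refine Iff.trans ?_ h1.symm
  have h2 : (M.fg.sub (JM.im c.A)).c (oq J x) ∈ c.cut.Bc ↔ (oq J x : M.fg.N) ∈ M.imN c.Bd :=
    c.cut.mem_Bc
  exact h2.trans (JM.mem_imN M)

/-- the nodes of the contracted graphs -/
noncomputable def conE : (M.con c.A).fg.N ≃ (M.fg.con c.cut.A).N := (M.conIso c.A).n

open Classical in
theorem sum_eq [Fintype (M.con c.A).fg.N] [Fintype (M.fg.con c.cut.A).N] :
    ∑ P, (if P ∈ c.cut.Bc then ((M.fg.con c.cut.A).deg P : ℤ) - c.cut.eP P else 0) =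
      ∑ P, (if P ∈ (M.con c.A).imN c.Bcon then ((M.con c.A).fg.deg P : ℤ) - c.e P else 0) := by
  symm
  refine Fintype.sum_equiv c.conE _ _ ?_
  intro P
  have h1 : c.conE P ∈ c.cut.Bc ↔ P ∈ (M.con c.A).imN c.Bcon := c.Bc_iff P
  have h2 : (M.fg.con c.cut.A).deg (c.conE P) = (M.con c.A).fg.deg P := (M.conIso c.A).deg P
  have h3 : c.cut.eP (c.conE P) = c.e P := rfl
  by_cases h : P ∈ (M.con c.A).imN c.Bcon
  · rw [if_pos h, if_pos (h1.2 h), h2, h3]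
  · rw [if_neg h, if_neg (fun k => h (h1.1 k))]

open Classical in
/-- THE LAW FOR THE BETTI NUMBERS -/
theorem law [Fintype (M.con c.A).fg.N] : M'.fg.b1 + (M.con c.A).fg.b1 = M.fg.b1 +
    ∑ P, (if P ∈ (M.con c.A).imN c.Bcon then ((M.con c.A).fg.deg P : ℤ) - c.e P else 0) := by
  have := Fintype.ofFinite (M.fg.con c.cut.A).N
  rw [← c.sum_eq, ← c.cut.law, (M.conIso c.A).b1]
  rfl

open Classical in
/-- THE EXCESS AFTER THE CUT -/
theorem exc_eq [Fintype (M.con c.A).fg.N] :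
    (Nat.card {e // M'.fg.a e ∈ M'.imN c.D ∨ M'.fg.b e ∈ M'.imN c.D} : ℤ) -
      Nat.card ↥(M'.imN c.D) =
    ∑ P, (if P ∈ (M.con c.A).imN c.Bcon then ((M.con c.A).fg.deg P : ℤ) - c.e P else 0) := by
  have := Fintype.ofFinite (M.fg.con c.cut.A).N
  rw [← c.sum_eq, ← c.cut.exc_eq]
  rfl

/-- THE CYCLES AFTER THE CUT -/
theorem cyc_eq : (M'.dn c.D).fg.b1 = (M.sub c.A).fg.b1 := by
  rw [(M'.dnIso c.D).b1, (M.subIso c.A).b1]
  exact c.cut.b1_del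

/-- the number of private ends at a local piece -/
theorem e_le {C : M.CT c.A} {r : ℕ} (g : T' → Fin r)
    (h : ∀ d d' (hd : d ∈ c.D) (hd' : d' ∈ c.D), oq J (c.pb d hd) = oq J C →
      oq J (c.pb d' hd') = oq J C → g d = g d' → ∃ j : J', d' = j • d) :
    c.e (oq J C) ≤ r := by
  unfold e
  have : Nat.card (Fin r) = r := Nat.card_eq_fintype_card.trans (Fintype.card_fin r)
  rw [← this]
  apply Nat.card_le_card_of_injective (fun d : {d : ↥(M'.imN c.D) //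
    c.pbq d = (M.conIso c.A).n (oq J C)} => g (c.exists_D d.1).choose)
  rintro ⟨d, hd⟩ ⟨d', hd'⟩ hg
  obtain ⟨hx, hx'⟩ := (c.exists_D d).choose_spec
  obtain ⟨hy, hy'⟩ := (c.exists_D d').choose_spec
  have e1 : oq J (c.pb _ hx) = oq J C := (M.conIso c.A).n.injective hd
  have e2 : oq J (c.pb _ hy) = oq J C := (M.conIso c.A).n.injective hd'
  obtain ⟨j, hj⟩ := h _ _ hx hy e1 e2 hg
  apply Subtype.ext
  apply Subtype.ext
  show d.1 = d'.1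
  rw [← hx', ← hy', hj]
  exact (oq_smul j _).symm

end JCut

end Pool.Agent.DI
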