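import Pool.Agent.DI.QK0P
import Pool.Agent.DI.Pc
import Pool.Agent.DI.M14b
import Pool.Agent.DI.ExcG

/-!
# The raw slice as a cut of the pieces

For `S : SyQ H V` without backtracking cells and the raw slice `k = S.k0 hc w`: the pieces of `k` at the
vertices over `w` are the local pieces of `S.K` (components of the corners between in-arrows over one
translate of `w`). `S.jcut hc hnb w : JCut S.K.pc (near part of k.pc)`.
-/

attribute [local instance 2000] SubMulAction.mulAction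

namespace Pool.Agent.DI

open MulAction
open Pool.Agent.SAF (InC orbs FinOrb oc Decomp SAn SA Conv hull dist_edge FinOrb_iff exists_next)
open Pool.Agent.BT (PX PQ JS bey exits lz lz_self lz_ne lz_symm x_next_unique)
open Pool.Agent.BT.TA

/-- the vertex of a node of the pieces -/
def PN.pv {V : Type} : PN V → V
  | PN.inn y _ => y
  | PN.pol y _ _ => y

theorem PN.pv_smul {H V : Type} [Group H] [MulAction H V] (h : H) (t : PN V) :
    (h • t).pv = h • t.pv := by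
  cases t <;> rfl

namespace GX

variable {H V : Type} [Group H] [MulAction H V] (K : GX H V)

theorem nd_pv (y a b : V) : (K.nd y a b).pv = y := by
  unfold nd
  split <;> rfl

theorem nd_eq_inn {y a b y' n : V} (h : K.nd y a b = PN.inn y' n) :
    K.ar a y ∧ y = y' ∧ a = n := by
  unfold nd at h
  split at h
  · rename_i ha
    cases h
    exact ⟨ha, rfl, rfl⟩
  · cases h

theorem nd_PO {y a b : V} {h : K.PV (K.nd y a b)} :
    (⟨K.nd y a b, h⟩ : ↥K.PT) ∈ K.PO ↔ ¬ K.ar a y := by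
  show K.nd y a b ∈ K.pols ↔ _
  by_cases ha : K.ar a y
  · rw [K.nd_in ha]
    constructor
    · rintro ⟨_, _, _, h, -⟩
      cases h
    · intro h
      exact absurd ha h
  · refine ⟨fun _ => ha, fun _ => ?_⟩
    have e : K.nd y a b = PN.pol y a (K.Pc y b) := if_neg ha
    rw [e] at h ⊢
    obtain ⟨h1, n, h2, h3, h4⟩ := h
    exact ⟨y, a, n, by rw [h4], h1, h2, h3⟩

theorem not_PO {t : ↥K.PT} {y n : V} (h : t.1 = PN.inn y n) : t ∉ K.PO := by
  rintro ⟨_, _, _, h1, -⟩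
  rw [h] at h1
  cases h1

theorem mem_PO {t : ↥K.PT} {y a : V} {C : Set V} (h : t.1 = PN.pol y a C) : t ∈ K.PO := by
  obtain ⟨t, ht⟩ := t
  have h : t = PN.pol y a C := h
  subst h
  obtain ⟨h1, n, h2, h3, h4⟩ := ht
  exact ⟨y, a, n, congrArg (PN.pol y a) h4, h1, h2, h3⟩

/-- every node is an in-node or a private pole -/
theorem pt_cases (t : ↥K.PT) : (∃ y n, K.ar n y ∧ t.1 = PN.inn y n) ∨
    ∃ y a n, K.ar y a ∧ K.ar n y ∧ K.Cor a y n ∧ t.1 = PN.pol y a (K.Pc y n) := by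
  obtain ⟨t, ht⟩ := t
  cases t with
  | inn y n => exact Or.inl ⟨y, n, ht, rfl⟩
  | pol y a C =>
    obtain ⟨h1, n, h2, h3, rfl⟩ := ht
    exact Or.inr ⟨y, a, n, h1, h2, h3, rfl⟩

end GX

namespace SyQ

variable {H V : Type} [Group H] [MulAction H V] {S : SyQ H V}

/-! ### corners and pieces of the slice at a vertex over `w` -/

theorem ar_inl (hc : S.Conn) {w : S.X} {a y : S.NV w} :
    (S.k0 hc w).ar (Sum.inl a) (Sum.inl y) ↔ S.K.ar a.1 y.1 := by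
  constructor
  · intro h
    have h : S.SAr w (Sum.inl a) (Sum.inl y) := h
    cases h with
    | hor _ _ h => exact h
  · exact fun h => SAr.hor _ _ h

theorem ar_to_inl (hc : S.Conn) {w : S.X} {a : S.SV w} {y : S.NV w}
    (h : (S.k0 hc w).ar a (Sum.inl y)) : ∃ a' : S.NV w, a = Sum.inl a' ∧ S.K.ar a'.1 y.1 := by
  have h : S.SAr w a (Sum.inl y) := h
  cases h with
  | hor x _ h => exact ⟨x, rfl, h⟩

/-- the place of an edge is unique -/
theorem place_eq {w : S.X} {x y : V} (e : S.K.E x y) (hx : w ∈ S.J x) (hy : w ∈ S.J y) {g : H}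
    (hx' : g • w ∈ S.J x) (hy' : g • w ∈ S.J y) : g • w = w :=
  S.one_eq e hx' hy' hx hy

theorem place_smul {w : S.X} {x y : V} (e : S.K.E x y) (hx : w ∈ S.J x) (hy : w ∈ S.J y) {g : H}
    (hx' : w ∈ S.J (g • x)) (hy' : w ∈ S.J (g • y)) : g • w = w :=
  S.one_eq (S.K.E_smul g e) (S.js.smul g _ _ hx) (S.js.smul g _ _ hy) hx' hy'

variable (S) in
/-- local corners between in-arrows at `y` -/
def LIC (w : S.X) (y a b : V) : Prop := S.K.IC y a b ∧ w ∈ S.J y ∧ w ∈ S.J a ∧ w ∈ S.J b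

variable (S) in
/-- same local piece -/
def LIJ (w : S.X) (y a b : V) : Prop := Relation.EqvGen (S.LIC w y) a b

theorem ic_inl (hc : S.Conn) (hnb : S.NB) {w : S.X} {y : S.NV w} {a b : S.SV w} :
    (S.k0 hc w).IC (Sum.inl y) a b ↔ ∃ a' b' : S.NV w, a = Sum.inl a' ∧ b = Sum.inl b' ∧
      S.LIC w y.1 a'.1 b'.1 := by
  constructor
  · rintro ⟨h1, h2, h3⟩
    obtain ⟨a', rfl, ha⟩ := ar_to_inl hc h2
    obtain ⟨b', rfl, hb⟩ := ar_to_inl hc h3
    refine ⟨a', b', rfl, rfl, ⟨?_, ha, hb⟩, y.2, a'.2, b'.2⟩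
    obtain ⟨e, ⟨e0, e1, e2⟩ | ⟨e0, e1, e2⟩⟩ := (S.k0 hc w).cor_LE.1 h1
    · obtain ⟨k0, k1, k2⟩ := bkq_v hc e1
      refine S.K.cor_LE.2 ⟨bkq hc e, Or.inl ⟨?_, k1, ?_⟩⟩
      · exact rho_inl (k0.symm.trans e0)
      · exact rho_inl (k2.symm.trans e2)
    · obtain ⟨k0, k1, k2⟩ := bkq_v hc e1
      refine S.K.cor_LE.2 ⟨bkq hc e, Or.inr ⟨?_, k1, ?_⟩⟩
      · exact rho_inl (k0.symm.trans e0)
      · exact rho_inl (k2.symm.trans e2)
  · rintro ⟨a', b', rfl, rfl, ⟨h1, ha, hb⟩, hy, ha', hb'⟩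
    refine ⟨?_, (ar_inl hc).2 ha, (ar_inl hc).2 hb⟩
    obtain ⟨e, he⟩ := S.K.cor_LE.1 h1
    have hv : e ∈ S.vsq w := by
      rcases he with ⟨e0, e1, e2⟩ | ⟨e0, e1, e2⟩
      · refine ⟨by rw [e1]; exact hy, ?_⟩
        intro h
        rcases S.rho_eq_iff.1 h with h | ⟨h, -⟩
        · exact hnb e h
        · exact h (by rw [e0]; exact ha')
      · refine ⟨by rw [e1]; exact hy, ?_⟩
        intro h
        rcases S.rho_eq_iff.1 h with h | ⟨h, -⟩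
        · exact hnb e h
        · exact h (by rw [e0]; exact hb')
    obtain ⟨e', -, k0, k1, k2⟩ := exists_lift hc hnb hv
    refine (S.k0 hc w).cor_LE.2 ⟨e', ?_⟩
    rcases he with ⟨e0, e1, e2⟩ | ⟨e0, e1, e2⟩
    · left
      refine ⟨?_, ?_, ?_⟩
      · rw [k0, e0, S.rho_near ha']; rfl
      · rw [k1]; exact congrArg Sum.inl (Subtype.ext e1)
      · rw [k2, e2, S.rho_near hb']; rfl
    · right
      refine ⟨?_, ?_, ?_⟩
      · rw [k0, e0, S.rho_near hb']; rfl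
      · rw [k1]; exact congrArg Sum.inl (Subtype.ext e1)
      · rw [k2, e2, S.rho_near ha']; rfl

theorem ij_inl (hc : S.Conn) (hnb : S.NB) {w : S.X} {y a b : S.NV w} :
    (S.k0 hc w).IJ (Sum.inl y) (Sum.inl a) (Sum.inl b) ↔ S.LIJ w y.1 a.1 b.1 := by
  constructor
  · intro h
    have key : ∀ s t : S.SV w, (S.k0 hc w).IJ (Sum.inl y) s t → ∀ a : S.NV w, s = Sum.inl a →
        ∃ b : S.NV w, t = Sum.inl b ∧ S.LIJ w y.1 a.1 b.1 := by
      intro s t h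
      have key2 : (∀ a : S.NV w, s = Sum.inl a → ∃ b : S.NV w, t = Sum.inl b ∧
          S.LIJ w y.1 a.1 b.1) ∧ (∀ b : S.NV w, t = Sum.inl b → ∃ a : S.NV w, s = Sum.inl a ∧
          S.LIJ w y.1 b.1 a.1) := by
        induction h with
        | rel s t h =>
          obtain ⟨a', b', rfl, rfl, hh⟩ := (ic_inl hc hnb).1 h
          constructor
          · intro a ha
            cases ha
            exact ⟨b', rfl, Relation.EqvGen.rel _ _ hh⟩
          · intro b hb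
            cases hb
            exact ⟨a', rfl, Relation.EqvGen.symm _ _ (Relation.EqvGen.rel _ _ hh)⟩
        | refl s => exact ⟨fun a ha => ⟨a, ha, Relation.EqvGen.refl _⟩,
            fun a ha => ⟨a, ha, Relation.EqvGen.refl _⟩⟩
        | symm s t _ ih => exact ⟨ih.2, ih.1⟩
        | trans s t u _ _ ih1 ih2 =>
          constructor
          · intro a ha
            obtain ⟨b, hb, h1⟩ := ih1.1 a ha
            obtain ⟨c, hc', h2⟩ := ih2.1 b hb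
            exact ⟨c, hc', Relation.EqvGen.trans _ _ _ h1 h2⟩
          · intro a ha
            obtain ⟨b, hb, h1⟩ := ih2.2 a ha
            obtain ⟨c, hc', h2⟩ := ih1.2 b hb
            exact ⟨c, hc', Relation.EqvGen.trans _ _ _ h1 h2⟩
      exact key2.1
    obtain ⟨b', hb', h1⟩ := key _ _ h a rfl
    cases hb'
    exact h1
  · intro h
    have key : ∀ s t : V, S.LIJ w y.1 s t → ∀ (hs : w ∈ S.J s),
        ∃ ht : w ∈ S.J t, (S.k0 hc w).IJ (Sum.inl y) (Sum.inl ⟨s, hs⟩) (Sum.inl ⟨t, ht⟩) := by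
      intro s t h
      have key2 : (∀ (hs : w ∈ S.J s), ∃ ht : w ∈ S.J t,
          (S.k0 hc w).IJ (Sum.inl y) (Sum.inl ⟨s, hs⟩) (Sum.inl ⟨t, ht⟩)) ∧
          (∀ (ht : w ∈ S.J t), ∃ hs : w ∈ S.J s,
          (S.k0 hc w).IJ (Sum.inl y) (Sum.inl ⟨t, ht⟩) (Sum.inl ⟨s, hs⟩)) := by
        induction h with
        | rel s t h =>
          have h1 : (S.k0 hc w).IC (Sum.inl y) (Sum.inl ⟨s, h.2.2.1⟩) (Sum.inl ⟨t, h.2.2.2⟩) :=
            (ic_inl hc hnb).2 ⟨_, _, rfl, rfl, h⟩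
          exact ⟨fun _ => ⟨h.2.2.2, Relation.EqvGen.rel _ _ h1⟩,
            fun _ => ⟨h.2.2.1, Relation.EqvGen.symm _ _ (Relation.EqvGen.rel _ _ h1)⟩⟩
        | refl s => exact ⟨fun hs => ⟨hs, Relation.EqvGen.refl _⟩,
            fun hs => ⟨hs, Relation.EqvGen.refl _⟩⟩
        | symm s t _ ih => exact ⟨ih.2, ih.1⟩
        | trans s t u _ _ ih1 ih2 =>
          constructor
          · intro hs
            obtain ⟨ht, h1⟩ := ih1.1 hs
            obtain ⟨hu, h2⟩ := ih2.1 ht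
            exact ⟨hu, Relation.EqvGen.trans _ _ _ h1 h2⟩
          · intro hs
            obtain ⟨ht, h1⟩ := ih2.2 hs
            obtain ⟨hu, h2⟩ := ih1.2 ht
            exact ⟨hu, Relation.EqvGen.trans _ _ _ h1 h2⟩
      exact key2.1
    obtain ⟨_, h1⟩ := key _ _ h a.2
    exact h1

/-! ### the local corners and the bad nodes of `K` -/

variable (S) in
/-- the local corners between in-arrows over translates of `w` -/
def cA (w : S.X) : SubMulAction H ↥S.K.PE where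
  carrier := {e | (S.K.ar (S.K.c0 e.1) (S.K.c1 e.1) ∧ S.K.ar (S.K.c2 e.1) (S.K.c1 e.1)) ∧
    ∃ g : H, g • w ∈ S.J (S.K.c0 e.1) ∧ g • w ∈ S.J (S.K.c1 e.1) ∧ g • w ∈ S.J (S.K.c2 e.1)}
  smul_mem' h e := by
    rintro ⟨⟨h1, h2⟩, g, h3, h4, h5⟩
    have e0 : S.K.c0 (h • e).1 = h • S.K.c0 e.1 := S.K.c0_smul h e.1
    have e1 : S.K.c1 (h • e).1 = h • S.K.c1 e.1 := S.K.c1_smul h e.1
    have e2 : S.K.c2 (h • e).1 = h • S.K.c2 e.1 := S.K.c2_smul h e.1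
    show (S.K.ar (S.K.c0 (h • e).1) (S.K.c1 (h • e).1) ∧
      S.K.ar (S.K.c2 (h • e).1) (S.K.c1 (h • e).1)) ∧
      ∃ g : H, g • w ∈ S.J (S.K.c0 (h • e).1) ∧ g • w ∈ S.J (S.K.c1 (h • e).1) ∧
        g • w ∈ S.J (S.K.c2 (h • e).1)
    rw [e0, e1, e2]
    refine ⟨⟨S.K.ar_smul h _ _ h1, S.K.ar_smul h _ _ h2⟩, h * g, ?_, ?_, ?_⟩
    · rw [mul_smul]; exact S.js.smul h _ _ h3
    · rw [mul_smul]; exact S.js.smul h _ _ h4
    · rw [mul_smul]; exact S.js.smul h _ _ h5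

variable (S) in
/-- the in-nodes over translates of `w` -/
def cB (w : S.X) : SubMulAction H ↥S.K.PT where
  carrier := {t | ∃ y n, t.1 = PN.inn y n ∧ ∃ g : H, g • w ∈ S.J y ∧ g • w ∈ S.J n}
  smul_mem' h t := by
    rintro ⟨y, n, h1, g, h2, h3⟩
    refine ⟨h • y, h • n, ?_, h * g, ?_, ?_⟩
    · show h • t.1 = _
      rw [h1]
      rfl
    · rw [mul_smul]; exact S.js.smul h _ _ h2
    · rw [mul_smul]; exact S.js.smul h _ _ h3

/-- the nodes of the slice which are not at a vertex over `w` -/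
def farN (hc : S.Conn) (w : S.X) : SubMulAction ↥(stabilizer H w) ↥(S.k0 hc w).PT where
  carrier := {t | ∃ u : S.EV w, t.1.pv = Sum.inr u}
  smul_mem' h t := by
    rintro ⟨u, hu⟩
    refine ⟨h • u, ?_⟩
    show (h • t.1).pv = _
    rw [PN.pv_smul, hu]
    rfl

/-- the part of the pieces of the slice at the vertices over `w` -/
noncomputable def nearJM (hc : S.Conn) (w : S.X) :
    JM ↥(stabilizer H w) ↥(JM.cpl (farN hc w)) ↥((S.k0 hc w).pc.avE (farN hc w)) :=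
  (S.k0 hc w).pc.dn (farN hc w)

/-- its private poles -/
def nearP (hc : S.Conn) (w : S.X) :
    SubMulAction ↥(stabilizer H w) ↥(JM.cpl (farN hc w)) where
  carrier := {t | t.1 ∈ (S.k0 hc w).PO}
  smul_mem' h t ht := (S.k0 hc w).PO.smul_mem h ht

theorem near_node (hc : S.Conn) {w : S.X} (t : ↥(JM.cpl (farN hc w))) :
    (∃ y n : S.NV w, S.K.ar n.1 y.1 ∧ t.1.1 = PN.inn (Sum.inl y) (Sum.inl n)) ∨
    ∃ (y : S.NV w) (a : S.SV w) (n : S.NV w), (S.k0 hc w).ar (Sum.inl y) a ∧ S.K.ar n.1 y.1 ∧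
      (S.k0 hc w).Cor a (Sum.inl y) (Sum.inl n) ∧
      t.1.1 = PN.pol (Sum.inl y) a ((S.k0 hc w).Pc (Sum.inl y) (Sum.inl n)) := by
  have hf : ∀ u : S.EV w, t.1.1.pv ≠ Sum.inr u := fun u hu => t.2 ⟨u, hu⟩
  rcases (S.k0 hc w).pt_cases t.1 with ⟨y, n, h1, h2⟩ | ⟨y, a, n, h1, h2, h3, h4⟩
  · rw [h2] at hf
    rcases y with y | u
    · obtain ⟨n', rfl, h⟩ := ar_to_inl hc h1
      exact Or.inl ⟨y, n', h, h2⟩
    · exact absurd rfl (hf u)
  · rw [h4] at hf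
    rcases y with y | u
    · obtain ⟨n', rfl, h⟩ := ar_to_inl hc h2
      exact Or.inr ⟨y, a, n', h1, h, h3, h4⟩
    · exact absurd rfl (hf u)

theorem near_in (hc : S.Conn) {w : S.X} (t : ↥(JM.cpl (farN hc w))) (h : t ∉ nearP hc w) :
    ∃ y n : S.NV w, S.K.ar n.1 y.1 ∧ t.1.1 = PN.inn (Sum.inl y) (Sum.inl n) := by
  rcases near_node hc t with h1 | ⟨y, a, n, -, -, -, h1⟩
  · exact h1
  · exact absurd ((S.k0 hc w).mem_PO h1) h

theorem near_pol (hc : S.Conn) {w : S.X} (t : ↥(JM.cpl (farN hc w))) (h : t ∈ nearP hc w) :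
    ∃ (y : S.NV w) (a : S.SV w) (n : S.NV w), (S.k0 hc w).ar (Sum.inl y) a ∧ S.K.ar n.1 y.1 ∧
      (S.k0 hc w).Cor a (Sum.inl y) (Sum.inl n) ∧
      t.1.1 = PN.pol (Sum.inl y) a ((S.k0 hc w).Pc (Sum.inl y) (Sum.inl n)) := by
  rcases near_node hc t with ⟨y, n, -, h1⟩ | h1
  · exact absurd h ((S.k0 hc w).not_PO h1)
  · exact h1

/-- the in-node of `K` -/
noncomputable def nN (hc : S.Conn) {w : S.X} (t : ↥(JM.cpl (farN hc w))) (h : t ∉ nearP hc w) :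
    ↥S.K.PT :=
  ⟨PN.inn (near_in hc t h).choose.1 (near_in hc t h).choose_spec.choose.1,
    (near_in hc t h).choose_spec.choose_spec.1⟩

theorem nN_val (hc : S.Conn) {w : S.X} (t : ↥(JM.cpl (farN hc w))) (h : t ∉ nearP hc w)
    {y n : S.NV w} (e : t.1.1 = PN.inn (Sum.inl y) (Sum.inl n)) :
    (nN hc t h).1 = PN.inn y.1 n.1 := by
  have h1 := (near_in hc t h).choose_spec.choose_spec.2
  have h2 := PN.inn.inj (e.symm.trans h1)
  exact congrArg₂ PN.inn (congrArg Subtype.val (Sum.inl.inj h2.1).symm)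
    (congrArg Subtype.val (Sum.inl.inj h2.2).symm)

/-- the in-node of a private pole -/
noncomputable def pN (hc : S.Conn) {w : S.X} (t : ↥(JM.cpl (farN hc w))) (h : t ∈ nearP hc w) :
    ↥S.K.PT :=
  ⟨PN.inn (near_pol hc t h).choose.1 (near_pol hc t h).choose_spec.choose_spec.choose.1,
    (near_pol hc t h).choose_spec.choose_spec.choose_spec.2.1⟩

/-- members of a local piece are connected by local corners -/
theorem ct_of_LIJ {w : S.X} {y a b : V} (h : S.LIJ w y a b) (ha : S.K.ar a y)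
    (hb : S.K.ar b y) : S.K.pc.ct (S.cA w) ⟨PN.inn y a, ha⟩ = S.K.pc.ct (S.cA w) ⟨PN.inn y b, hb⟩ := by
  have har : ∀ a b, S.LIJ w y a b → (S.K.ar a y ↔ S.K.ar b y) := by
    intro a b k
    induction k with
    | rel a b k => exact ⟨fun _ => k.1.2.2, fun _ => k.1.2.1⟩
    | refl a => exact Iff.rfl
    | symm a b _ ih => exact ih.symm
    | trans a b c _ _ i1 i2 => exact i1.trans i2
  rw [JM.ct_eq]
  induction h with
  | rel a b h =>
    obtain ⟨⟨hcor, h1, h2⟩, hy, ha', hb'⟩ := h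
    obtain ⟨e, ⟨e0, e1, e2⟩ | ⟨e0, e1, e2⟩⟩ := S.K.cor_LE.1 hcor
    · have he : e ∈ S.K.PE := Or.inl (by rw [e0, e1]; exact ha)
      have hA : (⟨e, he⟩ : ↥S.K.PE) ∈ S.cA w := by
        refine ⟨⟨?_, ?_⟩, 1, ?_, ?_, ?_⟩
        · show S.K.ar (S.K.c0 e) (S.K.c1 e)
          rw [e0, e1]; exact ha
        · show S.K.ar (S.K.c2 e) (S.K.c1 e)
          rw [e2, e1]; exact hb
        · show (1 : H) • w ∈ S.J (S.K.c0 e)
          rw [one_smul, e0]; exact ha'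
        · show (1 : H) • w ∈ S.J (S.K.c1 e)
          rw [one_smul, e1]; exact hy
        · show (1 : H) • w ∈ S.J (S.K.c2 e)
          rw [one_smul, e2]; exact hb'
      apply Relation.EqvGen.rel
      refine ⟨⟨⟨e, he⟩, hA⟩, Subtype.ext ?_, Subtype.ext ?_⟩
      · show S.K.nd (S.K.c1 e) (S.K.c0 e) (S.K.c2 e) = _
        rw [e0, e1, e2, S.K.nd_in ha]
      · show S.K.nd (S.K.c1 e) (S.K.c2 e) (S.K.c0 e) = _
        rw [e0, e1, e2, S.K.nd_in hb]
    · have he : e ∈ S.K.PE := Or.inl (by rw [e0, e1]; exact hb)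
      have hA : (⟨e, he⟩ : ↥S.K.PE) ∈ S.cA w := by
        refine ⟨⟨?_, ?_⟩, 1, ?_, ?_, ?_⟩
        · show S.K.ar (S.K.c0 e) (S.K.c1 e)
          rw [e0, e1]; exact hb
        · show S.K.ar (S.K.c2 e) (S.K.c1 e)
          rw [e2, e1]; exact ha
        · show (1 : H) • w ∈ S.J (S.K.c0 e)
          rw [one_smul, e0]; exact hb'
        · show (1 : H) • w ∈ S.J (S.K.c1 e)
          rw [one_smul, e1]; exact hy
        · show (1 : H) • w ∈ S.J (S.K.c2 e)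
          rw [one_smul, e2]; exact ha'
      apply Relation.EqvGen.symm
      apply Relation.EqvGen.rel
      refine ⟨⟨⟨e, he⟩, hA⟩, Subtype.ext ?_, Subtype.ext ?_⟩
      · show S.K.nd (S.K.c1 e) (S.K.c0 e) (S.K.c2 e) = _
        rw [e0, e1, e2, S.K.nd_in hb]
      · show S.K.nd (S.K.c1 e) (S.K.c2 e) (S.K.c0 e) = _
        rw [e0, e1, e2, S.K.nd_in ha]
  | refl a => exact Relation.EqvGen.refl _
  | symm a b _ ih => exact Relation.EqvGen.symm _ _ (ih hb ha)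
  | trans a b c k1 k2 ih1 ih2 =>
    have hb' := (har _ _ k1).1 ha
    exact Relation.EqvGen.trans _ _ _ (ih1 ha hb') (ih2 hb' hb)

/-- the local piece of a private pole -/
noncomputable def pbN (hc : S.Conn) {w : S.X} (t : ↥(JM.cpl (farN hc w)))
    (h : t ∈ nearP hc w) : S.K.pc.CT (S.cA w) := S.K.pc.ct (S.cA w) (pN hc t h)

theorem pbN_eq (hc : S.Conn) (hnb : S.NB) {w : S.X} (t : ↥(JM.cpl (farN hc w)))
    (h : t ∈ nearP hc w) {y n : S.NV w} {a : S.SV w} (hn : S.K.ar n.1 y.1)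
    (e : t.1.1 = PN.pol (Sum.inl y) a ((S.k0 hc w).Pc (Sum.inl y) (Sum.inl n))) :
    pbN hc t h = S.K.pc.ct (S.cA w) ⟨PN.inn y.1 n.1, hn⟩ := by
  have h1 := (near_pol hc t h).choose_spec.choose_spec.choose_spec.2.2.2
  have h2 := (near_pol hc t h).choose_spec.choose_spec.choose_spec.2.1
  have key : ∀ (y' : S.NV w) (a' : S.SV w) (n' : S.NV w) (h2 : S.K.ar n'.1 y'.1),
      t.1.1 = PN.pol (Sum.inl y') a' ((S.k0 hc w).Pc (Sum.inl y') (Sum.inl n')) →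
      S.K.pc.ct (S.cA w) ⟨PN.inn y'.1 n'.1, h2⟩ = S.K.pc.ct (S.cA w) ⟨PN.inn y.1 n.1, hn⟩ := by
    intro y' a' n' h2 h3
    rw [e] at h3
    have e1 := PN.pol.inj h3
    obtain ⟨e2, -, e3⟩ := e1
    have e2 := Sum.inl.inj e2
    subst e2
    have e4 := (ij_inl hc hnb).1 (GX.Pc_eq.1 e3.symm)
    exact ct_of_LIJ e4 h2 hn
  exact key _ _ _ h2 h1

/-! ### the edges -/

theorem near_c1 (hc : S.Conn) {w : S.X} (e : ↥((S.k0 hc w).pc.avE (farN hc w))) :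
    ∃ x : S.NV w, (S.k0 hc w).c1 e.1.1 = Sum.inl x := by
  have h := e.2.1
  rcases hx : (S.k0 hc w).c1 e.1.1 with x | u
  · exact ⟨x, rfl⟩
  · exfalso
    apply h
    refine ⟨u, ?_⟩
    rw [GX.pc_s, GX.nd_pv, hx]

theorem bk_PE (hc : S.Conn) {w : S.X} (e : ↥((S.k0 hc w).pc.avE (farN hc w))) :
    bkq hc e.1.1 ∈ S.K.PE := by
  obtain ⟨x, hx⟩ := near_c1 hc e
  obtain ⟨k0, k1, k2⟩ := bkq_v hc hx
  rcases ((S.k0 hc w).mem_PE).1 e.1.2 with h | h
  · rw [hx] at h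
    obtain ⟨a, ha, h'⟩ := ar_to_inl hc h
    rw [ha] at k0
    left
    rw [rho_inl k0.symm, k1]
    exact h'
  · rw [hx] at h
    obtain ⟨a, ha, h'⟩ := ar_to_inl hc h
    rw [ha] at k2
    right
    rw [rho_inl k2.symm, k1]
    exact h'

/-- the edge of `K` -/
noncomputable def bkE (hc : S.Conn) {w : S.X} (e : ↥((S.k0 hc w).pc.avE (farN hc w))) :
    ↥S.K.PE := ⟨bkq hc e.1.1, bk_PE hc e⟩

theorem bkE_smul (hc : S.Conn) {w : S.X} (g : ↥(stabilizer H w))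
    (e : ↥((S.k0 hc w).pc.avE (farN hc w))) : bkE hc (g • e) = g.1 • bkE hc e :=
  Subtype.ext (bkq_smul hc g e.1.1)

theorem bkE_inj (hc : S.Conn) {w : S.X} {e e' : ↥((S.k0 hc w).pc.avE (farN hc w))}
    (h : bkE hc e = bkE hc e') : e = e' := by
  obtain ⟨x, hx⟩ := near_c1 hc e
  obtain ⟨x', hx'⟩ := near_c1 hc e'
  exact Subtype.ext (Subtype.ext (lift_unique hc hx hx' (congrArg Subtype.val h)))

/-- the tail of a corner: the end `c0` (`true`) or `c2` (`false`) is an in-arrow over `w` -/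
def Tl (hc : S.Conn) {w : S.X} (e : ↥((S.k0 hc w).pc.avE (farN hc w))) (b : Bool) : Prop :=
  (b = true ∧ (S.k0 hc w).ar ((S.k0 hc w).c0 e.1.1) ((S.k0 hc w).c1 e.1.1)) ∨
    (b = false ∧ (S.k0 hc w).ar ((S.k0 hc w).c2 e.1.1) ((S.k0 hc w).c1 e.1.1))

/-- the end of a corner of `K` -/
noncomputable def ce (K : GX H V) (b : Bool) (e : K.LE) : V := if b then K.c0 e else K.c2 e

theorem ce_E (K : GX H V) (b : Bool) (e : K.LE) : K.E (K.c1 e) (ce K b e) := by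
  cases b
  · exact K.c_E2 e
  · exact K.c_E0 e

theorem ce_smul (K : GX H V) (b : Bool) (g : H) (e : K.LE) : ce K b (g • e) = g • ce K b e := by
  cases b
  · exact K.c2_smul g e
  · exact K.c0_smul g e

theorem Tl.v {hc : S.Conn} {w : S.X} {e : ↥((S.k0 hc w).pc.avE (farN hc w))} {b : Bool}
    (h : Tl hc e b) : ∃ y n : S.NV w, S.K.ar n.1 y.1 ∧ S.K.c1 (bkE hc e).1 = y.1 ∧
      ce S.K b (bkE hc e).1 = n.1 ∧ (S.k0 hc w).c1 e.1.1 = Sum.inl y ∧
      ce (S.k0 hc w) b e.1.1 = Sum.inl n := by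
  obtain ⟨x, hx⟩ := near_c1 hc e
  obtain ⟨k0, k1, k2⟩ := bkq_v hc hx
  rcases h with ⟨rfl, h⟩ | ⟨rfl, h⟩
  · rw [hx] at h
    obtain ⟨a, ha, h'⟩ := ar_to_inl hc h
    rw [ha] at k0
    exact ⟨x, a, h', k1, rho_inl k0.symm, hx, ha⟩
  · rw [hx] at h
    obtain ⟨a, ha, h'⟩ := ar_to_inl hc h
    rw [ha] at k2
    exact ⟨x, a, h', k1, rho_inl k2.symm, hx, ha⟩

/-- orbits of edges with a tail at the same end -/
theorem bkE_orb (hc : S.Conn) {w : S.X} {e e' : ↥((S.k0 hc w).pc.avE (farN hc w))} {b : Bool}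
    (h : Tl hc e b) (h' : Tl hc e' b) : (∃ j : ↥(stabilizer H w), e' = j • e) ↔
      ∃ j : H, bkE hc e' = j • bkE hc e := by
  constructor
  · rintro ⟨j, rfl⟩
    exact ⟨j.1, bkE_smul hc j e⟩
  · rintro ⟨j, hj⟩
    obtain ⟨y, n, -, h1, h2, -, -⟩ := h.v
    obtain ⟨y', n', -, h1', h2', -, -⟩ := h'.v
    have e1 : S.K.c1 (bkE hc e').1 = j • S.K.c1 (bkE hc e).1 := by
      rw [hj]
      exact S.K.c1_smul j _
    have e2 : ce S.K b (bkE hc e').1 = j • ce S.K b (bkE hc e).1 := by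
      rw [hj]
      exact ce_smul S.K b j _
    have hE := ce_E S.K b (bkE hc e).1
    have hw : j • w = w := by
      apply place_smul hE
      · rw [h1]; exact y.2
      · rw [h2]; exact n.2
      · rw [← e1, h1']; exact y'.2
      · rw [← e2, h2']; exact n'.2
    refine ⟨⟨j, hw⟩, bkE_inj hc ?_⟩
    rw [bkE_smul]
    exact hj

/-- a corner of `K` with a tail over `w` comes from the slice -/
theorem exists_bkE (hc : S.Conn) (hnb : S.NB) {w : S.X} (b : Bool) {e : S.K.LE}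
    (har : S.K.ar (ce S.K b e) (S.K.c1 e)) (h1 : w ∈ S.J (S.K.c1 e))
    (h2 : w ∈ S.J (ce S.K b e)) : ∃ e' : ↥((S.k0 hc w).pc.avE (farN hc w)), Tl hc e' b ∧
      (bkE hc e').1 = e ∧ (S.k0 hc w).c0 e'.1.1 = S.rho w (S.K.c0 e) ∧
      (S.k0 hc w).c1 e'.1.1 = Sum.inl ⟨S.K.c1 e, h1⟩ ∧
      (S.k0 hc w).c2 e'.1.1 = S.rho w (S.K.c2 e) := by
  have hv : e ∈ S.vsq w := by
    refine ⟨h1, fun h => ?_⟩
    rcases S.rho_eq_iff.1 h with h | ⟨h, h', -⟩
    · exact hnb e h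
    · cases b
      · exact h' h2
      · exact h h2
  obtain ⟨e', k, k0, k1, k2⟩ := exists_lift hc hnb hv
  have k1 : (S.k0 hc w).c1 e' = Sum.inl ⟨S.K.c1 e, h1⟩ := k1
  have hT : (b = true ∧ (S.k0 hc w).ar ((S.k0 hc w).c0 e') ((S.k0 hc w).c1 e')) ∨
      (b = false ∧ (S.k0 hc w).ar ((S.k0 hc w).c2 e') ((S.k0 hc w).c1 e')) := by
    cases b
    · right
      refine ⟨rfl, ?_⟩
      have h2 : w ∈ S.J (S.K.c2 e) := h2
      rw [k1, k2, S.rho_near h2]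
      exact SAr.hor ⟨_, h2⟩ ⟨_, h1⟩ har
    · left
      refine ⟨rfl, ?_⟩
      have h2 : w ∈ S.J (S.K.c0 e) := h2
      rw [k1, k0, S.rho_near h2]
      exact SAr.hor ⟨_, h2⟩ ⟨_, h1⟩ har
  have hP : e' ∈ (S.k0 hc w).PE := by
    rcases hT with ⟨-, h⟩ | ⟨-, h⟩
    · exact Or.inl h
    · exact Or.inr h
  have hfar : ∀ a c : S.SV w, ∀ h : (S.k0 hc w).PV ((S.k0 hc w).nd ((S.k0 hc w).c1 e') a c),
      (⟨_, h⟩ : ↥(S.k0 hc w).PT) ∉ farN hc w := by
    rintro a c h ⟨u, hu⟩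
    have h3 : ((S.k0 hc w).nd ((S.k0 hc w).c1 e') a c).pv = Sum.inr u := hu
    rw [GX.nd_pv, k1] at h3
    cases h3
  refine ⟨⟨⟨e', hP⟩, hfar _ _ _, hfar _ _ _⟩, hT, k, k0, k1, k2⟩

/-! ### ends -/

theorem nearS (hc : S.Conn) {w : S.X} (e : ↥((S.k0 hc w).pc.avE (farN hc w))) :
    ((nearJM hc w).s e).1.1 = (S.k0 hc w).nd ((S.k0 hc w).c1 e.1.1) ((S.k0 hc w).c0 e.1.1)
      ((S.k0 hc w).c2 e.1.1) := rfl

theorem nearT (hc : S.Conn) {w : S.X} (e : ↥((S.k0 hc w).pc.avE (farN hc w))) :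
    ((nearJM hc w).t e).1.1 = (S.k0 hc w).nd ((S.k0 hc w).c1 e.1.1) ((S.k0 hc w).c2 e.1.1)
      ((S.k0 hc w).c0 e.1.1) := rfl

theorem s_nearP (hc : S.Conn) {w : S.X} (e : ↥((S.k0 hc w).pc.avE (farN hc w))) :
    (nearJM hc w).s e ∈ nearP hc w ↔
      ¬ (S.k0 hc w).ar ((S.k0 hc w).c0 e.1.1) ((S.k0 hc w).c1 e.1.1) :=
  (S.k0 hc w).nd_PO

theorem t_nearP (hc : S.Conn) {w : S.X} (e : ↥((S.k0 hc w).pc.avE (farN hc w))) :
    (nearJM hc w).t e ∈ nearP hc w ↔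
      ¬ (S.k0 hc w).ar ((S.k0 hc w).c2 e.1.1) ((S.k0 hc w).c1 e.1.1) :=
  (S.k0 hc w).nd_PO

theorem Tl.s {hc : S.Conn} {w : S.X} {e : ↥((S.k0 hc w).pc.avE (farN hc w))} (h : Tl hc e true) :
    (nearJM hc w).s e ∉ nearP hc w := by
  rw [s_nearP]
  rcases h with ⟨-, h⟩ | ⟨h, -⟩
  · exact fun k => k h
  · cases h

theorem Tl.t {hc : S.Conn} {w : S.X} {e : ↥((S.k0 hc w).pc.avE (farN hc w))} (h : Tl hc e false) :
    (nearJM hc w).t e ∉ nearP hc w := by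
  rw [t_nearP]
  rcases h with ⟨h, -⟩ | ⟨-, h⟩
  · cases h
  · exact fun k => k h

theorem Tl_true {hc : S.Conn} {w : S.X} {e : ↥((S.k0 hc w).pc.avE (farN hc w))} :
    Tl hc e true ↔ (nearJM hc w).s e ∉ nearP hc w := by
  refine ⟨fun h => h.s, fun h => ?_⟩
  rw [s_nearP, not_not] at h
  exact Or.inl ⟨rfl, h⟩

theorem Tl_false {hc : S.Conn} {w : S.X} {e : ↥((S.k0 hc w).pc.avE (farN hc w))} :
    Tl hc e false ↔ (nearJM hc w).t e ∉ nearP hc w := by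
  refine ⟨fun h => h.t, fun h => ?_⟩
  rw [t_nearP, not_not] at h
  exact Or.inr ⟨rfl, h⟩

theorem Tl_or (hc : S.Conn) {w : S.X} (e : ↥((S.k0 hc w).pc.avE (farN hc w))) :
    Tl hc e true ∨ Tl hc e false := by
  rcases ((S.k0 hc w).mem_PE).1 e.1.2 with h | h
  · exact Or.inl (Or.inl ⟨rfl, h⟩)
  · exact Or.inr (Or.inr ⟨rfl, h⟩)

theorem Tl.nd_in {hc : S.Conn} {w : S.X} {e : ↥((S.k0 hc w).pc.avE (farN hc w))} {b : Bool}
    (h : Tl hc e b) : S.K.ar (ce S.K b (bkE hc e).1) (S.K.c1 (bkE hc e).1) := by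
  obtain ⟨y, n, h0, h1, h2, -, -⟩ := h.v
  rw [h1, h2]
  exact h0

theorem Tl.place {hc : S.Conn} {w : S.X} {e : ↥((S.k0 hc w).pc.avE (farN hc w))} {b : Bool}
    (h : Tl hc e b) : w ∈ S.J (S.K.c1 (bkE hc e).1) ∧ w ∈ S.J (ce S.K b (bkE hc e).1) := by
  obtain ⟨y, n, h0, h1, h2, -, -⟩ := h.v
  rw [h1, h2]
  exact ⟨y.2, n.2⟩

theorem Tl_both {hc : S.Conn} {w : S.X} {e : ↥((S.k0 hc w).pc.avE (farN hc w))}
    (h : Tl hc e true) (h' : Tl hc e false) : bkE hc e ∈ S.cA w := by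
  refine ⟨⟨h.nd_in, h'.nd_in⟩, 1, ?_, ?_, ?_⟩
  · rw [one_smul]; exact h.place.2
  · rw [one_smul]; exact h.place.1
  · rw [one_smul]; exact h'.place.2

theorem both_of_cA {hc : S.Conn} {w : S.X} {e : ↥((S.k0 hc w).pc.avE (farN hc w))}
    (h : bkE hc e ∈ S.cA w) : Tl hc e true ∧ Tl hc e false := by
  obtain ⟨⟨h1, h2⟩, g, h3, h4, h5⟩ := h
  have hw : g • w = w := by
    rcases Tl_or hc e with k | k
    · exact place_eq (ce_E S.K true (bkE hc e).1) k.place.1 k.place.2 h4 h3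
    · exact place_eq (ce_E S.K false (bkE hc e).1) k.place.1 k.place.2 h4 h5
  rw [hw] at h3 h4 h5
  obtain ⟨x, hx⟩ := near_c1 hc e
  obtain ⟨k0, k1, k2⟩ := bkq_v hc hx
  have k0 : S.rho w (S.K.c0 (bkE hc e).1) = (S.k0 hc w).c0 e.1.1 := k0.symm
  have k1 : S.K.c1 (bkE hc e).1 = x.1 := k1
  have k2 : S.rho w (S.K.c2 (bkE hc e).1) = (S.k0 hc w).c2 e.1.1 := k2.symm
  rw [S.rho_near h3] at k0
  rw [S.rho_near h5] at k2
  rw [k1] at h1 h2
  constructor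
  · refine Or.inl ⟨rfl, ?_⟩
    rw [← k0, hx]
    exact SAr.hor ⟨_, h3⟩ x h1
  · refine Or.inr ⟨rfl, ?_⟩
    rw [← k2, hx]
    exact SAr.hor ⟨_, h5⟩ x h2

/-- the source of the edge of `K` -/
theorem bkE_s {hc : S.Conn} {w : S.X} {e : ↥((S.k0 hc w).pc.avE (farN hc w))} (h : Tl hc e true) :
    S.K.pc.s (bkE hc e) = nN hc ((nearJM hc w).s e) h.s := by
  obtain ⟨y, n, h0, h1, h2, h3, h4⟩ := h.v
  have h2 : S.K.c0 (bkE hc e).1 = n.1 := h2
  have h4 : (S.k0 hc w).c0 e.1.1 = Sum.inl n := h4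
  apply Subtype.ext
  rw [GX.pc_s, h1, h2, S.K.nd_in h0, nN_val hc _ h.s (y := y) (n := n)]
  rw [nearS, h3, h4, GX.nd_in]
  exact (ar_inl hc).2 h0

/-- the target of the edge of `K` -/
theorem bkE_t {hc : S.Conn} {w : S.X} {e : ↥((S.k0 hc w).pc.avE (farN hc w))}
    (h : Tl hc e false) : S.K.pc.t (bkE hc e) = nN hc ((nearJM hc w).t e) h.t := by
  obtain ⟨y, n, h0, h1, h2, h3, h4⟩ := h.v
  have h2 : S.K.c2 (bkE hc e).1 = n.1 := h2
  have h4 : (S.k0 hc w).c2 e.1.1 = Sum.inl n := h4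
  apply Subtype.ext
  rw [GX.pc_t, h1, h2, S.K.nd_in h0, nN_val hc _ h.t (y := y) (n := n)]
  rw [nearT, h3, h4, GX.nd_in]
  exact (ar_inl hc).2 h0

theorem nN_cB (hc : S.Conn) {w : S.X} (t : ↥(JM.cpl (farN hc w))) (h : t ∉ nearP hc w) :
    nN hc t h ∈ S.cB w := by
  obtain ⟨y, n, h1, h2⟩ := near_in hc t h
  refine ⟨y.1, n.1, nN_val hc t h h2, 1, ?_, ?_⟩
  · rw [one_smul]; exact y.2
  · rw [one_smul]; exact n.2

theorem nN_orb (hc : S.Conn) {w : S.X} (x y : ↥(JM.cpl (farN hc w))) (hx : x ∉ nearP hc w)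
    (hy : y ∉ nearP hc w) : (∃ j : ↥(stabilizer H w), y = j • x) ↔
      ∃ j : H, nN hc y hy = j • nN hc x hx := by
  obtain ⟨y0, n0, h1, h2⟩ := near_in hc x hx
  constructor
  · rintro ⟨j, rfl⟩
    refine ⟨j.1, Subtype.ext ?_⟩
    have h3 : (j • x).1.1 = PN.inn (Sum.inl (j • y0)) (Sum.inl (j • n0)) := by
      show j • x.1.1 = _
      rw [h2]
      rfl
    rw [nN_val hc _ hy h3]
    show _ = j.1 • (nN hc x hx).1
    rw [nN_val hc _ hx h2]
    rfl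
  · rintro ⟨j, hj⟩
    obtain ⟨y1, n1, h3, h4⟩ := near_in hc y hy
    have h5 := congrArg Subtype.val hj
    have h6 : (j • nN hc x hx).1 = j • (nN hc x hx).1 := rfl
    rw [h6, nN_val hc _ hy h4, nN_val hc _ hx h2] at h5
    have h7 := PN.inn.inj h5
    have e1 : y1.1 = j • y0.1 := h7.1
    have e2 : n1.1 = j • n0.1 := h7.2
    have hw : j • w = w := by
      apply place_smul (x := n0.1) (y := y0.1) (Or.inl h1) n0.2 y0.2
      · rw [← e2]; exact n1.2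
      · rw [← e1]; exact y1.2
    refine ⟨⟨j, hw⟩, Subtype.ext (Subtype.ext ?_)⟩
    show y.1.1 = (⟨j, hw⟩ : ↥(stabilizer H w)) • x.1.1
    rw [h4, h2]
    show _ = PN.inn (Sum.inl ((⟨j, hw⟩ : ↥(stabilizer H w)) • y0))
      (Sum.inl ((⟨j, hw⟩ : ↥(stabilizer H w)) • n0))
    congr 2
    · exact Subtype.ext e1
    · exact Subtype.ext e2

theorem exists_nN (hc : S.Conn) {w : S.X} (t : ↥S.K.PT) (ht : t ∈ S.cB w) :
    ∃ (x : ↥(JM.cpl (farN hc w))) (h : x ∉ nearP hc w), ∃ j : H, t = j • nN hc x h := by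
  obtain ⟨y, n, h1, g, h2, h3⟩ := ht
  have hy : w ∈ S.J (g⁻¹ • y) := by
    have := S.js.smul g⁻¹ _ _ h2
    rwa [inv_smul_smul] at this
  have hn : w ∈ S.J (g⁻¹ • n) := by
    have := S.js.smul g⁻¹ _ _ h3
    rwa [inv_smul_smul] at this
  have har : S.K.ar n y := by
    have := t.2
    rw [h1] at this
    exact this
  have har' : S.K.ar (g⁻¹ • n) (g⁻¹ • y) := S.K.ar_smul g⁻¹ _ _ har
  have hP : (S.k0 hc w).PV (PN.inn (Sum.inl ⟨g⁻¹ • y, hy⟩) (Sum.inl ⟨g⁻¹ • n, hn⟩)) :=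
    (ar_inl hc).2 har'
  let t0 : ↥(S.k0 hc w).PT := ⟨PN.inn (Sum.inl ⟨g⁻¹ • y, hy⟩) (Sum.inl ⟨g⁻¹ • n, hn⟩), hP⟩
  have hf : t0 ∉ farN hc w := by
    rintro ⟨u, hu⟩
    cases hu
  have hp : (⟨t0, hf⟩ : ↥(JM.cpl (farN hc w))) ∉ nearP hc w := (S.k0 hc w).not_PO rfl
  refine ⟨⟨t0, hf⟩, hp, g, Subtype.ext ?_⟩
  show t.1 = g • (nN hc ⟨t0, hf⟩ hp).1
  rw [nN_val hc _ hp rfl, h1]
  show _ = PN.inn (g • g⁻¹ • y) (g • g⁻¹ • n)
  rw [smul_inv_smul, smul_inv_smul]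

theorem pbN_smul (hc : S.Conn) (hnb : S.NB) {w : S.X} (j : ↥(stabilizer H w))
    (d : ↥(JM.cpl (farN hc w))) (hd : d ∈ nearP hc w) (hd' : j • d ∈ nearP hc w) :
    pbN hc (j • d) hd' = j.1 • pbN hc d hd := by
  obtain ⟨y, a, n, h1, h2, h3, h4⟩ := near_pol hc d hd
  have h5 : (j • d).1.1 = PN.pol (Sum.inl (j • y)) (j • a)
      ((S.k0 hc w).Pc (Sum.inl (j • y)) (Sum.inl (j • n))) := by
    show j • d.1.1 = _
    rw [h4, PN.smul_pol, GX.Pc_smul]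
    rfl
  have h6 : S.K.ar (j • n).1 (j • y).1 := S.K.ar_smul j.1 _ _ h2
  rw [pbN_eq hc hnb _ hd h2 h4, pbN_eq hc hnb _ hd' h6 h5]
  rfl

theorem exists_pe (hc : S.Conn) {w : S.X} (d : ↥(JM.cpl (farN hc w))) (hd : d ∈ nearP hc w) :
    ∃ e, (nearJM hc w).s e = d ∨ (nearJM hc w).t e = d := by
  obtain ⟨y, a, n, h1, h2, h3, h4⟩ := near_pol hc d hd
  have har : (S.k0 hc w).ar (Sum.inl n) (Sum.inl y) := (ar_inl hc).2 h2
  have hfar : ∀ (y' a' c : S.SV w), y' = Sum.inl y → ∀ h : (S.k0 hc w).PV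
      ((S.k0 hc w).nd y' a' c), (⟨_, h⟩ : ↥(S.k0 hc w).PT) ∉ farN hc w := by
    rintro y' a' c rfl h ⟨u, hu⟩
    have h3 : ((S.k0 hc w).nd (Sum.inl y) a' c).pv = Sum.inr u := hu
    rw [GX.nd_pv] at h3
    cases h3
  obtain ⟨e, ⟨e0, e1, e2⟩ | ⟨e0, e1, e2⟩⟩ := (S.k0 hc w).cor_LE.1 h3
  · have hP : e ∈ (S.k0 hc w).PE := Or.inr (by rw [e2, e1]; exact har)
    refine ⟨⟨⟨e, hP⟩, hfar _ _ _ e1 _, hfar _ _ _ e1 _⟩, Or.inl (Subtype.ext (Subtype.ext ?_))⟩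
    rw [nearS, h4]
    show (S.k0 hc w).nd ((S.k0 hc w).c1 e) ((S.k0 hc w).c0 e) ((S.k0 hc w).c2 e) = _
    rw [e0, e1, e2, (S.k0 hc w).nd_pol h1]
  · have hP : e ∈ (S.k0 hc w).PE := Or.inl (by rw [e0, e1]; exact har)
    refine ⟨⟨⟨e, hP⟩, hfar _ _ _ e1 _, hfar _ _ _ e1 _⟩, Or.inr (Subtype.ext (Subtype.ext ?_))⟩
    rw [nearT, h4]
    show (S.k0 hc w).nd ((S.k0 hc w).c1 e) ((S.k0 hc w).c2 e) ((S.k0 hc w).c0 e) = _
    rw [e0, e1, e2, (S.k0 hc w).nd_pol h1]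

theorem bkE_surj (hc : S.Conn) (hnb : S.NB) {w : S.X} (b : Bool) (e : ↥S.K.PE) {g : H}
    (har : S.K.ar (ce S.K b e.1) (S.K.c1 e.1)) (h1 : g • w ∈ S.J (S.K.c1 e.1))
    (h2 : g • w ∈ S.J (ce S.K b e.1)) : ∃ e' : ↥((S.k0 hc w).pc.avE (farN hc w)),
      Tl hc e' b ∧ e = g • bkE hc e' := by
  have e1 : S.K.c1 (g⁻¹ • e.1) = g⁻¹ • S.K.c1 e.1 := S.K.c1_smul g⁻¹ _
  have e2 : ce S.K b (g⁻¹ • e.1) = g⁻¹ • ce S.K b e.1 := ce_smul S.K b g⁻¹ _
  have k1 : w ∈ S.J (S.K.c1 (g⁻¹ • e.1)) := by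
    have := S.js.smul g⁻¹ _ _ h1
    rwa [inv_smul_smul, ← e1] at this
  have k2 : w ∈ S.J (ce S.K b (g⁻¹ • e.1)) := by
    have := S.js.smul g⁻¹ _ _ h2
    rwa [inv_smul_smul, ← e2] at this
  obtain ⟨e', hT, he, -⟩ := exists_bkE hc hnb b (e := g⁻¹ • e.1)
    (by rw [e1, e2]; exact S.K.ar_smul g⁻¹ _ _ har) k1 k2
  refine ⟨e', hT, Subtype.ext ?_⟩
  show e.1 = g • (bkE hc e').1
  rw [he, smul_inv_smul]

open Classical in
/-- THE RAW SLICE AS A CUT OF THE PIECES -/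
noncomputable def jcut (hc : S.Conn) (hnb : S.NB) (w : S.X) : JCut S.K.pc (nearJM hc w) where
  A := S.cA w
  Bd := S.cB w
  hA e he := by
    obtain ⟨⟨h1, h2⟩, g, h3, h4, h5⟩ := he
    constructor
    · refine ⟨S.K.c1 e.1, S.K.c0 e.1, ?_, g, h4, h3⟩
      rw [GX.pc_s, S.K.nd_in h1]
    · refine ⟨S.K.c1 e.1, S.K.c2 e.1, ?_, g, h4, h5⟩
      rw [GX.pc_t, S.K.nd_in h2]
  D := nearP hc w
  dd e := by
    rintro ⟨h1, h2⟩
    rcases Tl_or hc e with h | h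
    · exact h.s h1
    · exact h.t h2
  n x h := nN hc x h
  n0 x h := nN_cB hc x h
  n1 x y hx hy := nN_orb hc x y hx hy
  n2 y hy := exists_nN hc y hy
  l e _ _ := bkE hc e
  l0 e h h' := Tl_both (Tl_true.2 h) (Tl_false.2 h')
  l1 e e' hs _ hs' _ := bkE_orb hc (Tl_true.2 hs) (Tl_true.2 hs')
  l2 e he := by
    obtain ⟨⟨h1, h2⟩, g, h3, h4, h5⟩ := he
    obtain ⟨e', hT, he'⟩ := bkE_surj hc hnb true e (g := g) h1 h4 h3
    have hA : bkE hc e' ∈ S.cA w := by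
      have h6 : e ∈ S.cA w := ⟨⟨h1, h2⟩, g, h3, h4, h5⟩
      have h7 := (S.cA w).smul_mem g⁻¹ h6
      rwa [he', inv_smul_smul] at h7
    exact ⟨e', (both_of_cA hA).1.s, (both_of_cA hA).2.t, g, he'⟩
  hl e hs ht := Or.inl ⟨bkE_s (Tl_true.2 hs), bkE_t (Tl_false.2 ht)⟩
  pb d hd := pbN hc d hd
  pbi j d hd hd' := by
    rw [pbN_smul hc hnb j d hd hd']
    exact oq_smul j.1 _
  pa e hs ht := by
    congr 1
    obtain ⟨y, n, h0, h1, h2, h3, h4⟩ := (Tl_false.2 ht).v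
    have h4 : (S.k0 hc w).c2 e.1.1 = Sum.inl n := h4
    have har : (S.k0 hc w).ar (Sum.inl n) (Sum.inl y) := (ar_inl hc).2 h0
    have e1 : ((nearJM hc w).t e).1.1 = PN.inn (Sum.inl y) (Sum.inl n) := by
      rw [nearT, h3, h4, GX.nd_in _ har]
    have e2 : ((nearJM hc w).s e).1.1 = PN.pol (Sum.inl y) ((S.k0 hc w).c0 e.1.1)
        ((S.k0 hc w).Pc (Sum.inl y) (Sum.inl n)) := by
      have h5 := (s_nearP hc e).1 hs
      rw [h3] at h5
      rw [nearS, h3, h4]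
      unfold GX.nd
      rw [if_neg h5]
    rw [pbN_eq hc hnb _ hs h0 e2]
    congr 1
    exact Subtype.ext (nN_val hc _ ht e1)
  pa' e ht hs := by
    congr 1
    obtain ⟨y, n, h0, h1, h2, h3, h4⟩ := (Tl_true.2 hs).v
    have h4 : (S.k0 hc w).c0 e.1.1 = Sum.inl n := h4
    have har : (S.k0 hc w).ar (Sum.inl n) (Sum.inl y) := (ar_inl hc).2 h0
    have e1 : ((nearJM hc w).s e).1.1 = PN.inn (Sum.inl y) (Sum.inl n) := by
      rw [nearS, h3, h4, GX.nd_in _ har]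
    have e2 : ((nearJM hc w).t e).1.1 = PN.pol (Sum.inl y) ((S.k0 hc w).c2 e.1.1)
        ((S.k0 hc w).Pc (Sum.inl y) (Sum.inl n)) := by
      have h5 := (t_nearP hc e).1 ht
      rw [h3] at h5
      rw [nearT, h3, h4]
      unfold GX.nd
      rw [if_neg h5]
    rw [pbN_eq hc hnb _ ht h0 e2]
    congr 1
    exact Subtype.ext (nN_val hc _ hs e1)
  pe d hd := exists_pe hc d hd
  f e _ := (bkE hc e, decide (Tl hc e true))
  f0 e h := by
    constructor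
    · intro hA
      obtain ⟨h1, h2⟩ := both_of_cA hA
      rcases h with h | h
      · exact h1.s h
      · exact h2.t h
    · rcases Tl_or hc e with k | k
      · left
        refine ⟨decide_eq_true k, ?_⟩
        show S.K.pc.s (bkE hc e) ∈ S.cB w
        rw [bkE_s k]
        exact nN_cB hc _ _
      · by_cases k' : Tl hc e true
        · left
          refine ⟨decide_eq_true k', ?_⟩
          show S.K.pc.s (bkE hc e) ∈ S.cB w
          rw [bkE_s k']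
          exact nN_cB hc _ _
        · right
          refine ⟨decide_eq_false k', ?_⟩
          show S.K.pc.t (bkE hc e) ∈ S.cB w
          rw [bkE_t k]
          exact nN_cB hc _ _
  f1 e e' h h' := by
    have hsm : ∀ (j : ↥(stabilizer H w)), Tl hc (j • e) true ↔ Tl hc e true := by
      intro j
      rw [Tl_true, Tl_true, (nearJM hc w).hs]
      refine not_congr ⟨fun h => ?_, fun h => (nearP hc w).smul_mem j h⟩
      have := (nearP hc w).smul_mem j⁻¹ h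
      rwa [inv_smul_smul] at this
    constructor
    · rintro ⟨j, rfl⟩
      refine ⟨?_, j.1, bkE_smul hc j e⟩
      exact decide_eq_decide.2 (hsm j)
    · rintro ⟨h1, h2⟩
      have h1 := decide_eq_decide.1 h1
      by_cases k : Tl hc e true
      · exact (bkE_orb hc k (h1.2 k)).2 h2
      · have k1 := (Tl_or hc e).resolve_left k
        have k2 := (Tl_or hc e').resolve_left (fun k' => k (h1.1 k'))
        exact (bkE_orb hc k1 k2).2 h2
  f2 e b heA hb := by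
    have key : ∀ g : H, S.K.ar (ce S.K b e.1) (S.K.c1 e.1) → g • w ∈ S.J (S.K.c1 e.1) →
        g • w ∈ S.J (ce S.K b e.1) → ∃ e' : ↥((S.k0 hc w).pc.avE (farN hc w)),
          ∃ _ : (nearJM hc w).s e' ∈ nearP hc w ∨ (nearJM hc w).t e' ∈ nearP hc w,
          decide (Tl hc e' true) = b ∧ ∃ j : H, e = j • bkE hc e' := by
      intro g har h1 h2
      obtain ⟨e', hT, he'⟩ := bkE_surj hc hnb b e (g := g) har h1 h2
      have hnA : bkE hc e' ∉ S.cA w := by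
        intro h
        apply heA
        rw [he']
        exact (S.cA w).smul_mem g h
      refine ⟨e', ?_, ?_, g, he'⟩
      · by_contra hh
        rw [not_or] at hh
        exact hnA (Tl_both (Tl_true.2 hh.1) (Tl_false.2 hh.2))
      · cases b
        · exact decide_eq_false (fun k => hnA (Tl_both k hT))
        · exact decide_eq_true hT
    rcases hb with ⟨rfl, y, n, h1, g, h2, h3⟩ | ⟨rfl, y, n, h1, g, h2, h3⟩
    · rw [GX.pc_s] at h1
      obtain ⟨k1, rfl, rfl⟩ := S.K.nd_eq_inn h1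
      exact key g k1 h2 h3
    · rw [GX.pc_t] at h1
      obtain ⟨k1, rfl, rfl⟩ := S.K.nd_eq_inn h1
      exact key g k1 h2 h3

end SyQ

end Pool.Agent.DI
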