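import Pool.Agent.DI.Nq
import Pool.Agent.DI.QCut
import Pool.Agent.DI.WallC
import Pool.Agent.DI.FCk
import Pool.Agent.BT.Proj

/-!
# Self pieces of fat softs: the raw slice

`S.bkf hc`: the flag of `K` which gives a flag of the raw slice. `S.SL w x n g`: the local piece of `n` at
`x` is kept by `g`, which fixes `w` and `x`. `S.Rv w x g`: `g` fixes `w`, `x` and moves the poles of `x`;
`rv_unique`: the place of the reversal is unique. `S.nN_raw`: the number of self pieces of the vertices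
of the raw slice which are fat in `K` is at most the number of self pieces of fat softs of `K`, if two
self local pieces of one piece are one orbit; `S.nN_raw_lt`, `nN_raw_surj`, `nN_raw_vis`, `nN_raw_D1`:
equality. `S.thin_raw`: a reversed thin vertex is thin in the raw slice, if the crossing corners are one
orbit.
-/

namespace Pool.Agent.DI

open MulAction
open Pool.Agent.SAF (InC orbs FinOrb oc mk_eq_iff FinOrb_iff Conv exists_next TAct dist_edge)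
open Pool.Agent.BT (PX PQ JS bey exits dist_cross)
open Pool.Agent.BT.TA

namespace SyQ

variable {H V : Type} [Group H] [MulAction H V] {S : SyQ H V}

/-! ### reversals -/

variable (S) in
/-- `g` fixes `w` and `x` and moves the poles of `x` -/
def Rv (w : S.X) (x : V) (g : H) : Prop := g • w = w ∧ g • x = x ∧ ∀ a, S.K.ar x a → g • a ≠ a

theorem Rv.smul {w : S.X} {x : V} {g : H} (h : S.Rv w x g) (k : H) :
    S.Rv (k • w) (k • x) (k * g * k⁻¹) := by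
  obtain ⟨h1, h2, h3⟩ := h
  refine ⟨?_, ?_, ?_⟩
  · rw [mul_smul, mul_smul, inv_smul_smul, h1]
  · rw [mul_smul, mul_smul, inv_smul_smul, h2]
  · intro a ha e
    have ha' : S.K.ar x (k⁻¹ • a) := by
      have := S.K.ar_smul k⁻¹ _ _ ha
      rwa [inv_smul_smul] at this
    apply h3 _ ha'
    rw [mul_smul, mul_smul] at e
    rw [eq_inv_smul_iff]
    exact e

/-- a reversal exchanges the poles -/
theorem Rv.swap {w : S.X} {x : V} {g : H} (h : S.Rv w x g) {a b : V} (ha : S.K.ar x a)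
    (hb : S.K.ar x b) (hab : a ≠ b) : g • a = b := by
  obtain ⟨-, h2, h3⟩ := h
  have hg : S.K.ar x (g • a) := by
    have := S.K.ar_smul g _ _ ha
    rwa [h2] at this
  rcases S.K.two _ _ _ _ ha hb hg with e | e | e
  · exact absurd e hab
  · exact e.symm
  · exact absurd e.symm (h3 a ha)

theorem dist_sm (g : H) (a b : S.X) : S.D.G.dist (g • a) (g • b) = S.D.G.dist a b :=
  TAct.dist_smul ⟨S.D.tree, S.D.adj_smul, S.D.noinv⟩ g a b

/-- the distances to the poles are equal -/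
theorem Rv.dist {w : S.X} {x : V} {g : H} (h : S.Rv w x g) {a b : V} (ha : S.K.ar x a)
    (hb : S.K.ar x b) (hab : a ≠ b) {p q : S.X} (hp : p ∈ S.J x) (hp' : p ∈ S.J a)
    (hq : q ∈ S.J x) (hq' : q ∈ S.J b) : S.D.G.dist w p = S.D.G.dist w q := by
  have e := h.swap ha hb hab
  have h1 : g • p ∈ S.J x := by
    have := S.js.smul g _ _ hp
    rwa [h.2.1] at this
  have h2 : g • p ∈ S.J b := by
    have := S.js.smul g _ _ hp'
    rwa [e] at this
  have h3 : g • p = q := S.one_eq (Or.inl hb) h1 h2 hq hq'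
  have h4 := dist_sm g w p
  rw [h.1, h3] at h4
  exact h4.symm

/-- a pole beyond an edge which is crossed -/
theorem cross_pole {w u : S.X} (hu : S.D.G.Adj w u) {x a : V} (ha : S.K.ar x a) (h1 : w ∈ S.J x)
    (h2 : u ∈ S.J x) : ∃ a, S.K.ar x a ∧ S.J a ⊆ bey S.D.G w u := by
  obtain ⟨b, hb, hb'⟩ := S.js.cross x ⟨a, ha⟩ w u hu h1 h2
  exact ⟨b, hb, hb'⟩

theorem ne_of_bey {w u u' : S.X} {a b : V} (hu : S.D.G.Adj w u) (hu' : S.D.G.Adj w u')
    (h : u ≠ u') (ha : S.J a ⊆ bey S.D.G w u) (hb : S.J b ⊆ bey S.D.G w u') : a ≠ b := by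
  rintro rfl
  obtain ⟨q, hq⟩ := S.js.ne a
  exact h (S.bey_unique hu hu' (ha hq) (hb hq))

theorem ne_of_bey' {w u : S.X} {a b : V} (ha : S.J a ⊆ bey S.D.G w u)
    (hb : S.J b ⊆ bey S.D.G u w) : a ≠ b := by
  rintro rfl
  obtain ⟨q, hq⟩ := S.js.ne a
  exact bey_not (ha hq) (hb hq)

/-- THE PLACE OF THE REVERSAL IS UNIQUE -/
theorem rv_unique {w w' : S.X} {x a0 : V} {g g' : H} (ha0 : S.K.ar x a0) (hw : w ∈ S.J x)
    (hw' : w' ∈ S.J x) (h : S.Rv w x g) (h' : S.Rv w' x g') : w = w' := by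
  by_contra hne
  obtain ⟨u, hu, eu⟩ := exists_next S.D.tree hne
  obtain ⟨u', hu', eu'⟩ := exists_next S.D.tree (Ne.symm hne)
  have mu : u ∈ S.J x := by
    apply S.js.conv x w hw w' hw' u
    rw [eu, SimpleGraph.dist_eq_one_iff_adj.2 hu, add_comm]
  have mu' : u' ∈ S.J x := by
    apply S.js.conv x w' hw' w hw u'
    rw [eu', SimpleGraph.dist_eq_one_iff_adj.2 hu', add_comm]
  obtain ⟨a, ha, Ja⟩ := cross_pole hu ha0 hw mu
  obtain ⟨b, hb, Jb⟩ := cross_pole hu.symm ha0 mu hw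
  have hab : a ≠ b := ne_of_bey' Ja Jb
  obtain ⟨p, hp, hp'⟩ := S.one_ex (x := x) (y := a) (Or.inl ha)
  obtain ⟨q, hq, hq'⟩ := S.one_ex (x := x) (y := b) (Or.inl hb)
  have d1 := h.dist ha hb hab hp hp' hq hq'
  have d2 := h'.dist ha hb hab hp hp' hq hq'
  -- `q` is on the side of `w`
  have bq : S.D.G.dist q u = S.D.G.dist q w + 1 := Jb hq'
  have bw' : S.D.G.dist w' w = S.D.G.dist w' u + 1 := by
    rw [SimpleGraph.dist_comm, eu, SimpleGraph.dist_comm]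
  have c1 := dist_cross S.D.tree hu.symm bw' bq
  -- the pole beyond `w'`
  obtain ⟨b', hb1, Jb'⟩ := cross_pole hu'.symm ha0 mu' hw'
  obtain ⟨a', ha1, Ja'⟩ := cross_pole hu' ha0 hw' mu'
  have hab' : a' ≠ b' := ne_of_bey' Ja' Jb'
  have key : ∀ c r : S.X, c ∈ bey S.D.G u' w' → S.D.G.dist w c = S.D.G.dist w u' + 1 + S.D.G.dist w' c := by
    intro c r hc
    have e1 : S.D.G.dist c u' = S.D.G.dist c w' + 1 := hc
    have e2 : S.D.G.dist w w' = S.D.G.dist w u' + 1 := by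
      rw [SimpleGraph.dist_comm, eu', SimpleGraph.dist_comm]
    exact dist_cross S.D.tree hu'.symm e2 e1
  have eD : S.D.G.dist w' w = S.D.G.dist w w' := SimpleGraph.dist_comm
  rcases S.K.two _ _ _ _ ha hb hb1 with e | e | e
  · exact hab e
  · -- `b' = b`
    subst e
    have c2 := key q w (Jb' hq')
    have e3 : S.D.G.dist w' q = S.D.G.dist w' u + 1 + S.D.G.dist w q := c1
    omega
  · -- `b' = a`
    subst e
    have c2 := key p w (Jb' hp')
    have e3 : S.D.G.dist w' q = S.D.G.dist w' u + 1 + S.D.G.dist w q := c1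
    omega

/-- a swap of two exits moves the poles -/
theorem rv_of_exits {w u : S.X} {x a0 : V} {g : H} (hu : S.D.G.Adj w u) (ha0 : S.K.ar x a0)
    (hw : w ∈ S.J x) (mu : u ∈ S.J x) (gw : g • w = w) (gx : g • x = x) (gu : g • u ≠ u) :
    S.Rv w x g := by
  refine ⟨gw, gx, ?_⟩
  intro a ha e
  have hgu : S.D.G.Adj w (g • u) := by
    have := S.D.adj_smul g _ _ hu
    rwa [gw] at this
  have mgu : g • u ∈ S.J x := by
    have := S.js.smul g _ _ mu
    rwa [gx] at this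
  obtain ⟨b, hb, Jb⟩ := cross_pole hu ha0 hw mu
  obtain ⟨c, hc, Jc⟩ := cross_pole hgu ha0 hw mgu
  have hbc : b ≠ c := ne_of_bey hu hgu (Ne.symm gu) Jb Jc
  obtain ⟨q, hq⟩ := S.js.ne a
  rcases S.K.two _ _ _ _ hb hc ha with k | k | k
  · exact hbc k
  · -- `a = c`
    subst k
    have h1 : g • q ∈ bey S.D.G w (g • (g • u)) := by
      have := S.bey_smul g (Jc hq)
      rwa [gw] at this
    have h2 : g • q ∈ S.J c := by
      have := S.js.smul g _ _ hq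
      rwa [e] at this
    have hggu : S.D.G.Adj w (g • g • u) := by
      have := S.D.adj_smul g _ _ hgu
      rwa [gw] at this
    exact gu (smul_left_cancel g (S.bey_unique hgu hggu (Jc h2) h1).symm)
  · subst k
    have h1 : g • q ∈ bey S.D.G w (g • u) := by
      have := S.bey_smul g (Jb hq)
      rwa [gw] at this
    have h2 : g • q ∈ S.J b := by
      have := S.js.smul g _ _ hq
      rwa [e] at this
    exact gu (S.bey_unique hgu hu h1 (Jb h2))

/-! ### flags of the raw slice at the vertices over `w` -/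

/-- the flags of the cells of `K` -/
noncomputable def kfc (S : SyQ H V) (hnb : S.NB) : FC S.K (FL S.K) := S.P.fc (S.P.nd_nb hnb)

/-- the flag of `K` which gives a flag of the raw slice -/
noncomputable def bkf (hc : S.Conn) {w : S.X} (f : FL (S.k0 hc w)) : FL S.K := (bkq hc f.1, f.2)

theorem bkf_smul (hc : S.Conn) {w : S.X} (g : ↥(stabilizer H w)) (f : FL (S.k0 hc w)) :
    bkf hc (g • f) = g.1 • bkf hc f := Prod.ext (bkq_smul hc g f.1) rfl

section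

variable (hc : S.Conn) (hnb : S.NB) {w : S.X}

theorem bkf_v {f : FL (S.k0 hc w)} {x : S.NV w} (hx : (S.k0fc hc hnb w).y f = Sum.inl x) :
    (S.k0fc hc hnb w).x f = S.rho w ((S.kfc hnb).x (bkf hc f)) ∧
    (S.kfc hnb).y (bkf hc f) = x.1 ∧
    (S.k0fc hc hnb w).z f = S.rho w ((S.kfc hnb).z (bkf hc f)) := by
  obtain ⟨e, b⟩ := f
  obtain ⟨h0, h1, h2⟩ := bkq_v hc (e := e) hx
  cases b
  · refine ⟨?_, h1, ?_⟩
    · unfold k0fc kfc bkf
      rw [P45.fc_x', P45.fc_x', h2]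
    · unfold k0fc kfc bkf
      rw [P45.fc_z', P45.fc_z', h0]
  · refine ⟨?_, h1, ?_⟩
    · unfold k0fc kfc bkf
      rw [P45.fc_x, P45.fc_x, h0]
    · unfold k0fc kfc bkf
      rw [P45.fc_z, P45.fc_z, h2]

theorem bkf_ne {f : FL (S.k0 hc w)} {x : S.NV w} (hx : (S.k0fc hc hnb w).y f = Sum.inl x) :
    S.rho w ((S.kfc hnb).x (bkf hc f)) ≠ S.rho w ((S.kfc hnb).z (bkf hc f)) := by
  obtain ⟨e, b⟩ := f
  have h := (bkq_vis hc hnb e hx).1.2
  cases b
  · unfold kfc bkf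
    rw [P45.fc_x', P45.fc_z']
    exact h.symm
  · unfold kfc bkf
    rw [P45.fc_x, P45.fc_z]
    exact h

theorem bkf_lift {f f' : FL (S.k0 hc w)} {x x' : S.NV w}
    (hx : (S.k0fc hc hnb w).y f = Sum.inl x) (hx' : (S.k0fc hc hnb w).y f' = Sum.inl x')
    (h : bkf hc f = bkf hc f') : f = f' := by
  obtain ⟨e, b⟩ := f
  obtain ⟨e', b'⟩ := f'
  have h1 : bkq hc e = bkq hc e' := congrArg Prod.fst h
  have h2 : b = b' := congrArg Prod.snd h
  subst h2
  rw [lift_unique hc (e := e) (e' := e') hx hx' h1]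

/-- a square of `K` gives squares -/
theorem sq_bk {f : FL (S.k0 hc w)} (h : (S.kfc hnb).sq (bkf hc f)) :
    (S.k0fc hc hnb w).sq f ∧ ∃ p j l, f.1 = e4q hc p j l := by
  obtain ⟨e, b⟩ := f
  have h' : S.P.sq (bkq hc e).1.1 := h
  rcases e_cases hc e with ⟨c, j, l, rfl⟩ | ⟨p, j, l, rfl⟩ | ⟨p, j, l, rfl⟩
  · rw [bkq_e5] at h'
    exact absurd h' c.2.1
  · rw [bkq_e4] at h'
    exact absurd h' p.2.1
  · exact ⟨⟨Sum.inr p, rfl⟩, p, j, l, rfl⟩

theorem nx4q (p : S.C4q w) (j : Fin 4) (l : ↥(stabilizer H w)) :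
    bkq hc ((S.k0 hc w).nx (e4q hc p j l)) = S.K.nx (bkq hc (e4q hc p j l)) := by
  have h4 := S.P.len4 p.2.1
  refine Prod.ext (Sigma.ext rfl (heq_of_eq ?_)) rfl
  apply Fin.ext
  show (j.1 + 1) % 4 = (j.1 + 1) % S.K.len p.1.1
  rw [h4]

theorem pv4q (p : S.C4q w) (j : Fin 4) (l : ↥(stabilizer H w)) :
    bkq hc ((S.k0 hc w).pv (e4q hc p j l)) = S.K.pv (bkq hc (e4q hc p j l)) := by
  have h4 := S.P.len4 p.2.1
  refine Prod.ext (Sigma.ext rfl (heq_of_eq ?_)) rfl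
  apply Fin.ext
  show (j.1 + (4 - 1)) % 4 = (j.1 + (S.K.len p.1.1 - 1)) % S.K.len p.1.1
  rw [h4]

theorem e4q_ne (p : S.C4q w) (j : Fin 4) (l : ↥(stabilizer H w)) (p' : S.C4 w)
    (l' : ↥(stabilizer H w)) : e4q hc p j l ≠ e4 hc p' 2 l' := by
  intro e
  have : (Sum.inr (Sum.inr p) : S.CI w) = Sum.inr (Sum.inl p') := congrArg (fun e => e.1.1) e
  cases this

/-- the opposite vertex in a square of `K` -/
theorem opp4q {f : FL (S.k0 hc w)} {p : S.C4q w} {j : Fin 4} {l : ↥(stabilizer H w)}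
    (hf : f.1 = e4q hc p j l) : (S.k0fc hc hnb w).z ((S.k0fc hc hnb w).r f) =
      S.rho w ((S.kfc hnb).z ((S.kfc hnb).r (bkf hc f))) := by
  obtain ⟨e, b⟩ := f
  have hf : e = e4q hc p j l := hf
  subst hf
  cases b
  · show (S.k0fc hc hnb w).z (((S.k0 hc w).pv (e4q hc p j l), false) : FL (S.k0 hc w)) =
      S.rho w ((S.kfc hnb).z ((S.K.pv (bkq hc (e4q hc p j l)), false) : FL S.K))
    unfold k0fc kfc
    rw [P45.fc_z', P45.fc_z', ← pv4q]
    exact (bkq_c hc _ (fun p' l' => e4q_ne hc p _ l p' l')).1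
  · show (S.k0fc hc hnb w).z (((S.k0 hc w).nx (e4q hc p j l), true) : FL (S.k0 hc w)) =
      S.rho w ((S.kfc hnb).z ((S.K.nx (bkq hc (e4q hc p j l)), true) : FL S.K))
    unfold k0fc kfc
    rw [P45.fc_z, P45.fc_z, ← nx4q]
    exact (bkq_c hc _ (fun p' l' => e4q_ne hc p _ l p' l')).2.2

theorem sm_bk {f f' : FL (S.k0 hc w)} {x x' : S.NV w}
    (hx : (S.k0fc hc hnb w).y f = Sum.inl x) (hx' : (S.k0fc hc hnb w).y f' = Sum.inl x')
    (h : (S.kfc hnb).Sm (bkf hc f) (bkf hc f')) : (S.k0fc hc hnb w).Sm f f' := by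
  rcases h with h | ⟨h1, h2, h3, h4, h5, h6⟩
  · exact Or.inl (bkf_lift hc hnb hx hx' h)
  · obtain ⟨q1, p, j, l, hf⟩ := sq_bk hc hnb h1
    obtain ⟨q2, p', j', l', hf'⟩ := sq_bk hc hnb h2
    obtain ⟨k1, k2, k3⟩ := bkf_v hc hnb hx
    obtain ⟨l1, l2, l3⟩ := bkf_v hc hnb hx'
    refine Or.inr ⟨q1, q2, ?_, ?_, ?_, ?_⟩
    · rw [k1, l1, h3]
    · rw [hx, hx']
      congr 1
      apply Subtype.ext
      rw [← k2, ← l2, h4]
    · rw [k3, l3, h5]
    · rw [opp4q hc hnb hf, opp4q hc hnb hf', h6]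

theorem k0fc_IJ {y a b : S.NV w} :
    (S.k0fc hc hnb w).IJ (Sum.inl y) (Sum.inl a) (Sum.inl b) ↔ S.LIJ w y.1 a.1 b.1 :=
  ((S.k0P hc w).fc_IJ _).trans (ij_inl hc hnb)

theorem kfc_IJ {y a b : V} : (S.kfc hnb).IJ y a b ↔ S.K.IJ y a b := S.P.fc_IJ _

end

theorem LIJ.ij {w : S.X} {y a b : V} (h : S.LIJ w y a b) : S.K.IJ y a b := by
  induction h with
  | rel a b h => exact Relation.EqvGen.rel _ _ h.1
  | refl a => exact Relation.EqvGen.refl _
  | symm a b _ ih => exact Relation.EqvGen.symm _ _ ih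
  | trans a b c _ _ i1 i2 => exact Relation.EqvGen.trans _ _ _ i1 i2

theorem LIJ.sm50 {w : S.X} {y a b : V} (h : S.LIJ w y a b) (g : H) :
    S.LIJ (g • w) (g • y) (g • a) (g • b) := by
  induction h with
  | rel a b h =>
    exact Relation.EqvGen.rel _ _ ⟨⟨h.1.1.smul g, S.K.ar_smul g _ _ h.1.2.1,
      S.K.ar_smul g _ _ h.1.2.2⟩, S.js.smul g _ _ h.2.1, S.js.smul g _ _ h.2.2.1,
      S.js.smul g _ _ h.2.2.2⟩
  | refl a => exact Relation.EqvGen.refl _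
  | symm a b _ ih => exact Relation.EqvGen.symm _ _ ih
  | trans a b c _ _ i1 i2 => exact Relation.EqvGen.trans _ _ _ i1 i2

/-- if `J y = {w}` then the pieces are local -/
theorem lij_of_ij {w : S.X} {y a b : V} (hy : ∀ p ∈ S.J y, p = w) (h : S.K.IJ y a b) :
    S.LIJ w y a b := by
  induction h with
  | rel a b h =>
    have k : ∀ c, S.K.ar c y → w ∈ S.J y ∧ w ∈ S.J c := by
      intro c hc
      obtain ⟨p, h1, h2⟩ := S.one_ex (x := c) (y := y) (Or.inl hc)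
      rw [hy p h2] at h1 h2
      exact ⟨h2, h1⟩
    exact Relation.EqvGen.rel _ _ ⟨h, (k a h.2.1).1, (k a h.2.1).2, (k b h.2.2).2⟩
  | refl a => exact Relation.EqvGen.refl _
  | symm a b _ ih => exact Relation.EqvGen.symm _ _ ih
  | trans a b c _ _ i1 i2 => exact Relation.EqvGen.trans _ _ _ i1 i2

/-! ### the law -/

variable (S) in
/-- the local piece of `n` at `x` is kept by `g` -/
def SL (w : S.X) (x n : V) (g : H) : Prop := w ∈ S.J x ∧ w ∈ S.J n ∧ S.K.ar n x ∧ g • w = w ∧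
  g • x = x ∧ S.LIJ w x n (g • n)

theorem SL.smul {w : S.X} {x n : V} {g : H} (h : S.SL w x n g) (k : H) :
    S.SL (k • w) (k • x) (k • n) (k * g * k⁻¹) := by
  obtain ⟨h1, h2, h3, h4, h5, h6⟩ := h
  refine ⟨S.js.smul k _ _ h1, S.js.smul k _ _ h2, S.K.ar_smul k _ _ h3, ?_, ?_, ?_⟩
  · rw [mul_smul, mul_smul, inv_smul_smul, h4]
  · rw [mul_smul, mul_smul, inv_smul_smul, h5]
  · have := h6.sm50 k
    rwa [mul_smul, mul_smul, inv_smul_smul]

/-- what is needed of the step at `w` for the law of the raw slice -/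
structure NRaw (hnb : S.NB) (w : S.X) : Prop where
  lc : ∀ y n a, S.K.ar n y → S.K.ar y a → ∃ e ∈ (S.kfc hnb).strs,
    (S.kfc hnb).y e = y ∧ S.K.IJ y n ((S.kfc hnb).x e)
  one : ∀ x n n' g g', S.SL w x n g → S.SL w x n' g' → S.Rv w x g → S.Rv w x g' →
    (S.kfc hnb).Fat x → (∃ u, S.D.G.Adj w u ∧ u ∈ S.J x) → S.K.IJ x n n' →
    ∃ h : H, h • x = x ∧ h • w = w ∧ S.LIJ w x (h • n) n'

/-- the passes at `z` which cross the edge are one orbit -/
def UqW (hnb : S.NB) (w u : S.X) (z : V) : Prop := ∀ f f' : FL S.K, (S.kfc hnb).y f = z →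
  (S.kfc hnb).y f' = z → S.J ((S.kfc hnb).z f) ⊆ bey S.D.G w u →
  S.J ((S.kfc hnb).x f) ⊆ bey S.D.G u w → S.J ((S.kfc hnb).z f') ⊆ bey S.D.G w u →
  S.J ((S.kfc hnb).x f') ⊆ bey S.D.G u w →
  ∃ g : H, g • z = z ∧ g • w = w ∧ g • u = u ∧ (S.kfc hnb).Sm (g • f) f'

theorem UqC.uqW {hnb : S.NB} {w u : S.X} {z : V} (hq : S.UqC w u z) : S.UqW hnb w u z := by
  intro f f' a1 b1 a2 a3 b2 b3
  have xe : ∀ (e : S.K.LE) (b : Bool), S.J ((S.kfc hnb).z (e, b)) ⊆ bey S.D.G w u →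
      S.J ((S.kfc hnb).x (e, b)) ⊆ bey S.D.G u w → S.Xe w u e := by
    intro e b h1 h2
    cases b
    · unfold kfc at h1 h2
      rw [P45.fc_z'] at h1
      rw [P45.fc_x'] at h2
      exact Or.inl ⟨h1, h2⟩
    · unfold kfc at h1 h2
      rw [P45.fc_z] at h1
      rw [P45.fc_x] at h2
      exact Or.inr ⟨h1, h2⟩
  obtain ⟨g, g1, g2, g3, g4⟩ := hq f.1 f'.1 a1 b1 (xe _ _ a2 a3) (xe _ _ b2 b3)
  refine ⟨g, g1, g2, g3, Or.inl ?_⟩
  have hfst : (g • f).1 = f'.1 := g4.symm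
  by_cases hb : f.2 = f'.2
  · exact Prod.ext hfst hb
  · exfalso
    -- the directions differ
    have e1 : f' = (S.kfc hnb).v (g • f) := by
      refine Prod.ext hfst.symm ?_
      show f'.2 = !f.2
      revert hb
      cases f.2 <;> cases f'.2 <;> decide
    rw [e1, FC.zv, FC.x_smul] at b2
    obtain ⟨q, hq⟩ := S.js.ne ((S.kfc hnb).x f)
    have c1 := b2 (S.js.smul g _ _ hq)
    have c2 := S.bey_smul g (a3 hq)
    rw [g3, g2] at c2
    exact bey_not c1 c2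

/-- the crossing passes at a reversed thin vertex are one orbit -/
def NUq (hnb : S.NB) (w : S.X) : Prop := ∀ x n g, S.SL w x n g → ¬ (S.kfc hnb).Fat x →
  ∀ u, S.D.G.Adj w u → u ∈ S.J x → g • u ≠ u → S.UqW hnb w u x

variable (S) in
/-- a vertex of the slice which is a fat vertex of `K` -/
def FatK (hnb : S.NB) (w : S.X) (s : S.SV w) : Prop :=
  ∃ x : S.NV w, s = Sum.inl x ∧ (S.kfc hnb).Fat x.1

theorem FatK.smul {hnb : S.NB} {w : S.X} (g : ↥(stabilizer H w)) (s : S.SV w)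
    (h : S.FatK hnb w s) : S.FatK hnb w (g • s) := by
  obtain ⟨x, rfl, hx⟩ := h
  exact ⟨g • x, rfl, hx.smul g.1⟩

section

variable (hc : S.Conn) {hnb : S.NB} {w : S.X}

theorem sar_soft {a b : S.SV w} (h : S.SAr w a b) : ∃ x : S.NV w, a = Sum.inl x := by
  cases h with
  | hor x _ _ => exact ⟨x, rfl⟩
  | up x _ _ => exact ⟨x, rfl⟩

/-- crossing flags over a crossed edge with one orbit of crossing passes -/
theorem uq_flags {u : S.X} (hu : S.D.G.Adj w u) {x : S.NV w} (mu : u ∈ S.J x.1)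
    (hq : S.UqW hnb w u x.1) {f f' : FL (S.k0 hc w)} (hx : (S.k0fc hc hnb w).y f = Sum.inl x)
    (hx' : (S.k0fc hc hnb w).y f' = Sum.inl x)
    (hz : (S.k0fc hc hnb w).z f = Sum.inr ⟨u, hu⟩)
    (hz' : (S.k0fc hc hnb w).z f' = Sum.inr ⟨u, hu⟩) :
    ∃ h : ↥(stabilizer H w), (S.k0fc hc hnb w).Sm (h • f) f' := by
  have key : ∀ f : FL (S.k0 hc w), (S.k0fc hc hnb w).y f = Sum.inl x →
      (S.k0fc hc hnb w).z f = Sum.inr ⟨u, hu⟩ → (S.kfc hnb).y (bkf hc f) = x.1 ∧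
      S.J ((S.kfc hnb).z (bkf hc f)) ⊆ bey S.D.G w u ∧
      S.J ((S.kfc hnb).x (bkf hc f)) ⊆ bey S.D.G u w := by
    intro f h1 h2
    obtain ⟨k1, k2, k3⟩ := bkf_v hc hnb h1
    have k4 := bkf_ne hc hnb h1
    have k5 : S.J ((S.kfc hnb).z (bkf hc f)) ⊆ bey S.D.G w u := rho_inr (k3.symm.trans h2)
    refine ⟨k2, k5, ?_⟩
    have hcs : ¬ S.Cs w u ((S.kfc hnb).x (bkf hc f)) := by
      intro hcs
      have hE := (S.kfc hnb).Ex (bkf hc f)
      rw [k2] at hE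
      exact S.not_both hu hE ⟨x.2, mu⟩ hcs
    rcases S.side_or hu hcs with h | h
    · exfalso
      apply k4
      rw [S.rho_bey hu h, S.rho_bey hu k5]
    · exact h
  obtain ⟨a1, a2, a3⟩ := key f hx hz
  obtain ⟨b1, b2, b3⟩ := key f' hx' hz'
  obtain ⟨g, g1, g2, g3, g4⟩ := hq (bkf hc f) (bkf hc f') a1 b1 a2 a3 b2 b3
  refine ⟨⟨g, g2⟩, ?_⟩
  have hy : (S.k0fc hc hnb w).y ((⟨g, g2⟩ : ↥(stabilizer H w)) • f) =
      Sum.inl ((⟨g, g2⟩ : ↥(stabilizer H w)) • x) := by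
    rw [FC.y_smul, hx]
    rfl
  refine sm_bk hc hnb hy hx' ?_
  rw [bkf_smul]
  exact g4

/-- the self pieces of the raw slice -/
theorem sf_raw {f : FL (S.k0 hc w)} (hs : (S.k0fc hc hnb w).Sf f) :
    ∃ (x n : S.NV w) (g : ↥(stabilizer H w)),
      (S.k0fc hc hnb w).y f = Sum.inl x ∧ (S.k0fc hc hnb w).x f = Sum.inl n ∧
      S.SL w x.1 n.1 g.1 ∧ S.SAr w (Sum.inl x) ((S.k0fc hc hnb w).z f) ∧
      S.SAr w (Sum.inl x) (g • (S.k0fc hc hnb w).z f) ∧
      g • (S.k0fc hc hnb w).z f ≠ (S.k0fc hc hnb w).z f := by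
  obtain ⟨⟨s1, s2⟩, g, g1, g2, g3⟩ := hs
  obtain ⟨x, hx⟩ := sar_soft s2
  rw [hx] at s1 s2 g1 g2
  obtain ⟨n, hn, hnx⟩ := ar_to_inl hc s1
  rw [hn] at g2
  have gx : g.1 • x.1 = x.1 := congrArg Subtype.val (Sum.inl.inj g1)
  have hl : S.LIJ w x.1 n.1 (g.1 • n.1) := (k0fc_IJ hc hnb).1 g2
  have hw : w ∈ S.J x.1 := x.2
  have s2' : S.SAr w (Sum.inl x) ((S.k0fc hc hnb w).z f) := s2
  refine ⟨x, n, g, hx, hn, ⟨hw, n.2, hnx, g.2, gx, hl⟩, s2', ?_, g3⟩
  have := s2'.smul g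
  have e1 : g • (Sum.inl x : S.SV w) = Sum.inl x := g1
  rwa [e1] at this

/-- no exits -/
theorem only_w {x : S.NV w} {g : ↥(stabilizer H w)} {a : S.NV w}
    (s1 : S.SAr w (Sum.inl x) (Sum.inl a)) (s2 : S.SAr w (Sum.inl x) (g • Sum.inl a))
    (g3 : g • (Sum.inl a : S.SV w) ≠ Sum.inl a) : ∀ p ∈ S.J x.1, p = w := by
  intro p hp
  by_contra hne
  obtain ⟨u, hu, eu⟩ := exists_next S.D.tree (Ne.symm hne)
  have mu : u ∈ S.J x.1 := by
    apply S.js.conv x.1 w x.2 p hp u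
    rw [eu, SimpleGraph.dist_eq_one_iff_adj.2 hu, add_comm]
  have hup : S.SAr w (Sum.inl x) (Sum.inr ⟨u, hu⟩) := SAr.up x ⟨u, hu⟩ mu
  rcases SAr.two _ _ _ _ s1 s2 hup with k | k | k
  · exact g3 k.symm
  · cases k
  · cases k

theorem rv_of_sar {x : S.NV w} {g : ↥(stabilizer H w)} {z : S.SV w} (gx : g.1 • x.1 = x.1)
    (s1 : S.SAr w (Sum.inl x) z) (g3 : g • z ≠ z) {a0 : V} (ha0 : S.K.ar x.1 a0) :
    S.Rv w x.1 g.1 := by
  rcases z with a | u
  · have ha : S.K.ar x.1 a.1 := by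
      cases s1 with
      | hor _ _ h => exact h
    have hga : g.1 • a.1 ≠ a.1 := by
      intro k
      apply g3
      exact congrArg Sum.inl (Subtype.ext k)
    refine ⟨g.2, gx, ?_⟩
    intro b hb k
    have hga' : S.K.ar x.1 (g.1 • a.1) := by
      have := S.K.ar_smul g.1 _ _ ha
      rwa [gx] at this
    rcases S.K.two _ _ _ _ ha hga' hb with k1 | k1 | k1
    · exact hga k1.symm
    · rw [← k1] at k
      exact hga (smul_left_cancel g.1 k)
    · rw [← k1] at k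
      exact hga k
  · have mu : u.1 ∈ S.J x.1 := by
      cases s1 with
      | up _ _ h => exact h
    have gu : g.1 • u.1 ≠ u.1 := by
      intro k
      apply g3
      exact congrArg Sum.inr (Subtype.ext k)
    exact rv_of_exits u.2 ha0 x.2 mu g.2 gx gu

/-- flags of own squares at a vertex over `w` only -/
theorem ow_bk {x : S.NV w} (hJ : ∀ p ∈ S.J x.1, p = w) {f : FL (S.k0 hc w)}
    (hx : (S.k0fc hc hnb w).y f = Sum.inl x) (h : (S.kfc hnb).Ow (bkf hc f)) :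
    (S.k0fc hc hnb w).Ow f := by
  obtain ⟨h1, h2, h3⟩ := h
  obtain ⟨k1, k2, k3⟩ := bkf_v hc hnb hx
  rw [k2] at h2 h3
  have key : ∀ a, S.K.ar x.1 a → (S.k0 hc w).ar (Sum.inl x) (S.rho w a) := by
    intro a ha
    obtain ⟨p, p1, p2⟩ := S.one_ex (x := x.1) (y := a) (Or.inl ha)
    rw [hJ p p1] at p2
    rw [S.rho_near p2]
    exact (ar_inl hc).2 ha
  refine ⟨(sq_bk hc hnb h1).1, ?_, ?_⟩
  · rw [hx, k1]
    exact key _ h2
  · rw [hx, k3]
    exact key _ h3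

/-- A REVERSED THIN VERTEX IS THIN IN THE RAW SLICE -/
theorem thin_raw (hN : S.NUq hnb w) {f : FL (S.k0 hc w)} (hs : (S.k0fc hc hnb w).Sf f)
    (hth : ¬ S.FatK hnb w ((S.k0fc hc hnb w).y f)) :
    ¬ (S.k0fc hc hnb w).Fat ((S.k0fc hc hnb w).y f) := by
  obtain ⟨x, n, g, hx, hn, hsl, s2', sm, g3⟩ := sf_raw hc hs
  rw [hx]
  rintro ⟨e, e', m1, m2, m3, m4, o1, o2, m5⟩
  have hth' : ¬ (S.kfc hnb).Fat x.1 := fun h => hth ⟨x, hx, h⟩
  have m3' : S.SAr w (Sum.inl x) ((S.k0fc hc hnb w).z e) := m3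
  have gx : g.1 • x.1 = x.1 := hsl.2.2.2.2.1
  rcases hz : (S.k0fc hc hnb w).z f with a | u
  · -- the poles are over `w`
    rw [hz] at s2' g3 sm
    have hJ := only_w s2' sm g3
    rcases hze : (S.k0fc hc hnb w).z e with b | u
    · rw [hze] at m3' m4
      have hb : S.K.ar x.1 b.1 := by
        cases m3' with
        | hor _ _ h => exact h
      obtain ⟨-, k2, k3⟩ := bkf_v hc hnb m1
      obtain ⟨-, l2, l3⟩ := bkf_v hc hnb m2
      have k4 : (S.kfc hnb).z (bkf hc e) = b.1 := rho_inl (k3.symm.trans hze)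
      have l4 : (S.kfc hnb).z (bkf hc e') = b.1 := rho_inl (l3.symm.trans m4)
      apply hth'
      refine ⟨bkf hc e, bkf hc e', k2, l2, by rw [k4]; exact hb, by rw [l4, k4],
        fun k => o1 (ow_bk hc hJ m1 k), fun k => o2 (ow_bk hc hJ m2 k), ?_⟩
      intro h hh
      have h1 : h • x.1 = x.1 := by
        have := hh.yy
        rw [FC.y_smul, k2, l2] at this
        exact this
      have h2 : h • w = w := by
        have := S.js.smul h _ _ x.2
        rw [h1] at this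
        exact hJ _ this
      apply m5 ⟨h, h2⟩
      have h3 : (S.k0fc hc hnb w).y ((⟨h, h2⟩ : ↥(stabilizer H w)) • e) =
          Sum.inl ((⟨h, h2⟩ : ↥(stabilizer H w)) • x) := by
        rw [FC.y_smul, m1]
        rfl
      refine sm_bk hc hnb h3 m2 ?_
      rw [bkf_smul]
      exact hh
    · exfalso
      rw [hze] at m3'
      cases m3' with
      | up _ _ h => exact u.2.ne (hJ _ h).symm
  · -- the poles are directions
    rw [hz] at s2' g3 sm
    have gu : g.1 • u.1 ≠ u.1 := by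
      intro k
      apply g3
      exact congrArg Sum.inr (Subtype.ext k)
    rcases hze : (S.k0fc hc hnb w).z e with b | v
    · rw [hze] at m3'
      rcases SAr.two _ _ _ _ s2' sm m3' with k | k | k
      · exact g3 k.symm
      · cases k
      · cases k
    · rw [hze] at m3' m4
      have mv : v.1 ∈ S.J x.1 := by
        cases m3' with
        | up _ _ h => exact h
      have gv : g.1 • v.1 ≠ v.1 := by
        rcases SAr.two _ _ _ _ s2' sm m3' with k | k | k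
        · exact absurd k.symm g3
        · have k1 : g.1 • u.1 = v.1 := congrArg Subtype.val (Sum.inr.inj k)
          rw [← k1]
          intro k2
          exact gu (smul_left_cancel g.1 k2)
        · have k1 : u.1 = v.1 := congrArg Subtype.val (Sum.inr.inj k)
          rw [← k1]
          exact gu
      have hq := hN _ _ _ hsl hth' v.1 v.2 mv gv
      obtain ⟨h, hh⟩ := uq_flags hc (hnb := hnb) v.2 mv hq m1 m2 hze m4
      exact m5 h hh

/-- a self local piece lies in a self piece -/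
theorem sf_of_sl (hN : S.NRaw hnb w) {x n : V} {g : H} (h : S.SL w x n g) (hr : S.Rv w x g)
    (hf : (S.kfc hnb).Fat x) : NF.pol x x ((S.kfc hnb).Pc x n) ∈ (S.kfc hnb).sps := by
  obtain ⟨h1, h2, h3, h4, h5, h6⟩ := h
  have hf' := hf
  obtain ⟨c, c', n1, n2, n3, n4, o1, o2, n5⟩ := hf'
  obtain ⟨e, he, ey, ex⟩ := hN.lc _ _ _ h3 n3
  refine ⟨e, ?_, by rw [ey]; exact hf, he, g, ?_, ?_, ?_⟩
  · rw [ey]
    congr 1
    exact FC.Pc_eq.2 ((kfc_IJ hnb).2 ex)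
  · rw [ey, h5]
  · rw [ey]
    apply (kfc_IJ hnb).2
    have k1 : S.K.IJ x (g • n) (g • (S.kfc hnb).x e) := by
      have := ex.smul g
      rwa [h5] at this
    exact (ex.symm').trans' (h6.ij.trans' k1)
  · have := he.2
    rw [ey] at this
    exact hr.2.2 _ this

/-- the correspondence of the codes -/
def NR (hnb : S.NB) (w : S.X) (t0 : NF (S.SV w) (FL (S.k0 hc w))) (t : NF V (FL S.K)) : Prop :=
  ∃ (x n : S.NV w) (g : H), t0 = NF.pol (Sum.inl x) (Sum.inl x)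
      ((S.k0fc hc hnb w).Pc (Sum.inl x) (Sum.inl n)) ∧
    t = NF.pol x.1 x.1 ((S.kfc hnb).Pc x.1 n.1) ∧ S.SL w x.1 n.1 g ∧ S.Rv w x.1 g ∧
    (S.kfc hnb).Fat x.1

theorem NR.ex (hN : S.NRaw hnb w) : ∀ t0 ∈ (S.k0fc hc hnb w).spP (S.FatK hnb w),
    ∃ t ∈ (S.kfc hnb).sps, NR hc hnb w t0 t := by
  rintro _ ⟨f, rfl, h1, h2⟩
  obtain ⟨x, n, g, hx, hn, hs, s2, sm, g3⟩ := sf_raw hc h2
  obtain ⟨x', hx', hf⟩ := h1
  have e : x = x' := Sum.inl.inj (hx.symm.trans hx')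
  subst e
  obtain ⟨c, c', n1, n2, n3, n4, o1, o2, n5⟩ := id hf
  have hr := rv_of_sar hs.2.2.2.2.1 s2 g3 n3
  refine ⟨_, sf_of_sl hN hs hr hf, x, n, g.1, ?_, rfl, hs, hr, hf⟩
  rw [hx, hn]

theorem NR.inj (hN : S.NRaw hnb w) {t0 t0' : NF (S.SV w) (FL (S.k0 hc w))}
    {t t' : NF V (FL S.K)} (h : NR hc hnb w t0 t) (h' : NR hc hnb w t0' t')
    (hk : ∃ k : H, k • t = t') : ∃ k : ↥(stabilizer H w), k • t0 = t0' := by
  obtain ⟨x, n, g, rfl, rfl, hs, hr, hf⟩ := h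
  obtain ⟨x', n', g', rfl, rfl, hs', hr', hf'⟩ := h'
  obtain ⟨k, hk⟩ := hk
  rw [NF.smul_pol, FC.Pc_smul] at hk
  obtain ⟨k1, -, k3⟩ := NF.pol.inj hk
  rw [k1] at k3
  have k4 : S.K.IJ x'.1 (k • n.1) n'.1 := (kfc_IJ hnb).1 (FC.Pc_eq.1 k3)
  obtain ⟨c, c', n1, n2, n3, n4, o1, o2, n5⟩ := id hf'
  have kw : k • w = w := by
    refine rv_unique n3 ?_ hs'.1 (g := k * g * k⁻¹) ?_ hr'
    · have := S.js.smul k _ _ hs.1
      rwa [k1] at this
    · have := hr.smul k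
      rwa [k1] at this
  have hsk : S.SL w x'.1 (k • n.1) (k * g * k⁻¹) := by
    have := hs.smul k
    rwa [k1, kw] at this
  have hrk : S.Rv w x'.1 (k * g * k⁻¹) := by
    have := hr.smul k
    rwa [k1, kw] at this
  have key : ∃ h : H, h • x'.1 = x'.1 ∧ h • w = w ∧ S.LIJ w x'.1 (h • k • n.1) n'.1 := by
    by_cases hu : ∃ u, S.D.G.Adj w u ∧ u ∈ S.J x'.1
    · exact hN.one _ _ _ _ _ hsk hs' hrk hr' hf' hu k4
    · refine ⟨1, one_smul _ _, one_smul _ _, ?_⟩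
      rw [one_smul]
      apply lij_of_ij _ k4
      intro p hp
      by_contra hne
      obtain ⟨u, hu1, eu⟩ := exists_next S.D.tree (Ne.symm hne)
      apply hu
      refine ⟨u, hu1, ?_⟩
      apply S.js.conv x'.1 w hs'.1 p hp u
      rw [eu, SimpleGraph.dist_eq_one_iff_adj.2 hu1, add_comm]
  obtain ⟨h, h1, h2, h3⟩ := key
  have hkw : (h * k) • w = w := by rw [mul_smul, kw, h2]
  have e1 : (⟨h * k, hkw⟩ : ↥(stabilizer H w)) • (Sum.inl x : S.SV w) = Sum.inl x' := by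
    have : (h * k) • x.1 = x'.1 := by rw [mul_smul, k1, h1]
    exact congrArg Sum.inl (Subtype.ext this)
  refine ⟨⟨h * k, hkw⟩, ?_⟩
  rw [NF.smul_pol, FC.Pc_smul, e1]
  congr 1
  apply FC.Pc_eq.2
  have e2 : (⟨h * k, hkw⟩ : ↥(stabilizer H w)) • (Sum.inl n : S.SV w) =
      Sum.inl ((⟨h * k, hkw⟩ : ↥(stabilizer H w)) • n) := rfl
  rw [e2]
  apply (k0fc_IJ hc hnb).2
  show S.LIJ w x'.1 ((h * k) • n.1) n'.1
  rw [mul_smul]
  exact h3

/-- THE NUMBER OF THE SELF PIECES OF FAT SOFTS: RAW SLICE -/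
theorem nN_raw (hN : S.NRaw hnb w) :
    (S.k0fc hc hnb w).nNP (S.FatK hnb w) ≤ (S.kfc hnb).nN :=
  SAF.oc_le_of_rel (S.kfc hnb).fin_sps (NR hc hnb w) (fun t0 h => NR.ex hc hN t0 h)
    (fun _ _ _ _ _ _ _ _ h h' hk => h.inj hc hN h' hk)

/-- it drops if a self piece of a fat soft is not seen -/
theorem nN_raw_lt (hN : S.NRaw hnb w) {e : FL S.K} (he : (S.kfc hnb).Sf e)
    (hf : (S.kfc hnb).Fat ((S.kfc hnb).y e)) (hmiss : ∀ (n : V) (g k : H), S.SL (k • w) ((S.kfc hnb).y e) n g →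
      S.Rv (k • w) ((S.kfc hnb).y e) g → ¬ S.K.IJ ((S.kfc hnb).y e) n ((S.kfc hnb).x e)) :
    (S.k0fc hc hnb w).nNP (S.FatK hnb w) < (S.kfc hnb).nN := by
  refine SAF.oc_lt_of_rel (S.kfc hnb).fin_sps (NR hc hnb w) (fun t0 h => NR.ex hc hN t0 h)
    (fun _ _ _ _ _ _ _ _ h h' hk => h.inj hc hN h' hk) (b0 := NF.pol ((S.kfc hnb).y e)
      ((S.kfc hnb).y e) ((S.kfc hnb).Pc ((S.kfc hnb).y e) ((S.kfc hnb).x e))) ⟨e, rfl, hf, he⟩ ?_
  rintro _ - _ - ⟨x, n, g, rfl, rfl, hs, hr, -⟩ k hk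
  rw [NF.smul_pol, FC.Pc_smul] at hk
  obtain ⟨k1, -, k3⟩ := NF.pol.inj hk
  rw [k1] at k3
  have hs' := hs.smul k
  have hr' := hr.smul k
  rw [k1] at hs' hr'
  exact hmiss _ _ k hs' hr' ((kfc_IJ hnb).1 (FC.Pc_eq.1 k3))

/-- at equality every self piece of a fat soft is seen -/
theorem nN_raw_surj (hN : S.NRaw hnb w)
    (hle : (S.kfc hnb).nN ≤ (S.k0fc hc hnb w).nNP (S.FatK hnb w))
    {t : NF V (FL S.K)} (ht : t ∈ (S.kfc hnb).sps) :
    ∃ t0 ∈ (S.k0fc hc hnb w).spP (S.FatK hnb w), ∃ t',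
      NR hc hnb w t0 t' ∧ ∃ k : H, k • t' = t := by
  by_contra hno
  refine absurd hle (not_le.2 ?_)
  refine SAF.oc_lt_of_rel (S.kfc hnb).fin_sps (NR hc hnb w) (fun t0 h => NR.ex hc hN t0 h)
    (fun _ _ _ _ _ _ _ _ h h' hk => h.inj hc hN h' hk) (b0 := t) ht ?_
  intro t0 h0 t' _ hR k hk
  exact hno ⟨t0, h0, t', hR, k, hk⟩

/-- (D2) at equality the self local pieces of the fat vertices are self pieces of fat vertices of the
raw slice -/
theorem nN_raw_vis (hN : S.NRaw hnb w)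
    (hle : (S.kfc hnb).nN ≤ (S.k0fc hc hnb w).nNP (S.FatK hnb w))
    {x n : S.NV w} {g : H} (h : S.SL w x.1 n.1 g) (hr : S.Rv w x.1 g)
    (hf : (S.kfc hnb).Fat x.1) : NF.pol (Sum.inl x) (Sum.inl x)
      ((S.k0fc hc hnb w).Pc (Sum.inl x) (Sum.inl n)) ∈
        (S.k0fc hc hnb w).spP (S.FatK hnb w) := by
  obtain ⟨t0, h0, t', hR, hk⟩ := nN_raw_surj hc hN hle (sf_of_sl hN h hr hf)
  obtain ⟨k, hk⟩ := hR.inj hc hN (t0' := NF.pol (Sum.inl x) (Sum.inl x)
      ((S.k0fc hc hnb w).Pc (Sum.inl x) (Sum.inl n))) ⟨x, n, g, rfl, rfl, h, hr, hf⟩ hk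
  rw [← hk]
  exact (S.k0fc hc hnb w).spP_inv (fun g s h => h.smul g) k _ h0

/-- (D1) at equality a fat soft with a self piece is reversed over a translate of `w` -/
theorem nN_raw_D1 (hN : S.NRaw hnb w)
    (hle : (S.kfc hnb).nN ≤ (S.k0fc hc hnb w).nNP (S.FatK hnb w)) {e : FL S.K}
    (he : (S.kfc hnb).Sf e) (hf : (S.kfc hnb).Fat ((S.kfc hnb).y e)) {u : S.X} {g : H}
    (hu : u ∈ S.J ((S.kfc hnb).y e)) (hr : S.Rv u ((S.kfc hnb).y e) g) :
    ∃ (k : H) (n : V) (g' : H), k • w = u ∧ S.SL u ((S.kfc hnb).y e) n g' ∧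
      S.K.IJ ((S.kfc hnb).y e) n ((S.kfc hnb).x e) := by
  by_contra hno
  refine absurd hle (not_le.2 (nN_raw_lt hc hN he hf ?_))
  intro n g' k h1 h2 h3
  obtain ⟨c, c', n1, n2, n3, n4, o1, o2, n5⟩ := id hf
  have e1 : k • w = u := rv_unique n3 h1.1 hu h2 hr
  rw [e1] at h1
  exact hno ⟨k, n, g', e1, h1, h3⟩

end

end SyQ

end Pool.Agent.DI
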