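import Pool.Agent.DI.ONf
import Pool.Agent.DI.Geo4K
import Pool.Agent.DI.Nr
import Pool.Agent.DI.LT3
import Pool.Agent.DI.BndE

/-!
# DI/Ns0: near stars

A near star at the edge `w u` (`S.NSt w u O n x y`): the hub `n` over `w` has the pole `x` in the star,
`y` has the pole `n`, the star is open. In the folded slice the class `k` of `y` is a top with the sides
`n`, `t_u` and the partner `x`. `S.Yc w O y`: the class of `y` as a set of vertices.
`S.outS w O n x y`: the passes of `K` through `Yc y → n` which go on outside of the star.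
`S.farS w u O n x y`: the corners `y' - n - x`, `y' ∈ Yc y`, of the cells of `K` which go on beyond `u`.
-/

namespace Pool.Agent.DI

open MulAction
open Pool.Agent.SAF (InC orbs FinOrb oc Decomp SAn SA Conv hull dist_edge FinOrb_iff exists_next)
open Pool.Agent.BT (PX PQ JS bey exits lz lz_self lz_ne lz_symm x_next_unique)
open Pool.Agent.BT.TA

namespace P45

variable {H V : Type} [Group H] [MulAction H V] {K : GX H V}

/-- the vertex after the next vertex -/
noncomputable def fv (f : FL K) : V := if f.2 = true then K.c2 (K.nx f.1) else K.c0 (K.pv f.1)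

theorem fv_smul (h : H) (f : FL K) : fv (h • f) = h • fv f := by
  obtain ⟨e, b⟩ := f
  cases b
  · exact K.c0_smul h (K.pv e)
  · exact K.c2_smul h (K.nx e)

end P45

namespace SyQ

variable {H V : Type} [Group H] [MulAction H V] (S : SyQ H V)

/-- A NEAR STAR: hub `n` (open star), pole `x`, `y` has the pole `n` -/
structure NSt (w u : S.X) (O : S.OR w) (n x y : V) : Prop where
  op : O.op u n
  qs : S.Qs w u n y x
  yn : S.K.ar y n
  nx : S.K.ar n x

/-- the class of `y` -/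
def Yc (w : S.X) (O : S.OR w) (y : V) : Set V := {z | S.fq w O (S.rho w z) = S.fq w O (S.rho w y)}

/-- THE PASSES which leave the star: flags of pentagons, walks `z - y' - n - m` of squares with `z → y'`,
written `((y', n), (m, z))` -/
def outS (w : S.X) (O : S.OR w) (n x y : V) : Set (FL S.K ⊕ ((V × V) × (V × V))) :=
  {i | match i with
    | Sum.inl f => ¬ S.P.sq f.1.1.1 ∧ P45.fy f ∈ S.Yc w O y ∧ P45.fz f = n ∧
        P45.fv f ∉ S.Yc w O y ∧ P45.fv f ≠ x
    | Sum.inr p => Q4 S.P p.2.2 p.1.1 p.1.2 p.2.1 ∧ S.K.ar p.2.2 p.1.1 ∧ p.1.1 ∈ S.Yc w O y ∧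
        p.1.2 = n ∧ p.2.1 ∉ S.Yc w O y ∧ p.2.1 ≠ x}

/-- THE FAR CORNERS `y' - n - x` at the hub, the cell goes on beyond `u`: flags of pentagons, walks
`y' - n - x - m` of squares, written `((n, x), (m, y'))` -/
def farS (w u : S.X) (O : S.OR w) (n x y : V) : Set (FL S.K ⊕ ((V × V) × (V × V))) :=
  {i | match i with
    | Sum.inl f => ¬ S.P.sq f.1.1.1 ∧ P45.fprv f ∈ S.Yc w O y ∧ P45.fy f = n ∧ P45.fz f = x ∧
        S.J (P45.fv f) ⊆ bey S.D.G w u
    | Sum.inr p => Q4 S.P p.2.2 p.1.1 p.1.2 p.2.1 ∧ p.2.2 ∈ S.Yc w O y ∧ p.1.1 = n ∧ p.1.2 = x ∧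
        S.J p.2.1 ⊆ bey S.D.G w u}

variable {S}

/-! ### classes of vertices with a pole over `w` -/

/-- a vertex which crosses `w u` and has the pole `n` over `w`, the star of `n` is open -/
structure Nv (w u : S.X) (O : S.OR w) (n y : V) : Prop where
  op : O.op u n
  adj : S.D.G.Adj w u
  cs : S.Cs w u y
  yn : S.K.ar y n

theorem NSt.nv {w u : S.X} {O : S.OR w} {n x y : V} (N : S.NSt w u O n x y) : Nv w u O n y :=
  ⟨N.op, N.qs.adj, N.qs.l, N.yn⟩

/-- parallel vertices of a near star -/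
def Pll (w u : S.X) (n a b : V) : Prop := S.Qs w u n a b ∧ S.K.ar a n ∧ S.K.ar b n

theorem Nv.nw {w u : S.X} {O : S.OR w} {n y : V} (N : Nv w u O n y) : w ∈ S.J n := O.near u n N.op

section Cls

variable {w u : S.X} {O : S.OR w} {n : V}

/-- the generating relation at such a vertex -/
theorem nv_fr (hO : O.Nf) (hop : O.op u n) (hu : S.D.G.Adj w u) {z z' : S.NV w} (c : u ∈ S.J z.1)
    (e : S.K.ar z.1 n) (h : S.FR w O (Sum.inl z) (Sum.inl z') ∨ S.FR w O (Sum.inl z') (Sum.inl z)) :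
    u ∈ S.J z'.1 ∧ S.K.ar z'.1 n ∧ Pll (S := S) w u n z.1 z'.1 := by
  have hnw : w ∈ S.J n := O.near u n hop
  have one : ∀ u', S.D.G.Adj w u' → u' ∈ S.J z.1 → u' = u := fun u' h' c' =>
    pole_edge z.2 e hnw h' hu c' c
  have mer : ∀ (u' : S.X) (q : V) (x' : V), S.Qs w u' q z.1 x' → ¬ S.SD w u' q → ¬ O.op u' q →
      False := by
    intro u' q x' hq hs ho
    have hu' : u' = u := one u' hq.adj hq.l.2
    subst hu'
    by_cases hqw : w ∈ S.J q
    · rcases hq.E1 with e1 | e1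
      · have : q = n := by
          by_contra hne
          exact poles_edge hne z.2 e1 e hqw hnw hu c
        rw [this] at ho
        exact ho hop
      · by_cases hd : ∃ u'', S.Dia w u'' q
        · obtain ⟨u'', hd⟩ := hd
          have key : ∀ v, S.Dia w v q → v = u' := fun v hv => one v (hv.two e1).1 (hv.two e1).2.2
          have e2 := key _ hd
          rw [e2] at hd
          exact hs ⟨hd, key⟩
        · push Not at hd
          exact ho (hO.n1 q hqw hd u' hu)
    · have h1 : S.Cs w (S.dir w q) z.1 := ⟨z.2, S.dir_cross hq.E1 z.2 hqw⟩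
      have h2 := one _ (S.dir_adj hqw) h1.2
      obtain ⟨p, hp⟩ := S.js.ne q
      have h3 := S.dir_bey hqw hp
      rw [h2] at h3
      exact bey_not (hq.near hp) h3
  have par : ∀ (u' : S.X) (q : V) (x' : V), S.Qs w u' q z.1 x' → O.op u' q → S.K.ar z.1 q →
      S.K.ar x' q → u ∈ S.J x' ∧ S.K.ar x' n ∧ Pll (S := S) w u n z.1 x' := by
    intro u' q x' hq ho e1 e2
    have hu' : u' = u := one u' hq.adj hq.l.2
    subst hu'
    have hqn : q = n := by
      by_contra hne
      exact poles_edge hne z.2 e1 e (O.near _ _ ho) hnw hu c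
    subst hqn
    exact ⟨hq.r.2, e2, hq, e1, e2⟩
  rcases h with h | h
  · cases h with
    | mer u' q _ _ h1 h2 h3 => exact (mer _ _ _ h1 h2 h3).elim
    | par u' q _ _ h1 h2 h3 h4 => exact par _ _ _ h1 h2 h3 h4
  · cases h with
    | mer u' q _ _ h1 h2 h3 => exact (mer _ _ _ h1.symm' h2 h3).elim
    | par u' q _ _ h1 h2 h3 h4 => exact par _ _ _ h1.symm' h2 h4 h3

theorem nv_sink {z : S.NV w} (hu : S.D.G.Adj w u) (c : u ∈ S.J z.1) {v : S.EV w} :
    ¬ S.FR w O (Sum.inl z) (Sum.inr v) ∧ ¬ S.FR w O (Sum.inr v) (Sum.inl z) := by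
  constructor
  · intro h
    cases h with
    | dia _ _ h1 h2 => exact h1.1.not_cs hu c
  · intro h
    cases h

/-- the members of the class -/
theorem Nv.mem {y : V} (N : Nv w u O n y) (hO : O.Nf) {c : S.SV w}
    (h : S.fq w O c = S.fq w O (S.rho w y)) : ∃ z : S.NV w, c = Sum.inl z ∧ u ∈ S.J z.1 ∧
      S.K.ar z.1 n ∧ Relation.EqvGen (Pll (S := S) w u n) y z.1 := by
  have k := fq_eq.1 h
  have key : ∀ a b, Relation.EqvGen (S.FR w O) a b →
      ((∃ z : S.NV w, a = Sum.inl z ∧ u ∈ S.J z.1 ∧ S.K.ar z.1 n ∧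
        Relation.EqvGen (Pll (S := S) w u n) y z.1) ↔
      (∃ z : S.NV w, b = Sum.inl z ∧ u ∈ S.J z.1 ∧ S.K.ar z.1 n ∧
        Relation.EqvGen (Pll (S := S) w u n) y z.1)) := by
    intro a b k
    induction k with
    | rel a b k =>
      constructor
      · rintro ⟨z, rfl, h1, h2, h3⟩
        rcases b with z' | v
        · obtain ⟨k1, k2, k3⟩ := nv_fr hO N.op N.adj h1 h2 (Or.inl k)
          exact ⟨z', rfl, k1, k2, h3.trans _ _ _ (Relation.EqvGen.rel _ _ k3)⟩
        · exact ((nv_sink N.adj h1).1 k).elim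
      · rintro ⟨z, rfl, h1, h2, h3⟩
        rcases a with z' | v
        · obtain ⟨k1, k2, k3⟩ := nv_fr hO N.op N.adj h1 h2 (Or.inr k)
          exact ⟨z', rfl, k1, k2, h3.trans _ _ _ (Relation.EqvGen.rel _ _ k3)⟩
        · exact ((nv_sink N.adj h1).2 k).elim
    | refl a => exact Iff.rfl
    | symm a b _ ih => exact ih.symm
    | trans a b c _ _ i1 i2 => exact i1.trans i2
  refine (key _ _ k).2 ⟨⟨y, N.cs.1⟩, S.rho_near N.cs.1, N.cs.2, N.yn, Relation.EqvGen.refl _⟩

/-- the vertices of the class -/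
theorem Nv.cl {y z : V} (N : Nv w u O n y) (hO : O.Nf) (h : z ∈ S.Yc w O y) :
    Nv w u O n z ∧ Relation.EqvGen (Pll (S := S) w u n) y z := by
  obtain ⟨z', e, h1, h2, h3⟩ := N.mem hO h
  have e' := rho_inl e
  subst e'
  exact ⟨⟨N.op, N.adj, ⟨z'.2, h1⟩, h2⟩, h3⟩

theorem Pll.fq {a b : V} (h : Pll (S := S) w u n a b) (ho : O.op u n) :
    S.fq w O (S.rho w a) = S.fq w O (S.rho w b) := by
  rw [S.rho_near h.1.l.1, S.rho_near h.1.r.1]
  exact (FR.par u n ⟨a, h.1.l.1⟩ ⟨b, h.1.r.1⟩ h.1 ho h.2.1 h.2.2).fq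

/-- no class of a sink -/
theorem Nv.not_sk {y : V} (N : Nv w u O n y) (v : S.EV w) : ¬ S.Sk w O v (S.rho w y) := by
  rw [S.rho_near N.cs.1]
  exact Sk.not_el N.adj N.cs.2

theorem Nv.ne_inr {y : V} (N : Nv w u O n y) (v : S.EV w) :
    S.fq w O (S.rho w y) ≠ S.fq w O (Sum.inr v) := fun h => N.not_sk v (fq_inr.1 h)

/-- the arrow to the hub -/
theorem Nv.ar {y : V} (N : Nv w u O n y) : S.arQ w O (S.fq w O (S.rho w y)) (S.fq w O (S.rho w n)) := by
  refine arQ_term N.cs.1 (fun v => ?_) ?_ (sar_hor N.cs.1 N.nw N.yn)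
  · exact Sk.not_el N.adj N.cs.2
  · rintro z ⟨u', s, hu', hc, h1, h2, h3, h4, h5⟩
    have e1 : s = n := by
      by_contra hne
      exact poles_edge hne N.cs.1 h1 N.yn h2 N.nw N.adj N.cs.2
    have e2 : u' = u := pole_edge N.cs.1 N.yn N.nw hu' N.adj hc.2 N.cs.2
    rw [e1, e2] at h3
    exact h3.2 N.op

/-- two hubs of a class are equal -/
theorem Nv.hub {u' : S.X} {n' y z : V} (N : Nv w u O n y) (hO : O.Nf) (N' : Nv w u' O n' z)
    (h : z ∈ S.Yc w O y) : n' = n ∧ u' = u := by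
  obtain ⟨h1, -⟩ := N.cl hO h
  refine ⟨?_, pole_edge h1.cs.1 h1.yn h1.nw N'.adj N.adj N'.cs.2 h1.cs.2⟩
  by_contra hne
  exact poles_edge hne N'.cs.1 N'.yn h1.yn N'.nw h1.nw N'.adj N'.cs.2

/-- A ZERO SQUARE OF THE STAR: the other end is in the class or the pole -/
theorem NSt.cases {x y y' m : V} (N : S.NSt w u O n x y) (hO : O.Nf) (h : y' ∈ S.Yc w O y)
    (hq : S.Qs w u n y' m) : m ∈ S.Yc w O y ∨ m = x := by
  obtain ⟨N', hg⟩ := N.nv.cl hO h
  rcases hq.E2 with e | e
  · left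
    have h1 : Pll (S := S) w u n y' m := ⟨hq, N'.yn, e⟩
    show S.fq w O (S.rho w m) = S.fq w O (S.rho w y)
    rw [← h1.fq N.op]
    exact h
  · right
    by_contra hne
    have hg' : S.Gc w u n y y' := Relation.EqvGen.mono (fun _ _ k => k.1) _ _ hg
    have hd : S.Dia w u n := ⟨O.near _ _ N.op, m, x, hne, e, N.nx,
      (Relation.EqvGen.rel _ _ hq.symm').trans _ _ _ (hg'.symm'.trans _ _ _
        (Relation.EqvGen.rel _ _ N.qs))⟩
    have h1 := hO.n3 u n y x N.op hd N.qs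
    have h2 := S.K.ar_rk _ _ h1
    have h3 := S.K.ar_rk _ _ N.yn
    omega

end Cls

end SyQ

end Pool.Agent.DI
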