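import Pool.Agent.DI.SgEq1
import Pool.Agent.DI.CrP
import Pool.Agent.DI.Ns0

/-!
# DI/CrT: thin tops do not cross in case 1

`CrH`: the inputs: constant sigma, no foldable top (`red`), [LINE], Corollary 1, the tower lemma in `K` and in
the folded slice (`nft`, `nft'`), the partner of a fat gamma top (`cor2p`), no top over a top and its
partner (`nd`), and the strict near star inequality under a far tower (`tall`).
`CrH.stay`: a thin top outside `E` is not in case 1.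
-/

namespace Pool.Agent.DI

open MulAction
open Pool.Agent.SAF (InC orbs FinOrb oc Decomp SAn SA Conv hull dist_edge FinOrb_iff exists_next
  mk_eq_iff)
open Pool.Agent.BT (PX PQ JS bey exits lz lz_self lz_ne lz_symm x_next_unique)
open Pool.Agent.BT.TA

namespace P45

variable {H V : Type} [Group H] [MulAction H V] {K : GX H V} {P : P45 K}

theorem Ov.smul (g : H) {T T' : V} (h : P.Ov T T') : P.Ov (g • T) (g • T') := by
  obtain ⟨m, z, h, e⟩ := h
  exact ⟨g • m, g • z, h.smul g, K.ar_smul g _ _ e⟩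

theorem Tn.smul (g : H) {T : V} (h : P.Tn T) : P.Tn (g • T) := by
  intro a b y ht
  have h1 := ht.smul g⁻¹
  rw [inv_smul_smul] at h1
  have h2 := h _ _ _ h1
  have h3 := X_smul (P := P) g T (g⁻¹ • a)
  rw [smul_inv_smul] at h3
  rw [h3]
  exact h2

theorem Tn.smul_iff (g : H) {T : V} : P.Tn (g • T) ↔ P.Tn T := by
  refine ⟨fun h => ?_, fun h => h.smul g⟩
  have := h.smul g⁻¹
  rwa [inv_smul_smul] at this

/-- the first fat member of a tower -/
theorem first_fat {T1 T'' : V} (h : Relation.ReflTransGen P.Ov T1 T'') (hf : ¬ P.Tn T'') :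
    ¬ P.Tn T1 ∨ ∃ T T', Relation.ReflTransGen (fun x y => P.Tn x ∧ P.Ov x y) T1 T ∧ P.Tn T ∧
      P.Ov T T' ∧ ¬ P.Tn T' := by
  induction h using Relation.ReflTransGen.head_induction_on with
  | refl => exact Or.inl hf
  | head h1 hh ih =>
    rename_i x z
    by_cases hx : P.Tn x
    · right
      rcases ih with ih | ⟨T, T', h2, h3, h4, h5⟩
      · exact ⟨x, z, Relation.ReflTransGen.refl, hx, h1, ih⟩
      · exact ⟨T, T', Relation.ReflTransGen.head ⟨hx, h1⟩ h2, h3, h4, h5⟩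
    · exact Or.inl hx

end P45

namespace SyQ

variable {H V : Type} [Group H] [MulAction H V] {S : SyQ H V}

theorem J_single_smul (g : H) {T : V} {r : S.X} (h : S.J T = {r}) : S.J (g • T) = {g • r} := by
  refine Set.eq_singleton_iff_unique_mem.2 ⟨S.js.smul g _ _ (by rw [h]; rfl), fun p hp => ?_⟩
  have h1 := S.js.smul g⁻¹ _ _ hp
  rw [inv_smul_smul, h] at h1
  rw [← Set.mem_singleton_iff.1 h1, smul_inv_smul]

/-- A FAT TOP IN A TOWER which starts with `T1`: `T1` is fat, or a fat top `T'` over a member `T`, the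
partner is `z`; for the arrows of translates of `T'` to `n` the labels (`Y`) of `T'` and `z` are equal -/
def TallN (S : SyQ H V) (n : V) (Y : Set V) (T1 : V) : Prop := ¬ S.P.Tn T1 ∨
  ∃ T T' m z, Relation.ReflTransGen S.P.Ov T1 T ∧ S.P.Top T' T m z ∧ S.K.ar T z ∧ ¬ S.P.Tn T' ∧
    ∀ g : H, S.K.ar (g • T') n → (g • T' ∈ Y ↔ g • z ∈ Y)

/-- THE INPUTS -/
structure CrH (S : SyQ H V) (hc : S.Conn) (w : S.X) (O : S.OR w) (hm : (S.k0 hc w).Min)
    (hn : S.SqN w O) (E : V → Prop) (c : S.Q w O × S.Q w O → ℕ) : Prop where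
  h : S.SgH hc w O hm hn E c
  hs : (S.kfP hc w O hm hn).sigma ≤ S.P.sigma
  cor2 : ∀ T a b y z, (S.kfP hc w O hm hn).Top T a b y → (S.kf hc w O).ar a y →
    (a, z) ∈ (S.kfP hc w O hm hn).U → (S.kfP hc w O hm hn).X T a ≤ 1
  red : S.P.red E
  sk : S.SinkH
  tf : ∀ T a b y, S.P.Top T a b y → Finite ↥(stabilizer H T)
  /-- Corollary 1 -/
  cor1 : ∀ T a b y, S.P.Top T a b y → ¬ E T → S.P.X T a = S.P.X T b
  /-- the tower lemma -/
  nft : ∀ k s T, (k, s) ∈ S.P.U → Relation.TransGen S.P.Ov k T → S.P.Tn T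
  /-- the tower lemma in the folded slice -/
  nft' : ∀ k s T, (k, s) ∈ (S.kfP hc w O hm hn).U →
    Relation.TransGen (S.kfP hc w O hm hn).Ov k T → (S.kfP hc w O hm hn).Tn T
  /-- a fat gamma top has no gamma top as partner -/
  cor2p : ∀ T a b y s, (S.kfP hc w O hm hn).Top T a b y → (T, a) ∈ (S.kfP hc w O hm hn).U →
    (y, s) ∈ (S.kfP hc w O hm hn).U → (S.kfP hc w O hm hn).X T a ≤ 1
  /-- no top over a top and its partner -/
  nd : ∀ T a b y T' z, S.P.Top T a b y → ¬ E T → ¬ E T' → ¬ S.P.Top T' T y z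
  /-- the near star inequality is strict under a tower (`TallN`) -/
  tall : ∀ u a y T0 b s T1, S.NSt w u O a y T0 → S.P.Top T0 a b y → ¬ E T0 → S.K.ar b y →
    (∀ g : H, g • T0 ∈ S.Yc w O T0 → g • b = a → g • y = y) →
    S.P.Top T1 T0 s a → s ∈ S.Yc w O T0 → ¬ S.TallN a (S.Yc w O T0) T1

variable {hc : S.Conn} {w : S.X} {O : S.OR w} {hm : (S.k0 hc w).Min} {hn : S.SqN w O}
  {E : V → Prop} {c : S.Q w O × S.Q w O → ℕ}

/-- the upper arrow of a top over `T` is counted -/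
theorem CA_of {T s z T' : V} (_ : S.P.SqE E) (ht : S.P.Top T' T s z) (e : S.K.ar T z) :
    (T', T) ∈ S.P.CA := by
  rcases ht.Eb with e' | e'
  · exact Or.inr ⟨s, z, ht, e, e'⟩
  · exact Or.inl ⟨s, z, ht, e, e'⟩

/-- such an arrow over `w` is no `GB` arrow -/
theorem SgO.ngb_w (h : S.SgO w O E) {T s z T' : V} (ht : S.P.Top T' T s z) (e : S.K.ar T z)
    (hT' : w ∈ S.J T') (hT : w ∈ S.J T) (hz : w ∈ S.J z) : ¬ S.GB w (T', T) := by
  rintro ⟨b', y', q, g1, g2, g3, g4, g5, g6, -⟩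
  have g1 : S.P.Top T' T b' y' := g1
  have g2 : S.K.ar T y' := g2
  have g4 : q ∈ S.J T := g4
  have g6 : q ∉ S.J T' := g6
  obtain ⟨rfl, rfl⟩ := h.sq.uniq ht g1 (h.nE (CA_of h.sq ht e))
  exact g6 (by rw [S.one_eq (Or.inl e) g4 g5 hT hz]; exact hT')

namespace CrH

variable (I : S.CrH hc w O hm hn E c)

include I

/-- a fat top: both arrows -/
theorem fat {T a b y : V} (ht : S.P.Top T a b y) (hE : ¬ E T) (hf : ¬ S.P.Tn T) :
    2 ≤ S.P.X T a := by
  by_contra hlt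
  apply hf
  intro a' b' y' ht'
  rcases I.h.o.sq.sides ht ht'.2.1 with rfl | rfl
  · omega
  · have := I.cor1 _ _ _ _ ht hE
    omega

theorem thin {T a b y : V} (ht : S.P.Top T a b y) (hE : ¬ E T) (hf : S.P.X T a ≤ 1) :
    S.P.Tn T := by
  by_contra hlt
  have := I.fat ht hE hlt
  omega

/-- A LOCAL TOP over `T` -/
theorem img3 {T s z T' : V} (ht : S.P.Top T' T s z) (e : S.K.ar T z)
    (k : S.Cas3 T' T s z w) :
    (S.kfP hc w O hm hn).Ov (S.fq w O (S.rho w T)) (S.fq w O (S.rho w T')) ∧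
      S.P.X T' T =
        (S.kfP hc w O hm hn).X (S.fq w O (S.rho w T')) (S.fq w O (S.rho w T)) := by
  have hCA := CA_of I.h.o.sq ht e
  have hl := k.loc
  have hne := I.h.o.nab _ _ _ _ ht hCA hl.1 hl.2.1 hl.2.2.1
  refine ⟨⟨_, _, loc_Top I.h.o.nf I.h.o.kin ht hl (I.h.o.sq.nTy _ _ _ _ ht) hne,
    I.h.o.ar hl.2.1 (fun v => I.h.o.nf.side_nsk ht hl hl.2.1 v) hl.2.2.2 e⟩, ?_⟩
  refine I.h.locE I.hs I.cor2 ⟨hCA, hl.2.1, Or.inl ⟨I.h.o.ngb_w ht e hl.1 hl.2.1 hl.2.2.2,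
    hl.1, rfl⟩⟩ ?_
  rintro ⟨q, hq⟩
  exact hq.ne I.h.o hCA ht hl.1 hl.2.1 hl.2.2.1 rfl

/-- A GAMMA TOP over `T` in case 1 from `w` -/
theorem img1 {T s z T' : V} (ht : S.P.Top T' T s z) (e : S.K.ar T z) {q : S.X}
    (k : S.Cas1 T' T s z w q) :
    (S.kfP hc w O hm hn).Ov (S.fq w O (S.rho w T)) (S.fq w O (S.rho w T')) ∧
      S.P.X T' T ≤
        (S.kfP hc w O hm hn).X (S.fq w O (S.rho w T')) (S.fq w O (S.rho w T)) := by
  have hCA := CA_of I.h.o.sq ht e
  obtain ⟨u, hk⟩ := I.h.o.k1 hCA ht k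
  have hU := hk.U (hc := hc) (hm := hm) (hn := hn) I.h.o.nf
  refine ⟨⟨_, _, hk.Top I.h.o.nf, (hk.arrows I.h.o.nf).2.2.1⟩, ?_⟩
  have h1 := I.h.nearE I.hs I.cor2 hk
  have h2 := le_os (Ca.fin I.h.o (S.fq w O (S.rho w T'), S.fq w O (S.rho w T)))
    (X := fun p => S.P.X p.1 p.2 - 1) (fun g p _ _ => by
      have : S.P.X (g.1.1 • p).1 (g.1.1 • p).2 = S.P.X p.1 p.2 := P45.X_smul g.1.1 p.1 p.2
      show S.P.X (g.1.1 • p).1 (g.1.1 • p).2 - 1 = _
      rw [this]) (p := (T', T))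
    ⟨hCA, k.p1, Or.inl ⟨I.h.o.ngb_w ht e k.p0 k.p1 k.p2, k.p0, rfl⟩⟩
  have h3 := I.h.x1' _ (Or.inl hU)
  dsimp only at h2 h3
  omega

/-- over a member of a tower over a gamma top of the folded slice -/
theorem thin_ov {T s z T' : V} (ht : S.P.Top T' T s z) (e : S.K.ar T z) {k s0 : S.Q w O}
    (hk : (k, s0) ∈ (S.kfP hc w O hm hn).U)
    (hT : Relation.ReflTransGen (S.kfP hc w O hm hn).Ov k (S.fq w O (S.rho w T)))
    (hpos : (∃ q, S.Cas1 T' T s z w q) ∨ S.Cas3 T' T s z w) : S.P.X T' T ≤ 1 := by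
  rcases hpos with ⟨q, h1⟩ | h3
  · obtain ⟨ho, hx⟩ := I.img1 ht e h1
    obtain ⟨m, y, ht', -⟩ := ho.top
    have := I.nft' _ _ _ hk (Relation.TransGen.tail' hT ho) _ _ _ ht'
    omega
  · obtain ⟨ho, hx⟩ := I.img3 ht e h3
    obtain ⟨m, y, ht', -⟩ := ho.top
    have := I.nft' _ _ _ hk (Relation.TransGen.tail' hT ho) _ _ _ ht'
    omega

/-- the labels of a fat gamma top with the bottom `a` and of its partner are equal -/
theorem lab {u : S.X} {T' T z a y T0 : V} (ht : S.P.Top T' T a z) (e : S.K.ar T z)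
    (e' : S.K.ar z a) (hJ : ∃ r, S.J T = {r}) (hf : 2 ≤ S.P.X T' T)
    (N : S.NSt w u O a y T0) : T' ∈ S.Yc w O T0 ↔ z ∈ S.Yc w O T0 := by
  have hO := I.h.o.nf
  obtain ⟨r, hr⟩ := hJ
  have nC2 : ∀ p q, ¬ S.Cas2 T' T a z p q := by
    intro p q k
    have h1 := k.p0
    have h2 := k.q0
    rw [hr] at h1 h2
    exact k.ne ((Set.mem_singleton_iff.1 h1).trans (Set.mem_singleton_iff.1 h2).symm)
  have hwa : w ∈ S.J a := N.nv.nw
  have hab := I.h.o.sq.nab _ _ _ _ ht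
  -- the zero square
  have key : ∀ p, S.Cas1 T' T a z p w → (u ∈ S.J T' ∨ u ∈ S.J z) → S.Qs w u a T' z := by
    intro p k hu
    obtain ⟨u', hb⟩ := exists_Bt S.D.tree (Sgm.left (G := S.D.G) w p) k.ne.symm
    have hb' := hb.symm
    have e1 : u' = u := by
      rcases hu with hu | hu
      · exact pole_edge k.q0 ht.2.2 hwa hb.1 N.qs.adj (Al.cs0 k hb').1 hu
      · exact pole_edge k.q2 e' hwa hb.1 N.qs.adj (Al.cs2 k hb').1 hu
    subst e1
    exact Al.qs' k ht.q4' hb'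
  constructor
  · intro hT
    obtain ⟨n1, -⟩ := N.nv.cl hO hT
    rcases ht.pos4 with ⟨p, q, k⟩ | ⟨p, q, k⟩ | ⟨p, k⟩
    · obtain rfl : q = w := S.one_eq (Or.inl ht.2.2) k.q0 k.q3 n1.cs.1 hwa
      rcases N.cases hO hT (key p k (Or.inl n1.cs.2)) with h1 | h1
      · exact h1
      · rw [h1] at e'
        exact absurd N.nx (GX.ck_asym e')
    · exact absurd k (nC2 p q)
    · have h1 := poles_point hab k.p1 ht.2.1 ht.2.2 k.p0 k.p2
      have h2 := n1.cs
      unfold Cs at h2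
      rw [h1] at h2
      exact absurd ((Set.mem_singleton_iff.1 h2.1).trans (Set.mem_singleton_iff.1 h2.2).symm)
        N.qs.adj.ne
  · intro hz
    obtain ⟨n1, -⟩ := N.nv.cl hO hz
    rcases ht.pos4 with ⟨p, q, k⟩ | ⟨p, q, k⟩ | ⟨p, k⟩
    · obtain rfl : q = w := S.one_eq (Or.inl e') k.q2 k.q3 n1.cs.1 hwa
      rcases N.cases hO hz (key p k (Or.inr n1.cs.2)).symm' with h1 | h1
      · exact h1
      · have h2 := ht.2.2
        rw [h1] at h2
        exact absurd N.nx (GX.ck_asym h2)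
    · exact absurd k (nC2 p q)
    · exfalso
      obtain rfl : p = w := S.one_eq (Or.inl e') k.p3 k.p2 n1.cs.1 hwa
      have hl := k.loc
      have hU : (T', T) ∈ S.P.U := ⟨a, z, ht, e, e'⟩
      have hCA : (T', T) ∈ S.P.CA := Or.inl hU
      have hk : S.Ca p O (T', T) (S.fq p O (S.rho p T'), S.fq p O (S.rho p T)) :=
        ⟨hCA, hl.2.1, Or.inl ⟨I.h.o.ngb_w ht e hl.1 hl.2.1 hl.2.2.2, hl.1, rfl⟩⟩
      have hne := I.h.o.nab _ _ _ _ ht hCA hl.1 hl.2.1 hl.2.2.1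
      by_cases hU' : (S.fq p O (S.rho p T'), S.fq p O (S.rho p T)) ∈ (S.kfP hc p O hm hn).U
      · have hN : S.KN p O u a y T0 := ⟨N.qs.symm', N.op, N.nx, N.yn⟩
        have hU0 := hN.U (hc := hc) (hm := hm) (hn := hn) hO
        have hz' : S.fq p O (S.rho p z) = S.fq p O (S.rho p T0) := hz
        rw [← hz'] at hU0
        have h1 := I.cor2p _ _ _ _ _ (loc_Top hO I.h.o.kin ht hl (I.h.o.sq.nTy _ _ _ _ ht) hne)
          hU' hU0
        have h2 := (I.img3 ht e k).2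
        omega
      · have hp4 := Ca.val I.h.o ht hk hl.1 hl.2.2.1 hU hU'
        have h1 := (I.h.loc4 I.hs hp4).1
        omega

/-- the near star of a crossing diamond, the side of a top which is not over `w` -/
theorem start {T0 a b y T1 s : V} {p q : S.X} (ht0 : S.P.Top T0 a b y) (hE : ¬ E T0)
    (ea : S.K.ar a y) (eb : S.K.ar b y) (k0 : S.Cas1 T0 a b y w q) (ht1 : S.P.Top T1 T0 s a)
    (k1 : S.Cas2 T1 T0 s a p w) : ∃ u, S.NSt w u O a y T0 ∧ s ∈ S.Yc w O T0 ∧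
      ∀ g : H, g • T0 ∈ S.Yc w O T0 → g • b = a → g • y = y := by
  have hO := I.h.o.nf
  have hCA : (T0, a) ∈ S.P.CA := Or.inr ⟨b, y, ht0, ea, eb⟩
  obtain ⟨u, hk⟩ := I.h.o.k1 hCA ht0 k0
  have N : S.NSt w u O a y T0 := ⟨hk.2.1, hk.1.symm', hk.2.2.2, hk.2.2.1⟩
  have hwa : w ∈ S.J a := k0.p1
  refine ⟨u, N, ?_, ?_⟩
  · obtain ⟨u', hb⟩ := exists_Bt S.D.tree (Sgm.left (G := S.D.G) w p) k1.ne.symm
    have hb' := hb.symm
    have e1 : u' = u := pole_edge k1.q0 ht0.2.1 hwa hb.1 N.qs.adj (Al.cs0 k1 hb').1 N.qs.l.2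
    subst e1
    rcases N.cases hO (show T0 ∈ S.Yc w O T0 from rfl) (Al.qs' k1 ht1.1 hb') with h1 | h1
    · exact h1
    · rw [h1] at ht1
      exact absurd ht1 (I.nd _ _ _ _ _ _ ht0 hE (I.h.o.sq.ov_E ⟨y, a, ht1, ht0.2.1⟩))
  · intro g hT gb
    obtain ⟨n1, -⟩ := N.nv.cl hO hT
    have kg := k0.smul g
    have htg := ht0.smul g
    have ebg := S.K.ar_smul g _ _ eb
    rw [gb] at kg htg ebg
    have e2 : g • q = w := S.one_eq (Or.inl htg.2.2) kg.q0 kg.q3 n1.cs.1 hwa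
    rw [e2] at kg
    obtain ⟨u', hb⟩ := exists_Bt S.D.tree (Sgm.left (G := S.D.G) w (g • w)) kg.ne.symm
    have hb' := hb.symm
    have e1 : u' = u := pole_edge kg.q0 htg.2.2 hwa hb.1 N.qs.adj (Al.cs0 kg hb').1 n1.cs.2
    subst e1
    rcases N.cases hO hT (Al.qs' kg htg.q4' hb') with h1 | h1
    · obtain ⟨n2, -⟩ := N.nv.cl hO h1
      exact absurd n2.yn (GX.ck_asym ebg)
    · exact h1

/-- A CROSSING THIN DIAMOND at `w` under a fat top is impossible -/
theorem core {T0 a b y T1 s T'' : V} {q : S.X} (ht0 : S.P.Top T0 a b y) (hE : ¬ E T0)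
    (ea : S.K.ar a y) (eb : S.K.ar b y) (k0 : S.Cas1 T0 a b y w q) (ht1 : S.P.Top T1 T0 s a)
    (hc' : Relation.ReflTransGen S.P.Ov T1 T'') (hf : ¬ S.P.Tn T'')
    (hmax : ∀ T a b y p q, S.K.rk T0 < S.K.rk T → S.P.Top T a b y → ¬ E T → S.P.X T a ≤ 1 →
      ¬ S.Cas1 T a b y p q) : False := by
  have hO := I.h.o.nf
  have hsq := I.h.o.sq
  have hCA : (T0, a) ∈ S.P.CA := Or.inr ⟨b, y, ht0, ea, eb⟩
  obtain ⟨u, hk⟩ := I.h.o.k1 hCA ht0 k0
  have hU := hk.U (hc := hc) (hm := hm) (hn := hn) hO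
  have e0 : S.K.ar T0 a := ht0.2.1
  have hE1 : ¬ E T1 := hsq.ov_E ⟨s, a, ht1, e0⟩
  have hwT0 : w ∈ S.J T0 := k0.p0
  have hwa : w ∈ S.J a := k0.p1
  have hr1 : S.K.rk T0 < S.K.rk T1 := S.K.ar_rk _ _ ht1.2.1
  have hra : S.K.rk a < S.K.rk T0 := S.K.ar_rk _ _ e0
  -- a top over a local vertex
  have pos : ∀ {T T' m z : V} {r : S.X}, S.P.Top T' T m z → S.J T = {r} →
      (∃ q', S.Cas1 T' T m z r q') ∨ S.Cas3 T' T m z r := by
    intro T T' m z r ht hJ
    have one : ∀ p, p ∈ S.J T → p = r := fun p hp => by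
      rw [hJ] at hp
      exact hp
    rcases ht.pos4 with ⟨p, q', k⟩ | ⟨p, q', k⟩ | ⟨p, k⟩
    · obtain rfl := one p k.p1
      exact Or.inl ⟨q', k⟩
    · exact absurd ((one p k.p0).trans (one q' k.q0).symm) k.ne
    · obtain rfl := one p k.p0
      exact Or.inr k
  rcases ht1.pos4 with ⟨p, q', k1⟩ | ⟨p, q', k1⟩ | ⟨p, k1⟩
  · -- `T1` crosses
    obtain rfl : p = w := S.one_eq (Or.inl e0) k1.p1 k1.p2 hwT0 hwa
    have h1 := I.thin_ov ht1 e0 hU Relation.ReflTransGen.refl (Or.inl ⟨q', k1⟩)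
    exact hmax _ _ _ _ _ _ hr1 ht1 hE1 h1 k1
  · -- `T1` sits at another point of `T0`
    obtain rfl : q' = w := S.one_eq (Or.inl e0) k1.q0 k1.q3 hwT0 hwa
    obtain ⟨u', N, hY, np⟩ := I.start ht0 hE ea eb k0 ht1 k1
    have hsa : S.K.ar s a := (N.nv.cl hO hY).1.yn
    refine I.tall u' a y T0 b s T1 N ht0 hE eb np ht1 hY ?_
    rcases P45.first_fat hc' hf with h1 | ⟨T, T', h1, h2, h3, h4⟩
    · exact Or.inl h1
    · right
      have inv : ∀ T, Relation.ReflTransGen (fun x y => S.P.Tn x ∧ S.P.Ov x y) T1 T → S.P.Tn T →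
          (∃ T', Relation.TransGen S.P.Ov T T' ∧ ¬ S.P.Tn T') → ¬ E T ∧ S.J T = {p} ∧
          S.K.rk T0 < S.K.rk T ∧ ∀ s', S.K.ar T s' → S.K.rk a < S.K.rk s' := by
        intro T hT
        induction hT with
        | refl =>
          intro _ _
          refine ⟨hE1, k1.JT ht1 (hsq.nab _ _ _ _ ht1), hr1, ?_⟩
          intro s' hs'
          rcases hsq.sides ht1 hs' with rfl | rfl
          · exact hra
          · exact S.K.ar_rk _ _ hsa
        | tail h0 hst ih =>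
          rename_i T T'
          intro hTn hex
          obtain ⟨hTn0, hov⟩ := hst
          obtain ⟨T2, h5, h6⟩ := hex
          obtain ⟨-, iJ, ir, ip⟩ := ih hTn0 ⟨T2, Relation.TransGen.head hov h5, h6⟩
          have hE' := hsq.ov_E hov
          have hov' := hov
          obtain ⟨m, z, ht', e⟩ := hov'
          have hr' : S.K.rk T < S.K.rk T' := S.K.ar_rk _ _ ht'.2.1
          rcases pos ht' iJ with ⟨q', k⟩ | k
          · exact absurd k (hmax _ _ _ _ _ _ (ir.trans hr') ht' hE' (hTn _ _ _ ht'))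
          · refine ⟨hE', poles_point (hsq.nab _ _ _ _ ht') k.p1 ht'.2.1 ht'.2.2 k.p0 k.p2,
              ir.trans hr', ?_⟩
            intro s' hs'
            rcases hsq.sides ht' hs' with rfl | rfl
            · exact hra.trans ir
            · rcases ht'.Eb with e1 | e1
              · exact (ip z e).trans (S.K.ar_rk _ _ e1)
              · exact absurd (I.nft _ _ _ (show (T', T) ∈ S.P.U from ⟨s', z, ht', e, e1⟩) h5) h6
      have hov := h3
      obtain ⟨m, z, ht', e⟩ := hov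
      obtain ⟨-, iJ, ir, ip⟩ := inv T h1 h2 ⟨T', Relation.TransGen.single h3, h4⟩
      have hE' := hsq.ov_E h3
      have h5 := I.fat ht' hE' h4
      refine ⟨T, T', m, z, Relation.ReflTransGen.mono (fun _ _ k => k.2) _ _ h1, ht', e, h4, ?_⟩
      intro g hg
      have htg := ht'.smul g
      have ram : a = g • T ∨ a = g • m := by
        rcases S.K.two _ _ _ _ htg.2.1 htg.2.2 hg with k | k | k
        · exact absurd (smul_left_cancel g k) (hsq.nab _ _ _ _ ht')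
        · exact Or.inr k.symm
        · exact Or.inl k.symm
      rcases ram with k | k
      · have := S.K.rk_smul g T
        rw [← k] at this
        omega
      · have hrm : S.K.rk m = S.K.rk a := by
          rw [k, S.K.rk_smul]
        rcases ht'.Eb with e1 | e1
        · have h6 := S.K.ar_rk _ _ e1
          have h7 := ip z e
          omega
        · rw [← k] at htg
          have e2 := S.K.ar_smul g _ _ e
          have e3 := S.K.ar_smul g _ _ e1
          rw [← k] at e3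
          refine I.lab htg e2 e3 ⟨_, J_single_smul g iJ⟩ ?_ N
          rw [P45.X_smul]
          exact h5
  · -- `T1` is local
    obtain rfl : p = w := S.one_eq (Or.inl e0) k1.p0 k1.p3 hwT0 hwa
    have h1 := I.thin_ov ht1 e0 hU Relation.ReflTransGen.refl (Or.inr k1)
    have hTn1 := I.thin ht1 hE1 h1
    rcases P45.first_fat hc' hf with h2 | ⟨T, T', h2, h3, h4, h5⟩
    · exact h2 hTn1
    · have inv : ∀ T, Relation.ReflTransGen (fun x y => S.P.Tn x ∧ S.P.Ov x y) T1 T → S.P.Tn T →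
          S.J T = {p} ∧ S.K.rk T0 < S.K.rk T ∧
          Relation.ReflTransGen (S.kfP hc p O hm hn).Ov (S.fq p O (S.rho p T0))
            (S.fq p O (S.rho p T)) := by
        intro T hT
        induction hT with
        | refl =>
          intro _
          exact ⟨poles_point (hsq.nab _ _ _ _ ht1) k1.p1 ht1.2.1 ht1.2.2 k1.p0 k1.p2, hr1,
            Relation.ReflTransGen.single (I.img3 ht1 e0 k1).1⟩
        | tail h0 hst ih =>
          rename_i T T'
          intro hTn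
          obtain ⟨hTn0, hov⟩ := hst
          obtain ⟨iJ, ir, ic⟩ := ih hTn0
          have hE' := hsq.ov_E hov
          obtain ⟨m, z, ht', e⟩ := hov
          have hr' : S.K.rk T < S.K.rk T' := S.K.ar_rk _ _ ht'.2.1
          rcases pos ht' iJ with ⟨q', k⟩ | k
          · exact absurd k (hmax _ _ _ _ _ _ (ir.trans hr') ht' hE' (hTn _ _ _ ht'))
          · exact ⟨poles_point (hsq.nab _ _ _ _ ht') k.p1 ht'.2.1 ht'.2.2 k.p0 k.p2,
              ir.trans hr', ic.tail (I.img3 ht' e k).1⟩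
      obtain ⟨iJ, ir, ic⟩ := inv T h2 h3
      have hE' := hsq.ov_E h4
      obtain ⟨m, z, ht', e⟩ := h4
      have h6 := I.fat ht' hE' h5
      have h7 := I.thin_ov ht' e hU ic (pos ht' iJ)
      omega

/-- THIN TOPS DO NOT CROSS -/
theorem stay : ∀ T a b y p q, S.P.Top T a b y → ¬ E T → S.P.X T a ≤ 1 →
    ¬ S.Cas1 T a b y p q := by
  obtain ⟨B, hB⟩ := S.K.rk_bdd
  have hsq := I.h.o.sq
  suffices Hn : ∀ n : ℕ, ∀ T, B - S.K.rk T = n → ∀ a b y p q, S.P.Top T a b y → ¬ E T →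
      S.P.X T a ≤ 1 → ¬ S.Cas1 T a b y p q from
    fun T a b y p q => Hn _ T rfl a b y p q
  intro n
  induction n using Nat.strong_induction_on with
  | _ n ih =>
    intro T hT a b y p q ht hE hx k
    have hmax : ∀ T' a b y p q, S.K.rk T < S.K.rk T' → S.P.Top T' a b y → ¬ E T' →
        S.P.X T' a ≤ 1 → ¬ S.Cas1 T' a b y p q := by
      intro T' a b y p q hr
      have := hB T'
      exact ih (B - S.K.rk T') (by omega) T' rfl a b y p q
    have hTn := I.thin ht hE hx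
    have htf := I.tf _ _ _ _ ht
    -- the diamond with the next member over the first side
    have key : ∀ a b y p q T1 s T'', S.P.Top T a b y → S.K.ar a y → S.K.ar b y →
        S.Cas1 T a b y p q → S.P.Top T1 T s a → Relation.ReflTransGen S.P.Ov T1 T'' →
        ¬ S.P.Tn T'' → False := by
      intro a b y p q T1 s T'' ht ea eb k ht1 hc' hf
      have hD : (T, a) ∈ S.P.Dm := ⟨b, y, ht, ea, eb⟩
      obtain ⟨q', h1, h2, g, h3⟩ := I.h.o.pl (T, a) (Or.inr hD) (I.h.o.ngb_D hD)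
      have e : q' = p := S.one_eq (Or.inl ht.2.1) h1 h2 k.p0 k.p1
      subst e
      have kg := k.smul g⁻¹
      have hw : g⁻¹ • q' = w := by rw [inv_smul_eq_iff, h3]
      rw [hw] at kg
      refine I.core (ht.smul g⁻¹) (fun h => hE ?_) (S.K.ar_smul _ _ _ ea) (S.K.ar_smul _ _ _ eb)
        kg (ht1.smul g⁻¹) (T'' := g⁻¹ • T'') ?_ (fun h => hf ((P45.Tn.smul_iff _).1 h)) ?_
      · have := hsq.Es g _ h
        rwa [smul_inv_smul] at this
      · exact Relation.ReflTransGen.lift (fun x => g⁻¹ • x) (fun _ _ h => P45.Ov.smul g⁻¹ h) _ _ hc'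
      · intro T' a b y p q hr
        rw [S.K.rk_smul] at hr
        exact hmax T' a b y p q hr
    rcases hsq.cases ht hE with h1 | h1 | ⟨h1, h2⟩
    · -- gamma
      obtain ⟨b', y', g1, g2, g3⟩ := h1
      have g1 : S.P.Top T a b' y' := g1
      obtain ⟨rfl, rfl⟩ := hsq.uniq ht g1 hE
      obtain ⟨T', h3, h4⟩ := I.red.tower hsq ht hE g2 hTn (k.pur hsq I.sk ht hE htf)
      exact h4 (I.nft _ _ _ (show (T, a) ∈ S.P.U from ⟨b, y, ht, g2, g3⟩) h3)
    · obtain ⟨b', y', g1, g2, g3⟩ := h1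
      have g1 : S.P.Top T b b' y' := g1
      obtain ⟨rfl, rfl⟩ := hsq.uniq ht.symm' g1 hE
      obtain ⟨T', h3, h4⟩ := I.red.tower hsq ht.symm' hE g2 hTn
        (k.symm.pur hsq I.sk ht.symm' hE htf)
      exact h4 (I.nft _ _ _ (show (T, b) ∈ S.P.U from ⟨a, y, ht.symm', g2, g3⟩) h3)
    · obtain ⟨b', y', g1, ea, eb⟩ := h1
      have g1 : S.P.Top T a b' y' := g1
      have ea : S.K.ar a y' := ea
      have eb : S.K.ar b' y' := eb
      obtain ⟨rfl, rfl⟩ := hsq.uniq ht g1 hE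
      obtain ⟨T', h3, h4⟩ := I.red.tower hsq ht hE ea hTn (k.pur hsq I.sk ht hE htf)
      obtain ⟨T1, h5, h6⟩ := Relation.TransGen.head'_iff.1 h3
      obtain ⟨s, z, ht1, e⟩ := h5
      rcases hsq.sides ht e with rfl | rfl
      · exact key _ _ _ _ _ _ _ _ ht ea eb k ht1 h6 h4
      · exact key _ _ _ _ _ _ _ _ ht.symm' eb ea k.symm ht1 h6 h4

/-- a top which is not a fat gamma top sits at one point -/
theorem stay_pt {T a b y : V} (ht : S.P.Top T a b y) (hE : ¬ E T) (hx : S.P.X T a ≤ 1) :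
    ∃ p, S.J T = {p} := by
  have hab := I.h.o.sq.nab _ _ _ _ ht
  rcases ht.pos4 with ⟨p, q, k⟩ | ⟨p, q, k⟩ | ⟨p, k⟩
  · exact absurd k (I.stay _ _ _ _ _ _ ht hE hx)
  · exact ⟨p, k.JT ht hab⟩
  · exact ⟨p, poles_point hab k.p1 ht.2.1 ht.2.2 k.p0 k.p2⟩

/-- a top in case 1 is a fat gamma top -/
theorem fatG {T a b y : V} {p q : S.X} (ht : S.P.Top T a b y) (hE : ¬ E T)
    (k : S.Cas1 T a b y p q) : 2 ≤ S.P.X T a ∧ ((T, a) ∈ S.P.U ∨ (T, b) ∈ S.P.U) := by
  have h1 : 2 ≤ S.P.X T a := by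
    by_contra hlt
    exact I.stay _ _ _ _ _ _ ht hE (by omega) k
  refine ⟨h1, ?_⟩
  rcases I.h.o.sq.cases ht hE with h2 | h2 | ⟨h2, -⟩
  · exact Or.inl h2
  · exact Or.inr h2
  · have := I.h.e5D I.hs ht h2 k
    omega

end CrH

end SyQ

end Pool.Agent.DI
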