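import Pool.Agent.DI.PG2

/-!
# DI/PG3: pentagons and squares
-/

namespace Pool.Agent.DI

open MulAction
open Pool.Agent.SAF (InC orbs FinOrb oc)
open Pool.Agent.BT (PX)

variable {H V : Type} [Group H] [MulAction H V]

/-- the cell `i` is a square with different opposite vertices -/
structure IsSq (K : GX H V) (i : K.I) (q : Fin 4 → V) : Prop where
  cb_eq : K.cb i = q 0
  cw_eq : K.cw i = [q 1, q 2, q 3, q 0]
  ne0 : q 0 ≠ q 2
  ne1 : q 1 ≠ q 3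

namespace PQg

variable {K : GX H V} {P : PG K} (Q : PQg P)

/-- a corner whose legs are not both moved if one of them is a top -/
theorem sN_sq {x v z : V} (h : Q.S.mv x v → Q.S.mv z v → ¬ Q.N x ∧ ¬ Q.N z) :
    Q.sN x v z ≤ 0 ∨ (Q.sN x v z = 1 ∧ Q.s x v z = 1 ∧
      ((Q.S.mv x v ∧ Q.N x ∧ z ≠ Q.S.τ x v) ∨ (Q.S.mv z v ∧ Q.N z ∧ x ≠ Q.S.τ z v))) := by
  by_cases h1 : Q.SN.mv x v
  · by_cases h2 : Q.S.mv z v
    · exact absurd h1.2 (h h1.1 h2).1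
    · have h2' : ¬ Q.SN.mv z v := fun k => h2 k.1
      by_cases h3 : z = Q.S.τ x v
      · left
        have : Q.sN x v z = -1 := sg_mv_τ (τ := Q.SN.τ) h1 h2' h3
        omega
      · right
        exact ⟨sg_mv_not (τ := Q.SN.τ) h1 h2' h3, sg_mv_not h1.1 h2 h3, Or.inl ⟨h1.1, h1.2, h3⟩⟩
  · by_cases h2 : Q.SN.mv z v
    · have h1' : ¬ Q.S.mv x v := fun k => (h k h2.1).2 h2.2
      by_cases h3 : x = Q.S.τ z v
      · left
        have : Q.sN x v z = -1 := by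
          rw [Q.sN_symm]
          exact sg_mv_τ (τ := Q.SN.τ) h2 h1 h3
        omega
      · right
        refine ⟨?_, ?_, Or.inr ⟨h2.1, h2.2, h3⟩⟩
        · rw [Q.sN_symm]
          exact sg_mv_not (τ := Q.SN.τ) h2 h1 h3
        · rw [Q.s_symm]
          exact sg_mv_not h2.1 h1' h3
    · left
      have : Q.sN x v z = 0 := sg_not_not (τ := Q.SN.τ) h1 h2
      omega

theorem s_not {x v z : V} (h : ¬ Q.S.M v) : Q.s x v z = 0 := sg_of_not h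

theorem sN_not {x v z : V} (h : ¬ Q.S.M v) : Q.sN x v z = 0 :=
  sg_of_not (fun ⟨n, hn⟩ => h ⟨n, hn.1⟩)

/-- a top and two of its neighbours with moved in-arrows -/
theorem N_two {x v v' : V} (hN : Q.N x) (h : Q.S.M v) (h' : Q.S.M v') (e : K.E x v)
    (e' : K.E x v') : v = v' := by
  have hr : Q.ρ < K.rk x := by
    obtain ⟨u, m, k1, -⟩ := Q.N_out hN
    exact Q.lt1 k1
  have r := Q.rkM h
  have r' := Q.rkM h'
  refine Q.N_uniq hN ?_ ?_ r r'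
  · rcases e with e | e
    · exact e
    · have := K.ar_rk _ _ e
      omega
  · rcases e' with e | e
    · exact e
    · have := K.ar_rk _ _ e
      omega

/-- the two corners of a square at `v1`, `v3` -/
theorem sq_pair {x0 v1 x2 v3 : V} {st : ℕ} (e0 : K.E x0 v1) (e1 : K.E v1 x2) (e2 : K.E x2 v3)
    (e3 : K.E v3 x0) (hne : v1 ≠ v3)
    (h1 : Q.S.mv x0 v1 → Q.S.mv x2 v1 → ¬ Q.N x0 ∧ ¬ Q.N x2)
    (h3 : Q.S.mv x2 v3 → Q.S.mv x0 v3 → ¬ Q.N x2 ∧ ¬ Q.N x0)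
    (s1 : (Q.S.mv x0 v1 ∧ Q.N x0 ∧ x2 ≠ Q.S.τ x0 v1) ∨ (Q.S.mv x2 v1 ∧ Q.N x2 ∧ x0 ≠ Q.S.τ x2 v1) →
      1 ≤ st)
    (s3 : (Q.S.mv x2 v3 ∧ Q.N x2 ∧ x0 ≠ Q.S.τ x2 v3) ∨ (Q.S.mv x0 v3 ∧ Q.N x0 ∧ x2 ≠ Q.S.τ x0 v3) →
      1 ≤ st) :
    max 0 ((Q.s x0 v1 x2 + Q.s x2 v3 x0) - st) + max 0 (Q.sN x0 v1 x2 + Q.sN x2 v3 x0) ≤
      max 0 (Q.s x0 v1 x2 + Q.s x2 v3 x0) := by
  have hst : (0 : ℤ) ≤ st := by positivity
  rcases Q.sN_sq h1 with a | ⟨a, a', a''⟩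
  · rcases Q.sN_sq h3 with b | ⟨b, b', b''⟩
    · omega
    · have : ¬ Q.S.M v1 := by
        intro hM
        rcases b'' with b'' | b''
        · exact hne (Q.N_two b''.2.1 hM ⟨_, b''.1⟩ e1.symm e2)
        · exact hne (Q.N_two b''.2.1 hM ⟨_, b''.1⟩ e0 e3.symm)
      rw [Q.s_not this, Q.sN_not this, b, b']
      have := s3 b''
      omega
  · have : ¬ Q.S.M v3 := by
      intro hM
      rcases a'' with a'' | a''
      · exact hne (Q.N_two a''.2.1 ⟨_, a''.1⟩ hM e0 e3.symm)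
      · exact hne (Q.N_two a''.2.1 ⟨_, a''.1⟩ hM e1.symm e2)
    rw [Q.s_not this, Q.sN_not this, a, a']
    have := s1 a''
    omega

open Classical in
/-- SQUARES: the bound `max 0 t` -/
theorem sq_bound {i : K.I} {q : Fin 4 → V} (hq : IsSq K i q)
    (h : ∀ j, Q.S.mv (q j) (q (j + 1)) → Q.S.mv (q (j + 2)) (q (j + 1)) →
      ¬ Q.N (q j) ∧ ¬ Q.N (q (j + 2))) :
    max 0 (((K.cw i).length : ℤ) + Q.t i - stn Q.ff (Q.S.gx.cb i) (Q.S.gx.cw i) - 4) +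
      max 0 (((K.cw i).length : ℤ) + Q.tN i - 4) ≤
        2 * max 0 (((K.cw i).length : ℤ) - 4) + max 0 (Q.t i) := by
  have hl : ((K.cw i).length : ℤ) = 4 := by
    rw [hq.cw_eq]
    rfl
  have hE : Wk K.E (K.cb i) (K.cw i) := K.c_E i
  rw [hq.cb_eq, hq.cw_eq] at hE
  obtain ⟨e0, e1, e2, e3, -⟩ := hE
  have ht : Q.t i = Q.s (q 0) (q 1) (q 2) + (Q.s (q 1) (q 2) (q 3) + (Q.s (q 2) (q 3) (q 0) +
      (Q.s (q 3) (q 0) (q 1) + 0))) := by
    unfold t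
    rw [hq.cb_eq, hq.cw_eq]
    rfl
  have htN : Q.tN i = Q.sN (q 0) (q 1) (q 2) + (Q.sN (q 1) (q 2) (q 3) + (Q.sN (q 2) (q 3) (q 0) +
      (Q.sN (q 3) (q 0) (q 1) + 0))) := by
    unfold tN
    rw [hq.cb_eq, hq.cw_eq]
    rfl
  have hw : Q.S.rb i :: Q.S.rl i = if Q.S.M (q 0) then [q 1, q 2, q 3, q 0, q 1] else
      [q 0, q 1, q 2, q 3, q 0] := by
    unfold Sl.rb Sl.rl
    rw [hq.cb_eq, hq.cw_eq]
    simp only
    by_cases hM : Q.S.M (q 0)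
    · rw [if_pos hM, if_pos hM, if_pos hM]
      rfl
    · rw [if_neg hM, if_neg hM, if_neg hM]
  rw [hl]
  have m0 : max (0 : ℤ) (4 - 4) = 0 := by norm_num
  rw [m0]
  set st := stn Q.ff (Q.S.gx.cb i) (Q.S.gx.cw i) with hst
  by_cases hA : Q.S.M (q 0) ∨ Q.S.M (q 2)
  · -- `q 1`, `q 3` have no moved in-arrows
    have h1 : ¬ Q.S.M (q 1) := by
      rcases hA with hA | hA
      · exact fun k => Q.S.not_MM hA k e0
      · exact fun k => Q.S.not_MM k hA e1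
    have h3 : ¬ Q.S.M (q 3) := by
      rcases hA with hA | hA
      · exact fun k => Q.S.not_MM k hA e3
      · exact fun k => Q.S.not_MM hA k e2
    rw [Q.s_not h1, Q.s_not h3] at ht
    rw [Q.sN_not h1, Q.sN_not h3] at htN
    have key := Q.sq_pair (x0 := q 1) (v1 := q 2) (x2 := q 3) (v3 := q 0) (st := st) e1 e2 e3 e0
      hq.ne0.symm (h 1) (h 3) ?_ ?_
    · rw [ht, htN]
      have e1 : 4 + (0 + (Q.s (q 1) (q 2) (q 3) + (0 + (Q.s (q 3) (q 0) (q 1) + 0)))) - (st : ℤ) - 4 =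
        Q.s (q 1) (q 2) (q 3) + Q.s (q 3) (q 0) (q 1) - st := by ring
      have e2 : 4 + (0 + (Q.sN (q 1) (q 2) (q 3) + (0 + (Q.sN (q 3) (q 0) (q 1) + 0)))) - 4 =
        Q.sN (q 1) (q 2) (q 3) + Q.sN (q 3) (q 0) (q 1) := by ring
      have e3 : 0 + (Q.s (q 1) (q 2) (q 3) + (0 + (Q.s (q 3) (q 0) (q 1) + 0))) =
        Q.s (q 1) (q 2) (q 3) + Q.s (q 3) (q 0) (q 1) := by ring
      rw [e1, e2, e3]
      linarith
    · intro hm
      have hM2 : Q.S.M (q 2) := by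
        rcases hm with hm | hm
        · exact ⟨_, hm.1⟩
        · exact ⟨_, hm.1⟩
      by_cases hM : Q.S.M (q 0)
      · rw [if_pos hM] at hw
        exact Q.stn_infix [] [q 0, q 1] hM2 hm hw
      · rw [if_neg hM] at hw
        exact Q.stn_infix [q 0] [q 0] hM2 hm hw
    · intro hm
      have hM : Q.S.M (q 0) := by
        rcases hm with hm | hm
        · exact ⟨_, hm.1⟩
        · exact ⟨_, hm.1⟩
      rw [if_pos hM] at hw
      exact Q.stn_infix [q 1, q 2] [] hM hm hw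
  · push Not at hA
    obtain ⟨h0, h2⟩ := hA
    rw [Q.s_not h0, Q.s_not h2] at ht
    rw [Q.sN_not h0, Q.sN_not h2] at htN
    rw [if_neg h0] at hw
    have key := Q.sq_pair (x0 := q 0) (v1 := q 1) (x2 := q 2) (v3 := q 3) (st := st) e0 e1 e2 e3
      hq.ne1 (h 0) (h 2) ?_ ?_
    · rw [ht, htN]
      have e1 : 4 + (Q.s (q 0) (q 1) (q 2) + (0 + (Q.s (q 2) (q 3) (q 0) + (0 + 0)))) - (st : ℤ) - 4 =
        Q.s (q 0) (q 1) (q 2) + Q.s (q 2) (q 3) (q 0) - st := by ring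
      have e2 : 4 + (Q.sN (q 0) (q 1) (q 2) + (0 + (Q.sN (q 2) (q 3) (q 0) + (0 + 0)))) - 4 =
        Q.sN (q 0) (q 1) (q 2) + Q.sN (q 2) (q 3) (q 0) := by ring
      have e3 : Q.s (q 0) (q 1) (q 2) + (0 + (Q.s (q 2) (q 3) (q 0) + (0 + 0))) =
        Q.s (q 0) (q 1) (q 2) + Q.s (q 2) (q 3) (q 0) := by ring
      rw [e1, e2, e3]
      linarith
    · intro hm
      have hM : Q.S.M (q 1) := by
        rcases hm with hm | hm
        · exact ⟨_, hm.1⟩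
        · exact ⟨_, hm.1⟩
      exact Q.stn_infix [] [q 3, q 0] hM hm hw
    · intro hm
      have hM : Q.S.M (q 3) := by
        rcases hm with hm | hm
        · exact ⟨_, hm.1⟩
        · exact ⟨_, hm.1⟩
      exact Q.stn_infix [q 0, q 1] [] hM hm hw

open Classical in
/-- THE INEQUALITY FOR PENTAGONS AND SQUARES -/
theorem sum_nonneg_sq (hm : K.Min) [Fintype K.I] (q : K.I → Fin 4 → V)
    (hq : ∀ i, ¬ P.five i → IsSq K i (q i))
    (h : ∀ i, ¬ P.five i → ∀ j, Q.S.mv (q i j) (q i (j + 1)) → Q.S.mv (q i (j + 2)) (q i (j + 1)) →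
      ¬ Q.N (q i j) ∧ ¬ Q.N (q i (j + 2))) :
    0 ≤ ∑ i, if P.five i then Q.t i else max 0 (Q.t i) :=
  Q.sum_nonneg hm _ fun i hi => Q.sq_bound (hq i hi) (h i hi)

end PQg

end Pool.Agent.DI
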