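import Pool.Agent.DI.PGA
import Pool.Agent.DI.PG3

/-!
# DI/CuS: the cut inequality with listed squares

`CuD.cut` for complexes with pentagons and listed squares: the number of the corners of PENTAGONS
between the pole `a` and the set `R` is at most the number of ALL corners which leave `R`, if no
corner of a square is inside `R`.
-/

namespace Pool.Agent.DI

open MulAction
open Pool.Agent.SAF (InC orbs FinOrb oc)
open Pool.Agent.BT (PX)

variable {H V : Type} [Group H] [MulAction H V]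

/-! ### sums over the corners of a cell -/

theorem sgs_map (mv : V → V → Prop) (τ : V → V → V) : ∀ (n : ℕ) (f : ℕ → V),
    sgs mv τ (f 0) ((List.range (n + 1)).map (fun j => f (j + 1))) =
      ∑ j ∈ Finset.range n, sg mv τ (f j) (f (j + 1)) (f (j + 2)) := by
  intro n
  induction n with
  | zero =>
    intro f
    rfl
  | succ n ih =>
    intro f
    rw [List.range_succ_eq_map, List.map_cons, List.map_map, List.range_succ_eq_map,
      List.map_cons, List.map_map]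
    have h := ih (fun j => f (j + 1))
    rw [List.range_succ_eq_map, List.map_cons, List.map_map] at h
    have e : sgs mv τ (f 0) (f 1 :: f 2 :: (List.range n).map (fun j => f (j + 1 + 1 + 1))) =
        sg mv τ (f 0) (f 1) (f 2) +
          sgs mv τ (f 1) (f 2 :: (List.range n).map (fun j => f (j + 1 + 1 + 1))) := rfl
    have h' : sgs mv τ (f 1) (f 2 :: (List.range n).map (fun j => f (j + 1 + 1 + 1))) =
        ∑ j ∈ Finset.range n, sg mv τ (f (j + 1)) (f (j + 1 + 1)) (f (j + 1 + 2)) := h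
    rw [h'] at e
    rw [Finset.sum_range_succ']
    exact e.trans (add_comm _ _)

namespace GX

variable (K : GX H V)

/-- the vertices of a closed walk and the second vertex again -/
theorem cw_map (i : K.I) (y : V) (l : List V) (e : K.cw i = y :: l) :
    K.cw i ++ [y] = (List.range (K.len i + 1)).map (fun j => K.vx i (j + 1)) := by
  have hl : K.len i = (K.cw i).length := rfl
  have h0 : 0 < K.len i := by
    rw [hl, e]
    exact Nat.succ_pos _
  refine List.ext_getElem ?_ ?_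
  · simp [hl]
  · intro n h1 h2
    rw [List.getElem_map, List.getElem_range]
    have h3 : n < K.len i + 1 := by simpa using h2
    rcases Nat.lt_succ_iff_lt_or_eq.1 h3 with h | h
    · rw [List.getElem_append_left (by rw [← hl]; exact h), K.vx_of_le (show n + 1 ≤ K.len i from h),
        List.getD_cons_succ, List.getD_eq_getElem _ _ (by rw [← hl]; exact h)]
    · subst h
      rw [List.getElem_append_right (by rw [← hl])]
      have h4 : K.vx i (K.len i + 1) = K.vx i 1 := by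
        rw [add_comm]
        exact K.vx_add_len i 1
      have h5 : (K.cb i :: K.cw i).getD 1 (K.cb i) = y := by
        rw [e]
        rfl
      rw [h4, K.vx_of_le (show 1 ≤ K.len i from h0), h5]
      simp

/-- the sum of `sg` along a cell is the sum over its corners -/
theorem csg_ccs (mv : V → V → Prop) (τ : V → V → V) (i : K.I) :
    csg mv τ (K.cb i) (K.cw i) = K.ccs i (fun x y z => sg mv τ x y z) := by
  have hl : K.len i = (K.cw i).length := rfl
  cases e : K.cw i with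
  | nil =>
    have h0 : K.len i = 0 := by rw [hl, e]; rfl
    have : IsEmpty (Fin (K.len i)) := by rw [h0]; infer_instance
    unfold GX.ccs
    rw [Finset.univ_eq_empty, Finset.sum_empty]
    rfl
  | cons y l =>
    have h := K.cw_map i y l e
    have h1 : csg mv τ (K.cb i) (y :: l) = sgs mv τ (K.cb i) (K.cw i ++ [y]) := by rw [e]; rfl
    rw [h1, h, ← K.vx_zero i]
    rw [sgs_map mv τ (K.len i) (K.vx i)]
    unfold GX.ccs
    exact Finset.sum_range (fun j => sg mv τ (K.vx i j) (K.vx i (j + 1)) (K.vx i (j + 2)))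

end GX

namespace PQa

variable {K : GX H V} {P : PG K} (Q : PQa P)

/-- the corner has a moved leg which is a top, the other leg is not its target -/
def T1 (x v z : V) : Prop :=
  (Q.S.mv x v ∧ Q.N x ∧ z ≠ Q.S.τ x v) ∨ (Q.S.mv z v ∧ Q.N z ∧ x ≠ Q.S.τ z v)

/-- both legs are moved tops, with different targets -/
def T2 (x v z : V) : Prop :=
  Q.S.mv x v ∧ Q.N x ∧ Q.S.mv z v ∧ Q.N z ∧ Q.S.τ x v ≠ Q.S.τ z v

/-- a corner whose legs are not both moved to the same target if one of them is a top and the other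
is not -/
theorem sN_sq {x v z : V} (h : Q.S.mv x v → Q.S.mv z v → Q.S.τ x v = Q.S.τ z v →
      (Q.N x ↔ Q.N z)) :
    Q.sN x v z ≤ 0 ∨ (Q.sN x v z = 1 ∧ 1 ≤ Q.s x v z ∧ Q.T1 x v z) ∨
      (Q.sN x v z = 2 ∧ Q.s x v z = 2 ∧ Q.T2 x v z) := by
  rcases Q.sN_cases x v z with k | ⟨k1, -, k2⟩ | ⟨k1, k2, k3, k4, k5, k6, k7⟩
  · exact Or.inl k
  · refine Or.inr (Or.inl ⟨k1, ?_, k2⟩)
    have k0 : ∀ hx : Q.S.mv x v, ∀ hz : Q.S.mv z v, Q.S.τ x v = Q.S.τ z v → Q.N x → Q.N z →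
        False := by
      intro hx hz ht nx nz
      have : Q.sN x v z = 0 :=
        sg_mv_mv (mv := Q.SN.mv) (τ := Q.SN.τ) ⟨hx, nx⟩ ⟨hz, nz⟩ ht
      omega
    rcases k2 with ⟨m, n, e⟩ | ⟨m, n, e⟩
    · by_cases hz : Q.S.mv z v
      · by_cases ht : Q.S.τ x v = Q.S.τ z v
        · exact (k0 m hz ht n ((h m hz ht).1 n)).elim
        · have : Q.s x v z = 2 := by
            show sg Q.S.mv Q.S.τ x v z = 2
            unfold sg seg
            rw [if_pos m, if_pos hz, if_neg ht]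
            rfl
          omega
      · have : Q.s x v z = 1 := sg_mv_not m hz e
        omega
    · by_cases hx : Q.S.mv x v
      · by_cases ht : Q.S.τ x v = Q.S.τ z v
        · exact (k0 hx m ht ((h hx m ht).2 n) n).elim
        · have : Q.s x v z = 2 := by
            show sg Q.S.mv Q.S.τ x v z = 2
            unfold sg seg
            rw [if_pos hx, if_pos m, if_neg ht]
            rfl
          omega
      · have : Q.s x v z = 1 := by
          rw [Q.s_symm]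
          exact sg_mv_not m hx e
        omega
  · exact Or.inr (Or.inr ⟨k1, k2, k3, k4, k5, k6, k7⟩)

/-- a top and two of its neighbours with moved in-arrows -/
theorem N_two {x v v' : V} (hN : Q.N x) (h : Q.S.M v) (h' : Q.S.M v') (e : K.E x v)
    (e' : K.E x v') : v = v' := by
  have hr : Q.ρ < K.rk x := by
    obtain ⟨u, m, k1, -⟩ := Q.N_out hN
    exact Q.lt1 k1
  have r := Q.rkM h
  have r' := Q.rkM h'
  refine Q.N_uniq hN ?_ ?_ r r'
  · rcases e with e | e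
    · exact e
    · have := K.ar_rk _ _ e
      omega
  · rcases e' with e | e
    · exact e
    · have := K.ar_rk _ _ e
      omega

/-- the two corners of a square at `v1`, `v3` -/
theorem sq_pair {x0 v1 x2 v3 : V} {st : ℕ} (e0 : K.E x0 v1) (e1 : K.E v1 x2) (e2 : K.E x2 v3)
    (e3 : K.E v3 x0) (hne : v1 ≠ v3)
    (h1 : Q.S.mv x0 v1 → Q.S.mv x2 v1 → Q.S.τ x0 v1 = Q.S.τ x2 v1 → (Q.N x0 ↔ Q.N x2))
    (h3 : Q.S.mv x2 v3 → Q.S.mv x0 v3 → Q.S.τ x2 v3 = Q.S.τ x0 v3 → (Q.N x2 ↔ Q.N x0))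
    (s1 : Q.T1 x0 v1 x2 → 1 ≤ st) (s1' : Q.T2 x0 v1 x2 → 2 ≤ st)
    (s3 : Q.T1 x2 v3 x0 → 1 ≤ st) (s3' : Q.T2 x2 v3 x0 → 2 ≤ st) :
    max 0 ((Q.s x0 v1 x2 + Q.s x2 v3 x0) - st) + max 0 (Q.sN x0 v1 x2 + Q.sN x2 v3 x0) ≤
      max 0 (Q.s x0 v1 x2 + Q.s x2 v3 x0) := by
  have hst : (0 : ℤ) ≤ st := by positivity
  have k3 : (Q.T1 x0 v1 x2 ∨ Q.T2 x0 v1 x2) → ¬ Q.S.M v3 := by
    intro a'' hM
    rcases a'' with (a'' | a'') | a''
    · exact hne (Q.N_two a''.2.1 ⟨_, a''.1⟩ hM e0 e3.symm)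
    · exact hne (Q.N_two a''.2.1 ⟨_, a''.1⟩ hM e1.symm e2)
    · exact hne (Q.N_two a''.2.1 ⟨_, a''.1⟩ hM e0 e3.symm)
  have k1 : (Q.T1 x2 v3 x0 ∨ Q.T2 x2 v3 x0) → ¬ Q.S.M v1 := by
    intro b'' hM
    rcases b'' with (b'' | b'') | b''
    · exact hne (Q.N_two b''.2.1 hM ⟨_, b''.1⟩ e1.symm e2)
    · exact hne (Q.N_two b''.2.1 hM ⟨_, b''.1⟩ e0 e3.symm)
    · exact hne (Q.N_two b''.2.1 hM ⟨_, b''.1⟩ e1.symm e2)
  rcases Q.sN_sq h1 with a | ⟨a, a', a''⟩ | ⟨a, a', a''⟩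
  · rcases Q.sN_sq h3 with b | ⟨b, b', b''⟩ | ⟨b, b', b''⟩
    · omega
    · have := k1 (Or.inl b'')
      rw [Q.s_not this, Q.sN_not this, b]
      have := s3 b''
      omega
    · have := k1 (Or.inr b'')
      rw [Q.s_not this, Q.sN_not this, b, b']
      have := s3' b''
      omega
  · have := k3 (Or.inl a'')
    rw [Q.s_not this, Q.sN_not this, a]
    have := s1 a''
    omega
  · have := k3 (Or.inr a'')
    rw [Q.s_not this, Q.sN_not this, a, a']
    have := s1' a''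
    omega

open Classical in
/-- SQUARES: the bound `max 0 t` -/
theorem sq_bound {i : K.I} {q : Fin 4 → V} (hq : IsSq K i q)
    (h : ∀ j, Q.S.mv (q j) (q (j + 1)) → Q.S.mv (q (j + 2)) (q (j + 1)) →
      Q.S.τ (q j) (q (j + 1)) = Q.S.τ (q (j + 2)) (q (j + 1)) →
      (Q.N (q j) ↔ Q.N (q (j + 2)))) :
    max 0 (((K.cw i).length : ℤ) + Q.t i - stn Q.ff (Q.S.gx.cb i) (Q.S.gx.cw i) - 4) +
      max 0 (((K.cw i).length : ℤ) + Q.tN i - 4) ≤
        2 * max 0 (((K.cw i).length : ℤ) - 4) + max 0 (Q.t i) := by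
  have hl : ((K.cw i).length : ℤ) = 4 := by
    rw [hq.cw_eq]
    rfl
  have hE : Wk K.E (K.cb i) (K.cw i) := K.c_E i
  rw [hq.cb_eq, hq.cw_eq] at hE
  obtain ⟨e0, e1, e2, e3, -⟩ := hE
  have ht : Q.t i = Q.s (q 0) (q 1) (q 2) + (Q.s (q 1) (q 2) (q 3) + (Q.s (q 2) (q 3) (q 0) +
      (Q.s (q 3) (q 0) (q 1) + 0))) := by
    unfold t
    rw [hq.cb_eq, hq.cw_eq]
    rfl
  have htN : Q.tN i = Q.sN (q 0) (q 1) (q 2) + (Q.sN (q 1) (q 2) (q 3) + (Q.sN (q 2) (q 3) (q 0) +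
      (Q.sN (q 3) (q 0) (q 1) + 0))) := by
    unfold tN
    rw [hq.cb_eq, hq.cw_eq]
    rfl
  have hw : Q.S.rb i :: Q.S.rl i = if Q.S.M (q 0) then [q 1, q 2, q 3, q 0, q 1] else
      [q 0, q 1, q 2, q 3, q 0] := by
    unfold Sl.rb Sl.rl
    rw [hq.cb_eq, hq.cw_eq]
    simp only
    by_cases hM : Q.S.M (q 0)
    · rw [if_pos hM, if_pos hM, if_pos hM]
      rfl
    · rw [if_neg hM, if_neg hM, if_neg hM]
  rw [hl]
  have m0 : max (0 : ℤ) (4 - 4) = 0 := by norm_num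
  rw [m0]
  set st := stn Q.ff (Q.S.gx.cb i) (Q.S.gx.cw i) with hst
  have one : ∀ {x v z : V} (l1 l2 : List V), Q.S.rb i :: Q.S.rl i = l1 ++ x :: v :: z :: l2 →
      Q.T1 x v z → 1 ≤ st := by
    intro x v z l1 l2 e hm
    have hM : Q.S.M v := by
      rcases hm with hm | hm
      · exact ⟨_, hm.1⟩
      · exact ⟨_, hm.1⟩
    exact Q.stn_infix l1 l2 hM hm e
  have two : ∀ {x v z : V} (l1 l2 : List V), Q.S.rb i :: Q.S.rl i = l1 ++ x :: v :: z :: l2 →
      Q.T2 x v z → 2 ≤ st := fun l1 l2 e hm =>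
    Q.stn_infix2 l1 l2 hm.1 hm.2.1 hm.2.2.1 hm.2.2.2.1 hm.2.2.2.2 e
  by_cases hA : Q.S.M (q 0) ∨ Q.S.M (q 2)
  · -- `q 1`, `q 3` have no moved in-arrows
    have h1 : ¬ Q.S.M (q 1) := by
      rcases hA with hA | hA
      · exact fun k => Q.S.not_MM hA k e0
      · exact fun k => Q.S.not_MM k hA e1
    have h3 : ¬ Q.S.M (q 3) := by
      rcases hA with hA | hA
      · exact fun k => Q.S.not_MM k hA e3
      · exact fun k => Q.S.not_MM hA k e2
    rw [Q.s_not h1, Q.s_not h3] at ht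
    rw [Q.sN_not h1, Q.sN_not h3] at htN
    have w2 : ∃ l1 l2, Q.S.rb i :: Q.S.rl i = l1 ++ q 1 :: q 2 :: q 3 :: l2 := by
      by_cases hM : Q.S.M (q 0)
      · rw [if_pos hM] at hw
        exact ⟨[], [q 0, q 1], hw⟩
      · rw [if_neg hM] at hw
        exact ⟨[q 0], [q 0], hw⟩
    have w0 : Q.S.M (q 0) → ∃ l1 l2, Q.S.rb i :: Q.S.rl i = l1 ++ q 3 :: q 0 :: q 1 :: l2 := by
      intro hM
      rw [if_pos hM] at hw
      exact ⟨[q 1, q 2], [], hw⟩
    obtain ⟨a1, a2, w2⟩ := w2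
    have key := Q.sq_pair (x0 := q 1) (v1 := q 2) (x2 := q 3) (v3 := q 0) (st := st) e1 e2 e3 e0
      hq.ne0.symm (h 1) (h 3) (one a1 a2 w2) (two a1 a2 w2) ?_ ?_
    · rw [ht, htN]
      have e1 : 4 + (0 + (Q.s (q 1) (q 2) (q 3) + (0 + (Q.s (q 3) (q 0) (q 1) + 0)))) - (st : ℤ) - 4 =
        Q.s (q 1) (q 2) (q 3) + Q.s (q 3) (q 0) (q 1) - st := by ring
      have e2 : 4 + (0 + (Q.sN (q 1) (q 2) (q 3) + (0 + (Q.sN (q 3) (q 0) (q 1) + 0)))) - 4 =
        Q.sN (q 1) (q 2) (q 3) + Q.sN (q 3) (q 0) (q 1) := by ring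
      have e3 : 0 + (Q.s (q 1) (q 2) (q 3) + (0 + (Q.s (q 3) (q 0) (q 1) + 0))) =
        Q.s (q 1) (q 2) (q 3) + Q.s (q 3) (q 0) (q 1) := by ring
      rw [e1, e2, e3]
      linarith
    · intro hm
      obtain ⟨b1, b2, w⟩ := w0 (by rcases hm with hm | hm <;> exact ⟨_, hm.1⟩)
      exact one b1 b2 w hm
    · intro hm
      obtain ⟨b1, b2, w⟩ := w0 ⟨_, hm.1⟩
      exact two b1 b2 w hm
  · push Not at hA
    obtain ⟨h0, h2⟩ := hA
    rw [Q.s_not h0, Q.s_not h2] at ht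
    rw [Q.sN_not h0, Q.sN_not h2] at htN
    rw [if_neg h0] at hw
    have key := Q.sq_pair (x0 := q 0) (v1 := q 1) (x2 := q 2) (v3 := q 3) (st := st) e0 e1 e2 e3
      hq.ne1 (h 0) (h 2) (one [] [q 3, q 0] hw) (two [] [q 3, q 0] hw)
      (one [q 0, q 1] [] hw) (two [q 0, q 1] [] hw)
    rw [ht, htN]
    have e1 : 4 + (Q.s (q 0) (q 1) (q 2) + (0 + (Q.s (q 2) (q 3) (q 0) + (0 + 0)))) - (st : ℤ) - 4 =
      Q.s (q 0) (q 1) (q 2) + Q.s (q 2) (q 3) (q 0) - st := by ring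
    have e2 : 4 + (Q.sN (q 0) (q 1) (q 2) + (0 + (Q.sN (q 2) (q 3) (q 0) + (0 + 0)))) - 4 =
      Q.sN (q 0) (q 1) (q 2) + Q.sN (q 2) (q 3) (q 0) := by ring
    have e3 : Q.s (q 0) (q 1) (q 2) + (0 + (Q.s (q 2) (q 3) (q 0) + (0 + 0))) =
      Q.s (q 0) (q 1) (q 2) + Q.s (q 2) (q 3) (q 0) := by ring
    rw [e1, e2, e3]
    linarith

open Classical in
/-- THE INEQUALITY FOR PENTAGONS AND SQUARES, arbitrary sets of in-arrows: no corner of a square has
two legs moved to the same target -/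
theorem sum_nonneg_sq (hm : K.Min) [Fintype K.I] (q : K.I → Fin 4 → V)
    (hq : ∀ i, ¬ P.five i → IsSq K i (q i))
    (h : ∀ i, ¬ P.five i → ∀ j, Q.S.mv (q i j) (q i (j + 1)) → Q.S.mv (q i (j + 2)) (q i (j + 1)) →
      Q.S.τ (q i j) (q i (j + 1)) = Q.S.τ (q i (j + 2)) (q i (j + 1)) →
      (Q.N (q i j) ↔ Q.N (q i (j + 2)))) :
    0 ≤ ∑ i, if P.five i then Q.t i else max 0 (Q.t i) :=
  Q.sum_nonneg hm _ fun i hi => Q.sq_bound (hq i hi) (h i hi)

end PQa

namespace PG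

variable {K : GX H V} (P : PG K)

open Classical in
/-- the number of the corners of pentagons with a property -/
noncomputable def rcn (F : V → V → V → Prop) : ℕ :=
  (Finset.univ.filter (fun p : K.Pos => P.five p.1 ∧
    F (K.vx p.1 p.2) (K.vx p.1 (p.2 + 1)) (K.vx p.1 (p.2 + 2)))).card

open Classical in
theorem rcn_eq (F : V → V → V → Prop) : (P.rcn F : ℤ) =
    ∑ i, if P.five i then K.ccs i (fun x y z => if F x y z then 1 else 0) else 0 := by
  unfold rcn
  rw [Finset.card_filter]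
  push_cast
  rw [Fintype.sum_sigma]
  refine Finset.sum_congr rfl fun i _ => ?_
  by_cases hi : P.five i
  · rw [if_pos hi]
    unfold GX.ccs
    refine Finset.sum_congr rfl fun j _ => ?_
    simp [hi]
  · rw [if_neg hi]
    refine Finset.sum_eq_zero fun j _ => ?_
    simp [hi]

open Classical in
theorem ccs_nn (F : V → V → V → Prop) (i : K.I) :
    0 ≤ K.ccs i (fun x y z => if F x y z then (1 : ℤ) else 0) := by
  unfold GX.ccs
  refine Finset.sum_nonneg fun j _ => ?_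
  show (0 : ℤ) ≤ if F (K.vx i j) (K.vx i (j + 1)) (K.vx i (j + 2)) then 1 else 0
  by_cases h : F (K.vx i j) (K.vx i (j + 1)) (K.vx i (j + 2))
  · rw [if_pos h]
    exact zero_le_one
  · rw [if_neg h]

theorem rcn_le (F : V → V → V → Prop) : P.rcn F ≤ K.cr.cn F := by
  classical
  have h : (P.rcn F : ℤ) ≤ K.cr.cn F := by
    rw [P.rcn_eq, K.cr.cn_eq, K.cs_eq]
    refine Finset.sum_le_sum fun i _ => ?_
    by_cases hi : P.five i
    · rw [if_pos hi]
    · rw [if_neg hi]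
      exact ccs_nn F i
  exact_mod_cast h

end PG

namespace CuD

variable {K : GX H V} (D : CuD K)

/-- two legs moved to the same target are in the same translate of `R` -/
theorem same {x y z : V} (h1 : D.mv x y) (h2 : D.mv z y) (e : D.τ x y = D.τ z y) :
    ∃ h : H, y = h • D.v ∧ h⁻¹ • x ∈ D.R ∧ h⁻¹ • z ∈ D.R := by
  obtain ⟨k, k1, k2⟩ := h1
  obtain ⟨l, l1, l2⟩ := h2
  rw [D.τ_eq k1 k2, D.τ_eq l1 l2] at e
  have e1 : (l⁻¹ * k) • D.v = D.v := by rw [mul_smul, ← k2, l2, inv_smul_smul]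
  have e2 : (l⁻¹ * k) • D.a = D.a := by rw [mul_smul, e, inv_smul_smul]
  have e3 := D.inv _ e1 e2 _ k1
  rw [mul_smul, smul_inv_smul] at e3
  exact ⟨l, l2, e3, l1⟩

/-- THE CUT INEQUALITY WITH SQUARES (2911, 0a.1): the number of the corners `(a, v, n)`, `n ∈ R`, of
pentagons is at most the number of all corners which leave `R`. No corner of a square is inside
`R`. -/
theorem cut_sq (P : PG K) (hm : K.Min) (q : K.I → Fin 4 → V)
    (hq : ∀ i, ¬ P.five i → IsSq K i (q i))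
    (hR : ∀ i, ¬ P.five i → ∀ (j : Fin 4) (g : H), g • q i (j + 1) = D.v →
      ¬ (g • q i j ∈ D.R ∧ g • q i (j + 2) ∈ D.R)) :
    P.rcn (cA D.sl.mv D.sl.τ) ≤ K.cr.cn D.c1 + 2 * K.cr.cn D.c2 := by
  classical
  let Q : PQa P := ⟨D.sl, _, _, D.rk1, D.rk2⟩
  have h := Q.sum_nonneg_sq hm q hq (by
    intro i hi j h1 h2 e
    exfalso
    obtain ⟨g, g1, g2, g3⟩ := D.same h1 h2 e
    exact hR i hi j g⁻¹ (by rw [g1, inv_smul_smul]) ⟨g2, g3⟩)
  set A : K.I → ℤ := fun i => K.ccs i (fun x y z => if cA D.sl.mv D.sl.τ x y z then 1 else 0) with hA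
  set B : K.I → ℤ := fun i => K.ccs i (fun x y z => if D.c1 x y z then 1 else 0) with hB
  set C : K.I → ℤ := fun i => K.ccs i (fun x y z => if D.c2 x y z then 1 else 0) with hC
  have ht : ∀ i, Q.t i = B i + 2 * C i - A i := by
    intro i
    show csg D.sl.mv D.sl.τ (K.cb i) (K.cw i) = _
    rw [K.csg_ccs]
    simp only [hA, hB, hC]
    unfold GX.ccs
    rw [Finset.mul_sum, ← Finset.sum_add_distrib, ← Finset.sum_sub_distrib]
    exact Finset.sum_congr rfl fun j _ => D.sg_eq _ _ _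
  have key : ∀ i, (if P.five i then Q.t i else max 0 (Q.t i)) ≤
      B i + 2 * C i - (if P.five i then A i else 0) := by
    intro i
    have h1 := PG.ccs_nn (K := K) (cA D.sl.mv D.sl.τ) i
    have h2 := PG.ccs_nn (K := K) D.c1 i
    have h3 := PG.ccs_nn (K := K) D.c2 i
    by_cases hi : P.five i
    · rw [if_pos hi, if_pos hi, ht i]
    · rw [if_neg hi, if_neg hi, ht i]
      refine max_le ?_ ?_
      · show (0 : ℤ) ≤ B i + 2 * C i - 0
        have h2' : 0 ≤ B i := h2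
        have h3' : 0 ≤ C i := h3
        linarith
      · have h1' : 0 ≤ A i := h1
        linarith
  have h' := h.trans (Finset.sum_le_sum fun i _ => key i)
  rw [Finset.sum_sub_distrib, Finset.sum_add_distrib, ← Finset.mul_sum] at h'
  have e1 : (K.cr.cn D.c1 : ℤ) = ∑ i, B i := by
    rw [K.cr.cn_eq, K.cs_eq]
  have e2 : (K.cr.cn D.c2 : ℤ) = ∑ i, C i := by
    rw [K.cr.cn_eq, K.cs_eq]
  have e3 := P.rcn_eq (cA D.sl.mv D.sl.τ)
  have e4 : (P.rcn (cA D.sl.mv D.sl.τ) : ℤ) ≤ K.cr.cn D.c1 + 2 * K.cr.cn D.c2 := by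
    rw [e1, e2, e3]
    linarith
  exact_mod_cast e4

end CuD

end Pool.Agent.DI
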