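import Pool.Agent.DI.CutL

/-!
# DI/CutF: full parts (T0+, note 2941)

`S.Full` (S : SubGX K' K): links of `K` without isolated nodes are connected, out-arrows of vertices in
cells are in cells, all cells of `K` belong to the part, all vertices of the part are in cells.
`SubGX.full`, `full_pt`: this holds for the part with connected links of a folded slice at constant
`V_s` (see DI/CutL).
Then the part is the complex without the vertices in no cell: `Full.nbr`, `out`, `back`, `surj`,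
`snk_iff`, `sft_iff`, `spc_iff`, `stabIso`, `fin_iff`, `cor_iff`, `EC_iff`, `oc_eq`, `nU_eq`, `nW_eq`,
`nVZ_eq`, `nVD_eq`, `nV0_eq`, `nHv_eq`, `nFat_eq`, `neg_iff`, `weakA_iff`, `nNu_eq`.
-/

namespace Pool.Agent.DI

open MulAction
open Pool.Agent.SAF (InC SA orbs FinOrb oc FinOrb_iff mk_eq_iff exists_rep oc_le_of_inj
  oc_le_of_surj oc_mono oc_lt_of_inj)
open Pool.Agent.SAG (IO Zt)

namespace SubGX

variable {H' V' H V : Type} [Group H'] [MulAction H' V'] [Group H] [MulAction H V]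
  {K' : GX H' V'} {K : GX H V}

/-- the part is the complex without the vertices and edges in no cell -/
structure Full (S : SubGX K' K) : Prop where
  clc : ∀ v, K.CLC v
  ec : ∀ v b, K.VC v → K.ar v b → K.EC v b
  all : ∀ i : K.I, ∃ i', S.ι i' = i
  vc' : ∀ v, K'.VC v

namespace Full

variable {S : SubGX K' K} (F : S.Full)

include F

/-- neighbours in cells come from the part -/
theorem nbr {v : V'} {b : V} (h : K.EC (S.f v) b) : ∃ b', S.f b' = b ∧ K'.EC v b' := by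
  obtain ⟨y, hy⟩ := F.vc' v
  have h1 := F.clc _ _ _ (S.EC hy) h
  have key : ∀ a b, K.LJ (S.f v) a b → ((∃ a', S.f a' = a ∧ K'.EC v a') ↔
      ∃ b', S.f b' = b ∧ K'.EC v b') := by
    intro a b h
    unfold GX.LJ at h
    induction h with
    | rel a b h =>
      have one : ∀ a b, K.Cor a (S.f v) b → (∃ a', S.f a' = a ∧ K'.EC v a') →
          ∃ b', S.f b' = b ∧ K'.EC v b' := by
        rintro a b h ⟨a', rfl, ha⟩
        obtain ⟨b', rfl, hb⟩ := S.corner_back ha.E h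
        exact ⟨b', rfl, (GX.EC_iff.2 ⟨_, hb.symm⟩).symm⟩
      exact ⟨one _ _ h, one _ _ h.symm⟩
    | refl a => exact Iff.rfl
    | symm a b _ ih => exact ih.symm
    | trans a b c _ _ ih1 ih2 => exact ih1.trans ih2
  exact (key _ _ h1).1 ⟨y, rfl, hy⟩

theorem vc (v : V') : K.VC (S.f v) := by
  obtain ⟨y, hy⟩ := F.vc' v
  exact ⟨_, S.EC hy⟩

/-- out-neighbours come from the part -/
theorem out {v : V'} {b : V} (h : K.ar (S.f v) b) : ∃ b', S.f b' = b ∧ K'.ar v b' := by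
  obtain ⟨b', rfl, -⟩ := F.nbr (F.ec _ _ (F.vc v) h)
  exact ⟨b', rfl, (S.ar_iff _ _).2 h⟩

theorem back {h : H} {v v' : V'} (e : h • S.f v = S.f v') : ∃ k, S.φ k = h ∧ k • v = v' := by
  obtain ⟨y, hy⟩ := F.vc' v
  have h1 := (S.EC hy).smul h
  rw [e] at h1
  obtain ⟨z, hz1, hz2⟩ := F.nbr h1
  obtain ⟨k, rfl⟩ := S.edge v y v' z h hy.E hz2.E e hz1.symm
  exact ⟨k, rfl, S.f_inj (by rw [S.f_smul]; exact e)⟩

theorem surj {v : V} (h : K.VC v) : ∃ (g : H) (v' : V'), g • S.f v' = v := by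
  obtain ⟨y, hy⟩ := h
  obtain ⟨g, x', y', h1, -, -⟩ := S.EC_back F.all hy
  exact ⟨g, x', h1⟩

theorem snk_iff {v : V'} : K'.Snk v ↔ K.Snk (S.f v) := by
  refine ⟨fun h b hb => ?_, S.snk⟩
  obtain ⟨b', rfl, hb'⟩ := F.out hb
  exact h b' hb'

theorem sft_iff {v : V'} : K'.Sft v ↔ K.Sft (S.f v) := by
  refine ⟨S.sft, ?_⟩
  rintro ⟨a, b, ha, hb, hne⟩
  obtain ⟨a', rfl, ha'⟩ := F.out ha
  obtain ⟨b', rfl, hb'⟩ := F.out hb
  exact ⟨a', b', ha', hb', fun e => hne (by rw [e])⟩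

theorem spc_iff {v : V'} : K'.Spc v ↔ K.Spc (S.f v) :=
  ⟨fun h => (S.spc_iff h.sft).1 h, fun h => (S.spc_iff (F.sft_iff.2 h.sft)).2 h⟩

theorem stab {v : V'} (h : H) (e : h • S.f v = S.f v) : ∃ k, S.φ k = h := by
  obtain ⟨k, hk, -⟩ := F.back e
  exact ⟨k, hk⟩

/-- the stabilisers are the same -/
noncomputable def stabIso (v : V') : ↥(stabilizer H' v) ≃* ↥(stabilizer H (S.f v)) :=
  S.stabIso F.stab

theorem map_stab (v : V') : (stabilizer H' v).map S.φ = stabilizer H (S.f v) := by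
  ext h
  constructor
  · rintro ⟨k, hk, rfl⟩
    have hk : k • v = v := hk
    rw [mem_stabilizer_iff, ← S.f_smul, hk]
  · intro h1
    obtain ⟨k, rfl, hk⟩ := F.back (mem_stabilizer_iff.1 h1)
    exact ⟨k, hk, rfl⟩

theorem fin_iff (v : V') : Finite ↥(stabilizer H' v) ↔ Finite ↥(stabilizer H (S.f v)) :=
  (F.stabIso v).toEquiv.finite_iff

theorem inf_iff (v : V') : Infinite ↥(stabilizer H' v) ↔ Infinite ↥(stabilizer H (S.f v)) := by
  rw [← not_finite_iff_infinite, ← not_finite_iff_infinite, F.fin_iff]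

theorem zt_iff (v : V') : Zt ↥(stabilizer H' v) ↔ Zt ↥(stabilizer H (S.f v)) :=
  ⟨fun h => h.of_inj (F.stabIso v).symm.toMonoidHom (F.stabIso v).symm.injective,
    fun h => h.of_inj (F.stabIso v).toMonoidHom (F.stabIso v).injective⟩

theorem rev_iff {v : V'} {k : H'} :
    Rev (stabilizer H' v) k ↔ Rev (stabilizer H (S.f v)) (S.φ k) := by
  constructor
  · exact S.rev_map fun x hx => by
      rw [mem_stabilizer_iff, ← S.f_smul, mem_stabilizer_iff.1 hx]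
  · rintro ⟨h1, t, ht, h2, h3⟩
    obtain ⟨t', rfl, ht'⟩ := F.back (mem_stabilizer_iff.1 ht)
    refine ⟨S.f_inj (by rw [S.f_smul]; exact h1), t', ht', (io_map S.φ S.φ_inj).1 h2, S.φ_inj ?_⟩
    rw [map_mul, map_mul, map_inv, map_inv]
    exact h3

/-- the characters of the vertices are the same -/
theorem neg_iff {a : V'} {k : H'} : Neg K'.ar a k ↔ Neg K.ar (S.f a) (S.φ k) := by
  constructor
  · rintro ⟨h1, h2⟩
    refine ⟨by rw [← S.f_smul, h1], ?_⟩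
    rcases h2 with ⟨h2, h3⟩ | ⟨p, q, hpq, hp, hq, h2⟩
    · exact Or.inl ⟨F.snk_iff.1 h2, F.rev_iff.1 h3⟩
    · exact Or.inr ⟨S.f p, S.f q, fun e => hpq (S.f_inj e), (S.ar_iff _ _).1 hp,
        (S.ar_iff _ _).1 hq, by rw [← S.f_smul, h2]⟩
  · rintro ⟨h1, h2⟩
    refine ⟨S.f_inj (by rw [S.f_smul]; exact h1), ?_⟩
    rcases h2 with ⟨h2, h3⟩ | ⟨p, q, hpq, hp, hq, h2⟩
    · exact Or.inl ⟨F.snk_iff.2 h2, F.rev_iff.2 h3⟩
    · obtain ⟨p', rfl, hp'⟩ := F.out hp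
      obtain ⟨q', rfl, hq'⟩ := F.out hq
      exact Or.inr ⟨p', q', fun e => hpq (by rw [e]), hp', hq',
        S.f_inj (by rw [S.f_smul]; exact h2)⟩

/-- corners at a vertex of the part come from the part -/
theorem cor {v : V'} {a b : V} (h : K.Cor a (S.f v) b) :
    ∃ a' b', S.f a' = a ∧ S.f b' = b ∧ K'.Cor a' v b' := by
  obtain ⟨a', rfl, ha⟩ := F.nbr (GX.EC_iff.2 ⟨_, h⟩).symm
  obtain ⟨b', rfl, hb⟩ := S.corner_back ha.E h
  exact ⟨a', b', rfl, rfl, hb⟩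

theorem cor_iff {a v b : V'} : K'.Cor a v b ↔ K.Cor (S.f a) (S.f v) (S.f b) := by
  refine ⟨S.corner, fun h => ?_⟩
  obtain ⟨a', b', h1, h2, h3⟩ := F.cor h
  rw [← S.f_inj h1, ← S.f_inj h2]
  exact h3

theorem EC_iff {v b : V'} : K'.EC v b ↔ K.EC (S.f v) (S.f b) := by
  refine ⟨S.EC, fun h => ?_⟩
  obtain ⟨b', h1, h2⟩ := F.nbr h
  rw [← S.f_inj h1]
  exact h2

/-- the orbits of vertices in cells correspond -/
theorem oc_eq {Q' : Set V'} {Q : Set V} (hQ : ∀ (h : H) v, v ∈ Q → h • v ∈ Q)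
    (hiff : ∀ v, v ∈ Q' ↔ S.f v ∈ Q) : oc H' Q' = oc H {v | v ∈ Q ∧ K.VC v} := by
  apply le_antisymm
  · refine oc_le_of_inj (K.fo _) S.f (fun v hv => ⟨(hiff v).1 hv, F.vc v⟩) ?_
    rintro v _ v' _ ⟨h, e⟩
    obtain ⟨k, -, hk⟩ := F.back e
    exact ⟨k, hk⟩
  · refine oc_le_of_surj (K'.fo _) S.f ?_ ?_
    · rintro v ⟨h1, h2⟩
      obtain ⟨g, v', rfl⟩ := F.surj h2
      refine ⟨v', (hiff v').2 ?_, g, rfl⟩
      have := hQ g⁻¹ _ h1
      rwa [inv_smul_smul] at this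
    · rintro a _ b _ ⟨h, rfl⟩
      exact ⟨S.φ h, (S.f_smul _ _).symm⟩

/-- the same for pairs -/
theorem oc_eq_pair {Q' : Set (V' × V')} {Q : Set (V × V)}
    (hQ : ∀ (h : H) p, p ∈ Q → h • p ∈ Q) (hE : ∀ p ∈ Q, K.E p.1 p.2)
    (hiff : ∀ p : V' × V', p ∈ Q' ↔ K'.EC p.1 p.2 ∧ (S.f p.1, S.f p.2) ∈ Q) :
    oc H' Q' = oc H {p | p ∈ Q ∧ K.EC p.1 p.2} := by
  apply le_antisymm
  · refine oc_le_of_inj (K.foE fun p hp => hE p hp.1) (fun p => (S.f p.1, S.f p.2))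
      (fun p hp => ⟨((hiff p).1 hp).2, S.EC ((hiff p).1 hp).1⟩) ?_
    rintro ⟨x, y⟩ hp ⟨x', y'⟩ hp' ⟨h, e⟩
    have e1 : h • S.f x = S.f x' := congrArg Prod.fst e
    have e2 : h • S.f y = S.f y' := congrArg Prod.snd e
    obtain ⟨k, rfl, hk⟩ := F.back e1
    refine ⟨k, Prod.ext hk (S.f_inj ?_)⟩
    rw [← e2]
    exact S.f_smul _ _
  · refine oc_le_of_surj (K'.foE fun p hp => ((hiff p).1 hp).1.E)
      (fun p => (S.f p.1, S.f p.2)) ?_ ?_
    · rintro ⟨x, y⟩ ⟨h1, h2⟩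
      obtain ⟨g, x', y', rfl, rfl, h3⟩ := S.EC_back F.all h2
      refine ⟨(x', y'), (hiff _).2 ⟨h3, ?_⟩, g, rfl⟩
      have := hQ g⁻¹ _ h1
      have e : g⁻¹ • ((g • S.f x', g • S.f y') : V × V) = (S.f x', S.f y') :=
        Prod.ext (inv_smul_smul _ _) (inv_smul_smul _ _)
      rwa [e] at this
    · rintro ⟨x, y⟩ _ ⟨x', y'⟩ _ ⟨h, e⟩
      have e1 : h • x = x' := congrArg Prod.fst e
      have e2 : h • y = y' := congrArg Prod.snd e
      refine ⟨S.φ h, ?_⟩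
      subst e1 e2
      exact Prod.ext (S.f_smul _ _).symm (S.f_smul _ _).symm

/-! ### the numbers -/

theorem nU_eq : K'.nU = oc H {v | v ∈ K.sU ∧ K.VC v} := by
  refine F.oc_eq ?_ ?_
  · rintro h v ⟨h1, h2, h3⟩
    exact ⟨h1.smul h, fun e => h2 ((GX.Spc_smul_iff h).1 e), (GX.fin_smul_iff h v).2 h3⟩
  · intro v
    exact and_congr F.sft_iff (and_congr (not_congr F.spc_iff) (F.fin_iff v))

theorem nW_eq : K'.nW = oc H {v | v ∈ K.sW ∧ K.VC v} := by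
  refine F.oc_eq ?_ ?_
  · rintro h v ⟨h1, h3⟩
    exact ⟨h1.smul h, (GX.fin_smul_iff h v).2 h3⟩
  · intro v
    exact and_congr F.spc_iff (F.fin_iff v)

theorem nV0_eq : K'.nV0 = oc H {v | v ∈ K.sV0 ∧ K.VC v} := by
  refine F.oc_eq ?_ ?_
  · rintro h v ⟨h1, h3⟩
    exact ⟨h1.smul h, (GX.fin_smul_iff h v).2 h3⟩
  · intro v
    exact and_congr F.snk_iff (F.fin_iff v)

theorem nVZ_eq : K'.nVZ = oc H {v | v ∈ K.sVZ ∧ K.VC v} := by
  refine F.oc_eq ?_ ?_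
  · rintro h v ⟨h1, h2, h3⟩
    refine ⟨h1.smul h, ?_, (GX.zt_smul_iff h v).2 h3⟩
    rw [← not_finite_iff_infinite, GX.fin_smul_iff, not_finite_iff_infinite]
    exact h2
  · intro v
    exact and_congr F.snk_iff (and_congr (F.inf_iff v) (F.zt_iff v))

theorem nVD_eq : K'.nVD = oc H {v | v ∈ K.sVD ∧ K.VC v} := by
  refine F.oc_eq ?_ ?_
  · rintro h v ⟨h1, h2, h3⟩
    refine ⟨h1.smul h, ?_, fun e => h3 ((GX.zt_smul_iff h v).1 e)⟩
    rw [← not_finite_iff_infinite, GX.fin_smul_iff, not_finite_iff_infinite]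
    exact h2
  · intro v
    exact and_congr F.snk_iff (and_congr (F.inf_iff v) (not_congr (F.zt_iff v)))

theorem nV_eq : K'.nV = K.nVc := by
  show oc H' {v | K'.Snk v} = oc H {v | K.Snk v ∧ K.VC v}
  exact F.oc_eq (Q := {v | K.Snk v}) (fun h v h1 => h1.smul h) fun v => F.snk_iff

theorem nVs_eq : K'.nVs = K.nVs := by
  have h1 : oc H' K'.sVs = oc H' K'.sV0 := by
    congr 1
    ext v
    exact ⟨fun h => ⟨h.1, h.2.1⟩, fun h => ⟨h.1, h.2, F.vc' v⟩⟩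
  show oc H' K'.sVs = oc H K.sVs
  rw [h1]
  show K'.nV0 = _
  rw [F.nV0_eq]
  congr 1
  ext v
  exact ⟨fun h => ⟨h.1.1, h.1.2, h.2⟩, fun h => ⟨⟨h.1, h.2.1⟩, h.2.2⟩⟩

theorem nVc_eq : K'.nVc = K.nVc := by
  rw [← F.nV_eq]
  show oc H' K'.sVc = oc H' {v | K'.Snk v}
  congr 1
  ext v
  exact ⟨fun h => h.1, fun h => ⟨h, F.vc' v⟩⟩

theorem fat_iff {v : V'} : K'.Fat v ↔ K.Fat (S.f v) := by
  constructor
  · rintro ⟨a, ha, h⟩
    exact ⟨S.f a, (S.ar_iff _ _).1 ha, by rwa [← S.lam_eq (Or.inl ha)]⟩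
  · rintro ⟨c, hc, h⟩
    obtain ⟨a, rfl, ha⟩ := F.out hc
    exact ⟨a, ha, by rwa [S.lam_eq (Or.inl ha)]⟩

theorem nFat_eq : K'.nFat = oc H {v | v ∈ K.sFat ∧ K.VC v} := by
  refine F.oc_eq ?_ ?_
  · rintro h v ⟨h1, h2, h3⟩
    exact ⟨h1.smul h, (GX.fin_smul_iff h v).2 h2, h3.smul h⟩
  · intro v
    exact and_congr F.spc_iff (and_congr (F.fin_iff v) F.fat_iff)

theorem nHv_eq : K'.nHv = K.nHv := by
  refine le_antisymm ?_ (S.nHv_le F.all)
  refine oc_le_of_inj (K.fo _) S.f ?_ ?_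
  · rintro v ⟨h1, n, h2, h3, h4⟩
    refine ⟨F.snk_iff.1 h1, S.f n, (S.ar_iff _ _).1 h2, S.EC h3, ?_⟩
    refine Infinite.of_injective (fun k : ↥(stabilizer H' ((n, v) : V' × V')) =>
      (⟨S.φ k.1, ?_⟩ : ↥(stabilizer H ((S.f n, S.f v) : V × V)))) ?_
    · have e1 : k.1 • n = n := congrArg Prod.fst (mem_stabilizer_iff.1 k.2)
      have e2 : k.1 • v = v := congrArg Prod.snd (mem_stabilizer_iff.1 k.2)
      rw [mem_stabilizer_iff]
      exact Prod.ext (show S.φ k.1 • S.f n = S.f n by rw [← S.f_smul, e1])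
        (show S.φ k.1 • S.f v = S.f v by rw [← S.f_smul, e2])
    · intro k l e
      exact Subtype.ext (S.φ_inj (congrArg Subtype.val e))
  · rintro v _ v' _ ⟨h, e⟩
    obtain ⟨k, -, hk⟩ := F.back e
    exact ⟨k, hk⟩

theorem nE_eq : K'.nE = oc H {p | p ∈ K.sE ∧ K.VC p.1} := by
  have e : {p : V × V | p ∈ K.sE ∧ K.VC p.1} = {p | p ∈ K.sE ∧ K.EC p.1 p.2} := by
    ext p
    exact ⟨fun h => ⟨h.1, F.ec _ _ h.2 h.1.1⟩, fun h => ⟨h.1, _, h.2⟩⟩
  rw [e]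
  refine F.oc_eq_pair ?_ (fun p hp => Or.inl hp.1) ?_
  · rintro h p ⟨h1, h2, h3⟩
    exact ⟨K.ar_smul h _ _ h1, h2.smul h, (GX.fin_smul_iff h p.1).2 h3⟩
  · rintro ⟨x, y⟩
    constructor
    · rintro ⟨h1, h2, h3⟩
      have h1 : K'.ar x y := h1
      exact ⟨F.EC_iff.2 (F.ec _ _ (F.vc x) ((S.ar_iff _ _).1 h1)), (S.ar_iff _ _).1 h1,
        F.sft_iff.1 h2, (F.fin_iff x).1 h3⟩
    · rintro ⟨-, h1, h2, h3⟩
      exact ⟨(S.ar_iff _ _).2 h1, F.sft_iff.2 h2, (F.fin_iff x).2 h3⟩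

/-! ### pieces -/

omit F in
theorem lkC_iff {s n m : V'} (hn : K'.ar n s) :
    LkC K'.ar K'.Cor s n m ↔ LkC K.ar K.Cor (S.f s) (S.f n) (S.f m) := by
  constructor
  · intro h
    unfold LkC at h ⊢
    clear hn
    induction h with
    | rel x y h =>
      exact Relation.EqvGen.rel _ _ ⟨(S.ar_iff _ _).1 h.1, (S.ar_iff _ _).1 h.2.1,
        S.corner h.2.2⟩
    | refl x => exact Relation.EqvGen.refl _
    | symm x y _ ih => exact ih.symm
    | trans x y z _ _ ih1 ih2 => exact ih1.trans _ _ _ ih2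
  · intro h
    obtain ⟨m', h1, -, h2⟩ := (S.lkC_back h).1 n rfl hn
    rw [← S.f_inj h1]
    exact h2

omit F in
theorem att_iff {s n : V'} (hs : K'.Sft s) (hn : K'.ar n s) :
    Att K'.ar K'.Cor s n ↔ Att K.ar K.Cor (S.f s) (S.f n) := by
  constructor
  · rintro ⟨m, c, h1, h2, h3⟩
    exact ⟨S.f m, S.f c, (lkC_iff hn).1 h1, (S.ar_iff _ _).1 h2, S.corner h3⟩
  · intro h
    obtain ⟨n', h1, -, h2⟩ := S.att_back hs ((S.ar_iff _ _).1 hn) h
    rw [← S.f_inj h1]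
    exact h2

/-- weak softs are the same -/
theorem weakA_iff {s : V'} : WeakA H' K'.ar K'.Cor s ↔ WeakA H K.ar K.Cor (S.f s) := by
  constructor
  · intro h
    have hs := GX.weakA_sft (K := K') h
    obtain ⟨h1, a, b, h2, h3, h4, h5, ⟨g0, h6, h7, h8⟩, h9⟩ := h
    refine ⟨(F.fin_iff s).1 h1, S.f a, S.f b, fun e => h2 (S.f_inj e), (S.ar_iff _ _).1 h3,
      (S.ar_iff _ _).1 h4, ?_, ?_, ?_⟩
    · intro g e1 e2
      obtain ⟨k, rfl, hk⟩ := F.back e1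
      have hka : k • a = a := S.f_inj (by rw [S.f_smul]; exact e2)
      rw [← F.neg_iff, ← F.neg_iff]
      exact h5 k hk hka
    · exact ⟨S.φ g0, by rw [← S.f_smul, h6], by rw [← S.f_smul, h7], F.neg_iff.1 h8⟩
    · intro n g hn hat e1 e2 hl
      obtain ⟨k, rfl, hk⟩ := F.back e1
      have hka : k • a = a := S.f_inj (by rw [S.f_smul]; exact e2)
      obtain ⟨n', rfl, hn', hat'⟩ := S.att_back hs hn hat
      rw [← S.f_smul, ← lkC_iff hn'] at hl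
      rw [← F.neg_iff]
      exact h9 n' k hn' hat' hk hka hl
  · rintro ⟨h1, a, b, h2, h3, h4, h5, ⟨g0, h6, h7, h8⟩, h9⟩
    obtain ⟨a, rfl, ha⟩ := F.out h3
    obtain ⟨b, rfl, hb⟩ := F.out h4
    have hne : a ≠ b := fun e => h2 (by rw [e])
    have hs : K'.Sft s := ⟨a, b, ha, hb, hne⟩
    refine ⟨(F.fin_iff s).2 h1, a, b, hne, ha, hb, ?_, ?_, ?_⟩
    · intro g e1 e2
      rw [F.neg_iff, F.neg_iff]
      exact h5 (S.φ g) (by rw [← S.f_smul, e1]) (by rw [← S.f_smul, e2])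
    · obtain ⟨k, rfl, hk⟩ := F.back h6
      have hka : k • a = a := S.f_inj (by rw [S.f_smul]; exact h7)
      exact ⟨k, hk, hka, F.neg_iff.2 h8⟩
    · intro n g hn hat e1 e2 hl
      rw [F.neg_iff]
      rw [lkC_iff (S := S) hn, S.f_smul] at hl
      exact h9 (S.f n) (S.φ g) ((S.ar_iff _ _).1 hn) ((att_iff hs hn).1 hat)
        (by rw [← S.f_smul, e1]) (by rw [← S.f_smul, e2]) hl

theorem nNu_eq (hinv : ∀ (h : H) (v : V), v ∈ K.sNu → h • v ∈ K.sNu) :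
    K'.nNu = oc H {v | v ∈ K.sNu ∧ K.VC v} :=
  F.oc_eq (Q' := K'.sNu) (Q := K.sNu) hinv fun v => F.weakA_iff (s := v)

end Full

/-! ### existence -/

/-- T0+ -/
theorem full (S : SubGX K' K)
    (h5 : ∀ i : K.I, 4 < (K.cw i).length → ∃ i', S.ι i' = i) (hLC : ∀ v, K'.LC v)
    (hb : ¬ SA H') (hVs : K'.nVl ≤ K.nVl)
    (hpq : ∀ v a b c, Finite ↥(stabilizer H v) → K.ar v a → K.ar v b → K.Cor a v c → K.LJ v a b)
    (hsq : ∀ v a, ¬ K.Snk v → Finite ↥(stabilizer H v) → K.EC v a →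
      ∃ b, K.LJ v a b ∧ (K.ar v b ∨ K.EL v b))
    (hcell : ∀ i : K.I, ∃ (x y z : V), (Cn2 x y (K.tb i 1) (K.tw i 1) ∨
      Cn2 y x (K.tb i 1) (K.tw i 1)) ∧ K.EL x z)
    (hL1 : ∀ v, K.Snk v → K.CLC v) (hL2 : ∀ v, ¬ K.Snk v → Infinite ↥(stabilizer H v) → K.LC v) :
    S.Full := by
  obtain ⟨h1, h2⟩ := S.clc h5 hLC hVs hpq hsq hL1 hL2
  refine ⟨h1, h2, ?_, K'.VC_all hLC hb⟩
  intro i
  obtain ⟨x, y, z, h3, h4⟩ := hcell i
  obtain ⟨g, x', z', rfl, rfl, h5'⟩ := S.EL_back h5 h4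
  -- the neighbours of `f x'` in cells come from the part
  have hec : K.EC (g • S.f x') y := ⟨i, 1, h3⟩
  have key : ∀ a b, K.LJ (g • S.f x') a b → ((∃ a', g • S.f a' = a ∧ K'.E x' a') ↔
      ∃ b', g • S.f b' = b ∧ K'.E x' b') := by
    intro a b h
    unfold GX.LJ at h
    induction h with
    | rel a b h =>
      have one : ∀ a b, K.Cor a (g • S.f x') b → (∃ a', g • S.f a' = a ∧ K'.E x' a') →
          ∃ b', g • S.f b' = b ∧ K'.E x' b' := by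
        rintro a b h ⟨a', rfl, ha⟩
        have h' := h.smul g⁻¹
        rw [inv_smul_smul, inv_smul_smul] at h'
        obtain ⟨b', hb', hb⟩ := S.corner_back ha h'
        exact ⟨b', by rw [hb', smul_inv_smul], hb.E2⟩
      exact ⟨one _ _ h, one _ _ h.symm⟩
    | refl a => exact Iff.rfl
    | symm a b _ ih => exact ih.symm
    | trans a b c _ _ ih1 ih2 => exact ih1.trans ih2
  obtain ⟨y', rfl, hy'⟩ := (key _ _ (h1 _ _ _ h4.ec hec)).1 ⟨z', rfl, h5'.ec.E⟩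
  have h6 : Cn2 (S.f x') (S.f y') (K.tb i (g⁻¹ * 1)) (K.tw i (g⁻¹ * 1)) ∨
      Cn2 (S.f y') (S.f x') (K.tb i (g⁻¹ * 1)) (K.tw i (g⁻¹ * 1)) := by
    rw [K.tb_mul, K.tw_mul]
    rcases h3 with h3 | h3
    · have := h3.map (fun z => g⁻¹ • z)
      simp only [inv_smul_smul] at this
      exact Or.inl this
    · have := h3.map (fun z => g⁻¹ • z)
      simp only [inv_smul_smul] at this
      exact Or.inr this
  rcases h6 with h6 | h6
  · obtain ⟨i', -, h7, -⟩ := S.back i _ _ _ hy' h6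
    exact ⟨i', h7⟩
  · obtain ⟨i', -, h7, -⟩ := S.back i _ _ _ hy'.symm h6
    exact ⟨i', h7⟩

/-- T0+ for pentagon complexes -/
theorem full_pt (S : SubGX K' K) (P : Pt K) (hm : K.Min)
    (hall : ∀ i : K.I, ∃ i', S.ι i' = i) (hLC : ∀ v, K'.LC v) (hb : ¬ SA H')
    (P' : Pt K') (hVs : K'.nVs ≤ K.nVs)
    (hL1 : ∀ v, K.Snk v → K.CLC v) (hL2 : ∀ v, ¬ K.Snk v → Infinite ↥(stabilizer H v) → K.LC v) :
    S.Full := by
  obtain ⟨h1, h2⟩ := S.clc (fun i _ => hall i) hLC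
    (by rwa [GX.nVl_eq P, GX.nVl_eq P'])
    (fun v a b c _ ha hb hc => pole_join P hm ha hb hc)
    (fun v a _ _ h => ⟨a, Relation.EqvGen.refl _, Or.inr (GX.EC_el P h)⟩) hL1 hL2
  exact ⟨h1, h2, hall, K'.VC_all hLC hb⟩

end SubGX

end Pool.Agent.DI
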