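import Pool.Agent.DI.CutF
import Pool.Agent.DI.P5Def

/-!
# DI/CutP5: the numbers of the tail along a full part with the same group

`Full.p4_le`, `Full.p5_le`: `p_4`, `p_5` do not rise. `Full.nVD_of`, `nVZ_of`: the numbers of the sinks are the same
if all sinks are in cells.
-/

namespace Pool.Agent.DI

open MulAction
open Pool.Agent.SAF (InC SA orbs FinOrb oc)
open Pool.Agent.SAG (Zt)

namespace SubGX.Full

variable {H' V' H V : Type} [Group H'] [MulAction H' V'] [Group H] [MulAction H V]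
  {K' : GX H' V'} {K : GX H V} {S : SubGX K' K} (F : S.Full)

include F

theorem p4_le (hφ : Function.Surjective S.φ) : K'.p4 ≤ K.p4 :=
  (S.p4_le hφ F.all fun _ _ h => F.snk_iff.1 h).1

theorem p5_le (hφ : Function.Surjective S.φ) : K'.p5 ≤ K.p5 :=
  (S.p4_le hφ F.all fun _ _ h => F.snk_iff.1 h).2

theorem nVD_of (hv : ∀ v, K.Snk v → K.VC v) : K'.nVD = K.nVD := by
  rw [F.nVD_eq]
  show _ = oc H K.sVD
  congr 1
  ext v
  exact ⟨fun h => h.1, fun h => ⟨h, hv v h.1⟩⟩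

theorem nVD_le : K'.nVD ≤ K.nVD := by
  rw [F.nVD_eq]
  exact Pool.Agent.SAF.oc_mono (K.fo _) fun v h => h.1

theorem nVZ_of (hv : ∀ v, K.Snk v → K.VC v) : K'.nVZ = K.nVZ := by
  rw [F.nVZ_eq]
  show _ = oc H K.sVZ
  congr 1
  ext v
  exact ⟨fun h => h.1, fun h => ⟨h, hv v h.1⟩⟩

end SubGX.Full

end Pool.Agent.DI
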