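import Pool.Agent.DI.FCa
import Pool.Agent.DI.CutF

/-!
# DI/FCut: the cut (T0) for complexes with flags

`FSub S C' C`: `S : SubGX K' K` is a part, `C'`, `C` are the flags; all cells belong to the part.
`FC.part`, `FC.partSub`: a part `S` with all cells of a complex whose flags are corners of cells of `K`
inherits the flags.
No hypothesis on links: `FSub.oc_eq` (orbits of flags), `FSub.exc_eq` (the pole excess is the same),
`FSub.Pc_eq`, `FSub.grp_iff` (pieces and their groups), `FSub.oc_pieces` (orbits of pieces with a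
strand and an invariant property).
-/

namespace Pool.Agent.DI

open MulAction
open Pool.Agent.SAF (InC SA orbs FinOrb oc FinOrb_iff mk_eq_iff exists_rep oc_le_of_inj
  oc_le_of_surj oc_mono oc_lt_of_inj)
open Pool.Agent.SAG (IO Zt)

variable {H' V' H V F F' : Type} [Group H'] [MulAction H' V'] [Group H] [MulAction H V]
  [MulAction H F] [MulAction H' F'] {K' : GX H' V'} {K : GX H V}

/-- a part with flags, all cells belong to the part -/
structure FSub (S : SubGX K' K) (C' : FC K' F') (C : FC K F) where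
  ψ : F' → F
  ψ_inj : Function.Injective ψ
  ψ_smul : ∀ h f, ψ (h • f) = S.φ h • ψ f
  ψ_y : ∀ f, C.y (ψ f) = S.f (C'.y f)
  ψ_r : ∀ f, C.r (ψ f) = ψ (C'.r f)
  ψ_v : ∀ f, C.v (ψ f) = ψ (C'.v f)
  ψ_sq : ∀ f, C.sq (ψ f) ↔ C'.sq f
  all : ∀ f : F, ∃ (g : H) (f' : F'), g • ψ f' = f
  back : ∀ (f : F) (a b : V'), K'.E a b → C.y f = S.f a → C.z f = S.f b → ∃ f', ψ f' = f

namespace FSub

variable {S : SubGX K' K} {C' : FC K' F'} {C : FC K F} (T : FSub S C' C)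

include T

theorem ψ_z (f : F') : C.z (T.ψ f) = S.f (C'.z f) := by
  unfold FC.z
  rw [T.ψ_r, T.ψ_y]

theorem ψ_x (f : F') : C.x (T.ψ f) = S.f (C'.x f) := by
  unfold FC.x
  rw [T.ψ_v, T.ψ_r, T.ψ_y]

theorem back_x {f : F} {a b : V'} (e : K'.E a b) (h1 : C.y f = S.f a) (h2 : C.x f = S.f b) :
    ∃ f', T.ψ f' = f := by
  obtain ⟨f', h⟩ := T.back (C.v f) a b e (by rw [C.yv, h1]) (by rw [C.zv, h2])
  exact ⟨C'.v f', by rw [← T.ψ_v, h, C.vv]⟩

/-- translates of a flag inside the part are translates in the part -/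
theorem trans_back {h : H} {f f' : F'} (e : h • T.ψ f = T.ψ f') : ∃ k, S.φ k = h ∧ k • f = f' := by
  have e1 : h • S.f (C'.y f) = S.f (C'.y f') := by rw [← T.ψ_y, ← T.ψ_y, ← e, C.y_smul]
  have e2 : h • S.f (C'.z f) = S.f (C'.z f') := by rw [← T.ψ_z, ← T.ψ_z, ← e, C.z_smul]
  obtain ⟨k, rfl⟩ := S.edge _ _ _ _ h (C'.Ez f) (C'.Ez f') e1 e2
  exact ⟨k, rfl, T.ψ_inj (by rw [T.ψ_smul]; exact e)⟩

/-- the orbits of flags with an invariant property are the same -/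
theorem oc_eq {A' : Set F'} {A : Set F} (hA : ∀ (h : H), ∀ f ∈ A, h • f ∈ A)
    (hiff : ∀ f, f ∈ A' ↔ T.ψ f ∈ A) : oc H' A' = oc H A := by
  apply le_antisymm
  · refine oc_le_of_inj (C.fin_sub A) T.ψ (fun f hf => (hiff f).1 hf) ?_
    rintro f _ f' _ ⟨h, e⟩
    obtain ⟨k, -, hk⟩ := T.trans_back e
    exact ⟨k, hk⟩
  · refine oc_le_of_surj (C'.fin_sub A') T.ψ ?_ ?_
    · intro f hf
      obtain ⟨g, f', rfl⟩ := T.all f
      refine ⟨f', (hiff f').2 ?_, g, rfl⟩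
      have := hA g⁻¹ _ hf
      rwa [inv_smul_smul] at this
    · rintro a _ b _ ⟨h, rfl⟩
      exact ⟨S.φ h, (T.ψ_smul _ _).symm⟩

theorem strs_iff (f : F') : f ∈ C'.strs ↔ T.ψ f ∈ C.strs := by
  show (K'.ar (C'.x f) (C'.y f) ∧ K'.ar (C'.y f) (C'.z f)) ↔
    (K.ar (C.x (T.ψ f)) (C.y (T.ψ f)) ∧ K.ar (C.y (T.ψ f)) (C.z (T.ψ f)))
  rw [T.ψ_x, T.ψ_y, T.ψ_z, S.ar_iff, S.ar_iff]

theorem fin2_iff (f : F') : f ∈ C'.fin2 ↔ T.ψ f ∈ C.fin2 := by
  show (K'.ar (C'.x f) (C'.y f) ∧ K'.ar (C'.z f) (C'.y f)) ↔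
    (K.ar (C.x (T.ψ f)) (C.y (T.ψ f)) ∧ K.ar (C.z (T.ψ f)) (C.y (T.ψ f)))
  rw [T.ψ_x, T.ψ_y, T.ψ_z, S.ar_iff, S.ar_iff]

theorem oc_strs : oc H' C'.strs = oc H C.strs := T.oc_eq (fun h => C.strs_inv h) T.strs_iff

theorem oc_fin2 : oc H' C'.fin2 = oc H C.fin2 := T.oc_eq (fun h => C.fin2_inv h) T.fin2_iff

/-! ### corners and pieces -/

theorem co_map {a y b : V'} (h : C'.Co a y b) : C.Co (S.f a) (S.f y) (S.f b) := by
  obtain ⟨f, rfl, rfl, rfl⟩ := h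
  exact ⟨T.ψ f, T.ψ_x f, T.ψ_y f, T.ψ_z f⟩

theorem co_back {a y : V'} {b : V} (e : K'.E y a) (h : C.Co (S.f a) (S.f y) b) :
    ∃ b', S.f b' = b ∧ C'.Co a y b' := by
  obtain ⟨f, h1, h2, rfl⟩ := h
  obtain ⟨f', rfl⟩ := T.back_x e h2 h1
  refine ⟨C'.z f', (T.ψ_z f').symm, f', S.f_inj ?_, S.f_inj ?_, rfl⟩
  · rw [← T.ψ_x, h1]
  · rw [← T.ψ_y, h2]

theorem co_iff {a y b : V'} (e : K'.E y a) : C'.Co a y b ↔ C.Co (S.f a) (S.f y) (S.f b) := by
  refine ⟨T.co_map, fun h => ?_⟩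
  obtain ⟨b', h1, h2⟩ := T.co_back e h
  rwa [S.f_inj h1] at h2

theorem ij_map {y a b : V'} (h : C'.IJ y a b) : C.IJ (S.f y) (S.f a) (S.f b) := by
  unfold FC.IJ at h ⊢
  induction h with
  | rel a b h =>
    exact Relation.EqvGen.rel _ _ ⟨T.co_map h.1, (S.ar_iff _ _).1 h.2.1, (S.ar_iff _ _).1 h.2.2⟩
  | refl a => exact Relation.EqvGen.refl _
  | symm a b _ ih => exact ih.symm
  | trans a b c _ _ ih1 ih2 => exact ih1.trans _ _ _ ih2

/-- the pieces with a vertex in the part belong to the part -/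
theorem ij_back {y : V'} {a b : V} (h : C.IJ (S.f y) a b) :
    (∀ a', S.f a' = a → K'.ar a' y → ∃ b', S.f b' = b ∧ K'.ar b' y ∧ C'.IJ y a' b') ∧
    ∀ b', S.f b' = b → K'.ar b' y → ∃ a', S.f a' = a ∧ K'.ar a' y ∧ C'.IJ y a' b' := by
  unfold FC.IJ at h
  induction h with
  | rel a b h =>
    have one : ∀ a b, C.IC (S.f y) a b → ∀ a', S.f a' = a → K'.ar a' y →
        ∃ b', S.f b' = b ∧ K'.ar b' y ∧ C'.IJ y a' b' := by
      rintro a b ⟨h1, _, h3⟩ a' rfl ha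
      obtain ⟨b', rfl, hc⟩ := T.co_back (Or.inr ha) h1
      have hb : K'.ar b' y := (S.ar_iff _ _).2 h3
      exact ⟨b', rfl, hb, Relation.EqvGen.rel _ _ ⟨hc, ha, hb⟩⟩
    refine ⟨one a b h, fun b' hb' hb => ?_⟩
    obtain ⟨a', h1, h2, h3⟩ := one b a h.symm' b' hb' hb
    exact ⟨a', h1, h2, h3.symm'⟩
  | refl a => exact ⟨fun a' h1 h2 => ⟨a', h1, h2, Relation.EqvGen.refl _⟩,
      fun a' h1 h2 => ⟨a', h1, h2, Relation.EqvGen.refl _⟩⟩
  | symm a b _ ih =>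
    refine ⟨fun a' h1 h2 => ?_, fun a' h1 h2 => ?_⟩
    · obtain ⟨m', h3, h4, h5⟩ := ih.2 a' h1 h2
      exact ⟨m', h3, h4, h5.symm'⟩
    · obtain ⟨m', h3, h4, h5⟩ := ih.1 a' h1 h2
      exact ⟨m', h3, h4, h5.symm'⟩
  | trans a b c _ _ ih1 ih2 =>
    refine ⟨fun n' h1 h2 => ?_, fun n' h1 h2 => ?_⟩
    · obtain ⟨m', h3, h4, h5⟩ := ih1.1 n' h1 h2
      obtain ⟨l', h6, h7, h8⟩ := ih2.1 m' h3 h4
      exact ⟨l', h6, h7, h5.trans' h8⟩
    · obtain ⟨m', h3, h4, h5⟩ := ih2.2 n' h1 h2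
      obtain ⟨l', h6, h7, h8⟩ := ih1.2 m' h3 h4
      exact ⟨l', h6, h7, h8.trans' h5⟩

theorem ij_iff {y a b : V'} (ha : K'.ar a y) : C'.IJ y a b ↔ C.IJ (S.f y) (S.f a) (S.f b) := by
  refine ⟨T.ij_map, fun h => ?_⟩
  obtain ⟨b', h1, -, h2⟩ := (T.ij_back h).1 a rfl ha
  rwa [S.f_inj h1] at h2

theorem Pc_eq {y n : V'} (hn : K'.ar n y) : S.f '' C'.Pc y n = C.Pc (S.f y) (S.f n) := by
  ext m
  constructor
  · rintro ⟨m', hm, rfl⟩
    exact T.ij_map hm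
  · intro hm
    obtain ⟨m', h1, -, h2⟩ := (T.ij_back hm).1 n rfl hn
    exact ⟨m', h2, h1⟩

/-- the group of a piece is the same -/
theorem grp {y n : V'} (hn : K'.ar n y) {h : H} (h1 : h • S.f y = S.f y)
    (h2 : C.IJ (S.f y) (S.f n) (h • S.f n)) :
    ∃ k, S.φ k = h ∧ k • y = y ∧ C'.IJ y n (k • n) := by
  obtain ⟨m, h3, h4, h5⟩ := (T.ij_back h2).1 n rfl hn
  obtain ⟨k, rfl⟩ := S.edge y n y m h (Or.inr hn) (Or.inr h4) h1 h3.symm
  refine ⟨k, rfl, S.f_inj (by rw [S.f_smul]; exact h1), ?_⟩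
  have : k • n = m := S.f_inj (by rw [S.f_smul]; exact h3.symm)
  rw [this]
  exact h5

/-! ### the nodes -/

/-- the map of the nodes -/
def nf : NF V' F' → NF V F
  | NF.inn y n => NF.inn (S.f y) (S.f n)
  | NF.mid X => NF.mid (T.ψ '' X)
  | NF.pol y a P => NF.pol (S.f y) (S.f a) (S.f '' P)

theorem nf_smul (k : H') (t : NF V' F') : T.nf (k • t) = S.φ k • T.nf t := by
  cases t with
  | inn y n =>
    show NF.inn (S.f (k • y)) (S.f (k • n)) = NF.inn (S.φ k • S.f y) (S.φ k • S.f n)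
    rw [S.f_smul, S.f_smul]
  | mid X =>
    show NF.mid (T.ψ '' ((fun x => k • x) '' X)) = NF.mid ((fun x => S.φ k • x) '' (T.ψ '' X))
    rw [Set.image_image, Set.image_image]
    simp only [T.ψ_smul]
  | pol y a P =>
    show NF.pol (S.f (k • y)) (S.f (k • a)) (S.f '' ((fun x => k • x) '' P)) =
      NF.pol (S.φ k • S.f y) (S.φ k • S.f a) ((fun x => S.φ k • x) '' (S.f '' P))
    rw [Set.image_image, Set.image_image, S.f_smul, S.f_smul]
    simp only [S.f_smul]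

theorem nf_inj : Function.Injective T.nf := by
  intro s t h
  cases s with
  | inn y n =>
    cases t with
    | inn y' n' =>
      obtain ⟨h1, h2⟩ := NF.inn.inj h
      rw [S.f_inj h1, S.f_inj h2]
    | mid X => cases h
    | pol y a P => cases h
  | mid X =>
    cases t with
    | inn y' n' => cases h
    | mid X' =>
      have h1 := NF.mid.inj h
      rw [Set.image_injective.2 T.ψ_inj h1]
    | pol y a P => cases h
  | pol y a P =>
    cases t with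
    | inn y' n' => cases h
    | mid X => cases h
    | pol y' a' P' =>
      obtain ⟨h1, h2, h3⟩ := NF.pol.inj h
      rw [S.f_inj h1, S.f_inj h2, Set.image_injective.2 S.f_inj h3]

theorem oc_pols : oc H' C'.pols = oc H C.pols := by
  apply le_antisymm
  · refine oc_le_of_inj C.fin_pols T.nf ?_ ?_
    · rintro _ ⟨y, a, n, rfl, h1, h2, h3⟩
      refine ⟨S.f y, S.f a, S.f n, ?_, (S.ar_iff _ _).1 h1, (S.ar_iff _ _).1 h2, T.co_map h3⟩
      show NF.pol (S.f y) (S.f a) (S.f '' C'.Pc y n) = _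
      rw [T.Pc_eq h2]
    · rintro _ ⟨y, a, n, rfl, h1, h2, h3⟩ _ ⟨y', a', n', rfl, h1', h2', h3'⟩ ⟨h, e⟩
      obtain ⟨e1, e2, -⟩ := NF.pol.inj e
      obtain ⟨k, rfl⟩ := S.edge y a y' a' h (Or.inl h1) (Or.inl h1') e1 e2
      refine ⟨k, T.nf_inj ?_⟩
      rw [T.nf_smul]
      exact e
  · refine oc_le_of_surj C'.fin_pols T.nf ?_ ?_
    · rintro _ ⟨y, a, n, rfl, h1, h2, ⟨f, rfl, rfl, rfl⟩⟩
      obtain ⟨g, f', rfl⟩ := T.all f
      have e1 : C.y (g • T.ψ f') = g • S.f (C'.y f') := by rw [C.y_smul, T.ψ_y]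
      have e2 : C.z (g • T.ψ f') = g • S.f (C'.z f') := by rw [C.z_smul, T.ψ_z]
      have e3 : C.x (g • T.ψ f') = g • S.f (C'.x f') := by rw [C.x_smul, T.ψ_x]
      have h1' : K'.ar (C'.y f') (C'.z f') := by
        rw [S.ar_iff]
        rw [e1, e2] at h1
        exact GX.ar_smul_iff g |>.1 h1
      have h2' : K'.ar (C'.x f') (C'.y f') := by
        rw [S.ar_iff]
        rw [e1, e3] at h2
        exact GX.ar_smul_iff g |>.1 h2
      refine ⟨NF.pol (C'.y f') (C'.z f') (C'.Pc (C'.y f') (C'.x f')),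
        ⟨_, _, _, rfl, h1', h2', FC.co f'⟩, g, ?_⟩
      show NF.pol (g • S.f (C'.y f')) (g • S.f (C'.z f')) ((fun x => g • x) ''
        (S.f '' C'.Pc (C'.y f') (C'.x f'))) = _
      rw [T.Pc_eq h2', FC.Pc_smul, e1, e2, e3]
    · rintro a _ b _ ⟨h, rfl⟩
      exact ⟨S.φ h, (T.nf_smul _ _).symm⟩

/-- THE POLE EXCESS DOES NOT CHANGE -/
theorem exc_eq : C'.exc = C.exc := by
  unfold FC.exc
  rw [T.oc_strs, T.oc_pols]

/-! ### orbits of arrows, pieces, strands at an arrow -/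

/-- the number of orbits of flags at an arrow of the part is the same -/
theorem oc_at {y a : V'} (e : K'.E y a) :
    oc H' {f | ∃ k : H', k • C'.y f = y ∧ k • C'.z f = a} =
      oc H {f | ∃ h : H, h • C.y f = S.f y ∧ h • C.z f = S.f a} := by
  refine T.oc_eq ?_ ?_
  · rintro g f ⟨h, h1, h2⟩
    refine ⟨h * g⁻¹, ?_, ?_⟩
    · rw [C.y_smul, mul_smul, inv_smul_smul, h1]
    · rw [C.z_smul, mul_smul, inv_smul_smul, h2]
  · intro f
    constructor
    · rintro ⟨k, rfl, rfl⟩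
      exact ⟨S.φ k, by rw [T.ψ_y, S.f_smul], by rw [T.ψ_z, S.f_smul]⟩
    · rintro ⟨h, h1, h2⟩
      rw [T.ψ_y] at h1
      rw [T.ψ_z] at h2
      obtain ⟨k, rfl⟩ := S.edge _ _ _ _ h (C'.Ez f) e h1 h2
      exact ⟨k, S.f_inj (by rw [S.f_smul]; exact h1), S.f_inj (by rw [S.f_smul]; exact h2)⟩

/-- orbits of pairs of adjacent vertices which lie in cells -/
theorem oc_pairs {Q' : Set (V' × V')} {Q : Set (V × V)} (hQ : ∀ (h : H), ∀ p ∈ Q, h • p ∈ Q)
    (hs' : ∀ p ∈ Q', ∃ f, C'.y f = p.1 ∧ C'.z f = p.2)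
    (hs : ∀ p ∈ Q, ∃ f, C.y f = p.1 ∧ C.z f = p.2)
    (hiff : ∀ f, (C'.y f, C'.z f) ∈ Q' ↔ (S.f (C'.y f), S.f (C'.z f)) ∈ Q) :
    oc H' Q' = oc H Q := by
  have e' : ∀ p ∈ Q', K'.E p.1 p.2 := by
    intro p hp
    obtain ⟨f, h1, h2⟩ := hs' p hp
    rw [← h1, ← h2]
    exact C'.Ez f
  have e : ∀ p ∈ Q, K.E p.1 p.2 := by
    intro p hp
    obtain ⟨f, h1, h2⟩ := hs p hp
    rw [← h1, ← h2]
    exact C.Ez f
  have key : ∀ p ∈ Q', (S.f p.1, S.f p.2) ∈ Q := by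
    rintro ⟨x, y⟩ hp
    obtain ⟨f, h1, h2⟩ := hs' _ hp
    have h1 : C'.y f = x := h1
    have h2 : C'.z f = y := h2
    subst h1 h2
    exact (hiff f).1 hp
  apply le_antisymm
  · refine oc_le_of_inj (K.foE e) (fun p => (S.f p.1, S.f p.2)) key ?_
    rintro ⟨x, y⟩ hp ⟨x', y'⟩ hp' ⟨h, e0⟩
    have e1 : h • S.f x = S.f x' := congrArg Prod.fst e0
    have e2 : h • S.f y = S.f y' := congrArg Prod.snd e0
    obtain ⟨k, rfl⟩ := S.edge _ _ _ _ h (e' _ hp) (e' _ hp') e1 e2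
    exact ⟨k, Prod.ext (S.f_inj (by rw [← e1]; exact S.f_smul _ _))
      (S.f_inj (by rw [← e2]; exact S.f_smul _ _))⟩
  · refine oc_le_of_surj (K'.foE e') (fun p => (S.f p.1, S.f p.2)) ?_ ?_
    · rintro ⟨x, y⟩ hp
      obtain ⟨f, h1, h2⟩ := hs _ hp
      have h1 : C.y f = x := h1
      have h2 : C.z f = y := h2
      subst h1 h2
      obtain ⟨g, f', rfl⟩ := T.all f
      rw [C.y_smul, C.z_smul, T.ψ_y, T.ψ_z] at hp ⊢
      refine ⟨(C'.y f', C'.z f'), (hiff f').2 ?_, g, rfl⟩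
      have := hQ g⁻¹ _ hp
      have e0 : g⁻¹ • ((g • S.f (C'.y f'), g • S.f (C'.z f')) : V × V) =
          (S.f (C'.y f'), S.f (C'.z f')) := Prod.ext (inv_smul_smul _ _) (inv_smul_smul _ _)
      rwa [e0] at this
    · rintro ⟨x, y⟩ _ ⟨x', y'⟩ _ ⟨h, e0⟩
      have e1 : h • x = x' := congrArg Prod.fst e0
      have e2 : h • y = y' := congrArg Prod.snd e0
      refine ⟨S.φ h, ?_⟩
      subst e1 e2
      exact Prod.ext (S.f_smul _ _).symm (S.f_smul _ _).symm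

/-- orbits of pieces (codes) of the corners with an invariant property -/
theorem oc_codes {A' : Set F'} {A : Set F} (hA : ∀ (h : H), ∀ f ∈ A, h • f ∈ A)
    (hiff : ∀ f, f ∈ A' ↔ T.ψ f ∈ A) (ha : ∀ f ∈ A, K.ar (C.x f) (C.y f)) :
    oc H' ((fun f => (NF.pol (C'.y f) (C'.y f) (C'.Pc (C'.y f) (C'.x f)) : NF V' F')) '' A') =
      oc H ((fun f => (NF.pol (C.y f) (C.y f) (C.Pc (C.y f) (C.x f)) : NF V F)) '' A) := by
  have ha' : ∀ f ∈ A', K'.ar (C'.x f) (C'.y f) := by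
    intro f hf
    have := ha _ ((hiff f).1 hf)
    rw [T.ψ_x, T.ψ_y] at this
    exact (S.ar_iff _ _).2 this
  have fin : FinOrb H ((fun f => (NF.pol (C.y f) (C.y f) (C.Pc (C.y f) (C.x f)) : NF V F)) '' A) := by
    refine SAF.FinOrb.mono ?_ C.fin_pcs
    rintro _ ⟨f, hf, rfl⟩
    exact ⟨_, _, rfl, ha f hf⟩
  have fin' : FinOrb H'
      ((fun f => (NF.pol (C'.y f) (C'.y f) (C'.Pc (C'.y f) (C'.x f)) : NF V' F')) '' A') := by
    refine SAF.FinOrb.mono ?_ C'.fin_pcs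
    rintro _ ⟨f, hf, rfl⟩
    exact ⟨_, _, rfl, ha' f hf⟩
  have code : ∀ f, K'.ar (C'.x f) (C'.y f) → T.nf (NF.pol (C'.y f) (C'.y f)
      (C'.Pc (C'.y f) (C'.x f))) = NF.pol (C.y (T.ψ f)) (C.y (T.ψ f))
      (C.Pc (C.y (T.ψ f)) (C.x (T.ψ f))) := by
    intro f hf
    show NF.pol (S.f (C'.y f)) (S.f (C'.y f)) (S.f '' C'.Pc (C'.y f) (C'.x f)) = _
    rw [T.Pc_eq hf, T.ψ_x, T.ψ_y]
  apply le_antisymm
  · refine oc_le_of_inj fin T.nf ?_ ?_
    · rintro _ ⟨f, hf, rfl⟩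
      exact ⟨T.ψ f, (hiff f).1 hf, (code f (ha' f hf)).symm⟩
    · rintro _ ⟨f, hf, rfl⟩ _ ⟨f', hf', rfl⟩ ⟨h, e⟩
      obtain ⟨e1, -, e3⟩ := NF.pol.inj e
      have hmem : h • S.f (C'.x f) ∈ S.f '' C'.Pc (C'.y f') (C'.x f') := by
        rw [← e3]
        exact ⟨S.f (C'.x f), ⟨_, FC.self_Pc _ _, rfl⟩, rfl⟩
      obtain ⟨m, hm, e4⟩ := hmem
      have hm : C'.IJ (C'.y f') (C'.x f') m := hm
      have harm : K'.ar m (C'.y f') := hm.ar.1 (ha' f' hf')
      obtain ⟨k, rfl⟩ := S.edge _ _ _ _ h (Or.inr (ha' f hf)) (Or.inr harm) e1 e4.symm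
      refine ⟨k, T.nf_inj ?_⟩
      rw [T.nf_smul]
      exact e
  · refine oc_le_of_surj fin' T.nf ?_ ?_
    · rintro _ ⟨f, hf, rfl⟩
      obtain ⟨g, f', rfl⟩ := T.all f
      have hf' : f' ∈ A' := by
        rw [hiff]
        have := hA g⁻¹ _ hf
        rwa [inv_smul_smul] at this
      refine ⟨_, ⟨f', hf', rfl⟩, g, ?_⟩
      show g • T.nf (NF.pol (C'.y f') (C'.y f') (C'.Pc (C'.y f') (C'.x f'))) =
        NF.pol (C.y (g • T.ψ f')) (C.y (g • T.ψ f')) (C.Pc (C.y (g • T.ψ f')) (C.x (g • T.ψ f')))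
      rw [code f' (ha' f' hf'), NF.smul_pol, FC.Pc_smul, C.y_smul, C.x_smul]
    · rintro a _ b _ ⟨h, rfl⟩
      exact ⟨S.φ h, (T.nf_smul _ _).symm⟩

end FSub

/-! ### the flags of a part -/

namespace FC

variable (S : SubGX K' K) (C : FC K F)

/-- the flags with an edge in the part -/
def PF : Type := {f : F // ∃ a b : V', K'.E a b ∧ C.y f = S.f a ∧ C.z f = S.f b}

variable {C}

instance : MulAction H' (PF S C) where
  smul k f := ⟨S.φ k • f.1, by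
    obtain ⟨a, b, e, h1, h2⟩ := f.2
    exact ⟨k • a, k • b, K'.E_smul k e, by rw [C.y_smul, h1, S.f_smul],
      by rw [C.z_smul, h2, S.f_smul]⟩⟩
  one_smul f := Subtype.ext (by
    show S.φ 1 • f.1 = f.1
    rw [map_one, one_smul])
  mul_smul a b f := Subtype.ext (by
    show S.φ (a * b) • f.1 = S.φ a • S.φ b • f.1
    rw [map_mul, mul_smul])

theorem PF.smul_val (k : H') (f : PF S C) : (k • f).1 = S.φ k • f.1 := rfl

variable {S}

/-- the vertex of a flag of the part -/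
noncomputable def PF.vy (f : PF S C) : V' := Classical.choose f.2

theorem PF.vy_spec (f : PF S C) : C.y f.1 = S.f f.vy := by
  obtain ⟨b, e, h1, h2⟩ := Classical.choose_spec f.2
  exact h1

/-- the rotation -/
def PF.rot (hcor : ∀ f, K.Cor (C.x f) (C.y f) (C.z f)) (f : PF S C) : PF S C :=
  ⟨C.r f.1, by
    obtain ⟨a, b, e, h1, h2⟩ := f.2
    have h3 := hcor (C.r f.1)
    rw [C.xr, h1] at h3
    have h4 : C.y (C.r f.1) = S.f b := h2
    rw [h4] at h3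
    obtain ⟨c, h5, h6⟩ := S.corner_back e.symm h3
    exact ⟨b, c, h6.E2, h2, h5.symm⟩⟩

/-- the reflection -/
def PF.ref (hcor : ∀ f, K.Cor (C.x f) (C.y f) (C.z f)) (f : PF S C) : PF S C :=
  ⟨C.v f.1, by
    obtain ⟨a, b, e, h1, h2⟩ := f.2
    have h3 := (hcor f.1).symm
    rw [h1, h2] at h3
    obtain ⟨c, h5, h6⟩ := S.corner_back e h3
    exact ⟨a, c, h6.E2, by rw [C.yv, h1], by rw [C.zv, h5]⟩⟩

variable (S)

/-- THE FLAGS OF A PART -/
noncomputable def part (hcor : ∀ f, K.Cor (C.x f) (C.y f) (C.z f)) : FC K' (PF S C) where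
  y f := f.vy
  r f := f.rot hcor
  v f := f.ref hcor
  sq f := C.sq f.1
  y_smul k f := by
    apply S.f_inj
    rw [← PF.vy_spec, S.f_smul, ← PF.vy_spec]
    exact C.y_smul _ _
  r_smul k f := Subtype.ext (C.r_smul _ _)
  v_smul k f := Subtype.ext (C.v_smul _ _)
  sq_smul k f := C.sq_smul _ _
  vv f := Subtype.ext (C.vv _)
  rv f := Subtype.ext (C.rv _)
  yv f := by
    apply S.f_inj
    rw [← PF.vy_spec, ← PF.vy_spec]
    exact C.yv _
  E f := by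
    rw [S.E_iff, ← PF.vy_spec, ← PF.vy_spec]
    exact C.E _
  sq_r f := C.sq_r _
  sq_v f := C.sq_v _
  r4 f h := Subtype.ext (C.r4 _ h)
  r5 f h := Subtype.ext (C.r5 _ h)
  ne f h := by
    intro e
    have e := congrArg S.f e
    rw [← PF.vy_spec, ← PF.vy_spec] at e
    exact C.ne _ h e
  fin := by
    refine SAF.FinOrb.of_inj C.fin (fun f : PF S C => f.1) (fun _ _ => trivial) ?_
    rintro ⟨f, a, b, e, h1, h2⟩ _ ⟨f', a', b', e', h1', h2'⟩ _ ⟨h, e0⟩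
    have e0 : h • f = f' := e0
    have e1 : h • S.f a = S.f a' := by rw [← h1, ← h1', ← e0, C.y_smul]
    have e2 : h • S.f b = S.f b' := by rw [← h2, ← h2', ← e0, C.z_smul]
    obtain ⟨k, rfl⟩ := S.edge _ _ _ _ h e e' e1 e2
    exact ⟨k, Subtype.ext e0⟩

theorem part_y (hcor : ∀ f, K.Cor (C.x f) (C.y f) (C.z f)) (f : PF S C) :
    C.y f.1 = S.f ((part S hcor).y f) := PF.vy_spec f

/-- the part with its flags -/
noncomputable def partSub (hcor : ∀ f, K.Cor (C.x f) (C.y f) (C.z f))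
    (hall : ∀ i : K.I, ∃ i', S.ι i' = i) : FSub S (part S hcor) C where
  ψ f := f.1
  ψ_inj := Subtype.val_injective
  ψ_smul _ _ := rfl
  ψ_y f := part_y S hcor f
  ψ_r _ := rfl
  ψ_v _ := rfl
  ψ_sq _ := Iff.rfl
  all f := by
    have h1 : K.EC (C.z f) (C.y f) := GX.EC_iff.2 ⟨_, (hcor f).symm⟩
    obtain ⟨g, a, b, h2, h3, h4⟩ := S.EC_back hall h1.symm
    refine ⟨g, ⟨g⁻¹ • f, a, b, h4.E, ?_, ?_⟩, smul_inv_smul _ _⟩
    · rw [C.y_smul, ← h2, inv_smul_smul]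
    · rw [C.z_smul, ← h3, inv_smul_smul]
  back f a b e h1 h2 := ⟨⟨f, a, b, e, h1, h2⟩, rfl⟩

end FC

namespace SubGX

/-- the `Z`-sinks in cells do not become fewer, if the finite sinks in cells do not become more -/
theorem nVZ_ge (S : SubGX K' K) (hall : ∀ i : K.I, ∃ i', S.ι i' = i) (hVs : K'.nVs ≤ K.nVs) :
    oc H {v | v ∈ K.sVZ ∧ K.VC v} ≤ K'.nVZ := by
  refine oc_le_of_surj (K'.fo _) S.f ?_ ?_
  · rintro v ⟨⟨h1, h2, h3⟩, y, h4⟩
    obtain ⟨g, v', y', rfl, rfl, h5⟩ := S.EC_back hall h4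
    rw [GX.Snk_smul_iff] at h1
    rw [GX.zt_smul_iff] at h3
    rw [GX.inf_smul_iff] at h2
    have hz : Zt ↥(stabilizer H' v') := by
      refine h3.of_inj (((S.φ.comp (stabilizer H' v').subtype).codRestrict _ (fun k => ?_))) ?_
      · have hk : k.1 • v' = v' := k.2
        show S.φ k.1 • S.f v' = S.f v'
        rw [← S.f_smul, hk]
      · intro a b e
        exact Subtype.ext (S.φ_inj (congrArg Subtype.val e))
    refine ⟨v', ⟨S.snk h1, ?_, hz⟩, g, rfl⟩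
    by_contra hcon
    rw [not_infinite_iff_finite] at hcon
    -- a new finite sink
    have h6 : K.nVs ≤ oc H' {v | v ∈ K'.sVs ∧ Finite ↥(stabilizer H (S.f v))} := by
      refine oc_le_of_surj (K'.fo _) S.f ?_ ?_
      · rintro v ⟨k1, k4, y, k2⟩
        obtain ⟨g, x', y', rfl, rfl, k3⟩ := S.EC_back hall k2
        rw [GX.Snk_smul_iff] at k1
        rw [GX.fin_smul_iff] at k4
        exact ⟨x', ⟨⟨S.snk k1, S.fin_of k4, y', k3⟩, k4⟩, g, rfl⟩
      · rintro a _ b _ ⟨h, rfl⟩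
        exact ⟨S.φ h, (S.f_smul _ _).symm⟩
    have h7 : oc H' {v | v ∈ K'.sVs ∧ Finite ↥(stabilizer H (S.f v))} < K'.nVs := by
      refine oc_lt_of_inj (K'.fo _) (fun x => x) (fun x hx => hx.1) (fun x _ y _ h => h)
        (b0 := v') ⟨S.snk h1, hcon, y', h5⟩ ?_
      rintro x ⟨_, hx⟩ h rfl
      rw [S.f_smul, ← not_finite_iff_infinite, GX.fin_smul_iff] at h2
      exact h2 hx
    omega
  · rintro a _ b _ ⟨h, rfl⟩
    exact ⟨S.φ h, (S.f_smul _ _).symm⟩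

namespace Full

variable {S : SubGX K' K}

/-- if every vertex in no cell has at most one neighbour then the group of the part is the whole
group -/
theorem surj_of_leaf (Fu : S.Full) (hl : ∀ v, ¬ K.VC v → ∃ a, ∀ b, K.E v b → b = a) :
    (∀ h : H, ∃ k, S.φ k = h) ∧ ∀ v, K.VC v → ∃ v', S.f v' = v := by
  -- a vertex joined to the part is in the part, or it is a leaf hanging at the part
  obtain ⟨o⟩ := K'.ne
  have key : ∀ x, Relation.ReflTransGen K.E (S.f o) x → (∃ x', S.f x' = x) ∨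
      (¬ K.VC x ∧ ∃ x', K.E (S.f x') x) := by
    intro x hx
    induction hx with
    | refl => exact Or.inl ⟨o, rfl⟩
    | @tail b c _ e ih =>
      rcases ih with ⟨b', rfl⟩ | ⟨hb, b', hb'⟩
      · by_cases hc : K.VC c
        · -- both ends are in cells
          have hec : K.EC (S.f b') c := by
            rcases e with e | e
            · exact Fu.ec _ _ (Fu.vc b') e
            · exact (Fu.ec _ _ hc e).symm
          obtain ⟨c', h1, -⟩ := Fu.nbr hec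
          exact Or.inl ⟨c', h1⟩
        · exact Or.inr ⟨hc, b', e⟩
      · obtain ⟨a, ha⟩ := hl b hb
        have h1 := ha c e
        have h2 := ha _ hb'.symm
        exact Or.inl ⟨b', by rw [h1, h2]⟩
  have hv : ∀ v, K.VC v → ∃ v', S.f v' = v := fun v h =>
    (key v (K.conn _ _)).resolve_right fun k => k.1 h
  refine ⟨fun h => ?_, hv⟩
  obtain ⟨v', hv'⟩ := hv (h • S.f o) ((Fu.vc o).smul h)
  obtain ⟨k, hk, -⟩ := Fu.back hv'.symm
  exact ⟨k, hk⟩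

end Full

end SubGX

end Pool.Agent.DI
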