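import Pool.Agent.DI.NxC
import Pool.Agent.DI.SpT
import Pool.Agent.DI.FCut

/-!
# Transport of the pole excess to the next state

`S : SubGX K' K` with all cells in the part. `S.fsub`: the flags of the listed cells of the part, as flags of
a part (`FSub`). `S.pexc_all`: `K'.pexc = K.pexc`; `S.oc_spT`, `S.nSp_eq`, `S.exc_all`: `P'.exc = P.exc`.
`P.thin_pexc_of`, `P.thin_exc`: without parallel squares nothing changes in the thinned complex.
`Nxt.pexc`, `Nxt.nSp`, `Nxt.exc`, `Nxt.exc_thin`: the next state.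
-/

namespace Pool.Agent.DI

open MulAction
open Pool.Agent.SAF (InC SA orbs FinOrb oc FinOrb_iff oc_le_of_inj oc_le_of_surj oc_mono)
open P45

namespace SubGX

variable {H' V' H V : Type} [Group H'] [MulAction H' V'] [Group H] [MulAction H V]
  {K' : GX H' V'} {K : GX H V} (S : SubGX K' K) (P' : P45 K') (P : P45 K)

theorem le_inj {e e' : K'.LE} (h : S.le e = S.le e') : e = e' := by
  have h1 : S.pos e.1 = S.pos e'.1 := congrArg Prod.fst h
  have h2 := S.pos_inj h1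
  have h3 : S.φ e.2 * S.le1 e.1.1 = S.φ e'.2 * S.le1 e'.1.1 := congrArg Prod.snd h
  rw [h2] at h3
  exact Prod.ext h2 (S.φ_inj (mul_right_cancel h3))

theorem fl_inj : Function.Injective S.fl := fun f f' h =>
  Prod.ext (S.le_inj (congrArg (fun z : FL K => z.1) h)) (congrArg (fun z : FL K => z.2) h)

theorem le_nx (e : K'.LE) : K.nx (S.le e) = S.le (K'.nx e) := by
  obtain ⟨⟨i, j⟩, h⟩ := e
  refine K.le_ext ?_
  have e : K.len (S.ι i) = K'.len i := (S.len_eq i).symm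
  exact congrArg (fun n => (j.1 + 1) % n) e

theorem le_pv (e : K'.LE) : K.pv (S.le e) = S.le (K'.pv e) := by
  have h := S.le_nx (K'.pv e)
  rw [K'.nx_pv] at h
  rw [← h, K.pv_nx]

/-- THE FLAGS OF THE PART -/
noncomputable def fsub (nd' : P'.ND) (nd : P.ND) (hall : ∀ i : K.I, ∃ i', S.ι i' = i) :
    FSub S (P'.fc nd') (P.fc nd) where
  ψ := S.fl
  ψ_inj := S.fl_inj
  ψ_smul := S.fl_smul
  ψ_y f := S.le_c1 f.1
  ψ_r f := by
    obtain ⟨e, b⟩ := f
    cases b
    · exact Prod.ext (S.le_pv e) rfl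
    · exact Prod.ext (S.le_nx e) rfl
  ψ_v f := rfl
  ψ_sq f := (S.psq P' P _).symm
  all f := by
    obtain ⟨e, b⟩ := f
    obtain ⟨h, e', rfl⟩ := S.le_surj' hall e
    exact ⟨h, (e', b), rfl⟩
  back f a b he h1 h2 := by
    obtain ⟨e, c⟩ := f
    cases c
    · have h2 : K.c0 e = S.f b := by rw [← P.fc_z' nd e]; exact h2
      have h1 : K.c1 e = S.f a := h1
      obtain ⟨e', rfl⟩ := S.le_at0 he.symm h2 h1
      exact ⟨(e', false), rfl⟩
    · have h2 : K.c2 e = S.f b := by rw [← P.fc_z nd e]; exact h2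
      have h1 : K.c1 e = S.f a := h1
      obtain ⟨e', rfl⟩ := S.le_at he h1 h2
      exact ⟨(e', true), rfl⟩

/-- THE POLE EXCESS OF A PART WITH ALL CELLS -/
theorem pexc_all (nd' : P'.ND) (nd : P.ND) (hall : ∀ i : K.I, ∃ i', S.ι i' = i) :
    K'.pexc = K.pexc := by
  rw [← P'.fc_exc nd', ← P.fc_exc nd]
  exact (S.fsub P' P nd' nd hall).exc_eq

/-- the special tops of a part with all cells -/
theorem oc_spT (hall : ∀ i : K.I, ∃ i', S.ι i' = i) {E : V → Prop} (hs : P.SqE E) :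
    oc H' P'.spT = oc H P.spT := by
  apply le_antisymm
  · refine oc_le_of_inj fin_spT S.f ?_ ?_
    · rintro T ⟨a, b, y, k, g, hg, hb⟩
      refine ⟨S.f a, S.f b, S.f y, (S.top_iff P' P).1 k, S.φ g, ?_, ?_⟩
      · rw [← S.f_smul, hg]
      · rw [← S.f_smul, hb]
    · rintro T ⟨a, b, y, k, -⟩ T' ⟨a', b', y', k', -⟩ ⟨h, e⟩
      have k1 := ((S.top_iff P' P).1 k)
      have k2 := ((S.top_iff P' P).1 k')
      have h1 := K.ar_smul h _ _ k1.2.1
      rw [e] at h1
      have h2 : ∃ c, K'.ar T' c ∧ h • S.f a = S.f c := by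
        rcases hs.sides k2 h1 with e | e
        · exact ⟨a', k'.2.1, e⟩
        · exact ⟨b', k'.2.2, e⟩
      obtain ⟨c, hc, e2⟩ := h2
      obtain ⟨k, rfl⟩ := S.edge T a T' c h (Or.inl k.2.1) (Or.inl hc) e e2
      exact ⟨k, S.f_inj (by rw [S.f_smul]; exact e)⟩
  · refine oc_le_of_surj fin_spT S.f ?_ ?_
    · rintro T ⟨a, b, y, k, g, hg, hb⟩
      obtain ⟨h, a', T', b', y', rfl, rfl, rfl, rfl, hq⟩ := S.q4_all P' P hall k.1
      have t : P'.Top T' a' b' y' := ⟨hq, (S.ar_iff _ _).2 ((GX.ar_smul_iff h).1 k.2.1),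
        (S.ar_iff _ _).2 ((GX.ar_smul_iff h).1 k.2.2)⟩
      have e1 : (h⁻¹ * g * h) • S.f T' = S.f T' := by
        rw [mul_smul, mul_smul, hg, inv_smul_smul]
      have e2 : (h⁻¹ * g * h) • S.f a' = S.f b' := by
        rw [mul_smul, mul_smul, hb, inv_smul_smul]
      obtain ⟨k', hk'⟩ := S.edge T' a' T' b' _ (Or.inl t.2.1) (Or.inl t.2.2) e1 e2
      refine ⟨T', ⟨a', b', y', t, k', S.f_inj ?_, S.f_inj ?_⟩, h, rfl⟩
      · rw [S.f_smul, hk', e1]
      · rw [S.f_smul, hk', e2]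
    · rintro a _ b _ ⟨h, rfl⟩
      exact ⟨S.φ h, (S.f_smul h a).symm⟩

theorem nSp_eq (hall : ∀ i : K.I, ∃ i', S.ι i' = i) {E : V → Prop} (hs : P.SqE E) :
    P'.nSp = P.nSp := by
  rw [P45.nSp_eq hs, P45.nSp_eq (S.sqE P' P hs), S.oc_spT P' P hall hs]

/-- THE EXCESS OF A PART WITH ALL CELLS -/
theorem exc_all (nd' : P'.ND) (nd : P.ND) (hall : ∀ i : K.I, ∃ i', S.ι i' = i) {E : V → Prop}
    (hs : P.SqE E) : P'.exc = P.exc := by
  unfold P45.exc
  rw [S.pexc_all P' P nd' nd hall, S.nSp_eq P' P hall hs]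

end SubGX

namespace P45

variable {H V : Type} [Group H] [MulAction H V] {K : GX H V} (P : P45 K)

theorem thin_Pc (y n : V) : P.thin.Pc y n = K.Pc y n := by
  unfold GX.Pc GX.IJ GX.IC
  simp only [P.thin_Cor]
  rfl

theorem thin_pols : P.thin.pols = K.pols := by
  unfold GX.pols
  simp only [P.thin_Cor, P.thin_Pc]
  rfl

/-- the strands, without parallel squares -/
theorem thin_strs (hp : P.NoPl) : oc H P.thin.strs = oc H K.strs := by
  refine (oc_img P.tE (fun _ _ => rfl) (fun _ _ h => P.tE_inj h) ?_).symm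
  ext e
  constructor
  · rintro ⟨g, hg, rfl⟩
    exact hg
  · intro he
    exact ⟨((⟨⟨e.1.1, hp.rp e.1.1⟩, e.1.2⟩, e.2) : P.thin.LE), he, rfl⟩

theorem thin_pexc_of (hp : P.NoPl) : P.thin.pexc = K.pexc := by
  unfold GX.pexc
  rw [P.thin_strs hp, P.thin_pols]

theorem thin_sSp : P.thinP.sSp = P.sSp := by
  unfold sSp
  simp only [P.thin_Top, P.thin_Spc]

theorem thin_nSp : P.thinP.nSp = P.nSp := by
  unfold nSp
  rw [P.thin_sSp]

/-- THE EXCESS OF THE THINNED COMPLEX, without parallel squares -/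
theorem thin_exc (hp : P.NoPl) : P.thinP.exc = P.exc := by
  unfold exc
  rw [P.thin_pexc_of hp, P.thin_nSp]

/-- no square is degenerate in the static class -/
theorem SqE.nd {P : P45 K} {E : V → Prop} (hs : P.SqE E) : P.ND := by
  intro i hi
  obtain ⟨j, hj⟩ := hs.top i hi
  have k := P.tp_Top hi hj
  have n1 := hs.nab _ _ _ _ k
  have n2 := hs.nTy _ _ _ _ k
  fin_cases j
  · exact ⟨n2, n1⟩
  · exact ⟨n1.symm, n2⟩
  · exact ⟨n2.symm, n1.symm⟩
  · exact ⟨n1, n2.symm⟩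

end P45

namespace Nxt

variable {H V : Type} [Group H] [MulAction H V] {K : GX H V} {P : P45 K} {C' : St} (N : Nxt P C')

include N

theorem pexc (nd : P.ND) : C'.K.pexc = K.pexc := N.sub.pexc_all C'.P P C'.nd nd N.all

theorem nSp {E : V → Prop} (hs : P.SqE E) : C'.P.nSp = P.nSp := N.sub.nSp_eq C'.P P N.all hs

/-- THE EXCESS OF THE NEXT STATE -/
theorem exc {E : V → Prop} (hs : P.SqE E) : C'.P.exc = P.exc :=
  N.sub.exc_all C'.P P C'.nd hs.nd N.all hs

end Nxt

/-- THE EXCESS OF THE NEXT STATE, the next state is a part of the thinned complex -/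
theorem Nxt.exc_thin {H V : Type} [Group H] [MulAction H V] {K : GX H V} {P : P45 K} {C' : St}
    (N : Nxt P.thinP C') {E : V → Prop} (hs : P.thinP.SqE E) (hp : P.NoPl) :
    C'.P.exc = P.exc := by
  rw [N.exc hs, P.thin_exc hp]

end Pool.Agent.DI
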