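import Pool.Agent.DI.TFo
import Pool.Agent.DI.Xt0

/-!
# DI/TpS: the tops of the static class as tops with partners

`P.SqT` (DI/Xt0) gives a unique partner for every top (`SqT.partner`) of smaller rank (`SqT.rk_lt`), every square
has a top (`SqT.q4`). `SqT.tpF`: the fold (`TpF`, DI/TFo) of an invariant set of tops.
-/

namespace Pool.Agent.DI

open MulAction
open Pool.Agent.SAF (InC orbs FinOrb oc)

namespace P45

variable {H V : Type} [Group H] [MulAction H V] {K : GX H V} {P : P45 K}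

theorem tp.top {i : K.I} (hi : P.sq i) {j : Fin 4} (h : P.tp i j) :
    P.Top (P.qt i j) (P.qt i (j + 1)) (P.qt i (j + 3)) (P.qt i (j + 2)) := by
  have e0 : ∀ j : Fin 4, j + 3 + 1 = j := by decide
  have e1 : ∀ j : Fin 4, j + 3 + 2 = j + 1 := by decide
  have e2 : ∀ j : Fin 4, j + 3 + 3 = j + 2 := by decide
  have k := Q4_qt (P := P) (1 : H) hi (j + 3)
  simp only [one_smul, e0, e1, e2] at k
  exact ⟨k.symm, h.1, h.2⟩

/-- the place of a top -/
theorem Top.tpos {T a b y : V} (h : P.Top T a b y) : ∃ (g : H) (i : K.I) (j : Fin 4), P.sq i ∧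
    P.tp i j ∧ T = g • P.qt i j ∧ y = g • P.qt i (j + 2) := by
  obtain ⟨⟨g, i, j, hi, hh⟩, ha, hb⟩ := h
  have e0 : ∀ j : Fin 4, j + 1 + 1 = j + 2 := by decide
  have e1 : ∀ j : Fin 4, j + 1 + 3 = j := by decide
  have e2 : ∀ j : Fin 4, j + 1 + 2 = j + 3 := by decide
  have back : ∀ {x z : V}, K.ar (g • x) (g • z) → K.ar x z := by
    intro x z k
    have := K.ar_smul g⁻¹ _ _ k
    rwa [inv_smul_smul, inv_smul_smul] at this
  refine ⟨g, i, j + 1, hi, ?_, ?_, ?_⟩
  · unfold P45.tp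
    rw [e0, e1]
    rcases hh with ⟨rfl, rfl, rfl, rfl⟩ | ⟨rfl, rfl, rfl, rfl⟩
    · exact ⟨back hb, back ha⟩
    · exact ⟨back ha, back hb⟩
  · rcases hh with ⟨rfl, rfl, rfl, rfl⟩ | ⟨rfl, rfl, rfl, rfl⟩ <;> rfl
  · rw [e2]
    rcases hh with ⟨rfl, rfl, rfl, rfl⟩ | ⟨rfl, rfl, rfl, rfl⟩ <;> rfl

namespace SqT

variable (hT : P.SqT)

include hT

theorem rk_lt {T a b y : V} (h : P.Top T a b y) : K.rk y < K.rk T := by
  rcases (hT.side T a b y h).resolve_left id with k | k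
  · exact (K.ar_rk _ _ k).trans (K.ar_rk _ _ h.2.1)
  · exact (K.ar_rk _ _ k).trans (K.ar_rk _ _ h.2.2)

/-- a square has one top -/
theorem tp_unique {i : K.I} (hi : P.sq i) {j j' : Fin 4} (h : P.tp i j) (h' : P.tp i j') :
    j = j' := by
  have asym : ∀ {x z : V}, K.ar x z → K.ar z x → False := by
    intro x z k1 k2
    have := K.ar_rk _ _ k1
    have := K.ar_rk _ _ k2
    omega
  have key : ∀ j : Fin 4, P.tp i j → ¬ P.tp i (j + 1) := by
    intro j h h'
    have e : ∀ j : Fin 4, j + 1 + 3 = j := by decide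
    have k := h'.2
    rw [e] at k
    exact asym h.1 k
  have key2 : ∀ j : Fin 4, P.tp i j → ¬ P.tp i (j + 2) := by
    intro j h h'
    have e : ∀ j : Fin 4, j + 2 + 1 = j + 3 := by decide
    have e3 : ∀ j : Fin 4, j + 2 + 3 = j + 1 := by decide
    have k1 := h'.1
    have k2 := h'.2
    rw [e] at k1
    rw [e3] at k2
    rcases (hT.side _ _ _ _ (h.top hi)).resolve_left id with k | k
    · exact asym k k2
    · exact asym k k1
  have hc : ∀ j j' : Fin 4, j' = j ∨ j' = j + 1 ∨ j' = j + 2 ∨ j = j' + 1 := by decide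
  rcases hc j j' with e | e | e | e
  · exact e.symm
  · rw [e] at h'
    exact absurd h' (key j h)
  · rw [e] at h'
    exact absurd h' (key2 j h)
  · rw [e] at h
    exact absurd h (key j' h')

/-- THE PARTNER IS UNIQUE -/
theorem partner {T a b y a' b' y' : V} (h : P.Top T a b y) (h' : P.Top T a' b' y') : y = y' :=
  (hT.par _ _ _ _ _ _ _ h h').resolve_left id

/-- every square has a top -/
theorem q4 {a q b y : V} (h : Q4 P a q b y) : P.Top a y q b ∨ P.Top q a b y ∨ P.Top b q y a ∨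
    P.Top y b a q := by
  have key : ∀ (a q b y : V) (g : H) (i : K.I) (j : Fin 4), P.sq i → a = g • P.qt i j →
      q = g • P.qt i (j + 1) → b = g • P.qt i (j + 2) → y = g • P.qt i (j + 3) →
      P.Top a y q b ∨ P.Top q a b y ∨ P.Top b q y a ∨ P.Top y b a q := by
    intro a q b y g i j hi h1 h2 h3 h4
    obtain ⟨j', ht⟩ := hT.top i hi
    have k := (ht.top hi).smul g
    have hc : ∀ j j' : Fin 4, j' = j ∨ j' = j + 1 ∨ j' = j + 2 ∨ j' = j + 3 := by decide
    rcases hc j j' with e | e | e | e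
    · rw [e, ← h1, ← h2, ← h3, ← h4] at k
      exact Or.inl k.symm'
    · rw [e] at k
      have e1 : ∀ j : Fin 4, j + 1 + 1 = j + 2 := by decide
      have e2 : ∀ j : Fin 4, j + 1 + 2 = j + 3 := by decide
      have e3 : ∀ j : Fin 4, j + 1 + 3 = j := by decide
      rw [e1, e2, e3, ← h1, ← h2, ← h3, ← h4] at k
      exact Or.inr (Or.inl k.symm')
    · rw [e] at k
      have e1 : ∀ j : Fin 4, j + 2 + 1 = j + 3 := by decide
      have e2 : ∀ j : Fin 4, j + 2 + 2 = j := by decide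
      have e3 : ∀ j : Fin 4, j + 2 + 3 = j + 1 := by decide
      rw [e1, e2, e3, ← h1, ← h2, ← h3, ← h4] at k
      exact Or.inr (Or.inr (Or.inl k.symm'))
    · rw [e] at k
      have e1 : ∀ j : Fin 4, j + 3 + 1 = j := by decide
      have e2 : ∀ j : Fin 4, j + 3 + 2 = j + 1 := by decide
      have e3 : ∀ j : Fin 4, j + 3 + 3 = j + 2 := by decide
      rw [e1, e2, e3, ← h1, ← h2, ← h3, ← h4] at k
      exact Or.inr (Or.inr (Or.inr k.symm'))
  obtain ⟨g, i, j, hi, ⟨h1, h2, h3, h4⟩ | ⟨h1, h2, h3, h4⟩⟩ := h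
  · exact key a q b y g i j hi h1 h2 h3 h4
  · rcases key b q a y g i j hi h1 h2 h3 h4 with k | k | k | k
    · exact Or.inr (Or.inr (Or.inl k.symm'))
    · exact Or.inr (Or.inl k.symm')
    · exact Or.inl k.symm'
    · exact Or.inr (Or.inr (Or.inr k.symm'))

omit hT in
open Classical in
variable (P) in
/-- the partner -/
noncomputable def pt (T : V) : V := if h : ∃ y, ∃ a b, P.Top T a b y then h.choose else T

theorem pt_eq {T a b y : V} (h : P.Top T a b y) : pt P T = y := by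
  have h' : ∃ y, ∃ a b, P.Top T a b y := ⟨y, a, b, h⟩
  unfold pt
  rw [dif_pos h']
  obtain ⟨a', b', k⟩ := h'.choose_spec
  exact hT.partner k h

/-- THE FOLD OF AN INVARIANT SET OF TOPS -/
noncomputable def tpF (Z : V → Prop) (hZ : ∀ (h : H) v, Z v → Z (h • v))
    (hZT : ∀ v, Z v → ∃ a b y, P.Top v a b y) : TpF K where
  Z := Z
  pi := pt P
  Z_smul := hZ
  pi_smul h v hv := by
    obtain ⟨a, b, y, k⟩ := hZT v hv
    rw [hT.pt_eq k, hT.pt_eq (k.smul h)]
  pi_rk v hv := by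
    obtain ⟨a, b, y, k⟩ := hZT v hv
    rw [hT.pt_eq k]
    exact hT.rk_lt k
  pi_E v c hv hc := by
    obtain ⟨a, b, y, k⟩ := hZT v hv
    rw [hT.pt_eq k]
    rcases K.two v a b c k.2.1 k.2.2 hc with e | e | e
    · exact absurd e (hT.nab _ _ _ _ k)
    · rw [← e]
      exact k.Eb.symm
    · rw [← e]
      exact k.Ea.symm
  ex v hv := by
    obtain ⟨a, b, y, k⟩ := hZT v hv
    exact ⟨a, k.2.1⟩

/-- squares with folded tops degenerate -/
theorem deg (Z : V → Prop) (hZ : ∀ (h : H) v, Z v → Z (h • v))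
    (hZT : ∀ v, Z v → ∃ a b y, P.Top v a b y) {a q b y : V} (h : Q4 P a q b y)
    (hz : ∀ T a' b' y', P.Top T a' b' y' → T = a ∨ T = q ∨ T = b ∨ T = y →
      y' = a ∨ y' = q ∨ y' = b ∨ y' = y → a' = a ∨ a' = q ∨ a' = b ∨ a' = y →
      b' = a ∨ b' = q ∨ b' = b ∨ b' = y → Z T) :
    (hT.tpF Z hZ hZT).f a = (hT.tpF Z hZ hZT).f b ∨
      (hT.tpF Z hZ hZT).f q = (hT.tpF Z hZ hZT).f y := by
  have key : ∀ {T a' b' y' : V}, P.Top T a' b' y' → Z T →
      (hT.tpF Z hZ hZT).f T = (hT.tpF Z hZ hZT).f y' := by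
    intro T a' b' y' k hZT'
    rw [(hT.tpF Z hZ hZT).f_pi hZT']
    exact congrArg _ (hT.pt_eq k)
  rcases hT.q4 h with k | k | k | k
  · exact Or.inl (key k (hz _ _ _ _ k (by tauto) (by tauto) (by tauto) (by tauto)))
  · exact Or.inr (key k (hz _ _ _ _ k (by tauto) (by tauto) (by tauto) (by tauto)))
  · exact Or.inl (key k (hz _ _ _ _ k (by tauto) (by tauto) (by tauto) (by tauto))).symm
  · exact Or.inr (key k (hz _ _ _ _ k (by tauto) (by tauto) (by tauto) (by tauto))).symm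

end SqT

end P45

end Pool.Agent.DI
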