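import Pool.Agent.DI.StF
import Pool.Agent.DI.CuS
import Pool.Agent.DI.TpS

/-!
# DI/HDL: the links of the total fold are connected

`P45.cut0`: in a minimal complex let `v` be soft with poles `a ≠ b`, the top of all squares at `v`, and let
the edge `v a` lie in a pentagon. Then `a`, `b` are joined in the link of `v` by corners of pentagons.
`SqE.real`: if `1 ≤ X` for all tops, the edge from a top `T` to a pole lies in a pentagon of the fold of all
tops of rank `> rk T`. `SqE.hd`: the hypothesis `HD` of `TpF.LC_gx`. `St.fold`: the fold of a state.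
-/

namespace Pool.Agent.DI

open MulAction
open Pool.Agent.SAF (InC SA orbs FinOrb oc Decomp)
open Pool.Agent.BT (PX PQ JS bey exits Ell mst)

namespace P45

variable {H V : Type} [Group H] [MulAction H V] {K : GX H V} (P : P45 K)

/-- the pentagons as a partial description -/
def hpg : PG K where
  five i := ¬ P.sq i
  pt := P.pt
  cb_eq i hi := P.cb5 i hi
  cw_eq i hi := P.cw5 i hi

theorem hpos5 {i : K.I} (hi : ¬ P.sq i) (j : ℕ) :
    Qn P (K.vx i j) (K.vx i (j + 1)) (K.vx i (j + 2)) (K.vx i (j + 3)) (K.vx i (j + 4)) := by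
  have e : ∀ k : ℕ, K.vx i (j + k) = (1 : H) • P.pt i (Fin.ofNat 5 j + Fin.ofNat 5 k) := by
    intro k
    rw [one_smul, P.tvx5 hi]
    congr 1
    ext
    simp [Fin.val_add]
  refine ⟨1, i, Fin.ofNat 5 j, hi, Or.inl ⟨?_, e 1, e 2, e 3, e 4⟩⟩
  have := e 0
  rw [add_zero] at this
  rw [this]
  congr 2
  exact add_zero _

theorem hpos4 {i : K.I} (hi : P.sq i) (j : ℕ) :
    Q4 P (K.vx i j) (K.vx i (j + 1)) (K.vx i (j + 2)) (K.vx i (j + 3)) := by
  have e : ∀ k : ℕ, K.vx i (j + k) = (1 : H) • P.qt i (Fin.ofNat 4 j + Fin.ofNat 4 k) := by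
    intro k
    rw [one_smul, P.tvx4 hi]
    congr 1
    ext
    simp [Fin.val_add]
  refine ⟨1, i, Fin.ofNat 4 j, hi, Or.inl ⟨?_, e 1, e 2, e 3⟩⟩
  have := e 0
  rw [add_zero] at this
  rw [this]
  congr 2
  exact add_zero _

/-- a pentagon has a position -/
theorem hpos_of {a q b y z : V} (h : Qn P a q b y z) : ∃ (p : K.Pos) (g : H), ¬ P.sq p.1 ∧
    ((K.vx p.1 p.2 = g • a ∧ K.vx p.1 (p.2 + 1) = g • q ∧ K.vx p.1 (p.2 + 2) = g • b) ∨
      (K.vx p.1 p.2 = g • b ∧ K.vx p.1 (p.2 + 1) = g • q ∧ K.vx p.1 (p.2 + 2) = g • a)) := by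
  obtain ⟨g, i, j, hi, h⟩ := h
  have hl := P.tlen5 hi
  have e : ∀ (j : Fin 5) (k : ℕ), K.vx i (j.1 + k) = P.pt i (j + Fin.ofNat 5 k) := by
    intro j k
    rw [P.tvx5 hi]
    congr 1
    ext
    simp [Fin.val_add]
  have e0 : ∀ j : Fin 5, K.vx i j.1 = P.pt i j := by
    intro j
    have := e j 0
    rw [add_zero] at this
    rw [this]
    congr 1
    exact add_zero _
  rcases h with ⟨rfl, rfl, rfl, -, -⟩ | ⟨rfl, rfl, rfl, -, -⟩
  · refine ⟨⟨i, ⟨j.1, by rw [hl]; exact j.2⟩⟩, g⁻¹, hi, Or.inl ⟨?_, ?_, ?_⟩⟩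
    · rw [inv_smul_smul]; exact e0 j
    · rw [inv_smul_smul]; exact e j 1
    · rw [inv_smul_smul]; exact e j 2
  · refine ⟨⟨i, ⟨j.1, by rw [hl]; exact j.2⟩⟩, g⁻¹, hi, Or.inr ⟨?_, ?_, ?_⟩⟩
    · rw [inv_smul_smul]; exact e0 j
    · rw [inv_smul_smul]; exact e j 1
    · rw [inv_smul_smul]; exact e j 2

/-- corners of pentagons -/
def RC (v c d : V) : Prop := ∃ y z, Qn P c v d y z

variable {P}

theorem RC.symm {v c d : V} (h : P.RC v c d) : P.RC v d c := by
  obtain ⟨y, z, h⟩ := h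
  exact ⟨z, y, h.symm⟩

theorem RC.smul (g : H) {v c d : V} (h : P.RC v c d) : P.RC (g • v) (g • c) (g • d) := by
  obtain ⟨y, z, h⟩ := h
  exact ⟨g • y, g • z, h.smul g⟩

theorem eqv_smul (g : H) {v c d : V} (h : Relation.EqvGen (P.RC v) c d) :
    Relation.EqvGen (P.RC (g • v)) (g • c) (g • d) := by
  induction h with
  | rel a b h => exact Relation.EqvGen.rel _ _ (h.smul g)
  | refl a => exact Relation.EqvGen.refl _
  | symm a b _ ih => exact ih.symm
  | trans a b c _ _ i1 i2 => exact i1.trans _ _ _ i2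

/-- no backtracking pentagon in a minimal complex -/
theorem hne (hm : K.Min) {a q b y z : V} (h : Qn P a q b y z) : a ≠ b := by
  obtain ⟨g, i, j, hi, h⟩ := h
  have h1 : P.hpg.At (fun k => g • P.pt i (j + k)) i := ⟨hi, g, j, Or.inl fun k => rfl⟩
  have h2 := h1.ne2 hm 0
  have e0 : j + (0 : Fin 5) = j := add_zero j
  have e2 : j + ((0 : Fin 5) + 2) = j + 2 := by rw [zero_add]
  simp only [e0, e2] at h2
  rcases h with ⟨rfl, rfl, rfl, -, -⟩ | ⟨rfl, rfl, rfl, -, -⟩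
  · exact h2
  · exact h2.symm

/-- THE CUT WITHOUT LEAVING CORNERS -/
theorem cut0 (hm : K.Min) (hnd : P.ND) {v a b : V} (va : K.ar v a) (vb : K.ar v b) (ab : a ≠ b)
    (hown : ∀ x y z, Q4 P x v y z → K.ar v x) (hq : ∃ x y z, Qn P v a x y z) :
    Relation.EqvGen (P.RC v) a b := by
  classical
  by_contra hab
  have asym : ∀ {c d : V}, K.ar c d → K.ar d c → False := fun h1 h2 =>
    absurd ((K.ar_rk _ _ h1).trans (K.ar_rk _ _ h2)) (lt_irrefl _)
  -- the in-arrows joined to the pole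
  let D : CuD K :=
    { v := v
      a := a
      b := b
      R := {n | K.ar n v ∧ Relation.EqvGen (P.RC v) a n}
      va := va
      vb := vb
      ab := ab
      R_ar := fun n h => h.1
      stab := by
        rintro g hg n ⟨-, h1⟩ ⟨-, h2⟩
        have h3 := eqv_smul g h1
        rw [hg] at h3
        have h4 : K.ar v (g • a) := by
          have := K.ar_smul g _ _ va
          rwa [hg] at this
        rcases GX.Sft.cases va vb ab h4 with e | e
        · exact e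
        · rw [e] at h3
          exact absurd (h2.trans _ _ _ h3.symm) hab
      inv := by
        rintro g hg ha n ⟨h1, h2⟩
        refine ⟨?_, ?_⟩
        · have := K.ar_smul g _ _ h1
          rwa [hg] at this
        · have := eqv_smul g h2
          rwa [hg, ha] at this }
  have nb : ∀ {d : V}, Relation.EqvGen (P.RC v) a d → K.ar v d → d = a := by
    intro d h1 h2
    rcases GX.Sft.cases va vb ab h2 with e | e
    · exact e
    · rw [e] at h1
      exact absurd h1 hab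
  have hcl : ∀ c d : V, (∃ y z, Qn P c v d y z) ∨ (∃ y, Q4 P c v d y) → c ∈ D.R →
      d ∈ D.R ∨ d = a := by
    rintro c d (⟨y, z, h⟩ | ⟨y, h⟩) ⟨h1, h2⟩
    · have h3 : Relation.EqvGen (P.RC v) a d := h2.trans _ _ _ (Relation.EqvGen.rel _ _ ⟨y, z, h⟩)
      rcases h.E2 with k | k
      · exact Or.inr (nb h3 k)
      · exact Or.inl ⟨k, h3⟩
    · exact absurd h1 (fun k => asym k (hown _ _ _ h))
  have hcor : ∀ p : K.Pos, ∀ g : H, (∃ y z, Qn P (g • K.vx p.1 p.2) (g • K.vx p.1 (p.2 + 1))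
      (g • K.vx p.1 (p.2 + 2)) y z) ∨ ∃ y, Q4 P (g • K.vx p.1 p.2) (g • K.vx p.1 (p.2 + 1))
      (g • K.vx p.1 (p.2 + 2)) y := by
    intro p g
    by_cases hp : P.sq p.1
    · exact Or.inr ⟨_, (P.hpos4 hp p.2).smul g⟩
    · exact Or.inl ⟨_, _, (P.hpos5 hp p.2).smul g⟩
  have hsym : ∀ {x y z : V}, ((∃ s t, Qn P x y z s t) ∨ ∃ s, Q4 P x y z s) →
      ((∃ s t, Qn P z y x s t) ∨ ∃ s, Q4 P z y x s) := by
    rintro x y z (⟨s, t, h⟩ | ⟨s, h⟩)
    · exact Or.inl ⟨t, s, h.symm⟩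
    · exact Or.inr ⟨s, h.symm⟩
  have hleg : ∀ {x y z : V} (h : H), h⁻¹ • x ∈ D.R → y = h • v →
      ((∃ s t, Qn P (h⁻¹ • x) (h⁻¹ • y) (h⁻¹ • z) s t) ∨
        ∃ s, Q4 P (h⁻¹ • x) (h⁻¹ • y) (h⁻¹ • z) s) → h⁻¹ • z ∈ D.R ∨ z = h • a := by
    intro x y z h h1 h2 h3
    rw [h2, inv_smul_smul] at h3
    rcases hcl _ _ h3 h1 with k | k
    · exact Or.inl k
    · exact Or.inr (inv_smul_eq_iff.1 k)
  have z1 : K.cr.cn D.c1 = 0 := by
    unfold Cr.cn
    rw [Finset.card_eq_zero, Finset.filter_eq_empty_iff]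
    intro p _ hp
    have key : ∀ x y z : V, (∀ g : H, (∃ s t, Qn P (g • x) (g • y) (g • z) s t) ∨
        ∃ s, Q4 P (g • x) (g • y) (g • z) s) → D.mv x y → ¬ D.mv z y → z ≠ D.τ x y → False := by
      rintro x y z hc ⟨h, h1, h2⟩ h3 h4
      rcases hleg h h1 h2 (hc h⁻¹) with k | k
      · exact h3 ⟨h, k, h2⟩
      · exact h4 (k.trans (D.τ_eq h1 h2).symm)
    rcases hp with ⟨h1, h2, h3⟩ | ⟨h1, h2, h3⟩
    · exact key _ _ _ (hcor p) h1 h2 h3
    · exact key _ _ _ (fun g => hsym (hcor p g)) h1 h2 h3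
  have z2 : K.cr.cn D.c2 = 0 := by
    unfold Cr.cn
    rw [Finset.card_eq_zero, Finset.filter_eq_empty_iff]
    rintro p _ ⟨⟨h, h1, h2⟩, h3, h4⟩
    rcases hleg h h1 h2 (hcor p h⁻¹) with k | k
    · exact h4 ((D.τ_eq h1 h2).trans (D.τ_eq k h2).symm)
    · have h5 := D.mv_ar h3
      rw [show K.cr.v2 p = h • a from k, show K.cr.v1 p = h • v from h2] at h5
      exact asym h5 (K.ar_smul h _ _ va)
  have hcut := D.cut_sq P.hpg hm P.qt (fun i hi => by
    have hi' : P.sq i := not_not.1 hi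
    exact ⟨P.cb4 i hi', P.cw4 i hi', (hnd i hi').1, (hnd i hi').2⟩) (by
    rintro i hi j g h1 ⟨h2, -⟩
    have hi' : P.sq i := not_not.1 hi
    have h3 := Q4_qt (P := P) g hi' j
    rw [h1] at h3
    exact asym h2.1 (hown _ _ _ h3))
  rw [z1, z2] at hcut
  obtain ⟨x, y, z, h⟩ := hq
  have h1 : Qn P z v a x y := h.rot.rot.rot.rot
  have h2 : z ≠ a := hne hm h1
  have h3 : Relation.EqvGen (P.RC v) a z := (Relation.EqvGen.rel _ _ ⟨x, y, h1⟩).symm
  have h4 : z ∈ D.R := by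
    rcases h1.E1 with k | k
    · exact ⟨k, h3⟩
    · exact absurd (nb h3 k) h2
  obtain ⟨p, g, hp, hg⟩ := P.hpos_of h1
  have h5 : 0 < P.hpg.rcn (cA D.sl.mv D.sl.τ) := by
    unfold PG.rcn
    rw [Finset.card_pos]
    refine ⟨p, Finset.mem_filter.2 ⟨Finset.mem_univ _, hp, ?_⟩⟩
    have m1 : g⁻¹ • (g • z) ∈ D.R := by
      rw [inv_smul_smul]
      exact h4
    have m2 : D.mv (g • z) (g • v) := ⟨g, m1, rfl⟩
    rcases hg with ⟨e1, e2, e3⟩ | ⟨e1, e2, e3⟩
    · rw [e1, e2, e3]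
      exact Or.inl ⟨m2, (D.τ_eq m1 rfl).symm⟩
    · rw [e1, e2, e3]
      exact Or.inr ⟨m2, (D.τ_eq m1 rfl).symm⟩
  omega

end P45

/-! ### pentagons and squares of a fold -/

namespace TpF

variable {H V : Type} [Group H] [MulAction H V] {K : GX H V} (F : TpF K) {P : P45 K}

theorem h_qn {a q b y z : V} (h : Qn P a q b y z) :
    Qn (F.p45 P) (F.f a) (F.f q) (F.f b) (F.f y) (F.f z) := by
  obtain ⟨g, i, j, hi, h⟩ := h
  refine ⟨g, ⟨i, fun k => absurd k hi⟩, j, hi, ?_⟩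
  rcases h with ⟨rfl, rfl, rfl, rfl, rfl⟩ | ⟨rfl, rfl, rfl, rfl, rfl⟩
  · exact Or.inl ⟨F.f_smul _ _, F.f_smul _ _, F.f_smul _ _, F.f_smul _ _, F.f_smul _ _⟩
  · exact Or.inr ⟨F.f_smul _ _, F.f_smul _ _, F.f_smul _ _, F.f_smul _ _, F.f_smul _ _⟩

theorem h_qn_back {a q b y z : F.W} (h : Qn (F.p45 P) a q b y z) : ∃ a' q' b' y' z',
    Qn P a' q' b' y' z' ∧ F.f a' = a ∧ F.f q' = q ∧ F.f b' = b ∧ F.f y' = y ∧ F.f z' = z := by
  obtain ⟨g, i, j, hi, h⟩ := h
  have e : ∀ k, g • (F.p45 P).pt i k = F.f (g • P.pt i.1 k) := fun k => (F.f_smul _ _).symm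
  rcases h with ⟨rfl, rfl, rfl, rfl, rfl⟩ | ⟨rfl, rfl, rfl, rfl, rfl⟩
  · exact ⟨_, _, _, _, _, ⟨g, i.1, j, hi, Or.inl ⟨rfl, rfl, rfl, rfl, rfl⟩⟩, (e _).symm, (e _).symm,
      (e _).symm, (e _).symm, (e _).symm⟩
  · exact ⟨_, _, _, _, _, ⟨g, i.1, j, hi, Or.inr ⟨rfl, rfl, rfl, rfl, rfl⟩⟩, (e _).symm, (e _).symm,
      (e _).symm, (e _).symm, (e _).symm⟩

theorem h_q4_back {a q b y : F.W} (h : Q4 (F.p45 P) a q b y) : ∃ a' q' b' y',
    Q4 P a' q' b' y' ∧ F.f a' = a ∧ F.f q' = q ∧ F.f b' = b ∧ F.f y' = y ∧ F.f a' ≠ F.f b' ∧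
      F.f q' ≠ F.f y' := by
  obtain ⟨g, i, j, hi, h⟩ := h
  have e : ∀ k, g • (F.p45 P).qt i k = F.f (g • P.qt i.1 k) := fun k => (F.f_smul _ _).symm
  have hne : ∀ k : Fin 4, F.f (g • P.qt i.1 k) ≠ F.f (g • P.qt i.1 (k + 2)) := by
    intro k
    rw [F.f_smul, F.f_smul]
    intro h'
    have h' := smul_left_cancel _ h'
    obtain ⟨k0, k1⟩ := i.2 hi
    fin_cases k
    · exact k0 h'
    · exact k1 h'
    · exact k0 h'.symm
    · exact k1 h'.symm
  have a3 : ∀ j : Fin 4, j + 1 + 2 = j + 3 := by decide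
  rcases h with ⟨rfl, rfl, rfl, rfl⟩ | ⟨rfl, rfl, rfl, rfl⟩
  · refine ⟨_, _, _, _, ⟨g, i.1, j, hi, Or.inl ⟨rfl, rfl, rfl, rfl⟩⟩, (e _).symm, (e _).symm,
      (e _).symm, (e _).symm, hne _, ?_⟩
    have := hne (j + 1)
    rwa [a3] at this
  · refine ⟨_, _, _, _, ⟨g, i.1, j, hi, Or.inr ⟨rfl, rfl, rfl, rfl⟩⟩, (e _).symm, (e _).symm,
      (e _).symm, (e _).symm, (hne _).symm, ?_⟩
    have := hne (j + 1)
    rwa [a3] at this

/-- a larger fold factors through a smaller one -/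
theorem h_mono {F F' : TpF K} (hpi : ∀ v, F.Z v → F'.pi v = F.pi v) (hZ : ∀ v, F.Z v → F'.Z v)
    (v : V) : F'.f v = F'.f (F.f v).1 := by
  induction hn : K.rk v using Nat.strong_induction_on generalizing v with
  | _ n ih =>
    by_cases h : F.Z v
    · rw [F'.f_pi (hZ v h), hpi v h, F.f_pi h]
      exact ih _ (by rw [← hn]; exact F.pi_rk v h) _ rfl
    · rw [F.f_not h]

end TpF

namespace P45

variable {H V : Type} [Group H] [MulAction H V] {K : GX H V} {P : P45 K}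

/-- `1 ≤ X` -/
theorem h_strand {T a : V} (h : 1 ≤ P.X T a) :
    (∃ c y z, Qn P c T a y z) ∨ ∃ n q, Q4 P n T a q ∧ K.ar n T := by
  by_contra hcon
  push Not at hcon
  obtain ⟨h1, h2⟩ := hcon
  have e1 : {f : FL K | f ∈ P.RP ∧ (fy f, fz f) = (T, a)} = ∅ := by
    rw [Set.eq_empty_iff_forall_notMem]
    rintro ⟨e, s⟩ ⟨⟨k1, k2⟩, k3⟩
    have k4 : K.c1 e = T := congrArg Prod.fst k3
    have k5 : (if s = true then K.c2 e else K.c0 e) = a := congrArg Prod.snd k3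
    have k6 : Qn P (K.c0 e) (K.c1 e) (K.c2 e) (e.2 • K.vx e.1.1 (e.1.2 + 3))
        (e.2 • K.vx e.1.1 (e.1.2 + 4)) := (P.hpos5 (i := e.1.1) k1 e.1.2).smul e.2
    by_cases hs : s = true
    · rw [if_pos hs] at k5
      rw [k4, k5] at k6
      exact h1 _ _ _ k6
    · rw [if_neg hs] at k5
      rw [k4, k5] at k6
      exact h1 _ _ _ k6.symm
  have e2 : {p : (V × V) × (V × V) | p ∈ P.ZP ∧ p.1 = (T, a)} = ∅ := by
    rw [Set.eq_empty_iff_forall_notMem]
    rintro ⟨⟨T', a'⟩, ⟨q, n⟩⟩ ⟨⟨k1, k2, k3⟩, k4⟩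
    have k5 : T' = T := congrArg Prod.fst k4
    have k6 : a' = a := congrArg Prod.snd k4
    subst k5 k6
    exact h2 n q k1 k3
  unfold X at h
  rw [e1, e2] at h
  simp [SAF.oc, SAF.orbs] at h

namespace SqT

variable (hT : P.SqT)

/-- the fold of all tops of rank `> r` -/
noncomputable def fr (r : ℕ) : TpF K :=
  hT.tpF (fun v => (∃ a b y, P.Top v a b y) ∧ r < K.rk v)
    (by
      rintro h v ⟨⟨a, b, y, k⟩, k2⟩
      exact ⟨⟨h • a, h • b, h • y, k.smul h⟩, by rwa [K.rk_smul]⟩)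
    (fun v h => h.1)

theorem fr_f {r : ℕ} {T a b y : V} (h : P.Top T a b y) (hr : r < K.rk T) :
    (hT.fr r).f T = (hT.fr r).f y := by
  rw [(hT.fr r).f_pi ⟨⟨a, b, y, h⟩, hr⟩]
  exact congrArg _ (hT.pt_eq h)

theorem fr_not {r : ℕ} {v : V} (hr : K.rk v ≤ r) : ((hT.fr r).f v).1 = v := by
  rw [(hT.fr r).f_not (fun h => absurd h.2 (not_lt.2 hr))]

theorem fr_mono {r s : ℕ} (h : r ≤ s) (v : V) : (hT.fr r).f v = (hT.fr r).f ((hT.fr s).f v).1 :=
  TpF.h_mono (F := hT.fr s) (F' := hT.fr r) (fun _ _ => rfl)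
    (fun _ hv => And.intro hv.1 (h.trans_lt hv.2)) v

omit hT in
variable (P) in
/-- the ranks of the tops are bounded -/
theorem bd : ∃ N, ∀ T a b y, P.Top T a b y → K.rk T ≤ N := by
  have := K.finI
  let f : K.I × Fin 4 → ℕ := fun p => K.rk (P.qt p.1 p.2)
  obtain ⟨N, hN⟩ := (Set.finite_range f).bddAbove
  refine ⟨N, fun T a b y h => ?_⟩
  obtain ⟨g, i, j, -, -, rfl, -⟩ := h.tpos
  rw [K.rk_smul]
  exact hN ⟨(i, j), rfl⟩

theorem fr_qn {r s : ℕ} (h : r ≤ s) {a q b y z : (hT.fr s).W}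
    (k : Qn ((hT.fr s).p45 P) a q b y z) : Qn ((hT.fr r).p45 P) ((hT.fr r).f a.1)
      ((hT.fr r).f q.1) ((hT.fr r).f b.1) ((hT.fr r).f y.1) ((hT.fr r).f z.1) := by
  obtain ⟨a', q', b', y', z', k1, rfl, rfl, rfl, rfl, rfl⟩ := (hT.fr s).h_qn_back k
  simp only [← hT.fr_mono h]
  exact (hT.fr r).h_qn k1

/-- THE REAL PASS: the edge from a top to a pole lies in a pentagon of the fold of all higher tops -/
theorem real (hx : ∀ p ∈ P.TA, 1 ≤ P.X p.1 p.2) {T a b y : V} (h : P.Top T a b y) :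
    ∃ x c d, Qn ((hT.fr (K.rk T)).p45 P) ((hT.fr (K.rk T)).f T) ((hT.fr (K.rk T)).f a) x c d := by
  obtain ⟨N, hN⟩ := bd P
  have asym : ∀ {c d : V}, K.ar c d → K.ar d c → False := fun h1 h2 =>
    absurd ((K.ar_rk _ _ h1).trans (K.ar_rk _ _ h2)) (lt_irrefl _)
  induction hn : N - K.rk T using Nat.strong_induction_on generalizing T a b y with
  | _ n ih =>
    rcases h_strand (P := P) (T := T) (a := a) (hx (T, a) ⟨b, y, h⟩) with ⟨c, y', z', k⟩ | ⟨m, q, k, hm⟩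
    · exact ⟨_, _, _, (hT.fr (K.rk T)).h_qn k.rot⟩
    · rcases hT.q4 k with t | t | t | t
      · have hr := K.ar_rk _ _ hm
        have hb := hN _ _ _ _ t
        obtain ⟨x, c, d, k1⟩ := ih (N - K.rk m) (by omega) t.symm' rfl
        have k2 := hT.fr_qn hr.le k1
        rw [← hT.fr_mono hr.le, ← hT.fr_mono hr.le, hT.fr_f t hr] at k2
        exact ⟨_, _, _, k2.symm.rot⟩
      · exact absurd t.2.1 (fun e => asym e hm)
      · exact absurd t.2.1 (fun e => asym e h.2.1)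
      · have hr : K.rk T < K.rk q := (K.ar_rk _ _ hm).trans (K.ar_rk _ _ t.2.2)
        have hb := hN _ _ _ _ t
        obtain ⟨x, c, d, k1⟩ := ih (N - K.rk q) (by omega) t rfl
        have k2 := hT.fr_qn hr.le k1
        rw [← hT.fr_mono hr.le, ← hT.fr_mono hr.le, hT.fr_f t hr] at k2
        exact ⟨_, _, _, k2⟩

/-- the poles of a top are joined by corners of pentagons in the fold of the higher tops -/
theorem joined (hm : K.Min) (hx : ∀ p ∈ P.TA, 1 ≤ P.X p.1 p.2) {T a b y : V}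
    (h : P.Top T a b y) : Relation.EqvGen (((hT.fr (K.rk T)).p45 P).RC ((hT.fr (K.rk T)).f T))
      ((hT.fr (K.rk T)).f a) ((hT.fr (K.rk T)).f b) := by
  set F := hT.fr (K.rk T) with hF
  have eT : (F.f T).1 = T := hT.fr_not le_rfl
  have ea : (F.f a).1 = a := hT.fr_not (K.ar_rk _ _ h.2.1).le
  have eb : (F.f b).1 = b := hT.fr_not (K.ar_rk _ _ h.2.2).le
  have harr : ∀ {c : V}, K.ar T c → (F.gx P).ar (F.f T) (F.f c) := by
    intro c hc
    refine ⟨c, ?_, rfl⟩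
    rw [eT]
    exact hc
  have hlow : ∀ {v : V}, K.rk v < K.rk T → F.f v ≠ F.f T := by
    intro v hv e
    have e' := congrArg Subtype.val e
    rw [eT, show (F.f v).1 = v from hT.fr_not hv.le] at e'
    rw [e'] at hv
    exact lt_irrefl _ hv
  have htop : ∀ {T' a' b' y' : V}, P.Top T' a' b' y' → F.f T' ≠ F.f y' → K.rk T' ≤ K.rk T := by
    intro T' a' b' y' k hne
    by_contra hlt
    exact hne (hT.fr_f k (not_le.1 hlt))
  refine cut0 (P := F.p45 P) (F.gx_min P hm) (fun j hj => j.2 hj) (harr h.2.1) (harr h.2.2) ?_ ?_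
    (hT.real hx h)
  · intro e
    have e' := congrArg Subtype.val e
    rw [ea, eb] at e'
    exact hT.nab _ _ _ _ h e'
  · intro x c d hq
    obtain ⟨x', v', y', z', hq', rfl, ev, rfl, rfl, n1, n2⟩ := F.h_q4_back hq
    rcases hT.q4 hq' with t | t | t | t
    · have h1 := htop t n1
      exact absurd ev (hlow (((K.ar_rk _ _ t.2.2)).trans_le h1))
    · have h1 := htop t n2
      have e' := congrArg Subtype.val ev
      rw [eT, show (F.f v').1 = v' from hT.fr_not h1] at e'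
      rw [e'] at t
      exact harr t.2.1
    · have h1 := htop t n1.symm
      exact absurd ev (hlow (((K.ar_rk _ _ t.2.1)).trans_le h1))
    · have h1 := htop t n2.symm
      exact absurd ev (hlow ((hT.rk_lt t).trans_le h1))

end SqT

namespace SqE

variable {E : V → Prop} (hs : P.SqE E) (hE : ∀ v, ¬ E v)

/-- THE LINKS OF THE TOTAL FOLD -/
theorem hd (hT : P.SqT) (hm : K.Min) (hx : ∀ p ∈ P.TA, 1 ≤ P.X p.1 p.2) :
    (hs.tp hE).HD P := by
  have key : ∀ {T a b y : V}, P.Top T a b y → ((hs.tp hE).gx P).LJ ((hs.tp hE).f T)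
      ((hs.tp hE).f a) ((hs.tp hE).f b) := by
    intro T a b y h
    have mono : ∀ v, (hs.tp hE).f v = (hs.tp hE).f ((hT.fr (K.rk T)).f v).1 :=
      TpF.h_mono (F := hT.fr (K.rk T)) (F' := hs.tp hE) (by
        rintro v ⟨⟨a', b', y', k⟩, -⟩
        show ptn P v = SqT.pt P v
        rw [hs.ptn_eq hE k, hT.pt_eq k]) (fun v hv => hv.1)
    have hj := hT.joined hm hx h
    have map : ∀ {v c d}, Relation.EqvGen (((hT.fr (K.rk T)).p45 P).RC v) c d →
        ((hs.tp hE).gx P).LJ ((hs.tp hE).f v.1) ((hs.tp hE).f c.1) ((hs.tp hE).f d.1) := by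
      intro v c d k
      induction k with
      | rel c d k =>
        obtain ⟨y', z', k⟩ := k
        obtain ⟨a', q', b', y', z', k1, rfl, rfl, rfl, -, -⟩ := (hT.fr (K.rk T)).h_qn_back k
        rw [← mono, ← mono, ← mono]
        refine Relation.EqvGen.rel _ _ ?_
        exact ((hs.tp hE).p45 P).cor_iff.2 (Or.inl ⟨_, _, (hs.tp hE).h_qn k1⟩)
      | refl c => exact Relation.EqvGen.refl _
      | symm c d _ ih => exact ih.symm
      | trans c d e _ _ i1 i2 => exact i1.trans _ _ _ i2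
    have := map hj
    rwa [← mono, ← mono, ← mono] at this
  intro i hi k he
  obtain ⟨j, hj⟩ := hs.top_q4 hi
  have c1 : ∀ j k : Fin 4, j = k + 1 ∨ j = k + 3 ∨ (k = j ∨ k + 2 = j) := by decide
  rcases c1 j k with e | e | e
  · rw [e] at hj
    have e0 : ∀ k : Fin 4, k + 1 + 3 = k := by decide
    have e1 : ∀ k : Fin 4, k + 1 + 1 = k + 2 := by decide
    rw [e0, e1] at hj
    exact key hj
  · rw [e] at hj
    have e0 : ∀ k : Fin 4, k + 3 + 3 = k + 2 := by decide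
    have e1 : ∀ k : Fin 4, k + 3 + 1 = k := by decide
    rw [e0, e1] at hj
    have := key hj
    rw [← he] at this
    exact this.symm
  · have e2 : (hs.tp hE).f (P.qt i k) = (hs.tp hE).f (P.qt i (k + 2)) := by
      have := hs.tp_f hE hj
      rcases e with e | e
      · rw [← e] at this
        exact this
      · rw [← e] at this
        have e0 : ∀ k : Fin 4, k + 2 + 2 = k := by decide
        rw [e0] at this
        exact this.symm
    rw [e2]
    exact Relation.EqvGen.refl _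

end SqE

end P45

/-! ### the fold of a state -/

namespace St

variable (C : St)

/-- the links of the fold of a state are connected -/
theorem fold_lc (v : C.tp.W) : (C.tp.gx C.P).LC v :=
  C.tp.LC_gx (C.cls.hd (fun _ h => h) C.cls.toSqE C.Min C.cls.x1) C.lc v

/-- THE FOLD OF A STATE as a candidate -/
@[reducible] noncomputable def fd : Cd := C.fold C.fold_lc

theorem fd_LW : C.fd.LW := C.fold_LW C.fold_lc

theorem fd_ovc : OvC C.fd C.K C.P C.tp.f := C.ovc C.fold_lc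

theorem fd_foldC : FoldC C.fd C.P C.tp.f := C.foldC C.fold_lc

/-- EVERY DECOMPOSITION OF THE GROUP OF A STATE HAS A GOOD REFINED SYSTEM -/
theorem exists_sysD (D : Decomp C.H) :
    ∃ (D' : Decomp C.H) (J' : C.V → Set D'.X) (js : JS C.P.pq D' J'),
      (SyQ.mk C.K C.P D' J' js).GdQ C.K.FS ∧
      (∀ x : C.V, Ell C.H D'.X x → Ell C.H D.X x) ∧
      (∀ x a, C.K.ar x a → Infinite ↥(stabilizer C.H ((x, a) : C.V × C.V)) →
        (SyQ.mk C.K C.P D' J' js).Tog x a) ∧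
      (∀ a b, D'.G.Adj a b → ∃ c d, D.G.Adj c d ∧
        stabilizer C.H a ⊓ stabilizer C.H b ≤ stabilizer C.H c ⊓ stabilizer C.H d) :=
  C.exists_sys C.fold_lc D

end St

end Pool.Agent.DI
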