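import Pool.Agent.DI.Hr2
import Pool.Agent.DI.QK0P
import Pool.Agent.DI.QKF

/-!
# DI/Hr3: hairs in the slices of a system with squares

`S.RP w x z`: a pentagon centred at `w` passes the edge `x z`. All statements are for a minimal slice
`hm : (S.k0 hc w).Min`.

* `S.rp_par`: `a`, `b` have two common arrows in the slice, `T → a`, `T → b` over `w`: no pentagon centred
  at `w` passes `T a` or `T b`. Instances: `S.rp_int` (interior level: `a`, `b` cross `w u` and `w u'`),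
  `S.rp_end` (end level, diamond: `a → o`, `b → o`, `a`, `b` cross `w u`).
* `S.rp_gamma` (end level, gamma form: `a → o → b`, `a`, `b` cross `w u`).
* `S.rp_hub`: TWO-POLE HUB: `q → a`, `q → b` over `w`, `a`, `b`, `n` cross `w u`, `n → q`: no pentagon
  centred at `w` passes `n q`, nor `n z` with `J z` on the side of `u`.
* `S.J_hub`: `q → a`, `q → b` over `w`: `J q = {w}`.
* `S.page_far`: a pentagon with the corner `n q m` crosses `w u` at `m` too.
-/

namespace Pool.Agent.DI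

open MulAction
open Pool.Agent.SAF (InC orbs FinOrb oc Decomp SAn SA Conv hull dist_edge FinOrb_iff exists_next)
open Pool.Agent.BT (PX PQ JS bey exits lz lz_self lz_ne lz_symm x_next_unique)
open Pool.Agent.BT.TA

/-! ### passes of positions -/

theorem Cns_get {V : Type} {b : V} {l : List V} {j : ℕ} (h : j < l.length) (d : V) :
    Cns b l ((b :: l).getD j d) (l.getD j d) := by
  induction l generalizing b j with
  | nil => exact absurd h (Nat.not_lt_zero _)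
  | cons y l ih =>
    rcases j with _ | j
    · exact Or.inl ⟨rfl, rfl⟩
    · refine Or.inr ?_
      have := ih (b := y) (j := j) (by simpa using h)
      simpa using this

section

variable {H V : Type} [Group H] [MulAction H V] (K : GX H V)

theorem GX.vx_pass (i : K.I) {j : ℕ} (h : j < K.len i) (g : H) :
    K.Pass i (g • K.vx i j) (g • K.vx i (j + 1)) := by
  refine ⟨g⁻¹, Or.inl ?_⟩
  rw [inv_smul_smul, inv_smul_smul, K.vx_of_lt h, K.vx_of_le (Nat.succ_le_of_lt h)]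
  have h1 := Cns_get (b := K.cb i) (l := K.cw i) (j := j) h (K.cb i)
  rwa [List.getD_cons_succ]

theorem GX.pass_l (e : K.LE) : K.Pass e.1.1 (K.c0 e) (K.c1 e) :=
  K.vx_pass e.1.1 e.1.2.2 e.2

theorem GX.pass_r (e : K.LE) : K.Pass e.1.1 (K.c1 e) (K.c2 e) := by
  have h : (e.1.2.1 + 1) % K.len e.1.1 < K.len e.1.1 :=
    Nat.mod_lt _ (Nat.zero_lt_of_lt e.1.2.2)
  have h1 := K.vx_pass e.1.1 h e.2
  rw [K.vx_mod] at h1
  have h2 : K.vx e.1.1 ((e.1.2.1 + 1) % K.len e.1.1 + 1) = K.vx e.1.1 (e.1.2.1 + 2) := by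
    rw [← K.vx_mod, Nat.mod_add_mod, K.vx_mod]
  rw [h2] at h1
  exact h1

variable {K}

theorem P45.long5 (P : P45 K) {i : K.I} (hi : ¬ P.sq i) : K.Long i := by
  show 5 ≤ (K.cw i).length
  rw [P.cw5 i hi]
  exact le_refl _

theorem P45.long_iff (P : P45 K) {i : K.I} : K.Long i ↔ ¬ P.sq i := by
  refine ⟨fun h hi => ?_, P.long5⟩
  have h' : 5 ≤ (K.cw i).length := h
  rw [P.cw4 i hi] at h'
  exact absurd h' (by simp)

theorem P45.pass5 (P : P45 K) {i : K.I} (hi : ¬ P.sq i) (g : H) (j : Fin 5) :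
    K.Pass i (g • P.pt i j) (g • P.pt i (j + 1)) := by
  have h : (j : ℕ) < K.len i := by
    rw [P.len5 hi]
    exact j.2
  have := K.vx_pass i h g
  rw [P.vx5 hi] at this
  have e : K.vx i ((j : ℕ) + 1) = P.pt i (j + 1) := P.vx5_add hi j 1
  rwa [e] at this

/-- a pentagon passes its edges -/
theorem Qn.pass {P : P45 K} {a q b y z : V} (h : Qn P a q b y z) :
    ∃ i, K.Long i ∧ K.Pass i a q := by
  obtain ⟨g, i, j, hi, h | h⟩ := h
  · obtain ⟨rfl, rfl, -⟩ := h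
    exact ⟨i, P.long5 hi, P.pass5 hi g j⟩
  · obtain ⟨-, rfl, rfl, -⟩ := h
    refine ⟨i, P.long5 hi, GX.Pass.symm ?_⟩
    have := P.pass5 hi g (j + 1)
    rwa [show j + 1 + 1 = j + 2 from by rw [add_assoc]; rfl] at this

end

namespace SyQ

variable {H V : Type} [Group H] [MulAction H V] (S : SyQ H V)

/-- a pentagon centred at `w` passes the edge `x z` -/
def RP (w : S.X) (x z : V) : Prop := ∃ q b y, Qn S.P x z q b y ∧ S.IsC ![x, z, q, b, y] w

variable {S}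

theorem RP.E {w : S.X} {x z : V} (h : S.RP w x z) : S.K.E x z := by
  obtain ⟨q, b, y, h, -⟩ := h
  exact h.E1

theorem RP.symm {w : S.X} {x z : V} (h : S.RP w x z) : S.RP w z x := by
  obtain ⟨q, b, y, h, hI⟩ := h
  refine ⟨y, b, q, ?_, ?_⟩
  · exact h.symm.rot
  · intro k
    fin_cases k
    · exact (hI 0).symm
    · exact (hI 4).symm
    · exact (hI 3).symm
    · exact (hI 2).symm
    · exact (hI 1).symm

/-- the pass in the slice -/
theorem RP.pass (hc : S.Conn) {w : S.X} {x z : V} (h : S.RP w x z) :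
    ∃ i, (S.k0 hc w).Long i ∧ (S.k0 hc w).Pass i (S.rho w x) (S.rho w z) := by
  obtain ⟨q, b, y, ⟨g, i, j, hi, h⟩, hI⟩ := h
  have hsh : ∀ j m : Fin 5, j + (m - j) = m := by decide
  have hsh1 : ∀ j m : Fin 5, j + (m - j + 1) = m + 1 := by decide
  have hIc : S.IsC (S.tr g i) w ∧ ∃ k : Fin 5, (x = S.tr g i k ∧ z = S.tr g i (k + 1)) ∨
      (z = S.tr g i k ∧ x = S.tr g i (k + 1)) := by
    rcases h with ⟨rfl, rfl, rfl, rfl, rfl⟩ | ⟨rfl, rfl, rfl, rfl, rfl⟩
    · refine ⟨?_, j, Or.inl ⟨rfl, rfl⟩⟩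
      have key : ∀ k : Fin 5, (![S.tr g i j, S.tr g i (j + 1), S.tr g i (j + 2), S.tr g i (j + 3),
          S.tr g i (j + 4)] : Fin 5 → V) k = S.tr g i (j + k) := by
        intro k
        fin_cases k
        · show S.tr g i j = S.tr g i (j + 0)
          rw [add_zero]
        · rfl
        · rfl
        · rfl
        · rfl
      intro m
      have h1 : w ∈ S.J ((![S.tr g i j, S.tr g i (j + 1), S.tr g i (j + 2), S.tr g i (j + 3),
          S.tr g i (j + 4)] : Fin 5 → V) (m - j)) ∨ w ∈ S.J ((![S.tr g i j, S.tr g i (j + 1),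
          S.tr g i (j + 2), S.tr g i (j + 3), S.tr g i (j + 4)] : Fin 5 → V) (m - j + 1)) :=
        hI (m - j)
      rw [key, key, hsh, hsh1] at h1
      exact h1
    · refine ⟨?_, j + 1, Or.inr ⟨rfl, ?_⟩⟩
      · have key : ∀ k : Fin 5, (![S.tr g i (j + 2), S.tr g i (j + 1), S.tr g i j, S.tr g i (j + 4),
            S.tr g i (j + 3)] : Fin 5 → V) k = S.tr g i (j + 2 - k) := by
          intro k
          have e : ∀ j : Fin 5, j + 2 - 0 = j + 2 ∧ j + 2 - 1 = j + 1 ∧ j + 2 - 2 = j ∧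
            j + 2 - 3 = j + 4 ∧ j + 2 - 4 = j + 3 := by decide
          obtain ⟨e0, e1, e2, e3, e4⟩ := e j
          fin_cases k
          · show S.tr g i (j + 2) = S.tr g i (j + 2 - 0)
            rw [e0]
          · show S.tr g i (j + 1) = S.tr g i (j + 2 - 1)
            rw [e1]
          · show S.tr g i j = S.tr g i (j + 2 - 2)
            rw [e2]
          · show S.tr g i (j + 4) = S.tr g i (j + 2 - 3)
            rw [e3]
          · show S.tr g i (j + 3) = S.tr g i (j + 2 - 4)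
            rw [e4]
        intro m
        have hI' := hI (j + 1 - m)
        have h1 : w ∈ S.J ((![S.tr g i (j + 2), S.tr g i (j + 1), S.tr g i j, S.tr g i (j + 4),
            S.tr g i (j + 3)] : Fin 5 → V) (j + 1 - m)) ∨ w ∈ S.J ((![S.tr g i (j + 2),
            S.tr g i (j + 1), S.tr g i j, S.tr g i (j + 4),
            S.tr g i (j + 3)] : Fin 5 → V) (j + 1 - m + 1)) := hI'
        have e5 : ∀ j m : Fin 5, j + 2 - (j + 1 - m) = m + 1 ∧ j + 2 - (j + 1 - m + 1) = m := by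
          decide
        rw [key, key, (e5 j m).1, (e5 j m).2] at h1
        exact h1.symm
      · show g • S.P.pt i (j + 2) = g • S.P.pt i (j + 1 + 1)
        rw [show j + 1 + 1 = j + 2 from by rw [add_assoc]; rfl]
  obtain ⟨hC, k, hk⟩ := hIc
  obtain ⟨c, l, hci, hl⟩ := exists_e5 hi hC
  have hn : ¬ (S.k0P hc w).sq (Sum.inl c) := by
    rintro ⟨p, hp⟩
    cases hp
  refine ⟨Sum.inl c, (S.k0P hc w).long5 hn, ?_⟩
  have hp := (S.k0P hc w).pass5 hn l k
  have e0 : ∀ m : Fin 5, l • (S.k0P hc w).pt (Sum.inl c) m = S.rho w (S.tr g i m) := by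
    intro m
    show l • S.rho w (S.tr c.g c.1 m) = _
    rw [← S.rho_smul]
    show S.rho w (l.1 • c.g • S.P.pt c.1 m) = S.rho w (g • S.P.pt i m)
    rw [← mul_smul, hl, hci]
  rw [e0, e0] at hp
  rcases hk with ⟨rfl, rfl⟩ | ⟨rfl, rfl⟩
  · exact hp
  · exact hp.symm

/-! ### slice forms -/

section

variable {hc : S.Conn} {w : S.X}

theorem hr_sar {x a : V} (hx : w ∈ S.J x) (ha : w ∈ S.J a) (e : S.K.ar x a) :
    (S.k0 hc w).ar (S.rho w x) (S.rho w a) := by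
  rw [S.rho_near hx, S.rho_near ha]
  exact SAr.hor (S := S) ⟨x, hx⟩ ⟨a, ha⟩ e

theorem hr_stv {x : V} {u : S.X} (hu : S.D.G.Adj w u) (h : S.Cs w u x) :
    (S.k0 hc w).ar (S.rho w x) (S.tv w u hu) := by
  rw [S.rho_near h.1]
  exact SAr.up (S := S) ⟨x, h.1⟩ ⟨u, hu⟩ h.2

theorem rho_inj {x z : V} (hx : w ∈ S.J x) (h : S.rho w x = S.rho w z) : x = z := by
  rcases S.rho_eq_iff.1 h with h | ⟨h, -⟩
  · exact h
  · exact absurd hx h

/-- PARALLEL POLES -/
theorem rp_par (hm : (S.k0 hc w).Min) {a b T : V} (hT : w ∈ S.J T) (ha : w ∈ S.J a)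
    (hb : w ∈ S.J b) (Ta : S.K.ar T a) (Tb : S.K.ar T b) (hab : a ≠ b) {s s' : S.SV w}
    (hs : s ≠ s') (a1 : (S.k0 hc w).ar (S.rho w a) s) (a2 : (S.k0 hc w).ar (S.rho w a) s')
    (b1 : (S.k0 hc w).ar (S.rho w b) s) (b2 : (S.k0 hc w).ar (S.rho w b) s') :
    ¬ S.RP w T a ∧ ¬ S.RP w T b := by
  have hne : S.rho w a ≠ S.rho w b := fun e => hab (rho_inj ha e)
  have hx : ∀ c, (S.k0 hc w).ar (S.rho w a) c ↔ c = s ∨ c = s' := fun c =>
    ⟨fun h => out_two a1 a2 hs h, by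
      rintro (rfl | rfl)
      · exact a1
      · exact a2⟩
  have hy : ∀ c, (S.k0 hc w).ar (S.rho w b) c ↔ c = s ∨ c = s' := fun c =>
    ⟨fun h => out_two b1 b2 hs h, by
      rintro (rfl | rfl)
      · exact b1
      · exact b2⟩
  have hI : InC ↥(stabilizer ↥(stabilizer H w) s ⊓ stabilizer ↥(stabilizer H w) s') :=
    SAG.InC.mono inf_le_left ((S.k0 hc w).stab s)
  constructor
  · intro h
    obtain ⟨i, h5, hp⟩ := h.pass hc
    exact hm.par hx hy hI (hr_sar hT ha Ta) (hr_sar hT hb Tb) hne h5 hp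
  · intro h
    obtain ⟨i, h5, hp⟩ := h.pass hc
    exact hm.par hy hx hI (hr_sar hT hb Tb) (hr_sar hT ha Ta) hne.symm h5 hp

theorem tv_ne {u u' : S.X} (hu : S.D.G.Adj w u) (hu' : S.D.G.Adj w u') (hne : u ≠ u') :
    S.tv w u hu ≠ S.tv w u' hu' :=
  fun e => hne (congrArg Subtype.val (Sum.inr.inj e))

theorem tv_ne_rho {u : S.X} (hu : S.D.G.Adj w u) {o : V} (ho : w ∈ S.J o) :
    S.tv w u hu ≠ S.rho w o := by
  rw [S.rho_near ho]
  intro e
  cases e

/-- INTERIOR LEVEL: `a`, `b` cross `w u` and `w u'` -/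
theorem rp_int (hm : (S.k0 hc w).Min) {a b T : V} (hT : w ∈ S.J T) (Ta : S.K.ar T a)
    (Tb : S.K.ar T b) (hab : a ≠ b) {u u' : S.X} (hu : S.D.G.Adj w u) (hu' : S.D.G.Adj w u')
    (hne : u ≠ u') (au : S.Cs w u a) (au' : S.Cs w u' a) (bu : S.Cs w u b) (bu' : S.Cs w u' b) :
    ¬ S.RP w T a ∧ ¬ S.RP w T b :=
  rp_par hm hT au.1 bu.1 Ta Tb hab (tv_ne hu hu' hne) (hr_stv hu au) (hr_stv hu' au')
    (hr_stv hu bu) (hr_stv hu' bu')

/-- END LEVEL, DIAMOND: `a → o`, `b → o`, `a`, `b` cross `w u` -/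
theorem rp_end (hm : (S.k0 hc w).Min) {a b T o : V} (hT : w ∈ S.J T) (Ta : S.K.ar T a)
    (Tb : S.K.ar T b) (hab : a ≠ b) {u : S.X} (hu : S.D.G.Adj w u) (au : S.Cs w u a)
    (bu : S.Cs w u b) (ho : w ∈ S.J o) (ao : S.K.ar a o) (bo : S.K.ar b o) :
    ¬ S.RP w T a ∧ ¬ S.RP w T b :=
  rp_par hm hT au.1 bu.1 Ta Tb hab (tv_ne_rho hu ho) (hr_stv hu au) (hr_sar au.1 ho ao)
    (hr_stv hu bu) (hr_sar bu.1 ho bo)

/-- END LEVEL, GAMMA FORM: `a → o → b`, `a`, `b` cross `w u` -/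
theorem rp_gamma (hm : (S.k0 hc w).Min) {a b T o : V} (hT : w ∈ S.J T) (Ta : S.K.ar T a)
    (Tb : S.K.ar T b) {u : S.X} (hu : S.D.G.Adj w u) (au : S.Cs w u a)
    (bu : S.Cs w u b) (ho : w ∈ S.J o) (ao : S.K.ar a o) (ob : S.K.ar o b) :
    ¬ S.RP w T a ∧ ¬ S.RP w T b := by
  constructor
  · intro h
    obtain ⟨i, h5, hp⟩ := h.pass hc
    exact hm.gamma (hr_sar au.1 ho ao) (hr_stv hu au) (hr_sar ho bu.1 ob) (hr_stv hu bu)
      (hr_sar hT au.1 Ta) (hr_sar hT bu.1 Tb) h5 (Or.inl hp)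
  · intro h
    obtain ⟨i, h5, hp⟩ := h.pass hc
    exact hm.gamma (hr_sar au.1 ho ao) (hr_stv hu au) (hr_sar ho bu.1 ob) (hr_stv hu bu)
      (hr_sar hT au.1 Ta) (hr_sar hT bu.1 Tb) h5 (Or.inr hp)

/-- TWO-POLE HUB: `q → a`, `q → b` over `w`, `a`, `b`, `n` cross `w u`, `n → q` -/
theorem rp_hub (hm : (S.k0 hc w).Min) {a b q n : V} (hq : w ∈ S.J q) (qa : S.K.ar q a)
    (qb : S.K.ar q b) (hab : a ≠ b) {u : S.X} (hu : S.D.G.Adj w u) (au : S.Cs w u a)
    (bu : S.Cs w u b) (nq : S.K.ar n q) (nu : S.Cs w u n) :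
    ¬ S.RP w n q ∧ ∀ z, S.rho w z = S.tv w u hu → ¬ S.RP w n z := by
  have hne : S.rho w a ≠ S.rho w b := fun e => hab (rho_inj au.1 e)
  constructor
  · intro h
    obtain ⟨i, h5, hp⟩ := h.pass hc
    exact hm.hub (hr_sar hq au.1 qa) (hr_sar hq bu.1 qb) hne (hr_stv hu au) (hr_stv hu bu)
      (hr_sar nu.1 hq nq) (hr_stv hu nu) h5 (Or.inl hp)
  · intro z hz h
    obtain ⟨i, h5, hp⟩ := h.pass hc
    rw [hz] at hp
    exact hm.hub (hr_sar hq au.1 qa) (hr_sar hq bu.1 qb) hne (hr_stv hu au) (hr_stv hu bu)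
      (hr_sar nu.1 hq nq) (hr_stv hu nu) h5 (Or.inr hp)

end

/-! ### the position of a two-pole hub -/

/-- a vertex with both poles over `w` crosses no edge at `w` -/
theorem hub_not_cs {w : S.X} {q a b : V} (qa : S.K.ar q a) (qb : S.K.ar q b) (hab : a ≠ b)
    (hq : w ∈ S.J q) (ha : w ∈ S.J a) (hb : w ∈ S.J b) {u : S.X} (hu : S.D.G.Adj w u)
    (h : S.Cs w u q) : False := by
  have h1 : S.SAr w (Sum.inl ⟨q, hq⟩) (Sum.inl ⟨a, ha⟩) := SAr.hor _ _ qa
  have h2 : S.SAr w (Sum.inl ⟨q, hq⟩) (Sum.inl ⟨b, hb⟩) := SAr.hor _ _ qb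
  have h3 : S.SAr w (Sum.inl ⟨q, hq⟩) (Sum.inr ⟨u, hu⟩) := SAr.up _ _ h.2
  rcases SAr.two _ _ _ _ h1 h2 h3 with k | k | k
  · exact hab (congrArg Subtype.val (Sum.inl.inj k))
  · cases k
  · cases k

/-- a vertex with both poles over `w` is placed at `w` -/
theorem J_hub {w : S.X} {q a b : V} (qa : S.K.ar q a) (qb : S.K.ar q b) (hab : a ≠ b)
    (hq : w ∈ S.J q) (ha : w ∈ S.J a) (hb : w ∈ S.J b) : S.J q = {w} := by
  refine Set.eq_singleton_iff_unique_mem.2 ⟨hq, fun x hx => ?_⟩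
  by_contra hne
  obtain ⟨u, hu, e⟩ := exists_next S.D.tree (show w ≠ x from fun k => hne k.symm)
  have hxb : x ∈ bey S.D.G w u := by
    show S.D.G.dist x w = S.D.G.dist x u + 1
    rw [SimpleGraph.dist_comm, e, SimpleGraph.dist_comm]
  exact hub_not_cs qa qb hab hq ha hb hu
    (conv_cr S.D.tree (S.js.conv q) hu hq hx (bey_self hu.symm) hxb)

/-- A PAGE WHICH CROSSES: `q → a`, `q → b` over `w`, `a`, `b`, `n` cross `w u`, `n → q`: the other end of
a corner `n q m` of a pentagon crosses `w u` -/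
theorem page_far {hc : S.Conn} {w : S.X} (hm : (S.k0 hc w).Min) {a b q n m y z : V}
    (hq : w ∈ S.J q) (qa : S.K.ar q a)
    (qb : S.K.ar q b) (hab : a ≠ b) {u : S.X} (hu : S.D.G.Adj w u) (au : S.Cs w u a)
    (bu : S.Cs w u b) (nq : S.K.ar n q) (nu : S.Cs w u n) (h : Qn S.P n q m y z) :
    S.Cs w u m ∧ S.J y ⊆ bey S.D.G w u ∧ S.J z ⊆ bey S.D.G w u := by
  have hJ := J_hub qa qb hab hq au.1 bu.1
  let v : Fin 5 → V := ![n, q, m, y, z]
  have hv : ∀ k, S.K.E (v k) (v (k + 1)) := by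
    intro k
    fin_cases k
    · exact h.E1
    · exact h.E2
    · exact h.E3
    · exact h.E4
    · exact h.E5
  obtain ⟨c, hcen⟩ := S.cen hv
  have hcw : c ≠ w := by
    rintro rfl
    exact (rp_hub hm hq qa qb hab hu au bu nq nu).1 ⟨m, y, z, h, hcen⟩
  have hcq : c ∉ S.J q := by
    rw [hJ]
    exact hcw
  have hcn : c ∈ S.J n := (hcen 0).resolve_right hcq
  have hcm : c ∈ S.J m := (hcen 1).resolve_left hcq
  obtain ⟨u', hu', e⟩ := exists_next S.D.tree (show w ≠ c from fun k => hcw k.symm)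
  have hcb : c ∈ bey S.D.G w u' := by
    show S.D.G.dist c w = S.D.G.dist c u' + 1
    rw [SimpleGraph.dist_comm, e, SimpleGraph.dist_comm]
  have hnu' : S.Cs w u' n := conv_cr S.D.tree (S.js.conv n) hu' nu.1 hcn (bey_self hu'.symm) hcb
  have huu : u' = u := by
    by_contra hne
    have h1 : S.SAr w (Sum.inl ⟨n, nu.1⟩) (Sum.inl ⟨q, hq⟩) := SAr.hor _ _ nq
    have h2 : S.SAr w (Sum.inl ⟨n, nu.1⟩) (Sum.inr ⟨u, hu⟩) := SAr.up _ _ nu.2
    have h3 : S.SAr w (Sum.inl ⟨n, nu.1⟩) (Sum.inr ⟨u', hu'⟩) := SAr.up _ _ hnu'.2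
    rcases SAr.two _ _ _ _ h1 h2 h3 with k | k | k
    · cases k
    · exact hne (congrArg Subtype.val (Sum.inr.inj k)).symm
    · cases k
  subst huu
  -- `q` is on the side of `w`, `m` contains a point beyond
  have hwm : w ∈ S.J m := by
    obtain ⟨p, p0, p1⟩ := S.one_ex h.E2
    rw [hJ] at p0
    rwa [Set.mem_singleton_iff.1 p0] at p1
  have hmu : S.Cs w u' m := conv_cr S.D.tree (S.js.conv m) hu hwm hcm (bey_self hu.symm) hcb
  refine ⟨hmu, ?_, ?_⟩
  · -- `y` is adjacent to `m`, which crosses, so `y` does not cross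
    have hny : ¬ S.Cs w u' y := S.adj_nc hu h.E3 hmu
    have hnz : ¬ S.Cs w u' z := S.adj_nc hu (Or.symm h.E5) nu
    rcases hcen 3 with k | k
    · exact S.side_of hu hny k hcb
    · exact S.side_adj hu (Or.symm h.E4) hny (S.side_of hu hnz k hcb)
  · have hny : ¬ S.Cs w u' y := S.adj_nc hu h.E3 hmu
    have hnz : ¬ S.Cs w u' z := S.adj_nc hu (Or.symm h.E5) nu
    rcases hcen 3 with k | k
    · exact S.side_adj hu h.E4 hnz (S.side_of hu hny k hcb)
    · exact S.side_of hu hnz k hcb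

end SyQ

end Pool.Agent.DI
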