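import Pool.Agent.DI.NxC
import Pool.Agent.DI.HDL
import Pool.Agent.DI.Hr3

/-!
# DI/LightS: the light fields of the next state

`OvC`: the complex `S.K` lies over a candidate `C` with maximal `(V_s, Hv)`; `w` a bad vertex, `K2` a
quotient of the slice at `w` in which the sinks over `w` survive (`S.Ovw w K2 F`), `N` a part of `K2` with
all long cells. `OvC.part_vs`, `part_hv`: the finite sinks and the heavy sinks over `w` lie in the part.
`OvC.vs_mem`, `hv_mem`: all finite sinks of the part and all sinks with a heavy in-arrow come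
from old sinks over `w` only. `P45.no_hair`: no cell of a minimal complex with squares passes the edge of
a vertex with one pole. `Psv.hlt`: the fields `tf`, `fs`, `hv`, `lw` of the next state.
-/

namespace Pool.Agent.DI

open MulAction
open Pool.Agent.SAF (InC orbs FinOrb oc Decomp SAn SA Conv exists_next oc_le_of_inj oc_lt_of_inj)
open Pool.Agent.BT (PX PQ JS bey exits MinSub Ell mst Hyp Lq mst_conv axis)

/-! ### no hairs in complexes with squares -/

namespace P45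

variable {H V : Type} [Group H] [MulAction H V] {K : GX H V} {P : P45 K}

/-- THE REAL PASS of an edge `v → c`, `v` not a top -/
theorem SqT.pass (hT : P.SqT) (hx : ∀ p ∈ P.TA, 1 ≤ P.X p.1 p.2) {v c : V} (hc : K.ar v c)
    (h1 : ∀ a b y, ¬ P.Top v a b y) (he : K.EC v c) :
    ∃ x y z, Qn ((hT.fr (K.rk v)).p45 P) ((hT.fr (K.rk v)).f v) ((hT.fr (K.rk v)).f c) x y z := by
  obtain ⟨b, hb⟩ := GX.EC_iff.1 he
  rcases P.cor_iff.1 hb with ⟨y, z, k⟩ | ⟨y, k⟩
  · exact ⟨_, _, _, (hT.fr (K.rk v)).h_qn k⟩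
  · rcases hT.q4 k with t | t | t | t
    · exact absurd t (h1 _ _ _)
    · exact absurd t.2.1 (GX.ck_asym hc)
    · have hr := hT.rk_lt t
      obtain ⟨x, c', d, k1⟩ := hT.real hx t
      have k2 := hT.fr_qn hr.le k1
      rw [← hT.fr_mono hr.le, ← hT.fr_mono hr.le, hT.fr_f t hr] at k2
      exact ⟨_, _, _, k2⟩
    · have hr := K.ar_rk _ _ t.2.2
      obtain ⟨x, c', d, k1⟩ := hT.real hx t.symm'
      have k2 := hT.fr_qn hr.le k1
      rw [← hT.fr_mono hr.le, ← hT.fr_mono hr.le, hT.fr_f t hr] at k2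
      exact ⟨_, _, _, k2.symm.rot⟩

/-- NO HAIRS -/
theorem SqT.no_hair (hT : P.SqT) (hm : K.Min) (hx : ∀ p ∈ P.TA, 1 ≤ P.X p.1 p.2) {v c : V}
    (hc : K.ar v c) (h1 : ∀ d, K.ar v d → d = c) (he : K.EC v c) : False := by
  obtain ⟨x, y, z, k⟩ := hT.pass hx hc (fun a b y t => hT.nab _ _ _ _ t
    ((h1 _ t.2.1).trans (h1 _ t.2.2).symm)) he
  have e : ((hT.fr (K.rk v)).f v).1 = v := hT.fr_not le_rfl
  obtain ⟨i, h5, hp⟩ := k.pass
  refine ((hT.fr (K.rk v)).gx_min P hm).hair (x := (hT.fr (K.rk v)).f v)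
    (c := (hT.fr (K.rk v)).f c) ⟨c, by rw [e]; exact hc, rfl⟩ ?_ h5 hp
  rintro d ⟨c', hc', rfl⟩
  rw [e] at hc'
  rw [h1 _ hc']

end P45

namespace OvC

open SyQ

variable {C : Cd} {V : Type} [MulAction C.H V] {S : SyQ C.H V} {f : V → C.V}
  (Ov : OvC C S.K S.P f) (hg : S.GdQ S.K.FS)
  (ht : ∀ x a, S.K.ar x a → Infinite ↥(stabilizer C.H ((x, a) : V × V)) → S.Tog x a)
  {w : S.X} (hw : S.WMin w)
  {V2 : Type} [MulAction ↥(stabilizer C.H w) V2] {K2 : GX ↥(stabilizer C.H w) V2}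
  {F : S.SV w → V2} (R : S.Ovw w K2 F)
  {H' V' : Type} [Group H'] [MulAction H' V'] {N : GX H' V'} (g : SubGX N K2)
  (h5 : ∀ i : K2.I, 4 < (K2.cw i).length → ∃ i', g.ι i' = i)

include Ov hg hw R h5 in
/-- the finite sinks over `w` lie in the part -/
theorem part_vs {z : C.V} (hz : C.K.Snk z) (hf : Finite ↥(stabilizer C.H z)) :
    ∃ (x : S.NV w) (x' b' : V'), S.K.FS x.1 ∧ S.J x.1 = {w} ∧ (∃ c : C.H, c • f x.1 = z) ∧
      g.f x' = F (Sum.inl x) ∧ N.EL x' b' := by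
  obtain ⟨x, b, c, y, y', h1, h2, ⟨e, h3⟩, h4, h5'⟩ := Ov.exists_vs hg hw hz hf
  have h6 := R.cell h4 h5'
  rw [S.rho_near x.2] at h6
  have h6 : K2.EL (F (S.rho w b)) (F (Sum.inl x)) := h6
  obtain ⟨k, b', x', -, h7, h8⟩ := g.EL_back h5 h6
  refine ⟨k⁻¹ • x, x', b', h1.smul k⁻¹.1, ?_, ⟨e * k.1, ?_⟩, ?_, h8.symm⟩
  · have h9 := J_smul h2 k⁻¹.1
    rwa [show k⁻¹.1 • w = w from k⁻¹.2] at h9
  · show (e * k.1) • f (k.1⁻¹ • x.1) = z
    rw [Ov.smul, mul_smul, smul_inv_smul, h3]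
  · rw [show (Sum.inl (k⁻¹ • x) : S.SV w) = k⁻¹ • Sum.inl x from rfl, R.smul, ← h7, inv_smul_smul]

include Ov hg ht hw R h5 in
/-- the sinks with a heavy in-arrow over `w` lie in the part -/
theorem part_hv {z : C.V} (hz : z ∈ C.K.sHv) :
    ∃ (x : S.NV w) (n' x' : V'), S.K.Snk x.1 ∧ S.J x.1 = {w} ∧ (∃ c : C.H, c • f x.1 = z) ∧
      g.f x' = F (Sum.inl x) ∧ N.EL n' x' ∧ N.ar n' x' ∧
      Infinite ↥(stabilizer H' ((n', x') : V' × V')) := by
  obtain ⟨n, x, b, y, z', h1, h2, h3, h4, h5', ⟨e, h6⟩, h7, h8⟩ := Ov.exists_hv hg ht hw hz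
  have h9 := R.cell h7 h8
  rw [S.rho_near n.2, S.rho_near x.2] at h9
  have h9 : K2.EL (F (Sum.inl n)) (F (Sum.inl x)) := h9
  obtain ⟨k, n', x', k1, k2, k3⟩ := g.EL_back h5 h9
  have kn := J_smul h3 k⁻¹.1
  have kx := J_smul h4 k⁻¹.1
  rw [show k⁻¹.1 • w = w from k⁻¹.2] at kn kx
  have en : g.f n' = F (Sum.inl (k⁻¹ • n)) := by
    rw [show (Sum.inl (k⁻¹ • n) : S.SV w) = k⁻¹ • Sum.inl n from rfl, R.smul, ← k1, inv_smul_smul]
  have ex : g.f x' = F (Sum.inl (k⁻¹ • x)) := by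
    rw [show (Sum.inl (k⁻¹ • x) : S.SV w) = k⁻¹ • Sum.inl x from rfl, R.smul, ← k2, inv_smul_smul]
  have hinf : Infinite ↥(stabilizer C.H (((k⁻¹ • n).1, (k⁻¹ • x).1) : V × V)) :=
    (GX.inf_smul_iff (V := V × V) k⁻¹.1 (n.1, x.1)).2 h5'
  have har : K2.ar (F (Sum.inl (k⁻¹ • n))) (F (Sum.inl (k⁻¹ • x))) :=
    R.ar _ _ (S.K.ar_smul _ _ _ h1) (h2.smul _) kn kx (inf_of_arrow hinf)
  refine ⟨k⁻¹ • x, n', x', h2.smul k⁻¹.1, kx, ⟨e * k.1, ?_⟩, ex, k3,
    (g.ar_iff _ _).2 (by rw [en, ex]; exact har), g.inf_edge k3.ec.E ?_⟩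
  · show (e * k.1) • f (k.1⁻¹ • x.1) = z
    rw [Ov.smul, mul_smul, smul_inv_smul, h6]
  · rw [en, ex]
    refine Infinite.of_injective (fun l : ↥(stabilizer C.H (((k⁻¹ • n).1, (k⁻¹ • x).1) : V × V)) =>
      (⟨⟨l.1, stab_only kx (congrArg Prod.snd l.2)⟩, ?_⟩ :
        ↥(stabilizer ↥(stabilizer C.H w) ((F (Sum.inl (k⁻¹ • n)), F (Sum.inl (k⁻¹ • x))) :
          V2 × V2)))) ?_
    · have e1 : l.1 • (k⁻¹ • n).1 = (k⁻¹ • n).1 := congrArg Prod.fst l.2
      have e2 : l.1 • (k⁻¹ • x).1 = (k⁻¹ • x).1 := congrArg Prod.snd l.2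
      refine Prod.ext ?_ ?_
      · show _ • F (Sum.inl (k⁻¹ • n)) = F (Sum.inl (k⁻¹ • n))
        rw [← R.smul]
        exact congrArg F (congrArg Sum.inl (Subtype.ext e1))
      · show _ • F (Sum.inl (k⁻¹ • x)) = F (Sum.inl (k⁻¹ • x))
        rw [← R.smul]
        exact congrArg F (congrArg Sum.inl (Subtype.ext e2))
    · intro a b e
      have e' := congrArg (fun t => t.1.1) e
      exact Subtype.ext e'

include Ov R in
/-- comparison of orbit numbers -/
theorem part_cmp (Q : S.NV w → Prop) (hQ : ∀ (k : ↥(stabilizer C.H w)) x, Q x → Q (k • x))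
    (hQs : ∀ x, Q x → S.K.Snk x.1 ∧ S.J x.1 = {w})
    {W2 : Type} [MulAction H' W2] {K3 : GX H' W2} (m : V' → W2)
    (hm : ∀ (h : H') z, m (h • z) = h • m z)
    (hmi : ∀ z z', N.Snk z → N.Snk z' → m z = m z' → z = z') {A : Set C.V} {B : Set W2}
    (h : ∀ z ∈ A, ∃ (x : S.NV w) (x' : V'), Q x ∧
      (∃ c : C.H, c • f x.1 = z) ∧ g.f x' = F (Sum.inl x) ∧ m x' ∈ B) :
    oc C.H A ≤ oc H' B ∧ ∀ b ∈ B, (∀ (x : S.NV w) (x' : V'), Q x →
      g.f x' = F (Sum.inl x) → m x' ≠ b) → oc C.H A < oc H' B := by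
  classical
  by_cases hA : A.Nonempty
  · obtain ⟨z0, hz0⟩ := hA
    obtain ⟨x0, y0, -⟩ := h z0 hz0
    let G : C.V → W2 := fun z => if hz : z ∈ A then m (h z hz).choose_spec.choose else m y0
    have hG : ∀ z ∈ A, ∃ (x : S.NV w) (x' : V'), G z = m x' ∧ Q x ∧
        (∃ c : C.H, c • f x.1 = z) ∧ g.f x' = F (Sum.inl x) ∧ m x' ∈ B := by
      intro z hz
      exact ⟨(h z hz).choose, (h z hz).choose_spec.choose, dif_pos hz,
        (h z hz).choose_spec.choose_spec⟩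
    have h1 : ∀ a ∈ A, G a ∈ B := by
      intro a ha
      obtain ⟨x, x', e, -, -, -, hB⟩ := hG a ha
      rw [e]
      exact hB
    have hsnk : ∀ (x : S.NV w) (x' : V'), Q x → g.f x' = F (Sum.inl x) → N.Snk x' := by
      intro x x' k1 k3
      apply g.snk
      rw [k3]
      exact R.snk x (hQs x k1).1 (hQs x k1).2
    have hmv : ∀ (k : H') (x : S.NV w) (x' : V'), g.f x' = F (Sum.inl x) →
        g.f (k • x') = F (Sum.inl (g.φ k • x)) := by
      intro k x x' e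
      rw [g.f_smul, e, ← R.smul]
      rfl
    have h2 : ∀ a ∈ A, ∀ b ∈ A, (∃ k : H', k • G a = G b) → ∃ k : C.H, k • a = b := by
      rintro a ha b hb ⟨k, hk⟩
      obtain ⟨x, x1, e, hsx, ⟨c, hcx⟩, hx1, -⟩ := hG a ha
      obtain ⟨y, y1, e', hsy, ⟨c', hcy⟩, hy1, -⟩ := hG b hb
      rw [e, e', ← hm] at hk
      have h3 : k • x1 = y1 := hmi _ _ ((hsnk x x1 hsx hx1).smul k) (hsnk y y1 hsy hy1) hk
      have h4 := hmv k x x1 hx1
      rw [h3, hy1] at h4
      have h5 : g.φ k • x = y := R.cls y (g.φ k • x) (hQs y hsy).1 (hQs y hsy).2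
        (hQs _ (hQ _ _ hsx)).1 (hQs _ (hQ _ _ hsx)).2 h4.symm
      have h6 : (g.φ k).1 • x.1 = y.1 := congrArg Subtype.val h5
      refine ⟨c' * (g.φ k).1 * c⁻¹, ?_⟩
      rw [← hcx, ← hcy, mul_smul, mul_smul, inv_smul_smul, ← Ov.smul, h6]
    refine ⟨oc_le_of_inj (K3.fo _) G h1 h2, fun b hb hne =>
      oc_lt_of_inj (K3.fo _) G h1 h2 hb ?_⟩
    intro a ha k e
    obtain ⟨x, x1, e1, hsx, -, hx1, -⟩ := hG a ha
    rw [e1, ← hm] at e
    exact hne (g.φ k • x) (k • x1) (hQ _ _ hsx) (hmv k x x1 hx1) e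
  · have hA' : A = ∅ := Set.not_nonempty_iff_eq_empty.1 hA
    have e : oc C.H A = 0 := by
      rw [hA']
      unfold oc orbs
      rw [Set.image_empty, Set.ncard_empty]
    rw [e]
    refine ⟨Nat.zero_le _, fun b hb _ => ?_⟩
    unfold oc
    exact (Set.ncard_pos (K3.fo B)).2 ⟨_, _, hb, rfl⟩

theorem smul_old (k : ↥(stabilizer C.H w)) {x : S.NV w} (h : S.J x.1 = {w}) :
    S.J (k • x).1 = {w} := by
  have h9 := J_smul h k.1
  rwa [show k.1 • w = w from k.2] at h9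

include R in
theorem part_fin {x : S.NV w} {x' : V'} (k1 : S.K.FS x.1) (k2 : S.J x.1 = {w})
    (k4 : g.f x' = F (Sum.inl x)) : Finite ↥(stabilizer H' x') := by
  have hfx := k1.2
  apply g.fin_of
  rw [k4]
  refine Finite.of_injective (fun l : ↥(stabilizer ↥(stabilizer C.H w) (F (Sum.inl x))) =>
    (⟨l.1.1, ?_⟩ : ↥(stabilizer C.H x.1))) ?_
  · have h6 : l.1 • F (Sum.inl x) = F (Sum.inl x) := l.2
    rw [← R.smul] at h6
    have h7 : l.1 • x = x := R.cls x (l.1 • x) k1.1 k2 (k1.1.smul l.1.1) (smul_old l.1 k2) h6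
    exact congrArg Subtype.val h7
  · intro a b e
    have e' := congrArg Subtype.val e
    exact Subtype.ext (Subtype.ext e')

include R in
theorem part_snk {x : S.NV w} {x' : V'} (k1 : S.K.Snk x.1) (k2 : S.J x.1 = {w})
    (k4 : g.f x' = F (Sum.inl x)) : N.Snk x' := by
  apply g.snk
  rw [k4]
  exact R.snk x k1 k2

/-! ### the numbers of the part -/

include Ov hg hw R h5 in
theorem part_nVs : C.K.nVs ≤ N.nVs := by
  refine (Ov.part_cmp R g (fun x => S.K.FS x.1 ∧ S.J x.1 = {w})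
    (fun k x h => ⟨h.1.smul k.1, smul_old k h.2⟩) (fun x h => ⟨h.1.1, h.2⟩) (K3 := N) id
    (fun _ _ => rfl) (fun _ _ _ _ e => e) ?_).1
  rintro z ⟨h1, h2, -⟩
  obtain ⟨x, x', b', k1, k2, k3, k4, k5⟩ := Ov.part_vs hg hw R g h5 h1 h2
  exact ⟨x, x', ⟨k1, k2⟩, k3, k4, part_snk R g k1.1 k2 k4, part_fin R g k1 k2 k4, _, k5.ec⟩

include Ov hg ht hw R h5 in
theorem part_nHv : C.K.nHv ≤ N.nHv := by
  refine (Ov.part_cmp R g (fun x => S.K.Snk x.1 ∧ S.J x.1 = {w})
    (fun k x h => ⟨h.1.smul k.1, smul_old k h.2⟩) (fun x h => ⟨h.1, h.2⟩) (K3 := N) id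
    (fun _ _ => rfl) (fun _ _ _ _ e => e) ?_).1
  intro z hz
  obtain ⟨x, n', x', k1, k2, k3, k4, k5, k6, k7⟩ := Ov.part_hv hg ht hw R g h5 hz
  exact ⟨x, x', ⟨k1, k2⟩, k3, k4, part_snk R g k1 k2 k4, n', k6, k5.ec, k7⟩

/-! ### all finite sinks and all heavy sinks of the part are old -/

variable (hC : C.LW) {PN : P45 N} (hs : PN.SqT) (hx : ∀ p ∈ PN.TA, 1 ≤ PN.X p.1 p.2)
  (hb : ¬ SA H') (hmin : ∀ (H'' V'' : Type) [Group H''] [MulAction H'' V''] (K'' : GX H'' V''),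
    ¬ SA H'' → N.area ≤ K''.area) (hl : ∀ v, N.LC v)

include hs hx hb hmin hl in
theorem part_lc (v : (hs.tp (fun _ h => h)).W) : ((hs.tp (fun _ h => h)).gx PN).LC v :=
  (hs.tp (fun _ h => h)).LC_gx (hs.hd (fun _ h => h) hs (fun V'' _ K'' => hmin H' V'' K'' hb) hx)
    hl v

include hs hx hb hmin hl hC in
theorem part_fold : ((hs.tp (fun _ h => h)).gx PN).nVs ≤ C.K.nVs ∧
    (((hs.tp (fun _ h => h)).gx PN).nVs = C.K.nVs →
      ((hs.tp (fun _ h => h)).gx PN).nHv ≤ C.K.nHv) :=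
  hC (Cd.ofTp N PN (hs.tp (fun _ h => h)) (hs.fpt (fun _ h => h)) hb hmin
    (part_lc hs hx hb hmin hl))

include hs hx hb hmin hl in
theorem part_ec {a b : V'} (e : N.E a b) : ((hs.tp (fun _ h => h)).gx PN).EC
    ((hs.tp (fun _ h => h)).f a) ((hs.tp (fun _ h => h)).f b) := by
  rcases ((hs.tp (fun _ h => h)).gx PN).edge_corner (part_lc hs hx hb hmin hl) hb
    ((hs.tp (fun _ h => h)).gx_E PN e) with ⟨c, -, h⟩ | ⟨c, -, h⟩
  · exact (GX.EC_iff.2 ⟨c, h⟩).symm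
  · exact GX.EC_iff.2 ⟨c, h⟩

include Ov hg hw R h5 hs in
theorem fold_nVs : C.K.nVs ≤ ((hs.tp (fun _ h => h)).gx PN).nVs ∧
    ∀ b ∈ ((hs.tp (fun _ h => h)).gx PN).sVs, (∀ (x : S.NV w) (x' : V'),
      (S.K.FS x.1 ∧ S.J x.1 = {w}) → g.f x' = F (Sum.inl x) → (hs.tp (fun _ h => h)).f x' ≠ b) →
      C.K.nVs < ((hs.tp (fun _ h => h)).gx PN).nVs := by
  refine Ov.part_cmp R g (fun x => S.K.FS x.1 ∧ S.J x.1 = {w})
    (fun k x h => ⟨h.1.smul k.1, smul_old k h.2⟩) (fun x h => ⟨h.1.1, h.2⟩)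
    (K3 := (hs.tp (fun _ h => h)).gx PN) (hs.tp (fun _ h => h)).f
    (hs.tp (fun _ h => h)).f_smul (fun _ _ h h' e => hs.f_inj (fun _ h => h) h h' e) ?_
  rintro z ⟨h1, h2, -⟩
  obtain ⟨x, x', b', k1, k2, k3, k4, k5⟩ := Ov.part_vs hg hw R g h5 h1 h2
  have hsk := part_snk R g k1.1 k2 k4
  refine ⟨x, x', ⟨k1, k2⟩, k3, k4, hs.snk_f (fun _ h => h) hsk, ?_, _,
    (hs.el_f (fun _ h => h) k5).ec⟩
  rw [(hs.tp (fun _ h => h)).stab_W, hs.f_snk (fun _ h => h) hsk]
  exact part_fin R g k1 k2 k4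

include Ov hg ht hw R h5 hs in
theorem fold_nHv : C.K.nHv ≤ ((hs.tp (fun _ h => h)).gx PN).nHv ∧
    ∀ b ∈ ((hs.tp (fun _ h => h)).gx PN).sHv, (∀ (x : S.NV w) (x' : V'),
      (S.K.Snk x.1 ∧ S.J x.1 = {w}) → g.f x' = F (Sum.inl x) → (hs.tp (fun _ h => h)).f x' ≠ b) →
      C.K.nHv < ((hs.tp (fun _ h => h)).gx PN).nHv := by
  refine Ov.part_cmp R g (fun x => S.K.Snk x.1 ∧ S.J x.1 = {w})
    (fun k x h => ⟨h.1.smul k.1, smul_old k h.2⟩) (fun x h => ⟨h.1, h.2⟩)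
    (K3 := (hs.tp (fun _ h => h)).gx PN) (hs.tp (fun _ h => h)).f
    (hs.tp (fun _ h => h)).f_smul (fun _ _ h h' e => hs.f_inj (fun _ h => h) h h' e) ?_
  intro z hz
  obtain ⟨x, n', x', k1, k2, k3, k4, k5, k6, k7⟩ := Ov.part_hv hg ht hw R g h5 hz
  have hsk := part_snk R g k1 k2 k4
  obtain ⟨k8, k9⟩ := hs.heavy_f (fun _ h => h) k6 hsk k7
  exact ⟨x, x', ⟨k1, k2⟩, k3, k4, hs.snk_f (fun _ h => h) hsk, _, k8,
    (hs.el_f (fun _ h => h) k5).ec, k9⟩

include Ov hg hw R h5 hC hs hx hb hmin hl in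
/-- THE FINITE SINKS OF THE PART ARE OLD -/
theorem vs_mem {z e : V'} (hz : N.Snk z) (hf : Finite ↥(stabilizer H' z)) (he : N.E z e) :
    ∃ x : S.NV w, S.K.FS x.1 ∧ S.J x.1 = {w} ∧ g.f z = F (Sum.inl x) := by
  by_contra hcon
  push Not at hcon
  have h1 := (Ov.fold_nVs hg hw R g h5 hs).2 ((hs.tp (fun _ h => h)).f z)
    ⟨hs.snk_f (fun _ h => h) hz, by
      rw [(hs.tp (fun _ h => h)).stab_W, hs.f_snk (fun _ h => h) hz]
      exact hf, _, part_ec hs hx hb hmin hl he⟩ (by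
    intro x x' hq e1 e2
    have e3 := hs.f_inj (fun _ h => h) (part_snk R g hq.1.1 hq.2 e1) hz e2
    rw [e3] at e1
    exact hcon x hq.1 hq.2 e1)
  have h2 := (part_fold hC hs hx hb hmin hl).1
  omega

include Ov hg ht hw R h5 hC hs hx hb hmin hl in
/-- THE SINKS OF THE PART WITH A HEAVY IN-ARROW ARE OLD -/
theorem hv_mem {n v : V'} (ha : N.ar n v) (hv : N.Snk v)
    (hi : Infinite ↥(stabilizer H' ((n, v) : V' × V'))) :
    ∃ x : S.NV w, S.K.Snk x.1 ∧ S.J x.1 = {w} ∧ g.f v = F (Sum.inl x) := by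
  by_contra hcon
  push Not at hcon
  obtain ⟨k8, k9⟩ := hs.heavy_f (fun _ h => h) ha hv hi
  have h1 := (Ov.fold_nHv hg ht hw R g h5 hs).2 ((hs.tp (fun _ h => h)).f v)
    ⟨hs.snk_f (fun _ h => h) hv, _, k8, part_ec hs hx hb hmin hl (Or.inl ha), k9⟩ (by
    intro x x' hq e1 e2
    have e3 := hs.f_inj (fun _ h => h) (part_snk R g hq.1 hq.2 e1) hv e2
    rw [e3] at e1
    exact hcon x hq.1 hq.2 e1)
  obtain ⟨h2, h3⟩ := part_fold hC hs hx hb hmin hl
  have h4 := (Ov.fold_nVs hg hw R g h5 hs).1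
  have h5' := h3 (le_antisymm h2 h4)
  omega

end OvC

namespace SyQ

section

variable {H V : Type} [Group H] [MulAction H V] {S : SyQ H V}

/-- thinning -/
theorem Ovw.thin {w : S.X} {V1 : Type} [MulAction ↥(stabilizer H w) V1]
    {K1 : GX ↥(stabilizer H w) V1} {F : S.SV w → V1} (R : S.Ovw w K1 F) (P1 : P45 K1) :
    S.Ovw w P1.thin F where
  smul := R.smul
  snk := R.snk
  cls := R.cls
  nt := R.nt
  t := R.t
  ar := R.ar
  cell hp h := by
    obtain ⟨i, g, h0, h1⟩ := R.cell hp h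
    have hi : ¬ P1.sq i := fun hs => by
      rw [P1.cw4 i hs] at h0
      exact absurd h0 (lt_irrefl _)
    exact ⟨⟨i, P1.rp_not hi⟩, g, h0, h1⟩

/-- the stabiliser of a part over a single class -/
theorem inf_single {w : S.X} {O : S.OR w} {K2 : GX ↥(stabilizer H w) (S.Q w O)}
    {H' V' : Type} [Group H'] [MulAction H' V'] {N : GX H' V'} (g : SubGX N K2) {p : V'} {t : V}
    (ht : w ∈ S.J t) (e : g.f p = S.fq w O (S.rho w t))
    (hc : ∀ c, S.fq w O c = S.fq w O (S.rho w t) → c = S.rho w t)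
    (hi : Infinite ↥(stabilizer H' p)) : Infinite ↥(stabilizer H t) := by
  have key : ∀ l : ↥(stabilizer H' p), (g.φ l.1).1 • t = t := by
    intro l
    have h1 : g.f (l.1 • p) = g.φ l.1 • g.f p := g.f_smul _ _
    rw [show l.1 • p = p from l.2, e, ← fq_smul] at h1
    have h2 := hc _ h1.symm
    rw [S.rho_near ht] at h2
    exact congrArg Subtype.val (Sum.inl.inj h2)
  refine Infinite.of_injective (fun l : ↥(stabilizer H' p) =>
    (⟨(g.φ l.1).1, key l⟩ : ↥(stabilizer H t))) ?_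
  intro a b e
  have e' := congrArg Subtype.val e
  exact Subtype.ext (g.φ_inj (Subtype.ext e'))

end

/-- THE LIGHT FIELDS OF THE NEXT STATE -/
theorem Psv.hlt {C : Cd} (hC : C.LW) {V : Type} [MulAction C.H V] {S : SyQ C.H V} {f : V → C.V}
    (Ov : OvC C S.K S.P f) {w : S.X} {O : S.OR w} {E : V → Prop} (h : S.Psv w O E)
    (hE : ∀ T a b y, S.P.Top T a b y → S.Loc w T a b y → ¬ E T)
    (H' V' : Type) [Group H'] [MulAction H' V'] (N : GX H' V')
    (g : SubGX N (h.toSy1.kP O).thin) (PN : P45 N) (hall : ∀ i, ∃ i', g.ι i' = i) (hb : ¬ SA H')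
    (hl : ∀ v, N.LC v) (hcl : PN.Cls) : PN.Lgt := by
  have hK : S.KIn w := KIn.of h.sq hE
  have hmin : ∀ (H'' V'' : Type) [Group H''] [MulAction H'' V''] (K'' : GX H'' V''), ¬ SA H'' →
      N.area ≤ K''.area := by
    intro H'' V'' _ _ K'' hb''
    have h1 := g.area_le.1
    rw [(h.toSy1.kP O).thin_area, h.toSy1.kf_area O, Ov.area] at h1
    exact h1.trans (C.min H'' V'' K'' hb'')
  have hNm : N.Min := fun V'' _ K'' => hmin H' V'' K'' hb
  have R : S.Ovw w (h.toSy1.kP O).thin (S.fq w O) :=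
    (Ovw.kf h.gd.conn O (k0_min h.gd.conn h.wm)).thin (h.toSy1.kP O)
  have h5 : ∀ i : (h.toSy1.kP O).thin.I, 4 < ((h.toSy1.kP O).thin.cw i).length →
      ∃ i', g.ι i' = i := fun i _ => hall i
  have hs : PN.SqT := hcl.toSqE
  have vs := fun {z e : V'} => Ov.vs_mem h.gd h.wm R g h5 hC hs hcl.x1 hb hmin hl (z := z) (e := e)
  have hv := fun {n v : V'} => Ov.hv_mem h.gd h.tog h.wm R g h5 hC hs hcl.x1 hb hmin hl
    (n := n) (v := v)
  have asym : ∀ {c d : V'}, N.ar c d → N.ar d c → False := fun h1 h2 =>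
    absurd ((N.ar_rk _ _ h1).trans (N.ar_rk _ _ h2)) (lt_irrefl _)
  -- arrows of the part
  have har : ∀ {a b : V'}, N.ar a b ↔ S.arQ w O (g.f a) (g.f b) := fun {a b} => g.ar_iff a b
  have top : ∀ {T a b y : V'}, PN.Top T a b y → S.KT w O (g.f T) (g.f a) (g.f b) (g.f y) := by
    intro T a b y t
    exact kf_Top (hm := k0_min h.gd.conn h.wm) (hn := S.sqN h.gd.conn w O) h.nf hK
      ((h.toSy1.kP O).thin_Top.1 ((g.top_iff PN (h.toSy1.kP O).thinP).1 t))
  have two : ∀ {p r d : V'} {q : S.Q w O}, N.ar p r → N.ar p d → d ≠ r → S.arQ w O (g.f p) q →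
      g.f r = q ∨ g.f d = q := by
    intro p r d q h1 h2 h3 h4
    rcases arQ_two (har.1 h1) (har.1 h2) h4 with e | e | e
    · exact absurd (g.f_inj e) (Ne.symm h3)
    · exact Or.inr e
    · exact Or.inl e
  -- no heavy arrow to the sink of an edge
  have t2 : ∀ {p r : V'} {u : S.EV w}, N.ar p r → Infinite ↥(stabilizer H' p) →
      g.f r = S.fq w O (Sum.inr u) → False := by
    intro p r u h1 h2 h3
    have h4 : N.Snk r := g.snk (by rw [h3]; exact R.t u)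
    obtain ⟨x, hx1, hx2, hx3⟩ := hv h1 h4 (inf_pole h1 h2)
    rw [h3] at hx3
    exact R.nt x u hx1 hx2 hx3
  have hec : ∀ {a b : V'}, N.E a b → N.EC a b := by
    intro a b e
    rcases N.edge_corner hl hb e with ⟨c, -, k⟩ | ⟨c, -, k⟩
    · exact (GX.EC_iff.2 ⟨c, k⟩).symm
    · exact GX.EC_iff.2 ⟨c, k⟩
  -- a vertex with infinite stabiliser in a local square
  have loc : ∀ {p r : V'} {p0 r0 : V}, w ∈ S.J p0 → w ∈ S.J r0 → (∃ c d, Q4 S.P p0 r0 c d) →
      g.f p = S.fq w O (S.rho w p0) → g.f r = S.fq w O (S.rho w r0) → N.ar p r →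
      Infinite ↥(stabilizer H' p) → False := by
    rintro p r p0 r0 hp0 hr0 ⟨c, d, hq⟩ ep er hpr hi
    by_cases hcs : ∃ u, S.D.G.Adj w u ∧ u ∈ S.J p0
    · obtain ⟨u, hu, huj⟩ := hcs
      have h1 : S.arQ w O (g.f p) (S.fq w O (Sum.inr ⟨u, hu⟩)) := by
        rw [ep]
        exact arQ_up hu ⟨hp0, huj⟩
      have h2 : ∃ d', N.ar p d' ∧ d' ≠ r := by
        by_contra hcon
        push Not at hcon
        exact hs.no_hair hNm hcl.x1 hpr hcon (hec (Or.inl hpr))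
      obtain ⟨d', h3, h4⟩ := h2
      rcases two hpr h3 h4 h1 with e | e
      · exact t2 hpr hi e
      · exact t2 h3 hi e
    · push Not at hcs
      have h1 : S.arQ w O (S.fq w O (S.rho w p0)) (g.f r) := by
        rw [← ep]
        exact har.1 hpr
      have hnsk : ∀ u, ¬ S.Sk w O u (Sum.inl ⟨p0, hp0⟩) := by
        intro u k
        rw [S.rho_near hp0, arQ_fq, GN_sk k] at h1
        exact h1
      have hi0 : Infinite ↥(stabilizer C.H p0) :=
        inf_single g hp0 ep (fun c => cls_one hp0 hcs hnsk) hi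
      rw [S.rho_near hp0, arQ_fq, GN_tm hp0 hnsk (Tm.base p0 (by
        rintro x ⟨u, s, hu, hcs', -⟩
        exact hcs u hu hcs'.2))] at h1
      obtain ⟨y2, h2, h3⟩ := h1
      rw [S.rho_near hp0] at h2
      cases h2 with
      | up x u e => exact hcs u.1 u.2 e
      | hor x r1 e =>
        have h4 := inf_pole e hi0
        obtain ⟨c', k1, k2⟩ := h.tog _ _ e h4
        have k3 : w ∈ S.J p0 := hp0
        rw [k1] at k3
        have k3 : w = c' := k3
        subst k3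
        have hr1 : ∀ u, S.D.G.Adj w u → u ∉ S.J r1.1 := by
          intro u hu k
          rw [k2] at k
          exact hu.ne (Set.mem_singleton_iff.1 k).symm
        by_cases hsk : ∃ v, S.Sk w O v (Sum.inl r1)
        · obtain ⟨v, hv'⟩ := hsk
          obtain ⟨k4, k5⟩ := Sk.inl.1 hv'
          have e2 : S.fq w O (Sum.inl r1) = S.fq w O (Sum.inr v) :=
            fq_eq.2 (Relation.EqvGen.rel _ _ (FR.dia r1 v k4 k5))
          exact t2 hpr hi (h3.symm.trans e2)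
        · push Not at hsk
          have e2 : S.fq w O (S.rho w r0) = S.fq w O (S.rho w r1.1) := by
            rw [← er, S.rho_near r1.2]
            exact h3.symm
          have e3 := cls_one r1.2 hr1 hsk e2
          rw [S.rho_near hr0, S.rho_near r1.2] at e3
          have e4 : r0 = r1.1 := congrArg Subtype.val (Sum.inl.inj e3)
          have h5' := h.hv p0 r0 c d hq (by rw [e4]; exact e)
          rw [e4] at h5'
          exact not_finite_iff_infinite.2 h4 h5'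
  have tf : ∀ T a b y, PN.Top T a b y → Finite ↥(stabilizer H' T) := by
    intro T a b y t
    by_contra hcon
    rw [not_finite_iff_infinite] at hcon
    have hne := hs.nab _ _ _ _ t
    rcases kf_top_J (hm := k0_min h.gd.conn h.wm) (hn := S.sqN h.gd.conn w O) h.nf hK
      ((h.toSy1.kP O).thin_Top.1 ((g.top_iff PN (h.toSy1.kP O).thinP).1 t)) with
      ⟨v, hv'⟩ | ⟨t0, k1, k2, k3, k4⟩
    · rcases two t.2.1 t.2.2 hne.symm hv' with e | e
      · exact t2 t.2.1 hcon e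
      · exact t2 t.2.2 hcon e
    · have hw0 : w ∈ S.J t0 := by rw [k1]; rfl
      have hi0 : Infinite ↥(stabilizer C.H t0) :=
        inf_single g hw0 k2 (fun c e => k3 c (e.trans k2.symm)) hcon
      rcases k4 with ⟨u, p, hu, hp, hc⟩ | ⟨a0, b0, y0, hq, -⟩
      · obtain ⟨c', k5, k6⟩ := h.tog _ _ hp (inf_pole hp hi0)
        rw [k1] at k5
        have k7 : w = c' := Set.singleton_injective k5
        have k8 := hc.2
        rw [k6, ← k7] at k8
        exact hu.ne (Set.mem_singleton_iff.1 k8).symm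
      · exact not_finite_iff_infinite.2 hi0 (h.tf _ _ _ _ hq)
  refine ⟨tf, ?_, ?_, ?_⟩
  · -- finite sinks are in no square
    intro z hz a b y hq
    obtain ⟨x, hx1, hx2, hx3⟩ := vs hz.1 hz.2 hq.E1.symm
    have old : ∀ {v0 : V}, w ∈ S.J v0 → S.fq w O (S.rho w v0) = g.f z → v0 = x.1 := by
      intro v0 h0 e
      rw [hx3] at e
      have e1 := only_cls hx2 (fun a _ ha => absurd ha (hx1.1 a)) e
      rw [S.rho_near h0] at e1
      exact congrArg Subtype.val (Sum.inl.inj e1)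
    have ncs : ∀ {v0 : V} {u : S.X}, S.D.G.Adj w u → S.Cs w u v0 →
        S.fq w O (S.rho w v0) = g.f z → False := by
      intro v0 u hu hc e
      have e1 := old hc.1 e
      have h1 := hc.2
      rw [e1, hx2] at h1
      exact hu.ne (Set.mem_singleton_iff.1 h1).symm
    have ninr : ∀ {u : S.EV w}, S.fq w O (Sum.inr u) = g.f z → False := by
      intro u e
      rw [hx3] at e
      exact R.nt x u hx1.1 hx2 e
    have nsq : ∀ {v0 : V}, w ∈ S.J v0 → (∃ a b y, Q4 S.P a v0 b y) →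
        S.fq w O (S.rho w v0) = g.f z → False := by
      rintro v0 h0 ⟨a, b, y, hq0⟩ e
      rw [old h0 e] at hq0
      exact h.fs x.1 hx1 _ _ _ hq0
    have key : ∀ {T a b y : V'}, PN.Top T a b y → (z = T ∨ z = a ∨ z = b ∨ z = y) → False := by
      intro T a b y t hzz
      have side : z = a ∨ z = b ∨ z = y := by
        rcases hzz with e | e
        · rw [e] at hz
          exact absurd t.2.1 (hz.1 a)
        · exact e
      rcases top t with ⟨u, q, z1, x1, k, e1, e2, e3⟩ | ⟨u, q, z1, x1, k, e1, e2, e3, e4⟩ |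
        ⟨T0, a0, b0, y0, k, hl0, e1, e2, e3, e4⟩
      · have hq0 : S.fq w O (S.rho w q) = g.f z → False := by
          intro e
          have e5 := old (O.near u q k.2.1) e
          have h1 := k.2.2.1
          rw [e5] at h1
          exact hx1.1 _ h1
        rcases e3 with ⟨e3, e4⟩ | ⟨e3, e4⟩
        · rcases side with e | e | e
          · exact hq0 (by rw [e, e3])
          · exact ninr (u := ⟨u, k.adj⟩) (by rw [e, e4])
          · exact ncs k.adj k.1.l (by rw [e, e2])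
        · rcases side with e | e | e
          · exact ninr (u := ⟨u, k.adj⟩) (by rw [e, e3])
          · exact hq0 (by rw [e, e4])
          · exact ncs k.adj k.1.l (by rw [e, e2])
      · rcases side with e | e | e
        · exact ncs k.adj k.1.l (by rw [e, e3])
        · exact ncs k.adj k.1.r (by rw [e, e4])
        · exact ninr (u := ⟨u, k.adj⟩) (by rw [e, e2])
      · obtain ⟨hT0, ha0, hb0, hy0⟩ := hl0
        rcases side with e | e | e
        · exact nsq ha0 ⟨_, _, _, k.1.rot.rot.rot⟩ (by rw [e, e2])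
        · exact nsq hb0 ⟨_, _, _, k.1.rot⟩ (by rw [e, e3])
        · exact nsq hy0 ⟨_, _, _, k.1.rot.rot⟩ (by rw [e, e4])
    rcases hs.q4 hq with t | t | t | t
    · exact key t (Or.inr (Or.inr (Or.inl rfl)))
    · exact key t (Or.inl rfl)
    · exact key t (Or.inr (Or.inl rfl))
    · exact key t (Or.inr (Or.inr (Or.inr rfl)))
  · -- no heavy arrow in a square
    have key : ∀ {T a b y : V'}, PN.Top T a b y → (N.ar a y → Infinite ↥(stabilizer H' a) → False) ∧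
        (N.ar y a → Infinite ↥(stabilizer H' y) → False) := by
      intro T a b y t
      rcases top t with ⟨u, q, z1, x1, k, e1, e2, e3⟩ | ⟨u, q, z1, x1, k, e1, e2, e3, e4⟩ |
        ⟨T0, a0, b0, y0, k, hl0, e1, e2, e3, e4⟩
      · have k4 := (k.arrows h.nf).2.2.2
        rcases e3 with ⟨e3, e4⟩ | ⟨e3, e4⟩
        · have hyb : N.ar y b := har.2 (by rw [e2, e4]; exact k4)
          exact ⟨fun h1 h2 => t2 hyb (inf_snd (inf_pole h1 h2)) e4, fun h1 h2 => t2 hyb h2 e4⟩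
        · refine ⟨fun h1 h2 => ?_, fun h1 h2 => t2 h1 h2 e3⟩
          have h3 := har.1 h1
          rw [e3] at h3
          exact not_arQ_inr h3
      · refine ⟨fun h1 h2 => t2 h1 h2 e2, fun h1 h2 => ?_⟩
        have h3 := har.1 h1
        rw [e2] at h3
        exact not_arQ_inr h3
      · obtain ⟨hT0, ha0, hb0, hy0⟩ := hl0
        exact ⟨fun h1 h2 => loc ha0 hy0 ⟨_, _, k.1.rot.rot.rot.symm.rot⟩ e2 e4 h1 h2,
          fun h1 h2 => loc hy0 ha0 ⟨_, _, k.1.rot.rot.rot⟩ e4 e2 h1 h2⟩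
    intro x a b y hq ha
    by_contra hcon
    rw [not_finite_iff_infinite] at hcon
    have hi := inf_of_arrow hcon
    rcases hs.q4 hq with t | t | t | t
    · exact not_finite_iff_infinite.2 hi (tf _ _ _ _ t)
    · exact asym ha t.2.1
    · exact (key t).2 ha hi
    · exact (key t.symm').1 ha hi
  · -- light world
    intro C'
    obtain ⟨h1, h2⟩ := hC C'
    have h3 := Ov.part_nVs h.gd h.wm R g h5
    have h4 := Ov.part_nHv h.gd h.tog h.wm R g h5
    refine ⟨h1.trans h3, fun e => ?_⟩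
    have h6 : C'.K.nVs = C.K.nVs := by omega
    exact (h2 h6).trans h4

end SyQ

end Pool.Agent.DI
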