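import Pool.Agent.DI.FCq

/-!
# Self pieces of fat special softs

`C.Fat y`: two passes at one pole of `y` which are not in one orbit; every walk of a square counts once,
the own squares of a top are not counted. `C.Sf e`: `e` is a strand and a
swap of `y` keeps its piece. `C.nNP P`: number of the self pieces of the vertices with `P`, `C.nN`: `P` =
fat. `Mer.nN_le`: `C1.nN ≤ C.nNP P` for merges, if the pole excess is constant, no piece is one-sided and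
the class of a vertex with a self piece and without `P` is thin and consists of one vertex.
-/

namespace Pool.Agent.SAF

variable {H H' Y Y' : Type} [Group H] [Group H'] [MulAction H Y] [MulAction H' Y']

open MulAction

theorem oc_lt_of_rel {s : Set Y} {s' : Set Y'} (hs' : FinOrb H' s') (R : Y → Y' → Prop)
    (hf : ∀ a ∈ s, ∃ b ∈ s', R a b)
    (hinj : ∀ a ∈ s, ∀ b ∈ s, ∀ a' ∈ s', ∀ b' ∈ s', R a a' → R b b' →
      (∃ h : H', h • a' = b') → ∃ h : H, h • a = b)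
    {b0 : Y'} (hb0 : b0 ∈ s') (hmiss : ∀ a ∈ s, ∀ b ∈ s', R a b → ∀ h : H', h • b ≠ b0) :
    oc H s < oc H' s' := by
  have h1 : oc H s ≤ oc H' {y | y ∈ s' ∧ ∀ h : H', h • y ≠ b0} := by
    apply oc_le_of_rel (hs'.mono (fun _ h => h.1)) R
    · intro a ha
      obtain ⟨b, hb, hR⟩ := hf a ha
      exact ⟨b, ⟨hb, hmiss a ha b hb hR⟩, hR⟩
    · intro a ha b hb a' ha' b' hb' h1 h2 h3
      exact hinj a ha b hb a' ha'.1 b' hb'.1 h1 h2 h3
  refine lt_of_le_of_lt h1 ?_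
  apply Set.ncard_lt_ncard ?_ hs'
  refine ⟨orbs_mono (fun _ h => h.1), ?_⟩
  intro h
  obtain ⟨y, ⟨-, hy⟩, e⟩ := h ⟨b0, hb0, rfl⟩
  obtain ⟨g, hg⟩ := Quotient.exact e
  exact hy g⁻¹ (by rw [← hg, inv_smul_smul])

end Pool.Agent.SAF

namespace Pool.Agent.DI

open MulAction
open Pool.Agent.SAF (InC orbs FinOrb oc mk_eq_iff FinOrb_iff)

namespace FC

variable {H V F : Type} [Group H] [MulAction H V] [MulAction H F] {K : GX H V} (C : FC K F)

/-- a flag of a square at a vertex whose poles are the neighbours: a flag of an own square -/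
def Ow (e : F) : Prop := C.sq e ∧ K.ar (C.y e) (C.x e) ∧ K.ar (C.y e) (C.z e)

/-- the same flag, or flags of squares with the same walk -/
def Sm (e e' : F) : Prop := e = e' ∨ (C.sq e ∧ C.sq e' ∧ C.x e = C.x e' ∧ C.y e = C.y e' ∧
  C.z e = C.z e' ∧ C.z (C.r e) = C.z (C.r e'))

/-- two orbits of passes at one pole, not in own squares; every walk of a square counts once -/
def Fat (y : V) : Prop := ∃ e e', C.y e = y ∧ C.y e' = y ∧ K.ar y (C.z e) ∧ C.z e' = C.z e ∧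
  ¬ C.Ow e ∧ ¬ C.Ow e' ∧ ∀ h : H, ¬ C.Sm (h • e) e'

/-- the strand `e` lies in a self piece -/
def Sf (e : F) : Prop := e ∈ C.strs ∧ ∃ g : H, g • C.y e = C.y e ∧
  C.IJ (C.y e) (C.x e) (g • C.x e) ∧ g • C.z e ≠ C.z e

/-- the codes of the self pieces of the vertices with `P` -/
def spP (P : V → Prop) : Set (NF V F) := {t | ∃ e, t = NF.pol (C.y e) (C.y e)
  (C.Pc (C.y e) (C.x e)) ∧ P (C.y e) ∧ C.Sf e}

/-- the number of the self pieces of the vertices with `P` -/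
noncomputable def nNP (P : V → Prop) : ℕ := oc H (C.spP P)

/-- the codes of the self pieces of the fat softs -/
def sps : Set (NF V F) := C.spP C.Fat

/-- THE NUMBER OF THE SELF PIECES OF FAT SOFTS -/
noncomputable def nN : ℕ := C.nNP C.Fat

variable {C}

theorem Sm.smul {e e' : F} (h : C.Sm e e') (g : H) : C.Sm (g • e) (g • e') := by
  rcases h with rfl | ⟨h1, h2, h3, h4, h5, h6⟩
  · exact Or.inl rfl
  · refine Or.inr ⟨(C.sq_smul g e).2 h1, (C.sq_smul g e').2 h2, ?_, ?_, ?_, ?_⟩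
    · rw [C.x_smul, C.x_smul, h3]
    · rw [C.y_smul, C.y_smul, h4]
    · rw [C.z_smul, C.z_smul, h5]
    · rw [C.r_smul, C.r_smul, C.z_smul, C.z_smul, h6]

theorem Sm.refl' (e : F) : C.Sm e e := Or.inl rfl

theorem Sm.symm' {e e' : F} (h : C.Sm e e') : C.Sm e' e := by
  rcases h with rfl | ⟨h1, h2, h3, h4, h5, h6⟩
  · exact Or.inl rfl
  · exact Or.inr ⟨h2, h1, h3.symm, h4.symm, h5.symm, h6.symm⟩

theorem Sm.trans' {e e' e'' : F} (h : C.Sm e e') (k : C.Sm e' e'') : C.Sm e e'' := by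
  rcases h with rfl | ⟨h1, h2, h3, h4, h5, h6⟩
  · exact k
  · rcases k with rfl | ⟨k1, k2, k3, k4, k5, k6⟩
    · exact Or.inr ⟨h1, h2, h3, h4, h5, h6⟩
    · exact Or.inr ⟨h1, k2, h3.trans k3, h4.trans k4, h5.trans k5, h6.trans k6⟩

theorem Sm.yy {e e' : F} (h : C.Sm e e') : C.y e = C.y e' := by
  rcases h with rfl | ⟨-, -, -, h4, -, -⟩
  · rfl
  · exact h4

theorem Sm.xx {e e' : F} (h : C.Sm e e') : C.x e = C.x e' := by
  rcases h with rfl | ⟨-, -, h3, -, -, -⟩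
  · rfl
  · exact h3

theorem Sm.zz {e e' : F} (h : C.Sm e e') : C.z e = C.z e' := by
  rcases h with rfl | ⟨-, -, -, -, h5, -⟩
  · rfl
  · exact h5

theorem Ow.smul {e : F} (h : C.Ow e) (g : H) : C.Ow (g • e) := by
  obtain ⟨h1, h2, h3⟩ := h
  refine ⟨(C.sq_smul g e).2 h1, ?_, ?_⟩
  · rw [C.y_smul, C.x_smul]
    exact K.ar_smul g _ _ h2
  · rw [C.y_smul, C.z_smul]
    exact K.ar_smul g _ _ h3

theorem Ow.of_smul {e : F} {g : H} (h : C.Ow (g • e)) : C.Ow e := by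
  have := h.smul g⁻¹
  rwa [inv_smul_smul] at this

theorem Fat.smul {y : V} (h : C.Fat y) (g : H) : C.Fat (g • y) := by
  obtain ⟨e, e', h1, h2, h3, h4, k1, k2, h5⟩ := h
  refine ⟨g • e, g • e', ?_, ?_, ?_, ?_, fun k => k1 k.of_smul, fun k => k2 k.of_smul, ?_⟩
  · rw [C.y_smul, h1]
  · rw [C.y_smul, h2]
  · rw [C.z_smul]
    exact K.ar_smul g _ _ h3
  · rw [C.z_smul, C.z_smul, h4]
  · intro k hk
    apply h5 (g⁻¹ * k * g)
    have := hk.smul g⁻¹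
    rw [inv_smul_smul] at this
    rw [mul_smul, mul_smul]
    exact this

theorem Sf.smul {e : F} (h : C.Sf e) (g : H) : C.Sf (g • e) := by
  obtain ⟨h1, k, h2, h3, h4⟩ := h
  refine ⟨C.strs_inv g e h1, g * k * g⁻¹, ?_, ?_, ?_⟩
  · rw [C.y_smul, mul_smul, mul_smul, inv_smul_smul, h2]
  · have := h3.smul g
    rw [C.y_smul, C.x_smul, mul_smul, mul_smul, inv_smul_smul]
    exact this
  · rw [C.z_smul, mul_smul, mul_smul, inv_smul_smul]
    intro hk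
    exact h4 (smul_left_cancel g hk)

theorem Sf.str {e : F} (h : C.Sf e) : e ∈ C.strs := h.1

variable (C)

theorem spP_inv {P : V → Prop} (hP : ∀ (g : H) (y : V), P y → P (g • y)) (g : H) :
    ∀ t ∈ C.spP P, g • t ∈ C.spP P := by
  rintro _ ⟨e, rfl, h1, h2⟩
  refine ⟨g • e, ?_, ?_, h2.smul g⟩
  · rw [NF.smul_pol, Pc_smul, C.y_smul, C.x_smul]
  · rw [C.y_smul]
    exact hP g _ h1

theorem sps_inv (g : H) : ∀ t ∈ C.sps, g • t ∈ C.sps := C.spP_inv (fun g _ h => h.smul g) g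

theorem spP_sub (P : V → Prop) : C.spP P ⊆ C.pcs := by
  rintro _ ⟨e, rfl, -, h⟩
  exact ⟨_, _, rfl, h.1.1⟩

theorem fin_spP (P : V → Prop) : FinOrb H (C.spP P) := SAF.FinOrb.mono (C.spP_sub P) C.fin_pcs

theorem fin_sps : FinOrb H C.sps := C.fin_spP _

theorem nNP_le_pcs (P : V → Prop) : C.nNP P ≤ oc H C.pcs := by
  have h : ∀ t ∈ C.spP P, (id t : NF V F) ∈ C.pcs := fun t ht => C.spP_sub P ht
  exact SAF.oc_le_of_inj C.fin_pcs id h (fun a _ b _ hab => hab)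

theorem nN_le_pcs : C.nN ≤ oc H C.pcs := C.nNP_le_pcs _

end FC

namespace FM

variable {H V F V1 F1 : Type} [Group H] [MulAction H V] [MulAction H F] [MulAction H V1]
    [MulAction H F1] {K : GX H V} {K1 : GX H V1} {C : FC K F} {C1 : FC K1 F1} (M : FM C C1)

/-- the kind of a cell is kept -/
theorem sq_ph (g : F1) : C.sq (M.ph g) ↔ C1.sq g := by
  have ne : ∀ g : F1, C1.r g ≠ g := by
    intro g k
    have h := C1.E g
    rw [k] at h
    exact h.elim (fun a => FC.not_both a a) (fun a => FC.not_both a a)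
  have r4 : ∀ g : F1, C.r (C.r (C.r (C.r (M.ph g)))) = M.ph (C1.r (C1.r (C1.r (C1.r g)))) := by
    intro g
    rw [M.r_ph, M.r_ph, M.r_ph, M.r_ph]
  constructor
  · intro h
    by_contra hn
    have h4 : C1.r (C1.r (C1.r (C1.r g))) = g := by
      apply M.inj
      rw [← r4, C.r4 _ h]
    have h5 := C1.r5 g hn
    rw [h4] at h5
    exact ne g h5
  · intro h
    by_contra hn
    have h4 := C1.r4 g h
    have h5 : M.ph (C1.r (C1.r (C1.r (C1.r (C1.r g))))) = M.ph g := by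
      have := C.r5 _ hn
      rw [r4, M.r_ph] at this
      exact this
    have h6 := M.inj h5
    rw [h4] at h6
    exact ne g h6

theorem sm_ph {g g' : F1} (h : C.Sm (M.ph g) (M.ph g')) : C1.Sm g g' := by
  rcases h with h | ⟨h1, h2, h3, h4, h5, h6⟩
  · exact Or.inl (M.inj h)
  · refine Or.inr ⟨(M.sq_ph g).1 h1, (M.sq_ph g').1 h2, ?_, ?_, ?_, ?_⟩
    · rw [← M.x_ph, ← M.x_ph, h3]
    · rw [← M.y_ph, ← M.y_ph, h4]
    · rw [← M.z_ph, ← M.z_ph, h5]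
    · rw [← M.z_ph, ← M.z_ph, ← M.r_ph, ← M.r_ph, h6]

/-- what is needed of the merges: no piece is one-sided, the poles of a vertex are not identified, the
class of a vertex with a self piece and without `P` is thin and consists of one vertex -/
structure NHyp (P : V → Prop) : Prop where
  opp : ∀ e ∈ C.strs, ∃ e' ∈ C.strs, C.y e' = C.y e ∧ C.z e' ≠ C.z e ∧
    C.IJ (C.y e) (C.x e) (C.x e')
  pin : ∀ e ∈ C.strs, ∀ b, K.ar (C.y e) b → M.f b = M.f (C.z e) → b = C.z e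
  thin : ∀ e, C.Sf e → ¬ P (C.y e) → ¬ C.Fat (C.y e)
  root : ∀ e, C.Sf e → ¬ P (C.y e) → ∀ g, C1.y g = M.f (C.y e) → C.y (M.ph g) = C.y e

namespace Mer

variable {M} (R : M.Mer) {P : V → Prop}
include R

theorem ow_ph {g : F1} : C.Ow (M.ph g) ↔ C1.Ow g :=
  and_congr (M.sq_ph g) (and_congr R.ar_x'.symm R.ar_z.symm)

/-- a self piece of a fat class comes from a self piece of a fat soft -/
theorem sf_of_sf (hN : M.NHyp P) (he : C1.exc ≤ C.exc) {e1 : F1} (h1 : C1.Sf e1)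
    (hf : C1.Fat (C1.y e1)) : C.Sf (M.ph e1) ∧ P (C.y (M.ph e1)) := by
  obtain ⟨hs, g, g1, g2, g3⟩ := h1
  have hs0 : M.ph e1 ∈ C.strs := R.mem_strs.1 hs
  obtain ⟨e', k1, k2, k3, k4⟩ := hN.opp _ hs0
  obtain ⟨e1', rfl⟩ := R.ds e' k1
  have hs1' : e1' ∈ C1.strs := R.mem_strs.2 k1
  -- the two poles of the class
  have hy1 : C1.y e1' = C1.y e1 := by
    rw [← M.y_ph, ← M.y_ph, k2]
  have hne : C1.z e1' ≠ C1.z e1 := by
    intro e
    rw [← M.z_ph, ← M.z_ph] at e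
    refine k3 (hN.pin _ hs0 _ ?_ e)
    rw [← k2]
    exact k1.2
  have hgz : g • C1.z e1 = C1.z e1' := by
    have a1 : K1.ar (C1.y e1) (C1.z e1) := hs.2
    have a2 : K1.ar (C1.y e1) (C1.z e1') := by
      rw [← hy1]
      exact hs1'.2
    have a3 : K1.ar (C1.y e1) (g • C1.z e1) := by
      have := K1.ar_smul g _ _ a1
      rwa [g1] at this
    rcases K1.two _ _ _ _ a1 a2 a3 with e | e | e
    · exact absurd e.symm hne
    · exact e.symm
    · exact absurd e.symm g3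
  have hsf : C.Sf (M.ph e1) := by
    refine ⟨hs0, ?_⟩
    obtain ⟨k, m1, m2, m3⟩ := R.self_part he (y := C.y (M.ph e1)) (a := C.z (M.ph e1))
      (b := C.z (M.ph e1')) (n := C.x (M.ph e1)) (m := C.x (M.ph e1')) (FC.co _)
      (by rw [← k2]; exact FC.co _) k4 hs0.1 hs0.2 (by rw [← k2]; exact k1.2) (g := g)
      (by rw [M.y_ph]; exact g1) (by rw [M.z_ph, M.z_ph]; exact hgz)
      (by rw [M.y_ph, M.x_ph]; exact g2.symm')
    exact ⟨k, m1, m3.symm', by rw [m2]; exact k3⟩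
  refine ⟨hsf, ?_⟩
  by_contra hth
  apply hN.thin _ hsf hth
  have hroot := hN.root _ hsf hth
  obtain ⟨f, f', l1, l2, l3, l4, o1, o2, l5⟩ := hf
  rw [← M.y_ph e1] at l1 l2
  have y1 := hroot f l1
  have y2 := hroot f' l2
  rw [M.y_ph] at l1 l2
  have p1 : K.ar (C.y (M.ph e1)) (C.z (M.ph f)) := by
    rw [← y1]
    apply R.ar_z.1
    rw [l1]
    exact l3
  have p2 : K.ar (C.y (M.ph e1)) (C.z (M.ph f')) := by
    rw [← y2]
    apply R.ar_z.1
    rw [l2, l4]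
    exact l3
  have hz : M.f (C.z (M.ph f')) = M.f (C.z (M.ph f)) := by
    rw [M.z_ph, M.z_ph, l4]
  have hzz : C.z (M.ph f') = C.z (M.ph f) := by
    have q1 : K.ar (C.y (M.ph e1)) (C.z (M.ph e1)) := hs0.2
    have q2 : K.ar (C.y (M.ph e1)) (C.z (M.ph e1')) := by
      rw [← k2]
      exact k1.2
    rcases K.two _ _ _ _ q1 q2 p1 with e | e | e
    · exact absurd e.symm k3
    · rw [← e] at hz ⊢
      exact hN.pin _ k1 _ (by rw [k2]; exact p2) hz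
    · rw [← e] at hz ⊢
      exact hN.pin _ hs0 _ p2 hz
  refine ⟨M.ph f, M.ph f', y1, y2, p1, hzz, fun k => o1 (R.ow_ph.1 k), fun k => o2 (R.ow_ph.1 k),
    ?_⟩
  intro h hh
  apply l5 h
  apply M.sm_ph
  rw [M.ph_smul]
  exact hh

/-- THE NUMBER OF THE SELF PIECES OF FAT SOFTS DOES NOT RISE UNDER MERGES -/
theorem nN_le (hN : M.NHyp P) (he : C1.exc ≤ C.exc) : C1.nN ≤ C.nNP P := by
  refine SAF.oc_le_of_rel (C.fin_spP P)
    (fun t1 t => ∃ e1 : F1, t1 = NF.pol (C1.y e1) (C1.y e1) (C1.Pc (C1.y e1) (C1.x e1)) ∧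
      t = NF.pol (C.y (M.ph e1)) (C.y (M.ph e1)) (C.Pc (C.y (M.ph e1)) (C.x (M.ph e1)))) ?_ ?_
  · rintro _ ⟨e1, rfl, h1, h2⟩
    obtain ⟨k1, k2⟩ := R.sf_of_sf hN he h2 h1
    exact ⟨_, ⟨_, rfl, k2, k1⟩, e1, rfl, rfl⟩
  · rintro _ - _ - _ - _ - ⟨e1, rfl, rfl⟩ ⟨e2, rfl, rfl⟩ ⟨g, hg⟩
    refine ⟨g, ?_⟩
    rw [NF.smul_pol, FC.Pc_smul] at hg ⊢
    obtain ⟨a1, a2, a3⟩ := NF.pol.inj hg
    have b1 : g • C1.y e1 = C1.y e2 := by
      rw [← M.y_ph, ← M.y_ph, ← M.f_smul, a1]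
    rw [b1]
    rw [a1] at a3
    have a4 := R.ij (FC.Pc_eq.1 a3)
    rw [M.f_smul, M.x_ph, M.x_ph, M.y_ph] at a4
    rw [FC.Pc_eq.2 a4]

/-- at equality every self piece of a fat soft is a part of a self piece of a fat class -/
theorem nN_surj (hN : M.NHyp P) (he : C1.exc ≤ C.exc) (hle : C.nNP P ≤ C1.nN) {e : F}
    (h : C.Sf e) (hf : P (C.y e)) : ∃ e1, C1.Sf e1 ∧ C1.Fat (C1.y e1) ∧ C.y (M.ph e1) = C.y e ∧
      C.IJ (C.y e) (C.x e) (C.x (M.ph e1)) := by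
  by_contra hno
  refine absurd hle (not_le.2 ?_)
  refine SAF.oc_lt_of_rel (C.fin_spP P)
    (fun t1 t => ∃ e1 : F1, t1 = NF.pol (C1.y e1) (C1.y e1) (C1.Pc (C1.y e1) (C1.x e1)) ∧
      t = NF.pol (C.y (M.ph e1)) (C.y (M.ph e1)) (C.Pc (C.y (M.ph e1)) (C.x (M.ph e1))) ∧
      C1.Sf e1 ∧ C1.Fat (C1.y e1)) ?_ ?_ (b0 := NF.pol (C.y e) (C.y e) (C.Pc (C.y e) (C.x e)))
      ⟨e, rfl, hf, h⟩ ?_
  · rintro _ ⟨e1, rfl, h1, h2⟩
    obtain ⟨k1, k2⟩ := R.sf_of_sf hN he h2 h1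
    exact ⟨_, ⟨_, rfl, k2, k1⟩, e1, rfl, rfl, h2, h1⟩
  · rintro _ - _ - _ - _ - ⟨e1, rfl, rfl, -⟩ ⟨e2, rfl, rfl, -⟩ ⟨g, hg⟩
    refine ⟨g, ?_⟩
    rw [NF.smul_pol, FC.Pc_smul] at hg ⊢
    obtain ⟨a1, a2, a3⟩ := NF.pol.inj hg
    have b1 : g • C1.y e1 = C1.y e2 := by
      rw [← M.y_ph, ← M.y_ph, ← M.f_smul, a1]
    rw [b1]
    rw [a1] at a3
    have a4 := R.ij (FC.Pc_eq.1 a3)
    rw [M.f_smul, M.x_ph, M.x_ph, M.y_ph] at a4
    rw [FC.Pc_eq.2 a4]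
  · rintro _ - _ - ⟨e1, rfl, rfl, h1, h2⟩ g hg
    rw [NF.smul_pol, FC.Pc_smul] at hg
    obtain ⟨a1, -, a3⟩ := NF.pol.inj hg
    rw [a1] at a3
    apply hno
    refine ⟨g • e1, h1.smul g, ?_, ?_, ?_⟩
    · rw [C1.y_smul]
      exact h2.smul g
    · rw [M.ph_smul, C.y_smul, a1]
    · rw [M.ph_smul, C.x_smul]
      exact (FC.Pc_eq.1 a3).symm'

end Mer

end FM

end Pool.Agent.DI
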