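import Pool.Agent.DI.CutU
import Pool.Agent.DI.LightS
import Pool.Agent.DI.CutP5
import Pool.Agent.DI.ExcT
import Pool.Agent.DI.Nq

/-!
# DI/CutM: the next state is a full part of the thinned folded slice, with the same group

`Psv.fullC`: if no vertex over `w` is folded to a sink `t_u` and all `t_u` lie in cells then the part `N.sub`
is full. `Psv.surj`: its group is the whole group. `SubGX.Full.nN_eq`, `top_eq`: the number of the self
pieces of the fat softs and the number of the tops are the same.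
-/

namespace Pool.Agent.DI

open MulAction
open Pool.Agent.SAF (InC SA orbs FinOrb oc Decomp)

namespace Nxt

variable {H V : Type} [Group H] [MulAction H V] {K : GX H V} {P : P45 K} {C' : St}
  (N : Nxt P C')

include N

/-- every arrow of a top has a strand -/
theorem x1 : ∀ p ∈ P.TA, 1 ≤ P.X p.1 p.2 := by
  rintro ⟨T, a⟩ hp
  obtain ⟨g, T', a', rfl, rfl, h3⟩ := N.sub.EC_back N.all (SubGX.ec_of_TA P hp)
  have h1 : (N.sub.f T', N.sub.f a') ∈ P.TA := by
    have := P45.TA_smul g⁻¹ (g • N.sub.f T', g • N.sub.f a') hp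
    have e : g⁻¹ • ((g • N.sub.f T', g • N.sub.f a') : V × V) = (N.sub.f T', N.sub.f a') :=
      Prod.ext (inv_smul_smul _ _) (inv_smul_smul _ _)
    rwa [e] at this
  have h2 : (T', a') ∈ C'.P.TA := (N.sub.TA_iff C'.P P (T', a')).2 h1
  have h4 := C'.cls.x1 _ h2
  rw [N.sub.X_eq C'.P P h3.E] at h4
  show 1 ≤ P.X (g • N.sub.f T') (g • N.sub.f a')
  rw [P45.X_smul]
  exact h4

end Nxt

namespace SyQ

section

variable {C : Cd} (hC : C.LW) {V : Type} [MulAction C.H V] {S : SyQ C.H V} {f : V → C.V}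
  (Ov : OvC C S.K S.P f) {w : S.X} {O : S.OR w} {E : V → Prop} (h : S.Psv w O E)
  (hF : ∀ u q, ¬ Fld w O u q)
  (tu : ∀ u : S.EV w, (S.kf h.gd.conn w O).VC (S.fq w O (Sum.inr u)))
  {C' : St} (N : Nxt (h.kP O).thinP C')

include hF in
/-- the links of the classes which cross no edge, and of the sinks `t_u` -/
theorem Psv.lc_kf (c : S.Q w O) :
    (S.kf h.gd.conn w O).LC c ∨ ∃ (u x : _) (hu : S.D.G.Adj w u), S.Cs w u x ∧
      c = S.fq w O (S.rho w x) ∧ S.arQ w O c (S.fq w O (Sum.inr ⟨u, hu⟩)) := by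
  have hm := k0_min h.gd.conn h.wm
  have hn := S.sqN h.gd.conn w O
  rcases cls3 c with ⟨u, rfl⟩ | k | ⟨q, hq, rfl⟩
  · exact Or.inl (kf_lc_t hm hn hF u)
  · exact Or.inr k
  · exact Or.inl (kf_lc_one hm hn h.sq.nd hF hq (h.lc q))

include hC Ov hF tu in
/-- THE NEXT STATE IS A FULL PART -/
theorem Psv.fullC : N.sub.Full := by
  have hm := k0_min h.gd.conn h.wm
  have hn := S.sqN h.gd.conn w O
  have hK : S.KIn w := KIn.of h.sq h.noE
  have hs : (h.kP O).thinP.SqT := kf_thin_SqT h.nf hK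
  have hNm : (h.kP O).thin.Min := (h.kP O).thin_Min.2 (S.kf_min h.gd.conn w O hm)
  have R : S.Ovw w (h.toSy1.kP O).thin (S.fq w O) :=
    (Ovw.kf h.gd.conn O (k0_min h.gd.conn h.wm)).thin (h.toSy1.kP O)
  have h5 : ∀ i : (h.toSy1.kP O).thin.I, 4 < ((h.toSy1.kP O).thin.cw i).length →
      ∃ i', N.sub.ι i' = i := fun i _ => N.all i
  have hmin : ∀ (H'' V'' : Type) [Group H''] [MulAction H'' V''] (K'' : GX H'' V''), ¬ SA H'' →
      C'.K.area ≤ K''.area := C'.min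
  refine N.sub.full_old N.all C'.lc C'.bad ?_ ?_ ?_ ?_
  · -- finite sinks of the part are old
    rintro v' hv hf ⟨e, he⟩
    obtain ⟨x, h1, h2, h3⟩ := Ov.vs_mem h.gd h.wm R N.sub h5 hC C'.cls.toSqE C'.cls.x1 C'.bad hmin
      C'.lc hv hf he.E
    rw [h3]
    exact R.snk x h1.1 h2
  · intro v a b c hf ha hb hc
    by_cases hab : a = b
    · rw [hab]
      exact Relation.EqvGen.refl _
    · exact hs.pole_join hNm N.x1 ha hb hab (GX.EC_iff.2 ⟨c, hc⟩).symm
  · intro v hv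
    rw [(h.kP O).thin_CLC]
    rcases h.lc_kf hF v with k | ⟨u, x, hu, hx, rfl, k⟩
    · exact k.clc
    · exact absurd k (hv _)
  · intro v hv hi hvc
    rw [(h.kP O).thin_LC]
    rcases h.lc_kf hF v with k | ⟨u, x, hu, hx, e, k⟩
    · exact k
    · exfalso
      -- a heavy arrow to `t_u` in a cell
      subst e
      have hec := ec_cross hm hn hF hu (tu ⟨u, hu⟩) hx
      have hec' : (h.kP O).thin.EC (S.fq w O (S.rho w x)) (S.fq w O (Sum.inr ⟨u, hu⟩)) :=
        (h.kP O).thin_EC.2 hec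
      obtain ⟨g, n', v', e1, e2, h3⟩ := N.sub.EC_back N.all hec'
      have har : C'.K.ar n' v' := by
        rw [N.sub.ar_iff]
        have : (h.kP O).thin.ar (g • N.sub.f n') (g • N.sub.f v') := by
          rw [e1, e2]
          exact k
        exact (GX.ar_smul_iff g).1 this
      have ev : N.sub.f v' = S.fq w O (Sum.inr (g⁻¹ • ⟨u, hu⟩)) := by
        have : g⁻¹ • (g • N.sub.f v') = g⁻¹ • S.fq w O (Sum.inr ⟨u, hu⟩) := by rw [e2]
        rw [inv_smul_smul] at this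
        rw [this, ← fq_smul]
        rfl
      have hsn : C'.K.Snk v' := N.sub.snk (by rw [ev]; exact R.t _)
      have hinf : Infinite ↥(stabilizer C'.H ((n', v') : C'.V × C'.V)) := by
        apply N.sub.inf_edge h3.E
        have h6 : Infinite ↥(stabilizer ↥(stabilizer C.H w)
            (g • ((N.sub.f n', N.sub.f v') : S.Q w O × S.Q w O))) := by
          have : g • ((N.sub.f n', N.sub.f v') : S.Q w O × S.Q w O) =
              (S.fq w O (S.rho w x), S.fq w O (Sum.inr ⟨u, hu⟩)) := Prod.ext e1 e2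
          rw [this]
          exact inf_pole (K := S.kf h.gd.conn w O) k hi
        exact (GX.inf_smul_iff g _).1 h6
      obtain ⟨y, h1, h2, h3'⟩ := Ov.hv_mem h.gd h.tog h.wm R N.sub h5 hC C'.cls.toSqE C'.cls.x1
        C'.bad hmin C'.lc har hsn hinf
      rw [ev] at h3'
      exact R.nt y _ h1 h2 h3'

include hF tu in
/-- a class in no cell is a leaf -/
theorem Psv.leaf (c : S.Q w O) (hc : ¬ (h.kP O).thin.VC c) :
    ∃ a, ∀ b, (h.kP O).thin.E c b → b = a := by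
  rw [(h.kP O).thin_VC] at hc
  exact kf_leaf (k0_min h.gd.conn h.wm) (S.sqN h.gd.conn w O) h.sq.nd hF h.lc tu c hc

include hC Ov hF tu in
/-- THE GROUP OF THE NEXT STATE IS THE WHOLE GROUP `H_w` -/
theorem Psv.surj : Function.Surjective N.sub.φ := fun k =>
  ((h.fullC hC Ov hF tu N).surj_of_leaf (h.leaf hF tu)).1 k

end

end SyQ

/-! ### the numbers of the self pieces and of the tops -/

namespace SubGX.Full

section

variable {H' V' H V F F' : Type} [Group H'] [MulAction H' V'] [Group H] [MulAction H V]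
  [MulAction H F] [MulAction H' F'] {K' : GX H' V'} {K : GX H V} {S : SubGX K' K}
  {C' : FC K' F'} {C : FC K F} (Fu : S.Full) (T : FSub S C' C)

include Fu in
theorem flag_back {e : F} {y : V'} (h1 : C.y e = S.f y) (h2 : K.ar (C.y e) (C.z e)) :
    ∃ e', T.ψ e' = e ∧ C'.y e' = y := by
  rw [h1] at h2
  obtain ⟨b, h3, h4⟩ := Fu.out h2
  obtain ⟨e', rfl⟩ := T.back e y b (Or.inl h4) h1 h3.symm
  refine ⟨e', rfl, S.f_inj ?_⟩
  rw [← h1, T.ψ_y]

theorem ow_iff (e : F') : C'.Ow e ↔ C.Ow (T.ψ e) := by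
  unfold FC.Ow
  rw [T.ψ_sq, T.ψ_x, T.ψ_y, T.ψ_z, S.ar_iff, S.ar_iff]

theorem zr (e : F') : C.z (C.r (T.ψ e)) = S.f (C'.z (C'.r e)) := by
  rw [T.ψ_r, T.ψ_z]

theorem sm_iff (e e' : F') : C'.Sm e e' ↔ C.Sm (T.ψ e) (T.ψ e') := by
  unfold FC.Sm
  rw [T.ψ_sq, T.ψ_sq, T.ψ_x, T.ψ_x, T.ψ_y, T.ψ_y, T.ψ_z, T.ψ_z, zr T, zr T, S.f_inj.eq_iff,
    S.f_inj.eq_iff, S.f_inj.eq_iff, S.f_inj.eq_iff, T.ψ_inj.eq_iff]

include Fu T in
theorem fcFat_iff (y : V') : C'.Fat y ↔ C.Fat (S.f y) := by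
  constructor
  · rintro ⟨e, e', h1, h2, h3, h4, k1, k2, h5⟩
    refine ⟨T.ψ e, T.ψ e', by rw [T.ψ_y, h1], by rw [T.ψ_y, h2], ?_, by rw [T.ψ_z, T.ψ_z, h4],
      fun k => k1 ((ow_iff T e).2 k), fun k => k2 ((ow_iff T e').2 k), ?_⟩
    · rw [T.ψ_z]
      exact (S.ar_iff _ _).1 h3
    · intro g hg
      have e1 : g • S.f (C'.y e) = S.f (C'.y e') := by
        have := hg.yy
        rwa [C.y_smul, T.ψ_y, T.ψ_y] at this
      obtain ⟨k, rfl, -⟩ := Fu.back e1
      rw [← T.ψ_smul] at hg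
      exact h5 k ((sm_iff T _ _).2 hg)
  · rintro ⟨e, e', h1, h2, h3, h4, k1, k2, h5⟩
    obtain ⟨e, rfl, rfl⟩ := flag_back Fu T h1 (by rw [h1]; exact h3)
    obtain ⟨e', rfl, h6⟩ := flag_back Fu T h2 (by rw [h2, h4]; exact h3)
    refine ⟨e, e', rfl, h6, (S.ar_iff _ _).2 (by rw [← T.ψ_z]; exact h3), S.f_inj ?_,
      fun k => k1 ((ow_iff T e).1 k), fun k => k2 ((ow_iff T e').1 k), ?_⟩
    · rw [← T.ψ_z, ← T.ψ_z, h4]
    · intro g hg
      apply h5 (S.φ g)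
      rw [← T.ψ_smul]
      exact (sm_iff T _ _).1 hg

include T in
theorem sf_iff (e : F') : C'.Sf e ↔ C.Sf (T.ψ e) := by
  constructor
  · rintro ⟨h1, g, h2, h3, h4⟩
    refine ⟨(T.strs_iff e).1 h1, S.φ g, ?_, ?_, ?_⟩
    · rw [T.ψ_y, ← S.f_smul, h2]
    · rw [T.ψ_y, T.ψ_x, ← S.f_smul]
      exact T.ij_map h3
    · rw [T.ψ_z, ← S.f_smul]
      exact fun k => h4 (S.f_inj k)
  · rintro ⟨h1, g, h2, h3, h4⟩
    have h1' := (T.strs_iff e).2 h1
    rw [T.ψ_y] at h2 h3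
    rw [T.ψ_x] at h3
    obtain ⟨k, rfl, h5, h6⟩ := T.grp h1'.1 h2 h3
    refine ⟨h1', k, h5, h6, fun k' => h4 ?_⟩
    rw [T.ψ_z, ← S.f_smul, k']

include Fu T in
/-- THE NUMBER OF THE SELF PIECES OF THE FAT SOFTS -/
theorem nN_eq : C'.nN = C.nN := by
  have h := T.oc_codes (A' := {e | C'.Fat (C'.y e) ∧ C'.Sf e}) (A := {e | C.Fat (C.y e) ∧ C.Sf e})
    (fun g e he => ⟨by rw [C.y_smul]; exact he.1.smul g, he.2.smul g⟩)
    (fun e => by
      show (_ ∧ _) ↔ (_ ∧ _)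
      rw [T.ψ_y, fcFat_iff Fu T, sf_iff T])
    (fun e he => he.2.1.1)
  have e1 : ∀ {H V F : Type} [Group H] [MulAction H V] [MulAction H F] {K : GX H V} (C : FC K F),
      C.spP C.Fat = (fun f => (NF.pol (C.y f) (C.y f) (C.Pc (C.y f) (C.x f)) : NF V F)) ''
        {e | C.Fat (C.y e) ∧ C.Sf e} := by
    intro H V F _ _ _ K C
    ext t
    constructor
    · rintro ⟨e, rfl, h1, h2⟩
      exact ⟨e, ⟨h1, h2⟩, rfl⟩
    · rintro ⟨e, ⟨h1, h2⟩, rfl⟩
      exact ⟨e, rfl, h1, h2⟩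
  unfold FC.nN FC.nNP
  rw [e1, e1]
  exact h

end

end SubGX.Full

end Pool.Agent.DI
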