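import Pool.Agent.DI.PhA
import Pool.Agent.DI.BndE
import Pool.Agent.DI.Thin2
import Pool.Agent.DI.ExcT

/-!
# Bound, thinning and cut of `phi_0` (owner: helper16)

`P45.thA_not_TA`: in a complex with `1 ≤ X` at the arrows of the tops, an arrow of `K.ThA` (direct, one
orbit of flags) is no arrow of a top. `P45.phA_le : K.phA + P.sm P.TA ≤ 5 * K.area`, `Cls.phA_le`.
`P45.thin_ThA : K.ThA ⊆ P.thin.ThA`, `P45.thin_phA : K.phA ≤ P.thin.phA`.
`SubGX.phA_le`: a part with all cells has at least as many such arrows: `K.phA ≤ K'.phA`.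
-/

namespace Pool.Agent.DI

open MulAction
open Pool.Agent.SAF (InC orbs FinOrb oc mk_eq_iff FinOrb_iff)

section

variable {H V : Type} [Group H] [MulAction H V] {K : GX H V}

/-- the arrows of `ThA` are finitely many orbits -/
theorem fin_ThA : FinOrb H K.ThA := by
  refine SAF.FinOrb.image (P45.fin_FL (K := K)) (fun f : FL K => (P45.fy f, P45.fz f)) ?_ ?_
  · rintro p ⟨-, -, ⟨f, hf⟩, -⟩
    exact ⟨f, Set.mem_univ _, 1, by rw [one_smul]; exact hf⟩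
  · rintro f - f' - ⟨h, rfl⟩
    exact ⟨h, (P45.fyz_smul h f).symm⟩

namespace P45

variable {P : P45 K}

/-- a flag with the corner of a walk -/
theorem Q4_flag {n T a q : V} (h : Q4 P n T a q) :
    ∃ f : FL K, P.sq f.1.1.1 ∧ fx f = n ∧ fy f = T ∧ fz f = a := by
  obtain ⟨e, h1, h2, ⟨h3, h4⟩ | ⟨h3, h4⟩⟩ := Q4_fl h
  · exact ⟨(e, true), h1, h3, h2, h4⟩
  · exact ⟨(e, false), h1, h4, h2, h3⟩

/-- AN ARROW WITH ONE ORBIT OF FLAGS IS NO ARROW OF A TOP -/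
theorem thA_not_TA (x1 : ∀ p ∈ P.TA, 1 ≤ P.X p.1 p.2) {p : V × V} (h : p ∈ K.ThA) :
    p ∉ P.TA := by
  rintro ⟨b, y, k⟩
  obtain ⟨h1, h2, -, h4⟩ := h
  obtain ⟨f0, s0, x0, y0, z0⟩ := Q4_flag k.1.symm
  have e0 : (fy f0, fz f0) = p := Prod.ext y0 z0
  rcases X_pos (x1 p ⟨b, y, k⟩) with ⟨f, hf, e⟩ | ⟨q, n, hz⟩
  · obtain ⟨g, hg⟩ := h4 f0 f e0 e
    apply hf.1
    rw [← hg]
    exact s0
  · obtain ⟨f, sf, xf, yf, zf⟩ := Q4_flag hz.1
    have e1 : (fy f, fz f) = p := Prod.ext yf zf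
    obtain ⟨g, hg⟩ := h4 f0 f e0 e1
    have hy : g • p.1 = p.1 := by
      have := congrArg fy hg
      rw [fy_smul, y0, yf] at this
      exact this
    have hx : g • b = n := by
      have := congrArg fx hg
      rw [fx_smul, x0, xf] at this
      exact this
    have k1 := K.ar_smul g _ _ k.2.2
    rw [hy, hx] at k1
    exact GX.not_both' k1 hz.2.2

/-- THE BOUND OF `phi_0` -/
theorem phA_le {E : V → Prop} (hs : P.SqE E) (x1 : ∀ p ∈ P.TA, 1 ≤ P.X p.1 p.2) :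
    K.phA + P.sm P.TA ≤ 5 * K.area :=
  ars_le hs x1 (fun h _ hp => ThA_smul h hp) (fun _ hp => ⟨hp.2.2.1.choose,
    hp.2.2.1.choose_spec, hp.1⟩) (fun _ hp => thA_not_TA x1 hp)

theorem Cls.phA_le (hs : P.Cls) : K.phA ≤ 5 * K.area :=
  (Nat.le_add_right _ _).trans (P45.phA_le hs.toSqE hs.x1)

variable (P)

/-- THINNING: the arrows with one orbit of flags stay such arrows -/
theorem thin_ThA : K.ThA ⊆ P.thin.ThA := by
  rintro p ⟨h1, h2, ⟨f, hf⟩, h4⟩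
  refine ⟨h1, h2, ?_, ?_⟩
  · by_cases hs : P.sq f.1.1.1
    · obtain ⟨q, hq⟩ := fl_Q4e hs
      obtain ⟨f', -, -, e1, e2⟩ := Q4_flag (P := P.thinP) (P.thin_Q4.2 hq)
      exact ⟨f', by rw [e1, e2]; exact hf⟩
    · obtain ⟨f', rfl⟩ := P.tF_surj f (P.rp_not hs)
      exact ⟨f', hf⟩
  · intro f1 f2 k1 k2
    obtain ⟨g, hg⟩ := h4 (P.tF f1) (P.tF f2) k1 k2
    exact ⟨g, P.tF_inj (by rw [P.tF_smul]; exact hg)⟩

/-- `phi_0` DOES NOT DROP BY THINNING -/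
theorem thin_phA : K.phA ≤ P.thin.phA := SAF.oc_mono fin_ThA P.thin_ThA

end P45

end

namespace SubGX

variable {H' V' H V : Type} [Group H'] [MulAction H' V'] [Group H] [MulAction H V]
  {K' : GX H' V'} {K : GX H V} (S : SubGX K' K)

theorem fl_surj16 (hall : ∀ i : K.I, ∃ i', S.ι i' = i) (f : FL K) :
    ∃ (h : H) (f' : FL K'), h • S.fl f' = f := by
  obtain ⟨e, b⟩ := f
  obtain ⟨h, e', rfl⟩ := S.le_surj' hall e
  exact ⟨h, (e', b), rfl⟩

/-- `phi_0` DOES NOT DROP IN A PART WITH ALL CELLS -/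
theorem phA_le (hall : ∀ i : K.I, ∃ i', S.ι i' = i)
    (hD : ∀ y a, K'.ar y a → DrN K (S.f y) (S.f a) → DrN K' y a) : K.phA ≤ K'.phA := by
  refine SAF.oc_le_of_surj fin_ThA (fun p => (S.f p.1, S.f p.2)) ?_ ?_
  · rintro ⟨y, a⟩ hp
    obtain ⟨h1, h2, ⟨f, hf⟩, h4⟩ := id hp
    obtain ⟨h, f', rfl⟩ := S.fl_surj16 hall f
    rw [P45.fyz_smul, S.fy_fl, S.fz_fl] at hf
    refine ⟨(P45.fy f', P45.fz f'), ?_, h, hf⟩
    have hp' : (S.f (P45.fy f'), S.f (P45.fz f')) ∈ K.ThA := by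
      have := ThA_smul h⁻¹ hp
      rw [← hf, inv_smul_smul] at this
      exact this
    obtain ⟨l1, l2, -, l4⟩ := hp'
    refine ⟨(S.ar_iff _ _).2 l1, hD _ _ ((S.ar_iff _ _).2 l1) l2, ⟨_, rfl⟩, ?_⟩
    · intro f1 f2 k1 k2
      have m1 : (P45.fy (S.fl f1), P45.fz (S.fl f1)) =
          (S.f (P45.fy f'), S.f (P45.fz f')) := by
        have a1 : P45.fy f1 = P45.fy f' := congrArg Prod.fst k1
        have a2 : P45.fz f1 = P45.fz f' := congrArg Prod.snd k1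
        rw [S.fy_fl, S.fz_fl, a1, a2]
      have m2 : (P45.fy (S.fl f2), P45.fz (S.fl f2)) =
          (S.f (P45.fy f'), S.f (P45.fz f')) := by
        have a1 : P45.fy f2 = P45.fy f' := congrArg Prod.fst k2
        have a2 : P45.fz f2 = P45.fz f' := congrArg Prod.snd k2
        rw [S.fy_fl, S.fz_fl, a1, a2]
      obtain ⟨g, hg⟩ := l4 _ _ m1 m2
      exact S.fl_back hg
  · rintro a - b - ⟨h, rfl⟩
    exact ⟨S.φ h, Prod.ext (S.f_smul h a.1).symm (S.f_smul h a.2).symm⟩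

end SubGX

/-- THE NEXT STATE -/
theorem Nxt.phA {H V : Type} [Group H] [MulAction H V] {K : GX H V} {P : P45 K} {C' : St}
    (N : Nxt P C') (hD : ∀ y a, C'.K.ar y a → DrN K (N.sub.f y) (N.sub.f a) → DrN C'.K y a) :
    K.phA ≤ C'.K.phA := N.sub.phA_le N.all hD

/-- THE BOUND for states -/
theorem St.phA_le (C : St) : C.K.phA ≤ 5 * C.K.area := C.cls.phA_le

theorem exists_phA_bound : ∃ B : ℕ, ∀ C : St, C.K.phA ≤ B := by
  by_cases h : Nonempty St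
  · obtain ⟨C0⟩ := h
    refine ⟨5 * C0.K.area, fun C => ?_⟩
    rw [← C.area_unique C0]
    exact C.phA_le
  · exact ⟨0, fun C => absurd ⟨C⟩ h⟩

end Pool.Agent.DI
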