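import Pool.Agent.DI.CutF
import Pool.Agent.DI.PhN

/-!
# DI/PhF: direct arrows in a full part (owner: helper16)

`Full.ny_iff`, `Full.drN`: a direct arrow of the complex between vertices of a full part is a direct arrow
of the part. `Full.phA_le`: a full part has at least as many arrows of `ThA`.
-/

namespace Pool.Agent.DI

open MulAction
open Pool.Agent.SAG (IO Zt)

namespace SubGX

namespace Full

variable {H' V' H V : Type} [Group H'] [MulAction H' V'] [Group H] [MulAction H V]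
  {K' : GX H' V'} {K : GX H V} {S : SubGX K' K} (F : S.Full)

include F

theorem ny_iff {a : V'} {k : H'} : NY a k ↔ NY (S.f a) (S.φ k) := by
  constructor
  · rintro ⟨h1, h2, t, h3, h4, h5⟩
    refine ⟨?_, fun e => h2 ((io_map S.φ S.φ_inj).1 e), S.φ t, ?_,
      (io_map S.φ S.φ_inj).2 h4, ?_⟩
    · rw [← S.f_smul, h1]
    · rw [← S.f_smul, h3]
    · rw [← map_mul, ← map_mul, h5]
  · rintro ⟨h1, h2, t, h3, h4, h5⟩
    obtain ⟨t, rfl⟩ := F.stab t h3
    refine ⟨?_, fun e => h2 ((io_map S.φ S.φ_inj).2 e), t, ?_,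
      (io_map S.φ S.φ_inj).1 h4, ?_⟩
    · apply S.f_inj
      rw [S.f_smul, h1]
    · apply S.f_inj
      rw [S.f_smul, h3]
    · apply S.φ_inj
      rw [map_mul, map_mul, h5]

/-- A DIRECT ARROW OF THE COMPLEX IS A DIRECT ARROW OF THE FULL PART -/
theorem drN {y a : V'} (h : DrN K (S.f y) (S.f a)) : DrN K' y a := by
  refine ⟨fun g g1 g2 c hc => ?_, fun hs hi g g1 g2 => ?_⟩
  · apply S.f_inj
    rw [S.f_smul]
    refine h.1 (S.φ g) ?_ ?_ _ ((S.ar_iff _ _).1 hc)
    · show S.φ g • S.f y = S.f y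
      rw [← S.f_smul, g1]
    · show S.φ g • S.f a = S.f a
      rw [← S.f_smul, g2]
  · refine F.ny_iff.2 (h.2 (F.snk_iff.1 hs) ((F.inf_iff _).1 hi) (S.φ g) ?_ ?_)
    · rw [← S.f_smul, g1]
    · rw [← S.f_smul, g2]

/-- `phi_0` DOES NOT DROP IN A FULL PART -/
theorem phA_le : K.phA ≤ K'.phA := S.phA_le F.all fun _ _ _ h => F.drN h

end Full

end SubGX

end Pool.Agent.DI
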