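import Pool.Agent.DI.Main0
import Pool.Agent.DI.CutM
import Pool.Agent.DI.PhF

/-!
# DI/CutG: THE CUT LAW

`Psv.cut_le`: the field `cut` of `Laws`. Inputs: no vertex over `w` is folded to a sink `t_u` (`hF`); if
sigma and the excess are constant then all sinks of the folded slice lie in cells (`snk`).
-/

namespace Pool.Agent.DI

open MulAction
open Pool.Agent.SAF (InC SA orbs FinOrb oc Decomp)

namespace SyQ

/-- a vertex with two edges of diamonds is not folded to a sink -/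
theorem no_fld {H V : Type} [Group H] [MulAction H V] {S : SyQ H V} {w : S.X} {O : S.OR w}
    (opn : ∀ u q, w ∈ S.J q → ¬ S.P.Bare q → O.op u q)
    (two : ∀ q, w ∈ S.J q → S.P.Bare q → ∃ u u', S.Dia w u q ∧ S.Dia w u' q ∧ u ≠ u') :
    ∀ u q, ¬ Fld w O u q := by
  intro u q h
  have hq := h.mem
  by_cases hb : S.P.Bare q
  · obtain ⟨u1, u2, h1, h2, hne⟩ := two q hq hb
    exact hne ((h.1.2 u1 h1).trans (h.1.2 u2 h2).symm)
  · exact h.2 (opn u q hq hb)

variable {C : Cd} (hC : C.LW) {V : Type} [MulAction C.H V] {S : SyQ C.H V} {f : V → C.V}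
  (Ov : OvC C S.K S.P f) {w : S.X} {O : S.OR w} {E : V → Prop} (h : S.Psv w O E)
  (hF : ∀ u q, ¬ Fld w O u q)
  (snk : h.Eq2 → ∀ c, (S.kf h.gd.conn w O).Snk c → (S.kf h.gd.conn w O).VC c)
  (C' : St) (N : Nxt (h.kP O).thinP C')

include hC Ov hF snk N in
/-- THE CUT LAW -/
theorem Psv.cut_le :
    h.kNums.s ≤ C'.nums.s ∧ h.kNums.e ≤ C'.nums.e ∧ (h.Eq2 → C'.nums.Le h.kNums) := by
  have hK : S.KIn w := KIn.of h.sq h.noE
  have hs : (h.kP O).thinP.SqT := kf_thin_SqT h.nf hK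
  have es : C'.nums.s = h.kNums.s := N.sigma
  have ee : C'.nums.e = h.kNums.e := N.exc hs
  refine ⟨es.symm.le, ee.symm.le, fun he => ?_⟩
  have tu : ∀ u : S.EV w, (S.kf h.gd.conn w O).VC (S.fq w O (Sum.inr u)) := fun u =>
    snk he _ fun d k => not_arQ_inr (S := S) k
  have Fu := h.fullC hC Ov hF tu N
  have su := h.surj hC Ov hF tu N
  have hv : ∀ v, (h.kP O).thin.Snk v → (h.kP O).thin.VC v := fun v k => by
    rw [(h.kP O).thin_VC]
    exact snk he v k
  have hnd := (h.kP O).thin_ND (h.kP_nd O)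
  exact ⟨es.symm.le, ee.symm.le, (Fu.nN_eq (N.sub.fsub C'.P (h.kP O).thinP C'.nd hnd N.all)).le,
    Fu.p4_le su, Fu.p5_le su, Fu.nVD_le, Fu.phA_le,
    (Fu.nVZ_of hv).symm.le⟩

end SyQ

end Pool.Agent.DI
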