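import Pool.Agent.DI.CutF
import Pool.Agent.DI.ExcG

/-!
# DI/FExc: corners, pieces and the pole excess of full parts

`S : SubGX K' K`. `S.le : K'.LE → K.LE` (corners of the part as corners of the complex, `le_c0`,
`le_c1`, `le_c2`, equivariant), for full parts (`F : S.Full`): `F.le_surj`, `F.oc_LE` (orbits of corners with
a property), `F.IJ_iff`, `F.IJ_out`, `F.Pc_im`, `F.oc_pols`, `F.oc_strs`, `F.pexc_eq`.
-/

namespace Pool.Agent.DI

open MulAction
open Pool.Agent.SAF (InC SA orbs FinOrb oc FinOrb_iff mk_eq_iff exists_rep oc_le_of_inj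
  oc_le_of_surj oc_mono oc_lt_of_inj)

namespace SubGX

variable {H' V' H V : Type} [Group H'] [MulAction H' V'] [Group H] [MulAction H V]
  {K' : GX H' V'} {K : GX H V}

section

variable (S : SubGX K' K)

/-- the element which moves the vertices of a cell of `K` to those of the part -/
noncomputable def le1 (i : K'.I) : H := (S.vx_f i).choose

theorem le1_spec (i : K'.I) (j : ℕ) : S.f (K'.vx i j) = S.le1 i • K.vx (S.ι i) j :=
  (S.vx_f i).choose_spec j

/-- the corners of the part as corners of the complex -/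
noncomputable def le (e : K'.LE) : K.LE := (S.pos e.1, S.φ e.2 * S.le1 e.1.1)

theorem le_c (i : K'.I) (h : H') (j : ℕ) :
    (S.φ h * S.le1 i) • K.vx (S.ι i) j = S.f (h • K'.vx i j) := by
  rw [mul_smul, ← S.le1_spec, S.f_smul]

theorem le_c0 (e : K'.LE) : K.c0 (S.le e) = S.f (K'.c0 e) := S.le_c e.1.1 e.2 _

theorem le_c1 (e : K'.LE) : K.c1 (S.le e) = S.f (K'.c1 e) := S.le_c e.1.1 e.2 _

theorem le_c2 (e : K'.LE) : K.c2 (S.le e) = S.f (K'.c2 e) := S.le_c e.1.1 e.2 _

theorem le_smul (h : H') (e : K'.LE) : S.le (h • e) = S.φ h • S.le e := by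
  refine Prod.ext rfl ?_
  show S.φ (h * e.2) * S.le1 e.1.1 = S.φ h * (S.φ e.2 * S.le1 e.1.1)
  rw [map_mul, mul_assoc]

/-- corners of the part in one orbit of the complex are in one orbit of the part -/
theorem le_back {e e2 : K'.LE} {h : H} (hh : h • S.le e = S.le e2) : ∃ k : H', k • e = e2 := by
  have h1 : S.pos e.1 = S.pos e2.1 := congrArg Prod.fst hh
  have h2 := S.pos_inj h1
  exact ⟨e2.2 * e.2⁻¹, Prod.ext h2 (inv_mul_cancel_right _ _)⟩

end

namespace Full

variable {S : SubGX K' K} (F : S.Full)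

include F

theorem le_surj (e : K.LE) : ∃ (h : H) (e' : K'.LE), h • S.le e' = e := by
  obtain ⟨⟨i, j⟩, g⟩ := e
  obtain ⟨i', rfl⟩ := F.all i
  have hj : (j : ℕ) < K'.len i' := by
    rw [S.len_eq]
    exact j.2
  refine ⟨g * (S.le1 i')⁻¹, (⟨i', ⟨j, hj⟩⟩, 1), ?_⟩
  refine Prod.ext rfl ?_
  show g * (S.le1 i')⁻¹ * (S.φ 1 * S.le1 i') = g
  rw [map_one, one_mul, inv_mul_cancel_right]

/-- the orbits of corners with a property -/
theorem oc_LE {Q' : Set K'.LE} {Q : Set K.LE} (hQ : ∀ (h : H) e, e ∈ Q → h • e ∈ Q)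
    (hiff : ∀ e : K'.LE, e ∈ Q' ↔ S.le e ∈ Q) : oc H' Q' = oc H Q := by
  apply le_antisymm
  · refine oc_le_of_inj (SAF.FinOrb.mono (Set.subset_univ _) K.fin_LE) S.le
      (fun e he => (hiff e).1 he) ?_
    rintro e _ e2 _ ⟨h, hh⟩
    exact S.le_back hh
  · refine oc_le_of_surj (SAF.FinOrb.mono (Set.subset_univ _) K'.fin_LE) S.le ?_ ?_
    · intro e he
      obtain ⟨h, e', rfl⟩ := F.le_surj e
      refine ⟨e', (hiff e').2 ?_, h, rfl⟩
      have := hQ h⁻¹ _ he
      rwa [inv_smul_smul] at this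
    · rintro a _ b _ ⟨h, rfl⟩
      exact ⟨S.φ h, (S.le_smul h a).symm⟩

/-- `# strands` -/
theorem oc_strs : oc H' K'.strs = oc H K.strs := by
  refine F.oc_LE K.strs_inv fun e => ?_
  show _ ↔ (K.ar (K.c0 (S.le e)) (K.c1 (S.le e)) ∧ K.ar (K.c1 (S.le e)) (K.c2 (S.le e))) ∨
    (K.ar (K.c2 (S.le e)) (K.c1 (S.le e)) ∧ K.ar (K.c1 (S.le e)) (K.c0 (S.le e)))
  rw [S.le_c0, S.le_c1, S.le_c2, ← S.ar_iff, ← S.ar_iff, ← S.ar_iff, ← S.ar_iff]
  exact Iff.rfl

/-- corners between in-arrows -/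
theorem IC_iff {v a b : V'} : K'.IC v a b ↔ K.IC (S.f v) (S.f a) (S.f b) := by
  unfold GX.IC
  rw [F.cor_iff, S.ar_iff, S.ar_iff]

/-- the elements of the piece of an in-arrow of the part come from the part -/
theorem IJ_out {v a : V'} (ha : K'.ar a v) {c : V} (h : K.IJ (S.f v) (S.f a) c) :
    ∃ c', S.f c' = c ∧ K'.IJ v a c' := by
  have key : ∀ b c, K.IJ (S.f v) b c →
      ((∃ b', S.f b' = b ∧ K'.IJ v a b') ↔ ∃ c', S.f c' = c ∧ K'.IJ v a c') := by
    intro b c k
    induction k with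
    | rel b c k =>
      have one : ∀ b c, K.IC (S.f v) b c → (∃ b', S.f b' = b ∧ K'.IJ v a b') →
          ∃ c', S.f c' = c ∧ K'.IJ v a c' := by
        rintro b c k ⟨b', rfl, hb⟩
        have h1 : K'.ar b' v := (GX.IJ.ar hb).1 ha
        obtain ⟨c', rfl, hc⟩ := S.corner_back (Or.inr h1) k.1
        exact ⟨c', rfl, hb.trans' (Relation.EqvGen.rel _ _ (F.IC_iff.2 k))⟩
      exact ⟨one _ _ k, one _ _ k.symm'⟩
    | refl b => exact Iff.rfl
    | symm b c _ ih => exact ih.symm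
    | trans b c d _ _ i1 i2 => exact i1.trans i2
  exact (key _ _ h).1 ⟨a, rfl, Relation.EqvGen.refl a⟩

omit F in
theorem IJ_map (F : S.Full) {v a b : V'} (h : K'.IJ v a b) : K.IJ (S.f v) (S.f a) (S.f b) := by
  induction h with
  | rel a b h => exact Relation.EqvGen.rel _ _ (F.IC_iff.1 h)
  | refl a => exact Relation.EqvGen.refl _
  | symm a b _ ih => exact ih.symm'
  | trans a b c _ _ i1 i2 => exact i1.trans' i2

theorem IJ_iff {v a b : V'} (ha : K'.ar a v) : K'.IJ v a b ↔ K.IJ (S.f v) (S.f a) (S.f b) := by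
  refine ⟨F.IJ_map, fun h => ?_⟩
  obtain ⟨c, hc, h1⟩ := F.IJ_out ha h
  rw [← S.f_inj hc]
  exact h1

/-- the pieces -/
theorem Pc_im {v a : V'} (ha : K'.ar a v) : S.f '' K'.Pc v a = K.Pc (S.f v) (S.f a) := by
  ext c
  constructor
  · rintro ⟨m, hm, rfl⟩
    exact F.IJ_map hm
  · intro h
    obtain ⟨c', rfl, h1⟩ := F.IJ_out ha h
    exact ⟨c', h1, rfl⟩

omit F in
/-- `# private poles` -/
theorem oc_pols (F : S.Full) : oc H' K'.pols = oc H K.pols := by
  classical
  let g : PN V' → PN V := fun t => match t with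
    | PN.inn y n => PN.inn (S.f y) (S.f n)
    | PN.pol y a C => PN.pol (S.f y) (S.f a) (S.f '' C)
  have gs : ∀ (h : H') (t : PN V'), g (h • t) = S.φ h • g t := by
    intro h t
    cases t with
    | inn y n =>
      show PN.inn (S.f (h • y)) (S.f (h • n)) = PN.inn (S.φ h • S.f y) (S.φ h • S.f n)
      rw [S.f_smul, S.f_smul]
    | pol y a C =>
      show PN.pol (S.f (h • y)) (S.f (h • a)) (S.f '' ((fun x => h • x) '' C)) =
        PN.pol (S.φ h • S.f y) (S.φ h • S.f a) ((fun x => S.φ h • x) '' (S.f '' C))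
      rw [S.f_smul, S.f_smul, Set.image_image, Set.image_image]
      congr 1
      ext z
      constructor
      · rintro ⟨x, hx, rfl⟩
        exact ⟨x, hx, (S.f_smul h x).symm⟩
      · rintro ⟨x, hx, rfl⟩
        exact ⟨x, hx, S.f_smul h x⟩
  have gm : ∀ t ∈ K'.pols, g t ∈ K.pols := by
    rintro _ ⟨y, a, n, rfl, h1, h2, h3⟩
    refine ⟨S.f y, S.f a, S.f n, ?_, (S.ar_iff _ _).1 h1, (S.ar_iff _ _).1 h2, F.cor_iff.1 h3⟩
    show PN.pol _ _ _ = _
    rw [F.Pc_im h2]
  have ginj : Function.Injective g := by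
    intro t t' e
    cases t with
    | inn y n =>
      cases t' with
      | inn y' n' =>
        have e : PN.inn (S.f y) (S.f n) = PN.inn (S.f y') (S.f n') := e
        injection e with e1 e2
        rw [S.f_inj e1, S.f_inj e2]
      | pol y' a' C' =>
        have e : PN.inn (S.f y) (S.f n) = PN.pol (S.f y') (S.f a') (S.f '' C') := e
        cases e
    | pol y a C =>
      cases t' with
      | inn y' n' =>
        have e : PN.pol (S.f y) (S.f a) (S.f '' C) = PN.inn (S.f y') (S.f n') := e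
        cases e
      | pol y' a' C' =>
        have e : PN.pol (S.f y) (S.f a) (S.f '' C) = PN.pol (S.f y') (S.f a') (S.f '' C') := e
        injection e with e1 e2 e3
        rw [S.f_inj e1, S.f_inj e2, Set.image_injective.2 S.f_inj e3]
  apply le_antisymm
  · refine oc_le_of_inj K.fin_pols g gm ?_
    rintro t ⟨y, a, n, rfl, h1, h2, h3⟩ t' ⟨y', a', n', rfl, h1', h2', h3'⟩ ⟨h, e⟩
    have e' : PN.pol (h • S.f y) (h • S.f a) ((fun x => h • x) '' (S.f '' K'.Pc y n)) =
      PN.pol (S.f y') (S.f a') (S.f '' K'.Pc y' n') := e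
    injection e' with e1 e2 e3
    obtain ⟨k, hk, hk'⟩ := F.back e1
    refine ⟨k, ginj ?_⟩
    rw [gs, hk]
    exact e
  · refine oc_le_of_surj K'.fin_pols g ?_ ?_
    · rintro _ ⟨y, a, n, rfl, h1, h2, h3⟩
      obtain ⟨h, y', rfl⟩ := F.surj (v := y) ⟨a, (GX.EC_iff.2 ⟨_, h3⟩).symm⟩
      -- move the triple back
      have h1' := K.ar_smul h⁻¹ _ _ h1
      have h2' := K.ar_smul h⁻¹ _ _ h2
      have h3' := h3.smul h⁻¹
      rw [inv_smul_smul] at h1' h2' h3'
      obtain ⟨a', b', e1, e2, h4⟩ := F.cor h3'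
      rw [← e1, ← S.ar_iff] at h1'
      rw [← e2, ← S.ar_iff] at h2'
      refine ⟨PN.pol y' a' (K'.Pc y' b'), ⟨y', a', b', rfl, h1', h2', h4⟩, h, ?_⟩
      show PN.pol (h • S.f y') (h • S.f a') ((fun x => h • x) '' (S.f '' K'.Pc y' b')) = _
      rw [F.Pc_im h2', GX.Pc_smul, e1, e2, smul_inv_smul, smul_inv_smul]
    · rintro t _ t' _ ⟨h, rfl⟩
      exact ⟨S.φ h, (gs h t).symm⟩

/-- THE POLE EXCESS OF A FULL PART -/
theorem pexc_eq : K'.pexc = K.pexc := by
  unfold GX.pexc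
  rw [F.oc_strs, F.oc_pols]

end Full

end SubGX

end Pool.Agent.DI
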