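import Pool.Agent.DI.FCut
import Pool.Agent.DI.FExc
import Pool.Agent.DI.FCk

/-!
# DI/CutP: parts of complexes with pentagons and squares

`S : SubGX K' K` a part, `P' : P45 K'`, `P : P45 K` arbitrary (`S.p45 P` exists). `S.psq`: squares are
squares. `S.qn_iff`, `S.q4_iff`: the pentagons and squares of the part are the pentagons and squares of
`K` with vertices in the part. `S.qn_back`, `S.q4_back`: a pentagon or square of `K` with an edge in the
part is in the part. If all cells belong to the part (`hall`): `S.oc_FL` (orbits of flags of cells with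
an invariant property), `S.oc_ar` (orbits of arrows in cells), `S.oc_sq` (orbits of squares as walks).
-/

namespace Pool.Agent.DI

open MulAction
open Pool.Agent.SAF (InC SA orbs FinOrb oc FinOrb_iff mk_eq_iff exists_rep oc_le_of_inj
  oc_le_of_surj oc_mono oc_lt_of_inj)

namespace GX

variable {H V : Type} [Group H] [MulAction H V] (K : GX H V)

theorem cn2_vx (i : K.I) (h : H) {j : ℕ} (hj : j < K.len i) :
    Cn2 (h • K.vx i j) (h • K.vx i (j + 1)) (K.tb i h) (K.tw i h) := by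
  have h1 : Cn2 (K.vx i j) (K.vx i (j + 1)) (K.cb i) (K.cw i) := by
    rw [Cn2_iff_zip, K.vx_of_le hj.le, K.vx_of_le hj, List.mem_iff_getElem]
    have hl : (K.cw i).length = K.len i := rfl
    refine ⟨j, ?_, ?_⟩
    · rw [List.length_zip, List.length_cons]
      omega
    · rw [List.getElem_zip, List.getD_eq_getElem _ _ (by rw [List.length_cons]; omega),
        List.getD_eq_getElem _ _ (by rw [List.length_cons]; omega)]
      rfl
  exact h1.map (fun z => h • z)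

end GX

namespace P45

variable {H V : Type} [Group H] [MulAction H V] {K : GX H V} (P : P45 K)

theorem sq_iff_len {i : K.I} : P.sq i ↔ (K.cw i).length = 4 := by
  constructor
  · intro h
    rw [P.cw4 i h]
    rfl
  · intro h
    by_contra hn
    rw [P.cw5 i hn] at h
    simp at h

theorem len_pos (P : P45 K) (i : K.I) : 0 < K.len i := by
  by_cases h : P.sq i
  · rw [P.len4 h]
    norm_num
  · rw [P.len5 h]
    norm_num

end P45

namespace SubGX

variable {H' V' H V : Type} [Group H'] [MulAction H' V'] [Group H] [MulAction H V]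
  {K' : GX H' V'} {K : GX H V} (S : SubGX K' K)

/-- THE PENTAGONS AND SQUARES OF A PART -/
noncomputable def p45 (P : P45 K) : P45 K' where
  sq i := P.sq (S.ι i)
  pt i k := K'.vx i k.1
  qt i k := K'.vx i k.1
  cb5 i _ := (K'.vx_zero i).symm
  cb4 i _ := (K'.vx_zero i).symm
  cw5 i h := by
    have hl : (K'.cw i).length = 5 := by
      rw [S.cw_length, P.cw5 _ h]
      rfl
    have hn : K'.len i = 5 := hl
    have ht := K'.c_tg i
    obtain ⟨a1, a2, a3, a4, a5, e⟩ : ∃ a1 a2 a3 a4 a5, K'.cw i = [a1, a2, a3, a4, a5] := by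
      generalize K'.cw i = l at hl
      match l, hl with
      | [a1, a2, a3, a4, a5], _ => exact ⟨a1, a2, a3, a4, a5, rfl⟩
    have e5 : a5 = K'.cb i := by
      rw [e] at ht
      exact ht
    have v0 : K'.vx i ((0 : Fin 5) : ℕ) = a5 := by
      rw [e5]
      exact K'.vx_zero i
    have v1 : K'.vx i ((1 : Fin 5) : ℕ) = a1 := by
      rw [K'.vx_of_le (by rw [hn]; decide), e]
      rfl
    have v2 : K'.vx i ((2 : Fin 5) : ℕ) = a2 := by
      rw [K'.vx_of_le (by rw [hn]; decide), e]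
      rfl
    have v3 : K'.vx i ((3 : Fin 5) : ℕ) = a3 := by
      rw [K'.vx_of_le (by rw [hn]; decide), e]
      rfl
    have v4 : K'.vx i ((4 : Fin 5) : ℕ) = a4 := by
      rw [K'.vx_of_le (by rw [hn]; decide), e]
      rfl
    rw [v0, v1, v2, v3, v4, e]
  cw4 i h := by
    have hl : (K'.cw i).length = 4 := by
      rw [S.cw_length, P.cw4 _ h]
      rfl
    have hn : K'.len i = 4 := hl
    have ht := K'.c_tg i
    obtain ⟨a1, a2, a3, a4, e⟩ : ∃ a1 a2 a3 a4, K'.cw i = [a1, a2, a3, a4] := by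
      generalize K'.cw i = l at hl
      match l, hl with
      | [a1, a2, a3, a4], _ => exact ⟨a1, a2, a3, a4, rfl⟩
    have e5 : a4 = K'.cb i := by
      rw [e] at ht
      exact ht
    have v0 : K'.vx i ((0 : Fin 4) : ℕ) = a4 := by
      rw [e5]
      exact K'.vx_zero i
    have v1 : K'.vx i ((1 : Fin 4) : ℕ) = a1 := by
      rw [K'.vx_of_le (by rw [hn]; decide), e]
      rfl
    have v2 : K'.vx i ((2 : Fin 4) : ℕ) = a2 := by
      rw [K'.vx_of_le (by rw [hn]; decide), e]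
      rfl
    have v3 : K'.vx i ((3 : Fin 4) : ℕ) = a3 := by
      rw [K'.vx_of_le (by rw [hn]; decide), e]
      rfl
    rw [v0, v1, v2, v3, e]

variable (P' : P45 K') (P : P45 K)

theorem psq (i : K'.I) : P'.sq i ↔ P.sq (S.ι i) := by
  rw [P'.sq_iff_len, P.sq_iff_len, S.cw_length]

theorem pt_f {i : K'.I} (hi : ¬ P'.sq i) (h : H') (k : Fin 5) :
    S.f (h • P'.pt i k) = (S.φ h * S.le1 i) • P.pt (S.ι i) k := by
  rw [← P'.vx5' hi, ← P.vx5' (fun e => hi ((S.psq P' P i).2 e)), S.le_c]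

theorem qt_f {i : K'.I} (hi : P'.sq i) (h : H') (k : Fin 4) :
    S.f (h • P'.qt i k) = (S.φ h * S.le1 i) • P.qt (S.ι i) k := by
  rw [← P'.vx4 hi, ← P.vx4 ((S.psq P' P i).1 hi), S.le_c]

/-- a translate of a cell of `K` with an edge in the part is a translate of a cell of the part -/
theorem cell_at {i : K.I} {h : H} {j : ℕ} {x y : V'} (e : K'.E x y) (hl : 0 < K.len i)
    (h1 : S.f x = h • K.vx i j) (h2 : S.f y = h • K.vx i (j + 1)) :
    ∃ (i' : K'.I) (h' : H'), S.ι i' = i ∧ S.φ h' * S.le1 i' = h := by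
  -- reduce to `j < len`
  obtain ⟨m, hm, h1, h2⟩ : ∃ m, m < K.len i ∧ S.f x = h • K.vx i m ∧
      S.f y = h • K.vx i (m + 1) := by
    refine ⟨j % K.len i, Nat.mod_lt _ hl, ?_, ?_⟩
    · rw [K.vx_mod, h1]
    · rw [K.vx_modadd, h2]
  have hc := K.cn2_vx i h hm
  rw [← h1, ← h2] at hc
  obtain ⟨i', h', rfl, e1, e2⟩ := S.back i h x y e hc
  have hv := S.vx_f' e1 e2
  -- the two translates agree
  have key : ∀ k, (h * (S.φ h' * S.le1 i')⁻¹) • S.f (h' • K'.vx i' k) = S.f (h' • K'.vx i' k) := by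
    intro k
    have h3 := S.le_c i' h' k
    rw [← h3, mul_smul, inv_smul_smul, h3, hv]
  have ex : S.f (h' • K'.vx i' m) = S.f x := by rw [hv, h1]
  have ey : S.f (h' • K'.vx i' (m + 1)) = S.f y := by rw [hv, h2]
  have k1 := key m
  have k2 := key (m + 1)
  rw [ex] at k1
  rw [ey] at k2
  obtain ⟨k, hk⟩ := S.edge x y x y _ e e k1 k2
  refine ⟨i', k * h', rfl, ?_⟩
  rw [map_mul, hk, mul_assoc, inv_mul_cancel_right]

/-- the flags of cells with an edge in the part come from the part -/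
theorem le_at {e : K.LE} {x y : V'} (he : K'.E x y) (h1 : K.c1 e = S.f x)
    (h2 : K.c2 e = S.f y) : ∃ e', S.le e' = e := by
  obtain ⟨⟨i, j⟩, h⟩ := e
  obtain ⟨i', h', rfl, e2⟩ := S.cell_at (i := i) (h := h) (j := j.1 + 1) he
    (Nat.zero_lt_of_lt j.2) h1.symm h2.symm
  have hj : (j : ℕ) < K'.len i' := by
    rw [S.len_eq]
    exact j.2
  refine ⟨(⟨i', ⟨j, hj⟩⟩, h'), ?_⟩
  refine Prod.ext rfl ?_
  exact e2

theorem le_at0 {e : K.LE} {x y : V'} (he : K'.E x y) (h1 : K.c0 e = S.f x)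
    (h2 : K.c1 e = S.f y) : ∃ e', S.le e' = e := by
  obtain ⟨⟨i, j⟩, h⟩ := e
  obtain ⟨i', h', rfl, e2⟩ := S.cell_at (i := i) (h := h) (j := j.1) he
    (Nat.zero_lt_of_lt j.2) h1.symm h2.symm
  have hj : (j : ℕ) < K'.len i' := by
    rw [S.len_eq]
    exact j.2
  refine ⟨(⟨i', ⟨j, hj⟩⟩, h'), ?_⟩
  refine Prod.ext rfl ?_
  exact e2

/-! ### pentagons and squares -/

theorem qn_map {a q b y z : V'} (h : Qn P' a q b y z) :
    Qn P (S.f a) (S.f q) (S.f b) (S.f y) (S.f z) := by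
  obtain ⟨g, i, j, hi, h⟩ := h
  refine ⟨S.φ g * S.le1 i, S.ι i, j, fun e => hi ((S.psq P' P i).2 e), ?_⟩
  rcases h with ⟨rfl, rfl, rfl, rfl, rfl⟩ | ⟨rfl, rfl, rfl, rfl, rfl⟩
  · left
    simp only [S.pt_f P' P hi, and_self]
  · right
    simp only [S.pt_f P' P hi, and_self]

theorem q4_map {a q b y : V'} (h : Q4 P' a q b y) : Q4 P (S.f a) (S.f q) (S.f b) (S.f y) := by
  obtain ⟨g, i, j, hi, h⟩ := h
  refine ⟨S.φ g * S.le1 i, S.ι i, j, (S.psq P' P i).1 hi, ?_⟩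
  rcases h with ⟨rfl, rfl, rfl, rfl⟩ | ⟨rfl, rfl, rfl, rfl⟩
  · left
    simp only [S.qt_f P' P hi, and_self]
  · right
    simp only [S.qt_f P' P hi, and_self]

/-- a pentagon with an edge in the part is in the part -/
theorem qn_back {a q : V'} {b y z : V} (h : Qn P (S.f a) (S.f q) b y z) :
    ∃ b' y' z', S.f b' = b ∧ S.f y' = y ∧ S.f z' = z ∧ Qn P' a q b' y' z' := by
  have hE : K'.E a q := S.E_iff.2 h.E1
  obtain ⟨g, i, j, hi, h⟩ := h
  have vx1 : ∀ k : Fin 5, K.vx i (k.1 + 1) = P.pt i (k + 1) := by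
    intro k
    rw [← P.vx5' hi, ← K.vx_mod i (k.1 + 1), P.len5 hi]
    congr 1
  rcases h with ⟨h1, h2, rfl, rfl, rfl⟩ | ⟨rfl, h2, h1, rfl, rfl⟩
  · obtain ⟨i', h', rfl, e2⟩ := S.cell_at (i := i) (h := g) (j := j.1) hE (P.len_pos i)
      (by rw [P.vx5' hi, h1]) (by rw [vx1, h2])
    have hi' : ¬ P'.sq i' := fun e => hi ((S.psq P' P i').1 e)
    have hf : ∀ k, S.f (h' • P'.pt i' k) = g • P.pt (S.ι i') k := by
      intro k
      rw [S.pt_f P' P hi', e2]
    refine ⟨h' • P'.pt i' (j + 2), h' • P'.pt i' (j + 3), h' • P'.pt i' (j + 4), hf _, hf _, hf _,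
      h', i', j, hi', Or.inl ⟨?_, ?_, rfl, rfl, rfl⟩⟩
    · exact S.f_inj (by rw [hf, h1])
    · exact S.f_inj (by rw [hf, h2])
  · have e12 : j + 1 + 1 = j + 2 := by rw [add_assoc]; rfl
    obtain ⟨i', h', rfl, e2⟩ := S.cell_at (i := i) (h := g) (j := (j + 1).1) hE.symm (P.len_pos i)
      (by rw [P.vx5' hi, h2]) (by rw [vx1, h1, e12])
    have hi' : ¬ P'.sq i' := fun e => hi ((S.psq P' P i').1 e)
    have hf : ∀ k, S.f (h' • P'.pt i' k) = g • P.pt (S.ι i') k := by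
      intro k
      rw [S.pt_f P' P hi', e2]
    refine ⟨h' • P'.pt i' j, h' • P'.pt i' (j + 4), h' • P'.pt i' (j + 3), hf _, hf _, hf _,
      h', i', j, hi', Or.inr ⟨rfl, ?_, ?_, rfl, rfl⟩⟩
    · exact S.f_inj (by rw [hf, h2])
    · exact S.f_inj (by rw [hf, h1])

/-- a square with an edge in the part is in the part -/
theorem q4_back {a q : V'} {b y : V} (h : Q4 P (S.f a) (S.f q) b y) :
    ∃ b' y', S.f b' = b ∧ S.f y' = y ∧ Q4 P' a q b' y' := by
  have hE : K'.E a q := S.E_iff.2 h.E1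
  obtain ⟨g, i, j, hi, h⟩ := h
  have vx1 : ∀ k : Fin 4, K.vx i (k.1 + 1) = P.qt i (k + 1) := by
    intro k
    rw [← P.vx4 hi, ← K.vx_mod i (k.1 + 1), P.len4 hi]
    congr 1
  rcases h with ⟨h1, h2, rfl, rfl⟩ | ⟨rfl, h2, h1, rfl⟩
  · obtain ⟨i', h', rfl, e2⟩ := S.cell_at (i := i) (h := g) (j := j.1) hE (P.len_pos i)
      (by rw [P.vx4 hi, h1]) (by rw [vx1, h2])
    have hi' : P'.sq i' := (S.psq P' P i').2 hi
    have hf : ∀ k, S.f (h' • P'.qt i' k) = g • P.qt (S.ι i') k := by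
      intro k
      rw [S.qt_f P' P hi', e2]
    refine ⟨h' • P'.qt i' (j + 2), h' • P'.qt i' (j + 3), hf _, hf _,
      h', i', j, hi', Or.inl ⟨?_, ?_, rfl, rfl⟩⟩
    · exact S.f_inj (by rw [hf, h1])
    · exact S.f_inj (by rw [hf, h2])
  · have e12 : j + 1 + 1 = j + 2 := by rw [add_assoc]; rfl
    obtain ⟨i', h', rfl, e2⟩ := S.cell_at (i := i) (h := g) (j := (j + 1).1) hE.symm (P.len_pos i)
      (by rw [P.vx4 hi, h2]) (by rw [vx1, h1, e12])
    have hi' : P'.sq i' := (S.psq P' P i').2 hi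
    have hf : ∀ k, S.f (h' • P'.qt i' k) = g • P.qt (S.ι i') k := by
      intro k
      rw [S.qt_f P' P hi', e2]
    refine ⟨h' • P'.qt i' j, h' • P'.qt i' (j + 3), hf _, hf _,
      h', i', j, hi', Or.inr ⟨rfl, ?_, ?_, rfl⟩⟩
    · exact S.f_inj (by rw [hf, h2])
    · exact S.f_inj (by rw [hf, h1])

theorem qn_iff {a q b y z : V'} :
    Qn P' a q b y z ↔ Qn P (S.f a) (S.f q) (S.f b) (S.f y) (S.f z) := by
  refine ⟨S.qn_map P' P, fun h => ?_⟩
  obtain ⟨b', y', z', e1, e2, e3, h'⟩ := S.qn_back P' P h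
  rwa [S.f_inj e1, S.f_inj e2, S.f_inj e3] at h'

theorem q4_iff {a q b y : V'} : Q4 P' a q b y ↔ Q4 P (S.f a) (S.f q) (S.f b) (S.f y) := by
  refine ⟨S.q4_map P' P, fun h => ?_⟩
  obtain ⟨b', y', e1, e2, h'⟩ := S.q4_back P' P h
  rwa [S.f_inj e1, S.f_inj e2] at h'

/-- every square comes from the part -/
theorem q4_all (hall : ∀ i : K.I, ∃ i', S.ι i' = i) {a q b y : V} (h : Q4 P a q b y) :
    ∃ (g : H) (a' q' b' y' : V'), g • S.f a' = a ∧ g • S.f q' = q ∧ g • S.f b' = b ∧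
      g • S.f y' = y ∧ Q4 P' a' q' b' y' := by
  have key : ∀ a q b y : V, (∃ (h : H) (i : K.I) (j : Fin 4), P.sq i ∧ a = h • P.qt i j ∧
      q = h • P.qt i (j + 1) ∧ b = h • P.qt i (j + 2) ∧ y = h • P.qt i (j + 3)) →
      ∃ (g : H) (a' q' b' y' : V'), g • S.f a' = a ∧ g • S.f q' = q ∧ g • S.f b' = b ∧
        g • S.f y' = y ∧ Q4 P' a' q' b' y' := by
    rintro a q b y ⟨h, i, j, hi, rfl, rfl, rfl, rfl⟩
    obtain ⟨i', rfl⟩ := hall i
    have hi' : P'.sq i' := (S.psq P' P i').2 hi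
    have hf : ∀ k, (h * (S.le1 i')⁻¹) • S.f (P'.qt i' k) = h • P.qt (S.ι i') k := by
      intro k
      have := S.qt_f P' P hi' 1 k
      rw [one_smul, map_one, one_mul] at this
      rw [this, mul_smul, inv_smul_smul]
    refine ⟨h * (S.le1 i')⁻¹, _, _, _, _, hf j, hf (j + 1), hf (j + 2), hf (j + 3), ?_⟩
    have := Q4_qt (P := P') 1 hi' j
    simpa using this
  obtain ⟨h, i, j, hi, k | k⟩ := h
  · exact key a q b y ⟨h, i, j, hi, k⟩
  · obtain ⟨g, b', q', a', y', e1, e2, e3, e4, hq⟩ := key b q a y ⟨h, i, j, hi, k⟩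
    exact ⟨g, a', q', b', y', e3, e2, e1, e4, hq.symm⟩

/-- every pentagon comes from the part -/
theorem qn_all (hall : ∀ i : K.I, ∃ i', S.ι i' = i) {a q b y z : V} (h : Qn P a q b y z) :
    ∃ (g : H) (a' q' b' y' z' : V'), g • S.f a' = a ∧ g • S.f q' = q ∧ g • S.f b' = b ∧
      g • S.f y' = y ∧ g • S.f z' = z ∧ Qn P' a' q' b' y' z' := by
  have key : ∀ a q b y z : V, (∃ (h : H) (i : K.I) (j : Fin 5), ¬ P.sq i ∧ a = h • P.pt i j ∧
      q = h • P.pt i (j + 1) ∧ b = h • P.pt i (j + 2) ∧ y = h • P.pt i (j + 3) ∧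
      z = h • P.pt i (j + 4)) →
      ∃ (g : H) (a' q' b' y' z' : V'), g • S.f a' = a ∧ g • S.f q' = q ∧ g • S.f b' = b ∧
        g • S.f y' = y ∧ g • S.f z' = z ∧ Qn P' a' q' b' y' z' := by
    rintro a q b y z ⟨h, i, j, hi, rfl, rfl, rfl, rfl, rfl⟩
    obtain ⟨i', rfl⟩ := hall i
    have hi' : ¬ P'.sq i' := fun e => hi ((S.psq P' P i').1 e)
    have hf : ∀ k, (h * (S.le1 i')⁻¹) • S.f (P'.pt i' k) = h • P.pt (S.ι i') k := by
      intro k
      have := S.pt_f P' P hi' 1 k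
      rw [one_smul, map_one, one_mul] at this
      rw [this, mul_smul, inv_smul_smul]
    refine ⟨h * (S.le1 i')⁻¹, _, _, _, _, _, hf j, hf (j + 1), hf (j + 2), hf (j + 3),
      hf (j + 4), ?_⟩
    have := Qn_pt (P := P') 1 hi' j
    simpa using this
  obtain ⟨h, i, j, hi, k | k⟩ := h
  · exact key a q b y z ⟨h, i, j, hi, k⟩
  · obtain ⟨g, b', q', a', z', y', e1, e2, e3, e4, e5, hq⟩ := key b q a z y ⟨h, i, j, hi, k⟩
    exact ⟨g, a', q', b', y', z', e3, e2, e1, e5, e4, hq.symm⟩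

/-! ### orbit numbers -/

/-- corners come from the part -/
theorem le_surj' (hall : ∀ i : K.I, ∃ i', S.ι i' = i) (e : K.LE) :
    ∃ (h : H) (e' : K'.LE), h • S.le e' = e := by
  obtain ⟨⟨i, j⟩, g⟩ := e
  obtain ⟨i', rfl⟩ := hall i
  have hj : (j : ℕ) < K'.len i' := by
    rw [S.len_eq]
    exact j.2
  refine ⟨g * (S.le1 i')⁻¹, (⟨i', ⟨j, hj⟩⟩, 1), ?_⟩
  refine Prod.ext rfl ?_
  show g * (S.le1 i')⁻¹ * (S.φ 1 * S.le1 i') = g
  rw [map_one, one_mul, inv_mul_cancel_right]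

/-- the flags of the part as flags of the complex -/
noncomputable def fl (f : FL K') : FL K := (S.le f.1, f.2)

theorem fl_smul (h : H') (f : FL K') : S.fl (h • f) = S.φ h • S.fl f :=
  Prod.ext (S.le_smul h f.1) rfl

theorem fl_back {f f' : FL K'} {h : H} (e : h • S.fl f = S.fl f') : ∃ k : H', k • f = f' := by
  have e1 : (h • S.fl f).1 = (S.fl f').1 := by rw [e]
  have e2 : (h • S.fl f).2 = (S.fl f').2 := by rw [e]
  obtain ⟨k, hk⟩ := S.le_back e1
  exact ⟨k, Prod.ext hk e2⟩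

end SubGX

/-- finitely many orbits of flags -/
theorem GX.fin_FL {H V : Type} [Group H] [MulAction H V] (K : GX H V) (s : Set (FL K)) :
    FinOrb H s := by
  have h := K.fin_LE
  have h1 : ∀ b : Bool, FinOrb H {f : FL K | f.2 = b} := by
    intro b
    refine SAF.FinOrb.image h (fun e => ((e, b) : FL K)) ?_ ?_
    · rintro ⟨e, b'⟩ rfl
      exact ⟨e, trivial, 1, one_smul _ _⟩
    · rintro a - _ - ⟨g, rfl⟩
      exact ⟨g, rfl⟩
  refine SAF.FinOrb.mono ?_ (finOrb_union (h1 true) (h1 false))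
  rintro ⟨e, b⟩ -
  cases b
  · exact Or.inr rfl
  · exact Or.inl rfl

namespace SubGX

variable {H' V' H V : Type} [Group H'] [MulAction H' V'] [Group H] [MulAction H V]
  {K' : GX H' V'} {K : GX H V} (S : SubGX K' K)

/-- the orbits of flags of cells with an invariant property -/
theorem oc_FL (hall : ∀ i : K.I, ∃ i', S.ι i' = i) {Q' : Set (FL K')} {Q : Set (FL K)}
    (hQ : ∀ (h : H), ∀ f ∈ Q, h • f ∈ Q) (hiff : ∀ f : FL K', f ∈ Q' ↔ S.fl f ∈ Q) :
    oc H' Q' = oc H Q := by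
  apply le_antisymm
  · refine oc_le_of_inj (K.fin_FL Q) S.fl (fun e he => (hiff e).1 he) ?_
    rintro e _ e2 _ ⟨h, hh⟩
    exact S.fl_back hh
  · refine oc_le_of_surj (K'.fin_FL Q') S.fl ?_ ?_
    · rintro ⟨e, b⟩ he
      obtain ⟨h, e', rfl⟩ := S.le_surj' hall e
      have e0 : ((h • S.le e', b) : FL K) = h • S.fl (e', b) := rfl
      rw [e0] at he
      refine ⟨(e', b), (hiff _).2 ?_, h, rfl⟩
      have := hQ h⁻¹ _ he
      rwa [inv_smul_smul] at this
    · rintro a _ b _ ⟨h, rfl⟩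
      exact ⟨S.φ h, (S.fl_smul h a).symm⟩

/-- the local version: the flags along an edge of the part -/
theorem oc_FL_at {Q' : Set (FL K')} {Q : Set (FL K)} {x y : V'} (he : K'.E x y)
    (hQ : ∀ f ∈ Q, K.c1 f.1 = S.f x ∧ (if f.2 = true then K.c2 f.1 else K.c0 f.1) = S.f y)
    (hiff : ∀ f : FL K', f ∈ Q' ↔ S.fl f ∈ Q) :
    oc ↥(stabilizer H' ((x, y) : V' × V')) Q' =
      oc ↥(stabilizer H ((S.f x, S.f y) : V × V)) Q := by
  have st : ∀ k : H', k • ((x, y) : V' × V') = (x, y) →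
      S.φ k • ((S.f x, S.f y) : V × V) = (S.f x, S.f y) := by
    intro k hk
    have e1 : k • x = x := congrArg Prod.fst hk
    have e2 : k • y = y := congrArg Prod.snd hk
    exact Prod.ext (show S.φ k • S.f x = S.f x by rw [← S.f_smul, e1])
      (show S.φ k • S.f y = S.f y by rw [← S.f_smul, e2])
  have bk : ∀ k : H', S.φ k • ((S.f x, S.f y) : V × V) = (S.f x, S.f y) →
      k • ((x, y) : V' × V') = (x, y) := by
    intro k hk
    have e1 : S.φ k • S.f x = S.f x := congrArg Prod.fst hk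
    have e2 : S.φ k • S.f y = S.f y := congrArg Prod.snd hk
    refine Prod.ext (S.f_inj ?_) (S.f_inj ?_)
    · rw [← e1]
      exact S.f_smul k x
    · rw [← e2]
      exact S.f_smul k y
  -- finitely many orbits below
  have sur : ∀ f ∈ Q, ∃ f', S.fl f' = f := by
    rintro ⟨e, b⟩ hf
    obtain ⟨h1, h2⟩ := hQ _ hf
    cases b
    · have h2 : K.c0 e = S.f y := h2
      obtain ⟨e', rfl⟩ := S.le_at0 he.symm h2 h1
      exact ⟨(e', false), rfl⟩
    · have h2 : K.c2 e = S.f y := h2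
      obtain ⟨e', rfl⟩ := S.le_at he h1 h2
      exact ⟨(e', true), rfl⟩
  have finK : FinOrb ↥(stabilizer H ((S.f x, S.f y) : V × V)) Q := by
    refine SAF.FinOrb.of_inj (K.fin_FL Q) (fun f => f) (fun f hf => hf) ?_
    rintro f hf f' hf' ⟨h, rfl⟩
    refine ⟨⟨h, ?_⟩, rfl⟩
    obtain ⟨h1, h2⟩ := hQ _ hf
    obtain ⟨h1', h2'⟩ := hQ _ hf'
    obtain ⟨e, b⟩ := f
    refine Prod.ext ?_ ?_
    · show h • S.f x = S.f x
      rw [← h1, ← K.c1_smul]
      rw [h1]
      exact h1'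
    · show h • S.f y = S.f y
      cases b
      · have h2 : K.c0 e = S.f y := h2
        have h2' : K.c0 (h • e) = S.f y := h2'
        rw [← h2, ← K.c0_smul, h2', h2]
      · have h2 : K.c2 e = S.f y := h2
        have h2' : K.c2 (h • e) = S.f y := h2'
        rw [← h2, ← K.c2_smul, h2', h2]
  have inj : ∀ a ∈ Q', ∀ b ∈ Q', (∃ h : ↥(stabilizer H ((S.f x, S.f y) : V × V)),
      h • S.fl a = S.fl b) → ∃ h : ↥(stabilizer H' ((x, y) : V' × V')), h • a = b := by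
    rintro a _ b _ ⟨⟨h, hh⟩, e⟩
    have hx : h • S.f x = S.f x := congrArg Prod.fst (mem_stabilizer_iff.1 hh)
    have hy : h • S.f y = S.f y := congrArg Prod.snd (mem_stabilizer_iff.1 hh)
    obtain ⟨k, rfl⟩ := S.edge x y x y h he he hx hy
    refine ⟨⟨k, bk k hh⟩, ?_⟩
    have e' : S.fl (k • a) = S.fl b := by
      rw [S.fl_smul]
      exact e
    obtain ⟨a1, a2⟩ := a
    obtain ⟨b1, b2⟩ := b
    have q1 : S.le (k • a1) = S.le b1 := congrArg Prod.fst e'
    have q2 : a2 = b2 := congrArg Prod.snd e'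
    refine Prod.ext ?_ q2
    show k • a1 = b1
    have p1 : S.pos (k • a1).1 = S.pos b1.1 := congrArg Prod.fst q1
    have p2 := S.pos_inj p1
    have p3 : S.φ (k • a1).2 * S.le1 (k • a1).1.1 = S.φ b1.2 * S.le1 b1.1.1 :=
      congrArg Prod.snd q1
    rw [p2] at p3
    exact Prod.ext p2 (S.φ_inj (mul_right_cancel p3))
  apply le_antisymm
  · exact oc_le_of_inj finK S.fl (fun f hf => (hiff f).1 hf) inj
  · refine oc_le_of_surj ?_ S.fl ?_ ?_
    · exact SAF.FinOrb.of_inj finK S.fl (fun f hf => (hiff f).1 hf) inj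
    · intro f hf
      obtain ⟨f', rfl⟩ := sur f hf
      exact ⟨f', (hiff f').2 hf, 1, one_smul _ _⟩
    · rintro a _ b _ ⟨h, rfl⟩
      exact ⟨⟨S.φ h.1, st h.1 h.2⟩, (S.fl_smul h.1 a).symm⟩

/-- the orbits of arrows in cells -/
theorem oc_ar (hall : ∀ i : K.I, ∃ i', S.ι i' = i) {A' : Set (V' × V')} {A : Set (V × V)}
    (hA : ∀ (h : H), ∀ p ∈ A, h • p ∈ A) (hE : ∀ p ∈ A, K.EC p.1 p.2)
    (hE' : ∀ p ∈ A', K'.E p.1 p.2) (hiff : ∀ p : V' × V', K'.E p.1 p.2 →
      (p ∈ A' ↔ (S.f p.1, S.f p.2) ∈ A)) : oc H' A' = oc H A := by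
  apply le_antisymm
  · refine oc_le_of_inj (K.foE fun p hp => (hE p hp).E) (fun p => (S.f p.1, S.f p.2))
      (fun p hp => (hiff p (hE' p hp)).1 hp) ?_
    rintro ⟨x, y⟩ hp ⟨x', y'⟩ hp' ⟨h, e⟩
    have e1 : h • S.f x = S.f x' := congrArg Prod.fst e
    have e2 : h • S.f y = S.f y' := congrArg Prod.snd e
    obtain ⟨k, rfl⟩ := S.edge _ _ _ _ h (hE' _ hp) (hE' _ hp') e1 e2
    refine ⟨k, Prod.ext (S.f_inj ?_) (S.f_inj ?_)⟩
    · rw [← e1]
      exact S.f_smul _ _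
    · rw [← e2]
      exact S.f_smul _ _
  · refine oc_le_of_surj (K'.foE fun p hp => hE' p hp)
      (fun p => (S.f p.1, S.f p.2)) ?_ ?_
    · rintro ⟨x, y⟩ hp
      obtain ⟨g, x', y', rfl, rfl, h3⟩ := S.EC_back hall (hE _ hp)
      refine ⟨(x', y'), (hiff _ h3.E).2 ?_, g, rfl⟩
      have := hA g⁻¹ _ hp
      have e : g⁻¹ • ((g • S.f x', g • S.f y') : V × V) = (S.f x', S.f y') :=
        Prod.ext (inv_smul_smul _ _) (inv_smul_smul _ _)
      rwa [e] at this
    · rintro ⟨x, y⟩ _ ⟨x', y'⟩ _ ⟨h, e⟩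
      have e1 : h • x = x' := congrArg Prod.fst e
      have e2 : h • y = y' := congrArg Prod.snd e
      refine ⟨S.φ h, ?_⟩
      subst e1 e2
      exact Prod.ext (S.f_smul _ _).symm (S.f_smul _ _).symm

end SubGX

end Pool.Agent.DI
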