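import Pool.Agent.DI.CutP
import Pool.Agent.DI.XtB
import Pool.Agent.DI.SeenQ

/-!
# DI/CutX2: tops, plain strands and the class of the squares on parts

`S : SubGX K' K`, `P' : P45 K'`, `P : P45 K`. `S.top_iff`, `S.top_back`; `S.sqE`, `S.cls`: the classes
`SqE`, `Cls` pass to parts; `S.X_eq`: the strands at an edge of the part are the same.
`S.all_in`: a part with all long cells contains all squares (if `X ≥ 1`).
With all cells in the part (`hall`): `S.sX_eq`, `S.oc_TA`, `S.sm_eq`, `S.sigma_eq`.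
-/

namespace Pool.Agent.DI

open MulAction
open Pool.Agent.SAF (InC SA orbs FinOrb oc FinOrb_iff mk_eq_iff exists_rep oc_le_of_inj
  oc_le_of_surj oc_mono oc_lt_of_inj)
open P45

namespace SubGX

variable {H' V' H V : Type} [Group H'] [MulAction H' V'] [Group H] [MulAction H V]
  {K' : GX H' V'} {K : GX H V} (S : SubGX K' K) (P' : P45 K') (P : P45 K)

/-! ### tops -/

theorem top_iff {T a b y : V'} : P'.Top T a b y ↔ P.Top (S.f T) (S.f a) (S.f b) (S.f y) := by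
  unfold P45.Top
  rw [S.q4_iff P' P, S.ar_iff, S.ar_iff]

theorem top_back {T a : V'} {b y : V} (h : P.Top (S.f T) (S.f a) b y) :
    ∃ b' y', S.f b' = b ∧ S.f y' = y ∧ P'.Top T a b' y' := by
  obtain ⟨b', y', rfl, rfl, h'⟩ := S.q4_back P' P h.1
  exact ⟨b', y', rfl, rfl, h', (S.ar_iff _ _).2 h.2.1, (S.ar_iff _ _).2 h.2.2⟩

theorem tp_iff {i : K'.I} (hi : P'.sq i) (j : Fin 4) : P'.tp i j ↔ P.tp (S.ι i) j := by
  have key : ∀ k l, K'.ar (P'.qt i k) (P'.qt i l) ↔ K.ar (P.qt (S.ι i) k) (P.qt (S.ι i) l) := by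
    intro k l
    have h1 := S.qt_f P' P hi 1 k
    have h2 := S.qt_f P' P hi 1 l
    rw [one_smul] at h1 h2
    rw [S.ar_iff, h1, h2, GX.ar_smul_iff]
  unfold tp
  rw [key, key]

/-- the class of the squares passes to parts -/
theorem sqE {E : V → Prop} (h : P.SqE E) : P'.SqE (fun v => E (S.f v)) where
  top i hi := by
    obtain ⟨j, hj⟩ := h.top _ ((S.psq P' P i).1 hi)
    exact ⟨j, (S.tp_iff P' P hi j).2 hj⟩
  one i i' hi hi' j j' k k' g e := by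
    apply S.ι_inj
    have h1 := S.qt_f P' P hi g j
    have h2 := S.qt_f P' P hi' 1 j'
    rw [e] at h1
    rw [one_smul, h1] at h2
    refine h.one _ _ ((S.psq P' P i).1 hi) ((S.psq P' P i').1 hi') j j'
      ((S.tp_iff P' P hi j).1 k) ((S.tp_iff P' P hi' j').1 k')
      ((S.φ 1 * S.le1 i')⁻¹ * (S.φ g * S.le1 i)) ?_
    rw [mul_smul, h2, inv_smul_smul]
  par T a b y a' b' y' k k' := (h.par _ _ _ _ _ _ _ ((S.top_iff P' P).1 k)
    ((S.top_iff P' P).1 k')).imp id fun e => S.f_inj e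
  side T a b y k := (h.side _ _ _ _ ((S.top_iff P' P).1 k)).imp id
    (Or.imp (S.ar_iff _ _).2 (S.ar_iff _ _).2)
  Ey T a b y k := h.Ey _ _ _ _ ((S.top_iff P' P).1 k)
  Ea T a b y k hE := (S.ar_iff _ _).2 (h.Ea _ _ _ _ ((S.top_iff P' P).1 k) hE)
  Es g v k := by
    show E (S.f (g • v))
    rw [S.f_smul]
    exact h.Es _ _ k
  nab T a b y k e := h.nab _ _ _ _ ((S.top_iff P' P).1 k) (by rw [e])
  nTy T a b y k e := h.nTy _ _ _ _ ((S.top_iff P' P).1 k) (by rw [e])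

include S in
theorem sqT (h : P.SqT) : P'.SqT := S.sqE P' P h

/-! ### flags and walks -/

theorem fy_fl (f : FL K') : fy (S.fl f) = S.f (fy f) := S.le_c1 f.1

theorem fz_fl (f : FL K') : fz (S.fl f) = S.f (fz f) := by
  obtain ⟨e, b⟩ := f
  cases b
  · exact S.le_c0 e
  · exact S.le_c2 e

theorem RP_iff (f : FL K') : f ∈ P'.RP ↔ S.fl f ∈ P.RP := by
  show (¬ P'.sq f.1.1.1 ∧ K'.ar (fy f) (fz f)) ↔
    (¬ P.sq (S.ι f.1.1.1) ∧ K.ar (fy (S.fl f)) (fz (S.fl f)))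
  rw [S.psq P' P, S.fy_fl, S.fz_fl, S.ar_iff]

/-- walks of the part as walks of the complex -/
def w4 (p : (V' × V') × (V' × V')) : (V × V) × (V × V) :=
  ((S.f p.1.1, S.f p.1.2), (S.f p.2.1, S.f p.2.2))

theorem w4_smul (h : H') (p : (V' × V') × (V' × V')) : S.w4 (h • p) = S.φ h • S.w4 p := by
  obtain ⟨⟨a, b⟩, c, d⟩ := p
  show ((S.f (h • a), S.f (h • b)), (S.f (h • c), S.f (h • d))) =
    ((S.φ h • S.f a, S.φ h • S.f b), (S.φ h • S.f c, S.φ h • S.f d))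
  rw [S.f_smul, S.f_smul, S.f_smul, S.f_smul]

theorem w4_inj : Function.Injective S.w4 := by
  rintro ⟨⟨a, b⟩, c, d⟩ ⟨⟨a', b'⟩, c', d'⟩ e
  have e1 : S.f a = S.f a' := congrArg (fun t => t.1.1) e
  have e2 : S.f b = S.f b' := congrArg (fun t => t.1.2) e
  have e3 : S.f c = S.f c' := congrArg (fun t => t.2.1) e
  have e4 : S.f d = S.f d' := congrArg (fun t => t.2.2) e
  rw [S.f_inj e1, S.f_inj e2, S.f_inj e3, S.f_inj e4]

theorem ZP_iff (p : (V' × V') × (V' × V')) : p ∈ P'.ZP ↔ S.w4 p ∈ P.ZP := by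
  show (Q4 P' p.2.2 p.1.1 p.1.2 p.2.1 ∧ K'.ar p.1.1 p.1.2 ∧ K'.ar p.2.2 p.1.1) ↔
    (Q4 P (S.f p.2.2) (S.f p.1.1) (S.f p.1.2) (S.f p.2.1) ∧ K.ar (S.f p.1.1) (S.f p.1.2) ∧
      K.ar (S.f p.2.2) (S.f p.1.1))
  rw [S.q4_iff P' P, S.ar_iff, S.ar_iff]

/-! ### local numbers -/

/-- X AT AN EDGE OF THE PART -/
theorem X_eq {T a : V'} (e : K'.E T a) : P'.X T a = P.X (S.f T) (S.f a) := by
  have st : ∀ k : H', k • ((T, a) : V' × V') = (T, a) →
      S.φ k • ((S.f T, S.f a) : V × V) = (S.f T, S.f a) := by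
    intro k hk
    have e1 : k • T = T := congrArg Prod.fst hk
    have e2 : k • a = a := congrArg Prod.snd hk
    exact Prod.ext (show S.φ k • S.f T = S.f T by rw [← S.f_smul, e1])
      (show S.φ k • S.f a = S.f a by rw [← S.f_smul, e2])
  have bk : ∀ k : H', S.φ k • ((S.f T, S.f a) : V × V) = (S.f T, S.f a) →
      k • ((T, a) : V' × V') = (T, a) := by
    intro k hk
    have e1 : S.φ k • S.f T = S.f T := congrArg Prod.fst hk
    have e2 : S.φ k • S.f a = S.f a := congrArg Prod.snd hk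
    refine Prod.ext (S.f_inj ?_) (S.f_inj ?_)
    · rw [← e1]
      exact S.f_smul k T
    · rw [← e2]
      exact S.f_smul k a
  unfold X
  congr 1
  · refine S.oc_FL_at e ?_ ?_
    · rintro f ⟨-, h⟩
      exact ⟨congrArg Prod.fst h, congrArg Prod.snd h⟩
    · intro f
      show (f ∈ P'.RP ∧ (fy f, fz f) = (T, a)) ↔
        (S.fl f ∈ P.RP ∧ (fy (S.fl f), fz (S.fl f)) = (S.f T, S.f a))
      rw [S.RP_iff P' P, S.fy_fl, S.fz_fl, Prod.ext_iff, Prod.ext_iff]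
      show _ ∧ (fy f = T ∧ fz f = a) ↔ _ ∧ (S.f (fy f) = S.f T ∧ S.f (fz f) = S.f a)
      rw [S.f_inj.eq_iff, S.f_inj.eq_iff]
  · have inj : ∀ p ∈ {p : (V' × V') × (V' × V') | p ∈ P'.ZP ∧ p.1 = (T, a)},
        ∀ q ∈ {p : (V' × V') × (V' × V') | p ∈ P'.ZP ∧ p.1 = (T, a)},
        (∃ h : ↥(stabilizer H ((S.f T, S.f a) : V × V)), h • S.w4 p = S.w4 q) →
        ∃ h : ↥(stabilizer H' ((T, a) : V' × V')), h • p = q := by
      rintro p _ q _ ⟨⟨h, hh⟩, e'⟩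
      have hx : h • S.f T = S.f T := congrArg Prod.fst (mem_stabilizer_iff.1 hh)
      have hy : h • S.f a = S.f a := congrArg Prod.snd (mem_stabilizer_iff.1 hh)
      obtain ⟨k, rfl⟩ := S.edge T a T a h e e hx hy
      refine ⟨⟨k, bk k hh⟩, S.w4_inj ?_⟩
      show S.w4 (k • p) = S.w4 q
      rw [S.w4_smul]
      exact e'
    have mem : ∀ p ∈ {p : (V' × V') × (V' × V') | p ∈ P'.ZP ∧ p.1 = (T, a)},
        S.w4 p ∈ {p : (V × V) × (V × V) | p ∈ P.ZP ∧ p.1 = (S.f T, S.f a)} := by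
      rintro p ⟨h1, h2⟩
      refine ⟨(S.ZP_iff P' P p).1 h1, ?_⟩
      show (S.f p.1.1, S.f p.1.2) = _
      rw [h2]
    have finK : FinOrb ↥(stabilizer H ((S.f T, S.f a) : V × V))
        {p : (V × V) × (V × V) | p ∈ P.ZP ∧ p.1 = (S.f T, S.f a)} := by
      refine SAF.FinOrb.of_inj (P.fin_ZP) (fun p => p) (fun p hp => hp.1) ?_
      rintro p ⟨-, h1⟩ q ⟨-, h2⟩ ⟨h, rfl⟩
      refine ⟨⟨h, ?_⟩, rfl⟩
      rw [mem_stabilizer_iff, ← h1]
      exact h2.trans h1.symm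
    apply le_antisymm
    · exact oc_le_of_inj finK S.w4 mem inj
    · refine oc_le_of_surj (SAF.FinOrb.of_inj finK S.w4 mem inj) S.w4 ?_ ?_
      · rintro ⟨⟨T1, a1⟩, q, n⟩ ⟨⟨h1, h2, h3⟩, h4⟩
        have e1 : T1 = S.f T := congrArg Prod.fst h4
        have e2 : a1 = S.f a := congrArg Prod.snd h4
        subst e1 e2
        obtain ⟨n', q', rfl, rfl, h5⟩ := S.q4_back P' P (show Q4 P (S.f a) (S.f T) n q from h1.symm)
        refine ⟨((T, a), (q', n')), ⟨⟨h5.symm, (S.ar_iff _ _).2 h2, (S.ar_iff _ _).2 h3⟩, rfl⟩,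
          1, one_smul _ _⟩
      · rintro p _ q _ ⟨h, rfl⟩
        exact ⟨⟨S.φ h.1, st h.1 h.2⟩, (S.w4_smul h.1 p).symm⟩

include S in
/-- THE CLASS OF THE STATES passes to parts -/
theorem cls (h : P.Cls) : P'.Cls where
  toSqE := S.sqT P' P h.toSqE
  x1 := by
    rintro ⟨T, a⟩ ⟨b, y, k⟩
    have k : P'.Top T a b y := k
    show 1 ≤ P'.X T a
    rw [S.X_eq P' P (Or.inl k.2.1)]
    exact h.x1 (S.f T, S.f a) ⟨_, _, (S.top_iff P' P).1 k⟩

/-! ### global numbers -/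

theorem sX_eq (hall : ∀ i : K.I, ∃ i', S.ι i' = i) {A' : Set (V' × V')} {A : Set (V × V)}
    (hA : ∀ (h : H), ∀ p ∈ A, h • p ∈ A)
    (hiff : ∀ p : V' × V', K'.ar p.1 p.2 → (p ∈ A' ↔ (S.f p.1, S.f p.2) ∈ A)) :
    P'.sX A' = P.sX A := by
  unfold sX
  congr 1
  · refine S.oc_FL hall ?_ ?_
    · rintro h f ⟨h1, h2⟩
      refine ⟨RP_smul h f h1, ?_⟩
      rw [fyz_smul]
      exact hA h _ h2
    · intro f
      show (f ∈ P'.RP ∧ (fy f, fz f) ∈ A') ↔ (S.fl f ∈ P.RP ∧ (fy (S.fl f), fz (S.fl f)) ∈ A)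
      rw [S.fy_fl, S.fz_fl, ← S.RP_iff P' P]
      exact and_congr_right fun h => hiff _ h.2
  · have mem : ∀ p ∈ {p : (V' × V') × (V' × V') | p ∈ P'.ZP ∧ p.1 ∈ A'},
        S.w4 p ∈ {p : (V × V) × (V × V) | p ∈ P.ZP ∧ p.1 ∈ A} := by
      rintro p ⟨h1, h2⟩
      exact ⟨(S.ZP_iff P' P p).1 h1, (hiff _ h1.2.1).1 h2⟩
    have inj : ∀ p ∈ {p : (V' × V') × (V' × V') | p ∈ P'.ZP ∧ p.1 ∈ A'},
        ∀ q ∈ {p : (V' × V') × (V' × V') | p ∈ P'.ZP ∧ p.1 ∈ A'},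
        (∃ h : H, h • S.w4 p = S.w4 q) → ∃ h : H', h • p = q := by
      rintro p ⟨h1, -⟩ q ⟨h2, -⟩ ⟨h, e'⟩
      have e1 : h • S.f p.1.1 = S.f q.1.1 := congrArg (fun t => t.1.1) e'
      have e2 : h • S.f p.1.2 = S.f q.1.2 := congrArg (fun t => t.1.2) e'
      obtain ⟨k, rfl⟩ := S.edge _ _ _ _ h (Or.inl h1.2.1) (Or.inl h2.2.1) e1 e2
      refine ⟨k, S.w4_inj ?_⟩
      rw [S.w4_smul]
      exact e'
    apply le_antisymm
    · exact oc_le_of_inj (P.fin_ZP.mono fun _ k => k.1) S.w4 mem inj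
    · refine oc_le_of_surj (P'.fin_ZP.mono fun _ k => k.1) S.w4 ?_ ?_
      · rintro ⟨⟨T, a⟩, q, n⟩ ⟨⟨h1, h2, h3⟩, h4⟩
        obtain ⟨g, n', T', a', q', rfl, rfl, rfl, rfl, h5⟩ := S.q4_all P' P hall h1
        have e2 : K'.ar T' a' := (S.ar_iff _ _).2 ((GX.ar_smul_iff (K := K) g).1 h2)
        have e3 : K'.ar n' T' := (S.ar_iff _ _).2 ((GX.ar_smul_iff (K := K) g).1 h3)
        refine ⟨((T', a'), (q', n')), ⟨⟨h5, e2, e3⟩, (hiff (T', a') e2).2 ?_⟩, g, rfl⟩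
        have h6 := hA g⁻¹ _ h4
        have e : g⁻¹ • ((g • S.f T', g • S.f a') : V × V) = (S.f T', S.f a') :=
          Prod.ext (inv_smul_smul _ _) (inv_smul_smul _ _)
        have h7 : g⁻¹ • ((g • S.f T', g • S.f a') : V × V) ∈ A := h6
        rwa [e] at h7
      · rintro p _ q _ ⟨h, rfl⟩
        exact ⟨S.φ h, (S.w4_smul h p).symm⟩

theorem ec_of_TA {p : V × V} (h : p ∈ P.TA) : K.EC p.1 p.2 := by
  obtain ⟨b, y, k⟩ := h
  exact (GX.EC_iff.2 ⟨_, P.cor_iff.2 (Or.inr ⟨_, k.1⟩)⟩).symm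

/-- the orbits of arrows of tops -/
theorem oc_TA (hall : ∀ i : K.I, ∃ i', S.ι i' = i) {A' : Set (V' × V')} {A : Set (V × V)}
    (hA : ∀ (h : H), ∀ p ∈ A, h • p ∈ A) (hAT : A ⊆ P.TA) (hAT' : A' ⊆ P'.TA)
    (hiff : ∀ p : V' × V', K'.ar p.1 p.2 → (p ∈ A' ↔ (S.f p.1, S.f p.2) ∈ A)) :
    oc H' A' = oc H A := by
  refine S.oc_ar hall hA (fun p hp => ec_of_TA P (hAT hp)) ?_ ?_
  · intro p hp
    obtain ⟨b, y, k⟩ := hAT' hp
    exact Or.inl k.2.1
  · rintro p (e | e)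
    · exact hiff p e
    · constructor
      · intro h
        obtain ⟨b, y, k⟩ := hAT' h
        exact absurd (K'.ar_rk _ _ e) (not_lt.2 (K'.ar_rk _ _ k.2.1).le)
      · intro h
        obtain ⟨b, y, k⟩ := hAT h
        have h1 := K.ar_rk _ _ k.2.1
        have h2 := K.ar_rk _ _ ((S.ar_iff _ _).1 e)
        have h1 : K.rk (S.f p.2) < K.rk (S.f p.1) := h1
        omega

theorem sm_eq (hall : ∀ i : K.I, ∃ i', S.ι i' = i) {A' : Set (V' × V')} {A : Set (V × V)}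
    (hA : ∀ (h : H), ∀ p ∈ A, h • p ∈ A) (hAT : A ⊆ P.TA) (hAT' : A' ⊆ P'.TA)
    (hiff : ∀ p : V' × V', K'.ar p.1 p.2 → (p ∈ A' ↔ (S.f p.1, S.f p.2) ∈ A)) :
    P'.sm A' = P.sm A := by
  unfold sm
  rw [S.sX_eq P' P hall hA hiff, S.oc_TA P' P hall hA hAT hAT' hiff]

theorem TA_iff (p : V' × V') : p ∈ P'.TA ↔ (S.f p.1, S.f p.2) ∈ P.TA := by
  constructor
  · rintro ⟨b, y, k⟩
    exact ⟨_, _, (S.top_iff P' P).1 k⟩
  · rintro ⟨b, y, k⟩
    obtain ⟨b', y', -, -, k'⟩ := S.top_back P' P k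
    exact ⟨b', y', k'⟩

theorem U_iff (p : V' × V') : p ∈ P'.U ↔ (S.f p.1, S.f p.2) ∈ P.U := by
  constructor
  · rintro ⟨b, y, k, h1, h2⟩
    exact ⟨_, _, (S.top_iff P' P).1 k, (S.ar_iff _ _).1 h1, (S.ar_iff _ _).1 h2⟩
  · rintro ⟨b, y, k, h1, h2⟩
    obtain ⟨b', y', rfl, rfl, k'⟩ := S.top_back P' P k
    exact ⟨b', y', k', (S.ar_iff _ _).2 h1, (S.ar_iff _ _).2 h2⟩

theorem Dm_iff (p : V' × V') : p ∈ P'.Dm ↔ (S.f p.1, S.f p.2) ∈ P.Dm := by
  constructor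
  · rintro ⟨b, y, k, h1, h2⟩
    exact ⟨_, _, (S.top_iff P' P).1 k, (S.ar_iff _ _).1 h1, (S.ar_iff _ _).1 h2⟩
  · rintro ⟨b, y, k, h1, h2⟩
    obtain ⟨b', y', rfl, rfl, k'⟩ := S.top_back P' P k
    exact ⟨b', y', k', (S.ar_iff _ _).2 h1, (S.ar_iff _ _).2 h2⟩

/-- sigma IS THE SAME -/
theorem sigma_eq (hall : ∀ i : K.I, ∃ i', S.ι i' = i) : P'.sigma = P.sigma := by
  unfold sigma
  rw [S.sm_eq P' P hall (A' := P'.U) (A := P.U) U_smul U_sub U_sub (fun p _ => S.U_iff P' P p),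
    S.sm_eq P' P hall (A' := P'.Dm) (A := P.Dm) Dm_smul Dm_sub Dm_sub
      (fun p _ => S.Dm_iff P' P p)]

/-! ### all squares are in the part -/

/-- the edge comes from the part -/
def InP (x y : V) : Prop := ∃ (g : H) (x' y' : V'), K'.E x' y' ∧ g • S.f x' = x ∧ g • S.f y' = y

variable {S}

theorem InP.symm' {x y : V} (h : S.InP x y) : S.InP y x := by
  obtain ⟨g, x', y', e, h1, h2⟩ := h
  exact ⟨g, y', x', e.symm, h2, h1⟩

include P' in
/-- a square with an edge from the part -/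
theorem InP.sq {a q b y : V} (h : S.InP a q) (k : Q4 P a q b y) :
    S.InP q b ∧ S.InP b y ∧ S.InP y a := by
  obtain ⟨g, a', q', e, rfl, rfl⟩ := h
  have k' := k.smul g⁻¹
  rw [inv_smul_smul, inv_smul_smul] at k'
  obtain ⟨b', y', h1, h2, h3⟩ := S.q4_back P' P k'
  have e1 : b = g • S.f b' := by rw [h1, smul_inv_smul]
  have e2 : y = g • S.f y' := by rw [h2, smul_inv_smul]
  rw [e1, e2]
  exact ⟨⟨g, q', b', h3.E2, rfl, rfl⟩, ⟨g, b', y', h3.E3, rfl, rfl⟩, ⟨g, y', a', h3.E4, rfl, rfl⟩⟩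

variable (S)

theorem InP_of_long {e : K.LE} (h : ∃ i', S.ι i' = e.1.1) :
    S.InP (K.c1 e) (K.c2 e) ∧ S.InP (K.c1 e) (K.c0 e) := by
  obtain ⟨⟨i, j⟩, g⟩ := e
  obtain ⟨i', hi'⟩ := h
  have hi' : S.ι i' = i := hi'
  subst hi'
  have hj : (j : ℕ) < K'.len i' := by
    rw [S.len_eq]
    exact j.2
  have key : ∀ n : ℕ, g • K.vx (S.ι i') n = (g * (S.le1 i')⁻¹) • S.f (K'.vx i' n) := by
    intro n
    rw [S.le1_spec, mul_smul, inv_smul_smul]
  have hE : ∀ n, K'.E (K'.vx i' n) (K'.vx i' (n + 1)) := fun n =>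
    K'.vx_E (Nat.zero_lt_of_lt hj) n
  constructor
  · exact ⟨g * (S.le1 i')⁻¹, K'.vx i' (j + 1), K'.vx i' (j + 2), hE _, (key _).symm, (key _).symm⟩
  · exact ⟨g * (S.le1 i')⁻¹, K'.vx i' (j + 1), K'.vx i' j, (hE _).symm, (key _).symm,
      (key _).symm⟩

include P' in
/-- A PART WITH ALL LONG CELLS HAS ALL CELLS -/
theorem all_in (h5 : ∀ i : K.I, 4 < (K.cw i).length → ∃ i', S.ι i' = i) {E : V → Prop}
    (hs : P.SqE E) (x1 : ∀ p ∈ P.TA, 1 ≤ P.X p.1 p.2) : ∀ i : K.I, ∃ i', S.ι i' = i := by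
  obtain ⟨N, hN⟩ := K.rk_bdd
  have key : ∀ n, ∀ T a b y, P.Top T a b y → N - K.rk T ≤ n → S.InP T a := by
    intro n
    induction n using Nat.strong_induction_on with
    | _ n ih =>
      intro T a b y k hn
      have hx := x1 (T, a) ⟨b, y, k⟩
      have hx : 1 ≤ oc ↥(stabilizer H ((T, a) : V × V))
          {f : FL K | f ∈ P.RP ∧ (fy f, fz f) = (T, a)} +
          oc ↥(stabilizer H ((T, a) : V × V))
          {p : (V × V) × (V × V) | p ∈ P.ZP ∧ p.1 = (T, a)} := hx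
      have h2 : (∃ f : FL K, f ∈ P.RP ∧ (fy f, fz f) = (T, a)) ∨
          ∃ p : (V × V) × (V × V), p ∈ P.ZP ∧ p.1 = (T, a) := by
        by_contra hcon
        push Not at hcon
        have e1 : {f : FL K | f ∈ P.RP ∧ (fy f, fz f) = (T, a)} = ∅ :=
          Set.eq_empty_iff_forall_notMem.2 fun f hf => hcon.1 f hf.1 hf.2
        have e2 : {p : (V × V) × (V × V) | p ∈ P.ZP ∧ p.1 = (T, a)} = ∅ :=
          Set.eq_empty_iff_forall_notMem.2 fun f hf => hcon.2 f hf.1 hf.2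
        rw [e1, e2] at hx
        unfold oc orbs at hx
        simp at hx
      rcases h2 with ⟨⟨e, c⟩, h3, h4⟩ | ⟨⟨⟨T1, a1⟩, q, m⟩, ⟨h3, h5', h6⟩, h4⟩
      · have hlong : 4 < (K.cw e.1.1).length := by
          have h7 : ¬ P.sq e.1.1 := h3.1
          rw [P.cw5 _ h7]
          simp
        obtain ⟨h7, h8⟩ := S.InP_of_long (h5 _ hlong)
        have e1 : K.c1 e = T := congrArg Prod.fst h4
        have e2 : fz ((e, c) : FL K) = a := congrArg Prod.snd h4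
        rw [e1] at h7 h8
        cases c
        · have e2 : K.c0 e = a := e2
          rwa [e2] at h8
        · have e2 : K.c2 e = a := e2
          rwa [e2] at h7
      · have e1 : T1 = T := congrArg Prod.fst h4
        have e2 : a1 = a := congrArg Prod.snd h4
        subst e1 e2
        have h3 : Q4 P m T1 a1 q := h3
        have h5' : K.ar T1 a1 := h5'
        have h6 : K.ar m T1 := h6
        have r1 := K.ar_rk _ _ h5'
        have r2 := K.ar_rk _ _ h6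
        have rb := hN m
        rcases hs.exists_top h3 with t | t | t | t
        · have := K.ar_rk _ _ t.2.1
          omega
        · have := K.ar_rk _ _ t.2.1
          omega
        · -- top `q`, sides `a`, `m`
          have r3 := K.ar_rk _ _ t.2.2
          have rq := hN q
          have := ih (N - K.rk q) (by omega) q a1 m T1 t le_rfl
          exact (this.sq P' P (show Q4 P q a1 T1 m from h3.symm.rot.rot.rot)).1.symm'
        · -- top `m`, sides `q`, `T`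
          have := ih (N - K.rk m) (by omega) m T1 q a1 t.symm' le_rfl
          exact (this.sq P' P h3).1
  intro i
  by_cases hi : P.sq i
  · obtain ⟨j, hj1, hj2⟩ := hs.top i hi
    have hq := Q4_qt (P := P) 1 hi j
    simp only [one_smul] at hq
    have e3 : P.Top (P.qt i j) (P.qt i (j + 1)) (P.qt i (j + 3)) (P.qt i (j + 2)) :=
      ⟨hq.rot.rot.rot.symm, hj1, hj2⟩
    obtain ⟨g, T', a', e, h1, h2⟩ := key _ _ _ _ _ e3 le_rfl
    have v1 : K.vx i (j.1 + 1) = P.qt i (j + 1) := by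
      rw [← P.vx4 hi, ← K.vx_mod i (j.1 + 1), P.len4 hi]
      congr 1
    obtain ⟨i', -, hi', -⟩ := S.cell_at (i := i) (h := g⁻¹) (j := j.1) e (P.len_pos i)
      (by rw [P.vx4 hi, ← h1, inv_smul_smul]) (by rw [v1, ← h2, inv_smul_smul])
    exact ⟨i', hi'⟩
  · exact h5 i (by rw [P.cw5 i hi]; simp)

end SubGX

end Pool.Agent.DI
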