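import Pool.Agent.DI.CutF
import Pool.Agent.DI.CutX2

/-!
# DI/CutQ: full parts of complexes with squares

`SubGX.clc_all`, `SubGX.full_all`: a part with connected links which contains all cells is full if finite
sinks are not more numerous in the part, the corners at a pole of a light soft join it to the other
pole, and sinks and heavy vertices have connected links (without isolated nodes resp. with them).
-/

namespace Pool.Agent.DI

open MulAction
open Pool.Agent.SAF (InC SA orbs FinOrb oc FinOrb_iff mk_eq_iff exists_rep oc_le_of_inj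
  oc_le_of_surj oc_mono oc_lt_of_inj)
open Pool.Agent.SAG (IO Zt)

namespace SubGX

variable {H' V' H V : Type} [Group H'] [MulAction H' V'] [Group H] [MulAction H V]
  {K' : GX H' V'} {K : GX H V}

theorem nVs_le_of_all (S : SubGX K' K) (hall : ∀ i : K.I, ∃ i', S.ι i' = i) :
    K.nVs ≤ oc H' {v | v ∈ K'.sVs ∧ K.Snk (S.f v)} := by
  refine oc_le_of_surj (K'.fo _) S.f ?_ ?_
  · rintro v ⟨h1, h4, y, h2⟩
    obtain ⟨g, x', y', rfl, rfl, h3⟩ := S.EC_back hall h2
    rw [GX.Snk_smul_iff] at h1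
    rw [GX.fin_smul_iff] at h4
    exact ⟨x', ⟨⟨S.snk h1, S.fin_of h4, y', h3⟩, h1⟩, g, rfl⟩
  · rintro a _ b _ ⟨h, rfl⟩
    exact ⟨S.φ h, (S.f_smul _ _).symm⟩

/-- a component of the link of a light vertex with out-arrows which has a corner and no pole
becomes a new finite sink of the part -/
theorem pole_of_all (S : SubGX K' K) (hall : ∀ i : K.I, ∃ i', S.ι i' = i) (hLC : ∀ v, K'.LC v)
    (hVs : K'.nVs ≤ K.nVs) {v a : V} (hv : ¬ K.Snk v) (hf : Finite ↥(stabilizer H v))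
    (ha : K.EC v a) : ∃ p, K.ar v p ∧ K.LJ v a p := by
  by_contra hcon
  push Not at hcon
  obtain ⟨g, v', a', rfl, rfl, h3⟩ := S.EC_back hall ha
  rw [GX.Snk_smul_iff] at hv
  rw [GX.fin_smul_iff] at hf
  have hs : K'.Snk v' := by
    intro p hp
    have h4 := (S.LJ_map (hLC v' a' p h3.E (Or.inl hp))).smul g
    exact hcon (g • S.f p) (K.ar_smul g _ _ ((S.ar_iff _ _).1 hp)) h4
  have hlt : oc H' {v | v ∈ K'.sVs ∧ K.Snk (S.f v)} < K'.nVs := by
    refine oc_lt_of_inj (K'.fo _) (fun x => x) (fun x hx => hx.1) (fun x _ y _ h => h)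
      (b0 := v') ⟨hs, S.fin_of hf, a', h3⟩ ?_
    rintro x ⟨_, hx⟩ h rfl
    apply hv
    rw [S.f_smul]
    exact hx.smul _
  have := S.nVs_le_of_all hall
  omega

/-- all links without their isolated nodes are connected, and the out-arrows of the vertices in
cells are in cells -/
theorem clc_all (S : SubGX K' K) (hall : ∀ i : K.I, ∃ i', S.ι i' = i) (hLC : ∀ v, K'.LC v)
    (hVs : K'.nVs ≤ K.nVs)
    (hpq : ∀ v a b c, Finite ↥(stabilizer H v) → K.ar v a → K.ar v b → K.Cor a v c → K.LJ v a b)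
    (hL1 : ∀ v, K.Snk v → K.CLC v) (hL2 : ∀ v, ¬ K.Snk v → Infinite ↥(stabilizer H v) → K.LC v) :
    (∀ v, K.CLC v) ∧ ∀ v b, K.VC v → K.ar v b → K.EC v b := by
  -- every node with a corner is joined to a pole with a corner
  have key : ∀ v, ¬ K.Snk v → Finite ↥(stabilizer H v) → ∀ a, K.EC v a →
      ∃ p c, K.ar v p ∧ K.LJ v a p ∧ K.Cor p v c := by
    intro v hv hf a ha
    obtain ⟨p, hp, hap⟩ := S.pole_of_all hall hLC hVs hv hf ha
    by_cases e : p = a
    · subst e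
      obtain ⟨c, hc⟩ := ha.cor
      exact ⟨p, c, hp, hap, hc⟩
    · obtain ⟨c, -, hc⟩ := GX.LJ.corner (Relation.EqvGen.symm _ _ hap) e
      exact ⟨p, c, hp, hap, hc⟩
  have fin : ∀ v : V, Finite ↥(stabilizer H v) ∨ Infinite ↥(stabilizer H v) := fun v =>
    finite_or_infinite _
  constructor
  · intro v
    by_cases hv : K.Snk v
    · exact hL1 v hv
    rcases fin v with hf | hf
    swap
    · exact (hL2 v hv hf).clc
    intro a b ha hb
    obtain ⟨p, c, hp, hap, hc⟩ := key v hv hf a ha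
    obtain ⟨q, d, hq, hbq, -⟩ := key v hv hf b hb
    exact (hap.trans _ _ _ (hpq v p q c hf hp hq hc)).trans _ _ _ (Relation.EqvGen.symm _ _ hbq)
  · rintro v b ⟨y, hy⟩ hb
    have hv : ¬ K.Snk v := fun h => h b hb
    have h1 : ∃ p c, K.LJ v p b ∧ K.Cor p v c := by
      rcases fin v with hf | hf
      · obtain ⟨p, c, hp, -, hc⟩ := key v hv hf y hy
        exact ⟨p, c, hpq v p b c hf hp hb hc, hc⟩
      · obtain ⟨c, hc⟩ := hy.cor
        exact ⟨y, c, hL2 v hv hf y b hy.E (Or.inl hb), hc⟩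
    obtain ⟨p, c, h2, hc⟩ := h1
    by_cases e : b = p
    · subst e
      exact (GX.EC_iff.2 ⟨c, hc⟩).symm
    · obtain ⟨d, -, hd⟩ := GX.LJ.corner (Relation.EqvGen.symm _ _ h2) e
      exact (GX.EC_iff.2 ⟨d, hd⟩).symm

/-- THE PART IS FULL -/
theorem full_all (S : SubGX K' K) (hall : ∀ i : K.I, ∃ i', S.ι i' = i) (hLC : ∀ v, K'.LC v)
    (hb : ¬ SA H') (hVs : K'.nVs ≤ K.nVs)
    (hpq : ∀ v a b c, Finite ↥(stabilizer H v) → K.ar v a → K.ar v b → K.Cor a v c → K.LJ v a b)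
    (hL1 : ∀ v, K.Snk v → K.CLC v) (hL2 : ∀ v, ¬ K.Snk v → Infinite ↥(stabilizer H v) → K.LC v) :
    S.Full := by
  obtain ⟨h1, h2⟩ := S.clc_all hall hLC hVs hpq hL1 hL2
  exact ⟨h1, h2, hall, K'.VC_all hLC hb⟩

end SubGX

end Pool.Agent.DI
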