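import Pool.Agent.DI.ExcJ

/-!
# Additivity of the pole excess over the components

`FG.aftE_iso`, `FG.exc_iso`: isomorphisms. `FG.aftE_sum`, `FG.exc_sum`: sums over the components.
`JM.exc_sum`: for a graph with an action, `aftE D e - exc P` is the sum of the same expressions for the
components with their groups; `JM.exc_le`: if all of them are nonnegative then `exc P ≤ aftE D e`;
`JM.exc_eq`: and if nothing is gained then all of them are zero.
-/

namespace Pool.Agent.DI

open MulAction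
open Pool.Agent.SAF (orbs FinOrb oc oc_mono)

namespace FG

variable (G : FG)

open Classical in
/-- the degree as a sum over the lines -/
theorem deg_eq_sum [Fintype G.L] (x : G.N) : G.deg x =
    ∑ e : G.L, ((if G.a e = x then 1 else 0) + (if G.b e = x then 1 else 0)) := by
  rw [Finset.sum_add_distrib]
  unfold deg
  congr 1
  · rw [Nat.card_eq_fintype_card, Fintype.card_subtype, Finset.card_filter]
  · rw [Nat.card_eq_fintype_card, Fintype.card_subtype, Finset.card_filter]

variable {G}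

theorem deg_iso {G' : FG} (i : Iso G G') (x : G.N) : G'.deg (i.n x) = G.deg x := by
  classical
  have := Fintype.ofFinite G.L
  have := Fintype.ofFinite G'.L
  rw [G.deg_eq_sum, G'.deg_eq_sum]
  refine (Fintype.sum_equiv i.l _ _ (fun e => ?_)).symm
  rcases i.h e with ⟨h1, h2⟩ | ⟨h1, h2⟩
  · rw [h1, h2]
    simp only [i.n.injective.eq_iff]
  · rw [h1, h2]
    simp only [i.n.injective.eq_iff]
    exact add_comm _ _

theorem aftE_iso {G' : FG} (i : Iso G G') [Fintype G.N] [Fintype G'.N] {D : Set G.N}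
    {D' : Set G'.N} {e : G.N → ℕ} {e' : G'.N → ℕ} (hD : ∀ x, i.n x ∈ D' ↔ x ∈ D)
    (he : ∀ x, e' (i.n x) = e x) : G.aftE D e = G'.aftE D' e' := by
  classical
  unfold aftE
  refine Fintype.sum_equiv i.n _ _ (fun x => ?_)
  rw [deg_iso i, he]
  by_cases h : x ∈ D
  · rw [if_pos h, if_pos ((hD x).2 h)]
  · rw [if_neg h, if_neg (fun k => h ((hD x).1 k))]

theorem exc_iso {G' : FG} (i : Iso G G') {P : Set G.N} {P' : Set G'.N}
    (hP : ∀ x, i.n x ∈ P' ↔ x ∈ P) : G.exc P = G'.exc P' := by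
  unfold exc pst
  congr 1
  · congr 1
    apply Nat.card_congr
    refine i.l.subtypeEquiv (fun e => ?_)
    rcases i.h e with ⟨h1, h2⟩ | ⟨h1, h2⟩
    · rw [h1, h2, hP, hP]
    · rw [h1, h2, hP, hP, or_comm]
  · congr 1
    apply Nat.card_congr
    exact i.n.subtypeEquiv (fun x => (hP x).symm)

variable (G)

/-- the degree in a component -/
theorem deg_comp (Y : G.C) (x : (G.comp Y).N) : (G.comp Y).deg x = G.deg x.1 := by
  unfold deg
  congr 1
  · apply Nat.card_congr
    exact {
      toFun := fun e => ⟨e.1.1, congrArg Subtype.val e.2⟩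
      invFun := fun e => ⟨⟨e.1, (congrArg G.c e.2).trans x.2⟩, Subtype.ext e.2⟩
      left_inv := fun _ => rfl
      right_inv := fun _ => rfl }
  · apply Nat.card_congr
    exact {
      toFun := fun e => ⟨e.1.1, congrArg Subtype.val e.2⟩
      invFun := fun e => ⟨⟨e.1, (c_line e.1).trans ((congrArg G.c e.2).trans x.2)⟩,
        Subtype.ext e.2⟩
      left_inv := fun _ => rfl
      right_inv := fun _ => rfl }

theorem aftE_sum [Fintype G.N] [Fintype G.C] [∀ Y : G.C, Fintype (G.comp Y).N] (D : Set G.N)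
    (e : G.N → ℕ) : G.aftE D e =
      ∑ Y, (G.comp Y).aftE {x | x.1 ∈ D} (fun x => e x.1) := by
  classical
  unfold aftE
  rw [← Fintype.sum_fiberwise (fun x => G.c x)]
  apply Finset.sum_congr rfl
  intro Y _
  refine Finset.sum_nbij' (s := Finset.univ) (t := Finset.univ) (fun x => ⟨x.1, x.2⟩)
    (fun x => ⟨x.1, x.2⟩) ?_ ?_ ?_ ?_ ?_
  · intro _ _; exact Finset.mem_univ _
  · intro _ _; exact Finset.mem_univ _
  · intro _ _; rfl
  · intro _ _; rfl
  · intro x _
    show (if x.1 ∈ D then (0:ℤ) else (G.deg x.1 : ℤ) - e x.1) =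
      (if x.1 ∈ D then (0:ℤ) else ((G.comp Y).deg ⟨x.1, x.2⟩ : ℤ) - e x.1)
    rw [G.deg_comp Y ⟨x.1, x.2⟩]

theorem exc_sum [Fintype G.C] (P : Set G.N) :
    G.exc P = ∑ Y, (G.comp Y).exc {x | x.1 ∈ P} := by
  unfold exc
  rw [Finset.sum_sub_distrib]
  congr 1
  · unfold pst
    rw [card_fib (fun e : {e // G.a e ∈ P ∨ G.b e ∈ P} => G.c (G.a e.1))]
    push_cast
    apply Finset.sum_congr rfl
    intro Y _
    congr 1
    apply Nat.card_congr
    exact {
      toFun := fun e => ⟨⟨e.1.1, e.2⟩, e.1.2⟩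
      invFun := fun e => ⟨⟨e.1.1, e.2⟩, e.1.2⟩
      left_inv := fun _ => rfl
      right_inv := fun _ => rfl }
  · rw [card_fib (fun x : ↥P => G.c x.1)]
    push_cast
    apply Finset.sum_congr rfl
    intro Y _
    congr 1
    apply Nat.card_congr
    exact {
      toFun := fun x => ⟨⟨x.1.1, x.2⟩, x.1.2⟩
      invFun := fun x => ⟨⟨x.1.1, x.2⟩, x.1.2⟩
      left_inv := fun _ => rfl
      right_inv := fun _ => rfl }

end FG

namespace JM

variable {J T Ed : Type} [Group J] [MulAction J T] [MulAction J Ed] (M : JM J T Ed)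

/-- the restriction of a set of nodes of the quotient to a component -/
def rs (x : T) (D : Set M.fg.N) : Set (M.comp x).fg.N := {q | (M.compN x q).1 ∈ D}

/-- the restriction of a function -/
noncomputable def re (x : T) (e : M.fg.N → ℕ) (q : (M.comp x).fg.N) : ℕ := e (M.compN x q).1

/-- the restriction of an invariant set of nodes to a component -/
def rQ (x : T) (Q : SubMulAction J T) : SubMulAction ↥(M.grp x) ↥(M.cT x) where
  carrier := {y | y.1 ∈ Q}
  smul_mem' j y hy := Q.smul_mem j.1 hy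

theorem mem_rQ {x : T} {Q : SubMulAction J T} {y : ↥(M.cT x)} : y ∈ M.rQ x Q ↔ y.1 ∈ Q := Iff.rfl

theorem rs_imN (x : T) (Q : SubMulAction J T) :
    M.rs x (M.imN Q) = (M.comp x).imN (M.rQ x Q) := by
  ext q
  obtain ⟨y, rfl⟩ := oq_surj q
  have h1 : oq (↥(M.grp x)) y ∈ M.rs x (M.imN Q) ↔ y.1 ∈ Q := M.mem_imN
  have h2 : oq (↥(M.grp x)) y ∈ (M.comp x).imN (M.rQ x Q) ↔ y ∈ M.rQ x Q :=
    (M.comp x).mem_imN
  exact h1.trans h2.symm

/-- the quotient of a component by its group is a component of the quotient -/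
noncomputable def cIso (x : T) : FG.Iso (M.comp x).fg (M.fg.comp (M.fg.c (oq J x))) := M.compIso x

theorem rs_union (x : T) (D E : Set M.fg.N) : M.rs x (D ∪ E) = M.rs x D ∪ M.rs x E := rfl

/-- stabilisers in a component -/
theorem stab_comp (x : T) (y : ↥(M.cT x)) :
    (stabilizer ↥(M.grp x) y).map (M.grp x).subtype = stabilizer J y.1 := by
  ext j
  rw [Subgroup.mem_map]
  constructor
  · rintro ⟨k, hk, rfl⟩
    exact congrArg Subtype.val hk
  · intro hj
    have hj' : j • y.1 = y.1 := hj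
    have h1 : j ∈ M.grp x := M.grp_of y.2 (by rw [hj']; exact y.2)
    exact ⟨⟨j, h1⟩, Subtype.ext hj', rfl⟩

theorem deg_comp' (x : T) (q : (M.comp x).fg.N) :
    (M.comp x).fg.deg q = M.fg.deg (M.compN x q).1 := by
  rw [← FG.deg_iso (M.cIso x) q]
  exact M.fg.deg_comp _ _

/-- THE SUM over the components -/
theorem aft_sum [Fintype M.fg.N] [Fintype M.fg.C] (r : M.fg.C → T)
    (hr : ∀ c, M.fg.c (oq J (r c)) = c) [∀ c, Fintype (M.comp (r c)).fg.N] (D : Set M.fg.N)
    (e : M.fg.N → ℕ) :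
    M.fg.aftE D e = ∑ c, (M.comp (r c)).fg.aftE (M.rs (r c) D) (M.re (r c) e) := by
  classical
  have : ∀ Y : M.fg.C, Fintype (M.fg.comp Y).N := fun Y => Fintype.ofFinite _
  rw [M.fg.aftE_sum D e]
  apply Finset.sum_congr rfl
  intro c _
  have key : ∀ c', M.fg.c (oq J (r c)) = c' →
      (M.fg.comp c').aftE {x | x.1 ∈ D} (fun x => e x.1) =
      (M.comp (r c)).fg.aftE (M.rs (r c) D) (M.re (r c) e) := by
    intro c' hc'
    subst hc'
    exact (FG.aftE_iso (M.cIso (r c)) (fun x => Iff.rfl) (fun x => rfl)).symm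
  exact key c (hr c)

theorem exc_sum [Fintype M.fg.C] (r : M.fg.C → T)
    (hr : ∀ c, M.fg.c (oq J (r c)) = c) (P : Set M.fg.N) :
    M.fg.exc P = ∑ c, (M.comp (r c)).fg.exc (M.rs (r c) P) := by
  rw [M.fg.exc_sum P]
  apply Finset.sum_congr rfl
  intro c _
  have key : ∀ c', M.fg.c (oq J (r c)) = c' →
      (M.fg.comp c').exc {x | x.1 ∈ P} = (M.comp (r c)).fg.exc (M.rs (r c) P) := by
    intro c' hc'
    subst hc'
    exact (FG.exc_iso (M.cIso (r c)) (fun x => Iff.rfl)).symm
  exact key c (hr c)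

/-- if nothing is lost at any component then nothing is lost -/
theorem exc_le [Fintype M.fg.N] [∀ x : T, Fintype (M.comp x).fg.N] {D P : Set M.fg.N}
    {e : M.fg.N → ℕ}
    (h : ∀ x : T, (M.comp x).fg.exc (M.rs x P) ≤ (M.comp x).fg.aftE (M.rs x D) (M.re x e)) :
    M.fg.exc P ≤ M.fg.aftE D e := by
  classical
  have := Fintype.ofFinite M.fg.C
  have h1 : ∀ c : M.fg.C, ∃ x : T, M.fg.c (oq J x) = c := by
    intro c
    obtain ⟨q, rfl⟩ := FG.c_surj c
    obtain ⟨x, rfl⟩ := oq_surj q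
    exact ⟨x, rfl⟩
  choose r hr using h1
  rw [M.aft_sum r hr, M.exc_sum r hr]
  exact Finset.sum_le_sum (fun c _ => h (r c))

/-- components of translates and of connected nodes have the same numbers -/
theorem exists_rep (x : T) : ∃ r : M.fg.C → T, (∀ c, M.fg.c (oq J (r c)) = c) ∧
    r (M.fg.c (oq J x)) = x := by
  classical
  have h1 : ∀ c : M.fg.C, ∃ y : T, M.fg.c (oq J y) = c := by
    intro c
    obtain ⟨q, rfl⟩ := FG.c_surj c
    obtain ⟨y, rfl⟩ := oq_surj q
    exact ⟨y, rfl⟩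
  choose r hr using h1
  refine ⟨fun c => if c = M.fg.c (oq J x) then x else r c, fun c => ?_, if_pos rfl⟩
  show M.fg.c (oq J (if c = M.fg.c (oq J x) then x else r c)) = c
  split_ifs with h
  · exact h.symm
  · exact hr c

/-- if nothing is lost at any component and nothing is gained then nothing is gained at any
component -/
theorem exc_eq [Fintype M.fg.N] [∀ x : T, Fintype (M.comp x).fg.N] {D P : Set M.fg.N}
    {e : M.fg.N → ℕ}
    (h : ∀ x : T, (M.comp x).fg.exc (M.rs x P) ≤ (M.comp x).fg.aftE (M.rs x D) (M.re x e))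
    (h0 : M.fg.aftE D e ≤ M.fg.exc P) (x : T) :
    (M.comp x).fg.exc (M.rs x P) = (M.comp x).fg.aftE (M.rs x D) (M.re x e) := by
  classical
  have := Fintype.ofFinite M.fg.C
  obtain ⟨r, hr, hx⟩ := M.exists_rep x
  have h1 := le_antisymm (M.exc_le h) h0
  rw [M.aft_sum r hr, M.exc_sum r hr] at h1
  have h2 := (Finset.sum_eq_sum_iff_of_le (fun c _ => h (r c))).1 h1 (M.fg.c (oq J x))
    (Finset.mem_univ _)
  rw [hx] at h2
  exact h2

end JM

end Pool.Agent.DI
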