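import Pool.Agent.DI.M14b
import Pool.Agent.DI.ExcG
import Pool.Agent.DI.ExcS

/-!
# The pole excess after cuts: a family of levels

`FG.exc_far`, `JM.exc_far`: a part without poles may be dropped. `FG.deg_cmp`, `JM.deg_cmp`: the degree of
a local piece does not depend on the other local edges which are contracted. `JM.exc_con`: the pole
excess after the contraction of edges which do not touch the poles. `JM.CutF M A`: a family of cuts
`JCut M (M' i)` with different bad parts; `A`: the local edges of all levels. `CutF.sum`: the sum of the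
pole excesses of all `M' i` is `aftE` of the contracted graph `M.con A`.
-/

namespace Pool.Agent.DI

open MulAction
open Pool.Agent.SAF (orbs FinOrb oc oc_mono)

namespace FG

variable (G : FG)

/-- a part without poles may be dropped -/
theorem exc_far {P Fr : Set G.N} (h1 : ∀ x ∈ P, x ∉ Fr)
    (h2 : ∀ e, (G.a e ∈ P ∨ G.b e ∈ P) → G.a e ∉ Fr ∧ G.b e ∉ Fr) :
    (G.del Fr).exc {x | x.1 ∈ P} = G.exc P := by
  have e1 : (G.del Fr).pst {x | x.1 ∈ P} = G.pst P := by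
    apply Nat.card_congr
    exact {
      toFun := fun e => ⟨e.1.1, e.2⟩
      invFun := fun e => ⟨⟨e.1, h2 e.1 e.2⟩, e.2⟩
      left_inv := fun _ => rfl
      right_inv := fun _ => rfl }
  have e2 : Nat.card ↥({x | x.1 ∈ P} : Set (G.del Fr).N) = Nat.card ↥P := by
    apply Nat.card_congr
    exact {
      toFun := fun x => ⟨x.1.1, x.2⟩
      invFun := fun x => ⟨⟨x.1, h1 x.1 x.2⟩, x.2⟩
      left_inv := fun _ => rfl
      right_inv := fun _ => rfl }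
  unfold exc
  rw [e1, e2]

variable {G}

theorem cmp_eqv {A A' : Set G.L} {Bd : Set G.N}
    (hB : ∀ e ∈ A', (G.a e ∈ Bd ↔ G.b e ∈ Bd)) (hI : ∀ e ∈ A', G.a e ∈ Bd → e ∈ A) {x y : G.N}
    (h : Relation.EqvGen (G.sub A').st x y) :
    (x ∈ Bd ↔ y ∈ Bd) ∧ (x ∈ Bd → (G.sub A).c x = (G.sub A).c y) := by
  induction h with
  | rel x y h =>
    obtain ⟨e, rfl, rfl⟩ := h
    refine ⟨hB e.1 e.2, fun hx => ?_⟩
    exact c_line (G := G.sub A) ⟨e.1, hI e.1 e.2 hx⟩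
  | refl x => exact ⟨Iff.rfl, fun _ => rfl⟩
  | symm x y _ ih => exact ⟨ih.1.symm, fun hy => (ih.2 (ih.1.2 hy)).symm⟩
  | trans x y z _ _ h1 h2 =>
    exact ⟨h1.1.trans h2.1, fun hx => (h1.2 hx).trans (h2.2 (h1.1.1 hx))⟩

theorem sub_mono {A A' : Set G.L} (hA : A ⊆ A') {x y : G.N}
    (h : (G.sub A).c x = (G.sub A).c y) : (G.sub A').c x = (G.sub A').c y :=
  const_of_line (G := G.sub A) (f := (G.sub A').c)
    (fun e => c_line (G := G.sub A') ⟨e.1, hA e.2⟩) (c_eq.1 h)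

/-- the degree of a local piece -/
theorem deg_cmp {A A' : Set G.L} {Bd : Set G.N} (hA : A ⊆ A')
    (hB : ∀ e ∈ A', (G.a e ∈ Bd ↔ G.b e ∈ Bd)) (hI : ∀ e ∈ A', G.a e ∈ Bd → e ∈ A) {x : G.N}
    (hx : x ∈ Bd) : (G.con A').deg ((G.sub A').c x) = (G.con A).deg ((G.sub A).c x) := by
  have key : ∀ y, (G.sub A').c y = (G.sub A').c x → y ∈ Bd ∧ (G.sub A).c y = (G.sub A).c x := by
    intro y h
    have h1 := cmp_eqv hB hI (c_eq.1 h.symm)
    exact ⟨h1.1.1 hx, (h1.2 hx).symm⟩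
  unfold deg
  congr 1
  · apply Nat.card_congr
    exact {
      toFun := fun e => ⟨⟨e.1.1, fun k => e.1.2 (hA k)⟩, (key _ e.2).2⟩
      invFun := fun e => ⟨⟨e.1.1, fun k => e.1.2 (hI _ k (key _ (sub_mono hA e.2)).1)⟩,
        sub_mono hA e.2⟩
      left_inv := fun _ => rfl
      right_inv := fun _ => rfl }
  · apply Nat.card_congr
    exact {
      toFun := fun e => ⟨⟨e.1.1, fun k => e.1.2 (hA k)⟩, (key _ e.2).2⟩
      invFun := fun e => ⟨⟨e.1.1, fun k => e.1.2 (hI _ k ((hB _ k).2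
        (key _ (sub_mono hA e.2)).1))⟩, sub_mono hA e.2⟩
      left_inv := fun _ => rfl
      right_inv := fun _ => rfl }

/-- nodes without local lines -/
theorem sub_iso {A : Set G.L} {P : Set G.N} (h : ∀ e ∈ A, G.a e ∉ P ∧ G.b e ∉ P) {x y : G.N}
    (hx : x ∈ P) (k : (G.sub A).c y = (G.sub A).c x) : y = x := by
  have key : ∀ u v, Relation.EqvGen (G.sub A).st u v → (u ∈ P → u = v) ∧ (v ∈ P → u = v) := by
    intro u v h1
    induction h1 with
    | rel u v h1 =>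
      obtain ⟨e, rfl, rfl⟩ := h1
      exact ⟨fun k => absurd k (h e.1 e.2).1, fun k => absurd k (h e.1 e.2).2⟩
    | refl u => exact ⟨fun _ => rfl, fun _ => rfl⟩
    | symm u v _ ih => exact ⟨fun k => (ih.2 k).symm, fun k => (ih.1 k).symm⟩
    | trans u v z _ _ h1 h2 =>
      refine ⟨fun k => ?_, fun k => ?_⟩
      · have e1 := h1.1 k
        subst e1
        exact h2.1 k
      · have e1 := h2.2 k
        subst e1
        exact h1.2 k
  exact (key y x (c_eq.1 k)).2 hx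

/-- the pole excess after a contraction -/
theorem exc_con {A : Set G.L} {P : Set G.N} (h : ∀ e ∈ A, G.a e ∉ P ∧ G.b e ∉ P) :
    (G.con A).exc {C | ∃ x ∈ P, (G.sub A).c x = C} = G.exc P := by
  have hm : ∀ y, (∃ x ∈ P, (G.sub A).c x = (G.sub A).c y) ↔ y ∈ P := by
    intro y
    constructor
    · rintro ⟨x, hx, k⟩
      rw [sub_iso h hx k.symm]
      exact hx
    · exact fun hy => ⟨y, hy, rfl⟩
  have e1 : (G.con A).pst {C | ∃ x ∈ P, (G.sub A).c x = C} = G.pst P := by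
    apply Nat.card_congr
    exact {
      toFun := fun e => ⟨e.1.1, e.2.imp (hm _).1 (hm _).1⟩
      invFun := fun e => ⟨⟨e.1, fun k => e.2.elim (h _ k).1 (h _ k).2⟩,
        e.2.imp (hm _).2 (hm _).2⟩
      left_inv := fun _ => rfl
      right_inv := fun _ => rfl }
  have e2 : Nat.card ↥({C | ∃ x ∈ P, (G.sub A).c x = C} : Set (G.con A).N) = Nat.card ↥P := by
    symm
    refine Nat.card_congr (Equiv.ofBijective (fun x : ↥P =>
      (⟨(G.sub A).c x.1, x.1, x.2, rfl⟩ :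
        ↥({C | ∃ x ∈ P, (G.sub A).c x = C} : Set (G.con A).N))) ⟨?_, ?_⟩)
    · intro x y hxy
      exact Subtype.ext (sub_iso h y.2 (congrArg Subtype.val hxy))
    · rintro ⟨C, x, hx, rfl⟩
      exact ⟨⟨x, hx⟩, rfl⟩
  unfold exc
  rw [e1, e2]

end FG

namespace JM

variable {J T Ed : Type} [Group J] [MulAction J T] [MulAction J Ed] (M : JM J T Ed)

/-- a part without poles may be dropped -/
theorem exc_far {Q Fr : SubMulAction J T} (h1 : ∀ x ∈ Q, x ∉ Fr)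
    (h2 : ∀ e, (M.s e ∈ Q ∨ M.t e ∈ Q) → M.s e ∉ Fr ∧ M.t e ∉ Fr)
    (Q' : SubMulAction J ↥(cpl Fr)) (hQ : ∀ x, x ∈ Q' ↔ x.1 ∈ Q) :
    (M.dn Fr).fg.exc ((M.dn Fr).imN Q') = M.fg.exc (M.imN Q) := by
  rw [← M.fg.exc_far (P := M.imN Q) (Fr := M.imN Fr)]
  · apply FG.exc_iso (M.dnIso Fr)
    intro q
    obtain ⟨x, rfl⟩ := oq_surj q
    have e1 : ((M.dnIso Fr).n (oq J x)).1 = oq J x.1 := rfl
    show ((M.dnIso Fr).n (oq J x)).1 ∈ M.imN Q ↔ _
    rw [e1]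
    have e2 : (oq J x.1 : M.fg.N) ∈ M.imN Q ↔ x.1 ∈ Q := M.mem_imN
    have e3 : (oq J x : (M.dn Fr).fg.N) ∈ (M.dn Fr).imN Q' ↔ x ∈ Q' := (M.dn Fr).mem_imN
    exact e2.trans ((hQ x).symm.trans e3.symm)
  · intro q hq
    obtain ⟨x, rfl⟩ := oq_surj q
    exact fun k => h1 x (M.mem_imN.1 hq) (M.mem_imN.1 k)
  · intro q hq
    obtain ⟨e, rfl⟩ := oq_surj q
    have h3 := h2 e (hq.imp M.mem_imN.1 M.mem_imN.1)
    exact ⟨fun k => h3.1 (M.mem_imN.1 k), fun k => h3.2 (M.mem_imN.1 k)⟩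

variable {M}

theorem cmp_eqv {A A' : SubMulAction J Ed} {Bd : SubMulAction J T}
    (hB : ∀ e ∈ A', (M.s e ∈ Bd ↔ M.t e ∈ Bd)) (hI : ∀ e ∈ A', M.s e ∈ Bd → e ∈ A) {x y : T}
    (h : M.ct A' x = M.ct A' y) : (x ∈ Bd ↔ y ∈ Bd) ∧ (x ∈ Bd → M.ct A x = M.ct A y) := by
  replace h := M.ct_eq.1 h
  induction h with
  | rel x y h =>
    obtain ⟨e, rfl, rfl⟩ := h
    refine ⟨hB e.1 e.2, fun hx => M.ct_eq.2 ?_⟩
    exact Relation.EqvGen.rel _ _ ⟨⟨e.1, hI e.1 e.2 hx⟩, rfl, rfl⟩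
  | refl x => exact ⟨Iff.rfl, fun _ => rfl⟩
  | symm x y _ ih => exact ⟨ih.1.symm, fun hy => (ih.2 (ih.1.2 hy)).symm⟩
  | trans x y z _ _ h1 h2 =>
    exact ⟨h1.1.trans h2.1, fun hx => (h1.2 hx).trans (h2.2 (h1.1.1 hx))⟩

theorem ct_mono {A A' : SubMulAction J Ed} (hA : ∀ e ∈ A, e ∈ A') {x y : T}
    (h : M.ct A x = M.ct A y) : M.ct A' x = M.ct A' y := by
  replace h := M.ct_eq.1 h
  rw [M.ct_eq]
  induction h with
  | rel x y h =>
    obtain ⟨e, rfl, rfl⟩ := h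
    exact Relation.EqvGen.rel _ _ ⟨⟨e.1, hA e.1 e.2⟩, rfl, rfl⟩
  | refl x => exact Relation.EqvGen.refl _
  | symm x y _ ih => exact ih.symm
  | trans x y z _ _ h1 h2 => exact h1.trans _ _ _ h2

theorem oct_mono {A A' : SubMulAction J Ed} (hA : ∀ e ∈ A, e ∈ A') {x y : T}
    (h : oq J (M.ct A x) = oq J (M.ct A y)) : oq J (M.ct A' x) = oq J (M.ct A' y) := by
  obtain ⟨j, hj⟩ := oq_eq.1 h
  rw [← M.ct_smul] at hj
  rw [ct_mono hA hj, M.ct_smul, oq_smul]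

theorem oct_inj {A A' : SubMulAction J Ed} {Bd : SubMulAction J T}
    (hB : ∀ e ∈ A', (M.s e ∈ Bd ↔ M.t e ∈ Bd)) (hI : ∀ e ∈ A', M.s e ∈ Bd → e ∈ A) {x y : T}
    (hx : x ∈ Bd) (h : oq J (M.ct A' x) = oq J (M.ct A' y)) :
    y ∈ Bd ∧ oq J (M.ct A x) = oq J (M.ct A y) := by
  obtain ⟨j, hj⟩ := oq_eq.1 h
  rw [← M.ct_smul] at hj
  have h1 := cmp_eqv hB hI hj.symm
  have h2 : j • x ∈ Bd := Bd.smul_mem j hx
  refine ⟨h1.1.1 h2, ?_⟩
  rw [← h1.2 h2, M.ct_smul, oq_smul]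

/-- the degree of a local piece -/
theorem deg_cmp {A A' : SubMulAction J Ed} {Bd : SubMulAction J T} (hA : ∀ e ∈ A, e ∈ A')
    (hB : ∀ e ∈ A', (M.s e ∈ Bd ↔ M.t e ∈ Bd)) (hI : ∀ e ∈ A', M.s e ∈ Bd → e ∈ A) {x : T}
    (hx : x ∈ Bd) : (M.con A').fg.deg (oq J (M.ct A' x)) =
      (M.con A).fg.deg (oq J (M.ct A x)) := by
  rw [← (M.conIso A').deg, ← (M.conIso A).deg]
  refine FG.deg_cmp (Bd := M.imN Bd) ?_ ?_ ?_ (M.mem_imN.2 hx)
  · rintro q ⟨e, he, rfl⟩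
    exact ⟨e, hA e he, rfl⟩
  · rintro q ⟨e, he, rfl⟩
    exact M.mem_imN.trans ((hB e he).trans M.mem_imN.symm)
  · rintro q ⟨e, he, rfl⟩ hq
    exact ⟨e, hI e he (M.mem_imN.1 hq), rfl⟩

variable (M)

/-- the image of an invariant set of vertices in a contraction -/
def cim (A : SubMulAction J Ed) (Q : SubMulAction J T) : SubMulAction J (M.CT A) where
  carrier := {C | ∃ x ∈ Q, M.ct A x = C}
  smul_mem' j C := by
    rintro ⟨x, hx, rfl⟩
    exact ⟨j • x, Q.smul_mem j hx, rfl⟩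

/-- the pole excess after the contraction of edges which do not touch the poles -/
theorem exc_con {A : SubMulAction J Ed} {Q : SubMulAction J T}
    (h : ∀ e ∈ A, M.s e ∉ Q ∧ M.t e ∉ Q) :
    (M.con A).fg.exc ((M.con A).imN (M.cim A Q)) = M.fg.exc (M.imN Q) := by
  rw [← M.fg.exc_con (A := im A) (P := M.imN Q)]
  · apply FG.exc_iso (M.conIso A)
    intro q
    obtain ⟨C, rfl⟩ := oq_surj q
    obtain ⟨x, rfl⟩ := M.ct_surj C
    have e1 : (M.conIso A).n (oq J (M.ct A x)) = (M.fg.sub (im A)).c (oq J x) := rfl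
    rw [e1]
    have e2 : (oq J (M.ct A x) : (M.con A).fg.N) ∈ (M.con A).imN (M.cim A Q) ↔
        M.ct A x ∈ M.cim A Q := (M.con A).mem_imN
    refine Iff.trans ?_ e2.symm
    constructor
    · rintro ⟨q, hq, hc⟩
      obtain ⟨y, rfl⟩ := oq_surj q
      have hc : (M.conIso A).n (oq J (M.ct A y)) = (M.conIso A).n (oq J (M.ct A x)) := hc
      obtain ⟨j, hj⟩ := oq_eq.1 ((M.conIso A).n.injective hc)
      refine ⟨j • y, Q.smul_mem j (M.mem_imN.1 hq), ?_⟩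
      rw [M.ct_smul, ← hj]
    · rintro ⟨y, hy, hc⟩
      refine ⟨oq J y, M.mem_imN.2 hy, ?_⟩
      show (M.conIso A).n (oq J (M.ct A y)) = (M.conIso A).n (oq J (M.ct A x))
      rw [hc]
  · rintro q ⟨e, he, rfl⟩
    exact ⟨fun k => (h e he).1 (M.mem_imN.1 k), fun k => (h e he).2 (M.mem_imN.1 k)⟩

end JM

/-! ### a family of cuts -/

/-- a family of cuts with different bad parts -/
structure CutF {J T Ed : Type} [Group J] [MulAction J T] [MulAction J Ed] (M : JM J T Ed)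
    {ι : Type} (J' T' Ed' : ι → Type) [∀ i, Group (J' i)] [∀ i, MulAction (J' i) (T' i)]
    [∀ i, MulAction (J' i) (Ed' i)] (M' : ∀ i, JM (J' i) (T' i) (Ed' i)) where
  c : ∀ i, JCut M (M' i)
  /-- the local edges of all levels -/
  A : SubMulAction J Ed
  hA : ∀ i, ∀ e ∈ (c i).A, e ∈ A
  hB : ∀ i, ∀ e ∈ A, (M.s e ∈ (c i).Bd ↔ M.t e ∈ (c i).Bd)
  hI : ∀ i, ∀ e ∈ A, M.s e ∈ (c i).Bd → e ∈ (c i).A
  dj : ∀ i j x, x ∈ (c i).Bd → x ∈ (c j).Bd → i = j

namespace CutF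

variable {J T Ed : Type} [Group J] [MulAction J T] [MulAction J Ed] {M : JM J T Ed}
    {ι : Type} {J' T' Ed' : ι → Type} [∀ i, Group (J' i)] [∀ i, MulAction (J' i) (T' i)]
    [∀ i, MulAction (J' i) (Ed' i)] {M' : ∀ i, JM (J' i) (T' i) (Ed' i)} (F : CutF M J' T' Ed' M')

/-- the bad nodes of level `i` -/
def B (i : ι) : Set (M.con F.A).fg.N := {P | ∃ x ∈ (F.c i).Bd, oq J (M.ct F.A x) = P}

/-- the nodes which are not bad -/
def D : Set (M.con F.A).fg.N := {P | ∀ i, P ∉ F.B i}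

theorem mem_B {i : ι} {x : T} : (oq J (M.ct F.A x) : (M.con F.A).fg.N) ∈ F.B i ↔
    x ∈ (F.c i).Bd := by
  constructor
  · rintro ⟨y, hy, h⟩
    exact (JM.oct_inj (F.hB i) (F.hI i) hy h).1
  · exact fun h => ⟨x, h, rfl⟩

theorem mem_D {x : T} : (oq J (M.ct F.A x) : (M.con F.A).fg.N) ∈ F.D ↔
    ∀ i, x ∉ (F.c i).Bd := forall_congr' (fun _ => not_congr F.mem_B)

open Classical in
/-- the number of private ends -/
noncomputable def e (P : (M.con F.A).fg.N) : ℕ :=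
  if h : ∃ i, ∃ x ∈ (F.c i).Bd, oq J (M.ct F.A x) = P then
    (F.c h.choose).e (oq J (M.ct (F.c h.choose).A h.choose_spec.choose)) else 0

theorem e_oq {i : ι} {x : T} (hx : x ∈ (F.c i).Bd) :
    F.e (oq J (M.ct F.A x)) = (F.c i).e (oq J (M.ct (F.c i).A x)) := by
  have h : ∃ j, ∃ y ∈ (F.c j).Bd, oq J (M.ct F.A y) = oq J (M.ct F.A x) := ⟨i, x, hx, rfl⟩
  have h1 : F.e (oq J (M.ct F.A x)) =
    (F.c h.choose).e (oq J (M.ct (F.c h.choose).A h.choose_spec.choose)) := dif_pos h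
  rw [h1]
  have key : ∀ (j : ι) (y : T), y ∈ (F.c j).Bd → oq J (M.ct F.A y) = oq J (M.ct F.A x) →
      (F.c j).e (oq J (M.ct (F.c j).A y)) = (F.c i).e (oq J (M.ct (F.c i).A x)) := by
    intro j y hy h2
    obtain ⟨h3, h4⟩ := JM.oct_inj (F.hB j) (F.hI j) hy h2
    have := F.dj j i x h3 hx
    subst this
    rw [h4]
  exact key _ _ h.choose_spec.choose_spec.1 h.choose_spec.choose_spec.2

open Classical in
/-- one level -/
theorem one (i : ι) [Fintype (M.con F.A).fg.N] : (M' i).fg.exc ((M' i).imN (F.c i).D) =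
    ∑ P : (M.con F.A).fg.N, (if P ∈ F.B i then ((M.con F.A).fg.deg P : ℤ) - F.e P else 0) := by
  have := Fintype.ofFinite (M.con (F.c i).A).fg.N
  have h1 : (M' i).fg.exc ((M' i).imN (F.c i).D) =
    ∑ P, (if P ∈ (M.con (F.c i).A).imN (F.c i).Bcon then
      ((M.con (F.c i).A).fg.deg P : ℤ) - (F.c i).e P else 0) := (F.c i).exc_eq
  rw [h1, ← Finset.sum_filter, ← Finset.sum_filter]
  have hmem : ∀ x : T, (oq J (M.ct (F.c i).A x) : (M.con (F.c i).A).fg.N) ∈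
      (M.con (F.c i).A).imN (F.c i).Bcon ↔ x ∈ (F.c i).Bd := fun x => by
    rw [JM.mem_imN, (F.c i).mem_Bcon]
  -- the map
  let φ : (M.con (F.c i).A).fg.N → (M.con F.A).fg.N :=
    olift (fun C : M.CT (F.c i).A => oq J (Quotient.lift (fun x : T => M.ct F.A x)
      (fun x y h => JM.ct_mono (F.hA i) (M.ct_eq.2 h)) C)) (fun j C => by
        obtain ⟨x, rfl⟩ := M.ct_surj C
        show oq J (M.ct F.A (j • x)) = oq J (M.ct F.A x)
        rw [M.ct_smul, oq_smul])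
  have hφ : ∀ x : T, φ (oq J (M.ct (F.c i).A x)) = oq J (M.ct F.A x) := fun _ => rfl
  refine Finset.sum_nbij φ ?_ ?_ ?_ ?_
  · intro q hq
    obtain ⟨C, rfl⟩ := oq_surj q
    obtain ⟨x, rfl⟩ := M.ct_surj C
    rw [Finset.mem_filter] at hq ⊢
    refine ⟨Finset.mem_univ _, ?_⟩
    rw [hφ]
    exact F.mem_B.2 ((hmem x).1 hq.2)
  · intro q hq q' hq' h
    obtain ⟨C, rfl⟩ := oq_surj q
    obtain ⟨x, rfl⟩ := M.ct_surj C
    obtain ⟨C', rfl⟩ := oq_surj q'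
    obtain ⟨y, rfl⟩ := M.ct_surj C'
    have hq := (Finset.mem_filter.1 (Finset.mem_coe.1 hq)).2
    exact (JM.oct_inj (F.hB i) (F.hI i) ((hmem x).1 hq) h).2
  · intro q hq
    have hq := (Finset.mem_filter.1 (Finset.mem_coe.1 hq)).2
    obtain ⟨x, hx, rfl⟩ := hq
    refine ⟨oq J (M.ct (F.c i).A x), ?_, rfl⟩
    rw [Finset.mem_coe, Finset.mem_filter]
    exact ⟨Finset.mem_univ _, (hmem x).2 hx⟩
  · intro q hq
    obtain ⟨C, rfl⟩ := oq_surj q
    obtain ⟨x, rfl⟩ := M.ct_surj C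
    have hx := (hmem x).1 (Finset.mem_filter.1 hq).2
    rw [hφ, F.e_oq hx, JM.deg_cmp (F.hA i) (F.hB i) (F.hI i) hx]

/-- THE SUM OVER ALL LEVELS -/
theorem sum [Fintype ι] [Fintype (M.con F.A).fg.N] :
    ∑ i, (M' i).fg.exc ((M' i).imN (F.c i).D) = (M.con F.A).fg.aftE F.D F.e := by
  classical
  unfold FG.aftE
  rw [Finset.sum_congr rfl (fun i _ => F.one i), Finset.sum_comm]
  apply Finset.sum_congr rfl
  intro P _
  by_cases hD : P ∈ F.D
  · rw [if_pos hD]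
    apply Finset.sum_eq_zero
    intro i _
    exact if_neg (hD i)
  · rw [if_neg hD]
    have h1 : ∃ i, P ∈ F.B i := by
      by_contra h
      exact hD (fun i hi => h ⟨i, hi⟩)
    obtain ⟨i, hi⟩ := h1
    rw [Finset.sum_eq_single i]
    · rw [if_pos hi]
    · intro j _ hj
      apply if_neg
      intro k
      apply hj
      obtain ⟨x, hx, rfl⟩ := hi
      exact F.dj _ _ x (F.mem_B.1 k) hx
    · intro h
      exact absurd (Finset.mem_univ _) h

end CutF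

end Pool.Agent.DI
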