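import Pool.Agent.DI.LemV
import Pool.Agent.DI.CutQ

/-!
# DI/CutT: the link of the sink of an edge in the folded slice

`S : SyQ H V`, `O.Nf`. `HairF`: a vertex of the folded slice with one out-arrow is in no cell with it.
`kf_clc_t`: the link of `T0 = [t_u]` in `S.kf hc w O` without its isolated nodes is connected, if the
two poles of every folded hub over `u` are joined in it. `kf_join`: this holds if `q` has a corner which
is not a zero square over `u` and no cut corner. `kf_lc_one`: classes which cross no edge.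
-/

namespace Pool.Agent.DI

open MulAction
open Pool.Agent.SAF (InC orbs FinOrb oc Decomp SAn SA Conv hull dist_edge FinOrb_iff exists_next)
open Pool.Agent.BT (PX PQ JS bey exits lz lz_self lz_ne lz_symm x_next_unique)
open Pool.Agent.BT.TA

/-- a vertex with one out-arrow is in no cell with it -/
def GX.HairF {H V : Type} [Group H] [MulAction H V] (K : GX H V) : Prop :=
  ∀ c d, K.ar c d → (∀ d', K.ar c d' → d' = d) → ¬ K.EC c d

/-- a set of pages of a soft with the two poles `a`, `b` from which no corner leaves except to `a` has no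
corner with `a` -/
def GX.Cut0 {H V : Type} [Group H] [MulAction H V] (K : GX H V) (q : V) : Prop :=
  ∀ (a b : V) (R : Set V), K.ar q a → K.ar q b → a ≠ b → (∀ n ∈ R, K.ar n q) →
    (∀ (g : H), g • q = q → ∀ n ∈ R, g • n ∈ R → g • a = a) →
    (∀ (g : H), g • q = q → g • a = a → ∀ n ∈ R, g • n ∈ R) →
    (∀ n ∈ R, ∀ m, K.Cor n q m → m = a ∨ m ∈ R) → ∀ n ∈ R, ¬ K.Cor a q n

namespace SyQ

variable {H V : Type} [Group H] [MulAction H V] {S : SyQ H V}
  {hc : S.Conn} {w : S.X} {O : S.OR w}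

/-- a folded hub over `u` -/
def Fld (w : S.X) (O : S.OR w) (u : S.X) (q : V) : Prop := S.SD w u q ∧ ¬ O.op u q

/-- `x` is a page of a folded hub over `u` -/
def Hr (w : S.X) (O : S.OR w) (u : S.X) (x : V) : Prop := ∃ q, Fld w O u q ∧ S.K.ar x q

theorem Fld.mem {u : S.X} {q : V} (h : Fld w O u q) : w ∈ S.J q := h.1.1.1

theorem Fld.no_cs {u : S.X} {q : V} (h : Fld w O u q) {v : S.X} (hv : S.D.G.Adj w v) :
    v ∉ S.J q := fun k => h.1.1.not_cs hv k

/-- a folded hub has one place -/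
theorem Fld.one {u : S.X} {q : V} (h : Fld w O u q) : S.J q = {w} := by
  ext p
  constructor
  · intro hp
    by_contra hne
    have hne : w ≠ p := fun e => hne e.symm
    obtain ⟨v, hv, e⟩ := exists_next S.D.tree hne
    have hb : p ∈ bey S.D.G w v := by
      show S.D.G.dist p w = S.D.G.dist p v + 1
      rw [SimpleGraph.dist_comm, e, SimpleGraph.dist_comm]
    exact h.no_cs hv (conv_cr S.D.tree (S.js.conv q) hv h.mem hp (bey_self hv.symm) hb).2
  · intro e
    rw [Set.mem_singleton_iff.1 e]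
    exact h.mem

theorem Fld.fq {u : S.X} {q : V} (h : Fld w O u q) (hu : S.D.G.Adj w u) :
    S.fq w O (S.rho w q) = S.fq w O (Sum.inr ⟨u, hu⟩) := by
  rw [S.rho_near h.mem]
  exact fq_inr.2 (Sk.inl.2 h)

theorem Fld.adj {u : S.X} {q : V} (h : Fld w O u q) : S.D.G.Adj w u := by
  obtain ⟨-, a, b, hne, ha, hb, hg⟩ := h.1.1
  exact (hg.ne hne).1

theorem Fld.of_fq {u : S.X} (hu : S.D.G.Adj w u) {q : V} (hq : w ∈ S.J q)
    (h : S.fq w O (S.rho w q) = S.fq w O (Sum.inr ⟨u, hu⟩)) : Fld w O u q := by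
  rw [S.rho_near hq] at h
  exact Sk.inl.1 (fq_inr.1 h)

/-- the fate of a step of the wall -/
theorem pw_cases (hm : (S.k0 hc w).Min) (hn : S.SqN w O) {u : S.X} {x x' : V} (h : S.PW w u x x')
    (hne : x ≠ x') :
    (S.kf hc w O).Cor (S.fq w O (S.rho w x)) (S.fq w O (Sum.inr ⟨u, h.1⟩)) (S.fq w O (S.rho w x')) ∨
    S.fq w O (S.rho w x) = S.fq w O (S.rho w x') ∨
    ∃ s, S.Qs w u s x x' ∧ S.fq w O (S.rho w s) = S.fq w O (Sum.inr ⟨u, h.1⟩) := by
  obtain ⟨hu, cx, cx', q, hh⟩ := h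
  have near : ∀ q, S.CC u w x q x' →
      (S.kf hc w O).Cor (S.fq w O (S.rho w x)) (S.fq w O (Sum.inr ⟨u, hu⟩))
        (S.fq w O (S.rho w x')) ∨
      S.fq w O (S.rho w x) = S.fq w O (S.rho w x') ∨
      ∃ s, S.Qs w u s x x' ∧ S.fq w O (S.rho w s) = S.fq w O (Sum.inr ⟨u, hu⟩) := by
    intro q k
    have hs : S.Qs w u q x x' := ⟨hu, cx, cx', k⟩
    by_cases e1 : S.fq w O (S.rho w x) = S.fq w O (S.rho w x')
    · exact Or.inr (Or.inl e1)
    by_cases e2 : S.fq w O (S.rho w q) = S.fq w O (Sum.inr ⟨u, hu⟩)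
    · exact Or.inr (Or.inr ⟨q, hs, e2⟩)
    left
    have h4 := k0_Q4_kf hm hn (hs.k0s hc hne) e1 e2
    exact ((S.kfP hc w O hm hn).cor_iff.2 (Or.inr ⟨_, h4.rot.rot⟩)).symm
  rcases hh with k | k
  swap
  · exact near q k
  obtain ⟨hq, ⟨y, z, hp, hy, hz⟩ | ⟨y, hp, hy⟩⟩ := k
  swap
  · exact near y ⟨hy, Or.inr ⟨q, hp.symm.rot.rot, hq⟩⟩
  have rq : S.rho w q = Sum.inr ⟨u, hu⟩ := S.rho_bey hu hq
  have nq : w ∉ S.J q := S.not_mem_of_bey hu hq
  by_cases hI : S.IsC ![x, q, x', y, z] w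
  · left
    have := kf_cor5 hm hn hp hI
    rwa [rq] at this
  right; left
  have hv : ∀ k : Fin 5, S.K.E ((![x, q, x', y, z] : Fin 5 → V) k)
      ((![x, q, x', y, z] : Fin 5 → V) (k + 1)) := by
    intro k
    fin_cases k
    · exact hp.E1
    · exact hp.E2
    · exact hp.E3
    · exact hp.E4
    · exact hp.E5
  obtain ⟨u', hu', ⟨k, hk⟩ | hk⟩ := S.off_cases hv hI
  · fin_cases k
    · have hk : S.Sq w u' x q x' y z := hk
      have hs : S.Qs w u' q x x' := ⟨hk.1, hk.2.1, hk.2.2.1, hk.2.2.2.1,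
        Or.inl ⟨y, z, hp, hk.2.2.2.2.1, hk.2.2.2.2.2⟩⟩
      have := (FR.mer (O := O) u' q ⟨x, cx.1⟩ ⟨x', cx'.1⟩ hs (fun e => nq e.1.1)
        (fun e => nq (O.near _ _ e))).fq
      rw [S.rho_near cx.1, S.rho_near cx'.1]
      exact this
    · exact absurd hk.2.1.1 nq
    · exact absurd cx.1 (S.not_mem_of_bey hu' hk.2.2.2.2.1)
    · exact absurd cx'.1 (S.not_mem_of_bey hu' hk.2.2.2.2.2)
    · exact absurd cx'.1 (S.not_mem_of_bey hu' hk.2.2.2.2.1)
  · exfalso
    have e1 : u' = u := by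
      rcases hk 1 with ⟨h1, -, -⟩ | h1
      · exact absurd h1.1 nq
      · have h2 : S.rho w q = Sum.inr ⟨u', hu'⟩ := h1
        rw [rq] at h2
        exact (congrArg Subtype.val (Sum.inr.inj h2)).symm
    subst e1
    obtain ⟨p, hp'⟩ := S.js.ne y
    rcases hk 3 with ⟨h1, -, -⟩ | h1
    · exact bey_not (hy h1.2) (bey_self hu')
    · exact bey_not (rho_inr (u := ⟨u', hu'⟩) h1 hp') (hy hp')

/-- pages of folded hubs have one out-arrow -/
theorem Hr.ar {u : S.X} {x : V} (h : Hr w O u x) (hx : S.Cs w u x) (hu : S.D.G.Adj w u)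
    {d : S.Q w O} (hd : S.arQ w O (S.fq w O (S.rho w x)) d) :
    d = S.fq w O (Sum.inr ⟨u, hu⟩) := by
  obtain ⟨q, hq, e⟩ := h
  have ht : ∀ y, ¬ S.Dn w O x y := by
    rintro y ⟨v, s, hv, hcs, h1, h2, h3, h4, h5⟩
    obtain rfl : v = u := ar_cs_eq hx.1 e hq.mem hv hu hcs.2 hx.2
    obtain rfl : s = q := ar_ar_eq hx.1 h1 h2 e hq.mem hv hcs.2
    exact h3.1 hq.1
  rw [S.rho_near hx.1, arQ_fq, GN_tm hx.1 (fun u' => Sk.not_el hu hx.2) (Tm.base x ht),
    NS_pair (a := S.rho w q) (b := Sum.inr ⟨u, hu⟩) (by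
      rw [S.rho_near hq.mem]
      intro e
      cases e) (sar_hor hx.1 hq.mem e) (sar_up hu hx)] at hd
  rcases hd with hd | hd
  · rw [hd, hq.fq hu]
  · exact hd

/-- pages of folded hubs are alone in their class -/
theorem Hr.alone (hO : O.Nf) {u : S.X} {x : V} (h : Hr w O u x) (hx : S.Cs w u x)
    (hu : S.D.G.Adj w u) {c : S.SV w} (hh : S.fq w O c = S.fq w O (S.rho w x)) :
    c = S.rho w x := by
  obtain ⟨q, hq, e⟩ := h
  have hqw := hq.mem
  rw [S.rho_near hx.1] at hh ⊢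
  have mer : ∀ (u' : S.X) (s x' : V), S.Qs w u' s x x' → ¬ S.SD w u' s → ¬ O.op u' s → False := by
    intro u' s x' k1 k2 k3
    obtain rfl : u' = u := ar_cs_eq hx.1 e hqw k1.adj hu k1.l.2 hx.2
    have hs : w ∈ S.J s := by
      by_contra hs
      have ha := S.dir_adj hs
      have hb := S.dir_bey hs
      have hne : u' ≠ S.dir w s := by
        intro e
        obtain ⟨p, hp⟩ := S.js.ne s
        have h1 := k1.near hp
        have h2 := hb hp
        rw [← e] at h2
        exact bey_not h1 h2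
      exact hne (ar_cs_eq hx.1 e hqw hu ha hx.2 (S.dir_cross k1.E1 hx.1 hs))
    rcases k1.E1 with e1 | e1
    · obtain rfl : s = q := ar_ar_eq hx.1 e1 hs e hqw hu hx.2
      exact k2 hq.1
    · by_cases hd : ∃ v, S.Dia w v s
      · obtain ⟨v, hv⟩ := hd
        have key2 : ∀ v, S.Dia w v s → v = u' := by
          intro v hv
          have c1 := hv.two e1
          exact ar_cs_eq hx.1 e hqw c1.1 hu c1.2.2 hx.2
        obtain rfl := key2 v hv
        exact k2 ⟨hv, key2⟩
      · push Not at hd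
        exact k3 (hO.n1 s hs hd u' hu)
  have par : ∀ (u' : S.X) (s x' : V), S.Qs w u' s x x' → O.op u' s → S.K.ar x s → False := by
    intro u' s x' k1 k2 k3
    obtain rfl : u' = u := ar_cs_eq hx.1 e hqw k1.adj hu k1.l.2 hx.2
    obtain rfl : s = q := ar_ar_eq hx.1 k3 (O.near _ _ k2) e hqw hu hx.2
    exact hq.2 k2
  have key : ∀ a b, S.FR w O a b → (a = Sum.inl ⟨x, hx.1⟩ ↔ b = Sum.inl ⟨x, hx.1⟩) := by
    intro a b k
    cases k with
    | mer u' s y y' k1 k2 k3 =>
      constructor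
      · intro e'
        have e' : y.1 = x := congrArg Subtype.val (Sum.inl.inj e')
        rw [e'] at k1
        exact (mer _ _ _ k1 k2 k3).elim
      · intro e'
        have e' : y'.1 = x := congrArg Subtype.val (Sum.inl.inj e')
        rw [e'] at k1
        exact (mer _ _ _ k1.symm' k2 k3).elim
    | par u' s y y' k1 k2 k3 k4 =>
      constructor
      · intro e'
        have e' : y.1 = x := congrArg Subtype.val (Sum.inl.inj e')
        rw [e'] at k1 k3
        exact (par _ _ _ k1 k2 k3).elim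
      · intro e'
        have e' : y'.1 = x := congrArg Subtype.val (Sum.inl.inj e')
        rw [e'] at k1 k4
        exact (par _ _ _ k1.symm' k2 k4).elim
    | dia s u' k1 k2 =>
      constructor
      · intro e'
        have e' : s.1 = x := congrArg Subtype.val (Sum.inl.inj e')
        rw [e'] at k1
        exact (k1.1.not_cs hu hx.2).elim
      · intro e'
        cases e'
  have : ∀ a b, Relation.EqvGen (S.FR w O) a b →
      (a = Sum.inl ⟨x, hx.1⟩ ↔ b = Sum.inl ⟨x, hx.1⟩) := by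
    intro a b k
    induction k with
    | rel a b k => exact key a b k
    | refl a => exact Iff.rfl
    | symm a b _ ih => exact ih.symm
    | trans a b c _ _ i1 i2 => exact i1.trans i2
  exact (this _ _ (fq_eq.1 hh)).2 rfl

theorem Hr.alone' (hO : O.Nf) {u : S.X} {x y : V} (h : Hr w O u x) (hx : S.Cs w u x)
    (hu : S.D.G.Adj w u) (hy : w ∈ S.J y) (hh : S.fq w O (S.rho w y) = S.fq w O (S.rho w x)) :
    y = x := by
  have := h.alone hO hx hu hh
  rw [S.rho_near hy, S.rho_near hx.1] at this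
  exact congrArg Subtype.val (Sum.inl.inj this)

/-- pages of folded hubs are in no cell with `T0` -/
theorem Hr.not_ec (hH : (S.kf hc w O).HairF) {u : S.X} {x : V} (h : Hr w O u x) (hx : S.Cs w u x)
    (hu : S.D.G.Adj w u) :
    ¬ (S.kf hc w O).EC (S.fq w O (Sum.inr ⟨u, hu⟩)) (S.fq w O (S.rho w x)) := fun k =>
  hH _ _ (arQ_up (S := S) (w := w) (O := O) hu hx) (fun _ hd => h.ar hx hu hd) k.symm

/-- folded hubs are not opposite in a local square -/
theorem Fld.no_opp (hO : O.Nf) (hK : S.KIn w) {u u' : S.X} {q y n m : V} (h : Fld w O u q)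
    (h' : Fld w O u' y) (h4 : Q4 S.P n q m y) (hnw : w ∈ S.J n) (hmw : w ∈ S.J m) : False := by
  have hq := h.mem
  have hy := h'.mem
  rcases h4.ck_top hK.top with t | t | t | t
  · exact h.2 (hO.n6 _ _ _ _ t ⟨hnw, hq, hy, hmw⟩ _ h.1.1)
  · exact hO.n5 _ _ _ _ t ⟨hq, hmw, hnw, hy⟩ _ h.1.1
  · exact h.2 (hO.n6 _ _ _ _ t.symm' ⟨hmw, hq, hy, hnw⟩ _ h.1.1)
  · exact hO.n5 _ _ _ _ t ⟨hy, hnw, hmw, hq⟩ _ h'.1.1

/-- corners at a folded hub -/
theorem Fld.cor (hm : (S.k0 hc w).Min) (hn : S.SqN w O) (hO : O.Nf) (hK : S.KIn w) (nd : S.P.ND)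
    {u : S.X} {q a b : V} (h : Fld w O u q) (hu : S.D.G.Adj w u) (k : S.K.Cor a q b) :
    (S.kf hc w O).Cor (S.fq w O (S.rho w a)) (S.fq w O (Sum.inr ⟨u, hu⟩))
      (S.fq w O (S.rho w b)) ∨ S.fq w O (S.rho w a) = S.fq w O (S.rho w b) ∨ S.Qs w u q a b := by
  rcases uk_cor hm hn nd h.one k with k | ⟨u', hs, k | k⟩ | ⟨y, hy, h4, k | k⟩
  · rw [h.fq hu] at k
    exact Or.inl k
  · exact Or.inr (Or.inl k)
  · right; right
    rw [h.fq hu] at k
    have := Sk.inr.1 (fq_inr.1 k)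
    have e : u = u' := congrArg Subtype.val this
    rw [e]
    exact hs
  · exact Or.inr (Or.inl k)
  · exfalso
    rw [h.fq hu] at k
    have h' := Fld.of_fq hu hy k.symm
    exact h.no_opp hO hK h' h4 (uk_nb h.one (Or.symm h4.E1)) (uk_nb h.one h4.E2)

/-- poles of folded hubs are no pages of folded hubs -/
theorem Fld.pole_nh (hO : O.Nf) (hH : (S.kf hc w O).HairF) {u : S.X} (hu : S.D.G.Adj w u)
    (hJ : ∀ q, Fld w O u q → ∀ a b, S.K.ar q a → S.K.ar q b →
      (S.kf hc w O).LJ (S.fq w O (Sum.inr ⟨u, hu⟩)) (S.fq w O (S.rho w a)) (S.fq w O (S.rho w b)))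
    {s y : V} (h : Fld w O u s) (e : S.K.ar s y) : ¬ Hr w O u y := by
  intro hr
  have hcy := (h.1.1.two e).2
  obtain ⟨b, hb, hne⟩ : ∃ b, S.K.ar s b ∧ b ≠ y := by
    obtain ⟨-, a, b, hne, ha, hb, -⟩ := h.1.1
    by_cases e1 : a = y
    · exact ⟨b, hb, fun e2 => hne (by rw [e1, e2])⟩
    · exact ⟨a, ha, e1⟩
  have hcb := (h.1.1.two hb).2
  have hne' : S.fq w O (S.rho w y) ≠ S.fq w O (S.rho w b) := fun k =>
    hne (hr.alone' hO hcy hu hcb.1 k.symm)
  obtain ⟨c, -, hc'⟩ := GX.LJ.corner (hJ s h y b e hb) hne'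
  exact hr.not_ec hH hcy hu (GX.EC_iff.2 ⟨c, hc'⟩).symm

/-- THE LINK OF `T0` WITHOUT ITS ISOLATED NODES IS CONNECTED -/
theorem kf_clc_t (hm : (S.k0 hc w).Min) (hn : S.SqN w O) (hO : O.Nf) (hK : S.KIn w) (nd : S.P.ND)
    (hl : ∀ q, S.K.LC q) (hH : (S.kf hc w O).HairF) {u : S.X} (hu : S.D.G.Adj w u)
    (hJ : ∀ q, Fld w O u q → ∀ a b, S.K.ar q a → S.K.ar q b →
      (S.kf hc w O).LJ (S.fq w O (Sum.inr ⟨u, hu⟩)) (S.fq w O (S.rho w a)) (S.fq w O (S.rho w b))) :
    (S.kf hc w O).CLC (S.fq w O (Sum.inr ⟨u, hu⟩)) := by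
  set T0 := S.fq w O (Sum.inr ⟨u, hu⟩) with hT0
  -- every node in a cell is joined to a crossing vertex in a cell
  have ec_of : ∀ {d d' : S.Q w O}, (S.kf hc w O).EC T0 d → (S.kf hc w O).LJ T0 d d' →
      (S.kf hc w O).EC T0 d' := by
    intro d d' h1 h2
    by_cases e : d' = d
    · rw [e]
      exact h1
    · obtain ⟨c, -, hc'⟩ := GX.LJ.corner (Relation.EqvGen.symm _ _ h2) e
      exact (GX.EC_iff.2 ⟨c, hc'⟩).symm
  have s1 : ∀ d, (S.kf hc w O).EC T0 d → ∃ x, S.Cs w u x ∧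
      (S.kf hc w O).EC T0 (S.fq w O (S.rho w x)) ∧ (S.kf hc w O).LJ T0 d (S.fq w O (S.rho w x)) := by
    intro d hd
    have hsk : ∀ d', ¬ S.arQ w O T0 d' := fun d' k => not_arQ_inr (S := S) k
    have har : S.arQ w O d T0 := hd.E.resolve_left (hsk d)
    obtain ⟨A, Y, e, rfl, hY⟩ := (S.kfQ hc w O).e2 d T0 har
    have hkY := fq_inr.1 hY
    rcases hkY with rfl | ⟨q, rfl, hq⟩
    · obtain ⟨x, c, rfl⟩ : ∃ x, S.Cs w u x ∧ A = S.rho w x := by
        rcases e with e | e
        · cases e with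
          | up x _ c => exact ⟨x.1, ⟨x.2, c⟩, (S.rho_near x.2).symm⟩
        · cases e
      exact ⟨x, c, hd, Relation.EqvGen.refl _⟩
    · have hF : Fld w O u q.1 := hq
      have hnb : ∃ a, S.K.E q.1 a ∧ A = S.rho w a := by
        rcases e with e | e
        · cases e with
          | hor x _ k => exact ⟨x.1, Or.inr k, (S.rho_near x.2).symm⟩
        · cases e with
          | hor _ x k => exact ⟨x.1, Or.inl k, (S.rho_near x.2).symm⟩
          | up _ v k => exact absurd k (hF.no_cs v.2)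
      obtain ⟨a, hqa, rfl⟩ := hnb
      obtain ⟨-, p, p', -, hp, -, -⟩ := hF.1.1
      let P : V → Prop := fun n => (S.kf hc w O).LJ T0 (S.fq w O (S.rho w a)) (S.fq w O (S.rho w n)) ∨
        ∃ x, S.Cs w u x ∧ (S.kf hc w O).EC T0 (S.fq w O (S.rho w x)) ∧
          (S.kf hc w O).LJ T0 (S.fq w O (S.rho w a)) (S.fq w O (S.rho w x))
      have stp : ∀ n m, S.K.Cor n q.1 m → P n → P m := by
        intro n m k hP
        rcases hP with hP | hP
        swap
        · exact Or.inr hP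
        rcases hF.cor hm hn hO hK nd hu k with k1 | k1 | k1
        · exact Or.inl (hP.trans _ _ _ (Relation.EqvGen.rel _ _ k1))
        · left
          rw [← k1]
          exact hP
        · exact Or.inr ⟨n, k1.l, ec_of hd hP, hP⟩
      have all : ∀ n m, S.K.LJ q.1 n m → (P n ↔ P m) := by
        intro n m k
        induction k with
        | rel n m k => exact ⟨stp n m k, stp m n k.symm⟩
        | refl n => exact Iff.rfl
        | symm n m _ ih => exact ih.symm
        | trans n m k _ _ i1 i2 => exact i1.trans i2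
      rcases (all a p (hl q.1 a p hqa (Or.inl hp))).1 (Or.inl (Relation.EqvGen.refl _)) with k | k
      · exact ⟨p, (hF.1.1.two hp).2, ec_of hd k, k⟩
      · exact k
  -- the wall
  let R : V → S.Q w O → Prop := fun y d => (¬ Hr w O u y ∧ d = S.fq w O (S.rho w y)) ∨
    ∃ q p, Fld w O u q ∧ S.K.ar y q ∧ S.K.ar q p ∧ d = S.fq w O (S.rho w p)
  have Rne : ∀ y, ∃ d, R y d := by
    intro y
    by_cases h : Hr w O u y
    · obtain ⟨q, hq, e⟩ := h
      obtain ⟨-, p, p', -, hp, -, -⟩ := hq.1.1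
      exact ⟨_, Or.inr ⟨q, p, hq, e, hp, rfl⟩⟩
    · exact ⟨_, Or.inl ⟨h, rfl⟩⟩
  have Rself : ∀ y, S.Cs w u y → ∀ d d', R y d → R y d' → (S.kf hc w O).LJ T0 d d' := by
    rintro y hy d d' (⟨h1, rfl⟩ | ⟨q, p, h1, h2, h3, rfl⟩) (⟨k1, rfl⟩ | ⟨q', p', k1, k2, k3, rfl⟩)
    · exact Relation.EqvGen.refl _
    · exact absurd ⟨q', k1, k2⟩ h1
    · exact absurd ⟨q, h1, h2⟩ k1
    · obtain rfl : q = q' := ar_ar_eq hy.1 h2 h1.mem k2 k1.mem hu hy.2
      exact hJ q h1 p p' h3 k3
  have Rstep : ∀ y y', S.PW w u y y' → ∀ d d', R y d → R y' d' → (S.kf hc w O).LJ T0 d d' := by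
    intro y y' hp d d' hd hd'
    by_cases hyy : y = y'
    · subst hyy
      exact Rself y hp.l d d' hd hd'
    rcases pw_cases hm hn hp hyy with k | k | ⟨s, hs, k⟩
    · have e1 : (S.kf hc w O).EC T0 (S.fq w O (S.rho w y)) := (GX.EC_iff.2 ⟨_, k⟩).symm
      have e2 : (S.kf hc w O).EC T0 (S.fq w O (S.rho w y')) := (GX.EC_iff.2 ⟨_, k.symm⟩).symm
      rcases hd with ⟨h1, rfl⟩ | ⟨q, p, h1, h2, h3, rfl⟩
      · rcases hd' with ⟨k1, rfl⟩ | ⟨q', p', k1, k2, k3, rfl⟩
        · exact Relation.EqvGen.rel _ _ k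
        · exact absurd e2 (Hr.not_ec hH ⟨q', k1, k2⟩ hp.r hu)
      · exact absurd e1 (Hr.not_ec hH ⟨q, h1, h2⟩ hp.l hu)
    · by_cases h1 : Hr w O u y
      · exact absurd (h1.alone' hO hp.l hu hp.r.1 k.symm).symm hyy
      by_cases h2 : Hr w O u y'
      · exact absurd (h2.alone' hO hp.r hu hp.l.1 k) hyy
      rcases hd with ⟨-, rfl⟩ | ⟨q, p, k1, k2, k3, rfl⟩
      swap
      · exact absurd ⟨q, k1, k2⟩ h1
      rcases hd' with ⟨-, rfl⟩ | ⟨q, p, k1, k2, k3, rfl⟩
      swap
      · exact absurd ⟨q, k1, k2⟩ h2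
      rw [k]
      exact Relation.EqvGen.refl _
    · have hsw : w ∈ S.J s := by
        by_contra hsw
        have hb := S.dir_bey hsw
        rw [S.rho_far hsw] at k
        have := Sk.inr.1 (fq_inr.1 k)
        have e : S.dir w s = u := congrArg Subtype.val this
        rw [e] at hb
        obtain ⟨p, hp'⟩ := S.js.ne s
        exact bey_not (hs.near hp') (hb hp')
      have hF : Fld w O u s := Fld.of_fq hu hsw k
      have key : ∀ y d, S.Cs w u y → S.K.E y s → R y d →
          ∃ p, S.K.ar s p ∧ d = S.fq w O (S.rho w p) := by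
        rintro y d hy e (⟨h1, rfl⟩ | ⟨q, p, h1, h2, h3, rfl⟩)
        · rcases e with e | e
          · exact absurd ⟨s, hF, e⟩ h1
          · exact ⟨y, e, rfl⟩
        · rcases e with e | e
          · obtain rfl : s = q := ar_ar_eq hy.1 e hsw h2 h1.mem hu hy.2
            exact ⟨p, h3, rfl⟩
          · exact absurd ⟨q, h1, h2⟩ (hF.pole_nh hO hH hu hJ e)
      obtain ⟨p, hp1, rfl⟩ := key y d hp.l hs.E1 hd
      obtain ⟨p', hp2, rfl⟩ := key y' d' hp.r hs.E2 hd'
      exact hJ s hF p p' hp1 hp2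
  have cr : ∀ x y, Relation.EqvGen (S.PW w u) x y → (S.Cs w u x ↔ S.Cs w u y) := by
    intro x y k
    induction k with
    | rel x y k => exact ⟨fun _ => k.r, fun _ => k.l⟩
    | refl x => exact Iff.rfl
    | symm x y _ ih => exact ih.symm
    | trans x y z _ _ i1 i2 => exact i1.trans i2
  have Rall : ∀ x y, Relation.EqvGen (S.PW w u) x y → S.Cs w u x → ∀ d d', R x d → R y d' →
      (S.kf hc w O).LJ T0 d d' := by
    intro x y k
    induction k with
    | rel x y k => exact fun _ => Rstep x y k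
    | refl x => exact fun c => Rself x c
    | symm x y k ih => exact fun c d d' hd hd' => Relation.EqvGen.symm _ _ (ih ((cr _ _ k).2 c) d' d hd' hd)
    | trans x y z k k' i1 i2 =>
      intro c d d' hd hd'
      obtain ⟨d1, hd1⟩ := Rne y
      exact (i1 c d d1 hd hd1).trans _ _ _ (i2 ((cr _ _ k).1 c) d1 d' hd1 hd')
  have s2 : ∀ x, S.Cs w u x → (S.kf hc w O).EC T0 (S.fq w O (S.rho w x)) →
      R x (S.fq w O (S.rho w x)) := by
    intro x hx he
    exact Or.inl ⟨fun h => h.not_ec hH hx hu he, rfl⟩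
  intro d d' hd hd'
  obtain ⟨x, c1, e1, j1⟩ := s1 d hd
  obtain ⟨x', c2, e2, j2⟩ := s1 d' hd'
  exact (j1.trans _ _ _ (Rall x x' (hc.wall w u hu x x' c1 c2) c1 _ _ (s2 x c1 e1)
    (s2 x' c2 e2))).trans _ _ _ (Relation.EqvGen.symm _ _ j2)

/-- THE POLES OF A FOLDED HUB ARE JOINED -/
theorem kf_join (hm : (S.k0 hc w).Min) (hn : S.SqN w O) (hO : O.Nf) (hK : S.KIn w) (nd : S.P.ND)
    (hl : ∀ q, S.K.LC q) (hH : (S.kf hc w O).HairF) {u : S.X} (hu : S.D.G.Adj w u) {q : V}
    (hF : Fld w O u q) (h0 : S.K.Cut0 q)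
    (nbl : ∃ m n, S.K.Cor m q n ∧ m ≠ n ∧ ¬ S.Qs w u q m n) {a b : V} (ha : S.K.ar q a)
    (hb : S.K.ar q b) :
    (S.kf hc w O).LJ (S.fq w O (Sum.inr ⟨u, hu⟩)) (S.fq w O (S.rho w a)) (S.fq w O (S.rho w b)) := by
  by_cases hne : a = b
  · rw [hne]
    exact Relation.EqvGen.refl _
  have hJq := hF.one
  have ca := (hF.1.1.two ha).2
  have cb := (hF.1.1.two hb).2
  have two : ∀ p, S.K.ar q p → p = a ∨ p = b := fun p hp => GX.Sft.cases ha hb hne hp
  let N : V → V → Prop := fun m n => S.K.Cor m q n ∧ ¬ S.Qs w u q m n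
  have Nsymm : ∀ m n, N m n → N n m := fun m n h => ⟨h.1.symm, fun k => h.2 k.symm'⟩
  have Nkf : ∀ m n, N m n →
      (S.kf hc w O).LJ (S.fq w O (Sum.inr ⟨u, hu⟩)) (S.fq w O (S.rho w m))
        (S.fq w O (S.rho w n)) := by
    intro m n h
    rcases hF.cor hm hn hO hK nd hu h.1 with k | k | k
    · exact Relation.EqvGen.rel _ _ k
    · rw [k]
      exact Relation.EqvGen.refl _
    · exact absurd k h.2
  have Nkf' : ∀ m n, Relation.EqvGen N m n →
      (S.kf hc w O).LJ (S.fq w O (Sum.inr ⟨u, hu⟩)) (S.fq w O (S.rho w m))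
        (S.fq w O (S.rho w n)) := by
    intro m n h
    induction h with
    | rel m n h => exact Nkf m n h
    | refl m => exact Relation.EqvGen.refl _
    | symm m n _ ih => exact Relation.EqvGen.symm _ _ ih
    | trans m n k _ _ i1 i2 => exact i1.trans _ _ _ i2
  by_contra hcon
  have hab : ¬ Relation.EqvGen N a b := fun k => hcon (Nkf' a b k)
  -- pages over `u` are isolated
  have iso : ∀ x m, S.Cs w u x → S.K.ar x q → N x m → m = x := by
    intro x m hx e h
    have hr : Hr w O u x := ⟨q, hF, e⟩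
    rcases hF.cor hm hn hO hK nd hu h.1 with k | k | k
    · exact absurd (GX.EC_iff.2 ⟨_, k⟩).symm (hr.not_ec hH hx hu)
    · exact hr.alone' hO hx hu (uk_nb hJq h.1.E2) k.symm
    · exact absurd k h.2
  have iso' : ∀ x m, S.Cs w u x → S.K.ar x q → Relation.EqvGen N m x → m = x := by
    intro x m hx e h
    have key : ∀ m n, Relation.EqvGen N m n → (m = x ↔ n = x) := by
      intro m n h
      induction h with
      | rel m n k =>
        constructor
        · intro e1
          rw [e1] at k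
          exact iso x n hx e k
        · intro e1
          rw [e1] at k
          exact iso x m hx e (Nsymm _ _ k)
      | refl m => exact Iff.rfl
      | symm m n _ ih => exact ih.symm
      | trans m n k _ _ i1 i2 => exact i1.trans i2
    exact (key m x h).2 rfl
  -- the stabiliser of `q`
  have gw : ∀ g : H, g • q = q → g • w = w := fun g hg => uk_fw hJq hg
  have gu : ∀ g : H, g • q = q → g • u = u := by
    intro g hg
    have := hF.1.1.smul (w := w) ⟨g, gw g hg⟩
    have h2 : S.Dia w (g • u) (g • q) := this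
    rw [hg] at h2
    exact hF.1.2 _ h2
  have Ng : ∀ g : H, g • q = q → ∀ m n, N m n → N (g • m) (g • n) := by
    intro g hg m n h
    refine ⟨?_, fun k => h.2 ?_⟩
    · have := h.1.smul g
      rwa [hg] at this
    · have hg' : g⁻¹ • q = q := by
        rw [inv_smul_eq_iff]
        exact hg.symm
      have := k.smul (w := w) ⟨g⁻¹, gw _ hg'⟩
      have h2 : S.Qs w (g⁻¹ • u) (g⁻¹ • q) (g⁻¹ • g • m) (g⁻¹ • g • n) := this
      rwa [hg', gu _ hg', inv_smul_smul, inv_smul_smul] at h2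
  have Ng' : ∀ g : H, g • q = q → ∀ m n, Relation.EqvGen N m n →
      Relation.EqvGen N (g • m) (g • n) := by
    intro g hg m n h
    induction h with
    | rel m n h => exact Relation.EqvGen.rel _ _ (Ng g hg m n h)
    | refl m => exact Relation.EqvGen.refl _
    | symm m n _ ih => exact Relation.EqvGen.symm _ _ ih
    | trans m n k _ _ i1 i2 => exact i1.trans _ _ _ i2
  -- no corner between a pole and a page of its class
  have cut : ∀ a b, S.K.ar q a → S.K.ar q b → a ≠ b → ¬ Relation.EqvGen N a b → ∀ m, N a m → m = a := by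
    intro a b ha hb hne hab m h
    have ca := (hF.1.1.two ha).2
    by_contra hma
    rcases h.1.E2 with e | e
    · rcases GX.Sft.cases ha hb hne e with k | k
      · exact hma k
      · rw [k] at h
        exact hab (Relation.EqvGen.rel _ _ h)
    · refine h0 a b {n | S.K.ar n q ∧ Relation.EqvGen N a n} ha hb hne (fun n hn' => hn'.1) ?_ ?_ ?_
        m ⟨e, Relation.EqvGen.rel _ _ h⟩ h.1
      · rintro g hg n ⟨h1, h2⟩ ⟨h3, h4⟩
        have h5 := S.K.ar_smul g _ _ ha
        rw [hg] at h5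
        rcases GX.Sft.cases ha hb hne h5 with k | k
        · exact k
        · exfalso
          have h6 := Ng' g hg _ _ h2
          rw [k] at h6
          exact hab (h4.trans _ _ _ (Relation.EqvGen.symm _ _ h6))
      · rintro g hg hga n ⟨h1, h2⟩
        have h5 := S.K.ar_smul g _ _ h1
        have h6 := Ng' g hg _ _ h2
        rw [hg] at h5
        rw [hga] at h6
        exact ⟨h5, h6⟩
      · rintro n ⟨h1, h2⟩ m' h3
        by_cases h4 : S.Qs w u q n m'
        · exfalso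
          have := iso' n a h4.l h1 h2
          rw [← this] at h1
          exact absurd (S.K.ar_rk _ _ h1) (not_lt.2 (S.K.ar_rk _ _ ha).le)
        · have h5 : Relation.EqvGen N a m' := h2.trans _ _ _ (Relation.EqvGen.rel _ _ ⟨h3, h4⟩)
          rcases h3.E2 with e' | e'
          · rcases GX.Sft.cases ha hb hne e' with k | k
            · exact Or.inl k
            · rw [k] at h5
              exact absurd h5 hab
          · exact Or.inr ⟨e', h5⟩
  -- everything at `q` crosses `u` and is isolated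
  let Q : V → Prop := fun m => S.K.E q m ∧ S.Cs w u m
  have Qiso : ∀ m n, Q m → N m n → n = m := by
    rintro m n ⟨e, c⟩ h
    rcases e with e | e
    · rcases two m e with k | k
      · rw [k] at h ⊢
        exact cut a b ha hb hne hab n h
      · rw [k] at h ⊢
        exact cut b a hb ha (Ne.symm hne) (fun k => hab k.symm) n h
    · exact iso m n c e h
  have Qstep : ∀ m n, S.K.Cor m q n → Q m → Q n := by
    intro m n h hQ
    by_cases k : S.Qs w u q m n
    · exact ⟨h.E2, k.r⟩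
    · rw [Qiso m n hQ ⟨h, k⟩]
      exact hQ
  have Qall : ∀ m n, S.K.LJ q m n → (Q m ↔ Q n) := by
    intro m n k
    induction k with
    | rel n m k => exact ⟨Qstep n m k, Qstep m n k.symm⟩
    | refl n => exact Iff.rfl
    | symm n m _ ih => exact ih.symm
    | trans n m k _ _ i1 i2 => exact i1.trans i2
  obtain ⟨m, n, h1, h2, h3⟩ := nbl
  have hQm : Q m := (Qall a m (hl q a m (Or.inl ha) h1.symm.E2)).1 ⟨Or.inl ha, ca⟩
  exact h2 (Qiso m n hQm ⟨h1, h3⟩).symm

end SyQ

end Pool.Agent.DI
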