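import Pool.Agent.DI.CutM
import Pool.Agent.DI.BndE

/-!
# DI/CutT2: the number of the tops of a full part

`Full.oc_tops`: a full part has the same number of orbits of tops. `thin_tops`: thinning does not change the
tops.
-/

namespace Pool.Agent.DI

open MulAction
open Pool.Agent.SAF (InC SA orbs FinOrb oc)

namespace P45

variable {H V : Type} [Group H] [MulAction H V] {K : GX H V} (P : P45 K)

theorem thin_tops : P.thinP.tops = P.tops := by
  ext T
  constructor
  · rintro ⟨a, b, y, h⟩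
    exact ⟨a, b, y, P.thin_Top.1 h⟩
  · rintro ⟨a, b, y, h⟩
    exact ⟨a, b, y, P.thin_Top.2 h⟩

theorem vc_of_tops {T : V} (h : T ∈ P.tops) : K.VC T := by
  obtain ⟨a, b, y, k⟩ := h
  exact ⟨a, (GX.EC_iff.2 ⟨_, P.cor_iff.2 (Or.inr ⟨_, k.1⟩)⟩).symm⟩

end P45

namespace SubGX.Full

variable {H' V' H V : Type} [Group H'] [MulAction H' V'] [Group H] [MulAction H V]
  {K' : GX H' V'} {K : GX H V} {S : SubGX K' K} (Fu : S.Full) (P' : P45 K') (P : P45 K)

include Fu in
theorem tops_iff (v : V') : v ∈ P'.tops ↔ S.f v ∈ P.tops := by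
  constructor
  · rintro ⟨a, b, y, h⟩
    exact ⟨_, _, _, (S.top_iff P' P).1 h⟩
  · rintro ⟨a, b, y, h⟩
    obtain ⟨a', rfl, -⟩ := Fu.out h.2.1
    obtain ⟨b', y', -, -, k⟩ := S.top_back P' P h
    exact ⟨_, _, _, k⟩

include Fu in
/-- THE NUMBER OF THE TOPS -/
theorem oc_tops : oc H' P'.tops = oc H P.tops := by
  rw [Fu.oc_eq (Q := P.tops) (fun h v hv => by
    obtain ⟨a, b, y, k⟩ := hv
    exact ⟨_, _, _, k.smul h⟩) (Fu.tops_iff P' P)]
  congr 1
  ext v
  exact ⟨fun h => h.1, fun h => ⟨h, P.vc_of_tops h⟩⟩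

end SubGX.Full

end Pool.Agent.DI
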