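import Pool.Agent.DI.LightS

/-!
# DI/PoJ: the two poles of a vertex are joined

`P45.SqT.pole_join`: in a minimal complex with squares and `1 ≤ X`, if the edge from `v` to a pole `a` lies in
a cell then `a` and the other pole `b` are joined in the link of `v`. Proof: in the fold of all tops of rank
`> rk v` they are joined by corners of pentagons (`cut0`, `SqT.pass`); `PJ`: the pull back of this
path to the link of `v`.
-/

namespace Pool.Agent.DI

open MulAction

namespace P45

variable {H V : Type} [Group H] [MulAction H V] {K : GX H V} {P : P45 K}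

/-- the flags over `v` which are joined to `a` -/
inductive PJ (P : P45 K) (v a : V) : V → V → Prop
  | base (n : V) : K.E v n → K.LJ v a n → PJ P v a v n
  | up (T s s' y n : V) : P.Top T s s' y → K.rk v < K.rk T → PJ P v a y s → K.E T n →
      K.LJ T s n → PJ P v a T n

theorem PJ.at {v a n : V} (h : PJ P v a v n) : K.LJ v a n := by
  cases h with
  | base _ h1 h2 => exact h2
  | up _ s s' y _ h1 h2 => exact absurd h2 (lt_irrefl _)

theorem PJ.cor {v a c n m : V} (h : PJ P v a c n) (k : K.Cor n c m) : PJ P v a c m := by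
  cases h with
  | base _ h1 h2 => exact PJ.base _ k.E2 (h2.trans _ _ _ (Relation.EqvGen.rel _ _ k))
  | up _ s s' y _ h1 h2 h3 h4 h5 =>
    exact PJ.up _ s s' y _ h1 h2 h3 k.E2 (h5.trans _ _ _ (Relation.EqvGen.rel _ _ k))

theorem Top.cor_y {T s s' y : V} (h : P.Top T s s' y) : K.Cor s y s' :=
  P.cor_iff.2 (Or.inr ⟨_, h.1.rot.rot.symm⟩)

theorem Top.cor_T {T s s' y : V} (h : P.Top T s s' y) : K.Cor s T s' :=
  P.cor_iff.2 (Or.inr ⟨_, h.1⟩)

theorem Top.cor_s {T s s' y : V} (h : P.Top T s s' y) : K.Cor T s y :=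
  P.cor_iff.2 (Or.inr ⟨_, h.1.rot.rot.rot.symm⟩)

namespace SqT

variable (hT : P.SqT)

include hT

theorem pj_iff {v a T s s' y : V} (t : P.Top T s s' y) (hr : K.rk v < K.rk T) :
    PJ P v a T s ↔ PJ P v a y s := by
  constructor
  · intro h
    cases h with
    | base _ h1 h2 => exact absurd hr (lt_irrefl _)
    | up _ s1 s1' y1 _ h1 h2 h3 h4 h5 =>
      have e := hT.partner h1 t
      subst e
      rcases hT.sides t h1.2.1 with e | e
      · rw [← e]
        exact h3
      · rw [e] at h3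
        exact h3.cor t.symm'.cor_y
  · intro h
    exact PJ.up _ s s' y _ t hr h (Or.inl t.2.1) (Relation.EqvGen.refl _)

/-- flags over `v` are moved down to a flag with an unfolded leg -/
theorem pj_norm {v a : V} : ∀ (k : ℕ) (c n : V), K.rk c + K.rk n ≤ k → K.E c n →
    (hT.fr (K.rk v)).f c = (hT.fr (K.rk v)).f v →
    ∃ c', (hT.fr (K.rk v)).f c' = (hT.fr (K.rk v)).f v ∧ K.E c' ((hT.fr (K.rk v)).f n).1 ∧
      (PJ P v a c n ↔ PJ P v a c' ((hT.fr (K.rk v)).f n).1) ∧
      (c' = v ∨ (K.ar ((hT.fr (K.rk v)).f n).1 c' ∧ K.rk v < K.rk c')) := by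
  intro k
  induction k with
  | zero =>
    intro c n h1 h2
    rcases h2 with h | h
    · have := K.ar_rk _ _ h
      omega
    · have := K.ar_rk _ _ h
      omega
  | succ k ih =>
    intro c n h1 h2 h3
    have hc : c = v ∨ ((∃ s s' y, P.Top c s s' y) ∧ K.rk v < K.rk c) := by
      by_cases hz : (hT.fr (K.rk v)).Z c
      · exact Or.inr hz
      · left
        have e := congrArg Subtype.val h3
        rw [(hT.fr (K.rk v)).f_not hz, show ((hT.fr (K.rk v)).f v).1 = v from hT.fr_not le_rfl] at e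
        exact e
    by_cases hn : (hT.fr (K.rk v)).Z n
    · obtain ⟨⟨s, s', y, t⟩, hr⟩ := hn
      rcases h2 with h2 | h2
      · -- `c → n`
        have hcn := K.ar_rk _ _ h2
        rcases hc with rfl | ⟨⟨s1, s1', y1, t1⟩, hr1⟩
        · omega
        · have key : ∃ s2', P.Top c n s2' y1 := by
            rcases hT.sides t1 h2 with e | e
            · rw [e]; exact ⟨_, t1⟩
            · rw [e]; exact ⟨_, t1.symm'⟩
          obtain ⟨s2', t2⟩ := key
          have h4 := hT.rk_lt t2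
          have h5 := hT.fr_f t2 hr1
          obtain ⟨c', k1, k2, k3, k4⟩ := ih y1 n (by omega) t2.Ea.symm (h5.symm.trans h3)
          exact ⟨c', k1, k2, (hT.pj_iff t2 hr1).trans k3, k4⟩
      · -- `n → c`: a side of the top `n`
        have key : ∃ s2', P.Top n c s2' y := by
          rcases hT.sides t h2 with e | e
          · rw [e]; exact ⟨_, t⟩
          · rw [e]; exact ⟨_, t.symm'⟩
        obtain ⟨s2', t2⟩ := key
        have h4 := hT.rk_lt t2
        have h5 := hT.fr_f t2 hr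
        obtain ⟨c', k1, k2, k3, k4⟩ := ih c y (by omega) t2.Ea h3
        rw [← h5] at k2 k3 k4
        exact ⟨c', k1, k2, (Iff.intro (fun h => h.cor t2.cor_s) (fun h => h.cor t2.cor_s.symm)).trans
          k3, k4⟩
    · have en : ((hT.fr (K.rk v)).f n).1 = n := by rw [(hT.fr (K.rk v)).f_not hn]
      rw [en]
      rcases hc with rfl | ⟨⟨s1, s1', y1, t1⟩, hr1⟩
      · exact ⟨c, rfl, h2, Iff.rfl, Or.inl rfl⟩
      · rcases h2 with h2 | h2
        · have key : ∃ s2', P.Top c n s2' y1 := by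
            rcases hT.sides t1 h2 with e | e
            · rw [e]; exact ⟨_, t1⟩
            · rw [e]; exact ⟨_, t1.symm'⟩
          obtain ⟨s2', t2⟩ := key
          have h4 := hT.rk_lt t2
          have h5 := hT.fr_f t2 hr1
          obtain ⟨c', k1, k2, k3, k4⟩ := ih y1 n (by omega) t2.Ea.symm (h5.symm.trans h3)
          rw [en] at k2 k3 k4
          exact ⟨c', k1, k2, (hT.pj_iff t2 hr1).trans k3, k4⟩
        · exact ⟨c, h3, Or.inr h2, Iff.rfl, Or.inr ⟨h2, hr1⟩⟩

/-- flags with the same image in a pentagon -/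
theorem pj_cons (hm : K.Min) {v a c n c1 n1 : V} (e : K.E c n) (e1 : K.E c1 n1)
    (h : (hT.fr (K.rk v)).f c = (hT.fr (K.rk v)).f v)
    (h1 : (hT.fr (K.rk v)).f c1 = (hT.fr (K.rk v)).f v)
    (hn : (hT.fr (K.rk v)).f n = (hT.fr (K.rk v)).f n1)
    (hp : ∃ i, ((hT.fr (K.rk v)).gx P).Long i ∧
      ((hT.fr (K.rk v)).gx P).Pass i ((hT.fr (K.rk v)).f n) ((hT.fr (K.rk v)).f v)) :
    PJ P v a c n ↔ PJ P v a c1 n1 := by
  obtain ⟨c', k1, k2, k3, k4⟩ := hT.pj_norm (a := a) _ c n le_rfl e h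
  obtain ⟨c1', l1, l2, l3, l4⟩ := hT.pj_norm (a := a) _ c1 n1 le_rfl e1 h1
  rw [← hn] at l2 l3 l4
  have main : c' = c1' := by
    by_contra hne
    obtain ⟨i, hi, hp⟩ := hp
    have hv : ((hT.fr (K.rk v)).f v).1 = v := hT.fr_not le_rfl
    -- both are poles
    have pole : ∀ {d d' : V}, K.E d ((hT.fr (K.rk v)).f n).1 → (d = v ∨
        (K.ar ((hT.fr (K.rk v)).f n).1 d ∧ K.rk v < K.rk d)) → (d' = v ∨
        (K.ar ((hT.fr (K.rk v)).f n).1 d' ∧ K.rk v < K.rk d')) → d ≠ d' →
        K.ar ((hT.fr (K.rk v)).f n).1 d := by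
      rintro d d' g1 (rfl | ⟨g2, g3⟩) g4 g5
      · rcases g1 with g1 | g1
        · rcases g4 with rfl | ⟨g4, g6⟩
          · exact absurd rfl g5
          · have r1 := K.ar_rk _ _ g1
            have r2 := K.ar_rk _ _ g4
            omega
        · exact g1
      · exact g2
    have p1 := pole k2 k4 l4 hne
    have p2 := pole l2 l4 k4 (Ne.symm hne)
    refine ((hT.fr (K.rk v)).gx_min P hm).hair (x := (hT.fr (K.rk v)).f n)
      (c := (hT.fr (K.rk v)).f v) ⟨c', p1, k1⟩ ?_ hi hp
    rintro d ⟨d', hd, rfl⟩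
    rcases GX.Sft.cases p1 p2 hne hd with e | e
    · rw [e]
      exact k1
    · rw [e]
      exact l1
  rw [k3, l3, main]

/-- the pull back of a path of corners of pentagons -/
theorem pj_path (hm : K.Min) {v a : V} {x x' : (hT.fr (K.rk v)).W}
    (h : Relation.EqvGen (((hT.fr (K.rk v)).p45 P).RC ((hT.fr (K.rk v)).f v)) x x') :
    (∀ c n, (hT.fr (K.rk v)).f c = (hT.fr (K.rk v)).f v → K.E c n → (hT.fr (K.rk v)).f n = x →
      PJ P v a c n) ↔
    (∀ c n, (hT.fr (K.rk v)).f c = (hT.fr (K.rk v)).f v → K.E c n → (hT.fr (K.rk v)).f n = x' →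
      PJ P v a c n) := by
  have one : ∀ {x x'}, ((hT.fr (K.rk v)).p45 P).RC ((hT.fr (K.rk v)).f v) x x' →
      (∀ c n, (hT.fr (K.rk v)).f c = (hT.fr (K.rk v)).f v → K.E c n → (hT.fr (K.rk v)).f n = x →
        PJ P v a c n) → ∀ c n, (hT.fr (K.rk v)).f c = (hT.fr (K.rk v)).f v → K.E c n →
        (hT.fr (K.rk v)).f n = x' → PJ P v a c n := by
    rintro x x' ⟨y, z, k⟩ hx c n h1 h2 h3
    obtain ⟨i, hi, hp⟩ := k.symm.pass
    obtain ⟨x0, q0, z0, y0, w0, k1, rfl, k2, rfl, -, -⟩ := (hT.fr (K.rk v)).h_qn_back k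
    have k3 := hx q0 x0 k2 k1.E1.symm rfl
    have k4 := k3.cor (P.cor_iff.2 (Or.inl ⟨_, _, k1⟩))
    exact (hT.pj_cons hm k1.E2 h2 k2 h1 h3.symm ⟨i, hi, hp⟩).1 k4
  induction h with
  | rel x y k => exact ⟨one k, one k.symm⟩
  | refl x => exact Iff.rfl
  | symm x y _ ih => exact ih.symm
  | trans x y z _ _ i1 i2 => exact i1.trans i2

/-- THE TWO POLES OF A VERTEX ARE JOINED -/
theorem pole_join (hm : K.Min) (hx : ∀ p ∈ P.TA, 1 ≤ P.X p.1 p.2) {v a b : V} (va : K.ar v a)
    (vb : K.ar v b) (ab : a ≠ b) (he : K.EC v a) : K.LJ v a b := by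
  by_cases htop : ∃ s s' y, P.Top v s s' y
  · obtain ⟨s, s', y, t⟩ := htop
    have k := t.cor_T
    rcases hT.sides t va with e | e <;> rcases hT.sides t vb with e' | e'
    · exact absurd (e.trans e'.symm) ab
    · rw [e, e']
      exact Relation.EqvGen.rel _ _ k
    · rw [e, e']
      exact Relation.EqvGen.rel _ _ k.symm
    · exact absurd (e.trans e'.symm) ab
  push Not at htop
  set F := hT.fr (K.rk v) with hF
  have ev : (F.f v).1 = v := hT.fr_not le_rfl
  have ea : (F.f a).1 = a := hT.fr_not (K.ar_rk _ _ va).le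
  have eb : (F.f b).1 = b := hT.fr_not (K.ar_rk _ _ vb).le
  have hlow : ∀ {u : V}, K.rk u < K.rk v → F.f u ≠ F.f v := by
    intro u hu e
    have e' := congrArg Subtype.val e
    rw [ev, show (F.f u).1 = u from hT.fr_not hu.le] at e'
    rw [e'] at hu
    exact lt_irrefl _ hu
  have htp : ∀ {T' a' b' y' : V}, P.Top T' a' b' y' → F.f T' ≠ F.f y' → K.rk T' ≤ K.rk v := by
    intro T' a' b' y' k hne
    by_contra hlt
    exact hne (hT.fr_f k (not_le.1 hlt))
  have hj : Relation.EqvGen ((F.p45 P).RC (F.f v)) (F.f a) (F.f b) := by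
    refine cut0 (P := F.p45 P) (F.gx_min P hm) (fun j hj => j.2 hj)
      (⟨a, by rw [ev]; exact va, rfl⟩) (⟨b, by rw [ev]; exact vb, rfl⟩) ?_ ?_
      (hT.pass hx va (fun a b y t => htop a b y t) he)
    · intro e
      have e' := congrArg Subtype.val e
      rw [ea, eb] at e'
      exact ab e'
    · intro x c d hq
      obtain ⟨x', v', y', z', hq', rfl, ev', rfl, rfl, n1, n2⟩ := F.h_q4_back hq
      rcases hT.q4 hq' with t | t | t | t
      · have h1 := htp t n1
        exact absurd ev' (hlow (((K.ar_rk _ _ t.2.2)).trans_le h1))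
      · have h1 := htp t n2
        have e' := congrArg Subtype.val ev'
        rw [ev, show (F.f v').1 = v' from hT.fr_not h1] at e'
        rw [e'] at t
        exact absurd t (htop _ _ _)
      · have h1 := htp t n1.symm
        exact absurd ev' (hlow (((K.ar_rk _ _ t.2.1)).trans_le h1))
      · have h1 := htp t n2.symm
        exact absurd ev' (hlow ((hT.rk_lt t).trans_le h1))
  have h1 := (hT.pj_path hm (a := a) hj).1 (by
    intro c n k1 k2 k3
    obtain ⟨c', l1, l2, l3, l4⟩ := hT.pj_norm (a := a) _ c n le_rfl k2 k1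
    rw [show ((hT.fr (K.rk v)).f n).1 = a from by rw [k3]; exact ea] at l2 l3 l4
    rcases l4 with rfl | ⟨l4, l5⟩
    · exact l3.2 (PJ.base _ (Or.inl va) (Relation.EqvGen.refl _))
    · have r1 := K.ar_rk _ _ l4
      have r2 := K.ar_rk _ _ va
      omega)
  exact (h1 v b rfl (Or.inl vb) rfl).at

end SqT

end P45

end Pool.Agent.DI
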