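import Pool.Agent.DI.CutT
import Pool.Agent.DI.PoJ
import Pool.Agent.DI.FCut

/-!
# DI/CutU: the links of the folded slice, only bare vertices are folded

`S : SyQ H V`, all links of `S.K` are connected, no vertex over `w` is folded to a sink `t_u`
(`∀ u q, ¬ Fld w O u q`). `kf_lc_t`: the link of `t_u` in the folded slice is connected. `kf_lc_one`: the
link of `[q]` with `J q = {w}` is connected. `kf_leaf`: if all `t_u` lie in cells then a class in no
cell has at most one neighbour. `SubGX.full_old`: a part with all cells and connected links is full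
if its finite sinks are sinks of the complex.
-/

namespace Pool.Agent.DI

open MulAction
open Pool.Agent.SAF (InC SA orbs FinOrb oc Decomp oc_lt_of_inj)

namespace SyQ

variable {H V : Type} [Group H] [MulAction H V] {S : SyQ H V}
  {hc : S.Conn} {w : S.X} {O : S.OR w}

theorem fq_near (x : S.NV w) : S.fq w O (Sum.inl x) = S.fq w O (S.rho w x.1) :=
  congrArg (S.fq w O) (S.rho_near x.2).symm

/-- the three kinds of classes over `w` -/
theorem cls3 (c : S.Q w O) : (∃ u : S.EV w, c = S.fq w O (Sum.inr u)) ∨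
    (∃ (u x : _) (hu : S.D.G.Adj w u), S.Cs w u x ∧ c = S.fq w O (S.rho w x) ∧
      S.arQ w O c (S.fq w O (Sum.inr ⟨u, hu⟩))) ∨
    ∃ q, S.J q = {w} ∧ c = S.fq w O (S.rho w q) := by
  obtain ⟨a, rfl⟩ := fq_surj w O c
  rcases a with x | u
  swap
  · exact Or.inl ⟨u, rfl⟩
  right
  by_cases h : ∃ u, S.D.G.Adj w u ∧ u ∈ S.J x.1
  · obtain ⟨u, hu, hx⟩ := h
    have e : S.fq w O (Sum.inl x) = S.fq w O (S.rho w x.1) := fq_near x
    refine Or.inl ⟨u, x.1, hu, ⟨x.2, hx⟩, e, ?_⟩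
    rw [e]
    exact arQ_up hu ⟨x.2, hx⟩
  · push Not at h
    refine Or.inr ⟨x.1, ?_, fq_near _⟩
    ext p
    constructor
    · intro hp
      by_contra hne
      have hne : w ≠ p := fun e => hne e.symm
      obtain ⟨v, hv, e⟩ := Pool.Agent.SAF.exists_next S.D.tree hne
      have hb : p ∈ Pool.Agent.BT.bey S.D.G w v := by
        show S.D.G.dist p w = S.D.G.dist p v + 1
        rw [SimpleGraph.dist_comm, e, SimpleGraph.dist_comm]
      exact h v hv (Pool.Agent.BT.TA.conv_cr S.D.tree (S.js.conv x.1) hv x.2 hp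
        (Pool.Agent.BT.TA.bey_self hv.symm) hb).2
    · intro e
      rw [Set.mem_singleton_iff.1 e]
      exact x.2

section

variable (hm : (S.k0 hc w).Min) (hn : S.SqN w O) (nd : S.P.ND) (hF : ∀ u q, ¬ Fld w O u q)

include hF in
theorem nsk_of {q : V} (hq : w ∈ S.J q) : ∀ u, ¬ S.Sk w O u (S.rho w q) := by
  intro u hu
  rw [S.rho_near hq] at hu
  exact hF _ _ (Sk.inl.1 hu)

include hF in
/-- the class of a vertex over `w` only -/
theorem one_cls {q : V} (hq : S.J q = {w}) {b : S.SV w}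
    (e : S.fq w O b = S.fq w O (S.rho w q)) : b = S.rho w q :=
  uk_cls (uk_one hq) (fun _ hu => uk_ncr hq hu) (nsk_of hF (uk_one hq)) e

include hm hn nd hF in
/-- corners at a vertex over `w` only -/
theorem one_cor {q a b : V} (hq : S.J q = {w}) (h : S.K.Cor a q b) :
    (S.kf hc w O).Cor (S.fq w O (S.rho w a)) (S.fq w O (S.rho w q)) (S.fq w O (S.rho w b)) ∨
      S.fq w O (S.rho w a) = S.fq w O (S.rho w b) := by
  rcases uk_cor hm hn nd hq h with k | ⟨u, hs, k | k⟩ | ⟨y, hy, h4, k | k⟩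
  · exact Or.inl k
  · exact Or.inr k
  · exact absurd (fq_inr.1 k) (nsk_of hF (uk_one hq) _)
  · exact Or.inr k
  · have e := one_cls hF hq k.symm
    rw [S.rho_near hy, S.rho_near (uk_one hq)] at e
    exact absurd (congrArg Subtype.val (Sum.inl.inj e)).symm (uk_q4_ne nd h4).2

include hF in
/-- neighbours of the class of a vertex over `w` only -/
theorem one_nb {q : V} (hq : S.J q = {w}) {d : S.Q w O}
    (h : (S.kf hc w O).E (S.fq w O (S.rho w q)) d) : ∃ x, S.K.E q x ∧ d = S.fq w O (S.rho w x) := by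
  rcases h with h | h
  · obtain ⟨A, Y, e, hA, rfl⟩ := (S.kfQ hc w O).e2 _ _ h
    obtain rfl := one_cls hF hq hA
    rw [S.rho_near (uk_one hq)] at e
    rcases e with e | e
    · cases e with
      | hor x y k => exact ⟨y.1, Or.inl k, fq_near _⟩
      | up x u k => exact absurd k (uk_ncr hq u.2)
    · cases e with
      | hor x y k => exact ⟨x.1, Or.inr k, fq_near _⟩
  · obtain ⟨A, Y, e, rfl, hY⟩ := (S.kfQ hc w O).e2 _ _ h
    obtain rfl := one_cls hF hq hY
    rw [S.rho_near (uk_one hq)] at e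
    rcases e with e | e
    · cases e with
      | hor x y k => exact ⟨x.1, Or.inr k, fq_near _⟩
    · cases e with
      | hor x y k => exact ⟨y.1, Or.inl k, fq_near _⟩
      | up x u k => exact absurd k (uk_ncr hq u.2)

include hm hn nd hF in
theorem one_lj {q a b : V} (hq : S.J q = {w}) (h : S.K.LJ q a b) :
    (S.kf hc w O).LJ (S.fq w O (S.rho w q)) (S.fq w O (S.rho w a)) (S.fq w O (S.rho w b)) := by
  induction h with
  | rel a b k =>
    rcases one_cor hm hn nd hF hq k with h | h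
    · exact Relation.EqvGen.rel _ _ h
    · rw [h]
      exact Relation.EqvGen.refl _
  | refl a => exact Relation.EqvGen.refl _
  | symm a b _ ih => exact Relation.EqvGen.symm _ _ ih
  | trans a b c _ _ i1 i2 => exact i1.trans _ _ _ i2

include hm hn nd hF in
/-- THE LINK OF A VERTEX OVER `w` ONLY -/
theorem kf_lc_one {q : V} (hq : S.J q = {w}) (hl : S.K.LC q) :
    (S.kf hc w O).LC (S.fq w O (S.rho w q)) := by
  intro d d' hd hd'
  obtain ⟨x, hx, rfl⟩ := one_nb hF hq hd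
  obtain ⟨x', hx', rfl⟩ := one_nb hF hq hd'
  exact one_lj hm hn nd hF hq (hl x x' hx hx')

include hm hn nd hF in
/-- a vertex over `w` only in no cell has at most one neighbour -/
theorem one_leaf {q : V} (hq : S.J q = {w}) (hl : S.K.LC q)
    (hv : ¬ (S.kf hc w O).VC (S.fq w O (S.rho w q))) {d d' : S.Q w O}
    (hd : (S.kf hc w O).E (S.fq w O (S.rho w q)) d)
    (hd' : (S.kf hc w O).E (S.fq w O (S.rho w q)) d') : d = d' := by
  by_contra hne
  obtain ⟨c, -, hc'⟩ := GX.LJ.corner (kf_lc_one (hc := hc) hm hn nd hF hq hl d d' hd hd') hne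
  exact hv ⟨_, (GX.EC_iff.2 ⟨c, hc'⟩).symm⟩

/-! ### the sinks of the edges -/

include hF in
theorem t_nb {u : S.X} (hu : S.D.G.Adj w u) {d : S.Q w O}
    (h : (S.kf hc w O).E (S.fq w O (Sum.inr ⟨u, hu⟩)) d) :
    ∃ x, S.Cs w u x ∧ d = S.fq w O (S.rho w x) := by
  have hsk : ∀ d', ¬ S.arQ w O (S.fq w O (Sum.inr ⟨u, hu⟩)) d' := fun d' k => not_arQ_inr (S := S) k
  have har : S.arQ w O d (S.fq w O (Sum.inr ⟨u, hu⟩)) := h.resolve_left (hsk d)
  obtain ⟨A, Y, e, rfl, hY⟩ := (S.kfQ hc w O).e2 d _ har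
  rcases fq_inr.1 hY with rfl | ⟨q, rfl, hq⟩
  · rcases e with e | e
    · cases e with
      | up x _ c => exact ⟨x.1, ⟨x.2, c⟩, fq_near _⟩
    · cases e
  · exact absurd hq (hF _ _)

include hm hn hF in
/-- a step of the wall -/
theorem t_step {u : S.X} (hu : S.D.G.Adj w u) {x x' : V} (h : S.PW w u x x') :
    (S.kf hc w O).Cor (S.fq w O (S.rho w x)) (S.fq w O (Sum.inr ⟨u, hu⟩))
        (S.fq w O (S.rho w x')) ∨ S.fq w O (S.rho w x) = S.fq w O (S.rho w x') := by
  by_cases hne : x = x'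
  · rw [hne]
    exact Or.inr rfl
  rcases pw_cases hm hn h hne with k | k | ⟨s, hs, k⟩
  · exact Or.inl k
  · exact Or.inr k
  · exfalso
    by_cases hsw : w ∈ S.J s
    · exact hF _ _ (Fld.of_fq hu hsw k)
    · have hb := S.dir_bey hsw
      rw [S.rho_far hsw] at k
      have := Sk.inr.1 (fq_inr.1 k)
      have e : S.dir w s = u := congrArg Subtype.val this
      rw [e] at hb
      obtain ⟨p, hp'⟩ := S.js.ne s
      exact Pool.Agent.BT.TA.bey_not (hs.near hp') (hb hp')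

include hm hn hF in
theorem t_lj {u : S.X} (hu : S.D.G.Adj w u) {x x' : V} (h : Relation.EqvGen (S.PW w u) x x') :
    (S.kf hc w O).LJ (S.fq w O (Sum.inr ⟨u, hu⟩)) (S.fq w O (S.rho w x))
      (S.fq w O (S.rho w x')) := by
  induction h with
  | rel a b k =>
    rcases t_step hm hn hF hu k with h | h
    · exact Relation.EqvGen.rel _ _ h
    · rw [h]
      exact Relation.EqvGen.refl _
  | refl a => exact Relation.EqvGen.refl _
  | symm a b _ ih => exact Relation.EqvGen.symm _ _ ih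
  | trans a b c _ _ i1 i2 => exact i1.trans _ _ _ i2

include hm hn hF in
/-- THE LINK OF `t_u` -/
theorem kf_lc_t (u : S.EV w) : (S.kf hc w O).LC (S.fq w O (Sum.inr u)) := by
  obtain ⟨u, hu⟩ := u
  intro d d' hd hd'
  obtain ⟨x, hx, rfl⟩ := t_nb hF hu hd
  obtain ⟨x', hx', rfl⟩ := t_nb hF hu hd'
  exact t_lj hm hn hF hu (hc.wall w u hu x x' hx hx')

include hm hn hF in
/-- crossing classes are in a cell with `t_u` -/
theorem ec_cross {u : S.X} (hu : S.D.G.Adj w u)
    (hv : (S.kf hc w O).VC (S.fq w O (Sum.inr ⟨u, hu⟩))) {x : V} (hx : S.Cs w u x) :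
    (S.kf hc w O).EC (S.fq w O (S.rho w x)) (S.fq w O (Sum.inr ⟨u, hu⟩)) := by
  obtain ⟨d, hd⟩ := hv
  obtain ⟨y, hy, rfl⟩ := t_nb hF hu hd.E
  by_cases e : S.fq w O (S.rho w x) = S.fq w O (S.rho w y)
  · rw [e]
    exact hd.symm
  · obtain ⟨c, -, hc'⟩ := GX.LJ.corner (t_lj (hc := hc) hm hn hF hu (hc.wall w u hu x y hx hy)) e
    exact GX.EC_iff.2 ⟨c, hc'⟩

include hm hn nd hF in
/-- A CLASS IN NO CELL IS A LEAF -/
theorem kf_leaf (hl : ∀ q, S.K.LC q) (hv : ∀ u : S.EV w, (S.kf hc w O).VC (S.fq w O (Sum.inr u)))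
    (c : S.Q w O) (hcv : ¬ (S.kf hc w O).VC c) : ∃ a, ∀ b, (S.kf hc w O).E c b → b = a := by
  by_cases hn' : ∃ a, (S.kf hc w O).E c a
  swap
  · exact ⟨c, fun b hb => absurd ⟨b, hb⟩ hn'⟩
  obtain ⟨a, ha⟩ := hn'
  refine ⟨a, fun b hb => ?_⟩
  rcases cls3 c with ⟨u, rfl⟩ | ⟨u, x, hu, hx, rfl, -⟩ | ⟨q, hq, rfl⟩
  · exact absurd (hv u) hcv
  · exact absurd ⟨_, ec_cross hm hn hF hu (hv ⟨u, hu⟩) hx⟩ hcv
  · exact one_leaf hm hn nd hF hq (hl q) hcv hb ha

end

end SyQ

/-! ### the part is full -/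

namespace SubGX

variable {H' V' H V : Type} [Group H'] [MulAction H' V'] [Group H] [MulAction H V]
  {K' : GX H' V'} {K : GX H V}

/-- THE PART IS FULL, if its finite sinks are sinks -/
theorem full_old (S : SubGX K' K) (hall : ∀ i : K.I, ∃ i', S.ι i' = i) (hLC : ∀ v, K'.LC v)
    (hb : ¬ SA H')
    (hs : ∀ v', K'.Snk v' → Finite ↥(stabilizer H' v') → K'.VC v' → K.Snk (S.f v'))
    (hpq : ∀ v a b c, Finite ↥(stabilizer H v) → K.ar v a → K.ar v b → K.Cor a v c → K.LJ v a b)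
    (hL1 : ∀ v, K.Snk v → K.CLC v)
    (hL2 : ∀ v, ¬ K.Snk v → Infinite ↥(stabilizer H v) → K.VC v → K.LC v) : S.Full := by
  have pole : ∀ {v a : V}, ¬ K.Snk v → Finite ↥(stabilizer H v) → K.EC v a →
      ∃ p, K.ar v p ∧ K.LJ v a p := by
    intro v a hv hf ha
    by_contra hcon
    push Not at hcon
    obtain ⟨g, v', a', rfl, rfl, h3⟩ := S.EC_back hall ha
    rw [GX.Snk_smul_iff] at hv
    rw [GX.fin_smul_iff] at hf
    refine hv (hs v' ?_ (S.fin_of hf) ⟨_, h3⟩)
    intro p hp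
    have h4 := (S.LJ_map (hLC v' a' p h3.E (Or.inl hp))).smul g
    exact hcon (g • S.f p) (K.ar_smul g _ _ ((S.ar_iff _ _).1 hp)) h4
  -- every node with a corner is joined to a pole with a corner
  have key : ∀ v, ¬ K.Snk v → Finite ↥(stabilizer H v) → ∀ a, K.EC v a →
      ∃ p c, K.ar v p ∧ K.LJ v a p ∧ K.Cor p v c := by
    intro v hv hf a ha
    obtain ⟨p, hp, hap⟩ := pole hv hf ha
    by_cases e : p = a
    · subst e
      obtain ⟨c, hc⟩ := ha.cor
      exact ⟨p, c, hp, hap, hc⟩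
    · obtain ⟨c, -, hc⟩ := GX.LJ.corner (Relation.EqvGen.symm _ _ hap) e
      exact ⟨p, c, hp, hap, hc⟩
  have fin : ∀ v : V, Finite ↥(stabilizer H v) ∨ Infinite ↥(stabilizer H v) := fun v =>
    finite_or_infinite _
  refine ⟨?_, ?_, hall, K'.VC_all hLC hb⟩
  · intro v
    by_cases hv : K.Snk v
    · exact hL1 v hv
    intro a b ha hb
    rcases fin v with hf | hf
    swap
    · exact hL2 v hv hf ⟨a, ha⟩ a b ha.E hb.E
    obtain ⟨p, c, hp, hap, hc⟩ := key v hv hf a ha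
    obtain ⟨q, d, hq, hbq, -⟩ := key v hv hf b hb
    exact (hap.trans _ _ _ (hpq v p q c hf hp hq hc)).trans _ _ _ (Relation.EqvGen.symm _ _ hbq)
  · rintro v b ⟨y, hy⟩ hb
    have hv : ¬ K.Snk v := fun h => h b hb
    have h1 : ∃ p c, K.LJ v p b ∧ K.Cor p v c := by
      rcases fin v with hf | hf
      · obtain ⟨p, c, hp, -, hc⟩ := key v hv hf y hy
        exact ⟨p, c, hpq v p b c hf hp hb hc, hc⟩
      · obtain ⟨c, hc⟩ := hy.cor
        exact ⟨y, c, hL2 v hv hf ⟨y, hy⟩ y b hy.E (Or.inl hb), hc⟩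
    obtain ⟨p, c, h2, hc⟩ := h1
    by_cases e : b = p
    · subst e
      exact (GX.EC_iff.2 ⟨c, hc⟩).symm
    · obtain ⟨d, -, hd⟩ := GX.LJ.corner (Relation.EqvGen.symm _ _ h2) e
      exact (GX.EC_iff.2 ⟨d, hd⟩).symm

end SubGX

end Pool.Agent.DI
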