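import Pool.Agent.DI.GXTr
import Pool.Agent.SAF.A11
import Pool.Agent.SAG.AG

/-!
# Cuts of a `GX` at a vertex

`CutV K`: a vertex `s` and a nonempty set `R` of neighbours of `s` such that no cell has a corner
`(n, s, m)` with `n ∈ R`, `m ∉ R`, and `R` is a block for the stabiliser of `s`.
`C.T`: the tree of the cut, its vertices `C.X` are the classes of `V` under `C.Rel` (edges outside the
translates of `s × R`, and pairs in the same translate of `R`). `C.decomp`: the decomposition of `H` if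
no class is fixed.
-/

namespace Pool.Agent.DI

open MulAction
open Pool.Agent.SAF (InC orbs FinOrb oc Decomp TAct FinOrb_iff isTree_of_cut InC.iso)

/-! ### corners of closed walks -/

section Corners

variable {V V' : Type}

/-- `a, v, b` are consecutive vertices of the walk `x, l` -/
def Cn3 (a v b : V) : V → List V → Prop
  | _, [] => False
  | _, [_] => False
  | x, y :: z :: l => (a = x ∧ v = y ∧ b = z) ∨ Cn3 a v b y (z :: l)

/-- `a, v, b` is a corner of the closed walk `x, l` -/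
def CC (a v b : V) (x : V) (l : List V) : Prop := Cn3 a v b x (l ++ l.take 1)

theorem Cn3.map (f : V → V') {a v b x : V} {l : List V} (h : Cn3 a v b x l) :
    Cn3 (f a) (f v) (f b) (f x) (l.map f) := by
  induction l generalizing x with
  | nil => exact h
  | cons y l ih =>
    cases l with
    | nil => exact h
    | cons z l =>
      rcases h with ⟨rfl, rfl, rfl⟩ | h
      · exact Or.inl ⟨rfl, rfl, rfl⟩
      · exact Or.inr (ih h)

theorem CC.map (f : V → V') {a v b x : V} {l : List V} (h : CC a v b x l) :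
    CC (f a) (f v) (f b) (f x) (l.map f) := by
  unfold CC at h ⊢
  rw [← List.map_take, ← List.map_append]
  exact h.map f

/-- the last edge of the walk `x, y, l` -/
def le2 : V → V → List V → V × V
  | x, y, [] => (x, y)
  | _, y, z :: l => le2 y z l

theorem le2_snoc (x y : V) (l : List V) (z : V) : le2 x y (l ++ [z]) = (tg y l, z) := by
  induction l generalizing x y with
  | nil => rfl
  | cons w l ih => exact ih y w

theorem ps_corner {φ u u' : V → V → ZMod 2} (hφ : ∀ x y, φ x y = u x y + u' x y) {x y : V}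
    {l : List V} (hc : ∀ a v b, Cn3 a v b x (y :: l) → u a v + u' v b = 0) :
    u x y + ps φ y l = u (le2 x y l).1 (le2 x y l).2 := by
  induction l generalizing x y with
  | nil => simp [le2]
  | cons z l ih =>
    have h1 := hc x y z (Or.inl ⟨rfl, rfl, rfl⟩)
    have h2 := ih (x := y) (y := z) fun a v b h => hc a v b (Or.inr h)
    show u x y + (φ y z + ps φ z l) = u (le2 y z l).1 (le2 y z l).2
    rw [← h2, hφ]
    linear_combination h1

/-- a symmetric function which is zero at all corners has sum zero on a closed walk -/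
theorem ps_closed_zero {φ u u' : V → V → ZMod 2} (hφ : ∀ x y, φ x y = u x y + u' x y) {x : V}
    {l : List V} (ht : tg x l = x) (hc : ∀ a v b, CC a v b x l → u a v + u' v b = 0) :
    ps φ x l = 0 := by
  cases l with
  | nil => rfl
  | cons y l =>
    have h1 : u x y + ps φ y (l ++ [y]) = u (le2 x y (l ++ [y])).1 (le2 x y (l ++ [y])).2 := by
      apply ps_corner hφ
      intro a v b h
      apply hc a v b
      exact h
    rw [le2_snoc, ps_append] at h1
    have ht' : tg y l = x := ht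
    rw [ht'] at h1
    simp only [ps_cons, ps_nil, add_zero] at h1
    rw [ps_cons]
    linear_combination h1

end Corners

/-! ### the cut -/

variable {H V : Type} [Group H] [MulAction H V]

/-- a cut at a vertex -/
structure CutV (K : GX H V) where
  s : V
  R : Set V
  n0 : V
  n0R : n0 ∈ R
  sub : ∀ n ∈ R, K.E s n
  corner : ∀ (i : K.I) (h : H) (a b : V),
    CC a s b (h • K.cb i) ((K.cw i).map (fun z => h • z)) → (a ∈ R ↔ b ∈ R)
  blk : ∀ g : H, g • s = s → ∀ n ∈ R, g • n ∈ R → ∀ m ∈ R, g • m ∈ R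

theorem GX.E_orb (K : GX H V) {x : V} {g : H} (h : K.E x (g • x)) : False := by
  rcases h with h | h
  · have := K.ar_rk _ _ h
    rw [K.rk_smul] at this
    exact lt_irrefl _ this
  · have := K.ar_rk _ _ h
    rw [K.rk_smul] at this
    exact lt_irrefl _ this

namespace CutV

variable {K : GX H V} (C : CutV K)

/-- the pair is in the translate by `g` of `s × R` -/
def Ed (g : H) (x y : V) : Prop := x = g • C.s ∧ g⁻¹ • y ∈ C.R

variable {C}

theorem Ed.E {g : H} {x y : V} (h : C.Ed g x y) : K.E x y := by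
  obtain ⟨rfl, h⟩ := h
  have := K.E_smul g (C.sub _ h)
  rwa [smul_inv_smul] at this

theorem Ed.smul (k : H) {g : H} {x y : V} (h : C.Ed g x y) : C.Ed (k * g) (k • x) (k • y) := by
  obtain ⟨rfl, h⟩ := h
  refine ⟨(mul_smul _ _ _).symm, ?_⟩
  rwa [mul_inv_rev, mul_smul, inv_smul_smul]

/-- an element of `R` is not a translate of `s` -/
theorem not_orb {g : H} {x y : V} (h : C.Ed g x y) {k : H} : y ≠ k • C.s := by
  rintro rfl
  have e := h.E
  rw [h.1] at e
  have : K.E (g • C.s) ((k * g⁻¹) • (g • C.s)) := by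
    rwa [mul_smul, inv_smul_smul]
  exact K.E_orb this

/-- two cuts at the same vertex are equal or disjoint -/
theorem Ed.trans {g k : H} {x y z : V} (h : C.Ed g x y) (h' : C.Ed k x y) (h2 : C.Ed g x z) :
    C.Ed k x z := by
  obtain ⟨e1, h1⟩ := h
  obtain ⟨e2, h3⟩ := h'
  obtain ⟨_, h4⟩ := h2
  refine ⟨e2, ?_⟩
  have e3 : (k⁻¹ * g) • C.s = C.s := by
    rw [mul_smul, ← e1, e2, inv_smul_smul]
  have := C.blk (k⁻¹ * g) e3 (g⁻¹ • y) h1 (by rwa [mul_smul, smul_inv_smul]) (g⁻¹ • z) h4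
  rwa [mul_smul, smul_inv_smul] at this

variable (C)

/-- the relation whose classes are the vertices of the tree -/
def Rel (x y : V) : Prop :=
  (K.E x y ∧ ∀ g, ¬ C.Ed g x y ∧ ¬ C.Ed g y x) ∨ ∃ g : H, g⁻¹ • x ∈ C.R ∧ g⁻¹ • y ∈ C.R

theorem Rel_smul (k : H) {x y : V} (h : C.Rel x y) : C.Rel (k • x) (k • y) := by
  rcases h with ⟨e, h⟩ | ⟨g, h1, h2⟩
  · refine Or.inl ⟨K.E_smul k e, fun g => ⟨fun hh => (h (k⁻¹ * g)).1 ?_, fun hh => (h (k⁻¹ * g)).2 ?_⟩⟩
    · have := hh.smul k⁻¹
      rwa [inv_smul_smul, inv_smul_smul] at this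
    · have := hh.smul k⁻¹
      rwa [inv_smul_smul, inv_smul_smul] at this
  · refine Or.inr ⟨k * g, ?_, ?_⟩
    · rwa [mul_inv_rev, mul_smul, inv_smul_smul]
    · rwa [mul_inv_rev, mul_smul, inv_smul_smul]

/-- the vertices of the tree -/
def X : Type := Quot C.Rel

/-- the class of a vertex -/
def cl (x : V) : C.X := Quot.mk _ x

variable {C}

theorem cl_of {x y : V} (h : C.Rel x y) : C.cl x = C.cl y := Quot.sound h

theorem cl_R {g : H} {x y : V} (hx : g⁻¹ • x ∈ C.R) (hy : g⁻¹ • y ∈ C.R) : C.cl x = C.cl y :=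
  cl_of (Or.inr ⟨g, hx, hy⟩)

theorem cl_Ed {g : H} {x y z : V} (h : C.Ed g x y) (h' : C.Ed g x z) : C.cl y = C.cl z :=
  cl_R h.2 h'.2

variable (C)

theorem exists_cl (c : C.X) : ∃ x, C.cl x = c := by
  obtain ⟨x, rfl⟩ := Quot.exists_rep c
  exact ⟨x, rfl⟩

instance : MulAction H C.X where
  smul h := Quot.map (fun x => h • x) (fun _ _ e => C.Rel_smul h e)
  one_smul c := by
    obtain ⟨x, rfl⟩ := C.exists_cl c
    show C.cl ((1 : H) • x) = C.cl x
    rw [one_smul]
  mul_smul g h c := by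
    obtain ⟨x, rfl⟩ := C.exists_cl c
    show C.cl ((g * h) • x) = C.cl (g • h • x)
    rw [mul_smul]

theorem smul_cl (h : H) (x : V) : h • C.cl x = C.cl (h • x) := rfl

/-! ### the cut function -/

open Classical in
/-- the indicator of the pairs in `s × R` -/
noncomputable def chi (x y : V) : ZMod 2 := if x = C.s ∧ y ∈ C.R then 1 else 0

theorem chi_of {x y : V} (h1 : x = C.s) (h2 : y ∈ C.R) : C.chi x y = 1 := if_pos ⟨h1, h2⟩

theorem chi_not {x y : V} (h : ¬ (x = C.s ∧ y ∈ C.R)) : C.chi x y = 0 := if_neg h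

/-- the cut function on the vertices -/
theorem exists_g : ∃ g : V → ZMod 2, ∀ x y, K.E x y → C.chi x y + C.chi y x = g x + g y := by
  refine K.H1 (fun x y => C.chi x y + C.chi y x) (fun x y => add_comm _ _) ?_
  intro i h
  apply ps_closed_zero (u := fun x y => C.chi y x) (u' := fun x y => C.chi x y)
  · intro x y
    exact add_comm _ _
  · rw [tg_map (fun z => h • z), K.c_tg]
  · intro a v b hc
    by_cases hv : v = C.s
    · subst hv
      have := C.corner i h a b hc
      by_cases ha : a ∈ C.R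
      · rw [C.chi_of rfl ha, C.chi_of rfl (this.1 ha)]
        rfl
      · rw [C.chi_not (fun k => ha k.2), C.chi_not (fun k => ha (this.2 k.2)), add_zero]
    · rw [C.chi_not (fun k => hv k.1), C.chi_not (fun k => hv k.1), add_zero]

theorem two_zero (a : ZMod 2) : a + a = 0 := CharTwo.add_self_eq_zero a

theorem eq_of_add {a b : ZMod 2} (h : a + b = 0) : a = b := by
  have := two_zero b
  linear_combination h - this

/-- the cut function on the tree: it changes exactly at the pairs of `s × R` -/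
theorem exists_cut0 : ∃ f : C.X → ZMod 2,
    (∀ x y, K.E x y → ¬ C.Ed 1 x y → ¬ C.Ed 1 y x → f (C.cl x) = f (C.cl y)) ∧
    ∀ y, C.Ed 1 C.s y → f (C.cl C.s) ≠ f (C.cl y) := by
  obtain ⟨g, hg⟩ := C.exists_g
  have key : ∀ x y, K.E x y → ¬ C.Ed 1 x y → ¬ C.Ed 1 y x → g x = g y := by
    intro x y e h1 h2
    have := hg x y e
    rw [C.chi_not (fun k => h1 ⟨by rw [one_smul]; exact k.1, by rw [inv_one, one_smul]; exact k.2⟩),
      C.chi_not (fun k => h2 ⟨by rw [one_smul]; exact k.1, by rw [inv_one, one_smul]; exact k.2⟩),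
      add_zero] at this
    exact eq_of_add this.symm
  have hEd : ∀ y, C.Ed 1 C.s y → g C.s + g y = 1 := by
    intro y hy
    have hR : y ∈ C.R := by
      have := hy.2
      rwa [inv_one, one_smul] at this
    rw [← hg C.s y hy.E, C.chi_of rfl hR, C.chi_not, add_zero]
    rintro ⟨e, -⟩
    exact not_orb hy (k := 1) (by rw [e, one_smul])
  refine ⟨Quot.lift g ?_, ?_, ?_⟩
  · intro x y h
    rcases h with ⟨e, h⟩ | ⟨k, hx, hy⟩
    · exact key x y e (h 1).1 (h 1).2
    · have e1 : C.Ed k (k • C.s) x := ⟨rfl, hx⟩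
      have e2 : C.Ed k (k • C.s) y := ⟨rfl, hy⟩
      by_cases h1 : C.Ed 1 (k • C.s) x
      · have h2 : C.Ed 1 (k • C.s) y := e1.trans h1 e2
        have hs : k • C.s = C.s := by rw [h1.1, one_smul]
        rw [hs] at h1 h2
        have a1 := hEd x h1
        have a2 := hEd y h2
        have a3 := two_zero (g C.s)
        have a4 := two_zero (g y)
        linear_combination a1 - a2
      · have h2 : ¬ C.Ed 1 (k • C.s) y := fun hh => h1 (e2.trans hh e1)
        have r1 : ¬ C.Ed 1 x (k • C.s) := fun hh => not_orb e1 (k := 1) hh.1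
        have r2 : ¬ C.Ed 1 y (k • C.s) := fun hh => not_orb e2 (k := 1) hh.1
        rw [← key _ _ e1.E h1 r1, ← key _ _ e2.E h2 r2]
  · intro x y e h1 h2
    exact key x y e h1 h2
  · intro y hy
    show g C.s ≠ g y
    intro e
    have := hEd y hy
    rw [e, two_zero] at this
    exact zero_ne_one this

/-- the cut functions of the translates -/
theorem exists_cut (k : H) : ∃ f : C.X → ZMod 2,
    (∀ x y, K.E x y → ¬ C.Ed k x y → ¬ C.Ed k y x → f (C.cl x) = f (C.cl y)) ∧
    ∀ y, C.Ed k (k • C.s) y → f (C.cl (k • C.s)) ≠ f (C.cl y) := by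
  obtain ⟨f, h1, h2⟩ := C.exists_cut0
  refine ⟨fun c => f (k⁻¹ • c), ?_, ?_⟩
  · intro x y e n1 n2
    show f (k⁻¹ • C.cl x) = f (k⁻¹ • C.cl y)
    rw [smul_cl, smul_cl]
    apply h1 _ _ (K.E_smul _ e)
    · intro hh
      apply n1
      have := hh.smul k
      rwa [mul_one, smul_inv_smul, smul_inv_smul] at this
    · intro hh
      apply n2
      have := hh.smul k
      rwa [mul_one, smul_inv_smul, smul_inv_smul] at this
  · intro y hy
    show f (k⁻¹ • C.cl (k • C.s)) ≠ f (k⁻¹ • C.cl y)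
    rw [smul_cl, smul_cl, inv_smul_smul]
    apply h2
    have := hy.smul k⁻¹
    rwa [inv_mul_cancel, inv_smul_smul] at this

/-! ### the tree -/

/-- the tree of the cut -/
def T : SimpleGraph C.X where
  Adj c d := ∃ (g : H) (x y : V), C.Ed g x y ∧ ((c = C.cl x ∧ d = C.cl y) ∨ (d = C.cl x ∧ c = C.cl y))
  symm := ⟨by
    rintro c d ⟨g, x, y, h, h'⟩
    exact ⟨g, x, y, h, h'.symm⟩⟩
  loopless := ⟨by
    rintro c ⟨g, x, y, h, h'⟩
    have e : C.cl x = C.cl y := by
      rcases h' with ⟨h1, h2⟩ | ⟨h1, h2⟩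
      · rw [← h1, ← h2]
      · rw [← h1, ← h2]
    obtain ⟨f, -, hf⟩ := C.exists_cut g
    have hx := h.1
    subst hx
    exact hf y h (by rw [e])⟩

theorem T_adj {g : H} {x y : V} (h : C.Ed g x y) : C.T.Adj (C.cl x) (C.cl y) :=
  ⟨g, x, y, h, Or.inl ⟨rfl, rfl⟩⟩

/-- an edge of the complex is mapped to a point or to an edge of the tree -/
theorem E_cl {x y : V} (e : K.E x y) : C.cl x = C.cl y ∨ C.T.Adj (C.cl x) (C.cl y) := by
  by_cases h : ∀ g, ¬ C.Ed g x y ∧ ¬ C.Ed g y x
  · exact Or.inl (cl_of (Or.inl ⟨e, h⟩))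
  · push Not at h
    obtain ⟨g, hg⟩ := h
    by_cases h1 : C.Ed g x y
    · exact Or.inr (C.T_adj h1)
    · exact Or.inr (C.T_adj (hg h1)).symm

theorem T_smul (h : H) (c d : C.X) (e : C.T.Adj c d) : C.T.Adj (h • c) (h • d) := by
  obtain ⟨g, x, y, hh, h'⟩ := e
  refine ⟨h * g, h • x, h • y, hh.smul h, ?_⟩
  rcases h' with ⟨rfl, rfl⟩ | ⟨rfl, rfl⟩
  · exact Or.inl ⟨rfl, rfl⟩
  · exact Or.inr ⟨rfl, rfl⟩

theorem T_conn : C.T.Connected := by
  have hp : C.T.Preconnected := by
    intro c d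
    obtain ⟨x, rfl⟩ := C.exists_cl c
    obtain ⟨y, rfl⟩ := C.exists_cl d
    have := K.conn x y
    induction this with
    | refl => exact SimpleGraph.Reachable.refl _
    | tail _ e ih =>
      rcases C.E_cl e with h | h
      · rw [← h]; exact ih
      · exact ih.trans h.reachable
  have : Nonempty C.X := K.ne.map C.cl
  exact ⟨hp⟩

/-- an edge of the tree which is equal to the edge of the cut `g` comes from a translate which fixes
the cut -/
theorem cut_unique {g : H} {x y : V} (h : C.Ed g x y) {k : H} {u v : V} (h' : C.Ed k u v)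
    (e : (C.cl u = C.cl x ∧ C.cl v = C.cl y) ∨ (C.cl u = C.cl y ∧ C.cl v = C.cl x)) :
    C.Ed g u v := by
  obtain ⟨f, h1, h2⟩ := C.exists_cut g
  have hx := h.1
  subst hx
  have hne := h2 y h
  by_contra hcon
  have h3 : ¬ C.Ed g v u := by
    intro hh
    exact not_orb h' (k := g) hh.1
  have := h1 u v h'.E hcon h3
  rcases e with ⟨e1, e2⟩ | ⟨e1, e2⟩
  · rw [e1, e2] at this
    exact hne this
  · rw [e1, e2] at this
    exact hne this.symm

theorem T_tree : C.T.IsTree := by
  apply isTree_of_cut _ C.T_conn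
  intro c d hcd
  obtain ⟨g, x, y, h, h'⟩ := hcd
  obtain ⟨f, h1, h2⟩ := C.exists_cut g
  have hx := h.1
  subst hx
  have hne := h2 y h
  refine ⟨f, ?_, ?_⟩
  · rcases h' with ⟨rfl, rfl⟩ | ⟨rfl, rfl⟩
    · exact hne
    · exact hne.symm
  · intro a b hab hf
    obtain ⟨k, u, v, hk, hk'⟩ := hab
    have hEd : C.Ed g u v := by
      by_contra hcon
      have h3 : ¬ C.Ed g v u := fun hh => not_orb hk (k := g) hh.1
      have := h1 u v hk.E hcon h3
      rcases hk' with ⟨rfl, rfl⟩ | ⟨rfl, rfl⟩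
      · exact hf this
      · exact hf this.symm
    have e1 : C.cl u = C.cl (g • C.s) := by rw [hEd.1]
    have e2 : C.cl v = C.cl y := cl_R hEd.2 h.2
    rcases hk' with ⟨rfl, rfl⟩ | ⟨rfl, rfl⟩
    · rcases h' with ⟨rfl, rfl⟩ | ⟨rfl, rfl⟩
      · exact Or.inl ⟨e1, e2⟩
      · exact Or.inr ⟨e1, e2⟩
    · rcases h' with ⟨rfl, rfl⟩ | ⟨rfl, rfl⟩
      · exact Or.inr ⟨e2, e1⟩
      · exact Or.inl ⟨e2, e1⟩

theorem T_noinv (h : H) (c d : C.X) (e : C.T.Adj c d) : ¬ (h • c = d ∧ h • d = c) := by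
  rintro ⟨e1, e2⟩
  obtain ⟨g, x, y, hh, h'⟩ := e
  have key : C.cl (h • x) = C.cl y ∧ C.cl (h • y) = C.cl x := by
    rcases h' with ⟨rfl, rfl⟩ | ⟨rfl, rfl⟩
    · exact ⟨e1, e2⟩
    · exact ⟨e2, e1⟩
  have h3 := C.cut_unique hh (hh.smul h) (Or.inr key)
  have h4 : h • x = x := by rw [h3.1, hh.1]
  have h5 := key.1
  rw [h4] at h5
  exact C.T.ne_of_adj (C.T_adj hh) h5

theorem tact : TAct H C.T := ⟨C.T_tree, C.T_smul, C.T_noinv⟩

/-- the stabiliser of an edge of the tree fixes the vertex of the cut and the cut -/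
theorem stab_edge {g : H} {x y : V} (h : C.Ed g x y) {k : H} (h1 : k • C.cl x = C.cl x)
    (h2 : k • C.cl y = C.cl y) : k • x = x ∧ C.Ed g x (k • y) := by
  have h3 := C.cut_unique h (h.smul k) (Or.inl ⟨h1, h2⟩)
  have h4 : k • x = x := by rw [h3.1, h.1]
  rw [h4] at h3
  exact ⟨h4, h3⟩

theorem edgeC (c d : C.X) (e : C.T.Adj c d) : InC ↥(stabilizer H c ⊓ stabilizer H d) := by
  obtain ⟨g, x, y, h, h'⟩ := e
  have hle : (stabilizer H c ⊓ stabilizer H d) ≤ stabilizer H x := by
    intro k hk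
    have h1 : k • C.cl x = C.cl x ∧ k • C.cl y = C.cl y := by
      rcases h' with ⟨rfl, rfl⟩ | ⟨rfl, rfl⟩
      · exact ⟨hk.1, hk.2⟩
      · exact ⟨hk.2, hk.1⟩
    exact (C.stab_edge h h1.1 h1.2).1
  exact Pool.Agent.SAG.InC.mono hle (K.stab x)

theorem finV : FinOrb H (Set.univ : Set C.X) := by
  apply Pool.Agent.SAF.FinOrb.image K.fin C.cl
  · intro b _
    obtain ⟨x, rfl⟩ := C.exists_cl b
    exact ⟨x, trivial, 1, one_smul _ _⟩
  · rintro a _ b _ ⟨h, rfl⟩
    exact ⟨h, rfl⟩

theorem Ed0 : C.Ed 1 C.s C.n0 := ⟨(one_smul _ _).symm, by rw [inv_one, one_smul]; exact C.n0R⟩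

theorem finE : FinOrb H {p : C.X × C.X | C.T.Adj p.1 p.2} := by
  rw [FinOrb_iff]
  refine ⟨{(C.cl C.s, C.cl C.n0), (C.cl C.n0, C.cl C.s)}, ?_, ?_, ?_⟩
  · exact Set.toFinite _
  · rintro p (rfl | rfl)
    · exact C.T_adj C.Ed0
    · exact (C.T_adj C.Ed0).symm
  · rintro ⟨c, d⟩ ⟨g, x, y, h, h'⟩
    have e1 : g • C.cl C.s = C.cl x := by rw [smul_cl, h.1]
    have e2 : g • C.cl C.n0 = C.cl y := by
      rw [smul_cl]
      exact cl_R (g := g) (by rw [inv_smul_smul]; exact C.n0R) h.2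
    rcases h' with ⟨rfl, rfl⟩ | ⟨rfl, rfl⟩
    · refine ⟨_, Or.inl rfl, g, ?_⟩
      rw [Prod.smul_mk, e1, e2]
    · refine ⟨_, Or.inr rfl, g, ?_⟩
      rw [Prod.smul_mk, e1, e2]

/-- the decomposition of the cut -/
def decomp (hn : ∀ c : C.X, ∃ h : H, h • c ≠ c) : Decomp H where
  X := C.X
  G := C.T
  tree := C.T_tree
  adj_smul := C.T_smul
  noinv := C.T_noinv
  finV := C.finV
  finE := C.finE
  edgeC := C.edgeC
  nofix := hn

end CutV

end Pool.Agent.DI
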