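import Pool.Agent.DI.CutV

/-!
# The parts of a cut of a `GX`

`C.PV c`: the vertices of the class `c` and the translates of `s` attached to it. `C.part c`: the
complex of the part for the stabiliser of `c`. Every cell lies in exactly one part.
-/

namespace Pool.Agent.DI

open MulAction
open Pool.Agent.SAF (InC orbs FinOrb oc Decomp TAct FinOrb_iff isTree_of_cut InC.iso)

theorem Cn3.append {V : Type} {a v b x : V} {l : List V} (m : List V) (h : Cn3 a v b x l) :
    Cn3 a v b x (l ++ m) := by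
  induction l generalizing x with
  | nil => exact h.elim
  | cons y l ih =>
    cases l with
    | nil => exact h.elim
    | cons z l =>
      rcases h with h | h
      · exact Or.inl h
      · exact Or.inr (ih h)

theorem ps_zero {V : Type} {E : V → V → Prop} {φ : V → V → ZMod 2} {x : V} {l : List V}
    (h : ∀ x y, E x y → φ x y = 0) (w : Wk E x l) : ps φ x l = 0 := by
  induction l generalizing x with
  | nil => rfl
  | cons y l ih => rw [ps_cons, h _ _ w.1, ih w.2, add_zero]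

/-- the walk stays in a set -/
theorem Wk.and {V : Type} {E : V → V → Prop} {P : V → Prop} {x : V} {l : List V} (w : Wk E x l)
    (hx : P x) (hl : ∀ y ∈ l, P y) : Wk (fun a b => E a b ∧ P a ∧ P b) x l := by
  induction l generalizing x with
  | nil => trivial
  | cons y l ih =>
    have hy : P y := hl y List.mem_cons_self
    exact ⟨⟨w.1, hx, hy⟩, ih w.2 hy fun z hz => hl z (List.mem_cons_of_mem _ hz)⟩

namespace CutV

variable {H V : Type} [Group H] [MulAction H V] {K : GX H V} (C : CutV K)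

/-- the vertices of the part of a class -/
def PV (c : C.X) : Set V := {v | C.cl v = c ∨ ∃ g y, C.Ed g v y ∧ C.cl y = c}

theorem PV_smul (h : H) {c : C.X} {v : V} (hv : v ∈ C.PV c) : h • v ∈ C.PV (h • c) := by
  rcases hv with rfl | ⟨g, y, e, rfl⟩
  · exact Or.inl rfl
  · exact Or.inr ⟨h * g, h • y, e.smul h, rfl⟩

theorem mem_PV_cl (v : V) : v ∈ C.PV (C.cl v) := Or.inl rfl

theorem PV_of_Ed {g : H} {x y : V} (h : C.Ed g x y) : x ∈ C.PV (C.cl y) := Or.inr ⟨g, y, h, rfl⟩

theorem ne_of_Ed {g : H} {x y : V} (h : C.Ed g x y) : C.cl x ≠ C.cl y := C.T.ne_of_adj (C.T_adj h)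

/-- the three kinds of edges in a part -/
theorem kinds {x y : V} (e : K.E x y) {c : C.X} (hx : x ∈ C.PV c) (hy : y ∈ C.PV c) :
    (C.cl x = c ∧ C.cl y = c) ∨ (∃ g, C.Ed g x y ∧ C.cl y = c) ∨ ∃ g, C.Ed g y x ∧ C.cl x = c := by
  have key : ∀ {x y : V}, K.E x y → C.cl x = c → (∃ g z, C.Ed g y z ∧ C.cl z = c) →
      ∃ g, C.Ed g y x ∧ C.cl x = c := by
    rintro x y e rfl ⟨g, z, hg, hz⟩
    have hne : C.cl x ≠ C.cl y := by
      intro h
      rw [h] at hz
      exact C.ne_of_Ed hg hz.symm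
    by_contra hcon
    push Not at hcon
    apply hne
    apply cl_of
    refine Or.inl ⟨e, fun k => ⟨fun hk => ?_, fun hk => hcon k hk rfl⟩⟩
    exact not_orb hk hg.1
  rcases hx with hx | hx
  · rcases hy with hy | hy
    · exact Or.inl ⟨hx, hy⟩
    · exact Or.inr (Or.inr (key e hx hy))
  · rcases hy with hy | hy
    · exact Or.inr (Or.inl (key e.symm hy hx))
    · exfalso
      obtain ⟨g, z, hg, -⟩ := hx
      obtain ⟨k, w, hk, -⟩ := hy
      rw [hg.1, hk.1] at e
      have : K.E (g • C.s) ((k * g⁻¹) • (g • C.s)) := by rwa [mul_smul, inv_smul_smul]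
      exact K.E_orb this

/-- an edge lies in one part only -/
theorem PV_unique {x y : V} (e : K.E x y) {c d : C.X} (hx : x ∈ C.PV c) (hy : y ∈ C.PV c)
    (hx' : x ∈ C.PV d) (hy' : y ∈ C.PV d) : c = d := by
  rcases C.kinds e hx hy with ⟨h1, h2⟩ | ⟨g, hg, h2⟩ | ⟨g, hg, h1⟩
  · rcases C.kinds e hx' hy' with ⟨k1, k2⟩ | ⟨k, hk, k2⟩ | ⟨k, hk, k1⟩
    · rw [← h1, k1]
    · rw [← h2, k2]
    · rw [← h1, k1]
  · rcases C.kinds e hx' hy' with ⟨k1, k2⟩ | ⟨k, hk, k2⟩ | ⟨k, hk, k1⟩
    · rw [← h2, k2]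
    · rw [← h2, k2]
    · exact absurd hk.1 (not_orb hg)
  · rcases C.kinds e hx' hy' with ⟨k1, k2⟩ | ⟨k, hk, k2⟩ | ⟨k, hk, k1⟩
    · rw [← h1, k1]
    · exact absurd hk.1 (not_orb hg)
    · rw [← h1, k1]

/-- every edge lies in a part -/
theorem PV_exists {x y : V} (e : K.E x y) : ∃ c, x ∈ C.PV c ∧ y ∈ C.PV c := by
  by_cases h : ∀ g, ¬ C.Ed g x y ∧ ¬ C.Ed g y x
  · refine ⟨C.cl x, C.mem_PV_cl x, Or.inl (cl_of (Or.inl ⟨e, h⟩)).symm⟩
  · push Not at h
    obtain ⟨g, hg⟩ := h
    by_cases h1 : C.Ed g x y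
    · exact ⟨C.cl y, C.PV_of_Ed h1, C.mem_PV_cl y⟩
    · exact ⟨C.cl x, C.mem_PV_cl x, C.PV_of_Ed (hg h1)⟩

/-- the property of the corners of cells -/
def COK (a v b : V) : Prop := ∀ g, C.Ed g v a ↔ C.Ed g v b

theorem COK_of {i : K.I} {h : H} {a v b : V}
    (hc : CC a v b (h • K.cb i) ((K.cw i).map (fun z => h • z))) : C.COK a v b := by
  intro g
  by_cases hv : v = g • C.s
  · subst hv
    have h1 := hc.map (fun z => g⁻¹ • z)
    simp only [List.map_map, inv_smul_smul] at h1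
    have h2 : CC (g⁻¹ • a) C.s (g⁻¹ • b) ((g⁻¹ * h) • K.cb i)
        ((K.cw i).map (fun z => (g⁻¹ * h) • z)) := by
      rw [mul_smul]
      convert h1 using 2
      funext z
      exact mul_smul _ _ _
    have h3 := C.corner i (g⁻¹ * h) _ _ h2
    exact ⟨fun hh => ⟨rfl, h3.1 hh.2⟩, fun hh => ⟨rfl, h3.2 hh.2⟩⟩
  · exact ⟨fun hh => absurd hh.1 hv, fun hh => absurd hh.1 hv⟩

/-- a corner of a cell lies in one part -/
theorem PV_corner {a v b : V} (e1 : K.E a v) (e2 : K.E v b) (hc : C.COK a v b) {c : C.X}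
    (ha : a ∈ C.PV c) (hv : v ∈ C.PV c) : b ∈ C.PV c := by
  obtain ⟨d, hv', hb⟩ := C.PV_exists e2
  rcases C.kinds e1 ha hv with ⟨h1, h2⟩ | ⟨g, hg, h2⟩ | ⟨g, hg, h1⟩
  · rcases C.kinds e2 hv' hb with ⟨k1, k2⟩ | ⟨k, hk, k2⟩ | ⟨k, hk, k1⟩
    · rw [← h2, k1]; exact hb
    · exact absurd (h2.trans h1.symm) (C.ne_of_Ed ((hc k).2 hk))
    · rw [← h2, k1]; exact hb
  · rcases C.kinds e2 hv' hb with ⟨k1, k2⟩ | ⟨k, hk, k2⟩ | ⟨k, hk, k1⟩
    · rw [← h2, k1]; exact hb
    · exact absurd hk.1 (not_orb hg)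
    · rw [← h2, k1]; exact hb
  · have h3 := (hc g).1 hg
    exact Or.inl ((cl_Ed h3 hg).trans h1)

theorem walk_in {c : C.X} {x y : V} {l : List V} (hx : x ∈ C.PV c) (hy : y ∈ C.PV c)
    (hw : Wk K.E x (y :: l)) (hc : ∀ a v b, Cn3 a v b x (y :: l) → C.COK a v b) :
    ∀ z ∈ y :: l, z ∈ C.PV c := by
  induction l generalizing x y with
  | nil =>
    intro z hz
    rw [List.mem_singleton] at hz
    rw [hz]; exact hy
  | cons w l ih =>
    intro z hz
    rcases List.mem_cons.1 hz with rfl | hz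
    · exact hy
    · have hw' : w ∈ C.PV c :=
        C.PV_corner hw.1 hw.2.1 (hc x y w (Or.inl ⟨rfl, rfl, rfl⟩)) hx hy
      exact ih hy hw' hw.2 (fun a v b h => hc a v b (Or.inr h)) z hz

/-- the translate of the cell lies in the part -/
def In (c : C.X) (h : H) (i : K.I) : Prop := h • K.cb i ∈ C.PV c ∧ ∀ y ∈ K.cw i, h • y ∈ C.PV c

theorem exists_In (h : H) (i : K.I) : ∃ c, C.In c h i := by
  have hw : Wk K.E (h • K.cb i) ((K.cw i).map (fun z => h • z)) :=
    Wk_map (E := K.E) (fun z => h • z) (fun x y e => K.E_smul h e) (K.c_E i)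
  have hc : ∀ a v b, CC a v b (h • K.cb i) ((K.cw i).map (fun z => h • z)) → C.COK a v b :=
    fun a v b hh => C.COK_of hh
  have main : ∀ (x : V) (l : List V), Wk K.E x l → (∀ a v b, CC a v b x l → C.COK a v b) →
      ∃ c, x ∈ C.PV c ∧ ∀ y ∈ l, y ∈ C.PV c := by
    intro x l hw hc
    cases l with
    | nil => exact ⟨C.cl x, C.mem_PV_cl x, fun y hy => absurd hy List.not_mem_nil⟩
    | cons y l =>
      obtain ⟨c, h1, h2⟩ := C.PV_exists hw.1
      exact ⟨c, h1, C.walk_in h1 h2 hw fun a v b hh => hc a v b (hh.append _)⟩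
  obtain ⟨c, h1, h2⟩ := main _ _ hw hc
  exact ⟨c, h1, fun y hy => h2 _ (List.mem_map.2 ⟨y, hy, rfl⟩)⟩

theorem In.smul {c : C.X} {h : H} {i : K.I} (hh : C.In c h i) (k : H) : C.In (k • c) (k * h) i := by
  refine ⟨?_, fun y hy => ?_⟩
  · rw [mul_smul]; exact C.PV_smul k hh.1
  · rw [mul_smul]; exact C.PV_smul k (hh.2 y hy)

theorem In_unique {c d : C.X} {h : H} {i : K.I} (hl : K.cw i ≠ []) (h1 : C.In c h i)
    (h2 : C.In d h i) : c = d := by
  obtain ⟨y, l, e⟩ := List.exists_cons_of_ne_nil hl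
  have hw := K.c_E i
  rw [e] at hw
  have hy : y ∈ K.cw i := by rw [e]; exact List.mem_cons_self
  exact C.PV_unique (K.E_smul h hw.1) h1.1 (h1.2 y hy) h2.1 (h2.2 y hy)

/-! ### the complex of a part -/

instance actPV (c : C.X) : MulAction ↥(stabilizer H c) ↥(C.PV c) where
  smul h v := ⟨(h : H) • (v : V), by
    have := C.PV_smul (h : H) v.2
    rwa [mem_stabilizer_iff.1 h.2] at this⟩
  one_smul v := Subtype.ext (one_smul H (v : V))
  mul_smul g h v := Subtype.ext (mul_smul (g : H) (h : H) (v : V))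

theorem coe_smul (c : C.X) (h : ↥(stabilizer H c)) (v : ↥(C.PV c)) :
    ((h • v : ↥(C.PV c)) : V) = (h : H) • (v : V) := rfl

theorem PV_fin (c : C.X) : FinOrb ↥(stabilizer H c) (Set.univ : Set ↥(C.PV c)) := by
  classical
  obtain ⟨F, hF, -, hc⟩ := FinOrb_iff.1 K.fin
  have hne : Nonempty ↥(C.PV c) := by
    obtain ⟨x, hx⟩ := C.exists_cl c
    exact ⟨⟨x, Or.inl hx⟩⟩
  obtain ⟨v0⟩ := hne
  let r : V → ↥(C.PV c) := fun f =>
    if h : ∃ k : H, C.cl (k • f) = c then ⟨h.choose • f, Or.inl h.choose_spec⟩ else v0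
  let a : ↥(C.PV c) := if h : ∃ (v : V) (g : H) (y : V), C.Ed g v y ∧ C.cl y = c then
    ⟨h.choose, Or.inr h.choose_spec⟩ else v0
  rw [FinOrb_iff]
  refine ⟨insert a (r '' F), (hF.image r).insert a, Set.subset_univ _, ?_⟩
  rintro ⟨v, hv⟩ -
  rcases hv with hv | hv
  · obtain ⟨f, hf, k, hk⟩ := hc v trivial
    have hex : ∃ k : H, C.cl (k • f) = c := ⟨k, by rw [hk]; exact hv⟩
    refine ⟨r f, Or.inr ⟨f, hf, rfl⟩, ⟨k * hex.choose⁻¹, ?_⟩, ?_⟩
    · rw [mem_stabilizer_iff]
      have h1 := hex.choose_spec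
      have h2 : (k * hex.choose⁻¹) • C.cl (hex.choose • f) = c := by
        rw [smul_cl, mul_smul, inv_smul_smul, hk, hv]
      rwa [h1] at h2
    · apply Subtype.ext
      rw [coe_smul]
      simp only [r]
      rw [dif_pos hex, mul_smul, inv_smul_smul, hk]
  · have hex : ∃ (v : V) (g : H) (y : V), C.Ed g v y ∧ C.cl y = c := ⟨v, hv⟩
    obtain ⟨g, y, e, hy⟩ := hv
    obtain ⟨g0, y0, e0, hy0⟩ := hex.choose_spec
    have e1 : (g * g0⁻¹) • hex.choose = v := by
      rw [e0.1, mul_smul, inv_smul_smul, e.1]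
    refine ⟨a, Or.inl rfl, ⟨g * g0⁻¹, ?_⟩, ?_⟩
    · rw [mem_stabilizer_iff]
      have h2 : (g * g0⁻¹) • C.cl y0 = c := by
        rw [smul_cl, ← hy]
        have := e0.smul (g * g0⁻¹)
        rw [inv_mul_cancel_right, e1] at this
        exact cl_Ed this e
      rwa [hy0] at h2
    · apply Subtype.ext
      rw [coe_smul]
      simp only [a]
      rw [dif_pos hex]
      exact e1

theorem PV_stab (c : C.X) (v : ↥(C.PV c)) : InC ↥(stabilizer ↥(stabilizer H c) v) := by
  have h1 : InC ↥((stabilizer ↥(stabilizer H c) v).map (stabilizer H c).subtype) := by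
    apply Pool.Agent.SAG.InC.mono ?_ (K.stab (v : V))
    rintro _ ⟨k, hk, rfl⟩
    rw [mem_stabilizer_iff]
    have := congrArg Subtype.val (mem_stabilizer_iff.1 hk)
    exact this
  exact InC.iso ((stabilizer ↥(stabilizer H c) v).equivMapOfInjective _
    (Subgroup.subtype_injective _)).symm h1

theorem PV_conn (c : C.X) (x y : ↥(C.PV c)) :
    Relation.ReflTransGen (fun a b : ↥(C.PV c) => K.ar a b ∨ K.ar b a) x y := by
  have symm : ∀ {x y : ↥(C.PV c)}, Relation.ReflTransGen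
      (fun a b : ↥(C.PV c) => K.ar a b ∨ K.ar b a) x y →
      Relation.ReflTransGen (fun a b : ↥(C.PV c) => K.ar a b ∨ K.ar b a) y x :=
    fun h => by
      induction h with
      | refl => exact Relation.ReflTransGen.refl
      | tail _ e ih => exact Relation.ReflTransGen.head (Or.symm e) ih
  -- the class is connected
  have h1 : ∀ x y : V, Relation.EqvGen C.Rel x y → ∀ (hx : x ∈ C.PV c) (hy : y ∈ C.PV c),
      C.cl x = c → C.cl y = c → Relation.ReflTransGen
        (fun a b : ↥(C.PV c) => K.ar a b ∨ K.ar b a) ⟨x, hx⟩ ⟨y, hy⟩ := by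
    intro x y h
    induction h with
    | rel x y h =>
      intro hx hy cx cy
      rcases h with ⟨e, -⟩ | ⟨g, h1, h2⟩
      · exact Relation.ReflTransGen.single e
      · have e1 : C.Ed g (g • C.s) x := ⟨rfl, h1⟩
        have e2 : C.Ed g (g • C.s) y := ⟨rfl, h2⟩
        have hs : g • C.s ∈ C.PV c := by
          rw [← cx]; exact C.PV_of_Ed e1
        exact (Relation.ReflTransGen.single (b := (⟨g • C.s, hs⟩ : ↥(C.PV c))) e1.E.symm).tail e2.E
    | refl x => intro hx hy _ _; exact Relation.ReflTransGen.refl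
    | symm x y _ ih =>
      intro hx hy cx cy
      exact symm (ih hy hx cy cx)
    | trans x y z h1 h2 ih1 ih2 =>
      intro hx hz cx cz
      have cy : C.cl y = c := by
        have : C.cl x = C.cl y := Quot.eqvGen_sound h1
        rw [← this, cx]
      exact (ih1 hx (Or.inl cy) cx cy).trans (ih2 (Or.inl cy) hz cy cz)
  have h2 : ∀ x : ↥(C.PV c), ∃ y : ↥(C.PV c), C.cl y = c ∧ Relation.ReflTransGen
      (fun a b : ↥(C.PV c) => K.ar a b ∨ K.ar b a) x y := by
    rintro ⟨x, hx⟩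
    rcases id hx with h | ⟨g, y, e, hy⟩
    · exact ⟨⟨x, hx⟩, h, Relation.ReflTransGen.refl⟩
    · exact ⟨⟨y, Or.inl hy⟩, hy, Relation.ReflTransGen.single e.E⟩
  obtain ⟨x', cx, hx⟩ := h2 x
  obtain ⟨y', cy, hy⟩ := h2 y
  have h3 : Relation.EqvGen C.Rel x' y' := Quot.eqvGen_exact (cx.trans cy.symm)
  exact (hx.trans (h1 _ _ h3 x'.2 y'.2 cx cy)).trans (symm hy)

/-- the translate of a cell, as a walk in the part -/
def cwP (c : C.X) {h : H} {i : K.I} (hh : C.In c h i) : List ↥(C.PV c) :=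
  (K.cw i).attach.map fun y => ⟨h • y.1, hh.2 y.1 y.2⟩

theorem cwP_map (c : C.X) {h : H} {i : K.I} (hh : C.In c h i) :
    (C.cwP c hh).map Subtype.val = (K.cw i).map (fun z => h • z) := by
  unfold cwP
  rw [List.map_map]
  conv_rhs => rw [← List.attach_map_subtype_val (K.cw i)]
  rw [List.map_map]
  rfl

theorem cwP_length (c : C.X) {h : H} {i : K.I} (hh : C.In c h i) :
    (C.cwP c hh).length = (K.cw i).length := by
  unfold cwP
  rw [List.length_map, List.length_attach]

/-- the cells of a part -/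
def IP (c : C.X) : Type := {i : K.I // ∃ h : H, C.In c h i}

/-- the complex of a part -/
noncomputable def part (c : C.X) : GX ↥(stabilizer H c) ↥(C.PV c) where
  ar x y := K.ar x y
  rk x := K.rk x
  I := C.IP c
  finI := by
    have := K.finI
    exact Subtype.finite
  cb i := ⟨i.2.choose • K.cb i.1, i.2.choose_spec.1⟩
  cw i := C.cwP c i.2.choose_spec
  ar_rk _ _ h := K.ar_rk _ _ h
  ar_smul h _ _ e := K.ar_smul (h : H) _ _ e
  rk_smul h v := K.rk_smul (h : H) v
  two v a b d h1 h2 h3 := by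
    rcases K.two _ _ _ _ h1 h2 h3 with h | h | h
    · exact Or.inl (Subtype.ext h)
    · exact Or.inr (Or.inl (Subtype.ext h))
    · exact Or.inr (Or.inr (Subtype.ext h))
  c_E i := by
    have h1 : Wk K.E (i.2.choose • K.cb i.1) ((C.cwP c i.2.choose_spec).map Subtype.val) := by
      rw [cwP_map]
      exact Wk_map (E := K.E) (fun z => i.2.choose • z) (fun x y e => K.E_smul _ e) (K.c_E i.1)
    have h2 : ∀ (x : ↥(C.PV c)) (l : List ↥(C.PV c)), Wk K.E x.1 (l.map Subtype.val) →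
        Wk (fun a b : ↥(C.PV c) => K.ar a b ∨ K.ar b a) x l := by
      intro x l
      induction l generalizing x with
      | nil => intro _; trivial
      | cons y l ih => intro h; exact ⟨h.1, ih y h.2⟩
    exact h2 _ _ h1
  c_tg i := by
    apply Subtype.ext
    rw [← tg_map Subtype.val, cwP_map]
    show tg (i.2.choose • K.cb i.1) _ = i.2.choose • K.cb i.1
    rw [tg_map (fun z => i.2.choose • z), K.c_tg]
  ne := by
    obtain ⟨x, hx⟩ := C.exists_cl c
    exact ⟨⟨x, Or.inl hx⟩⟩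
  conn := C.PV_conn c
  H1 := by
    classical
    intro φ hs hp
    let Φ : V → V → ZMod 2 := fun x y =>
      if h : x ∈ C.PV c ∧ y ∈ C.PV c then φ ⟨x, h.1⟩ ⟨y, h.2⟩ else 0
    have hΦ : ∀ x y : ↥(C.PV c), Φ x y = φ x y := fun x y => dif_pos ⟨x.2, y.2⟩
    have hΦs : ∀ x y, Φ x y = Φ y x := by
      intro x y
      by_cases h : x ∈ C.PV c ∧ y ∈ C.PV c
      · rw [hΦ ⟨x, h.1⟩ ⟨y, h.2⟩, hΦ ⟨y, h.2⟩ ⟨x, h.1⟩, hs]
      · simp only [Φ]
        rw [dif_neg h, dif_neg (fun k => h k.symm)]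
    obtain ⟨g, hg⟩ := K.H1 Φ hΦs (by
      intro i h
      obtain ⟨d, hd⟩ := C.exists_In h i
      have hw : Wk K.E (h • K.cb i) ((K.cw i).map (fun z => h • z)) :=
        Wk_map (E := K.E) (fun z => h • z) (fun x y e => K.E_smul h e) (K.c_E i)
      by_cases hcd : C.In c h i
      · by_cases hl : K.cw i = []
        · rw [hl]; rfl
        · let i' : C.IP c := ⟨i, h, hcd⟩
          have h1 := i'.2.choose_spec
          have h2 := h1.smul (C := C) (h * i'.2.choose⁻¹)
          rw [inv_mul_cancel_right] at h2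
          have h3 : (h * i'.2.choose⁻¹) • c = c := C.In_unique hl h2 hcd
          have h4 := hp i' ⟨h * i'.2.choose⁻¹, h3⟩
          have h5 : (fun x y : ↥(C.PV c) => φ x y)
              = fun x y : ↥(C.PV c) => Φ x.1 y.1 := by
            funext x y; exact (hΦ x y).symm
          have h6 : φ = fun x y : ↥(C.PV c) => Φ x.1 y.1 := h5
          rw [h6, ← ps_map Subtype.val Φ, List.map_map] at h4
          convert h4 using 1
          have e1 : ((⟨h * i'.2.choose⁻¹, h3⟩ : ↥(stabilizer H c)) •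
              (⟨i'.2.choose • K.cb i'.1, i'.2.choose_spec.1⟩ : ↥(C.PV c))).1 = h • K.cb i := by
            rw [coe_smul]
            show (h * i'.2.choose⁻¹) • i'.2.choose • K.cb i = h • K.cb i
            rw [mul_smul, inv_smul_smul]
          have e2 : (C.cwP c i'.2.choose_spec).map (Subtype.val ∘ fun z =>
              (⟨h * i'.2.choose⁻¹, h3⟩ : ↥(stabilizer H c)) • z) = (K.cw i).map (fun z => h • z) := by
            have e3 : (Subtype.val ∘ fun z : ↥(C.PV c) =>
                (⟨h * i'.2.choose⁻¹, h3⟩ : ↥(stabilizer H c)) • z)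
                = (fun z : V => (h * i'.2.choose⁻¹) • z) ∘ Subtype.val := by
              funext z; rfl
            rw [e3, ← List.map_map, cwP_map, List.map_map]
            apply List.map_congr_left
            intro z _
            show (h * i'.2.choose⁻¹) • i'.2.choose • z = h • z
            rw [mul_smul, inv_smul_smul]
          rw [e1, e2]
      · have hPd : ∀ y ∈ (K.cw i).map (fun z => h • z), y ∈ C.PV d := by
          intro y hy
          obtain ⟨z, hz, rfl⟩ := List.mem_map.1 hy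
          exact hd.2 z hz
        apply ps_zero (E := fun a b => K.E a b ∧ a ∈ C.PV d ∧ b ∈ C.PV d) ?_
          (Wk.and (P := fun z => z ∈ C.PV d) hw hd.1 hPd)
        rintro x y ⟨e, hx, hy⟩
        by_cases hxy : x ∈ C.PV c ∧ y ∈ C.PV c
        · exfalso
          have := C.PV_unique e hxy.1 hxy.2 hx hy
          rw [← this] at hd
          exact hcd hd
        · exact dif_neg hxy)
    refine ⟨fun x => g x, fun x y e => ?_⟩
    rw [← hΦ x y]
    exact hg _ _ e
  fin := C.PV_fin c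
  stab := C.PV_stab c

end CutV

end Pool.Agent.DI
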