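import Pool.Agent.DI.LineQ

/-!
# [D0]: nothing is reversed at a sink of type `ℤ`

`zt_fix`: an element of a group of type `ℤ` without fixed point which fixes a point fixes the line.
`SyQ.SinkH.d0`: for the sinks.
-/

namespace Pool.Agent.DI

open MulAction
open Pool.Agent.SAF (InC orbs FinOrb oc Decomp SAn SA Conv hull dist_edge FinOrb_iff exists_next TAct)
open Pool.Agent.SAG (IO Zt)
open Pool.Agent.BT (PX PQ JS bey exits mst Hyp Ell finite_of_hyp mst_conv axis)
open Pool.Agent.BT.TA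

section

variable {H X : Type} [Group H] [MulAction H X] {G : SimpleGraph X}

/-- an element of a group of type `ℤ` without fixed point which fixes a point fixes the line -/
theorem zt_fix (hG : TAct H G) {A : Subgroup H} (hA : InC ↥A) (hn : Hyp X A) (hZ : Zt ↥A) {g : H}
    (hg : g ∈ A) {p : X} (hp : g • p = p) {q : X} (hq : q ∈ mst G A) : g • q = q := by
  obtain ⟨f, hf⟩ := hZ
  -- `g` has finite order
  have h1 : Finite ↥(Subgroup.zpowers g) := by
    apply finite_of_hyp hG hA hn (by rw [Subgroup.zpowers_le]; exact hg) (w := p)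
    rintro b ⟨n, rfl⟩
    exact zpow_smul_eq_iff_minimalPeriod_dvd.2 (by
      rw [Function.minimalPeriod_eq_one_iff_isFixedPt.2 hp]
      exact one_dvd _)
  -- it is in the kernel
  have h2 : (⟨g, hg⟩ : ↥A) ∈ f.ker := by
    obtain ⟨n, hn0, hn1⟩ := (isOfFinOrder_of_finite
      (⟨g, Subgroup.mem_zpowers g⟩ : ↥(Subgroup.zpowers g))).exists_pow_eq_one
    have h3 : g ^ n = 1 := congrArg Subtype.val hn1
    have h4 : (⟨g, hg⟩ : ↥A) ^ n = 1 := Subtype.ext h3
    have h5 : (f ⟨g, hg⟩) ^ n = 1 := by rw [← map_pow, h4, map_one]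
    have h6 := congrArg Multiplicative.toAdd h5
    rw [toAdd_pow, toAdd_one, nsmul_eq_mul] at h6
    rcases mul_eq_zero.1 h6 with h7 | h7
    · exact absurd (by exact_mod_cast h7) hn0.ne'
    · exact h7
  -- the kernel is a finite normal subgroup
  have hB : Finite ↥(f.ker.map A.subtype) := by
    have := hf
    exact Finite.of_equiv _
      (Subgroup.equivMapOfInjective f.ker A.subtype (Subgroup.subtype_injective A)).toEquiv
  refine fix_mst hG hA hn hB ?_ ?_ ⟨⟨g, hg⟩, h2, rfl⟩ hq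
  · rintro _ ⟨b, -, rfl⟩
    exact b.2
  · rintro a ha _ ⟨b, hb, rfl⟩
    refine ⟨(⟨a, ha⟩ : ↥A)⁻¹ * b * ⟨a, ha⟩, ?_, rfl⟩
    have := f.normal_ker.conj_mem b hb (⟨a, ha⟩ : ↥A)⁻¹
    rwa [inv_inv] at this

end

namespace SyQ

variable {H V : Type} [Group H] [MulAction H V] {S : SyQ H V}

/-- [D0]: an element of the group of a sink which is not of type `D_inf` and fixes a point of the sink
fixes all its points -/
theorem SinkH.d0 (hS : S.SinkH) {y : V} (hy : ∀ a, ¬ S.K.ar y a) (hD : ¬ DT (stabilizer H y))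
    {g : H} (hg : g • y = y) {p q : S.X} (hp : p ∈ S.J y) (hgp : g • p = p) (hq : q ∈ S.J y) :
    g • q = q := by
  rcases hS.ty y hy with ⟨r, hr⟩ | ⟨h1, h2, h3 | ⟨-, h4⟩⟩
  · rw [hr] at hp hq
    rw [Set.mem_singleton_iff.1 hq, ← Set.mem_singleton_iff.1 hp]
    exact hgp
  · exact absurd h3 hD
  · rw [h2] at hq
    exact zt_fix S.D.tact (S.K.stab y) h1 h4 hg hgp hq

end SyQ

end Pool.Agent.DI
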