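import Pool.Agent.SAG.AG

/-!
# Groups of `D_inf` type and their lines

`DL J`: an action of `J` on the integers by `n ↦ ε g * n + 2 * τ g` with finite kernel which contains
reflections in `0` and in `1`. Places = integers, classes = parity of the places.
-/

namespace Pool.Agent.DI

open Pool.Agent.SAF (InC)
open Pool.Agent.SAG (IO Zt)

/-! ### preliminaries -/

/-- powers of an element of infinite order are different -/
theorem io_zpow_inj {A : Type} [Group A] {t : A} (ht : IO t) {i j : ℤ} (h : t ^ i = t ^ j) :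
    i = j := by
  by_contra hne
  have h1 : t ^ (i - j) = 1 := by rw [zpow_sub, h, mul_inv_cancel]
  have h2 : t ^ (i - j).natAbs = 1 := by
    rcases Int.natAbs_eq (i - j) with e | e
    · rw [← zpow_natCast, ← e]
      exact h1
    · have e' : ((i - j).natAbs : ℤ) = -(i - j) := by omega
      rw [← zpow_natCast, e', zpow_neg, h1, inv_one]
  exact ht _ (by omega) h2

/-- a nontrivial homomorphism to the integers can be made surjective with the same kernel -/
theorem surj_of_ne {A : Type} [Group A] (F : A →* Multiplicative ℤ) {a : A} (ha : F a ≠ 1) :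
    ∃ f : A →* Multiplicative ℤ, Function.Surjective f ∧ f.ker = F.ker := by
  obtain ⟨φ, hφ⟩ : ∃ φ : A → ℤ, ∀ x, φ x = Multiplicative.toAdd (F x) := ⟨_, fun _ => rfl⟩
  have hmul : ∀ x y, φ (x * y) = φ x + φ y := by
    intro x y; rw [hφ, hφ, hφ, map_mul, toAdd_mul]
  have hone : φ 1 = 0 := by rw [hφ, map_one, toAdd_one]
  have hinv : ∀ x, φ x⁻¹ = - φ x := by
    intro x
    have := hmul x x⁻¹
    rw [mul_inv_cancel, hone] at this
    omega
  let R : AddSubgroup ℤ :=
    { carrier := {n | ∃ x, φ x = n}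
      add_mem' := by
        rintro _ _ ⟨x, rfl⟩ ⟨y, rfl⟩
        exact ⟨x * y, hmul x y⟩
      zero_mem' := ⟨1, hone⟩
      neg_mem' := by
        rintro _ ⟨x, rfl⟩
        exact ⟨x⁻¹, hinv x⟩ }
  obtain ⟨c, hc⟩ := Int.subgroup_cyclic R
  have hdiv : ∀ x : A, c ∣ φ x := by
    intro x
    have h1 : φ x ∈ R := ⟨x, rfl⟩
    rw [hc, AddSubgroup.mem_closure_singleton] at h1
    obtain ⟨n, hn⟩ := h1
    exact ⟨n, by rw [← hn, smul_eq_mul, mul_comm]⟩
  have hc0 : c ≠ 0 := by
    rintro rfl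
    apply ha
    have := zero_dvd_iff.1 (hdiv a)
    rw [hφ] at this
    exact Multiplicative.toAdd.injective this
  obtain ⟨u, hu⟩ : ∃ u : A, φ u = c := by
    have h1 : c ∈ R := by
      rw [hc]
      exact AddSubgroup.mem_closure_singleton.2 ⟨1, one_smul _ _⟩
    exact h1
  refine ⟨{ toFun := fun x => Multiplicative.ofAdd (φ x / c)
            map_one' := ?_
            map_mul' := ?_ }, ?_, ?_⟩
  · rw [hone, Int.zero_ediv]; rfl
  · intro x y
    rw [hmul, Int.add_ediv_of_dvd_left (hdiv x)]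
    rfl
  · intro n
    refine ⟨u ^ Multiplicative.toAdd n, ?_⟩
    show Multiplicative.ofAdd (φ (u ^ Multiplicative.toAdd n) / c) = n
    rw [hφ, map_zpow, toAdd_zpow, ← hφ, hu, smul_eq_mul, Int.mul_ediv_cancel _ hc0]
    rfl
  · ext x
    rw [MonoidHom.mem_ker, MonoidHom.mem_ker]
    show Multiplicative.ofAdd (φ x / c) = 1 ↔ _
    constructor
    · intro h
      have h1 : φ x / c = 0 := h
      have h2 := Int.ediv_mul_cancel (hdiv x)
      rw [h1, zero_mul, hφ] at h2
      exact Multiplicative.toAdd.injective h2.symm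
    · intro h
      rw [hφ, h, toAdd_one, Int.zero_ediv]
      rfl

/-- a central cyclic subgroup of finite index: finite-by-(infinite cyclic) -/
theorem hom_of_central {A : Type} [Group A] {t : A} (ht : IO t) (hc : ∀ b, b * t = t * b)
    (hf : (Subgroup.zpowers t).FiniteIndex) :
    ∃ f : A →* Multiplicative ℤ, Function.Surjective f ∧ Finite f.ker := by
  have hcf : (Subgroup.center A).FiniteIndex := by
    apply Subgroup.finiteIndex_of_le (H := Subgroup.zpowers t)
    rw [Subgroup.zpowers_le, Subgroup.mem_center_iff]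
    exact hc
  obtain ⟨f, hfe⟩ : ∃ f : A →* A, ∀ a, f a =
      (a ^ (Subgroup.center A).index) ^ (Subgroup.zpowers t).index.factorial := by
    refine ⟨{ toFun := fun a => ((MonoidHom.transferCenterPow A a : Subgroup.center A) : A) ^
                (Subgroup.zpowers t).index.factorial
              map_one' := by simp
              map_mul' := ?_ }, ?_⟩
    · intro a b
      rw [map_mul, Subgroup.coe_mul, Commute.mul_pow]
      exact ((Subgroup.mem_center_iff.1 (MonoidHom.transferCenterPow A b).2) _)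
    · intro a
      show ((MonoidHom.transferCenterPow A a : Subgroup.center A) : A) ^
        (Subgroup.zpowers t).index.factorial = _
      rw [MonoidHom.transferCenterPow_apply]
  have hfN : ∀ a, f a ∈ Subgroup.zpowers t := by
    intro a
    rw [hfe]
    obtain ⟨k, hk, hk1, hk2⟩ := Subgroup.exists_pow_mem_of_index_ne_zero hf.index_ne_zero
      (a ^ (Subgroup.center A).index)
    obtain ⟨m, hm⟩ := Nat.dvd_factorial hk hk1
    rw [hm, pow_mul]
    exact Subgroup.pow_mem _ hk2 _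
  have hgen : ∀ x ∈ Subgroup.zpowers t, ∃ k : ℤ, t ^ k = x := fun x hx =>
    Subgroup.mem_zpowers_iff.1 hx
  have hinj : Function.Injective (zpowersHom A t) := by
    intro i j hij
    have h1 : t ^ (Multiplicative.toAdd i) = t ^ (Multiplicative.toAdd j) := hij
    exact Multiplicative.toAdd.injective (io_zpow_inj ht h1)
  let e := MonoidHom.ofInjective hinj
  have hfr : ∀ a, f a ∈ (zpowersHom A t).range := by
    intro a
    obtain ⟨k, hk⟩ := hgen _ (hfN a)
    exact ⟨Multiplicative.ofAdd k, by simpa [zpowersHom_apply] using hk⟩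
  let F : A →* Multiplicative ℤ := e.symm.toMonoidHom.comp (f.codRestrict _ hfr)
  have hker : ∀ a ∈ F.ker, f a = 1 := by
    intro a ha
    have h1 : e.symm (f.codRestrict _ hfr a) = 1 := ha
    have h2 : f.codRestrict _ hfr a = 1 := by
      have := congrArg e h1
      rwa [MulEquiv.apply_symm_apply, map_one] at this
    exact congrArg Subtype.val h2
  have h0 : (Subgroup.center A).index * (Subgroup.zpowers t).index.factorial ≠ 0 :=
    mul_ne_zero hcf.index_ne_zero (Nat.factorial_ne_zero _)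
  have hker0 : ∀ k : ℤ, t ^ k ∈ F.ker → k = 0 := by
    intro k hk
    have h3 := hker _ hk
    rw [hfe, ← pow_mul, ← zpow_natCast, ← zpow_mul, ← zpow_zero t] at h3
    have h4 := io_zpow_inj ht h3
    rcases mul_eq_zero.1 h4 with h | h
    · exact h
    · exact absurd (by exact_mod_cast h) h0
  have hFf : Finite F.ker := by
    have hfq : Finite (A ⧸ Subgroup.zpowers t) := Subgroup.finite_quotient_of_finiteIndex
    refine Finite.of_injective (fun a : ↥F.ker => (a.1 : A ⧸ Subgroup.zpowers t)) ?_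
    intro a b hab
    have h1 : a.1⁻¹ * b.1 ∈ Subgroup.zpowers t := QuotientGroup.eq.1 hab
    have h2 : a.1⁻¹ * b.1 ∈ F.ker := F.ker.mul_mem (F.ker.inv_mem a.2) b.2
    obtain ⟨k, hk⟩ := hgen _ h1
    rw [← hk] at h2
    rw [hker0 k h2, zpow_zero] at hk
    exact Subtype.ext (inv_mul_eq_one.1 hk.symm)
  have hne : F t ≠ 1 := by
    intro h
    have := hker0 1 (by rw [zpow_one]; exact h)
    omega
  obtain ⟨f', h1, h2⟩ := surj_of_ne F hne
  exact ⟨f', h1, by rw [h2]; exact hFf⟩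

/-! ### lines -/

/-- an action on the integers by `n ↦ ε g * n + 2 * τ g`, with finite kernel, with reflections in
`0` and `1` -/
structure DL (J : Type) [Group J] where
  ε : J →* ℤˣ
  τ : J → ℤ
  τ_mul : ∀ g h, τ (g * h) = τ g + ε g * τ h
  fin : Set.Finite {g : J | ε g = 1 ∧ τ g = 0}
  s0 : ∃ g, ε g = -1 ∧ τ g = 0
  s1 : ∃ g, ε g = -1 ∧ τ g = 1

section exist

variable {J : Type} [Group J]

private theorem exists_gen (g : J) (hg : IO g) (hfi : (Subgroup.zpowers g).FiniteIndex) :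
    ∃ t : J, IO t ∧ (Subgroup.zpowers t).FiniteIndex ∧
      ∀ b : J, b * t * b⁻¹ = t ∨ b * t * b⁻¹ = t⁻¹ := by
  obtain ⟨N, hNdef⟩ : ∃ N : Subgroup J, N = (Subgroup.zpowers g).normalCore := ⟨_, rfl⟩
  have hNn : N.Normal := by rw [hNdef]; infer_instance
  have hNf : N.FiniteIndex := by rw [hNdef]; infer_instance
  have hNle : N ≤ Subgroup.zpowers g := by rw [hNdef]; exact Subgroup.normalCore_le _
  have hcyc : IsCyclic ↥N :=
    isCyclic_of_injective (Subgroup.inclusion hNle) (Subgroup.inclusion_injective hNle)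
  obtain ⟨t, ht⟩ := hcyc.exists_generator
  have hgen : ∀ x ∈ N, ∃ k : ℤ, (t : J) ^ k = x := by
    intro x hx
    obtain ⟨k, hk⟩ := Subgroup.mem_zpowers_iff.1 (ht ⟨x, hx⟩)
    exact ⟨k, by simpa using congrArg Subtype.val hk⟩
  have htio : IO (t : J) := by
    intro n hn e
    have h1 : g ^ N.index ∈ N := N.pow_index_mem g
    obtain ⟨k, hk⟩ := hgen _ h1
    have hidx : 0 < N.index := Nat.pos_of_ne_zero hNf.index_ne_zero
    apply hg (N.index * n) (Nat.mul_pos hidx hn)
    rw [pow_mul, ← hk, ← zpow_natCast, ← zpow_mul, mul_comm, zpow_mul, zpow_natCast, e,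
      one_zpow]
  refine ⟨t, htio, ?_, ?_⟩
  · have e : N = Subgroup.zpowers (t : J) := by
      apply le_antisymm
      · intro x hx
        exact Subgroup.mem_zpowers_iff.2 (hgen x hx)
      · rw [Subgroup.zpowers_le]
        exact t.2
    rw [← e]
    exact hNf
  · intro b
    obtain ⟨k, hk⟩ := hgen _ (hNn.conj_mem _ t.2 b)
    obtain ⟨l, hl⟩ := hgen _ (hNn.conj_mem _ t.2 b⁻¹)
    rw [inv_inv] at hl
    have h1 : (t : J) ^ (k * l) = (t : J) ^ (1 : ℤ) := by
      rw [zpow_mul, hk, conj_zpow, hl, zpow_one]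
      group
    have h2 : k * l = 1 := io_zpow_inj htio h1
    rcases Int.eq_one_or_neg_one_of_mul_eq_one h2 with e | e
    · left
      rw [← hk, e, zpow_one]
    · right
      rw [← hk, e, zpow_neg, zpow_one]

private theorem exists_eps (t : J) (ht : IO t)
    (hc : ∀ b : J, b * t * b⁻¹ = t ∨ b * t * b⁻¹ = t⁻¹) :
    ∃ ε : J →* ℤˣ, (∀ b, ε b = 1 → b * t * b⁻¹ = t) ∧ ∀ b, ε b ≠ 1 → b * t * b⁻¹ = t⁻¹ := by
  classical
  have hne : t ≠ t⁻¹ := by
    intro e
    have h1 : t ^ (1 : ℤ) = t ^ (-1 : ℤ) := by rw [zpow_one, zpow_neg, zpow_one]; exact e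
    have := io_zpow_inj ht h1
    omega
  obtain ⟨s, hs1, hs2⟩ : ∃ s : J → ℤˣ, (∀ b, b * t * b⁻¹ = t → s b = 1) ∧
      ∀ b, b * t * b⁻¹ = t⁻¹ → s b = -1 := by
    refine ⟨fun b => if b * t * b⁻¹ = t then 1 else -1, ?_, ?_⟩
    · intro b hb
      exact if_pos hb
    · intro b hb
      apply if_neg
      rw [hb]
      exact hne.symm
  refine ⟨{ toFun := s
            map_one' := hs1 1 (by group)
            map_mul' := ?_ }, ?_, ?_⟩
  · intro a b
    have e1 : a * b * t * (a * b)⁻¹ = a * (b * t * b⁻¹) * a⁻¹ := by group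
    have e2 : a * t⁻¹ * a⁻¹ = (a * t * a⁻¹)⁻¹ := by group
    rcases hc a with ha | ha <;> rcases hc b with hb | hb
    · rw [hs1 a ha, hs1 b hb, hs1 (a * b) (by rw [e1, hb, ha]), mul_one]
    · rw [hs1 a ha, hs2 b hb, hs2 (a * b) (by rw [e1, hb, e2, ha]), one_mul]
    · rw [hs2 a ha, hs1 b hb, hs2 (a * b) (by rw [e1, hb, ha]), mul_one]
    · rw [hs2 a ha, hs2 b hb, hs1 (a * b) (by rw [e1, hb, e2, ha, inv_inv])]
      decide
  · intro b hb
    refine (hc b).resolve_right fun h => ?_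
    have h1 := hs2 b h
    have h2 : s b = 1 := hb
    rw [h1] at h2
    exact absurd h2 (by decide)
  · intro b hb
    exact (hc b).resolve_left fun h => hb (hs1 b h)

/-- a two-ended group which is not finite-by-(infinite cyclic) has a line -/
theorem exists_DL (hJ : InC J) (hinf : Infinite J) (hZ : ¬ Zt J) : Nonempty (DL J) := by
  rcases hJ with hf | ⟨g, hg, hfi⟩
  · exact absurd hf (not_finite_iff_infinite.2 hinf)
  obtain ⟨t, ht, htf, hc⟩ := exists_gen g hg hfi
  obtain ⟨ε, h1, h2⟩ := exists_eps t ht hc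
  have hεt : ε t = 1 := by
    by_contra h
    have h3 := h2 t h
    have h4 : t ^ (1 : ℤ) = t ^ (-1 : ℤ) := by
      rw [zpow_one, zpow_neg, zpow_one, ← h3]; group
    have := io_zpow_inj ht h4
    omega
  obtain ⟨r, hr⟩ : ∃ r, ε r ≠ 1 := by
    by_contra hcon
    push Not at hcon
    obtain ⟨f, -, hf⟩ := hom_of_central ht (fun b => by
      have := h1 b (hcon b)
      calc b * t = b * t * b⁻¹ * b := by group
        _ = t * b := by rw [this]) htf
    exact hZ ⟨f, hf⟩
  have hpm : ∀ b, ε b = 1 ∨ ε b = -1 := fun b => Int.units_eq_one_or _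
  have hr' : ε r = -1 := (hpm r).resolve_left hr
  -- the homomorphism on the kernel
  obtain ⟨f, hfs, hff⟩ : ∃ f : ε.ker →* Multiplicative ℤ, Function.Surjective f ∧
      Finite f.ker := by
    have ht' : t ∈ ε.ker := hεt
    refine hom_of_central (t := (⟨t, ht'⟩ : ε.ker)) ?_ ?_ ?_
    · intro n hn e
      exact ht n hn (by simpa using congrArg Subtype.val e)
    · intro b
      apply Subtype.ext
      have := h1 b.1 b.2
      show b.1 * t = t * b.1
      calc b.1 * t = b.1 * t * (b.1)⁻¹ * b.1 := by group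
        _ = t * b.1 := by rw [this]
    · have : (Subgroup.zpowers t).subgroupOf ε.ker = Subgroup.zpowers (⟨t, ht'⟩ : ε.ker) := by
        ext x
        rw [Subgroup.mem_subgroupOf, Subgroup.mem_zpowers_iff, Subgroup.mem_zpowers_iff]
        constructor
        · rintro ⟨k, hk⟩
          exact ⟨k, Subtype.ext (by simpa using hk)⟩
        · rintro ⟨k, hk⟩
          exact ⟨k, by rw [← hk]; simp⟩
      rw [← this]
      infer_instance
  have hcj : ∀ x : ε.ker, ε (r * x.1 * r⁻¹) = 1 := by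
    intro x
    rw [map_mul, map_mul, map_inv, MonoidHom.mem_ker.1 x.2, mul_one, mul_inv_cancel]
  let c : ε.ker →* ε.ker :=
    { toFun := fun x => ⟨r * x.1 * r⁻¹, hcj x⟩
      map_one' := Subtype.ext (by show r * 1 * r⁻¹ = 1; group)
      map_mul' := fun x y => Subtype.ext (by
        show r * (x.1 * y.1) * r⁻¹ = r * x.1 * r⁻¹ * (r * y.1 * r⁻¹); group) }
  have hker : ∀ x ∈ f.ker, f (c x) = 1 := by
    intro x hx
    have h3 : (⟨x, hx⟩ : f.ker) ^ Nat.card f.ker = 1 := pow_card_eq_one'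
    have h4 : x ^ Nat.card f.ker = 1 := by simpa using congrArg Subtype.val h3
    have h5 : f (c x) ^ Nat.card f.ker = 1 := by rw [← map_pow, ← map_pow, h4, map_one, map_one]
    have h6 : (Nat.card f.ker : ℤ) * Multiplicative.toAdd (f (c x)) = 0 := by
      have := congrArg Multiplicative.toAdd h5
      rw [toAdd_pow, nsmul_eq_mul, toAdd_one] at this
      exact this
    rcases mul_eq_zero.1 h6 with h | h
    · have : 0 < Nat.card f.ker := Nat.card_pos
      exact absurd (by exact_mod_cast h) this.ne'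
    · exact Multiplicative.toAdd.injective (by rw [h, toAdd_one])
  obtain ⟨φ, hφ⟩ : ∃ φ : ε.ker → ℤ, ∀ x, φ x = Multiplicative.toAdd (f x) := ⟨_, fun _ => rfl⟩
  have φmul : ∀ x y, φ (x * y) = φ x + φ y := by
    intro x y; rw [hφ, hφ, hφ, map_mul, toAdd_mul]
  obtain ⟨x1, hx1⟩ : ∃ x1, φ x1 = 1 := by
    obtain ⟨x1, h⟩ := hfs (Multiplicative.ofAdd 1)
    exact ⟨x1, by rw [hφ, h, toAdd_ofAdd]⟩
  have hlin : ∀ x, φ (c x) = φ (c x1) * φ x := by
    intro x
    have h3 : x * x1 ^ (-(φ x)) ∈ f.ker := by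
      rw [MonoidHom.mem_ker]
      apply Multiplicative.toAdd.injective
      rw [map_mul, toAdd_mul, map_zpow, toAdd_zpow, ← hφ, ← hφ, hx1, toAdd_one, smul_eq_mul]
      ring
    have h4 := hker _ h3
    have h5 := congrArg Multiplicative.toAdd h4
    rw [map_mul, map_mul, map_zpow, map_zpow, toAdd_mul, toAdd_zpow, ← hφ, ← hφ, toAdd_one,
      smul_eq_mul] at h5
    linarith
  have hcx1 : φ (c x1) = -1 := by
    have ht' : t ∈ ε.ker := hεt
    have e1 : c ⟨t, ht'⟩ = (⟨t, ht'⟩ : ε.ker)⁻¹ := Subtype.ext (h2 r hr)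
    have e2 := hlin ⟨t, ht'⟩
    have e3 : φ (⟨t, ht'⟩ : ε.ker)⁻¹ = - φ ⟨t, ht'⟩ := by
      rw [hφ, hφ, map_inv, toAdd_inv]
    rw [e1, e3] at e2
    have e4 : φ ⟨t, ht'⟩ ≠ 0 := by
      intro h
      have h3 : (⟨t, ht'⟩ : ε.ker) ∈ f.ker := by
        rw [MonoidHom.mem_ker]
        apply Multiplicative.toAdd.injective
        rw [← hφ, h, toAdd_one]
      have h4 : (⟨⟨t, ht'⟩, h3⟩ : f.ker) ^ Nat.card f.ker = 1 := pow_card_eq_one'
      apply ht (Nat.card f.ker) Nat.card_pos
      have := congrArg (fun z : f.ker => ((z : ε.ker) : J)) h4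
      simpa using this
    have e5 : (φ (c x1) + 1) * φ ⟨t, ht'⟩ = 0 := by linarith
    rcases mul_eq_zero.1 e5 with h | h
    · linarith
    · exact absurd h e4
  have hneg : ∀ x, φ (c x) = - φ x := by
    intro x; rw [hlin, hcx1]; ring
  have hr2 : ε (r * r) = 1 := by rw [map_mul, hr', neg_mul_neg, mul_one]
  have hφr2 : φ ⟨r * r, hr2⟩ = 0 := by
    have h3 := hneg ⟨r * r, hr2⟩
    have h4 : c ⟨r * r, hr2⟩ = ⟨r * r, hr2⟩ := Subtype.ext (by
      show r * (r * r) * r⁻¹ = r * r; group)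
    rw [h4] at h3
    omega
  have hm : ∀ g, ε g = -1 → ε (g * r⁻¹) = 1 := by
    intro g hg
    rw [map_mul, map_inv, hg, hr']
    decide
  classical
  obtain ⟨τ, hτ1, hτ2⟩ : ∃ τ : J → ℤ, (∀ g (h : ε g = 1), τ g = φ ⟨g, h⟩) ∧
      ∀ g (h : ε g = -1), τ g = φ ⟨g * r⁻¹, hm g h⟩ := by
    refine ⟨fun g => if h : ε g = 1 then φ ⟨g, h⟩ else φ ⟨g * r⁻¹, hm g ((hpm g).resolve_left h)⟩,
      ?_, ?_⟩
    · intro g h
      show dite _ _ _ = _
      rw [dif_pos h]
    · intro g h
      show dite _ _ _ = _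
      rw [dif_neg (by rw [h]; decide)]
  refine ⟨{ ε := ε, τ := τ, τ_mul := ?_, fin := ?_, s0 := ?_, s1 := ?_ }⟩
  · intro a b
    rcases hpm a with ha | ha <;> rcases hpm b with hb | hb
    · have hab : ε (a * b) = 1 := by rw [map_mul, ha, hb, mul_one]
      rw [hτ1 _ hab, hτ1 _ ha, hτ1 _ hb, ha]
      have : (⟨a * b, hab⟩ : ε.ker) = ⟨a, ha⟩ * ⟨b, hb⟩ := rfl
      rw [this, φmul]
      simp
    · have hab : ε (a * b) = -1 := by rw [map_mul, ha, hb, one_mul]
      rw [hτ2 _ hab, hτ1 _ ha, hτ2 _ hb, ha]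
      have : (⟨a * b * r⁻¹, hm _ hab⟩ : ε.ker) = ⟨a, ha⟩ * ⟨b * r⁻¹, hm _ hb⟩ :=
        Subtype.ext (mul_assoc _ _ _)
      rw [this, φmul]
      simp
    · have hab : ε (a * b) = -1 := by rw [map_mul, ha, hb, mul_one]
      rw [hτ2 _ hab, hτ2 _ ha, hτ1 _ hb, ha]
      have : (⟨a * b * r⁻¹, hm _ hab⟩ : ε.ker) = ⟨a * r⁻¹, hm _ ha⟩ * c ⟨b, hb⟩ := by
        apply Subtype.ext
        show a * b * r⁻¹ = a * r⁻¹ * (r * b * r⁻¹)
        group
      rw [this, φmul, hneg]
      simp
    · have hab : ε (a * b) = 1 := by rw [map_mul, ha, hb, neg_mul_neg, mul_one]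
      rw [hτ1 _ hab, hτ2 _ ha, hτ2 _ hb, ha]
      have : (⟨a * b, hab⟩ : ε.ker) = ⟨a * r⁻¹, hm _ ha⟩ * c ⟨b * r⁻¹, hm _ hb⟩ *
          ⟨r * r, hr2⟩ := by
        apply Subtype.ext
        show a * b = a * r⁻¹ * (r * (b * r⁻¹) * r⁻¹) * (r * r)
        group
      rw [this, φmul, φmul, hneg, hφr2]
      simp
  · have : {g : J | ε g = 1 ∧ τ g = 0} ⊆ (fun x : f.ker => ((x : ε.ker) : J)) '' Set.univ := by
      rintro g ⟨h3, h4⟩
      rw [hτ1 _ h3, hφ] at h4
      refine ⟨⟨⟨g, h3⟩, ?_⟩, trivial, rfl⟩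
      rw [MonoidHom.mem_ker]
      exact Multiplicative.toAdd.injective (by rw [h4, toAdd_one])
    exact (Set.finite_univ.image _).subset this
  · refine ⟨r, hr', ?_⟩
    rw [hτ2 _ hr']
    have : (⟨r * r⁻¹, hm _ hr'⟩ : ε.ker) = 1 := Subtype.ext (mul_inv_cancel r)
    rw [this, hφ, map_one, toAdd_one]
  · have h3 : ε (x1.1 * r) = -1 := by
      rw [map_mul, MonoidHom.mem_ker.1 x1.2, hr', one_mul]
    refine ⟨x1.1 * r, h3, ?_⟩
    rw [hτ2 _ h3]
    have : (⟨x1.1 * r * r⁻¹, hm _ h3⟩ : ε.ker) = x1 := Subtype.ext (mul_inv_cancel_right _ _)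
    rw [this, hx1]

end exist

end Pool.Agent.DI
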