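import Pool.Agent.BT.Ax
import Pool.Agent.BT.Proj

/-!
# Trees: geodesics, fixed points in invariant subtrees
-/

namespace Pool.Agent.DI

open MulAction
open Pool.Agent.SAF (InC TAct Conv hull exists_next subset_hull hull_conv fix_of_finite_inv dist_edge)
open Pool.Agent.BT (side_or dist_cross conv_side exists_proj)

section

variable {X : Type} {G : SimpleGraph X}

/-- a point of a segment divides it -/
theorem seg_split (hG : G.IsTree) {a b c w : X} (hb : G.dist a b + G.dist b c = G.dist a c)
    (hw : G.dist a w + G.dist w c = G.dist a c) :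
    G.dist a w + G.dist w b = G.dist a b ∨ G.dist b w + G.dist w c = G.dist b c := by
  by_cases hbw : b = w
  · subst hbw
    right
    rw [SimpleGraph.dist_self, zero_add]
  obtain ⟨c', hc', hd⟩ := exists_next hG hbw
  have hw' : G.dist w b = G.dist w c' + 1 := by
    rw [SimpleGraph.dist_comm, hd, SimpleGraph.dist_comm]
  have e1 : G.dist b w = G.dist w b := SimpleGraph.dist_comm
  have e2 : G.dist w c = G.dist c w := SimpleGraph.dist_comm
  have e3 : G.dist b c = G.dist c b := SimpleGraph.dist_comm
  have e4 : G.dist c' w = G.dist w c' := SimpleGraph.dist_comm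
  have ebc : G.dist b c' = 1 := SimpleGraph.dist_eq_one_iff_adj.2 hc'
  -- not both `a` and `c` are behind `c'`
  rcases side_or hG hc' a with ha | ha
  · rcases side_or hG hc' c with hc | hc
    · exfalso
      have t1 : G.dist a c ≤ G.dist a c' + G.dist c' c := hG.connected.dist_triangle
      have e5 : G.dist c' c = G.dist c c' := SimpleGraph.dist_comm
      omega
    · -- `c` on the side of `b`, `w` on the side of `c'`
      left
      have h1 := dist_cross hG hc' hc hw'
      -- dist c w = dist c b + 1 + dist c' w
      omega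
  · right
    have h1 := dist_cross hG hc' ha hw'
    omega

/-- concatenation of geodesics with a common piece -/
theorem seg_concat (hG : G.IsTree) {a b c e : X} (hbc : b ≠ c)
    (h1 : G.dist a c = G.dist a b + G.dist b c) (h2 : G.dist b e = G.dist b c + G.dist c e) :
    G.dist a e = G.dist a c + G.dist c e := by
  obtain ⟨p, hp, dp⟩ := exists_next hG hbc.symm
  -- `p` is the neighbour of `c` towards `b`
  have e1 : G.dist b c = G.dist c b := SimpleGraph.dist_comm
  have e2 : G.dist c e = G.dist e c := SimpleGraph.dist_comm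
  have e3 : G.dist b e = G.dist e b := SimpleGraph.dist_comm
  have e4 : G.dist p b = G.dist b p := SimpleGraph.dist_comm
  have e5 : G.dist p e = G.dist e p := SimpleGraph.dist_comm
  have e6 : G.dist a c = G.dist c a := SimpleGraph.dist_comm
  have e7 : G.dist a e = G.dist e a := SimpleGraph.dist_comm
  have t1 : G.dist b e ≤ G.dist b p + G.dist p e := hG.connected.dist_triangle
  have he : G.dist e p = G.dist e c + 1 := by
    rcases side_or hG hp e with h | h
    · exfalso; omega
    · exact h
  have t2 : G.dist a p ≤ G.dist a b + G.dist b p := hG.connected.dist_triangle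
  have ha : G.dist a c = G.dist a p + 1 := by
    rcases side_or hG hp a with h | h
    · exact h
    · exfalso; omega
  have h3 := dist_cross hG hp he ha
  have e8 : G.dist p a = G.dist a p := SimpleGraph.dist_comm
  omega

/-- two segments which meet only in `b`: distances add up -/
theorem Conv.nbr (hG : G.IsTree) {C : Set X} (hC : Conv G C) {u v : X} (hu : u ∈ C) (hv : v ∈ C)
    (hne : u ≠ v) : ∃ u' ∈ C, G.Adj u u' ∧ G.dist u v = G.dist u' v + 1 := by
  obtain ⟨u', h1, h2⟩ := exists_next hG hne
  refine ⟨u', hC u hu v hv u' ?_, h1, h2⟩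
  have : G.dist u u' = 1 := SimpleGraph.dist_eq_one_iff_adj.2 h1
  omega

/-- the next vertex is unique -/
theorem next_unique (hG : G.IsTree) {w c d b : X} (hc : G.Adj w c) (hd : G.Adj w d)
    (h1 : G.dist w b = G.dist c b + 1) (h2 : G.dist w b = G.dist d b + 1) : c = d := by
  by_contra hne
  have e1 : G.dist w b = G.dist b w := SimpleGraph.dist_comm
  have e2 : G.dist c b = G.dist b c := SimpleGraph.dist_comm
  have e3 : G.dist d b = G.dist b d := SimpleGraph.dist_comm
  have hdw : G.dist d w = 1 := SimpleGraph.dist_eq_one_iff_adj.2 hd.symm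
  have hwc : G.dist w c = 1 := SimpleGraph.dist_eq_one_iff_adj.2 hc
  -- `d` is on the side of `w` of the edge `w c`
  have h3 : G.dist d c = G.dist d w + 1 := by
    rcases side_or hG hc d with h | h
    · exfalso
      have h4 : G.dist d c = 0 := by omega
      exact hne (hG.connected.dist_eq_zero_iff.1 h4).symm
    · exact h
  have h5 := dist_cross hG hc h3 (by omega : G.dist b w = G.dist b c + 1)
  have e4 : G.dist c b = G.dist b c := SimpleGraph.dist_comm
  omega

end

section act

variable {H X : Type} [Group H] [MulAction H X] {G : SimpleGraph X}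

/-- elements which fix a point and leave a subtree invariant fix the projection -/
theorem fix_proj (hG : TAct H G) {C : Set X} {x p : X}
    (hpr : ∀ c ∈ C, G.dist x c = G.dist x p + G.dist p c) {b : H} (hb : b • x = x)
    (hinv : b • p ∈ C) : b • p = p := by
  have h1 := hpr _ hinv
  have h2 : G.dist x (b • p) = G.dist x p := by
    conv_lhs => rw [← hb]
    exact hG.dist_smul b x p
  have h3 : G.dist p (b • p) = 0 := by omega
  exact (hG.tree.connected.dist_eq_zero_iff.1 h3).symm

/-- a finite group which leaves a subtree invariant fixes a point of it -/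
theorem fix_in (hG : TAct H G) {C : Set X} (hC : Conv G C) (hne : C.Nonempty) {B : Subgroup H}
    (hB : Finite ↥B) (hinv : ∀ b ∈ B, ∀ c ∈ C, b • c ∈ C) : ∃ c ∈ C, ∀ b ∈ B, b • c = c := by
  obtain ⟨c0, hc0⟩ := hne
  obtain ⟨x, hx⟩ := fix_of_finite_inv hG {y | ∃ b ∈ B, y = b • c0}
    (by
      apply (Set.finite_range (fun b : B => (b : H) • c0)).subset
      rintro _ ⟨b, hb, rfl⟩
      exact ⟨⟨b, hb⟩, rfl⟩)
    ⟨c0, 1, B.one_mem, (one_smul _ _).symm⟩
  obtain ⟨p, ⟨hp, hpr⟩, -⟩ := exists_proj hG.tree hC ⟨c0, hc0⟩ x
  refine ⟨p, hp, fun b hb => fix_proj hG hpr (hx b ?_) (hinv b hb p hp)⟩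
  rintro _ ⟨b', hb', rfl⟩
  exact ⟨b * b', B.mul_mem hb hb', (mul_smul _ _ _).symm⟩

theorem fix_conv (hG : TAct H G) (B : Set H) : Conv G {x : X | ∀ b ∈ B, b • x = x} := by
  intro x hx y hy w hw b hb
  -- uniqueness of the point at given distances
  have h1 : G.dist x (b • w) = G.dist x w := by
    conv_lhs => rw [← hx b hb]
    exact hG.dist_smul b x w
  have h2 : G.dist (b • w) y = G.dist w y := by
    conv_lhs => rw [← hy b hb]
    exact hG.dist_smul b w y
  rcases seg_split hG.tree hw (w := b • w) (by omega) with h3 | h3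
  · have h4 : G.dist (b • w) w = 0 := by omega
    exact hG.tree.connected.dist_eq_zero_iff.1 h4
  · have h4 : G.dist w (b • w) = 0 := by omega
    exact (hG.tree.connected.dist_eq_zero_iff.1 h4).symm

end act

end Pool.Agent.DI
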