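import Pool.Agent.DI.OERelB

/-!
# DI/OEConn: the blown-up system, made connected

`next_gd`: a good system whose walls and slices are not connected becomes good by 8's refinement.
`exists_fine`: `S` good with two orbits `w`, `u` of vertices, all centres in the orbit of `w`,
`c : D' → D` a collapse with one point over `w` and groups in `C` over `u`: there is a good system
with an orbit of vertices outside which all groups are in `C`.
-/

namespace Pool.Agent.DI

open MulAction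
open Pool.Agent.SAF (InC orbs FinOrb oc Decomp SAn SA Conv exists_cut exists_next FinOrb_iff TAct)
open Pool.Agent.BT (PX PQ JS bey exits MinSub Ell mst Hyp Lq mst_conv axis bey_irr_l
  x_next_unique conv_tri_q)
open Pool.Agent.BT.TA

/-! ### vertices of the refinement over a connected slice -/

namespace Sys

variable {H V : Type} [Group H] [MulAction H V] (S : Sys H V)

theorem ls_of_sr {w : S.X} {x z : V} (k : Relation.EqvGen (S.SR w) x z) :
    (∀ hx : w ∈ S.J x, ∃ hz : w ∈ S.J z, Relation.EqvGen S.lr ⟨(x, w), hx⟩ ⟨(z, w), hz⟩) ∧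
      (∀ hz : w ∈ S.J z, ∃ hx : w ∈ S.J x, Relation.EqvGen S.lr ⟨(x, w), hx⟩ ⟨(z, w), hz⟩) := by
  induction k with
  | rel x z k =>
    exact ⟨fun hx => ⟨k.mem.2, Relation.EqvGen.rel _ _ ⟨rfl, k⟩⟩,
      fun hz => ⟨k.mem.1, Relation.EqvGen.rel _ _ ⟨rfl, k⟩⟩⟩
  | refl x => exact ⟨fun hx => ⟨hx, Relation.EqvGen.refl _⟩, fun hx => ⟨hx, Relation.EqvGen.refl _⟩⟩
  | symm x z _ ih =>
    exact ⟨fun hx => ⟨(ih.2 hx).1, (ih.2 hx).2.symm⟩, fun hx => ⟨(ih.1 hx).1, (ih.1 hx).2.symm⟩⟩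
  | trans x y z _ _ i1 i2 =>
    constructor
    · intro hx
      obtain ⟨hy, k1⟩ := i1.1 hx
      obtain ⟨hz, k2⟩ := i2.1 hy
      exact ⟨hz, k1.trans _ _ _ k2⟩
    · intro hz
      obtain ⟨hy, k2⟩ := i2.2 hz
      obtain ⟨hx, k1⟩ := i1.2 hy
      exact ⟨hx, k1.trans _ _ _ k2⟩

/-- over a connected slice there is one vertex -/
theorem pr_inj {w : S.X} (hw : ∀ x z, w ∈ S.J x → w ∈ S.J z → Relation.EqvGen (S.SR w) x z)
    {l m : S.LV} (hl : S.pr l = w) (hm : S.pr m = w) : l = m := by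
  obtain ⟨⟨⟨x, w1⟩, h1⟩, rfl⟩ := Quotient.exists_rep l
  obtain ⟨⟨⟨z, w2⟩, h2⟩, rfl⟩ := Quotient.exists_rep m
  have e1 : w1 = w := hl
  have e2 : w2 = w := hm
  subst e1
  subst e2
  obtain ⟨hz, k⟩ := (S.ls_of_sr (hw x z h1 h2)).1 h1
  exact Quotient.sound k

end Sys

/-- good systems without connectedness -/
structure Sys.Gd0 {H V : Type} [Group H] [MulAction H V] (S : Sys H V) : Prop where
  fin : ∀ x, Ell H S.X x → (S.J x).Finite
  seen : ∀ z, (∀ a, ¬ S.K.ar z a) → Ell H S.X z → ∃ p b c y y', S.J z = {p} ∧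
    Pn S.P b z c y y' ∧ S.Ce p b z c y y'
  ax : ∀ z, (∀ a, ¬ S.K.ar z a) → ¬ Ell H S.X z → S.J z = mst S.D.G (stabilizer H z)

/-- THE REFINEMENT IS GOOD -/
theorem next_gd (C : Cd) {D1 : Decomp C.H} {J : C.V → Set D1.X} (js : JS C.P.pq D1 J)
    (hg : (Sys.mk C.K C.P D1 J js).Gd0) : (Sys.mk C.K C.P D1 J js).next.Gd := by
  classical
  let S1 : Sys C.H C.V := ⟨C.K, C.P, D1, J, js⟩
  let D' : Decomp C.H := S1.LD
  let J' : C.V → Set D'.X := S1.J'
  have js' : JS C.P.pq D' J' := S1.J'_js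
  let pr : D'.X → D1.X := S1.pr
  have p1 : ∀ (h : C.H) l, pr (h • l) = h • pr l := S1.pr_smul
  have p2 : ∀ a b, D'.G.Adj a b → D1.G.Adj (pr a) (pr b) := fun a b h => (h : S1.LAdj a b).1
  have p3 : ∀ x, ∀ l ∈ J' x, pr l ∈ J x := fun x l h => S1.J'_pr h
  have p4 : ∀ x, ∀ w ∈ J x, ∃ l ∈ J' x, pr l = w := fun x w h => S1.J'_ex h
  have p5 : ∀ x, ∀ l ∈ J' x, ∀ m ∈ J' x, pr l = pr m → l = m := fun x l h m h' e =>
    S1.J'_inj h h' e
  have hpr : ∀ x : C.V, Ell C.H D'.X x → Ell C.H D1.X x := by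
    rintro x ⟨c, hc⟩
    exact ⟨pr c, fun g hg => by rw [← p1, hc g hg]⟩
  have hell' : ∀ x : C.V, Ell C.H D1.X x → Ell C.H D'.X x := by
    intro x hx
    by_contra hcon
    have hf : (J' x).Finite := by
      apply Set.Finite.of_finite_image ((hg.fin x hx).subset _)
      · intro l hl m hm e
        exact p5 x l hl m hm e
      · rintro _ ⟨l, hl, rfl⟩
        exact p3 x l hl
    have hy : Hyp D'.X (stabilizer C.H x) := by
      unfold Ell at hcon
      push Not at hcon
      exact hcon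
    have h1 : mst D'.G (stabilizer C.H x) ⊆ J' x := by
      intro w hw
      refine hw (J' x) (js'.conv x) (js'.ne x) ?_
      intro g hg c hc
      have := js'.smul g x c hc
      rwa [show g • x = x from hg] at this
    have h2 := axis D'.tact (stabilizer C.H x) (C.K.stab x) hy
    obtain ⟨w, hw⟩ := h2.2.1
    have hfm : (mst D'.G (stabilizer C.H x)).Finite := hf.subset h1
    have hst : Finite ↥(stabilizer C.H x ⊓ stabilizer C.H w) :=
      BT.finite_of_hyp D'.tact (C.K.stab x) hy inf_le_left (w := w) (fun b hb => hb.2)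
    have horb : (MulAction.orbit ↥(stabilizer C.H x) w).Finite := by
      apply hfm.subset
      rintro _ ⟨g, rfl⟩
      intro Cc h1 h2 h3
      exact h3 g.1 g.2 _ (hw Cc h1 h2 h3)
    have hfg : Finite ↥(stabilizer C.H x) := by
      have : Finite (MulAction.orbit ↥(stabilizer C.H x) w) := horb.to_subtype
      have h4 : Finite (↥(stabilizer C.H x) ⧸ stabilizer ↥(stabilizer C.H x) w) :=
        Finite.of_equiv _ (MulAction.orbitEquivQuotientStabilizer _ w)
      have h5 : Finite ↥(stabilizer ↥(stabilizer C.H x) w) := by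
        refine Finite.of_injective (fun g : ↥(stabilizer ↥(stabilizer C.H x) w) =>
          (⟨g.1.1, g.1.2, g.2⟩ : ↥(stabilizer C.H x ⊓ stabilizer C.H w))) ?_
        intro a b e
        have e' := congrArg Subtype.val e
        exact Subtype.ext (Subtype.ext e')
      exact Finite.of_equiv _ (Subgroup.groupEquivQuotientProdSubgroup
        (s := stabilizer ↥(stabilizer C.H x) w)).symm
    have := D'.tree.connected.nonempty
    obtain ⟨z, hz⟩ := Pool.Agent.SAG.fix_of_finite D'.tact _ hfg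
    exact hcon ⟨z, hz⟩
  refine ⟨S1.next_conn, ?_, ?_, ?_, ?_⟩
  · intro x a ha
    exact C.soft_ell D' ha
  · intro x hx
    apply Set.Finite.of_finite_image ((hg.fin x (hpr x hx)).subset _)
    · intro l hl m hm e
      exact p5 x l hl m hm e
    · rintro _ ⟨l, hl, rfl⟩
      exact p3 x l hl
  · intro z hz he
    have he1 := hpr z he
    obtain ⟨p, b, a, y, y', hJz, hp, hce⟩ := hg.seen z hz he1
    replace hJz : J z = ({p} : Set D1.X) := hJz
    -- the centre in the refined tree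
    let S' : Sys C.H C.V := ⟨C.K, C.P, D', J', js'⟩
    have hv : ∀ k, S'.K.E (![b, z, a, y, y'] k) (![b, z, a, y, y'] (k + 1)) := by
      intro k
      fin_cases k
      exacts [hp.E1, hp.E2, hp.E3, hp.E4, hp.E5]
    obtain ⟨c, hcc⟩ := S'.cen hv
    have hc1 : S1.IsC ![b, z, a, y, y'] (pr c) := by
      intro k'
      exact (hcc k').imp (p3 _ _) (p3 _ _)
    have hc2 : S1.IsC ![b, z, a, y, y'] p := Sys.ce_iff.1 hce
    have hc3 : pr c = p := S1.isC_unique hv hc1 hc2
    have hccz : S'.Ce c b z a y y' := Sys.ce_iff.2 hcc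
    have hmem : c ∈ J' z := by
      rcases hccz.2.1 with h4 | h4
      · exact h4
      · obtain ⟨r, hr1, hr2⟩ := S'.one_ex (x := z) (y := a) hp.E2
        have h8 : pr r = p := by
          have := p3 _ _ hr1
          rw [hJz] at this
          exact this
        have h9 := p5 _ _ h4 _ hr2 (hc3.trans h8.symm)
        rw [h9]
        exact hr1
    refine ⟨c, b, a, y, y', ?_, hp, hccz⟩
    ext l
    constructor
    · intro hl
      have h5 := p3 _ _ hl
      rw [hJz, Set.mem_singleton_iff] at h5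
      exact p5 _ _ hl _ hmem (h5.trans hc3.symm)
    · rintro rfl
      exact hmem
  · intro z hz he
    have he1 : ¬ Ell C.H D1.X z := fun h => he (hell' z h)
    have hJz : J z = mst D1.G (stabilizer C.H z) := hg.ax z hz he1
    have hy : Hyp D'.X (stabilizer C.H z) := by
      have he' : ¬ Ell C.H D'.X z := he
      unfold Ell at he'
      push Not at he'
      exact he'
    have h1 : mst D'.G (stabilizer C.H z) ⊆ J' z := by
      intro w hw
      refine hw (J' z) (js'.conv z) (js'.ne z) ?_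
      intro g hg c hc
      have := js'.smul g z c hc
      rwa [show g • z = z from hg] at this
    have h2 := axis D'.tact (stabilizer C.H z) (C.K.stab z) hy
    have h3 : mst D1.G (stabilizer C.H z) ⊆ pr '' (mst D'.G (stabilizer C.H z)) := by
      intro w hw
      refine hw _ ?_ ?_ ?_
      · rintro _ ⟨a, ha, rfl⟩ _ ⟨b, hb, rfl⟩ w hw
        obtain ⟨l, hl, hl'⟩ := walk_between D1.tree D'.tree pr (fun a b h => p2 a b h) _ a b rfl
          w hw
        exact ⟨l, h2.1 a ha b hb l hl', hl⟩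
      · obtain ⟨w, hw⟩ := h2.2.1
        exact ⟨_, w, hw, rfl⟩
      · rintro g hg _ ⟨a, ha, rfl⟩
        refine ⟨g • a, ?_, p1 g a⟩
        intro Cc k1 k2 k3
        exact k3 g hg _ (ha Cc k1 k2 k3)
    apply Set.Subset.antisymm _ h1
    intro l hl
    have h4 : pr l ∈ mst D1.G (stabilizer C.H z) := by
      rw [← hJz]
      exact p3 z l hl
    obtain ⟨m, hm, e⟩ := h3 h4
    rw [← p5 z m (h1 hm) l hl e]
    exact hm

/-- THE FINE SYSTEM -/
theorem exists_fine (C : Cd) {D : Decomp C.H} {J : C.V → Set D.X} {js : JS C.P.pq D J}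
    (hg : (Sys.mk C.K C.P D J js).Gd) (w u : D.X)
    (hor : ∀ x : D.X, (∃ h : C.H, h • w = x) ∨ ∃ h : C.H, h • u = x)
    (hn : ∀ h : C.H, h • u ≠ w)
    (hcen : ∀ {b z a y y' : C.V} {p : D.X}, Pn C.P b z a y y' →
      (Sys.mk C.K C.P D J js).Ce p b z a y y' → ∃ h : C.H, h • w = p)
    {D' : Decomp C.H} {c : D'.X → D.X} (T : TMap D'.G D.G c)
    (hc : ∀ (h : C.H) a, c (h • a) = h • c a)
    (hsing : ∀ a b, (∀ h : C.H, h • u ≠ c a) → c a = c b → a = b)
    (hC : ∀ a, (∃ h : C.H, h • u = c a) → InC ↥(stabilizer C.H a)) :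
    ∃ (D2 : Decomp C.H) (J2 : C.V → Set D2.X) (js2 : JS C.P.pq D2 J2),
      (Sys.mk C.K C.P D2 J2 js2).Gd ∧ ∃ w2 : D2.X, ∀ l, (∃ h : C.H, h • w2 = l) ∨
        InC ↥(stabilizer C.H l) := by
  classical
  let S : Sys C.H C.V := ⟨C.K, C.P, D, J, js⟩
  obtain ⟨J', js', hJ, hfin, hax, hpt⟩ := exists_rel_sys hg T hc
    (fun x a ha => C.soft_ell D' ha)
  let S' : Sys C.H C.V := ⟨C.K, C.P, D', J', js'⟩
  have hJ' : ∀ x, c '' J' x = J x := hJ
  have hnu : ∀ (h k : C.H), k • u ≠ h • w := by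
    intro h k e
    apply hn (h⁻¹ * k)
    rw [mul_smul, e, inv_smul_smul]
  have hw1 : ∀ (h : C.H) a b, c a = h • w → c b = h • w → a = b := by
    intro h a b e1 e2
    exact hsing a b (fun k => by rw [e1]; exact hnu h k) (e1.trans e2.symm)
  have hg0 : S'.Gd0 := by
    refine ⟨hfin, ?_, hax⟩
    intro z hz he'
    have he := ell_of_map hc he'
    obtain ⟨p, b, a, y, y', h1, hp, h3⟩ := hg.seen z hz he
    obtain ⟨p', hp'⟩ := hpt z hz he'
    have hcp : c p' = p := by
      have h4 : c p' ∈ J z := by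
        rw [← hJ', hp']
        exact ⟨p', rfl, rfl⟩
      have h5 : J z = {p} := h1
      rw [h5] at h4
      exact h4
    obtain ⟨h, hh⟩ := hcen hp h3
    have hv : ∀ k, S'.K.E (![b, z, a, y, y'] k) (![b, z, a, y, y'] (k + 1)) := by
      intro k
      fin_cases k
      exacts [hp.E1, hp.E2, hp.E3, hp.E4, hp.E5]
    obtain ⟨c1, hc1⟩ := S'.cen hv
    have him : ∀ x : C.V, c1 ∈ J' x → c c1 ∈ J x := by
      intro x hx
      rw [← hJ']
      exact ⟨c1, hx, rfl⟩
    have h6 : S.IsC ![b, z, a, y, y'] (c c1) := fun k => (hc1 k).imp (him _) (him _)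
    have h7 : c c1 = p := S.isC_unique hv h6 (Sys.ce_iff.1 h3)
    have h8 : c1 = p' := hw1 h _ _ (h7.trans hh.symm) (hcp.trans hh.symm)
    refine ⟨p', b, a, y, y', hp', hp, ?_⟩
    rw [← h8]
    exact Sys.ce_iff.2 hc1
  have hgd := next_gd C js' hg0
  -- the vertex over `w`
  obtain ⟨aw, haw⟩ := T.surj w
  have hmem : ∀ x : C.V, w ∈ J x → aw ∈ J' x := by
    intro x hx
    rw [← hJ'] at hx
    obtain ⟨a, ha, e⟩ := hx
    have e2 : a = aw := hw1 1 _ _ (by rw [one_smul]; exact e) (by rw [one_smul]; exact haw)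
    rw [← e2]
    exact ha
  have hsl : ∀ x z, aw ∈ S'.J x → aw ∈ S'.J z → Relation.EqvGen (S'.SR aw) x z := by
    intro x z hx hz
    have hx' : w ∈ S.J x := by
      show w ∈ J x
      rw [← hJ', ← haw]
      exact ⟨aw, hx, rfl⟩
    have hz' : w ∈ S.J z := by
      show w ∈ J z
      rw [← hJ', ← haw]
      exact ⟨aw, hz, rfl⟩
    refine Sys.eqv_bind ?_ (hg.conn.slice w x z hx' hz')
    rintro a b (⟨e, h1, h2⟩ | ⟨w1, h⟩)
    · exact Relation.EqvGen.rel _ _ (Or.inl ⟨e, hmem a h1, hmem b h2⟩)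
    · obtain ⟨hadj, h2, h3, q, y, y', hp, h4⟩ := h
      obtain ⟨α, β, e1, rfl, hab⟩ := T.lift w w1 hadj
      have e2 : α = aw := hw1 1 _ _ (by rw [one_smul]; exact e1) (by rw [one_smul]; exact haw)
      subst e2
      have hne : c α ≠ c β := by
        rw [e1]
        exact hadj.ne
      have hcs : ∀ x : C.V, S.Cs w (c β) x → S'.Cs α β x := by
        rintro x ⟨k1, k2⟩
        have k1' : w ∈ J x := k1
        have k2' : c β ∈ J x := k2
        rw [← hJ'] at k1' k2'
        rw [← e1] at k1'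
        exact T.mem_lift' (js'.conv x) hab hne k1' k2'
      have hne' : c β ≠ c α := hne.symm
      have s1 : ∀ x : C.V, S.J x ⊆ bey D.G w (c β) → S'.J x ⊆ bey D'.G α β := by
        intro x hx
        apply (T.image_bey hab hne).1
        rw [hJ', e1]
        exact hx
      have s2 : ∀ x : C.V, S.J x ⊆ bey D.G (c β) w → S'.J x ⊆ bey D'.G β α := by
        intro x hx
        apply (T.image_bey hab.symm hne').1
        rw [hJ', e1]
        exact hx
      refine Relation.EqvGen.rel _ _ (Or.inr ⟨β, hab, hcs _ h2, hcs _ h3, q, y, y', hp, ?_⟩)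
      rcases h4 with ⟨a1, a2, a3⟩ | ⟨a1, a2, a3⟩
      · exact Or.inl ⟨s1 _ a1, s2 _ a2, s2 _ a3⟩
      · exact Or.inr ⟨s2 _ a1, s1 _ a2, s1 _ a3⟩
  obtain ⟨x0, hx0⟩ := hg.conn.near w
  obtain ⟨lw, hlw, hprw⟩ := S'.J'_ex (hmem x0 hx0)
  refine ⟨S'.LD, S'.J', S'.J'_js, hgd, lw, ?_⟩
  intro l
  rcases hor (c (S'.pr l)) with ⟨h, hh⟩ | ⟨h, hh⟩
  · left
    refine ⟨h, ?_⟩
    have e0 : S'.pr (h⁻¹ • (l : S'.LV)) = h⁻¹ • S'.pr l := S'.pr_smul h⁻¹ l
    have e1 : S'.pr (h⁻¹ • (l : S'.LV)) = aw := by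
      refine e0.trans ?_
      apply hw1 1
      · rw [hc, ← hh, inv_smul_smul, one_smul]
      · rw [one_smul]
        exact haw
    have e2 : h⁻¹ • (l : S'.LV) = lw := S'.pr_inj hsl e1 hprw
    exact (inv_smul_eq_iff.1 e2).symm
  · right
    refine Pool.Agent.SAG.InC.mono ?_ (hC (S'.pr l) ⟨h, hh⟩)
    intro g hgl
    have h1 : g • l = l := hgl
    have h2 : S'.pr (g • l) = g • S'.pr l := S'.pr_smul g l
    show g • S'.pr l = S'.pr l
    exact h2.symm.trans (congrArg S'.pr h1)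

end Pool.Agent.DI
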