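import Pool.Agent.SAF.A11

/-!
# DI/OEDef: the orbit of an edge

`Eo D a b x y`: the pair `x y` is in the orbit of the edge `a b`. `Rl D a b`: the other edges.
-/

namespace Pool.Agent.DI

open MulAction
open Pool.Agent.SAF (Decomp)

variable {H : Type} [Group H]

/-- the pair `x y` is in the orbit of the edge `a b` -/
def Eo (D : Decomp H) (a b x y : D.X) : Prop :=
  ∃ h : H, (h • a = x ∧ h • b = y) ∨ (h • a = y ∧ h • b = x)

/-- the other edges -/
def Rl (D : Decomp H) (a b x y : D.X) : Prop := D.G.Adj x y ∧ ¬ Eo D a b x y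

variable {D : Decomp H}

theorem Eo.symm {a b x y : D.X} (h : Eo D a b x y) : Eo D a b y x := by
  obtain ⟨g, h⟩ := h
  exact ⟨g, h.symm⟩

theorem Eo.smul {a b x y : D.X} (g : H) (h : Eo D a b x y) : Eo D a b (g • x) (g • y) := by
  obtain ⟨k, h⟩ := h
  refine ⟨g * k, ?_⟩
  rcases h with ⟨rfl, rfl⟩ | ⟨rfl, rfl⟩
  · exact Or.inl ⟨mul_smul _ _ _, mul_smul _ _ _⟩
  · exact Or.inr ⟨mul_smul _ _ _, mul_smul _ _ _⟩

theorem Eo.smul_iff {a b x y : D.X} (g : H) : Eo D a b (g • x) (g • y) ↔ Eo D a b x y := by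
  constructor
  · intro h
    have := h.smul g⁻¹
    rwa [inv_smul_smul, inv_smul_smul] at this
  · intro h
    exact h.smul g

theorem Eo.refl (a b : D.X) : Eo D a b a b := ⟨1, Or.inl ⟨one_smul _ _, one_smul _ _⟩⟩

theorem Eo.adj {a b x y : D.X} (hab : D.G.Adj a b) (h : Eo D a b x y) : D.G.Adj x y := by
  obtain ⟨k, ⟨rfl, rfl⟩ | ⟨rfl, rfl⟩⟩ := h
  · exact D.adj_smul _ _ _ hab
  · exact (D.adj_smul _ _ _ hab).symm

theorem Rl.symm' {a b x y : D.X} (h : Rl D a b x y) : Rl D a b y x :=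
  ⟨h.1.symm, fun k => h.2 k.symm⟩

theorem Rl.smul {a b x y : D.X} (g : H) (h : Rl D a b x y) : Rl D a b (g • x) (g • y) :=
  ⟨D.adj_smul _ _ _ h.1, fun k => h.2 ((Eo.smul_iff g).1 k)⟩

end Pool.Agent.DI
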