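import Pool.Agent.DI.Light
import Pool.Agent.DI.OEDef

/-!
# DI/OEIdx: index two

`gx_fix`: a group acting on a complex without cells with a vertex of finite orbit fixes a vertex.
`Sys.idx_two`: good system with one orbit of edges (`w u`), `u` not in the orbit of `w`, the
stabiliser of `u` in `C`, no pentagon centred at `u`, infinite edge group, no heavy vertex with
poles crosses an edge. Then `u` has exactly two neighbours.
-/

namespace Pool.Agent.DI

open MulAction
open Pool.Agent.SAF (InC SA orbs FinOrb oc Decomp SAn Conv TAct exists_next isTree_of_cut)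
open Pool.Agent.BT (PX PQ JS bey exits Ell Hyp mst)

section

variable {H V : Type} [Group H] [MulAction H V]

/-- the graph of a complex without cells is a tree -/
theorem gx_tact (K : GX H V) (hI : IsEmpty K.I) : ∃ G : SimpleGraph V,
    (∀ x y, G.Adj x y ↔ K.E x y) ∧ TAct H G := by
  classical
  refine ⟨{ Adj := K.E, symm := ⟨fun _ _ h => GX.E.symm h⟩, loopless := ⟨K.E_irr⟩ }, fun _ _ => Iff.rfl,
    ?_, fun h _ _ e => K.E_smul h e, ?_⟩
  · apply isTree_of_cut
    · have := K.ne
      refine ⟨fun a b => ?_⟩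
      have := K.conn a b
      induction this with
      | refl => exact SimpleGraph.Reachable.refl _
      | tail _ e ih => exact ih.trans (SimpleGraph.Adj.reachable e)
    · intro v w e
      obtain ⟨g, hg⟩ := K.H1 (fun x y => if (x = v ∧ y = w) ∨ (x = w ∧ y = v) then 1 else 0) (by
        intro x y
        by_cases h : (x = v ∧ y = w) ∨ (x = w ∧ y = v)
        · rw [if_pos h, if_pos (by tauto)]
        · rw [if_neg h, if_neg (by tauto)]) (fun i => isEmptyElim i)
      refine ⟨g, ?_, ?_⟩
      · intro h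
        have h1 := hg v w e
        rw [if_pos (Or.inl ⟨rfl, rfl⟩), h, CharTwo.add_self_eq_zero] at h1
        exact one_ne_zero h1
      · intro a b hab hne
        have h1 := hg a b hab
        by_contra h
        rw [if_neg h] at h1
        apply hne
        have h2 : g b + g b = 0 := CharTwo.add_self_eq_zero _
        linear_combination -h1 - h2
  · rintro h x y e ⟨h1, h2⟩
    have e1 := K.rk_smul h x
    rw [h1] at e1
    rcases e with e | e
    · have := K.ar_rk _ _ e
      omega
    · have := K.ar_rk _ _ e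
      omega

theorem gx_fix (K : GX H V) (hI : IsEmpty K.I) (v : V) (h : (MulAction.orbit H v).Finite) :
    ∃ c : V, ∀ g : H, g • c = c := by
  obtain ⟨G, -, hG⟩ := gx_tact K hI
  obtain ⟨c, hc⟩ := Pool.Agent.SAG.fix_of_finite_orbit hG ⊤ v (h.subset (by
    rintro _ ⟨a, -, rfl⟩
    exact ⟨a, rfl⟩))
  exact ⟨c, fun g => hc g (Subgroup.mem_top g)⟩

end

namespace Sys

variable {H V : Type} [Group H] [MulAction H V] {S : Sys H V}

theorem c5_of {u : S.X} {a q b y z : V} (hp : Pn S.P a q b y z) (h : S.Ce u a q b y z) :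
    Nonempty (S.C5 u) := by
  obtain ⟨g, i, k, hh⟩ := hp
  rcases hh with ⟨h1, h2, h3, h4, h5⟩ | ⟨h1, h2, h3, h4, h5⟩
  · have hI : S.IsC (S.tr g i) u := by
      rw [ce_tr k]
      subst h1 h2 h3 h4 h5
      exact h
    exact ⟨⟨i, g, hI⟩⟩
  · have hI : S.IsC (S.tr g i) u := by
      rw [ce_tr k]
      subst h1 h2 h3 h4 h5
      exact h.symm
    exact ⟨⟨i, g, hI⟩⟩

/-- no heavy vertex is over a vertex which is no centre -/
theorem over_fin (hg : S.Gd) {u : S.X} (h5 : IsEmpty (S.C5 u))
    (hlight : ∀ x a, S.K.ar x a → ∀ p p', S.D.G.Adj p p' → S.Cs p p' x →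
      Finite ↥(stabilizer H x)) :
    ∀ (n : ℕ) (x : V), S.K.rk x = n → u ∈ S.J x → Finite ↥(stabilizer ↥(stabilizer H u) x) := by
  intro n
  induction n using Nat.strong_induction_on with
  | _ n ih =>
    intro x hn hu
    by_contra hcon
    rw [not_finite_iff_infinite] at hcon
    -- the embedding
    have hinf : Infinite ↥(stabilizer H x) := by
      refine Infinite.of_injective (fun g : ↥(stabilizer ↥(stabilizer H u) x) =>
        (⟨g.1.1, g.2⟩ : ↥(stabilizer H x))) ?_
      intro a b e
      have e' := congrArg Subtype.val e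
      exact Subtype.ext (Subtype.ext e')
    have hell : Ell H S.X x := by
      by_contra hc
      have hy : Hyp S.X (stabilizer H x) := by
        unfold Ell at hc
        push Not at hc
        exact hc
      have hf : Finite ↥(stabilizer H x ⊓ stabilizer H u) :=
        BT.finite_of_hyp S.D.tact (S.K.stab x) hy inf_le_left (w := u) (fun b hb => hb.2)
      have : Infinite ↥(stabilizer H x ⊓ stabilizer H u) := by
        refine Infinite.of_injective (fun g : ↥(stabilizer ↥(stabilizer H u) x) =>
          (⟨g.1.1, g.2, g.1.2⟩ : ↥(stabilizer H x ⊓ stabilizer H u))) ?_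
        intro a b e
        have e' := congrArg Subtype.val e
        exact Subtype.ext (Subtype.ext e')
      exact not_finite_iff_infinite.2 this hf
    by_cases hx : S.K.Snk x
    · obtain ⟨p, b, c, y, y', h1, h2, h3⟩ := hg.seen x hx hell
      rw [h1] at hu
      have hu : u = p := hu
      rw [← hu] at h3
      obtain ⟨i⟩ := c5_of h2 h3
      exact h5.elim i
    · unfold GX.Snk at hx
      push Not at hx
      obtain ⟨a, ha⟩ := hx
      have hJ : S.J x = {u} := by
        ext l
        constructor
        · intro hl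
          by_contra hne
          obtain ⟨u', hu', h2⟩ := next_of_two hu hl (fun e => hne e.symm)
          exact not_finite_iff_infinite.2 hinf (hlight x a ha u u' hu' ⟨hu, h2⟩)
        · rintro rfl
          exact hu
      have hua : u ∈ S.J a := by
        obtain ⟨l, l1, l2⟩ := S.one_ex (x := x) (y := a) (Or.inl ha)
        rw [hJ] at l1
        have l1 : l = u := l1
        rwa [l1] at l2
      have hr := S.K.ar_rk _ _ ha
      have hfin := ih _ (by omega) a rfl hua
      have : Infinite ↥(stabilizer ↥(stabilizer H u) ((x, a) : V × V)) := by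
        by_cases h : ∃ b, S.K.ar x b ∧ a ≠ b
        · obtain ⟨b, hb, hne⟩ := h
          refine inf_of_le_two hcon (b := b) ?_
          intro g hgx
          have h1 : g.1 • x = x := hgx
          have := S.K.ar_smul g.1 _ _ ha
          rw [h1] at this
          exact GX.Sft.cases ha hb hne this
        · refine inf_of_le_two hcon (b := a) ?_
          intro g hgx
          have h1 : g.1 • x = x := hgx
          have := S.K.ar_smul g.1 _ _ ha
          rw [h1] at this
          left
          by_contra hne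
          exact h ⟨_, this, fun e => hne e.symm⟩
      exact not_finite_iff_infinite.2 (inf_snd this) hfin

/-- the unique neighbour: impossible -/
theorem not_leaf {w u : S.X} (hwu : S.D.G.Adj w u)
    (hone : ∀ a b, S.D.G.Adj a b → Eo S.D w u a b) (hn : ∀ h : H, h • w ≠ u)
    (h1 : ∀ y, S.D.G.Adj u y → y = w) : False := by
  have hn' : ∀ h : H, h • u ≠ w := by
    intro h e
    apply hn h⁻¹
    rw [← e, inv_smul_smul]
  have claim : ∀ x, x = w ∨ S.D.G.Adj w x := by
    intro x
    obtain ⟨p⟩ := S.D.tree.connected.preconnected x w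
    induction p with
    | nil => exact Or.inl rfl
    | @cons x y z e p ih =>
      rcases ih hwu hone hn h1 hn' with rfl | k
      · exact Or.inr e.symm
      · obtain ⟨h, ⟨k1, k2⟩ | ⟨k1, k2⟩⟩ := hone _ _ k
        · left
          have k3 := S.D.adj_smul h⁻¹ _ _ e.symm
          rw [← k2, inv_smul_smul] at k3
          have k4 := h1 _ k3
          rw [inv_smul_eq_iff] at k4
          rw [k4, k1]
        · exact absurd k2 (hn' h)
  obtain ⟨h, hh⟩ := S.D.nofix w
  rcases claim (h • w) with k | k
  · exact hh k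
  · obtain ⟨g, ⟨k1, k2⟩ | ⟨k1, k2⟩⟩ := hone _ _ k
    · apply hn' (h⁻¹ * g)
      rw [mul_smul, k2, inv_smul_smul]
    · exact hn' g k2

/-- INDEX TWO -/
theorem idx_two (hg : S.Gd) {w u : S.X} (hwu : S.D.G.Adj w u)
    (hone : ∀ a b, S.D.G.Adj a b → Eo S.D w u a b) (hn : ∀ h : H, h • w ≠ u)
    (hU : InC ↥(stabilizer H u)) (h5 : IsEmpty (S.C5 u))
    (hinf : Infinite ↥(stabilizer H w ⊓ stabilizer H u))
    (hlight : ∀ x a, S.K.ar x a → ∀ p p', S.D.G.Adj p p' → S.Cs p p' x →
      Finite ↥(stabilizer H x)) :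
    ∃ w', w' ≠ w ∧ S.D.G.Adj u w' ∧ ∀ y, S.D.G.Adj u y → y = w ∨ y = w' := by
  have nb : ∀ y, S.D.G.Adj u y → ∃ g : ↥(stabilizer H u), g.1 • w = y := by
    intro y hy
    obtain ⟨h, ⟨k1, k2⟩ | ⟨k1, k2⟩⟩ := hone _ _ hy
    · exact absurd k1 (hn h)
    · exact ⟨⟨h, k2⟩, k1⟩
  have hc := hg.conn
  -- at least two
  obtain ⟨w', hw', hne⟩ : ∃ w', S.D.G.Adj u w' ∧ w' ≠ w := by
    by_contra hcon
    push Not at hcon
    exact not_leaf hwu hone hn hcon
  refine ⟨w', hne, hw', ?_⟩
  -- a fixed vertex
  have hUinf : Infinite ↥(stabilizer H u) := by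
    refine Infinite.of_injective (fun g : ↥(stabilizer H w ⊓ stabilizer H u) =>
      (⟨g.1, g.2.2⟩ : ↥(stabilizer H u))) ?_
    intro a b e
    have e' := congrArg Subtype.val e
    exact Subtype.ext e'
  have hidx : (stabilizer ↥(stabilizer H u) (S.fq u (Sum.inr ⟨w, hwu.symm⟩))).FiniteIndex := by
    rcases BT.finite_or_index hU (stabilizer ↥(stabilizer H u)
      (S.fq u (Sum.inr ⟨w, hwu.symm⟩))) with h | h
    · exfalso
      have : Infinite ↥(stabilizer ↥(stabilizer H u) (S.fq u (Sum.inr ⟨w, hwu.symm⟩))) := by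
        refine Infinite.of_injective (fun g : ↥(stabilizer H w ⊓ stabilizer H u) =>
          (⟨⟨g.1, g.2.2⟩, (t_smul_iff _ _).2 g.2.1⟩ :
            ↥(stabilizer ↥(stabilizer H u) (S.fq u (Sum.inr ⟨w, hwu.symm⟩))))) ?_
        intro a b e
        have e' := congrArg (fun t => t.1.1) e
        exact Subtype.ext e'
      exact not_finite_iff_infinite.2 this h
    · exact h
  obtain ⟨c, hcf⟩ := gx_fix (S.kf hc u) h5 (S.fq u (Sum.inr ⟨w, hwu.symm⟩)) (by
    have h4 : Finite (MulAction.orbit ↥(stabilizer H u) (S.fq u (Sum.inr ⟨w, hwu.symm⟩))) :=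
      Finite.of_equiv _ (MulAction.orbitEquivQuotientStabilizer _ _).symm
    exact Set.toFinite _)
  -- `c` is no sink `t`
  have hct : ∀ e : S.EV u, c ≠ S.fq u (Sum.inr e) := by
    rintro e rfl
    have key : ∀ g : ↥(stabilizer H u), g.1 • e.1 = e.1 := fun g =>
      (t_smul_iff e g).1 (hcf g)
    obtain ⟨g0, k0⟩ := nb _ e.2
    have hw0 : w = e.1 := by
      have := key g0⁻¹
      rw [← this, ← k0]
      show w = g0.1⁻¹ • g0.1 • w
      rw [inv_smul_smul]
    obtain ⟨g1, k1⟩ := nb _ hw'
    apply hne
    rw [← k1, hw0]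
    exact key g1
  -- `c` has an arrow to a sink `t`
  have har : ∃ e : S.EV u, S.arQ u c (S.fq u (Sum.inr e)) := by
    by_contra hcon
    push Not at hcon
    have hmem : ∀ (y : S.NV u) (e : S.EV u), S.fq u (Sum.inl y) = c → e.1 ∉ S.J y.1 := by
      intro y e hy he
      apply hcon e
      have := arQ_up (S := S) e.2 (⟨y.2, he⟩ : S.Cs u e.1 y.1)
      rw [S.rho_near y.2] at this
      rw [← hy]
      exact this
    obtain ⟨a, ha⟩ := fq_surj (S := S) u c
    obtain ⟨y, rfl⟩ : ∃ y : S.NV u, a = Sum.inl y := by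
      rcases a with y | e
      · exact ⟨y, rfl⟩
      · exact absurd ha.symm (hct e)
    -- the class is a singleton
    have hfr : ∀ a b : S.SV u, S.FR u a b → S.fq u a ≠ c ∧ S.fq u b ≠ c := by
      intro a b k
      have e := k.fq
      have h1 : S.fq u a ≠ c := by
        intro ha
        cases k with
        | mer e' q x x' h1 h2 => exact hmem x ⟨e', h1.adj⟩ ha h1.l.2
        | dia q e' h1 => exact hct e' (by rw [← e, ha])
      exact ⟨h1, fun h => h1 (by rw [e, h])⟩
    have hcls : ∀ a b : S.SV u, Relation.EqvGen (S.FR u) a b → S.fq u a = c → a = b := by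
      intro a b k
      have : (S.fq u a = c → a = b) ∧ (S.fq u b = c → a = b) := by
        induction k with
        | rel a b k => exact ⟨fun h => absurd h (hfr a b k).1, fun h => absurd h (hfr a b k).2⟩
        | refl a => exact ⟨fun _ => rfl, fun _ => rfl⟩
        | symm a b _ ih => exact ⟨fun h => (ih.2 h).symm, fun h => (ih.1 h).symm⟩
        | trans a b d _ _ h1 h2 =>
          refine ⟨fun h => ?_, fun h => ?_⟩
          · have e := h1.1 h
            rw [e] at h
            rw [e]
            exact h2.1 h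
          · have e := h2.2 h
            rw [← e] at h
            rw [← e]
            exact h1.2 h
      exact this.1
    have hst : ∀ g : ↥(stabilizer H u), g • y = y := by
      intro g
      have h1 := hcf g
      rw [← ha, ← fq_smul] at h1
      have h2 := hcls _ _ (fq_eq.1 h1) (by rw [h1]; exact ha)
      exact Sum.inl.inj h2
    have hf := over_fin hg h5 hlight _ y.1 rfl y.2
    have : Infinite ↥(stabilizer ↥(stabilizer H u) y.1) := by
      refine Infinite.of_injective (fun g : ↥(stabilizer H u) =>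
        (⟨g, congrArg Subtype.val (hst g)⟩ : ↥(stabilizer ↥(stabilizer H u) y.1))) ?_
      intro a b e
      exact congrArg Subtype.val e
    exact not_finite_iff_infinite.2 this hf
  obtain ⟨e, he⟩ := har
  obtain ⟨g0, k0⟩ := nb _ e.2
  have hall : ∀ y (hy : S.D.G.Adj u y), S.arQ u c (S.fq u (Sum.inr ⟨y, hy⟩)) := by
    intro y hy
    obtain ⟨g, k⟩ := nb _ hy
    have h1 := arQ_smul (S := S) (g * g0⁻¹) he
    rw [hcf, ← fq_smul] at h1
    have h2 : (g * g0⁻¹) • e = ⟨y, hy⟩ := by
      apply Subtype.ext
      show (g.1 * g0.1⁻¹) • e.1 = y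
      rw [← k0, mul_smul, inv_smul_smul, k]
    have h3 : (g * g0⁻¹) • (Sum.inr e : S.SV u) = Sum.inr ⟨y, hy⟩ := congrArg Sum.inr h2
    rw [h3] at h1
    exact h1
  have inj : ∀ y (hy : S.D.G.Adj u y) z (hz : S.D.G.Adj u z),
      S.fq u (Sum.inr ⟨y, hy⟩) = S.fq u (Sum.inr ⟨z, hz⟩) → y = z := by
    intro y hy z hz k
    have := Sk.inr.1 (fq_inr.1 k)
    exact congrArg Subtype.val this
  intro y hy
  rcases arQ_two (hall w hwu.symm) (hall w' hw') (hall y hy) with k | k | k
  · exact absurd (inj _ _ _ _ k).symm hne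
  · exact Or.inr (inj _ _ _ _ k).symm
  · exact Or.inl (inj _ _ _ _ k).symm

end Sys

end Pool.Agent.DI
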