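import Pool.Agent.DI.OELeaf
import Pool.Agent.DI.OEBlow
import Pool.Agent.DI.OETree
import Pool.Agent.DI.OEIdx
import Pool.Agent.DI.OEConn
import Pool.Agent.DI.LightD

/-!
# DI/OneEdge: one-edge systems

`Cd.LW.one_edge`: in the light world there is a good system with one orbit of edges; either there is
one orbit of vertices, or there are adjacent `w`, `u` with `H_w` bad, `H_u` in `C` and `u` has
exactly two neighbours, exchanged by `H_u`.
-/

namespace Pool.Agent.DI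

open MulAction
open Pool.Agent.SAF (InC orbs FinOrb oc Decomp SAn SA Conv exists_cut exists_next FinOrb_iff TAct)
open Pool.Agent.BT (PX PQ JS bey exits MinSub Ell mst Hyp Lq mst_conv axis)
open Pool.Agent.BT.TA

/-! ### the collapse to one orbit of edges -/

section

variable {H : Type} [Group H]

/-- one orbit of edges -/
def OneE (D : Decomp H) : Prop := ∀ x y x' y', D.G.Adj x y → D.G.Adj x' y' →
  ∃ g : H, (g • x = x' ∧ g • y = y') ∨ (g • x = y' ∧ g • y = x')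

theorem Eo.one {D : Decomp H} {a b x y x' y' : D.X} (h : Eo D a b x y) (h' : Eo D a b x' y') :
    ∃ g : H, (g • x = x' ∧ g • y = y') ∨ (g • x = y' ∧ g • y = x') := by
  obtain ⟨k, h⟩ := h
  obtain ⟨k', h'⟩ := h'
  refine ⟨k' * k⁻¹, ?_⟩
  rcases h with ⟨rfl, rfl⟩ | ⟨rfl, rfl⟩ <;> rcases h' with ⟨rfl, rfl⟩ | ⟨rfl, rfl⟩
  · left; constructor <;> rw [mul_smul, inv_smul_smul]
  · right; constructor <;> rw [mul_smul, inv_smul_smul]
  · right; constructor <;> rw [mul_smul, inv_smul_smul]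
  · left; constructor <;> rw [mul_smul, inv_smul_smul]

theorem one_of_col {D D1 : Decomp H} {c : D.X → D1.X} (T : TMap D.G D1.G c)
    (hc : ∀ (h : H) a, c (h • a) = h • c a) {a b : D.X}
    (hcl : ∀ x y, c x = c y ↔ Relation.EqvGen (Rl D a b) x y) : OneE D1 := by
  intro x y x' y' h h'
  have key : ∀ x y, D1.G.Adj x y → ∃ α β, c α = x ∧ c β = y ∧ Eo D a b α β := by
    intro x y h
    obtain ⟨α, β, rfl, rfl, hab⟩ := T.lift x y h
    refine ⟨α, β, rfl, rfl, ?_⟩
    by_contra hcon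
    exact h.ne ((hcl _ _).2 (Relation.EqvGen.rel _ _ ⟨hab, hcon⟩))
  obtain ⟨α, β, rfl, rfl, h1⟩ := key x y h
  obtain ⟨α', β', rfl, rfl, h2⟩ := key x' y' h'
  obtain ⟨g, ⟨g1, g2⟩ | ⟨g1, g2⟩⟩ := h1.one h2
  · exact ⟨g, Or.inl ⟨by rw [← hc, g1], by rw [← hc, g2]⟩⟩
  · exact ⟨g, Or.inr ⟨by rw [← hc, g1], by rw [← hc, g2]⟩⟩

/-- THE COLLAPSE TO ONE ORBIT OF EDGES -/
theorem exists_one (D : Decomp H) (w : D.X) : ∃ (D1 : Decomp H) (c : D.X → D1.X),
    TMap D.G D1.G c ∧ (∀ (h : H) a, c (h • a) = h • c a) ∧ OneE D1 ∧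
    ((∀ x y : D1.X, ∃ h : H, h • x = y) ∨ ∃ v : D.X, (∀ h : H, h • w ≠ v) ∧
      (∀ h : H, h • c v = c v → h • v = v) ∧ (∀ h : H, h • c w ≠ c v) ∧
      ∀ x, (∃ h : H, h • c w = x) ∨ ∃ h : H, h • c v = x) := by
  rcases exists_leaf D w with ⟨a, b, hab, hall⟩ | ⟨v, p, p', hvp, hvp', hne, heo, hnw, hst, hw, hall⟩
  · have hR := IR_Rl D a b
    obtain ⟨D1, c, T, hc, hcl⟩ := exists_col D _ hR (by
      intro x
      by_contra hcon
      push Not at hcon
      have h1 : ∀ y, Relation.EqvGen (Rl D a b) y x := by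
        intro y
        obtain ⟨h, hh⟩ := hall x y
        exact hh.symm.trans _ _ _ (hcon h)
      exact (hR.of_class hab ((h1 a).trans _ _ _ (h1 b).symm)).2 (Eo.refl a b))
    refine ⟨D1, c, T, hc, one_of_col T hc hcl, Or.inl ?_⟩
    intro x y
    obtain ⟨α, rfl⟩ := T.surj x
    obtain ⟨β, rfl⟩ := T.surj y
    obtain ⟨h, hh⟩ := hall α β
    exact ⟨h, by rw [← hc, hcl]; exact hh⟩
  · have hR := IR_Rl D v p
    have hwp : ∃ k : H, Relation.EqvGen (Rl D v p) (k • p) w := by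
      rcases hall p with ⟨k, hk⟩ | h
      · exfalso
        -- everything is in the class orbit of `v`
        have key : ∀ x y, D.G.Adj x y → (∃ h : H, Relation.EqvGen (Rl D v p) (h • x) v) →
            ∃ h : H, Relation.EqvGen (Rl D v p) (h • y) v := by
          rintro x y hxy ⟨h, hh⟩
          by_cases he : Eo D v p x y
          · obtain ⟨g, ⟨rfl, rfl⟩ | ⟨rfl, rfl⟩⟩ := he
            · exact ⟨k * g⁻¹, by rw [mul_smul, inv_smul_smul]; exact hk⟩
            · exact ⟨g⁻¹, by rw [inv_smul_smul]; exact Relation.EqvGen.refl _⟩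
          · refine ⟨h, ?_⟩
            exact (hR.eqv h (Relation.EqvGen.rel _ _
              (⟨hxy, he⟩ : Rl D v p x y))).symm.trans _ _ _ hh
        have h2 : ∀ z, Relation.ReflTransGen D.G.Adj v z →
            ∃ h : H, Relation.EqvGen (Rl D v p) (h • z) v := by
          intro z hr
          induction hr with
          | refl => exact ⟨1, by rw [one_smul]; exact Relation.EqvGen.refl _⟩
          | tail _ e ih => exact key _ _ e ih
        obtain ⟨h, hh⟩ := h2 w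
          ((SimpleGraph.reachable_iff_reflTransGen v w).1 (D.tree.connected.preconnected v w))
        exact hw h hh
      · exact h
    obtain ⟨D1, c, T, hc, hcl⟩ := exists_col D _ hR (by
      intro x
      by_contra hcon
      push Not at hcon
      rcases hall x with ⟨k, hk⟩ | ⟨k, hk⟩
      · have hxv : Relation.EqvGen (Rl D v p) x v := (hcon k).symm.trans _ _ _ hk
        obtain ⟨h, hh⟩ := D.nofix v
        apply hh
        apply hst h
        exact (hR.eqv h hxv.symm).trans _ _ _ ((hcon h).trans _ _ _ hxv)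
      · have hxw : Relation.EqvGen (Rl D v p) x w := (hcon k).symm.trans _ _ _ hk
        have hww : ∀ h : H, Relation.EqvGen (Rl D v p) (h • w) w := fun h =>
          (hR.eqv h hxw.symm).trans _ _ _ ((hcon h).trans _ _ _ hxw)
        obtain ⟨k, hk⟩ := hwp
        have hpw : Relation.EqvGen (Rl D v p) p w := by
          have h1 := hR.eqv k⁻¹ hk
          rw [inv_smul_smul] at h1
          exact h1.trans _ _ _ (hww k⁻¹)
        have hp'w : Relation.EqvGen (Rl D v p) p' w := by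
          obtain ⟨h, ⟨h1, h2⟩ | ⟨h1, h2⟩⟩ := heo
          · rw [← h2]
            exact (hR.eqv h hpw).trans _ _ _ (hww h)
          · exfalso
            apply hw h
            have e5 := hR.eqv h hpw.symm
            rw [h2] at e5
            exact e5
        obtain ⟨g, hg, -, -⟩ := exists_cut D.G D.tree v p hvp
        have hnR : ¬ Rl D v p v p := fun h => h.2 (Eo.refl v p)
        have e1 := hR.cut_const hnR hg (hpw.trans _ _ _ hp'w.symm)
        have e2 : g v ≠ g p := (hg v p hvp).2 (Or.inl ⟨rfl, rfl⟩)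
        have e3 : g v ≠ g p' := by rw [← e1]; exact e2
        rcases (hg v p' hvp').1 e3 with ⟨-, h⟩ | ⟨h, -⟩
        · exact hne h.symm
        · exact hvp.ne h)
    refine ⟨D1, c, T, hc, one_of_col T hc hcl, Or.inr ⟨v, hnw, ?_, ?_, ?_⟩⟩
    · intro h hh
      rw [← hc, hcl] at hh
      exact hst h hh
    · intro h hh
      rw [← hc, hcl] at hh
      exact hw h hh
    · intro x
      obtain ⟨α, rfl⟩ := T.surj x
      rcases hall α with ⟨h, hh⟩ | ⟨h, hh⟩
      · right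
        refine ⟨h⁻¹, ?_⟩
        rw [← (hcl _ _).2 hh, hc, inv_smul_smul]
      · left
        refine ⟨h⁻¹, ?_⟩
        rw [← (hcl _ _).2 hh, hc, inv_smul_smul]

/-- a vertex has a neighbour -/
theorem exists_nb (D : Decomp H) (x : D.X) : ∃ y, D.G.Adj x y := by
  obtain ⟨g, hg⟩ := D.nofix x
  obtain ⟨z, hz, -⟩ := exists_next D.tree (a := x) (b := g • x) (fun e => hg e.symm)
  exact ⟨z, hz⟩

/-- with one orbit of edges and two orbits of vertices the edges join the orbits -/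
theorem one_bip {D : Decomp H} (h1 : OneE D) {w u : D.X}
    (hor : ∀ x, (∃ h : H, h • w = x) ∨ ∃ h : H, h • u = x) (hn : ∀ h : H, h • w ≠ u)
    {x y : D.X} (hxy : D.G.Adj x y) (hx : ∃ h : H, h • u = x) : ∃ h : H, h • w = y := by
  rcases hor y with h | ⟨k, rfl⟩
  · exact h
  · exfalso
    obtain ⟨h, rfl⟩ := hx
    obtain ⟨z, hz⟩ := exists_nb D w
    obtain ⟨g, ⟨g1, g2⟩ | ⟨g1, g2⟩⟩ := h1 _ _ _ _ hxy hz
    · apply hn (h⁻¹ * g⁻¹)
      rw [← g1, ← mul_smul g h u, ← mul_smul]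
      group
      rw [one_smul]
    · apply hn (k⁻¹ * g⁻¹)
      rw [← g2, ← mul_smul g k u, ← mul_smul]
      group
      rw [one_smul]

end

/-! ### centres -/

namespace Sys

variable {H V : Type} [Group H] [MulAction H V] {S : Sys H V}

theorem ce_orbit {w : S.X} (hc : S.Conn) (hw : S.WMin w) {b z a y y' : V} {p : S.X}
    (hp : Pn S.P b z a y y') (hce : S.Ce p b z a y y') : ∃ g : H, g • w = p := by
  obtain ⟨h, i, j, ⟨e0, e1, e2, e3, e4⟩ | ⟨e0, e1, e2, e3, e4⟩⟩ := hp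
  · apply isC_orbit hc hw (h := h) (i := i)
    rw [ce_tr j]
    rw [e0, e1, e2, e3, e4] at hce
    exact hce
  · apply isC_orbit hc hw (h := h) (i := i)
    rw [ce_tr j]
    have h2 := hce.symm
    rw [e0, e1, e2, e3, e4] at h2
    exact h2

/-- inverted one-edge systems -/
structure Inv1 (S : Sys H V) (w u : S.X) : Prop where
  adj : S.D.G.Adj w u
  orb : ∀ x, (∃ h : H, h • w = x) ∨ ∃ h : H, h • u = x
  ne : ∀ h : H, h • w ≠ u
  inC : InC ↥(stabilizer H u)
  flip : ∃ g ∈ stabilizer H u, g • w ≠ w ∧ ∀ y, S.D.G.Adj u y → y = w ∨ y = g • w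

end Sys

/-- there are pentagons -/
theorem Cd.exists_I (C : Cd) : Nonempty C.K.I := by
  obtain ⟨z⟩ := C.K.ne
  have hnb : ∃ b0, C.K.E z b0 := by
    by_contra hno
    push Not at hno
    have hall : ∀ y, y = z := by
      intro y
      have := C.K.conn z y
      induction this with
      | refl => rfl
      | tail _ h2 ih =>
        rw [ih] at h2
        exact absurd h2 (hno _)
    exact C.bad (Pool.Agent.SAF.SA.of_stabilizer_top (x := z) (fun h => hall _)
      (Pool.Agent.BT.SA_of_InC (C.K.stab z)))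
  obtain ⟨b0, e0⟩ := hnb
  rcases C.K.edge_corner C.lc C.bad e0 with ⟨a, -, h⟩ | ⟨a, -, h⟩
  · obtain ⟨y, y', h⟩ := C.P.cor_iff.1 h
    obtain ⟨-, i, -⟩ := h
    exact ⟨i⟩
  · obtain ⟨y, y', h⟩ := C.P.cor_iff.1 h
    obtain ⟨-, i, -⟩ := h
    exact ⟨i⟩

/-- the blow-up of the tree along the folded slice at a vertex outside the orbit of a bad one -/
theorem Cd.blow_up (C : Cd) {S : Sys C.H C.V} (hK : S.K = C.K) (hc : S.Conn) {w u : S.X}
    (hb : ¬ SA ↥(stabilizer C.H w)) (hn : ∀ g : C.H, g • w ≠ u)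
    (hbip : ∀ x y : S.X, S.D.G.Adj x y → (∃ h : C.H, h • u = x) → ¬ ∃ h : C.H, h • u = y) :
    ∃ (D' : Decomp C.H) (c : D'.X → S.X), TMap D'.G S.D.G c ∧
      (∀ (h : C.H) a, c (h • a) = h • c a) ∧
      (∀ a b, (∀ h : C.H, h • u ≠ c a) → c a = c b → a = b) ∧
      (∀ a, (∃ h : C.H, h • u = c a) → InC ↥(stabilizer C.H a)) := by
  obtain ⟨-, b1, b2, b3, b4, b5, b6, b7⟩ := C.kf_blow hK hc hb hn
  exact exists_blow S.D u hbip (S.Q u) _ b1 b2 b3 b4 b5 b6 (S.att u) b7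

/-- ONE-EDGE SYSTEMS EXIST -/
theorem Cd.LW.one_edge {C : Cd} (hC : C.LW) :
    ∃ (D : Decomp C.H) (J : C.V → Set D.X) (js : JS C.P.pq D J),
      (Sys.mk C.K C.P D J js).Gd ∧ OneE D ∧ ((∀ x y : D.X, ∃ h : C.H, h • x = y) ∨
        ∃ w u : D.X, ¬ SA ↥(stabilizer C.H w) ∧ (Sys.mk C.K C.P D J js).Inv1 w u) := by
  classical
  -- a good system and its collapse
  obtain ⟨D0⟩ : Nonempty (Decomp C.H) := by
    by_contra hcon
    rw [not_nonempty_iff] at hcon
    exact C.bad (Pool.Agent.SAF.SA.of_empty hcon)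
  obtain ⟨D1, J1, js1, hg1, -⟩ := C.exists_sys D0
  obtain ⟨w1, hw1⟩ := exists_bad C.bad D1
  obtain ⟨D2, c2, T2, hc2, hone2, halt2⟩ := exists_one D1 w1
  let S1 : Sys C.H C.V := ⟨C.K, C.P, D1, J1, js1⟩
  let S2 : Sys C.H C.V := S1.col hg1.sinkOK T2 hc2
  have hg2 : S2.Gd := hg1.col C.lc C.bad T2 hc2
  rcases halt2 with h | ⟨v, hwv, hstv, hcwv, horb⟩
  · exact ⟨D2, _, S2.js, hg2, hone2, Or.inl h⟩
  -- the bad vertex
  obtain ⟨w2, hw2⟩ := exists_bad C.bad D2
  have hw2' : ∃ h : C.H, h • c2 w1 = w2 := by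
    rcases horb w2 with h | ⟨h, rfl⟩
    · exact h
    · exfalso
      have e : stabilizer C.H (h • c2 v) = stabilizer C.H (h • v) := by
        ext k
        constructor
        · intro hk
          have hk' : k • h • c2 v = h • c2 v := hk
          have h1 : (h⁻¹ * k * h) • c2 v = c2 v := by
            rw [mul_smul, mul_smul, hk', inv_smul_smul]
          have h2 := hstv _ h1
          rw [mul_smul, mul_smul, inv_smul_eq_iff] at h2
          exact h2
        · intro hk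
          have hk' : k • h • v = h • v := hk
          show k • h • c2 v = h • c2 v
          rw [← hc2, ← hc2, hk']
      rw [e] at hw2
      obtain ⟨i⟩ := C.exists_I
      obtain ⟨g, hg⟩ := Sys.wmin_orbit (S := S1) hg1.conn (C.wmin (S := S1) rfl hw1)
        (C.wmin (S := S1) rfl hw2) i
      apply hwv (h⁻¹ * g)
      rw [mul_smul, hg, inv_smul_smul]
  have hor2 : ∀ x, (∃ h : C.H, h • w2 = x) ∨ ∃ h : C.H, h • c2 v = x := by
    intro x
    rcases horb x with ⟨h, rfl⟩ | h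
    · obtain ⟨k, rfl⟩ := hw2'
      exact Or.inl ⟨h * k⁻¹, by rw [mul_smul, inv_smul_smul]⟩
    · exact Or.inr h
  have hn2 : ∀ h : C.H, h • w2 ≠ c2 v := by
    obtain ⟨k, rfl⟩ := hw2'
    intro h e
    exact hcwv (h * k) (by rw [mul_smul]; exact e)
  have hn2' : ∀ h : C.H, h • c2 v ≠ w2 := by
    intro h e
    exact hn2 h⁻¹ (by rw [← e, inv_smul_smul])
  have hm2 : S2.WMin w2 := C.wmin (S := S2) rfl hw2
  -- the blow-up
  obtain ⟨D3, c3, T3, hc3, hsing, hC3⟩ := C.blow_up (S := S2) rfl hg2.conn hw2 hn2 (by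
    rintro x y hxy hx ⟨k, hk⟩
    obtain ⟨h, hh⟩ := one_bip hone2 hor2 hn2 hxy hx
    apply hn2 (k⁻¹ * h)
    rw [mul_smul, hh, ← hk, inv_smul_smul])
  -- the fine system
  obtain ⟨D4, J4, js4, hg4, w4, hfine⟩ := exists_fine C (D := D2) (js := S2.js) hg2 w2 (c2 v)
    hor2 hn2' (fun hp hce => Sys.ce_orbit hg2.conn hm2 hp hce) T3 hc3 hsing hC3
  obtain ⟨D5, c5, T5, hc5, hone5, halt5⟩ := exists_one D4 w4
  let S4 : Sys C.H C.V := ⟨C.K, C.P, D4, J4, js4⟩
  let S5 : Sys C.H C.V := S4.col hg4.sinkOK T5 hc5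
  have hg5 : S5.Gd := hg4.col C.lc C.bad T5 hc5
  rcases halt5 with h | ⟨v5, hwv5, hstv5, hcwv5, horb5⟩
  · exact ⟨D5, _, S5.js, hg5, hone5, Or.inl h⟩
  have hInC : ∀ k : C.H, InC ↥(stabilizer C.H (k • c5 v5)) := by
    intro k
    have h1 : InC ↥(stabilizer C.H (k • v5)) := by
      rcases hfine (k • v5) with ⟨h, hh⟩ | h
      · exfalso
        apply hwv5 (k⁻¹ * h)
        rw [mul_smul, hh, inv_smul_smul]
      · exact h
    refine Pool.Agent.SAG.InC.mono ?_ h1
    intro g hg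
    have hg' : g • k • c5 v5 = k • c5 v5 := hg
    have h2 : (k⁻¹ * g * k) • c5 v5 = c5 v5 := by
      rw [mul_smul, mul_smul, hg', inv_smul_smul]
    have h3 := hstv5 _ h2
    rw [mul_smul, mul_smul, inv_smul_eq_iff] at h3
    exact h3
  obtain ⟨w5, hw5⟩ := exists_bad C.bad D5
  have hw5' : ∃ h : C.H, h • c5 w4 = w5 := by
    rcases horb5 w5 with h | ⟨h, rfl⟩
    · exact h
    · exact absurd (Pool.Agent.BT.SA_of_InC (hInC h)) hw5
  obtain ⟨u5, hu5⟩ := exists_nb D5 w5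
  have hn5 : ∀ h : C.H, h • w5 ≠ c5 v5 := by
    obtain ⟨k, rfl⟩ := hw5'
    intro h e
    exact hcwv5 (h * k) (by rw [mul_smul]; exact e)
  have hor5 : ∀ x, (∃ h : C.H, h • w5 = x) ∨ ∃ h : C.H, h • c5 v5 = x := by
    intro x
    rcases horb5 x with ⟨h, rfl⟩ | h
    · obtain ⟨k, rfl⟩ := hw5'
      exact Or.inl ⟨h * k⁻¹, by rw [mul_smul, inv_smul_smul]⟩
    · exact Or.inr h
  have hn5' : ∀ h : C.H, h • c5 v5 ≠ w5 := by
    intro h e
    exact hn5 h⁻¹ (by rw [← e, inv_smul_smul])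
  obtain ⟨k5, rfl⟩ : ∃ h : C.H, h • c5 v5 = u5 :=
    one_bip hone5 (fun x => (hor5 x).symm) hn5' hu5 ⟨1, one_smul _ _⟩
  have hn6 : ∀ h : C.H, h • w5 ≠ k5 • c5 v5 := by
    intro h e
    apply hn5 (k5⁻¹ * h)
    rw [mul_smul, e, inv_smul_smul]
  have hm5 : S5.WMin w5 := C.wmin (S := S5) rfl hw5
  have h5 : IsEmpty (S5.C5 (k5 • c5 v5)) := Sys.c5_empty hg5.conn hm5 hn6
  have L := hC.at S5 rfl hg5 hw5
  obtain ⟨w', hw', hadj', hall'⟩ := Sys.idx_two (S := S5) hg5 hu5 (by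
    intro a b hab
    obtain ⟨g, h⟩ := hone5 _ _ _ _ hu5 hab
    exact ⟨g, h⟩) hn6 (hInC k5) h5 (hC.all_inf D5 hone5 hu5)
    (fun x a ha p p' hpp hcs => L.fin_of_cross ha hcs.1 hcs.2 hpp.ne)
  refine ⟨D5, _, S5.js, hg5, hone5, Or.inr ⟨w5, k5 • c5 v5, hw5, ?_⟩⟩
  refine ⟨hu5, ?_, hn6, hInC k5, ?_⟩
  · intro x
    rcases hor5 x with h | ⟨h, rfl⟩
    · exact Or.inl h
    · exact Or.inr ⟨h * k5⁻¹, by rw [mul_smul, inv_smul_smul]⟩
  · obtain ⟨g, ⟨g1, g2⟩ | ⟨g1, g2⟩⟩ := hone5 _ _ _ _ hu5 hadj'.symm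
    · exact ⟨g, g2, by rw [g1]; exact hw', fun y hy => by rw [g1]; exact hall' y hy⟩
    · exact absurd g1 (hn6 g)

end Pool.Agent.DI
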