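import Pool.Agent.DI.PlcdS
import Pool.Agent.DI.OQGd
import Pool.Agent.DI.QKMin
import Pool.Agent.DI.OneEdge

/-!
# DI/Dsc: descent of a system to a quotient of the complex

`Dsc S K1 P1`: an equivariant map `f : W → W1` from the vertices of `S.K` to the vertices of `K1`, which
is bijective on the poles of a vertex; vertices with the same image have the same subtree; the vertices
of `K1` which are not in the image are BARE: no in-arrows, one point, which lies in the subtrees of all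
their poles. Pentagons and squares of `K` go to pentagons and squares, to two squares with a common bare
vertex, or two opposite vertices of the square have the same image.

`Dsc.sys : SyQ H W1` is the system on `K1` on the same tree. It is good if `S` is good
(`Dsc.gdQ`, `Dsc.tog`, `Dsc.plcd`).
-/

namespace Pool.Agent.DI

open MulAction
open Pool.Agent.SAF (InC SA orbs FinOrb oc Decomp SAn Conv FinOrb_iff)
open Pool.Agent.BT (PX PQ JS bey exits Ell mst)
open Pool.Agent.BT.TA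

/-- descent data -/
structure Dsc {H W W1 : Type} [Group H] [MulAction H W] [MulAction H W1] (S : SyQ H W)
    (K1 : GX H W1) (P1 : P45 K1) where
  f : W → W1
  J : W1 → Set S.X
  f_smul : ∀ (h : H) x, f (h • x) = h • f x
  ar_map : ∀ x a, S.K.ar x a → K1.ar (f x) (f a)
  ar_lift : ∀ x a1, K1.ar (f x) a1 → ∃ a, S.K.ar x a ∧ f a = a1
  ar_inj : ∀ x a b, S.K.ar x a → S.K.ar x b → f a = f b → a = b
  pole : ∀ x1 a1, K1.ar x1 a1 → ∃ a, f a = a1
  J_f : ∀ x, J (f x) = S.J x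
  J_smul : ∀ (h : H) x1 p, p ∈ J x1 → h • p ∈ J (h • x1)
  bare : ∀ x1, (¬ ∃ x, f x = x1) → (∃ a1, K1.ar x1 a1) ∧ ∃ u, J x1 = {u} ∧
    ∀ a1, K1.ar x1 a1 → u ∈ J a1
  sib : ∀ x1, (¬ ∃ x, f x = x1) → ∃ s, ∀ a1, K1.ar x1 a1 → K1.ar (f s) a1
  pent : ∀ a q b y z, Qn S.P a q b y z → Qn P1 (f a) (f q) (f b) (f y) (f z)
  pent_lift : ∀ a1 q1 b1 y1 z1, Qn P1 a1 q1 b1 y1 z1 → ∃ a q b y z, Qn S.P a q b y z ∧
    f a = a1 ∧ f q = q1 ∧ f b = b1 ∧ f y = y1 ∧ f z = z1
  sq : ∀ a q b y, Q4 S.P a q b y → f q = f y ∨ f a = f b ∨ (∃ p, S.J a = {p}) ∨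
    Q4 P1 (f a) (f q) (f b) (f y) ∨
    ∃ v u, J v = {u} ∧ Q4 P1 (f a) (f q) (f b) v ∧ Q4 P1 (f a) v (f b) (f y)
  stab : ∀ x, Infinite ↥(stabilizer H (f x)) → stabilizer H (f x) ≤ stabilizer H x

namespace Dsc

variable {H W W1 : Type} [Group H] [MulAction H W] [MulAction H W1] {S : SyQ H W}
  {K1 : GX H W1} {P1 : P45 K1} (M : Dsc S K1 P1)

/-- the other vertices -/
theorem bare_page {x1 : W1} (h : ¬ ∃ x, M.f x = x1) (n1 : W1) : ¬ K1.ar n1 x1 :=
  fun k => h (M.pole _ _ k)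

/-- an edge of `K1` with an end in the image -/
theorem E_lift {x1 y1 : W1} (h : K1.ar x1 y1) : (¬ ∃ x, M.f x = x1) ∨
    ∃ x y, M.f x = x1 ∧ M.f y = y1 ∧ S.K.ar x y := by
  by_cases hx : ∃ x, M.f x = x1
  · obtain ⟨x, rfl⟩ := hx
    obtain ⟨y, hy, e⟩ := M.ar_lift _ _ h
    exact Or.inr ⟨x, y, rfl, e, hy⟩
  · exact Or.inl hx

theorem E_map {x y : W} (h : S.K.E x y) : K1.E (M.f x) (M.f y) :=
  h.imp (M.ar_map _ _) (M.ar_map _ _)

theorem one_ar {x1 y1 : W1} (h : K1.ar x1 y1) : ∃ p, M.J x1 ∩ M.J y1 = {p} := by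
  rcases M.E_lift h with hx | ⟨x, y, rfl, rfl, e⟩
  · obtain ⟨-, u, hu, hp⟩ := M.bare x1 hx
    refine ⟨u, ?_⟩
    rw [hu]
    exact Set.inter_eq_left.2 (Set.singleton_subset_iff.2 (hp _ h))
  · rw [M.J_f, M.J_f]
    exact S.js.one _ _ (Or.inl e)

/-- the exits of an image -/
theorem exit_lift {x : W} {w : S.X} {s : W1 ⊕ S.X}
    (h : s ∈ exits P1.pq S.D.G M.J (M.f x) w) : ∃ t ∈ exits S.P.pq S.D.G S.J x w,
      Sum.map M.f id t = s := by
  rcases h with ⟨a1, rfl, ha, hw⟩ | ⟨w', rfl, hw, hw'⟩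
  · obtain ⟨a, ha', rfl⟩ := M.ar_lift _ _ ha
    refine ⟨Sum.inl a, Or.inl ⟨a, rfl, ha', ?_⟩, rfl⟩
    rwa [M.J_f] at hw
  · refine ⟨Sum.inr w', Or.inr ⟨w', rfl, hw, ?_⟩, rfl⟩
    rwa [M.J_f] at hw'

theorem two (x1 : W1) (w : S.X) (hw : w ∈ M.J x1) (s : W1 ⊕ S.X)
    (hs : s ∈ exits P1.pq S.D.G M.J x1 w) (t : W1 ⊕ S.X)
    (ht : t ∈ exits P1.pq S.D.G M.J x1 w) (u : W1 ⊕ S.X)
    (hu : u ∈ exits P1.pq S.D.G M.J x1 w) : s = t ∨ s = u ∨ t = u := by
  by_cases hx : ∃ x, M.f x = x1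
  · obtain ⟨x, rfl⟩ := hx
    obtain ⟨s', hs', rfl⟩ := M.exit_lift hs
    obtain ⟨t', ht', rfl⟩ := M.exit_lift ht
    obtain ⟨u', hu', rfl⟩ := M.exit_lift hu
    rw [M.J_f] at hw
    rcases S.js.two x w hw s' hs' t' ht' u' hu' with h | h | h
    · exact Or.inl (by rw [h])
    · exact Or.inr (Or.inl (by rw [h]))
    · exact Or.inr (Or.inr (by rw [h]))
  · obtain ⟨-, p, hp, -⟩ := M.bare x1 hx
    have key : ∀ s, s ∈ exits P1.pq S.D.G M.J x1 w → ∃ a, s = Sum.inl a ∧ K1.ar x1 a := by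
      rintro s (⟨a, rfl, ha, -⟩ | ⟨w', rfl, h1, h2⟩)
      · exact ⟨a, rfl, ha⟩
      · exfalso
        rw [hp] at h2 hw
        rw [Set.mem_singleton_iff.1 h2, Set.mem_singleton_iff.1 hw] at h1
        exact h1.ne rfl
    obtain ⟨a, rfl, ha⟩ := key s hs
    obtain ⟨b, rfl, hb⟩ := key t ht
    obtain ⟨c, rfl, hc⟩ := key u hu
    rcases K1.two _ _ _ _ ha hb hc with h | h | h
    · exact Or.inl (by rw [h])
    · exact Or.inr (Or.inr (by rw [h]))
    · exact Or.inr (Or.inl (by rw [h]))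

theorem fin : FinOrb H {p : W1 × S.X | p.2 ∈ M.J p.1} := by
  have h1 : FinOrb H {p : W1 × S.X | p.2 ∈ M.J p.1 ∧ ∃ x, M.f x = p.1} := by
    refine FinOrb.image (H := H) (H' := H) S.js.fin (fun p : W × S.X => (M.f p.1, p.2)) ?_ ?_
    · rintro ⟨x1, p⟩ ⟨h, x, rfl⟩
      refine ⟨(x, p), ?_, 1, one_smul _ _⟩
      have h : p ∈ M.J (M.f x) := h
      rw [M.J_f] at h
      exact h
    · rintro ⟨x, p⟩ - ⟨y, r⟩ - ⟨h, e⟩
      refine ⟨h, ?_⟩
      have e1 : h • x = y := congrArg Prod.fst e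
      have e2 : h • p = r := congrArg Prod.snd e
      refine Prod.ext ?_ e2
      show h • M.f x = M.f y
      rw [← M.f_smul, e1]
  have h2 : FinOrb H {p : W1 × S.X | p.2 ∈ M.J p.1 ∧ ¬ ∃ x, M.f x = p.1} := by
    refine FinOrb.of_inj (H' := H) K1.fin (fun p => p.1) (fun _ _ => trivial) ?_
    rintro ⟨x1, p⟩ ⟨hp, hx⟩ ⟨y1, r⟩ ⟨hr, hy⟩ ⟨h, e⟩
    have e : h • x1 = y1 := e
    subst e
    refine ⟨h, Prod.ext rfl ?_⟩
    show h • p = r
    obtain ⟨-, u, hu, -⟩ := M.bare (h • x1) hy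
    have h3 : h • p ∈ M.J (h • x1) := M.J_smul h x1 p hp
    have h4 : r ∈ M.J (h • x1) := hr
    rw [hu] at h3 h4
    exact (Set.mem_singleton_iff.1 h3).trans (Set.mem_singleton_iff.1 h4).symm
  have un : ∀ (A B : Set (W1 × S.X)), FinOrb H A → FinOrb H B → FinOrb H (A ∪ B) := by
    intro A B hA hB
    have e : orbs H (A ∪ B) = orbs H A ∪ orbs H B := Set.image_union _ _ _
    unfold FinOrb
    rw [e]
    exact Set.Finite.union hA hB
  refine (un _ _ h1 h2).mono ?_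
  rintro ⟨x1, p⟩ h
  by_cases hx : ∃ x, M.f x = x1
  · exact Or.inl ⟨h, hx⟩
  · exact Or.inr ⟨h, hx⟩

/-- THE SUBTREES ON THE QUOTIENT -/
theorem js : JS P1.pq S.D M.J where
  conv x1 := by
    by_cases hx : ∃ x, M.f x = x1
    · obtain ⟨x, rfl⟩ := hx
      rw [M.J_f]
      exact S.js.conv x
    · obtain ⟨-, u, hu, -⟩ := M.bare x1 hx
      rw [hu]
      intro a ha b hb z hz
      rw [Set.mem_singleton_iff.1 ha, Set.mem_singleton_iff.1 hb] at hz
      rw [SimpleGraph.dist_self] at hz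
      have h0 : S.D.G.dist u z = 0 := by omega
      exact ((S.D.tree.connected.dist_eq_zero_iff).1 h0).symm
  ne x1 := by
    by_cases hx : ∃ x, M.f x = x1
    · obtain ⟨x, rfl⟩ := hx
      rw [M.J_f]
      exact S.js.ne x
    · obtain ⟨-, u, hu, -⟩ := M.bare x1 hx
      rw [hu]
      exact ⟨u, rfl⟩
  smul h x1 p hp := M.J_smul h x1 p hp
  one x1 y1 h := by
    rcases h with h | h
    · exact M.one_ar h
    · rw [Set.inter_comm]
      exact M.one_ar h
  two x1 w hw s hs t ht u hu := M.two x1 w hw s hs t ht u hu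
  cross x1 hx1 w w' hww hw hw' := by
    by_cases hx : ∃ x, M.f x = x1
    · obtain ⟨x, rfl⟩ := hx
      rw [M.J_f] at hw hw'
      obtain ⟨a1, ha1⟩ := hx1
      obtain ⟨a, ha, -⟩ := M.ar_lift _ _ ha1
      obtain ⟨b, hb, hb'⟩ := S.js.cross x ⟨a, ha⟩ w w' hww hw hw'
      refine ⟨M.f b, M.ar_map _ _ hb, ?_⟩
      rw [M.J_f]
      exact hb'
    · exfalso
      obtain ⟨-, u, hu, -⟩ := M.bare x1 hx
      rw [hu] at hw hw'
      rw [Set.mem_singleton_iff.1 hw, Set.mem_singleton_iff.1 hw'] at hww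
      exact hww.ne rfl
  fin := M.fin

/-- THE SYSTEM ON THE QUOTIENT -/
def sys : SyQ H W1 where
  K := K1
  P := P1
  D := S.D
  J := M.J
  js := M.js

theorem sys_J (x : W) : M.sys.J (M.f x) = S.J x := M.J_f x

/-- a vertex which crosses an edge is in the image -/
theorem Cs_lift {w w' : S.X} (hw : S.D.G.Adj w w') {x1 : W1} (h : M.sys.Cs w w' x1) :
    ∃ x, M.f x = x1 ∧ S.Cs w w' x := by
  by_cases hx : ∃ x, M.f x = x1
  · obtain ⟨x, rfl⟩ := hx
    refine ⟨x, rfl, ?_, ?_⟩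
    · have := h.1
      rwa [M.sys_J] at this
    · have := h.2
      rwa [M.sys_J] at this
  · exfalso
    obtain ⟨-, u, hu, -⟩ := M.bare x1 hx
    have h1 : w ∈ M.J x1 := h.1
    have h2 : w' ∈ M.J x1 := h.2
    rw [hu] at h1 h2
    rw [Set.mem_singleton_iff.1 h1, Set.mem_singleton_iff.1 h2] at hw
    exact hw.ne rfl

theorem Cs_map {w w' : S.X} {x : W} (h : S.Cs w w' x) : M.sys.Cs w w' (M.f x) := by
  refine ⟨?_, ?_⟩
  · rw [M.sys_J]
    exact h.1
  · rw [M.sys_J]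
    exact h.2

/-- a crossing cell gives a step of the wall -/
theorem CC_map {w w' : S.X} (hw : S.D.G.Adj w w') {a q b : W} (ha : S.Cs w w' a)
    (hb : S.Cs w w' b) (h : S.CC w w' a q b) :
    M.f a = M.f b ∨ M.sys.PW w w' (M.f a) (M.f b) := by
  obtain ⟨h1, ⟨y, z, hp, h2, h3⟩ | ⟨y, hp, h2⟩⟩ := h
  · right
    refine ⟨hw, M.Cs_map ha, M.Cs_map hb, M.f q, Or.inl ⟨?_, Or.inl ⟨M.f y, M.f z,
      M.pent _ _ _ _ _ hp, ?_, ?_⟩⟩⟩
    · rw [M.sys_J]
      exact h1
    · rw [M.sys_J]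
      exact h2
    · rw [M.sys_J]
      exact h3
  · rcases M.sq _ _ _ _ hp with e | e | ⟨p, e⟩ | e | ⟨v, u, hv, e1, e2⟩
    · exfalso
      have e' : S.J q = S.J y := by rw [← M.J_f, ← M.J_f, e]
      obtain ⟨c, hc⟩ := S.js.ne q
      have k1 : c ∈ bey S.D.G w w' := h1 hc
      have k2 : c ∈ bey S.D.G w' w := h2 (e' ▸ hc)
      have k1 : S.D.G.dist c w = S.D.G.dist c w' + 1 := k1
      have k2 : S.D.G.dist c w' = S.D.G.dist c w + 1 := k2
      omega
    · exact Or.inl e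
    · exfalso
      have k1 := ha.1
      have k2 := ha.2
      rw [e] at k1 k2
      rw [Set.mem_singleton_iff.1 k1, Set.mem_singleton_iff.1 k2] at hw
      exact hw.ne rfl
    · right
      refine ⟨hw, M.Cs_map ha, M.Cs_map hb, M.f q, Or.inl ⟨?_, Or.inr ⟨M.f y, e, ?_⟩⟩⟩
      · rw [M.sys_J]
        exact h1
      · rw [M.sys_J]
        exact h2
    · right
      rcases bey_or S.D.tree hw u with k | k
      · -- `u` is beyond `w w'`, like `q`: the second square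
        refine ⟨hw, M.Cs_map ha, M.Cs_map hb, v, Or.inl ⟨?_, Or.inr ⟨M.f y, e2, ?_⟩⟩⟩
        · show M.J v ⊆ _
          rw [hv]
          exact Set.singleton_subset_iff.2 k
        · rw [M.sys_J]
          exact h2
      · refine ⟨hw, M.Cs_map ha, M.Cs_map hb, M.f q, Or.inl ⟨?_, Or.inr ⟨v, e1, ?_⟩⟩⟩
        · rw [M.sys_J]
          exact h1
        · show M.J v ⊆ _
          rw [hv]
          exact Set.singleton_subset_iff.2 k

theorem PW_map {w w' : S.X} {a b : W} (h : S.PW w w' a b) :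
    M.f a = M.f b ∨ M.sys.PW w w' (M.f a) (M.f b) := by
  obtain ⟨hw, ha, hb, q, h | h⟩ := h
  · exact M.CC_map hw ha hb h
  · rcases M.CC_map hw.symm ha.swap hb.swap h with e | e
    · exact Or.inl e
    · exact Or.inr e.swap

theorem wall_map {w w' : S.X} {a b : W} (h : Relation.EqvGen (S.PW w w') a b) :
    Relation.EqvGen (M.sys.PW w w') (M.f a) (M.f b) := by
  induction h with
  | rel a b h =>
    rcases M.PW_map h with e | e
    · rw [e]
      exact Relation.EqvGen.refl _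
    · exact Relation.EqvGen.rel _ _ e
  | refl a => exact Relation.EqvGen.refl _
  | symm a b _ ih => exact Relation.EqvGen.symm _ _ ih
  | trans a b c _ _ i1 i2 => exact Relation.EqvGen.trans _ _ _ i1 i2

theorem slice_map {w : S.X} {a b : W} (h : Relation.EqvGen (S.SR w) a b) :
    Relation.EqvGen (M.sys.SR w) (M.f a) (M.f b) := by
  induction h with
  | rel a b h =>
    rcases h with ⟨e, h1, h2⟩ | ⟨w', h⟩
    · refine Relation.EqvGen.rel _ _ (Or.inl ⟨M.E_map e, ?_, ?_⟩)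
      · rw [M.sys_J]
        exact h1
      · rw [M.sys_J]
        exact h2
    · rcases M.PW_map h with e | e
      · rw [e]
        exact Relation.EqvGen.refl _
      · exact Relation.EqvGen.rel _ _ (Or.inr ⟨w', e⟩)
  | refl a => exact Relation.EqvGen.refl _
  | symm a b _ ih => exact Relation.EqvGen.symm _ _ ih
  | trans a b c _ _ i1 i2 => exact Relation.EqvGen.trans _ _ _ i1 i2

/-- CONNECTEDNESS GOES DOWN -/
theorem conn (hc : S.Conn) : M.sys.Conn where
  wall w w' hw x1 z1 hx hz := by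
    obtain ⟨x, rfl, hx'⟩ := M.Cs_lift hw hx
    obtain ⟨z, rfl, hz'⟩ := M.Cs_lift hw hz
    exact M.wall_map (hc.wall w w' hw x z hx' hz')
  slice w x1 z1 hx hz := by
    have key : ∀ x1 : W1, w ∈ M.sys.J x1 → ∃ x, w ∈ S.J x ∧
        Relation.EqvGen (M.sys.SR w) x1 (M.f x) := by
      intro x1 hx
      by_cases h : ∃ x, M.f x = x1
      · obtain ⟨x, rfl⟩ := h
        rw [M.sys_J] at hx
        exact ⟨x, hx, Relation.EqvGen.refl _⟩
      · obtain ⟨⟨a1, ha1⟩, u, hu, hp⟩ := M.bare x1 h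
        obtain ⟨a, rfl⟩ := M.pole _ _ ha1
        have hx' : w ∈ M.J x1 := hx
        rw [hu] at hx'
        have hx'' : w = u := hx'
        have h2 : w ∈ M.J (M.f a) := by
          rw [hx'']
          exact hp _ ha1
        refine ⟨a, ?_, Relation.EqvGen.rel _ _ (Or.inl ⟨Or.inl ha1, hx, h2⟩)⟩
        rwa [M.J_f] at h2
    obtain ⟨x, h1, h2⟩ := key x1 hx
    obtain ⟨z, h3, h4⟩ := key z1 hz
    exact Relation.EqvGen.trans _ _ _ h2 (Relation.EqvGen.trans _ _ _
      (M.slice_map (hc.slice w x z h1 h3)) (Relation.EqvGen.symm _ _ h4))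
  crossed w w' hw := by
    obtain ⟨x, hx⟩ := hc.crossed w w' hw
    exact ⟨M.f x, M.Cs_map hx⟩

/-! ### the other fields -/

theorem stab_le (x : W) : stabilizer H x ≤ stabilizer H (M.f x) := by
  intro g hg
  have hg : g • x = x := hg
  show g • M.f x = M.f x
  rw [← M.f_smul, hg]

theorem ell_f {x : W} (h : Ell H S.X (M.f x)) : Ell H S.X x := by
  obtain ⟨c, hc⟩ := h
  exact ⟨c, fun g hg => hc g (M.stab_le x hg)⟩

theorem f_ell {x : W} (h : Ell H S.X x) : Ell H S.X (M.f x) := by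
  by_cases hf : Finite ↥(stabilizer H (M.f x))
  · have := S.D.tree.connected.nonempty
    obtain ⟨c, hc⟩ := Pool.Agent.SAG.fix_of_finite S.D.tact _ hf
    exact ⟨c, hc⟩
  · obtain ⟨c, hc⟩ := h
    exact ⟨c, fun g hg => hc g (M.stab x (not_finite_iff_infinite.1 hf) hg)⟩

theorem sink {x : W} (h : ∀ a1, ¬ K1.ar (M.f x) a1) (a : W) : ¬ S.K.ar x a :=
  fun k => h _ (M.ar_map _ _ k)

theorem isC {v : Fin 5 → W} {c : S.X} (h : S.IsC v c) :
    M.sys.IsC (fun k => M.f (v k)) c := by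
  intro k
  rcases h k with h | h
  · left
    rw [M.sys_J]
    exact h
  · right
    rw [M.sys_J]
    exact h

theorem isC5 {a q b y z : W} {c : S.X} (h : S.IsC ![a, q, b, y, z] c) :
    M.sys.IsC ![M.f a, M.f q, M.f b, M.f y, M.f z] c := by
  intro k
  have h0 := M.isC h k
  fin_cases k
  exacts [h0, h0, h0, h0, h0]

theorem isC5' {a q b y z : W} {c : S.X}
    (h : M.sys.IsC ![M.f a, M.f q, M.f b, M.f y, M.f z] c) : S.IsC ![a, q, b, y, z] c := by
  have key : ∀ x, c ∈ M.sys.J (M.f x) → c ∈ S.J x := by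
    intro x hx
    rwa [M.sys_J] at hx
  intro k
  have h0 := h k
  fin_cases k
  exacts [h0.imp (key _) (key _), h0.imp (key _) (key _), h0.imp (key _) (key _),
    h0.imp (key _) (key _), h0.imp (key _) (key _)]

/-- THE SYSTEM ON THE QUOTIENT IS GOOD -/
theorem gdQ {Z : W → Prop} {Z1 : W1 → Prop} (hg : S.GdQ Z)
    (hZ : ∀ x, (∀ a, ¬ S.K.ar x a) → Z1 (M.f x) → Z x) : M.sys.GdQ Z1 where
  conn := M.conn hg.conn
  soft x1 a1 ha := by
    by_cases hx : ∃ x, M.f x = x1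
    · obtain ⟨x, rfl⟩ := hx
      obtain ⟨a, ha', -⟩ := M.ar_lift _ _ ha
      exact M.f_ell (hg.soft x a ha')
    · obtain ⟨-, u, hu, -⟩ := M.bare x1 hx
      refine ⟨u, fun g hg => ?_⟩
      have h1 : g • u ∈ M.J (g • x1) := M.J_smul g x1 u (by rw [hu]; rfl)
      rw [show g • x1 = x1 from hg, hu] at h1
      exact h1
  fin x1 he := by
    by_cases hx : ∃ x, M.f x = x1
    · obtain ⟨x, rfl⟩ := hx
      rw [M.sys_J]
      exact hg.fin x (M.ell_f he)
    · obtain ⟨-, u, hu, -⟩ := M.bare x1 hx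
      show (M.J x1).Finite
      rw [hu]
      exact Set.finite_singleton u
  one z1 hz he := by
    by_cases hx : ∃ x, M.f x = z1
    · obtain ⟨z, rfl⟩ := hx
      rw [M.sys_J]
      exact hg.one z (M.sink hz) (M.ell_f he)
    · obtain ⟨⟨a, ha⟩, -⟩ := M.bare z1 hx
      exact absurd ha (hz a)
  seen z1 hz hzZ he := by
    by_cases hx : ∃ x, M.f x = z1
    · obtain ⟨z, rfl⟩ := hx
      obtain ⟨p, b, c, y, y', h1, h2, h3⟩ :=
        hg.seen z (M.sink hz) (hZ z (M.sink hz) hzZ) (M.ell_f he)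
      refine ⟨p, M.f b, M.f c, M.f y, M.f y', ?_, M.pent _ _ _ _ _ h2, M.isC5 h3⟩
      rw [M.sys_J]
      exact h1
    · obtain ⟨⟨a, ha⟩, -⟩ := M.bare z1 hx
      exact absurd ha (hz a)
  ax z1 hz he := by
    by_cases hx : ∃ x, M.f x = z1
    · obtain ⟨z, rfl⟩ := hx
      have he' : ¬ Ell H S.X z := fun h => he (M.f_ell h)
      have hi : Infinite ↥(stabilizer H (M.f z)) := by
        by_contra hf
        rw [not_infinite_iff_finite] at hf
        have := S.D.tree.connected.nonempty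
        obtain ⟨c, hc⟩ := Pool.Agent.SAG.fix_of_finite S.D.tact _ hf
        exact he ⟨c, hc⟩
      rw [M.sys_J, hg.ax z (M.sink hz) he']
      have e : stabilizer H z = stabilizer H (M.f z) := le_antisymm (M.stab_le z) (M.stab z hi)
      rw [e]
      rfl
    · obtain ⟨⟨a, ha⟩, -⟩ := M.bare z1 hx
      exact absurd ha (hz a)

/-- heavy arrows -/
theorem tog (ht : ∀ x a, S.K.ar x a → Infinite ↥(stabilizer H ((x, a) : W × W)) → S.Tog x a)
    (hb : ∀ x1, (¬ ∃ x, M.f x = x1) → Finite ↥(stabilizer H x1)) (x1 a1 : W1)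
    (ha : K1.ar x1 a1) (hi : Infinite ↥(stabilizer H ((x1, a1) : W1 × W1))) :
    M.sys.Tog x1 a1 := by
  have hi1 : Infinite ↥(stabilizer H x1) := inf_of_arrow hi
  have hi2 : Infinite ↥(stabilizer H a1) := by
    refine Infinite.of_injective (fun g : ↥(stabilizer H ((x1, a1) : W1 × W1)) =>
      (⟨g.1, congrArg Prod.snd g.2⟩ : ↥(stabilizer H a1))) ?_
    intro a b e
    have e' := congrArg Subtype.val e
    exact Subtype.ext e'
  by_cases hx : ∃ x, M.f x = x1
  · obtain ⟨x, rfl⟩ := hx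
    obtain ⟨a, ha', rfl⟩ := M.ar_lift _ _ ha
    have hi3 : Infinite ↥(stabilizer H ((x, a) : W × W)) := by
      refine Infinite.of_injective (fun g : ↥(stabilizer H ((M.f x, M.f a) : W1 × W1)) =>
        (⟨g.1, Prod.ext (M.stab x hi1 (congrArg Prod.fst g.2))
          (M.stab a hi2 (congrArg Prod.snd g.2))⟩ : ↥(stabilizer H ((x, a) : W × W)))) ?_
      intro a b e
      have e' := congrArg Subtype.val e
      exact Subtype.ext e'
    obtain ⟨p, h1, h2⟩ := ht x a ha' hi3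
    refine ⟨p, ?_, ?_⟩
    · rw [M.sys_J]
      exact h1
    · rw [M.sys_J]
      exact h2
  · exact absurd (hb x1 hx) (not_finite_iff_infinite.2 hi1)

/-- THE PLACEMENT CONDITIONS GO DOWN -/
theorem plcd (pl : S.Plcd) : M.sys.Plcd where
  page x1 p p' hp hpp hfix hpo hpa := by
    obtain ⟨n1, hn1⟩ := hpa
    rcases M.E_lift hn1 with h | ⟨n, x, rfl, rfl, h⟩
    · obtain ⟨-, u, hu, hq⟩ := M.bare n1 h
      refine ⟨n1, hn1, ?_⟩
      have h1 : u ∈ M.sys.J x1 := hq _ hn1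
      rw [hp] at h1
      have h1' : u = p := h1
      show p' ∉ M.J n1
      rw [hu, h1']
      intro h2
      have h2' : p' = p := h2
      exact hpp.ne h2'.symm
    · rw [M.sys_J] at hp
      obtain ⟨m, hm, hm'⟩ := pl.page x p p' hp hpp
        (fun g hg => hfix g (M.stab_le x hg)) (fun a ha => by
          have := hpo _ (M.ar_map _ _ ha)
          rwa [M.sys_J] at this) ⟨n, h⟩
      refine ⟨M.f m, M.ar_map _ _ hm, ?_⟩
      rwa [M.sys_J]
  nopage v1 p p' ha hn hp hpp hfix hpo hq := by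
    obtain ⟨a1, b1, y1, z1, hq⟩ := hq
    obtain ⟨a, v, b, y, z, hq', rfl, rfl, rfl, rfl, rfl⟩ := M.pent_lift _ _ _ _ _ hq
    obtain ⟨c1, hc1⟩ := ha
    obtain ⟨c, hc, -⟩ := M.ar_lift _ _ hc1
    rw [M.sys_J] at hp
    obtain ⟨a', b', y', z', d, k1, k2, k3⟩ := pl.nopage v p p' ⟨c, hc⟩
      (fun n k => hn _ (M.ar_map _ _ k)) hp hpp (fun g hg => hfix g (M.stab_le v hg))
      (fun a ha => by
        have := hpo _ (M.ar_map _ _ ha)
        rwa [M.sys_J] at this) ⟨a, b, y, z, hq'⟩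
    exact ⟨M.f a', M.f b', M.f y', M.f z', d, M.pent _ _ _ _ _ k1, M.isC5 k2, k3⟩

end Dsc

namespace SyQ

variable {H V : Type} [Group H] [MulAction H V] (S : SyQ H V)

/-- ONE-SIDED SOFTS (R0). Let `J x = {p}` and let the two poles of `x` contain `p'` next to `p`:
`page`: no page of `x` crosses `p p'`; `dir`: no pentagon at a direct corner of `x` is centred beyond
`p p'`; `int`: if `x` has a page or a direct pentagon corner, there is at most one such `p'` -/
structure R0 : Prop where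
  page : ∀ {x a b n : V} {p p' : S.X}, S.J x = {p} → S.D.G.Adj p p' → S.K.ar x a → S.K.ar x b →
    a ≠ b → p' ∈ S.J a → p' ∈ S.J b → S.K.ar n x → p' ∉ S.J n
  dir : ∀ {x a b y z : V} {p p' c : S.X}, S.J x = {p} → S.D.G.Adj p p' → S.K.ar x a →
    S.K.ar x b → p' ∈ S.J a → p' ∈ S.J b → Qn S.P a x b y z → S.IsC ![a, x, b, y, z] c →
    c ∉ bey S.D.G p p'
  int : ∀ {x a b : V} {p p' p'' : S.X}, ((∃ n, S.K.ar n x) ∨ ∃ c d y z, S.K.ar x c ∧ S.K.ar x d ∧
    Qn S.P c x d y z) → S.J x = {p} → S.K.ar x a → S.K.ar x b → a ≠ b → S.D.G.Adj p p' →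
    S.D.G.Adj p p'' → p' ∈ S.J a → p' ∈ S.J b → p'' ∈ S.J a → p'' ∈ S.J b → p' = p''

end SyQ

namespace Dsc

variable {H W W1 : Type} [Group H] [MulAction H W] [MulAction H W1] {S : SyQ H W}
  {K1 : GX H W1} {P1 : P45 K1} (M : Dsc S K1 P1)

/-- R0 GOES DOWN -/
theorem r0 (h : S.R0) : M.sys.R0 where
  page := by
    intro x1 a1 b1 n1 p p' hp hpp ha hb hab hpa hpb hn
    rcases M.E_lift hn with h' | ⟨n, x, rfl, rfl, h'⟩
    · obtain ⟨-, u, hu, hq⟩ := M.bare n1 h'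
      have h1 : u ∈ M.sys.J x1 := hq _ hn
      rw [hp] at h1
      have h1' : u = p := h1
      show p' ∉ M.J n1
      rw [hu, h1']
      intro h2
      have h2' : p' = p := h2
      exact hpp.ne h2'.symm
    · obtain ⟨a, ha', rfl⟩ := M.ar_lift _ _ ha
      obtain ⟨b, hb', rfl⟩ := M.ar_lift _ _ hb
      rw [M.sys_J] at hp hpa hpb ⊢
      exact h.page hp hpp ha' hb' (fun e => hab (by rw [e])) hpa hpb h'
  dir := by
    intro x1 a1 b1 y1 z1 p p' c hp hpp ha hb hpa hpb hq hc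
    obtain ⟨a, x, b, y, z, hq', rfl, rfl, rfl, rfl, rfl⟩ := M.pent_lift _ _ _ _ _ hq
    rw [M.sys_J] at hp hpa hpb
    have ha' : S.K.ar x a := by
      rcases hq'.E1 with k | k
      · exact absurd (M.ar_map _ _ k) (fun k' => by
          have h1 := K1.ar_rk _ _ ha
          have h2 := K1.ar_rk _ _ k'
          omega)
      · exact k
    have hb' : S.K.ar x b := by
      rcases hq'.E2 with k | k
      · exact k
      · exact absurd (M.ar_map _ _ k) (fun k' => by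
          have h1 := K1.ar_rk _ _ hb
          have h2 := K1.ar_rk _ _ k'
          omega)
    exact h.dir hp hpp ha' hb' hpa hpb hq' (M.isC5' hc)
  int := by
    intro x1 a1 b1 p p' p'' hnb hp ha hb hab h1 h2 h3 h4 h5 h6
    have key : ∀ x, M.f x = x1 → ((∃ n, S.K.ar n x) ∨ ∃ c d y z, S.K.ar x c ∧ S.K.ar x d ∧
        Qn S.P c x d y z) → p' = p'' := by
      rintro x rfl hx
      obtain ⟨a, ha', rfl⟩ := M.ar_lift _ _ ha
      obtain ⟨b, hb', rfl⟩ := M.ar_lift _ _ hb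
      rw [M.sys_J] at hp h3 h4 h5 h6
      exact h.int hx hp ha' hb' (fun e => hab (by rw [e])) h1 h2 h3 h4 h5 h6
    rcases hnb with ⟨n1, hn1⟩ | ⟨c1, d1, y1, z1, hc1, hd1, hq⟩
    · rcases M.E_lift hn1 with h' | ⟨n, x, rfl, rfl, h'⟩
      · obtain ⟨s, hs⟩ := M.sib n1 h'
        obtain ⟨x, hx, e⟩ := M.ar_lift _ _ (hs _ hn1)
        exact key x e (Or.inl ⟨s, hx⟩)
      · exact key x rfl (Or.inl ⟨n, h'⟩)
    · obtain ⟨c, x, d, y, z, hq', rfl, rfl, rfl, rfl, rfl⟩ := M.pent_lift _ _ _ _ _ hq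
      have hc' : S.K.ar x c := by
        rcases hq'.E1 with k | k
        · exact absurd (M.ar_map _ _ k) (fun k' => by
            have h1 := K1.ar_rk _ _ hc1
            have h2 := K1.ar_rk _ _ k'
            omega)
        · exact k
      have hd' : S.K.ar x d := by
        rcases hq'.E2 with k | k
        · exact k
        · exact absurd (M.ar_map _ _ k) (fun k' => by
            have h1 := K1.ar_rk _ _ hd1
            have h2 := K1.ar_rk _ _ k'
            omega)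
      exact key x rfl (Or.inr ⟨c, d, y, z, hc', hd', hq'⟩)

end Dsc

end Pool.Agent.DI
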