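import Pool.Agent.DI.DscN

/-!
# DI/DscE: two labels of a new square are not exchanged

`s : m.Stp J`. `s.eb`: the field `eb` of `Psv` for the step complex.
-/

namespace Pool.Agent.DI

open MulAction
open Pool.Agent.SAF (InC SA orbs FinOrb oc Decomp SAn Conv FinOrb_iff exists_next)
open Pool.Agent.BT (PX PQ JS bey exits Ell mst)

namespace OpMap.Stp

variable {H V W W1 : Type} [Group H] [MulAction H V] [MulAction H W] [MulAction H W1]
  {K : GX H V} {P : P45 K} {O : OpW K W} {O1 : OpW K W1} {m : OpMap O O1} {D : Decomp H}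
  {J : W → Set D.X} (s : m.Stp J) {js : JS (O.p45 P).pq D J}
  {hc : (SyQ.mk O.gx (O.p45 P) D J js).Conn} {tw : W → W → Prop} {Tp : W → Prop} {pt : W → W}
  {Z : W → Prop}

include s

/-- TWO LABELS OF A NEW SQUARE ARE NOT EXCHANGED -/
theorem eb (r : (SyQ.mk O.gx (O.p45 P) D J js).RK hc tw Tp pt Z) (hT : P.SqT) {T a b y : W1}
    (h : (O1.p45 P).Top T a b y) (hd : O1.Dbl T) (hb : ¬ (O1.p45 P).Bare T)
    (hb' : ¬ (O1.p45 P).Bare y) (g : H) : g • T ≠ y := by
  intro e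
  rcases O1.Top_π P h with k | k
  · exact (s.nt r hT).top k hd
  · rcases s.nsq js k with ⟨x, x', e1, e2, e3, e4⟩ | ⟨-, h2⟩ | ⟨-, h2⟩
    · have p := (OpW.NSq.ar _ k).2.2.2.2.1
      have q1 : O.π x = O.π x' := by rw [← m.f_π, ← m.f_π, e1, e2, p]
      have q2 : m.f (g • x) = m.f x' := by rw [m.f_smul, e1, e, e2]
      have q3 : J (g • x) = J x' := s.inj _ _ q2
      have q4 : g • O.π x = O.π x := by
        rw [← O.π_smul, ← m.f_π (g • x), q2, m.f_π, q1]
      refine e4 ⟨g, J x, J x', q4, ⟨x, rfl, rfl⟩, ⟨x', q1.symm, rfl⟩, e3, ?_⟩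
      exact (js_lab js g x).symm.trans q3
    · exact hb' (nIm_bare h2)
    · exact hb (nIm_bare h2)

end OpMap.Stp

end Pool.Agent.DI
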