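import Pool.Agent.DI.ExcT
import Pool.Agent.DI.OpnN

/-!
# The excess relative to the opened softs

`P.nSpE E`: the number of the special tops which are not in `E`; `P.excE E := K.pexc - P.nSpE E`.
`excE_false`: for states this is `P.exc`. `nSp_add`: `nSp = nSpE E +` the number of the special tops in `E`.
`OpW.nSpE_eq`, `OpW.excE_eq`: `(O.p45 P).excE (O.EE E) = P.excE E` for every opened complex `O`.
`thin_nSpE`, `SubGX.excE_all`: thinning and parts with all cells.
-/

namespace Pool.Agent.DI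

open MulAction
open Pool.Agent.SAF (InC SA orbs FinOrb oc FinOrb_iff oc_le_of_inj oc_le_of_surj oc_mono)
open P45

namespace P45

variable {H V : Type} [Group H] [MulAction H V] {K : GX H V} (P : P45 K)

/-- the number of the special tops which are not in `E` -/
noncomputable def nSpE (E : V → Prop) : ℕ := oc H {T | T ∈ P.spT ∧ ¬ E T}

/-- THE EXCESS RELATIVE TO `E` -/
noncomputable def excE (E : V → Prop) : ℤ := K.pexc - P.nSpE E

variable {P}

theorem nSpE_false : P.nSpE (fun _ => False) = oc H P.spT := by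
  unfold nSpE
  congr 1
  ext T
  exact ⟨fun h => h.1, fun h => ⟨h, fun k => k⟩⟩

/-- for a state -/
theorem excE_false (hs : P.SqT) : P.excE (fun _ => False) = P.exc := by
  unfold excE exc
  rw [nSpE_false, nSp_eq hs]

/-- the special tops: those in `E` and the others -/
theorem nSp_add {E : V → Prop} (hs : P.SqE E) :
    P.nSp = oc H {T | T ∈ P.spT ∧ E T} + P.nSpE E := by
  rw [nSp_eq hs]
  exact oc_split (G := H) fin_spT E (fun g T _ _ k => hs.Es g T k)

/-- THE EXCESS OF `K1` ITSELF, `E` = the opened softs -/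
theorem excE_add {E : V → Prop} (hs : P.SqE E) :
    P.excE E = P.exc + oc H {T | T ∈ P.spT ∧ E T} := by
  unfold excE exc
  rw [nSp_add hs]
  push_cast
  ring

theorem exc_le_excE {E : V → Prop} (hs : P.SqE E) : P.exc ≤ P.excE E := by
  rw [excE_add hs]
  omega

variable (P)

theorem thin_spT : P.thinP.spT = P.spT := by
  unfold spT
  simp only [P.thin_Top]

theorem thin_nSpE (E : V → Prop) : P.thinP.nSpE E = P.nSpE E := by
  unfold nSpE
  rw [P.thin_spT]

theorem thin_excE (E : V → Prop) (hp : P.NoPl) : P.thinP.excE E = P.excE E := by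
  unfold excE
  rw [P.thin_pexc_of hp, P.thin_nSpE]

end P45

namespace OpW

variable {H V W : Type} [Group H] [MulAction H V] [MulAction H W] {K : GX H V} (O : OpW K W)
  (P : P45 K)

/-- the special tops which are not in `E`, of the opened complex -/
theorem nSpE_eq (hv : O.NT P) (hj : ∀ j, O.js j ≠ O.jt j) (E : V → Prop) :
    (O.p45 P).nSpE (O.EE E) = P.nSpE E := by
  have e : {x : W | x ∈ (O.p45 P).spT ∧ ¬ O.EE E x} = {x : W | O.π x ∈ {T | T ∈ P.spT ∧ ¬ E T}} := by
    ext x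
    constructor
    · rintro ⟨h1, h2⟩
      have hd : ¬ O.Dbl x := fun k => h2 (Or.inl k)
      exact ⟨(O.spT_eq P hv hj x).1 ⟨hd, h1⟩, fun k => h2 (Or.inr k)⟩
    · rintro ⟨h1, h2⟩
      obtain ⟨h3, h4⟩ := (O.spT_eq P hv hj x).2 h1
      exact ⟨h4, fun k => k.elim h3 h2⟩
  unfold nSpE
  rw [e]
  exact O.oc_ndbl fun x ⟨⟨a, b, y, h, _⟩, _⟩ => hv.top h

/-- THE STATIC EQUALITY OF THE EXCESS -/
theorem excE_eq (ht : O.Tw) (hv : O.NT P) (hj : ∀ j, O.js j ≠ O.jt j) (E : V → Prop) :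
    (O.p45 P).excE (O.EE E) = P.excE E := by
  unfold excE
  rw [O.pexc_eq ht, O.nSpE_eq P hv hj E]

end OpW

namespace SubGX

variable {H' V' H V : Type} [Group H'] [MulAction H' V'] [Group H] [MulAction H V]
  {K' : GX H' V'} {K : GX H V} (S : SubGX K' K) (P' : P45 K') (P : P45 K)

/-- the special tops which are not in `E`, in a part with all cells -/
theorem nSpE_all (hall : ∀ i : K.I, ∃ i', S.ι i' = i) {E : V → Prop} (hs : P.SqE E) :
    P'.nSpE (fun v => E (S.f v)) = P.nSpE E := by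
  have hs' := S.sqE P' P hs
  have h1 := nSp_add hs'
  have h2 := nSp_add hs
  have h3 := S.nSp_eq P' P hall hs
  -- the special tops in `E`
  have h4 : oc H' {T | T ∈ P'.spT ∧ E (S.f T)} = oc H {T | T ∈ P.spT ∧ E T} := by
    have key : ∀ T ∈ P'.spT, S.f T ∈ P.spT := by
      rintro T ⟨a, b, y, k, g, hg, hb⟩
      refine ⟨S.f a, S.f b, S.f y, (S.top_iff P' P).1 k, S.φ g, ?_, ?_⟩
      · rw [← S.f_smul, hg]
      · rw [← S.f_smul, hb]
    apply le_antisymm
    · refine oc_le_of_inj (fin_spT.mono fun T h => h.1) S.f (fun T h => ⟨key T h.1, h.2⟩) ?_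
      rintro T ⟨⟨a, b, y, k, -⟩, -⟩ T' ⟨⟨a', b', y', k', -⟩, -⟩ ⟨h, e⟩
      have k1 := ((S.top_iff P' P).1 k)
      have k2 := ((S.top_iff P' P).1 k')
      have h1 := K.ar_smul h _ _ k1.2.1
      rw [e] at h1
      have h2 : ∃ c, K'.ar T' c ∧ h • S.f a = S.f c := by
        rcases hs.sides k2 h1 with e | e
        · exact ⟨a', k'.2.1, e⟩
        · exact ⟨b', k'.2.2, e⟩
      obtain ⟨c, hc, e2⟩ := h2
      obtain ⟨k, rfl⟩ := S.edge T a T' c h (Or.inl k.2.1) (Or.inl hc) e e2
      exact ⟨k, S.f_inj (by rw [S.f_smul]; exact e)⟩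
    · refine oc_le_of_surj (fin_spT.mono fun T h => h.1) S.f ?_ ?_
      · rintro T ⟨⟨a, b, y, k, g, hg, hb⟩, hE⟩
        obtain ⟨h, a', T', b', y', rfl, rfl, rfl, rfl, hq⟩ := S.q4_all P' P hall k.1
        have t : P'.Top T' a' b' y' := ⟨hq, (S.ar_iff _ _).2 ((GX.ar_smul_iff h).1 k.2.1),
          (S.ar_iff _ _).2 ((GX.ar_smul_iff h).1 k.2.2)⟩
        have e1 : (h⁻¹ * g * h) • S.f T' = S.f T' := by
          rw [mul_smul, mul_smul, hg, inv_smul_smul]
        have e2 : (h⁻¹ * g * h) • S.f a' = S.f b' := by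
          rw [mul_smul, mul_smul, hb, inv_smul_smul]
        obtain ⟨k', hk'⟩ := S.edge T' a' T' b' _ (Or.inl t.2.1) (Or.inl t.2.2) e1 e2
        refine ⟨T', ⟨⟨a', b', y', t, k', S.f_inj ?_, S.f_inj ?_⟩, ?_⟩, h, rfl⟩
        · rw [S.f_smul, hk', e1]
        · rw [S.f_smul, hk', e2]
        · have := hs.Es h⁻¹ _ hE
          rwa [inv_smul_smul] at this
      · rintro a _ b _ ⟨h, rfl⟩
        exact ⟨S.φ h, (S.f_smul h a).symm⟩
  omega

end SubGX

end Pool.Agent.DI
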