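import Pool.Agent.DI.QSys
import Pool.Agent.DI.Quot
import Pool.Agent.DI.Lk

/-!
# Folding tops

`F : TpF K`: an invariant set `Z` of vertices (tops) with partners `F.pi v` of smaller rank such that
every pole of a top is joined to the partner. `F.W`: the vertices which are not in `Z`;
`F.f : V → F.W` iterates the partners. `F.gx P`: the quotient complex (`P : P45 K`), its cells are the
images of the pentagons and of the squares whose image is not degenerate. Nothing is assumed about the
cells: adjacent vertices are never identified (`F.f_ne`), the area does not change (`F.gx_area`).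
-/

namespace Pool.Agent.DI

open MulAction
open Pool.Agent.SAF (InC orbs FinOrb oc)
open Pool.Agent.BT (HG Mg lz lz_self lz_ne lz_symm)

/-- tops and their partners -/
structure TpF {H V : Type} [Group H] [MulAction H V] (K : GX H V) where
  Z : V → Prop
  pi : V → V
  Z_smul : ∀ (h : H) (v : V), Z v → Z (h • v)
  pi_smul : ∀ (h : H) (v : V), Z v → pi (h • v) = h • pi v
  pi_rk : ∀ v, Z v → K.rk (pi v) < K.rk v
  pi_E : ∀ v a, Z v → K.ar v a → K.E (pi v) a
  ex : ∀ v, Z v → ∃ a, K.ar v a

namespace TpF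

variable {H V : Type} [Group H] [MulAction H V] {K : GX H V} (F : TpF K)

theorem Z_iff (h : H) (v : V) : F.Z (h • v) ↔ F.Z v := by
  refine ⟨fun k => ?_, F.Z_smul h v⟩
  have := F.Z_smul h⁻¹ _ k
  rwa [inv_smul_smul] at this

open Classical in
/-- one step -/
noncomputable def s (v : V) : V := if F.Z v then F.pi v else v

theorem s_Z {v : V} (h : F.Z v) : F.s v = F.pi v := if_pos h

theorem s_not {v : V} (h : ¬ F.Z v) : F.s v = v := if_neg h

theorem s_smul (h : H) (v : V) : F.s (h • v) = h • F.s v := by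
  by_cases k : F.Z v
  · rw [F.s_Z k, F.s_Z (F.Z_smul h v k), F.pi_smul h v k]
  · rw [F.s_not k, F.s_not (fun e => k ((F.Z_iff h v).1 e))]

theorem s_rk (v : V) : K.rk (F.s v) ≤ K.rk v := by
  by_cases k : F.Z v
  · rw [F.s_Z k]; exact (F.pi_rk v k).le
  · rw [F.s_not k]

theorem iter_smul (n : ℕ) (h : H) (v : V) : F.s^[n] (h • v) = h • F.s^[n] v := by
  induction n generalizing v with
  | zero => rfl
  | succ n ih => rw [Function.iterate_succ_apply, Function.iterate_succ_apply, F.s_smul, ih]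

theorem iter_rk (n : ℕ) (v : V) : K.rk (F.s^[n] v) ≤ K.rk v := by
  induction n generalizing v with
  | zero => exact le_rfl
  | succ n ih =>
    rw [Function.iterate_succ_apply]
    exact (ih _).trans (F.s_rk v)

theorem iter_not (n : ℕ) {v : V} (h : ¬ F.Z v) : F.s^[n] v = v := by
  induction n with
  | zero => rfl
  | succ n ih => rw [Function.iterate_succ_apply, F.s_not h, ih]

theorem iter_end (n : ℕ) (v : V) (h : K.rk v ≤ n) : ¬ F.Z (F.s^[n] v) := by
  induction n generalizing v with
  | zero =>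
    intro k
    have := F.pi_rk v k
    omega
  | succ n ih =>
    by_cases k : F.Z v
    · rw [Function.iterate_succ_apply, F.s_Z k]
      have := F.pi_rk v k
      exact ih _ (by omega)
    · rw [F.iter_not _ k]
      exact k

/-- the last partner -/
noncomputable def g (v : V) : V := F.s^[K.rk v] v

theorem g_nZ (v : V) : ¬ F.Z (F.g v) := F.iter_end _ v le_rfl

theorem iter_eq (n : ℕ) (v : V) (h : K.rk v ≤ n) : F.s^[n] v = F.g v := by
  obtain ⟨k, rfl⟩ := Nat.exists_eq_add_of_le h
  rw [add_comm, Function.iterate_add_apply]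
  exact F.iter_not k (F.g_nZ v)

theorem g_not {v : V} (h : ¬ F.Z v) : F.g v = v := F.iter_not _ h

theorem g_pi {v : V} (h : F.Z v) : F.g v = F.g (F.pi v) := by
  have h1 := F.pi_rk v h
  obtain ⟨k, hk⟩ : ∃ k, K.rk v = k + 1 := ⟨K.rk v - 1, by omega⟩
  unfold g
  rw [hk, Function.iterate_succ_apply, F.s_Z h]
  exact F.iter_eq k _ (by omega)

theorem g_smul (h : H) (v : V) : F.g (h • v) = h • F.g v := by
  unfold g
  rw [K.rk_smul, F.iter_smul]

theorem g_rk (v : V) : K.rk (F.g v) ≤ K.rk v := F.iter_rk _ v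

/-- the remaining vertices -/
def W : Type := {v : V // ¬ F.Z v}

instance : MulAction H F.W where
  smul h v := ⟨h • v.1, fun k => v.2 ((F.Z_iff h v.1).1 k)⟩
  one_smul _ := Subtype.ext (one_smul _ _)
  mul_smul _ _ _ := Subtype.ext (mul_smul _ _ _)

theorem smul_val (h : H) (v : F.W) : (h • v).1 = h • v.1 := rfl

/-- THE FOLD -/
noncomputable def f (v : V) : F.W := ⟨F.g v, F.g_nZ v⟩

theorem f_val (v : V) : (F.f v).1 = F.g v := rfl

theorem f_eq {v w : V} : F.f v = F.f w ↔ F.g v = F.g w :=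
  ⟨fun h => congrArg Subtype.val h, fun h => Subtype.ext h⟩

theorem f_not {v : V} (h : ¬ F.Z v) : F.f v = ⟨v, h⟩ := Subtype.ext (F.g_not h)

theorem f_W (v : F.W) : F.f v.1 = v := F.f_not v.2

theorem f_pi {v : V} (h : F.Z v) : F.f v = F.f (F.pi v) := Subtype.ext (F.g_pi h)

theorem f_smul (h : H) (v : V) : F.f (h • v) = h • F.f v := Subtype.ext (F.g_smul h v)

theorem f_surj : Function.Surjective F.f := fun v => ⟨v.1, F.f_W v⟩

/-- the new arrows -/
def ar (a b : F.W) : Prop := ∃ c, K.ar a.1 c ∧ F.f c = b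

theorem ar_rk {a b : F.W} (h : F.ar a b) : K.rk b.1 < K.rk a.1 := by
  obtain ⟨c, h1, rfl⟩ := h
  exact (F.g_rk c).trans_lt (K.ar_rk _ _ h1)

theorem ar_smul (h : H) {a b : F.W} (k : F.ar a b) : F.ar (h • a) (h • b) := by
  obtain ⟨c, h1, rfl⟩ := k
  exact ⟨h • c, K.ar_smul h _ _ h1, F.f_smul h c⟩

theorem e_main (n : ℕ) : ∀ x y, K.ar x y → K.rk x + K.rk y ≤ n →
    F.ar (F.f x) (F.f y) ∨ F.ar (F.f y) (F.f x) := by
  induction n with
  | zero =>
    intro x y h k
    have := K.ar_rk _ _ h
    omega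
  | succ n ih =>
    intro x y h k
    by_cases hx : F.Z x
    · have h1 := F.pi_rk x hx
      rw [F.f_pi hx]
      rcases F.pi_E x y hx h with e | e
      · exact ih _ _ e (by omega)
      · exact (ih _ _ e (by omega)).symm
    · left
      refine ⟨y, ?_, rfl⟩
      rw [F.f_not hx]
      exact h

theorem e_map {x y : V} (h : K.E x y) : F.ar (F.f x) (F.f y) ∨ F.ar (F.f y) (F.f x) := by
  rcases h with h | h
  · exact F.e_main _ x y h le_rfl
  · exact (F.e_main _ y x h le_rfl).symm

/-- adjacent vertices are not identified -/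
theorem f_ne {x y : V} (h : K.E x y) : F.f x ≠ F.f y := by
  intro e
  rcases F.e_map h with k | k
  · rw [e] at k
    exact lt_irrefl _ (F.ar_rk k)
  · rw [e] at k
    exact lt_irrefl _ (F.ar_rk k)

theorem stab_W (v : F.W) : stabilizer H v = stabilizer H v.1 := by
  ext h
  exact ⟨fun k => congrArg Subtype.val (show h • v = v from k), fun k => Subtype.ext k⟩

/-- `x` and its last partner are joined by folds -/
theorem eqv_g (x : V) : Relation.EqvGen (fun a b => F.f a = F.f b ∧
    ((∃ c, K.E c a ∧ K.E c b) ∨ K.E a b)) x (F.g x) := by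
  induction hn : K.rk x using Nat.strong_induction_on generalizing x with
  | _ n ih =>
    by_cases hx : F.Z x
    · have h1 := F.pi_rk x hx
      obtain ⟨a, ha⟩ := F.ex x hx
      rw [F.g_pi hx]
      refine Relation.EqvGen.trans _ _ _ (Relation.EqvGen.rel _ _ ⟨F.f_pi hx, Or.inl ⟨a,
        Or.inr ha, (F.pi_E x a hx ha).symm⟩⟩) (ih _ (by omega) _ rfl)
    · rw [F.g_not hx]
      exact Relation.EqvGen.refl _

/-! ### the quotient complex -/

variable (P : P45 K)

/-- the cell is a pentagon or a square whose image is not degenerate -/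
def kept (i : K.I) : Prop := P.sq i → F.f (P.qt i 0) ≠ F.f (P.qt i 2) ∧ F.f (P.qt i 1) ≠ F.f (P.qt i 3)

/-- the data of the quotient -/
noncomputable def q : Qt K F.f where
  ar := F.ar
  rk v := K.rk v.1
  equi := F.f_smul
  surj := F.f_surj
  ar_rk _ _ h := F.ar_rk h
  ar_smul h _ _ k := F.ar_smul h k
  rk_smul h v := K.rk_smul h v.1
  two := by
    rintro v _ _ _ ⟨a, ha, rfl⟩ ⟨b, hb, rfl⟩ ⟨c, hc, rfl⟩
    rcases K.two v.1 a b c ha hb hc with rfl | rfl | rfl
    · exact Or.inl rfl
    · exact Or.inr (Or.inl rfl)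
    · exact Or.inr (Or.inr rfl)
  e1 _ _ e := Or.inr (F.e_map e)
  e2 := by
    rintro c _ ⟨d, h, rfl⟩
    exact ⟨c.1, d, Or.inl h, F.f_W c, rfl⟩
  mg x y h := by
    apply mg_of_eqv
    have h1 := F.eqv_g x
    have h2 := F.eqv_g y
    rw [← F.f_eq.1 h] at h2
    exact h1.trans _ _ _ h2.symm
  stab v := by
    rw [F.stab_W v]
    exact K.stab v.1
  J := {i : K.I // F.kept P i}
  finJ := by
    have := K.finI
    infer_instance
  ι := Subtype.val
  drop := by
    intro i hi φ hs
    have hk : ¬ F.kept P i := fun h => hi ⟨i, h⟩ rfl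
    unfold kept at hk
    push Not at hk
    obtain ⟨hsq, h⟩ := hk
    have hl := lz_symm φ hs
    rw [P.cb4 i hsq, P.cw4 i hsq]
    simp only [List.map_cons, List.map_nil, ps_cons, ps_nil, add_zero]
    generalize F.f (P.qt i 0) = a at h ⊢
    generalize F.f (P.qt i 1) = b at h ⊢
    generalize F.f (P.qt i 2) = c at h ⊢
    generalize F.f (P.qt i 3) = d at h ⊢
    have z2 : ∀ x : ZMod 2, x + x = 0 := by decide
    by_cases e : a = c
    · subst e
      rw [hl b a, hl d a]
      have k1 := z2 (lz φ a b)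
      have k2 := z2 (lz φ a d)
      linear_combination k1 + k2
    · have e' := h e
      subst e'
      rw [hl b a, hl b c]
      have k1 := z2 (lz φ a b)
      have k2 := z2 (lz φ c b)
      linear_combination k1 + k2

/-- THE QUOTIENT -/
noncomputable def gx : GX H F.W := (F.q P).gx

theorem gx_ar : (F.gx P).ar = F.ar := rfl

theorem gx_rk (v : F.W) : (F.gx P).rk v = K.rk v.1 := rfl

theorem gx_E {x y : V} (h : K.E x y) : (F.gx P).E (F.f x) (F.f y) := F.e_map h

theorem gx_E' {a b : F.W} (h : (F.gx P).E a b) : ∃ x y, K.E x y ∧ F.f x = a ∧ F.f y = b := by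
  rcases h with h | h
  · exact (F.q P).e2 _ _ h
  · obtain ⟨x, y, h1, h2, h3⟩ := (F.q P).e2 _ _ h
    exact ⟨y, x, h1.symm, h3, h2⟩

variable {P}

theorem dst_f {x : V} {l : List V} (h : Wk K.E x l) : dst (F.f x) (l.map F.f) = l.map F.f := by
  induction l generalizing x with
  | nil => rfl
  | cons y l ih =>
    rw [List.map_cons, dst_cons_ne (F.f_ne h.1).symm, ih h.2]

theorem gx_cb (j : (F.gx P).I) : (F.gx P).cb j = F.f (K.cb j.1) := rfl

theorem gx_cw (j : (F.gx P).I) : (F.gx P).cw j = (K.cw j.1).map F.f := F.dst_f (K.c_E j.1)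

theorem gx_len (j : (F.gx P).I) : (F.gx P).len j = K.len j.1 := by
  unfold GX.len
  rw [F.gx_cw, List.length_map]

variable (P)

/-- the cells of the quotient are pentagons and squares -/
noncomputable def p45 : P45 (F.gx P) where
  sq j := P.sq j.1
  pt j k := F.f (P.pt j.1 k)
  qt j k := F.f (P.qt j.1 k)
  cb5 j hj := by rw [F.gx_cb, P.cb5 _ hj]
  cw5 j hj := by rw [F.gx_cw, P.cw5 _ hj]; rfl
  cb4 j hj := by rw [F.gx_cb, P.cb4 _ hj]
  cw4 j hj := by rw [F.gx_cw, P.cw4 _ hj]; rfl

/-- the area does not change -/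
theorem gx_area : (F.gx P).area = K.area := by
  classical
  have := K.finI
  have := (F.gx P).finI
  let := Fintype.ofFinite K.I
  let := Fintype.ofFinite (F.gx P).I
  rw [K.area_eq, (F.gx P).area_eq]
  have e1 : ∀ j : (F.gx P).I, ((F.gx P).cw j).length - 4 = (K.cw j.1).length - 4 := by
    intro j
    rw [F.gx_cw, List.length_map]
  rw [Finset.sum_congr rfl (fun j _ => e1 j)]
  have e2 : ∑ j : (F.gx P).I, ((K.cw j.1).length - 4) =
      ∑ i ∈ (Finset.univ : Finset (F.gx P).I).map ⟨fun j => j.1, Subtype.val_injective⟩,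
        ((K.cw i).length - 4) := by
    rw [Finset.sum_map]
    rfl
  rw [e2]
  apply Finset.sum_subset (Finset.subset_univ _)
  intro i _ hi
  apply Nat.sub_eq_zero_of_le
  have hk : ¬ F.kept P i := fun h => hi (Finset.mem_map.2 ⟨⟨i, h⟩, Finset.mem_univ _, rfl⟩)
  unfold kept at hk
  push Not at hk
  rw [P.cw4 i hk.1]
  exact le_rfl

theorem gx_min (hm : K.Min) : (F.gx P).Min := by
  intro V'' _ K''
  rw [F.gx_area]
  exact hm V'' K''

end TpF

end Pool.Agent.DI
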