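import Pool.Agent.DI.SeenQ
import Pool.Agent.DI.QKMin
import Pool.Agent.DI.CutL
import Pool.Agent.DI.QKF
import Pool.Agent.DI.TFo

/-!
# DI/LightQ: the light world for complexes with pentagons and squares

`OvC C K P f`: the complex `K` with pentagons and squares lies over the candidate `C` (its fold): the
squares contain no finite sink, heavy arrows are in pentagons. `S.Ovw w K2 F`: `K2` is a quotient of the slice of
`S` at `w` in which the old sinks over `w` survive and the pentagons centred at `w` are cells.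
`Ovw.vs_le`, `Ovw.hv_le`: the numbers `V_s` and `Hv` do not drop. If `C` has maximal `(V_s, Hv)` then
they are constant, no sink of an edge is finite and in a cell (`Ovw.inf_t`), and there is no heavy
arrow to the sink of an edge in a cell (`Ovw.light_t`).
-/

namespace Pool.Agent.DI

open MulAction
open Pool.Agent.SAF (InC orbs FinOrb oc Decomp SAn SA Conv exists_next oc_le_of_inj oc_lt_of_inj)
open Pool.Agent.BT (PX PQ JS bey exits MinSub Ell mst Hyp Lq mst_conv axis)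

/-- `K` (pentagons and squares) lies over the candidate `C` -/
structure OvC (C : Cd) {V : Type} [MulAction C.H V] (K : GX C.H V) (P : P45 K) (f : V → C.V) :
    Prop where
  area : K.area = C.K.area
  lc : ∀ v, K.LC v
  /-- finite sinks are in no square -/
  fs : ∀ z, K.FS z → P.NoQ z
  /-- heavy arrows are in pentagons -/
  hp : ∀ x a, K.ar x a → Infinite ↥(stabilizer C.H ((x, a) : V × V)) → ∃ b y z, Qn P x a b y z
  smul : ∀ (h : C.H) x, f (h • x) = h • f x
  ar : ∀ x a, K.ar x a → Infinite ↥(stabilizer C.H x) → C.K.ar (f x) (f a)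
  snk : ∀ z, K.Snk z → Infinite ↥(stabilizer C.H z) → C.K.Snk (f z)
  fsink : ∀ z, C.K.Snk z → Finite ↥(stabilizer C.H z) → ∃ z', K.FS z' ∧ f z' = z
  hv : ∀ n v, C.K.ar n v → Infinite ↥(stabilizer C.H ((n, v) : C.V × C.V)) → C.K.Snk v →
    ∃ n' v', K.ar n' v' ∧ K.Snk v' ∧ Infinite ↥(stabilizer C.H ((n', v') : V × V)) ∧ f v' = v

/-- existence of a good system -/
theorem OvC.exists_sys {C : Cd} (hC : C.LW) {V : Type} [MulAction C.H V] {K : GX C.H V} {P : P45 K}
    {f : V → C.V} (O : OvC C K P f) (D : Decomp C.H) :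
    ∃ (D' : Decomp C.H) (J' : V → Set D'.X) (js : JS P.pq D' J'),
      (SyQ.mk K P D' J' js).GdQ K.FS ∧
      (∀ x : V, Ell C.H D'.X x → (∀ h : C.H, h • f x = f x → h • x = x) → Ell C.H D.X x) ∧
      (∀ x a, K.ar x a → Infinite ↥(stabilizer C.H ((x, a) : V × V)) →
        (SyQ.mk K P D' J' js).Tog x a) ∧
      (∀ a b, D'.G.Adj a b → ∃ c d, D.G.Adj c d ∧
        stabilizer C.H a ⊓ stabilizer C.H b ≤ stabilizer C.H c ⊓ stabilizer C.H d) :=
  hC.exists_sysQ P O.area O.lc O.fs f O.smul O.ar D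

namespace SyQ

variable {H V : Type} [Group H] [MulAction H V]

/-- a quotient of the slice at `w` in which the sinks over `w` survive -/
structure Ovw (S : SyQ H V) (w : S.X) {V2 : Type} [MulAction ↥(stabilizer H w) V2]
    (K2 : GX ↥(stabilizer H w) V2) (F : S.SV w → V2) : Prop where
  smul : ∀ (h : ↥(stabilizer H w)) a, F (h • a) = h • F a
  snk : ∀ x : S.NV w, S.K.Snk x.1 → S.J x.1 = {w} → K2.Snk (F (Sum.inl x))
  cls : ∀ x x' : S.NV w, S.K.Snk x.1 → S.J x.1 = {w} → S.K.Snk x'.1 → S.J x'.1 = {w} →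
    F (Sum.inl x') = F (Sum.inl x) → x' = x
  nt : ∀ (x : S.NV w) (u : S.EV w), S.K.Snk x.1 → S.J x.1 = {w} →
    F (Sum.inr u) ≠ F (Sum.inl x)
  t : ∀ u, K2.Snk (F (Sum.inr u))
  ar : ∀ n v : S.NV w, S.K.ar n.1 v.1 → S.K.Snk v.1 → S.J n.1 = {w} → S.J v.1 = {w} →
    Infinite ↥(stabilizer H n.1) → K2.ar (F (Sum.inl n)) (F (Sum.inl v))
  cell : ∀ {a q b y z : V}, Qn S.P a q b y z → S.IsC ![a, q, b, y, z] w →
    K2.EL (F (S.rho w a)) (F (S.rho w q))

variable {S : SyQ H V}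

/-- a vertex over `w` only has the same stabiliser -/
theorem stab_only {w : S.X} {x : V} (h : S.J x = {w}) {g : H} (hg : g • x = x) : g • w = w := by
  have h1 : g • w ∈ S.J (g • x) := S.js.smul g x w (by rw [h]; rfl)
  rw [hg, h] at h1
  exact h1

theorem IsC.smul' (g : H) {v0 v1 v2 v3 v4 : V} {c : S.X} (h : S.IsC ![v0, v1, v2, v3, v4] c) :
    S.IsC ![g • v0, g • v1, g • v2, g • v3, g • v4] (g • c) := by
  intro k
  fin_cases k
  · exact (h 0).imp (S.js.smul g _ _) (S.js.smul g _ _)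
  · exact (h 1).imp (S.js.smul g _ _) (S.js.smul g _ _)
  · exact (h 2).imp (S.js.smul g _ _) (S.js.smul g _ _)
  · exact (h 3).imp (S.js.smul g _ _) (S.js.smul g _ _)
  · exact (h 4).imp (S.js.smul g _ _) (S.js.smul g _ _)

theorem J_smul {x : V} {p : S.X} (h : S.J x = {p}) (g : H) : S.J (g • x) = {g • p} := by
  ext w
  rw [Set.mem_singleton_iff, ← inv_smul_eq_iff (g := g)]
  have h1 : w ∈ S.J (g • x) ↔ g⁻¹ • w ∈ S.J x := by
    constructor
    · intro k
      have := S.js.smul g⁻¹ _ _ k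
      rwa [inv_smul_smul] at this
    · intro k
      have := S.js.smul g _ _ k
      rwa [smul_inv_smul] at this
  rw [h1, h, Set.mem_singleton_iff]

/-- the seen sinks can be moved to `w` -/
theorem GdQ.seen_at {Z : V → Prop} (hg : S.GdQ Z) {w : S.X} (hw : S.WMin w) {z : V}
    (hz : S.K.Snk z) (hZ : Z z) (he : Ell H S.X z) : ∃ (g : H) (b c y y' : V),
      S.J (g • z) = {w} ∧ Qn S.P b (g • z) c y y' ∧ S.IsC ![b, g • z, c, y, y'] w := by
  obtain ⟨p, b, c, y, y', h1, h2, h3⟩ := hg.seen z hz hZ he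
  obtain ⟨k, hk⟩ := qn_ctr hg.conn hw h2
  have e : k • w = p := by
    refine S.isC_unique (v := ![b, z, c, y, y']) ?_ hk h3
    intro j
    fin_cases j
    · exact h2.E1
    · exact h2.E2
    · exact h2.E3
    · exact h2.E4
    · exact h2.E5
  subst e
  refine ⟨k⁻¹, k⁻¹ • b, k⁻¹ • c, k⁻¹ • y, k⁻¹ • y', ?_, h2.smul k⁻¹, ?_⟩
  · have := J_smul h1 k⁻¹
    rwa [inv_smul_smul] at this
  · have := h3.smul' k⁻¹
    rwa [inv_smul_smul] at this

theorem ell_of_fin {z : V} (hf : Finite ↥(stabilizer H z)) : Ell H S.X z := by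
  have := S.D.tree.connected.nonempty
  obtain ⟨c, hc⟩ := Pool.Agent.SAG.fix_of_finite S.D.tact _ hf
  exact ⟨c, hc⟩

end SyQ

namespace OvC

open SyQ

variable {C : Cd} {V : Type} [MulAction C.H V] {S : SyQ C.H V} {f : V → C.V}
  (O : OvC C S.K S.P f) (hg : S.GdQ S.K.FS)
  (ht : ∀ x a, S.K.ar x a → Infinite ↥(stabilizer C.H ((x, a) : V × V)) → S.Tog x a)
  {w : S.X} (hw : S.WMin w)

include O hg hw in
/-- the finite sinks of `C` over `w` -/
theorem exists_vs {z : C.V} (hz : C.K.Snk z) (hf : Finite ↥(stabilizer C.H z)) :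
    ∃ (x : S.NV w) (b c y y' : V), S.K.FS x.1 ∧ S.J x.1 = {w} ∧ (∃ g : C.H, g • f x.1 = z) ∧
      Qn S.P b x.1 c y y' ∧ S.IsC ![b, x.1, c, y, y'] w := by
  obtain ⟨z', h1, h2⟩ := O.fsink z hz hf
  obtain ⟨g, b, c, y, y', h3, h4, h5⟩ := hg.seen_at hw h1.1 h1 (ell_of_fin h1.2)
  refine ⟨⟨g • z', by rw [h3]; rfl⟩, b, c, y, y', h1.smul g, h3, ⟨g⁻¹, ?_⟩, h4, h5⟩
  show g⁻¹ • f (g • z') = z
  rw [O.smul, inv_smul_smul, h2]

include O hg ht hw in
/-- the sinks of `C` with a heavy in-arrow over `w` -/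
theorem exists_hv {v : C.V} (hv : v ∈ C.K.sHv) :
    ∃ (n x : S.NV w) (b y z : V), S.K.ar n.1 x.1 ∧ S.K.Snk x.1 ∧ S.J n.1 = {w} ∧ S.J x.1 = {w} ∧
      Infinite ↥(stabilizer C.H ((n.1, x.1) : V × V)) ∧ (∃ g : C.H, g • f x.1 = v) ∧
      Qn S.P n.1 x.1 b y z ∧ S.IsC ![n.1, x.1, b, y, z] w := by
  obtain ⟨h1, n0, h2, -, h3⟩ := hv
  obtain ⟨n, x, h4, h5, h6, h7⟩ := O.hv n0 v h2 h3 h1
  obtain ⟨p, hp1, hp2⟩ := ht n x h4 h6
  obtain ⟨b, y, z, hq⟩ := O.hp n x h4 h6
  obtain ⟨k, hk⟩ := qn_ctr hg.conn hw hq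
  have e : k • w = p := by
    rcases hk 0 with h | h
    · rw [show S.J (![n, x, b, y, z] 0) = S.J n from rfl, hp1] at h
      exact h
    · rw [show S.J (![n, x, b, y, z] (0 + 1)) = S.J x from rfl, hp2] at h
      exact h
  subst e
  have hn := J_smul hp1 k⁻¹
  have hx := J_smul hp2 k⁻¹
  rw [inv_smul_smul] at hn hx
  have hc := hk.smul' k⁻¹
  rw [inv_smul_smul] at hc
  refine ⟨⟨k⁻¹ • n, by rw [hn]; rfl⟩, ⟨k⁻¹ • x, by rw [hx]; rfl⟩, _, _, _, S.K.ar_smul _ _ _ h4,
    h5.smul _, hn, hx, ?_, ⟨k, ?_⟩, hq.smul k⁻¹, hc⟩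
  · exact (GX.inf_smul_iff (V := V × V) k⁻¹ (n, x)).2 h6
  · show k • f (k⁻¹ • x) = v
    rw [O.smul, smul_inv_smul, h7]

variable {V2 : Type} [MulAction ↥(stabilizer C.H w) V2] {K2 : GX ↥(stabilizer C.H w) V2}
  {F : S.SV w → V2} (R : S.Ovw w K2 F)

include O R in
/-- comparison of orbit numbers -/
theorem cmp {A : Set C.V} {B : Set V2} (h : ∀ z ∈ A, ∃ x : S.NV w, S.K.Snk x.1 ∧
    S.J x.1 = {w} ∧ (∃ g : C.H, g • f x.1 = z) ∧ F (Sum.inl x) ∈ B) :
    oc C.H A ≤ oc ↥(stabilizer C.H w) B ∧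
      ∀ u, F (Sum.inr u) ∈ B → oc C.H A < oc ↥(stabilizer C.H w) B := by
  classical
  by_cases hA : A.Nonempty
  · obtain ⟨z0, hz0⟩ := hA
    obtain ⟨x0, -⟩ := h z0 hz0
    let G : C.V → V2 := fun z => if hz : z ∈ A then F (Sum.inl (h z hz).choose) else
      F (Sum.inl x0)
    have hG : ∀ z ∈ A, ∃ x : S.NV w, G z = F (Sum.inl x) ∧ S.K.Snk x.1 ∧
        S.J x.1 = {w} ∧ (∃ g : C.H, g • f x.1 = z) ∧ F (Sum.inl x) ∈ B := by
      intro z hz
      exact ⟨(h z hz).choose, dif_pos hz, (h z hz).choose_spec⟩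
    have h1 : ∀ a ∈ A, G a ∈ B := by
      intro a ha
      obtain ⟨x, e, -, -, -, hB⟩ := hG a ha
      rw [e]
      exact hB
    have h2 : ∀ a ∈ A, ∀ b ∈ A, (∃ k : ↥(stabilizer C.H w), k • G a = G b) →
        ∃ k : C.H, k • a = b := by
      rintro a ha b hb ⟨k, hk⟩
      obtain ⟨x, e, hsx, hjx, ⟨g, hgx⟩, -⟩ := hG a ha
      obtain ⟨x', e', hs', hj', ⟨g', hgx'⟩, -⟩ := hG b hb
      rw [e, e', ← R.smul] at hk
      have hkj : S.J (k • x).1 = {w} := by
        have h9 := J_smul hjx k.1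
        rwa [show k.1 • w = w from k.2] at h9
      have h4 : k • x = x' := R.cls x' (k • x) hs' hj' (hsx.smul k.1) hkj hk
      have h5 : k.1 • x.1 = x'.1 := congrArg Subtype.val h4
      refine ⟨g' * k.1 * g⁻¹, ?_⟩
      rw [← hgx, ← hgx', mul_smul, mul_smul, inv_smul_smul, ← O.smul, h5]
    refine ⟨oc_le_of_inj (K2.fo _) G h1 h2, fun u hu => oc_lt_of_inj (K2.fo _) G h1 h2 hu ?_⟩
    intro a ha k e
    obtain ⟨x, e1, hs, hj, -, -⟩ := hG a ha
    have e2 : F (Sum.inr (k⁻¹ • u)) = F (Sum.inl x) := by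
      rw [← e1]
      have : k⁻¹ • (k • G a) = k⁻¹ • F (Sum.inr u) := congrArg _ e
      rw [inv_smul_smul, ← R.smul] at this
      exact this.symm
    exact R.nt x _ hs hj e2
  · have hA' : A = ∅ := Set.not_nonempty_iff_eq_empty.1 hA
    have e : oc C.H A = 0 := by
      rw [hA']
      unfold oc orbs
      rw [Set.image_empty, Set.ncard_empty]
    rw [e]
    refine ⟨Nat.zero_le _, fun u hu => ?_⟩
    unfold oc
    exact (Set.ncard_pos (K2.fo B)).2 ⟨_, _, hu, rfl⟩

include O hg hw R in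
theorem vs_cmp : C.K.nVs ≤ K2.nVs ∧ ∀ u, F (Sum.inr u) ∈ K2.sVs → C.K.nVs < K2.nVs := by
  refine O.cmp R (fun z hz => ?_)
  obtain ⟨x, b, c, y, y', h1, h2, h3, h4, h5⟩ := O.exists_vs hg hw hz.1 hz.2.1
  refine ⟨x, h1.1, h2, h3, R.snk x h1.1 h2, ?_, ?_⟩
  · have hfx := h1.2
    refine Finite.of_injective (fun g : ↥(stabilizer ↥(stabilizer C.H w) (F (Sum.inl x))) =>
      (⟨g.1.1, ?_⟩ : ↥(stabilizer C.H x.1))) ?_
    · have h6 : g.1 • F (Sum.inl x) = F (Sum.inl x) := g.2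
      rw [← R.smul] at h6
      have hkj : S.J (g.1 • x).1 = {w} := by
        have h9 := J_smul h2 g.1.1
        rwa [show g.1.1 • w = w from g.1.2] at h9
      have h7 : g.1 • x = x := R.cls x (g.1 • x) h1.1 h2 (h1.1.smul g.1.1) hkj h6
      exact congrArg Subtype.val h7
    · intro a b e
      have e' := congrArg Subtype.val e
      exact Subtype.ext (Subtype.ext e')
  · have h6 := R.cell h4 h5
    rw [S.rho_near x.2] at h6
    exact ⟨_, h6.ec.symm⟩

include O hg ht hw R in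
theorem hv_cmp : C.K.nHv ≤ K2.nHv ∧ ∀ u, F (Sum.inr u) ∈ K2.sHv → C.K.nHv < K2.nHv := by
  refine O.cmp R (fun z hz => ?_)
  obtain ⟨n, x, b, y, y', h1, h2, h3, h4, h5, h6, h7, h8⟩ := O.exists_hv hg ht hw hz
  refine ⟨x, h2, h4, h6, R.snk x h2 h4, F (Sum.inl n), R.ar n x h1 h2 h3 h4 (inf_of_arrow h5),
    ?_, ?_⟩
  · have h9 := R.cell h7 h8
    rw [S.rho_near n.2, S.rho_near x.2] at h9
    exact h9.ec
  · refine Infinite.of_injective (fun k : ↥(stabilizer C.H ((n.1, x.1) : V × V)) =>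
      (⟨⟨k.1, stab_only h4 (congrArg Prod.snd k.2)⟩, ?_⟩ :
        ↥(stabilizer ↥(stabilizer C.H w) ((F (Sum.inl n), F (Sum.inl x)) : V2 × V2)))) ?_
    · have e1 : k.1 • n.1 = n.1 := congrArg Prod.fst k.2
      have e2 : k.1 • x.1 = x.1 := congrArg Prod.snd k.2
      refine Prod.ext ?_ ?_
      · show _ • F (Sum.inl n) = F (Sum.inl n)
        rw [← R.smul]
        exact congrArg F (congrArg Sum.inl (Subtype.ext e1))
      · show _ • F (Sum.inl x) = F (Sum.inl x)
        rw [← R.smul]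
        exact congrArg F (congrArg Sum.inl (Subtype.ext e2))
    · intro a b e
      have e' := congrArg (fun t => t.1.1) e
      exact Subtype.ext e'

include O hg ht hw R in
/-- `V_s` and `Hv` are constant -/
theorem eqs (hC : C.LW) (P2 : Pt K2) (hb : ¬ SA ↥(stabilizer C.H w)) (ha : K2.area ≤ C.K.area) :
    K2.nVs = C.K.nVs ∧ K2.nHv = C.K.nHv := by
  have h1 := hC.pair K2 P2 hb ha
  have h2 := (O.vs_cmp hg hw R).1
  have e := le_antisymm h1.1 h2
  exact ⟨e, le_antisymm (h1.2 e) (O.hv_cmp hg ht hw R).1⟩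

include O hg ht hw R in
/-- the sinks of edges in cells are infinite -/
theorem inf_t (hC : C.LW) (P2 : Pt K2) (hb : ¬ SA ↥(stabilizer C.H w))
    (ha : K2.area ≤ C.K.area) (u : S.EV w) (h : K2.VC (F (Sum.inr u))) :
    Infinite ↥(stabilizer ↥(stabilizer C.H w) (F (Sum.inr u))) := by
  by_contra hcon
  rw [not_infinite_iff_finite] at hcon
  have h1 := (O.vs_cmp hg hw R).2 u ⟨R.t u, hcon, h⟩
  have h2 := (O.eqs hg ht hw R hC P2 hb ha).1
  omega

include O hg ht hw R in
/-- NO HEAVY ARROW TO THE SINK OF AN EDGE -/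
theorem light_t (hC : C.LW) (P2 : Pt K2) (hb : ¬ SA ↥(stabilizer C.H w))
    (ha : K2.area ≤ C.K.area) (u : S.EV w) {X : V2} (h1 : K2.ar X (F (Sum.inr u)))
    (h2 : K2.EC X (F (Sum.inr u))) :
    Finite ↥(stabilizer ↥(stabilizer C.H w) ((X, F (Sum.inr u)) : V2 × V2)) := by
  by_contra hcon
  rw [not_finite_iff_infinite] at hcon
  have h3 := (O.hv_cmp hg ht hw R).2 u ⟨R.t u, X, h1, h2, hcon⟩
  have h4 := (O.eqs hg ht hw R hC P2 hb ha).2
  omega

end OvC

/-! ### instances of `Ovw` -/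

namespace SyQ

variable {H V : Type} [Group H] [MulAction H V] {S : SyQ H V}

theorem c5_of_qn {w : S.X} {a q b y z : V} (hp : Qn S.P a q b y z)
    (h : S.IsC ![a, q, b, y, z] w) : ∃ (c : S.C5 w) (l : ↥(stabilizer H w)) (k : Fin 5),
      (S.rho w a = l • S.rho w (S.tr c.g c.1 k) ∧ S.rho w q = l • S.rho w (S.tr c.g c.1 (k + 1))) ∨
      (S.rho w q = l • S.rho w (S.tr c.g c.1 k) ∧ S.rho w a = l • S.rho w (S.tr c.g c.1 (k + 1))) := by
  obtain ⟨g, i, k, hi, hh⟩ := hp
  have key : S.IsC (S.tr g i) w → ∃ (c : S.C5 w) (l : ↥(stabilizer H w)), ∀ j,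
      S.rho w (S.tr g i j) = l • S.rho w (S.tr c.g c.1 j) := by
    intro hI
    let c : S.C5 w := ⟨i, hi, g, hI⟩
    have h1 : S.IsC (S.tr g i) ((g * c.g⁻¹) • w) := by
      have := (S.isC_smul (g * c.g⁻¹) c.g i w).2 c.isC
      rwa [inv_mul_cancel_right] at this
    have hmem : (g * c.g⁻¹) • w = w := S.isC_unique (S.tr_E g hi) h1 hI
    refine ⟨c, ⟨g * c.g⁻¹, hmem⟩, fun j => ?_⟩
    rw [← S.rho_smul]
    congr 1
    show g • S.P.pt i j = (g * c.g⁻¹) • c.g • S.P.pt i j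
    rw [smul_smul, inv_mul_cancel_right]
  have rot : ∀ (v : Fin 5 → V) (m : Fin 5), S.IsC ![v m, v (m + 1), v (m + 2), v (m + 3),
      v (m + 4)] w → S.IsC v w := by
    intro v m hv j
    have h0 := hv 0
    have h1 := hv 1
    have h2 := hv 2
    have h3 := hv 3
    have h4 := hv 4
    have a4 : m + 4 + 1 = m := q41 m
    have a1 : m + 1 + 1 = m + 2 := by rw [add_assoc]; rfl
    have a2 : m + 2 + 1 = m + 3 := by rw [add_assoc]; rfl
    have a3 : m + 3 + 1 = m + 4 := by rw [add_assoc]; rfl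
    have key : ∀ m j : Fin 5, j = m ∨ j = m + 1 ∨ j = m + 2 ∨ j = m + 3 ∨ j = m + 4 := by
      decide
    rcases key m j with e | e | e | e | e
    · subst e; exact h0
    · subst e; rw [a1]; exact h1
    · subst e; rw [a2]; exact h2
    · subst e; rw [a3]; exact h3
    · subst e; rw [a4]; exact h4
  rcases hh with ⟨h1, h2, h3, h4, h5⟩ | ⟨h1, h2, h3, h4, h5⟩
  · have hI : S.IsC (S.tr g i) w := by
      apply rot _ k
      rw [h1, h2, h3, h4, h5] at h
      exact h
    obtain ⟨c, l, hl⟩ := key hI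
    refine ⟨c, l, k, Or.inl ⟨?_, ?_⟩⟩
    · rw [h1]; exact hl k
    · rw [h2]; exact hl (k + 1)
  · have hI : S.IsC (S.tr g i) w := by
      apply rot _ k
      rw [h1, h2, h3, h4, h5] at h
      intro j
      fin_cases j
      · exact (h 1).symm
      · exact (h 0).symm
      · exact (h 4).symm
      · exact (h 3).symm
      · exact (h 2).symm
    obtain ⟨c, l, hl⟩ := key hI
    refine ⟨c, l, k + 1, Or.inr ⟨?_, ?_⟩⟩
    · rw [h2]; exact hl (k + 1)
    · rw [h3, add_assoc k 1 1]; exact hl (k + 2)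

theorem cn5 {α : Type} (f : Fin 5 → α) (k : Fin 5) :
    Cn2 (f k) (f (k + 1)) (f 0) [f 1, f 2, f 3, f 4, f 0] := by
  fin_cases k
  · exact Or.inl ⟨rfl, rfl⟩
  · exact Or.inr (Or.inl ⟨rfl, rfl⟩)
  · exact Or.inr (Or.inr (Or.inl ⟨rfl, rfl⟩))
  · exact Or.inr (Or.inr (Or.inr (Or.inl ⟨rfl, rfl⟩)))
  · exact Or.inr (Or.inr (Or.inr (Or.inr (Or.inl ⟨rfl, rfl⟩))))

/-- edges of a complex in which the cell `i` is a pentagon -/
theorem el_of {G T : Type} [Group G] [MulAction G T] {K2 : GX G T} (i : K2.I) (f : Fin 5 → T)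
    (h0 : K2.cb i = f 0) (h1 : K2.cw i = [f 1, f 2, f 3, f 4, f 0]) (l : G) (k : Fin 5) :
    K2.EL (l • f k) (l • f (k + 1)) := by
  refine ⟨i, l, ?_, Or.inl ?_⟩
  · rw [h1]
    show 4 < 5
    omega
  · unfold GX.tb GX.tw
    rw [h0, h1]
    exact cn5 (fun j => l • f j) k

/-- the unfolded slice -/
theorem Ovw.k0 (hc : S.Conn) (w : S.X) : S.Ovw w (S.k0 hc w) id where
  smul _ _ := rfl
  snk x hx hj := by
    rintro a h
    cases h with
    | hor x a e => exact hx _ e
    | up x u e =>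
      rw [hj] at e
      exact u.2.ne (Set.mem_singleton_iff.1 e).symm
  cls x x' _ _ _ _ h := Sum.inl.inj h
  nt x u _ _ h := by cases h
  t u := by
    rintro a h
    cases h
  ar n v h _ _ _ _ := SAr.hor n v h
  cell hp h := by
    obtain ⟨c, l, k, ⟨h1, h2⟩ | ⟨h1, h2⟩⟩ := c5_of_qn hp h
    · show (S.k0 hc w).EL (S.rho w _) (S.rho w _)
      rw [h1, h2]
      exact el_of (K2 := S.k0 hc w) (Sum.inl c) (fun j => S.rho w (S.tr c.g c.1 j)) rfl rfl l k
    · show (S.k0 hc w).EL (S.rho w _) (S.rho w _)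
      rw [h1, h2]
      exact (el_of (K2 := S.k0 hc w) (Sum.inl c) (fun j => S.rho w (S.tr c.g c.1 j)) rfl rfl l
        k).symm

/-- a vertex over `w` only is alone in its class if no pole crosses an edge -/
theorem only_cls {w : S.X} {O : S.OR w} {x : S.NV w} (hj : S.J x.1 = {w})
    (hp : ∀ a u, S.K.ar x.1 a → S.D.G.Adj w u → u ∉ S.J a) {b : S.SV w}
    (h : S.fq w O b = S.fq w O (Sum.inl x)) : b = Sum.inl x := by
  have nc : ∀ u, S.D.G.Adj w u → u ∉ S.J x.1 := by
    intro u hu h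
    rw [hj] at h
    exact hu.ne (Set.mem_singleton_iff.1 h).symm
  have key : ∀ a b, S.FR w O a b → (a = Sum.inl x ↔ b = Sum.inl x) := by
    intro a b k
    cases k with
    | mer u q y y' h1 h2 h3 =>
      constructor
      · intro e
        rw [Sum.inl.inj e] at h1
        exact absurd h1.l.2 (nc u h1.adj)
      · intro e
        rw [Sum.inl.inj e] at h1
        exact absurd h1.r.2 (nc u h1.adj)
    | par u q y y' h1 h2 h3 h4 =>
      constructor
      · intro e
        rw [Sum.inl.inj e] at h1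
        exact absurd h1.l.2 (nc u h1.adj)
      · intro e
        rw [Sum.inl.inj e] at h1
        exact absurd h1.r.2 (nc u h1.adj)
    | dia q u h1 h2 =>
      constructor
      · intro e
        rw [Sum.inl.inj e] at h1
        obtain ⟨hw, a, b, hne, ha, hb, hg⟩ := h1.1
        exact absurd (h1.1.two ha).2.2 (hp a _ ha u.2)
      · intro e
        cases e
  have k := fq_eq.1 h
  have key2 : ∀ a b, Relation.EqvGen (S.FR w O) a b → (a = Sum.inl x ↔ b = Sum.inl x) := by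
    intro a b k
    induction k with
    | rel a b k => exact key a b k
    | refl a => exact Iff.rfl
    | symm a b _ ih => exact ih.symm
    | trans a b c _ _ i1 i2 => exact i1.trans i2
  exact (key2 _ _ k).2 rfl

/-- the folded slice -/
theorem Ovw.kf (hc : S.Conn) {w : S.X} (O : S.OR w) (hm : (S.k0 hc w).Min) :
    S.Ovw w (S.kf hc w O) (S.fq w O) where
  smul _ _ := rfl
  snk x hx hj := by
    intro d hd
    have h1 := arQ_fq.1 hd
    obtain ⟨-, x', e, hd'⟩ := h1
    rw [← Sum.inl.inj e] at hd'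
    have ht : ∀ y, ¬ S.Dn w O x.1 y := by
      rintro y ⟨u, s, hu, hcs, -⟩
      have := hcs.2
      rw [hj] at this
      exact hu.ne (Set.mem_singleton_iff.1 this).symm
    rw [(Tm_tm w O x.1).eq_of_term ht] at hd'
    obtain ⟨y, hy, -⟩ := hd'
    rw [S.rho_near x.2] at hy
    cases hy with
    | hor x a e => exact hx _ e
    | up x u e =>
      rw [hj] at e
      exact u.2.ne (Set.mem_singleton_iff.1 e).symm
  cls x x' hx hj _ _ h := Sum.inl.inj (only_cls hj (fun a _ ha => absurd ha (hx a)) h)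
  nt x u hx hj h := by
    have := only_cls hj (fun a _ ha => absurd ha (hx a)) h
    cases this
  t u := by
    intro d hd
    have h1 := arQ_fq.1 hd
    rw [GN_sk (Sk.inr.2 rfl)] at h1
    exact h1
  ar n v h hv hn hj hi := by
    have h1 : S.arQ w O (S.fq w O (S.rho w n.1)) (S.fq w O (Sum.inl v)) := by
      refine arQ_term n.2 ?_ ?_ ?_
      · intro u k
        have k' : S.Sk w O u (Sum.inl n) := k
        rw [Sk.inl] at k'
        have := (k'.1.1.two h).2.2
        rw [hj] at this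
        exact u.2.ne (Set.mem_singleton_iff.1 this).symm
      · rintro y ⟨u, s, hu, hcs, -⟩
        have := hcs.2
        rw [hn] at this
        exact hu.ne (Set.mem_singleton_iff.1 this).symm
      · rw [S.rho_near n.2]
        exact SAr.hor n v h
    rw [S.rho_near n.2] at h1
    exact h1
  cell hp h := by
    obtain ⟨c, l, k, hh⟩ := c5_of_qn hp h
    have hne := S.kf_ne hc w O hm c
    have e1 : (S.kf hc w O).cb (Sum.inl c) = S.fq w O (S.rho w (S.tr c.g c.1 0)) := rfl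
    have e2 : (S.kf hc w O).cw (Sum.inl c) = [S.fq w O (S.rho w (S.tr c.g c.1 1)),
        S.fq w O (S.rho w (S.tr c.g c.1 2)), S.fq w O (S.rho w (S.tr c.g c.1 3)),
        S.fq w O (S.rho w (S.tr c.g c.1 4)), S.fq w O (S.rho w (S.tr c.g c.1 0))] := by
      have e : (S.kf hc w O).cw (Sum.inl c) = dst (S.fq w O (S.rho w (S.tr c.g c.1 0)))
          [S.fq w O (S.rho w (S.tr c.g c.1 1)),
            S.fq w O (S.rho w (S.tr c.g c.1 2)), S.fq w O (S.rho w (S.tr c.g c.1 3)),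
            S.fq w O (S.rho w (S.tr c.g c.1 4)), S.fq w O (S.rho w (S.tr c.g c.1 0))] := rfl
      have n0 : S.fq w O (S.rho w (S.tr c.g c.1 1)) ≠ S.fq w O (S.rho w (S.tr c.g c.1 0)) :=
        (hne 0).symm
      have n1 : S.fq w O (S.rho w (S.tr c.g c.1 2)) ≠ S.fq w O (S.rho w (S.tr c.g c.1 1)) :=
        (hne 1).symm
      have n2 : S.fq w O (S.rho w (S.tr c.g c.1 3)) ≠ S.fq w O (S.rho w (S.tr c.g c.1 2)) :=
        (hne 2).symm
      have n3 : S.fq w O (S.rho w (S.tr c.g c.1 4)) ≠ S.fq w O (S.rho w (S.tr c.g c.1 3)) :=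
        (hne 3).symm
      have n4 : S.fq w O (S.rho w (S.tr c.g c.1 0)) ≠ S.fq w O (S.rho w (S.tr c.g c.1 4)) :=
        (hne 4).symm
      rw [e, dst_cons_ne n0, dst_cons_ne n1, dst_cons_ne n2, dst_cons_ne n3, dst_cons_ne n4,
        dst_nil]
    rcases hh with ⟨h1, h2⟩ | ⟨h1, h2⟩
    · rw [h1, h2]
      exact el_of (K2 := S.kf hc w O) (Sum.inl c)
        (fun j => S.fq w O (S.rho w (S.tr c.g c.1 j))) e1 e2 l k
    · rw [h1, h2]
      exact (el_of (K2 := S.kf hc w O) (Sum.inl c)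
        (fun j => S.fq w O (S.rho w (S.tr c.g c.1 j))) e1 e2 l k).symm

/-- folding finite tops -/
theorem Ovw.tp {w : S.X} {V1 : Type} [MulAction ↥(stabilizer H w) V1]
    {K1 : GX ↥(stabilizer H w) V1} {F : S.SV w → V1} (R : S.Ovw w K1 F) (T : TpF K1)
    (P1 : P45 K1) (hT : ∀ v, T.Z v → Finite ↥(stabilizer ↥(stabilizer H w) v)) :
    S.Ovw w (T.gx P1) (fun a => T.f (F a)) where
  smul h a := by
    show T.f (F (h • a)) = h • T.f (F a)
    rw [R.smul, T.f_smul]
  snk x hx hj := by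
    rintro d ⟨c, hc, -⟩
    have h1 := R.snk x hx hj
    have h2 : ¬ T.Z (F (Sum.inl x)) := fun k => by
      obtain ⟨a, ha⟩ := T.ex _ k
      exact h1 a ha
    have h3 : (T.f (F (Sum.inl x))).1 = F (Sum.inl x) := by rw [T.f_not h2]
    rw [h3] at hc
    exact h1 c hc
  cls x x' hx hj hx' hj' h := by
    have h1 : ∀ y : S.NV w, S.K.Snk y.1 → S.J y.1 = {w} →
        (T.f (F (Sum.inl y))).1 = F (Sum.inl y) := by
      intro y hy hjy
      have h2 : ¬ T.Z (F (Sum.inl y)) := fun k => by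
        obtain ⟨a, ha⟩ := T.ex _ k
        exact R.snk y hy hjy a ha
      rw [T.f_not h2]
    refine R.cls x x' hx hj hx' hj' ?_
    rw [← h1 x hx hj, ← h1 x' hx' hj']
    exact congrArg Subtype.val h
  nt x u hx hj h := by
    have h1 : (T.f (F (Sum.inl x))).1 = F (Sum.inl x) := by
      have h2 : ¬ T.Z (F (Sum.inl x)) := fun k => by
        obtain ⟨a, ha⟩ := T.ex _ k
        exact R.snk x hx hj a ha
      rw [T.f_not h2]
    have h2 : (T.f (F (Sum.inr u))).1 = F (Sum.inr u) := by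
      have h2 : ¬ T.Z (F (Sum.inr u)) := fun k => by
        obtain ⟨a, ha⟩ := T.ex _ k
        exact R.t u a ha
      rw [T.f_not h2]
    refine R.nt x u hx hj ?_
    rw [← h1, ← h2]
    exact congrArg Subtype.val h
  t u := by
    rintro d ⟨c, hc, -⟩
    have h2 : ¬ T.Z (F (Sum.inr u)) := fun k => by
      obtain ⟨a, ha⟩ := T.ex _ k
      exact R.t u a ha
    have h3 : (T.f (F (Sum.inr u))).1 = F (Sum.inr u) := by rw [T.f_not h2]
    rw [h3] at hc
    exact R.t u c hc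
  ar n v h hv hn hj hi := by
    have h1 := R.ar n v h hv hn hj hi
    have h2 : ¬ T.Z (F (Sum.inl n)) := by
      intro k
      have h3 := hT _ k
      have h4 : Infinite ↥(stabilizer ↥(stabilizer H w) (F (Sum.inl n))) := by
        refine Infinite.of_injective (fun g : ↥(stabilizer H n.1) =>
          (⟨⟨g.1, stab_only hn g.2⟩, ?_⟩ :
            ↥(stabilizer ↥(stabilizer H w) (F (Sum.inl n))))) ?_
        · show _ • F (Sum.inl n) = F (Sum.inl n)
          rw [← R.smul]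
          exact congrArg F (congrArg Sum.inl (Subtype.ext g.2))
        · intro a b e
          have e' := congrArg (fun t => t.1.1) e
          exact Subtype.ext e'
      exact not_finite_iff_infinite.2 h4 h3
    refine ⟨F (Sum.inl v), ?_, rfl⟩
    show K1.ar (T.f (F (Sum.inl n))).1 (F (Sum.inl v))
    rw [T.f_not h2]
    exact h1
  cell hp h := by
    obtain ⟨i, g, h0, h1⟩ := R.cell hp h
    have hk : T.kept P1 i := by
      intro hs
      rw [P1.cw4 i hs] at h0
      exact absurd h0 (lt_irrefl _)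
    let j : (T.gx P1).I := ⟨i, hk⟩
    have ec : (T.gx P1).cw j = (K1.cw i).map T.f := T.gx_cw j
    refine ⟨j, g, ?_, ?_⟩
    · rw [ec, List.length_map]
      exact h0
    · have e1 : (T.gx P1).tb j g = T.f (K1.tb i g) := (T.f_smul g _).symm
      have e2 : (T.gx P1).tw j g = (K1.tw i g).map T.f := by
        unfold GX.tw
        rw [ec, List.map_map, List.map_map]
        apply List.map_congr_left
        intro z _
        exact (T.f_smul g z).symm
      rw [e1, e2]
      exact h1.imp (fun c => c.map T.f) (fun c => c.map T.f)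

end SyQ

/-! ### the candidate under a complex with tops -/

section

variable {H V : Type} [Group H] [MulAction H V] (K : GX H V) (P : P45 K) (F : TpF K)

/-- the fold of a complex with tops as a candidate -/
@[reducible] noncomputable def Cd.ofTp (Q : Pt (F.gx P)) (hb : ¬ SA H)
    (hm : ∀ (H' V' : Type) [Group H'] [MulAction H' V'] (K' : GX H' V'), ¬ SA H' →
      K.area ≤ K'.area) (hl : ∀ v, (F.gx P).LC v) : Cd where
  H := H
  V := F.W
  grp := inferInstance
  act := inferInstance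
  K := F.gx P
  P := Q
  bad := hb
  min := by
    intro H' V' _ _ K' h
    rw [F.gx_area]
    exact hm H' V' K' h
  lc := hl

/-- the complex lies over its fold -/
theorem OvC.ofTp (Q : Pt (F.gx P)) (hb : ¬ SA H)
    (hm : ∀ (H' V' : Type) [Group H'] [MulAction H' V'] (K' : GX H' V'), ¬ SA H' →
      K.area ≤ K'.area) (hl : ∀ v, (F.gx P).LC v) (hl' : ∀ v, K.LC v)
    (hT : ∀ v, F.Z v → Finite ↥(stabilizer H v)) (hfs : ∀ z, K.FS z → P.NoQ z)
    (hp : ∀ x a, K.ar x a → Infinite ↥(stabilizer H ((x, a) : V × V)) →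
      ∃ b y z, Qn P x a b y z) :
    OvC (Cd.ofTp K P F Q hb hm hl) K P F.f where
  area := (F.gx_area P).symm
  lc := hl'
  fs := hfs
  hp := hp
  smul := F.f_smul
  ar x a h hi := by
    have h1 : ¬ F.Z x := fun k => not_finite_iff_infinite.2 hi (hT x k)
    refine ⟨a, ?_, rfl⟩
    show K.ar (F.f x).1 a
    rw [F.f_not h1]
    exact h
  snk z hz _ := by
    rintro b ⟨c, hc, -⟩
    have h1 : ¬ F.Z z := fun k => by
      obtain ⟨a, ha⟩ := F.ex _ k
      exact hz a ha
    rw [F.f_not h1] at hc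
    exact hz c hc
  fsink z hz hf := by
    refine ⟨z.1, ⟨fun a h => hz (F.f a) ⟨a, h, rfl⟩, ?_⟩, F.f_W z⟩
    have e : stabilizer H z = stabilizer H z.1 := F.stab_W z
    rw [← e]
    exact hf
  hv n v h hi hz := by
    obtain ⟨c, hc, hcv⟩ := h
    have hi1 : Infinite ↥(stabilizer H n.1) := by
      have h1 : Infinite ↥(stabilizer H n) := inf_of_arrow hi
      have e : stabilizer H n = stabilizer H n.1 := F.stab_W n
      rwa [e] at h1
    have h2 := inf_pole (K := K) hc hi1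
    have h3 : ¬ F.Z c := fun k => not_finite_iff_infinite.2 (inf_snd h2) (hT c k)
    have h4 : v.1 = c := by rw [← hcv, F.f_not h3]
    refine ⟨n.1, c, hc, ?_, h2, hcv⟩
    rw [← h4]
    exact fun a h => hz (F.f a) ⟨a, h, rfl⟩

end

end Pool.Agent.DI
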