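import Pool.Agent.DI.NT
import Pool.Agent.DI.OpnS
import Pool.Agent.DI.OpnX

/-!
# The number of the self pieces of fat softs under openings

`OpW.X_le`: the strands at an arrow of the opened complex are at most as many as the strands at its image.
`OpW.nN_le`: opening vertices which are no tops does not increase the number of the self pieces of the fat
softs.
-/

namespace Pool.Agent.DI

open MulAction
open Pool.Agent.SAF (InC orbs FinOrb oc mk_eq_iff FinOrb_iff)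

namespace P45

variable {H V : Type} [Group H] [MulAction H V] {K : GX H V} (P : P45 K)

theorem fin_Xa (y a : V) : FinOrb ↥(stabilizer H ((y, a) : V × V))
    {f : FL K | f ∈ P.RP ∧ (fy f, fz f) = (y, a)} := by
  refine Pool.Agent.SAF.FinOrb.of_inj (fin_RP (P := P)) (fun f => f) (fun f hf => hf.1) ?_
  rintro f ⟨-, hf⟩ f' ⟨-, hf'⟩ ⟨h, rfl⟩
  refine ⟨⟨h, ?_⟩, rfl⟩
  rw [fyz_smul, hf] at hf'
  exact hf'

theorem fin_Xb (y a : V) : FinOrb ↥(stabilizer H ((y, a) : V × V))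
    {p : (V × V) × (V × V) | p ∈ P.ZP ∧ p.1 = (y, a)} := by
  refine Pool.Agent.SAF.FinOrb.of_inj (fin_ZP (P := P)) (fun f => f) (fun f hf => hf.1) ?_
  rintro f ⟨-, hf⟩ f' ⟨-, hf'⟩ ⟨h, rfl⟩
  refine ⟨⟨h, ?_⟩, rfl⟩
  have : h • f.1 = (y, a) := hf'
  rw [hf] at this
  exact this

end P45

namespace OpW

variable {H V W : Type} [Group H] [MulAction H V] [MulAction H W] {K : GX H V} (O : OpW K W)
  (P : P45 K)

/-- an element which fixes an arrow -/
theorem st_pair {T a : W} {h : H} (hh : h • ((T, a) : W × W) = (T, a)) :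
    h • ((O.π T, O.π a) : V × V) = (O.π T, O.π a) := by
  have e1 : h • T = T := congrArg Prod.fst hh
  have e2 : h • a = a := congrArg Prod.snd hh
  refine Prod.ext ?_ ?_
  · show h • O.π T = O.π T
    rw [← O.π_smul, e1]
  · show h • O.π a = O.π a
    rw [← O.π_smul, e2]

/-- THE STRANDS AT AN ARROW OF THE OPENED COMPLEX -/
theorem X_le (hv : O.NT P) (T a : W) : (O.p45 P).X T a ≤ P.X (O.π T) (O.π a) := by
  unfold P45.X
  refine Nat.add_le_add ?_ ?_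
  · refine SAF.oc_le_of_rel (P.fin_Xa _ _) (fun f' f => f' = O.upF f) ?_ ?_
    · rintro f' ⟨h1, h2⟩
      obtain ⟨f, hf, rfl⟩ := O.RP_cases P h1
      refine ⟨f, ⟨hf, ?_⟩, rfl⟩
      have k1 : P45.fy (O.upF f) = T := congrArg Prod.fst h2
      have k2 : P45.fz (O.upF f) = a := congrArg Prod.snd h2
      refine Prod.ext ?_ ?_
      · exact (O.π_fy f).symm.trans (congrArg O.π k1)
      · exact (O.π_fz f).symm.trans (congrArg O.π k2)
    · rintro _ ⟨-, h2⟩ _ ⟨-, h2'⟩ f - f' - rfl rfl ⟨⟨h, hh⟩, e⟩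
      have e : h • f = f' := e
      have e1 : h • O.upF f = O.upF f' := by rw [← O.upF_smul, e]
      refine ⟨⟨h, ?_⟩, e1⟩
      rw [← e1, P45.fyz_smul, h2] at h2'
      exact h2'
  · refine SAF.oc_le_of_inj (P.fin_Xb _ _) O.πw ?_ ?_
    · rintro p ⟨h1, h2⟩
      refine ⟨O.ZP_π P h1, ?_⟩
      refine Prod.ext ?_ ?_
      · exact congrArg (fun z => O.π z.1) h2
      · exact congrArg (fun z => O.π z.2) h2
    · rintro p ⟨hp, k⟩ p' ⟨hp', k'⟩ ⟨⟨h, hh⟩, e⟩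
      have e : h • O.πw p = O.πw p' := e
      rw [← O.πw_smul] at e
      have e1 : h • p = p' := O.ZP_inj P hv
        ⟨hp.1.smul h, O.gx.ar_smul h _ _ hp.2.1, O.gx.ar_smul h _ _ hp.2.2⟩ hp' e
      refine ⟨⟨h, ?_⟩, e1⟩
      rw [← e1] at k'
      have k2 : h • p.1 = (T, a) := k'
      rw [k] at k2
      exact k2

theorem fat_π (hv : O.NT P) {y : W} (h : (O.p45 P).fat y) : P.fat (O.π y) := by
  obtain ⟨a, h1, h2⟩ := h
  exact ⟨O.π a, O.ar_π h1, h2.trans (O.X_le P hv y a)⟩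

theorem sN_π (ht : O.Tw) (hv : O.NT P) {t : PN W} (h : t ∈ (O.p45 P).sN) : O.gP t ∈ P.sN := by
  obtain ⟨y, n, a, g, rfl, h2, h3, h4, h5, h6, h7, h8⟩ := h
  refine ⟨O.π y, O.π n, O.π a, g, ?_, O.fat_π P hv h2, O.ar_π h3, O.ar_π h4, ?_, ?_, ?_, ?_⟩
  · show PN.pol (O.π y) (O.π y) (O.π '' O.gx.Pc y n) = _
    rw [O.Pc_π ht h3]
  · rcases O.Cor_π h5 with k | ⟨-, k, -⟩ | ⟨k, -⟩
    · exact k
    · exact absurd h4 (GX.not_both' k)
    · exact absurd h3 (GX.not_both' k)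
  · rw [← O.π_smul, h6]
  · rw [← O.π_smul]
    exact O.IJ_π h7
  · intro e
    apply h8
    have k1 : O.gx.ar y (g • a) := by
      have := O.gx.ar_smul g _ _ h4
      rwa [h6] at this
    have k2 := O.ar_e' k1
    rw [O.π_smul, e, O.ar_e' h4] at k2
    exact k2.symm

/-- OPENING VERTICES: THE NUMBER OF THE SELF PIECES OF FAT SOFTS -/
theorem nN_le (ht : O.Tw) (hv : O.NT P) (nd : P.ND) (nd' : (O.p45 P).ND) :
    ((O.p45 P).fc nd').nN ≤ (P.fc nd).nN := by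
  rw [P.nN_eq nd, (O.p45 P).nN_eq nd']
  refine SAF.oc_le_of_inj (P.fin_sN nd) O.gP (fun t h => O.sN_π P ht hv h) ?_
  rintro _ ⟨y, n, a, g, rfl, h2, h3, h4, h5, h6, h7, h8⟩
    _ ⟨y', n', a', g', rfl, h2', h3', h4', h5', h6', h7', h8'⟩ ⟨h, e⟩
  rw [← O.gP_smul] at e
  have e : O.gP (PN.pol (h • y) (h • y) ((fun x => h • x) '' O.gx.Pc y n)) = _ := e
  rw [GX.Pc_smul] at e
  obtain ⟨e1, -, e3⟩ := PN.pol.inj (show PN.pol (O.π (h • y)) (O.π (h • y))
    (O.π '' O.gx.Pc (h • y) (h • n)) = PN.pol (O.π y') (O.π y') (O.π '' O.gx.Pc y' n') from e)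
  obtain ⟨k1, k2⟩ := O.Pc_inj ht (O.gx.ar_smul h _ _ h3) h3' e1 e3
  refine ⟨h, ?_⟩
  rw [PN.smul_pol, GX.Pc_smul, k2, k1]

end OpW

end Pool.Agent.DI
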