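import Pool.Agent.DI.OpnC
import Pool.Agent.DI.Bare
import Pool.Agent.DI.ExcE
import Pool.Agent.DI19.OpnP5
import Pool.Agent.DI.LightQ
import Pool.Agent.DI.HDL
import Pool.Agent.DI.NP
import Pool.Agent.DI.OStK

/-!
# DI/K1: the step complex over a state and its numbers

`O.Ok P` (`O : OpW K W`, `P : P45 K`): the conditions of the step complex: the opened vertices have two
poles, finite stabiliser, no finite sink as a pole, are no tops of `P`; the new squares have two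
different tops, one square for every orbit of opened vertices; a top arrow of an opened vertex which is not bare has a
strand. Consequences: `ok.sq`, `ok.x1`, `ok.bare`, `ok.tf`, `ok.fs`, `ok.hv`, `ok.nd`, `ok.lc`, `ok.foldC`,
`ok.ovc`, and the numbers (`sigma`, `pexc`, `excE`, `nVD`, `nVZ`, `nVs`, `nHv`, `p4`, `p5`).
`C.K1`: a step complex over the state `C`.
-/

namespace Pool.Agent.DI

open MulAction
open Pool.Agent.SAF (InC SA orbs FinOrb oc Decomp)

namespace OpW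

variable {H V W : Type} [Group H] [MulAction H V] [MulAction H W] {K : GX H V}

/-- THE CONDITIONS OF THE STEP COMPLEX -/
structure Ok (O : OpW K W) (P : P45 K) : Prop where
  /-- the opened vertices have two poles -/
  tw : O.Tw
  /-- the two tops of a new square are different -/
  ne : ∀ j, O.js j ≠ O.jt j
  /-- one listed square for every orbit of opened vertices -/
  js : O.Js
  /-- the opened vertices are no tops -/
  nt : O.NT P
  /-- the opened vertices are finite -/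
  df : O.DF
  /-- the poles of the opened vertices are no finite sinks -/
  nf : O.NF
  /-- strands at the opened vertices which are not bare -/
  xo : ∀ T a, O.Dbl T → O.gx.ar T a → ¬ (O.p45 P).Bare T → 1 ≤ (O.p45 P).X T a
  /-- an opened vertex which is not bare has one partner -/
  pu : ∀ T a b y a' b' y', O.Dbl T → ¬ (O.p45 P).Bare T → (O.p45 P).Top T a b y →
    (O.p45 P).Top T a' b' y' → y = y'

variable {O : OpW K W} {P : P45 K}

/-! ### bare vertices -/

/-- a vertex over a bare vertex is bare -/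
theorem bare_up {x : W} (h : P.Bare (O.π x)) : (O.p45 P).Bare x := by
  refine ⟨fun n hn => h.1 _ (O.ar_π hn), fun a b y z ha hb hq => ?_⟩
  exact h.2 _ _ _ _ (O.ar_π ha) (O.ar_π hb) (O.Qn_π P hq)

/-- at the vertices which are not opened nothing changes -/
theorem bare_iff {x : W} (hd : ¬ O.Dbl x) : (O.p45 P).Bare x ↔ P.Bare (O.π x) := by
  refine ⟨fun h => ⟨fun n hn => ?_, fun a b y z ha hb hq => ?_⟩, bare_up⟩
  · obtain ⟨n', hn'⟩ := O.sur n
    rw [← hn'] at hn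
    have e := O.π_e _ _ hn
    have e2 : O.e (O.π n') (O.π x) = x := O.not_dbl hd e
    exact h.1 n' ⟨hn, e2⟩
  · obtain ⟨a', x', b', y', z', e1, e2, e3, -, -, hq'⟩ := O.Qn_lift P hq
    have e4 : x' = x := O.not_dbl hd e2
    subst e4
    have ha' : O.gx.ar x' a' := O.ar_of_E hq'.E1.symm (by rw [e1]; exact ha)
    have hb' : O.gx.ar x' b' := O.ar_of_E hq'.E2 (by rw [e3]; exact hb)
    exact h.2 _ _ _ _ ha' hb' hq'

namespace Ok

variable (ok : O.Ok P)

include ok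

/-! ### the class -/

theorem lc (h : ∀ v, K.LC v) : ∀ x, O.gx.LC x := O.gx_lc ok.tw h

theorem sq {E : V → Prop} (hs : P.SqE E) : (O.p45 P).SqE (O.EE E) := O.sqE P hs ok.nt ok.ne ok.js

theorem nd (h : P.ND) : (O.p45 P).ND := O.p45_nd P h ok.ne

theorem tf (h : ∀ T a b y, P.Top T a b y → Finite ↥(stabilizer H T)) :
    ∀ T a b y, (O.p45 P).Top T a b y → Finite ↥(stabilizer H T) :=
  fun _ _ _ _ k => O.op_tf P ok.ne ok.df h k

theorem fs (h : ∀ z, K.FS z → P.NoQ z) : ∀ z, O.gx.FS z → (O.p45 P).NoQ z :=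
  fun _ hz => O.op_fs P ok.ne ok.nf h hz

theorem hv (h : ∀ x a b y, Q4 P x a b y → K.ar x a → Finite ↥(stabilizer H ((x, a) : V × V))) :
    ∀ x a b y, Q4 (O.p45 P) x a b y → O.gx.ar x a → Finite ↥(stabilizer H ((x, a) : W × W)) :=
  fun _ _ _ _ hq hx => O.op_hv P ok.ne ok.df h hq hx

/-- THE STRANDS OF THE TOPS, except at the bare vertices -/
theorem x1 (h : ∀ p ∈ P.TA, ¬ P.Bare p.1 → 1 ≤ P.X p.1 p.2) :
    ∀ p ∈ (O.p45 P).TA, ¬ (O.p45 P).Bare p.1 → 1 ≤ (O.p45 P).X p.1 p.2 := by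
  rintro ⟨T, a⟩ ⟨b, y, k⟩ hb
  by_cases hd : O.Dbl T
  · exact ok.xo T a hd k.2.1 hb
  · have hT : ∀ x, O.π x = O.π T → x = T := fun x e => O.not_dbl hd e
    have k1 : P.Top (O.π T) (O.π a) (O.π b) (O.π y) := by
      rcases O.Top_π P k with q | q
      · exact q
      · exact absurd (NSq.dbl ok.ne q).1 hd
    have e := O.X_eq P ok.nt hT k.2.1
    show 1 ≤ (O.p45 P).X T a
    rw [e]
    exact h (O.π T, O.π a) ⟨_, _, k1⟩ fun k2 => hb (bare_up k2)

/-- the bare tops are opened, if there are none in `K` -/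
theorem bare {E : V → Prop} (h : ∀ T a b y, P.Top T a b y → P.Bare T → E T) {T a b y : W}
    (k : (O.p45 P).Top T a b y) (hb : (O.p45 P).Bare T) : O.EE E T := by
  by_cases hd : O.Dbl T
  · exact Or.inl hd
  · rcases O.Top_π P k with q | q
    · exact Or.inr (h _ _ _ _ q ((bare_iff hd).1 hb))
    · exact absurd (NSq.dbl ok.ne q).1 hd

/-! ### the numbers -/

theorem sigma : (O.p45 P).sigma = P.sigma := O.sigma_eq P ok.nt

theorem pexc : O.gx.pexc = K.pexc := O.pexc_eq ok.tw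

theorem wexc : (O.p45 P).wexc = P.wexc := O.wexc_eq P ok.tw ok.nt

theorem excE (E : V → Prop) : (O.p45 P).excE (O.EE E) = P.excE E := O.excE_eq P ok.tw ok.nt ok.ne E

theorem nSpE (E : V → Prop) : (O.p45 P).nSpE (O.EE E) = P.nSpE E := O.nSpE_eq P ok.nt ok.ne E

theorem nHv : O.gx.nHv = K.nHv := O.nHv_eq ok.ne ok.df

theorem p4 : O.gx.p4 ≤ K.p4 := O.p4_le ok.tw

theorem p5 : O.gx.p5 ≤ K.p5 := O.p5_le ok.tw

theorem nVs (h : ∀ x y, K.E x y → K.EC x y) : O.gx.nVs = K.nVs :=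
  O.nVs_eq ok.ne fun _ _ _ ha => h _ _ (Or.inl ha)

theorem nVc (h : ∀ x y, K.E x y → K.EC x y) : O.gx.nVc = K.nVc :=
  O.nVc_eq ok.ne fun _ _ _ ha => h _ _ (Or.inl ha)

end Ok

end OpW

/-! ### the fold -/

/-- THE OPENED COMPLEX LIES OVER THE SAME CANDIDATE (helper11's form) -/
theorem OpW.Ok.foldC {C : Cd} {V W : Type} [MulAction C.H V] [MulAction C.H W] {K : GX C.H V}
    {O : OpW K W} {P : P45 K} (ok : O.Ok P) {f : V → C.V} (F : FoldC C P f) :
    FoldC C (O.p45 P) (fun x => f (O.π x)) :=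
  O.op_foldC F ok.tw ok.ne ok.df ok.nf

/-- THE OPENED COMPLEX LIES OVER THE SAME CANDIDATE (helper4's form) -/
theorem OpW.Ok.ovc {C : Cd} {V W : Type} [MulAction C.H V] [MulAction C.H W] {K : GX C.H V}
    {O : OpW K W} {P : P45 K} (ok : O.Ok P) {f : V → C.V} (F : OvC C K P f) :
    OvC C O.gx (O.p45 P) (fun x => f (O.π x)) where
  area := O.gx_area.trans F.area
  lc := ok.lc F.lc
  fs := ok.fs F.fs
  hp x a hx hi := by
    have hd : ¬ O.Dbl x := fun k => not_finite_iff_infinite.2 hi (O.fin_of_dbl ok.df k)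
    have hi' : Infinite ↥(stabilizer C.H ((O.π x, O.π a) : V × V)) := by
      rw [← O.stab_pair_eq hd hx]
      exact hi
    obtain ⟨b, y, z, hq⟩ := F.hp _ _ (O.ar_π hx) hi'
    exact O.qn_up P hd hx hq
  smul h x := by rw [O.π_smul, F.smul]
  ar x a hx hi := by
    refine F.ar _ _ (O.ar_π hx) ?_
    refine Infinite.of_injective (fun g : ↥(stabilizer C.H x) =>
      (⟨g.1, ?_⟩ : ↥(stabilizer C.H (O.π x)))) ?_
    · show g.1 • O.π x = O.π x
      rw [← O.π_smul, show g.1 • x = x from g.2]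
    · intro g g' e
      exact Subtype.ext (Subtype.mk.inj e)
  snk z hz hi := by
    refine F.snk (O.π z) (O.snk_iff.1 hz) ?_
    refine Infinite.of_injective (fun g : ↥(stabilizer C.H z) =>
      (⟨g.1, ?_⟩ : ↥(stabilizer C.H (O.π z)))) ?_
    · show g.1 • O.π z = O.π z
      rw [← O.π_smul, show g.1 • z = z from g.2]
    · intro g g' e
      exact Subtype.ext (Subtype.mk.inj e)
  fsink z hz hf := by
    obtain ⟨z', hz', e⟩ := F.fsink z hz hf
    obtain ⟨x, rfl⟩ := O.sur z'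
    refine ⟨x, ⟨O.snk_iff.2 hz'.1, ?_⟩, e⟩
    rw [O.stab_eq (O.snk_ndbl hz'.1)]
    exact hz'.2
  hv n v hn hi hs := by
    obtain ⟨n', v', h1, h2, h3, h4⟩ := F.hv n v hn hi hs
    obtain ⟨x, rfl⟩ := O.sur n'
    have hx := O.ar_e x h1
    have e1 := O.π_e _ _ h1
    have hd : ¬ O.Dbl x := by
      intro k
      have := ok.df x k
      exact not_finite_iff_infinite.2 (inf_of_arrow h3) this
    refine ⟨x, O.e (O.π x) v', hx, O.snk_iff.2 (by rw [e1]; exact h2), ?_, ?_⟩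
    · rw [O.stab_pair_eq hd hx, e1]
      exact h3
    · show f (O.π (O.e (O.π x) v')) = v
      rw [e1]
      exact h4

/-! ### the step complex of a state -/

/-- A STEP COMPLEX OVER A STATE -/
structure St.K1 (C : St) : Type 1 where
  W : Type
  act : MulAction C.H W
  O : OpW C.K W
  ok : O.Ok C.P

namespace St.K1

attribute [instance] St.K1.act

variable {C : St} (k : C.K1)

/-- the complex -/
@[reducible] def K : GX C.H k.W := k.O.gx

/-- the cells -/
@[reducible] noncomputable def P : P45 k.K := k.O.p45 C.P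

/-- the opened vertices -/
def E (x : k.W) : Prop := k.O.Dbl x

/-- the fold -/
noncomputable def f (x : k.W) : C.fd.V := C.tp.f (k.O.π x)

theorem E_eq : k.O.EE (fun _ : C.V => False) = k.E := by
  funext x
  exact propext ⟨fun h => h.elim id False.elim, Or.inl⟩

theorem area : k.K.area = C.K.area := k.O.gx_area

theorem Min : k.K.Min := k.O.gx_min C.Min

theorem lc : ∀ x, k.K.LC x := k.ok.lc C.lc

theorem sq : k.P.SqE k.E := by
  have h := k.ok.sq C.cls.toSqE
  rwa [k.E_eq] at h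

theorem nd : k.P.ND := k.ok.nd C.nd

theorem tf : ∀ T a b y, k.P.Top T a b y → Finite ↥(stabilizer C.H T) := k.ok.tf C.tf

theorem fs : ∀ z, k.K.FS z → k.P.NoQ z := k.ok.fs C.fs

theorem hv : ∀ x a b y, Q4 k.P x a b y → k.K.ar x a →
    Finite ↥(stabilizer C.H ((x, a) : k.W × k.W)) := k.ok.hv C.hv

theorem x1 : ∀ p ∈ k.P.TA, ¬ k.P.Bare p.1 → 1 ≤ k.P.X p.1 p.2 :=
  k.ok.x1 fun p hp _ => C.cls.x1 p hp

theorem x1E : ∀ p ∈ k.P.TA, ¬ k.E p.1 → 1 ≤ k.P.X p.1 p.2 := by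
  intro p hp hE
  refine k.x1 p hp fun hb => hE ?_
  obtain ⟨b, y, h⟩ := hp
  have h1 := k.ok.bare (E := fun _ => False) (fun T a b y h k => C.cls.nbare h k) h hb
  rwa [k.E_eq] at h1

/-- the partner of a top which is not bare is unique -/
theorem par {T a b y a' b' y' : k.W} (h : k.P.Top T a b y) (h' : k.P.Top T a' b' y')
    (hb : ¬ k.P.Bare T) : y = y' := by
  rcases k.sq.par _ _ _ _ _ _ _ h h' with e | e
  · exact k.ok.pu _ _ _ _ _ _ _ e hb h h'
  · exact e

/-- a bare top is opened -/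
theorem bE {T a b y : k.W} (h : k.P.Top T a b y) (hb : k.P.Bare T) : k.E T := by
  by_contra hE
  exact P45.not_bare h.2.1 (k.x1E (T, a) ⟨b, y, h⟩ hE) hb

/-- A BARE VERTEX IS A TOP -/
theorem bt {v : k.W} (h : k.P.Bare v) : ∃ a b y, k.P.Top v a b y := by
  obtain ⟨x, hx⟩ := k.K.exists_nbr C.bad v
  have out : ∀ {x}, k.K.E v x → k.K.ar v x := fun e => e.resolve_right (h.1 _)
  obtain ⟨b, hb⟩ := GX.EC_iff.1 (k.K.EC_of_E k.lc C.bad hx)
  have hc : ∃ c y, k.K.Cor y v c := by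
    rcases k.P.cor_iff.1 hb with ⟨y, z, hq⟩ | ⟨y, hq⟩
    · exact ⟨_, _, k.P.cor_iff.2 (Or.inl ⟨_, _, hq.rot.rot.rot.rot⟩)⟩
    · exact ⟨_, _, k.P.cor_iff.2 (Or.inr ⟨_, hq.rot.rot.rot⟩)⟩
  obtain ⟨c, y, hc⟩ := hc
  have h1 := out hc.E1
  have h2 := out hc.E2
  rcases k.P.cor_iff.1 hc with ⟨y, z, hq⟩ | ⟨y, hq⟩
  · exact absurd hq (h.2 _ _ _ _ h1 h2)
  · exact ⟨_, _, _, hq, h1, h2⟩

/-- bare vertices are opened -/
theorem be {v : k.W} (h : k.P.Bare v) : k.E v := by
  obtain ⟨a, b, y, ht⟩ := k.bt h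
  exact k.bE ht h

/-- all edges lie in cells -/
theorem ec (x y : C.V) (h : C.K.E x y) : C.K.EC x y := C.K.EC_of_E C.lc C.bad h

theorem sigma : k.P.sigma = C.P.sigma := k.ok.sigma

theorem pexc : k.K.pexc = C.K.pexc := k.ok.pexc

theorem nSpE : k.P.nSpE k.E = oc C.H C.P.spT := by
  rw [← k.E_eq, k.ok.nSpE, P45.nSpE_false]

/-- THE EXCESS -/
theorem excE : k.P.excE k.E = C.P.exc := by
  rw [← k.E_eq, k.ok.excE]
  exact P45.excE_false C.cls.toSqE

theorem nVD : k.K.nVD = C.K.nVD := k.O.nVD_eq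

theorem nVZ : k.K.nVZ = C.K.nVZ := k.O.nVZ_eq

theorem nV0 : k.K.nV0 = C.K.nV0 := k.O.nV0_eq

theorem nHv : k.K.nHv = C.K.nHv := k.ok.nHv

theorem nVs : k.K.nVs = C.K.nVs := k.ok.nVs ec

theorem nVc : k.K.nVc = C.K.nVc := k.ok.nVc ec

theorem p4 : k.K.p4 ≤ C.K.p4 := k.ok.p4

theorem p5 : k.K.p5 ≤ C.K.p5 := k.ok.p5

theorem nN : (k.P.fc k.nd).nN ≤ (C.P.fc C.nd).nN := k.O.nN_le C.P k.ok.tw k.ok.nt C.nd k.nd

/-- no backtracking -/
theorem nbt {n v m : k.W} (h : k.K.Cor n v m) : n ≠ m :=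
  GX.nbt_of (k.O.nb C.nb k.ok.ne) h

/-- EVERY PIECE HAS A CORNER AT EVERY POLE -/
theorem pc {n v a : k.W} (hn : k.K.ar n v) (ha : k.K.ar v a) :
    ∃ c, k.K.PC v n c ∧ k.K.ar c v ∧ k.K.Cor c v a :=
  k.O.os C.P k.ok.tw (fun h1 h2 => C.pc h1 h2) hn ha

theorem foldC : FoldC C.fd k.P k.f := k.ok.foldC C.fd_foldC

theorem ovc : OvC C.fd k.K k.P k.f := k.ok.ovc C.fd_ovc

end St.K1

end Pool.Agent.DI
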