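import Pool.Agent.DI.FreeF
import Pool.Agent.DI.Bare
import Pool.Agent.DI.OvP

/-!
# DI/OpnXo: a vertex which is not bare has strands

`P45.xo_of`: if every piece has a corner at every pole and there is no backtracking, then every arrow
`T → a` of a vertex `T` which is not bare has a strand.
-/

namespace Pool.Agent.DI

open MulAction

theorem P45.xo_of {H V : Type} [Group H] [MulAction H V] {K : GX H V} {P : P45 K}
    (nbt : ∀ {n v k : V}, K.Cor n v k → n ≠ k)
    (pc : ∀ {v n a : V}, K.ar n v → K.ar v a → ∃ k, K.PC v n k ∧ K.ar k v ∧ K.Cor k v a)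
    {T a : V} (ha : K.ar T a) (hb : ¬ P.Bare T) : 1 ≤ P.X T a := by
  by_cases h : ∃ n, K.ar n T
  · obtain ⟨n, hn⟩ := h
    obtain ⟨k, -, hk, hc⟩ := pc hn ha
    rcases P.cor_iff.1 hc with ⟨x, y, hq⟩ | ⟨y, hq⟩
    · exact one_le_F5 P hq ha
    · exact one_le_F4 P hq ha hk
  · push Not at h
    have h2 : ¬ ∀ a b y z, K.ar T a → K.ar T b → ¬ Qn P a T b y z := fun k => hb ⟨h, k⟩
    push Not at h2
    obtain ⟨c, d, y, z, hc, hd, hq⟩ := h2
    have hcd : c ≠ d := nbt (P.cor_iff.2 (Or.inl ⟨y, z, hq⟩))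
    rcases K.two _ _ _ _ hc hd ha with e | e | e
    · exact absurd e hcd
    · rw [← e]
      exact one_le_F5 P hq hd
    · rw [← e]
      exact one_le_F5 P hq.symm hc

end Pool.Agent.DI
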