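import Pool.Agent.DI.OpnK
import Pool.Agent.DI.OpnXo
import Pool.Agent.DI.K1
import Pool.Agent.DI.OpnPc

/-!
# DI/OpnK2: the opening by at most two labels: arrows, squares, the conditions of the step complex

`O : OpK K X`. `opk_ne`, `opk_Tw`, `opk_Js`, `opk_dbl`; arrows (`ar_pt`, `ar_br`); stabilisers; the new
squares (`nsq_pt`, `nsq_br`, `nsq_cases`); the bare vertices are bare (`br_bare`); `opk_ok : O.opk.Ok P`.
-/

namespace Pool.Agent.DI

open MulAction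
open Pool.Agent.SAF (InC orbs FinOrb oc FinOrb_iff)

namespace OpK

variable {H V X : Type} [Group H] [MulAction H V] [MulAction H X] {K : GX H V} (O : OpK K X)

theorem opk_ne (j : O.opk.J) : O.opk.js j ≠ O.opk.jt j := O.sK_ne_tK _

theorem opk_Tw : O.opk.Tw := fun _ _ h hne => dl_poles (dl_of_ne h hne)

theorem rep2_inj {j j' : ↥(orbs H {y : V | O.Dl y})} (g : H) (h : g • O.rep2 j = O.rep2 j') :
    j = j' := by
  refine Subtype.ext ?_
  rw [← O.rep2_mk j, ← O.rep2_mk j']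
  exact (Pool.Agent.SAF.mk_eq_iff.2 ⟨g, h⟩).symm

theorem opk_Js : O.opk.Js := by
  intro j j' g hh
  refine O.rep2_inj g ?_
  have e1 : ∀ j, O.π2 (O.opk.js j) = O.rep2 j := fun j => O.π2_sK _
  have e2 : ∀ j, O.π2 (O.opk.jt j) = O.rep2 j := fun j => O.π2_tK _
  rcases hh with e | e | e | e
  · have := congrArg O.π2 e
    rwa [π2_smul, e1, e1] at this
  · have := congrArg O.π2 e
    rwa [π2_smul, e1, e2] at this
  · have := congrArg O.π2 e
    rwa [π2_smul, e2, e1] at this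
  · have := congrArg O.π2 e
    rwa [π2_smul, e2, e2] at this

/-- the vertices with doubles -/
theorem opk_dbl {x : O.W2} : O.opk.Dbl x ↔ O.Dl (O.π2 x) := by
  constructor
  · rintro ⟨y, h, hne⟩
    exact dl_of_ne h hne
  · intro hd
    by_cases e : x = O.sK hd
    · exact ⟨O.tK hd, (O.π2_tK hd).symm, fun k => O.sK_ne_tK hd (e.symm.trans k)⟩
    · exact ⟨O.sK hd, (O.π2_sK hd).symm, e⟩

/-! ### arrows and stabilisers -/

theorem ar_pt {n : O.W2} {y : V} {x : X} {h : (y, x) ∈ O.Lb} :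
    O.opk.gx.ar n (O.pt (y, x) h) ↔ K.ar (O.π2 n) y ∧ O.r (O.π2 n) y = x := by
  constructor
  · rintro ⟨h1, h2⟩
    have h1 : K.ar (O.π2 n) y := h1
    have h2 : O.e2 (O.π2 n) y = O.pt (y, x) h := h2
    rw [O.e2_ar h1, pt_inj] at h2
    exact ⟨h1, congrArg Prod.snd h2⟩
  · rintro ⟨h1, h2⟩
    refine ⟨h1, ?_⟩
    show O.e2 (O.π2 n) y = O.pt (y, x) h
    rw [O.e2_ar h1, pt_inj, h2]

theorem ar_br {n : O.W2} {y : V} {h : O.Exch y} : ¬ O.opk.gx.ar n (O.br y h) := by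
  rintro ⟨-, h2⟩
  obtain ⟨x, hx, e⟩ := O.e2_pt (O.opk.π n) (O.opk.π (O.br y h))
  have h2 : O.e2 (O.opk.π n) (O.opk.π (O.br y h)) = O.br y h := h2
  exact pt_ne_br (e.symm.trans h2)

theorem stab_pt {y : V} {x : X} {h : (y, x) ∈ O.Lb} {g : H} :
    g • O.pt (y, x) h = O.pt (y, x) h ↔ g • y = y ∧ g • x = x := by
  rw [smul_pt, pt_inj]
  constructor
  · intro e
    exact ⟨congrArg Prod.fst e, congrArg Prod.snd e⟩
  · rintro ⟨e1, e2⟩
    exact Prod.ext e1 e2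

theorem stab_br {y : V} {h : O.Exch y} {g : H} : g • O.br y h = O.br y h ↔ g • y = y := by
  rw [smul_br, br_inj]

/-- the vertices of the cells are labels -/
theorem lp_pt (i : K.I) (j : ℕ) : ∃ p h, O.opk.lp i j = O.pt p h := by
  show ∃ p h, lpOf K O.e2 (fun i j => O.pt (K.vx i j, O.d i j) (O.d_mem i j)) i j = O.pt p h
  unfold lpOf
  split_ifs
  · obtain ⟨x, h, e⟩ := O.e2_pt (K.vx i (j + K.len i - 1)) (K.vx i j)
    exact ⟨_, h, e⟩
  · obtain ⟨x, h, e⟩ := O.e2_pt (K.vx i (j + 1)) (K.vx i j)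
    exact ⟨_, h, e⟩
  · exact ⟨(K.vx i j, O.d i j), O.d_mem i j, rfl⟩

/-- the bare vertices are in no old cell -/
theorem lp_ne_br (i : K.I) (j : ℕ) (g : H) {y : V} {h : O.Exch y} :
    g • O.opk.lp i j ≠ O.br y h := by
  obtain ⟨p, hp, e⟩ := O.lp_pt i j
  rw [e, smul_pt]
  exact pt_ne_br

/-- THE BARE VERTICES ARE BARE -/
theorem br_bare (P : P45 K) {y : V} (h : O.Exch y) : (O.opk.p45 P).Bare (O.br y h) := by
  refine ⟨fun n hn => O.ar_br hn, ?_⟩
  rintro a b y' z - - ⟨g, i | j, m, hi, k⟩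
  · have key : ∀ c : O.W2, c = g • O.opk.lp i ((m + 1 : Fin 5) : ℕ) → c = O.br y h → False :=
      fun c e1 e2 => O.lp_ne_br i _ g (e1.symm.trans e2)
    rcases k with k | k
    · exact key _ k.2.1 rfl
    · exact key _ k.2.1 rfl
  · exact hi trivial

/-! ### the new squares -/

/-- the poles of a translate of a listed square -/
theorem sq_poles (j : O.opk.J) (g : H) {y : V} (hy : g • O.rep2 j = y) {a b : V} (ha : K.ar y a)
    (hb : K.ar y b) (hab : a ≠ b) :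
    (O.e2 y a = g • O.opk.e (O.opk.π (O.opk.js j)) (O.opk.ja j) ∧
      O.e2 y b = g • O.opk.e (O.opk.π (O.opk.js j)) (O.opk.jb j)) ∨
    (O.e2 y a = g • O.opk.e (O.opk.π (O.opk.js j)) (O.opk.jb j) ∧
      O.e2 y b = g • O.opk.e (O.opk.π (O.opk.js j)) (O.opk.ja j)) := by
  have ja := O.opk.j_a j
  have jb := O.opk.j_b j
  have jab := O.opk.j_ab j
  have e1 : g • O.opk.π (O.opk.js j) = y := hy
  have ka : K.ar y (g • O.opk.ja j) := by
    rw [← e1]
    exact K.ar_smul g _ _ ja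
  have kb : K.ar y (g • O.opk.jb j) := by
    rw [← e1]
    exact K.ar_smul g _ _ jb
  have kab : g • O.opk.ja j ≠ g • O.opk.jb j := fun e => jab (smul_left_cancel g e)
  have ea : g • O.opk.e (O.opk.π (O.opk.js j)) (O.opk.ja j) = O.e2 y (g • O.opk.ja j) :=
    (O.e2_smul g _ _ ja).symm.trans (congrArg (fun t => O.e2 t (g • O.opk.ja j)) e1)
  have eb : g • O.opk.e (O.opk.π (O.opk.js j)) (O.opk.jb j) = O.e2 y (g • O.opk.jb j) :=
    (O.e2_smul g _ _ jb).symm.trans (congrArg (fun t => O.e2 t (g • O.opk.jb j)) e1)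
  rw [ea, eb]
  rcases K.two _ _ _ _ ha hb ka with q | q | q
  · exact absurd q hab
  · rcases K.two _ _ _ _ ha hb kb with q' | q' | q'
    · exact absurd q' hab
    · exact absurd (q.symm.trans q') kab
    · exact Or.inr ⟨by rw [q'], by rw [q]⟩
  · rcases K.two _ _ _ _ ha hb kb with q' | q' | q'
    · exact absurd q' hab
    · exact Or.inl ⟨by rw [q], by rw [q']⟩
    · exact absurd (q.symm.trans q') kab

theorem ex_j {y : V} (hd : O.Dl y) : ∃ (j : O.opk.J) (g : H), g • O.rep2 j = y := by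
  let j : ↥(orbs H {y : V | O.Dl y}) := ⟨Quotient.mk'' y, y, hd, rfl⟩
  obtain ⟨g, hg⟩ := Pool.Agent.SAF.mk_eq_iff.1 (O.rep2_mk j).symm
  exact ⟨j, g, hg⟩

/-- THE SQUARES OF LABELS WHICH ARE NOT EXCHANGED -/
theorem nsq_pt {y : V} (hE : ¬ O.Exch y) {x x' : X} (hx : (y, x) ∈ O.Lb) (hx' : (y, x') ∈ O.Lb)
    (hne : x ≠ x') {a b : V} (ha : K.ar y a) (hb : K.ar y b) (hab : a ≠ b) :
    O.opk.NSq (O.e2 y a) (O.pt (y, x) hx) (O.e2 y b) (O.pt (y, x') hx') := by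
  obtain ⟨j, g, hg⟩ := O.ex_j ⟨x, x', hx, hx', hne⟩
  refine ⟨g, j, ?_, O.sq_poles j g hg ha hb hab⟩
  have hE' : ¬ O.Exch (O.rep2 j) := fun k => hE (by rw [← hg]; exact k.smul g)
  have es : g • O.opk.js j = O.pt (g • (O.rep2 j, O.l1 (O.rep2_dl j)))
      (O.inv g _ (O.l1_mem _)) := rfl
  have et : g • O.opk.jt j = O.pt (g • (O.rep2 j, O.l2 (O.rep2_dl j)))
      (O.inv g _ (O.l2_mem _)) := by
    show g • O.tK (O.rep2_dl j) = _
    rw [O.tK_nex _ hE']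
    rfl
  have m1 : (y, g • O.l1 (O.rep2_dl j)) ∈ O.Lb := by
    have := O.inv g _ (O.l1_mem (O.rep2_dl j))
    rw [← hg]
    exact this
  have m2 : (y, g • O.l2 (O.rep2_dl j)) ∈ O.Lb := by
    have := O.inv g _ (O.l2_mem (O.rep2_dl j))
    rw [← hg]
    exact this
  have m3 : g • O.l1 (O.rep2_dl j) ≠ g • O.l2 (O.rep2_dl j) :=
    fun e => O.l_ne _ (smul_left_cancel g e)
  rw [es, et]
  have q1 : ∀ {z : X} {hz : (y, z) ∈ O.Lb} , z = g • O.l1 (O.rep2_dl j) →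
      O.pt (y, z) hz = O.pt (g • (O.rep2 j, O.l1 (O.rep2_dl j))) (O.inv g _ (O.l1_mem _)) := by
    intro z hz e
    rw [pt_inj]
    exact Prod.ext hg.symm e
  have q2 : ∀ {z : X} {hz : (y, z) ∈ O.Lb} , z = g • O.l2 (O.rep2_dl j) →
      O.pt (y, z) hz = O.pt (g • (O.rep2 j, O.l2 (O.rep2_dl j))) (O.inv g _ (O.l2_mem _)) := by
    intro z hz e
    rw [pt_inj]
    exact Prod.ext hg.symm e
  rcases two_lb m1 m2 m3 hx with e | e
  · rcases two_lb m1 m2 m3 hx' with e' | e'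
    · exact absurd (e.trans e'.symm) hne
    · exact Or.inl ⟨q1 e, q2 e'⟩
  · rcases two_lb m1 m2 m3 hx' with e' | e'
    · exact Or.inr ⟨q2 e, q1 e'⟩
    · exact absurd (e.trans e'.symm) hne

/-- THE SQUARES WITH A BARE VERTEX -/
theorem nsq_br {y : V} (hE : O.Exch y) {x : X} (hx : (y, x) ∈ O.Lb) {a b : V} (ha : K.ar y a)
    (hb : K.ar y b) (hab : a ≠ b) :
    O.opk.NSq (O.e2 y a) (O.pt (y, x) hx) (O.e2 y b) (O.br y hE) := by
  obtain ⟨j, g, hg⟩ := O.ex_j hE.dl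
  have hE' : O.Exch (O.rep2 j) := (exch_iff g).1 (by rw [hg]; exact hE)
  have m1 : (y, g • O.l1 (O.rep2_dl j)) ∈ O.Lb := by
    have := O.inv g _ (O.l1_mem (O.rep2_dl j))
    rw [← hg]
    exact this
  obtain ⟨k, k1, k2⟩ : ∃ k : H, k • y = y ∧ k • g • O.l1 (O.rep2_dl j) = x := by
    by_cases e : g • O.l1 (O.rep2_dl j) = x
    · exact ⟨1, one_smul _ _, by rw [one_smul, e]⟩
    · exact hE.sw m1 hx e
  have hk : (k * g) • O.rep2 j = y := by rw [mul_smul, hg, k1]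
  refine ⟨k * g, j, Or.inl ⟨?_, ?_⟩, O.sq_poles j (k * g) hk ha hb hab⟩
  · show O.pt (y, x) hx = (k * g) • O.sK (O.rep2_dl j)
    unfold sK
    rw [smul_pt, pt_inj]
    exact Prod.ext hk.symm (by
      show x = (k * g) • O.l1 (O.rep2_dl j)
      rw [mul_smul, k2])
  · show O.br y hE = (k * g) • O.tK (O.rep2_dl j)
    rw [O.tK_ex _ hE', smul_br, br_inj, hk]

/-- the listed squares -/
theorem js_cases (j : O.opk.J) :
    (∃ y x x' hx hx', ¬ O.Exch y ∧ x ≠ x' ∧ O.opk.js j = O.pt (y, x) hx ∧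
      O.opk.jt j = O.pt (y, x') hx') ∨
    ∃ y x hx hE, O.opk.js j = O.pt (y, x) hx ∧ O.opk.jt j = O.br y hE := by
  by_cases hE : O.Exch (O.rep2 j)
  · exact Or.inr ⟨O.rep2 j, _, O.l1_mem _, hE, rfl, O.tK_ex _ hE⟩
  · exact Or.inl ⟨O.rep2 j, _, _, O.l1_mem _, O.l2_mem _, hE, O.l_ne _, rfl, O.tK_nex _ hE⟩

/-- ALL NEW SQUARES -/
theorem nsq_cases {a q b z : O.W2} (h : O.opk.NSq a q b z) :
    (∃ y x x' hx hx', ¬ O.Exch y ∧ x ≠ x' ∧ q = O.pt (y, x) hx ∧ z = O.pt (y, x') hx') ∨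
    ∃ y x hx hE, (q = O.pt (y, x) hx ∧ z = O.br y hE) ∨ (q = O.br y hE ∧ z = O.pt (y, x) hx) := by
  obtain ⟨g, j, h1, -⟩ := h
  have es : g • O.opk.js j = O.pt (g • (O.rep2 j, O.l1 (O.rep2_dl j)))
      (O.inv g _ (O.l1_mem _)) := rfl
  by_cases hE : O.Exch (O.rep2 j)
  · right
    have et : g • O.opk.jt j = O.br (g • O.rep2 j) (hE.smul g) := by
      show g • O.tK (O.rep2_dl j) = _
      rw [O.tK_ex _ hE]
      rfl
    refine ⟨g • O.rep2 j, g • O.l1 (O.rep2_dl j), O.inv g _ (O.l1_mem _), hE.smul g, ?_⟩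
    rcases h1 with ⟨rfl, rfl⟩ | ⟨rfl, rfl⟩
    · exact Or.inl ⟨es, et⟩
    · exact Or.inr ⟨et, es⟩
  · left
    have et : g • O.opk.jt j = O.pt (g • (O.rep2 j, O.l2 (O.rep2_dl j)))
        (O.inv g _ (O.l2_mem _)) := by
      show g • O.tK (O.rep2_dl j) = _
      rw [O.tK_nex _ hE]
      rfl
    have hne : g • O.l1 (O.rep2_dl j) ≠ g • O.l2 (O.rep2_dl j) :=
      fun e => O.l_ne _ (smul_left_cancel g e)
    have hE' : ¬ O.Exch (g • O.rep2 j) := fun k => hE ((exch_iff g).1 k)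
    rcases h1 with ⟨rfl, rfl⟩ | ⟨rfl, rfl⟩
    · exact ⟨g • O.rep2 j, _, _, O.inv g _ (O.l1_mem _), O.inv g _ (O.l2_mem _), hE', hne, es, et⟩
    · exact ⟨g • O.rep2 j, _, _, O.inv g _ (O.l2_mem _), O.inv g _ (O.l1_mem _), hE', hne.symm,
        et, es⟩

/-- the partner in a new square of a vertex which is not bare -/
theorem nsq_uniq {a q b z a' b' z' : O.W2} (hq : ∀ y h, q ≠ O.br y h) (h : O.opk.NSq a q b z)
    (h' : O.opk.NSq a' q b' z') : z = z' := by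
  rcases O.nsq_cases h with ⟨y, x, x', hx, hx', hE, hne, rfl, rfl⟩ |
    ⟨y, x, hx, hE, ⟨rfl, rfl⟩ | ⟨rfl, rfl⟩⟩
  · rcases O.nsq_cases h' with ⟨v, t, t', ht, ht', hE', hne', e, rfl⟩ |
      ⟨v, t, ht, hE', ⟨e, rfl⟩ | ⟨e, rfl⟩⟩
    · have e1 := pt_inj.1 e
      have e2 : y = v := congrArg Prod.fst e1
      have e3 : x = t := congrArg Prod.snd e1
      subst e2
      subst e3
      rcases two_lb hx hx' hne ht' with k | k
      · exact absurd k.symm hne'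
      · rw [pt_inj, k]
    · have e1 := pt_inj.1 e
      have e2 : y = v := congrArg Prod.fst e1
      subst e2
      exact absurd hE' hE
    · exact absurd e pt_ne_br
  · rcases O.nsq_cases h' with ⟨v, t, t', ht, ht', hE', hne', e, rfl⟩ |
      ⟨v, t, ht, hE', ⟨e, rfl⟩ | ⟨e, rfl⟩⟩
    · have e1 := pt_inj.1 e
      have e2 : y = v := congrArg Prod.fst e1
      subst e2
      exact absurd hE hE'
    · have e1 := pt_inj.1 e
      have e2 : y = v := congrArg Prod.fst e1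
      rw [br_inj, e2]
    · exact absurd e pt_ne_br
  · exact absurd rfl (hq _ _)

/-! ### the conditions of the step complex -/

/-- THE CONDITIONS OF THE STEP COMPLEX -/
theorem opk_ok {P : P45 K} (nt : ∀ T a b y, P.Top T a b y → ¬ O.Dl T)
    (df : ∀ y, O.Dl y → Finite ↥(stabilizer H y))
    (nf : ∀ y, O.Dl y → ∀ a, K.ar y a → ¬ K.FS a) (nb : ∀ e : K.LE, K.c0 e ≠ K.c2 e)
    (pc : ∀ {v n a : V}, K.ar n v → K.ar v a → ∃ k, K.PC v n k ∧ K.ar k v ∧ K.Cor k v a) :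
    O.opk.Ok P where
  tw := O.opk_Tw
  ne := O.opk_ne
  js := O.opk_Js
  nt _ _ h hne _ _ _ k := nt _ _ _ _ k (dl_of_ne h hne)
  df _ hx := df _ (O.opk_dbl.1 hx)
  nf _ hx a ha := nf _ (O.opk_dbl.1 hx) a ha
  xo _ _ _ ha hb := P45.xo_of (fun h => O.opk.nbt_up nb O.opk_ne h)
    (fun h1 h2 => O.opk.pc_up O.opk_Tw pc h1 h2) ha hb
  pu T a b y a' b' y' hd hb k k' := by
    have hd := O.opk_dbl.1 hd
    have key : ∀ {a b y : O.W2}, (O.opk.p45 P).Top T a b y → O.opk.NSq a T b y := by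
      intro a b y k
      rcases O.opk.Top_π P k with q | q
      · exact absurd hd (nt _ _ _ _ q)
      · exact q
    refine O.nsq_uniq ?_ (key k) (key k')
    rintro v hv rfl
    exact hb (O.br_bare P hv)

end OpK

end Pool.Agent.DI
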