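import Pool.Agent.DI.DscU
import Pool.Agent.DI.OpnK2

/-!
# DI/DscI: the step complex of a system over the split complex

`LbJ.opK r ht : OpK K (Lab D.X)`, `LbJ.mp : OpMap O (opK r ht).opk`, `LbJ.stp`: the interface `Stp`.
-/

namespace Pool.Agent.DI

open MulAction
open Pool.Agent.SAF (InC SA orbs FinOrb oc Decomp SAn Conv FinOrb_iff exists_next)
open Pool.Agent.BT (PX PQ JS bey exits Ell mst)
open Pool.Agent.BT.TA

theorem OpW.lp_ar {H V W : Type} [Group H] [MulAction H V] [MulAction H W] {K : GX H V}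
    (O : OpW K W) {i : K.I} (hl : 0 < K.len i) {j : ℕ}
    (h : K.ar (K.vx i j) (K.vx i (j + 1))) : O.e (K.vx i j) (K.vx i (j + 1)) = O.lp i (j + 1) := by
  have h1 := O.gx.vx_E (i := Sum.inl i) (by rw [O.gx_len_inl]; exact hl) j
  rw [O.gx_vx_inl i hl, O.gx_vx_inl i hl] at h1
  have h2 : O.gx.ar (O.lp i j) (O.lp i (j + 1)) := O.ar_of_E h1 (by
    rw [O.π_lp, O.π_lp]
    exact h)
  have h3 := O.ar_e' h2
  rwa [O.π_lp, O.π_lp] at h3

theorem OpW.lp_ar' {H V W : Type} [Group H] [MulAction H V] [MulAction H W] {K : GX H V}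
    (O : OpW K W) {i : K.I} (hl : 0 < K.len i) {j : ℕ}
    (h : K.ar (K.vx i (j + 1)) (K.vx i j)) : O.e (K.vx i (j + 1)) (K.vx i j) = O.lp i j := by
  have h1 := O.gx.vx_E (i := Sum.inl i) (by rw [O.gx_len_inl]; exact hl) j
  rw [O.gx_vx_inl i hl, O.gx_vx_inl i hl] at h1
  have h2 : O.gx.ar (O.lp i (j + 1)) (O.lp i j) := O.ar_of_E h1.symm (by
    rw [O.π_lp, O.π_lp]
    exact h)
  have h3 := O.ar_e' h2
  rwa [O.π_lp, O.π_lp] at h3

/-- the subtree as a label -/
def lbl {X W : Type} (J : W → Set X) (x : W) : Lab X := J x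

namespace LbJ

variable {H V W : Type} [Group H] [MulAction H V] [MulAction H W] {K : GX H V} {P : P45 K}
  {O : OpW K W} {D : Decomp H} {J : W → Set D.X}
  {js : JS (O.p45 P).pq D J} {hc : (SyQ.mk O.gx (O.p45 P) D J js).Conn}
  {tw : W → W → Prop} {Tp : W → Prop} {pt : W → W} {Z : W → Prop}
  (r : (SyQ.mk O.gx (O.p45 P) D J js).RK hc tw Tp pt Z) (ht : O.Tw)

/-- THE LABELS -/
def opK : OpK K (Lab D.X) where
  toOpR := opR r ht
  le2 := le2 r ht

/-- the label of a vertex -/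
def fK (x : W) : (opK r ht).W2 := (opK r ht).pt (O.π x, lbl J x) (LbJ.mk x)

theorem fK_eq {x x' : W} : fK r ht x = fK r ht x' ↔ O.π x = O.π x' ∧ J x = J x' := by
  constructor
  · intro e
    have e' := OpK.pt_inj.1 (show (opK r ht).pt (O.π x, lbl J x) (LbJ.mk x) =
      (opK r ht).pt (O.π x', lbl J x') (LbJ.mk x') from e)
    exact ⟨congrArg Prod.fst e', congrArg Prod.snd e'⟩
  · rintro ⟨e1, e2⟩
    exact OpK.pt_inj.2 (Prod.ext e1 e2)

theorem fK_pt {x : W} {y : V} {L : Lab D.X} (h : (y, L) ∈ (opK r ht).Lb) (e1 : O.π x = y)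
    (e2 : lbl J x = L) : fK r ht x = (opK r ht).pt (y, L) h :=
  OpK.pt_inj.2 (Prod.ext e1 e2)

/-- THE MAP -/
def mp : OpMap O (opK r ht).opk where
  f := fK r ht
  f_smul h x := OpK.pt_inj.2 (Prod.ext (O.π_smul h x) (js_lab js h x))
  f_π _ := rfl
  f_e n y a := by
    show fK r ht (O.e n y) = (opK r ht).e2 n y
    rw [(opK r ht).e2_ar a]
    exact fK_pt r ht _ (O.π_e _ _ a) rfl
  f_lp i j := by
    show fK r ht (O.lp i j) = lpOf K (opK r ht).e2
      (fun i j => (opK r ht).pt (K.vx i j, (opK r ht).d i j) ((opK r ht).d_mem i j)) i j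
    have hl : 0 < K.len i := by
      by_cases hi : P.sq i
      · rw [P.len4 hi]
        omega
      · rw [P.len5 hi]
        omega
    by_cases h1 : K.ar (K.vx i (j + K.len i - 1)) (K.vx i j)
    · rw [lpOf_left h1, (opK r ht).e2_ar h1]
      refine fK_pt r ht _ (O.π_lp i j) ?_
      show J (O.lp i j) = J (O.e (K.vx i (j + K.len i - 1)) (K.vx i j))
      have e1 : K.vx i (j + K.len i - 1 + 1) = K.vx i j := by
        rw [show j + K.len i - 1 + 1 = j + K.len i by omega, K.vx_add_len]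
      have e2 : O.lp i (j + K.len i - 1 + 1) = O.lp i j := by
        rw [show j + K.len i - 1 + 1 = j + K.len i by omega, O.lp_len]
      have h2 := O.lp_ar hl (j := j + K.len i - 1) (by rw [e1]; exact h1)
      rw [e1, e2] at h2
      rw [h2]
    · by_cases h2 : K.ar (K.vx i (j + 1)) (K.vx i j)
      · rw [lpOf_right h1 h2, (opK r ht).e2_ar h2]
        refine fK_pt r ht _ (O.π_lp i j) ?_
        show J (O.lp i j) = J (O.e (K.vx i (j + 1)) (K.vx i j))
        rw [O.lp_ar' hl h2]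
      · rw [lpOf_ch h1 h2]
        exact fK_pt r ht _ (O.π_lp i j) rfl

theorem mp_f (x : W) : (mp r ht).f x = fK r ht x := rfl

/-- a bare vertex is no label -/
theorem im_br {y : V} {h : (opK r ht).Exch y} : ¬ (mp r ht).Im ((opK r ht).br y h) := by
  rintro ⟨x, e⟩
  exact OpK.pt_ne_br (show (opK r ht).pt (O.π x, lbl J x) (LbJ.mk x) = (opK r ht).br y h from e)

/-- a vertex which is no label is bare -/
theorem nim {v : (opK r ht).W2} (h : ¬ (mp r ht).Im v) : ∃ y hy, v = (opK r ht).br y hy := by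
  rcases (opK r ht).w2_cases v with ⟨⟨y, L⟩, hp, rfl⟩ | h'
  · exfalso
    obtain ⟨x, e1, e2⟩ := id hp
    exact h ⟨x, fK_pt r ht hp e1 e2⟩
  · exact h'

/-- THE INTERFACE OF THE STEP COMPLEX -/
theorem stp : (mp r ht).Stp J where
  lab x x' e k := (fK_eq r ht).2 ⟨e, k⟩
  inj x x' e := ((fK_eq r ht).1 e).2
  br v hv := by
    obtain ⟨y, hy, rfl⟩ := nim r ht hv
    exact hy
  ex y hy := ⟨(opK r ht).br y hy, im_br r ht, rfl⟩
  uni v v' hv hv' e := by
    obtain ⟨y, hy, rfl⟩ := nim r ht hv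
    obtain ⟨y', hy', rfl⟩ := nim r ht hv'
    have e : y = y' := e
    rw [OpK.br_inj, e]
  sq x x' a b e hne hE ha hb hab := by
    have hπ : O.π a ≠ O.π b := by
      intro k
      apply hab
      rw [← O.ar_e' ha, ← O.ar_e' hb, k]
    have hx' : ((O.π x, lbl J x') : V × Lab D.X) ∈ (opK r ht).Lb := ⟨x', e.symm, rfl⟩
    have h := (opK r ht).nsq_pt (y := O.π x) hE (x := lbl J x) (x' := lbl J x') (LbJ.mk x) hx' hne
      (O.ar_π ha) (O.ar_π hb) hπ
    have ea : (mp r ht).f a = (opK r ht).e2 (O.π x) (O.π a) := by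
      have := (mp r ht).f_e _ _ (O.ar_π ha)
      rw [O.ar_e' ha] at this
      exact this
    have eb : (mp r ht).f b = (opK r ht).e2 (O.π x) (O.π b) := by
      have := (mp r ht).f_e _ _ (O.ar_π hb)
      rw [O.ar_e' hb] at this
      exact this
    have ex' : (mp r ht).f x' = (opK r ht).pt (O.π x, lbl J x') hx' := fK_pt r ht hx' e.symm rfl
    rw [ea, eb, ex']
    exact h
  sqb x v a b hv e ha hb hab := by
    obtain ⟨y, hy, rfl⟩ := nim r ht hv
    have e : y = O.π x := e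
    subst e
    have hπ : O.π a ≠ O.π b := by
      intro k
      apply hab
      rw [← O.ar_e' ha, ← O.ar_e' hb, k]
    have h := (opK r ht).nsq_br hy (x := lbl J x) (LbJ.mk x) (O.ar_π ha) (O.ar_π hb) hπ
    have ea : (mp r ht).f a = (opK r ht).e2 (O.π x) (O.π a) := by
      have := (mp r ht).f_e _ _ (O.ar_π ha)
      rw [O.ar_e' ha] at this
      exact this
    have eb : (mp r ht).f b = (opK r ht).e2 (O.π x) (O.π b) := by
      have := (mp r ht).f_e _ _ (O.ar_π hb)
      rw [O.ar_e' hb] at this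
      exact this
    rw [ea, eb]
    exact h
  jj j := by
    rcases (opK r ht).js_cases j with ⟨y, L, L', hx, hx', hE, hne, e1, e2⟩ | ⟨y, L, hx, hE, e1, e2⟩
    · left
      obtain ⟨x, k1, k2⟩ := id hx
      obtain ⟨x', k1', k2'⟩ := id hx'
      have k1 : O.π x = y := k1
      have k2 : J x = L := k2
      have k1' : O.π x' = y := k1'
      have k2' : J x' = L' := k2'
      refine ⟨x, x', (fK_pt r ht hx k1 k2).trans e1.symm, (fK_pt r ht hx' k1' k2').trans e2.symm,
        fun k => hne (k2.symm.trans (k.trans k2')), ?_⟩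
      rw [k1]
      exact hE
    · right
      obtain ⟨x, k1, k2⟩ := id hx
      refine ⟨⟨x, (fK_pt r ht hx k1 k2).trans e1.symm⟩, ?_⟩
      rw [e2]
      exact im_br r ht
  jo := (opK r ht).opk_Js

end LbJ

end Pool.Agent.DI
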