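import Pool.Agent.DI.DscL
import Pool.Agent.DI.OpnR

/-!
# DI/DscK: the labels of the step complex

`Lab X`: subsets of `X` as labels, with the pointwise action. `O : OpW K W` (the split complex), a system
`J` over it: the labels over `y` are the subtrees of the vertices over `y` (`LbJ`), the label of an
in-arrow `n → y` is `J (O.e n y)`, of a corner `J (O.lp i j)`. The facts needed for an opening by labels:
`LbJ.*`.
-/

namespace Pool.Agent.DI

open MulAction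
open Pool.Agent.SAF (InC SA orbs FinOrb oc Decomp SAn Conv FinOrb_iff exists_next)
open Pool.Agent.BT (PX PQ JS bey exits Ell mst)
open Pool.Agent.BT.TA

/-- subsets as labels -/
def Lab (X : Type) : Type := Set X

namespace Lab

variable {H X : Type} [Group H] [MulAction H X]

/-- the set of a label -/
def st (L : Lab X) : Set X := L

instance : MulAction H (Lab X) where
  smul h L := (show Lab X from {p | h⁻¹ • p ∈ L.st})
  one_smul L := by
    refine Set.ext fun p => ?_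
    show (1 : H)⁻¹ • p ∈ L.st ↔ p ∈ L.st
    rw [inv_one, one_smul]
  mul_smul g h L := by
    refine Set.ext fun p => ?_
    show (g * h)⁻¹ • p ∈ L.st ↔ h⁻¹ • g⁻¹ • p ∈ L.st
    rw [mul_inv_rev, mul_smul]

theorem mem_smul {h : H} {L : Lab X} {p : X} : p ∈ (h • L).st ↔ h⁻¹ • p ∈ L.st := Iff.rfl

/-- one point -/
def pt (p : X) : Lab X := ({p} : Set X)

theorem smul_pt (h : H) (p : X) : h • pt p = pt (h • p) := by
  refine Set.ext fun q => ?_
  show h⁻¹ • q ∈ ({p} : Set X) ↔ q ∈ ({h • p} : Set X)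
  rw [Set.mem_singleton_iff, Set.mem_singleton_iff, inv_smul_eq_iff]

end Lab

/-- the subtrees are equivariant -/
theorem js_lab {H V : Type} [Group H] [MulAction H V] {Q : PQ H V} {D : Decomp H}
    {J : V → Set D.X} (js : JS Q D J) (h : H) (x : V) :
    (show Lab D.X from J (h • x)) = h • (show Lab D.X from J x) := by
  refine Set.ext fun p => ?_
  show p ∈ J (h • x) ↔ h⁻¹ • p ∈ J x
  constructor
  · intro k
    have := js.smul h⁻¹ _ _ k
    rwa [inv_smul_smul] at this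
  · intro k
    have := js.smul h _ _ k
    rwa [smul_inv_smul] at this

section LbJ

variable {H V W : Type} [Group H] [MulAction H V] [MulAction H W] {K : GX H V} {P : P45 K}
  (O : OpW K W) {D : Decomp H} (J : W → Set D.X)

/-- the labels over the vertices -/
def LbJ : Set (V × Lab D.X) := {p | ∃ x, O.π x = p.1 ∧ J x = p.2}

variable {O J}

theorem LbJ.mk (x : W) : ((O.π x, J x) : V × Lab D.X) ∈ LbJ O J := ⟨x, rfl, rfl⟩

theorem LbJ.inv (js : JS (O.p45 P).pq D J) (h : H) (p : V × Lab D.X) (hp : p ∈ LbJ O J) :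
    h • p ∈ LbJ O J := by
  obtain ⟨x, h1, h2⟩ := hp
  refine ⟨h • x, ?_, ?_⟩
  · rw [O.π_smul, h1]
    rfl
  · have e := js_lab js h x
    have e' : J (h • x) = (h • (show Lab D.X from J x) : Lab D.X) := e
    rw [e']
    show h • (show Lab D.X from J x) = h • p.2
    rw [← h2]

theorem LbJ.sur (y : V) : ∃ L : Lab D.X, (y, L) ∈ LbJ O J := by
  obtain ⟨x, hx⟩ := O.sur y
  exact ⟨J x, x, hx, rfl⟩

theorem LbJ.r_smul (js : JS (O.p45 P).pq D J) (h : H) (n y : V) (a : K.ar n y) :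
    (show Lab D.X from J (O.e (h • n) (h • y))) = h • (show Lab D.X from J (O.e n y)) := by
  rw [O.e_smul h n y a]
  exact js_lab js h _

theorem LbJ.r_mem (n y : V) (a : K.ar n y) : ((y, J (O.e n y)) : V × Lab D.X) ∈ LbJ O J :=
  ⟨O.e n y, O.π_e _ _ a, rfl⟩

theorem LbJ.r_cor (n y n' : V) (h : K.Cor n y n') (a : K.ar n y) (a' : K.ar n' y) :
    J (O.e n y) = J (O.e n' y) := by
  obtain ⟨n1, y1, n2, rfl, rfl, rfl, hc⟩ := O.Cor_lift h
  have k1 : O.gx.ar n1 y1 := O.ar_of_E hc.E1.symm a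
  have k2 : O.gx.ar n2 y1 := O.ar_of_E hc.E2.symm a'
  rw [O.ar_e' k1, O.ar_e' k2]

theorem LbJ.d_len (i : K.I) (j : ℕ) : J (O.lp i (j + K.len i)) = J (O.lp i j) := by
  rw [O.lp_len]

theorem LbJ.d_mem (i : K.I) (j : ℕ) : ((K.vx i j, J (O.lp i j)) : V × Lab D.X) ∈ LbJ O J :=
  ⟨O.lp i j, O.π_lp i j, rfl⟩

theorem LbJ.two (ht : O.Tw) (y : V) (L L' : Lab D.X) (h : (y, L) ∈ LbJ O J)
    (h' : (y, L') ∈ LbJ O J) (hne : L ≠ L') : ∃ a b, a ≠ b ∧ K.ar y a ∧ K.ar y b := by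
  obtain ⟨x, h1, h2⟩ := h
  obtain ⟨x', h1', h2'⟩ := h'
  have h1 : O.π x = y := h1
  have h1' : O.π x' = y := h1'
  have h2 : J x = L := h2
  have h2' : J x' = L' := h2'
  have k := ht x x' (h1.trans h1'.symm) (fun e => hne (by rw [← h2, ← h2', e]))
  rwa [h1] at k

theorem LbJ.fin (js : JS (O.p45 P).pq D J) : FinOrb H (LbJ O J) := by
  refine FinOrb.image (H := H) (H' := H) O.fin
    (fun x : W => ((O.π x, J x) : V × Lab D.X)) ?_ ?_
  · rintro ⟨y, L⟩ ⟨x, h1, h2⟩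
    refine ⟨x, trivial, 1, ?_⟩
    rw [one_smul]
    exact Prod.ext h1 h2
  · rintro x - z - ⟨h, rfl⟩
    refine ⟨h, ?_⟩
    refine Prod.ext ?_ ?_
    · exact (O.π_smul h x).symm
    · exact (js_lab js h x).symm

/-- AT MOST TWO LABELS -/
theorem LbJ.le2 {js : JS (O.p45 P).pq D J} {hc : (SyQ.mk O.gx (O.p45 P) D J js).Conn}
    {tw : W → W → Prop} {Tp : W → Prop} {pt : W → W} {Z : W → Prop}
    (r : (SyQ.mk O.gx (O.p45 P) D J js).RK hc tw Tp pt Z) (ht : O.Tw) (y : V)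
    (L L' L'' : Lab D.X) (h : (y, L) ∈ LbJ O J) (h' : (y, L') ∈ LbJ O J)
    (h'' : (y, L'') ∈ LbJ O J) : L = L' ∨ L' = L'' ∨ L = L'' := by
  obtain ⟨x, h1, h2⟩ := h
  obtain ⟨x', h1', h2'⟩ := h'
  obtain ⟨x'', h1'', h2''⟩ := h''
  have h1 : O.π x = y := h1
  have h1' : O.π x' = y := h1'
  have h1'' : O.π x'' = y := h1''
  have h2 : J x = L := h2
  have h2' : J x' = L' := h2'
  have h2'' : J x'' = L'' := h2''
  rcases r.le2 ht (h1.trans h1'.symm) (h1'.trans h1''.symm) with e | e | e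
  · exact Or.inl (h2.symm.trans (e.trans h2'))
  · exact Or.inr (Or.inl (h2'.symm.trans (e.trans h2'')))
  · exact Or.inr (Or.inr (h2.symm.trans (e.trans h2'')))

/-- A TOP HAS ONE LABEL -/
theorem LbJ.top {js : JS (O.p45 P).pq D J} {hc : (SyQ.mk O.gx (O.p45 P) D J js).Conn}
    {tw : W → W → Prop} {Tp : W → Prop} {pt : W → W} {Z : W → Prop}
    (r : (SyQ.mk O.gx (O.p45 P) D J js).RK hc tw Tp pt Z) (hT : P.SqT) {T a b y : V}
    (ht : P.Top T a b y) {L L' : Lab D.X} (h : (T, L) ∈ LbJ O J) (h' : (T, L') ∈ LbJ O J) :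
    L = L' := by
  obtain ⟨x, h1, h2⟩ := h
  obtain ⟨x', h1', h2'⟩ := h'
  have h2 : J x = L := h2
  have h2' : J x' = L' := h2'
  rw [← h2, ← h2']
  exact r.top_one hT ht h1 h1'

/-- TWO LABELS over a vertex are two points, in the subtrees of the poles -/
theorem LbJ.pts (js : JS (O.p45 P).pq D J) (ht : O.Tw) {y : V} {L L' : Lab D.X}
    (h : (y, L) ∈ LbJ O J) (h' : (y, L') ∈ LbJ O J) (hne : L ≠ L') :
    ∃ p p' : D.X, L = ({p} : Set D.X) ∧ L' = ({p'} : Set D.X) ∧ p ≠ p' := by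
  obtain ⟨x, h1, h2⟩ := h
  obtain ⟨x', h1', h2'⟩ := h'
  have h1 : O.π x = y := h1
  have h1' : O.π x' = y := h1'
  have h2 : J x = L := h2
  have h2' : J x' = L' := h2'
  have e := h1.trans h1'.symm
  have hJ : J x ≠ J x' := fun k => hne (h2.symm.trans (k.trans h2'))
  obtain ⟨a, b, -, ha, -⟩ := SyQ.part_poles ht e (fun k => hJ (by rw [k]))
  obtain ⟨p, p', hp, hp', hpp⟩ := SyQ.part_pts js e ⟨a, ha⟩ hJ
  exact ⟨p, p', h2.symm.trans hp, h2'.symm.trans hp', hpp⟩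

/-- the pairs of different labels -/
theorem LbJ.fin2 {js : JS (O.p45 P).pq D J} {hc : (SyQ.mk O.gx (O.p45 P) D J js).Conn}
    {tw : W → W → Prop} {Tp : W → Prop} {pt : W → W} {Z : W → Prop}
    (r : (SyQ.mk O.gx (O.p45 P) D J js).RK hc tw Tp pt Z) (ht : O.Tw) :
    FinOrb H {p : (V × Lab D.X) × (V × Lab D.X) | p.1 ∈ LbJ O J ∧ p.2 ∈ LbJ O J ∧
      p.1.1 = p.2.1 ∧ p.1 ≠ p.2} := by
  refine FinOrb.of_inj (H' := H) (LbJ.fin js)
    (fun p : (V × Lab D.X) × (V × Lab D.X) => p.1) (fun p hp => hp.1) ?_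
  rintro ⟨⟨y, L⟩, ⟨y', L'⟩⟩ ⟨h1, h2, h3, h4⟩ ⟨⟨z, M⟩, ⟨z', M'⟩⟩ ⟨k1, k2, k3, k4⟩ ⟨h, e⟩
  have h3 : y = y' := h3
  have k3 : z = z' := k3
  subst h3
  subst k3
  have h4 : ((y, L) : V × Lab D.X) ≠ (y, L') := h4
  have k4 : ((z, M) : V × Lab D.X) ≠ (z, M') := k4
  have h1 : (y, L) ∈ LbJ O J := h1
  have h2 : (y, L') ∈ LbJ O J := h2
  have k1 : (z, M) ∈ LbJ O J := k1
  have k2 : (z, M') ∈ LbJ O J := k2
  have e : h • ((y, L) : V × Lab D.X) = (z, M) := e
  have e1 : h • y = z := congrArg Prod.fst e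
  have e2 : h • L = M := congrArg Prod.snd e
  have l1 : (z, h • L') ∈ LbJ O J := by
    have := LbJ.inv js h _ h2
    have e3 : h • ((y, L') : V × Lab D.X) = (h • y, h • L') := rfl
    rw [e3, e1] at this
    exact this
  have n1 : M ≠ h • L' := by
    rw [← e2]
    intro e3
    exact h4 (Prod.ext rfl (smul_left_cancel h e3))
  have n2 : M ≠ M' := fun e3 => k4 (Prod.ext rfl e3)
  refine ⟨h, Prod.ext e (Prod.ext e1 ?_)⟩
  show h • L' = M'
  rcases LbJ.le2 r ht z M (h • L') M' k1 l1 k2 with q | q | q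
  · exact absurd q n1
  · exact q
  · exact absurd q n2

/-- THE OPENING BY LABELS -/
def LbJ.opR {js : JS (O.p45 P).pq D J} {hc : (SyQ.mk O.gx (O.p45 P) D J js).Conn}
    {tw : W → W → Prop} {Tp : W → Prop} {pt : W → W} {Z : W → Prop}
    (r : (SyQ.mk O.gx (O.p45 P) D J js).RK hc tw Tp pt Z) (ht : O.Tw) : OpR K (Lab D.X) where
  Lb := LbJ O J
  inv := LbJ.inv js
  sur := LbJ.sur
  r n y := J (O.e n y)
  r_smul := LbJ.r_smul js
  r_mem := LbJ.r_mem
  r_cor := LbJ.r_cor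
  d i j := J (O.lp i j)
  d_len := LbJ.d_len
  d_mem := LbJ.d_mem
  two := LbJ.two ht
  fin := LbJ.fin js
  fin2 := LbJ.fin2 r ht

end LbJ

end Pool.Agent.DI
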