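import Pool.Agent.DI.R0K

/-!
# DI/R0L: at most two places

`lin`: in a subtree `I` of a tree in which every vertex has at most two neighbours, seen from an end.
`RK.two_places`: three parts with the same two poles: two of them are at the same place.
-/

namespace Pool.Agent.DI

open MulAction
open Pool.Agent.SAF (InC orbs FinOrb oc Decomp SAn SA Conv exists_next)
open Pool.Agent.BT (PX PQ JS bey)

/-- a convex set with at most two neighbours everywhere is linear, seen from an end -/
theorem r0_lin {X : Type} {G : SimpleGraph X} (hG : G.IsTree) {I : Set X} (hI : Conv G I)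
    (h2 : ∀ c t1 t2 t3, c ∈ I → G.Adj c t1 → G.Adj c t2 → G.Adj c t3 → t1 ∈ I → t2 ∈ I →
      t3 ∈ I → t1 = t2 ∨ t1 = t3 ∨ t2 = t3)
    {p : X} (hp : p ∈ I) (hend : ∀ t t', G.Adj p t → G.Adj p t' → t ∈ I → t' ∈ I → t = t') :
    ∀ (n : ℕ) (q r : X), q ∈ I → r ∈ I → G.dist p q = n → n ≤ G.dist p r →
      G.dist p r = G.dist p q + G.dist q r := by
  have next : ∀ a ∈ I, ∀ b ∈ I, a ≠ b → ∃ t, G.Adj a t ∧ t ∈ I ∧ G.dist a b = G.dist t b + 1 := by
    intro a ha b hb hne
    obtain ⟨t, h1, h3⟩ := exists_next hG hne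
    refine ⟨t, h1, hI a ha b hb t ?_, h3⟩
    rw [SimpleGraph.dist_eq_one_iff_adj.2 h1, h3, add_comm]
  intro n
  induction n with
  | zero =>
    intro q r _ _ hn _
    have e := (hG.connected.dist_eq_zero_iff).1 hn
    rw [e, SimpleGraph.dist_self, zero_add]
  | succ n ih =>
    intro q r hq hr hn hle
    have hqp : q ≠ p := by
      rintro rfl
      rw [SimpleGraph.dist_self] at hn
      omega
    obtain ⟨s, h1, h3, h4⟩ := next q hq p hp hqp
    have h5 : G.dist p s = n := by
      rw [SimpleGraph.dist_comm (u := q), SimpleGraph.dist_comm (u := s)] at h4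
      omega
    have h6 := ih s r h3 hr h5 (by omega)
    have hsr : s ≠ r := by
      rintro rfl
      omega
    obtain ⟨t, k1, k2, k3⟩ := next s h3 r hr hsr
    have htq : q = t := by
      by_cases hsp : s = p
      · subst hsp
        exact hend q t h1.symm k1 hq k2
      · obtain ⟨s', l1, l2, l3⟩ := next s h3 p hp hsp
        rcases h2 s s' q t h3 l1 h1.symm k1 l2 hq k2 with e | e | e
        · exfalso
          rw [e] at l3
          omega
        · exfalso
          rw [e] at l3
          -- `t` is nearer to `p` and nearer to `r`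
          have tr : G.dist p r ≤ G.dist p t + G.dist t r := hG.connected.dist_triangle
          rw [SimpleGraph.dist_comm (u := s) (v := p), SimpleGraph.dist_comm (u := t) (v := p)] at l3
          omega
        · exact e
    rw [← htq] at k3
    rw [SimpleGraph.dist_comm (u := q) (v := p), SimpleGraph.dist_comm (u := s) (v := p)] at h4
    omega

namespace SyQ

variable {H V : Type} [Group H] [MulAction H V] {S : SyQ H V}

namespace RK

variable {hc : S.Conn} {tw : V → V → Prop} {Tp : V → Prop} {pt : V → V} {Z : V → Prop}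
  (r : S.RK hc tw Tp pt Z)
include r

/-- AT MOST TWO PLACES -/
theorem two_places {x y z a b : V} {p q s : S.X} (hab : a ≠ b) (hx : S.J x = {p})
    (hy : S.J y = {q}) (hz : S.J z = {s}) (xa : S.K.ar x a) (xb : S.K.ar x b)
    (ya : S.K.ar y a) (yb : S.K.ar y b) (za : S.K.ar z a) (zb : S.K.ar z b) :
    p = q ∨ p = s ∨ q = s := by
  by_contra hcon
  push Not at hcon
  obtain ⟨h1, h2, h3⟩ := hcon
  let I : Set S.X := S.J a ∩ S.J b
  have hI : Conv S.D.G I := fun u hu v hv c hc' =>
    ⟨S.js.conv a u hu.1 v hv.1 c hc', S.js.conv b u hu.2 v hv.2 c hc'⟩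
  have mem : ∀ {x : V} {p : S.X}, S.J x = {p} → S.K.ar x a → S.K.ar x b → p ∈ I :=
    fun hJ e1 e2 => ⟨mem_of_J hJ (Or.inl e1), mem_of_J hJ (Or.inl e2)⟩
  have hp := mem hx xa xb
  have hq := mem hy ya yb
  have hs := mem hz za zb
  have two : ∀ c t1 t2 t3, c ∈ I → S.D.G.Adj c t1 → S.D.G.Adj c t2 → S.D.G.Adj c t3 →
      t1 ∈ I → t2 ∈ I → t3 ∈ I → t1 = t2 ∨ t1 = t3 ∨ t2 = t3 := by
    intro c t1 t2 t3 hc' e1 e2 e3 k1 k2 k3
    by_contra hcon
    push Not at hcon
    rcases r0_two hc'.1 e1 e2 e3 hcon.2.2 k1.1 k2.1 k3.1 with e | e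
    · exact hcon.1 e
    · exact hcon.2.1 e
  have endp : ∀ {x : V} {p : S.X}, S.J x = {p} → S.K.ar x a → S.K.ar x b →
      ∀ t t', S.D.G.Adj p t → S.D.G.Adj p t' → t ∈ I → t' ∈ I → t = t' :=
    fun hJ e1 e2 t t' k1 k2 m1 m2 =>
      r.int (a := a) (b := b) ⟨hJ, k1, e1, e2, hab, m1.1, m1.2⟩ ⟨hJ, k2, e1, e2, hab, m2.1, m2.2⟩
  -- the middle one of `q`, `s`, seen from `p`
  have key : ∀ {y z : V} {q s : S.X}, S.J y = {q} → S.K.ar y a → S.K.ar y b → q ∈ I → s ∈ I →
      p ≠ q → q ≠ s → S.D.G.dist p q ≤ S.D.G.dist p s → False := by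
    intro y z q s hy ya yb hq hs hpq hqs hle
    have hl := r0_lin S.D.tree hI two hp (endp hx xa xb) _ q s hq hs rfl hle
    obtain ⟨t, k1, k2⟩ := exists_next S.D.tree hpq.symm
    obtain ⟨t', l1, l2⟩ := exists_next S.D.tree hqs
    have m1 : t ∈ I := hI q hq p hp t (by
      rw [SimpleGraph.dist_eq_one_iff_adj.2 k1, k2, add_comm])
    have m2 : t' ∈ I := hI q hq s hs t' (by
      rw [SimpleGraph.dist_eq_one_iff_adj.2 l1, l2, add_comm])
    have e := endp hy ya yb t t' k1 l1 m1 m2
    subst e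
    have tr : S.D.G.dist p s ≤ S.D.G.dist p t + S.D.G.dist t s :=
      S.D.tree.connected.dist_triangle
    rw [SimpleGraph.dist_comm (u := q) (v := p), SimpleGraph.dist_comm (u := t) (v := p)] at k2
    omega
  rcases le_total (S.D.G.dist p q) (S.D.G.dist p s) with hle | hle
  · exact key (z := z) hy ya yb hq hs h1 h3 hle
  · exact key (z := y) hz za zb hs hq h2 h3.symm hle

end RK

end SyQ

end Pool.Agent.DI
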