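import Pool.Agent.DI.DscP
import Pool.Agent.DI.R0L
import Pool.Agent.DI.OpnS

/-!
# DI/DscL: the places of the parts of a vertex

`S` a system over the split complex `O.gx`, `r : S.RK ..` (R0). `RK.le2`: the parts of one vertex have at
most two different subtrees. `RK.top_one`: all parts of a top of `K` have the same subtree.
`RK.pts`: two parts with different subtrees sit at two points, the two ends of the intersection of the
poles.
-/

namespace Pool.Agent.DI

open MulAction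
open Pool.Agent.SAF (InC SA orbs FinOrb oc Decomp SAn Conv FinOrb_iff exists_next)
open Pool.Agent.BT (PX PQ JS bey exits Ell mst)
open Pool.Agent.BT.TA

namespace SyQ

variable {H V W : Type} [Group H] [MulAction H V] [MulAction H W] {K : GX H V} {P : P45 K}
  {O : OpW K W} {D : Decomp H} {J : W → Set D.X} {js : JS (O.p45 P).pq D J}
  {hc : (SyQ.mk O.gx (O.p45 P) D J js).Conn} {tw : W → W → Prop} {Tp : W → Prop} {pt : W → W}
  {Z : W → Prop}

/-- the parts of a vertex have the same poles -/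
theorem part_pole {x x' a : W} (e : O.π x = O.π x') : O.gx.ar x a ↔ O.gx.ar x' a :=
  ⟨fun h => O.ar_congr h e, fun h => O.ar_congr h e.symm⟩

/-- TWO PARTS WITH DIFFERENT SUBTREES -/
theorem part_pts (js : JS (O.p45 P).pq D J) {x x' : W} (e : O.π x = O.π x')
    (hx : ∃ a, O.gx.ar x a) (hne : J x ≠ J x') :
    ∃ p p', J x = {p} ∧ J x' = {p'} ∧ p ≠ p' := by
  have hp : ∀ a, (O.p45 P).pq.ar x a ↔ (O.p45 P).pq.ar x' a := fun a => part_pole e
  rcases js_pt_or_cross js x with ⟨p, h1⟩ | ⟨w, w', k, h1, h2⟩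
  · rcases js_pt_or_cross js x' with ⟨p', h1'⟩ | ⟨w, w', k, h1', h2'⟩
    · refine ⟨p, p', h1, h1', ?_⟩
      rintro rfl
      exact hne (h1.trans h1'.symm)
    · exfalso
      obtain ⟨a, ha⟩ := hx
      exact hne (js_eq_of_cross js ⟨a, (hp a).1 ha⟩ (fun a => (hp a).symm) k h1' h2').symm
  · exact absurd (js_eq_of_cross js hx hp k h1 h2) hne

/-- the poles of opened vertices -/
theorem part_poles (ht : O.Tw) {x x' : W} (e : O.π x = O.π x') (hne : x ≠ x') :
    ∃ a b, a ≠ b ∧ O.gx.ar x a ∧ O.gx.ar x b := by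
  obtain ⟨a, b, hab, ha, hb⟩ := ht x x' e hne
  refine ⟨O.e (O.π x) a, O.e (O.π x) b, ?_, O.ar_e x ha, O.ar_e x hb⟩
  intro k
  apply hab
  rw [← O.π_e _ _ ha, ← O.π_e _ _ hb, k]

namespace RK

variable (r : (SyQ.mk O.gx (O.p45 P) D J js).RK hc tw Tp pt Z)
include r

/-- the place of a part is an end of the intersection of the poles -/
theorem fin_end {x a b : W} {p : D.X} (xa : O.gx.ar x a) (xb : O.gx.ar x b) (hab : a ≠ b)
    (hx : J x = {p}) (s : D.X) (hs : s ∈ J a ∩ J b) (t : D.X) (ht : t ∈ J a ∩ J b)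
    (h1 : D.G.Adj p s) (h2 : D.G.Adj p t) : s = t :=
  r.int (x := x) (a := a) (b := b) (p := p) (t := s) (t' := t)
    ⟨hx, h1, xa, xb, hab, hs.1, hs.2⟩ ⟨hx, h2, xa, xb, hab, ht.1, ht.2⟩

/-- AT MOST TWO SUBTREES -/
theorem le2 (ht : O.Tw) {x y z : W} (h1 : O.π x = O.π y) (h2 : O.π y = O.π z) :
    J x = J y ∨ J y = J z ∨ J x = J z := by
  by_contra hcon
  push Not at hcon
  obtain ⟨k1, k2, k3⟩ := hcon
  have hxy : x ≠ y := fun e => k1 (by rw [e])
  obtain ⟨a, b, hab, xa, xb⟩ := part_poles ht h1 hxy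
  have ya := (part_pole h1).1 xa
  have yb := (part_pole h1).1 xb
  have za := (part_pole h2).1 ya
  have zb := (part_pole h2).1 yb
  obtain ⟨p, q, hp, hq, hpq⟩ := part_pts js h1 ⟨a, xa⟩ k1
  obtain ⟨q', s, hq', hs, hqs⟩ := part_pts js h2 ⟨a, ya⟩ k2
  rcases r.two_places (x := x) (y := y) (z := z) (a := a) (b := b) (p := p) (q := q) (s := s)
    hab hp hq hs xa xb ya yb za zb with e | e | e
  · exact hpq e
  · exact k3 (by rw [hp, hs, e])
  · exact k2 (by rw [hq, hs, e])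

/-- THE PARTS OF A TOP HAVE ONE PLACE -/
theorem top_one (hT : P.SqT) {T a b y : V} (h : P.Top T a b y) {x x' : W} (hx : O.π x = T)
    (hx' : O.π x' = T) : J x = J x' := by
  by_contra hne
  obtain ⟨a', T', b', y', ea, eT, eb, ey, hq⟩ := O.Q4_lift P h.1
  have Ta : O.gx.ar T' a' := O.ar_of_E hq.E1.symm (by rw [eT, ea]; exact h.2.1)
  have Tb : O.gx.ar T' b' := O.ar_of_E hq.E2 (by rw [eT, eb]; exact h.2.2)
  have hab : a' ≠ b' := by
    intro e
    apply hT.nab _ _ _ _ h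
    rw [← ea, ← eb, e]
  have xa : O.gx.ar x a' := (part_pole (eT.trans hx.symm)).1 Ta
  have xb : O.gx.ar x b' := (part_pole (eT.trans hx.symm)).1 Tb
  have xa' : O.gx.ar x' a' := (part_pole (eT.trans hx'.symm)).1 Ta
  have xb' : O.gx.ar x' b' := (part_pole (eT.trans hx'.symm)).1 Tb
  obtain ⟨p, p', hp, hp', hpp⟩ := part_pts js (hx.trans hx'.symm) ⟨a', xa⟩ hne
  have pI : p ∈ J a' ∩ J b' := ⟨js_pt_pole js hp xa, js_pt_pole js hp xb⟩
  have pI' : p' ∈ J a' ∩ J b' := ⟨js_pt_pole js hp' xa', js_pt_pole js hp' xb'⟩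
  have hI : Conv D.G (J a' ∩ J b') := by
    intro c hc' d hd z hz
    exact ⟨js.conv a' c hc'.1 d hd.1 z hz, js.conv b' c hc'.2 d hd.2 z hz⟩
  -- neighbours of `p` and `p'` in `I`
  have nb : ∀ {c d : D.X}, c ∈ J a' ∩ J b' → d ∈ J a' ∩ J b' → c ≠ d →
      ∃ t ∈ J a' ∩ J b', D.G.Adj c t := by
    intro c d hc' hd hcd
    obtain ⟨t, h1, h2⟩ := exists_next D.tree hcd
    exact ⟨t, hI c hc' d hd t (by
      rw [SimpleGraph.dist_eq_one_iff_adj.2 h1]
      omega), h1⟩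
  obtain ⟨t, tI, pt1⟩ := nb pI pI' hpp
  obtain ⟨t', tI', pt2⟩ := nb pI' pI hpp.symm
  -- the common point with the partner
  obtain ⟨q, qa, qb, qy⟩ : ∃ q, q ∈ J a' ∧ q ∈ J b' ∧ q ∈ J y' := by
    obtain ⟨r1, hr1⟩ := js.one b' y' hq.E3
    obtain ⟨r2, hr2⟩ := js.one y' a' hq.E4
    have m1 : r1 ∈ J b' ∩ J y' := by
      rw [hr1]
      rfl
    have m2 : r2 ∈ J y' ∩ J a' := by
      rw [hr2]
      rfl
    obtain ⟨q, h1, h3⟩ := helly3 D.tree (js.conv a') (js.conv b') (js.conv y') ⟨p, pI⟩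
      ⟨r2, m2.2, m2.1⟩ ⟨r1, m1⟩
    exact ⟨q, h1.1, h1.2, h3⟩
  -- `q` is an end of `I`
  have qe : ∀ s ∈ J a' ∩ J b', ∀ s' ∈ J a' ∩ J b', D.G.Adj q s → D.G.Adj q s' → s = s' := by
    have key : ∀ {c : W}, q ∈ J c → O.gx.ar c y' → ∀ s s', s ∈ J c → s' ∈ J c →
        D.G.Adj q s → D.G.Adj q s' → s = s' := by
      intro c qc cy s s' hs hs' k1 k2
      rcases js.two c q qc (Sum.inl y') (Or.inl ⟨y', rfl, cy, qy⟩) (Sum.inr s)
        (Or.inr ⟨s, rfl, k1, hs⟩) (Sum.inr s') (Or.inr ⟨s', rfl, k2, hs'⟩) with e | e | e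
      · cases e
      · cases e
      · exact Sum.inr.inj e
    intro s hs s' hs' k1 k2
    rcases (hT.side _ _ _ _ h).resolve_left id with k | k
    · exact key qa (O.ar_of_E hq.E4.symm (by rw [ea, ey]; exact k)) s s' hs.1 hs'.1 k1 k2
    · exact key qb (O.ar_of_E hq.E3 (by rw [eb, ey]; exact k)) s s' hs.2 hs'.2 k1 k2
  -- no part of the top is at `q`
  have no : ∀ {z : W} {c s : D.X}, O.gx.ar z a' → O.gx.ar z b' → J z = {c} → c ∈ J y' →
      s ∈ J a' ∩ J b' → D.G.Adj c s → False := by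
    intro z c s za zb hz hcy hs hcs
    have o1 : (SyQ.mk O.gx (O.p45 P) D J js).Ovl z a' b' c s :=
      ⟨hz, hcs, za, zb, hab, hs.1, hs.2⟩
    have e1 := hq.E4.symm
    have e2 := hq.E3
    rcases (hT.side _ _ _ _ h).resolve_left id with k | k
    · have k1 : O.gx.ar a' y' := O.ar_of_E e1 (by rw [ea, ey]; exact k)
      rcases e2 with k2 | k2
      · exact r.fin o1 hcy k1 k2
      · exact r.gam o1 hcy k1 k2
    · have k1 : O.gx.ar b' y' := O.ar_of_E e2 (by rw [eb, ey]; exact k)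
      rcases e1 with k2 | k2
      · exact r.fin o1 hcy k2 k1
      · exact r.gam o1.symm hcy k1 k2
  have hpq : p ≠ q := by
    rintro rfl
    exact no xa xb hp qy tI pt1
  have hpq' : p' ≠ q := by
    rintro rfl
    exact no xa' xb' hp' qy tI' pt2
  rcases js_three_ends js (a := a') (b := b') pI ⟨qa, qb⟩ pI' (r.fin_end xa xb hab hp) qe
    (r.fin_end xa' xb' hab hp') with e | e | e
  · exact hpq e
  · exact hpq' e.symm
  · exact hpp e

end RK

end SyQ

end Pool.Agent.DI
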