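import Pool.Agent.DI.OpnR
import Pool.Agent.DI.OvP

/-!
# DI/OpnSp: the total split

`K : GX H V`, `P : P45 K`, `Z` an invariant set of vertices with two different poles and finite
stabiliser. `O : SpD P Z` collects this together with: a vertex of `Z` which is a direct corner of a listed
square has an in-arrow or a direct corner of a pentagon. The labels over `y ∈ Z` are the pieces of `y`
and the direct corners of the pentagons at `y`; over the other vertices there is one label. `O.sp : OpR K`;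
direct corners of squares get an existing label.
-/

namespace Pool.Agent.DI

open MulAction
open Pool.Agent.SAF (InC orbs FinOrb oc FinOrb_iff)

/-- labels: none, a piece, a direct corner -/
inductive Lbl (V L : Type) : Type
  | no : Lbl V L
  | pc : Set V → Lbl V L
  | dir : L → Lbl V L

instance {H V L : Type} [Group H] [MulAction H V] [MulAction H L] : MulAction H (Lbl V L) where
  smul h t := match t with
    | Lbl.no => Lbl.no
    | Lbl.pc C => Lbl.pc ((fun x => h • x) '' C)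
    | Lbl.dir f => Lbl.dir (h • f)
  one_smul t := by
    rcases t with _ | C | f
    · rfl
    · show Lbl.pc ((fun x => (1 : H) • x) '' C) = Lbl.pc C
      simp
    · show Lbl.dir ((1 : H) • f) = Lbl.dir f
      rw [one_smul]
  mul_smul a b t := by
    rcases t with _ | C | f
    · rfl
    · show Lbl.pc ((fun x => (a * b) • x) '' C) = Lbl.pc ((fun x => a • x) '' ((fun x => b • x) '' C))
      rw [Set.image_image]
      simp only [mul_smul]
    · show Lbl.dir ((a * b) • f) = Lbl.dir (a • b • f)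
      rw [mul_smul]

theorem Lbl.smul_no {H V L : Type} [Group H] [MulAction H V] [MulAction H L] (h : H) :
    h • (Lbl.no : Lbl V L) = Lbl.no := rfl

theorem Lbl.smul_pc {H V L : Type} [Group H] [MulAction H V] [MulAction H L] (h : H) (C : Set V) :
    h • (Lbl.pc C : Lbl V L) = Lbl.pc ((fun x => h • x) '' C) := rfl

theorem Lbl.smul_dir {H V L : Type} [Group H] [MulAction H V] [MulAction H L] (h : H) (f : L) :
    h • (Lbl.dir f : Lbl V L) = Lbl.dir (h • f) := rfl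

/-- pairs over points with finite stabilisers -/
theorem finOrb_pair {H V Y : Type} [Group H] [MulAction H V] [MulAction H Y] {A : Set Y}
    (hA : FinOrb H A) (π : Y → V) (hπ : ∀ (h : H) y, π (h • y) = h • π y)
    (hinv : ∀ (h : H), ∀ y ∈ A, h • y ∈ A) (hf : ∀ y ∈ A, Finite ↥(stabilizer H (π y))) :
    FinOrb H {p : Y × Y | p.1 ∈ A ∧ p.2 ∈ A ∧ π p.1 = π p.2} := by
  obtain ⟨F, hF, hs, hc⟩ := FinOrb_iff.1 hA
  -- the fibre over the image of a representative is finite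
  have fib : ∀ a ∈ F, {b | b ∈ A ∧ π b = π a}.Finite := by
    intro a ha
    have ha' := hs ha
    have : {b | b ∈ A ∧ π b = π a} ⊆ ⋃ c ∈ F, {b | ∃ h : H, b = h • c ∧ h • π c = π a} := by
      rintro b ⟨hb, e⟩
      obtain ⟨c, hcF, h, e'⟩ := hc b hb
      refine Set.mem_biUnion hcF ⟨h, e'.symm, ?_⟩
      rw [← hπ, e', e]
    refine (Set.Finite.biUnion hF fun c hcF => ?_).subset this
    by_cases hex : ∃ h0 : H, h0 • π c = π a
    · obtain ⟨h0, hh0⟩ := hex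
      have := hf a ha'
      have sb : {b | ∃ h : H, b = h • c ∧ h • π c = π a} ⊆
          Set.range (fun s : ↥(stabilizer H (π a)) => s.1 • h0 • c) := by
        rintro b ⟨h, rfl, e⟩
        refine ⟨⟨h * h0⁻¹, ?_⟩, ?_⟩
        · rw [mem_stabilizer_iff, mul_smul, ← hh0, inv_smul_smul, hh0]
          exact e
        · show (h * h0⁻¹) • h0 • c = h • c
          rw [mul_smul, inv_smul_smul]
      exact (Set.finite_range _).subset sb
    · refine Set.finite_empty.subset ?_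
      rintro b ⟨h, -, e⟩
      exact hex ⟨h, e⟩
  refine FinOrb_iff.2 ⟨⋃ a ∈ F, (fun b => (a, b)) '' {b | b ∈ A ∧ π b = π a},
    Set.Finite.biUnion hF fun a ha => (fib a ha).image _, ?_, ?_⟩
  · intro p hp
    simp only [Set.mem_iUnion] at hp
    obtain ⟨a, ha, b, ⟨hb, e⟩, rfl⟩ := hp
    exact ⟨hs ha, hb, e.symm⟩
  · rintro ⟨x, y⟩ ⟨hx, hy, e⟩
    obtain ⟨a, ha, h, rfl⟩ := hc x hx
    refine ⟨(a, h⁻¹ • y), ?_, h, ?_⟩
    · refine Set.mem_biUnion ha ⟨h⁻¹ • y, ⟨?_, ?_⟩, rfl⟩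
      · exact hinv _ _ hy
      · have e : π (h • a) = π y := e
        rw [hπ, ← e, hπ, inv_smul_smul]
    · show (h • a, h • h⁻¹ • y) = (h • a, y)
      rw [smul_inv_smul]

/-- direct corners of pentagons at `y` -/
def P45.DP {H V : Type} [Group H] [MulAction H V] {K : GX H V} (P : P45 K) (y : V) : Set K.LE :=
  {f | ¬ P.sq f.1.1 ∧ K.c1 f = y ∧ K.ar y (K.c0 f) ∧ K.ar y (K.c2 f)}

theorem P45.DP_smul {H V : Type} [Group H] [MulAction H V] {K : GX H V} {P : P45 K} (h : H) {y : V}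
    {f : K.LE} (hf : f ∈ P.DP y) : h • f ∈ P.DP (h • y) := by
  obtain ⟨h1, h2, h3, h4⟩ := hf
  refine ⟨h1, ?_, ?_, ?_⟩
  · rw [K.c1_smul, h2]
  · rw [K.c0_smul]
    exact K.ar_smul h _ _ h3
  · rw [K.c2_smul]
    exact K.ar_smul h _ _ h4

/-- the data of the total split -/
structure SpD {H V : Type} [Group H] [MulAction H V] {K : GX H V} (P : P45 K) (Z : Set V) : Prop where
  inv : ∀ (h : H), ∀ y ∈ Z, h • y ∈ Z
  two : ∀ y ∈ Z, ∃ a b, a ≠ b ∧ K.ar y a ∧ K.ar y b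
  fin : ∀ y ∈ Z, Finite ↥(stabilizer H y)
  tp : ∀ T a b y, P.Top T a b y → T ∈ Z → (∃ n, K.ar n T) ∨ ∃ f, f ∈ P.DP T

namespace SpD

variable {H V : Type} [Group H] [MulAction H V] {K : GX H V} {P : P45 K} {Z : Set V} (O : SpD P Z)

/-- the labels over the vertices -/
def Lb (P : P45 K) (Z : Set V) : Set (V × Lbl V K.LE) :=
  {p | (p.2 = Lbl.no ∧ (p.1 ∈ Z → (∀ n, ¬ K.ar n p.1) ∧ ∀ f, f ∉ P.DP p.1)) ∨
    (p.1 ∈ Z ∧ ∃ n, K.ar n p.1 ∧ p.2 = Lbl.pc (K.Pc p.1 n)) ∨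
    (p.1 ∈ Z ∧ ∃ f ∈ P.DP p.1, p.2 = Lbl.dir f)}

theorem Lb_pc {y n : V} (hy : y ∈ Z) (h : K.ar n y) : (y, Lbl.pc (K.Pc y n)) ∈ Lb P Z :=
  Or.inr (Or.inl ⟨hy, n, h, rfl⟩)

theorem Lb_dir {y : V} {f : K.LE} (hy : y ∈ Z) (h : f ∈ P.DP y) : (y, Lbl.dir f) ∈ Lb P Z :=
  Or.inr (Or.inr ⟨hy, f, h, rfl⟩)

theorem Lb_no {y : V} (hy : y ∉ Z) : (y, Lbl.no) ∈ Lb P Z := Or.inl ⟨rfl, fun k => absurd k hy⟩

theorem Lb_nZ {y : V} {x : Lbl V K.LE} (h : (y, x) ∈ Lb P Z) (hy : y ∉ Z) : x = Lbl.no := by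
  rcases h with ⟨h, -⟩ | ⟨h, -⟩ | ⟨h, -⟩
  · exact h
  · exact absurd h hy
  · exact absurd h hy

theorem sur (y : V) : ∃ x, (y, x) ∈ Lb P Z := by
  by_cases hy : y ∈ Z
  · by_cases h1 : ∃ n, K.ar n y
    · obtain ⟨n, hn⟩ := h1
      exact ⟨_, Lb_pc hy hn⟩
    · by_cases h2 : ∃ f, f ∈ P.DP y
      · obtain ⟨f, hf⟩ := h2
        exact ⟨_, Lb_dir hy hf⟩
      · exact ⟨Lbl.no, Or.inl ⟨rfl, fun _ => ⟨fun n hn => h1 ⟨n, hn⟩, fun f hf => h2 ⟨f, hf⟩⟩⟩⟩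
  · exact ⟨_, Lb_no hy⟩

include O in
theorem inv' (h : H) (p : V × Lbl V K.LE) (hp : p ∈ Lb P Z) : h • p ∈ Lb P Z := by
  obtain ⟨y, x⟩ := p
  have hz : h • y ∈ Z → y ∈ Z := fun k => by
    have := O.inv h⁻¹ _ k
    rwa [inv_smul_smul] at this
  rcases hp with ⟨rfl, h2⟩ | ⟨hy, n, hn, e⟩ | ⟨hy, f, hf, e⟩
  · refine Or.inl ⟨rfl, fun k => ?_⟩
    obtain ⟨k1, k2⟩ := h2 (hz k)
    refine ⟨fun n hn => k1 (h⁻¹ • n) ?_, fun f hf => k2 (h⁻¹ • f) ?_⟩
    · have := K.ar_smul h⁻¹ _ _ hn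
      rwa [Prod.smul_fst, inv_smul_smul] at this
    · have := P45.DP_smul h⁻¹ hf
      rwa [Prod.smul_fst, inv_smul_smul] at this
  · refine Or.inr (Or.inl ⟨O.inv h _ hy, h • n, K.ar_smul h _ _ hn, ?_⟩)
    have e : x = Lbl.pc (K.Pc y n) := e
    show h • x = Lbl.pc (K.Pc (h • y) (h • n))
    rw [e, ← GX.Pc_smul]
    rfl
  · refine Or.inr (Or.inr ⟨O.inv h _ hy, h • f, P45.DP_smul h hf, ?_⟩)
    have e : x = Lbl.dir f := e
    show h • x = Lbl.dir (h • f)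
    rw [e]
    rfl

theorem finLb : FinOrb H (Lb P Z) := by
  have h1 : FinOrb H {p : V × Lbl V K.LE | p.2 = Lbl.no} := by
    refine SAF.FinOrb.image K.fin (fun y : V => (y, (Lbl.no : Lbl V K.LE))) ?_ ?_
    · rintro ⟨y, x⟩ (h : x = Lbl.no)
      refine ⟨y, trivial, 1, ?_⟩
      rw [one_smul, h]
    · rintro a - _ - ⟨h, rfl⟩
      exact ⟨h, rfl⟩
  have h2 : FinOrb H {p : V × Lbl V K.LE | ∃ n, K.ar n p.1 ∧ p.2 = Lbl.pc (K.Pc p.1 n)} := by
    refine SAF.FinOrb.image K.fin_IN (fun q : V × V => (q.1, (Lbl.pc (K.Pc q.1 q.2) : Lbl V K.LE)))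
      ?_ ?_
    · rintro ⟨y, x⟩ ⟨n, hn, h⟩
      have h : x = Lbl.pc (K.Pc y n) := h
      refine ⟨(y, n), hn, 1, ?_⟩
      rw [one_smul, h]
    · rintro ⟨y, n⟩ - _ - ⟨h, rfl⟩
      refine ⟨h, ?_⟩
      show (h • y, h • (Lbl.pc (K.Pc y n) : Lbl V K.LE)) = (h • y, Lbl.pc (K.Pc (h • y) (h • n)))
      rw [Lbl.smul_pc, GX.Pc_smul]
  have h3 : FinOrb H {p : V × Lbl V K.LE | ∃ f, K.c1 f = p.1 ∧ p.2 = Lbl.dir f} := by
    refine SAF.FinOrb.image K.fin_LE (fun f : K.LE => (K.c1 f, (Lbl.dir f : Lbl V K.LE))) ?_ ?_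
    · rintro ⟨y, x⟩ ⟨f, hf, h⟩
      have h : x = Lbl.dir f := h
      have hf : K.c1 f = y := hf
      refine ⟨f, trivial, 1, ?_⟩
      rw [one_smul, hf, h]
    · rintro f - _ - ⟨h, rfl⟩
      refine ⟨h, ?_⟩
      show (h • K.c1 f, h • (Lbl.dir f : Lbl V K.LE)) = (K.c1 (h • f), Lbl.dir (h • f))
      rw [Lbl.smul_dir, K.c1_smul]
  have un : ∀ (A B : Set (V × Lbl V K.LE)), FinOrb H A → FinOrb H B → FinOrb H (A ∪ B) := by
    intro A B hA hB
    have e : orbs H (A ∪ B) = orbs H A ∪ orbs H B := Set.image_union _ _ _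
    unfold FinOrb
    rw [e]
    exact Set.Finite.union hA hB
  refine (un _ _ h1 (un _ _ h2 h3)).mono ?_
  rintro p (⟨h, -⟩ | ⟨-, n, hn, h⟩ | ⟨-, f, hf, h⟩)
  · exact Or.inl h
  · exact Or.inr (Or.inl ⟨n, hn, h⟩)
  · exact Or.inr (Or.inr ⟨f, hf.2.1, h⟩)

open Classical in
/-- the label of an in-arrow -/
noncomputable def r (K : GX H V) (Z : Set V) (n y : V) : Lbl V K.LE :=
  if y ∈ Z then Lbl.pc (K.Pc y n) else Lbl.no

theorem r_Z {n y : V} (h : y ∈ Z) : r K Z n y = Lbl.pc (K.Pc y n) := if_pos h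

theorem r_nZ {n y : V} (h : y ∉ Z) : r K Z n y = Lbl.no := if_neg h

/-- the label of the cell `i` at its corner `j`: the flag, at a direct corner of a pentagon -/
def Dj (P : P45 K) (Z : Set V) (i : K.I) (j : ℕ) (f : K.LE) : Prop :=
  ¬ P.sq i ∧ K.vx i j ∈ Z ∧ f.1.1 = i ∧ f.2 = 1 ∧ (f.1.2 : ℕ) = (j + K.len i - 1) % K.len i ∧
    f ∈ P.DP (K.vx i j)

theorem ex_d (i : K.I) (j : ℕ) : ∃ x, (K.vx i j, x) ∈ Lb P Z ∧ ∀ f, Dj P Z i j f → x = Lbl.dir f := by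
  by_cases h : ∃ f, Dj P Z i j f
  · obtain ⟨f, hf⟩ := h
    refine ⟨Lbl.dir f, Lb_dir hf.2.1 hf.2.2.2.2.2, fun f' hf' => ?_⟩
    congr 1
    obtain ⟨-, -, a1, a2, a3, -⟩ := hf
    obtain ⟨-, -, b1, b2, b3, -⟩ := hf'
    obtain ⟨⟨i1, j1⟩, g1⟩ := f
    obtain ⟨⟨i2, j2⟩, g2⟩ := f'
    simp only at a1 a2 a3 b1 b2 b3
    subst a1
    subst b1
    have e : j1 = j2 := Fin.ext (a3.trans b3.symm)
    rw [e, a2, b2]
  · obtain ⟨x, hx⟩ := sur (P := P) (Z := Z) (K.vx i j)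
    exact ⟨x, hx, fun f hf => absurd ⟨f, hf⟩ h⟩

/-- the chosen label -/
noncomputable def d (P : P45 K) (Z : Set V) (i : K.I) (j : ℕ) : Lbl V K.LE :=
  Classical.choose (ex_d (P := P) (Z := Z) i (j % K.len i))

theorem d_mem (i : K.I) (j : ℕ) : (K.vx i j, d P Z i j) ∈ Lb P Z := by
  have h : (K.vx i (j % K.len i), d P Z i j) ∈ Lb P Z :=
    (Classical.choose_spec (ex_d (P := P) (Z := Z) i (j % K.len i))).1
  rw [K.vx_mod] at h
  exact h

theorem d_len (i : K.I) (j : ℕ) : d P Z i (j + K.len i) = d P Z i j := by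
  unfold d
  simp only [Nat.add_mod_right]

/-- the label at a direct corner of a pentagon is its flag -/
theorem d_dir {i : K.I} {j : ℕ} (hi : ¬ P.sq i) (hl : 0 < K.len i) (hz : K.vx i j ∈ Z)
    (h1 : K.ar (K.vx i j) (K.vx i (j + K.len i - 1))) (h2 : K.ar (K.vx i j) (K.vx i (j + 1))) :
    d P Z i j = Lbl.dir ((⟨i, ⟨(j + K.len i - 1) % K.len i, Nat.mod_lt _ hl⟩⟩, 1) : K.LE) := by
  have h := (Classical.choose_spec (ex_d (P := P) (Z := Z) i (j % K.len i))).2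
  refine h _ ⟨hi, ?_, rfl, rfl, ?_, hi, ?_, ?_, ?_⟩
  · rw [K.vx_mod]
    exact hz
  · show (j + K.len i - 1) % K.len i = (j % K.len i + K.len i - 1) % K.len i
    rw [Nat.add_sub_assoc hl, Nat.add_sub_assoc hl, Nat.mod_add_mod]
  · show (1 : H) • K.vx i ((j + K.len i - 1) % K.len i + 1) = K.vx i (j % K.len i)
    rw [one_smul, K.vx_mod, K.vx_add_mod, show j + K.len i - 1 + 1 = j + K.len i by omega,
      K.vx_add_len]
  · show K.ar (K.vx i (j % K.len i)) ((1 : H) • K.vx i ((j + K.len i - 1) % K.len i))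
    rw [one_smul, K.vx_mod, K.vx_mod]
    exact h1
  · show K.ar (K.vx i (j % K.len i)) ((1 : H) • K.vx i ((j + K.len i - 1) % K.len i + 2))
    rw [one_smul, K.vx_mod, K.vx_add_mod, show j + K.len i - 1 + 2 = j + 1 + K.len i by omega,
      K.vx_add_len]
    exact h2

/-- THE TOTAL SPLIT -/
noncomputable def sp : OpR K (Lbl V K.LE) where
  Lb := Lb P Z
  inv := O.inv'
  sur := sur
  r := r K Z
  r_smul h n y _ := by
    by_cases hy : y ∈ Z
    · rw [r_Z hy, r_Z (O.inv h _ hy), Lbl.smul_pc, GX.Pc_smul]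
    · have hy' : h • y ∉ Z := fun k => hy (by
        have := O.inv h⁻¹ _ k
        rwa [inv_smul_smul] at this)
      rw [r_nZ hy, r_nZ hy']
      rfl
  r_mem n y h := by
    by_cases hy : y ∈ Z
    · rw [r_Z hy]
      exact Lb_pc hy h
    · rw [r_nZ hy]
      exact Lb_no hy
  r_cor n y n' hc h h' := by
    by_cases hy : y ∈ Z
    · rw [r_Z hy, r_Z hy, GX.Pc_eq.2 (Relation.EqvGen.rel _ _ ⟨hc, h, h'⟩)]
    · rw [r_nZ hy, r_nZ hy]
  d := d P Z
  d_len := d_len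
  d_mem := d_mem
  two y x x' h h' hne := by
    by_cases hy : y ∈ Z
    · exact O.two y hy
    · exact absurd ((Lb_nZ h hy).trans (Lb_nZ h' hy).symm) hne
  fin := finLb
  fin2 := by
    have hA : FinOrb H (Lb P Z ∩ {p | p.1 ∈ Z}) := (finLb (P := P) (Z := Z)).mono
      Set.inter_subset_left
    refine (finOrb_pair hA (fun p => p.1) (fun _ _ => rfl) ?_ ?_).mono ?_
    · rintro h p ⟨h1, h2⟩
      exact ⟨O.inv' h p h1, O.inv h _ h2⟩
    · rintro p ⟨-, h2⟩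
      exact O.fin _ h2
    · rintro ⟨⟨y, x⟩, ⟨y', x'⟩⟩ ⟨h1, h2, h3, h4⟩
      have h3 : y = y' := h3
      subst h3
      have hy : y ∈ Z := by
        by_contra hy
        apply h4
        rw [Lb_nZ h1 hy, Lb_nZ h2 hy]
      exact ⟨⟨h1, hy⟩, ⟨h2, hy⟩, rfl⟩

/-- a vertex of the split complex over `Z` with no in-arrow and no direct pentagon corner lies over a
vertex of this kind -/
theorem cases (x : O.sp.W) : (x.1.2 = Lbl.no ∧ (O.sp.π x ∈ Z → (∀ n, ¬ K.ar n (O.sp.π x)) ∧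
      ∀ f, f ∉ P.DP (O.sp.π x))) ∨
    (O.sp.π x ∈ Z ∧ ∃ n, K.ar n (O.sp.π x) ∧ x.1.2 = Lbl.pc (K.Pc (O.sp.π x) n)) ∨
    (O.sp.π x ∈ Z ∧ ∃ f ∈ P.DP (O.sp.π x), x.1.2 = Lbl.dir f) := x.2

end SpD

end Pool.Agent.DI
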