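import Pool.Agent.DI.DscK
import Pool.Agent.DI.OpnSp

/-!
# DI/DscM: maps of openings and descent

`m : OpMap O O1`: an equivariant map between two openings of the same complex, which respects the labels
of the in-arrows and the lifts of the cells. `m.dsc`: the descent data (`Dsc`) for a system over `O.gx`.
-/

namespace Pool.Agent.DI

open MulAction
open Pool.Agent.SAF (InC SA orbs FinOrb oc Decomp SAn Conv FinOrb_iff exists_next)
open Pool.Agent.BT (PX PQ JS bey exits Ell mst)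
open Pool.Agent.BT.TA

/-- a map of openings -/
structure OpMap {H V W W1 : Type} [Group H] [MulAction H V] [MulAction H W] [MulAction H W1]
    {K : GX H V} (O : OpW K W) (O1 : OpW K W1) where
  f : W → W1
  f_smul : ∀ (h : H) x, f (h • x) = h • f x
  f_π : ∀ x, O1.π (f x) = O.π x
  f_e : ∀ n y, K.ar n y → f (O.e n y) = O1.e n y
  f_lp : ∀ i j, f (O.lp i j) = O1.lp i j

namespace OpMap

variable {H V W W1 : Type} [Group H] [MulAction H V] [MulAction H W] [MulAction H W1]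
  {K : GX H V} {O : OpW K W} {O1 : OpW K W1} (m : OpMap O O1) (P : P45 K)

theorem ar {x a : W} (h : O.gx.ar x a) : O1.gx.ar (m.f x) (m.f a) := by
  refine ⟨?_, ?_⟩
  · rw [m.f_π, m.f_π]
    exact O.ar_π h
  · rw [m.f_π, m.f_π, ← m.f_e _ _ (O.ar_π h), O.ar_e' h]

theorem ar_lift {x : W} {a1 : W1} (h : O1.gx.ar (m.f x) a1) : ∃ a, O.gx.ar x a ∧ m.f a = a1 := by
  have h1 := O1.ar_π h
  rw [m.f_π] at h1
  refine ⟨O.e (O.π x) (O1.π a1), O.ar_e x h1, ?_⟩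
  rw [m.f_e _ _ h1]
  have := O1.ar_e' h
  rwa [m.f_π] at this

theorem ar_inj {x a b : W} (ha : O.gx.ar x a) (hb : O.gx.ar x b) (e : m.f a = m.f b) : a = b := by
  have e1 : O.π a = O.π b := by rw [← m.f_π, ← m.f_π, e]
  rw [← O.ar_e' ha, ← O.ar_e' hb, e1]

theorem pole {x1 a1 : W1} (h : O1.gx.ar x1 a1) : ∃ a, m.f a = a1 := by
  refine ⟨O.e (O1.π x1) (O1.π a1), ?_⟩
  rw [m.f_e _ _ (O1.ar_π h)]
  exact O1.ar_e' h

theorem pent {a q b y z : W} (h : Qn (O.p45 P) a q b y z) :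
    Qn (O1.p45 P) (m.f a) (m.f q) (m.f b) (m.f y) (m.f z) := by
  obtain ⟨g, i | j, k, hi, h⟩ := h
  · have hi' : ¬ (O1.p45 P).sq (Sum.inl i) := hi
    have e : ∀ k : Fin 5, m.f (g • (O.p45 P).pt (Sum.inl i) k) =
        g • (O1.p45 P).pt (Sum.inl i) k := by
      intro k
      rw [m.f_smul]
      exact congrArg (fun t => g • t) (m.f_lp i k.1)
    refine ⟨g, Sum.inl i, k, hi', ?_⟩
    rcases h with ⟨rfl, rfl, rfl, rfl, rfl⟩ | ⟨rfl, rfl, rfl, rfl, rfl⟩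
    · exact Or.inl ⟨e _, e _, e _, e _, e _⟩
    · exact Or.inr ⟨e _, e _, e _, e _, e _⟩
  · exact absurd trivial hi

theorem pent_lift {a1 q1 b1 y1 z1 : W1} (h : Qn (O1.p45 P) a1 q1 b1 y1 z1) :
    ∃ a q b y z, Qn (O.p45 P) a q b y z ∧ m.f a = a1 ∧ m.f q = q1 ∧ m.f b = b1 ∧ m.f y = y1 ∧
      m.f z = z1 := by
  obtain ⟨g, i | j, k, hi, h⟩ := h
  · have hi' : ¬ (O.p45 P).sq (Sum.inl i) := hi
    have e : ∀ k : Fin 5, m.f (g • (O.p45 P).pt (Sum.inl i) k) =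
        g • (O1.p45 P).pt (Sum.inl i) k := by
      intro k
      rw [m.f_smul]
      exact congrArg (fun t => g • t) (m.f_lp i k.1)
    rcases h with ⟨rfl, rfl, rfl, rfl, rfl⟩ | ⟨rfl, rfl, rfl, rfl, rfl⟩
    · exact ⟨_, _, _, _, _, ⟨g, Sum.inl i, k, hi', Or.inl ⟨rfl, rfl, rfl, rfl, rfl⟩⟩,
        e _, e _, e _, e _, e _⟩
    · exact ⟨_, _, _, _, _, ⟨g, Sum.inl i, k, hi', Or.inr ⟨rfl, rfl, rfl, rfl, rfl⟩⟩,
        e _, e _, e _, e _, e _⟩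
  · exact absurd trivial hi

/-- the squares of an opening: lifted or new -/
theorem _root_.Pool.Agent.DI.OpW.Q4_cases {H V W : Type} [Group H] [MulAction H V] [MulAction H W]
    {K : GX H V} (O : OpW K W) (P : P45 K) {a q b y : W} (h : Q4 (O.p45 P) a q b y) :
    (∃ (g : H) (i : K.I) (k : Fin 4), P.sq i ∧
      ((a = g • (O.p45 P).qt (Sum.inl i) k ∧ q = g • (O.p45 P).qt (Sum.inl i) (k + 1) ∧
        b = g • (O.p45 P).qt (Sum.inl i) (k + 2) ∧ y = g • (O.p45 P).qt (Sum.inl i) (k + 3)) ∨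
      (b = g • (O.p45 P).qt (Sum.inl i) k ∧ q = g • (O.p45 P).qt (Sum.inl i) (k + 1) ∧
        a = g • (O.p45 P).qt (Sum.inl i) (k + 2) ∧ y = g • (O.p45 P).qt (Sum.inl i) (k + 3)))) ∨
    O.NSq a q b y ∨ O.NSq q b y a := by
  obtain ⟨g, i | j, k, hi, h⟩ := h
  · exact Or.inl ⟨g, i, k, hi, h⟩
  · right
    rcases h with ⟨rfl, rfl, rfl, rfl⟩ | ⟨rfl, rfl, rfl, rfl⟩
    · fin_cases k
      · exact Or.inl ⟨g, j, Or.inl ⟨rfl, rfl⟩, Or.inl ⟨rfl, rfl⟩⟩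
      · exact Or.inr ⟨g, j, Or.inr ⟨rfl, rfl⟩, Or.inr ⟨rfl, rfl⟩⟩
      · exact Or.inl ⟨g, j, Or.inr ⟨rfl, rfl⟩, Or.inr ⟨rfl, rfl⟩⟩
      · exact Or.inr ⟨g, j, Or.inl ⟨rfl, rfl⟩, Or.inl ⟨rfl, rfl⟩⟩
    · fin_cases k
      · exact Or.inl ⟨g, j, Or.inl ⟨rfl, rfl⟩, Or.inr ⟨rfl, rfl⟩⟩
      · exact Or.inr ⟨g, j, Or.inl ⟨rfl, rfl⟩, Or.inr ⟨rfl, rfl⟩⟩
      · exact Or.inl ⟨g, j, Or.inr ⟨rfl, rfl⟩, Or.inl ⟨rfl, rfl⟩⟩
      · exact Or.inr ⟨g, j, Or.inr ⟨rfl, rfl⟩, Or.inl ⟨rfl, rfl⟩⟩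

/-- a square goes to a square or is new -/
theorem sq {a q b y : W} (h : Q4 (O.p45 P) a q b y) :
    Q4 (O1.p45 P) (m.f a) (m.f q) (m.f b) (m.f y) ∨ O.NSq a q b y ∨ O.NSq q b y a := by
  rcases O.Q4_cases P h with ⟨g, i, k, hi, h⟩ | h | h
  · left
    have e : ∀ k : Fin 4, m.f (g • (O.p45 P).qt (Sum.inl i) k) =
        g • (O1.p45 P).qt (Sum.inl i) k := by
      intro k
      rw [m.f_smul]
      exact congrArg (fun t => g • t) (m.f_lp i k.1)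
    refine ⟨g, Sum.inl i, k, hi, ?_⟩
    rcases h with ⟨rfl, rfl, rfl, rfl⟩ | ⟨rfl, rfl, rfl, rfl⟩
    · exact Or.inl ⟨e _, e _, e _, e _⟩
    · exact Or.inr ⟨e _, e _, e _, e _⟩
  · exact Or.inr (Or.inl h)
  · exact Or.inr (Or.inr h)

/-- a square downstairs comes from a square or is new -/
theorem sq_lift {a1 q1 b1 y1 : W1} (h : Q4 (O1.p45 P) a1 q1 b1 y1) :
    (∃ a q b y, Q4 (O.p45 P) a q b y ∧ m.f a = a1 ∧ m.f q = q1 ∧ m.f b = b1 ∧ m.f y = y1) ∨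
    O1.NSq a1 q1 b1 y1 ∨ O1.NSq q1 b1 y1 a1 := by
  rcases O1.Q4_cases P h with ⟨g, i, k, hi, h⟩ | h | h
  · left
    have e : ∀ k : Fin 4, m.f (g • (O.p45 P).qt (Sum.inl i) k) =
        g • (O1.p45 P).qt (Sum.inl i) k := by
      intro k
      rw [m.f_smul]
      exact congrArg (fun t => g • t) (m.f_lp i k.1)
    have hi' : (O.p45 P).sq (Sum.inl i) := hi
    rcases h with ⟨rfl, rfl, rfl, rfl⟩ | ⟨rfl, rfl, rfl, rfl⟩
    · exact ⟨_, _, _, _, ⟨g, Sum.inl i, k, hi', Or.inl ⟨rfl, rfl, rfl, rfl⟩⟩, e _, e _, e _, e _⟩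
    · exact ⟨_, _, _, _, ⟨g, Sum.inl i, k, hi', Or.inr ⟨rfl, rfl, rfl, rfl⟩⟩, e _, e _, e _, e _⟩
  · exact Or.inr (Or.inl h)
  · exact Or.inr (Or.inr h)

/-- stabilisers -/
theorem stab (hf : O.DF) (x : W) (hi : Infinite ↥(stabilizer H (m.f x))) :
    stabilizer H (m.f x) ≤ stabilizer H x := by
  by_cases hd : O.Dbl x
  · exfalso
    have h1 := hf x hd
    refine not_finite_iff_infinite.2 hi (Finite.of_injective
      (fun g : ↥(stabilizer H (m.f x)) => (⟨g.1, ?_⟩ : ↥(stabilizer H (O.π x)))) ?_)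
    · have e : g.1 • m.f x = m.f x := g.2
      show g.1 • O.π x = O.π x
      rw [← m.f_π, ← O1.π_smul, e]
    · intro g g' e
      exact Subtype.ext (congrArg (fun t : ↥(stabilizer H (O.π x)) => t.1) e)
  · intro g hg
    have e : g • m.f x = m.f x := hg
    have e1 : O.π (g • x) = O.π x := by
      rw [O.π_smul, ← m.f_π, ← O1.π_smul, e]
    exact O.not_dbl hd e1

variable {D : Decomp H} {J : W → Set D.X} (js : JS (O.p45 P).pq D J) (J1 : W1 → Set D.X)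

variable {P} in
/-- THE DESCENT DATA -/
def dsc (hf : O.DF) (hJ : ∀ x, J1 (m.f x) = J x)
    (hs : ∀ (h : H) x1 p, p ∈ J1 x1 → h • p ∈ J1 (h • x1))
    (hb : ∀ x1, (¬ ∃ x, m.f x = x1) → (∃ a1, O1.gx.ar x1 a1) ∧ ∃ u, J1 x1 = {u} ∧
      ∀ a1, O1.gx.ar x1 a1 → u ∈ J1 a1)
    (hl : ∀ x x', O.π x = O.π x' → J x = J x' → m.f x = m.f x')
    (hn : ∀ a q b y, O.NSq a q b y → m.f q = m.f y ∨ O1.NSq (m.f a) (m.f q) (m.f b) (m.f y) ∨
      ∃ v u, J1 v = {u} ∧ O1.NSq (m.f a) (m.f q) (m.f b) v ∧ O1.NSq (m.f a) v (m.f b) (m.f y)) :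
    Dsc (SyQ.mk O.gx (O.p45 P) D J js) O1.gx (O1.p45 P) where
  f := m.f
  J := J1
  f_smul := m.f_smul
  ar_map _ _ h := m.ar h
  ar_lift _ _ h := m.ar_lift h
  ar_inj _ _ _ ha hb e := m.ar_inj ha hb e
  pole _ _ h := m.pole h
  J_f := hJ
  J_smul := hs
  bare := hb
  sib x1 _ := by
    obtain ⟨s, e⟩ := O.sur (O1.π x1)
    refine ⟨s, fun a1 ha => ?_⟩
    exact O1.ar_congr ha (by rw [m.f_π, e])
  pent _ _ _ _ _ h := m.pent P h
  pent_lift _ _ _ _ _ h := m.pent_lift P h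
  sq a q b y h := by
    rcases m.sq P h with k | k | k
    · exact Or.inr (Or.inr (Or.inr (Or.inl k)))
    · rcases hn _ _ _ _ k with k | k | ⟨v, u, h1, h2, h3⟩
      · exact Or.inl k
      · exact Or.inr (Or.inr (Or.inr (Or.inl (O1.Q4_new P k))))
      · exact Or.inr (Or.inr (Or.inr (Or.inr ⟨v, u, h1, O1.Q4_new P h2, O1.Q4_new P h3⟩)))
    · obtain ⟨b1, b2, a1, a2, e, -⟩ := OpW.NSq.ar O k
      by_cases hJ : J b = J a
      · exact Or.inr (Or.inl (hl _ _ e hJ).symm)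
      · obtain ⟨p, p', h1, h2, -⟩ := SyQ.part_pts js e ⟨q, b1⟩ hJ
        exact Or.inr (Or.inr (Or.inl ⟨p', h2⟩))
  stab x hi := m.stab hf x hi

end OpMap

end Pool.Agent.DI
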