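import Pool.Agent.DI.DscS
import Pool.Agent.DI.K1

/-!
# DI/DscO: the step complex over the labels of a system

`m.Stp J`: `O1` is the step complex: its vertices are the labels (the images of `m.f`) and one further
vertex over every vertex with exchanged labels; a new square joins the two labels (not exchanged) or a
label and the further vertex. `Stp.J1`: the places. `Stp.dsc`: the descent data. `Stp.ok`: the conditions
`OpW.Ok`, except `xo`.
-/

namespace Pool.Agent.DI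

open MulAction
open Pool.Agent.SAF (InC SA orbs FinOrb oc Decomp SAn Conv FinOrb_iff exists_next)
open Pool.Agent.BT (PX PQ JS bey exits Ell mst)
open Pool.Agent.BT.TA

/-- equal subtrees, translated -/
theorem js_eq_of_smul {H V : Type} [Group H] [MulAction H V] {Q : PQ H V} {D : Decomp H}
    {J : V → Set D.X} (js : JS Q D J) (g : H) {x x' : V} (e : J (g • x) = J (g • x')) :
    J x = J x' := by
  have key : ∀ {x x' : V}, J (g • x) = J (g • x') → J x ⊆ J x' := by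
    intro x x' e p hp
    have h1 := js.smul g _ _ hp
    rw [e] at h1
    have h2 := js.smul g⁻¹ _ _ h1
    rwa [inv_smul_smul, inv_smul_smul] at h2
  exact Set.Subset.antisymm (key e) (key e.symm)

namespace OpMap

variable {H V W W1 : Type} [Group H] [MulAction H V] [MulAction H W] [MulAction H W1]
  {K : GX H V} {P : P45 K} {O : OpW K W} {O1 : OpW K W1} (m : OpMap O O1) {D : Decomp H}
  (J : W → Set D.X)

/-- a label -/
def Im (x1 : W1) : Prop := ∃ x, m.f x = x1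

/-- THE STEP COMPLEX -/
structure Stp : Prop where
  lab : ∀ x x', O.π x = O.π x' → J x = J x' → m.f x = m.f x'
  inj : ∀ x x', m.f x = m.f x' → J x = J x'
  br : ∀ v, ¬ m.Im v → Exc O J (O1.π v)
  ex : ∀ y, Exc O J y → ∃ v, ¬ m.Im v ∧ O1.π v = y
  uni : ∀ v v', ¬ m.Im v → ¬ m.Im v' → O1.π v = O1.π v' → v = v'
  sq : ∀ x x' a b, O.π x = O.π x' → J x ≠ J x' → ¬ Exc O J (O.π x) → O.gx.ar x a → O.gx.ar x b →
    a ≠ b → O1.NSq (m.f a) (m.f x) (m.f b) (m.f x')
  sqb : ∀ x v a b, ¬ m.Im v → O1.π v = O.π x → O.gx.ar x a → O.gx.ar x b → a ≠ b →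
    O1.NSq (m.f a) (m.f x) (m.f b) v
  jj : ∀ j, (∃ x x', m.f x = O1.js j ∧ m.f x' = O1.jt j ∧ J x ≠ J x' ∧ ¬ Exc O J (O.π x)) ∨
    (m.Im (O1.js j) ∧ ¬ m.Im (O1.jt j))
  jo : O1.Js

variable {m J}

theorem Im.smul {x1 : W1} (h : m.Im x1) (g : H) : m.Im (g • x1) := by
  obtain ⟨x, rfl⟩ := h
  exact ⟨g • x, m.f_smul g x⟩

theorem Im.smul_iff {x1 : W1} (g : H) : m.Im (g • x1) ↔ m.Im x1 := by
  refine ⟨fun h => ?_, fun h => h.smul g⟩
  have := h.smul g⁻¹
  rwa [inv_smul_smul] at this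

theorem Im.pole {x1 a1 : W1} (h : O1.gx.ar x1 a1) : m.Im a1 := m.pole h

/-- a vertex without an in-arrow, if it is no label -/
theorem nIm_page {v n : W1} (h : ¬ m.Im v) : ¬ O1.gx.ar n v := fun k => h (m.pole k)

/-- no label, no pentagon -/
theorem nIm_pent {a v b y z : W1} (h : ¬ m.Im v) : ¬ Qn (O1.p45 P) a v b y z := by
  intro k
  obtain ⟨a', q, b', y', z', -, -, e, -⟩ := m.pent_lift P k
  exact h ⟨q, e⟩

theorem nIm_bare {v : W1} (h : ¬ m.Im v) : (O1.p45 P).Bare v :=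
  ⟨fun _ => nIm_page h, fun _ _ _ _ _ _ => nIm_pent h⟩

namespace Stp

variable (s : m.Stp J)
include s

theorem ne (j : O1.J) : O1.js j ≠ O1.jt j := by
  intro e
  rcases s.jj j with ⟨x, x', h1, h2, h3, -⟩ | ⟨h1, h2⟩
  · exact h3 (s.inj _ _ (h1.trans (e.trans h2.symm)))
  · exact h2 (e ▸ h1)

omit [MulAction H W1] s in
/-- a vertex with exchanged labels has two labels -/
theorem exc_two {y : V} (h : Exc O J y) : ∃ x x', O.π x = y ∧ O.π x' = y ∧ J x ≠ J x' := by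
  obtain ⟨k, L, L', -, ⟨x, e1, e2⟩, ⟨x', e1', e2'⟩, h4, -⟩ := h
  have e1 : O.π x = y := e1
  have e2 : J x = L := e2
  have e1' : O.π x' = y := e1'
  have e2' : J x' = L' := e2'
  exact ⟨x, x', e1, e1', fun e => h4 (e2.symm.trans (e.trans e2'))⟩

/-- AN OPENED VERTEX HAS TWO LABELS -/
theorem dbl_two {x1 : W1} (h : O1.Dbl x1) : ∃ x x', O.π x = O1.π x1 ∧ O.π x' = O1.π x1 ∧
    J x ≠ J x' := by
  obtain ⟨y1, e, hne⟩ := h
  by_cases hx : m.Im x1
  · by_cases hy : m.Im y1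
    · obtain ⟨x, rfl⟩ := hx
      obtain ⟨y, rfl⟩ := hy
      have e' : O.π x = O.π y := by rw [← m.f_π, ← m.f_π, e]
      refine ⟨x, y, (m.f_π x).symm, ?_, fun k => hne (s.lab _ _ e' k)⟩
      rw [m.f_π, e']
    · rw [e]
      exact exc_two (s.br _ hy)
  · exact exc_two (s.br _ hx)

theorem two_dbl {x x' : W} (e : O.π x = O.π x') (h : J x ≠ J x') : O1.Dbl (m.f x) :=
  ⟨m.f x', by rw [m.f_π, m.f_π, e], fun k => h (s.inj _ _ k)⟩

theorem nIm_dbl {v : W1} (h : ¬ m.Im v) : O1.Dbl v := by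
  obtain ⟨x, x', e, -, -⟩ := exc_two (s.br _ h)
  refine ⟨m.f x, ?_, fun k => h ⟨x, k.symm⟩⟩
  rw [m.f_π, e]

/-- an opened vertex lies over an opened vertex -/
theorem dbl {x1 : W1} (h : O1.Dbl x1) : ∃ x, O.Dbl x ∧ O.π x = O1.π x1 := by
  obtain ⟨x, x', e, e', hne⟩ := s.dbl_two h
  exact ⟨x, ⟨x', e.trans e'.symm, fun k => hne (by rw [k])⟩, e⟩

theorem tw (ht : O.Tw) : O1.Tw := by
  intro x1 y1 e hne
  obtain ⟨x, x', e1, e2, h⟩ := s.dbl_two ⟨y1, e, hne⟩
  have := ht x x' (e1.trans e2.symm) (fun k => h (by rw [k]))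
  rwa [e1] at this

theorem df (hf : O.DF) : O1.DF := by
  intro x1 h
  obtain ⟨x, hx, e⟩ := s.dbl h
  rw [← e]
  exact hf x hx

theorem nf (hf : O.NF) : O1.NF := by
  intro x1 h a ha
  obtain ⟨x, hx, e⟩ := s.dbl h
  rw [← e] at ha
  exact hf x hx a ha

variable {js : JS (O.p45 P).pq D J} {hc : (SyQ.mk O.gx (O.p45 P) D J js).Conn}
  {tw : W → W → Prop} {Tp : W → Prop} {pt : W → W} {Z : W → Prop}
  (r : (SyQ.mk O.gx (O.p45 P) D J js).RK hc tw Tp pt Z)
include r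

theorem nt (hT : P.SqT) : O1.NT P := by
  intro x1 y1 e hne a b z h
  obtain ⟨x, x', e1, e2, k⟩ := s.dbl_two ⟨y1, e, hne⟩
  exact k (r.top_one hT h e1 e2)

omit r in
/-- the partner in a new square -/
theorem nsq (js : JS (O.p45 P).pq D J) {a q b y : W1} (h : O1.NSq a q b y) :
    (∃ x x', m.f x = q ∧ m.f x' = y ∧ J x ≠ J x' ∧ ¬ Exc O J (O.π x)) ∨
    (m.Im q ∧ ¬ m.Im y) ∨ (m.Im y ∧ ¬ m.Im q) := by
  obtain ⟨g, j, h1, -⟩ := h
  rcases s.jj j with ⟨x, x', e1, e2, e3, e4⟩ | ⟨e1, e2⟩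
  · left
    have k3 : ∀ {x x' : W}, J x ≠ J x' → J (g • x) ≠ J (g • x') :=
      fun hn e => hn (js_eq_of_smul js g e)
    have k4 : ¬ Exc O J (O.π (g • x)) := by
      intro h
      have := h.smul js g⁻¹
      rw [O.π_smul, inv_smul_smul] at this
      exact e4 this
    have k5 : O.π (g • x) = O.π (g • x') := by
      rw [← m.f_π, ← m.f_π, m.f_smul, m.f_smul, e1, e2, O1.π_smul, O1.π_smul, O1.j_eq]
    rcases h1 with ⟨rfl, rfl⟩ | ⟨rfl, rfl⟩
    · exact ⟨g • x, g • x', by rw [m.f_smul, e1], by rw [m.f_smul, e2], k3 e3, k4⟩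
    · refine ⟨g • x', g • x, by rw [m.f_smul, e2], by rw [m.f_smul, e1], (k3 e3).symm, ?_⟩
      rwa [← k5]
  · right
    rcases h1 with ⟨rfl, rfl⟩ | ⟨rfl, rfl⟩
    · exact Or.inl ⟨e1.smul g, fun h => e2 ((Im.smul_iff g).1 h)⟩
    · exact Or.inr ⟨e1.smul g, fun h => e2 ((Im.smul_iff g).1 h)⟩

/-- ONE PARTNER, over an opened label -/
theorem pu (hT : P.SqT) (ht : O.Tw) {T a b y a' b' y' : W1} (hd : O1.Dbl T) (hi : m.Im T)
    (h : (O1.p45 P).Top T a b y) (h' : (O1.p45 P).Top T a' b' y') : y = y' := by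
  have key : ∀ {a b y}, (O1.p45 P).Top T a b y → O1.NSq a T b y := by
    intro a b y h
    rcases O1.Top_π P h with k | k
    · exact absurd hd ((s.nt r hT).top k)
    · exact k
  have p := (OpW.NSq.ar _ (key h)).2.2.2.2.1
  have p' := (OpW.NSq.ar _ (key h')).2.2.2.2.1
  rcases s.nsq js (key h) with ⟨x, x', e1, e2, e3, e4⟩ | ⟨-, e2⟩ | ⟨-, e2⟩
  · rcases s.nsq js (key h') with ⟨z, z', k1, k2, k3, k4⟩ | ⟨-, k2⟩ | ⟨-, k2⟩
    · have q1 : O.π x = O.π x' := by rw [← m.f_π, ← m.f_π, e1, e2, p]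
      have q2 : O.π x = O.π z' := by rw [← m.f_π, ← m.f_π, e1, k2, p']
      have q3 : J x = J z := s.inj _ _ (e1.trans k1.symm)
      have q4 : J x' = J z' := by
        rcases r.le2 (x := x) (y := x') (z := z') ht q1 (q1.symm.trans q2) with q | q | q
        · exact absurd q e3
        · exact q
        · exact absurd (q3.symm.trans q) k3
      rw [← e2, ← k2]
      exact s.lab _ _ (q1.symm.trans q2) q4
    · exfalso
      have := s.br _ k2
      rw [← p', ← e1, m.f_π] at this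
      exact e4 this
    · exact absurd hi k2
  · rcases s.nsq js (key h') with ⟨z, z', k1, k2, k3, k4⟩ | ⟨-, k2⟩ | ⟨-, k2⟩
    · exfalso
      have := s.br _ e2
      rw [← p, ← k1, m.f_π] at this
      exact k4 this
    · exact s.uni _ _ e2 k2 (p.symm.trans p')
    · exact absurd hi k2
  · exact absurd hi e2

end Stp

end OpMap

end Pool.Agent.DI
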