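import Pool.Agent.DI.MuJ

/-!
# DI/JsE: subtrees of vertices with the same poles, ends of a path

* `js_eq_of_cross`: vertices with the same poles, one of them crosses an edge: the subtrees are equal.
* `js_eq_of_poles`: vertices with the same poles which have at most one common point have equal subtrees.
* `three_ends`: a convex set in a tree whose vertices have at most two neighbours in it has at most two
  vertices with at most one neighbour in it.
-/

namespace Pool.Agent.DI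

open MulAction
open Pool.Agent.SAF (InC orbs FinOrb oc Decomp SAn SA Conv exists_next)
open Pool.Agent.BT (PX PQ JS bey exits)
open Pool.Agent.BT.TA

section

variable {H V : Type} [Group H] [MulAction H V] {K : PQ H V} {D : Decomp H} {J : V → Set D.X}

/-- two points of `J x`: the first step is in `J x` -/
theorem js_next (js : JS K D J) {x : V} {p r : D.X} (hp : p ∈ J x) (hr : r ∈ J x) (hne : p ≠ r) :
    ∃ t, D.G.Adj p t ∧ t ∈ J x ∧ D.G.dist p r = D.G.dist t r + 1 := by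
  obtain ⟨t, ht, e⟩ := exists_next D.tree hne
  refine ⟨t, ht, js.conv x p hp r hr t ?_, e⟩
  rw [SimpleGraph.dist_eq_one_iff_adj.2 ht]
  omega

/-- the poles determine the subtree of a vertex which crosses an edge -/
theorem js_sub_of_cross (js : JS K D J) {x x' : V} (hx : ∃ a, K.ar x a)
    (hp : ∀ a, K.ar x a ↔ K.ar x' a) {w w' : D.X} (e : D.G.Adj w w') (h1 : w ∈ J x)
    (h2 : w' ∈ J x) : J x ⊆ J x' := by
  have hx' : ∃ a, K.ar x' a := by
    obtain ⟨a, ha⟩ := hx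
    exact ⟨a, (hp a).1 ha⟩
  have key : ∀ r r', D.G.Adj r r' → r ∈ J x → r' ∈ J x → r ∈ J x' ∧ r' ∈ J x' := by
    intro r r' hr h3 h4
    obtain ⟨a, b, ha, hb, ha', hb'⟩ := (js_cross_iff js hx hr).1 ⟨h3, h4⟩
    exact (js_cross_iff js hx' hr).2 ⟨a, b, (hp a).1 ha, (hp b).1 hb, ha', hb'⟩
  intro r hr
  by_cases hrw : r = w
  · subst hrw
    exact (key r w' e h1 h2).1
  · obtain ⟨t, ht, ht', -⟩ := js_next js hr h1 hrw
    exact (key r t ht hr ht').1

theorem js_eq_of_cross (js : JS K D J) {x x' : V} (hx : ∃ a, K.ar x a)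
    (hp : ∀ a, K.ar x a ↔ K.ar x' a) {w w' : D.X} (e : D.G.Adj w w') (h1 : w ∈ J x)
    (h2 : w' ∈ J x) : J x = J x' := by
  have hs := js_sub_of_cross js hx hp e h1 h2
  refine Set.Subset.antisymm hs ?_
  obtain ⟨a, ha⟩ := hx
  exact js_sub_of_cross js ⟨a, (hp a).1 ha⟩ (fun a => (hp a).symm) e (hs h1) (hs h2)

/-- a subtree is a point or crosses an edge -/
theorem js_pt_or_cross (js : JS K D J) (x : V) : (∃ p, J x = {p}) ∨
    ∃ w w', D.G.Adj w w' ∧ w ∈ J x ∧ w' ∈ J x := by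
  obtain ⟨p, hp⟩ := js.ne x
  by_cases h : ∃ r ∈ J x, p ≠ r
  · obtain ⟨r, hr, hne⟩ := h
    obtain ⟨t, ht, ht', -⟩ := js_next js hp hr hne
    exact Or.inr ⟨p, t, ht, hp, ht'⟩
  · push Not at h
    exact Or.inl ⟨p, Set.eq_singleton_iff_unique_mem.2 ⟨hp, fun r hr => (h r hr).symm⟩⟩

/-- the point of a vertex lies in the subtrees of all poles -/
theorem js_pt_pole (js : JS K D J) {x a : V} {p : D.X} (hp : J x = {p}) (ha : K.ar x a) :
    p ∈ J a := by
  obtain ⟨r, hr⟩ := js.one x a (Or.inl ha)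
  have h1 : r ∈ J x ∩ J a := by
    rw [hr]
    rfl
  rw [hp] at h1
  have h2 := h1.2
  rwa [Set.mem_singleton_iff.1 h1.1] at h2

theorem js_eq_of_poles (js : JS K D J) {x x' : V} (hx : ∃ a, K.ar x a)
    (hp : ∀ a, K.ar x a ↔ K.ar x' a)
    (h : ∀ p p' : D.X, (∀ a, K.ar x a → p ∈ J a) → (∀ a, K.ar x a → p' ∈ J a) → p = p') :
    J x = J x' := by
  rcases js_pt_or_cross js x with ⟨p, h1⟩ | ⟨w, w', e, h1, h2⟩
  · rcases js_pt_or_cross js x' with ⟨p', h1'⟩ | ⟨w, w', e, h1', h2'⟩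
    · rw [h1, h1', h p p' (fun a ha => js_pt_pole js h1 ha)
        (fun a ha => js_pt_pole js h1' ((hp a).1 ha))]
    · obtain ⟨a, ha⟩ := hx
      exact (js_eq_of_cross js ⟨a, (hp a).1 ha⟩ (fun a => (hp a).symm) e h1' h2').symm
  · exact js_eq_of_cross js hx hp e h1 h2

end

section

variable {X : Type} {G : SimpleGraph X}

/-- two different ends which lie behind a vertex: there is no third direction -/
theorem no_branch (hG : G.IsTree) {I : Set X} (hI : Conv G I)
    (h2 : ∀ v ∈ I, ∀ a ∈ I, ∀ b ∈ I, ∀ c ∈ I, G.Adj v a → G.Adj v b → G.Adj v c →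
      a = b ∨ a = c ∨ b = c) {p r : X} (hp : p ∈ I) (hr : r ∈ I) (hne : p ≠ r)
    (ep : ∀ a ∈ I, ∀ b ∈ I, G.Adj p a → G.Adj p b → a = b)
    (er : ∀ a ∈ I, ∀ b ∈ I, G.Adj r a → G.Adj r b → a = b) :
    ∀ (n : ℕ) {v t : X}, G.dist v p ≤ n → v ∈ I → t ∈ I → G.Adj v t →
      G.dist v p = G.dist t p + 1 → G.dist v r = G.dist t r + 1 → False := by
  intro n
  induction n with
  | zero =>
    intro v t h0 hv ht hvt e1 e2
    omega
  | succ n ih =>
    intro v t h0 hv ht hvt e1 e2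
    -- the directions from `t` to `p` and to `r`
    by_cases htp : t = p
    · subst htp
      obtain ⟨s, hs, e⟩ := exists_next hG hne
      have hsI : s ∈ I := hI _ hp _ hr s (by
        rw [SimpleGraph.dist_eq_one_iff_adj.2 hs]
        omega)
      have := ep v hv s hsI hvt.symm hs
      subst this
      omega
    by_cases htr : t = r
    · subst htr
      obtain ⟨s, hs, e⟩ := exists_next hG (fun h => htp h : t ≠ p)
      have hsI : s ∈ I := hI _ ht _ hp s (by
        rw [SimpleGraph.dist_eq_one_iff_adj.2 hs]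
        omega)
      have := er v hv s hsI hvt.symm hs
      subst this
      omega
    obtain ⟨s, hs, e3⟩ := exists_next hG htp
    obtain ⟨s', hs', e4⟩ := exists_next hG htr
    have hsI : s ∈ I := hI _ ht _ hp s (by
      rw [SimpleGraph.dist_eq_one_iff_adj.2 hs]
      omega)
    have hsI' : s' ∈ I := hI _ ht _ hr s' (by
      rw [SimpleGraph.dist_eq_one_iff_adj.2 hs']
      omega)
    rcases h2 t ht v hv s hsI s' hsI' hvt.symm hs hs' with h | h | h
    · subst h
      omega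
    · subst h
      omega
    · subst h
      exact ih (v := t) (t := s) (by omega) ht hsI hs e3 e4

/-- AT MOST TWO ENDS -/
theorem three_ends (hG : G.IsTree) {I : Set X} (hI : Conv G I)
    (h2 : ∀ v ∈ I, ∀ a ∈ I, ∀ b ∈ I, ∀ c ∈ I, G.Adj v a → G.Adj v b → G.Adj v c →
      a = b ∨ a = c ∨ b = c) {p q r : X} (hp : p ∈ I) (hq : q ∈ I) (hr : r ∈ I)
    (ep : ∀ a ∈ I, ∀ b ∈ I, G.Adj p a → G.Adj p b → a = b)
    (eq : ∀ a ∈ I, ∀ b ∈ I, G.Adj q a → G.Adj q b → a = b)
    (er : ∀ a ∈ I, ∀ b ∈ I, G.Adj r a → G.Adj r b → a = b) : p = q ∨ q = r ∨ p = r := by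
  by_contra hcon
  push Not at hcon
  obtain ⟨hpq, hqr, hpr⟩ := hcon
  obtain ⟨s, hs, e3⟩ := exists_next hG hpq.symm
  obtain ⟨s', hs', e4⟩ := exists_next hG hqr
  have hsI : s ∈ I := hI _ hq _ hp s (by
    rw [SimpleGraph.dist_eq_one_iff_adj.2 hs]
    omega)
  have hsI' : s' ∈ I := hI _ hq _ hr s' (by
    rw [SimpleGraph.dist_eq_one_iff_adj.2 hs']
    omega)
  have h := eq s hsI s' hsI' hs hs'
  subst h
  exact no_branch hG hI h2 hp hr hpr ep er (G.dist q p) le_rfl hq hsI hs e3 e4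

end

section

variable {H V : Type} [Group H] [MulAction H V] {K : PQ H V} {D : Decomp H} {J : V → Set D.X}

/-- a vertex crosses at most two edges at a point -/
theorem js_two_adj (js : JS K D J) {x : V} {v a b c : D.X} (hv : v ∈ J x) (ha : a ∈ J x)
    (hb : b ∈ J x) (hc : c ∈ J x) (va : D.G.Adj v a) (vb : D.G.Adj v b) (vc : D.G.Adj v c) :
    a = b ∨ a = c ∨ b = c := by
  rcases js.two x v hv (Sum.inr a) (Or.inr ⟨a, rfl, va, ha⟩) (Sum.inr b) (Or.inr ⟨b, rfl, vb, hb⟩)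
    (Sum.inr c) (Or.inr ⟨c, rfl, vc, hc⟩) with h | h | h
  · exact Or.inl (Sum.inr.inj h)
  · exact Or.inr (Or.inl (Sum.inr.inj h))
  · exact Or.inr (Or.inr (Sum.inr.inj h))

/-- THREE ENDS of the common part of two subtrees -/
theorem js_three_ends (js : JS K D J) {a b : V} {p q r : D.X} (hp : p ∈ J a ∩ J b)
    (hq : q ∈ J a ∩ J b) (hr : r ∈ J a ∩ J b)
    (ep : ∀ s ∈ J a ∩ J b, ∀ t ∈ J a ∩ J b, D.G.Adj p s → D.G.Adj p t → s = t)
    (eq : ∀ s ∈ J a ∩ J b, ∀ t ∈ J a ∩ J b, D.G.Adj q s → D.G.Adj q t → s = t)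
    (er : ∀ s ∈ J a ∩ J b, ∀ t ∈ J a ∩ J b, D.G.Adj r s → D.G.Adj r t → s = t) :
    p = q ∨ q = r ∨ p = r := by
  refine Pool.Agent.DI.three_ends D.tree ?_ ?_ hp hq hr ep eq er
  · intro x hx y hy z hz
    exact ⟨js.conv a x hx.1 y hy.1 z hz, js.conv b x hx.2 y hy.2 z hz⟩
  · intro v hv s hs t ht u hu h1 h2 h3
    exact js_two_adj js hv.1 hs.1 ht.1 hu.1 h1 h2 h3

end

end Pool.Agent.DI
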