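import Pool.Agent.DI.Dsc
import Pool.Agent.DI.JsE
import Pool.Agent.DI.PlcQ

/-!
# DI/DscP: places of the parts, placement over the midpoint

* `ends_dir`: `I` convex with at most two neighbours of its points in it, `p ≠ r` ends of `I`, `c ∈ I`
  different from `p`, `r`: the directions from `c` to `p` and to `r` are different.
* `Dsc.plc`: `SyQ.Plc` goes down.
-/

namespace Pool.Agent.DI

open MulAction
open Pool.Agent.SAF (InC SA orbs FinOrb oc Decomp SAn Conv FinOrb_iff exists_next)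
open Pool.Agent.BT (PX PQ JS bey exits Ell mst)
open Pool.Agent.BT.TA

/-- the directions to two ends are different -/
theorem ends_dir {X : Type} {G : SimpleGraph X} (hG : G.IsTree) {I : Set X} (hI : Conv G I)
    (h2 : ∀ v ∈ I, ∀ a ∈ I, ∀ b ∈ I, ∀ c ∈ I, G.Adj v a → G.Adj v b → G.Adj v c →
      a = b ∨ a = c ∨ b = c) {p r c : X} (hp : p ∈ I) (hr : r ∈ I) (hc : c ∈ I) (hne : p ≠ r)
    (hcp : c ≠ p) (hcr : c ≠ r) (ep : ∀ a ∈ I, ∀ b ∈ I, G.Adj p a → G.Adj p b → a = b)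
    (er : ∀ a ∈ I, ∀ b ∈ I, G.Adj r a → G.Adj r b → a = b) :
    ∃ s t, s ∈ I ∧ t ∈ I ∧ G.Adj c s ∧ G.Adj c t ∧ s ≠ t ∧ G.dist p c = G.dist p s + 1 ∧
      G.dist r c = G.dist r t + 1 := by
  obtain ⟨s, hs, e1⟩ := exists_next hG hcp
  obtain ⟨t, ht, e2⟩ := exists_next hG hcr
  have hsI : s ∈ I := hI _ hc _ hp s (by
    rw [SimpleGraph.dist_eq_one_iff_adj.2 hs]
    omega)
  have htI : t ∈ I := hI _ hc _ hr t (by
    rw [SimpleGraph.dist_eq_one_iff_adj.2 ht]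
    omega)
  refine ⟨s, t, hsI, htI, hs, ht, ?_, ?_, ?_⟩
  · rintro rfl
    exact no_branch hG hI h2 hp hr hne ep er (G.dist c p) le_rfl hc hsI hs e1 e2
  · rw [SimpleGraph.dist_comm, e1, SimpleGraph.dist_comm]
  · rw [SimpleGraph.dist_comm, e2, SimpleGraph.dist_comm]

namespace Dsc

variable {H W W1 : Type} [Group H] [MulAction H W] [MulAction H W1] {S : SyQ H W}
  {K1 : GX H W1} {P1 : P45 K1} (M : Dsc S K1 P1)

/-- THE PLACEMENT OVER THE MIDPOINT GOES DOWN -/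
theorem plc {w u w' : S.X} (h : S.Plc w u w') (ec : ∀ {x y : W1}, K1.E x y → K1.EC x y)
    (nbt : ∀ {n v k : W1}, K1.Cor n v k → n ≠ k)
    (pc : ∀ {v n a : W1}, K1.ar n v → K1.ar v a → ∃ k, K1.PC v n k ∧ K1.ar k v ∧ K1.Cor k v a)
    (sql : ∀ {a q b y : W1}, Q4 P1 a q b y → u ∈ M.J a → u ∈ M.J q → u ∈ M.J b → u ∈ M.J y →
      ∃ a' q' b' y', Q4 S.P a' q' b' y' ∧ M.f a' = a ∧ M.f q' = q ∧ M.f b' = b ∧ M.f y' = y)
    (rev : ∀ v1, (¬ ∃ x, M.f x = v1) → M.J v1 = {u} → ∃ g : H, g • v1 = v1 ∧ g • w = w') :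
    M.sys.Plc w u w' where
  mp :=
    { mid := ⟨h.mp.mid.hw, h.mp.mid.hw', h.mp.mid.ne, h.mp.mid.val⟩
      ec := ec
      nbt := nbt
      pc := pc
      nc := by
        intro a1 q1 b1 y1 z1 hq hc
        obtain ⟨a, q, b, y, z, hq', rfl, rfl, rfl, rfl, rfl⟩ := M.pent_lift _ _ _ _ _ hq
        exact h.mp.nc hq' (M.isC5' hc)
      nsq := by
        intro a1 q1 b1 y1 hq ha hq1 hb hy
        obtain ⟨a, q, b, y, hq', rfl, rfl, rfl, rfl⟩ := sql hq ha hq1 hb hy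
        rw [M.sys_J] at ha hq1 hb hy
        exact h.mp.nsq hq' ha hq1 hb hy
      snk := by
        intro z1 hz hu
        by_cases hx : ∃ x, M.f x = z1
        · obtain ⟨z, rfl⟩ := hx
          rw [M.sys_J] at hu ⊢
          exact h.mp.snk z (M.sink hz) hu
        · obtain ⟨⟨a, ha⟩, -⟩ := M.bare z1 hx
          exact absurd ha (hz a) }
  one := h.one
  ne := h.ne
  rev := by
    intro v1 hv
    by_cases hx : ∃ x, M.f x = v1
    · obtain ⟨x, rfl⟩ := hx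
      rw [M.sys_J] at hv
      obtain ⟨g, h1, h2⟩ := h.rev x hv
      exact ⟨g, by rw [← M.f_smul, h1], h2⟩
    · exact rev v1 hx hv

end Dsc

end Pool.Agent.DI
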