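import Pool.Agent.DI.DscP
import Pool.Agent.DI.SysP
import Pool.Agent.DI.XtB

/-!
# DI/DscQ: the midpoint in the descent, without squares

* `Dsc.nsq`: no square of `K1` over the midpoint (nothing of `K` sits at `u`; the vertices outside the
  image are in `E`; two of them are never opposite in a square). `Dsc.sql` is the input of `Dsc.plc`.
* `Dsc.bare_of_u`: the vertices over the midpoint are not in the image.
* `Mid.rev_of`: an element which fixes `u` and moves a point `p` through `u` exchanges `w` and `w'`.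
-/

namespace Pool.Agent.DI

open MulAction
open Pool.Agent.SAF (InC SA orbs FinOrb oc Decomp SAn Conv exists_next)
open Pool.Agent.BT (PX PQ JS bey exits Ell mst)

namespace SyQ

variable {H V : Type} [Group H] [MulAction H V] {S : SyQ H V}

/-- an element which fixes `u` and moves `p` to the other side of `u` exchanges `w` and `w'` -/
theorem Mid.rev_of {w u w' : S.X} (m : S.Mid w u w') {g : H} {p p' : S.X} (hu : g • u = u)
    (hp : g • p = p') (hne : p ≠ u) (hd : S.D.G.dist p p' = S.D.G.dist p u + S.D.G.dist u p') :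
    g • w = w' ∧ g • w' = w := by
  rcases m.cases hu with ⟨h1, h2⟩ | h
  · exfalso
    have ds : ∀ a b : S.X, S.D.G.dist (g • a) (g • b) = S.D.G.dist a b :=
      fun a b => S.D.tact.dist_smul g a b
    obtain ⟨t, ht, e1⟩ := exists_next S.D.tree (fun e => hne e.symm : u ≠ p)
    have ht' : g • t = t := by
      rcases m.val t ht with rfl | rfl
      · exact h1
      · exact h2
    have e2 : S.D.G.dist u p' = S.D.G.dist u p := by
      have := ds u p
      rwa [hu, hp] at this
    have e3 : S.D.G.dist t p' = S.D.G.dist t p := by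
      have := ds t p
      rwa [ht', hp] at this
    have e4 := S.D.tree.connected.dist_triangle (u := p) (v := t) (w := p')
    have e5 : S.D.G.dist p t = S.D.G.dist t p := SimpleGraph.dist_comm
    have e6 : S.D.G.dist p u = S.D.G.dist u p := SimpleGraph.dist_comm
    omega
  · exact h

end SyQ

namespace Dsc

variable {H W W1 : Type} [Group H] [MulAction H W] [MulAction H W1] {S : SyQ H W}
  {K1 : GX H W1} {P1 : P45 K1} (M : Dsc S K1 P1)

/-- a soft over `u` with two poles over `u` sits at `u` -/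
theorem J_at {T : SyQ H W1} {u : T.X} {x a b : W1} (hab : a ≠ b) (ha : T.K.ar x a)
    (hb : T.K.ar x b) (hx : u ∈ T.J x) (hua : u ∈ T.J a) (hub : u ∈ T.J b) : T.J x = {u} := by
  ext p
  constructor
  · intro hp
    by_contra hne
    obtain ⟨t, k1, k2, -⟩ := SyQ.ex_nbp hx hp (fun e => hne e.symm)
    obtain ⟨c, hc, hJc⟩ := T.js.cross x ⟨a, ha⟩ u t k1 hx k2
    have huc : u ∈ T.J c := by
      rcases GX.Sft.cases ha hb hab hc with rfl | rfl
      · exact hua
      · exact hub
    exact Pool.Agent.BT.bey_irr_l (hJc huc)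
  · rintro rfl
    exact hx

/-- NO SQUARE OVER THE MIDPOINT -/
theorem nsq {E : W1 → Prop} (hs : P1.SqE E) {u : S.X} (hvoid : ∀ x, S.J x ≠ {u})
    (hE : ∀ v, (¬ ∃ x, M.f x = v) → E v)
    (hbb : ∀ a v b v', (¬ ∃ x, M.f x = v) → (¬ ∃ x, M.f x = v') → ¬ Q4 P1 a v b v')
    {a q b y : W1} (hq : Q4 P1 a q b y) (ha : u ∈ M.J a) (hq' : u ∈ M.J q)
    (hb : u ∈ M.J b) (hy : u ∈ M.J y) : False := by
  have im : ∀ v, M.J v = {u} → ¬ ∃ x, M.f x = v := by
    rintro v hv ⟨x, rfl⟩
    rw [M.J_f] at hv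
    exact hvoid x hv
  have key : ∀ {T a b y : W1}, P1.Top T a b y → u ∈ M.J T → u ∈ M.J a →
      u ∈ M.J b → u ∈ M.J y → False := by
    intro T a b y ht h1 h2 h3 h4
    have hab := hs.nab _ _ _ _ ht
    have hJT : M.J T = {u} := J_at (T := M.sys) hab ht.2.1 ht.2.2 h1 h2 h3
    have hT := im T hJT
    have ha' : K1.ar y a := hs.Ea _ _ _ _ ht (hE T hT)
    have hb' : K1.ar y b := hs.Ea _ _ _ _ ht.symm' (hE T hT)
    have hJy : M.J y = {u} := J_at (T := M.sys) hab ha' hb' h4 h2 h3
    exact hbb _ _ _ _ hT (im y hJy) ht.1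
  rcases hs.exists_top hq with h | h | h | h
  · exact key h hq' ha hb hy
  · exact key h hb hq' hy ha
  · exact key h hy hb ha hq'
  · exact key h ha hy hq' hb

/-- the input `sql` of `Dsc.plc` -/
theorem sql {E : W1 → Prop} (hs : P1.SqE E) {u : S.X} (hvoid : ∀ x, S.J x ≠ {u})
    (hE : ∀ v, (¬ ∃ x, M.f x = v) → E v)
    (hbb : ∀ a v b v', (¬ ∃ x, M.f x = v) → (¬ ∃ x, M.f x = v') → ¬ Q4 P1 a v b v')
    {a q b y : W1} (hq : Q4 P1 a q b y) (ha : u ∈ M.J a) (hq' : u ∈ M.J q)
    (hb : u ∈ M.J b) (hy : u ∈ M.J y) :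
    ∃ a' q' b' y', Q4 S.P a' q' b' y' ∧ M.f a' = a ∧ M.f q' = q ∧ M.f b' = b ∧ M.f y' = y :=
  (M.nsq hs hvoid hE hbb hq ha hq' hb hy).elim

/-- the vertices over the midpoint are the bare ones -/
theorem bare_of_u {u : S.X} (hvoid : ∀ x, S.J x ≠ {u}) {v : W1} (hv : M.J v = {u}) :
    ¬ ∃ x, M.f x = v := by
  rintro ⟨x, rfl⟩
  rw [M.J_f] at hv
  exact hvoid x hv

end Dsc

end Pool.Agent.DI
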