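import Pool.Agent.DI.DscN
import Pool.Agent.DI.DscQ
import Pool.Agent.DI.OpnPc

/-!
# DI/DscR: the placement over the midpoint, on the step complex

`Stp.rev_br`: a vertex outside the image over the midpoint is reversed. `Stp.plc`: `SyQ.Plc` for the
system on the step complex.
-/

namespace Pool.Agent.DI

open MulAction
open Pool.Agent.SAF (InC SA orbs FinOrb oc Decomp SAn Conv FinOrb_iff exists_next)
open Pool.Agent.BT (PX PQ JS bey exits Ell mst x_next_unique)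
open Pool.Agent.BT.TA

namespace OpMap.Stp

variable {H V W W1 : Type} [Group H] [MulAction H V] [MulAction H W] [MulAction H W1]
  {K : GX H V} {P : P45 K} {O : OpW K W} {O1 : OpW K W1} {m : OpMap O O1} {D : Decomp H}
  {J : W → Set D.X} {σ : V → D.X} (s : m.Stp J)

include s

/-- A VERTEX OUTSIDE THE IMAGE OVER THE MIDPOINT IS REVERSED -/
theorem rev_br {js : JS (O.p45 P).pq D J} {hc : (SyQ.mk O.gx (O.p45 P) D J js).Conn}
    {tw : W → W → Prop} {Tp : W → Prop} {pt : W → W} {Z : W → Prop}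
    (r : (SyQ.mk O.gx (O.p45 P) D J js).RK hc tw Tp pt Z) (ht : O.Tw) (sg : Sig O J σ)
    {w u w' : D.X} (md : (SyQ.mk O.gx (O.p45 P) D J js).Mid w u w') {v : W1} (hv : ¬ m.Im v)
    (hu : m.J1 J σ v = {u}) : ∃ g : H, g • v = v ∧ g • w = w' := by
  rw [J1_br hv] at hu
  have hu : σ (O1.π v) = u := Set.singleton_injective hu
  have hE := s.br _ hv
  obtain ⟨k, L, L', h1, ⟨x, e1, e2⟩, ⟨x', e1', e2'⟩, h4, h5⟩ := id hE
  have e1 : O.π x = O1.π v := e1
  have e2 : J x = L := e2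
  have e1' : O.π x' = O1.π v := e1'
  have e2' : J x' = L' := e2'
  have hne : J x ≠ J x' := fun e => h4 (e2.symm.trans (e.trans e2'))
  obtain ⟨a, b, hab, ha, hb⟩ := SyQ.part_poles ht (e1.trans e1'.symm) (fun e => hne (by rw [e]))
  obtain ⟨p, p', s0, t, hp, hp', -, c1, -, -, -, -, -, -, -, k1, k2, k3, k4, k5⟩ :=
    Mid.dir r (e1.trans e1'.symm) hne ha hb hab (c := u) (by
      rw [e1, ← hu]
      exact sg.mid _ hE)
  have hkv : k • v = v := by
    refine s.uni _ _ (fun h => hv ((Im.smul_iff k).1 h)) hv ?_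
    rw [O1.π_smul, h1]
  have hku : k • u = u := by
    rw [← hu, ← sg.smul _ hE, h1]
  have hkp : k • p = p' := by
    have l1 : L = Lab.pt p := e2.symm.trans hp
    have l2 : L' = Lab.pt p' := e2'.symm.trans hp'
    rw [l1, l2, Lab.smul_pt] at h5
    exact Set.singleton_injective h5
  refine ⟨k, hkv, ?_⟩
  rcases md.cases hku with ⟨q1, q2⟩ | ⟨q1, -⟩
  · exfalso
    have hs : k • s0 = s0 := by
      rcases md.val s0 k1 with rfl | rfl
      · exact q1
      · exact q2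
    have d1 : D.G.dist p' u = D.G.dist p u := by
      have := D.tact.dist_smul k p u
      rwa [hku, hkp] at this
    have d2 : D.G.dist p' s0 = D.G.dist p s0 := by
      have := D.tact.dist_smul k p s0
      rwa [hs, hkp] at this
    refine k3 (next_unique D.tree k1 k2 (b := p') ?_ ?_)
    · rw [SimpleGraph.dist_comm, d1, k4, ← d2, SimpleGraph.dist_comm]
    · rw [SimpleGraph.dist_comm, k5, SimpleGraph.dist_comm]
  · exact q1

/-- THE PLACEMENT OVER THE MIDPOINT on the step complex -/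
theorem plc {js : JS (O.p45 P).pq D J} {hc : (SyQ.mk O.gx (O.p45 P) D J js).Conn}
    {tw : W → W → Prop} {Tp : W → Prop} {pt : W → W} {Z : W → Prop}
    (r : (SyQ.mk O.gx (O.p45 P) D J js).RK hc tw Tp pt Z) (hT : P.SqT) (ht : O.Tw) (hf : O.DF)
    (sg : Sig O J σ) (lc : ∀ v, K.LC v) (bad : ¬ SA H) (nb : ∀ e : K.LE, K.c0 e ≠ K.c2 e)
    (pc : ∀ {v n a : V}, K.ar n v → K.ar v a → ∃ k, K.PC v n k ∧ K.ar k v ∧ K.Cor k v a)
    {w u w' : D.X} (h : (SyQ.mk O.gx (O.p45 P) D J js).Plc w u w') (hvoid : ∀ x, J x ≠ {u}) :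
    (s.dsc P js ht hf sg).sys.Plc w u w' :=
  (s.dsc P js ht hf sg).plc h (fun e => O1.gx.EC_of_E (O1.gx_lc (s.tw ht) lc) bad e)
    (fun h => O1.nbt_up nb s.ne h) (fun h1 h2 => O1.pc_up (s.tw ht) pc h1 h2)
    (fun hq ha hq' hb hy => (s.dsc P js ht hf sg).sql
      (O1.sqE P hT (s.nt r hT) s.ne s.jo) hvoid (fun _ hv => Or.inl (s.nIm_dbl hv))
      (fun _ _ _ _ hv hv' => s.hbb js hv hv') hq ha hq' hb hy)
    (fun _ hv hu => s.rev_br r ht sg h.mp.mid hv hu)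

/-- the second field `alt` -/
theorem alt {js : JS (O.p45 P).pq D J} {hc : (SyQ.mk O.gx (O.p45 P) D J js).Conn}
    {tw : W → W → Prop} {Tp : W → Prop} {pt : W → W} {Z : W → Prop}
    (r : (SyQ.mk O.gx (O.p45 P) D J js).RK hc tw Tp pt Z) (hT : P.SqT) (ht : O.Tw) (hf : O.DF)
    (sg : Sig O J σ) (lc : ∀ v, K.LC v) (bad : ¬ SA H) (nb : ∀ e : K.LE, K.c0 e ≠ K.c2 e)
    (pc : ∀ {v n a : V}, K.ar n v → K.ar v a → ∃ k, K.PC v n k ∧ K.ar k v ∧ K.Cor k v a)
    {w : D.X}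
    (h : (∀ x y : D.X, ∃ h : H, h • x = y) ∨ ∃ (u w' : D.X) (b : H),
      (SyQ.mk O.gx (O.p45 P) D J js).Plc w u w' ∧ InC ↥(stabilizer H u) ∧ b • u = u ∧
      b • w = w' ∧ ∀ v, J v ≠ {u}) :
    (∀ x y : D.X, ∃ h : H, h • x = y) ∨ ∃ (u w' : D.X) (b : H),
      (s.dsc P js ht hf sg).sys.Plc w u w' ∧ InC ↥(stabilizer H u) ∧ b • u = u ∧ b • w = w' :=
  h.imp_right fun ⟨u, w', b, h1, h2, h3, h4, h5⟩ =>
    ⟨u, w', b, s.plc r hT ht hf sg lc bad nb pc h1 h5, h2, h3, h4⟩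

end OpMap.Stp

end Pool.Agent.DI
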