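import Pool.Agent.DI.OvP

/-!
# DI/Plc: placement over the midpoints (note 2964 (2))

`Um u`: the vertices over the orbit of `u` which are not reversed. They are moved to a neighbour
`σ v` of the midpoint which lies in the subtrees of all poles (`PlS`); pages on that side lose the
midpoint, pages on the other side gain `σ v` (`PlS.J'`). `PlS.J'_js`: this is again a system of
subtrees on the same tree. `exists_move`: there are such data; in the new system all vertices over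
the orbit of `u` are reversed.
-/

namespace Pool.Agent.DI

open MulAction
open Pool.Agent.SAF (InC SA orbs FinOrb oc Decomp SAn Conv exists_next)
open Pool.Agent.BT (PX PQ JS bey exits Ell mst x_next_unique bey_irr_l)
open Pool.Agent.BT.TA (bey_or bey_not bey_self conv_cr conv_sd conv_union)

/-- an equivariant choice -/
theorem exists_sigma {H V X : Type} [Group H] [MulAction H V] [MulAction H X] [Nonempty X]
    (M : Set V) (hM : ∀ (g : H) v, v ∈ M → g • v ∈ M) (R : V → X → Prop)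
    (hR : ∀ (g : H) v t, R v t → R (g • v) (g • t))
    (hex : ∀ v ∈ M, ∃ t, R v t ∧ ∀ g : H, g • v = v → g • t = t) :
    ∃ σ : V → X, (∀ v ∈ M, R v (σ v)) ∧ ∀ v ∈ M, ∀ g : H, σ (g • v) = g • σ v := by
  classical
  have h1 : ∀ o : orbitRel.Quotient H V, ∃ t : X, Quotient.out o ∈ M →
      R (Quotient.out o) t ∧ ∀ g : H, g • Quotient.out o = Quotient.out o → g • t = t := by
    intro o
    by_cases ho : Quotient.out o ∈ M
    · obtain ⟨t, ht⟩ := hex _ ho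
      exact ⟨t, fun _ => ht⟩
    · exact ⟨Classical.arbitrary X, fun h => absurd h ho⟩
  choose τ hτ using h1
  have h2 : ∀ x : V, ∃ g : H, g • Quotient.out (Quotient.mk'' x : orbitRel.Quotient H V) = x := by
    intro x
    have e : (Quotient.mk'' (Quotient.out (Quotient.mk'' x : orbitRel.Quotient H V)) :
        orbitRel.Quotient H V) = Quotient.mk'' x := Quotient.out_eq _
    obtain ⟨g, hg⟩ := Pool.Agent.SAF.mk_eq_iff.1 e
    exact ⟨g⁻¹, by rw [← hg, inv_smul_smul]⟩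
  choose γ hγ using h2
  have hout : ∀ v ∈ M, Quotient.out (Quotient.mk'' v : orbitRel.Quotient H V) ∈ M := by
    intro v hv
    have := hM (γ v)⁻¹ v hv
    rwa [inv_smul_eq_iff.2 (hγ v).symm] at this
  refine ⟨fun v => γ v • τ (Quotient.mk'' v), ?_, ?_⟩
  · intro v hv
    have := hR (γ v) _ _ (hτ _ (hout v hv)).1
    rwa [hγ] at this
  · intro v hv h
    have e1 : (Quotient.mk'' (h • v) : orbitRel.Quotient H V) = Quotient.mk'' v :=
      Pool.Agent.SAF.mk_eq_iff.2 ⟨h, rfl⟩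
    have e2 := hγ (h • v)
    have e3 := hγ v
    show γ (h • v) • τ (Quotient.mk'' (h • v)) = h • γ v • τ (Quotient.mk'' v)
    rw [e1] at e2 ⊢
    have h5 := (hτ _ (hout v hv)).2 ((h * γ v)⁻¹ * γ (h • v)) (by
      rw [mul_smul, e2, mul_inv_rev, mul_smul, inv_smul_smul, inv_smul_eq_iff, e3])
    rw [mul_smul, inv_smul_eq_iff, mul_smul] at h5
    exact h5

section Tree

variable {X : Type} {G : SimpleGraph X}

theorem plc_edge (hG : G.IsTree) {c r : X} (h : G.Adj c r) : Conv G {c, r} := by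
  have e1 : G.dist c r = 1 := SimpleGraph.dist_eq_one_iff_adj.2 h
  have z : ∀ a b : X, G.dist a b = 0 → a = b := fun a b e =>
    (hG.connected.dist_eq_zero_iff).1 e
  intro a ha b hb z' hz
  have e2 : G.dist r c = 1 := SimpleGraph.dist_eq_one_iff_adj.2 h.symm
  rcases Nat.eq_zero_or_pos (G.dist a z') with k | k
  · rw [← z _ _ k]
    exact ha
  rcases Nat.eq_zero_or_pos (G.dist z' b) with l | l
  · rw [z _ _ l]
    exact hb
  exfalso
  rcases ha with rfl | rfl <;> rcases hb with rfl | rfl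
  · rw [SimpleGraph.dist_self] at hz
    omega
  · omega
  · omega
  · rw [SimpleGraph.dist_self] at hz
    omega

/-- an edge which crosses an edge is this edge -/
theorem bey_cross (hG : G.IsTree) {y y' p z : X} (h : G.Adj y y') (hp : p ∈ bey G y y')
    (hz : z ∈ bey G y' y) (hpz : G.Adj p z) : p = y' ∧ z = y := by
  have h3 := conv_cr hG (plc_edge hG hpz) h (a := z) (b := p) (Or.inr rfl) (Or.inl rfl) hz hp
  have hyp : y ≠ p := by
    rintro rfl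
    exact bey_irr_l hp
  have hyz : y = z := h3.1.resolve_left hyp
  refine ⟨?_, hyz.symm⟩
  rcases h3.2 with e | e
  · exact e.symm
  · exact absurd (hyz.trans (show y' = z from e).symm) h.ne

/-- nested sides -/
theorem bey_sub (hG : G.IsTree) {y p s : X} (h : G.Adj y p) (h' : G.Adj p s) (hne : y ≠ s) :
    bey G p s ⊆ bey G y p := by
  intro z hz
  rcases bey_or hG h z with k | k
  · exact k
  · exact absurd (x_next_unique hG h.symm h' k hz) hne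

/-- adding vertices adjacent to a convex set -/
theorem conv_add (hG : G.IsTree) {A B : Set X} (hA : Conv G A)
    (hB : ∀ b ∈ B, ∃ c ∈ A, G.Adj c b) : Conv G (A ∪ B) := by
  have key : ∀ y ∈ A ∪ B, ∃ C, Conv G C ∧ A ⊆ C ∧ y ∈ C ∧ C ⊆ A ∪ B ∧ A.Nonempty := by
    rintro y (hy | hy)
    · exact ⟨A, hA, subset_rfl, hy, Set.subset_union_left, ⟨y, hy⟩⟩
    · obtain ⟨c, hc, hcy⟩ := hB y hy
      refine ⟨A ∪ {c, y}, conv_union hG hA (plc_edge hG hcy) hc (Or.inl rfl),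
        Set.subset_union_left, Or.inr (Or.inr rfl), ?_, ⟨c, hc⟩⟩
      rintro z (hz | rfl | rfl)
      · exact Or.inl hz
      · exact Or.inl hc
      · exact Or.inr hy
  intro a ha b hb z hz
  obtain ⟨C1, k1, k2, k3, k4, ⟨p, hp⟩⟩ := key a ha
  obtain ⟨C2, l1, l2, l3, l4, -⟩ := key b hb
  rcases conv_union hG k1 l1 (k2 hp) (l2 hp) a (Or.inl k3) b (Or.inr l3) z hz with h | h
  · exact k4 h
  · exact l4 h

end Tree

namespace Sys

variable {H V : Type} [Group H] [MulAction H V] {S : Sys H V}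

/-- the structure over a midpoint is invariant -/
theorem Mp.smul {w u w' : S.X} (m : S.Mp w u w') (g : H) : S.Mp (g • w) (g • u) (g • w') where
  hm := m.hm
  lc := m.lc
  bad := m.bad
  mid := ⟨S.D.adj_smul g _ _ m.mid.hw, S.D.adj_smul g _ _ m.mid.hw',
    fun e => m.mid.ne (smul_left_cancel g e), by
    intro z hz
    have := S.D.adj_smul g⁻¹ _ _ hz
    rw [inv_smul_smul] at this
    rcases m.mid.val _ this with h | h
    · left
      rw [← h, smul_inv_smul]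
    · right
      rw [← h, smul_inv_smul]⟩
  nc := by
    intro a q b y z hp hc
    have h1 := Pn.smul g⁻¹ hp
    have h2 := hc.smul g⁻¹
    rw [inv_smul_smul] at h2
    exact m.nc h1 h2
  snk := by
    intro z hz hu
    have h1 : u ∈ S.J (g⁻¹ • z) := by
      have := S.js.smul g⁻¹ _ _ hu
      rwa [inv_smul_smul] at this
    have h2 : ∀ a, ¬ S.K.ar (g⁻¹ • z) a := by
      intro a ha
      have := S.K.ar_smul g _ _ ha
      rw [smul_inv_smul] at this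
      exact hz _ this
    obtain ⟨k1, k2⟩ := m.snk _ h2 h1
    have k1 := S.js.smul g _ _ k1
    have k2 := S.js.smul g _ _ k2
    rw [smul_inv_smul] at k1 k2
    exact ⟨k1, k2⟩

variable (S) in
/-- the vertices over the orbit of `u` which are not reversed -/
def Um (u : S.X) : Set V := {v | ∃ g : H, S.J v = {g • u} ∧
  ∀ k : H, k • v = v → ∀ t, S.D.G.Adj (g • u) t → k • t = t}

theorem Um_smul {u : S.X} (g : H) {v : V} (hv : v ∈ S.Um u) : g • v ∈ S.Um u := by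
  obtain ⟨h, h1, h2⟩ := hv
  refine ⟨g * h, ?_, ?_⟩
  · rw [mul_smul]
    exact J_sing h1
  · intro k hk t ht
    have e1 : (g⁻¹ * k * g) • v = v := by
      rw [mul_smul, mul_smul, hk, inv_smul_smul]
    have e2 : S.D.G.Adj (h • u) (g⁻¹ • t) := by
      have := S.D.adj_smul g⁻¹ _ _ ht
      rwa [mul_smul, inv_smul_smul] at this
    have e3 := h2 _ e1 _ e2
    rw [mul_smul, mul_smul, smul_inv_smul] at e3
    exact smul_left_cancel g⁻¹ e3

/-- data of the move -/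
structure PlS (S : Sys H V) (w u w' : S.X) where
  mp : S.Mp w u w'
  bip : ∀ a b, S.D.G.Adj a b → (∃ g : H, g • u = a) ∨ (∃ g : H, g • u = b)
  hn : ∀ g : H, g • w ≠ u
  hn' : ∀ g : H, g • w' ≠ u
  σ : V → S.X
  adj : ∀ v ∈ S.Um u, ∀ p, S.J v = {p} → S.D.G.Adj p (σ v)
  pole : ∀ v ∈ S.Um u, ∀ a, S.K.ar v a → σ v ∈ S.J a
  sm : ∀ v ∈ S.Um u, ∀ g : H, σ (g • v) = g • σ v

namespace PlS

variable {w u w' : S.X} (Q : PlS S w u w')

/-- removed vertices -/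
def Rm (x : V) (y : S.X) : Prop := ∃ v ∈ S.Um u, S.K.ar x v ∧ S.J v = {y} ∧ Q.σ v ∈ S.J x

/-- added vertices -/
def Ad (x : V) (y : S.X) : Prop := ∃ v ∈ S.Um u, S.K.ar x v ∧ Q.σ v = y ∧ y ∉ S.J x

/-- the new subtrees -/
def J' (x : V) : Set S.X := {y | (x ∈ S.Um u ∧ y = Q.σ x) ∨
  (x ∉ S.Um u ∧ ((y ∈ S.J x ∧ ¬ Q.Rm x y) ∨ Q.Ad x y))}

include Q in
theorem not_T {a b : S.X} (h : S.D.G.Adj a b) (ha : ∃ g : H, g • u = a) :
    ¬ ∃ g : H, g • u = b := by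
  rintro ⟨k, rfl⟩
  obtain ⟨g, rfl⟩ := ha
  have := S.D.adj_smul g⁻¹ _ _ h
  rw [inv_smul_smul, ← mul_smul] at this
  rcases Q.mp.mid.val _ this with e | e
  · exact Q.hn ((g⁻¹ * k)⁻¹) (by rw [← e, inv_smul_smul])
  · exact Q.hn' ((g⁻¹ * k)⁻¹) (by rw [← e, inv_smul_smul])

theorem um_T {v : V} (hv : v ∈ S.Um u) {p : S.X} (hp : S.J v = {p}) : ∃ g : H, g • u = p := by
  obtain ⟨g, h1, -⟩ := hv
  exact ⟨g, Set.singleton_injective (h1.symm.trans hp)⟩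

theorem um_J {v : V} (hv : v ∈ S.Um u) : ∃ p, S.J v = {p} := by
  obtain ⟨g, h1, -⟩ := hv
  exact ⟨_, h1⟩

theorem mpv {v : V} (hv : v ∈ S.Um u) {p : S.X} (hp : S.J v = {p}) :
    ∃ s', S.Mp (Q.σ v) p s' := by
  obtain ⟨g, rfl⟩ := um_T hv hp
  have m := Q.mp.smul g
  rcases m.mid.val _ (Q.adj v hv _ hp) with e | e
  · exact ⟨g • w', by rw [e]; exact m⟩
  · exact ⟨g • w, by rw [e]; exact m.symm⟩

theorem σ_nT {v : V} (hv : v ∈ S.Um u) : ¬ ∃ g : H, g • u = Q.σ v := by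
  obtain ⟨p, hp⟩ := um_J hv
  exact Q.not_T (Q.adj v hv p hp) (um_T hv hp)

/-- vertices over `p` which are not moved are reversed -/
theorem rev {y : V} {p s s' : S.X} (m : S.Mp s p s') (hy : y ∉ S.Um u)
    (hT : ∃ g : H, g • u = p) (h : S.J y = {p}) : ∃ k : H, k • y = y ∧ k • s = s' := by
  by_contra hcon
  push Not at hcon
  apply hy
  obtain ⟨g, rfl⟩ := hT
  refine ⟨g, h, ?_⟩
  intro k hk t ht
  have hu : k • g • u = g • u := by
    have h3 := J_sing (g := k) h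
    rw [hk, h] at h3
    exact (Set.singleton_injective h3).symm
  rcases m.mid.cases hu with h1 | h1
  · rcases m.mid.val t ht with rfl | rfl
    exacts [h1.1, h1.2]
  · exact absurd h1.1 (hcon k hk)

include Q in
/-- neighbours of moved vertices are not moved -/
theorem nb_not {v y : V} (hv : v ∈ S.Um u) (e : S.K.E v y) : y ∉ S.Um u := by
  intro hy
  obtain ⟨p, hp⟩ := um_J hv
  obtain ⟨q, hq⟩ := um_J hy
  obtain ⟨s', m⟩ := Q.mpv hv hp
  obtain ⟨h1, h2⟩ := m.nb hp e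
  rw [hq] at h1 h2
  have h1 : p = q := h1
  subst h1
  rcases h2 with h2 | h2
  · exact m.mid.hw.ne h2.symm
  · exact m.mid.hw'.ne h2.symm

variable {Q}

theorem Rm.dat {x : V} {p : S.X} (h : Q.Rm x p) : ∃ v ∈ S.Um u, ∃ s', S.Mp (Q.σ v) p s' ∧
    S.J v = {p} ∧ S.K.ar x v ∧ Q.σ v ∈ S.J x ∧ p ∈ S.J x ∧ s' ∉ S.J x := by
  obtain ⟨v, hv, ha, hJ, hs⟩ := h
  obtain ⟨s', m⟩ := Q.mpv hv hJ
  exact ⟨v, hv, s', m, hJ, ha, hs, (m.nb hJ (Or.inr ha)).1, fun h => m.page_one hJ ha hs h⟩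

theorem Rm.T {x : V} {p : S.X} (h : Q.Rm x p) : ∃ g : H, g • u = p := by
  obtain ⟨v, hv, ha, hJ, hs⟩ := h
  exact um_T hv hJ

theorem Ad.dat {x : V} {y : S.X} (h : Q.Ad x y) : ∃ v ∈ S.Um u, ∃ p s', S.Mp y p s' ∧
    S.J v = {p} ∧ S.K.ar x v ∧ Q.σ v = y ∧ y ∉ S.J x ∧ p ∈ S.J x ∧ s' ∈ S.J x ∧
    S.J x ⊆ bey S.D.G y p := by
  obtain ⟨v, hv, ha, rfl, hs⟩ := h
  obtain ⟨p, hp⟩ := um_J hv
  obtain ⟨s', m⟩ := Q.mpv hv hp
  obtain ⟨h1, h2⟩ := m.nb hp (Or.inr ha)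
  refine ⟨v, hv, p, s', m, hp, ha, rfl, hs, h1, h2.resolve_left hs, ?_⟩
  exact conv_sd S.D.tree (S.js.conv x) m.mid.hw.symm (fun e => hs e.1) h1
    (bey_self m.mid.hw.symm)

theorem Ad.nT {x : V} {y : S.X} (h : Q.Ad x y) : ¬ ∃ g : H, g • u = y := by
  obtain ⟨v, hv, ha, rfl, hs⟩ := h
  exact Q.σ_nT hv

variable (Q)

theorem J'_um {x : V} (hx : x ∈ S.Um u) : Q.J' x = {Q.σ x} := by
  ext y
  constructor
  · rintro (⟨-, h⟩ | ⟨h, -⟩)
    · exact h
    · exact absurd hx h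
  · intro h
    exact Or.inl ⟨hx, h⟩

/-- vertices which are not in the orbit of `u` are kept -/
theorem J'_nT {x : V} (hx : x ∉ S.Um u) {y : S.X} (hy : y ∈ S.J x)
    (hT : ¬ ∃ g : H, g • u = y) : y ∈ Q.J' x :=
  Or.inr ⟨hx, Or.inl ⟨hy, fun h => hT h.T⟩⟩

/-- vertices in the orbit of `u` are not added -/
theorem J'_T {x : V} {y : S.X} (hy : y ∈ Q.J' x) (hT : ∃ g : H, g • u = y) :
    x ∉ S.Um u ∧ y ∈ S.J x ∧ ¬ Q.Rm x y := by
  rcases hy with ⟨hx, rfl⟩ | ⟨hx, h | h⟩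
  · exact absurd hT (Q.σ_nT hx)
  · exact ⟨hx, h⟩
  · exact absurd hT h.nT

theorem nbσ {v y : V} (hv : v ∈ S.Um u) (e : S.K.E v y) : Q.σ v ∈ Q.J' y := by
  have hy := Q.nb_not hv e
  by_cases h : Q.σ v ∈ S.J y
  · exact Q.J'_nT hy h (Q.σ_nT hv)
  · rcases e with e | e
    · exact absurd (Q.pole v hv y e) h
    · exact Or.inr ⟨hy, Or.inr ⟨v, hv, e, rfl, h⟩⟩

include Q in
/-- two moved poles of `x` over the same midpoint are equal -/
theorem pole_uniq {x v v' : V} {p : S.X} (hv : v ∈ S.Um u) (hv' : S.J v' = {p})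
    (h : S.J v = {p}) (ha : S.K.ar x v) (ha' : S.K.ar x v') : v = v' := by
  by_contra hne
  obtain ⟨s', m⟩ := Q.mpv hv h
  obtain ⟨h1, h2⟩ := m.nb h (Or.inr ha)
  have e1 : p ∈ S.J v := by rw [h]; rfl
  have e2 : p ∈ S.J v' := by rw [hv']; rfl
  rcases h2 with h2 | h2
  · exact Mp.exll ha ha' hne h1 e1 e2 m.mid.hw h2
  · exact Mp.exll ha ha' hne h1 e1 e2 m.mid.hw' h2

/-- the common point is kept -/
theorem one_mem {x y : V} {p : S.X} (e : S.K.E x y) (hx : x ∉ S.Um u) (hy : y ∉ S.Um u)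
    (p1 : p ∈ S.J x) (p2 : p ∈ S.J y) : p ∈ Q.J' x := by
  refine Or.inr ⟨hx, Or.inl ⟨p1, fun hR => ?_⟩⟩
  obtain ⟨v, hv, s', m, hJ, ha, hs, -, hs'⟩ := hR.dat
  rcases m.u1 x y e p1 p2 with h | h
  · rw [h] at hs
    exact m.mid.hw.ne hs.symm
  · rcases e with e | e
    · have hne : v ≠ y := fun k => hy (k ▸ hv)
      exact Mp.exll ha e hne p1 (by rw [hJ]; rfl) p2 m.mid.hw hs
    · obtain ⟨k, k1, k2⟩ := rev m hy hR.T h
      exact hs' (m.rev_pole h k1 k2 e).2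

/-- no new common points -/
theorem no_new {x y : V} {p r : S.X} (e : S.K.E x y) (hy : y ∉ S.Um u)
    (p1 : p ∈ S.J x) (p2 : p ∈ S.J y) (hr : Q.Ad x r) (hr' : r ∈ Q.J' y) : False := by
  obtain ⟨v, hv, q, s', m, hJ, ha, hσ, hn, hq, hs', hsub⟩ := hr.dat
  rcases hr' with ⟨h, -⟩ | ⟨-, ⟨h, -⟩ | h⟩
  · exact hy h
  · have h3 := conv_cr S.D.tree (S.js.conv y) m.mid.hw p2 h (hsub p1) (bey_self m.mid.hw)
    exact m.no_LL e.symm h3.1 h hq hs'
  · obtain ⟨v2, hv2, q2, s2, m2, hJ2, ha2, hσ2, hn2, hq2, hs2, hsub2⟩ := h.dat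
    by_cases hqq : q = q2
    · subst hqq
      have hs : s2 = s' := (m.mid.val s2 m2.mid.hw').resolve_left m2.mid.ne.symm
      subst hs
      exact m.mid.hw'.ne (S.one_eq e hq hq2 hs' hs2)
    · exact hqq (x_next_unique S.D.tree m.mid.hw.symm m2.mid.hw.symm (hsub p1) (hsub2 p2))

theorem J'_one {x y : V} (e : S.K.E x y) : ∃ p, Q.J' x ∩ Q.J' y = {p} := by
  by_cases hx : x ∈ S.Um u
  · refine ⟨Q.σ x, ?_⟩
    rw [Q.J'_um hx]
    ext z
    constructor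
    · exact fun h => h.1
    · rintro rfl
      exact ⟨rfl, Q.nbσ hx e⟩
  by_cases hy : y ∈ S.Um u
  · refine ⟨Q.σ y, ?_⟩
    rw [Q.J'_um hy]
    ext z
    constructor
    · exact fun h => h.2
    · rintro rfl
      exact ⟨Q.nbσ hy e.symm, rfl⟩
  obtain ⟨p, p1, p2⟩ := S.one_ex e
  refine ⟨p, ?_⟩
  ext r
  constructor
  · rintro ⟨h1, h2⟩
    rcases id h1 with ⟨h, -⟩ | ⟨-, ⟨h, -⟩ | h⟩
    · exact absurd h hx
    · rcases id h2 with ⟨h', -⟩ | ⟨-, ⟨h', -⟩ | h'⟩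
      · exact absurd h' hy
      · exact S.one_eq e h h' p1 p2
      · exact (Q.no_new e.symm hx p2 p1 h' h1).elim
    · exact (Q.no_new e hy p1 p2 h h2).elim
  · rintro rfl
    exact ⟨Q.one_mem e hx hy p1 p2, Q.one_mem e.symm hy hx p2 p1⟩

theorem J'_conv (x : V) : Conv S.D.G (Q.J' x) := by
  by_cases hx : x ∈ S.Um u
  · rw [Q.J'_um hx]
    exact Pool.Agent.BT.conv_singleton S.D.tree _
  have hA : Conv S.D.G {y | y ∈ S.J x ∧ ¬ Q.Rm x y} := by
    rintro a ⟨ha, ha'⟩ b ⟨hb, hb'⟩ z hz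
    have hzJ : z ∈ S.J x := S.js.conv x a ha b hb z hz
    refine ⟨hzJ, fun hR => ?_⟩
    obtain ⟨v, hv, s', m, hJ, har, hs, -, hs'⟩ := hR.dat
    have hza : z ≠ a := by
      rintro rfl
      exact ha' hR
    have hzb : z ≠ b := by
      rintro rfl
      exact hb' hR
    obtain ⟨t1, k1, k2⟩ := exists_next S.D.tree hza
    obtain ⟨t2, l1, l2⟩ := exists_next S.D.tree hzb
    have d1 : S.D.G.dist z t1 = 1 := SimpleGraph.dist_eq_one_iff_adj.2 k1
    have d2 : S.D.G.dist z t2 = 1 := SimpleGraph.dist_eq_one_iff_adj.2 l1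
    have c1 : S.D.G.dist a z = S.D.G.dist z a := SimpleGraph.dist_comm
    have c2 : S.D.G.dist a t1 = S.D.G.dist t1 a := SimpleGraph.dist_comm
    have c3 : S.D.G.dist t1 z = S.D.G.dist z t1 := SimpleGraph.dist_comm
    have c4 : S.D.G.dist b t2 = S.D.G.dist t2 b := SimpleGraph.dist_comm
    have c5 : S.D.G.dist b z = S.D.G.dist z b := SimpleGraph.dist_comm
    have c6 : S.D.G.dist t2 z = S.D.G.dist z t2 := SimpleGraph.dist_comm
    have m1 : t1 ∈ S.J x := S.js.conv x a ha z hzJ t1 (by omega)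
    have m2 : t2 ∈ S.J x := S.js.conv x b hb z hzJ t2 (by omega)
    have hne : t1 ≠ t2 := by
      rintro rfl
      have := S.D.tree.connected.dist_triangle (u := a) (v := t1) (w := b)
      omega
    exact Mp.exl har hzJ (by rw [hJ]; rfl) k1 l1 hne m1 m2
  have hB : ∀ b ∈ {y | Q.Ad x y}, ∃ c ∈ {y | y ∈ S.J x ∧ ¬ Q.Rm x y}, S.D.G.Adj c b := by
    intro b hb
    obtain ⟨v, hv, p, s', m, hJ, ha, hσ, hn, hp, hs', hsub⟩ := Ad.dat hb
    refine ⟨p, ⟨hp, ?_⟩, m.mid.hw⟩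
    rintro ⟨v2, hv2, ha2, hJ2, hs2⟩
    have : v = v2 := Q.pole_uniq hv hJ2 hJ ha ha2
    subst this
    rw [hσ] at hs2
    exact hn hs2
  have := conv_add S.D.tree hA hB
  have e : Q.J' x = {y | y ∈ S.J x ∧ ¬ Q.Rm x y} ∪ {y | Q.Ad x y} := by
    ext y
    constructor
    · rintro (⟨h, -⟩ | ⟨-, h⟩)
      · exact absurd h hx
      · exact h
    · intro h
      exact Or.inr ⟨hx, h⟩
  rw [e]
  exact this

theorem J'_ne (x : V) : (Q.J' x).Nonempty := by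
  by_cases hx : x ∈ S.Um u
  · exact ⟨Q.σ x, Or.inl ⟨hx, rfl⟩⟩
  obtain ⟨y, hy⟩ := S.js.ne x
  by_cases h : Q.Rm x y
  · obtain ⟨v, hv, ha, hJ, hs⟩ := h
    exact ⟨Q.σ v, Q.J'_nT hx hs (Q.σ_nT hv)⟩
  · exact ⟨y, Or.inr ⟨hx, Or.inl ⟨hy, h⟩⟩⟩

theorem um_iff (g : H) (v : V) : g • v ∈ S.Um u ↔ v ∈ S.Um u := by
  constructor
  · intro h
    have := Um_smul g⁻¹ h
    rwa [inv_smul_smul] at this
  · exact Um_smul g

theorem Rm_smul (g : H) {x : V} {y : S.X} (h : Q.Rm x y) : Q.Rm (g • x) (g • y) := by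
  obtain ⟨v, hv, ha, hJ, hs⟩ := h
  refine ⟨g • v, Um_smul g hv, S.K.ar_smul g _ _ ha, J_sing hJ, ?_⟩
  rw [Q.sm v hv]
  exact S.js.smul g _ _ hs

theorem J'_smul (g : H) (x : V) (y : S.X) (h : y ∈ Q.J' x) : g • y ∈ Q.J' (g • x) := by
  rcases h with ⟨hx, rfl⟩ | ⟨hx, ⟨h1, h2⟩ | ⟨v, hv, ha, rfl, hs⟩⟩
  · exact Or.inl ⟨Um_smul g hx, (Q.sm x hx g).symm⟩
  · refine Or.inr ⟨fun h => hx ((um_iff g x).1 h), Or.inl ⟨S.js.smul g _ _ h1, fun h => h2 ?_⟩⟩
    have := Q.Rm_smul g⁻¹ h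
    rwa [inv_smul_smul, inv_smul_smul] at this
  · refine Or.inr ⟨fun h => hx ((um_iff g x).1 h), Or.inr ⟨g • v, Um_smul g hv,
      S.K.ar_smul g _ _ ha, Q.sm v hv g, fun h => hs ?_⟩⟩
    have := S.js.smul g⁻¹ _ _ h
    rwa [inv_smul_smul, inv_smul_smul] at this

/-- a vertex of `J x` adjacent to an added vertex is the midpoint -/
theorem adj_ad {x : V} {r p q s' : S.X} (m : S.Mp r p s') (hsub : S.J x ⊆ bey S.D.G r p)
    (hq : q ∈ S.J x) (h : S.D.G.Adj r q) : q = p := by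
  refine x_next_unique S.D.tree h m.mid.hw.symm ?_ (hsub hq)
  rw [SimpleGraph.dist_self, SimpleGraph.dist_eq_one_iff_adj.2 h.symm]

/-- common points are old -/
theorem common {x y : V} {r : S.X} (e : S.K.E x y) (hx : x ∉ S.Um u) (hy : y ∉ S.Um u)
    (h1 : r ∈ Q.J' x) (h2 : r ∈ Q.J' y) : r ∈ S.J x ∧ r ∈ S.J y := by
  obtain ⟨p, p1, p2⟩ := S.one_ex e
  rcases id h1 with ⟨h, -⟩ | ⟨-, ⟨h, -⟩ | h⟩
  · exact absurd h hx
  · rcases id h2 with ⟨h', -⟩ | ⟨-, ⟨h', -⟩ | h'⟩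
    · exact absurd h' hy
    · exact ⟨h, h'⟩
    · exact (Q.no_new e.symm hx p2 p1 h' h1).elim
  · exact (Q.no_new e hy p1 p2 h h2).elim

theorem J'_cross {x : V} (hx : ∃ a, S.K.ar x a) {y y' : S.X} (h : S.D.G.Adj y y')
    (h1 : y ∈ Q.J' x) (h2 : y' ∈ Q.J' x) : ∃ a, S.K.ar x a ∧ Q.J' a ⊆ bey S.D.G y y' := by
  by_cases hxu : x ∈ S.Um u
  · rw [Q.J'_um hxu] at h1 h2
    exact absurd (h1.trans h2.symm) h.ne
  -- an old pole beyond `y y'` stays beyond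
  have keep : ∀ a, S.J a ⊆ bey S.D.G y y' →
      (a ∈ S.Um u → Q.σ a = y → S.J a = {y'} → False) →
      (Q.Ad a y → y' ∈ S.J a → False) → Q.J' a ⊆ bey S.D.G y y' := by
    intro a hJ hb1 hb2 z hz
    rcases hz with ⟨hau, rfl⟩ | ⟨-, ⟨hz, -⟩ | hz⟩
    · obtain ⟨p, hp⟩ := um_J hau
      rcases bey_or S.D.tree h (Q.σ a) with k | k
      · exact k
      · obtain ⟨e1, e2⟩ := bey_cross S.D.tree h (hJ (by rw [hp]; rfl)) k (Q.adj a hau p hp)
        exact (hb1 hau e2 (by rw [hp, e1])).elim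
    · exact hJ hz
    · obtain ⟨v, hv, p, s', m, hJv, hav, hσ, hn, hp, hs', hsub⟩ := Ad.dat hz
      rcases bey_or S.D.tree h z with k | k
      · exact k
      · obtain ⟨e1, e2⟩ := bey_cross S.D.tree h (hJ hp) k m.mid.hw
        rw [e2] at hz
        rw [e1] at hp
        exact (hb2 hz hp).elim
  rcases h1 with ⟨h1, -⟩ | ⟨-, ⟨h1, h1'⟩ | h1⟩
  · exact absurd h1 hxu
  · rcases h2 with ⟨h2, -⟩ | ⟨-, ⟨h2, h2'⟩ | h2⟩
    · exact absurd h2 hxu
    · obtain ⟨a, ha, hJ⟩ := S.js.cross x hx y y' h h1 h2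
      refine ⟨a, ha, keep a hJ ?_ ?_⟩
      · intro hau e1 e2
        exact h2' ⟨a, hau, ha, e2, by rw [e1]; exact h1⟩
      · intro hz hp
        obtain ⟨v, hv, p, s', m, hJv, hav, hσ, hn, hp', hs', hsub⟩ := Ad.dat hz
        have : y' = p := adj_ad m hsub hp h
        subst this
        exact m.no_LL (Or.inl ha) h2 h1 hp hs'
    · obtain ⟨v, hv, p, s', m, hJv, hav, hσ, hn, hp', hs', hsub⟩ := Ad.dat h2
      refine ⟨v, hav, ?_⟩
      rw [Q.J'_um hv, hσ]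
      rintro z rfl
      exact bey_self h
  · rcases h2 with ⟨h2, -⟩ | ⟨-, ⟨h2, h2'⟩ | h2⟩
    · exact absurd h2 hxu
    · obtain ⟨v, hv, p, s', m, hJv, hav, hσ, hn, hp', hs', hsub⟩ := Ad.dat h1
      have : y' = p := adj_ad m hsub h2 h
      subst this
      obtain ⟨a, ha, hJ⟩ := S.js.cross x hx y' s' m.mid.hw' hp' hs'
      have hn' : y' ∉ S.J a := fun k => bey_irr_l (hJ k)
      refine ⟨a, ha, keep a (fun z hz => bey_sub S.D.tree h m.mid.hw' m.mid.ne (hJ hz)) ?_ ?_⟩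
      · intro _ _ e2
        exact hn' (by rw [e2]; rfl)
      · intro _ hp
        exact hn' hp
    · rcases Q.bip y y' h with k | k
      · exact absurd k h1.nT
      · exact absurd k h2.nT

theorem J'_two (x : V) (w0 : S.X) (h0 : w0 ∈ Q.J' x) (s : V ⊕ S.X)
    (hs : s ∈ exits S.P.pq S.D.G Q.J' x w0) (t : V ⊕ S.X)
    (ht : t ∈ exits S.P.pq S.D.G Q.J' x w0) (r : V ⊕ S.X)
    (hr : r ∈ exits S.P.pq S.D.G Q.J' x w0) : s = t ∨ s = r ∨ t = r := by
  by_cases hxu : x ∈ S.Um u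
  · have key : ∀ s ∈ exits S.P.pq S.D.G Q.J' x w0, ∃ a, s = Sum.inl a ∧ S.K.ar x a := by
      rintro s (⟨a, rfl, ha, -⟩ | ⟨z, rfl, hz, hz'⟩)
      · exact ⟨a, rfl, ha⟩
      · rw [Q.J'_um hxu] at h0 hz'
        exact absurd (h0.trans hz'.symm) hz.ne
    obtain ⟨a, rfl, ha⟩ := key s hs
    obtain ⟨b, rfl, hb⟩ := key t ht
    obtain ⟨c, rfl, hc⟩ := key r hr
    rcases S.K.two x a b c ha hb hc with e | e | e
    · exact Or.inl (by rw [e])
    · exact Or.inr (Or.inr (by rw [e]))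
    · exact Or.inr (Or.inl (by rw [e]))
  rcases id h0 with ⟨h, -⟩ | ⟨-, ⟨h1, h1'⟩ | h1⟩
  · exact absurd h hxu
  · -- an old vertex
    let Rr : V ⊕ S.X → V ⊕ S.X → Prop := fun s s0 =>
      (∃ a, s = Sum.inl a ∧ s0 = Sum.inl a ∧ a ∉ S.Um u) ∨
      (∃ t, s = Sum.inr t ∧ s0 = Sum.inr t ∧ ¬ Q.Rm x t) ∨
      (∃ a p, a ∈ S.Um u ∧ s = Sum.inl a ∧ s0 = Sum.inr p ∧ S.J a = {p} ∧ S.K.ar x a ∧
        Q.σ a = w0) ∨
      (∃ v, v ∈ S.Um u ∧ s = Sum.inr (Q.σ v) ∧ s0 = Sum.inl v)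
    have key : ∀ s ∈ exits S.P.pq S.D.G Q.J' x w0, ∃ s0 ∈ exits S.P.pq S.D.G S.J x w0,
        Rr s s0 := by
      rintro s (⟨a, rfl, ha, hz⟩ | ⟨z, rfl, hz, hz'⟩)
      · have ha : S.K.ar x a := ha
        by_cases hau : a ∈ S.Um u
        · rw [Q.J'_um hau] at hz
          obtain ⟨p, hp⟩ := um_J hau
          obtain ⟨s', m⟩ := Q.mpv hau hp
          refine ⟨Sum.inr p, Or.inr ⟨p, rfl, ?_, (m.nb hp (Or.inr ha)).1⟩,
            Or.inr (Or.inr (Or.inl ⟨a, p, hau, rfl, rfl, hp, ha, hz.symm⟩))⟩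
          rw [show w0 = Q.σ a from hz]
          exact m.mid.hw.symm
        · refine ⟨Sum.inl a, Or.inl ⟨a, rfl, ha, (Q.common (Or.inl ha) hxu hau h0 hz).2⟩,
            Or.inl ⟨a, rfl, rfl, hau⟩⟩
      · rcases hz' with ⟨h, -⟩ | ⟨-, ⟨h2, h2'⟩ | h2⟩
        · exact absurd h hxu
        · exact ⟨Sum.inr z, Or.inr ⟨z, rfl, hz, h2⟩, Or.inr (Or.inl ⟨z, rfl, rfl, h2'⟩)⟩
        · obtain ⟨v, hv, p, s', m, hJv, hav, hσ, hn, hp', hs', hsub⟩ := Ad.dat h2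
          have : w0 = p := adj_ad m hsub h1 hz.symm
          subst this
          exact ⟨Sum.inl v, Or.inl ⟨v, rfl, hav, by rw [hJv]; rfl⟩,
            Or.inr (Or.inr (Or.inr ⟨v, hv, by rw [hσ], rfl⟩))⟩
    have inj : ∀ s t s0, Rr s s0 → Rr t s0 → s = t := by
      have half : ∀ t p a, ¬ Q.Rm x t → a ∈ S.Um u → S.J a = {p} → S.K.ar x a → Q.σ a = w0 →
          (Sum.inr t : V ⊕ S.X) = Sum.inr p → False := by
        intro t p a k1 k2 k3 k4 k5 e
        apply k1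
        rw [Sum.inr.inj e]
        exact ⟨a, k2, k4, k3, by rw [k5]; exact h1⟩
      rintro s t s0 (⟨a, rfl, rfl, k⟩ | ⟨z, rfl, rfl, k⟩ | ⟨a, p, k1, rfl, rfl, k2, k3, k4⟩ |
        ⟨v, k1, rfl, rfl⟩) (⟨b, rfl, e, l⟩ | ⟨z', rfl, e, l⟩ | ⟨b, q, l1, rfl, e, l2, l3, l4⟩ |
        ⟨v', l1, rfl, e⟩)
      · rw [Sum.inl.inj e]
      · cases e
      · cases e
      · exact absurd (Sum.inl.inj e ▸ l1) (by rw [← Sum.inl.inj e] at *; exact k)
      · cases e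
      · rw [Sum.inr.inj e]
      · exact (half z q b k l1 l2 l3 l4 e).elim
      · cases e
      · cases e
      · exact (half z' p a l k1 k2 k3 k4 e.symm).elim
      · have e' := Sum.inr.inj e
        subst e'
        rw [Q.pole_uniq k1 l2 k2 k3 l3]
      · cases e
      · exact absurd k1 (by rw [Sum.inl.inj e]; exact l)
      · cases e
      · cases e
      · rw [Sum.inl.inj e]
    obtain ⟨s0, m1, n1⟩ := key s hs
    obtain ⟨t0, m2, n2⟩ := key t ht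
    obtain ⟨r0, m3, n3⟩ := key r hr
    rcases S.js.two x w0 h1 s0 m1 t0 m2 r0 m3 with e | e | e
    · subst e
      exact Or.inl (inj _ _ _ n1 n2)
    · subst e
      exact Or.inr (Or.inl (inj _ _ _ n1 n3))
    · subst e
      exact Or.inr (Or.inr (inj _ _ _ n2 n3))
  · -- a new vertex
    obtain ⟨v, hv, p, s', m, hJv, hav, hσ, hn, hp', hs', hsub⟩ := Ad.dat h1
    have key : ∀ s ∈ exits S.P.pq S.D.G Q.J' x w0, s = Sum.inl v ∨ s = Sum.inr p := by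
      rintro s (⟨a, rfl, ha, hz⟩ | ⟨z, rfl, hz, hz'⟩)
      · have ha : S.K.ar x a := ha
        left
        by_cases hau : a ∈ S.Um u
        · rw [Q.J'_um hau] at hz
          obtain ⟨p2, hp2⟩ := um_J hau
          obtain ⟨s2, m2⟩ := Q.mpv hau hp2
          have hz : w0 = Q.σ a := hz
          have h3 : p2 = p := adj_ad m hsub (m2.nb hp2 (Or.inr ha)).1
            (by rw [hz]; exact m2.mid.hw.symm)
          subst h3
          rw [Q.pole_uniq hau hJv hp2 ha hav]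
        · exact absurd (Q.common (Or.inl ha) hxu hau h0 hz).1 hn
      · right
        rcases Q.bip w0 z hz with k | k
        · exact absurd k h1.nT
        · rw [adj_ad m hsub (Q.J'_T hz' k).2.1 hz]
    rcases key s hs with rfl | rfl <;> rcases key t ht with rfl | rfl <;>
      rcases key r hr with rfl | rfl <;> simp

/-- the old pair of a new pair -/
def New (x : V) (p r : S.X) : Prop := (x ∈ S.Um u ∧ S.J x = {p} ∧ r = Q.σ x) ∨
  (∃ v ∈ S.Um u, S.K.ar x v ∧ S.J v = {p} ∧ r = Q.σ v ∧ r ∉ S.J x)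

theorem New.uniq {x : V} {p r r' : S.X} (h : Q.New x p r) (h' : Q.New x p r') : r = r' := by
  rcases h with ⟨h1, h2, rfl⟩ | ⟨v, h1, h2, h3, rfl, h4⟩ <;>
    rcases h' with ⟨k1, k2, rfl⟩ | ⟨v', k1, k2, k3, rfl, k4⟩
  · rfl
  · exact absurd h1 (Q.nb_not k1 (Or.inr k2))
  · exact absurd k1 (Q.nb_not h1 (Or.inr h2))
  · rw [Q.pole_uniq h1 k3 h3 h2 k2]

theorem New.smul {x : V} {p r : S.X} (h : Q.New x p r) (g : H) :
    Q.New (g • x) (g • p) (g • r) := by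
  rcases h with ⟨h1, h2, rfl⟩ | ⟨v, h1, h2, h3, rfl, h4⟩
  · exact Or.inl ⟨Um_smul g h1, J_sing h2, (Q.sm x h1 g).symm⟩
  · refine Or.inr ⟨g • v, Um_smul g h1, S.K.ar_smul g _ _ h2, J_sing h3, (Q.sm v h1 g).symm,
      fun k => h4 ?_⟩
    have := S.js.smul g⁻¹ _ _ k
    rwa [inv_smul_smul, inv_smul_smul] at this

theorem New.mem {x : V} {p r : S.X} (h : Q.New x p r) : p ∈ S.J x := by
  rcases h with ⟨h1, h2, rfl⟩ | ⟨v, h1, h2, h3, rfl, h4⟩
  · rw [h2]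
    rfl
  · obtain ⟨s', m⟩ := Q.mpv h1 h3
    exact (m.nb h3 (Or.inr h2)).1

theorem J'_fin : FinOrb H {p : V × S.X | p.2 ∈ Q.J' p.1} := by
  classical
  have h1 : FinOrb H {p : V × S.X | ∃ r, Q.New p.1 p.2 r} :=
    Pool.Agent.SAF.FinOrb.mono (fun p ⟨r, h⟩ => New.mem Q h) S.js.fin
  have h2 : FinOrb H {q : V × S.X | ∃ p, Q.New q.1 p q.2} := by
    apply Pool.Agent.SAF.FinOrb.image h1
      (fun p : V × S.X => if h : ∃ r, Q.New p.1 p.2 r then (p.1, h.choose) else p)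
    · rintro ⟨x, r⟩ ⟨p, hp⟩
      refine ⟨(x, p), ⟨r, hp⟩, 1, ?_⟩
      have h : ∃ r, Q.New ((x, p) : V × S.X).1 ((x, p) : V × S.X).2 r := ⟨r, hp⟩
      rw [one_smul, dif_pos h]
      exact Prod.ext rfl (New.uniq Q h.choose_spec hp)
    · rintro ⟨x, p⟩ ha ⟨y, q⟩ hb ⟨g, e⟩
      refine ⟨g, ?_⟩
      have ha : ∃ r, Q.New ((x, p) : V × S.X).1 ((x, p) : V × S.X).2 r := ha
      have hb : ∃ r, Q.New ((y, q) : V × S.X).1 ((y, q) : V × S.X).2 r := hb
      rw [dif_pos ha, dif_pos hb]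
      have e1 : g • x = y := congrArg Prod.fst e
      have e2 : g • p = q := congrArg Prod.snd e
      refine Prod.ext e1 ?_
      show g • ha.choose = hb.choose
      have k := New.smul Q ha.choose_spec g
      rw [e1, e2] at k
      exact New.uniq Q k hb.choose_spec
  refine Pool.Agent.SAF.FinOrb.mono ?_ (Pool.Agent.DI.finOrb_union S.js.fin h2)
  rintro ⟨x, y⟩ (⟨h, h'⟩ | ⟨h, ⟨h', -⟩ | ⟨v, hv, ha, h3, h4⟩⟩)
  · obtain ⟨p, hp⟩ := um_J h
    exact Or.inr ⟨p, Or.inl ⟨h, hp, h'⟩⟩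
  · exact Or.inl h'
  · obtain ⟨p, hp⟩ := um_J hv
    exact Or.inr ⟨p, Or.inr ⟨v, hv, ha, hp, h3.symm, h4⟩⟩

/-- THE NEW SUBTREES ARE A SYSTEM -/
theorem J'_js : JS S.P.pq S.D Q.J' where
  conv := Q.J'_conv
  ne := Q.J'_ne
  smul := Q.J'_smul
  one _ _ e := Q.J'_one e
  two := Q.J'_two
  cross _ hx _ _ h h1 h2 := Q.J'_cross hx h h1 h2
  fin := Q.J'_fin

end PlS

end Sys

end Pool.Agent.DI
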