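import Pool.Agent.DI.DscM
import Pool.Agent.DI.Plc

/-!
# DI/DscS: the places of the bare vertices

`Exc O J y`: an element of the stabiliser of `y` moves a label over `y`. `Mid O J y c`: `c` is in the
subtrees of the poles of the vertices over `y`, no vertex over `y` is at `c`. `exists_mid`: an equivariant
choice; the place is fixed by the stabiliser of `y`, the directions to the two labels are different.
-/

namespace Pool.Agent.DI

open MulAction
open Pool.Agent.SAF (InC SA orbs FinOrb oc Decomp SAn Conv FinOrb_iff exists_next)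
open Pool.Agent.BT (PX PQ JS bey exits Ell mst)
open Pool.Agent.BT.TA

section

variable {H V W : Type} [Group H] [MulAction H V] [MulAction H W] {K : GX H V} {P : P45 K}
  (O : OpW K W) {D : Decomp H} (J : W → Set D.X)

/-- exchanged labels -/
def Exc (y : V) : Prop := ∃ (h : H) (L L' : Lab D.X), h • y = y ∧ (y, L) ∈ LbJ O J ∧
  (y, L') ∈ LbJ O J ∧ L ≠ L' ∧ h • L = L'

/-- a place between the labels -/
def Mid (y : V) (c : D.X) : Prop :=
  (∀ x a, O.π x = y → O.gx.ar x a → c ∈ J a) ∧ ∀ x, O.π x = y → J x ≠ {c}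

variable {O J}

theorem Exc.smul (js : JS (O.p45 P).pq D J) (g : H) {y : V} (h : Exc O J y) : Exc O J (g • y) := by
  obtain ⟨k, L, L', h1, h2, h3, h4, h5⟩ := h
  refine ⟨g * k * g⁻¹, g • L, g • L', ?_, LbJ.inv js g _ h2, LbJ.inv js g _ h3,
    fun e => h4 (smul_left_cancel g e), ?_⟩
  · rw [mul_smul, mul_smul, inv_smul_smul, h1]
  · rw [mul_smul, mul_smul, inv_smul_smul, h5]

theorem Mid.smul (js : JS (O.p45 P).pq D J) (g : H) {y : V} {c : D.X} (h : Mid O J y c) :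
    Mid O J (g • y) (g • c) := by
  have k : ∀ x, O.π x = g • y → O.π (g⁻¹ • x) = y := by
    intro x hx
    rw [O.π_smul, hx, inv_smul_smul]
  refine ⟨fun x a hx ha => ?_, fun x hx e => ?_⟩
  · have h1 := h.1 (g⁻¹ • x) (g⁻¹ • a) (k x hx) (O.gx.ar_smul g⁻¹ _ _ ha)
    have h2 := js.smul g _ _ h1
    rwa [smul_inv_smul] at h2
  · apply h.2 (g⁻¹ • x) (k x hx)
    have h1 := js_lab js g⁻¹ x
    have h2 : J (g⁻¹ • x) = (g⁻¹ • (Lab.pt (g • c)) : Lab D.X) := by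
      rw [show Lab.pt (g • c) = (show Lab D.X from J x) from e.symm]
      exact h1
    rw [h2, Lab.smul_pt, inv_smul_smul]
    rfl

/-- the elements which move a label move all labels -/
theorem Exc.all {js : JS (O.p45 P).pq D J} {hc : (SyQ.mk O.gx (O.p45 P) D J js).Conn}
    {tw : W → W → Prop} {Tp : W → Prop} {pt : W → W} {Z : W → Prop}
    (r : (SyQ.mk O.gx (O.p45 P) D J js).RK hc tw Tp pt Z) (ht : O.Tw) {y : V} {k : H}
    {L L' : Lab D.X} (h2 : (y, L) ∈ LbJ O J) (h3 : (y, L') ∈ LbJ O J)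
    (h4 : L ≠ L') (h5 : k • L = L') {M : Lab D.X} (hM : (y, M) ∈ LbJ O J) : k • M ≠ M := by
  rcases LbJ.le2 r ht y M L L' hM h2 h3 with e | e | e
  · subst e
    rw [h5]
    exact h4.symm
  · exact absurd e h4
  · subst e
    intro e2
    apply h4
    have e3 : k • M = k • L := e2.trans h5.symm
    exact (smul_left_cancel k e3).symm

/-- THE PLACES OF THE BARE VERTICES -/
theorem exists_mid {js : JS (O.p45 P).pq D J} {hc : (SyQ.mk O.gx (O.p45 P) D J js).Conn}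
    {tw : W → W → Prop} {Tp : W → Prop} {pt : W → W} {Z : W → Prop}
    (r : (SyQ.mk O.gx (O.p45 P) D J js).RK hc tw Tp pt Z) (ht : O.Tw) (hf : O.DF) :
    ∃ σ : V → D.X, (∀ y, Exc O J y → Mid O J y (σ y)) ∧
      ∀ y, Exc O J y → ∀ g : H, σ (g • y) = g • σ y := by
  have := D.tree.connected.nonempty
  refine exists_sigma {y | Exc O J y} (fun g y hy => hy.smul js g) (fun y c => Mid O J y c)
    (fun g y c h => h.smul js g) ?_
  rintro y ⟨k, L, L', h1, h2, h3, h4, h5⟩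
  obtain ⟨x, e1, e2⟩ := id h2
  obtain ⟨x', e1', e2'⟩ := id h3
  have e1 : O.π x = y := e1
  have e2 : J x = L := e2
  have e1' : O.π x' = y := e1'
  have e2' : J x' = L' := e2'
  have hne : x ≠ x' := by
    rintro rfl
    exact h4 (e2.symm.trans e2')
  have hfin : Finite ↥(stabilizer H y) := by
    have := hf x ⟨x', e1.trans e1'.symm, hne⟩
    rwa [e1] at this
  obtain ⟨p, p', hp, hp', hpp⟩ := LbJ.pts js ht h2 h3 h4
  -- the poles
  have hpole : ∀ z a, O.π z = y → O.gx.ar z a → p ∈ J a := by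
    intro z a hz ha
    have ha' : O.gx.ar x a := O.ar_congr ha (hz.trans e1.symm)
    exact js_pt_pole js (e2.trans hp) ha'
  obtain ⟨c, hc1, hc2⟩ := fix_in D.tact (C := {c | ∀ z a, O.π z = y → O.gx.ar z a → c ∈ J a}) (by
      intro c hc d hd z hz u a hu ha
      exact js.conv a c (hc u a hu ha) d (hd u a hu ha) z hz)
    ⟨p, hpole⟩ (B := stabilizer H y) hfin (by
      intro b hb c hc z a hz ha
      have hb : b • y = y := hb
      have hz' : O.π (b⁻¹ • z) = y := by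
        rw [O.π_smul, hz, inv_smul_eq_iff, hb]
      have k1 := hc (b⁻¹ • z) (b⁻¹ • a) hz' (O.gx.ar_smul b⁻¹ _ _ ha)
      have k2 := js.smul b _ _ k1
      rwa [smul_inv_smul] at k2)
  refine ⟨c, ⟨hc1, fun z hz e => ?_⟩, fun g hg => hc2 g hg⟩
  -- no label is at `c`
  have hM : (y, Lab.pt c) ∈ LbJ O J := ⟨z, hz, e⟩
  apply Exc.all r ht h2 h3 h4 h5 hM
  rw [Lab.smul_pt, hc2 k h1]

/-- THE DIRECTIONS from the place between the labels -/
theorem Mid.dir {js : JS (O.p45 P).pq D J} {hc : (SyQ.mk O.gx (O.p45 P) D J js).Conn}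
    {tw : W → W → Prop} {Tp : W → Prop} {pt : W → W} {Z : W → Prop}
    (r : (SyQ.mk O.gx (O.p45 P) D J js).RK hc tw Tp pt Z) {x x' a b : W} {c : D.X}
    (e : O.π x = O.π x') (hne : J x ≠ J x') (ha : O.gx.ar x a) (hb : O.gx.ar x b) (hab : a ≠ b)
    (hm : Mid O J (O.π x) c) : ∃ p p' s t, J x = {p} ∧ J x' = {p'} ∧ p ≠ p' ∧ c ≠ p ∧ c ≠ p' ∧
      c ∈ J a ∧ c ∈ J b ∧ s ∈ J a ∧ s ∈ J b ∧ t ∈ J a ∧ t ∈ J b ∧ D.G.Adj c s ∧ D.G.Adj c t ∧
      s ≠ t ∧ D.G.dist p c = D.G.dist p s + 1 ∧ D.G.dist p' c = D.G.dist p' t + 1 := by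
  obtain ⟨p, p', hp, hp', hpp⟩ := SyQ.part_pts js e ⟨a, ha⟩ hne
  have ha' : O.gx.ar x' a := O.ar_congr ha e
  have hb' : O.gx.ar x' b := O.ar_congr hb e
  have hI : Conv D.G (J a ∩ J b) := by
    intro c hc' d hd z hz
    exact ⟨js.conv a c hc'.1 d hd.1 z hz, js.conv b c hc'.2 d hd.2 z hz⟩
  have ca := hm.1 x a rfl ha
  have cb := hm.1 x b rfl hb
  have c1 : c ≠ p := by
    rintro rfl
    exact hm.2 x rfl hp
  have c2 : c ≠ p' := by
    rintro rfl
    exact hm.2 x' e.symm hp'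
  have h2 : ∀ v ∈ J a ∩ J b, ∀ s ∈ J a ∩ J b, ∀ t ∈ J a ∩ J b, ∀ u ∈ J a ∩ J b,
      D.G.Adj v s → D.G.Adj v t → D.G.Adj v u → s = t ∨ s = u ∨ t = u := by
    intro v hv s hs t ht u hu k1 k2 k3
    rcases js.two a v hv.1 (Sum.inr s) (Or.inr ⟨s, rfl, k1, hs.1⟩) (Sum.inr t)
      (Or.inr ⟨t, rfl, k2, ht.1⟩) (Sum.inr u) (Or.inr ⟨u, rfl, k3, hu.1⟩) with q | q | q
    · exact Or.inl (Sum.inr.inj q)
    · exact Or.inr (Or.inl (Sum.inr.inj q))
    · exact Or.inr (Or.inr (Sum.inr.inj q))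
  obtain ⟨s, t, sI, tI, k1, k2, k3, k4, k5⟩ := ends_dir D.tree hI h2
    (p := p) (r := p') (c := c) ⟨js_pt_pole js hp ha, js_pt_pole js hp hb⟩
    ⟨js_pt_pole js hp' ha', js_pt_pole js hp' hb'⟩ ⟨ca, cb⟩ hpp c1 c2
    (r.fin_end ha hb hab hp) (r.fin_end ha' hb' hab hp')
  exact ⟨p, p', s, t, hp, hp', hpp, c1, c2, ca, cb, sI.1, sI.2, tI.1, tI.2, k1, k2, k3, k4, k5⟩

end

end Pool.Agent.DI
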