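import Pool.Agent.DI.DscO
import Pool.Agent.DI.PhB

/-!
# DI/DscU: the system on the step complex

`s : m.Stp J`, `σ` the places of the bare vertices (`exists_mid`): `J1`, `Stp.dsc : Dsc`. An opened vertex
has one place (`one_pt`), the two opened vertices of a new square have different places (`nsq_ne`),
`brJ`: the data of a bare vertex.
-/

namespace Pool.Agent.DI

open MulAction
open Pool.Agent.SAF (InC SA orbs FinOrb oc Decomp SAn Conv FinOrb_iff exists_next)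
open Pool.Agent.BT (PX PQ JS bey exits Ell mst)
open Pool.Agent.BT.TA

theorem OpW.NSq.swap {H V W : Type} [Group H] [MulAction H V] [MulAction H W] {K : GX H V}
    {O : OpW K W} {a q b y : W} (h : O.NSq a q b y) : O.NSq a y b q := by
  obtain ⟨g, j, h1, h2⟩ := h
  exact ⟨g, j, h1.symm.imp (fun k => ⟨k.2, k.1⟩) (fun k => ⟨k.2, k.1⟩), h2⟩

/-- the places of the bare vertices -/
structure Sig {H V W : Type} [Group H] [MulAction H V] [MulAction H W] {K : GX H V}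
    (O : OpW K W) {D : Decomp H} (J : W → Set D.X) (σ : V → D.X) : Prop where
  mid : ∀ y, Exc O J y → Mid O J y (σ y)
  smul : ∀ y, Exc O J y → ∀ g : H, σ (g • y) = g • σ y

namespace OpMap

variable {H V W W1 : Type} [Group H] [MulAction H V] [MulAction H W] [MulAction H W1]
  {K : GX H V} {P : P45 K} {O : OpW K W} {O1 : OpW K W1} (m : OpMap O O1) {D : Decomp H}
  (J : W → Set D.X) (σ : V → D.X)

open Classical in
/-- THE PLACES -/
noncomputable def J1 (x1 : W1) : Set D.X :=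
  if h : m.Im x1 then J (Classical.choose h) else {σ (O1.π x1)}

variable {m J σ}

theorem J1_br {v : W1} (h : ¬ m.Im v) : m.J1 J σ v = {σ (O1.π v)} := dif_neg h

namespace Stp

variable (s : m.Stp J)

include s

theorem J1_f (x : W) : m.J1 J σ (m.f x) = J x := by
  have h : m.Im (m.f x) := ⟨x, rfl⟩
  unfold J1
  rw [dif_pos h]
  exact s.inj _ _ (Classical.choose_spec h)

variable {js : JS (O.p45 P).pq D J} (sg : Sig O J σ)

include sg in
theorem J1_smul (js : JS (O.p45 P).pq D J) (h : H) (x1 : W1) (p : D.X) (hp : p ∈ m.J1 J σ x1) :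
    h • p ∈ m.J1 J σ (h • x1) := by
  by_cases hx : m.Im x1
  · obtain ⟨x, rfl⟩ := hx
    rw [s.J1_f] at hp
    rw [← m.f_smul, s.J1_f]
    exact js.smul h _ _ hp
  · rw [J1_br hx] at hp
    have hx' : ¬ m.Im (h • x1) := fun k => hx ((Im.smul_iff h).1 k)
    rw [J1_br hx', O1.π_smul, sg.smul _ (s.br _ hx), Set.mem_singleton_iff.1 hp]
    rfl

include sg in
/-- the place of a bare vertex -/
theorem J1_pole {v a1 : W1} (hv : ¬ m.Im v) (h : O1.gx.ar v a1) :
    σ (O1.π v) ∈ m.J1 J σ a1 := by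
  obtain ⟨x, x', e, -, -⟩ := exc_two (s.br _ hv)
  have h1 : O1.gx.ar (m.f x) a1 := O1.ar_congr h (by rw [m.f_π, e])
  obtain ⟨a, ha, rfl⟩ := m.ar_lift h1
  rw [s.J1_f]
  exact (sg.mid _ (s.br _ hv)).1 x a e ha

variable (P) in
/-- THE DESCENT DATA -/
noncomputable def dsc (js : JS (O.p45 P).pq D J) (ht : O.Tw) (hf : O.DF) (sg : Sig O J σ) :
    Dsc (SyQ.mk O.gx (O.p45 P) D J js) O1.gx (O1.p45 P) :=
  m.dsc (P := P) js (m.J1 J σ) hf s.J1_f (s.J1_smul sg js) (by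
      intro v hv
      refine ⟨?_, σ (O1.π v), J1_br hv, fun a1 h => s.J1_pole sg hv h⟩
      obtain ⟨x, x', e, e', hne⟩ := exc_two (s.br _ hv)
      obtain ⟨a, b, -, ha, -⟩ := SyQ.part_poles ht (e.trans e'.symm) (fun k => hne (by rw [k]))
      exact ⟨m.f a, O1.ar_congr (m.ar ha) (by rw [m.f_π, e])⟩)
    s.lab (by
      intro a q b y h
      obtain ⟨h1, h2, h3, h4, h5, h6⟩ := OpW.NSq.ar _ h
      have hab : a ≠ b := fun e => h6 (by rw [e])
      by_cases hJ : J q = J y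
      · exact Or.inl (s.lab _ _ h5 hJ)
      · by_cases hx : Exc O J (O.π q)
        · right
          right
          obtain ⟨v, hv, e⟩ := s.ex _ hx
          exact ⟨v, σ (O1.π v), J1_br hv, s.sqb q v a b hv e h1 h2 hab,
            (s.sqb y v a b hv (e.trans h5) h3 h4 hab).swap⟩
        · exact Or.inr (Or.inl (s.sq q y a b h5 hJ hx h1 h2 hab)))

variable (P) in
theorem dsc_f (js : JS (O.p45 P).pq D J) (ht : O.Tw) (hf : O.DF) (sg : Sig O J σ) :
    (s.dsc P js ht hf sg).f = m.f := rfl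

variable (P) in
theorem dsc_J (js : JS (O.p45 P).pq D J) (ht : O.Tw) (hf : O.DF) (sg : Sig O J σ) :
    (s.dsc P js ht hf sg).sys.J = m.J1 J σ := rfl

/-- AN OPENED VERTEX HAS ONE PLACE -/
theorem one_pt (js : JS (O.p45 P).pq D J) (ht : O.Tw) {v : W1} (h : O1.Dbl v) :
    ∃ p, m.J1 J σ v = {p} := by
  by_cases hv : m.Im v
  · obtain ⟨x, rfl⟩ := hv
    rw [s.J1_f]
    obtain ⟨x1, x2, e1, e2, hne⟩ := s.dbl_two h
    rw [m.f_π] at e1 e2
    have key : ∀ x1, O.π x1 = O.π x → J x ≠ J x1 → ∃ p, J x = {p} := by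
      intro x1 e k
      obtain ⟨a, b, -, ha, -⟩ := SyQ.part_poles ht e.symm (fun q => k (by rw [q]))
      obtain ⟨p, p', h1, -, -⟩ := SyQ.part_pts js e.symm ⟨a, ha⟩ k
      exact ⟨p, h1⟩
    by_cases k : J x = J x1
    · exact key x2 e2 (fun q => hne (k.symm.trans q))
    · exact key x1 e1 k
  · exact ⟨_, J1_br hv⟩

/-- THE OPENED VERTICES OF A NEW SQUARE HAVE DIFFERENT PLACES -/
theorem nsq_ne (js : JS (O.p45 P).pq D J) (ht : O.Tw) (sg : Sig O J σ) {a q b y : W1}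
    (h : O1.NSq a q b y) : ∃ p p', m.J1 J σ q = {p} ∧ m.J1 J σ y = {p'} ∧ p ≠ p' := by
  obtain ⟨hd, hqy⟩ := OpW.NSq.dbl s.ne h
  have hd' : O1.Dbl y := hd.congr (OpW.NSq.ar _ h).2.2.2.2.1
  have hπ := (OpW.NSq.ar _ h).2.2.2.2.1
  obtain ⟨p, hp⟩ := s.one_pt (σ := σ) js ht hd
  obtain ⟨p', hp'⟩ := s.one_pt (σ := σ) js ht hd'
  refine ⟨p, p', hp, hp', ?_⟩
  rintro rfl
  rcases s.nsq js h with ⟨x, x', e1, e2, e3, -⟩ | ⟨⟨x, rfl⟩, e2⟩ | ⟨⟨x, rfl⟩, e2⟩
  · apply e3
    rw [← e1, s.J1_f] at hp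
    rw [← e2, s.J1_f] at hp'
    rw [hp, hp']
  · rw [s.J1_f] at hp
    rw [J1_br e2] at hp'
    have := (sg.mid _ (s.br _ e2)).2 x (by rw [← m.f_π, hπ])
    exact this (hp.trans hp'.symm)
  · rw [s.J1_f] at hp'
    rw [J1_br e2] at hp
    have := (sg.mid _ (s.br _ e2)).2 x (by rw [← m.f_π, hπ])
    exact this (hp'.trans hp.symm)

end Stp

end OpMap

end Pool.Agent.DI
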