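import Pool.Agent.DI.XQ

/-!
# Duplicate lines (owner: helper38)

`M : JM J T Ed`, `R` an invariant set of lines; `M.Par R`: every line of `R` is parallel to a line
outside of `R`. `M.sub (cpl R)`: the graph without the lines of `R`. `Par.eqv`: same components.
`deg_add`: degrees. `aftE_rm`, `exc_rm`: contribution and pole excess. `M.rE x R`: the lines of `R` in a
component; `deg_comp_sub`. `SoftC.rm`: the hypotheses of a component with poles pass to the graph without
the lines of `R`.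
-/

attribute [local instance 2000] SubMulAction.mulAction

namespace Pool.Agent.DI

open MulAction

namespace FG

variable (G : FG)

open Classical in
/-- the sum of the degrees outside of `D` -/
theorem sum_out [Fintype G.N] (D : Set G.N) :
    ∑ x, (if x ∈ D then 0 else G.deg x) =
      Nat.card {e : G.L // G.a e ∉ D} + Nat.card {e : G.L // G.b e ∉ D} := by
  have := Fintype.ofFinite G.L
  have h1 : ∀ x, (if x ∈ D then 0 else G.deg x) = (∑ e : G.L, (if G.a e = x ∧ x ∉ D then 1 else 0)) +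
      ∑ e : G.L, (if G.b e = x ∧ x ∉ D then 1 else 0) := by
    intro x
    by_cases hx : x ∈ D
    · rw [if_pos hx]
      symm
      have k1 : ∀ f : G.L → G.N, ∑ e : G.L, (if f e = x ∧ x ∉ D then 1 else 0) = 0 := by
        intro f
        apply Finset.sum_eq_zero
        intro e _
        rw [if_neg (fun k => k.2 hx)]
      rw [k1, k1]
    · rw [if_neg hx, G.deg_eq_sum, Finset.sum_add_distrib]
      simp only [hx, not_false_eq_true, and_true]
  rw [Finset.sum_congr rfl (fun x _ => h1 x), Finset.sum_add_distrib, Finset.sum_comm,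
    Finset.sum_comm (f := fun x e => if G.b e = x ∧ x ∉ D then 1 else 0)]
  have h2 : ∀ f : G.L → G.N, ∑ e : G.L, ∑ x : G.N, (if f e = x ∧ x ∉ D then 1 else 0) =
      Nat.card {e : G.L // f e ∉ D} := by
    intro f
    rw [Nat.card_eq_fintype_card, Fintype.card_subtype, Finset.card_filter]
    apply Finset.sum_congr rfl
    intro e _
    by_cases h : f e ∈ D
    · rw [if_neg (not_not.2 h)]
      apply Finset.sum_eq_zero
      intro x _
      rw [if_neg]
      rintro ⟨rfl, k⟩
      exact k h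
    · rw [if_pos h, Finset.sum_eq_single (f e)]
      · rw [if_pos ⟨rfl, h⟩]
      · intro x _ hx
        rw [if_neg]
        rintro ⟨rfl, -⟩
        exact hx rfl
      · intro k
        exact absurd (Finset.mem_univ _) k
  rw [h2 G.a, h2 G.b]

end FG

namespace JM

variable {J T Ed : Type} [Group J] [MulAction J T] [MulAction J Ed] (M : JM J T Ed)

/-- the orbits of lines, split by an invariant set -/
theorem card_split (R : SubMulAction J Ed) (hf : Finite (orbitRel.Quotient J Ed))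
    (P : orbitRel.Quotient J Ed → Prop) :
    Nat.card {l // P l} = Nat.card {l : orbitRel.Quotient J ↥(cpl R) // P (imEquiv (cpl R) l).1} +
      Nat.card {l : orbitRel.Quotient J ↥R // P (imEquiv R l).1} := by
  classical
  have h := Nat.card_congr (Equiv.sumCompl (fun l : {l : orbitRel.Quotient J Ed // P l} =>
    l.1 ∉ im R))
  rw [Nat.card_sum] at h
  rw [← h]
  congr 1
  · apply Nat.card_congr
    exact {
      toFun := fun l => ⟨(cplEquiv R).symm ⟨l.1.1, l.2⟩, by
        have e : (imEquiv (cpl R) ((cplEquiv R).symm ⟨l.1.1, l.2⟩)).1 =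
            ((cplEquiv R) ((cplEquiv R).symm ⟨l.1.1, l.2⟩)).1 := rfl
        rw [e, Equiv.apply_symm_apply]
        exact l.1.2⟩
      invFun := fun l => ⟨⟨(imEquiv (cpl R) l.1).1, l.2⟩, ((cplEquiv R) l.1).2⟩
      left_inv := fun l => by
        apply Subtype.ext
        apply Subtype.ext
        show ((cplEquiv R) ((cplEquiv R).symm ⟨l.1.1, l.2⟩)).1 = _
        rw [Equiv.apply_symm_apply]
      right_inv := fun l => by
        apply Subtype.ext
        show (cplEquiv R).symm ((cplEquiv R) l.1) = l.1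
        rw [Equiv.symm_apply_apply] }
  · apply Nat.card_congr
    exact {
      toFun := fun l => ⟨(imEquiv R).symm ⟨l.1.1, not_not.1 l.2⟩, by
        rw [Equiv.apply_symm_apply]
        exact l.1.2⟩
      invFun := fun l => ⟨⟨(imEquiv R l.1).1, l.2⟩, not_not.2 ((imEquiv R) l.1).2⟩
      left_inv := fun l => by
        apply Subtype.ext
        apply Subtype.ext
        show ((imEquiv R) ((imEquiv R).symm ⟨l.1.1, _⟩)).1 = _
        rw [Equiv.apply_symm_apply]
      right_inv := fun l => by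
        apply Subtype.ext
        show (imEquiv R).symm ((imEquiv R) l.1) = l.1
        rw [Equiv.symm_apply_apply] }

theorem sub_a (A : SubMulAction J Ed) (l : orbitRel.Quotient J ↥A) :
    M.fg.a (imEquiv A l).1 = (M.sub A).fg.a l := by
  obtain ⟨e, rfl⟩ := oq_surj l
  rfl

theorem sub_b (A : SubMulAction J Ed) (l : orbitRel.Quotient J ↥A) :
    M.fg.b (imEquiv A l).1 = (M.sub A).fg.b l := by
  obtain ⟨e, rfl⟩ := oq_surj l
  rfl

/-- degrees -/
theorem deg_add (R : SubMulAction J Ed) (q : M.fg.N) :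
    M.fg.deg q = (M.sub (cpl R)).fg.deg q + (M.sub R).fg.deg q := by
  have h1 := card_split R M.fE (fun l => M.fg.a l = q)
  have h2 := card_split R M.fE (fun l => M.fg.b l = q)
  simp only [sub_a] at h1
  simp only [sub_b] at h2
  have h1' : Nat.card {e : M.fg.L // M.fg.a e = q} =
    Nat.card {e : (M.sub (cpl R)).fg.L // (M.sub (cpl R)).fg.a e = q} +
      Nat.card {e : (M.sub R).fg.L // (M.sub R).fg.a e = q} := h1
  have h2' : Nat.card {e : M.fg.L // M.fg.b e = q} =
    Nat.card {e : (M.sub (cpl R)).fg.L // (M.sub (cpl R)).fg.b e = q} +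
      Nat.card {e : (M.sub R).fg.L // (M.sub R).fg.b e = q} := h2
  unfold FG.deg
  rw [h1', h2']
  omega

/-- the contribution without the lines of `R` -/
theorem aftE_rm (R : SubMulAction J Ed) [i : Fintype M.fg.N]
    [i' : Fintype (M.sub (cpl R)).fg.N] (D : Set M.fg.N) (e : M.fg.N → ℕ) :
    M.fg.aftE D (fun q => e q + (M.sub R).fg.deg q) = (M.sub (cpl R)).fg.aftE D e := by
  classical
  have hi : (i' : Fintype M.fg.N) = i := Subsingleton.elim _ _
  have h : ∀ q : M.fg.N, (if q ∈ D then (0:ℤ) else (M.fg.deg q : ℤ) -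
      ((e q + (M.sub R).fg.deg q : ℕ) : ℤ)) =
      (if q ∈ D then (0:ℤ) else ((M.sub (cpl R)).fg.deg q : ℤ) - e q) := by
    intro q
    by_cases h : q ∈ D
    · rw [if_pos h, if_pos h]
    · rw [if_neg h, if_neg h, M.deg_add R q]
      push_cast
      ring
  have h2 := Finset.sum_congr (s₁ := @Finset.univ M.fg.N i) rfl (fun q _ => h q)
  unfold FG.aftE
  refine h2.trans ?_
  rw [← hi]
  rfl

open Classical in
/-- the value `e` outside of `D`, the degree without the lines of `R` on `D` -/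
noncomputable def eR (R : SubMulAction J Ed) (D : Set M.fg.N) (e : M.fg.N → ℕ) : M.fg.N → ℕ :=
  fun x => if x ∈ D then (M.sub (cpl R)).fg.deg x else e x

theorem eR_in (R : SubMulAction J Ed) {D : Set M.fg.N} (e : M.fg.N → ℕ) {x : M.fg.N}
    (h : x ∈ D) : M.eR R D e x = (M.sub (cpl R)).fg.deg x := if_pos h

theorem eR_out (R : SubMulAction J Ed) {D : Set M.fg.N} (e : M.fg.N → ℕ) {x : M.fg.N}
    (h : x ∉ D) : M.eR R D e x = e x := if_neg h

/-- the number of the ends of lines of `R` outside of `D` -/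
noncomputable def nR (R : SubMulAction J Ed) (D : Set M.fg.N) : ℕ :=
  Nat.card {l : (M.sub R).fg.L // (M.sub R).fg.a l ∉ D} +
    Nat.card {l : (M.sub R).fg.L // (M.sub R).fg.b l ∉ D}

theorem nR_sum (R : SubMulAction J Ed) [i : Fintype M.fg.N] (D : Set M.fg.N)
    [DecidablePred (· ∈ D)] :
    M.nR R D = ∑ x : M.fg.N, (if x ∈ D then 0 else (M.sub R).fg.deg x) := by
  have h := @FG.sum_out (M.sub R).fg i D
  refine Eq.trans ?_ (h.symm.trans ?_)
  · rfl
  · apply Finset.sum_congr rfl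
    intro x _
    congr

/-- the lines of `R` are taken away -/
theorem aftE_split (R : SubMulAction J Ed) [Fintype M.fg.N] {P D : Set M.fg.N} (h : P ⊆ D)
    (e : M.fg.N → ℕ) : M.fg.aftE D e =
      M.fg.aftE P (fun q => M.eR R D e q + (M.sub R).fg.deg q) + (M.nR R D : ℤ) := by
  classical
  have h1 : (M.nR R D : ℤ) = ∑ x : M.fg.N, (if x ∈ D then (0:ℤ) else ((M.sub R).fg.deg x : ℤ)) := by
    rw [M.nR_sum R D, Nat.cast_sum]
    apply Finset.sum_congr rfl
    intro x _
    split_ifs <;> rfl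
  rw [h1]
  unfold FG.aftE
  rw [← Finset.sum_add_distrib]
  apply Finset.sum_congr rfl
  intro x _
  have h3 := M.deg_add R x
  by_cases hx : x ∈ D
  · rw [if_pos hx, if_pos hx]
    by_cases hP : x ∈ P
    · rw [if_pos hP]
      rfl
    · rw [if_neg hP]
      simp only [M.eR_in R e hx]
      rw [h3]
      push_cast
      ring
  · have hP : x ∉ P := fun k => hx (h k)
    rw [if_neg hx, if_neg hx, if_neg hP]
    simp only [M.eR_out R e hx]
    push_cast
    ring

/-- the pole excess without the lines of `R` -/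
theorem exc_rm (R : SubMulAction J Ed) {P : Set M.fg.N}
    (h : ∀ e ∈ R, (oq J (M.s e) : M.fg.N) ∉ P ∧ (oq J (M.t e) : M.fg.N) ∉ P) :
    M.fg.exc P = (M.sub (cpl R)).fg.exc P := by
  have h1 := card_split R M.fE (fun l => M.fg.a l ∈ P ∨ M.fg.b l ∈ P)
  simp only [sub_a, sub_b] at h1
  have h2 : Nat.card {l : orbitRel.Quotient J ↥R // (M.sub R).fg.a l ∈ P ∨
      (M.sub R).fg.b l ∈ P} = 0 := by
    have : IsEmpty {l : orbitRel.Quotient J ↥R // (M.sub R).fg.a l ∈ P ∨
        (M.sub R).fg.b l ∈ P} := by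
      refine ⟨fun l => ?_⟩
      obtain ⟨l, hl⟩ := l
      obtain ⟨e, rfl⟩ := oq_surj l
      rcases hl with k | k
      · exact (h e.1 e.2).1 k
      · exact (h e.1 e.2).2 k
    exact Nat.card_of_isEmpty
  have h1' : M.fg.pst P = (M.sub (cpl R)).fg.pst P + 0 :=
    h1.trans (congrArg (fun n => (M.sub (cpl R)).fg.pst P + n) h2)
  unfold FG.exc
  rw [h1', add_zero]
  rfl

/-- every line of `R` is parallel to a line outside of `R` -/
def Par (R : SubMulAction J Ed) : Prop := ∀ e ∈ R, ∃ e', e' ∉ R ∧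
  ((M.s e' = M.s e ∧ M.t e' = M.t e) ∨ (M.s e' = M.t e ∧ M.t e' = M.s e))

variable {M} in
/-- the components are the same -/
theorem Par.eqv {R : SubMulAction J Ed} (h : M.Par R) {x y : T} :
    Relation.EqvGen (M.sub (cpl R)).st x y ↔ Relation.EqvGen M.st x y := by
  constructor
  · intro k
    induction k with
    | rel x y k =>
      obtain ⟨e, h1, h2⟩ := k
      exact Relation.EqvGen.rel _ _ ⟨e.1, h1, h2⟩
    | refl x => exact Relation.EqvGen.refl _
    | symm x y _ ih => exact Relation.EqvGen.symm _ _ ih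
    | trans x y z _ _ i1 i2 => exact Relation.EqvGen.trans _ _ _ i1 i2
  · intro k
    induction k with
    | rel x y k =>
      obtain ⟨e, rfl, rfl⟩ := k
      by_cases he : e ∈ R
      · obtain ⟨e', he', ⟨h1, h2⟩ | ⟨h1, h2⟩⟩ := h e he
        · exact Relation.EqvGen.rel _ _ ⟨⟨e', he'⟩, h1, h2⟩
        · exact Relation.EqvGen.symm _ _ (Relation.EqvGen.rel _ _ ⟨⟨e', he'⟩, h1, h2⟩)
      · exact Relation.EqvGen.rel _ _ ⟨⟨e, he⟩, rfl, rfl⟩
    | refl x => exact Relation.EqvGen.refl _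
    | symm x y _ ih => exact Relation.EqvGen.symm _ _ ih
    | trans x y z _ _ i1 i2 => exact Relation.EqvGen.trans _ _ _ i1 i2

/-! ### components -/

/-- the lines of `A` in a component -/
def rE (x : T) (A : SubMulAction J Ed) : SubMulAction ↥(M.grp x) ↥(M.cE x) where
  carrier := {e | e.1 ∈ A}
  smul_mem' j e he := A.smul_mem j.1 he

theorem mem_rE {x : T} {A : SubMulAction J Ed} {e : ↥(M.cE x)} : e ∈ M.rE x A ↔ e.1 ∈ A := Iff.rfl

theorem card_comp (A : SubMulAction J Ed) (x : T) (f : Ed → T)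
    (hf : ∀ (j : J) (e : Ed), f (j • e) = j • f e) (hE : ∀ e, e ∈ M.cE x ↔ f e ∈ M.cT x)
    (y : ↥(M.cT x)) :
    Nat.card {l : orbitRel.Quotient ↥(M.grp x) ↥(M.rE x A) //
        olift (fun e : ↥(M.rE x A) => oq ↥(M.grp x) (⟨f e.1.1, (hE _).1 e.1.2⟩ : ↥(M.cT x)))
          (fun j e => by
            have h : (⟨f (j • e).1.1, (hE _).1 (j • e).1.2⟩ : ↥(M.cT x)) =
                j • ⟨f e.1.1, (hE _).1 e.1.2⟩ := Subtype.ext (hf j.1 e.1.1)
            rw [h, oq_smul]) l = oq ↥(M.grp x) y} =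
      Nat.card {l : orbitRel.Quotient J ↥A //
        olift (fun e : ↥A => oq J (f e.1)) (fun j e => by
          have h : f (j • e).1 = j • f e.1 := hf j e.1
          rw [h, oq_smul]) l = oq J y.1} := by
  refine Nat.card_congr (Equiv.ofBijective (fun l => ⟨olift (fun e : ↥(M.rE x A) =>
    oq J (⟨e.1.1, e.2⟩ : ↥A)) (fun j e => ?_) l.1, ?_⟩) ⟨?_, ?_⟩)
  · have h : (⟨(j • e).1.1, (j • e).2⟩ : ↥A) = j.1 • (⟨e.1.1, e.2⟩ : ↥A) := rfl
    rw [h, oq_smul]
  · obtain ⟨l, hl⟩ := l
    obtain ⟨e, rfl⟩ := oq_surj l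
    have hl : oq ↥(M.grp x) (⟨f e.1.1, (hE _).1 e.1.2⟩ : ↥(M.cT x)) = oq ↥(M.grp x) y := hl
    show oq J (f e.1.1) = oq J y.1
    obtain ⟨j, hj⟩ := oq_eq.1 hl
    exact oq_eq.2 ⟨j.1, congrArg Subtype.val hj⟩
  · rintro ⟨l, hl⟩ ⟨l', hl'⟩ h
    obtain ⟨e, rfl⟩ := oq_surj l
    obtain ⟨e', rfl⟩ := oq_surj l'
    have h : oq J (⟨e.1.1, e.2⟩ : ↥A) = oq J (⟨e'.1.1, e'.2⟩ : ↥A) := congrArg Subtype.val h
    obtain ⟨j, hj⟩ := oq_eq.1 h
    have hj : e'.1.1 = j • e.1.1 := congrArg Subtype.val hj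
    have h1 : f e.1.1 ∈ M.cT x := (hE _).1 e.1.2
    have h2 : f e'.1.1 ∈ M.cT x := (hE _).1 e'.1.2
    rw [hj, hf] at h2
    apply Subtype.ext
    exact oq_eq.2 ⟨⟨j, M.grp_of h1 h2⟩, Subtype.ext (Subtype.ext hj)⟩
  · rintro ⟨l, hl⟩
    obtain ⟨e, rfl⟩ := oq_surj l
    have hl : oq J (f e.1) = oq J y.1 := hl
    obtain ⟨j, hj⟩ := oq_eq.1 hl
    have h1 : j • e.1 ∈ M.cE x := by
      rw [hE, hf, ← hj]
      exact y.2
    refine ⟨⟨oq _ ⟨⟨j • e.1, h1⟩, A.smul_mem j e.2⟩, ?_⟩, ?_⟩
    · show oq ↥(M.grp x) (⟨f (j • e.1), _⟩ : ↥(M.cT x)) = oq ↥(M.grp x) y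
      congr 1
      apply Subtype.ext
      show f (j • e.1) = y.1
      rw [hf, hj]
    · apply Subtype.ext
      exact oq_smul j e

/-- degrees in a component -/
theorem deg_comp_sub (A : SubMulAction J Ed) (x : T) (q : (M.comp x).fg.N) :
    ((M.comp x).sub (M.rE x A)).fg.deg q = (M.sub A).fg.deg (M.compN x q).1 := by
  obtain ⟨y, rfl⟩ := oq_surj q
  have h1 := M.card_comp A x M.s M.hs (fun e => M.mem_cE) y
  have h2 := M.card_comp A x M.t M.ht (fun e => M.mem_cE') y
  have h1' : Nat.card {l : ((M.comp x).sub (M.rE x A)).fg.L //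
      ((M.comp x).sub (M.rE x A)).fg.a l = oq ↥(M.grp x) y} =
      Nat.card {l : (M.sub A).fg.L // (M.sub A).fg.a l = (M.compN x (oq ↥(M.grp x) y)).1} := h1
  have h2' : Nat.card {l : ((M.comp x).sub (M.rE x A)).fg.L //
      ((M.comp x).sub (M.rE x A)).fg.b l = oq ↥(M.grp x) y} =
      Nat.card {l : (M.sub A).fg.L // (M.sub A).fg.b l = (M.compN x (oq ↥(M.grp x) y)).1} := h2
  unfold FG.deg
  rw [h1', h2']

variable {M} in
theorem Par.comp {R : SubMulAction J Ed} (h : M.Par R) (x : T) :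
    (M.comp x).Par (M.rE x R) := by
  rintro ⟨e, hx⟩ he
  obtain ⟨e', he', h1⟩ := h e he
  have hx' : e' ∈ M.cE x := by
    rcases h1 with ⟨h1, -⟩ | ⟨h1, -⟩
    · rw [M.mem_cE, h1]
      exact hx
    · rw [M.mem_cE, h1]
      exact M.mem_cE'.1 hx
  refine ⟨⟨e', hx'⟩, he', ?_⟩
  rcases h1 with ⟨h1, h2⟩ | ⟨h1, h2⟩
  · exact Or.inl ⟨Subtype.ext h1, Subtype.ext h2⟩
  · exact Or.inr ⟨Subtype.ext h1, Subtype.ext h2⟩

/-- the contribution of a component without the lines of `R` -/
theorem aftE_comp (R : SubMulAction J Ed) (x : T) [Fintype (M.comp x).fg.N]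
    [Fintype ((M.comp x).sub (cpl (M.rE x R))).fg.N] (D : Set (M.comp x).fg.N)
    (e : M.fg.N → ℕ) :
    (M.comp x).fg.aftE D (M.re x (fun q => e q + (M.sub R).fg.deg q)) =
      ((M.comp x).sub (cpl (M.rE x R))).fg.aftE D (M.re x e) := by
  rw [← (M.comp x).aftE_rm (M.rE x R) D (M.re x e)]
  congr 1
  funext q
  show e (M.compN x q).1 + (M.sub R).fg.deg (M.compN x q).1 = _
  rw [M.deg_comp_sub R x q]
  rfl

/-- the pole excess of a component without the lines of `R` -/
theorem exc_comp (R : SubMulAction J Ed) (x : T) {P : Set M.fg.N}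
    (h : ∀ e ∈ R, (oq J (M.s e) : M.fg.N) ∉ P ∧ (oq J (M.t e) : M.fg.N) ∉ P) :
    (M.comp x).fg.exc (M.rs x P) = ((M.comp x).sub (cpl (M.rE x R))).fg.exc (M.rs x P) :=
  (M.comp x).exc_rm (M.rE x R) (fun e he => ⟨fun k => (h e.1 he).1 k, fun k => (h e.1 he).2 k⟩)

/-! ### components with poles -/

variable {M} in
/-- the hypotheses pass to the graph without the lines of `R` -/
theorem SoftC.rm {Pl : SubMulAction J T} {e : M.fg.N → ℕ} (h : M.SoftC Pl e)
    {R : SubMulAction J Ed} (hR : M.Par R) : (M.sub (cpl R)).SoftC Pl e where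
  two := h.two
  nepl := h.nepl
  ne := h.ne
  conn x y := hR.eqv.2 (h.conn x y)
  dconn x y := by
    have k := h.dconn x y
    induction k with
    | rel x y k =>
      obtain ⟨e, rfl, rfl⟩ := k
      by_cases he : e.1 ∈ R
      · obtain ⟨e', he', ⟨h1, h2⟩ | ⟨h1, h2⟩⟩ := hR e.1 he
        · have m : (⟨e', he'⟩ : ↥(cpl R)) ∈ (M.sub (cpl R)).avE Pl := by
            refine ⟨?_, ?_⟩
            · show M.s e' ∉ Pl
              rw [h1]
              exact e.2.1
            · show M.t e' ∉ Pl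
              rw [h2]
              exact e.2.2
          exact Relation.EqvGen.rel _ _ ⟨⟨⟨e', he'⟩, m⟩, Subtype.ext h1, Subtype.ext h2⟩
        · have m : (⟨e', he'⟩ : ↥(cpl R)) ∈ (M.sub (cpl R)).avE Pl := by
            refine ⟨?_, ?_⟩
            · show M.s e' ∉ Pl
              rw [h1]
              exact e.2.2
            · show M.t e' ∉ Pl
              rw [h2]
              exact e.2.1
          exact Relation.EqvGen.symm _ _
            (Relation.EqvGen.rel _ _ ⟨⟨⟨e', he'⟩, m⟩, Subtype.ext h1, Subtype.ext h2⟩)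
      · exact Relation.EqvGen.rel _ _ ⟨⟨⟨e.1, he⟩, e.2⟩, rfl, rfl⟩
    | refl x => exact Relation.EqvGen.refl _
    | symm x y _ ih => exact Relation.EqvGen.symm _ _ ih
    | trans x y z _ _ i1 i2 => exact Relation.EqvGen.trans _ _ _ i1 i2
  pp e := h.pp e.1
  e2 := h.e2
  e1 := h.e1
  one := h.one

end JM

end Pool.Agent.DI
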