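import Pool.Agent.DI.XLc

/-!
# Duplicate lines at phantoms

`S.OneDirR A p y n`: the corners of the local piece of `n` in one direction which belong to `A` are one
orbit; `degR_le_two`, `degR_le_one_mv`: degrees in `S.LPG.sub A`. `S.LostR A w`: the same at all lost
nodes; `LostR.two`, `LostR.one`.
`S.Phm i`: the vertex `qt i 3` of the listed square `i = (a, T, b, v)` lies in no cell but the translates
of `i`. `Flp i`: some `g` fixes `v`, `T` and exchanges `a`, `b`. `S.pR F`: all lines but the corners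
`(T, b, v)` of the squares in `F`. `pR_oneDir`, `oneDir_of_nflip`, `pR_par`, `card_pR`.
-/

namespace Pool.Agent.DI

open MulAction
open Pool.Agent.SAF (InC orbs FinOrb oc Decomp SAn SA Conv hull dist_edge FinOrb_iff exists_next)
open Pool.Agent.BT (PX PQ JS bey exits lz lz_self lz_ne lz_symm x_next_unique)
open Pool.Agent.BT.TA

namespace SyQ

variable {H V : Type} [Group H] [MulAction H V] {S : SyQ H V}

/-- the corners of `A` at the local piece of `n` in one direction are one orbit -/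
def OneDirR (S : SyQ H V) (A : SubMulAction H ↥(JM.cpl S.AJ)) (p : S.X) (y n : V) : Prop :=
  ∀ (e e' : ↥(JM.cpl S.AJ)) (b b' : Bool), e ∈ A → e' ∈ A →
  S.K.c1 e.1.1 = y → S.K.c1 e'.1.1 = y → S.K.ar (ce S.K b e.1.1) y → S.K.ar (ce S.K b' e'.1.1) y →
  S.LIJ p y n (ce S.K b e.1.1) → S.LIJ p y n (ce S.K b' e'.1.1) →
  S.rho p (ce S.K (!b) e.1.1) = S.rho p (ce S.K (!b') e'.1.1) → b = b' ∧ ∃ h : H, e' = h • e

theorem OneDir.R {p : S.X} {y n : V} (h : S.OneDir p y n) (A : SubMulAction H ↥(JM.cpl S.AJ)) :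
    S.OneDirR A p y n := by
  intro e e' b b' _ _ h1 h2 h3 h4 h5 h6 h7
  obtain ⟨m1, j, m2⟩ := h e.1 e'.1 b b' e.2 e'.2 h1 h2 h3 h4 h5 h6 h7
  exact ⟨m1, j, Subtype.ext m2⟩

variable {A : SubMulAction H ↥(JM.cpl S.AJ)}

/-- the degree is at most two -/
theorem degR_le_two (hc : S.Conn) (hnb : S.NB) {p : S.X} {y n : S.NV p} (har : S.K.ar n.1 y.1)
    (h1 : S.OneDirR A p y.1 n.1) :
    (S.LPG.sub A).fg.deg (oq H (S.K.pc.ct S.AJ ⟨PN.inn y.1 n.1, har⟩)) ≤ 2 := by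
  classical
  have ha0 : ∃ a0 : S.SV p, ∀ a a', (S.k0 hc p).ar (Sum.inl y) a →
      (S.k0 hc p).ar (Sum.inl y) a' → a ≠ a0 → a' ≠ a0 → a = a' := by
    by_cases hex : ∃ a, (S.k0 hc p).ar (Sum.inl y) a
    · obtain ⟨a0, h0⟩ := hex
      refine ⟨a0, fun a a' h h' hne hne' => ?_⟩
      rcases (S.k0 hc p).two _ a a' a0 h h' h0 with k | k | k
      · exact k
      · exact absurd k hne'
      · exact absurd k hne
    · exact ⟨Sum.inl y, fun a a' h _ _ _ => absurd ⟨a, h⟩ hex⟩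
  obtain ⟨a0, h0⟩ := ha0
  refine (S.LPG.sub A).deg_le (fun e b =>
    if S.rho p (ce S.K (!b) e.1.1.1) = a0 then 0 else 1) ?_
  intro e e' b b' k k' hg
  obtain ⟨l1, l2, l3, l4, l5, -⟩ := half_line hc hnb har k
  obtain ⟨l1', l2', l3', l4', l5', -⟩ := half_line hc hnb har k'
  have hd : S.rho p (ce S.K (!b) e.1.1.1) = S.rho p (ce S.K (!b') e'.1.1.1) := by
    by_cases q : S.rho p (ce S.K (!b) e.1.1.1) = a0
    · by_cases q' : S.rho p (ce S.K (!b') e'.1.1.1) = a0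
      · rw [q, q']
      · simp only [q, q', if_true, if_false] at hg
        exact absurd hg (by decide)
    · by_cases q' : S.rho p (ce S.K (!b') e'.1.1.1) = a0
      · simp only [q, q', if_true, if_false] at hg
        exact absurd hg (by decide)
      · exact h0 _ _ l5 l5' q q'
  obtain ⟨m1, j, m2⟩ := h1 e.1 e'.1 b b' e.2 e'.2 l1 l1' l2 l2' l4 l4' hd
  exact ⟨m1, j, Subtype.ext m2⟩

/-- the degree is at most one: there is at most one direction -/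
theorem degR_le_one_uniq (hc : S.Conn) (hnb : S.NB) {p : S.X} {y n : S.NV p}
    (har : S.K.ar n.1 y.1) (h1 : S.OneDirR A p y.1 n.1) (hu : S.UniqDir hc p y n) :
    (S.LPG.sub A).fg.deg (oq H (S.K.pc.ct S.AJ ⟨PN.inn y.1 n.1, har⟩)) ≤ 1 := by
  refine (S.LPG.sub A).deg_le (fun _ _ => 0) ?_
  intro e e' b b' k k' _
  obtain ⟨l1, l2, l3, l4, l5, n1, q1, q2⟩ := half_line hc hnb har k
  obtain ⟨l1', l2', l3', l4', l5', n2, q1', q2'⟩ := half_line hc hnb har k'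
  rw [← q1] at l4
  rw [← q1'] at l4'
  have hd := hu _ _ n1 n2 l5 l5' q2 q2' l4 l4'
  rw [q1] at l4
  rw [q1'] at l4'
  obtain ⟨m1, j, m2⟩ := h1 e.1 e'.1 b b' e.2 e'.2 l1 l1' l2 l2' l4 l4' hd
  exact ⟨m1, j, Subtype.ext m2⟩

/-- the degree is at most one: a group element moves a direction -/
theorem degR_le_one_mv (hc : S.Conn) (hnb : S.NB) {p : S.X} {y n : S.NV p}
    (har : S.K.ar n.1 y.1) (h1 : S.OneDirR A p y.1 n.1) {h : ↥(stabilizer H p)}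
    (hy : h.1 • y.1 = y.1) (hP : S.LIJ p y.1 n.1 (h.1 • n.1)) {a : S.SV p}
    (ha : (S.k0 hc p).ar (Sum.inl y) a) (hne : h • a ≠ a) :
    (S.LPG.sub A).fg.deg (oq H (S.K.pc.ct S.AJ ⟨PN.inn y.1 n.1, har⟩)) ≤ 1 := by
  refine (S.LPG.sub A).deg_le (fun _ _ => 0) ?_
  intro e e' b b' k k' _
  obtain ⟨l1, l2, l3, l4, l5, n1, q1, q2⟩ := half_line hc hnb har k
  obtain ⟨l1', l2', l3', l4', l5', n2, q1', q2'⟩ := half_line hc hnb har k'
  have hy' : h • (Sum.inl y : S.SV p) = Sum.inl y := congrArg Sum.inl (Subtype.ext hy)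
  by_cases hd : S.rho p (ce S.K (!b) e.1.1.1) = S.rho p (ce S.K (!b') e'.1.1.1)
  · obtain ⟨m1, j, m2⟩ := h1 e.1 e'.1 b b' e.2 e'.2 l1 l1' l2 l2' l4 l4' hd
    exact ⟨m1, j, Subtype.ext m2⟩
  · -- move the first one
    have h3 := (swap_poles (S.k0 hc p) hy' ha hne l5 l5' hd).1
    have s1 : S.K.c1 (h.1 • e.1).1.1 = y.1 := by
      have : S.K.c1 (h.1 • e.1).1.1 = h.1 • S.K.c1 e.1.1.1 := S.K.c1_smul h.1 e.1.1.1
      rw [this, l1, hy]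
    have s2 : ∀ b, ce S.K b (h.1 • e.1).1.1 = h.1 • ce S.K b e.1.1.1 :=
      fun b => ce_smul S.K b h.1 e.1.1.1
    have s3 : S.K.ar (ce S.K b (h.1 • e.1).1.1) y.1 := by
      have := S.K.ar_smul h.1 _ _ l2
      rw [hy] at this
      rw [s2]
      exact this
    have s4 : S.LIJ p y.1 n.1 (ce S.K b (h.1 • e.1).1.1) := by
      have t1 : (S.k0 hc p).IJ (Sum.inl y) (Sum.inl n) (Sum.inl (h • n)) :=
        (ij_inl hc hnb).2 hP
      let x1 : S.NV p := ⟨ce S.K b e.1.1.1, l3⟩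
      have t2 : (S.k0 hc p).IJ (Sum.inl y) (Sum.inl n) (Sum.inl x1) :=
        (ij_inl hc hnb).2 l4
      have t3 := t2.smul h
      rw [hy'] at t3
      have t4 := t1.trans' t3
      have t5 : (h • (Sum.inl x1) : S.SV p) = Sum.inl (h • x1) := rfl
      rw [t5] at t4
      have t6 := (ij_inl hc hnb).1 t4
      rw [s2]
      exact t6
    have s5 : S.rho p (ce S.K (!b) (h.1 • e.1).1.1) = S.rho p (ce S.K (!b') e'.1.1.1) := by
      rw [s2, S.rho_smul h, h3]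
    obtain ⟨m1, j, m2⟩ := h1 (h.1 • e.1) e'.1 b b' (A.smul_mem h.1 e.2) e'.2 s1 l1' s3 l2' s4 l4' s5
    refine ⟨m1, j * h.1, Subtype.ext ?_⟩
    rw [m2, ← mul_smul]
    rfl

/-- at lost nodes one direction is one orbit, without the lines outside `A` -/
def LostR (S : SyQ H V) (A : SubMulAction H ↥(JM.cpl S.AJ)) {ι : Type} (w : ι → S.X) : Prop :=
  ∀ y n, S.K.ar n y → ∀ p, p ∈ S.J y → p ∈ S.J n → ¬ Bp H w p → S.OneDirR A p y n

theorem LostD.R {ι : Type} {w : ι → S.X} (h : S.LostD w) (A : SubMulAction H ↥(JM.cpl S.AJ)) :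
    S.LostR A w := fun y n h1 p h2 h3 h4 => (h y n h1 p h2 h3 h4).R A

theorem LostR.two (hc : S.Conn) (hnb : S.NB) {ι : Type} {w : ι → S.X} (hL : S.LostR A w) (y n : V)
    (h : S.K.ar n y) (p : S.X) (hp : p ∈ S.J y) (hn : p ∈ S.J n) (hb : ¬ Bp H w p) :
    (S.LPG.sub A).fg.deg (oq H (S.lp h)) ≤ 2 :=
  degR_le_two hc hnb (y := (⟨y, hp⟩ : S.NV p)) (n := (⟨n, hn⟩ : S.NV p)) h (hL y n h p hp hn hb)

theorem LostR.one (hc : S.Conn) (hnb : S.NB) {ι : Type} {w : ι → S.X} (hL : S.LostR A w) (y n : V)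
    (h : S.K.ar n y) (p : S.X) (hp : p ∈ S.J y) (hn : p ∈ S.J n) (hb : ¬ Bp H w p)
    (hs : S.Swp p y n) : (S.LPG.sub A).fg.deg (oq H (S.lp h)) ≤ 1 := by
  obtain ⟨g, k1, k2, k3, k4⟩ := hs
  obtain ⟨d, hd, hne⟩ : ∃ d, (S.k0 hc p).ar (Sum.inl ⟨y, hp⟩) d ∧
      (⟨g, k2⟩ : ↥(stabilizer H p)) • d ≠ d := by
    rcases k4 with ⟨u, l1, l2, l3⟩ | ⟨a, l1, l2, l3⟩
    · exact ⟨Sum.inr ⟨u, l1⟩, SAr.up _ _ l2,
        fun k => l3 (congrArg Subtype.val (Sum.inr.inj k))⟩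
    · exact ⟨Sum.inl ⟨a, l2⟩, SAr.hor _ _ l1,
        fun k => l3 (congrArg Subtype.val (Sum.inl.inj k))⟩
  exact degR_le_one_mv hc hnb (y := (⟨y, hp⟩ : S.NV p)) (n := (⟨n, hn⟩ : S.NV p)) h
    (hL y n h p hp hn hb) (h := ⟨g, k2⟩) k1 k3 hd hne

end SyQ

/-! ### phantoms -/

/-- the square `i = (a, T, b, v)`: `T` and `v` have the poles `a`, `b` -/
structure P45.Ew {H V : Type} [Group H] [MulAction H V] {K : GX H V} (P : P45 K) (i : K.I) :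
    Prop where
  sq : P.sq i
  Ta : K.ar (P.qt i 1) (P.qt i 0)
  Tb : K.ar (P.qt i 1) (P.qt i 2)
  va : K.ar (P.qt i 3) (P.qt i 0)
  vb : K.ar (P.qt i 3) (P.qt i 2)
  ab : P.qt i 0 ≠ P.qt i 2

/-- moreover `v` lies in no cell but the translates of `i` -/
structure P45.Br {H V : Type} [Group H] [MulAction H V] {K : GX H V} (P : P45 K) (i : K.I) :
    Prop extends P.Ew i where
  only : ∀ (e : K.LE), K.c0 e = P.qt i 3 → e.1.1 = i ∧ e.1.2.1 = 3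
  nin : ∀ n, ¬ K.ar n (P.qt i 3)

namespace SyQ

variable {H V : Type} [Group H] [MulAction H V] {S : SyQ H V}

/-- the square `i` has two opposite vertices with common poles, at different places -/
structure Ewk (S : SyQ H V) (i : S.K.I) : Prop extends S.P.Ew i where
  sep0 : ∀ p, p ∈ S.J (S.P.qt i 3) → p ∉ S.J (S.P.qt i 1)

/-- the vertex `qt i 3` of the square `i` lies in no other cell -/
structure Phm (S : SyQ H V) (i : S.K.I) : Prop extends S.Ewk i where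
  only : ∀ (e : S.K.LE), S.K.c0 e = S.P.qt i 3 → e.1.1 = i ∧ e.1.2.1 = 3
  sep : ∀ (g : H) p, p ∈ S.J (g • S.P.qt i 3) → p ∉ S.J (S.P.qt i 1)

/-- the square is flipped -/
def Flp (S : SyQ H V) (i : S.K.I) : Prop := ∃ g : H, g • S.P.qt i 3 = S.P.qt i 3 ∧
  g • S.P.qt i 1 = S.P.qt i 1 ∧ g • S.P.qt i 0 = S.P.qt i 2 ∧ g • S.P.qt i 2 = S.P.qt i 0

namespace Phm

variable {i : S.K.I} (hi : S.Phm i)
include hi

theorem len : S.K.len i = 4 := S.P.len4 hi.sq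

theorem only0 {e : S.K.LE} {g : H} (h : S.K.c0 e = g • S.P.qt i 3) :
    e.1.1 = i ∧ e.1.2.1 = 3 := by
  have h1 : S.K.c0 (g⁻¹ • e) = S.P.qt i 3 := by
    rw [S.K.c0_smul, h, inv_smul_smul]
  exact hi.only (g⁻¹ • e) h1

theorem only2 {e : S.K.LE} {g : H} (h : S.K.c2 e = g • S.P.qt i 3) :
    e.1.1 = i ∧ e.1.2.1 = 1 := by
  obtain ⟨⟨j, k⟩, x⟩ := e
  have hl : 0 < S.K.len j := lt_of_le_of_lt (Nat.zero_le _) k.2
  have h1 : S.K.c0 ((⟨j, ⟨(k.1 + 2) % S.K.len j, Nat.mod_lt _ hl⟩⟩, x) : S.K.LE) =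
      g • S.P.qt i 3 := by
    rw [← h]
    show x • S.K.vx j ((k.1 + 2) % S.K.len j) = x • S.K.vx j (k.1 + 2)
    rw [S.K.vx_mod]
  obtain ⟨h2, h3⟩ := hi.only0 h1
  have h2 : j = i := h2
  subst h2
  refine ⟨rfl, ?_⟩
  have h3 : (k.1 + 2) % S.K.len j = 3 := h3
  have h4 := k.2
  have hl4 := hi.len
  generalize k.1 = k0 at h3 h4
  rw [hl4] at h3 h4
  show k0 = 1
  omega

omit hi in
theorem vx {i : S.K.I} (h : S.P.sq i) (j : ℕ) (k : Fin 4) (e : j % 4 = k) :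
    S.K.vx i j = S.P.qt i k := by
  rw [← S.K.vx_mod, S.P.len4 h, e, S.P.vx4 h]

/-- a corner which starts in the phantom -/
theorem cor0 {e : S.K.LE} {g : H} (h : S.K.c0 e = g • S.P.qt i 3) :
    S.K.c0 e = e.2 • S.P.qt i 3 ∧ S.K.c1 e = e.2 • S.P.qt i 0 ∧ S.K.c2 e = e.2 • S.P.qt i 1 := by
  obtain ⟨⟨j, k⟩, x⟩ := e
  obtain ⟨h2, h3⟩ := hi.only0 h
  have h2 : j = i := h2
  subst h2
  have h3 : k.1 = 3 := h3
  refine ⟨?_, ?_, ?_⟩
  · show x • S.K.vx j k.1 = _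
    rw [h3, vx hi.sq 3 3 rfl]
  · show x • S.K.vx j (k.1 + 1) = _
    rw [h3, vx hi.sq 4 0 rfl]
  · show x • S.K.vx j (k.1 + 2) = _
    rw [h3, vx hi.sq 5 1 rfl]

/-- a corner which ends in the phantom -/
theorem cor2 {e : S.K.LE} {g : H} (h : S.K.c2 e = g • S.P.qt i 3) :
    S.K.c0 e = e.2 • S.P.qt i 1 ∧ S.K.c1 e = e.2 • S.P.qt i 2 ∧ S.K.c2 e = e.2 • S.P.qt i 3 := by
  obtain ⟨⟨j, k⟩, x⟩ := e
  obtain ⟨h2, h3⟩ := hi.only2 h
  have h2 : j = i := h2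
  subst h2
  have h3 : k.1 = 1 := h3
  refine ⟨?_, ?_, ?_⟩
  · show x • S.K.vx j k.1 = _
    rw [h3, vx hi.sq 1 1 rfl]
  · show x • S.K.vx j (k.1 + 1) = _
    rw [h3, vx hi.sq 2 2 rfl]
  · show x • S.K.vx j (k.1 + 2) = _
    rw [h3, vx hi.sq 3 3 rfl]

/-- corners of the phantom -/
theorem cor {y m : V} {g : H} (h : S.K.Cor (g • S.P.qt i 3) y m) :
    ∃ x : H, g • S.P.qt i 3 = x • S.P.qt i 3 ∧ m = x • S.P.qt i 1 := by
  obtain ⟨e, ⟨h0, h1, h2⟩ | ⟨h0, h1, h2⟩⟩ := S.K.cor_LE.1 h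
  · obtain ⟨k0, k1, k2⟩ := hi.cor0 h0
    exact ⟨e.2, h0.symm.trans k0, h2.symm.trans k2⟩
  · obtain ⟨k0, k1, k2⟩ := hi.cor2 h2
    exact ⟨e.2, h2.symm.trans k2, h0.symm.trans k0⟩

theorem not_LIC {p : S.X} {y m : V} {g : H} : ¬ S.LIC p y (g • S.P.qt i 3) m := by
  rintro ⟨h1, -, h3, h4⟩
  obtain ⟨x, h5, rfl⟩ := hi.cor h1.1
  have h6 : x⁻¹ • p ∈ S.J (x⁻¹ • (g • S.P.qt i 3)) := S.js.smul x⁻¹ _ _ h3
  have h7 := S.js.smul x⁻¹ _ _ h4
  rw [inv_smul_smul] at h7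
  rw [← mul_smul] at h6
  exact hi.sep _ _ h6 h7

theorem LIJ_eq {p : S.X} {y m : V} {g : H} (h : S.LIJ p y (g • S.P.qt i 3) m) :
    m = g • S.P.qt i 3 := by
  have key : ∀ a b, S.LIJ p y a b → (a = g • S.P.qt i 3 ↔ b = g • S.P.qt i 3) := by
    intro a b k
    induction k with
    | rel a b k =>
      constructor
      · rintro rfl
        exact absurd k hi.not_LIC
      · rintro rfl
        exact absurd ⟨k.1.symm', k.2.1, k.2.2.2, k.2.2.1⟩ hi.not_LIC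
    | refl a => exact Iff.rfl
    | symm a b _ ih => exact ih.symm
    | trans a b c _ _ i1 i2 => exact i1.trans i2
  exact (key _ _ h).1 rfl

end Phm

/-- the corners `(T, b, v)` of the squares in `F` -/
def pQ (S : SyQ H V) (F : S.K.I → Prop) : SubMulAction H ↥(JM.cpl S.AJ) where
  carrier := {e | F e.1.1.1.1 ∧ e.1.1.1.2.1 = 1}
  smul_mem' _ _ h := h

theorem mem_pQ {F : S.K.I → Prop} {e : ↥(JM.cpl S.AJ)} :
    e ∈ S.pQ F ↔ (F e.1.1.1.1 ∧ e.1.1.1.2.1 = 1) := Iff.rfl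

/-- all lines but the corners `(T, b, v)` of the squares in `F` -/
def pR (S : SyQ H V) (F : S.K.I → Prop) : SubMulAction H ↥(JM.cpl S.AJ) := JM.cpl (S.pQ F)

theorem mem_pR {F : S.K.I → Prop} {e : ↥(JM.cpl S.AJ)} :
    e ∈ S.pR F ↔ ¬ (F e.1.1.1.1 ∧ e.1.1.1.2.1 = 1) := Iff.rfl

/-- lines with the same cell and position are one orbit -/
theorem line_orb {e e' : ↥(JM.cpl S.AJ)} (h : e.1.1.1 = e'.1.1.1) : ∃ g : H, e' = g • e := by
  refine ⟨e'.1.1.2 * e.1.1.2⁻¹, ?_⟩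
  apply Subtype.ext
  apply Subtype.ext
  show e'.1.1 = (e.1.1.1, e'.1.1.2 * e.1.1.2⁻¹ * e.1.1.2)
  rw [inv_mul_cancel_right, h]
  rfl

theorem pos_ext {e e' : S.K.LE} {i : S.K.I} {k : ℕ} (h : e.1.1 = i) (h' : e'.1.1 = i)
    (k1 : e.1.2.1 = k) (k2 : e'.1.2.1 = k) : e.1 = e'.1 := by
  obtain ⟨⟨j, n⟩, x⟩ := e
  obtain ⟨⟨j', n'⟩, x'⟩ := e'
  have h : j = i := h
  have h' : j' = i := h'
  subst h
  subst h'
  have k1 : n.1 = k := k1
  have k2 : n'.1 = k := k2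
  have : n = n' := Fin.ext (k1.trans k2.symm)
  rw [this]

/-- one orbit at a flipped phantom -/
theorem Phm.oneDirR {F : S.K.I → Prop} {i : S.K.I} (hi : S.Phm i) (hF : F i) (g : H) (p : S.X)
    (y : V) : S.OneDirR (S.pR F) p y (g • S.P.qt i 3) := by
  intro e e' b b' he he' h1 h1' h2 h2' h3 h3' h4
  have key : ∀ (e : ↥(JM.cpl S.AJ)) (b : Bool), e ∈ S.pR F →
      S.LIJ p y (g • S.P.qt i 3) (ce S.K b e.1.1) →
      b = true ∧ e.1.1.1.1 = i ∧ e.1.1.1.2.1 = 3 := by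
    intro e b he h3
    have h5 := hi.LIJ_eq h3
    cases b with
    | true => exact ⟨rfl, hi.only0 h5⟩
    | false =>
      exfalso
      obtain ⟨k1, k2⟩ := hi.only2 (e := e.1.1) h5
      exact he ⟨k1 ▸ hF, k2⟩
  obtain ⟨k1, k2, k3⟩ := key e b he h3
  obtain ⟨k1', k2', k3'⟩ := key e' b' he' h3'
  exact ⟨k1.trans k1'.symm, line_orb (pos_ext k2 k2' k3 k3')⟩

/-- a phantom which is not flipped -/
theorem Phm.oneDir {i : S.K.I} (hi : S.Phm i) {u w0 : S.X} (hu : S.J (S.P.qt i 3) = {u})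
    (hw : S.J (S.P.qt i 1) = {w0}) (had : S.D.G.Adj u w0)
    (hf : ∀ g : H, g • S.P.qt i 3 = S.P.qt i 3 → g • w0 = w0 → g • S.P.qt i 2 ≠ S.P.qt i 0)
    (g : H) {p : S.X} (hp : p ∈ S.J (g • S.P.qt i 3)) (y : V) :
    S.OneDir p y (g • S.P.qt i 3) := by
  intro e e' b b' he he' h1 h1' h2 h2' h3 h3' h4
  have hpg : p = g • u := by
    have h5 : g⁻¹ • p ∈ S.J (g⁻¹ • (g • S.P.qt i 3)) := S.js.smul g⁻¹ _ _ hp
    rw [inv_smul_smul, hu] at h5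
    rw [← Set.mem_singleton_iff.1 h5, smul_inv_smul]
  have h5 := hi.LIJ_eq h3
  have h5' := hi.LIJ_eq h3'
  -- the direction of the other end
  have dir : ∀ x : H, x • S.P.qt i 3 = g • S.P.qt i 3 → ∃ hx : S.D.G.Adj p (x • w0),
      S.rho p (x • S.P.qt i 1) = Sum.inr ⟨x • w0, hx⟩ := by
    intro x hx
    have hxp : p = x • u := by
      have h6 : x⁻¹ • p ∈ S.J (x⁻¹ • (g • S.P.qt i 3)) := S.js.smul x⁻¹ _ _ hp
      rw [← hx, inv_smul_smul, hu] at h6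
      rw [← Set.mem_singleton_iff.1 h6, smul_inv_smul]
    have ha : S.D.G.Adj p (x • w0) := by
      rw [hxp]
      exact S.D.adj_smul x _ _ had
    refine ⟨ha, S.rho_bey ha ?_⟩
    intro q hq
    have h7 : x⁻¹ • q ∈ S.J (x⁻¹ • (x • S.P.qt i 1)) := S.js.smul x⁻¹ _ _ hq
    rw [inv_smul_smul, hw] at h7
    have h8 : q = x • w0 := by
      rw [← Set.mem_singleton_iff.1 h7, smul_inv_smul]
    rw [h8]
    exact bey_self ha
  have eqd : ∀ x x' : H, x • S.P.qt i 3 = g • S.P.qt i 3 → x' • S.P.qt i 3 = g • S.P.qt i 3 →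
      S.rho p (x • S.P.qt i 1) = S.rho p (x' • S.P.qt i 1) → x • w0 = x' • w0 := by
    intro x x' hx hx' k
    obtain ⟨a1, a2⟩ := dir x hx
    obtain ⟨a1', a2'⟩ := dir x' hx'
    rw [a2, a2'] at k
    exact congrArg Subtype.val (Sum.inr.inj k)
  -- a corner at `a` and a corner at `b` have different directions
  have mix : ∀ x x' : H, x • S.P.qt i 3 = g • S.P.qt i 3 → x' • S.P.qt i 3 = g • S.P.qt i 3 →
      x • S.P.qt i 0 = x' • S.P.qt i 2 →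
      S.rho p (x • S.P.qt i 1) ≠ S.rho p (x' • S.P.qt i 1) := by
    intro x x' hx hx' k1 k2
    have k3 := eqd x x' hx hx' k2
    refine hf (x⁻¹ * x') ?_ ?_ ?_
    · rw [mul_smul, hx', ← hx, inv_smul_smul]
    · rw [mul_smul, ← k3, inv_smul_smul]
    · rw [mul_smul, ← k1, inv_smul_smul]
  cases b with
  | true =>
    obtain ⟨c0, c1, c2⟩ := hi.cor0 (e := e.1) h5
    obtain ⟨q1, q2⟩ := hi.only0 (e := e.1) h5
    have h5a : e.1.2 • S.P.qt i 3 = g • S.P.qt i 3 := c0.symm.trans h5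
    cases b' with
    | true =>
      obtain ⟨q1', q2'⟩ := hi.only0 (e := e'.1) h5'
      refine ⟨rfl, ?_⟩
      obtain ⟨j, hj⟩ := line_orb (e := ⟨e, he⟩) (e' := ⟨e', he'⟩) (pos_ext q1 q1' q2 q2')
      exact ⟨j, congrArg Subtype.val hj⟩
    | false =>
      exfalso
      obtain ⟨c0', c1', c2'⟩ := hi.cor2 (e := e'.1) h5'
      have h5a' : e'.1.2 • S.P.qt i 3 = g • S.P.qt i 3 := c2'.symm.trans h5'
      refine mix e.1.2 e'.1.2 h5a h5a' ?_ ?_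
      · rw [← c1, ← c1', h1, h1']
      · rw [← c2, ← c0']
        exact h4
  | false =>
    obtain ⟨c0, c1, c2⟩ := hi.cor2 (e := e.1) h5
    obtain ⟨q1, q2⟩ := hi.only2 (e := e.1) h5
    have h5a : e.1.2 • S.P.qt i 3 = g • S.P.qt i 3 := c2.symm.trans h5
    cases b' with
    | true =>
      exfalso
      obtain ⟨c0', c1', c2'⟩ := hi.cor0 (e := e'.1) h5'
      have h5a' : e'.1.2 • S.P.qt i 3 = g • S.P.qt i 3 := c0'.symm.trans h5'
      refine mix e'.1.2 e.1.2 h5a' h5a ?_ ?_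
      · rw [← c1, ← c1', h1, h1']
      · rw [← c0, ← c2']
        exact h4.symm
    | false =>
      obtain ⟨q1', q2'⟩ := hi.only2 (e := e'.1) h5'
      refine ⟨rfl, ?_⟩
      obtain ⟨j, hj⟩ := line_orb (e := ⟨e, he⟩) (e' := ⟨e', he'⟩) (pos_ext q1 q1' q2 q2')
      exact ⟨j, congrArg Subtype.val hj⟩

/-- the corner `(T, b, v)` -/
theorem Ewk.corQ {i : S.K.I} (hi : S.Ewk i) {k : Fin (S.K.len i)} (hk : k.1 = 1) (g : H) :
    S.K.c0 ((⟨i, k⟩, g) : S.K.LE) = g • S.P.qt i 1 ∧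
    S.K.c1 ((⟨i, k⟩, g) : S.K.LE) = g • S.P.qt i 2 ∧
    S.K.c2 ((⟨i, k⟩, g) : S.K.LE) = g • S.P.qt i 3 := by
  refine ⟨?_, ?_, ?_⟩
  · show g • S.K.vx i k.1 = _
    rw [hk, Phm.vx hi.sq 1 1 rfl]
  · show g • S.K.vx i (k.1 + 1) = _
    rw [hk, Phm.vx hi.sq 2 2 rfl]
  · show g • S.K.vx i (k.1 + 2) = _
    rw [hk, Phm.vx hi.sq 3 3 rfl]

/-- the ends of the duplicates -/
theorem pQ_ends {F : S.K.I → Prop} (hF : ∀ i, F i → S.Ewk i) {e : ↥(JM.cpl S.AJ)}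
    (he : e ∈ S.pQ F) : ∃ (i : S.K.I) (g : H) (y : V) (hT : S.K.ar (g • S.P.qt i 1) y)
      (hv : S.K.ar (g • S.P.qt i 3) y), F i ∧ g = e.1.1.2 ∧ i = e.1.1.1.1 ∧ y = g • S.P.qt i 2 ∧
      S.LPG.s e = S.lp hT ∧ S.LPG.t e = S.lp hv := by
  obtain ⟨⟨e0, he1⟩, he2⟩ := e
  obtain ⟨⟨i, k⟩, g⟩ := e0
  obtain ⟨hFi, hk⟩ : F i ∧ k.1 = 1 := he
  have hi := hF i hFi
  obtain ⟨k0, k1, k2⟩ := hi.corQ hk g
  have hT : S.K.ar (g • S.P.qt i 1) (g • S.P.qt i 2) := S.K.ar_smul g _ _ hi.Tb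
  have hv : S.K.ar (g • S.P.qt i 3) (g • S.P.qt i 2) := S.K.ar_smul g _ _ hi.vb
  refine ⟨i, g, g • S.P.qt i 2, hT, hv, hFi, rfl, rfl, rfl, ?_, ?_⟩
  · show S.K.pc.ct S.AJ (S.K.pc.s ⟨_, he1⟩) = S.K.pc.ct S.AJ ⟨PN.inn _ _, hT⟩
    congr 1
    apply Subtype.ext
    rw [GX.pc_s]
    show S.K.nd (S.K.c1 _) (S.K.c0 _) (S.K.c2 _) = _
    rw [k0, k1, k2]
    exact S.K.nd_in hT
  · show S.K.pc.ct S.AJ (S.K.pc.t ⟨_, he1⟩) = S.K.pc.ct S.AJ ⟨PN.inn _ _, hv⟩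
    congr 1
    apply Subtype.ext
    rw [GX.pc_t]
    show S.K.nd (S.K.c1 _) (S.K.c2 _) (S.K.c0 _) = _
    rw [k0, k1, k2]
    exact S.K.nd_in hv

/-- a duplicate has a parallel line which is no duplicate -/
theorem pQ_par {F : S.K.I → Prop} (hF : ∀ i, F i → S.Ewk i ∧ S.Flp i) {e : ↥(JM.cpl S.AJ)}
    (he : e ∈ S.pQ F) : ∃ e' ∈ S.pR F, S.LPG.s e' = S.LPG.t e ∧ S.LPG.t e' = S.LPG.s e := by
  obtain ⟨i, g, y, hT, hv, hFi, -, -, hy, es, et⟩ := pQ_ends (fun i h => (hF i h).1) he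
  obtain ⟨hi, f, f1, f2, f3, f4⟩ := hF i hFi
  have hl : S.K.len i = 4 := S.P.len4 hi.sq
  have l3 : 3 < S.K.len i := by
    rw [hl]
    omega
  let e0 : S.K.LE := (⟨i, ⟨3, l3⟩⟩, g * f)
  have k0 : S.K.c0 e0 = g • S.P.qt i 3 := by
    show (g * f) • S.K.vx i 3 = _
    rw [Phm.vx hi.sq 3 3 rfl, mul_smul, f1]
  have k1 : S.K.c1 e0 = y := by
    show (g * f) • S.K.vx i 4 = _
    rw [Phm.vx hi.sq 4 0 rfl, hy, mul_smul, f3]
  have k2 : S.K.c2 e0 = g • S.P.qt i 1 := by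
    show (g * f) • S.K.vx i 5 = _
    rw [Phm.vx hi.sq 5 1 rfl, mul_smul, f2]
  have h1 : e0 ∈ S.K.PE := by
    left
    rw [k0, k1]
    exact hv
  have h2 : (⟨e0, h1⟩ : ↥S.K.PE) ∈ JM.cpl S.AJ := by
    rintro ⟨-, p, p1, -, p3⟩
    have p1 : p ∈ S.J (S.K.c0 e0) := p1
    have p3 : p ∈ S.J (S.K.c2 e0) := p3
    rw [k0] at p1
    rw [k2] at p3
    have q1 := S.js.smul g⁻¹ _ _ p1
    have q3 := S.js.smul g⁻¹ _ _ p3
    rw [inv_smul_smul] at q1 q3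
    exact hi.sep0 _ q1 q3
  refine ⟨⟨⟨e0, h1⟩, h2⟩, ?_, ?_, ?_⟩
  · rintro ⟨-, k⟩
    have k : (3 : ℕ) = 1 := k
    omega
  · rw [et]
    show S.K.pc.ct S.AJ (S.K.pc.s ⟨_, h1⟩) = S.K.pc.ct S.AJ ⟨PN.inn _ _, hv⟩
    congr 1
    apply Subtype.ext
    rw [GX.pc_s]
    show S.K.nd (S.K.c1 e0) (S.K.c0 e0) (S.K.c2 e0) = _
    rw [k0, k1, k2]
    exact S.K.nd_in hv
  · rw [es]
    show S.K.pc.ct S.AJ (S.K.pc.t ⟨_, h1⟩) = S.K.pc.ct S.AJ ⟨PN.inn _ _, hT⟩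
    congr 1
    apply Subtype.ext
    rw [GX.pc_t]
    show S.K.nd (S.K.c1 e0) (S.K.c2 e0) (S.K.c0 e0) = _
    rw [k0, k1, k2]
    exact S.K.nd_in hT

/-- a duplicate line -/
theorem exists_pQ {F : S.K.I → Prop} {i : S.K.I} (hi : S.Ewk i) (hFi : F i) :
    ∃ e : ↥(JM.cpl S.AJ), e ∈ S.pQ F ∧ e.1.1.1.1 = i := by
  have hl : S.K.len i = 4 := S.P.len4 hi.sq
  have l1 : 1 < S.K.len i := by
    rw [hl]
    omega
  let e0 : S.K.LE := (⟨i, ⟨1, l1⟩⟩, 1)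
  obtain ⟨k0, k1, k2⟩ := hi.corQ (k := ⟨1, l1⟩) rfl (1 : H)
  have k0 : S.K.c0 e0 = S.P.qt i 1 := k0.trans (one_smul _ _)
  have k1 : S.K.c1 e0 = S.P.qt i 2 := k1.trans (one_smul _ _)
  have k2 : S.K.c2 e0 = S.P.qt i 3 := k2.trans (one_smul _ _)
  have h1 : e0 ∈ S.K.PE := by
    left
    rw [k0, k1]
    exact hi.Tb
  have h2 : (⟨e0, h1⟩ : ↥S.K.PE) ∈ JM.cpl S.AJ := by
    rintro ⟨-, p, p1, -, p3⟩
    have p1 : p ∈ S.J (S.K.c0 e0) := p1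
    have p3 : p ∈ S.J (S.K.c2 e0) := p3
    rw [k0] at p1
    rw [k2] at p3
    exact hi.sep0 _ p3 p1
  exact ⟨⟨⟨e0, h1⟩, h2⟩, ⟨hFi, rfl⟩, rfl⟩

/-- the number of orbits of duplicates -/
theorem card_pQ {F : S.K.I → Prop} (hF : ∀ i, F i → S.Ewk i) :
    Nat.card (orbitRel.Quotient H ↥(S.pQ F)) = Nat.card {i // F i} := by
  classical
  have hf : ∀ q : orbitRel.Quotient H ↥(S.pQ F), ∃ i : {i // F i}, ∀ e : ↥(S.pQ F),
      oq H e = q → e.1.1.1.1.1 = i.1 := by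
    intro q
    obtain ⟨e, rfl⟩ := oq_surj q
    refine ⟨⟨e.1.1.1.1.1, e.2.1⟩, ?_⟩
    intro e' h
    obtain ⟨g, hg⟩ := oq_eq.1 h
    have := congrArg (fun z : ↥(S.pQ F) => z.1.1.1.1.1) hg
    exact this.symm
  choose f hf using hf
  apply Nat.card_congr
  refine Equiv.ofBijective f ⟨?_, ?_⟩
  · intro q q' h
    obtain ⟨e, rfl⟩ := oq_surj q
    obtain ⟨e', rfl⟩ := oq_surj q'
    have h1 := hf _ e rfl
    have h2 := hf _ e' rfl
    rw [h] at h1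
    obtain ⟨g, hg⟩ := line_orb (pos_ext h1 h2 e.2.2 e'.2.2)
    exact oq_eq.2 ⟨g, Subtype.ext hg⟩
  · rintro ⟨i, hi⟩
    obtain ⟨e, he, h⟩ := exists_pQ (hF i hi) hi
    refine ⟨oq H (⟨e, he⟩ : ↥(S.pQ F)), Subtype.ext ?_⟩
    rw [← hf _ ⟨e, he⟩ rfl]
    exact h

/-! ### bare vertices -/

/-- a bare vertex `v = qt i 3` over `u`; the other top `T = qt i 1` is over the neighbour `w0` -/
structure Bare (S : SyQ H V) (i : S.K.I) (u w0 : S.X) : Prop extends S.P.Br i where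
  Jv : S.J (S.P.qt i 3) = {u}
  JT : S.J (S.P.qt i 1) = {w0}
  adj : S.D.G.Adj u w0
  uw : ∀ g : H, g • u ≠ w0
  det : ∀ g : H, g • S.P.qt i 3 = S.P.qt i 3 → g • w0 = w0 → g • S.P.qt i 1 = S.P.qt i 1

theorem Bare.ewk {i : S.K.I} {u w0 : S.X} (hi : S.Bare i u w0) : S.Ewk i where
  toEw := hi.toEw
  sep0 p h1 h2 := by
    rw [hi.JT] at h2
    rw [hi.Jv] at h1
    apply hi.adj.ne
    rw [← Set.mem_singleton_iff.1 h1]
    exact h2

theorem Bare.phm {i : S.K.I} {u w0 : S.X} (hi : S.Bare i u w0) : S.Phm i where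
  toEwk := hi.ewk
  only := hi.only
  sep g p h1 h2 := by
    rw [hi.JT] at h2
    have h3 : g⁻¹ • p ∈ S.J (g⁻¹ • (g • S.P.qt i 3)) := S.js.smul g⁻¹ _ _ h1
    rw [inv_smul_smul, hi.Jv] at h3
    apply hi.uw g
    rw [← Set.mem_singleton_iff.1 h3, smul_inv_smul]
    exact h2

/-- one direction is one orbit at a bare vertex, without the duplicates -/
theorem Bare.oneDirR {i : S.K.I} {u w0 : S.X} (hi : S.Bare i u w0) {F : S.K.I → Prop}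
    (hF : S.Flp i → F i) {g : H} {p : S.X} (hp : p ∈ S.J (g • S.P.qt i 3)) (y : V) :
    S.OneDirR (S.pR F) p y (g • S.P.qt i 3) := by
  by_cases hf : S.Flp i
  · exact hi.phm.oneDirR (hF hf) g p y
  · refine (hi.phm.oneDir hi.Jv hi.JT hi.adj ?_ g hp y).R _
    intro k k1 k2 k3
    apply hf
    have ka : S.K.ar (S.P.qt i 3) (k • S.P.qt i 0) := by
      have := S.K.ar_smul k _ _ hi.va
      rwa [k1] at this
    refine ⟨k, k1, hi.det k k1 k2, ?_, k3⟩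
    rcases S.K.two _ _ _ _ ka hi.va hi.vb with e | e | e
    · exfalso
      have : k • S.P.qt i 0 = k • S.P.qt i 2 := e.trans k3.symm
      exact hi.ab (smul_left_cancel k this)
    · exact absurd e hi.ab
    · exact e

/-- [LOST]: if all lost nodes are bare vertices -/
theorem lostR_of_bare {ι : Type} {w : ι → S.X} {F : S.K.I → Prop}
    (h : ∀ y n, S.K.ar n y → ∀ p, p ∈ S.J y → p ∈ S.J n → ¬ Bp H w p →
      ∃ (i : S.K.I) (g : H) (u w0 : S.X), n = g • S.P.qt i 3 ∧ S.Bare i u w0 ∧ (S.Flp i → F i)) :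
    S.LostR (S.pR F) w := by
  intro y n har p h1 h2 h3
  obtain ⟨i, g, u, w0, rfl, hi, hF⟩ := h y n har p h1 h2 h3
  exact hi.oneDirR hF h2 y

/-- [LOST] if no bare vertex is flipped -/
theorem lostD_of_bare {ι : Type} {w : ι → S.X}
    (h : ∀ y n, S.K.ar n y → ∀ p, p ∈ S.J y → p ∈ S.J n → ¬ Bp H w p →
      ∃ (i : S.K.I) (g : H) (u w0 : S.X), n = g • S.P.qt i 3 ∧ S.Bare i u w0 ∧ ¬ S.Flp i) :
    S.LostD w := by
  intro y n har p h1 h2 h3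
  obtain ⟨i, g, u, w0, rfl, hi, hf⟩ := h y n har p h1 h2 h3
  refine hi.phm.oneDir hi.Jv hi.JT hi.adj ?_ g h2 y
  intro k k1 k2 k3
  apply hf
  have ka : S.K.ar (S.P.qt i 3) (k • S.P.qt i 0) := by
    have := S.K.ar_smul k _ _ hi.va
    rwa [k1] at this
  refine ⟨k, k1, hi.det k k1 k2, ?_, k3⟩
  rcases S.K.two _ _ _ _ ka hi.va hi.vb with e | e | e
  · exfalso
    have : k • S.P.qt i 0 = k • S.P.qt i 2 := e.trans k3.symm
    exact hi.ab (smul_left_cancel k this)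
  · exact absurd e hi.ab
  · exact e

end SyQ

end Pool.Agent.DI
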