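import Pool.Agent.DI.XSd

/-!
# One crossing corner at a thin soft (helper78)

`Th1 z`: the corners at a pole of `z` are one orbit. Then the component of every page of `z` has pole
excess at most zero (`exc_thin`), so in the equality case of the exc-law the degrees are the numbers of
the pole ends (`thin_deg`), and the corners of `z` which cross an edge are one orbit (`uqC_thin`).
-/

namespace Pool.Agent.DI

open MulAction
open Pool.Agent.SAF (InC orbs FinOrb oc Decomp SAn SA Conv hull dist_edge FinOrb_iff exists_next TAct)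
open Pool.Agent.SAG (IO Zt)
open Pool.Agent.BT (PX PQ JS bey exits mst Hyp finite_of_hyp axis)
open Pool.Agent.BT.TA

namespace SyQ

variable {H V : Type} [Group H] [MulAction H V] {S : SyQ H V}

/-- a private pole is alone in its class -/
theorem ct_PO1 {t t' : ↥S.K.PT} (h : S.K.pc.ct S.AJ t = S.K.pc.ct S.AJ t') (ht : t ∈ S.K.PO) :
    t = t' := by
  have key : ∀ a b : ↥S.K.PT, Relation.EqvGen (S.K.pc.sub S.AJ).st a b →
      a ∈ S.K.PO ∨ b ∈ S.K.PO → a = b := by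
    intro a b h
    induction h with
    | rel a b h =>
      obtain ⟨⟨e, he⟩, rfl, rfl⟩ := h
      rintro (k | k)
      · exact absurd k (S.K.not_PO (AJ_s he))
      · exact absurd k (S.K.not_PO (AJ_t he))
    | refl a => exact fun _ => rfl
    | symm a b _ ih => exact fun k => (ih k.symm).symm
    | trans a b c _ _ i1 i2 =>
      rintro (k | k)
      · have e1 := i1 (Or.inl k)
        subst e1
        exact i2 (Or.inl k)
      · have e2 := i2 (Or.inr k)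
        subst e2
        exact i1 (Or.inr k)
  exact key t t' (S.K.pc.ct_eq.1 h) (Or.inl ht)

theorem pk_pv {K : GX H V} (t : PN V) : (K.pk t).1 = t.pv := by
  cases t <;> rfl

/-- the lines of the component of a page are corners of the vertex -/
theorem comp_c1 {z n : V} (h : S.K.ar n z) {t : ↥S.K.PT}
    (ht : Relation.EqvGen S.LPG.st (S.lp h) (S.K.pc.ct S.AJ t)) : t.1.pv = z := by
  have h1 : Relation.EqvGen S.K.pc.st ⟨PN.inn z n, h⟩ t := (JM.con_eqv _ S.AJ).1 ht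
  rw [GX.pc_eqv] at h1
  have h2 := congrArg Prod.fst h1
  rw [pk_pv, pk_pv] at h2
  exact h2.symm

theorem mem_PL_ct {t : ↥S.K.PT} :
    (oq H (S.K.pc.ct S.AJ t) : orbitRel.Quotient H (S.K.pc.CT S.AJ)) ∈ S.PL ↔ t ∈ S.K.PO := by
  refine (S.LPG.mem_imN (x := S.K.pc.ct S.AJ t)).trans ?_
  constructor
  · rintro ⟨t', ht', e⟩
    have := ct_PO1 (S := S) e ht'
    rwa [← this]
  · exact fun h => ⟨t, h, rfl⟩

/-- the ends of a line -/
theorem en_LG (ε : ↥(JM.cpl S.AJ)) (b : Bool) :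
    S.LPG.en ε b = S.K.pc.ct S.AJ (S.K.pc.en ε.1 b) := by
  cases b <;> rfl

theorem en_pc (e : ↥S.K.PE) (b : Bool) :
    (S.K.pc.en e b).1 = S.K.nd (S.K.c1 e.1) (ce S.K b e.1) (ce S.K (!b) e.1) := by
  cases b <;> rfl

theorem ce_En (e : S.K.LE) (b : Bool) : S.En e (ce S.K b e) (ce S.K (!b) e) := by
  cases b
  · exact Or.inr ⟨rfl, rfl⟩
  · exact Or.inl ⟨rfl, rfl⟩

theorem en_PO {e : ↥S.K.PE} {b : Bool} :
    S.K.pc.en e b ∈ S.K.PO ↔ S.K.ar (S.K.c1 e.1) (ce S.K b e.1) := by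
  have h1 : S.K.pc.en e b ∈ S.K.PO ↔ ¬ S.K.ar (ce S.K b e.1) (S.K.c1 e.1) := by
    cases b
    · exact S.K.nd_PO
    · exact S.K.nd_PO
  rw [h1]
  constructor
  · intro h
    exact (ce_E S.K b e.1).resolve_right h
  · exact fun h h' => ar_not h h'

/-- the component of a page of a thin soft has no pole excess -/
theorem exc_thin {z n : V} (h : S.K.ar n z) (th : S.Th1 z) :
    (S.LPG.comp (S.lp h)).fg.exc (S.LPG.rs (S.lp h) S.PL) ≤ 0 := by
  classical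
  have hP : ∀ (ε : ↥(S.LPG.cE (S.lp h))) (b : Bool) (hb : S.LPG.en ε.1 b ∈ S.LPG.cT (S.lp h)),
      (oq ↥(S.LPG.grp (S.lp h)) (⟨S.LPG.en ε.1 b, hb⟩ : ↥(S.LPG.cT (S.lp h))) :
        (S.LPG.comp (S.lp h)).fg.N) ∈ S.LPG.rs (S.lp h) S.PL ↔
      S.K.ar (S.K.c1 ε.1.1.1) (ce S.K b ε.1.1.1) := by
    intro ε b hb
    have h1 : (oq ↥(S.LPG.grp (S.lp h)) (⟨S.LPG.en ε.1 b, hb⟩ : ↥(S.LPG.cT (S.lp h))) :
        (S.LPG.comp (S.lp h)).fg.N) ∈ S.LPG.rs (S.lp h) S.PL ↔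
        (oq H (S.LPG.en ε.1 b) : orbitRel.Quotient H (S.K.pc.CT S.AJ)) ∈ S.PL := Iff.rfl
    rw [h1, en_LG, mem_PL_ct, en_PO]
  have hs : ∀ ε : ↥(S.LPG.cE (S.lp h)), S.LPG.en ε.1 true ∈ S.LPG.cT (S.lp h) := fun ε => ε.2
  have ht : ∀ ε : ↥(S.LPG.cE (S.lp h)), S.LPG.en ε.1 false ∈ S.LPG.cT (S.lp h) :=
    fun ε => S.LPG.mem_cE'.1 ε.2
  have hen : ∀ (ε : ↥(S.LPG.cE (S.lp h))) (b : Bool), S.LPG.en ε.1 b ∈ S.LPG.cT (S.lp h) := by
    intro ε b
    cases b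
    · exact ht ε
    · exact hs ε
  have hc1 : ∀ ε : ↥(S.LPG.cE (S.lp h)), S.K.c1 ε.1.1.1 = z := by
    intro ε
    have h1 := comp_c1 h (t := S.K.pc.en ε.1.1 true) (by
      rw [← en_LG]
      exact hs ε)
    rw [en_pc, S.K.nd_pv] at h1
    exact h1
  -- the pole end of a line
  have hex : ∀ l : {l : (S.LPG.comp (S.lp h)).fg.L //
      (S.LPG.comp (S.lp h)).fg.a l ∈ S.LPG.rs (S.lp h) S.PL ∨
        (S.LPG.comp (S.lp h)).fg.b l ∈ S.LPG.rs (S.lp h) S.PL},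
      ∃ (ε : ↥(S.LPG.cE (S.lp h))) (b : Bool),
        (oq ↥(S.LPG.grp (S.lp h)) ε : (S.LPG.comp (S.lp h)).fg.L) = l.1 ∧
        S.K.ar z (ce S.K b ε.1.1.1) := by
    rintro ⟨l, hl⟩
    obtain ⟨ε, rfl⟩ := oq_surj l
    rcases hl with hl | hl
    · have h1 := (hP ε true (hs ε)).1 hl
      rw [hc1 ε] at h1
      exact ⟨ε, true, rfl, h1⟩
    · have h1 := (hP ε false (ht ε)).1 hl
      rw [hc1 ε] at h1
      exact ⟨ε, false, rfl, h1⟩
  choose ε b e1 e2 using hex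
  let f : {l : (S.LPG.comp (S.lp h)).fg.L //
      (S.LPG.comp (S.lp h)).fg.a l ∈ S.LPG.rs (S.lp h) S.PL ∨
        (S.LPG.comp (S.lp h)).fg.b l ∈ S.LPG.rs (S.lp h) S.PL} →
      ↥(S.LPG.rs (S.lp h) S.PL) := fun l =>
    ⟨oq ↥(S.LPG.grp (S.lp h)) (⟨S.LPG.en (ε l).1 (b l), hen (ε l) (b l)⟩ : ↥(S.LPG.cT (S.lp h))),
      (hP (ε l) (b l) (hen (ε l) (b l))).2 (by rw [hc1 (ε l)]; exact e2 l)⟩
  have inj : Function.Injective f := by
    intro l l' hl
    have h1 := congrArg Subtype.val hl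
    obtain ⟨j, hj⟩ := (oq_eq (J := ↥(S.LPG.grp (S.lp h))) (T := ↥(S.LPG.cT (S.lp h)))).1 h1
    have h2 : S.LPG.en (ε l').1 (b l') = j.1 • S.LPG.en (ε l).1 (b l) := congrArg Subtype.val hj
    rw [en_LG, en_LG, ← S.K.pc.ct_smul] at h2
    have h3 := ct_PO1 (S := S) h2 (en_PO.2 (by rw [hc1 (ε l')]; exact e2 l'))
    have h4 : (S.K.pc.en (ε l').1.1 (b l')).1 = j.1 • (S.K.pc.en (ε l).1.1 (b l)).1 :=
      congrArg Subtype.val h3
    rw [en_pc, en_pc, hc1, hc1, S.K.nd_pol (e2 l'), S.K.nd_pol (e2 l), PN.smul_pol] at h4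
    obtain ⟨jz, ja, -⟩ := PN.pol.inj h4
    -- the two corners at the pole
    have k1 := (ce_En (ε l).1.1.1 (b l)).smul j.1
    rw [← ja] at k1
    obtain ⟨g, gz, ga, ge⟩ := th (ce S.K (b l') (ε l').1.1.1) (e2 l') (j.1 • (ε l).1.1.1)
      (ε l').1.1.1 _ _ (by rw [S.K.c1_smul, hc1, ← jz]) (hc1 (ε l')) k1 (ce_En (ε l').1.1.1 (b l'))
    have h5 : (ε l').1 = (g * j.1) • (ε l).1 := by
      apply Subtype.ext
      apply Subtype.ext
      rw [ge]
      exact (mul_smul _ _ _).symm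
    have h6 : g * j.1 ∈ S.LPG.grp (S.lp h) := by
      refine S.LPG.grp_of (hs (ε l)) ?_
      have := hs (ε l')
      rw [h5] at this
      have h7 : S.LPG.en ((g * j.1) • (ε l).1) true = (g * j.1) • S.LPG.en (ε l).1 true :=
        S.LPG.hs _ _
      rwa [h7] at this
    apply Subtype.ext
    rw [← e1 l, ← e1 l']
    exact oq_eq.2 ⟨⟨g * j.1, h6⟩, Subtype.ext h5⟩
  unfold FG.exc FG.pst
  have hf : Finite ↥(S.LPG.rs (S.lp h) S.PL) := by
    have := (S.LPG.comp (S.lp h)).fg.fN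
    infer_instance
  have := Nat.card_le_card_of_injective f inj
  omega

section

variable (hc : S.Conn) (hnb : S.NB) {ι : Type} (w : ι → S.X)
  (hw : ∀ (i j : ι) (g : H), g • w i = w j → i = j)

/-- IN THE EQUALITY CASE the degrees at the pages of a thin soft are the numbers of the pole ends -/
theorem thin_deg [Fintype ι] (hS : S.SinkH) (hL : S.Lost w) (hs : SoftLe hc hnb w hw)
    (h0 : ∑ i, (S.k0 hc (w i)).pexc ≤ S.K.pexc) {z : V} (th : S.Th1 z) {n : V}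
    (h : S.K.ar n z) : S.LPG.fg.deg (oq H (S.lp h)) = exE hc hnb w hw (oq H (S.lp h)) := by
  have hf' : Fintype (S.LPG.comp (S.lp h)).fg.N := Fintype.ofFinite _
  have key := pexc_eq hc hnb w hw hS hL hs h0 h
  have h1 := exc_thin h th
  rw [key] at h1
  have h2 := FG.aftE_zero _ (e := S.LPG.re (S.lp h) (exE hc hnb w hw))
    (D := S.LPG.rs (S.lp h) S.PL) ?_ h1
    (oq _ (⟨S.lp h, Relation.EqvGen.refl _⟩ : ↥(S.LPG.cT (S.lp h)))) ?_
  · have h3 := S.LPG.deg_comp' (S.lp h)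
      (oq _ (⟨S.lp h, Relation.EqvGen.refl _⟩ : ↥(S.LPG.cT (S.lp h))))
    exact h3.symm.trans h2
  · intro x hx
    obtain ⟨Q, rfl⟩ := oq_surj x
    have h3 := S.LPG.deg_comp' (S.lp h) (oq _ Q)
    refine le_of_le_of_eq ?_ h3.symm
    show exE hc hnb w hw (oq H Q.1) ≤ S.LPG.fg.deg (oq H Q.1)
    obtain ⟨t, ht⟩ := S.K.pc.ct_surj Q.1
    rcases S.K.pt_cases t with ⟨y, m, k, e1⟩ | ⟨y, a, m, k1, k2, k3, e1⟩
    · have e2 : Q.1 = S.lp k := by
        rw [← ht]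
        exact congrArg _ (Subtype.ext e1)
      rw [e2]
      exact exE_le_deg hc hnb w hw k
    · exfalso
      apply hx
      show (oq H Q.1 : orbitRel.Quotient H (S.K.pc.CT S.AJ)) ∈ S.PL
      rw [← ht, mem_PL_ct]
      exact S.K.mem_PO e1
  · intro k
    exact lp_PL h k

/-- IN THE EQUALITY CASE the corners of a thin soft which cross an edge are one orbit -/
theorem uqC_thin [Fintype ι] (hS : S.SinkH) (hL : S.Lost w) (hs : SoftLe hc hnb w hw)
    (h0 : ∑ i, (S.k0 hc (w i)).pexc ≤ S.K.pexc) {z : V} (hl : S.K.LC z) (th : S.Th1 z)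
    (hO : ∀ n, S.K.ar n z → ∀ p, p ∈ S.J z → p ∈ S.J n → ¬ Bp H w p → S.OneDir p z n)
    {x u : S.X} (hu : S.D.G.Adj x u) (hxu : S.Cs x u z) : S.UqC x u z :=
  uqC_of hu hxu hl
    (SU_of hc hnb w hw (fun n h p _ _ _ => (thin_deg hc hnb w hw hS hL hs h0 th h).le) hO) th

end

end SyQ

end Pool.Agent.DI
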