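import Pool.Agent.DI.ExcS

/-!
# Lost nodes and the components of the softs

`FG.aftE_lost`: lost nodes get their degree as value, then only the poles are left out.
`JM.exc_soft`: a component with one or two poles: the pole excess does not drop; `JM.exc_soft_eq`: if it
has two poles and nothing is gained then every node has two pole ends, or one and its stabiliser swaps
the poles.
-/

namespace Pool.Agent.DI

open MulAction
open Pool.Agent.SAF (orbs FinOrb oc oc_mono)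

namespace FG

variable (G : FG)

open Classical in
/-- lost nodes get their degree -/
noncomputable def elost (D : Set G.N) (e : G.N → ℕ) : G.N → ℕ :=
  fun x => if x ∈ D then G.deg x else e x

theorem elost_in {D : Set G.N} {e : G.N → ℕ} {x : G.N} (h : x ∈ D) : G.elost D e x = G.deg x :=
  if_pos h

theorem elost_out {D : Set G.N} {e : G.N → ℕ} {x : G.N} (h : x ∉ D) : G.elost D e x = e x :=
  if_neg h

theorem aftE_lost [Fintype G.N] {D P : Set G.N} (h : P ⊆ D) (e : G.N → ℕ) :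
    G.aftE D e = G.aftE P (G.elost D e) := by
  classical
  unfold aftE
  apply Finset.sum_congr rfl
  intro x _
  by_cases hP : x ∈ P
  · rw [if_pos hP, if_pos (h hP)]
  · by_cases hD : x ∈ D
    · rw [if_pos hD, if_neg hP, G.elost_in hD, sub_self]
    · rw [if_neg hD, if_neg hP, G.elost_out hD]

end FG

namespace JM

variable {J T Ed : Type} [Group J] [MulAction J T] [MulAction J Ed] (M : JM J T Ed)

/-- some element of the stabiliser moves a pole -/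
def Mv (Pl : SubMulAction J T) (x : T) : Prop := ∃ j ∈ stabilizer J x, ∃ p ∈ Pl, j • p ≠ p

theorem fg_cn (hne : Nonempty T) (hconn : ∀ x y : T, Relation.EqvGen M.st x y) : M.fg.Cn := by
  rw [cn_iff]
  exact ⟨hne, fun x y => ⟨1, by rw [one_smul]; exact hconn x y⟩⟩

open Classical in
/-- the sign of the action on two poles -/
noncomputable def sgn {Pl : SubMulAction J T} {p p' : T} (hp : p ∈ Pl) (hp' : p' ∈ Pl)
    (h2 : ∀ x ∈ Pl, x = p ∨ x = p') (hne : p ≠ p') : J →* ℤˣ where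
  toFun j := if j • p = p then 1 else -1
  map_one' := if_pos (one_smul _ _)
  map_mul' i j := by
    have h3 : ∀ j : J, j • p ≠ p → j • p = p' ∧ j • p' = p := by
      intro j h
      have h4 := (h2 _ (Pl.smul_mem j hp)).resolve_left h
      refine ⟨h4, (h2 _ (Pl.smul_mem j hp')).resolve_right fun h5 => ?_⟩
      exact hne (smul_left_cancel j (h4.trans h5.symm))
    have h6 : ((-1 : ℤˣ) * -1) = 1 := by decide
    by_cases hj : j • p = p
    · by_cases hi : i • p = p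
      · rw [if_pos hj, if_pos hi, mul_smul, hj, if_pos hi, mul_one]
      · rw [if_pos hj, if_neg hi, mul_smul, hj, if_neg hi, mul_one]
    · obtain ⟨k1, k2⟩ := h3 j hj
      by_cases hi : i • p = p
      · rw [if_neg hj, if_pos hi, mul_smul, k1, if_neg, one_mul]
        intro h
        have := (h2 _ (Pl.smul_mem i hp')).resolve_left
        have h7 : i • p' = i • p := h.trans hi.symm
        exact hne (smul_left_cancel i h7).symm
      · obtain ⟨k3, k4⟩ := h3 i hi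
        rw [if_neg hj, if_neg hi, mul_smul, k1, k4, if_pos rfl, h6]

theorem sgn_neg {Pl : SubMulAction J T} {p p' : T} (hp : p ∈ Pl) (hp' : p' ∈ Pl)
    (h2 : ∀ x ∈ Pl, x = p ∨ x = p') (hne : p ≠ p') {j : J} :
    sgn hp hp' h2 hne j = -1 ↔ j • p ≠ p := by
  classical
  show (if j • p = p then (1 : ℤˣ) else -1) = -1 ↔ _
  have h : ¬ ((1 : ℤˣ) = -1) := by decide
  by_cases hj : j • p = p
  · rw [if_pos hj]
    exact ⟨fun k => absurd k h, fun k => absurd hj k⟩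
  · rw [if_neg hj]
    exact ⟨fun _ => hj, fun _ => rfl⟩

theorem Sw_sgn {Pl : SubMulAction J T} {p p' : T} (hp : p ∈ Pl) (hp' : p' ∈ Pl)
    (h2 : ∀ x ∈ Pl, x = p ∨ x = p') (hne : p ≠ p') (x : T) :
    Sw (sgn hp hp' h2 hne) (stabilizer J x) ↔ Mv Pl x := by
  constructor
  · rintro ⟨j, hj, hs⟩
    exact ⟨j, hj, p, hp, (sgn_neg hp hp' h2 hne).1 hs⟩
  · rintro ⟨j, hj, q, hq, hs⟩
    refine ⟨j, hj, (sgn_neg hp hp' h2 hne).2 fun h => hs ?_⟩
    rcases h2 q hq with rfl | rfl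
    · exact h
    · refine (h2 _ (Pl.smul_mem j hq)).resolve_left fun h3 => ?_
      have h4 : j • q = j • p := h3.trans h.symm
      exact hne (smul_left_cancel j h4).symm

/-- what is assumed of a component with poles -/
structure SoftC (Pl : SubMulAction J T) (e : M.fg.N → ℕ) : Prop where
  two : ∀ p q r : T, p ∈ Pl → q ∈ Pl → r ∈ Pl → p = q ∨ q = r ∨ p = r
  nepl : ∃ p, p ∈ Pl
  ne : ∃ x, x ∉ Pl
  conn : ∀ x y : T, Relation.EqvGen M.st x y
  dconn : ∀ x y : ↥(cpl Pl), Relation.EqvGen (M.dn Pl).st x y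
  pp : ∀ e : Ed, ¬ (M.s e ∈ Pl ∧ M.t e ∈ Pl)
  e2 : ∀ x : T, x ∉ Pl → e (oq J x) ≤ 2
  e1 : ∀ x : T, x ∉ Pl → Mv Pl x → e (oq J x) ≤ 1
  one : (∃ p, ∀ q ∈ Pl, q = p) → ∃ x : T, x ∉ Pl ∧ e (oq J x) ≤ 1

variable {M}

theorem SoftC.hDD {Pl : SubMulAction J T} {e : M.fg.N → ℕ} (h : M.SoftC Pl e) :
    M.fg.nDD (M.imN Pl) = 0 := by
  rw [FG.nDD_zero]
  intro q
  obtain ⟨e, rfl⟩ := oq_surj q
  rintro ⟨h1, h2⟩
  exact h.pp e ⟨M.mem_imN.1 h1, M.mem_imN.1 h2⟩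

theorem SoftC.hM {Pl : SubMulAction J T} {e : M.fg.N → ℕ} (h : M.SoftC Pl e) : M.fg.Cn := by
  obtain ⟨x, -⟩ := h.ne
  exact M.fg_cn ⟨x⟩ h.conn

theorem SoftC.e2' {Pl : SubMulAction J T} {e : M.fg.N → ℕ} (h : M.SoftC Pl e) (q : M.fg.N)
    (hq : q ∉ M.imN Pl) : e q ≤ 2 := by
  obtain ⟨x, rfl⟩ := oq_surj q
  exact h.e2 x fun k => hq (M.mem_imN.2 k)

/-- two poles in one orbit -/
theorem SoftC.self [Fintype M.fg.N] {Pl : SubMulAction J T} {e : M.fg.N → ℕ} (h : M.SoftC Pl e)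
    {p p' : T} (hp : p ∈ Pl) (hp' : p' ∈ Pl) (hne : p ≠ p') {j : J} (hj : p' = j • p) :
    M.fg.exc (M.imN Pl) ≤ M.fg.aftE (M.imN Pl) e ∧
      (M.fg.aftE (M.imN Pl) e ≤ M.fg.exc (M.imN Pl) → (M.dn Pl).fg.b1 = 0 ∧
        Nat.card ↥(M.mNf (Sw (sgn hp hp' (fun x hx => by
          rcases h.two x p p' hx hp hp' with k | k | k
          · exact Or.inl k
          · exact absurd k hne
          · exact Or.inr k) hne)) \ M.imN Pl) = 1 ∧
        ∀ x : T, x ∉ Pl → e (oq J x) = 2 ∨ (e (oq J x) = 1 ∧ Mv Pl x)) := by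
  have h2 : ∀ x ∈ Pl, x = p ∨ x = p' := fun x hx => by
    rcases h.two x p p' hx hp hp' with k | k | k
    · exact Or.inl k
    · exact absurd k hne
    · exact Or.inr k
  have hσ : ∃ g, sgn hp hp' h2 hne g = -1 :=
    ⟨j, (sgn_neg hp hp' h2 hne).2 (by rw [← hj]; exact hne.symm)⟩
  have hp1 : Nat.card ↥(M.imN Pl) = 1 := by
    have h3 := M.card_im_le (Q := Pl) (p := p) (fun x hx => by
      rcases h2 x hx with rfl | rfl
      · exact ⟨1, (one_smul _ _).symm⟩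
      · exact ⟨j, hj⟩)
    have h4 : 0 < Nat.card ↥(M.imN Pl) := by
      have : Nonempty ↥(M.imN Pl) := ⟨⟨oq J p, M.mem_imN.2 hp⟩⟩
      exact Nat.card_pos
    omega
  have hw : ∀ x : T, x ∉ Pl → ((oq J x : M.fg.N) ∈ M.mNf (Sw (sgn hp hp' h2 hne)) ↔ Mv Pl x) := by
    intro x hx
    rw [← Sw_sgn hp hp' h2 hne]
    constructor
    · rintro ⟨y, hy, hq⟩
      obtain ⟨i, rfl⟩ := oq_eq.1 hq
      obtain ⟨g, hg, hs⟩ := hy
      refine ⟨i * g * i⁻¹, ?_, ?_⟩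
      · rw [mem_stabilizer_iff] at hg ⊢
        rw [mul_smul, mul_smul, inv_smul_smul, hg]
      · rw [map_mul, map_mul, hs, map_inv, mul_comm, ← mul_assoc, inv_mul_cancel, one_mul]
    · exact fun k => ⟨x, k, rfl⟩
  have hex : ∃ x : M.fg.N, x ∉ M.imN Pl ∪ ∅ := by
    obtain ⟨x, hx⟩ := h.ne
    exact ⟨oq J x, fun k => k.elim (fun k => hx (M.mem_imN.1 k)) (fun k => k)⟩
  have h1 : ∀ x ∈ M.mNf (Sw (sgn hp hp' h2 hne)), x ∉ M.imN Pl ∪ ∅ → e x ≤ 1 := by
    intro q hq hqP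
    obtain ⟨x, rfl⟩ := oq_surj q
    have hx : x ∉ Pl := fun k => hqP (Or.inl (M.mem_imN.2 k))
    exact h.e1 x hx ((hw x hx).1 hq)
  have h2' : ∀ x, x ∉ M.imN Pl ∪ ∅ → e x ≤ 2 := fun q hq => h.e2' q fun k => hq (Or.inl k)
  have hDD : M.fg.nDD (M.imN Pl ∪ ∅) = 0 := by
    rw [Set.union_empty]
    exact h.hDD
  obtain ⟨k1, k2, k3⟩ := M.exc_self (sgn hp hp' h2 hne) hσ h.hM hp1 h.dconn
    (H := ∅) (Set.empty_subset _) (fun x hx => hx.elim) (fun x hx => hx.elim) hDD hex h1 h2'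
  have hb := (M.dn Pl).fg.b1_nonneg
  have hc0 : Nat.card ↥(∅ : Set M.fg.N) = 0 := Nat.card_of_isEmpty
  rw [hc0] at k1 k2
  rw [Set.union_empty] at k1 k2
  refine ⟨by push_cast at k1 k2; omega, fun h0 => ?_⟩
  obtain ⟨l1, l2, l3⟩ := M.exc_self_eq (sgn hp hp' h2 hne) hσ h.hM hp1 h.dconn
    (H := ∅) (Set.empty_subset _) (fun x hx => hx.elim) (fun x hx => hx.elim) hDD hex h1 h2'
    (by rw [Set.union_empty]; exact h0)
  rw [hc0, Set.union_empty] at l2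
  refine ⟨l1, l2, fun x hx => ?_⟩
  have hx' : (oq J x : M.fg.N) ∉ M.imN Pl ∪ ∅ :=
    fun k => k.elim (fun k => hx (M.mem_imN.1 k)) (fun k => k)
  obtain ⟨m1, m2⟩ := l3 (oq J x) hx'
  by_cases hm : Mv Pl x
  · exact Or.inr ⟨m1 ((hw x hx).2 hm), hm⟩
  · exact Or.inl (m2 fun k => hm ((hw x hx).1 k))

/-- two poles in different orbits -/
theorem SoftC.non [Fintype M.fg.N] {Pl : SubMulAction J T} {e : M.fg.N → ℕ} (h : M.SoftC Pl e)
    {p p' : T} (hp : p ∈ Pl) (hp' : p' ∈ Pl) (hj : ∀ j : J, p' ≠ j • p) :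
    M.fg.exc (M.imN Pl) ≤ M.fg.aftE (M.imN Pl) e ∧
      (M.fg.aftE (M.imN Pl) e ≤ M.fg.exc (M.imN Pl) → (M.dn Pl).fg.b1 = 0 ∧
        ∀ x : T, x ∉ Pl → e (oq J x) = 2) := by
  have hne : p ≠ p' := fun k => hj 1 (by rw [one_smul]; exact k.symm)
  have hc : Nat.card ↥(M.imN Pl) = 2 := by
    have h2 : ∀ x ∈ Pl, x = p ∨ x = p' := fun x hx => by
      rcases h.two x p p' hx hp hp' with k | k | k
      · exact Or.inl k
      · exact absurd k hne
      · exact Or.inr k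
    rw [Nat.card_eq_two_iff]
    refine ⟨⟨oq J p, M.mem_imN.2 hp⟩, ⟨oq J p', M.mem_imN.2 hp'⟩, fun k => ?_, ?_⟩
    · obtain ⟨j, k⟩ := oq_eq.1 (congrArg Subtype.val k)
      exact hj j k
    · ext q
      refine ⟨fun _ => trivial, fun _ => ?_⟩
      obtain ⟨q, hq⟩ := q
      obtain ⟨x, rfl⟩ := oq_surj q
      rcases h2 x (M.mem_imN.1 hq) with rfl | rfl
      · exact Or.inl rfl
      · exact Or.inr rfl
  obtain ⟨k1, k2, k3⟩ := M.exc_non h.hM hc h.ne h.dconn h.hDD h.e2'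
  refine ⟨by omega, fun h0 => ?_⟩
  have hb : (M.dn Pl).fg.b1 = 0 := by omega
  refine ⟨hb, fun x hx => k3.1 (by omega) _ fun k => hx (M.mem_imN.1 k)⟩

/-- one pole -/
theorem SoftC.hair [Fintype M.fg.N] {Pl : SubMulAction J T} {e : M.fg.N → ℕ} (h : M.SoftC Pl e)
    {p : T} (hp : p ∈ Pl) (h1 : ∀ q ∈ Pl, q = p) :
    M.fg.exc (M.imN Pl) ≤ M.fg.aftE (M.imN Pl) e := by
  have hc : Nat.card ↥(M.imN Pl) = 1 := by
    have h3 := M.card_im_le (Q := Pl) (p := p) (fun x hx => ⟨1, by rw [one_smul]; exact h1 x hx⟩)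
    have h4 : 0 < Nat.card ↥(M.imN Pl) := by
      have : Nonempty ↥(M.imN Pl) := ⟨⟨oq J p, M.mem_imN.2 hp⟩⟩
      exact Nat.card_pos
    omega
  obtain ⟨x, hx, hx1⟩ := h.one ⟨p, h1⟩
  have k := M.exc_hair h.hM hc h.dconn h.hDD h.e2' ⟨oq J x, fun k => hx (M.mem_imN.1 k), hx1⟩
  have hb := (M.dn Pl).fg.b1_nonneg
  omega

/-- NOTHING IS LOST at a component with poles -/
theorem SoftC.le [Fintype M.fg.N] {Pl : SubMulAction J T} {e : M.fg.N → ℕ} (h : M.SoftC Pl e) :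
    M.fg.exc (M.imN Pl) ≤ M.fg.aftE (M.imN Pl) e := by
  obtain ⟨p, hp⟩ := h.nepl
  by_cases h1 : ∀ q ∈ Pl, q = p
  · exact h.hair hp h1
  · obtain ⟨p', hp', hne⟩ : ∃ q ∈ Pl, q ≠ p := by
      by_contra hh
      exact h1 fun q hq => by_contra fun hn => hh ⟨q, hq, hn⟩
    by_cases hj : ∃ j : J, p' = j • p
    · obtain ⟨j, hj⟩ := hj
      exact (h.self hp hp' hne.symm hj).1
    · exact (h.non hp hp' fun j k => hj ⟨j, k⟩).1

/-- if nothing is gained at a component with two poles then every node has two pole ends, or one and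
its stabiliser swaps the poles; no cycles besides the poles -/
theorem SoftC.eq [Fintype M.fg.N] {Pl : SubMulAction J T} {e : M.fg.N → ℕ} (h : M.SoftC Pl e)
    (h0 : M.fg.aftE (M.imN Pl) e ≤ M.fg.exc (M.imN Pl)) (h2 : ∃ p ∈ Pl, ∃ p' ∈ Pl, p ≠ p') :
    (M.dn Pl).fg.b1 = 0 ∧
      ∀ x : T, x ∉ Pl → e (oq J x) = 2 ∨ (e (oq J x) = 1 ∧ Mv Pl x) := by
  obtain ⟨p, hp, p', hp', hne⟩ := h2
  by_cases hj : ∃ j : J, p' = j • p
  · obtain ⟨j, hj⟩ := hj
    obtain ⟨k1, -, k3⟩ := (h.self hp hp' hne hj).2 h0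
    exact ⟨k1, k3⟩
  · obtain ⟨k1, k3⟩ := (h.non hp hp' fun j k => hj ⟨j, k⟩).2 h0
    exact ⟨k1, fun x hx => Or.inl (k3 x hx)⟩

end JM

end Pool.Agent.DI
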