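import Pool.Agent.DI.XSa
import Pool.Agent.DI.XLa

/-!
# Components of the graph of the local pieces over a soft

`L := S.K.pc.con S.AJ`, `S.PLq`: its private poles. `AJ_inn`: local pieces. `K.exists_pol`: connected links give a pole. `dconn`: a component without its poles is
connected.
-/

namespace Pool.Agent.DI

open MulAction
open Pool.Agent.SAF (InC orbs FinOrb oc Decomp SAn SA Conv hull dist_edge FinOrb_iff exists_next)
open Pool.Agent.BT (PX PQ JS bey exits lz lz_self lz_ne lz_symm x_next_unique)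
open Pool.Agent.BT.TA

namespace JM

variable {J T Ed : Type} [Group J] [MulAction J T] [MulAction J Ed] (M : JM J T Ed)

/-- nodes without edges of `A` are alone in their class -/
theorem ct_alone {A : SubMulAction J Ed} {Q : SubMulAction J T}
    (h : ∀ e ∈ A, M.s e ∉ Q ∧ M.t e ∉ Q) {x y : T} (hx : x ∈ Q) (k : M.ct A y = M.ct A x) :
    y = x := by
  have key : ∀ u v, Relation.EqvGen (M.sub A).st u v → (u ∈ Q → u = v) ∧ (v ∈ Q → u = v) := by
    intro u v h1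
    induction h1 with
    | rel u v h1 =>
      obtain ⟨e, rfl, rfl⟩ := h1
      exact ⟨fun k => absurd k (h e.1 e.2).1, fun k => absurd k (h e.1 e.2).2⟩
    | refl u => exact ⟨fun _ => rfl, fun _ => rfl⟩
    | symm u v _ ih => exact ⟨fun k => (ih.2 k).symm, fun k => (ih.1 k).symm⟩
    | trans u v z _ _ h1 h2 =>
      refine ⟨fun k => ?_, fun k => ?_⟩
      · have e1 := h1.1 k
        subst e1
        exact h2.1 k
      · have e1 := h2.2 k
        subst e1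
        exact h1.2 k
  exact (key y x (M.ct_eq.1 k)).2 hx

theorem mem_cim {A : SubMulAction J Ed} {Q : SubMulAction J T}
    (h : ∀ e ∈ A, M.s e ∉ Q ∧ M.t e ∉ Q) {x : T} : M.ct A x ∈ M.cim A Q ↔ x ∈ Q := by
  constructor
  · rintro ⟨y, hy, k⟩
    rw [M.ct_alone h hy k.symm]
    exact hy
  · exact fun hx => ⟨x, hx, rfl⟩

end JM

namespace GX

variable {H V : Type} [Group H] [MulAction H V] {K : GX H V}

/-- connected links: every piece of a soft has a strand -/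
theorem exists_pol {y n : V} (hL : K.LC y) (hy : ∃ a, K.ar y a) (hn : K.ar n y) :
    ∃ a n', K.ar y a ∧ K.IJ y n n' ∧ K.ar n' y ∧ K.Cor a y n' := by
  by_contra hno
  obtain ⟨a, ha⟩ := hy
  have key : ∀ u v, K.LJ y u v → ((K.ar u y ∧ K.IJ y n u) ↔ (K.ar v y ∧ K.IJ y n v)) := by
    intro u v h
    induction h with
    | rel u v h =>
      have step : ∀ u v, K.Cor u y v → (K.ar u y ∧ K.IJ y n u) → (K.ar v y ∧ K.IJ y n v) := by
        intro u v h hu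
        rcases h.E2 with k | k
        · exact absurd ⟨v, u, k, hu.2, hu.1, h.symm⟩ hno
        · exact ⟨k, hu.2.trans' (Relation.EqvGen.rel _ _ ⟨h, hu.1, k⟩)⟩
      exact ⟨step u v h, step v u h.symm⟩
    | refl u => exact Iff.rfl
    | symm u v _ ih => exact ih.symm
    | trans u v z _ _ h1 h2 => exact h1.trans h2
  have h1 := hL n a (Or.inr hn) (Or.inl ha)
  exact not_both' ha ((key n a h1).1 ⟨hn, Relation.EqvGen.refl _⟩).1

/-- a private pole -/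
theorem PO_pk {t : ↥K.PT} (ht : t ∈ K.PO) {y : V} {C : Set V} (h : K.pk t.1 = (y, C)) :
    ∃ a, K.ar y a ∧ t.1 = PN.pol y a C := by
  obtain ⟨y', a, n, h1, h2, h3, h4⟩ := ht
  rw [h1] at h
  have e1 : y' = y := congrArg Prod.fst h
  have e2 : K.Pc y' n = C := congrArg Prod.snd h
  subst e1; subst e2
  exact ⟨a, h2, h1⟩

/-- a node which is not a private pole -/
theorem not_PO_pk {t : ↥K.PT} (ht : t ∉ K.PO) {y : V} {C : Set V} (h : K.pk t.1 = (y, C)) :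
    ∃ n, K.ar n y ∧ n ∈ C ∧ t.1 = PN.inn y n ∧ K.Pc y n = C := by
  rcases K.pt_cases t with ⟨y', n, h1, h2⟩ | ⟨y', a, n, h1, h2, h3, h4⟩
  · rw [h2] at h
    have e1 : y' = y := congrArg Prod.fst h
    have e2 : K.Pc y' n = C := congrArg Prod.snd h
    subst e1; subst e2
    exact ⟨n, h1, self_Pc _ _, h2, rfl⟩
  · exact absurd ⟨y', a, n, h4, h1, h2, h3.symm.symm⟩ ht

end GX

namespace SyQ

variable {H V : Type} [Group H] [MulAction H V] {S : SyQ H V}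

variable (S) in
/-- the private poles of the graph of the local pieces -/
noncomputable def PLq : SubMulAction H (S.K.pc.CT S.AJ) := S.K.pc.cim S.AJ S.K.PO

theorem AJ_PO : ∀ e ∈ S.AJ, S.K.pc.s e ∉ S.K.PO ∧ S.K.pc.t e ∉ S.K.PO :=
  fun _ he => ⟨S.K.not_PO (AJ_s he), S.K.not_PO (AJ_t he)⟩

theorem mem_PLq {t : ↥S.K.PT} : S.K.pc.ct S.AJ t ∈ S.PLq ↔ t ∈ S.K.PO := S.K.pc.mem_cim AJ_PO

theorem ct_pole {t t' : ↥S.K.PT} (h : t ∈ S.K.PO) (k : S.K.pc.ct S.AJ t' = S.K.pc.ct S.AJ t) :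
    t' = t := S.K.pc.ct_alone AJ_PO h k

/-- components -/
theorem L_eqv {t t' : ↥S.K.PT} : Relation.EqvGen (S.K.pc.con S.AJ).st (S.K.pc.ct S.AJ t)
    (S.K.pc.ct S.AJ t') ↔ S.K.pk t.1 = S.K.pk t'.1 :=
  (JM.con_eqv _ S.AJ).trans S.K.pc_eqv

/-- local pieces -/
theorem AJ_inn {t t' : ↥S.K.PT} (h : S.K.pc.ct S.AJ t = S.K.pc.ct S.AJ t') {y n : V} {p : S.X}
    (ht : t.1 = PN.inn y n) (hy : p ∈ S.J y) (hn : p ∈ S.J n) :
    ∃ n', t'.1 = PN.inn y n' ∧ p ∈ S.J n' ∧ S.LIJ p y n n' := by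
  replace h := S.K.pc.ct_eq.1 h
  have key : (∀ y n, t.1 = PN.inn y n → p ∈ S.J y → p ∈ S.J n →
      ∃ n', t'.1 = PN.inn y n' ∧ p ∈ S.J n' ∧ S.LIJ p y n n') ∧
      (∀ y n, t'.1 = PN.inn y n → p ∈ S.J y → p ∈ S.J n →
      ∃ n', t.1 = PN.inn y n' ∧ p ∈ S.J n' ∧ S.LIJ p y n n') := by
    clear ht hy hn
    induction h with
    | rel t t' h =>
      obtain ⟨e, rfl, rfl⟩ := h
      have he := e.2
      obtain ⟨⟨h1, h2⟩, q, h3, h4, h5⟩ := e.2
      have hcor : S.K.Cor (S.K.c0 e.1.1) (S.K.c1 e.1.1) (S.K.c2 e.1.1) := S.K.cor_c e.1.1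
      constructor
      · intro y n k hy hn
        have k : (S.K.pc.s e.1).1 = PN.inn y n := k
        rw [AJ_s he] at k
        obtain ⟨e1, e2⟩ := PN.inn.inj k
        subst e1; subst e2
        have hg : q = p := S.one_eq (S.K.c_E0 e.1.1) h4 h3 hy hn
        rw [hg] at h3 h4 h5
        exact ⟨_, AJ_t he, h5, Relation.EqvGen.rel _ _ ⟨⟨hcor, h1, h2⟩, h4, h3, h5⟩⟩
      · intro y n k hy hn
        have k : (S.K.pc.t e.1).1 = PN.inn y n := k
        rw [AJ_t he] at k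
        obtain ⟨e1, e2⟩ := PN.inn.inj k
        subst e1; subst e2
        have hg : q = p := S.one_eq (S.K.c_E2 e.1.1) h4 h5 hy hn
        rw [hg] at h3 h4 h5
        exact ⟨_, AJ_s he, h3, Relation.EqvGen.symm _ _
          (Relation.EqvGen.rel _ _ ⟨⟨hcor, h1, h2⟩, h4, h3, h5⟩)⟩
    | refl t =>
      exact ⟨fun y n k hy hn => ⟨n, k, hn, Relation.EqvGen.refl _⟩,
        fun y n k hy hn => ⟨n, k, hn, Relation.EqvGen.refl _⟩⟩
    | symm t t' _ ih => exact ⟨ih.2, ih.1⟩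
    | trans t t' t'' _ _ i1 i2 =>
      constructor
      · intro y n k hy hn
        obtain ⟨n', k1, k2, k3⟩ := i1.1 y n k hy hn
        obtain ⟨n'', l1, l2, l3⟩ := i2.1 y n' k1 hy k2
        exact ⟨n'', l1, l2, Relation.EqvGen.trans _ _ _ k3 l3⟩
      · intro y n k hy hn
        obtain ⟨n', k1, k2, k3⟩ := i2.2 y n k hy hn
        obtain ⟨n'', l1, l2, l3⟩ := i1.2 y n' k1 hy k2
        exact ⟨n'', l1, l2, Relation.EqvGen.trans _ _ _ k3 l3⟩
  exact key.1 y n ht hy hn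

/-- members of a local piece -/
theorem LIJ_IJ {p : S.X} {y a b : V} (h : S.LIJ p y a b) : S.K.IJ y a b := by
  induction h with
  | rel a b h => exact Relation.EqvGen.rel _ _ h.1
  | refl a => exact Relation.EqvGen.refl _
  | symm a b _ ih => exact ih.symm
  | trans a b c _ _ h1 h2 => exact h1.trans _ _ _ h2

theorem LIJ_mem {p : S.X} {y a b : V} (h : S.LIJ p y a b) : p ∈ S.J a ↔ p ∈ S.J b := by
  induction h with
  | rel a b h => exact ⟨fun _ => h.2.2.2, fun _ => h.2.2.1⟩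
  | refl a => exact Iff.rfl
  | symm a b _ ih => exact ih.symm
  | trans a b c _ _ h1 h2 => exact h1.trans h2

/-! ### a component without its poles -/

section comp

/-- a node of a component -/
theorem comp_rep {P : S.K.pc.CT S.AJ} {y : V} {C : Set V} {t0 : ↥S.K.PT}
    (h0 : S.K.pc.ct S.AJ t0 = P) (hk : S.K.pk t0.1 = (y, C))
    (x : ↥((S.K.pc.con S.AJ).cT P)) : ∃ t : ↥S.K.PT, S.K.pc.ct S.AJ t = x.1 ∧
      S.K.pk t.1 = (y, C) := by
  obtain ⟨t, ht⟩ := S.K.pc.ct_surj x.1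
  have h : Relation.EqvGen (S.K.pc.con S.AJ).st (S.K.pc.ct S.AJ t0) (S.K.pc.ct S.AJ t) := by
    rw [ht, h0]
    exact x.2
  rw [L_eqv, hk] at h
  exact ⟨t, ht, h.symm⟩

/-- a component without its poles is connected -/
theorem comp_dconn {P : S.K.pc.CT S.AJ} {y : V} {C : Set V} {t0 : ↥S.K.PT}
    (h0 : S.K.pc.ct S.AJ t0 = P) (hk : S.K.pk t0.1 = (y, C))
    (x z : ↥(JM.cpl ((S.K.pc.con S.AJ).rQ P S.PLq))) :
    Relation.EqvGen (((S.K.pc.con S.AJ).comp P).dn ((S.K.pc.con S.AJ).rQ P S.PLq)).st x z := by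
  obtain ⟨t, ht, hkt⟩ := comp_rep h0 hk x.1
  obtain ⟨t', ht', hkt'⟩ := comp_rep h0 hk z.1
  have hx : t ∉ S.K.PO := fun h => x.2 (by
    show x.1.1 ∈ S.PLq
    rw [← ht]
    exact mem_PLq.2 h)
  have hz : t' ∉ S.K.PO := fun h => z.2 (by
    show z.1.1 ∈ S.PLq
    rw [← ht']
    exact mem_PLq.2 h)
  obtain ⟨n, hn, hnC, e1, e2⟩ := GX.not_PO_pk hx hkt
  obtain ⟨n', hn', hnC', e1', e2'⟩ := GX.not_PO_pk hz hkt'
  have hIJ : S.K.IJ y n n' := GX.Pc_eq.1 (e2.trans e2'.symm)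
  -- nodes of the component from members of the piece
  have hmem : ∀ m, ∀ hm : S.K.ar m y, S.K.IJ y n m →
      S.K.pc.ct S.AJ ⟨PN.inn y m, hm⟩ ∈ (S.K.pc.con S.AJ).cT P := by
    intro m hm h
    rw [(S.K.pc.con S.AJ).mem_cT, ← h0, L_eqv, hk]
    show _ = (y, S.K.Pc y m)
    rw [← GX.Pc_eq.2 h, e2]
  have hnot : ∀ m, ∀ hm : S.K.ar m y, ∀ h : S.K.IJ y n m,
      (⟨S.K.pc.ct S.AJ ⟨PN.inn y m, hm⟩, hmem m hm h⟩ : ↥((S.K.pc.con S.AJ).cT P)) ∉
        (S.K.pc.con S.AJ).rQ P S.PLq := by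
    intro m hm h k
    have k : S.K.pc.ct S.AJ ⟨PN.inn y m, hm⟩ ∈ S.PLq := k
    exact S.K.not_PO rfl (mem_PLq.1 k)
  have key : ∀ a b, S.K.IJ y a b → ∀ (ha : S.K.ar a y) (hb : S.K.ar b y)
      (h1 : S.K.IJ y n a) (h2 : S.K.IJ y n b),
      Relation.EqvGen (((S.K.pc.con S.AJ).comp P).dn ((S.K.pc.con S.AJ).rQ P S.PLq)).st
        ⟨⟨S.K.pc.ct S.AJ ⟨PN.inn y a, ha⟩, hmem a ha h1⟩, hnot a ha h1⟩
        ⟨⟨S.K.pc.ct S.AJ ⟨PN.inn y b, hb⟩, hmem b hb h2⟩, hnot b hb h2⟩ := by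
    intro a b h
    induction h with
    | rel a b h =>
      intro ha hb h1 h2
      have step : ∀ (e : S.K.LE) (he : e ∈ S.K.PE) (a b : V) (ha : S.K.ar a y)
          (hb : S.K.ar b y) (h1 : S.K.IJ y n a) (h2 : S.K.IJ y n b),
          S.K.pc.s ⟨e, he⟩ = ⟨PN.inn y a, ha⟩ → S.K.pc.t ⟨e, he⟩ = ⟨PN.inn y b, hb⟩ →
          Relation.EqvGen (((S.K.pc.con S.AJ).comp P).dn ((S.K.pc.con S.AJ).rQ P S.PLq)).st
            ⟨⟨S.K.pc.ct S.AJ ⟨PN.inn y a, ha⟩, hmem a ha h1⟩, hnot a ha h1⟩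
            ⟨⟨S.K.pc.ct S.AJ ⟨PN.inn y b, hb⟩, hmem b hb h2⟩, hnot b hb h2⟩ := by
        intro e he a b ha hb h1 h2 hs ht
        by_cases hA : (⟨e, he⟩ : ↥S.K.PE) ∈ S.AJ
        · have h3 : S.K.pc.ct S.AJ ⟨PN.inn y a, ha⟩ = S.K.pc.ct S.AJ ⟨PN.inn y b, hb⟩ := by
            rw [S.K.pc.ct_eq]
            exact Relation.EqvGen.rel _ _ ⟨⟨⟨e, he⟩, hA⟩, hs, ht⟩
          have h4 : (⟨⟨S.K.pc.ct S.AJ ⟨PN.inn y a, ha⟩, hmem a ha h1⟩, hnot a ha h1⟩ :
              ↥(JM.cpl ((S.K.pc.con S.AJ).rQ P S.PLq))) =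
              ⟨⟨S.K.pc.ct S.AJ ⟨PN.inn y b, hb⟩, hmem b hb h2⟩, hnot b hb h2⟩ :=
            Subtype.ext (Subtype.ext h3)
          rw [h4]
          exact Relation.EqvGen.refl _
        · have hs' : (S.K.pc.con S.AJ).s ⟨⟨e, he⟩, hA⟩ = S.K.pc.ct S.AJ ⟨PN.inn y a, ha⟩ :=
            congrArg (S.K.pc.ct S.AJ) hs
          have ht' : (S.K.pc.con S.AJ).t ⟨⟨e, he⟩, hA⟩ = S.K.pc.ct S.AJ ⟨PN.inn y b, hb⟩ :=
            congrArg (S.K.pc.ct S.AJ) ht
          have hcE : (⟨⟨e, he⟩, hA⟩ : ↥(JM.cpl S.AJ)) ∈ (S.K.pc.con S.AJ).cE P := by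
            rw [(S.K.pc.con S.AJ).mem_cE, hs']
            exact hmem a ha h1
          apply Relation.EqvGen.rel
          refine ⟨⟨⟨⟨⟨e, he⟩, hA⟩, hcE⟩, ?_, ?_⟩, Subtype.ext (Subtype.ext hs'),
            Subtype.ext (Subtype.ext ht')⟩
          · intro k
            have k : (S.K.pc.con S.AJ).s ⟨⟨e, he⟩, hA⟩ ∈ S.PLq := k
            rw [hs'] at k
            exact S.K.not_PO rfl (mem_PLq.1 k)
          · intro k
            have k : (S.K.pc.con S.AJ).t ⟨⟨e, he⟩, hA⟩ ∈ S.PLq := k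
            rw [ht'] at k
            exact S.K.not_PO rfl (mem_PLq.1 k)
      obtain ⟨e, ⟨c0, c1, c2⟩ | ⟨c0, c1, c2⟩⟩ := S.K.cor_LE.1 h.1
      · have he : e ∈ S.K.PE := Or.inl (by rw [c0, c1]; exact ha)
        refine step e he a b ha hb h1 h2 (Subtype.ext ?_) (Subtype.ext ?_)
        · show S.K.nd (S.K.c1 e) (S.K.c0 e) (S.K.c2 e) = _
          rw [c0, c1, c2, S.K.nd_in ha]
        · show S.K.nd (S.K.c1 e) (S.K.c2 e) (S.K.c0 e) = _
          rw [c0, c1, c2, S.K.nd_in hb]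
      · have he : e ∈ S.K.PE := Or.inl (by rw [c0, c1]; exact hb)
        refine (step e he b a hb ha h2 h1 (Subtype.ext ?_) (Subtype.ext ?_)).symm
        · show S.K.nd (S.K.c1 e) (S.K.c0 e) (S.K.c2 e) = _
          rw [c0, c1, c2, S.K.nd_in hb]
        · show S.K.nd (S.K.c1 e) (S.K.c2 e) (S.K.c0 e) = _
          rw [c0, c1, c2, S.K.nd_in ha]
    | refl a => intro ha hb h1 h2; exact Relation.EqvGen.refl _
    | symm a b _ ih => intro ha hb h1 h2; exact (ih hb ha h2 h1).symm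
    | trans a b c k1 k2 i1 i2 =>
      intro ha hc h1 h2
      have hb : S.K.ar b y := (GX.IJ.ar k1).1 ha
      have h3 : S.K.IJ y n b := h1.trans' k1
      exact (i1 ha hb h1 h3).trans _ _ _ (i2 hb hc h3 h2)
  have h3 := key n n' hIJ hn hn' (Relation.EqvGen.refl _) hIJ
  have ex : x = ⟨⟨S.K.pc.ct S.AJ ⟨PN.inn y n, hn⟩, hmem n hn (Relation.EqvGen.refl _)⟩,
      hnot n hn (Relation.EqvGen.refl _)⟩ := by
    apply Subtype.ext
    apply Subtype.ext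
    show x.1.1 = _
    rw [← ht]
    exact congrArg (S.K.pc.ct S.AJ) (Subtype.ext e1)
  have ez : z = ⟨⟨S.K.pc.ct S.AJ ⟨PN.inn y n', hn'⟩, hmem n' hn' hIJ⟩, hnot n' hn' hIJ⟩ := by
    apply Subtype.ext
    apply Subtype.ext
    show z.1.1 = _
    rw [← ht']
    exact congrArg (S.K.pc.ct S.AJ) (Subtype.ext e1')
  rw [ex, ez]
  exact h3

end comp

end SyQ

end Pool.Agent.DI
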