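import Pool.Agent.DI.QExc

/-!
# Degrees of the local pieces and directions

`JM.deg_le`: a bound for the degree of an orbit of nodes by a function on the half-lines.
For `L := S.K.pc.con S.AJ` and a node over any place `p`: `S.OneDir p y n`: the corners at the local
piece of `n` in one direction are one orbit; `deg_le_two`, `deg_le_one_mv`, `deg_le_one_uniq`;
`e_le_one_uniq`; `uniq_of_miss`; `exits_move`: a group element which moves a pole moves all directions.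
-/

namespace Pool.Agent.DI

open MulAction
open Pool.Agent.SAF (InC orbs FinOrb oc Decomp SAn SA Conv hull dist_edge FinOrb_iff exists_next)
open Pool.Agent.BT (PX PQ JS bey exits lz lz_self lz_ne lz_symm x_next_unique)
open Pool.Agent.BT.TA

/-- a bound for the degree -/
theorem JM.deg_le {J T Ed : Type} [Group J] [MulAction J T] [MulAction J Ed] (M : JM J T Ed)
    {x : T} {r : ℕ} (g : Ed → Bool → Fin r)
    (h : ∀ (e e' : Ed) (b b' : Bool), ((b = true ∧ M.s e = x) ∨ (b = false ∧ M.t e = x)) →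
      ((b' = true ∧ M.s e' = x) ∨ (b' = false ∧ M.t e' = x)) → g e b = g e' b' →
      b = b' ∧ ∃ j : J, e' = j • e) : M.fg.deg (oq J x) ≤ r := by
  classical
  have hs : ∀ q : {q : M.fg.L // M.fg.a q = oq J x}, ∃ e, M.s e = x ∧ oq J e = q.1 := by
    rintro ⟨q, hq⟩
    obtain ⟨e, rfl⟩ := oq_surj q
    have hq : oq J (M.s e) = oq J x := hq
    obtain ⟨j, hj⟩ := oq_eq.1 hq
    refine ⟨j • e, ?_, oq_smul j e⟩
    rw [M.hs, hj]
  have ht : ∀ q : {q : M.fg.L // M.fg.b q = oq J x}, ∃ e, M.t e = x ∧ oq J e = q.1 := by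
    rintro ⟨q, hq⟩
    obtain ⟨e, rfl⟩ := oq_surj q
    have hq : oq J (M.t e) = oq J x := hq
    obtain ⟨j, hj⟩ := oq_eq.1 hq
    refine ⟨j • e, ?_, oq_smul j e⟩
    rw [M.ht, hj]
  choose fs hs1 hs2 using hs
  choose ft ht1 ht2 using ht
  have hr : Nat.card (Fin r) = r := Nat.card_eq_fintype_card.trans (Fintype.card_fin r)
  unfold FG.deg
  rw [← Nat.card_sum, ← hr]
  apply Nat.card_le_card_of_injective
    (Sum.elim (fun q => g (fs q) true) (fun q => g (ft q) false))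
  rintro (q | q) (q' | q') hqq
  · obtain ⟨-, j, hj⟩ := h _ _ _ _ (Or.inl ⟨rfl, hs1 q⟩) (Or.inl ⟨rfl, hs1 q'⟩) hqq
    congr 1
    apply Subtype.ext
    rw [← hs2 q, ← hs2 q']
    exact oq_eq.2 ⟨j, hj⟩
  · obtain ⟨k, -⟩ := h _ _ _ _ (Or.inl ⟨rfl, hs1 q⟩) (Or.inr ⟨rfl, ht1 q'⟩) hqq
    exact absurd k (by decide)
  · obtain ⟨k, -⟩ := h _ _ _ _ (Or.inr ⟨rfl, ht1 q⟩) (Or.inl ⟨rfl, hs1 q'⟩) hqq
    exact absurd k (by decide)
  · obtain ⟨-, j, hj⟩ := h _ _ _ _ (Or.inr ⟨rfl, ht1 q⟩) (Or.inr ⟨rfl, ht1 q'⟩) hqq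
    congr 1
    apply Subtype.ext
    rw [← ht2 q, ← ht2 q']
    exact oq_eq.2 ⟨j, hj⟩

namespace SyQ

variable {H V : Type} [Group H] [MulAction H V] {S : SyQ H V}

/-- connected by local corners of all levels -/
private theorem ctAJ {p : S.X} {t t' : ↥S.K.PT} (h : S.K.pc.ct S.AJ t = S.K.pc.ct S.AJ t')
    {y n : V} (ht : t.1 = PN.inn y n) (hy : p ∈ S.J y) (hn : p ∈ S.J n) :
    ∃ n', t'.1 = PN.inn y n' ∧ p ∈ S.J n' ∧ S.LIJ p y n n' := by
  have hx : t ∈ S.cB p := ⟨y, n, ht, 1, by rw [one_smul]; exact hy, by rw [one_smul]; exact hn⟩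
  have hB : ∀ e ∈ S.AJ, (S.K.pc.s e ∈ S.cB p ↔ S.K.pc.t e ∈ S.cB p) := fun e he =>
    ⟨fun h => (cA_cB (AJ_cB he (Or.inl h))).2, fun h => (cA_cB (AJ_cB he (Or.inr h))).1⟩
  have h1 := JM.cmp_eqv (A := S.cA p) (Bd := S.cB p) hB (fun e he h => AJ_cB he (Or.inl h)) h
  exact ct_inn (h1.2 hx) ht hy hn

/-- the direction of a half-line -/
theorem dir_ar (hc : S.Conn) {p : S.X} {y : S.NV p} {o : V} (hE : S.K.E y.1 o)
    (h : p ∈ S.J o → S.K.ar y.1 o) : (S.k0 hc p).ar (Sum.inl y) (S.rho p o) := by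
  by_cases ho : p ∈ S.J o
  · rw [S.rho_near ho]
    exact SAr.hor y ⟨o, ho⟩ (h ho)
  · rw [S.rho_far ho]
    exact SAr.up y ⟨_, S.dir_adj ho⟩ (S.dir_cross hE y.2 ho)

/-- poles of a vertex give directions -/
theorem pole_exit (hc : S.Conn) {p : S.X} {y : S.NV p} {a : V} (h : S.K.ar y.1 a) :
    (S.k0 hc p).ar (Sum.inl y) (S.rho p a) := dir_ar hc (Or.inl h) (fun _ => h)

variable (S) in
/-- the corners at the local piece of `n` in one direction are one orbit -/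
def OneDir (p : S.X) (y n : V) : Prop := ∀ (e e' : ↥S.K.PE) (b b' : Bool), e ∉ S.AJ → e' ∉ S.AJ →
  S.K.c1 e.1 = y → S.K.c1 e'.1 = y → S.K.ar (ce S.K b e.1) y → S.K.ar (ce S.K b' e'.1) y →
  S.LIJ p y n (ce S.K b e.1) → S.LIJ p y n (ce S.K b' e'.1) →
  S.rho p (ce S.K (!b) e.1) = S.rho p (ce S.K (!b') e'.1) → b = b' ∧ ∃ h : H, e' = h • e

variable (S) in
/-- at most one direction in which the local piece of `n` has a corner -/
def UniqDir (hc : S.Conn) (p : S.X) (y n : S.NV p) : Prop := ∀ (d d' : S.SV p) (n1 n2 : S.NV p),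
  (S.k0 hc p).ar (Sum.inl y) d → (S.k0 hc p).ar (Sum.inl y) d' →
  (S.k0 hc p).Cor d (Sum.inl y) (Sum.inl n1) → (S.k0 hc p).Cor d' (Sum.inl y) (Sum.inl n2) →
  S.LIJ p y.1 n.1 n1.1 → S.LIJ p y.1 n.1 n2.1 → d = d'

/-- a missing direction -/
theorem uniq_of_miss (hc : S.Conn) {p : S.X} {y n : S.NV p} {d0 : S.SV p}
    (h0 : (S.k0 hc p).ar (Sum.inl y) d0)
    (hm : ∀ n' : S.NV p, S.LIJ p y.1 n.1 n'.1 → ¬ (S.k0 hc p).Cor d0 (Sum.inl y) (Sum.inl n')) :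
    S.UniqDir hc p y n := by
  intro d d' n1 n2 h1 h2 c1 c2 l1 l2
  rcases (S.k0 hc p).two _ d d' d0 h1 h2 h0 with k | k | k
  · exact k
  · subst k
    exact absurd c2 (hm n2 l2)
  · subst k
    exact absurd c1 (hm n1 l1)

/-- a half-line at a node of `L` -/
theorem half_line (hc : S.Conn) (hnb : S.NB) {p : S.X} {y n : S.NV p} (har : S.K.ar n.1 y.1)
    {e : ↥(JM.cpl S.AJ)} {b : Bool}
    (h : (b = true ∧ (S.K.pc.con S.AJ).s e = S.K.pc.ct S.AJ ⟨PN.inn y.1 n.1, har⟩) ∨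
      (b = false ∧ (S.K.pc.con S.AJ).t e = S.K.pc.ct S.AJ ⟨PN.inn y.1 n.1, har⟩)) :
    S.K.c1 e.1.1 = y.1 ∧ S.K.ar (ce S.K b e.1.1) y.1 ∧ p ∈ S.J (ce S.K b e.1.1) ∧
      S.LIJ p y.1 n.1 (ce S.K b e.1.1) ∧
      (S.k0 hc p).ar (Sum.inl y) (S.rho p (ce S.K (!b) e.1.1)) ∧
      ∃ n' : S.NV p, n'.1 = ce S.K b e.1.1 ∧
        (S.k0 hc p).Cor (S.rho p (ce S.K (!b) e.1.1)) (Sum.inl y) (Sum.inl n') := by
  have key : S.K.c1 e.1.1 = y.1 ∧ S.K.ar (ce S.K b e.1.1) y.1 ∧ p ∈ S.J (ce S.K b e.1.1) ∧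
      S.LIJ p y.1 n.1 (ce S.K b e.1.1) := by
    rcases h with ⟨rfl, h⟩ | ⟨rfl, h⟩
    · have h : S.K.pc.ct S.AJ (S.K.pc.s e.1) = S.K.pc.ct S.AJ ⟨PN.inn y.1 n.1, har⟩ := h
      obtain ⟨n', k1, k2, k3⟩ := ctAJ h.symm rfl y.2 n.2
      rw [GX.pc_s] at k1
      obtain ⟨l1, l2, l3⟩ := S.K.nd_eq_inn k1
      have l3 : ce S.K true e.1.1 = n' := l3
      rw [l3]
      refine ⟨l2, ?_, k2, k3⟩
      have l1 : S.K.ar (ce S.K true e.1.1) (S.K.c1 e.1.1) := l1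
      rw [l2, l3] at l1
      exact l1
    · have h : S.K.pc.ct S.AJ (S.K.pc.t e.1) = S.K.pc.ct S.AJ ⟨PN.inn y.1 n.1, har⟩ := h
      obtain ⟨n', k1, k2, k3⟩ := ctAJ h.symm rfl y.2 n.2
      rw [GX.pc_t] at k1
      obtain ⟨l1, l2, l3⟩ := S.K.nd_eq_inn k1
      have l3 : ce S.K false e.1.1 = n' := l3
      rw [l3]
      refine ⟨l2, ?_, k2, k3⟩
      have l1 : S.K.ar (ce S.K false e.1.1) (S.K.c1 e.1.1) := l1
      rw [l2, l3] at l1
      exact l1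
  obtain ⟨k1, k2, k3, k4⟩ := key
  have hE : S.K.E y.1 (ce S.K (!b) e.1.1) := by
    have := ce_E S.K (!b) e.1.1
    rwa [k1] at this
  have hd : (S.k0 hc p).ar (Sum.inl y) (S.rho p (ce S.K (!b) e.1.1)) := by
    apply dir_ar hc hE
    intro ho
    refine hE.resolve_right (fun har' => ?_)
    apply e.2
    have hy := y.2
    rw [← k1] at hy k2 har'
    cases b
    · exact ⟨⟨har', k2⟩, p, ho, hy, k3⟩
    · exact ⟨⟨k2, har'⟩, p, k3, hy, ho⟩
  refine ⟨k1, k2, k3, k4, hd, ⟨_, k3⟩, rfl, ?_⟩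
  have hy := y.2
  have k2' := k2
  rw [← k1] at hy k2'
  obtain ⟨e', -, -, m0, m1, m2⟩ := exists_bkE hc hnb b (e := e.1.1) k2' hy k3
  have m1 : (S.k0 hc p).c1 e'.1.1 = Sum.inl y := m1.trans (congrArg Sum.inl (Subtype.ext k1))
  apply (S.k0 hc p).cor_LE.2
  cases b
  · exact ⟨e'.1.1, Or.inl ⟨m0, m1, m2.trans (S.rho_near k3)⟩⟩
  · exact ⟨e'.1.1, Or.inr ⟨m0.trans (S.rho_near k3), m1, m2⟩⟩

/-- the degree is at most two -/
theorem deg_le_two (hc : S.Conn) (hnb : S.NB) {p : S.X} {y n : S.NV p} (har : S.K.ar n.1 y.1)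
    (h1 : S.OneDir p y.1 n.1) :
    (S.K.pc.con S.AJ).fg.deg (oq H (S.K.pc.ct S.AJ ⟨PN.inn y.1 n.1, har⟩)) ≤ 2 := by
  classical
  have ha0 : ∃ a0 : S.SV p, ∀ a a', (S.k0 hc p).ar (Sum.inl y) a →
      (S.k0 hc p).ar (Sum.inl y) a' → a ≠ a0 → a' ≠ a0 → a = a' := by
    by_cases hex : ∃ a, (S.k0 hc p).ar (Sum.inl y) a
    · obtain ⟨a0, h0⟩ := hex
      refine ⟨a0, fun a a' h h' hne hne' => ?_⟩
      rcases (S.k0 hc p).two _ a a' a0 h h' h0 with k | k | k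
      · exact k
      · exact absurd k hne'
      · exact absurd k hne
    · exact ⟨Sum.inl y, fun a a' h _ _ _ => absurd ⟨a, h⟩ hex⟩
  obtain ⟨a0, h0⟩ := ha0
  refine (S.K.pc.con S.AJ).deg_le (fun e b =>
    if S.rho p (ce S.K (!b) e.1.1) = a0 then 0 else 1) ?_
  intro e e' b b' k k' hg
  obtain ⟨l1, l2, l3, l4, l5, -⟩ := half_line hc hnb har k
  obtain ⟨l1', l2', l3', l4', l5', -⟩ := half_line hc hnb har k'
  have hd : S.rho p (ce S.K (!b) e.1.1) = S.rho p (ce S.K (!b') e'.1.1) := by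
    by_cases q : S.rho p (ce S.K (!b) e.1.1) = a0
    · by_cases q' : S.rho p (ce S.K (!b') e'.1.1) = a0
      · rw [q, q']
      · simp only [q, q', if_true, if_false] at hg
        exact absurd hg (by decide)
    · by_cases q' : S.rho p (ce S.K (!b') e'.1.1) = a0
      · simp only [q, q', if_true, if_false] at hg
        exact absurd hg (by decide)
      · exact h0 _ _ l5 l5' q q'
  obtain ⟨m1, j, m2⟩ := h1 e.1 e'.1 b b' e.2 e'.2 l1 l1' l2 l2' l4 l4' hd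
  exact ⟨m1, j, Subtype.ext m2⟩

/-- the degree is at most one: there is at most one direction -/
theorem deg_le_one_uniq (hc : S.Conn) (hnb : S.NB) {p : S.X} {y n : S.NV p}
    (har : S.K.ar n.1 y.1) (h1 : S.OneDir p y.1 n.1) (hu : S.UniqDir hc p y n) :
    (S.K.pc.con S.AJ).fg.deg (oq H (S.K.pc.ct S.AJ ⟨PN.inn y.1 n.1, har⟩)) ≤ 1 := by
  refine (S.K.pc.con S.AJ).deg_le (fun _ _ => 0) ?_
  intro e e' b b' k k' _
  obtain ⟨l1, l2, l3, l4, l5, n1, q1, q2⟩ := half_line hc hnb har k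
  obtain ⟨l1', l2', l3', l4', l5', n2, q1', q2'⟩ := half_line hc hnb har k'
  rw [← q1] at l4
  rw [← q1'] at l4'
  have hd := hu _ _ n1 n2 l5 l5' q2 q2' l4 l4'
  rw [q1] at l4
  rw [q1'] at l4'
  obtain ⟨m1, j, m2⟩ := h1 e.1 e'.1 b b' e.2 e'.2 l1 l1' l2 l2' l4 l4' hd
  exact ⟨m1, j, Subtype.ext m2⟩

/-- the degree is at most one: a group element moves a direction -/
theorem deg_le_one_mv (hc : S.Conn) (hnb : S.NB) {p : S.X} {y n : S.NV p}
    (har : S.K.ar n.1 y.1) (h1 : S.OneDir p y.1 n.1) {h : ↥(stabilizer H p)}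
    (hy : h.1 • y.1 = y.1) (hP : S.LIJ p y.1 n.1 (h.1 • n.1)) {a : S.SV p}
    (ha : (S.k0 hc p).ar (Sum.inl y) a) (hne : h • a ≠ a) :
    (S.K.pc.con S.AJ).fg.deg (oq H (S.K.pc.ct S.AJ ⟨PN.inn y.1 n.1, har⟩)) ≤ 1 := by
  refine (S.K.pc.con S.AJ).deg_le (fun _ _ => 0) ?_
  intro e e' b b' k k' _
  obtain ⟨l1, l2, l3, l4, l5, n1, q1, q2⟩ := half_line hc hnb har k
  obtain ⟨l1', l2', l3', l4', l5', n2, q1', q2'⟩ := half_line hc hnb har k'
  have hy' : h • (Sum.inl y : S.SV p) = Sum.inl y := congrArg Sum.inl (Subtype.ext hy)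
  by_cases hd : S.rho p (ce S.K (!b) e.1.1) = S.rho p (ce S.K (!b') e'.1.1)
  · obtain ⟨m1, j, m2⟩ := h1 e.1 e'.1 b b' e.2 e'.2 l1 l1' l2 l2' l4 l4' hd
    exact ⟨m1, j, Subtype.ext m2⟩
  · -- move the first one
    have h3 := (swap_poles (S.k0 hc p) hy' ha hne l5 l5' hd).1
    have s1 : S.K.c1 (h.1 • e.1).1 = y.1 := by
      have : S.K.c1 (h.1 • e.1).1 = h.1 • S.K.c1 e.1.1 := S.K.c1_smul h.1 e.1.1
      rw [this, l1, hy]
    have s2 : ∀ b, ce S.K b (h.1 • e.1).1 = h.1 • ce S.K b e.1.1 :=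
      fun b => ce_smul S.K b h.1 e.1.1
    have s3 : S.K.ar (ce S.K b (h.1 • e.1).1) y.1 := by
      have := S.K.ar_smul h.1 _ _ l2
      rw [hy] at this
      rw [s2]
      exact this
    have s4 : S.LIJ p y.1 n.1 (ce S.K b (h.1 • e.1).1) := by
      have t1 : (S.k0 hc p).IJ (Sum.inl y) (Sum.inl n) (Sum.inl (h • n)) :=
        (ij_inl hc hnb).2 hP
      let x1 : S.NV p := ⟨ce S.K b e.1.1, l3⟩
      have t2 : (S.k0 hc p).IJ (Sum.inl y) (Sum.inl n) (Sum.inl x1) :=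
        (ij_inl hc hnb).2 l4
      have t3 := t2.smul h
      rw [hy'] at t3
      have t4 := t1.trans' t3
      have t5 : (h • (Sum.inl x1) : S.SV p) = Sum.inl (h • x1) := rfl
      rw [t5] at t4
      have t6 := (ij_inl hc hnb).1 t4
      rw [s2]
      exact t6
    have s5 : S.rho p (ce S.K (!b) (h.1 • e.1).1) = S.rho p (ce S.K (!b') e'.1.1) := by
      rw [s2, S.rho_smul h, h3]
    have s6 : h.1 • e.1 ∉ S.AJ := by
      intro k
      apply e.2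
      have := S.AJ.smul_mem h.1⁻¹ k
      rwa [inv_smul_smul] at this
    obtain ⟨m1, j, m2⟩ := h1 (h.1 • e.1) e'.1 b b' s6 e'.2 s1 l1' s3 l2' s4 l4' s5
    refine ⟨m1, j * h.1, Subtype.ext ?_⟩
    rw [m2, ← mul_smul]
    rfl

/-- at most one pole end: there is at most one direction -/
theorem e_le_one_uniq (hc : S.Conn) (hnb : S.NB) {w : S.X} {y n : S.NV w} (har : S.K.ar n.1 y.1)
    (hu : S.UniqDir hc w y n) :
    (jcut hc hnb w).e (oq H (S.K.pc.ct (S.cA w) ⟨PN.inn y.1 n.1, har⟩)) ≤ 1 := by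
  refine (jcut hc hnb w).e_le (C := S.K.pc.ct (S.cA w) ⟨PN.inn y.1 n.1, har⟩)
    (fun _ => 0) ?_
  intro d d' hd hd' k k' _
  obtain ⟨j, a1, n1, l1, l2, l3, l4, l5⟩ := pole_rep hc hnb har d hd k
  obtain ⟨j', a2, n2, l1', l2', l3', l4', l5'⟩ := pole_rep hc hnb har d' hd' k'
  have h12 := hu a1 a2 n1 n2 l1 l1' l2 l2' l4 l4'
  subst h12
  exact near_ext hc (l5.trans l5'.symm)

/-- no direction: no pole end -/
theorem e_zero (hc : S.Conn) (hnb : S.NB) {w : S.X} {y n : S.NV w} (har : S.K.ar n.1 y.1)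
    (h0 : ∀ d, ¬ (S.k0 hc w).ar (Sum.inl y) d) :
    (jcut hc hnb w).e (oq H (S.K.pc.ct (S.cA w) ⟨PN.inn y.1 n.1, har⟩)) = 0 := by
  by_contra h
  obtain ⟨a, -, k, -⟩ := cor_of_one hc hnb har (Nat.one_le_iff_ne_zero.2 h)
  exact h0 a k

/-- a group element which moves a pole moves all directions -/
theorem exits_move (hc : S.Conn) {p : S.X} {y : S.NV p} {h : ↥(stabilizer H p)}
    (hy : h.1 • y.1 = y.1) {a : V} (ha : S.K.ar y.1 a) (hne : h.1 • a ≠ a) {d : S.SV p}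
    (hd : (S.k0 hc p).ar (Sum.inl y) d) : h • d ≠ d := by
  have hm : S.K.ar y.1 (h.1 • a) := by
    have := S.K.ar_smul h.1 _ _ ha
    rwa [hy] at this
  have hd : S.SAr p (Sum.inl y) d := hd
  intro hdd
  cases hd with
  | hor _ b e =>
    have e1 : h.1 • b.1 = b.1 := congrArg Subtype.val (Sum.inl.inj hdd)
    rcases S.K.two y.1 a (h.1 • a) b.1 ha hm e with k | k | k
    · exact hne k.symm
    · apply hne
      rw [← k] at e1
      exact smul_left_cancel h.1 e1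
    · apply hne
      rw [← k] at e1
      exact e1
  | up _ u e =>
    have e1 : h.1 • u.1 = u.1 := congrArg Subtype.val (Sum.inr.inj hdd)
    have hp : h.1 • p = p := h.2
    obtain ⟨a1, k1, k2⟩ := S.js.cross y.1 ⟨a, ha⟩ p u.1 u.2 y.2 e
    obtain ⟨a2, l1, l2⟩ := S.js.cross y.1 ⟨a, ha⟩ u.1 p (SimpleGraph.Adj.symm u.2) e y.2
    have h12 : a1 ≠ a2 := by
      rintro rfl
      obtain ⟨z, hz⟩ := S.js.ne a1
      exact bey_not (k2 hz) (l2 hz)
    have h3 := (swap_poles S.K hy ha hne k1 l1 h12).1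
    obtain ⟨z, hz⟩ := S.js.ne a1
    have h4 : h.1 • z ∈ S.J a2 := by
      rw [← h3]
      exact S.js.smul h.1 _ _ hz
    have h5 : h.1 • z ∈ bey S.D.G p u.1 := by
      have := S.bey_smul h.1 (k2 hz)
      rwa [hp, e1] at this
    exact bey_not h5 (l2 h4)

end SyQ

end Pool.Agent.DI
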