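import Pool.Agent.DI.XQ
import Pool.Agent.DI.XLb
import Pool.Agent.DI.XLd

/-!
# The exc-law at the softs

`S.LostD w`: at lost nodes one direction is one orbit; `lost_of_D : S.Lost w`. `S.Mis p y n b`: the local
piece of `n` has no corner in the direction of the pole `b`. `softLe`, `softEq`: the statements about the
components of the softs which are used in `DI/XQ`. `S.OS`: every piece has a strand at every pole.
-/

namespace Pool.Agent.DI

open MulAction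
open Pool.Agent.SAF (InC orbs FinOrb oc Decomp SAn SA Conv hull dist_edge FinOrb_iff exists_next)
open Pool.Agent.BT (PX PQ JS bey exits lz lz_self lz_ne lz_symm x_next_unique)
open Pool.Agent.BT.TA

namespace SyQ

variable {H V : Type} [Group H] [MulAction H V] {S : SyQ H V}

/-! ### lost nodes -/

/-- at lost nodes one direction is one orbit -/
def LostD (S : SyQ H V) {ι : Type} (w : ι → S.X) : Prop := ∀ y n, S.K.ar n y →
  ∀ p, p ∈ S.J y → p ∈ S.J n → ¬ Bp H w p → S.OneDir p y n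

theorem lost_of_D (hc : S.Conn) (hnb : S.NB) {ι : Type} {w : ι → S.X} (hL : S.LostD w) :
    S.Lost w where
  two y n h p hp hn hb :=
    deg_le_two hc hnb (y := (⟨y, hp⟩ : S.NV p)) (n := (⟨n, hn⟩ : S.NV p)) h (hL y n h p hp hn hb)
  one y n h p hp hn hb hs := by
    obtain ⟨g, k1, k2, k3, k4⟩ := hs
    obtain ⟨d, hd, hne⟩ : ∃ d, (S.k0 hc p).ar (Sum.inl ⟨y, hp⟩) d ∧
        (⟨g, k2⟩ : ↥(stabilizer H p)) • d ≠ d := by
      rcases k4 with ⟨u, l1, l2, l3⟩ | ⟨a, l1, l2, l3⟩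
      · exact ⟨Sum.inr ⟨u, l1⟩, SAr.up _ _ l2,
          fun k => l3 (congrArg Subtype.val (Sum.inr.inj k))⟩
      · exact ⟨Sum.inl ⟨a, l2⟩, SAr.hor _ _ l1,
          fun k => l3 (congrArg Subtype.val (Sum.inl.inj k))⟩
    exact deg_le_one_mv hc hnb (y := (⟨y, hp⟩ : S.NV p)) (n := (⟨n, hn⟩ : S.NV p)) h
      (hL y n h p hp hn hb) (h := ⟨g, k2⟩) k1 k3 hd hne

/-! ### a missing direction -/

/-- `m` is in the direction of `b` -/
def SDr (S : SyQ H V) (p : S.X) (b m : V) : Prop := (p ∈ S.J b ∧ m = b) ∨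
  ∃ u, S.D.G.Adj p u ∧ S.J b ⊆ bey S.D.G p u ∧ S.J m ⊆ bey S.D.G p u

/-- the local piece of `n` has no corner in the direction of the pole `b` -/
def Mis (S : SyQ H V) (p : S.X) (y n b : V) : Prop := S.K.ar y b ∧
  ∀ n' m, S.LIJ p y n n' → S.K.Cor n' y m → ¬ S.SDr p b m

theorem SDr.smul (g : H) {p : S.X} {b m : V} (h : S.SDr p b m) : S.SDr (g • p) (g • b) (g • m) := by
  rcases h with ⟨h1, rfl⟩ | ⟨u, h1, h2, h3⟩
  · exact Or.inl ⟨S.js.smul g _ _ h1, rfl⟩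
  · exact Or.inr ⟨g • u, S.D.adj_smul g _ _ h1, S.sub_bey_smul g h2, S.sub_bey_smul g h3⟩

theorem Mis.smul (g : H) {p : S.X} {y n b : V} (h : S.Mis p y n b) :
    S.Mis (g • p) (g • y) (g • n) (g • b) := by
  refine ⟨S.K.ar_smul g _ _ h.1, fun n' m h1 h2 h3 => ?_⟩
  have k1 := LIJ.smul g⁻¹ h1
  have k2 := h2.smul g⁻¹
  have k3 := h3.smul g⁻¹
  rw [inv_smul_smul, inv_smul_smul, inv_smul_smul] at k1
  rw [inv_smul_smul] at k2
  rw [inv_smul_smul, inv_smul_smul] at k3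
  exact h.2 _ _ k1 k2 k3

theorem SDr_of_rho {p : S.X} {b m : V} (h : S.rho p m = S.rho p b) : S.SDr p b m := by
  by_cases hb : p ∈ S.J b
  · rw [S.rho_near hb] at h
    exact Or.inl ⟨hb, rho_inl h⟩
  · have hm : p ∉ S.J m := by
      intro hm
      rw [S.rho_near hm, S.rho_far hb] at h
      cases h
    rw [S.rho_far hb, S.rho_far hm] at h
    have e : S.dir p m = S.dir p b := congrArg Subtype.val (Sum.inr.inj h)
    refine Or.inr ⟨S.dir p b, S.dir_adj hb, S.dir_bey hb, ?_⟩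
    rw [← e]
    exact S.dir_bey hm

theorem Mis.uniq (hc : S.Conn) (hnb : S.NB) {p : S.X} {y n : S.NV p} {b : V}
    (h : S.Mis p y.1 n.1 b) : S.UniqDir hc p y n := by
  refine uniq_of_miss hc (pole_exit hc h.1) ?_
  intro n' hn' hcor
  obtain ⟨a, c, k1, k2, k3, -⟩ := (k0_cor_iff hc hnb).1 hcor
  have e : c = n'.1 := rho_inl k3
  subst e
  exact h.2 _ _ hn' k1.symm (SDr_of_rho k2)

theorem stub_uniq (hc : S.Conn) {p : S.X} {y n : S.NV p} (hy : ∃ a, S.K.ar y.1 a)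
    (h : ∀ a b, S.K.ar y.1 a → S.K.ar y.1 b → a = b) : S.UniqDir hc p y n := by
  have hno : ∀ u, S.D.G.Adj p u → u ∈ S.J y.1 → False := by
    intro u hu hy'
    obtain ⟨a, k1, k2⟩ := S.js.cross y.1 hy _ _ hu y.2 hy'
    obtain ⟨b, l1, l2⟩ := S.js.cross y.1 hy _ _ hu.symm hy' y.2
    have := h a b k1 l1
    subst this
    obtain ⟨q, hq⟩ := S.js.ne a
    exact bey_not (k2 hq) (l2 hq)
  intro d d' n1 n2 h1 h2 _ _ _ _
  have h1 : S.SAr p (Sum.inl y) d := h1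
  have h2 : S.SAr p (Sum.inl y) d' := h2
  cases h1 with
  | hor _ a k1 =>
    cases h2 with
    | hor _ b k2 => exact congrArg Sum.inl (Subtype.ext (h _ _ k1 k2))
    | up _ u k2 => exact (hno u.1 u.2 k2).elim
  | up _ u k1 => exact (hno u.1 u.2 k1).elim

section one

variable (hc : S.Conn) (hnb : S.NB) {ι : Type} (w : ι → S.X)
  (hw : ∀ (i j : ι) (g : H), g • w i = w j → i = j)

theorem exE_mis (hL : S.LostD w) {y n b : V} (h : S.K.ar n y) {p : S.X} (hp : p ∈ S.J y)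
    (hn : p ∈ S.J n) (hm : S.Mis p y n b) : exE hc hnb w hw (oq H (S.lp h)) ≤ 1 := by
  by_cases hb : Bp H w p
  · have key := bad_red (S := S) w
      (F := fun p y n h => (∃ b, S.Mis p y n b) → exE hc hnb w hw (oq H (S.lp h)) ≤ 1)
      ?_ ?_ hb h hp hn
    · exact key ⟨b, hm⟩
    · rintro g p y n h k ⟨b, hs⟩
      have := k ⟨g • b, hs.smul g⟩
      rw [oq_lp] at this
      exact this
    · rintro i y n h h1 h2 ⟨b, hs⟩
      rw [exE_bad hc hnb w hw h h1 h2]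
      exact e_le_one_uniq hc hnb (y := (⟨y, h1⟩ : S.NV (w i))) (n := (⟨n, h2⟩ : S.NV (w i))) h
        (Mis.uniq hc hnb (b := b) hs)
  · rw [exE_lost hc hnb w hw h hp hn hb]
    exact deg_le_one_uniq hc hnb (y := (⟨y, hp⟩ : S.NV p)) (n := (⟨n, hn⟩ : S.NV p)) h
      (hL y n h p hp hn hb) (Mis.uniq hc hnb (b := b) hm)

theorem exE_stub (hL : S.LostD w) {y n : V} (h : S.K.ar n y) {p : S.X} (hp : p ∈ S.J y)
    (hn : p ∈ S.J n) (hy : ∃ a, S.K.ar y a) (hs : ∀ a b, S.K.ar y a → S.K.ar y b → a = b) :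
    exE hc hnb w hw (oq H (S.lp h)) ≤ 1 := by
  by_cases hb : Bp H w p
  · have key := bad_red (S := S) w
      (F := fun _ y n h => (∃ a, S.K.ar y a) → (∀ a b, S.K.ar y a → S.K.ar y b → a = b) →
        exE hc hnb w hw (oq H (S.lp h)) ≤ 1) ?_ ?_ hb h hp hn
    · exact key hy hs
    · intro g p y n h k ⟨a, ha⟩ hs
      have := k ⟨g • a, S.K.ar_smul g _ _ ha⟩ (fun a b ha hb => by
        have h1 := S.K.ar_smul g⁻¹ _ _ ha
        have h2 := S.K.ar_smul g⁻¹ _ _ hb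
        rw [inv_smul_smul] at h1 h2
        exact smul_left_cancel g⁻¹ (hs _ _ h1 h2))
      rw [oq_lp] at this
      exact this
    · intro i y n h h1 h2 hy hs
      rw [exE_bad hc hnb w hw h h1 h2]
      exact e_le_one_uniq hc hnb (y := (⟨y, h1⟩ : S.NV (w i))) (n := (⟨n, h2⟩ : S.NV (w i))) h
        (stub_uniq hc hy hs)
  · rw [exE_lost hc hnb w hw h hp hn hb]
    exact deg_le_one_uniq hc hnb (y := (⟨y, hp⟩ : S.NV p)) (n := (⟨n, hn⟩ : S.NV p)) h
      (hL y n h p hp hn hb) (stub_uniq hc hy hs)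

/-- at most one pole end where a direction is missing -/
structure EM (S : SyQ H V) (e : S.LPG.fg.N → ℕ) : Prop where
  mis : ∀ y n (h : S.K.ar n y) p b, p ∈ S.J y → p ∈ S.J n → S.Mis p y n b →
    e (oq H (S.lp h)) ≤ 1
  stub : ∀ y n (h : S.K.ar n y), (∃ a, S.K.ar y a) →
    (∀ a b, S.K.ar y a → S.K.ar y b → a = b) → e (oq H (S.lp h)) ≤ 1

theorem exE_em (hL : S.LostD w) : S.EM (exE hc hnb w hw) where
  mis _ _ h _ _ hp hn hm := exE_mis hc hnb w hw hL h hp hn hm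
  stub _ _ h hy hs := by
    obtain ⟨p, hp, hn⟩ := lp_ex h
    exact exE_stub hc hnb w hw hL h hp hn hy hs

end one

/-! ### the places of a soft are on a line -/

theorem dist_line (hc : S.Conn) {y b : V} (hb : S.K.ar y b) {q r : S.X} (hq : q ∈ S.J y)
    (hrb : r ∈ S.J b) (k : ℕ) : ∀ p u, S.D.G.Adj p u → p ∈ S.J y →
      S.J b ⊆ bey S.D.G p u → q ∈ bey S.D.G p u → S.D.G.dist q p = k →
      S.D.G.dist r q + k = S.D.G.dist r p := by
  induction k with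
  | zero =>
    intro p u _ _ _ h4 h5
    have h4 : S.D.G.dist q p = S.D.G.dist q u + 1 := h4
    omega
  | succ k ih =>
    intro p u h1 h2 h3 h4 h5
    have h6 : S.D.G.dist q p = S.D.G.dist q u + 1 := h4
    have h7 : S.D.G.dist r p = S.D.G.dist r u + 1 := h3 hrb
    have hu : u ∈ S.J y := (conv_cr S.D.tree (S.js.conv y) h1 h2 hq (bey_self h1.symm) h4).2
    by_cases hqu : u = q
    · subst hqu
      have h8 : S.D.G.dist u u = 0 := SimpleGraph.dist_self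
      omega
    · obtain ⟨u', hu', e⟩ := exists_next S.D.tree hqu
      have h8 : q ∈ bey S.D.G u u' := by
        show S.D.G.dist q u = S.D.G.dist q u' + 1
        rw [SimpleGraph.dist_comm, e, SimpleGraph.dist_comm]
      have h9 : u' ∈ S.J y := (conv_cr S.D.tree (S.js.conv y) hu' hu hq (bey_self hu'.symm) h8).2
      have hne : p ≠ u' := by
        rintro rfl
        exact bey_not h4 h8
      have hd1 : (S.k0 hc u).ar (Sum.inl ⟨y, hu⟩) (Sum.inr ⟨p, h1.symm⟩) := SAr.up _ _ h2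
      have hd2 : (S.k0 hc u).ar (Sum.inl ⟨y, hu⟩) (Sum.inr ⟨u', hu'⟩) := SAr.up _ _ h9
      have hd3 : (S.k0 hc u).ar (Sum.inl ⟨y, hu⟩) (S.rho u b) := pole_exit hc hb
      have h10 : S.J b ⊆ bey S.D.G u u' := by
        rcases (S.k0 hc u).two _ _ _ _ hd1 hd2 hd3 with k | k | k
        · exact absurd (congrArg Subtype.val (Sum.inr.inj k)) hne
        · have hub : u ∉ S.J b := by
            intro hub
            rw [S.rho_near hub] at k
            cases k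
          rw [S.rho_far hub] at k
          have e1 : u' = S.dir u b := congrArg Subtype.val (Sum.inr.inj k)
          rw [e1]
          exact S.dir_bey hub
        · have hub : u ∉ S.J b := by
            intro hub
            rw [S.rho_near hub] at k
            cases k
          rw [S.rho_far hub] at k
          have e1 : p = S.dir u b := congrArg Subtype.val (Sum.inr.inj k)
          have h11 := S.dir_bey hub
          rw [← e1] at h11
          obtain ⟨z, hz⟩ := S.js.ne b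
          exact absurd (h11 hz) (bey_not (h3 hz))
      have := ih u u' hu' hu h10 h8 (by omega)
      omega

/-- a one-sided piece: some local piece has no corner in the direction of the missing pole -/
theorem exists_mis (hc : S.Conn) {y n b : V} (h : S.K.ar n y) (hb : S.K.ar y b)
    (hno : ∀ m, S.K.IJ y n m → ¬ S.K.Cor m y b) : ∃ m p, ∃ _ : S.K.ar m y, S.K.IJ y n m ∧
      p ∈ S.J y ∧ p ∈ S.J m ∧ S.Mis p y m b := by
  classical
  obtain ⟨r, hr1, hr2⟩ := S.one_ex (Or.inl hb : S.K.E y b)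
  have hex : ∃ k : ℕ, ∃ m p, S.K.ar m y ∧ S.K.IJ y n m ∧ p ∈ S.J y ∧ p ∈ S.J m ∧
      S.D.G.dist r p = k := by
    obtain ⟨p, h1, h2⟩ := lp_ex h
    exact ⟨_, n, p, h, Relation.EqvGen.refl _, h1, h2, rfl⟩
  obtain ⟨m, p, k1, k2, k3, k4, k5⟩ := Nat.find_spec hex
  refine ⟨m, p, k1, k2, k3, k4, hb, ?_⟩
  intro n' m' l1 l2 l3
  have hn' : S.K.IJ y n n' := k2.trans' (LIJ_IJ l1)
  have hn'y : S.K.ar n' y := (GX.IJ.ar (LIJ_IJ l1)).1 k1
  rcases l3 with ⟨l3, rfl⟩ | ⟨u, l3, l4, l5⟩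
  · exact hno _ hn' l2
  · obtain ⟨q, q1, q2⟩ := S.one_ex (l2.E2 : S.K.E y m')
    have hq := l5 q2
    have hu : u ∈ S.J y := (conv_cr S.D.tree (S.js.conv y) l3 k3 q1 (bey_self l3.symm) hq).2
    rcases l2.E2 with e | e
    · -- a pole
      have hmb : m' ≠ b := by
        rintro rfl
        exact hno _ hn' l2
      obtain ⟨c, c1, c2⟩ := S.js.cross y ⟨b, hb⟩ _ _ l3.symm hu k3
      have hdis : ∀ c, S.J c ⊆ bey S.D.G p u → S.J c ⊆ bey S.D.G u p → False := by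
        intro c k1 k2
        obtain ⟨z, hz⟩ := S.js.ne c
        exact bey_not (k1 hz) (k2 hz)
      rcases S.K.two y m' b c e hb c1 with k | k | k
      · exact hmb k
      · subst k
        exact hdis _ l4 c2
      · subst k
        exact hdis _ l5 c2
    · -- an in-node
      have h2 : S.K.IJ y n m' := hn'.trans' (Relation.EqvGen.rel _ _ ⟨l2, hn'y, e⟩)
      have h3 := dist_line hc hb q1 hr2 (S.D.G.dist q p) p u l3 k3 l4 hq rfl
      have h4 : S.D.G.dist q p = S.D.G.dist q u + 1 := hq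
      have h5 := Nat.find_min' hex ⟨m', q, e, h2, q1, q2, rfl⟩
      omega

/-! ### the components of the softs -/

/-- a private pole of a component -/
theorem pole_node {y n : V} (h : S.K.ar n y) (x : ↥(S.LPG.cT (S.lp h)))
    (hx : x ∈ S.LPG.rQ (S.lp h) S.PLq) : ∃ a, ∃ k : S.K.PV (PN.pol y a (S.K.Pc y n)),
      S.K.ar y a ∧ x.1 = S.K.pc.ct S.AJ ⟨PN.pol y a (S.K.Pc y n), k⟩ := by
  obtain ⟨t, ht, hk⟩ := comp_rep (S := S) (t0 := ⟨PN.inn y n, h⟩) (y := y) (C := S.K.Pc y n)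
    rfl rfl x
  have hx' : x.1 ∈ S.PLq := hx
  rw [← ht] at hx'
  obtain ⟨a, ha, e⟩ := GX.PO_pk (mem_PLq.1 hx') hk
  obtain ⟨t, hT⟩ := t
  have e : t = PN.pol y a (S.K.Pc y n) := e
  subst e
  exact ⟨a, hT, ha, ht.symm⟩

/-- another node of a component -/
theorem inn_node {y n : V} (h : S.K.ar n y) (x : ↥(S.LPG.cT (S.lp h)))
    (hx : x ∉ S.LPG.rQ (S.lp h) S.PLq) : ∃ m, ∃ k : S.K.ar m y, S.K.IJ y n m ∧
      x.1 = S.lp k := by
  obtain ⟨t, ht, hk⟩ := comp_rep (S := S) (t0 := ⟨PN.inn y n, h⟩) (y := y) (C := S.K.Pc y n)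
    rfl rfl x
  have hx' : t ∉ S.K.PO := fun k => hx (by
    show x.1 ∈ S.PLq
    rw [← ht]
    exact mem_PLq.2 k)
  obtain ⟨m, hm, -, e1, e2⟩ := GX.not_PO_pk hx' hk
  obtain ⟨t, hT⟩ := t
  have e : t = PN.inn y m := e1
  subst e
  exact ⟨m, hm, GX.Pc_eq.1 e2.symm, ht.symm⟩

/-- the in-nodes of the piece are nodes of the component -/
theorem lp_cT {y n m : V} (h : S.K.ar n y) (k : S.K.ar m y) (hj : S.K.IJ y n m) :
    S.lp k ∈ S.LPG.cT (S.lp h) := by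
  show Relation.EqvGen S.LPG.st (S.lp h) (S.lp k)
  exact (JM.con_eqv _ S.AJ).2 (S.K.pc_inn hj h k)

theorem lp_rQ {y n m : V} (h : S.K.ar n y) (k : S.K.ar m y) (hj : S.K.IJ y n m) :
    (⟨S.lp k, lp_cT h k hj⟩ : ↥(S.LPG.cT (S.lp h))) ∉ S.LPG.rQ (S.lp h) S.PLq := by
  intro hk
  have hk : S.K.pc.ct S.AJ ⟨PN.inn y m, k⟩ ∈ S.PLq := hk
  exact S.K.not_PO rfl (mem_PLq.1 hk)

/-- a pole with a strand gives a private pole -/
theorem pol_cT {y n a n' : V} (h : S.K.ar n y) (ha : S.K.ar y a) (hj : S.K.IJ y n n')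
    (hn : S.K.ar n' y) (hcor : S.K.Cor a y n') : ∃ k : S.K.PV (PN.pol y a (S.K.Pc y n)),
      S.K.pc.ct S.AJ ⟨PN.pol y a (S.K.Pc y n), k⟩ ∈ S.LPG.cT (S.lp h) ∧
      S.K.pc.ct S.AJ ⟨PN.pol y a (S.K.Pc y n), k⟩ ∈ S.PLq := by
  have k : S.K.PV (PN.pol y a (S.K.Pc y n)) := ⟨ha, n', hn, hcor, GX.Pc_eq.2 hj⟩
  refine ⟨k, ?_, mem_PLq.2 (S.K.mem_PO rfl)⟩
  show Relation.EqvGen S.LPG.st (S.lp h) _
  exact (JM.con_eqv _ S.AJ).2 (S.K.pc_pol k (GX.self_Pc y n) h).symm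

theorem smul_pole {y n : V} (h : S.K.ar n y) {a : V} {k : S.K.PV (PN.pol y a (S.K.Pc y n))}
    {j : H} (hj : j • S.K.pc.ct S.AJ ⟨PN.pol y a (S.K.Pc y n), k⟩ ∈ S.LPG.cT (S.lp h))
    (hne : j • S.K.pc.ct S.AJ ⟨PN.pol y a (S.K.Pc y n), k⟩ ≠
      S.K.pc.ct S.AJ ⟨PN.pol y a (S.K.Pc y n), k⟩) : j • a ≠ a := by
  intro e
  apply hne
  have h1 : Relation.EqvGen S.LPG.st (S.K.pc.ct S.AJ ⟨PN.inn y n, h⟩)
      (S.K.pc.ct S.AJ (j • ⟨PN.pol y a (S.K.Pc y n), k⟩)) := hj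
  rw [L_eqv] at h1
  have e1 : y = j • y := congrArg Prod.fst h1
  have e2 : S.K.Pc y n = (fun x => j • x) '' S.K.Pc y n := congrArg Prod.snd h1
  rw [← S.K.pc.ct_smul]
  congr 1
  apply Subtype.ext
  show j • PN.pol y a (S.K.Pc y n) = _
  rw [PN.smul_pol, ← e1, ← e2, e]

/-- THE COMPONENTS OF THE SOFTS -/
theorem softC (hc : S.Conn) {e : S.LPG.fg.N → ℕ} (E : S.EX e) (E' : S.EM e) {y n : V}
    (h : S.K.ar n y) (hy : ∃ a, S.K.ar y a) (hl : S.K.LC y) :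
    (S.LPG.comp (S.lp h)).SoftC (S.LPG.rQ (S.lp h) S.PLq) (S.LPG.re (S.lp h) e) where
  two p q r hp hq hr := by
    obtain ⟨a1, k1, l1, e1⟩ := pole_node h p hp
    obtain ⟨a2, k2, l2, e2⟩ := pole_node h q hq
    obtain ⟨a3, k3, l3, e3⟩ := pole_node h r hr
    rcases S.K.two y a1 a2 a3 l1 l2 l3 with k | k | k
    · subst k
      exact Or.inl (Subtype.ext (e1.trans e2.symm))
    · subst k
      exact Or.inr (Or.inl (Subtype.ext (e2.trans e3.symm)))
    · subst k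
      exact Or.inr (Or.inr (Subtype.ext (e1.trans e3.symm)))
  nepl := by
    obtain ⟨a, n', h1, h2, h3, h4⟩ := GX.exists_pol hl hy h
    obtain ⟨k, k1, k2⟩ := pol_cT h h1 h2 h3 h4
    exact ⟨⟨_, k1⟩, k2⟩
  ne := ⟨_, lp_rQ h h (Relation.EqvGen.refl _)⟩
  conn := S.LPG.comp_conn _
  dconn := comp_dconn (t0 := ⟨PN.inn y n, h⟩) (y := y) (C := S.K.Pc y n) rfl rfl
  pp := by
    rintro ⟨⟨e, he⟩, hE⟩ ⟨h1, h2⟩
    have h1 : S.K.pc.ct S.AJ (S.K.pc.s e) ∈ S.PLq := h1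
    have h2 : S.K.pc.ct S.AJ (S.K.pc.t e) ∈ S.PLq := h2
    have h3 : ¬ S.K.ar (S.K.c0 e.1) (S.K.c1 e.1) := S.K.nd_PO.1 (mem_PLq.1 h1)
    have h4 : ¬ S.K.ar (S.K.c2 e.1) (S.K.c1 e.1) := S.K.nd_PO.1 (mem_PLq.1 h2)
    exact e.2.elim h3 h4
  e2 x hx := by
    obtain ⟨m, k, -, e1⟩ := inn_node h x hx
    show e (oq H x.1) ≤ 2
    rw [e1]
    exact E.two _ _ k
  e1 x hx hm := by
    obtain ⟨m, k, hj, e1⟩ := inn_node h x hx
    show e (oq H x.1) ≤ 1
    obtain ⟨j, hj1, q, hq, hne⟩ := hm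
    obtain ⟨a, ka, ha, ea⟩ := pole_node h q hq
    have hj2 : j.1 • x.1 = x.1 := congrArg Subtype.val hj1
    obtain ⟨p, hp, hp'⟩ := lp_ex k
    rw [e1] at hj2 ⊢
    obtain ⟨l1, l2, l3⟩ := lp_fix k hj2 hp hp'
    have hja : j.1 • a ≠ a := by
      refine smul_pole h (k := ka) ?_ ?_
      · rw [← ea]
        exact (j • q).2
      · intro hh
        apply hne
        apply Subtype.ext
        show j.1 • q.1 = q.1
        rw [ea]
        exact hh
    exact E.one _ _ k p hp hp' (Swp_of_pole hp l1 l2 l3 ha hja)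
  one := by
    rintro ⟨q, hq⟩
    by_cases hs : ∀ a b, S.K.ar y a → S.K.ar y b → a = b
    · exact ⟨_, lp_rQ h h (Relation.EqvGen.refl _), E'.stub _ _ h hy hs⟩
    · obtain ⟨b, hb, hno⟩ : ∃ b, S.K.ar y b ∧ ∀ m, S.K.IJ y n m → ¬ S.K.Cor m y b := by
        by_contra hall
        apply hs
        intro a b ha hb
        have key : ∀ b, S.K.ar y b → ∃ k : S.K.PV (PN.pol y b (S.K.Pc y n)),
            ∃ hk : S.K.pc.ct S.AJ ⟨PN.pol y b (S.K.Pc y n), k⟩ ∈ S.LPG.cT (S.lp h),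
              (⟨_, hk⟩ : ↥(S.LPG.cT (S.lp h))) = q := by
          intro b hb
          by_contra hk
          apply hall
          refine ⟨b, hb, fun m hm hcor => hk ?_⟩
          obtain ⟨k, k1, k2⟩ := pol_cT h hb hm ((GX.IJ.ar hm).1 h) hcor.symm
          exact ⟨k, k1, hq ⟨_, k1⟩ k2⟩
        obtain ⟨ka, ka1, ka2⟩ := key a ha
        obtain ⟨kb, kb1, kb2⟩ := key b hb
        have h1 := congrArg Subtype.val (ka2.trans kb2.symm)
        have h2 := ct_pole (S := S) (S.K.mem_PO rfl) h1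
        exact (PN.pol.inj (congrArg Subtype.val h2)).2.1
      obtain ⟨m, p, k, k1, k2, k3, k4⟩ := exists_mis hc h hb hno
      exact ⟨_, lp_rQ h k k1, E'.mis _ _ k p b k2 k3 k4⟩

theorem rs_PL {y n : V} (h : S.K.ar n y) : S.LPG.rs (S.lp h) S.PL =
    (S.LPG.comp (S.lp h)).imN (S.LPG.rQ (S.lp h) S.PLq) := S.LPG.rs_imN (S.lp h) S.PLq

/-- every piece has a strand at every pole -/
def OS (S : SyQ H V) : Prop := ∀ y n a, S.K.ar n y → S.K.ar y a →
  (∃ p u, p ∈ S.J y ∧ u ∈ S.J y ∧ S.D.G.Adj p u) → ∃ n', S.K.IJ y n n' ∧ S.K.Cor a y n'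

/-- THE EQUALITY CASE at a soft which crosses an edge -/
theorem soft_eq (hc : S.Conn) {e : S.LPG.fg.N → ℕ} (E : S.EX e) (E' : S.EM e) (hos : S.OS)
    {y n : V} (h : S.K.ar n y) (hl : S.K.LC y) {p u : S.X} (hp : p ∈ S.J y)
    (hu : S.D.G.Adj p u) (hu' : u ∈ S.J y) (hy : ∃ a, S.K.ar y a)
    [Fintype (S.LPG.comp (S.lp h)).fg.N]
    (h0 : (S.LPG.comp (S.lp h)).fg.exc (S.LPG.rs (S.lp h) S.PL) =
      (S.LPG.comp (S.lp h)).fg.aftE (S.LPG.rs (S.lp h) S.PL) (S.LPG.re (S.lp h) e)) :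
    ((S.LPG.comp (S.lp h)).dn (S.LPG.rQ (S.lp h) S.PLq)).fg.b1 = 0 ∧
    ∀ m (k : S.K.ar m y), S.K.IJ y n m → ∀ q, q ∈ S.J y → q ∈ S.J m → Full e q k := by
  rw [rs_PL] at h0
  have hC := softC hc E E' h hy hl
  obtain ⟨a, a1, a2⟩ := S.js.cross y hy _ _ hu hp hu'
  obtain ⟨b, b1, b2⟩ := S.js.cross y hy _ _ hu.symm hu' hp
  have hab : a ≠ b := by
    rintro rfl
    obtain ⟨z, hz⟩ := S.js.ne a
    exact bey_not (a2 hz) (b2 hz)
  obtain ⟨na, la, ca⟩ := hos y n a h a1 ⟨p, u, hp, hu', hu⟩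
  obtain ⟨nb, lb, cb⟩ := hos y n b h b1 ⟨p, u, hp, hu', hu⟩
  obtain ⟨ka, ka1, ka2⟩ := pol_cT h a1 la ((GX.IJ.ar la).1 h) ca
  obtain ⟨kb, kb1, kb2⟩ := pol_cT h b1 lb ((GX.IJ.ar lb).1 h) cb
  obtain ⟨c1, c2⟩ := hC.eq h0.ge ⟨⟨_, ka1⟩, ka2, ⟨_, kb1⟩, kb2, fun e => by
    have h1 := congrArg Subtype.val e
    have h2 := ct_pole (S := S) (S.K.mem_PO rfl) h1
    exact hab (PN.pol.inj (congrArg Subtype.val h2)).2.1⟩
  refine ⟨c1, fun m k hj q hq hq' => ?_⟩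
  rcases c2 ⟨S.lp k, lp_cT h k hj⟩ (lp_rQ h k hj) with e | ⟨e, hm⟩
  · exact Or.inl e
  · refine Or.inr ⟨e, ?_⟩
    obtain ⟨j, hj1, t, ht, hne⟩ := hm
    obtain ⟨c, kc, hc', ec⟩ := pole_node h t ht
    have hj2 : j.1 • S.lp k = S.lp k := congrArg Subtype.val hj1
    obtain ⟨l1, l2, l3⟩ := lp_fix k hj2 hq hq'
    have hja : j.1 • c ≠ c := by
      refine smul_pole h (k := kc) ?_ ?_
      · rw [← ec]
        exact (j • t).2
      · intro hh
        apply hne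
        apply Subtype.ext
        show j.1 • t.1 = t.1
        rw [ec]
        exact hh
    exact Swp_of_pole hq l1 l2 l3 hc' hja

section soft

variable (hc : S.Conn) (hnb : S.NB) {ι : Type} (w : ι → S.X)
  (hw : ∀ (i j : ι) (g : H), g • w i = w j → i = j)

/-- THE INEQUALITY at the softs -/
theorem softLe (hL : S.LostD w) (hl : ∀ y, (∃ a, S.K.ar y a) → S.K.LC y) :
    SoftLe hc hnb w hw := by
  intro y n h hy hF
  rw [rs_PL]
  exact (softC hc (exE_ex hc hnb w hw (lost_of_D hc hnb hL)) (exE_em hc hnb w hw hL) h hy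
    (hl y hy)).le

/-- THE EQUALITY CASE at the softs -/
theorem softEq (hL : S.LostD w) (hl : ∀ y, (∃ a, S.K.ar y a) → S.K.LC y) (hos : S.OS) :
    SoftEq hc hnb w hw := by
  intro y n h hy p u hp hn hu hu' hF h0
  exact (soft_eq hc (exE_ex hc hnb w hw (lost_of_D hc hnb hL)) (exE_em hc hnb w hw hL) hos h
    (hl y hy) hp hu hu' hy h0).2 n h (Relation.EqvGen.refl _) p hp hn

end soft

end SyQ

end Pool.Agent.DI
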