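import Pool.Agent.DI.Dup
import Pool.Agent.DI.XLc
import Pool.Agent.DI.UqT
import Pool.Agent.DI.PhL

/-!
# The exc-law with duplicate lines (owner: helper38)

`R`: an invariant set of lines of `S.LPG` (corners of `K` which are not local). `S.DupL R`: every line of
`R` joins two in-nodes and is parallel to a line outside of `R`. `S.LostR (JM.cpl R) w`: at lost nodes one
direction is one orbit if the lines of `R` are not counted. `dupB`: the number of the ends of lines of `R`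
over the places `w i`.
* `pexc_leR`: `S.K.pexc + dupB ≤ ∑ i, (S.k0 hc (w i)).pexc`;
* `full_of_eqR`, `TS_of_eqR`: the equality case; `sink_degR`: the degrees at the sinks.
-/

attribute [local instance 2000] SubMulAction.mulAction

namespace Pool.Agent.DI

open MulAction
open Pool.Agent.SAF (InC orbs FinOrb oc Decomp SAn SA Conv hull dist_edge FinOrb_iff exists_next TAct)
open Pool.Agent.SAG (IO Zt)
open Pool.Agent.BT (PX PQ JS bey exits mst Hyp finite_of_hyp)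
open Pool.Agent.BT.TA

namespace SyQ

variable {H V : Type} [Group H] [MulAction H V] {S : SyQ H V}

section bad

variable (hc : S.Conn) (hnb : S.NB) {ι : Type} (w : ι → S.X)
  (hw : ∀ (i j : ι) (g : H), g • w i = w j → i = j)

/-! ### nodes over bad places -/

theorem bad_two {y n : V} (h : S.K.ar n y) {p : S.X} (hp : p ∈ S.J y) (hn : p ∈ S.J n)
    (hb : Bp H w p) : exE hc hnb w hw (oq H (S.lp h)) ≤ 2 := by
  refine bad_red (S := S) w (F := fun _ y n h => exE hc hnb w hw (oq H (S.lp h)) ≤ 2) ?_ ?_ hb h hp hn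
  · intro g p y n h k
    rw [oq_lp] at k
    exact k
  · intro i y n h h1 h2
    rw [exE_bad hc hnb w hw h h1 h2]
    exact e_le_two' hc hnb (y := ⟨y, h1⟩) (n := ⟨n, h2⟩) h

theorem bad_one {y n : V} (h : S.K.ar n y) {p : S.X} (hp : p ∈ S.J y) (hn : p ∈ S.J n)
    (hb : Bp H w p) (hs : S.Swp p y n) : exE hc hnb w hw (oq H (S.lp h)) ≤ 1 := by
  have key := bad_red (S := S) w
    (F := fun p y n h => S.Swp p y n → exE hc hnb w hw (oq H (S.lp h)) ≤ 1) ?_ ?_ hb h hp hn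
  · exact key hs
  · intro g p y n h k hs
    have := k (hs.smul g)
    rw [oq_lp] at this
    exact this
  · intro i y n h h1 h2 hs
    rw [exE_bad hc hnb w hw h h1 h2]
    obtain ⟨g, k1, k2, k3, k4⟩ := hs
    rcases k4 with ⟨u, l1, l2, l3⟩ | ⟨a, l1, l2, l3⟩
    · exact e_le_one' hc hnb (y := ⟨y, h1⟩) (n := ⟨n, h2⟩) h (h := ⟨g, k2⟩) k1 k3
        (a := Sum.inr ⟨u, l1⟩) (SAr.up _ _ l2)
        (fun k => l3 (congrArg Subtype.val (Sum.inr.inj k)))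
    · exact e_le_one' hc hnb (y := ⟨y, h1⟩) (n := ⟨n, h2⟩) h (h := ⟨g, k2⟩) k1 k3
        (a := Sum.inl ⟨a, l2⟩) (SAr.hor _ _ l1)
        (fun k => l3 (congrArg Subtype.val (Sum.inl.inj k)))

theorem bad_zero {y n : V} (h : S.K.ar n y) {p : S.X} (hp : p ∈ S.J y) (hn : p ∈ S.J n)
    (hb : Bp H w p) (hd : ¬ S.Dir p y) : exE hc hnb w hw (oq H (S.lp h)) = 0 := by
  have key := bad_red (S := S) w
    (F := fun p y n h => ¬ S.Dir p y → exE hc hnb w hw (oq H (S.lp h)) = 0) ?_ ?_ hb h hp hn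
  · exact key hd
  · intro g p y n h k hs
    have := k (fun k => hs (by
      have := k.smul g⁻¹
      rwa [inv_smul_smul, inv_smul_smul] at this))
    rw [oq_lp] at this
    exact this
  · intro i y n h h1 h2 hs
    rw [exE_bad hc hnb w hw h h1 h2]
    by_contra hne
    obtain ⟨a, n', k1, -⟩ := cor_of_one hc hnb (y := ⟨y, h1⟩) (n := ⟨n, h2⟩) h
      (Nat.one_le_iff_ne_zero.2 hne)
    have k1 : S.SAr (w i) (Sum.inl ⟨y, h1⟩) a := k1
    apply hs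
    cases k1 with
    | hor _ a k => exact Or.inr ⟨a.1, k, a.2⟩
    | up _ u k => exact Or.inl ⟨u.1, u.2, k⟩

theorem bad_mis {y n b : V} (h : S.K.ar n y) {p : S.X} (hp : p ∈ S.J y)
    (hn : p ∈ S.J n) (hb : Bp H w p) (hm : S.Mis p y n b) :
    exE hc hnb w hw (oq H (S.lp h)) ≤ 1 := by
  have key := bad_red (S := S) w
    (F := fun p y n h => (∃ b, S.Mis p y n b) → exE hc hnb w hw (oq H (S.lp h)) ≤ 1)
    ?_ ?_ hb h hp hn
  · exact key ⟨b, hm⟩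
  · rintro g p y n h k ⟨b, hs⟩
    have := k ⟨g • b, hs.smul g⟩
    rw [oq_lp] at this
    exact this
  · rintro i y n h h1 h2 ⟨b, hs⟩
    rw [exE_bad hc hnb w hw h h1 h2]
    exact e_le_one_uniq hc hnb (y := (⟨y, h1⟩ : S.NV (w i))) (n := (⟨n, h2⟩ : S.NV (w i))) h
      (Mis.uniq hc hnb (b := b) hs)

theorem bad_stub {y n : V} (h : S.K.ar n y) {p : S.X} (hp : p ∈ S.J y)
    (hn : p ∈ S.J n) (hb : Bp H w p) (hy : ∃ a, S.K.ar y a)
    (hs : ∀ a b, S.K.ar y a → S.K.ar y b → a = b) :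
    exE hc hnb w hw (oq H (S.lp h)) ≤ 1 := by
  have key := bad_red (S := S) w
    (F := fun _ y n h => (∃ a, S.K.ar y a) → (∀ a b, S.K.ar y a → S.K.ar y b → a = b) →
      exE hc hnb w hw (oq H (S.lp h)) ≤ 1) ?_ ?_ hb h hp hn
  · exact key hy hs
  · intro g p y n h k ⟨a, ha⟩ hs
    have := k ⟨g • a, S.K.ar_smul g _ _ ha⟩ (fun a b ha hb => by
      have h1 := S.K.ar_smul g⁻¹ _ _ ha
      have h2 := S.K.ar_smul g⁻¹ _ _ hb
      rw [inv_smul_smul] at h1 h2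
      exact smul_left_cancel g⁻¹ (hs _ _ h1 h2))
    rw [oq_lp] at this
    exact this
  · intro i y n h h1 h2 hy hs
    rw [exE_bad hc hnb w hw h h1 h2]
    exact e_le_one_uniq hc hnb (y := (⟨y, h1⟩ : S.NV (w i))) (n := (⟨n, h2⟩ : S.NV (w i))) h
      (stub_uniq hc hy hs)

end bad

/-! ### duplicate lines -/

/-- every line of `R` joins two in-nodes, and there is a line outside of `R` with the same corner -/
structure DupL (S : SyQ H V) (R : SubMulAction H ↥(JM.cpl S.AJ)) : Prop where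
  cor : ∀ e ∈ R, ∃ e', e' ∉ R ∧ S.K.c1 e'.1.1 = S.K.c1 e.1.1 ∧
    ((S.K.c0 e'.1.1 = S.K.c0 e.1.1 ∧ S.K.c2 e'.1.1 = S.K.c2 e.1.1) ∨
      (S.K.c0 e'.1.1 = S.K.c2 e.1.1 ∧ S.K.c2 e'.1.1 = S.K.c0 e.1.1))
  inn : ∀ e ∈ R, S.K.ar (S.K.c0 e.1.1) (S.K.c1 e.1.1) ∧ S.K.ar (S.K.c2 e.1.1) (S.K.c1 e.1.1)

theorem DupL.par {R : SubMulAction H ↥(JM.cpl S.AJ)} (hR : S.DupL R) : S.LPG.Par R := by
  intro e he
  obtain ⟨e', h0, h1, h2⟩ := hR.cor e he
  refine ⟨e', h0, ?_⟩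
  rcases h2 with ⟨h2, h3⟩ | ⟨h2, h3⟩
  · left
    constructor
    · show S.K.pc.ct S.AJ (S.K.pc.s e'.1) = S.K.pc.ct S.AJ (S.K.pc.s e.1)
      congr 1
      apply Subtype.ext
      rw [GX.pc_s, GX.pc_s, h1, h2, h3]
    · show S.K.pc.ct S.AJ (S.K.pc.t e'.1) = S.K.pc.ct S.AJ (S.K.pc.t e.1)
      congr 1
      apply Subtype.ext
      rw [GX.pc_t, GX.pc_t, h1, h2, h3]
  · right
    constructor
    · show S.K.pc.ct S.AJ (S.K.pc.s e'.1) = S.K.pc.ct S.AJ (S.K.pc.t e.1)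
      congr 1
      apply Subtype.ext
      rw [GX.pc_s, GX.pc_t, h1, h2, h3]
    · show S.K.pc.ct S.AJ (S.K.pc.t e'.1) = S.K.pc.ct S.AJ (S.K.pc.s e.1)
      congr 1
      apply Subtype.ext
      rw [GX.pc_s, GX.pc_t, h1, h2, h3]

/-- the graph of the local pieces without the lines of `R` -/
noncomputable abbrev NG (S : SyQ H V) (R : SubMulAction H ↥(JM.cpl S.AJ)) :
    JM H (S.K.pc.CT S.AJ) ↥(JM.cpl R) := S.LPG.sub (JM.cpl R)

theorem DupL.ends {R : SubMulAction H ↥(JM.cpl S.AJ)} (hR : S.DupL R) {e : ↥(JM.cpl S.AJ)}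
    (he : e ∈ R) : S.LPG.s e = S.lp (hR.inn e he).1 ∧ S.LPG.t e = S.lp (hR.inn e he).2 := by
  obtain ⟨h1, h2⟩ := hR.inn e he
  have e1 : S.K.pc.s e.1 = ⟨PN.inn (S.K.c1 e.1.1) (S.K.c0 e.1.1), h1⟩ :=
    Subtype.ext (by rw [GX.pc_s, S.K.nd_in h1])
  have e2 : S.K.pc.t e.1 = ⟨PN.inn (S.K.c1 e.1.1) (S.K.c2 e.1.1), h2⟩ :=
    Subtype.ext (by rw [GX.pc_t, S.K.nd_in h2])
  exact ⟨congrArg (S.K.pc.ct S.AJ) e1, congrArg (S.K.pc.ct S.AJ) e2⟩

theorem DupL.no_PL {R : SubMulAction H ↥(JM.cpl S.AJ)} (hR : S.DupL R) :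
    ∀ e ∈ R, (oq H (S.LPG.s e) : S.LPG.fg.N) ∉ S.PL ∧ (oq H (S.LPG.t e) : S.LPG.fg.N) ∉ S.PL := by
  intro e he
  obtain ⟨h1, h2⟩ := hR.ends he
  rw [h1, h2]
  exact ⟨lp_PL _, lp_PL _⟩


section law

variable (hc : S.Conn) (hnb : S.NB) {ι : Type} (w : ι → S.X)
  (hw : ∀ (i j : ι) (g : H), g • w i = w j → i = j) (R : SubMulAction H ↥(JM.cpl S.AJ))

/-- the pole ends at bad nodes, the degree without the lines of `R` at lost nodes -/
noncomputable def exR : S.LPG.fg.N → ℕ :=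
  S.LPG.eR R (cutF hc hnb w hw).D (cutF hc hnb w hw).e

/-- the number of the ends of lines of `R` at bad nodes -/
noncomputable def dupB : ℕ := S.LPG.nR R (cutF hc hnb w hw).D

theorem exR_lost {y n : V} (h : S.K.ar n y) {p : S.X} (hp : p ∈ S.J y) (hn : p ∈ S.J n)
    (hb : ¬ Bp H w p) : exR hc hnb w hw R (oq H (S.lp h)) = (S.NG R).fg.deg (oq H (S.lp h)) :=
  S.LPG.eR_in R _ ((lost_mem hc hnb w hw h hp hn).2 hb)

theorem exR_bad {y n : V} (h : S.K.ar n y) {p : S.X} (hp : p ∈ S.J y) (hn : p ∈ S.J n)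
    (hb : Bp H w p) : exR hc hnb w hw R (oq H (S.lp h)) = exE hc hnb w hw (oq H (S.lp h)) := by
  have h1 : (oq H (S.lp h) : S.LPG.fg.N) ∉ (cutF hc hnb w hw).D := by
    rw [lost_mem hc hnb w hw h hp hn, not_not]
    exact hb
  exact (S.LPG.eR_out R _ h1).trans (FG.elost_out _ h1).symm

variable {R} (hL : S.LostR (JM.cpl R) w)

include hL

theorem exR_ex : S.EX (exR hc hnb w hw R) where
  two y n h := by
    obtain ⟨p, hp, hn⟩ := lp_ex h
    by_cases hb : Bp H w p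
    · rw [exR_bad hc hnb w hw R h hp hn hb]
      exact bad_two hc hnb w hw h hp hn hb
    · rw [exR_lost hc hnb w hw R h hp hn hb]
      exact degR_le_two hc hnb (y := (⟨y, hp⟩ : S.NV p)) (n := (⟨n, hn⟩ : S.NV p)) h
        (hL y n h p hp hn hb)
  one y n h p hp hn hs := by
    by_cases hb : Bp H w p
    · rw [exR_bad hc hnb w hw R h hp hn hb]
      exact bad_one hc hnb w hw h hp hn hb hs
    · rw [exR_lost hc hnb w hw R h hp hn hb]
      obtain ⟨g, k1, k2, k3, k4⟩ := hs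
      obtain ⟨d, hd, hne⟩ : ∃ d, (S.k0 hc p).ar (Sum.inl ⟨y, hp⟩) d ∧
          (⟨g, k2⟩ : ↥(stabilizer H p)) • d ≠ d := by
        rcases k4 with ⟨u, l1, l2, l3⟩ | ⟨a, l1, l2, l3⟩
        · exact ⟨Sum.inr ⟨u, l1⟩, SAr.up _ _ l2,
            fun k => l3 (congrArg Subtype.val (Sum.inr.inj k))⟩
        · exact ⟨Sum.inl ⟨a, l2⟩, SAr.hor _ _ l1,
            fun k => l3 (congrArg Subtype.val (Sum.inl.inj k))⟩
      exact degR_le_one_mv hc hnb (y := (⟨y, hp⟩ : S.NV p)) (n := (⟨n, hn⟩ : S.NV p)) h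
        (hL y n h p hp hn hb) (h := ⟨g, k2⟩) k1 k3 hd hne
  zero y n h p hp hn hd := by
    by_cases hb : Bp H w p
    · rw [exR_bad hc hnb w hw R h hp hn hb]
      exact bad_zero hc hnb w hw h hp hn hb hd
    · rw [exR_lost hc hnb w hw R h hp hn hb]
      obtain ⟨h1, h2⟩ := no_dir hp hd
      have h3 := deg_single h1 h2 h
      have h4 : S.LPG.fg.deg (oq H (S.lp h)) = (S.NG R).fg.deg (oq H (S.lp h)) +
          (S.LPG.sub R).fg.deg (oq H (S.lp h)) := S.LPG.deg_add R (oq H (S.lp h))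
      rw [h3] at h4
      exact (Nat.add_eq_zero_iff.1 h4.symm).1

theorem exR_em : S.EM (exR hc hnb w hw R) where
  mis y n h p b hp hn hm := by
    by_cases hb : Bp H w p
    · rw [exR_bad hc hnb w hw R h hp hn hb]
      exact bad_mis hc hnb w hw h hp hn hb hm
    · rw [exR_lost hc hnb w hw R h hp hn hb]
      exact degR_le_one_uniq hc hnb (y := (⟨y, hp⟩ : S.NV p)) (n := (⟨n, hn⟩ : S.NV p)) h
        (hL y n h p hp hn hb) (Mis.uniq hc hnb (b := b) hm)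
  stub y n h hy hs := by
    obtain ⟨p, hp, hn⟩ := lp_ex h
    by_cases hb : Bp H w p
    · rw [exR_bad hc hnb w hw R h hp hn hb]
      exact bad_stub hc hnb w hw h hp hn hb hy hs
    · rw [exR_lost hc hnb w hw R h hp hn hb]
      exact degR_le_one_uniq hc hnb (y := (⟨y, hp⟩ : S.NV p)) (n := (⟨n, hn⟩ : S.NV p)) h
        (hL y n h p hp hn hb) (stub_uniq hc hy hs)

end law

/-! ### the components of the sinks -/

section sinks

variable {Ed' : Type} {y n : V} (h : S.K.ar n y) [MulAction ↥(S.LPG.grp (S.lp h)) Ed']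
  (N' : JM ↥(S.LPG.grp (S.lp h)) ↥(S.LPG.cT (S.lp h)) Ed')

/-- the component of a sink of type `D_inf`, for any connected graph on its nodes -/
theorem sinkN_D {e : S.LPG.fg.N → ℕ} (E : S.EX e) (hs : ∀ a, ¬ S.K.ar y a) (hl : S.K.LC y)
    (hn : Hyp S.X (stabilizer H y)) (hJ : S.J y = mst S.D.G (stabilizer H y))
    (hD : DT (stabilizer H y)) (hconn : ∀ a b, Relation.EqvGen N'.st a b) [Fintype N'.fg.N] :
    0 ≤ N'.fg.aftE ∅ (S.LPG.re (S.lp h) e) ∧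
      (N'.fg.aftE ∅ (S.LPG.re (S.lp h) e) = 0 → N'.fg.b1 = 0 ∧
        ∀ m (k : S.K.ar m y) p, p ∈ S.J y → p ∈ S.J m → Full e p k) := by
  have hA := sink_grp hs hl h
  have hDA : DT (S.LPG.grp (S.lp h)) := by rw [hA]; exact hD
  have hnA : Hyp S.X (S.LPG.grp (S.lp h)) := by rw [hA]; exact hn
  have hmA : S.J y = mst S.D.G (S.LPG.grp (S.lp h)) := by rw [hA]; exact hJ
  obtain ⟨D0⟩ := hDA.nonempty
  have hne : Nonempty ↥(S.LPG.cT (S.lp h)) := ⟨⟨S.lp h, Relation.EqvGen.refl _⟩⟩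
  -- a mirrored node is reversed
  have hmir : ∀ Q : ↥(S.LPG.cT (S.lp h)), D0.Mir (stabilizer ↥(S.LPG.grp (S.lp h)) Q) →
      ∀ m (k : S.K.ar m y), Q.1 = S.lp k → ∀ p, p ∈ S.J y → p ∈ S.J m → S.Swp p y m := by
    rintro Q ⟨a, ha, hε⟩ m k e1 p hp hm
    have ha' : a.1 • S.lp k = S.lp k := by
      rw [← e1]
      exact congrArg Subtype.val ha
    obtain ⟨h1, h2, h3⟩ := lp_fix k ha' hp hm
    refine ⟨a.1, h1, h2, h3, Or.inl ?_⟩
    obtain ⟨u, hu, hu'⟩ := ex_nbr_ax hn hJ hp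
    refine ⟨u, hu, hu', ?_⟩
    exact refl_move D0 S.D.tact hDA.1 hnA hε (by rw [← hmA]; exact hp)
      (by rw [← hmA]; exact hu') hu.ne h2
  have h1 : ∀ x ∈ N'.mNf D0.Mir, x ∉ (∅ : Set _) → S.LPG.re (S.lp h) e x ≤ 1 := by
    rintro x ⟨Q, hQ, rfl⟩ -
    obtain ⟨m, k, e1, -⟩ := sink_node hs h Q
    obtain ⟨p, hp, hm⟩ := lp_ex k
    have h2 := E.one y m k p hp hm (hmir Q hQ m k e1 p hp hm)
    have h3 : S.LPG.re (S.lp h) e (oq _ Q) = e (oq H (S.lp k)) := by rw [sink_e, e1]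
    exact h3.le.trans h2
  have h2 : ∀ x, x ∉ (∅ : Set N'.fg.N) → S.LPG.re (S.lp h) e x ≤ 2 := by
    intro x _
    obtain ⟨Q, rfl⟩ := oq_surj x
    obtain ⟨m, k, e1, -⟩ := sink_node hs h Q
    have h3 : S.LPG.re (S.lp h) e (oq _ Q) = e (oq H (S.lp k)) := by rw [sink_e, e1]
    exact h3.le.trans (E.two y m k)
  have key := N'.exc_D D0 hne hconn
    (sink_fin hs h hn) (H := ∅) (Set.empty_subset _) (fun x hx => hx.elim)
    (JM.nDD_empty _) ⟨oq _ ⟨S.lp h, Relation.EqvGen.refl _⟩, fun hx => hx.elim⟩ h1 h2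
  obtain ⟨k1, k2, k3⟩ := key
  have hb := N'.fg.b1_nonneg
  refine ⟨by omega, fun h0 => ?_⟩
  have k4 := k3.1 (by omega)
  refine ⟨by omega, ?_⟩
  intro m k p hp hm
  have hQ := sink_mem hs hl h k
  have k5 := k4 (oq _ ⟨S.lp k, hQ⟩) (fun hx => hx.elim)
  by_cases hM : (oq _ (⟨S.lp k, hQ⟩ : ↥(S.LPG.cT (S.lp h))) : N'.fg.N) ∈ N'.mNf D0.Mir
  · right
    refine ⟨k5.1 hM, ?_⟩
    obtain ⟨Q, hQ1, hQ2⟩ := hM
    obtain ⟨j, hj⟩ := oq_eq.1 hQ2
    -- move the reflection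
    have hQ3 : D0.Mir (stabilizer ↥(S.LPG.grp (S.lp h)) (⟨S.lp k, hQ⟩ : ↥(S.LPG.cT (S.lp h)))) := by
      obtain ⟨a, ha, hε⟩ := hQ1
      refine ⟨j * a * j⁻¹, ?_, ?_⟩
      · rw [hj]
        show (j * a * j⁻¹) • j • Q = j • Q
        rw [mul_smul, inv_smul_smul, mul_smul]
        have ha : a • Q = Q := ha
        rw [ha]
      · rw [DL.ε_conj]
        exact hε
    exact hmir _ hQ3 m k rfl p hp hm
  · exact Or.inl (k5.2 hM)

/-- the component of a sink of type `ℤ`, for any connected graph on its nodes -/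
theorem sinkN_Z {e : S.LPG.fg.N → ℕ} (E : S.EX e) (hs : ∀ a, ¬ S.K.ar y a) (hl : S.K.LC y)
    (hn : Hyp S.X (stabilizer H y))
    (hi : Infinite ↥(stabilizer H y)) (hZ : Zt ↥(stabilizer H y))
    (hconn : ∀ a b, Relation.EqvGen N'.st a b) [Fintype N'.fg.N] :
    0 ≤ N'.fg.aftE ∅ (S.LPG.re (S.lp h) e) ∧
      (N'.fg.aftE ∅ (S.LPG.re (S.lp h) e) = 0 → N'.fg.b1 = 1 ∧
        ∀ m (k : S.K.ar m y), e (oq H (S.lp k)) = 2) := by
  have hA := sink_grp hs hl h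
  have hiA : Infinite ↥(S.LPG.grp (S.lp h)) := by rw [hA]; exact hi
  have hZA : Zt ↥(S.LPG.grp (S.lp h)) := by rw [hA]; exact hZ
  have hne : Nonempty ↥(S.LPG.cT (S.lp h)) := ⟨⟨S.lp h, Relation.EqvGen.refl _⟩⟩
  obtain ⟨F, hF⟩ := hZA
  obtain ⟨a, ha⟩ : ∃ a, F a ≠ 1 := by
    by_contra hcon
    push Not at hcon
    have : Finite ↥(S.LPG.grp (S.lp h)) := by
      refine Finite.of_injective (fun g : ↥(S.LPG.grp (S.lp h)) => (⟨g, hcon g⟩ : ↥F.ker)) ?_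
      intro a b hab
      exact congrArg (fun z : ↥F.ker => z.1) hab
    exact not_finite ↥(S.LPG.grp (S.lp h))
  obtain ⟨f, hf, -⟩ := surj_of_ne F ha
  have h2 : ∀ x : N'.fg.N, S.LPG.re (S.lp h) e x ≤ 2 := by
    intro x
    obtain ⟨Q, rfl⟩ := oq_surj x
    obtain ⟨m, k, e1, -⟩ := sink_node hs h Q
    have h3 : S.LPG.re (S.lp h) e (oq _ Q) = e (oq H (S.lp k)) := by rw [sink_e, e1]
    exact h3.le.trans (E.two y m k)
  have key := N'.exc_Z hne hconn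
    (fun g => Multiplicative.toAdd (f g)) (fun g k => by rw [map_mul, toAdd_mul])
    (by
      obtain ⟨g, hg⟩ := hf (Multiplicative.ofAdd 1)
      exact ⟨g, by rw [hg]; rfl⟩)
    (by
      intro Q g hg
      have := sink_fin hs h hn Q
      have h3 : IsOfFinOrder (⟨g, hg⟩ : ↥(stabilizer ↥(S.LPG.grp (S.lp h)) Q)) :=
        isOfFinOrder_of_finite _
      obtain ⟨r, hr, h4⟩ := h3.exists_pow_eq_one
      have h5 : g ^ r = 1 := congrArg Subtype.val h4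
      have h6 : Multiplicative.toAdd (f g) * r = 0 := by
        have h7 : (f g) ^ r = 1 := by rw [← map_pow, h5, map_one]
        have h8 := congrArg Multiplicative.toAdd h7
        rw [toAdd_pow, toAdd_one, nsmul_eq_mul] at h8
        rw [mul_comm]
        exact h8
      rcases mul_eq_zero.1 h6 with h7 | h7
      · exact h7
      · exact absurd h7 (by exact_mod_cast hr.ne'))
    h2
  obtain ⟨k1, k2, k3⟩ := key
  refine ⟨by omega, fun h0 => ?_⟩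
  have k4 := k3.1 (by omega)
  refine ⟨by omega, ?_⟩
  intro m k
  have hQ := sink_mem hs hl h k
  exact k4 (oq _ ⟨S.lp k, hQ⟩)

end sinks

/-- the component of a node without the lines of `R` -/
noncomputable abbrev NC (S : SyQ H V) (R : SubMulAction H ↥(JM.cpl S.AJ)) {y n : V}
    (h : S.K.ar n y) : JM ↥(S.LPG.grp (S.lp h)) ↥(S.LPG.cT (S.lp h))
      ↥(JM.cpl (S.LPG.rE (S.lp h) R)) := (S.LPG.comp (S.lp h)).sub (JM.cpl (S.LPG.rE (S.lp h) R))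

section law2

variable (hc : S.Conn) (hnb : S.NB) {ι : Type} (w : ι → S.X)
  (hw : ∀ (i j : ι) (g : H), g • w i = w j → i = j) {R : SubMulAction H ↥(JM.cpl S.AJ)}

/-- the contribution of an elliptic sink -/
theorem ell_aft {e : S.LPG.fg.N → ℕ} (E : S.EX e) {y n : V} (hs : ∀ a, ¬ S.K.ar y a)
    (h : S.K.ar n y) {p : S.X} (hp : S.J y = {p}) [Fintype (S.NC R h).fg.N] :
    (S.NC R h).fg.aftE ∅ (S.LPG.re (S.lp h) e) = 0 := by
  classical
  have hpy : p ∈ S.J y := by rw [hp]; rfl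
  have hpl : ∀ m, S.K.ar m y → p ∈ S.J m := by
    intro m k
    obtain ⟨q, h1, h2⟩ := lp_ex k
    rw [hp] at h1
    rw [← Set.mem_singleton_iff.1 h1]
    exact h2
  have hnd : ¬ S.Dir p y := by
    rintro (⟨u, h1, h2⟩ | ⟨a, h1, -⟩)
    · rw [hp] at h2
      rw [Set.mem_singleton_iff.1 h2] at h1
      exact h1.ne rfl
    · exact hs a h1
  unfold FG.aftE
  apply Finset.sum_eq_zero
  intro q _
  rw [if_neg (Set.notMem_empty q)]
  obtain ⟨Q, rfl⟩ := oq_surj q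
  obtain ⟨m, k, e1, -⟩ := sink_node hs h Q
  have h1 : S.LPG.re (S.lp h) e (oq _ Q) = 0 := by
    rw [sink_e, e1]
    exact E.zero _ _ k p hpy (hpl m k) hnd
  have h2 : (S.LPG.comp (S.lp h)).fg.deg (oq _ Q) = 0 := by
    have h3 := S.LPG.deg_comp' (S.lp h) (oq _ Q)
    have h4 : S.LPG.fg.deg (oq H Q.1) = 0 := by
      rw [e1]
      exact deg_single hs hp k
    exact h3.trans h4
  have h5 : (S.LPG.comp (S.lp h)).fg.deg (oq _ Q) = (S.NC R h).fg.deg (oq _ Q) +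
      ((S.LPG.comp (S.lp h)).sub (S.LPG.rE (S.lp h) R)).fg.deg (oq _ Q) :=
    (S.LPG.comp (S.lp h)).deg_add (S.LPG.rE (S.lp h) R) (oq _ Q)
  rw [h2] at h5
  have h6 : (S.NC R h).fg.deg (oq _ Q) = 0 := (Nat.add_eq_zero_iff.1 h5.symm).1
  rw [h1, h6]
  norm_num

theorem NC_conn (hR : S.DupL R) {y n : V} (h : S.K.ar n y) (a b : ↥(S.LPG.cT (S.lp h))) :
    Relation.EqvGen (S.NC R h).st a b :=
  ((hR.par.comp (S.lp h)).eqv).2 (S.LPG.comp_conn _ a b)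

include hc in
/-- NOTHING IS LOST at a component without the lines of `R` -/
theorem compR_le (hR : S.DupL R) {e : S.LPG.fg.N → ℕ} (E : S.EX e) (E' : S.EM e) (hS : S.SinkH)
    (hl : ∀ y, (∃ a, S.K.ar y a) → S.K.LC y) {y n : V} (h : S.K.ar n y)
    [Fintype (S.NC R h).fg.N] :
    (S.NC R h).fg.exc (S.LPG.rs (S.lp h) S.PL) ≤
      (S.NC R h).fg.aftE (S.LPG.rs (S.lp h) S.PL) (S.LPG.re (S.lp h) e) := by
  by_cases hy : ∃ a, S.K.ar y a
  · have hC := (softC hc E E' h hy (hl y hy)).rm (hR.par.comp (S.lp h))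
    have e1 : S.LPG.rs (S.lp h) S.PL = (S.NC R h).imN (S.LPG.rQ (S.lp h) S.PLq) := rs_PL h
    rw [e1]
    exact hC.le
  push Not at hy
  have e1 : S.LPG.rs (S.lp h) S.PL = (∅ : Set (S.NC R h).fg.N) :=
    sink_rs (P := S.PL) (fun _ _ k => lp_PL k) hy h
  rw [e1, FG.exc_empty]
  rcases hS.ty y hy with ⟨p, hp⟩ | ⟨h1, h2, h3 | ⟨h3, h4⟩⟩
  · rw [ell_aft E hy h hp]
  · exact (sinkN_D h (S.NC R h) E hy (hS.lc y hy) h1 h2 h3 (NC_conn hR h)).1
  · exact (sinkN_Z h (S.NC R h) E hy (hS.lc y hy) h1 h3 h4 (NC_conn hR h)).1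


/-- the sum over the slices, with the lines of `R` -/
theorem sum_aftR [Fintype ι] [Fintype S.LPG.fg.N] (R : SubMulAction H ↥(JM.cpl S.AJ)) :
    ∑ i, (S.k0 hc (w i)).pexc =
      S.LPG.fg.aftE S.PL (fun q => exR hc hnb w hw R q + (S.LPG.sub R).fg.deg q) +
        (dupB hc hnb w hw R : ℤ) := by
  rw [pexc_sum hc hnb w hw]
  exact S.LPG.aftE_split R (PL_sub hc hnb w hw) (cutF hc hnb w hw).e

section main

variable (hR : S.DupL R) (hL : S.LostR (JM.cpl R) w) (hS : S.SinkH)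
  (hl : ∀ y, (∃ a, S.K.ar y a) → S.K.LC y)

include hR hL hS hl

theorem compP_le {y n : V} (h : S.K.ar n y) [Fintype (S.LPG.comp (S.lp h)).fg.N] :
    (S.LPG.comp (S.lp h)).fg.exc (S.LPG.rs (S.lp h) S.PL) ≤
      (S.LPG.comp (S.lp h)).fg.aftE (S.LPG.rs (S.lp h) S.PL)
        (S.LPG.re (S.lp h) (fun q => exR hc hnb w hw R q + (S.LPG.sub R).fg.deg q)) := by
  have hf : Fintype (S.NC R h).fg.N := Fintype.ofFinite _
  rw [S.LPG.aftE_comp R (S.lp h), S.LPG.exc_comp R (S.lp h) hR.no_PL]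
  exact compR_le hc hR (exR_ex hc hnb w hw hL) (exR_em hc hnb w hw hL) hS hl h

/-- THE LAW WITH DUPLICATES -/
theorem pexc_leR [Fintype ι] :
    S.K.pexc + (dupB hc hnb w hw R : ℤ) ≤ ∑ i, (S.k0 hc (w i)).pexc := by
  have hf : Fintype S.LPG.fg.N := Fintype.ofFinite _
  have hf' : ∀ x, Fintype (S.LPG.comp x).fg.N := fun x => Fintype.ofFinite _
  rw [sum_aftR hc hnb w hw R, pexc_K]
  have key : S.LPG.fg.exc S.PL ≤
      S.LPG.fg.aftE S.PL (fun q => exR hc hnb w hw R q + (S.LPG.sub R).fg.deg q) := by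
    refine S.LPG.exc_le_on (R := fun z => ∃ y n, ∃ h : S.K.ar n y, z = S.lp h) ex_lp ?_
    rintro _ ⟨y, n, h, rfl⟩
    exact compP_le hc hnb w hw hR hL hS hl h
  have h2 : (S.K.pc.con S.AJ).fg.exc ((S.K.pc.con S.AJ).imN (S.K.pc.cim S.AJ S.K.PO)) =
    S.LPG.fg.exc S.PL := rfl
  rw [h2]
  linarith

/-- THE EQUALITY CASE: nothing is gained at any component -/
theorem pexc_eqR [Fintype ι] (h0 : ∑ i, (S.k0 hc (w i)).pexc ≤ S.K.pexc + (dupB hc hnb w hw R : ℤ))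
    {y n : V} (h : S.K.ar n y) [Fintype (S.NC R h).fg.N] :
    (S.NC R h).fg.exc (S.LPG.rs (S.lp h) S.PL) =
      (S.NC R h).fg.aftE (S.LPG.rs (S.lp h) S.PL)
        (S.LPG.re (S.lp h) (exR hc hnb w hw R)) := by
  have hf : Fintype S.LPG.fg.N := Fintype.ofFinite _
  have hf' : ∀ x, Fintype (S.LPG.comp x).fg.N := fun x => Fintype.ofFinite _
  rw [sum_aftR hc hnb w hw R, pexc_K] at h0
  have h2 : (S.K.pc.con S.AJ).fg.exc ((S.K.pc.con S.AJ).imN (S.K.pc.cim S.AJ S.K.PO)) =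
    S.LPG.fg.exc S.PL := rfl
  rw [h2] at h0
  have key := S.LPG.exc_eq_on (R := fun z => ∃ y n, ∃ h : S.K.ar n y, z = S.lp h) ex_lp
    (P := S.PL) (D := S.PL)
    (e := fun q => exR hc hnb w hw R q + (S.LPG.sub R).fg.deg q) (by
      rintro _ ⟨y, n, h, rfl⟩
      exact compP_le hc hnb w hw hR hL hS hl h) (by linarith) (S.lp h) ⟨y, n, h, rfl⟩
  rw [S.LPG.aftE_comp R (S.lp h), S.LPG.exc_comp R (S.lp h) hR.no_PL] at key
  exact key

end main

/-! ### the equality case at one component -/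

/-- two private poles -/
theorem two_PLq (hos : S.OS) {y n : V} (h : S.K.ar n y) {p u : S.X} (hp : p ∈ S.J y)
    (hu : S.D.G.Adj p u) (hu' : u ∈ S.J y) (hy : ∃ a, S.K.ar y a) :
    ∃ p ∈ S.LPG.rQ (S.lp h) S.PLq, ∃ p' ∈ S.LPG.rQ (S.lp h) S.PLq, p ≠ p' := by
  obtain ⟨a, a1, a2⟩ := S.js.cross y hy _ _ hu hp hu'
  obtain ⟨b, b1, b2⟩ := S.js.cross y hy _ _ hu.symm hu' hp
  have hab : a ≠ b := by
    rintro rfl
    obtain ⟨z, hz⟩ := S.js.ne a
    exact bey_not (a2 hz) (b2 hz)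
  obtain ⟨na, la, ca⟩ := hos y n a h a1 ⟨p, u, hp, hu', hu⟩
  obtain ⟨nb, lb, cb⟩ := hos y n b h b1 ⟨p, u, hp, hu', hu⟩
  obtain ⟨ka, ka1, ka2⟩ := pol_cT h a1 la ((GX.IJ.ar la).1 h) ca
  obtain ⟨kb, kb1, kb2⟩ := pol_cT h b1 lb ((GX.IJ.ar lb).1 h) cb
  refine ⟨⟨_, ka1⟩, ka2, ⟨_, kb1⟩, kb2, fun e => ?_⟩
  have h1 := congrArg Subtype.val e
  have h2 := ct_PO1 (S := S) h1 (S.K.mem_PO rfl)
  exact hab (PN.pol.inj (congrArg Subtype.val h2)).2.1

/-- from the stabiliser of a local piece -/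
theorem Swp_of_Mv {y n : V} (h : S.K.ar n y) {m : V} (k : S.K.ar m y)
    (hk : S.lp k ∈ S.LPG.cT (S.lp h))
    (hm : JM.Mv (S.LPG.rQ (S.lp h) S.PLq) (⟨S.lp k, hk⟩ : ↥(S.LPG.cT (S.lp h)))) {q : S.X}
    (hq : q ∈ S.J y) (hq' : q ∈ S.J m) : S.Swp q y m := by
  obtain ⟨j, hj1, t, ht, hne⟩ := hm
  obtain ⟨c, kc, hc', ec⟩ := pole_node h t ht
  have hj2 : j.1 • S.lp k = S.lp k := congrArg Subtype.val hj1
  obtain ⟨l1, l2, l3⟩ := lp_fix k hj2 hq hq'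
  have hja : j.1 • c ≠ c := by
    refine smul_pole h (k := kc) ?_ ?_
    · rw [← ec]
      exact (j • t).2
    · intro hh
      apply hne
      apply Subtype.ext
      show j.1 • t.1 = t.1
      rw [ec]
      exact hh
  exact Swp_of_pole hq l1 l2 l3 hc' hja

include hc in
/-- THE EQUALITY CASE at a soft which crosses an edge -/
theorem soft_eqR (hR : S.DupL R) {e : S.LPG.fg.N → ℕ} (E : S.EX e) (E' : S.EM e) (hos : S.OS)
    {y n : V} (h : S.K.ar n y) (hl : S.K.LC y) {p u : S.X} (hp : p ∈ S.J y)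
    (hu : S.D.G.Adj p u) (hu' : u ∈ S.J y) (hy : ∃ a, S.K.ar y a) [Fintype (S.NC R h).fg.N]
    (h0 : (S.NC R h).fg.exc (S.LPG.rs (S.lp h) S.PL) =
      (S.NC R h).fg.aftE (S.LPG.rs (S.lp h) S.PL) (S.LPG.re (S.lp h) e)) :
    ((S.NC R h).dn (S.LPG.rQ (S.lp h) S.PLq)).fg.b1 = 0 ∧
    ∀ m (k : S.K.ar m y), S.K.IJ y n m → ∀ q, q ∈ S.J y → q ∈ S.J m → Full e q k := by
  have e1 : S.LPG.rs (S.lp h) S.PL = (S.NC R h).imN (S.LPG.rQ (S.lp h) S.PLq) := rs_PL h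
  rw [e1] at h0
  have hC : (S.NC R h).SoftC (S.LPG.rQ (S.lp h) S.PLq) (S.LPG.re (S.lp h) e) :=
    (softC hc E E' h hy hl).rm (hR.par.comp (S.lp h))
  have h3 := hC.eq h0.ge (two_PLq hos h hp hu hu' hy)
  refine ⟨h3.1, fun m k hj q hq hq' => ?_⟩
  rcases h3.2 ⟨S.lp k, lp_cT h k hj⟩ (lp_rQ h k hj) with e2 | ⟨e2, hm⟩
  · exact Or.inl e2
  · exact Or.inr ⟨e2, Swp_of_Mv h k _ hm hq hq'⟩

section main2

variable (hR : S.DupL R) (hL : S.LostR (JM.cpl R) w) (hS : S.SinkH)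
  (hl : ∀ y, (∃ a, S.K.ar y a) → S.K.LC y)

include hR hL hS hl

/-- nothing is gained at a sink: no contribution -/
theorem aft_sinkR [Fintype ι]
    (h0 : ∑ i, (S.k0 hc (w i)).pexc ≤ S.K.pexc + (dupB hc hnb w hw R : ℤ))
    {y n : V} (hy : ∀ a, ¬ S.K.ar y a) (h : S.K.ar n y) [Fintype (S.NC R h).fg.N] :
    (S.NC R h).fg.aftE ∅ (S.LPG.re (S.lp h) (exR hc hnb w hw R)) = 0 := by
  have key := pexc_eqR hc hnb w hw hR hL hS hl h0 h
  have e1 : S.LPG.rs (S.lp h) S.PL = (∅ : Set (S.NC R h).fg.N) :=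
    sink_rs (P := S.PL) (fun _ _ k => lp_PL k) hy h
  rw [e1, FG.exc_empty] at key
  exact key.symm

/-- sinks of type `D_inf` in the equality case -/
theorem sinkD_eqR [Fintype ι]
    (h0 : ∑ i, (S.k0 hc (w i)).pexc ≤ S.K.pexc + (dupB hc hnb w hw R : ℤ))
    {y n : V} (hy : ∀ a, ¬ S.K.ar y a) (h : S.K.ar n y)
    (hn : Hyp S.X (stabilizer H y)) (hJ : S.J y = mst S.D.G (stabilizer H y))
    (hD : DT (stabilizer H y)) :
    (S.NC R h).fg.b1 = 0 ∧ ∀ m (k : S.K.ar m y) p, p ∈ S.J y → p ∈ S.J m →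
      Full (exR hc hnb w hw R) p k := by
  have hf : Fintype (S.NC R h).fg.N := Fintype.ofFinite _
  exact (sinkN_D h (S.NC R h) (exR_ex hc hnb w hw hL) hy (hS.lc y hy) hn hJ hD
    (NC_conn hR h)).2 (aft_sinkR hc hnb w hw hR hL hS hl h0 hy h)

/-- sinks of type `ℤ` in the equality case -/
theorem sinkZ_eqR [Fintype ι]
    (h0 : ∑ i, (S.k0 hc (w i)).pexc ≤ S.K.pexc + (dupB hc hnb w hw R : ℤ))
    {y n : V} (hy : ∀ a, ¬ S.K.ar y a) (h : S.K.ar n y)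
    (hn : Hyp S.X (stabilizer H y)) (hi : Infinite ↥(stabilizer H y))
    (hZ : Zt ↥(stabilizer H y)) :
    (S.NC R h).fg.b1 = 1 ∧ ∀ m (k : S.K.ar m y), exR hc hnb w hw R (oq H (S.lp k)) = 2 := by
  have hf : Fintype (S.NC R h).fg.N := Fintype.ofFinite _
  exact (sinkN_Z h (S.NC R h) (exR_ex hc hnb w hw hL) hy (hS.lc y hy) hn hi hZ
    (NC_conn hR h)).2 (aft_sinkR hc hnb w hw hR hL hS hl h0 hy h)

theorem full_sinkR [Fintype ι]
    (h0 : ∑ i, (S.k0 hc (w i)).pexc ≤ S.K.pexc + (dupB hc hnb w hw R : ℤ))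
    {y n : V} (hy : ∀ a, ¬ S.K.ar y a) (h : S.K.ar n y) {p u : S.X} (hp : p ∈ S.J y)
    (hn : p ∈ S.J n) (hu : S.D.G.Adj p u) (hu' : u ∈ S.J y) :
    Full (exR hc hnb w hw R) p h := by
  rcases hS.ty y hy with ⟨q, hq⟩ | ⟨h1, h2, h3 | ⟨h3, h4⟩⟩
  · rw [hq] at hp hu'
    rw [Set.mem_singleton_iff.1 hp, Set.mem_singleton_iff.1 hu'] at hu
    exact absurd rfl hu.ne
  · exact (sinkD_eqR hc hnb w hw hR hL hS hl h0 hy h h1 h2 h3).2 n h p hp hn
  · exact Or.inl ((sinkZ_eqR hc hnb w hw hR hL hS hl h0 hy h h1 h3 h4).2 n h)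

/-- FULL local pieces at the vertices which cross an edge -/
theorem full_of_eqR [Fintype ι] (hos : S.OS)
    (h0 : ∑ i, (S.k0 hc (w i)).pexc ≤ S.K.pexc + (dupB hc hnb w hw R : ℤ))
    {y n : V} (h : S.K.ar n y) {p u : S.X} (hp : p ∈ S.J y)
    (hn : p ∈ S.J n) (hu : S.D.G.Adj p u) (hu' : u ∈ S.J y) :
    Full (exR hc hnb w hw R) p h := by
  by_cases hy : ∃ a, S.K.ar y a
  · have hf : Fintype (S.NC R h).fg.N := Fintype.ofFinite _
    exact (soft_eqR hc hR (exR_ex hc hnb w hw hL) (exR_em hc hnb w hw hL) hos h (hl y hy) hp hu hu'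
      hy (pexc_eqR hc hnb w hw hR hL hS hl h0 h)).2 n h (Relation.EqvGen.refl _) p hp hn
  · push Not at hy
    exact full_sinkR hc hnb w hw hR hL hS hl h0 hy h hp hn hu hu'

/-- [TS] IN THE EQUALITY CASE -/
theorem TS_of_eqR [Fintype ι] (hos : S.OS)
    (h0 : ∑ i, (S.k0 hc (w i)).pexc ≤ S.K.pexc + (dupB hc hnb w hw R : ℤ))
    {p : S.X} (hb : Bp H w p) : S.TSp p := by
  refine TS_of_full hc hnb w hw ?_ hb
  rintro i y n h h1 h2 ⟨u, h3, h4⟩
  have k := full_of_eqR hc hnb w hw hR hL hS hl hos h0 h h1 h2 h3 h4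
  unfold Full at k ⊢
  rw [exR_bad hc hnb w hw R h h1 h2 ⟨i, 1, one_smul _ _⟩] at k
  exact k

end main2

end law2

end SyQ

end Pool.Agent.DI
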