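import Pool.Agent.DI.Dup

/-!
# Lines with one end at a pole

`A`, `B`, `C` invariant sets of lines, `A` the disjoint union of `B` and `C`, every line of `C` has exactly
one end in `P`. `exc_aft_tr`: pole excess minus contribution is the same for `A` and for `B`.
-/

namespace Pool.Agent.DI

open MulAction

namespace JM

variable {J T Ed : Type} [Group J] [MulAction J T] [MulAction J Ed] (M : JM J T Ed)

theorem card_im (A : SubMulAction J Ed) (P : orbitRel.Quotient J Ed → Prop) :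
    Nat.card {l : orbitRel.Quotient J ↥A // P (imEquiv A l).1} =
      Nat.card {l : orbitRel.Quotient J Ed // l ∈ im A ∧ P l} := by
  apply Nat.card_congr
  exact {
    toFun := fun l => ⟨(imEquiv A l.1).1, (imEquiv A l.1).2, l.2⟩
    invFun := fun l => ⟨(imEquiv A).symm ⟨l.1, l.2.1⟩, by
      rw [Equiv.apply_symm_apply]
      exact l.2.2⟩
    left_inv := fun l => by
      apply Subtype.ext
      show (imEquiv A).symm ((imEquiv A) l.1) = l.1
      rw [Equiv.symm_apply_apply]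
    right_inv := fun l => by
      apply Subtype.ext
      show ((imEquiv A) ((imEquiv A).symm ⟨l.1, _⟩)).1 = _
      rw [Equiv.apply_symm_apply] }

variable {A B C : SubMulAction J Ed}

/-- the orbits of lines, split in two invariant sets -/
theorem card_split3 (hf : Finite (orbitRel.Quotient J Ed)) (h : ∀ e, e ∈ A ↔ e ∈ B ∨ e ∈ C)
    (hd : ∀ e, e ∈ B → e ∉ C) (P : orbitRel.Quotient J Ed → Prop) :
    Nat.card {l : orbitRel.Quotient J ↥A // P (imEquiv A l).1} =
      Nat.card {l : orbitRel.Quotient J ↥B // P (imEquiv B l).1} +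
        Nat.card {l : orbitRel.Quotient J ↥C // P (imEquiv C l).1} := by
  rw [card_im, card_im, card_im]
  have h1 : {l : orbitRel.Quotient J Ed | l ∈ im A ∧ P l} =
      {l | l ∈ im B ∧ P l} ∪ {l | l ∈ im C ∧ P l} := by
    ext l
    obtain ⟨e, rfl⟩ := oq_surj l
    show (oq J e ∈ im A ∧ P (oq J e)) ↔ (oq J e ∈ im B ∧ P (oq J e)) ∨ (oq J e ∈ im C ∧ P (oq J e))
    rw [mem_im, mem_im, mem_im, h e]
    tauto
  have h2 : Disjoint {l : orbitRel.Quotient J Ed | l ∈ im B ∧ P l} {l | l ∈ im C ∧ P l} := by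
    rw [Set.disjoint_left]
    intro l
    obtain ⟨e, rfl⟩ := oq_surj l
    rintro ⟨k, -⟩ ⟨k', -⟩
    exact hd e (mem_im.1 k) (mem_im.1 k')
  have h3 := Set.ncard_union_eq h2 (Set.toFinite _) (Set.toFinite _)
  rw [← h1] at h3
  exact h3

/-- degrees -/
theorem deg_add3 (h : ∀ e, e ∈ A ↔ e ∈ B ∨ e ∈ C) (hd : ∀ e, e ∈ B → e ∉ C) (q : M.fg.N) :
    (M.sub A).fg.deg q = (M.sub B).fg.deg q + (M.sub C).fg.deg q := by
  have h1 := card_split3 M.fE h hd (fun l => M.fg.a l = q)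
  have h2 := card_split3 M.fE h hd (fun l => M.fg.b l = q)
  simp only [sub_a] at h1
  simp only [sub_b] at h2
  have h1' : Nat.card {e : (M.sub A).fg.L // (M.sub A).fg.a e = q} =
    Nat.card {e : (M.sub B).fg.L // (M.sub B).fg.a e = q} +
      Nat.card {e : (M.sub C).fg.L // (M.sub C).fg.a e = q} := h1
  have h2' : Nat.card {e : (M.sub A).fg.L // (M.sub A).fg.b e = q} =
    Nat.card {e : (M.sub B).fg.L // (M.sub B).fg.b e = q} +
      Nat.card {e : (M.sub C).fg.L // (M.sub C).fg.b e = q} := h2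
  unfold FG.deg
  rw [h1', h2']
  omega

/-- every line of `C` has exactly one end in `P` -/
def OneP (C : SubMulAction J Ed) (P : Set M.fg.N) : Prop := ∀ e ∈ C,
  ((oq J (M.s e) : M.fg.N) ∈ P ∧ (oq J (M.t e) : M.fg.N) ∉ P) ∨
  ((oq J (M.s e) : M.fg.N) ∉ P ∧ (oq J (M.t e) : M.fg.N) ∈ P)

variable {P : Set M.fg.N}

/-- the pole excess -/
theorem exc_add3 (h : ∀ e, e ∈ A ↔ e ∈ B ∨ e ∈ C) (hd : ∀ e, e ∈ B → e ∉ C)
    (hC : M.OneP C P) :
    (M.sub A).fg.exc P = (M.sub B).fg.exc P + Nat.card (M.sub C).fg.L := by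
  have h1 := card_split3 M.fE h hd (fun l => M.fg.a l ∈ P ∨ M.fg.b l ∈ P)
  simp only [sub_a, sub_b] at h1
  have h2 : Nat.card {l : orbitRel.Quotient J ↥C // (M.sub C).fg.a l ∈ P ∨
      (M.sub C).fg.b l ∈ P} = Nat.card (M.sub C).fg.L := by
    apply Nat.card_congr
    refine Equiv.subtypeUnivEquiv fun l => ?_
    obtain ⟨e, rfl⟩ := oq_surj l
    rcases hC e.1 e.2 with k | k
    · exact Or.inl k.1
    · exact Or.inr k.2
  have h1' : (M.sub A).fg.pst P = (M.sub B).fg.pst P + Nat.card (M.sub C).fg.L :=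
    h1.trans (congrArg (fun n => (M.sub B).fg.pst P + n) h2)
  unfold FG.exc
  rw [h1']
  push_cast
  have h3 : (Nat.card ↥(show Set (M.sub A).fg.N from P) : ℤ) =
    (Nat.card ↥(show Set (M.sub B).fg.N from P) : ℤ) := rfl
  have h4 : ∀ a b c d : ℤ, c = d → a + b - c = a - d + b := by
    intro a b c d h
    rw [h]
    ring
  exact h4 _ _ _ _ h3

/-- the contribution -/
theorem aftE_add3 [i : Fintype (M.sub A).fg.N] [i' : Fintype (M.sub B).fg.N]
    (h : ∀ e, e ∈ A ↔ e ∈ B ∨ e ∈ C) (hd : ∀ e, e ∈ B → e ∉ C)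
    (hC : M.OneP C P) (e : M.fg.N → ℕ) :
    (M.sub A).fg.aftE P e = (M.sub B).fg.aftE P e + Nat.card (M.sub C).fg.L := by
  classical
  have hi : (i' : Fintype M.fg.N) = i := Subsingleton.elim _ _
  have h1 := @FG.sum_out (M.sub C).fg i P
  have h2 : Nat.card {e : (M.sub C).fg.L // (M.sub C).fg.a e ∉ P} +
      Nat.card {e : (M.sub C).fg.L // (M.sub C).fg.b e ∉ P} = Nat.card (M.sub C).fg.L := by
    have k1 := Nat.card_congr (Equiv.sumCompl (fun l : (M.sub C).fg.L => (M.sub C).fg.a l ∉ P))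
    have := (M.sub C).fg.fL
    rw [Nat.card_sum] at k1
    rw [← k1]
    congr 1
    apply Nat.card_congr
    refine Equiv.subtypeEquivRight fun l => ?_
    obtain ⟨e, rfl⟩ := oq_surj l
    show ((oq J (M.t e.1) : M.fg.N) ∉ P) ↔ ¬ ((oq J (M.s e.1) : M.fg.N) ∉ P)
    rcases hC e.1 e.2 with k | k
    · rw [not_not]
      exact ⟨fun _ => k.1, fun _ => k.2⟩
    · exact ⟨fun l => absurd k.2 l, fun l => absurd k.1 l⟩
  have h1 := h1.trans h2
  have h3 : ∀ q : M.fg.N, (if q ∈ P then (0:ℤ) else ((M.sub A).fg.deg q : ℤ) - e q) =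
      (if q ∈ P then (0:ℤ) else ((M.sub B).fg.deg q : ℤ) - e q) +
        ((if q ∈ P then 0 else (M.sub C).fg.deg q : ℕ) : ℤ) := by
    intro q
    by_cases k : q ∈ P
    · rw [if_pos k, if_pos k, if_pos k]
      rfl
    · rw [if_neg k, if_neg k, if_neg k, M.deg_add3 h hd q]
      push_cast
      ring
  have h4 := Finset.sum_congr (s₁ := @Finset.univ M.fg.N i) rfl (fun q _ => h3 q)
  rw [Finset.sum_add_distrib] at h4
  have h5 : ∑ x ∈ (@Finset.univ M.fg.N i), ((if x ∈ P then 0 else (M.sub C).fg.deg x : ℕ) : ℤ) =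
      (Nat.card (M.sub C).fg.L : ℤ) := by
    rw [← h1, ← Nat.cast_sum]
    congr 1
  rw [h5] at h4
  unfold FG.aftE
  refine (Eq.trans ?_ h4).trans ?_
  · apply Finset.sum_congr rfl
    intro x _
    congr
  · congr 1
    rw [← hi]
    apply Finset.sum_congr rfl
    intro x _
    congr

/-- pole excess minus contribution -/
theorem exc_aft_tr [Fintype (M.sub A).fg.N] [Fintype (M.sub B).fg.N]
    (h : ∀ e, e ∈ A ↔ e ∈ B ∨ e ∈ C) (hd : ∀ e, e ∈ B → e ∉ C)
    (hC : M.OneP C P) (e : M.fg.N → ℕ) (h0 : (M.sub A).fg.exc P = (M.sub A).fg.aftE P e) :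
    (M.sub B).fg.exc P = (M.sub B).fg.aftE P e := by
  have h1 := M.exc_add3 h hd hC
  have h2 := M.aftE_add3 h hd hC e
  rw [h1, h2] at h0
  linarith

end JM

end Pool.Agent.DI
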