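import Pool.Agent.DI.Dup
import Pool.Agent.DI.BrW

/-!
# The number of the ends of the duplicate lines

`dup_ge`: the duplicates `S.pQ F` have at least `# F + oc H (corners (T,b,v), v ∈ G)` ends over the places
`w j`, if `T` is over such places and the vertices in `G` too.
-/

attribute [local instance 2000] SubMulAction.mulAction

namespace Pool.Agent.DI

open MulAction
open Pool.Agent.SAF (InC orbs FinOrb oc Conv exists_next)
open Pool.Agent.BT (PX PQ JS bey exits)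
open Pool.Agent.BT.TA

namespace JM

variable {J T Ed Z : Type} [Group J] [MulAction J T] [MulAction J Ed] [MulAction J Z]
  (M : JM J T Ed)

/-- lower bound for the number of the second ends -/
theorem le_ends_b (R : SubMulAction J Ed) (D : Set M.fg.N) (A : Set Z) (Rel : Z → ↥R → Prop)
    (hf : ∀ e ∈ A, ∃ x, Rel e x ∧ (oq J (M.t x.1) : M.fg.N) ∉ D)
    (hi : ∀ e e' x x', Rel e x → Rel e' x' → (∃ g : J, g • x = x') → ∃ g : J, g • e = e') :
    oc J A ≤ Nat.card {l : (M.sub R).fg.L // (M.sub R).fg.b l ∉ D} := by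
  classical
  have hfin : Finite (M.sub R).fg.L := (M.sub R).fE
  obtain ⟨r, hr⟩ := SAF.exists_rep (H := J) A
  have h1 : ∀ q : ↥(orbs J A), ∃ (l : {l : (M.sub R).fg.L // (M.sub R).fg.b l ∉ D}) (x : ↥R),
      Rel (r q.1) x ∧ oq J x = l.1 := by
    intro q
    obtain ⟨x, hx, hx'⟩ := hf _ (hr q.1 q.2).1
    exact ⟨⟨oq J x, hx'⟩, x, hx, rfl⟩
  choose t ht using h1
  have hinj : Function.Injective t := by
    intro q q' e
    obtain ⟨x, hx, hx'⟩ := ht q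
    obtain ⟨y, hy, hy'⟩ := ht q'
    have h2 : oq J x = oq J y := by rw [hx', hy', e]
    have h3 : ∃ g : J, g • x = y := by
      obtain ⟨g, hg⟩ := oq_eq.1 h2
      exact ⟨g, hg.symm⟩
    obtain ⟨g, hg⟩ := hi _ _ x y hx hy h3
    apply Subtype.ext
    rw [← (hr q.1 q.2).2, ← (hr q'.1 q'.2).2]
    exact (SAF.mk_eq_iff.2 ⟨g, hg⟩).symm
  have := Nat.card_le_card_of_injective t hinj
  rwa [Nat.card_coe_set_eq] at this

/-- the number of the first ends if no line starts in `D` -/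
theorem ends_a (R : SubMulAction J Ed) (D : Set M.fg.N)
    (hf : ∀ x : ↥R, (oq J (M.s x.1) : M.fg.N) ∉ D) :
    Nat.card {l : (M.sub R).fg.L // (M.sub R).fg.a l ∉ D} =
      Nat.card (orbitRel.Quotient J ↥R) := by
  refine Nat.card_congr (Equiv.subtypeUnivEquiv ?_)
  intro l
  obtain ⟨e, rfl⟩ := oq_surj l
  exact hf e

end JM

namespace SyQ

variable {H V : Type} [Group H] [MulAction H V] {S : SyQ H V}

section

variable (hc : S.Conn) (hnb : S.NB) {ι : Type} (w : ι → S.X)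
  (hw : ∀ (i j : ι) (g : H), g • w i = w j → i = j)

/-- nodes over the places are not lost -/
theorem lp_nD {y n : V} (h : S.K.ar n y) (hb : ∃ (j : ι) (g : H), g • w j ∈ S.J y ∧
    g • w j ∈ S.J n) : (oq H (S.lp h) : S.LPG.fg.N) ∉ (cutF hc hnb w hw).D := by
  intro k
  obtain ⟨j, g, h1, h2⟩ := hb
  exact (mem_D hc hnb w hw).1 k j ⟨y, n, rfl, g, h1, h2⟩

/-- the line of a corner `(T, b, v)` and its second end -/
theorem dup_end {F : S.K.I → Prop} (hF : ∀ i, F i → S.Ewk i) {G : Set V}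
    (hG : ∀ v ∈ G, ∃ j, S.J v = {w j}) (i : S.K.I) (k : Fin (S.K.len i)) (g : H) (hFi : F i)
    (hk : k.1 = 1) {g0 : H} (hg0 : g0 • g • S.P.qt i 3 ∈ G) :
    ∃ x : ↥(S.pQ F), x.1.1.1 = (⟨i, k⟩, g) ∧
      (oq H (S.LPG.t x.1) : S.LPG.fg.N) ∉ (cutF hc hnb w hw).D := by
  have hi := hF i hFi
  obtain ⟨k0, k1, k2⟩ := hi.corQ hk g
  have a1 : ((⟨i, k⟩, g) : S.K.LE) ∈ S.K.PE := by
    left
    rw [k0, k1]
    exact S.K.ar_smul g _ _ hi.Tb
  have a2 : (⟨_, a1⟩ : ↥S.K.PE) ∈ JM.cpl S.AJ := by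
    rintro ⟨-, p, p1, -, p3⟩
    have p1 : p ∈ S.J (S.K.c0 ((⟨i, k⟩, g) : S.K.LE)) := p1
    have p3 : p ∈ S.J (S.K.c2 ((⟨i, k⟩, g) : S.K.LE)) := p3
    rw [k0] at p1
    rw [k2] at p3
    have q1 := S.js.smul g⁻¹ _ _ p1
    have q3 := S.js.smul g⁻¹ _ _ p3
    rw [inv_smul_smul] at q1 q3
    exact hi.sep0 _ q3 q1
  have a3 : (⟨⟨_, a1⟩, a2⟩ : ↥(JM.cpl S.AJ)) ∈ S.pQ F := ⟨hFi, hk⟩
  refine ⟨⟨_, a3⟩, rfl, ?_⟩
  obtain ⟨i', g', y, hT', hv, -, hg', hi', hy, -, et⟩ := pQ_ends hF a3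
  have hg' : g' = g := hg'
  have hi' : i' = i := hi'
  subst hg'
  subst hi'
  have et' : S.LPG.t (⟨_, a3⟩ : ↥(S.pQ F)).1 = S.lp hv := et
  rw [et']
  refine lp_nD hc hnb w hw hv ?_
  obtain ⟨j, hj⟩ := hG _ hg0
  have hJv : S.J (g' • S.P.qt i' 3) = {g0⁻¹ • w j} := by
    have := J_sg (g := g0⁻¹) hj
    rwa [inv_smul_smul] at this
  refine ⟨j, g0⁻¹, ?_, by rw [hJv]; rfl⟩
  rw [hy]
  obtain ⟨p, p0, p1⟩ := S.one_ex (Or.inl (S.K.ar_smul g' _ _ hi.vb))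
  rw [hJv] at p0
  rw [← Set.mem_singleton_iff.1 p0]
  exact p1

/-- the ends of the duplicates over the places -/
theorem dup_ge {F : S.K.I → Prop} (hF : ∀ i, F i → S.Ewk i)
    (hT : ∀ i, F i → ∃ (j : ι) (g : H), g • w j ∈ S.J (S.P.qt i 1) ∧ g • w j ∈ S.J (S.P.qt i 2))
    {G : Set V} (hG : ∀ v ∈ G, ∃ j, S.J v = {w j}) :
    Nat.card {i // F i} + oc H {e : S.K.LE | F e.1.1 ∧ e.1.2.1 = 1 ∧ ∃ g : H, g • S.K.c2 e ∈ G} ≤
      S.LPG.nR (S.pQ F) (cutF hc hnb w hw).D := by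
  have h1 := S.LPG.ends_a (S.pQ F) (cutF hc hnb w hw).D (fun e => by
    obtain ⟨i, g, y, hT', hv, hFi, -, -, hy, es, -⟩ := pQ_ends hF e.2
    rw [es]
    refine lp_nD hc hnb w hw hT' ?_
    obtain ⟨j, g', k1, k2⟩ := hT i hFi
    refine ⟨j, g * g', ?_, ?_⟩
    · rw [hy, mul_smul]
      exact S.js.smul g _ _ k2
    · rw [mul_smul]
      exact S.js.smul g _ _ k1)
  have h2 := S.LPG.le_ends_b (S.pQ F) (cutF hc hnb w hw).D
    {e : S.K.LE | F e.1.1 ∧ e.1.2.1 = 1 ∧ ∃ g : H, g • S.K.c2 e ∈ G}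
    (fun e x => x.1.1.1 = e) (by
      rintro ⟨⟨i, k⟩, g⟩ ⟨hFe, hp, g0, hg0⟩
      have hg1 : g0 • g • S.P.qt i 3 ∈ G := by
        rw [← ((hF i hFe).corQ hp g).2.2]
        exact hg0
      exact S.dup_end hc hnb w hw hF hG i k g hFe hp hg1) (by
      rintro e e' x x' rfl rfl ⟨g, rfl⟩
      exact ⟨g, rfl⟩)
  rw [card_pQ hF] at h1
  unfold JM.nR
  rw [h1]
  exact Nat.add_le_add_left h2 _

end

end SyQ

end Pool.Agent.DI
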