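import Pool.Agent.DI.QFM2

/-!
# The quotient multigraph, part 4: maps

`FG.b1_le_linj`: a map of multigraphs which is injective on lines does not lower the Betti number.
`JM.b1_le`: the same for equivariant maps which are injective on orbits of edges; `JM.ofO_b1_le`:
edges given by relations.
-/

namespace Pool.Agent.DI

open MulAction

namespace FG

variable {G G' : FG}

/-- a map which is injective on lines -/
theorem b1_le_linj (n : G'.N → G.N) (l : G'.L → G.L) (hl : Function.Injective l)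
    (h : ∀ e, (G.a (l e) = n (G'.a e) ∧ G.b (l e) = n (G'.b e)) ∨
      (G.a (l e) = n (G'.b e) ∧ G.b (l e) = n (G'.a e))) : G'.b1 ≤ G.b1 := by
  classical
  -- restriction to the lines of `G'`
  let ρ : (G.L → ZMod 2) →ₗ[ZMod 2] (G'.L → ZMod 2) :=
    { toFun := fun f e => f (l e)
      map_add' := fun f g => rfl
      map_smul' := fun r f => rfl }
  have hρ : Function.Surjective ρ := by
    intro g
    refine ⟨fun e => if h : ∃ e', l e' = e then g h.choose else 0, ?_⟩
    funext e
    have h1 : ∃ e', l e' = l e := ⟨e, rfl⟩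
    show (if h : ∃ e', l e' = l e then g h.choose else 0) = g e
    rw [dif_pos h1]
    exact congrArg g (hl h1.choose_spec)
  have hmap : (LinearMap.range G.dm).map ρ ≤ LinearMap.range G'.dm := by
    rintro _ ⟨_, ⟨f, rfl⟩, rfl⟩
    refine ⟨fun x => f (n x), ?_⟩
    funext e
    show f (n (G'.a e)) + f (n (G'.b e)) = f (G.a (l e)) + f (G.b (l e))
    rcases h e with ⟨h1, h2⟩ | ⟨h1, h2⟩
    · rw [h1, h2]
    · rw [h1, h2, add_comm]
  have h1 : Module.finrank (ZMod 2) ↥(LinearMap.range ρ) = G'.nL := by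
    rw [LinearMap.range_eq_top.2 hρ, finrank_top, finrank_fun]
    rfl
  have h2 := LinearMap.finrank_range_add_finrank_ker ρ
  rw [h1, finrank_fun] at h2
  have h3 := LinearMap.finrank_range_add_finrank_ker (ρ.domRestrict (LinearMap.range G.dm))
  have h4 : Module.finrank (ZMod 2) ↥(LinearMap.range (ρ.domRestrict (LinearMap.range G.dm))) ≤
      Module.finrank (ZMod 2) ↥(LinearMap.range G'.dm) := by
    apply Submodule.finrank_mono
    rw [LinearMap.range_domRestrict]
    exact hmap
  have h5 : Module.finrank (ZMod 2) ↥(LinearMap.ker (ρ.domRestrict (LinearMap.range G.dm))) ≤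
      Module.finrank (ZMod 2) ↥(LinearMap.ker ρ) := by
    have hinj : Function.Injective
        ((LinearMap.range G.dm).subtype.comp
          (LinearMap.ker (ρ.domRestrict (LinearMap.range G.dm))).subtype) := by
      intro x y hxy
      exact Subtype.ext (Subtype.ext hxy)
    let τ : ↥(LinearMap.ker (ρ.domRestrict (LinearMap.range G.dm))) →ₗ[ZMod 2]
        ↥(LinearMap.ker ρ) :=
      LinearMap.codRestrict _ ((LinearMap.range G.dm).subtype.comp
        (LinearMap.ker (ρ.domRestrict (LinearMap.range G.dm))).subtype) (fun x => x.2)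
    apply LinearMap.finrank_le_finrank_of_injective (f := τ)
    intro x y hxy
    apply hinj
    have h6 : (τ x).1 = (τ y).1 := congrArg Subtype.val hxy
    exact h6
  rw [G.b1_eq, G'.b1_eq]
  have h6 : Nat.card G.L = G.nL := rfl
  rw [h6] at h2
  omega

end FG

section

variable {J T Ed T' Ed' : Type} [Group J] [MulAction J T] [MulAction J Ed] [MulAction J T']
  [MulAction J Ed'] (M : JM J T Ed) (M' : JM J T' Ed')

/-- equivariant maps which are injective on orbits of edges -/
theorem JM.b1_le (n : T' → T) (l : Ed' → Ed) (hn : ∀ (j : J) x, n (j • x) = j • n x)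
    (hl : ∀ (j : J) e, l (j • e) = j • l e) (hs : ∀ e, M.s (l e) = n (M'.s e))
    (ht : ∀ e, M.t (l e) = n (M'.t e))
    (hinj : ∀ (e e' : Ed') (j : J), l e' = j • l e → ∃ k : J, e' = k • e) :
    M'.fg.b1 ≤ M.fg.b1 := by
  apply FG.b1_le_linj (olift (fun x => oq J (n x)) (fun j x => by rw [hn, oq_smul]))
    (olift (fun e => oq J (l e)) (fun j e => by rw [hl, oq_smul]))
  · intro p q h
    obtain ⟨e, rfl⟩ := oq_surj p
    obtain ⟨e', rfl⟩ := oq_surj q
    have h' : oq J (l e) = oq J (l e') := h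
    obtain ⟨j, hj⟩ := oq_eq.1 h'
    obtain ⟨k, hk⟩ := hinj e e' j hj
    exact oq_eq.2 ⟨k, hk⟩
  · intro q
    obtain ⟨e, rfl⟩ := oq_surj q
    left
    constructor
    · show oq J (M.s (l e)) = oq J (n (M'.s e))
      rw [hs]
    · show oq J (M.t (l e)) = oq J (n (M'.t e))
      rw [ht]

/-- the same for edges given by relations -/
theorem JM.ofO_b1_le {O : T → T → Prop} {hO : ∀ (j : J) x y, O x y → O (j • x) (j • y)}
    {fT : Finite (orbitRel.Quotient J T)} {fE : Finite (orbitRel.Quotient J ↥(oS O hO))}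
    {O' : T' → T' → Prop} {hO' : ∀ (j : J) x y, O' x y → O' (j • x) (j • y)}
    {fT' : Finite (orbitRel.Quotient J T')} {fE' : Finite (orbitRel.Quotient J ↥(oS O' hO'))}
    (n : T' → T) (hn : ∀ (j : J) x, n (j • x) = j • n x) (h : ∀ x y, O' x y → O (n x) (n y))
    (hinj : ∀ (x y x' y' : T') (j : J), O' x y → O' x' y' → n x' = j • n x → n y' = j • n y →
      ∃ k : J, x' = k • x ∧ y' = k • y) :
    (JM.ofO O' hO' fT' fE').fg.b1 ≤ (JM.ofO O hO fT fE).fg.b1 := by
  apply JM.b1_le (JM.ofO O hO fT fE) (JM.ofO O' hO' fT' fE') n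
    (fun e => ⟨(n e.1.1, n e.1.2), h _ _ e.2⟩) hn
    (fun j e => Subtype.ext (Prod.ext (hn j _) (hn j _))) (fun _ => rfl) (fun _ => rfl)
  rintro ⟨⟨x, y⟩, h1⟩ ⟨⟨x', y'⟩, h2⟩ j hj
  have hj' : (n x', n y') = j • (n x, n y) := congrArg Subtype.val hj
  obtain ⟨k, hk1, hk2⟩ := hinj x y x' y' j h1 h2 (congrArg Prod.fst hj') (congrArg Prod.snd hj')
  exact ⟨k, Subtype.ext (Prod.ext hk1 hk2)⟩

end

end Pool.Agent.DI
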