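import Mathlib

/-!
# Quotient forests

`J` acts on a graph `E` on `T`. `QF J E`: the quotient graph is a forest (cut form): for every edge
there is an invariant function which changes exactly along the translates of this edge.
`QF.back`: a walk from `x` to a translate of `x` backtracks. `QF.gen`: a connected invariant part `C`
with group `P`: a walk in `C` from `x` to `j x` shows that `j` is in the subgroup generated by the
stabilisers (in `P`) of the vertices of `C`, up to the stabiliser of `x`.
-/

namespace Pool.Agent.DI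

open MulAction

section

variable {J T : Type*} [Group J] [MulAction J T]

/-- the quotient of the graph `E` by `J` is a forest -/
structure QF (J : Type*) {T : Type*} [Group J] [MulAction J T] (E : T → T → Prop) : Prop where
  symm : ∀ x y, E x y → E y x
  smul : ∀ (j : J) (x y : T), E x y → E (j • x) (j • y)
  cut : ∀ x y, E x y → ∃ f : T → ZMod 2, (∀ (j : J) (z : T), f (j • z) = f z) ∧ f x ≠ f y ∧
    ∀ z w, E z w → f z ≠ f w →
      ∃ j : J, (z = j • x ∧ w = j • y) ∨ (z = j • y ∧ w = j • x)

theorem zmod2_eq_of_ne {a b c : ZMod 2} (h1 : a ≠ b) (h2 : c ≠ b) : a = c := by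
  revert h1 h2; revert a b c; decide

/-- a walk from a vertex to a translate of it backtracks -/
theorem QF.back {E : T → T → Prop} (Q : QF J E) : ∀ (n : ℕ) (x : ℕ → T),
    (∀ i < n, E (x i) (x (i + 1))) → 1 ≤ n → (∃ j : J, x n = j • x 0) →
    ∃ i, 1 ≤ i ∧ i < n ∧ ∃ g : J, g • x i = x i ∧ g • x (i - 1) = x (i + 1) := by
  intro n
  induction n using Nat.strong_induction_on with
  | _ n ih =>
    intro x hx hn hj
    obtain ⟨j, hj⟩ := hj
    obtain ⟨f, f1, f2, f3⟩ := Q.cut _ _ (hx 0 hn)
    have hfn : f (x n) = f (x 0) := by rw [hj, f1]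
    -- the first return
    have hex : ∃ k, 1 ≤ k ∧ k < n ∧ f (x k) ≠ f (x (k + 1)) := by
      by_contra hno
      push Not at hno
      have hc : ∀ k, 1 ≤ k → k ≤ n → f (x k) = f (x 1) := by
        intro k hk
        induction k, hk using Nat.le_induction with
        | base => intro _; rfl
        | succ k hk ihk =>
          intro hkn
          rw [← hno k hk (by omega)]
          exact ihk (by omega)
      apply f2
      rw [← hfn]
      exact hc n hn le_rfl
    classical
    let k := Nat.find hex
    obtain ⟨k1, k2, k3⟩ := Nat.find_spec hex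
    have kmin : ∀ m, 1 ≤ m → m < k → f (x m) = f (x (m + 1)) := by
      intro m h1 h2
      by_contra h3
      exact Nat.find_min hex h2 ⟨h1, lt_trans h2 k2, h3⟩
    have hc : ∀ m, 1 ≤ m → m ≤ k → f (x m) = f (x 1) := by
      intro m hm
      induction m, hm using Nat.le_induction with
      | base => intro _; rfl
      | succ m hm ihm =>
        intro hmk
        rw [← kmin m hm (by omega)]
        exact ihm (by omega)
    have hfk : f (x k) = f (x 1) := hc k k1 le_rfl
    obtain ⟨g, hg⟩ := f3 _ _ (hx k k2) k3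
    have hg' : x k = g • x 1 ∧ x (k + 1) = g • x 0 := by
      rcases hg with ⟨h1, h2⟩ | ⟨h1, h2⟩
      · exfalso
        apply f2
        show f (x 0) = f (x 1)
        rw [← hfk]
        show f (x 0) = f (x k)
        rw [h1, f1]
      · exact ⟨h1, h2⟩
    by_cases hk1 : k = 1
    · refine ⟨1, le_rfl, ?_, g, ?_, ?_⟩
      · have := k2
        change k < n at this
        omega
      · have := hg'.1
        rw [hk1] at this
        exact this.symm
      · have := hg'.2
        rw [hk1] at this
        exact this.symm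
    · have hk2 : 2 ≤ k := by
        have := k1
        change 1 ≤ k at this
        omega
      have hkn : k < n := k2
      obtain ⟨i, i1, i2, h, h1, h2⟩ := ih (k - 1) (by omega) (fun m => x (m + 1))
        (fun m hm => hx (m + 1) (by omega)) (by omega)
        ⟨g, by
          show x (k - 1 + 1) = g • x (0 + 1)
          rw [Nat.sub_add_cancel (by omega)]
          exact hg'.1⟩
      refine ⟨i + 1, by omega, by omega, h, h1, ?_⟩
      have e : i - 1 + 1 = i + 1 - 1 := by omega
      have h2' : h • x (i - 1 + 1) = x (i + 1 + 1) := h2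
      rwa [e] at h2'

/-- walks in a set -/
def WIn (E : T → T → Prop) (C : Set T) (n : ℕ) (x : ℕ → T) : Prop :=
  (∀ i < n, E (x i) (x (i + 1))) ∧ ∀ i ≤ n, x i ∈ C

/-- the subgroup generated by the stabilisers in `P` of the vertices of `C` -/
def gst (P : Subgroup J) (C : Set T) : Subgroup J :=
  Subgroup.closure {g : J | g ∈ P ∧ ∃ m ∈ C, g • m = m}

theorem gst_le (P : Subgroup J) (C : Set T) : gst P C ≤ P :=
  (Subgroup.closure_le _).2 (fun _ h => h.1)

theorem mem_gst {P : Subgroup J} {C : Set T} {g : J} (h : g ∈ P) {m : T} (hm : m ∈ C)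
    (e : g • m = m) : g ∈ gst P C :=
  Subgroup.subset_closure ⟨h, m, hm, e⟩

/-- a walk in `C` from `x` to `j x` -/
theorem QF.gen {E : T → T → Prop} (Q : QF J E) {P : Subgroup J} {C : Set T}
    (hinv : ∀ g ∈ P, ∀ z ∈ C, g • z ∈ C)
    (hloc : ∀ a b c, a ∈ C → b ∈ C → c ∈ C → E a b → E b c → ∀ g : J, g • b = b → g • a = c → g ∈ P) :
    ∀ (n : ℕ) (x : ℕ → T), WIn E C n x → ∀ j : J, x n = j • x 0 →
      ∃ s ∈ gst P C, (s⁻¹ * j) • x 0 = x 0 := by
  intro n
  induction n using Nat.strong_induction_on with
  | _ n ih =>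
    intro x hx j hj
    rcases Nat.eq_zero_or_pos n with rfl | hn
    · exact ⟨1, Subgroup.one_mem _, by rw [inv_one, one_mul]; exact hj.symm⟩
    obtain ⟨i, i1, i2, g, g1, g2⟩ := Q.back n x hx.1 hn ⟨j, hj⟩
    have hei : E (x (i - 1)) (x i) := by
      have := hx.1 (i - 1) (by omega)
      rwa [Nat.sub_add_cancel i1] at this
    have hgP : g ∈ P := hloc _ _ _ (hx.2 (i - 1) (by omega)) (hx.2 i (by omega))
      (hx.2 (i + 1) (by omega)) hei (hx.1 i i2) g g1 g2
    have hgS : g ∈ gst P C := mem_gst hgP (hx.2 i (by omega)) g1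
    -- the shorter walk
    let y : ℕ → T := fun m => if m ≤ i - 1 then x m else g⁻¹ • x (m + 2)
    have y0 : y 0 = x 0 := if_pos (Nat.zero_le _)
    have hback : g⁻¹ • x (i + 1) = x (i - 1) := by rw [← g2, inv_smul_smul]
    have hy : WIn E C (n - 2) y := by
      constructor
      · intro m hm
        by_cases h1 : m + 1 ≤ i - 1
        · show E (if m ≤ i - 1 then x m else _) (if m + 1 ≤ i - 1 then x (m + 1) else _)
          rw [if_pos (by omega), if_pos h1]
          exact hx.1 m (by omega)
        · by_cases h2 : m ≤ i - 1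
          · have hmi : m = i - 1 := by omega
            show E (if m ≤ i - 1 then x m else _) (if m + 1 ≤ i - 1 then _ else g⁻¹ • x (m + 1 + 2))
            rw [if_pos h2, if_neg h1, hmi, ← hback]
            apply Q.smul
            have e : i - 1 + 1 + 2 = i + 1 + 1 := by omega
            rw [e]
            exact hx.1 (i + 1) (by omega)
          · show E (if m ≤ i - 1 then _ else g⁻¹ • x (m + 2))
              (if m + 1 ≤ i - 1 then _ else g⁻¹ • x (m + 1 + 2))
            rw [if_neg h2, if_neg h1]
            apply Q.smul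
            have e : m + 1 + 2 = m + 2 + 1 := by omega
            rw [e]
            exact hx.1 (m + 2) (by omega)
      · intro m hm
        by_cases h1 : m ≤ i - 1
        · show (if m ≤ i - 1 then x m else _) ∈ C
          rw [if_pos h1]
          exact hx.2 m (by omega)
        · show (if m ≤ i - 1 then _ else g⁻¹ • x (m + 2)) ∈ C
          rw [if_neg h1]
          exact hinv _ (P.inv_mem hgP) _ (hx.2 (m + 2) (by omega))
    have hyn : y (n - 2) = (g⁻¹ * j) • y 0 := by
      rw [y0, mul_smul, ← hj]
      by_cases h1 : n - 2 ≤ i - 1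
      · have e1 : n - 2 = i - 1 := by omega
        have e2 : n = i + 1 := by omega
        show (if n - 2 ≤ i - 1 then x (n - 2) else _) = _
        rw [if_pos h1, e1, e2, hback]
      · show (if n - 2 ≤ i - 1 then _ else g⁻¹ • x (n - 2 + 2)) = _
        rw [if_neg h1, Nat.sub_add_cancel (by omega)]
    obtain ⟨s, s1, s2⟩ := ih (n - 2) (by omega) y hy (g⁻¹ * j) hyn
    refine ⟨g * s, Subgroup.mul_mem _ hgS s1, ?_⟩
    rw [y0] at s2
    rw [mul_inv_rev, mul_assoc]
    exact s2

/-- connected by walks in `C` -/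
def CIn (E : T → T → Prop) (C : Set T) : Prop :=
  ∀ a ∈ C, ∀ b ∈ C, ∃ (n : ℕ) (x : ℕ → T), WIn E C n x ∧ x 0 = a ∧ x n = b

/-- vertices of `C` in one orbit of `J` are in one orbit of the generated subgroup -/
theorem QF.inj {E : T → T → Prop} (Q : QF J E) {P : Subgroup J} {C : Set T} (hc : CIn E C)
    (hinv : ∀ g ∈ P, ∀ z ∈ C, g • z ∈ C)
    (hloc : ∀ a b c, a ∈ C → b ∈ C → c ∈ C → E a b → E b c → ∀ g : J, g • b = b → g • a = c → g ∈ P)
    {z : T} (hz : z ∈ C) {j : J} (hj : j • z ∈ C) : ∃ s ∈ gst P C, j • z = s • z := by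
  obtain ⟨n, x, hx, x0, xn⟩ := hc z hz _ hj
  obtain ⟨s, s1, s2⟩ := Q.gen hinv hloc n x hx j (by rw [x0, xn])
  rw [x0, mul_smul, inv_smul_eq_iff] at s2
  exact ⟨s, s1, s2⟩

/-- the group of a connected part is generated by the stabilisers -/
theorem QF.le_gst {E : T → T → Prop} (Q : QF J E) {P : Subgroup J} {C : Set T} (hc : CIn E C)
    (hne : C.Nonempty) (hinv : ∀ g ∈ P, ∀ z ∈ C, g • z ∈ C)
    (hloc : ∀ a b c, a ∈ C → b ∈ C → c ∈ C → E a b → E b c → ∀ g : J, g • b = b → g • a = c → g ∈ P) :
    P = gst P C := by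
  apply le_antisymm _ (gst_le P C)
  intro p hp
  obtain ⟨z, hz⟩ := hne
  obtain ⟨s, s1, s2⟩ := Q.inj hc hinv hloc hz (hinv p hp z hz)
  have h1 : (s⁻¹ * p) ∈ gst P C := by
    apply mem_gst (P.mul_mem (P.inv_mem (gst_le P C s1)) hp) hz
    rw [mul_smul, s2, inv_smul_smul]
  have := Subgroup.mul_mem _ s1 h1
  rwa [mul_inv_cancel_left] at this

/-- a homomorphism which is trivial on the stabilisers of the members is trivial on `P` -/
theorem QF.hom_eq_one {E : T → T → Prop} (Q : QF J E) {P : Subgroup J} {C : Set T} (hc : CIn E C)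
    (hne : C.Nonempty) (hinv : ∀ g ∈ P, ∀ z ∈ C, g • z ∈ C)
    (hloc : ∀ a b c, a ∈ C → b ∈ C → c ∈ C → E a b → E b c → ∀ g : J, g • b = b → g • a = c → g ∈ P)
    {R : Type*} [Group R] (F : J →* R) (hF : ∀ m ∈ C, ∀ g ∈ P, g • m = m → F g = 1) :
    ∀ p ∈ P, F p = 1 := by
  intro p hp
  rw [Q.le_gst hc hne hinv hloc] at hp
  have : gst P C ≤ F.ker := by
    rw [gst, Subgroup.closure_le]
    rintro g ⟨h1, m, hm, h2⟩
    exact hF m hm g h1 h2
  exact this hp

/-- the quotient by a normal subgroup `N` inside: membership version -/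
theorem QF.mem_of {E : T → T → Prop} (Q : QF J E) {P : Subgroup J} {C : Set T} (hc : CIn E C)
    (hne : C.Nonempty) (hinv : ∀ g ∈ P, ∀ z ∈ C, g • z ∈ C)
    (hloc : ∀ a b c, a ∈ C → b ∈ C → c ∈ C → E a b → E b c → ∀ g : J, g • b = b → g • a = c → g ∈ P)
    (N : Subgroup J) (hN : ∀ m ∈ C, ∀ g ∈ P, g • m = m → g ∈ N) : P ≤ N := by
  rw [Q.le_gst hc hne hinv hloc, gst, Subgroup.closure_le]
  rintro g ⟨h1, m, hm, h2⟩
  exact hN m hm g h1 h2

/-- contraction: an invariant part of the edges is contracted (fibres of `π` are connected by edges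
of `E` with equal image) -/
theorem QF.contract {E : T → T → Prop} (Q : QF J E) {T' : Type*} [MulAction J T'] (π : T → T')
    (hπ : ∀ (j : J) (x : T), π (j • x) = j • π x) (hs : Function.Surjective π)
    (hcon : ∀ x y, π x = π y → Relation.EqvGen (fun a b => E a b ∧ π a = π b) x y)
    (E' : T' → T' → Prop) (hE' : ∀ a b, E' a b → ∃ x y, E x y ∧ π x = a ∧ π y = b)
    (hne : ∀ a b, E' a b → a ≠ b) (hsym : ∀ a b, E' a b → E' b a)
    (hsm : ∀ (j : J) (a b : T'), E' a b → E' (j • a) (j • b)) : QF J E' where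
  symm := hsym
  smul := hsm
  cut := by
    intro a b hab
    obtain ⟨x, y, hxy, rfl, rfl⟩ := hE' a b hab
    obtain ⟨f, f1, f2, f3⟩ := Q.cut x y hxy
    have hfc : ∀ u v, E u v → π u = π v → f u = f v := by
      intro u v huv e
      by_contra h
      obtain ⟨j, hj | hj⟩ := f3 u v huv h
      · apply hne _ _ hab
        rw [hj.1, hj.2, hπ, hπ] at e
        exact smul_left_cancel j e
      · apply hne _ _ hab
        rw [hj.1, hj.2, hπ, hπ] at e
        exact (smul_left_cancel j e).symm
    have hfe : ∀ u v, π u = π v → f u = f v := by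
      intro u v e
      induction hcon u v e with
      | rel a b h => exact hfc a b h.1 h.2
      | refl a => rfl
      | symm a b _ ih => exact (ih (by
          clear ih
          rename_i h
          have key : ∀ a b, Relation.EqvGen (fun a b => E a b ∧ π a = π b) a b → π a = π b := by
            intro a b h
            induction h with
            | rel a b h => exact h.2
            | refl a => rfl
            | symm a b _ ih => exact ih.symm
            | trans a b c _ _ ih1 ih2 => exact ih1.trans ih2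
          exact key _ _ h)).symm
      | trans a b c h1 h2 ih1 ih2 =>
        have key : ∀ a b, Relation.EqvGen (fun a b => E a b ∧ π a = π b) a b → π a = π b := by
          intro a b h
          induction h with
          | rel a b h => exact h.2
          | refl a => rfl
          | symm a b _ ih => exact ih.symm
          | trans a b c _ _ ih1 ih2 => exact ih1.trans ih2
        exact (ih1 (key _ _ h1)).trans (ih2 (key _ _ h2))
    obtain ⟨σ, hσ⟩ := hs.hasRightInverse
    refine ⟨fun c => f (σ c), ?_, ?_, ?_⟩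
    · intro j c
      show f (σ (j • c)) = f (σ c)
      rw [← f1 j (σ c)]
      apply hfe
      rw [hσ, hπ, hσ]
    · show f (σ (π x)) ≠ f (σ (π y))
      rw [hfe (σ (π x)) x (hσ _), hfe (σ (π y)) y (hσ _)]
      exact f2
    · intro c d hcd h
      obtain ⟨u, v, huv, rfl, rfl⟩ := hE' c d hcd
      have h' : f u ≠ f v := by
        have h0 : f (σ (π u)) ≠ f (σ (π v)) := h
        rwa [hfe (σ (π u)) u (hσ _), hfe (σ (π v)) v (hσ _)] at h0
      obtain ⟨j, hj | hj⟩ := f3 u v huv h'
      · exact ⟨j, Or.inl ⟨by rw [hj.1, hπ], by rw [hj.2, hπ]⟩⟩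
      · exact ⟨j, Or.inr ⟨by rw [hj.1, hπ], by rw [hj.2, hπ]⟩⟩

end

end Pool.Agent.DI
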