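import Pool.Agent.DI.Fd
import Pool.Agent.DI.QF

/-!
# The graph `T_e` of an edge (ONE TEXT, Ch0b)

`Qs w u q x x'` (DI.Fd): a pentagon `x q x' y z` crosses the edge `w u` at `x` and `x'`, `q` is on the
side of `w` (cut off), the centre is beyond `u`. `Star w u q x`: the component of `x` (`Gc`). Vertices of `T_e`: the
global type `TV V` (elements `el x`, star centres `st q C`, `C` a set of elements). `TE w u`: the graph
`T_e` of the edge `w u`: near stars (`q` on the side of `w`) and far stars.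
-/

namespace Pool.Agent.DI

open MulAction
open Pool.Agent.SAF (InC orbs FinOrb oc Decomp SAn SA Conv hull dist_edge FinOrb_iff exists_next)
open Pool.Agent.BT (PX PQ JS bey exits)
open Pool.Agent.BT.TA

/-! ### the global type of vertices -/

/-- vertices of the graphs `T_e` -/
inductive TV (V : Type) : Type
  | el : V → TV V
  | st : V → Set V → TV V

section

variable {H V : Type} [Group H] [MulAction H V]

instance : MulAction H (TV V) where
  smul h t := match t with
    | TV.el x => TV.el (h • x)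
    | TV.st q C => TV.st (h • q) ((fun x => h • x) '' C)
  one_smul t := by
    cases t with
    | el x => exact congrArg TV.el (one_smul H x)
    | st q C =>
      show TV.st ((1 : H) • q) ((fun x => (1 : H) • x) '' C) = TV.st q C
      simp
  mul_smul a b t := by
    cases t with
    | el x => exact congrArg TV.el (mul_smul a b x)
    | st q C =>
      show TV.st ((a * b) • q) ((fun x => (a * b) • x) '' C) =
        TV.st (a • b • q) ((fun x => a • x) '' ((fun x => b • x) '' C))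
      rw [Set.image_image, mul_smul]
      simp only [mul_smul]

@[simp] theorem TV.smul_el (h : H) (x : V) : h • TV.el x = TV.el (h • x) := rfl

theorem TV.smul_st (h : H) (q : V) (C : Set V) :
    h • TV.st q C = TV.st (h • q) ((fun x => h • x) '' C) := rfl

end

/-- the pointwise stabiliser of an edge -/
def Je {H X : Type} [Group H] [MulAction H X] (w u : X) : Subgroup H :=
  stabilizer H w ⊓ stabilizer H u

theorem mem_Je {H X : Type} [Group H] [MulAction H X] {w u : X} {h : H} :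
    h ∈ (Je w u : Subgroup H) ↔ h • w = w ∧ h • u = u := Iff.rfl

theorem Je_comm {H X : Type} [Group H] [MulAction H X] (w u : X) :
    (Je w u : Subgroup H) = Je u w := inf_comm _ _

namespace Sys

variable {H V : Type} [Group H] [MulAction H V] (S : Sys H V)

/-! ### joined elements -/

variable {S}

theorem Sq.swap {w u : S.X} {v0 v1 v2 v3 v4 : V} (h : S.Sq w u v0 v1 v2 v3 v4) :
    S.Sq w u v2 v1 v0 v4 v3 := ⟨h.1, h.2.2.1, h.2.1, h.2.2.2.1, h.2.2.2.2.2, h.2.2.2.2.1⟩

theorem Qs.smul' (g : H) {w u : S.X} {q x x' : V} (h : S.Qs w u q x x') :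
    S.Qs (g • w) (g • u) (g • q) (g • x) (g • x') := by
  obtain ⟨y, z, h1, h2⟩ := h
  exact ⟨g • y, g • z, h1.smul g, h2.smul g⟩

theorem Qs.ncs {w u : S.X} {q x x' : V} (h : S.Qs w u q x x') : ¬ S.Cs w u q :=
  S.adj_nc h.adj h.E1 h.l

/-- near and far stars have different centres -/
theorem Qs.not_far {w u : S.X} {q x x' y y' : V} (h : S.Qs w u q x x') : ¬ S.Qs u w q y y' := by
  intro h'
  obtain ⟨c, hc⟩ := S.js.ne q
  exact bey_not (h.near hc) (h'.near hc)

theorem pw_iff {w u : S.X} {a b : V} :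
    S.PW w u a b ↔ ∃ q, S.Qs w u q a b ∨ S.Qs u w q a b := by
  constructor
  · rintro ⟨h1, h2, h3, q, y, z, hp, h4⟩
    refine ⟨q, ?_⟩
    rcases h4 with ⟨a1, a2, a3⟩ | ⟨a1, a2, a3⟩
    · exact Or.inr ⟨y, z, hp, h1.symm, h2.swap, h3.swap, a1, a2, a3⟩
    · exact Or.inl ⟨y, z, hp, h1, h2, h3, a1, a2, a3⟩
  · rintro ⟨q, h | h⟩
    · obtain ⟨y, z, h1, h2⟩ := h
      exact ⟨h2.1, h2.2.1, h2.2.2.1, q, y, z, h1, Or.inr h2.2.2.2⟩
    · obtain ⟨y, z, h1, h2⟩ := h
      exact ⟨h2.1.symm, h2.2.1.swap, h2.2.2.1.swap, q, y, z, h1, Or.inl h2.2.2.2⟩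

variable (S)

/-! ### stars -/

/-- the star of `q` at the edge `w u` through `x` -/
def Star (w u : S.X) (q x : V) : Set V := {x' | S.Gc w u q x x'}

variable {S}

theorem mem_Star {w u : S.X} {q x x' : V} :
    x' ∈ S.Star w u q x ↔ S.Gc w u q x x' := Iff.rfl

theorem self_Star (w u : S.X) (q x : V) : x ∈ S.Star w u q x := Relation.EqvGen.refl x

theorem Star_eq {w u : S.X} {q x x' : V} (h : S.Gc w u q x x') :
    S.Star w u q x = S.Star w u q x' := by
  ext z
  exact ⟨fun h' => Relation.EqvGen.trans _ _ _ (Relation.EqvGen.symm _ _ h) h',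
    fun h' => Relation.EqvGen.trans _ _ _ h h'⟩

theorem Star_eq_iff {w u : S.X} {q x x' : V} :
    S.Star w u q x = S.Star w u q x' ↔ S.Gc w u q x x' := by
  constructor
  · intro h
    have := self_Star (S := S) w u q x'
    rw [← h] at this
    exact this
  · exact Star_eq

theorem eqv_smul (g : H) {w u : S.X} {q x x' : V} (h : S.Gc w u q x x') :
    S.Gc (g • w) (g • u) (g • q) (g • x) (g • x') := by
  induction h with
  | rel a b h => exact Relation.EqvGen.rel _ _ (h.smul' g)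
  | refl a => exact Relation.EqvGen.refl _
  | symm a b _ ih => exact Relation.EqvGen.symm _ _ ih
  | trans a b c _ _ ih1 ih2 => exact Relation.EqvGen.trans _ _ _ ih1 ih2

theorem Star_smul (g : H) (w u : S.X) (q x : V) :
    (fun z => g • z) '' S.Star w u q x = S.Star (g • w) (g • u) (g • q) (g • x) := by
  ext z
  constructor
  · rintro ⟨y, hy, rfl⟩
    exact eqv_smul g hy
  · intro hz
    refine ⟨g⁻¹ • z, ?_, smul_inv_smul g z⟩
    have := eqv_smul g⁻¹ hz
    show S.Gc w u q x (g⁻¹ • z)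
    simpa only [inv_smul_smul] using this

variable (S)

/-! ### the graph `T_e` -/

/-- an element and a near star centre of the edge `w u` -/
def TB (w u : S.X) (t s : TV V) : Prop :=
  ∃ x q x', S.Qs w u q x x' ∧ t = TV.el x ∧ s = TV.st q (S.Star w u q x)

/-- the graph `T_e` of the edge `w u` -/
def TE (w u : S.X) (t s : TV V) : Prop :=
  (S.TB w u t s ∨ S.TB u w t s) ∨ (S.TB w u s t ∨ S.TB u w s t)

/-- the vertices of `T_e` -/
def TM (w u : S.X) : Set (TV V) :=
  {t | (∃ x, S.Cs w u x ∧ t = TV.el x) ∨ ∃ s, S.TE w u s t}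

variable {S}

theorem TB.smul (g : H) {w u : S.X} {t s : TV V} (h : S.TB w u t s) :
    S.TB (g • w) (g • u) (g • t) (g • s) := by
  obtain ⟨x, q, x', h1, rfl, rfl⟩ := h
  refine ⟨g • x, g • q, g • x', h1.smul' g, rfl, ?_⟩
  rw [TV.smul_st, Star_smul]

theorem TE.symm {w u : S.X} {t s : TV V} (h : S.TE w u t s) : S.TE w u s t := Or.symm h

theorem TE.swap {w u : S.X} {t s : TV V} (h : S.TE w u t s) : S.TE u w t s :=
  Or.imp Or.symm Or.symm h

theorem TE.smul (g : H) {w u : S.X} {t s : TV V} (h : S.TE w u t s) :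
    S.TE (g • w) (g • u) (g • t) (g • s) :=
  Or.imp (Or.imp (TB.smul g) (TB.smul g)) (Or.imp (TB.smul g) (TB.smul g)) h

theorem TE_el_st {w u : S.X} {x q : V} {C : Set V} : S.TE w u (TV.el x) (TV.st q C) ↔
    ∃ x', (S.Qs w u q x x' ∧ C = S.Star w u q x) ∨ (S.Qs u w q x x' ∧ C = S.Star u w q x) := by
  constructor
  · rintro ((h | h) | (h | h))
    · obtain ⟨a, p, b, h1, h2, h3⟩ := h
      cases h2
      cases h3
      exact ⟨b, Or.inl ⟨h1, rfl⟩⟩
    · obtain ⟨a, p, b, h1, h2, h3⟩ := h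
      cases h2
      cases h3
      exact ⟨b, Or.inr ⟨h1, rfl⟩⟩
    · obtain ⟨a, p, b, h1, h2, h3⟩ := h
      cases h2
    · obtain ⟨a, p, b, h1, h2, h3⟩ := h
      cases h2
  · rintro ⟨x', ⟨h1, rfl⟩ | ⟨h1, rfl⟩⟩
    · exact Or.inl (Or.inl ⟨x, q, x', h1, rfl, rfl⟩)
    · exact Or.inl (Or.inr ⟨x, q, x', h1, rfl, rfl⟩)

theorem not_TE_el_el {w u : S.X} {x y : V} : ¬ S.TE w u (TV.el x) (TV.el y) := by
  rintro ((h | h) | (h | h)) <;> obtain ⟨a, p, b, h1, h2, h3⟩ := h <;> cases h3

theorem not_TE_st_st {w u : S.X} {q q' : V} {C C' : Set V} :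
    ¬ S.TE w u (TV.st q C) (TV.st q' C') := by
  rintro ((h | h) | (h | h)) <;> obtain ⟨a, p, b, h1, h2, h3⟩ := h <;> cases h2

theorem TE_cs {w u : S.X} {x : V} {t : TV V} (h : S.TE w u (TV.el x) t) : S.Cs w u x := by
  cases t with
  | el y => exact absurd h not_TE_el_el
  | st q C =>
    obtain ⟨x', ⟨h1, _⟩ | ⟨h1, _⟩⟩ := TE_el_st.1 h
    · exact h1.l
    · exact h1.l.swap

/-- the members of a star centre are its neighbours -/
theorem TE_mem {w u : S.X} {x q : V} {C : Set V} (h : S.TE w u (TV.el x) (TV.st q C)) : x ∈ C := by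
  obtain ⟨x', ⟨_, rfl⟩ | ⟨_, rfl⟩⟩ := TE_el_st.1 h
  · exact self_Star _ _ _ _
  · exact self_Star _ _ _ _

theorem eqv_jn {w u : S.X} {q x x' : V} (h : S.Gc w u q x x') (hne : x ≠ x') :
    (∃ y, S.Qs w u q x y) ∧ ∃ y, S.Qs w u q x' y := by
  induction h with
  | rel a b h => exact ⟨⟨b, h⟩, ⟨a, Qs.symm' h⟩⟩
  | refl a => exact absurd rfl hne
  | symm a b _ ih => exact (ih (Ne.symm hne)).symm
  | trans a b c _ _ ih1 ih2 =>
    by_cases hab : a = b
    · subst hab
      exact ih2 hne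
    · by_cases hbc : b = c
      · subst hbc
        exact ih1 hne
      · exact ⟨(ih1 hab).1, (ih2 hbc).2⟩

/-- all elements of a star are its neighbours -/
theorem TE_of_mem {w u : S.X} {x z q : V} {C : Set V} (h : S.TE w u (TV.el x) (TV.st q C))
    (hz : z ∈ C) : S.TE w u (TV.el z) (TV.st q C) := by
  obtain ⟨x', h' | h'⟩ := TE_el_st.1 h
  · obtain ⟨h1, rfl⟩ := h'
    by_cases hxz : x = z
    · subst hxz
      exact h
    · obtain ⟨_, y, hy⟩ := eqv_jn hz hxz
      exact TE_el_st.2 ⟨y, Or.inl ⟨hy, Star_eq hz⟩⟩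
  · obtain ⟨h1, rfl⟩ := h'
    by_cases hxz : x = z
    · subst hxz
      exact h
    · obtain ⟨_, y, hy⟩ := eqv_jn hz hxz
      exact TE_el_st.2 ⟨y, Or.inr ⟨hy, Star_eq hz⟩⟩

/-- the two stars of an arrow at an edge are equal -/
theorem TE_unique {w u : S.X} {x q : V} {C C' : Set V} (h : S.TE w u (TV.el x) (TV.st q C))
    (h' : S.TE w u (TV.el x) (TV.st q C')) : C = C' := by
  obtain ⟨y, ⟨h1, rfl⟩ | ⟨h1, rfl⟩⟩ := TE_el_st.1 h <;>
    obtain ⟨y', ⟨h2, rfl⟩ | ⟨h2, rfl⟩⟩ := TE_el_st.1 h'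
  · rfl
  · exact absurd h2 h1.not_far
  · exact absurd h1 h2.not_far
  · rfl

theorem TE_of_jn {w u : S.X} {x x' q : V} (h : S.Qs w u q x x') :
    S.TE w u (TV.el x) (TV.st q (S.Star w u q x)) := TE_el_st.2 ⟨x', Or.inl ⟨h, rfl⟩⟩

/-- joined elements are connected in `T_e` -/
theorem pw_conn {w u : S.X} {a b : V} (h : S.PW w u a b) :
    Relation.ReflTransGen (S.TE w u) (TV.el a) (TV.el b) := by
  obtain ⟨q, h | h⟩ := pw_iff.1 h
  · refine Relation.ReflTransGen.tail (Relation.ReflTransGen.single (TE_of_jn h)) ?_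
    rw [Star_eq (Relation.EqvGen.rel _ _ h)]
    exact (TE_of_jn (Qs.symm' h)).symm
  · refine Relation.ReflTransGen.tail (Relation.ReflTransGen.single (TE_of_jn h).swap) ?_
    rw [Star_eq (Relation.EqvGen.rel _ _ h)]
    exact (TE_of_jn (Qs.symm' h)).swap.symm

theorem rtg_symm {α : Type} {R : α → α → Prop} (hR : ∀ a b, R a b → R b a) {a b : α}
    (h : Relation.ReflTransGen R a b) : Relation.ReflTransGen R b a := by
  induction h with
  | refl => exact Relation.ReflTransGen.refl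
  | tail _ h ih => exact (Relation.ReflTransGen.single (hR _ _ h)).trans ih

/-- `T_e` is connected -/
theorem TE_conn (hc : S.Conn) {w u : S.X} (h : S.D.G.Adj w u) {t s : TV V} (ht : t ∈ S.TM w u)
    (hs : s ∈ S.TM w u) : Relation.ReflTransGen (S.TE w u) t s := by
  have hsy : ∀ a b, S.TE w u a b → S.TE w u b a := fun a b h => h.symm
  have e1 : ∀ x z, S.Cs w u x → S.Cs w u z →
      Relation.ReflTransGen (S.TE w u) (TV.el x) (TV.el z) := by
    intro x z hx hz
    have := hc.wall w u h x z hx hz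
    clear hx hz
    induction this with
    | rel a b h => exact pw_conn h
    | refl a => exact Relation.ReflTransGen.refl
    | symm a b _ ih => exact rtg_symm hsy ih
    | trans a b c _ _ ih1 ih2 => exact ih1.trans ih2
  have e2 : ∀ t ∈ S.TM w u, ∃ x, S.Cs w u x ∧ Relation.ReflTransGen (S.TE w u) t (TV.el x) := by
    rintro t (⟨x, hx, rfl⟩ | ⟨s, hs⟩)
    · exact ⟨x, hx, Relation.ReflTransGen.refl⟩
    · cases s with
      | el x => exact ⟨x, TE_cs hs, Relation.ReflTransGen.single hs.symm⟩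
      | st q C =>
        cases t with
        | el x => exact ⟨x, TE_cs hs.symm, Relation.ReflTransGen.refl⟩
        | st q' C' => exact absurd hs not_TE_st_st
  obtain ⟨x, hx, h1⟩ := e2 t ht
  obtain ⟨z, hz, h2⟩ := e2 s hs
  exact (h1.trans (e1 x z hx hz)).trans (rtg_symm hsy h2)

end Sys

end Pool.Agent.DI
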