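import Pool.Agent.DI.KF
import Pool.Agent.DI.TF
import Pool.Agent.DI.OcA
import Pool.Agent.DI.QFM4

/-!
# The E-law: definitions and finiteness

`GX.hal`, `GX.Ec`: half-edges of the light softs, their number. Flags `(u, ..)` at a vertex `w` (`u` a
neighbour of `w`): `vf` (elements which cross `w u`), `nl` (lines at near stars), `ns` (near stars),
`pas` (elements which cross a second edge), `DQ`; `r0`: half-edges placed at `w`. `ThO`: the graph of the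
passing elements, near and far passing stars and DQ's. `TTO`: the graph over a midpoint `u`.
-/

namespace Pool.Agent.DI

open MulAction
open Pool.Agent.SAF (InC orbs FinOrb oc Decomp SAn SA Conv hull dist_edge FinOrb_iff exists_next
  mk_eq_iff oc_le_of_inj oc_le_of_rel oc_le_of_surj oc_mono)
open Pool.Agent.BT (PX PQ JS bey exits lz lz_self lz_ne lz_symm x_next_unique)
open Pool.Agent.BT.TA

/-! ### finiteness of pairs -/

section

variable {G Y Z : Type} [Group G] [MulAction G Y] [MulAction G Z]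

/-- pairs over a set with finite fibres -/
theorem finOrb_rel {A : Set Y} (hA : FinOrb G A) {R : Y → Z → Prop}
    (hR : ∀ (g : G) y z, R y z → R (g • y) (g • z)) (hfin : ∀ y ∈ A, {z | R y z}.Finite) :
    FinOrb G {p : Y × Z | p.1 ∈ A ∧ R p.1 p.2} := by
  rw [FinOrb_iff] at hA ⊢
  obtain ⟨F, hF, hFA, h⟩ := hA
  refine ⟨⋃ y ∈ F, (fun z => (y, z)) '' {z | R y z}, ?_, ?_, ?_⟩
  · exact hF.biUnion fun y hy => (hfin y (hFA hy)).image _
  · intro p hp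
    simp only [Set.mem_iUnion] at hp
    obtain ⟨y, hy, z, hz, rfl⟩ := hp
    exact ⟨hFA hy, hz⟩
  · rintro ⟨y, z⟩ ⟨hy, hz⟩
    obtain ⟨f, hf, g, hg⟩ := h y hy
    have hg : g • f = y := hg
    subst hg
    refine ⟨(f, g⁻¹ • z), ?_, g, ?_⟩
    · simp only [Set.mem_iUnion]
      refine ⟨f, hf, g⁻¹ • z, ?_, rfl⟩
      have := hR g⁻¹ _ _ hz
      rwa [inv_smul_smul] at this
    · exact Prod.ext rfl (smul_inv_smul g z)

/-- the number of orbits of an invariant set -/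
theorem card_orb_sub (A : SubMulAction G Y) :
    Nat.card (orbitRel.Quotient G ↥A) = oc G (A : Set Y) := by
  have h1 : Nat.card ↥(orbs G (A : Set Y)) = oc G (A : Set Y) := Nat.card_coe_set_eq _
  rw [← h1]
  refine Nat.card_congr (Equiv.ofBijective
    (olift (fun e : ↥A => (⟨oq G e.1, e.1, e.2, rfl⟩ : ↥(orbs G (A : Set Y))))
      (fun j e => Subtype.ext (oq_smul j e.1))) ⟨?_, ?_⟩)
  · intro p q h
    obtain ⟨e, rfl⟩ := oq_surj p
    obtain ⟨e', rfl⟩ := oq_surj q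
    have h' : oq G e.1 = oq G e'.1 := congrArg Subtype.val h
    obtain ⟨j, hj⟩ := oq_eq.1 h'
    exact oq_eq.2 ⟨j, Subtype.ext hj⟩
  · rintro ⟨q, e, he, rfl⟩
    exact ⟨oq G ⟨e, he⟩, rfl⟩

end

section

variable {H V : Type} [Group H] [MulAction H V]

/-- the half-edges of the light softs -/
def GX.hal (K : GX H V) : Set (V × V) :=
  {p | K.ar p.1 p.2 ∧ (∃ b, K.ar p.1 b ∧ b ≠ p.2) ∧ Finite ↥(stabilizer H p.1)}

/-- the number of half-edges of the light softs -/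
noncomputable def GX.Ec (K : GX H V) : ℕ := oc H K.hal

theorem GX.finAr (K : GX H V) : FinOrb H {p : V × V | K.ar p.1 p.2} := by
  have h := finOrb_rel (R := K.ar) K.fin (K.ar_smul) (fun y _ => out_finite K.two y)
  refine Pool.Agent.SAF.FinOrb.mono ?_ h
  intro p hp
  exact ⟨trivial, hp⟩

theorem GX.finHal (K : GX H V) : FinOrb H K.hal := K.finAr.mono fun _ h => h.1

theorem finite_stab_smul {g : H} {x : V} (h : Finite ↥(stabilizer H x)) :
    Finite ↥(stabilizer H (g • x)) := by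
  have e := stabilizerEquivStabilizer (G := H) (g := g) (a := x) (b := g • x) rfl
  exact Finite.of_equiv _ e.toEquiv

theorem GX.hal_smul (K : GX H V) (g : H) {p : V × V} (h : p ∈ K.hal) : g • p ∈ K.hal := by
  obtain ⟨h1, ⟨b, h2, h3⟩, h4⟩ := h
  exact ⟨K.ar_smul g _ _ h1, ⟨g • b, K.ar_smul g _ _ h2, fun e => h3 (smul_left_cancel g e)⟩,
    finite_stab_smul h4⟩

end

namespace Sys

variable {H V : Type} [Group H] [MulAction H V] (S : Sys H V)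

/-! ### flags -/

/-- elements and edges which they cross -/
def vf (w : S.X) : Set (S.X × V) := {p | S.D.G.Adj w p.1 ∧ S.Cs w p.1 p.2}

/-- the lines at the near stars -/
def nl (w : S.X) : Set (S.X × (V × V)) := {p | ∃ x', S.Qs w p.1 p.2.2 p.2.1 x'}

/-- the near stars -/
def ns (w : S.X) : Set (S.X × TV V) :=
  {p | ∃ x q x', S.Qs w p.1 q x x' ∧ p.2 = TV.st q (S.Star w p.1 q x)}

/-- `x` crosses `w u` and a second edge at `w` -/
def pas (w u : S.X) (x : V) : Prop :=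
  S.D.G.Adj w u ∧ S.Cs w u x ∧ ∃ u', S.D.G.Adj w u' ∧ u' ≠ u ∧ S.Cs w u' x

/-- a diamond which is not simple -/
def DQ (w u : S.X) (q : V) : Prop := S.Dia w u q ∧ ¬ S.SD w u q

/-- the half-edges placed at `w` -/
def r0 (w : S.X) : Set (V × V) := {p | p ∈ S.K.hal ∧ w ∈ S.J p.1 ∧ w ∈ S.J p.2}

/-- the lines of `Theta` at the edge `w u`: near passing stars, far passing stars, DQ's -/
def ThO (w u : S.X) (t s : TV V) : Prop := ∃ x q, t = TV.el x ∧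
  ((w ∉ S.J q ∧ (∃ x', S.Qs w u q x x') ∧ s = TV.st q (S.Star w u q x)) ∨
    (∃ u', u' ≠ u ∧ S.D.G.Adj w u ∧ (∃ x', S.Qs w u' q x x') ∧ S.J q ⊆ bey S.D.G w u ∧
      s = TV.st q (S.Star w u' q x)) ∨
    (S.DQ w u q ∧ S.K.ar q x ∧ s = TV.st q ∅))

/-- the vertices of `Theta` at the edge `w u` -/
def ThN (w u : S.X) (t : TV V) : Prop := (∃ x, t = TV.el x ∧ S.pas w u x) ∨ ∃ t', S.ThO w u t' t

/-- the lines of `TT` at the midpoint `u` with the neighbours `w`, `w'` -/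
def TTO (w u w' : S.X) (t s : TV V) : Prop := ∃ x q, t = TV.el x ∧
  ((∃ x', S.Qs w u q x x' ∧ s = TV.st q (S.Star w u q x)) ∨
    (∃ x', S.Qs w' u q x x' ∧ s = TV.st q (S.Star w' u q x)) ∨
    (S.J q = {u} ∧ u ∈ S.J x ∧ S.K.E x q ∧ s = TV.st q ∅))

/-- the vertices of `TT` -/
def TTN (w u w' : S.X) (t : TV V) : Prop :=
  (∃ x, t = TV.el x ∧ u ∈ S.J x ∧ (w ∈ S.J x ∨ w' ∈ S.J x)) ∨ (∃ t', S.TTO w u w' t' t) ∨
    ∃ v, S.J v = {u} ∧ t = TV.st v ∅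

variable {S}

/-! ### invariance -/

theorem stab_w {w : S.X} (g : ↥(stabilizer H w)) : g.1 • w = w := g.2

theorem adj_smul' {w u : S.X} (g : ↥(stabilizer H w)) (h : S.D.G.Adj w u) :
    S.D.G.Adj w (g.1 • u) := by
  have := S.D.adj_smul g.1 _ _ h
  rwa [stab_w g] at this

theorem cs_smul' {w u : S.X} (g : ↥(stabilizer H w)) {x : V} (h : S.Cs w u x) :
    S.Cs w (g.1 • u) (g.1 • x) := by
  have := h.smul g.1
  rwa [stab_w g] at this

theorem mem_smul' {w : S.X} (g : ↥(stabilizer H w)) {x : V} :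
    w ∈ S.J (g.1 • x) ↔ w ∈ S.J x := by
  have := S.mem_smul_iff g.1 x w
  rwa [stab_w g] at this

theorem sub_smul' {w u : S.X} (g : ↥(stabilizer H w)) {x : V} (h : S.J x ⊆ bey S.D.G w u) :
    S.J (g.1 • x) ⊆ bey S.D.G w (g.1 • u) := by
  have := S.sub_bey_smul g.1 h
  rwa [stab_w g] at this

theorem pas.smul {w u : S.X} (g : ↥(stabilizer H w)) {x : V} (h : S.pas w u x) :
    S.pas w (g.1 • u) (g.1 • x) := by
  obtain ⟨h1, h2, u', h3, h4, h5⟩ := h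
  exact ⟨adj_smul' g h1, cs_smul' g h2, g.1 • u', adj_smul' g h3,
    fun e => h4 (smul_left_cancel g.1 e), cs_smul' g h5⟩

theorem DQ.smul {w u : S.X} (g : ↥(stabilizer H w)) {q : V} (h : S.DQ w u q) :
    S.DQ w (g.1 • u) (g.1 • q) :=
  ⟨h.1.smul g, fun k => h.2 ((SD.smul_iff g).1 k)⟩

theorem Star_smul' {w u : S.X} (g : ↥(stabilizer H w)) (q x : V) :
    (fun z => g.1 • z) '' S.Star w u q x = S.Star w (g.1 • u) (g.1 • q) (g.1 • x) := by
  rw [Star_smul, stab_w g]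

theorem ThO.smul {w u : S.X} (g : ↥(stabilizer H w)) {t s : TV V} (h : S.ThO w u t s) :
    S.ThO w (g.1 • u) (g.1 • t) (g.1 • s) := by
  obtain ⟨x, q, rfl, h⟩ := h
  refine ⟨g.1 • x, g.1 • q, rfl, ?_⟩
  rcases h with ⟨h1, ⟨x', h2⟩, rfl⟩ | ⟨u', h1, h2, ⟨x', h3⟩, h4, rfl⟩ | ⟨h1, h2, rfl⟩
  · exact Or.inl ⟨fun k => h1 ((mem_smul' g).1 k), ⟨g.1 • x', h2.smul g⟩, by
      rw [TV.smul_st, Star_smul']⟩
  · refine Or.inr (Or.inl ⟨g.1 • u', fun e => h1 (smul_left_cancel g.1 e), adj_smul' g h2,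
      ⟨g.1 • x', h3.smul g⟩, sub_smul' g h4, ?_⟩)
    rw [TV.smul_st, Star_smul']
  · refine Or.inr (Or.inr ⟨h1.smul g, S.K.ar_smul _ _ _ h2, ?_⟩)
    rw [TV.smul_st, Set.image_empty]

theorem ThN.smul {w u : S.X} (g : ↥(stabilizer H w)) {t : TV V} (h : S.ThN w u t) :
    S.ThN w (g.1 • u) (g.1 • t) := by
  rcases h with ⟨x, rfl, h⟩ | ⟨t', h⟩
  · exact Or.inl ⟨g.1 • x, rfl, h.smul g⟩
  · exact Or.inr ⟨g.1 • t', h.smul g⟩

/-- members of `Theta` cross a second edge -/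
theorem near_pas {w u : S.X} {q x x' : V} (h : S.Qs w u q x x') (hq : w ∉ S.J q) :
    S.pas w u x ∧ S.dir w q ≠ u ∧ S.Cs w (S.dir w q) x := by
  have ha := S.dir_adj hq
  have hne : S.dir w q ≠ u := by
    intro e
    obtain ⟨p, hp⟩ := S.js.ne q
    have h1 := h.near hp
    have h2 := S.dir_bey hq hp
    rw [e] at h2
    exact bey_not h1 h2
  have c1 : S.Cs w (S.dir w q) x := ⟨h.l.1, S.dir_cross h.E1 h.l.1 hq⟩
  exact ⟨⟨h.adj, h.l, _, ha, hne, c1⟩, hne, c1⟩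

theorem far_pas {w u u' : S.X} {q x x' : V} (hu : u' ≠ u) (ha : S.D.G.Adj w u)
    (h : S.Qs w u' q x x') (hs : S.J q ⊆ bey S.D.G w u) : S.pas w u x ∧ w ∉ S.J q ∧ S.dir w q = u := by
  have hq : w ∉ S.J q := S.not_mem_of_bey ha hs
  have hd : S.dir w q = u := S.dir_eq ha hs
  have h1 := (near_pas h hq).2.2
  rw [hd] at h1
  exact ⟨⟨ha, h1, u', h.adj, hu, h.l⟩, hq, hd⟩

theorem DQ.two {w u : S.X} {q : V} (h : S.DQ w u q) : ∃ u', u' ≠ u ∧ S.Dia w u' q := by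
  by_contra hn
  push Not at hn
  exact h.2 ⟨h.1, fun u' h' => by_contra fun e => hn u' e h'⟩

theorem DQ.pas {w u : S.X} {q x : V} (h : S.DQ w u q) (hx : S.K.ar q x) : S.pas w u x := by
  obtain ⟨u', hu, h'⟩ := h.two
  have h1 := h.1.two hx
  have h2 := h'.two hx
  exact ⟨h1.1, h1.2, u', h2.1, hu, h2.2⟩

theorem ThO.pas {w u : S.X} {t s : TV V} (h : S.ThO w u t s) : ∃ x, t = TV.el x ∧ S.pas w u x := by
  obtain ⟨x, q, rfl, h⟩ := h
  refine ⟨x, rfl, ?_⟩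
  rcases h with ⟨h1, ⟨x', h2⟩, rfl⟩ | ⟨u', h1, h2, ⟨x', h3⟩, h4, rfl⟩ | ⟨h1, h2, rfl⟩
  · exact (near_pas h2 h1).1
  · exact (far_pas h1 h2 h3 h4).1
  · exact h1.pas h2

variable (S)

/-- the flags of vertices of `Theta` -/
def ThT (w : S.X) : SubMulAction ↥(stabilizer H w) (S.X × TV V) where
  carrier := {p | S.ThN w p.1 p.2}
  smul_mem' g _ h := ThN.smul g h

/-- the lines of `Theta` on flags -/
def ThR (w : S.X) (a b : ↥(S.ThT w)) : Prop := a.1.1 = b.1.1 ∧ S.ThO w a.1.1 a.1.2 b.1.2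

variable {S}

theorem ThR.smul {w : S.X} (g : ↥(stabilizer H w)) {a b : ↥(S.ThT w)} (h : S.ThR w a b) :
    S.ThR w (g • a) (g • b) := by
  obtain ⟨h1, h2⟩ := h
  refine ⟨?_, h2.smul g⟩
  show g.1 • a.1.1 = g.1 • b.1.1
  rw [h1]

/-! ### finiteness -/

theorem fin_dirs (w : S.X) (x : V) : {u | S.D.G.Adj w u ∧ S.Cs w u x}.Finite := by
  by_cases h : ∃ a b, (S.D.G.Adj w a ∧ S.Cs w a x) ∧ (S.D.G.Adj w b ∧ S.Cs w b x) ∧ a ≠ b
  · obtain ⟨a, b, ha, hb, hab⟩ := h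
    apply (Set.toFinite ({a, b} : Set S.X)).subset
    intro c hc
    have := S.js.two x w ha.2.1 (Sum.inr a) (Or.inr ⟨a, rfl, ha.1, ha.2.2⟩) (Sum.inr b)
      (Or.inr ⟨b, rfl, hb.1, hb.2.2⟩) (Sum.inr c) (Or.inr ⟨c, rfl, hc.1, hc.2.2⟩)
    rcases this with h | h | h
    · exact absurd (Sum.inr.inj h) hab
    · exact Or.inl (Sum.inr.inj h).symm
    · exact Or.inr (Sum.inr.inj h).symm
  · push Not at h
    apply Set.Subsingleton.finite
    intro a ha b hb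
    exact h a b ha hb

theorem fin_over (w : S.X) : FinOrb ↥(stabilizer H w) {x : V | w ∈ S.J x} := by
  apply Pool.Agent.SAF.FinOrb.of_inj S.js.fin (fun x : V => (x, w)) (fun x h => h)
  rintro a _ b _ ⟨h, e⟩
  have h1 : h • a = b := congrArg Prod.fst e
  have h2 : h • w = w := congrArg Prod.snd e
  exact ⟨⟨h, h2⟩, h1⟩

theorem fin_vf (w : S.X) : FinOrb ↥(stabilizer H w) (S.vf w) := by
  have h := finOrb_rel (G := ↥(stabilizer H w)) (R := fun (x : V) (u : S.X) => S.D.G.Adj w u ∧ S.Cs w u x)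
    (fin_over w) (fun g x u h => ⟨adj_smul' g h.1, cs_smul' g h.2⟩) (fun x _ => fin_dirs w x)
  apply Pool.Agent.SAF.FinOrb.of_inj h (fun p : S.X × V => (p.2, p.1))
  · rintro ⟨u, x⟩ ⟨h1, h2⟩
    exact ⟨h2.1, h1, h2⟩
  · rintro ⟨u, x⟩ _ ⟨u', x'⟩ _ ⟨g, e⟩
    exact ⟨g, Prod.ext (congrArg Prod.snd e) (congrArg Prod.fst e)⟩

theorem fin_r0 (w : S.X) : FinOrb ↥(stabilizer H w) (S.r0 w) := by
  have h := finOrb_rel (G := ↥(stabilizer H w)) (R := fun (x a : V) => S.K.ar x a)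
    (fin_over w) (fun g x u h => S.K.ar_smul g.1 _ _ h) (fun x _ => out_finite S.K.two x)
  refine Pool.Agent.SAF.FinOrb.mono ?_ h
  intro p hp
  exact ⟨hp.2.1, hp.1.1⟩

/-- finitely many orbits of lines at near stars -/
theorem fin_nl (w : S.X) : FinOrb ↥(stabilizer H w) (S.nl w) := by
  rw [FinOrb_iff]
  have := S.finC4 w
  let F1 : Set (S.X × (V × V)) := Set.range fun p : S.C4 w =>
    (p.u, (S.tr p.g p.1.1 p.1.2.1, S.tr p.g p.1.1 (p.1.2.1 + 1)))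
  let F2 : Set (S.X × (V × V)) := Set.range fun p : S.C4 w =>
    (p.u, (S.tr p.g p.1.1 (p.1.2.1 + 2), S.tr p.g p.1.1 (p.1.2.1 + 1)))
  have hP : ∀ p : S.C4 w, Pn S.P (S.tr p.g p.1.1 p.1.2.1) (S.tr p.g p.1.1 (p.1.2.1 + 1))
      (S.tr p.g p.1.1 (p.1.2.1 + 2)) (S.tr p.g p.1.1 (p.1.2.1 + 3))
      (S.tr p.g p.1.1 (p.1.2.1 + 4)) := fun p => Pn_pt p.g p.1.1 p.1.2.1
  refine ⟨F1 ∪ F2, (Set.finite_range _).union (Set.finite_range _), ?_, ?_⟩
  · rintro _ (⟨p, rfl⟩ | ⟨p, rfl⟩)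
    · exact ⟨_, _, _, hP p, p.sq⟩
    · exact ⟨_, _, _, (hP p).symm, p.sq.swap⟩
  · rintro ⟨u, x, q⟩ ⟨x', y, z, ⟨h, i, j, hp⟩, hs⟩
    have hcase : ∃ v0 v2 v3 v4 : V, (v0 = h • S.P.pt i j ∧ q = h • S.P.pt i (j + 1) ∧
        v2 = h • S.P.pt i (j + 2) ∧ v3 = h • S.P.pt i (j + 3) ∧ v4 = h • S.P.pt i (j + 4)) ∧
        S.Sq w u v0 q v2 v3 v4 ∧ (x = v0 ∨ x = v2) := by
      rcases hp with ⟨h1, h2, h3, h4, h5⟩ | ⟨h1, h2, h3, h4, h5⟩
      · exact ⟨x, x', y, z, ⟨h1, h2, h3, h4, h5⟩, hs, Or.inl rfl⟩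
      · exact ⟨x', x, z, y, ⟨h1, h2, h3, h4, h5⟩, hs.swap, Or.inr rfl⟩
    obtain ⟨v0, v2, v3, v4, ⟨e0, e1, e2, e3, e4⟩, hsq, hx⟩ := hcase
    have hsq' : S.Sq (h⁻¹ • w) (h⁻¹ • u) (S.P.pt i j) (S.P.pt i (j + 1)) (S.P.pt i (j + 2))
        (S.P.pt i (j + 3)) (S.P.pt i (j + 4)) := by
      have := hsq.smul h⁻¹
      rw [e0, e1, e2, e3, e4] at this
      simpa only [inv_smul_smul] using this
    let p : S.C4 w := ⟨(i, j, h⁻¹ • w), ⟨h, smul_inv_smul h w⟩, h⁻¹ • u, hsq'⟩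
    have hg : (h * p.g⁻¹) • w = w := by
      have h1 : p.g • (h⁻¹ • w) = w := p.g_smul
      have h2 : p.g⁻¹ • w = h⁻¹ • w := by
        rw [inv_smul_eq_iff]
        exact h1.symm
      rw [mul_smul, h2, smul_inv_smul]
    have ht : ∀ k, (h * p.g⁻¹) • S.tr p.g i k = h • S.P.pt i k := by
      intro k
      show (h * p.g⁻¹) • p.g • S.P.pt i k = _
      rw [← mul_smul, inv_mul_cancel_right]
    have hu : (h * p.g⁻¹) • p.u = u := by
      have h1 := p.sq.smul (h * p.g⁻¹)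
      rw [hg] at h1
      have h2 := S.dir_eq h1.1 h1.2.2.2.2.1
      have h3 := S.dir_eq hsq.1 hsq.2.2.2.2.1
      have h4 : (h * p.g⁻¹) • S.tr p.g p.1.1 (p.1.2.1 + 3) = v3 := by
        rw [e3]
        exact ht (j + 3)
      rw [h4] at h2
      exact h2.symm.trans h3
    rcases hx with rfl | rfl
    · refine ⟨_, Or.inl ⟨p, rfl⟩, ⟨h * p.g⁻¹, hg⟩, ?_⟩
      refine Prod.ext hu (Prod.ext ?_ ?_)
      · rw [e0]
        exact ht j
      · rw [e1]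
        exact ht (j + 1)
    · refine ⟨_, Or.inr ⟨p, rfl⟩, ⟨h * p.g⁻¹, hg⟩, ?_⟩
      refine Prod.ext hu (Prod.ext ?_ ?_)
      · rw [e2]
        exact ht (j + 2)
      · rw [e1]
        exact ht (j + 1)

theorem nl_smul {w : S.X} (g : ↥(stabilizer H w)) {p : S.X × (V × V)} (h : p ∈ S.nl w) :
    g • p ∈ S.nl w := by
  obtain ⟨x', h⟩ := h
  exact ⟨g.1 • x', h.smul g⟩

theorem ns_smul {w : S.X} (g : ↥(stabilizer H w)) {p : S.X × TV V} (h : p ∈ S.ns w) :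
    g • p ∈ S.ns w := by
  obtain ⟨x, q, x', h, e⟩ := h
  refine ⟨g.1 • x, g.1 • q, g.1 • x', h.smul g, ?_⟩
  show g.1 • p.2 = _
  rw [e, TV.smul_st, Star_smul']
  rfl

theorem fin_ns (w : S.X) : FinOrb ↥(stabilizer H w) (S.ns w) := by
  apply Pool.Agent.SAF.FinOrb.image (fin_nl (S := S) w)
    (fun p => (p.1, TV.st p.2.2 (S.Star w p.1 p.2.2 p.2.1)))
  · rintro ⟨u, t⟩ ⟨x, q, x', h, e⟩
    refine ⟨(u, (x, q)), ⟨x', h⟩, 1, ?_⟩
    rw [one_smul]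
    exact Prod.ext rfl e.symm
  · rintro ⟨u, x, q⟩ _ _ _ ⟨g, rfl⟩
    refine ⟨g, Prod.ext rfl ?_⟩
    show g.1 • TV.st q (S.Star w u q x) = _
    rw [TV.smul_st, Star_smul']
    rfl

end Sys

end Pool.Agent.DI
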