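import Pool.Agent.DI.ELa

/-!
# The E-law: the half-edges of the folded slice

`hk_sub`: every half-edge of the folded slice is of one of five kinds: towards a sink `t_u` from a
passing element (`Tp`) or from a terminal element with a real pole (`Tr1`, `Tr2`: outside of / at a
near star), or towards a real pole (`Rr1`, `Rr2`). Bounds for the numbers of the last four kinds.
-/

namespace Pool.Agent.DI

open MulAction
open Pool.Agent.SAF (InC orbs FinOrb oc Decomp SAn SA Conv hull dist_edge FinOrb_iff exists_next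
  mk_eq_iff oc_le_of_inj oc_le_of_rel oc_le_of_surj oc_mono)
open Pool.Agent.BT (PX PQ JS bey exits lz lz_self lz_ne lz_symm x_next_unique)
open Pool.Agent.BT.TA

namespace Sys

variable {H V : Type} [Group H] [MulAction H V] (S : Sys H V)

/-- terminal elements -/
def Term (w : S.X) (x : V) : Prop := ∀ y, ¬ S.Dn w x y

/-- terminal elements with a real pole -/
def trr (w : S.X) : Set (S.X × (V × V)) := {p | S.D.G.Adj w p.1 ∧ S.Cs w p.1 p.2.1 ∧
  S.K.ar p.2.1 p.2.2 ∧ w ∈ S.J p.2.2 ∧ S.Term w p.2.1 ∧ ¬ S.SD w p.1 p.2.2}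

/-- terminal elements with a real pole outside of the near stars -/
def tr1 (w : S.X) : Set (S.X × (V × V)) := {p | p ∈ S.trr w ∧ p ∉ S.nl w}

/-- terminal elements with a real pole at a near star -/
def tr2 (w : S.X) : Set (S.X × (V × V)) := {p | p ∈ S.trr w ∧ p ∈ S.nl w}

/-- parallel stars -/
def pS (w : S.X) : Set (S.X × TV V) :=
  {p | ∃ x s, (p.1, (x, s)) ∈ S.tr2 w ∧ p.2 = TV.st s (S.Star w p.1 s x)}

/-- good half-edges placed at `w` -/
def rg (w : S.X) : Set (V × V) := {p | p ∈ S.r0 w ∧ S.Term w p.1 ∧ (∀ u, ¬ S.SD w u p.1) ∧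
  (∀ u, ¬ S.DQ w u p.1) ∧ ∀ u, S.D.G.Adj w u → S.Cs w u p.1 → ¬ S.SD w u p.2}

/-- good half-edges outside of the near stars -/
def rg1 (w : S.X) : Set (V × V) := {p | p ∈ S.rg w ∧ ∀ u, (u, p) ∉ S.nl w}

/-- good half-edges at a near star -/
def rg2 (w : S.X) : Set (V × V) := {p | p ∈ S.rg w ∧ ∃ u, (u, p) ∈ S.nl w}

/-- the light world: softs which cross an edge have finite stabilisers -/
def Lt : Prop := ∀ x, (∃ a, S.K.ar x a) → ∀ p q, S.D.G.Adj p q → S.Cs p q x →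
  Finite ↥(stabilizer H x)

variable (hc : S.Conn)

/-- half-edges of the folded slice from passing elements to sinks -/
def Tp (w : S.X) : Set (S.Q w × S.Q w) := {p | p ∈ (S.kf hc w).hal ∧ ∃ u, ∃ hu : S.D.G.Adj w u,
  ∃ x, S.pas w u x ∧ p.1 = S.fq w (S.rho w x) ∧ p.2 = S.fq w (Sum.inr ⟨u, hu⟩)}

/-- half-edges of the folded slice to sinks, from a set of flags -/
def Tg (w : S.X) (A : Set (S.X × (V × V))) : Set (S.Q w × S.Q w) := {p | ∃ f ∈ A,
  ∃ hu : S.D.G.Adj w f.1, p.1 = S.fq w (S.rho w f.2.1) ∧ p.2 = S.fq w (Sum.inr ⟨f.1, hu⟩)}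

/-- half-edges of the folded slice to real poles, from a set of pairs -/
def Rg (w : S.X) (A : Set (V × V)) : Set (S.Q w × S.Q w) := {p | ∃ f ∈ A,
  p.1 = S.fq w (S.rho w f.1) ∧ p.2 = S.fq w (S.rho w f.2)}

variable {S} {hc}

theorem arQ_cases {w : S.X} {c d : S.Q w} (h : S.arQ w c d) : ∃ x, ∃ hx : w ∈ S.J x,
    S.Term w x ∧ (∀ u, ¬ S.Sk w u (Sum.inl ⟨x, hx⟩)) ∧ c = S.fq w (S.rho w x) ∧
      ∀ e, S.arQ w c e ↔ ∃ y, S.SAr w (S.rho w x) y ∧ S.fq w y = e := by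
  obtain ⟨a, rfl, hs, x, rfl, hd⟩ := h
  have ht := Tm_tm (S := S) w x.1
  have hm := ht.mem x.2
  have hf := ht.fq
  rw [S.rho_near x.2] at hf
  have hk : ∀ u, ¬ S.Sk w u (Sum.inl ⟨S.tm w x.1, hm⟩) := by
    intro u hu
    have e : S.fq w (Sum.inl ⟨S.tm w x.1, hm⟩) = S.fq w (Sum.inl x) := by
      rw [← S.rho_near hm]
      exact hf.symm
    exact hs u ((Sk.fq e).1 hu)
  have hf' : S.fq w (Sum.inl x) = S.fq w (S.rho w (S.tm w x.1)) := hf
  refine ⟨S.tm w x.1, hm, ht.term, hk, hf', fun e => ?_⟩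
  rw [hf', S.rho_near hm, arQ_fq, GN_inl hk, (Tm_tm w _).eq_of_term ht.term]
  show (∃ y, S.SAr w (S.rho w (S.tm w x.1)) y ∧ S.fq w y = e) ↔ _
  rw [S.rho_near hm]

theorem sar_cases {w : S.X} {x : V} {y : S.SV w} (h : S.SAr w (S.rho w x) y) :
    w ∈ S.J x ∧ ((∃ a, ∃ ha : w ∈ S.J a, S.K.ar x a ∧ y = Sum.inl ⟨a, ha⟩) ∨
      ∃ u, ∃ hu : S.D.G.Adj w u, u ∈ S.J x ∧ y = Sum.inr ⟨u, hu⟩) := by
  by_cases hx : w ∈ S.J x
  · refine ⟨hx, ?_⟩
    rw [S.rho_near hx] at h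
    cases h with
    | hor _ a e => exact Or.inl ⟨a.1, a.2, e, rfl⟩
    | up _ u e => exact Or.inr ⟨u.1, u.2, e, rfl⟩
  · rw [S.rho_far hx] at h
    cases h

/-- a second point of `J x` gives a crossed edge -/
theorem ex_cross {w p : S.X} {x : V} (hw : w ∈ S.J x) (hp : p ∈ S.J x) (hne : w ≠ p) :
    ∃ u, S.D.G.Adj w u ∧ S.Cs w u x := by
  obtain ⟨u, hu, e⟩ := exists_next S.D.tree hne
  have hb : p ∈ bey S.D.G w u := by
    show S.D.G.dist p w = S.D.G.dist p u + 1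
    rw [SimpleGraph.dist_comm, e, SimpleGraph.dist_comm]
  exact ⟨u, hu, conv_cr S.D.tree (S.js.conv x) hu hw hp (bey_self hu.symm) hb⟩

/-- lightness -/
theorem lt_of {w : S.X} (hl : S.Lt) {x a : V} (hx : w ∈ S.J x) (ha : S.K.ar x a)
    (hf : Finite ↥(stabilizer ↥(stabilizer H w) (S.fq w (S.rho w x)))) :
    Finite ↥(stabilizer H x) := by
  by_cases h : ∃ p, p ∈ S.J x ∧ w ≠ p
  · obtain ⟨p, hp, hne⟩ := h
    obtain ⟨u, hu, hcs⟩ := ex_cross hx hp hne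
    exact hl x ⟨a, ha⟩ w u hu hcs
  · push Not at h
    have hg : ∀ g : ↥(stabilizer H x), g.1 • w = w := by
      intro g
      have h1 := S.js.smul g.1 _ _ hx
      have h2 : g.1 • x = x := g.2
      rw [h2] at h1
      exact (h _ h1).symm
    let f : ↥(stabilizer H x) → ↥(stabilizer ↥(stabilizer H w) (S.fq w (S.rho w x))) := fun g =>
      ⟨⟨g.1, hg g⟩, by
        show (⟨g.1, hg g⟩ : ↥(stabilizer H w)) • S.fq w (S.rho w x) = S.fq w (S.rho w x)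
        rw [← fq_smul, ← S.rho_smul]
        have h2 : g.1 • x = x := g.2
        rw [h2]⟩
    refine Finite.of_injective f ?_
    intro g g' e
    have : (f g).1.1 = (f g').1.1 := by rw [e]
    exact Subtype.ext this

/-- all half-edges of the folded slice -/
theorem hk_sub {w : S.X} (hl : S.Lt) {p : S.Q w × S.Q w} (hp : p ∈ (S.kf hc w).hal) :
    p ∈ S.Tp hc w ∪ ((S.Tg w (S.tr1 w) ∪ S.Tg w (S.tr2 w)) ∪
      (S.Rg w (S.rg1 w) ∪ S.Rg w (S.rg2 w))) := by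
  obtain ⟨c, d⟩ := p
  have hp0 := hp
  obtain ⟨h1, ⟨b, h2, h3⟩, h4⟩ := hp
  have h1 : S.arQ w c d := h1
  have h2 : S.arQ w c b := h2
  have h3 : b ≠ d := h3
  obtain ⟨x, hx, ht, hk, rfl, hN⟩ := arQ_cases h1
  obtain ⟨y, hy, rfl⟩ := (hN d).1 h1
  obtain ⟨y', hy', rfl⟩ := (hN b).1 h2
  obtain ⟨-, ⟨a, ha, e, rfl⟩ | ⟨u, hu, e, rfl⟩⟩ := sar_cases hy
  · -- real pole
    right; right
    have hlight : Finite ↥(stabilizer H x) := lt_of hl hx e h4
    have key : (x, a) ∈ S.rg w := by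
      refine ⟨⟨⟨e, ?_, hlight⟩, hx, ha⟩, ht, ?_, ?_, ?_⟩
      · obtain ⟨-, ⟨a', ha', e', rfl⟩ | ⟨u, hu, e', rfl⟩⟩ := sar_cases hy'
        · refine ⟨a', e', ?_⟩
          rintro rfl
          exact h3 rfl
        · obtain ⟨b, hb, hbb⟩ := S.js.cross x ⟨a, e⟩ w u hu hx e'
          refine ⟨b, hb, ?_⟩
          rintro rfl
          exact bey_not (hbb ha) (bey_self hu.symm)
      · intro u hu
        have hu' : S.D.G.Adj w u := (hu.1.two e).1
        exact hk ⟨u, hu'⟩ (Sk.inl.2 hu)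
      · intro u hD
        obtain ⟨hD, hn⟩ := hD
        obtain ⟨hw, a0, b0, hne, ha0, hb0, hg⟩ := hD
        have hD' : S.Dia w u x := ⟨hw, a0, b0, hne, ha0, hb0, hg⟩
        have hfa : ∀ z, S.K.ar x z → S.fq w (S.rho w z) = S.fq w (S.rho w a0) := by
          intro z hz
          rcases S.K.two x a0 b0 z ha0 hb0 hz with h | h | h
          · exact absurd h hne
          · rw [← h]
            exact (hg.fq hn).symm
          · rw [← h]
        obtain ⟨-, ⟨a', ha', e', rfl⟩ | ⟨u', hu', e', rfl⟩⟩ := sar_cases hy'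
        · apply h3
          have k1 := hfa a' e'
          have k2 := hfa a e
          rw [S.rho_near ha'] at k1
          rw [S.rho_near ha] at k2
          exact k1.trans k2.symm
        · exact hD'.not_cs hu' e'
      · intro u hu hcs hsd
        have k1 : S.fq w (Sum.inl ⟨a, ha⟩) = S.fq w (Sum.inr ⟨u, hu⟩) := fq_inr.2 (Sk.inl.2 hsd)
        have hy2 := sar_up (S := S) hu hcs
        rcases SAr.two _ _ _ _ hy hy2 hy' with h | h | h
        · cases h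
        · apply h3
          rw [← h, k1]
        · apply h3
          rw [← h]
    by_cases hn : ∃ u, (u, (x, a)) ∈ S.nl w
    · right
      exact ⟨(x, a), ⟨key, hn⟩, rfl, by rw [S.rho_near ha]⟩
    · left
      push Not at hn
      exact ⟨(x, a), ⟨key, hn⟩, rfl, by rw [S.rho_near ha]⟩
  · -- a sink
    obtain ⟨-, ⟨s, hs, e', rfl⟩ | ⟨u', hu', e', rfl⟩⟩ := sar_cases hy'
    · right; left
      have hns : ¬ S.SD w u s := by
        intro hsd
        exact h3 (fq_inr.2 (Sk.inl.2 hsd))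
      have key : (u, (x, s)) ∈ S.trr w := ⟨hu, ⟨hx, e⟩, e', hs, ht, hns⟩
      by_cases hn : (u, (x, s)) ∈ S.nl w
      · right
        exact ⟨(u, (x, s)), ⟨key, hn⟩, hu, rfl, rfl⟩
      · left
        exact ⟨(u, (x, s)), ⟨key, hn⟩, hu, rfl, rfl⟩
    · left
      refine ⟨hp0, u, hu, x, ⟨hu, ⟨hx, e⟩, u', hu', ?_, ⟨hx, e'⟩⟩, rfl, rfl⟩
      rintro rfl
      exact h3 rfl

/-! ### finiteness -/

theorem fin_trr (w : S.X) : FinOrb ↥(stabilizer H w) (S.trr w) := by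
  have h := finOrb_rel (G := ↥(stabilizer H w)) (R := fun (p : S.X × V) (s : V) => S.K.ar p.2 s)
    (fin_vf (S := S) w) (fun g p s h => S.K.ar_smul g.1 _ _ h)
    (fun p _ => out_finite S.K.two p.2)
  apply Pool.Agent.SAF.FinOrb.of_inj h (fun p : S.X × (V × V) => ((p.1, p.2.1), p.2.2))
  · rintro ⟨u, x, s⟩ ⟨h1, h2, h3, -⟩
    exact ⟨⟨h1, h2⟩, h3⟩
  · rintro ⟨u, x, s⟩ _ ⟨u', x', s'⟩ _ ⟨g, e⟩
    have e1 := congrArg (fun t => t.1.1) e
    have e2 := congrArg (fun t => t.1.2) e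
    have e3 := congrArg (fun t => t.2) e
    exact ⟨g, Prod.ext e1 (Prod.ext e2 e3)⟩

theorem fin_rg (w : S.X) : FinOrb ↥(stabilizer H w) (S.rg w) := by
  refine Pool.Agent.SAF.FinOrb.mono ?_ (fin_r0 w)
  intro p hp
  exact hp.1

theorem pS_sub (w : S.X) : S.pS w ⊆ S.ns w := by
  rintro ⟨u, t⟩ ⟨x, s, ⟨-, x', h⟩, e⟩
  exact ⟨x, s, x', h, e⟩

theorem fin_pS (w : S.X) : FinOrb ↥(stabilizer H w) (S.pS w) :=
  Pool.Agent.SAF.FinOrb.mono (pS_sub w) (fin_ns w)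

/-! ### bounds -/

theorem inr_smul {w : S.X} (g : ↥(stabilizer H w)) {u u' : S.X} (hu : S.D.G.Adj w u)
    (hu' : S.D.G.Adj w u') (e : g.1 • u = u') :
    S.fq w (Sum.inr ⟨u', hu'⟩) = g • S.fq w (Sum.inr ⟨u, hu⟩) := by
  subst e
  rfl

theorem oc_Tg_le {w : S.X} {A : Set (S.X × (V × V))} (hA : FinOrb ↥(stabilizer H w) A) :
    oc ↥(stabilizer H w) (S.Tg w A) ≤ oc ↥(stabilizer H w) A := by
  apply oc_le_of_rel hA (fun p f => ∃ hu : S.D.G.Adj w f.1, p.1 = S.fq w (S.rho w f.2.1) ∧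
    p.2 = S.fq w (Sum.inr ⟨f.1, hu⟩))
  · rintro p ⟨f, hf, hu, h1, h2⟩
    exact ⟨f, hf, hu, h1, h2⟩
  · rintro p _ p' _ f _ f' _ ⟨hu, h1, h2⟩ ⟨hu', h1', h2'⟩ ⟨g, rfl⟩
    refine ⟨g, Prod.ext ?_ ?_⟩
    · show g • p.1 = p'.1
      rw [h1, h1', ← fq_smul, ← S.rho_smul]
      rfl
    · show g • p.2 = p'.2
      rw [h2, h2']
      exact (inr_smul g hu hu' rfl).symm

theorem oc_Rg_le {w : S.X} {A : Set (V × V)} (hA : FinOrb ↥(stabilizer H w) A) :
    oc ↥(stabilizer H w) (S.Rg w A) ≤ oc ↥(stabilizer H w) A := by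
  apply oc_le_of_rel hA (fun p f => p.1 = S.fq w (S.rho w f.1) ∧ p.2 = S.fq w (S.rho w f.2))
  · rintro p ⟨f, hf, h1, h2⟩
    exact ⟨f, hf, h1, h2⟩
  · rintro p _ p' _ f _ f' _ ⟨h1, h2⟩ ⟨h1', h2'⟩ ⟨g, rfl⟩
    refine ⟨g, Prod.ext ?_ ?_⟩
    · show g • p.1 = p'.1
      rw [h1, h1', ← fq_smul, ← S.rho_smul]
      rfl
    · show g • p.2 = p'.2
      rw [h2, h2', ← fq_smul, ← S.rho_smul]
      rfl

/-- the class of a member of a star which is merged -/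
theorem fq_star {w u : S.X} {s x x' : V} (hn : ¬ S.SD w u s)
    (h : TV.st s (S.Star w u s x) = TV.st s (S.Star w u s x')) :
    S.fq w (S.rho w x) = S.fq w (S.rho w x') := by
  have h1 : S.Star w u s x = S.Star w u s x' := by
    injection h
  exact Gc.fq (Star_eq_iff.1 h1) hn

theorem oc_Tg2_le (w : S.X) :
    oc ↥(stabilizer H w) (S.Tg w (S.tr2 w)) ≤ oc ↥(stabilizer H w) (S.pS w) := by
  apply oc_le_of_rel (fin_pS w) (fun p f => ∃ hu : S.D.G.Adj w f.1, ∃ x s,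
    (f.1, (x, s)) ∈ S.tr2 w ∧ f.2 = TV.st s (S.Star w f.1 s x) ∧ p.1 = S.fq w (S.rho w x) ∧
    p.2 = S.fq w (Sum.inr ⟨f.1, hu⟩))
  · rintro p ⟨⟨u, x, s⟩, hf, hu, h1, h2⟩
    exact ⟨(u, TV.st s (S.Star w u s x)), ⟨x, s, hf, rfl⟩, hu, x, s, hf, rfl, h1, h2⟩
  · rintro p _ p' _ ⟨u, t⟩ _ ⟨u', t'⟩ _ ⟨hu, x, s, hf, e, h1, h2⟩ ⟨hu', x', s', hf', e', h1', h2'⟩
      ⟨g, hg⟩
    have g1 : g.1 • u = u' := congrArg Prod.fst hg
    have g2 : g.1 • t = t' := congrArg Prod.snd hg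
    have e : t = TV.st s (S.Star w u s x) := e
    have e' : t' = TV.st s' (S.Star w u' s' x') := e'
    rw [e, e', TV.smul_st, Star_smul'] at g2
    have g3 : g.1 • s = s' := by injection g2
    rw [g3, g1] at g2
    refine ⟨g, Prod.ext ?_ ?_⟩
    · show g • p.1 = p'.1
      rw [h1, h1', ← fq_smul, ← S.rho_smul]
      exact fq_star hf'.1.2.2.2.2.2 g2
    · show g • p.2 = p'.2
      rw [h2, h2']
      exact (inr_smul g hu hu' g1).symm

/-- good half-edges at near stars are terminal elements with a real pole -/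
theorem tr2_of_rg {w u : S.X} {x a : V} (h : (x, a) ∈ S.rg w) (hn : (u, (x, a)) ∈ S.nl w) :
    (u, (x, a)) ∈ S.tr2 w := by
  obtain ⟨⟨⟨h1, -, -⟩, h2, h3⟩, h4, h5, h6, h7⟩ := h
  obtain ⟨x', hx'⟩ := hn
  exact ⟨⟨hx'.adj, hx'.l, h1, h3, h4, h7 u hx'.adj hx'.l⟩, x', hx'⟩

theorem oc_Rg2_le (w : S.X) :
    oc ↥(stabilizer H w) (S.Rg w (S.rg2 w)) ≤ oc ↥(stabilizer H w) (S.pS w) := by
  apply oc_le_of_rel (fin_pS w) (fun p f => ∃ x s,
    (f.1, (x, s)) ∈ S.tr2 w ∧ f.2 = TV.st s (S.Star w f.1 s x) ∧ p.1 = S.fq w (S.rho w x) ∧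
    p.2 = S.fq w (S.rho w s))
  · rintro p ⟨⟨x, s⟩, ⟨hf, u, hn⟩, h1, h2⟩
    have h3 := tr2_of_rg hf hn
    exact ⟨(u, TV.st s (S.Star w u s x)), ⟨x, s, h3, rfl⟩, x, s, h3, rfl, h1, h2⟩
  · rintro p _ p' _ ⟨u, t⟩ _ ⟨u', t'⟩ _ ⟨x, s, hf, e, h1, h2⟩ ⟨x', s', hf', e', h1', h2'⟩ ⟨g, hg⟩
    have g1 : g.1 • u = u' := congrArg Prod.fst hg
    have g2 : g.1 • t = t' := congrArg Prod.snd hg
    have e : t = TV.st s (S.Star w u s x) := e
    have e' : t' = TV.st s' (S.Star w u' s' x') := e'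
    rw [e, e', TV.smul_st, Star_smul'] at g2
    have g3 : g.1 • s = s' := by injection g2
    rw [g3, g1] at g2
    refine ⟨g, Prod.ext ?_ ?_⟩
    · show g • p.1 = p'.1
      rw [h1, h1', ← fq_smul, ← S.rho_smul]
      exact fq_star hf'.1.2.2.2.2.2 g2
    · show g • p.2 = p'.2
      rw [h2, h2', ← fq_smul, ← S.rho_smul]
      rw [g3]

end Sys

end Pool.Agent.DI
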