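import Pool.Agent.DI.ELb

/-!
# The E-law: the graph `Theta`

`Theta w`: the finite multigraph of the orbits of flags. `Tp_le`: the number of orbits of half-edges of
the folded slice from passing elements to sinks is at most
`b1 + vp + 2 sP - 2 lP + dQf - lD` (passing flags, near passing stars and their lines, DQ's and their
lines).
-/

namespace Pool.Agent.DI

open MulAction
open Pool.Agent.SAF (InC orbs FinOrb oc Decomp SAn SA Conv hull dist_edge FinOrb_iff exists_next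
  mk_eq_iff oc_le_of_inj oc_le_of_rel oc_le_of_surj oc_mono exists_rep)
open Pool.Agent.BT (PX PQ JS bey exits lz lz_self lz_ne lz_symm x_next_unique)
open Pool.Agent.BT.TA

/-- the element or the centre -/
def TV.pt {V : Type} : TV V → V
  | TV.el x => x
  | TV.st q _ => q

namespace Sys

variable {H V : Type} [Group H] [MulAction H V] (S : Sys H V)

/-- passing flags -/
def vp (w : S.X) : Set (S.X × V) := {p | S.pas w p.1 p.2}

/-- lines at near passing stars -/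
def lP (w : S.X) : Set (S.X × (V × V)) := {p | w ∉ S.J p.2.2 ∧ ∃ x', S.Qs w p.1 p.2.2 p.2.1 x'}

/-- near passing stars -/
def sP (w : S.X) : Set (S.X × TV V) := {p | ∃ x q x', w ∉ S.J q ∧ S.Qs w p.1 q x x' ∧
  p.2 = TV.st q (S.Star w p.1 q x)}

/-- lines at far passing stars -/
def lF (w : S.X) : Set (S.X × (V × V)) := {p | ∃ u', u' ≠ p.1 ∧ S.D.G.Adj w p.1 ∧
  (∃ x', S.Qs w u' p.2.2 p.2.1 x') ∧ S.J p.2.2 ⊆ bey S.D.G w p.1}

/-- far passing stars -/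
def sF (w : S.X) : Set (S.X × TV V) := {p | ∃ x q u', u' ≠ p.1 ∧ S.D.G.Adj w p.1 ∧
  (∃ x', S.Qs w u' q x x') ∧ S.J q ⊆ bey S.D.G w p.1 ∧ p.2 = TV.st q (S.Star w u' q x)}

/-- lines at DQ's -/
def lD (w : S.X) : Set (S.X × (V × V)) := {p | S.DQ w p.1 p.2.2 ∧ S.K.ar p.2.2 p.2.1}

/-- DQ's -/
def dQf (w : S.X) : Set (S.X × V) := {p | S.DQ w p.1 p.2}

variable {S}

/-! ### classes at a star -/

theorem Dia.near {w u : S.X} {q a : V} (h : S.Dia w u q) (ha : S.K.ar q a) :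
    ∃ x', S.Qs w u q a x' := by
  obtain ⟨hw, a0, b0, hne, ha0, hb0, hg⟩ := h
  have h1 := (eqv_jn hg hne)
  rcases S.K.two q a0 b0 a ha0 hb0 ha with e | e | e
  · exact absurd e hne
  · rw [← e]
    exact h1.2
  · rw [← e]
    exact h1.1

theorem Dia.gc {w u : S.X} {q a b : V} (h : S.Dia w u q) (ha : S.K.ar q a) (hb : S.K.ar q b) :
    S.Gc w u q a b := by
  obtain ⟨hw, a0, b0, hne, ha0, hb0, hg⟩ := h
  rcases S.K.two q a0 b0 a ha0 hb0 ha with e | e | e <;>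
    rcases S.K.two q a0 b0 b ha0 hb0 hb with e' | e' | e'
  · exact absurd e hne
  · exact absurd e hne
  · exact absurd e hne
  · exact absurd e' hne
  · rw [← e, ← e']; exact Relation.EqvGen.refl _
  · rw [← e, ← e']; exact hg.symm'
  · exact absurd e' hne
  · rw [← e, ← e']; exact hg
  · rw [← e, ← e']; exact Relation.EqvGen.refl _

theorem ThO_el_st {w u : S.X} {x q : V} {C : Set V} (h : S.ThO w u (TV.el x) (TV.st q C)) :
    (w ∉ S.J q ∧ (∃ x', S.Qs w u q x x') ∧ C = S.Star w u q x) ∨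
    (∃ u', u' ≠ u ∧ S.D.G.Adj w u ∧ (∃ x', S.Qs w u' q x x') ∧ S.J q ⊆ bey S.D.G w u ∧
      C = S.Star w u' q x) ∨ (S.DQ w u q ∧ S.K.ar q x ∧ C = ∅) := by
  obtain ⟨y, p, e, h⟩ := h
  obtain rfl : x = y := by injection e
  rcases h with ⟨h1, h2, e'⟩ | ⟨u', h1, h2, h3, h4, e'⟩ | ⟨h1, h2, e'⟩
  · have e1 : q = p := by injection e'
    subst e1
    have e2 : C = S.Star w u q x := by injection e'
    exact Or.inl ⟨h1, h2, e2⟩
  · have e1 : q = p := by injection e'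
    subst e1
    have e2 : C = S.Star w u' q x := by injection e'
    exact Or.inr (Or.inl ⟨u', h1, h2, h3, h4, e2⟩)
  · have e1 : q = p := by injection e'
    subst e1
    have e2 : C = ∅ := by injection e'
    exact Or.inr (Or.inr ⟨h1, h2, e2⟩)

theorem near_far {w u : S.X} {q x x' : V} (h : S.Qs w u q x x') :
    ¬ S.J q ⊆ bey S.D.G w u := by
  intro k
  obtain ⟨p, hp⟩ := S.js.ne q
  exact bey_not (h.near hp) (k hp)

/-- elements at one star of `Theta` are in one class -/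
theorem ThO_cls {w u : S.X} {x x' q : V} {C : Set V} (h : S.ThO w u (TV.el x) (TV.st q C))
    (h' : S.ThO w u (TV.el x') (TV.st q C)) : S.fq w (S.rho w x) = S.fq w (S.rho w x') := by
  have nsd : ∀ v, w ∉ S.J q → ¬ S.SD w v q := fun v hq k => hq k.1.1
  rcases ThO_el_st h with ⟨h1, ⟨a, h2⟩, rfl⟩ | ⟨v, h1, h2, ⟨a, h3⟩, h4, rfl⟩ | ⟨h1, h2, rfl⟩ <;>
    rcases ThO_el_st h' with ⟨h1', ⟨a', h2'⟩, e⟩ | ⟨v', h1', h2', ⟨a', h3'⟩, h4', e⟩ |
      ⟨h1', h2', e⟩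
  · exact Gc.fq (Star_eq_iff.1 e) (nsd _ h1)
  · exact absurd h4' (near_far h2)
  · have := self_Star (S := S) w u q x
    rw [e] at this
    exact this.elim
  · exact absurd h4 (near_far h2')
  · have h5 : x' ∈ S.Star w v q x := by
      rw [e]
      exact self_Star _ _ _ _
    exact Gc.fq h5 (nsd _ (S.not_mem_of_bey h2 h4))
  · have := self_Star (S := S) w v q x
    rw [e] at this
    exact this.elim
  · have := self_Star (S := S) w u q x'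
    rw [← e] at this
    exact this.elim
  · have := self_Star (S := S) w v' q x'
    rw [← e] at this
    exact this.elim
  · exact Gc.fq (h1.1.gc h2 h2') h1.2

/-- the star of a line of `Theta` is determined -/
theorem ThO_unique {w u : S.X} {x q : V} {C C' : Set V} (h : S.ThO w u (TV.el x) (TV.st q C))
    (h' : S.ThO w u (TV.el x) (TV.st q C')) : C = C' := by
  rcases ThO_el_st h with ⟨h1, ⟨a, h2⟩, rfl⟩ | ⟨v, h1, h2, ⟨a, h3⟩, h4, rfl⟩ | ⟨h1, h2, rfl⟩ <;>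
    rcases ThO_el_st h' with ⟨h1', ⟨a', h2'⟩, rfl⟩ | ⟨v', h1', h2', ⟨a', h3'⟩, h4', rfl⟩ |
      ⟨h1', h2', rfl⟩
  · rfl
  · exact absurd h4' (near_far h2)
  · exact absurd h1'.1.1 h1
  · exact absurd h4 (near_far h2')
  · have hp := (far_pas h1 h2 h3 h4).1.2.1
    have := S.js.two x w h3.l.1 (Sum.inr v) (Or.inr ⟨v, rfl, h3.adj, h3.l.2⟩) (Sum.inr v')
      (Or.inr ⟨v', rfl, h3'.adj, h3'.l.2⟩) (Sum.inr u) (Or.inr ⟨u, rfl, h2, hp.2⟩)
    rcases this with k | k | k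
    · rw [Sum.inr.inj k]
    · exact absurd (Sum.inr.inj k) h1
    · exact absurd (Sum.inr.inj k) h1'
  · exact absurd h1'.1.1 (S.not_mem_of_bey h2 h4)
  · exact absurd h1.1.1 h1'
  · exact absurd h1.1.1 (S.not_mem_of_bey h2' h4')
  · rfl

/-! ### finiteness -/

theorem lP_sub (w : S.X) : S.lP w ⊆ S.nl w := fun _ h => h.2

theorem sP_sub (w : S.X) : S.sP w ⊆ S.ns w := by
  rintro p ⟨x, q, x', -, h, e⟩
  exact ⟨x, q, x', h, e⟩

theorem lD_sub (w : S.X) : S.lD w ⊆ S.nl w := fun _ h => h.1.1.near h.2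

theorem fin_vp (w : S.X) : FinOrb ↥(stabilizer H w) (S.vp w) := by
  refine Pool.Agent.SAF.FinOrb.mono ?_ (fin_vf w)
  intro p hp
  exact ⟨hp.1, hp.2.1⟩

theorem fin_lP (w : S.X) : FinOrb ↥(stabilizer H w) (S.lP w) :=
  Pool.Agent.SAF.FinOrb.mono (lP_sub w) (fin_nl w)

theorem fin_sP (w : S.X) : FinOrb ↥(stabilizer H w) (S.sP w) :=
  Pool.Agent.SAF.FinOrb.mono (sP_sub w) (fin_ns w)

theorem fin_lD (w : S.X) : FinOrb ↥(stabilizer H w) (S.lD w) :=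
  Pool.Agent.SAF.FinOrb.mono (lD_sub w) (fin_nl w)

theorem dir_smul' {w : S.X} (g : ↥(stabilizer H w)) {q : V} (hq : w ∉ S.J q) :
    S.dir w (g.1 • q) = g.1 • S.dir w q := by
  have := S.dir_smul g.1 hq
  rwa [stab_w g] at this

theorem fin_lF (w : S.X) : FinOrb ↥(stabilizer H w) (S.lF w) := by
  apply Pool.Agent.SAF.FinOrb.image (fin_lP (S := S) w) (fun p => (S.dir w p.2.2, p.2))
  · rintro ⟨u, x, q⟩ ⟨u', h1, h2, h3, h4⟩
    obtain ⟨x', h3'⟩ := h3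
    have h5 := far_pas h1 h2 h3' h4
    refine ⟨(u', (x, q)), ⟨h5.2.1, x', h3'⟩, 1, ?_⟩
    rw [one_smul]
    exact Prod.ext h5.2.2 rfl
  · rintro ⟨u, x, q⟩ ⟨h1, -⟩ _ _ ⟨g, rfl⟩
    exact ⟨g, Prod.ext (dir_smul' g h1).symm rfl⟩

theorem fin_sF (w : S.X) : FinOrb ↥(stabilizer H w) (S.sF w) := by
  apply Pool.Agent.SAF.FinOrb.image (fin_lP (S := S) w)
    (fun p => (S.dir w p.2.2, TV.st p.2.2 (S.Star w p.1 p.2.2 p.2.1)))
  · rintro ⟨u, t⟩ ⟨x, q, u', h1, h2, h3, h4, e⟩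
    obtain ⟨x', h3'⟩ := h3
    have h5 := far_pas h1 h2 h3' h4
    refine ⟨(u', (x, q)), ⟨h5.2.1, x', h3'⟩, 1, ?_⟩
    rw [one_smul]
    exact Prod.ext h5.2.2 e.symm
  · rintro ⟨u, x, q⟩ ⟨h1, -⟩ _ _ ⟨g, rfl⟩
    refine ⟨g, Prod.ext (dir_smul' g h1).symm ?_⟩
    show g.1 • TV.st q (S.Star w u q x) = _
    rw [TV.smul_st, Star_smul']
    rfl

theorem fin_dQf (w : S.X) : FinOrb ↥(stabilizer H w) (S.dQf w) := by
  apply Pool.Agent.SAF.FinOrb.image (fin_lD (S := S) w) (fun p => (p.1, p.2.2))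
  · rintro ⟨u, q⟩ h
    obtain ⟨hw, a, b, hne, ha, -⟩ := h.1
    exact ⟨(u, (a, q)), ⟨h, ha⟩, 1, one_smul _ _⟩
  · rintro ⟨u, x, q⟩ _ _ _ ⟨g, rfl⟩
    exact ⟨g, rfl⟩

/-! ### the multigraph -/

theorem fin_ThT (w : S.X) : FinOrb ↥(stabilizer H w) (S.ThT w : Set (S.X × TV V)) := by
  have h1 : FinOrb ↥(stabilizer H w) {p : S.X × TV V | ∃ x, p.2 = TV.el x ∧ S.pas w p.1 x} := by
    apply Pool.Agent.SAF.FinOrb.image (fin_vp (S := S) w) (fun p => (p.1, TV.el p.2))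
    · rintro ⟨u, t⟩ ⟨x, e, h⟩
      refine ⟨(u, x), h, 1, ?_⟩
      rw [one_smul]
      exact Prod.ext rfl e.symm
    · rintro ⟨u, x⟩ _ _ _ ⟨g, rfl⟩
      exact ⟨g, rfl⟩
  have h2 : FinOrb ↥(stabilizer H w) {p : S.X × TV V | ∃ q, p.2 = TV.st q ∅ ∧ (p.1, q) ∈ S.dQf w} := by
    apply Pool.Agent.SAF.FinOrb.image (fin_dQf (S := S) w) (fun p => (p.1, TV.st p.2 ∅))
    · rintro ⟨u, t⟩ ⟨q, e, h⟩
      refine ⟨(u, q), h, 1, ?_⟩
      rw [one_smul]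
      exact Prod.ext rfl e.symm
    · rintro ⟨u, x⟩ _ _ _ ⟨g, rfl⟩
      refine ⟨g, Prod.ext rfl ?_⟩
      show g.1 • TV.st x ∅ = _
      rw [TV.smul_st, Set.image_empty]
      rfl
  refine Pool.Agent.SAF.FinOrb.mono ?_ (finOrb_union (finOrb_union h1 h2)
    (finOrb_union (fin_sP (S := S) w) (fin_sF (S := S) w)))
  rintro ⟨u, t⟩ (⟨x, rfl, h⟩ | ⟨t', x, q, rfl, h⟩)
  · exact Or.inl (Or.inl ⟨x, rfl, h⟩)
  · rcases h with ⟨h1, ⟨x', h2⟩, e⟩ | ⟨u', h1, h2, h3, h4, e⟩ | ⟨h1, h2, e⟩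
    · exact Or.inr (Or.inl ⟨x, q, x', h1, h2, e⟩)
    · exact Or.inr (Or.inr ⟨x, q, u', h1, h2, h3, h4, e⟩)
    · exact Or.inl (Or.inr ⟨q, e, h1⟩)

theorem fin_oS (w : S.X) : FinOrb ↥(stabilizer H w)
    (oS (J := ↥(stabilizer H w)) (S.ThR w) (fun g _ _ => ThR.smul g) : Set (↥(S.ThT w) × ↥(S.ThT w))) := by
  apply Pool.Agent.SAF.FinOrb.of_inj (finOrb_union (finOrb_union (fin_lP (S := S) w)
    (fin_lF (S := S) w)) (fin_lD (S := S) w))
    (fun l : ↥(S.ThT w) × ↥(S.ThT w) => (l.1.1.1, (l.1.1.2.pt, l.2.1.2.pt)))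
  · rintro ⟨⟨⟨u, t⟩, ht⟩, ⟨⟨u', s⟩, hs⟩⟩ ⟨e, h⟩
    have e : u = u' := e
    subst e
    have h : S.ThO w u t s := h
    obtain ⟨x, q, rfl, ⟨h1, h2, rfl⟩ | ⟨u', h1, h2, h3, h4, rfl⟩ | ⟨h1, h2, rfl⟩⟩ := h
    · exact Or.inl (Or.inl ⟨h1, h2⟩)
    · exact Or.inl (Or.inr ⟨u', h1, h2, h3, h4⟩)
    · exact Or.inr ⟨h1, h2⟩
  · rintro ⟨⟨⟨u, t⟩, ht⟩, ⟨⟨u1, s⟩, hs⟩⟩ ⟨e, h⟩ ⟨⟨⟨u', t'⟩, ht'⟩, ⟨⟨u1', s'⟩, hs'⟩⟩ ⟨e', h'⟩ ⟨g, hg⟩
    have e : u = u1 := e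
    subst e
    have e' : u' = u1' := e'
    subst e'
    have h : S.ThO w u t s := h
    have h' : S.ThO w u' t' s' := h'
    have hO := h.smul g
    have hO' := h'
    have hs1 : ∃ x q C, t = TV.el x ∧ s = TV.st q C := by
      obtain ⟨x, q, e, h⟩ := h
      rcases h with ⟨-, -, e'⟩ | ⟨_, -, -, -, -, e'⟩ | ⟨-, -, e'⟩ <;> exact ⟨x, q, _, e, e'⟩
    have hs2 : ∃ x q C, t' = TV.el x ∧ s' = TV.st q C := by
      obtain ⟨x, q, e, h⟩ := h'
      rcases h with ⟨-, -, e'⟩ | ⟨_, -, -, -, -, e'⟩ | ⟨-, -, e'⟩ <;> exact ⟨x, q, _, e, e'⟩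
    obtain ⟨x, q, C, rfl, rfl⟩ := hs1
    obtain ⟨x', q', C', rfl, rfl⟩ := hs2
    have g1 : g.1 • u = u' := congrArg Prod.fst hg
    have g2 : g.1 • x = x' := congrArg (fun p => p.2.1) hg
    have g3 : g.1 • q = q' := congrArg (fun p => p.2.2) hg
    have hO : S.ThO w (g.1 • u) (TV.el (g.1 • x)) (TV.st (g.1 • q) ((fun z => g.1 • z) '' C)) := hO
    rw [g1, g2, g3] at hO
    have hC := ThO_unique hO hO'
    refine ⟨g, Prod.ext (Subtype.ext (Prod.ext g1 ?_)) (Subtype.ext (Prod.ext g1 ?_))⟩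
    · show TV.el (g.1 • x) = TV.el x'
      rw [g2]
    · show TV.st (g.1 • q) ((fun z => g.1 • z) '' C) = TV.st q' C'
      rw [g3, hC]

variable (S)

/-- `Theta` as a graph with action -/
def ThM (w : S.X) : JM ↥(stabilizer H w) ↥(S.ThT w)
    ↥(oS (J := ↥(stabilizer H w)) (S.ThR w) (fun g _ _ => ThR.smul g)) :=
  JM.ofO (S.ThR w) (fun g _ _ => ThR.smul g) (finite_orb_sub _ (fin_ThT w))
    (finite_orb_sub _ (fin_oS w))

variable {S}

theorem ThM_nN (w : S.X) :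
    (S.ThM w).fg.nN = oc ↥(stabilizer H w) (S.ThT w : Set (S.X × TV V)) := card_orb_sub _

theorem ThM_nL (w : S.X) : (S.ThM w).fg.nL = oc ↥(stabilizer H w)
    (oS (J := ↥(stabilizer H w)) (S.ThR w) (fun g _ _ => ThR.smul g) :
      Set (↥(S.ThT w) × ↥(S.ThT w))) := card_orb_sub _

end Sys

end Pool.Agent.DI
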