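import Pool.Agent.DI.ELc

/-!
# The E-law: half-edges from passing elements

`Tp_le`: the number of orbits of the half-edges of the folded slice from passing elements to sinks is at
most `b1 (Theta) + vp + 2 sP - 2 lP + dQf - lD`.
-/

namespace Pool.Agent.DI

open MulAction
open Pool.Agent.SAF (InC orbs FinOrb oc Decomp SAn SA Conv hull dist_edge FinOrb_iff exists_next
  mk_eq_iff oc_le_of_inj oc_le_of_rel oc_le_of_surj oc_mono exists_rep)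
open Pool.Agent.BT (PX PQ JS bey exits lz lz_self lz_ne lz_symm x_next_unique)
open Pool.Agent.BT.TA

namespace Sys

variable {H V : Type} [Group H] [MulAction H V] {S : Sys H V}

/-- the classes at a vertex of `Theta` -/
def Pv (w : S.X) (a : ↥(S.ThT w)) : Set (S.Q w × S.X) := {p | p.2 = a.1.1 ∧
  ((∃ x, a.1.2 = TV.el x ∧ p.1 = S.fq w (S.rho w x)) ∨
    ∃ x, S.ThO w a.1.1 (TV.el x) a.1.2 ∧ p.1 = S.fq w (S.rho w x))}

theorem not_ThO_el {w u : S.X} {t : TV V} {x : V} : ¬ S.ThO w u t (TV.el x) := by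
  rintro ⟨y, q, -, ⟨-, -, e⟩ | ⟨_, -, -, -, -, e⟩ | ⟨-, -, e⟩⟩ <;> cases e

theorem Pv_eq {w : S.X} {a b : ↥(S.ThT w)} (h : S.ThR w a b) : Pv w a = Pv w b := by
  obtain ⟨⟨u, t⟩, ht⟩ := a
  obtain ⟨⟨u', s⟩, hs⟩ := b
  obtain ⟨e, h⟩ := h
  have e : u = u' := e
  subst e
  have h : S.ThO w u t s := h
  have hs2 : ∃ x q C, t = TV.el x ∧ s = TV.st q C := by
    obtain ⟨x, q, e, h⟩ := h
    rcases h with ⟨-, -, e'⟩ | ⟨_, -, -, -, -, e'⟩ | ⟨-, -, e'⟩ <;> exact ⟨x, q, _, e, e'⟩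
  obtain ⟨x, q, C, rfl, rfl⟩ := hs2
  ext ⟨c, v⟩
  constructor
  · rintro ⟨e, ⟨x', e', e''⟩ | ⟨x', h', e''⟩⟩
    · have e' : TV.el x = TV.el x' := e'
      have e1 : x = x' := by injection e'
      subst e1
      exact ⟨e, Or.inr ⟨x, h, e''⟩⟩
    · exact absurd h' not_ThO_el
  · rintro ⟨e, ⟨x', e', e''⟩ | ⟨x', h', e''⟩⟩
    · cases e'
    · refine ⟨e, Or.inl ⟨x, rfl, ?_⟩⟩
      have e'' : c = S.fq w (S.rho w x') := e''
      show c = _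
      rw [e'']
      exact (ThO_cls h h').symm

theorem Pv_eqv {w : S.X} {a b : ↥(S.ThT w)} (h : Relation.EqvGen (S.ThM w).st a b) :
    Pv w a = Pv w b := by
  induction h with
  | rel a b h => exact Pv_eq (JM.ofO_st a b |>.1 h)
  | refl a => rfl
  | symm a b _ ih => exact ih.symm
  | trans a b c _ _ i1 i2 => exact i1.trans i2

/-- the number of half-edges from passing elements is at most the number of components of `Theta` -/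
theorem Tp_le_nC (hc : S.Conn) (w : S.X) :
    oc ↥(stabilizer H w) (S.Tp hc w) ≤ (S.ThM w).fg.nC := by
  classical
  obtain ⟨r, hr⟩ := exists_rep (H := ↥(stabilizer H w)) (S.Tp hc w)
  have h1 : Nat.card ↥(orbs ↥(stabilizer H w) (S.Tp hc w)) = oc ↥(stabilizer H w) (S.Tp hc w) :=
    Nat.card_coe_set_eq _
  rw [← h1]
  have hex : ∀ o : ↥(orbs ↥(stabilizer H w) (S.Tp hc w)), ∃ a : ↥(S.ThT w), ∃ x,
      a.1.2 = TV.el x ∧ (r o.1).1 = S.fq w (S.rho w x) ∧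
        ∃ hu, (r o.1).2 = S.fq w (Sum.inr ⟨a.1.1, hu⟩) := by
    rintro ⟨o, ho⟩
    obtain ⟨-, u, hu, x, hp, e1, e2⟩ := (hr o ho).1
    exact ⟨⟨(u, TV.el x), Or.inl ⟨x, rfl, hp⟩⟩, x, rfl, e1, hu, e2⟩
  choose a x ha hx hu hy using hex
  refine Nat.card_le_card_of_injective (fun o => (S.ThM w).fg.c (oq ↥(stabilizer H w) (a o))) ?_
  intro o o' e
  obtain ⟨g, hg⟩ := (S.ThM w).c_eq_iff.1 e
  have hP := Pv_eqv hg
  have h2 : (S.fq w (S.rho w (x o)), (a o).1.1) ∈ Pv w (a o) := ⟨rfl, Or.inl ⟨x o, ha o, rfl⟩⟩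
  rw [hP] at h2
  obtain ⟨e1, h2⟩ := h2
  have e1 : (a o).1.1 = g.1 • (a o').1.1 := e1
  have e3 : S.fq w (S.rho w (x o)) = g • S.fq w (S.rho w (x o')) := by
    rcases h2 with ⟨y, h3, h4⟩ | ⟨y, h3, h4⟩
    · have h3 : g.1 • (a o').1.2 = TV.el y := h3
      rw [ha o', TV.smul_el] at h3
      have h5 : g.1 • x o' = y := by injection h3
      have h4 : S.fq w (S.rho w (x o)) = S.fq w (S.rho w y) := h4
      rw [h4, ← h5, S.rho_smul, fq_smul]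
    · exfalso
      have h3 : S.ThO w (g.1 • (a o').1.1) (TV.el y) (g.1 • (a o').1.2) := h3
      rw [ha o', TV.smul_el] at h3
      exact not_ThO_el h3
  have e4 : r o.1 = g • r o'.1 := by
    refine Prod.ext ?_ ?_
    · show (r o.1).1 = g • (r o'.1).1
      rw [hx o, hx o', e3]
    · show (r o.1).2 = g • (r o'.1).2
      rw [hy o, hy o']
      exact inr_smul g (hu o') (hu o) e1.symm
  apply Subtype.ext
  rw [← (hr o.1 o.2).2, ← (hr o'.1 o'.2).2]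
  exact mk_eq_iff.2 ⟨g, e4.symm⟩

/-! ### vertices and lines of `Theta` -/

theorem ThM_nN_le (w : S.X) : (S.ThM w).fg.nN ≤ oc ↥(stabilizer H w) (S.vp w) +
    oc ↥(stabilizer H w) (S.sP w) + oc ↥(stabilizer H w) (S.sF w) +
    oc ↥(stabilizer H w) (S.dQf w) := by
  rw [ThM_nN]
  let A1 : Set (S.X × TV V) := {p | ∃ x, p.2 = TV.el x ∧ S.pas w p.1 x}
  let A2 : Set (S.X × TV V) := {p | ∃ q, p.2 = TV.st q ∅ ∧ (p.1, q) ∈ S.dQf w}
  have h1 : oc ↥(stabilizer H w) A1 ≤ oc ↥(stabilizer H w) (S.vp w) := by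
    apply oc_le_of_rel (fin_vp w) (fun p f => p.1 = f.1 ∧ p.2 = TV.el f.2)
    · rintro ⟨u, t⟩ ⟨x, e, h⟩
      exact ⟨(u, x), h, rfl, e⟩
    · rintro ⟨u, t⟩ _ ⟨u', t'⟩ _ ⟨v, x⟩ _ ⟨v', x'⟩ _ ⟨e1, e2⟩ ⟨e1', e2'⟩ ⟨g, hg⟩
      have e1 : u = v := e1
      have e2 : t = TV.el x := e2
      have e1' : u' = v' := e1'
      have e2' : t' = TV.el x' := e2'
      subst e1 e1' e2 e2'
      have hg1 : g.1 • u = u' := congrArg Prod.fst hg
      have hg2 : g.1 • x = x' := congrArg Prod.snd hg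
      refine ⟨g, Prod.ext hg1 ?_⟩
      show TV.el (g.1 • x) = TV.el x'
      rw [hg2]
  have h2 : oc ↥(stabilizer H w) A2 ≤ oc ↥(stabilizer H w) (S.dQf w) := by
    apply oc_le_of_rel (fin_dQf w) (fun p f => p.1 = f.1 ∧ p.2 = TV.st f.2 ∅)
    · rintro ⟨u, t⟩ ⟨x, e, h⟩
      exact ⟨(u, x), h, rfl, e⟩
    · rintro ⟨u, t⟩ _ ⟨u', t'⟩ _ ⟨v, x⟩ _ ⟨v', x'⟩ _ ⟨e1, e2⟩ ⟨e1', e2'⟩ ⟨g, hg⟩
      have e1 : u = v := e1
      have e2 : t = TV.st x ∅ := e2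
      have e1' : u' = v' := e1'
      have e2' : t' = TV.st x' ∅ := e2'
      subst e1 e1' e2 e2'
      have hg1 : g.1 • u = u' := congrArg Prod.fst hg
      have hg2 : g.1 • x = x' := congrArg Prod.snd hg
      refine ⟨g, Prod.ext hg1 ?_⟩
      show g.1 • TV.st x ∅ = TV.st x' ∅
      rw [TV.smul_st, Set.image_empty, hg2]
  have h3 : (S.ThT w : Set (S.X × TV V)) ⊆ (A1 ∪ A2) ∪ (S.sP w ∪ S.sF w) := by
    rintro ⟨u, t⟩ (⟨x, rfl, h⟩ | ⟨t', x, q, rfl, h⟩)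
    · exact Or.inl (Or.inl ⟨x, rfl, h⟩)
    · rcases h with ⟨h1, ⟨x', h2⟩, e⟩ | ⟨u', h1, h2, h3, h4, e⟩ | ⟨h1, h2, e⟩
      · exact Or.inr (Or.inl ⟨x, q, x', h1, h2, e⟩)
      · exact Or.inr (Or.inr ⟨x, q, u', h1, h2, h3, h4, e⟩)
      · exact Or.inl (Or.inr ⟨q, e, h1⟩)
  have f1 : FinOrb ↥(stabilizer H w) A1 := by
    apply Pool.Agent.SAF.FinOrb.image (fin_vp (S := S) w) (fun p => (p.1, TV.el p.2))
    · rintro ⟨u, t⟩ ⟨x, e, h⟩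
      refine ⟨(u, x), h, 1, ?_⟩
      rw [one_smul]
      exact Prod.ext rfl e.symm
    · rintro ⟨u, x⟩ _ _ _ ⟨g, rfl⟩
      exact ⟨g, rfl⟩
  have f2 : FinOrb ↥(stabilizer H w) A2 := by
    apply Pool.Agent.SAF.FinOrb.image (fin_dQf (S := S) w) (fun p => (p.1, TV.st p.2 ∅))
    · rintro ⟨u, t⟩ ⟨q, e, h⟩
      refine ⟨(u, q), h, 1, ?_⟩
      rw [one_smul]
      exact Prod.ext rfl e.symm
    · rintro ⟨u, x⟩ _ _ _ ⟨g, rfl⟩
      refine ⟨g, Prod.ext rfl ?_⟩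
      show g.1 • TV.st x ∅ = _
      rw [TV.smul_st, Set.image_empty]
      rfl
  have h4 := oc_mono (finOrb_union (finOrb_union f1 f2)
    (finOrb_union (fin_sP (S := S) w) (fin_sF (S := S) w))) h3
  have h5 := oc_union_le (G := ↥(stabilizer H w)) (A1 ∪ A2) (S.sP w ∪ S.sF w)
  have h6 := oc_union_le (G := ↥(stabilizer H w)) A1 A2
  have h7 := oc_union_le (G := ↥(stabilizer H w)) (S.sP w) (S.sF w)
  omega

theorem lP_smul {w : S.X} (g : ↥(stabilizer H w)) {p : S.X × (V × V)} (h : p ∈ S.lP w) :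
    g • p ∈ S.lP w := ⟨fun k => h.1 ((mem_smul' g).1 k), by
      obtain ⟨x', h2⟩ := h.2
      exact ⟨g.1 • x', h2.smul g⟩⟩

theorem lD_smul {w : S.X} (g : ↥(stabilizer H w)) {p : S.X × (V × V)} (h : p ∈ S.lD w) :
    g • p ∈ S.lD w := ⟨h.1.smul g, S.K.ar_smul _ _ _ h.2⟩

theorem le_ThM_nL (w : S.X) : oc ↥(stabilizer H w) (S.lP w) + oc ↥(stabilizer H w) (S.lF w) +
    oc ↥(stabilizer H w) (S.lD w) ≤ (S.ThM w).fg.nL := by
  rw [ThM_nL]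
  have d1 : Dj ↥(stabilizer H w) (S.lP w) (S.lF w) := by
    apply Dj.of_inv (fun g a ha => lP_smul g ha)
    rintro ⟨u, x, q⟩ ⟨h1, x', h2⟩ ⟨u', h3, h4, h5, h6⟩
    exact near_far h2 h6
  have d2 : Dj ↥(stabilizer H w) (S.lP w ∪ S.lF w) (S.lD w) := by
    apply Dj.symm
    apply Dj.of_inv (fun g a ha => lD_smul g ha)
    rintro ⟨u, x, q⟩ ⟨h1, h2⟩ (h3 | ⟨u', h3, h4, h5, h6⟩)
    · exact h3.1 h1.1.1
    · exact S.not_mem_of_bey h4 h6 h1.1.1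
  rw [← oc_union d1 (fin_lP w) (fin_lF w),
    ← oc_union d2 (finOrb_union (fin_lP w) (fin_lF w)) (fin_lD w)]
  have key : ∀ f ∈ S.lP w ∪ S.lF w ∪ S.lD w, S.pas w f.1 f.2.1 ∧
      ∃ C, S.ThO w f.1 (TV.el f.2.1) (TV.st f.2.2 C) := by
    rintro ⟨u, x, q⟩ ((⟨h1, x', h2⟩ | ⟨u', h1, h2, ⟨x', h3⟩, h4⟩) | ⟨h1, h2⟩)
    · exact ⟨(near_pas h2 h1).1, _, x, q, rfl, Or.inl ⟨h1, ⟨x', h2⟩, rfl⟩⟩
    · exact ⟨(far_pas h1 h2 h3 h4).1, _, x, q, rfl, Or.inr (Or.inl ⟨u', h1, h2, ⟨x', h3⟩, h4, rfl⟩)⟩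
    · exact ⟨h1.pas h2, _, x, q, rfl, Or.inr (Or.inr ⟨h1, h2, rfl⟩)⟩
  apply oc_le_of_rel (fin_oS w) (fun f l => l.1.1.1 = f.1 ∧ l.1.1.2 = TV.el f.2.1 ∧
    ∃ C, l.2.1.2 = TV.st f.2.2 C)
  · intro f hf
    obtain ⟨h1, C, h2⟩ := key f hf
    exact ⟨(⟨(f.1, TV.el f.2.1), Or.inl ⟨_, rfl, h1⟩⟩, ⟨(f.1, TV.st f.2.2 C), Or.inr ⟨_, h2⟩⟩),
      ⟨rfl, h2⟩, rfl, rfl, C, rfl⟩
  · rintro ⟨u, x, q⟩ _ ⟨u', x', q'⟩ _ l _ l' _ ⟨e1, e2, C, e3⟩ ⟨e1', e2', C', e3'⟩ ⟨g, rfl⟩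
    have k1 : g.1 • l.1.1.1 = u' := e1'
    have k2 : g.1 • l.1.1.2 = TV.el x' := e2'
    have k3 : g.1 • l.2.1.2 = TV.st q' C' := e3'
    rw [e1] at k1
    rw [e2, TV.smul_el] at k2
    rw [e3, TV.smul_st] at k3
    have k2' : g.1 • x = x' := by injection k2
    have k3' : g.1 • q = q' := by injection k3
    exact ⟨g, Prod.ext k1 (Prod.ext k2' k3')⟩

/-- as many far lines as near lines -/
theorem lP_le_lF (w : S.X) : oc ↥(stabilizer H w) (S.lP w) ≤ oc ↥(stabilizer H w) (S.lF w) := by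
  apply oc_le_of_inj (fin_lF w) (fun p => (S.dir w p.2.2, p.2))
  · rintro ⟨u, x, q⟩ ⟨h1, x', h2⟩
    have h3 := near_pas h2 h1
    exact ⟨u, h3.2.1.symm, S.dir_adj h1, ⟨x', h2⟩, S.dir_bey h1⟩
  · rintro ⟨u, x, q⟩ ⟨h1, x1, h2⟩ ⟨u', x', q'⟩ ⟨h1', x1', h2'⟩ ⟨g, hg⟩
    have g2 : g.1 • x = x' := congrArg (fun p => p.2.1) hg
    have g3 : g.1 • q = q' := congrArg (fun p => p.2.2) hg
    refine ⟨g, Prod.ext ?_ (Prod.ext g2 g3)⟩
    show g.1 • u = u'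
    subst g2 g3
    -- `x'` crosses three edges
    have c1 := (h2.smul g).l
    have a1 := (h2.smul g).adj
    have n1 := near_pas (h2.smul g) h1'
    have n2 := near_pas h2' h1'
    have := S.js.two (g.1 • x) w c1.1 (Sum.inr (g.1 • u)) (Or.inr ⟨_, rfl, a1, c1.2⟩) (Sum.inr u')
      (Or.inr ⟨_, rfl, h2'.adj, h2'.l.2⟩) (Sum.inr (S.dir w (g.1 • q)))
      (Or.inr ⟨_, rfl, S.dir_adj h1', n1.2.2.2⟩)
    rcases this with k | k | k
    · exact Sum.inr.inj k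
    · exact absurd (Sum.inr.inj k).symm n1.2.1
    · exact absurd (Sum.inr.inj k).symm n2.2.1

/-- not more far stars than near stars -/
theorem sF_le_sP (w : S.X) : oc ↥(stabilizer H w) (S.sF w) ≤ oc ↥(stabilizer H w) (S.sP w) := by
  apply oc_le_of_rel (fin_sP w) (fun p f => ∃ x q, p.2 = TV.st q (S.Star w f.1 q x) ∧
    S.J q ⊆ bey S.D.G w p.1 ∧ S.D.G.Adj w p.1 ∧ f.2 = TV.st q (S.Star w f.1 q x))
  · rintro ⟨u, t⟩ ⟨x, q, u', h1, h2, ⟨x', h3⟩, h4, e⟩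
    exact ⟨(u', TV.st q (S.Star w u' q x)), ⟨x, q, x', S.not_mem_of_bey h2 h4, h3, rfl⟩, x, q, e,
      h4, h2, rfl⟩
  · rintro ⟨u, t⟩ _ ⟨u', t'⟩ _ ⟨v, s⟩ _ ⟨v', s'⟩ _ ⟨x, q, e1, e2, ea, e3⟩ ⟨x', q', e1', e2', ea', e3'⟩
      ⟨g, hg⟩
    have g1 : g.1 • v = v' := congrArg Prod.fst hg
    have g2 : g.1 • s = s' := congrArg Prod.snd hg
    have e1 : t = TV.st q (S.Star w v q x) := e1
    have e3 : s = TV.st q (S.Star w v q x) := e3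
    have e1' : t' = TV.st q' (S.Star w v' q' x') := e1'
    have e3' : s' = TV.st q' (S.Star w v' q' x') := e3'
    have k1 : g.1 • t = t' := by rw [e1, ← e3, g2, e3', e1']
    refine ⟨g, Prod.ext ?_ k1⟩
    show g.1 • u = u'
    have k2 : g.1 • q = q' := by
      rw [e1, e1', TV.smul_st] at k1
      injection k1
    have k3 := sub_smul' g e2
    rw [k2] at k3
    have k4 := S.dir_eq (adj_smul' g ea) k3
    have k5 := S.dir_eq ea' e2'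
    exact k4.symm.trans k5

/-- THE BOUND FOR THE HALF-EDGES FROM PASSING ELEMENTS -/
theorem Tp_le (hc : S.Conn) (w : S.X) : (oc ↥(stabilizer H w) (S.Tp hc w) : ℤ) ≤
    (S.ThM w).fg.b1 + oc ↥(stabilizer H w) (S.vp w) + 2 * oc ↥(stabilizer H w) (S.sP w) -
      2 * oc ↥(stabilizer H w) (S.lP w) + oc ↥(stabilizer H w) (S.dQf w) -
      oc ↥(stabilizer H w) (S.lD w) := by
  have h1 := Tp_le_nC hc w
  have h2 := ThM_nN_le (S := S) w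
  have h3 := le_ThM_nL (S := S) w
  have h4 := lP_le_lF (S := S) w
  have h5 := sF_le_sP (S := S) w
  have h6 : (S.ThM w).fg.b1 = (S.ThM w).fg.nL - (S.ThM w).fg.nN + (S.ThM w).fg.nC := rfl
  omega

end Sys

end Pool.Agent.DI
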