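import Pool.Agent.DI.ELd

/-!
# The local E-law

`local_law`: at every vertex `w` of the tree, with orbits of `stabilizer H w` on flags,
`Ec (kf) + M + 2 (nl - ns) ≤ r0 + vf + b1 (Theta)`.
`M` counts the special simple diamonds and the reversed DQ's which are not of type (s2).
-/

namespace Pool.Agent.DI

open MulAction
open Pool.Agent.SAF (InC orbs FinOrb oc Decomp SAn SA Conv hull dist_edge FinOrb_iff exists_next
  mk_eq_iff oc_le_of_inj oc_le_of_rel oc_le_of_surj oc_mono exists_rep)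
open Pool.Agent.BT (PX PQ JS bey exits lz lz_self lz_ne lz_symm x_next_unique)
open Pool.Agent.BT.TA

section

variable {G Y G' Y' : Type} [Group G] [MulAction G Y] [Group G'] [MulAction G' Y']

/-- finiteness from a relation which is injective on orbits -/
theorem finOrb_of_rel {s : Set Y} {s' : Set Y'} (hs' : FinOrb G' s') (R : Y → Y' → Prop)
    (hf : ∀ a ∈ s, ∃ b ∈ s', R a b)
    (hinj : ∀ a ∈ s, ∀ b ∈ s, ∀ a' ∈ s', ∀ b' ∈ s', R a a' → R b b' →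
      (∃ h : G', h • a' = b') → ∃ h : G, h • a = b) : FinOrb G s := by
  classical
  by_cases hne : ∃ a, a ∈ s
  · obtain ⟨a0, ha0⟩ := hne
    obtain ⟨b0, _⟩ := hf a0 ha0
    have : ∀ a : Y, ∃ b : Y', a ∈ s → b ∈ s' ∧ R a b := by
      intro a
      by_cases ha : a ∈ s
      · obtain ⟨b, hb⟩ := hf a ha
        exact ⟨b, fun _ => hb⟩
      · exact ⟨b0, fun h => absurd h ha⟩
    choose f hf' using this
    exact Pool.Agent.SAF.FinOrb.of_inj hs' f (fun a ha => (hf' a ha).1)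
      (fun a ha b hb e => hinj a ha b hb _ (hf' a ha).1 _ (hf' b hb).1 (hf' a ha).2
        (hf' b hb).2 e)
  · have : s = ∅ := by
      ext a; constructor
      · intro h; exact absurd ⟨a, h⟩ hne
      · intro h; exact h.elim
    subst this
    unfold FinOrb orbs
    simp

end

namespace Sys

variable {H V : Type} [Group H] [MulAction H V] (S : Sys H V)

/-! ### the sets -/

/-- dead flags: the real pole is the centre of a simple diamond -/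
def vd (w : S.X) : Set (S.X × V) := {p | S.D.G.Adj w p.1 ∧ S.Cs w p.1 p.2 ∧
  ∃ s, S.K.ar p.2 s ∧ w ∈ S.J s ∧ S.SD w p.1 s}

/-- nonterminal flags -/
def vn (w : S.X) : Set (S.X × V) := {p | S.D.G.Adj w p.1 ∧ S.Cs w p.1 p.2 ∧ ∃ y, S.Dn w p.2 y}

/-- terminal flags with a real pole -/
def vr (w : S.X) : Set (S.X × V) := {p | ∃ s, (p.1, (p.2, s)) ∈ S.trr w}

/-- half-edges of nonterminal elements -/
def rn (w : S.X) : Set (V × V) := {p | p ∈ S.r0 w ∧ ∃ y, S.Dn w p.1 y}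

/-- half-edges of dead elements -/
def rd (w : S.X) : Set (V × V) :=
  {p | p ∈ S.r0 w ∧ ∃ u, S.D.G.Adj w u ∧ S.Cs w u p.1 ∧ S.SD w u p.2}

/-- half-edges of simple diamonds -/
def rs (w : S.X) : Set (V × V) := {p | p ∈ S.r0 w ∧ ∃ u, S.SD w u p.1}

/-- half-edges of DQ's -/
def rq (w : S.X) : Set (V × V) := {p | p ∈ S.r0 w ∧ ∃ u, S.DQ w u p.1}

/-- near lines of nonterminal elements -/
def ln (w : S.X) : Set (S.X × (V × V)) := {p | p ∈ S.nl w ∧ w ∈ S.J p.2.2 ∧ S.K.ar p.2.1 p.2.2 ∧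
  ∃ y, S.Dn w p.2.1 y}

/-- near lines of dead elements -/
def ld (w : S.X) : Set (S.X × (V × V)) := {p | p ∈ S.nl w ∧ w ∈ S.J p.2.2 ∧ S.K.ar p.2.1 p.2.2 ∧
  S.SD w p.1 p.2.2}

/-- near lines from a gamma star to its pole -/
def lg (w : S.X) : Set (S.X × (V × V)) := {p | p ∈ S.nl w ∧ w ∈ S.J p.2.2 ∧ S.K.ar p.2.2 p.2.1 ∧
  ¬ S.Dia w p.1 p.2.2}

/-- near lines from a simple diamond to its poles -/
def lsd (w : S.X) : Set (S.X × (V × V)) := {p | S.SD w p.1 p.2.2 ∧ S.K.ar p.2.2 p.2.1}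

/-- the stars of a set of lines -/
def str (w : S.X) (A : Set (S.X × (V × V))) : Set (S.X × TV V) :=
  {p | ∃ x q, (p.1, (x, q)) ∈ A ∧ p.2 = TV.st q (S.Star w p.1 q x)}

/-- simple diamonds -/
def sdf (w : S.X) : Set (S.X × V) := {p | S.SD w p.1 p.2}

variable {S}

/-! ### elementary facts -/

theorem two_dirs {w u u' v : S.X} {x : V} (h1 : S.D.G.Adj w u) (c1 : S.Cs w u x)
    (h2 : S.D.G.Adj w u') (c2 : S.Cs w u' x) (h3 : S.D.G.Adj w v) (c3 : S.Cs w v x) :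
    u = u' ∨ u = v ∨ u' = v := by
  have := S.js.two x w c1.1 (Sum.inr u) (Or.inr ⟨u, rfl, h1, c1.2⟩) (Sum.inr u')
    (Or.inr ⟨u', rfl, h2, c2.2⟩) (Sum.inr v) (Or.inr ⟨v, rfl, h3, c3.2⟩)
  rcases this with k | k | k
  · exact Or.inl (Sum.inr.inj k)
  · exact Or.inr (Or.inl (Sum.inr.inj k))
  · exact Or.inr (Or.inr (Sum.inr.inj k))

/-- an element with a real pole over `w` is not passing -/
theorem pas_no_pole {w u : S.X} {x s : V} (h : S.pas w u x) (e : S.K.ar x s) (hs : w ∈ S.J s) :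
    False := by
  obtain ⟨h1, h2, u', h3, h4, h5⟩ := h
  exact h4 (ar_cs_eq h2.1 e hs h1 h3 h2.2 h5.2).symm

theorem Dn.pole {w : S.X} {z y : V} (h : S.Dn w z y) : ∃ u s, S.D.G.Adj w u ∧ S.Cs w u z ∧
    S.K.ar z s ∧ w ∈ S.J s ∧ ¬ S.SD w u s := by
  obtain ⟨u, s, h1, h2, h3, h4, h5, -, -⟩ := h
  exact ⟨u, s, h1, h2, h3, h4, h5⟩

theorem Dn.not_sd {w u : S.X} {z y s : V} (h : S.Dn w z y) (h1 : S.D.G.Adj w u) (h2 : S.Cs w u z)
    (h3 : S.K.ar z s) (h4 : w ∈ S.J s) : ¬ S.SD w u s := by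
  obtain ⟨u', s', k1, k2, k3, k4, k5⟩ := h.pole
  have e1 : s = s' := ar_ar_eq h2.1 h3 h4 k3 k4 h1 h2.2
  have e2 : u = u' := ar_cs_eq h2.1 h3 h4 h1 k1 h2.2 k2.2
  rw [e1, e2]
  exact k5

theorem SD.adj {w u : S.X} {q : V} (h : S.SD w u q) : S.D.G.Adj w u := by
  obtain ⟨hw, a, b, hne, ha, hb, hg⟩ := h.1
  exact (hg.ne hne).1

theorem Dia.adj {w u : S.X} {q : V} (h : S.Dia w u q) : S.D.G.Adj w u := by
  obtain ⟨hw, a, b, hne, ha, hb, hg⟩ := h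
  exact (hg.ne hne).1

theorem Dia.sft {w u : S.X} {q : V} (h : S.Dia w u q) :
    ∃ a b, a ≠ b ∧ S.K.ar q a ∧ S.K.ar q b := by
  obtain ⟨hw, a, b, hne, ha, hb, hg⟩ := h
  exact ⟨a, b, hne, ha, hb⟩

/-- a DQ is not a simple diamond -/
theorem DQ.not_sd' {w u u' : S.X} {q : V} (h : S.DQ w u q) : ¬ S.SD w u' q := by
  intro k
  have e := k.2 u h.1
  subst e
  exact h.2 k

/-- soft elements which cross an edge are light and have two poles -/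
theorem hal_of_cs (hl : S.Lt) {w u : S.X} {x s : V} (hu : S.D.G.Adj w u) (hx : S.Cs w u x)
    (e : S.K.ar x s) (hs : w ∈ S.J s) : (x, s) ∈ S.r0 w := by
  refine ⟨⟨e, ?_, hl x ⟨s, e⟩ w u hu hx⟩, hx.1, hs⟩
  obtain ⟨b, hb, hbb⟩ := S.js.cross x ⟨s, e⟩ w u hu hx.1 hx.2
  refine ⟨b, hb, ?_⟩
  rintro rfl
  exact bey_not (hbb hs) (bey_self hu.symm)

/-! ### invariance -/

theorem Dn_smul_iff {w : S.X} (g : ↥(stabilizer H w)) {z x : V} :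
    S.Dn w (g.1 • z) (g.1 • x) ↔ S.Dn w z x := by
  refine ⟨fun h => ?_, fun h => h.smul g⟩
  have := h.smul g⁻¹
  have e : ∀ v : V, (g⁻¹).1 • g.1 • v = v := fun v => by
    show g.1⁻¹ • g.1 • v = v
    rw [inv_smul_smul]
  rwa [e, e] at this

theorem Term_smul {w : S.X} (g : ↥(stabilizer H w)) {z : V} (h : S.Term w z) :
    S.Term w (g.1 • z) := by
  intro y k
  apply h (g.1⁻¹ • y)
  rw [← Dn_smul_iff g, smul_inv_smul]
  exact k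

theorem exDn_smul {w : S.X} (g : ↥(stabilizer H w)) {z : V} (h : ∃ y, S.Dn w z y) :
    ∃ y, S.Dn w (g.1 • z) y := by
  obtain ⟨y, h⟩ := h
  exact ⟨_, h.smul g⟩

theorem trr_smul {w : S.X} (g : ↥(stabilizer H w)) {p : S.X × (V × V)} (h : p ∈ S.trr w) :
    g • p ∈ S.trr w := by
  obtain ⟨h1, h2, h3, h4, h5, h6⟩ := h
  exact ⟨adj_smul' g h1, cs_smul' g h2, S.K.ar_smul _ _ _ h3, (mem_smul' g).2 h4, Term_smul g h5,
    fun k => h6 ((SD.smul_iff g).1 k)⟩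

theorem inv_mem {w : S.X} {Y : Type} [MulAction ↥(stabilizer H w) Y] {A : Set Y}
    (hA : ∀ (g : ↥(stabilizer H w)) (y : Y), y ∈ A → g • y ∈ A) {g : ↥(stabilizer H w)} {y : Y}
    (h : g • y ∈ A) : y ∈ A := by
  have := hA g⁻¹ _ h
  rwa [inv_smul_smul] at this

theorem vp_smul {w : S.X} (g : ↥(stabilizer H w)) (p : S.X × V) (h : p ∈ S.vp w) :
    g • p ∈ S.vp w := pas.smul g h

theorem vd_smul {w : S.X} (g : ↥(stabilizer H w)) (p : S.X × V) (h : p ∈ S.vd w) :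
    g • p ∈ S.vd w := by
  obtain ⟨h1, h2, s, h3, h4, h5⟩ := h
  exact ⟨adj_smul' g h1, cs_smul' g h2, g.1 • s, S.K.ar_smul _ _ _ h3, (mem_smul' g).2 h4,
    h5.smul g⟩

theorem vn_smul {w : S.X} (g : ↥(stabilizer H w)) (p : S.X × V) (h : p ∈ S.vn w) :
    g • p ∈ S.vn w := by
  obtain ⟨h1, h2, h3⟩ := h
  exact ⟨adj_smul' g h1, cs_smul' g h2, exDn_smul g h3⟩

theorem r0_smul {w : S.X} (g : ↥(stabilizer H w)) (p : V × V) (h : p ∈ S.r0 w) :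
    g • p ∈ S.r0 w := ⟨S.K.hal_smul g.1 h.1, (mem_smul' g).2 h.2.1, (mem_smul' g).2 h.2.2⟩

theorem rn_smul {w : S.X} (g : ↥(stabilizer H w)) (p : V × V) (h : p ∈ S.rn w) :
    g • p ∈ S.rn w := ⟨r0_smul g p h.1, exDn_smul g h.2⟩

theorem rd_smul {w : S.X} (g : ↥(stabilizer H w)) (p : V × V) (h : p ∈ S.rd w) :
    g • p ∈ S.rd w := by
  obtain ⟨h1, u, h2, h3, h4⟩ := h
  exact ⟨r0_smul g p h1, g.1 • u, adj_smul' g h2, cs_smul' g h3, h4.smul g⟩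

theorem rs_smul {w : S.X} (g : ↥(stabilizer H w)) (p : V × V) (h : p ∈ S.rs w) :
    g • p ∈ S.rs w := by
  obtain ⟨h1, u, h2⟩ := h
  exact ⟨r0_smul g p h1, g.1 • u, h2.smul g⟩

theorem rq_smul {w : S.X} (g : ↥(stabilizer H w)) (p : V × V) (h : p ∈ S.rq w) :
    g • p ∈ S.rq w := by
  obtain ⟨h1, u, h2⟩ := h
  exact ⟨r0_smul g p h1, g.1 • u, h2.smul g⟩

/-! ### flags: `vp + trr + vd + vn ≤ vf` -/

theorem trr_le_vr (w : S.X) : oc ↥(stabilizer H w) (S.trr w) ≤ oc ↥(stabilizer H w) (S.vr w) := by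
  have hsub : S.vr w ⊆ S.vf w := by
    rintro ⟨u, x⟩ ⟨s, h⟩
    exact ⟨h.1, h.2.1⟩
  apply oc_le_of_inj (Pool.Agent.SAF.FinOrb.mono hsub (fin_vf w))
    (fun p : S.X × (V × V) => (p.1, p.2.1))
  · rintro ⟨u, x, s⟩ h
    exact ⟨s, h⟩
  · rintro ⟨u, x, s⟩ h ⟨u', x', s'⟩ h' ⟨g, hg⟩
    have g1 : g.1 • u = u' := congrArg Prod.fst hg
    have g2 : g.1 • x = x' := congrArg Prod.snd hg
    subst g1 g2
    have h1 := trr_smul g h
    refine ⟨g, Prod.ext rfl (Prod.ext rfl ?_)⟩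
    exact ar_ar_eq h'.2.1.1 h1.2.2.1 h1.2.2.2.1 h'.2.2.1 h'.2.2.2.1 h'.1 h'.2.1.2

theorem flags_le (w : S.X) : oc ↥(stabilizer H w) (S.vp w) + oc ↥(stabilizer H w) (S.trr w) +
    oc ↥(stabilizer H w) (S.vd w) + oc ↥(stabilizer H w) (S.vn w) ≤
      oc ↥(stabilizer H w) (S.vf w) := by
  have s1 : S.vp w ⊆ S.vf w := fun p h => ⟨h.1, h.2.1⟩
  have s2 : S.vr w ⊆ S.vf w := by
    rintro ⟨u, x⟩ ⟨s, h⟩
    exact ⟨h.1, h.2.1⟩
  have s3 : S.vd w ⊆ S.vf w := fun p h => ⟨h.1, h.2.1⟩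
  have s4 : S.vn w ⊆ S.vf w := fun p h => ⟨h.1, h.2.1⟩
  have f := fin_vf (S := S) w
  have d1 : Dj ↥(stabilizer H w) (S.vp w) (S.vr w) := by
    apply Dj.of_inv (fun g a => vp_smul g a)
    rintro ⟨u, x⟩ h ⟨s, h'⟩
    exact pas_no_pole h h'.2.2.1 h'.2.2.2.1
  have d2 : Dj ↥(stabilizer H w) (S.vp w ∪ S.vr w) (S.vd w) := by
    apply Dj.symm
    apply Dj.of_inv (fun g a => vd_smul g a)
    rintro ⟨u, x⟩ ⟨h1, h2, s, h3, h4, h5⟩ (h | ⟨s', h⟩)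
    · exact pas_no_pole h h3 h4
    · have e : s = s' := ar_ar_eq h2.1 h3 h4 h.2.2.1 h.2.2.2.1 h1 h2.2
      subst e
      exact h.2.2.2.2.2 h5
  have d3 : Dj ↥(stabilizer H w) ((S.vp w ∪ S.vr w) ∪ S.vd w) (S.vn w) := by
    apply Dj.symm
    apply Dj.of_inv (fun g a => vn_smul g a)
    rintro ⟨u, x⟩ ⟨h1, h2, y, h3⟩ ((h | ⟨s, h⟩) | h)
    · obtain ⟨u', s, k1, k2, k3, k4, k5⟩ := h3.pole
      exact pas_no_pole h k3 k4
    · exact h.2.2.2.2.1 y h3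
    · obtain ⟨-, -, s, k3, k4, k5⟩ := h
      exact h3.not_sd h1 h2 k3 k4 k5
  have h1 := oc_add_le d3 f (Set.union_subset (Set.union_subset s1 s2) s3) s4
  rw [oc_union d2 (Pool.Agent.SAF.FinOrb.mono (Set.union_subset s1 s2) f)
      (Pool.Agent.SAF.FinOrb.mono s3 f),
    oc_union d1 (Pool.Agent.SAF.FinOrb.mono s1 f) (Pool.Agent.SAF.FinOrb.mono s2 f)] at h1
  have h2 := trr_le_vr (S := S) w
  omega

theorem trr_split (w : S.X) : oc ↥(stabilizer H w) (S.trr w) =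
    oc ↥(stabilizer H w) (S.tr2 w) + oc ↥(stabilizer H w) (S.tr1 w) :=
  oc_split (fin_trr w) (fun p => p ∈ S.nl w) (fun g _ _ _ h => nl_smul g h)

/-! ### real half-edges -/

theorem rg_split (w : S.X) : oc ↥(stabilizer H w) (S.rg w) =
    oc ↥(stabilizer H w) (S.rg2 w) + oc ↥(stabilizer H w) (S.rg1 w) := by
  have h := oc_split (fin_rg (S := S) w) (fun p => ∃ u, (u, p) ∈ S.nl w) (by
    rintro g p _ _ ⟨u, h⟩
    exact ⟨g.1 • u, nl_smul g h⟩)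
  have e : S.rg1 w = {y | y ∈ S.rg w ∧ ¬ ∃ u, (u, y) ∈ S.nl w} := by
    ext p
    constructor
    · rintro ⟨h1, h2⟩
      exact ⟨h1, fun ⟨u, hu⟩ => h2 u hu⟩
    · rintro ⟨h1, h2⟩
      exact ⟨h1, fun u hu => h2 ⟨u, hu⟩⟩
  rw [e]
  exact h

theorem real_le (w : S.X) : oc ↥(stabilizer H w) (S.rg w) + oc ↥(stabilizer H w) (S.rn w) +
    oc ↥(stabilizer H w) (S.rd w) + oc ↥(stabilizer H w) (S.rs w) +
      oc ↥(stabilizer H w) (S.rq w) ≤ oc ↥(stabilizer H w) (S.r0 w) := by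
  have f := fin_r0 (S := S) w
  have s1 : S.rg w ⊆ S.r0 w := fun p h => h.1
  have s2 : S.rn w ⊆ S.r0 w := fun p h => h.1
  have s3 : S.rd w ⊆ S.r0 w := fun p h => h.1
  have s4 : S.rs w ⊆ S.r0 w := fun p h => h.1
  have s5 : S.rq w ⊆ S.r0 w := fun p h => h.1
  have d1 : Dj ↥(stabilizer H w) (S.rg w) (S.rn w) := by
    apply Dj.symm
    apply Dj.of_inv (fun g a => rn_smul g a)
    rintro ⟨x, a⟩ ⟨h1, y, h2⟩ h
    exact h.2.1 y h2
  have d2 : Dj ↥(stabilizer H w) (S.rg w ∪ S.rn w) (S.rd w) := by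
    apply Dj.symm
    apply Dj.of_inv (fun g a => rd_smul g a)
    rintro ⟨x, a⟩ ⟨h1, u, h2, h3, h4⟩ (h | ⟨-, y, h⟩)
    · exact h.2.2.2.2 u h2 h3 h4
    · exact h.not_sd h2 h3 h1.1.1 h1.2.2 h4
  have d3 : Dj ↥(stabilizer H w) ((S.rg w ∪ S.rn w) ∪ S.rd w) (S.rs w) := by
    apply Dj.symm
    apply Dj.of_inv (fun g a => rs_smul g a)
    rintro ⟨x, a⟩ ⟨h1, u, h2⟩ ((h | ⟨-, y, h⟩) | ⟨-, u', h3, h4, h5⟩)
    · exact h.2.2.1 u h2
    · obtain ⟨u', s, k1, k2, -⟩ := h.pole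
      exact h2.1.not_cs k1 k2.2
    · exact h2.1.not_cs h3 h4.2
  have d4 : Dj ↥(stabilizer H w) (((S.rg w ∪ S.rn w) ∪ S.rd w) ∪ S.rs w) (S.rq w) := by
    apply Dj.symm
    apply Dj.of_inv (fun g a => rq_smul g a)
    rintro ⟨x, a⟩ ⟨h1, u, h2⟩ (((h | ⟨-, y, h⟩) | ⟨-, u', h3, h4, h5⟩) | ⟨-, u', h⟩)
    · exact h.2.2.2.1 u h2
    · obtain ⟨u', s, k1, k2, -⟩ := h.pole
      exact h2.1.not_cs k1 k2.2
    · exact h2.1.not_cs h3 h4.2
    · exact h2.not_sd' h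
  have u12 := Set.union_subset s1 s2
  have u123 := Set.union_subset u12 s3
  have u1234 := Set.union_subset u123 s4
  have h1 := oc_add_le d4 f u1234 s5
  rw [oc_union d3 (Pool.Agent.SAF.FinOrb.mono u123 f) (Pool.Agent.SAF.FinOrb.mono s4 f),
    oc_union d2 (Pool.Agent.SAF.FinOrb.mono u12 f) (Pool.Agent.SAF.FinOrb.mono s3 f),
    oc_union d1 (Pool.Agent.SAF.FinOrb.mono s1 f) (Pool.Agent.SAF.FinOrb.mono s2 f)] at h1
  exact h1

/-- the edge is determined by an element with a real pole -/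
theorem edge_eq {w u u' : S.X} {x s : V} (hu : S.D.G.Adj w u) (hx : S.Cs w u x)
    (hu' : S.D.G.Adj w u') (hx' : S.Cs w u' x) (e : S.K.ar x s) (hs : w ∈ S.J s) : u = u' :=
  ar_cs_eq hx.1 e hs hu hu' hx.2 hx'.2

theorem tr2_le_rg2 (hl : S.Lt) (w : S.X) :
    oc ↥(stabilizer H w) (S.tr2 w) ≤ oc ↥(stabilizer H w) (S.rg2 w) := by
  have f : FinOrb ↥(stabilizer H w) (S.rg2 w) :=
    Pool.Agent.SAF.FinOrb.mono (fun p h => h.1) (fin_rg w)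
  apply oc_le_of_inj f (fun p : S.X × (V × V) => p.2)
  · rintro ⟨u, x, s⟩ ⟨⟨h1, h2, h3, h4, h5, h6⟩, h7⟩
    refine ⟨⟨hal_of_cs hl h1 h2 h3 h4, h5, ?_, ?_, ?_⟩, u, h7⟩
    · intro v hv
      exact hv.1.not_cs h1 h2.2
    · intro v hv
      exact hv.1.not_cs h1 h2.2
    · intro v hv hc hsd
      have e := edge_eq h1 h2 hv hc h3 h4
      rw [← e] at hsd
      exact h6 hsd
  · rintro ⟨u, x, s⟩ ⟨⟨h1, h2, h3, h4, h5, h6⟩, h7⟩ ⟨u', x', s'⟩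
      ⟨⟨h1', h2', h3', h4', h5', h6'⟩, h7'⟩ ⟨g, hg⟩
    have g1 : g.1 • x = x' := congrArg Prod.fst hg
    have g2 : g.1 • s = s' := congrArg Prod.snd hg
    have h1'' := adj_smul' g h1
    have h2'' := cs_smul' g h2
    have h2'' : S.Cs w (g.1 • u) x' := by rw [← g1]; exact h2''
    exact ⟨g, Prod.ext (edge_eq h1'' h2'' h1' h2' h3' h4') (Prod.ext g1 g2)⟩

theorem vn_le_rn (hl : S.Lt) (w : S.X) :
    oc ↥(stabilizer H w) (S.vn w) ≤ oc ↥(stabilizer H w) (S.rn w) := by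
  have f : FinOrb ↥(stabilizer H w) (S.rn w) :=
    Pool.Agent.SAF.FinOrb.mono (fun p h => h.1) (fin_r0 w)
  apply oc_le_of_rel f (fun p r => p.2 = r.1)
  · rintro ⟨u, x⟩ ⟨h1, h2, y, h3⟩
    obtain ⟨u', s, k1, k2, k3, k4, k5⟩ := h3.pole
    exact ⟨(x, s), ⟨hal_of_cs hl h1 h2 k3 k4, y, h3⟩, rfl⟩
  · rintro ⟨u, x⟩ ⟨h1, h2, -⟩ ⟨u', x'⟩ ⟨h1', h2', -⟩ ⟨z, s⟩ - ⟨z', s'⟩ h4 e e' ⟨g, hg⟩
    have e : x = z := e
    have e' : x' = z' := e'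
    subst e e'
    have g1 : g.1 • x = x' := congrArg Prod.fst hg
    have h1'' := adj_smul' g h1
    have h2'' : S.Cs w (g.1 • u) x' := by rw [← g1]; exact cs_smul' g h2
    exact ⟨g, Prod.ext (edge_eq h1'' h2'' h1' h2' h4.1.1.1 h4.1.2.2) g1⟩

theorem vd_le_rd (hl : S.Lt) (w : S.X) :
    oc ↥(stabilizer H w) (S.vd w) ≤ oc ↥(stabilizer H w) (S.rd w) := by
  have f : FinOrb ↥(stabilizer H w) (S.rd w) :=
    Pool.Agent.SAF.FinOrb.mono (fun p h => h.1) (fin_r0 w)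
  apply oc_le_of_rel f (fun p r => p.2 = r.1)
  · rintro ⟨u, x⟩ ⟨h1, h2, s, h3, h4, h5⟩
    exact ⟨(x, s), ⟨hal_of_cs hl h1 h2 h3 h4, u, h1, h2, h5⟩, rfl⟩
  · rintro ⟨u, x⟩ ⟨h1, h2, -⟩ ⟨u', x'⟩ ⟨h1', h2', -⟩ ⟨z, s⟩ - ⟨z', s'⟩ h4 e e' ⟨g, hg⟩
    have e : x = z := e
    have e' : x' = z' := e'
    subst e e'
    have g1 : g.1 • x = x' := congrArg Prod.fst hg
    have h1'' := adj_smul' g h1
    have h2'' : S.Cs w (g.1 • u) x' := by rw [← g1]; exact cs_smul' g h2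
    exact ⟨g, Prod.ext (edge_eq h1'' h2'' h1' h2' h4.1.1.1 h4.1.2.2) g1⟩

/-! ### near lines -/

theorem ln_le_vn (w : S.X) : oc ↥(stabilizer H w) (S.ln w) ≤ oc ↥(stabilizer H w) (S.vn w) := by
  have hsub : S.vn w ⊆ S.vf w := fun p h => ⟨h.1, h.2.1⟩
  have f : FinOrb ↥(stabilizer H w) (S.vn w) := Pool.Agent.SAF.FinOrb.mono hsub (fin_vf w)
  apply oc_le_of_inj f (fun p : S.X × (V × V) => (p.1, p.2.1))
  · rintro ⟨u, x, q⟩ ⟨⟨x', h1⟩, h2, h3, h4⟩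
    exact ⟨h1.adj, h1.l, h4⟩
  · rintro ⟨u, x, q⟩ ⟨⟨x1, h1⟩, h2, h3, h4⟩ ⟨u', x', q'⟩ ⟨⟨x1', h1'⟩, h2', h3', h4'⟩ ⟨g, hg⟩
    have g1 : g.1 • u = u' := congrArg Prod.fst hg
    have g2 : g.1 • x = x' := congrArg Prod.snd hg
    subst g1 g2
    refine ⟨g, Prod.ext rfl (Prod.ext rfl ?_)⟩
    have k1 := S.K.ar_smul g.1 _ _ h3
    have k2 := (mem_smul' (S := S) g).2 h2
    exact ar_ar_eq h1'.l.1 k1 k2 h3' h2' h1'.adj h1'.l.2

theorem ld_le_vd (w : S.X) : oc ↥(stabilizer H w) (S.ld w) ≤ oc ↥(stabilizer H w) (S.vd w) := by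
  have hsub : S.vd w ⊆ S.vf w := fun p h => ⟨h.1, h.2.1⟩
  have f : FinOrb ↥(stabilizer H w) (S.vd w) := Pool.Agent.SAF.FinOrb.mono hsub (fin_vf w)
  apply oc_le_of_inj f (fun p : S.X × (V × V) => (p.1, p.2.1))
  · rintro ⟨u, x, q⟩ ⟨⟨x', h1⟩, h2, h3, h4⟩
    exact ⟨h1.adj, h1.l, q, h3, h2, h4⟩
  · rintro ⟨u, x, q⟩ ⟨⟨x1, h1⟩, h2, h3, h4⟩ ⟨u', x', q'⟩ ⟨⟨x1', h1'⟩, h2', h3', h4'⟩ ⟨g, hg⟩
    have g1 : g.1 • u = u' := congrArg Prod.fst hg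
    have g2 : g.1 • x = x' := congrArg Prod.snd hg
    subst g1 g2
    refine ⟨g, Prod.ext rfl (Prod.ext rfl ?_)⟩
    have k1 := S.K.ar_smul g.1 _ _ h3
    have k2 := (mem_smul' (S := S) g).2 h2
    exact ar_ar_eq h1'.l.1 k1 k2 h3' h2' h1'.adj h1'.l.2

theorem ls_sub (w : S.X) : S.lsd w ⊆ S.nl w := fun _ h => h.1.1.near h.2

/-- the near lines -/
theorem nl_le (w : S.X) : oc ↥(stabilizer H w) (S.nl w) ≤ oc ↥(stabilizer H w) (S.lP w) +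
    oc ↥(stabilizer H w) (S.tr2 w) + oc ↥(stabilizer H w) (S.ln w) +
    oc ↥(stabilizer H w) (S.ld w) + oc ↥(stabilizer H w) (S.lg w) +
    oc ↥(stabilizer H w) (S.lsd w) + oc ↥(stabilizer H w) (S.lD w) := by
  have f := fin_nl (S := S) w
  have hcov : S.nl w ⊆ (((((S.lP w ∪ S.tr2 w) ∪ S.ln w) ∪ S.ld w) ∪ S.lg w) ∪ S.lsd w) ∪ S.lD w := by
    rintro ⟨u, x, q⟩ h
    have h0 := h
    obtain ⟨x', h1⟩ := h
    by_cases hq : w ∈ S.J q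
    · rcases h1.E1 with e | e
      · -- an in-arrow
        have e : S.K.ar x q := e
        by_cases h2 : S.SD w u q
        · exact Or.inl (Or.inl (Or.inl (Or.inr ⟨h0, hq, e, h2⟩)))
        · by_cases h3 : ∃ y, S.Dn w x y
          · exact Or.inl (Or.inl (Or.inl (Or.inl (Or.inr ⟨h0, hq, e, h3⟩))))
          · push Not at h3
            exact Or.inl (Or.inl (Or.inl (Or.inl (Or.inl (Or.inr
              ⟨⟨h1.adj, h1.l, e, hq, h3, h2⟩, h0⟩)))))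
      · have e : S.K.ar q x := e
        by_cases h2 : S.Dia w u q
        · by_cases h3 : S.SD w u q
          · exact Or.inl (Or.inr ⟨h3, e⟩)
          · exact Or.inr ⟨⟨h2, h3⟩, e⟩
        · exact Or.inl (Or.inl (Or.inr ⟨h0, hq, e, h2⟩))
    · exact Or.inl (Or.inl (Or.inl (Or.inl (Or.inl (Or.inl ⟨hq, x', h1⟩)))))
  have sub : (((((S.lP w ∪ S.tr2 w) ∪ S.ln w) ∪ S.ld w) ∪ S.lg w) ∪ S.lsd w) ∪ S.lD w ⊆ S.nl w :=
    Set.union_subset (Set.union_subset (Set.union_subset (Set.union_subset (Set.union_subset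
      (Set.union_subset (lP_sub w) (fun p h => h.2)) (fun p h => h.1)) (fun p h => h.1))
      (fun p h => h.1)) (ls_sub w)) (lD_sub w)
  have h0 := oc_mono (Pool.Agent.SAF.FinOrb.mono sub f) hcov
  have h1 := oc_union_le (G := ↥(stabilizer H w))
    (((((S.lP w ∪ S.tr2 w) ∪ S.ln w) ∪ S.ld w) ∪ S.lg w) ∪ S.lsd w) (S.lD w)
  have h2 := oc_union_le (G := ↥(stabilizer H w))
    ((((S.lP w ∪ S.tr2 w) ∪ S.ln w) ∪ S.ld w) ∪ S.lg w) (S.lsd w)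
  have h3 := oc_union_le (G := ↥(stabilizer H w)) (((S.lP w ∪ S.tr2 w) ∪ S.ln w) ∪ S.ld w) (S.lg w)
  have h4 := oc_union_le (G := ↥(stabilizer H w)) ((S.lP w ∪ S.tr2 w) ∪ S.ln w) (S.ld w)
  have h5 := oc_union_le (G := ↥(stabilizer H w)) (S.lP w ∪ S.tr2 w) (S.ln w)
  have h6 := oc_union_le (G := ↥(stabilizer H w)) (S.lP w) (S.tr2 w)
  omega

end Sys

end Pool.Agent.DI
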