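import Pool.Agent.DI.ELe

/-!
# The local E-law

`local_law`: at every vertex `w` of the tree, with orbits of `stabilizer H w` on flags,
`Ec (kf) + 2 (nl - ns) + ms + md ≤ r0 + vf + b1 (Theta)`: `ms` counts the special simple diamonds, `md`
the reversed DQ's which are not of type (s2).
-/

namespace Pool.Agent.DI

open MulAction
open Pool.Agent.SAF (InC orbs FinOrb oc Decomp SAn SA Conv hull dist_edge FinOrb_iff exists_next
  mk_eq_iff oc_le_of_inj oc_le_of_rel oc_le_of_surj oc_mono exists_rep)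
open Pool.Agent.BT (PX PQ JS bey exits lz lz_self lz_ne lz_symm x_next_unique)
open Pool.Agent.BT.TA

namespace Sys

variable {H V : Type} [Group H] [MulAction H V] (S : Sys H V)

/-- the light world: stabilisers of elements over an edge -/
def Lt2 : Prop := ∀ x p q, S.D.G.Adj p q → S.Cs p q x →
  Finite ↥(stabilizer H x ⊓ stabilizer H p)

/-- centres of DQ's -/
def dq (w : S.X) : Set V := {q | ∃ u, S.DQ w u q}

/-- special simple diamonds -/
def sds (w : S.X) : Set (S.X × V) := {y | y ∈ S.sdf w ∧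
  Spc ↥(stabilizer H w) (fun (p : S.X × V) (a : V) => S.K.ar p.2 a) y}

/-- DQ's with a swap -/
def spV (w : S.X) : Set V := {y | y ∈ S.dq w ∧
  Spc ↥(stabilizer H w) (fun (q : V) (a : V) => S.K.ar q a) y}

/-- DQ's with a swap which fixes the edge -/
def spF (w : S.X) : Set (S.X × V) := {y | y ∈ S.dQf w ∧
  Spc ↥(stabilizer H w) (fun (p : S.X × V) (a : V) => S.K.ar p.2 a) y}

/-- reversed DQ's -/
def rvV (w : S.X) : Set V := {y | y ∈ S.dq w ∧
  Spc ↥(stabilizer H w) (fun (q : V) (u : S.X) => S.Dia w u q) y}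

/-- DQ's of type (s2): swaps, but none of them fixes an edge of the diamond -/
def s2V (w : S.X) : Set V := {q | q ∈ S.spV w ∧ ∀ u, (u, q) ∉ S.spF w}

/-- reversed DQ's which are not of type (s2) -/
def mdV (w : S.X) : Set V := {q | q ∈ S.rvV w ∧ q ∉ S.s2V w}

variable {S}

/-! ### stars -/

theorem str_sub {w : S.X} {A : Set (S.X × (V × V))} (hA : A ⊆ S.nl w) : S.str w A ⊆ S.ns w := by
  rintro ⟨u, t⟩ ⟨x, q, h, e⟩
  obtain ⟨x', h'⟩ := hA h
  exact ⟨x, q, x', h', e⟩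

theorem str_smul {w : S.X} {A : Set (S.X × (V × V))}
    (hA : ∀ (g : ↥(stabilizer H w)) (p : S.X × (V × V)), p ∈ A → g • p ∈ A)
    (g : ↥(stabilizer H w)) (p : S.X × TV V) (h : p ∈ S.str w A) : g • p ∈ S.str w A := by
  obtain ⟨x, q, h, e⟩ := h
  refine ⟨g.1 • x, g.1 • q, hA g _ h, ?_⟩
  show g.1 • p.2 = _
  rw [e, TV.smul_st, Star_smul']
  rfl

theorem star_inj {w u : S.X} {q q' x x' : V}
    (h : TV.st q (S.Star w u q x) = TV.st q' (S.Star w u q' x')) : q = q' ∧ S.Gc w u q x x' := by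
  have e : q = q' := by injection h
  subst e
  have e' : S.Star w u q x = S.Star w u q x' := by injection h
  exact ⟨rfl, Star_eq_iff.1 e'⟩

theorem tr2_smul {w : S.X} (g : ↥(stabilizer H w)) (p : S.X × (V × V)) (h : p ∈ S.tr2 w) :
    g • p ∈ S.tr2 w := ⟨trr_smul g h.1, nl_smul g h.2⟩

theorem Dia_smul_iff {w : S.X} (g : ↥(stabilizer H w)) {u : S.X} {q : V} :
    S.Dia w (g.1 • u) (g.1 • q) ↔ S.Dia w u q := by
  refine ⟨fun h => ?_, fun h => h.smul g⟩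
  have h1 := h.smul g⁻¹
  have e1 : (g⁻¹).1 • g.1 • q = q := by
    show g.1⁻¹ • g.1 • q = q
    rw [inv_smul_smul]
  have e2 : (g⁻¹).1 • g.1 • u = u := by
    show g.1⁻¹ • g.1 • u = u
    rw [inv_smul_smul]
  rwa [e1, e2] at h1

theorem lg_smul {w : S.X} (g : ↥(stabilizer H w)) (p : S.X × (V × V)) (h : p ∈ S.lg w) :
    g • p ∈ S.lg w :=
  ⟨nl_smul g h.1, (mem_smul' g).2 h.2.1, S.K.ar_smul _ _ _ h.2.2.1,
    fun k => h.2.2.2 ((Dia_smul_iff g).1 k)⟩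

theorem lsd_smul {w : S.X} (g : ↥(stabilizer H w)) (p : S.X × (V × V)) (h : p ∈ S.lsd w) :
    g • p ∈ S.lsd w := ⟨h.1.smul g, S.K.ar_smul _ _ _ h.2⟩

theorem term_no_pole {w u : S.X} {x s y : V} (h : (u, (x, s)) ∈ S.trr w) (e : S.K.ar s y)
    (hg : S.Gc w u s x y) : False :=
  h.2.2.2.2.1 y ⟨u, s, h.1, h.2.1, h.2.2.1, h.2.2.2.1, h.2.2.2.2.2, e, hg⟩

/-- the near stars -/
theorem le_ns (w : S.X) : oc ↥(stabilizer H w) (S.sP w) + oc ↥(stabilizer H w) (S.pS w) +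
    oc ↥(stabilizer H w) (S.str w (S.lg w)) + oc ↥(stabilizer H w) (S.str w (S.lsd w)) +
      oc ↥(stabilizer H w) (S.str w (S.lD w)) ≤ oc ↥(stabilizer H w) (S.ns w) := by
  have f := fin_ns (S := S) w
  have s1 : S.sP w ⊆ S.ns w := sP_sub w
  have s2 : S.pS w ⊆ S.ns w := pS_sub w
  have s3 : S.str w (S.lg w) ⊆ S.ns w := str_sub (fun p h => h.1)
  have s4 : S.str w (S.lsd w) ⊆ S.ns w := str_sub (ls_sub w)
  have s5 : S.str w (S.lD w) ⊆ S.ns w := str_sub (lD_sub w)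
  have d1 : Dj ↥(stabilizer H w) (S.sP w) (S.pS w) := by
    apply Dj.symm
    apply Dj.of_inv (fun g a h => str_smul tr2_smul g a h)
    rintro ⟨u, t⟩ ⟨x, s, h, e⟩ ⟨x', q, z, h1, h2, e'⟩
    have e : t = TV.st s (S.Star w u s x) := e
    have e' : t = TV.st q (S.Star w u q x') := e'
    obtain ⟨e1, -⟩ := star_inj (e.symm.trans e')
    subst e1
    exact h1 h.1.2.2.2.1
  have d2 : Dj ↥(stabilizer H w) (S.sP w ∪ S.pS w) (S.str w (S.lg w)) := by
    apply Dj.symm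
    apply Dj.of_inv (fun g a h => str_smul lg_smul g a h)
    rintro ⟨u, t⟩ ⟨x, s, h, e⟩ (⟨x', q, z, h1, h2, e'⟩ | ⟨x', q, h', e'⟩)
    · have e : t = TV.st s (S.Star w u s x) := e
      have e' : t = TV.st q (S.Star w u q x') := e'
      obtain ⟨e1, -⟩ := star_inj (e.symm.trans e')
      subst e1
      exact h1 h.2.1
    · have e : t = TV.st s (S.Star w u s x) := e
      have e' : t = TV.st q (S.Star w u q x') := e'
      obtain ⟨e1, e2⟩ := star_inj (e.symm.trans e')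
      subst e1
      exact term_no_pole h'.1 h.2.2.1 e2.symm'
  have d3 : Dj ↥(stabilizer H w) ((S.sP w ∪ S.pS w) ∪ S.str w (S.lg w)) (S.str w (S.lsd w)) := by
    apply Dj.symm
    apply Dj.of_inv (fun g a h => str_smul lsd_smul g a h)
    rintro ⟨u, t⟩ ⟨x, s, h, e⟩ ((⟨x', q, z, h1, h2, e'⟩ | ⟨x', q, h', e'⟩) | ⟨x', q, h', e'⟩)
    · have e : t = TV.st s (S.Star w u s x) := e
      have e' : t = TV.st q (S.Star w u q x') := e'
      obtain ⟨e1, -⟩ := star_inj (e.symm.trans e')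
      subst e1
      exact h1 h.1.1.1
    · have e : t = TV.st s (S.Star w u s x) := e
      have e' : t = TV.st q (S.Star w u q x') := e'
      obtain ⟨e1, e2⟩ := star_inj (e.symm.trans e')
      subst e1
      exact term_no_pole h'.1 h.2 e2.symm'
    · have e : t = TV.st s (S.Star w u s x) := e
      have e' : t = TV.st q (S.Star w u q x') := e'
      obtain ⟨e1, e2⟩ := star_inj (e.symm.trans e')
      subst e1
      exact h'.2.2.2 h.1.1
  have d4 : Dj ↥(stabilizer H w) (((S.sP w ∪ S.pS w) ∪ S.str w (S.lg w)) ∪ S.str w (S.lsd w))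
      (S.str w (S.lD w)) := by
    apply Dj.symm
    apply Dj.of_inv (fun g a h => str_smul (fun g p h => lD_smul g h) g a h)
    rintro ⟨u, t⟩ ⟨x, s, h, e⟩ (((⟨x', q, z, h1, h2, e'⟩ | ⟨x', q, h', e'⟩) | ⟨x', q, h', e'⟩) |
      ⟨x', q, h', e'⟩)
    · have e : t = TV.st s (S.Star w u s x) := e
      have e' : t = TV.st q (S.Star w u q x') := e'
      obtain ⟨e1, -⟩ := star_inj (e.symm.trans e')
      subst e1
      exact h1 h.1.1.1
    · have e : t = TV.st s (S.Star w u s x) := e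
      have e' : t = TV.st q (S.Star w u q x') := e'
      obtain ⟨e1, e2⟩ := star_inj (e.symm.trans e')
      subst e1
      exact term_no_pole h'.1 h.2 e2.symm'
    · have e : t = TV.st s (S.Star w u s x) := e
      have e' : t = TV.st q (S.Star w u q x') := e'
      obtain ⟨e1, e2⟩ := star_inj (e.symm.trans e')
      subst e1
      exact h'.2.2.2 h.1.1
    · have e : t = TV.st s (S.Star w u s x) := e
      have e' : t = TV.st q (S.Star w u q x') := e'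
      obtain ⟨e1, e2⟩ := star_inj (e.symm.trans e')
      subst e1
      exact h.1.2 h'.1
  have u12 := Set.union_subset s1 s2
  have u123 := Set.union_subset u12 s3
  have u1234 := Set.union_subset u123 s4
  have h1 := oc_add_le d4 f u1234 s5
  rw [oc_union d3 (Pool.Agent.SAF.FinOrb.mono u123 f) (Pool.Agent.SAF.FinOrb.mono s4 f),
    oc_union d2 (Pool.Agent.SAF.FinOrb.mono u12 f) (Pool.Agent.SAF.FinOrb.mono s3 f),
    oc_union d1 (Pool.Agent.SAF.FinOrb.mono s1 f) (Pool.Agent.SAF.FinOrb.mono s2 f)] at h1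
  exact h1

theorem lg_le (w : S.X) : oc ↥(stabilizer H w) (S.lg w) ≤
    oc ↥(stabilizer H w) (S.str w (S.lg w)) := by
  have s3 : S.str w (S.lg w) ⊆ S.ns w := str_sub (fun p h => h.1)
  apply oc_le_of_inj (Pool.Agent.SAF.FinOrb.mono s3 (fin_ns w))
    (fun p : S.X × (V × V) => (p.1, TV.st p.2.2 (S.Star w p.1 p.2.2 p.2.1)))
  · rintro ⟨u, x, q⟩ h
    exact ⟨x, q, h, rfl⟩
  · rintro ⟨u, x, q⟩ h ⟨u', x', q'⟩ h' ⟨g, hg⟩
    have g1 : g.1 • u = u' := congrArg Prod.fst hg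
    have g2 : g.1 • TV.st q (S.Star w u q x) = TV.st q' (S.Star w u' q' x') :=
      congrArg Prod.snd hg
    subst g1
    rw [TV.smul_st, Star_smul'] at g2
    obtain ⟨e1, e2⟩ := star_inj g2
    subst e1
    refine ⟨g, Prod.ext rfl (Prod.ext ?_ rfl)⟩
    show g.1 • x = x'
    by_contra hne
    have k1 := lg_smul g _ h
    exact h'.2.2.2 ⟨h'.2.1, g.1 • x, x', hne, k1.2.2.1, h'.2.2.1, e2⟩

theorem sdf_le (w : S.X) : oc ↥(stabilizer H w) (S.sdf w) ≤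
    oc ↥(stabilizer H w) (S.str w (S.lsd w)) := by
  apply oc_le_of_rel (Pool.Agent.SAF.FinOrb.mono (str_sub (ls_sub w)) (fin_ns w))
    (fun p f => p.1 = f.1 ∧ ∃ C, f.2 = TV.st p.2 C)
  · rintro ⟨u, q⟩ h
    have h : S.SD w u q := h
    obtain ⟨a, b, hne, ha, hb⟩ := h.1.sft
    exact ⟨(u, TV.st q (S.Star w u q a)), ⟨a, q, ⟨h, ha⟩, rfl⟩, rfl, _, rfl⟩
  · rintro ⟨u, q⟩ _ ⟨u', q'⟩ _ ⟨v, t⟩ _ ⟨v', t'⟩ _ ⟨e1, C, e2⟩ ⟨e1', C', e2'⟩ ⟨g, hg⟩
    have e1 : u = v := e1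
    have e2 : t = TV.st q C := e2
    have e1' : u' = v' := e1'
    have e2' : t' = TV.st q' C' := e2'
    subst e1 e1' e2 e2'
    have g1 : g.1 • u = u' := congrArg Prod.fst hg
    have g2 : g.1 • TV.st q C = TV.st q' C' := congrArg Prod.snd hg
    rw [TV.smul_st] at g2
    have g3 : g.1 • q = q' := by injection g2
    exact ⟨g, Prod.ext g1 g3⟩

theorem dQf_le (w : S.X) : oc ↥(stabilizer H w) (S.dQf w) ≤
    oc ↥(stabilizer H w) (S.str w (S.lD w)) := by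
  apply oc_le_of_rel (Pool.Agent.SAF.FinOrb.mono (str_sub (lD_sub w)) (fin_ns w))
    (fun p f => p.1 = f.1 ∧ ∃ C, f.2 = TV.st p.2 C)
  · rintro ⟨u, q⟩ h
    have h : S.DQ w u q := h
    obtain ⟨a, b, hne, ha, hb⟩ := h.1.sft
    exact ⟨(u, TV.st q (S.Star w u q a)), ⟨a, q, ⟨h, ha⟩, rfl⟩, rfl, _, rfl⟩
  · rintro ⟨u, q⟩ _ ⟨u', q'⟩ _ ⟨v, t⟩ _ ⟨v', t'⟩ _ ⟨e1, C, e2⟩ ⟨e1', C', e2'⟩ ⟨g, hg⟩
    have e1 : u = v := e1
    have e2 : t = TV.st q C := e2
    have e1' : u' = v' := e1'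
    have e2' : t' = TV.st q' C' := e2'
    subst e1 e1' e2 e2'
    have g1 : g.1 • u = u' := congrArg Prod.fst hg
    have g2 : g.1 • TV.st q C = TV.st q' C' := congrArg Prod.snd hg
    rw [TV.smul_st] at g2
    have g3 : g.1 • q = q' := by injection g2
    exact ⟨g, Prod.ext g1 g3⟩

/-! ### lightness of diamonds -/

theorem Dia.stab {w u : S.X} {q : V} (h : S.Dia w u q) {g : H} (hg : g • q = q) : g • w = w := by
  by_contra hne
  have h1 := S.js.smul g _ _ h.1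
  rw [hg] at h1
  obtain ⟨u', hu', hc⟩ := ex_cross h.1 h1 (Ne.symm hne)
  exact h.not_cs hu' hc.2

theorem Dia.light (hl : S.Lt2) {w u : S.X} {q : V} (h : S.Dia w u q) :
    Finite ↥(stabilizer H q) := by
  obtain ⟨a, b, hne, ha, hb⟩ := h.sft
  have ca := h.two ha
  have hfin := hl a w u ca.1 ca.2
  let G0 := ↥(stabilizer H q)
  -- the stabiliser of `a` in `H_q` is finite
  have f1 : Finite ↥(stabilizer G0 a) := by
    let f : ↥(stabilizer G0 a) → ↥(stabilizer H a ⊓ stabilizer H w) := fun g =>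
      ⟨g.1.1, g.2, h.stab g.1.2⟩
    refine Finite.of_injective f ?_
    intro x y e
    have e' : (f x).1 = (f y).1 := congrArg Subtype.val e
    exact Subtype.ext (Subtype.ext e')
  have f2 : (orbit G0 a).Finite := by
    apply (out_finite S.K.two q).subset
    rintro _ ⟨g, rfl⟩
    have := S.K.ar_smul g.1 _ _ ha
    have hg : g.1 • q = q := g.2
    rw [hg] at this
    exact this
  have f3 : Finite ↥(orbit G0 a) := f2.to_subtype
  have f4 : Finite (G0 ⧸ stabilizer G0 a) :=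
    Finite.of_equiv _ (orbitEquivQuotientStabilizer G0 a)
  exact Finite.of_equiv _ (Subgroup.groupEquivQuotientProdSubgroup (s := stabilizer G0 a)).symm

/-- arrows of diamonds are light half-edges -/
theorem Dia.r0 (hl : S.Lt2) {w u : S.X} {q a : V} (h : S.Dia w u q) (ha : S.K.ar q a) :
    (q, a) ∈ S.r0 w := by
  obtain ⟨a', b', hne, ha', hb'⟩ := h.sft
  refine ⟨⟨ha, ?_, h.light hl⟩, h.1, (h.two ha).2.1⟩
  by_cases e : a' = a
  · exact ⟨b', hb', fun k => hne (e.trans k.symm)⟩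
  · exact ⟨a', ha', e⟩

/-! ### simple diamonds -/

theorem fin_sdf (w : S.X) : FinOrb ↥(stabilizer H w) (S.sdf w) := by
  apply Pool.Agent.SAF.FinOrb.image
    (Pool.Agent.SAF.FinOrb.mono (ls_sub w) (fin_nl (S := S) w)) (fun p => (p.1, p.2.2))
  · rintro ⟨u, q⟩ h
    obtain ⟨hw, a, b, hne, ha, -⟩ := h.1
    exact ⟨(u, (a, q)), ⟨h, ha⟩, 1, one_smul _ _⟩
  · rintro ⟨u, x, q⟩ _ _ _ ⟨g, rfl⟩
    exact ⟨g, rfl⟩

theorem fin_pairs {w : S.X} {Q : Set (S.X × V)} (hQ : FinOrb ↥(stabilizer H w) Q) :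
    FinOrb ↥(stabilizer H w) {p : (S.X × V) × V | p.1 ∈ Q ∧ S.K.ar p.1.2 p.2} :=
  finOrb_rel (G := ↥(stabilizer H w)) (R := fun (p : S.X × V) (a : V) => S.K.ar p.2 a) hQ
    (fun g p a h => S.K.ar_smul g.1 _ _ h) (fun p _ => out_finite S.K.two p.2)

theorem two_of_sft {w u : S.X} {q : V} (h : S.Dia w u q) :
    ∃ a b, a ≠ b ∧ S.K.ar q a ∧ S.K.ar q b ∧ ∀ c, S.K.ar q c → c = a ∨ c = b := by
  obtain ⟨a, b, hne, ha, hb⟩ := h.sft
  refine ⟨a, b, hne, ha, hb, fun c hc => ?_⟩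
  rcases S.K.two q a b c ha hb hc with e | e | e
  · exact absurd e hne
  · exact Or.inr e.symm
  · exact Or.inl e.symm

theorem ls_pairs (w : S.X) : oc ↥(stabilizer H w) (S.lsd w) + oc ↥(stabilizer H w) (S.sds w) ≤
    2 * oc ↥(stabilizer H w) (S.sdf w) := by
  have h1 := oc_pairs (G := ↥(stabilizer H w)) (Q := S.sdf w)
    (R := fun (p : S.X × V) (a : V) => S.K.ar p.2 a) (fun g y (h : S.SD w y.1 y.2) => h.smul g)
    (fun g p a h => S.K.ar_smul g.1 _ _ h)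
    (fun y (hy : S.SD w y.1 y.2) => two_of_sft hy.1) (fin_sdf w) (fin_pairs (fin_sdf w))
  have h2 : oc ↥(stabilizer H w) (S.lsd w) ≤
      oc ↥(stabilizer H w) {p : (S.X × V) × V | p.1 ∈ S.sdf w ∧ S.K.ar p.1.2 p.2} := by
    apply oc_le_of_inj (fin_pairs (fin_sdf w)) (fun p : S.X × (V × V) => ((p.1, p.2.2), p.2.1))
    · rintro ⟨u, x, q⟩ h
      exact ⟨h.1, h.2⟩
    · rintro ⟨u, x, q⟩ _ ⟨u', x', q'⟩ _ ⟨g, hg⟩
      have g1 : g.1 • u = u' := congrArg (fun p => p.1.1) hg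
      have g2 : g.1 • q = q' := congrArg (fun p => p.1.2) hg
      have g3 : g.1 • x = x' := congrArg (fun p => p.2) hg
      exact ⟨g, Prod.ext g1 (Prod.ext g3 g2)⟩
  have h3 : oc ↥(stabilizer H w) (S.sds w) = oc ↥(stabilizer H w) {y | y ∈ S.sdf w ∧
    Spc ↥(stabilizer H w) (fun (p : S.X × V) (a : V) => S.K.ar p.2 a) y} := rfl
  omega

theorem ls_le_rs (hl : S.Lt2) (w : S.X) :
    oc ↥(stabilizer H w) (S.lsd w) ≤ oc ↥(stabilizer H w) (S.rs w) := by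
  have hsub : S.rs w ⊆ S.r0 w := fun p h => h.1
  apply oc_le_of_inj (Pool.Agent.SAF.FinOrb.mono hsub (fin_r0 w))
    (fun p : S.X × (V × V) => (p.2.2, p.2.1))
  · rintro ⟨u, x, q⟩ h
    exact ⟨h.1.1.r0 hl h.2, u, h.1⟩
  · rintro ⟨u, x, q⟩ h ⟨u', x', q'⟩ h' ⟨g, hg⟩
    have g2 : g.1 • q = q' := congrArg Prod.fst hg
    have g3 : g.1 • x = x' := congrArg Prod.snd hg
    refine ⟨g, Prod.ext ?_ (Prod.ext g3 g2)⟩
    have k1 : S.SD w (g.1 • u) q' := by rw [← g2]; exact h.1.smul g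
    exact h'.1.2 _ k1.1

/-! ### DQ's -/

theorem dq_smul {w : S.X} (g : ↥(stabilizer H w)) (q : V) (h : q ∈ S.dq w) : g • q ∈ S.dq w := by
  obtain ⟨u, h⟩ := h
  exact ⟨g.1 • u, h.smul g⟩

theorem fin_dq (w : S.X) : FinOrb ↥(stabilizer H w) (S.dq w) := by
  apply Pool.Agent.SAF.FinOrb.image (fin_dQf (S := S) w) (fun p => p.2)
  · rintro q ⟨u, h⟩
    exact ⟨(u, q), h, 1, one_smul _ _⟩
  · rintro ⟨u, q⟩ _ _ _ ⟨g, rfl⟩
    exact ⟨g, rfl⟩

theorem rq_pairs (hl : S.Lt2) (w : S.X) : 2 * oc ↥(stabilizer H w) (S.dq w) ≤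
    oc ↥(stabilizer H w) (S.rq w) + oc ↥(stabilizer H w) (S.spV w) := by
  have f : FinOrb ↥(stabilizer H w) {p : V × V | p.1 ∈ S.dq w ∧ S.K.ar p.1 p.2} :=
    finOrb_rel (G := ↥(stabilizer H w)) (R := fun (p : V) (a : V) => S.K.ar p a) (fin_dq w)
      (fun g p a h => S.K.ar_smul g.1 _ _ h) (fun p _ => out_finite S.K.two p)
  have h1 := oc_pairs (G := ↥(stabilizer H w)) (Q := S.dq w)
    (R := fun (p : V) (a : V) => S.K.ar p a) (fun g y h => dq_smul g y h)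
    (fun g p a h => S.K.ar_smul g.1 _ _ h)
    (by
      rintro y ⟨u, hy⟩
      exact two_of_sft hy.1) (fin_dq w) f
  have hsub : S.rq w ⊆ S.r0 w := fun p h => h.1
  have h2 : oc ↥(stabilizer H w) {p : V × V | p.1 ∈ S.dq w ∧ S.K.ar p.1 p.2} ≤
      oc ↥(stabilizer H w) (S.rq w) := by
    apply oc_mono (Pool.Agent.SAF.FinOrb.mono hsub (fin_r0 w))
    rintro ⟨q, a⟩ ⟨⟨u, h⟩, ha⟩
    exact ⟨h.1.r0 hl ha, u, h⟩
  have h3 : oc ↥(stabilizer H w) (S.spV w) = oc ↥(stabilizer H w) {y | y ∈ S.dq w ∧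
    Spc ↥(stabilizer H w) (fun (p : V) (a : V) => S.K.ar p a) y} := rfl
  omega

theorem DQ.edges {w u : S.X} {q : V} (h : S.DQ w u q) : ∃ a b : S.X, a ≠ b ∧ S.Dia w a q ∧
    S.Dia w b q ∧ ∀ c, S.Dia w c q → c = a ∨ c = b := by
  obtain ⟨u', hne, h'⟩ := h.two
  refine ⟨u, u', hne.symm, h.1, h', fun c hc => ?_⟩
  obtain ⟨x, y, hxy, hx, hy⟩ := h.1.sft
  have c1 := h.1.two hx
  have c2 := h'.two hx
  have c3 := hc.two hx
  rcases two_dirs c1.1 c1.2 c2.1 c2.2 c3.1 c3.2 with e | e | e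
  · exact absurd e.symm hne
  · exact Or.inl e.symm
  · exact Or.inr e.symm

theorem dQf_pairs (w : S.X) : oc ↥(stabilizer H w) (S.dQf w) + oc ↥(stabilizer H w) (S.rvV w) ≤
    2 * oc ↥(stabilizer H w) (S.dq w) := by
  have hfin : ∀ q ∈ S.dq w, {u | S.Dia w u q}.Finite := by
    rintro q ⟨u, h⟩
    obtain ⟨a, b, -, -, -, hc⟩ := h.edges
    apply (Set.toFinite ({a, b} : Set S.X)).subset
    intro c h'
    exact hc c h'
  have f : FinOrb ↥(stabilizer H w) {p : V × S.X | p.1 ∈ S.dq w ∧ S.Dia w p.2 p.1} :=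
    finOrb_rel (G := ↥(stabilizer H w)) (R := fun (q : V) (u : S.X) => S.Dia w u q) (fin_dq w)
      (fun g q u h => h.smul g) hfin
  have h1 := oc_pairs (G := ↥(stabilizer H w)) (Q := S.dq w)
    (R := fun (q : V) (u : S.X) => S.Dia w u q) (fun g y h => dq_smul g y h)
    (fun g q u h => h.smul g)
    (by
      rintro y ⟨u, hy⟩
      exact hy.edges) (fin_dq w) f
  have h2 : oc ↥(stabilizer H w) (S.dQf w) ≤
      oc ↥(stabilizer H w) {p : V × S.X | p.1 ∈ S.dq w ∧ S.Dia w p.2 p.1} := by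
    apply oc_le_of_inj f (fun p : S.X × V => (p.2, p.1))
    · rintro ⟨u, q⟩ h
      exact ⟨⟨u, h⟩, h.1⟩
    · rintro ⟨u, q⟩ _ ⟨u', q'⟩ _ ⟨g, hg⟩
      have g1 : g.1 • q = q' := congrArg Prod.fst hg
      have g2 : g.1 • u = u' := congrArg Prod.snd hg
      exact ⟨g, Prod.ext g2 g1⟩
  have h3 : oc ↥(stabilizer H w) (S.rvV w) = oc ↥(stabilizer H w) {y | y ∈ S.dq w ∧
    Spc ↥(stabilizer H w) (fun (q : V) (u : S.X) => S.Dia w u q) y} := rfl
  omega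

theorem lD_pairs (w : S.X) : oc ↥(stabilizer H w) (S.lD w) + oc ↥(stabilizer H w) (S.spF w) ≤
    2 * oc ↥(stabilizer H w) (S.dQf w) := by
  have h1 := oc_pairs (G := ↥(stabilizer H w)) (Q := S.dQf w)
    (R := fun (p : S.X × V) (a : V) => S.K.ar p.2 a) (fun g y (h : S.DQ w y.1 y.2) => h.smul g)
    (fun g p a h => S.K.ar_smul g.1 _ _ h)
    (fun y (hy : S.DQ w y.1 y.2) => two_of_sft hy.1) (fin_dQf w) (fin_pairs (fin_dQf w))
  have h2 : oc ↥(stabilizer H w) (S.lD w) ≤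
      oc ↥(stabilizer H w) {p : (S.X × V) × V | p.1 ∈ S.dQf w ∧ S.K.ar p.1.2 p.2} := by
    apply oc_le_of_inj (fin_pairs (fin_dQf w)) (fun p : S.X × (V × V) => ((p.1, p.2.2), p.2.1))
    · rintro ⟨u, x, q⟩ h
      exact ⟨h.1, h.2⟩
    · rintro ⟨u, x, q⟩ _ ⟨u', x', q'⟩ _ ⟨g, hg⟩
      have g1 : g.1 • u = u' := congrArg (fun p => p.1.1) hg
      have g2 : g.1 • q = q' := congrArg (fun p => p.1.2) hg
      have g3 : g.1 • x = x' := congrArg (fun p => p.2) hg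
      exact ⟨g, Prod.ext g1 (Prod.ext g3 g2)⟩
  have h3 : oc ↥(stabilizer H w) (S.spF w) = oc ↥(stabilizer H w) {y | y ∈ S.dQf w ∧
    Spc ↥(stabilizer H w) (fun (p : S.X × V) (a : V) => S.K.ar p.2 a) y} := rfl
  omega

/-! ### types of DQ's -/

theorem spF_smul {w : S.X} (g : ↥(stabilizer H w)) (p : S.X × V) (h : p ∈ S.spF w) :
    g • p ∈ S.spF w :=
  ⟨DQ.smul g h.1, h.2.smul (fun g p a h => S.K.ar_smul g.1 _ _ h) g⟩

theorem spV_smul {w : S.X} (g : ↥(stabilizer H w)) (p : V) (h : p ∈ S.spV w) : g • p ∈ S.spV w :=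
  ⟨dq_smul g p h.1, h.2.smul (fun g p a h => S.K.ar_smul g.1 _ _ h) g⟩

theorem s2V_smul {w : S.X} (g : ↥(stabilizer H w)) (p : V) (h : p ∈ S.s2V w) : g • p ∈ S.s2V w := by
  refine ⟨spV_smul g p h.1, fun u hu => h.2 (g.1⁻¹ • u) ?_⟩
  have := spF_smul g⁻¹ _ hu
  have e : g⁻¹ • (u, g • p) = (g.1⁻¹ • u, p) := Prod.ext rfl (inv_smul_smul g p)
  rwa [e] at this

theorem s2V_sub (w : S.X) : S.s2V w ⊆ S.rvV w := by
  rintro q ⟨⟨⟨u, hu⟩, g, hg, a, ha, hne⟩, h2⟩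
  refine ⟨⟨u, hu⟩, g, hg, u, hu.1, ?_⟩
  intro e
  apply h2 u
  exact ⟨hu, g, Prod.ext e hg, a, ha, hne⟩

theorem md_le (w : S.X) : oc ↥(stabilizer H w) (S.mdV w) + oc ↥(stabilizer H w) (S.spV w) ≤
    oc ↥(stabilizer H w) (S.rvV w) + oc ↥(stabilizer H w) (S.spF w) := by
  have fr : FinOrb ↥(stabilizer H w) (S.rvV w) :=
    Pool.Agent.SAF.FinOrb.mono (fun p h => h.1) (fin_dq w)
  have fF : FinOrb ↥(stabilizer H w) (S.spF w) :=
    Pool.Agent.SAF.FinOrb.mono (fun p h => h.1) (fin_dQf w)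
  have h1 := oc_split fr (fun p => p ∈ S.s2V w) (fun g y _ _ h => s2V_smul g y h)
  have e1 : {y | y ∈ S.rvV w ∧ y ∈ S.s2V w} = S.s2V w := by
    ext q
    exact ⟨fun h => h.2, fun h => ⟨s2V_sub w h, h⟩⟩
  have e2 : {y | y ∈ S.rvV w ∧ ¬ y ∈ S.s2V w} = S.mdV w := rfl
  rw [e1, e2] at h1
  let A : Set V := {q | q ∈ S.spV w ∧ ∃ u, (u, q) ∈ S.spF w}
  have h2 : oc ↥(stabilizer H w) A ≤ oc ↥(stabilizer H w) (S.spF w) := by
    apply oc_le_of_rel fF (fun q p => p.2 = q)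
    · rintro q ⟨-, u, h⟩
      exact ⟨(u, q), h, rfl⟩
    · rintro q _ q' _ ⟨u, p⟩ _ ⟨u', p'⟩ _ e e' ⟨g, hg⟩
      have e : p = q := e
      have e' : p' = q' := e'
      subst e e'
      exact ⟨g, congrArg Prod.snd hg⟩
  have hcov : S.spV w ⊆ S.s2V w ∪ A := by
    intro q h
    by_cases h' : ∃ u, (u, q) ∈ S.spF w
    · exact Or.inr ⟨h, h'⟩
    · push Not at h'
      exact Or.inl ⟨h, h'⟩
  have fV : FinOrb ↥(stabilizer H w) (S.s2V w ∪ A) := by
    refine Pool.Agent.SAF.FinOrb.mono ?_ (fin_dq (S := S) w)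
    rintro q (h | h)
    · exact h.1.1
    · exact h.1.1
  have h3 := oc_mono fV hcov
  have h4 := oc_union_le (G := ↥(stabilizer H w)) (S.s2V w) A
  omega

/-! ### the law -/

theorem Ec_le (hc : S.Conn) (hl : S.Lt) (w : S.X) : (S.kf hc w).Ec ≤
    oc ↥(stabilizer H w) (S.Tp hc w) + oc ↥(stabilizer H w) (S.tr1 w) +
      oc ↥(stabilizer H w) (S.pS w) + oc ↥(stabilizer H w) (S.rg1 w) +
      oc ↥(stabilizer H w) (S.pS w) := by
  have fh : FinOrb ↥(stabilizer H w) (S.kf hc w).hal := (S.kf hc w).finHal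
  let T := (S.kf hc w).hal
  have hcov : T ⊆ (T ∩ S.Tp hc w) ∪ (((T ∩ S.Tg w (S.tr1 w)) ∪ (T ∩ S.Tg w (S.tr2 w))) ∪
      ((T ∩ S.Rg w (S.rg1 w)) ∪ (T ∩ S.Rg w (S.rg2 w)))) := by
    intro p hp
    rcases hk_sub hl hp with h | ((h | h) | (h | h))
    · exact Or.inl ⟨hp, h⟩
    · exact Or.inr (Or.inl (Or.inl ⟨hp, h⟩))
    · exact Or.inr (Or.inl (Or.inr ⟨hp, h⟩))
    · exact Or.inr (Or.inr (Or.inl ⟨hp, h⟩))
    · exact Or.inr (Or.inr (Or.inr ⟨hp, h⟩))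
  have hsub : (T ∩ S.Tp hc w) ∪ (((T ∩ S.Tg w (S.tr1 w)) ∪ (T ∩ S.Tg w (S.tr2 w))) ∪
      ((T ∩ S.Rg w (S.rg1 w)) ∪ (T ∩ S.Rg w (S.rg2 w)))) ⊆ T := by
    rintro p (h | ((h | h) | (h | h))) <;> exact h.1
  have h0 := oc_mono (Pool.Agent.SAF.FinOrb.mono hsub fh) hcov
  have h1 := oc_union_le (G := ↥(stabilizer H w)) (T ∩ S.Tp hc w)
    (((T ∩ S.Tg w (S.tr1 w)) ∪ (T ∩ S.Tg w (S.tr2 w))) ∪
      ((T ∩ S.Rg w (S.rg1 w)) ∪ (T ∩ S.Rg w (S.rg2 w))))
  have h2 := oc_union_le (G := ↥(stabilizer H w))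
    ((T ∩ S.Tg w (S.tr1 w)) ∪ (T ∩ S.Tg w (S.tr2 w)))
    ((T ∩ S.Rg w (S.rg1 w)) ∪ (T ∩ S.Rg w (S.rg2 w)))
  have h3 := oc_union_le (G := ↥(stabilizer H w)) (T ∩ S.Tg w (S.tr1 w)) (T ∩ S.Tg w (S.tr2 w))
  have h4 := oc_union_le (G := ↥(stabilizer H w)) (T ∩ S.Rg w (S.rg1 w)) (T ∩ S.Rg w (S.rg2 w))
  -- finiteness of the targets
  have s1 : S.tr1 w ⊆ S.trr w := fun p h => h.1
  have f1 : FinOrb ↥(stabilizer H w) (S.tr1 w) := Pool.Agent.SAF.FinOrb.mono s1 (fin_trr w)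
  have s2 : S.rg1 w ⊆ S.rg w := fun p h => h.1
  have f2 : FinOrb ↥(stabilizer H w) (S.rg1 w) := Pool.Agent.SAF.FinOrb.mono s2 (fin_rg w)
  have mono' : ∀ {A B : Set (S.Q w × S.Q w)}, A ⊆ T → ∀ n, oc ↥(stabilizer H w) B ≤ n →
      (FinOrb ↥(stabilizer H w) B) → A ⊆ B → oc ↥(stabilizer H w) A ≤ n := by
    intro A B _ n hn hB hAB
    exact (oc_mono hB hAB).trans hn
  have fTp : FinOrb ↥(stabilizer H w) (S.Tp hc w) := by
    refine Pool.Agent.SAF.FinOrb.mono ?_ fh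
    intro p h
    exact h.1
  have fTg1 : FinOrb ↥(stabilizer H w) (S.Tg w (S.tr1 w)) := by
    apply finOrb_of_rel f1 (fun p f => ∃ hu : S.D.G.Adj w f.1, p.1 = S.fq w (S.rho w f.2.1) ∧
      p.2 = S.fq w (Sum.inr ⟨f.1, hu⟩))
    · rintro p ⟨f, hf, hu, h1, h2⟩
      exact ⟨f, hf, hu, h1, h2⟩
    · rintro p _ p' _ f _ f' _ ⟨hu, h1, h2⟩ ⟨hu', h1', h2'⟩ ⟨g, rfl⟩
      refine ⟨g, Prod.ext ?_ ?_⟩
      · show g • p.1 = p'.1
        rw [h1, h1', ← fq_smul, ← S.rho_smul]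
        rfl
      · show g • p.2 = p'.2
        rw [h2, h2']
        exact (inr_smul g hu hu' rfl).symm
  have fTg2 : FinOrb ↥(stabilizer H w) (S.Tg w (S.tr2 w)) := by
    have s3 : S.tr2 w ⊆ S.trr w := fun p h => h.1
    apply finOrb_of_rel (Pool.Agent.SAF.FinOrb.mono s3 (fin_trr w))
      (fun p f => ∃ hu : S.D.G.Adj w f.1, p.1 = S.fq w (S.rho w f.2.1) ∧
      p.2 = S.fq w (Sum.inr ⟨f.1, hu⟩))
    · rintro p ⟨f, hf, hu, h1, h2⟩
      exact ⟨f, hf, hu, h1, h2⟩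
    · rintro p _ p' _ f _ f' _ ⟨hu, h1, h2⟩ ⟨hu', h1', h2'⟩ ⟨g, rfl⟩
      refine ⟨g, Prod.ext ?_ ?_⟩
      · show g • p.1 = p'.1
        rw [h1, h1', ← fq_smul, ← S.rho_smul]
        rfl
      · show g • p.2 = p'.2
        rw [h2, h2']
        exact (inr_smul g hu hu' rfl).symm
  have fRg : ∀ A : Set (V × V), FinOrb ↥(stabilizer H w) A →
      FinOrb ↥(stabilizer H w) (S.Rg w A) := by
    intro A hA
    apply finOrb_of_rel hA (fun p f => p.1 = S.fq w (S.rho w f.1) ∧ p.2 = S.fq w (S.rho w f.2))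
    · rintro p ⟨f, hf, h1, h2⟩
      exact ⟨f, hf, h1, h2⟩
    · rintro p _ p' _ f _ f' _ ⟨h1, h2⟩ ⟨h1', h2'⟩ ⟨g, rfl⟩
      refine ⟨g, Prod.ext ?_ ?_⟩
      · show g • p.1 = p'.1
        rw [h1, h1', ← fq_smul, ← S.rho_smul]
        rfl
      · show g • p.2 = p'.2
        rw [h2, h2', ← fq_smul, ← S.rho_smul]
        rfl
  have s4 : S.rg2 w ⊆ S.rg w := fun p h => h.1
  have f3 : FinOrb ↥(stabilizer H w) (S.rg2 w) := Pool.Agent.SAF.FinOrb.mono s4 (fin_rg w)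
  have b0 := oc_mono fTp (Set.inter_subset_right (s := T) (t := S.Tp hc w))
  have b1 := (oc_mono fTg1 (Set.inter_subset_right (s := T) (t := S.Tg w (S.tr1 w)))).trans
    (oc_Tg_le f1)
  have b2 := (oc_mono fTg2 (Set.inter_subset_right (s := T) (t := S.Tg w (S.tr2 w)))).trans
    (oc_Tg2_le w)
  have b3 := (oc_mono (fRg _ f2) (Set.inter_subset_right (s := T) (t := S.Rg w (S.rg1 w)))).trans
    (oc_Rg_le f2)
  have b4 := (oc_mono (fRg _ f3) (Set.inter_subset_right (s := T) (t := S.Rg w (S.rg2 w)))).trans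
    (oc_Rg2_le w)
  show oc ↥(stabilizer H w) T ≤ _
  omega

/-- THE LOCAL E-LAW -/
theorem local_law (hc : S.Conn) (hl : S.Lt) (hl2 : S.Lt2) (w : S.X) :
    ((S.kf hc w).Ec : ℤ) + 2 * (oc ↥(stabilizer H w) (S.nl w) - oc ↥(stabilizer H w) (S.ns w)) +
      oc ↥(stabilizer H w) (S.sds w) + oc ↥(stabilizer H w) (S.mdV w) ≤
      oc ↥(stabilizer H w) (S.r0 w) + oc ↥(stabilizer H w) (S.vf w) + (S.ThM w).fg.b1 := by
  have h1 := Ec_le hc hl w
  have h2 := Tp_le hc w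
  have h3 := flags_le (S := S) w
  have h4 := trr_split (S := S) w
  have h5 := rg_split (S := S) w
  have h6 := real_le (S := S) w
  have h7 := tr2_le_rg2 hl w
  have h8 := vn_le_rn hl w
  have h9 := vd_le_rd hl w
  have h10 := ln_le_vn (S := S) w
  have h11 := ld_le_vd (S := S) w
  have h12 := nl_le (S := S) w
  have h13 := le_ns (S := S) w
  have h14 := lg_le (S := S) w
  have h15 := sdf_le (S := S) w
  have h16 := dQf_le (S := S) w
  have h17 := ls_pairs (S := S) w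
  have h18 := ls_le_rs hl2 w
  have h19 := rq_pairs hl2 w
  have h20 := dQf_pairs (S := S) w
  have h21 := lD_pairs (S := S) w
  have h22 := md_le (S := S) w
  omega

end Sys

end Pool.Agent.DI
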