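import Pool.Agent.DI.ELf
import Pool.Agent.DI.ELt2

/-!
# The E-law over a midpoint

`OvU S w u w'`: what is known about the elements over a midpoint `u`. `Ec_ge`: the half-edges of `K` are
placed at `w` or at `u`. `tt_conn`: the graph `TT` is connected. `mid_law`: the E-law
`E(kf) + M_w + l + b1 (TT/J) ≤ E(K) + 1 + b1 (Theta/J)`, `l` the number of lost vertices which are not of
type (s2).
-/

namespace Pool.Agent.DI

open MulAction
open Pool.Agent.SAF (InC orbs FinOrb oc Decomp SAn SA Conv hull dist_edge FinOrb_iff exists_next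
  mk_eq_iff oc_le_of_inj oc_le_of_rel oc_le_of_surj oc_mono)
open Pool.Agent.BT (PX PQ JS bey exits lz lz_self lz_ne lz_symm x_next_unique)
open Pool.Agent.BT.TA

section

variable {H Y : Type} [Group H] [MulAction H Y] {K : Subgroup H}

/-- comparison of orbit numbers by an element of the normaliser -/
theorem oc_conj_le {b : H} (hb : ∀ g ∈ K, b⁻¹ * g * b ∈ K) {A1 A2 : Set Y} (hf : FinOrb ↥K A2)
    (h : ∀ a ∈ A1, b • a ∈ A2) : oc ↥K A1 ≤ oc ↥K A2 := by
  apply oc_le_of_inj hf (fun a => b • a) h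
  rintro a _ a' _ ⟨g, e⟩
  have e : g.1 • b • a = b • a' := e
  refine ⟨⟨b⁻¹ * g.1 * b, hb g.1 g.2⟩, ?_⟩
  show (b⁻¹ * g.1 * b) • a = a'
  rw [mul_smul, mul_smul, e, inv_smul_smul]

theorem finOrb_conj {b : H} (hb : ∀ g ∈ K, b⁻¹ * g * b ∈ K) {A1 A2 : Set Y} (hf : FinOrb ↥K A2)
    (h : ∀ a ∈ A1, b • a ∈ A2) : FinOrb ↥K A1 := by
  apply Pool.Agent.SAF.FinOrb.of_inj hf (fun a => b • a) h
  rintro a _ a' _ ⟨g, e⟩
  have e : g.1 • b • a = b • a' := e
  refine ⟨⟨b⁻¹ * g.1 * b, hb g.1 g.2⟩, ?_⟩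
  show (b⁻¹ * g.1 * b) • a = a'
  rw [mul_smul, mul_smul, e, inv_smul_smul]

end

namespace Sys

variable {H V : Type} [Group H] [MulAction H V] (S : Sys H V)

/-- the lost vertices -/
def Nu (u : S.X) : Set V := {v | S.J v = {u}}

/-- their arrows -/
def Pu (u : S.X) : Set (V × V) := {p | S.J p.1 = {u} ∧ S.K.ar p.1 p.2}

/-- the arrows of their pages -/
def Au (u : S.X) : Set (V × V) := {p | u ∈ S.J p.1 ∧ S.J p.2 = {u} ∧ S.K.ar p.1 p.2}

/-- the structure over a midpoint -/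
structure OvU (w u w' : S.X) : Prop where
  mid : S.Mid w u w'
  u1 : S.U1 u
  fin : ∀ v, S.J v = {u} → Finite ↥(stabilizer H v)
  pol : ∀ v, S.J v = {u} → ∃ a b, a ≠ b ∧ S.K.ar v a ∧ S.K.ar v b
  crs : ∀ v a, S.J v = {u} → S.K.ar v a → w ∈ S.J a ∧ w' ∈ S.J a
  rev : ∀ v, S.J v = {u} → ∃ g : H, g • v = v ∧ g • w = w'

/-- lost vertices which are not of type (s2) -/
def l1 (w u : S.X) : Set V := {v | v ∈ S.Nu u ∧
  (Spc ↥(stabilizer H u) (fun (v : V) (a : V) => S.K.ar v a) v →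
    Spc ↥(Je w u : Subgroup H) (fun (v : V) (a : V) => S.K.ar v a) v)}

variable {S}

theorem OvU.symm {w u w' : S.X} (h : S.OvU w u w') : S.OvU w' u w where
  mid := h.mid.symm
  u1 := h.u1
  fin := h.fin
  pol := h.pol
  crs v a h1 h2 := (h.crs v a h1 h2).symm
  rev v hv := by
    obtain ⟨g, h1, h2⟩ := h.rev v hv
    have hu : g • u = u := by
      have h3 := J_sing (g := g) hv
      rw [h1, hv] at h3
      exact (Set.singleton_injective h3).symm
    rcases h.mid.cases hu with h4 | h4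
    · exact absurd (h4.1.symm.trans h2) h.mid.ne
    · exact ⟨g, h1, h4.2⟩

theorem ne_of_mem {u z : S.X} {v : V} (h : S.J v = {u}) (hz : z ∈ S.J v) : z = u := by
  rw [h] at hz
  exact hz

/-! ### half-edges of `K` -/

theorem Ec_ge {w u : S.X} (hd : ∀ h : H, h • w ≠ u) :
    oc ↥(stabilizer H w) (S.r0 w) + oc ↥(stabilizer H u) (S.r0 u) ≤ S.K.Ec := by
  have key : ∀ z : S.X, oc ↥(stabilizer H z) (S.r0 z) ≤
      oc H {p : V × V | p ∈ S.K.hal ∧ ∃ h : H, h • z ∈ S.J p.1 ∧ h • z ∈ S.J p.2} := by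
    intro z
    apply oc_le_of_inj (S.K.finHal.mono fun _ h => h.1) (fun p => p)
    · intro p hp
      exact ⟨hp.1, 1, by rw [one_smul]; exact hp.2⟩
    · rintro a ha b hb ⟨g, e⟩
      have e : g • a = b := e
      subst e
      have h1 := S.js.smul g _ _ ha.2.1
      have h2 := S.js.smul g _ _ ha.2.2
      have h3 : g • z = z := S.one_eq (Or.inl hb.1.1) h1 h2 hb.2.1 hb.2.2
      exact ⟨⟨g, h3⟩, rfl⟩
  have h := oc_add_le (G := H) (A := {p : V × V | p ∈ S.K.hal ∧ ∃ h : H, h • w ∈ S.J p.1 ∧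
    h • w ∈ S.J p.2}) (B := {p : V × V | p ∈ S.K.hal ∧ ∃ h : H, h • u ∈ S.J p.1 ∧
    h • u ∈ S.J p.2}) ?_ S.K.finHal (fun _ h => h.1) (fun _ h => h.1)
  · have h1 := key w
    have h2 := key u
    unfold GX.Ec
    omega
  · rintro p ⟨hp, k, k1, k2⟩ g ⟨hp', k', k1', k2'⟩
    have h1 := S.js.smul g _ _ k1
    have h2 := S.js.smul g _ _ k2
    have h3 : g • k • w = k' • u := S.one_eq (Or.inl hp'.1) h1 h2 k1' k2'
    apply hd (k'⁻¹ * g * k)
    rw [mul_smul, mul_smul, h3, inv_smul_smul]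

/-! ### the elements over `u` -/

/-- an element over `u` only, or over a neighbour -/
theorem Mid.over {w u w' : S.X} (m : S.Mid w u w') {x : V} (hx : u ∈ S.J x) :
    S.J x = {u} ∨ w ∈ S.J x ∨ w' ∈ S.J x := by
  by_cases h : ∃ p, p ∈ S.J x ∧ u ≠ p
  · obtain ⟨p, hp, hne⟩ := h
    obtain ⟨z, hz, hcs⟩ := ex_cross hx hp hne
    rcases m.val z hz with e | e
    · subst e
      exact Or.inr (Or.inl hcs.2)
    · subst e
      exact Or.inr (Or.inr hcs.2)
  · push Not at h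
    left
    apply Set.eq_singleton_iff_unique_mem.2
    exact ⟨hx, fun z hz => (h z hz).symm⟩

theorem OvU.no_self {w u w' : S.X} (o : S.OvU w u w') {x v : V} (hx : S.J x = {u})
    (hv : S.J v = {u}) : ¬ S.K.E x v := by
  rintro (h | h)
  · exact o.mid.hw.ne (ne_of_mem hv (o.crs x v hx h).1).symm
  · exact o.mid.hw.ne (ne_of_mem hx (o.crs v x hv h).1).symm

/-- an element with an arrow to a lost vertex crosses one edge at `u` only -/
theorem OvU.page {w u w' : S.X} (o : S.OvU w u w') {x v : V} (h : (x, v) ∈ S.Au u) :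
    (w ∈ S.J x ∧ w' ∉ S.J x) ∨ (w' ∈ S.J x ∧ w ∉ S.J x) := by
  obtain ⟨h1, h2, h3⟩ := h
  have h1 : u ∈ S.J x := h1
  have h2 : S.J v = {u} := h2
  have h3 : S.K.ar x v := h3
  have hn : ¬ (w ∈ S.J x ∧ w' ∈ S.J x) := by
    rintro ⟨k1, k2⟩
    obtain ⟨a, a1, a2⟩ := S.js.cross x ⟨v, h3⟩ u w o.mid.hw h1 k1
    obtain ⟨b, b1, b2⟩ := S.js.cross x ⟨v, h3⟩ u w' o.mid.hw' h1 k2
    obtain ⟨p, hp⟩ := S.js.ne a
    obtain ⟨q, hq⟩ := S.js.ne b
    rcases S.K.two x a b v a1 b1 h3 with e | e | e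
    · subst e
      exact o.mid.ne (S.bey_unique o.mid.hw o.mid.hw' (a2 hp) (b2 hp))
    · subst e
      have := b2 hq
      rw [ne_of_mem h2 hq] at this
      exact bey_not this (bey_self o.mid.hw'.symm)
    · subst e
      have := a2 hp
      rw [ne_of_mem h2 hp] at this
      exact bey_not this (bey_self o.mid.hw.symm)
  rcases o.mid.over h1 with e | e | e
  · exact absurd (Or.inl h3) (o.no_self e h2)
  · exact Or.inl ⟨e, fun k => hn ⟨e, k⟩⟩
  · exact Or.inr ⟨e, fun k => hn ⟨k, e⟩⟩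

/-- the lost vertex of a page is unique -/
theorem OvU.uniq {w u w' : S.X} (o : S.OvU w u w') {x v v' : V} (h : (x, v) ∈ S.Au u)
    (h' : (x, v') ∈ S.Au u) : v = v' := by
  have key : ∀ z, S.D.G.Adj u z → z ∈ S.J x → v = v' := by
    intro z hz hzx
    obtain ⟨a, a1, a2⟩ := S.js.cross x ⟨v, h.2.2⟩ u z hz h.1 hzx
    obtain ⟨p, hp⟩ := S.js.ne a
    have hna : ∀ v'', S.J v'' = {u} → a ≠ v'' := by
      rintro v'' hv e
      subst e
      have := a2 hp
      rw [ne_of_mem hv hp] at this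
      exact bey_not this (bey_self hz.symm)
    rcases S.K.two x v v' a h.2.2 h'.2.2 a1 with e | e | e
    · exact e
    · exact absurd e.symm (hna v' h'.2.1)
    · exact absurd e.symm (hna v h.2.1)
  rcases o.page h with e | e
  · exact key w o.mid.hw e.1
  · exact key w' o.mid.hw' e.1

/-- the half-edges at `u` -/
theorem OvU.sub_r0 (hl : S.Lt) {w u w' : S.X} (o : S.OvU w u w') :
    S.Pu u ∪ S.Au u ⊆ S.r0 u := by
  rintro ⟨x, a⟩ (⟨h1, h2⟩ | h)
  · have h1 : S.J x = {u} := h1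
    have h2 : S.K.ar x a := h2
    have hu : u ∈ S.J x := by rw [h1]; exact rfl
    refine ⟨⟨h2, ?_, o.fin x h1⟩, hu, ?_⟩
    · obtain ⟨b, c, hbc, hb, hc⟩ := o.pol x h1
      by_cases e : b = a
      · subst e
        exact ⟨c, hc, hbc.symm⟩
      · exact ⟨b, hb, e⟩
    · obtain ⟨p, hp, hp'⟩ := S.one_ex (Or.inl h2)
      rw [ne_of_mem h1 hp] at hp'
      exact hp'
  · have h' := h
    obtain ⟨h1, h2, h3⟩ := h
    have h1 : u ∈ S.J x := h1
    have h2 : S.J a = {u} := h2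
    have h3 : S.K.ar x a := h3
    have key : ∀ z, S.D.G.Adj u z → z ∈ S.J x → (x, a) ∈ S.r0 u := by
      intro z hz hzx
      obtain ⟨b, b1, b2⟩ := S.js.cross x ⟨a, h3⟩ u z hz h1 hzx
      obtain ⟨p, hp⟩ := S.js.ne b
      refine ⟨⟨h3, ⟨b, b1, ?_⟩, hl x ⟨a, h3⟩ u z hz ⟨h1, hzx⟩⟩, h1, by rw [h2]; exact rfl⟩
      rintro rfl
      have := b2 hp
      rw [ne_of_mem h2 hp] at this
      exact bey_not this (bey_self hz.symm)
    rcases o.page h' with e | e
    · exact key w o.mid.hw e.1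
    · exact key w' o.mid.hw' e.1

/-! ### `TT` is connected -/

/-- the far stars of `w u` which are not over `u` -/
theorem Qs.flip0 {w u w' : S.X} (m : S.Mid w u w') {q a b : V} (hqu : u ∉ S.J q)
    (h : S.Qs u w q a b) : S.Qs w' u q a b := by
  have hq : S.J q ⊆ bey S.D.G w u := h.near
  have hd : S.dir u q = w' := by
    rcases m.val _ (S.dir_adj hqu) with h4 | h4
    · exfalso
      have h5 := S.dir_bey hqu
      rw [h4] at h5
      exact not_near_far h5 hq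
    · exact h4
  have ha : ∀ {a b : V}, S.Qs u w q a b → S.Cs w' u a := by
    intro a b h
    have h3 : S.dir u q ∈ S.J a := S.dir_cross h.E1 h.l.1 hqu
    rw [hd] at h3
    exact ⟨h3, h.l.1⟩
  have c1 := ha h
  have c2 := ha h.symm'
  obtain ⟨y, z, hp, hs⟩ := h
  have hqd : S.J q ⊆ bey S.D.G u w' := by
    have h5 := S.dir_bey hqu
    rwa [hd] at h5
  have hsub : bey S.D.G u w ⊆ bey S.D.G w' u := bey_nest m.hw' m.hw m.ne
  exact ⟨y, z, hp, m.hw'.symm, c1, c2, hqd, fun p hp => hsub (hs.2.2.2.2.1 hp),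
    fun p hp => hsub (hs.2.2.2.2.2 hp)⟩

/-- lines of `TT` at a near star -/
theorem TTO.of_near {w u w' : S.X} {q x x' : V} (h : S.Qs w u q x x') :
    S.TTO w u w' (TV.el x) (TV.st q (S.Star w u q x)) := ⟨x, q, rfl, Or.inl ⟨x', h, rfl⟩⟩

theorem tt_near {w u w' : S.X} {q x x' : V} (h : S.Qs w u q x x') :
    Relation.EqvGen (S.TTO w u w') (TV.el x) (TV.el x') := by
  refine Relation.EqvGen.trans _ _ _ (Relation.EqvGen.rel _ _ (TTO.of_near h)) ?_
  rw [Star_eq (Relation.EqvGen.rel _ _ h)]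
  exact Relation.EqvGen.symm _ _ (Relation.EqvGen.rel _ _ (TTO.of_near h.symm'))

theorem tt_swap {w u w' : S.X} {t s : TV V} (h : Relation.EqvGen (S.TTO w' u w) t s) :
    Relation.EqvGen (S.TTO w u w') t s := by
  induction h with
  | rel a b h => exact Relation.EqvGen.rel _ _ h.swap
  | refl a => exact Relation.EqvGen.refl _
  | symm a b _ ih => exact Relation.EqvGen.symm _ _ ih
  | trans a b c _ _ ih1 ih2 => exact Relation.EqvGen.trans _ _ _ ih1 ih2

theorem OvU.tt_pw {w u w' : S.X} (o : S.OvU w u w') {x z : V} (h : S.PW u w x z) :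
    Relation.EqvGen (S.TTO w u w') (TV.el x) (TV.el z) := by
  obtain ⟨q, h | h⟩ := pw_iff.1 h
  · by_cases hqu : u ∈ S.J q
    · have hq : S.J q = {u} := by
        rcases o.u1 x q h.E1 h.l.1 hqu with e | e
        · exact absurd (ne_of_mem e h.l.2) o.mid.hw.ne.symm
        · exact e
      exact Relation.EqvGen.trans _ _ _
        (Relation.EqvGen.rel _ (TV.st q ∅) ⟨x, q, rfl, Or.inr (Or.inr ⟨hq, h.l.1, h.E1, rfl⟩)⟩)
        (Relation.EqvGen.symm _ _ (Relation.EqvGen.rel (TV.el z) (TV.st q ∅)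
          ⟨z, q, rfl, Or.inr (Or.inr ⟨hq, h.r.1, h.E2, rfl⟩)⟩))
    · exact tt_swap (tt_near (h.flip0 o.mid hqu))
  · exact tt_near h

open Classical in
/-- the vertex of `TT` of an element over `u` -/
noncomputable def ttv (u : S.X) (x : V) : TV V := if S.J x = {u} then TV.st x ∅ else TV.el x

theorem ttv_lost {u : S.X} {x : V} (h : S.J x = {u}) : ttv u x = TV.st x ∅ := if_pos h

theorem ttv_el {u : S.X} {x : V} (h : S.J x ≠ {u}) : ttv u x = TV.el x := if_neg h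

theorem ne_sing {w u : S.X} (hu : S.D.G.Adj u w) {x : V} (h : w ∈ S.J x) : S.J x ≠ {u} :=
  fun e => hu.ne (ne_of_mem e h).symm

theorem OvU.tt_sr {w u w' : S.X} (o : S.OvU w u w') {x z : V} (h : S.SR u x z) :
    Relation.EqvGen (S.TTO w u w') (ttv u x) (ttv u z) := by
  rcases h with ⟨e, h1, h2⟩ | ⟨t, h⟩
  · have key : ∀ {x z : V}, S.K.E x z → u ∈ S.J x → S.J z = {u} →
        Relation.EqvGen (S.TTO w u w') (ttv u x) (ttv u z) := by
      intro x z e h1 h2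
      have hx : S.J x ≠ {u} := fun k => o.no_self k h2 e
      rw [ttv_el hx, ttv_lost h2]
      exact Relation.EqvGen.rel _ _ ⟨x, z, rfl, Or.inr (Or.inr ⟨h2, h1, e, rfl⟩)⟩
    rcases o.u1 x z e h1 h2 with k | k
    · exact Relation.EqvGen.symm _ _ (key e.symm h2 k)
    · exact key e h1 k
  · rcases o.mid.val t h.1 with e | e
    · subst e
      rw [ttv_el (ne_sing o.mid.hw h.l.2), ttv_el (ne_sing o.mid.hw h.r.2)]
      exact o.tt_pw h
    · subst e
      rw [ttv_el (ne_sing o.mid.hw' h.l.2), ttv_el (ne_sing o.mid.hw' h.r.2)]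
      exact tt_swap (o.symm.tt_pw h)

theorem OvU.tt_over (hc : S.Conn) {w u w' : S.X} (o : S.OvU w u w') {x z : V} (hx : u ∈ S.J x)
    (hz : u ∈ S.J z) : Relation.EqvGen (S.TTO w u w') (ttv u x) (ttv u z) := by
  have := hc.slice u x z hx hz
  clear hx hz
  induction this with
  | rel a b h => exact o.tt_sr h
  | refl a => exact Relation.EqvGen.refl _
  | symm a b _ ih => exact Relation.EqvGen.symm _ _ ih
  | trans a b c _ _ ih1 ih2 => exact Relation.EqvGen.trans _ _ _ ih1 ih2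

/-- the element of a line is over `u` and crosses -/
theorem OvU.line_el {w u w' : S.X} (o : S.OvU w u w') {t s : TV V} (h : S.TTO w u w' t s) :
    ∃ x, t = TV.el x ∧ u ∈ S.J x ∧ (w ∈ S.J x ∨ w' ∈ S.J x) := by
  obtain ⟨x, q, rfl, h⟩ := h
  refine ⟨x, rfl, ?_⟩
  rcases h with ⟨x', h1, rfl⟩ | ⟨x', h1, rfl⟩ | ⟨h1, h2, h3, rfl⟩
  · exact ⟨h1.l.2, Or.inl h1.l.1⟩
  · exact ⟨h1.l.2, Or.inr h1.l.1⟩
  · refine ⟨h2, ?_⟩
    rcases o.mid.over h2 with e | e
    · exact absurd h3 (o.no_self e h1)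
    · exact e

/-- every vertex is connected to the vertex of an element over `u` -/
theorem OvU.tt_base {w u w' : S.X} (o : S.OvU w u w') {t : TV V} (h : S.TTN w u w' t) :
    ∃ x, u ∈ S.J x ∧ Relation.EqvGen (S.TTO w u w') t (ttv u x) := by
  have hel : ∀ x, u ∈ S.J x → (w ∈ S.J x ∨ w' ∈ S.J x) → ttv u x = TV.el x := by
    rintro x - (e | e)
    · exact ttv_el (ne_sing o.mid.hw e)
    · exact ttv_el (ne_sing o.mid.hw' e)
  rcases h with ⟨x, rfl, h1, h2⟩ | ⟨t', h⟩ | ⟨v, h, rfl⟩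
  · refine ⟨x, h1, ?_⟩
    rw [hel x h1 h2]
    exact Relation.EqvGen.refl _
  · obtain ⟨x, rfl, h1, h2⟩ := o.line_el h
    refine ⟨x, h1, ?_⟩
    rw [hel x h1 h2]
    exact Relation.EqvGen.symm _ _ (Relation.EqvGen.rel _ _ h)
  · refine ⟨v, by rw [h]; exact rfl, ?_⟩
    rw [ttv_lost h]
    exact Relation.EqvGen.refl _

/-- members of a chain are vertices -/
theorem OvU.eqv_sub {w u w' : S.X} (o : S.OvU w u w') {K : Subgroup H} (hK : K ≤ stabilizer H u)
    (hJ : Je w u ≤ K) {t s : TV V} (h : Relation.EqvGen (S.TTO w u w') t s)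
    (ht : S.TTN w u w' t) : ∃ hs : S.TTN w u w' s,
      Relation.EqvGen (S.JTT o.mid hK hJ).st ⟨t, ht⟩ ⟨s, hs⟩ := by
  have hst : ∀ a b : ↥(S.TTS o.mid hK), (S.JTT o.mid hK hJ).st a b ↔ S.TTO w u w' a.1 b.1 :=
    fun a b => JM.ofO_st a b
  have key : ∀ t s, Relation.EqvGen (S.TTO w u w') t s →
      (S.TTN w u w' t ↔ S.TTN w u w' s) ∧ ∀ (ht : S.TTN w u w' t) (hs : S.TTN w u w' s),
        Relation.EqvGen (S.JTT o.mid hK hJ).st ⟨t, ht⟩ ⟨s, hs⟩ := by
    intro t s h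
    induction h with
    | rel a b h =>
      obtain ⟨x, rfl, h1, h2⟩ := o.line_el h
      refine ⟨⟨fun _ => Or.inr (Or.inl ⟨_, h⟩), fun _ => Or.inl ⟨x, rfl, h1, h2⟩⟩, ?_⟩
      intro ht hs
      exact Relation.EqvGen.rel _ _ ((hst _ _).2 h)
    | refl a => exact ⟨Iff.rfl, fun _ _ => Relation.EqvGen.refl _⟩
    | symm a b _ ih => exact ⟨ih.1.symm, fun ht hs => Relation.EqvGen.symm _ _ (ih.2 hs ht)⟩
    | trans a b c _ _ ih1 ih2 =>
      exact ⟨ih1.1.trans ih2.1, fun ht hs => Relation.EqvGen.trans _ _ _ (ih1.2 ht (ih1.1.1 ht))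
        (ih2.2 (ih1.1.1 ht) hs)⟩
  exact ⟨(key t s h).1.1 ht, (key t s h).2 ht _⟩

/-- `TT` is connected -/
theorem OvU.tt_conn (hc : S.Conn) {w u w' : S.X} (o : S.OvU w u w') {K : Subgroup H}
    (hK : K ≤ stabilizer H u) (hJ : Je w u ≤ K) : (S.JTT o.mid hK hJ).fg.Cn := by
  apply JM.cn_of_conn
  · obtain ⟨x, hx⟩ := hc.crossed u w o.mid.hw
    exact ⟨⟨TV.el x, Or.inl ⟨x, rfl, hx.1, Or.inl hx.2⟩⟩⟩
  · rintro ⟨t, ht⟩ ⟨s, hs⟩
    obtain ⟨x, hx, h1⟩ := o.tt_base ht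
    obtain ⟨z, hz, h2⟩ := o.tt_base hs
    have h3 := Relation.EqvGen.trans _ _ _ (Relation.EqvGen.trans _ _ _ h1 (o.tt_over hc hx hz))
      (Relation.EqvGen.symm _ _ h2)
    exact (o.eqv_sub hK hJ h3 ht).2

end Sys

end Pool.Agent.DI
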