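import Pool.Agent.DI.ELg

/-!
# The E-law over a midpoint: the count

`mid_law`: the E-law `E(kf) + M_w + l + b1 (TT/J) ≤ E(K) + 1 + b1 (Theta/J)`, `l` the number of lost
vertices which are not of type (s2).
-/

namespace Pool.Agent.DI

open MulAction
open Pool.Agent.SAF (InC orbs FinOrb oc Decomp SAn SA Conv hull dist_edge FinOrb_iff exists_next
  mk_eq_iff oc_le_of_inj oc_le_of_rel oc_le_of_surj oc_mono)
open Pool.Agent.BT (PX PQ JS bey exits lz lz_self lz_ne lz_symm x_next_unique)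
open Pool.Agent.BT.TA

namespace Sys

variable {H V : Type} [Group H] [MulAction H V] {S : Sys H V} {w u w' : S.X}

theorem Mid.conj (m : S.Mid w u w') {b : H} (hb : b • u = u) (hbw : b • w = w') :
    ∀ g ∈ (Je w u : Subgroup H), b⁻¹ * g * b ∈ (Je w u : Subgroup H) := by
  rintro g ⟨hg1, hg2⟩
  have hg1 : g • w = w := hg1
  have hg2 : g • u = u := hg2
  have h1 : g • w' = w' := m.fix' hg2 hg1
  constructor
  · show (b⁻¹ * g * b) • w = w
    rw [mul_smul, mul_smul, hbw, h1, ← hbw, inv_smul_smul]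
  · show (b⁻¹ * g * b) • u = u
    rw [mul_smul, mul_smul, hb, hg2, inv_smul_eq_iff.2 hb.symm]

theorem Mid.swap' (m : S.Mid w u w') {b : H} (hb : b • u = u) (hbw : b • w = w') : b • w' = w := by
  rcases m.cases hb with h | h
  · exact absurd (h.1.symm.trans hbw) m.ne
  · exact h.2

theorem je_le_w (w u : S.X) : (Je w u : Subgroup H) ≤ stabilizer H w := inf_le_left

/-- flags at `w` and elements of the edge `w u` -/
theorem flag_slice {Y : Type} [MulAction H Y]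
    (htr : ∀ u', S.D.G.Adj w u' → ∃ g : ↥(stabilizer H w), g.1 • u = u')
    {A : Set (S.X × Y)} (hA : ∀ (g : ↥(stabilizer H w)), ∀ p ∈ A, g • p ∈ A)
    (hadj : ∀ p ∈ A, S.D.G.Adj w p.1) (hf : FinOrb ↥(stabilizer H w) A) :
    oc ↥(Je w u : Subgroup H) {y : Y | (u, y) ∈ A} = oc ↥(stabilizer H w) A := by
  have h1 := oc_slice (K1 := stabilizer H w) (K2 := Je w u) (A1 := A)
    (A2 := {p | p ∈ A ∧ p.1 = u}) (je_le_w w u) hf (fun _ h => h.1)
    (by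
      intro y hy
      obtain ⟨g, hg⟩ := htr y.1 (hadj y hy)
      refine ⟨g.1⁻¹, (stabilizer H w).inv_mem g.2, hA g⁻¹ y hy, ?_⟩
      show g.1⁻¹ • y.1 = u
      rw [← hg, inv_smul_smul])
    (by
      rintro g hg y ⟨_, hy⟩ ⟨_, hy'⟩
      refine ⟨hg, ?_⟩
      show g • u = u
      have hy' : g • y.1 = u := hy'
      rwa [hy] at hy')
  rw [← h1]
  have hf2 : FinOrb ↥(Je w u : Subgroup H) {p | p ∈ A ∧ p.1 = u} := by
    apply finOrb_slice (K1 := stabilizer H w) hf (fun _ h => h.1)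
    rintro g hg y ⟨_, hy⟩ ⟨_, hy'⟩
    refine ⟨hg, ?_⟩
    show g • u = u
    have hy' : g • y.1 = u := hy'
    rwa [hy] at hy'
  apply le_antisymm
  · apply oc_le_of_inj hf2 (fun y => (u, y))
    · intro y hy
      exact ⟨hy, rfl⟩
    · rintro a _ b _ ⟨g, e⟩
      exact ⟨g, congrArg Prod.snd e⟩
  · have hf3 : FinOrb ↥(Je w u : Subgroup H) {y : Y | (u, y) ∈ A} := by
      apply Pool.Agent.SAF.FinOrb.of_inj hf2 (fun y => (u, y))
      · intro y hy
        exact ⟨hy, rfl⟩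
      · rintro a _ b _ ⟨g, e⟩
        exact ⟨g, congrArg Prod.snd e⟩
    apply oc_le_of_inj hf3 (fun p => p.2)
    · rintro ⟨z, y⟩ ⟨h, h'⟩
      have h' : z = u := h'
      subst h'
      exact h
    · rintro ⟨z, y⟩ ⟨h, h'⟩ ⟨z', y'⟩ ⟨k, k'⟩ ⟨g, e⟩
      have h' : z = u := h'
      have k' : z' = u := k'
      subst h' 
      subst k'
      exact ⟨g, Prod.ext g.2.2 e⟩

/-! ### orbits of lost vertices -/

theorem lost_smul {g : H} (hg : g • u = u) {v : V} (h : S.J v = {u}) : S.J (g • v) = {u} := by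
  have := J_sing (g := g) h
  rwa [hg] at this

/-- `U`- and `J`-orbits of lost vertices agree -/
theorem OvU.oc_eq (o : S.OvU w u w') {A : Set V} (hA : A ⊆ S.Nu u)
    (hf : FinOrb ↥(stabilizer H u) A) :
    oc ↥(Je w u : Subgroup H) A = oc ↥(stabilizer H u) A ∧ FinOrb ↥(Je w u : Subgroup H) A := by
  have key : ∀ a ∈ A, ∀ b ∈ A, (∃ h : ↥(stabilizer H u), h • a = b) →
      ∃ h : ↥(Je w u : Subgroup H), h • a = b := by
    rintro a ha b hb ⟨g, e⟩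
    have e : g.1 • a = b := e
    rcases o.mid.cases (g := g.1) g.2 with ⟨h1, h2⟩ | ⟨h1, h2⟩
    · exact ⟨⟨g.1, h1, g.2⟩, e⟩
    · obtain ⟨r, hr1, hr2⟩ := o.rev a (hA ha)
      have hru : r • u = u := by
        have h3 := J_sing (g := r) (hA ha)
        rw [hr1, hA ha] at h3
        exact (Set.singleton_injective h3).symm
      have k1 : (g.1 * r⁻¹) • u = u := by
        rw [mul_smul, inv_smul_eq_iff.2 hru.symm]
        exact g.2
      have k2 : (g.1 * r⁻¹) • w' = w' := by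
        rw [mul_smul, ← hr2, inv_smul_smul, h1, hr2]
      have k3 := o.symm.mid.fix' k1 k2
      refine ⟨⟨g.1 * r⁻¹, k3, k1⟩, ?_⟩
      show (g.1 * r⁻¹) • a = b
      rw [mul_smul, inv_smul_eq_iff.2 hr1.symm]
      exact e
  refine ⟨le_antisymm ?_ ?_, Pool.Agent.SAF.FinOrb.of_inj hf (fun a => a) (fun a h => h) key⟩
  · exact oc_le_of_inj hf (fun a => a) (fun a h => h) key
  · apply oc_le_of_surj (Pool.Agent.SAF.FinOrb.of_inj hf (fun a => a) (fun a h => h) key)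
      (fun a => a) (fun b hb => ⟨b, hb, 1, one_smul _ _⟩)
    rintro a _ b _ ⟨g, e⟩
    exact ⟨⟨g.1, g.2.2⟩, e⟩

theorem fin_Nu (u : S.X) : FinOrb ↥(stabilizer H u) (S.Nu u) :=
  (fin_over u).mono fun v (h : S.J v = {u}) => by
    show u ∈ S.J v
    rw [h]
    exact rfl

theorem OvU.two (o : S.OvU w u w') : ∀ v ∈ S.Nu u, ∃ a b, a ≠ b ∧ S.K.ar v a ∧ S.K.ar v b ∧
    ∀ c, S.K.ar v c → c = a ∨ c = b := by
  intro v hv
  obtain ⟨a, b, hab, ha, hb⟩ := o.pol v hv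
  refine ⟨a, b, hab, ha, hb, ?_⟩
  intro c hc
  rcases S.K.two v a b c ha hb hc with e | e | e
  · exact absurd e hab
  · exact Or.inr e.symm
  · exact Or.inl e.symm

theorem fin_Pu {K : Subgroup H} (hf : FinOrb ↥K (S.Nu u)) :
    FinOrb ↥K (S.Pu u) := by
  have h := finOrb_rel (R := fun (v a : V) => S.K.ar v a) hf
    (fun g q a h => S.K.ar_smul g.1 _ _ h) (fun q _ => out_finite S.K.two q)
  exact h

/-- the number of lost vertices which are not of type (s2) -/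
theorem OvU.lost (o : S.OvU w u w') :
    (oc ↥(stabilizer H u) (S.l1 w u) : ℤ) = oc ↥(stabilizer H u) (S.Pu u) -
      oc ↥(Je w u : Subgroup H) (S.Pu u) + oc ↥(Je w u : Subgroup H) (S.Nu u) := by
  set RV : V → V → Prop := fun v a => S.K.ar v a with hRV
  have fU := fin_Nu (S := S) u
  obtain ⟨n1, fJ⟩ := o.oc_eq (A := S.Nu u) (fun _ h => h) fU
  have p1 := oc_pairs (G := ↥(stabilizer H u)) (Q := S.Nu u) (R := RV)
    (fun g y hy => lost_smul g.2 hy) (fun g y z h => S.K.ar_smul g.1 _ _ h) o.two fU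
    (fin_Pu fU)
  have p2 := oc_pairs (G := ↥(Je w u : Subgroup H)) (Q := S.Nu u) (R := RV)
    (fun g y hy => lost_smul g.2.2 hy) (fun g y z h => S.K.ar_smul g.1 _ _ h) o.two fJ
    (fin_Pu fJ)
  have hJU : ∀ v, Spc ↥(Je w u : Subgroup H) RV v → Spc ↥(stabilizer H u) RV v := by
    rintro v ⟨g, h1, h2⟩
    exact ⟨⟨g.1, g.2.2⟩, h1, h2⟩
  have cU : ∀ (g : ↥(stabilizer H u)) v, Spc ↥(stabilizer H u) RV v →
      Spc ↥(stabilizer H u) RV (g • v) := fun g v h =>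
    h.smul (fun g y z h => S.K.ar_smul g.1 _ _ h) g
  have cJ : ∀ (g : ↥(Je w u : Subgroup H)) v, Spc ↥(Je w u : Subgroup H) RV v →
      Spc ↥(Je w u : Subgroup H) RV (g • v) := fun g v h =>
    h.smul (fun g y z h => S.K.ar_smul g.1 _ _ h) g
  obtain ⟨n2, f2⟩ := o.oc_eq (A := {v | v ∈ S.Nu u ∧ Spc ↥(stabilizer H u) RV v})
    (fun _ h => h.1) (fU.mono fun _ h => h.1)
  obtain ⟨n3, f3⟩ := o.oc_eq (A := S.l1 w u) (fun _ h => h.1) (fU.mono fun _ h => h.1)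
  -- splitting of `Nu` and of the special ones
  have s1 := oc_split (G := ↥(Je w u : Subgroup H)) fJ
    (fun v => Spc ↥(stabilizer H u) RV v ∧ ¬ Spc ↥(Je w u : Subgroup H) RV v)
    (by
      rintro g y - - ⟨h1, h2⟩
      refine ⟨cU ⟨g.1, g.2.2⟩ y h1, ?_⟩
      intro h3
      apply h2
      have := cJ g⁻¹ _ h3
      rwa [inv_smul_smul] at this)
  have s2 := oc_split (G := ↥(Je w u : Subgroup H)) f2
    (fun v => Spc ↥(Je w u : Subgroup H) RV v) (fun g y _ _ h => cJ g y h)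
  have e1 : {v | v ∈ S.Nu u ∧ ¬ (Spc ↥(stabilizer H u) RV v ∧
      ¬ Spc ↥(Je w u : Subgroup H) RV v)} = S.l1 w u := by
    ext v
    constructor
    · rintro ⟨h1, h2⟩
      exact ⟨h1, fun h3 => by_contra fun h4 => h2 ⟨h3, h4⟩⟩
    · rintro ⟨h1, h2⟩
      exact ⟨h1, fun h3 => h3.2 (h2 h3.1)⟩
  have e2 : {v | v ∈ {v | v ∈ S.Nu u ∧ Spc ↥(stabilizer H u) RV v} ∧
      Spc ↥(Je w u : Subgroup H) RV v} = {v | v ∈ S.Nu u ∧ Spc ↥(Je w u : Subgroup H) RV v} := by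
    ext v
    constructor
    · rintro ⟨h1, h2⟩
      exact ⟨h1.1, h2⟩
    · rintro ⟨h1, h2⟩
      exact ⟨⟨h1, hJU v h2⟩, h2⟩
  have e3 : {v | v ∈ {v | v ∈ S.Nu u ∧ Spc ↥(stabilizer H u) RV v} ∧
      ¬ Spc ↥(Je w u : Subgroup H) RV v} = {v | v ∈ S.Nu u ∧ (Spc ↥(stabilizer H u) RV v ∧
      ¬ Spc ↥(Je w u : Subgroup H) RV v)} := by
    ext v
    constructor
    · rintro ⟨h1, h2⟩
      exact ⟨h1.1, h1.2, h2⟩
    · rintro ⟨h1, h2, h3⟩
      exact ⟨⟨h1, h2⟩, h3⟩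
  rw [e1] at s1
  rw [e2, e3] at s2
  have q1 : oc ↥(stabilizer H u) (S.Pu u) + oc ↥(stabilizer H u)
      {v | v ∈ S.Nu u ∧ Spc ↥(stabilizer H u) RV v} = 2 * oc ↥(stabilizer H u) (S.Nu u) := p1
  have q2 : oc ↥(Je w u : Subgroup H) (S.Pu u) + oc ↥(Je w u : Subgroup H)
      {v | v ∈ S.Nu u ∧ Spc ↥(Je w u : Subgroup H) RV v} =
      2 * oc ↥(Je w u : Subgroup H) (S.Nu u) := p2
  omega

/-! ### half-edges over `u` -/

variable (S) in
/-- the arrows of the pages which cross `w u` -/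
def Aw (w u : S.X) : Set (V × V) := {p | p ∈ S.Au u ∧ w ∈ S.J p.1}

variable (S) in
/-- the elements which cross `w u` and not `w' u` -/
def Lw (w u w' : S.X) : Set V := {x | S.Cs w u x ∧ w' ∉ S.J x}

theorem fin_Au (u : S.X) : FinOrb ↥(stabilizer H u) (S.Au u) := by
  have h := finOrb_rel (R := fun (v a : V) => S.K.ar v a) (fin_over (S := S) u)
    (fun g q a h => S.K.ar_smul g.1 _ _ h) (fun q _ => out_finite S.K.two q)
  refine Pool.Agent.SAF.FinOrb.mono ?_ h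
  intro p hp
  exact ⟨hp.1, hp.2.2⟩

theorem Au_smul {g : H} (hg : g • u = u) {p : V × V} (h : p ∈ S.Au u) : g • p ∈ S.Au u := by
  obtain ⟨h1, h2, h3⟩ := h
  have h4 := S.js.smul g _ _ h1
  rw [hg] at h4
  exact ⟨h4, lost_smul hg h2, S.K.ar_smul g _ _ h3⟩

theorem OvU.page_w (o : S.OvU w u w') {p : V × V} (h : p ∈ S.Aw w u) : w' ∉ S.J p.1 := by
  rcases o.page h.1 with e | e
  · exact e.2
  · exact absurd h.2 e.2

theorem OvU.Aw_le_U (o : S.OvU w u w') :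
    oc ↥(Je w u : Subgroup H) (S.Aw w u) ≤ oc ↥(stabilizer H u) (S.Au u) := by
  apply oc_le_of_inj (fin_Au u) (fun p => p) (fun p h => h.1)
  rintro a ha b hb ⟨g, e⟩
  have e : g.1 • a = b := e
  rcases o.mid.cases (g := g.1) g.2 with ⟨h1, h2⟩ | ⟨h1, h2⟩
  · exact ⟨⟨g.1, h1, g.2⟩, e⟩
  · exfalso
    apply o.page_w hb
    rw [← e, ← h1]
    exact S.js.smul g.1 _ _ ha.2

theorem OvU.finAw (o : S.OvU w u w') : FinOrb ↥(Je w u : Subgroup H) (S.Aw w u) := by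
  apply Pool.Agent.SAF.FinOrb.of_inj (fin_Au u) (fun p => p) (fun p h => h.1)
  rintro a ha b hb ⟨g, e⟩
  have e : g.1 • a = b := e
  rcases o.mid.cases (g := g.1) g.2 with ⟨h1, h2⟩ | ⟨h1, h2⟩
  · exact ⟨⟨g.1, h1, g.2⟩, e⟩
  · exfalso
    apply o.page_w hb
    rw [← e, ← h1]
    exact S.js.smul g.1 _ _ ha.2

theorem fin_Lw (hu : S.D.G.Adj w u) : FinOrb ↥(Je w u : Subgroup H) (S.Lw w u w') := by
  apply Pool.Agent.SAF.FinOrb.of_inj (fin_vf (S := S) w) (fun x => (u, x)) (fun x h => ⟨hu, h.1⟩)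
  rintro a _ b _ ⟨g, e⟩
  have h3 : g.1 • u = u := congrArg Prod.fst e
  have h4 : g.1 • a = b := congrArg Prod.snd e
  exact ⟨⟨g.1, g.2, h3⟩, h4⟩

theorem OvU.Aw_le_L (o : S.OvU w u w') : oc ↥(Je w u : Subgroup H) (S.Aw w u) ≤
    oc ↥(Je w u : Subgroup H) (S.Lw w u w') := by
  apply oc_le_of_inj (fin_Lw o.mid.hw.symm) (fun p => p.1)
    (fun p h => ⟨⟨h.2, h.1.1⟩, o.page_w h⟩)
  rintro ⟨x, v⟩ ha ⟨x', v'⟩ hb ⟨g, e⟩
  have e : g.1 • x = x' := e
  subst e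
  have h1 := Au_smul g.2.2 ha.1
  have h2 : g.1 • v = v' := o.uniq h1 hb.1
  exact ⟨g, Prod.ext rfl h2⟩

/-- all half-edges of `K` -/
theorem OvU.half (hl : S.Lt) (o : S.OvU w u w') (hd : ∀ h : H, h • w ≠ u) :
    oc ↥(stabilizer H w) (S.r0 w) + oc ↥(stabilizer H u) (S.Pu u) +
      oc ↥(Je w u : Subgroup H) (S.Aw w u) ≤ S.K.Ec := by
  have h1 := Ec_ge (S := S) hd
  have h2 : oc ↥(stabilizer H u) (S.Pu u) + oc ↥(stabilizer H u) (S.Au u) ≤
      oc ↥(stabilizer H u) (S.r0 u) := by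
    apply oc_add_le ?_ (fin_r0 (S := S) u) (fun p h => o.sub_r0 hl (Or.inl h))
      (fun p h => o.sub_r0 hl (Or.inr h))
    apply Dj.of_inv
    · rintro g p ⟨k1, k2⟩
      exact ⟨lost_smul g.2 k1, S.K.ar_smul g.1 _ _ k2⟩
    · rintro p ⟨k1, k2⟩ ⟨k3, k4, k5⟩
      exact o.no_self k1 k4 (Or.inl k5)
  have h3 := o.Aw_le_U
  omega

end Sys

end Pool.Agent.DI
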