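import Pool.Agent.DI.ELi

/-!
# The E-law over a midpoint

`mid_law`: the E-law `E(kf) + M_w + l + b1 (TT/J) ≤ E(K) + 1 + b1 (Theta/J)`, `l` the number of lost
vertices which are not of type (s2).
-/

namespace Pool.Agent.DI

open MulAction
open Pool.Agent.SAF (InC orbs FinOrb oc Decomp SAn SA Conv hull dist_edge FinOrb_iff exists_next
  mk_eq_iff oc_le_of_inj oc_le_of_rel oc_le_of_surj oc_mono)
open Pool.Agent.BT (PX PQ JS bey exits lz lz_self lz_ne lz_symm x_next_unique)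
open Pool.Agent.BT.TA

namespace Sys

variable {H V : Type} [Group H] [MulAction H V] {S : Sys H V} {w u w' : S.X}

/-! ### lines of `TT` -/

/-- the lines at the near stars of `w u` -/
theorem lines_near (z : S.X) : oc ↥(Je z u : Subgroup H)
    {p : TV V × TV V | ∃ x q, (x, q) ∈ S.nQ z u ∧ p = (TV.el x, TV.st q (S.Star z u q x))} ≤
    oc ↥(Je z u : Subgroup H) (S.nQ z u) := by
  apply oc_le_of_surj (fin_nQ (S := S) z u)
    (fun p => (TV.el p.1, TV.st p.2 (S.Star z u p.2 p.1)))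
  · rintro _ ⟨x, q, h, rfl⟩
    exact ⟨(x, q), h, 1, one_smul _ _⟩
  · rintro ⟨x, q⟩ _ _ _ ⟨g, rfl⟩
    refine ⟨g, Prod.ext rfl ?_⟩
    show g.1 • TV.st q (S.Star z u q x) = TV.st (g.1 • q) (S.Star z u (g.1 • q) (g.1 • x))
    rw [TV.smul_st, Star_smul, (je_smul g).1, (je_smul g).2]

theorem OvU.lines (o : S.OvU w u w') {b : H} (hb : b • u = u) (hbw : b • w = w') :
    oc ↥(Je w u : Subgroup H) {p : TV V × TV V | S.TTO w u w' p.1 p.2} ≤
    2 * oc ↥(Je w u : Subgroup H) (S.nQ w u) + 2 * oc ↥(Je w u : Subgroup H) (S.Aw w u) +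
      oc ↥(Je w u : Subgroup H) (S.Pu u) := by
  set T1 : Set (TV V × TV V) :=
    {p | ∃ x q, (x, q) ∈ S.nQ w u ∧ p = (TV.el x, TV.st q (S.Star w u q x))} with hT1
  set T2 : Set (TV V × TV V) :=
    {p | ∃ x q, (x, q) ∈ S.nQ w' u ∧ p = (TV.el x, TV.st q (S.Star w' u q x))} with hT2
  set T3 : Set (TV V × TV V) := {p | ∃ x v, (x, v) ∈ S.Aw w u ∧ p = (TV.el x, TV.st v ∅)} with hT3
  set T4 : Set (TV V × TV V) := {p | ∃ x v, (x, v) ∈ S.Aw w' u ∧ p = (TV.el x, TV.st v ∅)} with hT4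
  set T5 : Set (TV V × TV V) := {p | ∃ x v, (v, x) ∈ S.Pu u ∧ p = (TV.el x, TV.st v ∅)} with hT5
  have hsw : b • w' = w := o.mid.swap' hb hbw
  have hcj := o.mid.conj hb hbw
  have fN : FinOrb ↥(stabilizer H u) (S.Nu u) := fin_Nu u
  have fP : FinOrb ↥(Je w u : Subgroup H) (S.Pu u) :=
    fin_Pu (o.oc_eq (A := S.Nu u) (fun _ h => h) fN).2
  have b1 : oc ↥(Je w u : Subgroup H) T1 ≤ oc ↥(Je w u : Subgroup H) (S.nQ w u) := lines_near w
  have b2 : oc ↥(Je w u : Subgroup H) T2 ≤ oc ↥(Je w u : Subgroup H) (S.nQ w u) := by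
    have h1 : oc ↥(Je w' u : Subgroup H) T2 ≤ oc ↥(Je w' u : Subgroup H) (S.nQ w' u) :=
      lines_near w'
    rw [← o.mid.je_eq] at h1
    refine h1.trans (oc_conj_le hcj (fin_nQ w u) ?_)
    rintro ⟨x, q⟩ ⟨x', h⟩
    refine ⟨b • x', ?_⟩
    have := h.smul' b
    rw [hb, hsw] at this
    exact this
  have im : ∀ (A : Set (V × V)), FinOrb ↥(Je w u : Subgroup H) A →
      oc ↥(Je w u : Subgroup H) {p : TV V × TV V | ∃ x v, (x, v) ∈ A ∧
        p = (TV.el x, TV.st v ∅)} ≤ oc ↥(Je w u : Subgroup H) A := by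
    intro A hA
    apply oc_le_of_surj hA (fun p => (TV.el p.1, TV.st p.2 ∅))
    · rintro _ ⟨x, q, h, rfl⟩
      exact ⟨(x, q), h, 1, one_smul _ _⟩
    · rintro ⟨x, q⟩ _ _ _ ⟨g, rfl⟩
      refine ⟨g, Prod.ext rfl ?_⟩
      show g.1 • TV.st q ∅ = TV.st (g.1 • q) ∅
      rw [TV.smul_st, Set.image_empty]
  have b3 : oc ↥(Je w u : Subgroup H) T3 ≤ oc ↥(Je w u : Subgroup H) (S.Aw w u) := im _ o.finAw
  have f4 : FinOrb ↥(Je w u : Subgroup H) (S.Aw w' u) := by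
    have := o.symm.finAw
    rwa [← o.mid.je_eq] at this
  have b4 : oc ↥(Je w u : Subgroup H) T4 ≤ oc ↥(Je w u : Subgroup H) (S.Aw w u) := by
    refine (im _ f4).trans (oc_conj_le hcj o.finAw ?_)
    rintro p ⟨h1, h2⟩
    refine ⟨Au_smul hb h1, ?_⟩
    have := S.js.smul b _ _ h2
    rwa [hsw] at this
  have b5 : oc ↥(Je w u : Subgroup H) T5 ≤ oc ↥(Je w u : Subgroup H) (S.Pu u) := by
    apply oc_le_of_surj fP (fun p => (TV.el p.2, TV.st p.1 ∅))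
    · rintro _ ⟨x, q, h, rfl⟩
      exact ⟨(q, x), h, 1, one_smul _ _⟩
    · rintro ⟨x, q⟩ _ _ _ ⟨g, rfl⟩
      refine ⟨g, Prod.ext rfl ?_⟩
      show g.1 • TV.st x ∅ = TV.st (g.1 • x) ∅
      rw [TV.smul_st, Set.image_empty]
  have hsub : {p : TV V × TV V | S.TTO w u w' p.1 p.2} ⊆ T1 ∪ (T2 ∪ (T3 ∪ (T4 ∪ T5))) := by
    rintro ⟨t, s⟩ h
    obtain ⟨x, q, h0, h⟩ := h
    have h0 : t = TV.el x := h0
    subst h0
    have h : (∃ x', S.Qs w u q x x' ∧ s = TV.st q (S.Star w u q x)) ∨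
      (∃ x', S.Qs w' u q x x' ∧ s = TV.st q (S.Star w' u q x)) ∨
      (S.J q = {u} ∧ u ∈ S.J x ∧ S.K.E x q ∧ s = TV.st q ∅) := h
    rcases h with ⟨x', h5, rfl⟩ | ⟨x', h5, rfl⟩ | ⟨h5, h6, h7 | h7, rfl⟩
    · exact Or.inl ⟨x, q, ⟨x', h5⟩, rfl⟩
    · exact Or.inr (Or.inl ⟨x, q, ⟨x', h5⟩, rfl⟩)
    · have hA : (x, q) ∈ S.Au u := ⟨h6, h5, h7⟩
      rcases o.page hA with e | e
      · exact Or.inr (Or.inr (Or.inl ⟨x, q, ⟨hA, e.1⟩, rfl⟩))
      · exact Or.inr (Or.inr (Or.inr (Or.inl ⟨x, q, ⟨hA, e.1⟩, rfl⟩)))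
    · exact Or.inr (Or.inr (Or.inr (Or.inr ⟨x, q, ⟨h5, h7⟩, rfl⟩)))
  have fim : ∀ (A : Set (V × V)), FinOrb ↥(Je w u : Subgroup H) A →
      FinOrb ↥(Je w u : Subgroup H) {p : TV V × TV V | ∃ x v, (x, v) ∈ A ∧
        p = (TV.el x, TV.st v ∅)} := by
    intro A hA
    apply Pool.Agent.SAF.FinOrb.image hA (fun p => (TV.el p.1, TV.st p.2 ∅))
    · rintro _ ⟨x, q, h, rfl⟩
      exact ⟨(x, q), h, 1, one_smul _ _⟩
    · rintro ⟨x, q⟩ _ _ _ ⟨g, rfl⟩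
      refine ⟨g, Prod.ext rfl ?_⟩
      show g.1 • TV.st q ∅ = TV.st (g.1 • q) ∅
      rw [TV.smul_st, Set.image_empty]
  have fnear : ∀ z : S.X, FinOrb ↥(Je z u : Subgroup H)
      {p : TV V × TV V | ∃ x q, (x, q) ∈ S.nQ z u ∧ p = (TV.el x, TV.st q (S.Star z u q x))} := by
    intro z
    apply Pool.Agent.SAF.FinOrb.image (fin_nQ (S := S) z u)
      (fun p => (TV.el p.1, TV.st p.2 (S.Star z u p.2 p.1)))
    · rintro _ ⟨x, q, h, rfl⟩
      exact ⟨(x, q), h, 1, one_smul _ _⟩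
    · rintro ⟨x, q⟩ _ _ _ ⟨g, rfl⟩
      refine ⟨g, Prod.ext rfl ?_⟩
      show g.1 • TV.st q (S.Star z u q x) = TV.st (g.1 • q) (S.Star z u (g.1 • q) (g.1 • x))
      rw [TV.smul_st, Star_smul, (je_smul g).1, (je_smul g).2]
  have fT1 : FinOrb ↥(Je w u : Subgroup H) T1 := fnear w
  have fT2 : FinOrb ↥(Je w u : Subgroup H) T2 := by
    have := fnear w'
    rwa [← o.mid.je_eq] at this
  have fT3 : FinOrb ↥(Je w u : Subgroup H) T3 := fim _ o.finAw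
  have fT4 : FinOrb ↥(Je w u : Subgroup H) T4 := fim _ f4
  have fT5 : FinOrb ↥(Je w u : Subgroup H) T5 := by
    apply Pool.Agent.SAF.FinOrb.image fP (fun p => (TV.el p.2, TV.st p.1 ∅))
    · rintro _ ⟨x, q, h, rfl⟩
      exact ⟨(q, x), h, 1, one_smul _ _⟩
    · rintro ⟨x, q⟩ _ _ _ ⟨g, rfl⟩
      refine ⟨g, Prod.ext rfl ?_⟩
      show g.1 • TV.st x ∅ = TV.st (g.1 • x) ∅
      rw [TV.smul_st, Set.image_empty]
  have h1 := oc_mono (finOrb_union fT1 (finOrb_union fT2 (finOrb_union fT3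
    (finOrb_union fT4 fT5)))) hsub
  have h2 := oc_union_le (G := ↥(Je w u : Subgroup H)) T1 (T2 ∪ (T3 ∪ (T4 ∪ T5)))
  have h3 := oc_union_le (G := ↥(Je w u : Subgroup H)) T2 (T3 ∪ (T4 ∪ T5))
  have h4 := oc_union_le (G := ↥(Je w u : Subgroup H)) T3 (T4 ∪ T5)
  have h5 := oc_union_le (G := ↥(Je w u : Subgroup H)) T4 T5
  omega

/-! ### vertices of `TT` -/

variable (S) in
/-- the near stars of `w u` -/
def nS (w u : S.X) : Set (TV V) := {t | ∃ x q x', S.Qs w u q x x' ∧ t = TV.st q (S.Star w u q x)}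

theorem nS_smul {g : H} {t : TV V} (h : t ∈ S.nS w u) : g • t ∈ S.nS (g • w) (g • u) := by
  obtain ⟨x, q, x', h, rfl⟩ := h
  exact ⟨g • x, g • q, g • x', h.smul' g, by rw [TV.smul_st, Star_smul]⟩

theorem OvU.verts (o : S.OvU w u w') {b : H} (hb : b • u = u) (hbw : b • w = w') :
    oc ↥(Je w u : Subgroup H) {x | S.Cs w u x} + oc ↥(Je w u : Subgroup H) (S.Lw w u w') +
      2 * oc ↥(Je w u : Subgroup H) (S.nS w u) + oc ↥(Je w u : Subgroup H) (S.Nu u) ≤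
    oc ↥(Je w u : Subgroup H) {t : TV V | S.TTN w u w' t} := by
  have hsw : b • w' = w := o.mid.swap' hb hbw
  have hcj := o.mid.conj hb hbw
  have fT := fin_TTN o.mid
  have w1 : ∀ g : ↥(Je w u : Subgroup H), g.1 • w = w := fun g => g.2.1
  have u1 : ∀ g : ↥(Je w u : Subgroup H), g.1 • u = u := fun g => g.2.2
  have w2 : ∀ g : ↥(Je w u : Subgroup H), g.1 • w' = w' := fun g => o.mid.fix' g.2.2 g.2.1
  set E1 : Set (TV V) := {t | ∃ x, t = TV.el x ∧ S.Cs w u x} with hE1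
  set E2 : Set (TV V) := {t | ∃ x, t = TV.el x ∧ S.Cs w' u x ∧ w ∉ S.J x} with hE2
  set N : Set (TV V) := {t | ∃ v, t = TV.st v ∅ ∧ S.J v = {u}} with hN
  have sE1 : E1 ⊆ {t : TV V | S.TTN w u w' t} := by
    rintro _ ⟨x, rfl, h⟩
    exact Or.inl ⟨x, rfl, h.2, Or.inl h.1⟩
  have sE2 : E2 ⊆ {t : TV V | S.TTN w u w' t} := by
    rintro _ ⟨x, rfl, h, -⟩
    exact Or.inl ⟨x, rfl, h.2, Or.inr h.1⟩
  have sN : N ⊆ {t : TV V | S.TTN w u w' t} := by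
    rintro _ ⟨v, rfl, h⟩
    exact Or.inr (Or.inr ⟨v, h, rfl⟩)
  have sS1 : S.nS w u ⊆ {t : TV V | S.TTN w u w' t} := by
    rintro _ ⟨x, q, x', h, rfl⟩
    exact Or.inr (Or.inl ⟨TV.el x, x, q, rfl, Or.inl ⟨x', h, rfl⟩⟩)
  have sS2 : S.nS w' u ⊆ {t : TV V | S.TTN w u w' t} := by
    rintro _ ⟨x, q, x', h, rfl⟩
    exact Or.inr (Or.inl ⟨TV.el x, x, q, rfl, Or.inr (Or.inl ⟨x', h, rfl⟩)⟩)
  have c1 : oc ↥(Je w u : Subgroup H) {x | S.Cs w u x} ≤ oc ↥(Je w u : Subgroup H) E1 := by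
    apply oc_le_of_inj (fT.mono sE1) TV.el (fun x h => ⟨x, rfl, h⟩)
    rintro a _ c _ ⟨g, e⟩
    have e : TV.el (g.1 • a) = TV.el c := e
    cases e
    exact ⟨g, rfl⟩
  have c2 : oc ↥(Je w u : Subgroup H) (S.Lw w u w') ≤ oc ↥(Je w u : Subgroup H) E2 := by
    apply oc_le_of_inj (fT.mono sE2) (fun x => TV.el (b • x))
    · rintro x ⟨h1, h2⟩
      refine ⟨b • x, rfl, ?_, ?_⟩
      · have := h1.smul b
        rwa [hb, hbw] at this
      · intro h3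
        apply h2
        have := S.js.smul b⁻¹ _ _ h3
        rwa [inv_smul_smul, ← hsw, inv_smul_smul] at this
    · rintro a _ c _ ⟨g, e⟩
      have e : TV.el (g.1 • b • a) = TV.el (b • c) := e
      have e : g.1 • b • a = b • c := TV.el.inj e
      refine ⟨⟨b⁻¹ * g.1 * b, hcj g.1 g.2⟩, ?_⟩
      show (b⁻¹ * g.1 * b) • a = c
      rw [mul_smul, mul_smul, e, inv_smul_smul]
  have c3 : oc ↥(Je w u : Subgroup H) (S.nS w u) ≤ oc ↥(Je w u : Subgroup H) (S.nS w' u) := by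
    apply oc_conj_le hcj (fT.mono sS2)
    intro t ht
    have := nS_smul (g := b) ht
    rwa [hb, hbw] at this
  have c4 : oc ↥(Je w u : Subgroup H) (S.Nu u) ≤ oc ↥(Je w u : Subgroup H) N := by
    apply oc_le_of_inj (fT.mono sN) (fun v => TV.st v ∅) (fun v h => ⟨v, rfl, h⟩)
    rintro a _ c _ ⟨g, e⟩
    have e : TV.st (g.1 • a) ((fun x => g.1 • x) '' ∅) = TV.st c ∅ := e
    exact ⟨g, (TV.st.inj e).1⟩
  -- disjointness
  have iE1 : ∀ g : ↥(Je w u : Subgroup H), ∀ t ∈ E1, g • t ∈ E1 := by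
    rintro g _ ⟨x, rfl, h⟩
    refine ⟨g.1 • x, rfl, ?_⟩
    have := h.smul g.1
    rwa [w1 g, u1 g] at this
  have iE2 : ∀ g : ↥(Je w u : Subgroup H), ∀ t ∈ E2, g • t ∈ E2 := by
    rintro g _ ⟨x, rfl, h, h'⟩
    refine ⟨g.1 • x, rfl, ?_, ?_⟩
    · have := h.smul g.1
      rwa [w2 g, u1 g] at this
    · intro k
      apply h'
      have := S.js.smul g.1⁻¹ _ _ k
      rwa [inv_smul_smul, inv_smul_eq_iff.2 (w1 g).symm] at this
  have iS1 : ∀ g : ↥(Je w u : Subgroup H), ∀ t ∈ S.nS w u, g • t ∈ S.nS w u := by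
    intro g t ht
    have := nS_smul (g := g.1) ht
    rwa [w1 g, u1 g] at this
  have iS2 : ∀ g : ↥(Je w u : Subgroup H), ∀ t ∈ S.nS w' u, g • t ∈ S.nS w' u := by
    intro g t ht
    have := nS_smul (g := g.1) ht
    rwa [w2 g, u1 g] at this
  have d1 : Dj ↥(Je w u : Subgroup H) E1 E2 := by
    apply Dj.of_inv iE1
    rintro _ ⟨x, rfl, h⟩ ⟨x', e, h1, h2⟩
    cases e
    exact h2 h.1
  have d2 : Dj ↥(Je w u : Subgroup H) (E1 ∪ E2) (S.nS w u) := by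
    apply Dj.union
    · apply Dj.of_inv iE1
      rintro _ ⟨x, rfl, h⟩ ⟨x', q, x'', _, e⟩
      cases e
    · apply Dj.of_inv iE2
      rintro _ ⟨x, rfl, h⟩ ⟨x', q, x'', _, e⟩
      cases e
  have d3 : Dj ↥(Je w u : Subgroup H) (E1 ∪ E2 ∪ S.nS w u) (S.nS w' u) := by
    apply Dj.union
    · apply Dj.union
      · apply Dj.of_inv iE1
        rintro _ ⟨x, rfl, h⟩ ⟨x', q, x'', _, e⟩
        cases e
      · apply Dj.of_inv iE2
        rintro _ ⟨x, rfl, h⟩ ⟨x', q, x'', _, e⟩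
        cases e
    · apply Dj.of_inv iS1
      rintro _ ⟨x, q, x', h, rfl⟩ ⟨y, q', y', h', e⟩
      have e1 : q = q' := (TV.st.inj e).1
      subst e1
      obtain ⟨p, hp⟩ := S.js.ne q
      exact o.mid.ne (S.bey_unique o.mid.hw o.mid.hw' (h.near hp) (h'.near hp))
  have d4 : Dj ↥(Je w u : Subgroup H) (E1 ∪ E2 ∪ S.nS w u ∪ S.nS w' u) N := by
    apply Dj.union
    · apply Dj.union
      · apply Dj.union
        · apply Dj.of_inv iE1
          rintro _ ⟨x, rfl, h⟩ ⟨v, e, _⟩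
          cases e
        · apply Dj.of_inv iE2
          rintro _ ⟨x, rfl, h⟩ ⟨v, e, _⟩
          cases e
      · apply Dj.of_inv iS1
        rintro _ ⟨x, q, x', h, rfl⟩ ⟨v, e, _⟩
        exact Star_ne _ _ _ _ (TV.st.inj e).2
    · apply Dj.of_inv iS2
      rintro _ ⟨x, q, x', h, rfl⟩ ⟨v, e, _⟩
      exact Star_ne _ _ _ _ (TV.st.inj e).2
  have k1 := oc_union d1 (fT.mono sE1) (fT.mono sE2)
  have k2 := oc_union d2 (finOrb_union (fT.mono sE1) (fT.mono sE2)) (fT.mono sS1)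
  have k3 := oc_union d3 (finOrb_union (finOrb_union (fT.mono sE1) (fT.mono sE2)) (fT.mono sS1))
    (fT.mono sS2)
  have k4 := oc_add_le d4 fT
    (Set.union_subset (Set.union_subset (Set.union_subset sE1 sE2) sS1) sS2) sN
  omega

/-! ### the law -/

/-- THE E-LAW OVER A MIDPOINT -/
theorem OvU.law (hc : S.Conn) (hl : S.Lt) (hl2 : S.Lt2) (o : S.OvU w u w')
    (hb : ∃ b : H, b • u = u ∧ b • w = w') (hd : ∀ h : H, h • w ≠ u)
    (htr : ∀ u', S.D.G.Adj w u' → ∃ g : ↥(stabilizer H w), g.1 • u = u') :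
    ((S.kf hc w).Ec : ℤ) + oc ↥(stabilizer H w) (S.sds w) + oc ↥(stabilizer H w) (S.mdV w) +
      oc ↥(stabilizer H u) (S.l1 w u) + (S.JTT o.mid (je_le_u w u) le_rfl).fg.b1 ≤
      S.K.Ec + 1 + (S.JTh w u o.mid.hw.symm).fg.b1 := by
  obtain ⟨b, hbu, hbw⟩ := hb
  have hu : S.D.G.Adj w u := o.mid.hw.symm
  have h1 := local_law hc hl hl2 w
  have h2 : (S.JTh w u hu).fg.b1 = (S.ThM w).fg.b1 := (Th_iso w u hu htr).b1
  have h3 := (o.tt_conn hc (je_le_u w u) le_rfl).b1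
  have h4 : (S.JTT o.mid (je_le_u w u) le_rfl).fg.nL ≤
      oc ↥(Je w u : Subgroup H) {p : TV V × TV V | S.TTO w u w' p.1 p.2} := by
    have e : (S.JTT o.mid (je_le_u w u) le_rfl).fg.nL = oc ↥(Je w u : Subgroup H)
      {p : ↥(S.TTS o.mid (je_le_u w u)) × ↥(S.TTS o.mid (je_le_u w u)) |
        S.TTU o.mid (je_le_u w u) p.1 p.2} := card_orb_sub _
    rw [e]
    apply oc_le_of_inj (fin_TTO o.mid)
      (fun p : ↥(S.TTS o.mid (je_le_u w u)) × ↥(S.TTS o.mid (je_le_u w u)) => (p.1.1, p.2.1))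
      (fun p hp => hp)
    rintro a _ c _ ⟨g, e⟩
    exact ⟨g, Prod.ext (Subtype.ext (congrArg Prod.fst e)) (Subtype.ext (congrArg Prod.snd e))⟩
  have h5 : (S.JTT o.mid (je_le_u w u) le_rfl).fg.nN =
      oc ↥(Je w u : Subgroup H) {t : TV V | S.TTN w u w' t} := card_orb_sub _
  have h6 := o.lines hbu hbw
  have h7 := o.verts hbu hbw
  have h8 := o.lost
  have h9 := o.half hl hd
  have h10 := o.Aw_le_L
  -- flags
  have f1 : oc ↥(Je w u : Subgroup H) (S.nQ w u) = oc ↥(stabilizer H w) (S.nl w) :=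
    flag_slice htr (A := S.nl w) (fun g p h => nl_smul g h)
      (fun p h => by
        obtain ⟨x', h⟩ := h
        exact h.adj) (fin_nl w)
  have f2 : oc ↥(Je w u : Subgroup H) {x | S.Cs w u x} = oc ↥(stabilizer H w) (S.vf w) := by
    rw [← flag_slice htr (A := S.vf w) (fun g p h => ⟨adj_smul' g h.1, cs_smul' g h.2⟩)
      (fun p h => h.1) (fin_vf w)]
    congr 1
    ext x
    exact ⟨fun h => ⟨hu, h⟩, fun h => h.2⟩
  have f3 : oc ↥(Je w u : Subgroup H) (S.nS w u) = oc ↥(stabilizer H w) (S.ns w) :=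
    flag_slice htr (A := S.ns w) (fun g p h => ns_smul g h)
      (fun p h => by
        obtain ⟨x, q, x', h, _⟩ := h
        exact h.adj) (fin_ns w)
  rw [h2]
  omega

/-- the E-law without the cycles -/
theorem OvU.law' (hc : S.Conn) (hl : S.Lt) (hl2 : S.Lt2) (o : S.OvU w u w')
    (hb : ∃ b : H, b • u = u ∧ b • w = w') (hd : ∀ h : H, h • w ≠ u)
    (htr : ∀ u', S.D.G.Adj w u' → ∃ g : ↥(stabilizer H w), g.1 • u = u') :
    (S.kf hc w).Ec + oc ↥(stabilizer H w) (S.sds w) + oc ↥(stabilizer H w) (S.mdV w) +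
      oc ↥(stabilizer H u) (S.l1 w u) ≤ S.K.Ec + 1 := by
  have h1 := o.law hc hl hl2 hb hd htr
  have h2 := b1_Th_le o.mid o.u1
  omega

end Sys

end Pool.Agent.DI
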