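import Pool.Agent.DI.TL

/-!
# The tree lemma

`S.Bd w u p`: the line `p` of the graph of the edge `w u` is a bridge modulo `Je w u`.
`S.pass_step`: if `b1 (GE w u) ≤ b1 (GP w u)` then a line which is not a bridge at `w u` is a line
which is not a bridge at another edge `w u1`. `S.tree_lemma`: if this holds at all flags then all lines
are bridges and all quotients `T_e / J_e` are forests.
-/

namespace Pool.Agent.DI

open MulAction
open Pool.Agent.SAF (InC orbs FinOrb oc Decomp SAn SA Conv hull dist_edge FinOrb_iff exists_next)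
open Pool.Agent.BT (PX PQ JS bey exits x_next_unique)
open Pool.Agent.BT.TA

namespace Sys

variable {H V : Type} [Group H] [MulAction H V] (S : Sys H V)

/-- bridges of the graph of the edge `w u` modulo `Je w u` -/
def Bd (w u : S.X) (p : V × V) : Prop := ∃ f : TV V → ZMod 2,
  (∀ j ∈ (Je w u : Subgroup H), ∀ t, f (j • t) = f t) ∧
    f (TV.el p.1) ≠ f (TV.st p.2 (S.St w u p.2 p.1)) ∧
    ∀ p' ∈ S.LE w u, f (TV.el p'.1) ≠ f (TV.st p'.2 (S.St w u p'.2 p'.1)) →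
      ∃ j ∈ (Je w u : Subgroup H), p' = j • p

variable {S}

theorem Bd_iff {w u : S.X} (hu : S.D.G.Adj w u) {p : V × V} (hp : p ∈ S.LE w u) :
    (S.GE hu).Br ⟨p, hp⟩ ↔ S.Bd w u p := (S.LDE hu).br_iff hp

theorem Bd.swap {w u : S.X} {p : V × V} (h : S.Bd w u p) : S.Bd u w p := by
  obtain ⟨f, h1, h2, h3⟩ := h
  refine ⟨f, fun j hj => h1 j ⟨hj.2, hj.1⟩, ?_, ?_⟩
  · rw [St_comm]
    exact h2
  · intro p' hp' hne
    rw [St_comm] at hne
    rw [LE_comm] at hp'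
    obtain ⟨j, hj, e⟩ := h3 p' hp' hne
    exact ⟨j, ⟨hj.2, hj.1⟩, e⟩

/-- the star of the graph of the edge `w u` with a given part -/
def up (w u : S.X) : TV V → TV V
  | TV.el x => TV.el x
  | TV.st q C => TV.st q {x' | ∃ x ∈ C, x' ∈ S.St w u q x}

theorem up_smul (g : H) (w u : S.X) (t : TV V) :
    S.up (g • w) (g • u) (g • t) = g • S.up w u t := by
  cases t with
  | el x => rfl
  | st q C =>
    show TV.st (g • q) _ = TV.st (g • q) _
    congr 1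
    ext x'
    constructor
    · rintro ⟨_, ⟨x, hx, rfl⟩, h⟩
      have h : x' ∈ S.St (g • w) (g • u) (g • q) (g • x) := h
      rw [St_smul] at h
      obtain ⟨z, hz, rfl⟩ := h
      exact ⟨z, ⟨x, hx, hz⟩, rfl⟩
    · rintro ⟨z, ⟨x, hx, hz⟩, rfl⟩
      refine ⟨g • x, ⟨x, hx, rfl⟩, ?_⟩
      show g • z ∈ S.St (g • w) (g • u) (g • q) (g • x)
      rw [St_smul]
      exact ⟨z, hz, rfl⟩

theorem up_smul' {w u : S.X} {j : H} (hj : j ∈ (Je w u : Subgroup H)) (t : TV V) :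
    S.up w u (j • t) = j • S.up w u t := by
  have h := up_smul (S := S) j w u t
  rw [hj.1, hj.2] at h
  exact h

theorem up_st {w u : S.X} {q x : V} {C : Set V} (hx : x ∈ C) (hC : C ⊆ S.St w u q x) :
    S.up w u (TV.st q C) = TV.st q (S.St w u q x) := by
  show TV.st q _ = TV.st q _
  congr 1
  ext z
  constructor
  · rintro ⟨y, hy, hz⟩
    rw [← St_eq (hC hy)]
    exact hz
  · intro hz
    exact ⟨x, hx, hz⟩

theorem up_CP {w u u1 : S.X} {p : V × V} (h : p ∈ S.LE w u) (n1 : u1 ≠ u) (h1 : p ∈ S.LE w u1) :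
    S.up w u (TV.st p.2 (S.CP w u p)) = TV.st p.2 (S.St w u p.2 p.1) ∧
      S.up w u1 (TV.st p.2 (S.CP w u p)) = TV.st p.2 (S.St w u1 p.2 p.1) := by
  have hm : p.1 ∈ S.CP w u p := self_CP ⟨h, u1, n1, h1⟩
  rw [CP_eq h n1 h1] at hm ⊢
  exact ⟨up_st hm Set.inter_subset_left, up_st hm Set.inter_subset_right⟩

/-- a line which is not a bridge is a passing line which is not a bridge -/
theorem to_GP {w u : S.X} (hu : S.D.G.Adj w u) (hb : (S.GE hu).fg.b1 ≤ (S.GP hu).fg.b1)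
    {p : V × V} (hp : p ∈ S.LE w u) (hn : ¬ S.Bd w u p) :
    ∃ hp' : p ∈ S.LP w u, ¬ (S.GP hu).Br ⟨p, hp'⟩ := by
  obtain ⟨e', ⟨j, hj⟩, h2⟩ := JM.br_tr (S.GE hu) (S.GP hu)
    (fun t => ⟨S.up w u t.1, by
      rcases t.2 with ⟨x, hx, e⟩ | ⟨p, hp, e⟩
      · rw [e]
        exact Or.inl ⟨x, hx.1, rfl⟩
      · rw [e]
        obtain ⟨h1, u1, n1, h2⟩ := hp
        refine Or.inr ⟨p, h1, ?_⟩
        exact (up_CP h1 n1 h2).1⟩)
    (fun e => ⟨e.1, e.2.1⟩)
    (fun j t => Subtype.ext (up_smul' j.2 t.1))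
    (fun j e => rfl)
    (fun e => rfl)
    (fun e => by
      obtain ⟨p, h1, u1, n1, h2⟩ := e
      exact Subtype.ext (up_CP h1 n1 h2).1.symm)
    (fun e e' j h => ⟨j, Subtype.ext (congrArg (fun z : ↥(S.LDE hu).ln => z.1) h)⟩)
    hb ⟨p, hp⟩ (fun k => hn ((Bd_iff hu hp).1 k))
  have hj' : p = j.1 • e'.1 := congrArg Subtype.val hj
  have hp' : p ∈ S.LP w u := by
    rw [hj']
    exact LP_smul j.2 e'.2
  refine ⟨hp', fun k => h2 ?_⟩
  have h3 := (S.GP hu).Br_smul j⁻¹ k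
  have e : j⁻¹ • (⟨p, hp'⟩ : ↥(S.LDP hu).ln) = e' := by
    apply Subtype.ext
    show j.1⁻¹ • p = e'.1
    rw [hj', inv_smul_smul]
  rwa [e] at h3

/-- the edge `u2` is crossed -/
def Sc (u2 : S.X) : TV V → Prop
  | TV.el x => u2 ∈ S.J x
  | TV.st _ C => ∃ x ∈ C, u2 ∈ S.J x

theorem Sc_smul (g : H) {u2 : S.X} {t : TV V} (h : S.Sc u2 t) : S.Sc (g • u2) (g • t) := by
  cases t with
  | el x => exact S.js.smul g _ _ h
  | st q C =>
    obtain ⟨x, hx, h⟩ := h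
    exact ⟨g • x, ⟨x, hx, rfl⟩, S.js.smul g _ _ h⟩

/-- `u2` is the second edge -/
def Sd (w u u2 : S.X) (t : TV V) : Prop :=
  ∀ v, (v ≠ u ∧ S.D.G.Adj w v ∧ S.Sc v t) ↔ v = u2

theorem Sd.unique {w u u2 u3 : S.X} {t : TV V} (h2 : S.Sd w u u2 t) (h3 : S.Sd w u u3 t) :
    u2 = u3 := (h3 u2).1 ((h2 u2).2 rfl)

theorem Sd_smul {w u u2 : S.X} {j : H} (hj : j ∈ (Je w u : Subgroup H)) {t : TV V}
    (h : S.Sd w u u2 t) : S.Sd w u (j • u2) (j • t) := by
  have hw : j • w = w := hj.1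
  have hw' : j⁻¹ • w = w := inv_smul_eq_iff.2 hw.symm
  have hu' : j⁻¹ • u = u := inv_smul_eq_iff.2 (hj.2 : j • u = u).symm
  intro v
  constructor
  · rintro ⟨n, h1, h2⟩
    have k1 := S.D.adj_smul j⁻¹ _ _ h1
    rw [hw'] at k1
    have k2 := Sc_smul j⁻¹ h2
    rw [inv_smul_smul] at k2
    have k3 := (h (j⁻¹ • v)).1 ⟨fun e => n (by
      rw [← hu'] at e
      exact smul_left_cancel _ e), k1, k2⟩
    rw [← k3, smul_inv_smul]
  · rintro rfl
    obtain ⟨n, h1, h2⟩ := (h u2).2 rfl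
    have k1 := S.D.adj_smul j _ _ h1
    rw [hw] at k1
    exact ⟨smul_ne' hj n, k1, Sc_smul j h2⟩

theorem Sd_el {w u u1 : S.X} {x : V} (h : S.Cs w u x) (hu : S.D.G.Adj w u) (n1 : u1 ≠ u)
    (h1 : S.D.G.Adj w u1) (c1 : u1 ∈ S.J x) : S.Sd w u u1 (TV.el x) := by
  intro v
  constructor
  · rintro ⟨n, h2, h3⟩
    exact snd_unique h.1 hu h2 h1 h.2 h3 c1 n n1
  · rintro rfl
    exact ⟨n1, h1, c1⟩

theorem Sd_st {w u u1 : S.X} {p : V × V} (h : p ∈ S.LE w u) (n1 : u1 ≠ u) (h1 : p ∈ S.LE w u1) :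
    S.Sd w u u1 (TV.st p.2 (S.CP w u p)) := by
  intro v
  constructor
  · rintro ⟨n, h2, x, hx, h3⟩
    rw [CP_eq h n1 h1] at hx
    have k1 : (x, p.2) ∈ S.LE w u := LE_St h hx.1
    have k2 : (x, p.2) ∈ S.LE w u1 := LE_St h1 hx.2
    exact snd_unique (LE_cs k1).1 (LE_adj h) h2 (LE_adj h1) (LE_cs k1).2 h3 (LE_cs k2).2 n n1
  · rintro rfl
    exact ⟨n1, LE_adj h1, p.1, self_CP ⟨h, _, n1, h1⟩, (LE_cs h1).2⟩

/-- a passing line which is a bridge at the second edge is a bridge of the passing part -/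
theorem GP_br {w u u1 : S.X} (hu : S.D.G.Adj w u) {p : V × V} (hp : p ∈ S.LP w u)
    (n1 : u1 ≠ u) (h1 : p ∈ S.LE w u1) (hb : S.Bd w u1 p) : (S.GP hu).Br ⟨p, hp⟩ := by
  classical
  obtain ⟨f, f1, f2, f3⟩ := hb
  refine ((S.LDP hu).br_iff hp).2 ?_
  let R : H → TV V → Prop := fun j t => j ∈ (Je w u : Subgroup H) ∧ S.Sd w u (j • u1) t
  have hR : ∀ j j' t, R j t → R j' t →
      f (S.up w u1 (j⁻¹ • t)) = f (S.up w u1 (j'⁻¹ • t)) := by
    rintro j j' t ⟨h2, h3⟩ ⟨h4, h5⟩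
    have e : j • u1 = j' • u1 := h3.unique h5
    have hm : j'⁻¹ * j ∈ (Je w u1 : Subgroup H) := by
      refine ⟨?_, ?_⟩
      · show (j'⁻¹ * j) • w = w
        rw [mul_smul, show j • w = w from h2.1]
        exact inv_smul_eq_iff.2 (show j' • w = w from h4.1).symm
      · show (j'⁻¹ * j) • u1 = u1
        rw [mul_smul, e, inv_smul_smul]
    have h6 : j'⁻¹ • t = (j'⁻¹ * j) • j⁻¹ • t := by
      rw [← mul_smul, mul_assoc, mul_inv_cancel, mul_one]
    rw [h6, up_smul' hm, f1 _ hm]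
  have hRs : ∀ k ∈ (Je w u : Subgroup H), ∀ j t, R j t → R (k * j) (k • t) := by
    rintro k hk j t ⟨h2, h3⟩
    refine ⟨Subgroup.mul_mem _ hk h2, ?_⟩
    rw [mul_smul]
    exact Sd_smul hk h3
  let g : TV V → ZMod 2 := fun t => if h : ∃ j, R j t then f (S.up w u1 (h.choose⁻¹ • t)) else 0
  have hg : ∀ j t, R j t → g t = f (S.up w u1 (j⁻¹ • t)) := by
    intro j t h
    have hex : ∃ j, R j t := ⟨j, h⟩
    show (if h : ∃ j, R j t then f (S.up w u1 (h.choose⁻¹ • t)) else 0) = _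
    rw [dif_pos hex]
    exact hR _ _ _ hex.choose_spec h
  have hg0 : ∀ t, (¬ ∃ j, R j t) → g t = 0 := by
    intro t h
    show (if h : ∃ j, R j t then f (S.up w u1 (h.choose⁻¹ • t)) else 0) = _
    rw [dif_neg h]
  have hone : ∀ p' : V × V, p' ∈ S.LE w u → p' ∈ S.LE w u1 →
      g (TV.el p'.1) = f (TV.el p'.1) ∧
        g (TV.st p'.2 (S.CP w u p')) = f (TV.st p'.2 (S.St w u1 p'.2 p'.1)) := by
    intro p' k1 k2
    have r1 : R 1 (TV.el p'.1) := by
      refine ⟨Subgroup.one_mem _, ?_⟩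
      rw [one_smul]
      exact Sd_el (LE_cs k1) hu n1 (LE_adj k2) (LE_cs k2).2
    have r2 : R 1 (TV.st p'.2 (S.CP w u p')) := by
      refine ⟨Subgroup.one_mem _, ?_⟩
      rw [one_smul]
      exact Sd_st k1 n1 k2
    rw [hg 1 _ r1, hg 1 _ r2, inv_one, one_smul, one_smul, (up_CP k1 n1 k2).2]
    exact ⟨rfl, rfl⟩
  have hinv : ∀ k ∈ (Je w u : Subgroup H), ∀ t, g (k • t) = g t := by
    intro k hk t
    by_cases hex : ∃ j, R j t
    · obtain ⟨j, hj⟩ := hex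
      rw [hg j t hj, hg (k * j) (k • t) (hRs k hk j t hj), mul_inv_rev, mul_smul, inv_smul_smul]
    · have hex' : ¬ ∃ j, R j (k • t) := by
        rintro ⟨j, hj⟩
        have := hRs k⁻¹ (Subgroup.inv_mem _ hk) _ _ hj
        rw [inv_smul_smul] at this
        exact hex ⟨_, this⟩
      rw [hg0 _ hex, hg0 _ hex']
  refine ⟨g, hinv, ?_, ?_⟩
  · obtain ⟨e1, e2⟩ := hone p hp.1 h1
    show g (TV.el p.1) ≠ g (TV.st p.2 (S.CP w u p))
    rw [e1, e2]
    exact f2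
  · intro p' hp' hne
    have hne : g (TV.el p'.1) ≠ g (TV.st p'.2 (S.CP w u p')) := hne
    obtain ⟨k1, u2, n2, k2⟩ := hp'
    by_cases hex : ∃ j ∈ (Je w u : Subgroup H), j • u1 = u2
    · obtain ⟨j, hj, rfl⟩ := hex
      have hj' := Subgroup.inv_mem _ hj
      have m1 : j⁻¹ • p' ∈ S.LE w u := by
        have := LE_smul j⁻¹ k1
        rw [show j⁻¹ • w = w from hj'.1, show j⁻¹ • u = u from hj'.2] at this
        exact this
      have m2 : j⁻¹ • p' ∈ S.LE w u1 := by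
        have := LE_smul j⁻¹ k2
        rw [show j⁻¹ • w = w from hj'.1, inv_smul_smul] at this
        exact this
      obtain ⟨e1, e2⟩ := hone _ m1 m2
      have hp' : p' ∈ S.LP w u := ⟨k1, _, n2, k2⟩
      have e3 : g (TV.el p'.1) = g (TV.el (j⁻¹ • p').1) := (hinv j⁻¹ hj' (TV.el p'.1)).symm
      have e4 : g (TV.st p'.2 (S.CP w u p')) =
          g (TV.st (j⁻¹ • p').2 (S.CP w u (j⁻¹ • p'))) := by
        rw [CP_smul hj' hp']
        exact (hinv j⁻¹ hj' _).symm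
      rw [e3, e4, e1, e2] at hne
      obtain ⟨m, hm, hmp⟩ := f3 _ m2 hne
      have e5 : p' = (j * m) • p := by
        rw [mul_smul, ← hmp, smul_inv_smul]
      refine ⟨j * m, ⟨?_, ?_⟩, e5⟩
      · show (j * m) • w = w
        rw [mul_smul, show m • w = w from hm.1]
        exact hj.1
      · show (j * m) • u = u
        have e6 : m • u = u := by
          by_contra hne'
          have c1 : m • u ∈ S.J (j⁻¹ • p').1 := by
            rw [hmp]
            exact S.js.smul m _ _ (LE_cs hp.1).2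
          have a1 : S.D.G.Adj w (m • u) := by
            have := S.D.adj_smul m _ _ hu
            rwa [show m • w = w from hm.1] at this
          have := snd_unique (LE_cs m1).1 hu a1 (LE_adj m2) (LE_cs m1).2 c1 (LE_cs m2).2 hne' n1
          have e7 : m • u = m • u1 := this.trans (show m • u1 = u1 from hm.2).symm
          exact n1 (smul_left_cancel _ e7).symm
        rw [mul_smul, e6]
        exact hj.2
    · exfalso
      apply hne
      have r1 : ¬ ∃ j, R j (TV.el p'.1) := by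
        rintro ⟨j, hj, hs⟩
        exact hex ⟨j, hj, hs.unique (Sd_el (LE_cs k1) hu n2 (LE_adj k2) (LE_cs k2).2)⟩
      have r2 : ¬ ∃ j, R j (TV.st p'.2 (S.CP w u p')) := by
        rintro ⟨j, hj, hs⟩
        exact hex ⟨j, hj, hs.unique (Sd_st k1 n2 k2)⟩
      rw [hg0 _ r1, hg0 _ r2]

/-- one step: a line which is not a bridge is not a bridge at another edge -/
theorem pass_step {w u : S.X} (hu : S.D.G.Adj w u) (hb : (S.GE hu).fg.b1 ≤ (S.GP hu).fg.b1)
    {p : V × V} (hp : p ∈ S.LE w u) (hn : ¬ S.Bd w u p) :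
    ∃ u1, u1 ≠ u ∧ p ∈ S.LE w u1 ∧ ¬ S.Bd w u1 p := by
  obtain ⟨hp', h2⟩ := to_GP hu hb hp hn
  obtain ⟨h1, u1, n1, h3⟩ := hp'
  exact ⟨u1, n1, h3, fun k => h2 (GP_br hu ⟨h1, u1, n1, h3⟩ n1 h3 k)⟩

/-- the edges of a line are at bounded distance -/
theorem LE_bound (S : Sys H V) : ∃ N, ∀ (w u : S.X) (p : V × V), p ∈ S.LE w u → ∀ a, a ∈ S.J p.1 →
    a ∈ S.J p.2 → S.D.G.dist a u ≤ N := by
  classical
  obtain ⟨F, hF, hFs, hc⟩ := FinOrb_iff.1 S.finOrb_LE2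
  have h1 : ∀ r ∈ F, ∃ a, a ∈ S.J r.1.1 ∧ a ∈ S.J r.1.2 := fun r hr => S.one_ex (LE_E (hFs hr))
  have hne : Nonempty S.X := S.D.tree.connected.nonempty
  choose! c hc1 hc2 using h1
  obtain ⟨N, hN⟩ : ∃ N, ∀ r ∈ F, S.D.G.dist (c r) r.2.2 ≤ N := by
    obtain ⟨N, hN⟩ := (hF.image (fun r => S.D.G.dist (c r) r.2.2)).bddAbove
    exact ⟨N, fun r hr => hN ⟨r, hr, rfl⟩⟩
  refine ⟨N, ?_⟩
  intro w u p hp a ha1 ha2
  obtain ⟨r, hr, g, hg⟩ := hc (p, (w, u)) hp
  have e1 : g • r.1 = p := congrArg Prod.fst hg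
  have e3 : g • r.2.2 = u := congrArg (fun r : (V × V) × (S.X × S.X) => r.2.2) hg
  have e4 : a = g • c r := by
    apply S.one_eq (LE_E hp) ha1 ha2
    · rw [← e1]
      exact S.js.smul g _ _ (hc1 r hr)
    · rw [← e1]
      exact S.js.smul g _ _ (hc2 r hr)
  rw [e4, ← e3, Pool.Agent.SAF.TAct.dist_smul S.D.tact]
  exact hN r hr

/-- the tree lemma: all lines are bridges -/
theorem all_bridges (hb : ∀ (w u : S.X) (hu : S.D.G.Adj w u), (S.GE hu).fg.b1 ≤ (S.GP hu).fg.b1)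
    {w u : S.X} {p : V × V} (hp : p ∈ S.LE w u) : S.Bd w u p := by
  by_contra hn
  obtain ⟨N, hN⟩ := LE_bound S
  obtain ⟨a, ha1, ha2⟩ := S.one_ex (LE_E hp)
  -- no bound on the distance
  have key : ∀ n, ∃ w u, S.D.G.Adj w u ∧ p ∈ S.LE w u ∧ ¬ S.Bd w u p ∧
      S.D.G.dist a u = S.D.G.dist a w + 1 ∧ n ≤ S.D.G.dist a u := by
    intro n
    induction n with
    | zero =>
      have hu := LE_adj hp
      rcases (dist_edge S.D.tree hu a).1 with e | e
      · exact ⟨w, u, hu, hp, hn, e, Nat.zero_le _⟩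
      · refine ⟨u, w, hu.symm, ?_, fun k => hn k.swap, e, Nat.zero_le _⟩
        rw [LE_comm]
        exact hp
    | succ n ih =>
      obtain ⟨w, u, hu, h1, h2, h3, h4⟩ := ih
      rw [LE_comm] at h1
      obtain ⟨w1, n1, h5, h6⟩ := pass_step hu.symm (hb u w hu.symm) h1 (fun k => h2 k.swap)
      have a1 := LE_adj h5
      have e1 : S.D.G.dist a w1 = S.D.G.dist a u + 1 := by
        rcases (dist_edge S.D.tree a1 a).1 with e | e
        · exact e
        · exfalso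
          exact n1 (x_next_unique S.D.tree a1 hu.symm e h3)
      exact ⟨u, w1, a1, h5, h6, e1, by omega⟩
  obtain ⟨w, u, hu, h1, h2, h3, h4⟩ := key (N + 1)
  have := hN w u p h1 a ha1 ha2
  omega

theorem TE_iff {w u : S.X} {t s : TV V} : S.TE w u t s ↔ ∃ p ∈ S.LE w u,
    (t = TV.el p.1 ∧ s = TV.st p.2 (S.St w u p.2 p.1)) ∨
      (s = TV.el p.1 ∧ t = TV.st p.2 (S.St w u p.2 p.1)) := by
  constructor
  · rintro ((h | h) | (h | h)) <;> obtain ⟨x, q, x', h1, rfl, rfl⟩ := h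
    · exact ⟨(x, q), ⟨x', Or.inl h1⟩, Or.inl ⟨rfl, by rw [St_near h1]⟩⟩
    · exact ⟨(x, q), ⟨x', Or.inr h1⟩, Or.inl ⟨rfl, by rw [St_far h1]⟩⟩
    · exact ⟨(x, q), ⟨x', Or.inl h1⟩, Or.inr ⟨rfl, by rw [St_near h1]⟩⟩
    · exact ⟨(x, q), ⟨x', Or.inr h1⟩, Or.inr ⟨rfl, by rw [St_far h1]⟩⟩
  · rintro ⟨⟨x, q⟩, ⟨x', h | h⟩, h2⟩
    · have h : S.Qs w u q x x' := h
      have h3 : S.TE w u (TV.el x) (TV.st q (S.St w u q x)) := by
        rw [St_near h]
        exact TE_of_jn h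
      rcases h2 with ⟨rfl, rfl⟩ | ⟨rfl, rfl⟩
      · exact h3
      · exact h3.symm
    · have h : S.Qs u w q x x' := h
      have h3 : S.TE w u (TV.el x) (TV.st q (S.St w u q x)) := by
        rw [St_far h]
        exact (TE_of_jn h).swap
      rcases h2 with ⟨rfl, rfl⟩ | ⟨rfl, rfl⟩
      · exact h3
      · exact h3.symm

/-- the quotient of the graph of an edge is a forest if all lines are bridges -/
theorem qf_of_bd {w u : S.X} (h : ∀ p ∈ S.LE w u, S.Bd w u p) :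
    QF ↥(Je w u : Subgroup H) (S.TE w u) where
  symm t s h := h.symm
  smul j t s h := by
    have := TE.smul j.1 h
    rw [j.2.1, j.2.2] at this
    exact this
  cut := by
    intro t s hts
    obtain ⟨p, hp, hp2⟩ := TE_iff.1 hts
    obtain ⟨f, f1, f2, f3⟩ := h p hp
    refine ⟨f, fun j z => f1 j.1 j.2 z, ?_, ?_⟩
    · rcases hp2 with ⟨rfl, rfl⟩ | ⟨rfl, rfl⟩
      · exact f2
      · exact f2.symm
    · intro z v hzv hne
      obtain ⟨p', hp', hp2'⟩ := TE_iff.1 hzv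
      have hne' : f (TV.el p'.1) ≠ f (TV.st p'.2 (S.St w u p'.2 p'.1)) := by
        rcases hp2' with ⟨rfl, rfl⟩ | ⟨rfl, rfl⟩
        · exact hne
        · exact hne.symm
      obtain ⟨j, hj, rfl⟩ := f3 p' hp' hne'
      refine ⟨⟨j, hj⟩, ?_⟩
      have e1 : TV.el (j • p).1 = j • TV.el p.1 := rfl
      have e2 : TV.st (j • p).2 (S.St w u (j • p).2 (j • p).1) =
          j • TV.st p.2 (S.St w u p.2 p.1) := by
        rw [TV.smul_st]
        have := St_smul (S := S) j w u p.2 p.1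
        rw [show j • w = w from hj.1, show j • u = u from hj.2] at this
        rw [← this]
        rfl
      rw [e1, e2] at hp2'
      rcases hp2 with ⟨rfl, rfl⟩ | ⟨rfl, rfl⟩ <;> rcases hp2' with ⟨rfl, rfl⟩ | ⟨rfl, rfl⟩
      · exact Or.inl ⟨rfl, rfl⟩
      · exact Or.inr ⟨rfl, rfl⟩
      · exact Or.inr ⟨rfl, rfl⟩
      · exact Or.inl ⟨rfl, rfl⟩

/-- the tree lemma -/
theorem tree_lemma (hb : ∀ (w u : S.X) (hu : S.D.G.Adj w u), (S.GE hu).fg.b1 ≤ (S.GP hu).fg.b1)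
    (w u : S.X) : QF ↥(Je w u : Subgroup H) (S.TE w u) :=
  qf_of_bd fun _ hp => all_bridges hb hp

end Sys

end Pool.Agent.DI
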