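import Pool.Agent.DI.ELt2
import Pool.Agent.DI.TL2

/-!
# `Theta` and the graph of an edge

`JM.isoPart`: a quotient graph as a part of another one. `Sys.b1_Thw_sum`: the Betti number of `Theta`
on the flags at `w` is the sum over representatives of the edges at `w`; `Sys.b1_Thw_two`: two
representatives. `Sys.b1_Th_le_GE`: `b1 (Theta) ≤ b1 (GE)` at every edge.
-/

namespace Pool.Agent.DI

open MulAction
open Pool.Agent.SAF (InC orbs FinOrb oc Decomp SAn SA Conv hull dist_edge FinOrb_iff exists_next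
  mk_eq_iff oc_le_of_inj oc_le_of_rel oc_le_of_surj oc_mono)
open Pool.Agent.BT (PX PQ JS bey exits lz lz_self lz_ne lz_symm x_next_unique)
open Pool.Agent.BT.TA

section

variable {J T Ed J' T' Ed' : Type} [Group J] [MulAction J T] [MulAction J Ed] [Group J']
  [MulAction J' T'] [MulAction J' Ed']

/-- a quotient graph is a part of another one -/
noncomputable def JM.isoPart (M' : JM J' T' Ed') (M : JM J T Ed) {ι : Type} (f : M.fg.N → ι)
    (hf : ∀ e, f (M.fg.a e) = f (M.fg.b e)) (i : ι) (n : T' → T) (l : Ed' → Ed)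
    (n1 : ∀ x y : T', (∃ j : J', y = j • x) ↔ ∃ j : J, n y = j • n x)
    (n2 : ∀ x : T', f (oq J (n x)) = i)
    (n3 : ∀ y : T, f (oq J y) = i → ∃ (x : T') (j : J), y = j • n x)
    (l1 : ∀ x y : Ed', (∃ j : J', y = j • x) ↔ ∃ j : J, l y = j • l x)
    (l3 : ∀ y : Ed, f (oq J (M.s y)) = i → ∃ (x : Ed') (j : J), y = j • l x)
    (hs : ∀ e, M.s (l e) = n (M'.s e)) (ht : ∀ e, M.t (l e) = n (M'.t e)) :
    FG.Iso M'.fg (M.fg.part f hf i) where
  n := Equiv.ofBijective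
    (olift (fun x : T' => (⟨oq J (n x), n2 x⟩ : (M.fg.part f hf i).N))
      (fun j x => Subtype.ext (oq_eq.2 ((n1 x (j • x)).1 ⟨j, rfl⟩)).symm)) (by
      constructor
      · intro p q h
        obtain ⟨x, rfl⟩ := oq_surj p
        obtain ⟨y, rfl⟩ := oq_surj q
        have h' : oq J (n x) = oq J (n y) := congrArg Subtype.val h
        exact oq_eq.2 ((n1 x y).2 (oq_eq.1 h'))
      · rintro ⟨q, hq⟩
        obtain ⟨y, rfl⟩ := oq_surj q
        obtain ⟨x, j, rfl⟩ := n3 y hq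
        exact ⟨oq J' x, Subtype.ext (oq_smul j _).symm⟩)
  l := Equiv.ofBijective
    (olift (fun e : Ed' => (⟨oq J (l e), by
        show f (oq J (M.s (l e))) = i
        rw [hs]
        exact n2 _⟩ : (M.fg.part f hf i).L))
      (fun j x => Subtype.ext (oq_eq.2 ((l1 x (j • x)).1 ⟨j, rfl⟩)).symm)) (by
      constructor
      · intro p q h
        obtain ⟨x, rfl⟩ := oq_surj p
        obtain ⟨y, rfl⟩ := oq_surj q
        have h' : oq J (l x) = oq J (l y) := congrArg Subtype.val h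
        exact oq_eq.2 ((l1 x y).2 (oq_eq.1 h'))
      · rintro ⟨q, hq⟩
        obtain ⟨y, rfl⟩ := oq_surj q
        obtain ⟨x, j, rfl⟩ := l3 y hq
        exact ⟨oq J' x, Subtype.ext (oq_smul j _).symm⟩)
  h q := by
    obtain ⟨e, rfl⟩ := oq_surj q
    left
    constructor
    · apply Subtype.ext
      show oq J (M.s (l e)) = oq J (n (M'.s e))
      rw [hs]
    · apply Subtype.ext
      show oq J (M.t (l e)) = oq J (n (M'.t e))
      rw [ht]

end

namespace Sys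

variable {H V : Type} [Group H] [MulAction H V] {S : Sys H V}

/-- sum over representatives of the edges at `w` -/
theorem b1_Thw_sum (w : S.X) {ι : Type} [Fintype ι] (R : ι → S.X)
    (hR : ∀ i, S.D.G.Adj w (R i))
    (hc : ∀ u', S.D.G.Adj w u' → ∃ (i : ι) (g : ↥(stabilizer H w)), g.1 • R i = u')
    (hu : ∀ (i j : ι) (g : ↥(stabilizer H w)), g.1 • R i = R j → i = j) :
    (S.JThw w).fg.b1 = ∑ i, (S.JTh w (R i) (hR i)).fg.b1 := by
  classical
  have hc' : ∀ t : ↥(S.ThT w), ∃ (i : ι) (g : ↥(stabilizer H w)), g.1 • R i = t.1.1 :=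
    fun t => hc _ (ThN.adj t.2)
  choose f0 g0 hg0 using hc'
  have hf0 : ∀ (i : ι) (g : ↥(stabilizer H w)) (t : ↥(S.ThT w)), g.1 • R i = t.1.1 → f0 t = i := by
    intro i g t h
    apply hu _ _ (g⁻¹ * g0 t)
    show (g.1⁻¹ * (g0 t).1) • R (f0 t) = R i
    rw [mul_smul, hg0 t, ← h, inv_smul_smul]
  have hinv : ∀ (j : ↥(stabilizer H w)) (t : ↥(S.ThT w)), f0 (j • t) = f0 t := by
    intro j t
    apply hf0 _ (j * g0 t)
    show (j.1 * (g0 t).1) • R (f0 t) = j.1 • t.1.1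
    rw [mul_smul, hg0 t]
  let f : (S.JThw w).fg.N → ι := olift f0 hinv
  have hf : ∀ e, f ((S.JThw w).fg.a e) = f ((S.JThw w).fg.b e) := by
    intro q
    obtain ⟨e, rfl⟩ := oq_surj q
    show f0 e.1.1 = f0 e.1.2
    apply hf0 _ (g0 e.1.2)
    rw [hg0 e.1.2]
    exact e.2.1.symm
  rw [(S.JThw w).fg.b1_part f hf]
  apply Finset.sum_congr rfl
  intro i _
  symm
  refine (JM.isoPart (S.JTh w (R i) (hR i)) (S.JThw w) f hf i (fun t => ⟨(R i, t.1), t.2⟩)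
    (fun e => ⟨(⟨(R i, e.1.1.1), e.1.1.2⟩, ⟨(R i, e.1.2.1), e.1.2.2⟩), rfl, e.2⟩)
    ?_ ?_ ?_ ?_ ?_ (fun _ => rfl) (fun _ => rfl)).b1
  · rintro ⟨t, ht⟩ ⟨t', ht'⟩
    constructor
    · rintro ⟨j, hj⟩
      exact ⟨jw j, Subtype.ext (Prod.ext j.2.2.symm (congrArg Subtype.val hj))⟩
    · rintro ⟨j, hj⟩
      have h1 : (R i, t') = j • (R i, t) := congrArg Subtype.val hj
      have h2 : R i = j.1 • R i := congrArg Prod.fst h1
      have h3 : t' = j.1 • t := congrArg Prod.snd h1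
      exact ⟨⟨j.1, j.2, h2.symm⟩, Subtype.ext h3⟩
  · intro t
    exact hf0 i 1 _ (one_smul _ _)
  · rintro ⟨⟨u', t⟩, ht⟩ h
    have h : f0 ⟨(u', t), ht⟩ = i := h
    subst h
    have hg := hg0 ⟨(u', t), ht⟩
    generalize g0 ⟨(u', t), ht⟩ = g at hg
    have hg : g.1 • R (f0 ⟨(u', t), ht⟩) = u' := hg
    have h1 : S.ThN w (R (f0 ⟨(u', t), ht⟩)) (g⁻¹.1 • t) := by
      have := ThN.smul g⁻¹ ht
      have e0 : g⁻¹.1 • u' = R (f0 ⟨(u', t), ht⟩) := (eq_inv_smul_iff.2 hg).symm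
      have this : S.ThN w (g⁻¹.1 • u') (g⁻¹.1 • t) := this
      rwa [e0] at this
    exact ⟨⟨g⁻¹.1 • t, h1⟩, g, Subtype.ext (Prod.ext hg.symm (smul_inv_smul g.1 t).symm)⟩
  · rintro ⟨⟨⟨t, ht⟩, ⟨s, hs⟩⟩, h⟩ ⟨⟨⟨t', ht'⟩, ⟨s', hs'⟩⟩, h'⟩
    constructor
    · rintro ⟨j, hj⟩
      have hj' : ((⟨t', ht'⟩, ⟨s', hs'⟩) : ↥(S.ThS w (R i)) × ↥(S.ThS w (R i))) =
        j • (⟨t, ht⟩, ⟨s, hs⟩) := congrArg Subtype.val hj
      have e1 : t' = j.1 • t := congrArg (fun z => z.1.1) hj'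
      have e2 : s' = j.1 • s := congrArg (fun z => z.2.1) hj'
      exact ⟨jw j, Subtype.ext (Prod.ext (Subtype.ext (Prod.ext j.2.2.symm e1))
        (Subtype.ext (Prod.ext j.2.2.symm e2)))⟩
    · rintro ⟨j, hj⟩
      have hj' := congrArg Subtype.val hj
      have e0 : R i = j.1 • R i := congrArg (fun z : ↥(S.ThT w) × ↥(S.ThT w) => z.1.1.1) hj'
      have e1 : t' = j.1 • t := congrArg (fun z : ↥(S.ThT w) × ↥(S.ThT w) => z.1.1.2) hj'
      have e2 : s' = j.1 • s := congrArg (fun z : ↥(S.ThT w) × ↥(S.ThT w) => z.2.1.2) hj'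
      exact ⟨⟨j.1, j.2, e0.symm⟩, Subtype.ext (Prod.ext (Subtype.ext e1) (Subtype.ext e2))⟩
  · rintro ⟨⟨⟨⟨u', t⟩, ht⟩, ⟨⟨u'', s⟩, hs⟩⟩, ⟨he, h⟩⟩ hq
    have he : u' = u'' := he
    subst he
    have hq : f0 ⟨(u', t), ht⟩ = i := hq
    subst hq
    have hg := hg0 ⟨(u', t), ht⟩
    generalize g0 ⟨(u', t), ht⟩ = g at hg
    have hg : g.1 • R (f0 ⟨(u', t), ht⟩) = u' := hg
    have h0 : g⁻¹.1 • u' = R (f0 ⟨(u', t), ht⟩) := (eq_inv_smul_iff.2 hg).symm
    have h1 : S.ThO w (R (f0 ⟨(u', t), ht⟩)) (g⁻¹.1 • t) (g⁻¹.1 • s) := by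
      have := ThO.smul g⁻¹ h
      rwa [h0] at this
    have h2 : S.ThN w (R (f0 ⟨(u', t), ht⟩)) (g⁻¹.1 • t) := by
      have := ThN.smul g⁻¹ ht
      rwa [h0] at this
    refine ⟨⟨(⟨g⁻¹.1 • t, h2⟩, ⟨g⁻¹.1 • s, Or.inr ⟨_, h1⟩⟩), h1⟩, g, ?_⟩
    exact Subtype.ext (Prod.ext (Subtype.ext (Prod.ext hg.symm (smul_inv_smul g.1 t).symm))
      (Subtype.ext (Prod.ext hg.symm (smul_inv_smul g.1 s).symm)))

/-- two representatives -/
theorem b1_Thw_two (w u1 u2 : S.X) (h1 : S.D.G.Adj w u1) (h2 : S.D.G.Adj w u2)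
    (hc : ∀ u', S.D.G.Adj w u' → ∃ g : ↥(stabilizer H w), g.1 • u1 = u' ∨ g.1 • u2 = u')
    (hn : ∀ g : ↥(stabilizer H w), g.1 • u1 ≠ u2) :
    (S.JThw w).fg.b1 = (S.JTh w u1 h1).fg.b1 + (S.JTh w u2 h2).fg.b1 := by
  have hR : ∀ i : Bool, S.D.G.Adj w (if i then u1 else u2) := by
    rintro (_ | _)
    · exact h2
    · exact h1
  rw [b1_Thw_sum w (fun i : Bool => if i then u1 else u2) hR]
  · rw [Fintype.sum_bool]
    rfl
  · intro u' hu
    obtain ⟨g, h | h⟩ := hc u' hu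
    · exact ⟨true, g, h⟩
    · exact ⟨false, g, h⟩
  · rintro (_ | _) (_ | _) g h
    · rfl
    · exfalso
      apply hn g⁻¹
      have h : g.1 • u2 = u1 := h
      show g.1⁻¹ • u1 = u2
      rw [← h, inv_smul_smul]
    · exact absurd h (hn g)
    · rfl

/-! ### the map to the graph of the edge -/

/-- far stars of `w u` are near stars of `u w` -/
theorem Qs.back {w u u1 : S.X} (hu : S.D.G.Adj w u) (hne : u1 ≠ u) {q a b : V}
    (hq : S.J q ⊆ bey S.D.G w u) (h : S.Qs w u1 q a b) : S.Qs u w q a b := by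
  have c1 := (far_pas hne hu h hq).1.2.1.swap
  have c2 := (far_pas hne hu h.symm' hq).1.2.1.swap
  have hn := bey_nest hu h.adj hne
  obtain ⟨y, z, hp, hs⟩ := h
  exact ⟨y, z, hp, hu.symm, c1, c2, hq, fun p hp => hn (hs.2.2.2.2.1 hp),
    fun p hp => hn (hs.2.2.2.2.2 hp)⟩

theorem Gc.back {w u u1 : S.X} (hu : S.D.G.Adj w u) (hne : u1 ≠ u) {q a b : V}
    (hq : S.J q ⊆ bey S.D.G w u) (h : S.Gc w u1 q a b) : S.Gc u w q a b := by
  induction h with
  | rel a b h => exact Relation.EqvGen.rel _ _ (h.back hu hne hq)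
  | refl a => exact Relation.EqvGen.refl _
  | symm a b _ ih => exact Relation.EqvGen.symm _ _ ih
  | trans a b c _ _ ih1 ih2 => exact Relation.EqvGen.trans _ _ _ ih1 ih2

variable (S)

open Classical in
/-- the map on vertices -/
noncomputable def tmE (w u : S.X) : TV V → TV V
  | TV.el x => TV.el x
  | TV.st q C => if C = ∅ then TV.st q {z | ∃ a, S.K.ar q a ∧ z ∈ S.St w u q a}
      else S.up w u (TV.st q C)

variable {S}

theorem tmE_el (w u : S.X) (x : V) : S.tmE w u (TV.el x) = TV.el x := rfl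

theorem tmE_dq (w u : S.X) (q : V) :
    S.tmE w u (TV.st q ∅) = TV.st q {z | ∃ a, S.K.ar q a ∧ z ∈ S.St w u q a} := if_pos rfl

theorem tmE_up (w u : S.X) {q : V} {C : Set V} (hC : C ≠ ∅) :
    S.tmE w u (TV.st q C) = S.up w u (TV.st q C) := if_neg hC

theorem tmE_smul {w u : S.X} (j : ↥(Je w u : Subgroup H)) (t : TV V) :
    S.tmE w u (j • t) = j • S.tmE w u t := by
  cases t with
  | el x => rfl
  | st q C =>
    by_cases hC : C = ∅
    · subst hC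
      have e1 : j • TV.st q (∅ : Set V) = TV.st (j.1 • q) ∅ := by
        show j.1 • TV.st q (∅ : Set V) = _
        rw [TV.smul_st, Set.image_empty]
      rw [e1, tmE_dq, tmE_dq]
      show _ = j.1 • TV.st q _
      rw [TV.smul_st]
      congr 1
      have hS : ∀ x, S.St w u (j.1 • q) (j.1 • x) = (fun z => j.1 • z) '' S.St w u q x := by
        intro x
        have h := St_smul (S := S) j.1 w u q x
        rwa [j.2.1, j.2.2] at h
      ext z
      constructor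
      · rintro ⟨a, ha, hz⟩
        have h1 : S.K.ar q (j.1⁻¹ • a) := by
          have := S.K.ar_smul j.1⁻¹ _ _ ha
          rwa [inv_smul_smul] at this
        have h2 := hS (j.1⁻¹ • a)
        rw [smul_inv_smul] at h2
        rw [h2] at hz
        obtain ⟨y, hy, rfl⟩ := hz
        exact ⟨y, ⟨_, h1, hy⟩, rfl⟩
      · rintro ⟨y, ⟨a, ha, hy⟩, rfl⟩
        refine ⟨j.1 • a, S.K.ar_smul _ _ _ ha, ?_⟩
        rw [hS a]
        exact ⟨y, hy, rfl⟩
    · have hC' : (fun x => j.1 • x) '' C ≠ ∅ := fun h => hC (Set.image_eq_empty.1 h)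
      have e1 : j • TV.st q C = TV.st (j.1 • q) ((fun x => j.1 • x) '' C) := rfl
      rw [e1, tmE_up _ _ hC', tmE_up _ _ hC]
      exact up_smul' j.2 (TV.st q C)

/-- the image of a line -/
theorem ThO.tmE {w u : S.X} (hu : S.D.G.Adj w u) {x q : V} {C : Set V}
    (h : S.ThO w u (TV.el x) (TV.st q C)) :
    (x, q) ∈ S.LE w u ∧ S.tmE w u (TV.st q C) = TV.st q (S.St w u q x) := by
  obtain ⟨x1, q1, h0, h⟩ := h
  cases h0
  rcases h with ⟨h1, ⟨x', h2⟩, e⟩ | ⟨u1, h1, h2, ⟨x', h3⟩, h4, e⟩ | ⟨h1, h2, e⟩ <;> cases e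
  · refine ⟨⟨x', Or.inl h2⟩, ?_⟩
    rw [tmE_up _ _ (Star_ne _ _ _ _)]
    exact up_st (self_Star _ _ _ _) fun z hz => Or.inl hz
  · refine ⟨⟨x', Or.inr (h3.back hu h1 h4)⟩, ?_⟩
    rw [tmE_up _ _ (Star_ne _ _ _ _)]
    exact up_st (self_Star _ _ _ _) fun z hz => Or.inr (Gc.back hu h1 h4 hz)
  · obtain ⟨-, a, b, hab, ha, hb, hc⟩ := h1.1
    have h3 := eqv_jn hc hab
    have hx : x = a ∨ x = b := by
      rcases S.K.two q x a b h2 ha hb with e | e | e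
      · exact Or.inl e
      · exact absurd e hab
      · exact Or.inr e
    have h4 : ∃ x', S.Qs w u q x x' := by
      rcases hx with rfl | rfl
      · exact h3.1
      · exact h3.2
    obtain ⟨x', h4⟩ := h4
    refine ⟨⟨x', Or.inl h4⟩, ?_⟩
    rw [tmE_dq]
    congr 1
    have key : ∀ c, S.K.ar q c → S.St w u q c = S.St w u q x := by
      intro c hc'
      have hcc : c = a ∨ c = b := by
        rcases S.K.two q c a b hc' ha hb with e | e | e
        · exact Or.inl e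
        · exact absurd e hab
        · exact Or.inr e
      apply St_eq
      rcases hx with rfl | rfl <;> rcases hcc with rfl | rfl
      · exact self_St _ _ _ _
      · exact Or.inl hc
      · exact Or.inl (Relation.EqvGen.symm _ _ hc)
      · exact self_St _ _ _ _
    ext z
    constructor
    · rintro ⟨c, hc1, hc2⟩
      rwa [key c hc1] at hc2
    · intro hz
      exact ⟨x, h2, hz⟩

theorem ThO.kind {w u : S.X} {t s : TV V} (h : S.ThO w u t s) :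
    ∃ x q C, t = TV.el x ∧ s = TV.st q C := by
  obtain ⟨x, q, rfl, ⟨-, -, rfl⟩ | ⟨_, -, -, -, -, rfl⟩ | ⟨-, -, rfl⟩⟩ := h
  · exact ⟨_, _, _, rfl, rfl⟩
  · exact ⟨_, _, _, rfl, rfl⟩
  · exact ⟨_, _, _, rfl, rfl⟩

/-- the underlying vertex -/
def pt : TV V → V
  | TV.el x => x
  | TV.st q _ => q

theorem tmE_mem {w u : S.X} (hu : S.D.G.Adj w u) {t : TV V} (h : S.ThN w u t) :
    S.tmE w u t ∈ (S.LDE hu).nd := by
  rcases h with ⟨x, rfl, h⟩ | ⟨t', h⟩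
  · exact Or.inl ⟨x, h.2.1, rfl⟩
  · obtain ⟨x, q, C, rfl, rfl⟩ := h.kind
    obtain ⟨h1, h2⟩ := h.tmE hu
    rw [h2]
    exact Or.inr ⟨(x, q), h1, rfl⟩

/-- `b1 (Theta) ≤ b1 (GE)` -/
theorem b1_Th_le_GE {w u : S.X} (hu : S.D.G.Adj w u) :
    (S.JTh w u hu).fg.b1 ≤ (S.GE hu).fg.b1 := by
  apply JM.b1_le (S.GE hu) (S.JTh w u hu)
    (fun t => ⟨S.tmE w u t.1, tmE_mem hu t.2⟩)
    (fun e => ⟨(pt e.1.1.1, pt e.1.2.1), by
      obtain ⟨⟨⟨t, ht⟩, ⟨s, hs⟩⟩, h⟩ := e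
      have h : S.ThO w u t s := h
      obtain ⟨x, q, C, rfl, rfl⟩ := h.kind
      exact (h.tmE hu).1⟩)
  · intro j t
    exact Subtype.ext (tmE_smul j t.1)
  · rintro j ⟨⟨⟨t, ht⟩, ⟨s, hs⟩⟩, h⟩
    have h : S.ThO w u t s := h
    obtain ⟨x, q, C, rfl, rfl⟩ := h.kind
    rfl
  · rintro ⟨⟨⟨t, ht⟩, ⟨s, hs⟩⟩, h⟩
    have h : S.ThO w u t s := h
    obtain ⟨x, q, C, rfl, rfl⟩ := h.kind
    rfl
  · rintro ⟨⟨⟨t, ht⟩, ⟨s, hs⟩⟩, h⟩
    have h : S.ThO w u t s := h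
    obtain ⟨x, q, C, rfl, rfl⟩ := h.kind
    exact Subtype.ext (h.tmE hu).2.symm
  · rintro ⟨⟨⟨t, ht⟩, ⟨s, hs⟩⟩, h⟩ ⟨⟨⟨t', ht'⟩, ⟨s', hs'⟩⟩, h'⟩ j hj
    have h : S.ThO w u t s := h
    have h' : S.ThO w u t' s' := h'
    obtain ⟨x, q, C, rfl, rfl⟩ := h.kind
    obtain ⟨x', q', C', rfl, rfl⟩ := h'.kind
    have hj' : (x', q') = j • (x, q) := congrArg Subtype.val hj
    have e1 : x' = j.1 • x := congrArg Prod.fst hj'
    have e2 : q' = j.1 • q := congrArg Prod.snd hj'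
    subst e1 e2
    have h2 : S.ThO w u (TV.el (j.1 • x)) (TV.st (j.1 • q) ((fun x => j.1 • x) '' C)) := h.smulJ j
    have := ThO_uniq2 h' h2
    subst this
    exact ⟨j, rfl⟩

end Sys

end Pool.Agent.DI
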