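import Pool.Agent.DI.Short
import Pool.Agent.DI.SeenQ

/-!
# DI/Thin: parallel listed squares

`P.Pl i i'`: the listed squares `i`, `i'` have the same boundary up to translation (rotation,
reversal). `P.thin`: the complex `K` where only one listed square of each parallel class is kept;
`P.thinP : P45 P.thin`. Same `Qn`, `Q4`, corners, links, area; `P.thin.Min ↔ K.Min`;
`thin_one`: two parallel listed squares of `P.thin` are equal.
-/

namespace Pool.Agent.DI

open MulAction
open Pool.Agent.SAF (InC orbs FinOrb oc)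

variable {H V : Type} [Group H] [MulAction H V] {K : GX H V}

namespace P45

variable (P : P45 K)

theorem ps4' (φ : V → V → ZMod 2) {i : K.I} (hi : P.sq i) (h : H) :
    ps φ (h • K.cb i) ((K.cw i).map (fun z => h • z)) =
      ∑ j : Fin 4, φ (h • P.qt i j) (h • P.qt i (j + 1)) := by
  rw [P.ps4 φ hi, Fin.sum_univ_four]
  rfl

/-- parallel squares -/
def Pl (i i' : K.I) : Prop := P.sq i ∧ P.sq i' ∧ ∃ (h : H) (k : Fin 4),
  (∀ j, h • P.qt i j = P.qt i' (j + k)) ∨ ∀ j, h • P.qt i j = P.qt i' (k - j)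

variable {P}

theorem Pl.refl {i : K.I} (h : P.sq i) : P.Pl i i :=
  ⟨h, h, 1, 0, Or.inl fun j => by rw [one_smul, add_zero]⟩

theorem Pl.symm' {i i' : K.I} (h : P.Pl i i') : P.Pl i' i := by
  obtain ⟨h1, h2, g, k, e | e⟩ := h
  · refine ⟨h2, h1, g⁻¹, -k, Or.inl fun j => ?_⟩
    rw [inv_smul_eq_iff, e]
    congr 1
    abel
  · refine ⟨h2, h1, g⁻¹, k, Or.inr fun j => ?_⟩
    rw [inv_smul_eq_iff, e]
    congr 1
    abel

theorem Pl.trans {i i' i'' : K.I} (h : P.Pl i i') (h' : P.Pl i' i'') : P.Pl i i'' := by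
  obtain ⟨h1, -, g, k, e⟩ := h
  obtain ⟨-, h3, g', k', e'⟩ := h'
  rcases e with e | e <;> rcases e' with e' | e'
  · refine ⟨h1, h3, g' * g, k + k', Or.inl fun j => ?_⟩
    rw [mul_smul, e, e']
    congr 1
    abel
  · refine ⟨h1, h3, g' * g, k' - k, Or.inr fun j => ?_⟩
    rw [mul_smul, e, e']
    congr 1
    abel
  · refine ⟨h1, h3, g' * g, k + k', Or.inr fun j => ?_⟩
    rw [mul_smul, e, e']
    congr 1
    abel
  · refine ⟨h1, h3, g' * g, k' - k, Or.inl fun j => ?_⟩
    rw [mul_smul, e, e']
    congr 1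
    abel

variable (P)

/-- equal or parallel -/
def plS : Setoid K.I where
  r i i' := i = i' ∨ P.Pl i i'
  iseqv := by
    refine ⟨fun i => Or.inl rfl, ?_, ?_⟩
    · rintro i i' (rfl | h)
      · exact Or.inl rfl
      · exact Or.inr h.symm'
    · rintro i i' i'' (rfl | h) (rfl | h')
      · exact Or.inl rfl
      · exact Or.inr h'
      · exact Or.inr h
      · exact Or.inr (h.trans h')

/-- the chosen member of the parallel class -/
noncomputable def rp (i : K.I) : K.I := (Quotient.mk P.plS i).out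

theorem rp_rel (i : K.I) : P.rp i = i ∨ P.Pl (P.rp i) i :=
  Quotient.exact (s := P.plS) (Quotient.out_eq (Quotient.mk P.plS i))

theorem rp_rp (i : K.I) : P.rp (P.rp i) = P.rp i := by
  unfold rp
  rw [Quotient.out_eq]

theorem rp_not {i : K.I} (h : ¬ P.sq i) : P.rp i = i := by
  rcases P.rp_rel i with e | e
  · exact e
  · exact absurd e.2.1 h

theorem rp_eq {i i' : K.I} (h : P.Pl i i') : P.rp i = P.rp i' := by
  unfold rp
  rw [Quotient.sound (s := P.plS) (Or.inr h)]

theorem rp_sq {i : K.I} : P.sq (P.rp i) ↔ P.sq i := by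
  rcases P.rp_rel i with e | e
  · rw [e]
  · exact ⟨fun _ => e.2.1, fun _ => e.1⟩

/-- the kept cells -/
def KI : Type := {i : K.I // P.rp i = i}

theorem pl_ps {i i' : K.I} (h : P.Pl i i') (φ : V → V → ZMod 2) (hs : ∀ x y, φ x y = φ y x)
    (h0 : ∀ g : H, ps φ (g • K.cb i) ((K.cw i).map (fun z => g • z)) = 0) (g : H) :
    ps φ (g • K.cb i') ((K.cw i').map (fun z => g • z)) = 0 := by
  obtain ⟨h1, h2, g', k, e | e⟩ := h
  · rw [P.ps4' φ h2]
    have := h0 (g * g')
    rw [P.ps4' φ h1] at this
    rw [← this]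
    rw [← Equiv.sum_comp (Equiv.addRight k)]
    apply Finset.sum_congr rfl
    intro j _
    simp only [Equiv.coe_addRight, mul_smul, e]
    rw [show j + k + 1 = j + 1 + k by abel]
  · rw [P.ps4' φ h2]
    have := h0 (g * g')
    rw [P.ps4' φ h1] at this
    rw [← this]
    rw [← Equiv.sum_comp (Equiv.subLeft (k - 1))]
    apply Finset.sum_congr rfl
    intro j _
    simp only [Equiv.subLeft_apply, mul_smul, e]
    rw [show k - 1 - j + 1 = k - j by abel, show k - (j + 1) = k - 1 - j by abel, hs]

/-- the complex with one listed square for every parallel class -/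
noncomputable def thin : GX H V := K.recell (I' := P.KI) (by
    have := K.finI
    exact Subtype.finite) (fun i => K.cb i.1) (fun i => K.cw i.1) (fun i => K.c_E i.1)
  (fun i => K.c_tg i.1) (by
    intro φ hc i
    have key : ∀ g : H, ps φ (g • K.cb (P.rp i)) ((K.cw (P.rp i)).map (fun z => g • z)) = 0 :=
      fun g => hc.2 ⟨P.rp i, P.rp_rp i⟩ g
    have h1 : ∀ g : H, ps φ (g • K.cb i) ((K.cw i).map (fun z => g • z)) = 0 := by
      rcases P.rp_rel i with e | e
      · rw [e] at key
        exact key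
      · exact P.pl_ps e φ hc.1 key
    have := h1 1
    simpa using this)

/-- pentagons and squares of `P.thin` -/
noncomputable def thinP : P45 P.thin where
  sq i := P.sq i.1
  pt i := P.pt i.1
  qt i := P.qt i.1
  cb5 i h := P.cb5 i.1 h
  cw5 i h := P.cw5 i.1 h
  cb4 i h := P.cb4 i.1 h
  cw4 i h := P.cw4 i.1 h

theorem thin_ar : P.thin.ar = K.ar := rfl

theorem thin_rk : P.thin.rk = K.rk := rfl

theorem thin_E : P.thin.E = K.E := rfl

theorem thin_Qn {a q b y z : V} : Qn P.thinP a q b y z ↔ Qn P a q b y z := by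
  constructor
  · rintro ⟨h, i, j, hi, k⟩
    exact ⟨h, i.1, j, hi, k⟩
  · rintro ⟨h, i, j, hi, k⟩
    exact ⟨h, ⟨i, P.rp_not hi⟩, j, hi, k⟩

theorem thin_Q4 {a q b y : V} : Q4 P.thinP a q b y ↔ Q4 P a q b y := by
  constructor
  · rintro ⟨h, i, j, hi, k⟩
    exact ⟨h, i.1, j, hi, k⟩
  · rintro ⟨h, i, j, hi, k⟩
    have key : ∀ a q b y : V, (a = h • P.qt i j ∧ q = h • P.qt i (j + 1) ∧ b = h • P.qt i (j + 2) ∧
        y = h • P.qt i (j + 3)) → Q4 P.thinP a q b y := by
      rintro a q b y ⟨rfl, rfl, rfl, rfl⟩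
      rcases P.rp_rel i with e | ⟨h1, -, g, m, e | e⟩
      · exact Q4_qt (P := P.thinP) h (i := ⟨i, e⟩) hi j
      · have e' : ∀ n, P.qt i n = g • P.qt (P.rp i) (n - m) := by
          intro n
          rw [e, sub_add_cancel]
        have := Q4_qt (P := P.thinP) (h * g) (i := ⟨P.rp i, P.rp_rp i⟩) h1 (j - m)
        simp only [e', ← mul_smul]
        rw [show j + 1 - m = j - m + 1 by abel, show j + 2 - m = j - m + 2 by abel,
          show j + 3 - m = j - m + 3 by abel]
        exact this
      · have e' : ∀ n, P.qt i n = g • P.qt (P.rp i) (m - n) := by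
          intro n
          rw [e, sub_sub_cancel]
        have := (Q4_qt (P := P.thinP) (h * g) (i := ⟨P.rp i, P.rp_rp i⟩) h1 (m - j - 2)).symm
        simp only [e', ← mul_smul]
        have e2 : m - j - 2 + 1 = m - (j + 1) := by
          have : ∀ j m : Fin 4, m - j - 2 + 1 = m - (j + 1) := by decide
          exact this j m
        have e3 : m - j - 2 + 2 = m - j := by
          have : ∀ j m : Fin 4, m - j - 2 + 2 = m - j := by decide
          exact this j m
        have e4 : m - j - 2 + 3 = m - (j + 3) := by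
          have : ∀ j m : Fin 4, m - j - 2 + 3 = m - (j + 3) := by decide
          exact this j m
        have e5 : m - j - 2 = m - (j + 2) := by
          have : ∀ j m : Fin 4, m - j - 2 = m - (j + 2) := by decide
          exact this j m
        rw [e2, e3, e4, e5] at this
        exact this
    rcases k with k | k
    · exact key a q b y k
    · exact (key b q a y k).symm

theorem thin_Cor {a v b : V} : P.thin.Cor a v b ↔ K.Cor a v b := by
  rw [P.thinP.cor_iff, P.cor_iff]
  simp only [P.thin_Qn, P.thin_Q4]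

theorem thin_LC {v : V} : P.thin.LC v ↔ K.LC v := by
  unfold GX.LC GX.LJ
  simp only [P.thin_Cor, P.thin_E]

theorem thin_area : P.thin.area = K.area := by
  unfold GX.area
  have e1 : (∑ᶠ i : P.thin.I, ((P.thin.cw i).length - 4)) =
      ∑ᶠ (i : K.I) (_ : P.rp i = i), ((K.cw i).length - 4) :=
    finsum_subtype_eq_finsum_cond (f := fun i => (K.cw i).length - 4) (fun i => P.rp i = i)
  rw [e1]
  apply finsum_congr
  intro i
  by_cases h : P.rp i = i
  · simp [h]
  · have hs : P.sq i := by
      by_contra hn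
      exact h (P.rp_not hn)
    rw [P.cw4 i hs]
    simp

theorem thin_Min : P.thin.Min ↔ K.Min := by
  unfold GX.Min
  rw [P.thin_area]

/-- parallel listed squares are equal -/
theorem thin_one {i i' : P.thin.I} (h : P.thinP.Pl i i') : i = i' := by
  have : P.Pl i.1 i'.1 := h
  have e := P.rp_eq this
  rw [i.2, i'.2] at e
  exact Subtype.ext e

end P45

end Pool.Agent.DI
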