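import Pool.Agent.DI.HrW
import Pool.Agent.DI.Thin
import Pool.Agent.DI.LT3

/-!
# DI/FreeF: a free arrow of a top

`x` is the top of its own squares `a, x, b, y` (one partner `y`), its stabiliser fixes `a`. If the own squares
are the only cells with the arrow `x → b` (`P.FFc x a b y`), then the arrow and the own squares can be
removed: `F.gx`, `F.p45`. `P45.X_other`: in a minimal complex `1 ≤ X x a` gives `1 ≤ X x b`.
-/

namespace Pool.Agent.DI

open MulAction
open Pool.Agent.SAF (InC orbs FinOrb oc)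

variable {H V : Type} [Group H] [MulAction H V] {K : GX H V}

namespace P45

variable (P : P45 K)

/-- A FREE ARROW -/
structure FFc (x a b y : V) : Prop where
  top : P.Top x a b y
  nd : P.ND
  one : ∀ a' b' y', P.Top x a' b' y' → y' = y
  no5 : ∀ n c d, ¬ Qn P n x b c d
  no4 : ∀ n q, Q4 P n x b q → ¬ K.ar n x
  ord : ∀ g : H, g • x = x → g • a = a
  rky : K.rk y < K.rk x

/-- a square at a given place -/
theorem q4_at (P : P45 K) {i : K.I} (hi : P.sq i) (j : Fin 4) :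
    Q4 P (P.qt i (j + 3)) (P.qt i j) (P.qt i (j + 1)) (P.qt i (j + 2)) := by
  have h := Q4_qt (P := P) (1 : H) hi (j + 3)
  simp only [one_smul] at h
  have e1 : ∀ j : Fin 4, j + 3 + 1 = j := by decide
  have e2 : ∀ j : Fin 4, j + 3 + 2 = j + 1 := by decide
  have e3 : ∀ j : Fin 4, j + 3 + 3 = j + 2 := by decide
  rwa [e1, e2, e3] at h

theorem sum4 (f : Fin 4 → ZMod 2) (j : Fin 4) :
    ∑ k, f k = f (j + 3) + f j + f (j + 1) + f (j + 2) := by
  rw [Fin.sum_univ_four]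
  fin_cases j
  · show f 0 + f 1 + f 2 + f 3 = f 3 + f 0 + f 1 + f 2
    ring
  · show f 0 + f 1 + f 2 + f 3 = f 0 + f 1 + f 2 + f 3
    ring
  · show f 0 + f 1 + f 2 + f 3 = f 1 + f 2 + f 3 + f 0
    ring
  · show f 0 + f 1 + f 2 + f 3 = f 2 + f 3 + f 0 + f 1
    ring

namespace FFc

variable {P} {x a b y : V} (F : P.FFc x a b y)

/-- the removed arrows -/
def rem (_ : P.FFc x a b y) (p q : V) : Prop := ∃ g : H, g • x = p ∧ g • b = q

/-- the kept cells -/
def kp (F : P.FFc x a b y) (i : K.I) : Prop :=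
  P.sq i → ∀ j, ¬ F.rem (P.qt i j) (P.qt i (j + 1)) ∧ ¬ F.rem (P.qt i (j + 1)) (P.qt i j)

/-- the new arrows -/
def ar' (F : P.FFc x a b y) (p q : V) : Prop := K.ar p q ∧ ¬ F.rem p q

include F

theorem ab : a ≠ b := (F.top.1.ck_ne F.nd).1

theorem xa : K.ar x a := F.top.2.1

theorem xb : K.ar x b := F.top.2.2

theorem rem_ar {p q : V} (h : F.rem p q) : K.ar p q := by
  obtain ⟨g, rfl, rfl⟩ := h
  exact K.ar_smul g _ _ F.xb

theorem rem_smul {p q : V} (h : F.rem p q) (g : H) : F.rem (g • p) (g • q) := by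
  obtain ⟨k, rfl, rfl⟩ := h
  exact ⟨g * k, mul_smul _ _ _, mul_smul _ _ _⟩

theorem rem_iff {p q : V} (g : H) : F.rem (g • p) (g • q) ↔ F.rem p q := by
  refine ⟨fun h => ?_, fun h => F.rem_smul h g⟩
  have := F.rem_smul h g⁻¹
  rwa [inv_smul_smul, inv_smul_smul] at this

theorem rem_rk {p q : V} (h : F.rem p q) : K.rk p = K.rk x := by
  obtain ⟨g, rfl, -⟩ := h
  exact K.rk_smul g x

theorem not_rem {p q : V} (h : K.rk p < K.rk x) : ¬ F.rem p q := fun k => by
  have := F.rem_rk k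
  omega

theorem not_rem' {p q : V} (h : K.rk x < K.rk p) : ¬ F.rem p q := fun k => by
  have := F.rem_rk k
  omega

theorem rka : K.rk a < K.rk x := K.ar_rk _ _ F.xa

theorem rkb : K.rk b < K.rk x := K.ar_rk _ _ F.xb

theorem xa_not : ¬ F.rem x a := by
  rintro ⟨g, h1, h2⟩
  have h3 := F.ord g h1
  exact F.ab (smul_left_cancel g (h2.trans h3.symm)).symm

/-- a square with the step `x, b` is an own square -/
theorem q4 {n q : V} (h : Q4 P n x b q) : n = a ∧ q = y := by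
  have h1 : K.ar x n := by
    rcases h.E1 with k | k
    · exact absurd k (F.no4 n q h)
    · exact k
  have hnb : n ≠ b := (h.ck_ne F.nd).1
  have hna : n = a := by
    rcases K.two _ _ _ _ F.xa F.xb h1 with e | e | e
    · exact absurd e F.ab
    · exact absurd e.symm hnb
    · exact e.symm
  exact ⟨hna, F.one _ _ _ ⟨h, h1, F.xb⟩⟩

/-- a square with a removed step -/
theorem q4g {n p r q : V} (h : Q4 P n p r q) (hr : F.rem p r) :
    ∃ g : H, n = g • a ∧ p = g • x ∧ r = g • b ∧ q = g • y := by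
  obtain ⟨g, rfl, rfl⟩ := hr
  have h' := h.smul g⁻¹
  rw [inv_smul_smul, inv_smul_smul] at h'
  obtain ⟨h1, h2⟩ := F.q4 h'
  refine ⟨g, ?_, rfl, rfl, ?_⟩
  · rw [← h1, smul_inv_smul]
  · rw [← h2, smul_inv_smul]

theorem E' {p q : V} (h : K.E p q) (h1 : ¬ F.rem p q) (h2 : ¬ F.rem q p) :
    F.ar' p q ∨ F.ar' q p := by
  rcases h with h | h
  · exact Or.inl ⟨h, h1⟩
  · exact Or.inr ⟨h, h2⟩

theorem pt_not {i : K.I} (hi : ¬ P.sq i) (j : Fin 5) : ¬ F.rem (P.pt i j) (P.pt i (j + 1)) ∧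
    ¬ F.rem (P.pt i (j + 1)) (P.pt i j) := by
  have hq : ∀ j, Qn P (P.pt i j) (P.pt i (j + 1)) (P.pt i (j + 2)) (P.pt i (j + 3))
      (P.pt i (j + 4)) := by
    intro j
    have := Qn_pt (P := P) (1 : H) hi j
    simpa only [one_smul] using this
  constructor
  · rintro ⟨g, h1, h2⟩
    have h := (hq (j + 4))
    have e1 : ∀ j : Fin 5, j + 4 + 1 = j := by decide
    have e2 : ∀ j : Fin 5, j + 4 + 2 = j + 1 := by decide
    rw [e1, e2, ← h1, ← h2] at h
    have h' := h.smul g⁻¹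
    rw [inv_smul_smul, inv_smul_smul] at h'
    exact F.no5 _ _ _ h'
  · rintro ⟨g, h1, h2⟩
    have h := (hq j).symm
    rw [← h1, ← h2] at h
    have h' := h.smul g⁻¹
    rw [inv_smul_smul, inv_smul_smul] at h'
    exact F.no5 _ _ _ h'

/-- a square which is not kept -/
theorem not_kp {i : K.I} (h : ¬ F.kp i) : P.sq i ∧ ∃ (j : Fin 4) (g : H),
    (P.qt i (j + 3) = g • a ∧ P.qt i j = g • x ∧ P.qt i (j + 1) = g • b ∧
      P.qt i (j + 2) = g • y) ∨
    (P.qt i (j + 2) = g • a ∧ P.qt i (j + 1) = g • x ∧ P.qt i j = g • b ∧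
      P.qt i (j + 3) = g • y) := by
  unfold kp at h
  push Not at h
  obtain ⟨hi, j, h⟩ := h
  refine ⟨hi, j, ?_⟩
  by_cases k : F.rem (P.qt i j) (P.qt i (j + 1))
  · obtain ⟨g, h1, h2, h3, h4⟩ := F.q4g (q4_at P hi j) k
    exact ⟨g, Or.inl ⟨h1, h2, h3, h4⟩⟩
  · have hq : Q4 P (P.qt i (j + 2)) (P.qt i (j + 1)) (P.qt i j) (P.qt i (j + 3)) := by
      have := Q4_qt (P := P) (1 : H) hi j
      simp only [one_smul] at this
      exact this.symm
    obtain ⟨g, h1, h2, h3, h4⟩ := F.q4g hq (h k)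
    exact ⟨g, Or.inr ⟨h1, h2, h3, h4⟩⟩

theorem cE {i : K.I} (h : F.kp i) : Wk (fun p q => F.ar' p q ∨ F.ar' q p) (K.cb i) (K.cw i) := by
  by_cases hi : P.sq i
  · rw [P.cb4 i hi, P.cw4 i hi]
    have k : ∀ j : Fin 4, F.ar' (P.qt i j) (P.qt i (j + 1)) ∨ F.ar' (P.qt i (j + 1)) (P.qt i j) :=
      fun j => F.E' (P.E4 hi j) (h hi j).1 (h hi j).2
    exact ⟨k 0, k 1, k 2, k 3, trivial⟩
  · rw [P.cb5 i hi, P.cw5 i hi]
    have k : ∀ j : Fin 5, F.ar' (P.pt i j) (P.pt i (j + 1)) ∨ F.ar' (P.pt i (j + 1)) (P.pt i j) :=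
      fun j => F.E' (P.E5 hi j) (F.pt_not hi j).1 (F.pt_not hi j).2
    exact ⟨k 0, k 1, k 2, k 3, k 4, trivial⟩

theorem steps (g : H) : (F.ar' (g • x) (g • a) ∨ F.ar' (g • a) (g • x)) ∧
    (F.ar' (g • a) (g • y) ∨ F.ar' (g • y) (g • a)) ∧
    (F.ar' (g • y) (g • b) ∨ F.ar' (g • b) (g • y)) := by
  have ra := F.rka
  have rb := F.rkb
  have ry := F.rky
  refine ⟨F.E' (K.E_smul g (Or.inl F.xa)) ?_ ?_, F.E' (K.E_smul g F.top.1.E4.symm) ?_ ?_,
    F.E' (K.E_smul g F.top.1.E3.symm) ?_ ?_⟩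
  · rw [F.rem_iff]
    exact F.xa_not
  all_goals
    apply F.not_rem
    rw [K.rk_smul]
    assumption

theorem step {p q : V} (e : K.E p q) :
    Relation.ReflTransGen (fun p q => F.ar' p q ∨ F.ar' q p) p q := by
  by_cases h1 : F.rem p q
  · obtain ⟨g, rfl, rfl⟩ := h1
    obtain ⟨k1, k2, k3⟩ := F.steps g
    exact Relation.ReflTransGen.head k1 (Relation.ReflTransGen.head k2
      (Relation.ReflTransGen.single k3))
  · by_cases h2 : F.rem q p
    · obtain ⟨g, rfl, rfl⟩ := h2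
      obtain ⟨k1, k2, k3⟩ := F.steps g
      exact Relation.ReflTransGen.head (Or.symm k3) (Relation.ReflTransGen.head (Or.symm k2)
        (Relation.ReflTransGen.single (Or.symm k1)))
    · exact Relation.ReflTransGen.single (F.E' e h1 h2)

theorem conn' (p q : V) : Relation.ReflTransGen (fun p q => F.ar' p q ∨ F.ar' q p) p q := by
  have h := K.conn p q
  induction h with
  | refl => exact Relation.ReflTransGen.refl
  | tail _ e ih => exact ih.trans (F.step e)

/-- elements with the same image of `x` -/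
theorem same {g g' : H} (h : g • x = g' • x) : g • a = g' • a ∧ g • y = g' • y := by
  have h1 : (g'⁻¹ * g) • x = x := by rw [mul_smul, h, inv_smul_smul]
  have h2 := F.ord _ h1
  have h3 : (g'⁻¹ * g) • y = y := by
    have k := F.top.smul (g'⁻¹ * g)
    rw [h1] at k
    exact F.one _ _ _ k
  constructor
  · rw [mul_smul, inv_smul_eq_iff] at h2
    exact h2
  · rw [mul_smul, inv_smul_eq_iff] at h3
    exact h3

end FFc

section H1

open Classical in
/-- the extension of a cocycle to the removed arrows -/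
noncomputable def FFc.ext {P : P45 K} {x a b y : V} (F : P.FFc x a b y) (φ : V → V → ZMod 2)
    (p q : V) : ZMod 2 :=
  if h : F.rem p q then φ p (h.choose • a) + φ (h.choose • a) (h.choose • y) +
    φ (h.choose • y) q
  else if h : F.rem q p then φ q (h.choose • a) + φ (h.choose • a) (h.choose • y) +
    φ (h.choose • y) p
  else φ p q

variable {P} {x a b y : V} (F : P.FFc x a b y) {φ : V → V → ZMod 2}

theorem FFc.ext_rem (g : H) : F.ext φ (g • x) (g • b) =
    φ (g • x) (g • a) + φ (g • a) (g • y) + φ (g • y) (g • b) := by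
  have h : F.rem (g • x) (g • b) := ⟨g, rfl, rfl⟩
  unfold FFc.ext
  rw [dif_pos h]
  obtain ⟨h1, h2⟩ := F.same h.choose_spec.1
  rw [h1, h2]

theorem FFc.ext_rem' (g : H) : F.ext φ (g • b) (g • x) =
    φ (g • x) (g • a) + φ (g • a) (g • y) + φ (g • y) (g • b) := by
  have h : F.rem (g • x) (g • b) := ⟨g, rfl, rfl⟩
  have hn : ¬ F.rem (g • b) (g • x) := by
    apply F.not_rem
    rw [K.rk_smul]
    exact F.rkb
  unfold FFc.ext
  rw [dif_neg hn, dif_pos h]
  obtain ⟨h1, h2⟩ := F.same h.choose_spec.1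
  rw [h1, h2]

theorem FFc.ext_not {p q : V} (h1 : ¬ F.rem p q) (h2 : ¬ F.rem q p) : F.ext φ p q = φ p q := by
  unfold FFc.ext
  rw [dif_neg h1, dif_neg h2]

theorem FFc.ext_symm (hs : ∀ p q, φ p q = φ q p) (p q : V) : F.ext φ p q = F.ext φ q p := by
  by_cases h1 : F.rem p q
  · obtain ⟨g, rfl, rfl⟩ := h1
    rw [F.ext_rem, F.ext_rem']
  · by_cases h2 : F.rem q p
    · obtain ⟨g, rfl, rfl⟩ := h2
      rw [F.ext_rem, F.ext_rem']
    · rw [F.ext_not h1 h2, F.ext_not h2 h1]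
      exact hs _ _

theorem FFc.ext_zero (hs : ∀ p q, φ p q = φ q p)
    (hz : ∀ i : K.I, F.kp i → ∀ h : H, ps φ (h • K.cb i) ((K.cw i).map (fun z => h • z)) = 0)
    (i : K.I) (h : H) : ps (F.ext φ) (h • K.cb i) ((K.cw i).map (fun z => h • z)) = 0 := by
  by_cases hi : P.sq i
  · by_cases hk : F.kp i
    · have := hz i hk h
      rw [P.ps4' φ hi] at this
      rw [P.ps4' _ hi, ← this]
      refine Finset.sum_congr rfl fun j _ => ?_
      apply F.ext_not
      · rw [F.rem_iff]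
        exact (hk hi j).1
      · rw [F.rem_iff]
        exact (hk hi j).2
    · obtain ⟨-, j, g, h1⟩ := F.not_kp hk
      rw [P.ps4' _ hi, sum4 _ j]
      have a1 : ∀ j : Fin 4, j + 3 + 1 = j := by decide
      have a2 : ∀ j : Fin 4, j + 1 + 1 = j + 2 := by decide
      have a3 : ∀ j : Fin 4, j + 2 + 1 = j + 3 := by decide
      have ra := F.rka
      have rb := F.rkb
      have ry := F.rky
      have nx : ∀ (k : H) {p q : V}, K.rk p < K.rk x → ¬ F.rem (k • p) (k • q) := by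
        intro k p q hp
        apply F.not_rem
        rw [K.rk_smul]
        exact hp
      have nxa : ∀ k : H, ¬ F.rem (k • x) (k • a) := by
        intro k
        rw [F.rem_iff]
        exact F.xa_not
      rw [a1, a2, a3]
      have c2 : ∀ z : ZMod 2, z + z = 0 := fun z => CharTwo.add_self_eq_zero z
      rcases h1 with ⟨e1, e2, e3, e4⟩ | ⟨e1, e2, e3, e4⟩
      · rw [e1, e2, e3, e4]
        simp only [← mul_smul]
        rw [F.ext_rem, F.ext_not (nx _ ra) (nxa _), F.ext_not (nx _ rb) (nx _ ry),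
          F.ext_not (nx _ ry) (nx _ ra), hs ((h * g) • a) ((h * g) • x),
          hs ((h * g) • b) ((h * g) • y), hs ((h * g) • y) ((h * g) • a)]
        linear_combination c2 (φ ((h * g) • x) ((h * g) • a)) + c2 (φ ((h * g) • a) ((h * g) • y)) +
          c2 (φ ((h * g) • y) ((h * g) • b))
      · rw [e1, e2, e3, e4]
        simp only [← mul_smul]
        rw [F.ext_rem', F.ext_not (nxa _) (nx _ ra), F.ext_not (nx _ ry) (nx _ rb),
          F.ext_not (nx _ ra) (nx _ ry)]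
        linear_combination c2 (φ ((h * g) • x) ((h * g) • a)) + c2 (φ ((h * g) • a) ((h * g) • y)) +
          c2 (φ ((h * g) • y) ((h * g) • b))
  · have := hz i (fun k => absurd k hi) h
    rw [P.ps5 φ hi] at this
    rw [P.ps5 _ hi, ← this]
    refine Finset.sum_congr rfl fun j _ => ?_
    apply F.ext_not
    · rw [F.rem_iff]
      exact (F.pt_not hi j).1
    · rw [F.rem_iff]
      exact (F.pt_not hi j).2

end H1

/-! ### the smaller complex -/

section

variable {P} {x a b y : V} (F : P.FFc x a b y)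

/-- THE COMPLEX WITHOUT THE FREE ARROW AND THE OWN SQUARES -/
noncomputable def FFc.gx : GX H V where
  ar := F.ar'
  rk := K.rk
  I := {i : K.I // F.kp i}
  finI := by
    have := K.finI
    exact Subtype.finite
  cb i := K.cb i.1
  cw i := K.cw i.1
  ar_rk p q h := K.ar_rk p q h.1
  ar_smul g p q h := ⟨K.ar_smul g p q h.1, fun k => h.2 ((F.rem_iff g).1 k)⟩
  rk_smul := K.rk_smul
  two v a b c h1 h2 h3 := K.two v a b c h1.1 h2.1 h3.1
  c_E i := F.cE i.2
  c_tg i := K.c_tg i.1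
  ne := K.ne
  conn := F.conn'
  H1 φ hs hz := by
    obtain ⟨g, hg⟩ := K.H1 (F.ext φ) (F.ext_symm hs)
      (fun i h => F.ext_zero hs (fun i hk h => hz ⟨i, hk⟩ h) i h)
    refine ⟨g, fun p q h => ?_⟩
    have hpq : ¬ F.rem p q ∧ ¬ F.rem q p := by
      rcases h with h | h
      · exact ⟨h.2, fun k => GX.not_both' h.1 (F.rem_ar k)⟩
      · exact ⟨fun k => GX.not_both' h.1 (F.rem_ar k), h.2⟩
    rw [← hg p q (h.imp (fun k => k.1) (fun k => k.1)), F.ext_not hpq.1 hpq.2]
  fin := K.fin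
  stab := K.stab

/-- its pentagons and squares -/
noncomputable def FFc.p45 : P45 F.gx where
  sq i := P.sq i.1
  pt i := P.pt i.1
  qt i := P.qt i.1
  cb5 i h := P.cb5 i.1 h
  cw5 i h := P.cw5 i.1 h
  cb4 i h := P.cb4 i.1 h
  cw4 i h := P.cw4 i.1 h

theorem FFc.gx_area : F.gx.area = K.area := by
  unfold GX.area
  have e1 : (∑ᶠ i : F.gx.I, ((F.gx.cw i).length - 4)) =
      ∑ᶠ (i : K.I) (_ : F.kp i), ((K.cw i).length - 4) :=
    finsum_subtype_eq_finsum_cond (f := fun i => (K.cw i).length - 4) (fun i => F.kp i)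
  rw [e1]
  apply finsum_congr
  intro i
  by_cases h : F.kp i
  · simp [h]
  · have hs := (F.not_kp h).1
    rw [P.cw4 i hs]
    simp

theorem FFc.gx_min (hm : K.Min) : F.gx.Min := by
  intro V' _ K'
  rw [F.gx_area]
  exact hm V' K'

theorem FFc.qn {n p c d e : V} : Qn F.p45 n p c d e ↔ Qn P n p c d e := by
  constructor
  · rintro ⟨h, i, j, hi, k⟩
    exact ⟨h, i.1, j, hi, k⟩
  · rintro ⟨h, i, j, hi, k⟩
    exact ⟨h, ⟨i, fun k => absurd k hi⟩, j, hi, k⟩

theorem FFc.q4_of {n p c q : V} (h : Q4 F.p45 n p c q) : Q4 P n p c q := by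
  obtain ⟨g, i, j, hi, k⟩ := h
  exact ⟨g, i.1, j, hi, k⟩

/-- a square with a vertex of large rank is kept -/
theorem FFc.q4_kept {n p c q : V} (h : Q4 P n p c q) (hr : K.rk x < K.rk n ∨ K.rk x < K.rk p) :
    Q4 F.p45 n p c q := by
  obtain ⟨g, i, j, hi, k⟩ := h
  have hk : F.kp i := by
    by_contra hk
    obtain ⟨-, j', g', h'⟩ := F.not_kp hk
    have ra := F.rka
    have rb := F.rkb
    have ry := F.rky
    have all : ∀ m : Fin 4, K.rk (P.qt i m) ≤ K.rk x := by
      have key : ∀ m : Fin 4, m = j' ∨ m = j' + 1 ∨ m = j' + 2 ∨ m = j' + 3 := by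
        revert j'
        intro j' _
        have : ∀ j m : Fin 4, m = j ∨ m = j + 1 ∨ m = j + 2 ∨ m = j + 3 := by decide
        exact this j'
      intro m
      rcases h' with ⟨e1, e2, e3, e4⟩ | ⟨e1, e2, e3, e4⟩ <;>
        rcases key m with rfl | rfl | rfl | rfl
      all_goals
        first
        | rw [e1, K.rk_smul]; omega
        | rw [e2, K.rk_smul]
        | rw [e3, K.rk_smul]; omega
        | rw [e4, K.rk_smul]; omega
    rcases k with ⟨rfl, rfl, -, -⟩ | ⟨-, rfl, rfl, -⟩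
    · have h1 := all j
      have h2 := all (j + 1)
      rw [K.rk_smul, K.rk_smul] at hr
      omega
    · have h1 := all (j + 2)
      have h2 := all (j + 1)
      rw [K.rk_smul, K.rk_smul] at hr
      omega
  exact ⟨g, ⟨i, hk⟩, j, hi, k⟩

theorem FFc.nd' : F.p45.ND := fun i hi => F.nd i.1 hi

theorem FFc.tp' (ht : ∀ i, P.sq i → ∃ j, P.tp i j) (i : F.gx.I) (hi : F.p45.sq i) :
    ∃ j, F.p45.tp i j := by
  obtain ⟨j, h1, h2⟩ := ht i.1 hi
  refine ⟨j, ⟨h1, (i.2 hi j).1⟩, h2, ?_⟩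
  have := (i.2 hi (j + 3)).2
  have e : ∀ j : Fin 4, j + 3 + 1 = j := by decide
  rwa [e] at this

end

/-! ### strands -/

/-- a pentagon or a walk gives a strand -/
theorem one_le_F5 {n T a y z : V} (h : Qn P n T a y z) (e : K.ar T a) : 1 ≤ P.X T a := by
  have hf := fin_fib (π := fun f : FL K => (fy f, fz f)) (fun g f => fyz_smul g f)
    (fin_RP (P := P)) (T, a)
  obtain ⟨f, hf'⟩ : ∃ f : FL K, f ∈ {f : FL K | f ∈ P.RP ∧ (fy f, fz f) = (T, a)} := by
    obtain ⟨g, i, j, hi, h | h⟩ := h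
    · obtain ⟨-, rfl, rfl, -, -⟩ := h
      have e1 : fy ((P.l5 i hi j g, true) : FL K) = g • P.pt i (j + 1) := P45.c1_5 P i hi j g
      have e2 : fz ((P.l5 i hi j g, true) : FL K) = g • P.pt i (j + 2) := P45.c2_5 P i hi j g
      refine ⟨(P.l5 i hi j g, true), ⟨hi, ?_⟩, Prod.ext e1 e2⟩
      rw [e1, e2]
      exact e
    · obtain ⟨rfl, rfl, -, -, -⟩ := h
      have e1 : fy ((P.l5 i hi j g, false) : FL K) = g • P.pt i (j + 1) := P45.c1_5 P i hi j g
      have e2 : fz ((P.l5 i hi j g, false) : FL K) = g • P.pt i j := P45.c0_5 P i hi j g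
      refine ⟨(P.l5 i hi j g, false), ⟨hi, ?_⟩, Prod.ext e1 e2⟩
      rw [e1, e2]
      exact e
  have h1 : 1 ≤ oc ↥(stabilizer H (T, a)) {f : FL K | f ∈ P.RP ∧ (fy f, fz f) = (T, a)} :=
    (Set.ncard_pos hf).2 ⟨Quotient.mk'' f, f, hf', rfl⟩
  exact h1.trans (Nat.le_add_right _ _)

theorem one_le_F4 {n T a q : V} (h : Q4 P n T a q) (e : K.ar T a) (e' : K.ar n T) :
    1 ≤ P.X T a := by
  have hf := fin_fib (G := H) (π := fun p : (V × V) × (V × V) => p.1) (fun _ _ => rfl)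
    (fin_ZP (P := P)) (T, a)
  have : 1 ≤ oc ↥(stabilizer H (T, a)) {p | p ∈ P.ZP ∧ p.1 = (T, a)} :=
    (Set.ncard_pos hf).2 ⟨Quotient.mk'' ((T, a), (q, n)), _, ⟨⟨h, e, e'⟩, rfl⟩, rfl⟩
  exact this.trans (Nat.le_add_left _ _)

variable {P}

/-- THE OTHER ARROW OF A TOP -/
theorem X_other (nd : P.ND) (hm : K.Min) (ht : ∀ i, P.sq i → ∃ j, P.tp i j) {x a b y : V}
    (top : P.Top x a b y) (one : ∀ a' b' y', P.Top x a' b' y' → y' = y)
    (rky : K.rk y < K.rk x)
    (x1 : ∀ T a b y, P.Top T a b y → K.rk x < K.rk T → 1 ≤ P.X T a) (h : 1 ≤ P.X x a) :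
    1 ≤ P.X x b := by
  by_contra hX
  have hab : a ≠ b := (top.1.ck_ne nd).1
  -- the stabiliser fixes `a`
  have ord : ∀ g : H, g • x = x → g • a = a := by
    intro g hg
    have h1 := K.ar_smul g _ _ top.2.1
    rw [hg] at h1
    rcases K.two _ _ _ _ top.2.1 top.2.2 h1 with e | e | e
    · exact absurd e hab
    · exfalso
      apply hX
      have := P.X_smul g x a
      rw [hg, ← e] at this
      rw [this]
      exact h
    · exact e.symm
  have F : P.FFc x a b y :=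
    { top := top
      nd := nd
      one := one
      no5 := fun n c d k => hX (P.one_le_F5 k top.2.2)
      no4 := fun n q k e => hX (P.one_le_F4 k top.2.2 e)
      ord := ord
      rky := rky }
  have hmin := F.gx_min hm
  have har : F.gx.ar x a := ⟨F.xa, F.xa_not⟩
  have hout : ∀ d, F.gx.ar x d → d = a := by
    rintro d ⟨h1, h2⟩
    rcases K.two _ _ _ _ top.2.1 top.2.2 h1 with e | e | e
    · exact absurd e hab
    · exfalso
      apply h2
      rw [← e]
      exact ⟨1, one_smul _ _, one_smul _ _⟩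
    · exact e.symm
  have x1' : ∀ T a b y, F.p45.Top T a b y → F.gx.rk x < F.gx.rk T → 1 ≤ F.p45.X T a := by
    intro T a' b' y' k hr
    have hr : K.rk x < K.rk T := hr
    have k' : P.Top T a' b' y' := ⟨F.q4_of k.1, k.2.1.1, k.2.2.1⟩
    rcases hw_strand (x1 T a' b' y' k' hr) with ⟨n, y, z, hq⟩ | ⟨n, q, hq, e⟩
    · exact F.p45.one_le_F5 (F.qn.2 hq) k.2.1
    · exact F.p45.one_le_F4 (F.q4_kept hq (Or.inr hr)) k.2.1
        ⟨e, F.not_rem' (hr.trans (K.ar_rk _ _ e))⟩
  obtain ⟨k5, k4⟩ := F.p45.hairW F.nd' hmin (F.tp' ht) x1' har hout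
  rcases hw_strand h with ⟨n, y, z, hq⟩ | ⟨n, q, hq, e⟩
  · exact k5 n y z (F.qn.2 hq)
  · exact k4 n q (F.q4_kept hq (Or.inl (K.ar_rk _ _ e))) ⟨e, F.not_rem' (K.ar_rk _ _ e)⟩

end P45

end Pool.Agent.DI
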