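import Pool.Agent.DI.SgM

/-!
# DI/SgN: sigma does not drop on the folded slice

`SgH`: the hypotheses: `o` the fold, `x1` the class of `K`, `x1'` the class of the folded slice, a number
`c k` for the near star arrows, `nst` = (N*) for the near stars, `lcl` = (LOC) for the local tops, `cor1` for
the gamma tops which become diamonds.
`SgH.le : S.P.sigma ≤ (S.kfP hc w O hm hn).sigma`, `SgH.sgY` for the case of equality.
-/

namespace Pool.Agent.DI

open MulAction
open Pool.Agent.SAF (InC orbs FinOrb oc Decomp SAn SA Conv hull dist_edge FinOrb_iff exists_next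
  mk_eq_iff)
open Pool.Agent.BT (PX PQ JS bey exits lz lz_self lz_ne lz_symm x_next_unique)
open Pool.Agent.BT.TA

namespace SyQ

variable {H V : Type} [Group H] [MulAction H V] {S : SyQ H V}

/-- THE HYPOTHESES OF THE SIGMA LAW -/
structure SgH (S : SyQ H V) (hc : S.Conn) (w : S.X) (O : S.OR w) (hm : (S.k0 hc w).Min)
    (hn : S.SqN w O) (E : V → Prop) (c : S.Q w O × S.Q w O → ℕ) : Prop where
  o : S.SgO w O E
  /-- the class of `K` -/
  x1 : ∀ p ∈ S.P.CA, 1 ≤ S.P.X p.1 p.2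
  /-- the class of the folded slice -/
  x1' : ∀ k ∈ (S.kfP hc w O hm hn).CA, 1 ≤ (S.kfP hc w O hm hn).X k.1 k.2
  ci : ∀ (g : ↥(stabilizer H w)) k, c (g • k) = c k
  /-- gamma tops over `w` -/
  cor1 : ∀ T a b y, S.P.Top T a b y → (T, a) ∈ S.P.U → w ∈ S.J T → w ∈ S.J a → w ∈ S.J b →
    S.P.X T a ≤ S.P.X T b
  /-- (N*) THE NEAR STARS -/
  nst : ∀ u q z x, S.KN w O u q z x →
    os ↥(stabilizer ↥(stabilizer H w) (S.fq w O (S.rho w x), S.fq w O (S.rho w q)))
        {p | S.Ca w O p (S.fq w O (S.rho w x), S.fq w O (S.rho w q))}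
        (fun p => S.P.X p.1 p.2 - 1) +
      (c (S.fq w O (S.rho w x), S.fq w O (S.rho w q)) - 1) ≤
    ((S.kfP hc w O hm hn).X (S.fq w O (S.rho w x)) (S.fq w O (S.rho w q)) - 1) +
    os ↥(stabilizer ↥(stabilizer H w) (S.fq w O (S.rho w x), S.fq w O (S.rho w q)))
        {k | S.QN w O (S.fq w O (S.rho w x), S.fq w O (S.rho w q)) k} (fun k => c k - 1)
  /-- (LOC) THE LOCAL TOPS -/
  lcl : ∀ T a b y, S.P.Top T a b y → ((T, a) ∈ S.P.CA ∨ (T, b) ∈ S.P.CA) → w ∈ S.J T →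
    w ∈ S.J a → w ∈ S.J b → S.P.X T a ≤
      (S.kfP hc w O hm hn).X (S.fq w O (S.rho w T)) (S.fq w O (S.rho w a)) +
      os ↥(stabilizer ↥(stabilizer H w) (S.fq w O (S.rho w T), S.fq w O (S.rho w a)))
        {k | S.QN w O (S.fq w O (S.rho w T), S.fq w O (S.rho w a)) k} (fun k => c k - 1)

variable {hc : S.Conn} {w : S.X} {O : S.OR w} {hm : (S.k0 hc w).Min} {hn : S.SqN w O}
  {E : V → Prop} {c : S.Q w O × S.Q w O → ℕ}

/-- the charges are at least the near stars -/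
theorem chr_ge (h : S.SgO w O E) (ci : ∀ (g : ↥(stabilizer H w)) k, c (g • k) = c k)
    {k : S.Q w O × S.Q w O} (hk : k ∈ (S.kfP hc w O hm hn).CA) :
    4 * os ↥(stabilizer ↥(stabilizer H w) k) {l | S.QN w O k l} (fun l => c l - 1) ≤
      chr (G := ↥(stabilizer H w)) (CQ hc hm hn) (pay hc hm hn c) k := by
  rw [← os_mul (QN.fin h hc hm hn k)]
  have e1 : os ↥(stabilizer ↥(stabilizer H w) k) {l | S.QN w O k l} (fun l => 4 * (c l - 1)) =
      os ↥(stabilizer ↥(stabilizer H w) k) {l | S.QN w O k l} (pay hc hm hn c) :=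
    os_congr (QN.fin h hc hm hn k) fun l hl => (pay_NA ⟨k, hl⟩).symm
  rw [e1]
  refine os_mono (CQ.fin h k) ?_ (fun g l _ _ => pay_smul h ci g.1 l)
  intro l hl
  exact Or.inl ⟨hl, hk⟩

/-- with the second arrow of a diamond top -/
theorem chr_P4 (h : S.SgO w O E) (ci : ∀ (g : ↥(stabilizer H w)) k, c (g • k) = c k)
    {p : V × V} {l : S.Q w O × S.Q w O} (hp : S.P4 hc hm hn p l) :
    4 * os ↥(stabilizer ↥(stabilizer H w) (S.fq w O (S.rho w p.1), S.fq w O (S.rho w p.2)))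
        {l | S.QN w O (S.fq w O (S.rho w p.1), S.fq w O (S.rho w p.2)) l} (fun l => c l - 1) +
      (S.P.X p.1 p.2 - 1) ≤
      chr (G := ↥(stabilizer H w)) (CQ hc hm hn) (pay hc hm hn c)
        (S.fq w O (S.rho w p.1), S.fq w O (S.rho w p.2)) := by
  generalize hk : (S.fq w O (S.rho w p.1), S.fq w O (S.rho w p.2)) = k
  have hkm : k ∈ (S.kfP hc w O hm hn).CA := by
    rw [← hk]
    exact Or.inr (hp.both h).2.1
  have fN := QN.fin h hc hm hn k
  rw [← os_mul fN]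
  have e1 : os ↥(stabilizer ↥(stabilizer H w) k) {l | S.QN w O k l} (fun l => 4 * (c l - 1)) =
      os ↥(stabilizer ↥(stabilizer H w) k) {l | S.QN w O k l} (pay hc hm hn c) :=
    os_congr fN fun l hl => (pay_NA ⟨k, hl⟩).symm
  rw [e1]
  -- the orbit of the second arrow
  have hQ : CQ hc hm hn k l := Or.inr ⟨p, hp, hk.symm⟩
  have f2 : FinOrb ↥(stabilizer ↥(stabilizer H w) k)
      {m | CQ hc hm hn k m ∧ ¬ S.NA w O m} := (CQ.fin h k).mono fun m hm => hm.1
  have e2 : S.P.X p.1 p.2 - 1 ≤ os ↥(stabilizer ↥(stabilizer H w) k)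
      {m | CQ hc hm hn k m ∧ ¬ S.NA w O m} (pay hc hm hn c) := by
    rw [← pay_P4 (c := c) h hp]
    exact le_os f2 (fun g m _ _ => pay_smul h ci g.1 m) ⟨hQ, (hp.not_NA h).1⟩
  have e3 := os_union (X := pay hc hm hn c) fN f2
    (fun g m (hm' : S.QN w O k m) => by
      show S.QN w O k (g.1 • m)
      have := hm'.smul g.1
      rwa [show g.1 • k = k from g.2] at this)
    (fun m (hm' : S.QN w O k m) (h2 : _ ∧ _) => h2.2 ⟨k, hm'⟩) (fun g m => pay_smul h ci g.1 m)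
  have e4 : os ↥(stabilizer ↥(stabilizer H w) k) ({l | S.QN w O k l} ∪
      {m | CQ hc hm hn k m ∧ ¬ S.NA w O m}) (pay hc hm hn c) ≤
      chr (G := ↥(stabilizer H w)) (CQ hc hm hn) (pay hc hm hn c) k := by
    refine os_mono (CQ.fin h k) ?_ (fun g l _ _ => pay_smul h ci g.1 l)
    rintro m (hm' | hm')
    · exact Or.inl ⟨hm', hkm⟩
    · exact hm'.1
  omega

/-- a carrier which is not a near star arrow: a local top -/
theorem Ca.loc (h : S.SgO w O E) {T a : V} {k : S.Q w O × S.Q w O}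
    (hk : S.Ca w O (T, a) k) (hN : ¬ S.NA w O k) : ∃ b y, S.P.Top T a b y ∧ S.K.ar a y ∧
      w ∈ S.J T ∧ w ∈ S.J a ∧ w ∈ S.J b ∧ k = (S.fq w O (S.rho w T), S.fq w O (S.rho w a)) := by
  obtain ⟨hp, b, y, ht, e, ⟨u, l, rfl⟩ | ⟨u, l, -, rfl⟩ | ⟨u, l, rfl⟩ | ⟨hl, rfl⟩⟩ :=
    Ca.cases h hk
  · exact absurd ⟨_, u, a, y, T, l, rfl, rfl⟩ hN
  · exact absurd ⟨_, u, y, b, a, l, rfl, rfl⟩ hN
  · exact ⟨b, y, ht, e, O.near u T l.2.1, l.1.l.1, l.1.r.1, rfl⟩
  · exact ⟨b, y, ht, e, hl.1, hl.2.1, hl.2.2.1, rfl⟩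

/-- only one counted arrow is carried -/
theorem Ca.one (h : S.SgO w O E) {T a : V} {k : S.Q w O × S.Q w O}
    (hk : S.Ca w O (T, a) k) (hN : ¬ S.NA w O k) : ∀ p ∈ {p | S.Ca w O p k}, p = (T, a) := by
  rintro ⟨T', a'⟩ hk'
  obtain ⟨b, y, ht, e, hT, ha, hb, e1⟩ := Ca.loc h hk hN
  obtain ⟨b', y', ht', e', hT', ha', hb', e1'⟩ := Ca.loc h hk' hN
  rw [e1] at e1'
  have f1 := congrArg Prod.fst e1'
  have f2 := congrArg Prod.snd e1'
  dsimp only at f1 f2
  obtain rfl := h.alone hk'.1 ht' hT' ha' hb' hT f1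
  rcases h.sq.sides ht ht'.2.1 with rfl | rfl
  · rfl
  · exact absurd f2 (h.nab _ _ _ _ ht hk.1 hT ha hb)

/-- the image of a local counted arrow -/
theorem Ca.val (h : S.SgO w O E) {T a b y : V} (ht : S.P.Top T a b y)
    (hk : S.Ca w O (T, a) (S.fq w O (S.rho w T), S.fq w O (S.rho w a))) (hT : w ∈ S.J T)
    (hb : w ∈ S.J b) (hU : (T, a) ∈ S.P.U)
    (hn' : (S.fq w O (S.rho w T), S.fq w O (S.rho w a)) ∉ (S.kfP hc w O hm hn).U) :
    S.P4 hc hm hn (T, a) (S.fq w O (S.rho w T), S.fq w O (S.rho w b)) := by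
  have := Ca.mem (hc := hc) (hm := hm) (hn := hn) h hk
  exact ⟨hk, hT, hU, this.resolve_left hn', b, y, ht, hb, rfl⟩

/-- THE LOCAL INEQUALITY -/
theorem SgH.loc (h : S.SgH hc w O hm hn E c) {k : S.Q w O × S.Q w O}
    (hk : k ∈ (S.kfP hc w O hm hn).CA) :
    os ↥(stabilizer ↥(stabilizer H w) k) {p | S.Ca w O p k} S.P.val + pay hc hm hn c k ≤
      (S.kfP hc w O hm hn).val k +
        chr (G := ↥(stabilizer H w)) (CQ hc hm hn) (pay hc hm hn c) k := by
  have hc4 := chr_ge h.o h.ci hk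
  by_cases hN : S.NA w O k
  · -- near stars
    have hN' := hN
    obtain ⟨q, u, q0, z, n, h1, rfl, rfl⟩ := hN
    have h2 := h.nst u q0 z n h1
    have fC := Ca.fin h.o (S.fq w O (S.rho w n), S.fq w O (S.rho w q0))
    have h3 : os ↥(stabilizer ↥(stabilizer H w) (S.fq w O (S.rho w n), S.fq w O (S.rho w q0)))
        {p | S.Ca w O p (S.fq w O (S.rho w n), S.fq w O (S.rho w q0))} S.P.val ≤
        4 * os ↥(stabilizer ↥(stabilizer H w) (S.fq w O (S.rho w n), S.fq w O (S.rho w q0)))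
        {p | S.Ca w O p (S.fq w O (S.rho w n), S.fq w O (S.rho w q0))}
        (fun p => S.P.X p.1 p.2 - 1) := by
      rw [← os_mul fC]
      exact os_le fC fun p _ => P45.val_le p
    rw [pay_NA hN', P45.val_U (h1.U h.o.nf)]
    dsimp only
    omega
  · have hv := (P45.le_val (P := S.kfP hc w O hm hn) k)
    by_cases hC : ∃ p, S.Ca w O p k
    · -- a local top
      obtain ⟨⟨T, a⟩, hp⟩ := hC
      have one := Ca.one h.o hp hN
      obtain ⟨b, y, ht, e, hT, ha, hb, rfl⟩ := Ca.loc h.o hp hN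
      have hl := h.lcl T a b y ht (Or.inl hp.1) hT ha hb
      rw [os_single (G := ↥(stabilizer ↥(stabilizer H w)
        (S.fq w O (S.rho w T), S.fq w O (S.rho w a))))
        (A := {p | S.Ca w O p (S.fq w O (S.rho w T), S.fq w O (S.rho w a))}) (p := (T, a)) hp one]
      have hpay : pay hc hm hn c (S.fq w O (S.rho w T), S.fq w O (S.rho w a)) = 0 := by
        refine pay_zero hN ?_
        rintro ⟨T', a'⟩ hp4
        obtain ⟨hU, b', y', ht', e1, e2, hT', ha', hb', e3⟩ := hp4.data h.o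
        have f1 := congrArg Prod.fst e3
        have f2 := congrArg Prod.snd e3
        dsimp only at f1 f2
        obtain rfl := h.o.alone (Or.inl hU) ht' hT' ha' hb' hT f1
        rcases h.o.sq.sides ht' ht.2.1 with rfl | rfl
        · exact absurd f2 (h.o.nab _ _ _ _ ht' (Or.inl hU) hT' ha' hb')
        · obtain ⟨rfl, rfl⟩ := h.o.sq.uniq ht ht'.symm' (h.o.nE hp.1)
          exact GX.ck_asym e e2
      rw [hpay]
      by_cases hU : (T, a) ∈ S.P.U
      · rw [P45.val_U hU]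
        by_cases hU' : (S.fq w O (S.rho w T), S.fq w O (S.rho w a)) ∈ (S.kfP hc w O hm hn).U
        · rw [P45.val_U hU']
          dsimp only
          omega
        · have hp4 := Ca.val h.o ht hp hT hb hU hU'
          have hch := chr_P4 (c := c) h.o h.ci hp4
          dsimp only at hch hv ⊢
          omega
      · rw [P45.val_nU hU]
        dsimp only at hv ⊢
        omega
    · -- nothing is carried
      push Not at hC
      rw [os_none (G := ↥(stabilizer ↥(stabilizer H w) k)) (A := {p | S.Ca w O p k})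
        (fun p hp => hC p hp)]
      by_cases h4 : ∃ p, S.P4 hc hm hn p k
      · obtain ⟨⟨T, a⟩, hp⟩ := h4
        rw [pay_P4 h.o hp]
        obtain ⟨hU, b, y, ht, e1, e2, hT, ha, hb, rfl⟩ := hp.data h.o
        have hl := h.lcl T b a y ht.symm' (Or.inr (Or.inl hU)) hT hb ha
        have h1 := h.cor1 T a b y ht hU hT ha hb
        dsimp only at hv ⊢
        omega
      · push Not at h4
        rw [pay_zero hN h4]
        omega

/-- THE ASSEMBLY -/
theorem SgH.sgY (h : S.SgH hc w O hm hn E c) :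
    SgY (stabilizer H w) S.P.CA (S.kfP hc w O hm hn).CA S.P.val (S.kfP hc w O hm hn).val
      (S.Ca w O) (CQ hc hm hn) (pay hc hm hn c) where
  fT := P45.fin_CA
  fT' := P45.fin_CA
  iv g p _ := P45.val_smul g p
  iv' g k _ := P45.val_smul g k
  ie g k _ := pay_smul h.o h.ci g k
  R1 _ _ hk := ⟨hk.1, Ca.mem h.o hk⟩
  R2 g _ _ hk := hk.smul g
  R3 _ _ _ hk hk' := Ca.fun h.o hk hk'
  R4 _ hp := Ca.ex h.o hp
  R5 _ _ _ _ hk hk' := Ca.slice h.o hk hk'
  Q1 _ _ hk := hk.mem h.o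
  Q2 g _ _ hk := hk.smul g
  Q3 _ _ _ hk hk' := hk.fun h.o hk'
  loc _ hk := h.loc hk

/-- no arrow of the folded slice is counted twice -/
theorem kf_U_Dm (h : S.SgO w O E) : ∀ k ∈ (S.kfP hc w O hm hn).U,
    k ∉ (S.kfP hc w O hm hn).Dm := by
  rintro ⟨T, a⟩ ⟨b, y, k, k1, k2⟩ ⟨b', y', l, l1, l2⟩
  obtain rfl : y = y' := kf_par h.nf h.kin k l
  obtain rfl : b = b' := by
    rcases (S.kf hc w O).two _ _ _ _ k.2.1 k.2.2 l.2.2 with e | e | e
    · exact absurd e (kf_nab k)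
    · exact e
    · exact absurd e (kf_nab l)
  exact GX.ck_asym k2 l2

/-- SIGMA DOES NOT DROP ON THE FOLDED SLICE -/
theorem SgH.le (h : S.SgH hc w O hm hn E c) : S.P.sigma ≤ (S.kfP hc w O hm hn).sigma := by
  rw [P45.sigma_os h.o.sq h.x1, P45.sigma_os' (kf_U_Dm h.o) h.x1']
  exact h.sgY.le

end SyQ

end Pool.Agent.DI
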