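import Pool.Agent.DI.Ns2
import Pool.Agent.DI.SgN

/-!
# DI/Ns3: the inequality of a near star from the static minimal cut

`P.PmS n x Y`: `Y` is a set of in-arrows of the vertex `n` with the pole `x`, invariant under the stabiliser
of `n` and `x`, moved off itself by every element which exchanges the poles of `n`, without a top over `n`
whose partner is the other pole. `P.PmP n x Y`: MINIMAL CUT with the tops of the partner `x` (I) and the
walks of the partner `n` (III) counted with their strands. `S.nYs`: the translates of a near star.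
`NSt.pms : P.PmS n x (S.nYs ..)`, `NSt.pm_le`: `P.PmP` gives (N*), `nst61`: the field `nst` of `SgH`.
-/

namespace Pool.Agent.DI

open MulAction
open Pool.Agent.SAF (InC orbs FinOrb oc Decomp SAn SA Conv hull dist_edge FinOrb_iff exists_next
  mk_eq_iff oc_mono oc_le_of_inj oc_le_of_rel oc_le_of_surj)
open Pool.Agent.BT (PX PQ JS bey exits lz lz_self lz_ne lz_symm x_next_unique)
open Pool.Agent.BT.TA

namespace P45

variable {H V : Type} [Group H] [MulAction H V] {K : GX H V} (P : P45 K)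

/-- the corners `y - n - x` of pentagons, `y ∈ Y` -/
def r5 (n x : V) (Y : Set V) : Set (FL K) := {f | ¬ P.sq f.1.1.1 ∧ fy f ∈ Y ∧ fz f = n ∧ fv f = x}

/-- the corners `y - n - m` of pentagons, `y ∈ Y`, `m` outside -/
def o5 (n x : V) (Y : Set V) : Set (FL K) :=
  {f | ¬ P.sq f.1.1.1 ∧ fy f ∈ Y ∧ fz f = n ∧ fv f ∉ Y ∧ fv f ≠ x}

/-- the corners `y - n - m` of squares, `y ∈ Y`, `m` outside, written `((y, n), (m, z))` -/
def o4 (n x : V) (Y : Set V) : Set ((V × V) × (V × V)) :=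
  {p | Q4 P p.2.2 p.1.1 p.1.2 p.2.1 ∧ p.1.1 ∈ Y ∧ p.1.2 = n ∧ p.2.1 ∉ Y ∧ p.2.1 ≠ x}

/-- (I): the tops in `Y` over `n` with the partner `x` -/
def t1 (n x : V) (Y : Set V) : Set (V × V) := {p | p.1 ∈ Y ∧ p.2 = n ∧ ∃ b, P.Top p.1 n b x}

/-- (III): the tops over `x` and a vertex of `Y` with the partner `n` -/
def t3 (n x : V) (Y : Set V) : Set (V × V) := {p | p.2 ∈ Y ∧ P.Top p.1 p.2 x n}

/-- the conditions on the set `Y` -/
structure PmS (n x : V) (Y : Set V) : Prop where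
  nx : K.ar n x
  yn : ∀ y ∈ Y, K.ar y n
  inv : ∀ g : H, g • n = n → g • x = x → ∀ y ∈ Y, g • y ∈ Y
  sw : ∀ g : H, g • n = n → g • x ≠ x → ∀ y ∈ Y, g • y ∉ Y
  np : ∀ T b x', T ∈ Y → P.Top T n b x' → K.ar n x' → x' = x

/-- MINIMAL CUT, the tops are counted with the numbers `F`, with the surplus `d` -/
def PmG (F : V → V → ℕ) (d : ℕ) (n x : V) (Y : Set V) : Prop :=
  oc ↥(stabilizer H (n, x)) (P.r5 n x Y) +
    os ↥(stabilizer H (n, x)) (P.t1 n x Y) (fun p => F p.1 p.2) +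
    os ↥(stabilizer H (n, x)) (P.t3 n x Y) (fun p => F p.1 x) + d ≤
  oc ↥(stabilizer H (n, x)) (P.o5 n x Y) + oc ↥(stabilizer H (n, x)) (P.o4 n x Y)

/-- MINIMAL CUT, the tops are counted with the numbers `F` -/
abbrev PmF (F : V → V → ℕ) (n x : V) (Y : Set V) : Prop := P.PmG F 0 n x Y

/-- MINIMAL CUT -/
abbrev PmP (n x : V) (Y : Set V) : Prop := P.PmF P.X n x Y

/-- the conditions on the numbers of the tops -/
structure FX (F : V → V → ℕ) : Prop where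
  inv : ∀ (g : H) T a, F (g • T) (g • a) = F T a
  one : ∀ p ∈ P.CA, 1 ≤ F p.1 p.2
  gam : ∀ T a b y, P.Top T a b y → (T, a) ∈ P.U → F T a ≤ F T b

variable {P}

theorem fin_r5 (n x : V) (Y : Set V) : FinOrb ↥(stabilizer H (n, x)) (P.r5 n x Y) := by
  have k := DI.fin_fib (π := fun f : FL K => (fz f, fv f)) (fun g f => by
    show (fz (g • f), fv (g • f)) = _
    rw [fz_smul, fv_smul]
    rfl) (fin_FL (K := K)) (n, x)
  refine k.mono ?_
  rintro f ⟨-, -, h3, h4⟩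
  exact ⟨trivial, Prod.ext h3 h4⟩

theorem fin_zp (n x : V) : FinOrb ↥(stabilizer H (n, x)) {p | p ∈ P.ZP ∧ p.1 = (n, x)} :=
  DI.fin_fib (π := fun p : (V × V) × (V × V) => p.1) (fun _ _ => rfl) fin_ZP (n, x)

theorem fin_t1 {n x : V} {Y : Set V} (hx : K.ar n x) :
    FinOrb ↥(stabilizer H (n, x)) (P.t1 n x Y) := by
  refine Pool.Agent.SAF.FinOrb.image (fin_zp (P := P) n x) (fun p => (p.2.2, p.1.1)) ?_ ?_
  · rintro ⟨T, n'⟩ ⟨h1, rfl, b, ht⟩
    refine ⟨((n', x), (b, T)), ⟨⟨?_, hx, ht.2.1⟩, rfl⟩, 1, one_smul _ _⟩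
    exact ht.1.symm.rot
  · rintro p ⟨-, h1⟩ q ⟨-, h2⟩ ⟨g, rfl⟩
    exact ⟨g, rfl⟩

theorem fin_t3 {n x : V} {Y : Set V} (hx : K.ar n x) (hy : ∀ y ∈ Y, K.ar y n) :
    FinOrb ↥(stabilizer H (n, x)) (P.t3 n x Y) := by
  refine Pool.Agent.SAF.FinOrb.image (fin_zp (P := P) n x) (fun p => (p.2.1, p.2.2)) ?_ ?_
  · rintro ⟨T, y⟩ ⟨h1, ht⟩
    refine ⟨((n, x), (T, y)), ⟨⟨?_, hx, hy _ h1⟩, rfl⟩, 1, one_smul _ _⟩
    exact ht.1.symm.rot.rot
  · rintro p ⟨-, h1⟩ q ⟨-, h2⟩ ⟨g, rfl⟩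
    exact ⟨g, rfl⟩

/-- the previous flag -/
noncomputable def pfl (f : FL K) : FL K := if f.2 = true then (K.pv f.1, true) else (K.nx f.1, false)

theorem pfl_sq (f : FL K) : P.sq (pfl f).1.1.1 ↔ P.sq f.1.1.1 := by
  obtain ⟨e, b⟩ := f
  cases b <;> exact Iff.rfl

theorem pfl_smul (h : H) (f : FL K) : pfl (h • f) = h • pfl f := by
  obtain ⟨e, b⟩ := f
  cases b <;> rfl

theorem pfl_inj {f g : FL K} (h : pfl f = pfl g) : f = g := by
  obtain ⟨e, b⟩ := f
  obtain ⟨e', b'⟩ := g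
  have h1 := congrArg Prod.fst h
  have h2 := congrArg Prod.snd h
  cases b <;> cases b'
  · have h1 : K.nx e = K.nx e' := h1
    have := congrArg K.pv h1
    rw [K.pv_nx, K.pv_nx] at this
    rw [this]
  · cases h2
  · cases h2
  · have h1 : K.pv e = K.pv e' := h1
    have := congrArg K.nx h1
    rw [K.nx_pv, K.nx_pv] at this
    rw [this]

theorem fy_pfl (f : FL K) : fy (pfl f) = fprv f := by
  obtain ⟨e, b⟩ := f
  cases b
  · exact K.c1_nx e
  · exact K.c1_pv e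

theorem fz_pfl (f : FL K) : fz (pfl f) = fy f := by
  obtain ⟨e, b⟩ := f
  cases b
  · exact K.c0_nx e
  · exact K.c2_pv e

theorem fv_pfl (f : FL K) : fv (pfl f) = fz f := by
  obtain ⟨e, b⟩ := f
  cases b
  · show K.c0 (K.pv (K.nx e)) = _
    rw [K.pv_nx]
    rfl
  · show K.c2 (K.nx (K.pv e)) = _
    rw [K.nx_pv]
    rfl

/-- the flag of a pass of a pentagon -/
theorem exists_flag5 {a q b y z : V} (h : Qn P a q b y z) : ∃ f : FL K, ¬ P.sq f.1.1.1 ∧
    fprv f = a ∧ fy f = q ∧ fz f = b ∧ fv f = y := by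
  obtain ⟨g, i, j, hi, h⟩ := h
  have b2 : ∀ k : Fin 5, k + 1 + 2 = k + 3 := by decide
  rcases h with ⟨rfl, rfl, rfl, rfl, rfl⟩ | ⟨rfl, rfl, rfl, rfl, rfl⟩
  · refine ⟨(P.l5 i hi j g, true), hi, P45.c0_5 P i hi j g, P45.c1_5 P i hi j g,
      P45.c2_5 P i hi j g, ?_⟩
    show K.c2 (K.nx _) = _
    rw [P45.nx_l5, P45.c2_5, b2]
  · refine ⟨(P.l5 i hi j g, false), hi, P45.c2_5 P i hi j g, P45.c1_5 P i hi j g,
      P45.c0_5 P i hi j g, ?_⟩
    show K.c0 (K.pv _) = _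
    rw [P45.pv_l5, P45.c0_5]

/-- a walk through `Y`, `n`, `x`: (I) or (III) -/
theorem zp_cases {E : V → Prop} (hs : P.SqE E) {n x y m : V} (hx : K.ar n x) (hy : K.ar y n)
    (h : Q4 P y n x m) : (P.Top y n m x ∧ ¬ E y) ∨ (P.Top m y x n ∧ ¬ E m) := by
  have h1 := GX.ck_asym hx
  have h2 := GX.ck_asym hy
  rcases h.ck_top hs.top with k | k | k | k
  · exact Or.inl ⟨k, fun e => GX.ck_asym (hs.Ea _ _ _ _ k e) hx⟩
  · exact absurd k.2.2 h2
  · exact absurd k.2.2 h1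
  · exact Or.inr ⟨k, fun e => GX.ck_asym (hs.Ea _ _ _ _ k e) hy⟩

end P45

open P45

namespace SyQ

variable {H V : Type} [Group H] [MulAction H V] (S : SyQ H V)

/-- the translates of the class of `y` under the stabiliser of the hub `n` and its pole `x` -/
def nYs (w : S.X) (O : S.OR w) (n x y : V) : Set V :=
  {z | ∃ g : H, g • n = n ∧ g • x = x ∧ g • z ∈ S.Yc w O y}

variable {S}

section

variable {w u : S.X} {O : S.OR w} {n x y : V}

theorem Yc_sub_nYs (w : S.X) (O : S.OR w) (n x y : V) : S.Yc w O y ⊆ S.nYs w O n x y :=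
  fun z hz => ⟨1, one_smul _ _, one_smul _ _, by rwa [one_smul]⟩

/-- an element which fixes the hub and keeps a vertex in the class -/
theorem NSt.mv (hO : O.Nf) (N : S.NSt w u O n x y) {g : H} (hg : g • n = n) {z : V}
    (hz : z ∈ S.Yc w O y) (hgz : g • z ∈ S.Yc w O y) : ∃ hw : g ∈ stabilizer H w,
      (⟨g, hw⟩ : ↥(stabilizer H w)) • (S.fq w O (S.rho w y), S.fq w O (S.rho w n)) =
        (S.fq w O (S.rho w y), S.fq w O (S.rho w n)) := by
  have N1 := (N.nv.cl hO hz).1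
  have N2 := (N.nv.cl hO hgz).1
  have a1 := S.js.smul g _ _ N1.cs.1
  have a2 := S.js.smul g _ _ N1.nw
  rw [hg] at a2
  have hw : g • w = w := S.one_eq (Or.inl N2.yn) a1 a2 N2.cs.1 N2.nw
  refine ⟨hw, ?_⟩
  have hz' : S.fq w O (S.rho w z) = S.fq w O (S.rho w y) := hz
  have hgz' : S.fq w O (S.rho w (g • z)) = S.fq w O (S.rho w y) := hgz
  refine Prod.ext ?_ ?_
  · show (⟨g, hw⟩ : ↥(stabilizer H w)) • S.fq w O (S.rho w y) = S.fq w O (S.rho w y)
    rw [← hz', ← fq_smul, ← S.rho_smul]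
    exact hgz'.trans hz'.symm
  · show (⟨g, hw⟩ : ↥(stabilizer H w)) • S.fq w O (S.rho w n) = S.fq w O (S.rho w n)
    rw [← fq_smul, ← S.rho_smul]
    show S.fq w O (S.rho w (g • n)) = _
    rw [hg]

/-- no page of the star beyond an edge which both poles cross -/
theorem NSt.ndia (hO : O.Nf) (N : S.NSt w u O n x y) : ¬ S.Dia w u n := fun h =>
  GX.ck_asym N.yn (hO.n3 u n y x N.op h N.qs)

/-- THE CONDITIONS ON THE TRANSLATES OF THE CLASS -/
theorem NSt.pms {E : V → Prop} (hs : S.P.SqE E) (hO : O.Nf) (N : S.NSt w u O n x y) : S.P.PmS n x (S.nYs w O n x y) where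
  nx := N.nx
  yn := by
    rintro z ⟨g, h1, h2, h3⟩
    have k := (N.nv.cl hO h3).1.yn
    have := S.K.ar_smul g⁻¹ _ _ k
    rwa [inv_smul_smul, ← h1, inv_smul_smul] at this
  inv := by
    rintro g h1 h2 z ⟨k, h3, h4, h5⟩
    refine ⟨k * g⁻¹, ?_, ?_, ?_⟩
    · rw [mul_smul, ← h1, inv_smul_smul, h1, h3]
    · rw [mul_smul, ← h2, inv_smul_smul, h2, h4]
    · rwa [mul_smul, inv_smul_smul]
  sw := by
    rintro g h1 h2 z ⟨k, h3, h4, h5⟩ ⟨k', h3', h4', h5'⟩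
    -- move to the class
    have e : (k' * g * k⁻¹) • (k • z) = k' • (g • z) := by
      rw [mul_smul, mul_smul, inv_smul_smul]
    have hn : (k' * g * k⁻¹) • n = n := by
      rw [mul_smul, mul_smul, ← h3, inv_smul_smul, h3, h1, h3']
    have hx : (k' * g * k⁻¹) • x ≠ x := by
      intro e'
      apply h2
      rw [mul_smul, mul_smul, ← h4, inv_smul_smul, h4] at e'
      have e2 : g • x = k'⁻¹ • x := by
        rw [eq_inv_smul_iff]
        exact e'
      rw [e2, inv_smul_eq_iff]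
      exact h4'.symm
    generalize k' * g * k⁻¹ = q at e hn hx
    rw [← e] at h5'
    obtain ⟨hw, hst⟩ := N.mv hO hn h5 h5'
    exact hx (N.grp_x hO ⟨⟨q, hw⟩, hst⟩)
  np := by
    rintro T b x' ⟨g, h1, h2, h3⟩ ht hx'
    by_contra hne
    have ht' := ht.smul g
    rw [h1] at ht'
    have hx2 := S.K.ar_smul g _ _ hx'
    rw [h1] at hx2
    have hne' : g • x' ≠ x := by
      intro e
      rw [← h2] at e
      exact hne (smul_left_cancel g e)
    generalize g • T = T' at ht' h3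
    generalize g • x' = x2 at ht' hx2 hne'
    generalize g • b = b' at ht'
    have N' := (N.nv.cl hO h3).1
    have hnb := hs.nab _ _ _ _ ht'
    rcases pos4 ht'.1.symm N'.yn N'.nw N'.adj N'.cs with k | ⟨u', k, -⟩ | k
    · exact poles_edge hnb N'.cs.1 ht'.2.1 ht'.2.2 N'.nw k.p0 N'.adj N'.cs.2
    · exact poles_edge hnb N'.cs.1 ht'.2.1 ht'.2.2 N'.nw k.l.1 N'.adj N'.cs.2
    · rcases N.cases hO h3 k with e | e
      · exact GX.ck_asym hx2 (N.nv.cl hO e).1.yn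
      · exact hne' e

/-- no member of the near star is opened -/
theorem NSt.nE {E : V → Prop} (hs : S.P.SqE E) (eJ : ∀ v, E v → w ∈ S.J v → ∀ p ∈ S.J v, p = w)
    (hO : O.Nf) (N : S.NSt w u O n x y) : ∀ z ∈ S.nYs w O n x y, ¬ E z := by
  rintro z ⟨g, -, -, hz⟩ hE
  have N' := (N.nv.cl hO hz).1
  exact N'.adj.ne (eJ _ (hs.Es g z hE) N'.cs.1 _ N'.cs.2).symm

/-- the walk enters the class from above -/
theorem NSt.zy {E : V → Prop} (hs : S.P.SqE E) (hO : O.Nf) (N : S.NSt w u O n x y) {y' m z : V}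
    (h : y' ∈ S.Yc w O y) (hq : Q4 S.P z y' n m) (hm : m ∉ S.Yc w O y) (hm' : m ≠ x) :
    S.K.ar z y' := by
  rcases hq.E1 with e | e
  · exact e
  exfalso
  have N' := (N.nv.cl hO h).1
  have ht : S.P.Top y' z n m := ⟨hq, e, N'.yn⟩
  have hnb := hs.nab _ _ _ _ ht
  rcases pos4 hq N'.yn N'.nw N'.adj N'.cs with k | ⟨u', k, -⟩ | k
  · exact poles_edge hnb N'.cs.1 e N'.yn k.p0 N'.nw N'.adj N'.cs.2
  · exact poles_edge hnb N'.cs.1 e N'.yn k.l.1 N'.nw N'.adj N'.cs.2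
  · rcases N.cases hO h k with e | e
    · exact hm e
    · exact hm' e

/-- the group of the arrow of the near star fixes the hub and its pole -/
theorem NSt.toG (hO : O.Nf) (N : S.NSt w u O n x y)
    (h : ↥(stabilizer ↥(stabilizer H w) (S.fq w O (S.rho w y), S.fq w O (S.rho w n)))) :
    h.1.1 ∈ stabilizer H (n, x) := by
  show h.1.1 • (n, x) = (n, x)
  exact Prod.ext (N.grp hO h).2.1 (N.grp_x hO h)

/-- an element of the stabiliser of the hub and its pole which keeps a vertex in the class -/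
theorem NSt.ofG (hO : O.Nf) (N : S.NSt w u O n x y) (g : ↥(stabilizer H (n, x))) {z : V}
    (hz : z ∈ S.Yc w O y) (hgz : g.1 • z ∈ S.Yc w O y) :
    ∃ h : ↥(stabilizer ↥(stabilizer H w) (S.fq w O (S.rho w y), S.fq w O (S.rho w n))),
      h.1.1 = g.1 := by
  obtain ⟨hw, hst⟩ := N.mv hO (congrArg Prod.fst g.2) hz hgz
  exact ⟨⟨⟨g.1, hw⟩, hst⟩, rfl⟩

/-- THE PASSES WHICH LEAVE THE STAR: static count -/
theorem NSt.out_le {E : V → Prop} (hs : S.P.SqE E) (hO : O.Nf) (N : S.NSt w u O n x y) :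
    oc ↥(stabilizer H (n, x)) (S.P.o5 n x (S.nYs w O n x y)) +
      oc ↥(stabilizer H (n, x)) (S.P.o4 n x (S.nYs w O n x y)) ≤
    oc ↥(stabilizer ↥(stabilizer H w) (S.fq w O (S.rho w y), S.fq w O (S.rho w n)))
      (S.outS w O n x y) := by
  have hf := N.fin_out hO
  have e : S.outS w O n x y = sSum {f | Sum.inl f ∈ S.outS w O n x y}
      {p | Sum.inr p ∈ S.outS w O n x y} := by
    ext i
    rcases i with f | p
    · rw [sSum_inl]
      exact Iff.rfl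
    · rw [sSum_inr]
      exact Iff.rfl
  rw [e] at hf
  obtain ⟨hA, hB⟩ := finOrb_of_sSum hf
  rw [e, oc_sSum hA hB]
  have nx : ∀ g : H, g • n = n → g⁻¹ • n = n := fun g h => by
    rw [inv_smul_eq_iff]
    exact h.symm
  have inY : ∀ (g : H), g • n = n → g • x = x → ∀ z, z ∉ S.nYs w O n x y →
      g • z ∉ S.Yc w O y := fun g h1 h2 z hz k => hz ⟨g, h1, h2, k⟩
  refine Nat.add_le_add ?_ ?_
  · refine oc_le_of_surj hA (fun f => f) ?_ ?_
    · rintro f ⟨h1, ⟨g, k1, k2, k3⟩, h3, h4, h5⟩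
      refine ⟨g • f, ⟨h1, ?_, ?_, ?_, ?_⟩, ⟨g⁻¹, ?_⟩, inv_smul_smul g f⟩
      · rw [P45.fy_smul]
        exact k3
      · rw [P45.fz_smul, h3, k1]
      · rw [P45.fv_smul]
        exact inY g k1 k2 _ h4
      · rw [P45.fv_smul]
        intro e
        rw [← k2] at e
        exact h5 (smul_left_cancel g e)
      · show g⁻¹ • (n, x) = (n, x)
        rw [inv_smul_eq_iff]
        exact Prod.ext k1.symm k2.symm
    · rintro f - _ - ⟨h, rfl⟩
      exact ⟨⟨h.1.1, N.toG hO h⟩, rfl⟩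
  · refine oc_le_of_surj hB (fun f => f) ?_ ?_
    · rintro p ⟨h1, ⟨g, k1, k2, k3⟩, h3, h4, h5⟩
      have q1 : Q4 S.P (g • p.2.2) (g • p.1.1) (g • p.1.2) (g • p.2.1) := h1.smul g
      have q2 : g • p.1.2 = n := by rw [h3, k1]
      have q3 := inY g k1 k2 _ h4
      have q4 : g • p.2.1 ≠ x := by
        intro e
        rw [← k2] at e
        exact h5 (smul_left_cancel g e)
      refine ⟨g • p, ⟨q1, ?_, k3, q2, q3, q4⟩, ⟨g⁻¹, ?_⟩, inv_smul_smul g p⟩
      · rw [q2] at q1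
        exact N.zy hs hO k3 q1 q3 q4
      · show g⁻¹ • (n, x) = (n, x)
        rw [inv_smul_eq_iff]
        exact Prod.ext k1.symm k2.symm
    · rintro f - _ - ⟨h, rfl⟩
      exact ⟨⟨h.1.1, N.toG hO h⟩, rfl⟩

/-- the far pentagon corners of the star are corners at the pole `x` -/
theorem NSt.far5_le (hO : O.Nf) (N : S.NSt w u O n x y) :
    oc ↥(stabilizer ↥(stabilizer H w) (S.fq w O (S.rho w y), S.fq w O (S.rho w n)))
      {f | Sum.inl f ∈ S.farS w u O n x y} ≤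
    oc ↥(stabilizer H (n, x)) (S.P.r5 n x (S.nYs w O n x y)) := by
  refine oc_le_of_inj (fin_r5 n x _) pfl ?_ ?_
  · rintro f ⟨h1, h2, h3, h4, -⟩
    refine ⟨fun k => h1 ((pfl_sq f).1 k), ?_, ?_, ?_⟩
    · rw [fy_pfl]
      exact Yc_sub_nYs _ _ _ _ _ h2
    · rw [fz_pfl]
      exact h3
    · rw [fv_pfl]
      exact h4
  · rintro f ⟨h1, h2, h3, h4, -⟩ f' ⟨h1', h2', h3', h4', -⟩ ⟨g, hg⟩
    have e : g.1 • fprv f = fprv f' := by
      rw [← fy_pfl, ← fy_smul, ← fy_pfl]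
      exact congrArg fy hg
    obtain ⟨h, hh⟩ := N.ofG hO g h2 (by rw [e]; exact h2')
    refine ⟨h, pfl_inj ?_⟩
    show pfl (h.1.1 • f) = _
    rw [hh, pfl_smul]
    exact hg

/-- a neighbour of the class which is not over `w` is beyond `u` -/
theorem NSt.beyo (hO : O.Nf) (N : S.NSt w u O n x y) {z v : V} (hz : z ∈ S.Yc w O y)
    (e : S.K.E z v) (hv : w ∉ S.J v) : S.J v ⊆ bey S.D.G w u := by
  have N' := (N.nv.cl hO hz).1
  have h1 : S.dir w v = u :=
    pole_edge N'.cs.1 N'.yn N'.nw (S.dir_adj hv) N'.adj (S.dir_cross e N'.cs.1 hv) N'.cs.2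
  rw [← h1]
  exact S.dir_bey hv

/-- THE CARRIED ARROWS of a near star: (I) and (III) -/
theorem NSt.ca_iff {E : V → Prop} (h : S.SgO w O E) (N : S.NSt w u O n x y) {p : V × V} :
    S.Ca w O p (S.fq w O (S.rho w y), S.fq w O (S.rho w n)) ↔
      (p.1 ∈ S.Yc w O y ∧ p.2 = n ∧ ∃ b, S.P.Top p.1 n b x) ∨
      (p.2 ∈ S.Yc w O y ∧ S.P.Top p.1 p.2 x n ∧ w ∉ S.J p.1) := by
  obtain ⟨T, a⟩ := p
  constructor
  · intro hk
    obtain ⟨hp, b, y0, ht, e, ⟨u', l, e1⟩ | ⟨u', l, hU, e1⟩ | ⟨u', l, e1⟩ | ⟨hl, e1⟩⟩ :=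
      Ca.cases h hk
    · left
      have f1 : S.fq w O (S.rho w T) = S.fq w O (S.rho w y) := (congrArg Prod.fst e1).symm
      obtain ⟨rfl, rfl, rfl⟩ := N.kn.uniq h.nf l f1
      exact ⟨f1, rfl, b, ht⟩
    · right
      have f1 : S.fq w O (S.rho w a) = S.fq w O (S.rho w y) := (congrArg Prod.fst e1).symm
      obtain ⟨rfl, rfl, rfl⟩ := N.kn.uniq h.nf l f1
      refine ⟨f1, ht, fun hT => ?_⟩
      obtain ⟨-, -, ⟨-, -, e2⟩ | ⟨b', y', -, -, -, -, h5, -⟩⟩ := hk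
      · have f2 : S.fq w O (S.rho w y0) = S.fq w O (S.rho w a) := congrArg Prod.snd e2
        rw [f1] at f2
        exact arQ_ne N.nv.ar f2.symm
      · exact h5 hT
    · exfalso
      have f1 : S.fq w O (S.rho w T) = S.fq w O (S.rho w y) := (congrArg Prod.fst e1).symm
      have N' := (N.nv.cl h.nf f1).1
      exact poles_edge (h.sq.nab _ _ _ _ ht) N'.cs.1 ht.2.1 ht.2.2 l.1.l.1 l.1.r.1 N'.adj N'.cs.2
    · exfalso
      have f1 : S.fq w O (S.rho w T) = S.fq w O (S.rho w y) := (congrArg Prod.fst e1).symm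
      have N' := (N.nv.cl h.nf f1).1
      exact poles_edge (h.sq.nab _ _ _ _ ht) N'.cs.1 ht.2.1 ht.2.2 hl.2.1 hl.2.2.1 N'.adj N'.cs.2
  · rintro (⟨h1, h2, b, ht⟩ | ⟨h1, ht, h3⟩)
    · have h1 : T ∈ S.Yc w O y := h1
      obtain rfl : a = n := h2
      have ht : S.P.Top T a b x := ht
      have N' := (N.nv.cl h.nf h1).1
      have f1 : S.fq w O (S.rho w T) = S.fq w O (S.rho w y) := h1
      have hE : ¬ E T := fun k => GX.ck_asym N.nx (h.sq.Ea _ _ _ _ ht k)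
      refine ⟨?_, N.nv.nw, Or.inl ⟨?_, N'.cs.1, Prod.ext f1.symm rfl⟩⟩
      · rcases ht.Eb with k | k
        · exact Or.inr ⟨b, x, ht, N.nx, k⟩
        · exact Or.inl ⟨b, x, ht, N.nx, k⟩
      · rintro ⟨b', y', q, k1, k2, k3, k4, k5, k6, k7⟩
        have k1 : S.P.Top T a b' y' := k1
        obtain ⟨rfl, rfl⟩ := h.sq.uniq ht k1 hE
        have := S.one_eq (Or.inl N.nx) k4 k5 N.nv.nw N.qs.r.1
        subst this
        exact k6 N'.cs.1
    · have h1 : a ∈ S.Yc w O y := h1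
      have ht : S.P.Top T a x n := ht
      have N' := (N.nv.cl h.nf h1).1
      have f1 : S.fq w O (S.rho w a) = S.fq w O (S.rho w y) := h1
      exact ⟨Or.inl ⟨x, n, ht, N'.yn, N.nx⟩, N'.cs.1,
        Or.inr ⟨x, n, ht, N'.yn, N.nx, N.nv.nw, h3, Prod.ext f1.symm rfl⟩⟩

/-- the counted arrow of a far walk -/
def Rca (P : P45 S.K) (n x : V) (p : (V × V) × (V × V)) (q : V × V) : Prop :=
  (q = (p.2.2, n) ∧ P.Top p.2.2 n p.2.1 x) ∨ (q = (p.2.1, p.2.2) ∧ P.Top p.2.1 p.2.2 x n)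

theorem NSt.far4_ex {E : V → Prop} (h : S.SgO w O E) (N : S.NSt w u O n x y)
    {p : (V × V) × (V × V)} (hp : Sum.inr p ∈ S.farS w u O n x y) :
    ∃ q ∈ {q | S.Ca w O q (S.fq w O (S.rho w y), S.fq w O (S.rho w n))}, Rca S.P n x p q := by
  obtain ⟨⟨p1, p2⟩, ⟨p3, p4⟩⟩ := p
  obtain ⟨h1, h2, h3, h4, h5⟩ := hp
  obtain rfl : p1 = n := h3
  obtain rfl : p2 = x := h4
  have h1 : Q4 S.P p4 p1 p2 p3 := h1
  have h2 : p4 ∈ S.Yc w O y := h2
  have h5 : S.J p3 ⊆ bey S.D.G w u := h5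
  have N' := (N.nv.cl h.nf h2).1
  rcases zp_cases h.sq N.nx N'.yn h1 with ⟨k, -⟩ | ⟨k, -⟩
  · exact ⟨_, (N.ca_iff h).2 (Or.inl ⟨h2, rfl, p3, k⟩), Or.inl ⟨rfl, k⟩⟩
  · exact ⟨_, (N.ca_iff h).2 (Or.inr ⟨h2, k, S.not_mem_of_bey N.qs.adj h5⟩), Or.inr ⟨rfl, k⟩⟩

theorem NSt.far4_ex' {E : V → Prop} (h : S.SgO w O E) (N : S.NSt w u O n x y)
    {q : V × V} (hq : S.Ca w O q (S.fq w O (S.rho w y), S.fq w O (S.rho w n))) :
    ∃ p ∈ {p | Sum.inr p ∈ S.farS w u O n x y}, Rca S.P n x p q := by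
  obtain ⟨T, a⟩ := q
  rcases (N.ca_iff h).1 hq with ⟨h1, h2, b, ht⟩ | ⟨h1, ht, h3⟩
  · have h1 : T ∈ S.Yc w O y := h1
    obtain rfl : a = n := h2
    have ht : S.P.Top T a b x := ht
    have N' := (N.nv.cl h.nf h1).1
    refine ⟨((a, x), (b, T)), ⟨ht.1.symm.rot, h1, rfl, rfl, ?_⟩, Or.inl ⟨rfl, ht⟩⟩
    refine N.beyo h.nf h1 (Or.inl ht.2.2) fun hb => ?_
    exact poles_edge (h.sq.nab _ _ _ _ ht) N'.cs.1 ht.2.1 ht.2.2 N'.nw hb N'.adj N'.cs.2
  · have h1 : a ∈ S.Yc w O y := h1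
    have ht : S.P.Top T a x n := ht
    refine ⟨((n, x), (T, a)), ⟨ht.1.symm.rot.rot, h1, rfl, rfl, ?_⟩, Or.inr ⟨rfl, ht⟩⟩
    exact N.beyo h.nf h1 (Or.inr ht.2.1) h3

theorem NSt.far4_inj {E : V → Prop} (h : S.SgO w O E) (N : S.NSt w u O n x y)
    {p p' : (V × V) × (V × V)} (hp : Sum.inr p ∈ S.farS w u O n x y)
    (hp' : Sum.inr p' ∈ S.farS w u O n x y) {q q' : V × V} (hq : Rca S.P n x p q)
    (hq' : Rca S.P n x p' q')
    (g : ↥(stabilizer ↥(stabilizer H w) (S.fq w O (S.rho w y), S.fq w O (S.rho w n)))) :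
    g • q = q' ↔ g • p = p' := by
  obtain ⟨g1, g2, g3⟩ := N.grp h.nf g
  have gx := N.grp_x h.nf g
  obtain ⟨⟨p1, p2⟩, ⟨p3, p4⟩⟩ := p
  obtain ⟨⟨p1', p2'⟩, ⟨p3', p4'⟩⟩ := p'
  obtain ⟨h1, h2, h3, h4, h5⟩ := hp
  obtain ⟨h1', h2', h3', h4', h5'⟩ := hp'
  obtain rfl : p1 = n := h3
  obtain rfl : p2 = x := h4
  obtain rfl : p1' = p1 := h3'
  obtain rfl : p2' = p2 := h4'
  have e1 := (N.nv.cl h.nf h2).1.yn
  have e1' := (N.nv.cl h.nf h2').1.yn
  generalize hgg : g.1.1 = γ at *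
  have hg4 : ∀ q : V × V, g • q = (γ • q.1, γ • q.2) := fun q => by
    rw [← hgg]
    rfl
  have hg8 : ∀ q : (V × V) × (V × V), g • q = ((γ • q.1.1, γ • q.1.2), (γ • q.2.1, γ • q.2.2)) :=
    fun q => by
      rw [← hgg]
      rfl
  rw [hg4, hg8]
  have hno : ∀ v, ¬ S.K.ar v v := fun v k => GX.ck_asym k k
  have e1 : S.K.ar p4 p1' := e1
  have e1' : S.K.ar p4' p1' := e1'
  rcases hq with ⟨rfl, ht⟩ | ⟨rfl, ht⟩ <;> rcases hq' with ⟨rfl, ht'⟩ | ⟨rfl, ht'⟩
  · have ht : S.P.Top p4 p1' p3 p2' := ht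
    have ht' : S.P.Top p4' p1' p3' p2' := ht'
    constructor
    · intro e
      have f1 : γ • p4 = p4' := congrArg Prod.fst e
      have k := ht.smul γ
      rw [f1, g2, gx] at k
      have hE : ¬ E p4' := fun k => GX.ck_asym N.nx (h.sq.Ea _ _ _ _ ht' k)
      have f3 := (h.sq.uniq k ht' hE).1
      exact Prod.ext (Prod.ext g2 gx) (Prod.ext f3 f1)
    · intro e
      have f1 : γ • p4 = p4' := congrArg (fun r => r.2.2) e
      exact Prod.ext f1 g2
  · have ht : S.P.Top p4 p1' p3 p2' := ht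
    have ht' : S.P.Top p3' p4' p2' p1' := ht'
    constructor
    · intro e
      have f1 : γ • p1' = p4' := congrArg Prod.snd e
      rw [g2] at f1
      rw [← f1] at e1'
      exact absurd e1' (hno _)
    · intro e
      have f1 : γ • p4 = p4' := congrArg (fun r => r.2.2) e
      have f2 : γ • p3 = p3' := congrArg (fun r => r.2.1) e
      have k := (ht.smul γ).2.2
      rw [f1, f2] at k
      exact absurd k (GX.ck_asym ht'.2.1)
  · have ht : S.P.Top p3 p4 p2' p1' := ht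
    have ht' : S.P.Top p4' p1' p3' p2' := ht'
    constructor
    · intro e
      have f1 : γ • p4 = p1' := congrArg Prod.snd e
      have k := S.K.ar_smul γ _ _ e1
      rw [f1, g2] at k
      exact absurd k (hno _)
    · intro e
      have f1 : γ • p4 = p4' := congrArg (fun r => r.2.2) e
      have f2 : γ • p3 = p3' := congrArg (fun r => r.2.1) e
      have k := (ht.smul γ).2.1
      rw [f1, f2] at k
      exact absurd k (GX.ck_asym ht'.2.2)
  · constructor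
    · intro e
      have f1 : γ • p3 = p3' := congrArg Prod.fst e
      have f2 : γ • p4 = p4' := congrArg Prod.snd e
      exact Prod.ext (Prod.ext g2 gx) (Prod.ext f1 f2)
    · intro e
      exact congrArg Prod.snd e

/-- THE NUMBER OF THE FAR WALKS is the number of the carried arrows -/
theorem NSt.far4_eq {E : V → Prop} (h : S.SgO w O E) (N : S.NSt w u O n x y) :
    oc ↥(stabilizer ↥(stabilizer H w) (S.fq w O (S.rho w y), S.fq w O (S.rho w n)))
      {p | Sum.inr p ∈ S.farS w u O n x y} =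
    oc ↥(stabilizer ↥(stabilizer H w) (S.fq w O (S.rho w y), S.fq w O (S.rho w n)))
      {p | S.Ca w O p (S.fq w O (S.rho w y), S.fq w O (S.rho w n))} := by
  have e : S.farS w u O n x y = sSum {f | Sum.inl f ∈ S.farS w u O n x y}
      {p | Sum.inr p ∈ S.farS w u O n x y} := by
    ext i
    rcases i with f | p
    · rw [sSum_inl]
      exact Iff.rfl
    · rw [sSum_inr]
      exact Iff.rfl
  have hf := N.fin_farS h.nf
  rw [e] at hf
  apply le_antisymm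
  · refine oc_le_of_rel (Ca.fin h _) (Rca S.P n x) (fun p hp => N.far4_ex h hp) ?_
    rintro p hp p' hp' q - q' - k k' ⟨g, hg⟩
    exact ⟨g, (N.far4_inj h hp hp' k k' g).1 hg⟩
  · refine oc_le_of_rel (finOrb_of_sSum hf).2 (fun q p => Rca S.P n x p q)
      (fun q hq => N.far4_ex' h hq) ?_
    rintro q - q' - p hp p' hp' k k' ⟨g, hg⟩
    exact ⟨g, (N.far4_inj h hp hp' k k' g).2 hg⟩

/-- the far pentagon corners -/
noncomputable def c5 (w u : S.X) (O : S.OR w) (n x y : V) : ℕ :=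
  oc ↥(stabilizer ↥(stabilizer H w) (S.fq w O (S.rho w y), S.fq w O (S.rho w n)))
      {f | Sum.inl f ∈ S.farS w u O n x y}

/-- THE NUMBER OF THE FAR CORNERS: pentagons and carried arrows -/
theorem NSt.ck_ca {E : V → Prop} (h : S.SgO w O E) (N : S.NSt w u O n x y) :
    S.ck w O (S.fq w O (S.rho w y), S.fq w O (S.rho w n)) = c5 w u O n x y +
      oc ↥(stabilizer ↥(stabilizer H w) (S.fq w O (S.rho w y), S.fq w O (S.rho w n)))
        {p | S.Ca w O p (S.fq w O (S.rho w y), S.fq w O (S.rho w n))} := by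
  have e : S.farS w u O n x y = sSum {f | Sum.inl f ∈ S.farS w u O n x y}
      {p | Sum.inr p ∈ S.farS w u O n x y} := by
    ext i
    rcases i with f | p
    · rw [sSum_inl]
      exact Iff.rfl
    · rw [sSum_inr]
      exact Iff.rfl
  have hf := N.fin_farS h.nf
  rw [e] at hf
  obtain ⟨hA, hB⟩ := finOrb_of_sSum hf
  rw [ck_eq h.nf N.kn]
  have e2 : oc ↥(stabilizer ↥(stabilizer H w) (S.fq w O (S.rho w y), S.fq w O (S.rho w n)))
      (S.farS w u O n x y) = oc ↥(stabilizer ↥(stabilizer H w)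
        (S.fq w O (S.rho w y), S.fq w O (S.rho w n)))
        (sSum {f | Sum.inl f ∈ S.farS w u O n x y} {p | Sum.inr p ∈ S.farS w u O n x y}) :=
    congrArg _ e
  rw [e2, oc_sSum hA hB, N.far4_eq h]
  rfl

/-- there is a far corner -/
theorem NSt.ck_pos (hO : O.Nf) (N : S.NSt w u O n x y) :
    1 ≤ S.ck w O (S.fq w O (S.rho w y), S.fq w O (S.rho w n)) := by
  rw [ck_eq hO N.kn]
  refine ns2_oc_pos (N.fin_farS hO) ?_
  have hy : y ∈ S.Yc w O y := rfl
  have hb : S.D.G.Adj w u := N.qs.adj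
  rcases N.qs.2.2.2.2 with ⟨v, z, hq, h1, h2⟩ | ⟨v, hq, h1⟩
  · obtain ⟨f, f1, f2, f3, f4, f5⟩ := exists_flag5 hq
    exact ⟨Sum.inl f, f1, by rw [f2]; exact hy, f3, f4, by rw [f5]; exact h1⟩
  · exact ⟨Sum.inr ((n, x), (v, y)), hq, hy, rfl, rfl, h1⟩

/-- the sum over the carried arrows -/
theorem NSt.ca_sum {E : V → Prop} (h : S.SgO w O E) (N : S.NSt w u O n x y)
    {F : V → V → ℕ} (hF : S.P.FX F) :
    os ↥(stabilizer ↥(stabilizer H w) (S.fq w O (S.rho w y), S.fq w O (S.rho w n)))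
        {p | S.Ca w O p (S.fq w O (S.rho w y), S.fq w O (S.rho w n))}
        (fun p => F p.1 p.2) ≤
    os ↥(stabilizer H (n, x)) (S.P.t1 n x (S.nYs w O n x y)) (fun p => F p.1 p.2) +
    os ↥(stabilizer H (n, x)) (S.P.t3 n x (S.nYs w O n x y)) (fun p => F p.1 x) := by
  have hpm := N.pms h.sq h.nf
  have fC := Ca.fin h (S.fq w O (S.rho w y), S.fq w O (S.rho w n))
  have e : {p | S.Ca w O p (S.fq w O (S.rho w y), S.fq w O (S.rho w n))} =
      {p : V × V | p.1 ∈ S.Yc w O y ∧ p.2 = n ∧ ∃ b, S.P.Top p.1 n b x} ∪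
      {p : V × V | p.2 ∈ S.Yc w O y ∧ S.P.Top p.1 p.2 x n ∧ w ∉ S.J p.1} := by
    ext p
    exact N.ca_iff h
  rw [e] at fC ⊢
  have f1 := fC.mono (Set.subset_union_left)
  have f3 := fC.mono (Set.subset_union_right)
  rw [os_union f1 f3 ?_ ?_ (fun g p => ?_)]
  · refine Nat.add_le_add ?_ ?_
    · refine os_of_inj f1 (fin_t1 N.nx) (fun p => p) ?_ ?_ ?_ ?_
      · rintro p ⟨h1, h2, h3⟩
        exact ⟨Yc_sub_nYs _ _ _ _ _ h1, h2, h3⟩
      · rintro p ⟨h1, h2, h3⟩ _ ⟨h1', h2', h3'⟩ ⟨g, rfl⟩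
        obtain ⟨k, hk⟩ := N.ofG h.nf g h1 h1'
        refine ⟨k, ?_⟩
        show (k.1.1 • p.1, k.1.1 • p.2) = _
        rw [hk]
        rfl
      · rintro g p - -
        exact hF.inv g.1 p.1 p.2
      · intro p _
        exact le_rfl
    · refine os_of_inj f3 (fin_t3 N.nx hpm.yn) (fun p => p) ?_ ?_ ?_ ?_
      · rintro p ⟨h1, h2, h3⟩
        exact ⟨Yc_sub_nYs _ _ _ _ _ h1, h2⟩
      · rintro p ⟨h1, h2, h3⟩ _ ⟨h1', h2', h3'⟩ ⟨g, rfl⟩
        obtain ⟨k, hk⟩ := N.ofG h.nf g h1 h1'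
        refine ⟨k, ?_⟩
        show (k.1.1 • p.1, k.1.1 • p.2) = _
        rw [hk]
        rfl
      · rintro g p - -
        have e : g.1 • x = x := congrArg Prod.snd g.2
        have := hF.inv g.1 p.1 x
        rw [e] at this
        exact this
      · rintro p ⟨h1, h2, -⟩
        exact hF.gam _ _ _ _ h2 ⟨x, n, h2, (N.nv.cl h.nf h1).1.yn, N.nx⟩
  · rintro g p ⟨h1, h2, b, h3⟩
    obtain ⟨g1, g2, -⟩ := N.grp h.nf g
    refine ⟨g1 _ h1, ?_, g.1.1 • b, ?_⟩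
    · show g.1.1 • p.2 = n
      rw [h2, g2]
    · have := h3.smul g.1.1
      rw [g2, N.grp_x h.nf g] at this
      exact this
  · rintro p ⟨h1, h2, b, h3⟩ ⟨k1, k2, k3⟩
    rw [h2] at k1
    have := (N.nv.cl h.nf k1).1.yn
    exact GX.ck_asym this this
  · exact hF.inv g.1.1 p.1 p.2

/-- (N*), LEFT HALF: the minimal cut gives the far corners, the fat carried arrows with their strands -/
theorem NSt.left {E : V → Prop} (h : S.SgO w O E) (N : S.NSt w u O n x y)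
    {F : V → V → ℕ} {d : ℕ} (hF : S.P.FX F) (hp : S.P.PmG F d n x (S.nYs w O n x y)) :
    os ↥(stabilizer ↥(stabilizer H w) (S.fq w O (S.rho w y), S.fq w O (S.rho w n)))
        {p | S.Ca w O p (S.fq w O (S.rho w y), S.fq w O (S.rho w n))}
        (fun p => F p.1 p.2 - 1) + S.ck w O (S.fq w O (S.rho w y), S.fq w O (S.rho w n)) + d ≤
    oc ↥(stabilizer ↥(stabilizer H w) (S.fq w O (S.rho w y), S.fq w O (S.rho w n)))
      (S.outS w O n x y) := by
  have fC := Ca.fin h (S.fq w O (S.rho w y), S.fq w O (S.rho w n))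
  have h1 := N.out_le h.sq h.nf
  have h2 := N.ca_sum h hF
  have h3 := N.far5_le h.nf
  have h4 := N.ck_ca h
  have h5 : os ↥(stabilizer ↥(stabilizer H w) (S.fq w O (S.rho w y), S.fq w O (S.rho w n)))
        {p | S.Ca w O p (S.fq w O (S.rho w y), S.fq w O (S.rho w n))}
        (fun p => F p.1 p.2 - 1) +
      oc ↥(stabilizer ↥(stabilizer H w) (S.fq w O (S.rho w y), S.fq w O (S.rho w n)))
        {p | S.Ca w O p (S.fq w O (S.rho w y), S.fq w O (S.rho w n))} ≤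
      os ↥(stabilizer ↥(stabilizer H w) (S.fq w O (S.rho w y), S.fq w O (S.rho w n)))
        {p | S.Ca w O p (S.fq w O (S.rho w y), S.fq w O (S.rho w n))}
        (fun p => F p.1 p.2) := by
    rw [← os_one fC, ← os_add fC]
    refine os_le fC fun p hp => ?_
    have := hF.one p hp.1
    omega
  have hp' : oc ↥(stabilizer H (n, x)) (S.P.r5 n x (S.nYs w O n x y)) +
    os ↥(stabilizer H (n, x)) (S.P.t1 n x (S.nYs w O n x y)) (fun p => F p.1 p.2) +
    os ↥(stabilizer H (n, x)) (S.P.t3 n x (S.nYs w O n x y)) (fun p => F p.1 x) + d ≤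
    oc ↥(stabilizer H (n, x)) (S.P.o5 n x (S.nYs w O n x y)) +
      oc ↥(stabilizer H (n, x)) (S.P.o4 n x (S.nYs w O n x y)) := hp
  unfold c5 at h4
  omega

/-- there is a pass which leaves the star -/
theorem NSt.out_ne {E : V → Prop} (h : S.SgO w O E) (N : S.NSt w u O n x y)
    {F : V → V → ℕ} {d : ℕ} (hF : S.P.FX F) (hp : S.P.PmG F d n x (S.nYs w O n x y)) :
    (S.outS w O n x y).Nonempty := by
  by_contra hne
  have h1 := N.left h hF hp
  have h2 := N.ck_pos h.nf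
  rw [Set.not_nonempty_iff_eq_empty.1 hne, oc_empty] at h1
  omega

/-- THE CLASS AT A NEAR STAR -/
theorem NSt.x1 {hcn : S.Conn} {hm : (S.k0 hcn w).Min} {hn : S.SqN w O} {E : V → Prop}
    (hnb : S.NB) (h : S.SgO w O E) (N : S.NSt w u O n x y)
    {F : V → V → ℕ} {d : ℕ} (hF : S.P.FX F) (hp : S.P.PmG F d n x (S.nYs w O n x y)) :
    1 ≤ (S.kfP hcn w O hm hn).X (S.fq w O (S.rho w y)) (S.fq w O (S.rho w n)) :=
  N.one_le hnb h.nf h.kin (N.out_ne h hF hp)

/-- (N*), with the surplus `d` of the minimal cut -/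
theorem NSt.nst61 {hcn : S.Conn} {hm : (S.k0 hcn w).Min} {hn : S.SqN w O} {E : V → Prop}
    (hnb : S.NB) (h : S.SgO w O E) (N : S.NSt w u O n x y)
    {F : V → V → ℕ} {d : ℕ} (hF : S.P.FX F) (hp : S.P.PmG F d n x (S.nYs w O n x y)) :
    os ↥(stabilizer ↥(stabilizer H w) (S.fq w O (S.rho w y), S.fq w O (S.rho w n)))
        {p | S.Ca w O p (S.fq w O (S.rho w y), S.fq w O (S.rho w n))}
        (fun p => F p.1 p.2 - 1) +
      (S.ck w O (S.fq w O (S.rho w y), S.fq w O (S.rho w n)) - 1) + d ≤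
    ((S.kfP hcn w O hm hn).X (S.fq w O (S.rho w y)) (S.fq w O (S.rho w n)) - 1) +
    os ↥(stabilizer ↥(stabilizer H w) (S.fq w O (S.rho w y), S.fq w O (S.rho w n)))
        {k | S.QN w O (S.fq w O (S.rho w y), S.fq w O (S.rho w n)) k}
        (fun k => S.ck w O k - 1) := by
  have h1 := N.left h hF hp
  have h2 := N.law42 (hm := hm) (hn := hn) hnb h.nf h.kin
  have h3 := N.x1 (hcn := hcn) (hm := hm) (hn := hn) hnb h hF hp
  have h4 := N.ck_pos h.nf
  have e : {k | S.QN w O (S.fq w O (S.rho w y), S.fq w O (S.rho w n)) k} =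
      {k | S.Qk w O (S.fq w O (S.rho w y), S.fq w O (S.rho w n)) k} := rfl
  rw [e]
  omega

end

/-- the number of the far strands is invariant -/
theorem ck_ci {w : S.X} {O : S.OR w} (hO : O.Nf) (g : ↥(stabilizer H w))
    (k : S.Q w O × S.Q w O) : S.ck w O (g • k) = S.ck w O k := by
  refine oc_stab_smul (G := ↥(stabilizer H w)) (F := S.fkS w O)
    (fun g x y hy => LTp.fkS_smul g x y hy) g k ?_
  by_cases hk : ∃ u q z n, S.KN w O u q z n ∧ k = (S.fq w O (S.rho w n), S.fq w O (S.rho w q))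
  · obtain ⟨u, q, z, n, h, rfl⟩ := hk
    rw [fkS_eq hO h]
    exact h.nst.fin_farS hO
  · have : S.fkS w O k = ∅ := by
      ext i
      constructor
      · rintro ⟨u, q, z, n, h, e, -⟩
        exact hk ⟨u, q, z, n, h, e⟩
      · exact fun h => h.elim
    rw [this]
    show (orbs _ _).Finite
    unfold orbs
    rw [Set.image_empty]
    exact Set.finite_empty

/-- THE FIELD `nst` OF `SgH`, with the numbers `F` of the tops -/
theorem SgO.nstF {hcn : S.Conn} {w : S.X} {O : S.OR w} {hm : (S.k0 hcn w).Min}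
    {hn : S.SqN w O} {E : V → Prop} (hnb : S.NB) (h : S.SgO w O E)
    (eJ : ∀ v, E v → w ∈ S.J v → ∀ p ∈ S.J v, p = w) {F : V → V → ℕ} (hF : S.P.FX F)
    (hp : ∀ n x Y, S.P.PmS n x Y → (∀ y ∈ Y, ¬ E y) → S.P.PmF F n x Y) :
    ∀ u q z x, S.KN w O u q z x →
    os ↥(stabilizer ↥(stabilizer H w) (S.fq w O (S.rho w x), S.fq w O (S.rho w q)))
        {p | S.Ca w O p (S.fq w O (S.rho w x), S.fq w O (S.rho w q))}
        (fun p => F p.1 p.2 - 1) +
      (S.ck w O (S.fq w O (S.rho w x), S.fq w O (S.rho w q)) - 1) ≤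
    ((S.kfP hcn w O hm hn).X (S.fq w O (S.rho w x)) (S.fq w O (S.rho w q)) - 1) +
    os ↥(stabilizer ↥(stabilizer H w) (S.fq w O (S.rho w x), S.fq w O (S.rho w q)))
        {k | S.QN w O (S.fq w O (S.rho w x), S.fq w O (S.rho w q)) k}
        (fun k => S.ck w O k - 1) := fun _ _ _ _ k =>
  k.nst.nst61 hnb h hF (hp _ _ _ (k.nst.pms h.sq h.nf) (k.nst.nE h.sq eJ h.nf))

/-- THE FIELD `nst` OF `SgH` -/
theorem SgO.nst61 {hcn : S.Conn} {w : S.X} {O : S.OR w} {hm : (S.k0 hcn w).Min}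
    {hn : S.SqN w O} {E : V → Prop} (hnb : S.NB) (h : S.SgO w O E)
    (eJ : ∀ v, E v → w ∈ S.J v → ∀ p ∈ S.J v, p = w)
    {F : V → V → ℕ} (hF : S.P.FX F) (hX : ∀ p ∈ S.P.CA, S.P.X p.1 p.2 ≤ F p.1 p.2)
    (hp : ∀ n x Y, S.P.PmS n x Y → (∀ y ∈ Y, ¬ E y) → S.P.PmF F n x Y) :
    ∀ u q z x, S.KN w O u q z x →
    os ↥(stabilizer ↥(stabilizer H w) (S.fq w O (S.rho w x), S.fq w O (S.rho w q)))
        {p | S.Ca w O p (S.fq w O (S.rho w x), S.fq w O (S.rho w q))}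
        (fun p => S.P.X p.1 p.2 - 1) +
      (S.ck w O (S.fq w O (S.rho w x), S.fq w O (S.rho w q)) - 1) ≤
    ((S.kfP hcn w O hm hn).X (S.fq w O (S.rho w x)) (S.fq w O (S.rho w q)) - 1) +
    os ↥(stabilizer ↥(stabilizer H w) (S.fq w O (S.rho w x), S.fq w O (S.rho w q)))
        {k | S.QN w O (S.fq w O (S.rho w x), S.fq w O (S.rho w q)) k}
        (fun k => S.ck w O k - 1) := by
  intro u q z x k
  have h1 := h.nstF (hcn := hcn) (hm := hm) (hn := hn) hnb eJ hF hp u q z x k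
  have h2 : os ↥(stabilizer ↥(stabilizer H w) (S.fq w O (S.rho w x), S.fq w O (S.rho w q)))
        {p | S.Ca w O p (S.fq w O (S.rho w x), S.fq w O (S.rho w q))}
        (fun p => S.P.X p.1 p.2 - 1) ≤
      os ↥(stabilizer ↥(stabilizer H w) (S.fq w O (S.rho w x), S.fq w O (S.rho w q)))
        {p | S.Ca w O p (S.fq w O (S.rho w x), S.fq w O (S.rho w q))}
        (fun p => F p.1 p.2 - 1) := by
    refine os_le (Ca.fin h _) fun p hp => ?_
    have := hX p hp.1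
    omega
  omega

end SyQ

end Pool.Agent.DI
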