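import Pool.Agent.DI.State
import Pool.Agent.DI.ClsT
import Pool.Agent.DI.CutX2
import Pool.Agent.DI.Psv

/-!
# DI/NxC: the next state

`P.Lgt`: the fields `tf`, `fs`, `hv`, `lw` of a state. `Nxt P C'`: the state `C'` is a part of `K`
(`P : P45 K`) with all cells. `exists_Nxt`: a complex of a bad group with minimal area and with the class
`P.Cls` has a part which is a state, if its parts with connected links are light.
`SyQ.Psv.exists_next`: the next state of a passive step is a part of the thinned folded slice.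
-/

namespace Pool.Agent.DI

open MulAction
open Pool.Agent.SAF (InC SA orbs FinOrb oc Decomp)

/-- the four fields of a state which come from the light world -/
structure P45.Lgt {H V : Type} [Group H] [MulAction H V] {K : GX H V} (P : P45 K) : Prop where
  tf : ∀ T a b y, P.Top T a b y → Finite ↥(stabilizer H T)
  fs : ∀ z, K.FS z → P.NoQ z
  hv : ∀ x a b y, Q4 P x a b y → K.ar x a → Finite ↥(stabilizer H ((x, a) : V × V))
  lw : ∀ C : Cd, C.K.nVs ≤ K.nVs ∧ (C.K.nVs = K.nVs → C.K.nHv ≤ K.nHv)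

theorem St.lgt (C : St) : C.P.Lgt := ⟨C.tf, C.fs, C.hv, C.lw⟩

/-- the state `C'` is a part of `K` which contains all cells -/
structure Nxt {H V : Type} [Group H] [MulAction H V] {K : GX H V} (P : P45 K) (C' : St) where
  sub : SubGX C'.K K
  all : ∀ i : K.I, ∃ i', sub.ι i' = i

/-- sigma of the next state -/
theorem Nxt.sigma {H V : Type} [Group H] [MulAction H V] {K : GX H V} {P : P45 K} {C' : St}
    (N : Nxt P C') : C'.P.sigma = P.sigma := N.sub.sigma_eq C'.P P N.all

/-- THE NEXT STATE: a part with connected links -/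
theorem exists_Nxt {H V : Type} [Group H] [MulAction H V] {K : GX H V} (P : P45 K) (hb : ¬ SA H)
    (hmin : ∀ (H' V' : Type) [Group H'] [MulAction H' V'] (K' : GX H' V'), ¬ SA H' →
      K.area ≤ K'.area) (hcls : P.Cls)
    (hlt : ∀ (H' V' : Type) [Group H'] [MulAction H' V'] (N : GX H' V') (S : SubGX N K)
      (PN : P45 N), (∀ i : K.I, ∃ i', S.ι i' = i) → ¬ SA H' → (∀ v, N.LC v) → PN.Cls →
      PN.Lgt) :
    ∃ C' : St, Nonempty (Nxt P C') := by
  obtain ⟨H', V', i1, i2, N, hb', ⟨S⟩, hlc⟩ := exists_conn K hb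
  have harea : N.area = K.area := le_antisymm S.area_le.1 (hmin H' V' N hb')
  have h5 := S.area_le.2 harea
  have hall := S.all_in (S.p45 P) P h5 hcls.toSqE hcls.x1
  have hc := S.cls (S.p45 P) P hcls
  have hl := hlt H' V' N S (S.p45 P) hall hb' hlc hc
  let C' : St :=
    { H := H'
      V := V'
      grp := i1
      act := i2
      K := N
      P := S.p45 P
      bad := hb'
      min := fun H'' V'' _ _ K'' h => by
        rw [harea]
        exact hmin H'' V'' K'' h
      lc := hlc
      cls := hc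
      tf := hl.tf
      fs := hl.fs
      hv := hl.hv
      lw := hl.lw }
  exact ⟨C', ⟨⟨S, hall⟩⟩⟩

namespace SyQ

variable {H V : Type} [Group H] [MulAction H V] {S : SyQ H V} {w : S.X}

/-- the pentagons and squares of the folded slice -/
noncomputable def Sy1.kP (h : S.Sy1 w) (O : S.OR w) : P45 (S.kf h.gd.conn w O) :=
  S.kfP h.gd.conn w O (k0_min h.gd.conn h.wm) (S.sqN h.gd.conn w O)

/-- the area of the folded slice -/
theorem Sy1.kf_area (h : S.Sy1 w) (O : S.OR w) : (S.kf h.gd.conn w O).area = S.K.area := by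
  rw [S.kf_area h.gd.conn w O (k0_min h.gd.conn h.wm), k0_area_eq h.gd.conn h.wm]

/-- THE NEXT STATE OF A PASSIVE STEP -/
theorem Psv.exists_next {O : S.OR w} {E : V → Prop} (h : S.Psv w O E)
    (hE : ∀ T a b y, S.P.Top T a b y → S.Loc w T a b y → ¬ E T)
    (hmin : ∀ (H' V' : Type) [Group H'] [MulAction H' V'] (K' : GX H' V'), ¬ SA H' →
      S.K.area ≤ K'.area)
    (x1 : ∀ p ∈ (h.kP O).TA, 1 ≤ (h.kP O).X p.1 p.2)
    (hlt : ∀ (H' V' : Type) [Group H'] [MulAction H' V'] (N : GX H' V')
      (g : SubGX N (h.kP O).thin) (PN : P45 N), (∀ i, ∃ i', g.ι i' = i) → ¬ SA H' →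
      (∀ v, N.LC v) → PN.Cls → PN.Lgt) :
    ∃ C' : St, Nonempty (Nxt (h.kP O).thinP C') := by
  have hK : S.KIn w := KIn.of h.sq hE
  refine exists_Nxt (h.kP O).thinP h.badw ?_ ⟨kf_thin_SqT h.nf hK, (h.kP O).thin_x1 x1⟩ hlt
  intro H' V' _ _ K' hb
  rw [(h.kP O).thin_area, h.kf_area O]
  exact hmin H' V' K' hb

/-- sigma of the next state -/
theorem _root_.Pool.Agent.DI.Nxt.sigma_thin {K : GX H V} {P : P45 K} {C' : St}
    (N : Nxt P.thinP C') : C'.P.sigma = P.sigma := by
  rw [N.sigma, P.thin_sigma]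

end SyQ

end Pool.Agent.DI
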