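import Pool.Agent.DI.OpB
import Pool.Agent.DI.FreeF
import Pool.Agent.DI.Ns3
import Pool.Agent.DI.NxC

/-!
# DI/X1K: every arrow of a top of the folded slice has a strand

`NSt.out_ne'`: the static minimal cut gives a pass which leaves the star. `Rz.x1k`: by descending rank of
the top: near stars (`NSt.one_le`, the other arrow by the free face lemma `P45.X_other`), open hubs and local
tops (`LTp.le`).
-/

namespace Pool.Agent.DI

open MulAction
open Pool.Agent.SAF (SA InC orbs FinOrb oc Decomp SAn SA Conv hull dist_edge FinOrb_iff exists_next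
  mk_eq_iff oc_mono oc_le_of_inj oc_le_of_rel oc_le_of_surj)
open Pool.Agent.BT (PX PQ JS bey exits lz lz_self lz_ne lz_symm x_next_unique)
open Pool.Agent.BT.TA

open P45

theorem os_pos {G W : Type} [Group G] [MulAction G W] {A : Set W} (h : FinOrb G A) {X : W → ℕ}
    {p : W} (hp : p ∈ A) (hX : ∀ q ∈ A, 1 ≤ X q) : 1 ≤ os G A X := by
  have h1 := os_le h (X := fun _ => 1) (Y := X) hX
  rw [os_one h] at h1
  exact (ns2_oc_pos h ⟨p, hp⟩).trans h1

namespace SyQ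

variable {H V : Type} [Group H] [MulAction H V] {S : SyQ H V}

/-- there is a pass which leaves the star -/
theorem NSt.out_ne' {w u : S.X} {O : S.OR w} {n x y : V} {E : V → Prop} (hs : S.P.SqE E)
    (hO : O.Nf) (N : S.NSt w u O n x y) {F : V → V → ℕ} (hF : S.P.FX F)
    (hp : S.P.PmF F n x (S.nYs w O n x y)) : (S.outS w O n x y).Nonempty := by
  by_contra hne
  have hpm := N.pms hs hO
  have h0 : oc ↥(stabilizer ↥(stabilizer H w) (S.fq w O (S.rho w y), S.fq w O (S.rho w n)))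
      (S.outS w O n x y) = 0 := by
    rw [Set.not_nonempty_iff_eq_empty.1 hne, oc_empty]
  have h1 := N.out_le hs hO
  have hp' : oc ↥(stabilizer H (n, x)) (S.P.r5 n x (S.nYs w O n x y)) +
    os ↥(stabilizer H (n, x)) (S.P.t1 n x (S.nYs w O n x y)) (fun p => F p.1 p.2) +
    os ↥(stabilizer H (n, x)) (S.P.t3 n x (S.nYs w O n x y)) (fun p => F p.1 x) ≤
    oc ↥(stabilizer H (n, x)) (S.P.o5 n x (S.nYs w O n x y)) +
      oc ↥(stabilizer H (n, x)) (S.P.o4 n x (S.nYs w O n x y)) := hp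
  have hy : y ∈ S.nYs w O n x y := Yc_sub_nYs _ _ _ _ _ (show y ∈ S.Yc w O y from rfl)
  rcases N.qs.2.2.2.2 with ⟨v, z, hq, -, -⟩ | ⟨v, hq, -⟩
  · have h2 : 1 ≤ oc ↥(stabilizer H (n, x)) (S.P.r5 n x (S.nYs w O n x y)) := by
      refine ns2_oc_pos (fin_r5 n x _) ?_
      obtain ⟨f, f1, f2, f3, f4, -⟩ := exists_flag5 hq
      refine ⟨pfl f, fun k => f1 ((pfl_sq f).1 k), ?_, ?_, ?_⟩
      · rw [fy_pfl, f2]
        exact hy
      · rw [fz_pfl]
        exact f3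
      · rw [fv_pfl]
        exact f4
    omega
  · rcases zp_cases hs N.nx N.yn hq with ⟨k, -⟩ | ⟨k, -⟩
    · have h2 : 1 ≤ os ↥(stabilizer H (n, x)) (S.P.t1 n x (S.nYs w O n x y))
          (fun p => F p.1 p.2) := by
        refine os_pos (fin_t1 N.nx) (p := (y, n)) ⟨hy, rfl, v, k⟩ ?_
        rintro ⟨T, n'⟩ ⟨-, e, b, ht⟩
        have e : n' = n := e
        subst e
        refine hF.one (T, n') ?_
        rcases ht.Eb with kb | kb
        · exact Or.inr ⟨b, x, ht, N.nx, kb⟩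
        · exact Or.inl ⟨b, x, ht, N.nx, kb⟩
      omega
    · have h2 : 1 ≤ os ↥(stabilizer H (n, x)) (S.P.t3 n x (S.nYs w O n x y))
          (fun p => F p.1 x) := by
        refine os_pos (fin_t3 N.nx hpm.yn) (p := (v, y)) ⟨hy, k⟩ ?_
        rintro ⟨T, a⟩ ⟨ha, ht⟩
        have hU : (T, a) ∈ S.P.U := ⟨x, n, ht, hpm.yn _ ha, N.nx⟩
        exact (hF.one _ (Or.inl hU)).trans (hF.gam _ _ _ _ ht hU)
      omega

/-- an old top with a strand has a strand in the folded slice -/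
theorem LTp.one_le {w : S.X} {O : S.OR w} {T a b : V} (h : S.LTp w O T a b) (hnb : S.NB)
    {hc : S.Conn} {hm : (S.k0 hc w).Min} {hn : S.SqN w O} {E : V → Prop} (hs : S.P.SqE E)
    (ho : S.OldT w O) (hX : 1 ≤ S.P.X T a) :
    1 ≤ (S.kfP hc w O hm hn).X (S.fq w O (S.rho w T)) (S.fq w O (S.rho w a)) := by
  have h1 := h.X_eq
  have h2 := h.le (hm := hm) (hn := hn) hs ho
  by_cases hF : (S.FK w O T a).Nonempty
  · have h3 := ns2_oc_pos h.finFK hF
    omega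
  · have e5 : oc ↥(stabilizer H (T, a)) (S.F5 w T a) = 0 := by
      have : S.F5 w T a = ∅ := by
        rw [Set.eq_empty_iff_forall_notMem]
        intro f hf
        obtain ⟨u, k1, k2⟩ := h.far5 hnb hf
        exact hF ⟨_, u, _, k1, k2, rfl⟩
      rw [this, oc_empty]
    have e4 : oc ↥(stabilizer H (T, a)) (S.F4 w T a) = 0 := by
      have : S.F4 w T a = ∅ := by
        rw [Set.eq_empty_iff_forall_notMem]
        intro f hf
        obtain ⟨u, k1, k2⟩ := h.far4 hf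
        exact hF ⟨_, u, _, k1, k2, rfl⟩
      rw [this, oc_empty]
    omega

theorem OR.Nf.oldT {w : S.X} {O : S.OR w} (hO : O.Nf) : S.OldT w O :=
  fun _ _ _ _ ht wt ws ws' wy v => hO.loc_nsk ht ⟨wt, ws, ws', wy⟩ wt v

/-- an invariant function is bounded on finitely many orbits -/
theorem fo_bdd {G Y : Type} [Group G] [MulAction G Y] {A : Set Y} (hA : FinOrb G A) (f : Y → ℕ)
    (hf : ∀ (g : G) (y : Y), f (g • y) = f y) : ∃ B, ∀ a ∈ A, f a ≤ B := by
  have hfin : (f '' A).Finite := by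
    refine (Set.Finite.image (fun q : orbitRel.Quotient G Y => f (Quotient.out q)) hA).subset ?_
    rintro _ ⟨a, ha, rfl⟩
    refine ⟨Quotient.mk'' a, ⟨a, ha, rfl⟩, ?_⟩
    obtain ⟨g, hg⟩ := mk_eq_iff.1 (Quotient.out_eq' (Quotient.mk'' a : orbitRel.Quotient G Y))
    show f (Quotient.out (Quotient.mk'' a : orbitRel.Quotient G Y)) = f a
    rw [← hg, hf]
  obtain ⟨B, hB⟩ := hfin.bddAbove
  exact ⟨B, fun a ha => hB ⟨a, ha, rfl⟩⟩

/-- EVERY ARROW OF A TOP OF THE FOLDED SLICE HAS A STRAND -/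
theorem Rz.x1k {w : S.X} {O : S.OR w} {E : V → Prop} (h : S.Rz w O E) (hnb : S.NB)
    {hc : S.Conn} {hm : (S.k0 hc w).Min} {hn : S.SqN w O}
    (out : ∀ u n x y, S.NSt w u O n x y → (S.outS w O n x y).Nonempty) {T a b y : S.Q w O}
    (ht : (S.kfP hc w O hm hn).Top T a b y) : 1 ≤ (S.kfP hc w O hm hn).X T a := by
  obtain ⟨B, hB⟩ := fo_bdd (fin_of (P := S.kfP hc w O hm hn) (Set.Subset.refl _))
    (fun p => S.rkQ w O p.1) (fun g p => rkQ_smul g p.1)
  have htop : ∀ i, (S.kfP hc w O hm hn).sq i → ∃ j, (S.kfP hc w O hm hn).tp i j :=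
    fun i hi => kf_top h.nf h.kin i hi
  have key : ∀ (n : ℕ) (T a b y : S.Q w O), (S.kfP hc w O hm hn).Top T a b y →
      B < S.rkQ w O T + n → 1 ≤ (S.kfP hc w O hm hn).X T a := by
    intro n
    induction n with
    | zero =>
      intro T a b y ht hlt
      have := hB (T, a) ⟨b, y, ht⟩
      have : S.rkQ w O T ≤ B := this
      omega
    | succ n ih =>
      intro T a b y ht hlt
      have hx : KXr hm hn (S.rkQ w O T) :=
        ⟨htop, fun T' a' b' y' ht' hr => ih T' a' b' y' ht' (by omega)⟩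
      rcases kf_Top h.nf h.kin ht with ⟨u, q, z, x, k, rfl, rfl, e⟩ |
        ⟨u, q, z, x, k, rfl, rfl, rfl, rfl⟩ | ⟨T0, a0, b0, y0, k, hl, rfl, rfl, rfl, rfl⟩
      · have k1 := k.nst.one_le (hm := hm) (hn := hn) hnb h.nf h.kin (out _ _ _ _ k.nst)
        have ka := k.arrows h.nf
        have hr : S.rkQ w O (S.fq w O (S.rho w z)) < S.rkQ w O (S.fq w O (S.rho w x)) :=
          (arQ_rk ka.2.2.1).trans (arQ_rk ka.1)
        rcases e with ⟨rfl, rfl⟩ | ⟨rfl, rfl⟩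
        · exact k1
        · exact (S.kfP hc w O hm hn).X_other (S.kfP_nd hc w O hm hn) (S.kf_min hc w O hm) htop
            ht.symm' (fun _ _ _ k' => kf_par h.nf h.kin k' ht) hr
            (fun T a b y k k' => hx.x1 T a b y k k') k1
      · have hq : w ∈ S.J q := O.near u q k.2.1
        have hb : ¬ S.P.Bare q := ((h.opn u q).1 k.2.1).2
        obtain ⟨y', ht', -⟩ := h.top_of_Qs hq k.2.2.1 k.2.2.2.1 k.2.2.2.2 k.1
        exact (h.ltp_r hx hnb hq hb ht' k.1.l.1 k.1.r.1).one_le hnb h.sq h.nf.oldT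
          (h.x1 (q, z) ⟨_, _, ht'⟩ hb)
      · have hb := h.nb_loc k hl
        exact (h.ltp_r hx hnb hl.1 hb k hl.2.1 hl.2.2.1).one_le hnb h.sq h.nf.oldT
          (h.x1 (T0, a0) ⟨_, _, k⟩ hb)
  exact key (B + 1) T a b y ht (by omega)

/-- THE CLASS OF THE FOLDED SLICE -/
theorem Rz.kx1 {w : S.X} {O : S.OR w} {E : V → Prop} (h : S.Rz w O E) (hnb : S.NB)
    {hc : S.Conn} {hm : (S.k0 hc w).Min} {hn : S.SqN w O}
    (out : ∀ u n x y, S.NSt w u O n x y → (S.outS w O n x y).Nonempty) : KX1 hm hn where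
  top i hi := kf_top h.nf h.kin i hi
  x1 _ _ _ _ ht := h.x1k hnb out ht

/-- the same from the static minimal cut -/
theorem Rz.kx1F {w : S.X} {O : S.OR w} {E : V → Prop} (h : S.Rz w O E) (hnb : S.NB)
    {hc : S.Conn} {hm : (S.k0 hc w).Min} {hn : S.SqN w O}
    (eJ : ∀ v, E v → w ∈ S.J v → ∀ p ∈ S.J v, p = w) {F : V → V → ℕ} (hF : S.P.FX F)
    (hp : ∀ n x Y, S.P.PmS n x Y → (∀ y ∈ Y, ¬ E y) → S.P.PmF F n x Y) : KX1 hm hn :=
  h.kx1 hnb fun _ _ _ _ N =>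
    N.out_ne' h.sq h.nf hF (hp _ _ _ (N.pms h.sq h.nf) (N.nE h.sq eJ h.nf))

/-- THE FIELD `x1` OF THE LAWS -/
theorem Rz.law_x1 {w : S.X} {O : S.OR w} {E : V → Prop} (h : S.Rz w O E) (hs : S.Sy1 w)
    (hnb : S.NB) (eJ : ∀ v, E v → w ∈ S.J v → ∀ p ∈ S.J v, p = w) {F : V → V → ℕ}
    (hF : S.P.FX F) (hp : ∀ n x Y, S.P.PmS n x Y → (∀ y ∈ Y, ¬ E y) → S.P.PmF F n x Y) :
    ∀ p ∈ (hs.kP O).TA, 1 ≤ (hs.kP O).X p.1 p.2 := by
  rintro ⟨T, a⟩ ⟨b, y, ht⟩
  exact (h.kx1F hnb eJ hF hp).x1 T a b y ht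

/-- no backtracking over a minimal complex -/
theorem nb_of_min (hmin : ∀ (H' V' : Type) [Group H'] [MulAction H' V'] (K' : GX H' V'),
    ¬ SA H' → S.K.area ≤ K'.area) (hb : ¬ SA H) (nd : S.P.ND) : S.NB :=
  fun e => S.P.nb_min (fun V' _ K' => hmin H V' K' hb) nd e

/-- THE FIELD `x1` OF THE LAWS from the static minimal cut -/
theorem Psv.law_x1 {w : S.X} {O : S.OR w} {E : V → Prop} (h : S.Psv w O E)
    {F : V → V → ℕ} (hF : S.P.FX F)
    (hp : ∀ n x Y, S.P.PmS n x Y → (∀ y ∈ Y, ¬ E y) → S.P.PmF F n x Y) :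
    ∀ p ∈ (h.kP O).TA, 1 ≤ (h.kP O).X p.1 p.2 :=
  h.rz.law_x1 h.toSy1 (nb_of_min h.amin h.bad h.rz.nd) h.eJ hF hp

end SyQ

end Pool.Agent.DI
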