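import Pool.Agent.DI.HrW
import Pool.Agent.DI.X1K
import Pool.Agent.DI.OStK
import Pool.Agent.DI.SeenQ

/-!
# DI/HrE: hairs in the presence of opened vertices; the vertices over the midpoints

`P.hairE`: as `P.hairW`, but only the arrows of the tops which are not opened need strands. `two_polesE`:
a vertex with a connected link, a page and a pole has two poles.

`Psv.two_poles`; `Psv.bare_mid`: every vertex over a midpoint is bare; `Psv.pl`: the place of a
counted top arrow is in the orbit of `w` (the field `pl` of `SgO`).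
-/

namespace Pool.Agent.DI

open MulAction
open Pool.Agent.SAF (InC SA orbs FinOrb oc Decomp)
open Pool.Agent.BT (bey)

namespace P45

variable {H V : Type} [Group H] [MulAction H V] {K : GX H V} {P : P45 K} {E : V → Prop}

/-- the next top over a folded vertex is not opened -/
theorem hwE_next {K2 : GX H V} {φ : V → V} {R : ℕ} (h : HF K K2 φ R) (hs : P.SqE E)
    {n t p q : V} (hq : Q4 P n t p q) (hn : K.ar n t) (tp : K.ar t p) (e : φ t = φ p) :
    (∃ a b y, P.Top n a b y ∧ (φ a = φ b ∨ K2.E (φ a) (φ b)) ∧ K.rk t < K.rk n ∧ ¬ E n) ∨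
    ∃ a b y, P.Top q a b y ∧ (φ a = φ b ∨ K2.E (φ a) (φ b)) ∧ K.rk t < K.rk q ∧ ¬ E q := by
  rcases hq.ck_top hs.top with k | k | k | k
  · left
    refine ⟨t, q, p, k, ?_, K.ar_rk _ _ hn, fun he => ?_⟩
    · rw [e]
      exact h.edge p q k.Eb.symm
    · exact GX.ck_asym tp (hs.Ea _ _ _ _ k he)
  · exact absurd k.2.2 (GX.ck_asym hn)
  · exact absurd k.2.2 (GX.ck_asym tp)
  · right
    refine ⟨n, p, t, k, ?_, (K.ar_rk _ _ hn).trans (K.ar_rk _ _ k.2.1), fun he => ?_⟩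
    · rw [← e]
      exact h.edge n t (Or.inl hn)
    · exact GX.ck_asym hn (hs.Ea _ _ _ _ k he)

theorem hwE_main (nd : P.ND) (hs : P.SqE E) (R0 : ℕ)
    (x1 : ∀ T a b y, P.Top T a b y → R0 < K.rk T → ¬ E T → 1 ≤ P.X T a) {M : ℕ}
    (hM : ∀ T a b y, P.Top T a b y → K.rk T ≤ M) (n : ℕ) :
    ∀ (K2 : GX H V) (φ : V → V) (R : ℕ) (t a b y : V), HF K K2 φ R → P.Top t a b y → ¬ E t →
      R ≤ K.rk t → R0 < K.rk t → (φ a = φ b ∨ K2.E (φ a) (φ b)) → M - K.rk t = n → False := by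
  induction n using Nat.strong_induction_on with
  | _ n ih =>
    intro K2 φ R t a b y h top hE hR hR0 e hn
    have hφ : φ t = t := by
      by_contra hne
      have := h.lo t hne
      omega
    have hab : a ≠ b := (top.1.ck_ne nd).1
    let D := h.adjD hφ top.2.1 top.2.2 hab e
    have r1 := K.ar_rk _ _ top.2.1
    have np : ∀ i, K.Long i → K.Pass i t a → False := by
      intro i h5 hp
      obtain ⟨i2, h6, h7⟩ := h.pass i t a h5 hp
      rw [hφ] at h7
      exact h.min.adj D h6 h7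
    rcases hw_strand (x1 t a b y top hR0 hE) with ⟨n', y', z', hq⟩ | ⟨n', q, hq, hn'⟩
    · obtain ⟨i, h5, hp⟩ := hq.rot.pass
      exact np i h5 hp
    · have h' := h.step D (R' := K.rk t + 1) (by omega) (by omega)
      have e' : D.fo.f (φ t) = D.fo.f (φ a) := by
        rw [hφ, D.fo_x]
        refine (D.fo_lt ?_).symm
        rw [h.rk]
        have := h.le a
        omega
      rcases hwE_next h' hs hq hn' top.2.1 e' with
        ⟨a', b', y', k1, k2, k3, k4⟩ | ⟨a', b', y', k1, k2, k3, k4⟩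
      · refine ih (M - K.rk n') ?_ _ _ _ n' a' b' y' h' k1 k4 (by omega) (by omega) k2 rfl
        have := hM _ _ _ _ k1
        omega
      · refine ih (M - K.rk q) ?_ _ _ _ q a' b' y' h' k1 k4 (by omega) (by omega) k2 rfl
        have := hM _ _ _ _ k1
        omega

/-- HAIRS WITH WALKS, with opened vertices -/
theorem hairE (P : P45 K) (nd : P.ND) (hm : K.Min) (hs : P.SqE E) {x c : V}
    (x1 : ∀ T a b y, P.Top T a b y → K.rk x < K.rk T → ¬ E T → 1 ≤ P.X T a) (hc : K.ar x c)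
    (h : ∀ d, K.ar x d → d = c) :
    (∀ n y z, ¬ Qn P n x c y z) ∧ ∀ n q, Q4 P n x c q → ¬ K.ar n x := by
  constructor
  · intro n y z hq
    obtain ⟨i, h5, hp⟩ := hq.rot.pass
    exact hm.hair hc h h5 hp
  · intro n q hq hn
    obtain ⟨M, hM⟩ := hw_bound P
    let D : AdjD K x c :=
      { xy := hc
        out := fun a k => Or.inl (h a k)
        st := by
          intro g e
          have := K.ar_smul g _ _ hc
          rw [e] at this
          exact h _ this }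
    have h' := (HF.refl hm).step D (R' := K.rk x + 1) (by omega) (by omega)
    have e' : D.fo.f (id x) = D.fo.f (id c) := by
      show D.fo.f x = D.fo.f c
      rw [D.fo_x, D.fo_lt (K.ar_rk _ _ hc).ne]
    rcases hwE_next h' hs hq hn hc e' with
      ⟨a', b', y', k1, k2, k3, k4⟩ | ⟨a', b', y', k1, k2, k3, k4⟩
    · exact hwE_main nd hs (K.rk x) x1 hM _ _ _ _ n a' b' y' h' k1 k4 (by omega) (by omega) k2 rfl
    · exact hwE_main nd hs (K.rk x) x1 hM _ _ _ _ q a' b' y' h' k1 k4 (by omega) (by omega) k2 rfl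

/-- a vertex which is passed by a corner at its only pole is a hair -/
theorem no_oneE (P : P45 K) (nd : P.ND) (hm : K.Min) (hs : P.SqE E) {x c y : V}
    (x1 : ∀ T a b y, P.Top T a b y → K.rk x < K.rk T → ¬ E T → 1 ≤ P.X T a)
    (hc : K.ar x c) (hy : K.Cor y x c) (hyc : y ≠ c) (h : ∀ d, K.ar x d → d = c) : False := by
  obtain ⟨h1, h2⟩ := P.hairE nd hm hs x1 hc h
  have hyx : K.ar y x := hy.E1.resolve_left fun k => hyc (h y k)
  rcases (P45.cor_iff P).1 hy with ⟨y', z', hq⟩ | ⟨q, hq⟩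
  · exact h1 _ _ _ hq
  · exact h2 _ _ hq hyx

end P45

namespace SyQ

variable {H V : Type} [Group H] [MulAction H V] {S : SyQ H V} {w : S.X} {O : S.OR w}
  {E : V → Prop}

theorem Psv.kmin (h : S.Psv w O E) : S.K.Min := fun V' _ K' => h.amin H V' K' h.bad

theorem Psv.nbm (h : S.Psv w O E) : S.NB := nb_of_min h.amin h.bad h.rz.nd

/-- EVERY SOFT HAS TWO POLES -/
theorem Psv.two_poles (h : S.Psv w O E) {x c : V} (hc : S.K.ar x c) :
    ∃ d, S.K.ar x d ∧ d ≠ c := by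
  by_contra hcon
  push Not at hcon
  obtain ⟨y, hy⟩ := GX.EC_iff.1 (S.K.EC_of_E h.lc h.bad (Or.inr hc : S.K.E c x))
  refine S.P.no_oneE h.rz.nd h.kmin h.sq (fun T a b y ht _ hE => ?_) hc hy.symm
    (GX.nbt_of h.nbm hy).symm hcon
  exact h.x1 (T, a) ⟨b, y, ht⟩ fun k => hE (h.bE T a b y ht k)

/-- EVERY VERTEX OVER A MIDPOINT IS BARE -/
theorem Psv.bare_mid (h : S.Psv w O E) {u : S.X} (i : S.Inv1 w u) {x : V} (hx : S.J x = {u}) :
    S.P.Bare x := by
  obtain ⟨w', m⟩ := h.mid u i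
  obtain ⟨g, hg, hgw⟩ := m.rev x hx
  obtain ⟨a, ha⟩ := m.mp.ov_pole hx
  obtain ⟨b, hb, hba⟩ := h.two_poles ha
  have ra := m.mp.rev_pole hx hg hgw ha
  have rb := m.mp.rev_pole hx hg hgw hb
  refine ⟨fun n hn => ?_, fun c d y z hc hd hq => ?_⟩
  · rcases (m.mp.nb hx (Or.inr hn)).2 with k | k
    · exact h.page x a b u w n ha hb (Ne.symm hba) hx m.mp.mid.hw ra.1 rb.1 hn k
    · exact h.page x a b u w' n ha hb (Ne.symm hba) hx m.mp.mid.hw' ra.2 rb.2 hn k
  · have hcd : c ≠ d := GX.nbt_of h.nbm ((P45.cor_iff S.P).2 (Or.inl ⟨y, z, hq⟩))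
    obtain ⟨p, hp⟩ := Qn.cen hq
    have rc := m.mp.rev_pole hx hg hgw hc
    have rd := m.mp.rev_pole hx hg hgw hd
    rcases m.mp.cen_bey hq hp with k | k
    · exact h.dir x c d u w y z p hc hd hcd hx m.mp.mid.hw rc.1 rd.1 hq hp k
    · exact h.dir x c d u w' y z p hc hd hcd hx m.mp.mid.hw' rc.2 rd.2 hq hp k

/-- the place of an edge at which no end is bare is in the orbit of `w` -/
theorem Psv.place_bd (h : S.Psv w O E) {x y : V} (e : S.K.E x y) (hx : ¬ S.P.Bare x)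
    (hy : ¬ S.P.Bare y) {p : S.X} (px : p ∈ S.J x) (py : p ∈ S.J y) : ∃ g : H, g • w = p := by
  rcases h.alt with k | ⟨u, i⟩
  · exact k w p
  · rcases i.orb p with k | ⟨g, hg⟩
    · exact k
    · exfalso
      obtain ⟨w', m⟩ := h.mid u i
      have h1 : u ∈ S.J (g⁻¹ • x) := by
        have := S.js.smul g⁻¹ x p px
        rwa [← hg, inv_smul_smul] at this
      have h2 : u ∈ S.J (g⁻¹ • y) := by
        have := S.js.smul g⁻¹ y p py
        rwa [← hg, inv_smul_smul] at this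
      have hb : ∀ {v : V}, S.P.Bare (g⁻¹ • v) → S.P.Bare v := by
        rintro v ⟨k1, k2⟩
        refine ⟨fun n hn => k1 _ (S.K.ar_smul g⁻¹ _ _ hn), fun a b y z ka kb hq => ?_⟩
        exact k2 _ _ _ _ (S.K.ar_smul g⁻¹ _ _ ka) (S.K.ar_smul g⁻¹ _ _ kb) (hq.smul g⁻¹)
      rcases m.mp.u1 (e.imp (S.K.ar_smul g⁻¹ _ _) (S.K.ar_smul g⁻¹ _ _)) h1 h2 with k | k
      · exact hx (hb (h.bare_mid i k))
      · exact hy (hb (h.bare_mid i k))

/-- THE PLACE OF A COUNTED ARROW is in the orbit of `w`: the field `pl` of `SgO` -/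
theorem Psv.sgpl (h : S.Psv w O E) : ∀ p ∈ S.P.CA, ¬ S.GB w p →
    ∃ q, q ∈ S.J p.1 ∧ q ∈ S.J p.2 ∧ S.Bd w q := by
  rintro ⟨T, a⟩ hp -
  obtain ⟨b, y, ht⟩ : ∃ b y, S.P.Top T a b y := by
    rcases hp with ⟨b, y, ht, -⟩ | ⟨b, y, ht, -⟩
    · exact ⟨b, y, ht⟩
    · exact ⟨b, y, ht⟩
  obtain ⟨q, h1, h2⟩ := S.one_ex (Or.inl ht.2.1 : S.K.E T a)
  refine ⟨q, h1, h2, h.place_bd (Or.inl ht.2.1) (h.rz.nb_top ht (h.rz.ca_nE hp)) ?_ h1 h2⟩
  exact fun k => k.1 T ht.2.1

end SyQ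

end Pool.Agent.DI
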