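import Pool.Agent.DI.ExL2
import Pool.Agent.DI.DupQ
import Pool.Agent.DI.HrE
import Pool.Agent.DI.ExcT

/-!
# THE EXC-LAW OF A STEP

`Psv.exc_law : S.P.excE E ≤ (h.kP O).thinP.exc` from: `KX1` (every arrow of a top of the folded slice has a
strand), `NoPl` (no two parallel squares in the folded slice), `hC` (the special tops of the folded slice).
`Psv.exc_h0`, `Psv.exc_he`: the equality case.
-/

namespace Pool.Agent.DI

open MulAction
open Pool.Agent.SAF (InC SA orbs FinOrb oc Conv exists_next)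
open Pool.Agent.BT (PX PQ JS bey exits)
open Pool.Agent.BT.TA

namespace SyQ

variable {H V : Type} [Group H] [MulAction H V] {S : SyQ H V} {w : S.X} {O : S.OR w} {E : V → Prop}

theorem Psv.bw2 (h : S.Psv w O E) : S.Bwo w := ⟨h.bw, h.bo⟩

/-- there is one place -/
theorem one_pl (w : S.X) : ∀ (i j : Unit) (g : H),
    g • (fun _ : Unit => w) i = (fun _ : Unit => w) j → i = j := fun _ _ _ _ => rfl

/-- the duplicates of the flipped walks are parallel to other lines -/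
theorem dupL_flW : S.DupL (S.pQ S.FlW) where
  cor e he := by
    obtain ⟨⟨e', k0, k1, k2, k3⟩, -⟩ := flW_cor he
    exact ⟨e', k0, k1, Or.inr ⟨k2, k3⟩⟩
  inn e he := (flW_cor he).2

/-- the number of the ends of the duplicates over the translates of `w` -/
noncomputable abbrev Psv.dB (h : S.Psv w O E) : ℕ :=
  dupB h.gd.conn h.nbm (fun _ : Unit => w) (one_pl w) (S.pQ S.FlW)

/-- the lower bound -/
theorem Psv.dB_ge (h : S.Psv w O E) :
    Nat.card {i // S.FlW i} + oc H (S.Dz h.rz.F) + Nat.card {i // S.FlV w i} ≤ h.dB :=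
  h.dup_cnt3 h.bw2 h.gd.conn h.nbm (one_pl w)

/-- THE SLICE LAW -/
theorem Psv.slice_le (h : S.Psv w O E) :
    S.K.pexc + (h.dB : ℤ) ≤ (S.k0 h.gd.conn w).pexc := by
  have h1 := pexc_leR h.gd.conn h.nbm (fun _ : Unit => w) (one_pl w) dupL_flW (h.lostR h.bw2)
    (h.gd.sinkH fun y _ => h.lc y) (fun y _ => h.lc y)
  simpa using h1

section

variable (h : S.Psv w O E)
  (hx : KX1 (k0_min h.gd.conn h.wm) (S.sqN h.gd.conn w O))
  (hC : (h.kP O).nSp ≤ S.P.nSpE E + Nat.card {i // S.FlW i} + Nat.card {i // S.FlV w i})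

include hx

/-- the fold law -/
theorem Psv.fold_le' :
    (S.k0 h.gd.conn w).pexc ≤ (S.kf h.gd.conn w O).pexc + oc H (S.Dz h.rz.F) :=
  h.fold_le h.bw2 hx h.nbm

include hC

/-- THE EXC-LAW before thinning -/
theorem Psv.exc_law0 : S.P.excE E ≤ (h.kP O).exc := by
  have h1 := h.slice_le
  have h2 := h.fold_le' hx
  have h3 := h.dB_ge
  unfold P45.excE P45.exc
  omega

/-- THE EXC-LAW -/
theorem Psv.exc_law (hp : (h.kP O).NoPl) : S.P.excE E ≤ (h.kP O).thinP.exc := by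
  rw [(h.kP O).thin_exc hp]
  exact h.exc_law0 hx hC

/-- THE EQUALITY CASE: nothing is gained in the slice -/
theorem Psv.exc_h0 (he : (h.kP O).exc ≤ S.P.excE E) :
    ∑ i : Unit, (S.k0 h.gd.conn ((fun _ : Unit => w) i)).pexc ≤ S.K.pexc + (h.dB : ℤ) := by
  have h2 := h.fold_le' hx
  have h3 := h.dB_ge
  have he : (S.kf h.gd.conn w O).pexc - ((h.kP O).nSp : ℤ) ≤ S.K.pexc - (S.P.nSpE E : ℤ) := he
  have h4 : (S.k0 h.gd.conn w).pexc ≤ S.K.pexc + (h.dB : ℤ) := by omega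
  simpa using h4

omit hx in
/-- THE EQUALITY CASE: nothing is gained by the fold -/
theorem Psv.exc_he (he : (h.kP O).exc ≤ S.P.excE E) :
    (S.kf h.gd.conn w O).pexc + oc H (S.Dz h.rz.F) ≤ (S.k0 h.gd.conn w).pexc := by
  have h1 := h.slice_le
  have h3 := h.dB_ge
  have he : (S.kf h.gd.conn w O).pexc - ((h.kP O).nSp : ℤ) ≤ S.K.pexc - (S.P.nSpE E : ℤ) := he
  omega

/-- THE EQUALITY CASE: the number of the special tops -/
theorem Psv.exc_hs (he : (h.kP O).exc ≤ S.P.excE E) :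
    (h.kP O).nSp = S.P.nSpE E + Nat.card {i // S.FlW i} + Nat.card {i // S.FlV w i} := by
  have h1 := h.slice_le
  have h2 := h.fold_le' hx
  have h3 := h.dB_ge
  have he : (S.kf h.gd.conn w O).pexc - ((h.kP O).nSp : ℤ) ≤ S.K.pexc - (S.P.nSpE E : ℤ) := he
  omega

omit hx hC in
/-- constant excess, before thinning -/
theorem Psv.Eq2.exc0 {h : S.Psv w O E} (e : h.Eq2) (hp : (h.kP O).NoPl) :
    (h.kP O).exc = S.P.excE E := by
  rw [← (h.kP O).thin_exc hp]
  exact e.e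

/-- nothing is gained in the slice, from `Eq2` -/
theorem Psv.eq2_h0 (hp : (h.kP O).NoPl) (e : h.Eq2) :
    ∑ i : Unit, (S.k0 h.gd.conn ((fun _ : Unit => w) i)).pexc ≤ S.K.pexc + (h.dB : ℤ) :=
  h.exc_h0 hx hC (e.exc0 hp).le

omit hx in
/-- nothing is gained by the fold, from `Eq2` -/
theorem Psv.eq2_he (hp : (h.kP O).NoPl) (e : h.Eq2) :
    (S.kf h.gd.conn w O).pexc + oc H (S.Dz h.rz.F) ≤ (S.k0 h.gd.conn w).pexc :=
  h.exc_he hC (e.exc0 hp).le

end

end SyQ

end Pool.Agent.DI
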