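import Pool.Agent.DI.Ph1
import Pool.Agent.DI.Xt0
import Pool.Agent.DI.DrN

/-!
# The number `phi_0`: direct arrows passed by one orbit of flags

`K.ThA`: the direct arrows (`DrN`: the stabiliser of the arrow fixes the poles of its target, and lies in
`N_a` if the target `a` is an infinite sink) whose flags (of pentagons and squares) are one orbit. `K.phA` is the number of their orbits (it does not depend on the
listing `P`). `P.Th`, `P.Tq`: the same for positions of pentagons and squares; `P.thA_cases`, `Th.thA`,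
`Tq.thA`: the dictionary.
-/

namespace Pool.Agent.DI

open MulAction
open Pool.Agent.SAF (InC orbs FinOrb oc mk_eq_iff FinOrb_iff)

variable {H V : Type} [Group H] [MulAction H V]

/-- direct -/
abbrev Dz (K : GX H V) (y a : V) : Prop := DrN K y a

theorem sVD_smul {K : GX H V} (g : H) {a : V} : g • a ∈ K.sVD ↔ a ∈ K.sVD := by
  have key : ∀ (g : H) (a : V), a ∈ K.sVD → g • a ∈ K.sVD := by
    rintro g a ⟨h1, h2, h3⟩
    refine ⟨?_, (GX.inf_smul_iff g a).2 h2, fun k => h3 ((GX.zt_smul_iff g a).1 k)⟩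
    intro b hb
    have := K.ar_smul g⁻¹ _ _ hb
    rw [inv_smul_smul] at this
    exact h1 _ this
  refine ⟨fun h => ?_, key g a⟩
  have := key g⁻¹ _ h
  rwa [inv_smul_smul] at this

/-- the direct arrows whose flags are one orbit -/
def GX.ThA (K : GX H V) : Set (V × V) := {p | K.ar p.1 p.2 ∧ Dz K p.1 p.2 ∧
  (∃ f : FL K, (P45.fy f, P45.fz f) = p) ∧
  ∀ f f' : FL K, (P45.fy f, P45.fz f) = p → (P45.fy f', P45.fz f') = p → ∃ g : H, g • f = f'}

/-- THE NUMBER `phi_0` -/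
noncomputable def GX.phA (K : GX H V) : ℕ := oc H K.ThA

variable {K : GX H V}

theorem ThA_smul (g : H) {p : V × V} (h : p ∈ K.ThA) : g • p ∈ K.ThA := by
  obtain ⟨h1, h2, ⟨f, h3⟩, h4⟩ := h
  have back : ∀ f : FL K, (P45.fy f, P45.fz f) = g • p →
      (P45.fy (g⁻¹ • f), P45.fz (g⁻¹ • f)) = p := by
    intro f hf
    have e1 : P45.fy (g⁻¹ • f) = g⁻¹ • P45.fy f := K.c1_smul _ _
    have e2 : P45.fz (g⁻¹ • f) = g⁻¹ • P45.fz f := by
      obtain ⟨e, b⟩ := f
      cases b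
      · exact K.c0_smul _ _
      · exact K.c2_smul _ _
    have e3 : (P45.fy (g⁻¹ • f), P45.fz (g⁻¹ • f)) = g⁻¹ • (P45.fy f, P45.fz f) :=
      Prod.ext e1 e2
    rw [e3, hf, inv_smul_smul]
  refine ⟨K.ar_smul g _ _ h1, DrN.smul g h2, ⟨g • f, ?_⟩, ?_⟩
  · have e1 : P45.fy (g • f) = g • P45.fy f := K.c1_smul _ _
    have e2 : P45.fz (g • f) = g • P45.fz f := by
      obtain ⟨e, b⟩ := f
      cases b
      · exact K.c0_smul _ _
      · exact K.c2_smul _ _
    rw [← h3]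
    exact Prod.ext e1 e2
  · intro f1 f2 k1 k2
    obtain ⟨h, hh⟩ := h4 _ _ (back f1 k1) (back f2 k2)
    refine ⟨g * h * g⁻¹, ?_⟩
    rw [mul_smul, mul_smul, hh, smul_inv_smul]

namespace P45

variable (P : P45 K)

/-- the flags of the pentagons -/
def pf5 (i : K.I) (hi : ¬ P.sq i) (j : Fin 5) (h : H) : Bool → FL K
  | true => (P.l5 i hi (j + 4) h, true)
  | false => (P.l5 i hi j h, false)

/-- the flags of the squares -/
def pf4 (i : K.I) (hi : P.sq i) (j : Fin 4) (h : H) : Bool → FL K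
  | true => (P.l4 i hi (j + 3) h, true)
  | false => (P.l4 i hi j h, false)

theorem pf5_smul (g : H) (i : K.I) (hi : ¬ P.sq i) (j : Fin 5) (h : H) (b : Bool) :
    g • P.pf5 i hi j h b = P.pf5 i hi j (g * h) b := by
  cases b <;> rfl

theorem pf4_smul (g : H) (i : K.I) (hi : P.sq i) (j : Fin 4) (h : H) (b : Bool) :
    g • P.pf4 i hi j h b = P.pf4 i hi j (g * h) b := by
  cases b <;> rfl

theorem pf5_yz (i : K.I) (hi : ¬ P.sq i) (j : Fin 5) (h : H) :
    (fy (P.pf5 i hi j h true), fz (P.pf5 i hi j h true)) = (h • P.pt i j, h • P.pt i (j + 1)) ∧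
    (fy (P.pf5 i hi j h false), fz (P.pf5 i hi j h false)) =
      (h • P.pt i (j + 1), h • P.pt i j) := by
  have e1 : ∀ j : Fin 5, j + 4 + 1 = j := by decide
  have e2 : ∀ j : Fin 5, j + 4 + 2 = j + 1 := by decide
  constructor
  · refine Prod.ext ?_ ?_
    · show K.c1 (P.l5 i hi (j + 4) h) = _
      rw [P.c1_5, e1]
    · show K.c2 (P.l5 i hi (j + 4) h) = _
      rw [P.c2_5, e2]
  · refine Prod.ext ?_ ?_
    · show K.c1 (P.l5 i hi j h) = _
      rw [P.c1_5]
    · show K.c0 (P.l5 i hi j h) = _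
      rw [P.c0_5]

theorem pf4_yz (i : K.I) (hi : P.sq i) (j : Fin 4) (h : H) :
    (fy (P.pf4 i hi j h true), fz (P.pf4 i hi j h true)) = (h • P.qt i j, h • P.qt i (j + 1)) ∧
    (fy (P.pf4 i hi j h false), fz (P.pf4 i hi j h false)) =
      (h • P.qt i (j + 1), h • P.qt i j) := by
  have e1 : ∀ j : Fin 4, j + 3 + 1 = j := by decide
  have e2 : ∀ j : Fin 4, j + 3 + 2 = j + 1 := by decide
  constructor
  · refine Prod.ext ?_ ?_
    · show K.c1 (P.l4 i hi (j + 3) h) = _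
      rw [P.c1_4, e1]
    · show K.c2 (P.l4 i hi (j + 3) h) = _
      rw [P.c2_4, e2]
  · refine Prod.ext ?_ ?_
    · show K.c1 (P.l4 i hi j h) = _
      rw [P.c1_4]
    · show K.c0 (P.l4 i hi j h) = _
      rw [P.c0_4]

theorem pf5_inj {i i' : K.I} {hi : ¬ P.sq i} {hi' : ¬ P.sq i'} {j j' : Fin 5} {h h' : H}
    {b b' : Bool} (e : P.pf5 i hi j h b = P.pf5 i' hi' j' h' b') :
    i = i' ∧ j = j' ∧ h = h' ∧ b = b' := by
  have e2 : ∀ j j' : Fin 5, j + 4 = j' + 4 → j = j' := by decide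
  cases b <;> cases b'
  · obtain ⟨k1, k2, k3⟩ := P.l5_inj (hi := hi) (hi' := hi') (congrArg Prod.fst e)
    exact ⟨k1, k2, k3, rfl⟩
  · exact Bool.noConfusion (congrArg Prod.snd e)
  · exact Bool.noConfusion (congrArg Prod.snd e)
  · obtain ⟨k1, k2, k3⟩ := P.l5_inj (hi := hi) (hi' := hi') (congrArg Prod.fst e)
    exact ⟨k1, e2 _ _ k2, k3, rfl⟩

theorem pf4_inj {i i' : K.I} {hi : P.sq i} {hi' : P.sq i'} {j j' : Fin 4} {h h' : H}
    {b b' : Bool} (e : P.pf4 i hi j h b = P.pf4 i' hi' j' h' b') :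
    i = i' ∧ j = j' ∧ h = h' ∧ b = b' := by
  have e2 : ∀ j j' : Fin 4, j + 3 = j' + 3 → j = j' := by decide
  cases b <;> cases b'
  · obtain ⟨k1, k2, k3⟩ := P.l4_inj (hi := hi) (hi' := hi') (congrArg Prod.fst e)
    exact ⟨k1, k2, k3, rfl⟩
  · exact Bool.noConfusion (congrArg Prod.snd e)
  · exact Bool.noConfusion (congrArg Prod.snd e)
  · obtain ⟨k1, k2, k3⟩ := P.l4_inj (hi := hi) (hi' := hi') (congrArg Prod.fst e)
    exact ⟨k1, e2 _ _ k2, k3, rfl⟩

theorem pf5_ne_pf4 {i i' : K.I} {hi : ¬ P.sq i} {hi' : P.sq i'} {j : Fin 5} {j' : Fin 4}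
    {h h' : H} {b b' : Bool} (e : P.pf5 i hi j h b = P.pf4 i' hi' j' h' b') : False := by
  cases b <;> cases b' <;> exact P.l5_ne_l4 (hi := hi) (hi' := hi') (congrArg Prod.fst e)

theorem pf_cases (f : FL K) : (∃ i hi j h b, f = P.pf5 i hi j h b) ∨
    ∃ i hi j h b, f = P.pf4 i hi j h b := by
  have e4 : ∀ j : Fin 5, j + 1 + 4 = j := by decide
  have e3 : ∀ j : Fin 4, j + 1 + 3 = j := by decide
  obtain ⟨e, b⟩ := f
  rcases P.l_cases e with ⟨i, hi, j, h, rfl⟩ | ⟨i, hi, j, h, rfl⟩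
  · left
    cases b
    · exact ⟨i, hi, j, h, false, rfl⟩
    · refine ⟨i, hi, j + 1, h, true, ?_⟩
      show _ = (P.l5 i hi (j + 1 + 4) h, true)
      rw [e4]
  · right
    cases b
    · exact ⟨i, hi, j, h, false, rfl⟩
    · refine ⟨i, hi, j + 1, h, true, ?_⟩
      show _ = (P.l4 i hi (j + 1 + 3) h, true)
      rw [e3]

variable {P}

theorem A5.fl {h : H} {i : K.I} (hi : ¬ P.sq i) {j : Fin 5} {y a : V} (k : P.A5 h i j y a) :
    ∃ b, (fy (P.pf5 i hi j h b), fz (P.pf5 i hi j h b)) = (y, a) := by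
  rcases k with ⟨k1, k2⟩ | ⟨k1, k2⟩
  · exact ⟨true, by rw [(P.pf5_yz i hi j h).1, k1, k2]⟩
  · exact ⟨false, by rw [(P.pf5_yz i hi j h).2, k1, k2]⟩

theorem A4.fl {h : H} {i : K.I} (hi : P.sq i) {j : Fin 4} {y a : V} (k : P.A4 h i j y a) :
    ∃ b, (fy (P.pf4 i hi j h b), fz (P.pf4 i hi j h b)) = (y, a) := by
  rcases k with ⟨k1, k2⟩ | ⟨k1, k2⟩
  · exact ⟨true, by rw [(P.pf4_yz i hi j h).1, k1, k2]⟩
  · exact ⟨false, by rw [(P.pf4_yz i hi j h).2, k1, k2]⟩

theorem A5.of_fl {h : H} {i : K.I} {hi : ¬ P.sq i} {j : Fin 5} {b : Bool} {y a : V}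
    (k : (fy (P.pf5 i hi j h b), fz (P.pf5 i hi j h b)) = (y, a)) : P.A5 h i j y a := by
  cases b
  · rw [(P.pf5_yz i hi j h).2] at k
    exact Or.inr ⟨congrArg Prod.snd k, congrArg Prod.fst k⟩
  · rw [(P.pf5_yz i hi j h).1] at k
    exact Or.inl ⟨congrArg Prod.fst k, congrArg Prod.snd k⟩

theorem A4.of_fl {h : H} {i : K.I} {hi : P.sq i} {j : Fin 4} {b : Bool} {y a : V}
    (k : (fy (P.pf4 i hi j h b), fz (P.pf4 i hi j h b)) = (y, a)) : P.A4 h i j y a := by
  cases b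
  · rw [(P.pf4_yz i hi j h).2] at k
    exact Or.inr ⟨congrArg Prod.snd k, congrArg Prod.fst k⟩
  · rw [(P.pf4_yz i hi j h).1] at k
    exact Or.inl ⟨congrArg Prod.fst k, congrArg Prod.snd k⟩

variable (P)

/-- no other position of a cell has a translate along the edge `j` of the square `i` -/
def Tq (i : K.I) (j : Fin 4) : Prop := P.sq i ∧
  (∀ (h : H) (i' : K.I) (j' : Fin 4), P.sq i' → P.A4 h i' j' (P.qt i j) (P.qt i (j + 1)) →
    i' = i ∧ j' = j) ∧
  ∀ (h : H) (i' : K.I) (j' : Fin 5), ¬ P.sq i' → ¬ P.A5 h i' j' (P.qt i j) (P.qt i (j + 1))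

/-- the position of an arrow of `ThA` -/
theorem thA_cases {y a : V} (hp : (y, a) ∈ K.ThA) :
    (∃ i j h, P.Th i j ∧ P.A5 h i j y a) ∨ ∃ i j h, P.Tq i j ∧ P.A4 h i j y a := by
  obtain ⟨h1, h2, ⟨f, h3⟩, h4⟩ := hp
  rcases P.pf_cases f with ⟨i, hi, j, h, b, rfl⟩ | ⟨i, hi, j, h, b, rfl⟩
  · left
    have k := A5.of_fl h3
    refine ⟨i, j, h, ⟨hi, ?_, ?_⟩, k⟩
    · intro h' i' j' hi' k'
      have k2 : P.A5 (h * h') i' j' y a := by
        have k3 := k'.smul h
        rcases k with ⟨rfl, rfl⟩ | ⟨rfl, rfl⟩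
        · exact k3
        · exact k3.swap
      obtain ⟨b', hb'⟩ := k2.fl hi'
      obtain ⟨g, hg⟩ := h4 _ _ h3 hb'
      rw [P.pf5_smul] at hg
      obtain ⟨e1, e2, -, -⟩ := P.pf5_inj hg
      exact ⟨e1.symm, e2.symm⟩
    · intro h' i' j' hi' k'
      have k2 : P.A4 (h * h') i' j' y a := by
        have k3 := k'.smul h
        rcases k with ⟨rfl, rfl⟩ | ⟨rfl, rfl⟩
        · exact k3
        · exact k3.swap
      obtain ⟨b', hb'⟩ := k2.fl hi'
      obtain ⟨g, hg⟩ := h4 _ _ h3 hb'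
      rw [P.pf5_smul] at hg
      exact P.pf5_ne_pf4 hg
  · right
    have k := A4.of_fl h3
    refine ⟨i, j, h, ⟨hi, ?_, ?_⟩, k⟩
    · intro h' i' j' hi' k'
      have k2 : P.A4 (h * h') i' j' y a := by
        have k3 := k'.smul h
        rcases k with ⟨rfl, rfl⟩ | ⟨rfl, rfl⟩
        · exact k3
        · exact k3.swap
      obtain ⟨b', hb'⟩ := k2.fl hi'
      obtain ⟨g, hg⟩ := h4 _ _ h3 hb'
      rw [P.pf4_smul] at hg
      obtain ⟨e1, e2, -, -⟩ := P.pf4_inj hg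
      exact ⟨e1.symm, e2.symm⟩
    · intro h' i' j' hi' k'
      have k2 : P.A5 (h * h') i' j' y a := by
        have k3 := k'.smul h
        rcases k with ⟨rfl, rfl⟩ | ⟨rfl, rfl⟩
        · exact k3
        · exact k3.swap
      obtain ⟨b', hb'⟩ := k2.fl hi'
      obtain ⟨g, hg⟩ := h4 _ _ hb' h3
      rw [P.pf5_smul] at hg
      exact P.pf5_ne_pf4 hg

variable {P}

/-- an arrow is not reversed -/
theorem ar_ne {y a : V} (e : K.ar y a) (g g' : H) (h1 : g • y = g' • a) (h2 : g • a = g' • y) :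
    False := by
  have r1 := K.ar_rk _ _ e
  have r2 := congrArg K.rk h1
  have r3 := congrArg K.rk h2
  rw [K.rk_smul, K.rk_smul] at r2 r3
  omega

/-- the arrow of a position -/
theorem Th.thA {i : K.I} {j : Fin 5} (ht : P.Th i j) {y a : V} (e : K.ar y a) (hd : Dz K y a)
    {h : H} (k : P.A5 h i j y a) : (y, a) ∈ K.ThA := by
  obtain ⟨hi, t1, t2⟩ := ht
  -- the flags along the arrow
  have key : ∀ f : FL K, (fy f, fz f) = (y, a) → ∃ g b, f = P.pf5 i hi j g b := by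
    intro f hf
    rcases P.pf_cases f with ⟨i', hi', j', h', b', rfl⟩ | ⟨i', hi', j', h', b', rfl⟩
    · have k' := A5.of_fl hf
      have k2 : P.A5 (h⁻¹ * h') i' j' (P.pt i j) (P.pt i (j + 1)) := by
        have k3 := k'.smul h⁻¹
        rcases k with ⟨rfl, rfl⟩ | ⟨rfl, rfl⟩
        · rw [inv_smul_smul, inv_smul_smul] at k3
          exact k3
        · rw [inv_smul_smul, inv_smul_smul] at k3
          exact k3.swap
      obtain ⟨e1, e2⟩ := t1 _ _ _ hi' k2
      subst e1 e2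
      exact ⟨h', b', rfl⟩
    · exfalso
      have k' := A4.of_fl hf
      have k2 : P.A4 (h⁻¹ * h') i' j' (P.pt i j) (P.pt i (j + 1)) := by
        have k3 := k'.smul h⁻¹
        rcases k with ⟨rfl, rfl⟩ | ⟨rfl, rfl⟩
        · rw [inv_smul_smul, inv_smul_smul] at k3
          exact k3
        · rw [inv_smul_smul, inv_smul_smul] at k3
          exact k3.swap
      exact t2 _ _ _ hi' k2
  obtain ⟨b0, hb0⟩ := k.fl hi
  refine ⟨e, hd, ⟨_, hb0⟩, ?_⟩
  intro f f' hf hf'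
  obtain ⟨g, b, rfl⟩ := key f hf
  obtain ⟨g', b', rfl⟩ := key f' hf'
  have hb : b = b' := by
    by_contra hne
    obtain ⟨u1, u2⟩ := P.pf5_yz i hi j g
    obtain ⟨v1, v2⟩ := P.pf5_yz i hi j g'
    cases b <;> cases b'
    · exact hne rfl
    · rw [u2] at hf
      rw [v1] at hf'
      have a1 : g • P.pt i (j + 1) = y := congrArg Prod.fst hf
      have a2 : g • P.pt i j = a := congrArg Prod.snd hf
      have a3 : g' • P.pt i j = y := congrArg Prod.fst hf'
      have a4 : g' • P.pt i (j + 1) = a := congrArg Prod.snd hf'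
      refine ar_ne e g⁻¹ g'⁻¹ ?_ ?_
      · rw [← a1, ← a4, inv_smul_smul, inv_smul_smul]
      · rw [← a2, ← a3, inv_smul_smul, inv_smul_smul]
    · rw [u1] at hf
      rw [v2] at hf'
      have a1 : g • P.pt i j = y := congrArg Prod.fst hf
      have a2 : g • P.pt i (j + 1) = a := congrArg Prod.snd hf
      have a3 : g' • P.pt i (j + 1) = y := congrArg Prod.fst hf'
      have a4 : g' • P.pt i j = a := congrArg Prod.snd hf'
      refine ar_ne e g⁻¹ g'⁻¹ ?_ ?_
      · rw [← a1, ← a4, inv_smul_smul, inv_smul_smul]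
      · rw [← a2, ← a3, inv_smul_smul, inv_smul_smul]
    · exact hne rfl
  subst hb
  exact ⟨g' * g⁻¹, by rw [P.pf5_smul, inv_mul_cancel_right]⟩

/-- the arrow of a position of a square -/
theorem Tq.thA {i : K.I} {j : Fin 4} (ht : P.Tq i j) {y a : V} (e : K.ar y a) (hd : Dz K y a)
    {h : H} (k : P.A4 h i j y a) : (y, a) ∈ K.ThA := by
  obtain ⟨hi, t1, t2⟩ := ht
  have key : ∀ f : FL K, (fy f, fz f) = (y, a) → ∃ g b, f = P.pf4 i hi j g b := by
    intro f hf
    rcases P.pf_cases f with ⟨i', hi', j', h', b', rfl⟩ | ⟨i', hi', j', h', b', rfl⟩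
    · exfalso
      have k' := A5.of_fl hf
      have k2 : P.A5 (h⁻¹ * h') i' j' (P.qt i j) (P.qt i (j + 1)) := by
        have k3 := k'.smul h⁻¹
        rcases k with ⟨rfl, rfl⟩ | ⟨rfl, rfl⟩
        · rw [inv_smul_smul, inv_smul_smul] at k3
          exact k3
        · rw [inv_smul_smul, inv_smul_smul] at k3
          exact k3.swap
      exact t2 _ _ _ hi' k2
    · have k' := A4.of_fl hf
      have k2 : P.A4 (h⁻¹ * h') i' j' (P.qt i j) (P.qt i (j + 1)) := by
        have k3 := k'.smul h⁻¹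
        rcases k with ⟨rfl, rfl⟩ | ⟨rfl, rfl⟩
        · rw [inv_smul_smul, inv_smul_smul] at k3
          exact k3
        · rw [inv_smul_smul, inv_smul_smul] at k3
          exact k3.swap
      obtain ⟨e1, e2⟩ := t1 _ _ _ hi' k2
      subst e1 e2
      exact ⟨h', b', rfl⟩
  obtain ⟨b0, hb0⟩ := k.fl hi
  refine ⟨e, hd, ⟨_, hb0⟩, ?_⟩
  intro f f' hf hf'
  obtain ⟨g, b, rfl⟩ := key f hf
  obtain ⟨g', b', rfl⟩ := key f' hf'
  have hb : b = b' := by
    by_contra hne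
    obtain ⟨u1, u2⟩ := P.pf4_yz i hi j g
    obtain ⟨v1, v2⟩ := P.pf4_yz i hi j g'
    cases b <;> cases b'
    · exact hne rfl
    · rw [u2] at hf
      rw [v1] at hf'
      have a1 : g • P.qt i (j + 1) = y := congrArg Prod.fst hf
      have a2 : g • P.qt i j = a := congrArg Prod.snd hf
      have a3 : g' • P.qt i j = y := congrArg Prod.fst hf'
      have a4 : g' • P.qt i (j + 1) = a := congrArg Prod.snd hf'
      refine ar_ne e g⁻¹ g'⁻¹ ?_ ?_
      · rw [← a1, ← a4, inv_smul_smul, inv_smul_smul]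
      · rw [← a2, ← a3, inv_smul_smul, inv_smul_smul]
    · rw [u1] at hf
      rw [v2] at hf'
      have a1 : g • P.qt i j = y := congrArg Prod.fst hf
      have a2 : g • P.qt i (j + 1) = a := congrArg Prod.snd hf
      have a3 : g' • P.qt i (j + 1) = y := congrArg Prod.fst hf'
      have a4 : g' • P.qt i j = a := congrArg Prod.snd hf'
      refine ar_ne e g⁻¹ g'⁻¹ ?_ ?_
      · rw [← a1, ← a4, inv_smul_smul, inv_smul_smul]
      · rw [← a2, ← a3, inv_smul_smul, inv_smul_smul]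
    · exact hne rfl
  subst hb
  exact ⟨g' * g⁻¹, by rw [P.pf4_smul, inv_mul_cancel_right]⟩

end P45

end Pool.Agent.DI
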