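import Pool.Agent.DI.TFo

/-!
# Folding tops: corners and links of the quotient

`F.le : (F.gx P).LE → K.LE`: the corners of the quotient are the corners of the kept cells.
`F.LJ_map`, `F.LC_gx`: the links of the quotient are connected if the links of `K` are and the corners
of the dropped squares at tops and partners are replaced (`hd`).
-/

namespace Pool.Agent.DI

open MulAction
open Pool.Agent.SAF (InC orbs FinOrb oc)
open Pool.Agent.BT (HG Mg lz lz_self lz_ne lz_symm)

namespace P45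

variable {H V : Type} [Group H] [MulAction H V] {K : GX H V} (P : P45 K)

theorem tlen5 {i : K.I} (hi : ¬ P.sq i) : K.len i = 5 := by
  unfold GX.len
  rw [P.cw5 i hi]
  rfl

theorem tlen4 {i : K.I} (hi : P.sq i) : K.len i = 4 := by
  unfold GX.len
  rw [P.cw4 i hi]
  rfl

theorem tvx4 {i : K.I} (hi : P.sq i) (j : ℕ) : K.vx i j = P.qt i (Fin.ofNat 4 j) := by
  have hj : j % 4 < 4 := Nat.mod_lt _ (by omega)
  have e : Fin.ofNat 4 j = ⟨j % 4, hj⟩ := rfl
  rw [← K.vx_mod i j, P.tlen4 hi, K.vx_of_lt (by rw [P.tlen4 hi]; exact hj), P.cb4 i hi, P.cw4 i hi, e]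
  generalize j % 4 = k at hj
  interval_cases k <;> rfl

theorem tvx5 {i : K.I} (hi : ¬ P.sq i) (j : ℕ) : K.vx i j = P.pt i (Fin.ofNat 5 j) := by
  have hj : j % 5 < 5 := Nat.mod_lt _ (by omega)
  have e : Fin.ofNat 5 j = ⟨j % 5, hj⟩ := rfl
  rw [← K.vx_mod i j, P.tlen5 hi, K.vx_of_lt (by rw [P.tlen5 hi]; exact hj), P.cb5 i hi, P.cw5 i hi, e]
  generalize j % 5 = k at hj
  interval_cases k <;> rfl

end P45

namespace TpF

variable {H V : Type} [Group H] [MulAction H V] {K : GX H V} (F : TpF K) (P : P45 K)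

theorem gx_vx (j : (F.gx P).I) (k : ℕ) : (F.gx P).vx j k = F.f (K.vx j.1 k) := by
  unfold GX.vx
  rw [F.gx_len, F.gx_cw, F.gx_cb, ← List.map_cons, List.getD_map]

/-- the corners of the quotient are corners of `K` -/
noncomputable def le (e : (F.gx P).LE) : K.LE := (⟨e.1.1.1, Fin.cast (F.gx_len e.1.1) e.1.2⟩, e.2)

theorem le_c0 (e : (F.gx P).LE) : (F.gx P).c0 e = F.f (K.c0 (F.le P e)) := by
  show e.2 • (F.gx P).vx e.1.1 e.1.2 = F.f (e.2 • K.vx e.1.1.1 e.1.2)
  rw [F.gx_vx, F.f_smul]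

theorem le_c1 (e : (F.gx P).LE) : (F.gx P).c1 e = F.f (K.c1 (F.le P e)) := by
  show e.2 • (F.gx P).vx e.1.1 (e.1.2 + 1) = F.f (e.2 • K.vx e.1.1.1 (e.1.2 + 1))
  rw [F.gx_vx, F.f_smul]

theorem le_c2 (e : (F.gx P).LE) : (F.gx P).c2 e = F.f (K.c2 (F.le P e)) := by
  show e.2 • (F.gx P).vx e.1.1 (e.1.2 + 2) = F.f (e.2 • K.vx e.1.1.1 (e.1.2 + 2))
  rw [F.gx_vx, F.f_smul]

theorem le_smul (h : H) (e : (F.gx P).LE) : F.le P (h • e) = h • F.le P e := rfl

theorem le_inj : Function.Injective (F.le P) := by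
  rintro ⟨⟨⟨i, hi⟩, j⟩, h⟩ ⟨⟨⟨i', hi'⟩, j'⟩, h'⟩ e
  have e1 : (⟨i, Fin.cast (F.gx_len ⟨i, hi⟩) j⟩ : K.Pos) = ⟨i', Fin.cast (F.gx_len ⟨i', hi'⟩) j'⟩ :=
    congrArg Prod.fst e
  have e2 : h = h' := congrArg Prod.snd e
  subst e2
  obtain ⟨e3, e4⟩ := Sigma.mk.inj_iff.1 e1
  subst e3
  have e5 := eq_of_heq e4
  have e6 : j = j' := Fin.ext (by simpa using congrArg Fin.val e5)
  subst e6
  rfl

/-- the corners of the kept cells are reached -/
theorem le_surj (e : K.LE) (he : F.kept P e.1.1) : ∃ e', F.le P e' = e := by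
  obtain ⟨⟨i, j⟩, h⟩ := e
  exact ⟨(⟨⟨i, he⟩, Fin.cast (F.gx_len ⟨i, he⟩).symm j⟩, h), rfl⟩

variable {P}

theorem cor_map {e : K.LE} (he : F.kept P e.1.1) :
    (F.gx P).Cor (F.f (K.c0 e)) (F.f (K.c1 e)) (F.f (K.c2 e)) := by
  obtain ⟨e', rfl⟩ := F.le_surj P e he
  exact (F.gx P).cor_LE.2 ⟨e', Or.inl ⟨F.le_c0 P e', F.le_c1 P e', F.le_c2 P e'⟩⟩

/-- the dropped squares do not disconnect the links -/
def HD (P : P45 K) : Prop := ∀ i, P.sq i → ∀ k : Fin 4, F.f (P.qt i (k + 1)) = F.f (P.qt i (k + 3)) →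
  (F.gx P).LJ (F.f (P.qt i (k + 1))) (F.f (P.qt i k)) (F.f (P.qt i (k + 2)))

theorem LJ_map (hd : F.HD P) {v a b : V} (h : K.LJ v a b) :
    (F.gx P).LJ (F.f v) (F.f a) (F.f b) := by
  induction h with
  | rel a b h =>
    have key : ∀ e : K.LE, (F.gx P).LJ (F.f (K.c1 e)) (F.f (K.c0 e)) (F.f (K.c2 e)) := by
      intro e
      by_cases he : F.kept P e.1.1
      · exact Relation.EqvGen.rel _ _ (F.cor_map he)
      · unfold kept at he
        push Not at he
        obtain ⟨hsq, h⟩ := he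
        obtain ⟨⟨i, ⟨j, hj⟩⟩, g⟩ := e
        have hsq : P.sq i := hsq
        have main : (F.gx P).LJ (F.f (K.vx i (j + 1))) (F.f (K.vx i j)) (F.f (K.vx i (j + 2))) := by
          rw [P.tvx4 hsq, P.tvx4 hsq, P.tvx4 hsq]
          have hj4 : j < 4 := by rwa [P.tlen4 hsq] at hj
          by_cases e02 : F.f (P.qt i (Fin.ofNat 4 j)) = F.f (P.qt i (Fin.ofNat 4 (j + 2)))
          · rw [e02]
            exact Relation.EqvGen.refl _
          · have e13 : F.f (P.qt i (Fin.ofNat 4 (j + 1))) = F.f (P.qt i (Fin.ofNat 4 (j + 3))) := by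
              by_cases e : F.f (P.qt i 0) = F.f (P.qt i 2)
              · interval_cases j
                · exact absurd e e02
                · exact e.symm
                · exact absurd e.symm e02
                · exact e
              · have e' := h e
                interval_cases j
                · exact e'
                · exact absurd e' e02
                · exact e'.symm
                · exact absurd e'.symm e02
            have e1 : Fin.ofNat 4 (j + 1) = Fin.ofNat 4 j + 1 := by interval_cases j <;> rfl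
            have e2 : Fin.ofNat 4 (j + 2) = Fin.ofNat 4 j + 2 := by interval_cases j <;> rfl
            have e3 : Fin.ofNat 4 (j + 3) = Fin.ofNat 4 j + 3 := by interval_cases j <;> rfl
            rw [e1, e3] at e13
            rw [e1, e2]
            exact hd i hsq _ e13
        have := main.smul g
        rw [← F.f_smul, ← F.f_smul, ← F.f_smul] at this
        exact this
    obtain ⟨e, ⟨rfl, rfl, rfl⟩ | ⟨rfl, hv, rfl⟩⟩ := K.cor_LE.1 h
    · exact key e
    · rw [← hv]
      exact (key e).symm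
  | refl a => exact Relation.EqvGen.refl _
  | symm a b _ ih => exact ih.symm
  | trans a b c _ _ ih1 ih2 => exact ih1.trans _ _ _ ih2

/-- the neighbours of the members of a class are joined -/
theorem LJ_class (hd : F.HD P) (hc : ∀ v, K.LC v) (x : V) : ∀ n, K.E x n → ∀ m, K.E (F.g x) m →
    (F.gx P).LJ (F.f x) (F.f n) (F.f m) := by
  induction hn : K.rk x using Nat.strong_induction_on generalizing x with
  | _ N ih =>
    intro n hxn m hm
    by_cases hx : F.Z x
    · have h1 := F.pi_rk x hx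
      obtain ⟨a, ha⟩ := F.ex x hx
      have h2 := F.LJ_map hd (hc x n a hxn (Or.inl ha))
      rw [F.g_pi hx] at hm
      have h3 := ih _ (by omega) (F.pi x) rfl a (F.pi_E x a hx ha) m hm
      rw [← F.f_pi hx] at h3
      exact h2.trans _ _ _ h3
    · rw [F.g_not hx] at hm
      exact F.LJ_map hd (hc x n m hxn hm)

/-- the links of the quotient are connected -/
theorem LC_gx (hd : F.HD P) (hc : ∀ v, K.LC v) (v : F.W) : (F.gx P).LC v := by
  intro a b ha hb
  obtain ⟨x, n, hxn, hx, rfl⟩ := F.gx_E' P ha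
  obtain ⟨y, m, hym, hy, rfl⟩ := F.gx_E' P hb
  have key : ∀ z n, K.E z n → F.f z = v → ∀ m, K.E v.1 m → (F.gx P).LJ v (F.f n) (F.f m) := by
    intro z n hzn hz m hm
    have e : F.g z = v.1 := congrArg Subtype.val hz
    have := F.LJ_class hd hc z n hzn m (by rw [e]; exact hm)
    rwa [hz] at this
  -- a neighbour of the representative
  have hr : ∀ z n, K.E z n → ∃ m, K.E (F.g z) m := by
    intro z
    induction hN : K.rk z using Nat.strong_induction_on generalizing z with
    | _ N ih =>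
      intro n hzn
      by_cases hz : F.Z z
      · have h1 := F.pi_rk z hz
        obtain ⟨a, ha⟩ := F.ex z hz
        rw [F.g_pi hz]
        exact ih _ (by omega) _ rfl a (F.pi_E z a hz ha)
      · rw [F.g_not hz]
        exact ⟨n, hzn⟩
  obtain ⟨k, hk⟩ := hr x n hxn
  have e : F.g x = v.1 := congrArg Subtype.val hx
  rw [e] at hk
  exact (key x n hxn hx k hk).trans _ _ _ (key y m hym hy k hk).symm

end TpF

end Pool.Agent.DI
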