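import Pool.Agent.DI.State
import Pool.Agent.DI.OneEdgeQ
import Pool.Agent.DI.TFo2
import Pool.Agent.DI.LightQ

/-!
# DI/StF: the total fold of a complex with tops

`P45.SqE.tp`: the tops and partners of the static class `P.SqE E` as data `TpF K` (96). All squares
are degenerate in the quotient, so `F.gx P` is a complex with pentagons only (`SqE.fpt`). Finite sinks
and sinks with a heavy in-arrow inject into the quotient (`SqE.nVs_le`, `SqE.nHv_le`).
-/

namespace Pool.Agent.DI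

open MulAction
open Pool.Agent.SAF (InC SA orbs FinOrb oc oc_le_of_inj Decomp)
open Pool.Agent.BT (PX PQ JS bey exits Ell mst)

namespace P45

variable {H V : Type} [Group H] [MulAction H V] {K : GX H V} {P : P45 K}

namespace SqE

variable {E : V → Prop} (hs : P.SqE E) (hE : ∀ v, ¬ E v)

open Classical in
/-- the partner -/
noncomputable def ptn (P : P45 K) (T : V) : V :=
  if h : ∃ y, ∃ a b, P.Top T a b y then h.choose else T

include hs hE in
theorem ptn_eq {T a b y : V} (h : P.Top T a b y) : ptn P T = y := by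
  have h1 : ∃ y, ∃ a b, P.Top T a b y := ⟨y, a, b, h⟩
  unfold ptn
  rw [dif_pos h1]
  obtain ⟨a', b', h2⟩ := h1.choose_spec
  exact (hs.par _ _ _ _ _ _ _ h2 h).resolve_left (hE _)

/-- tops and partners -/
noncomputable def tp : TpF K where
  Z T := ∃ a b y, P.Top T a b y
  pi := ptn P
  Z_smul := by
    rintro h T ⟨a, b, y, k⟩
    exact ⟨h • a, h • b, h • y, k.smul h⟩
  pi_smul := by
    rintro h T ⟨a, b, y, k⟩
    rw [hs.ptn_eq hE k, hs.ptn_eq hE (k.smul h)]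
  pi_rk := by
    rintro T ⟨a, b, y, k⟩
    rw [hs.ptn_eq hE k]
    rcases (hs.side _ _ _ _ k).resolve_left (hE T) with h | h
    · exact (K.ar_rk _ _ h).trans (K.ar_rk _ _ k.2.1)
    · exact (K.ar_rk _ _ h).trans (K.ar_rk _ _ k.2.2)
  pi_E := by
    rintro T c ⟨a, b, y, k⟩ hc
    rw [hs.ptn_eq hE k]
    rcases hs.sides k hc with rfl | rfl
    · exact k.Ea.symm
    · exact k.Eb.symm
  ex := by
    rintro T ⟨a, b, y, k⟩
    exact ⟨a, k.2.1⟩

theorem tp_Z {T : V} : (hs.tp hE).Z T ↔ ∃ a b y, P.Top T a b y := Iff.rfl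

theorem tp_f {T a b y : V} (h : P.Top T a b y) : (hs.tp hE).f T = (hs.tp hE).f y := by
  rw [(hs.tp hE).f_pi ⟨a, b, y, h⟩]
  show (hs.tp hE).f (ptn P T) = _
  rw [hs.ptn_eq hE h]

include hs in
/-- the listed squares have tops -/
theorem top_q4 {i : K.I} (hi : P.sq i) : ∃ j : Fin 4,
    P.Top (P.qt i j) (P.qt i (j + 3)) (P.qt i (j + 1)) (P.qt i (j + 2)) := by
  obtain ⟨j, h1, h2⟩ := hs.top i hi
  refine ⟨j, ?_, h2, h1⟩
  have h := Q4_qt (P := P) (1 : H) hi (j + 3)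
  have e1 : ∀ j : Fin 4, j + 3 + 1 = j := by decide
  have e2 : ∀ j : Fin 4, j + 3 + 2 = j + 1 := by decide
  have e3 : ∀ j : Fin 4, j + 3 + 3 = j + 2 := by decide
  rw [e1, e2, e3] at h
  simpa only [one_smul] using h

/-- every square is degenerate in the quotient -/
theorem not_kept {i : K.I} (hi : P.sq i) : ¬ (hs.tp hE).kept P i := by
  intro h
  obtain ⟨h0, h1⟩ := h hi
  obtain ⟨j, hj⟩ := hs.top_q4 hi
  have e := hs.tp_f hE hj
  fin_cases j
  · exact h0 e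
  · exact h1 e
  · exact h0 e.symm
  · exact h1 e.symm

/-- THE TOTAL FOLD has pentagons only -/
noncomputable def fpt : Pt ((hs.tp hE).gx P) where
  pt j k := (hs.tp hE).f (P.pt j.1 k)
  cb_eq j := by
    have hj : ¬ P.sq j.1 := fun h => hs.not_kept hE h j.2
    rw [(hs.tp hE).gx_cb, P.cb5 _ hj]
  cw_eq j := by
    have hj : ¬ P.sq j.1 := fun h => hs.not_kept hE h j.2
    rw [(hs.tp hE).gx_cw, P.cw5 _ hj]
    rfl

/-- sinks are not tops -/
theorem f_snk {z : V} (hz : K.Snk z) : ((hs.tp hE).f z).1 = z := by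
  rw [(hs.tp hE).f_not]
  rintro ⟨a, b, y, h⟩
  exact hz a h.2.1

theorem snk_f {z : V} (hz : K.Snk z) : ((hs.tp hE).gx P).Snk ((hs.tp hE).f z) := by
  rintro b ⟨c, hc, -⟩
  rw [hs.f_snk hE hz] at hc
  exact hz c hc

theorem f_inj {z z' : V} (hz : K.Snk z) (hz' : K.Snk z')
    (e : (hs.tp hE).f z = (hs.tp hE).f z') : z = z' := by
  rw [← hs.f_snk hE hz, ← hs.f_snk hE hz', e]

/-- edges of pentagons -/
theorem el_f {x y : V} (h : K.EL x y) : ((hs.tp hE).gx P).EL ((hs.tp hE).f x) ((hs.tp hE).f y) := by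
  obtain ⟨i, g, h0, h1⟩ := h
  have hk : (hs.tp hE).kept P i := by
    intro hq
    rw [P.cw4 i hq] at h0
    exact absurd h0 (lt_irrefl _)
  let j : ((hs.tp hE).gx P).I := ⟨i, hk⟩
  have ec : ((hs.tp hE).gx P).cw j = (K.cw i).map (hs.tp hE).f := (hs.tp hE).gx_cw j
  refine ⟨j, g, ?_, ?_⟩
  · rw [ec, List.length_map]
    exact h0
  · have e1 : ((hs.tp hE).gx P).tb j g = (hs.tp hE).f (K.tb i g) := ((hs.tp hE).f_smul g _).symm
    have e2 : ((hs.tp hE).gx P).tw j g = (K.tw i g).map (hs.tp hE).f := by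
      unfold GX.tw
      rw [ec, List.map_map, List.map_map]
      apply List.map_congr_left
      intro z _
      exact ((hs.tp hE).f_smul g z).symm
    rw [e1, e2]
    exact h1.imp (fun c => c.map (hs.tp hE).f) (fun c => c.map (hs.tp hE).f)

theorem el_qn {x a b y z : V} (h : Qn P x a b y z) : K.EL x a := by
  have key : ∀ (g : H) (i : K.I) (j : Fin 5), ¬ P.sq i → K.EL (g • P.pt i j) (g • P.pt i (j + 1)) :=
    fun g i j hi => SyQ.el_of (K2 := K) i (P.pt i) (P.cb5 i hi) (P.cw5 i hi) g j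
  obtain ⟨g, i, j, hi, ⟨h1, h2, -⟩ | ⟨-, h2, h3, -⟩⟩ := h
  · rw [h1, h2]
    exact key g i j hi
  · rw [h2, h3]
    have := key g i (j + 1) hi
    rw [add_assoc] at this
    exact this.symm

/-- a heavy arrow to a sink -/
theorem heavy_f {n v : V} (h : K.ar n v) (hv : K.Snk v)
    (hi : Infinite ↥(stabilizer H ((n, v) : V × V))) :
    ((hs.tp hE).gx P).ar ((hs.tp hE).f n) ((hs.tp hE).f v) ∧
      Infinite ↥(stabilizer H (((hs.tp hE).f n, (hs.tp hE).f v) :
        (hs.tp hE).W × (hs.tp hE).W)) := by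
  constructor
  · rcases (hs.tp hE).gx_E P (Or.inl h : K.E n v) with k | k
    · exact k
    · exact absurd k (hs.snk_f hE hv _)
  · refine Infinite.of_injective (fun g : ↥(stabilizer H ((n, v) : V × V)) =>
      (⟨g.1, ?_⟩ : ↥(stabilizer H (((hs.tp hE).f n, (hs.tp hE).f v) :
        (hs.tp hE).W × (hs.tp hE).W)))) ?_
    · have e1 : g.1 • n = n := congrArg Prod.fst g.2
      have e2 : g.1 • v = v := congrArg Prod.snd g.2
      refine Prod.ext ?_ ?_
      · show g.1 • (hs.tp hE).f n = (hs.tp hE).f n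
        rw [← (hs.tp hE).f_smul, e1]
      · show g.1 • (hs.tp hE).f v = (hs.tp hE).f v
        rw [← (hs.tp hE).f_smul, e2]
    · intro a b e
      have e' := congrArg Subtype.val e
      exact Subtype.ext e'

/-- finite sinks in no square inject -/
theorem nVs_le (hfs : ∀ z, K.FS z → P.NoQ z) : K.nVs ≤ ((hs.tp hE).gx P).nVs := by
  refine oc_le_of_inj (((hs.tp hE).gx P).fo _) (hs.tp hE).f ?_ ?_
  · rintro z ⟨h1, h2, y, h3⟩
    refine ⟨hs.snk_f hE h1, ?_, ?_⟩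
    · have e : stabilizer H ((hs.tp hE).f z) = stabilizer H z := by
        rw [(hs.tp hE).stab_W, hs.f_snk hE h1]
      rw [e]
      exact h2
    · obtain ⟨c, hc⟩ := GX.EC_iff.1 h3
      obtain ⟨x', y', hq⟩ := (hfs z ⟨h1, h2⟩).ncor hc
      exact ⟨_, (hs.el_f hE (el_qn hq)).ec⟩
  · rintro z ⟨h1, -, -⟩ z' ⟨h1', -, -⟩ ⟨k, hk⟩
    rw [← (hs.tp hE).f_smul] at hk
    exact ⟨k, hs.f_inj hE (h1.smul k) h1' hk⟩

/-- sinks with a heavy in-arrow inject -/
theorem nHv_le (hv : ∀ x a b y, Q4 P x a b y → K.ar x a →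
    Finite ↥(stabilizer H ((x, a) : V × V))) : K.nHv ≤ ((hs.tp hE).gx P).nHv := by
  refine oc_le_of_inj (((hs.tp hE).gx P).fo _) (hs.tp hE).f ?_ ?_
  · rintro v ⟨h1, n, h2, h3, h4⟩
    obtain ⟨h5, h6⟩ := hs.heavy_f hE h2 h1 h4
    refine ⟨hs.snk_f hE h1, _, h5, ?_, h6⟩
    obtain ⟨c, hc⟩ := GX.EC_iff.1 h3
    rcases P.cor_iff.1 hc with ⟨x', y', hq⟩ | ⟨y', hq⟩
    · exact (hs.el_f hE (el_qn hq)).ec
    · exact absurd (hv _ _ _ _ hq h2) (by
        have := h4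
        exact not_finite_iff_infinite.2 this)
  · rintro z ⟨h1, -⟩ z' ⟨h1', -⟩ ⟨k, hk⟩
    rw [← (hs.tp hE).f_smul] at hk
    exact ⟨k, hs.f_inj hE (h1.smul k) h1' hk⟩

end SqE

end P45

/-! ### the fold of a state -/

namespace St

variable (C : St)

/-- the tops and partners of a state -/
noncomputable abbrev tp : TpF C.K := C.cls.tp (fun _ h => h)

/-- a heavy arrow lies in a pentagon -/
theorem heavy_qn {x a : C.V} (h : C.K.ar x a) (hi : Infinite ↥(stabilizer C.H ((x, a) : C.V × C.V))) :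
    ∃ b y z, Qn C.P x a b y z := by
  rcases C.K.edge_corner C.lc C.bad (Or.inl h : C.K.E x a) with ⟨b, -, hc⟩ | ⟨b, -, hc⟩
  · rcases C.P.cor_iff.1 hc with ⟨x', y', hq⟩ | ⟨y', hq⟩
    · exact ⟨_, _, _, hq.symm.rot⟩
    · exact absurd (C.hv _ _ _ _ hq.symm.rot h) (not_finite_iff_infinite.2 hi)
  · rcases C.P.cor_iff.1 hc with ⟨x', y', hq⟩ | ⟨y', hq⟩
    · exact ⟨_, _, _, hq⟩
    · exact absurd (C.hv _ _ _ _ hq h) (not_finite_iff_infinite.2 hi)

/-- THE FOLD OF A STATE IS A CANDIDATE (its links are connected by hypothesis) -/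
@[reducible] noncomputable def fold (hl : ∀ v, (C.tp.gx C.P).LC v) : Cd :=
  Cd.ofTp C.K C.P C.tp (C.cls.fpt (fun _ h => h)) C.bad C.min hl

theorem fold_LW (hl : ∀ v, (C.tp.gx C.P).LC v) : (C.fold hl).LW := by
  intro C'
  have h1 : C.K.nVs ≤ (C.fold hl).K.nVs := C.cls.nVs_le (fun _ h => h) C.fs
  have h2 : C.K.nHv ≤ (C.fold hl).K.nHv := C.cls.nHv_le (fun _ h => h) C.hv
  obtain ⟨h3, h4⟩ := C.lw C'
  obtain ⟨h5, h6⟩ := C.lw (C.fold hl)
  have e : (C.fold hl).K.nVs = C.K.nVs := le_antisymm h5 h1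
  have e' : (C.fold hl).K.nHv = C.K.nHv := le_antisymm (h6 e) h2
  rw [e, e']
  exact ⟨h3, h4⟩

/-- a state lies over its fold -/
theorem ovc (hl : ∀ v, (C.tp.gx C.P).LC v) : OvC (C.fold hl) C.K C.P C.tp.f :=
  OvC.ofTp C.K C.P C.tp (C.cls.fpt (fun _ h => h)) C.bad C.min hl C.lc
    (fun v ⟨a, b, y, h⟩ => C.tf v a b y h) C.fs (fun _ _ h hi => C.heavy_qn h hi)

/-- a state and its fold (helper11's form) -/
theorem foldC (hl : ∀ v, (C.tp.gx C.P).LC v) : FoldC (C.fold hl) C.P C.tp.f where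
  area := (C.ovc hl).area
  lc := C.lc
  fs := C.fs
  smul := (C.ovc hl).smul
  arr x a h hi := (C.ovc hl).ar x a h hi
  snk z hz hi := (C.ovc hl).snk z hz hi
  hv _ _ h hi := C.heavy_qn h hi

/-- EVERY DECOMPOSITION OF THE GROUP OF A STATE HAS A GOOD REFINED SYSTEM -/
theorem exists_sys (hl : ∀ v, (C.tp.gx C.P).LC v) (D : Decomp C.H) :
    ∃ (D' : Decomp C.H) (J' : C.V → Set D'.X) (js : JS C.P.pq D' J'),
      (SyQ.mk C.K C.P D' J' js).GdQ C.K.FS ∧
      (∀ x : C.V, Ell C.H D'.X x → Ell C.H D.X x) ∧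
      (∀ x a, C.K.ar x a → Infinite ↥(stabilizer C.H ((x, a) : C.V × C.V)) →
        (SyQ.mk C.K C.P D' J' js).Tog x a) ∧
      (∀ a b, D'.G.Adj a b → ∃ c d, D.G.Adj c d ∧
        stabilizer C.H a ⊓ stabilizer C.H b ≤ stabilizer C.H c ⊓ stabilizer C.H d) := by
  obtain ⟨D', J', js, h1, h2, h3, h4⟩ := (C.ovc hl).exists_sys (C.fold_LW hl) D
  refine ⟨D', J', js, h1, fun x hx => ?_, h3, h4⟩
  by_cases hz : C.tp.Z x
  · obtain ⟨a, b, y, k⟩ := hz
    have := D.tree.connected.nonempty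
    obtain ⟨c, hc⟩ := Pool.Agent.SAG.fix_of_finite D.tact _ (C.tf x a b y k)
    exact ⟨c, hc⟩
  · refine h2 x hx (fun h hh => ?_)
    have e := congrArg Subtype.val hh
    have e' : (C.tp.f x).1 = x := by rw [C.tp.f_not hz]
    have e2 : (h • C.tp.f x).1 = h • (C.tp.f x).1 := rfl
    rw [e2, e'] at e
    exact e

end St

end Pool.Agent.DI
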