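import Pool.Agent.DI.TFo
import Pool.Agent.DI.QK0d

/-!
# DI/TFS: folding the tops over one orbit of the tree in a system

`S.TU u`: tops and partners (`F : TpF S.K`) such that `J T` is one point of the orbit of `u` and this
point is in `J (F.pi T)`. If no pentagon is centred at `u`, then the slice at `u` has squares only, so
it is bipartite, and `A.sy` (the same tree, `J v` for the remaining vertices `v`) is a system for the
fold `F.gx S.P`. `A.conn`: its walls and slices are connected. `A.c5`: no pentagon is centred at `u`.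
`A.nosq`: no square has its four vertices over `u` if the fold degenerates the squares over the orbit
of `u`.
-/

namespace Pool.Agent.DI

open MulAction
open Pool.Agent.SAF (InC orbs FinOrb oc Decomp SAn SA Conv hull dist_edge FinOrb_iff exists_next)
open Pool.Agent.BT (PX PQ JS bey exits lz lz_self lz_ne lz_symm)
open Pool.Agent.BT.TA

namespace SyQ

variable {H V : Type} [Group H] [MulAction H V] (S : SyQ H V)

theorem isC_empty {u : S.X} (h5 : IsEmpty (S.C5 u)) (g : H) : IsEmpty (S.C5 (g • u)) := by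
  refine ⟨fun i => ?_⟩
  obtain ⟨i, hi, h, hI⟩ := i
  refine h5.false ⟨i, hi, g⁻¹ * h, ?_⟩
  have := (S.isC_smul g⁻¹ h i (g • u)).2 hI
  rwa [inv_smul_smul] at this

/-- a slice without pentagons is bipartite -/
theorem exists_par (hc : S.Conn) {u : S.X} (h5 : IsEmpty (S.C5 u)) :
    ∃ γ : S.SV u → ZMod 2, ∀ x y, S.SE u x y → (1 : ZMod 2) = γ x + γ y := by
  obtain ⟨γ, hγ⟩ := (S.k0 hc u).H1 (fun _ _ => 1) (fun _ _ => rfl) (by
    rintro (i | p | p) h
    · exact (h5.false i).elim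
    · show (1 : ZMod 2) + (1 + (1 + (1 + 0))) = 0
      decide
    · show (1 : ZMod 2) + (1 + (1 + (1 + 0))) = 0
      decide)
  exact ⟨γ, fun x y e => hγ x y e⟩

/-- TOPS OVER ONE ORBIT -/
structure TU (u : S.X) where
  F : TpF S.K
  pt : ∀ T, F.Z T → ∃ g : H, S.J T = {g • u} ∧ g • u ∈ S.J (F.pi T)

namespace TU

variable {S} {u : S.X} (A : S.TU u)

theorem nZ_of_two {a b : S.X} {x : V} (hne : a ≠ b) (ha : a ∈ S.J x) (hb : b ∈ S.J x) :
    ¬ A.F.Z x := by
  intro h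
  obtain ⟨g, h1, -⟩ := A.pt x h
  rw [h1, Set.mem_singleton_iff] at ha hb
  exact hne (ha.trans hb.symm)

theorem nZ_cs {a b : S.X} (hab : S.D.G.Adj a b) {x : V} (h : S.Cs a b x) : ¬ A.F.Z x :=
  A.nZ_of_two hab.ne h.1 h.2

/-- the subtree of the root is larger -/
theorem J_sub (v : V) : S.J v ⊆ S.J (A.F.g v) := by
  induction hn : S.K.rk v using Nat.strong_induction_on generalizing v with
  | _ n ih =>
    by_cases hv : A.F.Z v
    · have h1 := A.F.pi_rk v hv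
      obtain ⟨g, h2, h3⟩ := A.pt v hv
      rw [A.F.g_pi hv]
      intro w hw
      rw [h2, Set.mem_singleton_iff] at hw
      rw [hw]
      exact ih _ (by omega) _ rfl h3
    · rw [A.F.g_not hv]

/-- a vertex and its root have the same colour -/
theorem par_g {p : S.X} {γ : S.SV p → ZMod 2} (hγ : ∀ x y, S.SE p x y → (1 : ZMod 2) = γ x + γ y)
    (v : V) (hv : p ∈ S.J v) : γ (S.rho p v) = γ (S.rho p (A.F.g v)) := by
  induction hn : S.K.rk v using Nat.strong_induction_on generalizing v with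
  | _ n ih =>
    by_cases hz : A.F.Z v
    · have h1 := A.F.pi_rk v hz
      obtain ⟨g, h2, h3⟩ := A.pt v hz
      rw [A.F.g_pi hz]
      have hp : p = g • u := by
        rw [h2, Set.mem_singleton_iff] at hv
        exact hv
      rw [← hp] at h3
      obtain ⟨a, ha⟩ := A.F.ex v hz
      have e1 : S.SE p (S.rho p v) (S.rho p a) := S.rho_step' (Or.inl ha) (Or.inl hv)
      have e2 : S.SE p (S.rho p (A.F.pi v)) (S.rho p a) :=
        S.rho_step' (A.F.pi_E v a hz ha) (Or.inl h3)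
      have k1 := hγ _ _ e1
      have k2 := hγ _ _ e2
      have k3 : γ (S.rho p v) = γ (S.rho p (A.F.pi v)) := by
        have : γ (S.rho p v) + γ (S.rho p a) = γ (S.rho p (A.F.pi v)) + γ (S.rho p a) := by
          rw [← k1, ← k2]
        exact add_right_cancel this
      rw [k3]
      exact ih _ (by omega) _ h3 rfl
    · rw [A.F.g_not hz]

variable (hc : S.Conn) (h5 : IsEmpty (S.C5 u))

include hc h5

/-- the roots of adjacent vertices have one common point -/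
theorem one_g {x y : V} (e : S.K.E x y) {p q : S.X} (hp : p ∈ S.J x) (hp' : p ∈ S.J y)
    (hq : q ∈ S.J (A.F.g x)) (hq' : q ∈ S.J (A.F.g y)) : q = p := by
  by_contra hne
  have hne' : p ≠ q := fun k => hne k.symm
  by_cases hz : A.F.Z x ∨ A.F.Z y
  · obtain ⟨h, hh⟩ : ∃ h : H, p = h • u := by
      rcases hz with hz | hz
      · obtain ⟨g, h2, -⟩ := A.pt x hz
        rw [h2, Set.mem_singleton_iff] at hp
        exact ⟨g, hp⟩
      · obtain ⟨g, h2, -⟩ := A.pt y hz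
        rw [h2, Set.mem_singleton_iff] at hp'
        exact ⟨g, hp'⟩
    obtain ⟨γ, hγ⟩ := S.exists_par hc (u := p) (by rw [hh]; exact S.isC_empty h5 h)
    obtain ⟨r, hr, hd⟩ := exists_next S.D.tree hne'
    have hqb : q ∈ bey S.D.G p r := by
      show S.D.G.dist q p = S.D.G.dist q r + 1
      rw [SimpleGraph.dist_comm, hd, SimpleGraph.dist_comm]
    have c1 := conv_cr S.D.tree (S.js.conv (A.F.g x)) hr (A.J_sub x hp) hq (bey_self hr.symm) hqb
    have c2 := conv_cr S.D.tree (S.js.conv (A.F.g y)) hr (A.J_sub y hp') hq' (bey_self hr.symm) hqb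
    have e0 : S.SE p (S.rho p x) (S.rho p y) := S.rho_step' e (Or.inl hp)
    have e1 : S.SE p (S.rho p (A.F.g x)) (Sum.inr ⟨r, hr⟩) := by
      rw [S.rho_near c1.1]
      exact Or.inl (SAr.up (S := S) ⟨A.F.g x, c1.1⟩ ⟨r, hr⟩ c1.2)
    have e2 : S.SE p (S.rho p (A.F.g y)) (Sum.inr ⟨r, hr⟩) := by
      rw [S.rho_near c2.1]
      exact Or.inl (SAr.up (S := S) ⟨A.F.g y, c2.1⟩ ⟨r, hr⟩ c2.2)
    have k0 := hγ _ _ e0
    have k1 := hγ _ _ e1
    have k2 := hγ _ _ e2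
    rw [A.par_g hγ x hp, A.par_g hγ y hp'] at k0
    generalize γ (S.rho p (A.F.g x)) = a at k0 k1
    generalize γ (S.rho p (A.F.g y)) = b at k0 k2
    generalize γ (Sum.inr ⟨r, hr⟩ : S.SV p) = c at k1 k2
    revert k0 k1 k2
    revert a b c
    decide
  · push Not at hz
    rw [A.F.g_not hz.1] at hq
    rw [A.F.g_not hz.2] at hq'
    exact hne (S.one_eq e hq hq' hp hp')

/-- the root is on the same side -/
theorem bey_g {w w' : S.X} (hw : S.D.G.Adj w w') {x y : V} (e : S.K.E x y) (hx : S.Cs w w' x)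
    (hy : S.J y ⊆ bey S.D.G w w') : S.J (A.F.g y) ⊆ bey S.D.G w w' := by
  have hn : ¬ S.Cs w w' (A.F.g y) := by
    intro k
    obtain ⟨p, p0, p1⟩ := S.one_ex e
    have e1 := A.one_g hc h5 e p0 p1 (A.J_sub x hx.1) k.1
    have e2 := A.one_g hc h5 e p0 p1 (A.J_sub x hx.2) k.2
    exact hw.ne (e1.trans e2.symm)
  obtain ⟨l, hl⟩ := S.js.ne y
  exact S.side_of hw hn (A.J_sub y hl) (hy hl)

/-- the family of subtrees of the fold -/
theorem js' : JS (A.F.p45 S.P).pq S.D (fun v : A.F.W => S.J v.1) where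
  conv v := S.js.conv v.1
  ne v := S.js.ne v.1
  smul h v w hw := S.js.smul h v.1 w hw
  one := by
    intro x y e
    obtain ⟨a, b, hab, rfl, rfl⟩ := A.F.gx_E' S.P (a := x) (b := y) e
    obtain ⟨p, p0, p1⟩ := S.one_ex hab
    refine ⟨p, ?_⟩
    ext q
    constructor
    · rintro ⟨h1, h2⟩
      exact A.one_g hc h5 hab p0 p1 h1 h2
    · rintro rfl
      exact ⟨A.J_sub a p0, A.J_sub b p1⟩
  two := by
    intro x w hw s hs t ht v hv
    have key : ∀ s ∈ exits (A.F.p45 S.P).pq S.D.G (fun v : A.F.W => S.J v.1) x w,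
        ∃ s' ∈ exits S.P.pq S.D.G S.J x.1 w, Sum.map A.F.f id s' = s := by
      rintro s (⟨a, rfl, ⟨c, hc1, rfl⟩, ha⟩ | ⟨w', rfl, h1, h2⟩)
      · refine ⟨Sum.inl c, Or.inl ⟨c, rfl, hc1, ?_⟩, rfl⟩
        obtain ⟨p, p0, p1⟩ := S.one_ex (x := x.1) (y := c) (Or.inl hc1)
        have e1 := A.one_g hc h5 (Or.inl hc1) p0 p1 (A.J_sub x.1 hw) ha
        rw [e1]
        exact p1
      · exact ⟨Sum.inr w', Or.inr ⟨w', rfl, h1, h2⟩, rfl⟩
    obtain ⟨s', hs', rfl⟩ := key s hs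
    obtain ⟨t', ht', rfl⟩ := key t ht
    obtain ⟨v', hv', rfl⟩ := key v hv
    rcases S.js.two x.1 w hw s' hs' t' ht' v' hv' with e | e | e
    · exact Or.inl (by rw [e])
    · exact Or.inr (Or.inl (by rw [e]))
    · exact Or.inr (Or.inr (by rw [e]))
  cross := by
    rintro x ⟨-, a, ha, -⟩ w w' hww h1 h2
    obtain ⟨b, hb, hs⟩ := S.js.cross x.1 ⟨a, ha⟩ w w' hww h1 h2
    exact ⟨A.F.f b, ⟨b, hb, rfl⟩, A.bey_g hc h5 hww (Or.inl hb) ⟨h1, h2⟩ hs⟩
  fin := by
    apply Pool.Agent.SAF.FinOrb.of_inj S.js.fin (fun p : A.F.W × S.X => (p.1.1, p.2))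
      (fun p hp => hp)
    rintro a _ b _ ⟨h, e⟩
    have e1 : h • a.1.1 = b.1.1 := congrArg Prod.fst e
    have e2 : h • a.2 = b.2 := congrArg Prod.snd e
    exact ⟨h, Prod.ext (Subtype.ext e1) e2⟩

/-- THE FOLDED SYSTEM -/
noncomputable def sy : SyQ H A.F.W where
  K := A.F.gx S.P
  P := A.F.p45 S.P
  D := S.D
  J := fun v => S.J v.1
  js := A.js' hc h5

omit hc h5 in
/-- images of pentagons -/
theorem qn_map {a q b y z : V} (h : Qn S.P a q b y z) :
    Qn (A.F.p45 S.P) (A.F.f a) (A.F.f q) (A.F.f b) (A.F.f y) (A.F.f z) := by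
  obtain ⟨g, i, j, hi, h⟩ := h
  refine ⟨g, ⟨i, fun k => absurd k hi⟩, j, hi, ?_⟩
  rcases h with ⟨rfl, rfl, rfl, rfl, rfl⟩ | ⟨rfl, rfl, rfl, rfl, rfl⟩
  · left
    simp only [A.F.f_smul]
    exact ⟨rfl, rfl, rfl, rfl, rfl⟩
  · right
    simp only [A.F.f_smul]
    exact ⟨rfl, rfl, rfl, rfl, rfl⟩

omit hc h5 in
/-- images of squares -/
theorem q4_map {a q b y : V} (h : Q4 S.P a q b y) (h1 : A.F.f a ≠ A.F.f b)
    (h2 : A.F.f q ≠ A.F.f y) :
    Q4 (A.F.p45 S.P) (A.F.f a) (A.F.f q) (A.F.f b) (A.F.f y) := by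
  obtain ⟨g, i, j, hi, h⟩ := h
  have hk : A.F.kept S.P i := by
    intro _
    have k1 : A.F.f (S.P.qt i j) ≠ A.F.f (S.P.qt i (j + 2)) := by
      intro e
      have e' : A.F.f (g • S.P.qt i j) = A.F.f (g • S.P.qt i (j + 2)) := by
        rw [A.F.f_smul, A.F.f_smul, e]
      rcases h with ⟨rfl, rfl, rfl, rfl⟩ | ⟨rfl, rfl, rfl, rfl⟩
      · exact h1 e'
      · exact h1 e'.symm
    have k2 : A.F.f (S.P.qt i (j + 1)) ≠ A.F.f (S.P.qt i (j + 3)) := by
      intro e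
      have e' : A.F.f (g • S.P.qt i (j + 1)) = A.F.f (g • S.P.qt i (j + 3)) := by
        rw [A.F.f_smul, A.F.f_smul, e]
      rcases h with ⟨rfl, rfl, rfl, rfl⟩ | ⟨rfl, rfl, rfl, rfl⟩
      · exact h2 e'
      · exact h2 e'
    fin_cases j
    · exact ⟨k1, k2⟩
    · exact ⟨fun e => k2 e.symm, k1⟩
    · exact ⟨fun e => k1 e.symm, fun e => k2 e.symm⟩
    · exact ⟨k2, fun e => k1 e.symm⟩
  refine ⟨g, ⟨i, hk⟩, j, hi, ?_⟩
  rcases h with ⟨rfl, rfl, rfl, rfl⟩ | ⟨rfl, rfl, rfl, rfl⟩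
  · left
    simp only [A.F.f_smul]
    exact ⟨rfl, rfl, rfl, rfl⟩
  · right
    simp only [A.F.f_smul]
    exact ⟨rfl, rfl, rfl, rfl⟩

omit hc h5 in
/-- squares of the fold come from squares -/
theorem q4_lift {a q b y : A.F.W} (h : Q4 (A.F.p45 S.P) a q b y) : ∃ a' q' b' y',
    Q4 S.P a' q' b' y' ∧ A.F.f a' = a ∧ A.F.f q' = q ∧ A.F.f b' = b ∧ A.F.f y' = y ∧
      ¬ (A.F.f a' = A.F.f b' ∨ A.F.f q' = A.F.f y') := by
  obtain ⟨g, ⟨i, hk⟩, j, hi, h⟩ := h
  have hi' : S.P.sq i := hi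
  obtain ⟨k0, k1⟩ := hk hi'
  have inj : ∀ {x y : V}, A.F.f (g • x) = A.F.f (g • y) → A.F.f x = A.F.f y := by
    intro x y e
    rw [A.F.f_smul, A.F.f_smul] at e
    exact smul_left_cancel g e
  have hd : ¬ (A.F.f (g • S.P.qt i j) = A.F.f (g • S.P.qt i (j + 2)) ∨
      A.F.f (g • S.P.qt i (j + 1)) = A.F.f (g • S.P.qt i (j + 3))) := by
    rintro (e | e)
    · have e := inj e
      fin_cases j
      · exact k0 e
      · exact k1 e
      · exact k0 e.symm
      · exact k1 e.symm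
    · have e := inj e
      fin_cases j
      · exact k1 e
      · exact k0 e.symm
      · exact k1 e.symm
      · exact k0 e
  rcases h with ⟨h1, h2, h3, h4⟩ | ⟨h1, h2, h3, h4⟩
  · refine ⟨_, _, _, _, Q4_qt g hi' j, ?_, ?_, ?_, ?_, hd⟩
    · rw [h1, A.F.f_smul]; rfl
    · rw [h2, A.F.f_smul]; rfl
    · rw [h3, A.F.f_smul]; rfl
    · rw [h4, A.F.f_smul]; rfl
  · refine ⟨_, _, _, _, (Q4_qt g hi' j).symm, ?_, ?_, ?_, ?_, fun e => hd (e.imp Eq.symm id)⟩
    · rw [h3, A.F.f_smul]; rfl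
    · rw [h2, A.F.f_smul]; rfl
    · rw [h1, A.F.f_smul]; rfl
    · rw [h4, A.F.f_smul]; rfl

theorem cs_iff {w w' : S.X} {x : A.F.W} : (A.sy hc h5).Cs w w' x ↔ S.Cs w w' x.1 := Iff.rfl

theorem cs_map {w w' : S.X} {x : V} (hx : S.Cs w w' x) : (A.sy hc h5).Cs w w' (A.F.f x) :=
  ⟨A.J_sub x hx.1, A.J_sub x hx.2⟩

/-- crossing cells -/
theorem cc_map {w w' : S.X} (hw : S.D.G.Adj w w') {a q b : V} (ha : S.Cs w w' a)
    (hb : S.Cs w w' b) (hne : a ≠ b) (h : S.CC w w' a q b) :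
    (A.sy hc h5).CC w w' (A.F.f a) (A.F.f q) (A.F.f b) := by
  have key : ∀ {x y : V}, S.K.E x y → S.Cs w w' x → S.J y ⊆ bey S.D.G w w' →
      (A.sy hc h5).J (A.F.f y) ⊆ bey (A.sy hc h5).D.G w w' := fun e hx hy =>
    A.bey_g hc h5 hw e hx hy
  have key' : ∀ {x y : V}, S.K.E x y → S.Cs w w' x → S.J y ⊆ bey S.D.G w' w →
      (A.sy hc h5).J (A.F.f y) ⊆ bey (A.sy hc h5).D.G w' w := fun e hx hy =>
    A.bey_g hc h5 hw.symm e hx.swap hy
  obtain ⟨h1, ⟨y, z, hp, h2, h3⟩ | ⟨y, hp, h2⟩⟩ := h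
  · exact ⟨key hp.E1 ha h1, Or.inl ⟨A.F.f y, A.F.f z, A.qn_map hp, key' hp.E3 hb h2,
      key' hp.E5.symm ha h3⟩⟩
  · refine ⟨key hp.E1 ha h1, Or.inr ⟨A.F.f y, A.q4_map hp ?_ ?_, key' hp.E3 hb h2⟩⟩
    · rw [A.F.f_not (A.nZ_cs hw ha), A.F.f_not (A.nZ_cs hw hb)]
      intro e
      exact hne (congrArg Subtype.val e)
    · intro e
      obtain ⟨l, hl⟩ := S.js.ne (A.F.f q).1
      have k1 : l ∈ bey S.D.G w w' := A.bey_g hc h5 hw hp.E1 ha h1 hl
      rw [e] at hl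
      have k2 : l ∈ bey S.D.G w' w := A.bey_g hc h5 hw.symm hp.E3 hb.swap h2 hl
      exact bey_not k1 k2

theorem pw_map {w w' : S.X} {a b : V} (h : S.PW w w' a b) :
    A.F.f a = A.F.f b ∨ (A.sy hc h5).PW w w' (A.F.f a) (A.F.f b) := by
  by_cases hne : a = b
  · exact Or.inl (by rw [hne])
  · right
    obtain ⟨h1, h2, h3, q, h4 | h4⟩ := h
    · exact ⟨h1, A.cs_map hc h5 h2, A.cs_map hc h5 h3, A.F.f q,
        Or.inl (A.cc_map hc h5 h1 h2 h3 hne h4)⟩
    · exact ⟨h1, A.cs_map hc h5 h2, A.cs_map hc h5 h3, A.F.f q,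
        Or.inr (A.cc_map hc h5 h1.symm h2.swap h3.swap hne h4)⟩

/-- WALLS AND SLICES OF THE FOLDED SYSTEM ARE CONNECTED -/
theorem conn : (A.sy hc h5).Conn where
  wall := by
    intro w w' hww x z hx hz
    have k := hc.wall w w' hww x.1 z.1 hx hz
    have key : ∀ a b, Relation.EqvGen (S.PW w w') a b →
        Relation.EqvGen ((A.sy hc h5).PW w w') (A.F.f a) (A.F.f b) := by
      intro a b k
      induction k with
      | rel a b h =>
        rcases A.pw_map hc h5 h with e | e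
        · rw [e]; exact Relation.EqvGen.refl _
        · exact Relation.EqvGen.rel _ _ e
      | refl a => exact Relation.EqvGen.refl _
      | symm a b _ ih => exact ih.symm
      | trans a b c _ _ i1 i2 => exact i1.trans _ _ _ i2
    have := key _ _ k
    rwa [A.F.f_W, A.F.f_W] at this
  slice := by
    intro w x z hx hz
    have k := hc.slice w x.1 z.1 hx hz
    have key : ∀ a b, Relation.EqvGen (S.SR w) a b →
        Relation.EqvGen ((A.sy hc h5).SR w) (A.F.f a) (A.F.f b) := by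
      intro a b k
      induction k with
      | rel a b h =>
        rcases h with ⟨e, h1, h2⟩ | ⟨w', h⟩
        · exact Relation.EqvGen.rel _ _ (Or.inl ⟨A.F.gx_E S.P e, A.J_sub a h1, A.J_sub b h2⟩)
        · rcases A.pw_map hc h5 h with e | e
          · rw [e]; exact Relation.EqvGen.refl _
          · exact Relation.EqvGen.rel _ _ (Or.inr ⟨w', e⟩)
      | refl a => exact Relation.EqvGen.refl _
      | symm a b _ ih => exact ih.symm
      | trans a b c _ _ i1 i2 => exact i1.trans _ _ _ i2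
    have := key _ _ k
    rwa [A.F.f_W, A.F.f_W] at this
  crossed := by
    intro w w' hww
    obtain ⟨x, hx⟩ := hc.crossed w w' hww
    exact ⟨A.F.f x, A.cs_map hc h5 hx⟩

/-- the centres do not change -/
theorem c5 : IsEmpty ((A.sy hc h5).C5 u) := by
  refine ⟨fun i => ?_⟩
  obtain ⟨i, hi, h, hI⟩ := i
  have hi' : ¬ S.P.sq i.1 := hi
  obtain ⟨c, hcc⟩ := S.cen (v := S.tr h i.1) (S.tr_E h hi')
  have h1 : (A.sy hc h5).IsC ((A.sy hc h5).tr h i) c := by
    intro k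
    have e : ∀ k, (A.sy hc h5).tr h i k = A.F.f (S.tr h i.1 k) := by
      intro k
      show h • A.F.f (S.P.pt i.1 k) = A.F.f (h • S.P.pt i.1 k)
      rw [A.F.f_smul]
    rw [e, e]
    exact (hcc k).imp (fun k => A.J_sub _ k) (fun k => A.J_sub _ k)
  have h2 : c = u := (A.sy hc h5).isC_unique ((A.sy hc h5).tr_E h hi) h1 hI
  refine h5.false ⟨i.1, hi', h, ?_⟩
  intro k
  have h3 := hcc k
  rw [h2] at h3
  exact h3

/-- NO SQUARE OVER `u` IS LEFT -/
theorem nosq (hd : ∀ (g : H) a q b y, Q4 S.P a q b y → g • u ∈ S.J a → g • u ∈ S.J q →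
      g • u ∈ S.J b → g • u ∈ S.J y → A.F.f a = A.F.f b ∨ A.F.f q = A.F.f y)
    (g : H) (a q b y : A.F.W) (h : Q4 (A.sy hc h5).P a q b y) (ha : g • u ∈ S.J a.1)
    (hq : g • u ∈ S.J q.1) (hb : g • u ∈ S.J b.1) (hy : g • u ∈ S.J y.1) : False := by
  obtain ⟨a', q', b', y', h', rfl, rfl, rfl, rfl, hn⟩ := A.q4_lift h
  have key : ∀ {x z : V}, S.K.E x z → g • u ∈ S.J (A.F.f x).1 → g • u ∈ S.J (A.F.f z).1 →
      g • u ∈ S.J x := by
    intro x z e h1 h2
    obtain ⟨p, p0, p1⟩ := S.one_ex e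
    rw [A.one_g hc h5 e p0 p1 h1 h2]
    exact p0
  exact hn (hd g a' q' b' y' h' (key h'.E1 ha hq) (key h'.E2 hq hb) (key h'.E3 hb hy)
    (key h'.E4 hy ha))

end TU

end SyQ

end Pool.Agent.DI
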