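import Pool.Agent.DI.QKF
import Pool.Agent.DI.TFS
import Pool.Agent.DI.TpS
import Pool.Agent.DI.SeenQ
import Pool.Agent.DI.OEIdx

/-!
# DI/OQIdx: index two, complexes with pentagons and squares

`SyQ.idx_two_ns`: connected system with one orbit of edges (`w u`), `u` not in the orbit of `w`, the
stabiliser of `u` in `C`, no pentagon centred at `u`, no square with its four vertices over `u`,
infinite edge group, and no vertex over `u` is fixed by the stabiliser of `u`. Then `u` has exactly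
two neighbours. `SyQ.idx_two`: the same with tops (`A : S.TU u`) whose fold degenerates the squares
over the orbit of `u`. `SyQ.idx_two_sq`: the same for squares in the static class (`S.P.SqT`).
`SyQ.no_fix`, `SyQ.heavy_fin`: the last hypothesis for good systems.
-/

namespace Pool.Agent.DI

open MulAction
open Pool.Agent.SAF (InC SA orbs FinOrb oc Decomp SAn Conv TAct exists_next isTree_of_cut)
open Pool.Agent.BT (PX PQ JS bey exits Ell Hyp mst)
open Pool.Agent.BT.TA

namespace SyQ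

variable {H V : Type} [Group H] [MulAction H V] {S : SyQ H V}

/-- the fate of a square with a vertex not over `u` -/
theorem far_sq {u : S.X} {O : S.OR u} (hO : ∀ e q, ¬ O.op e q) {x q x' y : V}
    (h : Q4 S.P x q x' y) (hx : u ∈ S.J x) (hx' : u ∈ S.J x') (hy : u ∉ S.J y)
    (hne : S.rho u q ≠ S.rho u y) :
    S.fq u O (S.rho u x) = S.fq u O (S.rho u x') ∨
      S.fq u O (S.rho u q) = S.fq u O (S.rho u y) := by
  have ha := S.dir_adj hy
  have hb := S.dir_bey hy
  have c1 : S.Cs u (S.dir u y) x := ⟨hx, S.dir_cross h.E4.symm hx hy⟩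
  have c2 : S.Cs u (S.dir u y) x' := ⟨hx', S.dir_cross h.E3 hx' hy⟩
  have nq : ¬ S.Cs u (S.dir u y) q := S.adj_nc ha h.E1 c1
  have sq : S.J q ⊆ bey S.D.G (S.dir u y) u := by
    rcases S.side_or ha nq with k | k
    · exfalso
      apply hne
      rw [S.rho_bey ha k, S.rho_far hy]
    · exact k
  have hq : S.Qs u (S.dir u y) q x x' := ⟨ha, c1, c2, sq, Or.inr ⟨y, h, hb⟩⟩
  rcases fold_sq (O := O) hq with k | k | k
  · exact Or.inl k
  · right
    rw [k, S.rho_far hy]
  · exact absurd k.1 (hO _ _)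

/-- no square is kept -/
theorem ns_not_kept {u : S.X} {O : S.OR u} (hO : ∀ e q, ¬ O.op e q)
    (h4 : ∀ a q b y, Q4 S.P a q b y → u ∈ S.J a → u ∈ S.J q → u ∈ S.J b → u ∈ S.J y → False)
    (p : S.C4 u ⊕ S.C4q u) : ¬ S.kept u O p := by
  rintro ⟨h0, h1⟩
  rcases p with p | p
  · have hs := p.sq
    obtain ⟨e, hs⟩ : ∃ e, S.Sq u e (S.tr p.g p.1.1 p.1.2.1) (S.tr p.g p.1.1 (p.1.2.1 + 1))
        (S.tr p.g p.1.1 (p.1.2.1 + 2)) (S.tr p.g p.1.1 (p.1.2.1 + 3))
        (S.tr p.g p.1.1 (p.1.2.1 + 4)) := ⟨_, hs⟩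
    obtain ⟨ha, c0, c2, s1, s3, s4⟩ := hs
    have hq : S.Qs u e (S.tr p.g p.1.1 (p.1.2.1 + 1)) (S.tr p.g p.1.1 p.1.2.1)
        (S.tr p.g p.1.1 (p.1.2.1 + 2)) :=
      ⟨ha, c0, c2, s1, Or.inl ⟨_, _, Qn_pt p.g p.2.1 p.1.2.1, s3, s4⟩⟩
    rcases fold_sq (O := O) hq with k | k | k
    · exact h0 k
    · apply h1
      show S.fq u O (S.rho u (S.tr p.g p.1.1 (p.1.2.1 + 1))) =
        S.fq u O (S.rho u (S.tr p.g p.1.1 (p.1.2.1 + 3)))
      rw [k, S.rho_bey ha s3]
    · exact absurd k.1 (hO _ _)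
  · have hnd := p.nd
    have hE := S.tq_E p.g p.2.1
    have st := S.nd_step hE hnd
    have hQ := fun k => Q4_qt (P := S.P) p.g p.2.1 k
    have h0' : S.fq u O (S.rho u (S.tq p.g p.1.1 0)) ≠ S.fq u O (S.rho u (S.tq p.g p.1.1 2)) := h0
    have h1' : S.fq u O (S.rho u (S.tq p.g p.1.1 1)) ≠ S.fq u O (S.rho u (S.tq p.g p.1.1 3)) := h1
    have n0 := hnd.1
    have n1 := hnd.2
    have st0 : u ∈ S.J (S.tq p.g p.1.1 0) ∨ u ∈ S.J (S.tq p.g p.1.1 1) := st 0
    have st1 : u ∈ S.J (S.tq p.g p.1.1 1) ∨ u ∈ S.J (S.tq p.g p.1.1 2) := st 1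
    have st2 : u ∈ S.J (S.tq p.g p.1.1 2) ∨ u ∈ S.J (S.tq p.g p.1.1 3) := st 2
    have st3 : u ∈ S.J (S.tq p.g p.1.1 3) ∨ u ∈ S.J (S.tq p.g p.1.1 0) := st 3
    have q0 : Q4 S.P (S.tq p.g p.1.1 0) (S.tq p.g p.1.1 1) (S.tq p.g p.1.1 2)
      (S.tq p.g p.1.1 3) := hQ 0
    by_cases a0 : u ∈ S.J (S.tq p.g p.1.1 0)
    · by_cases a1 : u ∈ S.J (S.tq p.g p.1.1 1)
      · by_cases a2 : u ∈ S.J (S.tq p.g p.1.1 2)
        · by_cases a3 : u ∈ S.J (S.tq p.g p.1.1 3)
          · exact h4 _ _ _ _ q0 a0 a1 a2 a3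
          · rcases far_sq hO q0 a0 a2 a3 n1 with k | k
            · exact h0' k
            · exact h1' k
        · have a3 := st2.resolve_left a2
          rcases far_sq hO q0.rot.rot.rot a3 a1 a2 n0 with k | k
          · exact h1' k.symm
          · exact h0' k
      · have a2 := st1.resolve_left a1
        rcases far_sq hO q0.rot.rot a2 a0 a1 n1.symm with k | k
        · exact h0' k.symm
        · exact h1' k.symm
    · have a1 := st0.resolve_left a0
      have a3 := st3.resolve_right a0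
      rcases far_sq hO q0.rot a1 a3 a0 n0.symm with k | k
      · exact h1' k
      · exact h0' k.symm

theorem t_fix {u : S.X} {O : S.OR u} {e : S.EV u} {g : ↥(stabilizer H u)} :
    g • S.fq u O (Sum.inr e) = S.fq u O (Sum.inr e) ↔ g.1 • e.1 = e.1 := by
  rw [← fq_smul]
  constructor
  · intro h
    have h1 : g • e = e := Sk.inr.1 (fq_inr.1 h)
    exact congrArg Subtype.val h1
  · intro h
    have h1 : g • e = e := Subtype.ext h
    exact congrArg (fun z => S.fq u O (Sum.inr z)) h1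

end SyQ

/-- the unique neighbour: impossible -/
theorem Decomp.not_leaf {H : Type} [Group H] (D : Decomp H) {w u : D.X} (hwu : D.G.Adj w u)
    (hone : ∀ a b, D.G.Adj a b → Eo D w u a b) (hn : ∀ h : H, h • w ≠ u)
    (h1 : ∀ y, D.G.Adj u y → y = w) : False := by
  have hn' : ∀ h : H, h • u ≠ w := by
    intro h e
    apply hn h⁻¹
    rw [← e, inv_smul_smul]
  have claim : ∀ x, x = w ∨ D.G.Adj w x := by
    intro x
    obtain ⟨p⟩ := D.tree.connected.preconnected x w
    induction p with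
    | nil => exact Or.inl rfl
    | @cons x y z e p ih =>
      rcases ih hwu hone hn h1 hn' with rfl | k
      · exact Or.inr e.symm
      · obtain ⟨h, ⟨k1, k2⟩ | ⟨k1, k2⟩⟩ := hone _ _ k
        · left
          have k3 := D.adj_smul h⁻¹ _ _ e.symm
          rw [← k2, inv_smul_smul] at k3
          have k4 := h1 _ k3
          rw [inv_smul_eq_iff] at k4
          rw [k4, k1]
        · exact absurd k2 (hn' h)
  obtain ⟨h, hh⟩ := D.nofix w
  rcases claim (h • w) with k | k
  · exact hh k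
  · obtain ⟨g, ⟨k1, k2⟩ | ⟨k1, k2⟩⟩ := hone _ _ k
    · apply hn' (h⁻¹ * g)
      rw [mul_smul, k2, inv_smul_smul]
    · exact hn' g k2

namespace SyQ

variable {H V : Type} [Group H] [MulAction H V] {S : SyQ H V}

/-- INDEX TWO, no square over `u` -/
theorem idx_two_ns (hc : S.Conn) {w u : S.X} (hwu : S.D.G.Adj w u)
    (hone : ∀ a b, S.D.G.Adj a b → Eo S.D w u a b) (hn : ∀ h : H, h • w ≠ u)
    (hU : InC ↥(stabilizer H u)) (h5 : IsEmpty (S.C5 u))
    (h4 : ∀ a q b y, Q4 S.P a q b y → u ∈ S.J a → u ∈ S.J q → u ∈ S.J b → u ∈ S.J y → False)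
    (hinf : Infinite ↥(stabilizer H w ⊓ stabilizer H u))
    (hfix : ∀ x, u ∈ S.J x → ¬ stabilizer H u ≤ stabilizer H x) :
    ∃ w', w' ≠ w ∧ S.D.G.Adj u w' ∧ ∀ y, S.D.G.Adj u y → y = w ∨ y = w' := by
  have nb : ∀ y, S.D.G.Adj u y → ∃ g : ↥(stabilizer H u), g.1 • w = y := by
    intro y hy
    obtain ⟨h, ⟨k1, k2⟩ | ⟨k1, k2⟩⟩ := hone _ _ hy
    · exact absurd k1 (hn h)
    · exact ⟨⟨h, k2⟩, k1⟩
  -- at least two
  obtain ⟨w', hw', hne⟩ : ∃ w', S.D.G.Adj u w' ∧ w' ≠ w := by
    by_contra hcon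
    push Not at hcon
    exact Decomp.not_leaf S.D hwu hone hn hcon
  refine ⟨w', hne, hw', ?_⟩
  let O : S.OR u := OR.none S u
  have hO : ∀ e q, ¬ O.op e q := fun _ _ k => k
  -- a fixed vertex
  have hidx : (stabilizer ↥(stabilizer H u) (S.fq u O (Sum.inr ⟨w, hwu.symm⟩))).FiniteIndex := by
    rcases BT.finite_or_index hU (stabilizer ↥(stabilizer H u)
      (S.fq u O (Sum.inr ⟨w, hwu.symm⟩))) with h | h
    · exfalso
      have : Infinite ↥(stabilizer ↥(stabilizer H u) (S.fq u O (Sum.inr ⟨w, hwu.symm⟩))) := by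
        refine Infinite.of_injective (fun g : ↥(stabilizer H w ⊓ stabilizer H u) =>
          (⟨⟨g.1, g.2.2⟩, t_fix.2 g.2.1⟩ :
            ↥(stabilizer ↥(stabilizer H u) (S.fq u O (Sum.inr ⟨w, hwu.symm⟩))))) ?_
        intro a b e
        have e' := congrArg (fun t => t.1.1) e
        exact Subtype.ext e'
      exact not_finite_iff_infinite.2 this h
    · exact h
  have hI : IsEmpty (S.kf hc u O).I := by
    constructor
    rintro (i | p)
    · exact h5.false i
    · exact ns_not_kept hO h4 p.1 p.2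
  obtain ⟨c, hcf⟩ := gx_fix (S.kf hc u O) hI (S.fq u O (Sum.inr ⟨w, hwu.symm⟩)) (by
    have h4 : Finite (MulAction.orbit ↥(stabilizer H u) (S.fq u O (Sum.inr ⟨w, hwu.symm⟩))) :=
      Finite.of_equiv _ (MulAction.orbitEquivQuotientStabilizer _ _).symm
    exact Set.toFinite _)
  -- `c` is no sink `t`
  have hct : ∀ e : S.EV u, c ≠ S.fq u O (Sum.inr e) := by
    rintro e rfl
    have key : ∀ g : ↥(stabilizer H u), g.1 • e.1 = e.1 := fun g => t_fix.1 (hcf g)
    obtain ⟨g0, k0⟩ := nb _ e.2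
    have hw0 : w = e.1 := by
      have := key g0⁻¹
      rw [← this, ← k0]
      show w = g0.1⁻¹ • g0.1 • w
      rw [inv_smul_smul]
    obtain ⟨g1, k1⟩ := nb _ hw'
    apply hne
    rw [← k1, hw0]
    exact key g1
  -- `c` has an arrow to a sink `t`
  have har : ∃ e : S.EV u, S.arQ u O c (S.fq u O (Sum.inr e)) := by
    by_contra hcon
    push Not at hcon
    have hmem : ∀ (y : S.NV u) (e : S.EV u), S.fq u O (Sum.inl y) = c → e.1 ∉ S.J y.1 := by
      intro y e hy he
      apply hcon e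
      have := arQ_up (S := S) (O := O) e.2 (⟨y.2, he⟩ : S.Cs u e.1 y.1)
      rw [S.rho_near y.2] at this
      rw [← hy]
      exact this
    obtain ⟨a, ha⟩ := fq_surj (S := S) u O c
    obtain ⟨y, rfl⟩ : ∃ y : S.NV u, a = Sum.inl y := by
      rcases a with y | e
      · exact ⟨y, rfl⟩
      · exact absurd ha.symm (hct e)
    -- the class is a singleton
    have hfr : ∀ a b : S.SV u, S.FR u O a b → S.fq u O a ≠ c ∧ S.fq u O b ≠ c := by
      intro a b k
      have e := k.fq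
      have h1 : S.fq u O a ≠ c := by
        intro ha
        cases k with
        | mer e' q x x' h1 h2 => exact hmem x ⟨e', h1.adj⟩ ha h1.l.2
        | par e' q x x' h1 h2 => exact absurd h2 (hO _ _)
        | dia q e' h1 => exact hct e' (by rw [← e, ha])
      exact ⟨h1, fun h => h1 (by rw [e, h])⟩
    have hcls : ∀ a b : S.SV u, Relation.EqvGen (S.FR u O) a b → S.fq u O a = c → a = b := by
      intro a b k
      have : (S.fq u O a = c → a = b) ∧ (S.fq u O b = c → a = b) := by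
        induction k with
        | rel a b k => exact ⟨fun h => absurd h (hfr a b k).1, fun h => absurd h (hfr a b k).2⟩
        | refl a => exact ⟨fun _ => rfl, fun _ => rfl⟩
        | symm a b _ ih => exact ⟨fun h => (ih.2 h).symm, fun h => (ih.1 h).symm⟩
        | trans a b d _ _ h1 h2 =>
          refine ⟨fun h => ?_, fun h => ?_⟩
          · have e := h1.1 h
            rw [e] at h
            rw [e]
            exact h2.1 h
          · have e := h2.2 h
            rw [← e] at h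
            rw [← e]
            exact h1.2 h
      exact this.1
    apply hfix y.1 y.2
    intro g hg
    have h1 := hcf ⟨g, hg⟩
    rw [← ha, ← fq_smul] at h1
    have h2 := hcls _ _ (fq_eq.1 h1) (by rw [h1]; exact ha)
    exact congrArg Subtype.val (Sum.inl.inj h2)
  obtain ⟨e, he⟩ := har
  obtain ⟨g0, k0⟩ := nb _ e.2
  have hall : ∀ y (hy : S.D.G.Adj u y), S.arQ u O c (S.fq u O (Sum.inr ⟨y, hy⟩)) := by
    intro y hy
    obtain ⟨g, k⟩ := nb _ hy
    have h1 := arQ_smul (S := S) (g * g0⁻¹) he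
    rw [hcf, ← fq_smul] at h1
    have h2 : (g * g0⁻¹) • e = ⟨y, hy⟩ := by
      apply Subtype.ext
      show (g.1 * g0.1⁻¹) • e.1 = y
      rw [← k0, mul_smul, inv_smul_smul, k]
    have h3 : (g * g0⁻¹) • (Sum.inr e : S.SV u) = Sum.inr ⟨y, hy⟩ := congrArg Sum.inr h2
    rw [h3] at h1
    exact h1
  have inj : ∀ y (hy : S.D.G.Adj u y) z (hz : S.D.G.Adj u z),
      S.fq u O (Sum.inr ⟨y, hy⟩) = S.fq u O (Sum.inr ⟨z, hz⟩) → y = z := by
    intro y hy z hz k
    have := Sk.inr.1 (fq_inr.1 k)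
    exact congrArg Subtype.val this
  intro y hy
  rcases arQ_two (hall w hwu.symm) (hall w' hw') (hall y hy) with k | k | k
  · exact absurd (inj _ _ _ _ k).symm hne
  · exact Or.inr (inj _ _ _ _ k).symm
  · exact Or.inl (inj _ _ _ _ k).symm

/-- INDEX TWO -/
theorem idx_two (hc : S.Conn) {w u : S.X} (hwu : S.D.G.Adj w u)
    (hone : ∀ a b, S.D.G.Adj a b → Eo S.D w u a b) (hn : ∀ h : H, h • w ≠ u)
    (hU : InC ↥(stabilizer H u)) (h5 : IsEmpty (S.C5 u)) (A : S.TU u)
    (hd : ∀ (g : H) a q b y, Q4 S.P a q b y → g • u ∈ S.J a → g • u ∈ S.J q →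
      g • u ∈ S.J b → g • u ∈ S.J y → A.F.f a = A.F.f b ∨ A.F.f q = A.F.f y)
    (hinf : Infinite ↥(stabilizer H w ⊓ stabilizer H u))
    (hfix : ∀ x, u ∈ S.J x → ¬ stabilizer H u ≤ stabilizer H x) :
    ∃ w', w' ≠ w ∧ S.D.G.Adj u w' ∧ ∀ y, S.D.G.Adj u y → y = w ∨ y = w' := by
  refine idx_two_ns (S := A.sy hc h5) (A.conn hc h5) hwu hone hn hU (A.c5 hc h5) ?_ hinf ?_
  · intro a q b y h ha hq hb hy
    refine A.nosq hc h5 hd 1 a q b y h ?_ ?_ ?_ ?_
    · rw [one_smul]; exact ha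
    · rw [one_smul]; exact hq
    · rw [one_smul]; exact hb
    · rw [one_smul]; exact hy
  · intro x hx h
    apply hfix x.1 hx
    rw [← A.F.stab_W x]
    exact h

/-! ### the static class -/

variable (S) in
/-- tops of squares over the orbit of `u` -/
def ZU (u : S.X) (T : V) : Prop := ∃ a b y, S.P.Top T a b y ∧ ∃ g : H, g • u ∈ S.J T ∧
  g • u ∈ S.J a ∧ g • u ∈ S.J b ∧ g • u ∈ S.J y

theorem ZU.smul {u : S.X} (h : H) (T : V) (k : S.ZU u T) : S.ZU u (h • T) := by
  obtain ⟨a, b, y, k1, g, h1, h2, h3, h4⟩ := k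
  refine ⟨h • a, h • b, h • y, k1.smul h, h * g, ?_⟩
  rw [mul_smul]
  exact ⟨S.js.smul h _ _ h1, S.js.smul h _ _ h2, S.js.smul h _ _ h3, S.js.smul h _ _ h4⟩

theorem ZU.top {u : S.X} (T : V) (k : S.ZU u T) : ∃ a b y, S.P.Top T a b y := by
  obtain ⟨a, b, y, k, -⟩ := k
  exact ⟨a, b, y, k⟩

/-- the tops of the static class over the orbit of `u` -/
noncomputable def _root_.Pool.Agent.DI.P45.SqT.tu (hT : S.P.SqT) (u : S.X) : S.TU u where
  F := hT.tpF (S.ZU u) ZU.smul ZU.top
  pt T hz := by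
    obtain ⟨a, b, y, k, g, h1, h2, h3, h4⟩ := hz
    refine ⟨g, ?_, ?_⟩
    · ext l
      constructor
      · intro hl
        by_contra hne
        have hne' : g • u ≠ l := fun e => hne e.symm
        obtain ⟨r, hr, hd⟩ := exists_next S.D.tree hne'
        have hb : l ∈ bey S.D.G (g • u) r := by
          show S.D.G.dist l (g • u) = S.D.G.dist l r + 1
          rw [SimpleGraph.dist_comm, hd, SimpleGraph.dist_comm]
        have c := conv_cr S.D.tree (S.js.conv T) hr h1 hl (bey_self hr.symm) hb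
        exact hT.nab _ _ _ _ k (ar_ar_eq h1 k.2.1 h2 k.2.2 h3 hr c.2)
      · rintro rfl
        exact h1
    · have e : (hT.tpF (S.ZU u) ZU.smul ZU.top).pi T = y := hT.pt_eq k
      rw [e]
      exact h4

/-- INDEX TWO, squares in the static class -/
theorem idx_two_sq (hc : S.Conn) (hT : S.P.SqT) {w u : S.X} (hwu : S.D.G.Adj w u)
    (hone : ∀ a b, S.D.G.Adj a b → Eo S.D w u a b) (hn : ∀ h : H, h • w ≠ u)
    (hU : InC ↥(stabilizer H u)) (h5 : IsEmpty (S.C5 u))
    (hinf : Infinite ↥(stabilizer H w ⊓ stabilizer H u))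
    (hfix : ∀ x, u ∈ S.J x → ¬ stabilizer H u ≤ stabilizer H x) :
    ∃ w', w' ≠ w ∧ S.D.G.Adj u w' ∧ ∀ y, S.D.G.Adj u y → y = w ∨ y = w' := by
  refine idx_two hc hwu hone hn hU h5 (hT.tu u) ?_ hinf hfix
  intro g a q b y h ha hq hb hy
  refine hT.deg (S.ZU u) ZU.smul ZU.top h ?_
  intro T a' b' y' k k1 k2 k3 k4
  have key : ∀ z, (z = a ∨ z = q ∨ z = b ∨ z = y) → g • u ∈ S.J z := by
    rintro z (rfl | rfl | rfl | rfl)
    · exact ha
    · exact hq
    · exact hb
    · exact hy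
  exact ⟨a', b', y', k, g, key T k1, key a' k3, key b' k4, key y' k2⟩

/-! ### good systems -/

/-- no vertex over `u` is fixed by the stabiliser of `u` -/
theorem no_fix (hone : ∀ z, (∀ a, ¬ S.K.ar z a) → Ell H S.X z → ∃ p, S.J z = {p}) {u : S.X}
    (hUinf : Infinite ↥(stabilizer H u))
    (hheavy : ∀ x a, S.K.ar x a → u ∈ S.J x → Finite ↥(stabilizer H x))
    (hsnk : ∀ x, (∀ a, ¬ S.K.ar x a) → S.J x = {u} → stabilizer H x ≠ stabilizer H u)
    (x : V) (hx : u ∈ S.J x) : ¬ stabilizer H u ≤ stabilizer H x := by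
  intro hle
  have hxinf : Infinite ↥(stabilizer H x) :=
    Infinite.of_injective _ (Subgroup.inclusion_injective hle)
  by_cases hs : ∃ a, S.K.ar x a
  · obtain ⟨a, ha⟩ := hs
    exact not_finite_iff_infinite.2 hxinf (hheavy x a ha hx)
  · push Not at hs
    have hell : Ell H S.X x := by
      by_contra hcon
      have hy : Hyp S.X (stabilizer H x) := by
        unfold Ell at hcon
        push Not at hcon
        exact hcon
      have hf : Finite ↥(stabilizer H u) :=
        BT.finite_of_hyp S.D.tact (S.K.stab x) hy hle (w := u) (fun b hb => hb)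
      exact not_finite_iff_infinite.2 hUinf hf
    obtain ⟨p, hp⟩ := hone x hs hell
    have hup : u = p := by
      rw [hp, Set.mem_singleton_iff] at hx
      exact hx
    rw [← hup] at hp
    refine hsnk x hs hp (le_antisymm ?_ hle)
    intro g hg
    have h1 := S.js.smul g x u hx
    rw [show g • x = x from hg, hp, Set.mem_singleton_iff] at h1
    exact h1

/-- no heavy vertex with an arrow is over a vertex which is no centre -/
theorem heavy_fin {u : S.X} (h5 : IsEmpty (S.C5 u))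
    (htog : ∀ x a, S.K.ar x a → Infinite ↥(stabilizer H ((x, a) : V × V)) → S.Tog x a)
    (hpent : ∀ x a, S.K.ar x a → Infinite ↥(stabilizer H ((x, a) : V × V)) →
      ∃ b y z, Qn S.P x a b y z)
    (x a : V) (ha : S.K.ar x a) (hx : u ∈ S.J x) : Finite ↥(stabilizer H x) := by
  by_contra hcon
  rw [not_finite_iff_infinite] at hcon
  have hi := inf_pole (K := S.K) ha hcon
  obtain ⟨p, h1, h2⟩ := htog x a ha hi
  obtain ⟨b, y, z, hq⟩ := hpent x a ha hi
  rw [h1, Set.mem_singleton_iff] at hx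
  obtain ⟨g, i, j, hi', hh⟩ := hq
  obtain ⟨c, hcc⟩ := S.cen (v := S.tr g i) (S.tr_E g hi')
  have hcu : c = u := by
    rcases hh with ⟨rfl, rfl, -, -, -⟩ | ⟨-, e1, e2, -, -⟩
    · rcases hcc j with k | k
      · have k : c ∈ S.J (g • S.P.pt i j) := k
        rw [h1, Set.mem_singleton_iff] at k
        exact k.trans hx.symm
      · have k : c ∈ S.J (g • S.P.pt i (j + 1)) := k
        rw [h2, Set.mem_singleton_iff] at k
        exact k.trans hx.symm
    · have e : j + 1 + 1 = j + 2 := by rw [add_assoc]; rfl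
      rcases hcc (j + 1) with k | k
      · have k : c ∈ S.J (g • S.P.pt i (j + 1)) := k
        rw [← e1, h2, Set.mem_singleton_iff] at k
        exact k.trans hx.symm
      · have k : c ∈ S.J (g • S.P.pt i (j + 1 + 1)) := k
        rw [e, ← e2, h1, Set.mem_singleton_iff] at k
        exact k.trans hx.symm
  refine h5.false ⟨i, hi', g, ?_⟩
  intro k
  rw [← hcu]
  exact hcc k

end SyQ

end Pool.Agent.DI
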