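import Pool.Agent.DI.OneEdgeQ
import Pool.Agent.DI.OQIdx

/-!
# DI/OneEdgeR: `Cd.LW.one_edgeQ`, one-edge systems for complexes with pentagons and squares
-/

namespace Pool.Agent.DI

open MulAction
open Pool.Agent.SAF (InC orbs FinOrb oc Decomp SAn SA Conv)
open Pool.Agent.BT (PX PQ JS bey exits Ell mst)

/-- ONE-EDGE SYSTEMS EXIST, pentagons and squares -/
theorem Cd.LW.one_edgeQ {C : Cd} (hC : C.LW) {V : Type} [MulAction C.H V] {K : GX C.H V}
    {P : P45 K} {f : V → C.V} (F : FoldC C P f) (hT : P.SqT) :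
    ∃ (D : Decomp C.H) (J : V → Set D.X) (js : JS P.pq D J),
      (SyQ.mk K P D J js).GdQ K.FS ∧
      (∀ x a, K.ar x a → Infinite ↥(stabilizer C.H ((x, a) : V × V)) →
        (SyQ.mk K P D J js).Tog x a) ∧ OneE D ∧ ((∀ x y : D.X, ∃ h : C.H, h • x = y) ∨
        ∃ w u : D.X, ¬ SA ↥(stabilizer C.H w) ∧ (SyQ.mk K P D J js).Inv1 w u) := by
  refine hC.one_edgeQ' F ?_
  intro D J js hg hone w u hwu hn hU h5 hinf hfix
  exact SyQ.idx_two_sq (S := SyQ.mk K P D J js) hg.conn hT hwu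
    (fun a b h => hone _ _ _ _ hwu h) hn hU h5 hinf hfix

end Pool.Agent.DI
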