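import Pool.Agent.DI.Psv
import Pool.Agent.DI.StF
import Pool.Agent.DI.OneEdgeR

/-!
# DI/SysEx: the existence of the system of a step

`Cd.LW.exists_sy1`, `St.exists_sy1`: a state has a good one-edge system (`SyQ.Sy1`) at a bad vertex.
-/

namespace Pool.Agent.DI

open MulAction
open Pool.Agent.SAF (InC SA orbs FinOrb oc Decomp)
open Pool.Agent.BT (PX PQ JS bey exits Ell mst)

/-- the system of a complex over a candidate of the light world -/
theorem Cd.LW.exists_sy1 {C : Cd} (hC : C.LW) {V : Type} [MulAction C.H V] {K : GX C.H V}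
    {P : P45 K} {f : V → C.V} (F : FoldC C P f) (hT : P.SqT)
    (tf : ∀ T a b y, P.Top T a b y → Finite ↥(stabilizer C.H T))
    (hv : ∀ x a b y, Q4 P x a b y → K.ar x a → Finite ↥(stabilizer C.H ((x, a) : V × V))) :
    ∃ (D : Decomp C.H) (J : V → Set D.X) (js : JS P.pq D J) (w : D.X),
      (SyQ.mk K P D J js).Sy1 w := by
  obtain ⟨D, J, js, hg, ht, hone, halt⟩ := hC.one_edgeQ F hT
  have key : ∀ w : D.X, ¬ SA ↥(stabilizer C.H w) →
      ((∀ x y : D.X, ∃ h : C.H, h • x = y) ∨ ∃ u, (SyQ.mk K P D J js).Inv1 w u) →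
      (SyQ.mk K P D J js).Sy1 w := fun w hw h =>
    { gd := hg
      tog := ht
      one := hone
      alt := h
      badw := hw
      bad := C.bad
      wm := F.wmin js hw
      lc := F.lc
      inf := fun x y e => hC.all_inf D hone e
      tf := tf
      fs := F.fs
      hv := hv }
  rcases halt with h | ⟨w, u, hw, h⟩
  · obtain ⟨w, hw⟩ := exists_bad C.bad D
    exact ⟨D, J, js, w, key w hw (Or.inl h)⟩
  · exact ⟨D, J, js, w, key w hw (Or.inr ⟨u, h⟩)⟩

/-- THE SYSTEM OF A STATE -/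
theorem St.exists_sy1 (C : St) (hl : ∀ v, (C.tp.gx C.P).LC v) :
    ∃ (D : Decomp C.H) (J : C.V → Set D.X) (js : JS C.P.pq D J) (w : D.X),
      (SyQ.mk C.K C.P D J js).Sy1 w :=
  (C.fold_LW hl).exists_sy1 (C.foldC hl) C.cls.toSqE C.tf C.hv

end Pool.Agent.DI
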