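import Pool.Agent.DI.Tail
import Pool.Agent.DI.StF
import Pool.Agent.DI.QNe
import Pool.Agent.DI.QKMin
import Pool.Agent.DI.Thin2
import Pool.Agent.DI.Nr
import Pool.Agent.DI.Bnd
import Pool.Agent.DI.SpT
import Pool.Agent.DI.ExcE
import Pool.Agent.DI.PhA
import Pool.Agent.DI.LightS
import Pool.Agent.DI.HDL
import Pool.Agent.DI.SysEx
import Pool.Agent.DI.NxC

/-!
# DI/Main0: the order of the states and the laws of a step

`Nums`: the numbers of a complex with pentagons and squares, `Nums.Lt`: the order of the descent,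
`Nums.Le`: no number is worse. `h.Pk`: the folded slice, `h.Pt`: the folded slice, thinned.
`main_of`: the theorem from the laws.
-/

namespace Pool.Agent.DI

open MulAction
open Pool.Agent.SAF (InC SA orbs FinOrb oc Decomp oc_le_of_inj)
open Pool.Agent.SAG (Zt)

/-! ### the order -/

section

universe v

variable {α : Type v}

theorem LexLt.trans_le {l : List (α → ℤ)} {a b c : α} (h : LexLt l a b) (h' : ∀ f ∈ l, f b ≤ f c) :
    LexLt l a c := by
  induction l with
  | nil => exact h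
  | cons f l ih =>
    have h1 := h' f (List.mem_cons_self ..)
    rcases h with h | ⟨h, h2⟩
    · exact Or.inl (lt_of_lt_of_le h h1)
    · have h3 := ih h2 (fun g hg => h' g (List.mem_cons_of_mem _ hg))
      rcases h1.lt_or_eq with k | k
      · exact Or.inl (by rw [h]; exact k)
      · exact Or.inr ⟨h.trans k, h3⟩

theorem LexLt.le_trans {l : List (α → ℤ)} {a b c : α} (h : LexLt l b c) (h' : ∀ f ∈ l, f a ≤ f b) :
    LexLt l a c := by
  induction l with
  | nil => exact h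
  | cons f l ih =>
    have h1 := h' f (List.mem_cons_self ..)
    rcases h with h | ⟨h, h2⟩
    · exact Or.inl (lt_of_le_of_lt h1 h)
    · have h3 := ih h2 (fun g hg => h' g (List.mem_cons_of_mem _ hg))
      rcases h1.lt_or_eq with k | k
      · exact Or.inl (by rw [← h]; exact k)
      · exact Or.inr ⟨k.trans h, h3⟩

end

/-- the numbers of a complex with pentagons and squares -/
structure Nums where
  /-- `sigma` -/
  s : ℕ
  /-- the pole excess without the special tops -/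
  e : ℤ
  /-- the number of the self pieces of fat softs -/
  n : ℕ
  p4 : ℕ
  p5 : ℕ
  /-- the number of the D-sinks -/
  vd : ℕ
  /-- `phi_0` -/
  ph : ℕ
  /-- the number of the Z-sinks -/
  vz : ℕ

namespace Nums

/-- the potentials of the descent -/
def pots : List (Nums → ℤ) := [fun x => -(x.s : ℤ), fun x => -x.e, fun x => (x.n : ℤ),
  fun x => (x.p4 : ℤ), fun x => (x.p5 : ℤ), fun x => (x.vd : ℤ), fun x => -(x.ph : ℤ),
  fun x => -(x.vz : ℤ)]

/-- THE ORDER OF THE DESCENT -/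
def Lt (a b : Nums) : Prop := LexLt pots a b

/-- no number is worse -/
structure Le (a b : Nums) : Prop where
  s : b.s ≤ a.s
  e : b.e ≤ a.e
  n : a.n ≤ b.n
  p4 : a.p4 ≤ b.p4
  p5 : a.p5 ≤ b.p5
  vd : a.vd ≤ b.vd
  ph : b.ph ≤ a.ph
  vz : b.vz ≤ a.vz

variable {a b c : Nums}

theorem Le.pots (h : a.Le b) : ∀ f ∈ pots, f a ≤ f b := by
  obtain ⟨h1, h2, h3, h4, h5, h6, h7, h8⟩ := h
  intro f hf
  simp only [Nums.pots, List.mem_cons, List.not_mem_nil, or_false] at hf
  rcases hf with rfl | rfl | rfl | rfl | rfl | rfl | rfl | rfl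
  all_goals beta_reduce; omega

theorem Le.refl (a : Nums) : a.Le a :=
  ⟨le_refl _, le_refl _, le_refl _, le_refl _, le_refl _, le_refl _, le_refl _, le_refl _⟩

theorem Le.trans (h : a.Le b) (h' : b.Le c) : a.Le c :=
  ⟨h'.s.trans h.s, h'.e.trans h.e, h.n.trans h'.n, h.p4.trans h'.p4, h.p5.trans h'.p5,
    h.vd.trans h'.vd, h'.ph.trans h.ph, h'.vz.trans h.vz⟩

theorem Lt.trans_le (h : a.Lt b) (h' : b.Le c) : a.Lt c := LexLt.trans_le h h'.pots

theorem Le.trans_lt (h : a.Le b) (h' : b.Lt c) : a.Lt c := LexLt.le_trans h' h.pots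

/-- sigma is larger -/
theorem Lt.of_s (h : b.s < a.s) : a.Lt b := Or.inl (by show -(a.s : ℤ) < -(b.s : ℤ); omega)

/-- the excess is larger -/
theorem Lt.of_e (hs : b.s ≤ a.s) (he : b.e < a.e) : a.Lt b := by
  refine LexLt.cons (by show -(a.s : ℤ) ≤ -(b.s : ℤ); omega) fun _ => LexLt.head ?_
  show -a.e < -b.e
  omega

theorem Lt.le_s (h : a.Lt b) : b.s ≤ a.s := by
  rcases h with h | ⟨h, -⟩
  · have h' : -(a.s : ℤ) < -(b.s : ℤ) := h
    omega
  · have h' : -(a.s : ℤ) = -(b.s : ℤ) := h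
    omega

theorem Lt.le_e (h : a.Lt b) (e : a.s = b.s) : b.e ≤ a.e := by
  rcases h with h | ⟨-, h | ⟨h, -⟩⟩
  · have h' : -(a.s : ℤ) < -(b.s : ℤ) := h
    omega
  · have h' : -a.e < -b.e := h
    omega
  · have h' : -a.e = -b.e := h
    omega

theorem Lt.mk (hs : b.s ≤ a.s) (he : a.s = b.s → b.e ≤ a.e) (hn : a.s = b.s → a.e = b.e → a.n ≤ b.n)
    (ht : a.s = b.s → a.e = b.e → a.n = b.n → a.p4 < b.p4 ∨ (a.p4 = b.p4 ∧ (a.p5 < b.p5 ∨
      (a.p5 = b.p5 ∧ (a.vd < b.vd ∨ (a.vd = b.vd ∧ (b.ph < a.ph ∨ (b.ph = a.ph ∧ b.vz < a.vz)))))))) :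
    a.Lt b := by
  refine LexLt.cons (by show -(a.s : ℤ) ≤ -(b.s : ℤ); omega) fun e1 => ?_
  have e1' : a.s = b.s := by
    have : -(a.s : ℤ) = -(b.s : ℤ) := e1
    omega
  refine LexLt.cons (by show -a.e ≤ -b.e; have := he e1'; omega) fun e2 => ?_
  have e2' : a.e = b.e := by
    have : -a.e = -b.e := e2
    omega
  refine LexLt.cons (by show (a.n : ℤ) ≤ b.n; have := hn e1' e2'; omega) fun e3 => ?_
  have e3' : a.n = b.n := by
    have : (a.n : ℤ) = b.n := e3
    omega
  rcases ht e1' e2' e3' with h | ⟨h, h | ⟨h1, h | ⟨h2, h | ⟨h3, h⟩⟩⟩⟩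
  · exact LexLt.head (by show (a.p4 : ℤ) < b.p4; omega)
  · exact Or.inr ⟨by show (a.p4 : ℤ) = b.p4; omega, LexLt.head (by show (a.p5 : ℤ) < b.p5; omega)⟩
  · exact Or.inr ⟨by show (a.p4 : ℤ) = b.p4; omega, Or.inr ⟨by show (a.p5 : ℤ) = b.p5; omega,
      LexLt.head (by show (a.vd : ℤ) < b.vd; omega)⟩⟩
  · exact Or.inr ⟨by show (a.p4 : ℤ) = b.p4; omega, Or.inr ⟨by show (a.p5 : ℤ) = b.p5; omega,
      Or.inr ⟨by show (a.vd : ℤ) = b.vd; omega,
      LexLt.head (by show -(a.ph : ℤ) < -(b.ph : ℤ); omega)⟩⟩⟩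
  · exact Or.inr ⟨by show (a.p4 : ℤ) = b.p4; omega, Or.inr ⟨by show (a.p5 : ℤ) = b.p5; omega,
      Or.inr ⟨by show (a.vd : ℤ) = b.vd; omega,
      Or.inr ⟨by show -(a.ph : ℤ) = -(b.ph : ℤ); omega,
      LexLt.head (by show -(a.vz : ℤ) < -(b.vz : ℤ); omega)⟩⟩⟩⟩

end Nums

/-! ### the numbers of a complex -/

/-- THE NUMBERS OF A COMPLEX -/
noncomputable def P45.nums {H V : Type} [Group H] [MulAction H V] {K : GX H V} (P : P45 K)
    (nd : P.ND) : Nums where
  s := P.sigma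
  e := P.exc
  n := (P.fc nd).nN
  p4 := K.p4
  p5 := K.p5
  vd := K.nVD
  ph := K.phA
  vz := K.nVZ

/-- the numbers of a complex with the opened softs `E` -/
noncomputable def P45.numsE {H V : Type} [Group H] [MulAction H V] {K : GX H V} (P : P45 K)
    (nd : P.ND) (E : V → Prop) : Nums where
  s := P.sigma
  e := P.excE E
  n := (P.fc nd).nN
  p4 := K.p4
  p5 := K.p5
  vd := K.nVD
  ph := K.phA
  vz := K.nVZ

/-- the numbers of a state -/
noncomputable def St.nums (C : St) : Nums := C.P.nums C.nd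


/-- the number of the orbits of tops -/
noncomputable def St.nt (C : St) : ℕ := oc C.H C.P.tops

/-- THE ORDER OF THE STATES: the numbers, then the number of the orbits of tops -/
def St.Lt (N C : St) : Prop := N.nums.Lt C.nums ∨ (N.nums.Le C.nums ∧ N.nt < C.nt)

theorem LexLt.append_left {α : Type*} {l l' : List (α → ℤ)} {a b : α} (h : LexLt l a b) :
    LexLt (l ++ l') a b := by
  induction l with
  | nil => exact h.elim
  | cons f l ih =>
    rcases h with h | ⟨h, h'⟩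
    · exact Or.inl h
    · exact Or.inr ⟨h, ih h'⟩

theorem LexLt.append_right {α : Type*} {l l' : List (α → ℤ)} {a b : α}
    (h : ∀ f ∈ l, f a ≤ f b) (h' : LexLt l' a b) : LexLt (l ++ l') a b := by
  induction l with
  | nil => exact h'
  | cons f l ih =>
    exact LexLt.cons (h f (List.mem_cons_self ..))
      (fun _ => ih (fun g hg => h g (List.mem_cons_of_mem _ hg)))

/-- THE FRAME for the states -/
theorem main_nums (hph : ∃ B : ℕ, ∀ C : St, C.K.phA ≤ B)
    (step : ∀ C : St, ∃ N : St, N.Lt C)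
    (G : Type) [Group G] [Group.IsFinitelyPresented G] : SA G := by
  by_contra hG
  obtain ⟨C0⟩ := exists_St G hG
  refine frame ⟨C0⟩ ((Nums.pots.map fun f C => f C.nums) ++ [fun C => (C.nt : ℤ)]) ?_ ?_
  · have hA : ∀ C : St, C.K.area = C0.K.area := fun C => C.area_unique C0
    obtain ⟨B, hB⟩ := hph
    intro f hf
    simp only [Nums.pots, List.map_cons, List.map_nil, List.cons_append, List.nil_append,
      List.mem_cons, List.not_mem_nil, or_false] at hf
    rcases hf with rfl | rfl | rfl | rfl | rfl | rfl | rfl | rfl | rfl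
    · refine ⟨-(35 * C0.K.area : ℕ), fun C => ?_⟩
      have h : C.P.sigma ≤ 35 * C.K.area := C.cls.sigma_le
      rw [hA C] at h
      show _ ≤ -((C.P.sigma : ℕ) : ℤ)
      omega
    · refine ⟨-(5 * C0.K.area : ℕ), fun C => ?_⟩
      have h : C.P.exc ≤ 5 * C.K.area := C.exc_le
      rw [hA C] at h
      show _ ≤ -C.P.exc
      push_cast
      linarith
    · exact ⟨0, fun C => Int.natCast_nonneg _⟩
    · exact ⟨0, fun C => Int.natCast_nonneg _⟩
    · exact ⟨0, fun C => Int.natCast_nonneg _⟩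
    · exact ⟨0, fun C => Int.natCast_nonneg _⟩
    · refine ⟨-(B : ℤ), fun C => ?_⟩
      have h := hB C
      show _ ≤ -((C.K.phA : ℕ) : ℤ)
      omega
    · refine ⟨-(5 * C0.K.area : ℕ), fun C => ?_⟩
      have h := C.nVZ_le
      rw [hA C] at h
      show _ ≤ -((C.K.nVZ : ℕ) : ℤ)
      omega
    · exact ⟨0, fun C => Int.natCast_nonneg _⟩
  · intro C
    obtain ⟨N, hN⟩ := step C
    refine ⟨N, ?_⟩
    rcases hN with hN | ⟨h1, h2⟩
    · have key : ∀ l : List (Nums → ℤ), LexLt l N.nums C.nums →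
          LexLt (l.map fun f C => f (St.nums C)) N C := by
        intro l
        induction l with
        | nil => exact fun h => h
        | cons f l ih =>
          rintro (h | ⟨h, h'⟩)
          · exact Or.inl h
          · exact Or.inr ⟨h, ih h'⟩
      exact (key _ hN).append_left
    · refine LexLt.append_right ?_ (LexLt.head (by show (N.nt : ℤ) < C.nt; exact_mod_cast h2))
      intro f hf
      obtain ⟨g, hg, rfl⟩ := List.mem_map.1 hf
      exact h1.pots g hg

/-! ### the step -/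

namespace SyQ

variable {H V : Type} [Group H] [MulAction H V] {S : SyQ H V} {w : S.X} {O : S.OR w} {E : V → Prop}

theorem Psv.nd (h : S.Psv w O E) : S.P.ND := h.sq.nd

/-- the squares of the folded slice are not degenerate -/
theorem Sy1.kP_nd (h : S.Sy1 w) (O : S.OR w) : (h.kP O).ND := S.kfP_nd _ _ _ _ _

/-- the numbers of the system -/
noncomputable def Psv.nums (h : S.Psv w O E) : Nums := S.P.numsE h.nd E

/-- the numbers of the thinned folded slice -/
noncomputable def Psv.kNums (h : S.Psv w O E) : Nums :=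
  (h.kP O).thinP.nums ((h.kP O).thin_ND (h.kP_nd O))

/-- constant sigma and constant excess -/
structure Psv.Eq2 (h : S.Psv w O E) : Prop where
  s : (h.kP O).sigma = S.P.sigma
  e : (h.kP O).thinP.exc = S.P.excE E

/-- constant sigma, excess and number of self pieces -/
structure Psv.Eq3 (h : S.Psv w O E) : Prop extends h.Eq2 where
  n : ((h.kP O).thinP.fc ((h.kP O).thin_ND (h.kP_nd O))).nN = (S.P.fc h.nd).nN

/-- all numbers before `phi_0` are constant -/
structure Psv.Eq6 (h : S.Psv w O E) : Prop extends h.Eq3 where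
  p4 : (h.kP O).thin.p4 = S.K.p4
  p5 : (h.kP O).thin.p5 = S.K.p5
  vd : (h.kP O).thin.nVD = S.K.nVD

/-- THE LAWS OF A STEP, together: the numbers go down -/
theorem Psv.lt_of (h : S.Psv w O E)
    (sig : S.P.sigma ≤ (h.kP O).sigma)
    (exc : (h.kP O).sigma = S.P.sigma → S.P.excE E ≤ (h.kP O).thinP.exc)
    (nn : h.Eq2 → ((h.kP O).thinP.fc ((h.kP O).thin_ND (h.kP_nd O))).nN ≤ (S.P.fc h.nd).nN)
    (tD : h.Eq3 → ¬ S.ZW w → (h.kP O).thin.p4 < S.K.p4 ∨
      ((h.kP O).thin.p4 ≤ S.K.p4 ∧ (h.kP O).thin.p5 < S.K.p5))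
    (t4 : h.Eq3 → S.ZW w → (h.kP O).thin.p4 ≤ S.K.p4)
    (t5 : h.Eq3 → S.ZW w → (h.kP O).thin.p4 = S.K.p4 → (h.kP O).thin.p5 ≤ S.K.p5)
    (tf : h.Eq6 → S.ZW w → (∀ z ∈ S.K.sVD, ∃ g : H, S.Sat w (g • z)) →
      S.K.phA ≤ (h.kP O).thin.phA ∧
      ((h.kP O).thin.phA = S.K.phA → ∀ z ∈ S.K.sVZ, ∃ g : H, S.Sat w (g • z))) :
    h.kNums.Lt h.nums := by
  have es : h.kNums.s = (h.kP O).sigma := (h.kP O).thin_sigma
  refine Nums.Lt.mk ?_ ?_ ?_ ?_
  · rw [es]
    exact sig
  · intro e1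
    rw [es] at e1
    exact exc e1
  · intro e1 e2
    rw [es] at e1
    exact nn ⟨e1, e2⟩
  · intro e1 e2 e3
    rw [es] at e1
    have E3 : h.Eq3 := ⟨⟨e1, e2⟩, e3⟩
    by_cases hz : S.ZW w
    · rcases (t4 E3 hz).lt_or_eq with h4 | h4
      · exact Or.inl h4
      refine Or.inr ⟨h4, ?_⟩
      rcases (t5 E3 hz h4).lt_or_eq with h5 | h5
      · exact Or.inl h5
      refine Or.inr ⟨h5, ?_⟩
      have hv : (h.kP O).thin.nVD ≤ S.K.nVD := vd_le h.gd.conn O (h.noDt hz)
      rcases hv.lt_or_eq with hv | hv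
      · exact Or.inl hv
      refine Or.inr ⟨hv, ?_⟩
      have hsat : ∀ z ∈ S.K.sVD, ∃ g : H, S.Sat w (g • z) := fun z k =>
        vd_sat h.gd.conn O (h.noDt hz) (le_of_eq hv.symm) k
      obtain ⟨f1, f2⟩ := tf ⟨E3, h4, h5, hv⟩ hz hsat
      rcases f1.lt_or_eq with f1 | f1
      · exact Or.inl f1
      refine Or.inr ⟨f1, ?_⟩
      obtain ⟨u, hu, hz'⟩ := hz
      exact vz_lt h.gd.conn O (f2 f1.symm) hu (h.inf _ _ hu) hz'
    · rcases tD E3 hz with k | ⟨k1, k2⟩
      · exact Or.inl k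
      · rcases k1.lt_or_eq with k1 | k1
        · exact Or.inl k1
        · exact Or.inr ⟨k1, Or.inl k2⟩

end SyQ

/-- THE LAWS. `start`: a state has a better state or a passive step (over `K` or an opened complex);
`x1`, `law`: the folded slice; `cut`: the next state -/
structure Laws : Prop where
  bound : ∃ B : ℕ, ∀ C : St, C.K.phA ≤ B
  start : ∀ C : St, (∃ N : St, N.Lt C) ∨
    ∃ (V : Type) (_ : MulAction C.H V) (S : SyQ C.H V) (f : V → C.fd.V) (w : S.X) (O : S.OR w)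
      (E : V → Prop) (h : S.Psv w O E), OvC C.fd S.K S.P f ∧ h.nums.Le C.nums
  x1 : ∀ (H V : Type) [Group H] [MulAction H V] (S : SyQ H V) (w : S.X) (O : S.OR w)
    (E : V → Prop) (h : S.Psv w O E), ∀ p ∈ (h.kP O).TA, 1 ≤ (h.kP O).X p.1 p.2
  law : ∀ (H V : Type) [Group H] [MulAction H V] (S : SyQ H V) (w : S.X) (O : S.OR w)
    (E : V → Prop) (h : S.Psv w O E), h.kNums.Lt h.nums
  cut : ∀ (C0 : Cd) (_ : C0.LW) (V : Type) [MulAction C0.H V] (S : SyQ C0.H V) (f : V → C0.V)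
    (_ : OvC C0 S.K S.P f) (w : S.X) (O : S.OR w) (E : V → Prop) (h : S.Psv w O E) (C' : St),
    Nonempty (Nxt (h.kP O).thinP C') → h.kNums.s ≤ C'.nums.s ∧ h.kNums.e ≤ C'.nums.e ∧
      (h.Eq2 → C'.nums.Le h.kNums)

/-- THE THEOREM FROM THE LAWS -/
theorem Laws.main (L : Laws) (G : Type) [Group G] [Group.IsFinitelyPresented G] : SA G := by
  refine main_nums L.bound ?_ G
  intro C
  rcases L.start C with h | ⟨V, act, S, f, w, O, E, h, ov, h1⟩
  · exact h
  · obtain ⟨C', ⟨N⟩⟩ := h.exists_next h.noE h.amin (L.x1 _ _ S w O E h) (by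
      intro H' V' _ _ N g PN hall hb hl hc
      exact SyQ.Psv.hlt C.fd_LW ov h h.noE H' V' N g PN hall hb hl hc)
    refine ⟨C', Or.inl (Nums.Lt.trans_le ?_ h1)⟩
    obtain ⟨c1, c2, c3⟩ := L.cut C.fd C.fd_LW V S f ov w O E h C' ⟨N⟩
    have hl := L.law _ _ S w O E h
    have es : h.kNums.s = (h.kP O).sigma := (h.kP O).thin_sigma
    have l1 : h.nums.s ≤ h.kNums.s := hl.le_s
    rcases l1.lt_or_eq with l1 | l1
    · exact Nums.Lt.of_s (lt_of_lt_of_le l1 c1)
    have l2 : h.nums.e ≤ h.kNums.e := hl.le_e l1.symm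
    rcases l2.lt_or_eq with l2 | l2
    · exact Nums.Lt.of_e (by rw [l1]; exact c1) (lt_of_lt_of_le l2 c2)
    · exact (c3 ⟨by rw [← es]; exact l1.symm, l2.symm⟩).trans_lt hl

end Pool.Agent.DI
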