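import Pool.Agent.DI.P3d

/-!
# The laws of characters at walls of `Z` type and of `D` type

`exists_homA_hnn`: one orbit of vertices (HNN): a homomorphism of the stabiliser of `w` which is
compatible with the stable letter `t` extends. `fin_law`: `dim L + 1 ≤ dim P` if all members of `L`
extend. `one_cond`: one condition costs one dimension. `law_D`, `law_Z_inv`, `law_Z_hnn`: the laws of
`p_4`, `p_5` at the walls of `D` type (strict), of `Z` type (inverted) and of `Z` type (HNN).
-/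

namespace Pool.Agent.DI

open MulAction
open Pool.Agent.SAF (TAct)
open Pool.Agent.SAG (IO Zt)

section hnn

variable {H X A : Type} [Group H] [MulAction H X] [AddCommGroup A]

/-- one orbit of vertices: a compatible homomorphism of the stabiliser of `w` extends -/
theorem exists_homA_hnn {G : SimpleGraph X} (hG : G.IsTree)
    (hsm : ∀ (h : H) (x y : X), G.Adj x y → G.Adj (h • x) (h • y))
    (hni : ∀ (h : H) (x y : X), G.Adj x y → ¬ (h • x = y ∧ h • y = x)) (w : X) (t : H)
    (hv : ∀ x, ∃ h : H, h • w = x)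
    (he : ∀ u, G.Adj w u → ∃ a : H, a • w = w ∧ (u = a • t • w ∨ u = a • t⁻¹ • w))
    (f : Additive ↥(stabilizer H w) →+ A)
    (hf : ∀ a b : ↥(stabilizer H w), a.1 = t * b.1 * t⁻¹ →
      f (Additive.ofMul a) = f (Additive.ofMul b)) :
    ∃ φ : Additive H →+ A, ∀ a : ↥(stabilizer H w),
      φ (Additive.ofMul a.1) = f (Additive.ofMul a) := by
  classical
  let F : H → A := fun a => if h : a • w = w then f (Additive.ofMul ⟨a, h⟩) else 0
  have hF : ∀ (a : H) (h : a • w = w), F a = f (Additive.ofMul ⟨a, h⟩) := fun a h => dif_pos h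
  have hFm : ∀ a b : H, a • w = w → b • w = w → F (a * b) = F a + F b := by
    intro a b ha hb
    have hab : (a * b) • w = w := by rw [mul_smul, hb, ha]
    rw [hF _ hab, hF _ ha, hF _ hb, ← map_add]
    rfl
  have hF1 : F 1 = 0 := by
    have h := hFm 1 1 (one_smul _ _) (one_smul _ _)
    rw [mul_one] at h
    have h2 : F 1 + F 1 = F 1 + 0 := by rw [add_zero]; exact h.symm
    exact add_left_cancel h2
  have hFi : ∀ a : H, a • w = w → F a⁻¹ = - F a := by
    intro a ha
    have ha' : a⁻¹ • w = w := by rw [inv_smul_eq_iff, ha]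
    have h := hFm a a⁻¹ ha ha'
    rw [mul_inv_cancel, hF1] at h
    exact (neg_eq_of_add_eq_zero_right h.symm).symm
  have hFc : ∀ a b : H, a • w = w → b • w = w → F (a * b * a⁻¹) = F b := by
    intro a b ha hb
    have ha' : a⁻¹ • w = w := by rw [inv_smul_eq_iff, ha]
    have hab : (a * b) • w = w := by rw [mul_smul, hb, ha]
    rw [hFm _ _ hab ha', hFm _ _ ha hb, hFi a ha]
    abel
  choose k hk using hv
  let ψ : X → H → A := fun x a => F ((k x)⁻¹ * a * k x)
  have hw : ∀ (x : X) (c a : H), c • w = x → a • x = x → ψ x a = F (c⁻¹ * a * c) := by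
    intro x c a hc ha
    show F ((k x)⁻¹ * a * k x) = _
    have h1 : ((k x)⁻¹ * a * k x) • w = w := by
      rw [mul_smul, mul_smul, hk, ha, inv_smul_eq_iff, hk]
    have h2 : (c⁻¹ * k x) • w = w := by rw [mul_smul, hk, inv_smul_eq_iff, hc]
    rw [← hFc (c⁻¹ * k x) _ h2 h1]
    congr 1
    group
  have hmul : ∀ x a b, a • x = x → b • x = x → ψ x (a * b) = ψ x a + ψ x b := by
    intro x a b ha hb
    have hab : (a * b) • x = x := by rw [mul_smul, hb, ha]
    rw [hw x (k x) _ (hk x) hab, hw x (k x) _ (hk x) ha, hw x (k x) _ (hk x) hb]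
    have h1 : ((k x)⁻¹ * a * k x) • w = w := by
      rw [mul_smul, mul_smul, hk, ha, inv_smul_eq_iff, hk]
    have h2 : ((k x)⁻¹ * b * k x) • w = w := by
      rw [mul_smul, mul_smul, hk, hb, inv_smul_eq_iff, hk]
    rw [← hFm _ _ h1 h2]
    congr 1
    group
  obtain ⟨φ, hφ⟩ := exists_homA hG hsm hni ψ hmul (by
    intro x h a ha
    have ha' : (h * a * h⁻¹) • h • x = h • x := by
      rw [mul_smul, inv_smul_smul, mul_smul, ha]
    have hk' : (h * k x) • w = h • x := by rw [mul_smul, hk]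
    rw [hw _ (h * k x) _ hk' ha', hw x (k x) a (hk x) ha]
    congr 1
    group) (by
    intro x y e a ha hb
    obtain ⟨c, hc, hu⟩ := he ((k x)⁻¹ • y) (by
      have := hsm (k x)⁻¹ _ _ e
      rwa [inv_smul_eq_iff.2 (hk x).symm] at this)
    -- the conjugate into the stabiliser of `w`
    set b : H := c⁻¹ * ((k x)⁻¹ * a * k x) * c with hb_def
    have hc' : c⁻¹ • w = w := by rw [inv_smul_eq_iff, hc]
    have h1 : ((k x)⁻¹ * a * k x) • w = w := by
      rw [mul_smul, mul_smul, hk, ha, inv_smul_eq_iff, hk]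
    have hbw : b • w = w := by
      rw [hb_def, mul_smul, mul_smul, hc, h1, hc']
    have hψx : ψ x a = F b := by
      rw [hw x (k x * c) a (by rw [mul_smul, hc, hk]) ha]
      congr 1
      rw [hb_def]
      group
    rcases hu with hu | hu
    · have hy : (k x * c * t) • w = y := by
        rw [mul_smul, mul_smul, ← hu, smul_inv_smul]
      have h3 : b • t • w = t • w := by
        have h4 : (k x * c) • (t • w) = y := by rw [← mul_smul]; exact hy
        rw [hb_def]
        have h5 : (c⁻¹ * ((k x)⁻¹ * a * k x) * c) • (t • w) = (k x * c)⁻¹ • a • (k x * c) • t • w := by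
          simp only [← mul_smul]
          congr 1
          group
        rw [h5, h4, hb, inv_smul_eq_iff, h4]
      have h6 : (t⁻¹ * b * t) • w = w := by
        rw [mul_smul, mul_smul, h3, inv_smul_smul]
      rw [hψx, hw y (k x * c * t) a hy hb, hF b hbw]
      have h7 : (k x * c * t)⁻¹ * a * (k x * c * t) = t⁻¹ * b * t := by
        rw [hb_def]
        group
      rw [h7, hF _ h6]
      exact hf ⟨b, hbw⟩ ⟨_, h6⟩ (by
        show b = t * (t⁻¹ * b * t) * t⁻¹
        group)
    · have hy : (k x * c * t⁻¹) • w = y := by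
        rw [mul_smul, mul_smul, ← hu, smul_inv_smul]
      have h3 : b • t⁻¹ • w = t⁻¹ • w := by
        have h4 : (k x * c) • (t⁻¹ • w) = y := by rw [← mul_smul]; exact hy
        rw [hb_def]
        have h5 : (c⁻¹ * ((k x)⁻¹ * a * k x) * c) • (t⁻¹ • w) =
            (k x * c)⁻¹ • a • (k x * c) • t⁻¹ • w := by
          simp only [← mul_smul]
          congr 1
          group
        rw [h5, h4, hb, inv_smul_eq_iff, h4]
      have h6 : (t * b * t⁻¹) • w = w := by
        rw [mul_smul, mul_smul, h3, smul_inv_smul]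
      rw [hψx, hw y (k x * c * t⁻¹) a hy hb, hF b hbw]
      have h7 : (k x * c * t⁻¹)⁻¹ * a * (k x * c * t⁻¹) = t * b * t⁻¹ := by
        rw [hb_def]
        group
      rw [h7, hF _ h6]
      exact (hf ⟨_, h6⟩ ⟨b, hbw⟩ rfl).symm)
  refine ⟨φ, fun a => ?_⟩
  rw [hφ w a.1 a.2, hw w 1 a.1 (one_smul _ _) a.2, inv_one, one_mul, mul_one, hF a.1 a.2]

end hnn

section lin

variable {H : Type} [Group H] {B : Subgroup H}

/-- a finite-dimensional space of extensions with a non-zero member of the kernel -/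
theorem fin_law (L : Submodule (ZMod 2) (H2m ↥B)) (P : Submodule (ZMod 2) (H2m H))
    (hP : ∀ φ : H2m H, res2 B φ ∈ L → φ ∈ P) (hs : ∀ f ∈ L, ∃ φ : H2m H, res2 B φ = f)
    (hfd : FiniteDimensional (ZMod 2) ↥P) {χ : H2m H} (h0 : χ ≠ 0)
    (hχ : ∀ a ∈ B, χ (Additive.ofMul a) = 0) :
    FiniteDimensional (ZMod 2) ↥L ∧
      Module.finrank (ZMod 2) ↥L + 1 ≤ Module.finrank (ZMod 2) ↥P := by
  let E : Submodule (ZMod 2) (H2m H) := L.comap (res2 B)
  have hE : E ≤ P := fun φ h => hP φ h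
  have f1 : FiniteDimensional (ZMod 2) ↥E := Submodule.finiteDimensional_of_le hE
  let r : ↥E →ₗ[ZMod 2] ↥L := (res2 B).restrict (fun φ h => h)
  have hr : Function.Surjective r := by
    rintro ⟨f, hf⟩
    obtain ⟨φ, h⟩ := hs f hf
    exact ⟨⟨φ, by show res2 B φ ∈ L; rw [h]; exact hf⟩, Subtype.ext h⟩
  refine ⟨Module.Finite.of_surjective _ hr, ?_⟩
  have h5 := LinearMap.finrank_range_add_finrank_ker r
  rw [LinearMap.range_eq_top.2 hr, finrank_top] at h5
  have hχ0 : res2 B χ = 0 := h2_ext fun a => hχ a.1 a.2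
  have h6 : 0 < Module.finrank (ZMod 2) ↥(LinearMap.ker r) := by
    rw [Module.finrank_pos_iff_exists_ne_zero]
    refine ⟨⟨⟨χ, ?_⟩, ?_⟩, ?_⟩
    · show res2 B χ ∈ L
      rw [hχ0]
      exact L.zero_mem
    · rw [LinearMap.mem_ker]
      exact Subtype.ext hχ0
    · intro e
      exact h0 (congrArg (fun x => x.1.1) e)
  have h7 : Module.finrank (ZMod 2) ↥E ≤ Module.finrank (ZMod 2) ↥P := Submodule.finrank_mono hE
  omega

/-- one condition costs at most one dimension -/
theorem one_cond {M : Type} [AddCommGroup M] [Module (ZMod 2) M] (L : Submodule (ZMod 2) M)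
    (c : M →ₗ[ZMod 2] ZMod 2)
    (hfd : FiniteDimensional (ZMod 2) ↥(L ⊓ LinearMap.ker c)) :
    FiniteDimensional (ZMod 2) ↥L ∧
      Module.finrank (ZMod 2) ↥L ≤ Module.finrank (ZMod 2) ↥(L ⊓ LinearMap.ker c) + 1 := by
  let d : ↥L →ₗ[ZMod 2] ZMod 2 := c.domRestrict L
  let j : ↥(LinearMap.ker d) →ₗ[ZMod 2] ↥(L ⊓ LinearMap.ker c) :=
    { toFun := fun x => ⟨x.1.1, x.1.2, by
        have h : d x.1 = 0 := x.2
        exact LinearMap.mem_ker.2 h⟩
      map_add' := fun _ _ => rfl
      map_smul' := fun _ _ => rfl }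
  have hj : Function.Injective j := by
    intro x y h
    have h' : x.1.1 = y.1.1 := congrArg (fun w : ↥(L ⊓ LinearMap.ker c) => w.1) h
    exact Subtype.ext (Subtype.ext h')
  have f1 : FiniteDimensional (ZMod 2) ↥(LinearMap.ker d) := FiniteDimensional.of_injective j hj
  have f2 : FiniteDimensional (ZMod 2) ↥L := by
    have e := d.quotKerEquivRange
    have f3 : FiniteDimensional (ZMod 2) (↥L ⧸ LinearMap.ker d) := Module.Finite.equiv e.symm
    exact Module.Finite.of_submodule_quotient (LinearMap.ker d)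
  refine ⟨f2, ?_⟩
  have h4 := LinearMap.finrank_range_add_finrank_ker d
  have h5 := LinearMap.finrank_le_finrank_of_injective hj
  have h6 : Module.finrank (ZMod 2) ↥(LinearMap.range d) ≤ 1 := by
    have := Submodule.finrank_le (LinearMap.range d)
    rwa [Module.finrank_self] at this
  omega

/-- evaluation -/
def ev2 {K : Type} [Group K] (a : K) : H2m K →ₗ[ZMod 2] ZMod 2 where
  toFun φ := φ (Additive.ofMul a)
  map_add' _ _ := rfl
  map_smul' _ _ := rfl

theorem ev2_apply {K : Type} [Group K] (a : K) (φ : H2m K) : ev2 a φ = φ (Additive.ofMul a) := rfl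

/-- a homomorphism which kills the elements of finite order is determined by one value -/
theorem h2_zt {K : Type} [Group K] {φ : H2m K} {z : K} {a : K}
    (hk : ∀ b : K, ¬ IO b → (∃ n : ℤ, a = z ^ n * b) → φ (Additive.ofMul b) = 0)
    (ha : ∃ (n : ℤ) (b : K), a = z ^ n * b ∧ ¬ IO b) (hz : φ (Additive.ofMul z) = 0) :
    φ (Additive.ofMul a) = 0 := by
  obtain ⟨n, b, e, hb⟩ := ha
  rw [e, h2_mul, ofMul_zpow, map_zsmul, hz, smul_zero, hk b hb ⟨n, e⟩, add_zero]

end lin

section laws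

variable {H X : Type} [Group H] [MulAction H X] {G : SimpleGraph X} (hG : TAct H G) {w : X}
  (L : Submodule (ZMod 2) (H2m ↥(stabilizer H w))) (P : Submodule (ZMod 2) (H2m H))
  (hP : ∀ φ : H2m H, res2 (stabilizer H w) φ ∈ L → φ ∈ P)
  (hfd : FiniteDimensional (ZMod 2) ↥P) {χ : H2m H} (h0 : χ ≠ 0)
  (hχ : ∀ a : H, a • w = w → χ (Additive.ofMul a) = 0)

include hG hP hfd h0 hχ in
/-- walls of `D` type (or any wall whose edge groups are killed): strict -/
theorem law_D (hL : ∀ f ∈ L, ∀ u, G.Adj w u → ∀ a : ↥(stabilizer H w), a.1 • u = u →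
    f (Additive.ofMul a) = 0) : FiniteDimensional (ZMod 2) ↥L ∧
      Module.finrank (ZMod 2) ↥L + 1 ≤ Module.finrank (ZMod 2) ↥P := by
  refine fin_law L P hP (fun f hf => ?_) hfd h0 (fun a ha => hχ a ha)
  obtain ⟨φ, k1, -⟩ := exists_homA_one hG.tree hG.adj_smul hG.noinv w f (hL f hf)
  exact ⟨φ, h2_ext k1⟩

include hG hP hfd h0 hχ in
/-- inverted walls of `Z` type: all edges at `w` are translates of `w u` under the stabiliser of `w` -/
theorem law_Z_inv {u : X} (hone : ∀ v, G.Adj w v → ∃ a : H, a • w = w ∧ v = a • u)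
    {z : ↥(stabilizer H w)} (hz : ∀ a : ↥(stabilizer H w), a.1 • u = u →
      ∃ (n : ℤ) (b : ↥(stabilizer H w)), a = z ^ n * b ∧ ¬ IO b ∧ b.1 • u = u)
    (hL : ∀ f ∈ L, ∀ a : ↥(stabilizer H w), a.1 • u = u → ¬ IO a → f (Additive.ofMul a) = 0) :
    FiniteDimensional (ZMod 2) ↥L ∧
      Module.finrank (ZMod 2) ↥L ≤ Module.finrank (ZMod 2) ↥P := by
  have hu : ∀ f ∈ L ⊓ LinearMap.ker (ev2 z), ∀ a : ↥(stabilizer H w), a.1 • u = u →
      f (Additive.ofMul a) = 0 := by
    intro f hf a ha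
    obtain ⟨n, b, e, hb, hb'⟩ := hz a ha
    have hfz : f (Additive.ofMul z) = 0 := hf.2
    rw [e, h2_mul, ofMul_zpow, map_zsmul, hfz, smul_zero, hL f hf.1 b hb' hb, add_zero]
  obtain ⟨k1, k2⟩ := fin_law (L ⊓ LinearMap.ker (ev2 z)) P (fun φ h => hP φ h.1)
    (fun f hf => by
      obtain ⟨φ, k1, -⟩ := exists_homA_one hG.tree hG.adj_smul hG.noinv w f (by
        intro v e a ha
        obtain ⟨c, hc, rfl⟩ := hone v e
        have h1 := hu f hf ((⟨c, hc⟩ : ↥(stabilizer H w))⁻¹ * a * ⟨c, hc⟩) (by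
          show (c⁻¹ * a.1 * c) • u = u
          rw [mul_smul, mul_smul, ha, inv_smul_smul])
        rwa [h2_conj'] at h1)
      exact ⟨φ, h2_ext k1⟩) hfd h0 (fun a ha => hχ a ha)
  obtain ⟨k3, k4⟩ := one_cond L (ev2 z) k1
  exact ⟨k3, by omega⟩

include hG hP hfd h0 hχ in
/-- HNN walls of `Z` type -/
theorem law_Z_hnn {t : H} (hv : ∀ x : X, ∃ h : H, h • w = x)
    (he : ∀ u, G.Adj w u → ∃ a : H, a • w = w ∧ (u = a • t • w ∨ u = a • t⁻¹ • w))
    {z : ↥(stabilizer H w)} (hzt : z.1 • t • w = t • w)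
    (hz : ∀ a : ↥(stabilizer H w), a.1 • t • w = t • w →
      ∃ (n : ℤ) (b : ↥(stabilizer H w)), a = z ^ n * b ∧ ¬ IO b ∧ b.1 • t • w = t • w)
    (hL : ∀ f ∈ L, ∀ a : ↥(stabilizer H w), (a.1 • t • w = t • w ∨ a.1 • t⁻¹ • w = t⁻¹ • w) →
      ¬ IO a → f (Additive.ofMul a) = 0) :
    FiniteDimensional (ZMod 2) ↥L ∧
      Module.finrank (ZMod 2) ↥L ≤ Module.finrank (ZMod 2) ↥P := by
  have hz' : (t⁻¹ * z.1 * t) • w = w := by
    rw [mul_smul, mul_smul, hzt, inv_smul_smul]
  let z' : ↥(stabilizer H w) := ⟨t⁻¹ * z.1 * t, hz'⟩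
  let c : H2m ↥(stabilizer H w) →ₗ[ZMod 2] ZMod 2 := ev2 z - ev2 z'
  obtain ⟨k1, k2⟩ := fin_law (L ⊓ LinearMap.ker c) P (fun φ h => hP φ h.1)
    (fun f hf => by
      have hc : f (Additive.ofMul z) = f (Additive.ofMul z') := by
        have h := hf.2
        rw [SetLike.mem_coe, LinearMap.mem_ker] at h
        exact sub_eq_zero.1 h
      obtain ⟨φ, k1⟩ := exists_homA_hnn hG.tree hG.adj_smul hG.noinv w t hv he f (by
        intro a b hab
        have ha : a.1 • t • w = t • w := by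
          rw [hab, mul_smul, mul_smul, inv_smul_smul, b.2]
        obtain ⟨n, k, e, hk, hk'⟩ := hz a ha
        have hkw : (t⁻¹ * k.1 * t) • w = w := by
          rw [mul_smul, mul_smul, hk', inv_smul_smul]
        have e2 : b = z' ^ n * ⟨t⁻¹ * k.1 * t, hkw⟩ := by
          apply Subtype.ext
          show b.1 = (t⁻¹ * z.1 * t) ^ n * (t⁻¹ * k.1 * t)
          have e3 : (t⁻¹ * z.1 * t) ^ n = t⁻¹ * z.1 ^ n * t := by
            have := conj_zpow (i := n) (a := t⁻¹) (b := z.1)
            rwa [inv_inv] at this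
          have e4 : a.1 = z.1 ^ n * k.1 := congrArg Subtype.val e
          have e5 : b.1 = t⁻¹ * a.1 * t := by rw [hab]; group
          rw [e5, e3, e4]
          group
        have hk2 : ¬ IO (⟨t⁻¹ * k.1 * t, hkw⟩ : ↥(stabilizer H w)) := by
          intro h
          apply hk
          intro m hm e6
          refine h m hm ?_
          apply Subtype.ext
          show (t⁻¹ * k.1 * t) ^ m = 1
          have e7 : k.1 ^ m = 1 := congrArg Subtype.val e6
          have := conj_pow (i := m) (a := t⁻¹) (b := k.1)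
          rw [inv_inv] at this
          rw [this, e7]
          group
        rw [e, e2, h2_mul, h2_mul, ofMul_zpow, ofMul_zpow, map_zsmul, map_zsmul, hc,
          hL f hf.1 k (Or.inl hk') hk, hL f hf.1 _ (Or.inr (by
            show (t⁻¹ * k.1 * t) • t⁻¹ • w = t⁻¹ • w
            rw [mul_smul, mul_smul, smul_inv_smul, k.2])) hk2])
      exact ⟨φ, h2_ext k1⟩) hfd h0 (fun a ha => hχ a ha)
  obtain ⟨k3, k4⟩ := one_cond L c k1
  exact ⟨k3, by omega⟩

end laws

end Pool.Agent.DI
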