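import Pool.Agent.DI.P5Def
import Pool.Agent.DI.P4
import Pool.Agent.DI19.ExtU

/-!
# DI/P4L: the law of `p_4` for a one-edge decomposition

`K'` is a complex of the vertex group `H_w`; every edge group at `w` is the stabiliser of a sink of
`K'` which lies in a cell (`TU`). `hP`: a character with restriction in `P_4 K'` is in `P_4 K`;
`hPF`: the same for characters which kill `H_u` (case F).

General form (`L` characters of `H_w`, `P` characters of `H`):
* `ch_D_inv`, `ch_D_hnn`: edge group not of `Z` type: strict;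
* `ch_F`: edge group not of `Z` type, only `hPF`: not strict;
* `ch_fin_inv`: edge group of `Z` type, an element of finite order exchanges the two edges: strict;
* `ch_Z_inv`, `ch_Z_hnn`: edge group of `Z` type: not strict.

`p4_inv`, `p4_hnn`: all cases for `P_4`; `p5_Z_inv`, `p5_Z_hnn`: `P_5` at the walls of `Z` type.
-/

namespace Pool.Agent.DI

open MulAction
open Pool.Agent.SAF (TAct)
open Pool.Agent.SAG (IO Zt)

section

variable {H X : Type} [Group H] [MulAction H X]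

/-- the edge group of `w u` is the stabiliser of a sink of `K'` which lies in a cell -/
def TU {V' : Type} {w : X} [MulAction ↥(stabilizer H w) V'] (K' : GX ↥(stabilizer H w) V')
    (u : X) : Prop :=
  ∃ T : V', K'.Snk T ∧ K'.VC T ∧ ∀ a : ↥(stabilizer H w), a • T = T ↔ a.1 • u = u

/-- edge groups are conjugate -/

theorem edge_emb {w u x y : X} {h : H}
    (hh : (h • w = x ∧ h • u = y) ∨ (h • w = y ∧ h • u = x)) :
    ∃ e : ↥(stabilizer H w ⊓ stabilizer H u) →* ↥(stabilizer H x ⊓ stabilizer H y),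
      Function.Injective e := by
  let e : ↥(stabilizer H w ⊓ stabilizer H u) →* ↥(stabilizer H x ⊓ stabilizer H y) :=
    { toFun := fun a => ⟨h * a.1 * h⁻¹, by
        have h1 : a.1 • w = w := a.2.1
        have h2 : a.1 • u = u := a.2.2
        rcases hh with ⟨rfl, rfl⟩ | ⟨rfl, rfl⟩
        · refine ⟨?_, ?_⟩
          · show (h * a.1 * h⁻¹) • h • w = h • w
            rw [mul_smul, inv_smul_smul, mul_smul, h1]
          · show (h * a.1 * h⁻¹) • h • u = h • u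
            rw [mul_smul, inv_smul_smul, mul_smul, h2]
        · refine ⟨?_, ?_⟩
          · show (h * a.1 * h⁻¹) • h • u = h • u
            rw [mul_smul, inv_smul_smul, mul_smul, h2]
          · show (h * a.1 * h⁻¹) • h • w = h • w
            rw [mul_smul, inv_smul_smul, mul_smul, h1]⟩
      map_one' := Subtype.ext (by
        show h * 1 * h⁻¹ = 1
        rw [mul_one, mul_inv_cancel])
      map_mul' := fun a b => Subtype.ext (by
        show h * (a.1 * b.1) * h⁻¹ = h * a.1 * h⁻¹ * (h * b.1 * h⁻¹)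
        group) }
  refine ⟨e, ?_⟩
  intro a b hab
  have h1 : h * a.1 * h⁻¹ = h * b.1 * h⁻¹ := congrArg Subtype.val hab
  exact Subtype.ext (mul_left_cancel (mul_right_cancel h1))

theorem zt_edge_of {w u x y : X} {h : H}
    (hh : (h • w = x ∧ h • u = y) ∨ (h • w = y ∧ h • u = x))
    (hz : Zt ↥(stabilizer H x ⊓ stabilizer H y)) : Zt ↥(stabilizer H w ⊓ stabilizer H u) := by
  obtain ⟨e, he⟩ := edge_emb hh
  exact hz.of_inj e he

variable {V' : Type} {w u : X} [MulAction ↥(stabilizer H w) V'] {K' : GX ↥(stabilizer H w) V'}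

/-- members of `P_4 K'` kill the elements of the edge group (of finite order for `Z` type) -/
theorem TU.kill (hT : TU K' u) {f : H2m ↥(stabilizer H w)} (hf : f ∈ K'.P4)
    {a : ↥(stabilizer H w)} (ha : a.1 • u = u)
    (hz : Zt ↥(stabilizer H w ⊓ stabilizer H u) → ¬ IO a) : f (Additive.ofMul a) = 0 := by
  obtain ⟨T, h1, h2, h3⟩ := hT
  refine hf.1 T h1 h2 a ((h3 a).2 ha) (fun h4 _ => hz ?_)
  let e : ↥(stabilizer H w ⊓ stabilizer H u) →* ↥(stabilizer ↥(stabilizer H w) T) :=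
    { toFun := fun a => ⟨⟨a.1, a.2.1⟩, (h3 _).2 a.2.2⟩
      map_one' := rfl
      map_mul' := fun _ _ => rfl }
  refine h4.of_inj e ?_
  intro a b hab
  have h5 : a.1 = b.1 := congrArg (fun t : ↥(stabilizer ↥(stabilizer H w) T) => t.1.1) hab
  exact Subtype.ext h5

/-- not strict: extensions in a set `Q` -/
theorem fin_law0 {B : Subgroup H} (L : Submodule (ZMod 2) (H2m ↥B))
    (P Q : Submodule (ZMod 2) (H2m H)) (hP : ∀ φ ∈ Q, res2 B φ ∈ L → φ ∈ P)
    (hs : ∀ f ∈ L, ∃ φ ∈ Q, res2 B φ = f) (hfd : FiniteDimensional (ZMod 2) ↥P) :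
    Module.finrank (ZMod 2) ↥L ≤ Module.finrank (ZMod 2) ↥P := by
  let E : Submodule (ZMod 2) (H2m H) := Q ⊓ L.comap (res2 B)
  have hE : E ≤ P := fun φ h => hP φ h.1 h.2
  have f1 : FiniteDimensional (ZMod 2) ↥E := Submodule.finiteDimensional_of_le hE
  let r : ↥E →ₗ[ZMod 2] ↥L := (res2 B).restrict (fun φ h => h.2)
  have hr : Function.Surjective r := by
    rintro ⟨f, hf⟩
    obtain ⟨φ, hq, h⟩ := hs f hf
    exact ⟨⟨φ, hq, by show res2 B φ ∈ L; rw [h]; exact hf⟩, Subtype.ext h⟩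
  exact (LinearMap.finrank_le_finrank_of_surjective hr).trans (Submodule.finrank_mono hE)

/-- the characters which kill the stabiliser of `u` -/
def KU (H : Type) {X : Type} [Group H] [MulAction H X] (u : X) : Submodule (ZMod 2) (H2m H) where
  carrier := {φ | ∀ a : H, a • u = u → φ (Additive.ofMul a) = 0}
  add_mem' := by
    intro φ ψ h k a e
    rw [AddMonoidHom.add_apply, h a e, k a e, add_zero]
  zero_mem' := fun _ _ => rfl
  smul_mem' := by
    intro c φ h a e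
    show c • φ (Additive.ofMul a) = 0
    rw [h a e, smul_zero]

variable {G : SimpleGraph X} (hG : TAct H G) (hwu : G.Adj w u)
  (he : ∀ x y, G.Adj x y → ∃ h : H, (h • w = x ∧ h • u = y) ∨ (h • w = y ∧ h • u = x))
  {L : Submodule (ZMod 2) (H2m ↥(stabilizer H w))} {P : Submodule (ZMod 2) (H2m H)}
  (hk : ∀ f ∈ L, ∀ v, G.Adj w v → ∀ a : ↥(stabilizer H w), a.1 • v = v →
    (Zt ↥(stabilizer H w ⊓ stabilizer H v) → ¬ IO a) → f (Additive.ofMul a) = 0)
  (hfd : FiniteDimensional (ZMod 2) ↥P)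

include he hk in
/-- an edge group which is not of `Z` type is killed -/
theorem ch_killD (hz : ¬ Zt ↥(stabilizer H w ⊓ stabilizer H u)) {f : H2m ↥(stabilizer H w)}
    (hf : f ∈ L) {v : X} (hv : G.Adj w v) {a : ↥(stabilizer H w)} (ha : a.1 • v = v) :
    f (Additive.ofMul a) = 0 := by
  refine hk f hf v hv a ha (fun h => ?_)
  obtain ⟨k, hk'⟩ := he w v hv
  exact absurd (zt_edge_of hk' h) hz

include hG hwu he hk hfd in
/-- NOT `Z` TYPE, INVERTED -/
theorem ch_D_inv (hne : ∀ h : H, h • w ≠ u)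
    (h2 : ∀ a c : H, a • u = u → c • u = u → a • w ≠ w → c • w ≠ w → (a * c) • w = w)
    {b : H} (hb : b • u = u) (hbw : b • w ≠ w)
    (hP : ∀ φ : H2m H, res2 (stabilizer H w) φ ∈ L → φ ∈ P)
    (hz : ¬ Zt ↥(stabilizer H w ⊓ stabilizer H u)) : Module.finrank (ZMod 2) ↥L + 1 ≤ Module.finrank (ZMod 2) ↥P := by
  obtain ⟨χ, h3, h4⟩ := exists_chiUM (M := ZMod 2) hG.tree hG.adj_smul (w := w) (u := u) he hwu hne
    1 (by decide) h2
  have h0 : χ ≠ 0 := by
    rintro rfl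
    have h5 : (0 : ZMod 2) = 1 := h4 b hb hbw
    exact absurd h5 (by decide)
  exact (law_D hG L P hP hfd h0 (fun a ha => h3 a ha)
    (fun f hf v hv a ha => ch_killD he hk hz hf hv ha)).2

include hG hwu he hk hfd in
/-- NOT `Z` TYPE, HNN -/
theorem ch_D_hnn {t : H} (ht : t • w = u)
    (hP : ∀ φ : H2m H, res2 (stabilizer H w) φ ∈ L → φ ∈ P)
    (hz : ¬ Zt ↥(stabilizer H w ⊓ stabilizer H u)) : Module.finrank (ZMod 2) ↥L + 1 ≤ Module.finrank (ZMod 2) ↥P := by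
  obtain ⟨χ, h0, h1⟩ := exists_chiHnn (H := H) hG.tree hG.adj_smul (x := w) (t := t)
    (by rw [ht]; exact hwu)
  exact (law_D hG L P hP hfd h0 (fun a ha => h1 w a ha)
    (fun f hf v hv a ha => ch_killD he hk hz hf hv ha)).2

include hG he hk hfd in
/-- NOT `Z` TYPE, CASE F -/
theorem ch_F (hne : ∀ h : H, h • w ≠ u)
    (hPF : ∀ φ : H2m H, res2 (stabilizer H w) φ ∈ L →
      (∀ a : H, a • u = u → φ (Additive.ofMul a) = 0) → φ ∈ P)
    (hz : ¬ Zt ↥(stabilizer H w ⊓ stabilizer H u)) : Module.finrank (ZMod 2) ↥L ≤ Module.finrank (ZMod 2) ↥P := by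
  refine fin_law0 L P (KU H u) (fun φ hq h => hPF φ h hq) (fun f hf => ?_) hfd
  obtain ⟨φ, k1, k2⟩ := exists_homA_one hG.tree hG.adj_smul hG.noinv w f
    (fun v hv a ha => ch_killD he hk hz hf hv ha)
  exact ⟨φ, fun a ha => k2 u (fun ⟨h, e⟩ => hne h e) a ha, h2_ext k1⟩

/-- two characters of a group of `Z` type which kill the elements of finite order, one is a twist of
the other -/
theorem h2_twist {J : Type} [Group J] (hz : Zt J) (f f' : H2m J)
    (h1 : ∀ a : J, ¬ IO a → f (Additive.ofMul a) = 0)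
    (h1' : ∀ a : J, ¬ IO a → f' (Additive.ofMul a) = 0)
    (h2 : f = 0 ↔ f' = 0) : f = f' := by
  obtain ⟨z, hgen⟩ := zt_gen hz
  have key : ∀ g : H2m J, (∀ a : J, ¬ IO a → g (Additive.ofMul a) = 0) →
      g (Additive.ofMul z) = 0 → g = 0 := by
    intro g hg h0
    apply h2_ext
    intro a
    obtain ⟨n, k, e, hk⟩ := hgen a
    show g (Additive.ofMul a) = 0
    rw [e, h2_mul, ofMul_zpow, map_zsmul, h0, smul_zero, hg k hk, add_zero]
  have cas : ∀ c : ZMod 2, c = 0 ∨ c = 1 := by decide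
  by_cases h0 : f (Additive.ofMul z) = 0
  · have e1 := key f h1 h0
    rw [e1, h2.1 e1]
  · have h3 : f' (Additive.ofMul z) ≠ 0 := by
      intro h4
      have e1 := key f' h1' h4
      rw [h2.2 e1] at h0
      exact h0 rfl
    have e4 := (cas _).resolve_left h0
    have e5 := (cas _).resolve_left h3
    apply h2_ext
    intro a
    obtain ⟨n, k, e, hk⟩ := hgen a
    rw [e, h2_mul, h2_mul, ofMul_zpow, map_zsmul, map_zsmul, e4, e5, h1 k hk, h1' k hk]

include hG hwu he hk hfd in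
/-- `Z` TYPE, INVERTED, AN ELEMENT OF FINITE ORDER EXCHANGES THE EDGES -/
theorem ch_fin_inv (hne : ∀ h : H, h • w ≠ u)
    (h2 : ∀ a c : H, a • u = u → c • u = u → a • w ≠ w → c • w ≠ w → (a * c) • w = w)
    {b : H} (hb : b • u = u) (hbw : b • w ≠ w) (hio : ¬ IO b)
    (hP : ∀ φ : H2m H, res2 (stabilizer H w) φ ∈ L → φ ∈ P)
    (hz : Zt ↥(stabilizer H w ⊓ stabilizer H u)) : Module.finrank (ZMod 2) ↥L + 1 ≤ Module.finrank (ZMod 2) ↥P := by
  obtain ⟨χ, h3, h4⟩ := exists_chiUM (M := ZMod 2) hG.tree hG.adj_smul (w := w) (u := u) he hwu hne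
    1 (by decide) h2
  have h0 : χ ≠ 0 := by
    rintro rfl
    have h5 : (0 : ZMod 2) = 1 := h4 b hb hbw
    exact absurd h5 (by decide)
  have hbi : b⁻¹ • u = u := by rw [inv_smul_eq_iff, hb]
  have hbiw : b⁻¹ • w ≠ w := by
    intro e
    rw [inv_smul_eq_iff] at e
    exact hbw e.symm
  -- conjugation by `b` keeps the edge group
  have cJ : ∀ j : H, j • w = w → j • u = u → (b * j * b⁻¹) • w = w ∧ (b * j * b⁻¹) • u = u := by
    intro j k1 k2
    refine ⟨?_, ?_⟩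
    · by_contra k3
      have k4 : (b * j * b⁻¹) • u = u := by rw [mul_smul, mul_smul, hbi, k2, hb]
      have k5 := h2 (b * j * b⁻¹) b k4 hb k3 hbw
      rw [mul_smul, mul_smul, inv_smul_smul, mul_smul, k1] at k5
      exact hbw k5
    · rw [mul_smul, mul_smul, hbi, k2, hb]
  have cJ' : ∀ j : H, j • w = w → j • u = u → (b⁻¹ * j * b) • w = w ∧ (b⁻¹ * j * b) • u = u := by
    intro j k1 k2
    refine ⟨?_, ?_⟩
    · by_contra k3
      have k4 : (b⁻¹ * j * b) • u = u := by rw [mul_smul, mul_smul, hb, k2, hbi]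
      have k5 := h2 (b⁻¹ * j * b) b⁻¹ k4 hbi k3 hbiw
      have e : b⁻¹ * j * b * b⁻¹ = b⁻¹ * j := by group
      rw [e, mul_smul, k1] at k5
      exact hbiw k5
    · rw [mul_smul, mul_smul, hb, k2, hbi]
  let J : Subgroup H := stabilizer H w ⊓ stabilizer H u
  refine (fin_law L P hP (fun f hf => ?_) hfd h0 (fun a ha => h3 a ha)).2
  -- the two characters of the edge group
  have hfin : ∀ j : H, j • w = w → j • u = u → ¬ IO j → exm f j = 0 := by
    intro j k1 k2 k3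
    have hj : j ∈ stabilizer H w := k1
    rw [exm_of f hj]
    refine hk f hf u hwu ⟨j, hj⟩ k2 (fun _ h => k3 ?_)
    exact io_coe.2 h
  let f1 : H2m ↥J := mkHa (fun j => exm f j.1) (fun a c => exm_mul f a.2.1 c.2.1)
  let f2 : H2m ↥J := mkHa (fun j => exm f (b * j.1 * b⁻¹)) (fun a c => by
    have e : b * (a * c : ↥J).1 * b⁻¹ = (b * a.1 * b⁻¹) * (b * c.1 * b⁻¹) := by
      show b * (a.1 * c.1) * b⁻¹ = _
      group
    rw [e]
    exact exm_mul f (cJ a.1 a.2.1 a.2.2).1 (cJ c.1 c.2.1 c.2.2).1)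
  have hf12 : f1 = f2 := by
    refine h2_twist hz f1 f2 ?_ ?_ ?_
    · intro a ha
      exact hfin a.1 a.2.1 a.2.2 (fun h => ha (io_coe.1 h))
    · intro a ha
      refine hfin _ (cJ a.1 a.2.1 a.2.2).1 (cJ a.1 a.2.1 a.2.2).2 (fun h => ha (io_coe.1 ?_))
      have h5 : IO (b⁻¹ * (b * a.1 * b⁻¹) * b⁻¹⁻¹) := IO.conj h b⁻¹
      have e : b⁻¹ * (b * a.1 * b⁻¹) * b⁻¹⁻¹ = a.1 := by group
      rwa [e] at h5
    · constructor
      · intro h
        apply h2_ext
        intro a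
        have h5 : exm f (b * a.1 * b⁻¹) = 0 := by
          have := congrArg (fun g : H2m ↥J => g (Additive.ofMul
            (⟨b * a.1 * b⁻¹, (cJ a.1 a.2.1 a.2.2)⟩ : ↥J))) h
          exact this
        exact h5
      · intro h
        apply h2_ext
        intro a
        have h5 : exm f (b * (b⁻¹ * a.1 * b) * b⁻¹) = 0 := by
          have := congrArg (fun g : H2m ↥J => g (Additive.ofMul
            (⟨b⁻¹ * a.1 * b, (cJ' a.1 a.2.1 a.2.2)⟩ : ↥J))) h
          exact this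
        have e : b * (b⁻¹ * a.1 * b) * b⁻¹ = a.1 := by group
        rw [e] at h5
        exact h5
  have hbb : (b * b) • w = w := h2 b b hb hb hbw hbw
  have hbbu : (b * b) • u = u := by rw [mul_smul, hb, hb]
  have hbbio : ¬ IO (b * b) := by
    intro h
    apply hio
    intro n hn e
    refine h n hn ?_
    rw [← pow_two, ← pow_mul, mul_comm 2 n, pow_mul, e, one_pow]
  obtain ⟨φ, k1, -⟩ := exists_homM_b hG.tree hG.adj_smul (w := w) (u := u) he hwu hne hb hbw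
    (fun g k1 k2 => h2 g b⁻¹ k1 hbi k2 hbiw) f (fun j k1 k2 => by
      have := congrArg (fun g : H2m ↥J => g (Additive.ofMul (⟨j, k1, k2⟩ : ↥J))) hf12
      exact this.symm) 0 (by
      rw [add_zero]
      exact hfin _ hbb hbbu hbbio)
  exact ⟨φ, k1⟩

include hG hwu he hk hfd in
/-- `Z` TYPE, INVERTED -/
theorem ch_Z_inv (hne : ∀ h : H, h • w ≠ u)
    (h2 : ∀ a c : H, a • u = u → c • u = u → a • w ≠ w → c • w ≠ w → (a * c) • w = w)
    {b : H} (hb : b • u = u) (hbw : b • w ≠ w)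
    (hP : ∀ φ : H2m H, res2 (stabilizer H w) φ ∈ L → φ ∈ P)
    (hz : Zt ↥(stabilizer H w ⊓ stabilizer H u)) : Module.finrank (ZMod 2) ↥L ≤ Module.finrank (ZMod 2) ↥P := by
  obtain ⟨χ, h3, h4⟩ := exists_chiUM (M := ZMod 2) hG.tree hG.adj_smul (w := w) (u := u) he hwu hne
    1 (by decide) h2
  have h0 : χ ≠ 0 := by
    rintro rfl
    have h5 : (0 : ZMod 2) = 1 := h4 b hb hbw
    exact absurd h5 (by decide)
  obtain ⟨z, hgen⟩ := zt_gen hz
  refine (law_Z_inv hG L P hP hfd h0 (fun a ha => h3 a ha) (u := u) ?_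
    (z := ⟨z.1, z.2.1⟩) ?_ ?_).2
  · intro v hv
    obtain ⟨h, ⟨k1, k2⟩ | ⟨k1, k2⟩⟩ := he w v hv
    · exact ⟨h, k1, k2.symm⟩
    · exfalso
      apply hne h⁻¹
      rw [inv_smul_eq_iff]
      exact k2.symm
  · intro a ha
    obtain ⟨n, k, e, hk⟩ := hgen ⟨a.1, a.2, ha⟩
    refine ⟨n, ⟨k.1, k.2.1⟩, ?_, ?_, k.2.2⟩
    · apply Subtype.ext
      have e1 : a.1 = (z ^ n * k).1 := congrArg Subtype.val e
      exact e1
    · intro h
      have h5 : IO k.1 := (io_coe (J := stabilizer H w) (g := ⟨k.1, k.2.1⟩)).2 h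
      exact hk (io_coe.1 h5)
  · intro f hf a ha hio
    exact hk f hf u hwu a ha (fun _ => hio)

include hG hwu he hk hfd in
/-- `Z` TYPE, HNN -/
theorem ch_Z_hnn {t : H} (ht : t • w = u)
    (hP : ∀ φ : H2m H, res2 (stabilizer H w) φ ∈ L → φ ∈ P)
    (hz : Zt ↥(stabilizer H w ⊓ stabilizer H u)) : Module.finrank (ZMod 2) ↥L ≤ Module.finrank (ZMod 2) ↥P := by
  obtain ⟨χ, h0, h1⟩ := exists_chiHnn (H := H) hG.tree hG.adj_smul (x := w) (t := t)
    (by rw [ht]; exact hwu)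
  obtain ⟨z, hgen⟩ := zt_gen hz
  have hadj : G.Adj w (t⁻¹ • w) := by
    have := hG.adj_smul t⁻¹ _ _ hwu
    rw [← ht, inv_smul_smul] at this
    exact this.symm
  refine (law_Z_hnn hG L P hP hfd h0 (fun a ha => h1 w a ha) (t := t) ?_ ?_
    (z := ⟨z.1, z.2.1⟩) ?_ ?_ ?_).2
  · intro x
    obtain ⟨h, k | k⟩ := inv_orbm (H := H) hG.tree (w := w) (u := u) he hwu x
    · exact ⟨h, k⟩
    · exact ⟨h * t, by rw [mul_smul, ht, k]⟩
  · intro v hv
    obtain ⟨h, ⟨k1, k2⟩ | ⟨k1, k2⟩⟩ := he w v hv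
    · exact ⟨h, k1, Or.inl (by rw [ht, k2])⟩
    · refine ⟨h * t, by rw [mul_smul, ht, k2], Or.inr ?_⟩
      rw [mul_smul, smul_inv_smul, k1]
  · show z.1 • t • w = t • w
    rw [ht]
    exact z.2.2
  · intro a ha
    rw [ht] at ha
    obtain ⟨n, k, e, hk⟩ := hgen ⟨a.1, a.2, ha⟩
    refine ⟨n, ⟨k.1, k.2.1⟩, ?_, ?_, ?_⟩
    · apply Subtype.ext
      have e1 : a.1 = (z ^ n * k).1 := congrArg Subtype.val e
      exact e1
    · intro h
      have h5 : IO k.1 := (io_coe (J := stabilizer H w) (g := ⟨k.1, k.2.1⟩)).2 h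
      exact hk (io_coe.1 h5)
    · rw [ht]
      exact k.2.2
  · intro f hf a ha hio
    rcases ha with ha | ha
    · rw [ht] at ha
      exact hk f hf u hwu a ha (fun _ => hio)
    · exact hk f hf _ hadj a ha (fun _ => hio)

include hG hwu he hk hfd in
/-- THE LAW OF CHARACTERS, INVERTED. `N`: case N. -/
theorem ch_inv (N : Prop) (hne : ∀ h : H, h • w ≠ u)
    (h2 : ∀ a c : H, a • u = u → c • u = u → a • w ≠ w → c • w ≠ w → (a * c) • w = w)
    {b : H} (hb : b • u = u) (hbw : b • w ≠ w)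
    (hP : N → ∀ φ : H2m H, res2 (stabilizer H w) φ ∈ L → φ ∈ P)
    (hPF : ∀ φ : H2m H, res2 (stabilizer H w) φ ∈ L →
      (∀ a : H, a • u = u → φ (Additive.ofMul a) = 0) → φ ∈ P)
    (hN : Zt ↥(stabilizer H w ⊓ stabilizer H u) → N) :
    Module.finrank (ZMod 2) ↥L ≤ Module.finrank (ZMod 2) ↥P ∧ (Module.finrank (ZMod 2) ↥P ≤ Module.finrank (ZMod 2) ↥L →
      (¬ N ∧ ¬ Zt ↥(stabilizer H w ⊓ stabilizer H u)) ∨
      (Zt ↥(stabilizer H w ⊓ stabilizer H u) ∧ ∀ c : H, c • u = u → c • w ≠ w → IO c)) := by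
  by_cases hz : Zt ↥(stabilizer H w ⊓ stabilizer H u)
  · refine ⟨ch_Z_inv hG hwu he hk hfd hne h2 hb hbw (hP (hN hz)) hz, fun hle => Or.inr ⟨hz, ?_⟩⟩
    intro c hc hcw
    by_contra hio
    have := ch_fin_inv hG hwu he hk hfd hne h2 hc hcw hio (hP (hN hz)) hz
    omega
  · refine ⟨ch_F hG he hk hfd hne hPF hz, fun hle => Or.inl ⟨fun hn => ?_, hz⟩⟩
    have := ch_D_inv hG hwu he hk hfd hne h2 hb hbw (hP hn) hz
    omega

include hG hwu he hk hfd in
/-- THE LAW OF CHARACTERS, HNN -/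
theorem ch_hnn {t : H} (ht : t • w = u)
    (hP : ∀ φ : H2m H, res2 (stabilizer H w) φ ∈ L → φ ∈ P) :
    Module.finrank (ZMod 2) ↥L ≤ Module.finrank (ZMod 2) ↥P ∧ (Module.finrank (ZMod 2) ↥P ≤ Module.finrank (ZMod 2) ↥L → Zt ↥(stabilizer H w ⊓ stabilizer H u)) := by
  by_cases hz : Zt ↥(stabilizer H w ⊓ stabilizer H u)
  · exact ⟨ch_Z_hnn hG hwu he hk hfd ht hP hz, fun _ => hz⟩
  · have h1 := ch_D_hnn hG hwu he hk hfd ht hP hz
    exact ⟨by omega, fun hle => by omega⟩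

end

/-! ### `P_4` and `P_5` -/

section

variable {H X : Type} [Group H] [MulAction H X] {V' : Type} {w u : X}
  [MulAction ↥(stabilizer H w) V'] {K' : GX ↥(stabilizer H w) V'}
  {G : SimpleGraph X} (hG : TAct H G) (hwu : G.Adj w u)
  (he : ∀ x y, G.Adj x y → ∃ h : H, (h • w = x ∧ h • u = y) ∨ (h • w = y ∧ h • u = x))
  (hT : ∀ v, G.Adj w v → TU K' v)
  {V : Type} [MulAction H V] {K : GX H V}

include hG hwu he hT in
/-- THE LAW OF `p_4`, INVERTED. `N`: case N. -/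
theorem p4_inv (N : Prop) (hne : ∀ h : H, h • w ≠ u)
    (h2 : ∀ a c : H, a • u = u → c • u = u → a • w ≠ w → c • w ≠ w → (a * c) • w = w)
    {b : H} (hb : b • u = u) (hbw : b • w ≠ w)
    (hP : N → ∀ φ : H2m H, res2 (stabilizer H w) φ ∈ K'.P4 → φ ∈ K.P4)
    (hPF : ∀ φ : H2m H, res2 (stabilizer H w) φ ∈ K'.P4 →
      (∀ a : H, a • u = u → φ (Additive.ofMul a) = 0) → φ ∈ K.P4)
    (hN : Zt ↥(stabilizer H w ⊓ stabilizer H u) → N) :
    K'.p4 ≤ K.p4 ∧ (K.p4 ≤ K'.p4 →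
      (¬ N ∧ ¬ Zt ↥(stabilizer H w ⊓ stabilizer H u)) ∨
      (Zt ↥(stabilizer H w ⊓ stabilizer H u) ∧ ∀ c : H, c • u = u → c • w ≠ w → IO c)) :=
  ch_inv hG hwu he (fun f hf v hv a ha hz => (hT v hv).kill hf ha hz) K.finite_P4 N hne h2 hb hbw
    hP hPF hN

include hG hwu he hT in
/-- THE LAW OF `p_4`, HNN -/
theorem p4_hnn {t : H} (ht : t • w = u)
    (hP : ∀ φ : H2m H, res2 (stabilizer H w) φ ∈ K'.P4 → φ ∈ K.P4) :
    K'.p4 ≤ K.p4 ∧ (K.p4 ≤ K'.p4 → Zt ↥(stabilizer H w ⊓ stabilizer H u)) :=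
  ch_hnn hG hwu he (fun f hf v hv a ha hz => (hT v hv).kill hf ha hz) K.finite_P4 ht hP

/-- members of `P_5 K'` kill the elements of finite order of an edge group of `Z` type -/
theorem TU.kill5 {u : X} (hT : TU K' u) (hi : Infinite ↥(stabilizer H w ⊓ stabilizer H u))
    (hz : Zt ↥(stabilizer H w ⊓ stabilizer H u)) {f : H2m ↥(stabilizer H w)} (hf : f ∈ K'.P5)
    {a : ↥(stabilizer H w)} (ha : a.1 • u = u) (hio : ¬ IO a) : f (Additive.ofMul a) = 0 := by
  obtain ⟨T, h1, h2, h3⟩ := hT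
  let e : ↥(stabilizer H w ⊓ stabilizer H u) →* ↥(stabilizer ↥(stabilizer H w) T) :=
    { toFun := fun a => ⟨⟨a.1, a.2.1⟩, (h3 _).2 a.2.2⟩
      map_one' := rfl
      map_mul' := fun _ _ => rfl }
  let e' : ↥(stabilizer ↥(stabilizer H w) T) →* ↥(stabilizer H w ⊓ stabilizer H u) :=
    { toFun := fun a => ⟨a.1.1, a.1.2, (h3 a.1).1 a.2⟩
      map_one' := rfl
      map_mul' := fun _ _ => rfl }
  have he : Function.Injective e := by
    intro a b hab
    have h5 : a.1 = b.1 := congrArg (fun t : ↥(stabilizer ↥(stabilizer H w) T) => t.1.1) hab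
    exact Subtype.ext h5
  have he' : Function.Injective e' := by
    intro a b hab
    have h5 : a.1.1 = b.1.1 :=
      congrArg (fun t : ↥(stabilizer H w ⊓ stabilizer H u) => t.1) hab
    exact Subtype.ext (Subtype.ext h5)
  have k1 : Zt ↥(stabilizer ↥(stabilizer H w) T) := hz.of_inj e' he'
  have k2 : Infinite ↥(stabilizer ↥(stabilizer H w) T) := Infinite.of_injective e he
  exact hf.1 T h1 h2 a ((ny_zt k1 k2).2 ⟨(h3 a).2 ha, hio⟩)

variable (hi : Infinite ↥(stabilizer H w ⊓ stabilizer H u))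
  (hz : Zt ↥(stabilizer H w ⊓ stabilizer H u))

include he hT hi hz in
theorem kill5 : ∀ f ∈ K'.P5, ∀ v, G.Adj w v → ∀ a : ↥(stabilizer H w), a.1 • v = v →
    (Zt ↥(stabilizer H w ⊓ stabilizer H v) → ¬ IO a) → f (Additive.ofMul a) = 0 := by
  intro f hf v hv a ha h
  obtain ⟨k, hk⟩ := he w v hv
  have h1 : Zt ↥(stabilizer H w ⊓ stabilizer H v) := by
    refine zt_edge_of (h := k⁻¹) ?_ hz
    rcases hk with ⟨e1, e2⟩ | ⟨e1, e2⟩
    · exact Or.inl ⟨inv_smul_eq_iff.2 e1.symm, inv_smul_eq_iff.2 e2.symm⟩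
    · exact Or.inr ⟨inv_smul_eq_iff.2 e2.symm, inv_smul_eq_iff.2 e1.symm⟩
  have h2 : Infinite ↥(stabilizer H w ⊓ stabilizer H v) := by
    obtain ⟨e, he'⟩ := edge_emb hk
    exact Infinite.of_injective e he'
  exact (hT v hv).kill5 h2 h1 hf ha (h h1)

include hG hwu he hT hi hz in
/-- THE LAW OF `p_5` AT WALLS OF `Z` TYPE, INVERTED -/
theorem p5_Z_inv (hne : ∀ h : H, h • w ≠ u)
    (h2 : ∀ a c : H, a • u = u → c • u = u → a • w ≠ w → c • w ≠ w → (a * c) • w = w)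
    {b : H} (hb : b • u = u) (hbw : b • w ≠ w)
    (hP : ∀ φ : H2m H, res2 (stabilizer H w) φ ∈ K'.P5 → φ ∈ K.P5) : K'.p5 ≤ K.p5 :=
  ch_Z_inv hG hwu he (kill5 he hT hi hz) K.finite_P5 hne h2 hb hbw hP hz

include hG hwu he hT hi hz in
/-- THE LAW OF `p_5` AT WALLS OF `Z` TYPE, HNN -/
theorem p5_Z_hnn {t : H} (ht : t • w = u)
    (hP : ∀ φ : H2m H, res2 (stabilizer H w) φ ∈ K'.P5 → φ ∈ K.P5) : K'.p5 ≤ K.p5 :=
  ch_Z_hnn hG hwu he (kill5 he hT hi hz) K.finite_P5 ht hP hz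

end

end Pool.Agent.DI
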