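import Pool.Agent.DI.P4h
import Pool.Agent.DI.PG
import Pool.Agent.DI.QNe
import Pool.Agent.DI.QNB
import Pool.Agent.DI.Thin2
import Pool.Agent.DI.P4L
import Pool.Agent.DI.Main0

/-!
# The hypotheses of the laws of `p_4` and `p_5` from a passive step

`Sy1.nbw`: no backtracking cells. `Psv.pzH`: `S.PzH` from `S.Psv`, the midpoints (`S.Mp`), the hubs with two
diamonds and the sinks `t_u`. `P45.thin_P4`, `thin_P5`: thinning does not change `P_4`, `P_5`.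
`PzH.TU`: every edge group at `w` is the stabiliser of a sink. `Psv.p5_Z`: the law of `p_5` at walls of
`Z` type.
-/

namespace Pool.Agent.DI

open MulAction
open Pool.Agent.SAF (InC SA orbs FinOrb oc Decomp SAn Conv hull dist_edge FinOrb_iff exists_next TAct)
open Pool.Agent.SAG (IO Zt)
open Pool.Agent.BT (PX PQ JS bey exits Ell Hyp lz lz_self lz_ne lz_symm x_next_unique)
open Pool.Agent.BT.TA

/-- the pentagons -/
def P45.pzPG {H V : Type} [Group H] [MulAction H V] {K : GX H V} (P : P45 K) : PG K where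
  five i := ¬ P.sq i
  pt := P.pt
  cb_eq := P.cb5
  cw_eq := P.cw5

namespace P45

variable {H V : Type} [Group H] [MulAction H V] {K : GX H V} (P : P45 K)

/-- THINNING DOES NOT CHANGE `P_4`, `P_5` -/
theorem thin_P : P.thin.P4 = K.P4 ∧ P.thin.P5 = K.P5 := by
  have h1 := GX.P4_le_of_cor (K := K) (K' := P.thin) (fun _ _ => Iff.rfl) (fun _ _ _ => P.thin_Cor)
  have h2 := GX.P4_le_of_cor (K := P.thin) (K' := K) (fun _ _ => Iff.rfl)
    (fun _ _ _ => P.thin_Cor.symm)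
  exact ⟨le_antisymm h1.1 h2.1, le_antisymm h1.2 h2.2⟩

theorem thin_p4 : P.thin.p4 = K.p4 := by
  show Module.finrank (ZMod 2) ↥P.thin.P4 = Module.finrank (ZMod 2) ↥K.P4
  rw [P.thin_P.1]

theorem thin_p5 : P.thin.p5 = K.p5 := by
  show Module.finrank (ZMod 2) ↥P.thin.P5 = Module.finrank (ZMod 2) ↥K.P5
  rw [P.thin_P.2]

end P45

namespace SyQ

variable {H V : Type} [Group H] [MulAction H V] {S : SyQ H V} {w : S.X} {O : S.OR w}
  {E : V → Prop}

/-- no backtracking pentagon -/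
theorem nb_wm (hc : S.Conn) (hm : S.WMin w) {i : S.K.I} (hi : ¬ S.P.sq i) (j : Fin 5) :
    S.P.pt i j ≠ S.P.pt i (j + 2) := by
  obtain ⟨g, hg⟩ := c5_all hc hm hi
  let c : S.C5 w := ⟨i, hi, g, hg⟩
  have hns : ¬ (S.k0P hc w).sq (Sum.inl c) := by
    rintro ⟨p, h⟩
    cases h
  have a : (S.k0P hc w).pzPG.At (fun j => (S.k0P hc w).pt (Sum.inl c) j) (Sum.inl c) :=
    ⟨hns, 1, 0, Or.inl fun j => by rw [one_smul, zero_add]; rfl⟩
  have h1 := a.ne2 (k0_min hc hm) j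
  intro e
  apply h1
  show S.rho w (S.tr c.g i j) = S.rho w (S.tr c.g i (j + 2))
  unfold tr
  rw [e]

theorem Sy1.nbw (h : S.Sy1 w) (nd : S.P.ND) : S.NB :=
  S.P.nb_of (fun _ hi j => nb_wm h.gd.conn h.wm hi j) nd

/-- every edge has an end in the orbit of `w` -/
theorem Sy1.edge_w (h : S.Sy1 w) (x z : S.X) (hxz : S.D.G.Adj x z) :
    (∃ g : H, g • w = x) ∨ ∃ g : H, g • w = z := by
  obtain ⟨k, hk⟩ := S.D.nofix w
  obtain ⟨u, hu, -⟩ := exists_next S.D.tree (Ne.symm hk)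
  obtain ⟨g, ⟨h1, -⟩ | ⟨h1, -⟩⟩ := h.one _ _ _ _ hu hxz
  · exact Or.inl ⟨g, h1⟩
  · exact Or.inr ⟨g, h1⟩

/-- THE HYPOTHESES OF THE LAWS OF `p_4`, `p_5` -/
theorem Psv.pzH (h : S.Psv w O E) (nd : S.P.ND)
    (hmp : (∀ x y : S.X, ∃ g : H, g • x = y) ∨ ∃ u w', S.Inv1 w u ∧ S.Mp w u w')
    (dq : ∀ q n g u u', S.J q = {w} → S.Dia w u q → S.Dia w u' q → u ≠ u' → S.K.PG q n g →
      ∃ v, S.D.G.Adj w v ∧ g • v = v)
    (tu : ∀ u, (S.kf h.gd.conn w O).VC (S.fq w O (Sum.inr u))) :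
    S.PzH h.gd.conn w O where
  k0m := k0_min h.gd.conn h.wm
  sqn := S.sqN h.gd.conn w O
  nb := h.nbw nd
  soft := h.gd.soft
  one := h.gd.one
  tog := h.tog
  lc := h.lc
  nf := h.nf
  edge := h.edge_w
  mid := by
    intro p
    rcases hmp with k | ⟨u, w', hi, m⟩
    · exact Or.inl (k w p)
    · rcases hi.orb p with ⟨g, hg⟩ | ⟨g, hg⟩
      · exact Or.inl ⟨g, hg⟩
      · refine Or.inr ⟨g⁻¹, w, w', ?_⟩
        rw [← hg, inv_smul_smul]
        exact m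
  dq := dq
  tu := tu

/-- the edge groups at `w` are the stabilisers of the sinks `t_u` -/
theorem tU_kf (hc : S.Conn) (O : S.OR w) (tu : ∀ u, (S.kf hc w O).VC (S.fq w O (Sum.inr u)))
    (v : S.X) (hv : S.D.G.Adj w v) : _root_.Pool.Agent.DI.TU (S.kf hc w O) v :=
  ⟨_, vdz_t_snk hc O ⟨v, hv⟩, tu _, fun _ => vdz_t_stab _ _⟩

/-- the edges in terms of the first one -/
theorem Sy1.he (h : S.Sy1 w) {u : S.X} (hu : S.D.G.Adj w u) (x y : S.X) (hxy : S.D.G.Adj x y) :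
    ∃ g : H, (g • w = x ∧ g • u = y) ∨ (g • w = y ∧ g • u = x) :=
  h.one _ _ _ _ hu hxy

/-- the square of an element which reverses the edge -/
theorem Inv1.h2 {u : S.X} (hi : S.Inv1 w u) (a c : H) (ha : a • u = u) (hc : c • u = u)
    (haw : a • w ≠ w) (hcw : c • w ≠ w) : (a * c) • w = w := by
  obtain ⟨g, -, -, h2⟩ := hi.flip
  have key : ∀ k : H, k • u = u → k • w = w ∨ k • w = g • w := by
    intro k hk
    apply h2
    have := S.D.adj_smul k u w hi.adj.symm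
    rwa [hk] at this
  have ka := (key a ha).resolve_left haw
  have kc := (key c hc).resolve_left hcw
  have k3 := key (a * c) (by rw [mul_smul, hc, ha])
  refine k3.resolve_right fun e => ?_
  rw [mul_smul, kc, ← ka] at e
  exact haw (smul_left_cancel a e)

/-- THE LAW OF `p_5` AT WALLS OF `Z` TYPE -/
theorem Psv.p5_Z (h : S.Psv w O E) (p : S.PzH h.gd.conn w O) (hz : S.ZW w) :
    (h.kP O).thin.p5 ≤ S.K.p5 := by
  rw [P45.thin_p5]
  obtain ⟨u0, hu0, hz0⟩ := hz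
  have hz : ∀ u, S.D.G.Adj w u →
      Infinite ↥(stabilizer H w ⊓ stabilizer H u) ∧ Zt ↥(stabilizer H w ⊓ stabilizer H u) :=
    fun u hu => ⟨h.inf _ _ hu, h.zt_all hu0 hu hz0⟩
  have hT := tU_kf h.gd.conn O p.tu
  have hP := p.p5 hz
  rcases h.alt with ht | ⟨u, hi⟩
  · obtain ⟨t, ht⟩ := ht w u0
    exact p5_Z_hnn ⟨S.D.tree, S.D.adj_smul, S.D.noinv⟩ hu0 (h.he hu0) hT (hz _ hu0).1 (hz _ hu0).2 ht hP
  · obtain ⟨b, hb, hbw, -⟩ := hi.flip
    exact p5_Z_inv ⟨S.D.tree, S.D.adj_smul, S.D.noinv⟩ hi.adj (h.he hi.adj) hT (hz _ hi.adj).1 (hz _ hi.adj).2 hi.ne hi.h2 hb hbw hP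

end SyQ

end Pool.Agent.DI
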