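import Pool.Agent.DI.P4W
import Pool.Agent.DI.PzP

/-!
# DI/P4V: the law of `p_4` of a passive step

`Psv.p4_law`: `p_4` of the thinned folded slice; equality only at a wall of `Z` type where all elements of the
midpoint group which exchange the two edges have infinite order, or in case F at a wall of `D` type.
`Psv.plb`: at a wall of `Z` type, in the case of equality, all places of the edges of `K` are in the orbit
of `w`; `Psv.no_over`: no vertex is over a midpoint.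
-/

namespace Pool.Agent.DI

open MulAction
open Pool.Agent.SAF (TAct)
open Pool.Agent.SAG (IO Zt)

namespace SyQ

variable {H V : Type} [Group H] [MulAction H V] {S : SyQ H V} {w : S.X} {O : S.OR w}
  {E : V → Prop}

/-- if all exchanging elements have infinite order, no vertex is over `u` -/
theorem Plc.no_over {u w' : S.X} (m : S.Plc w u w')
    (tog : ∀ x a, S.K.ar x a → Infinite ↥(stabilizer H ((x, a) : V × V)) → S.Tog x a)
    (hio : ∀ c : H, c • u = u → c • w ≠ w → IO c) {v : V} (hv : S.J v = {u}) : False := by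
  obtain ⟨g, hg, hgw⟩ := m.rev v hv
  have hgu := m.mp.fix_u hv hg
  obtain ⟨a, ha⟩ := m.mp.ov_pole hv
  have hfin : Finite ↥(stabilizer H v) := by
    refine pz_finite tog ha ?_
    rintro ⟨p, h1, h2⟩
    have hu := (m.mp.rev_pole hv hg hgw ha)
    rw [h2] at hu
    exact m.mp.mid.ne ((Set.mem_singleton_iff.1 hu.1).trans (Set.mem_singleton_iff.1 hu.2).symm)
  exact pz_nio hfin hg (hio g hgu (by rw [hgw]; exact m.mp.mid.ne.symm))

/-- all places are in the orbit of `w` -/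
def PLB (S : SyQ H V) (w : S.X) : Prop :=
  ∀ x y, S.K.E x y → ∀ p ∈ S.J x, p ∈ S.J y → ∃ g : H, g • w = p

/-- no vertex over the midpoints: all places are in the orbit of `w` -/
theorem Sy1.plb_of (h : S.Sy1 w) (hm : ∀ u, S.Inv1 w u → ∃ w', S.Mp w u w')
    (hno : ∀ u, S.Inv1 w u → ∀ v, S.J v ≠ {u}) : S.PLB w := by
  intro x y e p hx hy
  rcases h.alt with k | ⟨u, i⟩
  · exact k w p
  · rcases i.orb p with k | ⟨g, hg⟩
    · exact k
    · exfalso
      obtain ⟨w', m⟩ := hm u i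
      have h1 : u ∈ S.J (g⁻¹ • x) := by
        have := S.js.smul g⁻¹ x p hx
        rwa [← hg, inv_smul_smul] at this
      have h2 : u ∈ S.J (g⁻¹ • y) := by
        have := S.js.smul g⁻¹ y p hy
        rwa [← hg, inv_smul_smul] at this
      rcases m.u1 (e.imp (S.K.ar_smul g⁻¹ _ _) (S.K.ar_smul g⁻¹ _ _)) h1 h2 with k | k
      · exact hno u i _ k
      · exact hno u i _ k

/-- THE LAW OF `p_4` OF A PASSIVE STEP -/
theorem Psv.p4_law (h : S.Psv w O E)
    (tu : ∀ u, (S.kf h.gd.conn w O).VC (S.fq w O (Sum.inr u)))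
    (hP : (∀ u, S.Inv1 w u → ¬ S.CF u) →
      ∀ φ : H2m H, res2 (stabilizer H w) φ ∈ (S.kf h.gd.conn w O).P4 → φ ∈ S.K.P4)
    (hPF : ∀ u, S.Inv1 w u → ∀ φ : H2m H,
      res2 (stabilizer H w) φ ∈ (S.kf h.gd.conn w O).P4 →
      (∀ a : H, a • u = u → φ (Additive.ofMul a) = 0) → φ ∈ S.K.P4)
    (hN : ∀ u, S.Inv1 w u → S.CF u → ¬ Zt ↥(stabilizer H w ⊓ stabilizer H u)) :
    (h.kP O).thin.p4 ≤ S.K.p4 ∧ (S.K.p4 ≤ (h.kP O).thin.p4 →
      (S.ZW w ∧ ∀ u, S.Inv1 w u → ∀ c : H, c • u = u → c • w ≠ w → IO c) ∨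
      (¬ S.ZW w ∧ ∃ u, S.Inv1 w u ∧ S.CF u)) := by
  have hG : TAct H S.D.G := ⟨S.D.tree, S.D.adj_smul, S.D.noinv⟩
  have hT := tU_kf h.gd.conn O tu
  rw [P45.thin_p4]
  by_cases hinv : ∃ u, S.Inv1 w u
  · have key : ∀ u, S.Inv1 w u → (S.kf h.gd.conn w O).p4 ≤ S.K.p4 ∧
        (S.K.p4 ≤ (S.kf h.gd.conn w O).p4 →
          (¬ (∀ u, S.Inv1 w u → ¬ S.CF u) ∧ ¬ Zt ↥(stabilizer H w ⊓ stabilizer H u)) ∨
          (Zt ↥(stabilizer H w ⊓ stabilizer H u) ∧ ∀ c : H, c • u = u → c • w ≠ w → IO c)) := by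
      intro u i
      obtain ⟨b, hb, hbw, -⟩ := i.ex
      exact p4_inv (K' := S.kf h.gd.conn w O) (K := S.K) hG i.adj (h.edges i.adj) hT
        (N := ∀ u, S.Inv1 w u → ¬ S.CF u) i.ne i.two hb hbw hP (hPF u i)
        (fun hz v j hF => hN v j hF (h.zt_all i.adj j.adj hz))
    obtain ⟨u, i⟩ := hinv
    refine ⟨(key u i).1, fun hle => ?_⟩
    by_cases hz : S.ZW w
    · refine Or.inl ⟨hz, fun v j => ?_⟩
      rcases (key v j).2 hle with ⟨-, k⟩ | ⟨-, k⟩
      · obtain ⟨u', hu', hz'⟩ := hz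
        exact absurd (h.zt_all hu' j.adj hz') k
      · exact k
    · refine Or.inr ⟨hz, ?_⟩
      rcases (key u i).2 hle with ⟨k, -⟩ | ⟨k, -⟩
      · push Not at k
        exact k
      · exact absurd ⟨u, i.adj, k⟩ hz
  · obtain ⟨u, hu, t, ht⟩ := h.hnn_or.resolve_right hinv
    have key := p4_hnn (K' := S.kf h.gd.conn w O) (K := S.K) hG hu (h.edges hu) hT ht
      (hP (fun v j => (hinv ⟨v, j⟩).elim))
    exact ⟨key.1, fun hle => Or.inl ⟨⟨u, hu, key.2 hle⟩, fun v j => (hinv ⟨v, j⟩).elim⟩⟩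

/-- no vertex over a midpoint -/
theorem Psv.no_over (h : S.Psv w O E)
    (hio : ∀ u, S.Inv1 w u → ∀ c : H, c • u = u → c • w ≠ w → IO c) :
    ∀ u, S.Inv1 w u → ∀ v, S.J v ≠ {u} := by
  intro u i v hv
  obtain ⟨w', m⟩ := h.mid u i
  exact m.no_over h.tog (hio u i) hv

/-- all places are in the orbit of `w` -/
theorem Psv.plb (h : S.Psv w O E)
    (hio : ∀ u, S.Inv1 w u → ∀ c : H, c • u = u → c • w ≠ w → IO c) : S.PLB w :=
  h.plb_of (fun u i => (h.mid u i).imp fun _ m => m.mp) (h.no_over hio)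

end SyQ

end Pool.Agent.DI
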