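import Pool.Agent.DI.Geo4

/-!
# DI/Geo4M: squares over a midpoint

`S.MQ w u w'`: `u` has exactly the neighbours `w`, `w'`; no edge of `K` joins a vertex crossing `u w` to a
vertex crossing `u w'`; no sink over `u`; a soft over `u` is reversed, its poles cross both edges, its pages
cross at most one; a soft has at most one pole over `u`.
For a top `T` of a square `(y; a, T, b)`:
`MQ.not3`: not all four subtrees meet in `u`. `MQ.not2`: in case 2 the top does not sit at `u`.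
`MQ.cas2`: in case 2 with the partner end at `u` the partner is lost over `u` (`J y = {u}`, no sink; for
`y → b` the pole `b` crosses both edges). `MQ.cas1`: in case 1 with the end of `a` at `u` the side `a` is
lost over `u` and `T` crosses exactly one edge at `u`. `MQ.nT`: a top is never over `u`.
`MQ.ovr`: a square with a vertex over `u`. `MQ.seen`: a square which is seen at `u`.
-/

namespace Pool.Agent.DI

open MulAction
open Pool.Agent.SAF (Conv exists_next)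
open Pool.Agent.BT (bey x_next_unique)
open Pool.Agent.BT.TA

namespace SyQ

variable {H V : Type} [Group H] [MulAction H V] {S : SyQ H V}

/-- a convex set which contains `u` and a second point contains a neighbour of `u` -/
theorem nb_of_mem {x : V} {u p : S.X} (hu : u ∈ S.J x) (hp : p ∈ S.J x) (hne : p ≠ u) :
    ∃ t, S.D.G.Adj u t ∧ t ∈ S.J x ∧ p ∈ bey S.D.G u t := by
  obtain ⟨t, ht, e⟩ := exists_next S.D.tree (fun e => hne e.symm : u ≠ p)
  have hb : p ∈ bey S.D.G u t := by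
    show S.D.G.dist p u = S.D.G.dist p t + 1
    rw [SimpleGraph.dist_comm, e, SimpleGraph.dist_comm]
  exact ⟨t, ht, (conv_cr S.D.tree (S.js.conv x) ht hu hp (bey_self ht.symm) hb).2, hb⟩

/-- THE HYPOTHESES AT A MIDPOINT `u` -/
structure MQ (S : SyQ H V) (w u w' : S.X) : Prop where
  hw : S.D.G.Adj u w
  hw' : S.D.G.Adj u w'
  ne : w ≠ w'
  val : ∀ z, S.D.G.Adj u z → z = w ∨ z = w'
  nj : ∀ {x y : V}, S.K.E x y → S.Cs u w x → S.Cs u w' y → False
  snk : ∀ {x : V}, S.J x = {u} → ∃ a, S.K.ar x a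
  pole : ∀ {v a : V}, S.J v = {u} → S.K.ar v a → S.Cs u w a ∧ S.Cs u w' a
  page : ∀ {v n : V}, S.J v = {u} → S.K.ar n v → ¬ (S.Cs u w n ∧ S.Cs u w' n)
  one : ∀ {x a b : V}, S.K.ar x a → S.K.ar x b → S.J a = {u} → S.J b = {u} → a = b
  rev : ∀ {v : V}, S.J v = {u} → ∃ g : H, g • v = v ∧ g • w = w'

namespace MQ

variable {w u w' : S.X}

theorem symm (m : S.MQ w u w') : S.MQ w' u w where
  hw := m.hw'
  hw' := m.hw
  ne := m.ne.symm
  val z hz := (m.val z hz).symm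
  nj e h h' := m.nj e.symm h' h
  snk := m.snk
  pole h h' := (m.pole h h').symm
  page h h' k := m.page h h' k.symm
  one := m.one
  rev {v} h := by
    obtain ⟨g, g1, g2⟩ := m.rev h
    exact ⟨g⁻¹, by rw [inv_smul_eq_iff, g1], by rw [inv_smul_eq_iff, g2]⟩

/-- neither edge is crossed: the vertex is over `u` -/
theorem J_eq (m : S.MQ w u w') {x : V} (hu : u ∈ S.J x) (h1 : ¬ S.Cs u w x)
    (h2 : ¬ S.Cs u w' x) : S.J x = {u} := by
  apply Set.Subset.antisymm
  · intro p hp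
    by_contra hne
    obtain ⟨t, ht, k, -⟩ := nb_of_mem hu hp hne
    rcases m.val t ht with rfl | rfl
    · exact h1 ⟨hu, k⟩
    · exact h2 ⟨hu, k⟩
  · intro p hp
    rw [show p = u from hp]
    exact hu

/-- a neighbour at `u` of a crossing vertex is over `u` -/
theorem nb_eq (m : S.MQ w u w') {x y : V} (e : S.K.E x y) (h : S.Cs u w x ∨ S.Cs u w' x)
    (hu : u ∈ S.J y) : S.J y = {u} := by
  rcases h with h | h
  · exact m.J_eq hu (fun k => S.not_both m.hw e h k) (fun k => m.nj e h k)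
  · exact m.J_eq hu (fun k => m.nj e.symm k h) (fun k => S.not_both m.hw' e h k)

/-- a vertex at `u` is over `u` or crosses one of the edges -/
theorem alt (m : S.MQ w u w') {x : V} (hu : u ∈ S.J x) :
    S.J x = {u} ∨ S.Cs u w x ∨ S.Cs u w' x := by
  by_cases h1 : S.Cs u w x
  · exact Or.inr (Or.inl h1)
  · by_cases h2 : S.Cs u w' x
    · exact Or.inr (Or.inr h2)
    · exact Or.inl (m.J_eq hu h1 h2)

theorem cs_not {x : V} {t : S.X} (ht : S.D.G.Adj u t) (h : S.Cs u t x) : S.J x ≠ {u} := by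
  intro e
  have h1 : t ∈ ({u} : Set S.X) := by
    rw [← e]
    exact h.2
  exact ht.ne (show t = u from h1).symm

/-- neighbours at `u` of a vertex over `u` -/
theorem over_cases (m : S.MQ w u w') {v x : V} (hv : S.J v = {u}) (e : S.K.E v x) :
    (S.Cs u w x ∧ S.Cs u w' x) ∨ S.K.ar x v := by
  rcases e with e | e
  · exact Or.inl (m.pole hv e)
  · exact Or.inr e

variable {F : V → Prop}

/-- CASE 3 AT `u` IS IMPOSSIBLE -/
theorem not3 (m : S.MQ w u w') (hs : S.P.SqE F) {T a b y : V} (k : S.P.Top T a b y)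
    (hF : ¬ F T) : ¬ S.Cas3 T a b y u := by
  intro h
  have hT : u ∈ S.J T := h.p1
  have ha : u ∈ S.J a := h.p0
  have hb : u ∈ S.J b := h.p2
  rcases m.alt hT with h1 | h1
  · -- the poles of `T` cross both edges, one of them is a page of `y`
    have pa := m.pole h1 k.2.1
    have pb := m.pole h1 k.2.2
    have hy : S.J y = {u} := m.nb_eq k.Ea (Or.inl pa.1) h.p3
    rcases (hs.side _ _ _ _ k).resolve_left hF with e | e
    · exact m.page hy e pa
    · exact m.page hy e pb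
  · have ea : S.J a = {u} := m.nb_eq (Or.inl k.2.1 : S.K.E T a) h1 ha
    have eb : S.J b = {u} := m.nb_eq (Or.inl k.2.2 : S.K.E T b) h1 hb
    exact hs.nab _ _ _ _ k (m.one k.2.1 k.2.2 ea eb)

/-- at the end `u` of a segment the vertex sitting there is over `u` -/
theorem end_eq (m : S.MQ w u w') {x0 x1 x2 x3 : V} (h4 : S.W4 x0 x1 x2 x3) {q : S.X}
    (h : S.Al x0 x1 x2 x3 u q) : S.J x1 = {u} ∧ ∃ t, Bt S.D.G u q u t ∧ (t = w ∨ t = w') ∧
      S.Cs u t x0 ∧ S.Cs u t x2 := by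
  obtain ⟨t, ht⟩ := exists_Bt S.D.tree (Sgm.left (G := S.D.G) u q) h.ne
  have c0 := h.cs0 ht
  have c2 := h.cs2 ht
  have ht' := m.val t ht.1
  refine ⟨?_, t, ht, ht', c0, c2⟩
  refine m.nb_eq h4.1 ?_ h.p1
  rcases ht' with rfl | rfl
  · exact Or.inl c0
  · exact Or.inr c0

/-- CASE 2, THE TOP DOES NOT SIT AT `u` -/
theorem not2 (m : S.MQ w u w') (hs : S.P.SqE F) {T a b y : V} (k : S.P.Top T a b y)
    (hF : ¬ F T) {q : S.X} : ¬ S.Cas2 T a b y u q := by
  intro h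
  have h4 := k.1.w4
  obtain ⟨hT, t, ht, ht', -, -⟩ := m.end_eq h4 h
  -- `y` is beyond `t`
  have hy : S.J y ⊆ bey S.D.G u t := h.s3 h4 ht
  have key : ∀ {s s' : S.X}, S.D.G.Adj u s → S.D.G.Adj u s' → s ≠ s' →
      (∃ g : H, g • T = T ∧ g • s = s') → S.J y ⊆ bey S.D.G u s → False := by
    rintro s s' hs1 hs2 hne ⟨g, g1, g2⟩ hyb
    have gy : g • y = y := hs.fix k hF g1
    have gu : g • u = u := by
      have := S.js.smul g T u (by rw [hT]; rfl)
      rw [g1, hT] at this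
      exact this
    obtain ⟨p, hp⟩ := S.js.ne y
    have hp' : g • p ∈ S.J y := by
      have := S.js.smul g y p hp
      rwa [gy] at this
    have b1 : g • p ∈ bey S.D.G u s := hyb hp'
    have b2 : g • p ∈ bey S.D.G u s' := by
      have := Pool.Agent.BT.TA.bey_smul S.D.adj_smul S.D.tree S.D.noinv g (hyb hp)
      rwa [gu, g2] at this
    exact hne (x_next_unique S.D.tree hs1 hs2 b1 b2)
  obtain ⟨g, g1, g2⟩ := m.rev hT
  rcases ht' with rfl | rfl
  · exact key m.hw m.hw' m.ne ⟨g, g1, g2⟩ hy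
  · exact key m.hw' m.hw m.ne.symm ⟨g⁻¹, by rw [inv_smul_eq_iff, g1],
      by rw [inv_smul_eq_iff, g2]⟩ hy

/-- CASE 2, THE PARTNER END AT `u`: the partner is lost over `u` -/
theorem cas2 (m : S.MQ w u w') {T a b y : V} (k : S.P.Top T a b y) {p : S.X}
    (h : S.Cas2 T a b y p u) : S.J y = {u} ∧ (∃ c, S.K.ar y c) ∧
      (∃ t, (t = w ∨ t = w') ∧ S.Cs u t a ∧ S.Cs u t b ∧ S.J T ⊆ bey S.D.G u t) ∧
      (S.K.ar y a → S.Cs u w a ∧ S.Cs u w' a) ∧ (S.K.ar y b → S.Cs u w b ∧ S.Cs u w' b) ∧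
      (S.K.ar a y → ¬ (S.Cs u w a ∧ S.Cs u w' a)) ∧
      (S.K.ar b y → ¬ (S.Cs u w b ∧ S.Cs u w' b)) := by
  have h4 : S.W4 a y b T := ⟨k.Ea, k.Eb.symm, (Or.inl k.2.2 : S.K.E T b).symm,
    (Or.inl k.2.1 : S.K.E T a)⟩
  have h' : S.Al a y b T u p := h.flip
  obtain ⟨hy, t, ht, ht', c0, c2⟩ := m.end_eq h4 h'
  exact ⟨hy, m.snk hy, ⟨t, ht', c0, c2, h'.s3 h4 ht⟩, m.pole hy, m.pole hy, m.page hy, m.page hy⟩

/-- CASE 1, THE END OF `a` AT `u`: the side `a` is lost over `u` -/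
theorem cas1 (m : S.MQ w u w') {T a b y : V} (k : S.P.Top T a b y) {q : S.X}
    (h : S.Cas1 T a b y u q) : S.J a = {u} ∧ (∃ c, S.K.ar a c) ∧
      (∃ t, (t = w ∨ t = w') ∧ S.Cs u t T ∧ S.Cs u t y ∧ S.J b ⊆ bey S.D.G u t) ∧
      ¬ (S.Cs u w T ∧ S.Cs u w' T) := by
  have h4 : S.W4 T a y b := ⟨Or.inl k.2.1, k.Ea, k.Eb.symm, (Or.inl k.2.2 : S.K.E T b).symm⟩
  obtain ⟨ha, t, ht, ht', c0, c2⟩ := m.end_eq h4 h
  exact ⟨ha, m.snk ha, ⟨t, ht', c0, c2, h.s3 h4 ht⟩, m.page ha k.2.1⟩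

/-- CASE 1, THE END OF `b` AT `u`: the side `b` is lost over `u` -/
theorem cas1' (m : S.MQ w u w') {T a b y : V} (k : S.P.Top T a b y) {p : S.X}
    (h : S.Cas1 T a b y p u) : S.J b = {u} ∧ (∃ c, S.K.ar b c) ∧
      (∃ t, (t = w ∨ t = w') ∧ S.Cs u t T ∧ S.Cs u t y ∧ S.J a ⊆ bey S.D.G u t) ∧
      ¬ (S.Cs u w T ∧ S.Cs u w' T) := m.cas1 k.symm' h.flip

/-- the positions of a top -/
theorem _root_.Pool.Agent.DI.P45.Top.pos4m {T a b y : V} (k : S.P.Top T a b y) :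
    (∃ p q, S.Cas1 T a b y p q) ∨ (∃ p q, S.Cas2 T a b y p q) ∨ ∃ p, S.Cas3 T a b y p := by
  rcases k.1.w4.pos with ⟨p, q, h⟩ | ⟨p, q, h⟩ | ⟨p, h⟩
  · exact Or.inr (Or.inl ⟨p, q, h⟩)
  · -- `Al T b y a p q`
    exact Or.inl ⟨q, p, h.flip⟩
  · exact Or.inr (Or.inr ⟨p, h⟩)

theorem two_ne {x : V} {u p q : S.X} (hp : p ∈ S.J x) (hq : q ∈ S.J x) (hne : p ≠ q) :
    S.J x ≠ {u} := by
  intro e
  rw [e] at hp hq
  exact hne ((show p = u from hp).trans (show q = u from hq).symm)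

/-- A TOP IS NEVER OVER `u` -/
theorem nT (m : S.MQ w u w') (hs : S.P.SqE F) {T a b y : V} (k : S.P.Top T a b y)
    (hF : ¬ F T) : S.J T ≠ {u} := by
  intro e
  rcases k.pos4m with ⟨p, q, h⟩ | ⟨p, q, h⟩ | ⟨p, h⟩
  · exact two_ne h.p0 h.q0 h.ne e
  · have hp : p = u := by
      have := h.p1
      rw [e] at this
      exact this
    subst hp
    exact m.not2 hs k hF h
  · have hp : p = u := by
      have := h.p1
      rw [e] at this
      exact this
    subst hp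
    exact m.not3 hs k hF h

/-- A SQUARE WITH A VERTEX OVER `u`: one side is lost (case 1, the top is over it) or the partner is
lost (case 2) -/
theorem ovr (m : S.MQ w u w') (hs : S.P.SqE F) {T a b y : V} (k : S.P.Top T a b y)
    (hF : ¬ F T) (h : S.J T = {u} ∨ S.J a = {u} ∨ S.J b = {u} ∨ S.J y = {u}) :
    (∃ q, S.Cas1 T a b y u q ∧ S.J a = {u}) ∨ (∃ p, S.Cas1 T a b y p u ∧ S.J b = {u}) ∨
      (∃ p, S.Cas2 T a b y p u ∧ S.J y = {u}) := by
  have mem : ∀ {x : V} {p : S.X}, S.J x = {u} → p ∈ S.J x → p = u := by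
    intro x p e hp
    rw [e] at hp
    exact hp
  rcases k.pos4m with ⟨p, q, c⟩ | ⟨p, q, c⟩ | ⟨p, c⟩
  · rcases h with e | e | e | e
    · exact absurd e (two_ne c.p0 c.q0 c.ne)
    · have hp := mem e c.p1
      subst hp
      exact Or.inl ⟨q, c, e⟩
    · have hq := mem e c.q3
      subst hq
      exact Or.inr (Or.inl ⟨p, c, e⟩)
    · exact absurd e (two_ne c.p2 c.q2 c.ne)
  · rcases h with e | e | e | e
    · exact absurd e (m.nT hs k hF)
    · exact absurd e (two_ne c.p0 c.q0 c.ne)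
    · exact absurd e (two_ne c.p2 c.q2 c.ne)
    · have hq := mem e c.q3
      subst hq
      exact Or.inr (Or.inr ⟨p, c, e⟩)
  · exfalso
    have hp : p = u := by
      rcases h with e | e | e | e
      · exact mem e c.p1
      · exact mem e c.p0
      · exact mem e c.p2
      · exact mem e c.p3
    subst hp
    exact m.not3 hs k hF c

/-- A SQUARE WHICH IS SEEN AT `u`: it passes through `u` (`T`, `y` resp. `a`, `b` cross both edges), or
one side is lost, or the partner is lost -/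
theorem seen (m : S.MQ w u w') (hs : S.P.SqE F) {T a b y : V} (k : S.P.Top T a b y)
    (hF : ¬ F T) (h : S.Nd4 u a T b y) :
    (∃ p q, S.Cas1 T a b y p q ∧ u ∈ Sgm S.D.G p q ∧ u ≠ p ∧ u ≠ q) ∨
      (∃ p q, S.Cas2 T a b y p q ∧ u ∈ Sgm S.D.G p q ∧ u ≠ p ∧ u ≠ q) ∨
      (∃ q, S.Cas1 T a b y u q ∧ S.J a = {u}) ∨ (∃ p, S.Cas1 T a b y p u ∧ S.J b = {u}) ∨
      (∃ p, S.Cas2 T a b y p u ∧ S.J y = {u}) := by
  have h4 := k.1.w4
  have h4' : S.W4 T a y b := ⟨Or.inl k.2.1, k.Ea, k.Eb.symm, (Or.inl k.2.2 : S.K.E T b).symm⟩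
  rcases k.pos4m with ⟨p, q, c⟩ | ⟨p, q, c⟩ | ⟨p, c⟩
  · have hn : S.Nd4 u T a y b := ⟨h.2, h.1⟩
    have hu := ((c.nd_iff h4').1 hn).1
    by_cases e1 : u = p
    · subst e1
      exact Or.inr (Or.inr (Or.inl ⟨q, c, (m.cas1 k c).1⟩))
    · by_cases e2 : u = q
      · subst e2
        exact Or.inr (Or.inr (Or.inr (Or.inl ⟨p, c, (m.cas1' k c).1⟩)))
      · exact Or.inl ⟨p, q, c, hu, e1, e2⟩
  · have hu := ((c.nd_iff h4).1 h).1
    by_cases e1 : u = p
    · subst e1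
      exact absurd c (m.not2 hs k hF)
    · by_cases e2 : u = q
      · subst e2
        exact Or.inr (Or.inr (Or.inr (Or.inr ⟨p, c, (m.cas2 k c).1⟩)))
      · exact Or.inr (Or.inl ⟨p, q, c, hu, e1, e2⟩)
  · have hu := ((c.nd_iff h4).1 h).1
    subst hu
    exact absurd c (m.not3 hs k hF)

/-- WITHOUT TOPS OVER LOST SOFTS (after the openings): only the partner can be over `u` -/
theorem ovr' (m : S.MQ w u w') (hs : S.P.SqE F) {T a b y : V} (k : S.P.Top T a b y)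
    (hF : ¬ F T) (hn : ∀ T a b y : V, S.P.Top T a b y → S.J a ≠ {u})
    (h : S.J T = {u} ∨ S.J a = {u} ∨ S.J b = {u} ∨ S.J y = {u}) :
    S.J y = {u} ∧ ∃ p, S.Cas2 T a b y p u := by
  rcases m.ovr hs k hF h with ⟨q, -, e⟩ | ⟨p, -, e⟩ | ⟨p, c, e⟩
  · exact absurd e (hn _ _ _ _ k)
  · exact absurd e (hn _ _ _ _ k.symm')
  · exact ⟨e, p, c⟩

/-- a square which passes through `u` in case 1: the top and the partner cross both edges -/
theorem thru1 (m : S.MQ w u w') {T a b y : V} {p q : S.X} (c : S.Cas1 T a b y p q)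
    (hu : u ∈ Sgm S.D.G p q) (h1 : u ≠ p) (h2 : u ≠ q) :
    (S.Cs u w T ∧ S.Cs u w' T) ∧ (S.Cs u w y ∧ S.Cs u w' y) := by
  obtain ⟨t, bt⟩ := exists_Bt S.D.tree hu h2
  have hu' : u ∈ Sgm S.D.G q p := by
    rw [Sgm_symm]
    exact hu
  obtain ⟨s, bs⟩ := exists_Bt S.D.tree hu' h1
  have hts : t ≠ s := by
    rintro rfl
    exact bey_not bt.2.1 bs.2.2
  have e0 := c.cs0 bt
  have e2 := c.cs2 bt
  have f0 := c.cs0 bs.symm
  have f2 := c.cs2 bs.symm
  rcases m.val t bt.1 with rfl | rfl <;> rcases m.val s bs.1 with rfl | rfl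
  · exact absurd rfl hts
  · exact ⟨⟨e0, f0.swap⟩, e2, f2.swap⟩
  · exact ⟨⟨f0.swap, e0⟩, f2.swap, e2⟩
  · exact absurd rfl hts

/-- a square which passes through `u` in case 2: the sides cross both edges -/
theorem thru2 (m : S.MQ w u w') {T a b y : V} {p q : S.X} (c : S.Cas2 T a b y p q)
    (hu : u ∈ Sgm S.D.G p q) (h1 : u ≠ p) (h2 : u ≠ q) :
    (S.Cs u w a ∧ S.Cs u w' a) ∧ (S.Cs u w b ∧ S.Cs u w' b) :=
  m.thru1 (T := a) (a := T) (b := y) (y := b) c hu h1 h2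

end MQ

end SyQ

end Pool.Agent.DI
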