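import Pool.Agent.DI.PlcQ
import Pool.Agent.DI.Geo4M

/-!
# DI/PlM: a placed midpoint satisfies the hypotheses of DI/Geo4M
-/

namespace Pool.Agent.DI

open Pool.Agent.BT (bey)
open Pool.Agent.BT.TA (bey_not)

namespace SyQ

variable {H V : Type} [Group H] [MulAction H V] {S : SyQ H V}

/-- a soft has at most one pole over `u` -/
theorem Mp.one_over {w u w' : S.X} (m : S.Mp w u w') {x a b : V} (ha : S.K.ar x a)
    (hb : S.K.ar x b) (hJa : S.J a = {u}) (hJb : S.J b = {u}) : a = b := by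
  by_contra hne
  have key : ∀ {w w' : S.X}, S.Mp w u w' → w ∈ S.J x → False := by
    intro w w' m h
    have hu := (m.nb hJa (Or.inr ha)).1
    obtain ⟨c, hc, hJc⟩ := S.js.cross x ⟨a, ha⟩ u w m.mid.hw hu h
    have hcu : S.J c = {u} := by
      rcases GX.Sft.cases ha hb hne hc with rfl | rfl
      · exact hJa
      · exact hJb
    have huc : u ∈ S.J c := by rw [hcu]; rfl
    exact Pool.Agent.BT.bey_irr_l (hJc huc)
  rcases (m.nb hJa (Or.inr ha)).2 with h | h
  · exact key m h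
  · exact key m.symm h

/-- THE HYPOTHESES OF DI/Geo4M AT A PLACED MIDPOINT -/
theorem Plc.mq {w u w' : S.X} (p : S.Plc w u w') : S.MQ w u w' where
  hw := p.mp.mid.hw
  hw' := p.mp.mid.hw'
  ne := p.mp.mid.ne
  val := p.mp.mid.val
  nj e h h' := p.mp.no_LL e h.1 h.2 h'.1 h'.2
  snk h := p.mp.ov_pole h
  pole {v a} h ha := by
    obtain ⟨g, g1, g2⟩ := p.rev v h
    obtain ⟨k1, k2⟩ := p.mp.rev_pole h g1 g2 ha
    have k3 := (p.mp.nb h (Or.inl ha : S.K.E v a)).1
    exact ⟨⟨k3, k1⟩, ⟨k3, k2⟩⟩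
  page h hn k := p.mp.page_one h hn k.1.2 k.2.2
  one ha hb h h' := p.mp.one_over ha hb h h'
  rev {v} h := p.rev v h

end SyQ

end Pool.Agent.DI
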