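import Pool.Agent.DI.DupW
import Pool.Agent.DI.LineQ
import Pool.Agent.DI.PlM
import Pool.Agent.DI.P4V

/-!
# The inputs of the exc-law from the objects of a step

`S.Bwo w`: every bare top is the vertex `v` of one orbit of squares (`BrJ`), over the midpoints there are only
bare tops. `Psv.lost`: the lost nodes are bare vertices; `Psv.lostR`; `Psv.bareF`: the hypothesis of the
fold law; `Psv.dup_cnt`: the number of the ends of the duplicates.
-/

namespace Pool.Agent.DI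

open MulAction
open Pool.Agent.SAF (InC SA orbs FinOrb oc Conv exists_next)
open Pool.Agent.BT (PX PQ JS bey exits)
open Pool.Agent.BT.TA

namespace SyQ

variable {H V : Type} [Group H] [MulAction H V] {S : SyQ H V}

/-- THE BARE VERTICES -/
structure Bwo (S : SyQ H V) (w : S.X) : Prop where
  bw : ∀ v a b y, S.P.Top v a b y → S.P.Bare v →
    ∃ (i : S.K.I) (g : H) (p p0 : S.X), v = g • S.P.qt i 3 ∧ S.BrJ i p p0
  bo : ∀ u, S.Inv1 w u → ∀ v, S.J v = {u} → S.P.Bare v ∧ ∃ a b y, S.P.Top v a b y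

/-- the flipped walks -/
def FlW (S : SyQ H V) (i : S.K.I) : Prop := S.Ewk i ∧ S.Flp i

variable {w : S.X} {O : S.OR w} {E : V → Prop}

/-- every node over a point which is no translate of `w` is a bare top -/
theorem Psv.lost (h : S.Psv w O E) (hb : S.Bwo w) {y n : V} (e : S.K.ar n y) {p : S.X}
    (hy : p ∈ S.J y) (hn : p ∈ S.J n) (hp : ∀ g : H, g • w ≠ p) :
    S.P.Bare n ∧ ∃ a b z, S.P.Top n a b z := by
  rcases h.alt with k | ⟨u, i⟩
  · obtain ⟨g, hg⟩ := k w p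
    exact absurd hg (hp g)
  · rcases i.orb p with ⟨g, hg⟩ | ⟨g, hg⟩
    · exact absurd hg (hp g)
    · obtain ⟨w', m⟩ := h.mid u i
      have h1 : u ∈ S.J (g⁻¹ • n) := by
        have := S.js.smul g⁻¹ _ _ hn
        rwa [← hg, inv_smul_smul] at this
      have h2 : u ∈ S.J (g⁻¹ • y) := by
        have := S.js.smul g⁻¹ _ _ hy
        rwa [← hg, inv_smul_smul] at this
      rcases m.mp.u1 (Or.inl (S.K.ar_smul g⁻¹ _ _ e)) h1 h2 with k | k
      · obtain ⟨k1, a, b, z, k2⟩ := hb.bo u i _ k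
        refine ⟨(P45.bare_iff g⁻¹).1 k1, g • a, g • b, g • z, ?_⟩
        have := k2.smul g
        rwa [smul_inv_smul] at this
      · exfalso
        exact (hb.bo u i _ k).1.1 _ (S.K.ar_smul g⁻¹ _ _ e)

/-- over `w` -/
theorem Bp_iff {p : S.X} : Bp H (fun _ : Unit => w) p ↔ ∃ g : H, g • w = p :=
  ⟨fun ⟨_, g, hg⟩ => ⟨g, hg⟩, fun ⟨g, hg⟩ => ⟨(), g, hg⟩⟩

theorem Psv.lost_brJ (h : S.Psv w O E) (hb : S.Bwo w) {y n : V} (e : S.K.ar n y) {p : S.X}
    (hy : p ∈ S.J y) (hn : p ∈ S.J n) (hp : ∀ g : H, g • w ≠ p) :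
    ∃ (i : S.K.I) (g : H) (u p0 : S.X), n = g • S.P.qt i 3 ∧ S.BrJ i u p0 ∧
      (∀ x : H, x • u ≠ p0) := by
  obtain ⟨h1, a, b, z, h2⟩ := h.lost hb e hy hn hp
  obtain ⟨i, g, u, p0, rfl, hi⟩ := hb.bw _ _ _ _ h2 h1
  refine ⟨i, g, u, p0, rfl, hi, ?_⟩
  have hpu : p = g • u := by
    have := J_sg (g := g) hi.Jv
    rw [this] at hn
    exact hn
  refine hi.hu ?_ ?_
  · -- the place of `T` is in `J` of its pole
    obtain ⟨q, q0, q1⟩ := S.one_ex (Or.inl hi.Ta)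
    rw [hi.JT] at q0
    rw [← Set.mem_singleton_iff.1 q0]
    exact q1
  · intro x n' y' e' hn' hy'
    have hp' : ∀ k : H, k • w ≠ x • u := by
      intro k hk
      apply hp (g * x⁻¹ * k)
      rw [mul_smul, hk, mul_smul, inv_smul_smul, hpu]
    obtain ⟨l1, a', b', z', l2⟩ := h.lost hb e' hy' hn' hp'
    obtain ⟨i', x', q, q0, l3, l4⟩ := hb.bw _ _ _ _ l2 l1
    exact ⟨i', x', l3, l4.toBr⟩

/-- [LOST] -/
theorem Psv.lostR (h : S.Psv w O E) (hb : S.Bwo w) :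
    S.LostR (S.pR S.FlW) (fun _ : Unit => w) := by
  refine lostR_of_brJ fun y n e p hy hn hp => ?_
  obtain ⟨i, g, u, p0, k1, k2, k3⟩ := h.lost_brJ hb e hy hn (fun g hg => hp (Bp_iff.2 ⟨g, hg⟩))
  exact ⟨i, g, u, p0, k1, k2, k3, fun k => ⟨k2.ewk, k⟩⟩

end SyQ

end Pool.Agent.DI
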