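import Pool.Agent.DI.ExL0

/-!
# The fold law and the number of the duplicates for the objects of a step

`Psv.barF`: the hypothesis of the fold law. `Psv.hT`: the top of a walk is over `w`. `Psv.dup_cnt`:
`# F + oc H (S.Dz F)` is at most the number of the ends of the duplicates.
-/

namespace Pool.Agent.DI

open MulAction
open Pool.Agent.SAF (InC SA orbs FinOrb oc Conv exists_next)
open Pool.Agent.BT (PX PQ JS bey exits)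
open Pool.Agent.BT.TA

namespace SyQ

variable {H V : Type} [Group H] [MulAction H V] {S : SyQ H V} {w : S.X} {O : S.OR w} {E : V → Prop}

/-- THE HYPOTHESIS OF THE FOLD LAW -/
theorem Psv.barF (h : S.Psv w O E) (hb : S.Bwo w) : S.BareF w h.rz.F := by
  refine bareF_of ?_
  rintro v ⟨hv, hB⟩
  obtain ⟨u, hu⟩ := h.two v hv hB
  obtain ⟨a, b, y, ht, -⟩ := h.rz.top_of_dia hu
  exact ⟨hv, hb.bw _ _ _ _ ht hB⟩

/-- the top `T` of a walk and its poles are over translates of `w` -/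
theorem Psv.hT (h : S.Psv w O E) (hb : S.Bwo w) {i : S.K.I} (hi : S.P.Ew i) {p : S.X}
    (h1 : p ∈ S.J (S.P.qt i 1)) (h2 : p ∈ S.J (S.P.qt i 2)) : ∃ g : H, g • w = p := by
  by_contra hcon
  push Not at hcon
  obtain ⟨i', g, u, p0, e, k, -⟩ := h.lost_brJ hb hi.Tb h2 h1 hcon
  exact k.toBr.not_T hi g e

/-- THE NUMBER OF THE ENDS OF THE DUPLICATES -/
theorem Psv.dup_cnt (h : S.Psv w O E) (hb : S.Bwo w) (hc : S.Conn) (hnb : S.NB)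
    (hw : ∀ (i j : Unit) (g : H), g • (fun _ : Unit => w) i = (fun _ : Unit => w) j → i = j) :
    Nat.card {i // S.FlW i} + oc H (S.Dz h.rz.F) ≤
      S.LPG.nR (S.pQ S.FlW) (cutF hc hnb (fun _ : Unit => w) hw).D := by
  have h1 := dup_ge hc hnb (fun _ : Unit => w) hw (F := S.FlW) (fun i hi => hi.1) (by
    intro i hi
    obtain ⟨p, p0, p1⟩ := S.one_ex (Or.inl hi.1.Tb)
    obtain ⟨g, hg⟩ := h.hT hb hi.1.toEw p0 p1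
    exact ⟨(), g, by rw [hg]; exact p0, by rw [hg]; exact p1⟩) (G := h.rz.F) (by
    intro v hv
    exact ⟨(), (h.barF hb).J1 hv⟩)
  have h2 : {e : S.K.LE | S.FlW e.1.1 ∧ e.1.2.1 = 1 ∧ ∃ g : H, g • S.K.c2 e ∈ h.rz.F} =
      S.Dz h.rz.F := by
    ext e
    exact ⟨fun k => ⟨k.1.1, k.1.2, k.2.1, k.2.2⟩, fun k => ⟨⟨k.1, k.2.1⟩, k.2.2.1, k.2.2.2⟩⟩
  rw [h2] at h1
  exact h1

/-- the exc-law of the fold for the objects of a step -/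
theorem Psv.fold_le (h : S.Psv w O E) (hb : S.Bwo w) {hc : S.Conn} {hm : (S.k0 hc w).Min}
    {hn : S.SqN w O} (hx : KX1 hm hn) (hnb : S.NB) :
    (S.k0 hc w).pexc ≤ (S.kf hc w O).pexc + oc H (S.Dz h.rz.F) :=
  (h.barF hb).exc_le h.rz.fO (h.rz.kSq hx hnb) hm hn hnb

/-- the duplicates: position 1 and position 3 of a flipped walk -/
theorem flW_cor {e : ↥(JM.cpl S.AJ)} (he : e ∈ S.pQ S.FlW) :
    (∃ e' : ↥(JM.cpl S.AJ), e' ∉ S.pQ S.FlW ∧ S.K.c1 e'.1.1 = S.K.c1 e.1.1 ∧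
      S.K.c0 e'.1.1 = S.K.c2 e.1.1 ∧ S.K.c2 e'.1.1 = S.K.c0 e.1.1) ∧
    S.K.ar (S.K.c0 e.1.1) (S.K.c1 e.1.1) ∧ S.K.ar (S.K.c2 e.1.1) (S.K.c1 e.1.1) := by
  obtain ⟨⟨⟨⟨⟨i, k⟩, g⟩, m1⟩, m2⟩, hm⟩ : ∃ x : ↥(JM.cpl S.AJ), x = e := ⟨e, rfl⟩
  subst hm
  obtain ⟨⟨hi, x, x1, x2, x3, x4⟩, hk⟩ := he
  have hk : k.1 = 1 := hk
  have hi : S.Ewk i := hi
  obtain ⟨k0, k1, k2⟩ := hi.corQ hk g
  have hl := S.P.len4 hi.sq
  have l3 : 3 < S.K.len i := by omega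
  have a0 : S.K.c0 ((⟨i, ⟨3, l3⟩⟩, g * x) : S.K.LE) = g • S.P.qt i 3 := by
    show (g * x) • S.K.vx i 3 = _
    rw [Phm.vx hi.sq 3 3 rfl, mul_smul, x1]
  have a1 : S.K.c1 ((⟨i, ⟨3, l3⟩⟩, g * x) : S.K.LE) = g • S.P.qt i 2 := by
    show (g * x) • S.K.vx i (3 + 1) = _
    rw [Phm.vx hi.sq 4 0 rfl, mul_smul, x3]
  have a2 : S.K.c2 ((⟨i, ⟨3, l3⟩⟩, g * x) : S.K.LE) = g • S.P.qt i 1 := by
    show (g * x) • S.K.vx i (3 + 2) = _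
    rw [Phm.vx hi.sq 5 1 rfl, mul_smul, x2]
  have ar1 := S.K.ar_smul g _ _ hi.Tb
  have ar3 := S.K.ar_smul g _ _ hi.vb
  have b1 : ((⟨i, ⟨3, l3⟩⟩, g * x) : S.K.LE) ∈ S.K.PE := by
    left
    rw [a0, a1]
    exact ar3
  have b2 : (⟨_, b1⟩ : ↥S.K.PE) ∈ JM.cpl S.AJ := by
    rintro ⟨-, p, p1, -, p3⟩
    have p1 : p ∈ S.J (S.K.c0 ((⟨i, ⟨3, l3⟩⟩, g * x) : S.K.LE)) := p1
    have p3 : p ∈ S.J (S.K.c2 ((⟨i, ⟨3, l3⟩⟩, g * x) : S.K.LE)) := p3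
    rw [a0] at p1
    rw [a2] at p3
    have q1 := S.js.smul g⁻¹ _ _ p1
    have q3 := S.js.smul g⁻¹ _ _ p3
    rw [inv_smul_smul] at q1 q3
    exact hi.sep0 _ q1 q3
  refine ⟨⟨⟨⟨_, b1⟩, b2⟩, ?_, ?_, ?_, ?_⟩, ?_, ?_⟩
  · rintro ⟨-, h⟩
    have h : (3 : ℕ) = 1 := h
    omega
  · exact a1.trans k1.symm
  · exact a0.trans k2.symm
  · exact a2.trans k0.symm
  · show S.K.ar (S.K.c0 ((⟨i, k⟩, g) : S.K.LE)) (S.K.c1 ((⟨i, k⟩, g) : S.K.LE))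
    rw [k0, k1]
    exact ar1
  · show S.K.ar (S.K.c2 ((⟨i, k⟩, g) : S.K.LE)) (S.K.c1 ((⟨i, k⟩, g) : S.K.LE))
    rw [k2, k1]
    exact ar3

end SyQ

end Pool.Agent.DI
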