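import Pool.Agent.DI.ExL1

/-!
# The number of the duplicates, with the flipped walks over two places

`Psv.dup_cnt3`: `# F + oc H (S.Dz F) +` the number of the flipped walks `(a, T, b, v)` with `v` over a translate
of `w` and not bare is at most the number of the ends of the duplicates.
-/

namespace Pool.Agent.DI

open MulAction
open Pool.Agent.SAF (InC SA orbs FinOrb oc Conv exists_next)
open Pool.Agent.BT (PX PQ JS bey exits)
open Pool.Agent.BT.TA

section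

variable {G Y I : Type} [Group G] [MulAction G Y]

/-- a lower bound for the number of the orbits by a finite set -/
theorem card_le_oc {B : Set Y} (hB : FinOrb G B) (P : I → Prop) (f : ∀ i, P i → Y)
    (hf : ∀ i h, f i h ∈ B) (hi : ∀ i h j k, (∃ g : G, g • f i h = f j k) → i = j) :
    Nat.card {i // P i} ≤ oc G B := by
  have : Finite ↥(orbs G B) := hB
  have h1 : oc G B = Nat.card ↥(orbs G B) := rfl
  rw [h1]
  refine Nat.card_le_card_of_injective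
    (fun i : {i // P i} => (⟨Quotient.mk'' (f i.1 i.2), ⟨_, hf i.1 i.2, rfl⟩⟩ : ↥(orbs G B))) ?_
  rintro ⟨i, h⟩ ⟨j, k⟩ e
  have e1 := congrArg Subtype.val e
  exact Subtype.ext (hi i h j k (SAF.mk_eq_iff.1 e1.symm))

end

namespace SyQ

variable {H V : Type} [Group H] [MulAction H V] {S : SyQ H V} {w : S.X} {O : S.OR w} {E : V → Prop}

/-- the flipped walks with both ends over translates of `w`, the end `v` is not bare -/
def FlV (S : SyQ H V) (w : S.X) (i : S.K.I) : Prop :=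
  S.FlW i ∧ ∃ g : H, S.J (g • S.P.qt i 3) = {w} ∧ ¬ S.P.Bare (S.P.qt i 3)

/-- THE NUMBER OF THE ENDS OF THE DUPLICATES, exact form -/
theorem Psv.dup_cnt3 (h : S.Psv w O E) (hb : S.Bwo w) (hc : S.Conn) (hnb : S.NB)
    (hw : ∀ (i j : Unit) (g : H), g • (fun _ : Unit => w) i = (fun _ : Unit => w) j → i = j) :
    Nat.card {i // S.FlW i} + oc H (S.Dz h.rz.F) + Nat.card {i // S.FlV w i} ≤
      S.LPG.nR (S.pQ S.FlW) (cutF hc hnb (fun _ : Unit => w) hw).D := by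
  have h1 := dup_ge hc hnb (fun _ : Unit => w) hw (F := S.FlW) (fun i hi => hi.1) (by
    intro i hi
    obtain ⟨p, p0, p1⟩ := S.one_ex (Or.inl hi.1.Tb)
    obtain ⟨g, hg⟩ := h.hT hb hi.1.toEw p0 p1
    exact ⟨(), g, by rw [hg]; exact p0, by rw [hg]; exact p1⟩) (G := {v | S.J v = {w}})
    (fun v hv => ⟨(), hv⟩)
  have hfin : FinOrb H {e : S.K.LE | S.FlW e.1.1 ∧ e.1.2.1 = 1 ∧
      ∃ g : H, g • S.K.c2 e ∈ {v | S.J v = {w}}} := S.K.fin_LE.mono (Set.subset_univ _)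
  have h2 : Nat.card {i // S.FlV w i} ≤ oc H {e : S.K.LE | S.FlW e.1.1 ∧ e.1.2.1 = 1 ∧
      (∃ g : H, S.J (g • S.K.c2 e) = {w}) ∧ ¬ S.P.Bare (S.K.c2 e)} := by
    have l1 : ∀ i, S.FlV w i → 1 < S.K.len i := by
      intro i hi
      have := S.P.len4 hi.1.1.sq
      omega
    have e1 : ∀ i (hi : S.FlV w i), S.K.c2 ((⟨i, ⟨1, l1 i hi⟩⟩, 1) : S.K.LE) = S.P.qt i 3 := by
      intro i hi
      have := (hi.1.1.corQ (k := ⟨1, l1 i hi⟩) rfl 1).2.2
      rw [one_smul] at this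
      exact this
    refine card_le_oc (S.K.fin_LE.mono (Set.subset_univ _)) (S.FlV w)
      (fun i hi => ((⟨i, ⟨1, l1 i hi⟩⟩, 1) : S.K.LE)) ?_ ?_
    · intro i hi
      refine ⟨hi.1, rfl, ?_, ?_⟩
      · obtain ⟨g, hg, -⟩ := hi.2
        exact ⟨g, by rw [e1 i hi]; exact hg⟩
      · obtain ⟨-, -, hg⟩ := hi.2
        rw [e1 i hi]
        exact hg
    · rintro i hi j hj ⟨g, hg⟩
      exact congrArg (fun z : S.K.LE => z.1.1) hg
  have h3 : oc H (S.Dz h.rz.F) + oc H {e : S.K.LE | S.FlW e.1.1 ∧ e.1.2.1 = 1 ∧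
      (∃ g : H, S.J (g • S.K.c2 e) = {w}) ∧ ¬ S.P.Bare (S.K.c2 e)} ≤
      oc H {e : S.K.LE | S.FlW e.1.1 ∧ e.1.2.1 = 1 ∧
        ∃ g : H, g • S.K.c2 e ∈ {v | S.J v = {w}}} := by
    refine oc_add_le ?_ hfin ?_ ?_
    · rintro e ⟨-, -, -, g0, hg0⟩ g ⟨-, -, -, k⟩
      apply k
      rw [S.K.c2_smul]
      have := hg0.2
      exact ((P45.bare_iff g0).1 this).smul g
    · rintro e ⟨k1, k2, k3, g, k4⟩
      exact ⟨⟨k1, k2⟩, k3, g, (h.barF hb).J1 k4⟩
    · rintro e ⟨k1, k2, ⟨g, k3⟩, -⟩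
      exact ⟨k1, k2, g, k3⟩
  omega

end SyQ

end Pool.Agent.DI
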