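import Pool.Agent.DI.ExL0
import Pool.Agent.DI.ExcE
import Pool.Agent.DI.NxC
import Pool.Agent.DI.HrE

/-!
# The special tops of the folded slice

`Psv.spc_top`: a special top of the folded slice is `[q]`, `q` a special top of a square of `K` over `w`
only, not bare. `Psv.nSp_le`: the number of the special tops of the folded slice is at most the number of
the special tops of `K` which are not opened plus the number of the flipped walks plus the number of the
flipped walks with a second vertex over `w` which is not bare.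
-/

namespace Pool.Agent.DI

open MulAction
open Pool.Agent.SAF (InC SA orbs FinOrb oc Conv exists_next)
open Pool.Agent.BT (PX PQ JS bey exits)
open Pool.Agent.BT.TA

/-- orbits and a relation to a finite type -/
theorem oc_le_card_rel {J Z B : Type} [Group J] [MulAction J Z] [Finite B] (A : Set Z)
    (R : Z → B → Prop) (h1 : ∀ z ∈ A, ∃ b, R z b)
    (h2 : ∀ z ∈ A, ∀ z' ∈ A, ∀ b, R z b → R z' b → ∃ g : J, g • z = z') : oc J A ≤ Nat.card B := by
  classical
  obtain ⟨r, hr⟩ := SAF.exists_rep (H := J) A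
  have h3 : ∀ q : ↥(orbs J A), ∃ b, R (r q.1) b := fun q => h1 _ (hr q.1 q.2).1
  choose t ht using h3
  have hinj : Function.Injective t := by
    intro q q' e
    obtain ⟨g, hg⟩ := h2 _ (hr q.1 q.2).1 _ (hr q'.1 q'.2).1 (t q) (ht q) (by rw [e]; exact ht q')
    apply Subtype.ext
    rw [← (hr q.1 q.2).2, ← (hr q'.1 q'.2).2]
    exact (SAF.mk_eq_iff.2 ⟨g, hg⟩).symm
  have := Nat.card_le_card_of_injective t hinj
  rwa [Nat.card_coe_set_eq] at this

namespace SyQ

variable {H V : Type} [Group H] [MulAction H V] {S : SyQ H V} {w : S.X} {O : S.OR w} {E : V → Prop}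

/-- the swap at a special top -/
theorem spc_swap {G Y : Type} [Group G] [MulAction G Y] {K : GX G Y} {T a b : Y}
    (ta : K.ar T a) (tb : K.ar T b) (hab : a ≠ b) (hs : K.Spc T) : ∃ g : G, g • T = T ∧
    g • a = b := by
  obtain ⟨g, hg, c, hc, hne⟩ := hs
  have ha := K.ar_smul g _ _ ta
  have hb := K.ar_smul g _ _ tb
  rw [hg] at ha hb
  have two : ∀ {x}, K.ar T x → x = a ∨ x = b := by
    intro x hx
    rcases K.two _ _ _ _ hx ta tb with e | e | e
    · exact Or.inl e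
    · exact absurd e hab
    · exact Or.inr e
  refine ⟨g, hg, ?_⟩
  rcases two ha with e | e
  · exfalso
    rcases two hc with rfl | rfl
    · exact hne e
    · rcases two hb with e' | e'
      · exact hab (smul_left_cancel g (e.trans e'.symm))
      · exact hne e'
  · exact e

/-- the image of a pole of a single vertex -/
theorem spc_down {q z x : V} (hJ : S.J q = {w})
    (hone : ∀ c, S.fq w O c = S.fq w O (S.rho w q) → c = S.rho w q) (qz : S.K.ar q z)
    (qx : S.K.ar q x) (hzx : S.fq w O (S.rho w z) ≠ S.fq w O (S.rho w x))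
    (g : ↥(stabilizer H w)) (hg : g • S.fq w O (S.rho w q) = S.fq w O (S.rho w q))
    (hz : g • S.fq w O (S.rho w z) = S.fq w O (S.rho w x)) : g.1 • q = q ∧ g.1 • z = x := by
  have hq : w ∈ S.J q := by rw [hJ]; rfl
  have e1 : g.1 • q = q := by
    have h1 : S.fq w O (S.rho w (g.1 • q)) = S.fq w O (S.rho w q) := by
      rw [S.rho_smul g, fq_smul]
      exact hg
    have h2 := hone _ h1
    have hq' : w ∈ S.J (g.1 • q) := by
      have := S.js.smul g.1 _ _ hq
      rwa [show g.1 • w = w from g.2] at this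
    rw [S.rho_near hq', S.rho_near hq] at h2
    exact congrArg Subtype.val (Sum.inl.inj h2)
  refine ⟨e1, ?_⟩
  have k := S.K.ar_smul g.1 _ _ qz
  rw [e1] at k
  have h1 : S.fq w O (S.rho w (g.1 • z)) = S.fq w O (S.rho w x) := by
    rw [S.rho_smul g, fq_smul]
    exact hz
  rcases S.K.two _ _ _ _ k qz qx with e | e | e
  · exfalso
    rw [e] at h1
    exact hzx h1
  · exact absurd (by rw [e]) hzx
  · exact e

/-- A SPECIAL TOP OF THE FOLDED SLICE -/
structure SpQ (S : SyQ H V) (w : S.X) (O : S.OR w) (E : V → Prop) (k : S.Q w O) (q : V) :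
    Prop where
  J : S.J q = {w}
  cls : k = S.fq w O (S.rho w q)
  nb : ¬ S.P.Bare q
  sp : ∃ z x y, S.P.Top q z x y ∧ z ≠ x ∧ (E q → w ∉ S.J y) ∧ ∃ g : H, g • q = q ∧ g • z = x

/-- THE SPECIAL TOPS OF THE FOLDED SLICE -/
theorem Psv.spc_top (h : S.Psv w O E) {k : S.Q w O} (hk : k ∈ (h.kP O).sSp) :
    ∃ q, S.SpQ w O E k q := by
  obtain ⟨⟨a, b, y, ht⟩, hs⟩ := hk
  have hab : a ≠ b := kf_nab ht
  obtain ⟨g, hg, hgab⟩ := spc_swap ht.2.1 ht.2.2 hab hs
  rcases kf_Top h.nf h.rz.kin ht with ⟨u, q, z, x, kn, e1, e2, e3⟩ |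
    ⟨u, q, z, x, kh, e1, e2, e3, e4⟩ | ⟨T0, a0, b0, y0, t0, hl, e1, e3, e4, e2⟩
  · exfalso
    have har := (kn.arrows h.nf).2.2.1
    rcases e3 with ⟨e3, e4⟩ | ⟨e3, e4⟩
    · have h1 : S.arQ w O (g • S.fq w O (S.rho w q)) (g • S.fq w O (S.rho w z)) :=
        (S.kf h.gd.conn w O).ar_smul g _ _ har
      rw [← e3, hgab, e4] at h1
      exact not_arQ_inr h1
    · have h1 : g • S.fq w O (Sum.inr ⟨u, kn.adj⟩) = S.fq w O (S.rho w q) := by
        rw [← e3, hgab, e4]
      rw [← h1] at har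
      have key : ∀ v : S.EV w, ∀ d, S.arQ w O (g • S.fq w O (Sum.inr v)) d → False := by
        intro v d k
        have h2 : g • S.fq w O (Sum.inr v) = S.fq w O (Sum.inr (g • v)) := rfl
        rw [h2] at k
        exact not_arQ_inr k
      exact key _ _ har
  · obtain ⟨k1, ho, qz, qx, hzx⟩ := kh
    have hq := O.near u q ho
    have hJ := poles_point hzx hq qz qx k1.l.1 k1.r.1
    have kd : S.Dia w u q := ⟨hq, z, x, hzx, qz, qx, Relation.EqvGen.rel _ _ k1⟩
    have hone : ∀ c, S.fq w O c = S.fq w O (S.rho w q) → c = S.rho w q := fun c e =>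
      cls_one hq (fun v hv hc => kd.not_cs hv hc) (fun v => h.nf.nsk ho hq v) e
    obtain ⟨y0, t0, hy0⟩ := h.rz.top_of_Qs hq qz qx hzx k1
    obtain ⟨s1, s2⟩ := spc_down hJ hone qz qx (by rw [← e3, ← e4]; exact hab) g
      (by rw [← e1]; exact hg) (by rw [← e3, ← e4]; exact hgab)
    exact ⟨q, hJ, e1, ((h.opn u q).1 ho).2, z, x, y0, t0, hzx,
      fun _ => S.not_mem_of_bey k1.adj hy0, g.1, s1, s2⟩
  · have hJ := poles_point (h.sq.nab _ _ _ _ t0) hl.1 t0.2.1 t0.2.2 hl.2.1 hl.2.2.1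
    have hone : ∀ c, S.fq w O c = S.fq w O (S.rho w T0) → c = S.rho w T0 := fun c e =>
      cls_one hl.1 (fun v hv => h.rz.kin.no_cs t0 hl hv) (fun v => h.nf.loc_nsk t0 hl hl.1 v) e
    obtain ⟨s1, s2⟩ := spc_down hJ hone t0.2.1 t0.2.2 (by rw [← e3, ← e4]; exact hab) g
      (by rw [← e1]; exact hg) (by rw [← e3, ← e4]; exact hgab)
    exact ⟨T0, hJ, e1, h.rz.nb_loc t0 hl, a0, b0, y0, t0, h.sq.nab _ _ _ _ t0,
      fun k => absurd k (h.noE _ _ _ _ t0 hl), g.1, s1, s2⟩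

/-- the walk of a special top which is opened -/
theorem Psv.spq_walk (h : S.Psv w O E) {k : S.Q w O} {q : V} (hs : S.SpQ w O E k q) (hE : E q) :
    ∃ (i : S.K.I) (g : H), S.FlW i ∧ (q = g • S.P.qt i 1 ∨
      (q = g • S.P.qt i 3 ∧ ∃ g' : H, S.J (g' • S.P.qt i 3) = {w} ∧ ¬ S.P.Bare (S.P.qt i 3))) := by
  obtain ⟨z, x, y, t, hzx, hy, f, f1, f2⟩ := hs.sp
  obtain ⟨i, g, hw, hpos⟩ := h.eW _ _ _ _ t hE
  have hwy := hy hE
  -- `f` fixes `y` and exchanges the poles
  have two : ∀ {c}, S.K.ar q c → c = z ∨ c = x := by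
    intro c hc
    rcases S.K.two _ _ _ _ hc t.2.1 t.2.2 with e | e | e
    · exact Or.inl e
    · exact absurd e hzx
    · exact Or.inr e
  have f3 : f • x = z := by
    have k1 := S.K.ar_smul f _ _ t.2.2
    rw [f1] at k1
    rcases two k1 with e | e
    · exact e
    · exact absurd (smul_left_cancel f (f2.trans e.symm)) hzx
  have f4 : f • y = y := by
    have k1 := t.smul f
    rw [f1] at k1
    exact h.par _ _ _ _ _ _ _ k1 t hs.nb
  have qw : w ∈ S.J q := by rw [hs.J]; rfl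
  -- the poles of the walk
  have main : ∀ {T v : V}, (T = q ∧ v = y ∨ T = y ∧ v = q) → T = g • S.P.qt i 1 →
      v = g • S.P.qt i 3 → S.K.ar q (g • S.P.qt i 0) → S.K.ar q (g • S.P.qt i 2) →
      S.FlW i := by
    intro T v hTv eT ev h0 h2
    have fT : f • T = T := by
      rcases hTv with ⟨rfl, -⟩ | ⟨rfl, -⟩
      · exact f1
      · exact f4
    have fv : f • v = v := by
      rcases hTv with ⟨-, rfl⟩ | ⟨-, rfl⟩
      · exact f4
      · exact f1
    have hne : g • S.P.qt i 0 ≠ g • S.P.qt i 2 := fun e => hw.ab (smul_left_cancel g e)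
    have f02 : f • g • S.P.qt i 0 = g • S.P.qt i 2 ∧ f • g • S.P.qt i 2 = g • S.P.qt i 0 := by
      rcases two h0 with e0 | e0
      · rcases two h2 with e2 | e2
        · exact absurd (e0.trans e2.symm) hne
        · rw [e0, e2]
          exact ⟨f2, f3⟩
      · rcases two h2 with e2 | e2
        · rw [e0, e2]
          exact ⟨f3, f2⟩
        · exact absurd (e0.trans e2.symm) hne
    refine ⟨⟨hw, fun p p3 p1 => ?_⟩, g⁻¹ * f * g, ?_, ?_, ?_, ?_⟩
    · have p3' := S.js.smul g _ _ p3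
      have p1' := S.js.smul g _ _ p1
      rw [← ev] at p3'
      rw [← eT] at p1'
      rcases hTv with ⟨rfl, rfl⟩ | ⟨rfl, rfl⟩
      · rw [hs.J] at p1'
        rw [Set.mem_singleton_iff.1 p1'] at p3'
        exact hwy p3'
      · rw [hs.J] at p3'
        rw [Set.mem_singleton_iff.1 p3'] at p1'
        exact hwy p1'
    · rw [mul_smul, mul_smul, ← ev, fv, ev, inv_smul_smul]
    · rw [mul_smul, mul_smul, ← eT, fT, eT, inv_smul_smul]
    · rw [mul_smul, mul_smul, f02.1, inv_smul_smul]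
    · rw [mul_smul, mul_smul, f02.2, inv_smul_smul]
  rcases hpos with ⟨e1, e3⟩ | ⟨e3, e1⟩
  · refine ⟨i, g, main (Or.inl ⟨rfl, rfl⟩) e1 e3 ?_ ?_, Or.inl e1⟩
    · rw [e1]
      exact S.K.ar_smul g _ _ hw.Ta
    · rw [e1]
      exact S.K.ar_smul g _ _ hw.Tb
  · refine ⟨i, g, main (Or.inr ⟨rfl, rfl⟩) e1 e3 ?_ ?_, Or.inr ⟨e3, g, ?_, ?_⟩⟩
    · rw [e3]
      exact S.K.ar_smul g _ _ hw.va
    · rw [e3]
      exact S.K.ar_smul g _ _ hw.vb
    · rw [← e3]
      exact hs.J
    · intro hb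
      apply hs.nb
      rw [e3]
      exact hb.smul g

/-- THE NUMBER OF THE SPECIAL TOPS OF THE FOLDED SLICE -/
theorem Psv.nSp_le (h : S.Psv w O E) : (h.kP O).nSp ≤ S.P.nSpE E +
    Nat.card {i // S.FlW i} + Nat.card {i // S.FlW i ∧ ∃ g : H, S.J (g • S.P.qt i 3) = {w} ∧
      ¬ S.P.Bare (S.P.qt i 3)} := by
  classical
  have hI := S.K.finI
  let A : Set V := {T | T ∈ S.P.spT ∧ ¬ E T}
  have hfin : Finite ↥(orbs H A) := (S.K.fin.mono (Set.subset_univ A))
  have key : oc ↥(stabilizer H w) (h.kP O).sSp ≤ Nat.card (↥(orbs H A) ⊕ ({i // S.FlW i} ⊕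
      {i // S.FlW i ∧ ∃ g : H, S.J (g • S.P.qt i 3) = {w} ∧ ¬ S.P.Bare (S.P.qt i 3)})) := by
    refine oc_le_card_rel _ (fun k b => ∃ q, S.SpQ w O E k q ∧ (match b with
      | Sum.inl o => (Quotient.mk'' q : orbitRel.Quotient H V) = o.1
      | Sum.inr (Sum.inl i) => ∃ g : H, q = g • S.P.qt i.1 1
      | Sum.inr (Sum.inr i) => ∃ g : H, q = g • S.P.qt i.1 3)) ?_ ?_
    · intro k hk
      obtain ⟨q, hq⟩ := h.spc_top hk
      by_cases hE : E q
      · obtain ⟨i, g, hi, e | ⟨e, h3⟩⟩ := h.spq_walk hq hE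
        · exact ⟨Sum.inr (Sum.inl ⟨i, hi⟩), q, hq, g, e⟩
        · obtain ⟨g', h3⟩ := h3
          exact ⟨Sum.inr (Sum.inr ⟨i, hi, g', h3⟩), q, hq, g, e⟩
      · obtain ⟨z, x, y, t, -, -, f, f1, f2⟩ := hq.sp
        exact ⟨Sum.inl ⟨Quotient.mk'' q, ⟨q, ⟨⟨z, x, y, t, f, f1, f2⟩, hE⟩, rfl⟩⟩, q, hq, rfl⟩
    · intro k _ k' _ b hb hb'
      obtain ⟨q, hq, hqb⟩ := hb
      obtain ⟨q', hq', hqb'⟩ := hb'
      obtain ⟨g, hg⟩ : ∃ g : H, g • q = q' := by
        rcases b with o | i | i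
        · have e : (Quotient.mk'' q' : orbitRel.Quotient H V) = Quotient.mk'' q :=
            (show _ = o.1 from hqb').trans (show _ = o.1 from hqb).symm
          obtain ⟨g, hg⟩ := SAF.mk_eq_iff.1 e
          exact ⟨g, hg⟩
        · obtain ⟨g, e⟩ : ∃ g : H, q = g • S.P.qt i.1 1 := hqb
          obtain ⟨g', e'⟩ : ∃ g : H, q' = g • S.P.qt i.1 1 := hqb'
          exact ⟨g' * g⁻¹, by rw [e, e', mul_smul, inv_smul_smul]⟩
        · obtain ⟨g, e⟩ : ∃ g : H, q = g • S.P.qt i.1 3 := hqb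
          obtain ⟨g', e'⟩ : ∃ g : H, q' = g • S.P.qt i.1 3 := hqb'
          exact ⟨g' * g⁻¹, by rw [e, e', mul_smul, inv_smul_smul]⟩
      have gw : g • w = w := by
        have hw : w ∈ S.J q := by rw [hq.J]; rfl
        have := S.js.smul g _ _ hw
        rw [hg, hq'.J] at this
        exact this
      refine ⟨⟨g, gw⟩, ?_⟩
      rw [hq.cls, hq'.cls, ← hg]
      exact (congrArg (S.fq w O) (S.rho_smul ⟨g, gw⟩ q)).symm
  rw [Nat.card_sum, Nat.card_sum, Nat.card_coe_set_eq] at key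
  rw [add_assoc]
  exact key

end SyQ

end Pool.Agent.DI
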