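import Pool.Agent.DI.Nr
import Pool.Agent.DI.XLc

/-!
# Two reversed local pieces of one piece are one orbit

`SyQ.swap_one`: in the equality case of the exc-law two reversed local pieces over `w` of one piece of `x` are one
orbit. `SyQ.nraw_of : S.NRaw hnb w`: what is needed for the law of the self pieces in the raw slice.
-/

namespace Pool.Agent.DI

open MulAction
open Pool.Agent.SAF (InC orbs FinOrb oc Conv exists_next TAct dist_edge)
open Pool.Agent.BT (PX PQ JS bey exits dist_cross)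
open Pool.Agent.BT.TA

namespace SyQ

variable {H V : Type} [Group H] [MulAction H V] {S : SyQ H V}

/-- a reversal of a local piece moves a private pole of its component -/
theorem mv_of {y n m : V} (h : S.K.ar n y) (k : S.K.ar m y) (hj : S.K.IJ y n m) {p : S.X}
    (hp : p ∈ S.J y) (hm : p ∈ S.J m) {g : H} (hl : S.LIJ p y m (g • m)) (hr : S.Rv p y g)
    (q : ↥(S.LPG.cT (S.lp h))) (hq : q ∈ S.LPG.rQ (S.lp h) S.PLq) :
    ∃ j : ↥(S.LPG.grp (S.lp h)), j.1 = g ∧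
      j • (⟨S.lp k, lp_cT h k hj⟩ : ↥(S.LPG.cT (S.lp h))) = ⟨S.lp k, lp_cT h k hj⟩ ∧ j • q ≠ q := by
  have gk : S.K.ar (g • m) y := by
    have := S.K.ar_smul g _ _ k
    rwa [hr.2.1] at this
  have e1 : g • S.lp k = S.lp k := by
    rw [lp_smul]
    have e2 : S.lp gk = S.lp k := ((lp_iff k gk hp hm).2 hl).symm
    rw [← e2]
    unfold lp
    congr 1
    apply Subtype.ext
    show PN.inn (g • y) (g • m) = PN.inn y (g • m)
    rw [hr.2.1]
  have hg : g ∈ S.LPG.grp (S.lp h) := S.LPG.grp_of (lp_cT h k hj) (by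
    rw [e1]
    exact lp_cT h k hj)
  refine ⟨⟨g, hg⟩, rfl, Subtype.ext e1, ?_⟩
  intro e
  obtain ⟨a, ka, ha, ea⟩ := pole_node h q hq
  have e3 : g • q.1 = q.1 := congrArg Subtype.val e
  rw [ea, ← S.K.pc.ct_smul] at e3
  have e4 := ct_pole (S := S) (S.K.mem_PO rfl) e3
  have e5 : g • PN.pol y a (S.K.Pc y n) = PN.pol y a (S.K.Pc y n) := congrArg Subtype.val e4
  rw [PN.smul_pol] at e5
  exact hr.2.2 a ha (PN.pol.inj e5).2.1

/-- TWO REVERSED LOCAL PIECES OF ONE PIECE ARE ONE ORBIT -/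
theorem swap_one (hc : S.Conn) {e : S.LPG.fg.N → ℕ} (E : S.EX e) (E' : S.EM e)
    {y n n' : V} (h : S.K.ar n y) (h' : S.K.ar n' y) (hl : S.K.LC y) (hy : ∃ a, S.K.ar y a)
    [Fintype (S.LPG.comp (S.lp h)).fg.N]
    (h0 : (S.LPG.comp (S.lp h)).fg.exc (S.LPG.rs (S.lp h) S.PL) =
      (S.LPG.comp (S.lp h)).fg.aftE (S.LPG.rs (S.lp h) S.PL) (S.LPG.re (S.lp h) e))
    {p : S.X} (hp : p ∈ S.J y) (hn : p ∈ S.J n) (hn' : p ∈ S.J n') (hj : S.K.IJ y n n')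
    {g g' : H} (l1 : S.LIJ p y n (g • n)) (r1 : S.Rv p y g) (l2 : S.LIJ p y n' (g' • n'))
    (r2 : S.Rv p y g') : ∃ k : H, k • y = y ∧ k • p = p ∧ S.LIJ p y (k • n) n' := by
  rw [rs_PL] at h0
  have hC := softC hc E E' h hy hl
  obtain ⟨q, hq⟩ := hC.nepl
  obtain ⟨j, j1, j2, j3⟩ := mv_of h h (Relation.EqvGen.refl _) hp hn l1 r1 q hq
  obtain ⟨j', j1', j2', j3'⟩ := mv_of h h' hj hp hn' l2 r2 q hq
  have hq' : j • q ∈ S.LPG.rQ (S.lp h) S.PLq := SubMulAction.smul_mem _ j hq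
  obtain ⟨-, key⟩ := hC.self hq hq' j3.symm rfl
  obtain ⟨-, k1, -⟩ := key h0.ge
  have h2 : ∀ x ∈ S.LPG.rQ (S.lp h) S.PLq, x = q ∨ x = j • q := fun x hx => by
    rcases hC.two x q (j • q) hx hq hq' with k | k | k
    · exact Or.inl k
    · exact absurd k j3.symm
    · exact Or.inr k
  have mem : ∀ (m : V) (k : S.K.ar m y) (hj : S.K.IJ y n m) (j0 : ↥(S.LPG.grp (S.lp h))),
      j0 • (⟨S.lp k, lp_cT h k hj⟩ : ↥(S.LPG.cT (S.lp h))) = ⟨S.lp k, lp_cT h k hj⟩ →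
      j0 • q ≠ q → (oq ↥(S.LPG.grp (S.lp h)) (⟨S.lp k, lp_cT h k hj⟩ : ↥(S.LPG.cT (S.lp h))) :
        (S.LPG.comp (S.lp h)).fg.N) ∈ (S.LPG.comp (S.lp h)).mNf
          (Sw (JM.sgn hq hq' h2 j3.symm)) \ (S.LPG.comp (S.lp h)).imN
            (S.LPG.rQ (S.lp h) S.PLq) := by
    intro m k hj j0 e1 e2
    refine ⟨⟨_, (JM.Sw_sgn hq hq' h2 j3.symm _).2 ⟨j0, e1, q, hq, e2⟩, rfl⟩, ?_⟩
    intro hk
    exact lp_rQ h k hj ((JM.mem_imN _).1 hk)
  have m1 := mem n h (Relation.EqvGen.refl _) j j2 j3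
  have m2 := mem n' h' hj j' j2' j3'
  obtain ⟨s, t⟩ := Nat.card_eq_one_iff_unique.1 k1
  have e1 := s.elim ⟨_, m1⟩ ⟨_, m2⟩
  have e2 := congrArg Subtype.val e1
  obtain ⟨i, hi⟩ := oq_eq.1 e2
  have e3 : S.lp h' = i.1 • S.lp h := congrArg Subtype.val hi
  rw [lp_smul] at e3
  obtain ⟨f1, f2⟩ := lp_place (S.K.ar_smul i.1 _ _ h) h' e3.symm (S.js.smul i.1 _ _ hp)
    (S.js.smul i.1 _ _ hn)
  have f3 : i.1 • p ∈ S.J y := by
    have := S.js.smul i.1 _ _ hp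
    rwa [f1] at this
  have f4 : i.1 • p = p := S.one_eq (Or.inr h') f3 f2 hp hn'
  refine ⟨i.1, f1, f4, ?_⟩
  have har : S.K.ar (i.1 • n) y := by
    have := S.K.ar_smul i.1 _ _ h
    rwa [f1] at this
  have f5 : p ∈ S.J (i.1 • n) := by
    have := S.js.smul i.1 _ _ hn
    rwa [f4] at this
  rw [← lp_iff har h' hp f5]
  have e4 : S.lp (S.K.ar_smul i.1 _ _ h) = S.lp har := by
    unfold lp
    congr 1
    apply Subtype.ext
    show PN.inn (i.1 • y) (i.1 • n) = PN.inn y (i.1 • n)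
    rw [f1]
  rw [← e4]
  exact e3.symm

/-- every piece has a strand at every pole, all softs -/
def OSa (S : SyQ H V) : Prop := ∀ y n a, S.K.ar n y → S.K.ar y a →
  ∃ n', S.K.IJ y n n' ∧ S.K.Cor a y n'

theorem OSa.os (h : S.OSa) : S.OS := fun y n a h1 h2 _ => h y n a h1 h2

section

variable (hc : S.Conn) {hnb : S.NB} {ι : Type} (w : ι → S.X)
  (hw : ∀ (i j : ι) (g : H), g • w i = w j → i = j)

include hw in
/-- WHAT IS NEEDED FOR THE LAW OF THE SELF PIECES IN THE RAW SLICE -/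
theorem nraw_of [Fintype ι] (hS : S.SinkH) (hL : S.LostD w)
    (hl : ∀ y, (∃ a, S.K.ar y a) → S.K.LC y)
    (h0 : ∑ i, (S.k0 hc (w i)).pexc ≤ S.K.pexc) (i : ι) : S.NRaw hnb (w i) where
  lc := by
    intro y n a hn ha
    obtain ⟨b, n', h1, h2, h3, h4⟩ := GX.exists_pol (hl y ⟨a, ha⟩) ⟨a, ha⟩ hn
    obtain ⟨f, f1, f2, f3⟩ := (S.P.fc_Co (S.P.nd_nb hnb)).2 h4.symm
    have f1 : (S.kfc hnb).x f = n' := f1
    have f2 : (S.kfc hnb).y f = y := f2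
    have f3 : (S.kfc hnb).z f = b := f3
    refine ⟨f, ⟨?_, ?_⟩, f2, ?_⟩
    · rw [f1, f2]
      exact h3
    · rw [f2, f3]
      exact h1
    · rw [f1]
      exact h2
  one := by
    intro x n n' g g' s1 s2 r1 r2 hf hu hj
    obtain ⟨c, c', n1, n2, n3, n4, o1, o2, n5⟩ := id hf
    have hf' : Fintype (S.LPG.comp (S.lp s1.2.2.1)).fg.N := Fintype.ofFinite _
    obtain ⟨k, k1, k2, k3⟩ := swap_one hc (exE_ex hc hnb w hw (lost_of_D hc hnb hL))
      (exE_em hc hnb w hw hL) s1.2.2.1 s2.2.2.1 (hl x ⟨_, n3⟩) ⟨_, n3⟩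
      (pexc_eq hc hnb w hw hS (lost_of_D hc hnb hL) (softLe hc hnb w hw hL hl) h0 s1.2.2.1)
      s1.1 s1.2.1 s2.2.1 hj s1.2.2.2.2.2 r1 s2.2.2.2.2.2 r2
    exact ⟨k, k1, k2, k3⟩

end

end SyQ

end Pool.Agent.DI
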