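import Pool.Agent.DI.ExL
import Pool.Agent.DI.NSp
import Pool.Agent.DI.X1K
import Pool.Agent.DI.NU

/-!
# THE EXC-LAW OF A STEP, closed form

`Psv.exc_lawc`, `Psv.eq2_hec`, `Psv.eq2_h0c`, `Psv.eq2_ts`: from `S.Psv w O E`, the only input is `NoPl` (no
two parallel squares in the folded slice).
-/

namespace Pool.Agent.DI

open MulAction
open Pool.Agent.SAF (InC SA orbs FinOrb oc Conv exists_next)
open Pool.Agent.BT (PX PQ JS bey exits)
open Pool.Agent.BT.TA

namespace SyQ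

variable {H V : Type} [Group H] [MulAction H V] {S : SyQ H V} {w : S.X} {O : S.OR w} {E : V → Prop}

/-- every arrow of a top of the folded slice has a strand -/
theorem Psv.kxc (h : S.Psv w O E) :
    KX1 (O := O) (k0_min h.gd.conn h.wm) (S.sqN h.gd.conn w O) := by
  obtain ⟨F, hF, -, hp⟩ := h.st.pm
  exact h.rz.kx1F h.nbm h.eJ hF hp

/-- no piece is one-sided -/
theorem Psv.osa (h : S.Psv w O E) : S.OSa := by
  intro y n a h1 h2
  obtain ⟨k, k1, -, k3⟩ := h.pc n y a h1 h2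
  exact ⟨k, GX.PC_iff.1 k1, k3.symm⟩

section

variable (h : S.Psv w O E) (hp : (h.kP O).NoPl)

include hp

/-- THE EXC-LAW -/
theorem Psv.exc_lawc : S.P.excE E ≤ (h.kP O).thinP.exc := h.exc_law h.kxc h.nSp_le hp

/-- nothing is gained by the fold -/
theorem Psv.eq2_hec (e : h.Eq2) :
    (S.kf h.gd.conn w O).pexc + oc H (S.Dz h.rz.F) ≤ (S.k0 h.gd.conn w).pexc :=
  h.eq2_he h.nSp_le hp e

/-- nothing is gained in the slice -/
theorem Psv.eq2_h0c (e : h.Eq2) :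
    ∑ i : Unit, (S.k0 h.gd.conn ((fun _ : Unit => w) i)).pexc ≤ S.K.pexc + (h.dB : ℤ) :=
  h.eq2_h0 h.kxc h.nSp_le hp e

/-- the same for the one slice -/
theorem Psv.eq2_h1c (e : h.Eq2) : (S.k0 h.gd.conn w).pexc ≤ S.K.pexc + (h.dB : ℤ) := by
  have := h.eq2_h0c hp e
  simpa using this

/-- the number of the special tops -/
theorem Psv.eq2_hsc (e : h.Eq2) :
    (h.kP O).nSp = S.P.nSpE E + Nat.card {i // S.FlW i} + Nat.card {i // S.FlV w i} :=
  h.exc_hs h.kxc h.nSp_le (e.exc0 hp).le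

/-- FULL local pieces at the vertices which cross an edge -/
theorem Psv.eq2_full (e : h.Eq2) {y n : V} (k : S.K.ar n y) {p u : S.X} (hy : p ∈ S.J y)
    (hn : p ∈ S.J n) (hu : S.D.G.Adj p u) (hu' : u ∈ S.J y) :
    Full (exR h.gd.conn h.nbm (fun _ : Unit => w) (one_pl w) (S.pQ S.FlW)) p k :=
  full_of_eqR h.gd.conn h.nbm (fun _ : Unit => w) (one_pl w) dupL_flW (h.lostR h.bw2)
    (h.gd.sinkH fun y _ => h.lc y) (fun y _ => h.lc y) h.osa.os (h.eq2_h0c hp e) k hy hn hu hu'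

/-- [TS] IN THE EQUALITY CASE -/
theorem Psv.eq2_ts (e : h.Eq2) : S.TSp w :=
  TS_of_eqR h.gd.conn h.nbm (fun _ : Unit => w) (one_pl w) dupL_flW (h.lostR h.bw2)
    (h.gd.sinkH fun y _ => h.lc y) (fun y _ => h.lc y) h.osa.os (h.eq2_h0c hp e)
    ⟨(), 1, one_smul _ _⟩

end

end SyQ

end Pool.Agent.DI
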