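import Pool.Agent.DI.Hr3
import Pool.Agent.DI.TpS
import Pool.Agent.DI.GXCut

/-!
# DI/HrC: the far pages of a two-pole hub are closed under the corners of all cells

`S : SyQ H V`, `w` a vertex of the tree, `E` a set of opened softs. `S.HrL T`: corners at `T` of pentagons
and squares which are not between two poles of `T`. `h : ClH S hc w E`: the static class of the squares
(`X ≥ 1` at all tops not in `E`, the two sides of a top are joined at the top by corners), and the slice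
at `w` is minimal or no pentagon is centred at `w`.

* `h.virt`: an arrow `k → z` with `J k = J z = {w}` and `X k z ≥ 1` has a virtual pass at `w`.
* `h.hub_contr`: no virtual pass `k x` at `w` for a page `k` of a two-pole hub `x` over `w u`.
* `h.main`: the same at all vertices which fold to the hub (induction from the highest rank down).
* `h.closed`: `J x = {w}`, the poles `a`, `b` of `x` and the page `n` cross `w u`; then every cell with
  a corner `n x m` has `m` crossing `w u`.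
-/

namespace Pool.Agent.DI

open MulAction
open Pool.Agent.SAF (InC orbs FinOrb oc Decomp SAn SA Conv hull dist_edge FinOrb_iff exists_next)
open Pool.Agent.BT (PX PQ JS bey exits lz lz_self lz_ne lz_symm x_next_unique)
open Pool.Agent.BT.TA

namespace P45

variable {H V : Type} [Group H] [MulAction H V] {K : GX H V} {P : P45 K}

/-- every square has a top (relative class) -/
theorem SqE.q4 {E : V → Prop} (hT : P.SqE E) {a q b y : V} (h : Q4 P a q b y) :
    P.Top a y q b ∨ P.Top q a b y ∨ P.Top b q y a ∨ P.Top y b a q := by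
  have key : ∀ (a q b y : V) (g : H) (i : K.I) (j : Fin 4), P.sq i → a = g • P.qt i j →
      q = g • P.qt i (j + 1) → b = g • P.qt i (j + 2) → y = g • P.qt i (j + 3) →
      P.Top a y q b ∨ P.Top q a b y ∨ P.Top b q y a ∨ P.Top y b a q := by
    intro a q b y g i j hi h1 h2 h3 h4
    obtain ⟨j', ht⟩ := hT.top i hi
    have k := (ht.top hi).smul g
    have hc : ∀ j j' : Fin 4, j' = j ∨ j' = j + 1 ∨ j' = j + 2 ∨ j' = j + 3 := by decide
    rcases hc j j' with e | e | e | e
    · rw [e, ← h1, ← h2, ← h3, ← h4] at k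
      exact Or.inl k.symm'
    · rw [e] at k
      have e1 : ∀ j : Fin 4, j + 1 + 1 = j + 2 := by decide
      have e2 : ∀ j : Fin 4, j + 1 + 2 = j + 3 := by decide
      have e3 : ∀ j : Fin 4, j + 1 + 3 = j := by decide
      rw [e1, e2, e3, ← h1, ← h2, ← h3, ← h4] at k
      exact Or.inr (Or.inl k.symm')
    · rw [e] at k
      have e1 : ∀ j : Fin 4, j + 2 + 1 = j + 3 := by decide
      have e2 : ∀ j : Fin 4, j + 2 + 2 = j := by decide
      have e3 : ∀ j : Fin 4, j + 2 + 3 = j + 1 := by decide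
      rw [e1, e2, e3, ← h1, ← h2, ← h3, ← h4] at k
      exact Or.inr (Or.inr (Or.inl k.symm'))
    · rw [e] at k
      have e1 : ∀ j : Fin 4, j + 3 + 1 = j := by decide
      have e2 : ∀ j : Fin 4, j + 3 + 2 = j + 1 := by decide
      have e3 : ∀ j : Fin 4, j + 3 + 3 = j + 2 := by decide
      rw [e1, e2, e3, ← h1, ← h2, ← h3, ← h4] at k
      exact Or.inr (Or.inr (Or.inr k.symm'))
  obtain ⟨g, i, j, hi, ⟨h1, h2, h3, h4⟩ | ⟨h1, h2, h3, h4⟩⟩ := h
  · exact key a q b y g i j hi h1 h2 h3 h4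
  · rcases key b q a y g i j hi h1 h2 h3 h4 with k | k | k | k
    · exact Or.inr (Or.inr (Or.inl k.symm'))
    · exact Or.inr (Or.inl k.symm')
    · exact Or.inl k.symm'
    · exact Or.inr (Or.inr (Or.inr k.symm'))

theorem SqE.pt_eq {E : V → Prop} (hT : P.SqE E) {T a b y : V} (h : P.Top T a b y) (hE : ¬ E T) :
    SqT.pt P T = y := by
  have h' : ∃ y, ∃ a b, P.Top T a b y := ⟨y, a, b, h⟩
  unfold SqT.pt
  rw [dif_pos h']
  obtain ⟨a', b', k⟩ := h'.choose_spec
  exact (hT.par _ _ _ _ _ _ _ k h).resolve_left hE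

theorem SqE.rk_lt {E : V → Prop} (hT : P.SqE E) {T a b y : V} (h : P.Top T a b y) (hE : ¬ E T) :
    K.rk y < K.rk T := by
  rcases (hT.side T a b y h).resolve_left hE with k | k
  · exact (K.ar_rk _ _ k).trans (K.ar_rk _ _ h.2.1)
  · exact (K.ar_rk _ _ k).trans (K.ar_rk _ _ h.2.2)

theorem SqE.En {E : V → Prop} (hT : P.SqE E) {h : H} {v : V} (k : ¬ E v) : ¬ E (h • v) := by
  intro e
  have := hT.Es h⁻¹ _ e
  rw [inv_smul_smul] at this
  exact k this

/-- a strand is a pass of a pentagon or a walk of a square -/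
theorem X_cases {T a : V} (h : 1 ≤ P.X T a) : (∃ q b y, Qn P T a q b y) ∨
    ∃ n q, Q4 P n T a q ∧ K.ar T a ∧ K.ar n T := by
  by_contra hcon
  push Not at hcon
  obtain ⟨h1, h2⟩ := hcon
  have e1 : {f : FL K | f ∈ P.RP ∧ (fy f, fz f) = (T, a)} = ∅ := by
    rw [Set.eq_empty_iff_forall_notMem]
    rintro ⟨e, s⟩ ⟨⟨k1, -⟩, k2⟩
    obtain ⟨k3, k4⟩ := Prod.mk.inj k2
    rcases P.l_cases e with ⟨i, hi, j, g, rfl⟩ | ⟨i, hi, j, g, rfl⟩
    · have q1 := Qn_pt g hi j
      have q2 := Qn_pt g hi (j + 1)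
      have e3 : (fy (P.l5 i hi j g, s) : V) = g • P.pt i (j + 1) := P.c1_5 i hi j g
      rw [k3] at e3
      cases s
      · have e4 : (fz (P.l5 i hi j g, false) : V) = g • P.pt i j := P.c0_5 i hi j g
        rw [k4] at e4
        rw [← e3, ← e4] at q1
        exact h1 _ _ _ q1.symm.rot
      · have e4 : (fz (P.l5 i hi j g, true) : V) = g • P.pt i (j + 2) := P.c2_5 i hi j g
        rw [k4] at e4
        rw [show j + 1 + 1 = j + 2 from by rw [add_assoc]; rfl, ← e3, ← e4] at q2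
        exact h1 _ _ _ q2
    · exact k1 hi
  have e2 : {p : (V × V) × (V × V) | p ∈ P.ZP ∧ p.1 = (T, a)} = ∅ := by
    rw [Set.eq_empty_iff_forall_notMem]
    rintro ⟨⟨T', a'⟩, q, n⟩ ⟨⟨k1, k2, k3⟩, k4⟩
    obtain ⟨rfl, rfl⟩ := Prod.mk.inj k4
    exact h2 n q k1 k2 k3
  unfold X at h
  rw [e1, e2, oc_empty, oc_empty] at h
  omega

end P45

namespace SyQ

variable {H V : Type} [Group H] [MulAction H V] (S : SyQ H V)

/-- corners at `T` of pentagons and squares, in the squares not between two poles of `T` -/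
def HrL (T n m : V) : Prop := (∃ y z, Qn S.P n T m y z) ∨
  ∃ v, Q4 S.P n T m v ∧ (S.K.ar n T ∨ S.K.ar m T)

/-- `v` is a top over `w` of rank greater than `r` with the partner `y` -/
def LTp0 (E : V → Prop) (w : S.X) (r : ℕ) (v y : V) : Prop := ¬ E v ∧ r < S.K.rk v ∧
  ∃ a b, S.P.Top v a b y ∧ w ∈ S.J v ∧ w ∈ S.J a ∧ w ∈ S.J b ∧ w ∈ S.J y

/-- equal after the fold of the tops over `w` of rank greater than `r` -/
def FE (E : V → Prop) (w : S.X) (r : ℕ) (v v' : V) : Prop := Relation.EqvGen (S.LTp0 E w r) v v'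

/-- the hypotheses at `w` -/
structure ClH (hc : S.Conn) (w : S.X) (E : V → Prop) : Prop where
  sq : S.P.SqE E
  ec : ∀ v, E v → ∀ u, S.D.G.Adj w u → ¬ S.Cs w u v
  x1 : ∀ T a b y, S.P.Top T a b y → ¬ E T → 1 ≤ S.P.X T a
  os : ∀ T a b y, S.P.Top T a b y → ¬ E T → Relation.EqvGen (S.HrL T) a b
  hp : (S.k0 hc w).Min ∨ ∀ x z, ¬ S.RP w x z

variable {S}

theorem HrL.symm {T n m : V} (h : S.HrL T n m) : S.HrL T m n := by
  rcases h with ⟨y, z, h⟩ | ⟨v, h, k⟩
  · exact Or.inl ⟨z, y, h.symm⟩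
  · exact Or.inr ⟨v, h.symm, k.symm⟩

theorem HrL.E {T n m : V} (h : S.HrL T n m) : S.K.E n T := by
  rcases h with ⟨y, z, h⟩ | ⟨v, h, k⟩
  · exact h.E1
  · exact h.E1

/-- a change of a property along a chain -/
theorem chain_change {α : Type} {r : α → α → Prop} (hs : ∀ x y, r x y → r y x) {p : α → Prop}
    {a b : α} (h : Relation.EqvGen r a b) (ha : p a) (hb : ¬ p b) : ∃ x y, r x y ∧ p x ∧ ¬ p y := by
  by_contra hcon
  push Not at hcon
  have key : ∀ x y, Relation.EqvGen r x y → (p x ↔ p y) := by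
    intro x y k
    induction k with
    | rel x y k => exact ⟨fun h => hcon x y k h, fun h => hcon y x (hs _ _ k) h⟩
    | refl x => exact Iff.rfl
    | symm x y _ ih => exact ih.symm
    | trans x y z _ _ i1 i2 => exact i1.trans i2
  exact hb ((key a b h).1 ha)

/-- a neighbour of a vertex with one point -/
theorem mem_of_J {w : S.X} {z k : V} (hz : S.J z = {w}) (e : S.K.E z k) : w ∈ S.J k := by
  obtain ⟨p, p0, p1⟩ := S.one_ex e
  rw [hz] at p0
  rwa [Set.mem_singleton_iff.1 p0] at p1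

/-- both ends of an edge are at `w`: the pentagon is centred at `w` -/
theorem rp_of_J {w : S.X} {k z q b y : V} (hk : S.J k = {w}) (hz : S.J z = {w})
    (h : Qn S.P k z q b y) : S.RP w k z := by
  let v : Fin 5 → V := ![k, z, q, b, y]
  have hv : ∀ j, S.K.E (v j) (v (j + 1)) := by
    intro j
    fin_cases j
    · exact h.E1
    · exact h.E2
    · exact h.E3
    · exact h.E4
    · exact h.E5
  obtain ⟨c, hcen⟩ := S.cen hv
  have hcw : c = w := by
    rcases hcen 0 with e | e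
    · have e' : c ∈ S.J k := e
      rw [hk] at e'
      exact e'
    · have e' : c ∈ S.J z := e
      rw [hz] at e'
      exact e'
  subst hcw
  exact ⟨q, b, y, h, hcen⟩

/-- the exits of a page which crosses -/
theorem exits_page {w u : S.X} {k z0 : V} (hu : S.D.G.Adj w u) (hk : S.Cs w u k)
    (e : S.K.ar k z0) (hz : w ∈ S.J z0) : (∀ c, S.K.ar k c → w ∈ S.J c → c = z0) ∧
      ∀ u', S.D.G.Adj w u' → u' ∈ S.J k → u' = u := by
  have h1 : S.SAr w (Sum.inl ⟨k, hk.1⟩) (Sum.inl ⟨z0, hz⟩) := SAr.hor _ _ e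
  have h2 : S.SAr w (Sum.inl ⟨k, hk.1⟩) (Sum.inr ⟨u, hu⟩) := SAr.up _ _ hk.2
  constructor
  · intro c hc hwc
    have h3 : S.SAr w (Sum.inl ⟨k, hk.1⟩) (Sum.inl ⟨c, hwc⟩) := SAr.hor _ _ hc
    rcases SAr.two _ _ _ _ h1 h2 h3 with h | h | h
    · cases h
    · cases h
    · exact (congrArg Subtype.val (Sum.inl.inj h)).symm
  · intro u' hu' hmem
    have h3 : S.SAr w (Sum.inl ⟨k, hk.1⟩) (Sum.inr ⟨u', hu'⟩) := SAr.up _ _ hmem
    rcases SAr.two _ _ _ _ h1 h2 h3 with h | h | h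
    · cases h
    · exact (congrArg Subtype.val (Sum.inr.inj h)).symm
    · cases h

namespace ClH

variable {hc : S.Conn} {w : S.X} {E : V → Prop} (h : S.ClH hc w E)
include h

theorem ltp_smul {r : ℕ} (g : ↥(stabilizer H w)) {v y : V} (k : S.LTp0 E w r v y) :
    S.LTp0 E w r (g.1 • v) (g.1 • y) := by
  have hw : g.1 • w = w := g.2
  have mem : ∀ z, w ∈ S.J z → w ∈ S.J (g.1 • z) := by
    intro z hz
    have := S.js.smul g.1 _ _ hz
    rwa [hw] at this
  obtain ⟨k1, k2, a, b, k3, k4, k5, k6, k7⟩ := k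
  exact ⟨h.sq.En k1, by rw [S.K.rk_smul]; exact k2, g.1 • a, g.1 • b, k3.smul g.1, mem _ k4,
    mem _ k5, mem _ k6, mem _ k7⟩

/-- the fold of the tops over `w` of rank greater than `r` -/
noncomputable def locF (r : ℕ) : SqF (S.k0 hc w) where
  O s := ∃ v y, ∃ hv : w ∈ S.J v, s = Sum.inl ⟨v, hv⟩ ∧ S.LTp0 E w r v y
  ρ s := match s with
    | Sum.inl v => S.rho w (P45.SqT.pt S.P v.1)
    | Sum.inr u => Sum.inr u
  O_smul := by
    rintro g _ ⟨v, y, hv, rfl, k⟩
    have hv' : w ∈ S.J (g.1 • v) := by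
      have hw : g.1 • w = w := g.2
      have := S.js.smul g.1 _ _ hv
      rwa [hw] at this
    exact ⟨g.1 • v, g.1 • y, hv', rfl, h.ltp_smul g k⟩
  ρ_smul := by
    rintro g _ ⟨v, y, hv, rfl, k⟩
    obtain ⟨k1, -, a, b, k3, -⟩ := k
    show S.rho w (P45.SqT.pt S.P (g.1 • v)) = g • S.rho w (P45.SqT.pt S.P v)
    rw [h.sq.pt_eq k3 k1, h.sq.pt_eq (k3.smul g.1) (h.sq.En k1), S.rho_smul]
  ρ_rk := by
    rintro _ ⟨v, y, hv, rfl, k⟩
    obtain ⟨k1, -, a, b, k3, -, -, -, k7⟩ := k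
    show S.rkS w (S.rho w (P45.SqT.pt S.P v)) < S.K.rk v + 1
    rw [h.sq.pt_eq k3 k1, S.rho_near k7]
    show S.K.rk y + 1 < S.K.rk v + 1
    have := h.sq.rk_lt k3 k1
    omega
  ρ_E := by
    rintro _ s ⟨v, y, hv, rfl, k⟩ hs
    obtain ⟨k1, -, a, b, k3, k4, k5, k6, k7⟩ := k
    show (S.k0 hc w).E (S.rho w (P45.SqT.pt S.P v)) s
    rw [h.sq.pt_eq k3 k1]
    have hab := h.sq.nab _ _ _ _ k3
    have h1 : S.SAr w (Sum.inl ⟨v, hv⟩) (Sum.inl ⟨a, k5⟩) := SAr.hor _ _ k3.2.1
    have h2 : S.SAr w (Sum.inl ⟨v, hv⟩) (Sum.inl ⟨b, k6⟩) := SAr.hor _ _ k3.2.2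
    rcases SAr.two _ _ _ _ h1 h2 hs with e | e | e
    · exact absurd (congrArg Subtype.val (Sum.inl.inj e)) hab
    · have := S.rho_step' (w := w) (Or.symm k3.Eb) (Or.inl k7)
      rw [S.rho_near k6] at this
      rw [← e]
      exact this
    · have := S.rho_step' (w := w) (Or.symm k3.Ea) (Or.inl k7)
      rw [S.rho_near k5] at this
      rw [← e]
      exact this
  ρ_ex := by
    rintro _ ⟨v, y, hv, rfl, k⟩
    obtain ⟨-, -, a, b, k3, -, k5, -⟩ := k
    exact ⟨Sum.inl ⟨a, k5⟩, SAr.hor _ _ k3.2.1⟩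

theorem FE_F {r : ℕ} {v v' : V} (k : S.FE E w r v v') :
    (h.locF r).F (S.rho w v) = (h.locF r).F (S.rho w v') := by
  induction k with
  | rel v y k =>
    obtain ⟨k1, k2, a, b, k3, k4, k5, k6, k7⟩ := k
    rw [SqF.F_eq]
    have hO : (h.locF r).O (S.rho w v) := ⟨v, y, k4, S.rho_near k4, k1, k2, a, b, k3, k4, k5, k6, k7⟩
    rw [(h.locF r).f_O hO, S.rho_near k4]
    show (h.locF r).f (S.rho w (P45.SqT.pt S.P v)) = _
    rw [h.sq.pt_eq k3 k1]
  | refl v => rfl
  | symm v v' _ ih => exact ih.symm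
  | trans v v' v'' _ _ i1 i2 => exact i1.trans i2

theorem not_O_of_cs {r : ℕ} {u : S.X} (hu : S.D.G.Adj w u) {k : V} (hk : S.Cs w u k) :
    ¬ (h.locF r).O (S.rho w k) := by
  rintro ⟨v, y, hv, e, -, -, a, b, k3, k4, k5, k6, k7⟩
  rw [S.rho_near hk.1] at e
  have e' : k = v := congrArg Subtype.val (Sum.inl.inj e)
  subst e'
  exact hub_not_cs k3.2.1 k3.2.2 (h.sq.nab _ _ _ _ k3) k4 k5 k6 hu hk

/-- no virtual pass between a page which crosses and the hub -/
theorem hub_contr {x a b : V} {u : S.X} (hu : S.D.G.Adj w u) (hx : w ∈ S.J x) (xa : S.K.ar x a)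
    (xb : S.K.ar x b) (hab : a ≠ b) (au : S.Cs w u a) (bu : S.Cs w u b) {k z0 : V}
    (hk : S.Cs w u k) (kz : S.K.ar k z0) (hz : w ∈ S.J z0) (hz0 : S.FE E w (S.K.rk x) z0 x)
    {s s' : V} (hs : S.FE E w (S.K.rk x) s k) (hs' : S.FE E w (S.K.rk x) s' x) :
    ¬ S.RP w s s' := by
  intro hrp
  rcases h.hp with hm | hp
  · obtain ⟨i, h5, hpass⟩ := hrp.pass hc
    set D := h.locF (S.K.rk x) with hD
    have ox : ¬ D.O (S.rho w x) := by
      rintro ⟨v, y, hv, e, -, k2, -⟩
      rw [S.rho_near hx] at e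
      have e' : x = v := congrArg Subtype.val (Sum.inl.inj e)
      rw [← e'] at k2
      exact lt_irrefl _ k2
    have ok : ¬ D.O (S.rho w k) := h.not_O_of_cs hu hk
    have oa : ¬ D.O (S.rho w a) := h.not_O_of_cs hu au
    have ob : ¬ D.O (S.rho w b) := h.not_O_of_cs hu bu
    have a1 : D.gx.ar (D.F (S.rho w k)) (D.F (S.rho w x)) := by
      have := D.ar_of ok (hr_sar (hc := hc) hk.1 hz kz)
      rwa [h.FE_F hz0] at this
    have a2 : D.gx.ar (D.F (S.rho w k)) (D.F (S.tv w u hu)) := D.ar_of ok (hr_stv hu hk)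
    have a3 : D.gx.ar (D.F (S.rho w x)) (D.F (S.rho w a)) := D.ar_of ox (hr_sar hx au.1 xa)
    have a4 : D.gx.ar (D.F (S.rho w x)) (D.F (S.rho w b)) := D.ar_of ox (hr_sar hx bu.1 xb)
    have a5 : D.gx.ar (D.F (S.rho w a)) (D.F (S.tv w u hu)) := D.ar_of oa (hr_stv hu au)
    have a6 : D.gx.ar (D.F (S.rho w b)) (D.F (S.tv w u hu)) := D.ar_of ob (hr_stv hu bu)
    have hne : D.F (S.rho w a) ≠ D.F (S.rho w b) := by
      intro e
      rw [D.F_not oa, D.F_not ob] at e
      exact hab (rho_inj au.1 (congrArg Subtype.val e))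
    refine (D.min hm).hub a3 a4 hne a5 a6 a1 a2 (D.long hm h5) (Or.inl ?_)
    have := D.pass hm h5 hpass
    rwa [h.FE_F hs, h.FE_F hs'] at this
  · exact hp _ _ hrp

/-- a virtual pass -/
theorem virt {r : ℕ} {B : ℕ} (hB : ∀ v, S.K.rk v ≤ B) : ∀ (N : ℕ) {k z : V}, B - S.K.rk k < N →
    S.J z = {w} → S.J k = {w} → S.K.ar k z → ¬ E k → r ≤ S.K.rk k → 1 ≤ S.P.X k z →
    ∃ s s', S.RP w s s' ∧ S.FE E w r s k ∧ S.FE E w r s' z := by
  intro N
  induction N with
  | zero =>
    intro k z hN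
    exact absurd hN (Nat.not_lt_zero _)
  | succ N ih =>
    intro k z hN hz hk kz hE hr hX
    rcases P45.X_cases hX with ⟨q, b, y, hq⟩ | ⟨n, q, hq, -, nk⟩
    · exact ⟨k, z, rp_of_J hk hz hq, Relation.EqvGen.refl _, Relation.EqvGen.refl _⟩
    · have r1 := S.K.ar_rk _ _ nk
      have r2 := S.K.ar_rk _ _ kz
      have wn : w ∈ S.J n := mem_of_J hk hq.E1.symm
      have wq : w ∈ S.J q := mem_of_J hz hq.E3
      have wk : w ∈ S.J k := by rw [hk]; exact rfl
      have wz : w ∈ S.J z := by rw [hz]; exact rfl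
      rcases h.sq.q4 hq with t | t | t | t
      · -- top `n`, partner `z`
        have hEn : ¬ E n := fun e => by
          have := h.sq.Ea _ _ _ _ t.symm' e
          have := S.K.ar_rk _ _ this
          omega
        have hJn : S.J n = {w} := J_hub t.2.1 t.2.2 (h.sq.nab _ _ _ _ t) wn wq wk
        have hl : S.LTp0 E w r n z := ⟨hEn, by omega, q, k, t, wn, wq, wk, wz⟩
        have hn := hB n
        obtain ⟨s, s', c1, c2, c3⟩ := ih (k := n) (z := k) (by omega) hk hJn nk hEn (by omega)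
          (h.x1 _ _ _ _ t.symm' hEn)
        exact ⟨s', s, c1.symm, c3, c2.trans _ _ _ (Relation.EqvGen.rel _ _ hl)⟩
      · have := S.K.ar_rk _ _ t.2.1
        omega
      · have := S.K.ar_rk _ _ t.2.1
        omega
      · -- top `q`, partner `k`
        have hEq : ¬ E q := fun e => hE (h.sq.Ey _ _ _ _ t e)
        have hJq : S.J q = {w} := J_hub t.2.1 t.2.2 (h.sq.nab _ _ _ _ t) wq wz wn
        have r3 := S.K.ar_rk _ _ t.2.2
        have hl : S.LTp0 E w r q k := ⟨hEq, by omega, z, n, t, wq, wz, wn, wk⟩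
        have hn := hB q
        obtain ⟨s, s', c1, c2, c3⟩ := ih (k := q) (z := z) (by omega) hz hJq t.2.1 hEq (by omega)
          (h.x1 _ _ _ _ t hEq)
        exact ⟨s, s', c1, c2.trans _ _ _ (Relation.EqvGen.rel _ _ hl), c3⟩

/-- THE CORNERS AT THE VERTICES WHICH FOLD TO THE HUB -/
theorem main {x a b : V} {u : S.X} (hu : S.D.G.Adj w u) (hx : w ∈ S.J x) (xa : S.K.ar x a)
    (xb : S.K.ar x b) (hab : a ≠ b) (au : S.Cs w u a) (bu : S.Cs w u b) {B : ℕ}
    (hB : ∀ v, S.K.rk v ≤ B) : ∀ (N : ℕ) {z : V}, B - S.K.rk z < N → S.J z = {w} →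
    S.FE E w (S.K.rk x) z x → S.K.rk x ≤ S.K.rk z → ∀ {k m z0 : V}, S.Cs w u k → S.K.ar k z0 →
    S.J z0 = {w} → S.FE E w (S.K.rk x) z0 x → S.K.rk x ≤ S.K.rk z0 →
    ¬ S.Cs w u m → S.HrL z k m → False := by
  intro N
  induction N with
  | zero =>
    intro z hN
    exact absurd hN (Nat.not_lt_zero _)
  | succ N ih =>
    intro z hN hz hzx hrz k m z0 hk kz0 hz0 hz0x hrz0 hm hlr
    have wz : w ∈ S.J z := by rw [hz]; exact rfl
    have wz0 : w ∈ S.J z0 := by rw [hz0]; exact rfl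
    obtain ⟨ex1, ex2⟩ := exits_page hu hk kz0 wz0
    have wm : w ∈ S.J m := mem_of_J hz hlr.symm.E.symm
    rcases hlr with ⟨y, y', hq⟩ | ⟨v, hq, hor⟩
    · let c5 : Fin 5 → V := ![k, z, m, y, y']
      have hv : ∀ j, S.K.E (c5 j) (c5 (j + 1)) := by
        intro j
        fin_cases j
        · exact hq.E1
        · exact hq.E2
        · exact hq.E3
        · exact hq.E4
        · exact hq.E5
      obtain ⟨c, hcen⟩ := S.cen hv
      by_cases hcw : c = w
      · subst hcw
        exact h.hub_contr hu hx xa xb hab au bu hk kz0 wz0 hz0x (Relation.EqvGen.refl _) hzx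
          ⟨m, y, y', hq, hcen⟩
      · have hcz : c ∉ S.J z := by
          rw [hz]
          exact hcw
        have hck : c ∈ S.J k := (hcen 0).resolve_right hcz
        have hcm : c ∈ S.J m := (hcen 1).resolve_left hcz
        obtain ⟨u', hu', e⟩ := exists_next S.D.tree (show w ≠ c from fun k => hcw k.symm)
        have hcb : c ∈ bey S.D.G w u' := by
          show S.D.G.dist c w = S.D.G.dist c u' + 1
          rw [SimpleGraph.dist_comm, e, SimpleGraph.dist_comm]
        have hku' : S.Cs w u' k :=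
          conv_cr S.D.tree (S.js.conv k) hu' hk.1 hck (bey_self hu'.symm) hcb
        have huu : u' = u := ex2 u' hu' hku'.2
        subst huu
        exact hm (conv_cr S.D.tree (S.js.conv m) hu' wm hcm (bey_self hu'.symm) hcb)
    · have wv : w ∈ S.J v := by
        by_contra hv
        have h1 := S.dir_cross (Or.symm hq.E4) hk.1 hv
        have h2 := S.dir_cross hq.E3 wm hv
        have h3 := ex2 _ (S.dir_adj hv) h1
        rw [h3] at h2
        exact hm ⟨wm, h2⟩
      rcases h.sq.q4 hq with t | t | t | t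
      · exact hub_not_cs t.2.1 t.2.2 (h.sq.nab _ _ _ _ t) hk.1 wv wz hu hk
      · have r1 := S.K.ar_rk _ _ t.2.1
        have r2 := S.K.ar_rk _ _ t.2.2
        rcases hor with e | e
        · have := S.K.ar_rk _ _ e
          omega
        · have := S.K.ar_rk _ _ e
          omega
      · -- top `m`, partner `k`
        have hEm : ¬ E m := fun e => h.ec k (h.sq.Ey _ _ _ _ t e) u hu hk
        have hJm : S.J m = {w} := J_hub t.2.1 t.2.2 (h.sq.nab _ _ _ _ t) wm wz wv
        have r1 := S.K.ar_rk _ _ t.2.1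
        obtain ⟨s, s', c1, c2, c3⟩ := h.virt (r := S.K.rk x) hB (B - S.K.rk m + 1)
          (Nat.lt_succ_self _) hz hJm t.2.1 hEm (by omega) (h.x1 _ _ _ _ t hEm)
        have hl : S.LTp0 E w (S.K.rk x) m k := ⟨hEm, by omega, z, v, t, wm, wz, wv, hk.1⟩
        exact h.hub_contr hu hx xa xb hab au bu hk kz0 wz0 hz0x
          (c2.trans _ _ _ (Relation.EqvGen.rel _ _ hl)) (c3.trans _ _ _ hzx) c1
      · -- top `v`, partner `z`
        have r1 := S.K.ar_rk _ _ t.2.1
        have r2 := S.K.ar_rk _ _ t.2.2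
        have r3 := S.K.ar_rk _ _ kz0
        have hEv : ¬ E v := fun e => by
          have k1 := S.K.ar_rk _ _ (h.sq.Ea _ _ _ _ t e)
          have k2 := S.K.ar_rk _ _ (h.sq.Ea _ _ _ _ t.symm' e)
          rcases hor with e | e
          · have := S.K.ar_rk _ _ e
            omega
          · have := S.K.ar_rk _ _ e
            omega
        have hJv : S.J v = {w} := J_hub t.2.1 t.2.2 (h.sq.nab _ _ _ _ t) wv wm hk.1
        have r4 := h.sq.rk_lt t hEv
        have hl : S.LTp0 E w (S.K.rk x) v z := ⟨hEv, by omega, m, k, t, wv, wm, hk.1, wz⟩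
        have hvx : S.FE E w (S.K.rk x) v x := (Relation.EqvGen.rel _ _ hl).trans _ _ _ hzx
        have hBv := hB v
        obtain ⟨κ, κ', e1, e2, e3⟩ := chain_change (r := S.HrL v) (p := fun z => S.Cs w u z)
          (fun _ _ k => k.symm) ((h.os _ _ _ _ t hEv).symm _ _) hk hm
        rcases e1.E with e | e
        · exact ih (z := v) (by omega) hJv hvx (by omega) e2 e hJv hvx (by omega) e3 e1
        · have hκ : κ = k := by
            rcases out_two t.2.1 t.2.2 (h.sq.nab _ _ _ _ t) e with k | k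
            · rw [k] at e2
              exact absurd e2 hm
            · exact k
          rw [hκ] at e1 e2
          exact ih (z := v) (by omega) hJv hvx (by omega) e2 kz0 hz0 hz0x hrz0 e3 e1

/-- CLOSEDNESS: the poles `a`, `b` of `x` and the page `n` cross `w u`; then every cell with a corner
`n x m` has `m` crossing `w u` -/
theorem closed {x a b n m : V} {u : S.X} (hu : S.D.G.Adj w u) (hx : w ∈ S.J x) (xa : S.K.ar x a)
    (xb : S.K.ar x b) (hab : a ≠ b) (au : S.Cs w u a) (bu : S.Cs w u b) (nx : S.K.ar n x)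
    (nu : S.Cs w u n) (hc4 : (∃ y z, Qn S.P n x m y z) ∨ ∃ v, Q4 S.P n x m v) : S.Cs w u m := by
  obtain ⟨B, hB⟩ := S.K.rk_bdd
  have hJ := J_hub xa xb hab hx au.1 bu.1
  by_contra hm
  refine h.main hu hx xa xb hab au bu hB (B - S.K.rk x + 1) (z := x) (Nat.lt_succ_self _) hJ
    (Relation.EqvGen.refl _) le_rfl nu nx hJ (Relation.EqvGen.refl _) le_rfl hm ?_
  rcases hc4 with h1 | ⟨v, h1⟩
  · exact Or.inl h1
  · exact Or.inr ⟨v, h1, Or.inl nx⟩

end ClH

end SyQ

end Pool.Agent.DI
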