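import Pool.Agent.DI.OStO
import Pool.Agent.DI.XLc
import Pool.Agent.DI.HrC

/-!
# DI/OStS: the forms of `SqT.os` (DI/OSt) which are used in systems

`GX.PC_IJ`: the two notions of piece agree. `SyQ.OS_of`: the hypothesis `S.OS` of DI/XLc.
`SyQ.hrL_of`: the two poles of `T` are joined by `S.HrL T` (DI/HrC, DI/HrF) if `T` has a page or a direct
pentagon corner.
-/

namespace Pool.Agent.DI

open MulAction

private theorem GX.PC_IJ {H V : Type} [Group H] [MulAction H V] {K : GX H V} {v n m : V} :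
    K.PC v n m ↔ K.IJ v n m := by
  constructor
  · intro h
    induction h with
    | rel a b h => exact Relation.EqvGen.rel _ _ ⟨h.2.2, h.1, h.2.1⟩
    | refl a => exact Relation.EqvGen.refl _
    | symm a b _ ih => exact ih.symm
    | trans a b c _ _ i1 i2 => exact i1.trans _ _ _ i2
  · intro h
    induction h with
    | rel a b h => exact Relation.EqvGen.rel _ _ ⟨h.2.1, h.2.2, h.1⟩
    | refl a => exact Relation.EqvGen.refl _
    | symm a b _ ih => exact ih.symm
    | trans a b c _ _ i1 i2 => exact i1.trans _ _ _ i2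

namespace SyQ

variable {H V : Type} [Group H] [MulAction H V] {S : SyQ H V}

/-- the hypothesis `OS` of DI/XLc -/
theorem OS_of (hos : ∀ {v n b : V}, S.K.ar n v → S.K.ar v b → ∃ k, S.K.PC v n k ∧ S.K.ar k v ∧
    S.K.Cor k v b) : S.OS := by
  intro y n a h1 h2 _
  obtain ⟨k, k1, -, k3⟩ := hos h1 h2
  exact ⟨k, GX.PC_IJ.1 k1, k3.symm⟩

/-- a corner with a page is a link of `HrL` -/
theorem hrL_cor {T n m : V} (h : S.K.Cor n T m) (hn : S.K.ar n T ∨ S.K.ar m T) : S.HrL T n m := by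
  rcases S.P.cor_iff.1 h with ⟨y, z, h⟩ | ⟨y, h⟩
  · exact Or.inl ⟨y, z, h⟩
  · exact Or.inr ⟨y, h, hn⟩

/-- the poles are joined -/
theorem hrL_of (hos : ∀ {v n b : V}, S.K.ar n v → S.K.ar v b → ∃ k, S.K.PC v n k ∧ S.K.ar k v ∧
    S.K.Cor k v b) {T a b : V} (ha : S.K.ar T a) (hb : S.K.ar T b)
    (h : (∃ n, S.K.ar n T) ∨ ∃ y z, Qn S.P a T b y z) : Relation.EqvGen (S.HrL T) a b := by
  rcases h with ⟨n, hn⟩ | ⟨y, z, h⟩
  · obtain ⟨k, k1, k2, k3⟩ := hos hn ha
    obtain ⟨l, l1, l2, l3⟩ := hos hn hb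
    have key : ∀ {p q : V}, S.K.PC T p q → Relation.EqvGen (S.HrL T) p q := by
      intro p q h
      induction h with
      | rel a b h => exact Relation.EqvGen.rel _ _ (hrL_cor h.2.2 (Or.inl h.1))
      | refl a => exact Relation.EqvGen.refl _
      | symm a b _ ih => exact ih.symm
      | trans a b c _ _ i1 i2 => exact i1.trans _ _ _ i2
    have h1 : Relation.EqvGen (S.HrL T) a k :=
      (Relation.EqvGen.rel _ _ (hrL_cor k3 (Or.inl k2))).symm
    exact ((h1.trans _ _ _ (key k1).symm).trans _ _ _ (key l1)).trans _ _ _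
      (Relation.EqvGen.rel _ _ (hrL_cor l3 (Or.inl l2)))
  · exact Relation.EqvGen.rel _ _ (Or.inl ⟨y, z, h⟩)

/-- the sides of a top with a strand are joined -/
theorem hrL_top (hm : S.K.Min) (hos : ∀ {v n b : V}, S.K.ar n v → S.K.ar v b → ∃ k, S.K.PC v n k ∧
    S.K.ar k v ∧ S.K.Cor k v b) {T a b : V} (ha : S.K.ar T a) (hb : S.K.ar T b) (hab : a ≠ b)
    (hx : 1 ≤ S.P.X T a) : Relation.EqvGen (S.HrL T) a b := by
  refine hrL_of hos ha hb ?_
  rcases P45.h_strand hx with ⟨n, y, z, h⟩ | ⟨n, q, -, hn⟩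
  · rcases h.E1 with k | k
    · exact Or.inl ⟨n, k⟩
    · right
      have hne := P45.hne hm h
      have e : n = b := (GX.Sft.cases ha hb hab k).resolve_left hne
      rw [e] at h
      exact ⟨_, _, h.symm⟩
  · exact Or.inl ⟨n, hn⟩

end SyQ

end Pool.Agent.DI
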