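import Pool.Agent.DI.UqN
import Pool.Agent.DI.Thin2
import Pool.Agent.DI.Nq

/-!
# Corners of one walk

`P.Flk i k`: a group element fixes the positions `k`, `k + 2` of the square `i` and exchanges the other
two. `walk_flip`: two listed corners with the same walk are one orbit, or both are flipped corners.
`S.cQ Q`: the listed corners without the positions in `Q`; `cQ_par`. `S.aW F`: without the duplicates of
all flipped squares. `th1A_of`: a vertex which is not fat and without own squares has one orbit of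
corners in `aW F` at every pole.
-/

namespace Pool.Agent.DI

open MulAction
open Pool.Agent.SAF (InC orbs FinOrb oc)
open Pool.Agent.BT (PX PQ JS bey exits)
open Pool.Agent.BT.TA
open SyQ (ce)

namespace P45

variable {H V : Type} [Group H] [MulAction H V] {K : GX H V} (P : P45 K)

/-- the square `i` is flipped at `k`: some `g` fixes the positions `k`, `k + 2` and exchanges the other
two -/
def Flk (i : K.I) (k : ℕ) : Prop := P.sq i ∧ ∃ g : H, g • K.vx i k = K.vx i k ∧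
  g • K.vx i (k + 2) = K.vx i (k + 2) ∧ g • K.vx i (k + 3) = K.vx i (k + 1) ∧
  g • K.vx i (k + 1) = K.vx i (k + 3)

variable {P}

theorem qt_E {i : K.I} (h : P.sq i) (j : Fin 4) : K.E (P.qt i j) (P.qt i (j + 1)) := by
  have hl : 0 < K.len i := by
    rw [P.len4 h]
    omega
  have h1 := K.vx_E hl j.1
  rw [P.vx4 h] at h1
  have h2 : K.vx i (j.1 + 1) = P.qt i (j + 1) := P.vx4_add h j 1
  rwa [h2] at h1

theorem qt_rk {i : K.I} (h : P.sq i) (j : Fin 4) : K.rk (P.qt i j) ≠ K.rk (P.qt i (j + 1)) := by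
  rcases qt_E h j with k | k
  · exact (K.ar_rk _ _ k).ne'
  · exact (K.ar_rk _ _ k).ne

/-- TWO CORNERS OF ONE WALK: one orbit of listed corners, or both are flipped -/
theorem walk_flip (hn : P.NoPl) {e e' : K.LE} (hs : P.sq e.1.1) (hs' : P.sq e'.1.1) (b b' : Bool)
    (hx : ce K b e = ce K b' e') (hz : ce K (!b) e = ce K (!b') e') (hy : K.c1 e = K.c1 e')
    (hq : e.2 • K.vx e.1.1 (e.1.2.1 + 3) = e'.2 • K.vx e'.1.1 (e'.1.2.1 + 3))
    (hr : K.rk (ce K b e) ≠ K.rk (ce K (!b) e)) :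
    (b = b' ∧ ∃ g : H, e' = g • e) ∨ (P.Flk e.1.1 e.1.2.1 ∧ P.Flk e'.1.1 e'.1.2.1 ∧
      (e.1.2.1 < 2 ∨ e'.1.2.1 < 2)) := by
  obtain ⟨⟨i, k⟩, x⟩ := e
  obtain ⟨⟨i', k'⟩, x'⟩ := e'
  have hs : P.sq i := hs
  have hs' : P.sq i' := hs'
  have hl : K.len i = 4 := P.len4 hs
  have hl' : K.len i' = 4 := P.len4 hs'
  have hk : k.1 < 4 := lt_of_lt_of_eq k.2 hl
  have hk' : k'.1 < 4 := lt_of_lt_of_eq k'.2 hl'
  -- positions in `Fin 4`
  obtain ⟨κ, hκ⟩ : ∃ κ : Fin 4, κ.1 = k.1 := ⟨⟨k.1, hk⟩, rfl⟩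
  obtain ⟨κ', hκ'⟩ : ∃ κ : Fin 4, κ.1 = k'.1 := ⟨⟨k'.1, hk'⟩, rfl⟩
  have v : ∀ m : Fin 4, K.vx i (k.1 + m.1) = P.qt i (κ + m) := fun m => by
    rw [← hκ]; exact P.vx4_add hs κ m
  have v' : ∀ m : Fin 4, K.vx i' (k'.1 + m.1) = P.qt i' (κ' + m) := fun m => by
    rw [← hκ']; exact P.vx4_add hs' κ' m
  have v0 : K.vx i k.1 = P.qt i κ := by
    have := v 0
    rwa [add_zero] at this
  have v0' : K.vx i' k'.1 = P.qt i' κ' := by
    have := v' 0
    rwa [add_zero] at this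
  have c0 : K.c0 ((⟨i, k⟩, x) : K.LE) = x • P.qt i κ := by
    show x • K.vx i k.1 = _
    rw [v0]
  have c0' : K.c0 ((⟨i', k'⟩, x') : K.LE) = x' • P.qt i' κ' := by
    show x' • K.vx i' k'.1 = _
    rw [v0']
  have c1 : K.c1 ((⟨i, k⟩, x) : K.LE) = x • P.qt i (κ + 1) := congrArg (x • ·) (v 1)
  have c1' : K.c1 ((⟨i', k'⟩, x') : K.LE) = x' • P.qt i' (κ' + 1) := congrArg (x' • ·) (v' 1)
  have c2 : K.c2 ((⟨i, k⟩, x) : K.LE) = x • P.qt i (κ + 2) := congrArg (x • ·) (v 2)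
  have c2' : K.c2 ((⟨i', k'⟩, x') : K.LE) = x' • P.qt i' (κ' + 2) := congrArg (x' • ·) (v' 2)
  have c3 : x • P.qt i (κ + 3) = x' • P.qt i' (κ' + 3) := by
    have h1 : x • K.vx i (k.1 + 3) = x' • K.vx i' (k'.1 + 3) := hq
    have h2 : K.vx i (k.1 + 3) = P.qt i (κ + 3) := v 3
    have h3 : K.vx i' (k'.1 + 3) = P.qt i' (κ' + 3) := v' 3
    rwa [h2, h3] at h1
  rw [c1, c1'] at hy
  let h := x'⁻¹ * x
  have mv : ∀ {j j' : Fin 4}, x • P.qt i j = x' • P.qt i' j' → h • P.qt i j = P.qt i' j' := by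
    intro j j' e
    show (x'⁻¹ * x) • _ = _
    rw [mul_smul, e, inv_smul_smul]
  have hrk : ∀ (g : H) (a b : V), g • a = b → K.rk a = K.rk b := by
    intro g a b e
    rw [← e, K.rk_smul]
  have hsame : (x • P.qt i κ = x' • P.qt i' κ' ∧ x • P.qt i (κ + 2) = x' • P.qt i' (κ' + 2) ∧
      b = b') ∨ (x • P.qt i κ = x' • P.qt i' (κ' + 2) ∧ x • P.qt i (κ + 2) = x' • P.qt i' κ') := by
    cases b with
    | true =>
      cases b' with
      | true =>
        left
        have hx : K.c0 ((⟨i, k⟩, x) : K.LE) = K.c0 ((⟨i', k'⟩, x') : K.LE) := hx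
        have hz : K.c2 ((⟨i, k⟩, x) : K.LE) = K.c2 ((⟨i', k'⟩, x') : K.LE) := hz
        rw [c0, c0'] at hx
        rw [c2, c2'] at hz
        exact ⟨hx, hz, rfl⟩
      | false =>
        right
        have hx : K.c0 ((⟨i, k⟩, x) : K.LE) = K.c2 ((⟨i', k'⟩, x') : K.LE) := hx
        have hz : K.c2 ((⟨i, k⟩, x) : K.LE) = K.c0 ((⟨i', k'⟩, x') : K.LE) := hz
        rw [c0, c2'] at hx
        rw [c2, c0'] at hz
        exact ⟨hx, hz⟩
    | false =>
      cases b' with
      | true =>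
        right
        have hx : K.c2 ((⟨i, k⟩, x) : K.LE) = K.c0 ((⟨i', k'⟩, x') : K.LE) := hx
        have hz : K.c0 ((⟨i, k⟩, x) : K.LE) = K.c2 ((⟨i', k'⟩, x') : K.LE) := hz
        rw [c2, c0'] at hx
        rw [c0, c2'] at hz
        exact ⟨hz, hx⟩
      | false =>
        left
        have hx : K.c2 ((⟨i, k⟩, x) : K.LE) = K.c2 ((⟨i', k'⟩, x') : K.LE) := hx
        have hz : K.c0 ((⟨i, k⟩, x) : K.LE) = K.c0 ((⟨i', k'⟩, x') : K.LE) := hz
        rw [c2, c2'] at hx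
        rw [c0, c0'] at hz
        exact ⟨hz, hx, rfl⟩
  have hr' : K.rk (P.qt i κ) ≠ K.rk (P.qt i (κ + 2)) := by
    cases b with
    | true =>
      have h1 : K.rk (K.c0 ((⟨i, k⟩, x) : K.LE)) ≠ K.rk (K.c2 ((⟨i, k⟩, x) : K.LE)) := hr
      rwa [c0, c2, K.rk_smul, K.rk_smul] at h1
    | false =>
      have h1 : K.rk (K.c2 ((⟨i, k⟩, x) : K.LE)) ≠ K.rk (K.c0 ((⟨i, k⟩, x) : K.LE)) := hr
      rw [c0, c2, K.rk_smul, K.rk_smul] at h1
      exact h1.symm
  -- the same orbit of squares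
  have hii : i = i' := by
    apply hn
    refine ⟨hs, hs', h, ?_⟩
    rcases hsame with ⟨k0, k2, -⟩ | ⟨k0, k2⟩
    · refine ⟨κ' - κ, Or.inl ?_⟩
      have key : ∀ m : Fin 4, h • P.qt i (κ + m) = P.qt i' (κ' + m) := by
        intro m
        fin_cases m
        · show h • P.qt i (κ + 0) = P.qt i' (κ' + 0)
          rw [add_zero, add_zero]
          exact mv k0
        · exact mv hy
        · exact mv k2
        · exact mv c3
      intro j
      have := key (j - κ)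
      rw [show κ + (j - κ) = j by abel, show κ' + (j - κ) = j + (κ' - κ) by abel] at this
      exact this
    · refine ⟨κ' + 2 + κ, Or.inr ?_⟩
      have key : ∀ m : Fin 4, h • P.qt i (κ + m) = P.qt i' (κ' + 2 - m) := by
        intro m
        fin_cases m
        · show h • P.qt i (κ + 0) = P.qt i' (κ' + 2 - 0)
          rw [add_zero, sub_zero]
          exact mv k0
        · show h • P.qt i (κ + 1) = P.qt i' (κ' + 2 - 1)
          rw [show κ' + 2 - 1 = κ' + (2 - 1) by abel]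
          exact mv hy
        · show h • P.qt i (κ + 2) = P.qt i' (κ' + 2 - 2)
          rw [add_sub_cancel_right]
          exact mv k2
        · show h • P.qt i (κ + 3) = P.qt i' (κ' + 2 - 3)
          rw [show κ' + 2 - 3 = κ' + (2 - 3) by abel]
          exact mv c3
      intro j
      have := key (j - κ)
      rw [show κ + (j - κ) = j by abel, show κ' + 2 - (j - κ) = κ' + 2 + κ - j by abel] at this
      exact this
  subst hii
  obtain ⟨d, hd⟩ : ∃ d : Fin 4, κ' = κ + d := ⟨κ' - κ, by abel⟩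
  have hd4 : d = 0 ∨ d = 1 ∨ d = 2 ∨ d = 3 := by
    fin_cases d
    · exact Or.inl rfl
    · exact Or.inr (Or.inl rfl)
    · exact Or.inr (Or.inr (Or.inl rfl))
    · exact Or.inr (Or.inr (Or.inr rfl))
  have hy1 := mv hy
  rcases hsame with ⟨k0, k2, hb⟩ | ⟨k0, k2⟩
  · rcases hd4 with rfl | rfl | rfl | rfl
    · -- the same position
      left
      rw [add_zero] at hd
      have hkk : k = k' := Fin.ext (by rw [← hκ, ← hκ', hd])
      subst hkk
      refine ⟨hb, x' * x⁻¹, ?_⟩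
      refine Prod.ext rfl ?_
      show x' = x' * x⁻¹ * x
      rw [inv_mul_cancel_right]
    · exfalso
      rw [hd, show κ + 1 + 1 = (κ + 1) + 1 from rfl] at hy1
      exact qt_rk hs (κ + 1) (hrk _ _ _ hy1)
    · exfalso
      have h1 := mv k0
      rw [hd] at h1
      exact hr' (hrk _ _ _ h1)
    · exfalso
      rw [hd, add_assoc, show (3 : Fin 4) + 1 = 0 from rfl, add_zero] at hy1
      exact qt_rk hs κ (hrk _ _ _ hy1).symm
  · rcases hd4 with rfl | rfl | rfl | rfl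
    · exfalso
      have h1 := mv k0
      rw [hd, add_zero] at h1
      exact hr' (hrk _ _ _ h1)
    · exfalso
      rw [hd] at hy1
      exact qt_rk hs (κ + 1) (hrk _ _ _ hy1)
    · right
      have k0' := mv k0
      have k2' := mv k2
      have k3' := mv c3
      rw [hd, add_assoc, show (2 : Fin 4) + 2 = 0 from rfl, add_zero] at k0'
      rw [hd] at k2'
      rw [hd, add_assoc, show (2 : Fin 4) + 1 = 3 from rfl] at hy1
      rw [hd, add_assoc, show (2 : Fin 4) + 3 = 1 from rfl] at k3'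
      have w1 : K.vx i (k.1 + 1) = P.qt i (κ + 1) := v 1
      have w2 : K.vx i (k.1 + 2) = P.qt i (κ + 2) := v 2
      have w3 : K.vx i (k.1 + 3) = P.qt i (κ + 3) := v 3
      have w1' : K.vx i (k'.1 + 1) = P.qt i (κ' + 1) := v' 1
      have w2' : K.vx i (k'.1 + 2) = P.qt i (κ' + 2) := v' 2
      have w3' : K.vx i (k'.1 + 3) = P.qt i (κ' + 3) := v' 3
      refine ⟨⟨hs, h, ?_, ?_, ?_, ?_⟩, ⟨hs, h, ?_, ?_, ?_, ?_⟩, ?_⟩
      · show h • K.vx i k.1 = K.vx i k.1
        rw [v0]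
        exact k0'
      · show h • K.vx i (k.1 + 2) = K.vx i (k.1 + 2)
        rw [w2]
        exact k2'
      · show h • K.vx i (k.1 + 3) = K.vx i (k.1 + 1)
        rw [w3, w1]
        exact k3'
      · show h • K.vx i (k.1 + 1) = K.vx i (k.1 + 3)
        rw [w3, w1]
        exact hy1
      · show h • K.vx i k'.1 = K.vx i k'.1
        rw [v0', hd]
        exact k2'
      · show h • K.vx i (k'.1 + 2) = K.vx i (k'.1 + 2)
        rw [w2', hd, add_assoc, show (2 : Fin 4) + 2 = 0 from rfl, add_zero]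
        exact k0'
      · show h • K.vx i (k'.1 + 3) = K.vx i (k'.1 + 1)
        rw [w3', w1', hd, add_assoc, add_assoc, show (2 : Fin 4) + 3 = 1 from rfl,
          show (2 : Fin 4) + 1 = 3 from rfl]
        exact hy1
      · show h • K.vx i (k'.1 + 1) = K.vx i (k'.1 + 3)
        rw [w3', w1', hd, add_assoc, add_assoc, show (2 : Fin 4) + 3 = 1 from rfl,
          show (2 : Fin 4) + 1 = 3 from rfl]
        exact k3'
      · show k.1 < 2 ∨ k'.1 < 2
        rw [← hκ, ← hκ', hd]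
        have hlt : ∀ κ : Fin 4, κ.1 < 2 ∨ (κ + 2).1 < 2 := by decide
        exact hlt κ
    · exfalso
      rw [hd, add_assoc, show (3 : Fin 4) + 1 = 0 from rfl, add_zero] at hy1
      exact qt_rk hs κ (hrk _ _ _ hy1).symm

end P45

namespace SyQ

variable {H V : Type} [Group H] [MulAction H V] (S : SyQ H V)

/-- the listed corners without the positions in `Q` -/
def cQ (Q : S.K.I → ℕ → Prop) : SubMulAction H S.K.LE where
  carrier := {e | ¬ Q e.1.1 e.1.2.1}
  smul_mem' _ _ h := h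

variable {S}

/-- every corner is parallel to a corner outside of `Q` -/
theorem cQ_par {Q : S.K.I → ℕ → Prop} (hQ : ∀ i k, Q i k → k < 2 ∧ S.P.Flk i k) :
    S.Par (S.cQ Q) := by
  intro e
  by_cases he : Q e.1.1 e.1.2.1
  · obtain ⟨⟨i, k⟩, x⟩ := e
    obtain ⟨hk, hs, g, g0, g2, g3, -⟩ := hQ _ _ he
    have hk : k.1 < 2 := hk
    have hs : S.P.sq i := hs
    have g0 : g • S.K.vx i k.1 = S.K.vx i k.1 := g0
    have g2 : g • S.K.vx i (k.1 + 2) = S.K.vx i (k.1 + 2) := g2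
    have g3 : g • S.K.vx i (k.1 + 3) = S.K.vx i (k.1 + 1) := g3
    have hl : S.K.len i = 4 := S.P.len4 hs
    have h2 : k.1 + 2 < S.K.len i := by omega
    have h4' : ∀ n, S.K.vx i (n + 4) = S.K.vx i n := fun n => by
      rw [← S.K.vx_mod i (n + 4), ← S.K.vx_mod i n, hl, Nat.add_mod_right]
    have h4 := h4' k.1
    refine ⟨(⟨i, ⟨k.1 + 2, h2⟩⟩, x * g), ?_, ?_, Or.inr ⟨?_, ?_⟩⟩
    · intro h
      have h3 : k.1 + 2 < 2 := (hQ _ _ h).1
      omega
    · show (x * g) • S.K.vx i (k.1 + 3) = x • S.K.vx i (k.1 + 1)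
      rw [mul_smul, g3]
    · show (x * g) • S.K.vx i (k.1 + 2) = x • S.K.vx i (k.1 + 2)
      rw [mul_smul, g2]
    · show (x * g) • S.K.vx i (k.1 + 4) = x • S.K.vx i k.1
      rw [h4, mul_smul, g0]
  · exact ⟨e, he, rfl, Or.inl ⟨rfl, rfl⟩⟩

/-- the flags of a corner -/
theorem fc_zce (nd : S.P.ND) (e : S.K.LE) (b : Bool) :
    (S.P.fc nd).z ((e, b) : FL S.K) = ce S.K (!b) e := by
  cases b
  · exact S.P.fc_z' nd e
  · exact S.P.fc_z nd e

theorem fc_xce (nd : S.P.ND) (e : S.K.LE) (b : Bool) :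
    (S.P.fc nd).x ((e, b) : FL S.K) = ce S.K b e := by
  cases b
  · exact S.P.fc_x' nd e
  · exact S.P.fc_x nd e

/-- the fourth vertex -/
theorem fc_zr (nd : S.P.ND) (e : S.K.Pos × H) (b : Bool) (hs : S.P.sq e.1.1) :
    (S.P.fc nd).z ((S.P.fc nd).r ((e, b) : FL S.K)) = e.2 • S.K.vx e.1.1 (e.1.2.1 + 3) := by
  have hl := S.P.len4 hs
  cases b
  · show (S.P.fc nd).z ((S.K.pv e, false) : FL S.K) = _
    rw [fc_zce]
    show e.2 • S.K.vx e.1.1 ((e.1.2.1 + (S.K.len e.1.1 - 1)) % S.K.len e.1.1) = _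
    rw [S.K.vx_mod]
    have h5 : e.1.2.1 + (S.K.len e.1.1 - 1) = e.1.2.1 + 3 := by omega
    exact congrArg (fun n => e.2 • S.K.vx e.1.1 n) h5
  · show (S.P.fc nd).z ((S.K.nx e, true) : FL S.K) = _
    rw [fc_zce]
    show e.2 • S.K.vx e.1.1 ((e.1.2.1 + 1) % S.K.len e.1.1 + 2) = _
    rw [S.K.vx_modadd]

/-- every flag has the same walk as a flag outside of `Q` -/
theorem cQ_parW {Q : S.K.I → ℕ → Prop} (hQ : ∀ i k, Q i k → k < 2 ∧ S.P.Flk i k) (nd : S.P.ND)
    (f : FL S.K) : ∃ f' : FL S.K, f'.1 ∈ S.cQ Q ∧ (S.P.fc nd).Sm f f' := by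
  by_cases he : Q f.1.1.1 f.1.1.2.1
  · obtain ⟨⟨⟨i, k⟩, x⟩, b⟩ := f
    obtain ⟨hk, hs, g, g0, g2, g3, g1⟩ := hQ _ _ he
    have hk : k.1 < 2 := hk
    have hs : S.P.sq i := hs
    have g0 : g • S.K.vx i k.1 = S.K.vx i k.1 := g0
    have g2 : g • S.K.vx i (k.1 + 2) = S.K.vx i (k.1 + 2) := g2
    have g3 : g • S.K.vx i (k.1 + 3) = S.K.vx i (k.1 + 1) := g3
    have g1 : g • S.K.vx i (k.1 + 1) = S.K.vx i (k.1 + 3) := g1
    have hl : S.K.len i = 4 := S.P.len4 hs
    have h2 : k.1 + 2 < S.K.len i := by omega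
    have h4 : ∀ n, S.K.vx i (n + 4) = S.K.vx i n := fun n => by
      rw [← S.K.vx_mod i (n + 4), ← S.K.vx_mod i n, hl, Nat.add_mod_right]
    let e' : S.K.Pos × H := (⟨i, ⟨k.1 + 2, h2⟩⟩, x * g)
    have c0 : S.K.c0 e' = S.K.c2 ((⟨i, k⟩, x) : S.K.LE) := by
      show (x * g) • S.K.vx i (k.1 + 2) = x • S.K.vx i (k.1 + 2)
      rw [mul_smul, g2]
    have c1 : S.K.c1 e' = S.K.c1 ((⟨i, k⟩, x) : S.K.LE) := by
      show (x * g) • S.K.vx i (k.1 + 3) = x • S.K.vx i (k.1 + 1)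
      rw [mul_smul, g3]
    have c2 : S.K.c2 e' = S.K.c0 ((⟨i, k⟩, x) : S.K.LE) := by
      show (x * g) • S.K.vx i (k.1 + 4) = x • S.K.vx i k.1
      rw [h4, mul_smul, g0]
    have hce : ∀ b, ce S.K (!b) e' = ce S.K b ((⟨i, k⟩, x) : S.K.LE) := by
      intro b
      cases b
      · exact c0
      · exact c2
    refine ⟨((e', !b) : FL S.K), ?_, Or.inr ⟨hs, hs, ?_, ?_, ?_, ?_⟩⟩
    · intro h
      have h3 : k.1 + 2 < 2 := (hQ _ _ h).1
      omega
    · rw [fc_xce, fc_xce]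
      exact (hce b).symm
    · exact c1.symm
    · rw [fc_zce, fc_zce]
      exact (hce (!b)).symm
    · rw [fc_zr nd _ b hs, fc_zr nd e' (!b) hs]
      show x • S.K.vx i (k.1 + 3) = (x * g) • S.K.vx i (k.1 + 2 + 3)
      rw [show k.1 + 2 + 3 = k.1 + 1 + 4 from rfl, h4, mul_smul, g1]
  · exact ⟨f, he, Or.inl rfl⟩

variable (S)

/-- the duplicates at the private poles: the flipped corners `(T, b, y)` with an arrow `b → y` -/
def QG (i : S.K.I) (k : ℕ) : Prop := k < 2 ∧ S.P.Flk i k ∧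
  (S.K.ar (S.K.vx i (k + 1)) (S.K.vx i k) ∨ S.K.ar (S.K.vx i (k + 1)) (S.K.vx i (k + 2)))

/-- all duplicates: the corners at position `1` of the squares in `F` and the flipped corners at poles -/
def Qa (F : S.K.I → Prop) (i : S.K.I) (k : ℕ) : Prop := (F i ∧ k = 1) ∨ S.QG i k

/-- the listed corners without the duplicates -/
def aW (F : S.K.I → Prop) : SubMulAction H S.K.LE := S.cQ (S.Qa F)

variable {S}

theorem mem_aW {F : S.K.I → Prop} {e : S.K.LE} : e ∈ S.aW F ↔ ¬ S.Qa F e.1.1 e.1.2.1 := Iff.rfl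

theorem Flp.flk {i : S.K.I} (h : S.Flp i) (hs : S.P.sq i) : S.P.Flk i 1 := by
  obtain ⟨g, g3, g1, g0, g2⟩ := h
  have v : ∀ (j : ℕ) (k : Fin 4), j % 4 = k → S.K.vx i j = S.P.qt i k := fun j k e =>
    Phm.vx hs j k e
  refine ⟨hs, g, ?_, ?_, ?_, ?_⟩
  · rw [v 1 1 rfl]
    exact g1
  · rw [v (1 + 2) 3 rfl]
    exact g3
  · rw [v (1 + 3) 0 rfl, v (1 + 1) 2 rfl]
    exact g0
  · rw [v (1 + 3) 0 rfl, v (1 + 1) 2 rfl]
    exact g2

theorem Qa_lt {F : S.K.I → Prop} (hF : ∀ i, F i → S.Ewk i ∧ S.Flp i) (i : S.K.I) (k : ℕ)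
    (h : S.Qa F i k) : k < 2 ∧ S.P.Flk i k := by
  rcases h with ⟨h, rfl⟩ | h
  · exact ⟨by omega, (hF i h).2.flk (hF i h).1.sq⟩
  · exact ⟨h.1, h.2.1⟩

theorem aW_par {F : S.K.I → Prop} (hF : ∀ i, F i → S.Ewk i ∧ S.Flp i) : S.Par (S.aW F) :=
  cQ_par (Qa_lt hF)

/-- every flag has the same walk as a flag in `aW` -/
theorem aW_parW {F : S.K.I → Prop} (hF : ∀ i, F i → S.Ewk i ∧ S.Flp i) (nd : S.P.ND)
    (f : FL S.K) : ∃ f' : FL S.K, f'.1 ∈ S.aW F ∧ (S.P.fc nd).Sm f f' :=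
  cQ_parW (Qa_lt hF) nd f

theorem aW_le {F : S.K.I → Prop} {e : S.K.LE} (h : e ∈ S.aW F) : e ∈ S.pE F :=
  fun k => h (Or.inl k)

/-- a flipped corner at a pole is in `aW` only if its position is `2` or `3` -/
theorem aW_fl {F : S.K.I → Prop} {e : S.K.LE} (h : e ∈ S.aW F) (hf : S.P.Flk e.1.1 e.1.2.1)
    (hp : S.K.ar (S.K.c1 e) (S.K.c0 e) ∨ S.K.ar (S.K.c1 e) (S.K.c2 e)) : ¬ e.1.2.1 < 2 := by
  intro hk
  apply h
  refine Or.inr ⟨hk, hf, ?_⟩
  have inv : ∀ {a b : V}, S.K.ar (e.2 • a) (e.2 • b) → S.K.ar a b := by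
    intro a b k
    have := S.K.ar_smul e.2⁻¹ _ _ k
    rwa [inv_smul_smul, inv_smul_smul] at this
  rcases hp with k | k
  · exact Or.inl (inv k)
  · exact Or.inr (inv k)

theorem UqA.mono {A B : SubMulAction H S.K.LE} (hAB : ∀ e, e ∈ B → e ∈ A) {w u : S.X} {z : V}
    (h : S.UqA A w u z) : S.UqA B w u z :=
  fun e e' he he' => h e e' (hAB e he) (hAB e' he')

/-- ONE ORBIT OF CORNERS AT EVERY POLE: a vertex which is not fat and without own squares -/
theorem th1A_of {F : S.K.I → Prop} (hn : S.P.NoPl) (nd : S.P.ND) {z : V}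
    (hf : ¬ (S.P.fc nd).Fat z) (hown : ∀ f, (S.P.fc nd).y f = z → ¬ (S.P.fc nd).Ow f) :
    S.Th1A (S.aW F) z := by
  intro a ha e e' m m' heA heA' h1 h1' he he'
  -- the flags towards `a`
  have hb : ∀ (e : S.K.LE) (m : V), S.K.c1 e = z → S.En e a m → ∃ b : Bool,
      (S.P.fc nd).y ((e, b) : FL S.K) = z ∧ (S.P.fc nd).z ((e, b) : FL S.K) = a ∧
      (S.P.fc nd).x ((e, b) : FL S.K) = ce S.K b e ∧ ce S.K (!b) e = a ∧ ce S.K b e = m := by
    rintro e m h1 (⟨k0, k2⟩ | ⟨k0, k2⟩)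
    · refine ⟨false, h1, ?_, ?_, k0, k2⟩
      · rw [S.P.fc_z', k0]
      · rw [S.P.fc_x']
        rfl
    · refine ⟨true, h1, ?_, ?_, k2, k0⟩
      · rw [S.P.fc_z, k2]
      · rw [S.P.fc_x]
        rfl
  obtain ⟨b, y1, z1, x1, o1, o2⟩ := hb e m h1 he
  obtain ⟨b', y1', z1', x1', o1', o2'⟩ := hb e' m' h1' he'
  by_contra hno
  apply hf
  refine ⟨((e, b) : FL S.K), ((e', b') : FL S.K), y1, y1', ?_, z1'.trans z1.symm, hown _ y1,
    hown _ y1', ?_⟩
  · rw [z1]
    exact ha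
  intro h hSm
  rcases hSm with hSm | ⟨s1, s1', sx, sy, sz, sq⟩
  · apply hno
    have e1 : h • e = e' := congrArg Prod.fst hSm
    have e2 : b = b' := congrArg Prod.snd hSm
    refine ⟨h, ?_, ?_, e1.symm⟩
    · rw [← h1, ← S.K.c1_smul, e1, h1', h1]
    · have h3 : ce S.K (!b) (h • e) = h • ce S.K (!b) e := ce_smul S.K _ h e
      rw [e1, o1, e2, o1'] at h3
      exact h3.symm
  · -- the corner `h • e`
    have y2 : S.K.c1 (h • e) = z := by
      have : S.K.c1 (h • e) = S.K.c1 e' := sy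
      rw [this, h1']
    have hz : h • z = z := by
      rw [← h1, ← S.K.c1_smul, y2, h1]
    have sz' : ce S.K (!b) (h • e) = ce S.K (!b') e' := by
      rw [← fc_zce nd, ← fc_zce nd]
      exact sz
    have sx' : ce S.K b (h • e) = ce S.K b' e' := by
      rw [← fc_xce nd, ← fc_xce nd]
      exact sx
    have s2 : S.P.sq (h • e).1.1 := s1
    have s2' : S.P.sq e'.1.1 := s1'
    have sq' : (h • e).2 • S.K.vx (h • e).1.1 ((h • e).1.2.1 + 3) =
        e'.2 • S.K.vx e'.1.1 (e'.1.2.1 + 3) := by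
      rw [← fc_zr nd _ b s2, ← fc_zr nd _ b' s2']
      exact sq
    -- the other end is a page
    have hm : ¬ S.K.ar z m := by
      intro k
      have hs0 : S.P.sq e.1.1 := s1
      apply hown _ y1
      refine ⟨hs0, ?_, ?_⟩
      · rw [y1, x1, o2]
        exact k
      · rw [y1, z1]
        exact ha
    have hmz : S.K.ar m z := by
      have h3 : S.K.E (S.K.c1 e) m := by
        rcases he with ⟨-, k2⟩ | ⟨k0, -⟩
        · rw [← k2]
          exact S.K.c_E2 e
        · rw [← k0]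
          exact S.K.c_E0 e
      rw [h1] at h3
      rcases h3 with k | k
      · exact absurd k hm
      · exact k
    have hr : S.K.rk (ce S.K b (h • e)) ≠ S.K.rk (ce S.K (!b) (h • e)) := by
      rw [ce_smul, ce_smul, S.K.rk_smul, S.K.rk_smul, o1, o2]
      have r1 := S.K.ar_rk _ _ hmz
      have r2 := S.K.ar_rk _ _ ha
      omega
    rcases P45.walk_flip hn s2 s2' b b' sx' sz' (y2.trans h1'.symm) sq' hr with
      ⟨-, g, hg⟩ | ⟨f1, f2, f3⟩
    · apply hno
      have e3 : e' = (g * h) • e := by rw [hg, mul_smul]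
      have g1 : (g * h) • z = z := by
        rw [← h1, ← S.K.c1_smul, ← e3, h1', h1]
      refine ⟨g * h, g1, ?_, e3⟩
      -- ends
      have k1 : ce S.K (!b) e' = (g * h) • a := by
        rw [e3, ce_smul, o1]
      have k2 : ce S.K b e' = (g * h) • m := by
        rw [e3, ce_smul, o2]
      cases hbb : decide (b = b') with
      | true =>
        have hbb' : b = b' := of_decide_eq_true hbb
        rw [hbb', o1'] at k1
        exact k1.symm
      | false =>
        exfalso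
        have hbb' : b ≠ b' := of_decide_eq_false hbb
        have h4 : (!b') = b := by
          cases b <;> cases b' <;> simp_all
        rw [← h4, o1'] at k2
        -- a page is moved to a pole
        have := S.K.ar_smul (g * h) _ _ hmz
        rw [g1, ← k2] at this
        exact ar_not this ha
    · have p1 : S.K.ar (S.K.c1 (h • e)) (S.K.c0 (h • e)) ∨
          S.K.ar (S.K.c1 (h • e)) (S.K.c2 (h • e)) := by
        rw [y2, S.K.c0_smul, S.K.c2_smul]
        have hha : S.K.ar z (h • a) := by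
          have := S.K.ar_smul h _ _ ha
          rwa [hz] at this
        rcases he with ⟨k0, -⟩ | ⟨-, k2⟩
        · left
          rw [k0]
          exact hha
        · right
          rw [k2]
          exact hha
      have p1' : S.K.ar (S.K.c1 e') (S.K.c0 e') ∨ S.K.ar (S.K.c1 e') (S.K.c2 e') := by
        rw [h1']
        rcases he' with ⟨k0, -⟩ | ⟨-, k2⟩
        · left
          rw [k0]
          exact ha
        · right
          rw [k2]
          exact ha
      rcases f3 with f3 | f3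
      · exact aW_fl ((S.aW F).smul_mem h heA) f1 p1 f3
      · exact aW_fl heA' f2 p1' f3

end SyQ

end Pool.Agent.DI
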