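import Pool.Agent.DI.UqF
import Pool.Agent.DI.UqW
import Pool.Agent.DI.DupT
import Pool.Agent.DI.PhB

/-!
# [Z1] at thin softs

`exc_thinA`: the component of a page of `z` has no pole excess if the lines in `A` at every private pole
are one orbit. `S.lnC F`: the duplicates at the private poles. In the equality case the component
without all duplicates has contribution zero (`comp_eqA`), so the degrees are the numbers of the pole
ends (`thin_degA`) and the corners in `S.aW F` which cross an edge are one orbit (`uqA_nfat`), all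
crossing corners are one orbit as triples (`uqV_nfat`). `S.LostI w`: the corners at lost nodes are page
corners; `lostI_of_brJ`.
-/

namespace Pool.Agent.DI

open MulAction
open Pool.Agent.SAF (InC orbs FinOrb oc Decomp SAn SA Conv hull dist_edge FinOrb_iff exists_next TAct)
open Pool.Agent.SAG (IO Zt)
open Pool.Agent.BT (PX PQ JS bey exits mst Hyp finite_of_hyp axis)
open Pool.Agent.BT.TA

namespace SyQ

variable {H V : Type} [Group H] [MulAction H V] {S : SyQ H V}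

/-- the ends of the lines of a component of a page which are private poles -/
theorem comp_PO {z n : V} (h : S.K.ar n z) (ε : ↥(S.LPG.cE (S.lp h))) (b : Bool)
    (hb : S.LPG.en ε.1 b ∈ S.LPG.cT (S.lp h)) :
    (oq ↥(S.LPG.grp (S.lp h)) (⟨S.LPG.en ε.1 b, hb⟩ : ↥(S.LPG.cT (S.lp h))) :
      (S.LPG.comp (S.lp h)).fg.N) ∈ S.LPG.rs (S.lp h) S.PL ↔
      S.K.ar (S.K.c1 ε.1.1.1) (ce S.K b ε.1.1.1) := by
  have h1 : (oq ↥(S.LPG.grp (S.lp h)) (⟨S.LPG.en ε.1 b, hb⟩ : ↥(S.LPG.cT (S.lp h))) :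
      (S.LPG.comp (S.lp h)).fg.N) ∈ S.LPG.rs (S.lp h) S.PL ↔
      (oq H (S.LPG.en ε.1 b) : orbitRel.Quotient H (S.K.pc.CT S.AJ)) ∈ S.PL := Iff.rfl
  rw [h1, en_LG, mem_PL_ct, en_PO]

theorem comp_en {z n : V} (h : S.K.ar n z) (ε : ↥(S.LPG.cE (S.lp h))) (b : Bool) :
    S.LPG.en ε.1 b ∈ S.LPG.cT (S.lp h) := by
  cases b
  · exact S.LPG.mem_cE'.1 ε.2
  · exact ε.2

theorem comp_at {z n : V} (h : S.K.ar n z) (ε : ↥(S.LPG.cE (S.lp h))) :
    S.K.c1 ε.1.1.1 = z := by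
  have h1 := comp_c1 h (t := S.K.pc.en ε.1.1 true) (by
    rw [← en_LG]
    exact comp_en h ε true)
  rw [en_pc, S.K.nd_pv] at h1
  exact h1

/-- the component of a page has no pole excess: one orbit of lines in `A` at every private pole -/
theorem exc_thinA {A : SubMulAction H S.K.LE} {z n : V} (h : S.K.ar n z) (th : S.Th1A A z) :
    ((S.LPG.comp (S.lp h)).sub (S.LPG.rE (S.lp h) (S.lnA A))).fg.exc
      (S.LPG.rs (S.lp h) S.PL) ≤ 0 := by
  classical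
  let C := (S.LPG.comp (S.lp h)).sub (S.LPG.rE (S.lp h) (S.lnA A))
  -- the pole end of a line
  have hex : ∀ l : {l : C.fg.L // C.fg.a l ∈ S.LPG.rs (S.lp h) S.PL ∨
        C.fg.b l ∈ S.LPG.rs (S.lp h) S.PL},
      ∃ (ε : ↥(S.LPG.rE (S.lp h) (S.lnA A))) (b : Bool),
        (oq ↥(S.LPG.grp (S.lp h)) ε : C.fg.L) = l.1 ∧
        S.K.ar z (ce S.K b ε.1.1.1.1) := by
    rintro ⟨l, hl⟩
    obtain ⟨ε, rfl⟩ := oq_surj l
    rcases hl with hl | hl
    · have h1 := (comp_PO h ε.1 true (comp_en h ε.1 true)).1 hl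
      rw [comp_at h ε.1] at h1
      exact ⟨ε, true, rfl, h1⟩
    · have h1 := (comp_PO h ε.1 false (comp_en h ε.1 false)).1 hl
      rw [comp_at h ε.1] at h1
      exact ⟨ε, false, rfl, h1⟩
  choose ε b e1 e2 using hex
  let f : {l : C.fg.L // C.fg.a l ∈ S.LPG.rs (S.lp h) S.PL ∨
        C.fg.b l ∈ S.LPG.rs (S.lp h) S.PL} →
      ↥(S.LPG.rs (S.lp h) S.PL) := fun l =>
    ⟨oq ↥(S.LPG.grp (S.lp h)) (⟨S.LPG.en (ε l).1.1 (b l), comp_en h (ε l).1 (b l)⟩ :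
      ↥(S.LPG.cT (S.lp h))),
      (comp_PO h (ε l).1 (b l) (comp_en h (ε l).1 (b l))).2 (by
        rw [comp_at h (ε l).1]; exact e2 l)⟩
  have inj : Function.Injective f := by
    intro l l' hl
    have h1 := congrArg Subtype.val hl
    obtain ⟨j, hj⟩ := (oq_eq (J := ↥(S.LPG.grp (S.lp h))) (T := ↥(S.LPG.cT (S.lp h)))).1 h1
    have h2 : S.LPG.en (ε l').1.1 (b l') = j.1 • S.LPG.en (ε l).1.1 (b l) :=
      congrArg Subtype.val hj
    rw [en_LG, en_LG, ← S.K.pc.ct_smul] at h2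
    have h3 := ct_PO1 (S := S) h2 (en_PO.2 (by rw [comp_at h (ε l').1]; exact e2 l'))
    have h4 : (S.K.pc.en (ε l').1.1.1 (b l')).1 = j.1 • (S.K.pc.en (ε l).1.1.1 (b l)).1 :=
      congrArg Subtype.val h3
    rw [en_pc, en_pc, comp_at h, comp_at h, S.K.nd_pol (e2 l'), S.K.nd_pol (e2 l),
      PN.smul_pol] at h4
    obtain ⟨jz, ja, -⟩ := PN.pol.inj h4
    -- the two corners at the pole
    have k1 := (ce_En (ε l).1.1.1.1 (b l)).smul j.1
    rw [← ja] at k1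
    obtain ⟨g, gz, ga, ge⟩ := th (ce S.K (b l') (ε l').1.1.1.1) (e2 l') (j.1 • (ε l).1.1.1.1)
      (ε l').1.1.1.1 _ _ (A.smul_mem j.1 (ε l).2) (ε l').2
      (by rw [S.K.c1_smul, comp_at h (ε l).1, ← jz]) (comp_at h (ε l').1) k1
      (ce_En (ε l').1.1.1.1 (b l'))
    have h5 : (ε l').1.1 = (g * j.1) • (ε l).1.1 := by
      apply Subtype.ext
      apply Subtype.ext
      rw [ge]
      exact (mul_smul _ _ _).symm
    have h6 : g * j.1 ∈ S.LPG.grp (S.lp h) := by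
      refine S.LPG.grp_of (comp_en h (ε l).1 true) ?_
      have := comp_en h (ε l').1 true
      rw [h5] at this
      have h7 : S.LPG.en ((g * j.1) • (ε l).1.1) true =
        (g * j.1) • S.LPG.en (ε l).1.1 true := S.LPG.hs _ _
      rwa [h7] at this
    apply Subtype.ext
    rw [← e1 l, ← e1 l']
    exact oq_eq.2 ⟨⟨g * j.1, h6⟩, Subtype.ext (Subtype.ext h5)⟩
  unfold FG.exc FG.pst
  have hf : Finite ↥(S.LPG.rs (S.lp h) S.PL) := by
    have := (S.LPG.comp (S.lp h)).fg.fN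
    infer_instance
  have := Nat.card_le_card_of_injective f inj
  have h8 : (Nat.card {l : C.fg.L // C.fg.a l ∈ S.LPG.rs (S.lp h) S.PL ∨
        C.fg.b l ∈ S.LPG.rs (S.lp h) S.PL} : ℤ) ≤ Nat.card ↥(S.LPG.rs (S.lp h) S.PL) := by
    exact_mod_cast this
  exact sub_nonpos.2 h8

/-- the duplicates at the private poles, as lines -/
def lnC (S : SyQ H V) (F : S.K.I → Prop) : SubMulAction H ↥(JM.cpl S.AJ) where
  carrier := {e | ¬ (F e.1.1.1.1 ∧ e.1.1.1.2.1 = 1) ∧ S.QG e.1.1.1.1 e.1.1.1.2.1}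
  smul_mem' _ _ h := h

theorem mem_lnC {F : S.K.I → Prop} {e : ↥(JM.cpl S.AJ)} : e ∈ S.lnC F ↔
    (¬ (F e.1.1.1.1 ∧ e.1.1.1.2.1 = 1) ∧ S.QG e.1.1.1.1 e.1.1.1.2.1) := Iff.rfl

theorem pR_split {F : S.K.I → Prop} {e : ↥(JM.cpl S.AJ)} :
    e ∈ S.pR F ↔ e ∈ S.lnA (S.aW F) ∨ e ∈ S.lnC F := by
  have h1 : e ∈ S.pR F ↔ ¬ (F e.1.1.1.1 ∧ e.1.1.1.2.1 = 1) := Iff.rfl
  have h2 : e ∈ S.lnA (S.aW F) ↔ ¬ ((F e.1.1.1.1 ∧ e.1.1.1.2.1 = 1) ∨
    S.QG e.1.1.1.1 e.1.1.1.2.1) := Iff.rfl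
  rw [h1, h2, mem_lnC]
  tauto

theorem lnA_disj {F : S.K.I → Prop} {e : ↥(JM.cpl S.AJ)} (h : e ∈ S.lnA (S.aW F)) :
    e ∉ S.lnC F := fun k => h (Or.inr k.2)

/-- a duplicate at a private pole has a pole end -/
theorem lnC_pole {F : S.K.I → Prop} {e : ↥(JM.cpl S.AJ)} (h : e ∈ S.lnC F) :
    S.K.ar (S.K.c1 e.1.1) (S.K.c0 e.1.1) ∨ S.K.ar (S.K.c1 e.1.1) (S.K.c2 e.1.1) := by
  obtain ⟨-, -, -, h3⟩ := h
  rcases h3 with k | k
  · exact Or.inl (S.K.ar_smul e.1.1.2 _ _ k)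
  · exact Or.inr (S.K.ar_smul e.1.1.2 _ _ k)

theorem lnC_ends {F : S.K.I → Prop} {e : ↥(JM.cpl S.AJ)} (h : e ∈ S.lnC F) :
    (S.K.ar (S.K.c1 e.1.1) (S.K.c0 e.1.1) ∧ ¬ S.K.ar (S.K.c1 e.1.1) (S.K.c2 e.1.1)) ∨
    (¬ S.K.ar (S.K.c1 e.1.1) (S.K.c0 e.1.1) ∧ S.K.ar (S.K.c1 e.1.1) (S.K.c2 e.1.1)) := by
  have hPE : S.K.ar (S.K.c0 e.1.1) (S.K.c1 e.1.1) ∨ S.K.ar (S.K.c2 e.1.1) (S.K.c1 e.1.1) := e.1.2
  rcases lnC_pole h with k | k
  · left
    refine ⟨k, fun k' => ?_⟩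
    rcases hPE with q | q
    · exact ar_not k q
    · exact ar_not k' q
  · right
    refine ⟨fun k' => ?_, k⟩
    rcases hPE with q | q
    · exact ar_not k' q
    · exact ar_not k q

theorem lnC_oneP {F : S.K.I → Prop} {z n : V} (h : S.K.ar n z) :
    (S.LPG.comp (S.lp h)).OneP (S.LPG.rE (S.lp h) (S.lnC F)) (S.LPG.rs (S.lp h) S.PL) := by
  intro e he
  have hs := comp_PO h e true (comp_en h e true)
  have ht := comp_PO h e false (comp_en h e false)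
  rcases lnC_ends (S := S) (F := F) (e := e.1) he with ⟨k1, k2⟩ | ⟨k1, k2⟩
  · exact Or.inl ⟨hs.2 k1, fun k => k2 (ht.1 k)⟩
  · exact Or.inr ⟨fun k => k1 (hs.1 k), ht.2 k2⟩

/-- at lost nodes all corners are page corners -/
def LostI (S : SyQ H V) {ι : Type} (w : ι → S.X) : Prop :=
  ∀ y n, S.K.ar n y → ∀ p, p ∈ S.J y → p ∈ S.J n → ¬ Bp H w p → ∀ (e : S.K.LE) (b : Bool),
  S.K.c1 e = y → S.K.ar (ce S.K b e) y → S.LIJ p y n (ce S.K b e) → S.K.ar (ce S.K (!b) e) y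

/-- if all lost nodes are bare vertices -/
theorem lostI_of_brJ {ι : Type} {w : ι → S.X}
    (h : ∀ y n, S.K.ar n y → ∀ p, p ∈ S.J y → p ∈ S.J n → ¬ Bp H w p →
      ∃ (i : S.K.I) (g : H) (u p0 : S.X), n = g • S.P.qt i 3 ∧ S.BrJ i u p0 ∧
        (∀ x : H, x • u ≠ p0)) : S.LostI w := by
  intro y n har p h1 h2 h3 e b k1 k2 k3
  obtain ⟨i, g, u, p0, rfl, hi, hu⟩ := h y n har p h1 h2 h3
  have hm := (hi.phm hu).LIJ_eq k3
  cases b with
  | true =>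
    obtain ⟨-, c1, c2⟩ := (hi.phm hu).cor0 (e := e) hm
    show S.K.ar (S.K.c2 e) y
    rw [← k1, c1, c2]
    exact S.K.ar_smul _ _ _ hi.Ta
  | false =>
    obtain ⟨c0, c1, -⟩ := (hi.phm hu).cor2 (e := e) hm
    show S.K.ar (S.K.c0 e) y
    rw [← k1, c0, c1]
    exact S.K.ar_smul _ _ _ hi.Tb

theorem OneDirR.mono {A B : SubMulAction H ↥(JM.cpl S.AJ)} (hAB : ∀ e, e ∈ B → e ∈ A) {p : S.X}
    {y n : V} (h : S.OneDirR A p y n) : S.OneDirR B p y n :=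
  fun e e' b b' he he' => h e e' b b' (hAB e he) (hAB e' he')

/-- no duplicates at private poles at lost nodes -/
theorem lnC_lost {F : S.K.I → Prop} (hc : S.Conn) (hnb : S.NB) {ι : Type} {w : ι → S.X}
    (hI : S.LostI w) {y n : V} (h : S.K.ar n y) {p : S.X} (hp : p ∈ S.J y) (hn : p ∈ S.J n)
    (hb : ¬ Bp H w p) : (S.LPG.sub (S.lnC F)).fg.deg (oq H (S.lp h)) = 0 := by
  have key : ∀ (e : ↥(S.lnC F)) (b : Bool), S.LPG.en e.1 b ≠ S.lp h := by
    intro e b k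
    obtain ⟨l1, l2, l3, l4, -, -⟩ := half_line (p := p) (y := ⟨y, hp⟩) (n := ⟨n, hn⟩) hc hnb h
      (e := e.1) (b := b) (by
        cases b
        · exact Or.inr ⟨rfl, k⟩
        · exact Or.inl ⟨rfl, k⟩)
    have l5 := hI y n h p hp hn hb e.1.1.1 b l1 l2 l4
    have l1' : S.K.c1 e.1.1.1 = y := l1
    have l2' : S.K.ar (ce S.K b e.1.1.1) y := l2
    rcases lnC_pole e.2 with q | q
    · rw [l1'] at q
      cases b
      · exact ar_not q l5
      · exact ar_not q l2'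
    · rw [l1'] at q
      cases b
      · exact ar_not q l2'
      · exact ar_not q l5
  unfold FG.deg
  have i1 : IsEmpty {e // (S.LPG.sub (S.lnC F)).fg.a e = oq H (S.lp h)} := by
    refine ⟨fun x => ?_⟩
    obtain ⟨x, hx⟩ := x
    obtain ⟨l, rfl⟩ := oq_surj x
    obtain ⟨j, hj⟩ := oq_eq.1 hx
    apply key (j • l) true
    have h1 : S.LPG.en (j • l).1 true = j • S.LPG.s l.1 := S.LPG.hs j l.1
    rw [h1]
    exact hj.symm
  have i2 : IsEmpty {e // (S.LPG.sub (S.lnC F)).fg.b e = oq H (S.lp h)} := by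
    refine ⟨fun x => ?_⟩
    obtain ⟨x, hx⟩ := x
    obtain ⟨l, rfl⟩ := oq_surj x
    obtain ⟨j, hj⟩ := oq_eq.1 hx
    apply key (j • l) false
    have h1 : S.LPG.en (j • l).1 false = j • S.LPG.t l.1 := S.LPG.ht j l.1
    rw [h1]
    exact hj.symm
  rw [Nat.card_of_isEmpty, Nat.card_of_isEmpty]

section

variable (hc : S.Conn) (hnb : S.NB) {ι : Type} (w : ι → S.X)
  (hw : ∀ (i j : ι) (g : H), g • w i = w j → i = j) {F : S.K.I → Prop}
  (hF : ∀ i, F i → S.Ewk i ∧ S.Flp i) (hI : S.LostI w)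

include hF hI

/-- the number of the pole ends is at most the degree without the duplicates -/
theorem exR_le_degA {z n : V} (h : S.K.ar n z) :
    exR hc hnb w hw (S.pQ F) (oq H (S.lp h)) ≤
      (S.LPG.sub (S.lnA (S.aW F))).fg.deg (oq H (S.lp h)) := by
  obtain ⟨p, hp, hn⟩ := lp_ex h
  by_cases hb : Bp H w p
  · rw [exR_bad hc hnb w hw _ h hp hn hb]
    refine bad_red (S := S) w (F := fun _ y n h =>
      exE hc hnb w hw (oq H (S.lp h)) ≤
        (S.LPG.sub (S.lnA (S.aW F))).fg.deg (oq H (S.lp h))) ?_ ?_ hb h hp hn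
    · intro g p y n h k
      rw [oq_lp] at k
      exact k
    · intro i y n h h1 h2
      rw [exE_bad hc hnb w hw h h1 h2]
      exact e_le_degN (aW_par hF) hc hnb (y := ⟨y, h1⟩) (n := ⟨n, h2⟩) h
  · rw [exR_lost hc hnb w hw _ h hp hn hb]
    have h1 : (S.NG (S.pQ F)).fg.deg (oq H (S.lp h)) =
        (S.LPG.sub (S.lnA (S.aW F))).fg.deg (oq H (S.lp h)) +
          (S.LPG.sub (S.lnC F)).fg.deg (oq H (S.lp h)) :=
      S.LPG.deg_add3 (A := JM.cpl (S.pQ F)) (B := S.lnA (S.aW F)) (C := S.lnC F)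
        (fun e => pR_split) (fun e he => lnA_disj he) _
    rw [h1, lnC_lost hc hnb hI h hp hn hb]
    exact le_refl _

/-- the degrees of a component without contribution -/
theorem deg_of_compA {z n : V} (h : S.K.ar n z)
    [Fintype ((S.LPG.comp (S.lp h)).sub (S.LPG.rE (S.lp h) (S.lnA (S.aW F)))).fg.N]
    (h0 : ((S.LPG.comp (S.lp h)).sub (S.LPG.rE (S.lp h) (S.lnA (S.aW F)))).fg.aftE
      (S.LPG.rs (S.lp h) S.PL) (S.LPG.re (S.lp h) (exR hc hnb w hw (S.pQ F))) ≤ 0) :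
    (S.LPG.sub (S.lnA (S.aW F))).fg.deg (oq H (S.lp h)) =
      exR hc hnb w hw (S.pQ F) (oq H (S.lp h)) := by
  have hdeg : ∀ q : ((S.LPG.comp (S.lp h)).sub (S.LPG.rE (S.lp h) (S.lnA (S.aW F)))).fg.N,
      ((S.LPG.comp (S.lp h)).sub (S.LPG.rE (S.lp h) (S.lnA (S.aW F)))).fg.deg q =
      (S.LPG.sub (S.lnA (S.aW F))).fg.deg (S.LPG.compN (S.lp h) q).1 := by
    intro q
    exact S.LPG.deg_comp_sub (S.lnA (S.aW F)) (S.lp h) q
  have h2 := FG.aftE_zero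
    ((S.LPG.comp (S.lp h)).sub (S.LPG.rE (S.lp h) (S.lnA (S.aW F)))).fg
    (e := S.LPG.re (S.lp h) (exR hc hnb w hw (S.pQ F)))
    (D := S.LPG.rs (S.lp h) S.PL) ?_ h0
    (oq _ (⟨S.lp h, Relation.EqvGen.refl _⟩ : ↥(S.LPG.cT (S.lp h)))) ?_
  · have h3 := hdeg (oq _ (⟨S.lp h, Relation.EqvGen.refl _⟩ : ↥(S.LPG.cT (S.lp h))))
    exact h3.symm.trans h2
  · intro x hx
    obtain ⟨Q, rfl⟩ := oq_surj x
    have h3 := hdeg (oq _ Q)
    refine le_of_le_of_eq ?_ h3.symm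
    show exR hc hnb w hw (S.pQ F) (oq H Q.1) ≤
      (S.LPG.sub (S.lnA (S.aW F))).fg.deg (oq H Q.1)
    obtain ⟨t, ht⟩ := S.K.pc.ct_surj Q.1
    rcases S.K.pt_cases t with ⟨y, m, k, e1⟩ | ⟨y, a, m, k1, k2, k3, e1⟩
    · have e2 : Q.1 = S.lp k := by
        rw [← ht]
        exact congrArg _ (Subtype.ext e1)
      rw [e2]
      exact exR_le_degA hc hnb w hw hF hI k
    · exfalso
      apply hx
      show (oq H Q.1 : orbitRel.Quotient H (S.K.pc.CT S.AJ)) ∈ S.PL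
      rw [← ht, mem_PL_ct]
      exact S.K.mem_PO e1
  · intro k
    exact lp_PL h k

variable (hL : S.LostR (S.pR F) w)

include hL in
/-- one strand for every local piece and every exit, without the duplicates -/
theorem SUA_of_degA {z : V} (hd : ∀ n (h : S.K.ar n z),
    (S.LPG.sub (S.lnA (S.aW F))).fg.deg (oq H (S.lp h)) =
      exR hc hnb w hw (S.pQ F) (oq H (S.lp h))) : S.SUA (S.aW F) z := by
  refine SUA_of (aW_par hF) hc hnb w hw ?_ ?_
  · intro n h p hp hn hb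
    have := hd n h
    rw [exR_bad hc hnb w hw _ h hp hn hb] at this
    exact this.le
  · exact fun n h p hp hn hb =>
      (hL z n h p hp hn hb).mono (fun e he => pR_split.2 (Or.inl he))

variable (hS : S.SinkH) (hl : ∀ y, (∃ a, S.K.ar y a) → S.K.LC y)
  [Fintype ι] (h0 : ∑ i, (S.k0 hc (w i)).pexc ≤ S.K.pexc + (dupB hc hnb w hw (S.pQ F) : ℤ))

include hL hS hl h0

/-- IN THE EQUALITY CASE the degrees at the pages of a vertex with one orbit of corners at every pole -/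
theorem thin_degA {z : V} (th : S.Th1A (S.aW F) z) {n : V} (h : S.K.ar n z) :
    (S.LPG.sub (S.lnA (S.aW F))).fg.deg (oq H (S.lp h)) =
      exR hc hnb w hw (S.pQ F) (oq H (S.lp h)) := by
  have hf' : Fintype (S.NC (S.pQ F) h).fg.N := Fintype.ofFinite _
  have hf1 : Fintype ((S.LPG.comp (S.lp h)).sub
    (S.LPG.rE (S.lp h) (S.lnA (S.aW F)))).fg.N := Fintype.ofFinite _
  refine deg_of_compA hc hnb w hw hF hI h ?_
  have h1 := pexc_eqR hc hnb w hw (dupL_pQ hF) hL hS hl h0 h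
  have h2 := (S.LPG.comp (S.lp h)).exc_aft_tr
    (A := JM.cpl (S.LPG.rE (S.lp h) (S.pQ F)))
    (B := S.LPG.rE (S.lp h) (S.lnA (S.aW F)))
    (C := S.LPG.rE (S.lp h) (S.lnC F)) (P := S.LPG.rs (S.lp h) S.PL)
    (fun e => pR_split (S := S) (e := e.1)) (fun e he => lnA_disj (S := S) (e := e.1) he)
    (lnC_oneP h) (S.LPG.re (S.lp h) (exR hc hnb w hw (S.pQ F))) h1
  rw [← h2]
  exact exc_thinA h th

/-- [Z1] IN THE EQUALITY CASE: one orbit of corners at every pole -/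
theorem uqA_th1 {z : V} (th : S.Th1A (S.aW F) z) (hz : S.K.LC z) {x u : S.X}
    (hu : S.D.G.Adj x u) (hxu : S.Cs x u z) : S.UqA (S.aW F) x u z :=
  uqA_of (aW_par hF) hu hxu hz
    (SUA_of_degA hc hnb w hw hF hI hL
      (fun _ h => thin_degA hc hnb w hw hF hI hL hS hl h0 th h)) th

/-- [Z1] IN THE EQUALITY CASE, softs which are not fat, without own squares -/
theorem uqA_nfat {z : V} (hn : S.P.NoPl) (nd : S.P.ND) (hf : ¬ (S.P.fc nd).Fat z)
    (hown : ∀ f, (S.P.fc nd).y f = z → ¬ (S.P.fc nd).Ow f) (hz : S.K.LC z) {x u : S.X}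
    (hu : S.D.G.Adj x u) (hxu : S.Cs x u z) : S.UqA (S.aW F) x u z :=
  uqA_th1 hc hnb w hw hF hI hL hS hl h0 (th1A_of hn nd hf hown) hz hu hxu

theorem uqV_nfat {z : V} (hn : S.P.NoPl) (nd : S.P.ND) (hf : ¬ (S.P.fc nd).Fat z)
    (hown : ∀ f, (S.P.fc nd).y f = z → ¬ (S.P.fc nd).Ow f) (hz : S.K.LC z) {x u : S.X}
    (hu : S.D.G.Adj x u) (hxu : S.Cs x u z) : S.UqV x u z :=
  UqA.uqV (aW_par hF) (uqA_nfat hc hnb w hw hF hI hL hS hl h0 hn nd hf hown hz hu hxu)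

/-- [Z1] IN THE EQUALITY CASE, sinks -/
theorem uqA_snk {z : V} (hz : ∀ a, ¬ S.K.ar z a) {x u : S.X} (hu : S.D.G.Adj x u)
    (hxu : S.Cs x u z) : S.UqA (S.aW F) x u z :=
  (uqA_sink hc hnb w hw hF hL hS hl h0 hz hu hxu).mono (fun _ => aW_le)

end

end SyQ

end Pool.Agent.DI
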