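import Pool.Agent.DI.ExL
import Pool.Agent.DI.NSp
import Pool.Agent.DI.UqG
import Pool.Agent.DI.OStS

/-!
# The equality case of the exc-law for the objects of a step

`h.EqS`: nothing is gained in the slice; `Psv.eqS`: from constant sigma and constant excess (`Eq2`), input: `KX1`
and `NoPl` in the folded slice. `Psv.tsp`: no local piece over `w` is one-sided; `Psv.full`: the local
pieces of the vertices which cross an edge are full; `Psv.sinkD`, `Psv.sinkZ`: the sinks.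
-/

attribute [local instance 2000] SubMulAction.mulAction

namespace Pool.Agent.DI

open MulAction
open Pool.Agent.SAF (InC SA orbs FinOrb oc Conv exists_next)
open Pool.Agent.SAG (IO Zt)
open Pool.Agent.BT (PX PQ JS bey exits mst Hyp)
open Pool.Agent.BT.TA

namespace SyQ

variable {H V : Type} [Group H] [MulAction H V] {S : SyQ H V} {w : S.X} {O : S.OR w} {E : V → Prop}

/-- EQUALITY: nothing is gained in the slice -/
def Psv.EqS (h : S.Psv w O E) : Prop :=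
  ∑ i : Unit, (S.k0 h.gd.conn ((fun _ : Unit => w) i)).pexc ≤ S.K.pexc + (h.dB : ℤ)

/-- from constant sigma and constant excess -/
theorem Psv.eqS (h : S.Psv w O E) (hx : KX1 (k0_min h.gd.conn h.wm) (S.sqN h.gd.conn w O))
    (hp : (h.kP O).NoPl) (e : h.Eq2) : h.EqS := h.eq2_h0 hx h.nSp_le hp e

theorem Psv.lR (h : S.Psv w O E) : S.LostR (JM.cpl (S.pQ S.FlW)) (fun _ : Unit => w) :=
  h.lostR h.bw2

theorem Psv.sH (h : S.Psv w O E) : S.SinkH := h.gd.sinkH fun y _ => h.lc y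

theorem Psv.oS (h : S.Psv w O E) : S.OS := OS_of (fun {v n a} h1 h2 => h.pc n v a h1 h2)

/-- over `w` -/
theorem Bp_w (w : S.X) : Bp H (fun _ : Unit => w) w := Bp_iff.2 ⟨1, one_smul _ _⟩

/-- [TS] AT THE BAD VERTEX -/
theorem Psv.tsp (h : S.Psv w O E) (h0 : h.EqS) : S.TSp w :=
  TS_of_eqR h.gd.conn h.nbm (fun _ : Unit => w) (one_pl w) dupL_flW h.lR h.sH (fun y _ => h.lc y)
    h.oS h0 (Bp_w w)

/-- FULL local pieces at the vertices which cross an edge -/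
theorem Psv.full (h : S.Psv w O E) (h0 : h.EqS) {y n : V} (e : S.K.ar n y) {p u : S.X}
    (hp : p ∈ S.J y) (hn : p ∈ S.J n) (hu : S.D.G.Adj p u) (hu' : u ∈ S.J y) :
    Full (exR h.gd.conn h.nbm (fun _ : Unit => w) (one_pl w) (S.pQ S.FlW)) p e :=
  full_of_eqR h.gd.conn h.nbm (fun _ : Unit => w) (one_pl w) dupL_flW h.lR h.sH
    (fun y _ => h.lc y) h.oS h0 e hp hn hu hu'

/-- the pieces of a soft which crosses an edge: no cycles away from the poles, full local pieces -/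
theorem Psv.soft (h : S.Psv w O E) (h0 : h.EqS) {y n : V} (e : S.K.ar n y) {p u : S.X}
    (hp : p ∈ S.J y) (hu : S.D.G.Adj p u) (hu' : u ∈ S.J y) (hy : ∃ a, S.K.ar y a)
    [Fintype (S.NC (S.pQ S.FlW) e).fg.N] :
    ((S.NC (S.pQ S.FlW) e).dn (S.LPG.rQ (S.lp e) S.PLq)).fg.b1 = 0 ∧
    ∀ m (k : S.K.ar m y), S.K.IJ y n m → ∀ q, q ∈ S.J y → q ∈ S.J m →
      Full (exR h.gd.conn h.nbm (fun _ : Unit => w) (one_pl w) (S.pQ S.FlW)) q k :=
  soft_eqR h.gd.conn dupL_flW (exR_ex h.gd.conn h.nbm (fun _ : Unit => w) (one_pl w) h.lR)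
    (exR_em h.gd.conn h.nbm (fun _ : Unit => w) (one_pl w) h.lR) h.oS e (h.lc y) hp hu hu' hy
    (pexc_eqR h.gd.conn h.nbm (fun _ : Unit => w) (one_pl w) dupL_flW h.lR h.sH
      (fun y _ => h.lc y) h0 e)

/-- nothing is gained at any component -/
theorem Psv.comp_eq (h : S.Psv w O E) (h0 : h.EqS) {y n : V} (e : S.K.ar n y)
    [Fintype (S.NC (S.pQ S.FlW) e).fg.N] :
    (S.NC (S.pQ S.FlW) e).fg.exc (S.LPG.rs (S.lp e) S.PL) =
      (S.NC (S.pQ S.FlW) e).fg.aftE (S.LPG.rs (S.lp e) S.PL) (S.LPG.re (S.lp e)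
        (exR h.gd.conn h.nbm (fun _ : Unit => w) (one_pl w) (S.pQ S.FlW))) :=
  pexc_eqR h.gd.conn h.nbm (fun _ : Unit => w) (one_pl w) dupL_flW h.lR h.sH
    (fun y _ => h.lc y) h0 e

/-- sinks of type `D_inf` -/
theorem Psv.sinkD (h : S.Psv w O E) (h0 : h.EqS) {y n : V} (hy : ∀ a, ¬ S.K.ar y a)
    (e : S.K.ar n y) (hn : Hyp S.X (stabilizer H y)) (hJ : S.J y = mst S.D.G (stabilizer H y))
    (hD : DT (stabilizer H y)) :
    (S.NC (S.pQ S.FlW) e).fg.b1 = 0 ∧ ∀ m (k : S.K.ar m y) p, p ∈ S.J y → p ∈ S.J m →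
      Full (exR h.gd.conn h.nbm (fun _ : Unit => w) (one_pl w) (S.pQ S.FlW)) p k :=
  sinkD_eqR h.gd.conn h.nbm (fun _ : Unit => w) (one_pl w) dupL_flW h.lR h.sH
    (fun y _ => h.lc y) h0 hy e hn hJ hD

/-- sinks of type `ℤ` -/
theorem Psv.sinkZ (h : S.Psv w O E) (h0 : h.EqS) {y n : V} (hy : ∀ a, ¬ S.K.ar y a)
    (e : S.K.ar n y) (hn : Hyp S.X (stabilizer H y)) (hi : Infinite ↥(stabilizer H y))
    (hZ : Zt ↥(stabilizer H y)) :
    (S.NC (S.pQ S.FlW) e).fg.b1 = 1 ∧ ∀ m (k : S.K.ar m y),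
      exR h.gd.conn h.nbm (fun _ : Unit => w) (one_pl w) (S.pQ S.FlW) (oq H (S.lp k)) = 2 :=
  sinkZ_eqR h.gd.conn h.nbm (fun _ : Unit => w) (one_pl w) dupL_flW h.lR h.sH
    (fun y _ => h.lc y) h0 hy e hn hi hZ

/-- the lost nodes -/
theorem Psv.lI (h : S.Psv w O E) : S.LostI (fun _ : Unit => w) := by
  refine lostI_of_brJ fun y n e p hy hn hp => ?_
  exact h.lost_brJ h.bw2 e hy hn (fun g hg => hp (Bp_iff.2 ⟨g, hg⟩))

end SyQ

end Pool.Agent.DI
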