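import Pool.Agent.DI.SgEq0
import Pool.Agent.DI.ExcT

/-!
# DI/ExcN: the pole excess and parallel listed squares

`P` with a unique top place on every listed square, no field `one` (folded slice before thinning).
`oc_FZ'`: the strands of the squares: 2 for every listed square. `thin_wexc`: the pole excess by walks does
not change under thinning. `pexc_thin : K.pexc = P.thin.pexc + 2 * (# listed squares dropped)`.
`pexc_wexc`: if `P.thinP` is in the static class: `K.pexc = P.wexc + # special tops + 2 * # dropped squares`.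
`thin_exc_w : P.thinP.exc = P.wexc`; `exc_dup : P.exc = P.thinP.exc + 2 * # dropped squares`.
-/

namespace Pool.Agent.DI

open MulAction
open Pool.Agent.SAF (InC orbs FinOrb oc mk_eq_iff FinOrb_iff oc_mono oc_le_of_inj oc_le_of_rel
  oc_le_of_surj)

namespace P45

variable {H V : Type} [Group H] [MulAction H V] {K : GX H V} {P : P45 K}

/-- the number of the listed squares -/
noncomputable def nS (P : P45 K) : ℕ := Nat.card {i : K.I // P.sq i}

/-- the position of the directed edge of a flag -/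
def eK (_ : P45 K) (f : FL K) : ℕ := (f.1.1.2.1 + (if f.2 = true then 1 else 0)) % 4

theorem fl_same {i : K.I} {j j' : Fin (K.len i)} {h h' : H} {b : Bool} (e : j.1 = j'.1) :
    ∃ g : H, g • (show FL K from ((⟨i, j⟩, h), b)) = (show FL K from ((⟨i, j'⟩, h'), b)) := by
  refine ⟨h' * h⁻¹, Prod.ext ?_ rfl⟩
  show ((⟨i, j⟩, (h' * h⁻¹) * h) : K.LE) = (⟨i, j'⟩, h')
  rw [inv_mul_cancel_right]
  exact K.le_ext e

/-- THE EDGES OF THE LISTED SQUARES -/
theorem oc_RQ_eq : oc H P.RQ = 4 * P.nS := by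
  classical
  have hsep : ∀ f ∈ P.RQ, ∀ f' ∈ P.RQ, (f.1.1.1, P.eK f) = (f'.1.1.1, P.eK f') →
      ∃ g : H, g • f = f' := by
    rintro ⟨⟨⟨i, j⟩, h⟩, b⟩ hf ⟨⟨⟨i', j'⟩, h'⟩, b'⟩ hf' e
    obtain ⟨e1, e2⟩ := Prod.mk.inj e
    have e1 : i = i' := e1
    subst e1
    have h4 : K.len i = 4 := P.len4 hf.1
    have a1 := j.2
    have a2 := j'.2
    obtain ⟨k, c1, c2, c0, ck⟩ := P.c_qt (e := ((⟨i, j⟩, h) : K.LE)) hf.1
    obtain ⟨k', c1', c2', c0', ck'⟩ := P.c_qt (e := ((⟨i, j'⟩, h') : K.LE)) hf'.1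
    have ck : k.1 = (j.1 + 1) % 4 := ck
    have ck' : k'.1 = (j'.1 + 1) % 4 := ck'
    have e2 : (j.1 + (if b = true then 1 else 0)) % 4 = (j'.1 + (if b' = true then 1 else 0)) % 4 :=
      e2
    have ar1 := hf.2
    have ar2 := hf'.2
    have same : b = b' → j.1 = j'.1 := by
      rintro rfl
      cases b <;> simp at e2 <;> omega
    cases b <;> cases b'
    · exact fl_same (same rfl)
    · exfalso
      -- the same edge in both directions
      have b1 : K.ar (K.c1 ((⟨i, j⟩, h) : K.LE)) (K.c0 ((⟨i, j⟩, h) : K.LE)) := ar1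
      have b2 : K.ar (K.c1 ((⟨i, j'⟩, h') : K.LE)) (K.c2 ((⟨i, j'⟩, h') : K.LE)) := ar2
      rw [c1, c0] at b1
      rw [c1', c2'] at b2
      have e3 : (k' : Fin 4) = k + 3 := by
        apply Fin.ext
        show k'.1 = (k.1 + 3) % 4
        simp at e2
        omega
      have e4 : k' + 1 = k := by
        rw [e3]
        have : ∀ k : Fin 4, k + 3 + 1 = k := by decide
        exact this k
      rw [e4, e3] at b2
      exact GX.not_both' (ar_back b1) (ar_back b2)
    · exfalso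
      have b1 : K.ar (K.c1 ((⟨i, j⟩, h) : K.LE)) (K.c2 ((⟨i, j⟩, h) : K.LE)) := ar1
      have b2 : K.ar (K.c1 ((⟨i, j'⟩, h') : K.LE)) (K.c0 ((⟨i, j'⟩, h') : K.LE)) := ar2
      rw [c1, c2] at b1
      rw [c1', c0'] at b2
      have e3 : (k' : Fin 4) = k + 1 := by
        apply Fin.ext
        show k'.1 = (k.1 + 1) % 4
        simp at e2
        omega
      have e4 : k' + 3 = k := by
        rw [e3]
        have : ∀ k : Fin 4, k + 1 + 3 = k := by decide
        exact this k
      rw [e4, e3] at b2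
      exact GX.not_both' (ar_back b1) (ar_back b2)
    · exact fl_same (same rfl)
  rw [oc_ncard (G := H) P.RQ (fun f => (f.1.1.1, P.eK f)) (fun g y => rfl) hsep]
  have e : (fun f : FL K => (f.1.1.1, P.eK f)) '' P.RQ =
      {i | P.sq i} ×ˢ {n : ℕ | n < 4} := by
    ext ⟨i, n⟩
    constructor
    · rintro ⟨f, hf, e⟩
      obtain ⟨e1, e2⟩ := Prod.mk.inj e
      refine ⟨?_, ?_⟩
      · show P.sq i
        rw [← e1]
        exact hf.1
      · show n < 4
        rw [← e2]
        exact Nat.mod_lt _ (by norm_num)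
    · rintro ⟨hi, hn⟩
      have hi : P.sq i := hi
      have hn : n < 4 := hn
      have h4 := P.len4 hi
      let jt : Fin (K.len i) := ⟨(n + 3) % 4, by rw [h4]; exact Nat.mod_lt _ (by norm_num)⟩
      let jf : Fin (K.len i) := ⟨n, by rw [h4]; exact hn⟩
      -- the edge between the places `n` and `n + 1`
      obtain ⟨k, c1, c2, c0, ck⟩ := P.c_qt (e := ((⟨i, jt⟩, 1) : K.LE)) hi
      obtain ⟨k', c1', c2', c0', ck'⟩ := P.c_qt (e := ((⟨i, jf⟩, 1) : K.LE)) hi
      have e3 : k' = k + 1 := by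
        apply Fin.ext
        have a1 : k.1 = ((n + 3) % 4 + 1) % 4 := ck
        have a2 : k'.1 = (n + 1) % 4 := ck'
        show k'.1 = (k.1 + 1) % 4
        omega
      have e4 : k' + 3 = k := by
        rw [e3]
        have : ∀ k : Fin 4, k + 1 + 3 = k := by decide
        exact this k
      rcases K.E_smul 1 (P.E4 hi k) with h | h
      · refine ⟨((⟨i, jt⟩, 1), true), ⟨hi, ?_⟩, ?_⟩
        · show K.ar (K.c1 ((⟨i, jt⟩, 1) : K.LE)) (K.c2 ((⟨i, jt⟩, 1) : K.LE))
          rw [c1, c2]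
          exact h
        · refine Prod.ext rfl ?_
          show ((n + 3) % 4 + 1) % 4 = n
          omega
      · refine ⟨((⟨i, jf⟩, 1), false), ⟨hi, ?_⟩, ?_⟩
        · show K.ar (K.c1 ((⟨i, jf⟩, 1) : K.LE)) (K.c0 ((⟨i, jf⟩, 1) : K.LE))
          rw [c1', c0', e4, e3]
          exact h
        · refine Prod.ext rfl ?_
          show (n + 0) % 4 = n
          omega
  rw [e, Set.ncard_prod]
  have e5 : {n : ℕ | n < 4}.ncard = 4 := by
    have : {n : ℕ | n < 4} = ↑(Finset.range 4) := by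
      ext n
      simp
    rw [this, Set.ncard_coe_finset, Finset.card_range]
  rw [e5, mul_comm]
  rfl

/-- THE DIRECT CORNERS: two flags for every listed square -/
theorem oc_FY_eq (ht : ∀ i, P.sq i → ∃ j, P.tp i j)
    (hu : ∀ i, P.sq i → ∀ j j', P.tp i j → P.tp i j' → j = j') : oc H P.FY = 2 * P.nS := by
  have mem : ∀ {f : FL K}, f ∈ P.FY → f ∈ P.tfl (fy f) := by
    intro f hf
    obtain ⟨k1, k2, k3⟩ := FY_Top hf
    have h1 := hf.1.1
    obtain ⟨e, b⟩ := f
    cases b
    · exact ⟨h1, k2, k3, rfl⟩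
    · exact ⟨h1, k3, k2, rfl⟩
  rw [oc_ncard (G := H) P.FY (fun f => (f.1.1.1, f.2)) (fun g y => rfl) ?_]
  · have e : (fun f : FL K => (f.1.1.1, f.2)) '' P.FY = {i | P.sq i} ×ˢ (Set.univ : Set Bool) := by
      ext ⟨i, b⟩
      constructor
      · rintro ⟨f, hf, e⟩
        obtain ⟨e1, -⟩ := Prod.mk.inj e
        refine ⟨?_, trivial⟩
        show P.sq i
        rw [← e1]
        exact hf.1.1
      · rintro ⟨hi, -⟩
        have hi : P.sq i := hi
        obtain ⟨j, hj⟩ := ht i hi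
        obtain ⟨f, hf, e1, e2, -⟩ := P.tfl_ex (T := P.qt i j) (i := i)
          ⟨hi, j, hj, 1, one_smul _ _⟩ b
        refine ⟨f, ?_, Prod.ext e1 e2⟩
        obtain ⟨k1, k2, k3, -⟩ := hf
        obtain ⟨e, b'⟩ := f
        cases b'
        · exact ⟨⟨k1, k2⟩, GX.not_both' k3⟩
        · exact ⟨⟨k1, k3⟩, GX.not_both' k2⟩
    rw [e, Set.ncard_prod, Set.ncard_univ, Nat.card_eq_fintype_card, Fintype.card_bool, mul_comm]
    rfl
  · intro f hf f' hf' e
    obtain ⟨e1, e2⟩ := Prod.mk.inj (show (f.1.1.1, f.2) = (f'.1.1.1, f'.2) from e)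
    obtain ⟨k, hk, ek, -, -, -⟩ := tfl_place (mem hf)
    obtain ⟨k', hk', ek', -, -, -⟩ := tfl_place (mem hf')
    obtain ⟨⟨⟨i, j⟩, h⟩, b⟩ := f
    obtain ⟨⟨⟨i', j'⟩, h'⟩, b'⟩ := f'
    have e3 : i = i' := e1
    subst e3
    have e4 : b = b' := e2
    subst e4
    have e5 : k = k' := hu i hf.1.1 k k' hk hk'
    subst e5
    have h4 : K.len i = 4 := P.len4 hf.1.1
    have a1 := j.2
    have a2 := j'.2
    have e6 : j.1 = j'.1 := by
      have b1 : k.1 = (j.1 + 1) % 4 := ek
      have b2 : k.1 = (j'.1 + 1) % 4 := ek'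
      omega
    refine ⟨h' * h⁻¹, Prod.ext ?_ rfl⟩
    show ((⟨i, j⟩, (h' * h⁻¹) * h) : K.LE) = (⟨i, j'⟩, h')
    rw [inv_mul_cancel_right]
    exact K.le_ext e6

/-- THE STRANDS OF THE SQUARES: two for every listed square -/
theorem oc_FZ' (ht : ∀ i, P.sq i → ∃ j, P.tp i j)
    (hu : ∀ i, P.sq i → ∀ j j', P.tp i j → P.tp i j' → j = j') : oc H P.FZ = 2 * P.nS := by
  have h1 := oc_FZ_FY (P := P)
  have h2 := oc_FY_eq ht hu
  have h3 := oc_RQ_eq (P := P)
  omega

/-! ### thinning -/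

theorem thin_FS : oc H P.thinP.FS = oc H P.FS := by
  refine (oc_img (G := H) P.tF (fun g f => P.tF_smul g f) P.tF_injv ?_).symm
  ext f
  constructor
  · rintro ⟨g, hg, rfl⟩
    exact hg
  · rintro ⟨h1, h2⟩
    obtain ⟨g, rfl⟩ := P.tF_surj f (P.rp_not h1.1)
    exact ⟨g, ⟨h1, h2⟩, rfl⟩

/-- THE POLE EXCESS BY WALKS does not change -/
theorem thin_wexc : P.thinP.wexc = P.wexc := by
  unfold wexc
  rw [P.thin_ZP, thin_FS, P.thin_pols]

theorem thin_nS_le : P.thinP.nS ≤ P.nS := by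
  have := K.finI
  refine Nat.card_le_card_of_injective
    (fun i : {i : P.thin.I // P.thinP.sq i} => (⟨i.1.1, i.2⟩ : {i : K.I // P.sq i})) ?_
  intro i i' e
  exact Subtype.ext (Subtype.ext (congrArg (fun z => z.1) e))

theorem thin_strs2 (ht : ∀ i, P.sq i → ∃ j, P.tp i j)
    (hu : ∀ i, P.sq i → ∀ j j', P.tp i j → P.tp i j' → j = j') :
    oc H K.strs + 2 * P.thinP.nS = oc H P.thin.strs + 2 * P.nS := by
  have h1 := oc_strs (P := P)
  have h2 := oc_strs (P := P.thinP)
  have h3 := oc_FZ' ht hu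
  have h4 := oc_FZ' (P := P.thinP) (fun i hi => ht i.1 hi) (fun i hi => hu i.1 hi)
  have h5 := thin_FS (P := P)
  omega

/-- THE POLE EXCESS UNDER THINNING -/
theorem pexc_thin (ht : ∀ i, P.sq i → ∃ j, P.tp i j)
    (hu : ∀ i, P.sq i → ∀ j j', P.tp i j → P.tp i j' → j = j') :
    K.pexc + 2 * P.thinP.nS = P.thin.pexc + 2 * P.nS := by
  have h1 := thin_strs2 ht hu
  unfold GX.pexc
  rw [P.thin_pols]
  omega

/-- THE POLE EXCESS BY POSITIONS AND BY WALKS, with parallel listed squares -/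
theorem pexc_wexc (ht : ∀ i, P.sq i → ∃ j, P.tp i j)
    (hu : ∀ i, P.sq i → ∀ j j', P.tp i j → P.tp i j' → j = j') (hs : P.thinP.SqT) :
    K.pexc + 2 * P.thinP.nS = P.wexc + oc H P.spT + 2 * P.nS := by
  have h1 := pexc_thin ht hu
  have h2 := pexc_eq hs
  have e : P.thinP.spT = P.spT := by
    ext T
    exact exists_congr fun a => exists_congr fun b => exists_congr fun y =>
      and_congr P.thin_Top Iff.rfl
  rw [thin_wexc, e] at h2
  omega

/-- the number of the listed squares of the thinned complex -/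
theorem thin_nS (hs : P.thinP.SqT) : P.thinP.nS = oc H P.tops := by
  have h := card_sq hs
  have e : P.thinP.tops = P.tops := by
    ext T
    exact exists_congr fun a => exists_congr fun b => exists_congr fun y => P.thin_Top
  rw [e] at h
  exact h

/-! ### the pole excess without the special tops -/

/-- THE THINNED COMPLEX: `exc` = the pole excess by walks of the old complex -/
theorem thin_exc_w (hs : P.thinP.SqT) : P.thinP.exc = P.wexc := by
  rw [exc_eq hs, thin_wexc]

/-- `exc` before thinning: 2 for every dropped square -/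
theorem exc_dup (ht : ∀ i, P.sq i → ∃ j, P.tp i j)
    (hu : ∀ i, P.sq i → ∀ j j', P.tp i j → P.tp i j' → j = j') :
    P.exc + 2 * P.thinP.nS = P.thinP.exc + 2 * P.nS := by
  have h1 := pexc_thin ht hu
  unfold exc
  rw [P.thin_nSp]
  omega

end P45

end Pool.Agent.DI
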