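import Pool.Agent.DI.Beta

/-!
# Extension of homomorphisms to an abelian group

`exists_homA`: a group acts on a tree without inversions; an equivariant family of homomorphisms
`psi x : H_x → A` which agree on the stabilisers of the edges comes from a homomorphism `H → A`.
`exists_homA_one`: the family is given at one vertex and vanishes on the stabilisers of the edges there
(it is extended by zero on the other orbits). `exists_chi`: the homomorphism which counts the edges of one
orbit on the paths modulo two.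
-/

namespace Pool.Agent.DI

open MulAction

section tree

variable {X A : Type} [AddCommGroup A]

/-- potentials on trees -/
theorem tree_potA (G : SimpleGraph X) (hG : G.IsTree) (c : X → X → A)
    (hs : ∀ u v, G.Adj u v → c u v = - c v u) :
    ∃ p : X → A, ∀ u v, G.Adj u v → c u v = p v - p u := by
  classical
  obtain ⟨r⟩ := hG.connected.nonempty
  have hex : ∀ w, ∃ q : G.Walk r w, q.IsPath ∧ q.length = G.dist r w := fun w =>
    hG.connected.exists_path_of_dist r w
  choose P hP hPl using hex
  let σ : ∀ {a b : X}, G.Walk a b → A := fun q => (q.darts.map (fun d => c d.fst d.snd)).sum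
  have key : ∀ u v, G.Adj u v → G.dist r v = G.dist r u + 1 → σ (P v) = σ (P u) + c u v := by
    intro u v huv hd
    have hc : ((P u).concat huv).IsPath := by
      apply SimpleGraph.Walk.isPath_of_length_eq_dist
      rw [SimpleGraph.Walk.length_concat, hPl, hd]
    have e : (P u).concat huv = P v :=
      (hG.existsUnique_path r v).unique hc (hP v)
    rw [← e]
    change ((((P u).concat huv).darts.map (fun d => c d.fst d.snd)).sum) = _
    rw [SimpleGraph.Walk.darts_concat]
    simp [σ]
  refine ⟨fun w => σ (P w), fun u v huv => ?_⟩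
  dsimp only
  rcases hG.dist_eq_dist_add_one_of_adj r huv with e | e
  · rw [key v u huv.symm e, hs u v huv]
    abel
  · rw [key u v huv e]
    abel

variable {H : Type} [Group H] [MulAction H X]

/-- a homomorphism from its values -/
def mkHa (f : H → A) (hf : ∀ a b, f (a * b) = f a + f b) : Additive H →+ A where
  toFun a := f (Additive.toMul a)
  map_zero' := by
    have h := hf 1 1
    rw [mul_one] at h
    have h2 : f 1 + f 1 = f 1 + 0 := by rw [add_zero]; exact h.symm
    exact add_left_cancel h2
  map_add' a b := hf _ _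

@[simp] theorem mkHa_of (f : H → A) (hf : ∀ a b, f (a * b) = f a + f b) (a : H) :
    mkHa f hf (Additive.ofMul a) = f a := rfl

/-- homomorphisms from a cocycle and a function on the edges -/
theorem exists_homA_aux {G : SimpleGraph X} (hG : G.IsTree)
    (hsm : ∀ (h : H) (x y : X), G.Adj x y → G.Adj (h • x) (h • y)) (θ : X → H → A)
    (hθ : ∀ x a b, θ x (a * b) = θ (b • x) a + θ x b) (c : X → X → A)
    (hc : ∀ x y, G.Adj x y → c x y = - c y x)
    (h : ∀ x y, G.Adj x y → ∀ a : H, θ x a - θ y a = c (a • x) (a • y) - c x y) :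
    ∃ (φ : Additive H →+ A) (p : X → A), (∀ x y, G.Adj x y → c x y = p y - p x) ∧
      ∀ x a, φ (Additive.ofMul a) = θ x a + (p (a • x) - p x) := by
  obtain ⟨p, hp⟩ := tree_potA G hG c hc
  have key : ∀ (a : H) (x y : X), θ x a + (p (a • x) - p x) = θ y a + (p (a • y) - p y) := by
    intro a x y
    refine tree_const hG (f := fun x => θ x a + (p (a • x) - p x)) ?_ x y
    intro x y e
    have h1 := h x y e a
    rw [hp _ _ (hsm a _ _ e), hp _ _ e] at h1
    show θ x a + (p (a • x) - p x) = θ y a + (p (a • y) - p y)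
    have h2 : θ x a = θ y a + (p (a • y) - p (a • x) - (p y - p x)) := by
      rw [← h1]
      abel
    rw [h2]
    abel
  obtain ⟨r⟩ := hG.connected.nonempty
  refine ⟨mkHa (fun a => θ r a + (p (a • r) - p r)) ?_, p, hp, ?_⟩
  · intro a b
    have h1 := hθ r a b
    have h2 := key a r (b • r)
    rw [h1, mul_smul, h2]
    abel
  · intro x a
    rw [mkHa_of]
    exact key a r x

/-- The extension lemma: an equivariant family of homomorphisms of the stabilisers which agree on
the stabilisers of the edges comes from a homomorphism of the group. -/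
theorem exists_homA {G : SimpleGraph X} (hG : G.IsTree)
    (hsm : ∀ (h : H) (x y : X), G.Adj x y → G.Adj (h • x) (h • y))
    (hni : ∀ (h : H) (x y : X), G.Adj x y → ¬ (h • x = y ∧ h • y = x)) (ψ : X → H → A)
    (hψ : ∀ x a b, a • x = x → b • x = x → ψ x (a * b) = ψ x a + ψ x b)
    (heq : ∀ x (h a : H), a • x = x → ψ (h • x) (h * a * h⁻¹) = ψ x a)
    (hcp : ∀ x y, G.Adj x y → ∀ a : H, a • x = x → a • y = y → ψ x a = ψ y a) :
    ∃ φ : Additive H →+ A, ∀ x (a : H), a • x = x → φ (Additive.ofMul a) = ψ x a := by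
  classical
  -- representatives of the orbits of the vertices
  let r : X → X := fun x => Quotient.out (Quotient.mk'' x : orbitRel.Quotient H X)
  have hr : ∀ x, ∃ g : H, g • r x = x := by
    intro x
    have h1 : (Quotient.mk'' (r x) : orbitRel.Quotient H X) = Quotient.mk'' x :=
      Quotient.out_eq' (s₁ := orbitRel H X) _
    have h2 : (orbitRel H X).r x (r x) := Quotient.exact h1.symm
    exact h2
  have hrr : ∀ x (h : H), r (h • x) = r x := by
    intro x h
    have : (Quotient.mk'' (h • x) : orbitRel.Quotient H X) = Quotient.mk'' x :=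
      Quotient.sound (⟨h, rfl⟩ : (orbitRel H X).r (h • x) x)
    show Quotient.out _ = Quotient.out _
    rw [this]
  choose g hg using hr
  -- the cocycle
  let θ : X → H → A := fun x a => ψ (r x) ((g (a • x))⁻¹ * a * g x)
  have hst : ∀ x (a : H), ((g (a • x))⁻¹ * a * g x) • r x = r x := by
    intro x a
    rw [mul_smul, hg, mul_smul, inv_smul_eq_iff]
    have := hg (a • x)
    rw [hrr] at this
    exact this.symm
  have hθ : ∀ x a b, θ x (a * b) = θ (b • x) a + θ x b := by
    intro x a b
    have e1 : (g ((a * b) • x))⁻¹ * (a * b) * g x =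
        ((g (a • b • x))⁻¹ * a * g (b • x)) * ((g (b • x))⁻¹ * b * g x) := by
      rw [mul_smul]
      group
    show ψ (r x) ((g ((a * b) • x))⁻¹ * (a * b) * g x) =
      ψ (r (b • x)) ((g (a • b • x))⁻¹ * a * g (b • x)) + ψ (r x) ((g (b • x))⁻¹ * b * g x)
    rw [e1, hrr]
    apply hψ
    · have := hst (b • x) a
      rwa [hrr] at this
    · exact hst x b
  -- the restriction to the stabilisers
  have hθψ : ∀ x a, a • x = x → θ x a = ψ x a := by
    intro x a ha
    have h1 := heq (r x) (g x) ((g (a • x))⁻¹ * a * g x) (hst x a)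
    rw [hg] at h1
    show ψ (r x) ((g (a • x))⁻¹ * a * g x) = ψ x a
    rw [← h1, ha]
    congr 1
    group
  -- the function on the edges
  let rp : X × X → X × X := fun p => Quotient.out (Quotient.mk'' p : orbitRel.Quotient H (X × X))
  have hrp : ∀ p, ∃ k : H, k • rp p = p := by
    intro p
    have h1 : (Quotient.mk'' (rp p) : orbitRel.Quotient H (X × X)) = Quotient.mk'' p :=
      Quotient.out_eq' (s₁ := orbitRel H (X × X)) _
    have h2 : (orbitRel H (X × X)).r p (rp p) := Quotient.exact h1.symm
    exact h2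
  have hrrp : ∀ p (h : H), rp (h • p) = rp p := by
    intro p h
    have : (Quotient.mk'' (h • p) : orbitRel.Quotient H (X × X)) = Quotient.mk'' p :=
      Quotient.sound (⟨h, rfl⟩ : (orbitRel H (X × X)).r (h • p) p)
    show Quotient.out _ = Quotient.out _
    rw [this]
  choose k hk using hrp
  let c0 : X → X → A := fun x y => θ (rp (x, y)).1 (k (x, y)) - θ (rp (x, y)).2 (k (x, y))
  have hk1 : ∀ x y, k (x, y) • (rp (x, y)).1 = x := fun x y => congrArg Prod.fst (hk (x, y))
  have hk2 : ∀ x y, k (x, y) • (rp (x, y)).2 = y := fun x y => congrArg Prod.snd (hk (x, y))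
  have hadj : ∀ x y, G.Adj x y → G.Adj (rp (x, y)).1 (rp (x, y)).2 := by
    intro x y e
    have := hsm (k (x, y))⁻¹ _ _ e
    have e1 : (k (x, y))⁻¹ • x = (rp (x, y)).1 := by rw [inv_smul_eq_iff, hk1]
    have e2 : (k (x, y))⁻¹ • y = (rp (x, y)).2 := by rw [inv_smul_eq_iff, hk2]
    rwa [e1, e2] at this
  have hc0 : ∀ x y, G.Adj x y → ∀ a : H, θ x a - θ y a = c0 (a • x) (a • y) - c0 x y := by
    intro x y e a
    have er : rp (a • x, a • y) = rp (x, y) := hrrp (x, y) a
    let j : H := (a * k (x, y))⁻¹ * k (a • x, a • y)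
    have ej : k (a • x, a • y) = a * k (x, y) * j := by
      show _ = a * k (x, y) * ((a * k (x, y))⁻¹ * k (a • x, a • y))
      group
    have j1 : j • (rp (x, y)).1 = (rp (x, y)).1 := by
      show ((a * k (x, y))⁻¹ * k (a • x, a • y)) • (rp (x, y)).1 = _
      have h1 := hk1 (a • x) (a • y)
      rw [er] at h1
      rw [mul_smul, h1, inv_smul_eq_iff, mul_smul, hk1]
    have j2 : j • (rp (x, y)).2 = (rp (x, y)).2 := by
      show ((a * k (x, y))⁻¹ * k (a • x, a • y)) • (rp (x, y)).2 = _
      have h1 := hk2 (a • x) (a • y)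
      rw [er] at h1
      rw [mul_smul, h1, inv_smul_eq_iff, mul_smul, hk2]
    have d1 : θ (rp (x, y)).1 (k (a • x, a • y)) =
        θ x a + θ (rp (x, y)).1 (k (x, y)) + ψ (rp (x, y)).1 j := by
      rw [ej, hθ, j1, hθ, hk1, hθψ _ _ j1]
    have d2 : θ (rp (x, y)).2 (k (a • x, a • y)) =
        θ y a + θ (rp (x, y)).2 (k (x, y)) + ψ (rp (x, y)).2 j := by
      rw [ej, hθ, j2, hθ, hk2, hθψ _ _ j2]
    have d3 := hcp _ _ (hadj x y e) j j1 j2
    show θ x a - θ y a = (θ (rp (a • x, a • y)).1 (k (a • x, a • y)) -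
      θ (rp (a • x, a • y)).2 (k (a • x, a • y))) -
      (θ (rp (x, y)).1 (k (x, y)) - θ (rp (x, y)).2 (k (x, y)))
    rw [er, d1, d2, d3]
    abel
  -- an orientation
  let q : X → X → orbitRel.Quotient H (X × X) := fun x y => Quotient.mk'' (x, y)
  have hq : ∀ x y (a : H), q (a • x) (a • y) = q x y := by
    intro x y a
    exact Quotient.sound (⟨a, rfl⟩ : (orbitRel H (X × X)).r (a • (x, y)) (x, y))
  have hqne : ∀ x y, G.Adj x y → q x y ≠ q y x := by
    intro x y e h
    obtain ⟨a, ha⟩ := (Quotient.exact h : (orbitRel H (X × X)).r (x, y) (y, x))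
    have ha : a • (y, x) = (x, y) := ha
    exact hni a y x e.symm ⟨congrArg Prod.fst ha, congrArg Prod.snd ha⟩
  let _ : LinearOrder (orbitRel.Quotient H (X × X)) := linearOrderOfSTO WellOrderingRel
  let c : X → X → A := fun x y => if q x y < q y x then c0 x y else - c0 y x
  obtain ⟨φ, p, -, hφ⟩ := exists_homA_aux hG hsm θ hθ c
    (by
      intro x y e
      show (if q x y < q y x then c0 x y else - c0 y x) =
        - (if q y x < q x y then c0 y x else - c0 x y)
      rcases lt_or_gt_of_ne (hqne x y e) with h | h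
      · rw [if_pos h, if_neg (not_lt_of_gt h), neg_neg]
      · rw [if_neg (not_lt_of_gt h), if_pos h])
    (by
      intro x y e a
      show θ x a - θ y a = (if q (a • x) (a • y) < q (a • y) (a • x) then c0 (a • x) (a • y)
        else - c0 (a • y) (a • x)) - (if q x y < q y x then c0 x y else - c0 y x)
      rw [hq, hq]
      by_cases h : q x y < q y x
      · rw [if_pos h, if_pos h]
        exact hc0 x y e a
      · rw [if_neg h, if_neg h]
        have h2 := hc0 y x e.symm a
        rw [← neg_sub (θ y a) (θ x a), h2]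
        abel)
  refine ⟨φ, fun x a ha => ?_⟩
  rw [hφ x a, ha, hθψ x a ha]
  abel

/-- a family which is given at one vertex and vanishes on the stabilisers of the edges -/
theorem exists_homA_one {G : SimpleGraph X} (hG : G.IsTree)
    (hsm : ∀ (h : H) (x y : X), G.Adj x y → G.Adj (h • x) (h • y))
    (hni : ∀ (h : H) (x y : X), G.Adj x y → ¬ (h • x = y ∧ h • y = x)) (w : X)
    (f : Additive ↥(stabilizer H w) →+ A)
    (hf : ∀ (u : X), G.Adj w u → ∀ a : ↥(stabilizer H w), a.1 • u = u → f (Additive.ofMul a) = 0) :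
    ∃ φ : Additive H →+ A, (∀ a : ↥(stabilizer H w), φ (Additive.ofMul a.1) = f (Additive.ofMul a)) ∧
      ∀ x : X, (¬ ∃ h : H, h • w = x) → ∀ a : H, a • x = x → φ (Additive.ofMul a) = 0 := by
  classical
  let F : H → A := fun a => if h : a • w = w then f (Additive.ofMul ⟨a, h⟩) else 0
  have hF : ∀ (a : H) (h : a • w = w), F a = f (Additive.ofMul ⟨a, h⟩) := fun a h => dif_pos h
  have hFm : ∀ a b : H, a • w = w → b • w = w → F (a * b) = F a + F b := by
    intro a b ha hb
    have hab : (a * b) • w = w := by rw [mul_smul, hb, ha]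
    rw [hF _ hab, hF _ ha, hF _ hb, ← map_add]
    rfl
  have hF1 : F 1 = 0 := by
    have h := hFm 1 1 (one_smul _ _) (one_smul _ _)
    rw [mul_one] at h
    have h2 : F 1 + F 1 = F 1 + 0 := by rw [add_zero]; exact h.symm
    exact add_left_cancel h2
  have hFi : ∀ a : H, a • w = w → F a⁻¹ = - F a := by
    intro a ha
    have ha' : a⁻¹ • w = w := by rw [inv_smul_eq_iff, ha]
    have h := hFm a a⁻¹ ha ha'
    rw [mul_inv_cancel, hF1] at h
    exact (neg_eq_of_add_eq_zero_right h.symm).symm
  have hFc : ∀ a b : H, a • w = w → b • w = w → F (a * b * a⁻¹) = F b := by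
    intro a b ha hb
    have ha' : a⁻¹ • w = w := by rw [inv_smul_eq_iff, ha]
    have hab : (a * b) • w = w := by rw [mul_smul, hb, ha]
    rw [hFm _ _ hab ha', hFm _ _ ha hb, hFi a ha]
    abel
  let ψ : X → H → A := fun x a =>
    if hx : ∃ h : H, h • w = x then F (hx.choose⁻¹ * a * hx.choose) else 0
  have hw : ∀ (x : X) (k a : H), k • w = x → a • x = x → ψ x a = F (k⁻¹ * a * k) := by
    intro x k a hk ha
    have hx : ∃ h : H, h • w = x := ⟨k, hk⟩
    show (if hx : ∃ h : H, h • w = x then F (hx.choose⁻¹ * a * hx.choose) else _) = _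
    rw [dif_pos hx]
    have hk' := hx.choose_spec
    set k' := hx.choose
    have h1 : (k'⁻¹ * a * k') • w = w := by
      rw [mul_smul, mul_smul, hk', ha, inv_smul_eq_iff, hk']
    have h2 : (k⁻¹ * k') • w = w := by rw [mul_smul, hk', inv_smul_eq_iff, hk]
    rw [← hFc (k⁻¹ * k') _ h2 h1]
    congr 1
    group
  have hu : ∀ (x : X) (a : H), (¬ ∃ h : H, h • w = x) → ψ x a = 0 := fun x a hx => dif_neg hx
  have hmul : ∀ x a b, a • x = x → b • x = x → ψ x (a * b) = ψ x a + ψ x b := by
    intro x a b ha hb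
    have hab : (a * b) • x = x := by rw [mul_smul, hb, ha]
    by_cases hx : ∃ h : H, h • w = x
    · obtain ⟨k, hk⟩ := hx
      rw [hw x k _ hk hab, hw x k _ hk ha, hw x k _ hk hb]
      have h1 : (k⁻¹ * a * k) • w = w := by
        rw [mul_smul, mul_smul, hk, ha, inv_smul_eq_iff, hk]
      have h2 : (k⁻¹ * b * k) • w = w := by
        rw [mul_smul, mul_smul, hk, hb, inv_smul_eq_iff, hk]
      rw [← hFm _ _ h1 h2]
      congr 1
      group
    · rw [hu x _ hx, hu x _ hx, hu x _ hx, add_zero]
  -- the family vanishes on the stabilisers of the edges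
  have hz : ∀ x y, G.Adj x y → ∀ a : H, a • x = x → a • y = y → ψ x a = 0 := by
    intro x y e a ha hb
    by_cases hx : ∃ h : H, h • w = x
    · obtain ⟨k, hk⟩ := hx
      rw [hw x k _ hk ha]
      have h1 : (k⁻¹ * a * k) • w = w := by
        rw [mul_smul, mul_smul, hk, ha, inv_smul_eq_iff, hk]
      rw [hF _ h1]
      have e' : G.Adj w (k⁻¹ • y) := by
        have := hsm k⁻¹ _ _ e
        rwa [inv_smul_eq_iff.2 hk.symm] at this
      apply hf (k⁻¹ • y) e'
      show (k⁻¹ * a * k) • k⁻¹ • y = k⁻¹ • y
      rw [mul_smul, smul_inv_smul, mul_smul, hb]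
    · exact hu x _ hx
  obtain ⟨φ, hφ⟩ := exists_homA hG hsm hni ψ hmul (by
    intro x h a ha
    have ha' : (h * a * h⁻¹) • h • x = h • x := by
      rw [mul_smul, inv_smul_smul, mul_smul, ha]
    by_cases hx : ∃ h : H, h • w = x
    · obtain ⟨k, hk⟩ := hx
      have hk' : (h * k) • w = h • x := by rw [mul_smul, hk]
      rw [hw _ (h * k) _ hk' ha', hw x k a hk ha]
      congr 1
      group
    · have hx' : ¬ ∃ k : H, k • w = h • x := by
        rintro ⟨k, hk⟩
        exact hx ⟨h⁻¹ * k, by rw [mul_smul, hk, inv_smul_smul]⟩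
      rw [hu x _ hx, hu _ _ hx']) (by
    intro x y e a ha hb
    rw [hz x y e a ha hb, hz y x e.symm a hb ha])
  refine ⟨φ, ?_, ?_⟩
  · intro a
    rw [hφ w a.1 a.2, hw w 1 a.1 (one_smul _ _) a.2, inv_one, one_mul, mul_one, hF a.1 a.2]
  · intro x hx a ha
    rw [hφ x a ha, hu x a hx]

end tree

end Pool.Agent.DI
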