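import Mathlib

/-!
# The extremal lemma (note 2890, Section 10), abstract form

`Lv G N`: a graph on `N` with an action of `G`, a level in the integers for every vertex, the levels are
changed by isometries `k ↦ ε g * k + τ g`. `L.LP n m`: `n` and `m` are in the same local piece (connected
at one level). `L.Bal`: every local piece which is not reversed has crossing edges in both directions.
-/

namespace Pool.Agent.DI

open MulAction

/-- a graph with levels -/
structure Lv (G N : Type) [Group G] [MulAction G N] where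
  adj : N → N → Prop
  lev : N → ℤ
  ε : G → ℤ
  τ : G → ℤ
  symm : ∀ a b, adj a b → adj b a
  adj_smul : ∀ (g : G) (a b : N), adj a b → adj (g • a) (g • b)
  eps : ∀ g, ε g = 1 ∨ ε g = -1
  lev_smul : ∀ (g : G) (n : N), lev (g • n) = ε g * lev n + τ g

namespace Lv

variable {G N : Type} [Group G] [MulAction G N] (L : Lv G N)

/-- the same local piece -/
def LP (n m : N) : Prop := Relation.EqvGen (fun a b => L.adj a b ∧ L.lev a = L.lev b) n m

variable {L}

theorem LP.lev {n m : N} (h : L.LP n m) : L.lev n = L.lev m := by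
  induction h with
  | rel a b h => exact h.2
  | refl a => rfl
  | symm a b _ ih => exact ih.symm
  | trans a b c _ _ ih1 ih2 => exact ih1.trans ih2

theorem LP.smul (g : G) {n m : N} (h : L.LP n m) : L.LP (g • n) (g • m) := by
  induction h with
  | rel a b h =>
    exact Relation.EqvGen.rel _ _ ⟨L.adj_smul g _ _ h.1, by rw [L.lev_smul, L.lev_smul, h.2]⟩
  | refl a => exact Relation.EqvGen.refl _
  | symm a b _ ih => exact ih.symm
  | trans a b c _ _ ih1 ih2 => exact ih1.trans _ _ _ ih2

theorem LP.symm' {n m : N} (h : L.LP n m) : L.LP m n := Relation.EqvGen.symm _ _ h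

theorem LP.trans' {n m k : N} (h : L.LP n m) (h' : L.LP m k) : L.LP n k := h.trans _ _ _ h'

variable (L)

/-- the local piece of `n` is reversed -/
def Rev (n : N) : Prop := ∃ g : G, L.ε g = -1 ∧ L.LP n (g • n)

/-- every local piece which is not reversed has crossing edges in both directions -/
def Bal : Prop := ∀ n : N, ¬ L.Rev n → ∀ s : ℤ, (s = 1 ∨ s = -1) →
  ∃ m m', L.LP n m ∧ L.adj m m' ∧ 0 < s * (L.lev m' - L.lev n)

/-- `Y` is closed under adjacency outside `V0` -/
def Cl (Y V0 : Set N) : Prop := ∀ n ∈ Y, ∀ m, L.adj n m → m ∈ Y ∨ m ∈ V0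

variable {L}

/-- if no vertex of `V0` at the level of `n` is adjacent to `Y` then the local piece of `n ∈ Y` lies in
`Y` -/
theorem LP.in_of {Y V0 : Set N} (hY : L.Cl Y V0) {n m : N}
    (h : L.LP n m) (h0 : ∀ a ∈ Y, ∀ b ∈ V0, L.adj a b → L.lev a = L.lev b → L.lev a ≠ L.lev n) :
    n ∈ Y ↔ m ∈ Y := by
  have key : ∀ {n' m' : N}, L.LP n' m' → L.lev n' = L.lev n → (n' ∈ Y ↔ m' ∈ Y) := by
    intro n' m' h
    induction h with
    | rel a b h =>
      intro hl
      constructor
      · intro ha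
        rcases hY a ha b h.1 with hb | hb
        · exact hb
        · exact absurd hl (h0 a ha b hb h.1 h.2)
      · intro hb
        rcases hY b hb a (L.symm _ _ h.1) with ha | ha
        · exact ha
        · exact absurd (h.2.symm.trans hl) (h0 b hb a ha (L.symm _ _ h.1) h.2.symm)
    | refl a => intro _; exact Iff.rfl
    | symm a b h ih => intro hl; exact (ih ((LP.lev h).trans hl)).symm
    | trans a b c h1 h2 ih1 ih2 =>
      intro hl
      exact (ih1 hl).trans (ih2 ((LP.lev h1).symm.trans hl))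
  exact key h rfl

/-- ONE-SIDED EXTREMAL LEMMA. `Y` closed outside `V0`, bounded in the direction `s`: at an extreme level
there is an edge to `V0` (at this level or further out) or the local piece is reversed. -/
theorem ext_side (hb : L.Bal) {Y V0 : Set N} (hY : L.Cl Y V0) {s : ℤ} (hs : s = 1 ∨ s = -1)
    (hne : Y.Nonempty) {B : ℤ} (hB : ∀ n ∈ Y, s * L.lev n ≤ B) :
    ∃ n ∈ Y, (∀ m ∈ Y, s * L.lev m ≤ s * L.lev n) ∧
      ((∃ a ∈ Y, ∃ b ∈ V0, L.adj a b ∧ L.lev a = L.lev n ∧ s * L.lev n ≤ s * L.lev b) ∨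
        L.Rev n) := by
  -- a vertex of maximal level
  obtain ⟨n, hn, hmax⟩ : ∃ n ∈ Y, ∀ m ∈ Y, s * L.lev m ≤ s * L.lev n := by
    obtain ⟨n0, hn0⟩ := hne
    have key : ∀ (k : ℕ) (n : N), n ∈ Y → B - s * L.lev n ≤ k →
        ∃ n ∈ Y, ∀ m ∈ Y, s * L.lev m ≤ s * L.lev n := by
      intro k
      induction k with
      | zero =>
        intro n hn hk
        refine ⟨n, hn, fun m hm => ?_⟩
        have := hB m hm
        push_cast at hk
        linarith
      | succ k ih =>
        intro n hn hk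
        by_cases h : ∀ m ∈ Y, s * L.lev m ≤ s * L.lev n
        · exact ⟨n, hn, h⟩
        · push Not at h
          obtain ⟨m, hm, hlt⟩ := h
          apply ih m hm
          push_cast at hk
          linarith
    have h1 := hB n0 hn0
    exact key (B - s * L.lev n0).toNat n0 hn0 (by
      rw [Int.toNat_of_nonneg (by linarith)])
  refine ⟨n, hn, hmax, ?_⟩
  by_contra hcon
  push Not at hcon
  obtain ⟨hV, hR⟩ := hcon
  obtain ⟨m, m', h1, h2, h3⟩ := hb n hR s hs
  have hm : m ∈ Y := by
    refine (h1.in_of hY ?_).1 hn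
    intro a ha b hb' hab hl hln
    have := hV a ha b hb' hab hln
    rw [← hl, hln] at this
    exact lt_irrefl _ this
  rcases hY m hm m' h2 with hm' | hm'
  · have := hmax m' hm'
    rw [mul_sub] at h3
    linarith
  · have := hV m hm m' hm' h2 h1.lev.symm
    rw [mul_sub] at h3
    linarith

/-- EXTREMAL LEMMA (2890, 10). `Y` a component outside `V0`, the elements of `V0` adjacent to `Y` are at
the level `p0`, the elements of the stabiliser of `Y` which reverse the line fix `p0`, the levels of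
`Y` are bounded: then all levels of `Y` are `p0`. -/
theorem ext_lemma (hb : L.Bal) {Y V0 : Set N} (hY : L.Cl Y V0)
    (hblk : ∀ (g : G), ∀ n ∈ Y, g • n ∈ Y → ∀ m ∈ Y, g • m ∈ Y) {p0 : ℤ}
    {B : ℤ} (hB : ∀ n ∈ Y, |L.lev n| ≤ B)
    (h2 : ∀ a ∈ Y, ∀ b ∈ V0, L.adj a b → L.lev b = p0)
    (h3 : ∀ g : G, (∀ m ∈ Y, g • m ∈ Y) → L.ε g = -1 → L.ε g * p0 + L.τ g = p0) :
    ∀ n ∈ Y, L.lev n = p0 := by
  -- no level on the side `s`
  have main : ∀ s : ℤ, (s = 1 ∨ s = -1) → ∀ n ∈ Y, s * L.lev n ≤ s * p0 := by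
    intro s hs n0 hn0
    by_contra hcon
    push Not at hcon
    have hB' : ∀ n ∈ Y, s * L.lev n ≤ B := by
      intro n hn
      have h1 := abs_le.1 (hB n hn)
      rcases hs with rfl | rfl
      · linarith [h1.2]
      · linarith [h1.1]
    obtain ⟨n, hn, hmax, h⟩ := ext_side hb hY hs ⟨n0, hn0⟩ hB'
    have hgt : s * p0 < s * L.lev n := lt_of_lt_of_le hcon (hmax n0 hn0)
    rcases h with ⟨a, ha, b, hb', hab, hl, hle⟩ | ⟨g, hg, hgn⟩
    · rw [h2 a ha b hb' hab] at hle
      linarith
    · have hne : L.lev n ≠ p0 := by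
        intro e
        rw [e] at hgt
        exact lt_irrefl _ hgt
      have hgY : g • n ∈ Y := by
        refine (hgn.in_of hY ?_).1 hn
        intro a ha b hb' hab hl hln
        have := h2 a ha b hb' hab
        exact hne (hln.symm.trans (hl.trans this))
      have e1 := h3 g (fun m hm => hblk g n hn hgY m hm) hg
      have e2 := hgn.lev
      rw [L.lev_smul, hg] at e2
      rw [hg] at e1
      apply hne
      linarith
  intro n hn
  have h1 := main 1 (Or.inl rfl) n hn
  have h2' := main (-1) (Or.inr rfl) n hn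
  linarith

/-- (2890, 10.1). A component which is bounded in the direction `s`, is not reversed and whose
`V0`-neighbours are at `p0` lies on one side of `p0`; if no edge joins two vertices of level `p0` it
lies strictly on this side. -/
theorem ext_end (hb : L.Bal) {Y V0 : Set N} (hY : L.Cl Y V0)
    (hblk : ∀ (g : G), ∀ n ∈ Y, g • n ∈ Y → ∀ m ∈ Y, g • m ∈ Y) {p0 : ℤ} {s : ℤ}
    (hs : s = 1 ∨ s = -1) {B : ℤ} (hB : ∀ n ∈ Y, s * L.lev n ≤ B)
    (h2 : ∀ a ∈ Y, ∀ b ∈ V0, L.adj a b → L.lev b = p0)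
    (h3 : ∀ g : G, (∀ m ∈ Y, g • m ∈ Y) → L.ε g ≠ -1)
    (h4 : ∀ a ∈ Y, ∀ b ∈ V0, L.adj a b → L.lev a ≠ p0) :
    ∀ n ∈ Y, s * L.lev n < s * p0 := by
  intro n0 hn0
  obtain ⟨n, hn, hmax, h⟩ := ext_side hb hY hs ⟨n0, hn0⟩ hB
  refine lt_of_le_of_lt (hmax n0 hn0) ?_
  rcases h with ⟨a, ha, b, hb', hab, hl, hle⟩ | ⟨g, hg, hgn⟩
  · have e1 := h2 a ha b hb' hab
    have e2 := h4 a ha b hb' hab
    rw [e1] at hle
    rw [hl] at e2
    rcases lt_or_eq_of_le hle with h | h
    · exact h
    · exfalso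
      apply e2
      rcases hs with rfl | rfl
      · linarith
      · linarith
  · exfalso
    by_cases hV : ∃ a ∈ Y, ∃ b ∈ V0, L.adj a b ∧ L.lev a = L.lev b ∧ L.lev a = L.lev n
    · obtain ⟨a, ha, b, hb', hab, hl, -⟩ := hV
      exact h4 a ha b hb' hab (hl.trans (h2 a ha b hb' hab))
    · push Not at hV
      have hgY : g • n ∈ Y := (hgn.in_of hY fun a ha b hb' hab hl => hV a ha b hb' hab hl).1 hn
      exact h3 g (fun m hm => hblk g n hn hgY m hm) hg

/-- a component with finite stabiliser is finite -/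
theorem finite_of_stab {Y : Set N} (hblk : ∀ (g : G), ∀ n ∈ Y, g • n ∈ Y → ∀ m ∈ Y, g • m ∈ Y)
    (hS : {g : G | ∀ m ∈ Y, g • m ∈ Y}.Finite) {F : Set N} (hF : F.Finite)
    (hc : ∀ n : N, ∃ f ∈ F, ∃ g : G, g • f = n) : Y.Finite := by
  classical
  -- for every orbit representative choose a point of `Y`
  let r : N → Option N := fun f => if h : ∃ g : G, g • f ∈ Y then some (h.choose • f) else none
  have hsub : Y ⊆ ⋃ f ∈ F, ⋃ g ∈ {g : G | ∀ m ∈ Y, g • m ∈ Y},
      {n | ∃ y, r f = some y ∧ n = g • y} := by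
    intro n hn
    obtain ⟨f, hf, g, rfl⟩ := hc n
    have h : ∃ g : G, g • f ∈ Y := ⟨g, hn⟩
    simp only [Set.mem_iUnion]
    refine ⟨f, hf, g * h.choose⁻¹, ?_, h.choose • f, ?_, ?_⟩
    · intro m hm
      apply hblk (g * h.choose⁻¹) (h.choose • f) h.choose_spec ?_ m hm
      rwa [mul_smul, inv_smul_smul]
    · simp only [r]
      rw [dif_pos h]
    · rw [mul_smul, inv_smul_smul]
  refine Set.Finite.subset ?_ hsub
  refine hF.biUnion fun f _ => hS.biUnion fun g _ => ?_
  cases hr : r f with
  | none =>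
    have : {n : N | ∃ y, (none : Option N) = some y ∧ n = g • y} = ∅ := by
      apply Set.eq_empty_of_forall_notMem
      rintro n ⟨y, hy, -⟩
      exact absurd hy (by simp)
    rw [this]
    exact Set.finite_empty
  | some y =>
    have : {n : N | ∃ z, (some y : Option N) = some z ∧ n = g • z} = {g • y} := by
      ext n
      constructor
      · rintro ⟨z, hz, rfl⟩
        rw [Option.some.inj hz]
        rfl
      · rintro rfl
        exact ⟨y, rfl, rfl⟩
    rw [this]
    exact Set.finite_singleton _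

end Lv

end Pool.Agent.DI
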