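import Pool.Agent.DI.LkE

/-!
# Flags of the cells

`FC K F`: `F` is the `H`-set of the flags of all cells (pentagons, squares); `y f` the vertex of the flag,
`r` the rotation, `v` the reflection. A square may be saturated: its flags may have stabilisers. `C.z f`,
`C.x f`: the next and the last vertex. `C.ps : JM`: the pieces with private poles; lines: the flags `f` with
`x f → y f`, from the in-node `inn (y f) (x f)` to the midpoint `{f, v f}` if `z f → y f`, to the private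
pole if `y f → z f`. `C.exc` = # strands - # private poles, `C.ps_b1 : b1 = cyc + exc`.
-/

namespace Pool.Agent.DI

open MulAction
open Pool.Agent.SAF (InC orbs FinOrb oc mk_eq_iff FinOrb_iff)

/-- the flags of the cells -/
structure FC {H V : Type} [Group H] [MulAction H V] (K : GX H V) (F : Type) [MulAction H F] where
  y : F → V
  r : F → F
  v : F → F
  sq : F → Prop
  y_smul : ∀ (h : H) (f : F), y (h • f) = h • y f
  r_smul : ∀ (h : H) (f : F), r (h • f) = h • r f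
  v_smul : ∀ (h : H) (f : F), v (h • f) = h • v f
  sq_smul : ∀ (h : H) (f : F), sq (h • f) ↔ sq f
  vv : ∀ f, v (v f) = f
  rv : ∀ f, r (v (r f)) = v f
  yv : ∀ f, y (v f) = y f
  E : ∀ f, K.E (y f) (y (r f))
  sq_r : ∀ f, sq (r f) ↔ sq f
  sq_v : ∀ f, sq (v f) ↔ sq f
  r4 : ∀ f, sq f → r (r (r (r f))) = f
  r5 : ∀ f, ¬ sq f → r (r (r (r (r f)))) = f
  ne : ∀ f, sq f → y f ≠ y (r (r f))
  fin : FinOrb H (Set.univ : Set F)

/-- nodes: in-arrows, midpoints of corners, private poles -/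
inductive NF (V F : Type) : Type
  | inn : V → V → NF V F
  | mid : Set F → NF V F
  | pol : V → V → Set V → NF V F

section

variable {H V F : Type} [Group H] [MulAction H V] [MulAction H F]

theorem im_one (C : Set F) : (fun x => (1 : H) • x) '' C = C := by simp

theorem im_mul (a b : H) (C : Set F) :
    (fun x => (a * b) • x) '' C = (fun x => a • x) '' ((fun x => b • x) '' C) := by
  rw [Set.image_image]
  simp only [mul_smul]

instance : MulAction H (NF V F) where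
  smul h t := match t with
    | NF.inn y n => NF.inn (h • y) (h • n)
    | NF.mid X => NF.mid ((fun x => h • x) '' X)
    | NF.pol y a C => NF.pol (h • y) (h • a) ((fun x => h • x) '' C)
  one_smul t := by
    cases t with
    | inn y n =>
      show NF.inn ((1 : H) • y) ((1 : H) • n) = _
      rw [one_smul, one_smul]
    | mid X =>
      show NF.mid ((fun x => (1 : H) • x) '' X) = _
      rw [im_one]
    | pol y a C =>
      show NF.pol ((1 : H) • y) ((1 : H) • a) ((fun x => (1 : H) • x) '' C) = _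
      rw [one_smul, one_smul, im_one]
  mul_smul a b t := by
    cases t with
    | inn y n =>
      show NF.inn ((a * b) • y) ((a * b) • n) = NF.inn (a • b • y) (a • b • n)
      rw [mul_smul, mul_smul]
    | mid X =>
      show NF.mid ((fun x => (a * b) • x) '' X) =
        NF.mid ((fun x => a • x) '' ((fun x => b • x) '' X))
      rw [im_mul]
    | pol y p C =>
      show NF.pol ((a * b) • y) ((a * b) • p) ((fun x => (a * b) • x) '' C) =
        NF.pol (a • b • y) (a • b • p) ((fun x => a • x) '' ((fun x => b • x) '' C))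
      rw [im_mul, mul_smul, mul_smul]

theorem NF.smul_inn (h : H) (y n : V) :
    h • (NF.inn y n : NF V F) = NF.inn (h • y) (h • n) := rfl

theorem NF.smul_mid (h : H) (X : Set F) :
    h • (NF.mid X : NF V F) = NF.mid ((fun x => h • x) '' X) := rfl

theorem NF.smul_pol (h : H) (y a : V) (C : Set V) :
    h • (NF.pol y a C : NF V F) = NF.pol (h • y) (h • a) ((fun x => h • x) '' C) := rfl

end

namespace FC

variable {H V F : Type} [Group H] [MulAction H V] [MulAction H F] {K : GX H V} (C : FC K F)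

/-- the next vertex -/
def z (f : F) : V := C.y (C.r f)

/-- the last vertex -/
def x (f : F) : V := C.y (C.r (C.v f))

theorem z_smul (h : H) (f : F) : C.z (h • f) = h • C.z f := by
  unfold z
  rw [C.r_smul, C.y_smul]

theorem x_smul (h : H) (f : F) : C.x (h • f) = h • C.x f := by
  unfold x
  rw [C.v_smul, C.r_smul, C.y_smul]

theorem xv (f : F) : C.x (C.v f) = C.z f := by
  unfold x z
  rw [C.vv]

theorem zv (f : F) : C.z (C.v f) = C.x f := rfl

theorem xr (f : F) : C.x (C.r f) = C.y f := by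
  unfold x
  rw [C.rv, C.yv]

theorem Ez (f : F) : K.E (C.y f) (C.z f) := C.E f

theorem Ex (f : F) : K.E (C.y f) (C.x f) := by
  have := C.E (C.v f)
  rwa [C.yv] at this

theorem v_inj {f g : F} (h : C.v f = C.v g) : f = g := by
  rw [← C.vv f, h, C.vv]

theorem r_inj {f g : F} (h : C.r f = C.r g) : f = g := by
  apply C.v_inj
  rw [← C.rv f, ← C.rv g, h]

/-- the inverse rotation -/
theorem r_inv (f : F) : C.r (C.v (C.r (C.v f))) = f := by
  rw [C.rv, C.vv]

theorem r_inv' (f : F) : C.v (C.r (C.v (C.r f))) = f := by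
  rw [C.rv, C.vv]

theorem ne_x (f : F) (h : C.sq f) : C.x f ≠ C.z f := by
  have h1 : C.sq (C.r (C.v f)) := (C.sq_r _).2 ((C.sq_v f).2 h)
  have h2 := C.ne (C.v (C.r (C.v f))) ((C.sq_v _).2 h1)
  rw [C.yv, C.r_inv] at h2
  exact h2

/-! ### corners and pieces -/

/-- a corner -/
def Co (a y b : V) : Prop := ∃ f, C.x f = a ∧ C.y f = y ∧ C.z f = b

/-- a corner between two in-arrows -/
def IC (y a b : V) : Prop := C.Co a y b ∧ K.ar a y ∧ K.ar b y

/-- same piece -/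
def IJ (y a b : V) : Prop := Relation.EqvGen (C.IC y) a b

/-- the piece of `n` -/
def Pc (y n : V) : Set V := {m | C.IJ y n m}

variable {C}

theorem Co.symm {a y b : V} (h : C.Co a y b) : C.Co b y a := by
  obtain ⟨f, h1, h2, h3⟩ := h
  exact ⟨C.v f, by rw [C.xv, h3], by rw [C.yv, h2], by rw [C.zv, h1]⟩

theorem Co.smul (g : H) {a y b : V} (h : C.Co a y b) : C.Co (g • a) (g • y) (g • b) := by
  obtain ⟨f, rfl, rfl, rfl⟩ := h
  exact ⟨g • f, C.x_smul g f, C.y_smul g f, C.z_smul g f⟩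

theorem Co.E1 {a y b : V} (h : C.Co a y b) : K.E y a := by
  obtain ⟨f, rfl, rfl, rfl⟩ := h
  exact C.Ex f

theorem Co.E2 {a y b : V} (h : C.Co a y b) : K.E y b := h.symm.E1

theorem co (f : F) : C.Co (C.x f) (C.y f) (C.z f) := ⟨f, rfl, rfl, rfl⟩

theorem IC.symm' {y a b : V} (h : C.IC y a b) : C.IC y b a := ⟨h.1.symm, h.2.2, h.2.1⟩

theorem IC.smul (g : H) {y a b : V} (h : C.IC y a b) : C.IC (g • y) (g • a) (g • b) :=
  ⟨h.1.smul g, K.ar_smul g _ _ h.2.1, K.ar_smul g _ _ h.2.2⟩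

theorem IJ.smul (g : H) {y a b : V} (h : C.IJ y a b) : C.IJ (g • y) (g • a) (g • b) := by
  induction h with
  | rel a b h => exact Relation.EqvGen.rel _ _ (h.smul g)
  | refl a => exact Relation.EqvGen.refl _
  | symm a b _ ih => exact ih.symm
  | trans a b c _ _ ih1 ih2 => exact ih1.trans _ _ _ ih2

theorem IJ.symm' {y a b : V} (h : C.IJ y a b) : C.IJ y b a := Relation.EqvGen.symm _ _ h

theorem IJ.trans' {y a b c : V} (h : C.IJ y a b) (h' : C.IJ y b c) : C.IJ y a c :=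
  Relation.EqvGen.trans _ _ _ h h'

theorem IJ.ar {y a b : V} (h : C.IJ y a b) : K.ar a y ↔ K.ar b y := by
  induction h with
  | rel a b h => exact ⟨fun _ => h.2.2, fun _ => h.2.1⟩
  | refl a => exact Iff.rfl
  | symm a b _ ih => exact ih.symm
  | trans a b c _ _ ih1 ih2 => exact ih1.trans ih2

theorem mem_Pc {y n m : V} : m ∈ C.Pc y n ↔ C.IJ y n m := Iff.rfl

theorem self_Pc (y n : V) : n ∈ C.Pc y n := Relation.EqvGen.refl n

theorem Pc_eq {y n m : V} : C.Pc y n = C.Pc y m ↔ C.IJ y n m := by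
  constructor
  · intro h
    have := self_Pc (C := C) y m
    rw [← h] at this
    exact this
  · intro h
    ext z
    exact ⟨fun k => h.symm'.trans' k, fun k => h.trans' k⟩

theorem Pc_smul (g : H) (y n : V) : (fun x => g • x) '' C.Pc y n = C.Pc (g • y) (g • n) := by
  ext z
  constructor
  · rintro ⟨m, hm, rfl⟩
    exact IJ.smul g hm
  · intro hz
    refine ⟨g⁻¹ • z, ?_, smul_inv_smul g z⟩
    have := IJ.smul g⁻¹ hz
    rw [inv_smul_smul, inv_smul_smul] at this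
    exact this

variable (C)

theorem not_both {a b : V} (h : K.ar a b) : ¬ K.ar b a := fun k =>
  absurd (K.ar_rk _ _ h) (not_lt.2 (K.ar_rk _ _ k).le)

/-! ### the parts -/

/-- corners between in-arrows -/
def fin2 : Set F := {f | K.ar (C.x f) (C.y f) ∧ K.ar (C.z f) (C.y f)}

/-- THE POLE STRANDS -/
def strs : Set F := {f | K.ar (C.x f) (C.y f) ∧ K.ar (C.y f) (C.z f)}

/-- the in-nodes -/
def inns : Set (NF V F) := {t | ∃ y n, t = NF.inn y n ∧ K.ar n y}

/-- the midpoints -/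
def mids : Set (NF V F) := {t | ∃ f ∈ C.fin2, t = NF.mid {f, C.v f}}

/-- the private poles -/
def pols : Set (NF V F) := {t | ∃ y a n, t = NF.pol y a (C.Pc y n) ∧ K.ar y a ∧ K.ar n y ∧
  C.Co n y a}

/-- the codes of the pieces -/
def pcs : Set (NF V F) := {t | ∃ y n, t = NF.pol y y (C.Pc y n) ∧ K.ar n y}

theorem fin2_inv (h : H) : ∀ f ∈ C.fin2, h • f ∈ C.fin2 := by
  rintro f ⟨h1, h2⟩
  refine ⟨?_, ?_⟩
  · rw [C.x_smul, C.y_smul]
    exact K.ar_smul h _ _ h1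
  · rw [C.z_smul, C.y_smul]
    exact K.ar_smul h _ _ h2

theorem strs_inv (h : H) : ∀ f ∈ C.strs, h • f ∈ C.strs := by
  rintro f ⟨h1, h2⟩
  refine ⟨?_, ?_⟩
  · rw [C.x_smul, C.y_smul]
    exact K.ar_smul h _ _ h1
  · rw [C.z_smul, C.y_smul]
    exact K.ar_smul h _ _ h2

theorem fin2_v {f : F} (h : f ∈ C.fin2) : C.v f ∈ C.fin2 := by
  refine ⟨?_, ?_⟩
  · rw [C.xv, C.yv]
    exact h.2
  · rw [C.zv, C.yv]
    exact h.1

theorem inns_inv (K : GX H V) (h : H) : ∀ t ∈ inns (K := K) (F := F), h • t ∈ inns (K := K) := by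
  rintro _ ⟨y, n, rfl, h1⟩
  exact ⟨h • y, h • n, rfl, K.ar_smul h _ _ h1⟩

theorem smul_pair (h : H) (f : F) : (fun x => h • x) '' {f, C.v f} = {h • f, C.v (h • f)} := by
  rw [Set.image_pair, C.v_smul]

theorem mids_inv (h : H) : ∀ t ∈ C.mids, h • t ∈ C.mids := by
  rintro _ ⟨f, hf, rfl⟩
  refine ⟨h • f, C.fin2_inv h f hf, ?_⟩
  rw [NF.smul_mid, C.smul_pair]

theorem pols_inv (h : H) : ∀ t ∈ C.pols, h • t ∈ C.pols := by
  rintro _ ⟨y, a, n, rfl, h1, h2, h3⟩
  refine ⟨h • y, h • a, h • n, ?_, K.ar_smul h _ _ h1, K.ar_smul h _ _ h2, h3.smul h⟩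
  rw [NF.smul_pol, Pc_smul]

theorem pcs_inv (h : H) : ∀ t ∈ C.pcs, h • t ∈ C.pcs := by
  rintro _ ⟨y, n, rfl, h1⟩
  refine ⟨h • y, h • n, ?_, K.ar_smul h _ _ h1⟩
  rw [NF.smul_pol, Pc_smul]

theorem fin_sub (C : FC K F) (A : Set F) : FinOrb H A := SAF.FinOrb.mono (Set.subset_univ A) C.fin

theorem fin_inns : FinOrb H (inns (K := K) (F := F)) := by
  refine SAF.FinOrb.image K.fin_IN (fun p => NF.inn p.1 p.2) ?_ ?_
  · rintro _ ⟨y, n, rfl, h⟩
    exact ⟨(y, n), h, 1, one_smul _ _⟩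
  · rintro a - _ - ⟨h, rfl⟩
    exact ⟨h, rfl⟩

theorem fin_mids : FinOrb H C.mids := by
  refine SAF.FinOrb.image (C.fin_sub C.fin2) (fun f => NF.mid {f, C.v f}) ?_ ?_
  · rintro _ ⟨f, hf, rfl⟩
    exact ⟨f, hf, 1, one_smul _ _⟩
  · rintro a - _ - ⟨h, rfl⟩
    refine ⟨h, ?_⟩
    show h • NF.mid {a, C.v a} = NF.mid {h • a, C.v (h • a)}
    rw [NF.smul_mid, C.smul_pair]

theorem fin_pols : FinOrb H C.pols := by
  refine SAF.FinOrb.image (C.fin_sub C.strs)
    (fun f => NF.pol (C.y f) (C.z f) (C.Pc (C.y f) (C.x f))) ?_ ?_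
  · rintro _ ⟨y, a, n, rfl, h1, h2, ⟨f, rfl, rfl, rfl⟩⟩
    exact ⟨f, ⟨h2, h1⟩, 1, one_smul _ _⟩
  · rintro a - _ - ⟨h, rfl⟩
    refine ⟨h, ?_⟩
    show h • NF.pol (C.y a) (C.z a) (C.Pc (C.y a) (C.x a)) =
      NF.pol (C.y (h • a)) (C.z (h • a)) (C.Pc (C.y (h • a)) (C.x (h • a)))
    rw [NF.smul_pol, Pc_smul, C.y_smul, C.z_smul, C.x_smul]

theorem fin_pcs : FinOrb H C.pcs := by
  refine SAF.FinOrb.image K.fin_IN (fun p => NF.pol p.1 p.1 (C.Pc p.1 p.2)) ?_ ?_
  · rintro _ ⟨y, n, rfl, h⟩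
    exact ⟨(y, n), h, 1, one_smul _ _⟩
  · rintro a - _ - ⟨h, rfl⟩
    refine ⟨h, ?_⟩
    show h • NF.pol a.1 a.1 (C.Pc a.1 a.2) = NF.pol (h • a.1) (h • a.1) (C.Pc (h • a.1) (h • a.2))
    rw [NF.smul_pol, Pc_smul]

/-- THE POLE EXCESS -/
noncomputable def exc : ℤ := (oc H C.strs : ℤ) - oc H C.pols

/-- THE CYCLES WITHOUT POLES -/
noncomputable def cyc : ℤ := (oc H C.fin2 : ℤ) - oc H (inns (K := K) (F := F)) - oc H C.mids +
  oc H C.pcs

/-! ### the pieces with private poles -/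

/-- the nodes -/
def PT : SubMulAction H (NF V F) where
  carrier := (inns (K := K) (F := F) ∪ C.mids) ∪ C.pols
  smul_mem' h t ht := by
    rcases ht with (ht | ht) | ht
    · exact Or.inl (Or.inl (inns_inv K h t ht))
    · exact Or.inl (Or.inr (C.mids_inv h t ht))
    · exact Or.inr (C.pols_inv h t ht)

/-- the lines -/
def PE : SubMulAction H F where
  carrier := {f | K.ar (C.x f) (C.y f)}
  smul_mem' h f hf := by
    show K.ar (C.x (h • f)) (C.y (h • f))
    rw [C.x_smul, C.y_smul]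
    exact K.ar_smul h _ _ hf

theorem PE_eq : (C.PE : Set F) = C.fin2 ∪ C.strs := by
  ext f
  constructor
  · intro hf
    rcases C.Ez f with h | h
    · exact Or.inr ⟨hf, h⟩
    · exact Or.inl ⟨hf, h⟩
  · rintro (h | h)
    · exact h.1
    · exact h.1

/-- the source -/
def ls (f : F) : NF V F := NF.inn (C.y f) (C.x f)

open Classical in
/-- the target -/
noncomputable def lt (f : F) : NF V F :=
  if K.ar (C.z f) (C.y f) then NF.mid {f, C.v f} else NF.pol (C.y f) (C.z f) (C.Pc (C.y f) (C.x f))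

theorem lt_in {f : F} (h : K.ar (C.z f) (C.y f)) : C.lt f = NF.mid {f, C.v f} := if_pos h

theorem lt_out {f : F} (h : K.ar (C.y f) (C.z f)) :
    C.lt f = NF.pol (C.y f) (C.z f) (C.Pc (C.y f) (C.x f)) := if_neg (not_both h)

theorem ls_smul (h : H) (f : F) : C.ls (h • f) = h • C.ls f := by
  show NF.inn (C.y (h • f)) (C.x (h • f)) = _
  rw [C.y_smul, C.x_smul]
  rfl

theorem lt_smul (h : H) (f : F) : C.lt (h • f) = h • C.lt f := by
  rcases C.Ez f with k | k
  · rw [C.lt_out k, C.lt_out (by rw [C.y_smul, C.z_smul]; exact K.ar_smul h _ _ k), NF.smul_pol,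
      Pc_smul, C.y_smul, C.z_smul, C.x_smul]
  · rw [C.lt_in k, C.lt_in (by rw [C.y_smul, C.z_smul]; exact K.ar_smul h _ _ k), NF.smul_mid,
      C.smul_pair]

theorem ls_mem (f : ↥C.PE) : C.ls f.1 ∈ C.PT := Or.inl (Or.inl ⟨_, _, rfl, f.2⟩)

theorem lt_mem (f : ↥C.PE) : C.lt f.1 ∈ C.PT := by
  rcases C.Ez f.1 with k | k
  · rw [C.lt_out k]
    exact Or.inr ⟨_, _, _, rfl, k, f.2, co f.1⟩
  · rw [C.lt_in k]
    exact Or.inl (Or.inr ⟨f.1, ⟨f.2, k⟩, rfl⟩)

theorem fin_PT : FinOrb H (C.PT : Set (NF V F)) :=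
  finOrb_union (finOrb_union fin_inns C.fin_mids) C.fin_pols

/-- THE PIECES WITH PRIVATE POLES -/
noncomputable def ps : JM H ↥C.PT ↥C.PE where
  s e := ⟨C.ls e.1, C.ls_mem e⟩
  t e := ⟨C.lt e.1, C.lt_mem e⟩
  hs j e := Subtype.ext (C.ls_smul j e.1)
  ht j e := Subtype.ext (C.lt_smul j e.1)
  fT := finite_orb_sub C.PT C.fin_PT
  fE := finite_orb_sub C.PE (C.fin_sub _)

theorem ps_s (e : ↥C.PE) : (C.ps.s e).1 = C.ls e.1 := rfl

theorem ps_t (e : ↥C.PE) : (C.ps.t e).1 = C.lt e.1 := rfl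

open Classical in
/-- the vertex and the piece of a node -/
noncomputable def pk : NF V F → V × Set V
  | NF.inn y n => (y, C.Pc y n)
  | NF.mid X => if h : ∃ f, f ∈ C.fin2 ∧ X = {f, C.v f} then
      (C.y (Classical.choose h), C.Pc (C.y (Classical.choose h)) (C.x (Classical.choose h)))
      else (K.ne.some, ∅)
  | NF.pol y _ P => (y, P)

/-- the piece of a midpoint -/
theorem pk_mid {f : F} (h : f ∈ C.fin2) :
    C.pk (NF.mid {f, C.v f}) = (C.y f, C.Pc (C.y f) (C.x f)) := by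
  have hex : ∃ g, g ∈ C.fin2 ∧ ({f, C.v f} : Set F) = {g, C.v g} := ⟨f, h, rfl⟩
  unfold pk
  simp only
  rw [dif_pos hex]
  obtain ⟨k1, k2⟩ := Classical.choose_spec hex
  set g := Classical.choose hex
  have hg : g = f ∨ g = C.v f := by
    have : g ∈ ({f, C.v f} : Set F) := by
      rw [k2]
      exact Or.inl rfl
    exact this
  rcases hg with hg | hg
  · rw [hg]
  · rw [hg, C.yv, C.xv, Pc_eq.2 (Relation.EqvGen.rel _ _ ⟨(co f).symm, h.2, h.1⟩)]

theorem pk_line (e : ↥C.PE) : C.pk (C.ps.s e).1 = C.pk (C.ps.t e).1 := by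
  rw [ps_s, ps_t]
  rcases C.Ez e.1 with k | k
  · rw [C.lt_out k]
    rfl
  · rw [C.lt_in k, C.pk_mid ⟨e.2, k⟩]
    rfl

theorem inn_mem {y n : V} (h : K.ar n y) : (NF.inn y n : NF V F) ∈ C.PT :=
  Or.inl (Or.inl ⟨y, n, rfl, h⟩)

/-- a corner between two in-arrows joins them -/
theorem ps_IC {y a b : V} (h : C.IC y a b) :
    Relation.EqvGen C.ps.st ⟨NF.inn y a, C.inn_mem h.2.1⟩ ⟨NF.inn y b, C.inn_mem h.2.2⟩ := by
  obtain ⟨⟨f, rfl, rfl, rfl⟩, ha, hb⟩ := h
  have hf : f ∈ C.fin2 := ⟨ha, hb⟩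
  have hv : C.v f ∈ C.fin2 := C.fin2_v hf
  have hm : (NF.mid {f, C.v f} : NF V F) ∈ C.PT := Or.inl (Or.inr ⟨f, hf, rfl⟩)
  have k1 : Relation.EqvGen C.ps.st ⟨NF.inn (C.y f) (C.x f), C.inn_mem ha⟩
      ⟨NF.mid {f, C.v f}, hm⟩ := by
    apply Relation.EqvGen.rel
    exact ⟨⟨f, ha⟩, Subtype.ext rfl, Subtype.ext (C.lt_in hb)⟩
  have k2 : Relation.EqvGen C.ps.st ⟨NF.inn (C.y f) (C.z f), C.inn_mem hb⟩
      ⟨NF.mid {f, C.v f}, hm⟩ := by
    apply Relation.EqvGen.rel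
    refine ⟨⟨C.v f, hv.1⟩, Subtype.ext ?_, Subtype.ext ?_⟩
    · show NF.inn (C.y (C.v f)) (C.x (C.v f)) = _
      rw [C.yv, C.xv]
    · show C.lt (C.v f) = _
      rw [C.lt_in hv.2, C.vv, Set.pair_comm]
  exact k1.trans _ _ _ k2.symm

theorem ps_inn {y a b : V} (h : C.IJ y a b) (ha : K.ar a y) (hb : K.ar b y) :
    Relation.EqvGen C.ps.st ⟨NF.inn y a, C.inn_mem ha⟩ ⟨NF.inn y b, C.inn_mem hb⟩ := by
  induction h with
  | rel a b h => exact C.ps_IC h
  | refl a => exact Relation.EqvGen.refl _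
  | symm a b _ ih => exact (ih hb ha).symm
  | trans a b c k1 k2 ih1 ih2 =>
    have hb' : K.ar b y := (IJ.ar k1).1 ha
    exact (ih1 ha hb').trans _ _ _ (ih2 hb' hb)

/-- every node has an in-node in its piece -/
theorem exists_inn (t : ↥C.PT) : ∃ y n, ∃ h : K.ar n y,
    Relation.EqvGen C.ps.st t ⟨NF.inn y n, C.inn_mem h⟩ ∧ C.pk t.1 = (y, C.Pc y n) := by
  obtain ⟨t, ht⟩ := t
  rcases id ht with (⟨y, n, rfl, h⟩ | ⟨f, hf, rfl⟩) | ⟨y, a, n, rfl, h1, h2, ⟨f, rfl, rfl, rfl⟩⟩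
  · exact ⟨y, n, h, Relation.EqvGen.refl _, rfl⟩
  · refine ⟨C.y f, C.x f, hf.1, ?_, C.pk_mid hf⟩
    apply Relation.EqvGen.symm
    apply Relation.EqvGen.rel
    exact ⟨⟨f, hf.1⟩, Subtype.ext rfl, Subtype.ext (C.lt_in hf.2)⟩
  · refine ⟨C.y f, C.x f, h2, ?_, rfl⟩
    apply Relation.EqvGen.symm
    apply Relation.EqvGen.rel
    exact ⟨⟨f, h2⟩, Subtype.ext rfl, Subtype.ext (C.lt_out h1)⟩

/-- THE COMPONENTS ARE THE PIECES -/
theorem ps_eqv {s t : ↥C.PT} : Relation.EqvGen C.ps.st s t ↔ C.pk s.1 = C.pk t.1 := by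
  constructor
  · intro h
    induction h with
    | rel x y h =>
      obtain ⟨e, rfl, rfl⟩ := h
      exact C.pk_line e
    | refl x => rfl
    | symm x y _ ih => exact ih.symm
    | trans x y z _ _ h1 h2 => exact h1.trans h2
  · intro h
    obtain ⟨y1, n1, h1, k1, l1⟩ := C.exists_inn s
    obtain ⟨y2, n2, h2, k2, l2⟩ := C.exists_inn t
    rw [l1, l2] at h
    have e1 : y1 = y2 := congrArg Prod.fst h
    subst e1
    have e2 : C.Pc y1 n1 = C.Pc y1 n2 := congrArg Prod.snd h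
    exact (k1.trans _ _ _ (C.ps_inn (Pc_eq.1 e2) h1 h2)).trans _ _ _ k2.symm

/-- the group of a piece -/
theorem mem_ps_grp {y n : V} (h : K.ar n y) {j : H} :
    j ∈ C.ps.grp ⟨NF.inn y n, C.inn_mem h⟩ ↔ j • y = y ∧ C.IJ y n (j • n) := by
  rw [JM.mem_grp, ps_eqv]
  show (y, C.Pc y n) = (j • y, C.Pc (j • y) (j • n)) ↔ _
  constructor
  · intro e
    have e1 : y = j • y := congrArg Prod.fst e
    have e2 : C.Pc y n = C.Pc (j • y) (j • n) := congrArg Prod.snd e
    rw [← e1] at e2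
    exact ⟨e1.symm, Pc_eq.1 e2⟩
  · rintro ⟨e1, e2⟩
    rw [e1, Pc_eq.2 e2]

/-! ### the number of the pieces -/

/-- the code of the piece of a node -/
noncomputable def pf (t : NF V F) : NF V F := NF.pol (C.pk t).1 (C.pk t).1 (C.pk t).2

theorem pf_eq {s t : NF V F} : C.pf s = C.pf t ↔ C.pk s = C.pk t := by
  unfold pf
  constructor
  · intro h
    obtain ⟨h1, -, h3⟩ := NF.pol.inj h
    exact Prod.ext h1 h3
  · intro h
    rw [h]

theorem pf_inn (y n : V) : C.pf (NF.inn y n) = NF.pol y y (C.Pc y n) := rfl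

theorem pf_smul (j : H) (t : ↥C.PT) : C.pf (j • t.1) = j • C.pf t.1 := by
  obtain ⟨y, n, h, k1, k2⟩ := C.exists_inn t
  have h1 := C.ps_eqv.1 (C.ps.eqv_smul j k1)
  have h2 : C.pk (j • t.1) = C.pk (NF.inn (j • y) (j • n)) := h1
  rw [C.pf_eq.2 h2]
  have h3 : C.pk t.1 = C.pk (NF.inn y n) := k2
  rw [C.pf_eq.2 h3, pf_inn, pf_inn, NF.smul_pol, Pc_smul]

theorem nC_ps : C.ps.fg.nC = oc H C.pcs := by
  rw [C.ps.nC_eq (fun t => C.pf t.1) (fun j t => C.pf_smul j t)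
    (fun x y => by rw [C.ps_eqv, C.pf_eq])]
  congr 1
  ext t
  constructor
  · rintro ⟨x, rfl⟩
    obtain ⟨y, n, h, -, k2⟩ := C.exists_inn x
    refine ⟨y, n, ?_, h⟩
    have h3 : C.pk x.1 = C.pk (NF.inn y n) := k2
    exact C.pf_eq.2 h3
  · rintro ⟨y, n, rfl, h⟩
    exact ⟨⟨NF.inn y n, C.inn_mem h⟩, rfl⟩

theorem oc_PE : oc H (C.PE : Set F) = oc H C.fin2 + oc H C.strs := by
  have d : Dj H C.fin2 C.strs := by
    refine Dj.of_inv (fun g a ha => C.fin2_inv g a ha) ?_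
    intro f h1 h2
    exact not_both h2.2 h1.2
  rw [C.PE_eq, oc_union d (C.fin_sub _) (C.fin_sub _)]

theorem oc_PT : oc H (C.PT : Set (NF V F)) =
    oc H (inns (K := K) (F := F)) + oc H C.mids + oc H C.pols := by
  have d1 : Dj H (inns (K := K) (F := F)) C.mids := by
    refine Dj.of_inv (fun g a ha => inns_inv K g a ha) ?_
    rintro _ ⟨y, n, rfl, h2⟩ ⟨f, hf, e⟩
    cases e
  have d2 : Dj H (inns (K := K) (F := F) ∪ C.mids) C.pols := by
    refine Dj.of_inv ?_ ?_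
    · rintro g a (ha | ha)
      · exact Or.inl (inns_inv K g a ha)
      · exact Or.inr (C.mids_inv g a ha)
    · rintro _ (⟨y, n, rfl, h2⟩ | ⟨f, hf, rfl⟩) ⟨y', a, n', e, -⟩
      · cases e
      · cases e
  have e : (C.PT : Set (NF V F)) = (inns (K := K) (F := F) ∪ C.mids) ∪ C.pols := rfl
  rw [e, oc_union d2 (finOrb_union fin_inns C.fin_mids) C.fin_pols,
    oc_union d1 fin_inns C.fin_mids]

/-- `2 E^h = cyc + exc` -/
theorem ps_b1 : C.ps.fg.b1 = C.cyc + C.exc := by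
  have h1 : C.ps.fg.nL = oc H (C.PE : Set F) := card_sub C.PE
  have h2 : C.ps.fg.nN = oc H (C.PT : Set (NF V F)) := card_sub C.PT
  unfold FG.b1
  rw [h1, h2, C.nC_ps, C.oc_PE, C.oc_PT]
  unfold cyc exc
  push_cast
  ring

end FC

end Pool.Agent.DI
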