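import Pool.Agent.DI.FCr

/-!
# The general fold law

`M : FM C C1`, `T y n`: a set of pieces (invariant). `Fold M T`: outside `T` no strand is dropped except at a
reversed in-arrow; there is one orbit of dropped flags and one orbit of kept flags at a reversed in-arrow;
on `T`: the lost strands are at most as many as the private poles and the new strands with a reversed source.
THEOREM `Fold.exc_le : C.exc ≤ C1.exc + D` (`M.Slk T D`: the lost strands of `T`); equality case `Fold.pols_inj`, `Fold.one_part`: a piece with a pole of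
the quotient comes from one orbit of pieces outside `T`.
-/

namespace Pool.Agent.DI

open MulAction
open Pool.Agent.SAF (InC orbs FinOrb oc mk_eq_iff FinOrb_iff)

namespace FM

variable {H V F V1 F1 : Type} [Group H] [MulAction H V] [MulAction H F] [MulAction H V1]
    [MulAction H F1] {K : GX H V} {K1 : GX H V1} {C : FC K F} {C1 : FC K1 F1} (M : FM C C1)
    (T : V → V → Prop)

/-- a reversed in-arrow outside `T` -/
def Fx (k p : V) : Prop := M.Fl k p ∧ ¬ T p k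

/-- lost strands of `T` -/
def Tl : Set F := {e | e ∈ C.strs ∧ T (C.y e) (C.x e) ∧ ¬ ∃ g ∈ C1.strs, M.ph g = e}

/-- private poles of `T` -/
def Xt (C : FC K F) (T : V → V → Prop) : Set (NF V F) := {t | ∃ y a n, t = NF.pol y a (C.Pc y n) ∧
  K.ar n y ∧ K.ar y a ∧ C.Co n y a ∧ T y n}

/-- new strands whose source was a pole -/
def Nt : Set F1 := {g | g ∈ C1.strs ∧ K.ar (C.y (M.ph g)) (C.x (M.ph g))}

/-- THE FOLD -/
structure Fold : Prop where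
  T_smul : ∀ (h : H) (y n : V), T y n → T (h • y) (h • n)
  T_ic : ∀ y n m, C.IC y n m → T y n → T y m
  pinj : ∀ k p a b, M.Fx T k p → K.ar p a → K.ar p b → M.f a = M.f b → a = b
  zex : ∀ k p, M.Fx T k p → ∃ e, ¬ M.Kp e ∧ C.x e = k ∧ C.y e = p
  zp : ∀ e, ¬ M.Kp e → M.Fx T (C.x e) (C.y e) →
    K.ar (C.y e) (C.z e) ∧ M.f (C.z e) = M.f (C.x e)
  zu : ∀ e e', ¬ M.Kp e → ¬ M.Kp e' → M.Fx T (C.x e) (C.y e) → C.x e = C.x e' → C.y e = C.y e' →
    ∃ h : H, h • e = e'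
  kex : ∀ k p, M.Fx T k p → ∃ e, M.Kp e ∧ C.x e = k ∧ C.y e = p
  ku : ∀ e e', M.Kp e → M.Kp e' → M.Fx T (C.x e) (C.y e) → C.x e = C.x e' → C.y e = C.y e' →
    ∃ h : H, h • e = e'
  nb : ∀ g, C1.x g ≠ C1.z g
  ds : ∀ e ∈ C.strs, ¬ T (C.y e) (C.x e) → ¬ M.Kp e → M.Fl (C.x e) (C.y e)
  dz : ∀ e ∈ C.strs, ¬ T (C.y e) (C.x e) → M.Kp e → ¬ M.Fl (C.y e) (C.z e)
  di : ∀ e ∈ C.fin2, ¬ T (C.y e) (C.x e) → ¬ M.Kp e →
    C1.IJ (M.f (C.y e)) (M.f (C.x e)) (M.f (C.z e))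
  tops : ∀ g ∈ C1.strs, (T (C.y (M.ph g)) (C.x (M.ph g)) ∨
    K.ar (C.y (M.ph g)) (C.x (M.ph g))) → ∃ y a n, ¬ T y n ∧ K.ar y a ∧ K.ar n y ∧
    C.Co n y a ∧ ¬ M.Fl n y ∧ M.f y = C1.y g ∧ M.f a = C1.z g ∧ C1.IJ (C1.y g) (M.f n) (C1.x g)

/-- the lost strands of `T` are at most `D` more than the private poles and the new strands -/
def Slk (D : ℕ) : Prop := oc H (M.Tl T) ≤ oc H (Xt C T) + oc H M.Nt + D

variable {M T}

theorem Fold.T_of_smul (R : M.Fold T) {h : H} {y n : V} (k : T (h • y) (h • n)) : T y n := by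
  have := R.T_smul h⁻¹ _ _ k
  rwa [inv_smul_smul, inv_smul_smul] at this

theorem Fold.Fx_smul (R : M.Fold T) (h : H) {k p : V} (e : M.Fx T k p) :
    M.Fx T (h • k) (h • p) := ⟨e.1.smul h, fun k => e.2 (R.T_of_smul k)⟩

namespace Fold

variable (R : M.Fold T)
include R

theorem T_ij {y a b : V} (h : C.IJ y a b) : T y a ↔ T y b := by
  induction h with
  | rel a b h => exact ⟨R.T_ic y a b h, R.T_ic y b a h.symm'⟩
  | refl a => exact Iff.rfl
  | symm a b _ ih => exact ih.symm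
  | trans a b c _ _ ih1 ih2 => exact ih1.trans ih2

/-- the pole to which a reversed node is folded -/
theorem pol {k p : V} (h : M.Fx T k p) : ∃ o, K.ar p o ∧ M.f o = M.f k ∧ C.Co k p o := by
  obtain ⟨e, he, rfl, rfl⟩ := R.zex k p h
  obtain ⟨h1, h2⟩ := R.zp e he h
  exact ⟨C.z e, h1, h2, FC.co e⟩

/-- an element which fixes a reversed arrow fixes the poles -/
theorem fix {k p : V} (h : M.Fx T k p) {s : H} (sk : s • k = k) (sp : s • p = p) :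
    ∀ a, K.ar p a → s • a = a := by
  obtain ⟨o, ho, fo, -⟩ := R.pol h
  have so : s • o = o := by
    apply R.pinj k p _ _ h
    · have := K.ar_smul s _ _ ho
      rwa [sp] at this
    · exact ho
    · rw [M.f_smul, fo, ← M.f_smul, sk]
  intro a ha
  have sa : K.ar p (s • a) := by
    have := K.ar_smul s _ _ ha
    rwa [sp] at this
  by_cases hao : a = o
  · rw [hao, so]
  · rcases K.two p a (s • a) o ha sa ho with e | e | e
    · exact e.symm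
    · exfalso
      apply hao
      have : s • a = s • o := by rw [e, so]
      exact smul_left_cancel s this
    · exact absurd e hao

/-- a dead node: reversed, its kept corners go to a pole or to a reversed node -/
def Dd (M : FM C C1) (T : V → V → Prop) (y a : V) : Prop := M.Fx T a y ∧
  ∃ e, M.Kp e ∧ C.x e = a ∧ C.y e = y ∧ (K.ar (C.y e) (C.z e) ∨ M.Fl (C.z e) (C.y e))

theorem Dd_smul {y a : V} (g : H) (h : Dd M T y a) : Dd M T (g • y) (g • a) := by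
  obtain ⟨h1, e, h2, rfl, rfl, h5⟩ := h
  refine ⟨R.Fx_smul g h1, g • e, h2.smul g, C.x_smul g e, C.y_smul g e, ?_⟩
  rw [C.y_smul, C.z_smul]
  exact h5.imp (fun k => K.ar_smul g _ _ k) (fun k => k.smul g)

/-- all kept flags at a dead node are dead -/
theorem Dd_all {y a : V} (h : Dd M T y a) {e : F} (hk : M.Kp e) (hx : C.x e = a)
    (hy : C.y e = y) : K.ar (C.y e) (C.z e) ∨ M.Fl (C.z e) (C.y e) := by
  obtain ⟨h1, e', h2, h3, h4, h5⟩ := h
  obtain ⟨g, rfl⟩ := R.ku e' e h2 hk (by rw [h3, h4]; exact h1) (by rw [h3, hx])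
    (by rw [h4, hy])
  rw [C.y_smul, C.z_smul]
  exact h5.imp (fun k => K.ar_smul g _ _ k) (fun k => k.smul g)

/-- a corner between in-arrows at a reversed node is kept -/
theorem kept {y a b : V} (h : M.Fx T a y) {e : F} (h1 : C.x e = a) (h2 : C.y e = y)
    (h3 : C.z e = b) (hb : K.ar b y) : M.Kp e := by
  by_contra hk
  have := (R.zp e hk (by rw [h1, h2]; exact h)).1
  rw [h2, h3] at this
  exact FC.not_both this hb

/-- dead nodes are connected with dead nodes only -/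
theorem dead_ic {y a b : V} (h : C.IC y a b) (ha : Dd M T y a) : Dd M T y b := by
  have hT : ¬ T y b := fun k => ha.1.2 (R.T_ic y b a h.symm' k)
  obtain ⟨⟨e, h1, h2, h3⟩, h4, h5⟩ := h
  have hk := R.kept ha.1 h1 h2 h3 h5
  have hb : M.Fl (C.z e) (C.y e) := by
    rcases R.Dd_all ha hk h1 h2 with k | k
    · rw [h2, h3] at k
      exact absurd h5 (FC.not_both k)
    · exact k
  refine ⟨⟨by rw [← h3, ← h2]; exact hb, hT⟩, C.v e, hk.v, ?_, ?_, ?_⟩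
  · rw [C.xv, h3]
  · rw [C.yv, h2]
  · right
    rw [C.zv, C.yv, h1, h2]
    exact ha.1.1

theorem dead_ij {y a b : V} (h : C.IJ y a b) : Dd M T y a ↔ Dd M T y b := by
  induction h with
  | rel a b h => exact ⟨R.dead_ic h, R.dead_ic h.symm'⟩
  | refl a => exact Iff.rfl
  | symm a b _ ih => exact ih.symm
  | trans a b c _ _ ih1 ih2 => exact ih1.trans ih2

/-- the kept flags at the dead nodes of one piece -/
theorem dead_flags {y a b : V} (h : C.IJ y a b) (ha : Dd M T y a) {e e' : F} (he : M.Kp e)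
    (he' : M.Kp e') (h1 : C.x e = a) (h2 : C.y e = y) (h1' : C.x e' = b) (h2' : C.y e' = y) :
    (M.f a = M.f b ∧ ∃ g : H, g • e = e') ∨ (M.f a ≠ M.f b ∧ ∃ g : H, g • e = C.v e') := by
  induction h generalizing e e' with
  | rel a b h =>
    obtain ⟨⟨d, k1, k2, k3⟩, k4, k5⟩ := h
    have hd := R.kept ha.1 k1 k2 k3 k5
    right
    constructor
    · obtain ⟨g, rfl⟩ := hd
      have := R.nb g
      rw [← M.x_ph, ← M.z_ph, k1, k3] at this
      exact this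
    · obtain ⟨g, hg⟩ := R.ku e d he hd (by rw [h1, h2]; exact ha.1) (by rw [h1, k1])
        (by rw [h2, k2])
      have hb : Dd M T y b := R.dead_ic ⟨⟨d, k1, k2, k3⟩, k4, k5⟩ ha
      obtain ⟨g', hg'⟩ := R.ku (C.v d) e' hd.v he' (by rw [C.xv, C.yv, k3, k2]; exact hb.1)
        (by rw [C.xv, h1', k3]) (by rw [C.yv, h2', k2])
      refine ⟨g' * g, ?_⟩
      rw [mul_smul, hg, ← hg', C.v_smul, C.vv]
  | refl a =>
    left
    exact ⟨rfl, R.ku e e' he he' (by rw [h1, h2]; exact ha.1) (by rw [h1, h1'])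
      (by rw [h2, h2'])⟩
  | symm a b h ih =>
    have hb : Dd M T y a := (R.dead_ij h).2 ha
    rcases ih hb he' he h1' h2' h1 h2 with ⟨k1, g, k2⟩ | ⟨k1, g, k2⟩
    · left
      exact ⟨k1.symm, g⁻¹, by rw [← k2, inv_smul_smul]⟩
    · right
      refine ⟨k1.symm, g⁻¹, ?_⟩
      have : e = C.v (g • e') := by rw [k2, C.vv]
      rw [this, ← C.v_smul, inv_smul_smul]
  | trans a b c hab hbc ih1 ih2 =>
    have hb : Dd M T y b := (R.dead_ij hab).1 ha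
    have hc : Dd M T y c := (R.dead_ij hbc).1 hb
    obtain ⟨d, hd, d1, d2⟩ := R.kex b y hb.1
    rcases ih1 ha he hd h1 h2 d1 d2 with ⟨k1, g, k2⟩ | ⟨k1, g, k2⟩ <;>
    rcases ih2 hb hd he' d1 d2 h1' h2' with ⟨l1, g', l2⟩ | ⟨l1, g', l2⟩
    · left
      exact ⟨k1.trans l1, g' * g, by rw [mul_smul, k2, l2]⟩
    · right
      refine ⟨by rw [k1]; exact l1, g' * g, by rw [mul_smul, k2, l2]⟩
    · right
      refine ⟨by rw [← l1]; exact k1, g' * g, ?_⟩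
      rw [mul_smul, k2, ← C.v_smul, l2]
    · left
      constructor
      · obtain ⟨o1, p1, q1, -⟩ := R.pol ha.1
        obtain ⟨o2, p2, q2, -⟩ := R.pol hb.1
        obtain ⟨o3, p3, q3, -⟩ := R.pol hc.1
        rw [← q1, ← q3]
        rw [← q1, ← q2] at k1
        rw [← q2, ← q3] at l1
        rcases K.two y o1 o2 o3 p1 p2 p3 with e | e | e
        · exact absurd (congrArg M.f e) k1
        · exact absurd (congrArg M.f e) l1
        · rw [e]
      · refine ⟨g' * g, ?_⟩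
        rw [mul_smul, k2, ← C.v_smul, l2, C.vv]

/-! ### the images of the pieces -/

/-- `b` is the node `a`, or the other end of a kept corner at the reversed node `a` -/
def At (M : FM C C1) (y a b : V) : Prop := K.ar b y ∧ ¬ M.Fl b y ∧
  ((¬ M.Fl a y ∧ b = a) ∨ (M.Fl a y ∧ ∃ e, M.Kp e ∧ C.x e = a ∧ C.y e = y ∧ C.z e = b))

/-- two ends at the same node -/
theorem at_same {y a b b' : V} (hT : ¬ T y a) (h : At M y a b) (h' : At M y a b') :
    Flip.Qr M y b b' := by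
  rcases h.2.2 with ⟨k, rfl⟩ | ⟨k, e, k1, k2, k3, rfl⟩ <;>
  rcases h'.2.2 with ⟨l, rfl⟩ | ⟨l, e', l1, l2, l3, rfl⟩
  · exact Flip.Qr.rfl'
  · exact absurd l k
  · exact absurd k l
  · obtain ⟨s, rfl⟩ := R.ku e e' k1 l1 (by rw [k2, k3]; exact ⟨k, hT⟩) (by rw [k2, l2])
      (by rw [k3, l3])
    rw [C.x_smul, k2] at l2
    rw [C.y_smul, k3] at l3
    refine ⟨s, l3, R.fix ⟨k, hT⟩ l2 l3, ?_⟩
    rw [C.z_smul]
    exact Relation.EqvGen.refl _

theorem at_ic {y a b a' b' : V} (hT : ¬ T y a) (h : C.IC y a b) (ha : At M y a a')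
    (hb : At M y b b') : Flip.Qr M y a' b' := by
  have hTb : ¬ T y b := fun k => hT (R.T_ic y b a h.symm' k)
  obtain ⟨⟨e, h1, h2, h3⟩, h4, h5⟩ := id h
  by_cases fa : M.Fl a y
  · -- the corner is kept
    have hk := R.kept ⟨fa, hT⟩ h1 h2 h3 h5
    by_cases fb : M.Fl b y
    · -- both are dead
      exfalso
      have hd : Dd M T y a := ⟨⟨fa, hT⟩, e, hk, h1, h2, Or.inr (by rw [h3, h2]; exact fb)⟩
      rcases ha.2.2 with ⟨k, -⟩ | ⟨-, e', k1, k2, k3, k4⟩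
      · exact k fa
      · rcases R.Dd_all hd k1 k2 k3 with l | l
        · rw [k3, k4] at l
          exact FC.not_both l ha.1
        · rw [k3, k4] at l
          exact ha.2.1 l
    · -- `b' = b` and `b` is attached to `a`
      rcases hb.2.2 with ⟨-, rfl⟩ | ⟨k, -⟩
      · exact R.at_same hT ha ⟨h5, fb, Or.inr ⟨fa, e, hk, h1, h2, h3⟩⟩
      · exact absurd k fb
  · by_cases fb : M.Fl b y
    · have hk := R.kept ⟨fb, hTb⟩ (e := C.v e) (by rw [C.xv, h3]) (by rw [C.yv, h2])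
        (by rw [C.zv, h1]) h4
      rcases ha.2.2 with ⟨-, rfl⟩ | ⟨k, -⟩
      · refine R.at_same hTb ⟨h4, fa, Or.inr ⟨fb, C.v e, hk, ?_, ?_, ?_⟩⟩ hb
        · rw [C.xv, h3]
        · rw [C.yv, h2]
        · rw [C.zv, h1]
      · exact absurd k fa
    · rcases ha.2.2 with ⟨-, rfl⟩ | ⟨k, -⟩
      · rcases hb.2.2 with ⟨-, rfl⟩ | ⟨k, -⟩
        · apply Flip.Qr.of_ij
          by_cases hk : M.Kp e
          · obtain ⟨g, rfl⟩ := hk
            have k1 : K1.ar (C1.x g) (C1.y g) := by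
              rcases M.ar_x_or g (by rw [h1, h2]; exact h4) with k | k
              · exact k
              · rw [h1, h2] at k
                exact absurd k fa
            have k2 : K1.ar (C1.z g) (C1.y g) := by
              rcases M.ar_z_or' g (by rw [h3, h2]; exact h5) with k | k
              · exact k
              · rw [h3, h2] at k
                exact absurd k fb
            rw [← h1, ← h2, ← h3, M.x_ph, M.y_ph, M.z_ph]
            exact Relation.EqvGen.rel _ _ ⟨FC.co g, k1, k2⟩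
          · have := R.di e ⟨by rw [h1, h2]; exact h4, by rw [h3, h2]; exact h5⟩
              (by rw [h2, h1]; exact hT) hk
            rwa [h1, h2, h3] at this
        · exact absurd k fb
      · exact absurd k fa

/-- a node has an end unless it is dead -/
theorem exists_at {y a : V} (hT : ¬ T y a) (ha : K.ar a y) (hd : ¬ Dd M T y a) :
    ∃ b, At M y a b := by
  by_cases fa : M.Fl a y
  · obtain ⟨e, he, h1, h2⟩ := R.kex a y ⟨fa, hT⟩
    have h3 : ¬ K.ar y (C.z e) := fun k =>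
      hd ⟨⟨fa, hT⟩, e, he, h1, h2, Or.inl (by rw [h2]; exact k)⟩
    have h4 : ¬ M.Fl (C.z e) y := fun k =>
      hd ⟨⟨fa, hT⟩, e, he, h1, h2, Or.inr (by rw [h2]; exact k)⟩
    refine ⟨C.z e, ?_, h4, Or.inr ⟨fa, e, he, h1, h2, rfl⟩⟩
    rcases C.Ez e with k | k
    · rw [h2] at k
      exact absurd k h3
    · rwa [h2] at k
  · exact ⟨a, ha, fa, Or.inl ⟨fa, rfl⟩⟩

omit R in
theorem not_dead_of_not_fl {y a : V} (h : ¬ M.Fl a y) : ¬ Dd M T y a := fun k => h k.1.1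

theorem not_dead_of_at {y a b : V} (h : At M y a b) : ¬ Dd M T y a := by
  intro hd
  rcases h.2.2 with ⟨k, -⟩ | ⟨-, e', k1, k2, k3, k4⟩
  · exact k hd.1.1
  · rcases R.Dd_all hd k1 k2 k3 with l | l
    · rw [k3, k4] at l
      exact FC.not_both l h.1
    · rw [k3, k4] at l
      exact h.2.1 l

/-- THE PIECES OF THE QUOTIENT -/
theorem at_ij {y a b a' b' : V} (hT : ¬ T y a) (h : C.IJ y a b) (hya : K.ar a y)
    (ha : At M y a a') (hb : At M y b b') : Flip.Qr M y a' b' := by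
  induction h generalizing a' b' with
  | rel a b h => exact R.at_ic hT h ha hb
  | refl a => exact R.at_same hT ha hb
  | symm a b h ih =>
    exact (ih (fun k => hT ((R.T_ij h).1 k)) ((FC.IJ.ar h).2 hya) hb ha).symm
  | trans a b c hab hbc ih1 ih2 =>
    have hyb : K.ar b y := (FC.IJ.ar hab).1 hya
    have hTb : ¬ T y b := fun k => hT ((R.T_ij hab).2 k)
    have hnd : ¬ Dd M T y b := fun k => R.not_dead_of_at ha ((R.dead_ij hab).2 k)
    obtain ⟨d, hd⟩ := R.exists_at hTb hyb hnd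
    exact (ih1 hT hya ha hd).trans (ih2 hTb hyb hd hb)

/-- nodes which are not reversed -/
theorem ij_q {y a b : V} (hT : ¬ T y a) (h : C.IJ y a b) (hya : K.ar a y) (ha : ¬ M.Fl a y)
    (hb : ¬ M.Fl b y) : Flip.Qr M y a b :=
  R.at_ij hT h hya ⟨hya, ha, Or.inl ⟨ha, rfl⟩⟩
    ⟨(FC.IJ.ar h).1 hya, hb, Or.inl ⟨hb, rfl⟩⟩

end Fold

/-! ### the numbers -/

variable (M T)

/-- zero strands at reversed arrows -/
def Zt : Set F := {e | e ∈ C.strs ∧ ¬ M.Kp e ∧ M.Fx T (C.x e) (C.y e)}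

/-- kept strands at reversed in-arrows -/
def Kot : Set F := {e | M.Kp e ∧ M.Fx T (C.x e) (C.y e) ∧ K.ar (C.y e) (C.z e)}

/-- kept flags of dead nodes -/
def Kdt : Set F := {e | M.Kp e ∧ M.Fx T (C.x e) (C.y e) ∧
  (K.ar (C.y e) (C.z e) ∨ M.Fl (C.z e) (C.y e))}

/-- kept flags of the other reversed nodes -/
def Kit : Set F := {e | M.Kp e ∧ M.Fx T (C.x e) (C.y e) ∧ K.ar (C.z e) (C.y e) ∧
  ¬ M.Fl (C.z e) (C.y e)}

namespace Fold

variable {M T} (R : M.Fold T)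
include R

/-- the strands -/
theorem strs_le : oc H C.strs + oc H M.Ns ≤
    oc H C1.strs + (oc H (M.Zt T) + oc H (M.Kot T) + oc H (M.Tl T)) := by
  have h1 := oc_split (C.fin_sub C.strs) (fun e => ∃ g ∈ C1.strs, M.ph g = e) (by
    rintro h y - - ⟨g, hg, rfl⟩
    exact ⟨h • g, C1.strs_inv h g hg, M.ph_smul h g⟩)
  have h2 := oc_split (C1.fin_sub C1.strs) (fun g => M.ph g ∈ C.strs) (by
    intro h y _ _ hy
    show M.ph (h • y) ∈ C.strs
    rw [M.ph_smul]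
    exact C.strs_inv h _ hy)
  have h3 : oc H {g | g ∈ C1.strs ∧ M.ph g ∈ C.strs} =
      oc H {e | e ∈ C.strs ∧ ∃ g ∈ C1.strs, M.ph g = e} := by
    refine oc_bij (C1.fin_sub _) (C.fin_sub _) ?_ M.ph (fun h a _ => M.ph_smul h a) ?_ ?_
      (fun a _ b _ e => M.inj e)
    · rintro h a ⟨ha, hb⟩
      refine ⟨C1.strs_inv h a ha, ?_⟩
      rw [M.ph_smul]
      exact C.strs_inv h _ hb
    · rintro a ⟨ha, hb⟩
      exact ⟨hb, a, ha, rfl⟩
    · rintro _ ⟨hb, g, hg, rfl⟩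
      exact ⟨g, ⟨hg, hb⟩, rfl⟩
  have h4 : oc H {e | e ∈ C.strs ∧ ¬ ∃ g ∈ C1.strs, M.ph g = e} ≤
      oc H (M.Zt T) + oc H (M.Kot T) + oc H (M.Tl T) := by
    have h5 : {e | e ∈ C.strs ∧ ¬ ∃ g ∈ C1.strs, M.ph g = e} ⊆
        (M.Zt T ∪ M.Kot T) ∪ M.Tl T := by
      rintro e ⟨he, hn⟩
      by_cases hT : T (C.y e) (C.x e)
      · exact Or.inr ⟨he, hT, hn⟩
      · by_cases hk : M.Kp e
        · have hz := R.dz e he hT hk
          obtain ⟨g, rfl⟩ := hk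
          rcases M.ar_x_or g he.1 with k | k
          · rcases M.ar_z_or g he.2 with l | l
            · exact absurd ⟨g, ⟨k, l⟩, rfl⟩ hn
            · exact absurd l hz
          · exact Or.inl (Or.inr ⟨⟨g, rfl⟩, ⟨k, hT⟩, he.2⟩)
        · exact Or.inl (Or.inl ⟨he, hk, R.ds e he hT hk, hT⟩)
    have h6 := SAF.oc_mono (C.fin_sub ((M.Zt T ∪ M.Kot T) ∪ M.Tl T)) h5
    have h7 := oc_union_le (G := H) (M.Zt T ∪ M.Kot T) (M.Tl T)
    have h8 := oc_union_le (G := H) (M.Zt T) (M.Kot T)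
    omega
  have h5 : oc H {g | g ∈ C1.strs ∧ ¬ M.ph g ∈ C.strs} = oc H M.Ns := rfl
  omega

theorem zt_le : oc H (M.Zt T) ≤ oc H (M.Kdt T) + oc H (M.Kit T) := by
  have h1 : oc H (M.Zt T) ≤ oc H (M.Kdt T ∪ M.Kit T) := by
    refine SAF.oc_le_of_rel (C.fin_sub _)
      (fun e e' => C.x e = C.x e' ∧ C.y e = C.y e' ∧ M.Kp e') ?_ ?_
    · rintro e ⟨-, -, hf⟩
      obtain ⟨e', h1, h2, h3⟩ := R.kex _ _ hf
      refine ⟨e', ?_, h2.symm, h3.symm, h1⟩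
      by_cases hd : K.ar (C.y e') (C.z e') ∨ M.Fl (C.z e') (C.y e')
      · exact Or.inl ⟨h1, by rw [h2, h3]; exact hf, hd⟩
      · push Not at hd
        refine Or.inr ⟨h1, by rw [h2, h3]; exact hf, ?_, hd.2⟩
        rcases C.Ez e' with k | k
        · exact absurd k hd.1
        · exact k
    · rintro a ⟨-, a1, a2⟩ b ⟨-, b1, b2⟩ a' - b' - ⟨h1, h2, h3⟩ ⟨k1, k2, k3⟩ ⟨g, rfl⟩
      rw [C.x_smul, ← h1, ← C.x_smul] at k1
      rw [C.y_smul, ← h2, ← C.y_smul] at k2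
      obtain ⟨g', hg'⟩ := R.zu b (g • a) b1 (fun k => a1 k.of_smul) b2 k1 k2
      refine ⟨g'⁻¹ * g, ?_⟩
      rw [mul_smul, ← hg', inv_smul_smul]
  exact h1.trans (oc_union_le _ _)

omit R in
theorem kit_le : oc H (M.Kit T) + oc H M.Nt ≤ oc H M.Ns := by
  have h1 := oc_split (C1.fin_sub M.Ns) (fun g => K.ar (C.y (M.ph g)) (C.x (M.ph g))) (by
    intro h y _ _ hy
    show K.ar (C.y (M.ph (h • y))) (C.x (M.ph (h • y)))
    rw [M.ph_smul, C.y_smul, C.x_smul]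
    exact K.ar_smul h _ _ hy)
  have h2 : oc H M.Nt ≤ oc H {g | g ∈ M.Ns ∧ K.ar (C.y (M.ph g)) (C.x (M.ph g))} := by
    refine SAF.oc_mono (C1.fin_sub _) ?_
    rintro g ⟨h1, h2⟩
    exact ⟨⟨h1, fun k => FC.not_both h2 k.1⟩, h2⟩
  have h3 : oc H (M.Kit T) ≤ oc H {g | g ∈ M.Ns ∧ ¬ K.ar (C.y (M.ph g)) (C.x (M.ph g))} := by
    refine SAF.oc_le_of_rel (C1.fin_sub _) (fun e g => M.ph g = C.v e) ?_ ?_
    · rintro e ⟨h1, h2, h3, h4⟩
      obtain ⟨g, hg⟩ := h1.v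
      refine ⟨g, ⟨⟨⟨?_, ?_⟩, ?_⟩, ?_⟩, hg⟩
      · rcases M.ar_x_or g (by rw [hg, C.xv, C.yv]; exact h3) with k | k
        · exact k
        · rw [hg, C.xv, C.yv] at k
          exact absurd k h4
      · have := h2.1.2
        rw [← C.yv e, ← C.zv e, ← hg, M.y_ph, M.z_ph] at this
        exact this
      · rw [hg]
        intro hs
        have := hs.2
        rw [C.zv, C.yv] at this
        exact FC.not_both this h2.1.1
      · rw [hg, C.yv, C.xv]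
        exact fun k => FC.not_both k h3
    · rintro a - b - a' - b' - h1 h2 ⟨g, rfl⟩
      refine ⟨g, C.v_inj ?_⟩
      rw [C.v_smul, ← h1, ← h2, M.ph_smul]
  omega

end Fold

/-- poles onto which dead nodes are folded -/
def Xat : Set (NF V F) := {t | ∃ e o, e ∈ M.Kdt T ∧ K.ar (C.y e) o ∧ M.f o = M.f (C.x e) ∧
  t = NF.pol (C.y e) o (C.Pc (C.y e) (C.x e))}

/-- the other poles of dead pieces with one node -/
def Xbt : Set (NF V F) := {t | ∃ e, e ∈ M.Kot T ∧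
  t = NF.pol (C.y e) (C.z e) (C.Pc (C.y e) (C.x e))}

/-- the other ones -/
def Xgt : Set (NF V F) := {t | t ∈ C.pols ∧ t ∉ M.Xat T ∧ t ∉ M.Xbt T ∧ t ∉ Xt C T}

/-- a private pole of the quotient over a private pole of the complex -/
def Pt2 (t1 : NF V1 F1) (t : NF V F) : Prop := ∃ y a n, t = NF.pol y a (C.Pc y n) ∧
  K.ar n y ∧ K.ar y a ∧ ¬ M.Fl n y ∧ ¬ T y n ∧
  t1 = NF.pol (M.f y) (M.f a) (C1.Pc (M.f y) (M.f n))

namespace Fold

variable {M T} (R : M.Fold T)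
include R

theorem Kd_inv (h : H) {e : F} (he : e ∈ M.Kdt T) : h • e ∈ M.Kdt T := by
  obtain ⟨h1, h2, h3⟩ := he
  refine ⟨h1.smul h, ?_, ?_⟩
  · rw [C.x_smul, C.y_smul]
    exact R.Fx_smul h h2
  · rw [C.y_smul, C.z_smul]
    exact h3.imp (fun k => K.ar_smul h _ _ k) (fun k => k.smul h)

theorem Ko_inv (h : H) {e : F} (he : e ∈ M.Kot T) : h • e ∈ M.Kot T := by
  obtain ⟨h1, h2, h3⟩ := he
  refine ⟨h1.smul h, ?_, ?_⟩
  · rw [C.x_smul, C.y_smul]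
    exact R.Fx_smul h h2
  · rw [C.y_smul, C.z_smul]
    exact K.ar_smul h _ _ h3

theorem Xa_inv (h : H) : ∀ t ∈ M.Xat T, h • t ∈ M.Xat T := by
  rintro _ ⟨e, o, h1, h2, h3, rfl⟩
  refine ⟨h • e, h • o, R.Kd_inv h h1, ?_, ?_, ?_⟩
  · rw [C.y_smul]
    exact K.ar_smul h _ _ h2
  · rw [C.x_smul, M.f_smul, M.f_smul, h3]
  · rw [NF.smul_pol, FC.Pc_smul, C.y_smul, C.x_smul]

theorem Xb_inv (h : H) : ∀ t ∈ M.Xbt T, h • t ∈ M.Xbt T := by
  rintro _ ⟨e, h1, rfl⟩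
  refine ⟨h • e, R.Ko_inv h h1, ?_⟩
  rw [NF.smul_pol, FC.Pc_smul, C.y_smul, C.x_smul, C.z_smul]

theorem Xt_inv (h : H) : ∀ t ∈ Xt C T, h • t ∈ Xt C T := by
  rintro _ ⟨y, a, n, rfl, h1, h2, h3, h4⟩
  refine ⟨h • y, h • a, h • n, ?_, K.ar_smul h _ _ h1, K.ar_smul h _ _ h2, h3.smul h,
    R.T_smul h _ _ h4⟩
  rw [NF.smul_pol, FC.Pc_smul]

theorem Xa_sub : M.Xat T ⊆ C.pols := by
  rintro _ ⟨e, o, ⟨h1, h2, h3⟩, h4, h5, rfl⟩
  obtain ⟨o', k1, k2, k3⟩ := R.pol h2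
  have : o = o' := R.pinj _ _ _ _ h2 h4 k1 (by rw [h5, k2])
  subst this
  exact ⟨C.y e, o, C.x e, rfl, h4, h2.1.1, k3⟩

omit R in
theorem Xb_sub : M.Xbt T ⊆ C.pols := by
  rintro _ ⟨e, ⟨h1, h2, h3⟩, rfl⟩
  exact ⟨C.y e, C.z e, C.x e, rfl, h3, h2.1.1, FC.co e⟩

omit R in
theorem Xt_sub : Xt C T ⊆ C.pols := by
  rintro _ ⟨y, a, n, rfl, h1, h2, h3, h4⟩
  exact ⟨y, a, n, rfl, h2, h1, h3⟩

omit R in
theorem Xg_sub : M.Xgt T ⊆ C.pols := fun _ h => h.1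

omit R in
theorem dead_of {e : F} (h : e ∈ M.Kdt T) : Dd M T (C.y e) (C.x e) :=
  ⟨h.2.1, e, h.1, rfl, rfl, h.2.2⟩

theorem kd_le : oc H (M.Kdt T) ≤ oc H (M.Xat T) := by
  refine SAF.oc_le_of_rel (SAF.FinOrb.mono R.Xa_sub C.fin_pols)
    (fun e t => ∃ o, K.ar (C.y e) o ∧ M.f o = M.f (C.x e) ∧
      t = NF.pol (C.y e) o (C.Pc (C.y e) (C.x e))) ?_ ?_
  · intro e he
    obtain ⟨o, h1, h2, -⟩ := R.pol he.2.1
    exact ⟨_, ⟨e, o, he, h1, h2, rfl⟩, o, h1, h2, rfl⟩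
  · rintro a ha b hb _ - _ - ⟨o, h1, h2, rfl⟩ ⟨o', k1, k2, rfl⟩ ⟨g, e⟩
    rw [NF.smul_pol, FC.Pc_smul] at e
    obtain ⟨e1, e2, e3⟩ := NF.pol.inj e
    rw [e1] at e3
    have hij := FC.Pc_eq.1 e3
    have hga := R.Kd_inv g ha
    have hd : Dd M T (C.y b) (g • C.x a) := by
      have := dead_of hga
      rwa [C.y_smul, C.x_smul, e1] at this
    have hff : M.f (g • C.x a) = M.f (C.x b) := by
      rw [M.f_smul, ← h2, ← M.f_smul, e2, k2]
    rcases R.dead_flags hij hd hga.1 hb.1 (C.x_smul g a) (by rw [C.y_smul, e1]) rfl rfl with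
      ⟨-, g', h⟩ | ⟨h, -⟩
    · exact ⟨g' * g, by rw [mul_smul, h]⟩
    · exact absurd hff h

omit R in
theorem ko_sub_kd {e : F} (h : e ∈ M.Kot T) : e ∈ M.Kdt T := ⟨h.1, h.2.1, Or.inl h.2.2⟩

theorem ko_le : oc H (M.Kot T) ≤ oc H (M.Xbt T) := by
  refine SAF.oc_le_of_rel (SAF.FinOrb.mono Xb_sub C.fin_pols)
    (fun e t => t = NF.pol (C.y e) (C.z e) (C.Pc (C.y e) (C.x e))) ?_ ?_
  · intro e he
    exact ⟨_, ⟨e, he, rfl⟩, rfl⟩
  · rintro a ha b hb _ - _ - rfl rfl ⟨g, e⟩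
    rw [NF.smul_pol, FC.Pc_smul] at e
    obtain ⟨e1, e2, e3⟩ := NF.pol.inj e
    rw [e1] at e3
    have hij := FC.Pc_eq.1 e3
    have hga := R.Ko_inv g ha
    have hd : Dd M T (C.y b) (g • C.x a) := by
      have := dead_of (ko_sub_kd hga)
      rwa [C.y_smul, C.x_smul, e1] at this
    rcases R.dead_flags hij hd hga.1 hb.1 (C.x_smul g a) (by rw [C.y_smul, e1]) rfl rfl with
      ⟨-, g', h⟩ | ⟨-, g', h⟩
    · exact ⟨g' * g, by rw [mul_smul, h]⟩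
    · exfalso
      have k1 : K.ar (C.x (C.v b)) (C.y (C.v b)) := by
        rw [← h, C.x_smul, C.y_smul, C.x_smul, C.y_smul]
        exact K.ar_smul _ _ _ (K.ar_smul _ _ _ ha.2.1.1.1)
      rw [C.xv, C.yv] at k1
      exact FC.not_both hb.2.2 k1

/-- the private poles at reversed vertices -/
theorem dj_ab : Dj H (M.Xat T) (M.Xbt T) := by
  refine Dj.of_inv (fun g t ht => R.Xa_inv g t ht) ?_
  rintro _ ⟨e, o, h1, h2, h3, rfl⟩ ⟨e', k1, k2⟩
  obtain ⟨e1, e2, e3⟩ := NF.pol.inj k2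
  rw [← e1] at e3
  have hij := FC.Pc_eq.1 e3
  obtain ⟨g', hg'⟩ := k1.1
  have hne : M.f (C.x e') ≠ M.f (C.z e') := by
    rw [← hg', M.x_ph, M.z_ph]
    exact R.nb g'
  rcases R.dead_flags hij (dead_of h1) h1.1 k1.1 rfl rfl rfl e1.symm with ⟨l, -⟩ | ⟨-, g, l⟩
  · apply hne
    rw [← l, ← h3, e2]
  · have k3 : K.ar (C.x (C.v e')) (C.y (C.v e')) := by
      rw [← l, C.x_smul, C.y_smul]
      exact K.ar_smul _ _ _ h1.2.1.1.1
    rw [C.xv, C.yv] at k3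
    exact FC.not_both k1.2.2 k3

/-- membership in `T` is determined by the code -/
theorem t_code {y a n y' a' n' : V}
    (h : (NF.pol y a (C.Pc y n) : NF V F) = NF.pol y' a' (C.Pc y' n')) :
    T y n ↔ T y' n' := by
  obtain ⟨rfl, -, e3⟩ := NF.pol.inj h
  exact R.T_ij (FC.Pc_eq.1 e3)

theorem dj_at : Dj H (M.Xat T) (Xt C T) := by
  refine Dj.of_inv (fun g t ht => R.Xa_inv g t ht) ?_
  rintro _ ⟨e, o, h1, h2, h3, rfl⟩ ⟨y, a, n, k, -, -, -, l⟩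
  exact h1.2.1.2 ((R.t_code k).2 l)

theorem dj_bt : Dj H (M.Xbt T) (Xt C T) := by
  refine Dj.of_inv (fun g t ht => R.Xb_inv g t ht) ?_
  rintro _ ⟨e, h1, rfl⟩ ⟨y, a, n, k, -, -, -, l⟩
  exact h1.2.1.2 ((R.t_code k).2 l)

theorem x_le : oc H (M.Xat T) + oc H (M.Xbt T) + oc H (Xt C T) + oc H (M.Xgt T) ≤
    oc H C.pols := by
  have f {A : Set (NF V F)} (h : A ⊆ C.pols) : FinOrb H A := SAF.FinOrb.mono h C.fin_pols
  have h1 := oc_union R.dj_ab (f R.Xa_sub) (f Xb_sub)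
  have s1 : M.Xat T ∪ M.Xbt T ⊆ C.pols := Set.union_subset R.Xa_sub Xb_sub
  have h2 := oc_union (R.dj_at.union R.dj_bt) (f s1) (f Xt_sub)
  have s2 : (M.Xat T ∪ M.Xbt T) ∪ Xt C T ⊆ C.pols := Set.union_subset s1 Xt_sub
  have d4 : Dj H ((M.Xat T ∪ M.Xbt T) ∪ Xt C T) (M.Xgt T) := by
    refine Dj.of_inv ?_ ?_
    · rintro g a ((h | h) | h)
      · exact Or.inl (Or.inl (R.Xa_inv g a h))
      · exact Or.inl (Or.inr (R.Xb_inv g a h))
      · exact Or.inr (R.Xt_inv g a h)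
    · rintro a ((h | h) | h) k
      · exact k.2.1 h
      · exact k.2.2.1 h
      · exact k.2.2.2 h
  have h4 := oc_add_le d4 C.fin_pols s2 Xg_sub
  omega

theorem p2_g {y a n m : V} (hn : K.ar n y) (ha : K.ar y a) (hm : C.IJ y n m) (hc : C.Co m y a)
    (hf : ¬ M.Fl n y) (hT : ¬ T y n) : NF.pol y a (C.Pc y n) ∈ M.Xgt T := by
  have hnd : ¬ Dd M T y n := not_dead_of_not_fl hf
  refine ⟨⟨y, a, m, by rw [FC.Pc_eq.2 hm], ha, (FC.IJ.ar hm).1 hn, hc⟩, ?_, ?_, ?_⟩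
  · rintro ⟨e, o, h1, h2, h3, h4⟩
    obtain ⟨e1, e2, e3⟩ := NF.pol.inj h4
    subst e1
    exact hnd ((R.dead_ij (FC.Pc_eq.1 e3)).2 (dead_of h1))
  · rintro ⟨e, h1, h4⟩
    obtain ⟨e1, e2, e3⟩ := NF.pol.inj h4
    subst e1
    exact hnd ((R.dead_ij (FC.Pc_eq.1 e3)).2 (dead_of (ko_sub_kd h1)))
  · rintro ⟨y', a', n', k, -, -, -, l⟩
    exact hT ((R.t_code k).2 l)

theorem exists_p2 {t1 : NF V1 F1} (h : t1 ∈ C1.pols) : ∃ t ∈ M.Xgt T, M.Pt2 T t1 t := by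
  obtain ⟨y1, a1, n1, rfl, h1, h2, ⟨g, rfl, rfl, rfl⟩⟩ := h
  by_cases hT : T (C.y (M.ph g)) (C.x (M.ph g)) ∨ K.ar (C.y (M.ph g)) (C.x (M.ph g))
  · obtain ⟨y, a, n, k1, k2, k3, k4, k5, k6, k7, k8⟩ := R.tops g ⟨h2, h1⟩ hT
    refine ⟨_, R.p2_g k3 k2 (Relation.EqvGen.refl _) k4 k5 k1, y, a, n, rfl, k3, k2, k5, k1, ?_⟩
    rw [k6, k7, FC.Pc_eq.2 k8]
  · push Not at hT
    obtain ⟨hT, hnx⟩ := hT
    have hx : K.ar (C.x (M.ph g)) (C.y (M.ph g)) := by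
      rcases C.Ex (M.ph g) with k | k
      · exact absurd k hnx
      · exact k
    have hxf : ¬ M.Fl (C.x (M.ph g)) (C.y (M.ph g)) := by
      intro k
      have := k.2
      rw [M.x_ph, M.y_ph] at this
      exact FC.not_both this h2
    rcases M.ar_z_back g h1 with k | k
    · refine ⟨_, R.p2_g hx k (Relation.EqvGen.refl _) (FC.co _) hxf hT, _, _, _, rfl, hx, k, hxf,
        hT, ?_⟩
      rw [M.x_ph, M.y_ph, M.z_ph]
    · have hic : C.IC (C.y (M.ph g)) (C.x (M.ph g)) (C.z (M.ph g)) := ⟨FC.co _, hx, k.1⟩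
      obtain ⟨o, l1, l2, l3⟩ := R.pol ⟨k, fun l => hT (R.T_ic _ _ _ hic.symm' l)⟩
      refine ⟨_, R.p2_g hx l1 (Relation.EqvGen.rel _ _ hic) l3 hxf hT,
        _, o, _, rfl, hx, l1, hxf, hT, ?_⟩
      rw [l2, M.x_ph, M.y_ph, M.z_ph]

theorem p2_eq {t1 t2 : NF V1 F1} {s1 s2 : NF V F} (h1 : M.Pt2 T t1 s1) (h2 : M.Pt2 T t2 s2)
    (h : ∃ g : H, g • s1 = s2) : ∃ g : H, g • t1 = t2 := by
  obtain ⟨g, e⟩ := h
  obtain ⟨y1, a1, n1, rfl, k1, k2, k3, k4, rfl⟩ := h1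
  obtain ⟨y2, a2, n2, rfl, l1, l2, l3, l4, rfl⟩ := h2
  rw [NF.smul_pol, FC.Pc_smul] at e
  obtain ⟨e1, e2, e3⟩ := NF.pol.inj e
  rw [e1] at e3
  have hij := FC.Pc_eq.1 e3
  have m1 : K.ar (g • n1) y2 := by
    rw [← e1]
    exact K.ar_smul g _ _ k1
  have m2 : ¬ M.Fl (g • n1) y2 := by
    rw [← e1]
    exact fun k => k3 k.of_smul
  have m3 : ¬ T y2 (g • n1) := fun k => l4 ((R.T_ij hij).1 k)
  obtain ⟨s, s1, s2, s3⟩ := R.ij_q m3 hij m1 m2 l3
  refine ⟨s * g, ?_⟩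
  rw [NF.smul_pol, FC.Pc_smul, ← M.f_smul, ← M.f_smul, ← M.f_smul, mul_smul, mul_smul, mul_smul,
    e1, e2, s1, s2 a2 l2, FC.Pc_eq.2 s3]

theorem pols1_le : oc H C1.pols ≤ oc H (M.Xgt T) := by
  refine SAF.oc_le_of_rel (SAF.FinOrb.mono Xg_sub C.fin_pols) (M.Pt2 T)
    (fun a ha => R.exists_p2 ha) ?_
  intro a _ b _ a' _ b' _ h1 h2 h
  exact R.p2_eq h1 h2 h

/-- THE FOLD LAW -/
theorem exc_le {D : ℕ} (h7 : M.Slk T D) : C.exc ≤ C1.exc + D := by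
  have h1 := R.strs_le
  have h2 := R.zt_le
  have h3 := kit_le (M := M) (T := T)
  have h4 := R.kd_le
  have h5 := R.ko_le
  have h8 := R.x_le
  have h9 := R.pols1_le
  unfold Slk at h7
  unfold FC.exc
  omega

theorem pols_of_exc {D : ℕ} (h7 : M.Slk T D) (he : C1.exc + D ≤ C.exc) :
    oc H (M.Xgt T) ≤ oc H C1.pols := by
  have h1 := R.strs_le
  have h2 := R.zt_le
  have h3 := kit_le (M := M) (T := T)
  have h4 := R.kd_le
  have h5 := R.ko_le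
  have h8 := R.x_le
  unfold Slk at h7
  unfold FC.exc at he
  omega

omit R in
theorem p2_smul (R : M.Fold T) (g : H) {t : NF V1 F1} {s : NF V F} (h : M.Pt2 T t s) :
    M.Pt2 T (g • t) (g • s) := by
  obtain ⟨y, a, n, rfl, k1, k2, k3, k4, rfl⟩ := h
  refine ⟨g • y, g • a, g • n, ?_, K.ar_smul g _ _ k1, K.ar_smul g _ _ k2,
    fun k => k3 k.of_smul, fun k => k4 (R.T_of_smul k), ?_⟩
  · rw [NF.smul_pol, FC.Pc_smul]
  · rw [NF.smul_pol, FC.Pc_smul, M.f_smul, M.f_smul, M.f_smul]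

theorem xg_inv (g : H) {s : NF V F} (h : s ∈ M.Xgt T) : g • s ∈ M.Xgt T := by
  obtain ⟨h1, h2, h3, h4⟩ := h
  have key : ∀ A : Set (NF V F), (∀ (g : H), ∀ t ∈ A, g • t ∈ A) → s ∉ A → g • s ∉ A := by
    intro A hA hs k
    apply hs
    have := hA g⁻¹ _ k
    rwa [inv_smul_smul] at this
  exact ⟨C.pols_inv g s h1, key _ (fun g t => R.Xa_inv g t) h2,
    key _ (fun g t => R.Xb_inv g t) h3, key _ (fun g t => R.Xt_inv g t) h4⟩

/-- equality: each private pole comes from one orbit outside `T` -/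
theorem pols_inj (he : oc H (M.Xgt T) ≤ oc H C1.pols) {s1 s2 : NF V F} {t1 t2 : NF V1 F1}
    (h1 : s1 ∈ M.Xgt T) (h2 : s2 ∈ M.Xgt T) (k1 : M.Pt2 T t1 s1) (k2 : M.Pt2 T t2 s2)
    (h : ∃ g : H, g • t1 = t2) : ∃ g : H, g • s1 = s2 := by
  classical
  by_contra hne
  have hex : ∀ t : NF V1 F1, ∃ s : NF V F, t ∈ C1.pols → (s ∈ M.Xgt T ∧ M.Pt2 T t s ∧
      ∀ g : H, g • s ≠ s2) := by
    intro t
    by_cases ht : t ∈ C1.pols
    · obtain ⟨s, hs, hr⟩ := R.exists_p2 ht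
      by_cases hm : ∃ g : H, g • s = s2
      · obtain ⟨g, hg⟩ := R.p2_eq hr k2 hm
        obtain ⟨g', hg'⟩ := h
        refine ⟨(g⁻¹ * g') • s1, fun _ => ⟨R.xg_inv _ h1, ?_, ?_⟩⟩
        · have e1 : t = (g⁻¹ * g') • t1 := by rw [mul_smul, hg', ← hg, inv_smul_smul]
          rw [e1]
          exact p2_smul R _ k1
        · intro k hk
          exact hne ⟨k * (g⁻¹ * g'), by rw [mul_smul]; exact hk⟩
      · push Not at hm
        exact ⟨s, fun _ => ⟨hs, hr, hm⟩⟩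
    · exact ⟨s1, fun k => absurd k ht⟩
  choose G hG using hex
  have := SAF.oc_lt_of_inj (H := H) (s := C1.pols) (SAF.FinOrb.mono Xg_sub C.fin_pols) G
    (fun a ha => (hG a ha).1)
    (fun a ha b hb e => R.p2_eq (hG a ha).2.1 (hG b hb).2.1 e) h2 (fun a ha g => (hG a ha).2.2 g)
  omega

/-- (E3): a piece with a pole comes from one orbit of pieces outside `T` with this pole -/
theorem one_part (he : oc H (M.Xgt T) ≤ oc H C1.pols) {y1 a1 n1 m1 y2 a2 n2 m2 : V} (h1 : C.Co m1 y1 a1)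
    (h1m : C.IJ y1 n1 m1) (h1' : K.ar n1 y1) (h1a : K.ar y1 a1) (f1 : ¬ M.Fl n1 y1)
    (T1 : ¬ T y1 n1) (h2 : C.Co m2 y2 a2) (h2m : C.IJ y2 n2 m2) (h2' : K.ar n2 y2)
    (h2a : K.ar y2 a2) (f2 : ¬ M.Fl n2 y2) (T2 : ¬ T y2 n2)
    {g : H} (ey : g • M.f y1 = M.f y2) (ea : g • M.f a1 = M.f a2)
    (en : C1.IJ (M.f y2) (g • M.f n1) (M.f n2)) :
    ∃ k : H, k • y1 = y2 ∧ k • a1 = a2 ∧ C.IJ y2 (k • n1) n2 := by
  obtain ⟨k, hk⟩ := R.pols_inj he (R.p2_g h1' h1a h1m h1 f1 T1) (R.p2_g h2' h2a h2m h2 f2 T2)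
    ⟨y1, a1, n1, rfl, h1', h1a, f1, T1, rfl⟩ ⟨y2, a2, n2, rfl, h2', h2a, f2, T2, rfl⟩
    ⟨g, by rw [NF.smul_pol, FC.Pc_smul, ey, ea, FC.Pc_eq.2 en]⟩
  rw [NF.smul_pol, FC.Pc_smul] at hk
  obtain ⟨e1, e2, e3⟩ := NF.pol.inj hk
  refine ⟨k, e1, e2, ?_⟩
  rw [e1] at e3
  exact FC.Pc_eq.1 e3

end Fold

end FM

end Pool.Agent.DI
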