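import Pool.Agent.DI.QNe
import Pool.Agent.DI.FCg

/-!
# The flags of the dropped squares, folds without reversed arrows

`P45.fl_sq`: the vertices of a flag of a square. `SyQ.not_kp`: the dropped flags of `kfM` belong to squares
with two merged opposite vertices. `NRev`: no arrow is reversed by the fold; `PIq`: the two poles of a vertex
of a square are not merged. `kfM_mer : NRev → PIq → Mer`, so `k0_exc_le : exc (k0) ≤ exc (kf)`, equality: the
results of `FM.Mer`. `nrev_of`: no arrow is reversed if every star with a pole is open.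
-/

namespace Pool.Agent.DI

open MulAction
open Pool.Agent.SAF (InC orbs FinOrb oc)

namespace P45

variable {H V : Type} [Group H] [MulAction H V] {K : GX H V} (P : P45 K) (nd : P.ND)

/-- the vertices of a flag of a square -/
theorem fl_sq {f : FL K} {i : K.I} (hf : f.1.1.1 = i) (hi : P.sq i) : ∃ (h : H) (k : Fin 4),
    (P.fc nd).y f = h • P.qt i (k + 1) ∧
    (((P.fc nd).x f = h • P.qt i k ∧ (P.fc nd).z f = h • P.qt i (k + 2)) ∨
      ((P.fc nd).x f = h • P.qt i (k + 2) ∧ (P.fc nd).z f = h • P.qt i k)) := by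
  subst hf
  obtain ⟨e, b⟩ := f
  obtain ⟨i, hi', j, h, rfl⟩ | ⟨i, hi', j, h, rfl⟩ := P.l_cases e
  · exact absurd hi hi'
  · refine ⟨h, j, P.c1_4 i hi' j h, ?_⟩
    cases b
    · right
      exact ⟨(P.fc_x' nd _).trans (P.c2_4 i hi' j h), (P.fc_z' nd _).trans (P.c0_4 i hi' j h)⟩
    · left
      exact ⟨(P.fc_x nd _).trans (P.c0_4 i hi' j h), (P.fc_z nd _).trans (P.c2_4 i hi' j h)⟩

end P45

namespace SyQ

variable {H V : Type} [Group H] [MulAction H V] (S : SyQ H V)

/-- no arrow is reversed -/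
def NRev (w : S.X) (O : S.OR w) : Prop := ∀ a b, S.SAr w a b →
  S.arQ w O (S.fq w O a) (S.fq w O b)

/-- the poles of a vertex of a square are not merged -/
def PIq (w : S.X) (O : S.OR w) : Prop := ∀ (p : S.C4 w ⊕ S.C4q w) (k : Fin 4),
  S.SAr w (S.vq w p (k + 1)) (S.vq w p k) → S.SAr w (S.vq w p (k + 1)) (S.vq w p (k + 2)) →
  S.fq w O (S.vq w p k) ≠ S.fq w O (S.vq w p (k + 2))

variable {S}

/-- the dropped flags -/
theorem not_kp {hc : S.Conn} {hnb : S.NB} {w : S.X} {O : S.OR w} {hm : (S.k0 hc w).Min}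
    {hn : S.SqN w O} {g : FL (S.k0 hc w)} (hg : ¬ (S.kfM hc hnb w O hm hn).Kp g) :
    ∃ (p : S.C4 w ⊕ S.C4q w) (h : ↥(stabilizer H w)) (k : Fin 4), ¬ S.kept w O p ∧
      (S.k0fc hc hnb w).y g = h • S.vq w p (k + 1) ∧
      (((S.k0fc hc hnb w).x g = h • S.vq w p k ∧ (S.k0fc hc hnb w).z g = h • S.vq w p (k + 2)) ∨
       ((S.k0fc hc hnb w).x g = h • S.vq w p (k + 2) ∧ (S.k0fc hc hnb w).z g = h • S.vq w p k)) := by
  have h1 : ¬ ∀ p, g.1.1.1 = Sum.inr p → S.kept w O p := fun k =>
    hg ((S.kfM_ph hc hnb w O hm hn g).2 k)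
  push Not at h1
  obtain ⟨p, hp, hk⟩ := h1
  obtain ⟨h, k, h2, h3⟩ := (S.k0P hc w).fl_sq (S.k0P_nd hc hnb w) hp ⟨p, rfl⟩
  refine ⟨p, h, k, hk, ?_, ?_⟩
  · rw [← S.k0P_qt hc w]
    exact h2
  · rw [← S.k0P_qt hc w, ← S.k0P_qt hc w]
    exact h3

/-- two opposite vertices of a dropped square are merged -/
theorem not_kept {w : S.X} {O : S.OR w} {p : S.C4 w ⊕ S.C4q w} (h : ¬ S.kept w O p)
    (k : Fin 4) : S.fq w O (S.vq w p k) = S.fq w O (S.vq w p (k + 2)) ∨
      S.fq w O (S.vq w p (k + 1)) = S.fq w O (S.vq w p (k + 3)) := by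
  have h1 : S.fq w O (S.vq w p 0) = S.fq w O (S.vq w p 2) ∨
      S.fq w O (S.vq w p 1) = S.fq w O (S.vq w p 3) := by
    by_contra hcon
    push Not at hcon
    exact h hcon
  fin_cases k
  · exact h1
  · exact (h1.imp Eq.symm id).symm
  · exact h1.imp Eq.symm Eq.symm
  · exact (h1.imp id Eq.symm).symm

/-- the arrows of the raw slice at a square -/
theorem vq_E (hc : S.Conn) (w : S.X) (p : S.C4 w ⊕ S.C4q w) (k : Fin 4) :
    S.SE w (S.vq w p k) (S.vq w p (k + 1)) := by
  have h := (S.k0P hc w).E4 (i := Sum.inr p) ⟨p, rfl⟩ k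
  rw [S.k0P_qt, S.k0P_qt] at h
  exact h

theorem NRev.iff {w : S.X} {O : S.OR w} (hr : S.NRev w O) {a b : S.SV w} (e : S.SE w a b) :
    S.SAr w a b ↔ S.arQ w O (S.fq w O a) (S.fq w O b) := by
  refine ⟨hr a b, fun h => ?_⟩
  rcases e with e | e
  · exact e
  · have h1 := arQ_rk h
    have h2 := arQ_rk (hr b a e)
    omega

/-- a dropped square without merged poles: the merged vertices are both poles or both in-nodes, and the
other two vertices are poles or both in-nodes of them -/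
theorem NRev.drop {w : S.X} {O : S.OR w} (hr : S.NRev w O) (hp : S.PIq w O) (hc : S.Conn)
    {p : S.C4 w ⊕ S.C4q w} (h : ¬ S.kept w O p) (k : Fin 4)
    (hx : S.SAr w (S.vq w p k) (S.vq w p (k + 1))) :
    S.fq w O (S.vq w p k) = S.fq w O (S.vq w p (k + 2)) := by
  rcases not_kept h k with e | e
  · exact e
  · exfalso
    -- `k → k + 1`, so `k → k + 3`, both poles are merged
    have h3 : S.SE w (S.vq w p k) (S.vq w p (k + 3)) := by
      have := (vq_E hc w p (k + 3)).symm
      have e4 : k + 3 + 1 = k := by fin_cases k <;> rfl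
      rwa [e4] at this
    have h1 := hr _ _ hx
    rw [e] at h1
    have h2 := (hr.iff h3).2 h1
    have e1 : k + 3 + 1 = k := by fin_cases k <;> rfl
    have e2 : k + 3 + 2 = k + 1 := by fin_cases k <;> rfl
    have := hp p (k + 3) (by rw [e1]; exact h2) (by rw [e1, e2]; exact hx)
    rw [e2] at this
    exact this e.symm

/-- THE FOLDED SLICE WITHOUT REVERSED ARROWS IS A MERGE -/
theorem kfM_mer {hc : S.Conn} {hnb : S.NB} {w : S.X} {O : S.OR w} {hm : (S.k0 hc w).Min}
    {hn : S.SqN w O} (hr : S.NRev w O) (hp : S.PIq w O) : (S.kfM hc hnb w O hm hn).Mer where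
  ty g h := by
    have h1 := hr _ _ h
    have h2 := (S.kfM hc hnb w O hm hn).y_ph g
    have h3 := (S.kfM hc hnb w O hm hn).z_ph g
    rw [← h2, ← h3]
    exact h1
  ty' g h := by
    have h1 := hr _ _ h
    have h2 := (S.kfM hc hnb w O hm hn).y_ph g
    have h3 := (S.kfM hc hnb w O hm hn).z_ph g
    rw [← h2, ← h3]
    exact h1
  ds e he := by
    by_contra hk
    obtain ⟨p, h, k, hd, h1, h2⟩ := not_kp (hg := hk)
    have sm : ∀ a b, S.SAr w (h • a) (h • b) → S.SAr w a b := by
      intro a b hab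
      have := hab.smul h⁻¹
      rwa [inv_smul_smul, inv_smul_smul] at this
    have a1 : S.SAr w ((S.k0fc hc hnb w).x e) ((S.k0fc hc hnb w).y e) := he.1
    have a2 : S.SAr w ((S.k0fc hc hnb w).y e) ((S.k0fc hc hnb w).z e) := he.2
    have fin : ∀ a b c : S.SV w, S.SAr w a b → S.SAr w b c → S.fq w O a = S.fq w O c → False := by
      intro a b c hab hbc hac
      have k1 := arQ_rk (hr _ _ hab)
      have k2 := arQ_rk (hr _ _ hbc)
      rw [hac] at k1
      omega
    rcases h2 with ⟨h2, h3⟩ | ⟨h2, h3⟩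
    · rw [h1, h2] at a1
      rw [h1, h3] at a2
      exact fin _ _ _ (sm _ _ a1) (sm _ _ a2) (NRev.drop hr hp hc hd k (sm _ _ a1))
    · rw [h1, h2] at a1
      rw [h1, h3] at a2
      -- the same, read in the other direction
      have e2 : k + 2 + 2 = k := by fin_cases k <;> rfl
      have a1 := sm _ _ a1
      have a2 := sm _ _ a2
      rcases not_kept hd k with e | e
      · exact fin _ _ _ a1 a2 e.symm
      · -- `k + 2 → k + 1 = k + 3`
        have h5 : S.SE w (S.vq w p (k + 2)) (S.vq w p (k + 3)) := by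
          have := vq_E hc w p (k + 2)
          rwa [show k + 2 + 1 = k + 3 by fin_cases k <;> rfl] at this
        have h6 := hr _ _ a1
        rw [e] at h6
        have h7 := (hr.iff h5).2 h6
        have h8 := hp p (k + 1) (by
          rw [show k + 1 + 1 = k + 2 by fin_cases k <;> rfl]
          exact a1) (by
          rw [show k + 1 + 1 = k + 2 by fin_cases k <;> rfl,
            show k + 1 + 2 = k + 3 by fin_cases k <;> rfl]
          exact h7)
        rw [show k + 1 + 2 = k + 3 by fin_cases k <;> rfl] at h8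
        exact h8 e
  di e he hk := by
    have hk' : ¬ (S.kfM hc hnb w O hm hn).Kp e := by
      rintro ⟨g, hg⟩
      exact hk g hg
    obtain ⟨p, h, k, hd, h1, h2⟩ := not_kp (hg := hk')
    have sm : ∀ a b, S.SAr w (h • a) (h • b) → S.SAr w a b := by
      intro a b hab
      have := hab.smul h⁻¹
      rwa [inv_smul_smul, inv_smul_smul] at this
    have a1 : S.SAr w ((S.k0fc hc hnb w).x e) ((S.k0fc hc hnb w).y e) := he.1
    have a2 : S.SAr w ((S.k0fc hc hnb w).z e) ((S.k0fc hc hnb w).y e) := he.2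
    have goal : S.fq w O ((S.k0fc hc hnb w).x e) = S.fq w O ((S.k0fc hc hnb w).z e) := by
      rcases h2 with ⟨h2, h3⟩ | ⟨h2, h3⟩
      · rw [h1, h2] at a1
        have := NRev.drop hr hp hc hd k (sm _ _ a1)
        rw [h2, h3, fq_smul, fq_smul, this]
      · rw [h1, h3] at a2
        have := NRev.drop hr hp hc hd k (sm _ _ a2)
        rw [h2, h3, fq_smul, fq_smul, this]
    show (S.kffc hc w O hm hn).IJ _ (S.fq w O _) (S.fq w O _)
    rw [goal]
    exact Relation.EqvGen.refl _

/-- THE EXC-LAW FOR A FOLD WITHOUT REVERSED ARROWS -/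
theorem k0_exc_le {hc : S.Conn} (hnb : S.NB) {w : S.X} {O : S.OR w} (hm : (S.k0 hc w).Min)
    (hr : S.NRev w O) (hp : S.PIq w O) : (S.k0 hc w).pexc ≤ (S.kf hc w O).pexc := by
  have h := (kfM_mer (hc := hc) (hnb := hnb) (hm := hm) (hn := S.sqN hc w O) hr hp).exc_le
  rwa [S.k0fc_exc, S.kffc_exc] at h

/-- no arrow is reversed if every star over `w` with a pole is open -/
theorem nrev_of {w : S.X} {O : S.OR w}
    (ho : ∀ u q x z, w ∈ S.J q → S.K.ar q z → S.Qs w u q x z → O.op u q) : S.NRev w O := by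
  have nsd : ∀ (u : S.EV w) (a : S.SV w), S.Sk w O u a → ∃ u', a = Sum.inr u' := by
    rintro u (q | u') h
    · exfalso
      obtain ⟨h1, h2⟩ := Sk.inl.1 h
      obtain ⟨hw, a, b, hne, ha, hb, hg⟩ := h1.1
      rcases hg.cases with e | ⟨⟨c, h3⟩, -⟩
      · exact hne e
      · exact h2 (ho u.1 q.1 c a hw ha h3.symm')
    · exact ⟨u', rfl⟩
  have ndn : ∀ z x, ¬ S.Dn w O z x := by
    rintro z x ⟨u, s, hu, hc, h1, h2, h3, h4, h5⟩
    by_cases e : z = x
    · subst e
      exact absurd (S.K.ar_rk _ _ h1) (not_lt.2 (S.K.ar_rk _ _ h4).le)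
    · rcases h5.cases with e' | ⟨-, ⟨c, h6⟩⟩
      · exact e e'
      · exact h3.2 (ho u s c x h2 h4 h6.symm')
  rintro a b h
  cases h with
  | hor x s e =>
    have hs : ∀ u, ¬ S.Sk w O u (Sum.inl x) := by
      intro u h
      obtain ⟨u', h'⟩ := nsd u _ h
      cases h'
    have := arQ_term (O := O) x.2 hs (ndn x.1) (sar_hor x.2 s.2 e)
    rw [S.rho_near x.2, S.rho_near s.2] at this
    exact this
  | up x u e =>
    have := arQ_up (O := O) u.2 ⟨x.2, e⟩
    rw [S.rho_near x.2] at this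
    exact this

end SyQ

end Pool.Agent.DI
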