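import Pool.Agent.DI.FCr

/-!
# DI/FCt: the neutral fold of tops, new strands at the tops (owner: helper79)

The law `Flip.exc_le` (DI/FCr) with a weaker condition `ho`: the lost strands at the tops are at most the
private poles at the tops AND the new strands at the tops: `oc Os <= oc Xo + oc NtT`. (A direct corner at a top
with one reversed arrow becomes a strand.) THEOREM `FlipN.exc_le : C.exc ≤ C1.exc`.
The proof is the proof of DI/FCr.
-/

namespace Pool.Agent.DI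

open MulAction
open Pool.Agent.SAF (InC orbs FinOrb oc mk_eq_iff FinOrb_iff)

namespace FM

variable {H V F V1 F1 : Type} [Group H] [MulAction H V] [MulAction H F] [MulAction H V1]
    [MulAction H F1] {K : GX H V} {K1 : GX H V1} {C : FC K F} {C1 : FC K1 F1} (M : FM C C1)

/-- new strands at the tops -/
def NtT : Set F1 := {g | g ∈ C1.strs ∧ M.ph g ∉ C.strs ∧ M.Tp (C.y (M.ph g))}

/-- THE NEUTRAL FOLD -/
structure FlipN : Prop where
  pinj : ∀ p a b, K.ar p a → K.ar p b → M.f a = M.f b → a = b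
  zex : ∀ k p, M.Fl k p → ∃ e, ¬ M.Kp e ∧ C.x e = k ∧ C.y e = p
  zp : ∀ e, ¬ M.Kp e → M.Fl (C.x e) (C.y e) → K.ar (C.y e) (C.z e) ∧ M.f (C.z e) = M.f (C.x e)
  zu : ∀ e e', ¬ M.Kp e → ¬ M.Kp e' → M.Fl (C.x e) (C.y e) → C.x e = C.x e' → C.y e = C.y e' →
    ∃ h : H, h • e = e'
  kex : ∀ k p, M.Fl k p → ∃ e, M.Kp e ∧ C.x e = k ∧ C.y e = p
  ku : ∀ e e', M.Kp e → M.Kp e' → M.Fl (C.x e) (C.y e) → C.x e = C.x e' → C.y e = C.y e' →
    ∃ h : H, h • e = e'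
  nb : ∀ g, C1.x g ≠ C1.z g
  nt : ∀ k p, M.Fl k p → ¬ M.Tp p
  tops : ∀ g ∈ C1.strs, M.Tp (C.y (M.ph g)) → ∃ y a n, ¬ M.Tp y ∧ K.ar y a ∧ K.ar n y ∧
    C.Co n y a ∧ ¬ M.Fl n y ∧ M.f y = C1.y g ∧ M.f a = C1.z g ∧ C1.IJ (C1.y g) (M.f n) (C1.x g)
  ho : oc H M.Os ≤ oc H M.Xo + oc H M.NtT
  di : ∀ e ∈ C.fin2, ¬ M.Kp e → ¬ M.Tp (C.y e) →
    C1.IJ (M.f (C.y e)) (M.f (C.x e)) (M.f (C.z e))

namespace FlipN

variable {M} (R : M.FlipN)
include R

/-- the pole to which a reversed node is folded -/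
theorem pol {k p : V} (h : M.Fl k p) : ∃ o, K.ar p o ∧ M.f o = M.f k ∧ C.Co k p o := by
  obtain ⟨e, he, rfl, rfl⟩ := R.zex k p h
  obtain ⟨h1, h2⟩ := R.zp e he h
  exact ⟨C.z e, h1, h2, FC.co e⟩

/-- an element which fixes a reversed arrow fixes the poles -/
theorem fix {k p : V} (h : M.Fl k p) {s : H} (sk : s • k = k) (sp : s • p = p) :
    ∀ a, K.ar p a → s • a = a := by
  obtain ⟨o, ho, fo, -⟩ := R.pol h
  have so : s • o = o := by
    apply R.pinj p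
    · have := K.ar_smul s _ _ ho
      rwa [sp] at this
    · exact ho
    · rw [M.f_smul, fo, ← M.f_smul, sk]
  intro a ha
  have sa : K.ar p (s • a) := by
    have := K.ar_smul s _ _ ha
    rwa [sp] at this
  by_cases hao : a = o
  · rw [hao, so]
  · rcases K.two p a (s • a) o ha sa ho with e | e | e
    · exact e.symm
    · exfalso
      apply hao
      have : s • a = s • o := by rw [e, so]
      exact smul_left_cancel s this
    · exact absurd e hao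

/-- a dead node: reversed, its kept corners go to a pole or to a reversed node -/
def Dd (M : FM C C1) (y a : V) : Prop := M.Fl a y ∧ ∃ e, M.Kp e ∧ C.x e = a ∧ C.y e = y ∧
  (K.ar (C.y e) (C.z e) ∨ M.Fl (C.z e) (C.y e))

omit R in
theorem Dd.smul {y a : V} (g : H) (h : Dd M y a) : Dd M (g • y) (g • a) := by
  obtain ⟨h1, e, h2, rfl, rfl, h5⟩ := h
  refine ⟨h1.smul g, g • e, h2.smul g, C.x_smul g e, C.y_smul g e, ?_⟩
  rw [C.y_smul, C.z_smul]
  exact h5.imp (fun k => K.ar_smul g _ _ k) (fun k => k.smul g)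

/-- all kept flags at a dead node are dead -/
theorem Dd.all {y a : V} (h : Dd M y a) {e : F} (hk : M.Kp e) (hx : C.x e = a)
    (hy : C.y e = y) : K.ar (C.y e) (C.z e) ∨ M.Fl (C.z e) (C.y e) := by
  obtain ⟨h1, e', h2, h3, h4, h5⟩ := h
  obtain ⟨g, rfl⟩ := R.ku e' e h2 hk (by rw [h3, h4]; exact h1) (by rw [h3, hx])
    (by rw [h4, hy])
  rw [C.y_smul, C.z_smul]
  exact h5.imp (fun k => K.ar_smul g _ _ k) (fun k => k.smul g)

/-- a corner between in-arrows at a reversed node is kept -/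
theorem kept {y a b : V} (h : M.Fl a y) {e : F} (h1 : C.x e = a) (h2 : C.y e = y)
    (h3 : C.z e = b) (hb : K.ar b y) : M.Kp e := by
  by_contra hk
  have := (R.zp e hk (by rw [h1, h2]; exact h)).1
  rw [h2, h3] at this
  exact FC.not_both this hb

/-- dead nodes are connected with dead nodes only -/
theorem dead_ic {y a b : V} (h : C.IC y a b) (ha : Dd M y a) : Dd M y b := by
  obtain ⟨⟨e, h1, h2, h3⟩, h4, h5⟩ := h
  have hk := R.kept ha.1 h1 h2 h3 h5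
  have hb : M.Fl (C.z e) (C.y e) := by
    rcases Dd.all R ha hk h1 h2 with k | k
    · rw [h2, h3] at k
      exact absurd h5 (FC.not_both k)
    · exact k
  refine ⟨by rw [← h3, ← h2]; exact hb, C.v e, hk.v, ?_, ?_, ?_⟩
  · rw [C.xv, h3]
  · rw [C.yv, h2]
  · right
    rw [C.zv, C.yv, h1, h2]
    exact ha.1

theorem dead_ij {y a b : V} (h : C.IJ y a b) : Dd M y a ↔ Dd M y b := by
  induction h with
  | rel a b h => exact ⟨R.dead_ic h, R.dead_ic h.symm'⟩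
  | refl a => exact Iff.rfl
  | symm a b _ ih => exact ih.symm
  | trans a b c _ _ ih1 ih2 => exact ih1.trans ih2

/-- the kept flags at the dead nodes of one piece -/
theorem dead_flags {y a b : V} (h : C.IJ y a b) (ha : Dd M y a) {e e' : F} (he : M.Kp e)
    (he' : M.Kp e') (h1 : C.x e = a) (h2 : C.y e = y) (h1' : C.x e' = b) (h2' : C.y e' = y) :
    (M.f a = M.f b ∧ ∃ g : H, g • e = e') ∨ (M.f a ≠ M.f b ∧ ∃ g : H, g • e = C.v e') := by
  induction h generalizing e e' with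
  | rel a b h =>
    obtain ⟨⟨d, k1, k2, k3⟩, k4, k5⟩ := h
    have hd := R.kept ha.1 k1 k2 k3 k5
    right
    constructor
    · obtain ⟨g, rfl⟩ := hd
      have := R.nb g
      rw [← M.x_ph, ← M.z_ph, k1, k3] at this
      exact this
    · obtain ⟨g, hg⟩ := R.ku e d he hd (by rw [h1, h2]; exact ha.1) (by rw [h1, k1])
        (by rw [h2, k2])
      have hb : Dd M y b := R.dead_ic ⟨⟨d, k1, k2, k3⟩, k4, k5⟩ ha
      obtain ⟨g', hg'⟩ := R.ku (C.v d) e' hd.v he' (by rw [C.xv, C.yv, k3, k2]; exact hb.1)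
        (by rw [C.xv, h1', k3]) (by rw [C.yv, h2', k2])
      refine ⟨g' * g, ?_⟩
      rw [mul_smul, hg, ← hg', C.v_smul, C.vv]
  | refl a =>
    left
    exact ⟨rfl, R.ku e e' he he' (by rw [h1, h2]; exact ha.1) (by rw [h1, h1'])
      (by rw [h2, h2'])⟩
  | symm a b h ih =>
    have hb : Dd M y a := (R.dead_ij h).2 ha
    rcases ih hb he' he h1' h2' h1 h2 with ⟨k1, g, k2⟩ | ⟨k1, g, k2⟩
    · left
      exact ⟨k1.symm, g⁻¹, by rw [← k2, inv_smul_smul]⟩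
    · right
      refine ⟨k1.symm, g⁻¹, ?_⟩
      have : e = C.v (g • e') := by rw [k2, C.vv]
      rw [this, ← C.v_smul, inv_smul_smul]
  | trans a b c hab hbc ih1 ih2 =>
    have hb : Dd M y b := (R.dead_ij hab).1 ha
    have hc : Dd M y c := (R.dead_ij hbc).1 hb
    obtain ⟨d, hd, d1, d2⟩ := R.kex b y hb.1
    rcases ih1 ha he hd h1 h2 d1 d2 with ⟨k1, g, k2⟩ | ⟨k1, g, k2⟩ <;>
    rcases ih2 hb hd he' d1 d2 h1' h2' with ⟨l1, g', l2⟩ | ⟨l1, g', l2⟩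
    · left
      exact ⟨k1.trans l1, g' * g, by rw [mul_smul, k2, l2]⟩
    · right
      refine ⟨by rw [k1]; exact l1, g' * g, by rw [mul_smul, k2, l2]⟩
    · right
      refine ⟨by rw [← l1]; exact k1, g' * g, ?_⟩
      rw [mul_smul, k2, ← C.v_smul, l2]
    · left
      constructor
      · obtain ⟨o1, p1, q1, -⟩ := R.pol ha.1
        obtain ⟨o2, p2, q2, -⟩ := R.pol hb.1
        obtain ⟨o3, p3, q3, -⟩ := R.pol hc.1
        rw [← q1, ← q3]
        rw [← q1, ← q2] at k1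
        rw [← q2, ← q3] at l1
        rcases K.two y o1 o2 o3 p1 p2 p3 with e | e | e
        · exact absurd (congrArg M.f e) k1
        · exact absurd (congrArg M.f e) l1
        · rw [e]
      · refine ⟨g' * g, ?_⟩
        rw [mul_smul, k2, ← C.v_smul, l2, C.vv]

/-! ### the images of the pieces -/

/-- `b` is the node `a`, or the other end of a kept corner at the reversed node `a` -/
def At (M : FM C C1) (y a b : V) : Prop := K.ar b y ∧ ¬ M.Fl b y ∧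
  ((¬ M.Fl a y ∧ b = a) ∨ (M.Fl a y ∧ ∃ e, M.Kp e ∧ C.x e = a ∧ C.y e = y ∧ C.z e = b))

/-- equal up to an element fixing the vertex and its poles -/
def Qr (M : FM C C1) (y a b : V) : Prop := ∃ s : H, s • y = y ∧ (∀ c, K.ar y c → s • c = c) ∧
  C1.IJ (M.f y) (M.f (s • a)) (M.f b)

omit R in
theorem Qr.rfl' {y a : V} : Qr M y a a :=
  ⟨1, one_smul _ _, fun c _ => one_smul _ c, by rw [one_smul]; exact Relation.EqvGen.refl _⟩

omit R in
theorem Qr.symm {y a b : V} (h : Qr M y a b) : Qr M y b a := by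
  obtain ⟨s, h1, h2, h3⟩ := h
  refine ⟨s⁻¹, ?_, ?_, ?_⟩
  · rw [inv_smul_eq_iff, h1]
  · intro c hc
    rw [inv_smul_eq_iff, h2 c hc]
  · have := (FC.IJ.smul s⁻¹ h3).symm'
    rw [← M.f_smul, ← M.f_smul, ← M.f_smul, inv_smul_smul] at this
    rwa [show s⁻¹ • y = y by rw [inv_smul_eq_iff, h1]] at this

omit R in
theorem Qr.trans {y a b c : V} (h : Qr M y a b) (h' : Qr M y b c) : Qr M y a c := by
  obtain ⟨s, h1, h2, h3⟩ := h
  obtain ⟨t, k1, k2, k3⟩ := h'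
  refine ⟨t * s, ?_, ?_, ?_⟩
  · rw [mul_smul, h1, k1]
  · intro c hc
    rw [mul_smul, h2 c hc, k2 c hc]
  · have := FC.IJ.smul t h3
    rw [← M.f_smul, ← M.f_smul, ← M.f_smul, k1, ← mul_smul] at this
    exact this.trans _ _ _ k3

omit R in
theorem Qr.of_ij {y a b : V} (h : C1.IJ (M.f y) (M.f a) (M.f b)) : Qr M y a b :=
  ⟨1, one_smul _ _, fun c _ => one_smul _ c, by rw [one_smul]; exact h⟩

/-- two ends at the same node -/
theorem at_same {y a b b' : V} (h : At M y a b) (h' : At M y a b') : Qr M y b b' := by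
  rcases h.2.2 with ⟨k, rfl⟩ | ⟨k, e, k1, k2, k3, rfl⟩ <;>
  rcases h'.2.2 with ⟨l, rfl⟩ | ⟨l, e', l1, l2, l3, rfl⟩
  · exact Qr.rfl'
  · exact absurd l k
  · exact absurd k l
  · obtain ⟨s, rfl⟩ := R.ku e e' k1 l1 (by rw [k2, k3]; exact k) (by rw [k2, l2])
      (by rw [k3, l3])
    rw [C.x_smul, k2] at l2
    rw [C.y_smul, k3] at l3
    refine ⟨s, l3, R.fix k l2 l3, ?_⟩
    rw [C.z_smul]
    exact Relation.EqvGen.refl _

theorem at_ic {y a b a' b' : V} (hT : ¬ M.Tp y) (h : C.IC y a b) (ha : At M y a a')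
    (hb : At M y b b') : Qr M y a' b' := by
  obtain ⟨⟨e, h1, h2, h3⟩, h4, h5⟩ := id h
  by_cases fa : M.Fl a y
  · -- the corner is kept
    have hk := R.kept fa h1 h2 h3 h5
    by_cases fb : M.Fl b y
    · -- both are dead
      exfalso
      have hd : Dd M y a := ⟨fa, e, hk, h1, h2, Or.inr (by rw [h3, h2]; exact fb)⟩
      rcases ha.2.2 with ⟨k, -⟩ | ⟨-, e', k1, k2, k3, k4⟩
      · exact k fa
      · rcases Dd.all R hd k1 k2 k3 with l | l
        · rw [k3, k4] at l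
          exact FC.not_both l ha.1
        · rw [k3, k4] at l
          exact ha.2.1 l
    · -- `b' = b` and `b` is attached to `a`
      rcases hb.2.2 with ⟨-, rfl⟩ | ⟨k, -⟩
      · exact R.at_same ha ⟨h5, fb, Or.inr ⟨fa, e, hk, h1, h2, h3⟩⟩
      · exact absurd k fb
  · by_cases fb : M.Fl b y
    · have hk := R.kept fb (e := C.v e) (by rw [C.xv, h3]) (by rw [C.yv, h2]) (by rw [C.zv, h1]) h4
      rcases ha.2.2 with ⟨-, rfl⟩ | ⟨k, -⟩
      · refine R.at_same ⟨h4, fa, Or.inr ⟨fb, C.v e, hk, ?_, ?_, ?_⟩⟩ hb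
        · rw [C.xv, h3]
        · rw [C.yv, h2]
        · rw [C.zv, h1]
      · exact absurd k fa
    · rcases ha.2.2 with ⟨-, rfl⟩ | ⟨k, -⟩
      · rcases hb.2.2 with ⟨-, rfl⟩ | ⟨k, -⟩
        · apply Qr.of_ij
          by_cases hk : M.Kp e
          · obtain ⟨g, rfl⟩ := hk
            have k1 : K1.ar (C1.x g) (C1.y g) := by
              rcases M.ar_x_or g (by rw [h1, h2]; exact h4) with k | k
              · exact k
              · rw [h1, h2] at k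
                exact absurd k fa
            have k2 : K1.ar (C1.z g) (C1.y g) := by
              rcases M.ar_z_or' g (by rw [h3, h2]; exact h5) with k | k
              · exact k
              · rw [h3, h2] at k
                exact absurd k fb
            rw [← h1, ← h2, ← h3, M.x_ph, M.y_ph, M.z_ph]
            exact Relation.EqvGen.rel _ _ ⟨FC.co g, k1, k2⟩
          · have := R.di e ⟨by rw [h1, h2]; exact h4, by rw [h3, h2]; exact h5⟩ hk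
              (by rw [h2]; exact hT)
            rwa [h1, h2, h3] at this
        · exact absurd k fb
      · exact absurd k fa

/-- a node has an end unless it is dead -/
theorem exists_at {y a : V} (ha : K.ar a y) (hd : ¬ Dd M y a) : ∃ b, At M y a b := by
  by_cases fa : M.Fl a y
  · obtain ⟨e, he, h1, h2⟩ := R.kex a y fa
    have h3 : ¬ K.ar y (C.z e) := fun k => hd ⟨fa, e, he, h1, h2, Or.inl (by rw [h2]; exact k)⟩
    have h4 : ¬ M.Fl (C.z e) y := fun k => hd ⟨fa, e, he, h1, h2, Or.inr (by rw [h2]; exact k)⟩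
    refine ⟨C.z e, ?_, h4, Or.inr ⟨fa, e, he, h1, h2, rfl⟩⟩
    rcases C.Ez e with k | k
    · rw [h2] at k
      exact absurd k h3
    · rwa [h2] at k
  · exact ⟨a, ha, fa, Or.inl ⟨fa, rfl⟩⟩

omit R in
theorem not_dead_of_not_fl {y a : V} (h : ¬ M.Fl a y) : ¬ Dd M y a := fun k => h k.1

theorem not_dead_of_at {y a b : V} (h : At M y a b) : ¬ Dd M y a := by
  intro hd
  rcases h.2.2 with ⟨k, -⟩ | ⟨-, e', k1, k2, k3, k4⟩
  · exact k hd.1
  · rcases Dd.all R hd k1 k2 k3 with l | l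
    · rw [k3, k4] at l
      exact FC.not_both l h.1
    · rw [k3, k4] at l
      exact h.2.1 l

/-- THE PIECES OF THE QUOTIENT -/
theorem at_ij {y a b a' b' : V} (hT : ¬ M.Tp y) (h : C.IJ y a b) (hya : K.ar a y)
    (ha : At M y a a') (hb : At M y b b') : Qr M y a' b' := by
  induction h generalizing a' b' with
  | rel a b h => exact R.at_ic hT h ha hb
  | refl a => exact R.at_same ha hb
  | symm a b h ih => exact (ih ((FC.IJ.ar h).2 hya) hb ha).symm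
  | trans a b c hab hbc ih1 ih2 =>
    have hyb : K.ar b y := (FC.IJ.ar hab).1 hya
    have hnd : ¬ Dd M y b := fun k => R.not_dead_of_at ha ((R.dead_ij hab).2 k)
    obtain ⟨d, hd⟩ := R.exists_at hyb hnd
    exact (ih1 hya ha hd).trans (ih2 hyb hd hb)

/-- nodes which are not reversed -/
theorem ij_q {y a b : V} (hT : ¬ M.Tp y) (h : C.IJ y a b) (hya : K.ar a y) (ha : ¬ M.Fl a y)
    (hb : ¬ M.Fl b y) : Qr M y a b :=
  R.at_ij hT h hya ⟨hya, ha, Or.inl ⟨ha, rfl⟩⟩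
    ⟨(FC.IJ.ar h).1 hya, hb, Or.inl ⟨hb, rfl⟩⟩

end FlipN

namespace FlipN

variable {M} (R : M.FlipN)
include R

theorem zs_le : oc H M.Zs ≤ oc H M.Kd + oc H M.Ki := by
  have h1 : oc H M.Zs ≤ oc H (M.Kd ∪ M.Ki) := by
    refine SAF.oc_le_of_rel (C.fin_sub _)
      (fun e e' => C.x e = C.x e' ∧ C.y e = C.y e' ∧ M.Kp e') ?_ ?_
    · rintro e ⟨-, -, hf⟩
      obtain ⟨e', h1, h2, h3⟩ := R.kex _ _ hf
      refine ⟨e', ?_, h2.symm, h3.symm, h1⟩
      by_cases hd : K.ar (C.y e') (C.z e') ∨ M.Fl (C.z e') (C.y e')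
      · exact Or.inl ⟨h1, by rw [h2, h3]; exact hf, hd⟩
      · push Not at hd
        refine Or.inr ⟨h1, by rw [h2, h3]; exact hf, ?_, hd.2⟩
        rcases C.Ez e' with k | k
        · exact absurd k hd.1
        · exact k
    · rintro a ⟨-, a1, a2⟩ b ⟨-, b1, b2⟩ a' - b' - ⟨h1, h2, h3⟩ ⟨k1, k2, k3⟩ ⟨g, rfl⟩
      rw [C.x_smul, ← h1, ← C.x_smul] at k1
      rw [C.y_smul, ← h2, ← C.y_smul] at k2
      obtain ⟨g', hg'⟩ := R.zu b (g • a) b1 (fun k => a1 k.of_smul) b2 k1 k2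
      refine ⟨g'⁻¹ * g, ?_⟩
      rw [mul_smul, ← hg', inv_smul_smul]
  exact h1.trans (oc_union_le _ _)

/-- new strands at the other vertices and at the tops -/
theorem ki_nt_le : oc H M.Ki + oc H M.NtT ≤ oc H M.Ns := by
  have hs := oc_split (C1.fin_sub M.Ns) (fun g => ¬ M.Tp (C.y (M.ph g))) (by
    intro h g _ _ k l
    rw [M.ph_smul, C.y_smul] at l
    exact k l.of_smul)
  have e : {g | g ∈ M.Ns ∧ ¬ ¬ M.Tp (C.y (M.ph g))} = M.NtT := by
    ext g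
    constructor
    · rintro ⟨⟨h1, h2⟩, h3⟩
      exact ⟨h1, h2, not_not.1 h3⟩
    · rintro ⟨h1, h2, h3⟩
      exact ⟨⟨h1, h2⟩, not_not.2 h3⟩
  rw [e] at hs
  have h : oc H M.Ki ≤ oc H {g | g ∈ M.Ns ∧ ¬ M.Tp (C.y (M.ph g))} := by
    refine SAF.oc_le_of_rel (C1.fin_sub _) (fun e g => M.ph g = C.v e) ?_ ?_
    · rintro e ⟨h1, h2, h3, h4⟩
      obtain ⟨g, hg⟩ := h1.v
      refine ⟨g, ⟨⟨⟨?_, ?_⟩, ?_⟩, ?_⟩, hg⟩
      · rcases M.ar_x_or g (by rw [hg, C.xv, C.yv]; exact h3) with k | k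
        · exact k
        · rw [hg, C.xv, C.yv] at k
          exact absurd k h4
      · have := h2.2
        rw [← C.yv e, ← C.zv e, ← hg, M.y_ph, M.z_ph] at this
        exact this
      · rw [hg]
        intro hs
        have := hs.2
        rw [C.zv, C.yv] at this
        exact FC.not_both this h2.1
      · rw [hg, C.yv]
        exact R.nt _ _ h2
    · rintro a - b - a' - b' - h1 h2 ⟨g, rfl⟩
      refine ⟨g, C.v_inj ?_⟩
      rw [C.v_smul, ← h1, ← h2, M.ph_smul]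
  omega

end FlipN

namespace FlipN

variable {M} (R : M.FlipN)
include R

theorem Xa_sub : M.Xa ⊆ C.pols := by
  rintro _ ⟨e, o, ⟨h1, h2, h3⟩, h4, h5, rfl⟩
  obtain ⟨o', k1, k2, k3⟩ := R.pol h2
  have : o = o' := R.pinj _ _ _ h4 k1 (by rw [h5, k2])
  subst this
  exact ⟨C.y e, o, C.x e, rfl, h4, h2.1, k3⟩

omit R in
theorem Xb_sub : M.Xb ⊆ C.pols := by
  rintro _ ⟨e, ⟨h1, h2, h3⟩, rfl⟩
  exact ⟨C.y e, C.z e, C.x e, rfl, h3, h2.1, FC.co e⟩

omit R in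
theorem Xe_sub : M.Xe ⊆ C.pols := by
  rintro _ ⟨y, a, n, rfl, h1, h2, h3, h4⟩
  exact ⟨y, a, n, rfl, h2, h1, h3⟩

omit R in
theorem Xo_sub : M.Xo ⊆ C.pols := by
  rintro _ ⟨y, a, n, rfl, h1, h2, h3, h4⟩
  exact ⟨y, a, n, rfl, h2, h1, h3⟩

omit R in
theorem Xg_sub : M.Xg ⊆ C.pols := fun _ h => h.1

omit R in
theorem dead_of {e : F} (h : e ∈ M.Kd) : Dd M (C.y e) (C.x e) :=
  ⟨h.2.1, e, h.1, rfl, rfl, h.2.2⟩

theorem kd_le : oc H M.Kd ≤ oc H M.Xa := by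
  refine SAF.oc_le_of_rel (SAF.FinOrb.mono R.Xa_sub C.fin_pols)
    (fun e t => ∃ o, K.ar (C.y e) o ∧ M.f o = M.f (C.x e) ∧
      t = NF.pol (C.y e) o (C.Pc (C.y e) (C.x e))) ?_ ?_
  · intro e he
    obtain ⟨o, h1, h2, -⟩ := R.pol he.2.1
    exact ⟨_, ⟨e, o, he, h1, h2, rfl⟩, o, h1, h2, rfl⟩
  · rintro a ha b hb _ - _ - ⟨o, h1, h2, rfl⟩ ⟨o', k1, k2, rfl⟩ ⟨g, e⟩
    rw [NF.smul_pol, FC.Pc_smul] at e
    obtain ⟨e1, e2, e3⟩ := NF.pol.inj e
    rw [e1] at e3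
    have hij := FC.Pc_eq.1 e3
    have hga := M.Kd_inv g ha
    have hd : Dd M (C.y b) (g • C.x a) := by
      have := dead_of hga
      rwa [C.y_smul, C.x_smul, e1] at this
    have hff : M.f (g • C.x a) = M.f (C.x b) := by
      rw [M.f_smul, ← h2, ← M.f_smul, e2, k2]
    rcases R.dead_flags hij hd hga.1 hb.1 (C.x_smul g a) (by rw [C.y_smul, e1]) rfl rfl with
      ⟨-, g', h⟩ | ⟨h, -⟩
    · exact ⟨g' * g, by rw [mul_smul, h]⟩
    · exact absurd hff h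

omit R in
theorem ko_sub_kd {e : F} (h : e ∈ M.Ko) : e ∈ M.Kd := ⟨h.1, h.2.1, Or.inl h.2.2⟩

theorem ko_le : oc H M.Ko ≤ oc H M.Xb := by
  refine SAF.oc_le_of_rel (SAF.FinOrb.mono Xb_sub C.fin_pols)
    (fun e t => t = NF.pol (C.y e) (C.z e) (C.Pc (C.y e) (C.x e))) ?_ ?_
  · intro e he
    exact ⟨_, ⟨e, he, rfl⟩, rfl⟩
  · rintro a ha b hb _ - _ - rfl rfl ⟨g, e⟩
    rw [NF.smul_pol, FC.Pc_smul] at e
    obtain ⟨e1, e2, e3⟩ := NF.pol.inj e
    rw [e1] at e3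
    have hij := FC.Pc_eq.1 e3
    have hga := M.Ko_inv g ha
    have hd : Dd M (C.y b) (g • C.x a) := by
      have := dead_of (ko_sub_kd hga)
      rwa [C.y_smul, C.x_smul, e1] at this
    rcases R.dead_flags hij hd hga.1 hb.1 (C.x_smul g a) (by rw [C.y_smul, e1]) rfl rfl with
      ⟨-, g', h⟩ | ⟨-, g', h⟩
    · exact ⟨g' * g, by rw [mul_smul, h]⟩
    · exfalso
      have k1 : K.ar (C.x (C.v b)) (C.y (C.v b)) := by
        rw [← h, C.x_smul, C.y_smul, C.x_smul, C.y_smul]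
        exact K.ar_smul _ _ _ (K.ar_smul _ _ _ ha.2.1.1)
      rw [C.xv, C.yv] at k1
      exact FC.not_both hb.2.2 k1

theorem es_le : oc H M.Es ≤ oc H M.Xe := by
  refine SAF.oc_le_of_rel (SAF.FinOrb.mono Xe_sub C.fin_pols)
    (fun e t => t = NF.pol (C.y e) (C.z e) (C.Pc (C.y e) (C.x e))) ?_ ?_
  · rintro e ⟨h1, h2, h3⟩
    exact ⟨_, ⟨C.y e, C.z e, C.x e, rfl, h1.1, h1.2, FC.co e, h3⟩, rfl⟩
  · rintro a ha b hb _ - _ - rfl rfl ⟨g, e⟩
    rw [NF.smul_pol, FC.Pc_smul] at e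
    obtain ⟨e1, e2, e3⟩ := NF.pol.inj e
    obtain ⟨g', h⟩ := R.ku (C.r (g • a)) (C.r b) (ha.2.1.smul g).r hb.2.1.r
      (by
        show M.Fl (C.x (C.r (g • a))) (C.z (g • a))
        rw [C.xr, C.y_smul, C.z_smul]
        exact ha.2.2.smul g)
      (by rw [C.xr, C.xr, C.y_smul, e1])
      (by
        show C.z (g • a) = C.z b
        rw [C.z_smul, e2])
    refine ⟨g' * g, C.r_inj ?_⟩
    rw [mul_smul, C.r_smul, h]

/-- the private poles at reversed vertices -/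
theorem dj_ab : Dj H M.Xa M.Xb := by
  refine Dj.of_inv (fun g t ht => M.Xa_inv g t ht) ?_
  rintro _ ⟨e, o, h1, h2, h3, rfl⟩ ⟨e', k1, k2⟩
  obtain ⟨e1, e2, e3⟩ := NF.pol.inj k2
  rw [← e1] at e3
  have hij := FC.Pc_eq.1 e3
  obtain ⟨g', hg'⟩ := k1.1
  have hne : M.f (C.x e') ≠ M.f (C.z e') := by
    rw [← hg', M.x_ph, M.z_ph]
    exact R.nb g'
  rcases R.dead_flags hij (dead_of h1) h1.1 k1.1 rfl rfl rfl e1.symm with ⟨l, -⟩ | ⟨-, g, l⟩
  · apply hne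
    rw [← l, ← h3, e2]
  · have k3 : K.ar (C.x (C.v e')) (C.y (C.v e')) := by
      rw [← l, C.x_smul, C.y_smul]
      exact K.ar_smul _ _ _ h1.2.1.1
    rw [C.xv, C.yv] at k3
    exact FC.not_both k1.2.2 k3

omit R in
theorem tp_xe {t : NF V F} (h : t ∈ M.Xe) : ∃ y a P, t = NF.pol y a P ∧ M.Tp y := by
  obtain ⟨y, a, n, rfl, -, -, -, h4⟩ := h
  exact ⟨y, a, _, rfl, a, h4⟩

omit R in
theorem tp_xo {t : NF V F} (h : t ∈ M.Xo) : ∃ y a P, t = NF.pol y a P ∧ M.Tp y := by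
  obtain ⟨y, a, n, rfl, -, -, -, h4, -⟩ := h
  exact ⟨y, a, _, rfl, h4⟩

theorem ntp_xa {t : NF V F} (h : t ∈ M.Xa) : ∀ y a P, t = NF.pol y a P → ¬ M.Tp y := by
  obtain ⟨e, o, h1, h2, h3, rfl⟩ := h
  intro y a P k
  obtain ⟨rfl, -, -⟩ := NF.pol.inj k
  exact R.nt _ _ h1.2.1

theorem ntp_xb {t : NF V F} (h : t ∈ M.Xb) : ∀ y a P, t = NF.pol y a P → ¬ M.Tp y := by
  obtain ⟨e, h1, rfl⟩ := h
  intro y a P k
  obtain ⟨rfl, -, -⟩ := NF.pol.inj k
  exact R.nt _ _ h1.2.1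

theorem dj_ae : Dj H M.Xa M.Xe := by
  refine Dj.of_inv (fun g t ht => M.Xa_inv g t ht) ?_
  intro t h k
  obtain ⟨y, a, P, rfl, h4⟩ := tp_xe k
  exact R.ntp_xa h _ _ _ rfl h4

theorem dj_ao : Dj H M.Xa M.Xo := by
  refine Dj.of_inv (fun g t ht => M.Xa_inv g t ht) ?_
  intro t h k
  obtain ⟨y, a, P, rfl, h4⟩ := tp_xo k
  exact R.ntp_xa h _ _ _ rfl h4

theorem dj_be : Dj H M.Xb M.Xe := by
  refine Dj.of_inv (fun g t ht => M.Xb_inv g t ht) ?_
  intro t h k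
  obtain ⟨y, a, P, rfl, h4⟩ := tp_xe k
  exact R.ntp_xb h _ _ _ rfl h4

theorem dj_bo : Dj H M.Xb M.Xo := by
  refine Dj.of_inv (fun g t ht => M.Xb_inv g t ht) ?_
  intro t h k
  obtain ⟨y, a, P, rfl, h4⟩ := tp_xo k
  exact R.ntp_xb h _ _ _ rfl h4

omit R in
theorem dj_eo : Dj H M.Xe M.Xo := by
  refine Dj.of_inv (fun g t ht => M.Xe_inv g t ht) ?_
  rintro t ⟨y, a, n, rfl, -, -, -, h4⟩ ⟨y', a', n', k, -, -, -, -, l⟩
  obtain ⟨rfl, rfl, -⟩ := NF.pol.inj k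
  exact l h4

theorem x_le : oc H M.Xa + oc H M.Xb + oc H M.Xe + oc H M.Xo + oc H M.Xg ≤ oc H C.pols := by
  have f {A : Set (NF V F)} (h : A ⊆ C.pols) : FinOrb H A := SAF.FinOrb.mono h C.fin_pols
  have h1 := oc_union R.dj_ab (f R.Xa_sub) (f Xb_sub)
  have s1 : M.Xa ∪ M.Xb ⊆ C.pols := Set.union_subset R.Xa_sub Xb_sub
  have h2 := oc_union (R.dj_ae.union R.dj_be) (f s1) (f Xe_sub)
  have s2 : (M.Xa ∪ M.Xb) ∪ M.Xe ⊆ C.pols := Set.union_subset s1 Xe_sub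
  have h3 := oc_union ((R.dj_ao.union R.dj_bo).union dj_eo) (f s2) (f Xo_sub)
  have s3 : ((M.Xa ∪ M.Xb) ∪ M.Xe) ∪ M.Xo ⊆ C.pols := Set.union_subset s2 Xo_sub
  have d4 : Dj H (((M.Xa ∪ M.Xb) ∪ M.Xe) ∪ M.Xo) M.Xg := by
    refine Dj.of_inv ?_ ?_
    · rintro g a (((h | h) | h) | h)
      · exact Or.inl (Or.inl (Or.inl (M.Xa_inv g a h)))
      · exact Or.inl (Or.inl (Or.inr (M.Xb_inv g a h)))
      · exact Or.inl (Or.inr (M.Xe_inv g a h))
      · exact Or.inr (M.Xo_inv g a h)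
    · rintro a (((h | h) | h) | h) k
      · exact k.2.1 h
      · exact k.2.2.1 h
      · exact k.2.2.2.1 h
      · exact k.2.2.2.2 h
  have h4 := oc_add_le d4 C.fin_pols s3 Xg_sub
  omega

/-- a private pole of the quotient over a private pole of the complex -/
def P2 (M : FM C C1) (t1 : NF V1 F1) (t : NF V F) : Prop := ∃ y a n, t = NF.pol y a (C.Pc y n) ∧
  K.ar n y ∧ K.ar y a ∧ ¬ M.Fl n y ∧ ¬ M.Tp y ∧
  t1 = NF.pol (M.f y) (M.f a) (C1.Pc (M.f y) (M.f n))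

theorem p2_g {y a n m : V} (hn : K.ar n y) (ha : K.ar y a) (hm : C.IJ y n m) (hc : C.Co m y a)
    (hf : ¬ M.Fl n y) (hT : ¬ M.Tp y) : NF.pol y a (C.Pc y n) ∈ M.Xg := by
  have hnd : ¬ Dd M y n := not_dead_of_not_fl hf
  refine ⟨⟨y, a, m, by rw [FC.Pc_eq.2 hm], ha, (FC.IJ.ar hm).1 hn, hc⟩, ?_, ?_, ?_, ?_⟩
  · rintro ⟨e, o, h1, h2, h3, h4⟩
    obtain ⟨e1, e2, e3⟩ := NF.pol.inj h4
    subst e1
    exact hnd ((R.dead_ij (FC.Pc_eq.1 e3)).2 (dead_of h1))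
  · rintro ⟨e, h1, h4⟩
    obtain ⟨e1, e2, e3⟩ := NF.pol.inj h4
    subst e1
    exact hnd ((R.dead_ij (FC.Pc_eq.1 e3)).2 (dead_of (ko_sub_kd h1)))
  · intro h
    obtain ⟨y', a', P, h4, h5⟩ := tp_xe h
    obtain ⟨rfl, -, -⟩ := NF.pol.inj h4
    exact hT h5
  · intro h
    obtain ⟨y', a', P, h4, h5⟩ := tp_xo h
    obtain ⟨rfl, -, -⟩ := NF.pol.inj h4
    exact hT h5

theorem exists_p2 {t1 : NF V1 F1} (h : t1 ∈ C1.pols) : ∃ t ∈ M.Xg, P2 M t1 t := by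
  obtain ⟨y1, a1, n1, rfl, h1, h2, ⟨g, rfl, rfl, rfl⟩⟩ := h
  by_cases hT : M.Tp (C.y (M.ph g))
  · obtain ⟨y, a, n, k1, k2, k3, k4, k5, k6, k7, k8⟩ := R.tops g ⟨h2, h1⟩ hT
    refine ⟨_, R.p2_g k3 k2 (Relation.EqvGen.refl _) k4 k5 k1, y, a, n, rfl, k3, k2, k5, k1, ?_⟩
    rw [k6, k7, FC.Pc_eq.2 k8]
  · have hx : K.ar (C.x (M.ph g)) (C.y (M.ph g)) := by
      rcases M.ar_x_back g h2 with k | k
      · exact k
      · exact absurd ⟨_, k⟩ hT
    have hxf : ¬ M.Fl (C.x (M.ph g)) (C.y (M.ph g)) := by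
      intro k
      have := k.2
      rw [M.x_ph, M.y_ph] at this
      exact FC.not_both this h2
    rcases M.ar_z_back g h1 with k | k
    · refine ⟨_, R.p2_g hx k (Relation.EqvGen.refl _) (FC.co _) hxf hT, _, _, _, rfl, hx, k, hxf,
        hT, ?_⟩
      rw [M.x_ph, M.y_ph, M.z_ph]
    · obtain ⟨o, l1, l2, l3⟩ := R.pol k
      refine ⟨_, R.p2_g hx l1 (Relation.EqvGen.rel _ _ ⟨FC.co _, hx, k.1⟩) l3 hxf hT,
        _, o, _, rfl, hx, l1, hxf, hT, ?_⟩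
      rw [l2, M.x_ph, M.y_ph, M.z_ph]

theorem p2_eq {t1 t2 : NF V1 F1} {s1 s2 : NF V F} (h1 : P2 M t1 s1) (h2 : P2 M t2 s2)
    (h : ∃ g : H, g • s1 = s2) : ∃ g : H, g • t1 = t2 := by
  obtain ⟨g, e⟩ := h
  obtain ⟨y1, a1, n1, rfl, k1, k2, k3, k4, rfl⟩ := h1
  obtain ⟨y2, a2, n2, rfl, l1, l2, l3, l4, rfl⟩ := h2
  rw [NF.smul_pol, FC.Pc_smul] at e
  obtain ⟨e1, e2, e3⟩ := NF.pol.inj e
  rw [e1] at e3
  have hij := FC.Pc_eq.1 e3
  have m1 : K.ar (g • n1) y2 := by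
    rw [← e1]
    exact K.ar_smul g _ _ k1
  have m2 : ¬ M.Fl (g • n1) y2 := by
    rw [← e1]
    exact fun k => k3 k.of_smul
  obtain ⟨s, s1, s2, s3⟩ := R.ij_q l4 hij m1 m2 l3
  refine ⟨s * g, ?_⟩
  rw [NF.smul_pol, FC.Pc_smul, ← M.f_smul, ← M.f_smul, ← M.f_smul, mul_smul, mul_smul, mul_smul,
    e1, e2, s1, s2 a2 l2, FC.Pc_eq.2 s3]

theorem pols1_le : oc H C1.pols ≤ oc H M.Xg := by
  refine SAF.oc_le_of_rel (SAF.FinOrb.mono Xg_sub C.fin_pols) (P2 M)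
    (fun a ha => R.exists_p2 ha) ?_
  intro a _ b _ a' _ b' _ h1 h2 h
  exact R.p2_eq h1 h2 h

/-- THE NEUTRAL FOLD DOES NOT LOWER `exc` -/
theorem exc_le : C.exc ≤ C1.exc := by
  have h1 := M.strs_le
  have h2 := R.zs_le
  have h3 := R.ki_nt_le
  have h4 := R.kd_le
  have h5 := R.ko_le
  have h6 := R.es_le
  have h7 := R.ho
  have h8 := R.x_le
  have h9 := R.pols1_le
  unfold FC.exc
  omega

end FlipN

end FM

end Pool.Agent.DI
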