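import Pool.Agent.DI.Geo4K
import Pool.Agent.DI.FCs
import Pool.Agent.DI.ONf
import Pool.Agent.DI.PG

/-!
# The flags of the raw slice: squares, dropped squares

`P45.fl4`, `P45.fl_sq4`, `Q4.fl`: the flags of the squares. `SyQ.drop4`: a dropped flag belongs to a square
with two merged opposite vertices. `SyQ.fl_zero`: the flags of the zero squares.
-/

namespace Pool.Agent.DI

open MulAction
open Pool.Agent.SAF (InC orbs FinOrb oc)

namespace P45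

variable {H V : Type} [Group H] [MulAction H V] {K : GX H V} (P : P45 K) (nd : P.ND)

theorem nx_u4 (i : K.I) (hi : P.sq i) (j : Fin 4) (h : H) :
    K.nx (P.l4 i hi j h) = P.l4 i hi (j + 1) h := by
  refine K.le_ext ?_
  show (j.1 + 1) % K.len i = (j + 1 : Fin 4).1
  rw [P.len4 hi, Fin.val_add]
  rfl

theorem pv_u4 (i : K.I) (hi : P.sq i) (j : Fin 4) (h : H) :
    K.pv (P.l4 i hi j h) = P.l4 i hi (j + 3) h := by
  refine K.le_ext ?_
  show (j.1 + (K.len i - 1)) % K.len i = (j + 3 : Fin 4).1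
  rw [P.len4 hi, Fin.val_add]
  rfl

/-- the four vertices of the square of a flag -/
theorem fl4 {f : FL K} {i : K.I} (hf : f.1.1.1 = i) (hi : P.sq i) : ∃ (h : H) (k : Fin 4),
    (P.fc nd).y f = h • P.qt i (k + 1) ∧ (P.fc nd).z ((P.fc nd).r f) = h • P.qt i (k + 3) ∧
    (((P.fc nd).x f = h • P.qt i k ∧ (P.fc nd).z f = h • P.qt i (k + 2)) ∨
      ((P.fc nd).x f = h • P.qt i (k + 2) ∧ (P.fc nd).z f = h • P.qt i k)) := by
  subst hf
  obtain ⟨e, b⟩ := f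
  obtain ⟨i, hi', j, h, rfl⟩ | ⟨i, hi', j, h, rfl⟩ := P.l_cases e
  · exact absurd hi hi'
  · refine ⟨h, j, P.c1_4 i hi' j h, ?_, ?_⟩
    · cases b
      · show (P.fc nd).z ((K.pv (P.l4 i hi' j h), false) : FL K) = _
        rw [P.fc_z' nd, P.pv_u4, P.c0_4]
        rfl
      · show (P.fc nd).z ((K.nx (P.l4 i hi' j h), true) : FL K) = _
        rw [P.fc_z nd, P.nx_u4, P.c2_4, add_assoc]
        rfl
    · cases b
      · right
        exact ⟨(P.fc_x' nd _).trans (P.c2_4 i hi' j h), (P.fc_z' nd _).trans (P.c0_4 i hi' j h)⟩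
      · left
        exact ⟨(P.fc_x nd _).trans (P.c0_4 i hi' j h), (P.fc_z nd _).trans (P.c2_4 i hi' j h)⟩

/-- the square of a flag -/
theorem fl_sq4 {f : FL K} (hf : P.sq f.1.1.1) :
    Q4 P ((P.fc nd).x f) ((P.fc nd).y f) ((P.fc nd).z f) ((P.fc nd).z ((P.fc nd).r f)) := by
  obtain ⟨h, k, h1, h2, ⟨h3, h4⟩ | ⟨h3, h4⟩⟩ := P.fl4 nd rfl hf
  · exact ⟨h, _, k, hf, Or.inl ⟨h3, h1, h4, h2⟩⟩
  · exact ⟨h, _, k, hf, Or.inr ⟨h4, h1, h3, h2⟩⟩

/-- a flag of a square -/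
theorem sq4_fl {a q b y : V} (h : Q4 P a q b y) : ∃ f : FL K, P.sq f.1.1.1 ∧ (P.fc nd).x f = a ∧
    (P.fc nd).y f = q ∧ (P.fc nd).z f = b ∧ (P.fc nd).z ((P.fc nd).r f) = y := by
  obtain ⟨g, i, j, hi, ⟨h1, h2, h3, h4⟩ | ⟨h1, h2, h3, h4⟩⟩ := h
  · refine ⟨(P.l4 i hi j g, true), hi, ?_, ?_, ?_, ?_⟩
    · exact ((P.fc_x nd _).trans (P.c0_4 i hi j g)).trans h1.symm
    · exact (P.c1_4 i hi j g).trans h2.symm
    · exact ((P.fc_z nd _).trans (P.c2_4 i hi j g)).trans h3.symm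
    · show (P.fc nd).z ((K.nx (P.l4 i hi j g), true) : FL K) = _
      rw [P.fc_z nd, P.nx_u4, P.c2_4, h4, add_assoc]
      rfl
  · refine ⟨(P.l4 i hi j g, false), hi, ?_, ?_, ?_, ?_⟩
    · exact ((P.fc_x' nd _).trans (P.c2_4 i hi j g)).trans h3.symm
    · exact (P.c1_4 i hi j g).trans h2.symm
    · exact ((P.fc_z' nd _).trans (P.c0_4 i hi j g)).trans h1.symm
    · show (P.fc nd).z ((K.pv (P.l4 i hi j g), false) : FL K) = _
      rw [P.fc_z' nd, P.pv_u4, P.c0_4, h4]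

/-- opposite vertices of a square -/
theorem ND.opp {P : P45 K} (nd : P.ND) {a q b y : V} (h : Q4 P a q b y) : a ≠ b ∧ q ≠ y := by
  obtain ⟨g, i, j, hi, h⟩ := h
  obtain ⟨n0, n1⟩ := nd i hi
  have k0 : P.qt i j ≠ P.qt i (j + 2) := by
    fin_cases j
    · exact n0
    · exact n1
    · exact n0.symm
    · exact n1.symm
  have k1 : P.qt i (j + 1) ≠ P.qt i (j + 3) := by
    fin_cases j
    · exact n1
    · exact n0.symm
    · exact n1.symm
    · exact n0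
  rcases h with ⟨rfl, rfl, rfl, rfl⟩ | ⟨rfl, rfl, rfl, rfl⟩
  · exact ⟨fun e => k0 (smul_left_cancel g e), fun e => k1 (smul_left_cancel g e)⟩
  · exact ⟨fun e => k0 (smul_left_cancel g e).symm, fun e => k1 (smul_left_cancel g e)⟩

/-- the pentagons -/
def pg5 : PG K where
  five i := ¬ P.sq i
  pt := P.pt
  cb_eq := P.cb5
  cw_eq := P.cw5

/-- no backtracking in a minimal complex without degenerate squares -/
theorem min_nb (hm : K.Min) (nd : P.ND) (g : FL K) : (P.fc nd).x g ≠ (P.fc nd).z g := by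
  have key : ∀ e : K.LE, K.c0 e ≠ K.c2 e := by
    intro e
    rcases P.l_cases e with ⟨i, hi, j, h, rfl⟩ | ⟨i, hi, j, h, rfl⟩
    · rw [P.c0_5, P.c2_5]
      have a : P.pg5.At (P.pt i) i := ⟨hi, 1, 0, Or.inl fun j => by rw [one_smul, zero_add]; rfl⟩
      exact fun k => a.ne2 hm j (smul_left_cancel h k)
    · rw [P.c0_4, P.c2_4]
      intro k
      have k := smul_left_cancel h k
      obtain ⟨n0, n1⟩ := nd i hi
      fin_cases j
      · exact n0 k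
      · exact n1 k
      · exact n0 k.symm
      · exact n1 k.symm
  obtain ⟨e, b⟩ := g
  cases b
  · rw [P.fc_x' nd, P.fc_z' nd]
    exact (key e).symm
  · rw [P.fc_x nd, P.fc_z nd]
    exact key e

end P45

namespace SyQ

variable {H V : Type} [Group H] [MulAction H V] {S : SyQ H V}

/-- a dropped flag belongs to a square with two merged opposite vertices -/
theorem drop4 {hc : S.Conn} {hnb : S.NB} {w : S.X} {O : S.OR w} {hm : (S.k0 hc w).Min}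
    {hn : S.SqN w O} {e : FL (S.k0 hc w)} (he : ¬ (S.kfM hc hnb w O hm hn).Kp e) :
    Q4 (S.k0P hc w) ((S.k0fc hc hnb w).x e) ((S.k0fc hc hnb w).y e) ((S.k0fc hc hnb w).z e)
      ((S.k0fc hc hnb w).z ((S.k0fc hc hnb w).r e)) ∧
    (S.fq w O ((S.k0fc hc hnb w).x e) = S.fq w O ((S.k0fc hc hnb w).z e) ∨
      S.fq w O ((S.k0fc hc hnb w).y e) =
        S.fq w O ((S.k0fc hc hnb w).z ((S.k0fc hc hnb w).r e))) := by
  have h1 : ¬ ∀ p, e.1.1.1 = Sum.inr p → S.kept w O p := fun k =>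
    he ((S.kfM_ph hc hnb w O hm hn e).2 k)
  push Not at h1
  obtain ⟨p, hp, hk⟩ := h1
  have hsq : (S.k0P hc w).sq e.1.1.1 := by
    rw [hp]
    exact ⟨p, rfl⟩
  refine ⟨(S.k0P hc w).fl_sq4 (S.k0P_nd hc hnb w) hsq, ?_⟩
  obtain ⟨h, k, h1, h2, h3⟩ := (S.k0P hc w).fl4 (S.k0P_nd hc hnb w) hp ⟨p, rfl⟩
  rw [S.k0P_qt] at h1 h2
  rw [S.k0P_qt, S.k0P_qt] at h3
  have e1 : (S.k0fc hc hnb w).y e = h • S.vq w p (k + 1) := h1
  have e2 : (S.k0fc hc hnb w).z ((S.k0fc hc hnb w).r e) = h • S.vq w p (k + 3) := h2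
  have e3 : ((S.k0fc hc hnb w).x e = h • S.vq w p k ∧
      (S.k0fc hc hnb w).z e = h • S.vq w p (k + 2)) ∨
      ((S.k0fc hc hnb w).x e = h • S.vq w p (k + 2) ∧
      (S.k0fc hc hnb w).z e = h • S.vq w p k) := h3
  rcases not_kept hk k with c | c
  · left
    rcases e3 with ⟨e3, e4⟩ | ⟨e3, e4⟩
    · rw [e3, e4, fq_smul, fq_smul, c]
    · rw [e3, e4, fq_smul, fq_smul, c]
  · right
    rw [e1, e2, fq_smul, fq_smul, c]

/-- the flags of a square of the slice: a square over `w`, or a zero square with its hub at the vertex of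
the flag, at one of its neighbours, or opposite -/
theorem q4_pos (hc : S.Conn) {w : S.X} {A B C E : S.SV w} (h : Q4 (S.k0P hc w) A B C E) :
    (∃ a q b y, Q4 S.P a q b y ∧ S.At4 a q b y w ∧ a ≠ b ∧ q ≠ y ∧ A = S.rho w a ∧
      B = S.rho w q ∧ C = S.rho w b ∧ E = S.rho w y) ∨
    (∃ (u : S.EV w) (x q x' : V), S.Qs w u.1 q x x' ∧ A = S.rho w x ∧ B = S.rho w q ∧
      C = S.rho w x' ∧ E = Sum.inr u) ∨
    (∃ (u : S.EV w) (x q x' : V), S.Qs w u.1 q x x' ∧ A = S.rho w q ∧ B = S.rho w x' ∧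
      C = Sum.inr u ∧ E = S.rho w x) ∨
    (∃ (u : S.EV w) (x q x' : V), S.Qs w u.1 q x x' ∧ A = Sum.inr u ∧ B = S.rho w x ∧
      C = S.rho w q ∧ E = S.rho w x') ∨
    (∃ (u : S.EV w) (x q x' : V), S.Qs w u.1 q x x' ∧ A = S.rho w x' ∧ B = Sum.inr u ∧
      C = S.rho w x ∧ E = S.rho w q) := by
  rcases k0_Q4_cases hc h with h | ⟨u, x, q, x', hs, hr⟩
  · exact Or.inl h
  · right
    rcases hr with ⟨h1, h2, h3, h4⟩ | ⟨h1, h2, h3, h4⟩ | ⟨h1, h2, h3, h4⟩ | ⟨h1, h2, h3, h4⟩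
    · exact Or.inl ⟨⟨u, hs.1⟩, x, q, x', hs, h1, h2, h3, h4⟩
    · exact Or.inr (Or.inl ⟨⟨u, hs.1⟩, x, q, x', hs, h1, h2, h3, h4⟩)
    · exact Or.inr (Or.inr (Or.inr ⟨⟨u, hs.1⟩, x, q, x', hs, h1, h2, h3, h4⟩))
    · exact Or.inr (Or.inr (Or.inl ⟨⟨u, hs.1⟩, x, q, x', hs, h1, h2, h3, h4⟩))

/-! ### the open stars `opF w F` -/

section

variable {w : S.X} {F : Set V} {hF : ∀ h : H, h • w = w → ∀ q ∈ F, h • q ∈ F}

theorem opF_op {u : S.X} {q : V} : (S.opF w F hF).op u q ↔ w ∈ S.J q ∧ q ∉ F := Iff.rfl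

theorem opF_not {u : S.X} {q : V} (hq : w ∈ S.J q) : ¬ (S.opF w F hF).op u q ↔ q ∈ F := by
  rw [opF_op]
  constructor
  · intro h
    by_contra hn
    exact h ⟨hq, hn⟩
  · exact fun h k => k.2 h

/-- the class of the sink `t_u` -/
theorem skF {u : S.EV w} {q : S.NV w} :
    S.Sk w (S.opF w F hF) u (Sum.inl q) ↔ S.SD w u.1 q.1 ∧ q.1 ∈ F := by
  rw [Sk.inl, opF_not q.2]

theorem fqF {u : S.EV w} {q : S.NV w} :
    S.fq w (S.opF w F hF) (Sum.inl q) = S.fq w (S.opF w F hF) (Sum.inr u) ↔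
      S.SD w u.1 q.1 ∧ q.1 ∈ F := fq_inr.trans skF

/-- a folded hub crosses nothing -/
theorem F_cross (h2 : ∀ q ∈ F, ∃ u, S.Dia w u q) {q : V} (hq : q ∈ F) {u : S.X}
    (hu : S.D.G.Adj w u) (c : u ∈ S.J q) : False := by
  obtain ⟨u0, h0⟩ := h2 q hq
  exact h0.not_cs hu c

theorem F_term (h2 : ∀ q ∈ F, ∃ u, S.Dia w u q) {O : S.OR w} {q : V} (hq : q ∈ F) (y : V) :
    ¬ S.Dn w O q y := by
  rintro ⟨u, s, hu, hc, -⟩
  exact F_cross h2 hq hu hc.2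

theorem SD.eq {u u' : S.X} {q : V} (h : S.SD w u q) (h' : S.Dia w u' q) : u' = u := h.2 u' h'

/-- a folded hub is simple, or its poles are merged over two edges -/
theorem F_or (h2 : ∀ q ∈ F, ∃ u, S.Dia w u q) {q : V} (hq : q ∈ F) :
    (∃ u, S.SD w u q) ∨ ∃ u u', S.Dia w u q ∧ S.Dia w u' q ∧ u ≠ u' := by
  obtain ⟨u0, h0⟩ := h2 q hq
  by_cases h : ∀ u', S.Dia w u' q → u' = u0
  · exact Or.inl ⟨u0, h0, h⟩
  · push Not at h
    obtain ⟨u', h1, h3⟩ := h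
    exact Or.inr ⟨u', u0, h1, h0, h3⟩

/-- THE ARROWS OF THE FOLD: kept, or reversed at a simple hub, or reversed at a page of a double hub -/
theorem arF (h2 : ∀ q ∈ F, ∃ u, S.Dia w u q) {a b : S.SV w} (h : S.SAr w a b) :
    S.arQ w (S.opF w F hF) (S.fq w (S.opF w F hF) a) (S.fq w (S.opF w F hF) b) ∨
    (∃ (q p : S.NV w) (u : S.EV w), q.1 ∈ F ∧ S.SD w u.1 q.1 ∧ S.K.ar q.1 p.1 ∧ a = Sum.inl q ∧
      b = Sum.inl p ∧ S.Cs w u.1 p.1 ∧
      S.arQ w (S.opF w F hF) (S.fq w (S.opF w F hF) b) (S.fq w (S.opF w F hF) a)) ∨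
    ∃ (x s : S.NV w) (c : V) (u u0 u1 : S.X), s.1 ∈ F ∧ S.Dia w u0 s.1 ∧ S.Dia w u1 s.1 ∧
      u0 ≠ u1 ∧ a = Sum.inl x ∧ b = Sum.inl s ∧ S.K.ar x.1 s.1 ∧ S.D.G.Adj w u ∧ S.Cs w u x.1 ∧
      S.K.ar s.1 c ∧ S.Gc w u s.1 x.1 c ∧
      S.fq w (S.opF w F hF) a = S.fq w (S.opF w F hF) (S.rho w c) ∧
      S.arQ w (S.opF w F hF) (S.fq w (S.opF w F hF) b) (S.fq w (S.opF w F hF) a) := by
  cases h with
  | up x u e =>
    left
    have := arQ_up (S := S) (w := w) (O := S.opF w F hF) (x := x.1) u.2 ⟨x.2, e⟩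
    rwa [S.rho_near x.2] at this
  | hor x s e =>
    by_cases hsk : ∃ u, S.Sk w (S.opF w F hF) u (Sum.inl x)
    · obtain ⟨u, hu⟩ := hsk
      obtain ⟨h3, h4⟩ := skF.1 hu
      right; left
      have hc := (h3.1.two e).2
      refine ⟨x, s, u, h4, h3, e, rfl, rfl, hc, ?_⟩
      have := arQ_up (S := S) (w := w) (O := S.opF w F hF) (x := s.1) u.2 hc
      rw [S.rho_near s.2] at this
      rw [fq_inr.2 hu]
      exact this
    · push Not at hsk
      by_cases hd : ∃ y, S.Dn w (S.opF w F hF) x.1 y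
      · obtain ⟨y, hy⟩ := hd
        have hfq := hy.fq
        obtain ⟨u, s', hu, hc, k1, k2, k3, k4, k5⟩ := id hy
        obtain rfl : s' = s.1 := ar_ar_eq hc.1 k1 k2 e s.2 hu hc.2
        have hsF : s.1 ∈ F := (opF_not s.2).1 k3.2
        rw [S.rho_near x.2] at hfq
        rcases F_or h2 hsF with ⟨u0, h0⟩ | ⟨u0, u1, h0, h1, hne⟩
        · left
          have hc0 := h0.1.two k4
          have := arQ_up (S := S) (w := w) (O := S.opF w F hF) (x := y) hc0.1 hc0.2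
          rw [← hfq] at this
          rw [(fqF (hF := hF) (q := s) (u := ⟨u0, hc0.1⟩)).2 ⟨h0, hsF⟩]
          exact this
        · right; right
          refine ⟨x, s, y, u, u0, u1, hsF, h0, h1, hne, rfl, rfl, e, hu, hc, k4, k5, hfq, ?_⟩
          have ns : ∀ u', ¬ S.Sk w (S.opF w F hF) u' (Sum.inl s) := by
            intro u' k
            have k' := (skF.1 k).1
            exact hne ((k'.eq h0).trans (k'.eq h1).symm)
          have := arQ_term (O := S.opF w F hF) s.2 ns (F_term h2 hsF)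
            (sar_hor s.2 (k5.cs hc).1 k4)
          rwa [S.rho_near s.2, ← hfq] at this
      · push Not at hd
        left
        have := arQ_term (O := S.opF w F hF) x.2 hsk hd (sar_hor x.2 s.2 e)
        rwa [S.rho_near x.2, S.rho_near s.2] at this

/-- an arrow between vertices which are not folded hubs is kept -/
theorem arF_of (h2 : ∀ q ∈ F, ∃ u, S.Dia w u q) {a b : S.SV w} (h : S.SAr w a b)
    (ha : ∀ q : S.NV w, q.1 ∈ F → a ≠ Sum.inl q) (hb : ∀ q : S.NV w, q.1 ∈ F → b ≠ Sum.inl q) :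
    S.arQ w (S.opF w F hF) (S.fq w (S.opF w F hF) a) (S.fq w (S.opF w F hF) b) := by
  rcases arF (hF := hF) h2 h with h | ⟨q, p, u, h3, h4, h5, h6, -⟩ |
    ⟨x, s, c, u, u0, u1, h3, h4, h5, h6, h7, h8, -⟩
  · exact h
  · exact absurd h6 (ha q h3)
  · exact absurd h8 (hb s h3)

/-- THE HYPOTHESES: the poles of a two-pole hub which is kept are not merged, the squares of `K` over `w`
are kept -/
structure KpF (w : S.X) (F : Set V) (hF : ∀ h : H, h • w = w → ∀ q ∈ F, h • q ∈ F) : Prop where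
  two : ∀ q ∈ F, ∃ u, S.Dia w u q
  hub : ∀ u q a b, w ∈ S.J q → q ∉ F → S.K.ar q a → S.K.ar q b → a ≠ b → S.Qs w u q a b →
    S.fq w (S.opF w F hF) (S.rho w a) ≠ S.fq w (S.opF w F hF) (S.rho w b)
  loc : ∀ a q b y, Q4 S.P a q b y → S.At4 a q b y w → a ≠ b → q ≠ y →
    S.fq w (S.opF w F hF) (S.rho w a) ≠ S.fq w (S.opF w F hF) (S.rho w b)

/-- a merged zero square at a hub which is not folded is parallel -/
theorem KpF.par (h : S.KpF w F hF) {u : S.EV w} {q x x' : V} (hs : S.Qs w u.1 q x x')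
    (hw : w ∈ S.J q) (hq : q ∉ F) (hne : x ≠ x')
    (hd : S.fq w (S.opF w F hF) (S.rho w x) = S.fq w (S.opF w F hF) (S.rho w x') ∨
      S.fq w (S.opF w F hF) (S.rho w q) = S.fq w (S.opF w F hF) (Sum.inr u)) :
    S.K.ar x q ∧ S.K.ar x' q ∧
      S.fq w (S.opF w F hF) (S.rho w x) = S.fq w (S.opF w F hF) (S.rho w x') := by
  have hd : S.fq w (S.opF w F hF) (S.rho w x) = S.fq w (S.opF w F hF) (S.rho w x') := by
    rcases hd with k | k
    · exact k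
    · rw [S.rho_near hw] at k
      exact absurd (fqF.1 k).2 hq
  have nx : ∀ (x : V) (hx : S.Cs w u.1 x) (p : S.NV w), p.1 ∈ F → S.rho w x ≠ Sum.inl p := by
    intro x hx p hp e
    rw [S.rho_near hx.1] at e
    have e1 : x = p.1 := congrArg Subtype.val (Sum.inl.inj e)
    rw [← e1] at hp
    exact F_cross h.two hp u.2 hx.2
  have nq : ∀ p : S.NV w, p.1 ∈ F → S.rho w q ≠ Sum.inl p := by
    intro p hp e
    rw [S.rho_near hw] at e
    have e1 : q = p.1 := congrArg Subtype.val (Sum.inl.inj e)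
    rw [← e1] at hp
    exact hq hp
  have key : ∀ x x', S.Cs w u.1 x → S.Cs w u.1 x' → S.K.ar q x → S.K.ar x' q →
      S.fq w (S.opF w F hF) (S.rho w x) = S.fq w (S.opF w F hF) (S.rho w x') → False := by
    intro x x' cx cx' a1 a2 e
    have k1 := arF_of (hF := hF) h.two (sar_hor hw cx.1 a1) nq (nx x cx)
    have k2 := arF_of (hF := hF) h.two (sar_hor cx'.1 hw a2) (nx x' cx') nq
    have l1 := arQ_rk k1
    have l2 := arQ_rk k2
    rw [e] at l1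
    omega
  rcases hs.E1 with e1 | e1
  · rcases hs.E2 with e2 | e2
    · exact ⟨e1, e2, hd⟩
    · exact (key x' x hs.r hs.l e2 e1 hd.symm).elim
  · rcases hs.E2 with e2 | e2
    · exact (key x x' hs.l hs.r e1 e2 hd).elim
    · exact absurd hd (h.hub u.1 q x x' hw hq e1 e2 hne hs)

/-- DROPPED SQUARES ARE ZERO SQUARES -/
theorem KpF.drop_sq (h : S.KpF w F hF) {hc : S.Conn} {hnb : S.NB} {A B C E : S.SV w}
    (hQ : Q4 (S.k0P hc w) A B C E)
    (hd : S.fq w (S.opF w F hF) A = S.fq w (S.opF w F hF) C ∨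
      S.fq w (S.opF w F hF) B = S.fq w (S.opF w F hF) E) :
    (∃ (u : S.EV w) (x q x' : V), S.Qs w u.1 q x x' ∧ x ≠ x' ∧ A = S.rho w x ∧ B = S.rho w q ∧
      C = S.rho w x' ∧ E = Sum.inr u) ∨
    (∃ (u : S.EV w) (x q x' : V), S.Qs w u.1 q x x' ∧ x ≠ x' ∧ A = S.rho w q ∧ B = S.rho w x' ∧
      C = Sum.inr u ∧ E = S.rho w x) ∨
    (∃ (u : S.EV w) (x q x' : V), S.Qs w u.1 q x x' ∧ x ≠ x' ∧ A = Sum.inr u ∧ B = S.rho w x ∧
      C = S.rho w q ∧ E = S.rho w x') ∨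
    (∃ (u : S.EV w) (x q x' : V), S.Qs w u.1 q x x' ∧ x ≠ x' ∧ A = S.rho w x' ∧ B = Sum.inr u ∧
      C = S.rho w x ∧ E = S.rho w q) := by
  obtain ⟨n1, n2⟩ := (S.k0P_nd hc hnb w).opp hQ
  rcases q4_pos hc hQ with ⟨a, q, b, y, h1, h2, h3, h4, rfl, rfl, rfl, rfl⟩ |
    ⟨u, x, q, x', hs, e1, e2, e3, e4⟩ | ⟨u, x, q, x', hs, e1, e2, e3, e4⟩ |
    ⟨u, x, q, x', hs, e1, e2, e3, e4⟩ | ⟨u, x, q, x', hs, e1, e2, e3, e4⟩
  · exfalso
    rcases hd with k | k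
    · exact h.loc a q b y h1 h2 h3 h4 k
    · exact h.loc q b y a h1.rot h2.rot h4 h3.symm k
  · refine Or.inl ⟨u, x, q, x', hs, ?_, e1, e2, e3, e4⟩
    rintro rfl
    exact n1 (e1.trans e3.symm)
  · refine Or.inr (Or.inl ⟨u, x, q, x', hs, ?_, e1, e2, e3, e4⟩)
    rintro rfl
    exact n2 (e2.trans e4.symm)
  · refine Or.inr (Or.inr (Or.inl ⟨u, x, q, x', hs, ?_, e1, e2, e3, e4⟩))
    rintro rfl
    exact n2 (e2.trans e4.symm)
  · refine Or.inr (Or.inr (Or.inr ⟨u, x, q, x', hs, ?_, e1, e2, e3, e4⟩))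
    rintro rfl
    exact n1 (e1.trans e3.symm)

variable {hc : S.Conn} {hnb : S.NB} {hm : (S.k0 hc w).Min} {hn : S.SqN w (S.opF w F hF)}

/-- THE DROPPED FLAGS: at a sink; at a folded hub; at a parallel square; at an in-node of the hub; at a pole of a
folded hub (two directions) -/
theorem KpF.drop_fl (h : S.KpF w F hF) {e : FL (S.k0 hc w)}
    (he : ¬ (S.kfM hc hnb w (S.opF w F hF) hm hn).Kp e) :
    (∃ u, (S.k0fc hc hnb w).y e = Sum.inr u) ∨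
    (∃ (q x x' : S.NV w) (u : S.EV w), q.1 ∈ F ∧ S.Qs w u.1 q.1 x.1 x'.1 ∧ x ≠ x' ∧
      (S.k0fc hc hnb w).x e = Sum.inl x ∧ (S.k0fc hc hnb w).y e = Sum.inl q ∧
      (S.k0fc hc hnb w).z e = Sum.inl x' ∧
      (S.k0fc hc hnb w).z ((S.k0fc hc hnb w).r e) = Sum.inr u) ∨
    (∃ (q x x' : S.NV w) (u : S.EV w), q.1 ∉ F ∧ S.Qs w u.1 q.1 x.1 x'.1 ∧ x ≠ x' ∧
      S.K.ar x.1 q.1 ∧ S.K.ar x'.1 q.1 ∧
      (S.k0fc hc hnb w).x e = Sum.inl x ∧ (S.k0fc hc hnb w).y e = Sum.inl q ∧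
      (S.k0fc hc hnb w).z e = Sum.inl x' ∧
      (S.k0fc hc hnb w).z ((S.k0fc hc hnb w).r e) = Sum.inr u ∧
      S.fq w (S.opF w F hF) (Sum.inl x) = S.fq w (S.opF w F hF) (Sum.inl x')) ∨
    (S.SAr w ((S.k0fc hc hnb w).y e) ((S.k0fc hc hnb w).x e) ∧
      S.SAr w ((S.k0fc hc hnb w).y e) ((S.k0fc hc hnb w).z e)) ∨
    (∃ (q a x : S.NV w) (u : S.EV w), q.1 ∈ F ∧ S.K.ar q.1 a.1 ∧ S.Qs w u.1 q.1 x.1 a.1 ∧ x ≠ a ∧
      (S.k0fc hc hnb w).x e = Sum.inl q ∧ (S.k0fc hc hnb w).y e = Sum.inl a ∧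
      (S.k0fc hc hnb w).z e = Sum.inr u ∧
      (S.k0fc hc hnb w).z ((S.k0fc hc hnb w).r e) = Sum.inl x) ∨
    (∃ (q a x : S.NV w) (u : S.EV w), q.1 ∈ F ∧ S.K.ar q.1 a.1 ∧ S.Qs w u.1 q.1 x.1 a.1 ∧ x ≠ a ∧
      (S.k0fc hc hnb w).z e = Sum.inl q ∧ (S.k0fc hc hnb w).y e = Sum.inl a ∧
      (S.k0fc hc hnb w).x e = Sum.inr u ∧
      (S.k0fc hc hnb w).z ((S.k0fc hc hnb w).r e) = Sum.inl x) := by
  obtain ⟨hQ, hd⟩ := drop4 he
  -- the corner at a neighbour of the hub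
  have side : ∀ (u : S.EV w) (x q x' : V) (y : S.SV w), S.Qs w u.1 q x x' → x ≠ x' →
      y = S.rho w x' →
      (S.fq w (S.opF w F hF) (S.rho w x) = S.fq w (S.opF w F hF) (S.rho w x') ∨
        S.fq w (S.opF w F hF) (S.rho w q) = S.fq w (S.opF w F hF) (Sum.inr u)) →
      (S.SAr w y (S.rho w q) ∧ S.SAr w y (Sum.inr u)) ∨
      ∃ (q' a z : S.NV w), q'.1 ∈ F ∧ S.K.ar q'.1 a.1 ∧ S.Qs w u.1 q'.1 z.1 a.1 ∧ z ≠ a ∧
        S.rho w q = Sum.inl q' ∧ y = Sum.inl a ∧ S.rho w x = Sum.inl z := by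
    intro u x q x' y hs hne hy hd
    subst hy
    have hup : S.SAr w (S.rho w x') (Sum.inr u) := sar_up u.2 hs.r
    by_cases hw : w ∈ S.J q
    · by_cases hq : q ∈ F
      · rcases hs.E2 with e2 | e2
        · exact Or.inl ⟨sar_hor hs.r.1 hw e2, hup⟩
        · right
          exact ⟨⟨q, hw⟩, ⟨x', hs.r.1⟩, ⟨x, hs.l.1⟩, hq, e2, hs,
            fun k => hne (congrArg Subtype.val k), S.rho_near hw, S.rho_near hs.r.1,
            S.rho_near hs.l.1⟩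
      · left
        obtain ⟨k1, k2, -⟩ := h.par hs hw hq hne hd
        exact ⟨sar_hor hs.r.1 hw k2, hup⟩
    · left
      refine ⟨?_, hup⟩
      rw [S.rho_far hw]
      exact sar_up (S.dir_adj hw) ⟨hs.r.1, S.dir_cross hs.E2 hs.r.1 hw⟩
  rcases h.drop_sq hQ hd (hnb := hnb) with ⟨u, x, q, x', hs, hne, e1, e2, e3, e4⟩ |
    ⟨u, x, q, x', hs, hne, e1, e2, e3, e4⟩ | ⟨u, x, q, x', hs, hne, e1, e2, e3, e4⟩ |
    ⟨u, x, q, x', hs, hne, e1, e2, e3, e4⟩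
  · by_cases hw : w ∈ S.J q
    · by_cases hq : q ∈ F
      · right; left
        refine ⟨⟨q, hw⟩, ⟨x, hs.l.1⟩, ⟨x', hs.r.1⟩, u, hq, hs,
          fun k => hne (congrArg Subtype.val k), ?_, ?_, ?_, e4⟩
        · rw [e1, S.rho_near hs.l.1]
        · rw [e2, S.rho_near hw]
        · rw [e3, S.rho_near hs.r.1]
      · right; right; left
        rw [e1, e2, e3, e4] at hd
        obtain ⟨k1, k2, k3⟩ := h.par hs hw hq hne hd
        rw [S.rho_near hs.l.1, S.rho_near hs.r.1] at k3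
        refine ⟨⟨q, hw⟩, ⟨x, hs.l.1⟩, ⟨x', hs.r.1⟩, u, hq, hs,
          fun k => hne (congrArg Subtype.val k), k1, k2, ?_, ?_, ?_, e4, k3⟩
        · rw [e1, S.rho_near hs.l.1]
        · rw [e2, S.rho_near hw]
        · rw [e3, S.rho_near hs.r.1]
    · left
      rw [e2, S.rho_far hw]
      exact ⟨_, rfl⟩
  · rw [e1, e2, e3, e4] at hd
    have hd' : S.fq w (S.opF w F hF) (S.rho w x) = S.fq w (S.opF w F hF) (S.rho w x') ∨
        S.fq w (S.opF w F hF) (S.rho w q) = S.fq w (S.opF w F hF) (Sum.inr u) :=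
      hd.symm.imp Eq.symm id
    rcases side u x q x' _ hs hne e2 hd' with ⟨k1, k2⟩ | ⟨q', a, z, k1, k2, k3, k4, k5, k6, k7⟩
    · right; right; right; left
      rw [e1, e3]
      exact ⟨k1, k2⟩
    · right; right; right; right; left
      exact ⟨q', a, z, u, k1, k2, k3, k4, e1.trans k5, k6, e3, e4.trans k7⟩
  · rw [e1, e2, e3, e4] at hd
    have hd' : S.fq w (S.opF w F hF) (S.rho w x') = S.fq w (S.opF w F hF) (S.rho w x) ∨
        S.fq w (S.opF w F hF) (S.rho w q) = S.fq w (S.opF w F hF) (Sum.inr u) :=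
      hd.symm.imp Eq.symm Eq.symm
    rcases side u x' q x _ hs.symm' hne.symm e2 hd' with ⟨k1, k2⟩ |
      ⟨q', a, z, k1, k2, k3, k4, k5, k6, k7⟩
    · right; right; right; left
      rw [e1, e3]
      exact ⟨k2, k1⟩
    · right; right; right; right; right
      exact ⟨q', a, z, u, k1, k2, k3, k4, e3.trans k5, k6, e1, e4.trans k7⟩
  · exact Or.inl ⟨u, e2⟩

/-- no backtracking in the folded slice -/
theorem kffc_nb {O : S.OR w} {hn : S.SqN w O} (g : FL (S.kf hc w O)) :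
    (S.kffc hc w O hm hn).x g ≠ (S.kffc hc w O hm hn).z g :=
  (S.kfP hc w O hm hn).min_nb (S.kf_min hc w O hm) (S.kfP_nd hc w O hm hn) g

/-- a flag with merged ends is dropped -/
theorem not_kp_of {O : S.OR w} {hn : S.SqN w O} {e : FL (S.k0 hc w)}
    (h : S.fq w O ((S.k0fc hc hnb w).x e) = S.fq w O ((S.k0fc hc hnb w).z e)) :
    ¬ (S.kfM hc hnb w O hm hn).Kp e := by
  rintro ⟨g, rfl⟩
  have h1 := (S.kfM hc hnb w O hm hn).x_ph g
  have h2 := (S.kfM hc hnb w O hm hn).z_ph g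
  have h3 : S.fq w O ((S.k0fc hc hnb w).x ((S.kfM hc hnb w O hm hn).ph g)) =
    (S.kffc hc w O hm hn).x g := h1
  have h4 : S.fq w O ((S.k0fc hc hnb w).z ((S.kfM hc hnb w O hm hn).ph g)) =
    (S.kffc hc w O hm hn).z g := h2
  rw [h3, h4] at h
  exact kffc_nb g h

/-- merged poles of a vertex which crosses `(w, u)`: one of them is a simple hub folded to `t_u` -/
theorem pinjF {u : S.EV w} {a : S.SV w} (ha : S.SAr w a (Sum.inr u)) {c c' : S.SV w}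
    (hc : S.SAr w a c) (hc' : S.SAr w a c')
    (he : S.fq w (S.opF w F hF) c = S.fq w (S.opF w F hF) c') (hne : c ≠ c') :
    ∃ q : S.NV w, q.1 ∈ F ∧ S.SD w u.1 q.1 ∧ (c = Sum.inl q ∨ c' = Sum.inl q) := by
  have key : ∀ c' : S.SV w, S.fq w (S.opF w F hF) c' = S.fq w (S.opF w F hF) (Sum.inr u) →
      c' ≠ Sum.inr u → ∃ q : S.NV w, q.1 ∈ F ∧ S.SD w u.1 q.1 ∧ c' = Sum.inl q := by
    rintro (q | u') h k
    · obtain ⟨h1, h2⟩ := fqF.1 h
      exact ⟨q, h2, h1, rfl⟩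
    · exact absurd (congrArg Sum.inr (Sk.inr.1 (fq_inr.1 h))) k
  rcases SAr.two _ _ _ _ ha hc hc' with e | e | e
  · rw [← e] at he hne
    obtain ⟨q, h1, h2, h3⟩ := key c' he.symm hne.symm
    exact ⟨q, h1, h2, Or.inr h3⟩
  · exact absurd e hne
  · rw [← e] at he hne
    obtain ⟨q, h1, h2, h3⟩ := key c he hne
    exact ⟨q, h1, h2, Or.inl h3⟩

end

end SyQ

end Pool.Agent.DI
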