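import Pool.Agent.DI.K0d

/-!
# The fold relation of a slice

`Qs w u q x x'`: a zero square `x, q, x', t_u` at `w` (`x`, `x'` cross the edge `w u`, `J q` is on the
side of `w`). `Gc w u q`: same component of the graph of the zero squares at `q`. `Dia w u q`: `q` is
over `w` and two poles of `q` are in one component over `w u`. `SD w u q`: this happens for `u` only.
`FR w`: the generating relation of the fold: `x ~ x'` for zero squares `x, q, x', t_u` unless
`SD w u q`, and `q ~ t_u` if `SD w u q`.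
-/

namespace Pool.Agent.DI

open MulAction
open Pool.Agent.SAF (InC orbs FinOrb oc Decomp SAn SA Conv hull dist_edge FinOrb_iff exists_next)
open Pool.Agent.BT (PX PQ JS bey exits lz lz_self lz_ne lz_symm x_next_unique)
open Pool.Agent.BT.TA

namespace Sys

variable {H V : Type} [Group H] [MulAction H V] (S : Sys H V)

/-- a zero square `x, q, x', t_u` at `w` -/
def Qs (w u : S.X) (q x x' : V) : Prop := ∃ y z, Pn S.P x q x' y z ∧ S.Sq w u x q x' y z

/-- in the same component of the graph of zero squares at `q` -/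
def Gc (w u : S.X) (q x x' : V) : Prop := Relation.EqvGen (S.Qs w u q) x x'

/-- two poles of `q` are in one component over `w u` -/
def Dia (w u : S.X) (q : V) : Prop :=
  w ∈ S.J q ∧ ∃ a b, a ≠ b ∧ S.K.ar q a ∧ S.K.ar q b ∧ S.Gc w u q a b

/-- simple diamond -/
def SD (w u : S.X) (q : V) : Prop := S.Dia w u q ∧ ∀ u', S.Dia w u' q → u' = u

/-- the generating relation of the fold -/
inductive FR (w : S.X) : S.SV w → S.SV w → Prop
  | mer (u : S.X) (q : V) (x x' : S.NV w) : S.Qs w u q x.1 x'.1 → ¬ S.SD w u q →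
      FR w (Sum.inl x) (Sum.inl x')
  | dia (q : S.NV w) (u : S.EV w) : S.SD w u.1 q.1 → FR w (Sum.inl q) (Sum.inr u)

variable {S}

/-! ### zero squares -/

theorem Qs.symm' {w u : S.X} {q x x' : V} (h : S.Qs w u q x x') : S.Qs w u q x' x := by
  obtain ⟨y, z, hp, hu, c0, c2, s1, s3, s4⟩ := h
  exact ⟨z, y, hp.symm, hu, c2, c0, s1, s4, s3⟩

theorem Qs.adj {w u : S.X} {q x x' : V} (h : S.Qs w u q x x') : S.D.G.Adj w u := by
  obtain ⟨y, z, hp, hu, c0, c2, s1, s3, s4⟩ := h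
  exact hu

theorem Qs.l {w u : S.X} {q x x' : V} (h : S.Qs w u q x x') : S.Cs w u x := by
  obtain ⟨y, z, hp, hu, c0, c2, s1, s3, s4⟩ := h
  exact c0

theorem Qs.r {w u : S.X} {q x x' : V} (h : S.Qs w u q x x') : S.Cs w u x' := h.symm'.l

theorem Qs.near {w u : S.X} {q x x' : V} (h : S.Qs w u q x x') : S.J q ⊆ bey S.D.G u w := by
  obtain ⟨y, z, hp, hu, c0, c2, s1, s3, s4⟩ := h
  exact s1

theorem Qs.E1 {w u : S.X} {q x x' : V} (h : S.Qs w u q x x') : S.K.E x q := by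
  obtain ⟨y, z, hp, -⟩ := h
  exact hp.E1

theorem Qs.E2 {w u : S.X} {q x x' : V} (h : S.Qs w u q x x') : S.K.E x' q := h.symm'.E1

theorem Qs.smul {w : S.X} (h : ↥(stabilizer H w)) {u : S.X} {q x x' : V} (k : S.Qs w u q x x') :
    S.Qs w (h.1 • u) (h.1 • q) (h.1 • x) (h.1 • x') := by
  obtain ⟨y, z, hp, hs⟩ := k
  have h2 := hs.smul h.1
  have hw : h.1 • w = w := h.2
  rw [hw] at h2
  exact ⟨h.1 • y, h.1 • z, hp.smul h.1, h2⟩

theorem Gc.symm' {w u : S.X} {q x x' : V} (h : S.Gc w u q x x') : S.Gc w u q x' x :=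
  Relation.EqvGen.symm _ _ h

theorem Gc.smul {w : S.X} (h : ↥(stabilizer H w)) {u : S.X} {q x x' : V} (k : S.Gc w u q x x') :
    S.Gc w (h.1 • u) (h.1 • q) (h.1 • x) (h.1 • x') := by
  induction k with
  | rel x y k => exact Relation.EqvGen.rel _ _ (k.smul h)
  | refl x => exact Relation.EqvGen.refl _
  | symm x y _ ih => exact Relation.EqvGen.symm _ _ ih
  | trans x y z _ _ i1 i2 => exact Relation.EqvGen.trans _ _ _ i1 i2

/-- both ends of a component path are in zero squares -/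
theorem Gc.cases {w u : S.X} {q x x' : V} (k : S.Gc w u q x x') :
    x = x' ∨ ((∃ c, S.Qs w u q x c) ∧ ∃ c, S.Qs w u q x' c) := by
  induction k with
  | rel x y k => exact Or.inr ⟨⟨y, k⟩, ⟨x, k.symm'⟩⟩
  | refl x => exact Or.inl rfl
  | symm x y _ ih =>
    rcases ih with h | h
    · exact Or.inl h.symm
    · exact Or.inr h.symm
  | trans x y z _ _ i1 i2 =>
    rcases i1 with rfl | h1
    · exact i2
    · rcases i2 with rfl | h2
      · exact Or.inr h1
      · exact Or.inr ⟨h1.1, h2.2⟩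

theorem Gc.ne {w u : S.X} {q x x' : V} (k : S.Gc w u q x x') (hne : x ≠ x') :
    S.D.G.Adj w u ∧ S.Cs w u x ∧ S.Cs w u x' ∧ S.K.E x q ∧ S.K.E x' q ∧ S.J q ⊆ bey S.D.G u w := by
  rcases k.cases with h | ⟨⟨c, h1⟩, ⟨c', h2⟩⟩
  · exact absurd h hne
  · exact ⟨h1.adj, h1.l, h2.l, h1.E1, h2.E1, h1.near⟩

theorem Gc.cs {w u : S.X} {q x x' : V} (k : S.Gc w u q x x') (h : S.Cs w u x) : S.Cs w u x' := by
  by_cases e : x = x'
  · rw [← e]
    exact h
  · exact (k.ne e).2.2.1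

theorem Dia.smul {w : S.X} (h : ↥(stabilizer H w)) {u : S.X} {q : V} (k : S.Dia w u q) :
    S.Dia w (h.1 • u) (h.1 • q) := by
  obtain ⟨hw, a, b, hne, ha, hb, hg⟩ := k
  refine ⟨?_, h.1 • a, h.1 • b, fun e => hne (smul_left_cancel _ e), S.K.ar_smul _ _ _ ha,
    S.K.ar_smul _ _ _ hb, hg.smul h⟩
  have h1 := S.js.smul h.1 _ _ hw
  have h2 : h.1 • w = w := h.2
  rwa [h2] at h1

theorem SD.smul {w : S.X} (h : ↥(stabilizer H w)) {u : S.X} {q : V} (k : S.SD w u q) :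
    S.SD w (h.1 • u) (h.1 • q) := by
  refine ⟨k.1.smul h, fun u' hu' => ?_⟩
  have h1 := hu'.smul h⁻¹
  have e : (h⁻¹).1 • h.1 • q = q := by
    show h.1⁻¹ • h.1 • q = q
    rw [inv_smul_smul]
  rw [e] at h1
  have h2 := k.2 _ h1
  rw [← h2]
  show u' = h.1 • h.1⁻¹ • u'
  rw [smul_inv_smul]

theorem SD.smul_iff {w : S.X} (h : ↥(stabilizer H w)) {u : S.X} {q : V} :
    S.SD w (h.1 • u) (h.1 • q) ↔ S.SD w u q := by
  refine ⟨fun k => ?_, fun k => k.smul h⟩
  have h1 := k.smul h⁻¹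
  have e1 : (h⁻¹).1 • h.1 • q = q := by
    show h.1⁻¹ • h.1 • q = q
    rw [inv_smul_smul]
  have e2 : (h⁻¹).1 • h.1 • u = u := by
    show h.1⁻¹ • h.1 • u = u
    rw [inv_smul_smul]
  rwa [e1, e2] at h1

theorem FR.smul {w : S.X} (h : ↥(stabilizer H w)) {a b : S.SV w} (k : S.FR w a b) :
    S.FR w (h • a) (h • b) := by
  cases k with
  | mer u q x x' k1 k2 =>
    exact FR.mer (h.1 • u) (h.1 • q) (h • x) (h • x') (k1.smul h)
      (fun e => k2 ((SD.smul_iff h).1 e))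
  | dia q u k => exact FR.dia (h • q) (h • u) (k.smul h)

/-! ### exits -/

/-- the two poles of a diamond cross the edge -/
theorem Dia.two {w u : S.X} {q : V} (h : S.Dia w u q) {p : V} (hp : S.K.ar q p) :
    S.D.G.Adj w u ∧ S.Cs w u p := by
  obtain ⟨hw, a, b, hne, ha, hb, hg⟩ := h
  obtain ⟨h1, h2, h3, -⟩ := hg.ne hne
  refine ⟨h1, ?_⟩
  rcases S.K.two q a b p ha hb hp with e | e | e
  · exact absurd e hne
  · rw [← e]
    exact h3
  · rw [← e]
    exact h2

theorem ar_cs_eq {w : S.X} {z s : V} (hz : w ∈ S.J z) (hs : S.K.ar z s) (hw : w ∈ S.J s)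
    {u u' : S.X} (hu : S.D.G.Adj w u) (hu' : S.D.G.Adj w u') (c : u ∈ S.J z) (c' : u' ∈ S.J z) :
    u = u' := by
  have h1 : S.SAr w (Sum.inl ⟨z, hz⟩) (Sum.inl ⟨s, hw⟩) := SAr.hor (S := S) ⟨z, hz⟩ ⟨s, hw⟩ hs
  have h2 : S.SAr w (Sum.inl ⟨z, hz⟩) (Sum.inr ⟨u, hu⟩) := SAr.up (S := S) ⟨z, hz⟩ ⟨u, hu⟩ c
  have h3 : S.SAr w (Sum.inl ⟨z, hz⟩) (Sum.inr ⟨u', hu'⟩) := SAr.up (S := S) ⟨z, hz⟩ ⟨u', hu'⟩ c'
  rcases SAr.two _ _ _ _ h1 h2 h3 with e | e | e
  · cases e
  · exact congrArg Subtype.val (Sum.inr.inj e)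
  · cases e

theorem ar_ar_eq {w : S.X} {z s s' : V} (hz : w ∈ S.J z) (hs : S.K.ar z s) (hw : w ∈ S.J s)
    (hs' : S.K.ar z s') (hw' : w ∈ S.J s') {u : S.X} (hu : S.D.G.Adj w u) (c : u ∈ S.J z) :
    s = s' := by
  have h1 : S.SAr w (Sum.inl ⟨z, hz⟩) (Sum.inl ⟨s, hw⟩) := SAr.hor (S := S) ⟨z, hz⟩ ⟨s, hw⟩ hs
  have h2 : S.SAr w (Sum.inl ⟨z, hz⟩) (Sum.inl ⟨s', hw'⟩) := SAr.hor (S := S) ⟨z, hz⟩ ⟨s', hw'⟩ hs'
  have h3 : S.SAr w (Sum.inl ⟨z, hz⟩) (Sum.inr ⟨u, hu⟩) := SAr.up (S := S) ⟨z, hz⟩ ⟨u, hu⟩ c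
  rcases SAr.two _ _ _ _ h1 h2 h3 with e | e | e
  · exact congrArg Subtype.val (Sum.inl.inj e)
  · cases e
  · cases e

/-- the centre of a diamond crosses no edge at `w` -/
theorem Dia.not_cs {w u : S.X} {q : V} (h : S.Dia w u q) {u' : S.X} (hu' : S.D.G.Adj w u')
    (c : u' ∈ S.J q) : False := by
  have h0 := h
  obtain ⟨hw, a, b, hne, ha, hb, hg⟩ := h
  exact hne (ar_ar_eq hw ha (h0.two ha).2.1 hb (h0.two hb).2.1 hu' c)

variable (S)

/-! ### the classes of the sinks -/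

/-- the class of the sink `t_u` -/
def Sk (w : S.X) (u : S.EV w) (c : S.SV w) : Prop :=
  c = Sum.inr u ∨ ∃ q : S.NV w, c = Sum.inl q ∧ S.SD w u.1 q.1

variable {S}

theorem Sk.inl {w : S.X} {u : S.EV w} {q : S.NV w} : S.Sk w u (Sum.inl q) ↔ S.SD w u.1 q.1 := by
  constructor
  · rintro (h | ⟨q', h, k⟩)
    · cases h
    · rw [Sum.inl.inj h]
      exact k
  · intro h
    exact Or.inr ⟨q, rfl, h⟩

theorem Sk.inr {w : S.X} {u u' : S.EV w} : S.Sk w u (Sum.inr u') ↔ u' = u := by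
  constructor
  · rintro (h | ⟨q', h, k⟩)
    · exact Sum.inr.inj h
    · cases h
  · rintro rfl
    exact Or.inl rfl

theorem Sk.fr {w : S.X} {u : S.EV w} {a b : S.SV w} (h : S.FR w a b) :
    S.Sk w u a ↔ S.Sk w u b := by
  cases h with
  | mer u' q x x' h1 h2 =>
    rw [Sk.inl, Sk.inl]
    constructor
    · intro h
      exact (h.1.not_cs h1.adj h1.l.2).elim
    · intro h
      exact (h.1.not_cs h1.adj h1.r.2).elim
  | dia q u' h =>
    rw [Sk.inl, Sk.inr]
    constructor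
    · intro k
      exact Subtype.ext (k.2 _ h.1)
    · rintro rfl
      exact h

theorem Sk.not_el {w : S.X} {u : S.EV w} {x : S.NV w} {u' : S.X} (hu' : S.D.G.Adj w u')
    (c : u' ∈ S.J x.1) : ¬ S.Sk w u (Sum.inl x) := by
  rw [Sk.inl]
  intro h
  exact h.1.not_cs hu' c

variable (S)

/-- the fold relation -/
def fdS (w : S.X) : Setoid (S.SV w) := Relation.EqvGen.setoid (S.FR w)

/-- the vertices of the folded slice -/
def Q (w : S.X) : Type := Quotient (S.fdS w)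

/-- the projection -/
def fq (w : S.X) (a : S.SV w) : S.Q w := Quotient.mk (S.fdS w) a

variable {S}

theorem fq_surj (w : S.X) : Function.Surjective (S.fq w) := Quotient.exists_rep

theorem fq_eq {w : S.X} {a b : S.SV w} : S.fq w a = S.fq w b ↔ Relation.EqvGen (S.FR w) a b :=
  ⟨fun h => Quotient.exact h, fun h => Quotient.sound (s := S.fdS w) h⟩

theorem FR.fq {w : S.X} {a b : S.SV w} (h : S.FR w a b) : S.fq w a = S.fq w b :=
  fq_eq.2 (Relation.EqvGen.rel _ _ h)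

theorem EqvFR.smul {w : S.X} (h : ↥(stabilizer H w)) {a b : S.SV w}
    (k : Relation.EqvGen (S.FR w) a b) : Relation.EqvGen (S.FR w) (h • a) (h • b) := by
  induction k with
  | rel x y k => exact Relation.EqvGen.rel _ _ (k.smul h)
  | refl x => exact Relation.EqvGen.refl _
  | symm x y _ ih => exact Relation.EqvGen.symm _ _ ih
  | trans x y z _ _ i1 i2 => exact Relation.EqvGen.trans _ _ _ i1 i2

instance actQ (w : S.X) : MulAction ↥(stabilizer H w) (S.Q w) where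
  smul h := Quotient.map (fun a => h • a) (fun _ _ k => EqvFR.smul h k)
  one_smul := by
    rintro ⟨a⟩
    show S.fq w ((1 : ↥(stabilizer H w)) • a) = S.fq w a
    rw [one_smul]
  mul_smul g h := by
    rintro ⟨a⟩
    show S.fq w ((g * h) • a) = S.fq w (g • h • a)
    rw [mul_smul]

theorem fq_smul {w : S.X} (h : ↥(stabilizer H w)) (a : S.SV w) :
    S.fq w (h • a) = h • S.fq w a := rfl

theorem Sk.fq {w : S.X} {u : S.EV w} {a b : S.SV w} (h : S.fq w a = S.fq w b) :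
    S.Sk w u a ↔ S.Sk w u b := by
  have k := fq_eq.1 h
  induction k with
  | rel x y k => exact Sk.fr k
  | refl x => exact Iff.rfl
  | symm x y k ih => exact (ih (fq_eq.2 k)).symm
  | trans x y z k1 k2 i1 i2 => exact (i1 (fq_eq.2 k1)).trans (i2 (fq_eq.2 k2))

/-- the class of `t_u` -/
theorem fq_inr {w : S.X} {u : S.EV w} {c : S.SV w} :
    S.fq w c = S.fq w (Sum.inr u) ↔ S.Sk w u c := by
  constructor
  · intro h
    rw [Sk.fq h, Sk.inr]
  · rintro (rfl | ⟨q, rfl, h⟩)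
    · rfl
    · exact (FR.dia q u h).fq

theorem Sk.unique {w : S.X} {u u' : S.EV w} {c : S.SV w} (h : S.Sk w u c) (h' : S.Sk w u' c) :
    u = u' := by
  have h1 := fq_inr.2 h
  have h2 := fq_inr.2 h'
  rw [h1] at h2
  exact Sk.inr.1 (fq_inr.1 h2)

/-- elements of one component are in one class -/
theorem Gc.fq {w u : S.X} {q x x' : V} (k : S.Gc w u q x x') (hq : ¬ S.SD w u q) :
    S.fq w (S.rho w x) = S.fq w (S.rho w x') := by
  induction k with
  | rel x y k =>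
    rw [S.rho_near k.l.1, S.rho_near k.r.1]
    exact (FR.mer u q ⟨x, k.l.1⟩ ⟨y, k.r.1⟩ k hq).fq
  | refl x => rfl
  | symm x y _ ih => exact ih.symm
  | trans x y z _ _ i1 i2 => exact i1.trans i2

variable (S)

/-! ### the way down -/

/-- the way down inside a class -/
def Dn (w : S.X) (z x : V) : Prop := ∃ u s, S.D.G.Adj w u ∧ S.Cs w u z ∧ S.K.ar z s ∧ w ∈ S.J s ∧
  ¬ S.SD w u s ∧ S.K.ar s x ∧ S.Gc w u s z x

/-- terminal elements -/
inductive Tm (w : S.X) : V → V → Prop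
  | base (z : V) : (∀ x, ¬ S.Dn w z x) → Tm w z z
  | step (z x t : V) : S.Dn w z x → Tm w x t → Tm w z t

/-- the classes of the targets of the arrows -/
def NS (w : S.X) (z : V) : Set (S.Q w) := {d | ∃ y, S.SAr w (S.rho w z) y ∧ S.fq w y = d}

variable {S}

theorem Dn.rk {w : S.X} {z x : V} (h : S.Dn w z x) : S.K.rk x < S.K.rk z := by
  obtain ⟨u, s, hu, hc, h1, h2, h3, h4, h5⟩ := h
  exact (S.K.ar_rk _ _ h4).trans (S.K.ar_rk _ _ h1)

theorem Dn.mem {w : S.X} {z x : V} (h : S.Dn w z x) : w ∈ S.J z ∧ w ∈ S.J x := by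
  obtain ⟨u, s, hu, hc, h1, h2, h3, h4, h5⟩ := h
  exact ⟨hc.1, (h5.cs hc).1⟩

theorem Dn.fq {w : S.X} {z x : V} (h : S.Dn w z x) :
    S.fq w (S.rho w z) = S.fq w (S.rho w x) := by
  obtain ⟨u, s, hu, hc, h1, h2, h3, h4, h5⟩ := h
  exact h5.fq h3

theorem Dn.cs {w : S.X} {z x : V} (h : S.Dn w z x) {u : S.X} (hu : S.D.G.Adj w u)
    (c : S.Cs w u z) : S.Cs w u x := by
  obtain ⟨u', s, hu', hc, h1, h2, h3, h4, h5⟩ := h
  have e : u = u' := ar_cs_eq c.1 h1 h2 hu hu' c.2 hc.2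
  rw [e]
  exact h5.cs hc

theorem Dn.smul {w : S.X} (g : ↥(stabilizer H w)) {z x : V} (h : S.Dn w z x) :
    S.Dn w (g.1 • z) (g.1 • x) := by
  obtain ⟨u, s, hu, hc, h1, h2, h3, h4, h5⟩ := h
  have hw : g.1 • w = w := g.2
  have e1 := S.D.adj_smul g.1 _ _ hu
  have e2 := hc.smul g.1
  have e3 := S.js.smul g.1 _ _ h2
  rw [hw] at e1 e2 e3
  exact ⟨g.1 • u, g.1 • s, e1, e2, S.K.ar_smul _ _ _ h1, e3, fun k => h3 ((SD.smul_iff g).1 k),
    S.K.ar_smul _ _ _ h4, h5.smul g⟩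

theorem Tm.rk {w : S.X} {z t : V} (h : S.Tm w z t) : S.K.rk t ≤ S.K.rk z := by
  induction h with
  | base z h => exact le_refl _
  | step z x t h _ ih => exact ih.trans h.rk.le

theorem Tm.mem {w : S.X} {z t : V} (h : S.Tm w z t) (hz : w ∈ S.J z) : w ∈ S.J t := by
  induction h with
  | base z h => exact hz
  | step z x t h _ ih => exact ih h.mem.2

theorem Tm.fq {w : S.X} {z t : V} (h : S.Tm w z t) :
    S.fq w (S.rho w z) = S.fq w (S.rho w t) := by
  induction h with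
  | base z h => rfl
  | step z x t h _ ih => exact h.fq.trans ih

theorem Tm.cs {w : S.X} {z t : V} (h : S.Tm w z t) {u : S.X} (hu : S.D.G.Adj w u)
    (c : S.Cs w u z) : S.Cs w u t := by
  induction h with
  | base z h => exact c
  | step z x t h _ ih => exact ih (h.cs hu c)

theorem Tm.term {w : S.X} {z t : V} (h : S.Tm w z t) : ∀ x, ¬ S.Dn w t x := by
  induction h with
  | base z h => exact h
  | step z x t h _ ih => exact ih

theorem Tm.eq_of_term {w : S.X} {z t : V} (h : S.Tm w z t) (hz : ∀ x, ¬ S.Dn w z x) : t = z := by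
  cases h with
  | base z h => rfl
  | step z x t h _ => exact absurd h (hz x)

theorem exists_Tm (w : S.X) (z : V) : ∃ t, S.Tm w z t := by
  have : ∀ n, ∀ z, S.K.rk z ≤ n → ∃ t, S.Tm w z t := by
    intro n
    induction n with
    | zero =>
      intro z hz
      refine ⟨z, Tm.base z fun x h => ?_⟩
      have := h.rk
      omega
    | succ n ih =>
      intro z hz
      by_cases h : ∃ x, S.Dn w z x
      · obtain ⟨x, hx⟩ := h
        obtain ⟨t, ht⟩ := ih x (by have := hx.rk; omega)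
        exact ⟨t, Tm.step z x t hx ht⟩
      · push Not at h
        exact ⟨z, Tm.base z h⟩
  exact this _ z le_rfl

/-- vertices which cross two edges at `w` are terminal -/
theorem pass_term {w u u' : S.X} (hu : S.D.G.Adj w u) (hu' : S.D.G.Adj w u') (hne : u ≠ u')
    {x : V} (c : S.Cs w u x) (c' : S.Cs w u' x) : ∀ y, ¬ S.Dn w x y := by
  rintro y ⟨u1, s, hu1, hc, h1, h2, h3, h4, h5⟩
  exact hne (ar_cs_eq c.1 h1 h2 hu hu' c.2 c'.2)

/-- the targets at a vertex with two known exits -/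
theorem NS_pair {w : S.X} {x : V} {a b : S.SV w} (hab : a ≠ b) (ha : S.SAr w (S.rho w x) a)
    (hb : S.SAr w (S.rho w x) b) : S.NS w x = {S.fq w a, S.fq w b} := by
  ext d
  constructor
  · rintro ⟨y, hy, rfl⟩
    rcases SAr.two _ _ _ _ ha hb hy with e | e | e
    · exact absurd e hab
    · exact Or.inr (by rw [e]; rfl)
    · exact Or.inl (by rw [e])
  · rintro (rfl | h)
    · exact ⟨a, ha, rfl⟩
    · rw [Set.mem_singleton_iff.1 h]
      exact ⟨b, hb, rfl⟩

theorem sar_up {w : S.X} {x : V} {u : S.X} (hu : S.D.G.Adj w u) (c : S.Cs w u x) :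
    S.SAr w (S.rho w x) (Sum.inr ⟨u, hu⟩) := by
  rw [S.rho_near c.1]
  exact SAr.up (S := S) ⟨x, c.1⟩ ⟨u, hu⟩ c.2

theorem sar_hor {w : S.X} {x a : V} (hx : w ∈ S.J x) (ha : w ∈ S.J a) (e : S.K.ar x a) :
    S.SAr w (S.rho w x) (S.rho w a) := by
  rw [S.rho_near hx, S.rho_near ha]
  exact SAr.hor (S := S) ⟨x, hx⟩ ⟨a, ha⟩ e

theorem NS_pass {w u u' : S.X} (hu : S.D.G.Adj w u) (hu' : S.D.G.Adj w u') (hne : u ≠ u')
    {x : V} (c : S.Cs w u x) (c' : S.Cs w u' x) :
    S.NS w x = {S.fq w (Sum.inr ⟨u, hu⟩), S.fq w (Sum.inr ⟨u', hu'⟩)} := by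
  refine NS_pair ?_ (sar_up hu c) (sar_up hu' c')
  intro e
  exact hne (congrArg Subtype.val (Sum.inr.inj e))

theorem Dn.unique {w : S.X} {z x x' : V} (h : S.Dn w z x) (h' : S.Dn w z x') :
    x = x' ∨ ∃ u u', S.D.G.Adj w u ∧ S.D.G.Adj w u' ∧ u ≠ u' ∧ S.Cs w u x ∧ S.Cs w u' x ∧
      S.Cs w u x' ∧ S.Cs w u' x' := by
  obtain ⟨u, s, hu, hc, h1, h2, h3, h4, h5⟩ := h
  obtain ⟨u1, s1, hu1, hc1, k1, k2, k3, k4, k5⟩ := h'
  obtain rfl : u = u1 := ar_cs_eq hc.1 h1 h2 hu hu1 hc.2 hc1.2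
  obtain rfl : s = s1 := ar_ar_eq hc.1 h1 h2 k1 k2 hu hc.2
  by_cases e : x = x'
  · exact Or.inl e
  · right
    have hd : S.Dia w u s := ⟨h2, x, x', e, h4, k4, h5.symm'.trans _ _ _ k5⟩
    have : ∃ u', S.Dia w u' s ∧ u' ≠ u := by
      by_contra hcon
      push Not at hcon
      exact h3 ⟨hd, hcon⟩
    obtain ⟨u', hd', hne⟩ := this
    refine ⟨u, u', hu, (hd'.two h4).1, hne.symm, (hd.two h4).2, (hd'.two h4).2, (hd.two k4).2,
      (hd'.two k4).2⟩

theorem Tm.NS_unique {w : S.X} {z t t' : V} (h : S.Tm w z t) (h' : S.Tm w z t') :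
    S.NS w t = S.NS w t' := by
  induction h with
  | base z h => rw [h'.eq_of_term h]
  | step z x t h k ih =>
    cases h' with
    | base z h' => exact absurd h (h' x)
    | step z x' t' h' k' =>
      rcases h.unique h' with e | ⟨u, u', hu, hu', hne, c1, c2, c3, c4⟩
      · rw [← e] at k'
        exact ih k'
      · rw [k.eq_of_term (pass_term hu hu' hne c1 c2), k'.eq_of_term (pass_term hu hu' hne c3 c4),
          NS_pass hu hu' hne c1 c2, NS_pass hu hu' hne c3 c4]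

/-- the targets are the same at both ends of a merge -/
theorem NS_mer {w u : S.X} {q x x' t t' : V} (h : S.Qs w u q x x') (hq : ¬ S.SD w u q)
    (ht : S.Tm w x t) (ht' : S.Tm w x' t') : S.NS w t = S.NS w t' := by
  by_cases hw : w ∈ S.J q
  · have gxx : S.Gc w u q x x' := Relation.EqvGen.rel _ _ h
    rcases h.E1 with e1 | e1
    · rcases h.E2 with e2 | e2
      · -- both have the pole `q`
        by_cases hp : ∃ p, S.K.ar q p ∧ S.Gc w u q x p
        · obtain ⟨p, p1, p2⟩ := hp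
          obtain ⟨t'', ht''⟩ := exists_Tm (S := S) w p
          have d1 : S.Dn w x p := ⟨u, q, h.adj, h.l, e1, hw, hq, p1, p2⟩
          have d2 : S.Dn w x' p := ⟨u, q, h.adj, h.r, e2, hw, hq, p1, gxx.symm'.trans _ _ _ p2⟩
          rw [ht.NS_unique (Tm.step _ _ _ d1 ht''), ht'.NS_unique (Tm.step _ _ _ d2 ht'')]
        · have t1 : ∀ y, ¬ S.Dn w x y := by
            rintro y ⟨u1, s, hu1, hc, h1, h2, h3, h4, h5⟩
            obtain rfl : u1 = u := ar_cs_eq hc.1 e1 hw hu1 h.adj hc.2 h.l.2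
            obtain rfl : s = q := ar_ar_eq hc.1 h1 h2 e1 hw hu1 hc.2
            exact hp ⟨y, h4, h5⟩
          have t2 : ∀ y, ¬ S.Dn w x' y := by
            rintro y ⟨u1, s, hu1, hc, h1, h2, h3, h4, h5⟩
            obtain rfl : u1 = u := ar_cs_eq hc.1 e2 hw hu1 h.adj hc.2 h.r.2
            obtain rfl : s = q := ar_ar_eq hc.1 h1 h2 e2 hw hu1 hc.2
            exact hp ⟨y, h4, gxx.trans _ _ _ h5⟩
          have hne : S.rho w q ≠ Sum.inr ⟨u, h.adj⟩ := by
            rw [S.rho_near hw]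
            intro e
            cases e
          rw [ht.eq_of_term t1, ht'.eq_of_term t2,
            NS_pair hne (sar_hor h.l.1 hw e1) (sar_up h.adj h.l),
            NS_pair hne (sar_hor h.r.1 hw e2) (sar_up h.adj h.r)]
      · have d1 : S.Dn w x x' := ⟨u, q, h.adj, h.l, e1, hw, hq, e2, gxx⟩
        exact ht.NS_unique (Tm.step _ _ _ d1 ht')
    · rcases h.E2 with e2 | e2
      · have d1 : S.Dn w x' x := ⟨u, q, h.adj, h.r, e2, hw, hq, e1, gxx.symm'⟩
        exact (ht'.NS_unique (Tm.step _ _ _ d1 ht)).symm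
      · by_cases e : x = x'
        · rw [← e] at ht'
          exact ht.NS_unique ht'
        · have hd : S.Dia w u q := ⟨hw, x, x', e, e1, e2, gxx⟩
          have : ∃ u', S.Dia w u' q ∧ u' ≠ u := by
            by_contra hcon
            push Not at hcon
            exact hq ⟨hd, hcon⟩
          obtain ⟨u', hd', hne⟩ := this
          have c1 := hd'.two e1
          have c2 := hd'.two e2
          rw [ht.eq_of_term (pass_term h.adj c1.1 hne.symm h.l c1.2),
            ht'.eq_of_term (pass_term h.adj c1.1 hne.symm h.r c2.2),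
            NS_pass h.adj c1.1 hne.symm h.l c1.2, NS_pass h.adj c1.1 hne.symm h.r c2.2]
  · -- passing
    have ha := S.dir_adj hw
    have hb := S.dir_bey hw
    have hne : u ≠ S.dir w q := by
      intro e
      obtain ⟨p, hp⟩ := S.js.ne q
      have h1 := h.near hp
      have h2 := hb hp
      rw [← e] at h2
      exact bey_not h1 h2
    have c1 : S.Cs w (S.dir w q) x := ⟨h.l.1, S.dir_cross h.E1 h.l.1 hw⟩
    have c2 : S.Cs w (S.dir w q) x' := ⟨h.r.1, S.dir_cross h.E2 h.r.1 hw⟩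
    rw [ht.eq_of_term (pass_term h.adj ha hne h.l c1),
      ht'.eq_of_term (pass_term h.adj ha hne h.r c2),
      NS_pass h.adj ha hne h.l c1, NS_pass h.adj ha hne h.r c2]

end Sys

end Pool.Agent.DI
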