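import Pool.Agent.DI.Fd

/-!
# The arrows of the folded slice

`GN w a`: the targets of the arrows of the class of `a` (= images of the targets of the terminal
elements, nothing for the classes of the sinks `t_u`). `arQ`, `rkQ` arrows and ranks of `Q w`.
-/

namespace Pool.Agent.DI

open MulAction
open Pool.Agent.SAF (InC orbs FinOrb oc Decomp SAn SA Conv hull dist_edge FinOrb_iff exists_next)
open Pool.Agent.BT (PX PQ JS bey exits lz lz_self lz_ne lz_symm x_next_unique)
open Pool.Agent.BT.TA

namespace Sys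

variable {H V : Type} [Group H] [MulAction H V] (S : Sys H V)

/-- a terminal element -/
noncomputable def tm (w : S.X) (z : V) : V := (exists_Tm (S := S) w z).choose

variable {S}

theorem Tm_tm (w : S.X) (z : V) : S.Tm w z (S.tm w z) := (exists_Tm (S := S) w z).choose_spec

variable (S)

/-- the targets of the class of `a` -/
def GN (w : S.X) (a : S.SV w) : Set (S.Q w) :=
  {d | (∀ u, ¬ S.Sk w u a) ∧ ∃ x : S.NV w, a = Sum.inl x ∧ d ∈ S.NS w (S.tm w x.1)}

variable {S}

theorem GN_inl {w : S.X} {x : S.NV w} (h : ∀ u, ¬ S.Sk w u (Sum.inl x)) :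
    S.GN w (Sum.inl x) = S.NS w (S.tm w x.1) := by
  ext d
  constructor
  · rintro ⟨-, y, e, hd⟩
    rw [Sum.inl.inj e]
    exact hd
  · intro hd
    exact ⟨h, x, rfl, hd⟩

theorem GN_sk {w : S.X} {a : S.SV w} {u : S.EV w} (h : S.Sk w u a) : S.GN w a = ∅ := by
  ext d
  constructor
  · rintro ⟨k, -⟩
    exact absurd h (k u)
  · intro k
    exact absurd k (Set.notMem_empty d)

theorem GN_fr {w : S.X} {a b : S.SV w} (h : S.FR w a b) : S.GN w a = S.GN w b := by
  by_cases hs : ∃ u, S.Sk w u a
  · obtain ⟨u, hu⟩ := hs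
    rw [GN_sk hu, GN_sk ((Sk.fr h).1 hu)]
  · push Not at hs
    have hs' : ∀ u, ¬ S.Sk w u b := fun u k => hs u ((Sk.fr h).2 k)
    cases h with
    | mer u q x x' h1 h2 =>
      rw [GN_inl hs, GN_inl hs']
      exact NS_mer h1 h2 (Tm_tm w x.1) (Tm_tm w x'.1)
    | dia q u h => exact absurd (Sk.inl.2 h) (hs u)

theorem GN_fq {w : S.X} {a b : S.SV w} (h : S.fq w a = S.fq w b) : S.GN w a = S.GN w b := by
  have k := fq_eq.1 h
  induction k with
  | rel x y k => exact GN_fr k
  | refl x => rfl
  | symm x y k ih => exact (ih (fq_eq.2 k)).symm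
  | trans x y z k1 k2 i1 i2 => exact (i1 (fq_eq.2 k1)).trans (i2 (fq_eq.2 k2))

/-- every terminal element describes the targets -/
theorem GN_tm {w : S.X} {x t : V} (hx : w ∈ S.J x) (h : ∀ u, ¬ S.Sk w u (Sum.inl ⟨x, hx⟩))
    (ht : S.Tm w x t) : S.GN w (Sum.inl ⟨x, hx⟩) = S.NS w t := by
  rw [GN_inl h]
  exact (Tm_tm w x).NS_unique ht

variable (S)

/-- arrows of the folded slice -/
def arQ (w : S.X) (c d : S.Q w) : Prop := ∃ a, S.fq w a = c ∧ d ∈ S.GN w a

open Classical in
/-- the minimal rank of a member -/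
noncomputable def rkQ (w : S.X) (c : S.Q w) : ℕ :=
  sInf {n | ∃ a, S.fq w a = c ∧ S.rkS w a = n}

variable {S}

theorem arQ_fq {w : S.X} {a : S.SV w} {d : S.Q w} : S.arQ w (S.fq w a) d ↔ d ∈ S.GN w a := by
  constructor
  · rintro ⟨b, e, hd⟩
    rwa [GN_fq e] at hd
  · intro h
    exact ⟨a, rfl, h⟩

theorem rkQ_le {w : S.X} (a : S.SV w) : S.rkQ w (S.fq w a) ≤ S.rkS w a :=
  Nat.sInf_le ⟨a, rfl, rfl⟩

theorem exists_bot (w : S.X) (c : S.Q w) : ∃ a, S.fq w a = c ∧ S.rkS w a = S.rkQ w c := by
  obtain ⟨a, ha⟩ := fq_surj w c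
  have h : {n | ∃ a, S.fq w a = c ∧ S.rkS w a = n}.Nonempty := ⟨S.rkS w a, a, ha, rfl⟩
  exact Nat.sInf_mem h

/-- a member of minimal rank is terminal -/
theorem bot_term {w : S.X} {x : V} (hx : w ∈ S.J x)
    (h : S.rkS w (Sum.inl ⟨x, hx⟩) = S.rkQ w (S.fq w (Sum.inl ⟨x, hx⟩))) :
    ∀ y, ¬ S.Dn w x y := by
  intro y hy
  have h1 := hy.rk
  have h2 := hy.fq
  rw [S.rho_near hx, S.rho_near hy.mem.2] at h2
  have h3 := rkQ_le (S := S) (w := w) (Sum.inl ⟨y, hy.mem.2⟩)
  rw [← h2, ← h] at h3
  have h4 : S.K.rk x + 1 ≤ S.K.rk y + 1 := h3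
  omega

theorem arQ_rk {w : S.X} {c d : S.Q w} (h : S.arQ w c d) : S.rkQ w d < S.rkQ w c := by
  obtain ⟨a, rfl, hd⟩ := h
  obtain ⟨b, hb, hr⟩ := exists_bot w (S.fq w a)
  rw [← GN_fq hb] at hd
  obtain ⟨hs, x, rfl, hd⟩ := hd
  rw [← hb] at hr ⊢
  have ht := bot_term x.2 hr
  have e : S.tm w x.1 = x.1 := (Tm_tm w x.1).eq_of_term ht
  rw [e] at hd
  obtain ⟨y, hy, rfl⟩ := hd
  rw [S.rho_near x.2] at hy
  have h1 := rkS_lt hy
  have h2 := rkQ_le (S := S) y
  have h3 : S.rkS w (Sum.inl ⟨x.1, x.2⟩) = S.rkQ w (S.fq w (Sum.inl x)) := hr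
  rw [← h3]
  omega

theorem arQ_two {w : S.X} {v a b c : S.Q w} (ha : S.arQ w v a) (hb : S.arQ w v b)
    (hc : S.arQ w v c) : a = b ∨ b = c ∨ a = c := by
  obtain ⟨y, rfl⟩ := fq_surj w v
  rw [arQ_fq] at ha hb hc
  obtain ⟨-, x, rfl, y1, h1, rfl⟩ := ha
  obtain ⟨-, x', e', y2, h2, rfl⟩ := hb
  obtain ⟨-, x'', e'', y3, h3, rfl⟩ := hc
  rw [← Sum.inl.inj e'] at h2
  rw [← Sum.inl.inj e''] at h3
  rcases SAr.two _ _ _ _ h1 h2 h3 with e | e | e
  · exact Or.inl (by rw [e])
  · exact Or.inr (Or.inl (by rw [e]))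
  · exact Or.inr (Or.inr (by rw [e]))

theorem Sk.smul {w : S.X} (h : ↥(stabilizer H w)) {u : S.EV w} {a : S.SV w} (k : S.Sk w u a) :
    S.Sk w (h • u) (h • a) := by
  rcases a with q | u'
  · exact Sk.inl.2 ((Sk.inl.1 k).smul h)
  · rw [Sk.inr] at k
    exact Sk.inr.2 (by rw [k])

theorem NS_smul {w : S.X} (h : ↥(stabilizer H w)) {z : V} {d : S.Q w} (k : d ∈ S.NS w z) :
    h • d ∈ S.NS w (h.1 • z) := by
  obtain ⟨y, hy, rfl⟩ := k
  refine ⟨h • y, ?_, rfl⟩
  rw [S.rho_smul]
  exact hy.smul h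

theorem Tm.smul {w : S.X} (g : ↥(stabilizer H w)) {z t : V} (h : S.Tm w z t) :
    S.Tm w (g.1 • z) (g.1 • t) := by
  induction h with
  | base z h =>
    refine Tm.base _ fun x k => ?_
    have k' := k.smul g⁻¹
    have e : (g⁻¹).1 • g.1 • z = z := by
      show g.1⁻¹ • g.1 • z = z
      rw [inv_smul_smul]
    rw [e] at k'
    exact h _ k'
  | step z x t h _ ih => exact Tm.step _ _ _ (h.smul g) ih

theorem GN_smul {w : S.X} (h : ↥(stabilizer H w)) {a : S.SV w} {d : S.Q w} (k : d ∈ S.GN w a) :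
    h • d ∈ S.GN w (h • a) := by
  obtain ⟨hs, x, rfl, hd⟩ := k
  have hs' : ∀ u, ¬ S.Sk w u (h • (Sum.inl x : S.SV w)) := by
    intro u ku
    have := ku.smul h⁻¹
    rw [inv_smul_smul] at this
    exact hs _ this
  have h1 := (Tm_tm w x.1).smul h
  have e := GN_tm (S := S) (w := w) (h • x).2 hs' h1
  show h • d ∈ S.GN w (Sum.inl (h • x))
  have e' : S.GN w (Sum.inl (h • x)) = S.NS w (h.1 • S.tm w x.1) := e
  rw [e']
  exact NS_smul h hd

theorem arQ_smul {w : S.X} (h : ↥(stabilizer H w)) {c d : S.Q w} (k : S.arQ w c d) :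
    S.arQ w (h • c) (h • d) := by
  obtain ⟨a, rfl, hd⟩ := k
  exact ⟨h • a, rfl, GN_smul h hd⟩

theorem rkQ_smul {w : S.X} (h : ↥(stabilizer H w)) (c : S.Q w) : S.rkQ w (h • c) = S.rkQ w c := by
  have key : ∀ (h : ↥(stabilizer H w)) (c : S.Q w), S.rkQ w (h • c) ≤ S.rkQ w c := by
    intro h c
    obtain ⟨a, rfl, hr⟩ := exists_bot w c
    rw [← hr, ← fq_smul]
    refine (rkQ_le (S := S) (h • a)).trans (le_of_eq ?_)
    rcases a with x | u
    · show S.K.rk (h.1 • x.1) + 1 = S.K.rk x.1 + 1
      rw [S.K.rk_smul]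
    · rfl
  apply le_antisymm (key h c)
  have := key h⁻¹ (h • c)
  rwa [inv_smul_smul] at this

/-- elements over an edge have the arrow to its sink -/
theorem arQ_up {w : S.X} {x : V} {u : S.X} (hu : S.D.G.Adj w u) (c : S.Cs w u x) :
    S.arQ w (S.fq w (S.rho w x)) (S.fq w (Sum.inr ⟨u, hu⟩)) := by
  rw [S.rho_near c.1, arQ_fq, GN_tm c.1 (fun u' => Sk.not_el hu c.2) (Tm_tm w x)]
  exact ⟨_, sar_up hu ((Tm_tm w x).cs hu c), rfl⟩

/-- arrows of terminal elements -/
theorem arQ_term {w : S.X} {x : V} (hx : w ∈ S.J x) (h : ∀ u, ¬ S.Sk w u (Sum.inl ⟨x, hx⟩))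
    (ht : ∀ y, ¬ S.Dn w x y) {y : S.SV w} (e : S.SAr w (S.rho w x) y) :
    S.arQ w (S.fq w (S.rho w x)) (S.fq w y) := by
  rw [S.rho_near hx, arQ_fq, GN_tm hx h (Tm.base x ht)]
  exact ⟨y, e, rfl⟩

/-- images of arrows -/
theorem arQ_map {w : S.X} {a b : S.SV w} (h : S.SAr w a b) :
    S.fq w a = S.fq w b ∨ S.arQ w (S.fq w a) (S.fq w b) ∨ S.arQ w (S.fq w b) (S.fq w a) := by
  have key : ∀ n, ∀ (x s : V) (hx : w ∈ S.J x) (hs : w ∈ S.J s), S.K.rk x ≤ n → S.K.ar x s →
      S.fq w (S.rho w x) = S.fq w (S.rho w s) ∨ S.arQ w (S.fq w (S.rho w x)) (S.fq w (S.rho w s)) ∨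
        S.arQ w (S.fq w (S.rho w s)) (S.fq w (S.rho w x)) := by
    intro n
    induction n with
    | zero =>
      intro x s _ _ hn e
      have := S.K.ar_rk _ _ e
      omega
    | succ n ih =>
      intro x s hx hs hn e
      by_cases hsk : ∃ u, S.Sk w u (Sum.inl ⟨x, hx⟩)
      · obtain ⟨u, hu⟩ := hsk
        have hd : S.SD w u.1 x := Sk.inl.1 hu
        have h1 := hd.1.two e
        have h2 := arQ_up h1.1 h1.2
        right; right
        rw [S.rho_near hx, fq_inr.2 hu]
        exact h2
      · push Not at hsk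
        by_cases hd : ∃ y, S.Dn w x y
        · obtain ⟨y, u, s', hu, hc, h1, h2, h3, h4, h5⟩ := hd
          have hy : S.Dn w x y := ⟨u, s', hu, hc, h1, h2, h3, h4, h5⟩
          obtain rfl : s' = s := ar_ar_eq hc.1 h1 h2 e hs hu hc.2
          have hrk := S.K.ar_rk _ _ e
          have := ih s' y hs hy.mem.2 (by omega) h4
          rw [hy.fq]
          rcases this with k | k | k
          · exact Or.inl k.symm
          · exact Or.inr (Or.inr k)
          · exact Or.inr (Or.inl k)
        · push Not at hd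
          exact Or.inr (Or.inl (arQ_term hx hsk hd (sar_hor hx hs e)))
  cases h with
  | hor x s e =>
    have := key _ x.1 s.1 x.2 s.2 le_rfl e
    rw [S.rho_near x.2, S.rho_near s.2] at this
    exact this
  | up x u e =>
    have := arQ_up (S := S) (w := w) (x := x.1) u.2 ⟨x.2, e⟩
    rw [S.rho_near x.2] at this
    exact Or.inr (Or.inl this)

/-! ### stabilisers -/

/-- classes without arrows -/
theorem sink_cases {w : S.X} {c : S.Q w} (h : ∀ d, ¬ S.arQ w c d) :
    (∃ u, c = S.fq w (Sum.inr u)) ∨ ∃ x : S.NV w, c = S.fq w (Sum.inl x) ∧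
      ∀ b, S.fq w b = c → b = Sum.inl x := by
  obtain ⟨a, rfl⟩ := fq_surj w c
  by_cases hs : ∃ u, S.Sk w u a
  · obtain ⟨u, hu⟩ := hs
    exact Or.inl ⟨u, fq_inr.2 hu⟩
  · right
    push Not at hs
    rcases a with x | u
    · refine ⟨x, rfl, ?_⟩
      have nocs : ∀ u, S.D.G.Adj w u → u ∉ S.J x.1 := by
        intro u hu hc
        have := arQ_up (S := S) (w := w) (x := x.1) hu ⟨x.2, hc⟩
        rw [S.rho_near x.2] at this
        exact h _ this
      -- no relation starts or ends at `x`
      have key : ∀ a b, S.FR w a b → (a = Sum.inl x ↔ b = Sum.inl x) := by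
        intro a b k
        cases k with
        | mer u q y y' k1 k2 =>
          constructor
          · intro e
            have e' := Sum.inl.inj e
            have := k1.l.2
            rw [e'] at this
            exact absurd this (nocs u k1.adj)
          · intro e
            have e' := Sum.inl.inj e
            have := k1.r.2
            rw [e'] at this
            exact absurd this (nocs u k1.adj)
        | dia q u k =>
          constructor
          · intro e
            rw [← e] at hs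
            exact absurd (Sk.inl.2 k) (hs u)
          · intro e
            cases e
      intro b hb
      have kb := fq_eq.1 hb
      have : ∀ a b, Relation.EqvGen (S.FR w) a b → (a = Sum.inl x ↔ b = Sum.inl x) := by
        intro a b k
        induction k with
        | rel a b k => exact key a b k
        | refl a => exact Iff.rfl
        | symm a b _ ih => exact ih.symm
        | trans a b c _ _ i1 i2 => exact i1.trans i2
      exact (this _ _ kb).2 rfl
    · exact absurd (Or.inl rfl) (hs u)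

theorem inC_Q (w : S.X) (c : S.Q w) : InC ↥(stabilizer ↥(stabilizer H w) c) := by
  have key : ∀ n, ∀ c : S.Q w, S.rkQ w c ≤ n → InC ↥(stabilizer ↥(stabilizer H w) c) := by
    have base : ∀ c : S.Q w, (∀ d, ¬ S.arQ w c d) →
        InC ↥(stabilizer ↥(stabilizer H w) c) := by
      intro c hc
      rcases sink_cases hc with ⟨u, rfl⟩ | ⟨x, rfl, hx⟩
      · refine Pool.Agent.SAG.InC.mono ?_ (S.inC_SV w (Sum.inr u))
        intro h hh
        have h1 : S.fq w (h • (Sum.inr u : S.SV w)) = S.fq w (Sum.inr u) := hh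
        have h2 := fq_inr.1 h1
        have h3 : h • u = u := Sk.inr.1 h2
        show h • (Sum.inr u : S.SV w) = Sum.inr u
        exact congrArg Sum.inr h3
      · refine Pool.Agent.SAG.InC.mono ?_ (S.inC_SV w (Sum.inl x))
        intro h hh
        have h1 : S.fq w (h • (Sum.inl x : S.SV w)) = S.fq w (Sum.inl x) := hh
        exact hx _ h1
    intro n
    induction n with
    | zero =>
      intro c hc
      apply base c
      intro d hd
      have := arQ_rk hd
      omega
    | succ n ih =>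
      intro c hc
      by_cases h : ∃ d, S.arQ w c d
      · obtain ⟨d, hd⟩ := h
        have hrk := arQ_rk hd
        have hdC := ih d (by omega)
        -- the stabiliser of `d` in the stabiliser of `c` has index at most two
        let A : Subgroup ↥(stabilizer ↥(stabilizer H w) c) :=
          (stabilizer ↥(stabilizer H w) d).subgroupOf (stabilizer ↥(stabilizer H w) c)
        have hA : InC ↥A := by
          have h1 : InC ↥(stabilizer ↥(stabilizer H w) c ⊓ stabilizer ↥(stabilizer H w) d) :=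
            Pool.Agent.SAG.InC.mono inf_le_right hdC
          have e : A = (stabilizer ↥(stabilizer H w) c ⊓
              stabilizer ↥(stabilizer H w) d).subgroupOf (stabilizer ↥(stabilizer H w) c) := by
            ext z
            simp only [A, Subgroup.mem_subgroupOf, Subgroup.mem_inf]
            exact ⟨fun k => ⟨z.2, k⟩, fun k => k.2⟩
          rw [e]
          exact Pool.Agent.SAF.InC.iso (Subgroup.subgroupOfEquivOfLe inf_le_left).symm h1
        refine Pool.Agent.SAG.InC.of_index A hA ?_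
        -- finitely many images of `d`
        have : A = stabilizer ↥(stabilizer ↥(stabilizer H w) c) d := by
          ext z
          rfl
        rw [this]
        have hfin : (MulAction.orbit ↥(stabilizer ↥(stabilizer H w) c) d).Finite := by
          have hsub : MulAction.orbit ↥(stabilizer ↥(stabilizer H w) c) d ⊆ {e | S.arQ w c e} := by
            rintro e ⟨g, rfl⟩
            have h1 := arQ_smul g.1 hd
            have h2 : g.1 • c = c := g.2
            rw [h2] at h1
            exact h1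
          refine Set.Finite.subset ?_ hsub
          by_cases h2 : ∃ e, S.arQ w c e ∧ e ≠ d
          · obtain ⟨e, he, hne⟩ := h2
            apply (Set.toFinite ({d, e} : Set (S.Q w))).subset
            intro z hz
            rcases arQ_two hd he hz with k | k | k
            · exact absurd k.symm hne
            · exact Or.inr k.symm
            · exact Or.inl k.symm
          · push Not at h2
            apply (Set.toFinite ({d} : Set (S.Q w))).subset
            intro z hz
            exact h2 z hz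
        have hfo : Finite (MulAction.orbit ↥(stabilizer ↥(stabilizer H w) c) d) := hfin.to_subtype
        have hfq : Finite (↥(stabilizer ↥(stabilizer H w) c) ⧸
            stabilizer ↥(stabilizer ↥(stabilizer H w) c) d) :=
          Finite.of_equiv _ (MulAction.orbitEquivQuotientStabilizer _ d)
        exact Subgroup.index_ne_zero_of_finite
      · push Not at h
        exact base c h
  exact key _ c le_rfl

theorem finOrb_Q (w : S.X) : FinOrb ↥(stabilizer H w) (Set.univ : Set (S.Q w)) := by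
  have h := S.finOrb_SV w
  unfold FinOrb at h ⊢
  have e : orbs ↥(stabilizer H w) (Set.univ : Set (S.Q w)) =
      (Quotient.map' (S.fq w) (by
        rintro a b ⟨g, hg⟩
        refine ⟨g, ?_⟩
        show g • S.fq w b = S.fq w a
        rw [← fq_smul]
        exact congrArg _ hg) : orbitRel.Quotient ↥(stabilizer H w) (S.SV w) →
          orbitRel.Quotient ↥(stabilizer H w) (S.Q w)) ''
        orbs ↥(stabilizer H w) (Set.univ : Set (S.SV w)) := by
    ext o
    constructor
    · rintro ⟨c, -, rfl⟩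
      obtain ⟨a, rfl⟩ := fq_surj w c
      exact ⟨Quotient.mk'' a, ⟨a, trivial, rfl⟩, rfl⟩
    · rintro ⟨_, ⟨a, -, rfl⟩, rfl⟩
      exact ⟨S.fq w a, trivial, rfl⟩
  rw [e]
  exact h.image _

end Sys

end Pool.Agent.DI
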