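import Pool.Agent.DI.GXTr

/-!
# DI/Fold: folding vertices to one of their poles

`Fo K`: an equivariant idempotent `f : V → V` with `x → f x` an arrow whenever `f x ≠ x`. New complex
`F.gx`: same vertices, ranks and cells' index set; a vertex `x` with `f x ≠ x` becomes a stub (the only
arrow is `x → f x`), for `f x = x` the arrows are `x → f z`, `x → z` an old arrow. The cell `i` is the
walk `f (cell i)` with the stutters removed, so its length drops by the number of steps `x, y` of the
cell with `f x = f y`.
-/

namespace Pool.Agent.DI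

open MulAction
open Pool.Agent.SAF (InC orbs FinOrb oc)

/-! ### removing stutters -/

section St

variable {V V' : Type}

open Classical in
/-- the walk `x, l` without stutters -/
noncomputable def dst : V → List V → List V
  | _, [] => []
  | x, y :: l => if y = x then dst x l else y :: dst y l

open Classical in
/-- number of steps `x, y` of the walk with `f x = f y` -/
noncomputable def stn (f : V → V') : V → List V → ℕ
  | _, [] => 0
  | x, y :: l => (if f y = f x then 1 else 0) + stn f y l

@[simp] theorem dst_nil (x : V) : dst x [] = [] := rfl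

theorem dst_cons_eq {x y : V} (h : y = x) (l : List V) : dst x (y :: l) = dst x l := by
  show (open Classical in if y = x then dst x l else y :: dst y l) = _
  rw [if_pos h]

theorem dst_cons_ne {x y : V} (h : y ≠ x) (l : List V) : dst x (y :: l) = y :: dst y l := by
  show (open Classical in if y = x then dst x l else y :: dst y l) = _
  rw [if_neg h]

@[simp] theorem stn_nil (f : V → V') (x : V) : stn f x [] = 0 := rfl

theorem stn_cons_eq {f : V → V'} {x y : V} (h : f y = f x) (l : List V) :
    stn f x (y :: l) = 1 + stn f y l := by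
  show (open Classical in (if f y = f x then 1 else 0) + stn f y l) = _
  rw [if_pos h]

theorem stn_cons_ne {f : V → V'} {x y : V} (h : f y ≠ f x) (l : List V) :
    stn f x (y :: l) = stn f y l := by
  show (open Classical in (if f y = f x then 1 else 0) + stn f y l) = _
  rw [if_neg h, zero_add]

theorem tg_dst (x : V) (l : List V) : tg x (dst x l) = tg x l := by
  induction l generalizing x with
  | nil => rfl
  | cons y l ih =>
    by_cases h : y = x
    · rw [dst_cons_eq h, ih x, tg_cons, h]
    · rw [dst_cons_ne h, tg_cons, tg_cons, ih y]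

/-- the length after removing the stutters -/
theorem length_dst (f : V → V') (x : V) (l : List V) :
    (dst (f x) (l.map f)).length + stn f x l = l.length := by
  induction l generalizing x with
  | nil => rfl
  | cons y l ih =>
    have k := ih y
    by_cases h : f y = f x
    · rw [List.map_cons, dst_cons_eq h, stn_cons_eq h, List.length_cons, ← h]
      omega
    · rw [List.map_cons, dst_cons_ne h, stn_cons_ne h, List.length_cons, List.length_cons]
      omega

theorem Wk_dst {E : V → V → Prop} {E' : V' → V' → Prop} {f : V → V'}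
    (h : ∀ x y, E x y → f y = f x ∨ E' (f x) (f y)) {x : V} {l : List V} (w : Wk E x l) :
    Wk E' (f x) (dst (f x) (l.map f)) := by
  induction l generalizing x with
  | nil => trivial
  | cons y l ih =>
    have k := ih w.2
    by_cases e : f y = f x
    · rw [List.map_cons, dst_cons_eq e, ← e]
      exact k
    · rw [List.map_cons, dst_cons_ne e]
      exact ⟨(h _ _ w.1).resolve_left e, k⟩

theorem dst_smul {H V : Type} [Group H] [MulAction H V] (h : H) (x : V) (l : List V) :
    dst (h • x) (l.map (fun z => h • z)) = (dst x l).map (fun z => h • z) := by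
  induction l generalizing x with
  | nil => rfl
  | cons y l ih =>
    by_cases e : y = x
    · have e' : h • y = h • x := by rw [e]
      rw [List.map_cons, dst_cons_eq e', dst_cons_eq e, ih x]
    · have e' : h • y ≠ h • x := fun k => e (smul_left_cancel h k)
      rw [List.map_cons, dst_cons_ne e', dst_cons_ne e, ih y, List.map_cons]

open Classical in
/-- the word of the edge `x y` -/
noncomputable def fw (f : V → V') (x y : V) : List V' := if f y = f x then [] else [f y]

theorem fw_eq {f : V → V'} {x y : V} (h : f y = f x) : fw f x y = [] := by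
  unfold fw
  rw [if_pos h]

theorem fw_ne {f : V → V'} {x y : V} (h : f y ≠ f x) : fw f x y = [f y] := by
  unfold fw
  rw [if_neg h]

theorem sub_fw (f : V → V') (x : V) (l : List V) :
    sub (fw f) x l = dst (f x) (l.map f) := by
  induction l generalizing x with
  | nil => rfl
  | cons y l ih =>
    by_cases h : f y = f x
    · rw [sub_cons, fw_eq h, List.map_cons, dst_cons_eq h, ih y, h]
      rfl
    · rw [sub_cons, fw_ne h, List.map_cons, dst_cons_ne h, ih y]
      rfl

end St

/-! ### the fold -/

section

variable {H V : Type} [Group H] [MulAction H V]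

/-- the arrows after the fold -/
def foAr (K : GX H V) (f : V → V) (x y : V) : Prop :=
  (f x = x ∧ ∃ z, K.ar x z ∧ f z = y) ∨ (f x ≠ x ∧ y = f x)

/-- folding data -/
structure Fo (K : GX H V) where
  f : V → V
  f_smul : ∀ (h : H) (x : V), f (h • x) = h • f x
  idem : ∀ x, f (f x) = f x
  f_ar : ∀ x, f x ≠ x → K.ar x (f x)
  adj : ∀ x y, K.ar x y → f x = f y ∨ foAr K f (f x) (f y) ∨ foAr K f (f y) (f x)

namespace Fo

variable {K : GX H V} (F : Fo K)

/-- the arrows after the fold -/
def ar' (x y : V) : Prop := foAr K F.f x y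

/-- adjacency after the fold -/
def E' (x y : V) : Prop := F.ar' x y ∨ F.ar' y x

theorem E'_symm {x y : V} (h : F.E' x y) : F.E' y x := Or.symm h

theorem ar'_iff {x y : V} :
    F.ar' x y ↔ (F.f x = x ∧ ∃ z, K.ar x z ∧ F.f z = y) ∨ (F.f x ≠ x ∧ y = F.f x) := Iff.rfl

theorem rk_f (x : V) : K.rk (F.f x) ≤ K.rk x := by
  by_cases h : F.f x = x
  · rw [h]
  · exact (K.ar_rk _ _ (F.f_ar x h)).le

theorem ar'_rk {x y : V} (h : F.ar' x y) : K.rk y < K.rk x := by
  rcases h with ⟨-, z, hz, rfl⟩ | ⟨hx, rfl⟩
  · exact lt_of_le_of_lt (F.rk_f z) (K.ar_rk _ _ hz)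
  · exact K.ar_rk _ _ (F.f_ar x hx)

theorem ar'_smul (h : H) {x y : V} (e : F.ar' x y) : F.ar' (h • x) (h • y) := by
  rcases e with ⟨hx, z, hz, rfl⟩ | ⟨hx, rfl⟩
  · refine Or.inl ⟨?_, h • z, K.ar_smul h _ _ hz, F.f_smul h z⟩
    rw [F.f_smul, hx]
  · refine Or.inr ⟨fun k => hx ?_, (F.f_smul h x).symm⟩
    rw [F.f_smul] at k
    exact smul_left_cancel h k

theorem two' {x a b c : V} (ha : F.ar' x a) (hb : F.ar' x b) (hc : F.ar' x c) :
    a = b ∨ b = c ∨ a = c := by
  rcases ha with ⟨hx, z, hz, rfl⟩ | ⟨hx, rfl⟩
  · rcases hb with ⟨-, z', hz', rfl⟩ | ⟨hx', -⟩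
    · rcases hc with ⟨-, z'', hz'', rfl⟩ | ⟨hx', -⟩
      · rcases K.two _ _ _ _ hz hz' hz'' with rfl | rfl | rfl
        · exact Or.inl rfl
        · exact Or.inr (Or.inl rfl)
        · exact Or.inr (Or.inr rfl)
      · exact absurd hx hx'
    · exact absurd hx hx'
  · rcases hb with ⟨hx', -⟩ | ⟨-, rfl⟩
    · exact absurd hx' hx
    · exact Or.inl rfl

theorem E'_f {x : V} (h : F.f x ≠ x) : F.E' x (F.f x) := Or.inl (Or.inr ⟨h, rfl⟩)

/-- the edges go to edges or points -/
theorem E_map {x y : V} (h : K.E x y) : F.f y = F.f x ∨ F.E' (F.f x) (F.f y) := by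
  rcases h with h | h
  · rcases F.adj _ _ h with e | e | e
    · exact Or.inl e.symm
    · exact Or.inr (Or.inl e)
    · exact Or.inr (Or.inr e)
  · rcases F.adj _ _ h with e | e | e
    · exact Or.inl e
    · exact Or.inr (Or.inr e)
    · exact Or.inr (Or.inl e)

theorem conn' (x y : V) : Relation.ReflTransGen F.E' x y := by
  have h1 : ∀ x, Relation.ReflTransGen F.E' x (F.f x) := by
    intro x
    by_cases h : F.f x = x
    · rw [h]
    · exact Relation.ReflTransGen.single (F.E'_f h)
  have h2 : ∀ x, Relation.ReflTransGen F.E' (F.f x) x := by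
    intro x
    by_cases h : F.f x = x
    · rw [h]
    · exact Relation.ReflTransGen.single (F.E'_symm (F.E'_f h))
  have h3 : ∀ x y, Relation.ReflTransGen (fun a b => K.ar a b ∨ K.ar b a) x y →
      Relation.ReflTransGen F.E' (F.f x) (F.f y) := by
    intro x y h
    induction h with
    | refl => exact Relation.ReflTransGen.refl
    | tail _ e ih =>
      rcases F.E_map e with k | k
      · rw [k]
        exact ih
      · exact ih.tail k
  exact ((h1 x).trans (h3 x y (K.conn x y))).trans (h2 y)

/-- the folded complex -/
noncomputable def gx : GX H V where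
  ar := F.ar'
  rk := K.rk
  I := K.I
  finI := K.finI
  cb := fun i => F.f (K.cb i)
  cw := fun i => dst (F.f (K.cb i)) ((K.cw i).map F.f)
  ar_rk := fun _ _ h => F.ar'_rk h
  ar_smul := fun h _ _ e => F.ar'_smul h e
  rk_smul := K.rk_smul
  two := fun _ _ _ _ ha hb hc => F.two' ha hb hc
  c_E := fun i => Wk_dst (f := F.f) (fun _ _ e => F.E_map e) (K.c_E i)
  c_tg := fun i => by rw [tg_dst, tg_map, K.c_tg i]
  ne := K.ne
  conn := F.conn'
  H1 := by
    intro φ hs hc
    refine GX.transport K (E' := F.E') (I' := K.I) (cb' := fun i => F.f (K.cb i))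
      (cw' := fun i => dst (F.f (K.cb i)) ((K.cw i).map F.f)) F.f (fw F.f) F.f_smul
      ?_ ?_ ?_ ?_ ?_ φ hs hc
    · intro x y _
      by_cases h : F.f y = F.f x
      · rw [fw_eq h, h]
        rfl
      · rw [fw_ne h]
        rfl
    · intro h x y _
      by_cases e : F.f y = F.f x
      · have e' : F.f (h • y) = F.f (h • x) := by rw [F.f_smul, F.f_smul, e]
        rw [fw_eq e, fw_eq e']
        rfl
      · have e' : F.f (h • y) ≠ F.f (h • x) := by
          rw [F.f_smul, F.f_smul]
          exact fun k => e (smul_left_cancel h k)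
        rw [fw_ne e, fw_ne e', F.f_smul]
        rfl
    · intro ψ c x y _
      by_cases e : F.f y = F.f x
      · rw [fw_eq e, fw_eq e.symm]
        rfl
      · rw [fw_ne e, fw_ne (fun k => e k.symm), ps_cons, ps_cons, c.1]
        rfl
    · intro ψ c i
      have := c.2 i 1
      rw [sub_fw]
      simpa using this
    · intro ψ c g hg
      -- `g` is constant along the folded arrows
      have hgf : ∀ x, g x = g (F.f x) := by
        intro x
        by_cases h : F.f x = x
        · rw [h]
        · have k := hg x (F.f x) (Or.inl (F.f_ar x h))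
          rw [fw_eq (F.idem x), ps_nil] at k
          have k2 := CharTwo.add_self_eq_zero (g (F.f x))
          linear_combination (-1 : ZMod 2) * k - k2
      classical
      refine ⟨fun x => if F.f x = x then g x else g (F.f x) + ψ x (F.f x), ?_⟩
      have main : ∀ x y, F.ar' x y → ψ x y = (if F.f x = x then g x else g (F.f x) + ψ x (F.f x)) +
          (if F.f y = y then g y else g (F.f y) + ψ y (F.f y)) := by
        intro x y e
        rcases e with ⟨hx, z, hz, rfl⟩ | ⟨hx, rfl⟩
        · have hne : F.f z ≠ F.f x := by
            intro k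
            have h1 := K.ar_rk _ _ hz
            have h2 := F.rk_f z
            rw [k, hx] at h2
            omega
          have k := hg x z (Or.inl hz)
          rw [fw_ne hne, ps_cons, ps_nil, add_zero, hx] at k
          rw [if_pos hx, if_pos (F.idem z), k, hgf z]
        · rw [if_neg hx, if_pos (F.idem x)]
          have k2 := CharTwo.add_self_eq_zero (g (F.f x))
          linear_combination -k2
      intro x y e
      rcases e with e | e
      · exact main x y e
      · rw [c.1, main y x e, add_comm]
  fin := K.fin
  stab := K.stab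

theorem gx_ar {x y : V} : F.gx.ar x y ↔ F.ar' x y := Iff.rfl

theorem gx_rk : F.gx.rk = K.rk := rfl

theorem gx_cb (i : K.I) : F.gx.cb i = F.f (K.cb i) := rfl

theorem gx_cw (i : K.I) : F.gx.cw i = dst (F.f (K.cb i)) ((K.cw i).map F.f) := rfl

/-- exact lengths -/
theorem gx_length (i : K.I) :
    (F.gx.cw i).length + stn F.f (K.cb i) (K.cw i) = (K.cw i).length :=
  length_dst F.f (K.cb i) (K.cw i)

theorem gx_area [Fintype K.I] :
    F.gx.area = ∑ i : K.I, ((K.cw i).length - stn F.f (K.cb i) (K.cw i) - 4) := by
  have e : F.gx.area = ∑ᶠ i : K.I, ((F.gx.cw i).length - 4) := rfl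
  rw [e, finsum_eq_sum_of_fintype]
  refine Finset.sum_congr rfl fun i _ => ?_
  have := F.gx_length i
  omega

end Fo

end

end Pool.Agent.DI
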