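import Mathlib.Data.Int.LeastGreatest
import Mathlib.Tactic

/-!
# DI/Frame: the lexicographic frame of the proof

`LexLt l C' C`: `C'` is smaller than `C` for the list `l` of integer potentials, lexicographically.
`exists_lexmin`: every nonempty class has a minimal element if all potentials are bounded below.
`frame`: if every state has a smaller one there are no states.
`LexLt.cons`: to go down it suffices that the first potential does not rise and that the state goes
down for the remaining ones if it is constant; so an order is used by one `refine LexLt.cons _ _` for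
each potential.
-/

namespace Pool.Agent.DI

universe v

variable {St : Type v}

/-- lexicographic comparison by a list of integer potentials -/
def LexLt : List (St → ℤ) → St → St → Prop
  | [], _, _ => False
  | f :: l, C', C => f C' < f C ∨ (f C' = f C ∧ LexLt l C' C)

theorem LexLt.cons {f : St → ℤ} {l : List (St → ℤ)} {C' C : St} (h : f C' ≤ f C)
    (h' : f C' = f C → LexLt l C' C) : LexLt (f :: l) C' C := by
  rcases h.lt_or_eq with h | h
  · exact Or.inl h
  · exact Or.inr ⟨h, h' h⟩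

theorem LexLt.head {f : St → ℤ} {l : List (St → ℤ)} {C' C : St} (h : f C' < f C) :
    LexLt (f :: l) C' C := Or.inl h

/-- a bounded integer function attains its minimum on every nonempty class -/
theorem exists_min_int {Q : St → Prop} (hQ : ∃ C, Q C) (f : St → ℤ) (hb : ∃ B, ∀ C, Q C → B ≤ f C) :
    ∃ C, Q C ∧ ∀ C', Q C' → f C ≤ f C' := by
  obtain ⟨C0, h0⟩ := hQ
  obtain ⟨B, hB⟩ := hb
  obtain ⟨m, ⟨C, h1, rfl⟩, h2⟩ := Int.exists_least_of_bdd (P := fun z => ∃ C, Q C ∧ f C = z)
    ⟨B, by rintro z ⟨C, hC, rfl⟩; exact hB C hC⟩ ⟨f C0, C0, h0, rfl⟩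
  exact ⟨C, h1, fun C' h' => h2 _ ⟨C', h', rfl⟩⟩

/-- minimal elements -/
theorem exists_lexmin (l : List (St → ℤ)) {Q : St → Prop} (hQ : ∃ C, Q C)
    (hb : ∀ f ∈ l, ∃ B, ∀ C, Q C → B ≤ f C) : ∃ C, Q C ∧ ∀ C', Q C' → ¬ LexLt l C' C := by
  induction l generalizing Q with
  | nil =>
    obtain ⟨C, h⟩ := hQ
    exact ⟨C, h, fun _ _ h' => h'⟩
  | cons f l ih =>
    obtain ⟨C0, h0, h1⟩ := exists_min_int hQ f (hb f (List.mem_cons_self ..))
    obtain ⟨C, ⟨h2, h3⟩, h4⟩ := ih (Q := fun C => Q C ∧ f C = f C0) ⟨C0, h0, rfl⟩ (by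
      intro g hg
      obtain ⟨B, hB⟩ := hb g (List.mem_cons_of_mem _ hg)
      exact ⟨B, fun C hC => hB C hC.1⟩)
    refine ⟨C, h2, fun C' h' h5 => ?_⟩
    rcases h5 with h5 | ⟨h5, h6⟩
    · have := h1 C' h'
      omega
    · exact h4 C' ⟨h', h5.trans h3⟩ h6

/-- the frame -/
theorem frame (hne : Nonempty St) (l : List (St → ℤ)) (hb : ∀ f ∈ l, ∃ B, ∀ C, B ≤ f C)
    (step : ∀ C : St, ∃ C', LexLt l C' C) : False := by
  obtain ⟨C0⟩ := hne
  obtain ⟨C, -, h⟩ := exists_lexmin l (Q := fun _ => True) ⟨C0, trivial⟩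
    (fun f hf => (hb f hf).imp fun B hB C _ => hB C)
  obtain ⟨C', h'⟩ := step C
  exact h C' trivial h'

end Pool.Agent.DI
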