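import Pool.Agent.BT.PBase
import Pool.Agent.BT.PClean

/-!
# Pole complexes with cells of any length

`GX`: like `BT.PX`, but the cells are explicit closed walks of any length (base vertex `cb i`, further
vertices `cw i`, the last one is `cb i` again) and NO other walk is filled. `area`: the sum of
`length - 4`.
-/

namespace Pool.Agent.DI

open MulAction
open Pool.Agent.SAF (InC orbs FinOrb oc)
open Pool.Agent.BT (PX)

/-! ### walks -/

section Walks

variable {V V' : Type}

/-- sum of `φ` along the walk `x, l` -/
def ps (φ : V → V → ZMod 2) : V → List V → ZMod 2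
  | _, [] => 0
  | x, y :: l => φ x y + ps φ y l

/-- the walk `x, l` follows `E` -/
def Wk (E : V → V → Prop) : V → List V → Prop
  | _, [] => True
  | x, y :: l => E x y ∧ Wk E y l

/-- the last vertex of the walk `x, l` -/
def tg : V → List V → V
  | x, [] => x
  | _, y :: l => tg y l

/-- the reversed walk -/
def rv : V → List V → List V
  | _, [] => []
  | x, y :: l => rv y l ++ [x]

@[simp] theorem ps_nil (φ : V → V → ZMod 2) (x : V) : ps φ x [] = 0 := rfl

@[simp] theorem ps_cons (φ : V → V → ZMod 2) (x y : V) (l : List V) :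
    ps φ x (y :: l) = φ x y + ps φ y l := rfl

@[simp] theorem Wk_nil (E : V → V → Prop) (x : V) : Wk E x [] := trivial

@[simp] theorem Wk_cons (E : V → V → Prop) (x y : V) (l : List V) :
    Wk E x (y :: l) ↔ E x y ∧ Wk E y l := Iff.rfl

@[simp] theorem tg_nil (x : V) : tg x [] = x := rfl

@[simp] theorem tg_cons (x y : V) (l : List V) : tg x (y :: l) = tg y l := rfl

@[simp] theorem rv_nil (x : V) : rv x [] = [] := rfl

@[simp] theorem rv_cons (x y : V) (l : List V) : rv x (y :: l) = rv y l ++ [x] := rfl

theorem tg_append (x : V) (l m : List V) : tg x (l ++ m) = tg (tg x l) m := by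
  induction l generalizing x with
  | nil => rfl
  | cons y l ih => exact ih y

theorem ps_append (φ : V → V → ZMod 2) (x : V) (l m : List V) :
    ps φ x (l ++ m) = ps φ x l + ps φ (tg x l) m := by
  induction l generalizing x with
  | nil => simp
  | cons y l ih => rw [List.cons_append, ps_cons, ps_cons, ih y, tg_cons, add_assoc]

theorem Wk_append {E : V → V → Prop} {x : V} {l m : List V} :
    Wk E x (l ++ m) ↔ Wk E x l ∧ Wk E (tg x l) m := by
  induction l generalizing x with
  | nil => simp
  | cons y l ih => rw [List.cons_append, Wk_cons, Wk_cons, ih, tg_cons, and_assoc]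

theorem tg_rv (x : V) (l : List V) : tg (tg x l) (rv x l) = x := by
  cases l with
  | nil => rfl
  | cons y l => rw [rv_cons, tg_append]; rfl

theorem Wk_rv {E : V → V → Prop} (hE : ∀ x y, E x y → E y x) {x : V} {l : List V}
    (h : Wk E x l) : Wk E (tg x l) (rv x l) := by
  induction l generalizing x with
  | nil => trivial
  | cons y l ih =>
    rw [rv_cons, Wk_append, tg_cons]
    refine ⟨ih h.2, ?_⟩
    rw [tg_rv]
    exact ⟨hE _ _ h.1, trivial⟩

theorem ps_rv {φ : V → V → ZMod 2} (hs : ∀ x y, φ x y = φ y x) (x : V) (l : List V) :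
    ps φ (tg x l) (rv x l) = ps φ x l := by
  induction l generalizing x with
  | nil => rfl
  | cons y l ih =>
    rw [rv_cons, ps_append, tg_cons, ih, tg_rv]
    simp only [ps_cons, ps_nil, add_zero]
    rw [hs y x, add_comm]

theorem tg_map (f : V → V') (x : V) (l : List V) : tg (f x) (l.map f) = f (tg x l) := by
  induction l generalizing x with
  | nil => rfl
  | cons y l ih => exact ih y

theorem ps_map (f : V → V') (φ : V' → V' → ZMod 2) (x : V) (l : List V) :
    ps φ (f x) (l.map f) = ps (fun a b => φ (f a) (f b)) x l := by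
  induction l generalizing x with
  | nil => rfl
  | cons y l ih => rw [List.map_cons, ps_cons, ps_cons, ih]

theorem Wk_map {E : V → V → Prop} {E' : V' → V' → Prop} (f : V → V')
    (h : ∀ x y, E x y → E' (f x) (f y)) {x : V} {l : List V} (w : Wk E x l) :
    Wk E' (f x) (l.map f) := by
  induction l generalizing x with
  | nil => trivial
  | cons y l ih => exact ⟨h _ _ w.1, ih w.2⟩

theorem Wk.mono {E E' : V → V → Prop} (h : ∀ x y, E x y → E' x y) {x : V} {l : List V}
    (w : Wk E x l) : Wk E' x l := by
  induction l generalizing x with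
  | nil => trivial
  | cons y l ih => exact ⟨h _ _ w.1, ih w.2⟩

theorem ps_congr {E : V → V → Prop} {φ ψ : V → V → ZMod 2} {x : V} {l : List V}
    (h : ∀ x y, E x y → φ x y = ψ x y) (w : Wk E x l) : ps φ x l = ps ψ x l := by
  induction l generalizing x with
  | nil => rfl
  | cons y l ih => rw [ps_cons, ps_cons, h _ _ w.1, ih w.2]

/-- the sum of a coboundary -/
theorem ps_cob {E : V → V → Prop} {φ : V → V → ZMod 2} {g : V → ZMod 2} {x : V} {l : List V}
    (h : ∀ x y, E x y → φ x y = g x + g y) (w : Wk E x l) : ps φ x l = g x + g (tg x l) := by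
  induction l generalizing x with
  | nil => exact (CharTwo.add_self_eq_zero _).symm
  | cons y l ih =>
    rw [ps_cons, h _ _ w.1, ih w.2, tg_cons]
    have k := CharTwo.add_self_eq_zero (g y)
    linear_combination k

end Walks

/-! ### the structure -/

/-- pole complexes with cells of any length; only the translates of the cells are filled -/
structure GX (H V : Type) [Group H] [MulAction H V] where
  ar : V → V → Prop
  rk : V → ℕ
  I : Type
  finI : Finite I
  cb : I → V
  cw : I → List V
  ar_rk : ∀ v a, ar v a → rk a < rk v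
  ar_smul : ∀ (h : H) (v a : V), ar v a → ar (h • v) (h • a)
  rk_smul : ∀ (h : H) (v : V), rk (h • v) = rk v
  two : ∀ v a b c, ar v a → ar v b → ar v c → a = b ∨ b = c ∨ a = c
  c_E : ∀ i, Wk (fun a b => ar a b ∨ ar b a) (cb i) (cw i)
  c_tg : ∀ i, tg (cb i) (cw i) = cb i
  ne : Nonempty V
  conn : ∀ x y, Relation.ReflTransGen (fun a b => ar a b ∨ ar b a) x y
  H1 : ∀ φ : V → V → ZMod 2, (∀ x y, φ x y = φ y x) →
    (∀ (i : I) (h : H), ps φ (h • cb i) ((cw i).map (fun z => h • z)) = 0) →
    ∃ g : V → ZMod 2, ∀ x y, (ar x y ∨ ar y x) → φ x y = g x + g y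
  fin : FinOrb H (Set.univ : Set V)
  stab : ∀ v : V, InC ↥(stabilizer H v)

namespace GX

variable {H V : Type} [Group H] [MulAction H V] (K : GX H V)

/-- adjacency -/
def E (x y : V) : Prop := K.ar x y ∨ K.ar y x

theorem E.symm {K : GX H V} {x y : V} (h : K.E x y) : K.E y x := Or.symm h

theorem E_irr (x : V) : ¬ K.E x x := by
  rintro (h | h)
  · exact absurd (K.ar_rk _ _ h) (lt_irrefl _)
  · exact absurd (K.ar_rk _ _ h) (lt_irrefl _)

theorem E.ne {K : GX H V} {x y : V} (h : K.E x y) : x ≠ y := by
  rintro rfl
  exact K.E_irr _ h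

theorem E_smul (h : H) {x y : V} (e : K.E x y) : K.E (h • x) (h • y) :=
  e.imp (K.ar_smul h _ _) (K.ar_smul h _ _)

/-- the area: the sum of `length - 4` -/
noncomputable def area : ℕ := ∑ᶠ i : K.I, ((K.cw i).length - 4)

theorem area_eq [Fintype K.I] : K.area = ∑ i, ((K.cw i).length - 4) :=
  finsum_eq_sum_of_fintype _

end GX

end Pool.Agent.DI
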