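import Pool.Agent.DI.GXTr
import Pool.Agent.BT.KVtx

/-!
# New softs in a `GX`

`NS K S`: an `H`-set `S` of new vertices with at most two poles in `K` and finitely many orbits of new
cells `js j, jb j, jl j` (base vertex `ja j`, then the new vertex, then a `K`-walk from `jb j` back to
`ja j`), such that two different poles of a new vertex are joined by a new cell. `NS.add`: the new
complex on `V ⊕ S`; old cells are unchanged. `GX.softS`: the data for one orbit `H ⧸ D`.
-/

namespace Pool.Agent.DI

open MulAction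
open Pool.Agent.SAF (InC orbs FinOrb oc InC.iso FinOrb_iff)
open Pool.Agent.BT (FinOrb.image_equi)

section

variable {H V : Type} [Group H] [MulAction H V]

/-- new softs -/
structure NS (K : GX H V) (S : Type) [MulAction H S] where
  pl : S → V → Prop
  rk : S → ℕ
  J : Type
  finJ : Finite J
  js : J → S
  ja : J → V
  jb : J → V
  jl : J → List V
  pl_smul : ∀ (h : H) (s : S) (v : V), pl s v → pl (h • s) (h • v)
  two : ∀ s a b c, pl s a → pl s b → pl s c → a = b ∨ b = c ∨ a = c
  pl_rk : ∀ s v, pl s v → K.rk v < rk s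
  rk_smul : ∀ (h : H) (s : S), rk (h • s) = rk s
  one : ∀ s, ∃ v, pl s v
  pla : ∀ j, pl (js j) (ja j)
  plb : ∀ j, pl (js j) (jb j)
  wk : ∀ j, Wk K.E (jb j) (jl j)
  tgl : ∀ j, tg (jb j) (jl j) = ja j
  cov : ∀ s a b, pl s a → pl s b → a ≠ b → ∃ (j : J) (h : H), h • js j = s ∧
    ((h • ja j = a ∧ h • jb j = b) ∨ (h • ja j = b ∧ h • jb j = a))
  fin : FinOrb H (Set.univ : Set S)
  stab : ∀ s : S, InC ↥(stabilizer H s)

namespace NS

variable {K : GX H V} {S : Type} [MulAction H S] (N : NS K S)

/-- the arrows of the new complex -/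
def ar : V ⊕ S → V ⊕ S → Prop
  | Sum.inl v, Sum.inl a => K.ar v a
  | Sum.inr s, Sum.inl a => N.pl s a
  | _, Sum.inr _ => False

/-- the ranks of the new complex -/
def rkN : V ⊕ S → ℕ
  | Sum.inl v => K.rk v
  | Sum.inr s => N.rk s

/-- base vertices of the cells -/
def cbN : K.I ⊕ N.J → V ⊕ S
  | Sum.inl i => Sum.inl (K.cb i)
  | Sum.inr j => Sum.inl (N.ja j)

/-- further vertices of the cells -/
def cwN : K.I ⊕ N.J → List (V ⊕ S)
  | Sum.inl i => (K.cw i).map Sum.inl
  | Sum.inr j => Sum.inr (N.js j) :: Sum.inl (N.jb j) :: (N.jl j).map Sum.inl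

/-- the edges of the new complex -/
def EN (x y : V ⊕ S) : Prop := N.ar x y ∨ N.ar y x

theorem ar_inl {v a : V} : N.ar (Sum.inl v) (Sum.inl a) ↔ K.ar v a := Iff.rfl

theorem ar_inr {s : S} {a : V} : N.ar (Sum.inr s) (Sum.inl a) ↔ N.pl s a := Iff.rfl

theorem not_ar {x : V ⊕ S} {s : S} : ¬ N.ar x (Sum.inr s) := by
  rcases x with x | x <;> exact id

theorem EN_inl {v a : V} : N.EN (Sum.inl v) (Sum.inl a) ↔ K.E v a := Iff.rfl

theorem EN_inr {s : S} {a : V} : N.EN (Sum.inr s) (Sum.inl a) ↔ N.pl s a :=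
  ⟨fun h => h.elim id (fun k => (N.not_ar k).elim), Or.inl⟩

theorem EN_inr' {s : S} {a : V} : N.EN (Sum.inl a) (Sum.inr s) ↔ N.pl s a :=
  ⟨fun h => h.elim (fun k => (N.not_ar k).elim) id, Or.inr⟩

theorem not_EN {s t : S} : ¬ N.EN (Sum.inr s) (Sum.inr t) := by
  rintro (h | h)
  · exact N.not_ar h
  · exact N.not_ar h

omit [MulAction H S] in
/-- the potential on a `K`-walk -/
theorem ps_inl {φ : V ⊕ S → V ⊕ S → ZMod 2} {g : V → ZMod 2}
    (hg : ∀ x y, K.E x y → φ (Sum.inl x) (Sum.inl y) = g x + g y) {x : V} {l : List V}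
    (hl : Wk K.E x l) : ps φ (Sum.inl x) (l.map Sum.inl) = g x + g (tg x l) := by
  rw [ps_map Sum.inl]
  exact ps_cob (E := K.E) hg hl

theorem H1N (φ : V ⊕ S → V ⊕ S → ZMod 2) (hs : ∀ x y, φ x y = φ y x)
    (hc : ∀ (i : K.I ⊕ N.J) (h : H), ps φ (h • N.cbN i) ((N.cwN i).map (fun z => h • z)) = 0) :
    ∃ g' : V ⊕ S → ZMod 2, ∀ x y, N.EN x y → φ x y = g' x + g' y := by
  refine K.transport (E' := N.EN) (cb' := N.cbN) (cw' := N.cwN) Sum.inl
    (fun _ y => [Sum.inl y]) (fun _ _ => rfl) (fun _ _ _ => rfl) (fun _ _ _ _ => rfl)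
    (fun φ c x y _ => ?_) (fun φ c i => ?_) (fun φ c g hg => ?_) φ hs hc
  · simp only [ps_cons, ps_nil, add_zero]
    exact c.1 _ _
  · have h1 : ∀ (x : V) (l : List V),
        sub (fun _ y => [(Sum.inl y : V ⊕ S)]) x l = l.map Sum.inl := by
      intro x l
      induction l generalizing x with
      | nil => rfl
      | cons y l ih => rw [sub_cons, ih]; rfl
    have h2 := c.2 (Sum.inl i) 1
    rw [h1]
    simp only [one_smul, List.map_id'] at h2
    exact h2
  · have hg' : ∀ x y, K.E x y → φ (Sum.inl x) (Sum.inl y) = g x + g y := by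
      intro x y e
      have := hg x y e
      simpa only [ps_cons, ps_nil, add_zero] using this
    classical
    refine ⟨fun x => Sum.elim g (fun s => φ (Sum.inr s) (Sum.inl (N.one s).choose)
      + g (N.one s).choose) x, ?_⟩
    -- the value does not depend on the pole
    have key : ∀ s a b, N.pl s a → N.pl s b →
        φ (Sum.inr s) (Sum.inl a) + g a = φ (Sum.inr s) (Sum.inl b) + g b := by
      intro s a b ha hb
      by_cases hab : a = b
      · rw [hab]
      · obtain ⟨j, h, e, hh⟩ := N.cov s a b ha hb hab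
        have h2 := c.2 (Sum.inr j) h
        have hw : Wk K.E (h • N.jb j) ((N.jl j).map (fun z => h • z)) :=
          Wk_map (fun z => h • z) (fun x y e => K.E_smul h e) (N.wk j)
        have ht : tg (h • N.jb j) ((N.jl j).map (fun z => h • z)) = h • N.ja j := by
          rw [tg_map (fun z => h • z), N.tgl]
        have h3 : ps φ (Sum.inl (h • N.jb j))
            ((((N.jl j).map Sum.inl : List (V ⊕ S))).map (fun z => h • z))
            = g (h • N.jb j) + g (h • N.ja j) := by
          have e2 : (((N.jl j).map Sum.inl : List (V ⊕ S))).map (fun z => h • z)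
              = ((N.jl j).map (fun z => h • z)).map Sum.inl := by
            rw [List.map_map, List.map_map]
            rfl
          rw [e2, ps_inl hg' hw, ht]
        have h4 : φ (Sum.inl (h • N.ja j)) (Sum.inr (h • N.js j))
            + (φ (Sum.inr (h • N.js j)) (Sum.inl (h • N.jb j))
              + (g (h • N.jb j) + g (h • N.ja j))) = 0 := by
          rw [← h3]
          exact h2
        rw [e] at h4
        have h5 := c.1 (Sum.inl (h • N.ja j)) (Sum.inr s)
        rw [h5] at h4
        have h6 : φ (Sum.inr s) (Sum.inl (h • N.ja j)) + g (h • N.ja j)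
            = φ (Sum.inr s) (Sum.inl (h • N.jb j)) + g (h • N.jb j) := by
          have z := CharTwo.add_self_eq_zero
            (φ (Sum.inr s) (Sum.inl (h • N.jb j)) + g (h • N.jb j))
          linear_combination h4 - z
        rcases hh with ⟨r1, r2⟩ | ⟨r1, r2⟩
        · rw [r1, r2] at h6
          exact h6
        · rw [r1, r2] at h6
          exact h6.symm
    intro x y e
    rcases x with x | s <;> rcases y with y | t
    · exact hg' x y e
    · have hp := N.EN_inr'.1 e
      have k := key t _ _ (N.one t).choose_spec hp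
      have k1 := c.1 (Sum.inl x) (Sum.inr t)
      simp only [Sum.elim_inl, Sum.elim_inr]
      rw [k, k1]
      have z := CharTwo.add_self_eq_zero (g x)
      linear_combination -z
    · have hp := N.EN_inr.1 e
      have k := key s _ _ (N.one s).choose_spec hp
      simp only [Sum.elim_inl, Sum.elim_inr]
      rw [k]
      have z := CharTwo.add_self_eq_zero (g y)
      linear_combination -z
    · exact (N.not_EN e).elim

include N in
theorem finN : FinOrb H (Set.univ : Set (V ⊕ S)) := by
  have g1 : FinOrb H ((Sum.inl : V → V ⊕ S) '' Set.univ) :=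
    FinOrb.image_equi (F := (Sum.inl : V → V ⊕ S)) (fun _ _ => rfl) K.fin
  have g2 : FinOrb H ((Sum.inr : S → V ⊕ S) '' Set.univ) :=
    FinOrb.image_equi (F := (Sum.inr : S → V ⊕ S)) (fun _ _ => rfl) N.fin
  have g3 : FinOrb H ((Sum.inl : V → V ⊕ S) '' Set.univ ∪ (Sum.inr : S → V ⊕ S) '' Set.univ) := by
    have e : orbs H ((Sum.inl : V → V ⊕ S) '' Set.univ ∪ (Sum.inr : S → V ⊕ S) '' Set.univ)
        = orbs H ((Sum.inl : V → V ⊕ S) '' Set.univ) ∪ orbs H ((Sum.inr : S → V ⊕ S) '' Set.univ) :=
      Set.image_union _ _ _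
    unfold FinOrb
    rw [e]
    exact Set.Finite.union g1 g2
  refine g3.mono ?_
  rintro (x | s) -
  · exact Or.inl ⟨x, trivial, rfl⟩
  · exact Or.inr ⟨s, trivial, rfl⟩

theorem stab_inl (v : V) : stabilizer H (Sum.inl v : V ⊕ S) = stabilizer H v := by
  ext h
  rw [mem_stabilizer_iff, mem_stabilizer_iff]
  exact ⟨fun e => Sum.inl_injective e, fun e => congrArg Sum.inl e⟩

theorem stab_inr (s : S) : stabilizer H (Sum.inr s : V ⊕ S) = stabilizer H s := by
  ext h
  rw [mem_stabilizer_iff, mem_stabilizer_iff]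
  exact ⟨fun e => Sum.inr_injective e, fun e => congrArg Sum.inr e⟩

/-- the new complex -/
def add : GX H (V ⊕ S) where
  ar := N.ar
  rk := N.rkN
  I := K.I ⊕ N.J
  finI := by
    have := K.finI
    have := N.finJ
    infer_instance
  cb := N.cbN
  cw := N.cwN
  ar_rk := by
    rintro (v | s) (a | t) h
    · exact K.ar_rk _ _ h
    · exact (N.not_ar h).elim
    · exact N.pl_rk _ _ h
    · exact (N.not_ar h).elim
  ar_smul := by
    rintro h (v | s) (a | t) e
    · exact K.ar_smul h _ _ e
    · exact (N.not_ar e).elim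
    · exact N.pl_smul h _ _ e
    · exact (N.not_ar e).elim
  rk_smul := by
    rintro h (v | s)
    · exact K.rk_smul h v
    · exact N.rk_smul h s
  two := by
    rintro (v | s) (a | a) (b | b) (c | c) h1 h2 h3
    all_goals first
      | exact (N.not_ar h1).elim
      | exact (N.not_ar h2).elim
      | exact (N.not_ar h3).elim
      | skip
    · rcases K.two v a b c h1 h2 h3 with e | e | e
      · exact Or.inl (congrArg _ e)
      · exact Or.inr (Or.inl (congrArg _ e))
      · exact Or.inr (Or.inr (congrArg _ e))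
    · rcases N.two s a b c h1 h2 h3 with e | e | e
      · exact Or.inl (congrArg _ e)
      · exact Or.inr (Or.inl (congrArg _ e))
      · exact Or.inr (Or.inr (congrArg _ e))
  c_E := by
    rintro (i | j)
    · exact Wk_map Sum.inl (fun _ _ e => e) (K.c_E i)
    · exact ⟨Or.inr (N.pla j), Or.inl (N.plb j), Wk_map Sum.inl (fun _ _ e => e) (N.wk j)⟩
  c_tg := by
    rintro (i | j)
    · change tg (Sum.inl (K.cb i)) ((K.cw i).map Sum.inl) = _
      rw [tg_map Sum.inl, K.c_tg]
      rfl
    · change tg (Sum.inl (N.jb j)) ((N.jl j).map Sum.inl) = _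
      rw [tg_map Sum.inl, N.tgl]
      rfl
  ne := by
    obtain ⟨v⟩ := K.ne
    exact ⟨Sum.inl v⟩
  conn := by
    have h1 : ∀ x y : V, Relation.ReflTransGen (fun a b => N.ar a b ∨ N.ar b a)
        (Sum.inl x) (Sum.inl y) := by
      intro x y
      induction K.conn x y with
      | refl => exact Relation.ReflTransGen.refl
      | tail _ e ih => exact ih.tail e
    obtain ⟨o⟩ := K.ne
    have h2 : ∀ x : V ⊕ S, Relation.ReflTransGen (fun a b => N.ar a b ∨ N.ar b a)
        x (Sum.inl o) := by
      rintro (x | s)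
      · exact h1 x o
      · obtain ⟨v, hv⟩ := N.one s
        exact Relation.ReflTransGen.head (b := Sum.inl v) (Or.inl hv) (h1 v o)
    have h3 : ∀ x : V ⊕ S, Relation.ReflTransGen (fun a b => N.ar a b ∨ N.ar b a)
        (Sum.inl o) x := by
      rintro (x | s)
      · exact h1 o x
      · obtain ⟨v, hv⟩ := N.one s
        exact Relation.ReflTransGen.tail (b := Sum.inl v) (h1 o v) (Or.inr hv)
    exact fun x y => (h2 x).trans (h3 y)
  H1 := N.H1N
  fin := N.finN
  stab := by
    rintro (v | s)
    · rw [stab_inl]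
      exact K.stab v
    · rw [stab_inr]
      exact N.stab s

@[simp] theorem add_ar : N.add.ar = N.ar := rfl

@[simp] theorem add_rk_inl (v : V) : N.add.rk (Sum.inl v) = K.rk v := rfl

@[simp] theorem add_rk_inr (s : S) : N.add.rk (Sum.inr s) = N.rk s := rfl

theorem add_cb_inl (i : K.I) : N.add.cb (Sum.inl i) = Sum.inl (K.cb i) := rfl

theorem add_cw_inl (i : K.I) : N.add.cw (Sum.inl i) = (K.cw i).map Sum.inl := rfl

theorem add_cb_inr (j : N.J) : N.add.cb (Sum.inr j) = Sum.inl (N.ja j) := rfl

theorem add_cw_inr (j : N.J) : N.add.cw (Sum.inr j) =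
    Sum.inr (N.js j) :: Sum.inl (N.jb j) :: (N.jl j).map Sum.inl := rfl

/-- the area of the new complex -/
theorem add_area [Fintype N.J] :
    N.add.area = K.area + ∑ j, ((N.jl j).length - 2) := by
  have := K.finI
  let _ : Fintype K.I := Fintype.ofFinite K.I
  let _ : Fintype N.add.I := (inferInstance : Fintype (K.I ⊕ N.J))
  rw [N.add.area_eq, K.area_eq]
  have h1 : ∑ i : K.I ⊕ N.J, ((N.cwN i).length - 4)
      = (∑ i : K.I, ((N.cwN (Sum.inl i)).length - 4))
        + ∑ j : N.J, ((N.cwN (Sum.inr j)).length - 4) := Fintype.sum_sum_type _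
  refine h1.trans ?_
  congr 1
  · refine Finset.sum_congr rfl fun i _ => ?_
    change ((K.cw i).map Sum.inl).length - 4 = _
    rw [List.length_map]
  · refine Finset.sum_congr rfl fun j _ => ?_
    change (Sum.inr (N.js j) :: Sum.inl (N.jb j) :: (N.jl j).map Sum.inl).length - 4 = _
    rw [List.length_cons, List.length_cons, List.length_map]
    omega

end NS

/-- the stabiliser of a coset is in the class -/
theorem InC_quot {D : Subgroup H} (hD : InC ↥D) (s : H ⧸ D) : InC ↥(stabilizer H s) := by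
  obtain ⟨g, rfl⟩ := QuotientGroup.mk_surjective s
  have h0 : stabilizer H (((1 : H) : H ⧸ D)) = D := stabilizer_quotient D
  have h1 : ((g : H) : H ⧸ D) = g • ((1 : H) : H ⧸ D) := by
    change _ = ((g * 1 : H) : H ⧸ D)
    rw [mul_one]
  have h2 := stabilizerEquivStabilizer h1
  refine InC.iso h2 ?_
  rw [h0]
  exact hD

/-- data for one orbit of new softs -/
structure SD (K : GX H V) where
  D : Subgroup H
  a : V
  b : V
  l : List V
  inC : InC ↥D
  fix : ∀ d ∈ D, (d • a = a ∧ d • b = b) ∨ (d • a = b ∧ d • b = a)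
  wk : Wk K.E b l
  tgl : tg b l = a

namespace SD

variable {K : GX H V} (P : SD K)

/-- the poles of a coset -/
def pl (s : H ⧸ P.D) (v : V) : Prop :=
  ∃ g : H, (g : H ⧸ P.D) = s ∧ (v = g • P.a ∨ v = g • P.b)

theorem pl_mk {g : H} {v : V} : P.pl (g : H ⧸ P.D) v ↔ v = g • P.a ∨ v = g • P.b := by
  constructor
  · rintro ⟨k, e, h⟩
    have hd : g⁻¹ * k ∈ P.D := QuotientGroup.eq.1 e.symm
    have hk : k = g * (g⁻¹ * k) := by group
    rcases P.fix _ hd with ⟨r1, r2⟩ | ⟨r1, r2⟩
    · rcases h with h | h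
      · left
        rw [h, hk, mul_smul, r1]
      · right
        rw [h, hk, mul_smul, r2]
    · rcases h with h | h
      · right
        rw [h, hk, mul_smul, r1]
      · left
        rw [h, hk, mul_smul, r2]
  · exact fun h => ⟨g, rfl, h⟩

/-- the new softs `H ⧸ D` with poles `a`, `b` and one orbit of new cells -/
def ns : NS K (H ⧸ P.D) where
  pl := P.pl
  rk := fun _ => max (K.rk P.a) (K.rk P.b) + 1
  J := Unit
  finJ := inferInstance
  js := fun _ => ((1 : H) : H ⧸ P.D)
  ja := fun _ => P.a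
  jb := fun _ => P.b
  jl := fun _ => P.l
  pl_smul := by
    rintro h s v ⟨g, rfl, e⟩
    refine ⟨h * g, rfl, ?_⟩
    rcases e with rfl | rfl
    · exact Or.inl (mul_smul _ _ _).symm
    · exact Or.inr (mul_smul _ _ _).symm
  two := by
    intro s a b c ha hb hc
    obtain ⟨g, rfl⟩ := QuotientGroup.mk_surjective s
    rw [pl_mk] at ha hb hc
    rcases ha with rfl | rfl <;> rcases hb with rfl | rfl <;> rcases hc with rfl | rfl <;> simp
  pl_rk := by
    intro s v h
    obtain ⟨g, rfl⟩ := QuotientGroup.mk_surjective s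
    rw [pl_mk] at h
    rcases h with rfl | rfl
    · rw [K.rk_smul]
      exact Nat.lt_succ_of_le (le_max_left _ _)
    · rw [K.rk_smul]
      exact Nat.lt_succ_of_le (le_max_right _ _)
  rk_smul := fun _ _ => rfl
  one := by
    intro s
    obtain ⟨g, rfl⟩ := QuotientGroup.mk_surjective s
    exact ⟨g • P.a, P.pl_mk.2 (Or.inl rfl)⟩
  pla := fun _ => P.pl_mk.2 (Or.inl (one_smul _ _).symm)
  plb := fun _ => P.pl_mk.2 (Or.inr (one_smul _ _).symm)
  wk := fun _ => P.wk
  tgl := fun _ => P.tgl
  cov := by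
    intro s a b ha hb hab
    obtain ⟨g, rfl⟩ := QuotientGroup.mk_surjective s
    rw [pl_mk] at ha hb
    refine ⟨(), g, ?_, ?_⟩
    · change ((g * 1 : H) : H ⧸ P.D) = _
      rw [mul_one]
    · rcases ha with rfl | rfl <;> rcases hb with rfl | rfl
      · exact (hab rfl).elim
      · exact Or.inl ⟨rfl, rfl⟩
      · exact Or.inr ⟨rfl, rfl⟩
      · exact (hab rfl).elim
  fin := by
    rw [FinOrb_iff]
    refine ⟨{((1 : H) : H ⧸ P.D)}, Set.finite_singleton _, Set.subset_univ _, ?_⟩
    intro s _
    obtain ⟨g, rfl⟩ := QuotientGroup.mk_surjective s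
    refine ⟨_, rfl, g, ?_⟩
    change ((g * 1 : H) : H ⧸ P.D) = _
    rw [mul_one]
  stab := fun s => InC_quot P.inC s

/-- the area grows by `length - 2` -/
theorem add_area : P.ns.add.area = K.area + (P.l.length - 2) := by
  let _ : Fintype P.ns.J := (inferInstance : Fintype Unit)
  rw [P.ns.add_area]
  congr 1

end SD

end

end Pool.Agent.DI
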