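import Pool.Agent.DI.GX

/-!
# Transport of `H1` along edge words

`Coc cb cw φ`: `φ` is symmetric and its sum over all translates of the cells is zero. `sub w x l`:
the walk `x, l` with every edge `x y` replaced by the word `w x y`.
-/

namespace Pool.Agent.DI

open MulAction
open Pool.Agent.SAF (InC orbs FinOrb oc)

section Tr

variable {H V V' : Type} [Group H] [MulAction H V] [MulAction H V']

/-- symmetric and zero on all translates of the cells -/
def Coc (H : Type) {V : Type} [Group H] [MulAction H V] {I : Type} (cb : I → V) (cw : I → List V)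
    (φ : V → V → ZMod 2) : Prop :=
  (∀ x y, φ x y = φ y x) ∧
    ∀ (i : I) (h : H), ps φ (h • cb i) ((cw i).map (fun z => h • z)) = 0

theorem Coc.smul {I : Type} {cb : I → V} {cw : I → List V} {φ : V → V → ZMod 2}
    (c : Coc H cb cw φ) (h : H) : Coc H cb cw (fun x y => φ (h • x) (h • y)) := by
  refine ⟨fun x y => c.1 _ _, fun i k => ?_⟩
  have := c.2 i (h * k)
  rw [← ps_map (fun z => h • z) φ, List.map_map]
  rw [mul_smul] at this
  convert this using 2
  refine List.map_congr_left fun z _ => ?_
  exact (mul_smul h k z).symm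

theorem GX.H1' (K : GX H V) {φ : V → V → ZMod 2} (c : Coc H K.cb K.cw φ) :
    ∃ g : V → ZMod 2, ∀ x y, K.E x y → φ x y = g x + g y :=
  K.H1 φ c.1 c.2

/-- a walk with words instead of edges -/
def sub (w : V → V → List V') : V → List V → List V'
  | _, [] => []
  | x, y :: l => w x y ++ sub w y l

@[simp] theorem sub_nil (w : V → V → List V') (x : V) : sub w x [] = [] := rfl

@[simp] theorem sub_cons (w : V → V → List V') (x y : V) (l : List V) :
    sub w x (y :: l) = w x y ++ sub w y l := rfl

theorem sub_append (w : V → V → List V') (x : V) (l m : List V) :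
    sub w x (l ++ m) = sub w x l ++ sub w (tg x l) m := by
  induction l generalizing x with
  | nil => rfl
  | cons y l ih => rw [List.cons_append, sub_cons, sub_cons, ih y, tg_cons, List.append_assoc]

variable {E : V → V → Prop} {E' : V' → V' → Prop} {f : V → V'} {w : V → V → List V'}

theorem tg_sub (hw : ∀ x y, E x y → tg (f x) (w x y) = f y) {x : V} {l : List V} (hl : Wk E x l) :
    tg (f x) (sub w x l) = f (tg x l) := by
  induction l generalizing x with
  | nil => rfl
  | cons y l ih => rw [sub_cons, tg_append, hw _ _ hl.1, ih hl.2, tg_cons]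

theorem Wk_sub (hw : ∀ x y, E x y → tg (f x) (w x y) = f y)
    (hE : ∀ x y, E x y → Wk E' (f x) (w x y)) {x : V} {l : List V} (hl : Wk E x l) :
    Wk E' (f x) (sub w x l) := by
  induction l generalizing x with
  | nil => trivial
  | cons y l ih =>
    rw [sub_cons, Wk_append, hw _ _ hl.1]
    exact ⟨hE _ _ hl.1, ih hl.2⟩

theorem ps_sub (hw : ∀ x y, E x y → tg (f x) (w x y) = f y) (φ : V' → V' → ZMod 2)
    {x : V} {l : List V} (hl : Wk E x l) :
    ps φ (f x) (sub w x l) = ps (fun x y => ps φ (f x) (w x y)) x l := by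
  induction l generalizing x with
  | nil => rfl
  | cons y l ih => rw [sub_cons, ps_append, hw _ _ hl.1, ih hl.2, ps_cons]

theorem sub_map (hw : ∀ (h : H) x y, E x y → w (h • x) (h • y) = (w x y).map (fun z => h • z))
    (h : H) {x : V} {l : List V} (hl : Wk E x l) :
    sub w (h • x) (l.map (fun z => h • z)) = (sub w x l).map (fun z => h • z) := by
  induction l generalizing x with
  | nil => rfl
  | cons y l ih =>
    rw [List.map_cons, sub_cons, sub_cons, List.map_append, hw h _ _ hl.1, ih hl.2]

/-- the pull-back of a cocycle along edge words, made `0` off the edges -/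
noncomputable def pull (E : V → V → Prop) (f : V → V') (w : V → V → List V')
    (φ : V' → V' → ZMod 2) : V → V → ZMod 2 :=
  open Classical in fun x y => if E x y then ps φ (f x) (w x y) else 0

theorem pull_of {φ : V' → V' → ZMod 2} {x y : V} (h : E x y) :
    pull E f w φ x y = ps φ (f x) (w x y) := by
  unfold pull
  rw [if_pos h]

/-- TRANSPORT. `K` a complex, `f` a map of the vertices, `w` equivariant edge words; `cb'`, `cw'` the
new cells. If the words are compatible with reversal (for the sums), the images of the old cells have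
sum `0` for the new cocycles, and coboundaries on the image extend, then `H1` holds for the new
cells. -/
theorem GX.transport (K : GX H V) {E' : V' → V' → Prop} {I' : Type} {cb' : I' → V'}
    {cw' : I' → List V'} (f : V → V') (w : V → V → List V')
    (hf : ∀ (h : H) (x : V), f (h • x) = h • f x)
    (w_tg : ∀ x y, K.E x y → tg (f x) (w x y) = f y)
    (w_smul : ∀ (h : H) (x y : V), K.E x y → w (h • x) (h • y) = (w x y).map (fun z => h • z))
    (w_rev : ∀ φ : V' → V' → ZMod 2, Coc H cb' cw' φ → ∀ x y, K.E x y →
      ps φ (f x) (w x y) = ps φ (f y) (w y x))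
    (cells : ∀ φ : V' → V' → ZMod 2, Coc H cb' cw' φ → ∀ i : K.I,
      ps φ (f (K.cb i)) (sub w (K.cb i) (K.cw i)) = 0)
    (ext : ∀ φ : V' → V' → ZMod 2, Coc H cb' cw' φ → ∀ g : V → ZMod 2,
      (∀ x y, K.E x y → ps φ (f x) (w x y) = g x + g y) →
        ∃ g' : V' → ZMod 2, ∀ x y, E' x y → φ x y = g' x + g' y)
    (φ : V' → V' → ZMod 2) (hs : ∀ x y, φ x y = φ y x)
    (hc : ∀ (i : I') (h : H), ps φ (h • cb' i) ((cw' i).map (fun z => h • z)) = 0) :
    ∃ g' : V' → ZMod 2, ∀ x y, E' x y → φ x y = g' x + g' y := by
  have c : Coc H cb' cw' φ := ⟨hs, hc⟩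
  have cp : Coc H K.cb K.cw (pull K.E f w φ) := by
    refine ⟨fun x y => ?_, fun i h => ?_⟩
    · by_cases e : K.E x y
      · rw [pull_of e, pull_of e.symm]
        exact w_rev φ c x y e
      · have e' : ¬ K.E y x := fun k => e k.symm
        unfold pull
        rw [if_neg e, if_neg e']
    · have hw : Wk K.E (K.cb i) (K.cw i) := K.c_E i
      have hw' : Wk K.E (h • K.cb i) ((K.cw i).map (fun z => h • z)) :=
        Wk_map (fun z => h • z) (fun x y e => K.E_smul h e) hw
      have e1 : ps (pull K.E f w φ) (h • K.cb i) ((K.cw i).map (fun z => h • z))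
          = ps (fun x y => ps φ (f x) (w x y)) (h • K.cb i) ((K.cw i).map (fun z => h • z)) :=
        ps_congr (fun x y e => pull_of e) hw'
      rw [e1, ← ps_sub w_tg φ hw', sub_map w_smul h hw, hf, ps_map (fun z => h • z)]
      exact cells _ (c.smul h) i
  obtain ⟨g, hg⟩ := K.H1' cp
  exact ext φ c g fun x y e => by rw [← hg x y e, pull_of e]

end Tr

end Pool.Agent.DI
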