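import Pool.Agent.DI.GenT

/-!
# DI/GenX: Lemma S for `P_5`, for any connected graph on the local pieces

`S.GenM e`: for every component there is a connected graph on its nodes (the component itself, or the
component without duplicate lines) in which nothing is gained (`e` pole ends). `S.Gen5`: for some `e`.
`Gen5.gen4 : S.Gen4`, `Gen5.kill`: the conclusion of `gen5`.
-/

attribute [local instance 2000] SubMulAction.mulAction

namespace Pool.Agent.DI

open MulAction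
open Pool.Agent.SAF (InC orbs FinOrb oc Decomp SAn SA Conv hull dist_edge FinOrb_iff exists_next TAct)
open Pool.Agent.SAG (IO Zt)
open Pool.Agent.BT (PX PQ JS bey exits mst Hyp finite_of_hyp)
open Pool.Agent.BT.TA

namespace SyQ

variable {H V : Type} [Group H] [MulAction H V] {S : SyQ H V}

section any

variable {y n : V} (h : S.K.ar n y) {Ed : Type} [MulAction ↥(S.LPG.grp (S.lp h)) Ed]
  (M : JM ↥(S.LPG.grp (S.lp h)) ↥(S.LPG.cT (S.lp h)) Ed)

/-- sinks of type `D_inf` in the equality case: at most two mirrored orbits, no cycle -/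
theorem anyD_eq {e : S.LPG.fg.N → ℕ} (E : S.EX e) (hs : ∀ a, ¬ S.K.ar y a) (hl : S.K.LC y)
    (hn : Hyp S.X (stabilizer H y)) (hJ : S.J y = mst S.D.G (stabilizer H y))
    (D0 : DL ↥(S.LPG.grp (S.lp h))) (hA0 : InC ↥(S.LPG.grp (S.lp h)))
    (hconn : ∀ a b, Relation.EqvGen M.st a b) [Fintype M.fg.N]
    (h0 : M.fg.aftE ∅ (S.LPG.re (S.lp h) e) ≤ 0) :
    M.fg.b1 = 0 ∧ Nat.card ↥(M.mN D0.Mir) = 2 := by
  have hA := sink_grp hs hl h
  have hnA : Hyp S.X (S.LPG.grp (S.lp h)) := by rw [hA]; exact hn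
  have hmA : S.J y = mst S.D.G (S.LPG.grp (S.lp h)) := by rw [hA]; exact hJ
  have hne : Nonempty ↥(S.LPG.cT (S.lp h)) := ⟨⟨S.lp h, Relation.EqvGen.refl _⟩⟩
  -- a mirrored node is reversed
  have hmir : ∀ Q : ↥(S.LPG.cT (S.lp h)), D0.Mir (stabilizer ↥(S.LPG.grp (S.lp h)) Q) →
      ∀ m (k : S.K.ar m y), Q.1 = S.lp k → ∀ p, p ∈ S.J y → p ∈ S.J m → S.Swp p y m := by
    rintro Q ⟨a, ha, hε⟩ m k e1 p hp hm
    obtain ⟨h1, h2, h3⟩ := stab_node Q ha k e1 hp hm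
    refine ⟨a.1, h1, h2, h3, Or.inl ?_⟩
    obtain ⟨u, hu, hu'⟩ := ex_nbr_ax hn hJ hp
    refine ⟨u, hu, hu', ?_⟩
    exact refl_move D0 S.D.tact hA0 hnA hε (by rw [← hmA]; exact hp)
      (by rw [← hmA]; exact hu') hu.ne h2
  have h1 : ∀ x ∈ M.mNf D0.Mir, x ∉ (∅ : Set _) → S.LPG.re (S.lp h) e x ≤ 1 := by
    rintro x ⟨Q, hQ, rfl⟩ -
    obtain ⟨m, k, e1, -⟩ := sink_node hs h Q
    obtain ⟨p, hp, hm⟩ := lp_ex k
    have h2 := E.one y m k p hp hm (hmir Q hQ m k e1 p hp hm)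
    have h3 : S.LPG.re (S.lp h) e (oq _ Q) = e (oq H (S.lp k)) := by rw [sink_e, e1]
    exact h3.le.trans h2
  have h2 : ∀ x, x ∉ (∅ : Set M.fg.N) → S.LPG.re (S.lp h) e x ≤ 2 := by
    intro x _
    obtain ⟨Q, rfl⟩ := oq_surj x
    obtain ⟨m, k, e1, -⟩ := sink_node hs h Q
    have h3 : S.LPG.re (S.lp h) e (oq _ Q) = e (oq H (S.lp k)) := by rw [sink_e, e1]
    exact h3.le.trans (E.two y m k)
  have key := M.exc_D_eq D0 hne hconn
    (sink_fin hs h hn) (H := ∅) (Set.empty_subset _) (fun x hx => hx.elim)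
    (JM.nDD_empty _) ⟨oq _ ⟨S.lp h, Relation.EqvGen.refl _⟩, fun hx => hx.elim⟩ h1 h2 h0
  obtain ⟨k1, k2, -⟩ := key
  refine ⟨k1, ?_⟩
  have h4 : Nat.card ↥(∅ : Set M.fg.N) = 0 := Nat.card_of_isEmpty
  rw [h4, add_zero, Set.sdiff_empty] at k2
  exact k2

/-- SINKS OF TYPE `D_inf`, `P_5` -/
theorem anyD5 {e : S.LPG.fg.N → ℕ} (E : S.EX e) (hs : ∀ a, ¬ S.K.ar y a) (hl : S.K.LC y)
    (hn : Hyp S.X (stabilizer H y)) (hJ : S.J y = mst S.D.G (stabilizer H y))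
    (hD : DT (stabilizer H y)) (hconn : ∀ a b, Relation.EqvGen M.st a b) [Fintype M.fg.N]
    (h0 : M.fg.aftE ∅ (S.LPG.re (S.lp h) e) ≤ 0)
    {φ : H2m H} (hk : ∀ m p g, S.K.ar m y → p ∈ S.J y → p ∈ S.J m → S.LGr p y m g → NY y g →
      φ (Additive.ofMul g) = 0) {g : H} (hg : NY y g) : φ (Additive.ofMul g) = 0 := by
  have hA := sink_grp hs hl h
  have hDA : DT (S.LPG.grp (S.lp h)) := by rw [hA]; exact hD
  obtain ⟨D0⟩ := hDA.nonempty
  obtain ⟨k1, k2⟩ := anyD_eq h M E hs hl hn hJ D0 hDA.1 hconn h0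
  have hne : Nonempty ↥(S.LPG.cT (S.lp h)) := ⟨⟨S.lp h, Relation.EqvGen.refl _⟩⟩
  have hN : ∀ a : H, NY y a ↔ ∃ ha : a ∈ S.LPG.grp (S.lp h), (⟨a, ha⟩ : ↥(S.LPG.grp (S.lp h))) ∈ D0.N := by
    intro a
    constructor
    · rintro ⟨e1, e2, t, e3, e4, e5⟩
      have ha : a ∈ S.LPG.grp (S.lp h) := by rw [hA]; exact e1
      refine ⟨ha, (comm_dl D0 ha).1 ⟨e2, t, ?_, e4, e5⟩⟩
      rw [hA]; exact e3
    · rintro ⟨ha, e1⟩
      obtain ⟨e2, t, e3, e4, e5⟩ := (comm_dl D0 ha).2 e1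
      rw [hA] at ha e3
      exact ⟨ha, e2, t, e3, e4, e5⟩
  obtain ⟨ha, hgN⟩ := (hN g).1 hg
  refine M.killD hne hconn D0 (sink_fin hs h hn) ?_
    (f := fun a => φ (Additive.ofMul a.1)) (fun a b => resf_mul φ a b) ?_ hgN
  · rw [k1, k2]
    norm_num
  · intro Q a ha2 hN2
    obtain ⟨m, k, e1, -⟩ := sink_node hs h Q
    obtain ⟨p, hp, hm⟩ := lp_ex k
    exact hk m p a.1 k hp hm (stab_node Q ha2 k e1 hp hm) ((hN a.1).2 ⟨a.2, hN2⟩)

/-- SINKS OF TYPE `ℤ` -/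
theorem anyZ {e : S.LPG.fg.N → ℕ} (E : S.EX e) (hs : ∀ a, ¬ S.K.ar y a) (hl : S.K.LC y)
    (hn : Hyp S.X (stabilizer H y)) (hi : Infinite ↥(stabilizer H y))
    (hZ : Zt ↥(stabilizer H y)) (hconn : ∀ a b, Relation.EqvGen M.st a b) [Fintype M.fg.N]
    (h0 : M.fg.aftE ∅ (S.LPG.re (S.lp h) e) ≤ 0)
    {φ : H2m H} (hk : ∀ m p g, S.K.ar m y → p ∈ S.J y → p ∈ S.J m → S.LGr p y m g →
      φ (Additive.ofMul g) = 0) {g : H} (hg : NY y g) : φ (Additive.ofMul g) = 0 := by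
  have hA := sink_grp hs hl h
  have hiA : Infinite ↥(S.LPG.grp (S.lp h)) := by rw [hA]; exact hi
  have hZA : Zt ↥(S.LPG.grp (S.lp h)) := by rw [hA]; exact hZ
  have hne : Nonempty ↥(S.LPG.cT (S.lp h)) := ⟨⟨S.lp h, Relation.EqvGen.refl _⟩⟩
  obtain ⟨F, hF⟩ := hZA
  obtain ⟨a, ha⟩ : ∃ a, F a ≠ 1 := by
    by_contra hcon
    push Not at hcon
    have : Finite ↥(S.LPG.grp (S.lp h)) := by
      refine Finite.of_injective (fun g : ↥(S.LPG.grp (S.lp h)) => (⟨g, hcon g⟩ : ↥F.ker)) ?_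
      intro a b hab
      exact congrArg (fun z : ↥F.ker => z.1) hab
    exact not_finite ↥(S.LPG.grp (S.lp h))
  obtain ⟨f, hf, -⟩ := surj_of_ne F ha
  have hfin : ∀ a : ↥(S.LPG.grp (S.lp h)), IsOfFinOrder a → Multiplicative.toAdd (f a) = 0 := by
    intro g h3
    obtain ⟨r, hr, h5⟩ := h3.exists_pow_eq_one
    have h6 : Multiplicative.toAdd (f g) * r = 0 := by
      have h7 : (f g) ^ r = 1 := by rw [← map_pow, h5, map_one]
      have h8 := congrArg Multiplicative.toAdd h7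
      rw [toAdd_pow, toAdd_one, nsmul_eq_mul] at h8
      rw [mul_comm]
      exact h8
    rcases mul_eq_zero.1 h6 with h7 | h7
    · exact h7
    · exact absurd h7 (by exact_mod_cast hr.ne')
  have hfs : ∀ (Q : ↥(S.LPG.cT (S.lp h))), ∀ g ∈ stabilizer ↥(S.LPG.grp (S.lp h)) Q,
      Multiplicative.toAdd (f g) = 0 := by
    intro Q g hg
    have := sink_fin hs h hn Q
    apply hfin
    have h3 : IsOfFinOrder (⟨g, hg⟩ : ↥(stabilizer ↥(S.LPG.grp (S.lp h)) Q)) :=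
      isOfFinOrder_of_finite _
    obtain ⟨r, hr, h4⟩ := h3.exists_pow_eq_one
    exact isOfFinOrder_iff_pow_eq_one.2 ⟨r, hr, congrArg Subtype.val h4⟩
  have hsur : ∃ g, Multiplicative.toAdd (f g) = 1 := by
    obtain ⟨g, hg⟩ := hf (Multiplicative.ofAdd 1)
    exact ⟨g, by rw [hg]; rfl⟩
  have h2 : ∀ x : M.fg.N, S.LPG.re (S.lp h) e x ≤ 2 := by
    intro x
    obtain ⟨Q, rfl⟩ := oq_surj x
    obtain ⟨m, k, e1, -⟩ := sink_node hs h Q
    have h3 : S.LPG.re (S.lp h) e (oq _ Q) = e (oq H (S.lp k)) := by rw [sink_e, e1]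
    exact h3.le.trans (E.two y m k)
  have hb : M.fg.b1 ≤ 1 := by
    obtain ⟨k1, k2, -⟩ := M.exc_Z hne hconn (fun g => Multiplicative.toAdd (f g))
      (fun g k => by rw [map_mul, toAdd_mul]) hsur hfs h2
    omega
  have hg' : g ∈ S.LPG.grp (S.lp h) := by rw [hA]; exact hg.fix
  refine M.killZ hne hconn hb
    (τ := fun g => Multiplicative.toAdd (f g)) (fun g k => by rw [map_mul, toAdd_mul])
    hsur hfs (f := fun a => φ (Additive.ofMul a.1))
    (fun a b => resf_mul φ a b) ?_ (g := ⟨g, hg'⟩) ?_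
  · intro Q a ha2
    obtain ⟨m, k, e1, -⟩ := sink_node hs h Q
    obtain ⟨p, hp, hm⟩ := lp_ex k
    exact hk m p a.1 k hp hm (stab_node Q ha2 k e1 hp hm)
  · apply hfin
    have h3 := hg.not_io
    by_contra hcon
    apply h3
    intro r hr he
    apply hcon
    exact isOfFinOrder_iff_pow_eq_one.2 ⟨r, hr, Subtype.ext he⟩

/-- two private poles -/
theorem gq_two (hos : S.OS) {p u : S.X} (hp : p ∈ S.J y) (hu : S.D.G.Adj p u) (hu' : u ∈ S.J y)
    (hy : ∃ a, S.K.ar y a) :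
    ∃ x ∈ S.LPG.rQ (S.lp h) S.PLq, ∃ x' ∈ S.LPG.rQ (S.lp h) S.PLq, x ≠ x' := by
  obtain ⟨a, b, hab, -, -, ka, kb, ca, cb, pa, pb⟩ := gq_two_poles hos h hp hu hu' hy
  refine ⟨_, pa, _, pb, fun e => ?_⟩
  have h1 := congrArg Subtype.val e
  have h2 := ct_pole (S := S) (S.K.mem_PO rfl) h1
  exact hab (PN.pol.inj (congrArg Subtype.val h2)).2.1

/-- PIECES OF CROSSING SOFTS, `P_5` -/
theorem anyS5 (hos : S.OS) {e : S.LPG.fg.N → ℕ}
    (hC : M.SoftC (S.LPG.rQ (S.lp h) S.PLq) (S.LPG.re (S.lp h) e)) {p u : S.X} (hp : p ∈ S.J y)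
    (hu : S.D.G.Adj p u) (hu' : u ∈ S.J y) (hy : ∃ a, S.K.ar y a) [Fintype M.fg.N]
    (h0 : M.fg.aftE (M.imN (S.LPG.rQ (S.lp h) S.PLq)) (S.LPG.re (S.lp h) e) ≤
      M.fg.exc (M.imN (S.LPG.rQ (S.lp h) S.PLq)))
    {φ : H2m H} (hk : ∀ m p g, S.K.ar m y → S.K.IJ y n m → p ∈ S.J y → p ∈ S.J m →
      S.LGr p y m g → (∀ b, S.K.ar y b → g • b = b) → φ (Additive.ofMul g) = 0) {g : H}
    (hg : g • y = y) (hgn : S.K.IJ y n (g • n)) (hgp : ∀ b, S.K.ar y b → g • b = b) :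
    φ (Additive.ofMul g) = 0 := by
  have k1 := (hC.eq h0 (gq_two h hos hp hu hu' hy)).1
  obtain ⟨a, b, hab, ha, hb, ka, kb, ca, cb, pa, pb⟩ := gq_two_poles hos h hp hu hu' hy
  -- an element which fixes the vertex and `a` fixes all poles
  have hall : ∀ g : H, g • y = y → g • a = a → ∀ c, S.K.ar y c → g • c = c := by
    intro g gy ga c hc'
    have gb : g • b = b := by
      have h1 : S.K.ar y (g • b) := by
        have := S.K.ar_smul g _ _ hb
        rwa [gy] at this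
      rcases S.K.two y a b _ ha hb h1 with k | k | k
      · exact absurd k hab
      · exact k.symm
      · exact absurd (smul_left_cancel g (ga.trans k)) hab
    rcases S.K.two y a b c ha hb hc' with k | k | k
    · exact absurd k hab
    · rw [← k]; exact gb
    · rw [← k]; exact ga
  have hga : g ∈ S.LPG.grp (S.lp h) := (mem_lp_grp h).2 ⟨hg, hgn⟩
  have hne : (⟨_, ca⟩ : ↥(S.LPG.cT (S.lp h))) ≠ ⟨_, cb⟩ := by
    intro e
    have h1 := congrArg Subtype.val e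
    have h2 := ct_pole (S := S) (S.K.mem_PO rfl) h1
    exact hab (PN.pol.inj (congrArg Subtype.val h2)).2.1
  -- stabilisers of the nodes
  have hkk : ∀ x : ↥(S.LPG.cT (S.lp h)), x ∉ S.LPG.rQ (S.lp h) S.PLq →
      ∀ k ∈ stabilizer ↥(S.LPG.grp (S.lp h)) x, k.1 • a = a → φ (Additive.ofMul k.1) = 0 := by
    intro x hx k hk1 hk2
    obtain ⟨m, hm, hj, e1⟩ := inn_node h x hx
    obtain ⟨q, hq, hq'⟩ := lp_ex hm
    have h3 := stab_node x hk1 hm e1 hq hq'
    exact hk m q k.1 hm hj hq hq' h3 (hall _ h3.1 hk2)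
  have hfix : ∀ k : ↥(S.LPG.grp (S.lp h)), k • (⟨_, ca⟩ : ↥(S.LPG.cT (S.lp h))) = ⟨_, ca⟩ ↔
      k.1 • a = a := by
    intro k
    obtain ⟨k2, k3⟩ := (mem_lp_grp h).1 k.2
    constructor
    · intro k1
      exact pole_fix' (k := ka) (congrArg Subtype.val k1)
    · intro k1
      exact Subtype.ext (pole_fix (k := ka) k2 k3 k1)
  by_cases hj : ∃ j : ↥(S.LPG.grp (S.lp h)), (⟨_, cb⟩ : ↥(S.LPG.cT (S.lp h))) =
      j • (⟨_, ca⟩ : ↥(S.LPG.cT (S.lp h)))
  · -- a self piece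
    obtain ⟨j, hj⟩ := hj
    obtain ⟨-, l2, -⟩ := (hC.self pa pb hne hj).2 h0
    have h2 : ∀ x ∈ S.LPG.rQ (S.lp h) S.PLq, x = ⟨_, ca⟩ ∨ x = ⟨_, cb⟩ := fun x hx => by
      rcases hC.two x _ _ hx pa pb with k | k | k
      · exact Or.inl k
      · exact absurd k hne
      · exact Or.inr k
    have hsg : ∀ k : ↥(S.LPG.grp (S.lp h)), JM.sgn pa pb h2 hne k = 1 ↔ k.1 • a = a := by
      intro k
      rw [← hfix k]
      constructor
      · intro k1
        by_contra k2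
        have k3 := (JM.sgn_neg pa pb h2 hne).2 k2
        rw [k1] at k3
        exact absurd k3 (by decide)
      · intro k1
        rcases Int.units_eq_one_or (JM.sgn pa pb h2 hne k) with k2 | k2
        · exact k2
        · exact absurd k1 ((JM.sgn_neg pa pb h2 hne).1 k2)
    refine M.killS_dn (JM.sgn pa pb h2 hne)
      ⟨j, (JM.sgn_neg pa pb h2 hne).2 (by rw [← hj]; exact hne.symm)⟩ hC.ne hC.dconn (H := ∅)
      (Set.empty_subset _) (fun x hx => hx.elim) ?_ (f := fun a => φ (Additive.ofMul a.1))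
      (fun a b => resf_mul φ a b) ?_ (g := ⟨g, hga⟩) ((hsg _).2 (hgp a ha))
    · rw [Set.union_empty, l2, k1]
      have hc0 : Nat.card ↥(∅ : Set M.fg.N) = 0 := Nat.card_of_isEmpty
      rw [hc0]
      norm_num
    · intro x hx k hk1 hk2
      exact hkk x hx k hk1 ((hsg k).1 hk2)
  · -- the group of the piece fixes the poles
    have hfa : ∀ k : ↥(S.LPG.grp (S.lp h)), k.1 • a = a := by
      intro k
      rw [← hfix k]
      by_contra k1
      apply hj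
      have k2 := (S.LPG.rQ (S.lp h) S.PLq).smul_mem k pa
      rcases hC.two (k • _) _ _ k2 pa pb with k3 | k3 | k3
      · exact absurd k3 k1
      · exact absurd k3 hne
      · exact ⟨k, k3.symm⟩
    refine M.kill0_dn hC.ne hC.dconn k1 (f := fun a => φ (Additive.ofMul a.1))
      (fun a b => resf_mul φ a b) ?_ ⟨g, hga⟩
    intro x hx k hk1
    exact hkk x hx k hk1 (hfa k)

end any

/-! ### the structure -/

variable (S) in
/-- nothing is gained in a connected graph on the nodes of each component -/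
structure GenM (e : S.LPG.fg.N → ℕ) : Prop where
  E : S.EX e
  os : S.OS
  sk : S.SinkH
  tk : ∀ y n (h : S.K.ar n y), (∀ a, ¬ S.K.ar y a) →
    ∃ (Ed : Type) (_ : MulAction ↥(S.LPG.grp (S.lp h)) Ed)
      (M : JM ↥(S.LPG.grp (S.lp h)) ↥(S.LPG.cT (S.lp h)) Ed) (_ : Fintype M.fg.N),
      (∀ x z, Relation.EqvGen M.st x z) ∧ M.fg.aftE ∅ (S.LPG.re (S.lp h) e) ≤ 0
  ts : ∀ y n (h : S.K.ar n y), (∃ a, S.K.ar y a) → S.Crs y →
    ∃ (Ed : Type) (_ : MulAction ↥(S.LPG.grp (S.lp h)) Ed)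
      (M : JM ↥(S.LPG.grp (S.lp h)) ↥(S.LPG.cT (S.lp h)) Ed) (_ : Fintype M.fg.N),
      M.SoftC (S.LPG.rQ (S.lp h) S.PLq) (S.LPG.re (S.lp h) e) ∧
      M.fg.aftE (M.imN (S.LPG.rQ (S.lp h) S.PLq)) (S.LPG.re (S.lp h) e) ≤
        M.fg.exc (M.imN (S.LPG.rQ (S.lp h) S.PLq))

variable (S) in
/-- the same for some numbers of pole ends -/
def Gen5 : Prop := ∃ e : S.LPG.fg.N → ℕ, S.GenM e

theorem Gen5.sk (hG : S.Gen5) : S.SinkH := by
  obtain ⟨e, hG⟩ := hG
  exact hG.sk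

theorem GenM.gen4 {e : S.LPG.fg.N → ℕ} (hG : S.GenM e) : S.Gen4 where
  sk := hG.sk
  d y n h hs h1 h2 h3 := by
    obtain ⟨Ed, act, M, F, hM, h0⟩ := hG.tk y n h hs
    have hl := hG.sk.lc y hs
    have hA := sink_grp hs hl h
    have hDA : DT (S.LPG.grp (S.lp h)) := by rw [hA]; exact h3
    obtain ⟨D0⟩ := hDA.nonempty
    exact ⟨Ed, act, M, hM, (anyD_eq h M hG.E hs hl h1 h2 D0 hDA.1 hM h0).1⟩
  s y n h hy hcr := by
    obtain ⟨Ed, act, M, F, hC, h0⟩ := hG.ts y n h hy hcr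
    obtain ⟨p, u, hp, hu, ha⟩ := hcr
    exact ⟨Ed, act, M, hC.dconn, (hC.eq h0 (gq_two h hG.os hp ha hu hy)).1⟩

theorem Gen5.gen4 (hG : S.Gen5) : S.Gen4 := by
  obtain ⟨e, hG⟩ := hG
  exact hG.gen4

/-- LEMMA S, `P_5` -/
theorem Gen5.kill (hG : S.Gen5) {φ : H2m H}
    (hk : ∀ y m p g, S.Crs y → S.K.ar m y → S.K.EC m y → p ∈ S.J y → p ∈ S.J m →
      S.LGr p y m g → (S.K.Snk y → NY y g) → (∀ b, S.K.ar y b → g • b = b) →
      φ (Additive.ofMul g) = 0) :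
    (∀ y, S.Crs y → S.K.Snk y → S.K.VC y → ∀ g : H, NY y g → φ (Additive.ofMul g) = 0) ∧
    ∀ y n g, S.Crs y → S.K.PG y n g → (∀ b, S.K.ar y b → g • b = b) →
      φ (Additive.ofMul g) = 0 := by
  obtain ⟨e, hG⟩ := hG
  constructor
  · intro y hcr hs hv g hg
    obtain ⟨n, hn⟩ := hv
    have h : S.K.ar n y := by
      rcases hn.E with k | k
      · exact absurd k (hs _)
      · exact k
    have hl := hG.sk.lc y hs
    have hec : ∀ m, S.K.ar m y → S.K.EC m y := fun m hm =>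
      (ij_EC (sink_IJ hs hl h hm)).1 hn.symm
    obtain ⟨Ed, act, M, F, hM, h0⟩ := hG.tk y n h hs
    rcases hG.sk.ty y hs with ⟨q, hq⟩ | ⟨h1, h2, h3 | ⟨h3, h4⟩⟩
    · exact absurd hcr (not_crs_pt hq)
    · exact anyD5 h M hG.E hs hl h1 h2 h3 hM h0 (fun m p g hm hp hp' hgg hN => hk y m p g hcr hm
        (hec m hm) hp hp' hgg (fun _ => hN) (fun b hb => absurd hb (hs b))) hg
    · refine anyZ h M hG.E hs hl h1 h3 h4 hM h0 (fun m p g hm hp hp' hgg => hk y m p g hcr hm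
        (hec m hm) hp hp' hgg (fun _ => ?_) (fun b hb => absurd hb (hs b))) hg
      -- the groups of the local pieces are finite
      refine (ny_zt h4 h3).2 ⟨hgg.1, ?_⟩
      have hfin : Finite ↥(stabilizer H (S.lp hm)) := by
        refine finite_of_hyp S.D.tact (S.K.stab y) h1 ?_ (w := p) ?_
        · intro b hb
          exact (lp_fix hm hb hp hp').1
        · intro b hb
          exact (lp_fix hm hb hp hp').2.1
      have hmem : g • S.lp hm = S.lp hm := by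
        have h5 : S.K.ar (g • m) y := by
          have := S.K.ar_smul g _ _ hm
          rwa [hgg.1] at this
        have h6 := (lp_iff hm h5 hp hp').2 hgg.2.2
        rw [lp_smul, h6]
        have key : ∀ z (k : S.K.ar (g • m) z), z = y → S.lp k = S.lp h5 := by
          rintro z k rfl
          rfl
        exact key _ _ hgg.1
      intro hio
      exact SAG.not_IO_finite (⟨g, hmem⟩ : ↥(stabilizer H (S.lp hm))) (io_coe.1 hio)
  · rintro y n g hcr ⟨hy, h, hec, hg, hgn⟩ hgp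
    obtain ⟨Ed, act, M, F, hC, h0⟩ := hG.ts y n h hy hcr
    obtain ⟨p, u, hp, hu, ha⟩ := hcr
    exact anyS5 h M hG.os hC hp ha hu hy h0
      (fun m p' g hm hj hp' hm' hgg hb => hk y m p' g ⟨p, u, hp, hu, ha⟩ hm ((ij_EC hj).1 hec) hp'
        hm' hgg (fun hs => by
          obtain ⟨b, hb'⟩ := hy
          exact absurd hb' (hs b)) hb) hg hgn hgp

/-- from the equality case of the exc-law without duplicate lines -/
theorem GenH.genM {e : S.LPG.fg.N → ℕ} (hG : S.GenH e) : S.GenM e where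
  E := hG.E
  os := hG.os
  sk := hG.sk
  tk y n h hs := by
    have hF : Fintype (S.LPG.comp (S.lp h)).fg.N := Fintype.ofFinite _
    refine ⟨_, _, S.LPG.comp (S.lp h), hF, S.LPG.comp_conn _, ?_⟩
    have key := hG.ti y n h
    rw [sink_rs (P := S.PL) (fun _ _ k => lp_PL k) hs h, FG.exc_empty] at key
    exact key.ge
  ts y n h hy _ := by
    have hF : Fintype (S.LPG.comp (S.lp h)).fg.N := Fintype.ofFinite _
    refine ⟨_, _, S.LPG.comp (S.lp h), hF, softC hG.conn hG.E hG.E' h hy (hG.lc y hy), ?_⟩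
    have key := hG.ti y n h
    rw [rs_PL] at key
    exact key.ge

end SyQ

end Pool.Agent.DI
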