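import Pool.Agent.DI.Dup
import Pool.Agent.DI.GenX

/-!
# DI/GenD: Lemma S from the equality case of the law with duplicate lines

`R`: lines of `S.LPG` which are parallel to lines outside of `R`. If nothing is gained at the components
without the lines of `R` then `S.GenM e`, so `S.Gen4`, `S.Gen5`.
-/

namespace Pool.Agent.DI

open MulAction

namespace SyQ

variable {H V : Type} [Group H] [MulAction H V] {S : SyQ H V}

theorem GenM.of_par (hc : S.Conn) {R : SubMulAction H ↥(JM.cpl S.AJ)} (hR : S.LPG.Par R)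
    {e : S.LPG.fg.N → ℕ} (E : S.EX e) (E' : S.EM e) (hos : S.OS) (hS : S.SinkH)
    (hl : ∀ y, (∃ a, S.K.ar y a) → S.K.LC y)
    (hq : ∀ y n (h : S.K.ar n y)
      [Fintype ((S.LPG.comp (S.lp h)).sub (JM.cpl (S.LPG.rE (S.lp h) R))).fg.N],
      ((S.LPG.comp (S.lp h)).sub (JM.cpl (S.LPG.rE (S.lp h) R))).fg.exc
        (S.LPG.rs (S.lp h) S.PL) =
      ((S.LPG.comp (S.lp h)).sub (JM.cpl (S.LPG.rE (S.lp h) R))).fg.aftE
        (S.LPG.rs (S.lp h) S.PL) (S.LPG.re (S.lp h) e)) : S.GenM e where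
  E := E
  os := hos
  sk := hS
  tk y n h hs := by
    have hF : Fintype ((S.LPG.comp (S.lp h)).sub (JM.cpl (S.LPG.rE (S.lp h) R))).fg.N :=
      Fintype.ofFinite _
    refine ⟨_, _, (S.LPG.comp (S.lp h)).sub (JM.cpl (S.LPG.rE (S.lp h) R)), hF,
      fun a b => ((hR.comp (S.lp h)).eqv).2 (S.LPG.comp_conn _ a b), ?_⟩
    have key := hq y n h
    have e1 : S.LPG.rs (S.lp h) S.PL = (∅ : Set (S.LPG.comp (S.lp h)).fg.N) :=
      sink_rs (P := S.PL) (fun _ _ k => lp_PL k) hs h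
    rw [e1] at key
    have e2 := FG.exc_empty (G := ((S.LPG.comp (S.lp h)).sub (JM.cpl (S.LPG.rE (S.lp h) R))).fg)
    exact (key.symm.trans e2).le
  ts y n h hy _ := by
    have hF : Fintype ((S.LPG.comp (S.lp h)).sub (JM.cpl (S.LPG.rE (S.lp h) R))).fg.N :=
      Fintype.ofFinite _
    refine ⟨_, _, (S.LPG.comp (S.lp h)).sub (JM.cpl (S.LPG.rE (S.lp h) R)), hF,
      (softC hc E E' h hy (hl y hy)).rm (hR.comp (S.lp h)), ?_⟩
    have key := hq y n h
    rw [rs_PL] at key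
    exact key.ge

end SyQ

end Pool.Agent.DI
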