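import Pool.Agent.DI.UqF
import Pool.Agent.DI.GenD
import Pool.Agent.DI.ExL0
import Pool.Agent.DI.OStS

/-!
# DI/GenE: Lemma S in the equality case of the law with duplicate lines

`genM_of_dup`: for any duplicate lines. `Psv.gen5`, `Psv.gen4`: at a passive step, from
`(k0 w).pexc ≤ K.pexc + dupB`.
-/

namespace Pool.Agent.DI

open MulAction

namespace SyQ

variable {H V : Type} [Group H] [MulAction H V] {S : SyQ H V}

theorem genM_of_dup (hc : S.Conn) (hnb : S.NB) {ι : Type} [Fintype ι] (w : ι → S.X)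
    (hw : ∀ (i j : ι) (g : H), g • w i = w j → i = j) {R : SubMulAction H ↥(JM.cpl S.AJ)}
    (hR : S.DupL R) (hL : S.LostR (JM.cpl R) w) (hS : S.SinkH)
    (hl : ∀ y, (∃ a, S.K.ar y a) → S.K.LC y) (hos : S.OS)
    (h0 : ∑ i, (S.k0 hc (w i)).pexc ≤ S.K.pexc + (dupB hc hnb w hw R : ℤ)) :
    S.GenM (exR hc hnb w hw R) :=
  GenM.of_par hc hR.par (exR_ex hc hnb w hw hL) (exR_em hc hnb w hw hL) hos hS hl
    fun _ _ h _ => pexc_eqR hc hnb w hw hR hL hS hl h0 h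

variable {w : S.X} {O : S.OR w} {E : V → Prop}

theorem Psv.os (h : S.Psv w O E) : S.OS := OS_of fun h1 h2 => h.pc _ _ _ h1 h2

/-- LEMMA S at a passive step -/
theorem Psv.gen5 (h : S.Psv w O E) {hnb : S.NB}
    {hw : ∀ (i j : Unit) (g : H), g • (fun _ : Unit => w) i = (fun _ : Unit => w) j → i = j}
    (h0 : (S.k0 h.gd.conn w).pexc ≤ S.K.pexc +
      (dupB h.gd.conn hnb (fun _ : Unit => w) hw (S.pQ S.FlW) : ℤ)) : S.Gen5 := by
  refine ⟨_, genM_of_dup h.gd.conn hnb (fun _ : Unit => w) hw (dupL_pQ fun _ k => k)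
    (h.lostR ⟨h.bw, h.bo⟩) (h.gd.sinkH fun y _ => h.lc y) (fun y _ => h.lc y) h.os ?_⟩
  rw [Fintype.sum_unique]
  exact h0

theorem Psv.gen4 (h : S.Psv w O E) {hnb : S.NB}
    {hw : ∀ (i j : Unit) (g : H), g • (fun _ : Unit => w) i = (fun _ : Unit => w) j → i = j}
    (h0 : (S.k0 h.gd.conn w).pexc ≤ S.K.pexc +
      (dupB h.gd.conn hnb (fun _ : Unit => w) hw (S.pQ S.FlW) : ℤ)) : S.Gen4 :=
  (h.gen5 h0).gen4

end SyQ

end Pool.Agent.DI
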