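import Pool.Agent.DI.GenE
import Pool.Agent.DI.ExLc

/-!
# DI/GenF: the field `gen` of the laws of a step

`Psv.eq2_gen4`, `Psv.eq2_gen5`: Lemma S at constant sigma and constant excess, if there are no two parallel
squares in the folded slice.
-/

namespace Pool.Agent.DI

open MulAction

namespace SyQ

variable {H V : Type} [Group H] [MulAction H V] {S : SyQ H V} {w : S.X} {O : S.OR w} {E : V → Prop}

theorem Psv.eq2_gen5 (h : S.Psv w O E) (hp : (h.kP O).NoPl) (e : h.Eq2) : S.Gen5 :=
  h.gen5 (hnb := h.nbm) (hw := one_pl w) (h.eq2_h1c hp e)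

theorem Psv.eq2_gen4 (h : S.Psv w O E) (hp : (h.kP O).NoPl) (e : h.Eq2) : S.Gen4 :=
  (h.eq2_gen5 hp e).gen4

end SyQ

end Pool.Agent.DI
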