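import Pool.Agent.DI.P3
import Pool.Agent.DI.ExcJ

/-!
# DI/GenP: characters which vanish on the local groups

`M : JM J T Ed` a connected graph with an action of `J`, `f` a homomorphism of `J` to `ZMod 2`. No
normal closures, only the rank inequality `JM.rank_le`.

* `JM.kill0`: `b = 0` and `f` vanishes on the stabilisers of the nodes: `f = 0`;
* `JM.killZ`: `b = 1`, `τ : J → ℤ` onto, zero on the stabilisers, `f` vanishes on the stabilisers:
  `f` vanishes on the kernel of `τ`;
* `JM.killD`: `J` of type `D_inf`, `s + b ≤ 2` (mirrored orbits of nodes), `f` vanishes on the elements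
  of the stabilisers which lie in the kernel `N`: `f` vanishes on `N`;
* `JM.killS`: `σ : J → ±1`, `s + b ≤ 1`, `f` vanishes on the elements of the stabilisers with `σ = 1`:
  `f` vanishes on the kernel of `σ`;
* `kill0_dn`, `killS_dn`: the same for the graph without poles, in the form of `exc_self_eq`.
-/

namespace Pool.Agent.DI

open MulAction
open Pool.Agent.SAF (orbs FinOrb oc oc_mono)

/-- a homomorphism as a function -/
def h2f {J : Type} [Group J] (f : H2m J) : J → ZMod 2 := fun g => f (Additive.ofMul g)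

theorem h2f_mul {J : Type} [Group J] (f : H2m J) (g h : J) : h2f f (g * h) = h2f f g + h2f f h :=
  h2_mul f g h

theorem h2f_inv {J : Type} [Group J] (f : H2m J) (g : J) : h2f f g⁻¹ = h2f f g := by
  have h := h2_inv f g
  have key : ∀ z : ZMod 2, -z = z := by decide
  rw [key] at h
  exact h

namespace JM

variable {J T Ed : Type} [Group J] [MulAction J T] [MulAction J Ed] (M : JM J T Ed)

section

variable (hne : Nonempty T) (hconn : ∀ x y : T, Relation.EqvGen M.st x y)

include hne hconn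

/-- a character outside a space of characters -/
theorem not_mem_le {X : Submodule (ZMod 2) (J → ZMod 2)} [FiniteDimensional (ZMod 2) X]
    (hX : ∀ χ ∈ X, ∀ g h : J, χ (g * h) = χ g + χ h) {f : J → ZMod 2}
    (hf : ∀ g h, f (g * h) = f g + f h) (hfX : f ∉ X) (P : Subgroup J → Prop)
    (hP : ∀ x : T, ∀ g ∈ stabilizer J x, (f g ≠ 0 ∨ ∃ χ ∈ X, χ g ≠ 0) → P (stabilizer J x))
    (h1 : ∀ x : T, ∃ r : J → ZMod 2, (∀ χ ∈ X, (∀ g ∈ stabilizer J x, χ g = 0) ∨
      ∀ g ∈ stabilizer J x, χ g = r g) ∧ ((∀ g ∈ stabilizer J x, f g = 0) ∨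
      ∀ g ∈ stabilizer J x, f g = r g)) :
    (Module.finrank (ZMod 2) X : ℤ) + 1 ≤ Nat.card ↥(M.mN P) + M.fg.b1 := by
  classical
  let Y : Submodule (ZMod 2) (J → ZMod 2) := X ⊔ Submodule.span (ZMod 2) {f}
  have hY : ∀ χ, χ ∈ Y ↔ ∃ χ' ∈ X, ∃ a : ZMod 2, χ = χ' + a • f := by
    intro χ
    rw [Submodule.mem_sup]
    constructor
    · rintro ⟨y, hy, z, hz, rfl⟩
      obtain ⟨a, rfl⟩ := Submodule.mem_span_singleton.1 hz
      exact ⟨y, hy, a, rfl⟩
    · rintro ⟨y, hy, a, rfl⟩
      exact ⟨y, hy, _, Submodule.mem_span_singleton.2 ⟨a, rfl⟩, rfl⟩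
  have key : ∀ z : ZMod 2, z = 0 ∨ z = 1 := by decide
  have hYfd : FiniteDimensional (ZMod 2) Y := inferInstance
  have hlt : Module.finrank (ZMod 2) X < Module.finrank (ZMod 2) Y := by
    apply Submodule.finrank_lt_finrank_of_lt
    refine lt_of_le_of_ne le_sup_left ?_
    intro e
    apply hfX
    rw [e]
    exact (hY f).2 ⟨0, X.zero_mem, 1, by rw [zero_add, one_smul]⟩
  have h := M.rank_le hne hconn (X := Y) (by
    intro χ hχ g h
    obtain ⟨χ', h1, a, rfl⟩ := (hY χ).1 hχ
    show χ' (g * h) + a • f (g * h) = (χ' g + a • f g) + (χ' h + a • f h)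
    rw [hX χ' h1, hf, smul_add]
    ring) P (by
    intro x χ hχ g hg hn
    obtain ⟨χ', h1, a, rfl⟩ := (hY χ).1 hχ
    apply hP x g hg
    by_contra hcon
    push Not at hcon
    apply hn
    show χ' g + a • f g = 0
    rw [hcon.1, hcon.2 χ' h1, smul_zero, add_zero]) (by
    intro x
    obtain ⟨r, r1, r2⟩ := h1 x
    -- every character is zero or `r` on the stabiliser
    have all : ∀ χ ∈ Y, (∀ g ∈ stabilizer J x, χ g = 0) ∨
        ∀ g ∈ stabilizer J x, χ g = r g := by
      intro χ hχ
      obtain ⟨χ', h1, a, rfl⟩ := (hY χ).1 hχ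
      have hd : ∀ z : ZMod 2, z + z = 0 := by decide
      rcases key a with rfl | rfl
      · rcases r1 χ' h1 with h | h
        · left
          intro g hg
          show χ' g + (0 : ZMod 2) • f g = 0
          rw [h g hg, zero_smul, add_zero]
        · right
          intro g hg
          show χ' g + (0 : ZMod 2) • f g = r g
          rw [h g hg, zero_smul, add_zero]
      · rcases r1 χ' h1 with h | h <;> rcases r2 with k | k
        · left
          intro g hg
          show χ' g + (1 : ZMod 2) • f g = 0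
          rw [h g hg, one_smul, k g hg, add_zero]
        · right
          intro g hg
          show χ' g + (1 : ZMod 2) • f g = r g
          rw [h g hg, one_smul, k g hg, zero_add]
        · right
          intro g hg
          show χ' g + (1 : ZMod 2) • f g = r g
          rw [h g hg, one_smul, k g hg, add_zero]
        · left
          intro g hg
          show χ' g + (1 : ZMod 2) • f g = 0
          rw [h g hg, one_smul, k g hg, hd]
    rintro χ hχ χ' hχ' ⟨g, hg, hn⟩ ⟨g', hg', hn'⟩ k hk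
    rcases all χ hχ with h | h
    · exact absurd (h g hg) hn
    · rcases all χ' hχ' with h' | h'
      · exact absurd (h' g' hg') hn'
      · rw [h k hk, h' k hk])
  have : (Module.finrank (ZMod 2) X : ℤ) < Module.finrank (ZMod 2) Y := by exact_mod_cast hlt
  omega

/-- a character which vanishes on the stabilisers of the nodes, `b = 0` -/
theorem kill0 (hb : M.fg.b1 = 0) {f : J → ZMod 2} (hf : ∀ g h, f (g * h) = f g + f h)
    (hk : ∀ x : T, ∀ g ∈ stabilizer J x, f g = 0) (g : J) : f g = 0 := by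
  by_contra hcon
  have hfX : f ∉ (⊥ : Submodule (ZMod 2) (J → ZMod 2)) := by
    intro h
    rw [Submodule.mem_bot] at h
    exact hcon (congrFun h g)
  have h := M.not_mem_le hne hconn (X := ⊥) (by
    intro χ hχ g h
    rw [Submodule.mem_bot] at hχ
    rw [hχ]
    simp) hf hfX (fun _ => False) (by
    rintro x g hg (h | ⟨χ, hχ, h⟩)
    · exact h (hk x g hg)
    · rw [Submodule.mem_bot] at hχ
      rw [hχ] at h
      exact h rfl) (fun x => ⟨fun _ => 0, fun χ hχ => by
        rw [Submodule.mem_bot] at hχ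
        left
        intro g _
        rw [hχ]
        rfl, Or.inl (hk x)⟩)
  have e : M.mN (fun _ => False) = ∅ := by
    ext q
    rw [mem_mN]
    simp
  rw [e, finrank_bot, hb] at h
  simp at h

/-- the same with one independent cycle, for a group with a homomorphism onto `ℤ` -/
theorem killZ (hb : M.fg.b1 ≤ 1) {τ : J → ℤ} (hτ : ∀ g h, τ (g * h) = τ g + τ h)
    (hτ1 : ∃ g, τ g = 1) (hτ0 : ∀ x : T, ∀ g ∈ stabilizer J x, τ g = 0)
    {f : J → ZMod 2} (hf : ∀ g h, f (g * h) = f g + f h)
    (hk : ∀ x : T, ∀ g ∈ stabilizer J x, f g = 0) {g : J} (hg : τ g = 0) : f g = 0 := by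
  by_contra hcon
  let c : J → ZMod 2 := fun g => (τ g : ZMod 2)
  have hc : ∀ g h, c (g * h) = c g + c h := by
    intro g h
    show ((τ (g * h) : ℤ) : ZMod 2) = _
    rw [hτ]
    push_cast
    rfl
  have hmem : ∀ χ : J → ZMod 2, χ ∈ Submodule.span (ZMod 2) {c} ↔ ∃ a : ZMod 2, a • c = χ :=
    fun χ => Submodule.mem_span_singleton
  have hc0 : c ≠ 0 := by
    obtain ⟨g, hg⟩ := hτ1
    intro e
    have := congrFun e g
    change ((τ g : ℤ) : ZMod 2) = 0 at this
    rw [hg] at this
    simp at this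
  have hst : ∀ x : T, ∀ g ∈ stabilizer J x, c g = 0 := by
    intro x g hg
    show ((τ g : ℤ) : ZMod 2) = 0
    rw [hτ0 x g hg]
    simp
  have hfX : f ∉ Submodule.span (ZMod 2) {c} := by
    intro h
    obtain ⟨a, ha⟩ := (hmem f).1 h
    apply hcon
    rw [← ha]
    show a • ((τ g : ℤ) : ZMod 2) = 0
    rw [hg]
    simp
  have h := M.not_mem_le hne hconn (X := Submodule.span (ZMod 2) {c}) (by
    intro χ hχ g h
    obtain ⟨a, rfl⟩ := (hmem χ).1 hχ
    show a • c (g * h) = a • c g + a • c h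
    rw [hc, smul_add]) hf hfX (fun _ => False) (by
    rintro x g hg (h | ⟨χ, hχ, h⟩)
    · exact h (hk x g hg)
    · obtain ⟨a, rfl⟩ := (hmem χ).1 hχ
      apply h
      show a • c g = 0
      rw [hst x g hg, smul_zero]) (fun x => ⟨fun _ => 0, fun χ hχ => by
        obtain ⟨a, rfl⟩ := (hmem χ).1 hχ
        left
        intro g hg
        show a • c g = 0
        rw [hst x g hg, smul_zero], Or.inl (hk x)⟩)
  have e : M.mN (fun _ => False) = ∅ := by
    ext q
    rw [mem_mN]
    simp
  rw [e, finrank_span_singleton hc0] at h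
  simp at h
  omega

/-- groups of type `D_inf` -/
theorem killD (L : DL J) (hfin : ∀ x : T, Finite ↥(stabilizer J x))
    (hb : (Nat.card ↥(M.mN L.Mir) : ℤ) + M.fg.b1 ≤ 2)
    {f : J → ZMod 2} (hf : ∀ g h, f (g * h) = f g + f h)
    (hk : ∀ x : T, ∀ g ∈ stabilizer J x, g ∈ L.N → f g = 0) {g : J} (hg : g ∈ L.N) : f g = 0 := by
  by_contra hcon
  have hfX : f ∉ L.X := by
    intro h
    obtain ⟨a, b, e⟩ := L.mem_X.1 h
    apply hcon
    rw [e]
    unfold DL.c1 DL.c2
    rw [L.mem_N] at hg
    rw [if_pos hg.1, hg.2]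
    simp
  -- stabilisers
  have hN : ∀ x : T, ∀ g ∈ stabilizer J x, L.ε g = 1 → g ∈ L.N := by
    intro x g hg h1
    obtain ⟨p, hp⟩ := L.exists_place _ (hfin x)
    rcases L.mem_St_iff.1 (hp hg) with h | h
    · exact h
    · exact absurd (h1.symm.trans h.1) DL.ne_neg_one
  have h := M.not_mem_le hne hconn (X := L.X) (by
    intro χ hχ g h
    obtain ⟨a, b, e⟩ := L.mem_X.1 hχ
    rw [e, e, e, L.c1_mul, L.c2_mul]
    ring) hf hfX L.Mir (by
    intro x g hg h
    refine ⟨g, hg, ?_⟩
    rcases L.ε_cases g with h1 | h1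
    · exfalso
      rcases h with h | ⟨χ, hχ, h⟩
      · exact h (hk x g hg (hN x g hg h1))
      · obtain ⟨a, b, e⟩ := L.mem_X.1 hχ
        apply h
        have h2 := hN x g hg h1
        rw [L.mem_N] at h2
        rw [e]
        unfold DL.c1 DL.c2
        rw [if_pos h2.1, h2.2]
        simp
    · exact h1) (by
    intro x
    have key : ∀ z : ZMod 2, z = 0 ∨ z = 1 := by decide
    refine ⟨fun g => if L.ε g = 1 then 0 else 1, ?_, ?_⟩
    · intro χ hχ
      obtain ⟨a, b, e⟩ := L.mem_X.1 hχ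
      obtain ⟨p, hp⟩ := L.exists_place _ (hfin x)
      rcases key (a + b * (p : ZMod 2)) with h | h
      · left
        intro g hg
        rw [e, L.char_St (hp hg), h]
        simp
      · right
        intro g hg
        rw [e, L.char_St (hp hg), h]
    · by_cases hex : ∃ r ∈ stabilizer J x, L.ε r = -1 ∧ f r = 1
      · right
        obtain ⟨r, r1, r2, r3⟩ := hex
        intro g hg
        show f g = if L.ε g = 1 then 0 else 1
        rcases L.ε_cases g with h1 | h1
        · rw [if_pos h1]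
          exact hk x g hg (hN x g hg h1)
        · have h2 : ¬ ((-1 : ℤˣ) = 1) := by decide
          rw [h1, if_neg h2]
          have h3 : L.ε (r⁻¹ * g) = 1 := by
            rw [map_mul, map_inv, r2, h1]
            decide
          have h4 : r⁻¹ * g ∈ stabilizer J x := (stabilizer J x).mul_mem
            ((stabilizer J x).inv_mem r1) hg
          have h5 := hk x _ h4 (hN x _ h4 h3)
          have h6 : g = r * (r⁻¹ * g) := by group
          rw [h6, hf, h5, r3, add_zero]
      · left
        intro g hg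
        rcases L.ε_cases g with h1 | h1
        · exact hk x g hg (hN x g hg h1)
        · rcases key (f g) with h | h
          · exact h
          · exact absurd ⟨g, hg, h1, h⟩ hex)
  rw [L.rank_X] at h
  push_cast at h
  omega

/-- groups with a homomorphism to `±1` -/
theorem killS (σ : J →* ℤˣ) (hσ : ∃ g, σ g = -1)
    (hb : (Nat.card ↥(M.mN (Sw σ)) : ℤ) + M.fg.b1 ≤ 1)
    {f : J → ZMod 2} (hf : ∀ g h, f (g * h) = f g + f h)
    (hk : ∀ x : T, ∀ g ∈ stabilizer J x, σ g = 1 → f g = 0) {g : J} (hg : σ g = 1) : f g = 0 := by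
  by_contra hcon
  have hne1 : ¬ ((-1 : ℤˣ) = 1) := by decide
  have hcs : ∀ g, σ g = 1 ∨ σ g = -1 := fun g => Int.units_eq_one_or _
  let c : J → ZMod 2 := fun g => if σ g = 1 then 0 else 1
  have hc : ∀ g h, c (g * h) = c g + c h := by
    intro g h
    show (if σ (g * h) = 1 then (0 : ZMod 2) else 1) = (if σ g = 1 then 0 else 1) +
      (if σ h = 1 then 0 else 1)
    rw [map_mul]
    have h1 : ((-1 : ℤˣ) * -1) = 1 := by decide
    rcases hcs g with e | e <;> rcases hcs h with e' | e' <;> rw [e, e']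
    · simp
    · simp [hne1]
    · simp [hne1]
    · rw [h1, if_pos rfl, if_neg hne1]
      decide
  have hmem : ∀ χ : J → ZMod 2, χ ∈ Submodule.span (ZMod 2) {c} ↔ ∃ a : ZMod 2, a • c = χ :=
    fun χ => Submodule.mem_span_singleton
  have hc1 : ∀ g, σ g = 1 → c g = 0 := fun g h => if_pos h
  have hc2 : ∀ g, σ g = -1 → c g = 1 := fun g h => if_neg (by rw [h]; exact hne1)
  have hc0 : c ≠ 0 := by
    obtain ⟨g, hg⟩ := hσ
    intro e
    have := congrFun e g
    rw [hc2 g hg] at this
    exact one_ne_zero this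
  have hfX : f ∉ Submodule.span (ZMod 2) {c} := by
    intro h
    obtain ⟨a, ha⟩ := (hmem f).1 h
    apply hcon
    rw [← ha]
    show a • c g = 0
    rw [hc1 g hg, smul_zero]
  have key : ∀ z : ZMod 2, z = 0 ∨ z = 1 := by decide
  have h := M.not_mem_le hne hconn (X := Submodule.span (ZMod 2) {c}) (by
    intro χ hχ g h
    obtain ⟨a, rfl⟩ := (hmem χ).1 hχ
    show a • c (g * h) = a • c g + a • c h
    rw [hc, smul_add]) hf hfX (Sw σ) (by
    intro x g hg h
    refine ⟨g, hg, ?_⟩
    rcases hcs g with h1 | h1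
    · exfalso
      rcases h with h | ⟨χ, hχ, h⟩
      · exact h (hk x g hg h1)
      · obtain ⟨a, rfl⟩ := (hmem χ).1 hχ
        apply h
        show a • c g = 0
        rw [hc1 g h1, smul_zero]
    · exact h1) (by
    intro x
    refine ⟨c, ?_, ?_⟩
    · intro χ hχ
      obtain ⟨a, rfl⟩ := (hmem χ).1 hχ
      rcases key a with rfl | rfl
      · left
        intro g _
        show (0 : ZMod 2) • c g = 0
        rw [zero_smul]
      · right
        intro g _
        show (1 : ZMod 2) • c g = c g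
        rw [one_smul]
    · by_cases hex : ∃ r ∈ stabilizer J x, σ r = -1 ∧ f r = 1
      · right
        obtain ⟨r, r1, r2, r3⟩ := hex
        intro g hg
        rcases hcs g with h1 | h1
        · rw [hc1 g h1]
          exact hk x g hg h1
        · rw [hc2 g h1]
          have h3 : σ (r⁻¹ * g) = 1 := by
            rw [map_mul, map_inv, r2, h1]
            decide
          have h4 : r⁻¹ * g ∈ stabilizer J x := (stabilizer J x).mul_mem
            ((stabilizer J x).inv_mem r1) hg
          have h5 := hk x _ h4 h3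
          have h6 : g = r * (r⁻¹ * g) := by group
          rw [h6, hf, h5, r3, add_zero]
      · left
        intro g hg
        rcases hcs g with h1 | h1
        · exact hk x g hg h1
        · rcases key (f g) with h | h
          · exact h
          · exact absurd ⟨g, hg, h1, h⟩ hex)
  rw [finrank_span_singleton hc0] at h
  push_cast at h
  omega

end

/-- without the poles, `b = 0` -/
theorem kill0_dn {Pl : SubMulAction J T} (hne : ∃ x, x ∉ Pl)
    (hconn : ∀ x y : ↥(cpl Pl), Relation.EqvGen (M.dn Pl).st x y) (hb : (M.dn Pl).fg.b1 = 0)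
    {f : J → ZMod 2} (hf : ∀ g h, f (g * h) = f g + f h)
    (hk : ∀ x : T, x ∉ Pl → ∀ g ∈ stabilizer J x, f g = 0) (g : J) : f g = 0 := by
  obtain ⟨x, hx⟩ := hne
  refine (M.dn Pl).kill0 ⟨⟨x, hx⟩⟩ hconn hb hf ?_ g
  intro x g hg
  apply hk x.1 x.2 g
  exact congrArg Subtype.val (hg : g • x = x)

/-- without the poles, swaps: in the form of `exc_self_eq` -/
theorem killS_dn (σ : J →* ℤˣ) (hσ : ∃ g, σ g = -1) {Pl : SubMulAction J T} (hne : ∃ x, x ∉ Pl)
    (hconn : ∀ x y : ↥(cpl Pl), Relation.EqvGen (M.dn Pl).st x y)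
    {H : Set M.fg.N} (hH : H ⊆ M.mNf (Sw σ)) (hHP : ∀ x ∈ H, x ∉ M.imN Pl)
    (hb : (Nat.card ↥(M.mNf (Sw σ) \ (M.imN Pl ∪ H)) : ℤ) + Nat.card ↥H + (M.dn Pl).fg.b1 ≤ 1)
    {f : J → ZMod 2} (hf : ∀ g h, f (g * h) = f g + f h)
    (hk : ∀ x : T, x ∉ Pl → ∀ g ∈ stabilizer J x, σ g = 1 → f g = 0) {g : J} (hg : σ g = 1) :
    f g = 0 := by
  classical
  obtain ⟨x, hx⟩ := hne
  have h4 : Nat.card ↥(M.mNf (Sw σ) \ (M.imN Pl ∪ H)) + Nat.card ↥H =
      Nat.card ↥((M.dn Pl).mN (Sw σ)) := by
    rw [M.dn_mN]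
    have hs : H ⊆ M.mNf (Sw σ) \ M.imN Pl := fun x hx => ⟨hH hx, hHP x hx⟩
    have e : M.mNf (Sw σ) \ (M.imN Pl ∪ H) = (M.mNf (Sw σ) \ M.imN Pl) \ H := by
      rw [Set.sdiff_sdiff]
    have hf1 : Finite M.fg.N := M.fT
    rw [e, Nat.card_coe_set_eq, Nat.card_coe_set_eq, Nat.card_coe_set_eq,
      Set.ncard_sdiff_add_ncard_of_subset hs (Set.toFinite _)]
  refine (M.dn Pl).killS ⟨⟨x, hx⟩⟩ hconn σ hσ ?_ hf ?_ hg
  · rw [← h4]
    push_cast
    omega
  · intro x g hg h
    apply hk x.1 x.2 g _ h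
    exact congrArg Subtype.val (hg : g • x = x)

/-- `D_inf`, in the form of `exc_D_eq` -/
theorem killD' (L : DL J) (hne : Nonempty T) (hconn : ∀ x y : T, Relation.EqvGen M.st x y)
    (hfin : ∀ x : T, Finite ↥(stabilizer J x)) {H : Set M.fg.N} (hH : H ⊆ M.mNf L.Mir)
    (hb : (Nat.card ↥(M.mNf L.Mir \ H) : ℤ) + Nat.card ↥H + M.fg.b1 ≤ 2)
    {f : J → ZMod 2} (hf : ∀ g h, f (g * h) = f g + f h)
    (hk : ∀ x : T, ∀ g ∈ stabilizer J x, g ∈ L.N → f g = 0) {g : J} (hg : g ∈ L.N) : f g = 0 := by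
  classical
  refine M.killD hne hconn L hfin ?_ hf hk hg
  have hf1 : Finite M.fg.N := M.fT
  have h4 : Nat.card ↥(M.mNf L.Mir \ H) + Nat.card ↥H = Nat.card ↥(M.mNf L.Mir) := by
    rw [Nat.card_coe_set_eq, Nat.card_coe_set_eq, Nat.card_coe_set_eq,
      Set.ncard_sdiff_add_ncard_of_subset hH (Set.toFinite _)]
  have h5 : (Nat.card ↥(M.mNf L.Mir \ H) : ℤ) + Nat.card ↥H = Nat.card ↥(M.mNf L.Mir) := by
    exact_mod_cast h4
  have h6 : Nat.card ↥(M.mN L.Mir) = Nat.card ↥(M.mNf L.Mir) := rfl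
  rw [h6]
  omega

end JM

end Pool.Agent.DI
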