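import Pool.Agent.DI.XQ
import Pool.Agent.DI.GenP
import Pool.Agent.DI.P5Def

/-!
# DI/GenQ: characters which kill the groups of the local pieces (sinks)

`S.LGr p y n g`: `g` keeps the local piece of `n` at `y` over `p`. In the equality case of the exc-law
(`aftE = 0` at the component of the sink `y`) a character `φ` of `H`

* `sinkD4`: which kills the groups of the local pieces of a sink of type `D_inf` kills `H_y`;
* `sinkD5`: which kills the elements of `N_y` in the groups of the local pieces kills `N_y`;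
* `sinkZ`: the same for a sink of type `ℤ`.
-/

attribute [local instance 2000] SubMulAction.mulAction

namespace Pool.Agent.DI

open MulAction
open Pool.Agent.SAF (InC orbs FinOrb oc Decomp SAn SA Conv hull dist_edge FinOrb_iff exists_next TAct)
open Pool.Agent.SAG (IO Zt)
open Pool.Agent.BT (PX PQ JS bey exits mst Hyp finite_of_hyp)
open Pool.Agent.BT.TA

namespace SyQ

variable {H V : Type} [Group H] [MulAction H V] {S : SyQ H V}

variable (S) in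
/-- `g` keeps the local piece of `n` at `y` over `p` -/
def LGr (p : S.X) (y n : V) (g : H) : Prop := g • y = y ∧ g • p = p ∧ S.LIJ p y n (g • n)

/-- the stabiliser of a node in the group of its component -/
theorem stab_node {x : S.K.pc.CT S.AJ} (Q : ↥(S.LPG.cT x)) {a : ↥(S.LPG.grp x)}
    (ha : a ∈ stabilizer ↥(S.LPG.grp x) Q) {y m : V} (k : S.K.ar m y) (e : Q.1 = S.lp k) {p : S.X}
    (hp : p ∈ S.J y) (hm : p ∈ S.J m) : S.LGr p y m a.1 := by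
  have ha' : a.1 • S.lp k = S.lp k := by
    rw [← e]
    exact congrArg Subtype.val ha
  exact lp_fix k ha' hp hm

section hyp

variable {y n : V} (hs : ∀ a, ¬ S.K.ar y a) (hl : S.K.LC y) (h : S.K.ar n y)
  (hn : Hyp S.X (stabilizer H y)) (hJ : S.J y = mst S.D.G (stabilizer H y))

/-- sinks of type `D_inf` in the equality case: at most two mirrored orbits, no cycle -/
theorem sinkD_eq {P : Set S.LPG.fg.N}
    (hP : ∀ y n (h : S.K.ar n y), (oq H (S.lp h) : S.LPG.fg.N) ∉ P)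
    {e : S.LPG.fg.N → ℕ} (E : S.EX e) (hs : ∀ a, ¬ S.K.ar y a) (hl : S.K.LC y) (h : S.K.ar n y)
    (hn : Hyp S.X (stabilizer H y)) (hJ : S.J y = mst S.D.G (stabilizer H y))
    [Fintype (S.LPG.comp (S.lp h)).fg.N] (D0 : DL ↥(S.LPG.grp (S.lp h)))
    (hA0 : InC ↥(S.LPG.grp (S.lp h)))
    (h0 : (S.LPG.comp (S.lp h)).fg.aftE (S.LPG.rs (S.lp h) P) (S.LPG.re (S.lp h) e) ≤ 0) :
    (S.LPG.comp (S.lp h)).fg.b1 = 0 ∧
      Nat.card ↥((S.LPG.comp (S.lp h)).mN D0.Mir) = 2 := by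
  rw [sink_rs hP hs h] at h0
  have hA := sink_grp hs hl h
  have hnA : Hyp S.X (S.LPG.grp (S.lp h)) := by rw [hA]; exact hn
  have hmA : S.J y = mst S.D.G (S.LPG.grp (S.lp h)) := by rw [hA]; exact hJ
  have hne : Nonempty ↥(S.LPG.cT (S.lp h)) := ⟨⟨S.lp h, Relation.EqvGen.refl _⟩⟩
  -- a mirrored node is reversed
  have hmir : ∀ Q : ↥(S.LPG.cT (S.lp h)), D0.Mir (stabilizer ↥(S.LPG.grp (S.lp h)) Q) →
      ∀ m (k : S.K.ar m y), Q.1 = S.lp k → ∀ p, p ∈ S.J y → p ∈ S.J m → S.Swp p y m := by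
    rintro Q ⟨a, ha, hε⟩ m k e1 p hp hm
    obtain ⟨h1, h2, h3⟩ := stab_node Q ha k e1 hp hm
    refine ⟨a.1, h1, h2, h3, Or.inl ?_⟩
    obtain ⟨u, hu, hu'⟩ := ex_nbr_ax hn hJ hp
    refine ⟨u, hu, hu', ?_⟩
    exact refl_move D0 S.D.tact hA0 hnA hε (by rw [← hmA]; exact hp)
      (by rw [← hmA]; exact hu') hu.ne h2
  have h1 : ∀ x ∈ (S.LPG.comp (S.lp h)).mNf D0.Mir, x ∉ (∅ : Set _) →
      S.LPG.re (S.lp h) e x ≤ 1 := by
    rintro x ⟨Q, hQ, rfl⟩ -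
    obtain ⟨m, k, e1, -⟩ := sink_node hs h Q
    obtain ⟨p, hp, hm⟩ := lp_ex k
    have h2 := E.one y m k p hp hm (hmir Q hQ m k e1 p hp hm)
    have h3 : S.LPG.re (S.lp h) e (oq _ Q) = e (oq H (S.lp k)) := by rw [sink_e, e1]
    exact h3.le.trans h2
  have h2 : ∀ x, x ∉ (∅ : Set (S.LPG.comp (S.lp h)).fg.N) → S.LPG.re (S.lp h) e x ≤ 2 := by
    intro x _
    obtain ⟨Q, rfl⟩ := oq_surj x
    obtain ⟨m, k, e1, -⟩ := sink_node hs h Q
    rw [sink_e, e1]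
    exact E.two y m k
  have key := (S.LPG.comp (S.lp h)).exc_D_eq D0 hne (S.LPG.comp_conn _)
    (sink_fin hs h hn) (H := ∅) (Set.empty_subset _) (fun x hx => hx.elim)
    (JM.nDD_empty _) ⟨oq _ ⟨S.lp h, Relation.EqvGen.refl _⟩, fun hx => hx.elim⟩ h1 h2 h0
  obtain ⟨k1, k2, -⟩ := key
  refine ⟨k1, ?_⟩
  have h4 : Nat.card ↥(∅ : Set (S.LPG.comp (S.lp h)).fg.N) = 0 := Nat.card_of_isEmpty
  rw [h4, add_zero, Set.sdiff_empty] at k2
  exact k2

/-- a character on a subgroup -/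
theorem resf_mul {A : Subgroup H} (φ : H2m H) (g k : ↥A) :
    φ (Additive.ofMul (g * k : ↥A).1) = φ (Additive.ofMul g.1) + φ (Additive.ofMul k.1) :=
  h2_mul φ g.1 k.1

include hs hl h hn hJ in
/-- SINKS OF TYPE `D_inf`, `P_5` -/
theorem sinkD5 {P : Set S.LPG.fg.N}
    (hP : ∀ y n (h : S.K.ar n y), (oq H (S.lp h) : S.LPG.fg.N) ∉ P)
    {e : S.LPG.fg.N → ℕ} (E : S.EX e) (hD : DT (stabilizer H y))
    [Fintype (S.LPG.comp (S.lp h)).fg.N]
    (h0 : (S.LPG.comp (S.lp h)).fg.aftE (S.LPG.rs (S.lp h) P) (S.LPG.re (S.lp h) e) ≤ 0)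
    {φ : H2m H} (hk : ∀ m p g, S.K.ar m y → p ∈ S.J y → p ∈ S.J m → S.LGr p y m g → NY y g →
      φ (Additive.ofMul g) = 0) {g : H} (hg : NY y g) : φ (Additive.ofMul g) = 0 := by
  have hA := sink_grp hs hl h
  have hDA : DT (S.LPG.grp (S.lp h)) := by rw [hA]; exact hD
  obtain ⟨D0⟩ := hDA.nonempty
  obtain ⟨k1, k2⟩ := sinkD_eq hP E hs hl h hn hJ D0 hDA.1 h0
  have hne : Nonempty ↥(S.LPG.cT (S.lp h)) := ⟨⟨S.lp h, Relation.EqvGen.refl _⟩⟩
  have hN : ∀ a : H, NY y a ↔ ∃ ha : a ∈ S.LPG.grp (S.lp h), (⟨a, ha⟩ : ↥(S.LPG.grp (S.lp h))) ∈ D0.N := by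
    intro a
    constructor
    · rintro ⟨e1, e2, t, e3, e4, e5⟩
      have ha : a ∈ S.LPG.grp (S.lp h) := by rw [hA]; exact e1
      refine ⟨ha, (comm_dl D0 ha).1 ⟨e2, t, ?_, e4, e5⟩⟩
      rw [hA]; exact e3
    · rintro ⟨ha, e1⟩
      obtain ⟨e2, t, e3, e4, e5⟩ := (comm_dl D0 ha).2 e1
      rw [hA] at ha e3
      exact ⟨ha, e2, t, e3, e4, e5⟩
  obtain ⟨ha, hgN⟩ := (hN g).1 hg
  refine (S.LPG.comp (S.lp h)).killD hne (S.LPG.comp_conn _) D0 (sink_fin hs h hn) ?_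
    (f := fun a => φ (Additive.ofMul a.1)) (fun a b => resf_mul φ a b) ?_ hgN
  · rw [k1, k2]
    norm_num
  · intro Q a ha2 hN2
    obtain ⟨m, k, e1, -⟩ := sink_node hs h Q
    obtain ⟨p, hp, hm⟩ := lp_ex k
    exact hk m p a.1 k hp hm (stab_node Q ha2 k e1 hp hm) ((hN a.1).2 ⟨a.2, hN2⟩)

include hs hl h hn hJ in
/-- SINKS OF TYPE `D_inf`, `P_4` -/
theorem sinkD4 {P : Set S.LPG.fg.N}
    (hP : ∀ y n (h : S.K.ar n y), (oq H (S.lp h) : S.LPG.fg.N) ∉ P)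
    {e : S.LPG.fg.N → ℕ} (E : S.EX e) (hD : DT (stabilizer H y))
    [Fintype (S.LPG.comp (S.lp h)).fg.N]
    (h0 : (S.LPG.comp (S.lp h)).fg.aftE (S.LPG.rs (S.lp h) P) (S.LPG.re (S.lp h) e) ≤ 0)
    {φ : H2m H} (hk : ∀ m p g, S.K.ar m y → p ∈ S.J y → p ∈ S.J m → S.LGr p y m g →
      φ (Additive.ofMul g) = 0) {g : H} (hg : g • y = y) : φ (Additive.ofMul g) = 0 := by
  have hA := sink_grp hs hl h
  have hDA : DT (S.LPG.grp (S.lp h)) := by rw [hA]; exact hD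
  obtain ⟨D0⟩ := hDA.nonempty
  obtain ⟨k1, -⟩ := sinkD_eq hP E hs hl h hn hJ D0 hDA.1 h0
  have hne : Nonempty ↥(S.LPG.cT (S.lp h)) := ⟨⟨S.lp h, Relation.EqvGen.refl _⟩⟩
  have hg' : g ∈ S.LPG.grp (S.lp h) := by rw [hA]; exact hg
  refine (S.LPG.comp (S.lp h)).kill0 hne (S.LPG.comp_conn _) k1
    (f := fun a => φ (Additive.ofMul a.1)) (fun a b => resf_mul φ a b) ?_ ⟨g, hg'⟩
  intro Q a ha2
  obtain ⟨m, k, e1, -⟩ := sink_node hs h Q
  obtain ⟨p, hp, hm⟩ := lp_ex k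
  exact hk m p a.1 k hp hm (stab_node Q ha2 k e1 hp hm)

include hs hl h hn in
/-- SINKS OF TYPE `ℤ` -/
theorem sinkZ {P : Set S.LPG.fg.N}
    (hP : ∀ y n (h : S.K.ar n y), (oq H (S.lp h) : S.LPG.fg.N) ∉ P)
    {e : S.LPG.fg.N → ℕ} (E : S.EX e)
    (hi : Infinite ↥(stabilizer H y)) (hZ : Zt ↥(stabilizer H y))
    [Fintype (S.LPG.comp (S.lp h)).fg.N]
    (h0 : (S.LPG.comp (S.lp h)).fg.aftE (S.LPG.rs (S.lp h) P) (S.LPG.re (S.lp h) e) ≤ 0)
    {φ : H2m H} (hk : ∀ m p g, S.K.ar m y → p ∈ S.J y → p ∈ S.J m → S.LGr p y m g →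
      φ (Additive.ofMul g) = 0) {g : H} (hg : NY y g) : φ (Additive.ofMul g) = 0 := by
  obtain ⟨-, h1, h2⟩ := sink_Z hP E hs hl h hn hi hZ
  have hb := (h2 (le_antisymm h0 h1)).1
  have hA := sink_grp hs hl h
  have hiA : Infinite ↥(S.LPG.grp (S.lp h)) := by rw [hA]; exact hi
  have hZA : Zt ↥(S.LPG.grp (S.lp h)) := by rw [hA]; exact hZ
  have hne : Nonempty ↥(S.LPG.cT (S.lp h)) := ⟨⟨S.lp h, Relation.EqvGen.refl _⟩⟩
  obtain ⟨F, hF⟩ := hZA
  obtain ⟨a, ha⟩ : ∃ a, F a ≠ 1 := by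
    by_contra hcon
    push Not at hcon
    have : Finite ↥(S.LPG.grp (S.lp h)) := by
      refine Finite.of_injective (fun g : ↥(S.LPG.grp (S.lp h)) => (⟨g, hcon g⟩ : ↥F.ker)) ?_
      intro a b hab
      exact congrArg (fun z : ↥F.ker => z.1) hab
    exact not_finite ↥(S.LPG.grp (S.lp h))
  obtain ⟨f, hf, -⟩ := surj_of_ne F ha
  have hfin : ∀ a : ↥(S.LPG.grp (S.lp h)), IsOfFinOrder a → Multiplicative.toAdd (f a) = 0 := by
    intro g h3
    obtain ⟨r, hr, h5⟩ := h3.exists_pow_eq_one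
    have h6 : Multiplicative.toAdd (f g) * r = 0 := by
      have h7 : (f g) ^ r = 1 := by rw [← map_pow, h5, map_one]
      have h8 := congrArg Multiplicative.toAdd h7
      rw [toAdd_pow, toAdd_one, nsmul_eq_mul] at h8
      rw [mul_comm]
      exact h8
    rcases mul_eq_zero.1 h6 with h7 | h7
    · exact h7
    · exact absurd h7 (by exact_mod_cast hr.ne')
  have hg' : g ∈ S.LPG.grp (S.lp h) := by rw [hA]; exact hg.fix
  refine (S.LPG.comp (S.lp h)).killZ hne (S.LPG.comp_conn _) hb.le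
    (τ := fun g => Multiplicative.toAdd (f g)) (fun g k => by rw [map_mul, toAdd_mul])
    (by
      obtain ⟨g, hg⟩ := hf (Multiplicative.ofAdd 1)
      exact ⟨g, by rw [hg]; rfl⟩) ?_ (f := fun a => φ (Additive.ofMul a.1))
    (fun a b => resf_mul φ a b) ?_ (g := ⟨g, hg'⟩) ?_
  · intro Q g hg
    have := sink_fin hs h hn Q
    apply hfin
    have h3 : IsOfFinOrder (⟨g, hg⟩ : ↥(stabilizer ↥(S.LPG.grp (S.lp h)) Q)) :=
      isOfFinOrder_of_finite _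
    obtain ⟨r, hr, h4⟩ := h3.exists_pow_eq_one
    exact isOfFinOrder_iff_pow_eq_one.2 ⟨r, hr, congrArg Subtype.val h4⟩
  · intro Q a ha2
    obtain ⟨m, k, e1, -⟩ := sink_node hs h Q
    obtain ⟨p, hp, hm⟩ := lp_ex k
    exact hk m p a.1 k hp hm (stab_node Q ha2 k e1 hp hm)
  · apply hfin
    have h3 := hg.not_io
    by_contra hcon
    apply h3
    intro r hr he
    apply hcon
    exact isOfFinOrder_iff_pow_eq_one.2 ⟨r, hr, Subtype.ext he⟩

end hyp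

end SyQ

end Pool.Agent.DI
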