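import Pool.Agent.DI.GenQ
import Pool.Agent.DI.XLc

/-!
# DI/GenQs: characters which kill the groups of the local pieces (pieces of crossing softs)

In the equality case of the exc-law at the component of the piece of `n` at the vertex `y` which is not a
sink and crosses an edge:

* `soft4`: a character which kills the groups of the local pieces kills the group of the piece;
* `soft5`: a character which kills the elements of the groups of the local pieces which fix the poles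
  kills the elements of the group of the piece which fix the poles.

`gen4`, `gen5`: all vertices which cross an edge, in terms of `K.P4`, `K.P5`.
-/

attribute [local instance 2000] SubMulAction.mulAction

namespace Pool.Agent.DI

open MulAction
open Pool.Agent.SAF (InC orbs FinOrb oc Decomp SAn SA Conv hull dist_edge FinOrb_iff exists_next TAct)
open Pool.Agent.SAG (IO Zt)
open Pool.Agent.BT (PX PQ JS bey exits mst Hyp finite_of_hyp)
open Pool.Agent.BT.TA

namespace SyQ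

variable {H V : Type} [Group H] [MulAction H V] {S : SyQ H V}

/-- the group of the component of a piece -/
theorem mem_lp_grp {y n : V} (h : S.K.ar n y) {g : H} :
    g ∈ S.LPG.grp (S.lp h) ↔ g • y = y ∧ S.K.IJ y n (g • n) := by
  show g ∈ (S.K.pc.con S.AJ).grp (S.K.pc.ct S.AJ ⟨PN.inn y n, h⟩) ↔ _
  rw [JM.con_grp]
  exact S.K.mem_pc_grp h

/-- the edges of a piece lie in cells -/
theorem ij_EC {y a b : V} (h : S.K.IJ y a b) : S.K.EC a y ↔ S.K.EC b y := by
  induction h with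
  | rel a b h => exact ⟨fun _ => GX.EC_iff.2 ⟨_, h.1.symm⟩, fun _ => GX.EC_iff.2 ⟨_, h.1⟩⟩
  | refl a => exact Iff.rfl
  | symm a b _ ih => exact ih.symm
  | trans a b c _ _ i1 i2 => exact i1.trans i2

/-- the two private poles of a piece which crosses an edge -/
theorem gq_two_poles (hos : S.OS) {y n : V} (h : S.K.ar n y) {p u : S.X} (hp : p ∈ S.J y)
    (hu : S.D.G.Adj p u) (hu' : u ∈ S.J y) (hy : ∃ a, S.K.ar y a) :
    ∃ a b, a ≠ b ∧ S.K.ar y a ∧ S.K.ar y b ∧
      ∃ (ka : S.K.PV (PN.pol y a (S.K.Pc y n))) (kb : S.K.PV (PN.pol y b (S.K.Pc y n)))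
        (ca : S.K.pc.ct S.AJ ⟨PN.pol y a (S.K.Pc y n), ka⟩ ∈ S.LPG.cT (S.lp h))
        (cb : S.K.pc.ct S.AJ ⟨PN.pol y b (S.K.Pc y n), kb⟩ ∈ S.LPG.cT (S.lp h)),
        (⟨_, ca⟩ : ↥(S.LPG.cT (S.lp h))) ∈ S.LPG.rQ (S.lp h) S.PLq ∧
        (⟨_, cb⟩ : ↥(S.LPG.cT (S.lp h))) ∈ S.LPG.rQ (S.lp h) S.PLq := by
  obtain ⟨a, a1, a2⟩ := S.js.cross y hy _ _ hu hp hu'
  obtain ⟨b, b1, b2⟩ := S.js.cross y hy _ _ hu.symm hu' hp
  have hab : a ≠ b := by
    rintro rfl
    obtain ⟨z, hz⟩ := S.js.ne a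
    exact bey_not (a2 hz) (b2 hz)
  obtain ⟨na, la, ca⟩ := hos y n a h a1 ⟨p, u, hp, hu', hu⟩
  obtain ⟨nb, lb, cb⟩ := hos y n b h b1 ⟨p, u, hp, hu', hu⟩
  obtain ⟨ka, ka1, ka2⟩ := pol_cT h a1 la ((GX.IJ.ar la).1 h) ca
  obtain ⟨kb, kb1, kb2⟩ := pol_cT h b1 lb ((GX.IJ.ar lb).1 h) cb
  exact ⟨a, b, hab, a1, b1, ka, kb, ka1, kb1, ka2, kb2⟩

/-- an element which fixes the vertex, the piece and the pole fixes the private pole -/
theorem pole_fix {y n : V} {a : V} {k : S.K.PV (PN.pol y a (S.K.Pc y n))}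
    {g : H} (hy : g • y = y) (hn : S.K.IJ y n (g • n)) (ha : g • a = a) :
    g • S.K.pc.ct S.AJ ⟨PN.pol y a (S.K.Pc y n), k⟩ = S.K.pc.ct S.AJ ⟨PN.pol y a (S.K.Pc y n), k⟩ := by
  rw [← S.K.pc.ct_smul]
  congr 1
  apply Subtype.ext
  show g • PN.pol y a (S.K.Pc y n) = PN.pol y a (S.K.Pc y n)
  rw [PN.smul_pol, GX.Pc_smul, hy, ha]
  congr 1
  exact (GX.Pc_eq.2 hn).symm

/-- an element which fixes the private pole fixes the pole -/
theorem pole_fix' {y n : V} {a : V} {k : S.K.PV (PN.pol y a (S.K.Pc y n))} {g : H}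
    (h : g • S.K.pc.ct S.AJ ⟨PN.pol y a (S.K.Pc y n), k⟩ =
      S.K.pc.ct S.AJ ⟨PN.pol y a (S.K.Pc y n), k⟩) : g • a = a := by
  rw [← S.K.pc.ct_smul] at h
  have h2 := ct_pole (S := S) (S.K.mem_PO rfl) h
  have h3 : g • PN.pol y a (S.K.Pc y n) = PN.pol y a (S.K.Pc y n) := congrArg Subtype.val h2
  rw [PN.smul_pol] at h3
  exact (PN.pol.inj h3).2.1

section soft

variable {y n : V} (hc : S.Conn) {e : S.LPG.fg.N → ℕ} (E : S.EX e) (E' : S.EM e) (hos : S.OS)
  (h : S.K.ar n y) (hl : S.K.LC y) {p u : S.X} (hp : p ∈ S.J y) (hu : S.D.G.Adj p u)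
  (hu' : u ∈ S.J y) (hy : ∃ a, S.K.ar y a) [Fintype (S.LPG.comp (S.lp h)).fg.N]
  (h0 : (S.LPG.comp (S.lp h)).fg.exc (S.LPG.rs (S.lp h) S.PL) =
    (S.LPG.comp (S.lp h)).fg.aftE (S.LPG.rs (S.lp h) S.PL) (S.LPG.re (S.lp h) e))

include hc E E' hos h hl hp hu hu' hy h0

/-- PIECES OF CROSSING SOFTS, `P_4` -/
theorem soft4 {φ : H2m H} (hk : ∀ m p g, S.K.ar m y → S.K.IJ y n m → p ∈ S.J y → p ∈ S.J m →
    S.LGr p y m g → φ (Additive.ofMul g) = 0) {g : H} (hg : g • y = y) (hgn : S.K.IJ y n (g • n)) :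
    φ (Additive.ofMul g) = 0 := by
  have hC := softC hc E E' h hy hl
  obtain ⟨k1, -⟩ := soft_eq hc E E' hos h hl hp hu hu' hy h0
  refine (S.LPG.comp (S.lp h)).kill0_dn hC.ne hC.dconn k1 (f := fun a => φ (Additive.ofMul a.1))
    (fun a b => resf_mul φ a b) ?_ ⟨g, (mem_lp_grp h).2 ⟨hg, hgn⟩⟩
  intro x hx a ha
  obtain ⟨m, k, hj, e1⟩ := inn_node h x hx
  obtain ⟨q, hq, hq'⟩ := lp_ex k
  exact hk m q a.1 k hj hq hq' (stab_node x ha k e1 hq hq')

/-- PIECES OF CROSSING SOFTS, `P_5` -/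
theorem soft5 {φ : H2m H} (hk : ∀ m p g, S.K.ar m y → S.K.IJ y n m → p ∈ S.J y → p ∈ S.J m →
    S.LGr p y m g → (∀ b, S.K.ar y b → g • b = b) → φ (Additive.ofMul g) = 0) {g : H}
    (hg : g • y = y) (hgn : S.K.IJ y n (g • n)) (hgp : ∀ b, S.K.ar y b → g • b = b) :
    φ (Additive.ofMul g) = 0 := by
  have hC := softC hc E E' h hy hl
  obtain ⟨k1, -⟩ := soft_eq hc E E' hos h hl hp hu hu' hy h0
  obtain ⟨a, b, hab, ha, hb, ka, kb, ca, cb, pa, pb⟩ := gq_two_poles hos h hp hu hu' hy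
  -- an element which fixes the vertex and `a` fixes all poles
  have hall : ∀ g : H, g • y = y → g • a = a → ∀ c, S.K.ar y c → g • c = c := by
    intro g gy ga c hc'
    have gb : g • b = b := by
      have h1 : S.K.ar y (g • b) := by
        have := S.K.ar_smul g _ _ hb
        rwa [gy] at this
      rcases S.K.two y a b _ ha hb h1 with k | k | k
      · exact absurd k hab
      · exact k.symm
      · exact absurd (smul_left_cancel g (ga.trans k)) hab
    rcases S.K.two y a b c ha hb hc' with k | k | k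
    · exact absurd k hab
    · rw [← k]; exact gb
    · rw [← k]; exact ga
  have hga : g ∈ S.LPG.grp (S.lp h) := (mem_lp_grp h).2 ⟨hg, hgn⟩
  have hne : (⟨_, ca⟩ : ↥(S.LPG.cT (S.lp h))) ≠ ⟨_, cb⟩ := by
    intro e
    have h1 := congrArg Subtype.val e
    have h2 := ct_pole (S := S) (S.K.mem_PO rfl) h1
    exact hab (PN.pol.inj (congrArg Subtype.val h2)).2.1
  -- stabilisers of the nodes
  have hkk : ∀ x : ↥(S.LPG.cT (S.lp h)), x ∉ S.LPG.rQ (S.lp h) S.PLq →
      ∀ k ∈ stabilizer ↥(S.LPG.grp (S.lp h)) x, k.1 • a = a → φ (Additive.ofMul k.1) = 0 := by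
    intro x hx k hk1 hk2
    obtain ⟨m, hm, hj, e1⟩ := inn_node h x hx
    obtain ⟨q, hq, hq'⟩ := lp_ex hm
    have h3 := stab_node x hk1 hm e1 hq hq'
    exact hk m q k.1 hm hj hq hq' h3 (hall _ h3.1 hk2)
  have hfix : ∀ k : ↥(S.LPG.grp (S.lp h)), k • (⟨_, ca⟩ : ↥(S.LPG.cT (S.lp h))) = ⟨_, ca⟩ ↔
      k.1 • a = a := by
    intro k
    obtain ⟨k2, k3⟩ := (mem_lp_grp h).1 k.2
    constructor
    · intro k1
      exact pole_fix' (k := ka) (congrArg Subtype.val k1)
    · intro k1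
      exact Subtype.ext (pole_fix (k := ka) k2 k3 k1)
  by_cases hj : ∃ j : ↥(S.LPG.grp (S.lp h)), (⟨_, cb⟩ : ↥(S.LPG.cT (S.lp h))) =
      j • (⟨_, ca⟩ : ↥(S.LPG.cT (S.lp h)))
  · -- a self piece
    obtain ⟨j, hj⟩ := hj
    have h0' := h0
    rw [rs_PL] at h0'
    obtain ⟨-, l2, -⟩ := (hC.self pa pb hne hj).2 h0'.ge
    have h2 : ∀ x ∈ S.LPG.rQ (S.lp h) S.PLq, x = ⟨_, ca⟩ ∨ x = ⟨_, cb⟩ := fun x hx => by
      rcases hC.two x _ _ hx pa pb with k | k | k
      · exact Or.inl k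
      · exact absurd k hne
      · exact Or.inr k
    have hsg : ∀ k : ↥(S.LPG.grp (S.lp h)), JM.sgn pa pb h2 hne k = 1 ↔ k.1 • a = a := by
      intro k
      rw [← hfix k]
      constructor
      · intro k1
        by_contra k2
        have k3 := (JM.sgn_neg pa pb h2 hne).2 k2
        rw [k1] at k3
        exact absurd k3 (by decide)
      · intro k1
        rcases Int.units_eq_one_or (JM.sgn pa pb h2 hne k) with k2 | k2
        · exact k2
        · exact absurd k1 ((JM.sgn_neg pa pb h2 hne).1 k2)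
    refine (S.LPG.comp (S.lp h)).killS_dn (JM.sgn pa pb h2 hne)
      ⟨j, (JM.sgn_neg pa pb h2 hne).2 (by rw [← hj]; exact hne.symm)⟩ hC.ne hC.dconn (H := ∅)
      (Set.empty_subset _) (fun x hx => hx.elim) ?_ (f := fun a => φ (Additive.ofMul a.1))
      (fun a b => resf_mul φ a b) ?_ (g := ⟨g, hga⟩) ((hsg _).2 (hgp a ha))
    · rw [Set.union_empty, l2, k1]
      have hc0 : Nat.card ↥(∅ : Set (S.LPG.comp (S.lp h)).fg.N) = 0 := Nat.card_of_isEmpty
      rw [hc0]
      norm_num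
    · intro x hx k hk1 hk2
      exact hkk x hx k hk1 ((hsg k).1 hk2)
  · -- the group of the piece fixes the poles
    have hfa : ∀ k : ↥(S.LPG.grp (S.lp h)), k.1 • a = a := by
      intro k
      rw [← hfix k]
      by_contra k1
      apply hj
      have k2 := (S.LPG.rQ (S.lp h) S.PLq).smul_mem k pa
      rcases hC.two (k • _) _ _ k2 pa pb with k3 | k3 | k3
      · exact absurd k3 k1
      · exact absurd k3 hne
      · exact ⟨k, k3.symm⟩
    refine (S.LPG.comp (S.lp h)).kill0_dn hC.ne hC.dconn k1 (f := fun a => φ (Additive.ofMul a.1))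
      (fun a b => resf_mul φ a b) ?_ ⟨g, hga⟩
    intro x hx k hk1
    exact hkk x hx k hk1 (hfa k)

end soft

/-! ### all vertices which cross an edge -/

variable (S) in
/-- the equality case of the exc-law -/
def Tight (e : S.LPG.fg.N → ℕ) : Prop := ∀ y n (h : S.K.ar n y)
  [Fintype (S.LPG.comp (S.lp h)).fg.N],
    (S.LPG.comp (S.lp h)).fg.exc (S.LPG.rs (S.lp h) S.PL) =
      (S.LPG.comp (S.lp h)).fg.aftE (S.LPG.rs (S.lp h) S.PL) (S.LPG.re (S.lp h) e)

variable (S) in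
/-- the vertex crosses an edge -/
def Crs (y : V) : Prop := ∃ p u, p ∈ S.J y ∧ u ∈ S.J y ∧ S.D.G.Adj p u

theorem not_crs_pt {y : V} {q : S.X} (hq : S.J y = {q}) : ¬ S.Crs y := by
  rintro ⟨p, u, hp, hu, ha⟩
  rw [hq] at hp hu
  rw [Set.mem_singleton_iff.1 hp, Set.mem_singleton_iff.1 hu] at ha
  exact ha.ne rfl

/-- what is used: numbers of pole ends, the types of the sinks, the equality case -/
structure GenH (e : S.LPG.fg.N → ℕ) : Prop where
  conn : S.Conn
  E : S.EX e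
  E' : S.EM e
  os : S.OS
  sk : S.SinkH
  lc : ∀ y, (∃ a, S.K.ar y a) → S.K.LC y
  ti : S.Tight e

variable {e : S.LPG.fg.N → ℕ} {φ : H2m H}

/-- LEMMA S, `P_4` -/
theorem gen4 (hG : S.GenH e) (hk : ∀ y m p g, S.Crs y → S.K.ar m y → S.K.EC m y → p ∈ S.J y →
    p ∈ S.J m → S.LGr p y m g → φ (Additive.ofMul g) = 0) :
    (∀ y, S.Crs y → S.K.Snk y → S.K.VC y → ∀ g : H, g • y = y →
      (Zt ↥(stabilizer H y) → Infinite ↥(stabilizer H y) → ¬ IO g) → φ (Additive.ofMul g) = 0) ∧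
    ∀ y n g, S.Crs y → S.K.PG y n g → φ (Additive.ofMul g) = 0 := by
  constructor
  · intro y hcr hs hv g hg hz
    obtain ⟨n, hn⟩ := hv
    have h : S.K.ar n y := by
      rcases hn.E with k | k
      · exact absurd k (hs _)
      · exact k
    have hl := hG.sk.lc y hs
    have hF : Fintype (S.LPG.comp (S.lp h)).fg.N := Fintype.ofFinite _
    have hec : ∀ m, S.K.ar m y → S.K.EC m y := fun m hm =>
      (ij_EC (sink_IJ hs hl h hm)).1 hn.symm
    have key := hG.ti y n h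
    rcases hG.sk.ty y hs with ⟨q, hq⟩ | ⟨h1, h2, h3 | ⟨h3, h4⟩⟩
    · exact absurd hcr (not_crs_pt hq)
    · obtain ⟨k1, -, -⟩ := sink_D (P := S.PL) (fun _ _ k => lp_PL k) hG.E hs hl h h1 h2 h3
      exact sinkD4 (P := S.PL) hs hl h h1 h2 (fun _ _ k => lp_PL k) hG.E h3
        (key.symm.trans k1).le (fun m p g hm hp hp' hgg => hk y m p g hcr hm (hec m hm) hp hp' hgg) hg
    · obtain ⟨k1, -, -⟩ := sink_Z (P := S.PL) (fun _ _ k => lp_PL k) hG.E hs hl h h1 h3 h4
      exact sinkZ (P := S.PL) hs hl h h1 (fun _ _ k => lp_PL k) hG.E h3 h4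
        (key.symm.trans k1).le (fun m p g hm hp hp' hgg => hk y m p g hcr hm (hec m hm) hp hp' hgg)
        ((ny_zt h4 h3).2 ⟨hg, hz h4 h3⟩)
  · rintro y n g hcr ⟨hy, h, hec, hg, hgn⟩
    obtain ⟨p, u, hp, hu, ha⟩ := hcr
    have hF : Fintype (S.LPG.comp (S.lp h)).fg.N := Fintype.ofFinite _
    exact soft4 hG.conn hG.E hG.E' hG.os h (hG.lc y hy) hp ha hu hy (hG.ti y n h)
      (fun m p' g hm hj hp' hm' hgg => hk y m p' g ⟨p, u, hp, hu, ha⟩ hm ((ij_EC hj).1 hec) hp' hm'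
        hgg) hg hgn

/-- LEMMA S, `P_5` -/
theorem gen5 (hG : S.GenH e)
    (hk : ∀ y m p g, S.Crs y → S.K.ar m y → S.K.EC m y → p ∈ S.J y → p ∈ S.J m →
      S.LGr p y m g → (S.K.Snk y → NY y g) → (∀ b, S.K.ar y b → g • b = b) →
      φ (Additive.ofMul g) = 0) :
    (∀ y, S.Crs y → S.K.Snk y → S.K.VC y → ∀ g : H, NY y g → φ (Additive.ofMul g) = 0) ∧
    ∀ y n g, S.Crs y → S.K.PG y n g → (∀ b, S.K.ar y b → g • b = b) →
      φ (Additive.ofMul g) = 0 := by
  constructor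
  · intro y hcr hs hv g hg
    obtain ⟨n, hn⟩ := hv
    have h : S.K.ar n y := by
      rcases hn.E with k | k
      · exact absurd k (hs _)
      · exact k
    have hl := hG.sk.lc y hs
    have hF : Fintype (S.LPG.comp (S.lp h)).fg.N := Fintype.ofFinite _
    have hec : ∀ m, S.K.ar m y → S.K.EC m y := fun m hm =>
      (ij_EC (sink_IJ hs hl h hm)).1 hn.symm
    have key := hG.ti y n h
    rcases hG.sk.ty y hs with ⟨q, hq⟩ | ⟨h1, h2, h3 | ⟨h3, h4⟩⟩
    · exact absurd hcr (not_crs_pt hq)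
    · obtain ⟨k1, -, -⟩ := sink_D (P := S.PL) (fun _ _ k => lp_PL k) hG.E hs hl h h1 h2 h3
      exact sinkD5 (P := S.PL) hs hl h h1 h2 (fun _ _ k => lp_PL k) hG.E h3
        (key.symm.trans k1).le (fun m p g hm hp hp' hgg hN => hk y m p g hcr hm (hec m hm) hp hp'
          hgg (fun _ => hN) (fun b hb => absurd hb (hs b))) hg
    · obtain ⟨k1, -, -⟩ := sink_Z (P := S.PL) (fun _ _ k => lp_PL k) hG.E hs hl h h1 h3 h4
      refine sinkZ (P := S.PL) hs hl h h1 (fun _ _ k => lp_PL k) hG.E h3 h4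
        (key.symm.trans k1).le (fun m p g hm hp hp' hgg => hk y m p g hcr hm (hec m hm) hp hp'
          hgg (fun _ => ?_) (fun b hb => absurd hb (hs b))) hg
      -- the groups of the local pieces are finite
      refine (ny_zt h4 h3).2 ⟨hgg.1, ?_⟩
      have hfin : Finite ↥(stabilizer H (S.lp hm)) := by
        refine finite_of_hyp S.D.tact (S.K.stab y) h1 ?_ (w := p) ?_
        · intro b hb
          exact (lp_fix hm hb hp hp').1
        · intro b hb
          exact (lp_fix hm hb hp hp').2.1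
      have hmem : g • S.lp hm = S.lp hm := by
        have h5 : S.K.ar (g • m) y := by
          have := S.K.ar_smul g _ _ hm
          rwa [hgg.1] at this
        have h6 := (lp_iff hm h5 hp hp').2 hgg.2.2
        rw [lp_smul, h6]
        have key : ∀ z (k : S.K.ar (g • m) z), z = y → S.lp k = S.lp h5 := by
          rintro z k rfl
          rfl
        exact key _ _ hgg.1
      intro hio
      exact SAG.not_IO_finite (⟨g, hmem⟩ : ↥(stabilizer H (S.lp hm))) (io_coe.1 hio)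
  · rintro y n g hcr ⟨hy, h, hec, hg, hgn⟩ hgp
    obtain ⟨p, u, hp, hu, ha⟩ := hcr
    have hF : Fintype (S.LPG.comp (S.lp h)).fg.N := Fintype.ofFinite _
    exact soft5 hG.conn hG.E hG.E' hG.os h (hG.lc y hy) hp ha hu hy (hG.ti y n h)
      (fun m p' g hm hj hp' hm' hgg hb => hk y m p' g ⟨p, u, hp, hu, ha⟩ hm ((ij_EC hj).1 hec) hp'
        hm' hgg (fun hs => by
          obtain ⟨b, hb'⟩ := hy
          exact absurd hb' (hs b)) hb) hg hgn hgp

end SyQ

end Pool.Agent.DI
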