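import Pool.Agent.DI.GenQs

/-!
# DI/GenT: Lemma S for any connected graph on the local pieces

`S.Tr0 h`: there is a connected graph without cycles on the local pieces of the component of `h` (for
instance the component itself in the equality case of the exc-law, or the component without duplicate
lines). `S.TrP h`: the same outside the private poles. `S.Gen4`: `Tr0` at the crossing sinks of type
`D_inf`, `TrP` at the pieces of the crossing vertices which are not sinks. `Gen4.kill`: a character which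
kills the groups of the local pieces kills the stabilisers of these sinks and the groups of these pieces.
-/

namespace Pool.Agent.DI

open MulAction
open Pool.Agent.SAF (InC orbs FinOrb oc Decomp SAn SA Conv hull dist_edge FinOrb_iff exists_next TAct)
open Pool.Agent.SAG (IO Zt)
open Pool.Agent.BT (PX PQ JS bey exits mst Hyp finite_of_hyp)
open Pool.Agent.BT.TA

namespace SyQ

variable {H V : Type} [Group H] [MulAction H V] {S : SyQ H V}

/-- a connected graph without cycles on the local pieces of a component -/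
def Tr0 (S : SyQ H V) {y n : V} (h : S.K.ar n y) : Prop :=
  ∃ (Ed : Type) (_ : MulAction ↥(S.LPG.grp (S.lp h)) Ed)
    (M : JM ↥(S.LPG.grp (S.lp h)) ↥(S.LPG.cT (S.lp h)) Ed),
    (∀ x z, Relation.EqvGen M.st x z) ∧ M.fg.b1 = 0

/-- the same outside the private poles -/
def TrP (S : SyQ H V) {y n : V} (h : S.K.ar n y) : Prop :=
  ∃ (Ed : Type) (_ : MulAction ↥(S.LPG.grp (S.lp h)) Ed)
    (M : JM ↥(S.LPG.grp (S.lp h)) ↥(S.LPG.cT (S.lp h)) Ed),
    (∀ x z : ↥(JM.cpl (S.LPG.rQ (S.lp h) S.PLq)),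
      Relation.EqvGen (M.dn (S.LPG.rQ (S.lp h) S.PLq)).st x z) ∧
    (M.dn (S.LPG.rQ (S.lp h) S.PLq)).fg.b1 = 0

/-- sinks -/
theorem Tr0.kill {y n : V} {h : S.K.ar n y} (t : S.Tr0 h) (hs : ∀ a, ¬ S.K.ar y a)
    (hl : S.K.LC y) {φ : H2m H}
    (hk : ∀ m p g, S.K.ar m y → p ∈ S.J y → p ∈ S.J m → S.LGr p y m g → φ (Additive.ofMul g) = 0)
    {g : H} (hg : g • y = y) : φ (Additive.ofMul g) = 0 := by
  obtain ⟨Ed, act, M, hM, hb⟩ := t
  have hA := sink_grp hs hl h
  have hne : Nonempty ↥(S.LPG.cT (S.lp h)) := ⟨⟨S.lp h, Relation.EqvGen.refl _⟩⟩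
  have hg' : g ∈ S.LPG.grp (S.lp h) := by rw [hA]; exact hg
  refine M.kill0 hne hM hb (f := fun a => φ (Additive.ofMul a.1)) (fun a b => resf_mul φ a b) ?_
    ⟨g, hg'⟩
  intro Q a ha2
  obtain ⟨m, k, e1, -⟩ := sink_node hs h Q
  obtain ⟨p, hp, hm⟩ := lp_ex k
  exact hk m p a.1 k hp hm (stab_node Q ha2 k e1 hp hm)

/-- pieces -/
theorem TrP.kill {y n : V} {h : S.K.ar n y} (t : S.TrP h) {φ : H2m H}
    (hk : ∀ m p g, S.K.ar m y → S.K.IJ y n m → p ∈ S.J y → p ∈ S.J m → S.LGr p y m g →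
      φ (Additive.ofMul g) = 0) {g : H} (hg : g • y = y) (hgn : S.K.IJ y n (g • n)) :
    φ (Additive.ofMul g) = 0 := by
  obtain ⟨Ed, act, M, hM, hb⟩ := t
  refine M.kill0_dn (Pl := S.LPG.rQ (S.lp h) S.PLq) ⟨_, lp_rQ h h (Relation.EqvGen.refl _)⟩ hM hb
    (f := fun a => φ (Additive.ofMul a.1)) (fun a b => resf_mul φ a b) ?_
    ⟨g, (mem_lp_grp h).2 ⟨hg, hgn⟩⟩
  intro x hx a ha
  obtain ⟨m, k, hj, e1⟩ := inn_node h x hx
  obtain ⟨q, hq, hq'⟩ := lp_ex k
  exact hk m q a.1 k hj hq hq' (stab_node x ha k e1 hq hq')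

variable (S) in
/-- what is used at the crossing vertices -/
structure Gen4 : Prop where
  sk : S.SinkH
  d : ∀ y n (h : S.K.ar n y), (∀ a, ¬ S.K.ar y a) → Hyp S.X (stabilizer H y) →
    S.J y = mst S.D.G (stabilizer H y) → DT (stabilizer H y) → S.Tr0 h
  s : ∀ y n (h : S.K.ar n y), (∃ a, S.K.ar y a) → S.Crs y → S.TrP h

/-- THE LEMMA -/
theorem Gen4.kill (hG : S.Gen4) {φ : H2m H}
    (hk : ∀ y m p g, S.Crs y → S.K.ar m y → S.K.EC m y → p ∈ S.J y →
      p ∈ S.J m → S.LGr p y m g → φ (Additive.ofMul g) = 0) :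
    (∀ y, S.Crs y → S.K.Snk y → S.K.VC y → ¬ Zt ↥(stabilizer H y) → ∀ g : H, g • y = y →
      φ (Additive.ofMul g) = 0) ∧
    ∀ y n g, S.Crs y → S.K.PG y n g → φ (Additive.ofMul g) = 0 := by
  constructor
  · intro y hcr hs hv hz g hg
    obtain ⟨n, hn⟩ := hv
    have h : S.K.ar n y := by
      rcases hn.E with k | k
      · exact absurd k (hs _)
      · exact k
    have hl := hG.sk.lc y hs
    have hec : ∀ m, S.K.ar m y → S.K.EC m y := fun m hm =>
      (ij_EC (sink_IJ hs hl h hm)).1 hn.symm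
    rcases hG.sk.ty y hs with ⟨q, hq⟩ | ⟨h1, h2, h3 | ⟨h3, h4⟩⟩
    · exact absurd hcr (not_crs_pt hq)
    · exact (hG.d y n h hs h1 h2 h3).kill hs hl
        (fun m p g hm hp hp' hgg => hk y m p g hcr hm (hec m hm) hp hp' hgg) hg
    · exact absurd h4 hz
  · rintro y n g hcr ⟨hy, h, hec, hg, hgn⟩
    exact (hG.s y n h hy hcr).kill
      (fun m p g hm hj hp hp' hgg => hk y m p g hcr hm ((ij_EC hj).1 hec) hp hp' hgg) hg hgn

/-- from the equality case of the exc-law without duplicate lines -/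
theorem GenH.gen4 {e : S.LPG.fg.N → ℕ} (hG : S.GenH e) : S.Gen4 where
  sk := hG.sk
  d y n h hs h1 h2 h3 := by
    have hl := hG.sk.lc y hs
    have hF : Fintype (S.LPG.comp (S.lp h)).fg.N := Fintype.ofFinite _
    obtain ⟨k1, -, k3⟩ := sink_D (P := S.PL) (fun _ _ k => lp_PL k) hG.E hs hl h h1 h2 h3
    exact ⟨_, _, S.LPG.comp (S.lp h), S.LPG.comp_conn _, (k3 ((hG.ti y n h).symm.trans k1)).1⟩
  s y n h hy hcr := by
    obtain ⟨p, u, hp, hu, ha⟩ := hcr
    have hF : Fintype (S.LPG.comp (S.lp h)).fg.N := Fintype.ofFinite _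
    exact ⟨_, _, S.LPG.comp (S.lp h), (softC hG.conn hG.E hG.E' h hy (hG.lc y hy)).dconn,
      (soft_eq hG.conn hG.E hG.E' hG.os h (hG.lc y hy) hp ha hu hy (hG.ti y n h)).1⟩

end SyQ

end Pool.Agent.DI
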