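import Pool.Agent.DI.QKF
import Pool.Agent.DI.Pot0

/-!
# DI/VDZ: sinks of D-type and of Z-type in the folded slice

`S : SyQ H V`, `hc : S.Conn`, any rule `O` for open stars. A sink of `S.kf hc w O` is the class of a
`t_u` or a single sink `x` of `K` with `J x = {w}` (`snk_kf`).

* `vd_le`: if no edge at `w` has a D-type stabiliser, the number of D-sinks does not rise.
* `vd_lt`: it drops if a D-sink of `K` has no translate `x` with `J x = {w}` (broken, or lost).
* `vz_lt`: if all Z-sinks have a translate `x` with `J x = {w}` and an edge at `w` has an infinite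
  stabiliser of Z-type, the number of Z-sinks rises.
-/

namespace Pool.Agent.DI

open MulAction
open Pool.Agent.SAF (InC orbs FinOrb oc Decomp SAn SA Conv hull dist_edge FinOrb_iff exists_next
  oc_le_of_inj oc_lt_of_inj)
open Pool.Agent.SAG (Zt)
open Pool.Agent.BT (bey)
open Pool.Agent.BT.TA

namespace SyQ

variable {H V : Type} [Group H] [MulAction H V] {S : SyQ H V}

/-! ### sinks with one place -/

variable (S) in
/-- a sink of `K` which sits at `w` -/
def Sat (w : S.X) (x : V) : Prop := S.K.Snk x ∧ S.J x = {w}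

theorem Sat.mem {w : S.X} {x : V} (h : S.Sat w x) : w ∈ S.J x := by
  rw [h.2]
  exact rfl

theorem Sat.ncr {w u : S.X} {x : V} (h : S.Sat w x) (hu : S.D.G.Adj w u) : u ∉ S.J x := by
  rw [h.2]
  intro e
  exact hu.ne (Set.mem_singleton_iff.1 e).symm

theorem Sat.stab {w : S.X} {x : V} (h : S.Sat w x) {g : H} (hg : g • x = x) : g • w = w := by
  have h1 : g • w ∈ S.J (g • x) := S.js.smul g x w h.mem
  rw [hg, h.2] at h1
  exact h1

theorem Sat.eqv {w : S.X} {x x' : V} (h : S.Sat w x) (h' : S.Sat w x') {g : H}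
    (e : g • x = x') : g • w = w := by
  have h1 : g • w ∈ S.J (g • x) := S.js.smul g x w h.mem
  rw [e, h'.2] at h1
  exact h1

theorem Sat.not_fr {w : S.X} {O : S.OR w} {x : V} (h : S.Sat w x) {a b : S.SV w}
    (k : S.FR w O a b) : a ≠ Sum.inl ⟨x, h.mem⟩ ∧ b ≠ Sum.inl ⟨x, h.mem⟩ := by
  cases k with
  | mer u q y y' h1 h2 h3 =>
    constructor
    · intro e
      have e1 : y.1 = x := congrArg Subtype.val (Sum.inl.inj e)
      have := h1.l.2
      rw [e1] at this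
      exact h.ncr h1.adj this
    · intro e
      have e1 : y'.1 = x := congrArg Subtype.val (Sum.inl.inj e)
      have := h1.r.2
      rw [e1] at this
      exact h.ncr h1.adj this
  | par u q y y' h1 h2 h3 h4 =>
    constructor
    · intro e
      have e1 : y.1 = x := congrArg Subtype.val (Sum.inl.inj e)
      have := h1.l.2
      rw [e1] at this
      exact h.ncr h1.adj this
    · intro e
      have e1 : y'.1 = x := congrArg Subtype.val (Sum.inl.inj e)
      have := h1.r.2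
      rw [e1] at this
      exact h.ncr h1.adj this
  | dia q u h1 h2 =>
    constructor
    · intro e
      have e1 : q.1 = x := congrArg Subtype.val (Sum.inl.inj e)
      obtain ⟨-, a, b, hne, ha, hb, hg⟩ := h1.1
      rw [e1] at ha
      exact h.1 a ha
    · intro e
      cases e

theorem Sat.cls {w : S.X} {O : S.OR w} {x : V} (h : S.Sat w x) {b : S.SV w}
    (e : S.fq w O b = S.fq w O (Sum.inl ⟨x, h.mem⟩)) : b = Sum.inl ⟨x, h.mem⟩ := by
  have k := fq_eq.1 e
  have key : ∀ a b, Relation.EqvGen (S.FR w O) a b →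
      (a = Sum.inl ⟨x, h.mem⟩ ↔ b = Sum.inl ⟨x, h.mem⟩) := by
    intro a b k
    induction k with
    | rel a b k => exact ⟨fun e => absurd e (h.not_fr k).1, fun e => absurd e (h.not_fr k).2⟩
    | refl a => exact Iff.rfl
    | symm a b _ ih => exact ih.symm
    | trans a b c _ _ i1 i2 => exact i1.trans i2
  exact (key _ _ k).2 rfl

/-- it is a sink of the folded slice -/
theorem Sat.snk {w : S.X} {O : S.OR w} {x : V} (h : S.Sat w x) (hc : S.Conn) :
    (S.kf hc w O).Snk (S.fq w O (Sum.inl ⟨x, h.mem⟩)) := by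
  intro d hd
  rw [kf_ar, arQ_fq] at hd
  obtain ⟨h1, y, e, hd⟩ := hd
  have e1 : x = y.1 := congrArg Subtype.val (Sum.inl.inj e)
  rw [← e1] at hd
  have ht : ∀ z, ¬ S.Dn w O x z := by
    rintro z ⟨u, s, hu, hcs, hk, -⟩
    exact h.1 s hk
  have et : S.tm w O x = x := (Tm_tm w O x).eq_of_term ht
  rw [et] at hd
  obtain ⟨c, k, -⟩ := hd
  rw [S.rho_near h.mem] at k
  cases k with
  | hor a b k => exact h.1 _ k
  | up a u k => exact h.ncr u.2 k

/-- the stabilisers agree -/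
noncomputable def Sat.iso {w : S.X} {O : S.OR w} {x : V} (h : S.Sat w x) :
    ↥(stabilizer H x) ≃* ↥(stabilizer ↥(stabilizer H w) (S.fq w O (Sum.inl ⟨x, h.mem⟩))) where
  toFun g := ⟨⟨g.1, h.stab g.2⟩, by
    show (⟨g.1, h.stab g.2⟩ : ↥(stabilizer H w)) • S.fq w O (Sum.inl ⟨x, h.mem⟩) =
      S.fq w O (Sum.inl ⟨x, h.mem⟩)
    rw [← fq_smul]
    refine congrArg (S.fq w O) (congrArg Sum.inl (Subtype.ext ?_))
    exact g.2⟩
  invFun g := ⟨g.1.1, by
    have h1 : g.1 • S.fq w O (Sum.inl ⟨x, h.mem⟩) = S.fq w O (Sum.inl ⟨x, h.mem⟩) := g.2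
    rw [← fq_smul] at h1
    exact congrArg Subtype.val (Sum.inl.inj (h.cls h1))⟩
  left_inv _ := rfl
  right_inv _ := rfl
  map_mul' _ _ := rfl

theorem vdz_t_stab {w : S.X} {O : S.OR w} (u : S.EV w) (k : ↥(stabilizer H w)) :
    k • S.fq w O (Sum.inr u) = S.fq w O (Sum.inr u) ↔ k.1 • u.1 = u.1 := by
  constructor
  · intro h
    rw [← fq_smul] at h
    exact congrArg Subtype.val (Sk.inr.1 (fq_inr.1 h))
  · intro h
    rw [← fq_smul]
    exact congrArg (S.fq w O) (congrArg Sum.inr (Subtype.ext h))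

/-- the stabiliser of `t_u` -/
noncomputable def vdzIso {w : S.X} (O : S.OR w) (u : S.EV w) :
    ↥(stabilizer H w ⊓ stabilizer H u.1) ≃*
      ↥(stabilizer ↥(stabilizer H w) (S.fq w O (Sum.inr u))) where
  toFun g := ⟨⟨g.1, g.2.1⟩, (vdz_t_stab u _).2 g.2.2⟩
  invFun g := ⟨g.1.1, g.1.2, (vdz_t_stab u _).1 g.2⟩
  left_inv _ := rfl
  right_inv _ := rfl
  map_mul' _ _ := rfl

theorem vdz_t_snk (hc : S.Conn) {w : S.X} (O : S.OR w) (u : S.EV w) :
    (S.kf hc w O).Snk (S.fq w O (Sum.inr u)) := by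
  intro d hd
  rw [kf_ar, arQ_fq, GN_sk (Sk.inr.2 rfl)] at hd
  exact hd

/-- THE SINKS OF THE FOLDED SLICE -/
theorem snk_kf (hc : S.Conn) {w : S.X} {O : S.OR w} {c : S.Q w O} (h : (S.kf hc w O).Snk c) :
    (∃ u, c = S.fq w O (Sum.inr u)) ∨
      ∃ x, ∃ hx : S.Sat w x, c = S.fq w O (Sum.inl ⟨x, hx.mem⟩) := by
  rcases sink_cases (S := S) (c := c) h with h1 | ⟨x, rfl, hx⟩
  · exact Or.inl h1
  · right
    have hk : S.fq w O (S.rho w x.1) = S.fq w O (Sum.inl x) := by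
      rw [S.rho_near x.2]
      rfl
    -- it crosses no edge
    have hn : ∀ u, S.D.G.Adj w u → u ∉ S.J x.1 := by
      intro u hu hux
      have := arQ_up (S := S) (w := w) (O := O) (x := x.1) hu ⟨x.2, hux⟩
      rw [hk] at this
      exact h _ this
    have hJ : S.J x.1 = {w} := by
      apply Set.Subset.antisymm
      · intro l hl
        by_contra hne
        have hne' : w ≠ l := fun e => hne e.symm
        obtain ⟨u, hu, e⟩ := exists_next S.D.tree hne'
        have hb : l ∈ bey S.D.G w u := by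
          show S.D.G.dist l w = S.D.G.dist l u + 1
          rw [SimpleGraph.dist_comm, e, SimpleGraph.dist_comm]
        exact hn u hu (conv_cr S.D.tree (S.js.conv x.1) hu x.2 hl (bey_self hu.symm) hb).2
      · rintro l rfl
        exact x.2
    have hsk : ∀ u, ¬ S.Sk w O u (Sum.inl x) := by
      intro u hu
      have h1 := fq_inr.2 hu
      have h2 := hx _ h1.symm
      cases h2
    have ht : ∀ y, ¬ S.Dn w O x.1 y := by
      rintro y ⟨u, s, hu, hcs, -⟩
      exact hn u hu hcs.2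
    have hs : S.K.Snk x.1 := by
      intro a ha
      obtain ⟨p, p0, p1⟩ := S.one_ex (x := x.1) (y := a) (Or.inl ha)
      rw [hJ] at p0
      have hp : p = w := p0
      rw [hp] at p1
      have := arQ_term (S := S) (O := O) x.2 hsk ht (sar_hor x.2 p1 ha)
      rw [hk] at this
      exact h _ this
    exact ⟨x.1, ⟨hs, hJ⟩, rfl⟩

/-! ### D-sinks -/

open Classical in
variable (S) in
/-- a vertex whose class is `c` -/
noncomputable def bk (w : S.X) (O : S.OR w) [Nonempty V] (c : S.Q w O) : V :=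
  if h : ∃ x, ∃ hx : S.Sat w x, c = S.fq w O (Sum.inl ⟨x, hx.mem⟩) then h.choose
  else Classical.arbitrary V

theorem bk_spec {w : S.X} {O : S.OR w} [Nonempty V] {c : S.Q w O}
    (h : ∃ x, ∃ hx : S.Sat w x, c = S.fq w O (Sum.inl ⟨x, hx.mem⟩)) :
    ∃ hx : S.Sat w (S.bk w O c), c = S.fq w O (Sum.inl ⟨S.bk w O c, hx.mem⟩) := by
  unfold bk
  rw [dif_pos h]
  exact h.choose_spec

/-- the hypothesis: no D-type edge at `w` -/
def NoDt (S : SyQ H V) (w : S.X) : Prop := ∀ u, S.D.G.Adj w u →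
  Infinite ↥(stabilizer H w ⊓ stabilizer H u) → Zt ↥(stabilizer H w ⊓ stabilizer H u)

theorem vd_spec (hc : S.Conn) {w : S.X} {O : S.OR w} (hz : S.NoDt w) {c : S.Q w O}
    (h : c ∈ (S.kf hc w O).sVD) :
    ∃ x, ∃ hx : S.Sat w x, c = S.fq w O (Sum.inl ⟨x, hx.mem⟩) := by
  obtain ⟨h1, h2, h3⟩ := h
  rcases snk_kf hc h1 with ⟨u, rfl⟩ | h4
  · exfalso
    have e := S.vdzIso O u
    have hi : Infinite ↥(stabilizer H w ⊓ stabilizer H u.1) := by
      have := h2
      exact Infinite.of_injective e.symm e.symm.injective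
    exact h3 (Pool.Agent.SAG.Zt.of_inj e.symm.toMonoidHom e.symm.injective (hz u.1 u.2 hi))
  · exact h4

theorem bk_vd (hc : S.Conn) {w : S.X} {O : S.OR w} [Nonempty V] (hz : S.NoDt w) {c : S.Q w O}
    (h : c ∈ (S.kf hc w O).sVD) : S.bk w O c ∈ S.K.sVD := by
  obtain ⟨hx, e⟩ := bk_spec (vd_spec hc hz h)
  obtain ⟨h1, h2, h3⟩ := h
  have hiso := hx.iso (O := O)
  rw [← e] at hiso
  refine ⟨hx.1, ?_, ?_⟩
  · exact Infinite.of_injective hiso.symm hiso.symm.injective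
  · intro k
    exact h3 (Pool.Agent.SAG.Zt.of_inj hiso.symm.toMonoidHom hiso.symm.injective k)

theorem bk_inj {w : S.X} {O : S.OR w} [Nonempty V] {c c' : S.Q w O}
    (h : ∃ x, ∃ hx : S.Sat w x, c = S.fq w O (Sum.inl ⟨x, hx.mem⟩))
    (h' : ∃ x, ∃ hx : S.Sat w x, c' = S.fq w O (Sum.inl ⟨x, hx.mem⟩))
    (hh : ∃ g : H, g • S.bk w O c = S.bk w O c') : ∃ k : ↥(stabilizer H w), k • c = c' := by
  obtain ⟨hx, e⟩ := bk_spec h
  obtain ⟨hx', e'⟩ := bk_spec h'
  obtain ⟨g, hg⟩ := hh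
  refine ⟨⟨g, hx.eqv hx' hg⟩, ?_⟩
  have h1 : (⟨g, hx.eqv hx' hg⟩ : ↥(stabilizer H w)) •
      S.fq w O (Sum.inl ⟨S.bk w O c, hx.mem⟩) = S.fq w O (Sum.inl ⟨S.bk w O c', hx'.mem⟩) := by
    rw [← fq_smul]
    exact congrArg (S.fq w O) (congrArg Sum.inl (Subtype.ext hg))
  rw [← e, ← e'] at h1
  exact h1

/-- THE NUMBER OF D-SINKS DOES NOT RISE -/
theorem vd_le (hc : S.Conn) {w : S.X} (O : S.OR w) (hz : S.NoDt w) :
    (S.kf hc w O).nVD ≤ S.K.nVD := by
  obtain ⟨v⟩ := S.K.ne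
  have : Nonempty V := ⟨v⟩
  refine oc_le_of_inj (S.K.fo _) (S.bk w O) (fun c h => bk_vd hc hz h) ?_
  intro a ha b hb h
  exact bk_inj (vd_spec hc hz ha) (vd_spec hc hz hb) h

/-- it drops if a D-sink does not sit at a translate of `w` -/
theorem vd_lt (hc : S.Conn) {w : S.X} (O : S.OR w) (hz : S.NoDt w) {z : V}
    (h1 : z ∈ S.K.sVD) (h2 : ∀ g : H, ¬ S.Sat w (g • z)) : (S.kf hc w O).nVD < S.K.nVD := by
  obtain ⟨v⟩ := S.K.ne
  have : Nonempty V := ⟨v⟩
  refine oc_lt_of_inj (S.K.fo _) (S.bk w O) (fun c h => bk_vd hc hz h) ?_ h1 ?_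
  · intro a ha b hb h
    exact bk_inj (vd_spec hc hz ha) (vd_spec hc hz hb) h
  · intro a ha g e
    obtain ⟨hx, -⟩ := bk_spec (vd_spec hc hz ha)
    refine h2 g⁻¹ ?_
    rw [← e, inv_smul_smul]
    exact hx

/-- equality: every D-sink sits at a translate of `w` -/
theorem vd_sat (hc : S.Conn) {w : S.X} (O : S.OR w) (hz : S.NoDt w)
    (h : S.K.nVD ≤ (S.kf hc w O).nVD) {z : V} (h1 : z ∈ S.K.sVD) : ∃ g : H, S.Sat w (g • z) := by
  by_contra hcon
  push Not at hcon
  exact absurd (vd_lt hc O hz h1 hcon) (not_lt.2 h)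

/-! ### Z-sinks -/

open Classical in
variable (S) in
/-- the map of the sinks with one place to the folded slice -/
noncomputable def fs (w : S.X) (O : S.OR w) (z : V) : S.Q w O :=
  S.fq w O (S.rho w ((if h : ∃ g : H, S.Sat w (g • z) then h.choose else 1) • z))

theorem fs_eq {w : S.X} (O : S.OR w) {z : V} (h : ∃ g : H, S.Sat w (g • z)) :
    ∃ g : H, ∃ hx : S.Sat w (g • z), S.fs w O z = S.fq w O (Sum.inl ⟨g • z, hx.mem⟩) := by
  refine ⟨h.choose, h.choose_spec, ?_⟩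
  unfold fs
  rw [dif_pos h, S.rho_near h.choose_spec.mem]

theorem fs_inj {w : S.X} (O : S.OR w) {z z' : V} (h : ∃ g : H, S.Sat w (g • z))
    (h' : ∃ g : H, S.Sat w (g • z')) (e : ∃ k : ↥(stabilizer H w), k • S.fs w O z = S.fs w O z') :
    ∃ g : H, g • z = z' := by
  obtain ⟨k, e⟩ := e
  obtain ⟨g, hx, h2⟩ := fs_eq O h
  obtain ⟨g', hx', h4⟩ := fs_eq O h'
  rw [h2, h4, ← fq_smul] at e
  have := congrArg Subtype.val (Sum.inl.inj (hx'.cls e))
  have e1 : k.1 • g • z = g' • z' := this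
  refine ⟨g'⁻¹ * (k.1 * g), ?_⟩
  rw [mul_smul, mul_smul, e1, inv_smul_smul]

theorem fs_miss {w : S.X} (O : S.OR w) {z : V} (h : ∃ g : H, S.Sat w (g • z))
    (k : ↥(stabilizer H w)) (u : S.EV w) : k • S.fs w O z ≠ S.fq w O (Sum.inr u) := by
  intro e
  obtain ⟨g, hx, h2⟩ := fs_eq O h
  have e1 : S.fs w O z = S.fq w O (Sum.inr (k⁻¹ • u)) := by
    have : k⁻¹ • (k • S.fs w O z) = k⁻¹ • S.fq w O (Sum.inr u) := congrArg _ e
    rwa [inv_smul_smul, ← fq_smul] at this
  rw [h2] at e1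
  have := hx.cls e1.symm
  cases this

theorem fs_vz (hc : S.Conn) {w : S.X} (O : S.OR w) {z : V} (h : ∃ g : H, S.Sat w (g • z))
    (hz : z ∈ S.K.sVZ) : S.fs w O z ∈ (S.kf hc w O).sVZ := by
  obtain ⟨g, hx, h2⟩ := fs_eq O h
  rw [h2]
  refine ⟨hx.snk hc, ?_, ?_⟩
  · have := (GX.inf_smul_iff g z).2 hz.2.1
    exact Infinite.of_injective (hx.iso (O := O)) (hx.iso (O := O)).injective
  · exact Pool.Agent.SAG.Zt.of_inj (hx.iso (O := O)).symm.toMonoidHom (hx.iso (O := O)).symm.injective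
      ((GX.zt_smul_iff g z).2 hz.2.2)

/-- THE NUMBER OF Z-SINKS RISES -/
theorem vz_lt (hc : S.Conn) {w : S.X} (O : S.OR w)
    (hs : ∀ z ∈ S.K.sVZ, ∃ g : H, S.Sat w (g • z)) {u : S.X} (hu : S.D.G.Adj w u)
    (hi : Infinite ↥(stabilizer H w ⊓ stabilizer H u))
    (hz : Zt ↥(stabilizer H w ⊓ stabilizer H u)) : S.K.nVZ < (S.kf hc w O).nVZ := by
  have e := S.vdzIso O (⟨u, hu⟩ : S.EV w)
  have hb : S.fq w O (Sum.inr ⟨u, hu⟩) ∈ (S.kf hc w O).sVZ := by
    refine ⟨vdz_t_snk hc O _, ?_, Pool.Agent.SAG.Zt.of_inj e.symm.toMonoidHom e.symm.injective hz⟩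
    exact Infinite.of_injective e e.injective
  refine oc_lt_of_inj ((S.kf hc w O).fo _) (S.fs w O) (fun z h => fs_vz hc O (hs z h) h) ?_ hb ?_
  · intro a ha b hb h
    exact fs_inj O (hs a ha) (hs b hb) h
  · intro a ha k
    exact fs_miss O (hs a ha) k _

/-- D-type edges: the number of D-sinks which sit at translates of `w` plus one -/
theorem vd_ge (hc : S.Conn) {w : S.X} (O : S.OR w) {s : Set V}
    (hs : ∀ z ∈ s, z ∈ S.K.sVD ∧ ∃ g : H, S.Sat w (g • z)) :
    oc H s ≤ (S.kf hc w O).nVD := by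
  refine oc_le_of_inj ((S.kf hc w O).fo _) (S.fs w O) ?_ ?_
  · intro z hz
    obtain ⟨h1, h⟩ := hs z hz
    obtain ⟨g, hx, h2⟩ := fs_eq O h
    rw [h2]
    refine ⟨hx.snk hc, ?_, ?_⟩
    · have := (GX.inf_smul_iff g z).2 h1.2.1
      exact Infinite.of_injective (hx.iso (O := O)) (hx.iso (O := O)).injective
    · intro k
      refine h1.2.2 ((GX.zt_smul_iff g z).1 ?_)
      exact Pool.Agent.SAG.Zt.of_inj (hx.iso (O := O)).toMonoidHom (hx.iso (O := O)).injective k
  · intro a ha b hb h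
    exact fs_inj O (hs a ha).2 (hs b hb).2 h

end SyQ

end Pool.Agent.DI
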