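import Pool.Agent.DI.Psv
import Pool.Agent.DI.VDZ
import Pool.Agent.DI.P5Def

/-!
# DI/Tail: the end of the descent

`S.Sy1.zt_all`: all edge groups have the same type. `tail`: at a wall of `D` type `p_4` or `p_5` drops; at a
wall of `Z` type `p_4`, `p_5`, `V_D` do not rise, then `phi_0` does not drop and rises if a Z-sink does not
sit at a translate of `w`, otherwise `V_Z` rises. The laws of `p_4`, `p_5`, `phi_0` are hypotheses here.
-/

namespace Pool.Agent.DI

open MulAction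
open Pool.Agent.SAF (InC SA orbs FinOrb oc Decomp)
open Pool.Agent.SAG (Zt)

/-- lexicographic decrease of finitely many natural numbers -/
def NatLex : List (ℕ × ℕ) → Prop
  | [] => False
  | (a, b) :: l => a < b ∨ (a = b ∧ NatLex l)

theorem NatLex.lt {a b : ℕ} {l : List (ℕ × ℕ)} (h : a < b) : NatLex ((a, b) :: l) := Or.inl h

theorem NatLex.cons {a b : ℕ} {l : List (ℕ × ℕ)} (h : a ≤ b) (h' : a = b → NatLex l) :
    NatLex ((a, b) :: l) := by
  rcases lt_or_eq_of_le h with k | k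
  · exact Or.inl k
  · exact Or.inr ⟨k, h' k⟩

namespace SyQ

variable {H V : Type} [Group H] [MulAction H V] {S : SyQ H V} {w : S.X}

/-- all edge groups have the type of the first one -/
theorem Sy1.zt_all (h : S.Sy1 w) {x y x' y' : S.X} (e : S.D.G.Adj x y) (e' : S.D.G.Adj x' y')
    (hz : Zt ↥(stabilizer H x ⊓ stabilizer H y)) : Zt ↥(stabilizer H x' ⊓ stabilizer H y') := by
  have key : ∀ (g : H) (a b : S.X), g • x = a → g • y = b →
      Zt ↥(stabilizer H a ⊓ stabilizer H b) := by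
    rintro g a b rfl rfl
    refine Pool.Agent.SAG.Zt.of_inj
      (({ toFun := fun a => ⟨g⁻¹ * a.1 * g, ?_⟩, map_one' := ?_, map_mul' := ?_ } :
        ↥(stabilizer H (g • x) ⊓ stabilizer H (g • y)) →*
          ↥(stabilizer H x ⊓ stabilizer H y))) ?_ hz
    · have h1 : a.1 • g • x = g • x := a.2.1
      have h2 : a.1 • g • y = g • y := a.2.2
      constructor
      · show (g⁻¹ * a.1 * g) • x = x
        rw [mul_smul, mul_smul, h1, inv_smul_smul]
      · show (g⁻¹ * a.1 * g) • y = y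
        rw [mul_smul, mul_smul, h2, inv_smul_smul]
    · apply Subtype.ext
      show g⁻¹ * 1 * g = 1
      group
    · intro a b
      apply Subtype.ext
      show g⁻¹ * (a.1 * b.1) * g = g⁻¹ * a.1 * g * (g⁻¹ * b.1 * g)
      group
    · intro a b e
      have e' : g⁻¹ * a.1 * g = g⁻¹ * b.1 * g := congrArg Subtype.val e
      exact Subtype.ext (mul_left_cancel (mul_right_cancel e'))
  obtain ⟨g, ⟨h1, h2⟩ | ⟨h1, h2⟩⟩ := h.one _ _ _ _ e e'
  · exact key g _ _ h1 h2
  · have := key g _ _ h1 h2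
    rw [inf_comm] at this
    exact this

/-- the wall is of `Z` type -/
def ZW (S : SyQ H V) (w : S.X) : Prop :=
  ∃ u, S.D.G.Adj w u ∧ Zt ↥(stabilizer H w ⊓ stabilizer H u)

theorem Sy1.noDt (h : S.Sy1 w) (hz : S.ZW w) : S.NoDt w := by
  obtain ⟨u, hu, hz⟩ := hz
  exact fun v hv _ => h.zt_all hu hv hz

variable {O : S.OR w}

/-- THE END OF THE DESCENT (`p_4`, `p_5`, `V_D`, `phi_0`, `V_Z`), from the laws -/
theorem Sy1.tail (h : S.Sy1 w) (O : S.OR w) {p4' p4 p5' p5 f' f : ℕ} (B : ℕ)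
    (hfB : f' ≤ B) (hzB : (S.kf h.gd.conn w O).nVZ ≤ B)
    (hD : ¬ S.ZW w → p4' < p4 ∨ (p4' ≤ p4 ∧ p5' < p5))
    (h4 : S.ZW w → p4' ≤ p4) (h5 : S.ZW w → p5' ≤ p5)
    (hf : S.ZW w → (∀ z ∈ S.K.sVD, ∃ g : H, S.Sat w (g • z)) → f ≤ f' ∧
      (f' = f → ∀ z ∈ S.K.sVZ, ∃ g : H, S.Sat w (g • z))) :
    NatLex [(p4', p4), (p5', p5), ((S.kf h.gd.conn w O).nVD, S.K.nVD), (B - f', B - f),
      (B - (S.kf h.gd.conn w O).nVZ, B - S.K.nVZ)] := by
  by_cases hz : S.ZW w
  · refine NatLex.cons (h4 hz) fun _ => NatLex.cons (h5 hz) fun _ =>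
      NatLex.cons (vd_le h.gd.conn O (h.noDt hz)) fun hvd => ?_
    have hsat : ∀ z ∈ S.K.sVD, ∃ g : H, S.Sat w (g • z) := fun z k =>
      vd_sat h.gd.conn O (h.noDt hz) hvd.ge k
    obtain ⟨f1, f2⟩ := hf hz hsat
    refine NatLex.cons (by omega) fun e => NatLex.lt ?_
    have e' : f' = f := by omega
    obtain ⟨u, hu, hz'⟩ := hz
    have := vz_lt h.gd.conn O (f2 e') hu (h.inf _ _ hu) hz'
    omega
  · rcases hD hz with k | ⟨k1, k2⟩
    · exact NatLex.lt k
    · exact NatLex.cons k1 fun _ => NatLex.lt k2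

end SyQ

end Pool.Agent.DI
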