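import Pool.Agent.DI.Psv
import Pool.Agent.DI.VDZ
import Pool.Agent.DI.Tail
import Pool.Agent.DI.P4L

/-!
# DI/P4W: the law of `p_4` on `Sy1`

`S.CF u`: case F, an element of `H_u` which fixes no neighbour of `u` fixes a sink of `D` type or a piece of a
vertex which is not a sink. `Sy1.p4_law`: the law for the folded slice, from `TU` at all edges at `w`, the
killing lemma in case N (`hP`) and with `φ (H_u) = 0` (`hPF`), and the wall theorem (`hN`).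
`Sy1.p5_Z`: `p_5` at the walls of `Z` type.
-/

namespace Pool.Agent.DI

open MulAction
open Pool.Agent.SAF (TAct)
open Pool.Agent.SAG (IO Zt)

namespace SyQ

variable {H V : Type} [Group H] [MulAction H V] {S : SyQ H V} {w : S.X}

/-- CASE F AT `u` -/
def CF (S : SyQ H V) (u : S.X) : Prop :=
  ∃ b : H, b • u = u ∧ (∀ v, S.D.G.Adj u v → b • v ≠ v) ∧
    ((∃ x, S.K.Snk x ∧ S.K.VC x ∧ ¬ Zt ↥(stabilizer H x) ∧ b • x = x) ∨ ∃ y n, S.K.PG y n b)

/-- the element which exchanges the two edges at `u` -/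
theorem Inv1.ex {u : S.X} (i : S.Inv1 w u) : ∃ b : H, b • u = u ∧ b • w ≠ w ∧
    (∀ a : H, a • u = u → a • w ≠ w → a • w = b • w ∧ a • b • w = w) := by
  obtain ⟨g, hg, hne, hval⟩ := i.flip
  refine ⟨g, hg, hne, ?_⟩
  intro a ha haw
  have h1 : S.D.G.Adj u (a • w) := by
    have := S.D.adj_smul a _ _ i.adj.symm
    rwa [ha] at this
  have e1 := (hval _ h1).resolve_left haw
  have h2 : S.D.G.Adj u (a • g • w) := by
    have h3 : S.D.G.Adj u (g • w) := by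
      have := S.D.adj_smul g _ _ i.adj.symm
      rwa [show g • u = u from hg] at this
    have := S.D.adj_smul a _ _ h3
    rwa [ha] at this
  refine ⟨e1, (hval _ h2).resolve_right fun e => haw ?_⟩
  have := smul_left_cancel a (e.trans e1.symm)
  rw [e1, this]

theorem Inv1.two {u : S.X} (i : S.Inv1 w u) : ∀ a c : H, a • u = u → c • u = u → a • w ≠ w →
    c • w ≠ w → (a * c) • w = w := by
  intro a c ha hc haw hcw
  obtain ⟨b, -, -, hk⟩ := i.ex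
  rw [mul_smul, (hk c hc hcw).1]
  exact (hk a ha haw).2

/-- in the inverted case the edge group determines `CF` -/
theorem Inv1.cf_iff {u : S.X} (i : S.Inv1 w u) : S.CF u ↔ ∃ b : H, b • u = u ∧ b • w ≠ w ∧
    ((∃ x, S.K.Snk x ∧ S.K.VC x ∧ ¬ Zt ↥(stabilizer H x) ∧ b • x = x) ∨
      ∃ y n, S.K.PG y n b) := by
  constructor
  · rintro ⟨b, h1, h2, h3⟩
    exact ⟨b, h1, h2 w i.adj.symm, h3⟩
  · rintro ⟨b, h1, h2, h3⟩
    refine ⟨b, h1, ?_, h3⟩
    obtain ⟨g, hg, hne, hval⟩ := i.flip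
    intro v hv e
    rcases hval v hv with rfl | rfl
    · exact h2 e
    · obtain ⟨c, -, -, hk⟩ := i.ex
      have e1 := hk b h1 h2
      have e2 := hk g hg hne
      rw [e2.1, e1.2] at e
      exact hne (e2.1.trans e.symm)

variable {O : S.OR w}

theorem Sy1.edges (h : S.Sy1 w) {u : S.X} (hu : S.D.G.Adj w u) (x y : S.X)
    (hxy : S.D.G.Adj x y) :
    ∃ g : H, (g • w = x ∧ g • u = y) ∨ (g • w = y ∧ g • u = x) := h.one _ _ _ _ hu hxy

/-- an adjacent vertex in the same orbit, or the inverted case -/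
theorem Sy1.hnn_or (h : S.Sy1 w) : (∃ u, S.D.G.Adj w u ∧ ∃ t : H, t • w = u) ∨
    ∃ u, S.Inv1 w u := by
  rcases h.alt with k | k
  · obtain ⟨u, hu⟩ := exists_nb S.D w
    exact Or.inl ⟨u, hu, k w u⟩
  · exact Or.inr k

/-- THE LAW OF `p_4` -/
theorem Sy1.p4_law (h : S.Sy1 w) (hT : ∀ v, S.D.G.Adj w v → TU (S.kf h.gd.conn w O) v)
    (hP : (∀ u, S.Inv1 w u → ¬ S.CF u) →
      ∀ φ : H2m H, res2 (stabilizer H w) φ ∈ (S.kf h.gd.conn w O).P4 → φ ∈ S.K.P4)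
    (hPF : ∀ u, S.Inv1 w u → ∀ φ : H2m H,
      res2 (stabilizer H w) φ ∈ (S.kf h.gd.conn w O).P4 →
      (∀ a : H, a • u = u → φ (Additive.ofMul a) = 0) → φ ∈ S.K.P4)
    (hN : ∀ u, S.Inv1 w u → S.CF u → ¬ Zt ↥(stabilizer H w ⊓ stabilizer H u)) :
    (S.kf h.gd.conn w O).p4 ≤ S.K.p4 ∧
      (S.K.p4 ≤ (S.kf h.gd.conn w O).p4 → S.ZW w ∨ ∃ u, S.Inv1 w u ∧ S.CF u) := by
  have hG : TAct H S.D.G := ⟨S.D.tree, S.D.adj_smul, S.D.noinv⟩
  by_cases hinv : ∃ u, S.Inv1 w u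
  · obtain ⟨u, i⟩ := hinv
    obtain ⟨b, hb, hbw, -⟩ := i.ex
    have key := p4_inv (K' := S.kf h.gd.conn w O) (K := S.K) hG i.adj (h.edges i.adj) hT
      (N := ∀ u, S.Inv1 w u → ¬ S.CF u) i.ne i.two hb hbw hP (hPF u i) (fun hz v j hF => ?_)
    · refine ⟨key.1, fun hle => ?_⟩
      rcases key.2 hle with ⟨h1, h2⟩ | ⟨h1, -⟩
      · push Not at h1
        exact Or.inr h1
      · exact Or.inl ⟨u, i.adj, h1⟩
    · exact hN v j hF (h.zt_all i.adj j.adj hz)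
  · obtain ⟨u, hu, t, ht⟩ := h.hnn_or.resolve_right hinv
    have key := p4_hnn (K' := S.kf h.gd.conn w O) (K := S.K) hG hu (h.edges hu) hT ht
      (hP (fun v j => (hinv ⟨v, j⟩).elim))
    exact ⟨key.1, fun hle => Or.inl ⟨u, hu, key.2 hle⟩⟩

/-- THE LAW OF `p_5` AT WALLS OF `Z` TYPE -/
theorem Sy1.p5_Z (h : S.Sy1 w) (hT : ∀ v, S.D.G.Adj w v → TU (S.kf h.gd.conn w O) v)
    (hz : S.ZW w)
    (hP : ∀ φ : H2m H, res2 (stabilizer H w) φ ∈ (S.kf h.gd.conn w O).P5 → φ ∈ S.K.P5) :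
    (S.kf h.gd.conn w O).p5 ≤ S.K.p5 := by
  have hG : TAct H S.D.G := ⟨S.D.tree, S.D.adj_smul, S.D.noinv⟩
  obtain ⟨v, hv, hz⟩ := hz
  rcases h.hnn_or with ⟨u, hu, t, ht⟩ | ⟨u, i⟩
  · exact p5_Z_hnn (K' := S.kf h.gd.conn w O) (K := S.K) hG hu (h.edges hu) hT (h.inf _ _ hu)
      (h.zt_all hv hu hz) ht hP
  · obtain ⟨b, hb, hbw, -⟩ := i.ex
    exact p5_Z_inv (K' := S.kf h.gd.conn w O) (K := S.K) hG i.adj (h.edges i.adj) hT
      (h.inf _ _ i.adj) (h.zt_all hv i.adj hz) i.ne i.two hb hbw hP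

end SyQ

end Pool.Agent.DI
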