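import Pool.Agent.DI.GenW
import Pool.Agent.DI.P4W

/-!
# DI/GenV: the killing lemmas of the law of `p_4`

`Sy1.hP4`: case N or HNN; `Sy1.hPF4`: characters which kill the stabiliser of the midpoint. These are the
hypotheses `hP`, `hPF` of `Sy1.p4_law` and `Psv.p4_law`.
-/

namespace Pool.Agent.DI

open MulAction
open Pool.Agent.SAG (IO Zt)

namespace SyQ

variable {H V : Type} [Group H] [MulAction H V] {S : SyQ H V} {w : S.X} {O : S.OR w}

/-- HYPOTHESIS `hP` of the law of `p_4` -/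
theorem Sy1.hP4 (h : S.Sy1 w) (p : S.PzH h.gd.conn w O) (l : S.LvG h.gd.conn w O) (hG : S.Gen4)
    (hdq : ∀ q u u', S.J q = {w} → S.Dia w u q → S.Dia w u' q → u ≠ u' → ∀ g : H, g • q = q →
      (∀ b, S.K.ar q b → g • b = b) → ∃ v, S.D.G.Adj w v ∧ g • v = v)
    (hN : ∀ u, S.Inv1 w u → ¬ S.CF u) (φ : H2m H)
    (hφ : res2 (stabilizer H w) φ ∈ (S.kf h.gd.conn w O).P4) : φ ∈ S.K.P4 := by
  refine p.full4_N l hG hdq ?_ hφ
  intro v w1 w2 g hb m h1 h2 h3 h4
  rcases h.alt with k | ⟨u, hi⟩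
  · obtain ⟨k, hk⟩ := k w v
    exact hb k hk
  · rcases hi.orb v with ⟨k, hk⟩ | ⟨k, hk⟩
    · exact hb k hk
    · refine hN u hi ⟨k⁻¹ * g * k⁻¹⁻¹, ?_, ?_, h4.conj k⁻¹⟩
      · rw [inv_inv, mul_smul, mul_smul, hk, h1, ← hk, inv_smul_smul]
      · intro z hz e
        have hz' : S.D.G.Adj v (k • z) := by
          have := S.D.adj_smul k _ _ hz
          rwa [hk] at this
        have e' : g • k • z = k • z := by
          have := congrArg (fun t => k • t) e
          have this : k • (k⁻¹ * g * k⁻¹⁻¹) • z = k • z := this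
          rwa [inv_inv, mul_smul, mul_smul, smul_inv_smul] at this
        rcases m.mid.val _ hz' with e1 | e1
        · rw [e1, h2] at e'
          exact m.mid.ne e'.symm
        · rw [e1, h3] at e'
          exact m.mid.ne e'

/-- HYPOTHESIS `hPF` of the law of `p_4` -/
theorem Sy1.hPF4 (h : S.Sy1 w) (p : S.PzH h.gd.conn w O) (l : S.LvG h.gd.conn w O) (hG : S.Gen4)
    (hdq : ∀ q u u', S.J q = {w} → S.Dia w u q → S.Dia w u' q → u ≠ u' → ∀ g : H, g • q = q →
      (∀ b, S.K.ar q b → g • b = b) → ∃ v, S.D.G.Adj w v ∧ g • v = v)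
    (u : S.X) (hi : S.Inv1 w u) (φ : H2m H)
    (hφ : res2 (stabilizer H w) φ ∈ (S.kf h.gd.conn w O).P4)
    (hU : ∀ a : H, a • u = u → φ (Additive.ofMul a) = 0) : φ ∈ S.K.P4 := by
  refine p.full4_F l hG hdq ?_ hφ hU
  intro v hb
  rcases hi.orb v with ⟨k, hk⟩ | ⟨k, hk⟩
  · exact absurd hk (hb k)
  · exact ⟨k, hk⟩

end SyQ

end Pool.Agent.DI
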