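import Pool.Agent.DI.P5Z

/-!
# `P_4` at all walls

`S.LvG hc w O`: the geometric hypotheses of Lemma V for all vertices over `w`. `PzH.loc4`: a character whose
restriction to `H_w` is in `P_4` of the folded slice kills the groups of the local pieces at `w` of the
vertices which cross an edge at `w`; `PzH.loc5`: the same for `P_5` and the elements which fix the poles.
`PzH.p4`: such a character is in `P_4` of `K` if it kills the stabilisers of the broken `D`-sinks and the groups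
of the pieces of the crossing vertices.
-/

namespace Pool.Agent.DI

open MulAction
open Pool.Agent.SAF (InC SA orbs FinOrb oc Decomp SAn Conv hull dist_edge FinOrb_iff exists_next TAct)
open Pool.Agent.SAG (IO Zt)
open Pool.Agent.BT (PX PQ JS bey exits Ell Hyp lz lz_self lz_ne lz_symm x_next_unique)
open Pool.Agent.BT.TA

namespace SyQ

variable {H V : Type} [Group H] [MulAction H V] {S : SyQ H V}

variable (S) in
/-- THE GEOMETRIC HYPOTHESES OF LEMMA V -/
structure LvG (hc : S.Conn) (w : S.X) (O : S.OR w) : Prop where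
  kin : S.KIn w
  /-- every local piece touches every direction -/
  ts : ∀ (y : V) (u0 : S.X) (hu : S.D.G.Adj w u0) (n : V), S.Cs w u0 y → w ∈ S.J n → S.K.ar n y →
    ∃ A, (S.k0 hc w).IJ (S.rho w y) (S.rho w n) A ∧
      (S.k0 hc w).Cor A (S.rho w y) (Sum.inr ⟨u0, hu⟩)
  /-- folded hubs are leaves -/
  leaf : ∀ y q, w ∈ S.J y → w ∈ S.J q → S.K.ar q y → (∃ u, S.SD w u q ∧ ¬ O.op u q) → ∀ A A',
    (S.k0 hc w).IC (S.rho w y) (S.rho w q) A → (S.k0 hc w).IC (S.rho w y) (S.rho w q) A' →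
    ∃ g : ↥(stabilizer H w), g.1 • y = y ∧ g.1 • q = q ∧ g • A = A'
  /-- no corner between translates of a folded hub -/
  nself : ∀ y q, w ∈ S.J y → w ∈ S.J q → S.K.ar q y → (∃ u, S.SD w u q ∧ ¬ O.op u q) →
    ∀ g : ↥(stabilizer H w), g.1 • y = y → ¬ (S.k0 hc w).IC (S.rho w y) (S.rho w q) (g • S.rho w q)
  /-- no local square at a folded hub -/
  nsq : ∀ y q, w ∈ S.J y → w ∈ S.J q → S.K.ar q y → (∃ u, S.SD w u q ∧ ¬ O.op u q) → ∀ m z,
    Q4 S.P m y q z → w ∈ S.J m → w ∈ S.J z → False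
  /-- the sides of the local squares are not identified -/
  old : ∀ T a b z, S.P.Top T a b z → S.Loc w T a b z →
    S.fq w O (S.rho w a) ≠ S.fq w O (S.rho w b)

variable {hc : S.Conn} {w : S.X} {O : S.OR w}

/-- the stabiliser of `y` in `H_w` -/
def Bw (S : SyQ H V) (w : S.X) (y : V) : Subgroup ↥(stabilizer H w) :=
  (stabilizer H y).subgroupOf (stabilizer H w)

theorem mem_Bw {y : V} {g : ↥(stabilizer H w)} : g ∈ S.Bw w y ↔ g.1 • y = y := Iff.rfl

/-- the elements of `H_w` which fix `y` and its poles in the slice -/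
def Bpw (S : SyQ H V) (w : S.X) (y : V) : Subgroup ↥(stabilizer H w) where
  carrier := {g | g.1 • y = y ∧ ∀ A, S.SAr w (S.rho w y) A → g • A = A}
  one_mem' := ⟨one_smul _ _, fun A _ => one_smul _ A⟩
  mul_mem' := by
    rintro a b ⟨h1, h2⟩ ⟨h3, h4⟩
    refine ⟨?_, fun A hA => ?_⟩
    · show (a.1 * b.1) • y = y
      rw [mul_smul, h3, h1]
    · rw [mul_smul, h4 A hA, h2 A hA]
  inv_mem' := by
    rintro a ⟨h1, h2⟩
    refine ⟨?_, fun A hA => ?_⟩
    · show a.1⁻¹ • y = y
      rw [inv_smul_eq_iff, h1]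
    · rw [inv_smul_eq_iff, h2 A hA]

theorem mem_Bpw {y : V} {g : ↥(stabilizer H w)} : g ∈ S.Bpw w y ↔
    g.1 • y = y ∧ ∀ A, S.SAr w (S.rho w y) A → g • A = A := Iff.rfl

/-- `P_4` kills the edge groups of `D` type -/
theorem PzH.e4 (h : S.PzH hc w O) {φ : H2m H} (hφ : res2 (stabilizer H w) φ ∈ (S.kf hc w O).P4)
    {a : H} {u : S.X} (hu : S.D.G.Adj w u) (hw : a • w = w) (hau : a • u = u)
    (hz : Zt ↥(stabilizer H w ⊓ stabilizer H u) → Infinite ↥(stabilizer H w ⊓ stabilizer H u) →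
      ¬ IO a) : φ (Additive.ofMul a) = 0 := by
  refine hφ.1 _ (vdz_t_snk hc O ⟨u, hu⟩) (h.tu _) ⟨a, hw⟩ ((vdz_t_stab _ _).2 hau) ?_
  intro h1 h2
  have e := S.vdzIso O (⟨u, hu⟩ : S.EV w)
  have k1 : Zt ↥(stabilizer H w ⊓ stabilizer H u) := h1.of_inj e.toMonoidHom e.injective
  have k2 : Infinite ↥(stabilizer H w ⊓ stabilizer H u) := Infinite.of_injective e.symm
    e.symm.injective
  exact fun k => hz k1 k2 (io_coe.2 k)

theorem PzH.ek4 (h : S.PzH hc w O) {φ : H2m H}
    (hφ : res2 (stabilizer H w) φ ∈ (S.kf hc w O).P4) : S.Ek φ :=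
  h.ek fun _ _ hu hw hau hio => h.e4 hφ hu hw hau (fun _ _ => hio)

/-- SINKS: `P_4` -/
theorem PzH.snk4 (h : S.PzH hc w O) {φ : H2m H}
    (hφ : res2 (stabilizer H w) φ ∈ (S.kf hc w O).P4)
    (hD : ∀ y, S.K.Snk y → S.K.VC y → ¬ Ell H S.X y → ¬ Zt ↥(stabilizer H y) → ∀ a : H, a • y = y →
      φ (Additive.ofMul a) = 0) {y : V} (hs : S.K.Snk y) (hv : S.K.VC y) {a : H} (ha : a • y = y)
    (hz : Zt ↥(stabilizer H y) → Infinite ↥(stabilizer H y) → ¬ IO a) :
    φ (Additive.ofMul a) = 0 := by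
  have hek := h.ek4 hφ
  by_cases hell : Ell H S.X y
  · obtain ⟨g, hg⟩ := h.place hs hell
    have hag : (g * a * g⁻¹) • g • y = g • y := by
      rw [mul_smul, inv_smul_smul, mul_smul, ha]
    have hz' : Zt ↥(stabilizer H (g • y)) → Infinite ↥(stabilizer H (g • y)) →
        ¬ IO (g * a * g⁻¹) := by
      intro h1 h2 k
      refine hz ((GX.zt_smul_iff g y).1 h1) ((GX.inf_smul_iff g y).1 h2) ?_
      have := k.conj g⁻¹
      have e : g⁻¹ * (g * a * g⁻¹) * g⁻¹⁻¹ = a := by group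
      rwa [e] at this
    rw [← h2_conj φ g a]
    rcases uk_snk h.k0m h.sqn h.nb hg (hs.smul g) (h.lc _) (hv.smul g) with k | ⟨u, hu, k⟩
    · have hx : S.Sat w (g • y) := ⟨hs.smul g, hg⟩
      have e := hx.iso (O := O)
      rw [← S.rho_near hx.mem] at e
      refine hφ.1 _ (uk_snk_kf hg (hs.smul g)) k ⟨g * a * g⁻¹, uk_fw hg hag⟩ (uk_fix_cls hg hag) ?_
      intro h1 h2
      have k1 : Zt ↥(stabilizer H (g • y)) := h1.of_inj e.toMonoidHom e.injective
      have k2 : Infinite ↥(stabilizer H (g • y)) := Infinite.of_injective e.symm e.symm.injective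
      exact fun k => hz' k1 k2 (io_coe.2 k)
    · refine h.e4 hφ hu (uk_fw hg hag) (k _ hag) ?_
      intro h1 _
      let f : ↥(stabilizer H (g • y)) →* ↥(stabilizer H w ⊓ stabilizer H u) :=
        { toFun := fun x => ⟨x.1, uk_fw hg x.2, k _ x.2⟩
          map_one' := rfl
          map_mul' := fun _ _ => rfl }
      have hf : Function.Injective f := by
        intro x z e
        exact Subtype.ext (congrArg (fun t : ↥(stabilizer H w ⊓ stabilizer H u) => t.1) e)
      have k1 : Zt ↥(stabilizer H (g • y)) := h1.of_inj f hf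
      by_cases hi : Infinite ↥(stabilizer H (g • y))
      · exact hz' k1 hi
      · have : Finite ↥(stabilizer H (g • y)) := not_infinite_iff_finite.1 hi
        exact pz_nio this hag
  · by_cases hzt : Zt ↥(stabilizer H y)
    · have hi : Infinite ↥(stabilizer H y) := by
        by_contra hcon
        have hf : Finite ↥(stabilizer H y) := not_infinite_iff_finite.1 hcon
        have : Nonempty S.X := S.D.tree.connected.nonempty
        obtain ⟨z, hz⟩ := Pool.Agent.SAG.fix_of_finite S.D.tact (stabilizer H y) hf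
        exact hell ⟨z, hz⟩
      have hio := hz hzt hi
      obtain ⟨t, ht, hti, e⟩ := zt_comm hzt hi (show a ∈ stabilizer H y from ha) hio
      rcases pz_comm hio ht hti e with ⟨x, z, hxz, hx, hz⟩ | k
      · exact hek a x z hxz hx hz hio
      · exact absurd k hell
    · exact hD y hs hv hell hzt a ha

/-- `P_4` AT ALL WALLS -/
theorem PzH.p4 (h : S.PzH hc w O) (φ : H2m H)
    (hφ : res2 (stabilizer H w) φ ∈ (S.kf hc w O).P4)
    (hD : ∀ y, S.K.Snk y → S.K.VC y → ¬ Ell H S.X y → ¬ Zt ↥(stabilizer H y) → ∀ a : H, a • y = y →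
      φ (Additive.ofMul a) = 0)
    (hS : ∀ y n a, S.K.PG y n a → (∃ x z, S.D.G.Adj x z ∧ x ∈ S.J y ∧ z ∈ S.J y) →
      φ (Additive.ofMul a) = 0) : φ ∈ S.K.P4 := by
  have he := h.ek4 hφ
  refine ⟨fun y hs hv a ha hz => h.snk4 hφ hD hs hv ha hz, fun y n a hpg => ?_⟩
  by_cases hcr : ∃ x z, S.D.G.Adj x z ∧ x ∈ S.J y ∧ z ∈ S.J y
  · exact hS y n a hpg hcr
  · rcases h.pg hpg (pz_single hcr) with ⟨x, z, hxz, hx, hz, hio⟩ | ⟨g, hq, m, hm⟩
    · exact he a x z hxz hx hz hio
    · rw [← h2_conj φ g a]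
      exact hφ.2 _ _ ⟨g * a * g⁻¹, uk_fw hq (hpg.smul g).2.2.2.1⟩ hm

/-! ### the local pieces -/

/-- the stabilisers of the hubs -/
theorem PzH.hub (h : S.PzH hc w O) {φ : H2m H} (he : S.Ek φ)
    (hdq : ∀ q u u', S.J q = {w} → S.Dia w u q → S.Dia w u' q → u ≠ u' → ∀ g : H, g • q = q →
      (∀ b, S.K.ar q b → g • b = b) → ∃ v, S.D.G.Adj w v ∧ g • v = v) {q y : V}
    (hqy : S.K.ar q y) (hd : ∃ u, S.Dia w u q) {g : H} (hgw : g • w = w) (hgy : g • y = y)
    (hgq : g • q = q) : φ (Additive.ofMul g) = 0 := by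
  obtain ⟨u, hd⟩ := hd
  have hdt := hd.two hqy
  have hfin := h.fin_of hqy hdt.1 hdt.2.1 hdt.2.2
  have hio := pz_nio hfin hgq
  by_cases hsd : S.SD w u q
  · have h1 := hsd.1.smul ⟨g, hgw⟩
    have h2 : S.Dia w (g • u) q := by
      have h3 : S.Dia w (g • u) (g • q) := h1
      rwa [hgq] at h3
    exact he g w u hdt.1 hgw (hsd.2 _ h2) hio
  · obtain ⟨u', hd', hne⟩ : ∃ u', S.Dia w u' q ∧ u' ≠ u := by
      by_contra hcon
      push Not at hcon
      exact hsd ⟨hd, hcon⟩
    have hJ : S.J q = {w} := by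
      obtain ⟨hq, a, b, hab, ha, hb, -⟩ := hd
      exact poles_point hab hq ha hb (hd'.two ha).2.1 (hd'.two hb).2.1
    obtain ⟨v, hv, hv'⟩ := hdq q u u' hJ hd hd' hne.symm g hgq (fun b hb => by
      by_cases hby : b = y
      · rw [hby, hgy]
      · have h3 : S.K.ar q (g • b) := by
          have := S.K.ar_smul g _ _ hb
          rwa [hgq] at this
        rcases S.K.two _ _ _ _ hb hqy h3 with e | e | e
        · exact absurd e hby
        · exfalso
          apply hby
          have : g • b = g • y := by rw [← e, hgy]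
          exact smul_left_cancel g this
        · exact e.symm)
    exact he g w v hv hgw hv' hio

theorem PzH.loc4 (h : S.PzH hc w O) (l : S.LvG hc w O) {φ : H2m H}
    (hφ : res2 (stabilizer H w) φ ∈ (S.kf hc w O).P4)
    (hdq : ∀ q u u', S.J q = {w} → S.Dia w u q → S.Dia w u' q → u ≠ u' → ∀ g : H, g • q = q →
      (∀ b, S.K.ar q b → g • b = b) → ∃ v, S.D.G.Adj w v ∧ g • v = v)
    {y n : V} {u0 : S.X} (hu : S.D.G.Adj w u0) (hcs : S.Cs w u0 y) (hnw : w ∈ S.J n)
    (hny : S.K.ar n y) {g : ↥(stabilizer H w)} (hg : g.1 • y = y)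
    (hgg : (S.k0 hc w).IJ (S.rho w y) (S.rho w n) (g • S.rho w n)) :
    φ (Additive.ofMul g.1) = 0 := by
  have he := h.ek4 hφ
  have L : S.LVh hc w O y u0 (S.Bw w y) (res2 (stabilizer H w) φ) :=
    { nf := h.nf
      kin := l.kin
      hy := hcs.1
      hu := hu
      hcr := hcs.2
      fix := fun g hg => hg
      pg := fun g _ m hm => hφ.2 _ _ g hm
      ts := fun n hn' hn => l.ts y u0 hu n hcs hn' hn
      leaf := fun q h1 h2 h3 A A' h4 h5 => by
        obtain ⟨g, k1, k2, k3⟩ := l.leaf y q hcs.1 h1 h2 h3 A A' h4 h5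
        exact ⟨g, k1, k2, k3⟩
      nself := fun q h1 h2 h3 g hg => l.nself y q hcs.1 h1 h2 h3 g hg
      nsq := fun q h1 h2 h3 => l.nsq y q hcs.1 h1 h2 h3
      old := l.old
      hub := fun q h1 h2 h3 g hg hgq => h.hub he hdq h2 h3 g.2 hg hgq }
  exact lemV h.k0m h.sqn L (S.k0P_nd hc h.nb w) hnw hny (B := S.Bw w y) hg hgg

theorem PzH.loc5 (h : S.PzH hc w O) (l : S.LvG hc w O) {φ : H2m ↥(stabilizer H w)}
    (hφ : φ ∈ (S.kf hc w O).P5) {y n : V} {u0 : S.X} (hu : S.D.G.Adj w u0) (hcs : S.Cs w u0 y)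
    (hh : ∀ q, w ∈ S.J q → S.K.ar q y → (∃ u, S.Dia w u q) → ∀ g ∈ S.Bpw w y, g.1 • q = q →
      φ (Additive.ofMul g) = 0) (hnw : w ∈ S.J n)
    (hny : S.K.ar n y) {g : ↥(stabilizer H w)} (hg : g ∈ S.Bpw w y)
    (hgg : (S.k0 hc w).IJ (S.rho w y) (S.rho w n) (g • S.rho w n)) :
    φ (Additive.ofMul g) = 0 := by
  have L : S.LVh hc w O y u0 (S.Bpw w y) φ :=
    { nf := h.nf
      kin := l.kin
      hy := hcs.1
      hu := hu
      hcr := hcs.2
      fix := fun g hg => hg.1
      pg := fun g hg m hm => by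
        refine hφ.2 _ _ g hm (fun b hb => ?_)
        have hb : S.arQ w O (S.fq w O (S.rho w y)) b := hb
        have h0 := arQ_up (S := S) (w := w) (O := O) hu hcs
        have hg0 : g • S.fq w O (Sum.inr ⟨u0, hu⟩) = S.fq w O (Sum.inr ⟨u0, hu⟩) := by
          rw [← fq_smul, hg.2 _ (sar_up hu hcs)]
        have hgy : g • S.fq w O (S.rho w y) = S.fq w O (S.rho w y) := by
          rw [← fq_smul, ← S.rho_smul, hg.1]
        have h1 := arQ_smul g hb
        rw [hgy] at h1
        by_cases hb0 : b = S.fq w O (Sum.inr ⟨u0, hu⟩)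
        · rw [hb0, hg0]
        · rcases arQ_two hb h0 h1 with e | e | e
          · exact absurd e hb0
          · exfalso
            apply hb0
            have : g • b = g • S.fq w O (Sum.inr ⟨u0, hu⟩) := by rw [← e, hg0]
            exact smul_left_cancel g this
          · exact e.symm
      ts := fun n hn' hn => l.ts y u0 hu n hcs hn' hn
      leaf := fun q h1 h2 h3 A A' h4 h5 => by
        obtain ⟨g, k1, k2, k3⟩ := l.leaf y q hcs.1 h1 h2 h3 A A' h4 h5
        refine ⟨g, ⟨k1, fun C hC => ?_⟩, k2, k3⟩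
        obtain ⟨u, hsd, -⟩ := h3
        have h6 := hsd.1.smul g
        have h7 : S.Dia w (g.1 • u) q := by
          have h8 : S.Dia w (g.1 • u) (g.1 • q) := h6
          rwa [k2] at h8
        have h9 : g.1 • u = u := hsd.2 _ h7
        have hdt := hsd.1.two h2
        have h0 := sar_up hdt.1 hdt.2
        have hg0 : g • (Sum.inr ⟨u, hdt.1⟩ : S.SV w) = Sum.inr ⟨u, hdt.1⟩ :=
          congrArg Sum.inr (Subtype.ext h9)
        have hgy : g • S.rho w y = S.rho w y := by
          rw [← S.rho_smul, k1]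
        have h10 := hC.smul g
        rw [hgy] at h10
        by_cases hb0 : C = Sum.inr ⟨u, hdt.1⟩
        · rw [hb0, hg0]
        · rcases SAr.two _ _ _ _ hC h0 h10 with e | e | e
          · exact absurd e hb0
          · exfalso
            apply hb0
            have : g • C = g • (Sum.inr ⟨u, hdt.1⟩ : S.SV w) := by rw [← e, hg0]
            exact smul_left_cancel g this
          · exact e.symm
      nself := fun q h1 h2 h3 g hg => l.nself y q hcs.1 h1 h2 h3 g hg.1
      nsq := fun q h1 h2 h3 => l.nsq y q hcs.1 h1 h2 h3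
      old := l.old
      hub := hh }
  exact lemV h.k0m h.sqn L (S.k0P_nd hc h.nb w) hnw hny hg hgg

end SyQ

end Pool.Agent.DI
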