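import Pool.Agent.DI.GenT
import Pool.Agent.DI.P4h

/-!
# DI/GenW: the broken vertices in the law of `p_4`

`genH_of_eq`: `S.GenH` from the equality case of the exc-law of the raw slices. `PzH.hk4`: a character whose
restriction to `H_w` is in `P_4` of the folded slice and which kills the elements of the stabilisers of
the midpoints which reverse a sink or a piece kills the groups of the local pieces of the vertices which
cross an edge. `PzH.full4`: such a character is in `P_4` of `K`.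
-/

namespace Pool.Agent.DI

open MulAction
open Pool.Agent.SAF (InC SA orbs FinOrb oc Decomp SAn Conv hull dist_edge FinOrb_iff exists_next TAct)
open Pool.Agent.SAG (IO Zt)
open Pool.Agent.BT (PX PQ JS bey exits mst Ell Hyp finite_of_hyp)
open Pool.Agent.BT.TA

namespace SyQ

variable {H V : Type} [Group H] [MulAction H V] {S : SyQ H V}

/-- LEMMA S APPLIES in the equality case of the exc-law -/
theorem genH_of_eq (hc : S.Conn) (hnb : S.NB) {ι : Type} [Fintype ι] (w : ι → S.X)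
    (hw : ∀ (i j : ι) (g : H), g • w i = w j → i = j) (hS : S.SinkH) (hL : S.LostD w)
    (hl : ∀ y, (∃ a, S.K.ar y a) → S.K.LC y) (hos : S.OS)
    (h0 : ∑ i, (S.k0 hc (w i)).pexc ≤ S.K.pexc) : S.GenH (exE hc hnb w hw) where
  conn := hc
  E := exE_ex hc hnb w hw (lost_of_D hc hnb hL)
  E' := exE_em hc hnb w hw hL
  os := hos
  sk := hS
  lc := hl
  ti := fun y n h F => pexc_eq hc hnb w hw hS (lost_of_D hc hnb hL)
    (softLe hc hnb w hw hL hl) h0 h

/-- the elements of the local groups of the hyperbolic sinks have finite order -/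
theorem lgr_nio {y m : V} {p : S.X} {g : H} (hn : Hyp S.X (stabilizer H y)) (hm : S.K.ar m y)
    (hp : p ∈ S.J y) (hp' : p ∈ S.J m) (hg : S.LGr p y m g) : ¬ IO g := by
  have hfin : Finite ↥(stabilizer H (S.lp hm)) := by
    refine finite_of_hyp S.D.tact (S.K.stab y) hn ?_ (w := p) ?_
    · intro b hb
      exact (lp_fix hm hb hp hp').1
    · intro b hb
      exact (lp_fix hm hb hp hp').2.1
  have hmem : g • S.lp hm = S.lp hm := by
    have h5 : S.K.ar (g • m) y := by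
      have := S.K.ar_smul g _ _ hm
      rwa [hg.1] at this
    have h6 := (lp_iff hm h5 hp hp').2 hg.2.2
    rw [lp_smul, h6]
    have key : ∀ z (k : S.K.ar (g • m) z), z = y → S.lp k = S.lp h5 := by
      rintro z k rfl
      rfl
    exact key _ _ hg.1
  intro hio
  exact SAG.not_IO_finite (⟨g, hmem⟩ : ↥(stabilizer H (S.lp hm))) (io_coe.1 hio)

theorem LGr.conj (k : H) {p : S.X} {y m : V} {g : H} (h : S.LGr p y m g) :
    S.LGr (k • p) (k • y) (k • m) (k * g * k⁻¹) := by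
  obtain ⟨h1, h2, h3⟩ := h
  refine ⟨?_, ?_, ?_⟩
  · rw [mul_smul, inv_smul_smul, mul_smul, h1]
  · rw [mul_smul, inv_smul_smul, mul_smul, h2]
  · have := h3.smul k
    rwa [mul_smul, inv_smul_smul, mul_smul]

theorem Crs.smul (k : H) {y : V} (h : S.Crs y) : S.Crs (k • y) := by
  obtain ⟨p, u, h1, h2, h3⟩ := h
  exact ⟨k • p, k • u, S.js.smul k _ _ h1, S.js.smul k _ _ h2, S.D.adj_smul k _ _ h3⟩

/-- a crossing vertex has a neighbour of each of its points -/
theorem Crs.nbr {y : V} (h : S.Crs y) {p : S.X} (hp : p ∈ S.J y) :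
    ∃ u, S.D.G.Adj p u ∧ u ∈ S.J y := by
  obtain ⟨x, z, h1, h2, h3⟩ := h
  by_cases hx : p = x
  · subst hx
    exact ⟨z, h3, h2⟩
  · obtain ⟨t, ht, ht', -⟩ := ex_nbp hp h1 hx
    exact ⟨t, ht, ht'⟩

/-- an element of the local group lies in the group of the piece -/
theorem LGr.pg {p : S.X} {y m : V} {g : H} (h : S.LGr p y m g) (hy : ∃ b, S.K.ar y b)
    (hm : S.K.ar m y) (hec : S.K.EC m y) : S.K.PG y m g :=
  ⟨hy, hm, hec, h.1, by
    have h3 := h.2.2
    refine Relation.EqvGen.mono ?_ _ _ h3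
    exact fun a b k => k.1⟩

variable (S) in
/-- `g` keeps a sink in a cell whose group is not of type `ℤ`, or a piece -/
def CFe (g : H) : Prop :=
  (∃ x, S.K.Snk x ∧ S.K.VC x ∧ ¬ Zt ↥(stabilizer H x) ∧ g • x = x) ∨ ∃ y n, S.K.PG y n g

theorem CFe.conj (k : H) {g : H} (h : S.CFe g) : S.CFe (k * g * k⁻¹) := by
  rcases h with ⟨x, h1, h2, h3, h4⟩ | ⟨y, n, h⟩
  · refine Or.inl ⟨k • x, h1.smul k, h2.smul k, fun hz => h3 ((GX.zt_smul_iff k x).1 hz), ?_⟩
    rw [mul_smul, inv_smul_smul, mul_smul, h4]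
  · exact Or.inr ⟨_, _, h.smul k⟩

variable {hc : S.Conn} {w : S.X} {O : S.OR w}

/-- THE GROUPS OF THE LOCAL PIECES -/
theorem PzH.hk4 (h : S.PzH hc w O) (l : S.LvG hc w O) (hS : S.SinkH) {φ : H2m H}
    (hφ : res2 (stabilizer H w) φ ∈ (S.kf hc w O).P4)
    (hdq : ∀ q u u', S.J q = {w} → S.Dia w u q → S.Dia w u' q → u ≠ u' → ∀ g : H, g • q = q →
      (∀ b, S.K.ar q b → g • b = b) → ∃ v, S.D.G.Adj w v ∧ g • v = v)
    (hmid : ∀ (u w1 w2 : S.X) (g : H), (∀ k : H, k • w ≠ u) → S.Mp w1 u w2 → g • u = u →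
      g • w1 = w2 → g • w2 = w1 → S.CFe g → φ (Additive.ofMul g) = 0) {y m : V} {p : S.X} {g : H} (hcr : S.Crs y)
    (hm : S.K.ar m y) (hec : S.K.EC m y) (hp : p ∈ S.J y) (hp' : p ∈ S.J m)
    (hg : S.LGr p y m g) : φ (Additive.ofMul g) = 0 := by
  have he := h.ek4 hφ
  by_cases hbad : ∃ k : H, k • w = p
  · -- over a bad point
    obtain ⟨k, rfl⟩ := hbad
    rw [← h2_conj φ k⁻¹ g]
    have hg' := hg.conj k⁻¹
    rw [inv_smul_smul] at hg'
    have hm' := S.K.ar_smul k⁻¹ _ _ hm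
    have hy1 : w ∈ S.J (k⁻¹ • y) := by
      have := S.js.smul k⁻¹ _ _ hp
      rwa [inv_smul_smul] at this
    have hm1 : w ∈ S.J (k⁻¹ • m) := by
      have := S.js.smul k⁻¹ _ _ hp'
      rwa [inv_smul_smul] at this
    obtain ⟨u0, hu0, hu0'⟩ := (hcr.smul k⁻¹).nbr hy1
    have hgw : (k⁻¹ * g * k⁻¹⁻¹) • w = w := hg'.2.1
    refine h.loc4 l hφ hdq hu0 ⟨hy1, hu0'⟩ hm1 hm' (g := ⟨_, hgw⟩) hg'.1 ?_
    have h3 := hg'.2.2
    have hgm : w ∈ S.J ((k⁻¹ * g * k⁻¹⁻¹) • k⁻¹ • m) := (LIJ_mem h3).1 hm1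
    rw [S.rho_near hy1, S.rho_near hm1]
    exact (ij_inl hc h.nb (y := ⟨_, hy1⟩) (a := ⟨_, hm1⟩)
      (b := (⟨(k⁻¹ * g * k⁻¹⁻¹), hgw⟩ : ↥(stabilizer H w)) • ⟨_, hm1⟩)).2 h3
  · -- over a midpoint
    obtain ⟨k, w1, w2, mp⟩ := (h.mid p).resolve_left hbad
    have hnb : ∀ j : H, j • w ≠ k • p := fun j e => hbad ⟨k⁻¹ * j, by
      rw [mul_smul, e, inv_smul_smul]⟩
    rw [← h2_conj φ k g]
    have hg' := hg.conj k
    have hm' := S.K.ar_smul k _ _ hm
    have hy1 := S.js.smul k _ _ hp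
    have hm1 := S.js.smul k _ _ hp'
    have hec' := hec.smul k
    have hcr' := hcr.smul k
    generalize k • p = u at mp hg' hy1 hm1 hnb
    generalize k • y = z at hg' hm' hy1 hm1 hec' hcr'
    generalize k • m = n at hg' hm' hm1 hec'
    generalize k * g * k⁻¹ = b at hg'
    -- the order is finite
    have hnio : ¬ IO b := by
      by_cases hz : ∃ a, S.K.ar z a
      · obtain ⟨a, ha⟩ := hz
        obtain ⟨t, ht, ht'⟩ := hcr'.nbr hy1
        exact pz_nio (h.fin_of' ha ht hy1 ht') hg'.1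
      · push Not at hz
        rcases hS.ty z hz with ⟨q, hq⟩ | ⟨h1, -, -⟩
        · exact absurd hcr' (not_crs_pt hq)
        · exact lgr_nio h1 hm' hy1 hm1 hg'
    rcases mp.mid.cases hg'.2.1 with ⟨k1, -⟩ | ⟨k1, k2⟩
    · exact he b u w1 mp.mid.hw hg'.2.1 k1 hnio
    · by_cases hz : ∃ a, S.K.ar z a
      · exact hmid u w1 w2 b hnb mp hg'.2.1 k1 k2 (Or.inr ⟨z, n, hg'.pg hz hm' hec'⟩)
      · push Not at hz
        have hv : S.K.VC z := ⟨n, hec'.symm⟩
        by_cases hzt : Zt ↥(stabilizer H z)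
        · rcases hS.ty z hz with ⟨q, hq⟩ | ⟨h1, -, h3⟩
          · exact absurd hcr' (not_crs_pt hq)
          · have hi : Infinite ↥(stabilizer H z) := by
              by_contra hcon
              have hf : Finite ↥(stabilizer H z) := not_infinite_iff_finite.1 hcon
              have : Nonempty S.X := S.D.tree.connected.nonempty
              obtain ⟨x, hx⟩ := Pool.Agent.SAG.fix_of_finite S.D.tact (stabilizer H z) hf
              obtain ⟨a, ha, hne⟩ := h1 x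
              exact hne (hx a ha)
            obtain ⟨t, ht, hti, e⟩ := zt_comm hzt hi (show b ∈ stabilizer H z from hg'.1) hnio
            rcases pz_comm hnio ht hti e with ⟨x, v, hxv, hx, hv'⟩ | ⟨x, hx⟩
            · exact he b x v hxv hx hv' hnio
            · obtain ⟨a, ha, hne⟩ := h1 x
              exact absurd (hx a ha) hne
        · exact hmid u w1 w2 b hnb mp hg'.2.1 k1 k2 (Or.inl ⟨z, hz, hv, hzt, hg'.1⟩)

/-- THE LAW OF `P_4`: characters of `H` whose restriction is in `P_4` of the folded slice -/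
theorem PzH.full4 (h : S.PzH hc w O) (l : S.LvG hc w O) (hG : S.Gen4)
    {φ : H2m H} (hφ : res2 (stabilizer H w) φ ∈ (S.kf hc w O).P4)
    (hdq : ∀ q u u', S.J q = {w} → S.Dia w u q → S.Dia w u' q → u ≠ u' → ∀ g : H, g • q = q →
      (∀ b, S.K.ar q b → g • b = b) → ∃ v, S.D.G.Adj w v ∧ g • v = v)
    (hmid : ∀ (u w1 w2 : S.X) (g : H), (∀ k : H, k • w ≠ u) → S.Mp w1 u w2 → g • u = u →
      g • w1 = w2 → g • w2 = w1 → S.CFe g → φ (Additive.ofMul g) = 0) : φ ∈ S.K.P4 := by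
  obtain ⟨k1, k2⟩ := hG.kill (φ := φ) (fun y m p g hcr hm hec hp hp' hg =>
    h.hk4 l hG.sk hφ hdq hmid hcr hm hec hp hp' hg)
  refine h.p4 φ hφ ?_ ?_
  · intro y hs hv hell hzt a ha
    refine k1 y ?_ hs hv hzt a ha
    rcases hG.sk.ty y hs with ⟨q, hq⟩ | ⟨h1, h2, -⟩
    · exfalso
      apply hell
      refine ⟨q, fun g hg => ?_⟩
      have hg : g • y = y := hg
      have h3 : q ∈ S.J y := by rw [hq]; rfl
      have h4 := S.js.smul g _ _ h3
      rw [hg, hq] at h4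
      exact h4
    · obtain ⟨p, hp⟩ := S.js.ne y
      obtain ⟨u, hu, hu'⟩ := ex_nbr_ax h1 h2 hp
      exact ⟨p, u, hp, hu', hu⟩
  · rintro y n a hpg ⟨x, z, hxz, hx, hz⟩
    exact k2 y n a ⟨x, z, hx, hz, hxz⟩ hpg

/-- CASE N: nothing is reversed at a midpoint -/
theorem PzH.full4_N (h : S.PzH hc w O) (l : S.LvG hc w O) (hG : S.Gen4)
    (hdq : ∀ q u u', S.J q = {w} → S.Dia w u q → S.Dia w u' q → u ≠ u' → ∀ g : H, g • q = q →
      (∀ b, S.K.ar q b → g • b = b) → ∃ v, S.D.G.Adj w v ∧ g • v = v)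
    (hN : ∀ (u w1 w2 : S.X) (g : H), (∀ k : H, k • w ≠ u) → S.Mp w1 u w2 → g • u = u →
      g • w1 = w2 → g • w2 = w1 → ¬ S.CFe g) {φ : H2m H}
    (hφ : res2 (stabilizer H w) φ ∈ (S.kf hc w O).P4) : φ ∈ S.K.P4 :=
  h.full4 l hG hφ hdq (fun u w1 w2 g hb m h1 h2 h3 h4 => absurd h4 (hN u w1 w2 g hb m h1 h2 h3))

/-- CASE F: the character kills the stabiliser of the midpoint `u` -/
theorem PzH.full4_F (h : S.PzH hc w O) (l : S.LvG hc w O) (hG : S.Gen4)
    (hdq : ∀ q u u', S.J q = {w} → S.Dia w u q → S.Dia w u' q → u ≠ u' → ∀ g : H, g • q = q →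
      (∀ b, S.K.ar q b → g • b = b) → ∃ v, S.D.G.Adj w v ∧ g • v = v) {u : S.X}
    (hor : ∀ v : S.X, (∀ k : H, k • w ≠ v) → ∃ k : H, k • u = v)
    {φ : H2m H} (hφ : res2 (stabilizer H w) φ ∈ (S.kf hc w O).P4)
    (hU : ∀ g : H, g • u = u → φ (Additive.ofMul g) = 0) : φ ∈ S.K.P4 := by
  refine h.full4 l hG hφ hdq (fun v w1 w2 g hb m h1 _ _ _ => ?_)
  obtain ⟨k, rfl⟩ := hor v hb
  rw [← h2_conj φ k⁻¹ g]
  apply hU
  rw [inv_inv, mul_smul, mul_smul, h1, inv_smul_smul]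

end SyQ

end Pool.Agent.DI
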