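import Pool.Agent.DI.QK0P
import Pool.Agent.DI.QFd
import Pool.Agent.DI.Xt0

/-!
# DI/Geo4: the position of a listed square in the tree

`S.W4 x0 x1 x2 x3`: a closed walk of length four. `S.At4 x0 x1 x2 x3 p`: the four subtrees meet in `p`.
`S.Al x0 x1 x2 x3 p q`: `J x0` and `J x2` share the segment from `p` to `q`, `x1` sits at `p`, `x3` at `q`.
`S.Nd4 w x0 x1 x2 x3`: the square is seen at `w` (its image in the slice is not degenerate).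

For a top (`S.P.Top T a b y`): case 1 `S.Cas1 T a b y p q` (top and partner share the segment, `a` at `p`,
`b` at `q`), case 2 `S.Cas2 T a b y p q` (the sides share the segment, `T` at `p`, `y` at `q`), case 3
`S.Cas3 T a b y p` (one point).
-/

namespace Pool.Agent.DI

open MulAction
open Pool.Agent.SAF (InC orbs FinOrb oc Decomp SAn SA Conv hull dist_edge FinOrb_iff exists_next
  hull_conv)
open Pool.Agent.BT (PX PQ JS bey exits lz lz_self lz_ne lz_symm x_next_unique)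
open Pool.Agent.BT.TA

/-! ### segments of a tree -/

section Tree

variable {X : Type} {G : SimpleGraph X}

/-- the segment from `p` to `q` -/
def Sgm (G : SimpleGraph X) (p q : X) : Set X := {z | G.dist p z + G.dist z q = G.dist p q}

theorem Sgm.left (p q : X) : p ∈ Sgm G p q := by
  show G.dist p p + G.dist p q = G.dist p q
  rw [SimpleGraph.dist_self, zero_add]

theorem Sgm.right (p q : X) : q ∈ Sgm G p q := by
  show G.dist p q + G.dist q q = G.dist p q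
  rw [SimpleGraph.dist_self, add_zero]

theorem Sgm_symm (p q : X) : Sgm G p q = Sgm G q p := by
  ext z
  show G.dist p z + G.dist z q = G.dist p q ↔ G.dist q z + G.dist z p = G.dist q p
  rw [SimpleGraph.dist_comm (u := p) (v := z), SimpleGraph.dist_comm (u := z) (v := q),
    SimpleGraph.dist_comm (u := p) (v := q), add_comm]

theorem Sgm_sub {C : Set X} (hC : Conv G C) {p q : X} (hp : p ∈ C) (hq : q ∈ C) : Sgm G p q ⊆ C :=
  fun z hz => hC p hp q hq z hz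

theorem Sgm_self (hG : G.IsTree) {p z : X} (h : z ∈ Sgm G p p) : z = p := by
  have e : G.dist p z + G.dist z p = G.dist p p := h
  rw [SimpleGraph.dist_self] at e
  have : G.dist z p = 0 := by omega
  exact (hG.connected.dist_eq_zero_iff).1 this

theorem Sgm_conv (hG : G.IsTree) (p q : X) : Conv G (Sgm G p q) := by
  have e : Sgm G p q = hull G ({p, q} : Set X) := by
    ext z
    constructor
    · intro h
      exact ⟨p, Or.inl rfl, q, Or.inr rfl, h⟩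
    · rintro ⟨a, ha, b, hb, h⟩
      rcases ha with rfl | rfl <;> rcases hb with rfl | rfl
      · rw [Sgm_self hG h]
        exact Sgm.left _ _
      · exact h
      · rw [Sgm_symm]
        exact h
      · rw [Sgm_self hG h]
        exact Sgm.right _ _
  rw [e]
  exact hull_conv hG _

/-- the edge `w u` lies in the segment from `p` to `q`, `u` is nearer to `q` -/
def Bt (G : SimpleGraph X) (p q w u : X) : Prop := G.Adj w u ∧ p ∈ bey G u w ∧ q ∈ bey G w u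

theorem Bt.symm {p q w u : X} (h : Bt G p q w u) : Bt G q p u w := ⟨h.1.symm, h.2.2, h.2.1⟩

theorem Bt.cr (hG : G.IsTree) {C : Set X} (hC : Conv G C) {p q w u : X} (h : Bt G p q w u)
    (hp : p ∈ C) (hq : q ∈ C) : w ∈ C ∧ u ∈ C := conv_cr hG hC h.1 hp hq h.2.1 h.2.2

theorem Bt.mem (hG : G.IsTree) {p q w u : X} (h : Bt G p q w u) : w ∈ Sgm G p q ∧ u ∈ Sgm G p q :=
  h.cr hG (Sgm_conv hG p q) (Sgm.left _ _) (Sgm.right _ _)

/-- the next edge of the segment in the direction of `q` -/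
theorem exists_Bt (hG : G.IsTree) {p q w : X} (h : w ∈ Sgm G p q) (hne : w ≠ q) :
    ∃ u, Bt G p q w u := by
  obtain ⟨u, hu, e⟩ := exists_next hG hne
  have hq : q ∈ bey G w u := by
    show G.dist q w = G.dist q u + 1
    rw [SimpleGraph.dist_comm, e, SimpleGraph.dist_comm]
  refine ⟨u, hu, ?_, hq⟩
  rcases bey_or hG hu p with k | k
  · exfalso
    have k' : G.dist p w = G.dist p u + 1 := k
    have h' : G.dist p w + G.dist w q = G.dist p q := h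
    have t := hG.connected.dist_triangle (u := p) (v := u) (w := q)
    omega
  · exact k

/-- the next edge in the direction of `q` is unique -/
theorem Bt.unique (hG : G.IsTree) {p p' q w u u' : X} (h : Bt G p q w u) (h' : Bt G p' q w u') :
    u = u' := x_next_unique hG h.1 h'.1 h.2.2 h'.2.2

end Tree

section

variable {H V : Type} [Group H] [MulAction H V] (S : SyQ H V)

namespace SyQ

/-- a closed walk of length four -/
def W4 (x0 x1 x2 x3 : V) : Prop := S.K.E x0 x1 ∧ S.K.E x1 x2 ∧ S.K.E x2 x3 ∧ S.K.E x3 x0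

/-- the four subtrees meet in `p` -/
structure At4 (x0 x1 x2 x3 : V) (p : S.X) : Prop where
  p0 : p ∈ S.J x0
  p1 : p ∈ S.J x1
  p2 : p ∈ S.J x2
  p3 : p ∈ S.J x3

/-- `J x0`, `J x2` share the segment from `p` to `q`, `x1` sits at `p`, `x3` sits at `q` -/
structure Al (x0 x1 x2 x3 : V) (p q : S.X) : Prop where
  ne : p ≠ q
  p0 : p ∈ S.J x0
  p1 : p ∈ S.J x1
  p2 : p ∈ S.J x2
  q0 : q ∈ S.J x0
  q2 : q ∈ S.J x2
  q3 : q ∈ S.J x3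

/-- the square is seen at `w` -/
def Nd4 (w : S.X) (x0 x1 x2 x3 : V) : Prop :=
  S.rho w x0 ≠ S.rho w x2 ∧ S.rho w x1 ≠ S.rho w x3

/-- CASE 1: the top and the partner share the segment from `p` (side `a`) to `q` (side `b`) -/
def Cas1 (T a b y : V) (p q : S.X) : Prop := S.Al T a y b p q

/-- CASE 2: the sides share the segment from `p` (the top) to `q` (the partner) -/
def Cas2 (T a b y : V) (p q : S.X) : Prop := S.Al a T b y p q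

/-- CASE 3: one point -/
def Cas3 (T a b y : V) (p : S.X) : Prop := S.At4 a T b y p

variable {S}

theorem _root_.Pool.Agent.DI.Q4.w4 {a q b y : V} (h : Q4 S.P a q b y) : S.W4 a q b y :=
  ⟨h.E1, h.E2, h.E3, h.E4⟩

theorem W4.rot {x0 x1 x2 x3 : V} (h : S.W4 x0 x1 x2 x3) : S.W4 x1 x2 x3 x0 :=
  ⟨h.2.1, h.2.2.1, h.2.2.2, h.1⟩

theorem W4.rev {x0 x1 x2 x3 : V} (h : S.W4 x0 x1 x2 x3) : S.W4 x2 x1 x0 x3 :=
  ⟨h.2.1.symm, h.1.symm, h.2.2.2.symm, h.2.2.1.symm⟩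

theorem W4.smul (g : H) {x0 x1 x2 x3 : V} (h : S.W4 x0 x1 x2 x3) :
    S.W4 (g • x0) (g • x1) (g • x2) (g • x3) :=
  ⟨S.K.E_smul g h.1, S.K.E_smul g h.2.1, S.K.E_smul g h.2.2.1, S.K.E_smul g h.2.2.2⟩

/-! ### symmetries -/

theorem At4.rot {x0 x1 x2 x3 : V} {p : S.X} (h : S.At4 x0 x1 x2 x3 p) : S.At4 x1 x2 x3 x0 p :=
  ⟨h.p1, h.p2, h.p3, h.p0⟩

theorem At4.rev {x0 x1 x2 x3 : V} {p : S.X} (h : S.At4 x0 x1 x2 x3 p) : S.At4 x2 x1 x0 x3 p :=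
  ⟨h.p2, h.p1, h.p0, h.p3⟩

theorem At4.smul (g : H) {x0 x1 x2 x3 : V} {p : S.X} (h : S.At4 x0 x1 x2 x3 p) :
    S.At4 (g • x0) (g • x1) (g • x2) (g • x3) (g • p) :=
  ⟨S.js.smul g _ _ h.p0, S.js.smul g _ _ h.p1, S.js.smul g _ _ h.p2, S.js.smul g _ _ h.p3⟩

/-- reflection which fixes `x1` and `x3` -/
theorem Al.rev {x0 x1 x2 x3 : V} {p q : S.X} (h : S.Al x0 x1 x2 x3 p q) :
    S.Al x2 x1 x0 x3 p q := ⟨h.ne, h.p2, h.p1, h.p0, h.q2, h.q0, h.q3⟩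

/-- half turn -/
theorem Al.rot2 {x0 x1 x2 x3 : V} {p q : S.X} (h : S.Al x0 x1 x2 x3 p q) :
    S.Al x2 x3 x0 x1 q p := ⟨h.ne.symm, h.q2, h.q3, h.q0, h.p2, h.p0, h.p1⟩

/-- reflection which fixes `x0` and `x2` -/
theorem Al.flip {x0 x1 x2 x3 : V} {p q : S.X} (h : S.Al x0 x1 x2 x3 p q) :
    S.Al x0 x3 x2 x1 q p := h.rot2.rev

theorem Al.smul (g : H) {x0 x1 x2 x3 : V} {p q : S.X} (h : S.Al x0 x1 x2 x3 p q) :
    S.Al (g • x0) (g • x1) (g • x2) (g • x3) (g • p) (g • q) :=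
  ⟨fun e => h.ne (smul_left_cancel g e), S.js.smul g _ _ h.p0, S.js.smul g _ _ h.p1,
    S.js.smul g _ _ h.p2, S.js.smul g _ _ h.q0, S.js.smul g _ _ h.q2, S.js.smul g _ _ h.q3⟩

theorem Nd4.rot {w : S.X} {x0 x1 x2 x3 : V} (h : S.Nd4 w x0 x1 x2 x3) : S.Nd4 w x1 x2 x3 x0 :=
  ⟨h.2, h.1.symm⟩

theorem Nd4.rev {w : S.X} {x0 x1 x2 x3 : V} (h : S.Nd4 w x0 x1 x2 x3) : S.Nd4 w x2 x1 x0 x3 :=
  ⟨h.1.symm, h.2⟩

theorem Nd4.smul' (g : H) {w : S.X} {x0 x1 x2 x3 : V} (h : S.Nd4 w x0 x1 x2 x3) :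
    S.Nd4 (g • w) (g • x0) (g • x1) (g • x2) (g • x3) :=
  ⟨fun e => h.1 (S.rho_eq_smul g e), fun e => h.2 (S.rho_eq_smul g e)⟩

/-! ### where the four subtrees meet -/

/-- THE THREE CASES -/
theorem W4.pos {x0 x1 x2 x3 : V} (h : S.W4 x0 x1 x2 x3) :
    (∃ p q, S.Al x0 x1 x2 x3 p q) ∨ (∃ p q, S.Al x1 x2 x3 x0 p q) ∨ ∃ p, S.At4 x0 x1 x2 x3 p := by
  obtain ⟨e0, e1, e2, e3⟩ := h
  obtain ⟨p0, a0, a1⟩ := S.one_ex e0
  obtain ⟨p1, b1, b2⟩ := S.one_ex e1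
  obtain ⟨p2, c2, c3⟩ := S.one_ex e2
  obtain ⟨p3, d3, d0⟩ := S.one_ex e3
  -- opposite subtrees which meet
  have key : ∀ {y0 y1 y2 y3 : V}, S.K.E y0 y1 → S.K.E y1 y2 → S.K.E y2 y3 → S.K.E y3 y0 →
      (S.J y0 ∩ S.J y2).Nonempty → ∃ p q, p ∈ S.J y0 ∧ p ∈ S.J y1 ∧ p ∈ S.J y2 ∧ q ∈ S.J y0 ∧
        q ∈ S.J y2 ∧ q ∈ S.J y3 := by
    intro y0 y1 y2 y3 f0 f1 f2 f3 hn
    obtain ⟨r0, r01, r02⟩ := S.one_ex f0
    obtain ⟨r1, r11, r12⟩ := S.one_ex f1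
    obtain ⟨r2, r21, r22⟩ := S.one_ex f2
    obtain ⟨r3, r31, r32⟩ := S.one_ex f3
    obtain ⟨p, ⟨q1, q2⟩, q3⟩ := helly3 S.D.tree (S.js.conv y0) (S.js.conv y1) (S.js.conv y2)
      ⟨r0, r01, r02⟩ hn ⟨r1, r11, r12⟩
    obtain ⟨q, ⟨s1, s2⟩, s3⟩ := helly3 S.D.tree (S.js.conv y0) (S.js.conv y2) (S.js.conv y3)
      hn ⟨r3, r32, r31⟩ ⟨r2, r21, r22⟩
    exact ⟨p, q, q1, q2, q3, s1, s2, s3⟩
  -- one pair of opposite subtrees meets
  have hor : (S.J x0 ∩ S.J x2).Nonempty ∨ (S.J x1 ∩ S.J x3).Nonempty := by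
    have hU0 : Conv S.D.G (S.J x0 ∪ S.J x1) :=
      conv_union S.D.tree (S.js.conv _) (S.js.conv _) a0 a1
    have hU1 : Conv S.D.G (S.J x1 ∪ S.J x2) :=
      conv_union S.D.tree (S.js.conv _) (S.js.conv _) b1 b2
    have hU2 : Conv S.D.G (S.J x2 ∪ S.J x3) :=
      conv_union S.D.tree (S.js.conv _) (S.js.conv _) c2 c3
    have hU3 : Conv S.D.G (S.J x3 ∪ S.J x0) :=
      conv_union S.D.tree (S.js.conv _) (S.js.conv _) d3 d0
    obtain ⟨m, ⟨⟨m0, m1⟩, m2⟩, m3⟩ := helly4 S.D.tree hU0 hU1 hU2 hU3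
      ⟨p0, Or.inr a1, Or.inl a1⟩ ⟨p1, Or.inr b1, Or.inl b2⟩ ⟨p1, Or.inr b2, Or.inl b2⟩
      ⟨p0, Or.inl a0, Or.inr a0⟩ ⟨p0, Or.inl a1, Or.inr a0⟩ ⟨p2, Or.inr c3, Or.inl c3⟩
    by_cases h0 : m ∈ S.J x0
    · by_cases h2 : m ∈ S.J x2
      · exact Or.inl ⟨m, h0, h2⟩
      · exact Or.inr ⟨m, m1.resolve_right h2, m2.resolve_left h2⟩
    · exact Or.inr ⟨m, m0.resolve_left h0, m3.resolve_right h0⟩
  rcases hor with hn | hn
  · obtain ⟨p, q, h1, h2, h3, h4, h5, h6⟩ := key e0 e1 e2 e3 hn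
    by_cases hpq : p = q
    · subst hpq
      exact Or.inr (Or.inr ⟨p, h1, h2, h3, h6⟩)
    · exact Or.inl ⟨p, q, hpq, h1, h2, h3, h4, h5, h6⟩
  · obtain ⟨p, q, h1, h2, h3, h4, h5, h6⟩ := key e1 e2 e3 e0 hn
    by_cases hpq : p = q
    · subst hpq
      exact Or.inr (Or.inr ⟨p, h6, h1, h2, h3⟩)
    · exact Or.inr (Or.inl ⟨p, q, hpq, h1, h2, h3, h4, h5, h6⟩)

/-! ### uniqueness -/

theorem At4.unique {x0 x1 x2 x3 : V} (e : S.K.E x0 x1) {p q : S.X} (h : S.At4 x0 x1 x2 x3 p)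
    (h' : S.At4 x0 x1 x2 x3 q) : p = q := S.one_eq e h.p0 h.p1 h'.p0 h'.p1

theorem Al.unique {x0 x1 x2 x3 : V} (h4 : S.W4 x0 x1 x2 x3) {p q p' q' : S.X}
    (h : S.Al x0 x1 x2 x3 p q) (h' : S.Al x0 x1 x2 x3 p' q') : p = p' ∧ q = q' :=
  ⟨S.one_eq h4.1 h.p0 h.p1 h'.p0 h'.p1, S.one_eq h4.2.2.1 h.q2 h.q3 h'.q2 h'.q3⟩

theorem Al.not_rot {x0 x1 x2 x3 : V} (h4 : S.W4 x0 x1 x2 x3) {p q p' q' : S.X}
    (h : S.Al x0 x1 x2 x3 p q) : ¬ S.Al x1 x2 x3 x0 p' q' := by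
  intro h'
  have e1 : p = p' := S.one_eq h4.2.1 h.p1 h.p2 h'.p0 h'.p1
  have e2 : q = p' := S.one_eq h4.2.2.1 h.q2 h.q3 h'.p1 h'.p2
  exact h.ne (e1.trans e2.symm)

theorem Al.not_at {x0 x1 x2 x3 : V} (h4 : S.W4 x0 x1 x2 x3) {p q r : S.X}
    (h : S.Al x0 x1 x2 x3 p q) : ¬ S.At4 x0 x1 x2 x3 r := by
  intro h'
  have e1 : p = r := S.one_eq h4.2.1 h.p1 h.p2 h'.p1 h'.p2
  have e2 : q = r := S.one_eq h4.2.2.1 h.q2 h.q3 h'.p2 h'.p3
  exact h.ne (e1.trans e2.symm)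

/-- `x3` does not reach `p` -/
theorem Al.n3 {x0 x1 x2 x3 : V} (h4 : S.W4 x0 x1 x2 x3) {p q : S.X}
    (h : S.Al x0 x1 x2 x3 p q) {r : S.X} (hr : r ∈ Sgm S.D.G p q) (hne : r ≠ q) :
    r ∉ S.J x3 := fun k => hne (S.one_eq h4.2.2.1
      (Sgm_sub (S.js.conv x2) h.p2 h.q2 hr) k h.q2 h.q3)

theorem Al.n1 {x0 x1 x2 x3 : V} (h4 : S.W4 x0 x1 x2 x3) {p q : S.X}
    (h : S.Al x0 x1 x2 x3 p q) {r : S.X} (hr : r ∈ Sgm S.D.G p q) (hne : r ≠ p) :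
    r ∉ S.J x1 := fun k => hne (S.one_eq h4.1
      (Sgm_sub (S.js.conv x0) h.p0 h.q0 hr) k h.p0 h.p1)

theorem Al.m0 {x0 x1 x2 x3 : V} {p q : S.X} (h : S.Al x0 x1 x2 x3 p q) {r : S.X}
    (hr : r ∈ Sgm S.D.G p q) : r ∈ S.J x0 := Sgm_sub (S.js.conv x0) h.p0 h.q0 hr

theorem Al.m2 {x0 x1 x2 x3 : V} {p q : S.X} (h : S.Al x0 x1 x2 x3 p q) {r : S.X}
    (hr : r ∈ Sgm S.D.G p q) : r ∈ S.J x2 := Sgm_sub (S.js.conv x2) h.p2 h.q2 hr

/-- the opposite subtrees `J x1` and `J x3` are disjoint -/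
theorem Al.disj {x0 x1 x2 x3 : V} (h4 : S.W4 x0 x1 x2 x3) {p q : S.X}
    (h : S.Al x0 x1 x2 x3 p q) {r : S.X} (h1 : r ∈ S.J x1) (h3 : r ∈ S.J x3) : False := by
  -- otherwise all four meet
  obtain ⟨m, ⟨m1, m2⟩, m3⟩ := helly3 S.D.tree (S.js.conv x1) (S.js.conv x2) (S.js.conv x3)
    ⟨p, h.p1, h.p2⟩ ⟨r, h1, h3⟩ ⟨q, h.q2, h.q3⟩
  have e1 : p = m := S.one_eq h4.2.1 h.p1 h.p2 m1 m2
  have e2 : q = m := S.one_eq h4.2.2.1 h.q2 h.q3 m2 m3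
  exact h.ne (e1.trans e2.symm)

/-! ### edges of the segment -/

/-- both `x0` and `x2` cross the edges of the segment -/
theorem Al.cs0 {x0 x1 x2 x3 : V} {p q w u : S.X} (h : S.Al x0 x1 x2 x3 p q)
    (b : Bt S.D.G p q w u) : S.Cs w u x0 := b.cr S.D.tree (S.js.conv _) h.p0 h.q0

theorem Al.cs2 {x0 x1 x2 x3 : V} {p q w u : S.X} (h : S.Al x0 x1 x2 x3 p q)
    (b : Bt S.D.G p q w u) : S.Cs w u x2 := b.cr S.D.tree (S.js.conv _) h.p2 h.q2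

/-- `x1` is on the side of `p` -/
theorem Al.s1 {x0 x1 x2 x3 : V} (h4 : S.W4 x0 x1 x2 x3) {p q w u : S.X}
    (h : S.Al x0 x1 x2 x3 p q) (b : Bt S.D.G p q w u) : S.J x1 ⊆ bey S.D.G u w :=
  S.side_of b.1.symm (fun k => S.adj_nc b.1 h4.1 (h.cs0 b) k.swap) h.p1 b.2.1

/-- `x3` is on the side of `q` -/
theorem Al.s3 {x0 x1 x2 x3 : V} (h4 : S.W4 x0 x1 x2 x3) {p q w u : S.X}
    (h : S.Al x0 x1 x2 x3 p q) (b : Bt S.D.G p q w u) : S.J x3 ⊆ bey S.D.G w u :=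
  S.side_of b.1 (fun k => S.adj_nc b.1 h4.2.2.1 (h.cs2 b) k) h.q3 b.2.2

/-- the zero square at the end nearer to `p` of an edge of the segment -/
theorem Al.qs {x0 x1 x2 x3 : V} {p q w u : S.X} (h : S.Al x0 x1 x2 x3 p q)
    (hq : Q4 S.P x0 x1 x2 x3) (b : Bt S.D.G p q w u) : S.Qs w u x1 x0 x2 :=
  ⟨b.1, h.cs0 b, h.cs2 b, h.s1 hq.w4 b, Or.inr ⟨x3, hq, h.s3 hq.w4 b⟩⟩

/-- the zero square at the end nearer to `q` of an edge of the segment -/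
theorem Al.qs' {x0 x1 x2 x3 : V} {p q w u : S.X} (h : S.Al x0 x1 x2 x3 p q)
    (hq : Q4 S.P x0 x1 x2 x3) (b : Bt S.D.G p q w u) : S.Qs u w x3 x0 x2 :=
  h.flip.qs hq.rot.rot.symm b.symm

/-- a square which crosses an edge with `x1` on the side of `w` -/
theorem W4.al_of {x0 x1 x2 x3 : V} (h4 : S.W4 x0 x1 x2 x3) {w u : S.X} (hu : S.D.G.Adj w u)
    (c0 : S.Cs w u x0) (c2 : S.Cs w u x2) (h1 : S.J x1 ⊆ bey S.D.G u w)
    (h3 : S.J x3 ⊆ bey S.D.G w u) : ∃ p q, S.Al x0 x1 x2 x3 p q ∧ Bt S.D.G p q w u := by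
  obtain ⟨r0, r01, r02⟩ := S.one_ex h4.1
  obtain ⟨r1, r11, r12⟩ := S.one_ex h4.2.1
  obtain ⟨r2, r21, r22⟩ := S.one_ex h4.2.2.1
  obtain ⟨r3, r31, r32⟩ := S.one_ex h4.2.2.2
  obtain ⟨p, ⟨q1, q2⟩, q3⟩ := helly3 S.D.tree (S.js.conv x0) (S.js.conv x1) (S.js.conv x2)
    ⟨r0, r01, r02⟩ ⟨w, c0.1, c2.1⟩ ⟨r1, r11, r12⟩
  obtain ⟨q, ⟨s1, s2⟩, s3⟩ := helly3 S.D.tree (S.js.conv x0) (S.js.conv x2) (S.js.conv x3)
    ⟨w, c0.1, c2.1⟩ ⟨r3, r32, r31⟩ ⟨r2, r21, r22⟩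
  have hp := h1 q2
  have hq := h3 s3
  refine ⟨p, q, ⟨?_, q1, q2, q3, s1, s2, s3⟩, hu, hp, hq⟩
  rintro rfl
  exact bey_not hq hp

/-- two adjacent vertices of the tree over `x0` and `x2`: a segment or all on one side -/
theorem Qs.al {w u : S.X} {q x x' y : V} (hs : S.Qs w u q x x') (hq : Q4 S.P x q x' y)
    (hy : S.J y ⊆ bey S.D.G w u) : ∃ p p', S.Al x q x' y p p' ∧ Bt S.D.G p p' w u :=
  hq.w4.al_of hs.1 hs.2.1 hs.2.2.1 hs.2.2.2.1 hy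

/-! ### what is seen at `w` -/

/-- a walk whose points all lie beyond `w u` is degenerate at `w` -/
theorem nd4_of_bey {x0 x1 x2 x3 : V} (h4 : S.W4 x0 x1 x2 x3) {w u : S.X} (hu : S.D.G.Adj w u)
    (b0 : ∃ p, p ∈ S.J x0 ∧ p ∈ bey S.D.G w u) (b1 : ∃ p, p ∈ S.J x1 ∧ p ∈ bey S.D.G w u)
    (b2 : ∃ p, p ∈ S.J x2 ∧ p ∈ bey S.D.G w u) (b3 : ∃ p, p ∈ S.J x3 ∧ p ∈ bey S.D.G w u) :
    ¬ S.Nd4 w x0 x1 x2 x3 := by
  have hwu : w ∈ bey S.D.G u w := bey_self hu.symm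
  have cr : ∀ x, (∃ p, p ∈ S.J x ∧ p ∈ bey S.D.G w u) → w ∈ S.J x → S.Cs w u x := by
    rintro x ⟨p, hp, hb⟩ hk
    exact conv_cr S.D.tree (S.js.conv _) hu hk hp hwu hb
  have far : ∀ x, (∃ p, p ∈ S.J x ∧ p ∈ bey S.D.G w u) → w ∉ S.J x →
      S.rho w x = Sum.inr ⟨u, hu⟩ := by
    rintro x ⟨p, hp, hb⟩ hk
    exact S.rho_bey hu (S.side_of hu (fun c => hk c.1) hp hb)
  intro hw
  by_cases h0 : w ∈ S.J x0
  · have h1 : w ∉ S.J x1 := fun k => S.not_both hu h4.1 (cr _ b0 h0) (cr _ b1 k)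
    have h3 : w ∉ S.J x3 := fun k => S.not_both hu h4.2.2.2 (cr _ b3 k) (cr _ b0 h0)
    exact hw.2 ((far _ b1 h1).trans (far _ b3 h3).symm)
  · by_cases h2 : w ∈ S.J x2
    · have h1 : w ∉ S.J x1 := fun k => S.not_both hu h4.2.1 (cr _ b1 k) (cr _ b2 h2)
      have h3 : w ∉ S.J x3 := fun k => S.not_both hu h4.2.2.1 (cr _ b2 h2) (cr _ b3 k)
      exact hw.2 ((far _ b1 h1).trans (far _ b3 h3).symm)
    · exact hw.1 ((far _ b0 h0).trans (far _ b2 h2).symm)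

/-- CASE 3: the square is seen exactly at `p` -/
theorem At4.nd_iff {x0 x1 x2 x3 : V} (h4 : S.W4 x0 x1 x2 x3) {p : S.X}
    (h : S.At4 x0 x1 x2 x3 p) {w : S.X} :
    S.Nd4 w x0 x1 x2 x3 ↔ w = p ∧ x0 ≠ x2 ∧ x1 ≠ x3 := by
  constructor
  · intro hn
    refine ⟨?_, fun e => hn.1 (by rw [e]), fun e => hn.2 (by rw [e])⟩
    by_contra hne
    obtain ⟨u, hu, e⟩ := exists_next S.D.tree hne
    have hb : p ∈ bey S.D.G w u := by
      show S.D.G.dist p w = S.D.G.dist p u + 1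
      rw [SimpleGraph.dist_comm, e, SimpleGraph.dist_comm]
    exact nd4_of_bey h4 hu ⟨p, h.p0, hb⟩ ⟨p, h.p1, hb⟩ ⟨p, h.p2, hb⟩ ⟨p, h.p3, hb⟩ hn
  · rintro ⟨rfl, h02, h13⟩
    refine ⟨?_, ?_⟩
    · rw [S.rho_near h.p0, S.rho_near h.p2]
      exact fun e => h02 (congrArg Subtype.val (Sum.inl.inj e))
    · rw [S.rho_near h.p1, S.rho_near h.p3]
      exact fun e => h13 (congrArg Subtype.val (Sum.inl.inj e))

/-- the image of `x1` at a level different from `p`: the edge towards `p` -/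
theorem Al.rho1 {x0 x1 x2 x3 : V} (h4 : S.W4 x0 x1 x2 x3) {p q w u : S.X}
    (h : S.Al x0 x1 x2 x3 p q) (b : Bt S.D.G p q u w) :
    S.rho w x1 = Sum.inr ⟨u, b.1.symm⟩ := S.rho_bey b.1.symm (h.s1 h4 b)

/-- the image of `x3` at a level different from `q`: the edge towards `q` -/
theorem Al.rho3 {x0 x1 x2 x3 : V} (h4 : S.W4 x0 x1 x2 x3) {p q w u : S.X}
    (h : S.Al x0 x1 x2 x3 p q) (b : Bt S.D.G p q w u) :
    S.rho w x3 = Sum.inr ⟨u, b.1⟩ := S.rho_bey b.1 (h.s3 h4 b)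

theorem Al.rho0 {x0 x1 x2 x3 : V} {p q w : S.X} (h : S.Al x0 x1 x2 x3 p q)
    (hw : w ∈ Sgm S.D.G p q) : S.rho w x0 = Sum.inl ⟨x0, h.m0 hw⟩ := S.rho_near (h.m0 hw)

theorem Al.rho2 {x0 x1 x2 x3 : V} {p q w : S.X} (h : S.Al x0 x1 x2 x3 p q)
    (hw : w ∈ Sgm S.D.G p q) : S.rho w x2 = Sum.inl ⟨x2, h.m2 hw⟩ := S.rho_near (h.m2 hw)

/-- CASES 1, 2: the square is seen exactly at the points of the segment -/
theorem Al.nd_iff {x0 x1 x2 x3 : V} (h4 : S.W4 x0 x1 x2 x3) {p q : S.X}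
    (h : S.Al x0 x1 x2 x3 p q) {w : S.X} :
    S.Nd4 w x0 x1 x2 x3 ↔ w ∈ Sgm S.D.G p q ∧ x0 ≠ x2 := by
  constructor
  · intro hn
    refine ⟨?_, fun e => hn.1 (by rw [e])⟩
    by_contra hcon
    have hne : w ≠ p := by
      rintro rfl
      exact hcon (Sgm.left _ _)
    obtain ⟨u, hu, e⟩ := exists_next S.D.tree hne
    have hb : p ∈ bey S.D.G w u := by
      show S.D.G.dist p w = S.D.G.dist p u + 1
      rw [SimpleGraph.dist_comm, e, SimpleGraph.dist_comm]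
    have hb' : q ∈ bey S.D.G w u := by
      rcases bey_or S.D.tree hu q with k | k
      · exact k
      · exact absurd (conv_cr S.D.tree (Sgm_conv S.D.tree p q) hu (Sgm.right _ _) (Sgm.left _ _)
          k hb).1 hcon
    exact nd4_of_bey h4 hu ⟨p, h.p0, hb⟩ ⟨p, h.p1, hb⟩ ⟨p, h.p2, hb⟩ ⟨q, h.q3, hb'⟩ hn
  · rintro ⟨hw, h02⟩
    refine ⟨?_, ?_⟩
    · rw [h.rho0 hw, h.rho2 hw]
      exact fun e => h02 (congrArg Subtype.val (Sum.inl.inj e))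
    · by_cases hp : w = p
      · subst hp
        obtain ⟨u, b⟩ := exists_Bt S.D.tree hw h.ne
        rw [h.rho3 h4 b, S.rho_near h.p1]
        intro e
        cases e
      · have hw' : w ∈ Sgm S.D.G q p := by
          rw [Sgm_symm]
          exact hw
        obtain ⟨u, b⟩ := exists_Bt S.D.tree hw' hp
        rw [h.rho1 h4 b.symm]
        by_cases hq : w = q
        · subst hq
          rw [S.rho_near h.q3]
          intro e
          cases e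
        · obtain ⟨u', b'⟩ := exists_Bt S.D.tree hw hq
          rw [h.rho3 h4 b']
          intro e
          have e' : u = u' := congrArg Subtype.val (Sum.inr.inj e)
          subst e'
          exact bey_not b.2.1 b'.2.2

end SyQ

end

end Pool.Agent.DI
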