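import Pool.Agent.DI.XtB
import Pool.Agent.DI.Nr
import Pool.Agent.DI.QNe

/-!
# Squares and zero squares of `K` as listed squares of the raw slice and of the folded slice

`Q4.k0q`: a square of `K` which is not degenerate at `w` is a square of `k0P`. `Qs.k0`: a zero square
`x, q, x', t_u` is a square of `k0P`. `Q4.kfq`: a square of `k0P` which is not degenerate in the folded
slice is a square of `kfP`. `kfP_Q4`: all squares of `kfP` are of this kind.
`fq_loc`: a vertex over `w` which crosses no edge is alone in its class.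
-/

namespace Pool.Agent.DI

open MulAction
open Pool.Agent.SAF (InC orbs FinOrb oc Decomp SAn SA Conv hull dist_edge FinOrb_iff exists_next
  mk_eq_iff oc_mono oc_le_of_inj oc_le_of_rel oc_le_of_surj)
open Pool.Agent.BT (PX PQ JS bey exits lz lz_self lz_ne lz_symm x_next_unique)
open Pool.Agent.BT.TA

/-- the same vertices, a translate, a rotation or a reflection -/
theorem Q4.of_qt {H V : Type} [Group H] [MulAction H V] {K : GX H V} {P : P45 K} {i : K.I}
    (hi : P.sq i) (g : H) (j : Fin 4) {a q b y : V}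
    (h : (a = g • P.qt i j ∧ q = g • P.qt i (j + 1) ∧ b = g • P.qt i (j + 2) ∧
      y = g • P.qt i (j + 3)) ∨ (b = g • P.qt i j ∧ q = g • P.qt i (j + 1) ∧
      a = g • P.qt i (j + 2) ∧ y = g • P.qt i (j + 3))) : Q4 P a q b y := ⟨g, i, j, hi, h⟩

namespace SyQ

variable {H V : Type} [Group H] [MulAction H V] {S : SyQ H V}

/-! ### squares of the raw slice -/

/-- a square of `K` which is not degenerate at `w` -/
theorem _root_.Pool.Agent.DI.Q4.k0q (hc : S.Conn) {w : S.X} {a q b y : V} (h : Q4 S.P a q b y)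
    (h1 : S.rho w a ≠ S.rho w b) (h2 : S.rho w q ≠ S.rho w y) :
    Q4 (S.k0P hc w) (S.rho w a) (S.rho w q) (S.rho w b) (S.rho w y) := by
  obtain ⟨g, i, j, hi, h⟩ := h
  have hn : S.ND w (S.tq g i) := by
    have key : ∀ j : Fin 4, S.rho w (S.tq g i j) ≠ S.rho w (S.tq g i (j + 2)) →
        S.rho w (S.tq g i (j + 1)) ≠ S.rho w (S.tq g i (j + 3)) → S.ND w (S.tq g i) := by
      intro j k1 k2
      fin_cases j
      · exact ⟨k1, k2⟩
      · exact ⟨k2.symm, k1⟩
      · exact ⟨k1.symm, k2.symm⟩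
      · exact ⟨k2, k1.symm⟩
    apply key j
    · rcases h with ⟨e1, -, e2, -⟩ | ⟨e1, -, e2, -⟩
      · rw [e1, e2] at h1
        exact h1
      · rw [e1, e2] at h1
        exact h1.symm
    · rcases h with ⟨-, e1, -, e2⟩ | ⟨-, e1, -, e2⟩
      · rw [e1, e2] at h2
        exact h2
      · rw [e1, e2] at h2
        exact h2
  obtain ⟨p, l, rfl, rfl⟩ := exists_e4q hi hn
  have key : ∀ k : Fin 4, S.rho w ((l.1 * p.g) • S.P.qt p.1.1 k) =
      l • (S.k0P hc w).qt (Sum.inr (Sum.inr p)) k := by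
    intro k
    show S.rho w (S.tq (l.1 * p.g) p.1.1 k) = l • S.rho w (S.tq p.g p.1.1 k)
    rw [l_rhoq]
  refine Q4.of_qt (P := S.k0P hc w) ⟨Sum.inr p, rfl⟩ l j ?_
  rcases h with ⟨rfl, rfl, rfl, rfl⟩ | ⟨rfl, rfl, rfl, rfl⟩
  · exact Or.inl ⟨key _, key _, key _, key _⟩
  · exact Or.inr ⟨key _, key _, key _, key _⟩

theorem rho_ne_of_ne {w : S.X} {x x' : V} (h : w ∈ S.J x) (hne : x ≠ x') :
    S.rho w x ≠ S.rho w x' := by
  intro e
  rcases S.rho_eq_iff.1 e with e | ⟨e, -⟩
  · exact hne e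
  · exact e h

/-- a zero square of a pentagon is a listed square of the raw slice -/
theorem Sq.k0 (hc : S.Conn) {w u : S.X} {a q b y z : V} (h : Qn S.P a q b y z)
    (hs : S.Sq w u a q b y z) :
    Q4 (S.k0P hc w) (S.rho w a) (S.rho w q) (S.rho w b) (Sum.inr ⟨u, hs.1⟩) := by
  have key : ∀ (g : H) (i : S.K.I) (j : Fin 5), ¬ S.P.sq i →
      ∀ hs : S.Sq w u (S.tr g i j) (S.tr g i (j + 1)) (S.tr g i (j + 2)) (S.tr g i (j + 3))
        (S.tr g i (j + 4)), Q4 (S.k0P hc w) (S.rho w (S.tr g i j)) (S.rho w (S.tr g i (j + 1)))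
        (S.rho w (S.tr g i (j + 2))) (Sum.inr ⟨u, hs.1⟩) := by
    intro g i j hi hs
    obtain ⟨p, l, rfl, rfl, rfl⟩ := exists_e4 hi hs
    have h3 := (rho34 hs).1
    have e := l_rho (S := S) l p.g p.1.1
    refine Q4.of_qt (P := S.k0P hc w) (i := Sum.inr (Sum.inl p)) ⟨Sum.inl p, rfl⟩ l 0 (Or.inl ?_)
    refine ⟨(e _).symm, (e _).symm, (e _).symm, ?_⟩
    rw [← h3]
    exact (e _).symm
  obtain ⟨g, i, j, hi, ⟨rfl, rfl, rfl, rfl, rfl⟩ | ⟨rfl, rfl, rfl, rfl, rfl⟩⟩ := h
  · exact key g i j hi hs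
  · have hs' : S.Sq w u (S.tr g i j) (S.tr g i (j + 1)) (S.tr g i (j + 2)) (S.tr g i (j + 3))
        (S.tr g i (j + 4)) := ⟨hs.1, hs.2.2.1, hs.2.1, hs.2.2.2.1, hs.2.2.2.2.2, hs.2.2.2.2.1⟩
    exact (key g i j hi hs').symm

/-- a zero square is a listed square of the raw slice -/
theorem Qs.k0 (hc : S.Conn) {w u : S.X} {q x x' : V} (h : S.Qs w u q x x') (hne : x ≠ x') :
    Q4 (S.k0P hc w) (S.rho w x) (S.rho w q) (S.rho w x') (Sum.inr ⟨u, h.adj⟩) := by
  have hn : S.J q ⊆ bey S.D.G u w := h.near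
  rcases h.2.2.2.2 with ⟨y, z, k, s1, s2⟩ | ⟨y, k, s⟩
  · exact Sq.k0 hc k ⟨h.adj, h.l, h.r, hn, s1, s2⟩
  · have hy := S.rho_bey h.adj s
    have h1 : S.rho w x ≠ S.rho w x' := rho_ne_of_ne h.l.1 hne
    have h2 : S.rho w q ≠ S.rho w y := by
      rw [hy]
      intro e
      have h3 := rho_inr e
      obtain ⟨p, hp⟩ := S.js.ne q
      exact bey_not (hn hp) (h3 hp)
    have := k.k0q hc h1 h2
    rwa [hy] at this

/-! ### squares of the folded slice -/

section

variable {hc : S.Conn} {w : S.X} {O : S.OR w} {hm : (S.k0 hc w).Min} {hn : S.SqN w O}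

/-- a square of the raw slice which is not degenerate in the folded slice -/
theorem _root_.Pool.Agent.DI.Q4.kfq {a q b y : S.SV w} (h : Q4 (S.k0P hc w) a q b y)
    (h1 : S.fq w O a ≠ S.fq w O b) (h2 : S.fq w O q ≠ S.fq w O y) :
    Q4 (S.kfP hc w O hm hn) (S.fq w O a) (S.fq w O q) (S.fq w O b) (S.fq w O y) := by
  obtain ⟨g, i, j, ⟨p, rfl⟩, h⟩ := h
  have cancel : ∀ {x z : S.SV w}, S.fq w O (g • x) ≠ S.fq w O (g • z) →
      S.fq w O x ≠ S.fq w O z := by
    intro x z k e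
    apply k
    rw [fq_smul, fq_smul, e]
  have hk : S.kept w O p := by
    have key : ∀ j : Fin 4, S.fq w O (S.vq w p j) ≠ S.fq w O (S.vq w p (j + 2)) →
        S.fq w O (S.vq w p (j + 1)) ≠ S.fq w O (S.vq w p (j + 3)) → S.kept w O p := by
      intro j k1 k2
      fin_cases j
      · exact ⟨k1, k2⟩
      · exact ⟨k2.symm, k1⟩
      · exact ⟨k1.symm, k2.symm⟩
      · exact ⟨k2, k1.symm⟩
    simp only [S.k0P_qt] at h
    apply key j
    · rcases h with ⟨e1, -, e2, -⟩ | ⟨e1, -, e2, -⟩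
      · rw [e1, e2] at h1
        exact cancel h1
      · rw [e1, e2] at h1
        exact (cancel h1).symm
    · rcases h with ⟨-, e1, -, e2⟩ | ⟨-, e1, -, e2⟩
      · rw [e1, e2] at h2
        exact cancel h2
      · rw [e1, e2] at h2
        exact cancel h2
  refine Q4.of_qt (P := S.kfP hc w O hm hn) (i := Sum.inr ⟨p, hk⟩) ⟨p, rfl⟩ g j ?_
  have key : ∀ k : Fin 4, S.fq w O (g • (S.k0P hc w).qt (Sum.inr p) k) =
      g • (S.kfP hc w O hm hn).qt (Sum.inr ⟨p, hk⟩) k := fun k => fq_smul g _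
  rcases h with ⟨rfl, rfl, rfl, rfl⟩ | ⟨rfl, rfl, rfl, rfl⟩
  · exact Or.inl ⟨key _, key _, key _, key _⟩
  · exact Or.inr ⟨key _, key _, key _, key _⟩

/-- the squares of the folded slice -/
theorem kfP_Q4 {a q b y : S.Q w O} (h : Q4 (S.kfP hc w O hm hn) a q b y) :
    ∃ a' q' b' y', Q4 (S.k0P hc w) a' q' b' y' ∧ S.fq w O a' = a ∧ S.fq w O q' = q ∧
      S.fq w O b' = b ∧ S.fq w O y' = y := by
  obtain ⟨g, i, j, hi, h⟩ := h
  rcases i with i | ⟨p, hk⟩
  · obtain ⟨p, h⟩ := hi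
    cases h
  · have key : ∀ k : Fin 4, S.fq w O (g • (S.k0P hc w).qt (Sum.inr p) k) =
        g • (S.kfP hc w O hm hn).qt (Sum.inr ⟨p, hk⟩) k := fun k => fq_smul g _
    have q0 := Q4_qt (P := S.k0P hc w) g (i := Sum.inr p) ⟨p, rfl⟩ j
    rcases h with ⟨rfl, rfl, rfl, rfl⟩ | ⟨rfl, rfl, rfl, rfl⟩
    · exact ⟨_, _, _, _, q0, key _, key _, key _, key _⟩
    · exact ⟨_, _, _, _, q0.symm, key _, key _, key _, key _⟩

end

/-! ### vertices which cross no edge -/

/-- a vertex over `w` with two poles over `w` crosses no edge -/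
theorem loc_of_ar {w : S.X} {T a b : V} (ta : S.K.ar T a) (tb : S.K.ar T b) (ne : a ≠ b)
    (wT : w ∈ S.J T) (wa : w ∈ S.J a) (wb : w ∈ S.J b) {u : S.X} (hu : S.D.G.Adj w u) :
    u ∉ S.J T := by
  intro h
  exact ne (ar_ar_eq wT ta wa tb wb hu h)

/-- it sits at one point -/
theorem one_of_loc {w : S.X} {T : V} (wT : w ∈ S.J T) (h : ∀ u, S.D.G.Adj w u → u ∉ S.J T)
    {p : S.X} (hp : p ∈ S.J T) : p = w := by
  by_contra hne
  obtain ⟨u, hu, e⟩ := exists_next S.D.tree (Ne.symm hne)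
  have hb : p ∈ bey S.D.G w u := by
    show S.D.G.dist p w = S.D.G.dist p u + 1
    rw [SimpleGraph.dist_comm, e, SimpleGraph.dist_comm]
  exact h u hu (conv_cr S.D.tree (S.js.conv T) hu wT hp (bey_self hu.symm) hb).2

/-- a vertex over `w` which crosses no edge and is not folded is alone in its class -/
theorem fq_loc {w : S.X} {O : S.OR w} {x : S.NV w} (hl : ∀ u, S.D.G.Adj w u → u ∉ S.J x.1)
    (hs : ∀ u, ¬ S.Sk w O u (Sum.inl x)) {b : S.SV w} (hb : S.fq w O b = S.fq w O (Sum.inl x)) :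
    b = Sum.inl x := by
  have key : ∀ a b, S.FR w O a b → (a = Sum.inl x ↔ b = Sum.inl x) := by
    intro a b k
    cases k with
    | mer u q y y' k1 k2 =>
      constructor
      · intro e
        have e' := Sum.inl.inj e
        have := k1.l.2
        rw [e'] at this
        exact absurd this (hl u k1.adj)
      · intro e
        have e' := Sum.inl.inj e
        have := k1.r.2
        rw [e'] at this
        exact absurd this (hl u k1.adj)
    | par u q y y' k1 k2 =>
      constructor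
      · intro e
        have e' := Sum.inl.inj e
        have := k1.l.2
        rw [e'] at this
        exact absurd this (hl u k1.adj)
      · intro e
        have e' := Sum.inl.inj e
        have := k1.r.2
        rw [e'] at this
        exact absurd this (hl u k1.adj)
    | dia q u k k' =>
      constructor
      · intro e
        rw [← e] at hs
        exact absurd (Sk.inl.2 ⟨k, k'⟩) (hs u)
      · intro e
        cases e
  have kb := fq_eq.1 hb
  have : ∀ a b, Relation.EqvGen (S.FR w O) a b → (a = Sum.inl x ↔ b = Sum.inl x) := by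
    intro a b k
    induction k with
    | rel a b k => exact key a b k
    | refl a => exact Iff.rfl
    | symm a b _ ih => exact ih.symm
    | trans a b c _ _ i1 i2 => exact i1.trans i2
  exact (this _ _ kb).2 rfl

/-- an arrow of a terminal vertex -/
theorem arQ_of {w : S.X} {O : S.OR w} {x : S.NV w} (hs : ∀ u, ¬ S.Sk w O u (Sum.inl x))
    (ht : ∀ y, ¬ S.Dn w O x.1 y) {y : S.SV w} (e : S.SAr w (Sum.inl x) y) :
    S.arQ w O (S.fq w O (Sum.inl x)) (S.fq w O y) := by
  have h := arQ_term (S := S) (w := w) (O := O) x.2 hs ht (y := y)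
  rw [S.rho_near x.2] at h
  exact h e

/-- a vertex which crosses no edge is terminal -/
theorem Dn.not_loc {w : S.X} {O : S.OR w} {x : V} (hl : ∀ u, S.D.G.Adj w u → u ∉ S.J x) (y : V) :
    ¬ S.Dn w O x y := by
  rintro ⟨u, s, hu, hc, -⟩
  exact hl u hu hc.2

end SyQ

end Pool.Agent.DI
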