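import Pool.Agent.DI.Geo4F
import Pool.Agent.DI.LT0
import Pool.Agent.DI.ONf

/-!
# DI/Geo4C: THE CARRIER TABLE (old tops in the folded slice)

`h : S.P.Top T a b y`, `O : S.OR w` with `O.Nf`. The images in `S.kf hc w O`:
* `Cas1.kf` (case 1, `a → y`, at `p`): top `[T]`, sides `[a]`, `t_u`, partner `[y]`, with
  `[a] → [y] → t_u`: an upper arrow `([T], [a])`;
* `Cas2.kf` (case 2, at `p`): top `[T]`, sides `[a]`, `[b]`, partner `t_u`: diamond;
* `Cas2.kfG` (case 2, `a → y → b`, at `q`): top `[a]`, sides `[y]`, `t_u`, partner `[b]`,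
  `[y] → [b] → t_u`: an upper arrow `([a], [y])`;
* `Top.kfL` (a local square at `w`: case 3): top `[T]`, sides `[a]`, `[b]`, partner `[y]`.
-/

namespace Pool.Agent.DI

open MulAction
open Pool.Agent.SAF (InC orbs FinOrb oc Decomp SAn SA Conv hull dist_edge FinOrb_iff exists_next)
open Pool.Agent.BT (PX PQ JS bey exits lz lz_self lz_ne lz_symm x_next_unique)
open Pool.Agent.BT.TA

namespace SyQ

variable {H V : Type} [Group H] [MulAction H V] {S : SyQ H V}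

section tools

variable {w : S.X} {O : S.OR w}

/-- a vertex whose stars are open is not folded to a sink -/
theorem nsk_of_op {x : V} (hx : w ∈ S.J x) (h : ∀ u, S.D.G.Adj w u → O.op u x) (u : S.EV w) :
    ¬ S.Sk w O u (Sum.inl ⟨x, hx⟩) := by
  intro k
  exact (Sk.inl.1 k).2 (h u.1 u.2)

/-- a vertex which crosses an edge has no diamond -/
theorem not_dia_of_cs {x : V} {u : S.X} (hu : S.D.G.Adj w u) (c : S.Cs w u x) (v : S.X) :
    ¬ S.Dia w v x := fun k => k.not_cs hu c.2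

/-- a vertex which crosses an edge is an open hub -/
theorem OR.Nf.op_of_cs (hO : O.Nf) {x : V} {u : S.X} (hu : S.D.G.Adj w u) (c : S.Cs w u x)
    {v : S.X} (hv : S.D.G.Adj w v) : O.op v x :=
  hO.n1 x c.1 (not_dia_of_cs hu c) v hv

/-- a vertex with an open pole over `w` is terminal -/
theorem not_dn_of_op {x s : V} (e : S.K.ar x s) (hs : w ∈ S.J s)
    (h : ∀ u, S.D.G.Adj w u → O.op u s) (y : V) : ¬ S.Dn w O x y := by
  rintro ⟨u, s', hu, hc, h1, h2, h3, h4, h5⟩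
  obtain rfl : s' = s := ar_ar_eq hc.1 h1 h2 e hs hu hc.2
  exact h3.2 (h u hu)

/-- ranks: the ends of a path of two arrows are different -/
theorem fq_ne2 {A B C : S.SV w} (h1 : S.arQ w O (S.fq w O A) (S.fq w O B))
    (h2 : S.arQ w O (S.fq w O B) (S.fq w O C)) : S.fq w O A ≠ S.fq w O C := by
  intro e
  have k1 := arQ_rk h1
  have k2 := arQ_rk h2
  rw [e] at k1
  omega

/-- an open vertex is not in the class of a sink of an edge -/
theorem fq_ne_inr {x : V} (hx : w ∈ S.J x) (h : ∀ u, S.D.G.Adj w u → O.op u x) (u : S.EV w) :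
    S.fq w O (S.rho w x) ≠ S.fq w O (Sum.inr u) := by
  rw [S.rho_near hx]
  intro e
  exact nsk_of_op hx h u (fq_inr.1 e)

end tools

section main

variable {hc : S.Conn} {w : S.X} {O : S.OR w} {hm : (S.k0 hc w).Min} {hn : S.SqN w O}
  {T a b y : V}

/-- CASE 1 at `p`, arrows -/
theorem Cas1.arQ (hO : O.Nf) (h : S.P.Top T a b y) {q : S.X} (k : S.Cas1 T a b y w q)
    (e : S.K.ar a y) (ha : ∃ u, O.op u a) {u : S.X} (hb : Bt S.D.G w q w u) :
    S.arQ w O (S.fq w O (S.rho w T)) (S.fq w O (S.rho w a)) ∧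
      S.arQ w O (S.fq w O (S.rho w T)) (S.fq w O (Sum.inr ⟨u, hb.1⟩)) ∧
      S.arQ w O (S.fq w O (S.rho w a)) (S.fq w O (S.rho w y)) ∧
      S.arQ w O (S.fq w O (S.rho w y)) (S.fq w O (Sum.inr ⟨u, hb.1⟩)) := by
  obtain ⟨u0, hop⟩ := ha
  have opa : ∀ v, S.D.G.Adj w v → O.op v a := fun v hv => hO.n2 _ _ _ hop hv
  have cT : S.Cs w u T := Al.cs0 k hb
  have cy : S.Cs w u y := Al.cs2 k hb
  have opy : ∀ v, S.D.G.Adj w v → O.op v y := fun v hv => hO.op_of_cs hb.1 cy hv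
  refine ⟨?_, arQ_up hb.1 cT, ?_, arQ_up hb.1 cy⟩
  · exact arQ_term cT.1 (fun v => Sk.not_el hb.1 cT.2) (not_dn_of_op h.2.1 k.p1 opa)
      (sar_rho cT.1 h.2.1)
  · exact arQ_term k.p1 (nsk_of_op k.p1 opa) (not_dn_of_op e cy.1 opy) (sar_rho k.p1 e)

/-- CASE 1 at `p`: `[T]` is a gamma top over `[a]`, with partner `[y]` -/
theorem Cas1.kf (hO : O.Nf) (h : S.P.Top T a b y) {q : S.X} (k : S.Cas1 T a b y w q)
    (hTy : T ≠ y) (e : S.K.ar a y) (ha : ∃ u, O.op u a) :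
    ∃ (u : S.X) (hb : Bt S.D.G w q w u), S.rho w b = Sum.inr ⟨u, hb.1⟩ ∧
      (S.kfP hc w O hm hn).Top (S.fq w O (S.rho w T)) (S.fq w O (S.rho w a))
        (S.fq w O (Sum.inr ⟨u, hb.1⟩)) (S.fq w O (S.rho w y)) ∧
      (S.fq w O (S.rho w T), S.fq w O (S.rho w a)) ∈ (S.kfP hc w O hm hn).U := by
  obtain ⟨u, hb⟩ := exists_Bt S.D.tree (Sgm.left w q) k.ne
  obtain ⟨a1, a2, a3, a4⟩ := k.arQ hO h e ha hb
  have e1 : S.rho w b = Sum.inr ⟨u, hb.1⟩ := Al.rho3 h.w4' k hb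
  have hnd : S.Nd4 w a T b y := by
    have n := (Al.nd_iff h.w4' k).2 ⟨Sgm.left _ _, hTy⟩
    exact ⟨n.2, n.1⟩
  have h4 := Q4.k0 hc h.1 hnd
  have n1 : S.fq w O (S.rho w a) ≠ S.fq w O (S.rho w b) := by
    rw [e1]
    intro e'
    have k3 := fq_ne2 a3 a4
    exact k3 e'
  have n2 : S.fq w O (S.rho w T) ≠ S.fq w O (S.rho w y) := fq_ne2 a1 a3
  have h5 := h4.kfq (hm := hm) (hn := hn) n1 n2
  rw [e1] at h5
  have top : (S.kfP hc w O hm hn).Top (S.fq w O (S.rho w T)) (S.fq w O (S.rho w a))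
      (S.fq w O (Sum.inr ⟨u, hb.1⟩)) (S.fq w O (S.rho w y)) := ⟨h5, a1, a2⟩
  exact ⟨u, hb, e1, top, _, _, top, a3, a4⟩

/-- CASE 2 at `p`: `[T]` is a diamond top with partner `t_u` -/
theorem Cas2.kf (hO : O.Nf) (h : S.P.Top T a b y) {q : S.X} (k : S.Cas2 T a b y w q)
    (hab : a ≠ b) (hT : ∃ u, O.op u T) (hne : S.fq w O (S.rho w a) ≠ S.fq w O (S.rho w b)) :
    ∃ (u : S.X) (hb : Bt S.D.G w q w u), S.rho w y = Sum.inr ⟨u, hb.1⟩ ∧
      (S.kfP hc w O hm hn).Top (S.fq w O (S.rho w T)) (S.fq w O (S.rho w a))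
        (S.fq w O (S.rho w b)) (S.fq w O (Sum.inr ⟨u, hb.1⟩)) ∧
      (S.fq w O (S.rho w T), S.fq w O (S.rho w a)) ∈ (S.kfP hc w O hm hn).Dm ∧
      (S.fq w O (S.rho w T), S.fq w O (S.rho w b)) ∈ (S.kfP hc w O hm hn).Dm := by
  obtain ⟨u0, hop⟩ := hT
  obtain ⟨u, hb⟩ := exists_Bt S.D.tree (Sgm.left w q) k.ne
  have opT : ∀ v, S.D.G.Adj w v → O.op v T := fun v hv => hO.n2 _ _ _ hop hv
  have ca : S.Cs w u a := Al.cs0 k hb
  have cb : S.Cs w u b := Al.cs2 k hb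
  have e1 : S.rho w y = Sum.inr ⟨u, hb.1⟩ := Al.rho3 h.w4 k hb
  have hl : ∀ v, S.D.G.Adj w v → v ∉ S.J T :=
    fun v hv => poles_edge hab k.p1 h.2.1 h.2.2 ca.1 cb.1 hv
  have a1 : S.arQ w O (S.fq w O (S.rho w T)) (S.fq w O (S.rho w a)) :=
    arQ_term k.p1 (nsk_of_op k.p1 opT) (Dn.not_loc hl) (sar_rho k.p1 h.2.1)
  have a2 : S.arQ w O (S.fq w O (S.rho w T)) (S.fq w O (S.rho w b)) :=
    arQ_term k.p1 (nsk_of_op k.p1 opT) (Dn.not_loc hl) (sar_rho k.p1 h.2.2)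
  have hnd : S.Nd4 w a T b y := (Al.nd_iff h.w4 k).2 ⟨Sgm.left _ _, hab⟩
  have h4 := Q4.k0 hc h.1 hnd
  have n2 : S.fq w O (S.rho w T) ≠ S.fq w O (S.rho w y) := by
    rw [e1]
    exact fq_ne_inr k.p1 opT _
  have h5 := h4.kfq (hm := hm) (hn := hn) hne n2
  rw [e1] at h5
  have top : (S.kfP hc w O hm hn).Top (S.fq w O (S.rho w T)) (S.fq w O (S.rho w a))
      (S.fq w O (S.rho w b)) (S.fq w O (Sum.inr ⟨u, hb.1⟩)) := ⟨h5, a1, a2⟩
  have b1 := arQ_up (O := O) hb.1 ca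
  have b2 := arQ_up (O := O) hb.1 cb
  exact ⟨u, hb, e1, top, ⟨_, _, top, b1, b2⟩, ⟨_, _, top.symm', b2, b1⟩⟩

/-- CASE 2, `a → y → b`, at `q`: `[a]` is a gamma top over `[y]`, with partner `[b]` -/
theorem Cas2.kfG (hO : O.Nf) (h : S.P.Top T a b y) {p : S.X} (k : S.Cas2 T a b y p w)
    (hab : a ≠ b) (e : S.K.ar a y) (e' : S.K.ar y b) (hy : ∃ u, O.op u y) :
    ∃ (u : S.X) (hb : Bt S.D.G p w u w), S.rho w T = Sum.inr ⟨u, hb.1.symm⟩ ∧
      (S.kfP hc w O hm hn).Top (S.fq w O (S.rho w a)) (S.fq w O (S.rho w y))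
        (S.fq w O (Sum.inr ⟨u, hb.1.symm⟩)) (S.fq w O (S.rho w b)) ∧
      (S.fq w O (S.rho w a), S.fq w O (S.rho w y)) ∈ (S.kfP hc w O hm hn).U := by
  obtain ⟨u0, hop⟩ := hy
  obtain ⟨u, hb'⟩ := exists_Bt S.D.tree (Sgm.left w p) (Ne.symm k.ne)
  have hb := hb'.symm
  have opy : ∀ v, S.D.G.Adj w v → O.op v y := fun v hv => hO.n2 _ _ _ hop hv
  have ca : S.Cs w u a := (Al.cs0 k hb).swap
  have cb : S.Cs w u b := (Al.cs2 k hb).swap
  have opb : ∀ v, S.D.G.Adj w v → O.op v b := fun v hv => hO.op_of_cs hb'.1 cb hv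
  have e1 : S.rho w T = Sum.inr ⟨u, hb.1.symm⟩ := Al.rho1 h.w4 k hb
  have wy : w ∈ S.J y := k.q3
  have a1 : S.arQ w O (S.fq w O (S.rho w a)) (S.fq w O (S.rho w y)) :=
    arQ_term ca.1 (fun v => Sk.not_el hb'.1 ca.2) (not_dn_of_op e wy opy) (sar_rho ca.1 e)
  have a2 : S.arQ w O (S.fq w O (S.rho w y)) (S.fq w O (S.rho w b)) :=
    arQ_term wy (nsk_of_op wy opy) (not_dn_of_op e' cb.1 opb) (sar_rho wy e')
  have a3 := arQ_up (O := O) hb'.1 ca
  have a4 := arQ_up (O := O) hb'.1 cb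
  have hnd : S.Nd4 w a T b y := (Al.nd_iff h.w4 k).2 ⟨Sgm.right _ _, hab⟩
  have h4 := Q4.k0 hc h.1 hnd
  have n1 : S.fq w O (S.rho w a) ≠ S.fq w O (S.rho w b) := fq_ne2 a1 a2
  have n2 : S.fq w O (S.rho w T) ≠ S.fq w O (S.rho w y) := by
    rw [e1]
    exact (fq_ne_inr wy opy _).symm
  have h5 := h4.kfq (hm := hm) (hn := hn) n1 n2
  rw [e1] at h5
  have top : (S.kfP hc w O hm hn).Top (S.fq w O (S.rho w a)) (S.fq w O (S.rho w y))
      (S.fq w O (Sum.inr ⟨u, hb.1.symm⟩)) (S.fq w O (S.rho w b)) := ⟨h5.rot.rot.rot, a1, a3⟩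
  exact ⟨u, hb, e1, top, _, _, top, a2, a4⟩

/-- the sides of a local square are open hubs -/
theorem OR.Nf.op_side (hO : O.Nf) (h : S.P.Top T a b y) (k : S.Cas3 T a b y w) {v : S.X}
    (hv : S.D.G.Adj w v) : O.op v a := by
  by_cases hd : ∃ u, S.Dia w u a
  · obtain ⟨u, hu⟩ := hd
    exact hO.n2 _ _ _ (hO.n6 T a b y h ⟨k.p1, k.p0, k.p2, k.p3⟩ u hu) hv
  · push Not at hd
    exact hO.n1 a k.p0 hd v hv

/-- the top of a local square is an open hub -/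
theorem OR.Nf.op_top (hO : O.Nf) (h : S.P.Top T a b y) (k : S.Cas3 T a b y w) {v : S.X}
    (hv : S.D.G.Adj w v) : O.op v T :=
  hO.n1 T k.p1 (hO.n5 T a b y h ⟨k.p1, k.p0, k.p2, k.p3⟩) v hv

/-- CASE 3: arrows of `[T]` -/
theorem Cas3.arQ (hO : O.Nf) (h : S.P.Top T a b y) (k : S.Cas3 T a b y w) (hab : a ≠ b) :
    S.arQ w O (S.fq w O (S.rho w T)) (S.fq w O (S.rho w a)) ∧
      S.arQ w O (S.fq w O (S.rho w T)) (S.fq w O (S.rho w b)) := by
  have hl : ∀ v, S.D.G.Adj w v → v ∉ S.J T :=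
    fun v hv => poles_edge hab k.p1 h.2.1 h.2.2 k.p0 k.p2 hv
  have opT : ∀ v, S.D.G.Adj w v → O.op v T := fun v hv => hO.op_top h k hv
  exact ⟨arQ_term k.p1 (nsk_of_op k.p1 opT) (Dn.not_loc hl) (sar_rho k.p1 h.2.1),
    arQ_term k.p1 (nsk_of_op k.p1 opT) (Dn.not_loc hl) (sar_rho k.p1 h.2.2)⟩

/-- the class of the top of a local square -/
theorem Cas3.class_T (hO : O.Nf) (h : S.P.Top T a b y) (k : S.Cas3 T a b y w) (hab : a ≠ b)
    {B : S.SV w} (hB : S.fq w O B = S.fq w O (S.rho w T)) : B = S.rho w T := by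
  rw [S.rho_near k.p1] at hB ⊢
  exact fq_loc (fun v hv => poles_edge hab k.p1 h.2.1 h.2.2 k.p0 k.p2 hv)
    (nsk_of_op k.p1 (fun v hv => hO.op_top h k hv)) hB

/-- the class of the top in case 2 at `p` -/
theorem Cas2.class_T (hO : O.Nf) (h : S.P.Top T a b y) {q : S.X} (k : S.Cas2 T a b y w q)
    (hab : a ≠ b) (hT : ∃ u, O.op u T) {B : S.SV w}
    (hB : S.fq w O B = S.fq w O (S.rho w T)) : B = S.rho w T := by
  obtain ⟨u0, hop⟩ := hT
  rw [S.rho_near k.p1] at hB ⊢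
  exact fq_loc (fun v hv => poles_edge hab k.p1 h.2.1 h.2.2 k.p0 k.p2 hv)
    (nsk_of_op k.p1 (fun v hv => hO.n2 _ _ _ hop hv)) hB

/-- CASE 3: `[T]` is a top with the sides `[a]`, `[b]` and the partner `[y]` -/
theorem Cas3.kf (hO : O.Nf) (h : S.P.Top T a b y) (k : S.Cas3 T a b y w) (hab : a ≠ b)
    (hTy : T ≠ y) (hne : S.fq w O (S.rho w a) ≠ S.fq w O (S.rho w b)) :
    (S.kfP hc w O hm hn).Top (S.fq w O (S.rho w T)) (S.fq w O (S.rho w a))
      (S.fq w O (S.rho w b)) (S.fq w O (S.rho w y)) := by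
  have hnd : S.Nd4 w a T b y := (At4.nd_iff h.w4 k).2 ⟨rfl, hab, hTy⟩
  have h4 := Q4.k0 hc h.1 hnd
  have n2 : S.fq w O (S.rho w T) ≠ S.fq w O (S.rho w y) := by
    intro e
    have := k.class_T hO h hab e.symm
    rw [S.rho_near k.p3, S.rho_near k.p1] at this
    exact hTy (congrArg Subtype.val (Sum.inl.inj this)).symm
  exact ⟨h4.kfq (hm := hm) (hn := hn) hne n2, (k.arQ hO h hab).1, (k.arQ hO h hab).2⟩

/-- CASE 3: an arrow from a side to the partner -/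
theorem Cas3.side (hO : O.Nf) (h : S.P.Top T a b y) (k : S.Cas3 T a b y w) (e : S.K.ar a y)
    (hy : ∃ u, O.op u y) : S.arQ w O (S.fq w O (S.rho w a)) (S.fq w O (S.rho w y)) := by
  obtain ⟨u0, hop⟩ := hy
  exact arQ_term k.p0 (nsk_of_op k.p0 (fun v hv => hO.op_side h k hv))
    (not_dn_of_op e k.p3 (fun v hv => hO.n2 _ _ _ hop hv)) (sar_rho k.p0 e)

/-- CASE 3, gamma, with an open partner: an upper arrow, no further hypothesis -/
theorem Cas3.kfG (hO : O.Nf) (h : S.P.Top T a b y) (k : S.Cas3 T a b y w) (hab : a ≠ b)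
    (hTy : T ≠ y) (e : S.K.ar a y) (e' : S.K.ar y b) (hy : ∃ u, O.op u y) :
    (S.kfP hc w O hm hn).Top (S.fq w O (S.rho w T)) (S.fq w O (S.rho w a))
      (S.fq w O (S.rho w b)) (S.fq w O (S.rho w y)) ∧
    (S.fq w O (S.rho w T), S.fq w O (S.rho w a)) ∈ (S.kfP hc w O hm hn).U := by
  have a1 := k.side hO h e hy
  obtain ⟨u0, hop⟩ := hy
  have a2 : S.arQ w O (S.fq w O (S.rho w y)) (S.fq w O (S.rho w b)) :=
    arQ_term k.p3 (nsk_of_op k.p3 (fun v hv => hO.n2 _ _ _ hop hv))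
      (not_dn_of_op e' k.p2 (fun v hv => hO.op_side h.symm' k.symm hv)) (sar_rho k.p3 e')
  have top := k.kf (hc := hc) (hm := hm) (hn := hn) hO h hab hTy (fq_ne2 a1 a2)
  exact ⟨top, _, _, top, a1, a2⟩

/-- CASE 3, diamond: arrows of the diamond -/
theorem Cas3.kfD (hO : O.Nf) (h : S.P.Top T a b y) (k : S.Cas3 T a b y w) (hab : a ≠ b)
    (hTy : T ≠ y) (e : S.K.ar a y) (e' : S.K.ar b y) (hy : ∃ u, O.op u y)
    (hne : S.fq w O (S.rho w a) ≠ S.fq w O (S.rho w b)) :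
    (S.kfP hc w O hm hn).Top (S.fq w O (S.rho w T)) (S.fq w O (S.rho w a))
      (S.fq w O (S.rho w b)) (S.fq w O (S.rho w y)) ∧
    (S.fq w O (S.rho w T), S.fq w O (S.rho w a)) ∈ (S.kfP hc w O hm hn).Dm ∧
    (S.fq w O (S.rho w T), S.fq w O (S.rho w b)) ∈ (S.kfP hc w O hm hn).Dm := by
  have a1 := k.side hO h e hy
  have a2 := k.symm.side hO h.symm' e' hy
  have top := k.kf (hc := hc) (hm := hm) (hn := hn) hO h hab hTy hne
  exact ⟨top, ⟨_, _, top, a1, a2⟩, ⟨_, _, top.symm', a2, a1⟩⟩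

/-- a sink over `w` is an open hub -/
theorem OR.Nf.op_sink (hO : O.Nf) (hy : w ∈ S.J y) (hs : ∀ c, ¬ S.K.ar y c) {v : S.X}
    (hv : S.D.G.Adj w v) : O.op v y :=
  hO.n1 y hy (fun u k => by
    obtain ⟨-, c, d, -, hc', -⟩ := k
    exact hs c hc') v hv

/-- CASE 3 with a partner which is folded to `t_u`: both arrows are arrows of a diamond -/
theorem Cas3.kfT (hO : O.Nf) (h : S.P.Top T a b y) (k : S.Cas3 T a b y w) (hab : a ≠ b)
    (hTy : T ≠ y) {u : S.EV w} (hy : S.fq w O (S.rho w y) = S.fq w O (Sum.inr u))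
    (hne : S.fq w O (S.rho w a) ≠ S.fq w O (S.rho w b)) :
    (S.kfP hc w O hm hn).Top (S.fq w O (S.rho w T)) (S.fq w O (S.rho w a))
      (S.fq w O (S.rho w b)) (S.fq w O (Sum.inr u)) ∧
    (S.fq w O (S.rho w T), S.fq w O (S.rho w a)) ∈ (S.kfP hc w O hm hn).Dm ∧
    (S.fq w O (S.rho w T), S.fq w O (S.rho w b)) ∈ (S.kfP hc w O hm hn).Dm := by
  have top := k.kf (hc := hc) (hm := hm) (hn := hn) hO h hab hTy hne
  rw [hy] at top
  have nosrc : ∀ d, ¬ S.arQ w O (S.fq w O (Sum.inr u)) d := by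
    intro d hd
    rw [arQ_fq, GN_sk (u := u) (Or.inl rfl)] at hd
    exact hd
  have ga : S.arQ w O (S.fq w O (S.rho w a)) (S.fq w O (Sum.inr u)) := by
    rcases top.Ea with e | e
    · exact e
    · exact absurd e (nosrc _)
  have gb : S.arQ w O (S.fq w O (S.rho w b)) (S.fq w O (Sum.inr u)) := by
    rcases top.Eb with e | e
    · exact e
    · exact absurd e (nosrc _)
  exact ⟨top, ⟨_, _, top, ga, gb⟩, ⟨_, _, top.symm', gb, ga⟩⟩

/-! ### levels where the square is folded -/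

/-- a zero square whose hub is not over `w` is folded -/
theorem Qs.fq_pass {u : S.X} {r x x' : V} (hs : S.Qs w u r x x') (hr : w ∉ S.J r) :
    S.fq w O (S.rho w x) = S.fq w O (S.rho w x') := by
  rw [S.rho_near hs.l.1, S.rho_near hs.r.1]
  exact (FR.mer u r ⟨x, hs.l.1⟩ ⟨x', hs.r.1⟩ hs (fun k => hr k.1.1) (fun k => hr (O.near _ _ k))).fq

/-- a parallel zero square of an open star is folded -/
theorem Qs.fq_par {u : S.X} {r x x' : V} (hs : S.Qs w u r x x') (ho : O.op u r)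
    (e : S.K.ar x r) (e' : S.K.ar x' r) : S.fq w O (S.rho w x) = S.fq w O (S.rho w x') := by
  rw [S.rho_near hs.l.1, S.rho_near hs.r.1]
  exact (FR.par u r ⟨x, hs.l.1⟩ ⟨x', hs.r.1⟩ hs ho e e').fq

/-- CASE 1 inside the segment: `T` and `y` are merged -/
theorem Cas1.fold_mid (h : S.P.Top T a b y) {p q : S.X} (k : S.Cas1 T a b y p q)
    (hw : w ∈ Sgm S.D.G p q) (h1 : w ≠ p) (h2 : w ≠ q) :
    S.fq w O (S.rho w T) = S.fq w O (S.rho w y) := by
  obtain ⟨u, hb⟩ := exists_Bt S.D.tree hw h2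
  exact (Al.qs k h.q4' hb).fq_pass (Al.n1 h.w4' k hw h1)

/-- CASE 1 at the end `q`, `y → b`: `T` and `y` are merged -/
theorem Cas1.fold_q (h : S.P.Top T a b y) {p : S.X} (k : S.Cas1 T a b y p w)
    (e : S.K.ar y b) (hb : ∀ u, S.D.G.Adj w u → O.op u b) :
    S.fq w O (S.rho w T) = S.fq w O (S.rho w y) := by
  obtain ⟨u, hb'⟩ := exists_Bt S.D.tree (Sgm.left w p) (Ne.symm k.ne)
  exact (Al.qs' k h.q4' hb'.symm).fq_par (hb u hb'.1) h.2.2 e

/-- CASE 2 inside the segment: the sides are merged -/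
theorem Cas2.fold_mid (h : S.P.Top T a b y) {p q : S.X} (k : S.Cas2 T a b y p q)
    (hw : w ∈ Sgm S.D.G p q) (h1 : w ≠ p) (h2 : w ≠ q) :
    S.fq w O (S.rho w a) = S.fq w O (S.rho w b) := by
  obtain ⟨u, hb⟩ := exists_Bt S.D.tree hw h2
  exact (Al.qs k h.1 hb).fq_pass (Al.n1 h.w4 k hw h1)

/-- CASE 2 at the end `q`, `a → y ← b`: the sides are merged -/
theorem Cas2.fold_q (h : S.P.Top T a b y) {p : S.X} (k : S.Cas2 T a b y p w)
    (e : S.K.ar a y) (e' : S.K.ar b y) (hy : ∀ u, S.D.G.Adj w u → O.op u y) :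
    S.fq w O (S.rho w a) = S.fq w O (S.rho w b) := by
  obtain ⟨u, hb'⟩ := exists_Bt S.D.tree (Sgm.left w p) (Ne.symm k.ne)
  exact (Al.qs' k h.1 hb'.symm).fq_par (hy u hb'.1) e e'

end main

end SyQ

end Pool.Agent.DI
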