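import Pool.Agent.DI.Geo4K
import Pool.Agent.DI.QNe

/-!
# DI/Geo4F: the squares of the folded slice; images of old tops

`Q4_kf_iff`: the squares of `S.kf hc w O` are the non-degenerate images of the squares of the raw slice.
`Top.k0`: a top over `w` is a top of the raw slice; `Cas2.k0`: case 2, gamma, at the end of the partner.
-/

namespace Pool.Agent.DI

open MulAction
open Pool.Agent.SAF (InC orbs FinOrb oc Decomp SAn SA Conv hull dist_edge FinOrb_iff exists_next)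
open Pool.Agent.BT (PX PQ JS bey exits lz lz_self lz_ne lz_symm x_next_unique)
open Pool.Agent.BT.TA

namespace Qt

variable {H V V' : Type} [Group H] [MulAction H V] [MulAction H V'] {K : GX H V} {f : V → V'}
  {Q : Qt K f} (hs : Q.NSt) (P : P45 K)

/-- images of kept squares -/
theorem Q4_p45 {A B C E : V} (h : Q4 P A B C E)
    (hk : ∀ i, P.sq i → (f (P.qt i 0) ≠ f (P.qt i 2) ∧ f (P.qt i 1) ≠ f (P.qt i 3)) →
      ∃ j, Q.ι j = i) (h1 : f A ≠ f C) (h2 : f B ≠ f E) :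
    Q4 (p45 hs P) (f A) (f B) (f C) (f E) := by
  obtain ⟨g, i, j, hi, h⟩ := h
  have key : ∀ {A B C E : V}, (A = g • P.qt i j ∧ B = g • P.qt i (j + 1) ∧
      C = g • P.qt i (j + 2) ∧ E = g • P.qt i (j + 3)) → f A ≠ f C → f B ≠ f E →
      Q4 (p45 hs P) (f A) (f B) (f C) (f E) := by
    rintro A B C E ⟨rfl, rfl, rfl, rfl⟩ h1 h2
    have d1 : f (P.qt i j) ≠ f (P.qt i (j + 2)) := fun e => h1 (by rw [Q.equi, Q.equi, e])
    have d2 : f (P.qt i (j + 1)) ≠ f (P.qt i (j + 3)) := fun e => h2 (by rw [Q.equi, Q.equi, e])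
    obtain ⟨c, hc⟩ := hk i hi (by
      fin_cases j
      · exact ⟨d1, d2⟩
      · exact ⟨d2.symm, d1⟩
      · exact ⟨d1.symm, d2.symm⟩
      · exact ⟨d2, d1.symm⟩)
    refine ⟨g, c, j, ?_, Or.inl ⟨?_, ?_, ?_, ?_⟩⟩
    · show P.sq (Q.ι c)
      rw [hc]
      exact hi
    all_goals
      show f _ = g • f (P.qt (Q.ι c) _)
      rw [hc, Q.equi]
  rcases h with h | ⟨e1, e2, e3, e4⟩
  · exact key h h1 h2
  · exact (key ⟨e1, e2, e3, e4⟩ h1.symm h2).symm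

/-- squares of the quotient are images of squares -/
theorem Q4_of_p45 {A' B' C' E' : V'} (h : Q4 (p45 hs P) A' B' C' E') :
    ∃ A B C E, Q4 P A B C E ∧ f A = A' ∧ f B = B' ∧ f C = C' ∧ f E = E' := by
  obtain ⟨g, c, j, hi, h⟩ := h
  have h4 := Q4_qt (P := P) g (i := Q.ι c) hi j
  rcases h with ⟨e1, e2, e3, e4⟩ | ⟨e1, e2, e3, e4⟩
  · exact ⟨_, _, _, _, h4, (Q.equi _ _).trans e1.symm, (Q.equi _ _).trans e2.symm,
      (Q.equi _ _).trans e3.symm, (Q.equi _ _).trans e4.symm⟩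
  · exact ⟨_, _, _, _, h4.symm, (Q.equi _ _).trans e3.symm, (Q.equi _ _).trans e2.symm,
      (Q.equi _ _).trans e1.symm, (Q.equi _ _).trans e4.symm⟩

end Qt

namespace SyQ

variable {H V : Type} [Group H] [MulAction H V] {S : SyQ H V}

/-- THE SQUARES OF THE FOLDED SLICE -/
theorem Q4_kf_iff {hc : S.Conn} {w : S.X} {O : S.OR w} {hm : (S.k0 hc w).Min}
    {hn : S.SqN w O} {A' B' C' E' : S.Q w O} :
    Q4 (S.kfP hc w O hm hn) A' B' C' E' ↔ ∃ A B C E : S.SV w, Q4 (S.k0P hc w) A B C E ∧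
      S.fq w O A = A' ∧ S.fq w O B = B' ∧ S.fq w O C = C' ∧ S.fq w O E = E' ∧ A' ≠ C' ∧
      B' ≠ E' := by
  constructor
  · intro h
    obtain ⟨A, B, C, E, h4, e1, e2, e3, e4⟩ :=
      Qt.Q4_of_p45 (S.kf_nst hc w O hm hn) (S.k0P hc w) h
    have hnd := S.kfP_nd hc w O hm hn
    obtain ⟨g, c, j, hi, k⟩ := h
    have n := hnd c hi
    have d : ∀ a b : S.Q w O, a ≠ b → g • a ≠ g • b := fun a b k e => k (smul_left_cancel g e)
    have n1 : ∀ j : Fin 4, g • (S.kfP hc w O hm hn).qt c j ≠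
        g • (S.kfP hc w O hm hn).qt c (j + 2) := by
      intro j
      fin_cases j
      · exact d _ _ n.1
      · exact d _ _ n.2
      · exact d _ _ n.1.symm
      · exact d _ _ n.2.symm
    have n2 := n1 (j + 1)
    rw [show j + 1 + 2 = j + 3 from by rw [add_assoc]; rfl] at n2
    rcases k with ⟨k1, k2, k3, k4⟩ | ⟨k1, k2, k3, k4⟩
    · refine ⟨A, B, C, E, h4, e1, e2, e3, e4, ?_, ?_⟩
      · rw [k1, k3]
        exact n1 j
      · rw [k2, k4]
        exact n2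
    · refine ⟨A, B, C, E, h4, e1, e2, e3, e4, ?_, ?_⟩
      · rw [k1, k3]
        exact (n1 j).symm
      · rw [k2, k4]
        exact n2
  · rintro ⟨A, B, C, E, h4, rfl, rfl, rfl, rfl, h1, h2⟩
    apply Qt.Q4_p45 (S.kf_nst hc w O hm hn) (S.k0P hc w) h4 _ h1 h2
    rintro i ⟨p, rfl⟩ ⟨k1, k2⟩
    have hk : S.kept w O p := by
      rw [S.k0P_qt, S.k0P_qt] at k1 k2
      exact ⟨k1, k2⟩
    exact ⟨Sum.inr ⟨p, hk⟩, rfl⟩

/-! ### old tops in the raw slice -/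

/-- images of arrows at a point of the subtree -/
theorem sar_rho {w : S.X} {x a : V} (hx : w ∈ S.J x) (e : S.K.ar x a) :
    S.SAr w (S.rho w x) (S.rho w a) := by
  by_cases ha : w ∈ S.J a
  · exact sar_hor hx ha e
  · rw [S.rho_far ha]
    exact sar_up (S.dir_adj ha) ⟨hx, S.dir_cross (Or.inl e) hx ha⟩

/-- the square of a top is seen at every point of the top -/
theorem _root_.Pool.Agent.DI.P45.Top.nd {T a b y : V} (h : S.P.Top T a b y) (hab : a ≠ b)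
    (hTy : T ≠ y) {w : S.X} (hw : w ∈ S.J T) : S.Nd4 w a T b y := by
  rcases h.pos4 with ⟨p, q, k⟩ | ⟨p, q, k⟩ | ⟨p, k⟩
  · have e := k.JT h
    rw [e] at hw
    have n := (Al.nd_iff h.w4' k).2 ⟨hw, hTy⟩
    exact ⟨n.2, n.1⟩
  · have e := k.JT h hab
    rw [e] at hw
    rw [Set.mem_singleton_iff.1 hw]
    exact (Al.nd_iff h.w4 k).2 ⟨Sgm.left _ _, hab⟩
  · have e := k.JT h hab
    rw [e] at hw
    rw [Set.mem_singleton_iff.1 hw]
    exact (At4.nd_iff h.w4 k).2 ⟨rfl, hab, hTy⟩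

/-- A TOP OVER `w` IS A TOP OF THE RAW SLICE -/
theorem _root_.Pool.Agent.DI.P45.Top.k0 (hc : S.Conn) {T a b y : V} (h : S.P.Top T a b y)
    (hab : a ≠ b) (hTy : T ≠ y) {w : S.X} (hw : w ∈ S.J T) :
    (S.k0P hc w).Top (S.rho w T) (S.rho w a) (S.rho w b) (S.rho w y) :=
  ⟨Q4.k0 hc h.1 (h.nd hab hTy hw), sar_rho hw h.2.1, sar_rho hw h.2.2⟩

/-- CASE 2, an arrow `a → y`, at the end of the partner: the new top `a` over `y`, with partner `b` -/
theorem Cas2.k0 (hc : S.Conn) {T a b y : V} (h : S.P.Top T a b y) (hab : a ≠ b)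
    {p q : S.X} (k : S.Cas2 T a b y p q) (e : S.K.ar a y) :
    (S.k0P hc q).Top (S.rho q a) (S.rho q y) (S.rho q T) (S.rho q b) ∧
      ∃ (u : S.X) (b' : Bt S.D.G p q u q), S.rho q T = Sum.inr ⟨u, b'.1.symm⟩ := by
  have hn : S.Nd4 q a T b y := (Al.nd_iff h.w4 k).2 ⟨Sgm.right _ _, hab⟩
  have h4 := Q4.k0 hc h.1 hn
  obtain ⟨u, bb⟩ := exists_Bt S.D.tree (Sgm.left q p) (Ne.symm k.ne)
  have e1 : S.rho q T = Sum.inr ⟨u, bb.symm.1.symm⟩ := Al.rho1 h.w4 k bb.symm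
  refine ⟨⟨h4.rot.rot.rot, sar_rho k.q0 e, ?_⟩, u, bb.symm, e1⟩
  rw [e1]
  exact sar_up bb.1 (Al.cs0 k bb.symm).swap

end SyQ

end Pool.Agent.DI
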