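import Pool.Agent.DI.L13
import Pool.Agent.DI.QFM4

/-!
# Gluing connected graphs

`FG.Gl G`: `G` is glued from connected graphs `P q` along nodes (every line of `G` is a line of
exactly one `P q`). `T`: the bipartite graph of the nodes of `G` and the indices `q`, one line for
every node of a `P q`. `Gl.b1`: `b1 G = b1 T + ∑ b1 (P q)`.
-/

namespace Pool.Agent.DI

namespace FG

/-- `G` is glued from the connected graphs `P q` -/
structure Gl (G : FG) where
  Q : Type
  fQ : Finite Q
  P : Q → FG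
  cn : ∀ q, (P q).Cn
  n : ∀ q, (P q).N → G.N
  l : (Σ q, (P q).L) ≃ G.L
  h : ∀ e : Σ q, (P q).L,
    (G.a (l e) = n e.1 ((P e.1).a e.2) ∧ G.b (l e) = n e.1 ((P e.1).b e.2)) ∨
    (G.a (l e) = n e.1 ((P e.1).b e.2) ∧ G.b (l e) = n e.1 ((P e.1).a e.2))

namespace Gl

variable {G : FG} (g : G.Gl)

instance : Finite g.Q := g.fQ

/-- the bipartite graph of the nodes and the pieces -/
def T : FG where
  N := G.N ⊕ g.Q
  L := Σ q, (g.P q).N
  fN := inferInstance
  fL := inferInstance
  a e := Sum.inl (g.n e.1 e.2)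
  b e := Sum.inr e.1

theorem T_line (q : g.Q) (x : (g.P q).N) :
    g.T.c (Sum.inl (g.n q x)) = g.T.c (Sum.inr q) := c_line (G := g.T) ⟨q, x⟩

theorem same (q : g.Q) (x y : (g.P q).N) : G.c (g.n q x) = G.c (g.n q y) := by
  apply c_map (G := g.P q) (G' := G) (g.n q)
  · intro e
    have h1 := c_line (G := G) (g.l ⟨q, e⟩)
    rcases g.h ⟨q, e⟩ with ⟨h2, h3⟩ | ⟨h2, h3⟩
    · rwa [h2, h3] at h1
    · rw [h2, h3] at h1
      exact h1.symm
  · exact ((cn_iff _).1 (g.cn q)).2 x y

/-- a node of a piece -/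
noncomputable def rp (q : g.Q) : (g.P q).N := ((cn_iff _).1 (g.cn q)).1.some

/-- the components of `T` are the components of `G` -/
noncomputable def TC : g.T.C ≃ G.C where
  toFun := lift (G := g.T) (fun x => Sum.elim G.c (fun q => G.c (g.n q (g.rp q))) x)
    (fun e => g.same e.1 e.2 (g.rp e.1))
  invFun := lift (G := G) (fun x => g.T.c (Sum.inl x)) (fun e => by
    obtain ⟨e, rfl⟩ := g.l.surjective e
    rcases g.h e with ⟨h2, h3⟩ | ⟨h2, h3⟩
    · rw [h2, h3, g.T_line, g.T_line]
    · rw [h2, h3, g.T_line, g.T_line])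
  left_inv x := by
    obtain ⟨y, rfl⟩ := c_surj x
    rcases y with y | q
    · rfl
    · exact g.T_line q (g.rp q)
  right_inv x := by
    obtain ⟨y, rfl⟩ := c_surj x
    rfl

theorem T_nC : g.T.nC = G.nC := Nat.card_congr g.TC

/-- the Betti number of a graph which is glued from connected graphs -/
theorem b1 [Fintype g.Q] : G.b1 = g.T.b1 + ∑ q, (g.P q).b1 := by
  classical
  have h1 : G.nL = ∑ q, (g.P q).nL := by
    unfold nL
    rw [← Nat.card_congr g.l, Nat.card_sigma]
  have h2 : g.T.nL = ∑ q, (g.P q).nN := by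
    unfold nL
    show Nat.card (Σ q, (g.P q).N) = _
    rw [Nat.card_sigma]
    rfl
  have h3 : g.T.nN = G.nN + Fintype.card g.Q := by
    unfold nN
    show Nat.card (G.N ⊕ g.Q) = _
    rw [Nat.card_sum, Nat.card_eq_fintype_card (α := g.Q)]
  have h4 : ∑ q, (g.P q).b1 = (∑ q, ((g.P q).nL : ℤ)) - ∑ q, ((g.P q).nN : ℤ) +
      Fintype.card g.Q := by
    rw [← Finset.sum_sub_distrib, Finset.card_univ.symm, Finset.card_eq_sum_ones, Nat.cast_sum,
      ← Finset.sum_add_distrib]
    apply Finset.sum_congr rfl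
    intro q _
    rw [(g.cn q).b1]
    simp
  rw [h4]
  unfold FG.b1
  rw [h1, h2, h3, g.T_nC]
  push_cast
  ring

end Gl

end FG

end Pool.Agent.DI
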