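import Pool.Agent.DI.SqC
import Pool.Agent.DI.GXAdd

/-!
# DI/Hlf: the halves of the flipped squares

A square `(T, a, o, b)` is flipped if some `g` fixes `T`, `o` and exchanges `a`, `b`. `P.hK`: the complex
with a new soft `s` (poles `T`, `o`) for each flipped square, the square replaced by its half
`(T, s, o, a)`.
-/

namespace Pool.Agent.DI

open MulAction
open Pool.Agent.SAF (InC orbs FinOrb oc)

variable {H V : Type} [Group H] [MulAction H V]

/-- a complex without superfluous cells -/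
def GX.less (K : GX H V) (J : K.I → Prop)
    (hJ : ∀ φ : V → V → ZMod 2, (∀ x y, φ x y = φ y x) →
      (∀ i, J i → ∀ h : H, ps φ (h • K.cb i) ((K.cw i).map (fun z => h • z)) = 0) →
      ∀ i, ∀ h : H, ps φ (h • K.cb i) ((K.cw i).map (fun z => h • z)) = 0) : GX H V where
  ar := K.ar
  rk := K.rk
  I := {i : K.I // J i}
  finI := by
    have := K.finI
    infer_instance
  cb i := K.cb i.1
  cw i := K.cw i.1
  ar_rk := K.ar_rk
  ar_smul := K.ar_smul
  rk_smul := K.rk_smul
  two := K.two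
  c_E i := K.c_E i.1
  c_tg i := K.c_tg i.1
  ne := K.ne
  conn := K.conn
  H1 φ hs hc := K.H1 φ hs (hJ φ hs fun i hi h => hc ⟨i, hi⟩ h)
  fin := K.fin
  stab := K.stab

theorem GX.less_area (K : GX H V) (J : K.I → Prop) (hJ) : (K.less J hJ).area ≤ K.area := by
  classical
  have := K.finI
  let := Fintype.ofFinite K.I
  let _ : Fintype (K.less J hJ).I := (inferInstance : Fintype {i : K.I // J i})
  rw [GX.area_eq, GX.area_eq]
  have h : ∑ i : {i : K.I // J i}, ((K.cw i.1).length - 4) ≤ ∑ i, ((K.cw i).length - 4) := by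
    have h1 : ∑ i : {i : K.I // J i}, ((K.cw i.1).length - 4) =
        ∑ i ∈ (Finset.univ : Finset K.I).filter J, ((K.cw i).length - 4) := by
      rw [Finset.sum_subtype ((Finset.univ : Finset K.I).filter J) (p := J) (fun i => by simp)
        (fun i => (K.cw i).length - 4)]
    rw [h1]
    exact Finset.sum_le_sum_of_subset (Finset.filter_subset _ _)
  exact h

namespace P45

variable {K : GX H V} (P : P45 K)

/-- a flipped square with top at the position `j` -/
def Fl (i : K.I) (j : Fin 4) : Prop := P.sq i ∧ K.ar (P.qt i j) (P.qt i (j + 1)) ∧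
  ∃ g : H, g • P.qt i j = P.qt i j ∧ g • P.qt i (j + 2) = P.qt i (j + 2) ∧
    g • P.qt i (j + 1) = P.qt i (j + 3)

/-- the square `i` is flipped -/
def Hf (i : K.I) : Prop := ∃ j, P.Fl i j

/-- the position of the top of a flipped square -/
noncomputable def hj (i : {i : K.I // P.Hf i}) : Fin 4 := i.2.choose

theorem hj_spec (i : {i : K.I // P.Hf i}) : P.Fl i.1 (P.hj i) := i.2.choose_spec

/-- the top, the partner and a side -/
noncomputable def hT (i : {i : K.I // P.Hf i}) : V := P.qt i.1 (P.hj i)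

noncomputable def ho (i : {i : K.I // P.Hf i}) : V := P.qt i.1 (P.hj i + 2)

noncomputable def ha (i : {i : K.I // P.Hf i}) : V := P.qt i.1 (P.hj i + 1)

/-- the new softs, as pairs of a top and its partner -/
def HS : Type := {p : V × V // ∃ (i : {i : K.I // P.Hf i}) (h : H), p = (h • P.hT i, h • P.ho i)}

variable {P}

theorem HS_smul (g : H) {p : V × V}
    (hp : ∃ (i : {i : K.I // P.Hf i}) (h : H), p = (h • P.hT i, h • P.ho i)) :
    ∃ (i : {i : K.I // P.Hf i}) (h : H), g • p = (h • P.hT i, h • P.ho i) := by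
  obtain ⟨i, h, rfl⟩ := hp
  exact ⟨i, g * h, by rw [mul_smul, mul_smul]; rfl⟩

instance : MulAction H P.HS where
  smul g p := ⟨g • p.1, HS_smul g p.2⟩
  one_smul p := Subtype.ext (one_smul H p.1)
  mul_smul g h p := Subtype.ext (mul_smul g h p.1)

theorem HS_coe (g : H) (p : P.HS) : (g • p).1 = g • p.1 := rfl

variable (P)

/-- the soft of a flipped square -/
noncomputable def hs (i : {i : K.I // P.Hf i}) : P.HS :=
  ⟨(P.hT i, P.ho i), i, 1, by rw [one_smul, one_smul]⟩

theorem hE {i : {i : K.I // P.Hf i}} (j : Fin 4) : K.E (P.qt i.1 j) (P.qt i.1 (j + 1)) :=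
  P.E4 (P.hj_spec i).1 j

theorem hs_ex (s : P.HS) : ∃ (i : {i : K.I // P.Hf i}) (h : H), s = h • P.hs i := by
  obtain ⟨i, h, e⟩ := s.2
  exact ⟨i, h, Subtype.ext e⟩

/-- the new softs and the halves -/
noncomputable def hN : NS K P.HS where
  pl s x := x = s.1.1 ∨ x = s.1.2
  rk s := max (K.rk s.1.1) (K.rk s.1.2) + 1
  J := {i : K.I // P.Hf i}
  finJ := by
    have := K.finI
    infer_instance
  js := P.hs
  ja := P.hT
  jb := P.ho
  jl i := [P.ha i, P.hT i]
  pl_smul := by
    rintro h s x (rfl | rfl)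
    · exact Or.inl rfl
    · exact Or.inr rfl
  two := by
    rintro s a b c (rfl | rfl) (rfl | rfl) (rfl | rfl) <;> simp
  pl_rk := by
    rintro s x (rfl | rfl)
    · exact Nat.lt_succ_of_le (le_max_left _ _)
    · exact Nat.lt_succ_of_le (le_max_right _ _)
  rk_smul h s := by
    show max (K.rk (h • s.1.1)) (K.rk (h • s.1.2)) + 1 = _
    rw [K.rk_smul, K.rk_smul]
  one s := ⟨s.1.1, Or.inl rfl⟩
  pla i := Or.inl rfl
  plb i := Or.inr rfl
  wk i := by
    have e1 : K.E (P.qt i.1 (P.hj i)) (P.qt i.1 (P.hj i + 1)) := P.hE _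
    have e2 : K.E (P.qt i.1 (P.hj i + 1)) (P.qt i.1 (P.hj i + 1 + 1)) := P.hE _
    rw [show P.hj i + 1 + 1 = P.hj i + 2 by rw [add_assoc]; rfl] at e2
    exact ⟨e2.symm, e1.symm, trivial⟩
  tgl i := rfl
  cov := by
    rintro s a b ha hb hab
    obtain ⟨i, h, rfl⟩ := P.hs_ex s
    refine ⟨i, h, rfl, ?_⟩
    rcases ha with rfl | rfl <;> rcases hb with rfl | rfl
    · exact absurd rfl hab
    · exact Or.inl ⟨rfl, rfl⟩
    · exact Or.inr ⟨rfl, rfl⟩
    · exact absurd rfl hab
  fin := by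
    rw [Pool.Agent.SAF.FinOrb_iff]
    have := K.finI
    refine ⟨Set.range P.hs, Set.finite_range _, Set.subset_univ _, ?_⟩
    intro s _
    obtain ⟨i, h, rfl⟩ := P.hs_ex s
    exact ⟨P.hs i, ⟨i, rfl⟩, h, rfl⟩
  stab s := by
    have hle : stabilizer H s ≤ stabilizer H s.1.1 := by
      intro g hg
      rw [mem_stabilizer_iff] at hg ⊢
      exact congrArg (fun t : P.HS => t.1.1) hg
    exact Pool.Agent.BT.InC.inj (Subgroup.inclusion hle) (Subgroup.inclusion_injective hle)
      (K.stab s.1.1)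

/-- the kept cells -/
def hJ (x : P.hN.add.I) : Prop := ∀ i : K.I, x = (Sum.inl i : K.I ⊕ {i : K.I // P.Hf i}) → ¬ P.Hf i

theorem hJ_inl (i : K.I) : P.hJ (Sum.inl i : K.I ⊕ {i : K.I // P.Hf i}) ↔ ¬ P.Hf i :=
  ⟨fun h => h i rfl, fun h j e => by rw [← Sum.inl_injective e]; exact h⟩

theorem hJ_inr (i : {i : K.I // P.Hf i}) : P.hJ (Sum.inr i : K.I ⊕ {i : K.I // P.Hf i}) :=
  fun j e => by exact absurd e (by simp)

/-- the flip of a square -/
theorem Fl.g {i : K.I} {j : Fin 4} (h : P.Fl i j) (hne : P.qt i (j + 1) ≠ P.qt i (j + 3)) :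
    ∃ g : H, g • P.qt i j = P.qt i j ∧ g • P.qt i (j + 2) = P.qt i (j + 2) ∧
      g • P.qt i (j + 1) = P.qt i (j + 3) ∧ g • P.qt i (j + 3) = P.qt i (j + 1) := by
  obtain ⟨h1, h2, g, g1, g2, g3⟩ := h
  refine ⟨g, g1, g2, g3, ?_⟩
  have e1 : K.ar (P.qt i j) (P.qt i (j + 3)) := by
    have := K.ar_smul g _ _ h2
    rwa [g1, g3] at this
  have e2 : K.ar (P.qt i j) (g • P.qt i (j + 3)) := by
    have := K.ar_smul g _ _ e1
    rwa [g1] at this
  rcases K.two _ _ _ _ h2 e1 e2 with e | e | e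
  · exact absurd e hne
  · exact absurd (smul_left_cancel g (g3.trans e)) hne
  · exact e.symm

/-- the flipped squares are superfluous -/
theorem h_less (hnd : ∀ i, P.sq i → ∀ j : Fin 4, P.qt i j ≠ P.qt i (j + 2))
    (φ : V ⊕ P.HS → V ⊕ P.HS → ZMod 2) (hs : ∀ x y, φ x y = φ y x)
    (hc : ∀ x, P.hJ x → ∀ h : H,
      ps φ (h • P.hN.add.cb x) ((P.hN.add.cw x).map (fun z => h • z)) = 0) :
    ∀ x, ∀ h : H, ps φ (h • P.hN.add.cb x) ((P.hN.add.cw x).map (fun z => h • z)) = 0 := by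
  intro x h
  rcases x with i | i
  · by_cases hi : P.Hf i
    · set x : {i : K.I // P.Hf i} := ⟨i, hi⟩ with hx
      have hne := hnd i (P.hj_spec x).1 (P.hj x + 1)
      rw [show P.hj x + 1 + 2 = P.hj x + 3 by rw [add_assoc]; rfl] at hne
      obtain ⟨g, g1, g2, g3, g4⟩ := Fl.g P (P.hj_spec x) hne
      have k1 := hc (Sum.inr x : K.I ⊕ {i : K.I // P.Hf i}) (P.hJ_inr x) h
      have k2 := hc (Sum.inr x : K.I ⊕ {i : K.I // P.Hf i}) (P.hJ_inr x) (h * g)
      have e1 : φ (h • Sum.inl (P.hT x)) (h • Sum.inr (P.hs x)) +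
          (φ (h • Sum.inr (P.hs x)) (h • Sum.inl (P.ho x)) +
          (φ (h • Sum.inl (P.ho x)) (h • Sum.inl (P.ha x)) +
          (φ (h • Sum.inl (P.ha x)) (h • Sum.inl (P.hT x)) + 0))) = 0 := k1
      have e2 : φ ((h * g) • Sum.inl (P.hT x)) ((h * g) • Sum.inr (P.hs x)) +
          (φ ((h * g) • Sum.inr (P.hs x)) ((h * g) • Sum.inl (P.ho x)) +
          (φ ((h * g) • Sum.inl (P.ho x)) ((h * g) • Sum.inl (P.ha x)) +
          (φ ((h * g) • Sum.inl (P.ha x)) ((h * g) • Sum.inl (P.hT x)) + 0))) = 0 := k2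
      have f1 : (h * g) • (Sum.inl (P.hT x) : V ⊕ P.HS) = h • Sum.inl (P.hT x) := by
        rw [mul_smul]
        congr 1
        exact congrArg Sum.inl g1
      have f2 : (h * g) • (Sum.inl (P.ho x) : V ⊕ P.HS) = h • Sum.inl (P.ho x) := by
        rw [mul_smul]
        congr 1
        exact congrArg Sum.inl g2
      have f3 : (h * g) • (Sum.inl (P.ha x) : V ⊕ P.HS) =
          h • Sum.inl (P.qt i (P.hj x + 3)) := by
        rw [mul_smul]
        congr 1
        exact congrArg Sum.inl g3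
      have f4 : (h * g) • (Sum.inr (P.hs x) : V ⊕ P.HS) = h • Sum.inr (P.hs x) := by
        rw [mul_smul]
        congr 1
        refine congrArg Sum.inr (Subtype.ext ?_)
        exact Prod.ext g1 g2
      rw [f1, f2, f3, f4] at e2
      have hsum : ps φ (h • (Sum.inl (K.cb i) : V ⊕ P.HS))
          (((K.cw i).map Sum.inl).map (fun z => h • z)) =
          ∑ k : Fin 4, φ (h • Sum.inl (P.qt i k)) (h • Sum.inl (P.qt i (k + 1))) := by
        rw [P.cb4 i (P.hj_spec x).1, P.cw4 i (P.hj_spec x).1, Fin.sum_univ_four]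
        simp only [List.map_cons, List.map_nil, ps_cons, ps_nil, add_zero, add_assoc]
        rfl
      refine hsum.trans ?_
      have hrot : ∀ (G : Fin 4 → ZMod 2) (j : Fin 4),
          ∑ k, G k = G j + G (j + 1) + G (j + 2) + G (j + 3) := by
        intro G j
        rw [Fin.sum_univ_four]
        fin_cases j
        · rfl
        · show _ = G 1 + G 2 + G 3 + G 0
          ring
        · show _ = G 2 + G 3 + G 0 + G 1
          ring
        · show _ = G 3 + G 0 + G 1 + G 2
          ring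
      rw [hrot _ (P.hj x)]
      have a1 : P.hj x + 1 + 1 = P.hj x + 2 := by rw [add_assoc]; rfl
      have a2 : P.hj x + 2 + 1 = P.hj x + 3 := by rw [add_assoc]; rfl
      have a3 : P.hj x + 3 + 1 = P.hj x := by rw [add_assoc]; exact add_zero _
      rw [a1, a2, a3]
      have s1 := hs (h • Sum.inl (P.qt i (P.hj x))) (h • Sum.inl (P.qt i (P.hj x + 1)))
      have s2 := hs (h • Sum.inl (P.qt i (P.hj x + 1))) (h • Sum.inl (P.qt i (P.hj x + 2)))
      have d1 : P.hT x = P.qt i (P.hj x) := rfl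
      have d2 : P.ho x = P.qt i (P.hj x + 2) := rfl
      have d3 : P.ha x = P.qt i (P.hj x + 1) := rfl
      rw [d1, d2, d3] at e1
      rw [d1, d2] at e2
      rw [s1, s2]
      have z1 := CharTwo.add_self_eq_zero (φ (h • Sum.inl (P.qt i (P.hj x))) (h • Sum.inr (P.hs x)))
      have z2 := CharTwo.add_self_eq_zero
        (φ (h • Sum.inr (P.hs x)) (h • Sum.inl (P.qt i (P.hj x + 2))))
      linear_combination e1 + e2 - z1 - z2
    · exact hc _ ((P.hJ_inl i).2 hi) h
  · exact hc _ (P.hJ_inr i) h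

end P45

end Pool.Agent.DI
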