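import Pool.Agent.DI.Hlf
import Pool.Agent.DI.FCb

/-!
# DI/Hlf2: the cut inequality with flipped squares

`CuD.base`: the slide inequality `0 ≤ Σ w_i t_i` for a minimal complex with listed squares, `w = 2` at
pentagons, `w ≥ 2` at squares and `w ≥ 1` at flipped squares, if the squares have `t_i ≥ 0` and no corner
of a square has two legs moved to the same target with a leg which is the top of a double.
-/

namespace Pool.Agent.DI

open MulAction
open Pool.Agent.SAF (InC orbs FinOrb oc)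

variable {H V : Type} [Group H] [MulAction H V]

namespace P45

variable {K : GX H V} (P : P45 K)

theorem ND.h (hnd : P.ND) {i : K.I} (hi : P.sq i) (j : Fin 4) : P.qt i j ≠ P.qt i (j + 2) := by
  obtain ⟨h1, h2⟩ := hnd i hi
  fin_cases j
  · exact h1
  · exact h2
  · exact h1.symm
  · exact h2.symm

/-- the complex with the halves -/
noncomputable def hK (hnd : P.ND) : GX H (V ⊕ P.HS) :=
  P.hN.add.less P.hJ (P.h_less fun i hi j => ND.h P hnd hi j)

theorem hK_area (hnd : P.ND) : (P.hK hnd).area ≤ K.area := by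
  classical
  refine (P.hN.add.less_area P.hJ _).trans ?_
  have := K.finI
  let _ : Fintype P.hN.J := @Fintype.ofFinite _ P.hN.finJ
  rw [P.hN.add_area]
  have h : ∀ j : P.hN.J, (P.hN.jl j).length - 2 = 0 := fun j => rfl
  simp only [h, Finset.sum_const_zero, add_zero, le_refl]

theorem hK_min (hnd : P.ND) (hm : K.Min) : (P.hK hnd).Min := fun V' _ K' =>
  (P.hK_area hnd).trans (hm V' K')

theorem hK_ar (hnd : P.ND) {x y : V} :
    (P.hK hnd).ar (Sum.inl x) (Sum.inl y) ↔ K.ar x y := Iff.rfl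

theorem hK_pl (hnd : P.ND) {s : P.HS} {y : V} :
    (P.hK hnd).ar (Sum.inr s) (Sum.inl y) ↔ y = s.1.1 ∨ y = s.1.2 := Iff.rfl

/-- the squares of the new complex -/
def hsq (x : K.I ⊕ {i : K.I // P.Hf i}) : Prop := Sum.elim P.sq (fun _ => True) x

noncomputable def hpt (x : K.I ⊕ {i : K.I // P.Hf i}) : Fin 5 → V ⊕ P.HS :=
  Sum.elim (fun i k => Sum.inl (P.pt i k)) (fun i _ => Sum.inl (P.hT i)) x

noncomputable def hqt (x : K.I ⊕ {i : K.I // P.Hf i}) : Fin 4 → V ⊕ P.HS :=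
  Sum.elim (fun i k => Sum.inl (P.qt i k))
    (fun i => ![Sum.inl (P.hT i), Sum.inr (P.hs i), Sum.inl (P.ho i), Sum.inl (P.ha i)]) x

/-- the pentagons and squares of the new complex -/
noncomputable def hP (hnd : P.ND) : P45 (P.hK hnd) where
  sq x := P.hsq x.1
  pt x := P.hpt x.1
  qt x := P.hqt x.1
  cb5 := by
    rintro ⟨x | x, hx⟩ h
    · exact congrArg Sum.inl (P.cb5 x h)
    · exact absurd trivial h
  cw5 := by
    rintro ⟨x | x, hx⟩ h
    · exact congrArg (List.map Sum.inl) (P.cw5 x h)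
    · exact absurd trivial h
  cb4 := by
    rintro ⟨x | x, hx⟩ h
    · exact congrArg Sum.inl (P.cb4 x h)
    · rfl
  cw4 := by
    rintro ⟨x | x, hx⟩ h
    · exact congrArg (List.map Sum.inl) (P.cw4 x h)
    · rfl

/-- the pentagons of a `P45` -/
def hPG : PG K where
  five i := ¬ P.sq i
  pt := P.pt
  cb_eq := P.cb5
  cw_eq := P.cw5

end P45

namespace CuD

variable {K : GX H V} (D : CuD K) (P : P45 K)

/-- `n` is the top of a double: a pentagon `t, v, n, m, v'` with `n → v`, `m → v'` moved to `t` and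
`n → m` -/
def Nt (n : V) : Prop := ∃ t v m v', Qn P t v n m v' ∧ D.mv n v ∧ K.ar n m ∧ D.mv m v' ∧
  t = D.τ n v ∧ t = D.τ m v'

/-- the value of a corner -/
noncomputable def hv (x y z : V) : ℤ := sg D.sl.mv D.sl.τ x y z

theorem hv_symm (x y z : V) : D.hv x y z = D.hv z y x := sg_symm x y z

theorem hv_smul (h : H) (x y z : V) : D.hv (h • x) (h • y) (h • z) = D.hv x y z :=
  D.sl.sg_smul h x y z

/-- the extended set of in-arrows -/
def hR : Set (V ⊕ P.HS) := {z | Sum.elim (fun n => n ∈ D.R)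
  (fun s : P.HS => s.1.2 = D.v ∧ ∀ x, K.ar s.1.1 x → x ∈ D.R) z}

theorem hR_inl {n : V} : (Sum.inl n : V ⊕ P.HS) ∈ D.hR P ↔ n ∈ D.R := Iff.rfl

theorem hR_inr {s : P.HS} : (Sum.inr s : V ⊕ P.HS) ∈ D.hR P ↔
    s.1.2 = D.v ∧ ∀ x, K.ar s.1.1 x → x ∈ D.R := Iff.rfl

variable {P}

/-- a side of a new soft -/
theorem hs_side (s : P.HS) : ∃ x, K.ar s.1.1 x := by
  obtain ⟨i, h, rfl⟩ := P.hs_ex s
  exact ⟨h • P.ha i, K.ar_smul h _ _ (P.hj_spec i).2.1⟩

variable (P)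

/-- the extended cut -/
noncomputable def hD (hnd : P.ND) : CuD (P.hK hnd) where
  v := Sum.inl D.v
  a := Sum.inl D.a
  b := Sum.inl D.b
  R := D.hR P
  va := D.va
  vb := D.vb
  ab := fun e => D.ab (Sum.inl_injective e)
  R_ar := by
    rintro (n | s) h
    · exact D.R_ar n h
    · exact Or.inr h.1.symm
  stab := by
    rintro g hg (n | s) h1 h2
    · exact congrArg Sum.inl (D.stab g (Sum.inl_injective hg) n h1 h2)
    · obtain ⟨x, hx⟩ := hs_side s
      have h3 : g • x ∈ D.R := h2.2 (g • x) (K.ar_smul g _ _ hx)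
      exact congrArg Sum.inl (D.stab g (Sum.inl_injective hg) x (h1.2 x hx) h3)
  inv := by
    rintro g hg ha (n | s) h1
    · exact D.inv g (Sum.inl_injective hg) (Sum.inl_injective ha) n h1
    · have hg' : g • D.v = D.v := Sum.inl_injective hg
      have ha' : g • D.a = D.a := Sum.inl_injective ha
      refine ⟨?_, fun x hx => ?_⟩
      · show g • s.1.2 = D.v
        rw [h1.1, hg']
      · have h3 : K.ar s.1.1 (g⁻¹ • x) := by
          have := K.ar_smul g⁻¹ _ _ hx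
          have e : g⁻¹ • (g • s).1.1 = s.1.1 := inv_smul_smul g s.1.1
          rwa [e] at this
        have h4 := D.inv g hg' ha' _ (h1.2 _ h3)
        rwa [smul_inv_smul] at h4

theorem hmv (hnd : P.ND) {x y : V} : (D.hD P hnd).mv (Sum.inl x) (Sum.inl y) ↔ D.mv x y := by
  constructor
  · rintro ⟨h, h1, h2⟩
    exact ⟨h, h1, Sum.inl_injective h2⟩
  · rintro ⟨h, h1, h2⟩
    exact ⟨h, h1, congrArg Sum.inl h2⟩

theorem hmv_inr (hnd : P.ND) {x : V ⊕ P.HS} {s : P.HS} : ¬ (D.hD P hnd).mv x (Sum.inr s) := by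
  rintro ⟨h, -, h2⟩
  exact absurd h2 (by
    show (Sum.inr s : V ⊕ P.HS) ≠ Sum.inl _
    simp)

theorem hτ (hnd : P.ND) {x y : V} (h : D.mv x y) :
    (D.hD P hnd).τ (Sum.inl x) (Sum.inl y) = Sum.inl (D.τ x y) := by
  obtain ⟨g, h1, h2⟩ := h
  rw [D.τ_eq h1 h2]
  exact (D.hD P hnd).τ_eq (n := Sum.inl x) (y := Sum.inl y) (h := g) h1 (congrArg Sum.inl h2)

/-- old corners -/
theorem hc_old (hnd : P.ND) (x y z : V) :
    (D.hD P hnd).hv (Sum.inl x) (Sum.inl y) (Sum.inl z) = D.hv x y z := by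
  classical
  have k1 : (D.hD P hnd).c1 (Sum.inl x) (Sum.inl y) (Sum.inl z) ↔ D.c1 x y z := by
    unfold c1
    rw [D.hmv P hnd, D.hmv P hnd]
    constructor
    · rintro (⟨a, b, c⟩ | ⟨a, b, c⟩)
      · refine Or.inl ⟨a, b, fun e => c ?_⟩
        rw [D.hτ P hnd a, e]
      · refine Or.inr ⟨a, b, fun e => c ?_⟩
        rw [D.hτ P hnd a, e]
    · rintro (⟨a, b, c⟩ | ⟨a, b, c⟩)
      · refine Or.inl ⟨a, b, fun e => c ?_⟩
        rw [D.hτ P hnd a] at e
        exact Sum.inl_injective e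
      · refine Or.inr ⟨a, b, fun e => c ?_⟩
        rw [D.hτ P hnd a] at e
        exact Sum.inl_injective e
  have k2 : (D.hD P hnd).c2 (Sum.inl x) (Sum.inl y) (Sum.inl z) ↔ D.c2 x y z := by
    unfold c2
    rw [D.hmv P hnd, D.hmv P hnd]
    constructor
    · rintro ⟨a, b, c⟩
      refine ⟨a, b, fun e => c ?_⟩
      rw [D.hτ P hnd a, D.hτ P hnd b, e]
    · rintro ⟨a, b, c⟩
      refine ⟨a, b, fun e => c ?_⟩
      rw [D.hτ P hnd a, D.hτ P hnd b] at e
      exact Sum.inl_injective e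
  have k3 : cA (D.hD P hnd).sl.mv (D.hD P hnd).sl.τ (Sum.inl x) (Sum.inl y) (Sum.inl z) ↔
      cA D.sl.mv D.sl.τ x y z := by
    show (((D.hD P hnd).mv (Sum.inl x) (Sum.inl y) ∧
        Sum.inl z = (D.hD P hnd).τ (Sum.inl x) (Sum.inl y)) ∨
      ((D.hD P hnd).mv (Sum.inl z) (Sum.inl y) ∧
        Sum.inl x = (D.hD P hnd).τ (Sum.inl z) (Sum.inl y))) ↔
      ((D.mv x y ∧ z = D.τ x y) ∨ (D.mv z y ∧ x = D.τ z y))
    rw [D.hmv P hnd, D.hmv P hnd]
    constructor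
    · rintro (⟨a, b⟩ | ⟨a, b⟩)
      · rw [D.hτ P hnd a] at b
        exact Or.inl ⟨a, Sum.inl_injective b⟩
      · rw [D.hτ P hnd a] at b
        exact Or.inr ⟨a, Sum.inl_injective b⟩
    · rintro (⟨a, b⟩ | ⟨a, b⟩)
      · refine Or.inl ⟨a, ?_⟩
        rw [D.hτ P hnd a, b]
      · refine Or.inr ⟨a, ?_⟩
        rw [D.hτ P hnd a, b]
  show sg (D.hD P hnd).sl.mv (D.hD P hnd).sl.τ _ _ _ = sg D.sl.mv D.sl.τ _ _ _
  rw [(D.hD P hnd).sg_eq, D.sg_eq, if_congr k1 rfl rfl, if_congr k2 rfl rfl, if_congr k3 rfl rfl]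

/-- a moved new soft -/
theorem hmv_s (hnd : P.ND) {s : P.HS} {y : V} (h : (D.hD P hnd).mv (Sum.inr s) (Sum.inl y)) :
    y = s.1.2 ∧ ∃ g : H, y = g • D.v ∧ ∀ x, K.ar s.1.1 x → g⁻¹ • x ∈ D.R := by
  obtain ⟨g, h1, h2⟩ := h
  have e2 : y = g • D.v := Sum.inl_injective h2
  obtain ⟨h3, h4⟩ := h1
  have h3 : g⁻¹ • s.1.2 = D.v := h3
  refine ⟨?_, g, e2, fun x hx => h4 _ (K.ar_smul g⁻¹ _ _ hx)⟩
  rw [e2, ← h3, smul_inv_smul]

theorem hmv_s' (hnd : P.ND) {s : P.HS} {g : H} (h1 : s.1.2 = g • D.v)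
    (h2 : ∀ x, K.ar s.1.1 x → g⁻¹ • x ∈ D.R) :
    (D.hD P hnd).mv (Sum.inr s) (Sum.inl s.1.2) := by
  refine ⟨g, ⟨?_, fun x hx => ?_⟩, congrArg Sum.inl h1⟩
  · show g⁻¹ • s.1.2 = D.v
    rw [h1, inv_smul_smul]
  · have h3 : K.ar s.1.1 (g • x) := by
      have := K.ar_smul g _ _ hx
      have e : g • (g⁻¹ • s).1.1 = s.1.1 := smul_inv_smul g s.1.1
      rwa [e] at this
    have := h2 _ h3
    rwa [inv_smul_smul] at this

variable {P}

/-- the data of a flipped square -/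
theorem hfl (hnd : P.ND) (i : {i : K.I // P.Hf i}) : ∃ (g : H) (b : V),
    b = P.qt i.1 (P.hj i + 3) ∧ g • P.hT i = P.hT i ∧ g • P.ho i = P.ho i ∧ g • P.ha i = b ∧
    g • b = P.ha i ∧ K.ar (P.hT i) (P.ha i) ∧ K.ar (P.hT i) b ∧ P.ha i ≠ b ∧
    ∀ x, K.ar (P.hT i) x → x = P.ha i ∨ x = b := by
  have hne := P45.ND.h P hnd (P.hj_spec i).1 (P.hj i + 1)
  rw [show P.hj i + 1 + 2 = P.hj i + 3 by rw [add_assoc]; rfl] at hne
  obtain ⟨g, g1, g2, g3, g4⟩ := P45.Fl.g P (P.hj_spec i) hne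
  have e1 : K.ar (P.hT i) (P.ha i) := (P.hj_spec i).2.1
  have e2 : K.ar (P.hT i) (P.qt i.1 (P.hj i + 3)) := by
    have := K.ar_smul g _ _ e1
    have g1' : g • P.hT i = P.hT i := g1
    have g3' : g • P.ha i = P.qt i.1 (P.hj i + 3) := g3
    rwa [g1', g3'] at this
  refine ⟨g, _, rfl, g1, g2, g3, g4, e1, e2, hne, fun x hx => ?_⟩
  rcases K.two _ _ _ _ e1 e2 hx with e | e | e
  · exact absurd e hne
  · exact Or.inr e.symm
  · exact Or.inl e.symm

/-- the corner of a half at the partner -/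
theorem hc_o (hnd : P.ND) (i : {i : K.I // P.Hf i}) {b : V} (hb : b = P.qt i.1 (P.hj i + 3)) :
    D.hv (P.ha i) (P.ho i) b =
      2 * (D.hD P hnd).hv (Sum.inr (P.hs i)) (Sum.inl (P.ho i)) (Sum.inl (P.ha i)) := by
  obtain ⟨g, b', hb', g1, g2, g3, g4, e1, e2, hne, hal⟩ := hfl hnd i
  rw [← hb] at hb'
  subst hb'
  have mvg : D.mv (P.ha i) (P.ho i) → D.mv b' (P.ho i) := by
    intro h
    have := D.sl.mv_smul g _ _ h
    rw [g3, g2] at this
    exact this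
  have mvg' : D.mv b' (P.ho i) → D.mv (P.ha i) (P.ho i) := by
    intro h
    have := D.sl.mv_smul g _ _ h
    rw [g4, g2] at this
    exact this
  have nτ : ∀ x : V, (Sum.inr (P.hs i) : V ⊕ P.HS) ≠ Sum.inl x := by
    intro x
    simp
  by_cases ha : D.mv (P.ha i) (P.ho i)
  · have hb := mvg ha
    have ha' : (D.hD P hnd).mv (Sum.inl (P.ha i)) (Sum.inl (P.ho i)) := (D.hmv P hnd).2 ha
    by_cases ht : D.τ (P.ha i) (P.ho i) = D.τ b' (P.ho i)
    · have v0 : D.hv (P.ha i) (P.ho i) b' = 0 := sg_mv_mv (mv := D.sl.mv) (τ := D.sl.τ) ha hb ht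
      obtain ⟨h, h1, h2, h3⟩ := D.same ha hb ht
      have hs' : (D.hD P hnd).mv (Sum.inr (P.hs i)) (Sum.inl (P.ho i)) :=
        D.hmv_s' P hnd (s := P.hs i) (g := h) h1 (fun x hx => by
          rcases hal x hx with e | e
          · rw [e]
            exact h2
          · rw [e]
            exact h3)
      have hτs : (D.hD P hnd).τ (Sum.inr (P.hs i)) (Sum.inl (P.ho i)) =
          (D.hD P hnd).τ (Sum.inl (P.ha i)) (Sum.inl (P.ho i)) := by
        have k1 : (D.hD P hnd).τ (Sum.inl (P.ha i)) (Sum.inl (P.ho i)) = h • Sum.inl D.a :=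
          (D.hD P hnd).τ_eq (h := h) h2 (congrArg Sum.inl h1)
        have k2 : (D.hD P hnd).τ (Sum.inr (P.hs i)) (Sum.inl (P.ho i)) = h • Sum.inl D.a := by
          refine (D.hD P hnd).τ_eq (h := h) ⟨?_, fun x hx => ?_⟩ (congrArg Sum.inl h1)
          · show h⁻¹ • P.ho i = D.v
            rw [h1, inv_smul_smul]
          · have h3' : K.ar (P.hs i).1.1 (h • x) := by
              have := K.ar_smul h _ _ hx
              have e : h • (h⁻¹ • P.hs i).1.1 = (P.hs i).1.1 := smul_inv_smul h (P.hs i).1.1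
              rwa [e] at this
            rcases hal _ h3' with e | e
            · rw [← e, inv_smul_smul] at h2
              exact h2
            · rw [← e, inv_smul_smul] at h3
              exact h3
        rw [k1, k2]
      have v1 : (D.hD P hnd).hv (Sum.inr (P.hs i)) (Sum.inl (P.ho i)) (Sum.inl (P.ha i)) = 0 :=
        sg_mv_mv (mv := (D.hD P hnd).sl.mv) (τ := (D.hD P hnd).sl.τ) hs' ha' hτs
      rw [v0, v1]
      norm_num
    · have v0 : D.hv (P.ha i) (P.ho i) b' = 2 := by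
        show sg D.sl.mv D.sl.τ _ _ _ = 2
        unfold sg seg
        rw [if_pos (show D.sl.mv (P.ha i) (P.ho i) from ha),
          if_pos (show D.sl.mv b' (P.ho i) from hb),
          if_neg (show ¬ D.sl.τ (P.ha i) (P.ho i) = D.sl.τ b' (P.ho i) from ht)]
        rfl
      have ns : ¬ (D.hD P hnd).mv (Sum.inr (P.hs i)) (Sum.inl (P.ho i)) := by
        intro k
        obtain ⟨-, h, h1, h2⟩ := D.hmv_s P hnd k
        apply ht
        rw [D.τ_eq (h2 _ e1) h1, D.τ_eq (h2 _ e2) h1]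
      have v1 : (D.hD P hnd).hv (Sum.inr (P.hs i)) (Sum.inl (P.ho i)) (Sum.inl (P.ha i)) = 1 := by
        rw [(D.hD P hnd).hv_symm]
        refine sg_mv_not (mv := (D.hD P hnd).sl.mv) (τ := (D.hD P hnd).sl.τ) ha' ns ?_
        intro e
        have e' : (Sum.inr (P.hs i) : V ⊕ P.HS) =
            (D.hD P hnd).τ (Sum.inl (P.ha i)) (Sum.inl (P.ho i)) := e
        rw [D.hτ P hnd ha] at e'
        exact nτ _ e'
      rw [v0, v1]
      norm_num
  · have hb : ¬ D.mv b' (P.ho i) := fun k => ha (mvg' k)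
    have v0 : D.hv (P.ha i) (P.ho i) b' = 0 := sg_not_not (mv := D.sl.mv) (τ := D.sl.τ) ha hb
    have ha' : ¬ (D.hD P hnd).mv (Sum.inl (P.ha i)) (Sum.inl (P.ho i)) := fun k =>
      ha ((D.hmv P hnd).1 k)
    have ns : ¬ (D.hD P hnd).mv (Sum.inr (P.hs i)) (Sum.inl (P.ho i)) := by
      intro k
      obtain ⟨-, h, h1, h2⟩ := D.hmv_s P hnd k
      exact ha ⟨h, h2 _ e1, h1⟩
    have v1 : (D.hD P hnd).hv (Sum.inr (P.hs i)) (Sum.inl (P.ho i)) (Sum.inl (P.ha i)) = 0 :=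
      sg_not_not (mv := (D.hD P hnd).sl.mv) (τ := (D.hD P hnd).sl.τ) ns ha'
    rw [v0, v1]
    norm_num

/-- no move at the top and at the new soft -/
theorem hc_T (hnd : P.ND) (i : {i : K.I // P.Hf i}) :
    (D.hD P hnd).hv (Sum.inl (P.ha i)) (Sum.inl (P.hT i)) (Sum.inr (P.hs i)) = 0 := by
  have e1 : K.ar (P.hT i) (P.ha i) := (P.hj_spec i).2.1
  refine sg_not_not (mv := (D.hD P hnd).sl.mv) (τ := (D.hD P hnd).sl.τ) ?_ ?_
  · intro k
    have k' := D.mv_ar ((D.hmv P hnd).1 k)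
    exact absurd ((K.ar_rk _ _ k').trans (K.ar_rk _ _ e1)) (lt_irrefl _)
  · intro k
    obtain ⟨k1, -⟩ := D.hmv_s P hnd k
    have k1 : P.hT i = P.ho i := k1
    exact P45.ND.h P hnd (P.hj_spec i).1 (P.hj i) k1

theorem hc_s (hnd : P.ND) (x z : V ⊕ P.HS) (s : P.HS) :
    (D.hD P hnd).hv x (Sum.inr s) z = 0 :=
  sg_not_not (mv := (D.hD P hnd).sl.mv) (τ := (D.hD P hnd).sl.τ) (D.hmv_inr P hnd) (D.hmv_inr P hnd)

/-- the sum over a flipped square is twice the sum over its half -/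
theorem hc_half (hnd : P.ND) (x : (P.hK hnd).I) (i : {i : K.I // P.Hf i})
    (hx : x.1 = (Sum.inr i : K.I ⊕ {i : K.I // P.Hf i})) :
    K.ccs i.1 D.hv = 2 * (P.hK hnd).ccs x (D.hD P hnd).hv := by
  obtain ⟨g, b, hb, g1, g2, g3, g4, e1, e2, hne, hal⟩ := hfl hnd i
  have hq : (P.hP hnd).qt x = ![Sum.inl (P.hT i), Sum.inr (P.hs i), Sum.inl (P.ho i),
      Sum.inl (P.ha i)] := by
    show P.hqt x.1 = _
    rw [hx]
    rfl
  have hsq : (P.hP hnd).sq x := by
    show P.hsq x.1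
    rw [hx]
    trivial
  have hccs := (P.hP hnd).ccs4 hsq (D.hD P hnd).hv
  rw [hq, Fin.sum_univ_four] at hccs
  have h0 : (D.hD P hnd).hv (Sum.inl (P.hT i)) (Sum.inr (P.hs i)) (Sum.inl (P.ho i)) = 0 :=
    D.hc_s hnd _ _ _
  have h2 : (D.hD P hnd).hv (Sum.inl (P.ho i)) (Sum.inl (P.ha i)) (Sum.inl (P.hT i)) =
      D.hv (P.ho i) (P.ha i) (P.hT i) := D.hc_old P hnd _ _ _
  have h3 : (D.hD P hnd).hv (Sum.inl (P.ha i)) (Sum.inl (P.hT i)) (Sum.inr (P.hs i)) = 0 :=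
    D.hc_T hnd i
  have hccs' : (P.hK hnd).ccs x (D.hD P hnd).hv =
      (D.hD P hnd).hv (Sum.inl (P.hT i)) (Sum.inr (P.hs i)) (Sum.inl (P.ho i)) +
      (D.hD P hnd).hv (Sum.inr (P.hs i)) (Sum.inl (P.ho i)) (Sum.inl (P.ha i)) +
      (D.hD P hnd).hv (Sum.inl (P.ho i)) (Sum.inl (P.ha i)) (Sum.inl (P.hT i)) +
      (D.hD P hnd).hv (Sum.inl (P.ha i)) (Sum.inl (P.hT i)) (Sum.inr (P.hs i)) := hccs
  rw [hccs', h0, h2, h3, P.ccs4 (P.hj_spec i).1]
  have hrot : ∀ (G : Fin 4 → ℤ) (j : Fin 4), ∑ k, G k = G j + G (j + 1) + G (j + 2) + G (j + 3) := by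
    intro G j
    rw [Fin.sum_univ_four]
    fin_cases j
    · rfl
    · show _ = G 1 + G 2 + G 3 + G 0
      ring
    · show _ = G 2 + G 3 + G 0 + G 1
      ring
    · show _ = G 3 + G 0 + G 1 + G 2
      ring
  rw [hrot _ (P.hj i)]
  have a1 : P.hj i + 1 + 1 = P.hj i + 2 := by rw [add_assoc]; rfl
  have a2 : P.hj i + 2 + 1 = P.hj i + 3 := by rw [add_assoc]; rfl
  have a3 : P.hj i + 3 + 1 = P.hj i := by rw [add_assoc]; exact add_zero _
  have a4 : P.hj i + 1 + 2 = P.hj i + 3 := by rw [add_assoc]; rfl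
  have a5 : P.hj i + 2 + 2 = P.hj i := by rw [add_assoc]; exact add_zero _
  have a6 : P.hj i + 3 + 2 = P.hj i + 1 := by rw [add_assoc]; rfl
  rw [a1, a2, a3, a4, a5, a6, ← hb]
  show D.hv (P.hT i) (P.ha i) (P.ho i) + D.hv (P.ha i) (P.ho i) b + D.hv (P.ho i) b (P.hT i) +
    D.hv b (P.hT i) (P.ha i) = _
  have v1 : D.hv b (P.hT i) (P.ha i) = 0 := by
    refine sg_not_not (mv := D.sl.mv) (τ := D.sl.τ) ?_ ?_
    · intro k
      exact absurd ((K.ar_rk _ _ (D.mv_ar k)).trans (K.ar_rk _ _ e2)) (lt_irrefl _)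
    · intro k
      exact absurd ((K.ar_rk _ _ (D.mv_ar k)).trans (K.ar_rk _ _ e1)) (lt_irrefl _)
  have v2 : D.hv (P.ho i) b (P.hT i) = D.hv (P.ho i) (P.ha i) (P.hT i) := by
    have := D.hv_smul g (P.ho i) (P.ha i) (P.hT i)
    rw [g1, g2, g3] at this
    exact this
  rw [v1, v2, D.hv_symm (P.hT i), D.hc_o hnd i hb]
  ring

end CuD

end Pool.Agent.DI
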