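import Pool.Agent.DI.ELa

/-!
# The HNN end of the E-law, part A: counting flags at a tree with one orbit of vertices and edges

`Hn D w w1`: `w w1` is an edge, all vertices are translates of `w`, all edges at `w` are translates of the
edge (in one of the two directions). `Hn.flags`: the orbits of `stabilizer H w` on flags `(u, z)`,
`z ∈ A w u`, are the orbits of `Je w w1` on `A w w1` and on `A w1 w`.
-/

namespace Pool.Agent.DI

open MulAction
open Pool.Agent.SAF (InC orbs FinOrb oc Decomp SAn SA Conv hull dist_edge FinOrb_iff exists_next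
  mk_eq_iff oc_le_of_inj oc_le_of_rel oc_le_of_surj oc_mono)
open Pool.Agent.BT (PX PQ JS bey exits lz lz_self lz_ne lz_symm x_next_unique)
open Pool.Agent.BT.TA

section

variable {H : Type} [Group H]

/-- a tree with one orbit of vertices and of edges -/
structure Hn (D : Decomp H) (w w1 : D.X) : Prop where
  adj : D.G.Adj w w1
  one : ∀ v : D.X, ∃ g : H, g • v = w
  edg : ∀ u : D.X, D.G.Adj w u → (∃ g : H, g • w = w ∧ g • u = w1) ∨
    (∃ g : H, g • w = w1 ∧ g • u = w)

namespace Hn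

variable {D : Decomp H} {w w1 : D.X} (hn : Hn D w w1)

include hn

/-- an element which moves `w` to `w1` -/
theorem exists_t : ∃ t : H, t • w = w1 := by
  obtain ⟨g, hg⟩ := hn.one w1
  refine ⟨g⁻¹, ?_⟩
  rw [← hg, inv_smul_smul]

/-- no neighbour of `w` is in both orbits -/
theorem not_both {u : D.X} {g k : H} (h1 : g • w = w) (h2 : g • u = w1) (h3 : k • w = w1)
    (h4 : k • u = w) : False := by
  have e1 : g⁻¹ • w = w := by rw [inv_smul_eq_iff]; exact h1.symm
  have e2 : g⁻¹ • w1 = u := by rw [inv_smul_eq_iff]; exact h2.symm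
  apply D.noinv (k * g⁻¹) w w1 hn.adj
  rw [mul_smul, mul_smul, e1, e2]
  exact ⟨h3, h4⟩

/-- orbits on flags at `w` -/
theorem flags {Z : Type} [MulAction H Z] {A : D.X → D.X → Set Z}
    (hA : ∀ (g : H) (a b : D.X) (z : Z), z ∈ A a b → g • z ∈ A (g • a) (g • b))
    (hf : FinOrb ↥(stabilizer H w) {p : D.X × Z | D.G.Adj w p.1 ∧ p.2 ∈ A w p.1}) :
    oc ↥(stabilizer H w) {p : D.X × Z | D.G.Adj w p.1 ∧ p.2 ∈ A w p.1} =
      oc ↥(Je w w1 : Subgroup H) (A w w1) + oc ↥(Je w w1 : Subgroup H) (A w1 w) := by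
  obtain ⟨t, ht⟩ := hn.exists_t
  have ht' : t⁻¹ • w1 = w := by rw [inv_smul_eq_iff]; exact ht.symm
  have hu2 : D.G.Adj w (t⁻¹ • w) := by
    have := D.adj_smul t⁻¹ _ _ hn.adj
    rw [ht'] at this
    exact this.symm
  set K : Subgroup H := stabilizer H w with hK
  set F : Set (D.X × Z) := {p : D.X × Z | D.G.Adj w p.1 ∧ p.2 ∈ A w p.1} with hF
  rw [oc_split hf (fun p => ∃ g : H, g • w = w ∧ g • p.1 = w1) (by
    rintro k ⟨u, z⟩ _ _ ⟨g, h1, h2⟩
    refine ⟨g * k.1⁻¹, ?_, ?_⟩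
    · have hk : k.1⁻¹ • w = w := (K.inv_mem k.2 : k.1⁻¹ ∈ K)
      rw [mul_smul, hk, h1]
    · show (g * k.1⁻¹) • k.1 • u = w1
      rw [← mul_smul, inv_mul_cancel_right]
      exact h2)]
  congr 1
  · -- the first orbit
    symm
    apply le_antisymm
    · apply oc_le_of_inj (hf.mono fun _ h => h.1) (fun z => (w1, z))
      · intro z hz
        exact ⟨⟨hn.adj, hz⟩, 1, one_smul _ _, one_smul _ _⟩
      · rintro z hz z' hz' ⟨g, e⟩
        have e1 : g.1 • w1 = w1 := congrArg Prod.fst e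
        have e2 : g.1 • z = z' := congrArg Prod.snd e
        exact ⟨⟨g.1, g.2, e1⟩, e2⟩
    · have hf2 : FinOrb ↥(Je w w1 : Subgroup H) (A w w1) := by
        apply Pool.Agent.SAF.FinOrb.of_inj hf (fun z => (w1, z))
        · intro z hz
          exact ⟨hn.adj, hz⟩
        · rintro z hz z' hz' ⟨g, e⟩
          have e1 : g.1 • w1 = w1 := congrArg Prod.fst e
          have e2 : g.1 • z = z' := congrArg Prod.snd e
          exact ⟨⟨g.1, g.2, e1⟩, e2⟩
      apply oc_le_of_surj hf2 (fun z => (w1, z))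
      · rintro ⟨u, z⟩ ⟨⟨h1, h2⟩, g, h3, h4⟩
        refine ⟨g • z, ?_, ⟨g⁻¹, K.inv_mem h3⟩, ?_⟩
        · have := hA g _ _ _ h2
          rwa [h3, h4] at this
        · refine Prod.ext ?_ (inv_smul_smul g z)
          show g⁻¹ • w1 = u
          rw [inv_smul_eq_iff]
          exact h4.symm
      · rintro z _ z' _ ⟨g, e⟩
        refine ⟨⟨g.1, g.2.1⟩, Prod.ext ?_ e⟩
        exact g.2.2
  · -- the second orbit
    symm
    have key : ∀ z ∈ A w1 w, ∀ z' ∈ A w1 w, (∃ g : ↥K, g • (t⁻¹ • w, t⁻¹ • z) =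
        (t⁻¹ • w, t⁻¹ • z')) → ∃ j : ↥(Je w w1 : Subgroup H), j • z = z' := by
      rintro z hz z' hz' ⟨g, e⟩
      have e1 : g.1 • t⁻¹ • w = t⁻¹ • w := congrArg Prod.fst e
      have e2 : g.1 • t⁻¹ • z = t⁻¹ • z' := congrArg Prod.snd e
      have e3 : g.1 • w = w := g.2
      refine ⟨⟨t * g.1 * t⁻¹, ?_, ?_⟩, ?_⟩
      · show (t * g.1 * t⁻¹) • w = w
        rw [mul_smul, mul_smul, e1, smul_inv_smul]
      · show (t * g.1 * t⁻¹) • w1 = w1
        rw [mul_smul, mul_smul, ht', e3, ht]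
      · show (t * g.1 * t⁻¹) • z = z'
        rw [mul_smul, mul_smul, e2, smul_inv_smul]
    have mem : ∀ z ∈ A w1 w, (t⁻¹ • w, t⁻¹ • z) ∈ F := by
      intro z hz
      refine ⟨hu2, ?_⟩
      have := hA t⁻¹ _ _ _ hz
      rwa [ht'] at this
    apply le_antisymm
    · apply oc_le_of_inj (hf.mono fun _ h => h.1) (fun z => (t⁻¹ • w, t⁻¹ • z))
      · intro z hz
        refine ⟨mem z hz, ?_⟩
        rintro ⟨g, h1, h2⟩
        refine hn.not_both h1 h2 ht ?_
        exact smul_inv_smul t w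
      · exact key
    · have hf2 : FinOrb ↥(Je w w1 : Subgroup H) (A w1 w) := by
        apply Pool.Agent.SAF.FinOrb.of_inj hf (fun z => (t⁻¹ • w, t⁻¹ • z))
        · exact mem
        · exact key
      apply oc_le_of_surj hf2 (fun z => (t⁻¹ • w, t⁻¹ • z))
      · rintro ⟨u, z⟩ ⟨⟨h1, h2⟩, h5⟩
        rcases hn.edg u h1 with h6 | ⟨g, h3, h4⟩
        · exact absurd h6 h5
        · refine ⟨g • z, ?_, ⟨g⁻¹ * t, ?_⟩, ?_⟩
          · have := hA g _ _ _ h2
            rwa [h3, h4] at this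
          · show (g⁻¹ * t) • w = w
            rw [mul_smul, ht, inv_smul_eq_iff]
            exact h3.symm
          · refine Prod.ext ?_ ?_
            · show (g⁻¹ * t) • t⁻¹ • w = u
              rw [← mul_smul, mul_inv_cancel_right, inv_smul_eq_iff]
              exact h4.symm
            · show (g⁻¹ * t) • t⁻¹ • g • z = z
              rw [← mul_smul, mul_inv_cancel_right, inv_smul_smul]
      · rintro z _ z' _ ⟨j, e⟩
        refine ⟨⟨t⁻¹ * j.1 * t, ?_⟩, Prod.ext ?_ ?_⟩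
        · show (t⁻¹ * j.1 * t) • w = w
          have : j.1 • w1 = w1 := j.2.2
          rw [mul_smul, mul_smul, ht, this, ht']
        · show (t⁻¹ * j.1 * t) • t⁻¹ • w = t⁻¹ • w
          have : j.1 • w = w := j.2.1
          rw [← mul_smul, mul_inv_cancel_right, mul_smul, this]
        · show (t⁻¹ * j.1 * t) • t⁻¹ • z = t⁻¹ • z'
          have e' : j.1 • z = z' := e
          rw [← mul_smul, mul_inv_cancel_right, mul_smul, e']

end Hn

end

end Pool.Agent.DI
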