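import Pool.Agent.DI.HnA

/-!
# The HNN end of the E-law, part B: the graph `T_e / J_e` and the flags at `w`

`Tf w u`: the graph `T_e` of the edge `w u` with the action of `Je w u`. `Hn.count`: for a tree with one
orbit of vertices and edges `2 (nl - ns) = vf + 2 (b1 (T_e / J_e) - 1)` (orbits of `stabilizer H w`).
-/

namespace Pool.Agent.DI

open MulAction
open Pool.Agent.SAF (InC orbs FinOrb oc Decomp SAn SA Conv hull dist_edge FinOrb_iff exists_next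
  mk_eq_iff oc_le_of_inj oc_le_of_rel oc_le_of_surj oc_mono)
open Pool.Agent.BT (PX PQ JS bey exits lz lz_self lz_ne lz_symm x_next_unique)
open Pool.Agent.BT.TA

namespace Sys

variable {H V : Type} [Group H] [MulAction H V] (S : Sys H V)

/-- the elements which cross `w u` -/
def Vn (w u : S.X) : Set V := {x | S.Cs w u x}

/-- the lines at near stars of the edge `w u` -/
def Ln (w u : S.X) : Set (V × V) := {p | ∃ x', S.Qs w u p.2 p.1 x'}

/-- the near stars of the edge `w u` -/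
def Sn (w u : S.X) : Set (TV V) :=
  {s | ∃ x q x', S.Qs w u q x x' ∧ s = TV.st q (S.Star w u q x)}

variable {S}

theorem je_w {w u : S.X} (g : ↥(Je w u : Subgroup H)) : g.1 • w = w := g.2.1

theorem je_u {w u : S.X} (g : ↥(Je w u : Subgroup H)) : g.1 • u = u := g.2.2

theorem Vn_comm (w u : S.X) : S.Vn w u = S.Vn u w := by
  ext x
  exact ⟨Cs.swap, Cs.swap⟩

theorem Vn_smul (g : H) (a b : S.X) (x : V) (h : x ∈ S.Vn a b) : g • x ∈ S.Vn (g • a) (g • b) :=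
  Cs.smul g h

theorem Ln_smul (g : H) (a b : S.X) (p : V × V) (h : p ∈ S.Ln a b) :
    g • p ∈ S.Ln (g • a) (g • b) := by
  obtain ⟨x', h⟩ := h
  exact ⟨g • x', h.smul' g⟩

theorem Sn_smul (g : H) (a b : S.X) (s : TV V) (h : s ∈ S.Sn a b) :
    g • s ∈ S.Sn (g • a) (g • b) := by
  obtain ⟨x, q, x', h, rfl⟩ := h
  exact ⟨g • x, g • q, g • x', h.smul' g, by rw [TV.smul_st, Star_smul]⟩

theorem vf_eq (w : S.X) : S.vf w = {p : S.X × V | S.D.G.Adj w p.1 ∧ p.2 ∈ S.Vn w p.1} := rfl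

theorem nl_eq (w : S.X) :
    S.nl w = {p : S.X × (V × V) | S.D.G.Adj w p.1 ∧ p.2 ∈ S.Ln w p.1} := by
  ext p
  constructor
  · rintro ⟨x', h⟩
    exact ⟨h.adj, x', h⟩
  · rintro ⟨_, x', h⟩
    exact ⟨x', h⟩

theorem ns_eq (w : S.X) :
    S.ns w = {p : S.X × TV V | S.D.G.Adj w p.1 ∧ p.2 ∈ S.Sn w p.1} := by
  ext p
  constructor
  · rintro ⟨x, q, x', h, e⟩
    exact ⟨h.adj, x, q, x', h, e⟩
  · rintro ⟨_, x, q, x', h, e⟩
    exact ⟨x, q, x', h, e⟩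

/-! ### finiteness over one edge -/

theorem fin_fib {Z : Type} [MulAction H Z] {w u : S.X} {A : S.X → S.X → Set Z}
    (ha : S.D.G.Adj w u)
    (hf : FinOrb ↥(stabilizer H w) {p : S.X × Z | S.D.G.Adj w p.1 ∧ p.2 ∈ A w p.1}) :
    FinOrb ↥(Je w u : Subgroup H) (A w u) := by
  apply Pool.Agent.SAF.FinOrb.of_inj hf (fun z => (u, z))
  · intro z hz
    exact ⟨ha, hz⟩
  · rintro z _ z' _ ⟨g, e⟩
    have e1 : g.1 • u = u := congrArg Prod.fst e
    have e2 : g.1 • z = z' := congrArg Prod.snd e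
    exact ⟨⟨g.1, g.2, e1⟩, e2⟩

theorem fin_Vn {w u : S.X} (ha : S.D.G.Adj w u) : FinOrb ↥(Je w u : Subgroup H) (S.Vn w u) :=
  fin_fib (A := S.Vn) ha (by rw [← vf_eq]; exact fin_vf w)

theorem fin_Ln {w u : S.X} (ha : S.D.G.Adj w u) : FinOrb ↥(Je w u : Subgroup H) (S.Ln w u) :=
  fin_fib (A := S.Ln) ha (by rw [← nl_eq]; exact fin_nl w)

theorem fin_Sn {w u : S.X} (ha : S.D.G.Adj w u) : FinOrb ↥(Je w u : Subgroup H) (S.Sn w u) :=
  fin_fib (A := S.Sn) ha (by rw [← ns_eq]; exact fin_ns w)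

theorem finOrb_je {Z : Type} [MulAction H Z] {w u : S.X} {A : Set Z}
    (h : FinOrb ↥(Je u w : Subgroup H) A) : FinOrb ↥(Je w u : Subgroup H) A := by
  apply Pool.Agent.SAF.FinOrb.of_inj h (fun z => z) (fun z hz => hz)
  rintro z _ z' _ ⟨g, e⟩
  exact ⟨⟨g.1, g.2.2, g.2.1⟩, e⟩

/-! ### the graph -/

variable (S)

/-- the vertices of `T_e` -/
def TMs (w u : S.X) : SubMulAction ↥(Je w u : Subgroup H) (TV V) where
  carrier := S.TM w u
  smul_mem' g t h := by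
    rcases h with ⟨x, hx, rfl⟩ | ⟨s, hs⟩
    · refine Or.inl ⟨g.1 • x, ?_, rfl⟩
      have := hx.smul g.1
      rwa [je_w g, je_u g] at this
    · refine Or.inr ⟨g.1 • s, ?_⟩
      have := hs.smul g.1
      rwa [je_w g, je_u g] at this

/-- the lines of `T_e` -/
def TO (w u : S.X) (t s : ↥(S.TMs w u)) : Prop := S.TB w u t.1 s.1 ∨ S.TB u w t.1 s.1

variable {S}

theorem TO.smul {w u : S.X} (g : ↥(Je w u : Subgroup H)) (t s : ↥(S.TMs w u))
    (h : S.TO w u t s) : S.TO w u (g • t) (g • s) := by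
  rcases h with h | h
  · left
    have := h.smul g.1
    rwa [je_w g, je_u g] at this
  · right
    have := h.smul g.1
    rwa [je_w g, je_u g] at this

/-- the vertices of `T_e` are the elements and the near and far stars -/
theorem TM_eq (w u : S.X) : S.TM w u = (TV.el '' S.Vn w u) ∪ (S.Sn w u ∪ S.Sn u w) := by
  ext t
  constructor
  · rintro (⟨x, hx, rfl⟩ | ⟨s, hs⟩)
    · exact Or.inl ⟨x, hx, rfl⟩
    · rcases hs with (h | h) | (h | h)
      · obtain ⟨x, q, x', h1, h2, h3⟩ := h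
        exact Or.inr (Or.inl ⟨x, q, x', h1, h3⟩)
      · obtain ⟨x, q, x', h1, h2, h3⟩ := h
        exact Or.inr (Or.inr ⟨x, q, x', h1, h3⟩)
      · obtain ⟨x, q, x', h1, h2, h3⟩ := h
        exact Or.inl ⟨x, h1.l, h2.symm⟩
      · obtain ⟨x, q, x', h1, h2, h3⟩ := h
        exact Or.inl ⟨x, h1.l.swap, h2.symm⟩
  · rintro (⟨x, hx, rfl⟩ | h | h)
    · exact Or.inl ⟨x, hx, rfl⟩
    · obtain ⟨x, q, x', h1, rfl⟩ := h
      exact Or.inr ⟨TV.el x, Or.inl (Or.inl ⟨x, q, x', h1, rfl, rfl⟩)⟩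
    · obtain ⟨x, q, x', h1, rfl⟩ := h
      exact Or.inr ⟨TV.el x, Or.inl (Or.inr ⟨x, q, x', h1, rfl, rfl⟩)⟩

theorem Sn_disj (w u : S.X) : ∀ s ∈ S.Sn w u, s ∉ S.Sn u w := by
  rintro s ⟨x, q, x', h, rfl⟩ ⟨y, p, y', h', e⟩
  have e1 : q = p := by injection e
  subst e1
  exact h.not_far h'

theorem Sn_inv {w u : S.X} (g : ↥(Je w u : Subgroup H)) (s : TV V) (h : s ∈ S.Sn w u) :
    g • s ∈ S.Sn w u := by
  have := Sn_smul g.1 w u s h
  rwa [je_w g, je_u g] at this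

theorem fin_el {w u : S.X} (ha : S.D.G.Adj w u) :
    FinOrb ↥(Je w u : Subgroup H) (TV.el '' S.Vn w u) := by
  apply Pool.Agent.SAF.FinOrb.of_inj (fin_Vn ha)
    (fun t => match t with | TV.el x => x | TV.st q _ => q)
  · rintro _ ⟨x, hx, rfl⟩
    exact hx
  · rintro _ ⟨x, hx, rfl⟩ _ ⟨y, hy, rfl⟩ ⟨g, e⟩
    exact ⟨g, congrArg TV.el e⟩

theorem fin_TM {w u : S.X} (ha : S.D.G.Adj w u) :
    FinOrb ↥(Je w u : Subgroup H) (S.TM w u) := by
  rw [TM_eq]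
  exact finOrb_union (fin_el ha) (finOrb_union (fin_Sn ha) (finOrb_je (fin_Sn ha.symm)))

theorem oc_el {w u : S.X} (ha : S.D.G.Adj w u) : oc ↥(Je w u : Subgroup H) (TV.el '' S.Vn w u) =
    oc ↥(Je w u : Subgroup H) (S.Vn w u) := by
  apply le_antisymm
  · apply oc_le_of_inj (fin_Vn ha) (fun t => match t with | TV.el x => x | TV.st q _ => q)
    · rintro _ ⟨x, hx, rfl⟩
      exact hx
    · rintro _ ⟨x, hx, rfl⟩ _ ⟨y, hy, rfl⟩ ⟨g, e⟩
      exact ⟨g, congrArg TV.el e⟩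
  · apply oc_le_of_inj (fin_el ha) TV.el
    · intro x hx
      exact ⟨x, hx, rfl⟩
    · rintro x _ y _ ⟨g, e⟩
      refine ⟨g, ?_⟩
      injection e

/-- the number of vertices -/
theorem oc_TM {w u : S.X} (ha : S.D.G.Adj w u) :
    oc ↥(Je w u : Subgroup H) (S.TM w u) = oc ↥(Je w u : Subgroup H) (S.Vn w u) +
      (oc ↥(Je w u : Subgroup H) (S.Sn w u) + oc ↥(Je w u : Subgroup H) (S.Sn u w)) := by
  have f2 := finOrb_je (fin_Sn (S := S) ha.symm)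
  have f1 := finOrb_union (fin_Sn (S := S) ha) f2
  rw [TM_eq, oc_union ?_ (fin_el ha) f1, oc_el ha, oc_union ?_ (fin_Sn ha) f2]
  · exact Dj.of_inv (fun g a h => Sn_inv g a h) (Sn_disj w u)
  · rintro _ ⟨x, _, rfl⟩ g (h | h)
    · obtain ⟨y, q, y', _, e⟩ := h
      cases e
    · obtain ⟨y, q, y', _, e⟩ := h
      cases e

/-! ### lines -/

/-- the lines as pairs of elements and centres -/
def Lf (S : Sys H V) (w u : S.X) : Set (V × V) := S.Ln w u ∪ S.Ln u w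

theorem Ln_inv {w u : S.X} (g : ↥(Je w u : Subgroup H)) (p : V × V) (h : p ∈ S.Ln w u) :
    g • p ∈ S.Ln w u := by
  have := Ln_smul g.1 w u p h
  rwa [je_w g, je_u g] at this

theorem fin_Lf {w u : S.X} (ha : S.D.G.Adj w u) : FinOrb ↥(Je w u : Subgroup H) (S.Lf w u) :=
  finOrb_union (fin_Ln ha) (finOrb_je (fin_Ln ha.symm))

theorem oc_Lf {w u : S.X} (ha : S.D.G.Adj w u) :
    oc ↥(Je w u : Subgroup H) (S.Lf w u) = oc ↥(Je w u : Subgroup H) (S.Ln w u) +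
      oc ↥(Je w u : Subgroup H) (S.Ln u w) := by
  refine oc_union (Dj.of_inv (fun g a h => Ln_inv g a h) ?_) (fin_Ln ha)
    (finOrb_je (fin_Ln ha.symm))
  rintro ⟨x, q⟩ ⟨x', h⟩ ⟨y', h'⟩
  exact h.not_far h'

/-- the pair of a line -/
def lp (p : TV V × TV V) : V × V :=
  (match p.1 with | TV.el x => x | TV.st q _ => q, match p.2 with | TV.el x => x | TV.st q _ => q)

theorem lp_smul (g : H) (p : TV V × TV V) : lp (g • p) = g • lp p := by
  rcases p with ⟨_ | ⟨_, _⟩, _ | ⟨_, _⟩⟩ <;> rfl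

theorem lp_TO {w u : S.X} {t s : ↥(S.TMs w u)} (h : S.TO w u t s) :
    lp (t.1, s.1) ∈ S.Lf w u := by
  rcases h with h | h
  · obtain ⟨x, q, x', h1, h2, h3⟩ := h
    rw [h2, h3]
    exact Or.inl ⟨x', h1⟩
  · obtain ⟨x, q, x', h1, h2, h3⟩ := h
    rw [h2, h3]
    exact Or.inr ⟨x', h1⟩

theorem lp_inj {w u : S.X} {t s t' s' : ↥(S.TMs w u)} (h : S.TO w u t s) (h' : S.TO w u t' s')
    (e : lp (t.1, s.1) = lp (t'.1, s'.1)) : t = t' ∧ s = s' := by
  have hs : ∀ {x q x' y' : V}, S.Qs w u q x x' → S.Qs u w q x y' → False :=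
    fun a b => a.not_far b
  rcases h with h | h <;> rcases h' with h' | h' <;>
    obtain ⟨x, q, x', h1, h2, h3⟩ := h <;> obtain ⟨y, p, y', h1', h2', h3'⟩ := h' <;>
    rw [h2, h3, h2', h3'] at e <;>
    obtain ⟨e1, e2⟩ := Prod.ext_iff.1 e <;>
    have e1 : x = y := e1 <;> have e2 : q = p := e2 <;> subst e1 e2
  · exact ⟨Subtype.ext (h2.trans h2'.symm), Subtype.ext (h3.trans h3'.symm)⟩
  · exact absurd h1' h1.not_far
  · exact absurd h1' h1.not_far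
  · exact ⟨Subtype.ext (h2.trans h2'.symm), Subtype.ext (h3.trans h3'.symm)⟩

theorem fin_TO {w u : S.X} (ha : S.D.G.Adj w u) :
    FinOrb ↥(Je w u : Subgroup H) {p : ↥(S.TMs w u) × ↥(S.TMs w u) | S.TO w u p.1 p.2} := by
  apply Pool.Agent.SAF.FinOrb.of_inj (fin_Lf ha) (fun p => lp (p.1.1, p.2.1))
  · rintro p hp
    exact lp_TO hp
  · rintro p hp p' hp' ⟨g, e⟩
    have h1 : S.TO w u (g • p.1) (g • p.2) := TO.smul g _ _ hp
    have e' : lp ((g • p.1).1, (g • p.2).1) = lp (p'.1.1, p'.2.1) := by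
      rw [← e]
      exact lp_smul g.1 (p.1.1, p.2.1)
    obtain ⟨e1, e2⟩ := lp_inj h1 hp' e'
    exact ⟨g, Prod.ext e1 e2⟩

/-- the number of lines -/
theorem oc_TO {w u : S.X} (ha : S.D.G.Adj w u) :
    oc ↥(Je w u : Subgroup H) {p : ↥(S.TMs w u) × ↥(S.TMs w u) | S.TO w u p.1 p.2} =
      oc ↥(Je w u : Subgroup H) (S.Lf w u) := by
  apply le_antisymm
  · apply oc_le_of_inj (fin_Lf ha) (fun p => lp (p.1.1, p.2.1))
    · rintro p hp
      exact lp_TO hp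
    · rintro p hp p' hp' ⟨g, e⟩
      have h1 : S.TO w u (g • p.1) (g • p.2) := TO.smul g _ _ hp
      have e' : lp ((g • p.1).1, (g • p.2).1) = lp (p'.1.1, p'.2.1) := by
        rw [← e]
        exact lp_smul g.1 (p.1.1, p.2.1)
      obtain ⟨e1, e2⟩ := lp_inj h1 hp' e'
      exact ⟨g, Prod.ext e1 e2⟩
  · apply oc_le_of_surj (fin_TO ha) (fun p => lp (p.1.1, p.2.1))
    · rintro ⟨x, q⟩ (⟨x', h⟩ | ⟨x', h⟩)
      · have ht : TV.el x ∈ S.TM w u := Or.inl ⟨x, h.l, rfl⟩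
        have hs : TV.st q (S.Star w u q x) ∈ S.TM w u :=
          Or.inr ⟨TV.el x, Or.inl (Or.inl ⟨x, q, x', h, rfl, rfl⟩)⟩
        exact ⟨(⟨_, ht⟩, ⟨_, hs⟩), Or.inl ⟨x, q, x', h, rfl, rfl⟩, 1, one_smul _ _⟩
      · have ht : TV.el x ∈ S.TM w u := Or.inl ⟨x, h.l.swap, rfl⟩
        have hs : TV.st q (S.Star u w q x) ∈ S.TM w u :=
          Or.inr ⟨TV.el x, Or.inl (Or.inr ⟨x, q, x', h, rfl, rfl⟩)⟩
        exact ⟨(⟨_, ht⟩, ⟨_, hs⟩), Or.inr ⟨x, q, x', h, rfl, rfl⟩, 1, one_smul _ _⟩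
    · rintro p _ p' _ ⟨g, rfl⟩
      exact ⟨g, (lp_smul g.1 (p.1.1, p.2.1)).symm⟩

/-! ### the graph of `T_e / J_e` -/

variable (S)

/-- the graph `T_e` with the action of `Je` -/
def Tf {w u : S.X} (ha : S.D.G.Adj w u) :
    JM ↥(Je w u : Subgroup H) ↥(S.TMs w u) ↥(oS (S.TO w u) (fun g t s h => TO.smul g t s h)) :=
  JM.ofO (S.TO w u) (fun g t s h => TO.smul g t s h) (finite_orb_sub (S.TMs w u) (fin_TM ha))
    (finite_orb_sub _ (fin_TO ha))

variable {S}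

theorem Tf_cn (hc : S.Conn) {w u : S.X} (ha : S.D.G.Adj w u) : (S.Tf ha).fg.Cn := by
  apply JM.cn_of_conn
  · obtain ⟨x, hx⟩ := hc.crossed w u ha
    exact ⟨⟨TV.el x, Or.inl ⟨x, hx, rfl⟩⟩⟩
  · intro t s
    have h := TE_conn hc ha t.2 s.2
    have key : ∀ a b : TV V, Relation.ReflTransGen (S.TE w u) a b → ∀ (ha' : a ∈ S.TM w u)
        (hb : b ∈ S.TM w u), Relation.EqvGen (S.Tf ha).st ⟨a, ha'⟩ ⟨b, hb⟩ := by
      intro a b h
      induction h with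
      | refl => intro _ _; exact Relation.EqvGen.refl _
      | tail h1 h2 ih =>
        rename_i c d
        intro ha' hd
        have hc' : c ∈ S.TM w u := by
          exact Or.inr ⟨d, h2.symm⟩
        refine Relation.EqvGen.trans _ _ _ (ih ha' hc') ?_
        rcases h2 with h2 | h2
        · exact Relation.EqvGen.rel _ _ ((JM.ofO_st _ _).2 h2)
        · exact Relation.EqvGen.symm _ _ (Relation.EqvGen.rel _ _ ((JM.ofO_st _ _).2 h2))
    exact key _ _ h t.2 s.2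

/-- the Betti number of `T_e / J_e` -/
theorem Tf_b1 (hc : S.Conn) {w u : S.X} (ha : S.D.G.Adj w u) :
    (S.Tf ha).fg.b1 = (oc ↥(Je w u : Subgroup H) (S.Ln w u) +
      oc ↥(Je w u : Subgroup H) (S.Ln u w) : ℤ) - (oc ↥(Je w u : Subgroup H) (S.Vn w u) +
      (oc ↥(Je w u : Subgroup H) (S.Sn w u) + oc ↥(Je w u : Subgroup H) (S.Sn u w))) + 1 := by
  have h1 : (S.Tf ha).fg.nC = 1 := Tf_cn hc ha
  have h2 : (S.Tf ha).fg.nN = oc ↥(Je w u : Subgroup H) (S.TM w u) :=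
    card_orb_sub (S.TMs w u)
  have h3 : (S.Tf ha).fg.nL = oc ↥(Je w u : Subgroup H) (S.Lf w u) := by
    rw [← oc_TO ha]
    exact card_orb_sub (oS (S.TO w u) (fun g t s h => TO.smul g t s h))
  unfold FG.b1
  rw [h1, h2, h3, oc_TM ha, oc_Lf ha]
  push_cast
  ring

end Sys

/-- the flags at a tree with one orbit of vertices and edges -/
theorem Hn.count {H V : Type} [Group H] [MulAction H V] {S : Sys H V} (hc : S.Conn) {w w1 : S.X}
    (hn : Hn S.D w w1) : 2 * (oc ↥(stabilizer H w) (S.nl w) : ℤ) -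
      2 * oc ↥(stabilizer H w) (S.ns w) = oc ↥(stabilizer H w) (S.vf w) +
        2 * ((S.Tf hn.adj).fg.b1 - 1) := by
  have h1 : oc ↥(stabilizer H w) (S.vf w) = oc ↥(Je w w1 : Subgroup H) (S.Vn w w1) +
      oc ↥(Je w w1 : Subgroup H) (S.Vn w1 w) :=
    hn.flags (A := S.Vn) Sys.Vn_smul (Sys.fin_vf w)
  have h2 : oc ↥(stabilizer H w) (S.nl w) = oc ↥(Je w w1 : Subgroup H) (S.Ln w w1) +
      oc ↥(Je w w1 : Subgroup H) (S.Ln w1 w) := by
    rw [Sys.nl_eq]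
    exact hn.flags (A := S.Ln) Sys.Ln_smul (by rw [← Sys.nl_eq]; exact Sys.fin_nl w)
  have h3 : oc ↥(stabilizer H w) (S.ns w) = oc ↥(Je w w1 : Subgroup H) (S.Sn w w1) +
      oc ↥(Je w w1 : Subgroup H) (S.Sn w1 w) := by
    rw [Sys.ns_eq]
    exact hn.flags (A := S.Sn) Sys.Sn_smul (by rw [← Sys.ns_eq]; exact Sys.fin_ns w)
  rw [h1, h2, h3, Sys.Tf_b1 hc hn.adj, Sys.Vn_comm w1 w]
  push_cast
  ring

end Pool.Agent.DI
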