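import Pool.Agent.DI.Zs

/-!
# DI/Hr0: hairs in minimal complexes with listed cells of any length

`Cns b l x z`: `x, z` are consecutive vertices of the walk `b, l`. `K.Pass i x z`: a translate of the
cell `i` passes the edge `x z` (in some direction). A minimal complex (`K.Min`) makes no stutters in the
cells of length at least `5` under quotients (`Qt.stn_long`) and folds (`Fo.stn_long`).

* `GX.Min.hair`: no long cell passes `x → c`, `c` the only out-neighbour of `x`.
* `GX.Min.par`: `x`, `y` have the same two out-neighbours `c, d` and the edge group of `c, d` is small,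
  `t → x`, `t → y`: no long cell passes `t x` or `t y`.
* `GX.Min.fold`: every out-neighbour of `x` is adjacent to `y`, `rk y < rk x`, `Stab x ≤ Stab y`,
  `t → x`, `t → y`: no long cell passes `t x` or `t y`. Instances: `FoldD.gam` (`x → c, d`, `c → y → d`),
  `FoldD.hub` (`x → a, b`, `a → y`, `b → y`).
-/

namespace Pool.Agent.DI

open MulAction
open Pool.Agent.SAF (InC orbs FinOrb oc)

section Cns

variable {V V' : Type}

/-- `x, z` are consecutive vertices of the walk `b, l` -/
def Cns : V → List V → V → V → Prop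
  | _, [], _, _ => False
  | b, y :: l, x, z => (x = b ∧ z = y) ∨ Cns y l x z

theorem Cns.ne {f : V → V'} {b : V} {l : List V} (h : stn f b l = 0) {x z : V}
    (k : Cns b l x z) : f x ≠ f z := by
  induction l generalizing b with
  | nil => exact k.elim
  | cons y l ih =>
    by_cases e : f y = f b
    · rw [stn_cons_eq e] at h
      omega
    · rw [stn_cons_ne e] at h
      rcases k with ⟨rfl, rfl⟩ | k
      · exact fun e' => e e'.symm
      · exact ih h k

theorem Cns.dst {f : V → V'} {b : V} {l : List V} (h : stn f b l = 0) {x z : V}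
    (k : Cns b l x z) : Cns (f b) (dst (f b) (l.map f)) (f x) (f z) := by
  induction l generalizing b with
  | nil => exact k.elim
  | cons y l ih =>
    by_cases e : f y = f b
    · rw [stn_cons_eq e] at h
      omega
    · rw [stn_cons_ne e] at h
      rw [List.map_cons, dst_cons_ne e]
      rcases k with ⟨rfl, rfl⟩ | k
      · exact Or.inl ⟨rfl, rfl⟩
      · exact Or.inr (ih h k)

end Cns

variable {H V V' : Type} [Group H] [MulAction H V] [MulAction H V']

/-- a translate of the cell `i` passes the edge `x z` -/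
def GX.Pass (K : GX H V) (i : K.I) (x z : V) : Prop :=
  ∃ g : H, Cns (K.cb i) (K.cw i) (g • x) (g • z) ∨ Cns (K.cb i) (K.cw i) (g • z) (g • x)

/-- the cell `i` is long -/
def GX.Long (K : GX H V) (i : K.I) : Prop := 5 ≤ (K.cw i).length

namespace Qt

variable {K : GX H V} {f : V → V'} (Q : Qt K f)

theorem stn_long (hi : Function.Injective Q.ι) (hm : K.Min) {j : Q.J} (h5 : K.Long (Q.ι j)) :
    stn f (K.cb (Q.ι j)) (K.cw (Q.ι j)) = 0 := by
  classical
  have := Q.finJ
  have := K.finI
  let := Fintype.ofFinite Q.J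
  let := Fintype.ofFinite K.I
  by_contra hne
  have h5' : 5 ≤ (K.cw (Q.ι j)).length := h5
  have h1 := hm V' Q.gx
  rw [K.area_eq, Q.gx_area] at h1
  have h2 : ∑ j : Q.J, ((K.cw (Q.ι j)).length - stn f (K.cb (Q.ι j)) (K.cw (Q.ι j)) - 4) <
      ∑ j : Q.J, ((K.cw (Q.ι j)).length - 4) := by
    apply Finset.sum_lt_sum
    · intro j _
      omega
    · exact ⟨j, Finset.mem_univ _, by omega⟩
  have h3 : ∑ j : Q.J, ((K.cw (Q.ι j)).length - 4) ≤ ∑ i : K.I, ((K.cw i).length - 4) := by
    calc ∑ j : Q.J, ((K.cw (Q.ι j)).length - 4)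
        = ∑ i ∈ Finset.univ.map ⟨Q.ι, hi⟩, ((K.cw i).length - 4) := by
          rw [Finset.sum_map]
          rfl
      _ ≤ ∑ i : K.I, ((K.cw i).length - 4) :=
        Finset.sum_le_sum_of_subset (Finset.subset_univ _)
  omega

theorem min (hi : Function.Injective Q.ι) (hm : K.Min) : Q.gx.Min := by
  intro V'' _ K''
  exact (Q.area_le hi).trans (hm V'' K'')

theorem long (hi : Function.Injective Q.ι) (hm : K.Min) {j : Q.J} (h5 : K.Long (Q.ι j)) :
    Q.gx.Long j := by
  have h1 := Q.gx_length j
  rw [Q.stn_long hi hm h5] at h1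
  have h5' : 5 ≤ (K.cw (Q.ι j)).length := h5
  show 5 ≤ (Q.gx.cw j).length
  omega

theorem pass (hi : Function.Injective Q.ι) (hm : K.Min) {j : Q.J} (h5 : K.Long (Q.ι j)) {x z : V}
    (h : K.Pass (Q.ι j) x z) : Q.gx.Pass j (f x) (f z) := by
  have h0 := Q.stn_long hi hm h5
  obtain ⟨g, k | k⟩ := h
  · refine ⟨g, Or.inl ?_⟩
    rw [← Q.equi, ← Q.equi]
    exact k.dst h0
  · refine ⟨g, Or.inr ?_⟩
    rw [← Q.equi, ← Q.equi]
    exact k.dst h0

end Qt

namespace Fo

variable {K : GX H V} (F : Fo K)

theorem stn_long (hm : K.Min) {i : K.I} (h5 : K.Long i) : stn F.f (K.cb i) (K.cw i) = 0 := by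
  classical
  have := K.finI
  let := Fintype.ofFinite K.I
  by_contra hne
  have h5' : 5 ≤ (K.cw i).length := h5
  have h1 := hm V F.gx
  rw [K.area_eq, F.gx_area] at h1
  have h2 : ∑ i : K.I, ((K.cw i).length - stn F.f (K.cb i) (K.cw i) - 4) <
      ∑ i : K.I, ((K.cw i).length - 4) := by
    apply Finset.sum_lt_sum
    · intro j _
      omega
    · exact ⟨i, Finset.mem_univ _, by omega⟩
  omega

end Fo

/-- HAIRS: no long cell of a minimal complex passes the edge `x → c`, `c` the only out-neighbour of
`x` -/
theorem GX.Min.hair {K : GX H V} (hm : K.Min) {x c : V} (hc : K.ar x c)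
    (h : ∀ d, K.ar x d → d = c) {i : K.I} (h5 : K.Long i) (hp : K.Pass i x c) : False := by
  have h0 := (hairFo hc h).stn_long hm h5
  have key : ∀ g : H, g • x = x → g • c = c := by
    intro g e
    have := K.ar_smul g _ _ hc
    rw [e] at this
    exact h _ this
  have hcx : ∀ g : H, ¬ ∃ g' : H, g' • x = g • c := by
    rintro g ⟨g', e⟩
    have := congrArg K.rk e
    rw [K.rk_smul, K.rk_smul] at this
    have := K.ar_rk _ _ hc
    omega
  have e : ∀ g : H, (hairFo hc h).f (g • x) = (hairFo hc h).f (g • c) := by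
    intro g
    show hf H x c (g • x) = hf H x c (g • c)
    rw [hf_x key, hf_not (hcx g)]
  obtain ⟨g, k | k⟩ := hp
  · exact k.ne h0 (e g)
  · exact k.ne h0 (e g).symm

/-! ### quotients by invariant equivalence relations -/

section QS

variable (r : Setoid V)

/-- the action on the classes of an invariant equivalence relation -/
abbrev qsAct (hr : ∀ (h : H) (x y : V), r x y → r (h • x) (h • y)) : MulAction H (Quotient r) where
  smul h := Quotient.map (fun x => h • x) (fun x y k => hr h x y k)
  one_smul := by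
    intro c
    induction c using Quotient.inductionOn with
    | h x => exact congrArg (Quotient.mk r) (one_smul H x)
  mul_smul := by
    intro g h c
    induction c using Quotient.inductionOn with
    | h x => exact congrArg (Quotient.mk r) (mul_smul g h x)

end QS

/-! ### parallel vertices -/

section Par

variable (K : GX H V) (x y : V)

/-- `u` is a translate of `x` or `y` -/
def InOr (H : Type) {V : Type} [Group H] [MulAction H V] (x y u : V) : Prop :=
  (∃ g : H, g • x = u) ∨ ∃ g : H, g • y = u

theorem InOr.smul {x y u : V} (h : InOr H x y u) (g : H) : InOr H x y (g • u) := by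
  rcases h with ⟨k, rfl⟩ | ⟨k, rfl⟩
  · exact Or.inl ⟨g * k, mul_smul _ _ _⟩
  · exact Or.inr ⟨g * k, mul_smul _ _ _⟩

theorem InOr.smul_iff {x y u : V} (g : H) : InOr H x y (g • u) ↔ InOr H x y u := by
  refine ⟨fun h => ?_, fun h => h.smul g⟩
  have := h.smul g⁻¹
  rwa [inv_smul_smul] at this

theorem ar_smul_iff (g : H) (u a : V) : K.ar (g • u) a ↔ K.ar u (g⁻¹ • a) := by
  constructor
  · intro h
    have := K.ar_smul g⁻¹ _ _ h
    rwa [inv_smul_smul] at this
  · intro h
    have := K.ar_smul g _ _ h
    rwa [smul_inv_smul] at this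

/-- parallel vertices in the orbits of `x` and `y` -/
def parS : Setoid V where
  r u v := u = v ∨ (InOr H x y u ∧ InOr H x y v ∧ ∀ a, K.ar u a ↔ K.ar v a)
  iseqv :=
    { refl := fun u => Or.inl rfl
      symm := by
        rintro u v (h | ⟨h1, h2, h3⟩)
        · exact Or.inl h.symm
        · exact Or.inr ⟨h2, h1, fun a => (h3 a).symm⟩
      trans := by
        rintro u v t (rfl | ⟨h1, h2, h3⟩) k
        · exact k
        · rcases k with rfl | ⟨k1, k2, k3⟩
          · exact Or.inr ⟨h1, h2, h3⟩
          · exact Or.inr ⟨h1, k2, fun a => (h3 a).trans (k3 a)⟩ }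

theorem parS_smul (h : H) (u v : V) (k : parS K x y u v) : parS K x y (h • u) (h • v) := by
  rcases k with rfl | ⟨k1, k2, k3⟩
  · exact Or.inl rfl
  · refine Or.inr ⟨k1.smul h, k2.smul h, fun a => ?_⟩
    rw [ar_smul_iff, ar_smul_iff]
    exact k3 _

theorem parS_ar {u v : V} (k : parS K x y u v) (a : V) : K.ar u a ↔ K.ar v a := by
  rcases k with rfl | ⟨-, -, k3⟩
  · exact Iff.rfl
  · exact k3 a

instance parAct : MulAction H (Quotient (parS K x y)) := qsAct _ (parS_smul K x y)

theorem par_smul (h : H) (u : V) : (Quotient.mk (parS K x y) (h • u)) = h • Quotient.mk (parS K x y) u := rfl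

theorem par_eq {u v : V} : Quotient.mk (parS K x y) u = Quotient.mk (parS K x y) v ↔
    u = v ∨ (InOr H x y u ∧ InOr H x y v ∧ ∀ a, K.ar u a ↔ K.ar v a) := by
  constructor
  · intro h
    exact Quotient.exact h
  · intro h
    exact Quotient.sound h

/-- the rank of a class -/
noncomputable def parRk (c : Quotient (parS K x y)) : ℕ :=
  sInf {n | ∃ u, Quotient.mk (parS K x y) u = c ∧ K.rk u = n}

theorem parRk_le (u : V) : parRk K x y (Quotient.mk (parS K x y) u) ≤ K.rk u :=
  Nat.sInf_le ⟨u, rfl, rfl⟩

theorem parRk_ex (c : Quotient (parS K x y)) :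
    ∃ u, Quotient.mk (parS K x y) u = c ∧ K.rk u = parRk K x y c := by
  have h : {n | ∃ u, Quotient.mk (parS K x y) u = c ∧ K.rk u = n}.Nonempty := by
    obtain ⟨u, hu⟩ := Quotient.exists_rep c
    exact ⟨K.rk u, u, hu, rfl⟩
  exact Nat.sInf_mem h

variable {K x y}

/-- the stabiliser of a class of parallel vertices -/
theorem par_inC {c d : V} (hx : ∀ a, K.ar x a ↔ a = c ∨ a = d)
    (hy : ∀ a, K.ar y a ↔ a = c ∨ a = d) (hI : InC ↥(stabilizer H c ⊓ stabilizer H d))
    (v : Quotient (parS K x y)) : InC ↥(stabilizer H v) := by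
  induction v using Quotient.inductionOn with
  | h u =>
    by_cases hu : InOr H x y u
    · obtain ⟨g, hg⟩ : ∃ g : H, ∀ a, K.ar u a ↔ a = g • c ∨ a = g • d := by
        rcases hu with ⟨g, rfl⟩ | ⟨g, rfl⟩
        · refine ⟨g, fun a => ?_⟩
          rw [ar_smul_iff, hx, inv_smul_eq_iff, inv_smul_eq_iff]
        · refine ⟨g, fun a => ?_⟩
          rw [ar_smul_iff, hy, inv_smul_eq_iff, inv_smul_eq_iff]
      have hst : ∀ h : H, h • (Quotient.mk (parS K x y) u) = Quotient.mk (parS K x y) u →
          (h • g • c = g • c ∨ h • g • c = g • d) ∧ (h • g • d = g • c ∨ h • g • d = g • d) := by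
        intro h e
        have k := Quotient.exact (s := parS K x y) (a := h • u) (b := u) e
        have k2 := parS_ar K x y k
        have k3 : ∀ a, K.ar u a → K.ar u (h • a) := fun a ha =>
          (k2 _).1 (K.ar_smul h _ _ ha)
        exact ⟨(hg _).1 (k3 _ ((hg _).2 (Or.inl rfl))), (hg _).1 (k3 _ ((hg _).2 (Or.inr rfl)))⟩
      set N := stabilizer H (Quotient.mk (parS K x y) u) with hN
      -- the subgroup fixing both
      let A : Subgroup ↥N := (stabilizer H (g • c) ⊓ stabilizer H (g • d)).subgroupOf N
      have hA : InC ↥A := by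
        let φ : ↥A →* ↥(stabilizer H c ⊓ stabilizer H d) :=
          { toFun := fun h => ⟨g⁻¹ * h.1.1 * g, by
              have h1 : (h.1.1 : H) ∈ stabilizer H (g • c) ⊓ stabilizer H (g • d) := h.2
              obtain ⟨h2, h3⟩ := h1
              constructor
              · show (g⁻¹ * h.1.1 * g) • c = c
                rw [mul_smul, mul_smul, show (h.1.1 : H) • g • c = g • c from h2, inv_smul_smul]
              · show (g⁻¹ * h.1.1 * g) • d = d
                rw [mul_smul, mul_smul, show (h.1.1 : H) • g • d = g • d from h3, inv_smul_smul]⟩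
            map_one' := by
              apply Subtype.ext
              show g⁻¹ * 1 * g = 1
              rw [mul_one, inv_mul_cancel]
            map_mul' := by
              intro a b
              apply Subtype.ext
              show g⁻¹ * (a.1.1 * b.1.1) * g = (g⁻¹ * a.1.1 * g) * (g⁻¹ * b.1.1 * g)
              group }
        refine BT.InC.inj φ ?_ hI
        intro a b e
        have e1 : g⁻¹ * a.1.1 * g = g⁻¹ * b.1.1 * g := congrArg Subtype.val e
        have e2 : (a.1.1 : H) = b.1.1 := mul_left_cancel (mul_right_cancel e1)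
        exact Subtype.ext (Subtype.ext e2)
      refine SAG.InC.of_index A hA ?_
      -- index at most two
      have key : ∀ h h' : ↥N, h.1 • g • c ≠ g • c ∨ h.1 • g • d ≠ g • d →
          h'.1 • g • c ≠ g • c ∨ h'.1 • g • d ≠ g • d → h * h' ∈ A := by
        intro h h' e e'
        have k := hst h.1 h.2
        have k' := hst h'.1 h'.2
        show h.1 * h'.1 ∈ stabilizer H (g • c) ⊓ stabilizer H (g • d)
        have hcd : ∀ k : H, k • g • c = k • g • d → g • c = g • d := fun k e =>
          smul_left_cancel _ e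
        constructor
        · show (h.1 * h'.1) • g • c = g • c
          rw [mul_smul]
          grind
        · show (h.1 * h'.1) • g • d = g • d
          rw [mul_smul]
          grind
      have hle : A.index ≤ 2 ∧ A.index ≠ 0 := by
        by_cases hall : ∀ h : ↥N, h.1 • g • c = g • c ∧ h.1 • g • d = g • d
        · have : A = ⊤ := by
            rw [eq_top_iff]
            intro h _
            exact hall h
          rw [this, Subgroup.index_top]
          exact ⟨by norm_num, by norm_num⟩
        · push Not at hall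
          obtain ⟨s, hs⟩ := hall
          have hs' : s.1 • g • c ≠ g • c ∨ s.1 • g • d ≠ g • d := by
            by_contra hcon
            push Not at hcon
            exact hs hcon.1 hcon.2
          have : A.index = 2 := by
            rw [Subgroup.index_eq_two_iff]
            refine ⟨s, fun h => ?_⟩
            by_cases hh : h ∈ A
            · right
              refine ⟨hh, ?_⟩
              intro hcon
              have h1 : s ∈ A := (Subgroup.mul_mem_cancel_left A hh).1 hcon
              rcases hs' with e | e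
              · exact e h1.1
              · exact e h1.2
            · left
              refine ⟨key h s ?_ hs', hh⟩
              by_contra hcon
              push Not at hcon
              exact hh hcon
          rw [this]
          exact ⟨le_refl _, by norm_num⟩
      exact hle.2
    · refine SAG.InC.mono ?_ (K.stab u)
      intro h e
      have k := Quotient.exact (s := parS K x y) (a := h • u) (b := u) e
      rcases k with k | ⟨-, k2, -⟩
      · exact k
      · exact absurd k2 hu

/-- the quotient by the parallel classes -/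
noncomputable def parQ {c d : V} (hx : ∀ a, K.ar x a ↔ a = c ∨ a = d)
    (hy : ∀ a, K.ar y a ↔ a = c ∨ a = d) (hI : InC ↥(stabilizer H c ⊓ stabilizer H d)) :
    Qt K (fun u => Quotient.mk (parS K x y) u) where
  ar p q := ∃ u v, Quotient.mk (parS K x y) u = p ∧ Quotient.mk (parS K x y) v = q ∧ K.ar u v
  rk := parRk K x y
  equi _ _ := rfl
  surj := Quotient.exists_rep
  ar_rk := by
    rintro _ _ ⟨u, v, rfl, rfl, h⟩
    obtain ⟨u', hu', e⟩ := parRk_ex K x y (Quotient.mk (parS K x y) u)
    rw [← e]
    have h' : K.ar u' v := (parS_ar K x y (Quotient.exact hu') v).2 h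
    exact (parRk_le K x y v).trans_lt (K.ar_rk _ _ h')
  ar_smul := by
    rintro g _ _ ⟨u, v, rfl, rfl, h⟩
    exact ⟨g • u, g • v, rfl, rfl, K.ar_smul g _ _ h⟩
  rk_smul := by
    intro g q
    have key : ∀ (g : H) (q : Quotient (parS K x y)), parRk K x y (g • q) ≤ parRk K x y q := by
      intro g q
      obtain ⟨u, rfl, e⟩ := parRk_ex K x y q
      rw [← e, ← K.rk_smul g u]
      exact parRk_le K x y (g • u)
    refine le_antisymm (key g q) ?_
    have := key g⁻¹ (g • q)
    rwa [inv_smul_smul] at this
  two := by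
    rintro _ _ _ _ ⟨u, a, rfl, rfl, ha⟩ ⟨u', b, hu', rfl, hb⟩ ⟨u'', e, hu'', rfl, he⟩
    have hb' := (parS_ar K x y (Quotient.exact hu') b).1 hb
    have he' := (parS_ar K x y (Quotient.exact hu'') e).1 he
    rcases K.two u a b e ha hb' he' with k | k | k
    · exact Or.inl (by rw [k])
    · exact Or.inr (Or.inl (by rw [k]))
    · exact Or.inr (Or.inr (by rw [k]))
  e1 := by
    rintro u v (e | e)
    · exact Or.inr (Or.inl ⟨u, v, rfl, rfl, e⟩)
    · exact Or.inr (Or.inr ⟨v, u, rfl, rfl, e⟩)
  e2 := by
    rintro _ _ ⟨u, v, rfl, rfl, h⟩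
    exact ⟨u, v, Or.inl h, rfl, rfl⟩
  mg := by
    intro u v h
    apply mg_of_eqv
    rcases Quotient.exact (s := parS K x y) h with k | ⟨k1, k2, k3⟩
    · exact k ▸ Relation.EqvGen.refl _
    · refine Relation.EqvGen.rel _ _ ⟨h, Or.inl ?_⟩
      obtain ⟨a, ha⟩ : ∃ a, K.ar u a := by
        rcases k1 with ⟨g, rfl⟩ | ⟨g, rfl⟩
        · exact ⟨g • c, K.ar_smul g _ _ ((hx c).2 (Or.inl rfl))⟩
        · exact ⟨g • c, K.ar_smul g _ _ ((hy c).2 (Or.inl rfl))⟩
      exact ⟨a, Or.inr ha, Or.inr ((k3 a).1 ha)⟩
  stab := par_inC hx hy hI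
  J := K.I
  finJ := K.finI
  ι := id
  drop i hi := absurd rfl (hi i)

/-- PARALLEL POLES: `x`, `y` have the same two out-neighbours, `t → x`, `t → y`: no long cell passes the
edge `t x` -/
theorem GX.Min.par (hm : K.Min) {c d : V} (hx : ∀ a, K.ar x a ↔ a = c ∨ a = d)
    (hy : ∀ a, K.ar y a ↔ a = c ∨ a = d) (hI : InC ↥(stabilizer H c ⊓ stabilizer H d))
    {t : V} (tx : K.ar t x) (ty : K.ar t y) (hne : x ≠ y) {i : K.I} (h5 : K.Long i)
    (hp : K.Pass i t x) : False := by
  set Q := parQ hx hy hI with hQ
  have hi : Function.Injective Q.ι := fun a b e => e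
  have exy : Quotient.mk (parS K x y) x = Quotient.mk (parS K x y) y :=
    (par_eq K x y).2 (Or.inr ⟨Or.inl ⟨1, one_smul _ _⟩, Or.inr ⟨1, one_smul _ _⟩,
      fun a => (hx a).trans (hy a).symm⟩)
  have h1 : Q.gx.Min := Q.min hi hm
  have h2 : Q.gx.Long i := Q.long hi hm (j := i) h5
  have h3 : Q.gx.Pass i (Quotient.mk (parS K x y) t) (Quotient.mk (parS K x y) x) :=
    Q.pass hi hm (j := i) h5 hp
  refine h1.hair (x := Quotient.mk (parS K x y) t) (c := Quotient.mk (parS K x y) x)
    ⟨t, x, rfl, rfl, tx⟩ ?_ h2 h3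
  rintro _ ⟨u, v, hu, rfl, h⟩
  have h' := (parS_ar K x y (Quotient.exact hu) v).1 h
  rcases K.two t x y v tx ty h' with k | k | k
  · exact absurd k hne
  · rw [← k, exy]
  · rw [← k]

end Par

/-! ### folding a vertex into a vertex of smaller rank -/

section Gam

variable {K : GX H V} {x y : V}

/-- data of the fold `x ↦ y`: every out-neighbour of `x` is adjacent to `y` -/
structure FoldD (K : GX H V) (x y : V) : Prop where
  out : ∀ a, K.ar x a → K.ar a y ∨ K.ar y a
  ex : ∃ a, K.ar x a
  rk : K.rk y < K.rk x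
  st : ∀ g : H, g • x = x → g • y = y

namespace FoldD

section

variable (D : FoldD K x y)
include D

theorem f_x (g : H) : hf H x y (g • x) = g • y := hf_x D.st g

theorem not_gy (g : H) : ¬ ∃ g' : H, g' • x = g • y := by
  rintro ⟨g', e⟩
  have := congrArg K.rk e
  rw [K.rk_smul, K.rk_smul] at this
  have := D.rk
  omega

theorem f_y : hf H x y y = y := by
  have k2 := D.not_gy 1
  rw [one_smul] at k2
  exact hf_not k2

theorem f_x1 : hf H x y x = y := by
  have k1 := D.f_x 1
  rwa [one_smul, one_smul] at k1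

end

theorem not_ga {a : V} (h : K.ar x a) (g : H) : ¬ ∃ g' : H, g' • x = g • a := by
  rintro ⟨g', e⟩
  have := congrArg K.rk e
  rw [K.rk_smul, K.rk_smul] at this
  have := K.ar_rk _ _ h
  omega

theorem dic (H : Type) {V : Type} [Group H] [MulAction H V] (x u : V) :
    (∃ g : H, u = g • x) ∨ ¬ ∃ g : H, g • x = u := by
  by_cases k : ∃ g : H, g • x = u
  · obtain ⟨g, k⟩ := k
    exact Or.inl ⟨g, k.symm⟩
  · exact Or.inr k

section

variable (D : FoldD K x y)
include D

theorem idem (u : V) : hf H x y (hf H x y u) = hf H x y u := by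
  rcases dic H x u with ⟨g, rfl⟩ | k
  · rw [D.f_x, hf_not (D.not_gy g)]
  · rw [hf_not k, hf_not k]

theorem f_smul (g : H) (u : V) : hf H x y (g • u) = g • hf H x y u := by
  rcases dic H x u with ⟨k, rfl⟩ | k
  · rw [← mul_smul, D.f_x, D.f_x, mul_smul]
  · rw [hf_not k, hf_not]
    rintro ⟨g', e⟩
    exact k ⟨g⁻¹ * g', by rw [mul_smul, e, inv_smul_smul]⟩

theorem rk_f (u : V) : K.rk (hf H x y u) ≤ K.rk u := by
  rcases dic H x u with ⟨g, rfl⟩ | k
  · rw [D.f_x, K.rk_smul, K.rk_smul]
    exact D.rk.le
  · rw [hf_not k]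

end

end FoldD

/-- the vertices of the fold -/
def GamV (H : Type) {V : Type} [Group H] [MulAction H V] (x y : V) : Type := {u : V // hf H x y u = u}

theorem FoldD.act (D : FoldD K x y) : ∀ (g : H) (u : V), hf H x y u = u → hf H x y (g • u) = g • u := by
  intro g u h
  rw [D.f_smul, h]

/-- the action on the fixed vertices of the retraction -/
noncomputable abbrev gamAct (D : FoldD K x y) : MulAction H (GamV H x y) where
  smul g u := ⟨g • u.1, D.act g u.1 u.2⟩
  one_smul u := Subtype.ext (one_smul H u.1)
  mul_smul g h u := Subtype.ext (mul_smul g h u.1)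

/-- FOLD: every out-neighbour of `x` is adjacent to `y`, `t → x`, `t → y`: no long cell passes the edge
`t x` or `t y` -/
theorem GX.Min.fold (hm : K.Min) (D : FoldD K x y) {t : V} (tx : K.ar t x) (ty : K.ar t y)
    {i : K.I} (h5 : K.Long i) (hp : K.Pass i t x ∨ K.Pass i t y) : False := by
  let _ := gamAct D
  let f : V → GamV H x y := fun u => ⟨hf H x y u, D.idem u⟩
  have f1 : ∀ {u : V}, (¬ ∃ g : H, g • x = u) → (f u).1 = u := fun h => hf_not h
  have hout : ∀ u : GamV H x y, ¬ ∃ g : H, g • x = u.1 := by
    rintro ⟨u, hu⟩ ⟨g, rfl⟩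
    rw [D.f_x] at hu
    exact D.not_gy g ⟨g, hu.symm⟩
  have fu : ∀ u : GamV H x y, f u.1 = u := fun u => Subtype.ext u.2
  have fgx : ∀ g : H, f (g • x) = f (g • y) := by
    intro g
    apply Subtype.ext
    show hf H x y (g • x) = hf H x y (g • y)
    rw [D.f_x, hf_not (D.not_gy g)]
  let Q : Qt K f :=
    { ar := fun u v => ∃ v0, K.ar u.1 v0 ∧ f v0 = v
      rk := fun u => K.rk u.1
      equi := fun g u => Subtype.ext (D.f_smul g u)
      surj := fun u => ⟨u.1, fu u⟩
      ar_rk := by
        rintro u _ ⟨v0, h, rfl⟩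
        exact (D.rk_f v0).trans_lt (K.ar_rk _ _ h)
      ar_smul := by
        rintro g u _ ⟨v0, h, rfl⟩
        exact ⟨g • v0, K.ar_smul g _ _ h, Subtype.ext (D.f_smul g v0)⟩
      rk_smul := fun g u => K.rk_smul g u.1
      two := by
        rintro u _ _ _ ⟨a, ha, rfl⟩ ⟨b, hb, rfl⟩ ⟨e, he, rfl⟩
        rcases K.two u.1 a b e ha hb he with k | k | k
        · exact Or.inl (by rw [k])
        · exact Or.inr (Or.inl (by rw [k]))
        · exact Or.inr (Or.inr (by rw [k]))
      e1 := by
        have main : ∀ u v, K.ar u v → f u = f v ∨ ((∃ v0, K.ar (f u).1 v0 ∧ f v0 = f v) ∨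
            ∃ v0, K.ar (f v).1 v0 ∧ f v0 = f u) := by
          intro u v e
          rcases FoldD.dic H x u with ⟨g, rfl⟩ | k
          · have e' := K.ar_smul g⁻¹ _ _ e
            rw [inv_smul_smul] at e'
            have hv : v = g • (g⁻¹ • v) := (smul_inv_smul g v).symm
            rcases D.out _ e' with h | h
            · right; right
              refine ⟨g • y, ?_, (fgx g).symm⟩
              rw [hv, f1 (FoldD.not_ga e' g)]
              exact K.ar_smul g _ _ h
            · right; left
              refine ⟨v, ?_, rfl⟩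
              show K.ar (hf H x y (g • x)) v
              rw [D.f_x, hv]
              exact K.ar_smul g _ _ h
          · right; left
            refine ⟨v, ?_, rfl⟩
            rw [f1 k]
            exact e
        rintro u v (e | e)
        · exact main u v e
        · rcases main v u e with k | k | k
          · exact Or.inl k.symm
          · exact Or.inr (Or.inr k)
          · exact Or.inr (Or.inl k)
      e2 := by
        rintro u _ ⟨v0, h, rfl⟩
        exact ⟨u.1, v0, Or.inl h, fu u, rfl⟩
      mg := by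
        intro u v h
        apply mg_of_eqv
        have key : ∀ u, Relation.EqvGen (fun a b => f a = f b ∧
            ((∃ c, K.E c a ∧ K.E c b) ∨ K.E a b)) u (f u).1 := by
          intro u
          rcases FoldD.dic H x u with ⟨g, rfl⟩ | k
          · obtain ⟨a, ha⟩ := D.ex
            refine Relation.EqvGen.rel _ _ ⟨(fu _).symm, Or.inl ⟨g • a, ?_, ?_⟩⟩
            · exact Or.inr (K.ar_smul g _ _ ha)
            · show K.E (g • a) (hf H x y (g • x))
              rw [D.f_x]
              rcases D.out _ ha with h | h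
              · exact Or.inl (K.ar_smul g _ _ h)
              · exact Or.inr (K.ar_smul g _ _ h)
          · rw [f1 k]
            exact Relation.EqvGen.refl _
        refine Relation.EqvGen.trans _ _ _ (key u) ?_
        rw [h]
        exact Relation.EqvGen.symm _ _ (key v)
      stab := by
        intro u
        refine SAG.InC.mono ?_ (K.stab u.1)
        intro g e
        exact congrArg Subtype.val e
      J := K.I
      finJ := K.finI
      ι := id
      drop := fun i hi => absurd rfl (hi i) }
  have hi : Function.Injective Q.ι := fun a b e => e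
  have h1 : Q.gx.Min := Q.min hi hm
  have h2 : Q.gx.Long i := Q.long hi hm (j := i) h5
  have exy : f x = f y := by
    have := fgx 1
    rwa [one_smul, one_smul] at this
  have hnt : ¬ ∃ g : H, g • x = t := by
    rintro ⟨g, rfl⟩
    have := K.ar_rk _ _ tx
    rw [K.rk_smul] at this
    exact lt_irrefl _ this
  have h3 : Q.gx.Pass i (f t) (f x) := by
    rcases hp with hp | hp
    · exact Q.pass hi hm (j := i) h5 hp
    · rw [exy]
      exact Q.pass hi hm (j := i) h5 hp
  refine h1.hair (x := f t) (c := f x) ⟨x, ?_, rfl⟩ ?_ h2 h3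
  · rw [f1 hnt]
    exact tx
  · rintro _ ⟨v, h, rfl⟩
    rw [f1 hnt] at h
    have hne : x ≠ y := by
      intro e
      have := D.rk
      rw [e] at this
      exact lt_irrefl _ this
    rcases K.two t x y v tx ty h with k | k | k
    · exact absurd k hne
    · rw [← k, exy]
    · rw [← k]

/-- GAMMA: `x → c`, `x → d` only, `c → y → d` -/
theorem FoldD.gam {c d : V} (hx : ∀ a, K.ar x a ↔ a = c ∨ a = d) (cy : K.ar c y) (yd : K.ar y d)
    (st : ∀ g : H, g • x = x → g • y = y) : FoldD K x y where
  out a h := by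
    rcases (hx a).1 h with rfl | rfl
    · exact Or.inl cy
    · exact Or.inr yd
  ex := ⟨c, (hx c).2 (Or.inl rfl)⟩
  rk := (K.ar_rk _ _ cy).trans (K.ar_rk _ _ ((hx c).2 (Or.inl rfl)))
  st := st

/-- TWO-POLE HUB: `x → a`, `x → b` only, `a → y`, `b → y` -/
theorem FoldD.hub {a b : V} (hx : ∀ c, K.ar x c ↔ c = a ∨ c = b) (ay : K.ar a y) (bY : K.ar b y)
    (st : ∀ g : H, g • x = x → g • y = y) : FoldD K x y where
  out c h := by
    rcases (hx c).1 h with rfl | rfl
    · exact Or.inl ay
    · exact Or.inl bY
  ex := ⟨a, (hx a).2 (Or.inl rfl)⟩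
  rk := (K.ar_rk _ _ ay).trans (K.ar_rk _ _ ((hx a).2 (Or.inl rfl)))
  st := st

end Gam

end Pool.Agent.DI
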