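import Pool.Agent.DI.PGA
import Pool.Agent.DI.Quot
import Pool.Agent.DI.Count

/-!
# DI/SqF: partial folds of squares

`D : SqF K`: an invariant set `D.O` of tops with partners `D.ρ` (the partner is adjacent to all poles of
the top and has smaller rank). `D.F`: the retraction onto the other vertices `D.W`. `D.qt : Qt K D.F`:
the folded complex `D.gx` (cells which become backtracking are dropped). In a minimal complex the
pentagons are kept and have no stutters (`D.pg`), the fold is minimal (`D.min`); real corners of the fold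
are the images of the real corners (`D.cn5`).
-/

namespace Pool.Agent.DI

open MulAction
open Pool.Agent.SAF (InC orbs FinOrb oc)
open Pool.Agent.BT (HG Mg lz lz_self lz_ne lz_symm)

variable {H V : Type} [Group H] [MulAction H V]

/-- a set of tops with partners -/
structure SqF (K : GX H V) where
  O : V → Prop
  ρ : V → V
  O_smul : ∀ (h : H) (x : V), O x → O (h • x)
  ρ_smul : ∀ (h : H) (x : V), O x → ρ (h • x) = h • ρ x
  ρ_rk : ∀ x, O x → K.rk (ρ x) < K.rk x
  ρ_E : ∀ x a, O x → K.ar x a → K.E (ρ x) a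
  ρ_ex : ∀ x, O x → ∃ a, K.ar x a

namespace SqF

variable {K : GX H V} (D : SqF K)

theorem O_iff (h : H) (x : V) : D.O (h • x) ↔ D.O x := by
  refine ⟨fun k => ?_, D.O_smul h x⟩
  have := D.O_smul h⁻¹ _ k
  rwa [inv_smul_smul] at this

open Classical in
/-- the retraction -/
noncomputable def f (x : V) : V := if h : D.O x then f (D.ρ x) else x
termination_by K.rk x
decreasing_by exact D.ρ_rk x h

theorem f_not {x : V} (h : ¬ D.O x) : D.f x = x := by
  rw [f, dif_neg h]

theorem f_O {x : V} (h : D.O x) : D.f x = D.f (D.ρ x) := by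
  rw [f, dif_pos h]

/-- induction along the fold -/
theorem ind {p : V → Prop} (h0 : ∀ x, ¬ D.O x → p x) (h1 : ∀ x, D.O x → p (D.ρ x) → p x) (x : V) :
    p x := by
  induction hn : K.rk x using Nat.strong_induction_on generalizing x with
  | _ n ih =>
    by_cases h : D.O x
    · exact h1 x h (ih _ (by rw [← hn]; exact D.ρ_rk x h) _ rfl)
    · exact h0 x h

theorem not_O_f (x : V) : ¬ D.O (D.f x) :=
  D.ind (p := fun x => ¬ D.O (D.f x)) (fun x h => by rwa [D.f_not h])
    (fun x h k => by rwa [D.f_O h]) x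

theorem f_f (x : V) : D.f (D.f x) = D.f x := D.f_not (D.not_O_f x)

theorem f_smul (h : H) (x : V) : D.f (h • x) = h • D.f x :=
  D.ind (p := fun x => D.f (h • x) = h • D.f x)
    (fun x k => by rw [D.f_not k, D.f_not (fun e => k ((D.O_iff h x).1 e))])
    (fun x k e => by rw [D.f_O k, D.f_O ((D.O_iff h x).2 k), D.ρ_smul h x k, e]) x

theorem rk_f (x : V) : K.rk (D.f x) ≤ K.rk x :=
  D.ind (p := fun x => K.rk (D.f x) ≤ K.rk x) (fun x k => by rw [D.f_not k])
    (fun x k e => by
      rw [D.f_O k]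
      have := D.ρ_rk x k
      omega) x

theorem rk_f_lt {x : V} (h : D.O x) : K.rk (D.f x) < K.rk x := by
  rw [D.f_O h]
  have h1 := D.ρ_rk x h
  have h2 := D.rk_f (D.ρ x)
  omega

/-- the remaining vertices -/
def W : Type := {x : V // ¬ D.O x}

instance : MulAction H D.W where
  smul h x := ⟨h • x.1, fun k => x.2 ((D.O_iff h x.1).1 k)⟩
  one_smul x := Subtype.ext (one_smul H x.1)
  mul_smul g h x := Subtype.ext (mul_smul g h x.1)

theorem smul_coe (h : H) (x : D.W) : (h • x).1 = h • x.1 := rfl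

/-- the quotient map -/
noncomputable def F (x : V) : D.W := ⟨D.f x, D.not_O_f x⟩

theorem F_coe (x : V) : (D.F x).1 = D.f x := rfl

theorem F_eq {x y : V} : D.F x = D.F y ↔ D.f x = D.f y :=
  ⟨fun h => congrArg Subtype.val h, fun h => Subtype.ext h⟩

theorem F_val (c : D.W) : D.F c.1 = c := Subtype.ext (D.f_not c.2)

theorem F_not {x : V} (h : ¬ D.O x) : D.F x = ⟨x, h⟩ := Subtype.ext (D.f_not h)

theorem F_smul (h : H) (x : V) : D.F (h • x) = h • D.F x := Subtype.ext (D.f_smul h x)

/-- the arrows of the fold -/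
def ar' (c d : D.W) : Prop := ∃ a, K.ar c.1 a ∧ D.F a = d

/-- the images of adjacent vertices -/
theorem e1 {x y : V} (e : K.E x y) :
    D.F x = D.F y ∨ (D.ar' (D.F x) (D.F y) ∨ D.ar' (D.F y) (D.F x)) := by
  induction hn : K.rk x + K.rk y using Nat.strong_induction_on generalizing x y with
  | _ n ih =>
    have key : ∀ x y, K.ar x y → K.rk x + K.rk y = n →
        D.F x = D.F y ∨ (D.ar' (D.F x) (D.F y) ∨ D.ar' (D.F y) (D.F x)) := by
      intro x y e hn
      by_cases hx : D.O x
      · have h1 := ih _ (by have := D.ρ_rk x hx; omega) (D.ρ_E x y hx e) rfl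
        have h2 : D.F x = D.F (D.ρ x) := Subtype.ext (D.f_O hx)
        rw [h2]
        exact h1
      · right; left
        refine ⟨y, ?_, rfl⟩
        rw [D.F_coe, D.f_not hx]
        exact e
    rcases e with e | e
    · exact key x y e hn
    · rcases key y x e (by omega) with h | h | h
      · exact Or.inl h.symm
      · exact Or.inr (Or.inr h)
      · exact Or.inr (Or.inl h)

theorem ρ_nb {x : V} (h : D.O x) : ∃ a, K.E a x ∧ K.E a (D.ρ x) := by
  obtain ⟨a, ha⟩ := D.ρ_ex x h
  exact ⟨a, Or.inr ha, (D.ρ_E x a h ha).symm⟩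

theorem mg_f (x : V) : Mg K.hg D.F x (D.f x) :=
  D.ind (p := fun x => Mg K.hg D.F x (D.f x)) (fun x k => by
      rw [D.f_not k]
      exact Mg.refl x)
    (fun x k e => by
      rw [D.f_O k]
      refine Mg.trans _ _ _ ?_ e
      obtain ⟨a, h1, h2⟩ := D.ρ_nb k
      exact Mg.nb x (D.ρ x) a a (Subtype.ext (D.f_O k)) (Mg.refl a) h1 h2) x

/-- backtracking cells -/
def Bt (i : K.I) : Prop := ∀ φ : D.W → D.W → ZMod 2, (∀ x y, φ x y = φ y x) →
  ps (lz φ) (D.F (K.cb i)) ((K.cw i).map D.F) = 0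

/-- the folded complex as a quotient -/
noncomputable def qt : Qt K D.F where
  ar := D.ar'
  rk c := K.rk c.1
  equi h x := D.F_smul h x
  surj c := ⟨c.1, D.F_val c⟩
  ar_rk := by
    rintro c d ⟨a, h, rfl⟩
    have h1 := K.ar_rk _ _ h
    have h2 := D.rk_f a
    show K.rk (D.f a) < K.rk c.1
    omega
  ar_smul := by
    rintro h c d ⟨a, e, rfl⟩
    exact ⟨h • a, K.ar_smul h _ _ e, D.F_smul h a⟩
  rk_smul h c := K.rk_smul h c.1
  two := by
    rintro v _ _ _ ⟨a, ha, rfl⟩ ⟨b, hb, rfl⟩ ⟨c, hc, rfl⟩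
    rcases K.two _ _ _ _ ha hb hc with h | h | h
    · exact Or.inl (by rw [h])
    · exact Or.inr (Or.inl (by rw [h]))
    · exact Or.inr (Or.inr (by rw [h]))
  e1 x y e := D.e1 e
  e2 := by
    rintro c d ⟨a, h, rfl⟩
    exact ⟨c.1, a, Or.inl h, D.F_val c, rfl⟩
  mg x y e := Mg.trans _ _ _ (D.mg_f x) (by
    have e' : D.f x = D.f y := D.F_eq.1 e
    rw [e']
    exact Mg.symm _ _ (D.mg_f y))
  stab c := by
    have h := K.stab c.1
    have e : stabilizer H c = stabilizer H c.1 := by
      ext g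
      rw [mem_stabilizer_iff, mem_stabilizer_iff]
      exact ⟨fun k => congrArg Subtype.val k, fun k => Subtype.ext k⟩
    rw [e]
    exact h
  J := {i : K.I // ¬ D.Bt i}
  finJ := by
    have := K.finI
    infer_instance
  ι j := j.1
  drop i hi φ hφ := by
    by_contra hne
    exact hi ⟨i, fun k => hne (k φ hφ)⟩ rfl

/-- the folded complex -/
noncomputable def gx : GX H D.W := D.qt.gx

theorem gx_ar {c d : D.W} : D.gx.ar c d ↔ D.ar' c d := Iff.rfl

theorem gx_rk (c : D.W) : D.gx.rk c = K.rk c.1 := rfl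

theorem area_le : D.gx.area ≤ K.area := D.qt.area_le Subtype.val_injective

theorem min (hm : K.Min) : D.gx.Min := fun V' _ K' => D.area_le.trans (hm V' K')

theorem area_eq (hm : K.Min) : D.gx.area = K.area := le_antisymm D.area_le (hm _ _)

/-- in a minimal complex long cells are kept and not shortened -/
theorem kept (hm : K.Min) {i : K.I} (hi : 4 < (K.cw i).length) :
    ¬ D.Bt i ∧ stn D.F (K.cb i) (K.cw i) = 0 := by
  classical
  have := K.finI
  let := Fintype.ofFinite K.I
  have hJ : Finite D.qt.J := D.qt.finJ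
  let := Fintype.ofFinite D.qt.J
  have h1 := D.area_eq hm
  have h2 : D.gx.area = ∑ j : D.qt.J,
      ((K.cw (D.qt.ι j)).length - stn D.F (K.cb (D.qt.ι j)) (K.cw (D.qt.ι j)) - 4) :=
    D.qt.gx_area
  rw [h2, K.area_eq] at h1
  have hinj : Function.Injective D.qt.ι := Subtype.val_injective
  have h3 : ∑ j : D.qt.J,
      ((K.cw (D.qt.ι j)).length - stn D.F (K.cb (D.qt.ι j)) (K.cw (D.qt.ι j)) - 4) =
      ∑ i ∈ Finset.univ.map ⟨D.qt.ι, hinj⟩,
        ((K.cw i).length - stn D.F (K.cb i) (K.cw i) - 4) := by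
    rw [Finset.sum_map]
    rfl
  rw [h3] at h1
  have h4 : ∑ i ∈ Finset.univ.map ⟨D.qt.ι, hinj⟩,
      ((K.cw i).length - stn D.F (K.cb i) (K.cw i) - 4) ≤
      ∑ i ∈ Finset.univ.map ⟨D.qt.ι, hinj⟩, ((K.cw i).length - 4) :=
    Finset.sum_le_sum fun i _ => by omega
  constructor
  · intro hB
    have hni : i ∉ Finset.univ.map ⟨D.qt.ι, hinj⟩ := by
      intro hmem
      obtain ⟨j, -, hj⟩ := Finset.mem_map.1 hmem
      have hj' : j.1 = i := hj
      exact j.2 (hj' ▸ hB)
    have h5 : ∑ i ∈ Finset.univ.map ⟨D.qt.ι, hinj⟩, ((K.cw i).length - 4) + ((K.cw i).length - 4) ≤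
        ∑ i : K.I, ((K.cw i).length - 4) := by
      rw [add_comm, ← Finset.sum_insert hni (f := fun i => (K.cw i).length - 4)]
      exact Finset.sum_le_sum_of_subset (Finset.subset_univ _)
    omega
  · by_contra hne
    have h5 : ∑ i ∈ Finset.univ.map ⟨D.qt.ι, hinj⟩,
        ((K.cw i).length - stn D.F (K.cb i) (K.cw i) - 4) <
        ∑ i : K.I, ((K.cw i).length - 4) := by
      by_cases hmem : i ∈ Finset.univ.map ⟨D.qt.ι, hinj⟩
      · refine lt_of_lt_of_le (Finset.sum_lt_sum (fun i _ => ?_) ⟨i, hmem, ?_⟩)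
          (Finset.sum_le_sum_of_subset (Finset.subset_univ _))
        · show (K.cw i).length - stn D.F (K.cb i) (K.cw i) - 4 ≤ (K.cw i).length - 4
          omega
        · show (K.cw i).length - stn D.F (K.cb i) (K.cw i) - 4 < (K.cw i).length - 4
          omega
      · have h6 : ∑ i ∈ Finset.univ.map ⟨D.qt.ι, hinj⟩, ((K.cw i).length - 4) +
            ((K.cw i).length - 4) ≤ ∑ i : K.I, ((K.cw i).length - 4) := by
          rw [add_comm, ← Finset.sum_insert hmem (f := fun i => (K.cw i).length - 4)]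
          exact Finset.sum_le_sum_of_subset (Finset.subset_univ _)
        omega
    omega

end SqF

end Pool.Agent.DI
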