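import Pool.Agent.DI.Hr0
import Pool.Agent.DI.SqF

/-!
# DI/Hr1: arrows over parallel poles and two-pole hubs, static

`AdjD K x y`: `x → y`, the other out-neighbours of `x` are adjacent to `y`, `Stab x ≤ Stab y`.

* `GX.Min.adj`: no long cell passes `x y`.
* `GX.Min.ht`: `t → x` only, `n → t`, `n → c`, `x → c`: no long cell passes `n t` or `n c`.
* `GX.Min.par2`: `x`, `y` have the same two out-neighbours `c, d`, `t → x`, `t → y`, `n → t`, `n → c`:
  no long cell passes `n t` or `n c`.
* `GX.Min.fold2`: as `GX.Min.fold`, `n → t`, `n → e`, `y → e`: no long cell passes `n t` or `n e`.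
* `GX.Min.hub`: TWO-POLE HUB `t → a`, `t → b`, `a → e`, `b → e`, `n → t`, `n → e` (no condition on the
  stabilisers): no long cell passes `n t` or `n e`.
* `SqF.long`, `SqF.pass`: long cells and their passes in partial folds of squares.
-/

namespace Pool.Agent.DI

open MulAction
open Pool.Agent.SAF (InC orbs FinOrb oc)

variable {H V V' : Type} [Group H] [MulAction H V] [MulAction H V']

namespace Fo

variable {K : GX H V} (F : Fo K)

theorem min (hm : K.Min) : F.gx.Min := by
  classical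
  have := K.finI
  let := Fintype.ofFinite K.I
  intro V'' _ K''
  refine le_trans ?_ (hm V'' K'')
  rw [K.area_eq, F.gx_area]
  exact Finset.sum_le_sum fun i _ => by omega

theorem long (hm : K.Min) {i : K.I} (h5 : K.Long i) : F.gx.Long i := by
  have h1 := F.gx_length i
  rw [F.stn_long hm h5] at h1
  have h5' : 5 ≤ (K.cw i).length := h5
  show 5 ≤ (F.gx.cw i).length
  omega

theorem pass (hm : K.Min) {i : K.I} (h5 : K.Long i) {x z : V} (h : K.Pass i x z) :
    F.gx.Pass i (F.f x) (F.f z) := by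
  have h0 := F.stn_long hm h5
  obtain ⟨g, k | k⟩ := h
  · refine ⟨g, Or.inl ?_⟩
    rw [← F.f_smul, ← F.f_smul]
    exact k.dst h0
  · refine ⟨g, Or.inr ?_⟩
    rw [← F.f_smul, ← F.f_smul]
    exact k.dst h0

theorem ne_pass (hm : K.Min) {i : K.I} (h5 : K.Long i) {x z : V} (h : K.Pass i x z) :
    F.f x ≠ F.f z := by
  have h0 := F.stn_long hm h5
  obtain ⟨g, k | k⟩ := h
  · have := k.ne h0
    rw [F.f_smul, F.f_smul] at this
    exact fun e => this (by rw [e])
  · have := k.ne h0
    rw [F.f_smul, F.f_smul] at this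
    exact fun e => this (by rw [e])

end Fo

theorem GX.Pass.symm {K : GX H V} {i : K.I} {x z : V} (h : K.Pass i x z) : K.Pass i z x := by
  obtain ⟨g, k⟩ := h
  exact ⟨g, k.symm⟩

/-- data of the fold of `x` into its out-neighbour `y` -/
structure AdjD (K : GX H V) (x y : V) : Prop where
  xy : K.ar x y
  out : ∀ a, K.ar x a → a = y ∨ K.ar a y ∨ K.ar y a
  st : ∀ g : H, g • x = x → g • y = y

namespace AdjD

variable {K : GX H V} {x y : V} (D : AdjD K x y)

/-- the fold of `x` into its out-neighbour `y` -/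
noncomputable def fo : Fo K where
  f := hf H x y
  f_smul g u := by
    rcases FoldD.dic H x u with ⟨k, rfl⟩ | k
    · rw [← mul_smul, hf_x D.st, hf_x D.st, mul_smul]
    · rw [hf_not k, hf_not]
      rintro ⟨g', e⟩
      exact k ⟨g⁻¹ * g', by rw [mul_smul, e, inv_smul_smul]⟩
  idem u := by
    rcases FoldD.dic H x u with ⟨k, rfl⟩ | k
    · rw [hf_x D.st, hf_not (FoldD.not_ga D.xy k)]
    · rw [hf_not k, hf_not k]
  f_ar u hu := by
    rcases FoldD.dic H x u with ⟨k, rfl⟩ | k
    · rw [hf_x D.st]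
      exact K.ar_smul k _ _ D.xy
    · exact absurd (hf_not k) hu
  adj u z e := by
    rcases FoldD.dic H x u with ⟨k, rfl⟩ | k
    · have e' := K.ar_smul k⁻¹ _ _ e
      rw [inv_smul_smul] at e'
      have hz : z = k • (k⁻¹ • z) := (smul_inv_smul k z).symm
      have h1 : hf H x y z = z := by
        rw [hz]
        exact hf_not (FoldD.not_ga e' k)
      have h2 : hf H x y (k • y) = k • y := hf_not (FoldD.not_ga D.xy k)
      rw [hf_x D.st, h1]
      rcases D.out _ e' with h | h | h
      · left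
        rw [← h, smul_inv_smul]
      · right; right
        refine Or.inl ⟨h1, k • y, ?_, h2⟩
        rw [hz]
        exact K.ar_smul k _ _ h
      · right; left
        refine Or.inl ⟨h2, z, ?_, h1⟩
        rw [hz]
        exact K.ar_smul k _ _ h
    · right
      left
      rw [hf_not k]
      exact Or.inl ⟨hf_not k, z, e, rfl⟩

theorem fo_x : D.fo.f x = y := by
  have := hf_x D.st 1
  rw [one_smul, one_smul] at this
  exact this

theorem fo_lt {u : V} (h : K.rk u ≠ K.rk x) : D.fo.f u = u := by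
  refine hf_not ?_
  rintro ⟨g, rfl⟩
  exact h (K.rk_smul g x)

end AdjD

/-- no long cell passes `x y` -/
theorem GX.Min.adj {K : GX H V} (hm : K.Min) {x y : V} (D : AdjD K x y) {i : K.I} (h5 : K.Long i)
    (hp : K.Pass i x y) : False := by
  refine D.fo.ne_pass hm h5 hp ?_
  rw [D.fo_x, D.fo_lt (K.ar_rk _ _ D.xy).ne]

section Two

variable {K : GX H V}

/-- an arrow `u → v` with `v` the only out-neighbour of its rank -/
theorem fix_of_rk {u v w : V} (hv : K.ar u v) (hw : ∀ a, K.ar u a → a = v ∨ a = w)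
    (hr : K.rk v ≠ K.rk w) {g : H} (hg : g • u = u) : g • v = v := by
  have h := K.ar_smul g _ _ hv
  rw [hg] at h
  rcases hw _ h with e | e
  · exact e
  · exfalso
    apply hr
    rw [← e, K.rk_smul]

/-- two out-neighbours are all -/
theorem out_two {n t c : V} (h1 : K.ar n t) (h2 : K.ar n c) (hne : t ≠ c) {a : V} (h : K.ar n a) :
    a = t ∨ a = c := by
  rcases K.two n t c a h1 h2 h with k | k | k
  · exact absurd k hne
  · exact Or.inr k.symm
  · exact Or.inl k.symm

/-- TRIANGLE: `n → x`, `n → c`, `x → c` -/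
theorem AdjD.tri1 {n x c : V} (nx : K.ar n x) (nc : K.ar n c) (xc : K.ar x c) : AdjD K n x where
  xy := nx
  out a h := by
    rcases out_two nx nc (fun e => (K.ar_rk _ _ xc).ne (by rw [e])) h with rfl | rfl
    · exact Or.inl rfl
    · exact Or.inr (Or.inr xc)
  st g hg := fix_of_rk nx (fun a h => out_two nx nc (fun e => (K.ar_rk _ _ xc).ne (by rw [e])) h)
    (K.ar_rk _ _ xc).ne' hg

theorem AdjD.tri2 {n x c : V} (nx : K.ar n x) (nc : K.ar n c) (xc : K.ar x c) : AdjD K n c where
  xy := nc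
  out a h := by
    rcases out_two nx nc (fun e => (K.ar_rk _ _ xc).ne (by rw [e])) h with rfl | rfl
    · exact Or.inr (Or.inl xc)
    · exact Or.inl rfl
  st g hg := fix_of_rk nc (fun a h =>
    (out_two nx nc (fun e => (K.ar_rk _ _ xc).ne (by rw [e])) h).symm) (K.ar_rk _ _ xc).ne hg

/-- TRIANGLE: no long cell passes `n x` or `n c` -/
theorem GX.Min.tri (hm : K.Min) {n x c : V} (nx : K.ar n x) (nc : K.ar n c) (xc : K.ar x c)
    {i : K.I} (h5 : K.Long i) (hp : K.Pass i n x ∨ K.Pass i n c) : False := by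
  rcases hp with hp | hp
  · exact hm.adj (AdjD.tri1 nx nc xc) h5 hp
  · exact hm.adj (AdjD.tri2 nx nc xc) h5 hp

/-- `t → x` only, `n → t`, `n → c`, `x → c`: no long cell passes `n t` or `n c` -/
theorem GX.Min.ht (hm : K.Min) {t x n c : V} (tx : K.ar t x) (ht : ∀ d, K.ar t d → d = x)
    (nt : K.ar n t) (nc : K.ar n c) (xc : K.ar x c) {i : K.I} (h5 : K.Long i)
    (hp : K.Pass i n t ∨ K.Pass i n c) : False := by
  have r1 := K.ar_rk _ _ tx
  have r2 := K.ar_rk _ _ xc
  have r3 := K.ar_rk _ _ nt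
  let D : AdjD K t x :=
    { xy := tx
      out := fun a h => Or.inl (ht a h)
      st := by
        intro g e
        have := K.ar_smul g _ _ tx
        rw [e] at this
        exact ht _ this }
  have ft : D.fo.f t = x := D.fo_x
  have fn : D.fo.f n = n := D.fo_lt (by omega)
  have fc : D.fo.f c = c := D.fo_lt (by omega)
  have fx : D.fo.f x = x := D.fo_lt (by omega)
  have nx' : D.fo.gx.ar n x := Or.inl ⟨fn, t, nt, ft⟩
  have nc' : D.fo.gx.ar n c := Or.inl ⟨fn, c, nc, fc⟩
  have xc' : D.fo.gx.ar x c := Or.inl ⟨fx, c, xc, fc⟩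
  refine (D.fo.min hm).tri nx' nc' xc' (i := i) (D.fo.long hm h5) ?_
  rcases hp with hp | hp
  · have := D.fo.pass hm h5 hp
    rw [fn, ft] at this
    exact Or.inl this
  · have := D.fo.pass hm h5 hp
    rw [fn, fc] at this
    exact Or.inr this

end Two

section Par2

variable {K : GX H V} {x y : V}

/-- PARALLEL POLES: `x`, `y` have the same two out-neighbours `c, d`, `t → x`, `t → y`, `n → t`,
`n → c`: no long cell passes `n t` or `n c` -/
theorem GX.Min.par2 (hm : K.Min) {c d : V} (hx : ∀ a, K.ar x a ↔ a = c ∨ a = d)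
    (hy : ∀ a, K.ar y a ↔ a = c ∨ a = d) {t n : V} (tx : K.ar t x) (ty : K.ar t y) (hne : x ≠ y)
    (nt : K.ar n t) (nc : K.ar n c) {i : K.I} (h5 : K.Long i)
    (hp : K.Pass i n t ∨ K.Pass i n c) : False := by
  have hI : InC ↥(stabilizer H c ⊓ stabilizer H d) := SAG.InC.mono inf_le_left (K.stab c)
  set Q := parQ hx hy hI with hQ
  have hi : Function.Injective Q.ι := fun a b e => e
  have exy : Quotient.mk (parS K x y) x = Quotient.mk (parS K x y) y :=
    (par_eq K x y).2 (Or.inr ⟨Or.inl ⟨1, one_smul _ _⟩, Or.inr ⟨1, one_smul _ _⟩,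
      fun a => (hx a).trans (hy a).symm⟩)
  have h1 : Q.gx.Min := Q.min hi hm
  have h2 : Q.gx.Long i := Q.long hi hm (j := i) h5
  refine h1.ht (t := Quotient.mk (parS K x y) t) (x := Quotient.mk (parS K x y) x)
    (n := Quotient.mk (parS K x y) n) (c := Quotient.mk (parS K x y) c)
    ⟨t, x, rfl, rfl, tx⟩ ?_ ⟨n, t, rfl, rfl, nt⟩ ⟨n, c, rfl, rfl, nc⟩
    ⟨x, c, rfl, rfl, (hx c).2 (Or.inl rfl)⟩ h2 ?_
  · rintro _ ⟨u, v, hu, rfl, h⟩
    have h' := (parS_ar K x y (Quotient.exact hu) v).1 h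
    rcases out_two tx ty hne h' with k | k
    · rw [k]
    · rw [k, exy]
  · rcases hp with hp | hp
    · exact Or.inl (Q.pass hi hm (j := i) h5 hp)
    · exact Or.inr (Q.pass hi hm (j := i) h5 hp)

end Par2

namespace SqF

variable {K : GX H V} (D : SqF K)

/-- the index of a long cell in the partial fold -/
def idx (hm : K.Min) {i : K.I} (h5 : K.Long i) : D.gx.I := ⟨i, (D.kept hm h5).1⟩

theorem long (hm : K.Min) {i : K.I} (h5 : K.Long i) : D.gx.Long (D.idx hm h5) :=
  D.qt.long Subtype.val_injective hm (j := ⟨i, (D.kept hm h5).1⟩) h5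

theorem pass (hm : K.Min) {i : K.I} (h5 : K.Long i) {x z : V} (h : K.Pass i x z) :
    D.gx.Pass (D.idx hm h5) (D.F x) (D.F z) :=
  D.qt.pass Subtype.val_injective hm (j := ⟨i, (D.kept hm h5).1⟩) h5 h

theorem ar_of {x a : V} (hx : ¬ D.O x) (h : K.ar x a) : D.gx.ar (D.F x) (D.F a) := by
  refine ⟨a, ?_, rfl⟩
  rw [D.F_coe, D.f_not hx]
  exact h

theorem of_ar {x : V} (hx : ¬ D.O x) {c : D.W} (h : D.gx.ar (D.F x) c) :
    ∃ a, K.ar x a ∧ D.F a = c := by
  obtain ⟨a, h1, h2⟩ := h
  rw [D.F_coe, D.f_not hx] at h1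
  exact ⟨a, h1, h2⟩

end SqF

namespace FoldD

variable {K : GX H V} {x y : V} (D : FoldD K x y)

/-- the fold as a partial fold -/
noncomputable def toF : SqF K where
  O u := ∃ g : H, g • x = u
  ρ := hf H x y
  O_smul := by
    rintro h _ ⟨g, rfl⟩
    exact ⟨h * g, mul_smul _ _ _⟩
  ρ_smul h u _ := D.f_smul h u
  ρ_rk := by
    rintro _ ⟨g, rfl⟩
    rw [D.f_x, K.rk_smul, K.rk_smul]
    exact D.rk
  ρ_E := by
    rintro _ a ⟨g, rfl⟩ h
    rw [D.f_x]
    have e' := K.ar_smul g⁻¹ _ _ h
    rw [inv_smul_smul] at e'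
    have hz : a = g • (g⁻¹ • a) := (smul_inv_smul g a).symm
    rw [hz]
    rcases D.out _ e' with k | k
    · exact Or.inr (K.ar_smul g _ _ k)
    · exact Or.inl (K.ar_smul g _ _ k)
  ρ_ex := by
    rintro _ ⟨g, rfl⟩
    obtain ⟨a, ha⟩ := D.ex
    exact ⟨g • a, K.ar_smul g _ _ ha⟩

theorem not_O {u : V} (h : K.rk u ≠ K.rk x) : ¬ D.toF.O u := by
  rintro ⟨g, rfl⟩
  exact h (K.rk_smul g x)

theorem toF_x : D.toF.F x = D.toF.F y := by
  rw [SqF.F_eq, D.toF.f_O (x := x) ⟨1, one_smul _ _⟩]
  show D.toF.f (hf H x y x) = _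
  rw [D.f_x1]

end FoldD

section Fold2

variable {K : GX H V} {x y : V}

/-- as `GX.Min.fold`, `n → t`, `n → e`, `y → e`: no long cell passes `n t` or `n e` -/
theorem GX.Min.fold2 (hm : K.Min) (D : FoldD K x y) {t n e : V} (tx : K.ar t x) (ty : K.ar t y)
    (nt : K.ar n t) (ne : K.ar n e) (ye : K.ar y e) {i : K.I} (h5 : K.Long i)
    (hp : K.Pass i n t ∨ K.Pass i n e) : False := by
  have r0 := D.rk
  have r1 := K.ar_rk _ _ tx
  have r2 := K.ar_rk _ _ ye
  have r3 := K.ar_rk _ _ nt
  have ot : ¬ D.toF.O t := D.not_O (by omega)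
  have on : ¬ D.toF.O n := D.not_O (by omega)
  have oy : ¬ D.toF.O y := D.not_O (by omega)
  have hne : x ≠ y := by
    rintro rfl
    exact lt_irrefl _ r0
  refine (D.toF.min hm).ht (D.toF.ar_of ot ty) ?_ (D.toF.ar_of on nt) (D.toF.ar_of on ne)
    (D.toF.ar_of oy ye) (D.toF.long hm h5) ?_
  · intro d h
    obtain ⟨a, h1, rfl⟩ := D.toF.of_ar ot h
    rcases out_two tx ty hne h1 with k | k
    · rw [k, D.toF_x]
    · rw [k]
  · rcases hp with hp | hp
    · exact Or.inl (D.toF.pass hm h5 hp)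
    · exact Or.inr (D.toF.pass hm h5 hp)

/-- TWO-POLE HUB: `t → a`, `t → b`, `a → e`, `b → e`, `n → t`, `n → e`: no long cell passes `n t` or
`n e` -/
theorem GX.Min.hub (hm : K.Min) {t a b e n : V} (ta : K.ar t a) (tb : K.ar t b) (hab : a ≠ b)
    (ae : K.ar a e) (be : K.ar b e) (nt : K.ar n t) (ne : K.ar n e) {i : K.I} (h5 : K.Long i)
    (hp : K.Pass i n t ∨ K.Pass i n e) : False := by
  by_cases st : ∀ g : H, g • t = t → g • e = e
  · exact hm.fold (FoldD.hub (fun c => ⟨fun h => out_two ta tb hab h, by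
      rintro (rfl | rfl)
      · exact ta
      · exact tb⟩) ae be st) nt ne h5 hp
  · push Not at st
    obtain ⟨g, hg, he⟩ := st
    have ga : g • a = a ∨ g • a = b := by
      have := K.ar_smul g _ _ ta
      rw [hg] at this
      exact out_two ta tb hab this
    have gb : g • b = a ∨ g • b = b := by
      have := K.ar_smul g _ _ tb
      rw [hg] at this
      exact out_two ta tb hab this
    have h1 := K.ar_smul g _ _ ae
    have h2 := K.ar_smul g _ _ be
    have h3 : K.ar a (g • e) ∧ K.ar b (g • e) := by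
      rcases ga with ga | ga
      · rcases gb with gb | gb
        · exact absurd (smul_left_cancel g (ga.trans gb.symm)) hab
        · rw [ga] at h1
          rw [gb] at h2
          exact ⟨h1, h2⟩
      · rcases gb with gb | gb
        · rw [ga] at h1
          rw [gb] at h2
          exact ⟨h2, h1⟩
        · exact absurd (smul_left_cancel g (ga.trans gb.symm)) hab
    have hx : ∀ c, K.ar a c ↔ c = e ∨ c = g • e := fun c =>
      ⟨fun h => out_two ae h3.1 (Ne.symm he) h, by
        rintro (rfl | rfl)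
        · exact ae
        · exact h3.1⟩
    have hy : ∀ c, K.ar b c ↔ c = e ∨ c = g • e := fun c =>
      ⟨fun h => out_two be h3.2 (Ne.symm he) h, by
        rintro (rfl | rfl)
        · exact be
        · exact h3.2⟩
    exact hm.par2 hx hy ta tb hab nt ne h5 hp

end Fold2

end Pool.Agent.DI
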