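import Pool.Agent.DI.Hr1

/-!
# DI/Hr2: the gamma form, without a condition on the stabilisers

`GX.Min.gamma`: `x → c`, `x → d`, `c → y`, `y → d`, `t → x`, `t → y`: no long cell passes `t x` or `t y`.
`GX.Min.gamma2`: moreover `n → t`, `n → d`: no long cell passes `n t` or `n d`.
-/

namespace Pool.Agent.DI

open MulAction
open Pool.Agent.SAF (InC orbs FinOrb oc)

variable {H V : Type} [Group H] [MulAction H V] {K : GX H V}

/-- `t → y`, `t → d`, `y → d`, `n → t`, `n → d`: no long cell passes `n t` or `n d` -/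
theorem GX.Min.tt (hm : K.Min) {t y d n : V} (ty : K.ar t y) (td : K.ar t d) (yd : K.ar y d)
    (nt : K.ar n t) (nd : K.ar n d) {i : K.I} (h5 : K.Long i)
    (hp : K.Pass i n t ∨ K.Pass i n d) : False := by
  have r1 := K.ar_rk _ _ ty
  have r2 := K.ar_rk _ _ yd
  have r3 := K.ar_rk _ _ nt
  let D : AdjD K t y := AdjD.tri1 ty td yd
  have ft : D.fo.f t = y := D.fo_x
  have fn : D.fo.f n = n := D.fo_lt (by omega)
  have fd : D.fo.f d = d := D.fo_lt (by omega)
  have fy : D.fo.f y = y := D.fo_lt (by omega)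
  refine (D.fo.min hm).tri (Or.inl ⟨fn, t, nt, ft⟩) (Or.inl ⟨fn, d, nd, fd⟩)
    (Or.inl ⟨fy, d, yd, fd⟩) (i := i) (D.fo.long hm h5) ?_
  rcases hp with hp | hp
  · have := D.fo.pass hm h5 hp
    rw [fn, ft] at this
    exact Or.inl this
  · have := D.fo.pass hm h5 hp
    rw [fn, fd] at this
    exact Or.inr this

section Hg

variable {x y t d : V}

/-- `x → d` only, `t → x`, `t → y`, `y → d`: no long cell passes `t x` or `t y` -/
theorem GX.Min.hg1 (hm : K.Min) (xd : K.ar x d) (hx : ∀ a, K.ar x a → a = d) (tx : K.ar t x)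
    (ty : K.ar t y) (yd : K.ar y d) (hxy : K.rk y ≠ K.rk x) {i : K.I} (h5 : K.Long i)
    (hp : K.Pass i t x ∨ K.Pass i t y) : False := by
  have r1 := K.ar_rk _ _ tx
  have r2 := K.ar_rk _ _ xd
  let D : AdjD K x d :=
    { xy := xd
      out := fun a h => Or.inl (hx a h)
      st := by
        intro g e
        have := K.ar_smul g _ _ xd
        rw [e] at this
        exact hx _ this }
  have fx : D.fo.f x = d := D.fo_x
  have ft : D.fo.f t = t := D.fo_lt (by omega)
  have fd : D.fo.f d = d := D.fo_lt (by omega)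
  have fy : D.fo.f y = y := D.fo_lt hxy
  refine (D.fo.min hm).tri (n := t) (x := y) (c := d) (Or.inl ⟨ft, y, ty, fy⟩) (Or.inl ⟨ft, x, tx, fx⟩)
    (Or.inl ⟨fy, d, yd, fd⟩) (i := i) (D.fo.long hm h5) ?_
  rcases hp with hp | hp
  · have := D.fo.pass hm h5 hp
    rw [ft, fx] at this
    exact Or.inr this
  · have := D.fo.pass hm h5 hp
    rw [ft, fy] at this
    exact Or.inl this

theorem GX.Min.hg2 (hm : K.Min) (xd : K.ar x d) (hx : ∀ a, K.ar x a → a = d) (tx : K.ar t x)
    (ty : K.ar t y) (yd : K.ar y d) (hxy : K.rk y ≠ K.rk x) {n : V} (nt : K.ar n t) (nd : K.ar n d)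
    {i : K.I} (h5 : K.Long i) (hp : K.Pass i n t ∨ K.Pass i n d) : False := by
  have r1 := K.ar_rk _ _ tx
  have r2 := K.ar_rk _ _ xd
  have r3 := K.ar_rk _ _ nt
  let D : AdjD K x d :=
    { xy := xd
      out := fun a h => Or.inl (hx a h)
      st := by
        intro g e
        have := K.ar_smul g _ _ xd
        rw [e] at this
        exact hx _ this }
  have fx : D.fo.f x = d := D.fo_x
  have ft : D.fo.f t = t := D.fo_lt (by omega)
  have fn : D.fo.f n = n := D.fo_lt (by omega)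
  have fd : D.fo.f d = d := D.fo_lt (by omega)
  have fy : D.fo.f y = y := D.fo_lt hxy
  refine (D.fo.min hm).tt (t := t) (y := y) (d := d) (n := n) (Or.inl ⟨ft, y, ty, fy⟩)
    (Or.inl ⟨ft, x, tx, fx⟩) (Or.inl ⟨fy, d, yd, fd⟩) (Or.inl ⟨fn, t, nt, ft⟩)
    (Or.inl ⟨fn, d, nd, fd⟩) (i := i) (D.fo.long hm h5) ?_
  rcases hp with hp | hp
  · have := D.fo.pass hm h5 hp
    rw [fn, ft] at this
    exact Or.inl this
  · have := D.fo.pass hm h5 hp
    rw [fn, fd] at this
    exact Or.inr this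

end Hg

section Gamma

variable {x y c d t : V}

/-- sub-case A: `c → y`, `c → y'`, both `→ d`, `Stab c ≤ Stab d` -/
theorem gammaA (xc : K.ar x c) (xd : K.ar x d) (cy : K.ar c y) (yd : K.ar y d) {y' : V}
    (cy' : K.ar c y') (hyy : y ≠ y') (yd' : K.ar y' d) (st : ∀ g : H, g • c = c → g • d = d)
    (tx : K.ar t x) (ty : K.ar t y) :
    ∃ D : SqF K, D.gx.ar (D.F x) (D.F d) ∧ (∀ a, D.gx.ar (D.F x) a → a = D.F d) ∧
      D.gx.ar (D.F t) (D.F x) ∧ D.gx.ar (D.F t) (D.F y) ∧ D.gx.ar (D.F y) (D.F d) ∧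
      D.gx.rk (D.F y) ≠ D.gx.rk (D.F x) ∧ ∀ n, K.ar n t → K.ar n d →
        D.gx.ar (D.F n) (D.F t) ∧ D.gx.ar (D.F n) (D.F d) := by
  have r1 := K.ar_rk _ _ xc
  have r2 := K.ar_rk _ _ cy
  have r3 := K.ar_rk _ _ yd
  have r4 := K.ar_rk _ _ tx
  let D : FoldD K c d := FoldD.hub (fun a => ⟨fun h => out_two cy cy' hyy h, by
      rintro (rfl | rfl)
      · exact cy
      · exact cy'⟩) yd yd' st
  have ox : ¬ D.toF.O x := D.not_O (by omega)
  have ot : ¬ D.toF.O t := D.not_O (by omega)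
  have oy : ¬ D.toF.O y := D.not_O (by omega)
  have hcd : c ≠ d := by
    rintro rfl
    omega
  refine ⟨D.toF, D.toF.ar_of ox xd, ?_, D.toF.ar_of ot tx, D.toF.ar_of ot ty, D.toF.ar_of oy yd, ?_,
    ?_⟩
  · intro a h
    obtain ⟨b, h1, rfl⟩ := D.toF.of_ar ox h
    rcases out_two xc xd hcd h1 with rfl | rfl
    · exact D.toF_x
    · rfl
  · rw [D.toF.gx_rk, D.toF.gx_rk, D.toF.F_coe, D.toF.F_coe, D.toF.f_not ox, D.toF.f_not oy]
    omega
  · intro n nt nd
    have := K.ar_rk _ _ nt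
    have on : ¬ D.toF.O n := D.not_O (by omega)
    exact ⟨D.toF.ar_of on nt, D.toF.ar_of on nd⟩

/-- sub-case B: `c → y`, `c → y'` only, `y`, `y'` have the same two out-neighbours -/
theorem gammaB (xc : K.ar x c) (xd : K.ar x d) (cy : K.ar c y) {y' d' : V}
    (cy' : K.ar c y') (hyy : y ≠ y') (hy : ∀ a, K.ar y a ↔ a = d ∨ a = d')
    (hy' : ∀ a, K.ar y' a ↔ a = d ∨ a = d') (hI : InC ↥(stabilizer H d ⊓ stabilizer H d')) :
    FoldD (parQ hy hy' hI).gx (Quotient.mk (parS K y y') x) (Quotient.mk (parS K y y') y) := by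
  have r1 := K.ar_rk _ _ xc
  have r2 := K.ar_rk _ _ cy
  have yd : K.ar y d := (hy d).2 (Or.inl rfl)
  have r3 := K.ar_rk _ _ yd
  have hcd : c ≠ d := by
    rintro rfl
    omega
  set Q := parQ hy hy' hI with hQ
  have eyy : Quotient.mk (parS K y y') y = Quotient.mk (parS K y y') y' :=
    (par_eq K y y').2 (Or.inr ⟨Or.inl ⟨1, one_smul _ _⟩, Or.inr ⟨1, one_smul _ _⟩,
      fun a => (hy a).trans (hy' a).symm⟩)
  have q1 : Q.gx.ar (Quotient.mk (parS K y y') x) (Quotient.mk (parS K y y') c) :=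
    ⟨x, c, rfl, rfl, xc⟩
  have q2 : Q.gx.ar (Quotient.mk (parS K y y') c) (Quotient.mk (parS K y y') y) :=
    ⟨c, y, rfl, rfl, cy⟩
  have q3 : Q.gx.ar (Quotient.mk (parS K y y') y) (Quotient.mk (parS K y y') d) :=
    ⟨y, d, rfl, rfl, yd⟩
  have outx : ∀ a, Q.gx.ar (Quotient.mk (parS K y y') x) a → a = Quotient.mk (parS K y y') c ∨
      a = Quotient.mk (parS K y y') d := by
    rintro _ ⟨u, v, hu, rfl, h⟩
    have h' := (parS_ar K y y' (Quotient.exact hu) v).1 h
    rcases out_two xc xd hcd h' with k | k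
    · exact Or.inl (by rw [k])
    · exact Or.inr (by rw [k])
  have outc : ∀ a, Q.gx.ar (Quotient.mk (parS K y y') c) a → a = Quotient.mk (parS K y y') y := by
    rintro _ ⟨u, v, hu, rfl, h⟩
    have h' := (parS_ar K y y' (Quotient.exact hu) v).1 h
    rcases out_two cy cy' hyy h' with k | k
    · rw [k]
    · rw [k, eyy]
  have k1 := Q.gx.ar_rk _ _ q1
  have k2 := Q.gx.ar_rk _ _ q2
  have k3 := Q.gx.ar_rk _ _ q3
  refine ⟨?_, ⟨_, q1⟩, k2.trans k1, ?_⟩
  · intro a h
    rcases outx a h with rfl | rfl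
    · exact Or.inl q2
    · exact Or.inr q3
  · intro g hg
    have e1 : g • (Quotient.mk (parS K y y') c) = Quotient.mk (parS K y y') c :=
      fix_of_rk (K := Q.gx) q1 (outx) (k3.trans k2).ne' hg
    have e2 := Q.gx.ar_smul g _ _ q2
    rw [e1] at e2
    exact outc _ e2

/-- GAMMA FORM: `x → c`, `x → d`, `c → y`, `y → d`, `t → x`, `t → y`: no long cell passes `t x` or
`t y` -/
theorem GX.Min.gamma (hm : K.Min) (xc : K.ar x c) (xd : K.ar x d) (cy : K.ar c y) (yd : K.ar y d)
    (tx : K.ar t x) (ty : K.ar t y) {i : K.I} (h5 : K.Long i)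
    (hp : K.Pass i t x ∨ K.Pass i t y) : False := by
  have r1 := K.ar_rk _ _ xc
  have r2 := K.ar_rk _ _ cy
  have r3 := K.ar_rk _ _ yd
  have hcd : c ≠ d := by
    rintro rfl
    omega
  by_cases st : ∀ g : H, g • x = x → g • y = y
  · exact hm.fold (FoldD.gam (fun a => ⟨fun h => out_two xc xd hcd h, by
      rintro (rfl | rfl)
      · exact xc
      · exact xd⟩) cy yd st) tx ty h5 hp
  · push Not at st
    obtain ⟨g, hg, hgy⟩ := st
    have gc : g • c = c := fix_of_rk xc (fun a h => out_two xc xd hcd h) (by omega) hg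
    have gd : g • d = d := fix_of_rk xd (fun a h => (out_two xc xd hcd h).symm) (by omega) hg
    have cy' : K.ar c (g • y) := by
      have := K.ar_smul g _ _ cy
      rwa [gc] at this
    have yd' : K.ar (g • y) d := by
      have := K.ar_smul g _ _ yd
      rwa [gd] at this
    by_cases st2 : ∀ h : H, h • c = c → h • d = d
    · obtain ⟨D, a1, a2, a3, a4, a5, a6, -⟩ := gammaA xc xd cy yd cy' (Ne.symm hgy) yd' st2 tx ty
      refine (D.min hm).hg1 a1 a2 a3 a4 a5 a6 (D.long hm h5) ?_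
      rcases hp with hp | hp
      · exact Or.inl (D.pass hm h5 hp)
      · exact Or.inr (D.pass hm h5 hp)
    · push Not at st2
      obtain ⟨h, hc, hd⟩ := st2
      have hy3 : K.ar y (h • d) ∧ K.ar (g • y) (h • d) := by
        have k1 := K.ar_smul h _ _ cy
        have k2 := K.ar_smul h _ _ cy'
        rw [hc] at k1 k2
        have k3 := K.ar_smul h _ _ yd
        have k4 := K.ar_smul h _ _ yd'
        rcases out_two cy cy' (Ne.symm hgy) k1 with e1 | e1
        · rcases out_two cy cy' (Ne.symm hgy) k2 with e2 | e2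
          · exact absurd (smul_left_cancel h (e1.trans e2.symm)) (Ne.symm hgy)
          · rw [e1] at k3
            rw [e2] at k4
            exact ⟨k3, k4⟩
        · rcases out_two cy cy' (Ne.symm hgy) k2 with e2 | e2
          · rw [e1] at k3
            rw [e2] at k4
            exact ⟨k4, k3⟩
          · exact absurd (smul_left_cancel h (e1.trans e2.symm)) (Ne.symm hgy)
      have hy : ∀ a, K.ar y a ↔ a = d ∨ a = h • d := fun a =>
        ⟨fun k => out_two yd hy3.1 (Ne.symm hd) k, by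
          rintro (rfl | rfl)
          · exact yd
          · exact hy3.1⟩
      have hy' : ∀ a, K.ar (g • y) a ↔ a = d ∨ a = h • d := fun a =>
        ⟨fun k => out_two yd' hy3.2 (Ne.symm hd) k, by
          rintro (rfl | rfl)
          · exact yd'
          · exact hy3.2⟩
      have hI : InC ↥(stabilizer H d ⊓ stabilizer H (h • d)) := SAG.InC.mono inf_le_left (K.stab d)
      have D := gammaB xc xd cy cy' (Ne.symm hgy) hy hy' hI
      set Q := parQ hy hy' hI with hQ
      have hi : Function.Injective Q.ι := fun a b e => e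
      refine (Q.min hi hm).fold D (t := Quotient.mk (parS K y (g • y)) t)
        ⟨t, x, rfl, rfl, tx⟩ ⟨t, y, rfl, rfl, ty⟩ (i := i) (Q.long hi hm (j := i) h5) ?_
      rcases hp with hp | hp
      · exact Or.inl (Q.pass hi hm (j := i) h5 hp)
      · exact Or.inr (Q.pass hi hm (j := i) h5 hp)

/-- GAMMA FORM with `n → t`, `n → d`: no long cell passes `n t` or `n d` -/
theorem GX.Min.gamma2 (hm : K.Min) (xc : K.ar x c) (xd : K.ar x d) (cy : K.ar c y) (yd : K.ar y d)
    (tx : K.ar t x) (ty : K.ar t y) {n : V} (nt : K.ar n t) (nd : K.ar n d) {i : K.I}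
    (h5 : K.Long i) (hp : K.Pass i n t ∨ K.Pass i n d) : False := by
  have r1 := K.ar_rk _ _ xc
  have r2 := K.ar_rk _ _ cy
  have r3 := K.ar_rk _ _ yd
  have hxy : x ≠ y := by
    rintro rfl
    omega
  exact hm.hub tx ty hxy xd yd nt nd h5 hp

end Gamma

end Pool.Agent.DI
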