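import Pool.Agent.DI.HrC

/-!
# DI/HrD: the place of a vertex with parallel poles, zero strands included

`h : S.ClH hc w E` (see DI/HrC). `R : S.Rcs E w x p Gd`: `p` is the property crosses one of the edges in
question, `Gd` are the poles and the pages which cross.

* `h.rcs`: no cell at a vertex which folds to `x` has a corner from a good vertex to a vertex without `p`.
* `h.place`: if no page of `x` has `p` and the pentagons between the poles at `x` are centred at `w`, then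
  there is no plain strand at `x a`.
* `h.place_int`: interior level: `T → a`, `T → b`, `a`, `b` cross `w u` and `w u'`.
* `h.place_end`: end level, diamond: `a → o`, `b → o`, `a`, `b` cross `w u`.
* `h.place_gamma`: end level, gamma form: `a → o → b`, `a`, `b` cross `w u`.
-/

namespace Pool.Agent.DI

open MulAction
open Pool.Agent.SAF (InC orbs FinOrb oc Decomp SAn SA Conv hull dist_edge FinOrb_iff exists_next)
open Pool.Agent.BT (PX PQ JS bey exits lz lz_self lz_ne lz_symm x_next_unique)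
open Pool.Agent.BT.TA

namespace SyQ

variable {H V : Type} [Group H] [MulAction H V] (S : SyQ H V)

/-- the data of the recursion -/
structure Rcs (E : V → Prop) (w : S.X) (x : V) (p Gd : V → Prop) : Prop where
  mem : ∀ k, Gd k → w ∈ S.J k
  nE : ∀ k, Gd k → ¬ E k
  pp : ∀ k, Gd k → p k
  ex : ∀ k m u, Gd k → S.D.G.Adj w u → S.Cs w u k → S.Cs w u m → p m
  top : ∀ k a b, Gd k → S.K.ar k a → S.K.ar k b → w ∈ S.J a → w ∈ S.J b → a = b
  rp : ∀ k s s', Gd k → S.FE E w (S.K.rk x) s k → S.FE E w (S.K.rk x) s' x → ¬ S.RP w s s'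
  gen : ∀ k v, S.K.ar k v → p k → S.J v = {w} → S.FE E w (S.K.rk x) v x →
    S.K.rk x ≤ S.K.rk v → Gd k

variable {S}

/-- the first edge of two sets with a common point -/
theorem first_cs {w c : S.X} (hcw : c ≠ w) {k m : V} (wk : w ∈ S.J k) (ck : c ∈ S.J k)
    (wm : w ∈ S.J m) (cm : c ∈ S.J m) : ∃ u, S.D.G.Adj w u ∧ S.Cs w u k ∧ S.Cs w u m := by
  obtain ⟨u', hu', e⟩ := exists_next S.D.tree (show w ≠ c from fun k => hcw k.symm)
  have hcb : c ∈ bey S.D.G w u' := by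
    show S.D.G.dist c w = S.D.G.dist c u' + 1
    rw [SimpleGraph.dist_comm, e, SimpleGraph.dist_comm]
  exact ⟨u', hu', conv_cr S.D.tree (S.js.conv k) hu' wk ck (bey_self hu'.symm) hcb,
    conv_cr S.D.tree (S.js.conv m) hu' wm cm (bey_self hu'.symm) hcb⟩

/-- two neighbours of a vertex which misses `w` -/
theorem miss_cs {w : S.X} {k m v : V} (ekv : S.K.E k v) (emv : S.K.E m v) (wk : w ∈ S.J k)
    (wm : w ∈ S.J m) (hv : w ∉ S.J v) : ∃ u, S.D.G.Adj w u ∧ S.Cs w u k ∧ S.Cs w u m :=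
  ⟨_, S.dir_adj hv, ⟨wk, S.dir_cross ekv wk hv⟩, ⟨wm, S.dir_cross emv wm hv⟩⟩

/-- the centre of a pentagon -/
theorem Qn.cen' {x a q b y : V} (h : Qn S.P x a q b y) : ∃ c, S.IsC ![x, a, q, b, y] c := by
  let c5 : Fin 5 → V := ![x, a, q, b, y]
  have hv : ∀ j, S.K.E (c5 j) (c5 (j + 1)) := by
    intro j
    fin_cases j
    · exact h.E1
    · exact h.E2
    · exact h.E3
    · exact h.E4
    · exact h.E5
  exact S.cen hv

namespace ClH

variable {hc : S.Conn} {w : S.X} {E : V → Prop} (h : S.ClH hc w E)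
include h

/-- THE RECURSION -/
theorem rcs {x : V} {p Gd : V → Prop} (R : S.Rcs E w x p Gd) {B : ℕ} (hB : ∀ v, S.K.rk v ≤ B) :
    ∀ (N : ℕ) {z : V}, B - S.K.rk z < N → S.J z = {w} →
    S.FE E w (S.K.rk x) z x → S.K.rk x ≤ S.K.rk z → ∀ {k m : V}, Gd k → ¬ p m → S.HrL z k m →
    False := by
  intro N
  induction N with
  | zero =>
    intro z hN
    exact absurd hN (Nat.not_lt_zero _)
  | succ N ih =>
    intro z hN hz hzx hrz k m hk hm hlr
    have wk : w ∈ S.J k := R.mem k hk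
    have wz : w ∈ S.J z := by rw [hz]; exact rfl
    have wm : w ∈ S.J m := mem_of_J hz hlr.symm.E.symm
    rcases hlr with ⟨y, y', hq⟩ | ⟨v, hq, hor⟩
    · obtain ⟨c, hcen⟩ := Qn.cen' hq
      by_cases hcw : c = w
      · subst hcw
        exact R.rp k k z hk (Relation.EqvGen.refl _) hzx ⟨m, y, y', hq, hcen⟩
      · have hcz : c ∉ S.J z := by
          rw [hz]
          exact hcw
        have hck : c ∈ S.J k := (hcen 0).resolve_right hcz
        have hcm : c ∈ S.J m := (hcen 1).resolve_left hcz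
        obtain ⟨u, hu, c1, c2⟩ := first_cs hcw wk hck wm hcm
        exact hm (R.ex k m u hk hu c1 c2)
    · have wv : w ∈ S.J v := by
        by_contra hv
        obtain ⟨u, hu, c1, c2⟩ := miss_cs (Or.symm hq.E4) hq.E3 wk wm hv
        exact hm (R.ex k m u hk hu c1 c2)
      rcases h.sq.q4 hq with t | t | t | t
      · exact h.sq.nab _ _ _ _ t (R.top k _ _ hk t.2.1 t.2.2 wv wz)
      · have r1 := S.K.ar_rk _ _ t.2.1
        have r2 := S.K.ar_rk _ _ t.2.2
        rcases hor with e | e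
        · have := S.K.ar_rk _ _ e
          omega
        · have := S.K.ar_rk _ _ e
          omega
      · -- top `m`, partner `k`
        have hEm : ¬ E m := fun e => R.nE k hk (h.sq.Ey _ _ _ _ t e)
        have hJm : S.J m = {w} := J_hub t.2.1 t.2.2 (h.sq.nab _ _ _ _ t) wm wz wv
        have r1 := S.K.ar_rk _ _ t.2.1
        obtain ⟨s, s', c1, c2, c3⟩ := h.virt (r := S.K.rk x) hB (B - S.K.rk m + 1)
          (Nat.lt_succ_self _) hz hJm t.2.1 hEm (by omega) (h.x1 _ _ _ _ t hEm)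
        have hl : S.LTp0 E w (S.K.rk x) m k := ⟨hEm, by omega, z, v, t, wm, wz, wv, wk⟩
        exact R.rp k s s' hk (c2.trans _ _ _ (Relation.EqvGen.rel _ _ hl)) (c3.trans _ _ _ hzx) c1
      · -- top `v`, partner `z`
        have r1 := S.K.ar_rk _ _ t.2.1
        have r2 := S.K.ar_rk _ _ t.2.2
        have hEv : ¬ E v := fun e => by
          have k1 := S.K.ar_rk _ _ (h.sq.Ea _ _ _ _ t e)
          have k2 := S.K.ar_rk _ _ (h.sq.Ea _ _ _ _ t.symm' e)
          rcases hor with e | e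
          · have := S.K.ar_rk _ _ e
            omega
          · have := S.K.ar_rk _ _ e
            omega
        have hJv : S.J v = {w} := J_hub t.2.1 t.2.2 (h.sq.nab _ _ _ _ t) wv wm wk
        have r4 := h.sq.rk_lt t hEv
        have hl : S.LTp0 E w (S.K.rk x) v z := ⟨hEv, by omega, m, k, t, wv, wm, wk, wz⟩
        have hvx : S.FE E w (S.K.rk x) v x := (Relation.EqvGen.rel _ _ hl).trans _ _ _ hzx
        have hBv := hB v
        obtain ⟨κ, κ', e1, e2, e3⟩ := chain_change (r := S.HrL v) (p := p)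
          (fun _ _ k => k.symm) ((h.os _ _ _ _ t hEv).symm _ _) (R.pp k hk) hm
        rcases e1.E with e | e
        · exact ih (z := v) (by omega) hJv hvx (by omega) (R.gen κ v e e2 hJv hvx (by omega)) e3 e1
        · have hκ : κ = k := by
            rcases out_two t.2.1 t.2.2 (h.sq.nab _ _ _ _ t) e with k | k
            · rw [k] at e2
              exact absurd e2 hm
            · exact k
          rw [hκ] at e1
          exact ih (z := v) (by omega) hJv hvx (by omega) hk e3 e1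

/-- THE PLACE OF A VERTEX: no page has `p`, the pentagons between the poles are centred at `w`: no
plain strand at the pole `a` -/
theorem place {x a : V} {p Gd : V → Prop} (R : S.Rcs E w x p Gd) (hJ : S.J x = {w})
    (xa : S.K.ar x a) (ga : Gd a) (np : ∀ n, S.K.ar n x → ¬ p n)
    (hd : ∀ b y z, S.K.ar x b → Qn S.P a x b y z → w ∈ S.J b ∧ (w ∈ S.J y ∨ w ∈ S.J z)) :
    S.P.X x a = 0 := by
  by_contra hX
  have hX' : 1 ≤ S.P.X x a := Nat.one_le_iff_ne_zero.2 hX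
  obtain ⟨B, hB⟩ := S.K.rk_bdd
  have wx : w ∈ S.J x := by rw [hJ]; exact rfl
  have wa := R.mem a ga
  rcases P45.X_cases hX' with ⟨q, b, y, hq⟩ | ⟨n, q, hq, -, nx⟩
  · obtain ⟨c, hcen⟩ := Qn.cen' hq
    have hne : ¬ S.RP w x a := fun k =>
      R.rp a a x ga (Relation.EqvGen.refl _) (Relation.EqvGen.refl _) k.symm
    have wy : w ∈ S.J y := mem_of_J hJ hq.E5.symm
    by_cases hcw : c = w
    · subst hcw
      exact hne ⟨q, b, y, hq, hcen⟩
    · have hcx : c ∉ S.J x := by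
        rw [hJ]
        exact hcw
      have hca : c ∈ S.J a := (hcen 0).resolve_left hcx
      have hcy : c ∈ S.J y := (hcen 4).resolve_right hcx
      obtain ⟨u, hu, c1, c2⟩ := first_cs hcw wa hca wy hcy
      have hpy := R.ex a y u ga hu c1 c2
      rcases hq.E5 with e | e
      · exact np y e hpy
      · -- `y` is a pole
        have hq' : Qn S.P a x y b q := hq.symm.rot
        obtain ⟨-, h2⟩ := hd y b q e hq'
        refine hne ⟨q, b, y, hq, ?_⟩
        intro j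
        fin_cases j
        · exact Or.inl wx
        · exact Or.inl wa
        · exact h2.symm
        · exact Or.inr wy
        · exact Or.inl wy
  · have r0 := S.K.ar_rk _ _ nx
    have r1 := S.K.ar_rk _ _ xa
    have wn : w ∈ S.J n := mem_of_J hJ hq.E1.symm
    have wq : w ∈ S.J q := by
      by_contra hv
      obtain ⟨u, hu, c1, c2⟩ := miss_cs (Or.symm hq.E4) hq.E3 wn wa hv
      exact np n nx (R.ex a n u ga hu c2 c1)
    rcases h.sq.q4 hq with t | t | t | t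
    · -- top `n`, partner `a`
      have hEn : ¬ E n := fun e => by
        have := S.K.ar_rk _ _ (h.sq.Ea _ _ _ _ t.symm' e)
        omega
      have hJn : S.J n = {w} := J_hub t.2.1 t.2.2 (h.sq.nab _ _ _ _ t) wn wq wx
      obtain ⟨s, s', c1, c2, c3⟩ := h.virt (r := S.K.rk x) hB (B - S.K.rk n + 1)
        (Nat.lt_succ_self _) hJ hJn nx hEn (by omega) (h.x1 _ _ _ _ t.symm' hEn)
      have hl : S.LTp0 E w (S.K.rk x) n a := ⟨hEn, r0, q, x, t, wn, wq, wx, wa⟩
      exact R.rp a s s' ga (c2.trans _ _ _ (Relation.EqvGen.rel _ _ hl)) c3 c1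
    · have := S.K.ar_rk _ _ t.2.1
      omega
    · have := S.K.ar_rk _ _ t.2.1
      omega
    · -- top `q`, partner `x`
      have r2 := S.K.ar_rk _ _ t.2.1
      have r3 := S.K.ar_rk _ _ t.2.2
      have hEq : ¬ E q := fun e => by
        have := S.K.ar_rk _ _ (h.sq.Ea _ _ _ _ t.symm' e)
        omega
      have hJq : S.J q = {w} := J_hub t.2.1 t.2.2 (h.sq.nab _ _ _ _ t) wq wa wn
      have hl : S.LTp0 E w (S.K.rk x) q x := ⟨hEq, by omega, a, n, t, wq, wa, wn, wx⟩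
      have hqx : S.FE E w (S.K.rk x) q x := Relation.EqvGen.rel _ _ hl
      obtain ⟨κ, κ', e1, e2, e3⟩ := chain_change (r := S.HrL q) (p := p)
        (fun _ _ k => k.symm) (h.os _ _ _ _ t hEq) (R.pp a ga) (np n nx)
      rcases e1.E with e | e
      · exact h.rcs R hB (B - S.K.rk q + 1) (z := q) (Nat.lt_succ_self _) hJq hqx (by omega)
          (R.gen κ q e e2 hJq hqx (by omega)) e3 e1
      · have hκ : κ = a := by
          rcases out_two t.2.1 t.2.2 (h.sq.nab _ _ _ _ t) e with k | k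
          · exact k
          · rw [k] at e2
            exact absurd e2 (np n nx)
        rw [hκ] at e1
        exact h.rcs R hB (B - S.K.rk q + 1) (z := q) (Nat.lt_succ_self _) hJq hqx (by omega)
          ga e3 e1

/-! ### instances -/

section

variable {r : ℕ}

theorem not_O_rk {z : V} (hz : w ∈ S.J z) (hr : S.K.rk z ≤ r) : ¬ (h.locF r).O (S.rho w z) := by
  rintro ⟨v, y, hv, e, -, k2, -⟩
  rw [S.rho_near hz] at e
  have e' : z = v := congrArg Subtype.val (Sum.inl.inj e)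
  rw [← e'] at k2
  omega

theorem not_O_tv {u : S.X} (hu : S.D.G.Adj w u) : ¬ (h.locF r).O (S.tv w u hu) := by
  rintro ⟨v, y, hv, e, -⟩
  cases e

end

/-- parallel poles: the poles -/
theorem rp_pole {T a b : V} (hT : w ∈ S.J T) (Ta : S.K.ar T a) (Tb : S.K.ar T b) (hab : a ≠ b)
    (wa : w ∈ S.J a) (wb : w ∈ S.J b) {s s' : S.SV w} (hs : s ≠ s')
    (ns : ¬ (h.locF (S.K.rk T)).O s) (ns' : ¬ (h.locF (S.K.rk T)).O s')
    (a1 : (S.k0 hc w).ar (S.rho w a) s) (a2 : (S.k0 hc w).ar (S.rho w a) s')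
    (b1 : (S.k0 hc w).ar (S.rho w b) s) (b2 : (S.k0 hc w).ar (S.rho w b) s') {v v' : V}
    (hv : S.FE E w (S.K.rk T) v a) (hv' : S.FE E w (S.K.rk T) v' T) : ¬ S.RP w v v' := by
  intro hrp
  rcases h.hp with hm | hp
  · obtain ⟨i, h5, hpass⟩ := hrp.pass hc
    have ra := S.K.ar_rk _ _ Ta
    have rb := S.K.ar_rk _ _ Tb
    set D := h.locF (S.K.rk T) with hD
    have oT : ¬ D.O (S.rho w T) := h.not_O_rk hT le_rfl
    have oa : ¬ D.O (S.rho w a) := h.not_O_rk wa ra.le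
    have ob : ¬ D.O (S.rho w b) := h.not_O_rk wb rb.le
    have hss : D.F s ≠ D.F s' := by
      intro e
      rw [D.F_not ns, D.F_not ns'] at e
      exact hs (congrArg Subtype.val e)
    have hne : D.F (S.rho w a) ≠ D.F (S.rho w b) := by
      intro e
      rw [D.F_not oa, D.F_not ob] at e
      exact hab (rho_inj wa (congrArg Subtype.val e))
    have hx : ∀ c, D.gx.ar (D.F (S.rho w a)) c ↔ c = D.F s ∨ c = D.F s' := fun c =>
      ⟨fun k => out_two (D.ar_of oa a1) (D.ar_of oa a2) hss k, by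
        rintro (rfl | rfl)
        · exact D.ar_of oa a1
        · exact D.ar_of oa a2⟩
    have hy : ∀ c, D.gx.ar (D.F (S.rho w b)) c ↔ c = D.F s ∨ c = D.F s' := fun c =>
      ⟨fun k => out_two (D.ar_of ob b1) (D.ar_of ob b2) hss k, by
        rintro (rfl | rfl)
        · exact D.ar_of ob b1
        · exact D.ar_of ob b2⟩
    refine (D.min hm).par hx hy (SAG.InC.mono inf_le_left (D.gx.stab _))
      (D.ar_of oT (hr_sar hT wa Ta)) (D.ar_of oT (hr_sar hT wb Tb)) hne (D.long hm h5) ?_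
    have := D.pass hm h5 hpass
    rw [h.FE_F hv, h.FE_F hv'] at this
    exact this.symm
  · exact hp _ _ hrp

/-- parallel poles: the pages -/
theorem rp_page {T a b : V} (hT : w ∈ S.J T) (Ta : S.K.ar T a) (Tb : S.K.ar T b) (hab : a ≠ b)
    (wa : w ∈ S.J a) (wb : w ∈ S.J b) {s s' : S.SV w} (hs : s ≠ s')
    (ns : ¬ (h.locF (S.K.rk T)).O s) (ns' : ¬ (h.locF (S.K.rk T)).O s')
    (a1 : (S.k0 hc w).ar (S.rho w a) s) (a2 : (S.k0 hc w).ar (S.rho w a) s')
    (b1 : (S.k0 hc w).ar (S.rho w b) s) (b2 : (S.k0 hc w).ar (S.rho w b) s') {n z : V}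
    {u : S.X} (hu : S.D.G.Adj w u) (nu : S.Cs w u n) (n1 : (S.k0 hc w).ar (S.rho w n) s)
    (nz : S.K.ar n z) (wz : w ∈ S.J z) (hz : S.FE E w (S.K.rk T) z T) {v v' : V}
    (hv : S.FE E w (S.K.rk T) v n) (hv' : S.FE E w (S.K.rk T) v' T) : ¬ S.RP w v v' := by
  intro hrp
  rcases h.hp with hm | hp
  · obtain ⟨i, h5, hpass⟩ := hrp.pass hc
    have ra := S.K.ar_rk _ _ Ta
    have rb := S.K.ar_rk _ _ Tb
    set D := h.locF (S.K.rk T) with hD
    have oT : ¬ D.O (S.rho w T) := h.not_O_rk hT le_rfl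
    have oa : ¬ D.O (S.rho w a) := h.not_O_rk wa ra.le
    have ob : ¬ D.O (S.rho w b) := h.not_O_rk wb rb.le
    have on : ¬ D.O (S.rho w n) := h.not_O_of_cs hu nu
    have hss : D.F s ≠ D.F s' := by
      intro e
      rw [D.F_not ns, D.F_not ns'] at e
      exact hs (congrArg Subtype.val e)
    have hne : D.F (S.rho w a) ≠ D.F (S.rho w b) := by
      intro e
      rw [D.F_not oa, D.F_not ob] at e
      exact hab (rho_inj wa (congrArg Subtype.val e))
    have hx : ∀ c, D.gx.ar (D.F (S.rho w a)) c ↔ c = D.F s ∨ c = D.F s' := fun c =>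
      ⟨fun k => out_two (D.ar_of oa a1) (D.ar_of oa a2) hss k, by
        rintro (rfl | rfl)
        · exact D.ar_of oa a1
        · exact D.ar_of oa a2⟩
    have hy : ∀ c, D.gx.ar (D.F (S.rho w b)) c ↔ c = D.F s ∨ c = D.F s' := fun c =>
      ⟨fun k => out_two (D.ar_of ob b1) (D.ar_of ob b2) hss k, by
        rintro (rfl | rfl)
        · exact D.ar_of ob b1
        · exact D.ar_of ob b2⟩
    have nT : D.gx.ar (D.F (S.rho w n)) (D.F (S.rho w T)) := by
      have := D.ar_of on (hr_sar (hc := hc) nu.1 wz nz)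
      rwa [h.FE_F hz] at this
    refine (D.min hm).par2 hx hy (D.ar_of oT (hr_sar hT wa Ta)) (D.ar_of oT (hr_sar hT wb Tb)) hne
      nT (D.ar_of on n1) (D.long hm h5) (Or.inl ?_)
    have := D.pass hm h5 hpass
    rwa [h.FE_F hv, h.FE_F hv'] at this
  · exact hp _ _ hrp

/-- INTERIOR LEVEL: the good vertices -/
theorem rcs_int {T a b : V} (hT : w ∈ S.J T) (Ta : S.K.ar T a) (Tb : S.K.ar T b) (hab : a ≠ b)
    {u u' : S.X} (hu : S.D.G.Adj w u) (hu' : S.D.G.Adj w u') (hne : u ≠ u') (au : S.Cs w u a)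
    (au' : S.Cs w u' a) (bu : S.Cs w u b) (bu' : S.Cs w u' b) :
    S.Rcs E w T (fun m => S.Cs w u m ∨ S.Cs w u' m) (fun k => (S.Cs w u k ∨ S.Cs w u' k) ∧
      (k = a ∨ ∃ v, S.K.ar k v ∧ S.J v = {w} ∧ S.FE E w (S.K.rk T) v T)) where
  mem := by
    rintro k ⟨h1 | h1, -⟩
    · exact h1.1
    · exact h1.1
  nE := by
    rintro k ⟨h1 | h1, -⟩ e
    · exact h.ec k e u hu h1
    · exact h.ec k e u' hu' h1
  pp k hk := hk.1
  ex := by
    rintro k m u1 ⟨h1, rfl | ⟨v, kv, hv, -⟩⟩ hu1 c1 c2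
    · have h1 : S.SAr w (Sum.inl ⟨k, au.1⟩) (Sum.inr ⟨u, hu⟩) := SAr.up _ _ au.2
      have h2 : S.SAr w (Sum.inl ⟨k, au.1⟩) (Sum.inr ⟨u', hu'⟩) := SAr.up _ _ au'.2
      have h3 : S.SAr w (Sum.inl ⟨k, au.1⟩) (Sum.inr ⟨u1, hu1⟩) := SAr.up _ _ c1.2
      rcases SAr.two _ _ _ _ h1 h2 h3 with e | e | e
      · exact absurd (congrArg Subtype.val (Sum.inr.inj e)) hne
      · have e' : u' = u1 := congrArg Subtype.val (Sum.inr.inj e)
        rw [← e'] at c2
        exact Or.inr c2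
      · have e' : u = u1 := congrArg Subtype.val (Sum.inr.inj e)
        rw [← e'] at c2
        exact Or.inl c2
    · have wv : w ∈ S.J v := by rw [hv]; exact rfl
      rcases h1 with h1 | h1
      · have e := (exits_page hu h1 kv wv).2 u1 hu1 c1.2
        rw [e] at c2
        exact Or.inl c2
      · have e := (exits_page hu' h1 kv wv).2 u1 hu1 c1.2
        rw [e] at c2
        exact Or.inr c2
  top := by
    rintro k c c' ⟨h1, rfl | ⟨v, kv, hv, -⟩⟩ kc kc' wc wc'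
    · have h1 : S.SAr w (Sum.inl ⟨k, au.1⟩) (Sum.inr ⟨u, hu⟩) := SAr.up _ _ au.2
      have h2 : S.SAr w (Sum.inl ⟨k, au.1⟩) (Sum.inr ⟨u', hu'⟩) := SAr.up _ _ au'.2
      have h3 : S.SAr w (Sum.inl ⟨k, au.1⟩) (Sum.inl ⟨c, wc⟩) := SAr.hor _ _ kc
      rcases SAr.two _ _ _ _ h1 h2 h3 with e | e | e
      · exact absurd (congrArg Subtype.val (Sum.inr.inj e)) hne
      · cases e
      · cases e
    · have wv : w ∈ S.J v := by rw [hv]; exact rfl
      rcases h1 with h1 | h1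
      · have ex := (exits_page hu h1 kv wv).1
        rw [ex c kc wc, ex c' kc' wc']
      · have ex := (exits_page hu' h1 kv wv).1
        rw [ex c kc wc, ex c' kc' wc']
  rp := by
    rintro k s s' ⟨h1, rfl | ⟨v, kv, hv, hvT⟩⟩ hs hs'
    · exact h.rp_pole hT Ta Tb hab au.1 bu.1 (tv_ne hu hu' hne) (h.not_O_tv hu) (h.not_O_tv hu')
        (hr_stv hu au) (hr_stv hu' au') (hr_stv hu bu) (hr_stv hu' bu') hs hs'
    · have wv : w ∈ S.J v := by rw [hv]; exact rfl
      rcases h1 with h1 | h1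
      · exact h.rp_page hT Ta Tb hab au.1 bu.1 (tv_ne hu hu' hne) (h.not_O_tv hu) (h.not_O_tv hu')
          (hr_stv hu au) (hr_stv hu' au') (hr_stv hu bu) (hr_stv hu' bu') hu h1 (hr_stv hu h1)
          kv wv hvT hs hs'
      · exact h.rp_page hT Ta Tb hab au.1 bu.1 (tv_ne hu' hu hne.symm) (h.not_O_tv hu')
          (h.not_O_tv hu) (hr_stv hu' au') (hr_stv hu au) (hr_stv hu' bu') (hr_stv hu bu) hu' h1
          (hr_stv hu' h1) kv wv hvT hs hs'
  gen k v kv pk hv hvT _ := ⟨pk, Or.inr ⟨v, kv, hv, hvT⟩⟩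

/-- THE PLACE, INTERIOR LEVEL -/
theorem place_int {T a b : V} (hT : w ∈ S.J T) (Ta : S.K.ar T a) (Tb : S.K.ar T b) (hab : a ≠ b)
    {u u' : S.X} (hu : S.D.G.Adj w u) (hu' : S.D.G.Adj w u') (hne : u ≠ u') (au : S.Cs w u a)
    (au' : S.Cs w u' a) (bu : S.Cs w u b) (bu' : S.Cs w u' b)
    (np : ∀ n, S.K.ar n T → ¬ S.Cs w u n ∧ ¬ S.Cs w u' n)
    (hd : ∀ c y z, S.K.ar T c → Qn S.P a T c y z → w ∈ S.J y ∨ w ∈ S.J z) : S.P.X T a = 0 := by
  refine h.place (h.rcs_int hT Ta Tb hab hu hu' hne au au' bu bu')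
    (J_hub Ta Tb hab hT au.1 bu.1) Ta ⟨Or.inl au, Or.inl rfl⟩ ?_ ?_
  · rintro n hn (k | k)
    · exact (np n hn).1 k
    · exact (np n hn).2 k
  · intro c y z Tc hq
    refine ⟨?_, hd _ _ _ Tc hq⟩
    rcases out_two Ta Tb hab Tc with rfl | rfl
    · exact au.1
    · exact bu.1

/-- end levels: the good vertices -/
theorem rcs_of {T a o : V} {u : S.X} (hu : S.D.G.Adj w u) (au : S.Cs w u a) (ho : w ∈ S.J o)
    (ao : S.K.ar a o)
    (rp1 : ∀ s s', S.FE E w (S.K.rk T) s a → S.FE E w (S.K.rk T) s' T → ¬ S.RP w s s')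
    (rp2 : ∀ n v s s', S.Cs w u n → S.K.ar n v → w ∈ S.J v → S.FE E w (S.K.rk T) v T →
      S.FE E w (S.K.rk T) s n → S.FE E w (S.K.rk T) s' T → ¬ S.RP w s s') :
    S.Rcs E w T (fun m => S.Cs w u m) (fun k => S.Cs w u k ∧
      (k = a ∨ ∃ v, S.K.ar k v ∧ S.J v = {w} ∧ S.FE E w (S.K.rk T) v T)) where
  mem := by
    rintro k ⟨h1, -⟩
    exact h1.1
  nE := by
    rintro k ⟨h1, -⟩ e
    exact h.ec k e u hu h1
  pp k hk := hk.1
  ex := by
    rintro k m u1 ⟨h1, rfl | ⟨v, kv, hv, -⟩⟩ hu1 c1 c2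
    · have e := (exits_page hu au ao ho).2 u1 hu1 c1.2
      rwa [e] at c2
    · have wv : w ∈ S.J v := by rw [hv]; exact rfl
      have e := (exits_page hu h1 kv wv).2 u1 hu1 c1.2
      rwa [e] at c2
  top := by
    rintro k c c' ⟨h1, rfl | ⟨v, kv, hv, -⟩⟩ kc kc' wc wc'
    · have ex := (exits_page hu au ao ho).1
      rw [ex c kc wc, ex c' kc' wc']
    · have wv : w ∈ S.J v := by rw [hv]; exact rfl
      have ex := (exits_page hu h1 kv wv).1
      rw [ex c kc wc, ex c' kc' wc']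
  rp := by
    rintro k s s' ⟨h1, rfl | ⟨v, kv, hv, hvT⟩⟩ hs hs'
    · exact rp1 s s' hs hs'
    · have wv : w ∈ S.J v := by rw [hv]; exact rfl
      exact rp2 k v s s' h1 kv wv hvT hs hs'
  gen k v kv pk hv hvT _ := ⟨pk, Or.inr ⟨v, kv, hv, hvT⟩⟩

/-- end level, diamond: the good vertices -/
theorem rcs_end {T a b o : V} (hT : w ∈ S.J T) (Ta : S.K.ar T a) (Tb : S.K.ar T b) (hab : a ≠ b)
    {u : S.X} (hu : S.D.G.Adj w u) (au : S.Cs w u a) (bu : S.Cs w u b) (ho : w ∈ S.J o)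
    (ao : S.K.ar a o) (bo : S.K.ar b o) :
    S.Rcs E w T (fun m => S.Cs w u m) (fun k => S.Cs w u k ∧
      (k = a ∨ ∃ v, S.K.ar k v ∧ S.J v = {w} ∧ S.FE E w (S.K.rk T) v T)) := by
  have r1 := S.K.ar_rk _ _ Ta
  have r2 := S.K.ar_rk _ _ ao
  have oo : ¬ (h.locF (S.K.rk T)).O (S.rho w o) := h.not_O_rk ho (by omega)
  refine h.rcs_of hu au ho ao ?_ ?_
  · intro s s' hs hs'
    exact h.rp_pole hT Ta Tb hab au.1 bu.1 (tv_ne_rho hu ho) (h.not_O_tv hu) oo (hr_stv hu au)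
      (hr_sar au.1 ho ao) (hr_stv hu bu) (hr_sar bu.1 ho bo) hs hs'
  · intro n v s s' nu nv wv hv hs hs'
    exact h.rp_page hT Ta Tb hab au.1 bu.1 (tv_ne_rho hu ho) (h.not_O_tv hu) oo (hr_stv hu au)
      (hr_sar au.1 ho ao) (hr_stv hu bu) (hr_sar bu.1 ho bo) hu nu (hr_stv hu nu) nv wv hv hs hs'

/-- THE PLACE, END LEVEL, DIAMOND -/
theorem place_end {T a b o : V} (hT : w ∈ S.J T) (Ta : S.K.ar T a) (Tb : S.K.ar T b) (hab : a ≠ b)
    {u : S.X} (hu : S.D.G.Adj w u) (au : S.Cs w u a) (bu : S.Cs w u b) (ho : w ∈ S.J o)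
    (ao : S.K.ar a o) (bo : S.K.ar b o) (np : ∀ n, S.K.ar n T → ¬ S.Cs w u n)
    (hd : ∀ c y z, S.K.ar T c → Qn S.P a T c y z → w ∈ S.J y ∨ w ∈ S.J z) : S.P.X T a = 0 := by
  refine h.place (h.rcs_end hT Ta Tb hab hu au bu ho ao bo) (J_hub Ta Tb hab hT au.1 bu.1) Ta
    ⟨au, Or.inl rfl⟩ np ?_
  intro c y z Tc hq
  refine ⟨?_, hd _ _ _ Tc hq⟩
  rcases out_two Ta Tb hab Tc with rfl | rfl
  · exact au.1
  · exact bu.1

/-- end level, gamma form: the good vertices -/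
theorem rcs_gamma {T a b o : V} (hT : w ∈ S.J T) (Ta : S.K.ar T a) (Tb : S.K.ar T b)
    {u : S.X} (hu : S.D.G.Adj w u) (au : S.Cs w u a) (bu : S.Cs w u b) (ho : w ∈ S.J o)
    (ao : S.K.ar a o) (ob : S.K.ar o b) :
    S.Rcs E w T (fun m => S.Cs w u m) (fun k => S.Cs w u k ∧
      (k = a ∨ ∃ v, S.K.ar k v ∧ S.J v = {w} ∧ S.FE E w (S.K.rk T) v T)) := by
  have r1 := S.K.ar_rk _ _ Ta
  have r2 := S.K.ar_rk _ _ ao
  have r3 := S.K.ar_rk _ _ ob
  set D := h.locF (S.K.rk T) with hD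
  have oT : ¬ D.O (S.rho w T) := h.not_O_rk hT le_rfl
  have oa : ¬ D.O (S.rho w a) := h.not_O_rk au.1 (by omega)
  have oo : ¬ D.O (S.rho w o) := h.not_O_rk ho (by omega)
  have ob' : ¬ D.O (S.rho w b) := h.not_O_rk bu.1 (by omega)
  have e1 : D.gx.ar (D.F (S.rho w a)) (D.F (S.rho w o)) := D.ar_of oa (hr_sar au.1 ho ao)
  have e2 : D.gx.ar (D.F (S.rho w a)) (D.F (S.tv w u hu)) := D.ar_of oa (hr_stv hu au)
  have e3 : D.gx.ar (D.F (S.rho w o)) (D.F (S.rho w b)) := D.ar_of oo (hr_sar ho bu.1 ob)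
  have e4 : D.gx.ar (D.F (S.rho w b)) (D.F (S.tv w u hu)) := D.ar_of ob' (hr_stv hu bu)
  have e5 : D.gx.ar (D.F (S.rho w T)) (D.F (S.rho w a)) := D.ar_of oT (hr_sar hT au.1 Ta)
  have e6 : D.gx.ar (D.F (S.rho w T)) (D.F (S.rho w b)) := D.ar_of oT (hr_sar hT bu.1 Tb)
  refine h.rcs_of hu au ho ao ?_ ?_
  · intro v v' hv hv' hrp
    rcases h.hp with hm | hp
    · obtain ⟨i, h5, hpass⟩ := hrp.pass hc
      have k := D.pass hm h5 hpass
      rw [hD, h.FE_F hv, h.FE_F hv', ← hD] at k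
      exact (D.min hm).gamma e1 e2 e3 e4 e5 e6 (D.long hm h5) (Or.inl k.symm)
    · exact hp _ _ hrp
  · intro n z v v' nu nz wz hz hv hv' hrp
    rcases h.hp with hm | hp
    · obtain ⟨i, h5, hpass⟩ := hrp.pass hc
      have on : ¬ D.O (S.rho w n) := h.not_O_of_cs hu nu
      have k := D.pass hm h5 hpass
      rw [hD, h.FE_F hv, h.FE_F hv', ← hD] at k
      have nT : D.gx.ar (D.F (S.rho w n)) (D.F (S.rho w T)) := by
        have := D.ar_of on (hr_sar (hc := hc) nu.1 wz nz)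
        rwa [hD, h.FE_F hz, ← hD] at this
      exact (D.min hm).gamma2 e1 e2 e3 e4 e5 e6 nT (D.ar_of on (hr_stv hu nu)) (D.long hm h5)
        (Or.inl k)
    · exact hp _ _ hrp

/-- THE PLACE, END LEVEL, GAMMA FORM -/
theorem place_gamma {T a b o : V} (hT : w ∈ S.J T) (Ta : S.K.ar T a) (Tb : S.K.ar T b)
    (hab : a ≠ b) {u : S.X} (hu : S.D.G.Adj w u) (au : S.Cs w u a) (bu : S.Cs w u b)
    (ho : w ∈ S.J o) (ao : S.K.ar a o) (ob : S.K.ar o b) (np : ∀ n, S.K.ar n T → ¬ S.Cs w u n)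
    (hd : ∀ c y z, S.K.ar T c → Qn S.P a T c y z → w ∈ S.J y ∨ w ∈ S.J z) : S.P.X T a = 0 := by
  refine h.place (h.rcs_gamma hT Ta Tb hu au bu ho ao ob) (J_hub Ta Tb hab hT au.1 bu.1) Ta
    ⟨au, Or.inl rfl⟩ np ?_
  intro c y z Tc hq
  refine ⟨?_, hd _ _ _ Tc hq⟩
  rcases out_two Ta Tb hab Tc with rfl | rfl
  · exact au.1
  · exact bu.1

end ClH

end SyQ

end Pool.Agent.DI
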