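import Pool.Agent.DI.MidU
import Pool.Agent.DI.Hr3

/-!
# DI/R0: a placed part is one-sided

`S.Prt1 x`: the pages of `x` are in one piece; without pages `x` has one pentagon corner; with pages it
has no direct pentagon corner. `S.Clo x t`: corners between pages of `x` keep 'contains `t`'
(closedness, DI/HrC). Let `J x = {p}`, `t` next to `p`, in all poles of `x`. In a placed system no page of
`x` contains `t` (`Plcd.r0_page`), no pentagon at a direct corner of `x` is centred beyond `(p, t)`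
(`Plcd.r0_dir`), and `x` is not at an interior point of the intersection of its poles, if it has a
pentagon corner at a pole (`Plcd.r0_int`).
-/

namespace Pool.Agent.DI

open MulAction
open Pool.Agent.SAF (InC SA orbs FinOrb oc Decomp SAn Conv exists_next)
open Pool.Agent.BT (PX PQ JS bey exits Ell mst Hyp mst_conv)
open Pool.Agent.BT.TA (bey_or bey_not bey_self conv_cr conv_sd)

namespace SyQ

variable {H V : Type} [Group H] [MulAction H V] {S : SyQ H V}

variable (S) in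
/-- corners between pages of `x` keep 'contains `t`' -/
def Clo (x : V) (t : S.X) : Prop :=
  ∀ n m, S.K.Cor n x m → S.K.ar n x → S.K.ar m x → t ∈ S.J n → t ∈ S.J m

variable (S) in
/-- `x` is one piece or one direct corner -/
structure Prt1 (x : V) : Prop where
  one : ∀ n k, S.K.ar n x → S.K.ar k x → S.K.PC x n k
  mix : ∀ n, S.K.ar n x → ∀ a b y z, S.K.ar x a → S.K.ar x b → ¬ Qn S.P a x b y z
  dir : (∀ n, ¬ S.K.ar n x) → ∀ a b y z a' b' y' z', Qn S.P a x b y z → Qn S.P a' x b' y' z' →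
    (a = a' ∧ b = b' ∧ y = y' ∧ z = z') ∨ (a = b' ∧ b = a' ∧ y = z' ∧ z = y')

/-- centres of reversed pentagons -/
theorem r0_rev {a x b y z : V} {c : S.X} (h : S.IsC ![a, x, b, y, z] c) :
    S.IsC ![b, x, a, z, y] c := by
  intro k
  fin_cases k
  · exact (h 1 : c ∈ S.J x ∨ c ∈ S.J b).symm
  · exact (h 0 : c ∈ S.J a ∨ c ∈ S.J x).symm
  · exact (h 4 : c ∈ S.J z ∨ c ∈ S.J a).symm
  · exact (h 3 : c ∈ S.J y ∨ c ∈ S.J z).symm
  · exact (h 2 : c ∈ S.J b ∨ c ∈ S.J y).symm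

theorem r0_smul {a x b y z : V} {c : S.X} (g : H) (h : S.IsC ![a, x, b, y, z] c) :
    S.IsC ![g • a, g • x, g • b, g • y, g • z] (g • c) := by
  have k : ∀ v : V, c ∈ S.J v → g • c ∈ S.J (g • v) := fun v hv => S.js.smul g v c hv
  intro j
  fin_cases j
  · exact (h 0 : c ∈ S.J a ∨ c ∈ S.J x).imp (k _) (k _)
  · exact (h 1 : c ∈ S.J x ∨ c ∈ S.J b).imp (k _) (k _)
  · exact (h 2 : c ∈ S.J b ∨ c ∈ S.J y).imp (k _) (k _)
  · exact (h 3 : c ∈ S.J y ∨ c ∈ S.J z).imp (k _) (k _)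
  · exact (h 4 : c ∈ S.J z ∨ c ∈ S.J a).imp (k _) (k _)

/-- two vertices adjacent to `p` with a common point beyond are equal -/
theorem r0_nxt {p t t' c : S.X} (h : S.D.G.Adj p t) (h' : S.D.G.Adj p t')
    (hc : c ∈ bey S.D.G p t) (hc' : c ∈ bey S.D.G p t') : t = t' :=
  Pool.Agent.BT.x_next_unique S.D.tree h h' hc hc'

/-- NO PAGE CROSSES -/
theorem Plcd.r0_page (pl : S.Plcd) {x : V} {p t : S.X}
    (hone : ∀ n k, S.K.ar n x → S.K.ar k x → S.K.PC x n k) (hJ : S.J x = {p})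
    (e : S.D.G.Adj p t) (hp : ∀ a, S.K.ar x a → t ∈ S.J a) (hc : S.Clo x t) {n : V}
    (hn : S.K.ar n x) : t ∉ S.J n := by
  intro ht
  have hpx : p ∈ S.J x := by rw [hJ]; rfl
  have key : ∀ k l, S.K.PC x k l → ((S.K.ar k x ∧ t ∈ S.J k) ↔ (S.K.ar l x ∧ t ∈ S.J l)) := by
    intro k l h
    induction h with
    | rel a b h =>
      obtain ⟨ha, hb, hcor⟩ := h
      exact ⟨fun k => ⟨hb, hc a b hcor ha hb k.2⟩, fun k => ⟨ha, hc b a hcor.symm hb ha k.2⟩⟩
    | refl a => exact Iff.rfl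
    | symm a b _ ih => exact ih.symm
    | trans a b c _ _ ih1 ih2 => exact ih1.trans ih2
  have hall : ∀ k, S.K.ar k x → t ∈ S.J k := fun k hk =>
    ((key n k (hone n k hn hk)).1 ⟨hn, ht⟩).2
  have hfix : ∀ h : H, h • x = x → h • t = t := by
    intro h hh
    have hu : h • p = p := mq_fix hJ hh
    have hadj : S.D.G.Adj p (h • t) := by
      have := S.D.adj_smul h _ _ e
      rwa [hu] at this
    have hk' : S.K.ar (h • n) x := by
      have := S.K.ar_smul h _ _ hn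
      rwa [hh] at this
    exact mq_one hk' hpx (mq_mem hJ (Or.inl hk')) hadj e (S.js.smul h _ _ ht) (hall _ hk')
  obtain ⟨k, h1, h2⟩ := pl.page x p t hJ e hfix hp ⟨n, hn⟩
  exact h2 (hall k h1)

/-- NO DIRECT CORNER BEYOND -/
theorem Plcd.r0_dir (pl : S.Plcd) {x : V} {p t : S.X} (hx : S.Prt1 x)
    (hno : ∀ n, ¬ S.K.ar n x) (hJ : S.J x = {p}) (e : S.D.G.Adj p t)
    (hp : ∀ a, S.K.ar x a → t ∈ S.J a) {a b y z : V} {c : S.X} (hq : Qn S.P a x b y z)
    (hc : S.IsC ![a, x, b, y, z] c) : c ∉ bey S.D.G p t := by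
  intro hb
  have uniq : ∀ {a' b' y' z' : V} {c' : S.X}, Qn S.P a' x b' y' z' →
      S.IsC ![a', x, b', y', z'] c' → c' = c := by
    intro a' b' y' z' c' hq' hc'
    rcases hx.dir hno a b y z a' b' y' z' hq hq' with ⟨rfl, rfl, rfl, rfl⟩ | ⟨rfl, rfl, rfl, rfl⟩
    · exact S.isC_unique (Qn.hv hq) hc' hc
    · exact S.isC_unique (Qn.hv hq) (r0_rev hc') hc
  have hfix : ∀ h : H, h • x = x → h • t = t := by
    intro h hh
    have hu : h • p = p := mq_fix hJ hh
    have hadj : S.D.G.Adj p (h • t) := by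
      have := S.D.adj_smul h _ _ e
      rwa [hu] at this
    have hq' := hq.smul h
    have hc' := r0_smul h hc
    rw [hh] at hq' hc'
    have e1 := uniq hq' hc'
    have h1 : h • c ∈ bey S.D.G p (h • t) := by
      have := S.bey_smul h hb
      rwa [hu] at this
    rw [e1] at h1
    exact r0_nxt hadj e h1 hb
  obtain ⟨a1, b1, y1, z1, c1, k1, k2, k3⟩ := pl.nopage x p t
    ⟨a, (hq.E1).resolve_left (hno a)⟩ hno hJ e hfix hp ⟨_, _, _, _, hq⟩
  rw [uniq k1 k2] at k3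
  exact k3 hb

/-- a vertex over `p` leaves `p` through at most two edges -/
theorem r0_two {a : V} {p t u u' : S.X} (ha : p ∈ S.J a) (ht : S.D.G.Adj p t)
    (hu : S.D.G.Adj p u) (hu' : S.D.G.Adj p u') (hne : u ≠ u') (kt : t ∈ S.J a) (ku : u ∈ S.J a)
    (ku' : u' ∈ S.J a) : t = u ∨ t = u' := by
  rcases S.js.two a p ha (Sum.inr t) (Or.inr ⟨t, rfl, ht, kt⟩) (Sum.inr u)
    (Or.inr ⟨u, rfl, hu, ku⟩) (Sum.inr u') (Or.inr ⟨u', rfl, hu', ku'⟩) with k | k | k
  · exact Or.inl (Sum.inr.inj k)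
  · exact Or.inr (Sum.inr.inj k)
  · exact absurd (Sum.inr.inj k) hne

/-- NO PART IS AT AN INTERIOR POINT -/
theorem Plcd.r0_int (pl : S.Plcd) {hc : S.Conn} {x a b : V} {p u u' : S.X} (hx : S.Prt1 x)
    (hJ : S.J x = {p}) (hm : (S.k0 hc p).Min ∨ ∀ {a q b y z : V}, Qn S.P a q b y z →
      ¬ S.IsC ![a, q, b, y, z] p) (xa : S.K.ar x a) (xb : S.K.ar x b) (hab : a ≠ b)
    (hu : S.D.G.Adj p u) (hu' : S.D.G.Adj p u') (hne : u ≠ u') (au : u ∈ S.J a) (au' : u' ∈ S.J a)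
    (bu : u ∈ S.J b) (bu' : u' ∈ S.J b) (hcl : ∀ t, S.D.G.Adj p t → (∀ c, S.K.ar x c →
      t ∈ S.J c) → S.Clo x t) {n y z : V} (hq : Qn S.P n x a y z) : False := by
  have hpx : p ∈ S.J x := by rw [hJ]; rfl
  have hpa : p ∈ S.J a := mq_mem hJ (Or.inr xa)
  have hpb : p ∈ S.J b := mq_mem hJ (Or.inr xb)
  obtain ⟨c, hce⟩ := Qn.cen hq
  by_cases hcp : p = c
  · subst hcp
    rcases hm with hm | hm
    · have h1 : S.RP p x a := ⟨y, z, n, hq.rot, hce.rot⟩
      exact (rp_int hm hpx xa xb hab hu hu' hne ⟨hpa, au⟩ ⟨hpa, au'⟩ ⟨hpb, bu⟩ ⟨hpb, bu'⟩).1 h1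
    · exact hm hq hce
  · obtain ⟨t, h1, h2⟩ := bey_of_ne hcp
    have h3 : t ∉ S.J x := by
      rw [hJ]
      exact h1.ne'
    obtain ⟨k1, k2⟩ := nbr_cs hq hce hpx h1 h2 h3
    have htb : t ∈ S.J b := by
      rcases r0_two hpa h1 hu hu' hne k2.2 au au' with rfl | rfl
      · exact bu
      · exact bu'
    have hpole : ∀ c, S.K.ar x c → t ∈ S.J c := by
      intro c hc'
      rcases S.K.two x a b c xa xb hc' with e | e | e
      · exact absurd e hab
      · exact e ▸ htb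
      · exact e ▸ k2.2
    rcases hq.E1 with hn | hn
    · exact pl.r0_page hx.one hJ h1 hpole (hcl t h1 hpole) hn k1.2
    · have hno : ∀ m, ¬ S.K.ar m x := fun m hm' => hx.mix m hm' n a y z hn xa hq
      exact pl.r0_dir hx hno hJ h1 hpole hq hce h2

end SyQ

end Pool.Agent.DI
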