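import Pool.Agent.DI.HrC
import Pool.Agent.DI.R0

/-!
# DI/HrF: closedness in a complex all of whose softs are split

The class `P.SqW tw Tp pt`: every square is between two twins (`tw`, two parts of one vertex), or has a
top `T` (`Tp T`) with the partner `pt T` of smaller rank. `h : S.ClW hc w tw Tp pt`: a twin of a vertex
which crosses an edge at `w` crosses it, the two sides of a top are joined at the top by corners which are
not between two poles, the slice at `w` is minimal or no pentagon is centred at `w`.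
`ClW.closed`: `J x = {w}`, the poles `a`, `b` of `x` and the page `n` cross `w u`; then every cell with a
corner `n x m` has `m` crossing `w u`. The proof is the one of DI/HrC (helper29).
-/

namespace Pool.Agent.DI

open MulAction
open Pool.Agent.SAF (InC orbs FinOrb oc Decomp SAn SA Conv hull dist_edge FinOrb_iff exists_next)
open Pool.Agent.BT (PX PQ JS bey exits lz lz_self lz_ne lz_symm x_next_unique)
open Pool.Agent.BT.TA

/-- THE CLASS OF THE SQUARES OF A SPLIT COMPLEX -/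
structure P45.SqW {H V : Type} [Group H] [MulAction H V] {K : GX H V} (P : P45 K)
    (tw : V → V → Prop) (Tp : V → Prop) (pt : V → V) : Prop where
  q4 : ∀ a q b y, Q4 P a q b y → (tw a b ∧ K.ar a q) ∨ (tw q y ∧ K.ar q a ∧ K.ar q b) ∨
    (Tp a ∧ P.Top a y q b ∧ pt a = b) ∨ (Tp q ∧ P.Top q a b y ∧ pt q = y) ∨
    (Tp b ∧ P.Top b q y a ∧ pt b = a) ∨ (Tp y ∧ P.Top y b a q ∧ pt y = q)
  Ts : ∀ (h : H) T, Tp T → Tp (h • T)
  ps : ∀ (h : H) T, Tp T → pt (h • T) = h • pt T
  lt : ∀ T, Tp T → K.rk (pt T) < K.rk T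
  nab : ∀ T a b y, P.Top T a b y → a ≠ b
  twr : ∀ x y, tw x y → K.rk x = K.rk y

namespace SyQ

variable {H V : Type} [Group H] [MulAction H V] (S : SyQ H V)

/-- `v` is a top over `w` of rank greater than `r` with the partner `y` -/
def LTw (Tp : V → Prop) (pt : V → V) (w : S.X) (r : ℕ) (v y : V) : Prop := Tp v ∧ r < S.K.rk v ∧
  pt v = y ∧ ∃ a b, S.P.Top v a b y ∧ w ∈ S.J v ∧ w ∈ S.J a ∧ w ∈ S.J b ∧ w ∈ S.J y

/-- equal after the fold of the tops over `w` of rank greater than `r` -/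
def FW (Tp : V → Prop) (pt : V → V) (w : S.X) (r : ℕ) (v v' : V) : Prop :=
  Relation.EqvGen (S.LTw Tp pt w r) v v'

/-- the hypotheses at `w` -/
structure ClW (hc : S.Conn) (w : S.X) (tw : V → V → Prop) (Tp : V → Prop) (pt : V → V) :
    Prop where
  sq : S.P.SqW tw Tp pt
  twJ : ∀ x y, tw x y → ∀ u, S.D.G.Adj w u → S.Cs w u x → S.Cs w u y
  os : ∀ T a b y, Tp T → S.P.Top T a b y → Relation.EqvGen (S.HrL T) a b
  hp : (S.k0 hc w).Min ∨ ∀ x z, ¬ S.RP w x z

variable {S}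

namespace ClW

variable {hc : S.Conn} {w : S.X} {tw : V → V → Prop} {Tp : V → Prop} {pt : V → V}
  (h : S.ClW hc w tw Tp pt)
include h

theorem ltp_smul {r : ℕ} (g : ↥(stabilizer H w)) {v y : V} (k : S.LTw Tp pt w r v y) :
    S.LTw Tp pt w r (g.1 • v) (g.1 • y) := by
  have hw : g.1 • w = w := g.2
  have mem : ∀ z, w ∈ S.J z → w ∈ S.J (g.1 • z) := by
    intro z hz
    have := S.js.smul g.1 _ _ hz
    rwa [hw] at this
  obtain ⟨k1, k2, rfl, a, b, k3, k4, k5, k6, k7⟩ := k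
  exact ⟨h.sq.Ts g.1 _ k1, by rw [S.K.rk_smul]; exact k2, h.sq.ps g.1 _ k1, g.1 • a, g.1 • b,
    k3.smul g.1, mem _ k4, mem _ k5, mem _ k6, mem _ k7⟩

/-- the fold of the tops over `w` of rank greater than `r` -/
noncomputable def locF (r : ℕ) : SqF (S.k0 hc w) where
  O s := ∃ v y, ∃ hv : w ∈ S.J v, s = Sum.inl ⟨v, hv⟩ ∧ S.LTw Tp pt w r v y
  ρ s := match s with
    | Sum.inl v => S.rho w (pt v.1)
    | Sum.inr u => Sum.inr u
  O_smul := by
    rintro g _ ⟨v, y, hv, rfl, k⟩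
    have hv' : w ∈ S.J (g.1 • v) := by
      have hw : g.1 • w = w := g.2
      have := S.js.smul g.1 _ _ hv
      rwa [hw] at this
    exact ⟨g.1 • v, g.1 • y, hv', rfl, h.ltp_smul g k⟩
  ρ_smul := by
    rintro g _ ⟨v, y, hv, rfl, k⟩
    obtain ⟨k1, -, k2, a, b, k3, -⟩ := k
    show S.rho w (pt (g.1 • v)) = g • S.rho w (pt v)
    rw [h.sq.ps g.1 _ k1, S.rho_smul]
  ρ_rk := by
    rintro _ ⟨v, y, hv, rfl, k⟩
    obtain ⟨k1, -, k2, a, b, k3, -, -, -, k7⟩ := k
    show S.rkS w (S.rho w (pt v)) < S.K.rk v + 1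
    rw [k2, S.rho_near k7]
    show S.K.rk y + 1 < S.K.rk v + 1
    have := h.sq.lt _ k1
    rw [k2] at this
    omega
  ρ_E := by
    rintro _ s ⟨v, y, hv, rfl, k⟩ hs
    obtain ⟨k1, -, k2, a, b, k3, k4, k5, k6, k7⟩ := k
    show (S.k0 hc w).E (S.rho w (pt v)) s
    rw [k2]
    have hab := h.sq.nab _ _ _ _ k3
    have h1 : S.SAr w (Sum.inl ⟨v, hv⟩) (Sum.inl ⟨a, k5⟩) := SAr.hor _ _ k3.2.1
    have h2 : S.SAr w (Sum.inl ⟨v, hv⟩) (Sum.inl ⟨b, k6⟩) := SAr.hor _ _ k3.2.2
    rcases SAr.two _ _ _ _ h1 h2 hs with e | e | e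
    · exact absurd (congrArg Subtype.val (Sum.inl.inj e)) hab
    · have := S.rho_step' (w := w) (Or.symm k3.Eb) (Or.inl k7)
      rw [S.rho_near k6] at this
      rw [← e]
      exact this
    · have := S.rho_step' (w := w) (Or.symm k3.Ea) (Or.inl k7)
      rw [S.rho_near k5] at this
      rw [← e]
      exact this
  ρ_ex := by
    rintro _ ⟨v, y, hv, rfl, k⟩
    obtain ⟨-, -, -, a, b, k3, -, k5, -⟩ := k
    exact ⟨Sum.inl ⟨a, k5⟩, SAr.hor _ _ k3.2.1⟩

theorem FE_F {r : ℕ} {v v' : V} (k : S.FW Tp pt w r v v') :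
    (h.locF r).F (S.rho w v) = (h.locF r).F (S.rho w v') := by
  induction k with
  | rel v y k =>
    obtain ⟨k1, k2, k8, a, b, k3, k4, k5, k6, k7⟩ := k
    rw [SqF.F_eq]
    have hO : (h.locF r).O (S.rho w v) :=
      ⟨v, y, k4, S.rho_near k4, k1, k2, k8, a, b, k3, k4, k5, k6, k7⟩
    rw [(h.locF r).f_O hO, S.rho_near k4]
    show (h.locF r).f (S.rho w (pt v)) = _
    rw [k8]
  | refl v => rfl
  | symm v v' _ ih => exact ih.symm
  | trans v v' v'' _ _ i1 i2 => exact i1.trans i2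

theorem not_O_of_cs {r : ℕ} {u : S.X} (hu : S.D.G.Adj w u) {k : V} (hk : S.Cs w u k) :
    ¬ (h.locF r).O (S.rho w k) := by
  rintro ⟨v, y, hv, e, -, -, -, a, b, k3, k4, k5, k6, k7⟩
  rw [S.rho_near hk.1] at e
  have e' : k = v := congrArg Subtype.val (Sum.inl.inj e)
  subst e'
  exact hub_not_cs k3.2.1 k3.2.2 (h.sq.nab _ _ _ _ k3) k4 k5 k6 hu hk

/-- no virtual pass between a page which crosses and the hub -/
theorem hub_contr {x a b : V} {u : S.X} (hu : S.D.G.Adj w u) (hx : w ∈ S.J x) (xa : S.K.ar x a)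
    (xb : S.K.ar x b) (hab : a ≠ b) (au : S.Cs w u a) (bu : S.Cs w u b) {k z0 : V}
    (hk : S.Cs w u k) (kz : S.K.ar k z0) (hz : w ∈ S.J z0)
    (hz0 : S.FW Tp pt w (S.K.rk x) z0 x) {s s' : V} (hs : S.FW Tp pt w (S.K.rk x) s k)
    (hs' : S.FW Tp pt w (S.K.rk x) s' x) : ¬ S.RP w s s' := by
  intro hrp
  rcases h.hp with hm | hp
  · obtain ⟨i, h5, hpass⟩ := hrp.pass hc
    set D := h.locF (S.K.rk x) with hD
    have ox : ¬ D.O (S.rho w x) := by
      rintro ⟨v, y, hv, e, -, k2, -⟩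
      rw [S.rho_near hx] at e
      have e' : x = v := congrArg Subtype.val (Sum.inl.inj e)
      rw [← e'] at k2
      exact lt_irrefl _ k2
    have ok : ¬ D.O (S.rho w k) := h.not_O_of_cs hu hk
    have oa : ¬ D.O (S.rho w a) := h.not_O_of_cs hu au
    have ob : ¬ D.O (S.rho w b) := h.not_O_of_cs hu bu
    have a1 : D.gx.ar (D.F (S.rho w k)) (D.F (S.rho w x)) := by
      have := D.ar_of ok (hr_sar (hc := hc) hk.1 hz kz)
      rwa [h.FE_F hz0] at this
    have a2 : D.gx.ar (D.F (S.rho w k)) (D.F (S.tv w u hu)) := D.ar_of ok (hr_stv hu hk)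
    have a3 : D.gx.ar (D.F (S.rho w x)) (D.F (S.rho w a)) := D.ar_of ox (hr_sar hx au.1 xa)
    have a4 : D.gx.ar (D.F (S.rho w x)) (D.F (S.rho w b)) := D.ar_of ox (hr_sar hx bu.1 xb)
    have a5 : D.gx.ar (D.F (S.rho w a)) (D.F (S.tv w u hu)) := D.ar_of oa (hr_stv hu au)
    have a6 : D.gx.ar (D.F (S.rho w b)) (D.F (S.tv w u hu)) := D.ar_of ob (hr_stv hu bu)
    have hne : D.F (S.rho w a) ≠ D.F (S.rho w b) := by
      intro e
      rw [D.F_not oa, D.F_not ob] at e
      exact hab (rho_inj au.1 (congrArg Subtype.val e))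
    refine (D.min hm).hub a3 a4 hne a5 a6 a1 a2 (D.long hm h5) (Or.inl ?_)
    have := D.pass hm h5 hpass
    rwa [h.FE_F hs, h.FE_F hs'] at this
  · exact hp _ _ hrp

/-- a virtual pass -/
theorem virt {r : ℕ} {B : ℕ} (hB : ∀ v, S.K.rk v ≤ B) : ∀ (N : ℕ) {k z a b y : V},
    B - S.K.rk k < N → S.J z = {w} → S.J k = {w} → Tp k → S.P.Top k a b y → S.K.ar k z →
    r ≤ S.K.rk k → ∃ s s', S.RP w s s' ∧ S.FW Tp pt w r s k ∧ S.FW Tp pt w r s' z := by
  intro N
  induction N with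
  | zero =>
    intro k z a b y hN
    exact absurd hN (Nat.not_lt_zero _)
  | succ N ih =>
    intro k z a b y hN hz hk hT ht kz hr
    have r2 := S.K.ar_rk _ _ kz
    -- a corner at the pole `z`
    obtain ⟨m, hm⟩ : ∃ m, S.HrL k z m := by
      have hab := h.sq.nab _ _ _ _ ht
      rcases out_two ht.2.1 ht.2.2 hab kz with rfl | rfl
      · obtain ⟨x, y', c1, c2, -⟩ := chain_change (r := S.HrL k) (p := fun t => t = z)
          (fun _ _ k => k.symm) (h.os _ _ _ _ hT ht) rfl (fun e => hab e.symm)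
        exact ⟨y', c2 ▸ c1⟩
      · obtain ⟨x, y', c1, c2, -⟩ := chain_change (r := S.HrL k) (p := fun t => t = z)
          (fun _ _ k => k.symm) ((h.os _ _ _ _ hT ht).symm _ _) rfl hab
        exact ⟨y', c2 ▸ c1⟩
    rcases hm with ⟨y1, y2, hq⟩ | ⟨q, hq', hor⟩
    · exact ⟨k, z, rp_of_J hk hz hq.symm.rot, Relation.EqvGen.refl _, Relation.EqvGen.refl _⟩
    · have nk : S.K.ar m k := by
        rcases hor with e | e
        · have := S.K.ar_rk _ _ e
          omega
        · exact e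
      have hq : Q4 S.P m k z q := hq'.symm
      have r1 := S.K.ar_rk _ _ nk
      have wn : w ∈ S.J m := mem_of_J hk hq.E1.symm
      have wq : w ∈ S.J q := mem_of_J hz hq.E3
      have wk : w ∈ S.J k := by rw [hk]; exact rfl
      have wz : w ∈ S.J z := by rw [hz]; exact rfl
      rcases h.sq.q4 _ _ _ _ hq with ⟨t1, t2⟩ | ⟨t1, t2, t3⟩ | ⟨t1, t, t3⟩ | ⟨t1, t, t3⟩ |
        ⟨t1, t, t3⟩ | ⟨t1, t, t3⟩
      · have := h.sq.twr _ _ t1
        omega
      · have := S.K.ar_rk _ _ t2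
        omega
      · -- top `m`, partner `z`
        have hJn : S.J m = {w} := J_hub t.2.1 t.2.2 (h.sq.nab _ _ _ _ t) wn wq wk
        have hl : S.LTw Tp pt w r m z := ⟨t1, by omega, t3, q, k, t, wn, wq, wk, wz⟩
        have hn := hB m
        obtain ⟨s, s', c1, c2, c3⟩ := ih (k := m) (z := k) (by omega) hk hJn t1 t nk (by omega)
        exact ⟨s', s, c1.symm, c3, c2.trans _ _ _ (Relation.EqvGen.rel _ _ hl)⟩
      · have := S.K.ar_rk _ _ t.2.1
        omega
      · have := S.K.ar_rk _ _ t.2.1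
        omega
      · -- top `q`, partner `k`
        have hJq : S.J q = {w} := J_hub t.2.1 t.2.2 (h.sq.nab _ _ _ _ t) wq wz wn
        have r3 := S.K.ar_rk _ _ t.2.2
        have hl : S.LTw Tp pt w r q k := ⟨t1, by omega, t3, z, m, t, wq, wz, wn, wk⟩
        have hn := hB q
        obtain ⟨s, s', c1, c2, c3⟩ := ih (k := q) (z := z) (by omega) hz hJq t1 t t.2.1
          (by omega)
        exact ⟨s, s', c1, c2.trans _ _ _ (Relation.EqvGen.rel _ _ hl), c3⟩

/-- THE CORNERS AT THE VERTICES WHICH FOLD TO THE HUB -/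
theorem main {x a b : V} {u : S.X} (hu : S.D.G.Adj w u) (hx : w ∈ S.J x) (xa : S.K.ar x a)
    (xb : S.K.ar x b) (hab : a ≠ b) (au : S.Cs w u a) (bu : S.Cs w u b) {B : ℕ}
    (hB : ∀ v, S.K.rk v ≤ B) : ∀ (N : ℕ) {z : V}, B - S.K.rk z < N → S.J z = {w} →
    S.FW Tp pt w (S.K.rk x) z x → S.K.rk x ≤ S.K.rk z → ∀ {k m z0 : V}, S.Cs w u k →
    S.K.ar k z0 → S.J z0 = {w} → S.FW Tp pt w (S.K.rk x) z0 x → S.K.rk x ≤ S.K.rk z0 →
    ¬ S.Cs w u m → S.HrL z k m → False := by
  intro N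
  induction N with
  | zero =>
    intro z hN
    exact absurd hN (Nat.not_lt_zero _)
  | succ N ih =>
    intro z hN hz hzx hrz k m z0 hk kz0 hz0 hz0x hrz0 hm hlr
    have wz : w ∈ S.J z := by rw [hz]; exact rfl
    have wz0 : w ∈ S.J z0 := by rw [hz0]; exact rfl
    obtain ⟨ex1, ex2⟩ := exits_page hu hk kz0 wz0
    have wm : w ∈ S.J m := mem_of_J hz hlr.symm.E.symm
    rcases hlr with ⟨y, y', hq⟩ | ⟨v, hq, hor⟩
    · let c5 : Fin 5 → V := ![k, z, m, y, y']
      have hv : ∀ j, S.K.E (c5 j) (c5 (j + 1)) := by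
        intro j
        fin_cases j
        · exact hq.E1
        · exact hq.E2
        · exact hq.E3
        · exact hq.E4
        · exact hq.E5
      obtain ⟨c, hcen⟩ := S.cen hv
      by_cases hcw : c = w
      · subst hcw
        exact h.hub_contr hu hx xa xb hab au bu hk kz0 wz0 hz0x (Relation.EqvGen.refl _) hzx
          ⟨m, y, y', hq, hcen⟩
      · have hcz : c ∉ S.J z := by
          rw [hz]
          exact hcw
        have hck : c ∈ S.J k := (hcen 0).resolve_right hcz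
        have hcm : c ∈ S.J m := (hcen 1).resolve_left hcz
        obtain ⟨u', hu', e⟩ := exists_next S.D.tree (show w ≠ c from fun k => hcw k.symm)
        have hcb : c ∈ bey S.D.G w u' := by
          show S.D.G.dist c w = S.D.G.dist c u' + 1
          rw [SimpleGraph.dist_comm, e, SimpleGraph.dist_comm]
        have hku' : S.Cs w u' k :=
          conv_cr S.D.tree (S.js.conv k) hu' hk.1 hck (bey_self hu'.symm) hcb
        have huu : u' = u := ex2 u' hu' hku'.2
        subst huu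
        exact hm (conv_cr S.D.tree (S.js.conv m) hu' wm hcm (bey_self hu'.symm) hcb)
    · have wv : w ∈ S.J v := by
        by_contra hv
        have h1 := S.dir_cross (Or.symm hq.E4) hk.1 hv
        have h2 := S.dir_cross hq.E3 wm hv
        have h3 := ex2 _ (S.dir_adj hv) h1
        rw [h3] at h2
        exact hm ⟨wm, h2⟩
      have noz : S.K.ar z k → S.K.ar z m → False := by
        intro e1 e2
        have r1 := S.K.ar_rk _ _ e1
        have r2 := S.K.ar_rk _ _ e2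
        rcases hor with e | e
        · have := S.K.ar_rk _ _ e
          omega
        · have := S.K.ar_rk _ _ e
          omega
      rcases h.sq.q4 _ _ _ _ hq with ⟨t1, t2⟩ | ⟨t1, t2, t3⟩ | ⟨t1, t, t3⟩ | ⟨t1, t, t3⟩ |
        ⟨t1, t, t3⟩ | ⟨t1, t, t3⟩
      · exact hm (h.twJ _ _ t1 u hu hk)
      · exact noz t2 t3
      · exact hub_not_cs t.2.1 t.2.2 (h.sq.nab _ _ _ _ t) hk.1 wv wz hu hk
      · exact noz t.2.1 t.2.2
      · -- top `m`, partner `k`
        have hJm : S.J m = {w} := J_hub t.2.1 t.2.2 (h.sq.nab _ _ _ _ t) wm wz wv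
        have r1 := S.K.ar_rk _ _ t.2.1
        obtain ⟨s, s', c1, c2, c3⟩ := h.virt (r := S.K.rk x) hB (B - S.K.rk m + 1)
          (Nat.lt_succ_self _) hz hJm t1 t t.2.1 (by omega)
        have hl : S.LTw Tp pt w (S.K.rk x) m k :=
          ⟨t1, by omega, t3, z, v, t, wm, wz, wv, hk.1⟩
        exact h.hub_contr hu hx xa xb hab au bu hk kz0 wz0 hz0x
          (c2.trans _ _ _ (Relation.EqvGen.rel _ _ hl)) (c3.trans _ _ _ hzx) c1
      · -- top `v`, partner `z`
        have r1 := S.K.ar_rk _ _ t.2.1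
        have r2 := S.K.ar_rk _ _ t.2.2
        have r3 := S.K.ar_rk _ _ kz0
        have hJv : S.J v = {w} := J_hub t.2.1 t.2.2 (h.sq.nab _ _ _ _ t) wv wm hk.1
        have r4 := h.sq.lt _ t1
        rw [t3] at r4
        have hl : S.LTw Tp pt w (S.K.rk x) v z :=
          ⟨t1, by omega, t3, m, k, t, wv, wm, hk.1, wz⟩
        have hvx : S.FW Tp pt w (S.K.rk x) v x := (Relation.EqvGen.rel _ _ hl).trans _ _ _ hzx
        have hBv := hB v
        obtain ⟨κ, κ', e1, e2, e3⟩ := chain_change (r := S.HrL v) (p := fun z => S.Cs w u z)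
          (fun _ _ k => k.symm) ((h.os _ _ _ _ t1 t).symm _ _) hk hm
        rcases e1.E with e | e
        · exact ih (z := v) (by omega) hJv hvx (by omega) e2 e hJv hvx (by omega) e3 e1
        · have hκ : κ = k := by
            rcases out_two t.2.1 t.2.2 (h.sq.nab _ _ _ _ t) e with k | k
            · rw [k] at e2
              exact absurd e2 hm
            · exact k
          rw [hκ] at e1 e2
          exact ih (z := v) (by omega) hJv hvx (by omega) e2 kz0 hz0 hz0x hrz0 e3 e1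

/-- CLOSEDNESS: the poles `a`, `b` of `x` and the page `n` cross `w u`; then every cell with a corner
`n x m` has `m` crossing `w u` -/
theorem closed {x a b n m : V} {u : S.X} (hu : S.D.G.Adj w u) (hx : w ∈ S.J x) (xa : S.K.ar x a)
    (xb : S.K.ar x b) (hab : a ≠ b) (au : S.Cs w u a) (bu : S.Cs w u b) (nx : S.K.ar n x)
    (nu : S.Cs w u n) (hc4 : (∃ y z, Qn S.P n x m y z) ∨ ∃ v, Q4 S.P n x m v) : S.Cs w u m := by
  obtain ⟨B, hB⟩ := S.K.rk_bdd
  have hJ := J_hub xa xb hab hx au.1 bu.1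
  by_contra hm
  refine h.main hu hx xa xb hab au bu hB (B - S.K.rk x + 1) (z := x) (Nat.lt_succ_self _) hJ
    (Relation.EqvGen.refl _) le_rfl nu nx hJ (Relation.EqvGen.refl _) le_rfl hm ?_
  rcases hc4 with h1 | ⟨v, h1⟩
  · exact Or.inl h1
  · exact Or.inr ⟨v, h1, Or.inl nx⟩

/-- closedness, for the pages -/
theorem clo {x : V} {u : S.X} (hu : S.D.G.Adj w u) (hJ : S.J x = {w})
    (h2 : ∃ a b, a ≠ b ∧ S.K.ar x a ∧ S.K.ar x b) (hp : ∀ c, S.K.ar x c → u ∈ S.J c) :
    S.Clo x u := by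
  obtain ⟨a, b, hab, xa, xb⟩ := h2
  intro n m hcor hn hm' ht
  have hx : w ∈ S.J x := by rw [hJ]; rfl
  exact (h.closed hu hx xa xb hab ⟨mem_of_J hJ (Or.inl xa), hp a xa⟩
    ⟨mem_of_J hJ (Or.inl xb), hp b xb⟩ hn ⟨mem_of_J hJ (Or.inr hn), ht⟩ (corC hcor)).2

end ClW

end SyQ

end Pool.Agent.DI
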