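import Pool.Agent.DI.HrF

/-!
# DI/HrG: the place of a part, zero strands included

`h : S.ClW hc w tw Tp pt` (DI/HrF), `J x = {w}`, `x` has the poles `a`, `b`, which are joined at `x` by
corners which are not between two poles. If no page of `x` crosses one of the edges at `w` which `a`
and `b` cross, and no pentagon at a direct corner of `x` is centred beyond them, then

* `ClW.no_int`: `a` and `b` do not cross two edges at `w` (`w` is not an interior point of `J a ∩ J b`);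
* `ClW.no_end`: `a`, `b` do not cross an edge at `w` with `a → o`, `b → o`, `o` over `w`;
* `ClW.no_gam`: the same for `a → o → b`.
-/

namespace Pool.Agent.DI

open MulAction
open Pool.Agent.SAF (InC orbs FinOrb oc Decomp SAn SA Conv hull dist_edge FinOrb_iff exists_next)
open Pool.Agent.BT (PX PQ JS bey exits lz lz_self lz_ne lz_symm x_next_unique)
open Pool.Agent.BT.TA

namespace SyQ

variable {H V : Type} [Group H] [MulAction H V] {S : SyQ H V}

namespace ClW

variable {hc : S.Conn} {w : S.X} {tw : V → V → Prop} {Tp : V → Prop} {pt : V → V}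
  (h : S.ClW hc w tw Tp pt)
include h

/-- THE CORNERS WHICH LEAVE THE SET OF THE VERTICES WHICH CROSS AN EDGE OF `U` -/
theorem leave {x a b : V} (hJ : S.J x = {w}) (xa : S.K.ar x a) (xb : S.K.ar x b) (hab : a ≠ b)
    {U : S.X → Prop} (hU : ∀ t, U t → S.D.G.Adj w t ∧ S.Cs w t a ∧ S.Cs w t b)
    (aU : ∀ t, S.D.G.Adj w t → t ∈ S.J a → U t)
    (hcon : ∀ s s', S.FW Tp pt w (S.K.rk x) s a → S.FW Tp pt w (S.K.rk x) s' x → ¬ S.RP w s s')
    {B : ℕ} (hB : ∀ v, S.K.rk v ≤ B) : ∀ (N : ℕ) {z : V}, B - S.K.rk z < N → S.J z = {w} →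
    S.FW Tp pt w (S.K.rk x) z x → S.K.rk x ≤ S.K.rk z → ∀ {k m : V},
    (w ∈ S.J k ∧ ∃ t, U t ∧ t ∈ S.J k) →
    (k = a ∨ ∃ z0, S.K.ar k z0 ∧ S.J z0 = {w} ∧ S.FW Tp pt w (S.K.rk x) z0 x ∧
      S.K.rk x ≤ S.K.rk z0) →
    ¬ (w ∈ S.J m ∧ ∃ t, U t ∧ t ∈ S.J m) → S.HrL z k m → False := by
  have hx : w ∈ S.J x := by rw [hJ]; exact rfl
  intro N
  induction N with
  | zero =>
    intro z hN
    exact absurd hN (Nat.not_lt_zero _)
  | succ N ih =>
    intro z hN hz hzx hrz k m hk hor0 hm hlr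
    have wz : w ∈ S.J z := by rw [hz]; exact rfl
    have wm : w ∈ S.J m := mem_of_J hz hlr.symm.E.symm
    obtain ⟨wk, t0, ut0, ht0⟩ := hk
    obtain ⟨adj0, ca0, cb0⟩ := hU t0 ut0
    have hk0 : S.Cs w t0 k := ⟨wk, ht0⟩
    have exU : ∀ u', S.D.G.Adj w u' → u' ∈ S.J k → U u' := by
      rcases hor0 with rfl | ⟨z0, kz0, hz0, -, -⟩
      · exact aU
      · intro u' hu' hmem
        have wz0 : w ∈ S.J z0 := by rw [hz0]; exact rfl
        rw [(exits_page adj0 hk0 kz0 wz0).2 u' hu' hmem]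
        exact ut0
    have noRP : ∀ s s', S.FW Tp pt w (S.K.rk x) s k → S.FW Tp pt w (S.K.rk x) s' x →
        ¬ S.RP w s s' := by
      rcases hor0 with rfl | ⟨z0, kz0, hz0, hz0x, -⟩
      · exact hcon
      · intro s s' h1 h2
        have wz0 : w ∈ S.J z0 := by rw [hz0]; exact rfl
        exact h.hub_contr adj0 hx xa xb hab ca0 cb0 hk0 kz0 wz0 hz0x h1 h2
    have toQ : ∀ {t : S.X} {z : V}, U t → S.Cs w t z → w ∈ S.J z ∧ ∃ t, U t ∧ t ∈ S.J z :=
      fun ut c => ⟨c.1, _, ut, c.2⟩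
    rcases hlr with ⟨y, y', hq⟩ | ⟨v, hq, hor⟩
    · let c5 : Fin 5 → V := ![k, z, m, y, y']
      have hv : ∀ j, S.K.E (c5 j) (c5 (j + 1)) := by
        intro j
        fin_cases j
        · exact hq.E1
        · exact hq.E2
        · exact hq.E3
        · exact hq.E4
        · exact hq.E5
      obtain ⟨c, hcen⟩ := S.cen hv
      by_cases hcw : c = w
      · subst hcw
        exact noRP _ _ (Relation.EqvGen.refl _) hzx ⟨m, y, y', hq, hcen⟩
      · have hcz : c ∉ S.J z := by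
          rw [hz]
          exact hcw
        have hck : c ∈ S.J k := (hcen 0).resolve_right hcz
        have hcm : c ∈ S.J m := (hcen 1).resolve_left hcz
        obtain ⟨u', hu', e⟩ := exists_next S.D.tree (show w ≠ c from fun k => hcw k.symm)
        have hcb : c ∈ bey S.D.G w u' := by
          show S.D.G.dist c w = S.D.G.dist c u' + 1
          rw [SimpleGraph.dist_comm, e, SimpleGraph.dist_comm]
        have hku' : S.Cs w u' k :=
          conv_cr S.D.tree (S.js.conv k) hu' wk hck (bey_self hu'.symm) hcb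
        have hmu' : S.Cs w u' m :=
          conv_cr S.D.tree (S.js.conv m) hu' wm hcm (bey_self hu'.symm) hcb
        exact hm (toQ (exU u' hu' hku'.2) hmu')
    · have wv : w ∈ S.J v := by
        by_contra hv
        have h1 := S.dir_cross (Or.symm hq.E4) wk hv
        have h2 := S.dir_cross hq.E3 wm hv
        exact hm ⟨wm, _, exU _ (S.dir_adj hv) h1, h2⟩
      have noz : S.K.ar z k → S.K.ar z m → False := by
        intro e1 e2
        have r1 := S.K.ar_rk _ _ e1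
        have r2 := S.K.ar_rk _ _ e2
        rcases hor with e | e
        · have := S.K.ar_rk _ _ e
          omega
        · have := S.K.ar_rk _ _ e
          omega
      rcases h.sq.q4 _ _ _ _ hq with ⟨t1, t2⟩ | ⟨t1, t2, t3⟩ | ⟨t1, t, t3⟩ | ⟨t1, t, t3⟩ |
        ⟨t1, t, t3⟩ | ⟨t1, t, t3⟩
      · exact hm (toQ ut0 (h.twJ _ _ t1 t0 adj0 hk0))
      · exact noz t2 t3
      · exact hub_not_cs t.2.1 t.2.2 (h.sq.nab _ _ _ _ t) wk wv wz adj0 hk0
      · exact noz t.2.1 t.2.2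
      · -- top `m`, partner `k`
        have hJm : S.J m = {w} := J_hub t.2.1 t.2.2 (h.sq.nab _ _ _ _ t) wm wz wv
        have r1 := S.K.ar_rk _ _ t.2.1
        obtain ⟨s, s', c1, c2, c3⟩ := h.virt (r := S.K.rk x) hB (B - S.K.rk m + 1)
          (Nat.lt_succ_self _) hz hJm t1 t t.2.1 (by omega)
        have hl : S.LTw Tp pt w (S.K.rk x) m k :=
          ⟨t1, by omega, t3, z, v, t, wm, wz, wv, wk⟩
        exact noRP _ _ (c2.trans _ _ _ (Relation.EqvGen.rel _ _ hl)) (c3.trans _ _ _ hzx) c1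
      · -- top `v`, partner `z`
        have r1 := S.K.ar_rk _ _ t.2.1
        have r2 := S.K.ar_rk _ _ t.2.2
        have hJv : S.J v = {w} := J_hub t.2.1 t.2.2 (h.sq.nab _ _ _ _ t) wv wm wk
        have r4 := h.sq.lt _ t1
        rw [t3] at r4
        have hl : S.LTw Tp pt w (S.K.rk x) v z :=
          ⟨t1, by omega, t3, m, k, t, wv, wm, wk, wz⟩
        have hvx : S.FW Tp pt w (S.K.rk x) v x := (Relation.EqvGen.rel _ _ hl).trans _ _ _ hzx
        have hBv := hB v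
        obtain ⟨κ, κ', e1, e2, e3⟩ := chain_change (r := S.HrL v)
          (p := fun z => w ∈ S.J z ∧ ∃ t, U t ∧ t ∈ S.J z) (fun _ _ k => k.symm)
          ((h.os _ _ _ _ t1 t).symm _ _) ⟨wk, t0, ut0, ht0⟩ hm
        rcases e1.E with e | e
        · exact ih (z := v) (by omega) hJv hvx (by omega) e2
            (Or.inr ⟨v, e, hJv, hvx, by omega⟩) e3 e1
        · have hκ : κ = k := by
            rcases out_two t.2.1 t.2.2 (h.sq.nab _ _ _ _ t) e with k | k
            · rw [k] at e2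
              exact absurd e2 hm
            · exact k
          rw [hκ] at e1 e2
          exact ih (z := v) (by omega) hJv hvx (by omega) e2 hor0 e3 e1

/-- a part has a page or a direct corner which crosses -/
theorem stuck {x a b : V} (hJ : S.J x = {w}) (xa : S.K.ar x a) (xb : S.K.ar x b) (hab : a ≠ b)
    (hos : Relation.EqvGen (S.HrL x) a b)
    {U : S.X → Prop} (hU : ∀ t, U t → S.D.G.Adj w t ∧ S.Cs w t a ∧ S.Cs w t b) {t0 : S.X}
    (ut0 : U t0) (aU : ∀ t, S.D.G.Adj w t → t ∈ S.J a → U t)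
    (hcon : ∀ s s', S.FW Tp pt w (S.K.rk x) s a → S.FW Tp pt w (S.K.rk x) s' x → ¬ S.RP w s s')
    (hpg : ∀ n, S.K.ar n x → ∀ t, U t → t ∉ S.J n)
    (hdr : ∀ y z c, Qn S.P a x b y z → S.IsC ![a, x, b, y, z] c → ∀ t, U t →
      c ∉ bey S.D.G w t) : False := by
  obtain ⟨B, hB⟩ := S.K.rk_bdd
  have hx : w ∈ S.J x := by rw [hJ]; exact rfl
  obtain ⟨c1, m, e1, e2, e3⟩ := chain_change (r := S.HrL x) (p := fun t => t = a)
    (fun _ _ k => k.symm) hos rfl (fun e => hab e.symm)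
  have e2 : c1 = a := e2
  have e3 : m ≠ a := e3
  rw [e2] at e1
  rcases e1.symm.E with hm | hm
  · refine h.leave hJ xa xb hab hU aU hcon hB (B - S.K.rk x + 1) (z := x) (Nat.lt_succ_self _)
      hJ (Relation.EqvGen.refl _) le_rfl (k := a) (m := m)
      ⟨(hU t0 ut0).2.1.1, t0, ut0, (hU t0 ut0).2.1.2⟩ (Or.inl rfl) ?_ e1
    rintro ⟨-, t, ut, ht⟩
    exact hpg m hm t ut ht
  · have hmb : m = b := by
      rcases out_two xa xb hab hm with k | k
      · exact absurd k e3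
      · exact k
    rw [hmb] at e1
    rcases e1 with ⟨y, z, hq⟩ | ⟨v, hq, hor⟩
    · let c5 : Fin 5 → V := ![a, x, b, y, z]
      have hv : ∀ j, S.K.E (c5 j) (c5 (j + 1)) := by
        intro j
        fin_cases j
        · exact hq.E1
        · exact hq.E2
        · exact hq.E3
        · exact hq.E4
        · exact hq.E5
      obtain ⟨c, hcen⟩ := S.cen hv
      by_cases hcw : c = w
      · subst hcw
        exact hcon _ _ (Relation.EqvGen.refl _) (Relation.EqvGen.refl _) ⟨b, y, z, hq, hcen⟩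
      · have hcx : c ∉ S.J x := by
          rw [hJ]
          exact hcw
        have hca : c ∈ S.J a := (hcen 0).resolve_right hcx
        obtain ⟨u', hu', e⟩ := exists_next S.D.tree (show w ≠ c from fun k => hcw k.symm)
        have hcb : c ∈ bey S.D.G w u' := by
          show S.D.G.dist c w = S.D.G.dist c u' + 1
          rw [SimpleGraph.dist_comm, e, SimpleGraph.dist_comm]
        have hau' : S.Cs w u' a :=
          conv_cr S.D.tree (S.js.conv a) hu' (hU t0 ut0).2.1.1 hca (bey_self hu'.symm) hcb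
        exact hdr y z c hq hcen u' (aU u' hu' hau'.2) hcb
    · have r1 := S.K.ar_rk _ _ xa
      have r2 := S.K.ar_rk _ _ xb
      rcases hor with k | k
      · have := S.K.ar_rk _ _ k
        omega
      · have := S.K.ar_rk _ _ k
        omega

/-- parallel poles after the fold of the tops -/
theorem par_contr {x a b : V} (hx : w ∈ S.J x) (xa : S.K.ar x a) (xb : S.K.ar x b) (hab : a ≠ b)
    {u : S.X} (hu : S.D.G.Adj w u) (au : S.Cs w u a) (bu : S.Cs w u b) {s2 : S.SV w}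
    (a2 : (S.k0 hc w).ar (S.rho w a) s2) (b2 : (S.k0 hc w).ar (S.rho w b) s2)
    (hne : S.tv w u hu ≠ s2) (ho : ¬ (h.locF (S.K.rk x)).O s2) {s s' : V}
    (hs : S.FW Tp pt w (S.K.rk x) s a) (hs' : S.FW Tp pt w (S.K.rk x) s' x) :
    ¬ S.RP w s s' := by
  intro hrp
  rcases h.hp with hm | hp
  · obtain ⟨i, h5, hpass⟩ := hrp.pass hc
    set D := h.locF (S.K.rk x) with hD
    have ox : ¬ D.O (S.rho w x) := by
      rintro ⟨v, y, hv, e, -, k2, -⟩
      rw [S.rho_near hx] at e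
      have e' : x = v := congrArg Subtype.val (Sum.inl.inj e)
      rw [← e'] at k2
      exact lt_irrefl _ k2
    have ot : ¬ D.O (S.tv w u hu) := by
      rintro ⟨v, y, hv, e, -⟩
      cases e
    have oa : ¬ D.O (S.rho w a) := h.not_O_of_cs hu au
    have ob : ¬ D.O (S.rho w b) := h.not_O_of_cs hu bu
    have a3 : D.gx.ar (D.F (S.rho w x)) (D.F (S.rho w a)) := D.ar_of ox (hr_sar hx au.1 xa)
    have a4 : D.gx.ar (D.F (S.rho w x)) (D.F (S.rho w b)) := D.ar_of ox (hr_sar hx bu.1 xb)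
    have a5 : D.gx.ar (D.F (S.rho w a)) (D.F (S.tv w u hu)) := D.ar_of oa (hr_stv hu au)
    have a6 : D.gx.ar (D.F (S.rho w b)) (D.F (S.tv w u hu)) := D.ar_of ob (hr_stv hu bu)
    have a7 : D.gx.ar (D.F (S.rho w a)) (D.F s2) := D.ar_of oa a2
    have a8 : D.gx.ar (D.F (S.rho w b)) (D.F s2) := D.ar_of ob b2
    have hF : D.F (S.tv w u hu) ≠ D.F s2 := by
      intro e
      rw [D.F_not ot, D.F_not ho] at e
      exact hne (congrArg Subtype.val e)
    have hFab : D.F (S.rho w a) ≠ D.F (S.rho w b) := by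
      intro e
      rw [D.F_not oa, D.F_not ob] at e
      exact hab (rho_inj au.1 (congrArg Subtype.val e))
    have k1 : ∀ c, D.gx.ar (D.F (S.rho w a)) c ↔ c = D.F (S.tv w u hu) ∨ c = D.F s2 :=
      fun c => ⟨fun k => out_two a5 a7 hF k, by
        rintro (rfl | rfl)
        · exact a5
        · exact a7⟩
    have k2 : ∀ c, D.gx.ar (D.F (S.rho w b)) c ↔ c = D.F (S.tv w u hu) ∨ c = D.F s2 :=
      fun c => ⟨fun k => out_two a6 a8 hF k, by
        rintro (rfl | rfl)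
        · exact a6
        · exact a8⟩
    have hI : InC ↥(stabilizer ↥(stabilizer H w) (D.F (S.tv w u hu)) ⊓
        stabilizer ↥(stabilizer H w) (D.F s2)) :=
      SAG.InC.mono inf_le_left (D.gx.stab _)
    have hp := D.pass hm h5 hpass
    rw [h.FE_F hs, h.FE_F hs'] at hp
    exact (D.min hm).par k1 k2 hI a3 a4 hFab (D.long hm h5) hp.symm
  · exact hp _ _ hrp

/-- the gamma form after the fold of the tops -/
theorem gam_contr {x a b o : V} (hx : w ∈ S.J x) (xa : S.K.ar x a) (xb : S.K.ar x b)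
    {u : S.X} (hu : S.D.G.Adj w u) (au : S.Cs w u a) (bu : S.Cs w u b) (ho : w ∈ S.J o)
    (ao : S.K.ar a o) (ob : S.K.ar o b) {s s' : V}
    (hs : S.FW Tp pt w (S.K.rk x) s a) (hs' : S.FW Tp pt w (S.K.rk x) s' x) :
    ¬ S.RP w s s' := by
  intro hrp
  rcases h.hp with hm | hp
  · obtain ⟨i, h5, hpass⟩ := hrp.pass hc
    set D := h.locF (S.K.rk x) with hD
    have r1 := S.K.ar_rk _ _ xa
    have r2 := S.K.ar_rk _ _ ao
    have lo : ∀ {v : V}, w ∈ S.J v → S.K.rk v ≤ S.K.rk x → ¬ D.O (S.rho w v) := by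
      rintro v0 h0 hr ⟨v, y, hv, e, -, k2, -⟩
      rw [S.rho_near h0] at e
      have e' : v0 = v := congrArg Subtype.val (Sum.inl.inj e)
      rw [← e'] at k2
      omega
    have ox := lo hx le_rfl
    have oo := lo ho (by omega)
    have oa : ¬ D.O (S.rho w a) := h.not_O_of_cs hu au
    have ob' : ¬ D.O (S.rho w b) := h.not_O_of_cs hu bu
    have a3 : D.gx.ar (D.F (S.rho w x)) (D.F (S.rho w a)) := D.ar_of ox (hr_sar hx au.1 xa)
    have a4 : D.gx.ar (D.F (S.rho w x)) (D.F (S.rho w b)) := D.ar_of ox (hr_sar hx bu.1 xb)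
    have a5 : D.gx.ar (D.F (S.rho w a)) (D.F (S.tv w u hu)) := D.ar_of oa (hr_stv hu au)
    have a6 : D.gx.ar (D.F (S.rho w b)) (D.F (S.tv w u hu)) := D.ar_of ob' (hr_stv hu bu)
    have a7 : D.gx.ar (D.F (S.rho w a)) (D.F (S.rho w o)) := D.ar_of oa (hr_sar au.1 ho ao)
    have a8 : D.gx.ar (D.F (S.rho w o)) (D.F (S.rho w b)) := D.ar_of oo (hr_sar ho bu.1 ob)
    have hp := D.pass hm h5 hpass
    rw [h.FE_F hs, h.FE_F hs'] at hp
    exact (D.min hm).gamma a7 a5 a8 a6 a3 a4 (D.long hm h5) (Or.inl hp.symm)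
  · exact hp _ _ hrp

/-- NOT AN INTERIOR POINT -/
theorem no_int {x a b : V} {u u' : S.X} (hJ : S.J x = {w}) (xa : S.K.ar x a) (xb : S.K.ar x b)
    (hab : a ≠ b) (hos : Relation.EqvGen (S.HrL x) a b) (hu : S.D.G.Adj w u)
    (hu' : S.D.G.Adj w u') (hne : u ≠ u') (au : u ∈ S.J a) (au' : u' ∈ S.J a) (bu : u ∈ S.J b)
    (bu' : u' ∈ S.J b) (hpg : ∀ n, S.K.ar n x → u ∉ S.J n ∧ u' ∉ S.J n)
    (hdr : ∀ y z c, Qn S.P a x b y z → S.IsC ![a, x, b, y, z] c → c ∉ bey S.D.G w u ∧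
      c ∉ bey S.D.G w u') : False := by
  have hx : w ∈ S.J x := by rw [hJ]; exact rfl
  have wa : w ∈ S.J a := mem_of_J hJ (Or.inl xa)
  have wb : w ∈ S.J b := mem_of_J hJ (Or.inl xb)
  refine h.stuck hJ xa xb hab hos (U := fun t => t = u ∨ t = u') ?_ (t0 := u) (Or.inl rfl) ?_ ?_
    ?_ ?_
  · rintro t (rfl | rfl)
    · exact ⟨hu, ⟨wa, au⟩, ⟨wb, bu⟩⟩
    · exact ⟨hu', ⟨wa, au'⟩, ⟨wb, bu'⟩⟩
  · intro t ht hta
    exact r0_two wa ht hu hu' hne hta au au'
  · intro s s' h1 h2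
    refine h.par_contr hx xa xb hab hu ⟨wa, au⟩ ⟨wb, bu⟩ (hr_stv hu' ⟨wa, au'⟩)
      (hr_stv hu' ⟨wb, bu'⟩) (tv_ne hu hu' hne) ?_ h1 h2
    rintro ⟨v, y, hv, e, -⟩
    cases e
  · rintro n hn t (rfl | rfl)
    · exact (hpg n hn).1
    · exact (hpg n hn).2
  · rintro y z c h1 h2 t (rfl | rfl)
    · exact (hdr y z c h1 h2).1
    · exact (hdr y z c h1 h2).2

/-- NOT AT THE END OF THE PARTNER, DIAMOND -/
theorem no_end {x a b o : V} {u : S.X} (hJ : S.J x = {w}) (xa : S.K.ar x a) (xb : S.K.ar x b)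
    (hab : a ≠ b) (hos : Relation.EqvGen (S.HrL x) a b) (hu : S.D.G.Adj w u)
    (au : u ∈ S.J a) (bu : u ∈ S.J b) (ho : w ∈ S.J o) (ao : S.K.ar a o) (bo : S.K.ar b o)
    (hpg : ∀ n, S.K.ar n x → u ∉ S.J n)
    (hdr : ∀ y z c, Qn S.P a x b y z → S.IsC ![a, x, b, y, z] c → c ∉ bey S.D.G w u) :
    False := by
  have hx : w ∈ S.J x := by rw [hJ]; exact rfl
  have wa : w ∈ S.J a := mem_of_J hJ (Or.inl xa)
  have wb : w ∈ S.J b := mem_of_J hJ (Or.inl xb)
  have r1 := S.K.ar_rk _ _ xa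
  have r2 := S.K.ar_rk _ _ ao
  refine h.stuck hJ xa xb hab hos (U := fun t => t = u) ?_ (t0 := u) rfl ?_ ?_ ?_ ?_
  · rintro t rfl
    exact ⟨hu, ⟨wa, au⟩, ⟨wb, bu⟩⟩
  · intro t ht hta
    by_contra hne
    exact exl ao wa ho ht hu hne hta au
  · intro s s' h1 h2
    refine h.par_contr hx xa xb hab hu ⟨wa, au⟩ ⟨wb, bu⟩ (hr_sar wa ho ao) (hr_sar wb ho bo)
      (tv_ne_rho hu ho) ?_ h1 h2
    rintro ⟨v, y, hv, e, -, k2, -⟩
    rw [S.rho_near ho] at e
    have e' : o = v := congrArg Subtype.val (Sum.inl.inj e)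
    rw [← e'] at k2
    omega
  · rintro n hn t rfl
    exact hpg n hn
  · rintro y z c h1 h2 t rfl
    exact hdr y z c h1 h2

/-- NOT AT THE END OF THE PARTNER, GAMMA -/
theorem no_gam {x a b o : V} {u : S.X} (hJ : S.J x = {w}) (xa : S.K.ar x a) (xb : S.K.ar x b)
    (hab : a ≠ b) (hos : Relation.EqvGen (S.HrL x) a b) (hu : S.D.G.Adj w u)
    (au : u ∈ S.J a) (bu : u ∈ S.J b) (ho : w ∈ S.J o) (ao : S.K.ar a o) (ob : S.K.ar o b)
    (hpg : ∀ n, S.K.ar n x → u ∉ S.J n)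
    (hdr : ∀ y z c, Qn S.P a x b y z → S.IsC ![a, x, b, y, z] c → c ∉ bey S.D.G w u) :
    False := by
  have hx : w ∈ S.J x := by rw [hJ]; exact rfl
  have wa : w ∈ S.J a := mem_of_J hJ (Or.inl xa)
  have wb : w ∈ S.J b := mem_of_J hJ (Or.inl xb)
  refine h.stuck hJ xa xb hab hos (U := fun t => t = u) ?_ (t0 := u) rfl ?_ ?_ ?_ ?_
  · rintro t rfl
    exact ⟨hu, ⟨wa, au⟩, ⟨wb, bu⟩⟩
  · intro t ht hta
    by_contra hne
    exact exl ao wa ho ht hu hne hta au
  · intro s s' h1 h2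
    exact h.gam_contr hx xa xb hu ⟨wa, au⟩ ⟨wb, bu⟩ ho ao ob h1 h2
  · rintro n hn t rfl
    exact hpg n hn
  · rintro y z c h1 h2 t rfl
    exact hdr y z c h1 h2

end ClW

end SyQ

end Pool.Agent.DI
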