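import Pool.Agent.DI.QF

/-!
# The hub tree (note 2890, 8.1 and 8.2)

`B n h`: the node `n` is adjacent to the hub `h`; the quotient of this bipartite graph by `J` is a
forest. `HW B k n h`: a walk `n 0, h 0, n 1, ..., h (k-1), n k`.
`block`: a walk which is simple and closed in the quotient has hubs in one orbit, it turns at each node
by the stabiliser. `cut_node`: a walk which avoids the orbit of `ν` and joins two hubs at `ν`.
`exc`: an excursion outside the orbit of a hub returns to the same node. `block_conn`: a walk which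
avoids `ν` between two neighbours of a hub can be replaced by a walk in the block of this hub.
-/

namespace Pool.Agent.DI

open MulAction

section

variable {J N Hb : Type*} [Group J] [MulAction J N] [MulAction J Hb]

/-- the bipartite graph of a relation -/
def bip (B : N → Hb → Prop) : N ⊕ Hb → N ⊕ Hb → Prop
  | Sum.inl n, Sum.inr h => B n h
  | Sum.inr h, Sum.inl n => B n h
  | _, _ => False

variable {B : N → Hb → Prop}

theorem QF.bcut (Q : QF J (bip B)) {n : N} {h : Hb} (b : B n h) :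
    ∃ (f : N → ZMod 2) (g : Hb → ZMod 2), (∀ (j : J) m, f (j • m) = f m) ∧
      (∀ (j : J) k, g (j • k) = g k) ∧ f n ≠ g h ∧
      ∀ m k, B m k → f m ≠ g k → ∃ j : J, m = j • n ∧ k = j • h := by
  obtain ⟨F, F1, F2, F3⟩ := Q.cut (Sum.inl n) (Sum.inr h) b
  refine ⟨fun m => F (Sum.inl m), fun k => F (Sum.inr k), fun j m => F1 j (Sum.inl m),
    fun j k => F1 j (Sum.inr k), F2, fun m k hmk hne => ?_⟩
  obtain ⟨j, ⟨h1, h2⟩ | ⟨h1, h2⟩⟩ := F3 (Sum.inl m) (Sum.inr k) hmk hne
  · exact ⟨j, Sum.inl_injective h1, Sum.inr_injective h2⟩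
  · exact absurd h1 (by
      intro e
      have : (Sum.inl m : N ⊕ Hb) = Sum.inr (j • h) := e
      exact Sum.inl_ne_inr this)

/-- a walk in the bipartite graph -/
def HW (B : N → Hb → Prop) (k : ℕ) (n : ℕ → N) (h : ℕ → Hb) : Prop :=
  ∀ i < k, B (n i) (h i) ∧ B (n (i + 1)) (h i)

theorem HW.const {k : ℕ} {n : ℕ → N} {h : ℕ → Hb} {f : N → ZMod 2} {g : Hb → ZMod 2} {a b : ℕ}
    (hab : a ≤ b) (hb : b ≤ k) (h1 : ∀ i, a ≤ i → i < b → f (n i) = g (h i) ∧ f (n (i + 1)) = g (h i)) :
    f (n a) = f (n b) := by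
  induction b, hab using Nat.le_induction with
  | base => rfl
  | succ b hab ih =>
    rw [ih (by omega) (fun i hi hi' => h1 i hi (by omega)), (h1 b hab (by omega)).1,
      (h1 b hab (by omega)).2]

/-- (8.1) a walk which is simple and closed in the quotient turns at its inner nodes by elements of the
stabiliser of the node -/
theorem QF.block (Q : QF J (bip B)) {k : ℕ} {n : ℕ → N} {h : ℕ → Hb} (hw : HW B k n h)
    (hsim : ∀ i j, i < k → j < k → (∃ g : J, n j = g • n i) → i = j)
    (hcl : ∃ g : J, n k = g • n 0) :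
    ∀ i, i + 1 < k → ∃ g : J, g • n (i + 1) = n (i + 1) ∧ g • h i = h (i + 1) := by
  intro i hi
  by_contra hcon
  push Not at hcon
  obtain ⟨f, g, f1, g1, hne, hcut⟩ := Q.bcut (hw i (by omega)).2
  obtain ⟨c, hc⟩ := hcl
  have e1 : ∀ t, t < k → f (n t) = g (h t) := by
    intro t ht
    by_contra hh
    obtain ⟨j, h1, h2⟩ := hcut _ _ (hw t ht).1 hh
    have : i + 1 = t := hsim _ _ hi ht ⟨j, h1⟩
    subst this
    exact hcon j h1.symm h2.symm
  have e2 : ∀ t, t < k → t ≠ i → f (n (t + 1)) = g (h t) := by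
    intro t ht hti
    by_contra hh
    obtain ⟨j, h1, h2⟩ := hcut _ _ (hw t ht).2 hh
    rcases Nat.lt_or_ge (t + 1) k with h3 | h3
    · have := hsim _ _ hi h3 ⟨j, h1⟩
      omega
    · have h4 : t + 1 = k := by omega
      rw [h4, hc] at h1
      have := hsim _ _ hi (by omega : 0 < k) ⟨c⁻¹ * j, by rw [mul_smul, ← h1, inv_smul_smul]⟩
      omega
  apply hne
  have s1 : f (n (i + 1)) = f (n k) := by
    apply HW.const (h := h) (g := g) (by omega) le_rfl
    intro t h1 h2
    exact ⟨e1 t h2, e2 t h2 (by omega)⟩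
  have s2 : f (n 0) = f (n i) := by
    apply HW.const (h := h) (g := g) (k := k) (by omega) (by omega)
    intro t h1 h2
    exact ⟨e1 t (by omega), e2 t (by omega) (by omega)⟩
  rw [s1, hc, f1, s2, e1 i (by omega)]

/-- (8.1) the same at the base node -/
theorem QF.block_base (Q : QF J (bip B)) {k : ℕ} (hk : 0 < k) {n : ℕ → N} {h : ℕ → Hb}
    (hw : HW B k n h) (hsim : ∀ i j, i < k → j < k → (∃ g : J, n j = g • n i) → i = j)
    (hcl : ∃ g : J, n k = g • n 0) : ∃ g : J, g • n 0 = n k ∧ g • h 0 = h (k - 1) := by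
  by_contra hcon
  push Not at hcon
  have hb : B (n k) (h (k - 1)) := by
    have := (hw (k - 1) (by omega)).2
    rwa [Nat.sub_add_cancel hk] at this
  obtain ⟨f, g, f1, g1, hne, hcut⟩ := Q.bcut hb
  obtain ⟨c, hc⟩ := hcl
  have e1 : ∀ t, t < k → f (n t) = g (h t) := by
    intro t ht
    by_contra hh
    obtain ⟨j, h1, h2⟩ := hcut _ _ (hw t ht).1 hh
    have h3 : 0 = t := hsim _ _ hk ht ⟨j * c, by rw [mul_smul, ← hc]; exact h1⟩
    subst h3
    apply hcon j⁻¹
    · rw [h1, inv_smul_smul]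
    · rw [h2, inv_smul_smul]
  have e2 : ∀ t, t + 1 < k → f (n (t + 1)) = g (h t) := by
    intro t ht
    by_contra hh
    obtain ⟨j, h1, h2⟩ := hcut _ _ (hw t (by omega)).2 hh
    have h3 : 0 = t + 1 := hsim _ _ hk ht ⟨j * c, by rw [mul_smul, ← hc]; exact h1⟩
    omega
  apply hne
  have s2 : f (n 0) = f (n (k - 1)) := by
    apply HW.const (h := h) (g := g) (k := k) (by omega) (by omega)
    intro t h1 h2
    exact ⟨e1 t (by omega), e2 t (by omega)⟩
  rw [hc, f1, s2, e1 (k - 1) (by omega)]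

/-- (8.1) all hubs are in one orbit -/
theorem QF.block_orbit (Q : QF J (bip B)) {k : ℕ} {n : ℕ → N} {h : ℕ → Hb} (hw : HW B k n h)
    (hsim : ∀ i j, i < k → j < k → (∃ g : J, n j = g • n i) → i = j)
    (hcl : ∃ g : J, n k = g • n 0) : ∀ i < k, ∃ g : J, h i = g • h 0 := by
  intro i
  induction i with
  | zero => exact fun _ => ⟨1, (one_smul _ _).symm⟩
  | succ i ih =>
    intro hi
    obtain ⟨g, hg⟩ := ih (by omega)
    obtain ⟨c, -, hc⟩ := Q.block hw hsim hcl i hi
    exact ⟨c * g, by rw [mul_smul, ← hg, hc]⟩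

/-- (8.2) a walk outside the orbit of `ν` between two hubs at `ν` -/
theorem QF.cut_node (Q : QF J (bip B)) {k : ℕ} {n : ℕ → N} {h : ℕ → Hb} (hw : HW B k n h) {ν : N}
    (hν : ∀ i ≤ k, ∀ g : J, n i ≠ g • ν) {a b : Hb} (ha : B ν a) (hb : B ν b) (ha' : B (n 0) a)
    (hb' : B (n k) b) : ∃ g : J, g • ν = ν ∧ g • a = b := by
  obtain ⟨f, g, f1, g1, hne, hcut⟩ := Q.bcut ha
  have e : ∀ i ≤ k, ∀ c, B (n i) c → f (n i) = g c := by
    intro i hi c hc
    by_contra hh
    obtain ⟨j, h1, -⟩ := hcut _ _ hc hh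
    exact hν i hi j h1
  have s : f (n 0) = f (n k) := by
    apply HW.const (h := h) (g := g) (k := k) (by omega) (by omega)
    intro t h1 h2
    exact ⟨e t (by omega) _ (hw t h2).1, e (t + 1) (by omega) _ (hw t h2).2⟩
  have h2 : f ν ≠ g b := by
    rw [← e k le_rfl b hb', ← s, e 0 (by omega) a ha']
    exact hne
  obtain ⟨j, h3, h4⟩ := hcut _ _ hb h2
  exact ⟨j, h3.symm, h4.symm⟩

/-- an excursion outside the orbit of the hub `a` returns to the same node -/
theorem QF.exc (Q : QF J (bip B)) {k : ℕ} {n : ℕ → N} {h : ℕ → Hb} (hw : HW B k n h) {a : Hb}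
    (hout : ∀ i < k, ∀ g : J, h i ≠ g • a) (ha : B (n 0) a) {c : J} (hc : B (n k) (c • a)) :
    ∃ g : J, n k = g • n 0 ∧ c • a = g • a := by
  obtain ⟨f, g, f1, g1, hne, hcut⟩ := Q.bcut ha
  have e : ∀ i < k, ∀ m, B m (h i) → f m = g (h i) := by
    intro i hi m hm
    by_contra hh
    obtain ⟨j, -, h2⟩ := hcut _ _ hm hh
    exact hout i hi j h2
  have s : f (n 0) = f (n k) := by
    apply HW.const (h := h) (g := g) (k := k) (by omega) (by omega)
    intro t h1 h2
    exact ⟨e t h2 _ (hw t h2).1, e t h2 _ (hw t h2).2⟩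
  exact hcut _ _ hc (by rw [← s, g1]; exact hne)

/-- two neighbours of a hub in one orbit are in one orbit of the stabiliser of the hub -/
theorem QF.hub_inj (Q : QF J (bip B)) {n : N} {a : Hb} (ha : B n a) {j : J} (hj : B (j • n) a) :
    ∃ g : J, g • n = j • n ∧ g • a = a := by
  obtain ⟨f, g, f1, g1, hne, hcut⟩ := Q.bcut ha
  obtain ⟨c, h1, h2⟩ := hcut _ _ hj (by rw [f1]; exact hne)
  exact ⟨c, h1.symm, h2.symm⟩

theorem HW.tail {k t : ℕ} {n : ℕ → N} {h : ℕ → Hb} (hw : HW B k n h) (ht : t ≤ k) :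
    HW B (k - t) (fun i => n (i + t)) (fun i => h (i + t)) := by
  intro i hi
  have := hw (i + t) (by omega)
  refine ⟨this.1, ?_⟩
  have e : i + 1 + t = i + t + 1 := by omega
  show B (n (i + 1 + t)) (h (i + t))
  rw [e]
  exact this.2

theorem HW.mono {k k' : ℕ} {n : ℕ → N} {h : ℕ → Hb} (hw : HW B k n h) (hk : k' ≤ k) :
    HW B k' n h := fun i hi => hw i (by omega)

/-- (8.2) a walk outside the orbit of `ν` between two neighbours of (translates of) the hub `a` can be
replaced by edges with hub in the orbit of `a` and translations -/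
theorem QF.block_conn (Q : QF J (bip B)) {Lk : N → N → Hb → Prop}
    (hL : ∀ n m h, Lk n m h → B n h ∧ B m h) (P : N → Prop) {a : Hb} :
    ∀ (k : ℕ) (n : ℕ → N) (h : ℕ → Hb), (∀ i < k, Lk (n i) (n (i + 1)) (h i)) →
      (∀ i ≤ k, P (n i)) → (∃ g : J, B (n 0) (g • a)) → (∃ g : J, B (n k) (g • a)) →
      Relation.EqvGen (fun x y => (∃ g : J, Lk x y (g • a) ∧ P x ∧ P y) ∨ ∃ g : J, y = g • x)
        (n 0) (n k) := by
  classical
  intro k
  induction k using Nat.strong_induction_on with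
  | _ k ih =>
    intro n h hw hP h0 hk
    have hw' : HW B k n h := fun i hi => hL _ _ _ (hw i hi)
    rcases Nat.eq_zero_or_pos k with rfl | hkp
    · exact Relation.EqvGen.refl _
    by_cases hex : ∃ t, t < k ∧ ∃ g : J, h t = g • a
    · let t := Nat.find hex
      obtain ⟨ht, g, hg⟩ := Nat.find_spec hex
      have hmin : ∀ i < t, ∀ g : J, h i ≠ g • a := by
        intro i hi g hg
        have h1 : i < k := lt_trans hi ht
        exact Nat.find_min hex hi ⟨h1, g, hg⟩
      have ht' : t < k := ht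
      -- up to the first edge of the block
      obtain ⟨c0, hc0⟩ := h0
      have hbt : B (n t) ((g * c0⁻¹) • (c0 • a)) := by
        rw [mul_smul, inv_smul_smul, ← hg]
        exact (hw' t ht').1
      obtain ⟨d, hd, -⟩ := Q.exc (hw'.mono (le_of_lt ht')) (a := c0 • a)
        (fun i hi e he => hmin i hi (e * c0) (by rw [mul_smul]; exact he)) hc0 hbt
      have s1 : Relation.EqvGen (fun x y => (∃ g : J, Lk x y (g • a) ∧ P x ∧ P y) ∨
          ∃ g : J, y = g • x) (n 0) (n t) := Relation.EqvGen.rel _ _ (Or.inr ⟨d, hd⟩)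
      have s2 : Relation.EqvGen (fun x y => (∃ g : J, Lk x y (g • a) ∧ P x ∧ P y) ∨
          ∃ g : J, y = g • x) (n t) (n (t + 1)) := by
        refine Relation.EqvGen.rel _ _ (Or.inl ⟨g, ?_, hP _ (le_of_lt ht'), hP _ ht'⟩)
        rw [← hg]
        exact hw t ht'
      have s3 := ih (k - (t + 1)) (by omega) (fun i => n (i + (t + 1))) (fun i => h (i + (t + 1)))
        (fun i hi => by
          have := hw (i + (t + 1)) (by omega)
          have e : i + 1 + (t + 1) = i + (t + 1) + 1 := by omega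
          show Lk (n (i + (t + 1))) (n (i + 1 + (t + 1))) (h (i + (t + 1)))
          rw [e]
          exact this)
        (fun i hi => hP _ (by omega))
        ⟨g, by
          show B (n (0 + (t + 1))) (g • a)
          rw [Nat.zero_add, ← hg]
          exact (hw' t ht').2⟩
        (by
          show ∃ g : J, B (n (k - (t + 1) + (t + 1))) (g • a)
          rw [Nat.sub_add_cancel ht']
          exact hk)
      have s3' : Relation.EqvGen (fun x y => (∃ g : J, Lk x y (g • a) ∧ P x ∧ P y) ∨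
          ∃ g : J, y = g • x) (n (t + 1)) (n k) := by
        have e1 : 0 + (t + 1) = t + 1 := Nat.zero_add _
        have e2 : k - (t + 1) + (t + 1) = k := Nat.sub_add_cancel ht'
        simp only [e1, e2] at s3
        exact s3
      exact (s1.trans _ _ _ s2).trans _ _ _ s3'
    · push Not at hex
      obtain ⟨c0, hc0⟩ := h0
      obtain ⟨c1, hc1⟩ := hk
      have hbt : B (n k) ((c1 * c0⁻¹) • (c0 • a)) := by
        rw [mul_smul, inv_smul_smul]
        exact hc1
      obtain ⟨d, hd, -⟩ := Q.exc hw' (a := c0 • a)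
        (fun i hi e he => hex i hi (e * c0) (by rw [mul_smul]; exact he)) hc0 hbt
      exact Relation.EqvGen.rel _ _ (Or.inr ⟨d, hd⟩)

end

end Pool.Agent.DI
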