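import Pool.Agent.DI.IslA
import Pool.Agent.DI.QCut
import Pool.Agent.DI.QFd
import Pool.Agent.DI.XtB

/-!
# Folded hubs (owner: helper64)

`q` over `w` crosses no edge (a two-pole hub). `S.NearQ w q y`: the pentagons centred at `w` which pass
`q → y` are one orbit of `H_w ∩ H_q ∩ H_y`; `S.NoL w q y`: no local square passes `q - y`. Then the local corners
`(q, y, m)` are one orbit (`leaf`) and `m` is not a translate of `q` under `H_w ∩ H_y` (`nself`).
-/

namespace Pool.Agent.DI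

open MulAction
open Pool.Agent.SAF (InC orbs FinOrb oc Decomp SAn SA Conv hull dist_edge FinOrb_iff exists_next)
open Pool.Agent.BT (PX PQ JS bey exits)
open Pool.Agent.BT.TA

namespace SyQ

variable {H V : Type} [Group H] [MulAction H V] (S : SyQ H V)

/-- the pentagons centred at `w` along the arrow `q → y` are one orbit -/
def NearQ (w : S.X) (q y : V) : Prop := ∀ m z t m' z' t', Qn S.P q y m z t →
  Qn S.P q y m' z' t' → (w ∈ S.J z ∨ w ∈ S.J m ∧ w ∈ S.J t) →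
    (w ∈ S.J z' ∨ w ∈ S.J m' ∧ w ∈ S.J t') →
      ∃ g : H, g • w = w ∧ g • q = q ∧ g • y = y ∧ m' = g • m ∧ z' = g • z ∧ t' = g • t

/-- no local square passes `q - y` -/
def NoL (w : S.X) (q y : V) : Prop := ∀ m z, Q4 S.P q y m z → w ∈ S.J m → w ∈ S.J z → False

/-- `q` is over `w` and crosses nothing there -/
def Nc (w : S.X) (q : V) : Prop := w ∈ S.J q ∧ ∀ u, S.D.G.Adj w u → u ∉ S.J q

variable {S}

theorem Dia.nc {w u : S.X} {q : V} (h : S.Dia w u q) : S.Nc w q :=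
  ⟨h.1, fun _ hu hq => h.not_cs hu hq⟩

/-- a vertex which crosses nothing at `w` is over `w` only -/
theorem Nc.J {w : S.X} {q : V} (h : S.Nc w q) : S.J q = {w} := by
  ext p
  rw [Set.mem_singleton_iff]
  constructor
  · intro hp
    by_contra hne
    obtain ⟨u, hu, e⟩ := exists_next S.D.tree (Ne.symm hne)
    have hb : p ∈ bey S.D.G w u := by
      show S.D.G.dist p w = S.D.G.dist p u + 1
      rw [SimpleGraph.dist_comm, e, SimpleGraph.dist_comm]
    exact h.2 u hu (conv_cr S.D.tree (S.js.conv q) hu h.1 hp (bey_self hu.symm) hb).2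
  · rintro rfl
    exact h.1

/-- a local corner at `y` next to `q` is in a centred pentagon -/
theorem Nc.pent {w : S.X} {q y m : V} (h : S.Nc w q) (hL : S.NoL w q y) (hc : S.K.Cor q y m)
    (hm : w ∈ S.J m) : ∃ z t, Qn S.P q y m z t ∧
      (w ∈ S.J z ∨ w ∈ S.J m ∧ w ∈ S.J t) := by
  rcases corC hc with ⟨z, t, hq⟩ | ⟨r, hq⟩
  · refine ⟨z, t, hq, ?_⟩
    by_contra hn
    have hz : w ∉ S.J z := fun k => hn (Or.inl k)
    have ht : w ∉ S.J t := fun k => hn (Or.inr ⟨hm, k⟩)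
    exact h.2 _ (S.dir_adj ht) (S.dir_cross hq.E5.symm h.1 ht)
  · exfalso
    by_cases hr : w ∈ S.J r
    · exact hL m r hq hm hr
    · exact h.2 _ (S.dir_adj hr) (S.dir_cross hq.E4.symm h.1 hr)

/-- (leaf) -/
theorem NearQ.leaf {w : S.X} {q y m m' : V} (hn : S.NearQ w q y) (h : S.Nc w q)
    (hL : S.NoL w q y) (hc : S.K.Cor q y m) (hc' : S.K.Cor q y m')
    (hm : w ∈ S.J m) (hm' : w ∈ S.J m') :
    ∃ g : H, g • w = w ∧ g • q = q ∧ g • y = y ∧ m' = g • m := by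
  obtain ⟨z, t, h1, h2⟩ := h.pent hL hc hm
  obtain ⟨z', t', h1', h2'⟩ := h.pent hL hc' hm'
  obtain ⟨g, gw, gq, gy, e, -⟩ := hn _ _ _ _ _ _ h1 h1' h2 h2'
  exact ⟨g, gw, gq, gy, e⟩

/-- (nself) -/
theorem NearQ.nself {w : S.X} {q y m : V} (hn : S.NearQ w q y) (h : S.Nc w q)
    (hL : S.NoL w q y) (hc : S.K.Cor q y m) (hm : w ∈ S.J m) {g : H}
    (gw : g • w = w) (gy : g • y = y) (e : m = g • q) : False := by
  have gw' : g⁻¹ • w = w := inv_smul_eq_iff.2 gw.symm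
  have gy' : g⁻¹ • y = y := inv_smul_eq_iff.2 gy.symm
  -- `g⁻¹ q` is also next to `q`
  have hc2 : S.K.Cor q y (g⁻¹ • q) := by
    have h1 := GX.Cor.smul (K := S.K) g⁻¹ hc
    rw [e, inv_smul_smul, gy'] at h1
    exact h1.symm
  have hm2 : w ∈ S.J (g⁻¹ • q) := by
    have h1 := S.js.smul g⁻¹ _ _ h.1
    rwa [gw'] at h1
  obtain ⟨s, sw, sq, sy, e2⟩ := hn.leaf h hL hc hc2 hm hm2
  -- `k = g s` exchanges `q` and `m`
  have kq : (g * s) • q = m := by rw [mul_smul, sq, e]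
  have km : (g * s) • m = q := by rw [mul_smul, ← e2, smul_inv_smul]
  have ky : (g * s) • y = y := by rw [mul_smul, sy, gy]
  have kw : (g * s) • w = w := by rw [mul_smul, sw, gw]
  obtain ⟨z, t, h1, h2⟩ := h.pent hL hc hm
  have h3 := h1.smul (g * s)
  rw [kq, ky, km] at h3
  -- `m y q (k z) (k t)`, i.e. `q y m (k t) (k z)`
  have h4 : Qn S.P q y m ((g * s) • t) ((g * s) • z) := h3.symm.rot.rot.rot.rot.rot
  have h5 : w ∈ S.J ((g * s) • t) ∨ w ∈ S.J m ∧ w ∈ S.J ((g * s) • z) := by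
    have tr : ∀ x, w ∈ S.J x → w ∈ S.J ((g * s) • x) := by
      intro x hx
      have := S.js.smul (g * s) _ _ hx
      rwa [kw] at this
    rcases h2 with h2 | ⟨-, h2⟩
    · exact Or.inr ⟨hm, tr _ h2⟩
    · exact Or.inl (tr _ h2)
  obtain ⟨k, -, -, -, -, e3, e4⟩ := hn _ _ _ _ _ _ h1 h4 h2 h5
  have r1 : S.K.rk z = S.K.rk t := by
    have a1 := congrArg S.K.rk e3
    rw [S.K.rk_smul, S.K.rk_smul] at a1
    exact a1.symm
  rcases h1.E4 with k | k
  · exact absurd (S.K.ar_rk _ _ k) (by rw [r1]; exact lt_irrefl _)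
  · exact absurd (S.K.ar_rk _ _ k) (by rw [r1]; exact lt_irrefl _)

/-- no local square passes `q → y`: `q` is no top and no side of a local square and not the partner of a
local gamma top with the side `y` -/
theorem NoL.of {E : V → Prop} (hs : S.P.SqE E) {w : S.X} {q y : V}
    (hy : w ∈ S.J y) (hqy : S.K.ar q y)
    (ht : ∀ a b p, S.P.Top q a b p → w ∈ S.J a → w ∈ S.J b → w ∈ S.J p → False)
    (hsd : ∀ T b p, S.P.Top T q b p → w ∈ S.J T → w ∈ S.J b → w ∈ S.J p → False)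
    (hg : ∀ T b, S.P.Top T y b q → w ∈ S.J T → w ∈ S.J b → False) : S.NoL w q y := by
  intro m z hQ hm hz
  rcases hs.exists_top hQ with k | k | k | k
  · have h1 := S.K.ar_rk _ _ hqy
    have h2 := S.K.ar_rk _ _ k.2.1
    omega
  · exact hg m z k hm hz
  · exact hsd z m y k.symm' hz hm hy
  · exact ht z y m k hz hy hm

/-! ### in the slice -/

/-- (leaf) in the raw slice -/
theorem NearQ.leaf0 {hc : S.Conn} {w : S.X} {q y : S.NV w} (hn : S.NearQ w q.1 y.1)
    (h : S.Nc w q.1) (hL : S.NoL w q.1 y.1) {m m' : S.NV w}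
    (h1 : (S.k0 hc w).IC (Sum.inl y) (Sum.inl q) (Sum.inl m))
    (h2 : (S.k0 hc w).IC (Sum.inl y) (Sum.inl q) (Sum.inl m')) :
    ∃ g : ↥(stabilizer H w), g • q = q ∧ g • y = y ∧ m' = g • m := by
  obtain ⟨g, gw, gq, gy, e⟩ := hn.leaf h hL (IC_cor h1) (IC_cor h2) m.2 m'.2
  exact ⟨⟨g, gw⟩, Subtype.ext gq, Subtype.ext gy, Subtype.ext e⟩

/-- (nself) in the raw slice -/
theorem NearQ.nself0 {hc : S.Conn} {w : S.X} {q y : S.NV w} (hn : S.NearQ w q.1 y.1)
    (h : S.Nc w q.1) (hL : S.NoL w q.1 y.1) {m : S.NV w}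
    (h1 : (S.k0 hc w).IC (Sum.inl y) (Sum.inl q) (Sum.inl m)) {g : ↥(stabilizer H w)}
    (gy : g • y = y) (e : m = g • q) : False :=
  hn.nself h hL (IC_cor h1) m.2 (g := g.1) g.2 (congrArg Subtype.val gy)
    (congrArg Subtype.val e)

end SyQ

end Pool.Agent.DI
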