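import Pool.Agent.DI.QF

/-!
# Expansion of vertices of a quotient forest (note 2890, Section 8)

`Exp J E T'`: the fibre of `π : T' → T` over `t` is a star with centre `h t`; the edge `x y` of `E` is
attached at `att x y` (over `x`) and `att y x` (over `y`). `Exp.qf`: the expanded graph is a quotient
forest.
-/

namespace Pool.Agent.DI

open MulAction

section

variable {J T T' : Type*} [Group J] [MulAction J T] [MulAction J T']

/-- the data of an expansion -/
structure Exp (J : Type*) {T : Type*} [Group J] [MulAction J T] (E : T → T → Prop) (T' : Type*)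
    [MulAction J T'] where
  π : T' → T
  h : T → T'
  att : T → T → T'
  π_smul : ∀ (j : J) (u : T'), π (j • u) = j • π u
  h_smul : ∀ (j : J) (t : T), h (j • t) = j • h t
  att_smul : ∀ (j : J) (x y : T), E x y → att (j • x) (j • y) = j • att x y
  π_h : ∀ t, π (h t) = t
  π_att : ∀ x y, E x y → π (att x y) = x

variable {E : T → T → Prop}

namespace Exp

variable (X : Exp J E T')

/-- the expanded graph -/
def E' (u v : T') : Prop :=
  (∃ x y, E x y ∧ u = X.att x y ∧ v = X.att y x) ∨
    (u ≠ v ∧ X.π u = X.π v ∧ (u = X.h (X.π u) ∨ v = X.h (X.π v)))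

/-- connected outside the orbit of `t`, up to translations -/
def Co (J : Type*) {T : Type*} [Group J] [MulAction J T] (E : T → T → Prop) (t : T) (x y : T) : Prop :=
  Relation.EqvGen (fun a b => (E a b ∧ (∀ j : J, a ≠ j • t) ∧ ∀ j : J, b ≠ j • t) ∨
    ∃ j : J, b = j • a) x y

theorem Co.cut {t : T} {x y : T} (h : Co J E t x y) {f : T → ZMod 2}
    (f1 : ∀ (j : J) (z : T), f (j • z) = f z) {b : T}
    (f3 : ∀ z w, E z w → f z ≠ f w → ∃ j : J, (z = j • t ∧ w = j • b) ∨ (z = j • b ∧ w = j • t)) :
    f x = f y := by
  induction h with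
  | rel a c h =>
    rcases h with ⟨e, h1, h2⟩ | ⟨j, rfl⟩
    · by_contra hne
      obtain ⟨j, ⟨h3, -⟩ | ⟨-, h3⟩⟩ := f3 a c e hne
      · exact h1 j h3
      · exact h2 j h3
    · exact (f1 j a).symm
  | refl a => rfl
  | symm a b _ ih => exact ih.symm
  | trans a b c _ _ ih1 ih2 => exact ih1.trans ih2

/-- EXPANSION -/
theorem qf (Q : QF J E) : QF J X.E' where
  symm := by
    rintro u v (⟨x, y, e, rfl, rfl⟩ | ⟨h1, h2, h3⟩)
    · exact Or.inl ⟨y, x, Q.symm _ _ e, rfl, rfl⟩
    · exact Or.inr ⟨h1.symm, h2.symm, h3.symm⟩
  smul := by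
    rintro j u v (⟨x, y, e, rfl, rfl⟩ | ⟨h1, h2, h3⟩)
    · exact Or.inl ⟨j • x, j • y, Q.smul j _ _ e, (X.att_smul j _ _ e).symm,
        (X.att_smul j _ _ (Q.symm _ _ e)).symm⟩
    · refine Or.inr ⟨fun h => h1 (smul_left_cancel j h), ?_, ?_⟩
      · rw [X.π_smul, X.π_smul, h2]
      · rw [X.π_smul, X.π_smul, X.h_smul, X.h_smul]
        exact h3.imp (fun h => congrArg _ h) (fun h => congrArg _ h)
  cut := by
    classical
    -- no edge inside an orbit
    have noloop : ∀ (x : T) (j : J), ¬ E x (j • x) := by
      intro x j e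
      obtain ⟨f, f1, f2, -⟩ := Q.cut _ _ e
      exact f2 (f1 j x).symm
    -- the cut of a star edge
    have star : ∀ (t : T) (p : T'), X.π p = t → p ≠ X.h t →
        ∃ f : T' → ZMod 2, (∀ (j : J) (z : T'), f (j • z) = f z) ∧ f (X.h t) ≠ f p ∧
          ∀ z w, X.E' z w → f z ≠ f w →
            ∃ j : J, (z = j • X.h t ∧ w = j • p) ∨ (z = j • p ∧ w = j • X.h t) := by
      intro t p hp hpt
      let Bh : T → Prop := fun z => ∃ x, E t x ∧ X.att t x = p ∧ Co J E t z x
      let P : T' → Prop := fun u => (∃ j : J, u = j • p) ∨ ((∀ j : J, X.π u ≠ j • t) ∧ Bh (X.π u))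
      have Bh_smul : ∀ (j : J) (z : T), Bh z → Bh (j • z) := by
        rintro j z ⟨x, e, h1, h2⟩
        refine ⟨x, e, h1, ?_⟩
        exact Relation.EqvGen.trans _ _ _
          (Relation.EqvGen.symm _ _ (Relation.EqvGen.rel _ _ (Or.inr ⟨j, rfl⟩))) h2
      have P_smul : ∀ (j : J) (u : T'), P u → P (j • u) := by
        rintro j u (⟨k, rfl⟩ | ⟨h1, h2⟩)
        · exact Or.inl ⟨j * k, (mul_smul _ _ _).symm⟩
        · refine Or.inr ⟨fun k hk => ?_, ?_⟩
          · rw [X.π_smul] at hk
            apply h1 (j⁻¹ * k)
            rw [mul_smul, ← hk, inv_smul_smul]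
          · rw [X.π_smul]
            exact Bh_smul j _ h2
      have P_iff : ∀ (j : J) (u : T'), P (j • u) ↔ P u := by
        intro j u
        refine ⟨fun h => ?_, P_smul j u⟩
        have := P_smul j⁻¹ _ h
        rwa [inv_smul_smul] at this
      have Co_edge : ∀ {x y : T}, E x y → (∀ j : J, x ≠ j • t) → (∀ j : J, y ≠ j • t) →
          (Bh x → Bh y) := by
        rintro x y e hx hy ⟨z, e', h1, h2⟩
        exact ⟨z, e', h1, Relation.EqvGen.trans _ _ _
          (Relation.EqvGen.symm _ _ (Relation.EqvGen.rel _ _ (Or.inl ⟨e, hx, hy⟩))) h2⟩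
      -- the hub is not in `P`
      have hub : ∀ j : J, ¬ P (j • X.h t) := by
        intro j hP
        rw [P_iff] at hP
        rcases hP with ⟨k, hk⟩ | ⟨h1, -⟩
        · have h2 : t = k • t := by
            have := congrArg X.π hk
            rwa [X.π_h, X.π_smul, hp] at this
          have h3 : X.h t = k • X.h t := by rw [← X.h_smul, ← h2]
          apply hpt
          apply smul_left_cancel k
          rw [← hk, ← h3]
        · apply h1 1
          rw [X.π_h, one_smul]
      -- the edges at the orbit of `t`
      have att_iff : ∀ y, E t y → (P (X.att t y) ↔ P (X.att y t)) := by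
        intro y e
        have hy : ∀ j : J, y ≠ j • t := by
          rintro j rfl
          exact noloop t j e
        have e1 : X.π (X.att t y) = t := X.π_att _ _ e
        have e2 : X.π (X.att y t) = y := X.π_att _ _ (Q.symm _ _ e)
        constructor
        · rintro (⟨g, hg⟩ | ⟨h1, -⟩)
          · have hgt : g • t = t := by
              have := congrArg X.π hg
              rw [e1, X.π_smul, hp] at this
              exact this.symm
            have hgt' : g⁻¹ • t = t := by rw [inv_smul_eq_iff]; exact hgt.symm
            refine Or.inr ⟨by rw [e2]; exact hy, ?_⟩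
            rw [e2]
            have h3 : E (g⁻¹ • t) (g⁻¹ • y) := Q.smul g⁻¹ _ _ e
            rw [hgt'] at h3
            refine ⟨g⁻¹ • y, h3, ?_, Relation.EqvGen.rel _ _ (Or.inr ⟨g⁻¹, rfl⟩)⟩
            have h4 := X.att_smul g⁻¹ _ _ e
            rw [hgt', hg, inv_smul_smul] at h4
            exact h4
          · exact absurd (one_smul J t).symm (by rw [e1] at h1; exact h1 1)
        · rintro (⟨g, hg⟩ | ⟨-, h2⟩)
          · exfalso
            have := congrArg X.π hg
            rw [e2, X.π_smul, hp] at this
            exact hy g this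
          · rw [e2] at h2
            obtain ⟨x, e', h1, h2⟩ := h2
            obtain ⟨f, f1, f2, f3⟩ := Q.cut _ _ e'
            have h3 : f y = f x := h2.cut f1 f3
            have h4 : f t ≠ f y := by rw [h3]; exact f2
            obtain ⟨j, ⟨h5, h6⟩ | ⟨h5, h6⟩⟩ := f3 _ _ e h4
            · refine Or.inl ⟨j, ?_⟩
              have h7 := X.att_smul j _ _ e'
              rw [← h5, ← h6] at h7
              rw [h7, h1]
            · exact absurd h6 (hy j)
      -- all edges of `E`
      have edge_iff : ∀ x y, E x y → (P (X.att x y) ↔ P (X.att y x)) := by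
        intro x y e
        by_cases hx : ∃ j : J, x = j • t
        · obtain ⟨j, rfl⟩ := hx
          have e' : E t (j⁻¹ • y) := by
            have := Q.smul j⁻¹ _ _ e
            rwa [inv_smul_smul] at this
          have h1 := X.att_smul j _ _ e'
          have h2 := X.att_smul j _ _ (Q.symm _ _ e')
          rw [smul_inv_smul] at h1 h2
          rw [h1, h2, P_iff, P_iff]
          exact att_iff _ e'
        · by_cases hy : ∃ j : J, y = j • t
          · obtain ⟨j, rfl⟩ := hy
            have e' : E t (j⁻¹ • x) := by
              have := Q.smul j⁻¹ _ _ (Q.symm _ _ e)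
              rwa [inv_smul_smul] at this
            have h1 := X.att_smul j _ _ e'
            have h2 := X.att_smul j _ _ (Q.symm _ _ e')
            rw [smul_inv_smul] at h1 h2
            rw [h1, h2, P_iff, P_iff]
            exact (att_iff _ e').symm
          · push Not at hx hy
            have e1 : X.π (X.att x y) = x := X.π_att _ _ e
            have e2 : X.π (X.att y x) = y := X.π_att _ _ (Q.symm _ _ e)
            have n1 : ¬ ∃ j : J, X.att x y = j • p := by
              rintro ⟨j, hj⟩
              have := congrArg X.π hj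
              rw [e1, X.π_smul, hp] at this
              exact hx j this
            have n2 : ¬ ∃ j : J, X.att y x = j • p := by
              rintro ⟨j, hj⟩
              have := congrArg X.π hj
              rw [e2, X.π_smul, hp] at this
              exact hy j this
            constructor
            · rintro (h | ⟨-, h⟩)
              · exact absurd h n1
              · rw [e1] at h
                exact Or.inr ⟨by rw [e2]; exact hy, by rw [e2]; exact Co_edge e hx hy h⟩
            · rintro (h | ⟨-, h⟩)
              · exact absurd h n2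
              · rw [e2] at h
                exact Or.inr ⟨by rw [e1]; exact hx, by
                  rw [e1]; exact Co_edge (Q.symm _ _ e) hy hx h⟩
      -- star edges
      have star_iff : ∀ u v, X.π u = X.π v → u = X.h (X.π u) → ¬ (P u ↔ P v) →
          ∃ j : J, u = j • X.h t ∧ v = j • p := by
        intro u v huv hu hne
        by_cases ht : ∃ j : J, X.π u = j • t
        · obtain ⟨j, hj⟩ := ht
          have hu' : u = j • X.h t := by rw [hu, hj, X.h_smul]
          have hPu : ¬ P u := by rw [hu']; exact hub j
          have hPv : P v := by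
            by_contra hPv
            exact hne ⟨fun h => absurd h hPu, fun h => absurd h hPv⟩
          rcases hPv with ⟨k, hk⟩ | ⟨h1, -⟩
          · have h2 : j • t = k • t := by
              rw [← hj, huv, hk, X.π_smul, hp]
            refine ⟨k, ?_, hk⟩
            rw [hu', ← X.h_smul, ← X.h_smul, h2]
          · exact absurd (huv.symm.trans hj) (h1 j)
        · exfalso
          push Not at ht
          apply hne
          have n1 : ¬ ∃ j : J, u = j • p := by
            rintro ⟨j, hj⟩
            have := congrArg X.π hj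
            rw [X.π_smul, hp] at this
            exact ht j this
          have n2 : ¬ ∃ j : J, v = j • p := by
            rintro ⟨j, hj⟩
            have := congrArg X.π hj
            rw [X.π_smul, hp, ← huv] at this
            exact ht j this
          constructor
          · rintro (h | ⟨h1, h⟩)
            · exact absurd h n1
            · exact Or.inr ⟨by rw [← huv]; exact h1, by rw [← huv]; exact h⟩
          · rintro (h | ⟨h1, h⟩)
            · exact absurd h n2
            · exact Or.inr ⟨by rw [huv]; exact h1, by rw [huv]; exact h⟩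
      let f : T' → ZMod 2 := fun u => if P u then 1 else 0
      have hf : ∀ u v, f u ≠ f v → ¬ (P u ↔ P v) := by
        intro u v hne hiff
        apply hne
        simp only [f]
        rw [if_congr hiff rfl rfl]
      refine ⟨f, ?_, ?_, ?_⟩
      · intro j z
        simp only [f]
        rw [if_congr (P_iff j z) rfl rfl]
      · have h1 : ¬ P (X.h t) := by
          have := hub 1
          rwa [one_smul] at this
        have h2 : P p := Or.inl ⟨1, (one_smul _ _).symm⟩
        simp only [f]
        rw [if_neg h1, if_pos h2]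
        exact zero_ne_one
      · rintro z w (⟨x, y, e, rfl, rfl⟩ | ⟨h1, h2, h3 | h3⟩) hne
        · exact absurd (edge_iff x y e) (hf _ _ hne)
        · obtain ⟨j, h4, h5⟩ := star_iff z w h2 h3 (hf _ _ hne)
          exact ⟨j, Or.inl ⟨h4, h5⟩⟩
        · obtain ⟨j, h4, h5⟩ := star_iff w z h2.symm h3 (hf _ _ hne.symm)
          exact ⟨j, Or.inr ⟨h5, h4⟩⟩
    rintro u v (⟨x, y, e, rfl, rfl⟩ | ⟨h1, h2, h3⟩)
    · obtain ⟨f, f1, f2, f3⟩ := Q.cut _ _ e
      refine ⟨fun u => f (X.π u), ?_, ?_, ?_⟩
      · intro j z
        show f (X.π (j • z)) = f (X.π z)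
        rw [X.π_smul, f1]
      · show f (X.π (X.att x y)) ≠ f (X.π (X.att y x))
        rw [X.π_att _ _ e, X.π_att _ _ (Q.symm _ _ e)]
        exact f2
      · rintro z w (⟨a, b, e', rfl, rfl⟩ | ⟨-, h2, -⟩) hne
        · have hne' : f a ≠ f b := by
            have h0 : f (X.π (X.att a b)) ≠ f (X.π (X.att b a)) := hne
            rwa [X.π_att _ _ e', X.π_att _ _ (Q.symm _ _ e')] at h0
          obtain ⟨j, ⟨h1, h2⟩ | ⟨h1, h2⟩⟩ := f3 _ _ e' hne'
          · exact ⟨j, Or.inl ⟨by rw [h1, h2, X.att_smul j _ _ e],
              by rw [h1, h2, X.att_smul j _ _ (Q.symm _ _ e)]⟩⟩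
          · exact ⟨j, Or.inr ⟨by rw [h1, h2, X.att_smul j _ _ (Q.symm _ _ e)],
              by rw [h1, h2, X.att_smul j _ _ e]⟩⟩
        · exact absurd (congrArg f h2) hne
    · rcases h3 with h3 | h3
      · obtain ⟨f, f1, f2, f3⟩ := star (X.π u) v h2.symm (by
          intro e
          apply h1
          rw [h3, e])
        rw [← h3] at f2 f3
        exact ⟨f, f1, f2, f3⟩
      · obtain ⟨f, f1, f2, f3⟩ := star (X.π v) u h2 (by
          intro e
          apply h1
          rw [h3, e])
        rw [← h3] at f2 f3
        refine ⟨f, f1, f2.symm, fun z w e hne => ?_⟩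
        obtain ⟨j, h⟩ := f3 z w e hne
        exact ⟨j, h.symm⟩

end Exp

end

end Pool.Agent.DI
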