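import Pool.Agent.DI.FG

/-!
# A finite multigraph with an involution

`FG.In`: an involution of a finite multigraph which reverses no line. `quo`: the quotient graph,
`fix`: the graph of the fixed nodes and lines, `lef`: Lefschetz by counting. `Z1`: the cycles over
`ℚ`, `finrank_Z1`: their dimension is `b1`, `finrank_Zm`, `finrank_Zp`: the dimensions of the two
eigenspaces. `fix_tree`: the fixed graph in a tree is a tree; `sep`: in a tree an unfixed node and
its image are separated by the fixed nodes.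
-/

namespace Pool.Agent.DI

section count

variable {T : Type} (f : T → T) (hf : ∀ x, f (f x) = x)

/-- orbits of an involution -/
def isd : Setoid T where
  r x y := y = x ∨ y = f x
  iseqv := by
    refine ⟨fun x => Or.inl rfl, ?_, ?_⟩
    · rintro x y (h | h)
      · exact Or.inl h.symm
      · exact Or.inr (by rw [h, hf])
    · rintro x y z (h | h) (k | k)
      · exact Or.inl (k.trans h)
      · exact Or.inr (by rw [k, h])
      · exact Or.inr (by rw [k, h])
      · exact Or.inl (by rw [k, h, hf])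

theorem isd_iff {x y : T} : (Quotient.mk (isd f hf) x = Quotient.mk (isd f hf) y) ↔
    y = x ∨ y = f x :=
  ⟨fun h => Quotient.exact h, fun h => Quotient.sound (s := isd f hf) h⟩

theorem card_isd_fib (q : Quotient (isd f hf)) :
    Nat.card {x // Quotient.mk (isd f hf) x = q} +
      Nat.card {x : {x // f x = x} // Quotient.mk (isd f hf) x.1 = q} = 2 := by
  classical
  obtain ⟨x0, rfl⟩ : ∃ x, Quotient.mk (isd f hf) x = q := Quotient.exists_rep q
  by_cases h : f x0 = x0
  · have h1 : Nat.card {x // Quotient.mk (isd f hf) x = Quotient.mk (isd f hf) x0} = 1 := by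
      rw [Nat.card_eq_one_iff_unique]
      refine ⟨⟨?_⟩, ⟨⟨x0, rfl⟩⟩⟩
      have key : ∀ x, Quotient.mk (isd f hf) x = Quotient.mk (isd f hf) x0 → x = x0 := by
        intro x hx
        rcases (isd_iff f hf).1 hx.symm with k | k
        · exact k
        · rw [k, h]
      rintro ⟨x, hx⟩ ⟨y, hy⟩
      exact Subtype.ext ((key x hx).trans (key y hy).symm)
    have h2 : Nat.card {x : {x // f x = x} // Quotient.mk (isd f hf) x.1 =
        Quotient.mk (isd f hf) x0} = 1 := by
      rw [Nat.card_eq_one_iff_unique]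
      refine ⟨⟨?_⟩, ⟨⟨⟨x0, h⟩, rfl⟩⟩⟩
      have key : ∀ x, Quotient.mk (isd f hf) x = Quotient.mk (isd f hf) x0 → x = x0 := by
        intro x hx
        rcases (isd_iff f hf).1 hx.symm with k | k
        · exact k
        · rw [k, h]
      rintro ⟨⟨x, hx'⟩, hx⟩ ⟨⟨y, hy'⟩, hy⟩
      exact Subtype.ext (Subtype.ext ((key x hx).trans (key y hy).symm))
    rw [h1, h2]
  · have h1 : Nat.card {x // Quotient.mk (isd f hf) x = Quotient.mk (isd f hf) x0} = 2 := by
      rw [Nat.card_eq_two_iff]
      refine ⟨⟨x0, rfl⟩, ⟨f x0, ((isd_iff f hf).2 (Or.inr rfl)).symm⟩, ?_, ?_⟩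
      · intro e
        exact h (congrArg Subtype.val e).symm
      · ext ⟨x, hx⟩
        simp only [Set.mem_insert_iff, Set.mem_singleton_iff, Set.mem_univ, iff_true,
          Subtype.mk.injEq]
        exact (isd_iff f hf).1 hx.symm
    have h2 : Nat.card {x : {x // f x = x} // Quotient.mk (isd f hf) x.1 =
        Quotient.mk (isd f hf) x0} = 0 := by
      have : IsEmpty {x : {x // f x = x} // Quotient.mk (isd f hf) x.1 =
          Quotient.mk (isd f hf) x0} := by
        refine ⟨?_⟩
        rintro ⟨⟨x, hx'⟩, hx⟩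
        rcases (isd_iff f hf).1 hx.symm with k | k
        · change x = x0 at k
          rw [k] at hx'
          exact h hx'
        · change x = f x0 at k
          rw [k, hf] at hx'
          exact h hx'.symm
      exact Nat.card_of_isEmpty
    rw [h1, h2]

/-- counting the orbits of an involution -/
theorem card_isd [Finite T] :
    Nat.card T + Nat.card {x // f x = x} = 2 * Nat.card (Quotient (isd f hf)) := by
  have := Quotient.finite (isd f hf)
  have := Fintype.ofFinite (Quotient (isd f hf))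
  rw [FG.card_fib (fun x => Quotient.mk (isd f hf) x),
    FG.card_fib (fun x : {x // f x = x} => Quotient.mk (isd f hf) x.1),
    ← Finset.sum_add_distrib, Finset.sum_congr rfl (fun q _ => card_isd_fib f hf q),
    Finset.sum_const, Finset.card_univ, Nat.card_eq_fintype_card, smul_eq_mul, mul_comm]

end count

namespace FG

/-- an involution of a finite multigraph; no line is reversed -/
structure In (G : FG) where
  n : G.N → G.N
  l : G.L → G.L
  nn : ∀ x, n (n x) = x
  ll : ∀ e, l (l e) = e
  ha : ∀ e, G.a (l e) = n (G.a e)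
  hb : ∀ e, G.b (l e) = n (G.b e)

namespace In

variable {G : FG} (i : G.In)

/-- the quotient graph -/
def quo : FG where
  N := Quotient (isd i.n i.nn)
  L := Quotient (isd i.l i.ll)
  fN := Quotient.finite _
  fL := Quotient.finite _
  a := Quotient.lift (fun e => Quotient.mk (isd i.n i.nn) (G.a e)) (by
    rintro e e' (h | h)
    · rw [h]
    · exact (isd_iff i.n i.nn).2 (Or.inr (by rw [h, i.ha])))
  b := Quotient.lift (fun e => Quotient.mk (isd i.n i.nn) (G.b e)) (by
    rintro e e' (h | h)
    · rw [h]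
    · exact (isd_iff i.n i.nn).2 (Or.inr (by rw [h, i.hb])))

/-- the projection of the nodes -/
def pn (x : G.N) : i.quo.N := Quotient.mk (isd i.n i.nn) x

/-- the projection of the lines -/
def pl (e : G.L) : i.quo.L := Quotient.mk (isd i.l i.ll) e

theorem pn_iff {x y : G.N} : i.pn x = i.pn y ↔ y = x ∨ y = i.n x := isd_iff i.n i.nn

theorem pl_iff {x y : G.L} : i.pl x = i.pl y ↔ y = x ∨ y = i.l x := isd_iff i.l i.ll

theorem pn_surj (x : i.quo.N) : ∃ y, i.pn y = x := Quotient.exists_rep x

theorem pl_surj (x : i.quo.L) : ∃ y, i.pl y = x := Quotient.exists_rep x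

theorem quo_a (e : G.L) : i.quo.a (i.pl e) = i.pn (G.a e) := rfl

theorem quo_b (e : G.L) : i.quo.b (i.pl e) = i.pn (G.b e) := rfl

theorem pn_n (x : G.N) : i.pn (i.n x) = i.pn x := (i.pn_iff.2 (Or.inr rfl)).symm

theorem pl_l (e : G.L) : i.pl (i.l e) = i.pl e := (i.pl_iff.2 (Or.inr rfl)).symm

/-- the involution on the components -/
def c : G.C → G.C := lift (fun x => G.c (i.n x)) (fun e => by
  rw [← i.ha, ← i.hb]
  exact c_line _)

@[simp] theorem c_c (x : G.N) : i.c (G.c x) = G.c (i.n x) := rfl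

theorem cc (x : G.C) : i.c (i.c x) = x := by
  obtain ⟨y, rfl⟩ := c_surj x
  rw [c_c, c_c, i.nn]

/-- the components of the quotient -/
def quoC : i.quo.C ≃ Quotient (isd i.c i.cc) where
  toFun := lift (G := i.quo) (Quotient.lift (fun x => Quotient.mk (isd i.c i.cc) (G.c x)) (by
      rintro x y (h | h)
      · rw [h]
      · exact (isd_iff i.c i.cc).2 (Or.inr (by rw [h, c_c])))) (fun e => by
    obtain ⟨e, rfl⟩ := i.pl_surj e
    show Quotient.mk (isd i.c i.cc) (G.c (G.a e)) = Quotient.mk (isd i.c i.cc) (G.c (G.b e))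
    rw [c_line])
  invFun := Quotient.lift (lift (G := G) (fun x => i.quo.c (i.pn x)) (fun e => by
      rw [← i.quo_a, ← i.quo_b]
      exact c_line _)) (by
    rintro x y (h | h)
    · rw [h]
    · rw [h]
      obtain ⟨z, rfl⟩ := c_surj x
      show i.quo.c (i.pn z) = i.quo.c (i.pn (i.n z))
      rw [i.pn_n])
  left_inv x := by
    obtain ⟨y, rfl⟩ := c_surj x
    obtain ⟨z, rfl⟩ := i.pn_surj y
    rfl
  right_inv x := by
    obtain ⟨y, rfl⟩ := Quotient.exists_rep x
    obtain ⟨z, rfl⟩ := c_surj y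
    rfl

/-- the fixed graph -/
def fix : FG where
  N := {x // i.n x = x}
  L := {e // i.l e = e}
  fN := inferInstance
  fL := inferInstance
  a e := ⟨G.a e.1, by rw [← i.ha, e.2]⟩
  b e := ⟨G.b e.1, by rw [← i.hb, e.2]⟩

/-- number of fixed components -/
noncomputable def nF : ℕ := Nat.card {x // i.c x = x}

/-- number of components of the fixed graph -/
noncomputable def gam : ℕ := i.fix.nC

theorem nN_quo : G.nN + i.fix.nN = 2 * i.quo.nN := card_isd i.n i.nn

theorem nL_quo : G.nL + i.fix.nL = 2 * i.quo.nL := card_isd i.l i.ll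

theorem nC_quo : G.nC + i.nF = 2 * i.quo.nC := by
  have h := card_isd i.c i.cc
  rw [← Nat.card_congr i.quoC] at h
  exact h

/-- Lefschetz, by counting -/
theorem lef : (i.fix.nN : ℤ) - i.fix.nL = i.nF + (G.b1 - i.quo.b1) - i.quo.b1 := by
  have h1 := i.nN_quo
  have h2 := i.nL_quo
  have h3 := i.nC_quo
  unfold b1
  omega

theorem nF_one (h : G.Cn) : i.nF = 1 := by
  have h1 := h
  rw [cn_iff] at h1
  obtain ⟨⟨x⟩, h1⟩ := h1
  unfold nF
  rw [Nat.card_eq_one_iff_unique]
  refine ⟨⟨?_⟩, ⟨⟨G.c x, by rw [c_c]; exact h1 _ _⟩⟩⟩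
  rintro ⟨u, hu⟩ ⟨v, hv⟩
  obtain ⟨u, rfl⟩ := c_surj u
  obtain ⟨v, rfl⟩ := c_surj v
  exact Subtype.ext (h1 u v)

/-- Lefschetz for a connected graph -/
theorem lef_cn (h : G.Cn) : (i.fix.nN : ℤ) - i.fix.nL = 1 + (G.b1 - i.quo.b1) - i.quo.b1 := by
  rw [i.lef, i.nF_one h]
  rfl

theorem gam_eq : (i.gam : ℤ) = i.nF + i.fix.b1 + (G.b1 - i.quo.b1) - i.quo.b1 := by
  have h := i.lef
  have h2 : i.fix.b1 = i.fix.nL - i.fix.nN + i.gam := rfl
  rw [h2]
  linarith

end In

end FG

end Pool.Agent.DI
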