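import Pool.Agent.DI.WallC

/-!
# Lemma VIS (owner: helper64)

`S : SyQ`, a vertex `w` of the tree. `S.Ivs w v`: `J v = {w}` and every cell at `v` crosses an edge at `w`
exactly in the two neighbours of `v`, its other vertices are beyond. `S.Isl w v`: moreover every neighbour
`x` of `v` has only translates of `v` as neighbours over `w`, and every cell which crosses an edge at `w` in
`x` has a translate of `v` on the side of `w` next to `x`. Then the translates of `v` and their neighbours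
are everything over `w`, and no pentagon is centred at `w` (`Isl.false`).
-/

namespace Pool.Agent.DI

open MulAction
open Pool.Agent.SAF (InC orbs FinOrb oc Decomp SAn SA Conv hull dist_edge FinOrb_iff exists_next)
open Pool.Agent.BT (PX PQ JS bey exits)
open Pool.Agent.BT.TA

section

variable {H V : Type} [Group H] [MulAction H V] {K : GX H V} {P : P45 K}

theorem Qn.cor {a q b y z : V} (h : Qn P a q b y z) : K.Cor q a z := by
  obtain ⟨e, -, h1, h⟩ := h.le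
  rcases h with ⟨e0, e2, -, -⟩ | ⟨e0, e2, -, -⟩
  · exact K.cor_LE.2 ⟨e, Or.inr ⟨e0, h1, e2⟩⟩
  · exact K.cor_LE.2 ⟨e, Or.inl ⟨e0, h1, e2⟩⟩

theorem Q4.cor {a q b y : V} (h : Q4 P a q b y) : K.Cor q a y := by
  obtain ⟨e, -, h1, -, h⟩ := h.le
  rcases h with ⟨e0, e2⟩ | ⟨e0, e2⟩
  · exact K.cor_LE.2 ⟨e, Or.inr ⟨e0, h1, e2⟩⟩
  · exact K.cor_LE.2 ⟨e, Or.inl ⟨e0, h1, e2⟩⟩

end

namespace SyQ

variable {H V : Type} [Group H] [MulAction H V] (S : SyQ H V)

/-- `v` is invisible at `w` -/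
structure Ivs (w : S.X) (v : V) : Prop where
  Jv : S.J v = {w}
  p5 : ∀ x y z t, Qn S.P x v y z t → ∃ w', S.D.G.Adj w w' ∧ S.Cs w w' x ∧ S.Cs w w' y ∧
    S.J z ⊆ bey S.D.G w w' ∧ S.J t ⊆ bey S.D.G w w'
  p4 : ∀ x y z, Q4 S.P x v y z → ∃ w', S.D.G.Adj w w' ∧ S.Cs w w' x ∧ S.Cs w w' y ∧
    S.J z ⊆ bey S.D.G w w'

/-- every neighbour of `x` over `w` is a translate of `v`, also in the cells which cross an edge in `x` -/
structure Nbh (w : S.X) (v x : V) : Prop where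
  ov : ∀ z, S.K.E x z → w ∈ S.J z → ∃ h : H, h • w = w ∧ z = h • v
  cr : ∀ w' z n, S.D.G.Adj w w' → S.Cs w w' x → S.K.Cor z x n → S.J z ⊆ bey S.D.G w' w →
    S.J n ⊆ bey S.D.G w w' → ∃ h : H, h • w = w ∧ z = h • v

/-- an island -/
structure Isl (w : S.X) (v : V) : Prop where
  iv : S.Ivs w v
  nb : ∀ x, S.K.E x v → S.Nbh w v x

variable {S}

theorem not_bey {w w' : S.X} (h : S.D.G.Adj w w') {x : V} (hx : w ∈ S.J x) :
    ¬ S.J x ⊆ bey S.D.G w w' := fun hs => bey_not (hs hx) (bey_self h.symm)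

theorem Ivs.tr {w : S.X} {v : V} (h : S.Ivs w v) {g : H} (hg : g • w = w) : S.Ivs w (g • v) := by
  have hg' : g⁻¹ • w = w := inv_smul_eq_iff.2 hg.symm
  refine ⟨?_, ?_, ?_⟩
  · rw [Js_smul h.Jv, hg]
  · intro x y z t hq
    have hq' := hq.smul g⁻¹
    rw [inv_smul_smul] at hq'
    obtain ⟨w', h1, h2, h3, h4, h5⟩ := h.p5 _ _ _ _ hq'
    have a1 := S.D.adj_smul g _ _ h1
    have a2 := h2.smul g
    have a3 := h3.smul g
    have a4 := S.sub_bey_smul g h4
    have a5 := S.sub_bey_smul g h5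
    simp only [smul_inv_smul, hg] at a1 a2 a3 a4 a5
    exact ⟨g • w', a1, a2, a3, a4, a5⟩
  · intro x y z hq
    have hq' := hq.smul g⁻¹
    rw [inv_smul_smul] at hq'
    obtain ⟨w', h1, h2, h3, h4⟩ := h.p4 _ _ _ hq'
    have a1 := S.D.adj_smul g _ _ h1
    have a2 := h2.smul g
    have a3 := h3.smul g
    have a4 := S.sub_bey_smul g h4
    simp only [smul_inv_smul, hg] at a1 a2 a3 a4
    exact ⟨g • w', a1, a2, a3, a4⟩

theorem Nbh.tr {w : S.X} {v x : V} (h : S.Nbh w v x) {g : H} (hg : g • w = w) :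
    S.Nbh w v (g • x) := by
  have hg' : g⁻¹ • w = w := inv_smul_eq_iff.2 hg.symm
  have fin : ∀ z, (∃ k : H, k • w = w ∧ g⁻¹ • z = k • v) → ∃ k : H, k • w = w ∧ z = k • v := by
    rintro z ⟨k, hk, e⟩
    exact ⟨g * k, by rw [mul_smul, hk, hg], by rw [mul_smul, ← e, smul_inv_smul]⟩
  refine ⟨?_, ?_⟩
  · intro z hz hw
    apply fin
    refine h.ov _ ?_ ?_
    · have := S.K.E_smul g⁻¹ hz
      rwa [inv_smul_smul] at this
    · have := S.js.smul g⁻¹ _ _ hw
      rwa [hg'] at this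
  · intro w' z n ha hc hco hz hn
    apply fin
    have a1 := S.D.adj_smul g⁻¹ _ _ ha
    have a2 := hc.smul g⁻¹
    have a3 := GX.Cor.smul (K := S.K) g⁻¹ hco
    have a4 := S.sub_bey_smul g⁻¹ hz
    have a5 := S.sub_bey_smul g⁻¹ hn
    simp only [inv_smul_smul, hg'] at a1 a2 a3 a4 a5
    exact h.cr _ _ _ a1 a2 a3 a4 a5

/-- the island -/
def Ild (S : SyQ H V) (w : S.X) (v x : V) : Prop := ∃ h : H, h • w = w ∧
  (x = h • v ∨ S.K.E x (h • v))

theorem Isl.nb' {w : S.X} {v : V} (h : S.Isl w v) {x : V} {g : H} (hg : g • w = w)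
    (hx : S.K.E x (g • v)) : S.Nbh w v x := by
  have h1 := S.K.E_smul g⁻¹ hx
  rw [inv_smul_smul] at h1
  have h2 := (h.nb _ h1).tr hg
  rwa [smul_inv_smul] at h2

/-- one step of the slice -/
theorem Isl.step {w : S.X} {v : V} (h : S.Isl w v) {x z : V} (hs : S.SR w x z)
    (hx : S.Ild w v x) : S.Ild w v z := by
  obtain ⟨g, hg, rfl | hx⟩ := hx
  · rcases hs with ⟨he, -, hz⟩ | ⟨w', hp⟩
    · exact ⟨g, hg, Or.inr he.symm⟩
    · have h1 : w' ∈ S.J (g • v) := hp.l.2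
      have h2 := ne_mem (h.iv.tr hg).Jv h1
      exact absurd h2.symm hp.1.ne
  · have hn := h.nb' hg hx
    rcases hs with ⟨he, -, hz⟩ | ⟨w', hp⟩
    · obtain ⟨k, hk, rfl⟩ := hn.ov z he hz
      exact ⟨k, hk, Or.inl rfl⟩
    · obtain ⟨ha, h1, h2, q, hc | hc⟩ := hp
      · -- `q` is beyond
        obtain ⟨hq, ⟨y, t, hp, hy, ht⟩ | ⟨y, hp, hy⟩⟩ := hc
        · -- pentagon `x q z y t`, `t` on the side of `w`
          have hco : S.K.Cor t x q := GX.Cor.symm (K := S.K) hp.cor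
          obtain ⟨k, hk, rfl⟩ := hn.cr w' t q ha h1 hco ht hq
          have hp' : Qn S.P x (k • v) y z q := hp.rot.rot.rot.rot.symm.rot
          obtain ⟨w'', b1, b2, b3, b4, b5⟩ := (h.iv.tr hk).p5 _ _ _ _ hp'
          exact absurd b4 (not_bey b1 h2.1)
        · have hco : S.K.Cor y x q := GX.Cor.symm (K := S.K) hp.cor
          obtain ⟨k, hk, rfl⟩ := hn.cr w' y q ha h1 hco hy hq
          exact ⟨k, hk, Or.inr hp.E3⟩
      · -- `q` is on the side of `w`
        obtain ⟨hq, ⟨y, t, hp, hy, ht⟩ | ⟨y, hp, hy⟩⟩ := hc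
        · obtain ⟨k, hk, rfl⟩ := hn.cr w' q t ha h1 hp.cor hq ht
          exact ⟨k, hk, Or.inr hp.E2.symm⟩
        · obtain ⟨k, hk, rfl⟩ := hn.cr w' q y ha h1 hp.cor hq hy
          exact ⟨k, hk, Or.inr hp.E2.symm⟩

/-- everything over `w` is in the island -/
theorem Isl.all {w : S.X} {v : V} (h : S.Isl w v) (hC : S.Conn) {x : V} (hx : w ∈ S.J x) :
    S.Ild w v x := by
  have key : ∀ a b, Relation.EqvGen (S.SR w) a b → (S.Ild w v a ↔ S.Ild w v b) := by
    intro a b k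
    induction k with
    | rel a b k => exact ⟨h.step k, h.step k.symm'⟩
    | refl a => exact Iff.rfl
    | symm a b _ ih => exact ih.symm
    | trans a b c _ _ i1 i2 => exact i1.trans i2
  have hv : w ∈ S.J v := by rw [h.iv.Jv]; rfl
  exact (key _ _ (hC.slice w v x hv hx)).1 ⟨1, one_smul _ _, Or.inl (one_smul _ _).symm⟩

theorem Isl.two {w : S.X} {v : V} (h : S.Isl w v) (hC : S.Conn) {a q b y z : V}
    (hp : Qn S.P a q b y z) (ha : w ∈ S.J a) (hq : w ∈ S.J q) (h1 : w ∈ S.J y ∨ w ∈ S.J z)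
    (h2 : w ∈ S.J b ∨ w ∈ S.J y) : False := by
  have k1 : ∀ g : H, g • w = w → q = g • v → False := by
    rintro g hg rfl
    obtain ⟨w', b1, b2, b3, b4, b5⟩ := (h.iv.tr hg).p5 _ _ _ _ hp
    rcases h1 with h1 | h1
    · exact not_bey b1 h1 b4
    · exact not_bey b1 h1 b5
  obtain ⟨g, hg, rfl | hx⟩ := h.all hC ha
  · have hp' : Qn S.P z (g • v) q b y := hp.rot.rot.rot.rot
    obtain ⟨w', b1, b2, b3, b4, b5⟩ := (h.iv.tr hg).p5 _ _ _ _ hp'
    rcases h2 with h2 | h2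
    · exact not_bey b1 h2 b4
    · exact not_bey b1 h2 b5
  · obtain ⟨k, hk, e⟩ := (h.nb' hg hx).ov q hp.E1 hq
    exact k1 k hk e

/-- LEMMA VIS -/
theorem Isl.false {w : S.X} {v : V} (h : S.Isl w v) (hC : S.Conn) {a q b y z : V}
    (hp : Qn S.P a q b y z) (h1 : w ∈ S.J a ∨ w ∈ S.J q) (h2 : w ∈ S.J q ∨ w ∈ S.J b)
    (h3 : w ∈ S.J b ∨ w ∈ S.J y) (h4 : w ∈ S.J y ∨ w ∈ S.J z) (h5 : w ∈ S.J z ∨ w ∈ S.J a) :
    False := by
  by_cases ha : w ∈ S.J a
  · by_cases hq : w ∈ S.J q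
    · exact h.two hC hp ha hq h4 h3
    · have hb := h2.resolve_left hq
      by_cases hy : w ∈ S.J y
      · exact h.two hC hp.rot.rot hb hy (Or.inl ha) (Or.inr ha)
      · have hz := h4.resolve_left hy
        exact h.two hC hp.rot.rot.rot.rot hz ha (Or.inl hb) (Or.inr hb)
  · have hq := h1.resolve_left ha
    have hz := h5.resolve_right ha
    by_cases hb : w ∈ S.J b
    · exact h.two hC hp.rot hq hb (Or.inl hz) (Or.inr hz)
    · have hy := h3.resolve_left hb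
      exact h.two hC hp.rot.rot.rot hy hz (Or.inl hq) (Or.inr hq)

end SyQ

end Pool.Agent.DI
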