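import Pool.Agent.DI.Isl
import Pool.Agent.DI.QK0P
import Pool.Agent.DI.Pc

/-!
# Lemma VIS, part 2 (owner: helper64)

`S.TSa hc w y`: every local piece of `y` over `w` touches every direction of `y` at `w` (the form of `TSp`).
`S.Ivs w v` + `TSa` at the neighbours of `v` + `UqV` at the poles of `v` give `S.Isl w v` (`Ivs.isl`), hence
no pentagon is centred at `w` (`vis_false`).
-/

namespace Pool.Agent.DI

open MulAction
open Pool.Agent.SAF (InC orbs FinOrb oc Decomp SAn SA Conv hull dist_edge FinOrb_iff exists_next)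
open Pool.Agent.BT (PX PQ JS bey exits)
open Pool.Agent.BT.TA

namespace SyQ

variable {H V : Type} [Group H] [MulAction H V] {S : SyQ H V}

theorem leC (e : S.K.LE) :
    (∃ y z, Qn S.P (S.K.c0 e) (S.K.c1 e) (S.K.c2 e) y z) ∨
      ∃ y, Q4 S.P (S.K.c0 e) (S.K.c1 e) (S.K.c2 e) y := by
  by_cases hi : S.P.sq e.1.1
  · right
    have hl := S.P.ln4 hi
    have hj : e.1.2.1 % 4 < 4 := Nat.mod_lt _ (by norm_num)
    let j : Fin 4 := ⟨e.1.2.1 % 4, hj⟩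
    refine ⟨S.K.vk e 3, e.2, e.1.1, j, hi, Or.inl ⟨?_, ?_, ?_, ?_⟩⟩
    · exact P45.vk4 hi 0 j rfl
    · refine P45.vk4 hi 1 (j + 1) ?_
      show (e.1.2.1 + 1) % 4 = (e.1.2.1 % 4 + 1) % 4
      omega
    · refine P45.vk4 hi 2 (j + 2) ?_
      show (e.1.2.1 + 2) % 4 = (e.1.2.1 % 4 + 2) % 4
      omega
    · refine P45.vk4 hi 3 (j + 3) ?_
      show (e.1.2.1 + 3) % 4 = (e.1.2.1 % 4 + 3) % 4
      omega
  · left
    have hj : e.1.2.1 % 5 < 5 := Nat.mod_lt _ (by norm_num)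
    let j : Fin 5 := ⟨e.1.2.1 % 5, hj⟩
    refine ⟨S.K.vk e 3, S.K.vk e 4, e.2, e.1.1, j, hi, Or.inl ⟨?_, ?_, ?_, ?_, ?_⟩⟩
    · exact P45.vk5 hi 0 j rfl
    · refine P45.vk5 hi 1 (j + 1) ?_
      show (e.1.2.1 + 1) % 5 = (e.1.2.1 % 5 + 1) % 5
      omega
    · refine P45.vk5 hi 2 (j + 2) ?_
      show (e.1.2.1 + 2) % 5 = (e.1.2.1 % 5 + 2) % 5
      omega
    · refine P45.vk5 hi 3 (j + 3) ?_
      show (e.1.2.1 + 3) % 5 = (e.1.2.1 % 5 + 3) % 5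
      omega
    · refine P45.vk5 hi 4 (j + 4) ?_
      show (e.1.2.1 + 4) % 5 = (e.1.2.1 % 5 + 4) % 5
      omega

/-- corners of pentagons and squares -/
theorem corC {n s m : V} (h : S.K.Cor n s m) :
    (∃ y z, Qn S.P n s m y z) ∨ ∃ y, Q4 S.P n s m y := by
  obtain ⟨e, ⟨rfl, rfl, rfl⟩ | ⟨rfl, rfl, rfl⟩⟩ := S.K.cor_LE.1 h
  · exact leC e
  · rcases leC e with ⟨y, z, hq⟩ | ⟨y, hq⟩
    · exact Or.inl ⟨z, y, hq.symm⟩
    · exact Or.inr ⟨y, hq.symm⟩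

/-- no local corner at an invisible node -/
theorem Ivs.no_loc {w : S.X} {v : V} (h : S.Ivs w v) {y z : V} (hc : S.K.Cor v y z)
    (hz : w ∈ S.J z) : False := by
  rcases corC hc with ⟨t, s, hq⟩ | ⟨t, hq⟩
  · obtain ⟨w', h1, -, -, h4, -⟩ := h.p5 _ _ _ _ hq.rot.rot.rot.rot
    exact not_bey h1 hz h4
  · obtain ⟨w', h1, -, -, h4⟩ := h.p4 _ _ _ hq.rot.rot.rot
    exact not_bey h1 hz h4

/-- a neighbour of `v` which is in a cell at `v` crosses an edge at `w` -/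
theorem Ivs.crs {w : S.X} {v : V} (h : S.Ivs w v) {x y : V} (hc : S.K.Cor x v y) :
    ∃ w', S.D.G.Adj w w' ∧ S.Cs w w' x ∧ S.Cs w w' y := by
  rcases corC hc with ⟨t, s, hq⟩ | ⟨t, hq⟩
  · obtain ⟨w', h1, h2, h3, -, -⟩ := h.p5 _ _ _ _ hq
    exact ⟨w', h1, h2, h3⟩
  · obtain ⟨w', h1, h2, h3, -⟩ := h.p4 _ _ _ hq
    exact ⟨w', h1, h2, h3⟩

variable (S) in
/-- every node of `y` over `w` sees every direction of `y` at `w` -/
def TSa (hc : S.Conn) (w : S.X) (y : V) : Prop :=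
  ∀ (hy : w ∈ S.J y) (n : S.NV w), S.K.ar n.1 y → ∀ d : S.SV w,
    (S.k0 hc w).ar (Sum.inl ⟨y, hy⟩) d →
      (S.k0 hc w).PV (PN.pol (Sum.inl ⟨y, hy⟩) d ((S.k0 hc w).Pc (Sum.inl ⟨y, hy⟩) (Sum.inl n)))

/-- a corner in the direction `d` from the local piece of `n` -/
theorem TSa.cor {hc : S.Conn} {w : S.X} {y : V} (h : S.TSa hc w y) (hy : w ∈ S.J y) (n : S.NV w)
    (hn : S.K.ar n.1 y) (d : S.SV w) (hd : (S.k0 hc w).ar (Sum.inl ⟨y, hy⟩) d) :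
    ∃ m : S.NV w, S.K.ar m.1 y ∧ (S.k0 hc w).IJ (Sum.inl ⟨y, hy⟩) (Sum.inl n) (Sum.inl m) ∧
      ∃ x, S.K.Cor x y m.1 ∧ S.rho w x = d := by
  obtain ⟨-, m, hm, hco, he⟩ := h hy n hn d hd
  have hm : S.SAr w m (Sum.inl ⟨y, hy⟩) := hm
  cases hm with
  | hor x a e =>
    refine ⟨x, e, GX.Pc_eq.1 he, ?_⟩
    obtain ⟨l, ⟨l0, l1, l2⟩ | ⟨l0, l1, l2⟩⟩ := (S.k0 hc w).cor_LE.1 hco
    · obtain ⟨b0, b1, b2⟩ := bkq_v hc l1
      have k2 : S.K.c2 (bkq hc l) = x.1 := rho_inl (b2.symm.trans l2)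
      refine ⟨S.K.c0 (bkq hc l), S.K.cor_LE.2 ⟨bkq hc l, Or.inl ⟨rfl, b1, k2⟩⟩, ?_⟩
      exact b0.symm.trans l0
    · obtain ⟨b0, b1, b2⟩ := bkq_v hc l1
      have k0 : S.K.c0 (bkq hc l) = x.1 := rho_inl (b0.symm.trans l0)
      refine ⟨S.K.c2 (bkq hc l), S.K.cor_LE.2 ⟨bkq hc l, Or.inr ⟨k0, b1, rfl⟩⟩, ?_⟩
      exact b2.symm.trans l2

/-- a local corner of the slice is a local corner -/
theorem IC_cor {hc : S.Conn} {w : S.X} {y : S.NV w} {a b : S.NV w}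
    (h : (S.k0 hc w).IC (Sum.inl y) (Sum.inl a) (Sum.inl b)) : S.K.Cor a.1 y.1 b.1 := by
  obtain ⟨l, ⟨l0, l1, l2⟩ | ⟨l0, l1, l2⟩⟩ := (S.k0 hc w).cor_LE.1 h.1
  · obtain ⟨b0, b1, b2⟩ := bkq_v hc l1
    exact S.K.cor_LE.2 ⟨bkq hc l, Or.inl ⟨rho_inl (b0.symm.trans l0), b1,
      rho_inl (b2.symm.trans l2)⟩⟩
  · obtain ⟨b0, b1, b2⟩ := bkq_v hc l1
    exact S.K.cor_LE.2 ⟨bkq hc l, Or.inr ⟨rho_inl (b0.symm.trans l0), b1,
      rho_inl (b2.symm.trans l2)⟩⟩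

/-- the local piece of an invisible node is a point -/
theorem Ivs.pc {hc : S.Conn} {w : S.X} {v : V} (h : S.Ivs w v) {y : S.NV w} {a b : S.NV w}
    (hab : (S.k0 hc w).IJ (Sum.inl y) (Sum.inl a) (Sum.inl b)) (ha : a.1 = v ∨ b.1 = v) :
    a = b := by
  have ic : ∀ s t : S.SV w, (S.k0 hc w).IC (Sum.inl y) s t → ∀ c : S.NV w, c.1 = v →
      s = Sum.inl c → False := by
    intro s t k c hcv hs
    have kt : S.SAr w t (Sum.inl y) := k.2.2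
    cases kt with
    | hor t' _ e =>
      subst hs
      have h1 := IC_cor k
      rw [hcv] at h1
      exact h.no_loc h1 t'.2
  have key : ∀ s t : S.SV w, (S.k0 hc w).IJ (Sum.inl y) s t → ∀ c : S.NV w, c.1 = v →
      (s = Sum.inl c ↔ t = Sum.inl c) := by
    intro s t k
    induction k with
    | rel s t k =>
      intro c hcv
      constructor
      · intro e
        exact (ic _ _ k c hcv e).elim
      · intro e
        exact (ic _ _ k.symm' c hcv e).elim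
    | refl s => intro c _; exact Iff.rfl
    | symm s t _ ih => intro c hcv; exact (ih c hcv).symm
    | trans s t r _ _ i1 i2 => intro c hcv; exact (i1 c hcv).trans (i2 c hcv)
  rcases ha with ha | ha
  · exact (Sum.inl.inj ((key _ _ hab a ha).1 rfl)).symm
  · exact Sum.inl.inj ((key _ _ hab b ha).2 rfl)

variable (S) in
/-- the corners of `z` which cross the edge are one orbit, as walks -/
def UqV (w u : S.X) (z : V) : Prop := ∀ x v n m, S.K.Cor x z v → S.J x ⊆ bey S.D.G w u →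
  S.J v ⊆ bey S.D.G u w → S.K.Cor n z m → S.J n ⊆ bey S.D.G w u → S.J m ⊆ bey S.D.G u w →
    ∃ g : H, g • z = z ∧ g • w = w ∧ g • u = u ∧ n = g • x ∧ m = g • v

/-- two crossing corners of `a` -/
theorem UqC.uqV {w u : S.X} {a : V} (h : S.UqC w u a) : S.UqV w u a := by
  intro x v n z h1 hx hv h2 hn hz
  have bad : ∀ {t : V}, S.J t ⊆ bey S.D.G w u → S.J t ⊆ bey S.D.G u w → False := by
    intro t t1 t2
    obtain ⟨p, hp⟩ := S.js.ne t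
    exact bey_not (t1 hp) (t2 hp)
  obtain ⟨e, he⟩ := S.K.cor_LE.1 h1
  obtain ⟨e', he'⟩ := S.K.cor_LE.1 h2
  have c1 : S.K.c1 e = a := by
    rcases he with ⟨-, k, -⟩ | ⟨-, k, -⟩ <;> exact k
  have c1' : S.K.c1 e' = a := by
    rcases he' with ⟨-, k, -⟩ | ⟨-, k, -⟩ <;> exact k
  have X : S.Xe w u e := by
    rcases he with ⟨i1, -, i2⟩ | ⟨i1, -, i2⟩
    · left
      rw [i1, i2]
      exact ⟨hx, hv⟩
    · right
      rw [i1, i2]
      exact ⟨hx, hv⟩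
  have X' : S.Xe w u e' := by
    rcases he' with ⟨i1, -, i2⟩ | ⟨i1, -, i2⟩
    · left
      rw [i1, i2]
      exact ⟨hn, hz⟩
    · right
      rw [i1, i2]
      exact ⟨hn, hz⟩
  obtain ⟨g, ga, gw, gu, e1⟩ := h e e' c1 c1' X X'
  refine ⟨g, ga, gw, gu, ?_⟩
  subst e1
  rw [S.K.c0_smul, S.K.c2_smul] at he'
  rcases he with ⟨i1, -, i2⟩ | ⟨i1, -, i2⟩ <;> rcases he' with ⟨j1, -, j2⟩ | ⟨j1, -, j2⟩ <;>
    rw [i1] at j1 <;> rw [i2] at j2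
  · exact ⟨j1.symm, j2.symm⟩
  · exfalso
    refine bad (t := g • x) ((sub_bey_fix gw gu).2 hx) ?_
    rw [j1]
    exact hz
  · exfalso
    refine bad (t := g • x) ((sub_bey_fix gw gu).2 hx) ?_
    rw [j2]
    exact hz
  · exact ⟨j2.symm, j1.symm⟩

/-- three exits -/
theorem two' {w : S.X} {x : V} (hx : w ∈ S.J x) {s t u : V ⊕ S.X}
    (hs : s ∈ exits S.P.pq S.D.G S.J x w) (ht : t ∈ exits S.P.pq S.D.G S.J x w)
    (hu : u ∈ exits S.P.pq S.D.G S.J x w) : s = t ∨ s = u ∨ t = u :=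
  S.js.two x w hx s hs t ht u hu

theorem ex_pol {w : S.X} {x a : V} (h : S.K.ar x a) (ha : w ∈ S.J a) :
    (Sum.inl a : V ⊕ S.X) ∈ exits S.P.pq S.D.G S.J x w := Or.inl ⟨a, rfl, h, ha⟩

theorem ex_edg {w u : S.X} {x : V} (h : S.D.G.Adj w u) (hu : u ∈ S.J x) :
    (Sum.inr u : V ⊕ S.X) ∈ exits S.P.pq S.D.G S.J x w := Or.inr ⟨u, rfl, h, hu⟩

/-- the poles of an invisible soft -/
theorem Ivs.nb_pol {hc : S.Conn} {w : S.X} {v a : V} (h : S.Ivs w v) (ha : S.K.ar v a)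
    (hts : S.TSa hc w a) (huq : ∀ u, S.D.G.Adj w u → u ∈ S.J a → S.UqV w u a) {u1 u2 : S.X}
    (h1 : S.D.G.Adj w u1) (h2 : S.D.G.Adj w u2) (hne : u1 ≠ u2) (k1 : u1 ∈ S.J a)
    (k2 : u2 ∈ S.J a) : S.Nbh w v a := by
  have hv : w ∈ S.J v := by rw [h.Jv]; rfl
  have hw : w ∈ S.J a := by
    obtain ⟨p, p0, p1⟩ := S.one_ex (Or.inl ha : S.K.E v a)
    rwa [ne_mem h.Jv p0] at p1
  -- the reference corners
  have ref : ∀ u, S.D.G.Adj w u → u ∈ S.J a → ∃ x, S.K.Cor x a v ∧ S.J x ⊆ bey S.D.G w u := by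
    intro u hu hua
    obtain ⟨m, hm, hij, x, hx, hr⟩ := hts.cor hw ⟨v, hv⟩ ha (Sum.inr ⟨u, hu⟩)
      (SAr.up ⟨a, hw⟩ ⟨u, hu⟩ hua)
    have e := h.pc hij (Or.inl rfl)
    subst e
    exact ⟨x, hx, rho_inr hr⟩
  have cut : ∀ u, S.D.G.Adj w u → u ∈ S.J a → ∀ n z, S.K.Cor n a z → S.J n ⊆ bey S.D.G w u →
      S.J z ⊆ bey S.D.G u w → ∃ g : H, g • w = w ∧ z = g • v := by
    intro u hu hua n z hco hn hz
    obtain ⟨x, hx, hxb⟩ := ref u hu hua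
    have hvb : S.J v ⊆ bey S.D.G u w := by
      rw [h.Jv]
      intro p hp
      rw [Set.mem_singleton_iff.1 hp]
      exact bey_self hu.symm
    obtain ⟨g, -, gw, -, -, e⟩ := huq u hu hua _ _ _ _ hx hxb hvb hco hn hz
    exact ⟨g, gw, e⟩
  refine ⟨?_, ?_⟩
  · intro z hz hwz
    rcases hz with hz | hz
    · exfalso
      rcases two' hw (ex_pol hz hwz) (ex_edg h1 k1) (ex_edg h2 k2) with e | e | e
      · cases e
      · cases e
      · exact hne (Sum.inr.inj e)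
    · obtain ⟨m, hm, hij, x, hx, hr⟩ := hts.cor hw ⟨z, hwz⟩ hz (Sum.inr ⟨u1, h1⟩)
        (SAr.up ⟨a, hw⟩ ⟨u1, h1⟩ k1)
      have hmb : S.J m.1 ⊆ bey S.D.G u1 w := by
        have hnc := S.adj_nc h1 (Or.inr hm : S.K.E a m.1) ⟨hw, k1⟩
        exact S.side_of h1.symm (fun t => hnc t.swap) m.2 (bey_self h1.symm)
      obtain ⟨g, gw, e⟩ := cut u1 h1 k1 x m.1 hx (rho_inr hr) hmb
      have e2 := (h.tr gw).pc hij (Or.inr e)
      refine ⟨g, gw, ?_⟩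
      rw [← e, ← e2]
  · intro w' z n hadj hcs hco hz hn
    exact cut w' hadj hcs.2 n z hco.symm hn hz

/-- the pages of an invisible soft -/
theorem Ivs.nb_pag {hc : S.Conn} {w : S.X} {v n : V} (h : S.Ivs w v) (hn : S.K.ar n v)
    (hts : S.TSa hc w n) (hcr : ∃ w', S.D.G.Adj w w' ∧ S.Cs w w' n) : S.Nbh w v n := by
  have hv : w ∈ S.J v := by rw [h.Jv]; rfl
  obtain ⟨w1, hw1, hcs1⟩ := hcr
  have hw : w ∈ S.J n := hcs1.1
  have ov : ∀ z, S.K.E n z → w ∈ S.J z → ∃ g : H, g • w = w ∧ z = g • v := by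
    intro z hz hwz
    rcases hz with hz | hz
    · rcases two' hw (ex_pol hz hwz) (ex_pol hn hv) (ex_edg hw1 hcs1.2) with e | e | e
      · exact ⟨1, one_smul _ _, by rw [one_smul]; exact Sum.inl.inj e⟩
      · cases e
      · cases e
    · exfalso
      obtain ⟨m, hm, hij, x, hx, hr⟩ := hts.cor hw ⟨z, hwz⟩ hz (Sum.inl ⟨v, hv⟩)
        (SAr.hor ⟨n, hw⟩ ⟨v, hv⟩ hn)
      have e := rho_inl hr
      rw [e] at hx
      exact h.no_loc hx m.2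
  refine ⟨ov, ?_⟩
  intro w' z m hadj hcs hco hz hm
  refine ov z hco.symm.E2 ?_
  by_contra hwz
  have hE : S.K.E n z := hco.symm.E2
  have hd := S.dir_cross hE hw hwz
  have hda := S.dir_adj hwz
  have hdb := S.dir_bey hwz
  have hne : S.dir w z ≠ w' := by
    intro e
    rw [e] at hdb
    obtain ⟨p, hp⟩ := S.js.ne z
    exact bey_not (hdb hp) (hz hp)
  rcases two' hw (ex_pol hn hv) (ex_edg hda hd) (ex_edg hadj hcs.2) with e | e | e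
  · cases e
  · cases e
  · exact hne (Sum.inr.inj e)

/-- LEMMA VIS: the hypotheses -/
structure Vhyp (hc : S.Conn) (w : S.X) (v : V) : Prop where
  iv : S.Ivs w v
  cel : ∀ x, S.K.E x v → ∃ y, S.K.Cor x v y
  ts : ∀ x, S.K.E x v → S.TSa hc w x
  uq : ∀ a, S.K.ar v a → ∀ u, S.D.G.Adj w u → u ∈ S.J a → S.UqV w u a
  int : ∀ a, S.K.ar v a → ∃ u1 u2, S.D.G.Adj w u1 ∧ S.D.G.Adj w u2 ∧ u1 ≠ u2 ∧ u1 ∈ S.J a ∧
    u2 ∈ S.J a

theorem Vhyp.isl {hc : S.Conn} {w : S.X} {v : V} (h : S.Vhyp hc w v) : S.Isl w v := by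
  refine ⟨h.iv, ?_⟩
  intro x hx
  rcases hx with hx | hx
  · obtain ⟨y, hy⟩ := h.cel x (Or.inl hx)
    obtain ⟨w', h1, h2, -⟩ := h.iv.crs hy
    exact h.iv.nb_pag hx (h.ts x (Or.inl hx)) ⟨w', h1, h2⟩
  · obtain ⟨u1, u2, h1, h2, hne, k1, k2⟩ := h.int x hx
    exact h.iv.nb_pol hx (h.ts x (Or.inr hx)) (h.uq x hx) h1 h2 hne k1 k2

/-- LEMMA VIS -/
theorem Vhyp.false {hc : S.Conn} {w : S.X} {v : V} (h : S.Vhyp hc w v) {a q b y z : V}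
    (hp : Qn S.P a q b y z) (h1 : w ∈ S.J a ∨ w ∈ S.J q) (h2 : w ∈ S.J q ∨ w ∈ S.J b)
    (h3 : w ∈ S.J b ∨ w ∈ S.J y) (h4 : w ∈ S.J y ∨ w ∈ S.J z) (h5 : w ∈ S.J z ∨ w ∈ S.J a) :
    False := h.isl.false hc hp h1 h2 h3 h4 h5

/-- LEMMA VIS, by positions -/
theorem Vhyp.no_cen {hc : S.Conn} {w : S.X} {v : V} (h : S.Vhyp hc w v) {g : H} {i : S.K.I}
    (hi : ¬ S.P.sq i) (hI : S.IsC (S.tr g i) w) : False := by
  have hp : Qn S.P (S.tr g i 0) (S.tr g i 1) (S.tr g i 2) (S.tr g i 3) (S.tr g i 4) :=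
    ⟨g, i, 0, hi, Or.inl ⟨rfl, rfl, rfl, rfl, rfl⟩⟩
  exact h.false hp (hI 0) (hI 1) (hI 2) (hI 3) (hI 4)

end SyQ

end Pool.Agent.DI
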