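import Pool.Agent.DI.QCut

/-!
# No one-sided local piece

`SyQ.TSat w y n`: the local piece of the in-arrow `n` of `y` over `w` has a corner in every direction of
`y` at `w` (edges of `J y` at `w`, poles of `y` over `w`). `TSat_iff`: the private poles of the raw slice
at this piece exist in all directions. `k0_cor_iff`: the corners of the raw slice at a vertex over `w`.
-/

namespace Pool.Agent.DI

open MulAction
open Pool.Agent.SAF (InC orbs FinOrb oc Decomp SAn SA Conv hull dist_edge FinOrb_iff exists_next)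
open Pool.Agent.BT (PX PQ JS bey exits lz lz_self lz_ne lz_symm x_next_unique)
open Pool.Agent.BT.TA

namespace SyQ

variable {H V : Type} [Group H] [MulAction H V]

/-- the local piece of `n` at `y` over `w` has corners in all directions of `y` at `w` -/
def TSat (S : SyQ H V) (w : S.X) (y n : V) : Prop :=
  (∀ u, S.D.G.Adj w u → u ∈ S.J y →
    ∃ n' m, S.LIJ w y n n' ∧ S.K.Cor n' y m ∧ S.J m ⊆ bey S.D.G w u) ∧
  (∀ a, S.K.ar y a → w ∈ S.J a → ∃ n', S.LIJ w y n n' ∧ S.K.Cor n' y a)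

/-- [TS] at `w`: no one-sided local piece at the vertices which cross an edge -/
def TSp (S : SyQ H V) (w : S.X) : Prop := ∀ y n, S.K.ar n y → w ∈ S.J y → w ∈ S.J n →
  (∃ u, S.D.G.Adj w u ∧ u ∈ S.J y) → S.TSat w y n

variable {S : SyQ H V}

/-- the corners of the raw slice at a vertex over `w` -/
theorem k0_cor_iff (hc : S.Conn) (hnb : S.NB) {w : S.X} {y : S.NV w} {s t : S.SV w} :
    (S.k0 hc w).Cor s (Sum.inl y) t ↔
      ∃ a b, S.K.Cor a y.1 b ∧ S.rho w a = s ∧ S.rho w b = t ∧ s ≠ t := by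
  constructor
  · intro h
    obtain ⟨e, he⟩ := (S.k0 hc w).cor_LE.1 h
    have e1 : (S.k0 hc w).c1 e = Sum.inl y := by
      rcases he with ⟨-, h, -⟩ | ⟨-, h, -⟩ <;> exact h
    obtain ⟨k0, k1, k2⟩ := bkq_v hc e1
    have hne : (S.k0 hc w).c0 e ≠ (S.k0 hc w).c2 e := by
      rw [k0, k2]
      exact (bkq_vis hc hnb e e1).1.2
    rcases he with ⟨e0, -, e2⟩ | ⟨e0, -, e2⟩
    · refine ⟨S.K.c0 (bkq hc e), S.K.c2 (bkq hc e), ?_, ?_, ?_, ?_⟩
      · exact S.K.cor_LE.2 ⟨bkq hc e, Or.inl ⟨rfl, k1, rfl⟩⟩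
      · exact k0.symm.trans e0
      · exact k2.symm.trans e2
      · rw [← e0, ← e2]
        exact hne
    · refine ⟨S.K.c2 (bkq hc e), S.K.c0 (bkq hc e), ?_, ?_, ?_, ?_⟩
      · exact S.K.cor_LE.2 ⟨bkq hc e, Or.inr ⟨rfl, k1, rfl⟩⟩
      · exact k2.symm.trans e2
      · exact k0.symm.trans e0
      · rw [← e0, ← e2]
        exact hne.symm
  · rintro ⟨a, b, h, rfl, rfl, hne⟩
    obtain ⟨e, he⟩ := S.K.cor_LE.1 h
    have hv : e ∈ S.vsq w := by
      rcases he with ⟨e0, e1, e2⟩ | ⟨e0, e1, e2⟩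
      · refine ⟨by rw [e1]; exact y.2, ?_⟩
        rw [e0, e2]
        exact hne
      · refine ⟨by rw [e1]; exact y.2, ?_⟩
        rw [e0, e2]
        exact hne.symm
    obtain ⟨e', -, k0, k1, k2⟩ := exists_lift hc hnb hv
    refine (S.k0 hc w).cor_LE.2 ⟨e', ?_⟩
    rcases he with ⟨e0, e1, e2⟩ | ⟨e0, e1, e2⟩
    · left
      refine ⟨?_, ?_, ?_⟩
      · rw [k0, e0]
      · rw [k1]; exact congrArg Sum.inl (Subtype.ext e1)
      · rw [k2, e2]
    · right
      refine ⟨?_, ?_, ?_⟩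
      · rw [k0, e0]
      · rw [k1]; exact congrArg Sum.inl (Subtype.ext e1)
      · rw [k2, e2]

/-- the private poles of the raw slice -/
theorem PV_pol_iff (hc : S.Conn) (hnb : S.NB) {w : S.X} {y n : S.NV w} {d : S.SV w} :
    (S.k0 hc w).PV (PN.pol (Sum.inl y) d ((S.k0 hc w).Pc (Sum.inl y) (Sum.inl n))) ↔
      (S.k0 hc w).ar (Sum.inl y) d ∧ ∃ n' : S.NV w, S.K.ar n'.1 y.1 ∧ S.LIJ w y.1 n.1 n'.1 ∧
        (S.k0 hc w).Cor d (Sum.inl y) (Sum.inl n') := by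
  constructor
  · rintro ⟨h1, m, h2, h3, h4⟩
    obtain ⟨m', rfl, h5⟩ := ar_to_inl hc h2
    exact ⟨h1, m', h5, (ij_inl hc hnb).1 (GX.Pc_eq.1 h4), h3⟩
  · rintro ⟨h1, n', h2, h3, h4⟩
    exact ⟨h1, Sum.inl n', (ar_inl hc).2 h2, h4, GX.Pc_eq.2 ((ij_inl hc hnb).2 h3)⟩

theorem lij_mem {w : S.X} {y a b : V} (h : S.LIJ w y a b) : w ∈ S.J a ↔ w ∈ S.J b := by
  induction h with
  | rel a b h => exact ⟨fun _ => h.2.2.2, fun _ => h.2.2.1⟩
  | refl a => exact Iff.rfl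
  | symm a b _ ih => exact ih.symm
  | trans a b c _ _ i1 i2 => exact i1.trans i2

theorem lij_ar {w : S.X} {y a b : V} (h : S.LIJ w y a b) : S.K.ar a y ↔ S.K.ar b y := by
  induction h with
  | rel a b h => exact ⟨fun _ => h.1.2.2, fun _ => h.1.2.1⟩
  | refl a => exact Iff.rfl
  | symm a b _ ih => exact ih.symm
  | trans a b c _ _ i1 i2 => exact i1.trans i2

/-- [TS] in terms of the private poles of the raw slice -/
theorem TSat_iff (hc : S.Conn) (hnb : S.NB) {w : S.X} {y n : S.NV w} (hn : S.K.ar n.1 y.1) :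
    S.TSat w y.1 n.1 ↔ ∀ d, (S.k0 hc w).ar (Sum.inl y) d →
      (S.k0 hc w).PV (PN.pol (Sum.inl y) d ((S.k0 hc w).Pc (Sum.inl y) (Sum.inl n))) := by
  constructor
  · rintro ⟨h1, h2⟩ d hd
    rw [PV_pol_iff hc hnb]
    refine ⟨hd, ?_⟩
    have hd' : S.SAr w (Sum.inl y) d := hd
    cases hd' with
    | hor _ a h =>
      obtain ⟨n', h3, h4⟩ := h2 a.1 h a.2
      have hn' := (lij_mem h3).1 n.2
      refine ⟨⟨n', hn'⟩, (lij_ar h3).1 hn, h3, ?_⟩
      rw [k0_cor_iff hc hnb]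
      refine ⟨a.1, n', h4.symm, S.rho_near a.2, S.rho_near hn', ?_⟩
      intro hh
      have h5 : a.1 = n' := congrArg Subtype.val (Sum.inl.inj hh)
      have h7 := S.K.ar_rk _ _ ((lij_ar h3).1 hn)
      rw [h5] at h
      exact absurd (S.K.ar_rk _ _ h) (not_lt.2 h7.le)
    | up _ u h =>
      obtain ⟨n', m, h3, h4, h5⟩ := h1 u.1 u.2 h
      have hn' := (lij_mem h3).1 n.2
      refine ⟨⟨n', hn'⟩, (lij_ar h3).1 hn, h3, ?_⟩
      rw [k0_cor_iff hc hnb]
      refine ⟨m, n', h4.symm, S.rho_bey u.2 h5, S.rho_near hn', ?_⟩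
      intro h
      cases h
  · intro h
    constructor
    · intro u hu hy
      have hd : (S.k0 hc w).ar (Sum.inl y) (Sum.inr ⟨u, hu⟩) := SAr.up _ _ hy
      obtain ⟨-, n', -, h3, h4⟩ := (PV_pol_iff hc hnb).1 (h _ hd)
      obtain ⟨a, b, h5, h6, h7, -⟩ := (k0_cor_iff hc hnb).1 h4
      have h8 := rho_inl h7
      subst h8
      exact ⟨n'.1, a, h3, h5.symm, rho_inr h6⟩
    · intro a ha hw
      have hd : (S.k0 hc w).ar (Sum.inl y) (Sum.inl ⟨a, hw⟩) := SAr.hor _ _ ha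
      obtain ⟨-, n', -, h3, h4⟩ := (PV_pol_iff hc hnb).1 (h _ hd)
      obtain ⟨b, c, h5, h6, h7, -⟩ := (k0_cor_iff hc hnb).1 h4
      have h8 := rho_inl h7
      have h9 := rho_inl h6
      subst h8 h9
      exact ⟨n'.1, h3, h5.symm⟩

end SyQ

end Pool.Agent.DI
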