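import Pool.Agent.DI.IslA
import Pool.Agent.DI.TSd

/-!
# Lemma VIS, part 3 (owner: helper64)

`Ivs.of`: `v` with `J v = {w}` is invisible at `w` if no cell at `v` has a further vertex over `w` besides
its neighbours. `Ivs.false`: `v` invisible, `S.TSp w` (no one-sided local piece), one orbit of crossing
corners at the poles of `v`: no pentagon is centred at `w`.
-/

namespace Pool.Agent.DI

open MulAction
open Pool.Agent.SAF (InC orbs FinOrb oc Decomp SAn SA Conv hull dist_edge FinOrb_iff exists_next)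
open Pool.Agent.BT (PX PQ JS bey exits)
open Pool.Agent.BT.TA

namespace SyQ

variable {H V : Type} [Group H] [MulAction H V] {S : SyQ H V}

theorem mem_nb {w : S.X} {v x : V} (hJ : S.J v = {w}) (h : S.K.E x v) : w ∈ S.J x := by
  obtain ⟨p, p0, p1⟩ := S.one_ex h
  rwa [ne_mem hJ p1] at p0

/-- no cell at `v` has a further vertex over `w` -/
theorem Ivs.of {w : S.X} {v : V} (hJ : S.J v = {w})
    (h5 : ∀ x y z t, Qn S.P x v y z t → w ∉ S.J z ∧ w ∉ S.J t)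
    (h4 : ∀ x y z, Q4 S.P x v y z → w ∉ S.J z) : S.Ivs w v := by
  refine ⟨hJ, ?_, ?_⟩
  · intro x y z t hq
    obtain ⟨hz, ht⟩ := h5 x y z t hq
    have hx : w ∈ S.J x := mem_nb hJ hq.E1
    have hy : w ∈ S.J y := mem_nb hJ hq.E2.symm
    have hd := S.dir_far hq.E4 hz ht
    have ha := S.dir_adj hz
    have hbt := S.dir_bey ht
    have hcx := S.dir_cross hq.E5.symm hx ht
    rw [← hd] at hbt hcx
    exact ⟨S.dir w z, ha, ⟨hx, hcx⟩, ⟨hy, S.dir_cross hq.E3 hy hz⟩, S.dir_bey hz, hbt⟩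
  · intro x y z hq
    have hz := h4 x y z hq
    have hx : w ∈ S.J x := mem_nb hJ hq.E1
    have hy : w ∈ S.J y := mem_nb hJ hq.E2.symm
    exact ⟨S.dir w z, S.dir_adj hz, ⟨hx, S.dir_cross hq.E4.symm hx hz⟩,
      ⟨hy, S.dir_cross hq.E3 hy hz⟩, S.dir_bey hz⟩

/-- a pentagon at `v` is centred at `w` iff it has a further vertex over `w` -/
theorem isC_of_nb {w : S.X} {v x y z t : V} (hJ : S.J v = {w}) (hq : Qn S.P x v y z t)
    (h : w ∈ S.J z ∨ w ∈ S.J t) : S.IsC ![x, v, y, z, t] w := by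
  have hv : w ∈ S.J v := by rw [hJ]; rfl
  have hx : w ∈ S.J x := mem_nb hJ hq.E1
  have hy : w ∈ S.J y := mem_nb hJ hq.E2.symm
  intro k
  fin_cases k
  · exact Or.inl hx
  · exact Or.inl hv
  · exact Or.inl hy
  · exact h
  · exact Or.inr hx

/-- `TSp` in the form of `TSa` -/
theorem TSp.tsa (hc : S.Conn) (hnb : S.NB) {w : S.X} (h : S.TSp w) {y : V}
    (hy : ∃ u, S.D.G.Adj w u ∧ u ∈ S.J y) : S.TSa hc w y := by
  intro hwy n hn d hd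
  exact (TSat_iff hc hnb (y := ⟨y, hwy⟩) hn).1 (h y n.1 hn hwy n.2 hy) d hd

/-- LEMMA VIS -/
theorem Ivs.vh (hc : S.Conn) (hnb : S.NB) {w : S.X} {v : V} (h : S.Ivs w v) (hTS : S.TSp w)
    (cel : ∀ x, S.K.E x v → ∃ y, S.K.Cor x v y)
    (uq : ∀ a, S.K.ar v a → ∀ u, S.D.G.Adj w u → u ∈ S.J a → S.UqV w u a)
    (int : ∀ a, S.K.ar v a → ∃ u1 u2, S.D.G.Adj w u1 ∧ S.D.G.Adj w u2 ∧ u1 ≠ u2 ∧ u1 ∈ S.J a ∧
      u2 ∈ S.J a) : S.Vhyp hc w v := by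
  refine ⟨h, cel, ?_, uq, int⟩
  intro x hx
  apply hTS.tsa hc hnb
  obtain ⟨y, hy⟩ := cel x hx
  obtain ⟨w', h1, h2, -⟩ := h.crs hy
  exact ⟨w', h1, h2.2⟩

/-- LEMMA VIS -/
theorem Ivs.false (hc : S.Conn) (hnb : S.NB) {w : S.X} {v : V} (h : S.Ivs w v) (hTS : S.TSp w)
    (cel : ∀ x, S.K.E x v → ∃ y, S.K.Cor x v y)
    (uq : ∀ a, S.K.ar v a → ∀ u, S.D.G.Adj w u → u ∈ S.J a → S.UqV w u a)
    (int : ∀ a, S.K.ar v a → ∃ u1 u2, S.D.G.Adj w u1 ∧ S.D.G.Adj w u2 ∧ u1 ≠ u2 ∧ u1 ∈ S.J a ∧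
      u2 ∈ S.J a) {g : H} {i : S.K.I} (hi : ¬ S.P.sq i) (hI : S.IsC (S.tr g i) w) : False :=
  (h.vh hc hnb hTS cel uq int).no_cen hi hI

/-- LEMMA VIS with two poles -/
theorem Ivs.false2 (hc : S.Conn) (hnb : S.NB) {w : S.X} {v : V} (h : S.Ivs w v) (hTS : S.TSp w)
    (cel : ∀ x, S.K.E x v → ∃ y, S.K.Cor x v y) {a b : V} (hp : ∀ c, S.K.ar v c → c = a ∨ c = b)
    {u1 u2 : S.X} (h1 : S.D.G.Adj w u1) (h2 : S.D.G.Adj w u2) (hne : u1 ≠ u2)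
    (a1 : u1 ∈ S.J a) (a2 : u2 ∈ S.J a) (b1 : u1 ∈ S.J b) (b2 : u2 ∈ S.J b)
    (uqa : ∀ u, S.D.G.Adj w u → u ∈ S.J a → S.UqV w u a)
    (uqb : ∀ u, S.D.G.Adj w u → u ∈ S.J b → S.UqV w u b)
    {g : H} {i : S.K.I} (hi : ¬ S.P.sq i) (hI : S.IsC (S.tr g i) w) : False := by
  refine h.false hc hnb hTS cel ?_ ?_ hi hI
  · intro c hcv
    rcases hp c hcv with rfl | rfl
    · exact uqa
    · exact uqb
  · intro c hcv
    rcases hp c hcv with rfl | rfl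
    · exact ⟨u1, u2, h1, h2, hne, a1, a2⟩
    · exact ⟨u1, u2, h1, h2, hne, b1, b2⟩

end SyQ

end Pool.Agent.DI
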