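import Pool.Agent.DI.IslB
import Pool.Agent.DI.Hr3
import Pool.Agent.DI.Psv

/-!
# Lemma VIS, part 4 (owner: helper64)

`Ivs.of_int`: the slice at `w` is minimal, `v → a, b` over `w`, `a` and `b` cross `w u` and `w u'`, the
link of `v` is connected, no local square at `v`: `v` is invisible at `w`. `dq_false`: with `S.TSp w` and one
orbit of crossing corners at `a` and `b` this is impossible.
-/

namespace Pool.Agent.DI

open MulAction
open Pool.Agent.SAF (InC orbs FinOrb oc Decomp SAn SA Conv hull dist_edge FinOrb_iff exists_next)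
open Pool.Agent.BT (PX PQ JS bey exits)
open Pool.Agent.BT.TA

namespace SyQ

variable {H V : Type} [Group H] [MulAction H V] {S : SyQ H V}

/-- `v → a, b`, the poles cross two edges at `w` -/
structure Int2 (S : SyQ H V) (w u u' : S.X) (v a b : V) : Prop where
  hw : w ∈ S.J v
  va : S.K.ar v a
  vb : S.K.ar v b
  ab : a ≠ b
  hu : S.D.G.Adj w u
  hu' : S.D.G.Adj w u'
  ne : u ≠ u'
  au : S.Cs w u a
  au' : S.Cs w u' a
  bu : S.Cs w u b
  bu' : S.Cs w u' b

/-- no local square at `v` -/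
def NoS (S : SyQ H V) (w : S.X) (v : V) : Prop :=
  ∀ x y z, Q4 S.P x v y z → w ∈ S.J x → w ∈ S.J y → w ∈ S.J z → False

variable {w u u' : S.X} {v a b : V}

theorem Int2.J (h : S.Int2 w u u' v a b) : S.J v = {w} :=
  J_hub h.va h.vb h.ab h.hw h.au.1 h.bu.1

theorem Int2.pole (h : S.Int2 w u u' v a b) {x : V} (hx : S.K.ar v x) : x = a ∨ x = b := by
  rcases S.K.two v a b x h.va h.vb hx with k | k | k
  · exact absurd k h.ab
  · exact Or.inr k.symm
  · exact Or.inl k.symm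

/-- the edges which are crossed by a neighbour of `v` -/
theorem Int2.edge (h : S.Int2 w u u' v a b) {x : V} (hx : S.K.E x v)
    (hc : S.Cs w u x ∨ S.Cs w u' x) {u1 : S.X} (h1 : S.D.G.Adj w u1) (k1 : S.Cs w u1 x) :
    u1 = u ∨ u1 = u' := by
  rcases hx with hx | hx
  · -- a page
    rcases hc with hc | hc
    · rcases two' hc.1 (ex_pol hx h.hw) (ex_edg h.hu hc.2) (ex_edg h1 k1.2) with e | e | e
      · cases e
      · cases e
      · exact Or.inl (Sum.inr.inj e).symm
    · rcases two' hc.1 (ex_pol hx h.hw) (ex_edg h.hu' hc.2) (ex_edg h1 k1.2) with e | e | e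
      · cases e
      · cases e
      · exact Or.inr (Sum.inr.inj e).symm
  · have hb : S.Cs w u x ∧ S.Cs w u' x := by
      rcases h.pole hx with rfl | rfl
      · exact ⟨h.au, h.au'⟩
      · exact ⟨h.bu, h.bu'⟩
    rcases two' hb.1.1 (ex_edg h.hu hb.1.2) (ex_edg h.hu' hb.2.2) (ex_edg h1 k1.2) with e | e | e
    · exact absurd (Sum.inr.inj e) h.ne
    · exact Or.inl (Sum.inr.inj e).symm
    · exact Or.inr (Sum.inr.inj e).symm

/-- HAIR: no centred pentagon passes `x v` -/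
theorem Int2.hair (h : S.Int2 w u u' v a b) {hc : S.Conn} (hm : (S.k0 hc w).Min) {x : V}
    (hx : S.K.E x v) (hcr : S.Cs w u x ∨ S.Cs w u' x) : ¬ S.RP w x v := by
  intro hr
  rcases hx with hx | hx
  · rcases hcr with hcr | hcr
    · exact (rp_hub hm h.hw h.va h.vb h.ab h.hu h.au h.bu hx hcr).1 hr
    · exact (rp_hub hm h.hw h.va h.vb h.ab h.hu' h.au' h.bu' hx hcr).1 hr
  · have k := rp_int hm h.hw h.va h.vb h.ab h.hu h.hu' h.ne h.au h.au' h.bu h.bu'
    rcases h.pole hx with rfl | rfl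
    · exact k.1 hr.symm
    · exact k.2 hr.symm

theorem RP.of_nb (hJ : S.J v = {w}) {x y z t : V} (hq : Qn S.P x v y z t)
    (k : w ∈ S.J z ∨ w ∈ S.J t) : S.RP w x v :=
  ⟨y, z, t, hq, isC_of_nb hJ hq k⟩

/-- every neighbour of `v` crosses one of the two edges -/
theorem Int2.cross (h : S.Int2 w u u' v a b) {hc : S.Conn} (hm : (S.k0 hc w).Min)
    (hL : S.K.LC v) (hN : S.NoS w v) {x : V} (hx : S.K.E x v) :
    S.Cs w u x ∨ S.Cs w u' x := by
  have hJ := h.J
  have step : ∀ x y, S.K.Cor x v y → (S.Cs w u x ∨ S.Cs w u' x) →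
      (S.Cs w u y ∨ S.Cs w u' y) := by
    intro x y hco hcx
    have fin : ∀ u1, S.D.G.Adj w u1 → S.Cs w u1 x → S.Cs w u1 y →
        (S.Cs w u y ∨ S.Cs w u' y) := by
      intro u1 h1 k1 k2
      rcases h.edge hco.E1.symm hcx h1 k1 with rfl | rfl
      · exact Or.inl k2
      · exact Or.inr k2
    rcases corC hco with ⟨z, t, hq⟩ | ⟨z, hq⟩
    · have hwx : w ∈ S.J x := mem_nb hJ hq.E1
      have hwy : w ∈ S.J y := mem_nb hJ hq.E2.symm
      by_cases hz : w ∈ S.J z
      · exact absurd (RP.of_nb hJ hq (Or.inl hz)) (h.hair hm hq.E1 hcx)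
      · by_cases ht : w ∈ S.J t
        · exact absurd (RP.of_nb hJ hq (Or.inr ht)) (h.hair hm hq.E1 hcx)
        · have hd := S.dir_far hq.E4 hz ht
          have hcx' := S.dir_cross hq.E5.symm hwx ht
          rw [← hd] at hcx'
          exact fin _ (S.dir_adj hz) ⟨hwx, hcx'⟩ ⟨hwy, S.dir_cross hq.E3 hwy hz⟩
    · have hwx : w ∈ S.J x := mem_nb hJ hq.E1
      have hwy : w ∈ S.J y := mem_nb hJ hq.E2.symm
      by_cases hz : w ∈ S.J z
      · exact (hN x y z hq hwx hwy hz).elim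
      · exact fin _ (S.dir_adj hz) ⟨hwx, S.dir_cross hq.E4.symm hwx hz⟩
          ⟨hwy, S.dir_cross hq.E3 hwy hz⟩
  have key : ∀ x y, S.K.LJ v x y →
      ((S.Cs w u x ∨ S.Cs w u' x) ↔ (S.Cs w u y ∨ S.Cs w u' y)) := by
    intro x y k
    induction k with
    | rel x y k => exact ⟨step _ _ k, step _ _ k.symm⟩
    | refl x => exact Iff.rfl
    | symm x y _ ih => exact ih.symm
    | trans x y z _ _ i1 i2 => exact i1.trans i2
  exact (key a x (hL a x (Or.inl h.va) hx.symm)).1 (Or.inl h.au)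

/-- `v` IS INVISIBLE -/
theorem Ivs.of_int (h : S.Int2 w u u' v a b) {hc : S.Conn} (hm : (S.k0 hc w).Min)
    (hL : S.K.LC v) (hN : S.NoS w v) : S.Ivs w v := by
  have hJ := h.J
  refine Ivs.of hJ ?_ ?_
  · intro x y z t hq
    have hcx := h.cross hm hL hN hq.E1
    have k := h.hair hm hq.E1 hcx
    exact ⟨fun hz => k (RP.of_nb hJ hq (Or.inl hz)), fun ht => k (RP.of_nb hJ hq (Or.inr ht))⟩
  · intro x y z hq hz
    exact hN x y z hq (mem_nb hJ hq.E1) (mem_nb hJ hq.E2.symm) hz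

/-- every edge at `v` is in a cell -/
theorem Int2.cel (h : S.Int2 w u u' v a b) (hL : S.K.LC v) {x : V} (hx : S.K.E x v) :
    ∃ y, S.K.Cor x v y := by
  have key : ∀ x y, S.K.LJ v x y → x = y ∨ ((∃ z, S.K.Cor x v z) ∧ ∃ z, S.K.Cor y v z) := by
    intro x y k
    induction k with
    | rel x y k => exact Or.inr ⟨⟨y, k⟩, ⟨x, k.symm⟩⟩
    | refl x => exact Or.inl rfl
    | symm x y _ ih =>
      rcases ih with e | e
      · exact Or.inl e.symm
      · exact Or.inr ⟨e.2, e.1⟩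
    | trans x y z _ _ i1 i2 =>
      rcases i1 with rfl | i1
      · exact i2
      · rcases i2 with rfl | i2
        · exact Or.inr i1
        · exact Or.inr ⟨i1.1, i2.2⟩
  by_cases e : x = a
  · subst e
    rcases key _ _ (hL x b (Or.inl h.va) (Or.inl h.vb)) with k | k
    · exact absurd k h.ab
    · exact k.1
  · rcases key _ _ (hL x a hx.symm (Or.inl h.va)) with k | k
    · exact absurd k e
    · exact k.1

/-- LEMMA VIS for an interior soft -/
theorem Int2.false (h : S.Int2 w u u' v a b) (hc : S.Conn) (hnb : S.NB) (hwm : S.WMin w)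
    (hL : S.K.LC v) (hN : S.NoS w v) (hTS : S.TSp w)
    (uqa : ∀ u, S.D.G.Adj w u → u ∈ S.J a → S.UqV w u a)
    (uqb : ∀ u, S.D.G.Adj w u → u ∈ S.J b → S.UqV w u b)
    {i : S.K.I} (hi : ¬ S.P.sq i) : False := by
  have hIv := Ivs.of_int h (k0_min hc hwm) hL hN
  obtain ⟨g, hg⟩ := isC_of hc hwm 1 hi
  have hI : S.IsC (S.tr g⁻¹ i) w := by
    have h1 := (S.isC_smul g⁻¹ 1 i (g • w)).2 hg
    rwa [inv_smul_smul, mul_one] at h1
  exact hIv.false2 hc hnb hTS (fun x hx => h.cel hL hx) (fun c hc => h.pole hc) h.hu h.hu' h.ne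
    h.au.2 h.au'.2 h.bu.2 h.bu'.2 uqa uqb hi hI

/-- VIS (b): an element of `H_w` which fixes `v` and `a` fixes the edges at `w` which are crossed by `a`, if
one orbit of crossing corners at `a` and `b` follows from a reflection -/
theorem Int2.fix (h : S.Int2 w u u' v a b) (hc : S.Conn) (hnb : S.NB) (hwm : S.WMin w)
    (hL : S.K.LC v) (hN : S.NoS w v) (hTS : S.TSp w)
    {i : S.K.I} (hi : ¬ S.P.sq i) {g : H} (gw : g • w = w) (gv : g • v = v) (ga : g • a = a)
    (huq : g • u ≠ u → (∀ u, S.D.G.Adj w u → u ∈ S.J a → S.UqV w u a) ∧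
      ∀ u, S.D.G.Adj w u → u ∈ S.J b → S.UqV w u b) : g • u = u := by
  by_contra hne
  obtain ⟨k1, k2⟩ := huq hne
  exact h.false hc hnb hwm hL hN hTS k1 k2 hi

/-- two diamonds over two edges -/
theorem Dia.int2 {q a : V} (h1 : S.Dia w u q) (h2 : S.Dia w u' q) (hne : u ≠ u')
    (ha : S.K.ar q a) : ∃ b, S.Int2 w u u' q a b := by
  obtain ⟨hw, c, d, hcd, hc, hd, -⟩ := id h1
  have key : ∀ b, S.K.ar q b → b ≠ a → ∃ b, S.Int2 w u u' q a b := fun b hb hba =>
    ⟨b, hw, ha, hb, hba.symm, (h1.two ha).1, (h2.two ha).1, hne, (h1.two ha).2, (h2.two ha).2,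
      (h1.two hb).2, (h2.two hb).2⟩
  by_cases e : c = a
  · exact key d hd (fun k => hcd (e.trans k.symm))
  · exact key c hc e

end SyQ

end Pool.Agent.DI
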