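import Pool.Agent.DI.K0d
import Pool.Agent.DI.CutX
import Pool.Agent.DI.Count

/-!
# Corners and links of the unfolded slice

`Sys.k0_cor_iff`: all corners of `S.k0 hc w`. `Sys.k0_cor_x`: the link of `x@w` is the image of the
link of `x` under `rho w` (corners with both ends beyond the same edge disappear). `Sys.k0_cor_t`: the
link of the sink of an edge is the wall. `Sys.k0_LC`: the links of the slice are connected.
-/

namespace Pool.Agent.DI

open MulAction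
open Pool.Agent.SAF (InC orbs FinOrb oc Decomp SAn SA Conv hull dist_edge FinOrb_iff exists_next)
open Pool.Agent.BT (PX PQ JS bey exits lz lz_self lz_ne lz_symm x_next_unique)
open Pool.Agent.BT.TA

/-! ### corners of lists -/

theorem CC5 {V : Type} {a v b : V} (f : Fin 5 → V) :
    CC a v b (f 0) [f 1, f 2, f 3, f 4, f 0] ↔
      ∃ k : Fin 5, a = f k ∧ v = f (k + 1) ∧ b = f (k + 2) := by
  have h : CC a v b (f 0) [f 1, f 2, f 3, f 4, f 0] ↔ (a = f 0 ∧ v = f 1 ∧ b = f 2) ∨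
      (a = f 1 ∧ v = f 2 ∧ b = f 3) ∨ (a = f 2 ∧ v = f 3 ∧ b = f 4) ∨
      (a = f 3 ∧ v = f 4 ∧ b = f 0) ∨ (a = f 4 ∧ v = f 0 ∧ b = f 1) := by
    show (_ ∨ _ ∨ _ ∨ _ ∨ _ ∨ False) ↔ _
    rw [or_false]
  rw [h]
  constructor
  · rintro (h | h | h | h | h)
    · exact ⟨0, h⟩
    · exact ⟨1, h⟩
    · exact ⟨2, h⟩
    · exact ⟨3, h⟩
    · exact ⟨4, h⟩
  · rintro ⟨k, h⟩
    fin_cases k
    · exact Or.inl h
    · exact Or.inr (Or.inl h)
    · exact Or.inr (Or.inr (Or.inl h))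
    · exact Or.inr (Or.inr (Or.inr (Or.inl h)))
    · exact Or.inr (Or.inr (Or.inr (Or.inr h)))

theorem CC4 {V : Type} {a v b x0 x1 x2 x3 : V} :
    CC a v b x0 [x1, x2, x3, x0] ↔ (a = x0 ∧ v = x1 ∧ b = x2) ∨ (a = x1 ∧ v = x2 ∧ b = x3) ∨
      (a = x2 ∧ v = x3 ∧ b = x0) ∨ (a = x3 ∧ v = x0 ∧ b = x1) := by
  show (_ ∨ _ ∨ _ ∨ _ ∨ False) ↔ _
  rw [or_false]

section

variable {H V : Type} [Group H] [MulAction H V] {K : GX H V} (P : Pt K)

/-- the corners of a complex with pentagons only -/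
theorem Pt.cor_iff {a v b : V} : K.Cor a v b ↔ ∃ y z, Pn P a v b y z := by
  have e5 : ∀ (i : K.I) (h : H), K.tb i h = h • P.pt i 0 ∧ K.tw i h = [h • P.pt i 1,
      h • P.pt i 2, h • P.pt i 3, h • P.pt i 4, h • P.pt i 0] := by
    intro i h
    unfold GX.tb GX.tw
    rw [P.cb_eq, P.cw_eq]
    exact ⟨rfl, rfl⟩
  constructor
  · rintro ⟨i, h, hh | hh⟩
    · rw [(e5 i h).1, (e5 i h).2] at hh
      obtain ⟨k, h1, h2, h3⟩ := (CC5 (fun j => h • P.pt i j)).1 hh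
      exact ⟨_, _, h, i, k, Or.inl ⟨h1, h2, h3, rfl, rfl⟩⟩
    · rw [(e5 i h).1, (e5 i h).2] at hh
      obtain ⟨k, h1, h2, h3⟩ := (CC5 (fun j => h • P.pt i j)).1 hh
      exact ⟨_, _, h, i, k, Or.inr ⟨h1, h2, h3, rfl, rfl⟩⟩
  · rintro ⟨y, z, h, i, k, ⟨h1, h2, h3, -, -⟩ | ⟨h1, h2, h3, -, -⟩⟩
    · refine ⟨i, h, Or.inl ?_⟩
      rw [(e5 i h).1, (e5 i h).2]
      exact (CC5 (fun j => h • P.pt i j)).2 ⟨k, h1, h2, h3⟩
    · refine ⟨i, h, Or.inr ?_⟩
      rw [(e5 i h).1, (e5 i h).2]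
      exact (CC5 (fun j => h • P.pt i j)).2 ⟨k, h1, h2, h3⟩

end

namespace Sys

variable {H V : Type} [Group H] [MulAction H V] {S : Sys H V}

/-! ### centres and squares -/

variable (S) in
/-- `w` is the centre of the closed walk -/
def Ce (w : S.X) (a q b y z : V) : Prop := (w ∈ S.J a ∨ w ∈ S.J q) ∧ (w ∈ S.J q ∨ w ∈ S.J b) ∧
  (w ∈ S.J b ∨ w ∈ S.J y) ∧ (w ∈ S.J y ∨ w ∈ S.J z) ∧ (w ∈ S.J z ∨ w ∈ S.J a)

theorem ce_iff {w : S.X} {a q b y z : V} : S.Ce w a q b y z ↔ S.IsC ![a, q, b, y, z] w := by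
  constructor
  · rintro ⟨h0, h1, h2, h3, h4⟩ k
    fin_cases k
    exacts [h0, h1, h2, h3, h4]
  · intro h
    exact ⟨h 0, h 1, h 2, h 3, h 4⟩

theorem Ce.symm {w : S.X} {a q b y z : V} (h : S.Ce w a q b y z) : S.Ce w b q a z y :=
  ⟨h.2.1.symm, h.1.symm, h.2.2.2.2.symm, h.2.2.2.1.symm, h.2.2.1.symm⟩

theorem Ce.rot {w : S.X} {a q b y z : V} (h : S.Ce w a q b y z) : S.Ce w q b y z a :=
  ⟨h.2.1, h.2.2.1, h.2.2.2.1, h.2.2.2.2, h.1⟩

theorem Ce.smul (g : H) {w : S.X} {a q b y z : V} (h : S.Ce w a q b y z) :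
    S.Ce (g • w) (g • a) (g • q) (g • b) (g • y) (g • z) := by
  have e : ∀ x, w ∈ S.J x → g • w ∈ S.J (g • x) := fun x => S.js.smul g x w
  exact ⟨h.1.imp (e _) (e _), h.2.1.imp (e _) (e _), h.2.2.1.imp (e _) (e _),
    h.2.2.2.1.imp (e _) (e _), h.2.2.2.2.imp (e _) (e _)⟩

theorem Sq.symm {w u : S.X} {v0 v1 v2 v3 v4 : V} (h : S.Sq w u v0 v1 v2 v3 v4) :
    S.Sq w u v2 v1 v0 v4 v3 :=
  ⟨h.1, h.2.2.1, h.2.1, h.2.2.2.1, h.2.2.2.2.2, h.2.2.2.2.1⟩

/-- the edges of a pentagon -/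
theorem Pn.EE {a q b y z : V} (h : Pn S.P a q b y z) (k : Fin 5) :
    S.K.E (![a, q, b, y, z] k) (![a, q, b, y, z] (k + 1)) := by
  fin_cases k
  · exact h.E1
  · exact h.E2
  · exact h.E3
  · exact h.E4
  · exact h.E5

/-- a centred pentagon in terms of the list -/
theorem ce_tr {w : S.X} {h : H} {i : S.K.I} (k : Fin 5) : S.IsC (S.tr h i) w ↔
    S.Ce w (S.tr h i k) (S.tr h i (k + 1)) (S.tr h i (k + 2)) (S.tr h i (k + 3))
      (S.tr h i (k + 4)) := by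
  have e4 : ∀ k : Fin 5, k + 4 + 1 = k := by decide
  have a2 : k + 1 + 1 = k + 2 := by rw [add_assoc]; rfl
  have a3 : k + 2 + 1 = k + 3 := by rw [add_assoc]; rfl
  have a4 : k + 3 + 1 = k + 4 := by rw [add_assoc]; rfl
  constructor
  · intro hh
    have h1 := hh (k + 1)
    have h2 := hh (k + 2)
    have h3 := hh (k + 3)
    have h4 := hh (k + 4)
    rw [a2] at h1
    rw [a3] at h2
    rw [a4] at h3
    rw [e4] at h4
    exact ⟨hh k, h1, h2, h3, h4⟩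
  · rintro ⟨h0, h1, h2, h3, h4⟩ j
    obtain ⟨m, rfl⟩ : ∃ m, j = k + m := ⟨j - k, (add_sub_cancel k j).symm⟩
    fin_cases m
    · show w ∈ S.J (S.tr h i (k + 0)) ∨ w ∈ S.J (S.tr h i (k + 0 + 1))
      rw [add_zero]
      exact h0
    · show w ∈ S.J (S.tr h i (k + 1)) ∨ w ∈ S.J (S.tr h i (k + 1 + 1))
      rw [a2]
      exact h1
    · show w ∈ S.J (S.tr h i (k + 2)) ∨ w ∈ S.J (S.tr h i (k + 2 + 1))
      rw [a3]
      exact h2
    · show w ∈ S.J (S.tr h i (k + 3)) ∨ w ∈ S.J (S.tr h i (k + 3 + 1))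
      rw [a4]
      exact h3
    · show w ∈ S.J (S.tr h i (k + 4)) ∨ w ∈ S.J (S.tr h i (k + 4 + 1))
      rw [e4]
      exact h4

/-- A PENTAGON AT A VERTEX OVER `w`: centred at `w`, or a zero square with apex `x`, `a` or `b`, or both
neighbours are beyond the same edge -/
theorem corner_cases {w : S.X} {a x b y z : V} (hp : Pn S.P a x b y z) (hx : w ∈ S.J x) :
    S.Ce w a x b y z ∨ ∃ u, S.Sq w u a x b y z ∨ S.Sq w u x a z y b ∨ S.Sq w u x b y z a ∨
      (S.D.G.Adj w u ∧ S.Cs w u x ∧ S.J a ⊆ bey S.D.G w u ∧ S.J b ⊆ bey S.D.G w u) := by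
  by_cases hce : S.Ce w a x b y z
  · exact Or.inl hce
  right
  have hw : ¬ S.IsC ![a, x, b, y, z] w := fun h => hce (ce_iff.2 h)
  obtain ⟨u, hu, h⟩ := S.off_cases (v := ![a, x, b, y, z]) (Pn.EE hp) hw
  refine ⟨u, ?_⟩
  rcases h with ⟨k, hk⟩ | h
  · fin_cases k
    · exact Or.inl hk
    · exact Or.inr (Or.inr (Or.inl hk))
    · exact absurd hx (S.not_mem_of_bey hu hk.2.2.2.2.2)
    · exact absurd hx (S.not_mem_of_bey hu hk.2.2.2.2.1)
    · exact Or.inr (Or.inl (Sq.symm hk))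
  · rcases h 1 with ⟨h1, h2, h3⟩ | h1
    · refine Or.inr (Or.inr (Or.inr ⟨hu, h1, ?_, ?_⟩))
      · have h3' : S.rho w a = Sum.inr ⟨u, hu⟩ := h3
        by_cases ha : w ∈ S.J a
        · rw [S.rho_near ha] at h3'
          cases h3'
        · rw [S.rho_far ha] at h3'
          have e : S.dir w a = u := congrArg Subtype.val (Sum.inr.inj h3')
          have := S.dir_bey ha
          rwa [e] at this
      · have h2' : S.rho w b = Sum.inr ⟨u, hu⟩ := h2
        by_cases hb : w ∈ S.J b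
        · rw [S.rho_near hb] at h2'
          cases h2'
        · rw [S.rho_far hb] at h2'
          have e : S.dir w b = u := congrArg Subtype.val (Sum.inr.inj h2')
          have := S.dir_bey hb
          rwa [e] at this
    · have h1' : S.rho w x = Sum.inr ⟨u, hu⟩ := h1
      rw [S.rho_near hx] at h1'
      cases h1'

/-! ### corners of the slice -/

theorem k0_real (hc : S.Conn) {w : S.X} {a q b y z : V} (hp : Pn S.P a q b y z)
    (h : S.Ce w a q b y z) : (S.k0 hc w).Cor (S.rho w a) (S.rho w q) (S.rho w b) := by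
  obtain ⟨g, i, k, hh⟩ := hp
  have key : ∀ g : H, S.IsC (S.tr g i) w → CC (S.rho w (S.tr g i k)) (S.rho w (S.tr g i (k + 1)))
      (S.rho w (S.tr g i (k + 2))) (S.rho w (S.tr g i 0)) [S.rho w (S.tr g i 1),
        S.rho w (S.tr g i 2), S.rho w (S.tr g i 3), S.rho w (S.tr g i 4),
        S.rho w (S.tr g i 0)] := by
    intro g _
    exact (CC5 (fun j => S.rho w (S.tr g i j))).2 ⟨k, rfl, rfl, rfl⟩
  have key2 : S.IsC (S.tr g i) w → ∃ (c : (S.k0 hc w).I) (l : ↥(stabilizer H w)),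
      CC (S.rho w (S.tr g i k)) (S.rho w (S.tr g i (k + 1)))
      (S.rho w (S.tr g i (k + 2))) ((S.k0 hc w).tb c l) ((S.k0 hc w).tw c l) := by
    intro hI
    let c : S.C5 w := ⟨i, g, hI⟩
    have h1 : S.IsC (S.tr g i) ((g * c.g⁻¹) • w) := by
      have := (S.isC_smul (g * c.g⁻¹) c.g i w).2 c.isC
      rwa [inv_mul_cancel_right] at this
    have hmem : (g * c.g⁻¹) • w = w := S.isC_unique (S.tr_E g i) h1 hI
    refine ⟨Sum.inl c, ⟨g * c.g⁻¹, hmem⟩, ?_⟩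
    have e : ∀ j, (⟨g * c.g⁻¹, hmem⟩ : ↥(stabilizer H w)) • S.rho w (S.tr c.g i j) =
        S.rho w (S.tr g i j) := by
      intro j
      rw [← S.rho_smul]
      show S.rho w ((g * c.g⁻¹) • c.g • S.P.pt i j) = S.rho w (g • S.P.pt i j)
      rw [smul_smul, inv_mul_cancel_right]
    have eb : (S.k0 hc w).tb (Sum.inl c) ⟨g * c.g⁻¹, hmem⟩ = S.rho w (S.tr g i 0) := e 0
    have ew : (S.k0 hc w).tw (Sum.inl c) ⟨g * c.g⁻¹, hmem⟩ = [S.rho w (S.tr g i 1),
        S.rho w (S.tr g i 2), S.rho w (S.tr g i 3), S.rho w (S.tr g i 4),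
        S.rho w (S.tr g i 0)] := by
      show [_, _, _, _, _] = _
      rw [← e 1, ← e 2, ← e 3, ← e 4, ← e 0]
    rw [eb, ew]
    exact key g hI
  rcases hh with ⟨h1, h2, h3, h4, h5⟩ | ⟨h1, h2, h3, h4, h5⟩
  · have hI : S.IsC (S.tr g i) w := by
      rw [ce_tr k]
      subst h1 h2 h3 h4 h5
      exact h
    obtain ⟨c, l, hcc⟩ := key2 hI
    refine ⟨c, l, Or.inl ?_⟩
    rw [h1, h2, h3]
    exact hcc
  · have hI : S.IsC (S.tr g i) w := by
      rw [ce_tr k]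
      subst h1 h2 h3 h4 h5
      exact h.symm
    obtain ⟨c, l, hcc⟩ := key2 hI
    refine ⟨c, l, Or.inr ?_⟩
    rw [h1, h2, h3]
    exact hcc

/-- the four corners of a zero square -/
theorem k0_sq (hc : S.Conn) {w u : S.X} {a q b y z : V} (hp : Pn S.P a q b y z)
    (h : S.Sq w u a q b y z) :
    (S.k0 hc w).Cor (S.rho w a) (S.rho w q) (S.rho w b) ∧
    (S.k0 hc w).Cor (S.rho w q) (S.rho w b) (S.rho w y) ∧
    (S.k0 hc w).Cor (S.rho w b) (S.rho w y) (S.rho w a) ∧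
    (S.k0 hc w).Cor (S.rho w y) (S.rho w a) (S.rho w q) := by
  obtain ⟨g, i, k, hh⟩ := hp
  have key2 : S.Sq w u (S.tr g i k) (S.tr g i (k + 1)) (S.tr g i (k + 2)) (S.tr g i (k + 3))
      (S.tr g i (k + 4)) → ∃ (c : (S.k0 hc w).I) (l : ↥(stabilizer H w)),
      (S.k0 hc w).tb c l = S.rho w (S.tr g i k) ∧
      (S.k0 hc w).tw c l = [S.rho w (S.tr g i (k + 1)), S.rho w (S.tr g i (k + 2)),
        S.rho w (S.tr g i (k + 3)), S.rho w (S.tr g i k)] := by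
    intro hk
    have hq : ∃ u', S.Sq (g⁻¹ • w) u' (S.P.pt i k) (S.P.pt i (k + 1)) (S.P.pt i (k + 2))
        (S.P.pt i (k + 3)) (S.P.pt i (k + 4)) := by
      refine ⟨g⁻¹ • u, ?_⟩
      have := hk.smul g⁻¹
      simp only [tr, inv_smul_smul] at this
      exact this
    let c : S.C4 w := ⟨(i, k, g⁻¹ • w), ⟨g, smul_inv_smul g w⟩, hq⟩
    have hgs : c.g • g⁻¹ • w = w := c.g_smul
    have hmem : (g * c.g⁻¹) • w = w := by
      have h3 : c.g⁻¹ • w = g⁻¹ • w := inv_smul_eq_iff.2 hgs.symm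
      rw [mul_smul, h3, smul_inv_smul]
    refine ⟨Sum.inr c, ⟨g * c.g⁻¹, hmem⟩, ?_⟩
    have e : ∀ j, (⟨g * c.g⁻¹, hmem⟩ : ↥(stabilizer H w)) • S.rho w (S.tr c.g i j) =
        S.rho w (S.tr g i j) := by
      intro j
      rw [← S.rho_smul]
      show S.rho w ((g * c.g⁻¹) • c.g • S.P.pt i j) = S.rho w (g • S.P.pt i j)
      rw [smul_smul, inv_mul_cancel_right]
    refine ⟨e k, ?_⟩
    rw [← e k, ← e (k + 1), ← e (k + 2), ← e (k + 3)]
    rfl
  rcases hh with ⟨h1, h2, h3, h4, h5⟩ | ⟨h1, h2, h3, h4, h5⟩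
  · have hk : S.Sq w u (S.tr g i k) (S.tr g i (k + 1)) (S.tr g i (k + 2)) (S.tr g i (k + 3))
        (S.tr g i (k + 4)) := by
      subst h1 h2 h3 h4 h5
      exact h
    obtain ⟨c, l, hb, hw⟩ := key2 hk
    rw [h1, h2, h3, h4]
    refine ⟨⟨c, l, Or.inl ?_⟩, ⟨c, l, Or.inl ?_⟩, ⟨c, l, Or.inl ?_⟩, ⟨c, l, Or.inl ?_⟩⟩ <;>
      rw [hb, hw, CC4]
    · exact Or.inl ⟨rfl, rfl, rfl⟩
    · exact Or.inr (Or.inl ⟨rfl, rfl, rfl⟩)
    · exact Or.inr (Or.inr (Or.inl ⟨rfl, rfl, rfl⟩))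
    · exact Or.inr (Or.inr (Or.inr ⟨rfl, rfl, rfl⟩))
  · have hk : S.Sq w u (S.tr g i k) (S.tr g i (k + 1)) (S.tr g i (k + 2)) (S.tr g i (k + 3))
        (S.tr g i (k + 4)) := by
      subst h1 h2 h3 h4 h5
      exact h.symm
    obtain ⟨c, l, hb, hw⟩ := key2 hk
    -- `y` and `z` have the same image
    have hyz : S.rho w y = S.rho w z := by
      rw [S.rho_bey h.1 h.2.2.2.2.1, S.rho_bey h.1 h.2.2.2.2.2]
    rw [hyz, h1, h2, h3, h4]
    refine ⟨⟨c, l, Or.inr ?_⟩, ⟨c, l, Or.inr ?_⟩, ⟨c, l, Or.inr ?_⟩, ⟨c, l, Or.inr ?_⟩⟩ <;>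
      rw [hb, hw, CC4]
    · exact Or.inl ⟨rfl, rfl, rfl⟩
    · exact Or.inr (Or.inr (Or.inr ⟨rfl, rfl, rfl⟩))
    · exact Or.inr (Or.inr (Or.inl ⟨rfl, rfl, rfl⟩))
    · exact Or.inr (Or.inl ⟨rfl, rfl, rfl⟩)

/-- ALL CORNERS OF THE SLICE -/
theorem k0_cor_iff (hc : S.Conn) {w : S.X} {A B C : S.SV w} : (S.k0 hc w).Cor A B C ↔
    ∃ a q b y z, Pn S.P a q b y z ∧
      ((S.Ce w a q b y z ∧ A = S.rho w a ∧ B = S.rho w q ∧ C = S.rho w b) ∨
      ∃ u, S.Sq w u a q b y z ∧ ((A = S.rho w a ∧ B = S.rho w q ∧ C = S.rho w b) ∨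
        (A = S.rho w q ∧ B = S.rho w b ∧ C = S.rho w y) ∨
        (A = S.rho w b ∧ B = S.rho w y ∧ C = S.rho w a) ∨
        (A = S.rho w y ∧ B = S.rho w a ∧ C = S.rho w q))) := by
  have e4 : ∀ k : Fin 5, k + 4 + 1 = k := by decide
  -- one direction of the cells
  have key : ∀ (c : (S.k0 hc w).I) (l : ↥(stabilizer H w)) (A B C : S.SV w),
      CC A B C ((S.k0 hc w).tb c l) ((S.k0 hc w).tw c l) →
      ∃ a q b y z, Pn S.P a q b y z ∧
      ((S.Ce w a q b y z ∧ A = S.rho w a ∧ B = S.rho w q ∧ C = S.rho w b) ∨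
      ∃ u, S.Sq w u a q b y z ∧ ((A = S.rho w a ∧ B = S.rho w q ∧ C = S.rho w b) ∨
        (A = S.rho w q ∧ B = S.rho w b ∧ C = S.rho w y) ∨
        (A = S.rho w b ∧ B = S.rho w y ∧ C = S.rho w a) ∨
        (A = S.rho w y ∧ B = S.rho w a ∧ C = S.rho w q))) := by
    rintro (i | p) l A B C h
    · have e : ∀ j, l • S.rho w (S.tr i.g i.1 j) = S.rho w (S.tr (l.1 * i.g) i.1 j) := by
        intro j
        rw [← S.rho_smul]
        show S.rho w (l.1 • i.g • S.P.pt i.1 j) = S.rho w ((l.1 * i.g) • S.P.pt i.1 j)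
        rw [smul_smul]
      have eb : (S.k0 hc w).tb (Sum.inl i) l = S.rho w (S.tr (l.1 * i.g) i.1 0) := e 0
      have ew : (S.k0 hc w).tw (Sum.inl i) l = [S.rho w (S.tr (l.1 * i.g) i.1 1),
          S.rho w (S.tr (l.1 * i.g) i.1 2), S.rho w (S.tr (l.1 * i.g) i.1 3),
          S.rho w (S.tr (l.1 * i.g) i.1 4), S.rho w (S.tr (l.1 * i.g) i.1 0)] := by
        show [_, _, _, _, _] = _
        rw [← e 1, ← e 2, ← e 3, ← e 4, ← e 0]
      rw [eb, ew] at h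
      obtain ⟨k, h1, h2, h3⟩ := (CC5 (fun j => S.rho w (S.tr (l.1 * i.g) i.1 j))).1 h
      have hI : S.IsC (S.tr (l.1 * i.g) i.1) w := by
        have := (S.isC_smul l.1 i.g i.1 w).2 i.isC
        have hw : l.1 • w = w := l.2
        rwa [hw] at this
      exact ⟨_, _, _, _, _, Pn_pt (l.1 * i.g) i.1 k, Or.inl ⟨(ce_tr k).1 hI, h1, h2, h3⟩⟩
    · have e : ∀ j, l • S.rho w (S.tr p.g p.1.1 j) = S.rho w (S.tr (l.1 * p.g) p.1.1 j) := by
        intro j
        rw [← S.rho_smul]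
        show S.rho w (l.1 • p.g • S.P.pt p.1.1 j) = S.rho w ((l.1 * p.g) • S.P.pt p.1.1 j)
        rw [smul_smul]
      have eb : (S.k0 hc w).tb (Sum.inr p) l = S.rho w (S.tr (l.1 * p.g) p.1.1 p.1.2.1) :=
        e p.1.2.1
      have ew : (S.k0 hc w).tw (Sum.inr p) l =
          [S.rho w (S.tr (l.1 * p.g) p.1.1 (p.1.2.1 + 1)),
          S.rho w (S.tr (l.1 * p.g) p.1.1 (p.1.2.1 + 2)),
          S.rho w (S.tr (l.1 * p.g) p.1.1 (p.1.2.1 + 3)),
          S.rho w (S.tr (l.1 * p.g) p.1.1 p.1.2.1)] := by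
        show [_, _, _, _] = _
        rw [← e (p.1.2.1 + 1), ← e (p.1.2.1 + 2), ← e (p.1.2.1 + 3), ← e p.1.2.1]
      rw [eb, ew, CC4] at h
      have hs : S.Sq w (l.1 • p.u) (S.tr (l.1 * p.g) p.1.1 p.1.2.1)
          (S.tr (l.1 * p.g) p.1.1 (p.1.2.1 + 1)) (S.tr (l.1 * p.g) p.1.1 (p.1.2.1 + 2))
          (S.tr (l.1 * p.g) p.1.1 (p.1.2.1 + 3)) (S.tr (l.1 * p.g) p.1.1 (p.1.2.1 + 4)) := by
        have h1 := p.sq.smul l.1
        have hw : l.1 • w = w := l.2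
        rw [hw] at h1
        have e2 : ∀ j, l.1 • S.tr p.g p.1.1 j = S.tr (l.1 * p.g) p.1.1 j :=
          fun j => (mul_smul _ _ _).symm
        rw [e2, e2, e2, e2, e2] at h1
        exact h1
      exact ⟨_, _, _, _, _, Pn_pt (l.1 * p.g) p.1.1 p.1.2.1, Or.inr ⟨_, hs, h⟩⟩
  constructor
  · rintro ⟨c, l, h | h⟩
    · exact key c l A B C h
    · obtain ⟨a, q, b, y, z, hp, h⟩ := key c l C B A h
      refine ⟨b, q, a, z, y, hp.symm, ?_⟩
      rcases h with ⟨h1, h2, h3, h4⟩ | ⟨u, h1, h2⟩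
      · exact Or.inl ⟨h1.symm, h4, h3, h2⟩
      · right
        have hyz : S.rho w y = S.rho w z := by
          rw [S.rho_bey h1.1 h1.2.2.2.2.1, S.rho_bey h1.1 h1.2.2.2.2.2]
        refine ⟨u, h1.symm, ?_⟩
        rw [← hyz]
        rcases h2 with ⟨h2, h3, h4⟩ | ⟨h2, h3, h4⟩ | ⟨h2, h3, h4⟩ | ⟨h2, h3, h4⟩
        · exact Or.inl ⟨h4, h3, h2⟩
        · exact Or.inr (Or.inr (Or.inr ⟨h4, h3, h2⟩))
        · exact Or.inr (Or.inr (Or.inl ⟨h4, h3, h2⟩))
        · exact Or.inr (Or.inl ⟨h4, h3, h2⟩)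
  · rintro ⟨a, q, b, y, z, hp, ⟨h, rfl, rfl, rfl⟩ | ⟨u, h, h'⟩⟩
    · exact k0_real hc hp h
    · obtain ⟨c1, c2, c3, c4⟩ := k0_sq hc hp h
      rcases h' with ⟨rfl, rfl, rfl⟩ | ⟨rfl, rfl, rfl⟩ | ⟨rfl, rfl, rfl⟩ | ⟨rfl, rfl, rfl⟩
      · exact c1
      · exact c2
      · exact c3
      · exact c4

variable (S) in
/-- both vertices are beyond the same edge at `w` -/
def Far2 (w : S.X) (a b : V) : Prop :=
  ∃ u, S.D.G.Adj w u ∧ S.J a ⊆ bey S.D.G w u ∧ S.J b ⊆ bey S.D.G w u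

theorem Far2.symm {w : S.X} {a b : V} (h : S.Far2 w a b) : S.Far2 w b a := by
  obtain ⟨u, h0, h1, h2⟩ := h
  exact ⟨u, h0, h2, h1⟩

theorem Far2.rho {w : S.X} {a b : V} (h : S.Far2 w a b) : S.rho w a = S.rho w b := by
  obtain ⟨u, h0, h1, h2⟩ := h
  rw [S.rho_bey h0 h1, S.rho_bey h0 h2]

/-- `rho a = inr u` -/
theorem rho_inr {w : S.X} {a : V} {u : S.EV w} (h : S.rho w a = Sum.inr u) :
    S.J a ⊆ bey S.D.G w u.1 := by
  by_cases ha : w ∈ S.J a
  · rw [S.rho_near ha] at h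
    cases h
  · rw [S.rho_far ha] at h
    have e := Sum.inr.inj h
    have := S.dir_bey ha
    rw [← e]
    exact this

/-- `rho a = inl x` -/
theorem rho_inl {w : S.X} {a : V} {x : S.NV w} (h : S.rho w a = Sum.inl x) : a = x.1 := by
  by_cases ha : w ∈ S.J a
  · rw [S.rho_near ha] at h
    exact congrArg Subtype.val (Sum.inl.inj h)
  · rw [S.rho_far ha] at h
    cases h

/-- vertices with the same image -/
theorem rho_eq {w : S.X} {a b : V} (h : S.rho w a = S.rho w b) : a = b ∨ S.Far2 w a b := by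
  rcases h' : S.rho w b with x | u
  · rw [h'] at h
    exact Or.inl ((rho_inl h).trans (rho_inl h').symm)
  · rw [h'] at h
    exact Or.inr ⟨u.1, u.2, rho_inr h, rho_inr h'⟩

/-- the neighbours of a vertex over `w` in a pentagon centred at `w` are not beyond the same edge -/
theorem Ce.not_far {w : S.X} {a x b y z : V} (hp : Pn S.P a x b y z) (h : S.Ce w a x b y z) :
    ¬ S.Far2 w a b := by
  rintro ⟨u, hu, ha, hb⟩
  have na : w ∉ S.J a := S.not_mem_of_bey hu ha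
  have nb : w ∉ S.J b := S.not_mem_of_bey hu hb
  have hy : w ∈ S.J y := h.2.2.1.resolve_left nb
  have hz : w ∈ S.J z := h.2.2.2.2.resolve_right na
  have cy : u ∈ S.J y := by
    have := S.dir_cross (w := w) hp.E3.symm hy nb
    rwa [S.dir_eq hu hb] at this
  have cz : u ∈ S.J z := by
    have := S.dir_cross (w := w) hp.E5 hz na
    rwa [S.dir_eq hu ha] at this
  exact S.not_both hu hp.E4 ⟨hy, cy⟩ ⟨hz, cz⟩

theorem not_far_side {w u : S.X} (hu : S.D.G.Adj w u) {q y : V} (hq : S.J q ⊆ bey S.D.G u w)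
    (hy : S.J y ⊆ bey S.D.G w u) : ¬ S.Far2 w q y := by
  rintro ⟨u', hu', h1, h2⟩
  obtain ⟨p, hp⟩ := S.js.ne y
  have e : u' = u := S.bey_unique hu' hu (h2 hp) (hy hp)
  subst e
  obtain ⟨p, hp⟩ := S.js.ne q
  exact bey_not (h1 hp) (hq hp)

theorem not_far_near {w : S.X} {a b : V} (ha : w ∈ S.J a) : ¬ S.Far2 w a b := by
  rintro ⟨u', hu', h1, h2⟩
  exact S.not_mem_of_bey hu' h1 ha

/-- THE LINK OF `x@w` IN THE UNFOLDED SLICE -/
theorem k0_cor_x (hc : S.Conn) {w : S.X} {x : V} (hx : w ∈ S.J x) {A C : S.SV w} :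
    (S.k0 hc w).Cor A (Sum.inl ⟨x, hx⟩) C ↔
      ∃ a b, S.K.Cor a x b ∧ ¬ S.Far2 w a b ∧ A = S.rho w a ∧ C = S.rho w b := by
  rw [k0_cor_iff hc]
  constructor
  · rintro ⟨a, q, b, y, z, hp, ⟨h, rfl, h2, rfl⟩ | ⟨u, h, h'⟩⟩
    · have e := rho_inl h2.symm
      subst e
      exact ⟨a, b, S.P.cor_iff.2 ⟨y, z, hp⟩, h.not_far hp, rfl, rfl⟩
    · rcases h' with ⟨rfl, h2, rfl⟩ | ⟨rfl, h2, rfl⟩ | ⟨rfl, h2, rfl⟩ | ⟨rfl, h2, rfl⟩
      · have e := rho_inl h2.symm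
        subst e
        exact ⟨a, b, S.P.cor_iff.2 ⟨y, z, hp⟩, not_far_near h.2.1.1, rfl, rfl⟩
      · have e := rho_inl h2.symm
        subst e
        exact ⟨q, y, S.P.cor_iff.2 ⟨z, a, hp.rot⟩, not_far_side h.1 h.2.2.2.1 h.2.2.2.2.1,
          rfl, rfl⟩
      · rw [S.rho_bey h.1 h.2.2.2.2.1] at h2
        cases h2
      · have e := rho_inl h2.symm
        subst e
        refine ⟨z, q, S.P.cor_iff.2 ⟨b, y, hp.rot.rot.rot.rot⟩,
          fun k => not_far_side h.1 h.2.2.2.1 h.2.2.2.2.2 k.symm, ?_, rfl⟩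
        rw [S.rho_bey h.1 h.2.2.2.2.1, S.rho_bey h.1 h.2.2.2.2.2]
  · rintro ⟨a, b, hcor, hf, rfl, rfl⟩
    obtain ⟨y, z, hp⟩ := S.P.cor_iff.1 hcor
    rw [← k0_cor_iff hc]
    have ex : S.rho w x = Sum.inl ⟨x, hx⟩ := S.rho_near hx
    rw [← ex]
    rcases corner_cases hp hx with h | ⟨u, h | h | h | h⟩
    · exact k0_real hc hp h
    · exact (k0_sq hc hp h).1
    · have h1 := (k0_sq hc (show Pn S.P x a z y b from hp.symm.rot) h).2.2.2
      have e : S.rho w y = S.rho w b := by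
        rw [S.rho_bey h.1 h.2.2.2.2.1, S.rho_bey h.1 h.2.2.2.2.2]
      rw [← e]
      exact h1.symm
    · have h1 := (k0_sq hc (show Pn S.P x b y z a from hp.rot) h).2.2.2
      have e : S.rho w z = S.rho w a := by
        rw [S.rho_bey h.1 h.2.2.2.2.1, S.rho_bey h.1 h.2.2.2.2.2]
      rw [← e]
      exact h1
    · exact absurd ⟨u, h.1, h.2.2.1, h.2.2.2⟩ hf

/-- a corner at the sink of an edge is a crossing pentagon -/
theorem k0_cor_t' (hc : S.Conn) {w : S.X} {u : S.EV w} {A C : S.SV w} :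
    (S.k0 hc w).Cor A (Sum.inr u) C ↔
      ∃ a b, S.PW w u.1 a b ∧ A = S.rho w a ∧ C = S.rho w b := by
  rw [k0_cor_iff hc]
  constructor
  · rintro ⟨a, q, b, y, z, hp, ⟨h, rfl, h2, rfl⟩ | ⟨u', h, h'⟩⟩
    · -- centred at `w`, `q` beyond `u`
      have hq := rho_inr h2.symm
      have nq : w ∉ S.J q := S.not_mem_of_bey u.2 hq
      have ha : w ∈ S.J a := h.1.resolve_right nq
      have hb : w ∈ S.J b := h.2.1.resolve_left nq
      have ca : S.Cs w u.1 a := by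
        refine ⟨ha, ?_⟩
        have := S.dir_cross (w := w) hp.E1 ha nq
        rwa [S.dir_eq u.2 hq] at this
      have cb : S.Cs w u.1 b := by
        refine ⟨hb, ?_⟩
        have := S.dir_cross (w := w) hp.E2.symm hb nq
        rwa [S.dir_eq u.2 hq] at this
      have hy : S.J y ⊆ bey S.D.G u.1 w := by
        rcases S.side_or u.2 (S.adj_nc u.2 hp.E3 cb) with k | k
        · exfalso
          have ny : w ∉ S.J y := S.not_mem_of_bey u.2 k
          have hz : w ∈ S.J z := h.2.2.2.1.resolve_left ny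
          have cz : S.Cs w u.1 z := by
            refine ⟨hz, ?_⟩
            have := S.dir_cross (w := w) hp.E4.symm hz ny
            rwa [S.dir_eq u.2 k] at this
          exact S.not_both u.2 hp.E5 cz ca
        · exact k
      have hz : S.J z ⊆ bey S.D.G u.1 w := by
        rcases S.side_or u.2 (S.adj_nc u.2 hp.E5.symm ca) with k | k
        · exfalso
          have nz : w ∉ S.J z := S.not_mem_of_bey u.2 k
          have hy' : w ∈ S.J y := h.2.2.2.1.resolve_right nz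
          have cy : S.Cs w u.1 y := by
            refine ⟨hy', ?_⟩
            have := S.dir_cross (w := w) hp.E4 hy' nz
            rwa [S.dir_eq u.2 k] at this
          exact S.not_both u.2 hp.E3 cb cy
        · exact k
      exact ⟨a, b, ⟨u.2, ca, cb, q, y, z, hp, Or.inl ⟨hq, hy, hz⟩⟩, rfl, rfl⟩
    · rcases h' with ⟨rfl, h2, rfl⟩ | ⟨rfl, h2, rfl⟩ | ⟨rfl, h2, rfl⟩ | ⟨rfl, h2, rfl⟩
      · -- `q` beyond `u`, `y` and `z` beyond `u'`
        have hq := rho_inr h2.symm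
        have nq : w ∉ S.J q := S.not_mem_of_bey u.2 hq
        have ca : S.Cs w u.1 a := by
          refine ⟨h.2.1.1, ?_⟩
          have := S.dir_cross (w := w) hp.E1 h.2.1.1 nq
          rwa [S.dir_eq u.2 hq] at this
        have cb : S.Cs w u.1 b := by
          refine ⟨h.2.2.1.1, ?_⟩
          have := S.dir_cross (w := w) hp.E2.symm h.2.2.1.1 nq
          rwa [S.dir_eq u.2 hq] at this
        have hne : u' ≠ u.1 := by
          rintro rfl
          obtain ⟨p, hp'⟩ := S.js.ne q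
          exact bey_not (hq hp') (h.2.2.2.1 hp')
        have hside : ∀ v : V, S.J v ⊆ bey S.D.G w u' → S.J v ⊆ bey S.D.G u.1 w := by
          intro v hv p hp'
          rcases bey_or S.D.tree u.2 p with k | k
          · exact absurd (S.bey_unique h.1 u.2 (hv hp') k) hne
          · exact k
        exact ⟨a, b, ⟨u.2, ca, cb, q, y, z, hp,
          Or.inl ⟨hq, hside y h.2.2.2.2.1, hside z h.2.2.2.2.2⟩⟩, rfl, rfl⟩
      · rw [S.rho_near h.2.2.1.1] at h2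
        cases h2
      · rw [S.rho_bey h.1 h.2.2.2.2.1] at h2
        have e : u = ⟨u', h.1⟩ := Sum.inr.inj h2
        subst e
        exact ⟨b, a, ⟨h.1, h.2.2.1, h.2.1, q, z, y, hp.symm,
          Or.inr ⟨h.2.2.2.1, h.2.2.2.2.2, h.2.2.2.2.1⟩⟩, rfl, rfl⟩
      · rw [S.rho_near h.2.1.1] at h2
        cases h2
  · rintro ⟨a, b, ⟨hu, ca, cb, q, y, z, hp, ⟨h1, h2, h3⟩ | ⟨h1, h2, h3⟩⟩, rfl, rfl⟩
    · -- `q` beyond `u`
      rw [← k0_cor_iff hc]
      have eq : S.rho w q = Sum.inr u := S.rho_bey hu h1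
      rw [← eq]
      by_cases hce : S.Ce w a q b y z
      · exact k0_real hc hp hce
      · have hw : ¬ S.IsC ![a, q, b, y, z] w := fun h => hce (ce_iff.2 h)
        obtain ⟨u', hu', h⟩ := S.off_cases (v := ![a, q, b, y, z]) (Pn.EE hp) hw
        have nq : w ∉ S.J q := S.not_mem_of_bey hu h1
        rcases h with ⟨k, hk⟩ | h
        · fin_cases k
          · exact (k0_sq hc hp hk).1
          · exact absurd hk.2.1.1 nq
          · exact absurd ca.1 (S.not_mem_of_bey hu' hk.2.2.2.2.1)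
          · exact absurd cb.1 (S.not_mem_of_bey hu' hk.2.2.2.2.2)
          · exact absurd cb.1 (S.not_mem_of_bey hu' hk.2.2.2.2.1)
        · have e1 : u' = u.1 := by
            rcases h 1 with ⟨h1', -, -⟩ | h1'
            · exact absurd h1'.1 nq
            · have h1'' : S.rho w q = Sum.inr ⟨u', hu'⟩ := h1'
              rw [eq] at h1''
              exact (congrArg Subtype.val (Sum.inr.inj h1'')).symm
          subst e1
          exfalso
          obtain ⟨p, hp'⟩ := S.js.ne y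
          rcases h 3 with ⟨h1', -, -⟩ | h1'
          · exact bey_not (h2 h1'.2) (bey_self hu)
          · exact bey_not (rho_inr (u := ⟨u.1, hu'⟩) h1' hp') (h2 hp')
    · rw [← k0_cor_iff hc]
      have hs : S.Sq w u.1 a q b y z := ⟨hu, ca, cb, h1, h2, h3⟩
      have ey : S.rho w y = Sum.inr u := S.rho_bey hu h2
      rw [← ey]
      exact (k0_sq hc hp hs).2.2.1.symm

/-- THE LINK OF THE SINK OF AN EDGE IS THE WALL -/
theorem k0_cor_t (hc : S.Conn) {w : S.X} {u : S.EV w} {a b : S.NV w} :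
    (S.k0 hc w).Cor (Sum.inl a) (Sum.inr u) (Sum.inl b) ↔ S.PW w u.1 a.1 b.1 := by
  rw [k0_cor_t' hc]
  constructor
  · rintro ⟨x, y, h, h1, h2⟩
    rw [rho_inl h1.symm, rho_inl h2.symm] at h
    exact h
  · intro h
    exact ⟨a.1, b.1, h, (S.rho_near a.2).symm, (S.rho_near b.2).symm⟩

/-- the neighbours of the sink of an edge -/
theorem k0_E_t (hc : S.Conn) {w : S.X} {u : S.EV w} {A : S.SV w} :
    (S.k0 hc w).E (Sum.inr u) A ↔ ∃ x : S.NV w, u.1 ∈ S.J x.1 ∧ A = Sum.inl x := by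
  constructor
  · rintro (h | h)
    · cases h
    · cases h with
      | up x _ e => exact ⟨x, e, rfl⟩
  · rintro ⟨x, e, rfl⟩
    exact Or.inr (SAr.up x u e)

/-- the neighbours of a vertex over `w` -/
theorem k0_E_x (hc : S.Conn) {w : S.X} {x : S.NV w} {A : S.SV w} :
    (S.k0 hc w).E (Sum.inl x) A ↔ (∃ a : S.NV w, S.K.E x.1 a.1 ∧ A = Sum.inl a) ∨
      ∃ u : S.EV w, u.1 ∈ S.J x.1 ∧ A = Sum.inr u := by
  constructor
  · rintro (h | h)
    · cases h with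
      | hor _ a e => exact Or.inl ⟨a, Or.inl e, rfl⟩
      | up _ u e => exact Or.inr ⟨u, e, rfl⟩
    · cases h with
      | hor a _ e => exact Or.inl ⟨a, Or.inr e, rfl⟩
  · rintro (⟨a, e | e, rfl⟩ | ⟨u, e, rfl⟩)
    · exact Or.inl (SAr.hor x a e)
    · exact Or.inr (SAr.hor a x e)
    · exact Or.inl (SAr.up x u e)

/-- the links of the sinks of edges are connected -/
theorem k0_LC_t (hc : S.Conn) {w : S.X} (u : S.EV w) : (S.k0 hc w).LC (Sum.inr u) := by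
  intro A C hA hC
  obtain ⟨a, ha, rfl⟩ := (k0_E_t hc).1 hA
  obtain ⟨b, hb, rfl⟩ := (k0_E_t hc).1 hC
  have key : ∀ x y, Relation.EqvGen (S.PW w u.1) x y → ∀ hx : w ∈ S.J x, ∀ hy : w ∈ S.J y,
      S.Cs w u.1 x → (S.k0 hc w).LJ (Sum.inr u) (Sum.inl ⟨x, hx⟩) (Sum.inl ⟨y, hy⟩) := by
    have cr : ∀ x y, Relation.EqvGen (S.PW w u.1) x y → (S.Cs w u.1 x ↔ S.Cs w u.1 y) := by
      intro x y k
      induction k with
      | rel a b k => exact ⟨fun _ => k.r, fun _ => k.l⟩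
      | refl a => exact Iff.rfl
      | symm a b _ ih => exact ih.symm
      | trans a b c _ _ i1 i2 => exact i1.trans i2
    intro x y k
    induction k with
    | rel x y k =>
      intro hx hy _
      exact Relation.EqvGen.rel _ _ ((k0_cor_t hc).2 k)
    | refl x => exact fun _ _ _ => Relation.EqvGen.refl _
    | symm x y k ih => exact fun hx hy h => (ih hy hx ((cr _ _ k).2 h)).symm
    | trans x y z k1 k2 ih1 ih2 =>
      intro hx hz h
      have hy := (cr _ _ k1).1 h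
      exact (ih1 hx hy.1 h).trans _ _ _ (ih2 hy.1 hz hy)
  exact key a.1 b.1 (hc.wall w u.1 u.2 a.1 b.1 ⟨a.2, ha⟩ ⟨b.2, hb⟩) a.2 b.2 ⟨a.2, ha⟩

/-- the map of the links -/
theorem k0_LJ (hc : S.Conn) {w : S.X} {x : V} (hx : w ∈ S.J x) {a b : V} (h : S.K.LJ x a b) :
    (S.k0 hc w).LJ (Sum.inl ⟨x, hx⟩) (S.rho w a) (S.rho w b) := by
  induction h with
  | rel a b h =>
    by_cases hf : S.Far2 w a b
    · rw [hf.rho]
      exact Relation.EqvGen.refl _
    · exact Relation.EqvGen.rel _ _ ((k0_cor_x hc hx).2 ⟨a, b, h, hf, rfl, rfl⟩)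
  | refl a => exact Relation.EqvGen.refl _
  | symm a b _ ih => exact ih.symm
  | trans a b c _ _ ih1 ih2 => exact ih1.trans _ _ _ ih2

variable (S) in
/-- `x` has a neighbour beyond every edge at `w` which it crosses -/
def NF (w : S.X) (x : V) : Prop := ∀ u, S.D.G.Adj w u → S.Cs w u x →
  ∃ n, S.K.E x n ∧ S.J n ⊆ bey S.D.G w u

/-- a vertex with an out-arrow has a neighbour beyond every edge which it crosses -/
theorem nf_of_ar {w : S.X} {x a : V} (h : S.K.ar x a) : S.NF w x := by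
  intro u hu hx
  obtain ⟨b, hb, hs⟩ := S.js.cross x ⟨a, h⟩ w u hu hx.1 hx.2
  exact ⟨b, Or.inl hb, hs⟩

/-- a vertex which is not alone on a wall has a neighbour beyond the edge -/
theorem far_of_two (hc : S.Conn) {w u : S.X} (hu : S.D.G.Adj w u) {x z : V} (hx : S.Cs w u x)
    (hz : S.Cs w u z) (hne : x ≠ z) : ∃ n, S.K.E x n ∧ S.J n ⊆ bey S.D.G w u := by
  have key : ∀ x z, Relation.EqvGen (S.PW w u) x z → x ≠ z →
      (∃ y, S.PW w u x y) ∧ ∃ y, S.PW w u z y := by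
    intro x z h
    induction h with
    | rel x y h => exact fun _ => ⟨⟨y, h⟩, ⟨x, h.symm'⟩⟩
    | refl x => exact fun h => absurd rfl h
    | symm x y _ ih => exact fun h => (ih (fun e => h e.symm)).symm
    | trans x y z h1 h2 ih1 ih2 =>
      intro hne
      by_cases e : x = y
      · subst e
        exact ih2 hne
      · by_cases e' : y = z
        · subst e'
          exact ih1 hne
        · exact ⟨(ih1 e).1, (ih2 e').2⟩
  obtain ⟨⟨y, h1, h2, h3, q, y', z', hp, h⟩, -⟩ := key x z (hc.wall w u hu x z hx hz) hne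
  rcases h with ⟨a1, -, -⟩ | ⟨-, -, a3⟩
  · exact ⟨q, hp.E1, a1⟩
  · exact ⟨z', hp.E5.symm, a3⟩

/-- all neighbours of `x@w` come from neighbours of `x` -/
theorem k0_nbr (hc : S.Conn) {w : S.X} {x : V} (hx : w ∈ S.J x) (hn : S.NF w x) {A : S.SV w}
    (h : (S.k0 hc w).E (Sum.inl ⟨x, hx⟩) A) : ∃ a, S.K.E x a ∧ A = S.rho w a := by
  rcases (k0_E_x hc).1 h with ⟨a, e, rfl⟩ | ⟨u, e, rfl⟩
  · exact ⟨a.1, e, (S.rho_near a.2).symm⟩
  · obtain ⟨n, hn, hs⟩ := hn u.1 u.2 ⟨hx, e⟩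
    exact ⟨n, hn, (S.rho_bey u.2 hs).symm⟩

/-- neighbours of `x` go to neighbours of `x@w` -/
theorem k0_nbr' (hc : S.Conn) {w : S.X} {x : V} (hx : w ∈ S.J x) {a : V} (h : S.K.E x a) :
    (S.k0 hc w).E (Sum.inl ⟨x, hx⟩) (S.rho w a) := by
  have := S.rho_step' h (Or.inl hx)
  rw [S.rho_near hx] at this
  exact this

/-- the links of the slice are connected -/
theorem k0_LC_x (hc : S.Conn) {w : S.X} {x : V} (hx : w ∈ S.J x) (hn : S.NF w x)
    (hl : S.K.LC x) : (S.k0 hc w).LC (Sum.inl ⟨x, hx⟩) := by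
  intro A C hA hC
  obtain ⟨a, ha, rfl⟩ := k0_nbr hc hx hn hA
  obtain ⟨b, hb, rfl⟩ := k0_nbr hc hx hn hC
  exact k0_LJ hc hx (hl a b ha hb)

end Sys

end Pool.Agent.DI
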