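import Pool.Agent.DI.K0L
import Pool.Agent.DI.Lk

/-!
# The corners of the unfolded slice by positions

`S.vis w`: the corners of `S.K` at a vertex over `w` whose ends are not beyond the same edge (visible
corners). `S.crs w`: the corners with both ends crossing the same edge at `w`. `S.visE`: the visible
corners are the corners of `S.k0 hc w` at the vertices `inl x`. `S.crsE`: the crossing corners are the
corners of `S.k0 hc w` at the vertices `inr u`.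
-/

namespace Pool.Agent.DI

open MulAction
open Pool.Agent.SAF (InC orbs FinOrb oc Decomp SAn SA Conv hull dist_edge FinOrb_iff exists_next)
open Pool.Agent.BT (PX PQ JS bey exits lz lz_self lz_ne lz_symm x_next_unique)
open Pool.Agent.BT.TA

/-! ### positions of a complex with pentagons only -/

section

variable {H V : Type} [Group H] [MulAction H V] {K : GX H V} (P : Pt K)

include P in
theorem Pt.klen_eq (i : K.I) : K.len i = 5 := by
  unfold GX.len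
  rw [P.cw_eq]
  rfl

theorem Pt.kvx_eq (i : K.I) (j : Fin 5) : K.vx i j = P.pt i j := by
  have h : K.vx i j = (K.cb i :: K.cw i).getD j (K.cb i) :=
    K.vx_of_lt (by rw [P.klen_eq]; exact j.2)
  rw [h, P.cb_eq, P.cw_eq]
  fin_cases j <;> rfl

theorem Pt.vx_add (i : K.I) (j m : Fin 5) : K.vx i ((j : ℕ) + (m : ℕ)) = P.pt i (j + m) := by
  rw [← P.kvx_eq, ← K.vx_mod, P.klen_eq, Fin.val_add]

/-- the corners of a complex with pentagons only -/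
def Pt.le : K.LE ≃ (K.I × Fin 5) × H where
  toFun e := ((e.1.1, Fin.cast (P.klen_eq e.1.1) e.1.2), e.2)
  invFun e := (⟨e.1.1, Fin.cast (P.klen_eq e.1.1).symm e.1.2⟩, e.2)
  left_inv _ := rfl
  right_inv _ := rfl

theorem Pt.le_smul (g : H) (e : K.LE) : P.le (g • e) = ((P.le e).1, g * (P.le e).2) := rfl

theorem Pt.c0 (e : K.LE) : K.c0 e = (P.le e).2 • P.pt (P.le e).1.1 (P.le e).1.2 :=
  congrArg (fun x => (P.le e).2 • x) (P.kvx_eq (P.le e).1.1 (P.le e).1.2)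

theorem Pt.c1 (e : K.LE) : K.c1 e = (P.le e).2 • P.pt (P.le e).1.1 ((P.le e).1.2 + 1) :=
  congrArg (fun x => (P.le e).2 • x) (P.vx_add (P.le e).1.1 (P.le e).1.2 1)

theorem Pt.c2 (e : K.LE) : K.c2 e = (P.le e).2 • P.pt (P.le e).1.1 ((P.le e).1.2 + 2) :=
  congrArg (fun x => (P.le e).2 • x) (P.vx_add (P.le e).1.1 (P.le e).1.2 2)

end

namespace Sys

variable {H V : Type} [Group H] [MulAction H V] {S : Sys H V}

/-! ### uniqueness of the apex -/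

theorem Sq.cen_bey {w u : S.X} {h : H} {i : S.K.I} {k : Fin 5}
    (hs : S.Sq w u (S.tr h i k) (S.tr h i (k + 1)) (S.tr h i (k + 2)) (S.tr h i (k + 3))
      (S.tr h i (k + 4))) {c : S.X} (hc : S.IsC (S.tr h i) c) : c ∈ bey S.D.G w u := by
  have h1 := hc (k + 3)
  have e : k + 3 + 1 = k + 4 := by rw [add_assoc]; rfl
  rw [e] at h1
  rcases h1 with h1 | h1
  · exact hs.2.2.2.2.1 h1
  · exact hs.2.2.2.2.2 h1

theorem Sq.not_isC {w u : S.X} {h : H} {i : S.K.I} {k : Fin 5}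
    (hs : S.Sq w u (S.tr h i k) (S.tr h i (k + 1)) (S.tr h i (k + 2)) (S.tr h i (k + 3))
      (S.tr h i (k + 4))) : ¬ S.IsC (S.tr h i) w := by
  intro hc
  exact bey_not (hs.cen_bey hc) (bey_self hs.1.symm)

theorem exists_isC (h : H) (i : S.K.I) : ∃ c, S.IsC (S.tr h i) c := by
  obtain ⟨c, hc⟩ := S.cen (S.tr_E h i)
  exact ⟨c, hc⟩

theorem Sq.apex_unique {w u u' : S.X} {h : H} {i : S.K.I} {k k' : Fin 5}
    (hs : S.Sq w u (S.tr h i k) (S.tr h i (k + 1)) (S.tr h i (k + 2)) (S.tr h i (k + 3))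
      (S.tr h i (k + 4)))
    (hs' : S.Sq w u' (S.tr h i k') (S.tr h i (k' + 1)) (S.tr h i (k' + 2)) (S.tr h i (k' + 3))
      (S.tr h i (k' + 4))) : k = k' ∧ u = u' := by
  obtain ⟨c, hc⟩ := exists_isC (S := S) h i
  have hu : u = u' := S.bey_unique hs.1 hs'.1 (hs.cen_bey hc) (hs'.cen_bey hc)
  subst hu
  refine ⟨?_, rfl⟩
  -- the apex is the only vertex on the side of `w`
  have key : ∀ m : Fin 5, S.J (S.tr h i (k + m)) ⊆ bey S.D.G u w → m = 1 := by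
    intro m hm
    fin_cases m
    · exfalso
      have h0 : S.J (S.tr h i k) ⊆ bey S.D.G u w := by
        have : k + ((0 : Fin 5)) = k := add_zero k
        rw [← this]
        exact hm
      exact bey_not (h0 hs.2.1.2) (bey_self hs.1)
    · rfl
    · exfalso
      exact bey_not ((show S.J (S.tr h i (k + 2)) ⊆ bey S.D.G u w from hm) hs.2.2.1.2)
        (bey_self hs.1)
    · exfalso
      obtain ⟨p, hp⟩ := S.js.ne (S.tr h i (k + 3))
      exact bey_not (hs.2.2.2.2.1 hp) ((show S.J (S.tr h i (k + 3)) ⊆ bey S.D.G u w from hm) hp)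
    · exfalso
      obtain ⟨p, hp⟩ := S.js.ne (S.tr h i (k + 4))
      exact bey_not (hs.2.2.2.2.2 hp) ((show S.J (S.tr h i (k + 4)) ⊆ bey S.D.G u w from hm) hp)
  have h1 := hs'.2.2.2.1
  have e : k' + 1 = k + (k' + 1 - k) := (add_sub_cancel k (k' + 1)).symm
  rw [e] at h1
  have h2 := key _ h1
  have h3 : k' = k := by
    have : k' + 1 = k + 1 := by rw [e, h2]
    exact add_right_cancel this
  exact h3.symm

/-! ### visible corners -/

variable (S) in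
/-- the corners of `K` at a vertex over `w` which are not collapsed -/
def vis (w : S.X) : SubMulAction ↥(stabilizer H w) S.K.LE where
  carrier := {e | w ∈ S.J (S.K.c1 e) ∧ ¬ S.Far2 w (S.K.c0 e) (S.K.c2 e)}
  smul_mem' g e he := by
    have hw : g.1 • w = w := g.2
    have e0 : S.K.c0 (g • e) = g.1 • S.K.c0 e := S.K.c0_smul g.1 e
    have e1 : S.K.c1 (g • e) = g.1 • S.K.c1 e := S.K.c1_smul g.1 e
    have e2 : S.K.c2 (g • e) = g.1 • S.K.c2 e := S.K.c2_smul g.1 e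
    show w ∈ S.J (S.K.c1 (g • e)) ∧ ¬ S.Far2 w (S.K.c0 (g • e)) (S.K.c2 (g • e))
    rw [e0, e1, e2]
    refine ⟨?_, ?_⟩
    · have := S.js.smul g.1 _ _ he.1
      rwa [hw] at this
    · rintro ⟨u, h1, h2, h3⟩
      apply he.2
      refine ⟨g.1⁻¹ • u, ?_, ?_, ?_⟩
      · have := S.D.adj_smul g.1⁻¹ _ _ h1
        rwa [inv_smul_eq_iff.2 hw.symm] at this
      · have := S.sub_bey_smul g.1⁻¹ h2
        rwa [inv_smul_eq_iff.2 hw.symm, inv_smul_smul] at this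
      · have := S.sub_bey_smul g.1⁻¹ h3
        rwa [inv_smul_eq_iff.2 hw.symm, inv_smul_smul] at this

/-! ### the vertices of the corners of the slice -/

theorem k0_len5 (hc : S.Conn) {w : S.X} (c : S.C5 w) : (S.k0 hc w).len (Sum.inl c) = 5 := rfl

theorem k0_len4 (hc : S.Conn) {w : S.X} (p : S.C4 w) : (S.k0 hc w).len (Sum.inr p) = 4 := rfl

theorem k0_vx5 (hc : S.Conn) {w : S.X} (c : S.C5 w) (j m : Fin 5) :
    (S.k0 hc w).vx (Sum.inl c) ((j : ℕ) + (m : ℕ)) = S.rho w (S.tr c.g c.1 (j + m)) := by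
  have key : ∀ j : Fin 5, (S.k0 hc w).vx (Sum.inl c) (j : ℕ) = S.rho w (S.tr c.g c.1 j) := by
    intro j
    have h : (S.k0 hc w).vx (Sum.inl c) (j : ℕ) =
        ((S.k0 hc w).cb (Sum.inl c) :: (S.k0 hc w).cw (Sum.inl c)).getD j
          ((S.k0 hc w).cb (Sum.inl c)) := (S.k0 hc w).vx_of_lt j.2
    rw [h]
    fin_cases j <;> rfl
  rw [← key, ← (S.k0 hc w).vx_mod, k0_len5, Fin.val_add]

/-- the vertices of a zero square -/
noncomputable def sq4 {w : S.X} (p : S.C4 w) : Fin 4 → S.SV w :=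
  ![S.rho w (S.tr p.g p.1.1 p.1.2.1), S.rho w (S.tr p.g p.1.1 (p.1.2.1 + 1)),
    S.rho w (S.tr p.g p.1.1 (p.1.2.1 + 2)), S.rho w (S.tr p.g p.1.1 (p.1.2.1 + 3))]

theorem k0_vx4 (hc : S.Conn) {w : S.X} (p : S.C4 w) (j m : Fin 4) :
    (S.k0 hc w).vx (Sum.inr p) ((j : ℕ) + (m : ℕ)) = sq4 p (j + m) := by
  have key : ∀ j : Fin 4, (S.k0 hc w).vx (Sum.inr p) (j : ℕ) = sq4 p j := by
    intro j
    have h : (S.k0 hc w).vx (Sum.inr p) (j : ℕ) =
        ((S.k0 hc w).cb (Sum.inr p) :: (S.k0 hc w).cw (Sum.inr p)).getD j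
          ((S.k0 hc w).cb (Sum.inr p)) := (S.k0 hc w).vx_of_lt j.2
    rw [h]
    fin_cases j <;> rfl
  rw [← key, ← (S.k0 hc w).vx_mod, k0_len4, Fin.val_add]

/-- a corner of a pentagon centred at `w` -/
def e5 (hc : S.Conn) {w : S.X} (c : S.C5 w) (j : Fin 5) (l : ↥(stabilizer H w)) :
    (S.k0 hc w).LE := (⟨Sum.inl c, j⟩, l)

/-- a corner of a zero square -/
def e4 (hc : S.Conn) {w : S.X} (p : S.C4 w) (j : Fin 4) (l : ↥(stabilizer H w)) :
    (S.k0 hc w).LE := (⟨Sum.inr p, j⟩, l)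

/-- every corner is of one of the two kinds -/
theorem e_cases (hc : S.Conn) {w : S.X} (e : (S.k0 hc w).LE) :
    (∃ c j l, e = e5 hc c j l) ∨ ∃ p j l, e = e4 hc p j l := by
  obtain ⟨⟨c | p, j⟩, l⟩ := e
  · exact Or.inl ⟨c, j, l, rfl⟩
  · exact Or.inr ⟨p, j, l, rfl⟩

theorem l_rho {w : S.X} (l : ↥(stabilizer H w)) (g : H) (i : S.K.I) (k : Fin 5) :
    l • S.rho w (S.tr g i k) = S.rho w (S.tr (l.1 * g) i k) := by
  rw [← S.rho_smul]
  show S.rho w (l.1 • g • S.P.pt i k) = S.rho w ((l.1 * g) • S.P.pt i k)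
  rw [smul_smul]

theorem e5_c0 (hc : S.Conn) {w : S.X} (c : S.C5 w) (j : Fin 5) (l : ↥(stabilizer H w)) :
    (S.k0 hc w).c0 (e5 hc c j l) = S.rho w (S.tr (l.1 * c.g) c.1 j) := by
  have h := k0_vx5 hc c j 0
  rw [add_zero] at h
  show l • (S.k0 hc w).vx (Sum.inl c) (j : ℕ) = _
  rw [← l_rho]
  exact congrArg (fun x => l • x) h

theorem e5_c1 (hc : S.Conn) {w : S.X} (c : S.C5 w) (j : Fin 5) (l : ↥(stabilizer H w)) :
    (S.k0 hc w).c1 (e5 hc c j l) = S.rho w (S.tr (l.1 * c.g) c.1 (j + 1)) := by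
  rw [← l_rho]
  exact congrArg (fun x => l • x) (k0_vx5 hc c j 1)

theorem e5_c2 (hc : S.Conn) {w : S.X} (c : S.C5 w) (j : Fin 5) (l : ↥(stabilizer H w)) :
    (S.k0 hc w).c2 (e5 hc c j l) = S.rho w (S.tr (l.1 * c.g) c.1 (j + 2)) := by
  rw [← l_rho]
  exact congrArg (fun x => l • x) (k0_vx5 hc c j 2)

/-- the translated zero square -/
noncomputable def sq4l {w : S.X} (p : S.C4 w) (l : ↥(stabilizer H w)) : Fin 4 → S.SV w :=
  ![S.rho w (S.tr (l.1 * p.g) p.1.1 p.1.2.1), S.rho w (S.tr (l.1 * p.g) p.1.1 (p.1.2.1 + 1)),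
    S.rho w (S.tr (l.1 * p.g) p.1.1 (p.1.2.1 + 2)),
    S.rho w (S.tr (l.1 * p.g) p.1.1 (p.1.2.1 + 3))]

theorem sq4_smul {w : S.X} (p : S.C4 w) (l : ↥(stabilizer H w)) (j : Fin 4) :
    l • sq4 p j = sq4l p l j := by
  fin_cases j
  · exact l_rho l _ _ _
  · exact l_rho l _ _ _
  · exact l_rho l _ _ _
  · exact l_rho l _ _ _

theorem e4_c0 (hc : S.Conn) {w : S.X} (p : S.C4 w) (j : Fin 4) (l : ↥(stabilizer H w)) :
    (S.k0 hc w).c0 (e4 hc p j l) = sq4l p l j := by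
  have h := k0_vx4 hc p j 0
  rw [add_zero] at h
  rw [← sq4_smul]
  exact congrArg (fun x => l • x) h

theorem e4_c1 (hc : S.Conn) {w : S.X} (p : S.C4 w) (j : Fin 4) (l : ↥(stabilizer H w)) :
    (S.k0 hc w).c1 (e4 hc p j l) = sq4l p l (j + 1) := by
  rw [← sq4_smul]
  exact congrArg (fun x => l • x) (k0_vx4 hc p j 1)

theorem e4_c2 (hc : S.Conn) {w : S.X} (p : S.C4 w) (j : Fin 4) (l : ↥(stabilizer H w)) :
    (S.k0 hc w).c2 (e4 hc p j l) = sq4l p l (j + 2) := by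
  rw [← sq4_smul]
  exact congrArg (fun x => l • x) (k0_vx4 hc p j 2)

/-- the translated zero square is a zero square at `w` -/
theorem C4.sql {w : S.X} (p : S.C4 w) (l : ↥(stabilizer H w)) :
    S.Sq w (l.1 • p.u) (S.tr (l.1 * p.g) p.1.1 p.1.2.1)
      (S.tr (l.1 * p.g) p.1.1 (p.1.2.1 + 1)) (S.tr (l.1 * p.g) p.1.1 (p.1.2.1 + 2))
      (S.tr (l.1 * p.g) p.1.1 (p.1.2.1 + 3)) (S.tr (l.1 * p.g) p.1.1 (p.1.2.1 + 4)) := by
  have h1 := p.sq.smul l.1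
  have hw : l.1 • w = w := l.2
  rw [hw] at h1
  have e2 : ∀ j, l.1 • S.tr p.g p.1.1 j = S.tr (l.1 * p.g) p.1.1 j :=
    fun j => (mul_smul _ _ _).symm
  rw [e2, e2, e2, e2, e2] at h1
  exact h1

theorem C5.isCl {w : S.X} (c : S.C5 w) (l : ↥(stabilizer H w)) :
    S.IsC (S.tr (l.1 * c.g) c.1) w := by
  have := (S.isC_smul l.1 c.g c.1 w).2 c.isC
  have hw : l.1 • w = w := l.2
  rwa [hw] at this

/-- a centred pentagon comes from the slice -/
theorem exists_e5 {w : S.X} {h : H} {i : S.K.I} (hI : S.IsC (S.tr h i) w) :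
    ∃ (c : S.C5 w) (l : ↥(stabilizer H w)), c.1 = i ∧ l.1 * c.g = h := by
  let c : S.C5 w := ⟨i, h, hI⟩
  have h1 : S.IsC (S.tr h i) ((h * c.g⁻¹) • w) := by
    have := (S.isC_smul (h * c.g⁻¹) c.g i w).2 c.isC
    rwa [inv_mul_cancel_right] at this
  have hmem : (h * c.g⁻¹) • w = w := S.isC_unique (S.tr_E h i) h1 hI
  exact ⟨c, ⟨h * c.g⁻¹, hmem⟩, rfl, inv_mul_cancel_right _ _⟩

/-- a zero square comes from the slice -/
theorem exists_e4 {w u : S.X} {h : H} {i : S.K.I} {k : Fin 5}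
    (hs : S.Sq w u (S.tr h i k) (S.tr h i (k + 1)) (S.tr h i (k + 2)) (S.tr h i (k + 3))
      (S.tr h i (k + 4))) :
    ∃ (p : S.C4 w) (l : ↥(stabilizer H w)), p.1.1 = i ∧ p.1.2.1 = k ∧ l.1 * p.g = h := by
  have hq : ∃ u', S.Sq (h⁻¹ • w) u' (S.P.pt i k) (S.P.pt i (k + 1)) (S.P.pt i (k + 2))
      (S.P.pt i (k + 3)) (S.P.pt i (k + 4)) := by
    refine ⟨h⁻¹ • u, ?_⟩
    have := hs.smul h⁻¹
    simp only [tr, inv_smul_smul] at this
    exact this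
  let c : S.C4 w := ⟨(i, k, h⁻¹ • w), ⟨h, smul_inv_smul h w⟩, hq⟩
  have hgs : c.g • h⁻¹ • w = w := c.g_smul
  have hmem : (h * c.g⁻¹) • w = w := by
    have h3 : c.g⁻¹ • w = h⁻¹ • w := inv_smul_eq_iff.2 hgs.symm
    rw [mul_smul, h3, smul_inv_smul]
  exact ⟨c, ⟨h * c.g⁻¹, hmem⟩, rfl, rfl, inv_mul_cancel_right _ _⟩

theorem C5.eq_of {w : S.X} {c c' : S.C5 w} {l l' : ↥(stabilizer H w)} (h1 : c.1 = c'.1)
    (h2 : l.1 * c.g = l'.1 * c'.g) : c = c' ∧ l = l' := by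
  have e : c = c' := Subtype.ext h1
  subst e
  exact ⟨rfl, Subtype.ext (mul_right_cancel h2)⟩

theorem C4.eq_of {w : S.X} {p p' : S.C4 w} {l l' : ↥(stabilizer H w)} (h1 : p.1.1 = p'.1.1)
    (h2 : l.1 * p.g = l'.1 * p'.g) : p = p' ∧ l = l' := by
  have s1 := p.sql l
  have s2 := p'.sql l'
  rw [← h2, ← h1] at s2
  have hk := (Sq.apex_unique s1 s2).1
  have hw : p.1.2.2 = p'.1.2.2 := by
    have a1 := p.g_smul
    have a2 := p'.g_smul
    have b1 : l.1 • w = w := l.2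
    have b2 : l'.1 • w = w := l'.2
    have c1 : (l.1 * p.g) • p.1.2.2 = w := by rw [mul_smul, a1, b1]
    have c2 : (l'.1 * p'.g) • p'.1.2.2 = w := by rw [mul_smul, a2, b2]
    rw [← h2] at c2
    exact smul_left_cancel _ (c1.trans c2.symm)
  have e : p = p' := Subtype.ext (Prod.ext h1 (Prod.ext hk hw))
  subst e
  exact ⟨rfl, Subtype.ext (mul_right_cancel h2)⟩

/-! ### the way back -/

/-- the shift of the index -/
def dl : Fin 4 → Fin 5 := ![0, 1, 0, 4]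

theorem fin4 : ∀ j : Fin 4, j = 0 ∨ j = 1 ∨ j = 2 ∨ j = 3 := by decide

theorem fin5_aux : ∀ m : Fin 5, ¬ (m = 3 ∨ m = 4) → ¬ (m + 2 = 3 ∨ m + 2 = 4) → m = 0 := by decide

theorem dl_inj : ∀ j j' : Fin 4, dl j = dl j' → j ≠ 2 → j' ≠ 2 → j = j' := by decide

/-- the corner of `K` which gives a corner of the slice -/
noncomputable def bk (hc : S.Conn) {w : S.X} : (S.k0 hc w).LE → S.K.LE
  | (⟨Sum.inl c, j⟩, l) => S.P.le.symm ((c.1, j), l.1 * c.g)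
  | (⟨Sum.inr p, j⟩, l) => S.P.le.symm ((p.1.1, p.1.2.1 + dl j), l.1 * p.g)

theorem bk_e5 (hc : S.Conn) {w : S.X} (c : S.C5 w) (j : Fin 5) (l : ↥(stabilizer H w)) :
    bk hc (e5 hc c j l) = S.P.le.symm ((c.1, j), l.1 * c.g) := rfl

theorem bk_e4 (hc : S.Conn) {w : S.X} (p : S.C4 w) (j : Fin 4) (l : ↥(stabilizer H w)) :
    bk hc (e4 hc p j l) = S.P.le.symm ((p.1.1, p.1.2.1 + dl j), l.1 * p.g) := rfl

theorem bk_smul (hc : S.Conn) {w : S.X} (g : ↥(stabilizer H w)) (e : (S.k0 hc w).LE) :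
    bk hc (g • e) = g.1 • bk hc e := by
  rcases e_cases hc e with ⟨c, j, l, rfl⟩ | ⟨p, j, l, rfl⟩
  · show S.P.le.symm ((c.1, j), (g.1 * l.1) * c.g) = g.1 • S.P.le.symm ((c.1, j), l.1 * c.g)
    rw [mul_assoc]
    rfl
  · show S.P.le.symm ((p.1.1, p.1.2.1 + dl j), (g.1 * l.1) * p.g) =
      g.1 • S.P.le.symm ((p.1.1, p.1.2.1 + dl j), l.1 * p.g)
    rw [mul_assoc]
    rfl

theorem cs_c0 (i : S.K.I) (j : Fin 5) (h : H) : S.K.c0 (S.P.le.symm ((i, j), h)) = S.tr h i j := by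
  rw [S.P.c0, Equiv.apply_symm_apply]
  rfl

theorem cs_c1 (i : S.K.I) (j : Fin 5) (h : H) :
    S.K.c1 (S.P.le.symm ((i, j), h)) = S.tr h i (j + 1) := by
  rw [S.P.c1, Equiv.apply_symm_apply]
  rfl

theorem cs_c2 (i : S.K.I) (j : Fin 5) (h : H) :
    S.K.c2 (S.P.le.symm ((i, j), h)) = S.tr h i (j + 2) := by
  rw [S.P.c2, Equiv.apply_symm_apply]
  rfl

theorem Sq.rho34 {w u : S.X} {v0 v1 v2 v3 v4 : V} (h : S.Sq w u v0 v1 v2 v3 v4) :
    S.rho w v3 = Sum.inr ⟨u, h.1⟩ ∧ S.rho w v4 = Sum.inr ⟨u, h.1⟩ :=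
  ⟨S.rho_bey h.1 h.2.2.2.2.1, S.rho_bey h.1 h.2.2.2.2.2⟩

/-- the corners of the slice at the vertices over `w` have the same direction in `K` -/
theorem bk_c (hc : S.Conn) {w : S.X} (e : (S.k0 hc w).LE)
    (he : ∀ p l, e ≠ e4 hc p 2 l) :
    (S.k0 hc w).c0 e = S.rho w (S.K.c0 (bk hc e)) ∧
    (S.k0 hc w).c1 e = S.rho w (S.K.c1 (bk hc e)) ∧
    (S.k0 hc w).c2 e = S.rho w (S.K.c2 (bk hc e)) := by
  rcases e_cases hc e with ⟨c, j, l, rfl⟩ | ⟨p, j, l, rfl⟩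
  · rw [bk_e5, cs_c0, cs_c1, cs_c2]
    exact ⟨e5_c0 hc c j l, e5_c1 hc c j l, e5_c2 hc c j l⟩
  · rw [bk_e4, cs_c0, cs_c1, cs_c2, e4_c0, e4_c1, e4_c2]
    have hs := (p.sql l).rho34
    fin_cases j
    · have a0 : p.1.2.1 + dl 0 = p.1.2.1 := add_zero _
      show sq4l p l 0 = S.rho w (S.tr _ _ (p.1.2.1 + dl 0)) ∧
        sq4l p l 1 = S.rho w (S.tr _ _ (p.1.2.1 + dl 0 + 1)) ∧
        sq4l p l 2 = S.rho w (S.tr _ _ (p.1.2.1 + dl 0 + 2))
      rw [a0]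
      exact ⟨rfl, rfl, rfl⟩
    · have a2 : p.1.2.1 + dl 1 + 1 = p.1.2.1 + 2 := by rw [add_assoc]; rfl
      have a3 : p.1.2.1 + dl 1 + 2 = p.1.2.1 + 3 := by rw [add_assoc]; rfl
      show sq4l p l 1 = S.rho w (S.tr _ _ (p.1.2.1 + dl 1)) ∧
        sq4l p l 2 = S.rho w (S.tr _ _ (p.1.2.1 + dl 1 + 1)) ∧
        sq4l p l 3 = S.rho w (S.tr _ _ (p.1.2.1 + dl 1 + 2))
      rw [a2, a3]
      exact ⟨rfl, rfl, rfl⟩
    · exact absurd rfl (he p l)
    · have a0 : p.1.2.1 + dl 3 + 1 = p.1.2.1 := by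
        rw [add_assoc]
        exact add_zero _
      have a1 : p.1.2.1 + dl 3 + 2 = p.1.2.1 + 1 := by rw [add_assoc]; rfl
      show sq4l p l 3 = S.rho w (S.tr _ _ (p.1.2.1 + dl 3)) ∧
        sq4l p l 0 = S.rho w (S.tr _ _ (p.1.2.1 + dl 3 + 1)) ∧
        sq4l p l 1 = S.rho w (S.tr _ _ (p.1.2.1 + dl 3 + 2))
      rw [a0, a1]
      refine ⟨?_, rfl, rfl⟩
      have h1 : sq4l p l 3 = S.rho w (S.tr (l.1 * p.g) p.1.1 (p.1.2.1 + 3)) := rfl
      have h2 : S.rho w (S.tr (l.1 * p.g) p.1.1 (p.1.2.1 + dl 3)) =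
        S.rho w (S.tr (l.1 * p.g) p.1.1 (p.1.2.1 + 4)) := rfl
      rw [h1, h2, hs.1, hs.2]

/-- the corners at the sinks in the zero squares have the opposite direction -/
theorem bk_c' (hc : S.Conn) {w : S.X} (p : S.C4 w) (l : ↥(stabilizer H w)) :
    (S.k0 hc w).c0 (e4 hc p 2 l) = S.rho w (S.K.c2 (bk hc (e4 hc p 2 l))) ∧
    (S.k0 hc w).c1 (e4 hc p 2 l) = Sum.inr ⟨l.1 • p.u, (p.sql l).1⟩ ∧
    (S.k0 hc w).c2 (e4 hc p 2 l) = S.rho w (S.K.c0 (bk hc (e4 hc p 2 l))) := by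
  rw [bk_e4, cs_c0, cs_c2, e4_c0, e4_c1, e4_c2]
  have a0 : p.1.2.1 + dl 2 = p.1.2.1 := add_zero _
  rw [a0]
  exact ⟨rfl, (p.sql l).rho34.1, rfl⟩

theorem not_far_isC {w : S.X} {h : H} {i : S.K.I} {j : Fin 5} (hI : S.IsC (S.tr h i) w) :
    ¬ S.Far2 w (S.tr h i j) (S.tr h i (j + 2)) :=
  Ce.not_far (Pn_pt h i j) ((ce_tr j).1 hI)

/-- THE VISIBLE CORNERS ARE THE CORNERS OF THE SLICE AT THE VERTICES OVER `w` -/
theorem bk_vis (hc : S.Conn) {w : S.X} (e : (S.k0 hc w).LE) {x : S.NV w}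
    (hx : (S.k0 hc w).c1 e = Sum.inl x) : bk hc e ∈ S.vis w ∧ S.K.c1 (bk hc e) = x.1 := by
  have hne : ∀ p l, e ≠ e4 hc p 2 l := by
    rintro p l rfl
    rw [(bk_c' hc p l).2.1] at hx
    cases hx
  have h1 := (bk_c hc e hne).2.1
  have e1 : S.K.c1 (bk hc e) = x.1 := rho_inl (h1.symm.trans hx)
  refine ⟨⟨by rw [e1]; exact x.2, ?_⟩, e1⟩
  rcases e_cases hc e with ⟨c, j, l, rfl⟩ | ⟨p, j, l, rfl⟩
  · rw [bk_e5, cs_c0, cs_c2]
    exact not_far_isC (c.isCl l)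
  · rw [bk_e4, cs_c0, cs_c2]
    have hs := p.sql l
    fin_cases j
    · have a0 : p.1.2.1 + dl 0 = p.1.2.1 := add_zero _
      show ¬ S.Far2 w (S.tr _ _ (p.1.2.1 + dl 0)) (S.tr _ _ (p.1.2.1 + dl 0 + 2))
      rw [a0]
      exact not_far_near hs.2.1.1
    · have a3 : p.1.2.1 + dl 1 + 2 = p.1.2.1 + 3 := by rw [add_assoc]; rfl
      show ¬ S.Far2 w (S.tr _ _ (p.1.2.1 + 1)) (S.tr _ _ (p.1.2.1 + dl 1 + 2))
      rw [a3]
      exact not_far_side hs.1 hs.2.2.2.1 hs.2.2.2.2.1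
    · exact absurd rfl (hne p l)
    · have a1 : p.1.2.1 + dl 3 + 2 = p.1.2.1 + 1 := by rw [add_assoc]; rfl
      show ¬ S.Far2 w (S.tr _ _ (p.1.2.1 + 4)) (S.tr _ _ (p.1.2.1 + dl 3 + 2))
      rw [a1]
      exact fun k => not_far_side hs.1 hs.2.2.2.1 hs.2.2.2.2.2 k.symm

/-- the kinds of a translate of a pentagon at a vertex over `w`, by positions -/
theorem vis_cases {w : S.X} {h : H} {i : S.K.I} {j : Fin 5} (hx : w ∈ S.J (S.tr h i (j + 1)))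
    (hf : ¬ S.Far2 w (S.tr h i j) (S.tr h i (j + 2))) : S.IsC (S.tr h i) w ∨
      ∃ u k, S.Sq w u (S.tr h i k) (S.tr h i (k + 1)) (S.tr h i (k + 2)) (S.tr h i (k + 3))
        (S.tr h i (k + 4)) ∧ (j = k ∨ j = k + 1 ∨ j = k + 4) := by
  rcases corner_cases (Pn_pt h i j) hx with hh | ⟨u, hh | hh | hh | hh⟩
  · exact Or.inl ((ce_tr j).2 hh)
  · exact Or.inr ⟨u, j, hh, Or.inl rfl⟩
  · -- apex `j`
    right
    refine ⟨u, j + 4, ?_, Or.inr (Or.inl (f41 j).symm)⟩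
    have a1 : j + 4 + 1 = j := f41 j
    have a2 : j + 4 + 2 = j + 1 := by rw [add_assoc]; rfl
    have a3 : j + 4 + 3 = j + 2 := by rw [add_assoc]; rfl
    have a4 : j + 4 + 4 = j + 3 := by rw [add_assoc]; rfl
    rw [a1, a2, a3, a4]
    exact hh.symm
  · -- apex `j + 2`
    right
    have a1 : j + 1 + 1 = j + 2 := by rw [add_assoc]; rfl
    have a2 : j + 1 + 2 = j + 3 := by rw [add_assoc]; rfl
    have a3 : j + 1 + 3 = j + 4 := by rw [add_assoc]; rfl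
    have a4 : j + 1 + 4 = j := by
      rw [add_assoc]
      exact add_zero j
    refine ⟨u, j + 1, ?_, Or.inr (Or.inr a4.symm)⟩
    rw [a1, a2, a3, a4]
    exact hh
  · exact absurd ⟨u, hh.1, hh.2.2.1, hh.2.2.2⟩ hf

theorem exists_vis (hc : S.Conn) {w : S.X} {e : S.K.LE} (he : e ∈ S.vis w) :
    ∃ e' : (S.k0 hc w).LE, bk hc e' = e ∧ ∀ p l, e' ≠ e4 hc p 2 l := by
  obtain ⟨⟨⟨i, j⟩, h⟩, rfl⟩ := S.P.le.symm.surjective e
  obtain ⟨h1, h2⟩ : w ∈ S.J (S.K.c1 (S.P.le.symm ((i, j), h))) ∧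
    ¬ S.Far2 w (S.K.c0 (S.P.le.symm ((i, j), h))) (S.K.c2 (S.P.le.symm ((i, j), h))) := he
  rw [cs_c1] at h1
  rw [cs_c0, cs_c2] at h2
  rcases vis_cases h1 h2 with hI | ⟨u, k, hs, hj⟩
  · obtain ⟨c, l, rfl, rfl⟩ := exists_e5 hI
    refine ⟨e5 hc c j l, rfl, ?_⟩
    intro p l' e
    have : (Sum.inl c : S.C5 w ⊕ S.C4 w) = Sum.inr p := congrArg (fun e => e.1.1) e
    cases this
  · obtain ⟨p, l, rfl, rfl, rfl⟩ := exists_e4 hs
    have key : ∀ m : Fin 4, m ≠ 2 → ∀ p' l', e4 hc p m l ≠ e4 hc p' 2 l' := by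
      intro m hm p' l' e
      have e1 : (⟨Sum.inr p, m⟩ : Σ c : S.C5 w ⊕ S.C4 w, Fin ((S.k0 hc w).len c)) =
        ⟨Sum.inr p', (2 : Fin 4)⟩ := congrArg (fun e => e.1) e
      obtain ⟨e2, e3⟩ := Sigma.mk.inj_iff.1 e1
      have e2' : p = p' := Sum.inr.inj e2
      subst e2'
      exact hm (eq_of_heq e3)
    rcases hj with rfl | rfl | rfl
    · refine ⟨e4 hc p 0 l, ?_, key 0 (by decide)⟩
      rw [bk_e4]
      have a0 : p.1.2.1 + dl 0 = p.1.2.1 := add_zero _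
      rw [a0]
    · exact ⟨e4 hc p 1 l, rfl, key 1 (by decide)⟩
    · exact ⟨e4 hc p 3 l, rfl, key 3 (by decide)⟩

/-- `bk` is injective on the corners at the vertices over `w` -/
theorem bk_inj (hc : S.Conn) {w : S.X} {e e' : (S.k0 hc w).LE} (he : ∀ p l, e ≠ e4 hc p 2 l)
    (he' : ∀ p l, e' ≠ e4 hc p 2 l) (h : bk hc e = bk hc e') : e = e' := by
  rcases e_cases hc e with ⟨c, j, l, rfl⟩ | ⟨p, j, l, rfl⟩ <;>
    rcases e_cases hc e' with ⟨c', j', l', rfl⟩ | ⟨p', j', l', rfl⟩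
  · rw [bk_e5, bk_e5] at h
    have h1 := S.P.le.symm.injective h
    have h2 : c.1 = c'.1 := congrArg (fun x => x.1.1) h1
    have h3 : j = j' := congrArg (fun x => x.1.2) h1
    have h4 : l.1 * c.g = l'.1 * c'.g := congrArg (fun x => x.2) h1
    obtain ⟨rfl, rfl⟩ := C5.eq_of h2 h4
    rw [h3]
  · exfalso
    rw [bk_e5, bk_e4] at h
    have h1 := S.P.le.symm.injective h
    have h2 : c.1 = p'.1.1 := congrArg (fun x => x.1.1) h1
    have h4 : l.1 * c.g = l'.1 * p'.g := congrArg (fun x => x.2) h1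
    have s1 := c.isCl l
    have s2 := p'.sql l'
    rw [← h4, ← h2] at s2
    exact s2.not_isC s1
  · exfalso
    rw [bk_e5, bk_e4] at h
    have h1 := S.P.le.symm.injective h
    have h2 : p.1.1 = c'.1 := congrArg (fun x => x.1.1) h1
    have h4 : l.1 * p.g = l'.1 * c'.g := congrArg (fun x => x.2) h1
    have s1 := c'.isCl l'
    have s2 := p.sql l
    rw [h4, h2] at s2
    exact s2.not_isC s1
  · rw [bk_e4, bk_e4] at h
    have h1 := S.P.le.symm.injective h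
    have h2 : p.1.1 = p'.1.1 := congrArg (fun x => x.1.1) h1
    have h3 : p.1.2.1 + dl j = p'.1.2.1 + dl j' := congrArg (fun x => x.1.2) h1
    have h4 : l.1 * p.g = l'.1 * p'.g := congrArg (fun x => x.2) h1
    obtain ⟨rfl, rfl⟩ := C4.eq_of h2 h4
    have h5 : dl j = dl j' := add_left_cancel h3
    have n1 : j ≠ 2 := fun k => he p l (by rw [k])
    have n2 : j' ≠ 2 := fun k => he' p l (by rw [k])
    rw [dl_inj j j' h5 n1 n2]

/-- THE VISIBLE CORNERS AT `w` = THE CORNERS OF THE SLICE AT THE VERTICES OVER `w` -/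
noncomputable def visE (hc : S.Conn) (w : S.X) :
    {e : (S.k0 hc w).LE // ∃ x : S.NV w, (S.k0 hc w).c1 e = Sum.inl x} ≃ ↥(S.vis w) :=
  Equiv.ofBijective (fun e => ⟨bk hc e.1, (bk_vis hc e.1 e.2.choose_spec).1⟩) (by
    have hne : ∀ e : (S.k0 hc w).LE, (∃ x : S.NV w, (S.k0 hc w).c1 e = Sum.inl x) →
        ∀ p l, e ≠ e4 hc p 2 l := by
      rintro e ⟨x, hx⟩ p l rfl
      rw [(bk_c' hc p l).2.1] at hx
      cases hx
    constructor
    · rintro ⟨e, he⟩ ⟨e', he'⟩ h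
      exact Subtype.ext (bk_inj hc (hne e he) (hne e' he') (congrArg Subtype.val h))
    · rintro ⟨e, he⟩
      obtain ⟨e', h1, h2⟩ := exists_vis hc he
      have h3 := (bk_c hc e' h2).2.1
      rw [h1, S.rho_near he.1] at h3
      exact ⟨⟨e', _, h3⟩, Subtype.ext h1⟩)

theorem visE_val (hc : S.Conn) (w : S.X)
    (e : {e : (S.k0 hc w).LE // ∃ x : S.NV w, (S.k0 hc w).c1 e = Sum.inl x}) :
    (visE hc w e).1 = bk hc e.1 := rfl

/-! ### the corners at the sinks of the edges -/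

variable (S) in
/-- the corner `e` lies in a pentagon which crosses the edge `w u` at its ends -/
def CrP (w u : S.X) (e : S.K.LE) : Prop := S.D.G.Adj w u ∧ S.Cs w u (S.K.c0 e) ∧
  S.Cs w u (S.K.c2 e) ∧
  ((S.J (S.K.c1 e) ⊆ bey S.D.G w u ∧
      S.J ((S.P.le e).2 • S.P.pt (S.P.le e).1.1 ((S.P.le e).1.2 + 3)) ⊆ bey S.D.G u w ∧
      S.J ((S.P.le e).2 • S.P.pt (S.P.le e).1.1 ((S.P.le e).1.2 + 4)) ⊆ bey S.D.G u w) ∨
    (S.J (S.K.c1 e) ⊆ bey S.D.G u w ∧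
      S.J ((S.P.le e).2 • S.P.pt (S.P.le e).1.1 ((S.P.le e).1.2 + 3)) ⊆ bey S.D.G w u ∧
      S.J ((S.P.le e).2 • S.P.pt (S.P.le e).1.1 ((S.P.le e).1.2 + 4)) ⊆ bey S.D.G w u))

theorem crP_iff {w u : S.X} {i : S.K.I} {j : Fin 5} {h : H} :
    S.CrP w u (S.P.le.symm ((i, j), h)) ↔ S.D.G.Adj w u ∧ S.Cs w u (S.tr h i j) ∧
      S.Cs w u (S.tr h i (j + 2)) ∧
      ((S.J (S.tr h i (j + 1)) ⊆ bey S.D.G w u ∧ S.J (S.tr h i (j + 3)) ⊆ bey S.D.G u w ∧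
        S.J (S.tr h i (j + 4)) ⊆ bey S.D.G u w) ∨
      (S.J (S.tr h i (j + 1)) ⊆ bey S.D.G u w ∧ S.J (S.tr h i (j + 3)) ⊆ bey S.D.G w u ∧
        S.J (S.tr h i (j + 4)) ⊆ bey S.D.G w u)) := by
  unfold CrP
  rw [cs_c0, cs_c1, cs_c2, Equiv.apply_symm_apply]
  exact Iff.rfl

/-- the crossing corners as pairs of the wall -/
theorem CrP.pw {w u : S.X} {e : S.K.LE} (h : S.CrP w u e) :
    S.PW w u (S.K.c0 e) (S.K.c2 e) := by
  obtain ⟨⟨⟨i, j⟩, g⟩, rfl⟩ := S.P.le.symm.surjective e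
  rw [crP_iff] at h
  rw [cs_c0, cs_c2]
  obtain ⟨h1, h2, h3, h4⟩ := h
  exact ⟨h1, h2, h3, _, _, _, Pn_pt g i j, h4⟩

theorem exists_crP {w u : S.X} {a b : V} (h : S.PW w u a b) : ∃ e, S.CrP w u e ∧
    ((S.K.c0 e = a ∧ S.K.c2 e = b) ∨ (S.K.c0 e = b ∧ S.K.c2 e = a)) := by
  obtain ⟨h1, h2, h3, q, y, z, ⟨g, i, j, hp | hp⟩, h4⟩ := h
  · obtain ⟨rfl, rfl, rfl, rfl, rfl⟩ := hp
    refine ⟨S.P.le.symm ((i, j), g), crP_iff.2 ⟨h1, h2, h3, h4⟩, Or.inl ⟨?_, ?_⟩⟩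
    · rw [cs_c0]; rfl
    · rw [cs_c2]; rfl
  · obtain ⟨rfl, rfl, rfl, rfl, rfl⟩ := hp
    refine ⟨S.P.le.symm ((i, j), g), crP_iff.2 ⟨h1, h3, h2, ?_⟩, Or.inr ⟨?_, ?_⟩⟩
    · rcases h4 with ⟨a1, a2, a3⟩ | ⟨a1, a2, a3⟩
      · exact Or.inl ⟨a1, a3, a2⟩
      · exact Or.inr ⟨a1, a3, a2⟩
    · rw [cs_c0]; rfl
    · rw [cs_c2]; rfl

/-- a pentagon centred at `w` with a vertex beyond `u` -/
theorem ce_far {w u : S.X} (hu : S.D.G.Adj w u) {a q b y z : V} (hp : Pn S.P a q b y z)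
    (h : S.Ce w a q b y z) (hq : S.J q ⊆ bey S.D.G w u) : S.Cs w u a ∧ S.Cs w u b ∧
      S.J y ⊆ bey S.D.G u w ∧ S.J z ⊆ bey S.D.G u w := by
  have nq : w ∉ S.J q := S.not_mem_of_bey hu hq
  have ha : w ∈ S.J a := h.1.resolve_right nq
  have hb : w ∈ S.J b := h.2.1.resolve_left nq
  have ca : S.Cs w u a := by
    refine ⟨ha, ?_⟩
    have := S.dir_cross (w := w) hp.E1 ha nq
    rwa [S.dir_eq hu hq] at this
  have cb : S.Cs w u b := by
    refine ⟨hb, ?_⟩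
    have := S.dir_cross (w := w) hp.E2.symm hb nq
    rwa [S.dir_eq hu hq] at this
  refine ⟨ca, cb, ?_, ?_⟩
  · rcases S.side_or hu (S.adj_nc hu hp.E3 cb) with k | k
    · exfalso
      have ny : w ∉ S.J y := S.not_mem_of_bey hu k
      have hz : w ∈ S.J z := h.2.2.2.1.resolve_left ny
      have cz : S.Cs w u z := by
        refine ⟨hz, ?_⟩
        have := S.dir_cross (w := w) hp.E4.symm hz ny
        rwa [S.dir_eq hu k] at this
      exact S.not_both hu hp.E5 cz ca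
    · exact k
  · rcases S.side_or hu (S.adj_nc hu hp.E5.symm ca) with k | k
    · exfalso
      have nz : w ∉ S.J z := S.not_mem_of_bey hu k
      have hy' : w ∈ S.J y := h.2.2.2.1.resolve_right nz
      have cy : S.Cs w u y := by
        refine ⟨hy', ?_⟩
        have := S.dir_cross (w := w) hp.E4 hy' nz
        rwa [S.dir_eq hu k] at this
      exact S.not_both hu hp.E3 cb cy
    · exact k

/-- a zero square with its apex beyond another edge -/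
theorem sq_far {w u u' : S.X} (hu : S.D.G.Adj w u) {a q b y z : V} (hp : Pn S.P a q b y z)
    (h : S.Sq w u' a q b y z) (hq : S.J q ⊆ bey S.D.G w u) : S.Cs w u a ∧ S.Cs w u b ∧
      S.J y ⊆ bey S.D.G u w ∧ S.J z ⊆ bey S.D.G u w := by
  have nq : w ∉ S.J q := S.not_mem_of_bey hu hq
  have hne : u' ≠ u := by
    rintro rfl
    obtain ⟨p, hp'⟩ := S.js.ne q
    exact bey_not (hq hp') (h.2.2.2.1 hp')
  have hside : ∀ v : V, S.J v ⊆ bey S.D.G w u' → S.J v ⊆ bey S.D.G u w := by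
    intro v hv p hp'
    rcases bey_or S.D.tree hu p with k | k
    · exact absurd (S.bey_unique h.1 hu (hv hp') k) hne
    · exact k
  refine ⟨⟨h.2.1.1, ?_⟩, ⟨h.2.2.1.1, ?_⟩, hside y h.2.2.2.2.1, hside z h.2.2.2.2.2⟩
  · have := S.dir_cross (w := w) hp.E1 h.2.1.1 nq
    rwa [S.dir_eq hu hq] at this
  · have := S.dir_cross (w := w) hp.E2.symm h.2.2.1.1 nq
    rwa [S.dir_eq hu hq] at this

/-- the corners of the slice at the sink `t_u` -/
theorem bk_crP (hc : S.Conn) {w : S.X} {u : S.EV w} (e : (S.k0 hc w).LE)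
    (he : (S.k0 hc w).c1 e = Sum.inr u) : S.CrP w u.1 (bk hc e) := by
  rcases e_cases hc e with ⟨c, j, l, rfl⟩ | ⟨p, j, l, rfl⟩
  · rw [bk_e5, crP_iff]
    rw [e5_c1] at he
    have hq := rho_inr he
    obtain ⟨h1, h2, h3, h4⟩ := ce_far u.2 (Pn_pt (l.1 * c.g) c.1 j) ((ce_tr j).1 (c.isCl l)) hq
    exact ⟨u.2, h1, h2, Or.inl ⟨hq, h3, h4⟩⟩
  · rw [bk_e4, crP_iff]
    rw [e4_c1] at he
    have hs := p.sql l
    rcases fin4 j with rfl | rfl | rfl | rfl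
    · have a0 : p.1.2.1 + dl 0 = p.1.2.1 := add_zero _
      have hq : S.J (S.tr (l.1 * p.g) p.1.1 (p.1.2.1 + 1)) ⊆ bey S.D.G w u.1 := rho_inr he
      obtain ⟨h1, h2, h3, h4⟩ := sq_far u.2 (Pn_pt (l.1 * p.g) p.1.1 p.1.2.1) hs hq
      rw [a0]
      exact ⟨u.2, h1, h2, Or.inl ⟨hq, h3, h4⟩⟩
    · exfalso
      have h1 : S.rho w (S.tr (l.1 * p.g) p.1.1 (p.1.2.1 + 2)) = Sum.inr u := he
      rw [S.rho_near hs.2.2.1.1] at h1
      cases h1
    · have a0 : p.1.2.1 + dl 2 = p.1.2.1 := add_zero _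
      have h1 : S.rho w (S.tr (l.1 * p.g) p.1.1 (p.1.2.1 + 3)) = Sum.inr u := he
      rw [hs.rho34.1] at h1
      have e1 : u = ⟨l.1 • p.u, hs.1⟩ := (Sum.inr.inj h1).symm
      subst e1
      rw [a0]
      exact ⟨hs.1, hs.2.1, hs.2.2.1, Or.inr ⟨hs.2.2.2.1, hs.2.2.2.2.1, hs.2.2.2.2.2⟩⟩
    · exfalso
      have h1 : S.rho w (S.tr (l.1 * p.g) p.1.1 p.1.2.1) = Sum.inr u := he
      rw [S.rho_near hs.2.1.1] at h1
      cases h1

theorem exists_crE (hc : S.Conn) {w : S.X} {u : S.EV w} {e : S.K.LE} (he : S.CrP w u.1 e) :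
    ∃ e' : (S.k0 hc w).LE, bk hc e' = e ∧ (S.k0 hc w).c1 e' = Sum.inr u := by
  obtain ⟨⟨⟨i, j⟩, h⟩, rfl⟩ := S.P.le.symm.surjective e
  rw [crP_iff] at he
  obtain ⟨hu, ca, cb, ⟨h1, h2, h3⟩ | ⟨h1, h2, h3⟩⟩ := he
  · -- the middle is beyond `u`
    have nq : w ∉ S.J (S.tr h i (j + 1)) := S.not_mem_of_bey hu h1
    have eq : S.rho w (S.tr h i (j + 1)) = Sum.inr u := S.rho_bey hu h1
    by_cases hI : S.IsC (S.tr h i) w
    · obtain ⟨c, l, rfl, rfl⟩ := exists_e5 hI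
      exact ⟨e5 hc c j l, rfl, by rw [e5_c1]; exact eq⟩
    · obtain ⟨u', hu', hh⟩ := S.off_cases (S.tr_E h i) hI
      rcases hh with ⟨k, hk⟩ | hh
      · -- `k = j`
        have hjk : j = k := by
          obtain ⟨m, rfl⟩ : ∃ m, j = k + m := ⟨j - k, (add_sub_cancel k j).symm⟩
          have nn : ∀ n : Fin 5, (n = 3 ∨ n = 4) → w ∉ S.J (S.tr h i (k + n)) := by
            rintro n (rfl | rfl)
            · exact S.not_mem_of_bey hu' hk.2.2.2.2.1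
            · exact S.not_mem_of_bey hu' hk.2.2.2.2.2
          have ha := ca.1
          have hb := cb.1
          rw [add_assoc] at hb
          have m1 : ¬ (m = 3 ∨ m = 4) := fun k => nn _ k ha
          have m2 : ¬ (m + 2 = 3 ∨ m + 2 = 4) := fun k => nn _ k hb
          rw [fin5_aux m m1 m2, add_zero]
        subst hjk
        obtain ⟨p, l, rfl, rfl, rfl⟩ := exists_e4 hk
        refine ⟨e4 hc p 0 l, ?_, ?_⟩
        · rw [bk_e4]
          have a0 : p.1.2.1 + dl 0 = p.1.2.1 := add_zero _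
          rw [a0]
        · rw [e4_c1]
          exact eq
      · exfalso
        have e1 : u' = u.1 := by
          rcases hh (j + 1) with ⟨h1', -, -⟩ | h1'
          · exact absurd h1'.1 nq
          · rw [eq] at h1'
            exact (congrArg Subtype.val (Sum.inr.inj h1')).symm
        subst e1
        obtain ⟨p, hp'⟩ := S.js.ne (S.tr h i (j + 3))
        rcases hh (j + 3) with ⟨h1', -, -⟩ | h1'
        · exact bey_not (h2 h1'.2) (bey_self hu)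
        · exact bey_not (rho_inr (u := ⟨u.1, hu'⟩) h1' hp') (h2 hp')
  · have hs : S.Sq w u.1 (S.tr h i j) (S.tr h i (j + 1)) (S.tr h i (j + 2)) (S.tr h i (j + 3))
        (S.tr h i (j + 4)) := ⟨hu, ca, cb, h1, h2, h3⟩
    obtain ⟨p, l, rfl, rfl, rfl⟩ := exists_e4 hs
    refine ⟨e4 hc p 2 l, ?_, ?_⟩
    · rw [bk_e4]
      have a0 : p.1.2.1 + dl 2 = p.1.2.1 := add_zero _
      rw [a0]
    · rw [(bk_c' hc p l).2.1]
      have := (Sq.apex_unique (p.sql l) hs).2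
      exact congrArg Sum.inr (Subtype.ext this)

/-- `bk` is injective on the corners at one sink -/
theorem bk_inj' (hc : S.Conn) {w : S.X} {u : S.EV w} {e e' : (S.k0 hc w).LE}
    (he : (S.k0 hc w).c1 e = Sum.inr u) (he' : (S.k0 hc w).c1 e' = Sum.inr u)
    (h : bk hc e = bk hc e') : e = e' := by
  have side : ∀ p l, (S.k0 hc w).c1 (e4 hc p 2 l) = Sum.inr u →
      S.J (S.K.c1 (bk hc (e4 hc p 2 l))) ⊆ bey S.D.G u.1 w := by
    intro p l hh
    rw [(bk_c' hc p l).2.1] at hh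
    have e1 : u = ⟨l.1 • p.u, (p.sql l).1⟩ := (Sum.inr.inj hh).symm
    subst e1
    rw [bk_e4, cs_c1]
    have a0 : p.1.2.1 + dl 2 = p.1.2.1 := add_zero _
    rw [a0]
    exact (p.sql l).2.2.2.1
  have other : ∀ e, (S.k0 hc w).c1 e = Sum.inr u → (∀ p l, e ≠ e4 hc p 2 l) →
      S.J (S.K.c1 (bk hc e)) ⊆ bey S.D.G w u.1 := by
    intro e h1 h2
    exact rho_inr ((bk_c hc e h2).2.1.symm.trans h1)
  have mix : ∀ p l e', (S.k0 hc w).c1 (e4 hc p 2 l) = Sum.inr u →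
      (S.k0 hc w).c1 e' = Sum.inr u → (∀ p l, e' ≠ e4 hc p 2 l) →
      bk hc (e4 hc p 2 l) ≠ bk hc e' := by
    intro p l e' h1 h2 h3 h4
    have k1 := side p l h1
    have k2 := other e' h2 h3
    rw [h4] at k1
    obtain ⟨x, hx⟩ := S.js.ne (S.K.c1 (bk hc e'))
    exact bey_not (k2 hx) (k1 hx)
  by_cases k : ∃ p l, e = e4 hc p 2 l
  · obtain ⟨p, l, rfl⟩ := k
    by_cases k' : ∃ p l, e' = e4 hc p 2 l
    · obtain ⟨p', l', rfl⟩ := k'
      rw [bk_e4, bk_e4] at h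
      have h1 := S.P.le.symm.injective h
      have h2 : p.1.1 = p'.1.1 := congrArg (fun x => x.1.1) h1
      have h4 : l.1 * p.g = l'.1 * p'.g := congrArg (fun x => x.2) h1
      obtain ⟨rfl, rfl⟩ := C4.eq_of h2 h4
      rfl
    · push Not at k'
      exact absurd h (mix p l e' he he' k')
  · push Not at k
    by_cases k' : ∃ p l, e' = e4 hc p 2 l
    · obtain ⟨p', l', rfl⟩ := k'
      exact absurd h.symm (mix p' l' e he' he k)
    · push Not at k'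
      exact bk_inj hc k k' h

/-- THE CORNERS OF THE SLICE AT THE SINK `t_u` = THE PENTAGONS WHICH CROSS THE EDGE -/
noncomputable def crE (hc : S.Conn) {w : S.X} (u : S.EV w) :
    {e : (S.k0 hc w).LE // (S.k0 hc w).c1 e = Sum.inr u} ≃ {e : S.K.LE // S.CrP w u.1 e} :=
  Equiv.ofBijective (fun e => ⟨bk hc e.1, bk_crP hc e.1 e.2⟩) (by
    constructor
    · rintro ⟨e, he⟩ ⟨e', he'⟩ h
      exact Subtype.ext (bk_inj' hc he he' (congrArg Subtype.val h))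
    · rintro ⟨e, he⟩
      obtain ⟨e', h1, h2⟩ := exists_crE hc he
      exact ⟨⟨e', h2⟩, Subtype.ext h1⟩)

theorem crE_val (hc : S.Conn) {w : S.X} (u : S.EV w)
    (e : {e : (S.k0 hc w).LE // (S.k0 hc w).c1 e = Sum.inr u}) :
    (crE hc u e).1 = bk hc e.1 := rfl

/-- the ends of a corner at `t_u` -/
theorem bk_ends (hc : S.Conn) {w : S.X} {u : S.EV w} (e : (S.k0 hc w).LE)
    (he : (S.k0 hc w).c1 e = Sum.inr u) :
    ((S.k0 hc w).c0 e = S.rho w (S.K.c0 (bk hc e)) ∧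
      (S.k0 hc w).c2 e = S.rho w (S.K.c2 (bk hc e))) ∨
    ((S.k0 hc w).c0 e = S.rho w (S.K.c2 (bk hc e)) ∧
      (S.k0 hc w).c2 e = S.rho w (S.K.c0 (bk hc e))) := by
  by_cases k : ∃ p l, e = e4 hc p 2 l
  · obtain ⟨p, l, rfl⟩ := k
    exact Or.inr ⟨(bk_c' hc p l).1, (bk_c' hc p l).2.2⟩
  · push Not at k
    have := bk_c hc e k
    exact Or.inl ⟨this.1, this.2.2⟩

end Sys

end Pool.Agent.DI
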