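import Pool.Agent.DI.K0

/-!
# The unfolded slice: pentagons off `w`
-/

namespace Pool.Agent.DI

open MulAction
open Pool.Agent.SAF (InC orbs FinOrb oc Decomp SAn SA Conv hull dist_edge FinOrb_iff exists_next)
open Pool.Agent.BT (PX PQ JS bey exits lz lz_self lz_ne lz_symm x_next_unique)
open Pool.Agent.BT.TA

theorem f41 (k : Fin 5) : k + 4 + 1 = k := by revert k; decide

namespace Sys

variable {H V : Type} [Group H] [MulAction H V] (S : Sys H V)

/-- `c` is a centre of the closed walk `v` -/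
def IsC (v : Fin 5 → V) (c : S.X) : Prop := ∀ k, c ∈ S.J (v k) ∨ c ∈ S.J (v (k + 1))

/-- the pentagon `v` crosses the edge `w u` at `v 0` and `v 2`, `J (v 1)` is on the side of `w` -/
def Sq (w u : S.X) (v0 v1 v2 v3 v4 : V) : Prop := S.D.G.Adj w u ∧ S.Cs w u v0 ∧ S.Cs w u v2 ∧
  S.J v1 ⊆ bey S.D.G u w ∧ S.J v3 ⊆ bey S.D.G w u ∧ S.J v4 ⊆ bey S.D.G w u

variable {S}

theorem Sq.smul (h : H) {w u : S.X} {v0 v1 v2 v3 v4 : V} (k : S.Sq w u v0 v1 v2 v3 v4) :
    S.Sq (h • w) (h • u) (h • v0) (h • v1) (h • v2) (h • v3) (h • v4) :=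
  ⟨S.D.adj_smul h _ _ k.1, k.2.1.smul h, k.2.2.1.smul h, S.sub_bey_smul h k.2.2.2.1,
    S.sub_bey_smul h k.2.2.2.2.1, S.sub_bey_smul h k.2.2.2.2.2⟩

variable (S)

/-- the centre is unique -/
theorem isC_unique {v : Fin 5 → V} (hv : ∀ k, S.K.E (v k) (v (k + 1))) {c c' : S.X}
    (h : S.IsC v c) (h' : S.IsC v c') : c = c' := by
  by_contra hne
  obtain ⟨u, hu, e⟩ := exists_next S.D.tree hne
  have hcb : c' ∈ bey S.D.G c u := by
    show S.D.G.dist c' c = S.D.G.dist c' u + 1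
    rw [SimpleGraph.dist_comm, e, SimpleGraph.dist_comm]
  have hcu : c ∈ bey S.D.G u c := bey_self hu.symm
  -- a vertex which does not cross is on one side, its neighbours cross
  have key : ∀ k, ¬ S.Cs c u (v k) → S.Cs c u (v (k + 1)) := by
    intro k hk
    obtain ⟨p, p0, p1⟩ := S.one_ex (hv k)
    rcases S.side_or hu hk with hs | hs
    · -- beyond: c is not in J (v k)
      have h1 : c ∈ S.J (v (k + 1)) := (h k).resolve_left (fun hc => bey_not (hs hc) hcu)
      exact conv_cr S.D.tree (S.js.conv _) hu h1 p1 hcu (hs p0)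
    · have h1 : c' ∈ S.J (v (k + 1)) := (h' k).resolve_left (fun hc => bey_not hcb (hs hc))
      have := conv_cr S.D.tree (S.js.conv _) hu p1 h1 (hs p0) hcb
      exact this
  have nb : ∀ k, S.Cs c u (v k) → ¬ S.Cs c u (v (k + 1)) := fun k hk => S.adj_nc hu (hv k) hk
  by_cases h0 : S.Cs c u (v 0)
  · have h1 : ¬ S.Cs c u (v 1) := nb 0 h0
    have h2 : S.Cs c u (v 2) := key 1 h1
    have h3 : ¬ S.Cs c u (v 3) := nb 2 h2
    have h4 : S.Cs c u (v 4) := key 3 h3
    exact nb 4 h4 h0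
  · have h1 : S.Cs c u (v 1) := key 0 h0
    have h2 : ¬ S.Cs c u (v 2) := nb 1 h1
    have h3 : S.Cs c u (v 3) := key 2 h2
    have h4 : ¬ S.Cs c u (v 4) := nb 3 h3
    exact h0 (key 4 h4)

/-- pentagons with centre off `w`: either a zero square or nothing happens -/
theorem off_cases {v : Fin 5 → V} (hv : ∀ k, S.K.E (v k) (v (k + 1))) {w : S.X}
    (hw : ¬ S.IsC v w) : ∃ u, ∃ hu : S.D.G.Adj w u,
      (∃ k, S.Sq w u (v k) (v (k + 1)) (v (k + 2)) (v (k + 3)) (v (k + 4))) ∨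
      ∀ k, (S.Cs w u (v k) ∧ S.rho w (v (k + 1)) = Sum.inr ⟨u, hu⟩ ∧
        S.rho w (v (k + 4)) = Sum.inr ⟨u, hu⟩) ∨ S.rho w (v k) = Sum.inr ⟨u, hu⟩ := by
  obtain ⟨c, hc⟩ := S.cen hv
  have hc : S.IsC v c := hc
  have hne : w ≠ c := by
    rintro rfl
    exact hw hc
  obtain ⟨u, hu, e⟩ := exists_next S.D.tree hne
  have hcb : c ∈ bey S.D.G w u := by
    show S.D.G.dist c w = S.D.G.dist c u + 1
    rw [SimpleGraph.dist_comm, e, SimpleGraph.dist_comm]
  refine ⟨u, hu, ?_⟩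
  have e41 : ∀ k : Fin 5, k + 4 + 1 = k := by decide
  -- neighbours of a vertex on the side of `w`
  have nbr : ∀ k, S.J (v k) ⊆ bey S.D.G u w → S.Cs w u (v (k + 1)) ∧ S.Cs w u (v (k + 4)) := by
    intro k hk
    have hnc : c ∉ S.J (v k) := fun h => bey_not hcb (hk h)
    constructor
    · obtain ⟨p, p0, p1⟩ := S.one_ex (hv k)
      have h1 : c ∈ S.J (v (k + 1)) := (hc k).resolve_left hnc
      exact conv_cr S.D.tree (S.js.conv _) hu p1 h1 (hk p0) hcb
    · have ev := hv (k + 4)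
      rw [e41] at ev
      obtain ⟨p, p0, p1⟩ := S.one_ex ev
      have h1 : c ∈ S.J (v (k + 4)) := by
        have := hc (k + 4)
        rw [e41] at this
        exact this.resolve_right hnc
      exact conv_cr S.D.tree (S.js.conv _) hu p0 h1 (hk p1) hcb
  by_cases hex : ∃ k, S.J (v k) ⊆ bey S.D.G u w
  · left
    obtain ⟨k, hk⟩ := hex
    obtain ⟨h1, h4⟩ := nbr k hk
    have ev2 : S.K.E (v (k + 1)) (v (k + 2)) := by
      have := hv (k + 1)
      rwa [add_assoc] at this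
    have ev3 : S.K.E (v (k + 3)) (v (k + 4)) := by
      have := hv (k + 3)
      rwa [add_assoc] at this
    have n2 : ¬ S.Cs w u (v (k + 2)) := S.adj_nc hu ev2 h1
    have n3 : ¬ S.Cs w u (v (k + 3)) := S.adj_nc hu (Or.symm ev3) h4
    have s2 : S.J (v (k + 2)) ⊆ bey S.D.G w u := by
      rcases S.side_or hu n2 with h | h
      · exact h
      · exfalso
        have := (nbr (k + 2) h).1
        rw [show k + 2 + 1 = k + 3 from by rw [add_assoc]; rfl] at this
        exact n3 this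
    have s3 : S.J (v (k + 3)) ⊆ bey S.D.G w u := by
      rcases S.side_or hu n3 with h | h
      · exact h
      · exfalso
        have := (nbr (k + 3) h).2
        rw [show k + 3 + 4 = k + 2 from by rw [add_assoc]; rfl] at this
        exact n2 this
    refine ⟨k + 4, hu, h4, ?_, ?_, ?_, ?_⟩
    · rw [show k + 4 + 2 = k + 1 from by rw [add_assoc]; rfl]
      exact h1
    · rw [e41]
      exact hk
    · rw [show k + 4 + 3 = k + 2 from by rw [add_assoc]; rfl]
      exact s2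
    · rw [show k + 4 + 4 = k + 3 from by rw [add_assoc]; rfl]
      exact s3
  · right
    push Not at hex
    have far : ∀ k, ¬ S.Cs w u (v k) → S.rho w (v k) = Sum.inr ⟨u, hu⟩ := by
      intro k hk
      rcases S.side_or hu hk with h | h
      · exact S.rho_bey hu h
      · exact absurd h (hex k)
    intro k
    by_cases hk : S.Cs w u (v k)
    · left
      refine ⟨hk, far _ (S.adj_nc hu (hv k) hk), far _ ?_⟩
      have ev := hv (k + 4)
      rw [e41] at ev
      exact S.adj_nc hu (Or.symm ev) hk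
    · exact Or.inr (far k hk)

theorem zz2 (a : ZMod 2) : a + a = 0 := CharTwo.add_self_eq_zero a

section H1

variable {w : S.X} {φ : S.SV w → S.SV w → ZMod 2} (hs : ∀ x y, φ x y = φ y x)

include hs

/-- nothing happens at `w` -/
theorem sum_off {v : Fin 5 → V} {u : S.X} (hu : S.D.G.Adj w u)
    (h : ∀ k, (S.Cs w u (v k) ∧ S.rho w (v (k + 1)) = Sum.inr ⟨u, hu⟩ ∧
        S.rho w (v (k + 4)) = Sum.inr ⟨u, hu⟩) ∨ S.rho w (v k) = Sum.inr ⟨u, hu⟩) :
    ∑ j : Fin 5, lz φ (S.rho w (v j)) (S.rho w (v (j + 1))) = 0 := by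
  classical
  have e14 : ∀ k : Fin 5, k + 1 + 4 = k := by decide
  let t : S.SV w := Sum.inr ⟨u, hu⟩
  let F : Fin 5 → ZMod 2 := fun j => lz φ (S.rho w (v j)) t
  have key : ∀ j, lz φ (S.rho w (v j)) (S.rho w (v (j + 1))) = F j + F (j + 1) := by
    intro j
    rcases h j with ⟨_, h1, _⟩ | h1
    · show _ = lz φ (S.rho w (v j)) t + lz φ (S.rho w (v (j + 1))) t
      rw [h1, lz_self, add_zero]
    · show _ = lz φ (S.rho w (v j)) t + lz φ (S.rho w (v (j + 1))) t
      rw [h1, lz_self, zero_add, lz_symm φ hs]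
  rw [Finset.sum_congr rfl (fun j _ => key j), Fin.sum_univ_five]
  show F 0 + F 1 + (F 1 + F 2) + (F 2 + F 3) + (F 3 + F 4) + (F 4 + F 0) = 0
  linear_combination zz2 (F 0) + zz2 (F 1) + zz2 (F 2) + zz2 (F 3) + zz2 (F 4)

/-- a zero square -/
theorem sum_sq {v : Fin 5 → V} (hv : ∀ k, S.K.E (v k) (v (k + 1))) {u : S.X} {k : Fin 5}
    (h : S.Sq w u (v k) (v (k + 1)) (v (k + 2)) (v (k + 3)) (v (k + 4))) :
    ∑ j : Fin 5, lz φ (S.rho w (v j)) (S.rho w (v (j + 1))) =
      ps φ (S.rho w (v k)) [S.rho w (v (k + 1)), S.rho w (v (k + 2)), S.rho w (v (k + 3)),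
        S.rho w (v k)] := by
  classical
  obtain ⟨hu, c0, c2, s1, s3, s4⟩ := h
  have r3 := S.rho_bey hu s3
  have r4 := S.rho_bey hu s4
  have ev1 : S.K.E (v (k + 1)) (v (k + 2)) := by
    have := hv (k + 1)
    rwa [add_assoc] at this
  have ev2 : S.K.E (v (k + 2)) (v (k + 3)) := by
    have := hv (k + 2)
    rwa [add_assoc] at this
  have ev4 : S.K.E (v (k + 4)) (v k) := by
    have := hv (k + 4)
    rwa [f41] at this
  have hsum : ∑ j : Fin 5, lz φ (S.rho w (v j)) (S.rho w (v (j + 1))) =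
      ∑ j : Fin 5, lz φ (S.rho w (v (k + j))) (S.rho w (v (k + j + 1))) :=
    (Equiv.sum_comp (Equiv.addLeft k) (fun j => lz φ (S.rho w (v j)) (S.rho w (v (j + 1))))).symm
  rw [hsum, Fin.sum_univ_five]
  have a1 : k + 0 = k := add_zero k
  have a2 : k + 1 + 1 = k + 2 := by rw [add_assoc]; rfl
  have a3 : k + 2 + 1 = k + 3 := by rw [add_assoc]; rfl
  have a4 : k + 3 + 1 = k + 4 := by rw [add_assoc]; rfl
  have a5 : k + 4 + 1 = k := f41 k
  rw [a1, a2, a3, a4, a5, S.lz_near (hv k) (Or.inl c0.1), S.lz_near ev1 (Or.inr c2.1),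
    S.lz_near ev2 (Or.inl c2.1), r3, r4, lz_self]
  have h5 : lz φ (Sum.inr ⟨u, hu⟩ : S.SV w) (S.rho w (v k)) =
      φ (Sum.inr ⟨u, hu⟩ : S.SV w) (S.rho w (v k)) := by
    have := S.lz_near (φ := φ) ev4 (Or.inr c0.1)
    rwa [r4] at this
  rw [h5]
  simp only [ps_cons, ps_nil]
  ring

end H1

end Sys

end Pool.Agent.DI
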