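import Pool.Agent.DI.K1
import Pool.Agent.DI.Main0

/-!
# DI/K1N: the numbers of the step complex

`k.nums_le`: no number of the step complex `k : C.K1` is worse than the number of the state `C` (input:
`phi_0`).
-/

namespace Pool.Agent.DI

open MulAction

/-- THE STATIC COMPARISON -/
theorem St.K1.nums_le {C : St} (k : C.K1) (hp : C.K.phA ≤ k.K.phA) :
    (k.P.numsE k.nd k.E).Le C.nums where
  s := k.sigma.ge
  e := k.excE.ge
  n := k.nN
  p4 := k.p4
  p5 := k.p5
  vd := k.nVD.le
  ph := hp
  vz := k.nVZ.ge

end Pool.Agent.DI
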