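import Pool.Agent.DI.KXa

/-!
# The fold law for the folded slice

`O : S.OR w` with `S.FO w O F` (near stars are open, except over the hubs in `F`: `S.opF w F`).
`S.TF`: the pieces which disappear (pieces of the sinks `t_u`, of the hubs in `F`, and the node `q ∈ F` at a
pole if no kept cell passes `q, a`). `S.ThinF`: the hubs in `F` are thin. THEOREM `ThinF.fold : Fold`, so
`k0_exc_F : exc (k0) ≤ exc (kf)`, and the results of the equality case (`Fold.pols_inj`, `Fold.one_part`).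
-/

namespace Pool.Agent.DI

open MulAction
open Pool.Agent.SAF (InC orbs FinOrb oc)

namespace SyQ

variable {H V : Type} [Group H] [MulAction H V] {S : SyQ H V}

/-- a step out of `x` in the graph of the zero squares -/
theorem Gc.step {w u : S.X} {q x x' : V} (k : S.Gc w u q x x') :
    x = x' ∨ ((∃ c, c ≠ x ∧ S.Qs w u q x c) ∧ ∃ c, c ≠ x' ∧ S.Qs w u q x' c) := by
  induction k with
  | rel x y k =>
    by_cases e : x = y
    · exact Or.inl e
    · exact Or.inr ⟨⟨y, Ne.symm e, k⟩, ⟨x, e, k.symm'⟩⟩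
  | refl x => exact Or.inl rfl
  | symm x y _ ih =>
    rcases ih with h | h
    · exact Or.inl h.symm
    · exact Or.inr ⟨h.2, h.1⟩
  | trans x y z _ _ i1 i2 =>
    rcases i1 with rfl | h1
    · exact i2
    · rcases i2 with rfl | h2
      · exact Or.inr h1
      · exact Or.inr ⟨h1.1, h2.2⟩

/-- a pole of a two-pole hub is in a zero square -/
theorem Dia.step {w u : S.X} {q a : V} (h : S.Dia w u q) (ha : S.K.ar q a) :
    ∃ c, c ≠ a ∧ S.Qs w u q a c := by
  obtain ⟨hw, a1, a2, hne, h1, h2, hg⟩ := h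
  obtain ⟨k1, k2⟩ := hg.step.resolve_left hne
  rcases S.K.two q a1 a2 a h1 h2 ha with e | e | e
  · exact absurd e hne
  · rw [← e]
    exact k2
  · rw [← e]
    exact k1

theorem FO.inv {w : S.X} {O : S.OR w} {F : Set V} (h : S.FO w O F) (g : ↥(stabilizer H w))
    {q : V} (hq : q ∈ F) : g.1 • q ∈ F := by
  have hw := S.js.smul g.1 _ _ (h.mem hq)
  have e : g.1 • w = w := g.2
  rw [e] at hw
  exact h.of_nop (u := g.1 • w) hw (fun k => h.nop hq w ((O.smul_iff g).1 k))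

section

variable {hc : S.Conn} {hnb : S.NB} {w : S.X} {O : S.OR w} {hm : (S.k0 hc w).Min}
  {hn : S.SqN w O} {F : Set V}

/-- the reversed arrows -/
theorem FO.fl (h : S.FO w O F) {k p : S.SV w} (hf : (S.kfM hc hnb w O hm hn).Fl k p) :
    (∃ (u : S.X) (q p' : V) (hq : w ∈ S.J q) (hp : w ∈ S.J p'), q ∈ F ∧ S.SD w u q ∧
      S.K.ar q p' ∧ k = Sum.inl ⟨q, hq⟩ ∧ p = Sum.inl ⟨p', hp⟩) ∨
    ∃ (q : V) (hq : w ∈ S.J q), q ∈ F ∧ (∀ u, ¬ S.SD w u q) ∧ p = Sum.inl ⟨q, hq⟩ := by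
  rcases h.arc hf.1 with k1 | k1 | k1
  · exfalso
    have r1 := arQ_rk k1
    have r2 := arQ_rk (show S.arQ w O (S.fq w O p) (S.fq w O k) from hf.2)
    omega
  · exact Or.inl k1
  · exact Or.inr k1

/-- no backtracking -/
theorem kf_nb (g : FL (S.kf hc w O)) :
    (S.kffc hc w O hm hn).x g ≠ (S.kffc hc w O hm hn).z g :=
  (S.kfP hc w O hm hn).fc_nb (S.kf_min hc w O hm) (S.kfP_nd hc w O hm hn) g

/-- the ends of a kept corner are not merged -/
theorem kp_nb {e : FL (S.k0 hc w)} (he : (S.kfM hc hnb w O hm hn).Kp e) :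
    S.fq w O ((S.k0fc hc hnb w).x e) ≠ S.fq w O ((S.k0fc hc hnb w).z e) := by
  obtain ⟨g, rfl⟩ := he
  have h1 := (S.kfM hc hnb w O hm hn).x_ph g
  have h2 := (S.kfM hc hnb w O hm hn).z_ph g
  intro e
  apply S.kf_nb (hc := hc) (w := w) (O := O) (hm := hm) (hn := hn) g
  rw [← h1, ← h2]
  exact e

variable (hc hnb w O hm hn F)

/-- THE PIECES WHICH DISAPPEAR -/
def TF (y n : S.SV w) : Prop :=
  (∃ u, y = Sum.inr u) ∨ (∃ q : S.NV w, q.1 ∈ F ∧ y = Sum.inl q) ∨
  (∃ q : S.NV w, q.1 ∈ F ∧ n = Sum.inl q ∧ ∀ e, (S.kfM hc hnb w O hm hn).Kp e →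
    (S.k0fc hc hnb w).x e = n → (S.k0fc hc hnb w).y e ≠ y)

/-- WHAT IS USED FOR THE FOLD -/
structure ThinG : Prop where
  own1 : ∀ (u : S.EV w) (q : S.NV w) (e e' : FL (S.k0 hc w)), q.1 ∈ F → S.SD w u.1 q.1 →
    ¬ (S.kfM hc hnb w O hm hn).Kp e →
    ¬ (S.kfM hc hnb w O hm hn).Kp e' → (S.k0fc hc hnb w).x e = Sum.inl q →
    (S.k0fc hc hnb w).x e' = Sum.inl q → (S.k0fc hc hnb w).y e = (S.k0fc hc hnb w).y e' →
    S.SAr w ((S.k0fc hc hnb w).x e) ((S.k0fc hc hnb w).y e) →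
    (S.k0fc hc hnb w).z e = (S.k0fc hc hnb w).z e' → ∃ h : ↥(stabilizer H w), h • e = e'
  oth : ∀ (u : S.EV w) (q : S.NV w) (e e' : FL (S.k0 hc w)), q.1 ∈ F → S.SD w u.1 q.1 →
    (S.kfM hc hnb w O hm hn).Kp e → (S.k0fc hc hnb w).x e = Sum.inl q →
    (S.k0fc hc hnb w).x e' = Sum.inl q → (S.k0fc hc hnb w).y e = (S.k0fc hc hnb w).y e' →
    S.SAr w ((S.k0fc hc hnb w).x e) ((S.k0fc hc hnb w).y e) →
    (S.k0fc hc hnb w).z e' ≠ Sum.inr u → ∃ h : ↥(stabilizer H w), h • e = e'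
  dq : ∀ (q : S.NV w) (e : FL (S.k0 hc w)), q.1 ∈ F → (∀ u, ¬ S.SD w u q.1) →
    (S.kfM hc hnb w O hm hn).Kp e → (S.k0fc hc hnb w).y e ≠ Sum.inl q
  pj : ∀ (u : S.EV w) (q : S.NV w) (e : FL (S.k0 hc w)) (d : S.SV w), q.1 ∈ F →
    S.SD w u.1 q.1 → (S.kfM hc hnb w O hm hn).Kp e → (S.k0fc hc hnb w).x e = Sum.inl q →
    S.SAr w ((S.k0fc hc hnb w).x e) ((S.k0fc hc hnb w).y e) →
    S.SAr w ((S.k0fc hc hnb w).y e) d → S.fq w O d = S.fq w O (Sum.inr u) → d = Sum.inr u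

/-- THE HUBS IN `F` ARE THIN -/
structure ThinF : Prop where
  own : ∀ (q : S.NV w) (e e' : FL (S.k0 hc w)), q.1 ∈ F → ¬ (S.kfM hc hnb w O hm hn).Kp e →
    ¬ (S.kfM hc hnb w O hm hn).Kp e' → (S.k0fc hc hnb w).x e = Sum.inl q →
    (S.k0fc hc hnb w).x e' = Sum.inl q → (S.k0fc hc hnb w).y e = (S.k0fc hc hnb w).y e' →
    S.SAr w ((S.k0fc hc hnb w).x e) ((S.k0fc hc hnb w).y e) →
    (S.k0fc hc hnb w).z e = (S.k0fc hc hnb w).z e' → ∃ h : ↥(stabilizer H w), h • e = e'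
  oth : ∀ (u : S.EV w) (q : S.NV w) (e e' : FL (S.k0 hc w)), q.1 ∈ F → S.SD w u.1 q.1 →
    (S.kfM hc hnb w O hm hn).Kp e → (S.k0fc hc hnb w).x e = Sum.inl q →
    (S.k0fc hc hnb w).x e' = Sum.inl q → (S.k0fc hc hnb w).y e = (S.k0fc hc hnb w).y e' →
    S.SAr w ((S.k0fc hc hnb w).x e) ((S.k0fc hc hnb w).y e) →
    (S.k0fc hc hnb w).z e' ≠ Sum.inr u → ∃ h : ↥(stabilizer H w), h • e = e'
  hub : ∀ (q : S.NV w) (e e' : FL (S.k0 hc w)), q.1 ∈ F → e ∈ (S.k0fc hc hnb w).strs →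
    e' ∈ (S.k0fc hc hnb w).strs → (S.k0fc hc hnb w).y e = Sum.inl q →
    (S.k0fc hc hnb w).y e' = Sum.inl q → (S.k0fc hc hnb w).z e = (S.k0fc hc hnb w).z e' →
    (S.k0fc hc hnb w).IJ (Sum.inl q) ((S.k0fc hc hnb w).x e) ((S.k0fc hc hnb w).x e') →
    ∃ h : ↥(stabilizer H w), h • e = e'
  dq : ∀ (q : S.NV w) (e : FL (S.k0 hc w)), q.1 ∈ F → (∀ u, ¬ S.SD w u q.1) →
    (S.kfM hc hnb w O hm hn).Kp e → (S.k0fc hc hnb w).y e ≠ Sum.inl q
  pj : ∀ (u : S.EV w) (q : S.NV w) (e : FL (S.k0 hc w)) (d : S.SV w), q.1 ∈ F →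
    S.SD w u.1 q.1 → (S.kfM hc hnb w O hm hn).Kp e → (S.k0fc hc hnb w).x e = Sum.inl q →
    S.SAr w ((S.k0fc hc hnb w).x e) ((S.k0fc hc hnb w).y e) →
    S.SAr w ((S.k0fc hc hnb w).y e) d → S.fq w O d = S.fq w O (Sum.inr u) → d = Sum.inr u

variable {hc hnb w O hm hn F}

theorem ThinF.g (ht : S.ThinF hc hnb w O hm hn F) : S.ThinG hc hnb w O hm hn F where
  own1 _ q e e' hq _ := ht.own q e e' hq
  oth := ht.oth
  dq := ht.dq
  pj := ht.pj

theorem TF.smul (h : S.FO w O F) (g : ↥(stabilizer H w)) {y n : S.SV w}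
    (k : S.TF hc hnb w O hm hn F y n) : S.TF hc hnb w O hm hn F (g • y) (g • n) := by
  rcases k with ⟨u, rfl⟩ | ⟨q, hq, rfl⟩ | ⟨q, hq, rfl, k⟩
  · exact Or.inl ⟨g • u, rfl⟩
  · exact Or.inr (Or.inl ⟨g • q, h.inv g hq, rfl⟩)
  · refine Or.inr (Or.inr ⟨g • q, h.inv g hq, rfl, fun e he hx hy => ?_⟩)
    refine k (g⁻¹ • e) (he.smul g⁻¹) ?_ ?_
    · rw [FC.x_smul, hx, inv_smul_smul]
    · rw [FC.y_smul, hy, inv_smul_smul]

/-- no corner between in-arrows at the node `q` of the third kind -/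
theorem FO.no_ic (h : S.FO w O F) (hk : S.KSq w O F) {y n m : S.SV w} {q : S.NV w}
    (hq : q.1 ∈ F) (hnq : n = Sum.inl q)
    (hT : ∀ e, (S.kfM hc hnb w O hm hn).Kp e →
      (S.k0fc hc hnb w).x e = n → (S.k0fc hc hnb w).y e ≠ y)
    (hi : (S.k0fc hc hnb w).IC y n m) :
    (∃ u, y = Sum.inr u) ∨ (∃ q : S.NV w, q.1 ∈ F ∧ y = Sum.inl q) := by
  obtain ⟨⟨e, h1, h2, h3⟩, h4, h5⟩ := hi
  have hnk : ¬ (S.kfM hc hnb w O hm hn).Kp e := fun k => hT e k h1 h2
  obtain ⟨u, q', x, x', hs, hne, hd, hp⟩ := h.drop hk hnk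
  rcases hp with ⟨p1, p2, p3⟩ | ⟨p1, p2, p3⟩ | ⟨p1, p2, p3⟩ | p1
  · rcases hd with hd | hd | ⟨d1, d2, d3, d4, d5⟩
    · left
      rw [← h2, p1, S.rho_far hd]
      exact ⟨_, rfl⟩
    · right
      refine ⟨⟨q', h.mem hd⟩, hd, ?_⟩
      rw [← h2, p1, S.rho_near (h.mem hd)]
    · exfalso
      rw [h1, hnq, S.rho_near hs.l.1] at p2
      have e1 := Sum.inl.inj p2
      have : q.1 = x := congrArg Subtype.val e1
      rw [this] at hq
      exact h.ncs hq hs.adj hs.l.2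
  · exfalso
    rw [h3] at p3
    rw [p3] at h5
    cases h5
  · exfalso
    rw [h1, hnq] at p2
    cases p2
  · left
    rw [← h2]
    exact ⟨u, p1⟩

theorem TF.ic (h : S.FO w O F) (hk : S.KSq w O F) {y n m : S.SV w}
    (hi : (S.k0fc hc hnb w).IC y n m) (k : S.TF hc hnb w O hm hn F y n) :
    S.TF hc hnb w O hm hn F y m := by
  rcases k with k | k | ⟨q, hq, e, k⟩
  · exact Or.inl k
  · exact Or.inr (Or.inl k)
  · rcases h.no_ic hk hq e k hi with k | k
    · exact Or.inl k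
    · exact Or.inr (Or.inl k)

/-- a flag at a reversed arrow outside `T` -/
theorem FO.fx (h : S.FO w O F) {k p : S.SV w}
    (hf : (S.kfM hc hnb w O hm hn).Fx (S.TF hc hnb w O hm hn F) k p) :
    ∃ (u : S.EV w) (q p' : S.NV w), q.1 ∈ F ∧ S.SD w u.1 q.1 ∧ S.K.ar q.1 p'.1 ∧
      k = Sum.inl q ∧ p = Sum.inl p' ∧ S.SAr w p (Sum.inr u) ∧
      S.fq w O k = S.fq w O (Sum.inr u) ∧
      ∃ e, (S.kfM hc hnb w O hm hn).Kp e ∧ (S.k0fc hc hnb w).x e = k ∧
        (S.k0fc hc hnb w).y e = p := by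
  rcases h.fl hf.1 with ⟨u, q, p', hq, hp, h1, h2, h3, h4, h5⟩ | ⟨q, hq, h1, h2, h3⟩
  · have hc' := h2.1.two h3
    refine ⟨⟨u, hc'.1⟩, ⟨q, hq⟩, ⟨p', hp⟩, h1, h2, h3, h4, h5, ?_, ?_, ?_⟩
    · rw [h5]
      exact SAr.up (S := S) ⟨p', hp⟩ ⟨u, hc'.1⟩ hc'.2.2
    · rw [h4]
      exact fq_inr.2 (Sk.inl.2 ⟨h2, h.nop h1 _⟩)
    · by_contra hcon
      push Not at hcon
      exact hf.2 (Or.inr (Or.inr ⟨⟨q, hq⟩, h1, h4, hcon⟩))
  · exact absurd (Or.inr (Or.inl ⟨⟨q, hq⟩, h1, h3⟩)) hf.2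

/-- a kept flag at a hub of `F` in the role of `x` gives one in the role of `y` -/
theorem ThinG.dqx (ht : S.ThinG hc hnb w O hm hn F) {q : S.NV w} {e : FL (S.k0 hc w)}
    (hq : q.1 ∈ F) (hd : ∀ u, ¬ S.SD w u q.1) (he : (S.kfM hc hnb w O hm hn).Kp e) :
    (S.k0fc hc hnb w).x e ≠ Sum.inl q := fun k => ht.dq q _ hq hd he.v.r k

theorem ThinG.dqz (ht : S.ThinG hc hnb w O hm hn F) {q : S.NV w} {e : FL (S.k0 hc w)}
    (hq : q.1 ∈ F) (hd : ∀ u, ¬ S.SD w u q.1) (he : (S.kfM hc hnb w O hm hn).Kp e) :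
    (S.k0fc hc hnb w).z e ≠ Sum.inl q := fun k => ht.dq q _ hq hd he.r k

/-- no strand at a sink -/
theorem no_ar_inr {u : S.EV w} {d : S.Q w O} : ¬ S.arQ w O (S.fq w O (Sum.inr u)) d := by
  intro k
  have k' := arQ_fq.1 k
  rw [GN_sk (Sk.inr.2 rfl : S.Sk w O u (Sum.inr u))] at k'
  exact k'

/-- THE FOLD -/
theorem ThinG.fold (h : S.FO w O F) (hk : S.KSq w O F) (ht : S.ThinG hc hnb w O hm hn F) :
    (S.kfM hc hnb w O hm hn).Fold (S.TF hc hnb w O hm hn F) where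
  T_smul g y n k := k.smul h g
  T_ic y n m hi k := TF.ic h hk hi k
  pinj := by
    intro k p a b hf ha hb he
    obtain ⟨u, q, p', h1, h2, h3, rfl, rfl, h4, h5, e, he1, he2, he3⟩ := h.fx hf
    have ha' : S.SAr w (Sum.inl p') a := ha
    have hb' : S.SAr w (Sum.inl p') b := hb
    have hab : S.fq w O a = S.fq w O b := he
    have key : ∀ d, S.SAr w (Sum.inl p') d → S.fq w O d = S.fq w O (Sum.inr u) →
        d = Sum.inr u := by
      intro d hd hdu
      refine ht.pj u q e d h1 h2 he1 he2 ?_ ?_ hdu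
      · rw [he2, he3]
        exact SAr.hor (S := S) q p' h3
      · rw [he3]
        exact hd
    rcases SAr.two _ _ _ _ ha' hb' h4 with c | c | c
    · exact c
    · rw [c] at hab ⊢
      exact key a ha' hab
    · rw [c] at hab ⊢
      exact (key b hb' hab.symm).symm
  zex := by
    intro k p hf
    obtain ⟨u, q, p', h1, h2, h3, rfl, rfl, h4, h5, -⟩ := h.fx hf
    obtain ⟨c, hcne, hs⟩ := h2.1.step h3
    have hQ := (Qs.k0s hc hs hcne.symm).symm.rot
    obtain ⟨f, -, f1, f2, f3, -⟩ := hQ.fl (S.k0P hc w) (S.k0P_nd hc hnb w)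
    have g1 : (S.k0fc hc hnb w).x f = Sum.inl q := f1.trans (S.rho_near q.2)
    have g2 : (S.k0fc hc hnb w).y f = Sum.inl p' := f2.trans (S.rho_near p'.2)
    have g3 : (S.k0fc hc hnb w).z f = Sum.inr u := f3
    refine ⟨f, fun hkp => ?_, g1, g2⟩
    have := S.kp_nb hkp
    rw [g1, g3] at this
    exact this h5
  zp := by
    intro e hek hf
    obtain ⟨u, q, p', h1, h2, h3, h4, h5, h6, h7, e', he1, he2, he3⟩ := h.fx hf
    obtain ⟨u1, q1, x, x', hs, hne, hd, hp⟩ := h.drop hk hek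
    rcases hp with ⟨p1, p2, p3⟩ | ⟨p1, p2, p3⟩ | ⟨p1, p2, p3⟩ | p1
    · exfalso
      rw [h4, S.rho_near hs.l.1] at p2
      have : q.1 = x := congrArg Subtype.val (Sum.inl.inj p2)
      rw [this] at h1
      exact h.ncs h1 hs.adj hs.l.2
    · by_cases hu : u1 = u
      · subst hu
        constructor
        · rw [p3]
          exact h6
        · show S.fq w O _ = S.fq w O _
          rw [p3]
          exact h7.symm
      · exfalso
        obtain ⟨g, hg⟩ := ht.oth u q e' e h1 h2 he1 (he2.trans h4) h4 he3 (by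
          rw [he2, he3]
          exact hf.1.1) (by
          rw [p3]
          exact fun k => hu (Sum.inr.inj k))
        rw [← hg] at hek
        exact hek (he1.smul g)
    · exfalso
      rw [h4] at p2
      cases p2
    · exfalso
      rw [h5] at p1
      cases p1
  zu := by
    intro e e' hek hek' hf hx hy
    obtain ⟨u, q, p', h1, h2, h3, h4, h5, h6, h7, e1, he1, he2, he3⟩ := h.fx hf
    have key : ∀ e : FL (S.k0 hc w), ¬ (S.kfM hc hnb w O hm hn).Kp e →
        (S.k0fc hc hnb w).x e = Sum.inl q → (S.k0fc hc hnb w).y e = (S.k0fc hc hnb w).y e1 →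
        (S.k0fc hc hnb w).z e = Sum.inr u := by
      intro e hek k1 k2
      by_contra hz
      obtain ⟨g, hg⟩ := ht.oth u q e1 e h1 h2 he1 (he2.trans h4) k1 k2.symm (by
        rw [he2, he3]
        exact hf.1.1) hz
      rw [← hg] at hek
      exact hek (he1.smul g)
    refine ht.own1 u q e e' h1 h2 hek hek' h4 (hx.symm.trans h4) hy hf.1.1 ?_
    rw [key e hek h4 he3.symm, key e' hek' (hx.symm.trans h4) (hy.symm.trans he3.symm)]
  kex := by
    intro k p hf
    obtain ⟨u, q, p', h1, h2, h3, h4, h5, h6, h7, e1, he1, he2, he3⟩ := h.fx hf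
    exact ⟨e1, he1, he2, he3⟩
  ku := by
    intro e e' hek hek' hf hx hy
    obtain ⟨u, q, p', h1, h2, h3, h4, h5, h6, h7, -⟩ := h.fx hf
    refine ht.oth u q e e' h1 h2 hek h4 (hx.symm.trans h4) hy hf.1.1 ?_
    intro k
    have := S.kp_nb hek'
    rw [k, ← hx] at this
    exact this h7
  nb g := S.kf_nb g
  ds := by
    intro e he hT hek
    obtain ⟨u, q, x, x', hs, hne, hd, hp⟩ := h.drop hk hek
    rcases hp with ⟨p1, p2, p3⟩ | ⟨p1, p2, p3⟩ | ⟨p1, p2, p3⟩ | p1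
    · exfalso
      rcases hd with hd | hd | ⟨d1, d2, d3, d4, d5⟩
      · apply hT
        left
        rw [p1, S.rho_far hd]
        exact ⟨_, rfl⟩
      · apply hT
        right; left
        exact ⟨⟨q, h.mem hd⟩, hd, by rw [p1, S.rho_near (h.mem hd)]⟩
      · have a2 : S.SAr w ((S.k0fc hc hnb w).y e) ((S.k0fc hc hnb w).z e) := he.2
        rw [p1, p3] at a2
        exact FC.not_both (K := S.k0 hc w) a2 (sar_hor hs.r.1 d1 d4)
    · have a1 : S.SAr w ((S.k0fc hc hnb w).x e) ((S.k0fc hc hnb w).y e) := he.1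
      rw [p1, p2] at a1
      by_cases hw : w ∈ S.J q
      · have har : S.K.ar q x := by
          rw [S.rho_near hw, S.rho_near hs.l.1] at a1
          cases a1 with
          | hor _ _ k => exact k
        rcases hd with hd | hd | ⟨d1, d2, d3, d4, d5⟩
        · exact absurd hw hd
        · by_cases hsd : ∃ u0, S.SD w u0 q
          · obtain ⟨u0, hsd⟩ := hsd
            have c := hsd.1.two har
            refine ⟨he.1, ?_⟩
            show S.arQ w O (S.fq w O ((S.k0fc hc hnb w).y e)) (S.fq w O ((S.k0fc hc hnb w).x e))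
            rw [p1, p2]
            have k3 : S.fq w O (S.rho w q) = S.fq w O (Sum.inr ⟨u0, c.1⟩) := by
              rw [S.rho_near hw]
              exact fq_inr.2 (Sk.inl.2 ⟨hsd, h.nop hd _⟩)
            rw [k3]
            exact arQ_up c.1 c.2
          · push Not at hsd
            exfalso
            apply hT
            right; right
            refine ⟨⟨q, hw⟩, hd, by rw [p2, S.rho_near hw], fun e' he' hx' _ => ?_⟩
            refine ht.dqx (q := ⟨q, hw⟩) hd hsd he' ?_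
            rw [hx', p2, S.rho_near hw]
        · exact absurd (S.K.ar_rk _ _ har) (not_lt.2 (S.K.ar_rk _ _ d3).le)
      · exfalso
        rw [S.rho_far hw] at a1
        cases a1
    · exfalso
      have a1 : S.SAr w ((S.k0fc hc hnb w).x e) ((S.k0fc hc hnb w).y e) := he.1
      rw [p2] at a1
      cases a1
    · exact absurd (Or.inl ⟨u, p1⟩) hT
  dz := by
    intro e he hT hek hfl
    rcases h.fl hfl with ⟨u, q, p', hq, hp, h1, h2, h3, h4, h5⟩ | ⟨q, hq, h1, h2, h3⟩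
    · exact hT (Or.inr (Or.inl ⟨⟨q, hq⟩, h1, h4⟩))
    · exact ht.dqz (q := ⟨q, hq⟩) h1 h2 hek h3
  di := by
    intro e he hT hek
    obtain ⟨u, q, x, x', hs, hne, hd, hp⟩ := h.drop hk hek
    rcases hp with ⟨p1, p2, p3⟩ | ⟨p1, p2, p3⟩ | ⟨p1, p2, p3⟩ | p1
    · rcases hd with hd | hd | ⟨d1, d2, d3, d4, d5⟩
      · exfalso
        apply hT
        left
        rw [p1, S.rho_far hd]
        exact ⟨_, rfl⟩
      · exfalso
        apply hT
        right; left
        exact ⟨⟨q, h.mem hd⟩, hd, by rw [p1, S.rho_near (h.mem hd)]⟩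
      · show (S.kffc hc w O hm hn).IJ _ (S.fq w O _) (S.fq w O _)
        rw [p2, p3, d5]
        exact Relation.EqvGen.refl _
    · exfalso
      have a1 : S.SAr w ((S.k0fc hc hnb w).z e) ((S.k0fc hc hnb w).y e) := he.2
      rw [p3] at a1
      cases a1
    · exfalso
      have a1 : S.SAr w ((S.k0fc hc hnb w).x e) ((S.k0fc hc hnb w).y e) := he.1
      rw [p2] at a1
      cases a1
    · exact absurd (Or.inl ⟨u, p1⟩) hT
  tops := by
    intro g hg hor
    exfalso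
    have hy := (S.kfM hc hnb w O hm hn).y_ph g
    have hx := (S.kfM hc hnb w O hm hn).x_ph g
    have hkp : (S.kfM hc hnb w O hm hn).Kp ((S.kfM hc hnb w O hm hn).ph g) := ⟨g, rfl⟩
    have nsink : ∀ u : S.EV w, (S.kffc hc w O hm hn).y g ≠ S.fq w O (Sum.inr u) := by
      intro u k
      have a2 : S.arQ w O ((S.kffc hc w O hm hn).y g) ((S.kffc hc w O hm hn).z g) := hg.2
      rw [k] at a2
      exact no_ar_inr a2
    have nhub : ∀ q : S.NV w, q.1 ∈ F → (S.k0fc hc hnb w).y ((S.kfM hc hnb w O hm hn).ph g) ≠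
        Sum.inl q := by
      intro q hq k
      by_cases hsd : ∃ u0, S.SD w u0 q.1
      · obtain ⟨u0, hsd⟩ := hsd
        have hd0 := hsd.1
        obtain ⟨hw, a, b, hne, ha, hb, hG⟩ := hd0
        have c := hsd.1.two ha
        apply nsink ⟨u0, c.1⟩
        rw [← hy, k]
        exact fq_inr.2 (Sk.inl.2 ⟨hsd, h.nop hq _⟩)
      · push Not at hsd
        exact ht.dq q _ hq hsd hkp k
    rcases hor with (⟨u, k⟩ | ⟨q, hq, k⟩ | ⟨q, hq, hnq, k⟩) | k
    · apply nsink u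
      rw [← hy, k]
      rfl
    · exact nhub q hq k
    · exact k _ hkp rfl rfl
    · have hfl : (S.kfM hc hnb w O hm hn).Fl
          ((S.k0fc hc hnb w).y ((S.kfM hc hnb w O hm hn).ph g))
          ((S.k0fc hc hnb w).x ((S.kfM hc hnb w O hm hn).ph g)) := by
        refine ⟨k, ?_⟩
        rw [hx, hy]
        exact hg.1
      rcases h.fl hfl with ⟨u, q, p', hq, hp, h1, h2, h3, h4, h5⟩ | ⟨q, hq, h1, h2, h3⟩
      · exact nhub ⟨q, hq⟩ h1 h4
      · exact ht.dqx (q := ⟨q, hq⟩) h1 h2 hkp h3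

theorem ThinF.fold (h : S.FO w O F) (hk : S.KSq w O F) (ht : S.ThinF hc hnb w O hm hn F) :
    (S.kfM hc hnb w O hm hn).Fold (S.TF hc hnb w O hm hn F) := ht.g.fold h hk

/-- the lost strands of `T` -/
theorem ThinF.ht (h : S.FO w O F) (hk : S.KSq w O F) (ht : S.ThinF hc hnb w O hm hn F) :
    (S.kfM hc hnb w O hm hn).Slk (S.TF hc hnb w O hm hn F) 0 := by
  have key : oc ↥(stabilizer H w) ((S.kfM hc hnb w O hm hn).Tl (S.TF hc hnb w O hm hn F)) ≤
      oc ↥(stabilizer H w) (FM.Xt (S.k0fc hc hnb w) (S.TF hc hnb w O hm hn F)) := by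
    refine SAF.oc_le_of_rel (SAF.FinOrb.mono ?_ (S.k0fc hc hnb w).fin_pols)
      (fun e t => t = NF.pol ((S.k0fc hc hnb w).y e) ((S.k0fc hc hnb w).z e)
        ((S.k0fc hc hnb w).Pc ((S.k0fc hc hnb w).y e) ((S.k0fc hc hnb w).x e))) ?_ ?_
    · rintro _ ⟨y, a, n, rfl, h1, h2, h3, -⟩
      exact ⟨y, a, n, rfl, h2, h1, h3⟩
    · rintro e ⟨he, hT, -⟩
      exact ⟨_, ⟨_, _, _, rfl, he.1, he.2, FC.co e, hT⟩, rfl⟩
    · rintro a ⟨ha, haT, -⟩ b ⟨hb, hbT, -⟩ _ - _ - rfl rfl ⟨g, e⟩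
      rw [NF.smul_pol, FC.Pc_smul] at e
      obtain ⟨e1, e2, e3⟩ := NF.pol.inj e
      rw [e1] at e3
      have hij := FC.Pc_eq.1 e3
      have gy : (S.k0fc hc hnb w).y (g • a) = (S.k0fc hc hnb w).y b := by
        rw [FC.y_smul, e1]
      have gz : (S.k0fc hc hnb w).z (g • a) = (S.k0fc hc hnb w).z b := by
        rw [FC.z_smul, e2]
      have gs : g • a ∈ (S.k0fc hc hnb w).strs := (S.k0fc hc hnb w).strs_inv g a ha
      have hij' : (S.k0fc hc hnb w).IJ ((S.k0fc hc hnb w).y b)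
          ((S.k0fc hc hnb w).x (g • a)) ((S.k0fc hc hnb w).x b) := by
        rw [FC.x_smul]
        exact hij
      suffices hs : ∃ h : ↥(stabilizer H w), h • (g • a) = b by
        obtain ⟨k, hk⟩ := hs
        exact ⟨k * g, by rw [mul_smul, hk]⟩
      have nsink : ∀ u : S.EV w, (S.k0fc hc hnb w).y b ≠ Sum.inr u := by
        intro u k
        have a2 : S.SAr w ((S.k0fc hc hnb w).y b) ((S.k0fc hc hnb w).z b) := hb.2
        rw [k] at a2
        cases a2
      by_cases hF : ∃ q : S.NV w, q.1 ∈ F ∧ (S.k0fc hc hnb w).y b = Sum.inl q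
      · obtain ⟨q, hq, hyb⟩ := hF
        rw [hyb] at hij' gy
        exact ht.hub q _ _ hq gs hb gy hyb gz hij'
      · rcases hbT with ⟨u, k⟩ | k | ⟨q, hq, hnq, k⟩
        · exact absurd k (nsink u)
        · exact absurd k hF
        · -- the piece has one node
          have hno : ∀ m, ¬ (S.k0fc hc hnb w).IC ((S.k0fc hc hnb w).y b)
              ((S.k0fc hc hnb w).x b) m := by
            intro m hi
            rcases h.no_ic hk hq hnq k hi with ⟨u, k'⟩ | k'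
            · exact nsink u k'
            · exact hF k'
          have hone : ∀ m m', (S.k0fc hc hnb w).IJ ((S.k0fc hc hnb w).y b) m m' →
              (m = (S.k0fc hc hnb w).x b ↔ m' = (S.k0fc hc hnb w).x b) := by
            intro m m' hmm
            induction hmm with
            | rel m m' hi =>
              constructor
              · intro e
                rw [e] at hi
                exact absurd hi (hno _)
              · intro e
                rw [e] at hi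
                exact absurd hi.symm' (hno _)
            | refl m => exact Iff.rfl
            | symm m m' _ ih => exact ih.symm
            | trans m m' m'' _ _ i1 i2 => exact i1.trans i2
          have hx : (S.k0fc hc hnb w).x (g • a) = (S.k0fc hc hnb w).x b :=
            (hone _ _ hij').2 rfl
          exact ht.own q _ _ hq (fun kp => k _ kp hx gy) (fun kp => k _ kp rfl rfl)
            (hx.trans hnq) hnq gy gs.1 gz
  exact key.trans ((Nat.le_add_right _ _).trans (Nat.le_add_right _ _))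

/-- the equality case: no private pole outside `T` is lost (then `Fold.pols_inj`, `Fold.one_part`) -/
theorem ThinF.eq (h : S.FO w O F) (hk : S.KSq w O F) (ht : S.ThinF hc hnb w O hm hn F)
    (he : (S.kf hc w O).pexc ≤ (S.k0 hc w).pexc) :
    (S.kffc hc w O hm hn).exc ≤ (S.k0fc hc hnb w).exc ∧
    oc ↥(stabilizer H w) ((S.kfM hc hnb w O hm hn).Xgt (S.TF hc hnb w O hm hn F)) ≤
      oc ↥(stabilizer H w) (S.kffc hc w O hm hn).pols := by
  have k : (S.kffc hc w O hm hn).exc ≤ (S.k0fc hc hnb w).exc := by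
    rw [S.k0fc_exc, S.kffc_exc]
    exact he
  exact ⟨k, (ht.fold h hk).pols_of_exc (ThinF.ht h hk ht) (by simpa using k)⟩

/-- without folded hubs only `KSq` is needed -/
theorem ThinF.empty : S.ThinF hc hnb w O hm hn ∅ where
  own _ _ _ h := h.elim
  oth _ _ _ _ h := h.elim
  hub _ _ _ h := h.elim
  dq _ _ h := h.elim
  pj _ _ _ _ h := h.elim

/-- THE EXC-LAW OF THE FOLDED SLICE -/
theorem k0_exc_F (h : S.FO w O F) (hk : S.KSq w O F) (ht : S.ThinF hc hnb w O hm hn F) :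
    (S.k0 hc w).pexc ≤ (S.kf hc w O).pexc := by
  have h := (ht.fold h hk).exc_le (ThinF.ht h hk ht)
  rw [S.k0fc_exc, S.kffc_exc] at h
  simpa using h

end

end SyQ

end Pool.Agent.DI
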