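import Pool.Agent.DI.Nq
import Pool.Agent.DI.FCg

/-!
# Self pieces of fat softs: the general fold

`M.Fold T`: the general fold of `FCg`. `FHyp T P`: no piece outside `T` is one-sided, the class of a vertex
with a self piece and without `P` is thin and consists of one vertex. `Fold.nN_le : C1.nN ≤ C.nNP P` if no private pole is lost
(`oc (M.Xgt T) ≤ oc C1.pols`; this holds at constant pole excess: `Fold.pols_of_exc`); `Fold.nN_surj`: at
equality every self piece of a vertex with `P` is a part of a self piece of a fat class, in particular it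
is not in `T`.
-/

namespace Pool.Agent.DI

open MulAction
open Pool.Agent.SAF (InC orbs FinOrb oc mk_eq_iff FinOrb_iff)

namespace FM

variable {H V F V1 F1 : Type} [Group H] [MulAction H V] [MulAction H F] [MulAction H V1]
    [MulAction H F1] {K : GX H V} {K1 : GX H V1} {C : FC K F} {C1 : FC K1 F1} (M : FM C C1)
    (T : V → V → Prop) (P : V → Prop)

/-- what is needed of the fold -/
structure FHyp : Prop where
  opp : ∀ y a n m, ¬ T y n → K.ar n y → ¬ M.Fl n y → K.ar y a → C.IJ y n m → C.Co m y a →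
    ∃ b m', K.ar y b ∧ b ≠ a ∧ C.IJ y n m' ∧ C.Co m' y b
  thin : ∀ e, C.Sf e → ¬ T (C.y e) (C.x e) → ¬ P (C.y e) → ¬ C.Fat (C.y e)
  root : ∀ e, C.Sf e → ¬ T (C.y e) (C.x e) → ¬ P (C.y e) → ∀ g, C1.y g = M.f (C.y e) →
    C.y (M.ph g) = C.y e
  rt : ∀ e, C.Sf e → ¬ T (C.y e) (C.x e) → ¬ P (C.y e) → ∀ k, M.Fl k (C.y e) → ¬ T (C.y e) k
  rp : ∀ e, C.Sf e → ¬ T (C.y e) (C.x e) → ¬ P (C.y e) → ∀ b, ¬ M.Fl (C.y e) b
  sm : ∀ e e', C.Sm e e' → M.Kp e → M.Kp e'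

variable {M T P}

namespace Fold

variable (R : M.Fold T)
include R

/-- each private pole comes from one orbit outside `T`, if no private pole is lost -/
theorem pols_inj50 (he : oc H (M.Xgt T) ≤ oc H C1.pols) {s1 s2 : NF V F} {t1 t2 : NF V1 F1}
    (h1 : s1 ∈ M.Xgt T) (h2 : s2 ∈ M.Xgt T) (k1 : M.Pt2 T t1 s1) (k2 : M.Pt2 T t2 s2)
    (h : ∃ g : H, g • t1 = t2) : ∃ g : H, g • s1 = s2 := by
  classical
  by_contra hne
  have hex : ∀ t : NF V1 F1, ∃ s : NF V F, t ∈ C1.pols → (s ∈ M.Xgt T ∧ M.Pt2 T t s ∧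
      ∀ g : H, g • s ≠ s2) := by
    intro t
    by_cases ht : t ∈ C1.pols
    · obtain ⟨s, hs, hr⟩ := R.exists_p2 ht
      by_cases hm : ∃ g : H, g • s = s2
      · obtain ⟨g, hg⟩ := R.p2_eq hr k2 hm
        obtain ⟨g', hg'⟩ := h
        refine ⟨(g⁻¹ * g') • s1, fun _ => ⟨R.xg_inv _ h1, ?_, ?_⟩⟩
        · have e1 : t = (g⁻¹ * g') • t1 := by rw [mul_smul, hg', ← hg, inv_smul_smul]
          rw [e1]
          exact p2_smul R _ k1
        · intro k hk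
          exact hne ⟨k * (g⁻¹ * g'), by rw [mul_smul]; exact hk⟩
      · push Not at hm
        exact ⟨s, fun _ => ⟨hs, hr, hm⟩⟩
    · exact ⟨s1, fun k => absurd k ht⟩
  choose G hG using hex
  have := SAF.oc_lt_of_inj (H := H) (s := C1.pols) (SAF.FinOrb.mono Xg_sub C.fin_pols) G
    (fun a ha => (hG a ha).1)
    (fun a ha b hb e => R.p2_eq (hG a ha).2.1 (hG b hb).2.1 e) h2 (fun a ha g => (hG a ha).2.2 g)
  omega

theorem one_part50 (he : oc H (M.Xgt T) ≤ oc H C1.pols) {y1 a1 n1 m1 y2 a2 n2 m2 : V}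
    (h1 : C.Co m1 y1 a1) (h1m : C.IJ y1 n1 m1) (h1' : K.ar n1 y1) (h1a : K.ar y1 a1)
    (f1 : ¬ M.Fl n1 y1) (T1 : ¬ T y1 n1) (h2 : C.Co m2 y2 a2) (h2m : C.IJ y2 n2 m2)
    (h2' : K.ar n2 y2) (h2a : K.ar y2 a2) (f2 : ¬ M.Fl n2 y2) (T2 : ¬ T y2 n2)
    {g : H} (ey : g • M.f y1 = M.f y2) (ea : g • M.f a1 = M.f a2)
    (en : C1.IJ (M.f y2) (g • M.f n1) (M.f n2)) :
    ∃ k : H, k • y1 = y2 ∧ k • a1 = a2 ∧ C.IJ y2 (k • n1) n2 := by
  obtain ⟨k, hk⟩ := R.pols_inj50 he (R.p2_g h1' h1a h1m h1 f1 T1) (R.p2_g h2' h2a h2m h2 f2 T2)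
    ⟨y1, a1, n1, rfl, h1', h1a, f1, T1, rfl⟩ ⟨y2, a2, n2, rfl, h2', h2a, f2, T2, rfl⟩
    ⟨g, by rw [NF.smul_pol, FC.Pc_smul, ey, ea, FC.Pc_eq.2 en]⟩
  rw [NF.smul_pol, FC.Pc_smul] at hk
  obtain ⟨e1, e2, e3⟩ := NF.pol.inj hk
  refine ⟨k, e1, e2, ?_⟩
  rw [e1] at e3
  exact FC.Pc_eq.1 e3

/-- a representative outside `T` of a strand of the quotient -/
theorem exists_rep {g : F1} (hg : g ∈ C1.strs) : ∃ y a n m, ¬ T y n ∧ K.ar y a ∧ K.ar n y ∧
    C.IJ y n m ∧ C.Co m y a ∧ ¬ M.Fl n y ∧ M.f y = C1.y g ∧ M.f a = C1.z g ∧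
    C1.IJ (C1.y g) (M.f n) (C1.x g) := by
  obtain ⟨h2, h1⟩ := id hg
  by_cases hT : T (C.y (M.ph g)) (C.x (M.ph g)) ∨ K.ar (C.y (M.ph g)) (C.x (M.ph g))
  · obtain ⟨y, a, n, k1, k2, k3, k4, k5, k6, k7, k8⟩ := R.tops g hg hT
    exact ⟨y, a, n, n, k1, k2, k3, Relation.EqvGen.refl _, k4, k5, k6, k7, k8⟩
  · push Not at hT
    obtain ⟨hT, hnx⟩ := hT
    have hx : K.ar (C.x (M.ph g)) (C.y (M.ph g)) := by
      rcases C.Ex (M.ph g) with k | k
      · exact absurd k hnx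
      · exact k
    have hxf : ¬ M.Fl (C.x (M.ph g)) (C.y (M.ph g)) := by
      intro k
      have := k.2
      rw [M.x_ph, M.y_ph] at this
      exact FC.not_both this h2
    rcases M.ar_z_back g h1 with k | k
    · refine ⟨_, _, _, _, hT, k, hx, Relation.EqvGen.refl _, FC.co _, hxf, M.y_ph g, M.z_ph g, ?_⟩
      rw [M.x_ph]
      exact Relation.EqvGen.refl _
    · have hic : C.IC (C.y (M.ph g)) (C.x (M.ph g)) (C.z (M.ph g)) := ⟨FC.co _, hx, k.1⟩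
      obtain ⟨o, l1, l2, l3⟩ := R.pol ⟨k, fun l => hT (R.T_ic _ _ _ hic.symm' l)⟩
      refine ⟨_, o, _, _, hT, l1, hx, Relation.EqvGen.rel _ _ hic, l3, hxf, M.y_ph g, ?_, ?_⟩
      · rw [l2, M.z_ph]
      · rw [M.x_ph]
        exact Relation.EqvGen.refl _

/-- a pole with a strand is a pole of the class -/
theorem pole_ar {y b n m : V} (hn : K.ar n y) (hT : ¬ T y n) (hb : K.ar y b) (hm : C.IJ y n m)
    (hc : C.Co m y b) : K1.ar (M.f y) (M.f b) := by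
  obtain ⟨d, d1, d2, d3⟩ := hc
  have hTm : ¬ T y m := fun k => hT ((R.T_ij hm).2 k)
  have hmy : K.ar m y := (FC.IJ.ar hm).1 hn
  have hs : d ∈ C.strs := ⟨by rw [d1, d2]; exact hmy, by rw [d2, d3]; exact hb⟩
  have hTd : ¬ T (C.y d) (C.x d) := by rw [d1, d2]; exact hTm
  by_cases hk : M.Kp d
  · have hz := R.dz d hs hTd hk
    obtain ⟨g, rfl⟩ := hk
    rcases M.ar_z_or g hs.2 with k | k
    · rw [← d2, ← d3, M.y_ph, M.z_ph]
      exact k
    · exact absurd k hz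
  · have hf := R.ds d hs hTd hk
    have h1 := (R.zp d hk ⟨hf, hTd⟩).2
    have h2 := hf.2
    rw [← h1, d2, d3] at h2
    exact h2

/-- the class of a vertex with a self piece and without `P` is thin -/
theorem thin1 (hN : M.FHyp T P) {e : F} (he : C.Sf e) (hT : ¬ T (C.y e) (C.x e))
    (hP : ¬ P (C.y e)) : ¬ C1.Fat (M.f (C.y e)) := by
  rintro ⟨g1, g2, k1, k2, k3, k4, w1, w2, k5⟩
  have hthin := hN.thin e he hT hP
  have y1 := hN.root e he hT hP g1 k1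
  have y2 := hN.root e he hT hP g2 k2
  obtain ⟨⟨-, be⟩, s, s1, -, s3⟩ := id he
  have be' : K.ar (C.y e) (s • C.z e) := by
    have := K.ar_smul s _ _ be
    rwa [s1] at this
  -- the element `s` exchanges the poles
  have sw : ∀ a b, K.ar (C.y e) a → K.ar (C.y e) b → a ≠ b → s • a = b := by
    intro a b ha hb hab
    have sa : K.ar (C.y e) (s • a) := by
      have := K.ar_smul s _ _ ha
      rwa [s1] at this
    have sna : s • a ≠ a := by
      intro k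
      rcases K.two _ _ _ _ be be' ha with l | l | l
      · exact s3 l.symm
      · rw [← l] at k
        exact s3 (smul_left_cancel s k)
      · rw [← l] at k
        exact s3 k
    rcases K.two _ _ _ _ ha hb sa with l | l | l
    · exact absurd l hab
    · exact l.symm
    · exact absurd l.symm sna
  -- two flags at the poles are in one orbit
  have one : ∀ d d' : F, C.y d = C.y e → C.y d' = C.y e → ¬ C.Ow d → ¬ C.Ow d' →
      K.ar (C.y e) (C.z d) → K.ar (C.y e) (C.z d') → ∃ h : H, C.Sm (h • d) d' := by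
    intro d d' h1 h2 o1 o2 h3 h4
    by_contra hne
    push Not at hne
    by_cases hz : C.z d = C.z d'
    · exact hthin ⟨d, d', h1, h2, h3, hz.symm, o1, o2, hne⟩
    · have e1 := sw _ _ h3 h4 hz
      refine hthin ⟨s • d, d', ?_, h2, ?_, ?_, ?_, o2, ?_⟩
      · rw [C.y_smul, h1, s1]
      · rw [C.z_smul, e1]
        exact h4
      · rw [C.z_smul, e1]
      · intro k
        apply o1
        have := k.smul s⁻¹
        rwa [inv_smul_smul] at this
      · intro h k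
        apply hne (h * s)
        rw [mul_smul]
        exact k
  have noO : ∀ g : F1, ¬ C1.Ow g → C.y (M.ph g) = C.y e → ¬ C.Ow (M.ph g) := by
    rintro g hg hy ⟨o1, o2, o3⟩
    apply hg
    rw [hy] at o2 o3
    have key : ∀ b, K.ar (C.y e) b → K1.E (C1.y g) (M.f b) → K1.ar (C1.y g) (M.f b) := by
      intro b hb hE
      rcases hE with k | k
      · exact k
      · exfalso
        apply hN.rp e he hT hP b
        refine ⟨hb, ?_⟩
        rw [← hy, M.y_ph]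
        exact k
    refine ⟨(M.sq_ph g).1 o1, ?_, ?_⟩
    · have := key _ o2 (by rw [M.x_ph]; exact C1.Ex g)
      rwa [M.x_ph] at this
    · have := key _ o3 (by rw [M.z_ph]; exact C1.Ez g)
      rwa [M.z_ph] at this
  have fz1 : M.f (C.z (M.ph g1)) = C1.z g1 := M.z_ph g1
  have fz2 : M.f (C.z (M.ph g2)) = C1.z g1 := by rw [M.z_ph, k4]
  have a1 : K1.ar (C1.y g1) (C1.z g1) := by rw [k1]; exact k3
  have a2 : K1.ar (C1.y g2) (C1.z g2) := by rw [k2, k4]; exact k3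
  have fin : ∀ h : H, ¬ C.Sm (h • M.ph g1) (M.ph g2) := by
    intro h hh
    apply k5 h
    apply M.sm_ph
    rw [M.ph_smul]
    exact hh
  -- the dropped flag at a reversed node
  have drop : ∀ k, M.Fl k (C.y e) → ∃ d, ¬ M.Kp d ∧ C.x d = k ∧ C.y d = C.y e ∧
      K.ar (C.y e) (C.z d) ∧ M.f (C.z d) = M.f k ∧ ¬ C.Ow d := by
    intro k hk
    have hx : M.Fx T k (C.y e) := ⟨hk, hN.rt e he hT hP k hk⟩
    obtain ⟨d, d1, d2, d3⟩ := R.zex k _ hx
    obtain ⟨d4, d5⟩ := R.zp d d1 (by rw [d2, d3]; exact hx)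
    refine ⟨d, d1, d2, d3, ?_, ?_, ?_⟩
    · rw [← d3]
      exact d4
    · rw [d5, d2]
    · rintro ⟨-, o2, -⟩
      rw [d2, d3] at o2
      exact FC.not_both o2 hk.1
  have noK : ∀ (g : F1) (d : F), ¬ M.Kp d → ∀ h : H, ¬ C.Sm (h • M.ph g) d := by
    intro g d hd h hh
    exact hd (hN.sm _ _ hh ⟨h • g, M.ph_smul h g⟩)
  rcases M.ar_z_back g1 a1 with z1 | z1 <;> rcases M.ar_z_back g2 a2 with z2 | z2 <;>
    rw [y1] at z1 <;> rw [y2] at z2
  · obtain ⟨h, hh⟩ := one _ _ y1 y2 (noO _ w1 y1) (noO _ w2 y2) z1 z2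
    exact fin h hh
  · obtain ⟨d, d1, d2, d3, d4, d5, d6⟩ := drop _ z2
    obtain ⟨h, hh⟩ := one _ _ y1 d3 (noO _ w1 y1) d6 z1 d4
    exact noK g1 d d1 h hh
  · obtain ⟨d, d1, d2, d3, d4, d5, d6⟩ := drop _ z1
    obtain ⟨h, hh⟩ := one _ _ y2 d3 (noO _ w2 y2) d6 z2 d4
    exact noK g2 d d1 h hh
  · obtain ⟨d, d1, d2, d3, d4, d5, d6⟩ := drop _ z1
    obtain ⟨d', d1', d2', d3', d4', d5', d6'⟩ := drop _ z2
    obtain ⟨h, hh⟩ := one _ _ d3 d3' d6 d6' d4 d4'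
    have e1 : h • C.z (M.ph g1) = C.z (M.ph g2) := by
      rw [← d2, ← d2', ← hh.xx, C.x_smul]
    have e2 : h • C.y e = C.y e := by
      have : C.y (h • d) = C.y d' := hh.yy
      rwa [C.y_smul, d3, d3'] at this
    have kk1 : M.Kp (C.v (h • M.ph g1)) := Kp.v (Kp.smul h ⟨g1, rfl⟩)
    have kk2 : M.Kp (C.v (M.ph g2)) := Kp.v ⟨g2, rfl⟩
    obtain ⟨s, hs⟩ := R.ku _ _ kk1 kk2 (by
        rw [C.xv, C.yv, C.z_smul, C.y_smul, y1, e1, e2]
        exact ⟨z2, hN.rt e he hT hP _ z2⟩) (by rw [C.xv, C.xv, C.z_smul, e1])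
      (by rw [C.yv, C.yv, C.y_smul, y1, e2, y2])
    apply fin (s * h)
    left
    rw [mul_smul]
    apply C.v_inj
    rw [C.v_smul]
    exact hs

/-- a self piece of a fat class comes from a self piece outside `T` of a vertex with `P` -/
theorem sf_of_sf (hN : M.FHyp T P) (he : oc H (M.Xgt T) ≤ oc H C1.pols) {e1 : F1} (h1 : C1.Sf e1)
    (hf : C1.Fat (C1.y e1)) : ∃ (d : F) (n : V), C.Sf d ∧ ¬ T (C.y d) n ∧ K.ar n (C.y d) ∧
      ¬ M.Fl n (C.y d) ∧ P (C.y d) ∧ C.IJ (C.y d) n (C.x d) ∧ M.f (C.y d) = C1.y e1 ∧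
      C1.IJ (C1.y e1) (M.f n) (C1.x e1) := by
  obtain ⟨hs, g, g1, g2, g3⟩ := h1
  obtain ⟨y, a, n, m, hT, ha, hn, hm, hc, hfl, fy, fa, fn⟩ := R.exists_rep hs
  obtain ⟨b, m', hb, hba, hm', hc'⟩ := hN.opp y a n m hT hn hfl ha hm hc
  have arb := R.pole_ar hn hT hb hm' hc'
  obtain ⟨k, k1, k2, k3⟩ : ∃ k : H, k • y = y ∧ k • a = b ∧ C.IJ y (k • n) n := by
    by_cases hfab : M.f b = M.f a
    · refine R.one_part50 he hc hm hn ha hfl hT hc' hm' hn hb hfl hT (g := 1)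
        (one_smul _ _) (by rw [one_smul, hfab]) ?_
      rw [one_smul]
      exact Relation.EqvGen.refl _
    · have hgz : g • M.f a = M.f b := by
        have b1 : K1.ar (C1.y e1) (C1.z e1) := hs.2
        have b2 : K1.ar (C1.y e1) (M.f b) := by rw [← fy]; exact arb
        have b3 : K1.ar (C1.y e1) (g • C1.z e1) := by
          have := K1.ar_smul g _ _ b1
          rwa [g1] at this
        rcases K1.two _ _ _ _ b1 b2 b3 with e | e | e
        · exact absurd (e.symm.trans fa.symm) hfab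
        · rw [fa, e]
        · exact absurd e.symm g3
      have hij : C1.IJ (M.f y) (g • M.f n) (M.f n) := by
        have c1 : C1.IJ (C1.y e1) (g • M.f n) (g • C1.x e1) := by
          have := fn.smul g
          rwa [g1] at this
        rw [fy]
        exact (c1.trans' g2.symm').trans' fn.symm'
      exact R.one_part50 he hc hm hn ha hfl hT hc' hm' hn hb hfl hT (g := g)
        (by rw [fy]; exact g1) hgz hij
  have hmy : K.ar m y := (FC.IJ.ar hm).1 hn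
  obtain ⟨d, rfl, rfl, rfl⟩ := hc
  have hsd : C.Sf d := by
    refine ⟨⟨hmy, ha⟩, k, k1, ?_, by rw [k2]; exact hba⟩
    have c1 : C.IJ (C.y d) (k • n) (k • C.x d) := by
      have := hm.smul k
      rwa [k1] at this
    exact hm.symm'.trans' (k3.symm'.trans' c1)
  have hTd : ¬ T (C.y d) (C.x d) := fun l => hT ((R.T_ij hm).2 l)
  refine ⟨d, n, hsd, hT, hn, hfl, ?_, hm, fy, fn⟩
  by_contra hP
  have := R.thin1 hN hsd hTd hP
  rw [fy] at this
  exact this hf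

/-- the correspondence of the codes -/
def Cc (M : FM C C1) (T : V → V → Prop) (t1 : NF V1 F1) (t : NF V F) : Prop := ∃ y n,
  t1 = NF.pol (M.f y) (M.f y) (C1.Pc (M.f y) (M.f n)) ∧ t = NF.pol y y (C.Pc y n) ∧
  ¬ T y n ∧ K.ar n y ∧ ¬ M.Fl n y

theorem cc_ex (hN : M.FHyp T P) (he : oc H (M.Xgt T) ≤ oc H C1.pols) : ∀ t1 ∈ C1.sps, ∃ t ∈ C.spP P,
    Cc M T t1 t := by
  rintro _ ⟨e1, rfl, h1, h2⟩
  obtain ⟨d, n, k1, k2, k3, k4, k5, k6, k7, k8⟩ := R.sf_of_sf hN he h2 h1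
  refine ⟨_, ⟨d, rfl, k5, k1⟩, C.y d, n, ?_, ?_, k2, k3, k4⟩
  · rw [k7, FC.Pc_eq.2 k8]
  · rw [FC.Pc_eq.2 k6]

theorem cc_inj {t1 t1' : NF V1 F1} {t t' : NF V F} (h : Cc M T t1 t) (h' : Cc M T t1' t')
    (hg : ∃ g : H, g • t = t') : ∃ g : H, g • t1 = t1' := by
  obtain ⟨y, n, rfl, rfl, a1, a2, a3⟩ := h
  obtain ⟨y', n', rfl, rfl, b1, b2, b3⟩ := h'
  obtain ⟨g, hg⟩ := hg
  rw [NF.smul_pol, FC.Pc_smul] at hg
  obtain ⟨e1, -, e3⟩ := NF.pol.inj hg
  rw [e1] at e3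
  have hij := FC.Pc_eq.1 e3
  have m1 : K.ar (g • n) y' := by
    rw [← e1]
    exact K.ar_smul g _ _ a2
  have m2 : ¬ M.Fl (g • n) y' := by
    rw [← e1]
    exact fun k => a3 k.of_smul
  have m3 : ¬ T y' (g • n) := fun k => b1 ((R.T_ij hij).1 k)
  obtain ⟨s, s1, -, s3⟩ := R.ij_q m3 hij m1 m2 b3
  refine ⟨s * g, ?_⟩
  rw [NF.smul_pol, FC.Pc_smul, ← M.f_smul, ← M.f_smul, mul_smul, mul_smul, e1, s1,
    FC.Pc_eq.2 s3]

/-- THE NUMBER OF THE SELF PIECES OF FAT SOFTS UNDER FOLDS -/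
theorem nN_le (hN : M.FHyp T P) (he : oc H (M.Xgt T) ≤ oc H C1.pols) : C1.nN ≤ C.nNP P :=
  SAF.oc_le_of_rel (C.fin_spP P) (Cc M T) (R.cc_ex hN he)
    (fun _ _ _ _ _ _ _ _ h h' hg => R.cc_inj h h' hg)

/-- at equality every self piece of a vertex with `P` is a part of a self piece of a fat class, outside
`T` -/
theorem nN_surj (hN : M.FHyp T P) (he : oc H (M.Xgt T) ≤ oc H C1.pols) (hle : C.nNP P ≤ C1.nN) {e : F}
    (h : C.Sf e) (hP : P (C.y e)) : ∃ n, NF.pol (M.f (C.y e)) (M.f (C.y e))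
      (C1.Pc (M.f (C.y e)) (M.f n)) ∈ C1.sps ∧ C.IJ (C.y e) n (C.x e) ∧ K.ar n (C.y e) ∧
      ¬ M.Fl n (C.y e) ∧ ¬ T (C.y e) (C.x e) := by
  by_contra hno
  refine absurd hle (not_le.2 ?_)
  refine SAF.oc_lt_of_rel (C.fin_spP P) (Cc M T) (R.cc_ex hN he)
    (fun _ _ _ _ _ _ _ _ h h' hg => R.cc_inj h h' hg)
    (b0 := NF.pol (C.y e) (C.y e) (C.Pc (C.y e) (C.x e))) ⟨e, rfl, hP, h⟩ ?_
  rintro _ h1 _ - ⟨y, n, rfl, rfl, a1, a2, a3⟩ g hg
  rw [NF.smul_pol, FC.Pc_smul] at hg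
  obtain ⟨e1, -, e3⟩ := NF.pol.inj hg
  rw [e1] at e3
  have hij := FC.Pc_eq.1 e3
  have m1 : K.ar (g • n) (C.y e) := by
    rw [← e1]
    exact K.ar_smul g _ _ a2
  have m2 : ¬ M.Fl (g • n) (C.y e) := by
    rw [← e1]
    exact fun k => a3 k.of_smul
  have m3 : ¬ T (C.y e) (g • n) := by
    rw [← e1]
    exact fun k => a1 (R.T_of_smul k)
  apply hno
  refine ⟨g • n, ?_, hij, m1, m2, fun k => m3 ((R.T_ij hij).2 k)⟩
  have := C1.sps_inv g _ h1
  rw [NF.smul_pol, FC.Pc_smul, ← M.f_smul, ← M.f_smul, e1] at this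
  exact this

end Fold

end FM

end Pool.Agent.DI
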