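import Pool.Agent.DI.NU
import Pool.Agent.DI.Ns
import Pool.Agent.DI.KXb
import Pool.Agent.DI.SeenQ
import Pool.Agent.DI.LineQ

/-!
# Self pieces of fat softs: the folded slice

`S.kfM`, `S.TF`, `S.ThinF` (DI/KXb). `fhyp : FHyp (S.TF ..) (S.FatK hnb w)`: if no local piece over `w` is
one-sided and the crossing passes at the reversed thin vertices are one orbit then a self piece of a thin
vertex outside `T` is not changed by the fold. `kf_nN_le`: the law of the self pieces of the fat vertices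
for the folded slice; `kf_nN_vis`, `kf_nN_D1`: the equality case.
-/

namespace Pool.Agent.DI

open MulAction
open Pool.Agent.SAF (InC orbs FinOrb oc Conv exists_next TAct dist_edge)
open Pool.Agent.BT (PX PQ JS bey exits dist_cross)
open Pool.Agent.BT.TA

namespace SyQ

variable {H V : Type} [Group H] [MulAction H V] {S : SyQ H V}

/-! ### passes -/

/-- a corner at a vertex of a zero square -/
theorem Qs.cor50 {w u : S.X} {q x x' : V} (h : S.Qs w u q x x') :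
    ∃ c, S.K.Cor q x c ∧ S.J c ⊆ bey S.D.G w u := by
  obtain ⟨h1, h2, h3, h4, ⟨y, z, h5, h6, h7⟩ | ⟨y, h5, h6⟩⟩ := h
  · exact ⟨z, (S.P.cor_iff.2 (Or.inl ⟨_, _, h5.rot.rot.rot.rot⟩)).symm, h7⟩
  · exact ⟨y, (S.P.cor_iff.2 (Or.inr ⟨_, h5.rot.rot.rot⟩)).symm, h6⟩

/-- a pass at `x` which crosses the edge `w u`, with the near end `n` -/
def Ps (S : SyQ H V) (w u : S.X) (x n : V) : Prop := ∃ c, S.K.Cor n x c ∧
  S.J c ⊆ bey S.D.G w u ∧ S.J n ⊆ bey S.D.G u w

theorem Qs.ps {w u : S.X} {q x x' : V} (h : S.Qs w u q x x') : S.Ps w u x q := by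
  obtain ⟨c, h1, h2⟩ := h.cor50
  exact ⟨c, h1, h2, h.near⟩

theorem Ps.smul {w u : S.X} {x n : V} (h : S.Ps w u x n) (g : H) :
    S.Ps (g • w) (g • u) (g • x) (g • n) := by
  obtain ⟨c, h1, h2, h3⟩ := h
  exact ⟨g • c, h1.smul g, S.sub_bey_smul g h2, S.sub_bey_smul g h3⟩

/-- the near ends of the passes are one orbit -/
theorem UqW.near {hnb : S.NB} {w u : S.X} {x : V} (hq : S.UqW hnb w u x) {n m : V}
    (h : S.Ps w u x n) (k : S.Ps w u x m) : ∃ g : H, g • x = x ∧ g • w = w ∧ g • u = u ∧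
      g • n = m := by
  obtain ⟨c, h1, h2, h3⟩ := h
  obtain ⟨d, k1, k2, k3⟩ := k
  obtain ⟨f, f1, f2, f3⟩ := (S.P.fc_Co (S.P.nd_nb hnb)).2 h1
  obtain ⟨f', l1, l2, l3⟩ := (S.P.fc_Co (S.P.nd_nb hnb)).2 k1
  have f1 : (S.kfc hnb).x f = n := f1
  have f2 : (S.kfc hnb).y f = x := f2
  have f3 : (S.kfc hnb).z f = c := f3
  have l1 : (S.kfc hnb).x f' = m := l1
  have l2 : (S.kfc hnb).y f' = x := l2
  have l3 : (S.kfc hnb).z f' = d := l3
  obtain ⟨g, g1, g2, g3, g4⟩ := hq f f' f2 l2 (by rw [f3]; exact h2) (by rw [f1]; exact h3)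
    (by rw [l3]; exact k2) (by rw [l1]; exact k3)
  refine ⟨g, g1, g2, g3, ?_⟩
  have := g4.xx
  rwa [FC.x_smul, f1, l1] at this

/-- the strands of the raw slice at a direction are passes -/
theorem ps_of_flag (hc : S.Conn) {hnb : S.NB} {w u : S.X} (hu : S.D.G.Adj w u) {x n : S.NV w}
    (mu : u ∈ S.J x.1) {f : FL (S.k0 hc w)} (hx : (S.k0fc hc hnb w).y f = Sum.inl x)
    (hn : (S.k0fc hc hnb w).x f = Sum.inl n) (hz : (S.k0fc hc hnb w).z f = Sum.inr ⟨u, hu⟩) :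
    S.Ps w u x.1 n.1 := by
  obtain ⟨k1, k2, k3⟩ := bkf_v hc hnb hx
  have k5 : S.J ((S.kfc hnb).z (bkf hc f)) ⊆ bey S.D.G w u := rho_inr (k3.symm.trans hz)
  have k6 : (S.kfc hnb).x (bkf hc f) = n.1 := rho_inl (k1.symm.trans hn)
  have hcor : S.K.Cor n.1 x.1 ((S.kfc hnb).z (bkf hc f)) :=
    (S.P.fc_Co (S.P.nd_nb hnb)).1 ⟨bkf hc f, k6, k2, rfl⟩
  refine ⟨_, hcor, k5, ?_⟩
  have hcs : ¬ S.Cs w u n.1 := fun h => S.not_both hu hcor.E1 ⟨x.2, mu⟩ h
  exact S.side_of hu.symm (fun e => hcs e.swap) n.2 (bey_self hu.symm)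

/-- a vertex does not cross three edges at `w` -/
theorem three {w u u' u'' : S.X} {x : S.NV w} (hu : S.D.G.Adj w u) (hu' : S.D.G.Adj w u')
    (hu'' : S.D.G.Adj w u'') (m : u ∈ S.J x.1) (m' : u' ∈ S.J x.1) (m'' : u'' ∈ S.J x.1)
    (hne : u ≠ u') : u'' = u ∨ u'' = u' := by
  rcases SAr.two _ _ _ _ (SAr.up (S := S) x ⟨u, hu⟩ m) (SAr.up (S := S) x ⟨u', hu'⟩ m')
    (SAr.up (S := S) x ⟨u'', hu''⟩ m'') with e | e | e
  · exact absurd (congrArg Subtype.val (Sum.inr.inj e)) hne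
  · exact Or.inr (congrArg Subtype.val (Sum.inr.inj e)).symm
  · exact Or.inl (congrArg Subtype.val (Sum.inr.inj e)).symm

/-- a piece with a strand at a pole has a strand at another pole -/
def OSb (S : SyQ H V) : Prop := ∀ y n m a, S.K.ar n y → S.K.ar y a → S.K.IJ y n m →
  S.K.Cor m y a → ∃ b m', S.K.ar y b ∧ b ≠ a ∧ S.K.IJ y n m' ∧ S.K.Cor m' y b

/-- if no piece is one-sided and there are two poles -/
theorem OSa.osb (h : S.OSa) (h2 : ∀ y n a, S.K.ar n y → S.K.ar y a → S.K.Cor n y a →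
    ∃ b, S.K.ar y b ∧ b ≠ a) : S.OSb := by
  intro y n m a hn ha hm hc
  obtain ⟨b, hb, hne⟩ := h2 y m a ((GX.IJ.ar hm).1 hn) ha hc
  obtain ⟨m', h1, h3⟩ := h y n b hn hb
  exact ⟨b, m', hb, hne, h1, h3.symm⟩

section

variable {hc : S.Conn} {hnb : S.NB} {w : S.X} {O : S.OR w} {hm : (S.k0 hc w).Min}
  {hn : S.SqN w O} {F : Set V}

/-- a self piece of a thin vertex whose poles are directions: near ends of the passes -/
theorem tr_self (hN : S.NUq hnb w) {f : FL (S.k0 hc w)} {x n : S.NV w} {g : ↥(stabilizer H w)}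
    (hx : (S.k0fc hc hnb w).y f = Sum.inl x) (hfn : (S.k0fc hc hnb w).x f = Sum.inl n)
    (hsl : S.SL w x.1 n.1 g.1) (s2 : S.SAr w (Sum.inl x) ((S.k0fc hc hnb w).z f))
    (g3 : g • (S.k0fc hc hnb w).z f ≠ (S.k0fc hc hnb w).z f) (hth : ¬ (S.kfc hnb).Fat x.1)
    {u : S.X} (hu : S.D.G.Adj w u) (mu : u ∈ S.J x.1) : g.1 • u ≠ u ∧ S.UqW hnb w u x.1 ∧
      ∀ q, S.Ps w u x.1 q → ∃ k : ↥(stabilizer H w), k.1 • x.1 = x.1 ∧ k.1 • n.1 = q := by
  have gx : g.1 • x.1 = x.1 := hsl.2.2.2.2.1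
  have gw : g.1 • w = w := g.2
  rcases hz : (S.k0fc hc hnb w).z f with a | v
  · exfalso
    rw [hz] at s2 g3
    have sm : S.SAr w (Sum.inl x) (g • Sum.inl a) := by
      have := s2.smul g
      have e1 : g • (Sum.inl x : S.SV w) = Sum.inl x := congrArg Sum.inl (Subtype.ext gx)
      rwa [e1] at this
    exact hu.ne (only_w s2 sm g3 u mu).symm
  · rw [hz] at s2 g3
    obtain ⟨v, hv⟩ := v
    have mv : v ∈ S.J x.1 := by
      cases s2 with
      | up _ _ h => exact h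
    have gv : g.1 • v ≠ v := by
      intro k
      apply g3
      exact congrArg Sum.inr (Subtype.ext k)
    have hgv : S.D.G.Adj w (g.1 • v) := by
      have := S.D.adj_smul g.1 _ _ hv
      rwa [gw] at this
    have mgv : g.1 • v ∈ S.J x.1 := by
      have := S.js.smul g.1 _ _ mv
      rwa [gx] at this
    have hps := ps_of_flag hc hv mv hx hfn hz
    have hgps : S.Ps w (g.1 • v) x.1 (g.1 • n.1) := by
      have := hps.smul g.1
      rwa [gw, gx] at this
    have ggv : g.1 • (g.1 • v) ≠ g.1 • v := fun k => gv (smul_left_cancel _ k)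
    rcases three hv hgv hu mv mgv mu (Ne.symm gv) with e | e
    · subst e
      have hq := hN _ _ _ hsl hth u hv mv gv
      refine ⟨gv, hq, fun q hq' => ?_⟩
      obtain ⟨k, k1, k2, k3, k4⟩ := hq.near hps hq'
      exact ⟨⟨k, k2⟩, k1, k4⟩
    · subst e
      have hq := hN _ _ _ hsl hth _ hgv mgv ggv
      refine ⟨ggv, hq, fun q hq' => ?_⟩
      obtain ⟨k, k1, k2, k3, k4⟩ := hq.near hgps hq'
      refine ⟨⟨k, k2⟩ * g, ?_, ?_⟩
      · show (k * g.1) • x.1 = x.1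
        rw [mul_smul, gx, k1]
      · show (k * g.1) • n.1 = q
        rw [mul_smul, k4]

/-- A SELF PIECE OF A THIN VERTEX OUTSIDE `T`: the class of the vertex is one vertex -/
theorem self_class (h : S.FO w O F) (ht : S.ThinG hc hnb w O hm hn F)
    (hN : S.NUq hnb w) {f : FL (S.k0 hc w)} {x n : S.NV w} {g : ↥(stabilizer H w)}
    (hx : (S.k0fc hc hnb w).y f = Sum.inl x) (hfn : (S.k0fc hc hnb w).x f = Sum.inl n)
    (hT : ¬ S.TF hc hnb w O hm hn F (Sum.inl x) (Sum.inl n))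
    (hsl : S.SL w x.1 n.1 g.1) (s2 : S.SAr w (Sum.inl x) ((S.k0fc hc hnb w).z f))
    (g3 : g • (S.k0fc hc hnb w).z f ≠ (S.k0fc hc hnb w).z f) (hth : ¬ (S.kfc hnb).Fat x.1)
    {a b : S.SV w} (hr : S.FR w O a b) : a ≠ Sum.inl x ∧ b ≠ Sum.inl x := by
  have gx : g.1 • x.1 = x.1 := hsl.2.2.2.2.1
  have gw : g.1 • w = w := g.2
  -- the zero squares at `x`
  have mer : ∀ (u : S.X) (q : V) (x' : S.NV w), S.Qs w u q x.1 x'.1 → ¬ S.SD w u q →
      ¬ O.op u q → False := by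
    intro u q x' hs hsd hop
    obtain ⟨g4, hq, tr⟩ := tr_self hN hx hfn hsl s2 g3 hth hs.adj hs.l.2
    obtain ⟨k, k1, k2⟩ := tr q hs.ps
    obtain ⟨q, rfl⟩ : ∃ q' : S.NV w, q'.1 = q := ⟨k • n, k2⟩
    have hqF : q.1 ∈ F := h.of_nop q.2 hop
    have hqx : S.K.ar q.1 x.1 := by
      have := S.K.ar_smul k.1 _ _ hsl.2.2.1
      rwa [k1, k2] at this
    have hdq : ∀ u', ¬ S.SD w u' q.1 := by
      intro u' hd
      obtain ⟨hu', mu'⟩ := hd.1.two hqx
      obtain ⟨c, -, hs'⟩ := hd.1.step hqx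
      have hgu : S.D.G.Adj w (g.1 • u) := by
        have := S.D.adj_smul g.1 _ _ hs.adj
        rwa [gw] at this
      have mgu : g.1 • u ∈ S.J x.1 := by
        have := S.js.smul g.1 _ _ hs.l.2
        rwa [gx] at this
      rcases three hs.adj hgu hu' hs.l.2 mgu mu'.2 (Ne.symm g4) with e | e
      · subst e
        exact hsd hd
      · subst e
        -- an element which fixes `q` and exchanges the exits
        have hgg : S.D.G.Adj w (g.1 • g.1 • u) := by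
          have := S.D.adj_smul g.1 _ _ hgu
          rwa [gw] at this
        have mgg : g.1 • g.1 • u ∈ S.J x.1 := by
          have := S.js.smul g.1 _ _ mgu
          rwa [gx] at this
        have e2 : g.1 • g.1 • u = u :=
          (three hs.adj hgu hgg hs.l.2 mgu mgg (Ne.symm g4)).resolve_right
            (fun k => g4 (smul_left_cancel _ k))
        have p1 : S.Ps w u x.1 (g.1 • q.1) := by
          have := hs'.ps.smul g.1
          rwa [gw, gx, e2] at this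
        obtain ⟨j, j1, j2, j3, j4⟩ := hq.near p1 hs.ps
        have hj : (j * g.1) • w = w := by rw [mul_smul, gw, j2]
        apply hsd
        have := hd.smul (⟨j * g.1, hj⟩ : ↥(stabilizer H w))
        have e3 : (j * g.1) • (g.1 • u) = u := by rw [mul_smul, e2, j3]
        have e4 : (j * g.1) • q.1 = q.1 := by rw [mul_smul, j4]
        have this : S.SD w ((j * g.1) • (g.1 • u)) ((j * g.1) • q.1) := this
        rwa [e3, e4] at this
    -- so `n` is in `T`
    apply hT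
    have e1 : k⁻¹ • q = n := by
      apply Subtype.ext
      show k.1⁻¹ • q.1 = n.1
      rw [← k2, inv_smul_smul]
    have hT1 : S.TF hc hnb w O hm hn F (Sum.inl x) (Sum.inl q) :=
      Or.inr (Or.inr ⟨q, hqF, rfl, fun e he hxe _ => ht.dqx (q := q) hqF hdq he hxe⟩)
    have hT2 := hT1.smul h k⁻¹
    have e2 : k⁻¹ • (Sum.inl x : S.SV w) = Sum.inl x := by
      refine congrArg Sum.inl (Subtype.ext ?_)
      show k.1⁻¹ • x.1 = x.1
      rw [inv_smul_eq_iff, k1]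
    have e3 : k⁻¹ • (Sum.inl q : S.SV w) = Sum.inl n := congrArg Sum.inl e1
    rwa [e2, e3] at hT2
  have par : ∀ (u : S.X) (q : V) (x' : S.NV w), S.Qs w u q x.1 x'.1 → O.op u q →
      S.K.ar x.1 q → False := by
    intro u q x' hs hop hxq
    obtain ⟨g4, -, -⟩ := tr_self hN hx hfn hsl s2 g3 hth hs.adj hs.l.2
    have hgu : S.D.G.Adj w (g.1 • u) := by
      have := S.D.adj_smul g.1 _ _ hs.adj
      rwa [gw] at this
    have mgu : g.1 • u ∈ S.J x.1 := by
      have := S.js.smul g.1 _ _ hs.l.2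
      rwa [gx] at this
    exact g4 (ar_cs_eq x.2 hxq (O.near _ _ hop) hs.adj hgu hs.l.2 mgu).symm
  cases hr with
  | mer u q y y' k1 k2 k3 =>
    refine ⟨fun e => ?_, fun e => ?_⟩
    · rw [Sum.inl.inj e] at k1
      exact mer u q y' k1 k2 k3
    · rw [Sum.inl.inj e] at k1
      exact mer u q y k1.symm' k2 k3
  | par u q y y' k1 k2 k3 k4 =>
    refine ⟨fun e => ?_, fun e => ?_⟩
    · rw [Sum.inl.inj e] at k1 k3
      exact par u q y' k1 k2 k3
    · rw [Sum.inl.inj e] at k1 k4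
      exact par u q y k1.symm' k2 k4
  | dia q u k1 k2 =>
    refine ⟨fun e => ?_, fun e => ?_⟩
    · rw [Sum.inl.inj e] at k1 k2
      exact hT (Or.inr (Or.inl ⟨x, h.of_nop x.2 k2, rfl⟩))
    · cases e

/-- the class of the vertex is one vertex -/
theorem self_class1 (h : S.FO w O F) (ht : S.ThinG hc hnb w O hm hn F)
    (hN : S.NUq hnb w) {f : FL (S.k0 hc w)} {x n : S.NV w} {g : ↥(stabilizer H w)}
    (hx : (S.k0fc hc hnb w).y f = Sum.inl x) (hfn : (S.k0fc hc hnb w).x f = Sum.inl n)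
    (hT : ¬ S.TF hc hnb w O hm hn F (Sum.inl x) (Sum.inl n))
    (hsl : S.SL w x.1 n.1 g.1) (s2 : S.SAr w (Sum.inl x) ((S.k0fc hc hnb w).z f))
    (g3 : g • (S.k0fc hc hnb w).z f ≠ (S.k0fc hc hnb w).z f) (hth : ¬ (S.kfc hnb).Fat x.1)
    {s : S.SV w} (e : S.fq w O s = S.fq w O (Sum.inl x)) : s = Sum.inl x := by
  have key : ∀ a b, Relation.EqvGen (S.FR w O) a b → (a = Sum.inl x ↔ b = Sum.inl x) := by
    intro a b hab
    induction hab with
    | rel a b k =>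
      obtain ⟨k1, k2⟩ := self_class h ht hN hx hfn hT hsl s2 g3 hth k
      exact ⟨fun e => absurd e k1, fun e => absurd e k2⟩
    | refl a => exact Iff.rfl
    | symm a b _ ih => exact ih.symm
    | trans a b c _ _ i1 i2 => exact i1.trans i2
  exact (key _ _ (fq_eq.1 e)).2 rfl

/-- kept flags and the walks -/
theorem kp_sm {e e' : FL (S.k0 hc w)} (hs : (S.k0fc hc hnb w).Sm e e')
    (hk : (S.kfM hc hnb w O hm hn).Kp e) : (S.kfM hc hnb w O hm hn).Kp e' := by
  rcases hs with rfl | ⟨s1, s2, s3, s4, s5, s6⟩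
  · exact hk
  · by_contra hno
    obtain ⟨-, k | k⟩ := not_kp4 hno
    · rw [← s3, ← s5] at k
      exact kp_nb hk k
    · rw [← s4, ← s6] at k
      have := kp_nb hk.r
      rw [FC.xr] at this
      exact this k

/-- no local piece with a strand is one-sided -/
theorem opp50 (hS : S.SinkH) (hTS : S.TSp w) (hos : S.OSb) {y n m a : S.SV w}
    (har : (S.k0 hc w).ar n y) (ha : (S.k0 hc w).ar y a) (hij : (S.k0fc hc hnb w).IJ y n m)
    (hco : (S.k0fc hc hnb w).Co m y a) : ∃ b m', (S.k0 hc w).ar y b ∧ b ≠ a ∧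
      (S.k0fc hc hnb w).IJ y n m' ∧ (S.k0fc hc hnb w).Co m' y b := by
  have ha0 : S.SAr w y a := ha
  obtain ⟨x, rfl⟩ := sar_soft ha0
  obtain ⟨k, rfl, hkx⟩ := ar_to_inl hc har
  by_cases hcr : ∃ u, S.D.G.Adj w u ∧ u ∈ S.J x.1
  · have hat := hTS x.1 k.1 hkx x.2 k.2 hcr
    have key := (TSat_iff hc hnb hkx).1 hat
    have conv : ∀ {b : S.SV w}, (S.k0 hc w).ar (Sum.inl x) b → ∃ m',
        (S.k0fc hc hnb w).IJ (Sum.inl x) (Sum.inl k) m' ∧
          (S.k0fc hc hnb w).Co m' (Sum.inl x) b := by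
      intro b hb
      obtain ⟨h1, n', h2, h3, h4⟩ := (PV_pol_iff hc hnb).1 (key b hb)
      exact ⟨Sum.inl n', (k0fc_IJ hc hnb).2 h3, FC.Co.symm (((S.k0P hc w).fc_Co _).2 h4)⟩
    -- there are two directions
    obtain ⟨u, hu, mu⟩ := hcr
    have two : ∃ d1 d2, (S.k0 hc w).ar (Sum.inl x) d1 ∧ (S.k0 hc w).ar (Sum.inl x) d2 ∧
        d1 ≠ d2 := by
      by_cases hp : ∃ a0, S.K.ar x.1 a0
      · obtain ⟨a1, k1, k2⟩ := S.js.cross x.1 hp w u hu x.2 mu
        obtain ⟨b1, l1, l2⟩ := S.js.cross x.1 hp u w hu.symm mu x.2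
        refine ⟨_, _, pole_exit hc k1, pole_exit hc l1, ?_⟩
        rw [S.rho_bey hu k2]
        intro e
        obtain ⟨z, hz⟩ := S.js.ne b1
        exact bey_not (l2 hz) (rho_inr e.symm hz)
      · obtain ⟨v, v1, v2, v3, -⟩ := hS.line_ex (fun a h => hp ⟨a, h⟩) x.2 mu hu
        refine ⟨_, _, SAr.up (S := S) x ⟨u, hu⟩ mu, SAr.up (S := S) x ⟨v, v2⟩ v1, ?_⟩
        intro e
        exact v3 (congrArg Subtype.val (Sum.inr.inj e)).symm
    obtain ⟨d1, d2, e1, e2, hne⟩ := two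
    by_cases h1 : d1 = a
    · obtain ⟨m', k1, k2⟩ := conv e2
      exact ⟨d2, m', e2, fun h => hne (h1.trans h.symm), k1, k2⟩
    · obtain ⟨m', k1, k2⟩ := conv e1
      exact ⟨d1, m', e1, h1, k1, k2⟩
  · have hJ : ∀ p ∈ S.J x.1, p = w := by
      intro p hp
      by_contra hne
      obtain ⟨u, hu, eu⟩ := exists_next S.D.tree (Ne.symm hne)
      apply hcr
      refine ⟨u, hu, ?_⟩
      apply S.js.conv x.1 w x.2 p hp u
      rw [eu, SimpleGraph.dist_eq_one_iff_adj.2 hu, add_comm]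
    have near : ∀ {c : V}, S.K.E x.1 c → w ∈ S.J c := by
      intro c h
      obtain ⟨p, h1, h2⟩ := S.one_ex h
      rw [hJ p h1] at h2
      exact h2
    cases ha0 with
    | up _ u h => exact absurd ⟨u.1, u.2, h⟩ hcr
    | hor _ a hxa =>
      have hmx : (S.k0 hc w).ar m (Sum.inl x) := (FC.IJ.ar hij).1 har
      obtain ⟨m, rfl, hmx'⟩ := ar_to_inl hc hmx
      have hcor : (S.k0 hc w).Cor (Sum.inl m) (Sum.inl x) (Sum.inl a) :=
        ((S.k0P hc w).fc_Co _).1 hco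
      obtain ⟨c, d, c1, c2, c3, -⟩ := (k0_cor_iff hc hnb).1 hcor
      have e1 : c = m.1 := rho_inl c2
      have e2 : d = a.1 := rho_inl c3
      subst e1
      subst e2
      have hij' := (k0fc_IJ hc hnb).1 hij
      obtain ⟨b, m', b1, b2, b3, b4⟩ := hos x.1 k.1 m.1 a.1 hkx hxa hij'.ij c1
      have wb : w ∈ S.J b := near (Or.inl b1)
      have hm'x : S.K.ar m' x.1 := (GX.IJ.ar b3).1 hkx
      have wm : w ∈ S.J m' := near (Or.inr hm'x)
      refine ⟨Sum.inl ⟨b, wb⟩, Sum.inl ⟨m', wm⟩, SAr.hor (S := S) x ⟨b, wb⟩ b1, ?_,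
        (k0fc_IJ hc hnb).2 (lij_of_ij hJ b3), ?_⟩
      · intro e
        exact b2 (congrArg Subtype.val (Sum.inl.inj e))
      · refine ((S.k0P hc w).fc_Co _).2 ((k0_cor_iff hc hnb).2 ⟨m', b, b4, S.rho_near wm,
          S.rho_near wb, ?_⟩)
        intro e
        have e3 : m' = b := congrArg Subtype.val (Sum.inl.inj e)
        rw [e3] at hm'x
        exact absurd (S.K.ar_rk _ _ hm'x) (not_lt.2 (S.K.ar_rk _ _ b1).le)

/-- WHAT IS NEEDED OF THE FOLD -/
theorem fhyp (h : S.FO w O F) (ht : S.ThinG hc hnb w O hm hn F) (hS : S.SinkH) (hTS : S.TSp w)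
    (hos : S.OSb) (hN : S.NUq hnb w) :
    (S.kfM hc hnb w O hm hn).FHyp (S.TF hc hnb w O hm hn F) (S.FatK hnb w) where
  opp y a n m _ har _ ha hij hco := opp50 hS hTS hos har ha hij hco
  thin e he _ hP := thin_raw hc hN he hP
  root := by
    intro e he hT hP g hg
    obtain ⟨x, n, k, hx, hfn, hsl, s2, -, g3⟩ := sf_raw hc he
    rw [hx, hfn] at hT
    rw [hx] at hg hP ⊢
    have hth : ¬ (S.kfc hnb).Fat x.1 := fun h => hP ⟨x, rfl, h⟩
    refine self_class1 h ht hN hx hfn hT hsl s2 g3 hth ?_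
    have e1 := (S.kfM hc hnb w O hm hn).y_ph g
    exact e1.trans hg
  rt := by
    intro e he hT hP k hk hTk
    obtain ⟨x, n, g, hx, hfn, hsl, s2, -, g3⟩ := sf_raw hc he
    rw [hx, hfn] at hT
    rw [hx] at hk hP hTk
    have hth : ¬ (S.kfc hnb).Fat x.1 := fun h => hP ⟨x, rfl, h⟩
    rcases h.fl hk with ⟨u, q, p', hq, hp, h1, h2, h3, h4, h5⟩ | ⟨q, hq, h1, h2, h3⟩
    · have e1 := congrArg Subtype.val (Sum.inl.inj h5)
      have e1 : x.1 = p' := e1
      subst e1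
      obtain ⟨hu, mu⟩ := h2.1.two h3
      obtain ⟨c, -, hs⟩ := h2.1.step h3
      obtain ⟨-, -, tr⟩ := tr_self hN hx hfn hsl s2 g3 hth hu mu.2
      obtain ⟨j, j1, j2⟩ := tr q hs.ps
      apply hT
      have k1 := hTk.smul h j⁻¹
      have e2 : j⁻¹ • (Sum.inl x : S.SV w) = Sum.inl x := by
        refine congrArg Sum.inl (Subtype.ext ?_)
        show j.1⁻¹ • x.1 = x.1
        rw [inv_smul_eq_iff, j1]
      have e3 : j⁻¹ • k = Sum.inl n := by
        rw [h4]
        refine congrArg Sum.inl (Subtype.ext ?_)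
        show j.1⁻¹ • q = n.1
        rw [← j2, inv_smul_smul]
      rwa [e2, e3] at k1
    · exact hT (Or.inr (Or.inl ⟨⟨q, hq⟩, h1, h3⟩))
  rp := by
    intro e he hT hP b hb
    obtain ⟨x, n, g, hx, hfn, hsl, s2, -, g3⟩ := sf_raw hc he
    rw [hx, hfn] at hT
    rw [hx] at hb hP
    have hth : ¬ (S.kfc hnb).Fat x.1 := fun h => hP ⟨x, rfl, h⟩
    rcases h.fl hb with ⟨u, q, p', hq, hp, h1, h2, h3, h4, h5⟩ | ⟨q, hq, h1, h2, h3⟩
    · exact hT (Or.inr (Or.inl ⟨⟨q, hq⟩, h1, h4⟩))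
    · -- the arrow of the class of `q` is the arrow of `q`
      have hxq : S.SAr w (Sum.inl x) b := hb.1
      have hqx : S.arQ w O (S.fq w O b) (S.fq w O (Sum.inl x)) := hb.2
      rw [h3] at hxq hqx
      obtain ⟨u, hdia⟩ := h.two q h1
      have hsk : ∀ v, ¬ S.Sk w O v (Sum.inl ⟨q, hq⟩) := fun v k => h2 _ (Sk.inl.1 k).1
      have k1 := arQ_fq.1 hqx
      rw [GN_inl hsk] at k1
      have hDn : ∀ y, ¬ S.Dn w O q y := by
        rintro y ⟨u', s, hu', hc', -⟩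
        exact h.ncs h1 hu' hc'.2
      rw [(Tm_tm (S := S) w O q).eq_of_term hDn] at k1
      obtain ⟨y, y1, y2⟩ := k1
      rw [self_class1 h ht hN hx hfn hT hsl s2 g3 hth y2, S.rho_near hq] at y1
      exact FC.not_both (K := S.k0 hc w) hxq y1
  sm e e' hs hk := kp_sm hs hk

end

end SyQ

end Pool.Agent.DI
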