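import Pool.Agent.DI.K1
import Pool.Agent.DI.OStK
import Pool.Agent.DI.OStS
import Pool.Agent.DI.NV

/-!
# DI/K1P: pieces and poles of the step complex

`St.K1.two`: every soft has two poles. `St.K1.eW`: the field `eW` of `Psv`. `SyQ.OSa_of`, `SyQ.OSb_of`: the hypotheses `OSa`, `OSb` (DI/NU, DI/NV) of a
system from these.
-/

namespace Pool.Agent.DI

open MulAction

namespace St.K1

variable {C : St} (k : C.K1)

/-- EVERY SOFT HAS TWO POLES -/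
theorem two {v c : k.W} (hc : k.K.ar v c) : ∃ d, k.K.ar v d ∧ d ≠ c := by
  obtain ⟨d, hd, hne⟩ := C.two (k.O.ar_π hc)
  refine ⟨k.O.e (k.O.π v) d, k.O.ar_e v hd, fun e => hne ?_⟩
  rw [← e, k.O.π_e _ _ hd]

/-- THE SQUARES OF THE OPENED TOPS are listed with these tops at the places 1, 3 -/
theorem eW {T a b y : k.W} (ht : k.P.Top T a b y) (hE : k.E T) : ∃ (i : k.K.I) (g : C.H),
    k.P.Ew i ∧ (T = g • k.P.qt i 1 ∧ y = g • k.P.qt i 3 ∨
      T = g • k.P.qt i 3 ∧ y = g • k.P.qt i 1) := by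
  rcases k.O.Top_π C.P ht with q | ⟨g, j, h1, -⟩
  · exact absurd hE (k.ok.nt.top q)
  · obtain ⟨a1, a2, a3, a4⟩ := k.O.sq_ar j 1
    simp only [one_smul] at a1 a2 a3 a4
    refine ⟨Sum.inr j, g, ⟨trivial, a1, a2, a3, a4, ?_⟩, h1⟩
    show k.O.e (k.O.π (k.O.js j)) (k.O.ja j) ≠ k.O.e (k.O.π (k.O.js j)) (k.O.jb j)
    intro e
    have := congrArg k.O.π e
    rw [k.O.π_e _ _ (k.O.j_a j), k.O.π_e _ _ (k.O.j_b j)] at this
    exact k.O.j_ab j this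

end St.K1

namespace SyQ

variable {H V : Type} [Group H] [MulAction H V] {S : SyQ H V}

/-- the hypothesis `OSa` of DI/NU -/
theorem OSa_of (hos : ∀ {v n b : V}, S.K.ar n v → S.K.ar v b → ∃ k, S.K.PC v n k ∧ S.K.ar k v ∧
    S.K.Cor k v b) : S.OSa := by
  intro y n a h1 h2
  obtain ⟨k, k1, -, k3⟩ := hos h1 h2
  exact ⟨k, GX.PC_iff.1 k1, k3.symm⟩

/-- the hypothesis `OSb` of DI/NV -/
theorem OSb_of (hos : ∀ {v n b : V}, S.K.ar n v → S.K.ar v b → ∃ k, S.K.PC v n k ∧ S.K.ar k v ∧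
    S.K.Cor k v b) (h2 : ∀ {v c : V}, S.K.ar v c → ∃ d, S.K.ar v d ∧ d ≠ c) : S.OSb :=
  (OSa_of hos).osb fun _ _ _ _ ha _ => h2 ha

end SyQ

end Pool.Agent.DI
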