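import Pool.Agent.DI.K1
import Pool.Agent.DI.RedT

/-!
# DI/K1R: no foldable top in the step complex

`OpW.Ok.red`: if no top of `K` outside `E` is foldable (`P.red E`, helper45's definition), no top of the
opened complex outside `O.EE E` is foldable. `St.K1.red`.
-/

namespace Pool.Agent.DI

open MulAction
open Pool.Agent.SAF (InC SA orbs FinOrb oc)
open Pool.Agent.SAG (IO Zt)

namespace OpW

variable {H V W : Type} [Group H] [MulAction H V] [MulAction H W] {K : GX H V} {O : OpW K W}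
  {P : P45 K}

/-- a direct arrow has direct lifts -/
theorem dr_up {y b : W} (h : Dr K (O.π y) (O.π b)) : Dr O.gx y b := by
  intro g hy hb c hc
  have h1 : g • O.π c = O.π c := by
    refine h g ?_ ?_ _ (O.ar_π hc)
    · rw [← O.π_smul, hy]
    · rw [← O.π_smul, hb]
  have k := O.gx.ar_smul g _ _ hc
  rw [hb] at k
  rw [← O.ar_e' k, O.π_smul, h1, O.ar_e' hc]

theorem drN_up {y b : W} (h : DrN K (O.π y) (O.π b)) : DrN O.gx y b := by
  refine ⟨dr_up h.1, fun hs hi g h1 h2 => ?_⟩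
  have hs' := O.snk_iff.1 hs
  have hd := O.snk_ndbl hs'
  have hst := O.stab_eq hd
  have hi' : Infinite ↥(stabilizer H (O.π b)) := by
    rw [← hst]
    exact hi
  obtain ⟨-, k2, t, k3, k4, k5⟩ := h.2 hs' hi' g (by rw [← O.π_smul, h1])
    (by rw [← O.π_smul, h2])
  refine ⟨h2, k2, t, ?_, k4, k5⟩
  have : t ∈ stabilizer H (O.π b) := k3
  rw [← hst] at this
  exact this

/-- the elements which fix the images of an unopened vertex and of a pole -/
theorem fix_up {T a : W} (hT : ¬ O.Dbl T) (ha : O.gx.ar T a) {g : H} (h1 : g • O.π T = O.π T)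
    (h2 : g • O.π a = O.π a) : g • T = T ∧ g • a = a := by
  have e1 : g • T = T := O.not_dbl hT (by rw [O.π_smul, h1])
  refine ⟨e1, ?_⟩
  have k := O.gx.ar_smul g _ _ ha
  rw [e1] at k
  rw [← O.ar_e' k, O.π_smul, h2, O.ar_e' ha]

/-- purity goes down -/
theorem pur_π {T a y : W} (hT : ¬ O.Dbl T) (ha : O.gx.ar T a) (h : P45.Pur O.gx T a y) :
    P45.Pur K (O.π T) (O.π a) (O.π y) where
  fp g h1 h2 c hc := by
    obtain ⟨e1, e2⟩ := fix_up hT ha h1 h2
    have k := h.fp g e1 e2 _ (O.ar_e y hc)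
    have := congrArg O.π k
    rwa [O.π_smul, O.π_e _ _ hc] at this
  ny hs hi g h1 h2 := by
    obtain ⟨e1, e2⟩ := fix_up hT ha h1 h2
    have hd := O.snk_ndbl hs
    have hst := O.stab_eq hd
    have hi' : Infinite ↥(stabilizer H y) := by
      rw [hst]
      exact hi
    obtain ⟨k1, k2, t, k3, k4, k5⟩ := h.ny (O.snk_iff.2 hs) hi' g e1 e2
    refine ⟨?_, k2, t, ?_, k4, k5⟩
    · rw [← O.π_smul, k1]
    · rw [← O.π_smul, k3]

/-- the load goes down -/
theorem ld_π {T b y : W} (hT : ¬ O.Dbl T) (h : (O.p45 P).Ld T b y) :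
    P.Ld (O.π T) (O.π b) (O.π y) := by
  intro T' m z k hz
  obtain ⟨T1, T2, m1, z1, rfl, e2, rfl, rfl, k1⟩ := O.Top_lift P k
  have e3 := O.not_dbl hT e2
  subst e3
  have hz1 : O.gx.ar T2 z1 := O.ar_of_E k1.Ea hz
  obtain ⟨rfl, h2, h3⟩ := h T1 m1 z1 k1 hz1
  exact ⟨rfl, O.ar_π h2, fun h5 => h3 (drN_up h5)⟩

/-- NO FOLDABLE TOP -/
theorem Ok.red (ok : O.Ok P) {E : V → Prop} (h : P.red E) : (O.p45 P).red (O.EE E) := by
  intro T a b y k hE hay h1 h2 h3 h4
  have hd : ¬ O.Dbl T := fun k => hE (Or.inl k)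
  have hT : ∀ x, O.π x = O.π T → x = T := fun x e => O.not_dbl hd e
  have k1 : P.Top (O.π T) (O.π a) (O.π b) (O.π y) := by
    rcases O.Top_π P k with q | q
    · exact q
    · exact absurd (NSq.dbl ok.ne q).1 hd
  rw [O.X_eq P ok.nt hT k.2.1] at h1
  rw [O.X_eq P ok.nt hT k.2.2] at h2
  exact h _ _ _ _ k1 (fun e => hE (Or.inr e)) (O.ar_π hay) h1 h2 (ld_π hd h3) (pur_π hd k.2.1 h4)

end OpW

/-- no foldable top in the step complex -/
theorem St.K1.red {C : St} (k : C.K1) (h : C.P.red (fun _ => False)) : k.P.red k.E := by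
  have := k.ok.red h
  rwa [k.E_eq] at this

end Pool.Agent.DI
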