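import Pool.Agent.DI.K1
import Pool.Agent.DI.SysEx
import Pool.Agent.DI.OpB

/-!
# DI/K1S: systems over the step complex

`k : C.K1`. `k.sy1`: a good one-edge system over `(k.K, k.P)` at a bad vertex is `SyQ.Sy1`. `k.psv`: the
data of a step from `Sy1`, the placement (R0) and the open stars.
-/

namespace Pool.Agent.DI

open MulAction
open Pool.Agent.SAF (InC SA orbs FinOrb oc Decomp)
open Pool.Agent.BT (PX PQ JS bey exits Ell mst)

namespace St.K1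

variable {C : St} (k : C.K1) {D : Decomp C.H} {J : k.W → Set D.X} (js : JS k.P.pq D J)

/-- A GOOD ONE-EDGE SYSTEM OVER THE STEP COMPLEX -/
theorem sy1 (hg : (SyQ.mk k.K k.P D J js).GdQ k.K.FS)
    (ht : ∀ x a, k.K.ar x a → Infinite ↥(stabilizer C.H ((x, a) : k.W × k.W)) →
      (SyQ.mk k.K k.P D J js).Tog x a)
    (hone : OneE D) {w : D.X} (hw : ¬ SA ↥(stabilizer C.H w))
    (halt : (∀ x y : D.X, ∃ h : C.H, h • x = y) ∨ ∃ u, (SyQ.mk k.K k.P D J js).Inv1 w u) :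
    (SyQ.mk k.K k.P D J js).Sy1 w where
  gd := hg
  tog := ht
  one := hone
  alt := halt
  badw := hw
  bad := C.bad
  wm := k.foldC.wmin js hw
  lc := k.lc
  inf _ _ e := C.fd_LW.all_inf D hone e
  tf := k.tf
  fs := k.fs
  hv := k.hv

/-- THE DATA OF A STEP over the step complex -/
theorem psv {w : D.X} (h : (SyQ.mk k.K k.P D J js).Sy1 w) {O : (SyQ.mk k.K k.P D J js).OR w}
    (noE : ∀ T a b y, k.P.Top T a b y → (SyQ.mk k.K k.P D J js).Loc w T a b y → ¬ k.E T)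
    (pl : (SyQ.mk k.K k.P D J js).Plcd)
    (mid : ∀ u, (SyQ.mk k.K k.P D J js).Inv1 w u → ∃ w', (SyQ.mk k.K k.P D J js).Plc w u w')
    (opn : ∀ u q, O.op u q ↔ w ∈ J q ∧ ¬ k.P.Bare q)
    (two : ∀ q, w ∈ J q → k.P.Bare q → ∃ u, (SyQ.mk k.K k.P D J js).Dia w u q)
    (nf : O.Nf)
    (page : ∀ x a b p p' n, k.K.ar x a → k.K.ar x b → a ≠ b → J x = {p} → D.G.Adj p p' →
      p' ∈ J a → p' ∈ J b → k.K.ar n x → p' ∉ J n)
    (dir : ∀ x a b p p' y z c, k.K.ar x a → k.K.ar x b → a ≠ b → J x = {p} → D.G.Adj p p' →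
      p' ∈ J a → p' ∈ J b → Qn k.P a x b y z →
      (SyQ.mk k.K k.P D J js).IsC ![a, x, b, y, z] c → c ∉ bey D.G p p')
    (eJ : ∀ v, k.E v → w ∈ J v → ∀ p ∈ J v, p = w)
    (pc : ∀ n v a, k.K.ar n v → k.K.ar v a → ∃ m, k.K.PC v n m ∧ k.K.ar m v ∧ k.K.Cor m v a)
    (red : k.P.red k.E)
    (eW : ∀ T a b y, k.P.Top T a b y → k.E T → ∃ (i : k.K.I) (g : C.H), k.P.Ew i ∧
      (T = g • k.P.qt i 1 ∧ y = g • k.P.qt i 3 ∨ T = g • k.P.qt i 3 ∧ y = g • k.P.qt i 1))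
    (eb : ∀ T a b y, k.P.Top T a b y → k.E T → ¬ k.P.Bare T → ¬ k.P.Bare y →
      ∀ g : C.H, g • T ≠ y)
    (st : k.P.Stc k.E)
    (bw : ∀ v a b y, k.P.Top v a b y → k.P.Bare v → ∃ (i : k.K.I) (g : C.H) (p p0 : D.X),
      v = g • k.P.qt i 3 ∧ (SyQ.mk k.K k.P D J js).BrJ i p p0)
    (bo : ∀ u, (SyQ.mk k.K k.P D J js).Inv1 w u → ∀ v, J v = {u} →
      k.P.Bare v ∧ ∃ a b y, k.P.Top v a b y) :
    (SyQ.mk k.K k.P D J js).Psv w O k.E where
  toSy1 := h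
  sq := k.sq
  bE _ _ _ _ ht hb := k.bE ht hb
  x1 := k.x1
  noE := noE
  par _ _ _ _ _ _ _ h h' hb := k.par h h' hb
  page := page
  dir := dir
  eJ := eJ
  pc := pc
  red := red
  pe := k.foldC.exists_i
  eW := eW
  eb := eb
  st := st
  bw := bw
  bo := bo
  pl := pl
  mid := mid
  opn := opn
  two := two
  nf := nf
  amin H' V' _ _ K' hb := by
    show k.K.area ≤ K'.area
    rw [k.area]
    exact C.min H' V' K' hb
  lw C' := by
    show C'.K.nVs ≤ k.K.nVs ∧ (C'.K.nVs = k.K.nVs → C'.K.nHv ≤ k.K.nHv)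
    rw [k.nVs, k.nHv]
    exact C.lw C'

/-- THE RESULT OF THE EXISTENCE THEOREM (helper37's structure) from the placement: `bJ` (a bare vertex
over `w` sits at `w`), `noE` (no opened square is local), `page`, `dir` (R0) -/
theorem rz {w : D.X} {O : (SyQ.mk k.K k.P D J js).OR w}
    (opn : ∀ u q, O.op u q ↔ w ∈ J q ∧ ¬ k.P.Bare q)
    (bJ : ∀ v, k.P.Bare v → w ∈ J v → ∀ p ∈ J v, p = w)
    (noE : ∀ T a b y, k.P.Top T a b y → (SyQ.mk k.K k.P D J js).Loc w T a b y → ¬ k.E T)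
    (page : ∀ x a b p p' n, k.K.ar x a → k.K.ar x b → a ≠ b → J x = {p} → D.G.Adj p p' →
      p' ∈ J a → p' ∈ J b → k.K.ar n x → p' ∉ J n)
    (dir : ∀ x a b p p' y z c, k.K.ar x a → k.K.ar x b → a ≠ b → J x = {p} → D.G.Adj p p' →
      p' ∈ J a → p' ∈ J b → Qn k.P a x b y z →
      (SyQ.mk k.K k.P D J js).IsC ![a, x, b, y, z] c → c ∉ bey D.G p p') :
    (SyQ.mk k.K k.P D J js).Rz w O k.E where
  sq := k.sq
  bE _ _ _ _ ht hb := k.bE ht hb
  x1 := k.x1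
  noE := noE
  opn := opn
  two v hw hb := SyQ.two_of (S := SyQ.mk k.K k.P D J js) k.sq (fun _ _ _ _ ht hb => k.bE ht hb)
    noE (k.bt hb) (bJ v hb hw) hw hb
  par _ _ _ _ _ _ _ h h' hb := k.par h h' hb
  page := page
  dir := dir

end St.K1

end Pool.Agent.DI
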