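import Pool.Agent.DI.R0L
import Pool.Agent.DI.SysP

/-!
# DI/R0M: R0 for the placed one-edge system over a split complex

`SyP.rk`: a placed one-edge system (`S.SyP w`, DI/SysP) over a complex `K` with a fold (`FoldC`), parts
(`P.Prt Z`), the class `P.SqW tw Tp pt` and OS (`pc`) has all hypotheses `S.RK` of DI/R0K.
-/

namespace Pool.Agent.DI

open MulAction
open Pool.Agent.SAF (InC SA orbs FinOrb oc Decomp SAn Conv exists_next)
open Pool.Agent.BT (PX PQ JS bey exits Ell mst)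

theorem sa_stab_smul {H X : Type} [Group H] [MulAction H X] (h : H) (w : X)
    (hC : SA ↥(stabilizer H w)) : SA ↥(stabilizer H (h • w)) := by
  rw [MulAction.stabilizer_smul_eq_stabilizer_map_conj]
  exact Pool.Agent.SAF.SA.iso
    (Subgroup.equivMapOfInjective _ _ (MulAut.conj h).injective) hC

namespace SyQ

variable {H V : Type} [Group H] [MulAction H V] {S : SyQ H V}

/-- subtrees which cross an edge depend on the poles only -/
theorem cs_poles {x y : V} (hx : ∃ a, S.K.ar x a) (h : ∀ a, S.K.ar x a → S.K.ar y a) {w u : S.X}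
    (e : S.D.G.Adj w u) (hc : S.Cs w u x) : S.Cs w u y := by
  obtain ⟨a, b, ha, hb, k1, k2⟩ := (js_cross_iff S.js (K := S.P.pq) hx e).1 hc
  exact (js_cross_iff S.js (K := S.P.pq) ⟨a, h a ha⟩ e).2 ⟨a, b, h a ha, h b hb, k1, k2⟩

/-- a part with pages: the poles are joined -/
theorem os_of_pc (nbt : ∀ {n v k : V}, S.K.Cor n v k → n ≠ k)
    (pc : ∀ {v n a : V}, S.K.ar n v → S.K.ar v a → ∃ k, S.K.PC v n k ∧ S.K.ar k v ∧
      S.K.Cor k v a) {x a b : V} (xa : S.K.ar x a) (xb : S.K.ar x b) (hab : a ≠ b)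
    (hor : (∃ n, S.K.ar n x) ∨ ∃ n k y z, Qn S.P n x k y z ∧ S.K.ar x n ∧ S.K.ar x k) :
    Relation.EqvGen (S.HrL x) a b := by
  have lift : ∀ n m, S.K.Cor n x m → S.K.ar n x → S.HrL x n m := by
    intro n m hc hn
    rcases corC hc with h | ⟨v, h⟩
    · exact Or.inl h
    · exact Or.inr ⟨v, h, Or.inl hn⟩
  rcases hor with ⟨n, hn⟩ | ⟨n, k, y, z, hq, kn, kk⟩
  · obtain ⟨k1, h1, h2, h3⟩ := pc hn xa
    obtain ⟨k2, l1, l2, l3⟩ := pc hn xb
    have pch : ∀ n k, S.K.PC x n k → Relation.EqvGen (S.HrL x) n k := by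
      intro n k h
      induction h with
      | rel a b h => exact Relation.EqvGen.rel _ _ (lift _ _ h.2.2 h.1)
      | refl a => exact Relation.EqvGen.refl _
      | symm a b _ ih => exact ih.symm
      | trans a b c _ _ ih1 ih2 => exact ih1.trans _ _ _ ih2
    exact ((Relation.EqvGen.rel _ _ (lift _ _ h3 h2)).symm).trans _ _ _
      (((pch _ _ h1).symm).trans _ _ _ ((pch _ _ l1).trans _ _ _
        (Relation.EqvGen.rel _ _ (lift _ _ l3 l2))))
  · have hne : n ≠ k := (nbt hq.rot.cor).symm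
    rcases out_two xa xb hab kn with rfl | rfl
    · rcases out_two xa xb hab kk with rfl | rfl
      · exact absurd rfl hne
      · exact Relation.EqvGen.rel _ _ (Or.inl ⟨y, z, hq⟩)
    · rcases out_two xa xb hab kk with rfl | rfl
      · exact Relation.EqvGen.rel _ _ (Or.inl ⟨z, y, hq.symm⟩)
      · exact absurd rfl hne

variable (S) in
/-- at every vertex of the tree the slice is minimal or nothing is centred -/
def HpAll (hc : S.Conn) : Prop := ∀ w, (S.k0 hc w).Min ∨ ∀ x z, ¬ S.RP w x z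

theorem hpAll_of {hc : S.Conn} {w : S.X} (hw : ¬ SA ↥(stabilizer H w))
    (hwm : ∀ w : S.X, ¬ SA ↥(stabilizer H w) → S.WMin w) : S.HpAll hc := by
  intro w'
  by_cases hb : SA ↥(stabilizer H w')
  · right
    rintro x z ⟨q, b, y, hq, hI⟩
    obtain ⟨g, hg⟩ := qn_ctr hc (hwm w hw) hq
    have e := S.isC_unique (Qn.hv hq) hg hI
    apply hw
    have h1 := sa_stab_smul g⁻¹ w' hb
    rw [← e, inv_smul_smul] at h1
    exact h1
  · left
    exact k0_min hc (hwm w' hb)

end SyQ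

namespace FoldC

variable {C : Cd} {V : Type} [MulAction C.H V] {K : GX C.H V} {P : P45 K} {f : V → C.V}

/-- R0 FOR THE PLACED ONE-EDGE SYSTEM -/
theorem rk_syP (F : FoldC C P f) {D : Decomp C.H} {J : V → Set D.X} {js : JS P.pq D J} {w : D.X}
    (s : (SyQ.mk K P D J js).SyP w) {Z : V → Prop} (prt : P.Prt Z)
    (mix : ∀ x n a b y z, Z x → K.ar n x → K.ar x a → K.ar x b → ¬ Qn P a x b y z)
    {tw : V → V → Prop} {Tp : V → Prop} {pt : V → V} (sq : P.SqW tw Tp pt)
    (twp : ∀ x y, tw x y → (∃ a, K.ar x a) ∧ ∀ a, K.ar x a → K.ar y a) (TZ : ∀ T, Tp T → Z T)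
    (nbt : ∀ {n v k : V}, K.Cor n v k → n ≠ k)
    (pc : ∀ {v n a : V}, K.ar n v → K.ar v a → ∃ k, K.PC v n k ∧ K.ar k v ∧ K.Cor k v a) :
    (SyQ.mk K P D J js).RK s.gd.conn tw Tp pt Z := by
  let S : SyQ C.H V := ⟨K, P, D, J, js⟩
  have hor : ∀ x, Z x → (∃ n, S.K.ar n x) ∨
      ∃ n k y z, Qn S.P n x k y z ∧ S.K.ar x n ∧ S.K.ar x k := by
    intro x hx
    by_cases h : ∃ n, S.K.ar n x
    · exact Or.inl h
    · push Not at h
      obtain ⟨n, k, y, z, hq⟩ := prt.pent hx h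
      exact Or.inr ⟨n, k, y, z, hq, (hq.E1).resolve_left (h n), (hq.E2).resolve_right (h k)⟩
  have hos : ∀ x a b, Z x → S.K.ar x a → S.K.ar x b → a ≠ b →
      Relation.EqvGen (S.HrL x) a b := fun x a b hx xa xb hab =>
    SyQ.os_of_pc (S := S) nbt pc xa xb hab (hor x hx)
  refine ⟨s.plcd, fun w' => ⟨sq, ?_, ?_, ?_⟩, ?_, hos, ?_⟩
  · intro x y h u hu hcs
    exact SyQ.cs_poles (S := S) (twp x y h).1 (twp x y h).2 hu hcs
  · intro T a b y hT ht
    exact hos T a b (TZ T hT) ht.2.1 ht.2.2 (sq.nab _ _ _ _ ht)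
  · exact SyQ.hpAll_of (S := S) (hc := s.gd.conn) s.badw (fun w hw => F.wmin js hw) w'
  · intro x hx
    refine ⟨fun n k => prt.one hx, fun n hn a b y z => mix x n a b y z hx hn, ?_⟩
    intro hno a b y z a' b' y' z' h1 h2
    rcases prt.dir hx hno h2 h1 with h | h
    · exact Or.inl h
    · exact Or.inr h
  · intro x a b p t hx o
    have hpx : p ∈ S.J x := by rw [o.J]; rfl
    have hpt : p ≠ t := o.adj.ne
    rcases prt.rest o.xa hx with h | ⟨c, h1, h2⟩
    · obtain ⟨q, k1, k2⟩ := s.tog x a o.xa (inf_pole o.xa h)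
      have e : p = q := by
        have : p ∈ S.J x := hpx
        rw [show S.J x = {q} from k1] at this
        exact this
      have k3 := o.ta
      rw [show S.J a = {q} from k2] at k3
      exact hpt (e.trans (Set.mem_singleton_iff.1 k3).symm)
    · obtain ⟨q, hq⟩ := s.gd.one c h2.1 (FoldC.fs_ell D c h2)
      have k1 : t ∈ S.J c := o.pole h1
      have k2 : p ∈ S.J c := SyQ.mem_of_J o.J (Or.inl h1)
      rw [show S.J c = {q} from hq, Set.mem_singleton_iff] at k1 k2
      exact hpt (k2.trans k1.symm)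

end FoldC

end Pool.Agent.DI
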