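import Pool.Agent.DI.SpSt
import Pool.Agent.DI.R0M
import Pool.Agent.DI.HDL

/-!
# DI/Kf: the total split of a state with its placed one-edge system

`C : St`, `C.ow : OpW C.K C.ofs.W` the total split (DI/SpSt). `St.exists_Kf`: the placed one-edge
system (`SyQ.SyP`) with all hypotheses of R0 (`SyQ.RK`). `St.ow_foldC`, `St.ow_ovC`: the total split lies over
the fold of the state.
-/

namespace Pool.Agent.DI

open MulAction
open Pool.Agent.SAF (InC SA orbs FinOrb oc Decomp SAn Conv)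
open Pool.Agent.BT (PX PQ JS bey exits Ell mst)

namespace St

variable (C : St)

/-- the total split lies over the fold -/
theorem ow_foldC : FoldC C.fd (C.ow.p45 C.P) (fun x : C.ofs.W => C.tp.f (C.ow.π x)) :=
  OpW.foldC C.fd_foldC C.ow C.ow_Tw C.ow_DE C.ow_DF C.ow_NP C.ow_ne

theorem ow_ovC : OvC C.fd C.ow.gx (C.ow.p45 C.P) (fun x : C.ofs.W => C.tp.f (C.ow.π x)) :=
  OpW.ovC C.fd_ovc C.ow C.ow_Tw C.ow_DE C.ow_DF C.ow_NP C.ow_ne

/-- R0 for a placed one-edge system of the total split -/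
theorem ow_rk {D : Decomp C.H} {J : C.ofs.W → Set D.X} {js : JS (C.ow.p45 C.P).pq D J} {w : D.X}
    (s : (SyQ.mk C.ow.gx (C.ow.p45 C.P) D J js).SyP w) :
    (SyQ.mk C.ow.gx (C.ow.p45 C.P) D J js).RK s.gd.conn C.ow.Tw2 (C.ow.Tc C.P) (C.ow.pw C.P)
      C.Zf :=
  FoldC.rk_syP C.ow_foldC s C.ow_prt C.ow_mix C.ow_sqw C.ow_twp C.ow_TZ (fun h => C.ow_nbt h)
    (fun h1 h2 => C.ow_pc h1 h2)

/-- THE PLACED ONE-EDGE SYSTEM OF THE TOTAL SPLIT, with R0 -/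
theorem exists_Kf : ∃ (D : Decomp C.H) (J : C.ofs.W → Set D.X)
    (js : JS (C.ow.p45 C.P).pq D J) (w : D.X)
    (s : (SyQ.mk C.ow.gx (C.ow.p45 C.P) D J js).SyP w),
    (SyQ.mk C.ow.gx (C.ow.p45 C.P) D J js).RK s.gd.conn C.ow.Tw2 (C.ow.Tc C.P) (C.ow.pw C.P)
      C.Zf := by
  obtain ⟨D, J, js, w, s⟩ := Cd.LW.exists_syO (C := C.fd) C.fd_LW C.fd_foldC C.cls.toSqE C.ow
    C.ow_DF C.ow_lc C.ow_noq (Z := C.Zf) C.ow_prt (fun h => C.ow_nbt h)
    (fun h1 h2 => C.ow_pc h1 h2)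
  exact ⟨D, J, js, w, s, C.ow_rk s⟩

end St

end Pool.Agent.DI
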