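import Pool.Agent.DI.Ns0

/-!
# DI/NsP: the position of a pass `z - y - n - m`, `y → n`, `y` crosses `w u`, `n` over `w`

`pos4`, `pos5`: all four vertices over `w` (for a pentagon: centred at `w`), or the cell goes on beyond
another edge `w u'` (zero square `z, y, n, t_{u'}`), or `y, m` cross `w u` (zero square of the star of `n`).
-/

namespace Pool.Agent.DI

open MulAction
open Pool.Agent.SAF (InC orbs FinOrb oc Decomp SAn SA Conv hull dist_edge FinOrb_iff exists_next)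
open Pool.Agent.BT (PX PQ JS bey exits lz lz_self lz_ne lz_symm x_next_unique)
open Pool.Agent.BT.TA

/-! ### the vertices of the flags -/

namespace P45

variable {H V : Type} [Group H] [MulAction H V] {K : GX H V} (P : P45 K)

theorem nx_l5 (i : K.I) (hi : ¬ P.sq i) (j : Fin 5) (h : H) :
    K.nx (P.l5 i hi j h) = P.l5 i hi (j + 1) h := by
  refine K.le_ext ?_
  show (j.1 + 1) % K.len i = (j + 1 : Fin 5).1
  rw [P.len5 hi]
  fin_cases j <;> rfl

theorem pv_l5 (i : K.I) (hi : ¬ P.sq i) (j : Fin 5) (h : H) :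
    K.pv (P.l5 i hi j h) = P.l5 i hi (j + 4) h := by
  refine K.le_ext ?_
  show (j.1 + (K.len i - 1)) % K.len i = (j + 4 : Fin 5).1
  rw [P.len5 hi]
  fin_cases j <;> rfl

theorem fc_zf (nd : P.ND) (f : FL K) : (P.fc nd).z f = fz f := by
  obtain ⟨e, b⟩ := f
  cases b
  · exact P.fc_z' nd e
  · exact P.fc_z nd e

theorem fc_xf (nd : P.ND) (f : FL K) : (P.fc nd).x f = fprv f := by
  obtain ⟨e, b⟩ := f
  cases b
  · exact P.fc_x' nd e
  · exact P.fc_x nd e

end P45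

/-- the disjoint sum of two sets -/
def sSum {X Y : Type} (A : Set X) (B : Set Y) : Set (X ⊕ Y) := Sum.inl '' A ∪ Sum.inr '' B

theorem sSum_inl {X Y : Type} {A : Set X} {B : Set Y} {a : X} : Sum.inl a ∈ sSum A B ↔ a ∈ A := by
  constructor
  · rintro (⟨b, hb, e⟩ | ⟨b, hb, e⟩)
    · rw [← Sum.inl.inj e]
      exact hb
    · cases e
  · intro h
    exact Or.inl ⟨a, h, rfl⟩

theorem sSum_inr {X Y : Type} {A : Set X} {B : Set Y} {b : Y} : Sum.inr b ∈ sSum A B ↔ b ∈ B := by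
  constructor
  · rintro (⟨c, hc, e⟩ | ⟨c, hc, e⟩)
    · cases e
    · rw [← Sum.inr.inj e]
      exact hc
  · intro h
    exact Or.inr ⟨b, h, rfl⟩

section Sum

variable {G X Y : Type} [Group G] [MulAction G X] [MulAction G Y] {A : Set X} {B : Set Y}

theorem finOrb_sSum (hA : FinOrb G A) (hB : FinOrb G B) : FinOrb G (sSum A B) := by
  refine finOrb_union ?_ ?_
  · refine Pool.Agent.SAF.FinOrb.image hA (fun a => (Sum.inl a : X ⊕ Y)) ?_ ?_
    · rintro _ ⟨a, ha, rfl⟩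
      exact ⟨a, ha, 1, one_smul _ _⟩
    · rintro a - _ - ⟨g, rfl⟩
      exact ⟨g, rfl⟩
  · refine Pool.Agent.SAF.FinOrb.image hB (fun a => (Sum.inr a : X ⊕ Y)) ?_ ?_
    · rintro _ ⟨a, ha, rfl⟩
      exact ⟨a, ha, 1, one_smul _ _⟩
    · rintro a - _ - ⟨g, rfl⟩
      exact ⟨g, rfl⟩

theorem finOrb_of_sSum (h : FinOrb G (sSum A B)) : FinOrb G A ∧ FinOrb G B := by
  constructor
  · refine Pool.Agent.SAF.FinOrb.of_inj h (fun a => (Sum.inl a : X ⊕ Y)) ?_ ?_
    · intro a ha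
      exact sSum_inl.2 ha
    · rintro a - b - ⟨g, hg⟩
      exact ⟨g, Sum.inl.inj hg⟩
  · refine Pool.Agent.SAF.FinOrb.of_inj h (fun a => (Sum.inr a : X ⊕ Y)) ?_ ?_
    · intro a ha
      exact sSum_inr.2 ha
    · rintro a - b - ⟨g, hg⟩
      exact ⟨g, Sum.inr.inj hg⟩

theorem oc_sSum (hA : FinOrb G A) (hB : FinOrb G B) : oc G (sSum A B) = oc G A + oc G B := by
  have h := finOrb_sSum (G := G) hA hB
  unfold sSum at h ⊢
  rw [oc_union]
  · congr 1
    · apply le_antisymm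
      · refine Pool.Agent.SAF.oc_le_of_surj hA (fun a => (Sum.inl a : X ⊕ Y)) ?_ ?_
        · rintro _ ⟨a, ha, rfl⟩
          exact ⟨a, ha, 1, one_smul _ _⟩
        · rintro a - _ - ⟨g, rfl⟩
          exact ⟨g, rfl⟩
      · refine Pool.Agent.SAF.oc_le_of_inj (h.mono Set.subset_union_left)
          (fun a => (Sum.inl a : X ⊕ Y)) (fun a ha => ⟨a, ha, rfl⟩) ?_
        rintro a - b - ⟨g, hg⟩
        exact ⟨g, Sum.inl.inj hg⟩
    · apply le_antisymm
      · refine Pool.Agent.SAF.oc_le_of_surj hB (fun a => (Sum.inr a : X ⊕ Y)) ?_ ?_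
        · rintro _ ⟨a, ha, rfl⟩
          exact ⟨a, ha, 1, one_smul _ _⟩
        · rintro a - _ - ⟨g, rfl⟩
          exact ⟨g, rfl⟩
      · refine Pool.Agent.SAF.oc_le_of_inj (h.mono Set.subset_union_right)
          (fun a => (Sum.inr a : X ⊕ Y)) (fun a ha => ⟨a, ha, rfl⟩) ?_
        rintro a - b - ⟨g, hg⟩
        exact ⟨g, Sum.inr.inj hg⟩
  · rintro _ ⟨a, -, rfl⟩ g ⟨b, -, e⟩
    cases e
  · exact h.mono Set.subset_union_left
  · exact h.mono Set.subset_union_right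

end Sum

namespace SyQ

variable {H V : Type} [Group H] [MulAction H V] {S : SyQ H V}

/-- a walk `z - y - n - m` of a square -/
theorem pos4 {w u : S.X} {z y n m : V} (hq : Q4 S.P z y n m) (hyn : S.K.ar y n) (hn : w ∈ S.J n)
    (hu : S.D.G.Adj w u) (cy : S.Cs w u y) : S.At4 z y n m w ∨
    (∃ u', S.Qs w u' y z n ∧ S.J m ⊆ bey S.D.G w u') ∨ S.Qs w u n y m := by
  have hw : ∀ p, p ∈ S.J y → p ∈ S.J n → p = w := fun p h1 h2 => S.one_eq hq.E2 h1 h2 cy.1 hn
  rcases hq.w4.pos with ⟨p, q, k⟩ | ⟨p, q, k⟩ | ⟨p, k⟩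
  · have e := hw p k.p1 k.p2
    subst e
    obtain ⟨u', b⟩ := exists_Bt S.D.tree (Sgm.left p q) k.ne
    exact Or.inr (Or.inl ⟨u', k.qs hq b, k.s3 hq.w4 b⟩)
  · have e := hw p k.p0 k.p1
    subst e
    obtain ⟨u', b⟩ := exists_Bt S.D.tree (Sgm.left p q) k.ne
    have h1 : S.Qs p u' n y m := k.qs hq.rot b
    have h2 : u' = u := pole_edge cy.1 hyn hn h1.adj hu h1.l.2 cy.2
    rw [h2] at h1
    exact Or.inr (Or.inr h1)
  · have e := hw p k.p1 k.p2
    subst e
    exact Or.inl k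

/-- a zero square of a pentagon -/
theorem Sq.qs {w u : S.X} {a q b y z : V} (h : S.Sq w u a q b y z) (hq : Qn S.P a q b y z) :
    S.Qs w u q a b :=
  ⟨h.1, h.2.1, h.2.2.1, h.2.2.2.1, Or.inl ⟨y, z, hq, h.2.2.2.2.1, h.2.2.2.2.2⟩⟩

/-- a pass `z - y - n - m` of a pentagon -/
theorem pos5 (hc : S.Conn) (hnb : S.NB) {w u : S.X} {f : FL S.K} (hf : ¬ S.P.sq f.1.1.1)
    (hyn : S.K.ar (P45.fy f) (P45.fz f)) (hn : w ∈ S.J (P45.fz f)) (hu : S.D.G.Adj w u)
    (cy : S.Cs w u (P45.fy f)) :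
    (∃ (f0 : FL (S.k0 hc w)) (c : S.C5 w), bkf hc f0 = f ∧ f0.1.1.1 = Sum.inl c ∧
      P45.fy f0 = S.rho w (P45.fy f) ∧ P45.fz f0 = S.rho w (P45.fz f)) ∨
    (∃ u', S.Qs w u' (P45.fy f) (P45.fprv f) (P45.fz f) ∧ S.J (P45.fv f) ⊆ bey S.D.G w u') ∨
      S.Qs w u (P45.fz f) (P45.fy f) (P45.fv f) := by
  obtain ⟨e, b⟩ := f
  rcases S.P.l_cases e with ⟨i, hi, j, h, rfl⟩ | ⟨i, hi, j, h, rfl⟩
  swap
  · exact absurd hi hf
  have a1 : ∀ k : Fin 5, k + 4 + 1 = k := by decide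
  have a2 : ∀ k : Fin 5, k + 4 + 2 = k + 1 := by decide
  have a3 : ∀ k : Fin 5, k + 4 + 3 = k + 2 := by decide
  have a4 : ∀ k : Fin 5, k + 4 + 4 = k + 3 := by decide
  have b1 : ∀ k : Fin 5, k + 1 + 1 = k + 2 := by decide
  have b2 : ∀ k : Fin 5, k + 1 + 2 = k + 3 := by decide
  have b3 : ∀ k : Fin 5, k + 1 + 3 = k + 4 := by decide
  have b4 : ∀ k : Fin 5, k + 1 + 4 = k := by decide
  have hy : S.K.c1 (S.P.l5 i hi j h) = S.tr h i (j + 1) := by
    rw [P45.c1_5]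
    rfl
  cases b
  · -- backwards
    have ex : P45.fprv ((S.P.l5 i hi j h, false) : FL S.K) = S.tr h i (j + 2) := by
      show S.K.c2 _ = _
      rw [P45.c2_5]
      rfl
    have ey : P45.fy ((S.P.l5 i hi j h, false) : FL S.K) = S.tr h i (j + 1) := hy
    have ez : P45.fz ((S.P.l5 i hi j h, false) : FL S.K) = S.tr h i j := by
      show S.K.c0 _ = _
      rw [P45.c0_5]
      rfl
    have ev : P45.fv ((S.P.l5 i hi j h, false) : FL S.K) = S.tr h i (j + 4) := by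
      show S.K.c0 (S.K.pv _) = _
      rw [P45.pv_l5, P45.c0_5]
      rfl
    rw [ez] at hn
    rw [ey] at cy
    rw [ey, ez] at hyn
    rw [ex, ey, ez, ev]
    have hne : S.rho w (S.tr h i j) ≠ S.rho w (S.tr h i (j + 2)) := by
      intro k
      have := hnb (S.P.l5 i hi j h)
      rw [P45.c0_5, P45.c2_5] at this
      rw [S.rho_near hn] at k
      exact this (rho_inl k.symm).symm
    rcases visq_cases hi cy.1 hne with hI | ⟨u', k, hs, hj⟩
    · left
      obtain ⟨c, l, rfl, rfl⟩ := exists_e5 hi hI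
      exact ⟨(e5 hc c j l, false), c, rfl, rfl, e5_c1 hc c j l, e5_c0 hc c j l⟩
    · right
      have hQ := hs.qs (Qn_pt (P := S.P) h hi k)
      rcases hj with rfl | rfl | rfl
      · exact Or.inl ⟨u', hQ.symm', hs.2.2.2.2.2⟩
      · right
        rw [b1] at cy hyn ⊢
        rw [b4]
        have e := pole_edge cy.1 hyn hn hs.1 hu hs.2.2.1.2 cy.2
        rw [e] at hQ
        exact hQ.symm'
      · exact absurd hn (S.not_mem_of_bey hs.1 hs.2.2.2.2.2)
  · -- forwards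
    have ex : P45.fprv ((S.P.l5 i hi j h, true) : FL S.K) = S.tr h i j := by
      show S.K.c0 _ = _
      rw [P45.c0_5]
      rfl
    have ey : P45.fy ((S.P.l5 i hi j h, true) : FL S.K) = S.tr h i (j + 1) := hy
    have ez : P45.fz ((S.P.l5 i hi j h, true) : FL S.K) = S.tr h i (j + 2) := by
      show S.K.c2 _ = _
      rw [P45.c2_5]
      rfl
    have ev : P45.fv ((S.P.l5 i hi j h, true) : FL S.K) = S.tr h i (j + 3) := by
      show S.K.c2 (S.K.nx _) = _
      rw [P45.nx_l5, P45.c2_5, b2]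
      rfl
    rw [ez] at hn
    rw [ey] at cy
    rw [ey, ez] at hyn
    rw [ex, ey, ez, ev]
    have hne : S.rho w (S.tr h i j) ≠ S.rho w (S.tr h i (j + 2)) := by
      intro k
      have := hnb (S.P.l5 i hi j h)
      rw [P45.c0_5, P45.c2_5] at this
      rw [S.rho_near hn] at k
      exact this (rho_inl k)
    rcases visq_cases hi cy.1 hne with hI | ⟨u', k, hs, hj⟩
    · left
      obtain ⟨c, l, rfl, rfl⟩ := exists_e5 hi hI
      exact ⟨(e5 hc c j l, true), c, rfl, rfl, e5_c1 hc c j l, e5_c2 hc c j l⟩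
    · right
      have hQ := hs.qs (Qn_pt (P := S.P) h hi k)
      rcases hj with rfl | rfl | rfl
      · exact Or.inl ⟨u', hQ, hs.2.2.2.2.1⟩
      · rw [b2] at hn
        exact absurd hn (S.not_mem_of_bey hs.1 hs.2.2.2.2.1)
      · right
        rw [a1, a2] at hyn
        rw [a1] at cy
        rw [a2] at hn
        rw [a1, a2, a3]
        have e := pole_edge cy.1 hyn hn hs.1 hu hs.2.1.2 cy.2
        rw [e] at hQ
        exact hQ

end SyQ

end Pool.Agent.DI
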