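import Pool.Agent.DI.OpnR
import Pool.Agent.DI.NsP

/-!
# DI/OpnK: openings by at most two labels, with bare vertices

`O : OpK K X`: labels as in `OpR`, at most two labels over a vertex. `O.Dl y`: two labels, `O.Exch y`: two
labels which are exchanged by the stabiliser of `y`. The vertices of the opened complex are `O.pt (y, x)`,
`(y, x)` a label, and the BARE vertices `O.br y`, `O.Exch y`. `O.opk : OpW K O.W2`, with one square for every
orbit of vertices with two labels: `a, (y, x), b, (y, x')` if the labels are not exchanged,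
`a, (y, x), b, br y` if they are exchanged.
-/

namespace Pool.Agent.DI

open MulAction
open Pool.Agent.SAF (InC orbs FinOrb oc FinOrb_iff)

/-- openings by at most two labels over a vertex -/
structure OpK {H V : Type} [Group H] [MulAction H V] (K : GX H V) (X : Type) [MulAction H X]
    extends OpR K X where
  le2 : ∀ y x x' x'', (y, x) ∈ Lb → (y, x') ∈ Lb → (y, x'') ∈ Lb → x = x' ∨ x' = x'' ∨ x = x''

namespace OpK

variable {H V X : Type} [Group H] [MulAction H V] [MulAction H X] {K : GX H V} (O : OpK K X)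

/-- two labels -/
def Dl (y : V) : Prop := ∃ x x', (y, x) ∈ O.Lb ∧ (y, x') ∈ O.Lb ∧ x ≠ x'

/-- the two labels are exchanged by the stabiliser -/
def Exch (y : V) : Prop := ∃ (h : H) (x x' : X), h • y = y ∧ (y, x) ∈ O.Lb ∧ (y, x') ∈ O.Lb ∧
  x ≠ x' ∧ h • x = x'

variable {O}

theorem Exch.dl {y : V} (h : O.Exch y) : O.Dl y := by
  obtain ⟨-, x, x', -, h1, h2, h3, -⟩ := h
  exact ⟨x, x', h1, h2, h3⟩

theorem lb_smul {y : V} {x : X} (g : H) (h : (y, x) ∈ O.Lb) : (g • y, g • x) ∈ O.Lb :=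
  O.inv g _ h

theorem Dl.smul {y : V} (h : O.Dl y) (g : H) : O.Dl (g • y) := by
  obtain ⟨x, x', h1, h2, h3⟩ := h
  exact ⟨g • x, g • x', lb_smul g h1, lb_smul g h2, fun e => h3 (smul_left_cancel g e)⟩

theorem Exch.smul {y : V} (h : O.Exch y) (g : H) : O.Exch (g • y) := by
  obtain ⟨k, x, x', h0, h1, h2, h3, h4⟩ := h
  refine ⟨g * k * g⁻¹, g • x, g • x', ?_, lb_smul g h1, lb_smul g h2,
    fun e => h3 (smul_left_cancel g e), ?_⟩
  · rw [mul_smul, mul_smul, inv_smul_smul, h0]
  · rw [mul_smul, mul_smul, inv_smul_smul, h4]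

theorem dl_iff (g : H) {y : V} : O.Dl (g • y) ↔ O.Dl y := by
  refine ⟨fun h => ?_, fun h => h.smul g⟩
  have := h.smul g⁻¹
  rwa [inv_smul_smul] at this

theorem exch_iff (g : H) {y : V} : O.Exch (g • y) ↔ O.Exch y := by
  refine ⟨fun h => ?_, fun h => h.smul g⟩
  have := h.smul g⁻¹
  rwa [inv_smul_smul] at this

/-- the two labels: every label is one of them -/
theorem two_lb {y : V} {x x' z : X} (h : (y, x) ∈ O.Lb) (h' : (y, x') ∈ O.Lb) (hne : x ≠ x')
    (hz : (y, z) ∈ O.Lb) : z = x ∨ z = x' := by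
  rcases O.le2 y x x' z h h' hz with e | e | e
  · exact absurd e hne
  · exact Or.inr e.symm
  · exact Or.inl e.symm

/-- the exchange of the two labels -/
theorem Exch.sw {y : V} (h : O.Exch y) {x x' : X} (hx : (y, x) ∈ O.Lb) (hx' : (y, x') ∈ O.Lb)
    (hne : x ≠ x') : ∃ g : H, g • y = y ∧ g • x = x' := by
  obtain ⟨k, z, z', h0, h1, h2, h3, h4⟩ := h
  rcases two_lb h1 h2 h3 hx with e | e
  · rcases two_lb h1 h2 h3 hx' with e' | e'
    · exact absurd (e.trans e'.symm) hne
    · exact ⟨k, h0, by rw [e, h4, e']⟩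
  · rcases two_lb h1 h2 h3 hx' with e' | e'
    · refine ⟨k⁻¹, ?_, ?_⟩
      · rw [inv_smul_eq_iff, h0]
      · rw [e, e', inv_smul_eq_iff, h4]
    · exact absurd (e.trans e'.symm) hne

variable (O)

/-! ### the vertices -/

/-- labels and bare vertices -/
def subK : SubMulAction H ((V × X) ⊕ V) where
  carrier := {w | Sum.elim (fun p => p ∈ O.Lb) O.Exch w}
  smul_mem' h w hw := by
    rcases w with p | y
    · exact O.inv h p hw
    · exact Exch.smul (show O.Exch y from hw) h

/-- the vertices of the opened complex -/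
abbrev W2 : Type := ↥O.subK

/-- a label -/
def pt (p : V × X) (h : p ∈ O.Lb) : O.W2 := ⟨Sum.inl p, h⟩

/-- a bare vertex -/
def br (y : V) (h : O.Exch y) : O.W2 := ⟨Sum.inr y, h⟩

theorem w2_cases (w : O.W2) : (∃ p h, w = O.pt p h) ∨ ∃ y h, w = O.br y h := by
  obtain ⟨w | y, h⟩ := w
  · exact Or.inl ⟨w, h, rfl⟩
  · exact Or.inr ⟨y, h, rfl⟩

/-- the projection -/
def π2 (w : O.W2) : V := Sum.elim Prod.fst id w.1

variable {O}

@[simp] theorem π2_pt {p : V × X} (h : p ∈ O.Lb) : O.π2 (O.pt p h) = p.1 := rfl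

@[simp] theorem π2_br {y : V} (h : O.Exch y) : O.π2 (O.br y h) = y := rfl

theorem smul_pt (g : H) {p : V × X} (h : p ∈ O.Lb) : g • O.pt p h = O.pt (g • p) (O.inv g p h) :=
  rfl

theorem smul_br (g : H) {y : V} (h : O.Exch y) : g • O.br y h = O.br (g • y) (h.smul g) := rfl

theorem pt_inj {p p' : V × X} {h : p ∈ O.Lb} {h' : p' ∈ O.Lb} :
    O.pt p h = O.pt p' h' ↔ p = p' := by
  constructor
  · intro e
    exact Sum.inl.inj (congrArg Subtype.val e)
  · rintro rfl
    rfl

theorem br_inj {y y' : V} {h : O.Exch y} {h' : O.Exch y'} : O.br y h = O.br y' h' ↔ y = y' := by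
  constructor
  · intro e
    exact Sum.inr.inj (congrArg Subtype.val e)
  · rintro rfl
    rfl

theorem pt_ne_br {p : V × X} {y : V} {h : p ∈ O.Lb} {h' : O.Exch y} : O.pt p h ≠ O.br y h' := by
  intro e
  have e := congrArg Subtype.val e
  cases e

theorem π2_smul (h : H) (w : O.W2) : O.π2 (h • w) = h • O.π2 w := by
  rcases O.w2_cases w with ⟨p, hp, rfl⟩ | ⟨y, hy, rfl⟩
  · rfl
  · rfl

/-- different vertices over one vertex -/
theorem dl_of_ne {x y : O.W2} (h : O.π2 x = O.π2 y) (hne : x ≠ y) : O.Dl (O.π2 x) := by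
  rcases O.w2_cases x with ⟨p, hp, rfl⟩ | ⟨v, hv, rfl⟩
  · rcases O.w2_cases y with ⟨p', hp', rfl⟩ | ⟨v', hv', rfl⟩
    · obtain ⟨y, x⟩ := p
      obtain ⟨y', x'⟩ := p'
      have h : y = y' := h
      subst h
      exact ⟨x, x', hp, hp', fun e => hne (by rw [pt_inj, e])⟩
    · rw [h]
      exact hv'.dl
  · exact hv.dl

theorem dl_poles {y : V} (h : O.Dl y) : ∃ a b, a ≠ b ∧ K.ar y a ∧ K.ar y b := by
  obtain ⟨x, x', h1, h2, h3⟩ := h
  exact O.two y x x' h1 h2 h3

variable (O)

/-- a vertex over `y` -/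
noncomputable def some2 (y : V) : O.W2 :=
  O.pt (y, Classical.choose (O.sur y)) (Classical.choose_spec (O.sur y))

open Classical in
/-- the label of an in-arrow -/
noncomputable def e2 (n y : V) : O.W2 :=
  if h : K.ar n y then O.pt (y, O.r n y) (O.r_mem n y h) else O.some2 y

theorem e2_ar {n y : V} (h : K.ar n y) : O.e2 n y = O.pt (y, O.r n y) (O.r_mem n y h) := dif_pos h

theorem π2_e (n y : V) (h : K.ar n y) : O.π2 (O.e2 n y) = y := by
  rw [O.e2_ar h]
  rfl

theorem e2_smul (h : H) (n y : V) (a : K.ar n y) : O.e2 (h • n) (h • y) = h • O.e2 n y := by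
  rw [O.e2_ar a, O.e2_ar (K.ar_smul h _ _ a), smul_pt, pt_inj]
  exact Prod.ext rfl (O.r_smul h n y a)

theorem e2_pt (n y : V) : ∃ x h, O.e2 n y = O.pt (y, x) h := by
  by_cases h : K.ar n y
  · exact ⟨_, _, O.e2_ar h⟩
  · exact ⟨_, _, dif_neg h⟩

theorem corE2 : CorE K O.e2 := by
  intro i j hl h1 h2
  have hc := K.cor_vx i j 1 hl
  simp only [one_smul] at hc
  rw [O.e2_ar h1, O.e2_ar h2, pt_inj]
  exact Prod.ext rfl (O.r_cor _ _ _ hc h1 h2)

theorem finW2 : FinOrb H (Set.univ : Set O.W2) := by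
  have h2 : FinOrb H {y : V | O.Exch y} := K.fin.mono (Set.subset_univ _)
  refine FinOrb.of_inj (H' := H) (finOrb_sSum O.fin h2) (fun w : O.W2 => w.1) ?_ ?_
  · rintro w -
    rcases O.w2_cases w with ⟨p, hp, rfl⟩ | ⟨y, hy, rfl⟩
    · exact Or.inl ⟨p, hp, rfl⟩
    · exact Or.inr ⟨y, hy, rfl⟩
  · rintro a - b - ⟨h, e⟩
    exact ⟨h, Subtype.ext e⟩

theorem stab_le2 (w : O.W2) : stabilizer H w ≤ stabilizer H (O.π2 w) := by
  intro h hh
  rw [mem_stabilizer_iff] at hh ⊢
  rw [← π2_smul, hh]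

/-! ### the squares -/

/-- one label -/
noncomputable def l1 {y : V} (h : O.Dl y) : X := Classical.choose h

/-- the other label -/
noncomputable def l2 {y : V} (h : O.Dl y) : X := Classical.choose (Classical.choose_spec h)

theorem l1_mem {y : V} (h : O.Dl y) : (y, O.l1 h) ∈ O.Lb :=
  (Classical.choose_spec (Classical.choose_spec h)).1

theorem l2_mem {y : V} (h : O.Dl y) : (y, O.l2 h) ∈ O.Lb :=
  (Classical.choose_spec (Classical.choose_spec h)).2.1

theorem l_ne {y : V} (h : O.Dl y) : O.l1 h ≠ O.l2 h :=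
  (Classical.choose_spec (Classical.choose_spec h)).2.2

/-- the first top of the square over `y` -/
noncomputable def sK {y : V} (h : O.Dl y) : O.W2 := O.pt (y, O.l1 h) (O.l1_mem h)

open Classical in
/-- the second top of the square over `y` -/
noncomputable def tK {y : V} (h : O.Dl y) : O.W2 :=
  if hE : O.Exch y then O.br y hE else O.pt (y, O.l2 h) (O.l2_mem h)

theorem tK_ex {y : V} (h : O.Dl y) (hE : O.Exch y) : O.tK h = O.br y hE := dif_pos hE

theorem tK_nex {y : V} (h : O.Dl y) (hE : ¬ O.Exch y) : O.tK h = O.pt (y, O.l2 h) (O.l2_mem h) :=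
  dif_neg hE

theorem π2_sK {y : V} (h : O.Dl y) : O.π2 (O.sK h) = y := rfl

theorem π2_tK {y : V} (h : O.Dl y) : O.π2 (O.tK h) = y := by
  by_cases hE : O.Exch y
  · rw [O.tK_ex h hE]
    rfl
  · rw [O.tK_nex h hE]
    rfl

theorem sK_ne_tK {y : V} (h : O.Dl y) : O.sK h ≠ O.tK h := by
  by_cases hE : O.Exch y
  · rw [O.tK_ex h hE]
    exact pt_ne_br
  · rw [O.tK_nex h hE]
    intro e
    exact O.l_ne h (congrArg Prod.snd (pt_inj.1 e))

/-- the vertices over `y` are joined by squares -/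
theorem cov0 {y : V} (h : O.Dl y) {z : O.W2} (hz : O.π2 z = y) :
    Relation.EqvGen (fun a b => ∃ g : H, g • O.sK h = a ∧ g • O.tK h = b) (O.sK h) z := by
  have r0 : ∀ g : H, Relation.EqvGen (fun a b => ∃ g : H, g • O.sK h = a ∧ g • O.tK h = b)
      (g • O.sK h) (g • O.tK h) := fun g => Relation.EqvGen.rel _ _ ⟨g, rfl, rfl⟩
  have r1 := r0 1
  rw [one_smul, one_smul] at r1
  rcases O.w2_cases z with ⟨⟨y', x⟩, hp, rfl⟩ | ⟨y', hy, rfl⟩
  · have hz : y' = y := hz
    subst hz
    rcases two_lb (O.l1_mem h) (O.l2_mem h) (O.l_ne h) hp with e | e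
    · have : O.sK h = O.pt (y', x) hp := pt_inj.2 (by rw [e])
      rw [this]
      exact Relation.EqvGen.refl _
    · by_cases hE : O.Exch y'
      · obtain ⟨g, g1, g2⟩ := hE.sw (O.l1_mem h) (O.l2_mem h) (O.l_ne h)
        have k := r0 g
        have e1 : g • O.sK h = O.pt (y', x) hp := by
          unfold sK
          rw [smul_pt, pt_inj]
          exact Prod.ext g1 (g2.trans e.symm)
        have e2 : g • O.tK h = O.tK h := by
          rw [O.tK_ex h hE, smul_br, br_inj]
          exact g1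
        rw [e1, e2] at k
        exact r1.trans _ _ _ (k.symm _ _)
      · have : O.tK h = O.pt (y', x) hp := by
          rw [O.tK_nex h hE, pt_inj, e]
        rw [← this]
        exact r1
  · have hz : y' = y := hz
    subst hz
    rw [← O.tK_ex h hy]
    exact r1

theorem finDl : FinOrb H {y : V | O.Dl y} := K.fin.mono (Set.subset_univ _)

theorem ex_rep2 (j : ↥(orbs H {y : V | O.Dl y})) : ∃ y : V, O.Dl y ∧
    (Quotient.mk'' y : orbitRel.Quotient H V) = j.1 := by
  obtain ⟨p, hp, e⟩ := j.2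
  exact ⟨p, hp, e⟩

/-- a representative of an orbit of vertices with two labels -/
noncomputable def rep2 (j : ↥(orbs H {y : V | O.Dl y})) : V := Classical.choose (O.ex_rep2 j)

theorem rep2_dl (j : ↥(orbs H {y : V | O.Dl y})) : O.Dl (O.rep2 j) :=
  (Classical.choose_spec (O.ex_rep2 j)).1

theorem rep2_mk (j : ↥(orbs H {y : V | O.Dl y})) :
    (Quotient.mk'' (O.rep2 j) : orbitRel.Quotient H V) = j.1 :=
  (Classical.choose_spec (O.ex_rep2 j)).2

/-- THE OPENED COMPLEX -/
noncomputable def opk : OpW K O.W2 where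
  π := O.π2
  e := O.e2
  π_smul := π2_smul
  e_smul := O.e2_smul
  π_e := O.π2_e
  sur y := ⟨O.some2 y, rfl⟩
  pole x y h hne := by
    obtain ⟨a, b, -, ha, -⟩ := dl_poles (dl_of_ne h hne)
    exact ⟨a, ha⟩
  J := ↥(orbs H {y : V | O.Dl y})
  finJ := Set.finite_coe_iff.2 O.finDl
  js j := O.sK (O.rep2_dl j)
  jt j := O.tK (O.rep2_dl j)
  ja j := Classical.choose (dl_poles (O.rep2_dl j))
  jb j := Classical.choose (Classical.choose_spec (dl_poles (O.rep2_dl j)))
  j_eq j := O.π2_tK _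
  j_a j := (Classical.choose_spec (Classical.choose_spec (dl_poles (O.rep2_dl j)))).2.1
  j_b j := (Classical.choose_spec (Classical.choose_spec (dl_poles (O.rep2_dl j)))).2.2
  j_ab j := (Classical.choose_spec (Classical.choose_spec (dl_poles (O.rep2_dl j)))).1
  cov x y h a b ha hb hab := by
    by_cases hne : x = y
    · rw [hne]
      exact Relation.EqvGen.refl _
    have hd := dl_of_ne h hne
    let j : ↥(orbs H {y : V | O.Dl y}) := ⟨Quotient.mk'' (O.π2 x), O.π2 x, hd, rfl⟩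
    obtain ⟨g, hg⟩ := Pool.Agent.SAF.mk_eq_iff.1 (O.rep2_mk j).symm
    have hg : g • O.rep2 j = O.π2 x := hg
    have key : ∀ z z' : O.W2, Relation.EqvGen
        (fun a b => ∃ g : H, g • O.sK (O.rep2_dl j) = a ∧ g • O.tK (O.rep2_dl j) = b) z z' →
        Relation.EqvGen (fun x y => ∃ (j : ↥(orbs H {y : V | O.Dl y})) (h : H),
          h • O.sK (O.rep2_dl j) = x ∧ h • O.tK (O.rep2_dl j) = y) (g • z) (g • z') := by
      intro z z' k
      induction k with
      | rel z z' k =>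
        obtain ⟨l, rfl, rfl⟩ := k
        exact Relation.EqvGen.rel _ _ ⟨j, g * l, mul_smul _ _ _, mul_smul _ _ _⟩
      | refl z => exact Relation.EqvGen.refl _
      | symm z z' _ ih => exact ih.symm _ _
      | trans a b c _ _ i1 i2 => exact i1.trans _ _ _ i2
    have hx : O.π2 (g⁻¹ • x) = O.rep2 j := by rw [π2_smul, ← hg, inv_smul_smul]
    have hy : O.π2 (g⁻¹ • y) = O.rep2 j := by rw [π2_smul, ← h, ← hg, inv_smul_smul]
    have k1 := key _ _ (((O.cov0 (O.rep2_dl j) hx).symm _ _).trans _ _ _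
      (O.cov0 (O.rep2_dl j) hy))
    rwa [smul_inv_smul, smul_inv_smul] at k1
  lp := lpOf K O.e2 (fun i j => O.pt (K.vx i j, O.d i j) (O.d_mem i j))
  lp_len := lpOf_len (fun i j => pt_inj.2 (Prod.ext (K.vx_add_len i j) (O.d_len i j)))
  π_lp := π_lpOf O.π2_e (fun _ _ => rfl)
  lp_E := lpOf_E O.corE2
  fin := O.finW2
  stab x := Pool.Agent.BT.InC.of_injective (Subgroup.inclusion (O.stab_le2 x))
    (Subgroup.inclusion_injective _) (K.stab _)

end OpK

end Pool.Agent.DI
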