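import Pool.Agent.DI.R0K
import Pool.Agent.DI.Dsc
import Pool.Agent.DI.OpnK
import Pool.Agent.DI.OpnS

/-!
# DI/RKn: R0 for the descent; an opened vertex is not the top of a local square

`SyQ.RK.r0`: the hypothesis `SyQ.R0` of `Dsc.r0`. `OpK.noE`: in the opening by labels (DI/OpnK), if the tops of
`K` have one label and different vertices over one vertex are at different points, then the top of a square
whose tops have a common point is not opened.
-/

namespace Pool.Agent.DI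

open MulAction
open Pool.Agent.SAF (InC SA orbs FinOrb oc Decomp SAn Conv)
open Pool.Agent.BT (PX PQ JS bey exits Ell mst)

namespace SyQ

variable {H V : Type} [Group H] [MulAction H V] {S : SyQ H V} {hc : S.Conn} {tw : V → V → Prop}
  {Tp : V → Prop} {pt : V → V} {Z : V → Prop}

/-- R0 FOR THE DESCENT -/
theorem RK.r0 (r : S.RK hc tw Tp pt Z) (nbt : ∀ {n v k : V}, S.K.Cor n v k → n ≠ k) : S.R0 where
  page hp hpp ha hb hab hpa hpb hn := r.page ⟨hp, hpp, ha, hb, hab, hpa, hpb⟩ hn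
  dir hp hpp ha hb hpa hpb hq hcc := r.dir ⟨hp, hpp, ha, hb, (nbt hq.rot.cor).symm, hpa, hpb⟩ hq hcc
  int _ hp ha hb hab h1 h2 h3 h4 h5 h6 :=
    r.int ⟨hp, h1, ha, hb, hab, h3, h4⟩ ⟨hp, h2, ha, hb, hab, h5, h6⟩

end SyQ

namespace OpK

variable {H V X : Type} [Group H] [MulAction H V] [MulAction H X] {K : GX H V} {O : OpK K X}

private theorem dbl_dl' {x : O.W2} (h : O.opk.Dbl x) : O.Dl (O.π2 x) := by
  obtain ⟨y, h1, h2⟩ := h
  exact dl_of_ne h1 h2

private theorem opk_ne' (j : O.opk.J) : O.opk.js j ≠ O.opk.jt j := O.sK_ne_tK _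

/-- AN OPENED VERTEX IS NOT THE TOP OF A LOCAL SQUARE -/
theorem noE {P : P45 K} {D : Decomp H} {J1 : O.W2 → Set D.X}
    (top1 : ∀ T a b y, P.Top T a b y → ¬ O.Dl T)
    (pts : ∀ x y, O.π2 x = O.π2 y → x ≠ y → ∃ p p', J1 x = {p} ∧ J1 y = {p'} ∧ p ≠ p') {w : D.X}
    {T a b y : O.W2} (h : (O.opk.p45 P).Top T a b y) (hT : w ∈ J1 T) (hy : w ∈ J1 y) :
    ¬ O.opk.Dbl T := by
  intro hd
  rcases O.opk.Q4_π P h.1 with k | k | k
  · exact top1 _ _ _ _ ⟨k, O.opk.ar_π h.2.1, O.opk.ar_π h.2.2⟩ (dbl_dl' hd)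
  · obtain ⟨-, -, -, -, e, -⟩ := OpW.NSq.ar O.opk k
    obtain ⟨p, p', h1, h2, h3⟩ := pts T y e (OpW.NSq.dbl opk_ne' k).2
    rw [h1] at hT
    rw [h2] at hy
    exact h3 ((Set.mem_singleton_iff.1 hT).symm.trans (Set.mem_singleton_iff.1 hy))
  · obtain ⟨h1, -⟩ := OpW.NSq.ar O.opk k
    exact absurd ((O.opk.gx.ar_rk _ _ h1).trans (O.opk.gx.ar_rk _ _ h.2.2)) (lt_irrefl _)

end OpK

end Pool.Agent.DI
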