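import Pool.Agent.DI.DscI
import Pool.Agent.DI.Kf
import Pool.Agent.DI.RKn
import Pool.Agent.DI.K1S

/-!
# DI/K1X: the step complex of a state with its system

`C : St`, a placed one-edge system over the total split `C.ow.gx` with R0 (`C.exists_Kf`). `C.kx r : C.K1`:
the step complex; `C.kxM r sg`: the descent; the system `kxM.sys` over it is good (`kx_gd`, `kx_tog`,
`kx_plcd`, `kx_r0`), an opened vertex has one place (`kx_eJ`), the top of a local square is not opened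
(`kx_noE`).
-/

namespace Pool.Agent.DI

open MulAction
open Pool.Agent.SAF (InC SA orbs FinOrb oc Decomp SAn Conv FinOrb_iff exists_next)
open Pool.Agent.BT (PX PQ JS bey exits Ell mst)
open Pool.Agent.BT.TA

namespace St

variable (C : St) {D : Decomp C.H} {J : C.ofs.W → Set D.X} {js : JS (C.ow.p45 C.P).pq D J}
  {hc : (SyQ.mk C.ow.gx (C.ow.p45 C.P) D J js).Conn} {tw : C.ofs.W → C.ofs.W → Prop}
  {Tp : C.ofs.W → Prop} {pt : C.ofs.W → C.ofs.W} {Z : C.ofs.W → Prop}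
  (r : (SyQ.mk C.ow.gx (C.ow.p45 C.P) D J js).RK hc tw Tp pt Z)

/-- a vertex with two labels is opened in the total split -/
theorem kx_dl {y : C.V} (h : (LbJ.opK r C.ow_Tw).Dl y) : ∃ x, C.ow.Dbl x ∧ C.ow.π x = y := by
  obtain ⟨L, L', ⟨x, e1, e2⟩, ⟨x', e1', e2'⟩, hne⟩ := h
  have e1 : C.ow.π x = y := e1
  have e1' : C.ow.π x' = y := e1'
  have e2 : lbl J x = L := e2
  have e2' : lbl J x' = L' := e2'
  refine ⟨x, ⟨x', e1.trans e1'.symm, ?_⟩, e1⟩
  rintro rfl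
  exact hne (e2.symm.trans e2')

/-- THE STEP COMPLEX -/
noncomputable def kx : C.K1 where
  W := (LbJ.opK r C.ow_Tw).W2
  act := inferInstance
  O := (LbJ.opK r C.ow_Tw).opk
  ok := (LbJ.opK r C.ow_Tw).opk_ok
    (fun _ _ _ _ h hd => by
      obtain ⟨L, L', h1, h2, hne⟩ := hd
      exact hne (LbJ.top r C.cls.toSqE h h1 h2))
    (fun y h => by
      obtain ⟨x, hx, e⟩ := C.kx_dl r h
      rw [← e]
      exact C.ow_DF x hx)
    (fun y h a ha => by
      obtain ⟨x, hx, e⟩ := C.kx_dl r h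
      rw [← e] at ha
      exact C.ow_NP x hx a ha)
    C.nb (fun h1 h2 => C.pc h1 h2)

variable {σ : C.V → D.X} (sg : Sig C.ow J σ)

/-- THE DESCENT -/
noncomputable def kxM : Dsc (SyQ.mk C.ow.gx (C.ow.p45 C.P) D J js) (C.kx r).K (C.kx r).P :=
  (LbJ.stp r C.ow_Tw).dsc C.P js C.ow_Tw C.ow_DF sg

/-- the places -/
noncomputable def kxJ (_ : Sig C.ow J σ) : (C.kx r).W → Set D.X := (LbJ.mp r C.ow_Tw).J1 J σ

theorem kxM_J : (C.kxM r sg).J = C.kxJ r sg := rfl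

theorem kx_js : JS (C.kx r).P.pq D (C.kxJ r sg) := (C.kxM r sg).js

theorem kx_sys : (C.kxM r sg).sys = SyQ.mk (C.kx r).K (C.kx r).P D (C.kxJ r sg) (C.kx_js r sg) :=
  rfl

/-- a vertex outside the image is opened -/
theorem kx_nim {v : (C.kx r).W} (h : ¬ ∃ x, (C.kxM r sg).f x = v) : (C.kx r).E v :=
  (LbJ.stp r C.ow_Tw).nIm_dbl h

theorem kx_gd {w : D.X} (s : (SyQ.mk C.ow.gx (C.ow.p45 C.P) D J js).SyP w) :
    (SyQ.mk (C.kx r).K (C.kx r).P D (C.kxJ r sg) (C.kx_js r sg)).GdQ (C.kx r).K.FS :=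
  (C.kxM r sg).gdQ s.gd fun x h1 h2 => by
    refine ⟨h1, ?_⟩
    have h3 : Finite ↥(stabilizer C.H ((C.kxM r sg).f x)) := h2.2
    exact Finite.of_injective (fun g : ↥(stabilizer C.H x) =>
      (⟨g.1, (C.kxM r sg).stab_le x g.2⟩ : ↥(stabilizer C.H ((C.kxM r sg).f x))))
      (fun g g' e => Subtype.ext (congrArg
        (fun t : ↥(stabilizer C.H ((C.kxM r sg).f x)) => t.1) e))

theorem kx_fin {v : (C.kx r).W} (h : (C.kx r).E v) : Finite ↥(stabilizer C.H v) := by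
  have h1 := (C.kx r).ok.df v h
  have h2 : ∀ g : C.H, g • v = v → g • (C.kx r).O.π v = (C.kx r).O.π v := by
    intro g hg
    rw [← (C.kx r).O.π_smul, hg]
  exact Finite.of_injective (fun g : ↥(stabilizer C.H v) =>
    (⟨g.1, h2 g.1 g.2⟩ : ↥(stabilizer C.H ((C.kx r).O.π v))))
    (fun g g' e => Subtype.ext (congrArg
      (fun t : ↥(stabilizer C.H ((C.kx r).O.π v)) => t.1) e))

theorem kx_tog {w : D.X} (s : (SyQ.mk C.ow.gx (C.ow.p45 C.P) D J js).SyP w) (x a : (C.kx r).W)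
    (ha : (C.kx r).K.ar x a)
    (hi : Infinite ↥(stabilizer C.H ((x, a) : (C.kx r).W × (C.kx r).W))) :
    (SyQ.mk (C.kx r).K (C.kx r).P D (C.kxJ r sg) (C.kx_js r sg)).Tog x a :=
  (C.kxM r sg).tog s.tog (fun _ hv => C.kx_fin r (C.kx_nim r sg hv)) x a ha hi

theorem kx_plcd {w : D.X} (s : (SyQ.mk C.ow.gx (C.ow.p45 C.P) D J js).SyP w) :
    (SyQ.mk (C.kx r).K (C.kx r).P D (C.kxJ r sg) (C.kx_js r sg)).Plcd :=
  (C.kxM r sg).plcd s.plcd

theorem kx_r0 : (SyQ.mk (C.kx r).K (C.kx r).P D (C.kxJ r sg) (C.kx_js r sg)).R0 :=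
  (C.kxM r sg).r0 (r.r0 fun h => C.ow_nbt h)

/-- AN OPENED VERTEX HAS ONE PLACE -/
theorem kx_eJ {v : (C.kx r).W} (h : (C.kx r).E v) : ∃ p, C.kxJ r sg v = {p} :=
  (LbJ.stp r C.ow_Tw).one_pt js C.ow_Tw h

/-- THE TOP OF A SQUARE WITH A COMMON POINT OF THE TOPS IS NOT OPENED -/
theorem kx_noE {T a b y : (C.kx r).W} (h : (C.kx r).P.Top T a b y) {p : D.X}
    (hT : p ∈ C.kxJ r sg T) (hy : p ∈ C.kxJ r sg y) : ¬ (C.kx r).E T := by
  intro hd
  rcases (C.kx r).O.Top_π C.P h with k | k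
  · exact (C.kx r).ok.nt.top k hd
  · obtain ⟨q, q', h1, h2, h3⟩ := (LbJ.stp r C.ow_Tw).nsq_ne js C.ow_Tw sg k
    have h1 : C.kxJ r sg T = {q} := h1
    have h2 : C.kxJ r sg y = {q'} := h2
    rw [h1] at hT
    rw [h2] at hy
    exact h3 ((Set.mem_singleton_iff.1 hT).symm.trans (Set.mem_singleton_iff.1 hy))

include r in
/-- the places of the bare vertices exist -/
theorem kx_sig : ∃ σ : C.V → D.X, Sig C.ow J σ := by
  obtain ⟨σ, h1, h2⟩ := exists_mid r C.ow_Tw C.ow_DF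
  exact ⟨σ, h1, h2⟩

end St

end Pool.Agent.DI
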