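import Pool.Agent.DI.OpnK2

/-!
# DI/OpnK3: the tops of a new square are not in one orbit

`OpK.opk_eb`: if both tops of a new square of `O.opk` are not bare then no element of `H` maps one to the
other (the field `eb` of `SyQ.Psv`).
-/

namespace Pool.Agent.DI

open MulAction

namespace OpK

variable {H V X : Type} [Group H] [MulAction H V] [MulAction H X] {K : GX H V} (O : OpK K X)

/-- the tops of a new square which are not bare are not in one orbit -/
theorem nsq_eb {P : P45 K} {a q b z : O.W2} (h : O.opk.NSq a q b z)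
    (hq : ¬ (O.opk.p45 P).Bare q) (hz : ¬ (O.opk.p45 P).Bare z) (g : H) : g • q ≠ z := by
  rcases O.nsq_cases h with ⟨y, x, x', hx, hx', hE, hne, rfl, rfl⟩ |
    ⟨y, x, hx, hE, ⟨rfl, rfl⟩ | ⟨rfl, rfl⟩⟩
  · intro e
    rw [smul_pt, pt_inj] at e
    exact hE ⟨g, x, x', congrArg Prod.fst e, hx, hx', hne, congrArg Prod.snd e⟩
  · exact absurd (O.br_bare P hE) hz
  · exact absurd (O.br_bare P hE) hq

/-- THE FIELD `eb` -/
theorem opk_eb {P : P45 K} (nt : ∀ T a b y, P.Top T a b y → ¬ O.Dl T) {T a b z : O.W2}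
    (h : (O.opk.p45 P).Top T a b z) (hd : O.opk.Dbl T) (hT : ¬ (O.opk.p45 P).Bare T)
    (hz : ¬ (O.opk.p45 P).Bare z) (g : H) : g • T ≠ z := by
  rcases O.opk.Top_π P h with k | k
  · exact absurd (O.opk_dbl.1 hd) (nt _ _ _ _ k)
  · exact O.nsq_eb k hT hz g

end OpK

end Pool.Agent.DI
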