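import Pool.Agent.DI.SysP
import Pool.Agent.DI.QKMin
import Pool.Agent.DI.Bare

/-!
# DI/PlcAlt: all midpoints at a bad vertex

`Plc.smul`: the placement over a midpoint is equivariant. `Plc.exists_mv`: the midpoints at `w` form one
orbit. `S.Alt w B`: one orbit of vertices, or a placed inverted edge with `B` for the vertices over the
midpoint. `Alt.inv1`, `Alt.mid`, `Alt.bo`: the fields of a step.
-/

namespace Pool.Agent.DI

open MulAction
open Pool.Agent.SAF (InC SA orbs FinOrb oc Decomp SAn Conv exists_next)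
open Pool.Agent.BT (PX PQ JS bey exits Ell mst)

namespace SyQ

variable {H V : Type} [Group H] [MulAction H V] {S : SyQ H V}

theorem plc_mem {g : H} {v : V} {p : S.X} (h : g • p ∈ S.J v) : p ∈ S.J (g⁻¹ • v) := by
  have := S.js.smul g⁻¹ _ _ h
  rwa [inv_smul_smul] at this

theorem plc_mem' {g : H} {v : V} {p : S.X} (h : p ∈ S.J (g⁻¹ • v)) : g • p ∈ S.J v := by
  have := S.js.smul g _ _ h
  rwa [smul_inv_smul] at this

theorem plc_pt {g : H} {v : V} {p : S.X} (h : S.J v = {g • p}) : S.J (g⁻¹ • v) = {p} := by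
  ext q
  constructor
  · intro hq
    have k := plc_mem' hq
    rw [h] at k
    exact smul_left_cancel g k
  · rintro rfl
    exact plc_mem (by rw [h]; rfl)

/-- the placement over a midpoint is equivariant -/
theorem Plc.smul {w u w' : S.X} (p : S.Plc w u w') (g : H) : S.Plc (g • w) (g • u) (g • w') where
  mp :=
    { mid :=
        { hw := S.D.adj_smul g _ _ p.mp.mid.hw
          hw' := S.D.adj_smul g _ _ p.mp.mid.hw'
          ne := fun e => p.mp.mid.ne (smul_left_cancel g e)
          val := by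
            intro z hz
            have h1 := S.D.adj_smul g⁻¹ _ _ hz
            rw [inv_smul_smul] at h1
            rcases p.mp.mid.val _ h1 with h | h
            · left
              rw [← h, smul_inv_smul]
            · right
              rw [← h, smul_inv_smul] }
      ec := p.mp.ec
      nbt := p.mp.nbt
      pc := p.mp.pc
      nc := by
        intro a q b y z hq hc
        refine p.mp.nc (hq.smul g⁻¹) ?_
        intro i
        have h0 := hc 0
        have h1 := hc 1
        have h2 := hc 2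
        have h3 := hc 3
        have h4 := hc 4
        fin_cases i
        · exact h0.imp plc_mem plc_mem
        · exact h1.imp plc_mem plc_mem
        · exact h2.imp plc_mem plc_mem
        · exact h3.imp plc_mem plc_mem
        · exact h4.imp plc_mem plc_mem
      nsq := fun hq ha hq' hb hy => p.mp.nsq (hq.smul g⁻¹) (plc_mem ha) (plc_mem hq')
        (plc_mem hb) (plc_mem hy)
      snk := by
        intro z hz hu
        obtain ⟨h1, h2⟩ := p.mp.snk (g⁻¹ • z) (fun a ha => hz (g • a) (by
          have := S.K.ar_smul g _ _ ha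
          rwa [smul_inv_smul] at this)) (plc_mem hu)
        exact ⟨plc_mem' h1, plc_mem' h2⟩ }
  one x y h := by
    obtain ⟨k, e⟩ := p.one x y h
    refine ⟨k * g⁻¹, ?_⟩
    rw [mul_smul, mul_smul, inv_smul_smul, inv_smul_smul]
    exact e
  ne h e := by
    refine p.ne (g⁻¹ * h * g) ?_
    rw [mul_smul, mul_smul, e, inv_smul_smul]
  rev v hv := by
    obtain ⟨h, h1, h2⟩ := p.rev (g⁻¹ • v) (plc_pt hv)
    refine ⟨g * h * g⁻¹, ?_, ?_⟩
    · rw [mul_smul, mul_smul, h1, smul_inv_smul]
    · rw [mul_smul, mul_smul, inv_smul_smul, h2]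

/-- the midpoints at `w` form one orbit -/
theorem Plc.exists_mv {w u w' u' : S.X} (p : S.Plc w u w') (i : S.Inv1 w u') :
    ∃ g : H, g • w = w ∧ g • u = u' := by
  obtain ⟨g, ⟨h1, h2⟩ | ⟨h1, h2⟩⟩ := p.one w u' i.adj
  · exact ⟨g, h1, h2⟩
  · exact absurd h1 (i.ne g)

variable (S) in
/-- ONE ORBIT OF VERTICES, OR A PLACED INVERTED EDGE -/
def Alt (w : S.X) (B : V → Prop) : Prop :=
  (∀ x y : S.X, ∃ h : H, h • x = y) ∨ ∃ (u w' : S.X) (b : H), S.Plc w u w' ∧
    InC ↥(stabilizer H u) ∧ b • u = u ∧ b • w = w' ∧ ∀ v, S.J v = {u} → B v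

namespace Alt

variable {w : S.X} {B : V → Prop} (h : S.Alt w B)

include h

theorem inv1 : (∀ x y : S.X, ∃ h : H, h • x = y) ∨ ∃ u, S.Inv1 w u := by
  rcases h with h | ⟨u, w', b, h1, h2, h3, h4, -⟩
  · exact Or.inl h
  · exact Or.inr ⟨u, h1.inv1 h2 h3 h4⟩

theorem mid (u : S.X) (i : S.Inv1 w u) : ∃ w', S.Plc w u w' := by
  rcases h with h | ⟨u0, w', b, h1, -, -, -, -⟩
  · obtain ⟨g, hg⟩ := h w u
    exact absurd hg (i.ne g)
  · obtain ⟨g, g1, g2⟩ := h1.exists_mv i
    refine ⟨g • w', ?_⟩
    have := h1.smul g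
    rwa [g1, g2] at this

theorem bo (hB : ∀ (g : H) v, B v → B (g • v)) (u : S.X) (i : S.Inv1 w u) (v : V)
    (hv : S.J v = {u}) : B v := by
  rcases h with h | ⟨u0, w', b, h1, -, -, -, h5⟩
  · obtain ⟨g, hg⟩ := h w u
    exact absurd hg (i.ne g)
  · obtain ⟨g, g1, g2⟩ := h1.exists_mv i
    subst g2
    have := hB g _ (h5 _ (plc_pt hv))
    rwa [smul_inv_smul] at this

end Alt

/-- the placed systems of DI/SysP -/
theorem SyP.alt' {w : S.X} (s : S.SyP w) : S.Alt w (fun _ => False) := by
  rcases s.alt with h | ⟨u, w', b, h1, h2, h3, h4, h5⟩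
  · exact Or.inl h
  · exact Or.inr ⟨u, w', b, h1, h2, h3, h4, h5⟩

end SyQ

end Pool.Agent.DI
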