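import Pool.Agent.DI.K1X
import Pool.Agent.DI.DscR
import Pool.Agent.DI.PlcAlt
import Pool.Agent.DI.OpnK3

/-!
# DI/K1Y: the midpoint for the system on the step complex

`kx_alt`: one orbit of vertices, or a placed inverted edge with nothing but bare vertices over the
midpoint. `kx_inv1`, `kx_mid`, `kx_bo`: the fields of a step. `kx_two`, `kx_inj`: the opened vertices which
are not bare (for `phi_0`).
-/

namespace Pool.Agent.DI

open MulAction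
open Pool.Agent.SAF (InC SA orbs FinOrb oc Decomp SAn Conv FinOrb_iff exists_next)
open Pool.Agent.BT (PX PQ JS bey exits Ell mst)
open Pool.Agent.BT.TA

namespace St

variable (C : St) {D : Decomp C.H} {J : C.ofs.W → Set D.X} {js : JS (C.ow.p45 C.P).pq D J}
  {hc : (SyQ.mk C.ow.gx (C.ow.p45 C.P) D J js).Conn} {tw : C.ofs.W → C.ofs.W → Prop}
  {Tp : C.ofs.W → Prop} {pt : C.ofs.W → C.ofs.W} {Z : C.ofs.W → Prop}
  (r : (SyQ.mk C.ow.gx (C.ow.p45 C.P) D J js).RK hc tw Tp pt Z)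
  {σ : C.V → D.X} (sg : Sig C.ow J σ)

/-- the vertices outside the image -/
def kxB (v : (C.kx r).W) : Prop := ¬ (LbJ.mp r C.ow_Tw).Im v

theorem kxB_bare {v : (C.kx r).W} (h : C.kxB r v) : (C.kx r).P.Bare v := OpMap.nIm_bare h

theorem kxB_smul (g : C.H) {v : (C.kx r).W} (h : C.kxB r v) : C.kxB r (g • v) :=
  fun k => h ((OpMap.Im.smul_iff g).1 k)

theorem kx_bare_iff {v : (C.kx r).W} (h : (C.kx r).E v) : (C.kx r).P.Bare v ↔ C.kxB r v :=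
  (LbJ.stp r C.ow_Tw).bare_iff C.ow_hz h

/-- THE PLACEMENT OVER THE MIDPOINT on the step complex -/
theorem kx_plc {w u w' : D.X} (h : (SyQ.mk C.ow.gx (C.ow.p45 C.P) D J js).Plc w u w')
    (hvoid : ∀ x, J x ≠ {u}) :
    (SyQ.mk (C.kx r).K (C.kx r).P D (C.kxJ r sg) (C.kx_js r sg)).Plc w u w' :=
  (LbJ.stp r C.ow_Tw).plc r C.cls.toSqE C.ow_Tw C.ow_DF sg C.lc C.bad C.nb
    (fun h1 h2 => C.pc h1 h2) h hvoid

theorem kx_alt {w : D.X} (s : (SyQ.mk C.ow.gx (C.ow.p45 C.P) D J js).SyP w) :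
    (SyQ.mk (C.kx r).K (C.kx r).P D (C.kxJ r sg) (C.kx_js r sg)).Alt w (C.kxB r) := by
  rcases s.alt with h | ⟨u, w', b, h1, h2, h3, h4, h5⟩
  · exact Or.inl h
  · refine Or.inr ⟨u, w', b, ?_, h2, h3, h4, ?_⟩
    · exact C.kx_plc r sg h1 h5
    · exact fun v hv => (C.kxM r sg).bare_of_u h5 hv

theorem kx_inv1 {w : D.X} (s : (SyQ.mk C.ow.gx (C.ow.p45 C.P) D J js).SyP w) :
    (∀ x y : D.X, ∃ h : C.H, h • x = y) ∨
      ∃ u, (SyQ.mk (C.kx r).K (C.kx r).P D (C.kxJ r sg) (C.kx_js r sg)).Inv1 w u :=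
  (C.kx_alt r sg s).inv1

theorem kx_mid {w : D.X} (s : (SyQ.mk C.ow.gx (C.ow.p45 C.P) D J js).SyP w) (u : D.X)
    (i : (SyQ.mk (C.kx r).K (C.kx r).P D (C.kxJ r sg) (C.kx_js r sg)).Inv1 w u) :
    ∃ w', (SyQ.mk (C.kx r).K (C.kx r).P D (C.kxJ r sg) (C.kx_js r sg)).Plc w u w' :=
  (C.kx_alt r sg s).mid u i

theorem kx_bo {w : D.X} (s : (SyQ.mk C.ow.gx (C.ow.p45 C.P) D J js).SyP w) (u : D.X)
    (i : (SyQ.mk (C.kx r).K (C.kx r).P D (C.kxJ r sg) (C.kx_js r sg)).Inv1 w u)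
    (v : (C.kx r).W) (hv : C.kxJ r sg v = {u}) :
    (C.kx r).P.Bare v ∧ ∃ a b y, (C.kx r).P.Top v a b y := by
  have h := C.kxB_bare r ((C.kx_alt r sg s).bo (fun g v h => C.kxB_smul r g h) u i v hv)
  exact ⟨h, (C.kx r).bt h⟩

/-- the opened vertices have one place -/
theorem kx_eJ' {w : D.X} (v : (C.kx r).W) (h : (C.kx r).E v) (hw : w ∈ C.kxJ r sg v) (p : D.X)
    (hp : p ∈ C.kxJ r sg v) : p = w := by
  obtain ⟨q, hq⟩ := C.kx_eJ r sg h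
  rw [hq] at hw hp
  exact (Set.mem_singleton_iff.1 hp).trans (Set.mem_singleton_iff.1 hw).symm

theorem kx_noE' {w : D.X} (T a b y : (C.kx r).W) (h : (C.kx r).P.Top T a b y)
    (hl : (SyQ.mk (C.kx r).K (C.kx r).P D (C.kxJ r sg) (C.kx_js r sg)).Loc w T a b y) :
    ¬ (C.kx r).E T := by
  obtain ⟨h1, -, -, h4⟩ := hl
  exact C.kx_noE r sg h h1 h4

/-- the tops of a square over an opened vertex are not in one orbit -/
theorem kx_eb (T a b y : (C.kx r).W) (h : (C.kx r).P.Top T a b y) (hE : (C.kx r).E T)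
    (hT : ¬ (C.kx r).P.Bare T) (hy : ¬ (C.kx r).P.Bare y) (g : C.H) : g • T ≠ y :=
  (LbJ.opK r C.ow_Tw).opk_eb (P := C.P) (fun _ _ _ _ h hd => by
    obtain ⟨L, L', h1, h2, hne⟩ := hd
    exact hne (LbJ.top r C.cls.toSqE h h1 h2)) h hE hT hy g

/-! ### the opened vertices which are not bare -/

theorem kx_two (x : (C.kx r).W) (h : (C.kx r).O.Dbl x) : ∃ x1 x2, (C.kx r).O.π x1 = (C.kx r).O.π x ∧
    (C.kx r).O.π x2 = (C.kx r).O.π x ∧ x1 ≠ x2 ∧ ¬ (C.kx r).P.Bare x1 ∧ ¬ (C.kx r).P.Bare x2 :=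
  (LbJ.stp r C.ow_Tw).two_parts C.ow_hz h

theorem kx_inj (x y : (C.kx r).W) (e : (C.kx r).O.π x = (C.kx r).O.π y)
    (hx : ¬ (C.kx r).P.Bare x) (hy : ¬ (C.kx r).P.Bare y)
    (hJ : C.kxJ r sg x = C.kxJ r sg y) : x = y :=
  (LbJ.stp r C.ow_Tw).inj_parts (σ := σ) e hx hy hJ

end St

end Pool.Agent.DI
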