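import Pool.Agent.DI.Ph1
import Pool.Agent.BT.Proj

/-!
# Thin direct arrows: the static part

`S.PTS a`: no local piece of `a` is one-sided. `S.Au y a b d`: the arrow `y → a` is direct and passed by
one orbit of flags; `b`, `d` are the neighbours of `a`, `y` in the cell. `Au.stay`: the corner `y, a, b`
does not cross. `Au.noN`: if `a` is beyond `u`, no in-arrow of `y` is over a point beyond `u`.
`S.Av w O y a b d`: the arrow at a level `w`; `Av.zs`: the zero squares at `y`.
-/

namespace Pool.Agent.DI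

open MulAction
open Pool.Agent.SAF (InC orbs FinOrb oc Decomp SAn SA Conv hull dist_edge FinOrb_iff exists_next)
open Pool.Agent.BT (PX PQ JS bey exits x_next_unique dist_cross)
open Pool.Agent.BT.TA

/-! ### trees -/

section Tree

variable {X : Type} {G : SimpleGraph X}

/-- the next vertex on the way from `p` to `q` -/
theorem ph_next (hG : G.IsTree) {p q : X} (h : p ≠ q) : ∃ t, G.Adj p t ∧ q ∈ bey G p t := by
  obtain ⟨t, h1, h2⟩ := exists_next hG h
  refine ⟨t, h1, ?_⟩
  show G.dist q p = G.dist q t + 1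
  rw [SimpleGraph.dist_comm, h2, SimpleGraph.dist_comm]

theorem ph_irr {w w' : X} : w ∉ bey G w w' := by
  intro h
  change G.dist w w = G.dist w w' + 1 at h
  rw [SimpleGraph.dist_self] at h
  omega

/-- the far side of an edge is convex -/
theorem ph_conv (hG : G.IsTree) {w w' : X} (h : G.Adj w w') : Conv G (bey G w w') := by
  intro a ha b hb u hu
  rcases bey_or hG h u with k | k
  · exact k
  · exfalso
    have h1 := dist_cross hG h k ha
    have h2 := dist_cross hG h k hb
    have e1 : G.dist a w = G.dist a w' + 1 := ha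
    have e2 : G.dist b w = G.dist b w' + 1 := hb
    have t := hG.connected.dist_triangle (u := a) (v := w') (w := b)
    have c1 : G.dist w' b = G.dist b w' := SimpleGraph.dist_comm
    have c2 : G.dist w' a = G.dist a w' := SimpleGraph.dist_comm
    have c3 : G.dist a u = G.dist u a := SimpleGraph.dist_comm
    omega

/-- an edge which crosses an edge is this edge -/
theorem ph_cross (hG : G.IsTree) {y y' p z : X} (h : G.Adj y y') (hp : p ∈ bey G y y')
    (hz : z ∈ bey G y' y) (hpz : G.Adj p z) : z = y := by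
  have h1 := dist_cross hG h hz hp
  have e1 : G.dist p y = G.dist p y' + 1 := hp
  have e2 : G.dist z p = 1 := SimpleGraph.dist_eq_one_iff_adj.2 hpz.symm
  have e3 : G.dist z y = 0 := by omega
  exact (hG.connected.dist_eq_zero_iff).1 e3

/-- points behind `w` are on the side of `w` of every edge beyond `w u` -/
theorem ph_side (hG : G.IsTree) {w u p e z : X} (hu : G.Adj w u) (hp : p ∈ bey G w u)
    (he : G.Adj p e) (hw : w ∈ bey G p e) (hz : z ∈ bey G u w) : z ∈ bey G p e := by
  rcases bey_or hG he z with h | h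
  · exact h
  · exfalso
    have h1 := (conv_cr hG (ph_conv hG he.symm) hu h (bey_self he.symm) hz hp).1
    exact bey_not hw h1

/-- the same for the edge in the other direction -/
theorem ph_side' (hG : G.IsTree) {w u p d z : X} (hu : G.Adj w u) (hp : p ∈ bey G w u)
    (hd : G.Adj p d) (hw : w ∈ bey G d p) (hz : z ∈ bey G u w) : z ∈ bey G d p := by
  rcases bey_or hG hd.symm z with h | h
  · exact h
  · exfalso
    -- `d` is beyond `u`
    have hd' : d ∈ bey G w u := by
      rcases bey_or hG hu d with k | k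
      · exact k
      · exfalso
        have e := ph_cross hG hu hp k hd
        subst e
        exact ph_irr hw
    have h1 := (conv_cr hG (ph_conv hG hd) hu h (bey_self hd) hz hd').1
    exact bey_not hw h1

end Tree

/-! ### subtrees -/

namespace SyQ

variable {H V : Type} [Group H] [MulAction H V] {S : SyQ H V}

theorem ph_nbr {x : V} {p q : S.X} (hp : p ∈ S.J x) (hq : q ∈ S.J x) (h : p ≠ q) :
    ∃ t, S.D.G.Adj p t ∧ t ∈ S.J x ∧ q ∈ bey S.D.G p t := by
  obtain ⟨t, h1, h2⟩ := ph_next S.D.tree h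
  exact ⟨t, h1, (conv_cr S.D.tree (S.js.conv x) h1 hp hq (bey_self h1.symm) h2).2, h2⟩

/-- at most two directions -/
theorem ph_two {p : S.X} {x : V} (hx : p ∈ S.J x) {a b c : S.X} (ha : S.D.G.Adj p a)
    (ha' : a ∈ S.J x) (hb : S.D.G.Adj p b) (hb' : b ∈ S.J x) (hc : S.D.G.Adj p c)
    (hc' : c ∈ S.J x) : a = b ∨ b = c ∨ a = c := by
  rcases S.js.two x p hx (Sum.inr a) (Or.inr ⟨a, rfl, ha, ha'⟩) (Sum.inr b)
    (Or.inr ⟨b, rfl, hb, hb'⟩) (Sum.inr c) (Or.inr ⟨c, rfl, hc, hc'⟩) with h | h | h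
  · exact Or.inl (Sum.inr.inj h)
  · exact Or.inr (Or.inr (Sum.inr.inj h))
  · exact Or.inr (Or.inl (Sum.inr.inj h))

/-- elements which fix `y` and its pole `a` fix `J y` -/
theorem ph_fix {y a : V} (e : S.K.ar y a) {g : H} (gy : g • y = y) (ga : g • a = a) :
    ∀ q ∈ S.J y, g • q = q := by
  obtain ⟨p, p0, p1⟩ := S.one_ex (Or.inl e)
  have gp : g • p = p := by
    have h0 := S.js.smul g y p p0
    rw [gy] at h0
    have h1 := S.js.smul g a p p1
    rw [ga] at h1
    exact S.one_eq (Or.inl e) h0 h1 p0 p1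
  have key : ∀ n, ∀ q ∈ S.J y, S.D.G.dist p q = n → g • q = q := by
    intro n
    induction n using Nat.strong_induction_on with
    | _ n ih =>
      intro q hq hn
      by_cases hpq : q = p
      · rw [hpq]
        exact gp
      · obtain ⟨q1, h1, h2, h3⟩ := ph_nbr hq p0 hpq
        have h3' : S.D.G.dist p q = S.D.G.dist p q1 + 1 := h3
        have g1 : g • q1 = q1 := ih _ (by omega) q1 h2 rfl
        have hgq : g • q ∈ S.J y := by
          have := S.js.smul g y q hq
          rwa [gy] at this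
        have hadj : S.D.G.Adj q1 (g • q) := by
          have := S.D.adj_smul g _ _ h1.symm
          rwa [g1] at this
        by_cases hq1 : q1 = p
        · rw [hq1] at h1 hadj
          exact ar_cs_eq p0 e p1 hadj h1.symm hgq hq
        · obtain ⟨q0, k1, k2, k3⟩ := ph_nbr h2 p0 hq1
          have k3' : S.D.G.dist p q1 = S.D.G.dist p q0 + 1 := k3
          have g0 : g • q0 = q0 := ih _ (by omega) q0 k2 rfl
          have hne : q ≠ q0 := by
            intro e
            rw [e] at h3'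
            omega
          rcases ph_two h2 h1.symm hq hadj hgq k1 k2 with h | h | h
          · exact h.symm
          · exfalso
            have : g • q = g • q0 := by rw [h, g0]
            exact hne (smul_left_cancel g this)
          · exact absurd h hne
  exact fun q hq => key _ q hq rfl

/-- `J x` is a path which ends at the place of a pole -/
theorem ph_end {x a : V} (e : S.K.ar x a) {r : S.X} (h0 : r ∈ S.J x) (h1 : r ∈ S.J a) :
    ∀ n, ∀ p q d : S.X, p ∈ S.J x → q ∈ S.J x → S.D.G.Adj p d → r ∈ bey S.D.G p d →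
      q ∈ bey S.D.G p d → S.D.G.dist r p = n → S.D.G.dist r q < n := by
  intro n
  induction n with
  | zero =>
    intro p q d hp hq hd hr _ hn
    have : S.D.G.dist r p = S.D.G.dist r d + 1 := hr
    omega
  | succ n ih =>
    intro p q d hp hq hd hr hqd hn
    have hr' : S.D.G.dist r p = S.D.G.dist r d + 1 := hr
    by_cases hqr : q = r
    · rw [hqr, SimpleGraph.dist_self]
      omega
    · have hdx : d ∈ S.J x := (conv_cr S.D.tree (S.js.conv x) hd hp h0 (bey_self hd.symm) hr).2
      by_cases hdr : d = r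
      · exfalso
        obtain ⟨t, t1, t2, t3⟩ := ph_nbr h0 hq (fun e => hqr e.symm)
        subst hdr
        have : p = t := ar_cs_eq h0 e h1 hd.symm t1 hp t2
        subst this
        exact bey_not hqd t3
      · by_cases hqd' : q = d
        · rw [hqd']
          omega
        · obtain ⟨t, t1, t2, t3⟩ := ph_nbr hdx hq (fun e => hqd' e.symm)
          obtain ⟨s, s1, s2, s3⟩ := ph_nbr hdx h0 hdr
          rcases ph_two hdx hd.symm hp t1 t2 s1 s2 with k | k | k
          · subst k
            exact absurd t3 (fun h => bey_not h hqd)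
          · subst k
            have := ih d q t hdx hq s1 s3 t3 (by omega)
            omega
          · subst k
            exact absurd s3 (fun h => bey_not h hr)

/-! ### corners -/

/-- a corner is a corner of a pentagon or of a square -/
theorem _root_.Pool.Agent.DI.P45.cor_cases {K : GX H V} {P : P45 K} {x v y : V} (h : K.Cor x v y) :
    (∃ b c, Qn P x v y b c) ∨ ∃ b, Q4 P x v y b := by
  obtain ⟨e, he⟩ := K.cor_LE.1 h
  rcases P.l_cases e with ⟨i, hi, j, g, rfl⟩ | ⟨i, hi, j, g, rfl⟩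
  · rw [P.c0_5, P.c1_5, P.c2_5] at he
    have hq := Qn_pt (P := P) g hi j
    left
    rcases he with ⟨rfl, rfl, rfl⟩ | ⟨rfl, rfl, rfl⟩
    · exact ⟨_, _, hq⟩
    · exact ⟨_, _, hq.symm⟩
  · rw [P.c0_4, P.c1_4, P.c2_4] at he
    have hq := Q4_qt (P := P) g hi j
    right
    rcases he with ⟨rfl, rfl, rfl⟩ | ⟨rfl, rfl, rfl⟩
    · exact ⟨_, hq⟩
    · exact ⟨_, hq.symm⟩

variable (S)

/-- the local pieces of `a` over `p` -/
def PLP (a : V) (p : S.X) (n n' : V) : Prop :=
  Relation.EqvGen (fun x x' => S.K.Cor x a x' ∧ p ∈ S.J x ∧ p ∈ S.J x') n n'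

/-- no local piece of `a` is one-sided -/
def PTS (a : V) : Prop := ∀ (p : S.X) (n : V), S.K.ar n a → p ∈ S.J a → p ∈ S.J n →
  (∀ d, S.D.G.Adj p d → d ∈ S.J a →
    ∃ n' m, S.PLP a p n n' ∧ S.K.Cor n' a m ∧ S.J m ⊆ bey S.D.G p d) ∧
  ∀ b, S.K.ar a b → p ∈ S.J b → ∃ n', S.PLP a p n n' ∧ S.K.Cor n' a b

/-- all vertices which cross an edge -/
def PTSA : Prop := ∀ a w u, S.D.G.Adj w u → S.Cs w u a → S.PTS a

/-- no broken sink is reversed -/
def PD0 : Prop := ∀ a, (∀ b, ¬ S.K.ar a b) → ∀ p ∈ S.J a, ∀ g : H, g • a = a → g • p = p →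
  ∀ e, S.D.G.Adj p e → e ∈ S.J a → g • e = e

/-- the subtree of a sink is a point or a line -/
def PLine : Prop := ∀ a, (∀ b, ¬ S.K.ar a b) → ∀ p e, S.D.G.Adj p e → p ∈ S.J a → e ∈ S.J a →
  ∃ d, S.D.G.Adj p d ∧ d ∈ S.J a ∧ d ≠ e

variable {S}

theorem PLP.mem {a : V} {p : S.X} {n n' : V} (h : S.PLP a p n n') (hn : p ∈ S.J n) : p ∈ S.J n' := by
  have key : ∀ n n', S.PLP a p n n' → (p ∈ S.J n ↔ p ∈ S.J n') := by
    intro n n' h
    induction h with
    | rel x y h => exact ⟨fun _ => h.2.2, fun _ => h.2.1⟩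
    | refl x => exact Iff.rfl
    | symm x y _ ih => exact ih.symm
    | trans x y z _ _ i1 i2 => exact i1.trans i2
  exact (key _ _ h).1 hn

/-- the local piece of a node without local corners -/
theorem PLP.single {a : V} {p : S.X} {y n' : V} (hy : ∀ m, S.K.Cor y a m → p ∉ S.J m)
    (h : S.PLP a p y n') : n' = y := by
  have key : ∀ n n', S.PLP a p n n' → (n = y ↔ n' = y) := by
    intro n n' h
    induction h with
    | rel x x' h =>
      obtain ⟨h1, h2, h3⟩ := h
      constructor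
      · intro e
        rw [e] at h1
        exact absurd h3 (hy _ h1)
      · intro e
        rw [e] at h1
        exact absurd h2 (hy _ h1.symm)
    | refl x => exact Iff.rfl
    | symm x y _ ih => exact ih.symm
    | trans x y z _ _ i1 i2 => exact i1.trans i2
  exact (key _ _ h).1 rfl

variable (S)

/-- the arrow `y → a` is direct and passed by one orbit of flags; `b`, `d` are the neighbours of `a`,
`y` in the cell -/
structure Au (y a b d : V) : Prop where
  ar : S.K.ar y a
  Eab : S.K.E a b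
  Edy : S.K.E d y
  cor_y : ∀ m, S.K.Cor m y a → ∃ g : H, g • y = y ∧ g • a = a ∧ g • d = m
  cor_a : ∀ m, S.K.Cor y a m → ∃ g : H, g • y = y ∧ g • a = a ∧ g • b = m
  dr : Dr S.K y a

variable {S}

namespace Au

variable {y a b d : V} (A : S.Au y a b d)

include A

/-- THE CORNER `y, a, b` DOES NOT CROSS -/
theorem stay (ts : S.PTSA) (d0 : S.PD0) (ln : S.PLine) {p e : S.X} (p0 : p ∈ S.J y)
    (p1 : p ∈ S.J a) (e1 : S.D.G.Adj p e) (e2 : e ∈ S.J a) (hb : S.J b ⊆ bey S.D.G p e) : False := by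
  -- the corners at `a` which contain `y`
  have hcor : ∀ m, S.K.Cor y a m → ∃ g : H, g • y = y ∧ g • a = a ∧ g • p = p ∧
      S.J m ⊆ bey S.D.G p (g • e) := by
    intro m hm
    obtain ⟨g, g1, g2, g3⟩ := A.cor_a _ hm
    have gp := ph_fix A.ar g1 g2 p p0
    refine ⟨g, g1, g2, gp, ?_⟩
    have := S.sub_bey_smul g hb
    rwa [g3, gp] at this
  have hsingle : ∀ m, S.K.Cor y a m → p ∉ S.J m := by
    intro m hm hpm
    obtain ⟨g, -, -, -, h4⟩ := hcor m hm
    exact ph_irr (h4 hpm)
  have tsa := (ts a p e e1 ⟨p1, e2⟩) p y A.ar p1 p0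
  -- a direction away from `e`
  have away : ∀ f, S.D.G.Adj p f → f ∈ S.J a → f ≠ e → ∃ g : H, g • y = y ∧ g • a = a ∧
      g • p = p ∧ g • e ≠ e := by
    intro f f1 f2 f3
    obtain ⟨n', m, h1, h2, h3⟩ := tsa.1 f f1 f2
    rw [PLP.single hsingle h1] at h2
    obtain ⟨g, g1, g2, g3, g4⟩ := hcor m h2
    refine ⟨g, g1, g2, g3, ?_⟩
    intro k
    rw [k] at g4
    obtain ⟨z, hz⟩ := S.js.ne m
    exact f3 (S.bey_unique f1 e1 (h3 hz) (g4 hz))
  by_cases hs : ∃ a1, S.K.ar a a1
  · obtain ⟨b1, k1, k2⟩ := S.js.cross a hs e p e1.symm e2 p1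
    obtain ⟨p2, p3, p4⟩ := S.one_ex (Or.inl k1)
    have hp2 : p2 ∈ bey S.D.G e p := k2 p4
    have : ∃ g : H, g • y = y ∧ g • a = a ∧ g • p = p ∧ g • e ≠ e := by
      by_cases hpp : p = p2
      · exfalso
        subst hpp
        obtain ⟨n', h1, h2⟩ := tsa.2 b1 k1 p4
        rw [PLP.single hsingle h1] at h2
        exact hsingle b1 h2 p4
      · obtain ⟨f, f1, f2, f3⟩ := ph_nbr p1 p3 hpp
        refine away f f1 f2 ?_
        rintro rfl
        exact bey_not f3 hp2
    obtain ⟨g, g1, g2, g3, g4⟩ := this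
    obtain ⟨b2, l1, l2⟩ := S.js.cross a hs p e e1 p1 e2
    have e5 := A.dr g g1 g2 b2 l1
    have l3 := S.sub_bey_smul g l2
    rw [e5, g3] at l3
    obtain ⟨z, hz⟩ := S.js.ne b2
    have e1' : S.D.G.Adj p (g • e) := by
      have := S.D.adj_smul g _ _ e1
      rwa [g3] at this
    exact g4 (S.bey_unique e1' e1 (l3 hz) (l2 hz))
  · push Not at hs
    obtain ⟨f, f1, f2, f3⟩ := ln a hs p e e1 p1 e2
    obtain ⟨g, g1, g2, g3, g4⟩ := away f f1 f2 f3
    exact g4 (d0 a hs p p1 g g2 g3 e e1 e2)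

/-- `b` is over the place of `y → a` -/
theorem over_b (ts : S.PTSA) (d0 : S.PD0) (ln : S.PLine) {p : S.X} (p0 : p ∈ S.J y)
    (p1 : p ∈ S.J a) : p ∈ S.J b := by
  by_contra h
  exact A.stay ts d0 ln p0 p1 (S.dir_adj h) (S.dir_cross A.Eab p1 h) (S.dir_bey h)

/-- a pole of `y` on the side of `a` is `a` -/
theorem pole_eq {w u : S.X} (hu : S.D.G.Adj w u) (cu : S.Cs w u y) (ha : S.J a ⊆ bey S.D.G w u)
    {m : V} (hm : S.K.ar y m) (hm' : S.J m ⊆ bey S.D.G w u) : m = a := by
  obtain ⟨b1, h1, h2⟩ := S.js.cross y ⟨a, A.ar⟩ u w hu.symm cu.2 cu.1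
  have n1 : a ≠ b1 := by
    rintro rfl
    obtain ⟨p, hp⟩ := S.js.ne a
    exact bey_not (ha hp) (h2 hp)
  have n2 : m ≠ b1 := by
    rintro rfl
    obtain ⟨p, hp⟩ := S.js.ne m
    exact bey_not (hm' hp) (h2 hp)
  rcases S.K.two y m a b1 hm A.ar h1 with e | e | e
  · exact e
  · exact absurd e n1
  · exact absurd e n2

/-- N: if `a` is beyond `u`, no in-arrow of `y` is over a point beyond `u` -/
theorem noN (ts : S.PTS y) {w u : S.X} (hu : S.D.G.Adj w u) (cu : S.Cs w u y)
    (ha : S.J a ⊆ bey S.D.G w u) (pd : ∀ q, q ∈ S.J d → q ∈ S.J y → q ∈ bey S.D.G u w)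
    {n : V} (hn : S.K.ar n y) {p : S.X} (hp : p ∈ S.J n)
    (hpy : p ∈ S.J y) (hpu : p ∈ bey S.D.G w u) : False := by
  obtain ⟨r, r0, r1⟩ := S.one_ex (Or.inl A.ar)
  have hru : r ∈ bey S.D.G w u := ha r1
  -- a corner with `a` at `y` is a contradiction
  have fin : ∀ p n', p ∈ S.J y → p ∈ bey S.D.G w u → p ∈ S.J n' → S.K.Cor n' y a → False := by
    intro p n' hpy hpu hpn hc
    obtain ⟨g, g1, g2, g3⟩ := A.cor_y _ hc
    have gp := ph_fix A.ar g1 g2 p hpy
    have h1 : p ∈ S.J d := by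
      rw [← g3, ← gp] at hpn
      exact (S.mem_smul_iff g d p).1 hpn
    exact bey_not hpu (pd p h1 hpy)
  have key : ∀ k, ∀ n p, S.K.ar n y → p ∈ S.J n → p ∈ S.J y → p ∈ bey S.D.G w u →
      S.D.G.dist r p = k → False := by
    intro k
    induction k using Nat.strong_induction_on with
    | _ k ih =>
      intro n p hn hp hpy hpu hk
      by_cases hpr : p = r
      · subst hpr
        obtain ⟨n', h1, h2⟩ := (ts p n hn hpy hp).2 a A.ar r1
        exact fin p n' hpy hpu (h1.mem hp) h2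
      · obtain ⟨e, e1, e2, e3⟩ := ph_nbr hpy r0 hpr
        obtain ⟨n', m, h1, h2, h3⟩ := (ts p n hn hpy hp).1 e e1 e2
        -- `w` is not in the direction `e`
        have hwe : w ∈ bey S.D.G e p := by
          rcases bey_or S.D.tree e1 w with h | h
          · exfalso
            have l1 := ph_end A.ar r0 r1 _ p w e hpy cu.1 e1 e3 h rfl
            have l2 := ph_end A.ar r0 r1 _ w p u cu.1 hpy hu hru hpu rfl
            omega
          · exact h
        have nos : ∀ z, z ∈ bey S.D.G p e → z ∈ bey S.D.G w u := by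
          intro z hz
          rcases bey_or S.D.tree hu z with h | h
          · exact h
          · exact absurd (ph_side' S.D.tree hu hpu e1 hwe h) (fun k => bey_not hz k)
        have hm : S.K.E y m := h2.E2
        rcases hm with hm | hm
        · -- a pole
          have e' : m = a := A.pole_eq hu cu ha hm (fun z hz => nos z (h3 hz))
          rw [e'] at h2
          exact fin p n' hpy hpu (h1.mem hp) h2
        · obtain ⟨q, q0, q1⟩ := S.one_ex (Or.inl hm)
          have l1 := ph_end A.ar r0 r1 _ p q e hpy q1 e1 e3 (h3 q0) rfl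
          exact ih _ (by omega) m q hm q0 q1 (nos _ (h3 q0)) rfl
  exact key _ n p hn hp hpy hpu rfl

/-- elements which fix `y` and `a` fix the points of `J y` -/
theorem fixw {w : S.X} (hw : w ∈ S.J y) {g : H} (gy : g • y = y) (ga : g • a = a) : g • w = w :=
  ph_fix A.ar gy ga w hw

end Au

variable (S)

/-- the arrow `y → a` at the level `w` -/
structure Av (w : S.X) (O : S.OR w) (y a b d : V) : Prop extends S.Au y a b d where
  wy : w ∈ S.J y
  pd : ∀ u, S.D.G.Adj w u → S.J a ⊆ bey S.D.G w u → ∀ q, q ∈ S.J d → q ∈ S.J y → q ∈ bey S.D.G u w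
  zq : ∀ u q x', S.Qs w u q y x' →
    (∃ z, S.K.E z y ∧ S.J z ⊆ bey S.D.G w u ∧ z ≠ a ∧ q ≠ a) ∨
    (S.J a ⊆ bey S.D.G w u ∧ S.K.ar q y ∧ w ∈ S.J q ∧ O.op u q)
  z0 : ∀ u c', ¬ S.Qs w u y a c'

variable {S}

namespace Av

variable {w : S.X} {O : S.OR w} {y a b d : V} (A : S.Av w O y a b d)

include A

/-- zero squares at `y` -/
theorem zs (ts : S.PTSA) {u : S.X} {q x' : V} (h : S.Qs w u q y x') :
    S.K.ar q y ∧ w ∈ S.J q ∧ (¬ S.J a ⊆ bey S.D.G w u ∨ O.op u q) := by
  have hw := A.wy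
  have hu := h.adj
  have cy := h.l
  have hE := h.E1
  have hqn := h.near
  rcases A.zq _ _ _ h with ⟨z, z1, z2, z3, z4⟩ | ⟨z1, z2, z3, z4⟩
  · have na : ¬ S.J a ⊆ bey S.D.G w u := by
      intro ha
      rcases z1 with z1 | z1
      · obtain ⟨r, r0, r1⟩ := S.one_ex (Or.inl z1)
        exact A.toAu.noN (ts _ _ _ hu cy) hu cy ha (A.pd u hu ha) z1 r0 r1 (z2 r0)
      · exact z3 (A.toAu.pole_eq hu cy ha z1 z2)
    have hqy : S.K.ar q y := by
      rcases hE with e | e
      · exfalso
        obtain ⟨b1, h1, h2⟩ := S.js.cross y ⟨a, A.ar⟩ w u hu cy.1 cy.2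
        rcases S.K.two y a q b1 A.ar e h1 with k | k | k
        · exact z4 k.symm
        · rw [← k] at h2
          obtain ⟨r, hr⟩ := S.js.ne q
          exact bey_not (hqn hr) (h2 hr)
        · rw [← k] at h2
          exact na h2
      · exact e
    refine ⟨hqy, ?_, Or.inl na⟩
    by_contra hwq
    obtain ⟨r, r0, r1⟩ := S.one_ex (Or.inl hqy)
    have hrw : w ≠ r := by
      rintro rfl
      exact hwq r0
    obtain ⟨u3, k1, k2, k3⟩ := ph_nbr hw r1 hrw
    have hne : u3 ≠ u := by
      rintro rfl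
      exact bey_not k3 (hqn r0)
    by_cases hwa : w ∈ S.J a
    · exact hne (ar_cs_eq hw A.ar hwa k1 hu k2 cy.2)
    · have d1 := S.dir_adj hwa
      have d2 := S.dir_bey hwa
      have d3 : S.dir w a ∈ S.J y := S.dir_cross (Or.inl A.ar) hw hwa
      have hne2 : S.dir w a ≠ u := by
        intro e
        rw [e] at d2
        exact na d2
      rcases ph_two hw k1 k2 hu cy.2 d1 d3 with e | e | e
      · exact hne e
      · exact hne2 e.symm
      · rw [← e] at d2
        exact A.toAu.noN (ts _ _ _ k1 ⟨hw, k2⟩) k1 ⟨hw, k2⟩ d2 (A.pd u3 k1 d2) hqy r0 r1 k3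
  · exact ⟨z2, z3, Or.inr z4⟩

/-- the zero squares at `y` which are not on the side of `a` are over one edge -/
theorem zs_unique {u u' : S.X} {q q' x x' : V}
    (h : S.Qs w u q y x) (h' : S.Qs w u' q' y x') (n1 : ¬ S.J a ⊆ bey S.D.G w u)
    (n2 : ¬ S.J a ⊆ bey S.D.G w u') : u = u' := by
  have hw := A.wy
  by_cases hwa : w ∈ S.J a
  · exact ar_cs_eq hw A.ar hwa h.adj h'.adj h.l.2 h'.l.2
  · have d1 := S.dir_adj hwa
    have d2 := S.dir_bey hwa
    have d3 : S.dir w a ∈ S.J y := S.dir_cross (Or.inl A.ar) hw hwa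
    rcases ph_two hw h.adj h.l.2 h'.adj h'.l.2 d1 d3 with e | e | e
    · exact e
    · rw [← e] at d2
      exact absurd d2 n2
    · rw [← e] at d2
      exact absurd d2 n1

/-- `y` is no hub of a diamond -/
theorem not_dia {u : S.X} (h : S.Dia w u y) : False := by
  obtain ⟨-, a1, a2, hne, h1, h2, hg⟩ := h
  rcases hg.cases with e | ⟨⟨c1, k1⟩, ⟨c2, k2⟩⟩
  · exact hne e
  · rcases S.K.two y a1 a2 a h1 h2 A.ar with e | e | e
    · exact hne e
    · rw [e] at k2
      exact A.z0 _ _ k2
    · rw [e] at k1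
      exact A.z0 _ _ k1

end Av

end SyQ

end Pool.Agent.DI
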