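import Pool.Agent.DI.OpnC
import Pool.Agent.DI.Bare
import Pool.Agent.DI.PhA
import Pool.Agent.DI.BndE
import Pool.Agent.DI.D0Q
import Pool.Agent.DI.Ph2

/-!
# `phi_0` and the opening of vertices (owner: helper21)

`O : OpW K W`. An arrow of `K.ThA` (direct, one orbit of flags) starts at a vertex which is not opened
(`ThA_ndbl`) and has a lift in `O.gx.ThA`: `OpW.phA_le : K.phA ≤ O.gx.phA`. The hypothesis `ex` (an element
which fixes the target of an arrow of a part and the poles of this target fixes the part) follows from a system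
with `SinkH` over `O.gx` (`OpW.ex_of`).
-/

namespace Pool.Agent.DI

open MulAction
open Pool.Agent.SAF (InC orbs FinOrb oc Decomp mk_eq_iff FinOrb_iff)
open Pool.Agent.SAG (Zt)
open Pool.Agent.BT (PX PQ JS bey exits mst Hyp Ell)

/-- the arrows of `ThA` are finitely many orbits -/
private theorem fin_ThA21 {H V : Type} [Group H] [MulAction H V] {K : GX H V} :
    FinOrb H K.ThA := by
  refine SAF.FinOrb.image (P45.fin_FL (K := K)) (fun f : FL K => (P45.fy f, P45.fz f)) ?_ ?_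
  · rintro p ⟨-, -, ⟨f, hf⟩, -⟩
    exact ⟨f, Set.mem_univ _, 1, by rw [one_smul]; exact hf⟩
  · rintro f - f' - ⟨h, rfl⟩
    exact ⟨h, (P45.fyz_smul h f).symm⟩

/-- a flag with the corner of a walk -/
private theorem Q4_flag21 {H V : Type} [Group H] [MulAction H V] {K : GX H V} {P : P45 K}
    {n T a q : V} (h : Q4 P n T a q) :
    ∃ f : FL K, P.sq f.1.1.1 ∧ P45.fx f = n ∧ P45.fy f = T ∧ P45.fz f = a := by
  obtain ⟨e, h1, h2, ⟨h3, h4⟩ | ⟨h3, h4⟩⟩ := P45.Q4_fl h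
  · exact ⟨(e, true), h1, h3, h2, h4⟩
  · exact ⟨(e, false), h1, h4, h2, h3⟩

namespace OpW

variable {H V W : Type} [Group H] [MulAction H V] [MulAction H W] {K : GX H V} (O : OpW K W)

/-- a flag along an arrow is an edge -/
theorem fl_E (f : FL K) : K.E (P45.fy f) (P45.fz f) := by
  obtain ⟨e, b⟩ := f
  cases b
  · exact K.c_E0 e
  · exact K.c_E2 e

/-- a flag of a new square along an arrow starts at an opened vertex, its other neighbour is a pole -/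
theorem new_fl (hj : ∀ j, O.js j ≠ O.jt j) {f : FL O.gx}
    (hn : ∃ (j : O.J) (k : Fin (O.gx.len (Sum.inr j))) (h : H), f.1 = (⟨Sum.inr j, k⟩, h))
    (ha : O.gx.ar (P45.fy f) (P45.fz f)) : O.Dbl (P45.fy f) ∧ O.gx.ar (P45.fy f) (P45.fx f) := by
  obtain ⟨e, b⟩ := f
  obtain ⟨j, k, h, he⟩ := hn
  have n1 := O.new_pos j k h e he
  have n2 := O.new_dbl hj j k h e he
  have key : O.gx.ar (O.gx.c1 e) (O.gx.c0 e) ∧ O.gx.ar (O.gx.c1 e) (O.gx.c2 e) := by
    rcases n1 with ⟨h1, h2, -⟩ | n1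
    · exfalso
      cases b
      · exact GX.not_both' (K := O.gx) h1 ha
      · exact GX.not_both' (K := O.gx) h2 ha
    · exact n1
  refine ⟨?_, ?_⟩
  · rcases n2 with ⟨h1, -⟩ | ⟨-, h2⟩
    · exact h1
    · exact absurd key.1 (GX.not_both' (K := O.gx) h2)
  · cases b
    · exact key.2
    · exact key.1

/-- a strand at an arrow gives a flag of the old complex -/
theorem strand_up {P : P45 K} (hj : ∀ j, O.js j ≠ O.jt j) {x a : W}
    (h : 1 ≤ (O.p45 P).X x a) (ha : O.gx.ar x a) :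
    ∃ f : FL K, (P45.fy (O.upF f), P45.fz (O.upF f)) = (x, a) := by
  rcases P45.X_pos h with ⟨f, hf, e⟩ | ⟨q, n, hz⟩
  · rcases O.LE_cases f.1 with ⟨e0, h0⟩ | ⟨j, k, g, h0⟩
    · refine ⟨(e0, f.2), ?_⟩
      have : O.upF (e0, f.2) = f := Prod.ext h0.symm rfl
      rw [this]
      exact e
    · exfalso
      apply hf.1
      rw [h0]
      trivial
  · obtain ⟨f, sf, xf, yf, zf⟩ := Q4_flag21 hz.1
    have e1 : (P45.fy f, P45.fz f) = (x, a) := Prod.ext yf zf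
    rcases O.LE_cases f.1 with ⟨e0, h0⟩ | ⟨j, k, g, h0⟩
    · refine ⟨(e0, f.2), ?_⟩
      have : O.upF (e0, f.2) = f := Prod.ext h0.symm rfl
      rw [this]
      exact e1
    · exfalso
      have k1 := O.new_fl hj ⟨j, k, g, h0⟩ (by rw [yf, zf]; exact ha)
      have k2 := k1.2
      rw [yf, xf] at k2
      exact GX.not_both' (K := O.gx) k2 hz.2.2

/-- the elements of `N_x` at a vertex which is not opened -/
theorem ny_iff {x : W} (h : ¬ O.Dbl x) {g : H} : NY x g ↔ NY (O.π x) g := by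
  have key : ∀ t : H, t • x = x ↔ t • O.π x = O.π x := by
    intro t
    rw [← mem_stabilizer_iff, ← mem_stabilizer_iff, O.stab_eq h]
  unfold NY
  rw [key]
  refine and_congr_right fun _ => and_congr_right fun _ => exists_congr fun t => ?_
  rw [key]

/-- the poles and the sinks, for the old and the new complex -/
theorem sn_iff {x : W} {g : H} :
    (O.gx.Snk x → Infinite ↥(stabilizer H x) → NY x g) ↔
    (K.Snk (O.π x) → Infinite ↥(stabilizer H (O.π x)) → NY (O.π x) g) := by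
  by_cases hs : K.Snk (O.π x)
  · have hd := O.snk_ndbl hs
    rw [O.snk_iff, O.stab_eq hd, O.ny_iff hd]
  · constructor
    · exact fun _ k => absurd k hs
    · exact fun _ k => absurd (O.snk_iff.1 k) hs

variable {P : P45 K}

/-- AN ARROW OF `ThA` DOES NOT START AT AN OPENED VERTEX -/
theorem ThA_ndbl (hj : ∀ j, O.js j ≠ O.jt j)
    (xo : ∀ T a, O.Dbl T → O.gx.ar T a → ¬ (O.p45 P).Bare T → 1 ≤ (O.p45 P).X T a)
    (two : ∀ x, O.Dbl x → ∃ x1 x2, O.π x1 = O.π x ∧ O.π x2 = O.π x ∧ x1 ≠ x2 ∧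
      ¬ (O.p45 P).Bare x1 ∧ ¬ (O.p45 P).Bare x2)
    (ex : ∀ (x a : W) (g : H), O.Dbl x → ¬ (O.p45 P).Bare x → O.gx.ar x a →
      O.π (g • x) = O.π x → g • a = a → (∀ c, O.gx.ar a c → g • c = c) →
      (O.gx.Snk a → Infinite ↥(stabilizer H a) → NY a g) → g • x = x)
    {x a : W} (ha : O.gx.ar x a) (ht : (O.π x, O.π a) ∈ K.ThA) : ¬ O.Dbl x := by
  intro hd
  obtain ⟨x1, x2, e1, e2, hne, b1, b2⟩ := two x hd
  have a1 : O.gx.ar x1 a := O.ar_congr ha e1.symm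
  have a2 : O.gx.ar x2 a := O.ar_congr ha e2.symm
  have d1 : O.Dbl x1 := hd.congr e1.symm
  have d2 : O.Dbl x2 := hd.congr e2.symm
  obtain ⟨f1, k1⟩ := O.strand_up hj (xo _ _ d1 a1 b1) a1
  obtain ⟨f2, k2⟩ := O.strand_up hj (xo _ _ d2 a2 b2) a2
  have y1 : P45.fy (O.upF f1) = x1 := congrArg Prod.fst k1
  have z1 : P45.fz (O.upF f1) = a := congrArg Prod.snd k1
  have y2 : P45.fy (O.upF f2) = x2 := congrArg Prod.fst k2
  have z2 : P45.fz (O.upF f2) = a := congrArg Prod.snd k2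
  obtain ⟨-, hdr, -, hu⟩ := ht
  have m1 : (P45.fy f1, P45.fz f1) = (O.π x, O.π a) :=
    Prod.ext (by rw [← O.π_fy, y1, e1]) (by rw [← O.π_fz, z1])
  have m2 : (P45.fy f2, P45.fz f2) = (O.π x, O.π a) :=
    Prod.ext (by rw [← O.π_fy, y2, e2]) (by rw [← O.π_fz, z2])
  obtain ⟨g, hg⟩ := hu f1 f2 m1 m2
  have gx : g • x1 = x2 := by
    rw [← y1, ← y2, ← hg, O.upF_smul, P45.fy_smul]
  have ga : g • a = a := by
    have : g • P45.fz (O.upF f1) = P45.fz (O.upF f2) := by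
      rw [← hg, O.upF_smul, P45.fz_smul]
    rwa [z1, z2] at this
  have gy : g • O.π x = O.π x := by
    rw [← e1, ← O.π_smul, gx, e2, ← e1]
  have gp : g • O.π a = O.π a := by rw [← O.π_smul, ga]
  have gc : ∀ c, O.gx.ar a c → g • c = c := by
    intro c hc
    have h1 := hdr.1 g gy gp _ (O.ar_π hc)
    rw [← O.ar_e' hc, ← O.e_smul g _ _ (O.ar_π hc), gp, h1]
  have := ex x1 a g d1 b1 a1 (by rw [gx, e1, e2]) ga gc
    (O.sn_iff.2 fun k1 k2 => hdr.2 k1 k2 g gy gp)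
  exact hne (this.symm.trans gx)

/-- THE ARROWS OF `ThA` HAVE LIFTS -/
theorem ThA_lift (hj : ∀ j, O.js j ≠ O.jt j)
    (xo : ∀ T a, O.Dbl T → O.gx.ar T a → ¬ (O.p45 P).Bare T → 1 ≤ (O.p45 P).X T a)
    (two : ∀ x, O.Dbl x → ∃ x1 x2, O.π x1 = O.π x ∧ O.π x2 = O.π x ∧ x1 ≠ x2 ∧
      ¬ (O.p45 P).Bare x1 ∧ ¬ (O.p45 P).Bare x2)
    (ex : ∀ (x a : W) (g : H), O.Dbl x → ¬ (O.p45 P).Bare x → O.gx.ar x a →
      O.π (g • x) = O.π x → g • a = a → (∀ c, O.gx.ar a c → g • c = c) →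
      (O.gx.Snk a → Infinite ↥(stabilizer H a) → NY a g) → g • x = x)
    {p : V × V} (hp : p ∈ K.ThA) : ∃ q ∈ O.gx.ThA, (O.π q.1, O.π q.2) = p := by
  obtain ⟨h1, hdr, ⟨f, hf⟩, hu⟩ := id hp
  have ey : O.π (P45.fy (O.upF f)) = p.1 := by
    rw [O.π_fy]
    exact congrArg Prod.fst hf
  have ez : O.π (P45.fz (O.upF f)) = p.2 := by
    rw [O.π_fz]
    exact congrArg Prod.snd hf
  have ha : O.gx.ar (P45.fy (O.upF f)) (P45.fz (O.upF f)) :=
    O.ar_of_E (fl_E _) (by rw [ey, ez]; exact h1)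
  have hpp : (O.π (P45.fy (O.upF f)), O.π (P45.fz (O.upF f))) = p := Prod.ext ey ez
  have hnd : ¬ O.Dbl (P45.fy (O.upF f)) :=
    O.ThA_ndbl hj xo two ex ha (by rw [hpp]; exact hp)
  have fix : ∀ g : H, g • P45.fy (O.upF f) = P45.fy (O.upF f) →
      g • P45.fz (O.upF f) = P45.fz (O.upF f) → g • p.1 = p.1 ∧ g • p.2 = p.2 := by
    intro g g1 g2
    exact ⟨by rw [← ey, ← O.π_smul, g1], by rw [← ez, ← O.π_smul, g2]⟩
  refine ⟨(P45.fy (O.upF f), P45.fz (O.upF f)), ⟨ha, ⟨?_, ?_⟩, ⟨O.upF f, rfl⟩, ?_⟩, hpp⟩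
  · intro g g1 g2 c hc
    obtain ⟨g1', g2'⟩ := fix g g1 g2
    have hc' : K.ar p.2 (O.π c) := by
      rw [← ez]
      exact O.ar_π hc
    have h3 := hdr.1 g g1' g2' _ hc'
    have h4 : O.e (O.π (P45.fz (O.upF f))) (O.π c) = c := O.ar_e' hc
    rw [ez] at h4
    rw [← h4, ← O.e_smul g _ _ hc', g2', h3]
  · intro k1 k2 g g1 g2
    obtain ⟨g1', g2'⟩ := fix g g1 g2
    refine O.sn_iff.2 ?_ k1 k2
    rw [ez]
    exact fun k1 k2 => hdr.2 k1 k2 g g1' g2'
  · have up : ∀ f' : FL O.gx, (P45.fy f', P45.fz f') =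
        (P45.fy (O.upF f), P45.fz (O.upF f)) → ∃ f0 : FL K, O.upF f0 = f' ∧
        (P45.fy f0, P45.fz f0) = p := by
      intro f' hf'
      have y1 : P45.fy f' = P45.fy (O.upF f) := congrArg Prod.fst hf'
      have z1 : P45.fz f' = P45.fz (O.upF f) := congrArg Prod.snd hf'
      rcases O.LE_cases f'.1 with ⟨e0, h0⟩ | ⟨j, k, g, h0⟩
      · have e1 : O.upF (e0, f'.2) = f' := Prod.ext h0.symm rfl
        refine ⟨(e0, f'.2), e1, ?_⟩
        refine Prod.ext ?_ ?_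
        · show P45.fy _ = p.1
          rw [← O.π_fy, e1, y1, ey]
        · show P45.fz _ = p.2
          rw [← O.π_fz, e1, z1, ez]
      · exfalso
        have k1 := O.new_fl hj ⟨j, k, g, h0⟩ (by rw [y1, z1]; exact ha)
        rw [y1] at k1
        exact hnd k1.1
    intro f1 f2 k1 k2
    obtain ⟨f1', u1, m1⟩ := up f1 k1
    obtain ⟨f2', u2, m2⟩ := up f2 k2
    obtain ⟨g, hg⟩ := hu f1' f2' m1 m2
    exact ⟨g, by rw [← u1, ← u2, ← hg, O.upF_smul]⟩

/-- `phi_0` DOES NOT DROP WHEN VERTICES ARE OPENED -/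
theorem phA_le (hj : ∀ j, O.js j ≠ O.jt j)
    (xo : ∀ T a, O.Dbl T → O.gx.ar T a → ¬ (O.p45 P).Bare T → 1 ≤ (O.p45 P).X T a)
    (two : ∀ x, O.Dbl x → ∃ x1 x2, O.π x1 = O.π x ∧ O.π x2 = O.π x ∧ x1 ≠ x2 ∧
      ¬ (O.p45 P).Bare x1 ∧ ¬ (O.p45 P).Bare x2)
    (ex : ∀ (x a : W) (g : H), O.Dbl x → ¬ (O.p45 P).Bare x → O.gx.ar x a →
      O.π (g • x) = O.π x → g • a = a → (∀ c, O.gx.ar a c → g • c = c) →
      (O.gx.Snk a → Infinite ↥(stabilizer H a) → NY a g) → g • x = x) : K.phA ≤ O.gx.phA := by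
  refine SAF.oc_le_of_surj fin_ThA21 (fun q => (O.π q.1, O.π q.2)) ?_ ?_
  · intro p hp
    obtain ⟨q, hq, e⟩ := O.ThA_lift hj xo two ex hp
    exact ⟨q, hq, 1, by rw [one_smul]; exact e⟩
  · rintro a - b - ⟨h, rfl⟩
    exact ⟨h, Prod.ext (O.π_smul h a.1).symm (O.π_smul h a.2).symm⟩

/-- an element of `N_a` fixes the places of the sink `a` -/
theorem snk_fix {H V : Type} [Group H] [MulAction H V] {S : SyQ H V} (hS : S.SinkH) {a : V}
    (hs : S.K.Snk a) {g : H} (ga : g • a = a) (hN : Infinite ↥(stabilizer H a) → NY a g)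
    (gf : Finite ↥(Subgroup.zpowers g)) {p : S.X} (hp : p ∈ S.J a) : g • p = p := by
  rcases hS.ty a hs with ⟨r, hr⟩ | ⟨h1, h2, h3 | ⟨-, h4⟩⟩
  · have h0 := S.js.smul g a p hp
    rw [ga, hr] at h0
    rw [hr] at hp
    rw [Set.mem_singleton_iff.1 h0, Set.mem_singleton_iff.1 hp]
  · rw [h2] at hp
    obtain ⟨D0⟩ := h3.nonempty
    obtain ⟨-, hio, t, ht, hti, e⟩ := hN h3.2.1
    have hgN := (comm_dl D0 ga).1 ⟨hio, t, ht, hti, e⟩
    have hB : Finite ↥(D0.N.map (stabilizer H a).subtype) := by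
      have : Finite ↥D0.N := inferInstance
      exact Finite.of_equiv _ (Subgroup.equivMapOfInjective D0.N (stabilizer H a).subtype
        (Subgroup.subtype_injective _)).toEquiv
    refine fix_mst S.D.tact (S.K.stab a) h1 hB ?_ ?_ ⟨⟨g, ga⟩, hgN, rfl⟩ hp
    · rintro _ ⟨b, -, rfl⟩
      exact b.2
    · rintro c hc _ ⟨b, hb, rfl⟩
      refine ⟨(⟨c, hc⟩ : ↥(stabilizer H a))⁻¹ * b * ⟨c, hc⟩, ?_, rfl⟩
      have := (inferInstance : D0.N.Normal).conj_mem b hb (⟨c, hc⟩ : ↥(stabilizer H a))⁻¹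
      rwa [inv_inv] at this
  · rw [h2] at hp
    have := S.D.tree.connected.nonempty
    obtain ⟨c, hc⟩ := Pool.Agent.SAG.fix_of_finite S.D.tact (Subgroup.zpowers g) gf
    exact zt_fix S.D.tact (S.K.stab a) h1 h4 ga (hc g (Subgroup.mem_zpowers g)) hp

/-- THE HYPOTHESIS `ex` from a system over the opened complex -/
theorem ex_of {D : Decomp H} {J : W → Set D.X} (js : JS (O.p45 P).pq D J)
    (hS : (SyQ.mk O.gx (O.p45 P) D J js).SinkH) (df : O.DF)
    (pt : ∀ x, O.Dbl x → ¬ (O.p45 P).Bare x → ∃ p, J x = {p})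
    (inj : ∀ x y, O.π x = O.π y → ¬ (O.p45 P).Bare x → ¬ (O.p45 P).Bare y → J x = J y → x = y)
    (x a : W) (g : H) (hd : O.Dbl x) (hb : ¬ (O.p45 P).Bare x) (ha : O.gx.ar x a)
    (gx : O.π (g • x) = O.π x) (ga : g • a = a) (gc : ∀ c, O.gx.ar a c → g • c = c)
    (hN : O.gx.Snk a → Infinite ↥(stabilizer H a) → NY a g) : g • x = x := by
  let S : SyQ H W := SyQ.mk O.gx (O.p45 P) D J js
  have hE : S.K.E x a := Or.inl ha
  obtain ⟨p, p0, p1⟩ := S.one_ex hE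
  obtain ⟨r, hr⟩ := pt x hd hb
  have hr' : J x = {p} := by
    have : p ∈ J x := p0
    rw [hr] at this
    rw [hr, Set.mem_singleton_iff.1 this]
  have gp : g • p = p := by
    by_cases hs : O.gx.Snk a
    · have hfin := df x hd
      have gf : Finite ↥(Subgroup.zpowers g) := by
        have hle : Subgroup.zpowers g ≤ stabilizer H (O.π x) := by
          rw [Subgroup.zpowers_le, mem_stabilizer_iff, ← O.π_smul]
          exact gx
        exact Finite.of_injective (Subgroup.inclusion hle) (Subgroup.inclusion_injective hle)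
      exact snk_fix (S := S) hS hs ga (hN hs) gf p1
    · have hs' : ∃ c, O.gx.ar a c := by
        by_contra hc
        push Not at hc
        exact hs hc
      obtain ⟨c, hc⟩ := hs'
      exact SyQ.ph_fix (S := S) hc ga (gc c hc) p p1
  have hb' : ¬ (O.p45 P).Bare (g • x) := fun k => hb ((P45.bare_iff g).1 k)
  obtain ⟨r', hr2⟩ := pt (g • x) (hd.smul g) hb'
  have h0 : g • p ∈ J (g • x) := S.js.smul g x p p0
  rw [gp, hr2] at h0
  refine inj _ _ gx hb' hb ?_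
  rw [hr', hr2, Set.mem_singleton_iff.1 h0]

/-- `phi_0` DOES NOT DROP WHEN VERTICES ARE OPENED, with a system over the opened complex -/
theorem phA_le_of {D : Decomp H} {J : W → Set D.X} (js : JS (O.p45 P).pq D J)
    (hS : (SyQ.mk O.gx (O.p45 P) D J js).SinkH) (hj : ∀ j, O.js j ≠ O.jt j) (df : O.DF)
    (xo : ∀ T a, O.Dbl T → O.gx.ar T a → ¬ (O.p45 P).Bare T → 1 ≤ (O.p45 P).X T a)
    (two : ∀ x, O.Dbl x → ∃ x1 x2, O.π x1 = O.π x ∧ O.π x2 = O.π x ∧ x1 ≠ x2 ∧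
      ¬ (O.p45 P).Bare x1 ∧ ¬ (O.p45 P).Bare x2)
    (pt : ∀ x, O.Dbl x → ¬ (O.p45 P).Bare x → ∃ p, J x = {p})
    (inj : ∀ x y, O.π x = O.π y → ¬ (O.p45 P).Bare x → ¬ (O.p45 P).Bare y → J x = J y → x = y) :
    K.phA ≤ O.gx.phA :=
  O.phA_le hj xo two fun x a g hd hb ha gx ga gc hN =>
    O.ex_of js hS df pt inj x a g hd hb ha gx ga gc hN

end OpW

end Pool.Agent.DI
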