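import Pool.Agent.DI.K1Y
import Pool.Agent.DI.PhK
import Pool.Agent.DI.LineQ

/-!
# DI/K1Z: `phi_0` on the step complex

`kx_phA : C.K.phA ≤ (C.kx r).K.phA`.
-/

namespace Pool.Agent.DI

open MulAction
open Pool.Agent.SAF (InC SA orbs FinOrb oc Decomp SAn Conv FinOrb_iff exists_next)
open Pool.Agent.BT (PX PQ JS bey exits Ell mst)

namespace St

variable (C : St) {D : Decomp C.H} {J : C.ofs.W → Set D.X} {js : JS (C.ow.p45 C.P).pq D J}
  {hc : (SyQ.mk C.ow.gx (C.ow.p45 C.P) D J js).Conn} {tw : C.ofs.W → C.ofs.W → Prop}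
  {Tp : C.ofs.W → Prop} {pt : C.ofs.W → C.ofs.W} {Z : C.ofs.W → Prop}
  (r : (SyQ.mk C.ow.gx (C.ow.p45 C.P) D J js).RK hc tw Tp pt Z)

/-- `phi_0` DOES NOT DROP on the step complex -/
theorem kx_phA {w : D.X} (s : (SyQ.mk C.ow.gx (C.ow.p45 C.P) D J js).SyP w) :
    C.K.phA ≤ (C.kx r).K.phA := by
  obtain ⟨σ, sg⟩ := C.kx_sig r
  exact (C.kx r).O.phA_le_of (C.kx_js r sg) ((C.kx_gd r sg s).sinkH fun y _ => (C.kx r).lc y)
    (C.kx r).ok.ne (C.kx r).ok.df (C.kx r).ok.xo (C.kx_two r) (fun _ h _ => C.kx_eJ r sg h)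
    (C.kx_inj r sg)

end St

end Pool.Agent.DI
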