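import Pool.Agent.DI.QKF

/-!
# The kept squares of the folded slice

`kept_cases`: a kept square of `S.kf hc w O` comes from an open star (`x, q, x', t_u` with `q` over `w` and
`x` or `x'` a pole of `q`) or from a listed square of `K` with all four vertices over `w`.
-/

namespace Pool.Agent.DI

open MulAction
open Pool.Agent.SAF (InC orbs FinOrb oc Decomp SAn SA Conv hull dist_edge FinOrb_iff exists_next)
open Pool.Agent.BT (PX PQ JS bey exits lz lz_self lz_ne lz_symm x_next_unique)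
open Pool.Agent.BT.TA

theorem f431 (j : Fin 4) : j + 3 + 1 = j := by
  revert j
  decide

theorem f413 (j : Fin 4) : j + 1 + 3 = j := by
  revert j
  decide

namespace SyQ

variable {H V : Type} [Group H] [MulAction H V] {S : SyQ H V}

/-- a kept square, shifted -/
theorem kept.at {w : S.X} {O : S.OR w} {p : S.C4 w ⊕ S.C4q w} (hp : S.kept w O p) (j : Fin 4) :
    S.fq w O (S.vq w p j) ≠ S.fq w O (S.vq w p (j + 2)) := by
  fin_cases j
  · exact hp.1
  · exact hp.2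
  · exact hp.1.symm
  · exact hp.2.symm

/-- the zero square of a listed square with a vertex which is not over `w` -/
theorem qs_of_far {w : S.X} {g : H} {i : S.K.I} (hi : S.P.sq i) (hn : S.ND w (S.tq g i))
    {j : Fin 4} (hj : w ∉ S.J (S.tq g i (j + 3))) :
    ∃ u, ∃ hu : S.D.G.Adj w u,
      S.Qs w u (S.tq g i (j + 1)) (S.tq g i j) (S.tq g i (j + 2)) ∧
      S.rho w (S.tq g i (j + 3)) = Sum.inr ⟨u, hu⟩ := by
  have hv := S.tq_E g hi
  have e0 : S.K.E (S.tq g i j) (S.tq g i (j + 1)) := hv j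
  have e2 : S.K.E (S.tq g i (j + 2)) (S.tq g i (j + 3)) := by
    have := hv (j + 2)
    rwa [add_assoc] at this
  have e31 : j + 3 + 1 = j := f431 j
  have e3 : S.K.E (S.tq g i (j + 3)) (S.tq g i j) := by
    have := hv (j + 3)
    rwa [e31] at this
  have s0 : w ∈ S.J (S.tq g i j) := by
    rcases S.nd_step hv hn (j + 3) with h | h
    · exact absurd h hj
    · rwa [e31] at h
  have s2 : w ∈ S.J (S.tq g i (j + 2)) := by
    rcases S.nd_step hv hn (j + 2) with h | h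
    · exact h
    · rw [add_assoc] at h
      exact absurd h hj
  have hu := S.dir_adj hj
  have hb := S.dir_bey hj
  have c0 : S.Cs w (S.dir w (S.tq g i (j + 3))) (S.tq g i j) := ⟨s0, S.dir_cross e3.symm s0 hj⟩
  have c2 : S.Cs w (S.dir w (S.tq g i (j + 3))) (S.tq g i (j + 2)) :=
    ⟨s2, S.dir_cross e2 s2 hj⟩
  have r3 := S.rho_bey hu hb
  have hnd : S.rho w (S.tq g i (j + 1)) ≠ S.rho w (S.tq g i (j + 3)) := by
    have h1 := hn.1
    have h2 := hn.2
    clear e0 e2 e31 e3 s0 s2 hu hb c0 c2 r3 hj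
    fin_cases j
    · exact h2
    · exact h1.symm
    · exact h2.symm
    · exact h1
  have hq : S.J (S.tq g i (j + 1)) ⊆ bey S.D.G (S.dir w (S.tq g i (j + 3))) w := by
    rcases S.side_or hu (S.adj_nc hu e0 c0) with h | h
    · exact absurd ((S.rho_bey hu h).trans r3.symm) hnd
    · exact h
  refine ⟨_, hu, ⟨hu, c0, c2, hq, Or.inr ⟨_, ?_, hb⟩⟩, r3⟩
  exact Q4_qt g hi j

/-- THE KEPT SQUARES -/
theorem kept_cases {w : S.X} {O : S.OR w} (p : S.C4 w ⊕ S.C4q w) (hp : S.kept w O p) :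
    (∃ (j : Fin 4) (u : S.X) (q x x' : V), S.Qs w u q x x' ∧ O.op u q ∧ w ∈ S.J q ∧
      (S.K.ar q x ∨ S.K.ar q x') ∧ S.vq w p j = S.rho w x ∧ S.vq w p (j + 1) = S.rho w q ∧
      S.vq w p (j + 2) = S.rho w x' ∧ ∃ hu, S.vq w p (j + 3) = Sum.inr ⟨u, hu⟩) ∨
    (∃ (g : H) (i : S.K.I), S.P.sq i ∧ (∀ k, w ∈ S.J (S.tq g i k)) ∧
      ∀ k, S.vq w p k = S.rho w (S.tq g i k)) := by
  -- a zero square which is kept belongs to an open star
  have key : ∀ (j : Fin 4) (u : S.X) (hu : S.D.G.Adj w u) (q x x' : V), S.Qs w u q x x' →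
      S.vq w p j = S.rho w x → S.vq w p (j + 1) = S.rho w q → S.vq w p (j + 2) = S.rho w x' →
      S.vq w p (j + 3) = Sum.inr ⟨u, hu⟩ →
      (∃ (j : Fin 4) (u : S.X) (q x x' : V), S.Qs w u q x x' ∧ O.op u q ∧ w ∈ S.J q ∧
      (S.K.ar q x ∨ S.K.ar q x') ∧ S.vq w p j = S.rho w x ∧ S.vq w p (j + 1) = S.rho w q ∧
      S.vq w p (j + 2) = S.rho w x' ∧ ∃ hu, S.vq w p (j + 3) = Sum.inr ⟨u, hu⟩) := by
    intro j u hu q x x' hq h0 h1 h2 h3
    rcases fold_sq (O := O) hq with k | k | ⟨k, k'⟩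
    · rw [← h0, ← h2] at k
      exact absurd k (hp.at j)
    · have h13 := hp.at (j + 1)
      rw [add_assoc, show (1 : Fin 4) + 2 = 3 from rfl, h1, h3] at h13
      exact absurd k h13
    · exact ⟨j, u, q, x, x', hq, k, O.near u q k, k', h0, h1, h2, hu, h3⟩
  rcases p with p | p
  · left
    have h := p.sq
    have hq : S.Qs w p.u (S.tr p.g p.1.1 (p.1.2.1 + 1)) (S.tr p.g p.1.1 p.1.2.1)
        (S.tr p.g p.1.1 (p.1.2.1 + 2)) :=
      ⟨h.1, h.2.1, h.2.2.1, h.2.2.2.1, Or.inl ⟨_, _, Qn_pt p.g p.2.1 p.1.2.1, h.2.2.2.2.1,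
        h.2.2.2.2.2⟩⟩
    exact key 0 p.u h.1 _ _ _ hq rfl rfl rfl (S.rho_bey h.1 h.2.2.2.2.1)
  · by_cases hall : ∀ k, w ∈ S.J (S.tq p.g p.1.1 k)
    · exact Or.inr ⟨p.g, p.1.1, p.2.1, hall, fun k => rfl⟩
    · left
      push Not at hall
      obtain ⟨k, hk⟩ := hall
      have e : k + 1 + 3 = k := f413 k
      rw [← e] at hk
      obtain ⟨u, hu, hq, hr⟩ := qs_of_far p.2.1 p.nd hk
      exact key (k + 1) u hu _ _ _ hq rfl rfl rfl hr

end SyQ

end Pool.Agent.DI
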