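import Pool.Agent.DI.KXb
import Pool.Agent.DI.FCu

/-!
# Thin hubs from natural facts

`S.HubN`: at a folded hub `q ∈ F` the flags `q, a, t_u` over an edge of a diamond are one orbit, the other flags
`q, a, z` at a simple hub are one orbit, the folded slice has no hair (a vertex with one out-arrow is in no
cell along this arrow), the link of `q` in the raw slice is connected. THEOREM `HubN.thin : ThinF`.
-/

namespace Pool.Agent.DI

open MulAction
open Pool.Agent.SAF (InC orbs FinOrb oc)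

namespace SyQ

variable {H V : Type} [Group H] [MulAction H V] {S : SyQ H V}

theorem FO.eqF {w : S.X} {O : S.OR w} {F : Set V} (h : S.FO w O F) :
    ∃ hF : ∀ g : H, g • w = w → ∀ q ∈ F, g • q ∈ F, O = S.opF w F hF := by
  refine ⟨fun g hg q hq => h.inv ⟨g, hg⟩ hq, ?_⟩
  have h1 := h.op
  obtain ⟨op, sm, nr⟩ := O
  have e : op = fun _ q => w ∈ S.J q ∧ q ∉ F := by
    funext u q
    exact propext (h1 u q)
  subst e
  rfl

section

variable (S)

/-- NATURAL FACTS AT THE FOLDED HUBS -/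
structure HubN (hc : S.Conn) (hnb : S.NB) (w : S.X) (O : S.OR w) (hm : (S.k0 hc w).Min)
    (hn : S.SqN w O) (F : Set V) : Prop where
  far : ∀ (u : S.EV w) (q : S.NV w) (e e' : FL (S.k0 hc w)), q.1 ∈ F → S.Dia w u.1 q.1 →
    (S.k0fc hc hnb w).x e = Sum.inl q → (S.k0fc hc hnb w).x e' = Sum.inl q →
    (S.k0fc hc hnb w).y e = (S.k0fc hc hnb w).y e' →
    S.SAr w ((S.k0fc hc hnb w).x e) ((S.k0fc hc hnb w).y e) →
    (S.k0fc hc hnb w).z e = Sum.inr u → (S.k0fc hc hnb w).z e' = Sum.inr u →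
    ∃ h : ↥(stabilizer H w), h • e = e'
  near : ∀ (u : S.EV w) (q : S.NV w) (e e' : FL (S.k0 hc w)), q.1 ∈ F → S.SD w u.1 q.1 →
    (S.k0fc hc hnb w).x e = Sum.inl q → (S.k0fc hc hnb w).x e' = Sum.inl q →
    (S.k0fc hc hnb w).y e = (S.k0fc hc hnb w).y e' →
    S.SAr w ((S.k0fc hc hnb w).x e) ((S.k0fc hc hnb w).y e) →
    (S.k0fc hc hnb w).z e ≠ Sum.inr u → (S.k0fc hc hnb w).z e' ≠ Sum.inr u →
    ∃ h : ↥(stabilizer H w), h • e = e'
  hair : ∀ c d, S.arQ w O c d → (∀ d', S.arQ w O c d' → d' = d) →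
    ∀ g : FL (S.kf hc w O), (S.kffc hc w O hm hn).y g = c → (S.kffc hc w O hm hn).z g ≠ d
  lc : ∀ q : S.NV w, q.1 ∈ F → (S.k0 hc w).LC (Sum.inl q)

variable {S}
variable {hc : S.Conn} {hnb : S.NB} {w : S.X} {O : S.OR w} {hm : (S.k0 hc w).Min}
  {hn : S.SqN w O} {F : Set V}

/-- no cell along the arrow of a hair, in the raw slice -/
theorem HubN.no1 (hN : S.HubN hc hnb w O hm hn F) {c d : S.Q w O} (h1 : S.arQ w O c d)
    (h2 : ∀ d', S.arQ w O c d' → d' = d) {e : FL (S.k0 hc w)}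
    (he : (S.kfM hc hnb w O hm hn).Kp e) (hy : S.fq w O ((S.k0fc hc hnb w).y e) = c) :
    S.fq w O ((S.k0fc hc hnb w).z e) ≠ d := by
  obtain ⟨g, rfl⟩ := he
  intro hz
  have e1 := (S.kfM hc hnb w O hm hn).y_ph g
  have e2 := (S.kfM hc hnb w O hm hn).z_ph g
  exact hN.hair c d h1 h2 g (e1.symm.trans hy) (e2.symm.trans hz)

theorem HubN.no2 (hN : S.HubN hc hnb w O hm hn F) {c d : S.Q w O} (h1 : S.arQ w O c d)
    (h2 : ∀ d', S.arQ w O c d' → d' = d) {e : FL (S.k0 hc w)}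
    (he : (S.kfM hc hnb w O hm hn).Kp e) (hy : S.fq w O ((S.k0fc hc hnb w).y e) = c) :
    S.fq w O ((S.k0fc hc hnb w).x e) ≠ d := by
  have := hN.no1 h1 h2 he.v (e := (S.k0fc hc hnb w).v e)
    (by rw [(S.k0fc hc hnb w).yv]; exact hy)
  rwa [(S.k0fc hc hnb w).zv] at this

theorem HubN.no3 (hN : S.HubN hc hnb w O hm hn F) {c d : S.Q w O} (h1 : S.arQ w O c d)
    (h2 : ∀ d', S.arQ w O c d' → d' = d) {e : FL (S.k0 hc w)}
    (he : (S.kfM hc hnb w O hm hn).Kp e) (hz : S.fq w O ((S.k0fc hc hnb w).z e) = c) :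
    S.fq w O ((S.k0fc hc hnb w).y e) ≠ d := by
  have := hN.no2 h1 h2 he.r (e := (S.k0fc hc hnb w).r e) hz
  rwa [(S.k0fc hc hnb w).xr] at this

theorem HubN.no4 (hN : S.HubN hc hnb w O hm hn F) {c d : S.Q w O} (h1 : S.arQ w O c d)
    (h2 : ∀ d', S.arQ w O c d' → d' = d) {e : FL (S.k0 hc w)}
    (he : (S.kfM hc hnb w O hm hn).Kp e) (hx : S.fq w O ((S.k0fc hc hnb w).x e) = c) :
    S.fq w O ((S.k0fc hc hnb w).y e) ≠ d := by
  have := hN.no3 h1 h2 he.v (e := (S.k0fc hc hnb w).v e)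
    (by rw [(S.k0fc hc hnb w).zv]; exact hx)
  rwa [(S.k0fc hc hnb w).yv] at this

/-- a page of a simple hub in `F` which crosses the edge has only the pole `t_u` -/
theorem FO.page (h : S.FO w O F) {u : S.EV w} {q n : S.NV w} (hq : q.1 ∈ F)
    (hs : S.SD w u.1 q.1) (hnq : S.K.ar n.1 q.1) (hcn : S.Cs w u.1 n.1) :
    S.arQ w O (S.fq w O (Sum.inl n)) (S.fq w O (Sum.inr u)) ∧
      ∀ d, S.arQ w O (S.fq w O (Sum.inl n)) d → d = S.fq w O (Sum.inr u) := by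
  have k1 := arQ_up (S := S) (w := w) (O := O) (x := n.1) u.2 hcn
  rw [S.rho_near n.2] at k1
  refine ⟨k1, fun d hd => ?_⟩
  have hd1 : d ∈ S.GN w O (Sum.inl n) := arQ_fq.1 hd
  have nsk : ∀ u', ¬ S.Sk w O u' (Sum.inl n) := fun u' => Sk.not_el u.2 hcn.2
  have tm : ∀ y, ¬ S.Dn w O n.1 y := by
    rintro y ⟨u1, s, hu1, hc1, h1, h2, h3, h4, h5⟩
    obtain rfl : u1 = u.1 := ar_cs_eq hc1.1 hnq q.2 hu1 u.2 hc1.2 hcn.2
    obtain rfl : s = q.1 := ar_ar_eq hc1.1 h1 h2 hnq q.2 hu1 hc1.2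
    exact h3.1 hs
  have e0 := GN_tm (S := S) (w := w) (O := O) n.2 nsk (Tm.base n.1 tm)
  replace hd1 : d ∈ S.NS w O n.1 := (Set.ext_iff.1 e0 d).1 hd1
  have hne : S.rho w q.1 ≠ Sum.inr u := by
    rw [S.rho_near q.2]
    intro e
    cases e
  rw [NS_pair hne (sar_hor n.2 q.2 hnq) (sar_up u.2 hcn)] at hd1
  rcases hd1 with e | e
  · rw [e, S.rho_near q.2]
    exact fq_inr.2 (Sk.inl.2 ⟨hs, h.nop hq _⟩)
  · exact Set.mem_singleton_iff.1 e

/-- a hub in `F` with diamonds over two edges has one pole in the folded slice -/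
theorem FO.dqp (h : S.FO w O F) {q : S.NV w} (hq : q.1 ∈ F) (hd : ∀ u, ¬ S.SD w u q.1) :
    ∃ (a b : S.NV w) (u u' : S.EV w), S.K.ar q.1 a.1 ∧ S.K.ar q.1 b.1 ∧ a ≠ b ∧ u ≠ u' ∧
      S.Dia w u.1 q.1 ∧ S.Dia w u'.1 q.1 ∧ S.fq w O (Sum.inl a) = S.fq w O (Sum.inl b) ∧
      S.arQ w O (S.fq w O (Sum.inl q)) (S.fq w O (Sum.inl a)) ∧
      ∀ d, S.arQ w O (S.fq w O (Sum.inl q)) d → d = S.fq w O (Sum.inl a) := by
  obtain ⟨u0, h0⟩ := h.two q.1 hq
  have : ∃ u1, S.Dia w u1 q.1 ∧ u1 ≠ u0 := by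
    by_contra hcon
    push Not at hcon
    exact hd u0 ⟨h0, hcon⟩
  obtain ⟨u1, h1, hne⟩ := this
  obtain ⟨hw, a, b, hab, ha, hb, hG⟩ := id h0
  have ca := h0.two ha
  have cb := h0.two hb
  have ca' := h1.two ha
  have e1 := hG.fq (O := O) (hd u0) (h.nop hq u0)
  rw [S.rho_near ca.2.1, S.rho_near cb.2.1] at e1
  have nsk : ∀ u', ¬ S.Sk w O u' (Sum.inl q) := fun u' k => hd u'.1 (Sk.inl.1 k).1
  have tm : ∀ y, ¬ S.Dn w O q.1 y := by
    rintro y ⟨u2, s, hu2, hc2, -⟩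
    exact h.ncs hq hu2 hc2.2
  refine ⟨⟨a, ca.2.1⟩, ⟨b, cb.2.1⟩, ⟨u0, ca.1⟩, ⟨u1, ca'.1⟩, ha, hb,
    fun e => hab (congrArg Subtype.val e), fun e => hne (congrArg Subtype.val e).symm, h0, h1,
    e1, ?_, ?_⟩
  · have := arQ_term (O := O) q.2 nsk tm (sar_hor q.2 ca.2.1 ha)
    rwa [S.rho_near q.2, S.rho_near ca.2.1] at this
  · intro d hd'
    have hd1 : d ∈ S.GN w O (Sum.inl q) := arQ_fq.1 hd'
    have e0 := GN_tm (S := S) (w := w) (O := O) q.2 nsk (Tm.base q.1 tm)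
    replace hd1 : d ∈ S.NS w O q.1 := (Set.ext_iff.1 e0 d).1 hd1
    have hne' : S.rho w a ≠ S.rho w b := by
      rw [S.rho_near ca.2.1, S.rho_near cb.2.1]
      exact fun e => hab (congrArg Subtype.val (Sum.inl.inj e))
    rw [NS_pair hne' (sar_hor q.2 ca.2.1 ha) (sar_hor q.2 cb.2.1 hb)] at hd1
    rcases hd1 with e | e
    · rw [e, S.rho_near ca.2.1]
    · rw [Set.mem_singleton_iff.1 e, S.rho_near cb.2.1, e1]

/-- NO KEPT CELL AT A DOUBLE HUB OF `F` -/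
theorem HubN.dq (h : S.FO w O F) (hk : S.KSq w O F) (hN : S.HubN hc hnb w O hm hn F)
    {q : S.NV w} {e : FL (S.k0 hc w)} (hq : q.1 ∈ F) (hd : ∀ u, ¬ S.SD w u q.1)
    (he : (S.kfM hc hnb w O hm hn).Kp e) : (S.k0fc hc hnb w).y e ≠ Sum.inl q := by
  intro hy
  obtain ⟨a, b, u, u', ha, hb, -, -, -, -, -, k1, k2⟩ := h.dqp hq hd
  have hyc : ∀ {f : FL (S.k0 hc w)}, (S.k0fc hc hnb w).y f = Sum.inl q →
      S.fq w O ((S.k0fc hc hnb w).y f) = S.fq w O (Sum.inl q) := fun k => by rw [k]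
  -- corners at `q`
  have cor : ∀ m m', (S.k0 hc w).Cor m (Sum.inl q) m' →
      (S.fq w O m = S.fq w O (Sum.inl a) ↔ S.fq w O m' = S.fq w O (Sum.inl a)) := by
    intro m m' hco
    obtain ⟨f, f1, f2, f3⟩ := ((S.k0P hc w).fc_Co (S.k0P_nd hc hnb w)).2 hco
    have g1 : (S.k0fc hc hnb w).x f = m := f1
    have g2 : (S.k0fc hc hnb w).y f = Sum.inl q := f2
    have g3 : (S.k0fc hc hnb w).z f = m' := f3
    by_cases hf : (S.kfM hc hnb w O hm hn).Kp f
    · have l1 := hN.no1 k1 k2 hf (hyc g2)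
      have l2 := hN.no2 k1 k2 hf (hyc g2)
      rw [g3] at l1
      rw [g1] at l2
      exact ⟨fun k => absurd k l2, fun k => absurd k l1⟩
    · obtain ⟨v, q', x, x', hs, hne, hdt, hp⟩ := h.drop hk hf
      rcases hp with ⟨p1, p2, p3⟩ | ⟨p1, p2, p3⟩ | ⟨p1, p2, p3⟩ | p1
      · have hw : w ∈ S.J q' := by
          by_contra hw
          rw [g2, S.rho_far hw] at p1
          cases p1
        have e1 : q.1 = q' := by
          rw [g2, S.rho_near hw] at p1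
          exact congrArg Subtype.val (Sum.inl.inj p1)
        subst e1
        have := (FR.mer v.1 q.1 ⟨x, hs.l.1⟩ ⟨x', hs.r.1⟩ hs (hd v.1) (h.nop hq v.1)).fq (O := O)
        rw [← g1, ← g3, p2, p3, S.rho_near hs.l.1, S.rho_near hs.r.1, this]
      · exfalso
        rw [g2, S.rho_near hs.l.1] at p1
        have e1 : q.1 = x := congrArg Subtype.val (Sum.inl.inj p1)
        rw [e1] at hq
        exact h.ncs hq v.2 hs.l.2
      · exfalso
        rw [g2, S.rho_near hs.l.1] at p1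
        have e1 : q.1 = x := congrArg Subtype.val (Sum.inl.inj p1)
        rw [e1] at hq
        exact h.ncs hq v.2 hs.l.2
      · rw [g2] at p1
        cases p1
  have lj : ∀ m m', (S.k0 hc w).LJ (Sum.inl q) m m' →
      (S.fq w O m = S.fq w O (Sum.inl a) ↔ S.fq w O m' = S.fq w O (Sum.inl a)) := by
    intro m m' hlj
    induction hlj with
    | rel m m' hco => exact cor m m' hco
    | refl m => exact Iff.rfl
    | symm m m' _ ih => exact ih.symm
    | trans m m' m'' _ _ i1 i2 => exact i1.trans i2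
  have hE : (S.k0 hc w).E (Sum.inl q) ((S.k0fc hc hnb w).z e) := by
    have := (S.k0fc hc hnb w).Ez e
    rwa [hy] at this
  have hEa : (S.k0 hc w).E (Sum.inl q) (Sum.inl a) := Or.inl (SAr.hor (S := S) q a ha)
  exact hN.no1 k1 k2 he (hyc hy) ((lj _ _ (hN.lc q hq _ _ hE hEa)).2 rfl)

theorem KSq.kp {hF : ∀ g : H, g • w = w → ∀ q ∈ F, g • q ∈ F} (h : S.FO w (S.opF w F hF) F)
    (hk : S.KSq w (S.opF w F hF) F) : S.KpF w F hF where
  two := h.two
  hub u q a b hw hq ha hb hab hs := hk.pp u q a b hw hq hs hab ha hb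
  loc a q b y hQ h4 hab _ := hk.ni a q b y hQ h4 hab

theorem no_ar_both {a b : S.SV w} (h : S.SAr w a b) (h' : S.SAr w b a) : False := by
  have h1 := rkS_lt h
  have h2 := rkS_lt h'
  omega

/-- THE FLAGS FROM A PAGE of a simple hub of `F`: they are dropped and over the edge of the diamond -/
theorem HubN.pg (h : S.FO w O F) (hk : S.KSq w O F) (hN : S.HubN hc hnb w O hm hn F)
    {u : S.EV w} {q n : S.NV w} (hq : q.1 ∈ F) (hs : S.SD w u.1 q.1) (hnq : S.K.ar n.1 q.1)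
    (hcn : S.Cs w u.1 n.1) {e : FL (S.k0 hc w)} (hx : (S.k0fc hc hnb w).x e = Sum.inl n)
    (hy : (S.k0fc hc hnb w).y e = Sum.inl q) :
    ¬ (S.kfM hc hnb w O hm hn).Kp e ∧
      (S.k0fc hc hnb w).z ((S.k0fc hc hnb w).r e) = Sum.inr u ∧
      ∃ x' : S.NV w, (S.k0fc hc hnb w).z e = Sum.inl x' ∧ S.Cs w u.1 x'.1 := by
  obtain ⟨k1, k2⟩ := h.page hq hs hnq hcn
  have hnk : ¬ (S.kfM hc hnb w O hm hn).Kp e := by
    intro he
    refine hN.no4 k1 k2 he (by rw [hx]) ?_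
    rw [hy]
    exact fq_inr.2 (Sk.inl.2 ⟨hs, h.nop hq _⟩)
  refine ⟨hnk, ?_⟩
  obtain ⟨hF, rfl⟩ := h.eqF
  rcases (hk.kp h).drop_fl hnk with ⟨v, c⟩ | ⟨q', x, x', v, c1, c2, c3, c4, c5, c6, c7⟩ |
    ⟨q', x, x', v, c1, c2, c3, c4, c5, c6, c7, c8, c9⟩ | ⟨c1, c2⟩ |
    ⟨q', a, x, v, c1, c2, c3, c4, c5, c6, c7, c8⟩ | ⟨q', a, x, v, c1, c2, c3, c4, c5, c6, c7, c8⟩
  · rw [hy] at c
    cases c
  · rw [hy] at c5
    obtain rfl := Sum.inl.inj c5
    rw [hx] at c4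
    obtain rfl := Sum.inl.inj c4
    have e1 : u.1 = v.1 := ar_cs_eq n.2 hnq q.2 u.2 v.2 hcn.2 c2.l.2
    have e2 : u = v := Subtype.ext e1
    subst e2
    exact ⟨c7, x', c6, c2.r⟩
  · exfalso
    rw [hy] at c7
    obtain rfl := Sum.inl.inj c7
    exact c1 hq
  · exfalso
    rw [hx, hy] at c1
    exact no_ar_both c1 (SAr.hor (S := S) n q hnq)
  · exfalso
    rw [hx] at c5
    obtain rfl := Sum.inl.inj c5
    exact h.ncs c1 u.2 hcn.2
  · exfalso
    rw [hx] at c7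
    cases c7

/-- the pages of a simple hub are only connected with pages -/
theorem HubN.pgs (h : S.FO w O F) (hk : S.KSq w O F) (hN : S.HubN hc hnb w O hm hn F)
    {u : S.EV w} {q : S.NV w} (hq : q.1 ∈ F) (hs : S.SD w u.1 q.1) {a b : S.SV w}
    (hi : (S.k0fc hc hnb w).IJ (Sum.inl q) a b) :
    (∃ n : S.NV w, a = Sum.inl n ∧ S.K.ar n.1 q.1 ∧ S.Cs w u.1 n.1) ↔
      ∃ n : S.NV w, b = Sum.inl n ∧ S.K.ar n.1 q.1 ∧ S.Cs w u.1 n.1 := by
  have key : ∀ a b, (S.k0fc hc hnb w).IC (Sum.inl q) a b →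
      (∃ n : S.NV w, a = Sum.inl n ∧ S.K.ar n.1 q.1 ∧ S.Cs w u.1 n.1) →
      ∃ n : S.NV w, b = Sum.inl n ∧ S.K.ar n.1 q.1 ∧ S.Cs w u.1 n.1 := by
    rintro _ b ⟨⟨e, h1, h2, h3⟩, -, h5⟩ ⟨n, rfl, h6, h7⟩
    obtain ⟨-, -, x', k1, k2⟩ := hN.pg h hk hq hs h6 h7 h1 h2
    rw [h3] at k1
    have h5' : S.SAr w b (Sum.inl q) := h5
    rw [k1] at h5'
    cases h5' with
    | hor _ _ k => exact ⟨x', k1, k, k2⟩
  induction hi with
  | rel a b hi => exact ⟨key a b hi, key b a hi.symm'⟩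
  | refl a => exact Iff.rfl
  | symm a b _ ih => exact ih.symm
  | trans a b c _ _ i1 i2 => exact i1.trans i2

/-- a dropped strand at a folded hub: its zero square -/
theorem FO.st (h : S.FO w O F) (hk : S.KSq w O F) {q : S.NV w} (hq : q.1 ∈ F)
    {e : FL (S.k0 hc w)} (he : ¬ (S.kfM hc hnb w O hm hn).Kp e)
    (hy : (S.k0fc hc hnb w).y e = Sum.inl q)
    (hor : ¬ (S.SAr w ((S.k0fc hc hnb w).y e) ((S.k0fc hc hnb w).x e) ∧
      S.SAr w ((S.k0fc hc hnb w).y e) ((S.k0fc hc hnb w).z e))) :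
    ∃ (x x' : S.NV w) (u : S.EV w), S.Qs w u.1 q.1 x.1 x'.1 ∧ x ≠ x' ∧
      (S.k0fc hc hnb w).x e = Sum.inl x ∧ (S.k0fc hc hnb w).z e = Sum.inl x' ∧
      (S.k0fc hc hnb w).z ((S.k0fc hc hnb w).r e) = Sum.inr u := by
  obtain ⟨hF, rfl⟩ := h.eqF
  rcases (hk.kp h).drop_fl he with ⟨v, c⟩ | ⟨q', x, x', v, c1, c2, c3, c4, c5, c6, c7⟩ |
    ⟨q', x, x', v, c1, c2, c3, c4, c5, c6, c7, c8, c9⟩ | c |
    ⟨q', a, x, v, c1, c2, c3, c4, c5, c6, c7, c8⟩ | ⟨q', a, x, v, c1, c2, c3, c4, c5, c6, c7, c8⟩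
  · rw [hy] at c
    cases c
  · rw [hy] at c5
    obtain rfl := Sum.inl.inj c5
    exact ⟨x, x', v, c2, c3, c4, c6, c7⟩
  · exfalso
    rw [hy] at c7
    obtain rfl := Sum.inl.inj c7
    exact c1 hq
  · exact absurd c hor
  · exfalso
    rw [hy] at c6
    obtain rfl := Sum.inl.inj c6
    exact h.ncs hq v.2 c3.r.2
  · exfalso
    rw [hy] at c6
    obtain rfl := Sum.inl.inj c6
    exact h.ncs hq v.2 c3.r.2

/-- the edge of a zero square at a pole of a double hub -/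
theorem dq_edge {q a : V} {u u' v : S.X} (hu : S.Dia w u q) (hu' : S.Dia w u' q) (hne : u ≠ u')
    (ha : S.K.ar q a) (hv : S.D.G.Adj w v) (hc : S.Cs w v a) : v = u ∨ v = u' := by
  have c1 := hu.two ha
  have c2 := hu'.two ha
  rcases SAr.two _ _ _ _ (sar_up hv hc) (sar_up c1.1 c1.2) (sar_up c2.1 c2.2) with e | e | e
  · exact Or.inl (congrArg Subtype.val (Sum.inr.inj e))
  · exact absurd (congrArg Subtype.val (Sum.inr.inj e)) hne
  · exact Or.inr (congrArg Subtype.val (Sum.inr.inj e))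

/-- STRANDS AT A FOLDED HUB with the same pole and the same piece are one orbit -/
theorem HubN.hub (h : S.FO w O F) (hk : S.KSq w O F) (hN : S.HubN hc hnb w O hm hn F)
    {q : S.NV w} {e e' : FL (S.k0 hc w)} (hq : q.1 ∈ F) (he : e ∈ (S.k0fc hc hnb w).strs)
    (he' : e' ∈ (S.k0fc hc hnb w).strs) (hy : (S.k0fc hc hnb w).y e = Sum.inl q)
    (hy' : (S.k0fc hc hnb w).y e' = Sum.inl q)
    (hz : (S.k0fc hc hnb w).z e = (S.k0fc hc hnb w).z e')
    (hi : (S.k0fc hc hnb w).IJ (Sum.inl q) ((S.k0fc hc hnb w).x e) ((S.k0fc hc hnb w).x e')) :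
    ∃ g : ↥(stabilizer H w), g • e = e' := by
  -- it is enough to compare the rotated flags
  suffices hs : ∃ g : ↥(stabilizer H w), g • (S.k0fc hc hnb w).r e = (S.k0fc hc hnb w).r e' by
    obtain ⟨g, hg⟩ := hs
    exact ⟨g, (S.k0fc hc hnb w).r_inj (by rw [FC.r_smul, hg])⟩
  have rx : (S.k0fc hc hnb w).x ((S.k0fc hc hnb w).r e) = Sum.inl q :=
    ((S.k0fc hc hnb w).xr e).trans hy
  have rx' : (S.k0fc hc hnb w).x ((S.k0fc hc hnb w).r e') = Sum.inl q :=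
    ((S.k0fc hc hnb w).xr e').trans hy'
  have ry : (S.k0fc hc hnb w).y ((S.k0fc hc hnb w).r e) =
    (S.k0fc hc hnb w).y ((S.k0fc hc hnb w).r e') := hz
  have ra : S.SAr w ((S.k0fc hc hnb w).x ((S.k0fc hc hnb w).r e))
      ((S.k0fc hc hnb w).y ((S.k0fc hc hnb w).r e)) := by
    rw [rx, ← hy]
    exact he.2
  have nor : ∀ {f : FL (S.k0 hc w)}, f ∈ (S.k0fc hc hnb w).strs →
      ¬ (S.SAr w ((S.k0fc hc hnb w).y f) ((S.k0fc hc hnb w).x f) ∧
      S.SAr w ((S.k0fc hc hnb w).y f) ((S.k0fc hc hnb w).z f)) :=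
    fun hf k => no_ar_both hf.1 k.1
  have narx : ∀ {f : FL (S.k0 hc w)}, f ∈ (S.k0fc hc hnb w).strs →
      (S.k0fc hc hnb w).y f = Sum.inl q → ∀ x : S.NV w, (S.k0fc hc hnb w).x f = Sum.inl x →
      S.K.ar x.1 q.1 := by
    intro f hf hyf x hxf
    have k : S.SAr w ((S.k0fc hc hnb w).x f) ((S.k0fc hc hnb w).y f) := hf.1
    rw [hyf, hxf] at k
    cases k with
    | hor _ _ k => exact k
  by_cases hsd : ∃ u0, S.SD w u0 q.1
  · obtain ⟨u0, hsd⟩ := hsd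
    obtain ⟨hw, a0, b0, -, ha0, -, -⟩ := id hsd.1
    have hu0 := (hsd.1.two ha0).1
    -- far strands start at pages
    have far : ∀ {f : FL (S.k0 hc w)}, f ∈ (S.k0fc hc hnb w).strs →
        (S.k0fc hc hnb w).y f = Sum.inl q →
        ((S.k0fc hc hnb w).z ((S.k0fc hc hnb w).r f) = Sum.inr ⟨u0, hu0⟩ ↔
          ∃ n : S.NV w, (S.k0fc hc hnb w).x f = Sum.inl n ∧ S.K.ar n.1 q.1 ∧ S.Cs w u0 n.1) := by
      intro f hf hyf
      constructor
      · intro hz'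
        have hnk : ¬ (S.kfM hc hnb w O hm hn).Kp f := by
          intro kp
          have := S.kp_nb kp.r
          rw [(S.k0fc hc hnb w).xr, hyf, hz'] at this
          exact this (fq_inr.2 (Sk.inl.2 ⟨hsd, h.nop hq _⟩))
        obtain ⟨x, x', v, c1, c2, c3, c4, c5⟩ := h.st hk hq hnk hyf (nor hf)
        rw [hz'] at c5
        obtain rfl := Sum.inr.inj c5
        exact ⟨x, c3, narx hf hyf x c3, c1.l⟩
      · rintro ⟨n, k1, k2, k3⟩
        exact (hN.pg h hk (u := ⟨u0, hu0⟩) hq hsd k2 k3 k1 hyf).2.1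
    have hfar : (S.k0fc hc hnb w).z ((S.k0fc hc hnb w).r e) = Sum.inr ⟨u0, hu0⟩ ↔
        (S.k0fc hc hnb w).z ((S.k0fc hc hnb w).r e') = Sum.inr ⟨u0, hu0⟩ := by
      rw [far he hy, far he' hy']
      exact hN.pgs h hk (u := ⟨u0, hu0⟩) hq hsd hi
    by_cases hf : (S.k0fc hc hnb w).z ((S.k0fc hc hnb w).r e) = Sum.inr ⟨u0, hu0⟩
    · exact hN.far ⟨u0, hu0⟩ q _ _ hq hsd.1 rx rx' ry ra hf (hfar.1 hf)
    · exact hN.near ⟨u0, hu0⟩ q _ _ hq hsd rx rx' ry ra hf (fun k => hf (hfar.2 k))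
  · push Not at hsd
    obtain ⟨a, b, u, u', ha, hb, -, hne, hD, hD', -, -, -⟩ := h.dqp hq hsd
    have hne' : u.1 ≠ u'.1 := fun k => hne (Subtype.ext k)
    have nk : ∀ {f : FL (S.k0 hc w)}, (S.k0fc hc hnb w).y f = Sum.inl q →
        ¬ (S.kfM hc hnb w O hm hn).Kp f := fun hyf kp => hN.dq h hk hq hsd kp hyf
    obtain ⟨x, p, v, c1, c2, c3, c4, c5⟩ := h.st hk hq (nk hy) hy (nor he)
    obtain ⟨x', p', v', d1, d2, d3, d4, d5⟩ := h.st hk hq (nk hy') hy' (nor he')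
    -- the edge is the same along the piece
    have key : ∀ a b, (S.k0fc hc hnb w).IC (Sum.inl q) a b →
        (∃ n : S.NV w, a = Sum.inl n ∧ S.K.ar n.1 q.1 ∧ S.Cs w v.1 n.1) →
        ∃ n : S.NV w, b = Sum.inl n ∧ S.K.ar n.1 q.1 ∧ S.Cs w v.1 n.1 := by
      rintro _ b ⟨⟨f, h1, h2, h3⟩, -, h5⟩ ⟨n, rfl, h6, h7⟩
      have hnor : ¬ (S.SAr w ((S.k0fc hc hnb w).y f) ((S.k0fc hc hnb w).x f) ∧
          S.SAr w ((S.k0fc hc hnb w).y f) ((S.k0fc hc hnb w).z f)) := by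
        rintro ⟨k, -⟩
        rw [h1, h2] at k
        exact no_ar_both k (SAr.hor (S := S) n q h6)
      obtain ⟨y, y', v1, l1, l2, l3, l4, l5⟩ := h.st hk hq (nk h2) h2 hnor
      rw [h1] at l3
      obtain rfl := Sum.inl.inj l3
      have e1 : v.1 = v1.1 := ar_cs_eq n.2 h6 q.2 v.2 v1.2 h7.2 l1.l.2
      have h5' : S.SAr w b (Sum.inl q) := h5
      rw [h3] at l4
      rw [l4] at h5'
      cases h5' with
      | hor _ _ k =>
        refine ⟨y', l4, k, ?_⟩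
        rw [e1]
        exact l1.r
    have hcr : ∀ a b, (S.k0fc hc hnb w).IJ (Sum.inl q) a b →
        ((∃ n : S.NV w, a = Sum.inl n ∧ S.K.ar n.1 q.1 ∧ S.Cs w v.1 n.1) ↔
        ∃ n : S.NV w, b = Sum.inl n ∧ S.K.ar n.1 q.1 ∧ S.Cs w v.1 n.1) := by
      intro a b hi
      induction hi with
      | rel a b hi => exact ⟨key a b hi, key b a hi.symm'⟩
      | refl a => exact Iff.rfl
      | symm a b _ ih => exact ih.symm
      | trans a b c _ _ i1 i2 => exact i1.trans i2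
    obtain ⟨n, n1, n2, n3⟩ := (hcr _ _ hi).1 ⟨x, c3, narx he hy x c3, c1.l⟩
    rw [d3] at n1
    obtain rfl := Sum.inl.inj n1
    have ev : v = v' := Subtype.ext (ar_cs_eq x'.2 n2 q.2 v.2 v'.2 n3.2 d1.l.2)
    subst ev
    have hp : S.K.ar q.1 p.1 := by
      have k : S.SAr w ((S.k0fc hc hnb w).y e) ((S.k0fc hc hnb w).z e) := he.2
      rw [hy, c4] at k
      cases k with
      | hor _ _ k => exact k
    have hDv : S.Dia w v.1 q.1 := by
      rcases dq_edge hD hD' hne' hp v.2 c1.r with k | k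
      · rw [k]
        exact hD
      · rw [k]
        exact hD'
    exact hN.far v q _ _ hq hDv rx rx' ry ra c5 d5

/-- NATURAL FACTS GIVE THIN HUBS -/
theorem HubN.thin (h : S.FO w O F) (hk : S.KSq w O F) (hN : S.HubN hc hnb w O hm hn F) :
    S.ThinF hc hnb w O hm hn F where
  own := by
    intro q e e' hq he he' hx hx' hy har hz
    have key : ∃ (a x : S.NV w) (u : S.EV w), S.K.ar q.1 a.1 ∧ S.Qs w u.1 q.1 x.1 a.1 ∧
        (S.k0fc hc hnb w).y e = Sum.inl a ∧ (S.k0fc hc hnb w).z e = Sum.inr u := by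
      obtain ⟨hF, rfl⟩ := h.eqF
      rcases (hk.kp h).drop_fl he with ⟨v, c⟩ | ⟨q', x, x', v, c1, c2, c3, c4, c5, c6, c7⟩ |
        ⟨q', x, x', v, c1, c2, c3, c4, c5, c6, c7, c8, c9⟩ | ⟨c1, c2⟩ |
        ⟨q', a, x, v, c1, c2, c3, c4, c5, c6, c7, c8⟩ |
        ⟨q', a, x, v, c1, c2, c3, c4, c5, c6, c7, c8⟩
      · exfalso
        rw [hx, c] at har
        cases har with
        | up _ _ k => exact h.ncs hq v.2 k
      · exfalso
        rw [hx] at c4
        obtain rfl := Sum.inl.inj c4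
        exact h.ncs hq v.2 c2.l.2
      · exfalso
        rw [hx] at c6
        obtain rfl := Sum.inl.inj c6
        exact h.ncs hq v.2 c2.l.2
      · exact (no_ar_both c1 har).elim
      · rw [hx] at c5
        obtain rfl := Sum.inl.inj c5
        exact ⟨a, x, v, c2, c3, c6, c7⟩
      · exfalso
        rw [hx] at c7
        cases c7
    obtain ⟨a, x, u, k1, k2, k3, k4⟩ := key
    have k4' := hz.symm.trans k4
    by_cases hsd : ∃ u0, S.SD w u0 q.1
    · obtain ⟨u0, hsd⟩ := hsd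
      have hu0 := (hsd.1.two k1).1
      by_cases hu : u.1 = u0
      · subst hu
        exact hN.far u q e e' hq hsd.1 hx hx' hy har k4 k4'
      · refine hN.near ⟨u0, hu0⟩ q e e' hq hsd hx hx' hy har ?_ ?_
        · rw [k4]
          exact fun k => hu (congrArg Subtype.val (Sum.inr.inj k))
        · rw [k4']
          exact fun k => hu (congrArg Subtype.val (Sum.inr.inj k))
    · push Not at hsd
      obtain ⟨-, -, v, v', -, -, -, hne, hD, hD', -, -, -⟩ := h.dqp hq hsd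
      have hDu : S.Dia w u.1 q.1 := by
        rcases dq_edge hD hD' (fun k => hne (Subtype.ext k)) k1 u.2 k2.r with k | k
        · rw [k]
          exact hD
        · rw [k]
          exact hD'
      exact hN.far u q e e' hq hDu hx hx' hy har k4 k4'
  oth := by
    intro u q e e' hq hs he hx hx' hy har hz
    refine hN.near u q e e' hq hs hx hx' hy har ?_ hz
    intro k
    have := S.kp_nb he
    rw [hx, k] at this
    exact this (fq_inr.2 (Sk.inl.2 ⟨hs, h.nop hq _⟩))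
  hub q e e' hq he he' hy hy' hz hi := hN.hub h hk hq he he' hy hy' hz hi
  dq q e hq hd he := hN.dq h hk hq hd he
  pj := by
    intro u q e d hq hs he hx har hd hdu
    by_contra hne
    rw [hx] at har
    obtain ⟨a, hya, haq⟩ : ∃ a : S.NV w, (S.k0fc hc hnb w).y e = Sum.inl a ∧ S.K.ar q.1 a.1 := by
      generalize hY : (S.k0fc hc hnb w).y e = Y at har
      cases har with
      | hor _ a k => exact ⟨a, rfl, k⟩
      | up _ v k => exact absurd k (h.ncs hq v.2)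
    have hca := hs.1.two haq
    rw [hya] at hd
    rcases d with q' | v
    · obtain ⟨k1, k2⟩ := Sk.inl.1 (fq_inr.1 hdu)
      have hq' : q'.1 ∈ F := h.of_nop q'.2 k2
      have haq' : S.K.ar a.1 q'.1 := by
        cases hd with
        | hor _ _ k => exact k
      obtain ⟨l1, l2⟩ := h.page hq' k1 haq' hca.2
      refine hN.no2 l1 l2 he (by rw [hya]) ?_
      rw [hx]
      exact fq_inr.2 (Sk.inl.2 ⟨hs, h.nop hq _⟩)
    · exact hne (congrArg Sum.inr (Sk.inr.1 (fq_inr.1 hdu)))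

end

end SyQ

end Pool.Agent.DI
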