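import Pool.Agent.DI.KXd
import Pool.Agent.DI.PhL

/-!
# The fold law when only bare vertices are folded

`S.BareF w F`: the vertices `q ∈ F` are over two edges of diamonds, they have no in-arrow, all cells at `q` are
squares `(a, T, b, q)` (`Ewk`), one orbit in each direction. `S.Dz w F`: the corners `T, b, q` of the
flipped squares. THEOREM `BareF.exc_le : (k0).pexc ≤ (kf).pexc + oc H (S.Dz F)`.
-/

namespace Pool.Agent.DI

open MulAction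
open Pool.Agent.SAF (InC orbs FinOrb oc Conv exists_next)
open Pool.Agent.BT (PX PQ JS bey exits)
open Pool.Agent.BT.TA

namespace SyQ

variable {H V : Type} [Group H] [MulAction H V] {S : SyQ H V}

/-- the vertices folded -/
structure BareF (S : SyQ H V) (w : S.X) (F : Set V) : Prop where
  dq : ∀ q ∈ F, ∃ u u', S.Dia w u q ∧ S.Dia w u' q ∧ u ≠ u'
  nin : ∀ q ∈ F, ∀ n, ¬ S.K.ar n q
  ewk : ∀ q ∈ F, ∀ e : S.K.LE, S.K.c0 e = q → S.Ewk e.1.1 ∧ e.1.2.1 = 3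
  uni : ∀ q ∈ F, ∀ e e' : S.K.LE, S.K.c0 e = q → S.K.c0 e' = q →
    S.rho w (S.K.c2 e) = S.rho w (S.K.c2 e') → e.1 = e'.1 ∧ S.K.c2 e = S.K.c2 e'

/-- the corners `(T, b, v)` of the flipped squares with `v ∈ F` -/
def Dz (S : SyQ H V) (F : Set V) : Set S.K.LE :=
  {e | S.Ewk e.1.1 ∧ S.Flp e.1.1 ∧ e.1.2.1 = 1 ∧ ∃ g : H, g • S.K.c2 e ∈ F}

/-- a vertex which crosses nothing is over one point -/
theorem Dia.J1 {w u : S.X} {q : V} (h : S.Dia w u q) : S.J q = {w} := by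
  ext p
  rw [Set.mem_singleton_iff]
  constructor
  · intro hp
    by_contra hne
    obtain ⟨u', hu, e⟩ := exists_next S.D.tree (Ne.symm hne)
    have hb : p ∈ bey S.D.G w u' := by
      show S.D.G.dist p w = S.D.G.dist p u' + 1
      rw [SimpleGraph.dist_comm, e, SimpleGraph.dist_comm]
    exact h.not_cs hu (conv_cr S.D.tree (S.js.conv q) hu h.1 hp (bey_self hu.symm) hb).2
  · rintro rfl
    exact h.1

/-- the shifted corner -/
theorem pos_c0 (e : S.K.LE) (m : ℕ) : ∃ e' : S.K.LE, e'.1.1 = e.1.1 ∧ e'.2 = e.2 ∧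
    e'.1.2.1 = (e.1.2.1 + m) % S.K.len e.1.1 ∧
    S.K.c0 e' = e.2 • S.K.vx e.1.1 (e.1.2.1 + m) ∧
    S.K.c1 e' = e.2 • S.K.vx e.1.1 (e.1.2.1 + m + 1) ∧
    S.K.c2 e' = e.2 • S.K.vx e.1.1 (e.1.2.1 + m + 2) := by
  obtain ⟨⟨i, k⟩, g⟩ := e
  have hl : 0 < S.K.len i := lt_of_le_of_lt (Nat.zero_le _) k.2
  refine ⟨(⟨i, ⟨(k.1 + m) % S.K.len i, Nat.mod_lt _ hl⟩⟩, g), rfl, rfl, rfl, ?_, ?_, ?_⟩
  · show g • S.K.vx i ((k.1 + m) % S.K.len i) = _
    rw [S.K.vx_mod]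
  · show g • S.K.vx i ((k.1 + m) % S.K.len i + 1) = g • S.K.vx i (k.1 + m + 1)
    rw [← S.K.vx_mod i (k.1 + m + 1), ← S.K.vx_mod i ((k.1 + m) % S.K.len i + 1)]
    congr 2
    rw [Nat.mod_add_mod]
  · show g • S.K.vx i ((k.1 + m) % S.K.len i + 2) = g • S.K.vx i (k.1 + m + 2)
    rw [← S.K.vx_mod i (k.1 + m + 2), ← S.K.vx_mod i ((k.1 + m) % S.K.len i + 2)]
    congr 2
    rw [Nat.mod_add_mod]

namespace BareF

variable {w : S.X} {F : Set V} (hF : S.BareF w F)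
include hF

theorem J1 {q : V} (hq : q ∈ F) : S.J q = {w} := by
  obtain ⟨u, u', h, -⟩ := hF.dq q hq
  exact h.J1

theorem nsd {q : V} (hq : q ∈ F) (u : S.X) : ¬ S.SD w u q := by
  rintro ⟨-, h⟩
  obtain ⟨u1, u2, h1, h2, hne⟩ := hF.dq q hq
  exact hne ((h u1 h1).trans (h u2 h2).symm)

theorem stab {q q' : V} (hq : q ∈ F) (hq' : q' ∈ F) {g : H} (hg : g • q = q') : g • w = w := by
  have h1 : g • w ∈ S.J (g • q) := S.js.smul g _ _ (by rw [hF.J1 hq]; rfl)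
  rw [hg, hF.J1 hq'] at h1
  exact h1

/-- a corner which starts at `q` -/
theorem c0 {q : V} (hq : q ∈ F) {e : S.K.LE} (h : S.K.c0 e = q) :
    S.Ewk e.1.1 ∧ e.1.2.1 = 3 ∧ e.2 • S.P.qt e.1.1 3 = q ∧ S.K.c1 e = e.2 • S.P.qt e.1.1 0 ∧
      S.K.c2 e = e.2 • S.P.qt e.1.1 1 := by
  obtain ⟨h1, h2⟩ := hF.ewk q hq e h
  obtain ⟨⟨i, k⟩, g⟩ := e
  have h1 : S.Ewk i := h1
  have h2 : k.1 = 3 := h2
  have k0 : S.K.c0 ((⟨i, k⟩, g) : S.K.LE) = g • S.P.qt i 3 := by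
    show g • S.K.vx i k.1 = _
    rw [h2, Phm.vx h1.sq 3 3 rfl]
  have k1 : S.K.c1 ((⟨i, k⟩, g) : S.K.LE) = g • S.P.qt i 0 := by
    show g • S.K.vx i (k.1 + 1) = _
    rw [h2, Phm.vx h1.sq 4 0 rfl]
  have k2 : S.K.c2 ((⟨i, k⟩, g) : S.K.LE) = g • S.P.qt i 1 := by
    show g • S.K.vx i (k.1 + 2) = _
    rw [h2, Phm.vx h1.sq 5 1 rfl]
  exact ⟨h1, h2, k0.symm.trans h, k1, k2⟩

/-- the corner of the same cell which starts at `q` -/
theorem pos {q : V} (hq : q ∈ F) {e : S.K.LE} {m : ℕ}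
    (h : e.2 • S.K.vx e.1.1 (e.1.2.1 + m) = q) : S.Ewk e.1.1 ∧ (e.1.2.1 + m) % 4 = 3 ∧
      e.2 • S.P.qt e.1.1 3 = q := by
  obtain ⟨e', h1, h2, h3, h4, h5, h6⟩ := S.pos_c0 e m
  obtain ⟨k1, k2, k3, -⟩ := hF.c0 hq (h4.trans h)
  rw [h1] at k1 k3
  rw [h2] at k3
  refine ⟨k1, ?_, k3⟩
  have hl := S.P.len4 k1.sq
  rw [h3] at k2
  generalize e.1.2.1 + m = n at k2 ⊢
  generalize S.K.len e.1.1 = l at k2 hl
  subst hl
  exact k2

/-- a corner which ends at `q` -/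
theorem c2 {q : V} (hq : q ∈ F) {e : S.K.LE} (h : S.K.c2 e = q) :
    S.Ewk e.1.1 ∧ e.1.2.1 = 1 ∧ e.2 • S.P.qt e.1.1 3 = q ∧ S.K.c1 e = e.2 • S.P.qt e.1.1 2 ∧
      S.K.c0 e = e.2 • S.P.qt e.1.1 1 := by
  obtain ⟨k1, k2, k3⟩ := hF.pos hq (e := e) (m := 2) h
  obtain ⟨⟨i, k⟩, g⟩ := e
  have k1 : S.Ewk i := k1
  have k2 : (k.1 + 2) % 4 = 3 := k2
  have hl : k.1 < 4 := lt_of_lt_of_eq k.2 (S.P.len4 k1.sq)
  have h2 : k.1 = 1 := by omega
  refine ⟨k1, h2, k3, ?_, ?_⟩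
  · show g • S.K.vx i (k.1 + 1) = _
    rw [h2, Phm.vx k1.sq 2 2 rfl]
  · show g • S.K.vx i k.1 = _
    rw [h2, Phm.vx k1.sq 1 1 rfl]

/-- a corner at `q` -/
theorem c1 {q : V} (hq : q ∈ F) {e : S.K.LE} (h : S.K.c1 e = q) :
    S.Ewk e.1.1 ∧ e.2 • S.P.qt e.1.1 3 = q ∧ S.K.c0 e = e.2 • S.P.qt e.1.1 2 ∧
      S.K.c2 e = e.2 • S.P.qt e.1.1 0 := by
  obtain ⟨k1, k2, k3⟩ := hF.pos hq (e := e) (m := 1) h
  obtain ⟨⟨i, k⟩, g⟩ := e
  have k1 : S.Ewk i := k1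
  have k2 : (k.1 + 1) % 4 = 3 := k2
  have hl : k.1 < 4 := lt_of_lt_of_eq k.2 (S.P.len4 k1.sq)
  have h2 : k.1 = 2 := by omega
  refine ⟨k1, k3, ?_, ?_⟩
  · show g • S.K.vx i k.1 = _
    rw [h2, Phm.vx k1.sq 2 2 rfl]
  · show g • S.K.vx i (k.1 + 2) = _
    rw [h2, Phm.vx k1.sq 4 0 rfl]

omit hF in
/-- the two poles -/
theorem poles {q : V} {i : S.K.I} {g : H} (hi : S.Ewk i) (h : g • S.P.qt i 3 = q) :
    S.K.ar q (g • S.P.qt i 0) ∧ S.K.ar q (g • S.P.qt i 2) ∧ g • S.P.qt i 0 ≠ g • S.P.qt i 2 := by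
  subst h
  exact ⟨S.K.ar_smul g _ _ hi.va, S.K.ar_smul g _ _ hi.vb,
    fun k => hi.ab (smul_left_cancel g k)⟩

section

variable {hc : S.Conn} {hnb : S.NB} {O : S.OR w} {hm : (S.k0 hc w).Min} {hn : S.SqN w O}

omit hF in
/-- the ends of a flag at a vertex over `w` -/
theorem _root_.Pool.Agent.DI.SyQ.fl_bkq {e : FL (S.k0 hc w)} {a : S.NV w}
    (hy : (S.k0fc hc hnb w).y e = Sum.inl a) :
    S.K.c1 (bkq hc e.1) = a.1 ∧
    ((e.2 = true ∧ (S.k0fc hc hnb w).x e = S.rho w (S.K.c0 (bkq hc e.1)) ∧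
      (S.k0fc hc hnb w).z e = S.rho w (S.K.c2 (bkq hc e.1))) ∨
    (e.2 = false ∧ (S.k0fc hc hnb w).x e = S.rho w (S.K.c2 (bkq hc e.1)) ∧
      (S.k0fc hc hnb w).z e = S.rho w (S.K.c0 (bkq hc e.1)))) := by
  have hy' : (S.k0 hc w).c1 e.1 = Sum.inl a := hy
  obtain ⟨h1, h2, h3⟩ := bkq_v hc hy'
  refine ⟨h2, ?_⟩
  obtain ⟨l, b⟩ := e
  cases b
  · right
    exact ⟨rfl, ((S.k0P hc w).fc_x' _ l).trans h3, ((S.k0P hc w).fc_z' _ l).trans h1⟩
  · left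
    exact ⟨rfl, ((S.k0P hc w).fc_x _ l).trans h1, ((S.k0P hc w).fc_z _ l).trans h3⟩

/-- no kept cell at `q` -/
theorem no_kp (h : S.FO w O F) {q : S.NV w} {e : FL (S.k0 hc w)} (hq : q.1 ∈ F)
    (he : (S.kfM hc hnb w O hm hn).Kp e) : (S.k0fc hc hnb w).y e ≠ Sum.inl q := by
  intro hy
  obtain ⟨h1, h2⟩ := S.fl_bkq hy
  obtain ⟨k1, k2, k3, k4⟩ := hF.c1 hq h1
  obtain ⟨p1, p2, p3⟩ := poles k1 k2
  obtain ⟨a, b, u, u', ha, hb, hab, -, -, -, hfq, -, -⟩ := h.dqp hq (hF.nsd hq)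
  have key : ∀ c, S.K.ar q.1 c → c = a.1 ∨ c = b.1 := by
    intro c hc'
    rcases S.K.two _ _ _ _ hc' ha hb with e | e | e
    · exact Or.inl e
    · exact absurd (Subtype.ext e) hab
    · exact Or.inr e
  have e0 : ∀ c, S.K.ar q.1 c → S.fq w O (S.rho w c) = S.fq w O (Sum.inl a) := by
    intro c hc'
    rcases key c hc' with rfl | rfl
    · rw [S.rho_near a.2]; rfl
    · rw [S.rho_near b.2]; exact hfq.symm
  apply S.kp_nb he
  rcases h2 with ⟨-, l1, l2⟩ | ⟨-, l1, l2⟩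
  · rw [l1, l2, k3, k4, e0 _ p1, e0 _ p2]
  · rw [l1, l2, k3, k4, e0 _ p1, e0 _ p2]

/-- what is used for the fold -/
theorem thinG (h : S.FO w O F) : S.ThinG hc hnb w O hm hn F where
  own1 u _ _ _ hq hs := absurd hs (hF.nsd hq u.1)
  oth u _ _ _ hq hs := absurd hs (hF.nsd hq u.1)
  dq _ _ hq _ he := hF.no_kp h hq he
  pj u _ _ _ hq hs := absurd hs (hF.nsd hq u.1)

theorem fold (h : S.FO w O F) (hk : S.KSq w O F) :
    (S.kfM hc hnb w O hm hn).Fold (S.TF hc hnb w O hm hn F) := (hF.thinG h).fold h hk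

/-- the corner `(v, a, T)` of the same cell -/
theorem opp {q : V} (hq : q ∈ F) {l : S.K.LE} (h : S.K.c2 l = q) : ∃ l0 : S.K.LE,
    l0.1.1 = l.1.1 ∧ l0.2 = l.2 ∧ S.K.c0 l0 = q ∧ S.K.c2 l0 = S.K.c0 l := by
  obtain ⟨l0, h1, h2, -, h4, -, -⟩ := S.pos_c0 l 2
  have h5 : S.K.c0 l0 = q := h4.trans h
  obtain ⟨-, -, -, -, k5⟩ := hF.c0 hq h5
  obtain ⟨-, -, -, -, m5⟩ := hF.c2 hq h
  refine ⟨l0, h1, h2, h5, ?_⟩
  rw [k5, m5, h1, h2]

/-- flags with the same vertices are one orbit, or two orbits of one flipped square -/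
theorem two_fl {q a : S.NV w} {e e' : FL (S.k0 hc w)} (hq : q.1 ∈ F)
    (hy : (S.k0fc hc hnb w).y e = Sum.inl a) (hy' : (S.k0fc hc hnb w).y e' = Sum.inl a)
    (hx : (S.k0fc hc hnb w).x e = Sum.inl q) (hx' : (S.k0fc hc hnb w).x e' = Sum.inl q)
    (hz : (S.k0fc hc hnb w).z e = (S.k0fc hc hnb w).z e') :
    (∃ g : ↥(stabilizer H w), g • e = e') ∨
      (e.2 ≠ e'.2 ∧ S.Flp (bkq hc e.1).1.1 ∧ S.Flp (bkq hc e'.1).1.1) := by
  obtain ⟨h1, h2⟩ := S.fl_bkq hy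
  obtain ⟨h1', h2'⟩ := S.fl_bkq hy'
  have hrho : ∀ {c : V}, S.rho w c = Sum.inl q → c = q.1 := fun k => rho_inl k
  -- the same position gives the same orbit
  have fin : e.2 = e'.2 → (bkq hc e.1).1 = (bkq hc e'.1).1 →
      (∃ c : S.K.LE → V, (∀ (g : H) l, c (g • l) = g • c l) ∧ c (bkq hc e.1) = q.1 ∧
        c (bkq hc e'.1) = q.1) → ∃ g : ↥(stabilizer H w), g • e = e' := by
    rintro hb hp ⟨c, hc1, hc2, hc3⟩
    have hl : bkq hc e'.1 = ((bkq hc e'.1).2 * (bkq hc e.1).2⁻¹) • bkq hc e.1 := by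
      refine Prod.ext hp.symm ?_
      show _ = (bkq hc e'.1).2 * (bkq hc e.1).2⁻¹ * (bkq hc e.1).2
      rw [inv_mul_cancel_right]
    have hw : ((bkq hc e'.1).2 * (bkq hc e.1).2⁻¹) • w = w := by
      refine hF.stab hq hq ?_
      rw [hl, hc1, hc2] at hc3
      exact hc3
    refine ⟨⟨_, hw⟩, Prod.ext ?_ hb⟩
    have hy1 : (S.k0 hc w).c1 ((⟨_, hw⟩ : ↥(stabilizer H w)) • e.1) =
        Sum.inl ((⟨_, hw⟩ : ↥(stabilizer H w)) • a) := by
      rw [(S.k0 hc w).c1_smul]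
      have : (S.k0 hc w).c1 e.1 = Sum.inl a := hy
      rw [this]
      rfl
    exact lift_unique hc hy1 (show (S.k0 hc w).c1 e'.1 = Sum.inl a from hy')
      ((bkq_smul hc _ _).trans hl.symm)
  -- a corner and a reversed corner
  have mix : ∀ {l l' : S.K.LE}, S.K.c0 l = q.1 → S.K.c2 l' = q.1 → S.K.c1 l = S.K.c1 l' →
      S.rho w (S.K.c2 l) = S.rho w (S.K.c0 l') → S.Flp l.1.1 ∧ S.Flp l'.1.1 := by
    intro l l' k1 k2 k3 k4
    obtain ⟨l0, m1, m2, m3, m4⟩ := hF.opp hq k2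
    obtain ⟨u1, u2⟩ := hF.uni q.1 hq l l0 k1 m3 (by rw [m4]; exact k4)
    have u3 : l.1.1 = l'.1.1 := (congrArg Sigma.fst u1).trans m1
    obtain ⟨a1, a2, a3, a4, a5⟩ := hF.c0 hq k1
    obtain ⟨b1, b2, b3, b4, b5⟩ := hF.c2 hq k2
    rw [← u3] at b3 b4 b5
    rw [m4, a5, b5] at u2
    rw [a4, b4] at k3
    have hf : S.Flp l.1.1 := by
      have f3 : (l.2⁻¹ * l'.2) • S.P.qt l.1.1 3 = S.P.qt l.1.1 3 := by
        rw [mul_smul, b3, ← a3, inv_smul_smul]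
      have f1 : (l.2⁻¹ * l'.2) • S.P.qt l.1.1 1 = S.P.qt l.1.1 1 := by
        rw [mul_smul, ← u2, inv_smul_smul]
      have f2 : (l.2⁻¹ * l'.2) • S.P.qt l.1.1 2 = S.P.qt l.1.1 0 := by
        rw [mul_smul, ← k3, inv_smul_smul]
      refine ⟨_, f3, f1, ?_, f2⟩
      have ka := S.K.ar_smul (l.2⁻¹ * l'.2) _ _ a1.va
      rw [f3] at ka
      rcases S.K.two _ _ _ _ ka a1.va a1.vb with e | e | e
      · exfalso
        exact a1.ab (smul_left_cancel _ (e.trans f2.symm))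
      · exact absurd e a1.ab
      · exact e
    exact ⟨hf, u3 ▸ hf⟩
  rcases h2 with ⟨p1, p2, p3⟩ | ⟨p1, p2, p3⟩ <;> rcases h2' with ⟨p1', p2', p3'⟩ | ⟨p1', p2', p3'⟩
  · left
    have c0 := hrho (p2.symm.trans hx)
    have c0' := hrho (p2'.symm.trans hx')
    have u1 := (hF.uni q.1 hq _ _ c0 c0' (by rw [← p3, ← p3', hz])).1
    exact fin (p1.trans p1'.symm) u1 ⟨S.K.c0, S.K.c0_smul, c0, c0'⟩
  · right
    have c0 := hrho (p2.symm.trans hx)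
    have c0' := hrho (p2'.symm.trans hx')
    refine ⟨by rw [p1, p1']; exact Bool.noConfusion, ?_⟩
    exact mix c0 c0' (h1.trans h1'.symm) (by rw [← p3, ← p3', hz])
  · right
    have c0 := hrho (p2.symm.trans hx)
    have c0' := hrho (p2'.symm.trans hx')
    refine ⟨by rw [p1, p1']; exact Bool.noConfusion, ?_⟩
    exact (mix c0' c0 (h1'.trans h1.symm) (by rw [← p3, ← p3', hz])).symm
  · left
    have c0 := hrho (p2.symm.trans hx)
    have c0' := hrho (p2'.symm.trans hx')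
    obtain ⟨l0, m1, m2, m3, m4⟩ := hF.opp hq c0
    obtain ⟨l0', m1', m2', m3', m4'⟩ := hF.opp hq c0'
    have u1 := (hF.uni q.1 hq l0 l0' m3 m3' (by rw [m4, m4', ← p3, ← p3', hz])).1
    have u2 : (bkq hc e.1).1.1 = (bkq hc e'.1).1.1 :=
      m1.symm.trans ((congrArg Sigma.fst u1).trans m1')
    exact fin (p1.trans p1'.symm) (pos_ext u2 rfl (hF.c2 hq c0).2.1 (hF.c2 hq c0').2.1)
      ⟨S.K.c2, S.K.c2_smul, c0, c0'⟩

/-- the lost strands of `T` -/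
theorem tl (h : S.FO w O F) (hk : S.KSq w O F) {e : FL (S.k0 hc w)}
    (he : e ∈ (S.kfM hc hnb w O hm hn).Tl (S.TF hc hnb w O hm hn F)) :
    ∃ q a : S.NV w, q.1 ∈ F ∧ (S.k0fc hc hnb w).x e = Sum.inl q ∧
      (S.k0fc hc hnb w).y e = Sum.inl a ∧ ∀ m, (S.k0fc hc hnb w).IJ (Sum.inl a) m (Sum.inl q) →
        m = Sum.inl q := by
  obtain ⟨hs, hT, -⟩ := he
  have a1 : S.SAr w ((S.k0fc hc hnb w).x e) ((S.k0fc hc hnb w).y e) := hs.1
  have a2 : S.SAr w ((S.k0fc hc hnb w).y e) ((S.k0fc hc hnb w).z e) := hs.2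
  have nsink : ∀ u : S.EV w, (S.k0fc hc hnb w).y e ≠ Sum.inr u := by
    intro u k
    rw [k] at a2
    cases a2
  have nF : ∀ q : S.NV w, q.1 ∈ F → (S.k0fc hc hnb w).y e ≠ Sum.inl q := by
    intro q hq k
    rw [k] at a1
    generalize (S.k0fc hc hnb w).x e = X at a1
    cases a1 with
    | hor x _ k => exact hF.nin q.1 hq _ k
  rcases hT with ⟨u, k⟩ | ⟨q, hq, k⟩ | ⟨q, hq, hnq, k⟩
  · exact absurd k (nsink u)
  · exact absurd k (nF q hq)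
  · have hY : ∃ a : S.NV w, (S.k0fc hc hnb w).y e = Sum.inl a := by
      rw [hnq] at a1
      generalize (S.k0fc hc hnb w).y e = Y at a1
      cases a1 with
      | hor _ a k => exact ⟨a, rfl⟩
      | up _ v k => exact absurd k (h.ncs hq v.2)
    obtain ⟨a, hy⟩ := hY
    refine ⟨q, a, hq, hnq, hy, ?_⟩
    have hno : ∀ m, ¬ (S.k0fc hc hnb w).IC ((S.k0fc hc hnb w).y e)
        ((S.k0fc hc hnb w).x e) m := by
      intro m hi
      rcases h.no_ic hk hq hnq k hi with ⟨u, k'⟩ | ⟨q', hq', k'⟩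
      · exact nsink u k'
      · exact nF q' hq' k'
    rw [hy, hnq] at hno
    have hone : ∀ m m', (S.k0fc hc hnb w).IJ (Sum.inl a) m m' →
        (m = Sum.inl q ↔ m' = Sum.inl q) := by
      intro m m' hmm
      induction hmm with
      | rel m m' hi =>
        constructor
        · rintro rfl
          exact absurd hi (hno _)
        · rintro rfl
          exact absurd hi.symm' (hno _)
      | refl m => exact Iff.rfl
      | symm m m' _ ih => exact ih.symm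
      | trans m m' m'' _ _ i1 i2 => exact i1.trans i2
    exact fun m hm' => (hone _ _ hm').2 rfl

/-- THE NUMBER OF THE LOST STRANDS: the flipped squares count once more -/
theorem slk (h : S.FO w O F) (hk : S.KSq w O F) :
    (S.kfM hc hnb w O hm hn).Slk (S.TF hc hnb w O hm hn F) (oc H (S.Dz F)) := by
  let A : Set (FL (S.k0 hc w)) := (S.kfM hc hnb w O hm hn).Tl (S.TF hc hnb w O hm hn F)
  let B : Set (FL (S.k0 hc w)) := {e | e.2 = false ∧ S.Flp (bkq hc e.1).1.1}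
  have hA : A = {e | e ∈ A ∧ e ∉ B} ∪ {e | e ∈ A ∧ e ∈ B} := by
    ext e
    by_cases hb : e ∈ B
    · exact ⟨fun k => Or.inr ⟨k, hb⟩, fun k => k.elim And.left And.left⟩
    · exact ⟨fun k => Or.inl ⟨k, hb⟩, fun k => k.elim And.left And.left⟩
  have h1 : oc ↥(stabilizer H w) {e | e ∈ A ∧ e ∉ B} ≤
      oc ↥(stabilizer H w) (FM.Xt (S.k0fc hc hnb w) (S.TF hc hnb w O hm hn F)) := by
    refine SAF.oc_le_of_rel (SAF.FinOrb.mono ?_ (S.k0fc hc hnb w).fin_pols)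
      (fun e t => t = NF.pol ((S.k0fc hc hnb w).y e) ((S.k0fc hc hnb w).z e)
        ((S.k0fc hc hnb w).Pc ((S.k0fc hc hnb w).y e) ((S.k0fc hc hnb w).x e))) ?_ ?_
    · rintro _ ⟨y, a, n, rfl, h1, h2, h3, -⟩
      exact ⟨y, a, n, rfl, h2, h1, h3⟩
    · rintro e ⟨⟨he, hT, -⟩, -⟩
      exact ⟨_, ⟨_, _, _, rfl, he.1, he.2, FC.co e, hT⟩, rfl⟩
    · rintro a ⟨ha, haB⟩ b ⟨hb, hbB⟩ _ - _ - rfl rfl ⟨g, e⟩
      rw [NF.smul_pol, FC.Pc_smul] at e
      obtain ⟨e1, e2, e3⟩ := NF.pol.inj e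
      rw [e1] at e3
      have hij := FC.Pc_eq.1 e3
      obtain ⟨q, c, hq, hbx, hby, hbi⟩ := hF.tl h hk hb
      have gx : (S.k0fc hc hnb w).x (g • a) = Sum.inl q := by
        rw [FC.x_smul]
        rw [hby, hbx] at hij
        exact hbi _ hij
      have gy : (S.k0fc hc hnb w).y (g • a) = Sum.inl c := by
        rw [FC.y_smul, e1, hby]
      have gz : (S.k0fc hc hnb w).z (g • a) = (S.k0fc hc hnb w).z b := by
        rw [FC.z_smul, e2]
      rcases hF.two_fl hq gy hby gx hbx gz with ⟨k, hk'⟩ | ⟨k1, k2, k3⟩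
      · exact ⟨k * g, by rw [mul_smul, hk']⟩
      · exfalso
        have k2' : S.Flp (bkq hc a.1).1.1 := by
          have : bkq hc (g • a).1 = g.1 • bkq hc a.1 := bkq_smul hc g a.1
          rw [this] at k2
          exact k2
        have k1' : a.2 ≠ b.2 := k1
        cases hb2 : b.2 with
        | false => exact hbB ⟨hb2, k3⟩
        | true =>
          rw [hb2] at k1'
          exact haB ⟨by simpa using k1', k2'⟩
  have h2 : oc ↥(stabilizer H w) {e | e ∈ A ∧ e ∈ B} ≤ oc H (S.Dz F) := by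
    refine SAF.oc_le_of_inj (S.K.fin_LE.mono (Set.subset_univ _)) (fun e => bkq hc e.1) ?_ ?_
    · rintro e ⟨he, hb1, hb2⟩
      obtain ⟨q, c, hq, hx, hy, -⟩ := hF.tl h hk he
      obtain ⟨-, l⟩ := S.fl_bkq hy
      rcases l with ⟨l, -⟩ | ⟨-, l, -⟩
      · rw [hb1] at l
        cases l
      · have hc2 := rho_inl (l.symm.trans hx)
        obtain ⟨m1, m2, -⟩ := hF.c2 hq hc2
        exact ⟨m1, hb2, m2, 1, by rw [one_smul, hc2]; exact hq⟩
    · rintro e ⟨he, hb1, hb2⟩ e' ⟨he', hb1', hb2'⟩ ⟨g, hg⟩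
      obtain ⟨q, c, hq, hx, hy, -⟩ := hF.tl h hk he
      obtain ⟨q', c', hq', hx', hy', -⟩ := hF.tl h hk he'
      have z2 : S.K.c2 (bkq hc e.1) = q.1 := by
        obtain ⟨-, l⟩ := S.fl_bkq hy
        rcases l with ⟨l, -⟩ | ⟨-, l, -⟩
        · rw [hb1] at l
          cases l
        · exact rho_inl (l.symm.trans hx)
      have z2' : S.K.c2 (bkq hc e'.1) = q'.1 := by
        obtain ⟨-, l⟩ := S.fl_bkq hy'
        rcases l with ⟨l, -⟩ | ⟨-, l, -⟩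
        · rw [hb1'] at l
          cases l
        · exact rho_inl (l.symm.trans hx')
      have hgq : g • q.1 = q'.1 := by
        rw [← z2, ← z2', ← hg, S.K.c2_smul]
      have hw := hF.stab hq hq' hgq
      refine ⟨⟨g, hw⟩, Prod.ext ?_ (hb1.trans hb1'.symm)⟩
      have hy1 : (S.k0 hc w).c1 ((⟨g, hw⟩ : ↥(stabilizer H w)) • e.1) =
          Sum.inl ((⟨g, hw⟩ : ↥(stabilizer H w)) • c) := by
        rw [(S.k0 hc w).c1_smul]
        have : (S.k0 hc w).c1 e.1 = Sum.inl c := hy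
        rw [this]
        rfl
      exact lift_unique hc hy1 (show (S.k0 hc w).c1 e'.1 = Sum.inl c' from hy')
        ((bkq_smul hc _ _).trans hg)
  have h3 := oc_union_le (G := ↥(stabilizer H w)) {e | e ∈ A ∧ e ∉ B} {e | e ∈ A ∧ e ∈ B}
  rw [← hA] at h3
  show oc ↥(stabilizer H w) A ≤ _
  omega

/-- THE EXC-LAW OF THE FOLDED SLICE if only bare vertices are folded -/
theorem exc_le (h : S.FO w O F) (hk : S.KSq w O F) (hm : (S.k0 hc w).Min) (hn : S.SqN w O)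
    (hnb : S.NB) : (S.k0 hc w).pexc ≤ (S.kf hc w O).pexc + oc H (S.Dz F) := by
  have h1 := (hF.fold (hc := hc) (hnb := hnb) (hm := hm) (hn := hn) h hk).exc_le (hF.slk h hk)
  rwa [S.k0fc_exc, S.kffc_exc] at h1

/-- the equality case: no private pole outside `T` is lost (then `Fold.pols_inj`, `Fold.one_part`) -/
theorem eq (h : S.FO w O F) (hk : S.KSq w O F)
    (he : (S.kf hc w O).pexc + oc H (S.Dz F) ≤ (S.k0 hc w).pexc) :
    oc ↥(stabilizer H w) ((S.kfM hc hnb w O hm hn).Xgt (S.TF hc hnb w O hm hn F)) ≤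
      oc ↥(stabilizer H w) (S.kffc hc w O hm hn).pols := by
  refine (hF.fold h hk).pols_of_exc (hF.slk h hk) ?_
  rw [S.k0fc_exc, S.kffc_exc]
  exact he

end

end BareF

end SyQ

end Pool.Agent.DI
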