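import Pool.Agent.DI.QFM

/-!
# One strand over every edge of the line

`Half`: a graph with a group `J` over a line: half strands `h` at nodes `ν h` with a direction `δ h`
and levels `lv`. `Half.Uq`: at every node there is one left and one right half strand modulo `N`.
`Half.kap`: if the graph is connected, there is one half strand in each direction over each level
modulo `N`. `Half.uq_of_count`: `Uq` from the count `Σ (d_P - 2) + s = 0`.
-/

namespace Pool.Agent.DI

open MulAction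

/-- half strands over a line -/
structure Half (J T HS : Type) [Group J] [MulAction J T] [MulAction J HS] where
  ν : HS → T
  δ : HS → ℤˣ
  lv : T → ℤ
  ε : J →* ℤˣ
  N : Subgroup J
  /-- the two halves of one strand -/
  R : HS → HS → Prop
  hν : ∀ (j : J) (h : HS), ν (j • h) = j • ν h
  hδ : ∀ (j : J) (h : HS), δ (j • h) = ε j * δ h
  R_symm : ∀ h k, R h k → R k h
  R_smul : ∀ (j : J) (h k : HS), R h k → R (j • h) (j • k)
  R_uniq : ∀ h k k', R h k → R h k' → k = k'
  R_δ : ∀ h k, R h k → δ k = -δ h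
  R_lv : ∀ h k, R h k → lv (ν k) = lv (ν h) + (δ h : ℤ)
  N_lv : ∀ n ∈ N, ∀ x : T, lv (n • x) = lv x
  N_ε : ∀ n ∈ N, ε n = 1
  N_fix : ∀ (j : J) (x : T), j • x = x → ε j = 1 → j ∈ N

namespace Half

variable {J T HS : Type} [Group J] [MulAction J T] [MulAction J HS] (M : Half J T HS)

/-- a step to the right -/
def St (x y : T) : Prop := ∃ h k, M.R h k ∧ M.ν h = x ∧ M.ν k = y ∧ M.δ h = 1

/-- one left and one right half strand at every node -/
def Uq : Prop := ∀ h h', M.ν h = M.ν h' → M.δ h = M.δ h' → ∃ n ∈ M.N, h' = n • h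

variable {M}

theorem St.lv {x y : T} (h : M.St x y) : M.lv y = M.lv x + 1 := by
  obtain ⟨h, k, hR, rfl, rfl, hd⟩ := h
  rw [M.R_lv h k hR, hd, Units.val_one]

theorem St.smul {x y : T} (h : M.St x y) {n : J} (hn : n ∈ M.N) : M.St (n • x) (n • y) := by
  obtain ⟨h, k, hR, rfl, rfl, hd⟩ := h
  refine ⟨n • h, n • k, M.R_smul n h k hR, M.hν n h, M.hν n k, ?_⟩
  rw [M.hδ, M.N_ε n hn, one_mul, hd]

theorem St.right (U : M.Uq) {x y y' : T} (h : M.St x y) (h' : M.St x y') :
    ∃ n ∈ M.N, y' = n • y := by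
  obtain ⟨a, b, hR, e1, rfl, hd⟩ := h
  obtain ⟨a', b', hR', e2, rfl, hd'⟩ := h'
  obtain ⟨n, hn, e⟩ := U a a' (e1.trans e2.symm) (hd.trans hd'.symm)
  refine ⟨n, hn, ?_⟩
  rw [← M.hν]
  congr 1
  apply M.R_uniq a' _ _ hR'
  rw [e]
  exact M.R_smul n a b hR

theorem St.left (U : M.Uq) {x x' y : T} (h : M.St x y) (h' : M.St x' y) :
    ∃ n ∈ M.N, x' = n • x := by
  obtain ⟨a, b, hR, rfl, e1, hd⟩ := h
  obtain ⟨a', b', hR', rfl, e2, hd'⟩ := h'
  have hb : M.δ b = M.δ b' := by rw [M.R_δ a b hR, M.R_δ a' b' hR', hd, hd']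
  obtain ⟨n, hn, e⟩ := U b b' (e1.trans e2.symm) hb
  refine ⟨n, hn, ?_⟩
  rw [← M.hν]
  congr 1
  apply M.R_uniq b' _ _ (M.R_symm _ _ hR')
  rw [e]
  exact M.R_smul n b a (M.R_symm _ _ hR)

variable (M)

/-- `k` steps to the right, modulo `N` -/
def Ch : ℕ → T → T → Prop
  | 0, x, y => ∃ n ∈ M.N, y = n • x
  | k + 1, x, y => ∃ z, M.St x z ∧ Ch k z y

variable {M}

theorem Ch.lv : ∀ {k : ℕ} {x y : T}, M.Ch k x y → M.lv y = M.lv x + k := by
  intro k
  induction k with
  | zero =>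
    rintro x y ⟨n, hn, rfl⟩
    rw [M.N_lv n hn]
    simp
  | succ k ih =>
    rintro x y ⟨z, hz, h⟩
    rw [ih h, hz.lv]
    push_cast
    ring

theorem Ch.smul : ∀ {k : ℕ} {x y : T}, M.Ch k x y → ∀ n ∈ M.N, M.Ch k (n • x) y := by
  intro k
  induction k with
  | zero =>
    rintro x y ⟨m, hm, rfl⟩ n hn
    exact ⟨m * n⁻¹, M.N.mul_mem hm (M.N.inv_mem hn), by rw [mul_smul, inv_smul_smul]⟩
  | succ k ih =>
    rintro x y ⟨z, hz, h⟩ n hn
    exact ⟨n • z, hz.smul hn, ih h n hn⟩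

theorem Ch.smul' : ∀ {k : ℕ} {x y : T}, M.Ch k x y → ∀ n ∈ M.N, M.Ch k x (n • y) := by
  intro k
  induction k with
  | zero =>
    rintro x y ⟨m, hm, rfl⟩ n hn
    exact ⟨n * m, M.N.mul_mem hn hm, by rw [mul_smul]⟩
  | succ k ih =>
    rintro x y ⟨z, hz, h⟩ n hn
    exact ⟨z, hz, ih h n hn⟩

theorem Ch.snoc : ∀ {k : ℕ} {x y z : T}, M.Ch k x y → M.St y z → M.Ch (k + 1) x z := by
  intro k
  induction k with
  | zero =>
    rintro x y z ⟨n, hn, rfl⟩ h
    refine ⟨n⁻¹ • z, ?_, n, hn, by rw [smul_inv_smul]⟩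
    have := h.smul (M.N.inv_mem hn)
    rwa [inv_smul_smul] at this
  | succ k ih =>
    rintro x y z ⟨w, hw, h1⟩ h
    exact ⟨w, hw, ih h1 h⟩

/-- the last step -/
theorem Ch.last : ∀ {k : ℕ} {x y : T}, M.Ch (k + 1) x y → ∃ z, M.Ch k x z ∧ M.St z y := by
  intro k
  induction k with
  | zero =>
    rintro x y ⟨z, hz, n, hn, rfl⟩
    exact ⟨n • x, ⟨n, hn, rfl⟩, hz.smul hn⟩
  | succ k ih =>
    rintro x y ⟨z, hz, h⟩
    obtain ⟨t, h1, h2⟩ := ih h
    exact ⟨t, ⟨z, hz, h1⟩, h2⟩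

/-- comparable nodes -/
theorem cmp_right (U : M.Uq) {x0 y z : T} (h : (∃ k, M.Ch k x0 y) ∨ ∃ k, M.Ch k y x0)
    (hs : M.St y z) : (∃ k, M.Ch k x0 z) ∨ ∃ k, M.Ch k z x0 := by
  rcases h with ⟨k, h⟩ | ⟨k, h⟩
  · exact Or.inl ⟨k + 1, h.snoc hs⟩
  · cases k with
    | zero =>
      obtain ⟨n, hn, rfl⟩ := h
      left
      refine ⟨1, n • z, hs.smul hn, n⁻¹, M.N.inv_mem hn, by rw [inv_smul_smul]⟩
    | succ k =>
      obtain ⟨w, hw, h⟩ := h
      obtain ⟨n, hn, rfl⟩ := St.right U hw hs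
      exact Or.inr ⟨k, h.smul n hn⟩

theorem cmp_left (U : M.Uq) {x0 y z : T} (h : (∃ k, M.Ch k x0 y) ∨ ∃ k, M.Ch k y x0)
    (hs : M.St z y) : (∃ k, M.Ch k x0 z) ∨ ∃ k, M.Ch k z x0 := by
  rcases h with ⟨k, h⟩ | ⟨k, h⟩
  · cases k with
    | zero =>
      obtain ⟨n, hn, rfl⟩ := h
      right
      exact ⟨1, n • x0, hs, n⁻¹, M.N.inv_mem hn, by rw [inv_smul_smul]⟩
    | succ k =>
      obtain ⟨w, h, hw⟩ := h.last
      obtain ⟨n, hn, rfl⟩ := St.left U hw hs
      exact Or.inl ⟨k, h.smul' n hn⟩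
  · exact Or.inr ⟨k + 1, y, hs, h⟩

/-- the steps of the graph, with the moves of `N` -/
def Lk (M : Half J T HS) (x y : T) : Prop := M.St x y ∨ ∃ n ∈ M.N, y = n • x

theorem cmp_all (U : M.Uq) (hc : ∀ x y : T, Relation.EqvGen M.Lk x y) (x y : T) :
    (∃ k, M.Ch k x y) ∨ ∃ k, M.Ch k y x := by
  have key : ∀ a b : T, Relation.EqvGen M.Lk a b → (((∃ k, M.Ch k x a) ∨ ∃ k, M.Ch k a x) ↔
      ((∃ k, M.Ch k x b) ∨ ∃ k, M.Ch k b x)) := by
    intro a b h
    induction h with
    | rel a b h =>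
      rcases h with h | ⟨n, hn, rfl⟩
      · exact ⟨fun k => cmp_right U k h, fun k => cmp_left U k h⟩
      · constructor
        · rintro (⟨k, h⟩ | ⟨k, h⟩)
          · exact Or.inl ⟨k, h.smul' n hn⟩
          · exact Or.inr ⟨k, h.smul n hn⟩
        · rintro (⟨k, h⟩ | ⟨k, h⟩)
          · refine Or.inl ⟨k, ?_⟩
            have := h.smul' n⁻¹ (M.N.inv_mem hn)
            rwa [inv_smul_smul] at this
          · refine Or.inr ⟨k, ?_⟩
            have := h.smul n⁻¹ (M.N.inv_mem hn)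
            rwa [inv_smul_smul] at this
    | refl a => exact Iff.rfl
    | symm a b _ ih => exact ih.symm
    | trans a b c _ _ ih1 ih2 => exact ih1.trans ih2
  exact (key x y (hc x y)).1 (Or.inl ⟨0, 1, M.N.one_mem, (one_smul _ _).symm⟩)

/-- nodes of one level are in one orbit of `N` -/
theorem node_one (U : M.Uq) (hc : ∀ x y : T, Relation.EqvGen M.Lk x y) {x y : T}
    (h : M.lv x = M.lv y) : ∃ n ∈ M.N, y = n • x := by
  rcases cmp_all U hc x y with ⟨k, hk⟩ | ⟨k, hk⟩
  · have := hk.lv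
    have hk0 : k = 0 := by omega
    subst hk0
    exact hk
  · have := hk.lv
    have hk0 : k = 0 := by omega
    subst hk0
    obtain ⟨n, hn, e⟩ := hk
    exact ⟨n⁻¹, M.N.inv_mem hn, by rw [e, inv_smul_smul]⟩

/-- one half strand in each direction at each level -/
theorem kap (U : M.Uq) (hc : ∀ x y : T, Relation.EqvGen M.Lk x y) {h h' : HS}
    (hl : M.lv (M.ν h) = M.lv (M.ν h')) (hd : M.δ h = M.δ h') : ∃ n ∈ M.N, h' = n • h := by
  obtain ⟨n, hn, e⟩ := node_one U hc hl
  obtain ⟨m, hm, e'⟩ := U (n • h) h' (by rw [M.hν, e]) (by rw [M.hδ, M.N_ε n hn, one_mul, hd])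
  exact ⟨m * n, M.N.mul_mem hm hn, by rw [e', mul_smul]⟩

/-! ### the count -/

variable (M)

/-- self nodes -/
def Self (x : T) : Prop := ∃ j : J, j • x = x ∧ M.ε j = -1

theorem self_smul {x : T} (h : M.Self x) (k : J) : M.Self (k • x) := by
  obtain ⟨j, h1, h2⟩ := h
  refine ⟨k * j * k⁻¹, by rw [mul_smul, mul_smul, inv_smul_smul, h1], ?_⟩
  rw [map_mul, map_mul, map_inv, mul_comm (M.ε k), mul_inv_cancel_right, h2]

/-- the orbits of the half strands over the orbits of the nodes -/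
def pr : orbitRel.Quotient J HS → orbitRel.Quotient J T :=
  olift (fun h => oq J (M.ν h)) (fun j h => by rw [M.hν, oq_smul])

@[simp] theorem pr_oq (h : HS) : M.pr (oq J h) = oq J (M.ν h) := rfl

theorem pr_eq {h : HS} {x : T} : M.pr (oq J h) = oq J x ↔ ∃ j : J, M.ν (j • h) = x := by
  rw [pr_oq, oq_eq]
  constructor
  · rintro ⟨j, rfl⟩
    exact ⟨j, M.hν j h⟩
  · rintro ⟨j, rfl⟩
    exact ⟨j, M.hν j h⟩

variable {M}

/-- `Uq` from the numbers of half strands at the nodes -/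
theorem uq_of_card (hns : ∀ x, ¬ M.Self x → Nat.card {q // M.pr q = oq J x} ≤ 2)
    (hs : ∀ x, M.Self x → Nat.card {q // M.pr q = oq J x} ≤ 1)
    [Finite (orbitRel.Quotient J HS)]
    (bal : ∀ h, ¬ M.Self (M.ν h) → ∃ h', M.ν h' = M.ν h ∧ M.δ h' = -M.δ h) : M.Uq := by
  intro h h' hν hδ
  have mk : ∀ a : HS, M.ν a = M.ν h → M.pr (oq J a) = oq J (M.ν h) := by
    intro a ha
    rw [pr_oq, ha]
  -- an element which maps `a` to `b`
  have fin : ∀ a b : HS, M.ν a = M.ν b → M.δ a = M.δ b → oq J a = oq J b →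
      ∃ n ∈ M.N, b = n • a := by
    intro a b h1 h2 h3
    obtain ⟨j, rfl⟩ := oq_eq.1 h3
    refine ⟨j, ?_, rfl⟩
    apply M.N_fix j (M.ν a)
    · rw [← M.hν, h1]
    · rw [M.hδ] at h2
      exact (mul_eq_right.1 h2.symm)
  by_cases hself : M.Self (M.ν h)
  · have h1 := hs _ hself
    have : Subsingleton {q // M.pr q = oq J (M.ν h)} := by
      rw [← Finite.card_le_one_iff_subsingleton]
      exact h1
    have e := Subsingleton.elim (⟨oq J h, mk h rfl⟩ : {q // M.pr q = oq J (M.ν h)})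
      ⟨oq J h', mk h' hν.symm⟩
    exact fin h h' hν hδ (congrArg Subtype.val e)
  · obtain ⟨k, k1, k2⟩ := bal h hself
    have hne : ∀ a : HS, M.ν a = M.ν h → M.δ a = M.δ h → oq J a ≠ oq J k := by
      intro a ha hd e
      obtain ⟨j, rfl⟩ := oq_eq.1 e
      apply hself
      refine ⟨j, ?_, ?_⟩
      · rw [← ha, ← M.hν, k1, ha]
      · rw [M.hδ, ← hd] at k2
        have : M.ε j * M.δ a = -1 * M.δ a := by rw [k2, neg_mul, one_mul]
        exact mul_right_cancel this
    by_contra hno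
    have hne2 : oq J h ≠ oq J h' := fun e => hno (fin h h' hν hδ e)
    have h2 := hns _ hself
    let f : Fin 3 → {q // M.pr q = oq J (M.ν h)} := fun i =>
      if i = 0 then ⟨oq J h, mk h rfl⟩ else if i = 1 then ⟨oq J h', mk h' hν.symm⟩
        else ⟨oq J k, mk k k1⟩
    have hf : Function.Injective f := by
      intro i j hij
      have e1 : oq J h ≠ oq J k := hne h rfl rfl
      have e2 : oq J h' ≠ oq J k := hne h' hν.symm hδ.symm
      fin_cases i <;> fin_cases j <;>
        simp only [f, Fin.zero_eta, Fin.mk_one, Fin.reduceFinMk, if_true, Fin.isValue,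
          one_ne_zero, if_false, Subtype.mk.injEq, Fin.reduceEq] at hij ⊢
      · exact absurd hij hne2
      · exact absurd hij e1
      · exact absurd hij.symm hne2
      · exact absurd hij e2
      · exact absurd hij.symm e1
      · exact absurd hij.symm e2
    have := Nat.card_le_card_of_injective f hf
    rw [Nat.card_eq_fintype_card, Fintype.card_fin] at this
    omega

/-- `Uq` from the count `number of half strands + number of self nodes = 2 * number of nodes` -/
theorem uq_of_count [Finite (orbitRel.Quotient J HS)] [Finite (orbitRel.Quotient J T)]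
    (hne : ∀ x, ∃ h, M.ν h = x)
    (bal : ∀ h, ¬ M.Self (M.ν h) → ∃ h', M.ν h' = M.ν h ∧ M.δ h' = -M.δ h)
    (count : Nat.card (orbitRel.Quotient J HS) +
      Nat.card {q : orbitRel.Quotient J T // ∃ x, oq J x = q ∧ M.Self x} ≤
        2 * Nat.card (orbitRel.Quotient J T)) : M.Uq := by
  classical
  have := Fintype.ofFinite (orbitRel.Quotient J T)
  -- lower bounds
  have low : ∀ q : orbitRel.Quotient J T, (if (∃ x, oq J x = q ∧ M.Self x) then 1 else 2) ≤
      Nat.card {p // M.pr p = q} := by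
    intro q
    obtain ⟨x, rfl⟩ := oq_surj (J := J) q
    obtain ⟨h, rfl⟩ := hne x
    split_ifs with hq
    · have : Nonempty {p // M.pr p = oq J (M.ν h)} := ⟨⟨oq J h, rfl⟩⟩
      exact Nat.card_pos
    · have hself : ¬ M.Self (M.ν h) := fun hh => hq ⟨_, rfl, hh⟩
      obtain ⟨k, k1, k2⟩ := bal h hself
      have hne2 : oq J h ≠ oq J k := by
        intro e
        obtain ⟨j, rfl⟩ := oq_eq.1 e
        apply hself
        refine ⟨j, ?_, ?_⟩
        · rw [← M.hν, k1]
        · rw [M.hδ] at k2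
          have : M.ε j * M.δ h = -1 * M.δ h := by rw [k2, neg_mul, one_mul]
          exact mul_right_cancel this
      let f : Fin 2 → {p // M.pr p = oq J (M.ν h)} := fun i =>
        if i = 0 then ⟨oq J h, rfl⟩ else ⟨oq J k, by rw [pr_oq, k1]⟩
      have hf : Function.Injective f := by
        intro i j hij
        fin_cases i <;> fin_cases j <;>
          simp only [f, Fin.zero_eta, Fin.mk_one, if_true, Fin.isValue,
            one_ne_zero, if_false, Subtype.mk.injEq] at hij ⊢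
        · exact absurd hij hne2
        · exact absurd hij.symm hne2
      have := Nat.card_le_card_of_injective f hf
      rwa [Nat.card_eq_fintype_card, Fintype.card_fin] at this
  have tot : Nat.card (orbitRel.Quotient J HS) = ∑ q, Nat.card {p // M.pr p = q} :=
    FG.card_fib M.pr
  have tot2 : ∑ q : orbitRel.Quotient J T, (if (∃ x, oq J x = q ∧ M.Self x) then 1 else 2) +
      Nat.card {q : orbitRel.Quotient J T // ∃ x, oq J x = q ∧ M.Self x} =
        2 * Nat.card (orbitRel.Quotient J T) := by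
    rw [Nat.card_eq_fintype_card, Nat.card_eq_fintype_card, Fintype.card_subtype,
      Finset.card_filter, ← Finset.sum_add_distrib]
    have : ∀ q : orbitRel.Quotient J T, (if (∃ x, oq J x = q ∧ M.Self x) then 1 else 2) +
        (if (∃ x, oq J x = q ∧ M.Self x) then 1 else 0) = 2 := by
      intro q
      split_ifs <;> rfl
    rw [Finset.sum_congr rfl fun q _ => this q, Finset.sum_const, Finset.card_univ, smul_eq_mul,
      mul_comm]
  have eq : ∀ q ∈ (Finset.univ : Finset (orbitRel.Quotient J T)),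
      (if (∃ x, oq J x = q ∧ M.Self x) then 1 else 2) = Nat.card {p // M.pr p = q} := by
    rw [← Finset.sum_eq_sum_iff_of_le (fun q _ => low q)]
    have hle := Finset.sum_le_sum (fun q (_ : q ∈ (Finset.univ : Finset (orbitRel.Quotient J T))) =>
      low q)
    omega
  refine uq_of_card ?_ ?_ bal
  · intro x hx
    have h1 := eq (oq J x) (Finset.mem_univ _)
    rw [← h1]
    split_ifs <;> omega
  · intro x hx
    have h1 := eq (oq J x) (Finset.mem_univ _)
    rw [← h1, if_pos ⟨x, rfl, hx⟩]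

end Half

end Pool.Agent.DI
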