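import Pool.Agent.DI.FCk
import Pool.Agent.DI.VDZ
import Pool.Agent.DI.SeenQ
import Pool.Agent.DI.P5Def
import Pool.Agent.DI.OvP

/-!
# Vertices with one place in the folded slice

`S : SyQ H V`, `J q = {w}`. `kfP_qn`, `kfP_q4`, `kfP_q4q`: pentagons and squares of the folded slice.
`uk_cor`: what happens to a corner `a q b` (it is a corner of the folded slice, or a zero square or an old
square is collapsed). `uk_snk` (Lemma U): a sink is in a cell of the folded slice, or its stabiliser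
fixes an edge at `w`. `uk_pg`: if all stars at `q` are open then the groups of the pieces of `q` are in
the groups of the pieces of the class of `q`; `uk_fix_pole`: the same for the elements which fix the
poles.
-/

namespace Pool.Agent.DI

open MulAction
open Pool.Agent.SAF (InC orbs FinOrb oc Decomp SAn SA Conv hull dist_edge FinOrb_iff exists_next)
open Pool.Agent.BT (PX PQ JS bey exits Ell)
open Pool.Agent.BT.TA

namespace SyQ

variable {H V : Type} [Group H] [MulAction H V] {S : SyQ H V}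

/-! ### cells of the folded slice -/

section cells

variable {hc : S.Conn} {w : S.X} {O : S.OR w} (hm : (S.k0 hc w).Min) (hn : S.SqN w O)

theorem kfP_pt (c : S.C5 w) (k : Fin 5) :
    (S.kfP hc w O hm hn).pt (Sum.inl c) k = S.fq w O (S.rho w (S.tr c.g c.1 k)) := rfl

theorem kfP_not_sq (c : S.C5 w) : ¬ (S.kfP hc w O hm hn).sq (Sum.inl c) := by
  rintro ⟨p, h⟩
  cases h

theorem kfP_sq (p : {p // S.kept w O p}) : (S.kfP hc w O hm hn).sq (Sum.inr p) := ⟨p.1, rfl⟩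

theorem kfP_qt (p : {p // S.kept w O p}) (k : Fin 4) :
    (S.kfP hc w O hm hn).qt (Sum.inr p) k = S.fq w O (S.vq w p.1 k) := by
  show S.fq w O ((S.k0P hc w).qt (Sum.inr p.1) k) = _
  rw [S.k0P_qt]

theorem fq_tr {c : S.C5 w} {l : ↥(stabilizer H w)} {h : H} {i : S.K.I} (h1 : c.1 = i)
    (h2 : l.1 * c.g = h) (k : Fin 5) : S.fq w O (S.rho w (h • S.P.pt i k)) =
      l • S.fq w O (S.rho w (S.tr c.g c.1 k)) := by
  subst h1
  rw [← h2, mul_smul, ← fq_smul, ← S.rho_smul]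
  rfl

/-- centred pentagons -/
theorem kfP_qn {a q b y z : V} (h : Qn S.P a q b y z) (hI : S.IsC ![a, q, b, y, z] w) :
    Qn (S.kfP hc w O hm hn) (S.fq w O (S.rho w a)) (S.fq w O (S.rho w q)) (S.fq w O (S.rho w b))
      (S.fq w O (S.rho w y)) (S.fq w O (S.rho w z)) := by
  have key : ∀ (h : H) (i : S.K.I) (j : Fin 5), ¬ S.P.sq i →
      S.IsC ![h • S.P.pt i j, h • S.P.pt i (j + 1), h • S.P.pt i (j + 2), h • S.P.pt i (j + 3),
        h • S.P.pt i (j + 4)] w → ∃ (c : S.C5 w) (l : ↥(stabilizer H w)), c.1 = i ∧ l.1 * c.g = h := by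
    intro h i j hi hI
    refine exists_e5 hi (fun k => ?_)
    have e : ∀ j k : Fin 5, ∃ m : Fin 5, ![j, j + 1, j + 2, j + 3, j + 4] m = k ∧
      ![j, j + 1, j + 2, j + 3, j + 4] (m + 1) = k + 1 := by decide
    obtain ⟨m, e1, e2⟩ := e j k
    have h1 := hI m
    have v : ∀ m : Fin 5, (![h • S.P.pt i j, h • S.P.pt i (j + 1), h • S.P.pt i (j + 2),
        h • S.P.pt i (j + 3), h • S.P.pt i (j + 4)] : Fin 5 → V) m =
        h • S.P.pt i ((![j, j + 1, j + 2, j + 3, j + 4] : Fin 5 → Fin 5) m) := by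
      intro m
      fin_cases m <;> rfl
    rw [v, v, e1, e2] at h1
    exact h1
  obtain ⟨g, i, j, hi, ⟨h1, h2, h3, h4, h5⟩ | ⟨h1, h2, h3, h4, h5⟩⟩ := h
  · rw [h1, h2, h3, h4, h5] at hI
    obtain ⟨c, l, e1, e2⟩ := key g i j hi hI
    refine ⟨l, Sum.inl c, j, kfP_not_sq hm hn c, Or.inl ?_⟩
    simp only [kfP_pt]
    rw [h1, h2, h3, h4, h5]
    exact ⟨fq_tr e1 e2 _, fq_tr e1 e2 _, fq_tr e1 e2 _, fq_tr e1 e2 _, fq_tr e1 e2 _⟩
  · have hI' : S.IsC ![g • S.P.pt i j, g • S.P.pt i (j + 1), g • S.P.pt i (j + 2),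
        g • S.P.pt i (j + 3), g • S.P.pt i (j + 4)] w := by
      rw [← h1, ← h2, ← h3, ← h4, ← h5]
      intro k
      fin_cases k
      · exact (hI 1).symm
      · exact (hI 0).symm
      · exact (hI 4).symm
      · exact (hI 3).symm
      · exact (hI 2).symm
    obtain ⟨c, l, e1, e2⟩ := key g i j hi hI'
    refine ⟨l, Sum.inl c, j, kfP_not_sq hm hn c, Or.inr ?_⟩
    simp only [kfP_pt]
    rw [h1, h2, h3, h4, h5]
    exact ⟨fq_tr e1 e2 _, fq_tr e1 e2 _, fq_tr e1 e2 _, fq_tr e1 e2 _, fq_tr e1 e2 _⟩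

theorem fin5_add_rev : ∀ j : Fin 5, j + 2 + 4 = j + 1 ∧ j + 2 + 3 = j := by decide

/-- zero squares -/
theorem kfP_q4 {u : S.X} {a q b y z : V} (h : Qn S.P a q b y z) (hs : S.Sq w u a q b y z)
    (h1 : S.fq w O (S.rho w a) ≠ S.fq w O (S.rho w b))
    (h2 : S.fq w O (S.rho w q) ≠ S.fq w O (Sum.inr ⟨u, hs.1⟩)) :
    Q4 (S.kfP hc w O hm hn) (S.fq w O (S.rho w a)) (S.fq w O (S.rho w q)) (S.fq w O (S.rho w b))
      (S.fq w O (Sum.inr ⟨u, hs.1⟩)) := by
  have hsr : S.Sq w u b q a z y := ⟨hs.1, hs.2.2.1, hs.2.1, hs.2.2.2.1, hs.2.2.2.2.2, hs.2.2.2.2.1⟩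
  have ry : S.rho w y = Sum.inr ⟨u, hs.1⟩ := S.rho_bey hs.1 hs.2.2.2.2.1
  have rz : S.rho w z = Sum.inr ⟨u, hs.1⟩ := S.rho_bey hs.1 hs.2.2.2.2.2
  have key : ∀ (g : H) (i : S.K.I) (j : Fin 5), ¬ S.P.sq i →
      S.Sq w u (g • S.P.pt i j) (g • S.P.pt i (j + 1)) (g • S.P.pt i (j + 2))
        (g • S.P.pt i (j + 3)) (g • S.P.pt i (j + 4)) →
      ∃ (p : S.C4 w) (l : ↥(stabilizer H w)),
        S.rho w (g • S.P.pt i j) = l • S.vq w (Sum.inl p) 0 ∧
        S.rho w (g • S.P.pt i (j + 1)) = l • S.vq w (Sum.inl p) 1 ∧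
        S.rho w (g • S.P.pt i (j + 2)) = l • S.vq w (Sum.inl p) 2 ∧
        S.rho w (g • S.P.pt i (j + 3)) = l • S.vq w (Sum.inl p) 3 := by
    intro g i j hi hs
    obtain ⟨p, l, e1, e2, e3⟩ := exists_e4 hi hs
    refine ⟨p, l, ?_⟩
    have k : ∀ m : Fin 5, S.rho w (g • S.P.pt i (j + m)) =
        l • S.rho w (S.tr p.g p.1.1 (p.1.2.1 + m)) := by
      intro m
      rw [← S.rho_smul, ← e3, ← e1, ← e2, mul_smul]
      rfl
    have k0 := k 0
    rw [add_zero, add_zero] at k0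
    exact ⟨k0, k 1, k 2, k 3⟩
  have fin : ∀ (a q b y : V) (p : S.C4 w) (l : ↥(stabilizer H w)),
      S.rho w a = l • S.vq w (Sum.inl p) 0 → S.rho w q = l • S.vq w (Sum.inl p) 1 →
      S.rho w b = l • S.vq w (Sum.inl p) 2 → S.rho w y = l • S.vq w (Sum.inl p) 3 →
      S.fq w O (S.rho w a) ≠ S.fq w O (S.rho w b) → S.fq w O (S.rho w q) ≠ S.fq w O (S.rho w y) →
      Q4 (S.kfP hc w O hm hn) (S.fq w O (S.rho w a)) (S.fq w O (S.rho w q))
        (S.fq w O (S.rho w b)) (S.fq w O (S.rho w y)) := by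
    intro a q b y p l e0 e1 e2 e3 n1 n2
    rw [e0, e2, fq_smul, fq_smul] at n1
    rw [e1, e3, fq_smul, fq_smul] at n2
    have hk : S.kept w O (Sum.inl p) := ⟨fun e => n1 (by rw [e]), fun e => n2 (by rw [e])⟩
    refine ⟨l, Sum.inr ⟨Sum.inl p, hk⟩, 0, kfP_sq hm hn _, Or.inl ?_⟩
    simp only [kfP_qt]
    rw [e0, e1, e2, e3]
    exact ⟨rfl, rfl, rfl, rfl⟩
  obtain ⟨g, i, j, hi, ⟨k1, k2, k3, k4, k5⟩ | ⟨k1, k2, k3, k4, k5⟩⟩ := h
  · have hs' := hs
    rw [k1, k2, k3, k4, k5] at hs'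
    obtain ⟨p, l, e0, e1, e2, e3⟩ := key g i j hi hs'
    rw [← k1] at e0
    rw [← k2] at e1
    rw [← k3] at e2
    rw [← k4] at e3
    have := fin a q b y p l e0 e1 e2 e3 h1 (by rw [ry]; exact h2)
    rwa [ry] at this
  · have hs' := hsr
    rw [k1, k2, k3, k4, k5] at hs'
    obtain ⟨p, l, e0, e1, e2, e3⟩ := key g i j hi hs'
    rw [← k1] at e0
    rw [← k2] at e1
    rw [← k3] at e2
    rw [← k4] at e3
    have := (fin b q a z p l e0 e1 e2 e3 h1.symm (by rw [rz]; exact h2)).symm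
    rwa [rz] at this

/-- old squares -/
theorem kfP_q4q {a q b y : V} (h : Q4 S.P a q b y) (hnd : S.ND w ![a, q, b, y])
    (h1 : S.fq w O (S.rho w a) ≠ S.fq w O (S.rho w b))
    (h2 : S.fq w O (S.rho w q) ≠ S.fq w O (S.rho w y)) :
    Q4 (S.kfP hc w O hm hn) (S.fq w O (S.rho w a)) (S.fq w O (S.rho w q)) (S.fq w O (S.rho w b))
      (S.fq w O (S.rho w y)) := by
  have fin : ∀ (g : H) (i : S.K.I) (j : Fin 4), S.P.sq i →
      S.rho w (g • S.P.qt i j) ≠ S.rho w (g • S.P.qt i (j + 2)) →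
      S.rho w (g • S.P.qt i (j + 1)) ≠ S.rho w (g • S.P.qt i (j + 3)) →
      S.fq w O (S.rho w (g • S.P.qt i j)) ≠ S.fq w O (S.rho w (g • S.P.qt i (j + 2))) →
      S.fq w O (S.rho w (g • S.P.qt i (j + 1))) ≠ S.fq w O (S.rho w (g • S.P.qt i (j + 3))) →
      ∃ (l : ↥(stabilizer H w)) (p : {p // S.kept w O p}),
        ∀ m : Fin 4, S.fq w O (S.rho w (g • S.P.qt i m)) =
          l • (S.kfP hc w O hm hn).qt (Sum.inr p) m := by
    intro g i j hi n1 n2 n3 n4
    have e22 : ∀ j : Fin 4, j + 2 + 2 = j := by decide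
    have e31 : ∀ j : Fin 4, j + 1 + 2 = j + 3 ∧ j + 3 + 2 = j + 1 := by decide
    have hnd : S.ND w (S.tq g i) := by
      have hj : ∀ j : Fin 4, (S.rho w (g • S.P.qt i j) ≠ S.rho w (g • S.P.qt i (j + 2)) ∧
          S.rho w (g • S.P.qt i (j + 1)) ≠ S.rho w (g • S.P.qt i (j + 3))) → S.ND w (S.tq g i) := by
        intro j
        fin_cases j
        · exact fun h => ⟨h.1, h.2⟩
        · exact fun h => ⟨h.2.symm, h.1⟩
        · exact fun h => ⟨h.1.symm, h.2.symm⟩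
        · exact fun h => ⟨h.2, h.1.symm⟩
      exact hj j ⟨n1, n2⟩
    obtain ⟨p, l, e1, e2⟩ := exists_e4q hi hnd
    have k : ∀ m : Fin 4, S.rho w (g • S.P.qt i m) = l • S.vq w (Sum.inr p) m := by
      intro m
      show _ = l • S.rho w (S.tq p.g p.1.1 m)
      rw [← S.rho_smul, ← e2, ← e1, mul_smul]
      rfl
    have hk : S.kept w O (Sum.inr p) := by
      have hj : ∀ j : Fin 4, (S.fq w O (S.vq w (Sum.inr p) j) ≠ S.fq w O (S.vq w (Sum.inr p) (j + 2)) ∧
          S.fq w O (S.vq w (Sum.inr p) (j + 1)) ≠ S.fq w O (S.vq w (Sum.inr p) (j + 3))) →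
          S.kept w O (Sum.inr p) := by
        intro j
        fin_cases j
        · exact fun h => ⟨h.1, h.2⟩
        · exact fun h => ⟨h.2.symm, h.1⟩
        · exact fun h => ⟨h.1.symm, h.2.symm⟩
        · exact fun h => ⟨h.2, h.1.symm⟩
      refine hj j ⟨fun e => n3 ?_, fun e => n4 ?_⟩
      · rw [k, k, fq_smul, fq_smul, e]
      · rw [k, k, fq_smul, fq_smul, e]
    refine ⟨l, ⟨Sum.inr p, hk⟩, fun m => ?_⟩
    rw [kfP_qt, k, fq_smul]
  obtain ⟨g, i, j, hi, ⟨k1, k2, k3, k4⟩ | ⟨k1, k2, k3, k4⟩⟩ := h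
  · have n1 : S.rho w a ≠ S.rho w b := hnd.1
    have n2 : S.rho w q ≠ S.rho w y := hnd.2
    rw [k1, k3] at n1 h1
    rw [k2, k4] at n2 h2
    obtain ⟨l, p, hp⟩ := fin g i j hi n1 n2 h1 h2
    refine ⟨l, Sum.inr p, j, kfP_sq hm hn _, Or.inl ?_⟩
    rw [k1, k2, k3, k4]
    exact ⟨hp _, hp _, hp _, hp _⟩
  · have n1 : S.rho w b ≠ S.rho w a := fun e => hnd.1 e.symm
    have n2 : S.rho w q ≠ S.rho w y := hnd.2
    have h1 : S.fq w O (S.rho w b) ≠ S.fq w O (S.rho w a) := h1.symm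
    rw [k1, k3] at n1 h1
    rw [k2, k4] at n2 h2
    obtain ⟨l, p, hp⟩ := fin g i j hi n1 n2 h1 h2
    refine ⟨l, Sum.inr p, j, kfP_sq hm hn _, Or.inr ?_⟩
    rw [k1, k2, k3, k4]
    exact ⟨hp _, hp _, hp _, hp _⟩

include hm hn in
theorem kf_cor5 {a q b y z : V} (h : Qn S.P a q b y z) (hI : S.IsC ![a, q, b, y, z] w) :
    (S.kf hc w O).Cor (S.fq w O (S.rho w a)) (S.fq w O (S.rho w q)) (S.fq w O (S.rho w b)) :=
  (S.kfP hc w O hm hn).cor_iff.2 (Or.inl ⟨_, _, kfP_qn hm hn h hI⟩)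

/-- opposite vertices of a square are different -/
theorem uk_q4_ne (nd : S.P.ND) {a q b y : V} (h : Q4 S.P a q b y) : a ≠ b ∧ q ≠ y := by
  obtain ⟨g, i, j, hi, h⟩ := h
  obtain ⟨n1, n2⟩ := nd i hi
  have key : ∀ j : Fin 4, S.P.qt i j ≠ S.P.qt i (j + 2) := by
    intro j
    fin_cases j
    · exact n1
    · exact n2
    · exact n1.symm
    · exact n2.symm
  have e13 : j + 1 + 2 = j + 3 := by rw [add_assoc]; rfl
  have k1 := key j
  have k2 := key (j + 1)
  rw [e13] at k2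
  rcases h with ⟨rfl, rfl, rfl, rfl⟩ | ⟨rfl, rfl, rfl, rfl⟩
  · exact ⟨fun e => k1 (smul_left_cancel g e), fun e => k2 (smul_left_cancel g e)⟩
  · exact ⟨fun e => k1 (smul_left_cancel g e).symm, fun e => k2 (smul_left_cancel g e)⟩

/-- the ends of a corner are different -/
theorem uk_cor_ne (hnb : S.NB) {a q b : V} (h : S.K.Cor a q b) : a ≠ b := by
  have nd := S.P.nd_nb hnb
  rcases S.P.cor_iff.1 h with ⟨y, z, g, i, j, hi, h⟩ | ⟨y, h⟩
  · have k := S.P.nb5 hnb hi j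
    rcases h with ⟨rfl, -, rfl, -, -⟩ | ⟨rfl, -, rfl, -, -⟩
    · exact fun e => k (smul_left_cancel g e)
    · exact fun e => k (smul_left_cancel g e).symm
  · exact (uk_q4_ne nd h).1

/-- a pentagon with `J q = {w}` and the centre elsewhere is a zero square with the apex `q` -/
theorem uk_off {a q b y z : V} (h : Qn S.P a q b y z) (hq : S.J q = {w})
    (hI : ¬ S.IsC ![a, q, b, y, z] w) : ∃ u, S.Sq w u a q b y z := by
  have hv : ∀ k : Fin 5, S.K.E ((![a, q, b, y, z] : Fin 5 → V) k)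
      ((![a, q, b, y, z] : Fin 5 → V) (k + 1)) := by
    intro k
    fin_cases k
    · exact h.E1
    · exact h.E2
    · exact h.E3
    · exact h.E4
    · exact h.E5
  have hw : w ∈ S.J q := by
    rw [hq]
    exact rfl
  have hcr : ∀ u, S.D.G.Adj w u → ¬ S.Cs w u q := by
    intro u hu hc
    have := hc.2
    rw [hq] at this
    exact hu.ne (Set.mem_singleton_iff.1 this).symm
  have hby : ∀ u, S.D.G.Adj w u → ¬ S.J q ⊆ bey S.D.G w u := by
    intro u hu hs
    exact bey_not (hs hw) (bey_self hu.symm)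
  obtain ⟨u, hu, ⟨k, hk⟩ | hk⟩ := S.off_cases hv hI
  · refine ⟨u, ?_⟩
    fin_cases k
    · exact hk
    · exact absurd hk.2.1 (hcr u hu)
    · exact absurd hk.2.2.2.2.2 (hby u hu)
    · exact absurd hk.2.2.2.2.1 (hby u hu)
    · exact absurd hk.2.2.1 (hcr u hu)
  · exfalso
    rcases hk 1 with ⟨h1, -, -⟩ | h1
    · exact hcr u hu h1
    · have h2 : S.rho w q = Sum.inr ⟨u, hu⟩ := h1
      rw [S.rho_near hw] at h2
      cases h2

include hm hn in
/-- CORNERS AT A VERTEX WITH ONE PLACE -/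
theorem uk_cor (nd : S.P.ND) {a q b : V} (hq : S.J q = {w}) (h : S.K.Cor a q b) :
    (S.kf hc w O).Cor (S.fq w O (S.rho w a)) (S.fq w O (S.rho w q)) (S.fq w O (S.rho w b)) ∨
    (∃ u, ∃ hu : S.Qs w u q a b, S.fq w O (S.rho w a) = S.fq w O (S.rho w b) ∨
      S.fq w O (S.rho w q) = S.fq w O (Sum.inr ⟨u, hu.adj⟩)) ∨
    ∃ y, w ∈ S.J y ∧ Q4 S.P a q b y ∧ (S.fq w O (S.rho w a) = S.fq w O (S.rho w b) ∨
      S.fq w O (S.rho w q) = S.fq w O (S.rho w y)) := by
  have hw : w ∈ S.J q := by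
    rw [hq]
    exact rfl
  have hmem : ∀ x, S.K.E q x → w ∈ S.J x := by
    intro x e
    obtain ⟨p, p0, p1⟩ := S.one_ex e
    rw [hq] at p0
    rwa [Set.mem_singleton_iff.1 p0] at p1
  have ha := hmem a h.E1
  have hb := hmem b h.E2
  rcases S.P.cor_iff.1 h with ⟨y, z, h⟩ | ⟨y, h⟩
  · by_cases hI : S.IsC ![a, q, b, y, z] w
    · exact Or.inl (kf_cor5 hm hn h hI)
    · obtain ⟨u, hs⟩ := uk_off h hq hI
      have hQs : S.Qs w u q a b := ⟨hs.1, hs.2.1, hs.2.2.1, hs.2.2.2.1,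
        Or.inl ⟨y, z, h, hs.2.2.2.2.1, hs.2.2.2.2.2⟩⟩
      by_cases h1 : S.fq w O (S.rho w a) = S.fq w O (S.rho w b)
      · exact Or.inr (Or.inl ⟨u, hQs, Or.inl h1⟩)
      · by_cases h2 : S.fq w O (S.rho w q) = S.fq w O (Sum.inr ⟨u, hs.1⟩)
        · exact Or.inr (Or.inl ⟨u, hQs, Or.inr h2⟩)
        · exact Or.inl ((S.kfP hc w O hm hn).cor_iff.2 (Or.inr ⟨_, kfP_q4 hm hn h hs h1 h2⟩))
  · obtain ⟨n1, n2⟩ := uk_q4_ne nd h
    have hab : S.rho w a ≠ S.rho w b := by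
      rw [S.rho_near ha, S.rho_near hb]
      exact fun e => n1 (congrArg Subtype.val (Sum.inl.inj e))
    by_cases hy : w ∈ S.J y
    · have hqy : S.rho w q ≠ S.rho w y := by
        rw [S.rho_near hw, S.rho_near hy]
        exact fun e => n2 (congrArg Subtype.val (Sum.inl.inj e))
      by_cases h1 : S.fq w O (S.rho w a) = S.fq w O (S.rho w b)
      · exact Or.inr (Or.inr ⟨y, hy, h, Or.inl h1⟩)
      · by_cases h2 : S.fq w O (S.rho w q) = S.fq w O (S.rho w y)
        · exact Or.inr (Or.inr ⟨y, hy, h, Or.inr h2⟩)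
        · exact Or.inl ((S.kfP hc w O hm hn).cor_iff.2
            (Or.inr ⟨_, kfP_q4q hm hn h ⟨hab, hqy⟩ h1 h2⟩))
    · have hu := S.dir_adj hy
      have ca : S.Cs w (S.dir w y) a := ⟨ha, S.dir_cross (Or.symm h.E4) ha hy⟩
      have cb : S.Cs w (S.dir w y) b := ⟨hb, S.dir_cross h.E3 hb hy⟩
      have hqn : S.J q ⊆ bey S.D.G (S.dir w y) w := by
        rw [hq]
        intro p hp
        rw [Set.mem_singleton_iff.1 hp]
        exact bey_self hu.symm
      have hQs : S.Qs w (S.dir w y) q a b := ⟨hu, ca, cb, hqn, Or.inr ⟨y, h, S.dir_bey hy⟩⟩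
      have ry : S.rho w y = Sum.inr ⟨S.dir w y, hu⟩ := S.rho_far hy
      have hqy : S.rho w q ≠ S.rho w y := by
        rw [S.rho_near hw, ry]
        intro e
        cases e
      by_cases h1 : S.fq w O (S.rho w a) = S.fq w O (S.rho w b)
      · exact Or.inr (Or.inl ⟨_, hQs, Or.inl h1⟩)
      · by_cases h2 : S.fq w O (S.rho w q) = S.fq w O (S.rho w y)
        · exact Or.inr (Or.inl ⟨_, hQs, Or.inr (by rw [h2, ry])⟩)
        · exact Or.inl ((S.kfP hc w O hm hn).cor_iff.2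
            (Or.inr ⟨_, kfP_q4q hm hn h ⟨hab, hqy⟩ h1 h2⟩))

/-! ### classes of vertices with one place -/

theorem uk_one {q : V} (hq : S.J q = {w}) : w ∈ S.J q := by
  rw [hq]
  exact rfl

theorem uk_ncr {q : V} (hq : S.J q = {w}) {u : S.X} (hu : S.D.G.Adj w u) : u ∉ S.J q := by
  rw [hq]
  intro e
  exact hu.ne (Set.mem_singleton_iff.1 e).symm

theorem uk_nb {q : V} (hq : S.J q = {w}) {x : V} (e : S.K.E q x) : w ∈ S.J x := by
  obtain ⟨p, p0, p1⟩ := S.one_ex e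
  rw [hq] at p0
  rwa [Set.mem_singleton_iff.1 p0] at p1

theorem uk_fw {q : V} (hq : S.J q = {w}) {g : H} (hg : g • q = q) : g • w = w := by
  have h1 : g • w ∈ S.J (g • q) := S.js.smul g q w (uk_one hq)
  rw [hg, hq] at h1
  exact h1

/-- the class of a vertex which crosses no edge at `w` and is not folded to a sink `t_u` -/
theorem uk_cls {q : V} (hw : w ∈ S.J q) (hcr : ∀ u, S.D.G.Adj w u → u ∉ S.J q)
    (hs : ∀ u, ¬ S.Sk w O u (S.rho w q)) {b : S.SV w}
    (e : S.fq w O b = S.fq w O (S.rho w q)) : b = S.rho w q := by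
  have k := fq_eq.1 e
  have hs' : ∀ u, ¬ S.Sk w O u (Sum.inl ⟨q, hw⟩) := by
    rw [← S.rho_near hw]
    exact hs
  rw [S.rho_near hw] at k ⊢
  have nf : ∀ a b, S.FR w O a b → a ≠ Sum.inl ⟨q, hw⟩ ∧ b ≠ Sum.inl ⟨q, hw⟩ := by
    intro a b k
    cases k with
    | mer u q' y y' h1 h2 h3 =>
      constructor
      · intro e
        have e1 : y.1 = q := congrArg Subtype.val (Sum.inl.inj e)
        have := h1.l.2
        rw [e1] at this
        exact hcr u h1.adj this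
      · intro e
        have e1 : y'.1 = q := congrArg Subtype.val (Sum.inl.inj e)
        have := h1.r.2
        rw [e1] at this
        exact hcr u h1.adj this
    | par u q' y y' h1 h2 h3 h4 =>
      constructor
      · intro e
        have e1 : y.1 = q := congrArg Subtype.val (Sum.inl.inj e)
        have := h1.l.2
        rw [e1] at this
        exact hcr u h1.adj this
      · intro e
        have e1 : y'.1 = q := congrArg Subtype.val (Sum.inl.inj e)
        have := h1.r.2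
        rw [e1] at this
        exact hcr u h1.adj this
    | dia q' u h1 h2 =>
      constructor
      · intro e
        apply hs' u
        rw [← e]
        exact Sk.inl.2 ⟨h1, h2⟩
      · intro e
        cases e
  have key : ∀ a b, Relation.EqvGen (S.FR w O) a b →
      (a = Sum.inl ⟨q, hw⟩ ↔ b = Sum.inl ⟨q, hw⟩) := by
    intro a b k
    induction k with
    | rel a b k => exact ⟨fun e => absurd e (nf _ _ k).1, fun e => absurd e (nf _ _ k).2⟩
    | refl a => exact Iff.rfl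
    | symm a b _ ih => exact ih.symm
    | trans a b c _ _ i1 i2 => exact i1.trans i2
  exact (key _ _ k).2 rfl

theorem uk_nsk {q n : V} (hq : S.J q = {w}) (hn' : S.K.ar n q) :
    ∀ u, ¬ S.Sk w O u (S.rho w n) := by
  intro u hu
  have hw := uk_nb hq (Or.inr hn')
  rw [S.rho_near hw] at hu
  have h := Sk.inl.1 hu
  exact uk_ncr hq u.2 (h.1.1.two hn').2.2

theorem uk_term {q n : V} (hq : S.J q = {w}) (hn' : S.K.ar n q)
    (ho : (∀ b, ¬ S.K.ar q b) ∨ ∀ u, S.D.G.Adj w u → O.op u q) : ∀ y, ¬ S.Dn w O n y := by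
  rintro y ⟨u, s, hu, hcs, h1, h2, h3, h4, h5⟩
  have e : s = q := ar_ar_eq hcs.1 h1 h2 hn' (uk_one hq) hu hcs.2
  subst e
  rcases ho with ho | ho
  · exact ho y h4
  · exact h3.2 (ho u hu)

theorem uk_ar {q n : V} (hq : S.J q = {w}) (hn' : S.K.ar n q)
    (ho : (∀ b, ¬ S.K.ar q b) ∨ ∀ u, S.D.G.Adj w u → O.op u q) :
    (S.kf hc w O).ar (S.fq w O (S.rho w n)) (S.fq w O (S.rho w q)) := by
  have hw := uk_nb hq (Or.inr hn')
  refine arQ_term hw ?_ (uk_term hq hn' ho) (sar_hor hw (uk_one hq) hn')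
  have := uk_nsk (O := O) hq hn'
  rw [S.rho_near hw] at this
  exact this

theorem uk_snk_sk {y : V} (hq : S.J y = {w}) (hy : S.K.Snk y) : ∀ u, ¬ S.Sk w O u (S.rho w y) := by
  intro u hu
  rw [S.rho_near (uk_one hq)] at hu
  obtain ⟨-, a, b, hne, ha, hb, hg⟩ := (Sk.inl.1 hu).1.1
  exact hy a ha

/-- a vertex whose class has another member over `w` crosses an edge at `w` -/
theorem uk_edge {x b : V} (hx : w ∈ S.J x) (hb : w ∈ S.J b) (hs : ∀ u, ¬ S.Sk w O u (S.rho w x))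
    (hne : x ≠ b) (e : S.fq w O (S.rho w x) = S.fq w O (S.rho w b)) :
    ∃ u, S.D.G.Adj w u ∧ S.Cs w u x := by
  by_contra hcon
  push Not at hcon
  have hcr : ∀ u, S.D.G.Adj w u → u ∉ S.J x := fun u hu k => hcon u hu ⟨hx, k⟩
  have := uk_cls hx hcr hs e.symm
  rw [S.rho_near hx, S.rho_near hb] at this
  exact hne (congrArg Subtype.val (Sum.inl.inj this)).symm

include hm hn in
/-- SINKS WITH ONE PLACE (Lemma U): the class is in a cell of the folded slice, or the stabiliser fixes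
an edge at `w` -/
theorem uk_snk (hnb : S.NB) {y : V} (hq : S.J y = {w}) (hy : S.K.Snk y) (hlc : S.K.LC y)
    (hv : S.K.VC y) : (S.kf hc w O).VC (S.fq w O (S.rho w y)) ∨
      ∃ u, S.D.G.Adj w u ∧ ∀ h : H, h • y = y → h • u = u := by
  have nd := S.P.nd_nb hnb
  by_cases hcell : (S.kf hc w O).VC (S.fq w O (S.rho w y))
  · exact Or.inl hcell
  right
  have hw := uk_one hq
  have hsk := uk_snk_sk (O := O) hq hy
  have hcls := fun b e => uk_cls (b := b) hw (fun u hu => uk_ncr hq hu) hsk e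
  -- the two ends of every corner are in one class
  have hcor : ∀ a b, S.K.Cor a y b → S.fq w O (S.rho w a) = S.fq w O (S.rho w b) := by
    intro a b h
    rcases uk_cor hm hn nd hq h with k | ⟨u, hu, k | k⟩ | ⟨z, hz, h4, k | k⟩
    · exact absurd ⟨_, (GX.EC_iff.2 ⟨_, k⟩).symm⟩ hcell
    · exact k
    · exact absurd (fq_inr.1 k) (hsk _)
    · exact k
    · have := hcls _ k.symm
      rw [S.rho_near hw, S.rho_near hz] at this
      exact absurd (congrArg Subtype.val (Sum.inl.inj this)).symm (uk_q4_ne nd h4).2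
  have hlj : ∀ a b, S.K.LJ y a b → S.fq w O (S.rho w a) = S.fq w O (S.rho w b) := by
    intro a b h
    induction h with
    | rel a b h => exact hcor a b h
    | refl a => rfl
    | symm a b _ ih => exact ih.symm
    | trans a b c _ _ i1 i2 => exact i1.trans i2
  obtain ⟨x, hx⟩ := hv
  obtain ⟨b, hxb⟩ := GX.EC_iff.1 hx.symm
  have ax : S.K.ar x y := hxb.E1.resolve_left (hy x)
  have wx := uk_nb hq hxb.E1
  have wb := uk_nb hq hxb.E2
  obtain ⟨u, hu, cu⟩ := uk_edge (O := O) wx wb (uk_nsk hq ax) (uk_cor_ne hnb hxb) (hcor _ _ hxb)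
  refine ⟨u, hu, fun h hh => ?_⟩
  have hhw : h • w = w := uk_fw hq hh
  have e1 := hlj _ _ (hlc x (h • x) hxb.E1 (by
    have := S.K.E_smul h hxb.E1
    rwa [hh] at this))
  have a1 := arQ_up (S := S) (w := w) (O := O) hu cu
  have a2 : S.arQ w O (S.fq w O (S.rho w x)) (S.fq w O (S.rho w y)) :=
    uk_ar (hc := hc) hq ax (Or.inl hy)
  have hu' : S.D.G.Adj w (h • u) := by
    have := S.D.adj_smul h _ _ hu
    rwa [hhw] at this
  have cu' : S.Cs w (h • u) (h • x) := by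
    have := cu.smul h
    rwa [hhw] at this
  have a3 := arQ_up (S := S) (w := w) (O := O) hu' cu'
  rw [← e1] at a3
  rcases arQ_two a1 a2 a3 with e | e | e
  · exact absurd (fq_inr.1 e.symm) (hsk _)
  · exact absurd (fq_inr.1 e) (hsk _)
  · have := Sk.inr.1 (fq_inr.1 e)
    exact (congrArg Subtype.val this).symm

/-! ### vertices with poles -/

/-- all stars at `q` are open -/
theorem uk_q_sk {q : V} (hq : S.J q = {w}) (ho : ∀ u, S.D.G.Adj w u → O.op u q) :
    ∀ u, ¬ S.Sk w O u (S.rho w q) := by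
  intro u hu
  rw [S.rho_near (uk_one hq)] at hu
  exact (Sk.inl.1 hu).2 (ho u.1 u.2)

theorem uk_q_term {q : V} (hq : S.J q = {w}) : ∀ y, ¬ S.Dn w O q y := by
  rintro y ⟨u, s, hu, hcs, -⟩
  exact uk_ncr hq hu hcs.2

theorem uk_q_ar {q b : V} (hq : S.J q = {w}) (ho : ∀ u, S.D.G.Adj w u → O.op u q)
    (hb : S.K.ar q b) : (S.kf hc w O).ar (S.fq w O (S.rho w q)) (S.fq w O (S.rho w b)) := by
  have hw := uk_one hq
  refine arQ_term hw ?_ (uk_q_term hq) (sar_hor hw (uk_nb hq (Or.inl hb)) hb)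
  have := uk_q_sk hq ho
  rw [S.rho_near hw] at this
  exact this

/-- the poles of the class are the classes of the poles -/
theorem uk_q_pole {q : V} (hq : S.J q = {w}) {d : S.Q w O}
    (hd : (S.kf hc w O).ar (S.fq w O (S.rho w q)) d) : ∃ b, S.K.ar q b ∧ d = S.fq w O (S.rho w b) := by
  have hw := uk_one hq
  have hd' : S.arQ w O (S.fq w O (S.rho w q)) d := hd
  rw [S.rho_near hw, arQ_fq] at hd'
  obtain ⟨h1, y, e, hd'⟩ := hd'
  have e1 : q = y.1 := congrArg Subtype.val (Sum.inl.inj e)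
  rw [← e1] at hd'
  have et : S.tm w O q = q := (Tm_tm w O q).eq_of_term (uk_q_term hq)
  rw [et] at hd'
  obtain ⟨c, k, rfl⟩ := hd'
  rw [S.rho_near hw] at k
  cases k with
  | hor a b k => exact ⟨b.1, k, by rw [S.rho_near b.2]; rfl⟩
  | up a u k => exact absurd k (uk_ncr hq u.2)

include hm hn in
/-- VERTICES WITH POLES WITH ONE PLACE: the groups of the pieces -/
theorem uk_pg (hnb : S.NB) (hl : ∀ v, S.K.LC v) {q n : V} {g : H} (hq : S.J q = {w})
    (ho : ∀ u, S.D.G.Adj w u → O.op u q) (h : S.K.PG q n g) :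
    ∃ m, (S.kf hc w O).PG (S.fq w O (S.rho w q)) (S.fq w O (S.rho w m))
      ⟨g, uk_fw hq h.2.2.2.1⟩ := by
  have nd := S.P.nd_nb hnb
  have hw := uk_one hq
  have hsk := uk_q_sk hq ho
  have hcls := fun b e => uk_cls (b := b) hw (fun u hu => uk_ncr hq hu) hsk e
  obtain ⟨⟨b0, hb0⟩, hnq, hec, hg, hij⟩ := h
  have hgw : g • w = w := uk_fw hq hg
  -- in-in corners
  have hic : ∀ a b, S.K.IC q a b →
      (S.kf hc w O).IJ (S.fq w O (S.rho w q)) (S.fq w O (S.rho w a)) (S.fq w O (S.rho w b)) := by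
    rintro a b ⟨h, h1, h2⟩
    have same : S.fq w O (S.rho w a) = S.fq w O (S.rho w b) →
        (S.kf hc w O).IJ (S.fq w O (S.rho w q)) (S.fq w O (S.rho w a)) (S.fq w O (S.rho w b)) := by
      intro e
      rw [e]
      exact Relation.EqvGen.refl _
    rcases uk_cor hm hn nd hq h with k | ⟨u, hu, k | k⟩ | ⟨z, hz, h4, k | k⟩
    · exact Relation.EqvGen.rel _ _ ⟨k, uk_ar hq h1 (Or.inr ho), uk_ar hq h2 (Or.inr ho)⟩
    · exact same k
    · exact absurd (fq_inr.1 k) (hsk _)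
    · exact same k
    · have := hcls _ k.symm
      rw [S.rho_near hw, S.rho_near hz] at this
      exact absurd (congrArg Subtype.val (Sum.inl.inj this)).symm (uk_q4_ne nd h4).2
  have hicj : ∀ a b, S.K.IJ q a b →
      (S.kf hc w O).IJ (S.fq w O (S.rho w q)) (S.fq w O (S.rho w a)) (S.fq w O (S.rho w b)) := by
    intro a b h
    induction h with
    | rel a b h => exact hic a b h
    | refl a => exact Relation.EqvGen.refl _
    | symm a b _ ih => exact ih.symm'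
    | trans a b c _ _ i1 i2 => exact i1.trans' i2
  obtain ⟨m, b, h1, h2, h3, h4⟩ := GX.touch hl hnq hb0
  have h1' : S.K.IJ q n m := by
    refine Relation.EqvGen.mono ?_ _ _ h1
    rintro x y ⟨k1, k2, k3⟩
    exact ⟨k3, k1, k2⟩
  have hmq := uk_ar (hc := hc) hq h2 (Or.inr ho)
  have hqb := uk_q_ar (hc := hc) hq ho h3
  have hrk : S.fq w O (S.rho w m) ≠ S.fq w O (S.rho w b) := by
    intro e
    have r1 := (S.kf hc w O).ar_rk _ _ hmq
    have r2 := (S.kf hc w O).ar_rk _ _ hqb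
    rw [e] at r1
    omega
  have hcor : (S.kf hc w O).Cor (S.fq w O (S.rho w m)) (S.fq w O (S.rho w q))
      (S.fq w O (S.rho w b)) := by
    rcases uk_cor hm hn nd hq h4 with k | ⟨u, hu, k | k⟩ | ⟨z, hz, h4, k | k⟩
    · exact k
    · exact absurd k hrk
    · exact absurd (fq_inr.1 k) (hsk _)
    · exact absurd k hrk
    · have := hcls _ k.symm
      rw [S.rho_near hw, S.rho_near hz] at this
      exact absurd (congrArg Subtype.val (Sum.inl.inj this)).symm (uk_q4_ne nd h4).2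
  refine ⟨m, ⟨_, hqb⟩, hmq, GX.EC_iff.2 ⟨_, hcor⟩, ?_, ?_⟩
  · show (⟨g, uk_fw hq hg⟩ : ↥(stabilizer H w)) • S.fq w O (S.rho w q) = _
    rw [← fq_smul, ← S.rho_smul]
    show S.fq w O (S.rho w (g • q)) = _
    rw [hg]
  · have e : (⟨g, uk_fw hq hg⟩ : ↥(stabilizer H w)) • S.fq w O (S.rho w m) =
        S.fq w O (S.rho w (g • m)) := by
      rw [← fq_smul, ← S.rho_smul]
    rw [e]
    refine hicj _ _ ?_
    have k := h1'.smul g
    rw [hg] at k
    exact h1'.symm'.trans' (hij.trans' k)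

/-- elements which fix the poles fix the poles of the class -/
theorem uk_fix_pole {q : V} {g : H} (hq : S.J q = {w}) (hg : g • q = q)
    (hp : ∀ b, S.K.ar q b → g • b = b) {d : S.Q w O}
    (hd : (S.kf hc w O).ar (S.fq w O (S.rho w q)) d) :
    (⟨g, uk_fw hq hg⟩ : ↥(stabilizer H w)) • d = d := by
  obtain ⟨b, hb, rfl⟩ := uk_q_pole hq hd
  rw [← fq_smul, ← S.rho_smul]
  show S.fq w O (S.rho w (g • b)) = _
  rw [hp b hb]

theorem uk_snk_kf {y : V} (hq : S.J y = {w}) (hy : S.K.Snk y) :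
    (S.kf hc w O).Snk (S.fq w O (S.rho w y)) := by
  intro d hd
  obtain ⟨b, hb, -⟩ := uk_q_pole hq hd
  exact hy b hb

theorem uk_fix_cls {y : V} {g : H} (hq : S.J y = {w}) (hg : g • y = y) :
    (⟨g, uk_fw hq hg⟩ : ↥(stabilizer H w)) • S.fq w O (S.rho w y) = S.fq w O (S.rho w y) := by
  rw [← fq_smul, ← S.rho_smul]
  show S.fq w O (S.rho w (g • y)) = _
  rw [hg]

end cells

end SyQ

end Pool.Agent.DI
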