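import Pool.Agent.DI.HrW
import Pool.Agent.DI.LT0
import Pool.Agent.DI.UK
import Pool.Agent.DI.FCu

/-!
# DI/KpW: local squares and open hubs do not degenerate

`S.Lv w O T a b`: `T` over `w` with two poles `a`, `b` over `w`, all stars at `T` are open. If `[a] = [b]`
then `[T]` has one out-neighbour, so it has no strand in the folded slice (`P45.hairW`):
`Lv.no5` (no centred pentagon passes `T a`), `Lv.no4` (no walk `n, T, a, q` with `n → T` is at `w`),
`Lv.nofar` (no zero square `T, a, n` with `n → T`).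
`S.Loc_ne`: the sides of a local square are not merged. `Lv.hub_ne`: the poles of an open hub are not
merged if the hub has a page or a centred pentagon. `S.NF.kpF`: helper48's `KpF` for `S.opF w F`.
-/

namespace Pool.Agent.DI

open MulAction
open Pool.Agent.SAF (InC orbs FinOrb oc Decomp SAn SA Conv hull dist_edge FinOrb_iff exists_next)
open Pool.Agent.BT (PX PQ JS bey exits lz lz_self lz_ne lz_symm x_next_unique)
open Pool.Agent.BT.TA

open P45

namespace SyQ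

variable {H V : Type} [Group H] [MulAction H V] (S : SyQ H V)

/-- a vertex over `w` with two poles over `w`, all stars open -/
structure Lv (w : S.X) (O : S.OR w) (T a b : V) : Prop where
  ta : S.K.ar T a
  tb : S.K.ar T b
  ne : a ≠ b
  wT : w ∈ S.J T
  wa : w ∈ S.J a
  wb : w ∈ S.J b
  op : ∀ u, S.D.G.Adj w u → O.op u T

variable {S}

/-! ### geometry -/

/-- a pentagon with the corner `n, T, a`, `T` over `w` only -/
theorem kw_fiveS {w : S.X} {n T a y z : V} (hT : ∀ p ∈ S.J T, p = w)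
    (h : Qn S.P n T a y z) : S.IsC ![n, T, a, y, z] w ∨ ∃ u, S.Qs w u T n a ∧
      S.J y ⊆ bey S.D.G w u ∧ S.J z ⊆ bey S.D.G w u := by
  let v : Fin 5 → V := ![n, T, a, y, z]
  have hv : ∀ k, S.K.E (v k) (v (k + 1)) := by
    intro k
    fin_cases k
    · exact h.E1
    · exact h.E2
    · exact h.E3
    · exact h.E4
    · exact h.E5
  obtain ⟨c, hcen⟩ := S.cen hv
  by_cases hcw : c = w
  · left
    rw [← hcw]
    exact hcen
  right
  have hcT : c ∉ S.J T := fun k => hcw (hT c k)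
  have hcn : c ∈ S.J n := (hcen 0).resolve_right hcT
  have hca : c ∈ S.J a := (hcen 1).resolve_left hcT
  have wn : w ∈ S.J n := by
    obtain ⟨p, p0, p1⟩ := S.one_ex h.E1
    rwa [hT p p1] at p0
  have wa : w ∈ S.J a := by
    obtain ⟨p, p0, p1⟩ := S.one_ex h.E2
    rwa [hT p p0] at p1
  obtain ⟨u, hu, e⟩ := exists_next S.D.tree (show w ≠ c from fun k => hcw k.symm)
  have hcb : c ∈ bey S.D.G w u := by
    show S.D.G.dist c w = S.D.G.dist c u + 1
    rw [SimpleGraph.dist_comm, e, SimpleGraph.dist_comm]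
  have cn : S.Cs w u n := conv_cr S.D.tree (S.js.conv n) hu wn hcn (bey_self hu.symm) hcb
  have ca : S.Cs w u a := conv_cr S.D.tree (S.js.conv a) hu wa hca (bey_self hu.symm) hcb
  have hny : ¬ S.Cs w u y := S.adj_nc hu h.E3 ca
  have hnz : ¬ S.Cs w u z := S.adj_nc hu (Or.symm h.E5) cn
  have hyz : S.J y ⊆ bey S.D.G w u ∧ S.J z ⊆ bey S.D.G w u := by
    constructor
    · rcases hcen 3 with k | k
      · exact S.side_of hu hny k hcb
      · exact S.side_adj hu (Or.symm h.E4) hny (S.side_of hu hnz k hcb)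
    · rcases hcen 3 with k | k
      · exact S.side_adj hu h.E4 hnz (S.side_of hu hny k hcb)
      · exact S.side_of hu hnz k hcb
  have hJ : S.J T ⊆ bey S.D.G u w := by
    intro p hp
    rw [hT p hp]
    exact bey_self hu.symm
  exact ⟨u, ⟨hu, cn, ca, hJ, Or.inl ⟨y, z, h, hyz.1, hyz.2⟩⟩, hyz⟩

theorem kw_five {w : S.X} {n T a y z : V} (hT : ∀ p ∈ S.J T, p = w)
    (h : Qn S.P n T a y z) : S.IsC ![n, T, a, y, z] w ∨ ∃ u, S.Qs w u T n a := by
  rcases kw_fiveS hT h with k | ⟨u, k, -⟩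
  · exact Or.inl k
  · exact Or.inr ⟨u, k⟩

theorem kw_ne (hnb : S.NB) {n T a y z : V} (h : Qn S.P n T a y z) : n ≠ a := by
  obtain ⟨g, i, j, hi, ⟨h1, -, h2, -⟩ | ⟨h1, -, h2, -⟩⟩ := h
  · rw [h1, h2]
    exact fun e => S.P.nb5 hnb hi j (smul_left_cancel g e)
  · rw [h1, h2]
    exact fun e => S.P.nb5 hnb hi j (smul_left_cancel g e).symm

/-- a walk `n, T, a, q`, `T` over `w` only, `q` not over `w` -/
theorem kw_four {w : S.X} {n T a q : V} (hT : ∀ p ∈ S.J T, p = w)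
    (h : Q4 S.P n T a q) (hq : w ∉ S.J q) : ∃ u, S.Qs w u T n a := by
  have wn : w ∈ S.J n := by
    obtain ⟨p, p0, p1⟩ := S.one_ex h.E1
    rwa [hT p p1] at p0
  have wa : w ∈ S.J a := by
    obtain ⟨p, p0, p1⟩ := S.one_ex h.E2
    rwa [hT p p0] at p1
  have hu := S.dir_adj hq
  have ca := S.dir_cross h.E3 wa hq
  have cn := S.dir_cross (Or.symm h.E4) wn hq
  have hJ : S.J T ⊆ bey S.D.G (S.dir w q) w := by
    intro p hp
    rw [hT p hp]
    exact bey_self hu.symm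
  exact ⟨S.dir w q, hu, ⟨wn, cn⟩, ⟨wa, ca⟩, hJ, Or.inr ⟨q, h, S.dir_bey hq⟩⟩

namespace Lv

variable {w : S.X} {O : S.OR w} {T a b : V} (h : S.Lv w O T a b)

include h

theorem symm : S.Lv w O T b a := ⟨h.tb, h.ta, h.ne.symm, h.wT, h.wb, h.wa, h.op⟩

theorem loc {u : S.X} (hu : S.D.G.Adj w u) : u ∉ S.J T :=
  loc_of_ar h.ta h.tb h.ne h.wT h.wa h.wb hu

theorem J1 : ∀ p ∈ S.J T, p = w := fun _ hp => one_of_loc h.wT (fun _ hu => h.loc hu) hp

theorem sk (u : S.EV w) : ¬ S.Sk w O u (Sum.inl ⟨T, h.wT⟩) := fun k => (Sk.inl.1 k).2 (h.op _ u.2)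

theorem wn {n : V} (e : S.K.E n T) : w ∈ S.J n := by
  obtain ⟨p, p0, p1⟩ := S.one_ex e
  rw [h.J1 _ p1] at p0
  exact p0

theorem poles {c : V} (e : S.K.ar T c) : c = a ∨ c = b := by
  rcases S.K.two _ _ _ _ h.ta h.tb e with k | k | k
  · exact absurd k h.ne
  · exact Or.inr k.symm
  · exact Or.inl k.symm

theorem nsk {n : V} (e : S.K.ar n T) (wn : w ∈ S.J n) (u : S.EV w) :
    ¬ S.Sk w O u (Sum.inl ⟨n, wn⟩) := by
  intro k
  have k1 := (Sk.inl.1 k).1.1.two e
  exact h.loc k1.1 k1.2.2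

theorem ndn {n : V} (e : S.K.ar n T) (y : V) : ¬ S.Dn w O n y := by
  rintro ⟨u, s, hu, hc, h1, h2, h3, -⟩
  have es : T = s := ar_ar_eq hc.1 e h.wT h1 h2 hu hc.2
  subst es
  exact h3.2 (h.op u hu)

theorem ar_n {n : V} (e : S.K.ar n T) :
    S.arQ w O (S.fq w O (S.rho w n)) (S.fq w O (S.rho w T)) := by
  have wn := h.wn (Or.inl e)
  rw [S.rho_near wn, S.rho_near h.wT]
  exact arQ_of (h.nsk e wn) (h.ndn e) (SAr.hor _ _ e)

theorem ar_a : S.arQ w O (S.fq w O (S.rho w T)) (S.fq w O (S.rho w a)) := by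
  rw [S.rho_near h.wa, S.rho_near h.wT]
  exact arQ_of h.sk (Dn.not_loc fun _ hu => h.loc hu) (SAr.hor _ _ h.ta)

theorem n_ne_a {n : V} (e : S.K.ar n T) : S.fq w O (S.rho w n) ≠ S.fq w O (S.rho w a) := by
  intro k
  have h1 := arQ_rk (h.ar_n e)
  have h2 := arQ_rk h.ar_a
  rw [k] at h1
  omega

theorem T_eq {c : S.SV w} (hc : S.fq w O c = S.fq w O (S.rho w T)) : c = S.rho w T := by
  rw [S.rho_near h.wT] at hc ⊢
  exact fq_loc (fun _ hu => h.loc hu) h.sk hc

/-- the out-neighbours of `[T]` -/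
theorem out {d : S.Q w O} (hd : S.arQ w O (S.fq w O (S.rho w T)) d) :
    d = S.fq w O (S.rho w a) ∨ d = S.fq w O (S.rho w b) := by
  rw [S.rho_near h.wT, arQ_fq,
    GN_tm h.wT h.sk (Tm.base T (Dn.not_loc fun _ hu => h.loc hu))] at hd
  obtain ⟨y, e, rfl⟩ := hd
  rw [S.rho_near h.wT] at e
  cases e with
  | hor x s e =>
    rw [S.rho_near h.wa, S.rho_near h.wb]
    rcases h.poles e with k | k
    · left
      congr 2
      exact Subtype.ext k
    · right
      congr 2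
      exact Subtype.ext k
  | up x u e => exact absurd e (h.loc u.2)

end Lv

/-! ### merged poles -/

section

variable {hc : S.Conn} {w : S.X} {O : S.OR w} (hm : (S.k0 hc w).Min) (hn : S.SqN w O)

/-- what is used of the tops of the folded slice -/
structure KX1 : Prop where
  top : ∀ i, (S.kfP hc w O hm hn).sq i → ∃ j, (S.kfP hc w O hm hn).tp i j
  x1 : ∀ T a b y, (S.kfP hc w O hm hn).Top T a b y → 1 ≤ (S.kfP hc w O hm hn).X T a

/-- the same for the tops of rank `> R` only -/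
structure KXr (R : ℕ) : Prop where
  top : ∀ i, (S.kfP hc w O hm hn).sq i → ∃ j, (S.kfP hc w O hm hn).tp i j
  x1 : ∀ T a b y, (S.kfP hc w O hm hn).Top T a b y → R < S.rkQ w O T →
    1 ≤ (S.kfP hc w O hm hn).X T a

variable {hm hn}

theorem KX1.r (hx : KX1 hm hn) (R : ℕ) : KXr hm hn R := ⟨hx.top, fun T a b y h _ => hx.x1 T a b y h⟩

/-- no strands at `[T]` if the poles of `T` are merged -/
theorem Lv.hair {T a b : V} (hx : KXr hm hn (S.rkQ w O (S.fq w O (S.rho w T))))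
    (h : S.Lv w O T a b)
    (e : S.fq w O (S.rho w a) = S.fq w O (S.rho w b)) :
    (∀ n y z, ¬ Qn (S.kfP hc w O hm hn) n (S.fq w O (S.rho w T)) (S.fq w O (S.rho w a)) y z) ∧
    ∀ n q, Q4 (S.kfP hc w O hm hn) n (S.fq w O (S.rho w T)) (S.fq w O (S.rho w a)) q →
      ¬ (S.kf hc w O).ar n (S.fq w O (S.rho w T)) := by
  refine (S.kfP hc w O hm hn).hairW (S.kfP_nd hc w O hm hn) (S.kf_min hc w O hm) hx.top
    (fun T a b y k k' => hx.x1 T a b y k k') ?_ ?_
  · rw [S.kf_ar]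
    exact h.ar_a
  · intro d hd
    rw [S.kf_ar] at hd
    rcases h.out hd with k | k
    · exact k
    · rw [k, e]

theorem Lv.no5 {T a b : V} (hx : KXr hm hn (S.rkQ w O (S.fq w O (S.rho w T))))
    (h : S.Lv w O T a b)
    (e : S.fq w O (S.rho w a) = S.fq w O (S.rho w b)) {n y z : V} (hq : Qn S.P n T a y z)
    (hI : S.IsC ![n, T, a, y, z] w) : False :=
  (h.hair hx e).1 _ _ _ (kfP_qn hm hn hq hI)

theorem Lv.nofar {T a b : V} (hx : KXr hm hn (S.rkQ w O (S.fq w O (S.rho w T))))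
    (h : S.Lv w O T a b)
    (e : S.fq w O (S.rho w a) = S.fq w O (S.rho w b)) {u : S.X} {n : V} (hQ : S.Qs w u T n a)
    (en : S.K.ar n T) : False := by
  have hna := h.n_ne_a en
  have hne : n ≠ a := fun r => hna (by rw [r])
  have hsk : S.fq w O (S.rho w T) ≠ S.fq w O (Sum.inr ⟨u, hQ.adj⟩) := by
    intro e
    rw [S.rho_near h.wT] at e
    exact h.sk _ (fq_inr.1 e)
  refine (h.hair hx e).2 _ _ ((Qs.k0 hc hQ hne).kfq hna hsk) ?_
  rw [S.kf_ar]
  exact h.ar_n en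

theorem Lv.no4 {T a b : V} (hx : KXr hm hn (S.rkQ w O (S.fq w O (S.rho w T))))
    (h : S.Lv w O T a b)
    (e : S.fq w O (S.rho w a) = S.fq w O (S.rho w b)) {n q : V} (hq : Q4 S.P n T a q)
    (hTq : T ≠ q) (en : S.K.ar n T) : False := by
  by_cases wq : w ∈ S.J q
  · have hna := h.n_ne_a en
    have hne : n ≠ a := fun r => hna (by rw [r])
    have hTq' : S.fq w O (S.rho w T) ≠ S.fq w O (S.rho w q) := by
      intro k
      have := h.T_eq k.symm
      exact hTq (rho_inj wq this).symm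
    have wn := h.wn (Or.inl en)
    refine (h.hair hx e).2 _ _ ((hq.k0q hc (rho_ne_of_ne wn hne)
      (rho_ne_of_ne h.wT hTq)).kfq hna hTq') ?_
    rw [S.kf_ar]
    exact h.ar_n en
  · obtain ⟨u, hQ⟩ := kw_four h.J1 hq wq
    exact h.nofar hx e hQ en

/-- the poles of an open hub are not merged: the hub has a page which sees `a`, or a centred pentagon -/
theorem Lv.hub_ne {T a b : V} (hx : KXr hm hn (S.rkQ w O (S.fq w O (S.rho w T))))
    (h : S.Lv w O T a b)
    (hst : (∃ n y z, Qn S.P n T a y z ∧ (S.K.ar n T ∨ S.IsC ![n, T, a, y, z] w)) ∨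
      ∃ n q, Q4 S.P n T a q ∧ T ≠ q ∧ S.K.ar n T) :
    S.fq w O (S.rho w a) ≠ S.fq w O (S.rho w b) := by
  intro e
  rcases hst with ⟨n, y, z, hq, k | k⟩ | ⟨n, q, hq, hTq, k⟩
  · rcases kw_five h.J1 hq with r | ⟨u, r⟩
    · exact h.no5 hx e hq r
    · exact h.nofar hx e r k
  · exact h.no5 hx e hq k
  · exact h.no4 hx e hq hTq k

/-- the same with strands: a strand at `T a` which is not a direct pentagon over an edge -/
theorem Lv.ne_of_X {T a b : V} (hx : KXr hm hn (S.rkQ w O (S.fq w O (S.rho w T))))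
    (nd : S.P.ND) (hnb : S.NB) (h : S.Lv w O T a b)
    (hX : 1 ≤ S.P.X T a) (hd : ∀ u, ¬ S.Qs w u T b a) :
    S.fq w O (S.rho w a) ≠ S.fq w O (S.rho w b) := by
  refine h.hub_ne hx ?_
  rcases hw_strand hX with ⟨n, y, z, hq⟩ | ⟨n, q, hq, hn'⟩
  · left
    refine ⟨n, y, z, hq, ?_⟩
    rcases hq.E1 with k | k
    · exact Or.inl k
    · right
      have hna : n ≠ a := kw_ne hnb hq
      rcases kw_five h.J1 hq with r | ⟨u, r⟩
      · exact r
      · rcases h.poles k with e | e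
        · exact absurd e hna
        · rw [e] at r
          exact absurd r (hd u)
  · right
    exact ⟨n, q, hq, (hq.ck_ne nd).2, hn'⟩

/-- a local top is a vertex with open stars -/
theorem OR.Nf.lv (hO : O.Nf) (hK : S.KIn w) {T a b y : V} (ht : S.P.Top T a b y)
    (hl : S.Loc w T a b y) : S.Lv w O T a b where
  ta := ht.2.1
  tb := ht.2.2
  ne := hK.nab _ _ _ _ ht
  wT := hl.1
  wa := hl.2.1
  wb := hl.2.2.1
  op u hu := hO.n1 T hl.1 (hO.n5 T a b y ht hl) u hu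

/-- THE SIDES OF A LOCAL SQUARE ARE NOT MERGED, ranked form -/
theorem Loc_ne_r {T a b y : V} (hx : KXr hm hn (S.rkQ w O (S.fq w O (S.rho w T))))
    (hO : O.Nf) (hK : S.KIn w) (nd : S.P.ND) (hnb : S.NB)
    (ht : S.P.Top T a b y) (hl : S.Loc w T a b y) (hX : 1 ≤ S.P.X T a) :
    S.fq w O (S.rho w a) ≠ S.fq w O (S.rho w b) := by
  refine (hO.lv hK ht hl).ne_of_X hx nd hnb hX ?_
  intro u hQ
  exact hO.n5 T a b y ht hl u ⟨hl.1, b, a, (hK.nab _ _ _ _ ht).symm, ht.2.2, ht.2.1,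
    Relation.EqvGen.rel _ _ hQ⟩

/-- THE SIDES OF A LOCAL SQUARE ARE NOT MERGED -/
theorem Loc_ne (hx : KX1 hm hn) (hO : O.Nf) (hK : S.KIn w) (nd : S.P.ND) (hnb : S.NB)
    {T a b y : V} (ht : S.P.Top T a b y) (hl : S.Loc w T a b y) (hX : 1 ≤ S.P.X T a) :
    S.fq w O (S.rho w a) ≠ S.fq w O (S.rho w b) := Loc_ne_r (hx.r _) hO hK nd hnb ht hl hX

/-- LOCAL SQUARES DO NOT DEGENERATE -/
theorem loc_kept (hx : KX1 hm hn) (hO : O.Nf) (hK : S.KIn w) (nd : S.P.ND) (hnb : S.NB)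
    (hX : ∀ T a b y, S.P.Top T a b y → S.Loc w T a b y → 1 ≤ S.P.X T a) {a q b y : V}
    (h : Q4 S.P a q b y) (hl : S.At4 a q b y w) :
    S.fq w O (S.rho w a) ≠ S.fq w O (S.rho w b) := by
  obtain ⟨wa, wq, wb, wy⟩ := hl
  have hab := (h.ck_ne nd).1
  have key : ∀ a b q y : V, w ∈ S.J a → w ∈ S.J b → w ∈ S.J q → w ∈ S.J y → a ≠ b →
      S.P.Top a q y b → S.fq w O (S.rho w a) ≠ S.fq w O (S.rho w b) := by
    intro a b q y wa wb wq wy hab k e
    have hl : S.Loc w a q y b := ⟨wa, wq, wy, wb⟩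
    have := (hO.lv hK k hl).T_eq e.symm
    exact hab (rho_inj wb this).symm
  rcases h.ck_top hK.top with k | k | k | k
  · exact key a b q y wa wb wq wy hab k
  · have hl : S.Loc w q b a y := ⟨wq, wb, wa, wy⟩
    exact (Loc_ne hx hO hK nd hnb k hl (hX _ _ _ _ k hl)).symm
  · exact (key b a y q wb wa wy wq hab.symm k).symm
  · have hl : S.Loc w y a b q := ⟨wy, wa, wb, wq⟩
    exact Loc_ne hx hO hK nd hnb k hl (hX _ _ _ _ k hl)

end

/-- THE STRAND CONDITION of a two-pole hub `q` at the pole `a`: a cell with a corner `n, q, a`, `n → q`,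
or a pentagon with a corner at `q, a` which is centred at `w` -/
def HSt (S : SyQ H V) (w : S.X) (q a : V) : Prop :=
  (∃ n y z, Qn S.P n q a y z ∧ (S.K.ar n q ∨ S.IsC ![n, q, a, y, z] w)) ∨
    ∃ n m, Q4 S.P n q a m ∧ S.K.ar n q

/-- an edge which leaves a set -/
theorem eqv_leave {Y : Type} {r : Y → Y → Prop} {p : Y → Prop} {x y : Y}
    (h : Relation.EqvGen r x y) (hx : p x) (hy : ¬ p y) :
    ∃ a b, (r a b ∨ r b a) ∧ p a ∧ ¬ p b := by
  have key : ∀ x y, Relation.EqvGen r x y → (p x ↔ p y) ∨ ∃ a b, (r a b ∨ r b a) ∧ p a ∧ ¬ p b := by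
    intro x y h
    induction h with
    | rel x y h =>
      by_cases h1 : p x
      · by_cases h2 : p y
        · exact Or.inl ⟨fun _ => h2, fun _ => h1⟩
        · exact Or.inr ⟨x, y, Or.inl h, h1, h2⟩
      · by_cases h2 : p y
        · exact Or.inr ⟨y, x, Or.inr h, h2, h1⟩
        · exact Or.inl ⟨fun k => absurd k h1, fun k => absurd k h2⟩
    | refl x => exact Or.inl Iff.rfl
    | symm x y _ ih =>
      rcases ih with k | k
      · exact Or.inl k.symm
      · exact Or.inr k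
    | trans x y z _ _ i1 i2 =>
      rcases i1 with k1 | k1
      · rcases i2 with k2 | k2
        · exact Or.inl (k1.trans k2)
        · exact Or.inr k2
      · exact Or.inr k1
  rcases key x y h with k | k
  · exact absurd (k.1 hx) hy
  · exact k

/-- a hub with a page and a connected link has strands -/
theorem HSt.of_page {w : S.X} {q a b n : V} (qa : S.K.ar q a) (qb : S.K.ar q b) (hab : a ≠ b)
    (hn : S.K.ar n q) (hlc : S.K.LC q) : S.HSt w q a ∨ S.HSt w q b := by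
  have h := hlc n a (Or.inr hn) (Or.inl qa)
  obtain ⟨c, d, hcd, hc, hd⟩ := eqv_leave (p := fun x => S.K.ar x q) h hn (GX.ck_asym qa)
  have hcd' : S.K.Cor c q d := by
    rcases hcd with k | k
    · exact k
    · exact k.symm
  have hqd : S.K.E q d := by
    rcases S.P.cor_iff.1 hcd' with ⟨y, z, k⟩ | ⟨y, k⟩
    · exact k.E2
    · exact k.E2
  have hqd' : S.K.ar q d := hqd.resolve_right hd
  have key : S.HSt w q d := by
    rcases S.P.cor_iff.1 hcd' with ⟨y, z, k⟩ | ⟨y, k⟩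
    · exact Or.inl ⟨c, y, z, k, Or.inl hc⟩
    · exact Or.inr ⟨c, y, k, hc⟩
  rcases S.K.two _ _ _ _ qa qb hqd' with e | e | e
  · exact absurd e hab
  · rw [← e] at key
    exact Or.inr key
  · rw [← e] at key
    exact Or.inl key

theorem Lv.hub_ne' {hc : S.Conn} {w : S.X} {O : S.OR w} {hm : (S.k0 hc w).Min}
    {hn : S.SqN w O} {T a b : V} (hx : KXr hm hn (S.rkQ w O (S.fq w O (S.rho w T))))
    (nd : S.P.ND) (h : S.Lv w O T a b)
    (hst : S.HSt w T a ∨ S.HSt w T b) : S.fq w O (S.rho w a) ≠ S.fq w O (S.rho w b) := by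
  rcases hst with (k | ⟨n, m, k1, k2⟩) | (k | ⟨n, m, k1, k2⟩)
  · exact h.hub_ne hx (Or.inl k)
  · exact h.hub_ne hx (Or.inr ⟨n, m, k1, (k1.ck_ne nd).2, k2⟩)
  · exact (h.symm.hub_ne hx (Or.inl k)).symm
  · exact (h.symm.hub_ne hx (Or.inr ⟨n, m, k1, (k1.ck_ne nd).2, k2⟩)).symm

/-- from `X ≥ 1` at the tops of the folded slice -/
theorem KX1.of {hc : S.Conn} {w : S.X} {O : S.OR w} (hm : (S.k0 hc w).Min) (hn : S.SqN w O)
    (hO : O.Nf) (hK : S.KIn w)
    (x1 : ∀ p ∈ (S.kfP hc w O hm hn).TA, 1 ≤ (S.kfP hc w O hm hn).X p.1 p.2) : KX1 hm hn where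
  top := kf_top hO hK
  x1 T a b y h := x1 (T, a) ⟨b, y, h⟩

/-- the poles of an open hub over an edge are not merged -/
theorem pp_kept {hc : S.Conn} {w : S.X} {O : S.OR w} {hm : (S.k0 hc w).Min}
    {hn : S.SqN w O} (hx : KX1 hm hn) (nd : S.P.ND) {u : S.X} {q a b : V}
    (wq : w ∈ S.J q) (ho : ∀ u, S.D.G.Adj w u → O.op u q) (qa : S.K.ar q a) (qb : S.K.ar q b)
    (hab : a ≠ b) (hQ : S.Qs w u q a b) (hh : S.HSt w q a ∨ S.HSt w q b) :
    S.fq w O (S.rho w a) ≠ S.fq w O (S.rho w b) :=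
  Lv.hub_ne' (hx.r _) nd ⟨qa, qb, hab, wq, hQ.l.1, hQ.r.1, ho⟩ hh

/-- THE HYPOTHESES `KpF` OF THE FOLD LAW: `hX` (the tops of the local squares have strands), `hh` (an open
hub with two poles in one zero square has the strand condition) -/
theorem NF.kpF {hc : S.Conn} {w : S.X} {F : Set V} (hF : S.NF w F) {hm : (S.k0 hc w).Min}
    {hn : S.SqN w (S.opF w F hF.inv)} (hx : KX1 hm hn) (hK : S.KIn w) (nd : S.P.ND)
    (hnb : S.NB) (hX : ∀ T a b y, S.P.Top T a b y → S.Loc w T a b y → 1 ≤ S.P.X T a)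
    (hh : ∀ u q a b, w ∈ S.J q → q ∉ F → S.K.ar q a → S.K.ar q b → a ≠ b → S.Qs w u q a b →
      S.HSt w q a ∨ S.HSt w q b) : S.KpF w F hF.inv where
  two := hF.two
  hub u q a b wq hq qa qb hab hQ :=
    pp_kept hx nd wq (fun _ _ => ⟨wq, hq⟩) qa qb hab hQ (hh u q a b wq hq qa qb hab hQ)
  loc _ _ _ _ h hl _ _ := loc_kept hx hF.nf hK nd hnb hX h hl

end SyQ

end Pool.Agent.DI
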