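import Pool.Agent.DI.FG

/-!
# The contribution of one vertex (Lemma 1.3)

`FG.comp`: the components of a finite multigraph. `FG.del D`: the graph without the nodes of `D`.
`FG.l13`: `G` connected, `D` a set of nodes (lost nodes and poles), `S` a set of nodes outside `D`
(self local pieces). The sum of `deg - 2` over the nodes outside `D` and `S` and of `deg - 1` over
the nodes of `S` (the contribution after the step) minus `b1 G` (the contribution before) is the sum
of `s Y + b1 Y - 1` over the components `Y` of `G` without `D`, plus `|D| - 1`, minus the number of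
lines with both ends in `D`. A pole or a lost node which is adjacent to a lost node by a line counts
as a component `Y` with `s Y = b1 Y = 0`, this is the last term.
-/

namespace Pool.Agent.DI

namespace FG

variable (G : FG)

/-! ### components -/

/-- the component `Y` -/
def comp (Y : G.C) : FG := G.part G.c c_line Y

theorem comp_cn (Y : G.C) : (G.comp Y).Cn := by
  rw [cn_iff]
  obtain ⟨y, rfl⟩ := c_surj Y
  refine ⟨⟨⟨y, rfl⟩⟩, ?_⟩
  rintro ⟨x, hx⟩ ⟨z, hz⟩
  exact part_c (f := G.c) c_line (c_eq.1 (hx.trans hz.symm)) hx hz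

theorem b1_comp [Fintype G.C] : G.b1 = ∑ Y, (G.comp Y).b1 := G.b1_part G.c c_line

theorem sum_comp [Fintype G.C] : ∑ Y, ((G.comp Y).b1 - 1) = (G.nL : ℤ) - G.nN := by
  rw [Finset.sum_sub_distrib, ← G.b1_comp]
  unfold b1 nC
  rw [Nat.card_eq_fintype_card]
  simp

/-! ### deletion of nodes -/

/-- the graph without the nodes of `D` -/
def del (D : Set G.N) : FG where
  N := {x // x ∉ D}
  L := {e // G.a e ∉ D ∧ G.b e ∉ D}
  fN := inferInstance
  fL := inferInstance
  a e := ⟨G.a e.1, e.2.1⟩
  b e := ⟨G.b e.1, e.2.2⟩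

/-- number of lines with both ends in `D` -/
noncomputable def nDD (D : Set G.N) : ℕ := Nat.card {e // G.a e ∈ D ∧ G.b e ∈ D}

theorem nN_del (D : Set G.N) : (G.del D).nN + Nat.card ↥D = G.nN := by
  classical
  have e : G.N ≃ {x // x ∈ D} ⊕ {x // x ∉ D} := (Equiv.sumCompl (fun x => x ∈ D)).symm
  have h := Nat.card_congr e
  rw [Nat.card_sum] at h
  unfold nN
  rw [h, add_comm]
  rfl

theorem sum_deg_set [Fintype G.N] (D : Set G.N) [DecidablePred (· ∈ D)] :
    ∑ x, (if x ∈ D then G.deg x else 0) =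
      Nat.card {e // G.a e ∈ D} + Nat.card {e // G.b e ∈ D} := by
  classical
  have key : ∀ g : G.L → G.N, ∑ x, (if x ∈ D then Nat.card {e // g e = x} else 0) =
      Nat.card {e // g e ∈ D} := by
    intro g
    have h1 := card_fib (fun e : {e // g e ∈ D} => g e.1)
    rw [h1]
    apply Finset.sum_congr rfl
    intro x _
    split_ifs with hx
    · apply Nat.card_congr
      exact {
        toFun := fun e => ⟨⟨e.1, by rw [e.2]; exact hx⟩, e.2⟩
        invFun := fun e => ⟨e.1.1, e.2⟩
        left_inv := fun _ => rfl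
        right_inv := fun _ => rfl }
    · have : IsEmpty {e : {e // g e ∈ D} // g e.1 = x} := ⟨fun e => hx (e.2 ▸ e.1.2)⟩
      rw [Nat.card_of_isEmpty]
  rw [← key G.a, ← key G.b, ← Finset.sum_add_distrib]
  apply Finset.sum_congr rfl
  intro x _
  split_ifs
  · rfl
  · rfl

/-- the lines -/
theorem nL_del [Fintype G.N] (D : Set G.N) [DecidablePred (· ∈ D)] :
    (G.del D).nL + ∑ x, (if x ∈ D then G.deg x else 0) = G.nL + G.nDD D := by
  classical
  have := Fintype.ofFinite G.L
  rw [sum_deg_set]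
  have h1 : Nat.card {e // G.a e ∈ D} = (Finset.univ.filter (fun e => G.a e ∈ D)).card := by
    rw [Nat.card_eq_fintype_card, Fintype.card_subtype]
  have h2 : Nat.card {e // G.b e ∈ D} = (Finset.univ.filter (fun e => G.b e ∈ D)).card := by
    rw [Nat.card_eq_fintype_card, Fintype.card_subtype]
  have h3 : G.nDD D = (Finset.univ.filter (fun e => G.a e ∈ D) ∩
      Finset.univ.filter (fun e => G.b e ∈ D)).card := by
    rw [← Finset.filter_and]
    unfold nDD
    rw [Nat.card_eq_fintype_card, Fintype.card_subtype]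
  have h4 : (G.del D).nL = ((Finset.univ.filter (fun e => G.a e ∈ D) ∪
      Finset.univ.filter (fun e => G.b e ∈ D))ᶜ).card := by
    rw [← Finset.filter_or, Finset.compl_filter]
    unfold nL
    show Nat.card {e // G.a e ∉ D ∧ G.b e ∉ D} = _
    rw [Nat.card_eq_fintype_card, Fintype.card_subtype]
    congr 1
    ext e
    simp only [Finset.mem_filter, Finset.mem_univ, true_and]
    exact not_or.symm
  have h5 : G.nL = Fintype.card G.L := Nat.card_eq_fintype_card
  have h6 := Finset.card_union_add_card_inter (Finset.univ.filter (fun e => G.a e ∈ D))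
    (Finset.univ.filter (fun e => G.b e ∈ D))
  have h7 := Finset.card_compl_add_card (Finset.univ.filter (fun e => G.a e ∈ D) ∪
      Finset.univ.filter (fun e => G.b e ∈ D))
  rw [h1, h2, h3, h4, h5]
  omega

/-! ### Lemma 1.3 -/

/-- the contribution after the step: `2 (λ - 1) = deg - 2` for a local piece which is not self,
`λ - 1 = deg - 1` for a self local piece, `0` for the nodes of `D` -/
noncomputable def aft [Fintype G.N] (D S : Set G.N) : ℤ := by
  classical
  exact ∑ x, (if x ∈ D then 0 else if x ∈ S then (G.deg x : ℤ) - 1 else (G.deg x : ℤ) - 2)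

/-- number of self local pieces in the component `Y` -/
noncomputable def sC (D S : Set G.N) (Y : (G.del D).C) : ℕ :=
  Nat.card {x : (G.del D).N // x.1 ∈ S ∧ (G.del D).c x = Y}

theorem sum_sC {D S : Set G.N} (hSD : ∀ x ∈ S, x ∉ D) [Fintype (G.del D).C] :
    ∑ Y, G.sC D S Y = Nat.card ↥S := by
  have h := card_fib (fun x : ↥S => (G.del D).c ⟨x.1, hSD x.1 x.2⟩)
  rw [h]
  apply Finset.sum_congr rfl
  intro Y _
  apply Nat.card_congr
  exact {
    toFun := fun x => ⟨⟨x.1.1, x.2.1⟩, x.2.2⟩
    invFun := fun x => ⟨⟨x.1.1, hSD x.1.1 x.1.2⟩, x.1.2, x.2⟩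
    left_inv := fun _ => rfl
    right_inv := fun _ => rfl }

theorem aft_eq [Fintype G.N] {D S : Set G.N} (hSD : ∀ x ∈ S, x ∉ D) :
    G.aft D S = (G.nL : ℤ) - G.nDD D + (G.del D).nL - 2 * (G.del D).nN + Nat.card ↥S := by
  classical
  have h1 : G.aft D S = ∑ x, (G.deg x : ℤ) - ∑ x, (if x ∈ D then (G.deg x : ℤ) else 0) -
      2 * ∑ x, (if x ∈ D then (0:ℤ) else 1) + ∑ x, (if x ∈ S then (1:ℤ) else 0) := by
    unfold aft
    rw [Finset.mul_sum, ← Finset.sum_sub_distrib, ← Finset.sum_sub_distrib,
      ← Finset.sum_add_distrib]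
    apply Finset.sum_congr rfl
    intro x _
    by_cases hD : x ∈ D
    · have hS : x ∉ S := fun h => hSD x h hD
      simp [hD, hS]
    · by_cases hS : x ∈ S
      · simp [hD, hS]
        ring
      · simp [hD, hS]
  have h2 : (∑ x, (G.deg x : ℤ)) = 2 * G.nL := by exact_mod_cast G.sum_deg
  have h3 : (∑ x, (if x ∈ D then (G.deg x : ℤ) else 0)) = G.nL + G.nDD D - (G.del D).nL := by
    have h := G.nL_del D
    have h' : (∑ x, (if x ∈ D then (G.deg x : ℤ) else 0)) =
        ((∑ x, (if x ∈ D then G.deg x else 0) : ℕ) : ℤ) := by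
      push_cast
      rfl
    rw [h']
    omega
  have h4 : ∑ x, (if x ∈ S then (1:ℤ) else 0) = Nat.card ↥S := by
    rw [Finset.sum_ite, Finset.sum_const_zero, add_zero, Finset.sum_const, nsmul_eq_mul, mul_one,
      Nat.card_eq_fintype_card, Fintype.card_subtype]
  have h5 : ∑ x, (if x ∈ D then (0:ℤ) else 1) = (G.del D).nN := by
    rw [Finset.sum_ite, Finset.sum_const_zero, zero_add, Finset.sum_const, nsmul_eq_mul, mul_one]
    unfold nN
    show _ = ((Nat.card {x // x ∉ D} : ℕ) : ℤ)
    rw [Nat.card_eq_fintype_card, Fintype.card_subtype]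
  rw [h1, h2, h3, h4, h5]
  ring

/-- LEMMA 1.3 -/
theorem l13 [Fintype G.N] (hc : G.Cn) {D S : Set G.N} (hSD : ∀ x ∈ S, x ∉ D)
    [Fintype (G.del D).C] :
    G.aft D S - G.b1 = ∑ Y, ((G.sC D S Y : ℤ) + ((G.del D).comp Y).b1 - 1) +
      Nat.card ↥D - 1 - G.nDD D := by
  have h1 := G.aft_eq hSD
  have h2 := hc.b1
  have h3 := (G.del D).sum_comp
  have h4 := G.sum_sC hSD
  have h5 := G.nN_del D
  have h6 : ∑ Y, ((G.sC D S Y : ℤ) + ((G.del D).comp Y).b1 - 1) =
      ((∑ Y, G.sC D S Y : ℕ) : ℤ) + ∑ Y, (((G.del D).comp Y).b1 - 1) := by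
    push_cast
    rw [← Finset.sum_add_distrib]
    apply Finset.sum_congr rfl
    intro Y _
    ring
  rw [h6, h4, h3, h1, h2, ← h5]
  push_cast
  ring

/-- a component is bad if it has no self local piece and is a tree -/
def BadY (D S : Set G.N) (Y : (G.del D).C) : Prop := G.sC D S Y = 0 ∧ ((G.del D).comp Y).b1 = 0

/-- the terms which are not bad are nonnegative -/
theorem term_nonneg {D S : Set G.N} {Y : (G.del D).C} (h : ¬ G.BadY D S Y) :
    0 ≤ (G.sC D S Y : ℤ) + ((G.del D).comp Y).b1 - 1 := by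
  have h1 := ((G.del D).comp Y).b1_nonneg
  by_contra hn
  apply h
  constructor
  · omega
  · omega

theorem term_ge {D S : Set G.N} (Y : (G.del D).C) :
    -1 ≤ (G.sC D S Y : ℤ) + ((G.del D).comp Y).b1 - 1 := by
  have h1 := ((G.del D).comp Y).b1_nonneg
  omega

open Classical in
/-- the sum of the terms is at least minus the number of the bad components -/
theorem sum_ge {D S : Set G.N} [Fintype (G.del D).C] :
    - (Nat.card {Y // G.BadY D S Y} : ℤ) ≤
      ∑ Y, ((G.sC D S Y : ℤ) + ((G.del D).comp Y).b1 - 1) := by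
  have h : - (Nat.card {Y // G.BadY D S Y} : ℤ) = ∑ Y, (if G.BadY D S Y then (-1:ℤ) else 0) := by
    rw [Finset.sum_ite, Finset.sum_const_zero, add_zero, Finset.sum_const, nsmul_eq_mul,
      Nat.card_eq_fintype_card, Fintype.card_subtype]
    ring
  rw [h]
  apply Finset.sum_le_sum
  intro Y _
  split_ifs with hb
  · exact G.term_ge Y
  · exact G.term_nonneg hb

end FG

end Pool.Agent.DI
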