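import Pool.Agent.DI.TF
import Pool.Agent.DI.BrT

/-!
# Graphs of elements and star centres

`LD J`: elements `E`, lines `A` (pairs: an element and a star centre), star `C p` of the line `p` (a
set of elements); `J` acts. `LD.nd`: the vertices (`el x`, `x ∈ E`, and `st q (C p)`, `p ∈ A`).
`LD.jm`: the graph with the action. For the system: `S.St w u q x` the star of `q` at the edge `w u`
through `x` (near or far), `S.LE w u` the lines of the graph of the edge, `S.LP w u` the passing lines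
at `w` (they are lines of a second edge at `w`), `S.CP` their stars. `S.GE w u`, `S.GP w u`.
-/

namespace Pool.Agent.DI

open MulAction
open Pool.Agent.SAF (InC orbs FinOrb oc Decomp SAn SA Conv hull dist_edge FinOrb_iff exists_next)
open Pool.Agent.BT (PX PQ JS bey exits)
open Pool.Agent.BT.TA

section

variable {H V : Type} [Group H] [MulAction H V]

/-- data of a graph of elements and star centres -/
structure LD (V : Type) [MulAction H V] (J : Subgroup H) where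
  E : Set V
  A : Set (V × V)
  C : V × V → Set V
  hE : ∀ j ∈ J, ∀ x ∈ E, j • x ∈ E
  hA : ∀ j ∈ J, ∀ p ∈ A, j • p ∈ A
  hC : ∀ j ∈ J, ∀ p ∈ A, C (j • p) = (fun x => j • x) '' C p
  hAE : ∀ p ∈ A, p.1 ∈ E
  fE : FinOrb ↥J E
  fA : FinOrb ↥J A

namespace LD

variable {J : Subgroup H} (D : LD V J)

/-- the star centre of a line -/
def sc (p : V × V) : TV V := TV.st p.2 (D.C p)

theorem sc_smul {j : H} (hj : j ∈ J) {p : V × V} (hp : p ∈ D.A) : D.sc (j • p) = j • D.sc p := by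
  show TV.st (j • p).2 (D.C (j • p)) = j • TV.st p.2 (D.C p)
  rw [TV.smul_st, D.hC j hj p hp]
  rfl

/-- the vertices -/
def nd : SubMulAction ↥J (TV V) where
  carrier := {t | (∃ x ∈ D.E, t = TV.el x) ∨ ∃ p ∈ D.A, t = D.sc p}
  smul_mem' := by
    rintro ⟨j, hj⟩ t (⟨x, hx, rfl⟩ | ⟨p, hp, rfl⟩)
    · exact Or.inl ⟨j • x, D.hE j hj x hx, rfl⟩
    · exact Or.inr ⟨j • p, D.hA j hj p hp, (D.sc_smul hj hp).symm⟩

/-- the lines -/
def ln : SubMulAction ↥J (V × V) where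
  carrier := D.A
  smul_mem' := fun j p hp => D.hA j.1 j.2 p hp

theorem mem_nd {t : TV V} : t ∈ D.nd ↔ (∃ x ∈ D.E, t = TV.el x) ∨ ∃ p ∈ D.A, t = D.sc p := Iff.rfl

theorem mem_ln {p : V × V} : p ∈ D.ln ↔ p ∈ D.A := Iff.rfl

theorem el_mem {p : V × V} (hp : p ∈ D.A) : TV.el p.1 ∈ D.nd := Or.inl ⟨p.1, D.hAE p hp, rfl⟩

theorem sc_mem {p : V × V} (hp : p ∈ D.A) : D.sc p ∈ D.nd := Or.inr ⟨p, hp, rfl⟩

theorem fin_nd : FinOrb ↥J (D.nd : Set (TV V)) := by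
  have h1 : FinOrb ↥J ((TV.el : V → TV V) '' D.E) := by
    apply Pool.Agent.SAF.FinOrb.image D.fE (TV.el : V → TV V)
    · rintro _ ⟨x, hx, rfl⟩
      exact ⟨x, hx, 1, one_smul _ _⟩
    · rintro x _ y _ ⟨j, rfl⟩
      exact ⟨j, rfl⟩
  have h2 : FinOrb ↥J (D.sc '' D.A) := by
    apply Pool.Agent.SAF.FinOrb.image D.fA D.sc
    · rintro _ ⟨x, hx, rfl⟩
      exact ⟨x, hx, 1, one_smul _ _⟩
    · rintro x hx y _ ⟨j, rfl⟩
      exact ⟨j, (D.sc_smul j.2 hx).symm⟩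
  have h3 : (D.nd : Set (TV V)) = (TV.el : V → TV V) '' D.E ∪ D.sc '' D.A := by
    ext t
    constructor
    · rintro (⟨x, hx, rfl⟩ | ⟨p, hp, rfl⟩)
      · exact Or.inl ⟨x, hx, rfl⟩
      · exact Or.inr ⟨p, hp, rfl⟩
    · rintro (⟨x, hx, rfl⟩ | ⟨p, hp, rfl⟩)
      · exact Or.inl ⟨x, hx, rfl⟩
      · exact Or.inr ⟨p, hp, rfl⟩
  rw [h3]
  have h4 : orbs ↥J ((TV.el : V → TV V) '' D.E ∪ D.sc '' D.A) ⊆
      orbs ↥J ((TV.el : V → TV V) '' D.E) ∪ orbs ↥J (D.sc '' D.A) := by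
    rintro _ ⟨t, ht | ht, rfl⟩
    · exact Or.inl ⟨t, ht, rfl⟩
    · exact Or.inr ⟨t, ht, rfl⟩
  exact (Set.Finite.union h1 h2).subset h4

/-- the graph -/
def jm : JM ↥J ↥D.nd ↥D.ln where
  s p := ⟨TV.el p.1.1, Or.inl ⟨p.1.1, D.hAE p.1 p.2, rfl⟩⟩
  t p := ⟨D.sc p.1, Or.inr ⟨p.1, p.2, rfl⟩⟩
  hs _ _ := rfl
  ht j p := Subtype.ext (D.sc_smul j.2 p.2)
  fT := finite_orb_sub D.nd D.fin_nd
  fE := finite_orb_sub D.ln D.fA

/-- bridges in terms of functions on all vertices -/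
theorem br_iff {p : V × V} (hp : p ∈ D.A) : D.jm.Br ⟨p, hp⟩ ↔ ∃ f : TV V → ZMod 2,
    (∀ j ∈ J, ∀ t, f (j • t) = f t) ∧ f (TV.el p.1) ≠ f (D.sc p) ∧
      ∀ p' ∈ D.A, f (TV.el p'.1) ≠ f (D.sc p') → ∃ j ∈ J, p' = j • p := by
  classical
  constructor
  · rintro ⟨f, f1, f2, f3⟩
    refine ⟨fun t => if h : t ∈ D.nd then f ⟨t, h⟩ else 0, ?_, ?_, ?_⟩
    · intro j hj t
      by_cases h : t ∈ D.nd
      · have h' : j • t ∈ D.nd := D.nd.smul_mem ⟨j, hj⟩ h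
        show (if h : j • t ∈ D.nd then f ⟨j • t, h⟩ else 0) = if h : t ∈ D.nd then f ⟨t, h⟩ else 0
        rw [dif_pos h, dif_pos h']
        exact f1 ⟨j, hj⟩ ⟨t, h⟩
      · have h' : j • t ∉ D.nd := by
          intro k
          apply h
          have := D.nd.smul_mem (⟨j, hj⟩⁻¹ : ↥J) k
          have e : (⟨j, hj⟩⁻¹ : ↥J) • j • t = t := inv_smul_smul j t
          rwa [e] at this
        show (if h : j • t ∈ D.nd then f ⟨j • t, h⟩ else 0) = if h : t ∈ D.nd then f ⟨t, h⟩ else 0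
        rw [dif_neg h, dif_neg h']
    · show (if h : TV.el p.1 ∈ D.nd then f ⟨TV.el p.1, h⟩ else 0) ≠
        if h : D.sc p ∈ D.nd then f ⟨D.sc p, h⟩ else 0
      rw [dif_pos (D.el_mem hp), dif_pos (D.sc_mem hp)]
      exact f2
    · intro p' hp' hne
      have hne : (if h : TV.el p'.1 ∈ D.nd then f ⟨TV.el p'.1, h⟩ else 0) ≠
        if h : D.sc p' ∈ D.nd then f ⟨D.sc p', h⟩ else 0 := hne
      rw [dif_pos (D.el_mem hp'), dif_pos (D.sc_mem hp')] at hne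
      obtain ⟨j, hj⟩ := f3 ⟨p', hp'⟩ hne
      exact ⟨j.1, j.2, congrArg Subtype.val hj⟩
  · rintro ⟨f, f1, f2, f3⟩
    refine ⟨fun t => f t.1, fun j t => f1 j.1 j.2 t.1, f2, ?_⟩
    intro e' hne
    obtain ⟨j, hj, h⟩ := f3 e'.1 e'.2 hne
    exact ⟨⟨j, hj⟩, Subtype.ext h⟩

end LD

end

end Pool.Agent.DI
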