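import Pool.Agent.DI.OcA

/-!
# DI/SgA: sums over orbits, the counting lemma of the sigma law

`os G A X`: the sum of `X` over the orbits of `G` which meet `A`. `os_one`, `os_le`, `os_fib` (over a
functional relation), `os_oc` (flags over points), `os_slice` (subgroup and slice).
`SgR`: old tops `T` (with `H`), new tops `T'` (with `G ≤ H`), `R p k`: the old top `p` is carried by the
new top `k`; `loc`: the sum of `X` over the orbits of old tops carried by `k` is at most `X' k`.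
`SgR.le`: the sum of `X - 1` does not drop. `SgR.eq`: the case of equality.
-/

namespace Pool.Agent.DI

open MulAction
open Pool.Agent.SAF (orbs FinOrb oc FinOrb_iff oc_mono oc_le_of_inj oc_le_of_surj oc_le_of_rel
  mk_eq_iff orbs_mono exists_rep)

section os

variable (G : Type) [Group G] {W : Type} [MulAction G W]

/-- a representative in `A` of an orbit which meets `A` -/
noncomputable def rp (A : Set W) : orbitRel.Quotient G W → W :=
  Classical.choose (exists_rep (H := G) A)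

theorem rp_mem {A : Set W} {q : orbitRel.Quotient G W} (h : q ∈ orbs G A) : rp G A q ∈ A :=
  (Classical.choose_spec (exists_rep (H := G) A) q h).1

theorem rp_mk {A : Set W} {q : orbitRel.Quotient G W} (h : q ∈ orbs G A) :
    (Quotient.mk'' (rp G A q) : orbitRel.Quotient G W) = q :=
  (Classical.choose_spec (exists_rep (H := G) A) q h).2

/-- the sum of `X` over the orbits which meet `A` -/
noncomputable def os (A : Set W) (X : W → ℕ) : ℕ := ∑ᶠ q ∈ orbs G A, X (rp G A q)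

variable {G}

theorem os_eq {A : Set W} (h : FinOrb G A) (X : W → ℕ) :
    os G A X = ∑ q ∈ h.toFinset, X (rp G A q) := by
  unfold os
  rw [finsum_mem_eq_finite_toFinset_sum _ h]

theorem os_one {A : Set W} (h : FinOrb G A) : os G A (fun _ => 1) = oc G A := by
  rw [os_eq h, Finset.sum_const, smul_eq_mul, mul_one]
  unfold oc
  rw [Set.ncard_eq_toFinset_card _ h]

theorem os_le {A : Set W} (h : FinOrb G A) {X Y : W → ℕ} (hXY : ∀ p ∈ A, X p ≤ Y p) :
    os G A X ≤ os G A Y := by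
  rw [os_eq h, os_eq h]
  exact Finset.sum_le_sum fun q hq => hXY _ (rp_mem G (h.mem_toFinset.1 hq))

theorem os_congr {A : Set W} (h : FinOrb G A) {X Y : W → ℕ} (hXY : ∀ p ∈ A, X p = Y p) :
    os G A X = os G A Y :=
  le_antisymm (os_le h fun p hp => (hXY p hp).le) (os_le h fun p hp => (hXY p hp).ge)

theorem os_add {A : Set W} (h : FinOrb G A) (X Y : W → ℕ) :
    os G A (fun p => X p + Y p) = os G A X + os G A Y := by
  rw [os_eq h, os_eq h, os_eq h, Finset.sum_add_distrib]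

theorem os_empty (X : W → ℕ) : os G (∅ : Set W) X = 0 := by
  unfold os
  have : orbs G (∅ : Set W) = ∅ := by simp [orbs]
  rw [this]
  simp

/-- a value is at most the sum -/
theorem le_os {A : Set W} (h : FinOrb G A) {X : W → ℕ}
    (hX : ∀ (g : G), ∀ p ∈ A, g • p ∈ A → X (g • p) = X p) {p : W} (hp : p ∈ A) : X p ≤ os G A X := by
  have hq : (Quotient.mk'' p : orbitRel.Quotient G W) ∈ orbs G A := ⟨p, hp, rfl⟩
  have h1 := rp_mem G hq
  obtain ⟨g, hg⟩ := mk_eq_iff.1 (rp_mk G hq)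
  have h2 : X (rp G A (Quotient.mk'' p)) = X p := by
    rw [← hg]
    exact hX g p hp (by rw [hg]; exact h1)
  rw [os_eq h, ← h2]
  exact Finset.single_le_sum (f := fun q => X (rp G A q)) (fun _ _ => Nat.zero_le _)
    (h.mem_toFinset.2 hq)

end os

/-! ### fibrations -/

section fib

variable {G : Type} [Group G] {W Z : Type} [MulAction G W] [MulAction G Z]

theorem finOrb_fib {A : Set W} (hA : FinOrb G A) {R : W → Z → Prop}
    (hR : ∀ (g : G) p k, R p k → R (g • p) (g • k)) (hF : ∀ p k k', R p k → R p k' → k = k')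
    (k : Z) : FinOrb ↥(stabilizer G k) {p | p ∈ A ∧ R p k} := by
  apply Pool.Agent.SAF.FinOrb.of_inj hA (fun y => y) (fun p hp => hp.1)
  rintro a ⟨-, ha⟩ b ⟨-, hb⟩ ⟨g, rfl⟩
  have h1 := hF _ _ _ (hR g _ _ ha) hb
  exact ⟨⟨g, h1⟩, rfl⟩

/-- the orbits over the orbits of the points -/
theorem os_fib {A : Set W} {B : Set Z} (hA : FinOrb G A) (hB : FinOrb G B) {X : W → ℕ}
    (hX : ∀ (g : G), ∀ p ∈ A, g • p ∈ A → X (g • p) = X p) (hAi : ∀ (g : G), ∀ p ∈ A, g • p ∈ A)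
    {R : W → Z → Prop}
    (hR : ∀ (g : G) p k, R p k → R (g • p) (g • k)) (hF : ∀ p k k', R p k → R p k' → k = k')
    (hE : ∀ p ∈ A, ∃ k ∈ B, R p k) :
    os G A X = ∑ q ∈ hB.toFinset, os ↥(stabilizer G (rp G B q)) {p | p ∈ A ∧ R p (rp G B q)} X := by
  classical
  have hf : ∀ k, FinOrb ↥(stabilizer G k) {p | p ∈ A ∧ R p k} := finOrb_fib hA hR hF
  have e1 : ∀ q ∈ hB.toFinset, os ↥(stabilizer G (rp G B q)) {p | p ∈ A ∧ R p (rp G B q)} X =
      ∑ q' ∈ (hf (rp G B q)).toFinset,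
        X (rp ↥(stabilizer G (rp G B q)) {p | p ∈ A ∧ R p (rp G B q)} q') :=
    fun q _ => os_eq (hf _) X
  rw [Finset.sum_congr rfl e1, Finset.sum_sigma', os_eq hA]
  symm
  refine Finset.sum_bij (fun x _ => (Quotient.mk''
    (rp ↥(stabilizer G (rp G B x.1)) {p | p ∈ A ∧ R p (rp G B x.1)} x.2) :
      orbitRel.Quotient G W)) ?_ ?_ ?_ ?_
  · rintro ⟨q, q'⟩ hx
    obtain ⟨h1, h2⟩ := Finset.mem_sigma.1 hx
    have h3 := rp_mem _ ((hf _).mem_toFinset.1 h2)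
    exact hA.mem_toFinset.2 ⟨_, h3.1, rfl⟩
  · rintro ⟨q1, q1'⟩ hx1 ⟨q2, q2'⟩ hx2 e
    obtain ⟨h1, h1'⟩ := Finset.mem_sigma.1 hx1
    obtain ⟨h2, h2'⟩ := Finset.mem_sigma.1 hx2
    have m1 := rp_mem _ ((hf _).mem_toFinset.1 h1')
    have m2 := rp_mem _ ((hf _).mem_toFinset.1 h2')
    have r1 := rp_mk _ ((hf _).mem_toFinset.1 h1')
    have r2 := rp_mk _ ((hf _).mem_toFinset.1 h2')
    obtain ⟨g, hg⟩ := mk_eq_iff.1 e
    simp only at hg m1 m2 r1 r2 h1 h2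
    have h3 := hR g _ _ m2.2
    rw [hg] at h3
    have h4 := hF _ _ _ h3 m1.2
    have h5 : q1 = q2 := by
      rw [← rp_mk G (hB.mem_toFinset.1 h1), ← rp_mk G (hB.mem_toFinset.1 h2)]
      exact mk_eq_iff.2 ⟨g, h4⟩
    subst h5
    have h6 : q1' = q2' := by
      rw [← r1, ← r2]
      exact mk_eq_iff.2 ⟨⟨g, h4⟩, hg⟩
    rw [h6]
  · intro q hq
    obtain ⟨a, ha, rfl⟩ := hA.mem_toFinset.1 hq
    obtain ⟨k, hk, hRk⟩ := hE a ha
    have hkq : (Quotient.mk'' k : orbitRel.Quotient G Z) ∈ orbs G B := ⟨k, hk, rfl⟩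
    obtain ⟨g, hg⟩ := mk_eq_iff.1 (rp_mk G hkq)
    have hga : g • a ∈ {p | p ∈ A ∧ R p (rp G B (Quotient.mk'' k))} := by
      refine ⟨hAi g a ha, ?_⟩
      rw [← hg]
      exact hR g _ _ hRk
    have hq' : (Quotient.mk'' (g • a) : orbitRel.Quotient
        ↥(stabilizer G (rp G B (Quotient.mk'' k))) W) ∈
        orbs ↥(stabilizer G (rp G B (Quotient.mk'' k)))
          {p | p ∈ A ∧ R p (rp G B (Quotient.mk'' k))} := ⟨_, hga, rfl⟩
    refine ⟨⟨Quotient.mk'' k, Quotient.mk'' (g • a)⟩, Finset.mem_sigma.2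
      ⟨hB.mem_toFinset.2 hkq, (hf _).mem_toFinset.2 hq'⟩, ?_⟩
    obtain ⟨s, hs⟩ := mk_eq_iff.1 (rp_mk _ hq')
    have hs' : s.1 • g • a = rp _ _ (Quotient.mk'' (g • a)) := hs
    show (Quotient.mk'' (rp _ _ (Quotient.mk'' (g • a))) : orbitRel.Quotient G W) = _
    rw [← hs', ← mul_smul]
    exact mk_eq_iff.2 ⟨s.1 * g, rfl⟩
  · rintro ⟨q, q'⟩ hx
    obtain ⟨h1, h2⟩ := Finset.mem_sigma.1 hx
    have h3 := rp_mem _ ((hf _).mem_toFinset.1 h2)
    simp only at h3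
    have hq : (Quotient.mk'' (rp ↥(stabilizer G (rp G B q)) {p | p ∈ A ∧ R p (rp G B q)} q') :
      orbitRel.Quotient G W) ∈ orbs G A := ⟨_, h3.1, rfl⟩
    obtain ⟨g, hg⟩ := mk_eq_iff.1 (rp_mk G hq)
    have h4 := rp_mem G hq
    simp only
    rw [← hg]
    refine (hX g _ h3.1 ?_).symm
    rw [hg]
    exact h4

/-- flags over points -/
theorem os_oc {S : Set W} {A : Set Z} {f : W → Z} (hS : FinOrb G S) (hA : FinOrb G A)
    (hSi : ∀ (g : G), ∀ s ∈ S, g • s ∈ S) (hAi : ∀ (g : G), ∀ p ∈ A, g • p ∈ A)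
    (hf : ∀ (g : G) s, f (g • s) = g • f s) :
    os G A (fun p => oc ↥(stabilizer G p) {s | s ∈ S ∧ f s = p}) = oc G {s | s ∈ S ∧ f s ∈ A} := by
  have h1 : FinOrb G {s | s ∈ S ∧ f s ∈ A} := hS.mono fun _ h => h.1
  have h2 := os_fib (X := fun _ => 1) (R := fun s p => f s = p) h1 hA (fun _ _ _ _ => rfl)
    (fun g s hs => ⟨hSi g s hs.1, by rw [hf]; exact hAi g _ hs.2⟩)
    (fun g s k e => by rw [hf, e]) (fun s k k' e e' => e.symm.trans e')
    (fun s hs => ⟨f s, hs.2, rfl⟩)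
  rw [os_one h1] at h2
  rw [h2, os_eq hA]
  refine Finset.sum_congr rfl fun q hq => ?_
  have hm := rp_mem G (hA.mem_toFinset.1 hq)
  have e : {s | s ∈ {s | s ∈ S ∧ f s ∈ A} ∧ f s = rp G A q} = {s | s ∈ S ∧ f s = rp G A q} := by
    ext s
    constructor
    · rintro ⟨⟨h, -⟩, h'⟩
      exact ⟨h, h'⟩
    · rintro ⟨h, h'⟩
      exact ⟨⟨h, by rw [h']; exact hm⟩, h'⟩
  rw [e, os_one]
  have := finOrb_fib (R := fun s p => f s = p) hS (fun g s k e => by rw [hf, e])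
    (fun s k k' e e' => e.symm.trans e') (rp G A q)
  exact this

end fib

/-! ### slices -/

section slice

variable {H W : Type} [Group H] [MulAction H W] {G : Subgroup H}

theorem finOrb_sl {T D : Set W} (hT : FinOrb H T) (hs : D ⊆ T)
    (hk : ∀ h : H, ∀ p ∈ D, h • p ∈ D → h ∈ G) : FinOrb ↥G D := by
  apply Pool.Agent.SAF.FinOrb.of_inj hT (fun y => y) hs
  rintro a ha b hb ⟨g, rfl⟩
  exact ⟨⟨g, hk g a ha hb⟩, rfl⟩

theorem os_slice {T D : Set W} (hT : FinOrb H T) (hs : D ⊆ T) {X : W → ℕ}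
    (hX : ∀ (g : H), ∀ p ∈ T, g • p ∈ T → X (g • p) = X p)
    (hm : ∀ p ∈ T, ∃ h : H, h • p ∈ D) (hk : ∀ h : H, ∀ p ∈ D, h • p ∈ D → h ∈ G) :
    os ↥G D X = os H T X := by
  classical
  have hD := finOrb_sl hT hs hk
  rw [os_eq hD, os_eq hT]
  refine Finset.sum_bij (fun q _ => (Quotient.mk'' (rp ↥G D q) : orbitRel.Quotient H W)) ?_ ?_ ?_ ?_
  · intro q hq
    exact hT.mem_toFinset.2 ⟨_, hs (rp_mem _ (hD.mem_toFinset.1 hq)), rfl⟩
  · intro q1 h1 q2 h2 e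
    have m1 := rp_mem _ (hD.mem_toFinset.1 h1)
    have m2 := rp_mem _ (hD.mem_toFinset.1 h2)
    obtain ⟨g, hg⟩ := mk_eq_iff.1 e
    have hg' : g • rp ↥G D q2 = rp ↥G D q1 := hg
    rw [← rp_mk _ (hD.mem_toFinset.1 h1), ← rp_mk _ (hD.mem_toFinset.1 h2)]
    exact mk_eq_iff.2 ⟨⟨g, hk g _ m2 (by rw [hg']; exact m1)⟩, hg'⟩
  · intro q hq
    obtain ⟨a, ha, rfl⟩ := hT.mem_toFinset.1 hq
    obtain ⟨h, hh⟩ := hm a ha
    have hq' : (Quotient.mk'' (h • a) : orbitRel.Quotient ↥G W) ∈ orbs ↥G D := ⟨_, hh, rfl⟩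
    refine ⟨_, hD.mem_toFinset.2 hq', ?_⟩
    obtain ⟨s, hs⟩ := mk_eq_iff.1 (rp_mk _ hq')
    have hs' : s.1 • h • a = rp ↥G D (Quotient.mk'' (h • a)) := hs
    show (Quotient.mk'' (rp ↥G D (Quotient.mk'' (h • a))) : orbitRel.Quotient H W) = _
    rw [← hs', ← mul_smul]
    exact mk_eq_iff.2 ⟨s.1 * h, rfl⟩
  · intro q hq
    have m := rp_mem _ (hD.mem_toFinset.1 hq)
    have hq' : (Quotient.mk'' (rp ↥G D q) : orbitRel.Quotient H W) ∈ orbs H T := ⟨_, hs m, rfl⟩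
    obtain ⟨g, hg⟩ := mk_eq_iff.1 (rp_mk _ hq')
    have m2 := rp_mem _ hq'
    have hg' : g • rp ↥G D q = rp H T (Quotient.mk'' (rp ↥G D q)) := hg
    rw [← hg']
    exact (hX g _ (hs m) (by rw [hg']; exact m2)).symm

end slice

/-! ### the counting lemma -/

/-- old tops `T` with their strand numbers `X`, new tops `T'` with `X'`; `R p k`: `k` carries `p` -/
structure SgR {H : Type} [Group H] (G : Subgroup H) {W W' : Type} [MulAction H W] [MulAction ↥G W']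
    (T : Set W) (T' : Set W') (X : W → ℕ) (X' : W' → ℕ) (R : W → W' → Prop) : Prop where
  fT : FinOrb H T
  fT' : FinOrb ↥G T'
  iT : ∀ (h : H), ∀ p ∈ T, h • p ∈ T
  iT' : ∀ (g : ↥G), ∀ k ∈ T', g • k ∈ T'
  iX : ∀ (h : H), ∀ p ∈ T, X (h • p) = X p
  iX' : ∀ (g : ↥G), ∀ k ∈ T', X' (g • k) = X' k
  R1 : ∀ p k, R p k → p ∈ T ∧ k ∈ T'
  R2 : ∀ (g : ↥G) p k, R p k → R (g • p) (g • k)
  R3 : ∀ p k k', R p k → R p k' → k = k'
  R4 : ∀ p ∈ T, ∃ (h : H) (k : W'), R (h • p) k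
  R5 : ∀ p k (h : H) k', R p k → R (h • p) k' → h ∈ G
  one : ∀ p ∈ T, 1 ≤ X p
  one' : ∀ k ∈ T', 1 ≤ X' k
  loc : ∀ k ∈ T', os ↥(stabilizer ↥G k) {p | R p k} X ≤ X' k

theorem SgR.set_eq {W W' : Type} (R : W → W' → Prop) (k : W') :
    {p | p ∈ {p | ∃ k, R p k} ∧ R p k} = {p | R p k} := by
  ext p
  exact ⟨fun h => h.2, fun h => ⟨⟨k, h⟩, h⟩⟩

namespace SgR

variable {H : Type} [Group H] {G : Subgroup H} {W W' : Type} [MulAction H W] [MulAction ↥G W']
  {T : Set W} {T' : Set W'} {X : W → ℕ} {X' : W' → ℕ} {R : W → W' → Prop}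
  (S : SgR G T T' X X' R)

include S

/-- the old tops at the place of `G` -/
theorem dom_slice {Y : W → ℕ} (hY : ∀ (h : H), ∀ p ∈ T, Y (h • p) = Y p) :
    os ↥G {p | ∃ k, R p k} Y = os H T Y :=
  os_slice (T := T) (D := {p | ∃ k, R p k}) S.fT (fun p ⟨k, hk⟩ => (S.R1 p k hk).1)
    (fun g p hp _ => hY g p hp) S.R4 (fun h p ⟨k, hk⟩ ⟨k', hk'⟩ => S.R5 p k h k' hk hk')

theorem fD : FinOrb ↥G {p | ∃ k, R p k} :=
  finOrb_sl (T := T) (D := {p | ∃ k, R p k}) S.fT (fun p ⟨k, hk⟩ => (S.R1 p k hk).1)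
    (fun h p ⟨k, hk⟩ ⟨k', hk'⟩ => S.R5 p k h k' hk hk')

theorem fF (k : W') : FinOrb ↥(stabilizer ↥G k) {p | R p k} := by
  have := finOrb_fib S.fD S.R2 S.R3 k
  rwa [set_eq R k] at this

theorem sum_fib {Y : W → ℕ} (hY : ∀ (h : H), ∀ p ∈ T, Y (h • p) = Y p) :
    os H T Y = ∑ q ∈ S.fT'.toFinset, os ↥(stabilizer ↥G (rp ↥G T' q)) {p | R p (rp ↥G T' q)} Y := by
  rw [← S.dom_slice hY]
  have := os_fib (X := Y) S.fD S.fT' (fun g p ⟨k, hk⟩ _ => hY g.1 p (S.R1 p k hk).1)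
    (fun g p ⟨k, hk⟩ => ⟨g • k, S.R2 g p k hk⟩) S.R2 S.R3 (fun p ⟨k, hk⟩ => ⟨k, (S.R1 p k hk).2, hk⟩)
  rw [this]
  refine Finset.sum_congr rfl fun q _ => ?_
  rw [set_eq]

/-- the local difference -/
theorem loc_le {k : W'} (hk : k ∈ T') : (os ↥(stabilizer ↥G k) {p | R p k} X : ℤ) -
    oc ↥(stabilizer ↥G k) {p | R p k} ≤ X' k - 1 := by
  by_cases h : ∃ p, R p k
  · obtain ⟨p, hp⟩ := h
    have h1 := S.loc k hk
    have h2 : 1 ≤ oc ↥(stabilizer ↥G k) {p | R p k} := by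
      rw [← os_one (S.fF k)]
      exact le_os (S.fF k) (X := fun _ => 1) (fun _ _ _ _ => rfl) hp
    omega
  · have e : {p | R p k} = ∅ := by
      ext p
      exact ⟨fun hp => h ⟨p, hp⟩, fun hp => hp.elim⟩
    have h1 := S.one' k hk
    rw [e, os_empty, oc_empty]
    push_cast
    omega

theorem sum_le : (os H T X : ℤ) - oc H T ≤ (os ↥G T' X' : ℤ) - oc ↥G T' := by
  have h1 := S.sum_fib (Y := X) S.iX
  have h2 := S.sum_fib (Y := fun _ => 1) (fun _ _ _ => rfl)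
  rw [os_one S.fT] at h2
  rw [h1, h2, ← os_one S.fT', os_eq S.fT', os_eq S.fT']
  push_cast
  rw [← Finset.sum_sub_distrib, ← Finset.sum_sub_distrib]
  refine Finset.sum_le_sum fun q hq => ?_
  have hm := rp_mem _ (S.fT'.mem_toFinset.1 hq)
  have h3 := S.loc_le hm
  rw [os_one (S.fF _)]
  exact h3

/-- THE SUM OF `X - 1` DOES NOT DROP -/
theorem le : os H T X - oc H T ≤ os ↥G T' X' - oc ↥G T' := by
  have h := S.sum_le
  have h1 : oc H T ≤ os H T X := by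
    rw [← os_one S.fT]
    exact os_le S.fT S.one
  have h2 : oc ↥G T' ≤ os ↥G T' X' := by
    rw [← os_one S.fT']
    exact os_le S.fT' S.one'
  omega

/-- THE CASE OF EQUALITY -/
theorem eq (h : os ↥G T' X' - oc ↥G T' ≤ os H T X - oc H T) {k : W'} (hk : k ∈ T') :
    ((∀ p, ¬ R p k) ∧ X' k = 1) ∨
    (∃ p, R p k ∧ X' k = X p ∧ ∀ p', R p' k → ∃ g ∈ stabilizer ↥G k, g • p = p') := by
  have h0 := S.sum_le
  have h1 : oc H T ≤ os H T X := by
    rw [← os_one S.fT]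
    exact os_le S.fT S.one
  have h2 : oc ↥G T' ≤ os ↥G T' X' := by
    rw [← os_one S.fT']
    exact os_le S.fT' S.one'
  have h3 : (os H T X : ℤ) - oc H T = (os ↥G T' X' : ℤ) - oc ↥G T' := by omega
  -- the same with all local terms
  have e1 := S.sum_fib (Y := X) S.iX
  have e2 := S.sum_fib (Y := fun _ => 1) (fun _ _ _ => rfl)
  rw [os_one S.fT] at e2
  rw [e1, e2, ← os_one S.fT', os_eq S.fT', os_eq S.fT'] at h3
  push_cast at h3
  rw [← Finset.sum_sub_distrib, ← Finset.sum_sub_distrib] at h3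
  have h4 := (Finset.sum_eq_sum_iff_of_le (fun q hq => by
    have hm := rp_mem _ (S.fT'.mem_toFinset.1 hq)
    have h5 := S.loc_le hm
    rw [os_one (S.fF _)]
    exact h5)).1 h3
  have hq : (Quotient.mk'' k : orbitRel.Quotient ↥G W') ∈ orbs ↥G T' := ⟨k, hk, rfl⟩
  have h5 := h4 _ (S.fT'.mem_toFinset.2 hq)
  rw [os_one (S.fF _)] at h5
  obtain ⟨g, hg⟩ := mk_eq_iff.1 (rp_mk _ hq)
  set k0 := rp ↥G T' (Quotient.mk'' k) with hk0
  have hm0 : k0 ∈ T' := rp_mem _ hq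
  -- the statement at the representative
  have key : ((∀ p, ¬ R p k0) ∧ X' k0 = 1) ∨
      (∃ p, R p k0 ∧ X' k0 = X p ∧ ∀ p', R p' k0 → ∃ g ∈ stabilizer ↥G k0, g • p = p') := by
    by_cases hE : ∃ p, R p k0
    · right
      obtain ⟨p, hp⟩ := hE
      have hl := S.loc k0 hm0
      have ho : 1 ≤ oc ↥(stabilizer ↥G k0) {p | R p k0} := by
        rw [← os_one (S.fF k0)]
        exact le_os (S.fF k0) (X := fun _ => 1) (fun _ _ _ _ => rfl) hp
      have hp1 : X p ≤ os ↥(stabilizer ↥G k0) {p | R p k0} X :=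
        le_os (S.fF k0) (fun g y hy _ => S.iX g.1.1 y (S.R1 y k0 hy).1) hp
      have ho1 : oc ↥(stabilizer ↥G k0) {p | R p k0} = 1 := by
        have h5' : (os ↥(stabilizer ↥G k0) {p | R p k0} X : ℤ) -
          oc ↥(stabilizer ↥G k0) {p | R p k0} = X' k0 - 1 := h5
        omega
      have hone : ∀ p', R p' k0 → ∃ g ∈ stabilizer ↥G k0, g • p = p' := by
        intro p' hp'
        have hc : (orbs ↥(stabilizer ↥G k0) {p | R p k0}).ncard = 1 := ho1
        obtain ⟨a, ha⟩ := Set.ncard_eq_one.1 hc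
        have m1 : (Quotient.mk'' p : orbitRel.Quotient ↥(stabilizer ↥G k0) W) ∈
          orbs ↥(stabilizer ↥G k0) {p | R p k0} := ⟨p, hp, rfl⟩
        have m2 : (Quotient.mk'' p' : orbitRel.Quotient ↥(stabilizer ↥G k0) W) ∈
          orbs ↥(stabilizer ↥G k0) {p | R p k0} := ⟨p', hp', rfl⟩
        rw [ha] at m1 m2
        have e := (Set.mem_singleton_iff.1 m2).trans (Set.mem_singleton_iff.1 m1).symm
        obtain ⟨s, hs⟩ := mk_eq_iff.1 e
        exact ⟨s.1, s.2, hs⟩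
      refine ⟨p, hp, ?_, hone⟩
      have hX : os ↥(stabilizer ↥G k0) {p | R p k0} X = X p := by
        have hc := os_congr (S.fF k0) (X := X) (Y := fun _ => X p) (fun p' hp' => by
          obtain ⟨g, -, rfl⟩ := hone p' hp'
          exact S.iX g.1 p (S.R1 p k0 hp).1)
        rw [hc, os_eq (S.fF k0), Finset.sum_const, smul_eq_mul]
        have hcard : (S.fF k0).toFinset.card = 1 := by
          rw [← Set.ncard_eq_toFinset_card _ (S.fF k0)]
          exact ho1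
        rw [hcard, one_mul]
      have h5' : (os ↥(stabilizer ↥G k0) {p | R p k0} X : ℤ) -
          oc ↥(stabilizer ↥G k0) {p | R p k0} = X' k0 - 1 := h5
      rw [hX, ho1] at h5'
      omega
    · left
      push Not at hE
      refine ⟨hE, ?_⟩
      have e : {p | R p k0} = ∅ := by
        ext p
        exact ⟨fun hp => hE p hp, fun hp => hp.elim⟩
      have h5' : (os ↥(stabilizer ↥G k0) {p | R p k0} X : ℤ) -
          oc ↥(stabilizer ↥G k0) {p | R p k0} = X' k0 - 1 := h5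
      rw [e, os_empty, oc_empty] at h5'
      omega
  have hg' : g • k = k0 := hg
  rcases key with ⟨ha, hb⟩ | ⟨p, hp, hx, ho⟩
  · left
    refine ⟨fun p hp => ha (g • p) ?_, ?_⟩
    · rw [← hg']
      exact S.R2 g p k hp
    · rw [← hb, ← hg', S.iX' g k hk]
  · right
    have hgk : g⁻¹ • k0 = k := by rw [← hg', inv_smul_smul]
    refine ⟨g⁻¹ • p, ?_, ?_, ?_⟩
    · rw [← hgk]
      exact S.R2 g⁻¹ p k0 hp
    · have e1 : X (g⁻¹ • p) = X p := S.iX (g⁻¹ : ↥G).1 p (S.R1 p k0 hp).1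
      rw [e1, ← hx, ← hg', S.iX' g k hk]
    · intro p' hp'
      have h6 := S.R2 g p' k hp'
      rw [hg'] at h6
      obtain ⟨s, hs, e⟩ := ho _ h6
      refine ⟨g⁻¹ * s * g, ?_, ?_⟩
      · rw [mem_stabilizer_iff] at hs ⊢
        rw [mul_smul, mul_smul, hg', hs, hgk]
      · rw [mul_smul, mul_smul, smul_inv_smul, e, inv_smul_smul]

end SgR

end Pool.Agent.DI
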