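import Pool.Agent.DI.LT0
import Pool.Agent.DI.SgA

/-!
# Local tops: the strands of a top over `w` in `K` and in the folded slice

`S.LTp w O T a b`: `T` over `w` with the poles `a`, `b` over `w`, all stars at `T` are open, `a` and `b`
are not identified, the pentagons with the direct corner `a, T, b` are centred at `w`.
`S.N5`, `S.N4`: the strands of `(T, a)` at `w` (pentagon flags, walks of squares); `S.F5`, `S.F4`: the far
strands; `S.FK`: the classes `[n]` of the far strands. `LTp.le`: the strands at `w` and the classes of the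
far strands are strands of `([T], [a])`. `LTp.X_eq`: `X T a` is the number of near and far strands.
-/

namespace Pool.Agent.DI

open MulAction
open Pool.Agent.SAF (InC orbs FinOrb oc Decomp SAn SA Conv hull dist_edge FinOrb_iff exists_next
  mk_eq_iff oc_mono oc_le_of_inj oc_le_of_rel oc_le_of_surj)
open Pool.Agent.BT (PX PQ JS bey exits lz lz_self lz_ne lz_symm x_next_unique)
open Pool.Agent.BT.TA

namespace P45

variable {H V : Type} [Group H] [MulAction H V] {K : GX H V}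

/-- the vertex before a flag -/
noncomputable def fprv (f : FL K) : V := if f.2 = true then K.c0 f.1 else K.c2 f.1

theorem fprv_smul (h : H) (f : FL K) : fprv (h • f) = h • fprv f := by
  obtain ⟨e, b⟩ := f
  cases b
  · exact K.c2_smul h e
  · exact K.c0_smul h e

end P45

open P45

/-- orbits in a fibre -/
theorem fin_fib {G Y Z : Type} [Group G] [MulAction G Y] [MulAction G Z] {π : Y → Z}
    (hπ : ∀ (g : G) y, π (g • y) = g • π y) {A : Set Y} (hA : FinOrb G A) (z : Z) :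
    FinOrb ↥(stabilizer G z) {y | y ∈ A ∧ π y = z} := by
  refine Pool.Agent.SAF.FinOrb.of_inj hA (fun y => y) (fun _ h => h.1) ?_
  rintro a ⟨-, ha⟩ b ⟨-, hb⟩ ⟨h, rfl⟩
  refine ⟨⟨h, ?_⟩, rfl⟩
  rw [hπ, ha] at hb
  exact hb

namespace SyQ

variable {H V : Type} [Group H] [MulAction H V] (S : SyQ H V)

/-- A LOCAL TOP: both poles are over `w` -/
structure LTp (w : S.X) (O : S.OR w) (T a b : V) : Prop where
  ta : S.K.ar T a
  tb : S.K.ar T b
  ne : a ≠ b
  wT : w ∈ S.J T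
  wa : w ∈ S.J a
  wb : w ∈ S.J b
  op : ∀ u, S.D.G.Adj w u → O.op u T
  nab : S.fq w O (S.rho w a) ≠ S.fq w O (S.rho w b)
  hd : ∀ y z, Qn S.P a T b y z → w ∈ S.J y ∨ w ∈ S.J z

/-- the top of a local square is not folded -/
def OldT (w : S.X) (O : S.OR w) : Prop := ∀ t s s' y, S.P.Top t s s' y → ∀ ht : w ∈ S.J t,
  w ∈ S.J s → w ∈ S.J s' → w ∈ S.J y → ∀ u, ¬ S.Sk w O u (Sum.inl ⟨t, ht⟩)

/-- the pentagon strands at `w` -/
def N5 (w : S.X) (T a : V) : Set (FL S.K) :=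
  {f | (f ∈ S.P.RP ∧ (fy f, fz f) = (T, a)) ∧ S.IsC (S.tr f.1.2 f.1.1.1) w}

/-- the far pentagon strands -/
def F5 (w : S.X) (T a : V) : Set (FL S.K) :=
  {f | (f ∈ S.P.RP ∧ (fy f, fz f) = (T, a)) ∧ ¬ S.IsC (S.tr f.1.2 f.1.1.1) w}

/-- the walks of squares at `w` -/
def N4 (w : S.X) (T a : V) : Set ((V × V) × (V × V)) :=
  {p | (p ∈ S.P.ZP ∧ p.1 = (T, a)) ∧ w ∈ S.J p.2.1}

/-- the far walks of squares -/
def F4 (w : S.X) (T a : V) : Set ((V × V) × (V × V)) :=
  {p | (p ∈ S.P.ZP ∧ p.1 = (T, a)) ∧ ¬ w ∈ S.J p.2.1}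

/-- THE CLASSES OF THE FAR STRANDS -/
def FK (w : S.X) (O : S.OR w) (T a : V) : Set (S.Q w O) :=
  {k | ∃ u n, S.Qs w u T a n ∧ S.K.ar n T ∧ S.fq w O (S.rho w n) = k}

variable {S}

namespace LTp

variable {w : S.X} {O : S.OR w} {T a b : V} (h : S.LTp w O T a b)

include h

theorem loc {u : S.X} (hu : S.D.G.Adj w u) : u ∉ S.J T :=
  loc_of_ar h.ta h.tb h.ne h.wT h.wa h.wb hu

theorem J1 {p : S.X} (hp : p ∈ S.J T) : p = w := one_of_loc h.wT (fun _ hu => h.loc hu) hp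

theorem gw {g : H} (hg : g • T = T) : g • w = w := by
  have := S.js.smul g _ _ h.wT
  rw [hg] at this
  exact h.J1 this

theorem sk (u : S.EV w) : ¬ S.Sk w O u (Sum.inl ⟨T, h.wT⟩) := fun k => (Sk.inl.1 k).2 (h.op _ u.2)

theorem wn {n : V} (e : S.K.E n T) : w ∈ S.J n := by
  obtain ⟨p, p0, p1⟩ := S.one_ex e
  rw [h.J1 p1] at p0
  exact p0

theorem poles {c : V} (e : S.K.ar T c) : c = a ∨ c = b := by
  rcases S.K.two _ _ _ _ h.ta h.tb e with k | k | k
  · exact absurd k h.ne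
  · exact Or.inr k.symm
  · exact Or.inl k.symm

theorem nsk {n : V} (e : S.K.ar n T) (wn : w ∈ S.J n) (u : S.EV w) :
    ¬ S.Sk w O u (Sum.inl ⟨n, wn⟩) := by
  intro k
  have k1 := (Sk.inl.1 k).1.1.two e
  exact h.loc k1.1 k1.2.2

theorem ndn {n : V} (e : S.K.ar n T) (y : V) : ¬ S.Dn w O n y := by
  rintro ⟨u, s, hu, hc, h1, h2, h3, -⟩
  have es : T = s := ar_ar_eq hc.1 e h.wT h1 h2 hu hc.2
  subst es
  exact h3.2 (h.op u hu)

theorem ar_n {n : V} (e : S.K.ar n T) :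
    S.arQ w O (S.fq w O (S.rho w n)) (S.fq w O (S.rho w T)) := by
  have wn := h.wn (Or.inl e)
  rw [S.rho_near wn, S.rho_near h.wT]
  exact arQ_of (h.nsk e wn) (h.ndn e) (SAr.hor _ _ e)

theorem ar_a : S.arQ w O (S.fq w O (S.rho w T)) (S.fq w O (S.rho w a)) := by
  rw [S.rho_near h.wa, S.rho_near h.wT]
  exact arQ_of h.sk (Dn.not_loc fun _ hu => h.loc hu) (SAr.hor _ _ h.ta)

theorem n_ne_a {n : V} (e : S.K.ar n T) : S.fq w O (S.rho w n) ≠ S.fq w O (S.rho w a) := by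
  intro k
  have h1 := arQ_rk (h.ar_n e)
  have h2 := arQ_rk h.ar_a
  rw [k] at h1
  omega

theorem T_eq {c : S.SV w} (hc : S.fq w O c = S.fq w O (S.rho w T)) : c = S.rho w T := by
  rw [S.rho_near h.wT] at hc ⊢
  exact fq_loc (fun _ hu => h.loc hu) h.sk hc

theorem stT {g : ↥(stabilizer H w)} (hg : g • S.fq w O (S.rho w T) = S.fq w O (S.rho w T)) :
    g.1 • T = T := by
  rw [← fq_smul, ← S.rho_smul] at hg
  have := h.T_eq hg
  rw [S.rho_near h.wT] at this
  exact rho_inl this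

theorem sta {g : ↥(stabilizer H w)} (hT : g.1 • T = T)
    (hg : g • S.fq w O (S.rho w a) = S.fq w O (S.rho w a)) : g.1 • a = a := by
  have h1 := S.K.ar_smul g.1 _ _ h.ta
  rw [hT] at h1
  rcases h.poles h1 with e | e
  · exact e
  · exfalso
    rw [← fq_smul, ← S.rho_smul, e] at hg
    exact h.nab hg.symm

theorem st_iff {g : ↥(stabilizer H w)} : g • (S.fq w O (S.rho w T), S.fq w O (S.rho w a)) =
    (S.fq w O (S.rho w T), S.fq w O (S.rho w a)) ↔ g.1 • T = T ∧ g.1 • a = a := by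
  constructor
  · intro k
    have k1 : g • S.fq w O (S.rho w T) = S.fq w O (S.rho w T) := congrArg Prod.fst k
    have k2 : g • S.fq w O (S.rho w a) = S.fq w O (S.rho w a) := congrArg Prod.snd k
    exact ⟨h.stT k1, h.sta (h.stT k1) k2⟩
  · rintro ⟨k1, k2⟩
    refine Prod.ext ?_ ?_
    · show g • S.fq w O (S.rho w T) = S.fq w O (S.rho w T)
      rw [← fq_smul, ← S.rho_smul, k1]
    · show g • S.fq w O (S.rho w a) = S.fq w O (S.rho w a)
      rw [← fq_smul, ← S.rho_smul, k2]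

/-- an element of `H` which fixes `T` and `a` -/
theorem ex_st {g : H} (h1 : g • T = T) (h2 : g • a = a) :
    ∃ k : ↥(stabilizer ↥(stabilizer H w) (S.fq w O (S.rho w T), S.fq w O (S.rho w a))),
      k.1.1 = g := ⟨⟨⟨g, h.gw h1⟩, h.st_iff.2 ⟨h1, h2⟩⟩, rfl⟩

theorem mem_st (k : ↥(stabilizer ↥(stabilizer H w)
    (S.fq w O (S.rho w T), S.fq w O (S.rho w a)))) : k.1.1 • T = T ∧ k.1.1 • a = a :=
  h.st_iff.1 k.2

/-! ### splitting `X` -/

theorem X_eq : S.P.X T a = (oc ↥(stabilizer H (T, a)) (S.N5 w T a) +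
    oc ↥(stabilizer H (T, a)) (S.F5 w T a)) + (oc ↥(stabilizer H (T, a)) (S.N4 w T a) +
    oc ↥(stabilizer H (T, a)) (S.F4 w T a)) := by
  have hw : ∀ g : ↥(stabilizer H (T, a)), g.1 • w = w := fun g =>
    h.gw (congrArg Prod.fst (show g.1 • (T, a) = (T, a) from g.2))
  unfold P45.X
  congr 1
  · exact oc_split (G := ↥(stabilizer H (T, a)))
      (A := {f : FL S.K | f ∈ S.P.RP ∧ (fy f, fz f) = (T, a)})
      (fin_fib (π := fun f : FL S.K => (fy f, fz f)) (fun g f => fyz_smul g f) fin_RP (T, a))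
      (fun f => S.IsC (S.tr f.1.2 f.1.1.1) w) (by
        intro g f _ _ k
        have := (S.isC_smul g.1 f.1.2 f.1.1.1 w).2 k
        rw [hw] at this
        exact this)
  · exact oc_split (G := ↥(stabilizer H (T, a)))
      (A := {p : (V × V) × (V × V) | p ∈ S.P.ZP ∧ p.1 = (T, a)})
      (fin_fib (π := fun p : (V × V) × (V × V) => p.1) (fun g f => rfl) fin_ZP (T, a))
      (fun p => w ∈ S.J p.2.1) (by
        intro g p _ _ k
        have := S.js.smul g.1 _ _ k
        rw [hw] at this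
        exact this)

end LTp

end SyQ

end Pool.Agent.DI
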