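import Pool.Agent.DI.LT1

/-!
# Local tops: the inequality

`LTp.le`: near strands and classes of far strands are strands of `([T], [a])` in the folded slice.
-/

namespace Pool.Agent.DI

open MulAction
open Pool.Agent.SAF (InC orbs FinOrb oc Decomp SAn SA Conv hull dist_edge FinOrb_iff exists_next
  mk_eq_iff oc_mono oc_le_of_inj oc_le_of_rel oc_le_of_surj)
open Pool.Agent.BT (PX PQ JS bey exits lz lz_self lz_ne lz_symm x_next_unique)
open Pool.Agent.BT.TA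
open P45

namespace SyQ

variable {H V : Type} [Group H] [MulAction H V] {S : SyQ H V}

/-! ### the flag of `K` of a flag of the folded slice -/

section

variable {hc : S.Conn} {w : S.X} {O : S.OR w} {hm : (S.k0 hc w).Min} {hn : S.SqN w O}

/-- the flag of `K` which gives a flag of the folded slice -/
noncomputable def bkL (hc : S.Conn) {w : S.X} {O : S.OR w} (hm : (S.k0 hc w).Min) (hn : S.SqN w O)
    (f : FL (S.kf hc w O)) : FL S.K := bkf hc (Qt.lf (S.kf_nst hc w O hm hn) f.1, f.2)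

theorem bkL_smul (g : ↥(stabilizer H w)) (f : FL (S.kf hc w O)) :
    bkL hc hm hn (g • f) = g.1 • bkL hc hm hn f := bkf_smul hc g (Qt.lf (S.kf_nst hc w O hm hn) f.1, f.2)

theorem bkL_ex {c : S.C5 w} (j : Fin 5) (l : ↥(stabilizer H w)) (b : Bool) :
    ∃ f' : FL (S.kf hc w O), bkL hc hm hn f' = (S.P.l5 c.1 c.2.1 j (l.1 * c.g), b) ∧
      ¬ (S.kfP hc w O hm hn).sq f'.1.1.1 ∧
      (S.kf hc w O).c0 f'.1 = S.fq w O (S.rho w (S.tr (l.1 * c.g) c.1 j)) ∧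
      (S.kf hc w O).c1 f'.1 = S.fq w O (S.rho w (S.tr (l.1 * c.g) c.1 (j + 1))) ∧
      (S.kf hc w O).c2 f'.1 = S.fq w O (S.rho w (S.tr (l.1 * c.g) c.1 (j + 2))) ∧
      f'.2 = b := by
  have hs := S.kf_nst hc w O hm hn
  have hl : (S.kf hc w O).len (Sum.inl c) = 5 := Qt.len_eq hs (Sum.inl c)
  let e'' : (S.kf hc w O).LE := (⟨Sum.inl c, Fin.cast hl.symm j⟩, l)
  have e1 : Qt.lf hs e'' = e5 hc c j l := rfl
  have k := Qt.lf_c hs e''
  rw [e1, e5_c0, e5_c1, e5_c2] at k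
  refine ⟨(e'', b), rfl, ?_, k.1.symm, k.2.1.symm, k.2.2.symm, rfl⟩
  rintro ⟨p, hp⟩
  cases hp

theorem bkL_inj {f f' : FL (S.kf hc w O)} (e : bkL hc hm hn f = bkL hc hm hn f')
    (hf : ¬ (S.kfP hc w O hm hn).sq f.1.1.1) (hf' : ¬ (S.kfP hc w O hm hn).sq f'.1.1.1) :
    f = f' := by
  have hs := S.kf_nst hc w O hm hn
  have key : ∀ f : FL (S.kf hc w O), ¬ (S.kfP hc w O hm hn).sq f.1.1.1 →
      ∀ p l, Qt.lf hs f.1 ≠ e4 hc p 2 l := by
    intro f hf p l e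
    apply hf
    refine ⟨Sum.inl p, ?_⟩
    exact congrArg (fun z => z.1.1) e
  have h1 : bkq hc (Qt.lf hs f.1) = bkq hc (Qt.lf hs f'.1) := congrArg Prod.fst e
  have h2 : (bkL hc hm hn f).2 = (bkL hc hm hn f').2 := congrArg Prod.snd e
  have h3 := bkq_inj hc (key f hf) (key f' hf') h1
  exact Prod.ext (Qt.lf_inj hs (S.kfQ_inj hc w O) h3) h2

/-- the positions of a pentagon flag -/
theorem flag5 {f : FL S.K} (hf : ¬ S.P.sq f.1.1.1) : ∃ (i : S.K.I) (hi : ¬ S.P.sq i) (j : Fin 5)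
    (g : H) (b : Bool), f = (S.P.l5 i hi j g, b) := by
  obtain ⟨e, b⟩ := f
  rcases S.P.l_cases e with ⟨i, hi, j, g, rfl⟩ | ⟨i, hi, j, g, rfl⟩
  · exact ⟨i, hi, j, g, b, rfl⟩
  · exact absurd hi hf

end

namespace LTp

variable {w : S.X} {O : S.OR w} {T a b : V} (h : S.LTp w O T a b)

include h

/-! ### the near pentagons -/

theorem near_ex {hc : S.Conn} {hm : (S.k0 hc w).Min} {hn : S.SqN w O} {f : FL S.K}
    (hf : f ∈ S.N5 w T a) : ∃ f' : FL (S.kf hc w O), bkL hc hm hn f' = f ∧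
      (f' ∈ (S.kfP hc w O hm hn).RP ∧
        (fy f', fz f') = (S.fq w O (S.rho w T), S.fq w O (S.rho w a))) := by
  obtain ⟨⟨⟨h1, h2⟩, h3⟩, hI⟩ := hf
  obtain ⟨i, hi, j, g, c, rfl⟩ := flag5 h1
  obtain ⟨p, l, rfl, rfl⟩ := exists_e5 hi hI
  obtain ⟨f', k1, k2, k3, k4, k5, k6⟩ := bkL_ex (hc := hc) (hm := hm) (hn := hn) (c := p) j l c
  have e1 : fy ((S.P.l5 p.1 hi j (l.1 * p.g), c) : FL S.K) = T := congrArg Prod.fst h3
  have e2 : fz ((S.P.l5 p.1 hi j (l.1 * p.g), c) : FL S.K) = a := congrArg Prod.snd h3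
  have e3 : fy f' = S.fq w O (S.rho w T) := by
    have : fy f' = (S.kf hc w O).c1 f'.1 := rfl
    rw [this, k4, ← e1]
    show _ = S.fq w O (S.rho w (S.K.c1 (S.P.l5 p.1 hi j (l.1 * p.g))))
    rw [P45.c1_5]
    rfl
  have e4 : fz f' = S.fq w O (S.rho w a) := by
    unfold fz at e2 ⊢
    rw [k6, ← e2]
    cases c
    · rw [if_neg Bool.false_ne_true, if_neg Bool.false_ne_true, k3]
      show _ = S.fq w O (S.rho w (S.K.c0 (S.P.l5 p.1 hi j (l.1 * p.g))))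
      rw [P45.c0_5]
      rfl
    · rw [if_pos rfl, if_pos rfl, k5]
      show _ = S.fq w O (S.rho w (S.K.c2 (S.P.l5 p.1 hi j (l.1 * p.g))))
      rw [P45.c2_5]
      rfl
  refine ⟨f', k1, ⟨k2, ?_⟩, Prod.ext e3 e4⟩
  rw [e3, e4]
  exact h.ar_a

theorem near5_le {hc : S.Conn} {hm : (S.k0 hc w).Min} {hn : S.SqN w O} :
    oc ↥(stabilizer H (T, a)) (S.N5 w T a) ≤
      oc ↥(stabilizer ↥(stabilizer H w) (S.fq w O (S.rho w T), S.fq w O (S.rho w a)))
        {f : FL (S.kf hc w O) | f ∈ (S.kfP hc w O hm hn).RP ∧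
          (fy f, fz f) = (S.fq w O (S.rho w T), S.fq w O (S.rho w a))} := by
  refine oc_le_of_rel (fin_fib (π := fun f : FL (S.kf hc w O) => (fy f, fz f))
    (fun g f => fyz_smul g f) fin_RP _) (fun f f' => bkL hc hm hn f' = f) ?_ ?_
  · intro f hf
    obtain ⟨f', k1, k2⟩ := h.near_ex (hc := hc) (hm := hm) (hn := hn) hf
    exact ⟨f', k2, k1⟩
  · rintro f1 h1 f2 h2 f1' h1' f2' h2' rfl rfl ⟨g, rfl⟩
    have hg := h.mem_st g
    refine ⟨⟨g.1.1, Prod.ext hg.1 hg.2⟩, ?_⟩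
    show g.1.1 • bkL hc hm hn f1' = bkL hc hm hn (g • f1')
    exact (bkL_smul g.1 f1').symm

/-! ### the walks at `w` -/

/-- the top of a walk at `w` is alone in its class -/
theorem near_top {E : V → Prop} (hs : S.P.SqE E) (ho : S.OldT w O) {n q : V}
    (k : Q4 S.P n T a q) (e : S.K.ar n T) (hq : w ∈ S.J q) : q ≠ T ∧
    ((S.K.ar n q ∧ (∀ u, S.D.G.Adj w u → u ∉ S.J n) ∧
        ∀ c, S.fq w O c = S.fq w O (S.rho w n) → c = S.rho w n) ∨
      (S.K.ar q n ∧ (∀ u, ¬ S.Sk w O u (Sum.inl ⟨q, hq⟩)) ∧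
        ∀ c, S.fq w O c = S.fq w O (S.rho w q) → c = S.rho w q)) := by
  have wn := h.wn (Or.inl e)
  rcases hs.exists_top k with t | t | t | t
  · exact (GX.not_both' e t.2.1).elim
  · exact (GX.not_both' h.ta t.2.1).elim
  · -- the top is `q`
    have hne : a ≠ n := hs.nab _ _ _ _ t
    have hl : ∀ u, S.D.G.Adj w u → u ∉ S.J q := fun u hu =>
      loc_of_ar t.2.1 t.2.2 hne hq h.wa wn hu
    have hsk := ho q a n T t hq h.wa wn h.wT
    refine ⟨hs.nTy _ _ _ _ t, Or.inr ⟨t.2.2, hsk, fun c hc => ?_⟩⟩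
    rw [S.rho_near hq] at hc ⊢
    exact fq_loc hl hsk hc
  · -- the top is `n`
    have hne : q ≠ T := hs.nab _ _ _ _ t
    have hl : ∀ u, S.D.G.Adj w u → u ∉ S.J n := fun u hu =>
      loc_of_ar t.2.1 t.2.2 hne wn hq h.wT hu
    refine ⟨hne, Or.inl ⟨t.2.1, hl, fun c hc => ?_⟩⟩
    rw [S.rho_near wn] at hc ⊢
    exact fq_loc hl (h.nsk e wn) hc

theorem near_walk {hc : S.Conn} {hm : (S.k0 hc w).Min} {hn : S.SqN w O} {E : V → Prop}
    (hs : S.P.SqE E) (ho : S.OldT w O) {p : (V × V) × (V × V)} (hp : p ∈ S.N4 w T a) :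
    ((S.fq w O (S.rho w T), S.fq w O (S.rho w a)),
      (S.fq w O (S.rho w p.2.1), S.fq w O (S.rho w p.2.2))) ∈ (S.kfP hc w O hm hn).ZP := by
  obtain ⟨⟨T', a'⟩, ⟨q, n⟩⟩ := p
  obtain ⟨⟨⟨k1, k2, k3⟩, k4⟩, k5⟩ := hp
  obtain ⟨rfl, rfl⟩ : T' = T ∧ a' = a := Prod.ext_iff.1 k4
  have k1 : Q4 S.P n T' a' q := k1
  have k3 : S.K.ar n T' := k3
  have k5 : w ∈ S.J q := k5
  have wn := h.wn (Or.inl k3)
  obtain ⟨hne, -⟩ := h.near_top hs ho k1 k3 k5
  have hna := h.n_ne_a k3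
  have h1 : S.rho w n ≠ S.rho w a' := fun e => hna (by rw [e])
  have h2 : S.rho w T' ≠ S.rho w q := rho_ne_of_ne h.wT (Ne.symm hne)
  refine ⟨(k1.k0q hc h1 h2).kfq hna ?_, h.ar_a, h.ar_n k3⟩
  intro e
  exact h2 (h.T_eq e.symm).symm

theorem near_inj {E : V → Prop} (hs : S.P.SqE E) (ho : S.OldT w O) {n q n' q' : V}
    (k : Q4 S.P n T a q) (e : S.K.ar n T) (hq : w ∈ S.J q)
    (k' : Q4 S.P n' T a q') (e' : S.K.ar n' T) (hq' : w ∈ S.J q')
    (h1 : S.fq w O (S.rho w q) = S.fq w O (S.rho w q'))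
    (h2 : S.fq w O (S.rho w n) = S.fq w O (S.rho w n')) : q = q' ∧ n = n' := by
  have wn := h.wn (Or.inl e)
  have wn' := h.wn (Or.inl e')
  have inj : ∀ {x y : V}, w ∈ S.J y → S.rho w x = S.rho w y → x = y := by
    intro x y hy e
    rw [S.rho_near hy] at e
    exact rho_inl e
  obtain ⟨qT, ⟨a1, -, s1⟩ | ⟨a1, -, s1⟩⟩ := h.near_top hs ho k e hq
  · obtain ⟨qT', ⟨a2, -, s2⟩ | ⟨a2, -, s2⟩⟩ := h.near_top hs ho k' e' hq'
    · have en : n' = n := inj wn (s1 _ h2.symm)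
      subst en
      refine ⟨?_, rfl⟩
      rcases S.K.two _ _ _ _ e a1 a2 with r | r | r
      · exact absurd r.symm qT
      · exact r
      · exact absurd r.symm qT'
    · have en : n' = n := inj wn (s1 _ h2.symm)
      have eq : q = q' := inj hq' (s2 _ h1)
      rw [en, ← eq] at a2
      exact (GX.not_both' a1 a2).elim
  · obtain ⟨qT', ⟨a2, -, s2⟩ | ⟨a2, -, s2⟩⟩ := h.near_top hs ho k' e' hq'
    · have en : n = n' := inj wn' (s2 _ h2)
      have eq : q' = q := inj hq (s1 _ h1.symm)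
      rw [← en, eq] at a2
      exact (GX.not_both' a1 a2).elim
    · have eq : q' = q := inj hq (s1 _ h1.symm)
      subst eq
      refine ⟨rfl, ?_⟩
      have n1 : n ≠ a := fun r => GX.not_both' e (by rw [r]; exact h.ta)
      have n2 : n' ≠ a := fun r => GX.not_both' e' (by rw [r]; exact h.ta)
      have ha : S.K.ar q' a := by
        rcases hs.exists_top k' with t | t | t | t
        · exact (GX.not_both' e' t.2.1).elim
        · exact (GX.not_both' h.ta t.2.1).elim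
        · exact t.2.1
        · exact (GX.not_both' a2 t.2.1).elim
      rcases S.K.two _ _ _ _ a1 a2 ha with r | r | r
      · exact r
      · exact absurd r n2
      · exact absurd r n1

/-! ### the inequality -/

/-- the far walk of a class -/
def far (w : S.X) (O : S.OR w) (T a : V) (p : (S.Q w O × S.Q w O) × (S.Q w O × S.Q w O)) : Prop :=
  ∃ (u : S.X) (hu : S.D.G.Adj w u) (n : V), S.Qs w u T a n ∧ S.K.ar n T ∧
    p.2 = (S.fq w O (Sum.inr ⟨u, hu⟩), S.fq w O (S.rho w n))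

theorem le {hc : S.Conn} {hm : (S.k0 hc w).Min} {hn : S.SqN w O} {E : V → Prop}
    (hs : S.P.SqE E) (ho : S.OldT w O) :
    oc ↥(stabilizer H (T, a)) (S.N5 w T a) + (oc ↥(stabilizer H (T, a)) (S.N4 w T a) +
      oc ↥(stabilizer ↥(stabilizer H w) (S.fq w O (S.rho w T), S.fq w O (S.rho w a)))
        (S.FK w O T a)) ≤
      (S.kfP hc w O hm hn).X (S.fq w O (S.rho w T)) (S.fq w O (S.rho w a)) := by
  have hfin := fin_fib (G := ↥(stabilizer H w))
    (π := fun p : (S.Q w O × S.Q w O) × (S.Q w O × S.Q w O) => p.1) (fun g f => rfl)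
    (fin_ZP (P := S.kfP hc w O hm hn)) (S.fq w O (S.rho w T), S.fq w O (S.rho w a))
  refine Nat.add_le_add (h.near5_le (hm := hm) (hn := hn)) ?_
  have hsp := oc_split hfin (LTp.far w O T a) (by
    rintro g p hp hp' ⟨u, hu, n, k1, k2, k3⟩
    have hg := h.mem_st g
    have k1' := k1.smul g.1
    rw [hg.1, hg.2] at k1'
    have k2' := S.K.ar_smul g.1.1 _ _ k2
    rw [hg.1] at k2'
    refine ⟨g.1.1 • u, k1'.adj, g.1.1 • n, k1', k2', ?_⟩
    show g • p.2 = _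
    rw [k3]
    refine Prod.ext ?_ ?_
    · show g.1 • S.fq w O (Sum.inr ⟨u, hu⟩) = _
      rw [← fq_smul]
      rfl
    · show g.1 • S.fq w O (S.rho w n) = _
      rw [← fq_smul, ← S.rho_smul])
  rw [add_comm] at hsp
  have hsp' := hsp.symm
  refine le_trans ?_ (le_of_eq hsp')
  refine Nat.add_le_add ?_ ?_
  · -- the walks at `w`
    refine oc_le_of_rel (hfin.mono fun _ k => k.1) (fun p p' =>
      p'.2 = (S.fq w O (S.rho w p.2.1), S.fq w O (S.rho w p.2.2))) ?_ ?_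
    · intro p hp
      refine ⟨((S.fq w O (S.rho w T), S.fq w O (S.rho w a)),
        (S.fq w O (S.rho w p.2.1), S.fq w O (S.rho w p.2.2))),
        ⟨⟨h.near_walk hs ho hp, rfl⟩, ?_⟩, rfl⟩
      rintro ⟨u, hu, n, k1, k2, k3⟩
      obtain ⟨⟨T', a'⟩, ⟨q, m⟩⟩ := p
      obtain ⟨⟨⟨j1, j2, j3⟩, j4⟩, j5⟩ := hp
      obtain ⟨rfl, rfl⟩ : T' = T ∧ a' = a := Prod.ext_iff.1 j4
      have j1 : Q4 S.P m T' a' q := j1
      have j3 : S.K.ar m T' := j3
      have j5 : w ∈ S.J q := j5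
      have wm := h.wn (Or.inl j3)
      have e1 : S.fq w O (S.rho w q) = S.fq w O (Sum.inr ⟨u, hu⟩) := congrArg Prod.fst k3
      have e2 : S.fq w O (S.rho w m) = S.fq w O (S.rho w n) := congrArg Prod.snd k3
      obtain ⟨-, ⟨-, s0, s1⟩ | ⟨-, s0, s1⟩⟩ := h.near_top hs ho j1 j3 j5
      · have e3 := s1 _ e2.symm
        rw [S.rho_near wm] at e3
        have e4 : n = m := rho_inl e3
        exact s0 u hu (by rw [← e4]; exact k1.r.2)
      · rw [S.rho_near j5] at e1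
        exact s0 _ (fq_inr.1 e1)
    · rintro p hp p' hp' x - x' - e e' ⟨g, rfl⟩
      have hg := h.mem_st g
      refine ⟨⟨g.1.1, Prod.ext hg.1 hg.2⟩, ?_⟩
      obtain ⟨⟨T', a'⟩, ⟨q, m⟩⟩ := p
      obtain ⟨⟨⟨j1, j2, j3⟩, j4⟩, j5⟩ := hp
      obtain ⟨⟨T'', a''⟩, ⟨q', m'⟩⟩ := p'
      obtain ⟨⟨⟨i1, i2, i3⟩, i4⟩, i5⟩ := hp'
      obtain ⟨rfl, rfl⟩ : T' = T ∧ a' = a := Prod.ext_iff.1 j4
      obtain ⟨rfl, rfl⟩ : T'' = T' ∧ a'' = a' := Prod.ext_iff.1 i4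
      have j1 : Q4 S.P m T'' a'' q := j1
      have j3 : S.K.ar m T'' := j3
      have j5 : w ∈ S.J q := j5
      have i1 : Q4 S.P m' T'' a'' q' := i1
      have i3 : S.K.ar m' T'' := i3
      have i5 : w ∈ S.J q' := i5
      have gw : g.1.1 • w = w := g.1.2
      have j1' := j1.smul g.1.1
      rw [hg.1, hg.2] at j1'
      have j3' := S.K.ar_smul g.1.1 _ _ j3
      rw [hg.1] at j3'
      have j5' := S.js.smul g.1.1 _ _ j5
      rw [gw] at j5'
      have e : x.2 = (S.fq w O (S.rho w q), S.fq w O (S.rho w m)) := e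
      have e' : (g • x).2 = (S.fq w O (S.rho w q'), S.fq w O (S.rho w m')) := e'
      have e2 : g • x.2 = (S.fq w O (S.rho w q'), S.fq w O (S.rho w m')) := e'
      rw [e] at e2
      have e3 : g.1 • S.fq w O (S.rho w q) = S.fq w O (S.rho w q') := congrArg Prod.fst e2
      have e4 : g.1 • S.fq w O (S.rho w m) = S.fq w O (S.rho w m') := congrArg Prod.snd e2
      rw [← fq_smul, ← S.rho_smul] at e3 e4
      obtain ⟨r1, r2⟩ := h.near_inj hs ho j1' j3' j5' i1 i3 i5 e3 e4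
      refine Prod.ext (Prod.ext hg.1 hg.2) (Prod.ext r1 r2)
  · -- the far classes
    refine oc_le_of_rel (hfin.mono fun _ k => k.1) (fun k p' => p'.2.2 = k) ?_ ?_
    · rintro k ⟨u, n, k1, k2, rfl⟩
      have hna := h.n_ne_a k2
      have hne : n ≠ a := fun r => hna (by rw [r])
      have hsk : S.fq w O (S.rho w T) ≠ S.fq w O (Sum.inr ⟨u, k1.adj⟩) := by
        intro e
        rw [S.rho_near h.wT] at e
        exact h.sk _ (fq_inr.1 e)
      refine ⟨((S.fq w O (S.rho w T), S.fq w O (S.rho w a)),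
        (S.fq w O (Sum.inr ⟨u, k1.adj⟩), S.fq w O (S.rho w n))),
        ⟨⟨⟨?_, h.ar_a, h.ar_n k2⟩, rfl⟩, ⟨u, k1.adj, n, k1, k2, rfl⟩⟩, rfl⟩
      exact (Qs.k0 hc k1.symm' hne).kfq hna hsk
    · rintro k hk k' hk' x - x' - rfl rfl ⟨g, rfl⟩
      exact ⟨g, rfl⟩

end LTp

end SyQ

end Pool.Agent.DI
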