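import Pool.Agent.DI.NX
import Pool.Agent.DI.Thin2

/-!
# The number of the self pieces of fat softs: static form, thinning

`P45.sN`: the codes of the self pieces of the fat softs, in terms of the corners, the pieces and `X`.
`P45.nN_eq : (P.fc nd).nN = oc H P.sN`. `P45.thin_nN`: the number does not change if the parallel squares
are dropped.
-/

namespace Pool.Agent.DI

open MulAction
open Pool.Agent.SAF (InC orbs FinOrb oc mk_eq_iff FinOrb_iff)

namespace P45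

variable {H V : Type} [Group H] [MulAction H V] {K : GX H V} (P : P45 K)

/-- two strands at a pole -/
def fat (y : V) : Prop := ∃ a, K.ar y a ∧ 2 ≤ P.X y a

/-- the codes of the self pieces of the fat softs -/
def sN : Set (PN V) := {t | ∃ y n a, ∃ g : H, t = PN.pol y y (K.Pc y n) ∧ P.fat y ∧ K.ar n y ∧
  K.ar y a ∧ K.Cor n y a ∧ g • y = y ∧ K.IJ y n (g • n) ∧ g • a ≠ a}

theorem sps_iff (nd : P.ND) {y : V} {C : Set V} : NF.pol y y C ∈ (P.fc nd).sps ↔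
    PN.pol y y C ∈ P.sN := by
  constructor
  · rintro ⟨e, h1, h2, ⟨h3, h4⟩, g, h5, h6, h7⟩
    obtain ⟨e1, -, e3⟩ := NF.pol.inj h1
    refine ⟨(P.fc nd).y e, (P.fc nd).x e, (P.fc nd).z e, g, ?_, (P.fat_iff nd _).1 h2, h3, h4,
      (P.fc_Co nd).1 ⟨e, rfl, rfl, rfl⟩, h5, (P.fc_IJ nd).1 h6, h7⟩
    rw [e1, e3, P.fc_Pc]
  · rintro ⟨y', n, a, g, h1, h2, h3, h4, h5, h6, h7, h8⟩
    obtain ⟨e1, -, e3⟩ := PN.pol.inj h1
    subst e1
    obtain ⟨e, k1, k2, k3⟩ := (P.fc_Co nd).2 h5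
    refine ⟨e, ?_, ?_, ⟨?_, ?_⟩, g, ?_, ?_, ?_⟩
    · rw [k1, k2, e3, P.fc_Pc]
    · rw [k2]
      exact (P.fat_iff nd _).2 h2
    · rw [k1, k2]
      exact h3
    · rw [k2, k3]
      exact h4
    · rw [k2, h6]
    · rw [k2, k1]
      exact (P.fc_IJ nd).2 h7
    · rw [k3]
      exact h8

/-- the corresponding codes -/
def cR (t : PN V) : NF V (FL K) := match t with
  | PN.pol y a C => NF.pol y a C
  | PN.inn y n => NF.inn y n

theorem cR_mem (nd : P.ND) {t : PN V} (ht : t ∈ P.sN) : cR (K := K) t ∈ (P.fc nd).sps := by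
  obtain ⟨y, n, a, g, rfl, h⟩ := id ht
  exact (P.sps_iff nd).2 ht

theorem cR_inj {t t' : PN V} (ht : t ∈ P.sN) (ht' : t' ∈ P.sN)
    (h : ∃ h : H, h • cR (K := K) t = cR t') : ∃ h : H, h • t = t' := by
  obtain ⟨y, n, a, g, rfl, -⟩ := ht
  obtain ⟨y', n', a', g', rfl, -⟩ := ht'
  obtain ⟨h, hh⟩ := h
  refine ⟨h, ?_⟩
  have hh : h • (NF.pol y y (K.Pc y n) : NF V (FL K)) = NF.pol y' y' (K.Pc y' n') := hh
  rw [NF.smul_pol] at hh
  obtain ⟨e1, -, e3⟩ := NF.pol.inj hh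
  rw [PN.smul_pol, e1, e3]

theorem fin_sN (nd : P.ND) : FinOrb H P.sN :=
  SAF.FinOrb.of_inj (P.fc nd).fin_sps (cR (K := K)) (fun _ h => P.cR_mem nd h)
    (fun _ h _ h' k => P.cR_inj h h' k)

/-- THE STATIC FORM -/
theorem nN_eq (nd : P.ND) : (P.fc nd).nN = oc H P.sN := by
  apply le_antisymm
  · refine SAF.oc_le_of_rel (P.fin_sN nd) (fun t t' => ∃ y C, t = NF.pol y y C ∧
      t' = PN.pol y y C) ?_ ?_
    · intro t ht
      obtain ⟨e, rfl, -⟩ := id ht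
      exact ⟨_, (P.sps_iff nd).1 ht, _, _, rfl, rfl⟩
    · rintro _ - _ - _ - _ - ⟨y, C, rfl, rfl⟩ ⟨y', C', rfl, rfl⟩ ⟨h, hh⟩
      rw [PN.smul_pol] at hh
      obtain ⟨e1, -, e3⟩ := PN.pol.inj hh
      exact ⟨h, by rw [NF.smul_pol, e1, e3]⟩
  · exact SAF.oc_le_of_inj (P.fc nd).fin_sps (cR (K := K)) (fun _ h => P.cR_mem nd h)
      (fun _ h _ h' k => P.cR_inj h h' k)

/-- the pieces of the thinned complex -/
theorem thin_IJ50 {y a b : V} : P.thin.IJ y a b ↔ K.IJ y a b := by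
  have : P.thin.IC y = K.IC y := by
    funext a b
    unfold GX.IC
    exact propext (and_congr P.thin_Cor Iff.rfl)
  unfold GX.IJ
  rw [this]

theorem thin_sN : P.thinP.sN = P.sN := by
  have hPc : ∀ y n, P.thin.Pc y n = K.Pc y n := by
    intro y n
    ext m
    exact P.thin_IJ50
  have hfat : ∀ y, P.thinP.fat y ↔ P.fat y := by
    intro y
    unfold fat
    exact exists_congr fun a => and_congr Iff.rfl (by rw [P.thin_X])
  ext t
  constructor
  · rintro ⟨y, n, a, g, rfl, h2, h3, h4, h5, h6, h7, h8⟩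
    exact ⟨y, n, a, g, by rw [hPc], (hfat y).1 h2, h3, h4, P.thin_Cor.1 h5, h6,
      P.thin_IJ50.1 h7, h8⟩
  · rintro ⟨y, n, a, g, rfl, h2, h3, h4, h5, h6, h7, h8⟩
    exact ⟨y, n, a, g, by rw [hPc], (hfat y).2 h2, h3, h4, P.thin_Cor.2 h5, h6,
      P.thin_IJ50.2 h7, h8⟩

/-- THINNING DOES NOT CHANGE THE NUMBER OF THE SELF PIECES OF FAT SOFTS -/
theorem thin_nN (nd : P.ND) (nd' : P.thinP.ND) : (P.thinP.fc nd').nN = (P.fc nd).nN := by
  rw [P.nN_eq nd, P.thinP.nN_eq nd', P.thin_sN]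

end P45

end Pool.Agent.DI
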