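import Pool.Agent.DI.IslC
import Pool.Agent.DI.Nr
import Pool.Agent.DI.Ns
import Pool.Agent.DI.KXd
import Pool.Agent.DI.XtB

/-!
# Lemma VIS for the bare vertices (owner: helper64)

`noS_bare`: no local square at a bare vertex. `S.VisE`: at constant `N''` the self local pieces of the fat
vertices at `w` are not in `TF` (`visE_of`: from 50's `nN_raw_vis` and `nN_surj`). `Int2.no_fat`: a pole of a
bare vertex with two diamonds which is reversed is not fat. `vis_dq`: an element which fixes such a vertex and its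
poles fixes the edges at `w` (`hdq` of `DI/P4h`).
-/

namespace Pool.Agent.DI

open MulAction
open Pool.Agent.SAF (InC orbs FinOrb oc Decomp SAn SA Conv hull dist_edge FinOrb_iff exists_next)
open Pool.Agent.BT (PX PQ JS bey exits)
open Pool.Agent.BT.TA

namespace SyQ

variable {H V : Type} [Group H] [MulAction H V] {S : SyQ H V}

/-- no local square at a bare vertex -/
theorem noS_bare {E : V → Prop} (hs : S.P.SqE E)
    (hbE : ∀ T a b y, S.P.Top T a b y → S.P.Bare T → E T) {w : S.X}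
    (hnoE : ∀ T a b y, S.P.Top T a b y → S.Loc w T a b y → ¬ E T) {v : V} (hw : w ∈ S.J v)
    (hb : S.P.Bare v) : S.NoS w v := by
  intro x y z hq hx hy hz
  rcases hs.exists_top hq with h | h | h | h
  · exact hnoE _ _ _ _ h ⟨hw, hx, hy, hz⟩ (hbE _ _ _ _ h hb)
  · exact hb.1 _ h.2.1
  · rcases hs.side _ _ _ _ h with k | k | k
    · exact hnoE _ _ _ _ h ⟨hz, hy, hx, hw⟩ k
    · exact hb.1 _ k
    · exact hb.1 _ k
  · exact hb.1 _ h.2.2

theorem Psv.noS {w : S.X} {O : S.OR w} {E : V → Prop} (h : S.Psv w O E) {v : V} (hw : w ∈ S.J v)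
    (hb : S.P.Bare v) : S.NoS w v := noS_bare h.sq h.bE h.noE hw hb

section

variable {hc : S.Conn} {hnb : S.NB} {w : S.X} {O : S.OR w} {hm : (S.k0 hc w).Min}
  {hn : S.SqN w O} {F : Set V}

variable (hc hnb w O hm hn F) in
/-- the self local pieces of the fat vertices are seen in the folded slice -/
def VisE : Prop := ∀ (x n : S.NV w) (g : H), S.SL w x.1 n.1 g → S.Rv w x.1 g →
  (S.kfc hnb).Fat x.1 → ∃ e, (S.k0fc hc hnb w).Sf e ∧ (S.k0fc hc hnb w).y e = Sum.inl x ∧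
    (S.k0fc hc hnb w).IJ (Sum.inl x) ((S.k0fc hc hnb w).x e) (Sum.inl n) ∧
    ¬ S.TF hc hnb w O hm hn F (Sum.inl x) ((S.k0fc hc hnb w).x e)

theorem visE_of (hN : S.NRaw hnb w)
    (hle : (S.kfc hnb).nN ≤ (S.k0fc hc hnb w).nNP (S.FatK hnb w))
    (hs : ∀ e, (S.k0fc hc hnb w).Sf e → S.FatK hnb w ((S.k0fc hc hnb w).y e) →
      ¬ S.TF hc hnb w O hm hn F ((S.k0fc hc hnb w).y e) ((S.k0fc hc hnb w).x e)) :
    S.VisE hc hnb w O hm hn F := by
  intro x n g h hr hf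
  obtain ⟨e, he, h1, h2⟩ := nN_raw_vis hc hN hle (x := x) (n := n) h hr hf
  obtain ⟨k1, -, k3⟩ := NF.pol.inj he
  refine ⟨e, h2, k1.symm, ?_, ?_⟩
  · have k4 := FC.Pc_eq.1 (k3.trans (by rw [← k1]))
    exact k4.symm'
  · have := hs e h2 h1
    rwa [← k1] at this

/-- A REVERSED POLE OF A BARE VERTEX IS NOT FAT -/
theorem Ivs.no_fat {v : V} (hI : S.Ivs w v) (hFO : S.FO w O F) (hk : S.KSq w O F)
    (hH : S.HubN hc hnb w O hm hn F) (hv : S.VisE hc hnb w O hm hn F) (hvF : v ∈ F)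
    (hd : ∀ u, ¬ S.SD w u v) {a : V} (ha : S.K.ar v a) (hwa : w ∈ S.J a) {g : H}
    (hr : S.Rv w a g) (gv : g • v = v) : ¬ (S.kfc hnb).Fat a := by
  intro hf
  have hwv : w ∈ S.J v := by rw [hI.Jv]; rfl
  have hSL : S.SL w a v g := ⟨hwa, hwv, ha, hr.1, hr.2.1, by rw [gv]; exact Relation.EqvGen.refl _⟩
  obtain ⟨e, h1, h2, h3, h4⟩ := hv ⟨a, hwa⟩ ⟨v, hwv⟩ g hSL hr hf
  -- the page is `v`
  have hx : (S.k0fc hc hnb w).x e = Sum.inl ⟨v, hwv⟩ := by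
    have hst : S.SAr w ((S.k0fc hc hnb w).x e) ((S.k0fc hc hnb w).y e) := h1.1.1
    obtain ⟨m, hm'⟩ := sar_soft hst
    rw [hm'] at h3 ⊢
    have h5 : (S.k0 hc w).IJ (Sum.inl ⟨a, hwa⟩) (Sum.inl m) (Sum.inl ⟨v, hwv⟩) :=
      ((S.k0P hc w).fc_IJ _).1 h3
    rw [hI.pc h5 (Or.inr rfl)]
  apply h4
  refine Or.inr (Or.inr ⟨⟨v, hwv⟩, hvF, hx, fun e' he' hx' hy' => ?_⟩)
  -- a kept flag of `v`
  have hk' : (S.kfM hc hnb w O hm hn).Kp ((S.k0fc hc hnb w).r ((S.k0fc hc hnb w).v e')) :=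
    he'.v.r
  refine HubN.dq hFO hk hH (q := ⟨v, hwv⟩) hvF hd hk' ?_
  show (S.k0fc hc hnb w).x e' = _
  rw [hx', hx]

/-- VIS (b) FOR THE BARE VERTICES WITH TWO DIAMONDS -/
theorem vis_dq (hwm : S.WMin w) (hL : ∀ v, S.K.LC v) (hTS : S.TSp w) (hFO : S.FO w O F)
    (hk : S.KSq w O F) (hH : S.HubN hc hnb w O hm hn F) (hv : S.VisE hc hnb w O hm hn F)
    (uqs : ∀ z, (∀ a, ¬ S.K.ar z a) → S.K.VC z → ∀ u, S.D.G.Adj w u → w ∈ S.J z → u ∈ S.J z →
      S.UqV w u z)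
    (uqt : ∀ z n g, S.SL w z n g → S.Rv w z g → (∃ a, S.K.ar z a) → ¬ (S.kfc hnb).Fat z → ∀ u,
      S.D.G.Adj w u → u ∈ S.J z → S.UqV w u z)
    {i : S.K.I} (hi : ¬ S.P.sq i) {q : V} {u u' : S.X} (hd : S.Dia w u q) (hd' : S.Dia w u' q)
    (hne : u ≠ u') (hq : q ∈ F) (hN : S.NoS w q) {g : H} (gw : g • w = w) (gq : g • q = q)
    (gp : ∀ b, S.K.ar q b → g • b = b) : g • u = u := by
  obtain ⟨-, a, -, -, ha, -, -⟩ := id hd
  obtain ⟨b, hI⟩ := hd.int2 hd' hne ha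
  have hIv := Ivs.of_int hI (k0_min hc hwm) (hL q) hN
  have hsd : ∀ v, ¬ S.SD w v q := by
    intro v h
    exact hne ((h.2 u hd).trans (h.2 u' hd').symm)
  refine hI.fix hc hnb hwm (hL q) hN hTS hi gw gq (gp a ha) fun hgu => ?_
  have key : ∀ c, S.K.ar q c → S.Cs w u c → ∀ v, S.D.G.Adj w v → v ∈ S.J c → S.UqV w v c := by
    intro c hc' hcs v hv1 hv2
    by_cases hs : ∃ d, S.K.ar c d
    · obtain ⟨d, hd0⟩ := hs
      have hr : S.Rv w c g := rv_of_exits hI.hu hd0 hcs.1 hcs.2 gw (gp c hc') hgu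
      have hnf := hIv.no_fat hFO hk hH hv hq hsd hc' hcs.1 hr gq
      exact uqt c q g ⟨hcs.1, hI.hw, hc', gw, gp c hc', by rw [gq]; exact Relation.EqvGen.refl _⟩
        hr ⟨d, hd0⟩ hnf v hv1 hv2
    · push Not at hs
      refine uqs c hs ?_ v hv1 hcs.1 hv2
      obtain ⟨y, hy⟩ := hI.cel (hL q) (Or.inr hc' : S.K.E c q)
      exact ⟨q, GX.EC_iff.2 ⟨y, hy⟩⟩
  exact ⟨fun v h1 h2 => key a ha hI.au v h1 h2, fun v h1 h2 => key b hI.vb hI.bu v h1 h2⟩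

end

end SyQ

end Pool.Agent.DI
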