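import Pool.Agent.DI.NV
import Pool.Agent.DI.NT
import Pool.Agent.DI.KXe
import Pool.Agent.DI.Main0
import Pool.Agent.DI.OpB
import Pool.Agent.DI.VisQ
import Pool.Agent.DI.PzP
import Pool.Agent.DI.LineQ

/-!
# The law of the self pieces of fat softs

`BareF.nN_le`: the folded slice, only bare vertices are folded. `Psv.nn_of`: the form of a step. `Psv.visE`:
at constant `N''` the self local pieces of the fat vertices are not in `TF`.
-/

namespace Pool.Agent.DI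

open MulAction
open Pool.Agent.SAF (InC orbs FinOrb oc Conv exists_next)
open Pool.Agent.BT (PX PQ JS bey exits)
open Pool.Agent.BT.TA

namespace SyQ

variable {H V : Type} [Group H] [MulAction H V] {S : SyQ H V}

section

variable {hc : S.Conn} {hnb : S.NB} {w : S.X} {O : S.OR w} {hm : (S.k0 hc w).Min}
  {hn : S.SqN w O} {F : Set V}

/-- THE LAW OF THE SELF PIECES, only bare vertices are folded -/
theorem BareF.nN_le (hF : S.BareF w F) (h : S.FO w O F) (hk : S.KSq w O F) (hS : S.SinkH)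
    (hTS : S.TSp w) (hos : S.OSb) (hR : S.NRaw hnb w) (hN : S.NUq hnb w)
    (he : (S.kf hc w O).pexc + oc H (S.Dz F) ≤ (S.k0 hc w).pexc) :
    (S.kffc hc w O hm hn).nN ≤ (S.kfc hnb).nN :=
  le_trans ((hF.fold h hk).nN_le (fhyp h (hF.thinG h) hS hTS hos hN)
    (hF.eq (hc := hc) (hnb := hnb) (hm := hm) (hn := hn) h hk he)) (nN_raw hc hR)

/-- the equality case: the self local pieces of the fat vertices are seen -/
theorem BareF.visE (hF : S.BareF w F) (h : S.FO w O F) (hk : S.KSq w O F) (hS : S.SinkH)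
    (hTS : S.TSp w) (hos : S.OSb) (hR : S.NRaw hnb w) (hN : S.NUq hnb w)
    (he : (S.kf hc w O).pexc + oc H (S.Dz F) ≤ (S.k0 hc w).pexc)
    (hle : (S.kfc hnb).nN ≤ (S.kffc hc w O hm hn).nN) : S.VisE hc hnb w O hm hn F := by
  have hfh := fhyp (hc := hc) (hm := hm) (hn := hn) h (hF.thinG h) hS hTS hos hN
  have hE := hF.eq (hc := hc) (hnb := hnb) (hm := hm) (hn := hn) h hk he
  have h1 : (S.kffc hc w O hm hn).nN ≤ (S.k0fc hc hnb w).nNP (S.FatK hnb w) :=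
    (hF.fold h hk).nN_le hfh hE
  have h2 : (S.k0fc hc hnb w).nNP (S.FatK hnb w) ≤ (S.kfc hnb).nN := nN_raw hc hR
  refine visE_of hR (hle.trans h1) fun e he1 he2 => ?_
  obtain ⟨-, -, -, -, -, k⟩ := (hF.fold h hk).nN_surj hfh hE (h2.trans hle) he1 he2
  exact k

/-- the equality case: no self piece of a fat vertex is lost -/
theorem BareF.nN_hle (hF : S.BareF w F) (h : S.FO w O F) (hk : S.KSq w O F) (hS : S.SinkH)
    (hTS : S.TSp w) (hos : S.OSb) (hN : S.NUq hnb w)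
    (he : (S.kf hc w O).pexc + oc H (S.Dz F) ≤ (S.k0 hc w).pexc)
    (hle : (S.kfc hnb).nN ≤ (S.kffc hc w O hm hn).nN) :
    (S.kfc hnb).nN ≤ (S.k0fc hc hnb w).nNP (S.FatK hnb w) :=
  hle.trans ((hF.fold h hk).nN_le (fhyp h (hF.thinG h) hS hTS hos hN)
    (hF.eq (hc := hc) (hnb := hnb) (hm := hm) (hn := hn) h hk he))

/-- the equality case: a fat vertex with a self piece is reversed over a translate of `w` -/
theorem BareF.nN_D1 (hF : S.BareF w F) (h : S.FO w O F) (hk : S.KSq w O F) (hS : S.SinkH)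
    (hTS : S.TSp w) (hos : S.OSb) (hR : S.NRaw hnb w) (hN : S.NUq hnb w)
    (he : (S.kf hc w O).pexc + oc H (S.Dz F) ≤ (S.k0 hc w).pexc)
    (hle : (S.kfc hnb).nN ≤ (S.kffc hc w O hm hn).nN) {e : FL S.K}
    (hs : (S.kfc hnb).Sf e) (hf : (S.kfc hnb).Fat ((S.kfc hnb).y e)) {u : S.X} {g : H}
    (hu : u ∈ S.J ((S.kfc hnb).y e)) (hr : S.Rv u ((S.kfc hnb).y e) g) :
    ∃ (k : H) (n : V) (g' : H), k • w = u ∧ S.SL u ((S.kfc hnb).y e) n g' ∧
      S.K.IJ ((S.kfc hnb).y e) n ((S.kfc hnb).x e) := by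
  have hfh := fhyp (hc := hc) (hm := hm) (hn := hn) h (hF.thinG h) hS hTS hos hN
  have hE := hF.eq (hc := hc) (hnb := hnb) (hm := hm) (hn := hn) h hk he
  exact nN_raw_D1 hc hR (hle.trans ((hF.fold h hk).nN_le hfh hE)) hs hf hu hr

end

/-! ### the form of a step -/

section

variable {w : S.X} {O : S.OR w} {E : V → Prop}

/-- THE LAW OF THE SELF PIECES -/
theorem Psv.nn_of (h : S.Psv w O E) {hnb : S.NB} (hF : S.BareF w h.rz.F)
    (hx : KX1 (O := O) (k0_min h.gd.conn h.wm) (S.sqN h.gd.conn w O))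
    (hTS : S.TSp w) (hos : S.OSb) (hR : S.NRaw hnb w) (hN : S.NUq hnb w)
    (he : (S.kf h.gd.conn w O).pexc + oc H (S.Dz h.rz.F) ≤ (S.k0 h.gd.conn w).pexc) :
    ((h.kP O).thinP.fc ((h.kP O).thin_ND (h.kP_nd O))).nN ≤ (S.P.fc h.nd).nN := by
  rw [(h.kP O).thin_nN (h.kP_nd O)]
  exact hF.nN_le (hc := h.gd.conn) (hm := k0_min h.gd.conn h.wm) (hn := S.sqN h.gd.conn w O)
    h.rz.fO (h.rz.kSq hx hnb) (h.gd.sinkH fun y _ => h.lc y) hTS hos hR hN he

/-- the equality case -/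
theorem Psv.visE (h : S.Psv w O E) {hnb : S.NB} (hF : S.BareF w h.rz.F)
    (hx : KX1 (O := O) (k0_min h.gd.conn h.wm) (S.sqN h.gd.conn w O))
    (hTS : S.TSp w) (hos : S.OSb) (hR : S.NRaw hnb w) (hN : S.NUq hnb w)
    (he : (S.kf h.gd.conn w O).pexc + oc H (S.Dz h.rz.F) ≤ (S.k0 h.gd.conn w).pexc)
    (h3 : ((h.kP O).thinP.fc ((h.kP O).thin_ND (h.kP_nd O))).nN = (S.P.fc h.nd).nN) :
    S.VisE h.gd.conn hnb w O (k0_min h.gd.conn h.wm) (S.sqN h.gd.conn w O) h.rz.F := by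
  rw [(h.kP O).thin_nN (h.kP_nd O)] at h3
  exact hF.visE (hc := h.gd.conn) (hm := k0_min h.gd.conn h.wm) (hn := S.sqN h.gd.conn w O)
    h.rz.fO (h.rz.kSq hx hnb) (h.gd.sinkH fun y _ => h.lc y) hTS hos hR hN he h3.ge

/-- the equality case: no self piece of a fat vertex is lost -/
theorem Psv.nn_hle (h : S.Psv w O E) {hnb : S.NB} (hF : S.BareF w h.rz.F)
    (hx : KX1 (O := O) (k0_min h.gd.conn h.wm) (S.sqN h.gd.conn w O))
    (hTS : S.TSp w) (hos : S.OSb) (hN : S.NUq hnb w)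
    (he : (S.kf h.gd.conn w O).pexc + oc H (S.Dz h.rz.F) ≤ (S.k0 h.gd.conn w).pexc)
    (h3 : ((h.kP O).thinP.fc ((h.kP O).thin_ND (h.kP_nd O))).nN = (S.P.fc h.nd).nN) :
    (S.kfc hnb).nN ≤ (S.k0fc h.gd.conn hnb w).nNP (S.FatK hnb w) := by
  rw [(h.kP O).thin_nN (h.kP_nd O)] at h3
  exact hF.nN_hle (hc := h.gd.conn) (hm := k0_min h.gd.conn h.wm) (hn := S.sqN h.gd.conn w O)
    h.rz.fO (h.rz.kSq hx hnb) (h.gd.sinkH fun y _ => h.lc y) hTS hos hN he h3.ge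

/-- the equality case: a fat vertex with a self piece is reversed over a translate of `w` -/
theorem Psv.nn_D1 (h : S.Psv w O E) {hnb : S.NB} (hF : S.BareF w h.rz.F)
    (hx : KX1 (O := O) (k0_min h.gd.conn h.wm) (S.sqN h.gd.conn w O))
    (hTS : S.TSp w) (hos : S.OSb) (hR : S.NRaw hnb w) (hN : S.NUq hnb w)
    (he : (S.kf h.gd.conn w O).pexc + oc H (S.Dz h.rz.F) ≤ (S.k0 h.gd.conn w).pexc)
    (h3 : ((h.kP O).thinP.fc ((h.kP O).thin_ND (h.kP_nd O))).nN = (S.P.fc h.nd).nN)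
    {e : FL S.K} (hs : (S.kfc hnb).Sf e) (hf : (S.kfc hnb).Fat ((S.kfc hnb).y e)) {u : S.X}
    {g : H} (hu : u ∈ S.J ((S.kfc hnb).y e)) (hr : S.Rv u ((S.kfc hnb).y e) g) :
    ∃ (k : H) (n : V) (g' : H), k • w = u ∧ S.SL u ((S.kfc hnb).y e) n g' ∧
      S.K.IJ ((S.kfc hnb).y e) n ((S.kfc hnb).x e) := by
  rw [(h.kP O).thin_nN (h.kP_nd O)] at h3
  exact hF.nN_D1 (hc := h.gd.conn) (hm := k0_min h.gd.conn h.wm) (hn := S.sqN h.gd.conn w O)
    h.rz.fO (h.rz.kSq hx hnb) (h.gd.sinkH fun y _ => h.lc y) hTS hos hR hN he h3.ge hs hf hu hr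

end

end SyQ

end Pool.Agent.DI
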