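import Pool.Agent.DI.UqM
import Pool.Agent.DI.IslA
import Pool.Agent.DI.PhL

/-!
# One crossing corner for an invariant set of corners

`A : SubMulAction H S.K.LE` such that every corner has a parallel corner in `A` (`SyQ.Par A`). `SUA A z`,
`Th1A A z`: `SU z`, `Th1 z` for the corners in `A`. `uqA_of`: the corners of `z` in `A` which cross an
edge are one orbit; `uqV_of`: all corners which cross the edge are one orbit, as triples.
-/

namespace Pool.Agent.DI

open MulAction
open Pool.Agent.SAF (InC orbs FinOrb oc Decomp SAn SA Conv hull dist_edge FinOrb_iff exists_next TAct)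
open Pool.Agent.BT (PX PQ JS bey exits)
open Pool.Agent.BT.TA

namespace SyQ

variable {H V : Type} [Group H] [MulAction H V] (S : SyQ H V)

/-- every corner has a parallel corner in `A` -/
def Par (A : SubMulAction H S.K.LE) : Prop := ∀ e : S.K.LE, ∃ e' ∈ A, S.K.c1 e' = S.K.c1 e ∧
  S.En e' (S.K.c0 e) (S.K.c2 e)

/-- one strand in `A` for every local piece and every exit -/
def SUA (A : SubMulAction H S.K.LE) (z : V) : Prop := ∀ r ∈ S.J z, ∀ (e e' : S.K.LE)
  (n m n' m' : V), e ∈ A → e' ∈ A → S.K.c1 e = z →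
  S.K.c1 e' = z → S.En e n m → S.En e' n' m' → S.K.ar n z → S.K.ar n' z → r ∈ S.J n →
  r ∈ S.J n' → Relation.EqvGen (S.LR z r) n n' → S.ExS z r m m' →
  ∃ g : H, g • z = z ∧ g • r = r ∧ e' = g • e

/-- the corners in `A` at a pole are one orbit -/
def Th1A (A : SubMulAction H S.K.LE) (z : V) : Prop := ∀ (a : V), S.K.ar z a →
  ∀ (e e' : S.K.LE) (m m' : V), e ∈ A → e' ∈ A → S.K.c1 e = z →
  S.K.c1 e' = z → S.En e a m → S.En e' a m' → ∃ g : H, g • z = z ∧ g • a = a ∧ e' = g • e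

/-- the corners of `z` in `A` which cross the edge are one orbit -/
def UqA (A : SubMulAction H S.K.LE) (w u : S.X) (z : V) : Prop := ∀ e e' : S.K.LE, e ∈ A →
  e' ∈ A → S.K.c1 e = z → S.K.c1 e' = z →
  S.Xe w u e → S.Xe w u e' → ∃ g : H, g • z = z ∧ g • w = w ∧ g • u = u ∧ e' = g • e

variable {S}

theorem En.swap {e : S.K.LE} {n m : V} (h : S.En e n m) : S.En e m n :=
  h.elim (fun k => Or.inr ⟨k.1, k.2⟩) (fun k => Or.inl ⟨k.1, k.2⟩)

section

variable (S) (A : SubMulAction H S.K.LE) (w u : S.X) (z : V)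

/-- the corners at `z` in `A` -/
def Cn4 : SubMulAction (S.N3 w u z) S.K.LE where
  carrier := {e | S.K.c1 e = z ∧ e ∈ A}
  smul_mem' g e h := by
    have h1 : (g : H) • z = z := g.2.1
    have h2 : S.K.c1 e = z := h.1
    refine ⟨?_, A.smul_mem (g : H) h.2⟩
    show S.K.c1 ((g : H) • e) = z
    rw [S.K.c1_smul, h2, h1]

/-- as a corner at `z` -/
def c34 (e : S.Cn4 A w u z) : S.Cn3' w u z := ⟨e.1, e.2.1⟩

/-- the first end -/
noncomputable def s4 (e : S.Cn4 A w u z) : S.Nd3 w u z := S.s3 w u z (S.c34 A w u z e)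

/-- the second end -/
noncomputable def t4 (e : S.Cn4 A w u z) : S.Nd3 w u z := S.t3 w u z (S.c34 A w u z e)

variable {S A w u z}

theorem LEd4 {a b : S.Nd3 w u z} {c : S.Cn4 A w u z}
    (h : LEd (S.s4 A w u z) (S.t4 A w u z) a b c) :
    LEd (S.s3 w u z) (S.t3 w u z) a b (S.c34 A w u z c) := h

theorem LLoc4 {a b : S.Nd3 w u z}
    (h : Relation.EqvGen (LLoc (S.s4 A w u z) (S.t4 A w u z) (S.pos3 w u z)) a b) :
    Relation.EqvGen (LLoc (S.s3 w u z) (S.t3 w u z) (S.pos3 w u z)) a b := by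
  induction h with
  | rel a b h =>
    obtain ⟨c, h1, h2⟩ := h
    exact Relation.EqvGen.rel _ _ ⟨_, LEd4 h1, h2⟩
  | refl a => exact Relation.EqvGen.refl _
  | symm a b _ ih => exact ih.symm
  | trans a b c _ _ i1 i2 => exact i1.trans _ _ _ i2

theorem conn4 (hA : S.Par A) (hc : S.K.LC z) (n m : S.Nd3 w u z) :
    Relation.EqvGen (fun a b => ∃ c, S.s4 A w u z c = a ∧ S.t4 A w u z c = b) n m := by
  have h := conn3 (w := w) (u := u) hc n m
  induction h with
  | rel a b h =>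
    obtain ⟨c, rfl, rfl⟩ := h
    obtain ⟨e', h1, h2, h3⟩ := hA c.1
    have h2' : S.K.c1 e' = z := h2.trans c.2
    rcases h3 with ⟨k1, k2⟩ | ⟨k1, k2⟩
    · exact Relation.EqvGen.rel _ _ ⟨⟨e', h2', h1⟩, Subtype.ext k1, Subtype.ext k2⟩
    · exact Relation.EqvGen.symm _ _ (Relation.EqvGen.rel _ _
        ⟨⟨e', h2', h1⟩, Subtype.ext k1, Subtype.ext k2⟩)
  | refl a => exact Relation.EqvGen.refl _
  | symm a b _ ih => exact ih.symm
  | trans a b c _ _ i1 i2 => exact i1.trans _ _ _ i2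

/-- ONE CROSSING CORNER IN `A` -/
theorem uqA_of (hA : S.Par A) (hu : S.D.G.Adj w u) (hz : S.Cs w u z) (hc : S.K.LC z)
    (su : S.SUA A z) (th : S.Th1A A z) : S.UqA A w u z := by
  intro e e' hea hea' h1 h1' hx hx'
  have hs : ∀ (g : S.N3 w u z) (c : S.Cn4 A w u z), S.s4 A w u z (g • c) = g • S.s4 A w u z c :=
    fun g c => Subtype.ext (S.K.c0_smul (g : H) c.1)
  have ht : ∀ (g : S.N3 w u z) (c : S.Cn4 A w u z), S.t4 A w u z (g • c) = g • S.t4 A w u z c :=
    fun g c => Subtype.ext (S.K.c2_smul (g : H) c.1)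
  have cr : ∀ (c : S.Cn4 A w u z), S.Xe w u c.1 →
      LCr (S.s4 A w u z) (S.t4 A w u z) (S.pos3 w u z) 0 c := by
    intro c hc'
    have far : ∀ {n : S.Nd3 w u z}, S.J n.1 ⊆ bey S.D.G w u → 0 < S.pos3 w u z n := by
      intro n hn
      have hb := hn (pt3_spec n).2
      have := px_pos hb
      by_cases hp : S.K.ar z n.1
      · rw [pos3_far hp hb]
        omega
      · rw [pos3_page (n.2.resolve_left hp)]
        omega
    have near : ∀ {n : S.Nd3 w u z}, S.J n.1 ⊆ bey S.D.G u w → S.pos3 w u z n ≤ 0 := by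
      intro n hn
      have hb : S.pt3 w u z n ∉ bey S.D.G w u := fun h => bey_not h (hn (pt3_spec n).2)
      have := px_nonpos hb
      by_cases hp : S.K.ar z n.1
      · rw [pos3_near hp hb]
        omega
      · rw [pos3_page (n.2.resolve_left hp)]
        omega
    rcases hc' with ⟨a1, a2⟩ | ⟨a1, a2⟩
    · exact Or.inr ⟨near (n := S.t4 A w u z c) a2, far (n := S.s4 A w u z c) a1⟩
    · exact Or.inl ⟨near (n := S.s4 A w u z c) a2, far (n := S.t4 A w u z c) a1⟩
  obtain ⟨g, hg⟩ := lin_one (N := S.N3 w u z) (s := S.s4 A w u z) (t := S.t4 A w u z)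
    (pos := S.pos3 w u z) hs ht (pos3_smul hu hz) (conn4 hA hc) (by
      intro c c' a b a' b' l1 l2 hl hd
      replace l1 : S.En c.1 a.1 b.1 := LEd_En (LEd4 l1)
      replace l2 : S.En c'.1 a'.1 b'.1 := LEd_En (LEd4 l2)
      replace hl := LLoc4 hl
      by_cases ha : S.K.ar z a.1
      · -- a pole
        have ea := loc_pole hu hz hl ha
        subst ea
        obtain ⟨g, gz, ga, ge⟩ := th a'.1 ha c.1 c'.1 b.1 b'.1 c.2.2 c'.2.2 c.2.1 c'.2.1 l1 l2
        have hr := pt3_spec a'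
        have gr : g • S.pt3 w u z a' = S.pt3 w u z a' := by
          have q1 := S.js.smul g z _ hr.1
          have q2 := S.js.smul g a'.1 _ hr.2
          rw [gz] at q1
          rw [ga] at q2
          exact pt_unique a'.2 q1 q2 hr.1 hr.2
        obtain ⟨t, ht', htz⟩ := ex_nbr hz hu.ne hr.1
        have hgt : S.D.G.Adj (S.pt3 w u z a') (g • t) := by
          have := S.D.adj_smul g _ t ht'
          rwa [gr] at this
        have hgtz : g • t ∈ S.J z := by
          have := S.js.smul g z t htz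
          rwa [gz] at this
        have hgN : g ∈ S.N3 w u z :=
          N3_of hu hz gz hr.1 htz ht' gr (one_pole hr.1 ha hr.2 hgt ht' hgtz htz)
        refine ⟨⟨g, hgN⟩, Subtype.ext ge, ?_⟩
        have h3 := (l1.smul g).two (by rw [← ge]; exact l2)
        rw [ga] at h3
        rcases h3 with ⟨-, e3⟩ | ⟨-, e3⟩
        · exact Subtype.ext e3
        · exfalso
          have : b' = a' := Subtype.ext e3
          subst this
          omega
      · -- a page
        have ha' : S.K.ar a.1 z := a.2.resolve_left ha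
        obtain ⟨p1, p2, p3⟩ := loc_page hu hz hl ha'
        have hr := pt3_spec a
        have hpa := pos3_page (w := w) (u := u) ha'
        have hpa' := pos3_page (w := w) (u := u) p1
        rw [p2] at hpa'
        have hr' : S.pt3 w u z a ∈ S.J a'.1 := by
          rw [← p2]
          exact (pt3_spec a').2
        have hx' : S.ExS z (S.pt3 w u z a) b.1 b'.1 := by
          apply exit_of hu hz hr.1
          rw [hpa, hpa'] at hd
          exact hd
        obtain ⟨g, gz, gr, ge⟩ := su _ hr.1 c.1 c'.1 a.1 b.1 a'.1 b'.1 c.2.2 c'.2.2 c.2.1 c'.2.1 l1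
          l2 ha' p1 hr.2 hr' p3 hx'
        obtain ⟨hgN, hm⟩ := exit_fix hu hz hr.1 gz gr l1
          (by rw [← ge]; exact l2) ha' hr.2 hx'
        exact ⟨⟨g, hgN⟩, Subtype.ext ge, Subtype.ext hm⟩)
    (k := 0) (cr ⟨e, h1, hea⟩ hx) (cr ⟨e', h1', hea'⟩ hx')
  exact ⟨g, g.2.1, g.2.2.1, g.2.2.2, congrArg Subtype.val hg⟩

/-- all corners which cross the edge are one orbit, as triples -/
theorem UqA.uqV (hA : S.Par A) (h : S.UqA A w u z) : S.UqV w u z := by
  intro x v n m h1 hx hv h2 hn hm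
  have bad : ∀ {t : V}, S.J t ⊆ bey S.D.G w u → S.J t ⊆ bey S.D.G u w → False := by
    intro t t1 t2
    obtain ⟨p, hp⟩ := S.js.ne t
    exact bey_not (t1 hp) (t2 hp)
  -- a corner in `A` over a triple
  have ex : ∀ {x v : V}, S.K.Cor x z v → S.J x ⊆ bey S.D.G w u → S.J v ⊆ bey S.D.G u w →
      ∃ e ∈ A, S.K.c1 e = z ∧ S.En e x v ∧ S.Xe w u e := by
    intro x v h1 hx hv
    obtain ⟨e, he⟩ := S.K.cor_LE.1 h1
    have hen : S.En e x v := by
      rcases he with ⟨a, -, b⟩ | ⟨a, -, b⟩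
      · exact Or.inl ⟨a, b⟩
      · exact Or.inr ⟨a, b⟩
    have hc1 : S.K.c1 e = z := he.elim (fun k => k.2.1) (fun k => k.2.1)
    obtain ⟨e', a1, a2, a3⟩ := hA e
    have hen' : S.En e' x v := by
      rcases hen with ⟨b1, b2⟩ | ⟨b1, b2⟩
      · rw [b1, b2] at a3
        exact a3
      · rw [b1, b2] at a3
        exact a3.swap
    refine ⟨e', a1, a2.trans hc1, hen', ?_⟩
    rcases hen' with ⟨b1, b2⟩ | ⟨b1, b2⟩
    · left
      rw [b1, b2]
      exact ⟨hx, hv⟩
    · right
      rw [b1, b2]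
      exact ⟨hx, hv⟩
  obtain ⟨e, e1, e2, e3, e4⟩ := ex h1 hx hv
  obtain ⟨e', e1', e2', e3', e4'⟩ := ex h2 hn hm
  obtain ⟨g, g1, g2, g3, g4⟩ := h e e' e1 e1' e2 e2' e4 e4'
  refine ⟨g, g1, g2, g3, ?_⟩
  have h5 := (e3.smul g).two (by rw [← g4]; exact e3')
  rcases h5 with h5 | h5
  · exact h5
  · exfalso
    have h6 := S.sub_bey_smul g hv
    rw [g2, g3, ← h5.1] at h6
    exact bad hn h6

end

end SyQ

end Pool.Agent.DI
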