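import Pool.Agent.DI.NU
import Pool.Agent.DI.Dup
import Pool.Agent.DI.UqA

/-!
# Tools for the law of the self pieces with duplicate lines

`SyQ.swap_gen`: two reversed local pieces of one piece are one orbit, for every graph on the nodes of the
component. `S.ParW hnb A`: every flag has a flag in `A` with the same walk; `UqA.uqW`, `nuq_of`: from
`S.UqA A w u z` to `S.UqW hnb w u z`, `S.NUq hnb w`.
-/

namespace Pool.Agent.DI

open MulAction
open Pool.Agent.SAF (InC orbs FinOrb oc Conv exists_next TAct dist_edge)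
open Pool.Agent.BT (PX PQ JS bey exits dist_cross)
open Pool.Agent.BT.TA

namespace SyQ

variable {H V : Type} [Group H] [MulAction H V] {S : SyQ H V}

/-- TWO REVERSED LOCAL PIECES OF ONE PIECE ARE ONE ORBIT, any graph on the nodes of the component -/
theorem swap_gen {y n n' : V} (h : S.K.ar n y) (h' : S.K.ar n' y) {Ed' : Type}
    [MulAction ↥(S.LPG.grp (S.lp h)) Ed']
    (N : JM ↥(S.LPG.grp (S.lp h)) ↥(S.LPG.cT (S.lp h)) Ed') [Fintype N.fg.N]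
    {e : N.fg.N → ℕ} (hC : N.SoftC (S.LPG.rQ (S.lp h) S.PLq) e)
    (h0 : N.fg.aftE (N.imN (S.LPG.rQ (S.lp h) S.PLq)) e ≤
      N.fg.exc (N.imN (S.LPG.rQ (S.lp h) S.PLq)))
    {p : S.X} (hp : p ∈ S.J y) (hn : p ∈ S.J n) (hn' : p ∈ S.J n') (hj : S.K.IJ y n n')
    {g g' : H} (l1 : S.LIJ p y n (g • n)) (r1 : S.Rv p y g) (l2 : S.LIJ p y n' (g' • n'))
    (r2 : S.Rv p y g') : ∃ k : H, k • y = y ∧ k • p = p ∧ S.LIJ p y (k • n) n' := by
  obtain ⟨q, hq⟩ := hC.nepl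
  obtain ⟨j, j1, j2, j3⟩ := mv_of h h (Relation.EqvGen.refl _) hp hn l1 r1 q hq
  obtain ⟨j', j1', j2', j3'⟩ := mv_of h h' hj hp hn' l2 r2 q hq
  have hq' : j • q ∈ S.LPG.rQ (S.lp h) S.PLq := SubMulAction.smul_mem _ j hq
  obtain ⟨-, key⟩ := hC.self hq hq' j3.symm rfl
  obtain ⟨-, k1, -⟩ := key h0
  have h2 : ∀ x ∈ S.LPG.rQ (S.lp h) S.PLq, x = q ∨ x = j • q := fun x hx => by
    rcases hC.two x q (j • q) hx hq hq' with k | k | k
    · exact Or.inl k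
    · exact absurd k j3.symm
    · exact Or.inr k
  have mem : ∀ (m : V) (k : S.K.ar m y) (hj : S.K.IJ y n m) (j0 : ↥(S.LPG.grp (S.lp h))),
      j0 • (⟨S.lp k, lp_cT h k hj⟩ : ↥(S.LPG.cT (S.lp h))) = ⟨S.lp k, lp_cT h k hj⟩ →
      j0 • q ≠ q → (oq ↥(S.LPG.grp (S.lp h)) (⟨S.lp k, lp_cT h k hj⟩ : ↥(S.LPG.cT (S.lp h))) :
        N.fg.N) ∈ N.mNf
          (Sw (JM.sgn hq hq' h2 j3.symm)) \ N.imN
            (S.LPG.rQ (S.lp h) S.PLq) := by
    intro m k hj j0 e1 e2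
    refine ⟨⟨_, (JM.Sw_sgn hq hq' h2 j3.symm _).2 ⟨j0, e1, q, hq, e2⟩, rfl⟩, ?_⟩
    intro hk
    exact lp_rQ h k hj ((JM.mem_imN _).1 hk)
  have m1 := mem n h (Relation.EqvGen.refl _) j j2 j3
  have m2 := mem n' h' hj j' j2' j3'
  obtain ⟨s, t⟩ := Nat.card_eq_one_iff_unique.1 k1
  have e1 := s.elim ⟨_, m1⟩ ⟨_, m2⟩
  have e2 := congrArg Subtype.val e1
  obtain ⟨i, hi⟩ := oq_eq.1 e2
  have e3 : S.lp h' = i.1 • S.lp h := congrArg Subtype.val hi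
  rw [lp_smul] at e3
  obtain ⟨f1, f2⟩ := lp_place (S.K.ar_smul i.1 _ _ h) h' e3.symm (S.js.smul i.1 _ _ hp)
    (S.js.smul i.1 _ _ hn)
  have f3 : i.1 • p ∈ S.J y := by
    have := S.js.smul i.1 _ _ hp
    rwa [f1] at this
  have f4 : i.1 • p = p := S.one_eq (Or.inr h') f3 f2 hp hn'
  refine ⟨i.1, f1, f4, ?_⟩
  have har : S.K.ar (i.1 • n) y := by
    have := S.K.ar_smul i.1 _ _ h
    rwa [f1] at this
  have f5 : p ∈ S.J (i.1 • n) := by
    have := S.js.smul i.1 _ _ hn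
    rwa [f4] at this
  rw [← lp_iff har h' hp f5]
  have e4 : S.lp (S.K.ar_smul i.1 _ _ h) = S.lp har := by
    unfold lp
    congr 1
    apply Subtype.ext
    show PN.inn (i.1 • y) (i.1 • n) = PN.inn y (i.1 • n)
    rw [f1]
  rw [← e4]
  exact e3.symm

/-! ### one orbit of crossing corners: walk form -/

/-- every flag has a flag with the same walk in `A` -/
def ParW (S : SyQ H V) (hnb : S.NB) (A : SubMulAction H S.K.LE) : Prop :=
  ∀ f : FL S.K, ∃ f' : FL S.K, f'.1 ∈ A ∧ (S.kfc hnb).Sm f f'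

/-- a crossing flag is a crossing corner -/
theorem xe_flag {hnb : S.NB} {w u : S.X} {f : FL S.K}
    (h1 : S.J ((S.kfc hnb).z f) ⊆ bey S.D.G w u) (h2 : S.J ((S.kfc hnb).x f) ⊆ bey S.D.G u w) :
    S.Xe w u f.1 := by
  obtain ⟨e, b⟩ := f
  cases b
  · unfold kfc at h1 h2
    rw [P45.fc_z'] at h1
    rw [P45.fc_x'] at h2
    exact Or.inl ⟨h1, h2⟩
  · unfold kfc at h1 h2
    rw [P45.fc_z] at h1
    rw [P45.fc_x] at h2
    exact Or.inr ⟨h1, h2⟩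

/-- from the orbit statement for the corners in `A` -/
theorem UqA.uqW {hnb : S.NB} {A : SubMulAction H S.K.LE} (hA : S.ParW hnb A) {w u : S.X} {z : V}
    (h : S.UqA A w u z) : S.UqW hnb w u z := by
  intro f f' a1 b1 a2 a3 b2 b3
  obtain ⟨k, k1, k2⟩ := hA f
  obtain ⟨k', l1, l2⟩ := hA f'
  have c1 : S.J ((S.kfc hnb).z k) ⊆ bey S.D.G w u := by rw [← k2.zz]; exact a2
  have c2 : S.J ((S.kfc hnb).x k) ⊆ bey S.D.G u w := by rw [← k2.xx]; exact a3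
  have d1 : S.J ((S.kfc hnb).z k') ⊆ bey S.D.G w u := by rw [← l2.zz]; exact b2
  have d2 : S.J ((S.kfc hnb).x k') ⊆ bey S.D.G u w := by rw [← l2.xx]; exact b3
  have cy : S.K.c1 k.1 = z := (k2.yy.symm.trans a1 : (S.kfc hnb).y k = z)
  have dy : S.K.c1 k'.1 = z := (l2.yy.symm.trans b1 : (S.kfc hnb).y k' = z)
  obtain ⟨g, g1, g2, g3, g4⟩ := h k.1 k'.1 k1 l1 cy dy (xe_flag c1 c2) (xe_flag d1 d2)
  refine ⟨g, g1, g2, g3, ?_⟩
  have hfst : (g • k).1 = k'.1 := g4.symm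
  by_cases hb : k.2 = k'.2
  · have e1 : g • k = k' := Prod.ext hfst hb
    refine (k2.smul g).trans' ?_
    rw [e1]
    exact l2.symm'
  · exfalso
    have e1 : k' = (S.kfc hnb).v (g • k) := by
      refine Prod.ext hfst.symm ?_
      show k'.2 = !k.2
      revert hb
      cases k.2 <;> cases k'.2 <;> decide
    rw [e1, FC.zv, FC.x_smul] at d1
    obtain ⟨q, hq⟩ := S.js.ne ((S.kfc hnb).x k)
    have m1 := d1 (S.js.smul g _ _ hq)
    have m2 := S.bey_smul g (c2 hq)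
    rw [g3, g2] at m2
    exact bey_not m1 m2

theorem nuq_of {hnb : S.NB} {A : SubMulAction H S.K.LE} (hA : S.ParW hnb A) {w : S.X}
    (h : ∀ x n g, S.SL w x n g → ¬ (S.kfc hnb).Fat x → ∀ u, S.D.G.Adj w u → u ∈ S.J x →
      g • u ≠ u → S.UqA A w u x) : S.NUq hnb w :=
  fun x n g h1 h2 u h3 h4 h5 => (h x n g h1 h2 u h3 h4 h5).uqW hA

/-! ### strands -/

/-- every piece has a strand, if the links of the softs are connected -/
theorem nraw_lc {hnb : S.NB} (hl : ∀ y, (∃ a, S.K.ar y a) → S.K.LC y) (y n a : V)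
    (hn : S.K.ar n y) (ha : S.K.ar y a) : ∃ e ∈ (S.kfc hnb).strs,
      (S.kfc hnb).y e = y ∧ S.K.IJ y n ((S.kfc hnb).x e) := by
  obtain ⟨b, n', h1, h2, h3, h4⟩ := GX.exists_pol (hl y ⟨a, ha⟩) ⟨a, ha⟩ hn
  obtain ⟨f, f1, f2, f3⟩ := (S.P.fc_Co (S.P.nd_nb hnb)).2 h4.symm
  have f1 : (S.kfc hnb).x f = n' := f1
  have f2 : (S.kfc hnb).y f = y := f2
  have f3 : (S.kfc hnb).z f = b := f3
  refine ⟨f, ⟨?_, ?_⟩, f2, ?_⟩
  · rw [f1, f2]
    exact h3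
  · rw [f2, f3]
    exact h1
  · rw [f1]
    exact h2

end SyQ

end Pool.Agent.DI
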