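import Pool.Agent.DI.SgE5
import Pool.Agent.DI.GXCut

/-!
# DI/SgEq1: at constant sigma every near star carries one far strand

`SgH.sum0_Dm`: nothing is paid to a diamond arrow. With `cor2` (a top over a gamma top, with a pole of it as
partner, has `X ≤ 1` in the folded slice): `SgH.ck_le`: `c k ≤ 1` at every near star arrow `k`; `SgH.nearE`: the sum of the `X - 1` of the
counted arrows carried by `k` is `X' k - 1`; `SgH.thinG`: over a gamma hub everything has `X = 1`;
`SgH.locE`: a local top keeps its `X`.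
-/

namespace Pool.Agent.DI

open MulAction
open Pool.Agent.SAF (InC orbs FinOrb oc Decomp SAn SA Conv hull dist_edge FinOrb_iff exists_next
  mk_eq_iff)
open Pool.Agent.BT (PX PQ JS bey exits lz lz_self lz_ne lz_symm x_next_unique)
open Pool.Agent.BT.TA

/-- a sum of zeros -/
theorem os_zero' {G W : Type} [Group G] [MulAction G W] {A : Set W} (h : FinOrb G A) {X : W → ℕ}
    (hX : ∀ p ∈ A, X p = 0) : os G A X = 0 := by
  rw [os_eq h]
  exact Finset.sum_eq_zero fun q hq => hX _ (rp_mem G (h.mem_toFinset.1 hq))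

namespace SyQ

variable {H V : Type} [Group H] [MulAction H V] {S : SyQ H V}
  {hc : S.Conn} {w : S.X} {O : S.OR w} {hm : (S.k0 hc w).Min} {hn : S.SqN w O}
  {E : V → Prop} {c : S.Q w O × S.Q w O → ℕ}

/-- the numbers `c` are at most one if the sum vanishes -/
theorem SgH.le_of_sum0 (h : S.SgH hc w O hm hn E c) {k : S.Q w O × S.Q w O}
    (h0 : os ↥(stabilizer ↥(stabilizer H w) k) {l | S.QN w O k l} (fun l => c l - 1) = 0)
    {l : S.Q w O × S.Q w O} (hl : S.QN w O k l) : c l ≤ 1 := by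
  have h7 := le_os (QN.fin h.o hc hm hn k) (X := fun l => c l - 1)
    (fun g m _ _ => by
      show c (g.1 • m) - 1 = _
      rw [h.ci]) (p := l) hl
  omega

theorem SgH.sum0_of_le (h : S.SgH hc w O hm hn E c) {k : S.Q w O × S.Q w O}
    (h0 : ∀ l, S.QN w O k l → c l ≤ 1) :
    os ↥(stabilizer ↥(stabilizer H w) k) {l | S.QN w O k l} (fun l => c l - 1) = 0 := by
  refine os_zero' (QN.fin h.o hc hm hn k) fun l hl => ?_
  have := h0 l hl
  omega

/-- a diamond arrow of the folded slice is no near star arrow -/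
theorem SgO.Dm_NA (h : S.SgO w O E) {k : S.Q w O × S.Q w O}
    (hk : k ∈ (S.kfP hc w O hm hn).Dm) : ¬ S.NA w O k := by
  rintro ⟨q, hq⟩
  exact kf_U_Dm h k (hq.mem h.nf) hk

section Eq

variable (h : S.SgH hc w O hm hn E c) (hs : (S.kfP hc w O hm hn).sigma ≤ S.P.sigma)

include h hs

/-- NOTHING IS PAID TO A DIAMOND ARROW -/
theorem SgH.sum0_Dm {k : S.Q w O × S.Q w O} (hk : k ∈ (S.kfP hc w O hm hn).Dm) :
    os ↥(stabilizer ↥(stabilizer H w) k) {l | S.QN w O k l} (fun l => c l - 1) = 0 := by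
  have hN := h.o.Dm_NA hk
  by_cases hC : ∃ p, S.Ca w O p k
  · obtain ⟨⟨T, a⟩, hp⟩ := hC
    obtain ⟨b, y, ht, e, hT, ha, hb, rfl⟩ := Ca.loc h.o hp hN
    rcases hp.1 with hU | hD
    · have hnU : (S.fq w O (S.rho w T), S.fq w O (S.rho w a)) ∉ (S.kfP hc w O hm hn).U :=
        fun k => kf_U_Dm h.o _ k hk
      have hp4 := Ca.val h.o ht hp hT hb hU hnU
      have h4 := h.loc4 hs hp4
      have h1 := h.eqn hs (Or.inr hk)
      rw [os_single (G := ↥(stabilizer ↥(stabilizer H w)
        (S.fq w O (S.rho w T), S.fq w O (S.rho w a))))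
        (A := {p | S.Ca w O p (S.fq w O (S.rho w T), S.fq w O (S.rho w a))}) (p := (T, a)) hp
        (Ca.one h.o hp hN), P45.val_U hU] at h1
      have h3 := chr_ge h.o h.ci (Or.inr hk)
      have h6 : pay hc hm hn c (S.fq w O (S.rho w T), S.fq w O (S.rho w a)) = 0 := by
        refine pay_zero hN ?_
        rintro ⟨T', a'⟩ hp4'
        obtain ⟨hU', b', y', ht', e1, e2, hT', ha', hb', e3⟩ := hp4'.data h.o
        have f1 := congrArg Prod.fst e3
        have f2 := congrArg Prod.snd e3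
        dsimp only at f1 f2
        obtain rfl := h.o.alone (Or.inl hU') ht' hT' ha' hb' hT f1
        rcases h.o.sq.sides ht' ht.2.1 with rfl | rfl
        · exact absurd f2 (h.o.nab _ _ _ _ ht' (Or.inl hU') hT' ha' hb')
        · obtain ⟨rfl, rfl⟩ := h.o.sq.uniq ht ht'.symm' (h.o.nE hp.1)
          exact GX.ck_asym e e2
      have h7 := h4.1
      dsimp only at h1 h7
      omega
    · exact h.sum0_of_le (h.locD hs hp hN hD).2
  · push Not at hC
    by_cases h4 : ∃ p, S.P4 hc hm hn p k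
    · obtain ⟨⟨T, a⟩, hp⟩ := h4
      have h5 := h.loc4 hs hp
      have h1 := h.eqn hs (Or.inr hk)
      rw [os_none (G := ↥(stabilizer ↥(stabilizer H w) k)) (A := {p | S.Ca w O p k})
        (fun p hp => hC p hp), pay_P4 h.o hp] at h1
      have h3 := chr_ge h.o h.ci (Or.inr hk)
      have h7 := h5.1
      dsimp only at h1 h7
      omega
    · push Not at h4
      exact (h.zero hs (Or.inr hk) hC hN h4).2.2

variable (cor2 : ∀ T a b y z, (S.kfP hc w O hm hn).Top T a b y → (S.kf hc w O).ar a y →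
  (a, z) ∈ (S.kfP hc w O hm hn).U → (S.kfP hc w O hm hn).X T a ≤ 1)

include cor2

/-- OVER A GAMMA HUB everything is thin -/
theorem SgH.thinG {u : S.X} {q z x : V} (hk : S.KN w O u q z x)
    (hq : (S.fq w O (S.rho w q), S.fq w O (S.rho w z)) ∈ (S.kfP hc w O hm hn).U) :
    (S.kfP hc w O hm hn).X (S.fq w O (S.rho w x)) (S.fq w O (S.rho w q)) = 1 ∧
    c (S.fq w O (S.rho w x), S.fq w O (S.rho w q)) ≤ 1 ∧
    ∀ p, S.Ca w O p (S.fq w O (S.rho w x), S.fq w O (S.rho w q)) → S.P.X p.1 p.2 = 1 := by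
  obtain ⟨N, hN⟩ := (S.kf hc w O).rk_bdd
  obtain ⟨n, hn'⟩ : ∃ n, N - (S.kf hc w O).rk (S.fq w O (S.rho w x)) = n := ⟨_, rfl⟩
  induction n using Nat.strong_induction_on generalizing u q z x with
  | _ n ih =>
    have hU := hk.U (hc := hc) (hm := hm) (hn := hn) h.o.nf
    have h1 := cor2 _ _ _ _ _ (hk.Top (hc := hc) (hm := hm) (hn := hn) h.o.nf)
      (hk.arrows h.o.nf).2.2.1 hq
    have h2 := h.x1' _ (Or.inl hU)
    dsimp only at h2
    have hX : (S.kfP hc w O hm hn).X (S.fq w O (S.rho w x)) (S.fq w O (S.rho w q)) = 1 := by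
      omega
    have h0 : os ↥(stabilizer ↥(stabilizer H w) (S.fq w O (S.rho w x), S.fq w O (S.rho w q)))
        {k | S.QN w O (S.fq w O (S.rho w x), S.fq w O (S.rho w q)) k} (fun k => c k - 1) = 0 := by
      refine h.sum0_of_le ?_
      rintro l ⟨u', q', z', n', hk', e, rfl⟩
      have e1 := congrArg Prod.fst e
      have e2 := congrArg Prod.snd e
      dsimp only at e1 e2
      have ha := (hk'.arrows h.o.nf).1
      have hr := arQ_rk ha
      have hr' : (S.kf hc w O).rk (S.fq w O (S.rho w x)) <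
          (S.kf hc w O).rk (S.fq w O (S.rho w n')) := by
        rw [e1]
        exact hr
      have hb := hN (S.fq w O (S.rho w n'))
      refine (ih _ (by omega) hk' ?_ rfl).2.1
      rw [← e1, ← e2]
      exact hU
    have h3 := (h.near hs hk).1
    rw [h0, hX] at h3
    refine ⟨hX, by omega, ?_⟩
    intro p hp
    have h4 := le_os (Ca.fin h.o (S.fq w O (S.rho w x), S.fq w O (S.rho w q)))
      (X := fun p => S.P.X p.1 p.2 - 1) (fun g p _ _ => by
        have : S.P.X (g.1.1 • p).1 (g.1.1 • p).2 = S.P.X p.1 p.2 := P45.X_smul g.1.1 p.1 p.2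
        show S.P.X (g.1.1 • p).1 (g.1.1 • p).2 - 1 = _
        rw [this]) (p := p) hp
    have h5 := h.x1 p hp.1
    omega

/-- AT CONSTANT SIGMA THERE IS AT MOST ONE FAR STRAND -/
theorem SgH.ck_le {u : S.X} {q z x : V} (hk : S.KN w O u q z x) :
    c (S.fq w O (S.rho w x), S.fq w O (S.rho w q)) ≤ 1 := by
  by_cases h1 : (S.fq w O (S.rho w q), S.fq w O (S.rho w z)) ∈ (S.kfP hc w O hm hn).CA
  · rcases h1 with h1 | h1
    · exact (h.thinG hs cor2 hk h1).2.1
    · exact h.le_of_sum0 (h.sum0_Dm hs h1) ⟨u, q, z, x, hk, rfl, rfl⟩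
  · exact h.unch hs hk h1

theorem SgH.qn_le {k l : S.Q w O × S.Q w O} (hl : S.QN w O k l) : c l ≤ 1 := by
  obtain ⟨u, q, z, n, hk, rfl, rfl⟩ := hl
  exact h.ck_le hs cor2 hk

theorem SgH.sum0 (k : S.Q w O × S.Q w O) :
    os ↥(stabilizer ↥(stabilizer H w) k) {l | S.QN w O k l} (fun l => c l - 1) = 0 :=
  h.sum0_of_le fun _ hl => h.qn_le hs cor2 hl

/-- THE NEAR STARS: the fat arrows are added -/
theorem SgH.nearE {u : S.X} {q z x : V} (hk : S.KN w O u q z x) :
    os ↥(stabilizer ↥(stabilizer H w) (S.fq w O (S.rho w x), S.fq w O (S.rho w q)))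
        {p | S.Ca w O p (S.fq w O (S.rho w x), S.fq w O (S.rho w q))}
        (fun p => S.P.X p.1 p.2 - 1) =
    (S.kfP hc w O hm hn).X (S.fq w O (S.rho w x)) (S.fq w O (S.rho w q)) - 1 := by
  have h1 := (h.near hs hk).1
  have h2 := h.ck_le hs cor2 hk
  have h3 := h.sum0 hs cor2 (S.fq w O (S.rho w x), S.fq w O (S.rho w q))
  omega

/-- LOCAL TOPS keep their `X` -/
theorem SgH.locE {T a : V}
    (hk : S.Ca w O (T, a) (S.fq w O (S.rho w T), S.fq w O (S.rho w a)))
    (hN : ¬ S.NA w O (S.fq w O (S.rho w T), S.fq w O (S.rho w a))) :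
    S.P.X T a = (S.kfP hc w O hm hn).X (S.fq w O (S.rho w T)) (S.fq w O (S.rho w a)) := by
  rcases hk.1 with hU | hD
  · by_cases hU' : (S.fq w O (S.rho w T), S.fq w O (S.rho w a)) ∈ (S.kfP hc w O hm hn).U
    · rw [h.locU hs hk hN hU hU', h.sum0 hs cor2]
      rfl
    · obtain ⟨b, y, ht, e, hT, ha, hb, -⟩ := Ca.loc h.o hk hN
      have hp4 := Ca.val h.o ht hk hT hb hU hU'
      have h4 := h.loc4 hs hp4
      have h1 := h.eqn hs (Ca.mem h.o hk)
      rw [os_single (G := ↥(stabilizer ↥(stabilizer H w)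
        (S.fq w O (S.rho w T), S.fq w O (S.rho w a))))
        (A := {p | S.Ca w O p (S.fq w O (S.rho w T), S.fq w O (S.rho w a))}) (p := (T, a)) hk
        (Ca.one h.o hk hN), P45.val_U hU] at h1
      have h5 := P45.le_val (P := S.kfP hc w O hm hn)
        (S.fq w O (S.rho w T), S.fq w O (S.rho w a))
      have h6 := h.x1' _ (Ca.mem (hc := hc) (hm := hm) (hn := hn) h.o hk)
      have h7 : pay hc hm hn c (S.fq w O (S.rho w T), S.fq w O (S.rho w a)) = 0 := by
        refine pay_zero hN ?_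
        rintro ⟨T', a'⟩ hp4'
        obtain ⟨hU', b', y', ht', e1, e2, hT', ha', hb', e3⟩ := hp4'.data h.o
        have f1 := congrArg Prod.fst e3
        have f2 := congrArg Prod.snd e3
        dsimp only at f1 f2
        obtain rfl := h.o.alone (Or.inl hU') ht' hT' ha' hb' hT f1
        rcases h.o.sq.sides ht' ht.2.1 with rfl | rfl
        · exact absurd f2 (h.o.nab _ _ _ _ ht' (Or.inl hU') hT' ha' hb')
        · obtain ⟨rfl, rfl⟩ := h.o.sq.uniq ht ht'.symm' (h.o.nE hk.1)
          exact GX.ck_asym e e2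
      have h8 := h4.1
      dsimp only at h1 h5 h6 h8
      omega
  · exact (h.locD hs hk hN hD).1

end Eq

end SyQ

end Pool.Agent.DI
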