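import Pool.Agent.DI.NsQ
import Pool.Agent.DI.SgEq1

/-!
# DI/NplG: no parallel squares in the folded slice at constant sigma

`SgH.fl_of`: no element which fixes a top exchanges its sides if the top is in case 1 (thin tops are not in
case 1, diamond tops in case 1 are thin). `Rz.npl_of`: the folded slice has no two parallel listed squares,
`Rz.sqT_of`: it is in the static class.
-/

namespace Pool.Agent.DI

open MulAction
open Pool.Agent.SAF (InC orbs FinOrb oc Decomp SAn SA Conv hull dist_edge FinOrb_iff exists_next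
  mk_eq_iff)
open Pool.Agent.BT (PX PQ JS bey exits lz lz_self lz_ne lz_symm x_next_unique)
open Pool.Agent.BT.TA

namespace SyQ

variable {H V : Type} [Group H] [MulAction H V] {S : SyQ H V}
  {hc : S.Conn} {w : S.X} {O : S.OR w} {hm : (S.k0 hc w).Min} {hn : S.SqN w O}
  {E : V → Prop} {c : S.Q w O × S.Q w O → ℕ}

/-- NO FLIP OF A TOP IN CASE 1 -/
theorem SgH.fl_of (h : S.SgH hc w O hm hn E c)
    (hs : (S.kfP hc w O hm hn).sigma ≤ S.P.sigma)
    (stay : ∀ T a b y p q, S.P.Top T a b y → ¬ E T → S.P.X T a ≤ 1 → ¬ S.Cas1 T a b y p q)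
    (T a b y : V) (g : H) (ht : S.P.Top T a b y) (ay : S.K.ar a y) (hT : w ∈ S.J T)
    (ha : w ∈ S.J a) (hb : w ∉ S.J b) (hg : g • T = T) : g • a ≠ b := by
  intro e
  have hE : ¬ E T := fun k => GX.ck_asym ay (h.o.sq.Ea _ _ _ _ ht k)
  have hy : g • y = y := h.o.sq.fix ht hE hg
  have by' : S.K.ar b y := by
    have := S.K.ar_smul g _ _ ay
    rwa [e, hy] at this
  rcases ht.pos4 with ⟨p, q, l⟩ | ⟨p, q, l⟩ | ⟨p, l⟩
  · have h1 := h.e5D hs ht ⟨b, y, ht, ay, by'⟩ l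
    exact stay _ _ _ _ _ _ ht hE h1.le l
  · obtain rfl : p = w := S.one_eq (Or.inl ht.2.1) l.p1 l.p0 hT ha
    exact hb l.p2
  · obtain rfl : p = w := S.one_eq (Or.inl ht.2.1) l.p1 l.p0 hT ha
    exact hb l.p2

/-- AT CONSTANT SIGMA THE FOLDED SLICE IS IN THE STATIC CLASS -/
theorem Rz.sqT_of (r : S.Rz w O E)
    (eb : ∀ T a b y, S.P.Top T a b y → E T → ¬ S.P.Bare T → ¬ S.P.Bare y → ∀ g : H, g • T ≠ y)
    (h : S.SgH hc w O hm hn E (S.ck w O)) (hs : (S.kfP hc w O hm hn).sigma ≤ S.P.sigma)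
    (cor2 : ∀ T a b y z, (S.kfP hc w O hm hn).Top T a b y → (S.kf hc w O).ar a y →
      (a, z) ∈ (S.kfP hc w O hm hn).U → (S.kfP hc w O hm hn).X T a ≤ 1)
    (stay : ∀ T a b y p q, S.P.Top T a b y → ¬ E T → S.P.X T a ≤ 1 → ¬ S.Cas1 T a b y p q) :
    (S.kfP hc w O hm hn).SqT :=
  r.kf_sqT eb (h.fl_of hs stay) fun _ _ _ _ hk => h.ck_le hs cor2 hk

/-- NO PARALLEL LISTED SQUARES -/
theorem Rz.npl_of (r : S.Rz w O E)
    (eb : ∀ T a b y, S.P.Top T a b y → E T → ¬ S.P.Bare T → ¬ S.P.Bare y → ∀ g : H, g • T ≠ y)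
    (h : S.SgH hc w O hm hn E (S.ck w O)) (hs : (S.kfP hc w O hm hn).sigma ≤ S.P.sigma)
    (cor2 : ∀ T a b y z, (S.kfP hc w O hm hn).Top T a b y → (S.kf hc w O).ar a y →
      (a, z) ∈ (S.kfP hc w O hm hn).U → (S.kfP hc w O hm hn).X T a ≤ 1)
    (stay : ∀ T a b y p q, S.P.Top T a b y → ¬ E T → S.P.X T a ≤ 1 → ¬ S.Cas1 T a b y p q) :
    (S.kfP hc w O hm hn).NoPl :=
  P45.SqE.noPl (r.sqT_of eb h hs cor2 stay)

end SyQ

end Pool.Agent.DI
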