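import Pool.Agent.DI.Ph6

/-!
# The number `phi_0` does not go down

`S.PhH w O`: the hypotheses. `S.PhL w y a`: the arrow `y → a` of `K.ThA` has the level `w`. `PhH.level`: every
arrow of `K.ThA` has a translate with level `w`. `PhL.img`: the image of such an arrow and the key claim.
`PhH.phA_le`: `phi_0` does not go down.
-/

namespace Pool.Agent.DI

open MulAction
open Pool.Agent.SAF (InC orbs FinOrb oc Decomp SAn SA Conv hull dist_edge FinOrb_iff exists_next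
  oc_le_of_rel)
open Pool.Agent.BT (PX PQ JS bey exits x_next_unique)
open Pool.Agent.BT.TA

namespace SyQ

variable {H V : Type} [Group H] [MulAction H V] (S : SyQ H V)

/-- the level of a thin direct arrow is `w` -/
def PhL (w : S.X) (y a : V) : Prop :=
  (∃ b c d, S.PhP y a b c d ∧ S.IsC ![y, a, b, c, d] w) ∨
    ∃ b d, S.PhQ y a b d ∧ w ∈ S.J y ∧ w ∈ S.J d

/-- THE HYPOTHESES -/
structure PhH (w : S.X) (O : S.OR w) : Prop where
  /-- no one-sided local pieces -/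
  ts : S.PTSA
  /-- no broken sink is reversed -/
  d0 : S.PD0
  /-- broken sinks are lines -/
  ln : S.PLine
  /-- the open stars -/
  op : S.POp w O
  ot : S.OTS w O
  nd : S.P.ND
  /-- every listed square has a top -/
  ht : ∀ i, S.P.sq i → ∃ j, S.P.tp i j
  /-- a thin direct arrow is no arrow of a top -/
  nt : ∀ y a b d, S.P.Top y a d b → (y, a) ∉ S.K.ThA
  wm : S.WMin w
  /-- the wall is of Z type -/
  hz : S.NoDt w
  tog : ∀ x a, S.K.ar x a → Infinite ↥(stabilizer H ((x, a) : V × V)) → S.Tog x a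
  /-- the places in the squares are in the orbit of `w` -/
  pl : ∀ a q b y, Q4 S.P a q b y → ∀ p, p ∈ S.J a → p ∈ S.J q → ∃ g : H, g • w = p

variable {S}

/-- the centre of a pentagon is in the orbit of `w` -/
theorem qn_level {w : S.X} (hc : S.Conn) (hw : S.WMin w) {y a b c d : V}
    (h : Qn S.P y a b c d) : ∃ g : H, S.IsC ![y, a, b, c, d] (g • w) := by
  obtain ⟨g, i, j, hi, h⟩ := h
  obtain ⟨k, hk⟩ := isC_of hc hw g hi
  refine ⟨k, ?_⟩
  have key : ∀ m : Fin 5, k • w ∈ S.J (g • S.P.pt i m) ∨ k • w ∈ S.J (g • S.P.pt i (m + 1)) := hk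
  have e1 : ∀ j : Fin 5, j + 1 + 1 = j + 2 := by decide
  have e2 : ∀ j : Fin 5, j + 2 + 1 = j + 3 := by decide
  have e3 : ∀ j : Fin 5, j + 3 + 1 = j + 4 := by decide
  have e4 : ∀ j : Fin 5, j + 4 + 1 = j := by decide
  have k0 := key j
  have k1 := key (j + 1)
  have k2 := key (j + 2)
  have k3 := key (j + 3)
  have k4 := key (j + 4)
  rw [e1] at k1
  rw [e2] at k2
  rw [e3] at k3
  rw [e4] at k4
  rcases h with ⟨rfl, rfl, rfl, rfl, rfl⟩ | ⟨rfl, rfl, rfl, rfl, rfl⟩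
  · intro m
    fin_cases m
    · exact k0
    · exact k1
    · exact k2
    · exact k3
    · exact k4
  · intro m
    fin_cases m
    · exact k1.symm
    · exact k0.symm
    · exact k4.symm
    · exact k3.symm
    · exact k2.symm

theorem ph_isC_smul (g : H) {y a b c d : V} {p : S.X} (h : S.IsC ![y, a, b, c, d] p) :
    S.IsC ![g • y, g • a, g • b, g • c, g • d] (g • p) := by
  have h0 : p ∈ S.J y ∨ p ∈ S.J a := h 0
  have h1 : p ∈ S.J a ∨ p ∈ S.J b := h 1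
  have h2 : p ∈ S.J b ∨ p ∈ S.J c := h 2
  have h3 : p ∈ S.J c ∨ p ∈ S.J d := h 3
  have h4 : p ∈ S.J d ∨ p ∈ S.J y := h 4
  have key : ∀ x, p ∈ S.J x → g • p ∈ S.J (g • x) := fun x k => S.js.smul g _ _ k
  intro m
  fin_cases m
  · exact h0.imp (key _) (key _)
  · exact h1.imp (key _) (key _)
  · exact h2.imp (key _) (key _)
  · exact h3.imp (key _) (key _)
  · exact h4.imp (key _) (key _)

theorem PhP.smul {y a b c d : V} (h : S.PhP y a b c d) (g : H) :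
    S.PhP (g • y) (g • a) (g • b) (g • c) (g • d) where
  ar := S.K.ar_smul g _ _ h.ar
  q := h.q.smul g
  th b' c' d' k := by
    have k' := k.smul g⁻¹
    rw [inv_smul_smul, inv_smul_smul] at k'
    obtain ⟨l, l1, l2, l3, l4, l5⟩ := h.th _ _ _ k'
    refine ⟨g * l * g⁻¹, ?_, ?_, ?_, ?_, ?_⟩
    · rw [mul_smul, mul_smul, inv_smul_smul, l1]
    · rw [mul_smul, mul_smul, inv_smul_smul, l2]
    · rw [mul_smul, mul_smul, inv_smul_smul, l3, smul_inv_smul]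
    · rw [mul_smul, mul_smul, inv_smul_smul, l4, smul_inv_smul]
    · rw [mul_smul, mul_smul, inv_smul_smul, l5, smul_inv_smul]
  no4 b' c' k := by
    have k' := k.smul g⁻¹
    rw [inv_smul_smul, inv_smul_smul] at k'
    exact h.no4 _ _ k'
  dr := h.dr.smul g

theorem PhQ.smul {y a b d : V} (h : S.PhQ y a b d) (g : H) :
    S.PhQ (g • y) (g • a) (g • b) (g • d) where
  ar := S.K.ar_smul g _ _ h.ar
  q := h.q.smul g
  th b' d' k := by
    have k' := k.smul g⁻¹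
    rw [inv_smul_smul, inv_smul_smul] at k'
    obtain ⟨l, l1, l2, l3, l4⟩ := h.th _ _ k'
    refine ⟨g * l * g⁻¹, ?_, ?_, ?_, ?_⟩
    · rw [mul_smul, mul_smul, inv_smul_smul, l1]
    · rw [mul_smul, mul_smul, inv_smul_smul, l2]
    · rw [mul_smul, mul_smul, inv_smul_smul, l3, smul_inv_smul]
    · rw [mul_smul, mul_smul, inv_smul_smul, l4, smul_inv_smul]
  no5 b' c' d' k := by
    have k' := k.smul g⁻¹
    rw [inv_smul_smul, inv_smul_smul] at k'
    exact h.no5 _ _ _ k'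
  dr := h.dr.smul g
  dy := S.K.ar_smul g _ _ h.dy

/-- THE LEVEL -/
theorem PhH.level {w : S.X} {O : S.OR w} (h : S.PhH w O) (hc : S.Conn) {y a : V}
    (hp : (y, a) ∈ S.K.ThA) : ∃ g : H, S.PhL w (g • y) (g • a) := by
  rcases thA_ph hp with ⟨b, c, d, A⟩ | ⟨b, d, k1, k2, k3⟩
  · obtain ⟨g, hg⟩ := qn_level hc h.wm A.q
    refine ⟨g⁻¹, Or.inl ⟨_, _, _, A.smul g⁻¹, ?_⟩⟩
    have := ph_isC_smul g⁻¹ hg
    rwa [inv_smul_smul] at this
  · have dy : S.K.ar d y := by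
      rcases k1.E4 with e | e
      · exact e
      · exact absurd hp (h.nt y a b d ⟨k1.rot.rot.rot.symm, hp.1, e⟩)
    have A : S.PhQ y a b d := ⟨hp.1, k1, k2, k3, hp.2.1.1, dy⟩
    obtain ⟨p, p0, p1⟩ := S.one_ex k1.E4
    obtain ⟨g, hg⟩ := h.pl _ _ _ _ k1.rot.rot.rot p p0 p1
    refine ⟨g⁻¹, Or.inr ⟨_, _, A.smul g⁻¹, ?_, ?_⟩⟩
    · have := S.js.smul g⁻¹ _ _ p1
      rwa [← hg, inv_smul_smul] at this
    · have := S.js.smul g⁻¹ _ _ p0
      rwa [← hg, inv_smul_smul] at this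

/-- THE IMAGE of a thin direct arrow with level `w`, THE KEY CLAIM -/
theorem PhL.img {w : S.X} {O : S.OR w} (h : S.PhH w O) {hc : S.Conn} {hm : (S.k0 hc w).Min}
    {hn : S.SqN w O} (hk : KX1 hm hn) {y a : V} (hp : (y, a) ∈ S.K.ThA) (hL : S.PhL w y a) :
    (S.fq w O (S.rho w y), S.fq w O (S.rho w a)) ∈ (S.kf hc w O).ThA ∧
    ∀ p p', S.K.E p p' → S.fq w O (S.rho w p) = S.fq w O (S.rho w y) →
      S.fq w O (S.rho w p') = S.fq w O (S.rho w a) → p = y ∧ p' = a := by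
  rcases hL with ⟨b, c, d, A, hI⟩ | ⟨b, d, A, wy, wd⟩
  · obtain ⟨v, hx, hv, hr, hi⟩ := A.img hk h.hz h.tog h.op h.ts h.d0 h.ln hp hI
    refine ⟨hi, fun p p' e h1 h2 => ?_⟩
    exact (A.av h.ts h.d0 h.ln O hI).key h.op.n2 h.ts hx hv hr e h1 h2
  · obtain ⟨v, hx, hv, hr, hi⟩ := A.img hk h.hz h.tog h.op h.ot h.nd h.ht h.ts h.d0 h.ln hp wy wd
    refine ⟨hi, fun p p' e h1 h2 => ?_⟩
    exact (A.av h.ht h.ts h.d0 h.ln h.ot wy wd).key h.op.n2 h.ts hx hv hr e h1 h2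

/-- THE NUMBER `phi_0` DOES NOT GO DOWN -/
theorem PhH.phA_le {w : S.X} {O : S.OR w} (h : S.PhH w O) {hc : S.Conn} {hm : (S.k0 hc w).Min}
    {hn : S.SqN w O} (hk : KX1 hm hn) (hf : FinOrb ↥(stabilizer H w) (S.kf hc w O).ThA) :
    S.K.phA ≤ (S.kf hc w O).phA := by
  refine oc_le_of_rel hf (fun p p' => ∃ g : H, S.PhL w (g • p.1) (g • p.2) ∧
    p' = (S.fq w O (S.rho w (g • p.1)), S.fq w O (S.rho w (g • p.2)))) ?_ ?_
  · rintro ⟨y, a⟩ hp
    obtain ⟨g, hg⟩ := h.level hc hp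
    exact ⟨_, (hg.img h hk (ThA_smul g hp)).1, g, hg, rfl⟩
  · rintro ⟨y, a⟩ hp ⟨y', a'⟩ hp' _ _ _ _ ⟨g, hg, rfl⟩ ⟨g', hg', rfl⟩ ⟨l, hl⟩
    have hl1 : S.fq w O (S.rho w ((l.1 * g) • y)) = S.fq w O (S.rho w (g' • y')) := by
      rw [mul_smul, S.rho_smul, fq_smul]
      exact congrArg Prod.fst hl
    have hl2 : S.fq w O (S.rho w ((l.1 * g) • a)) = S.fq w O (S.rho w (g' • a')) := by
      rw [mul_smul, S.rho_smul, fq_smul]
      exact congrArg Prod.snd hl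
    obtain ⟨e1, e2⟩ := (hg'.img h hk (ThA_smul g' hp')).2 _ _
      (Or.inl (S.K.ar_smul _ _ _ hp.1)) hl1 hl2
    refine ⟨g'⁻¹ * (l.1 * g), Prod.ext ?_ ?_⟩
    · show (g'⁻¹ * (l.1 * g)) • y = y'
      rw [mul_smul, e1, inv_smul_smul]
    · show (g'⁻¹ * (l.1 * g)) • a = a'
      rw [mul_smul, e2, inv_smul_smul]

end SyQ

end Pool.Agent.DI
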