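import Pool.Agent.DI.Ph9
import Pool.Agent.DI.D0Q
import Pool.Agent.DI.LineQ
import Pool.Agent.DI.P4V
import Pool.Agent.DI.TSd
import Pool.Agent.DI.Main0
import Pool.Agent.DI.HrE

/-!
# The law of `phi_0` of a passive step at a wall of `Z` type

`Psv.phG`: the hypotheses of the strict part from a step. `Psv.phi_law`: `phi_0` does not go down, and if it is
constant then every sink of `Z` type sits at a translate of `w`.
-/

namespace Pool.Agent.DI

open MulAction
open Pool.Agent.SAF (InC orbs FinOrb oc Decomp SAn SA Conv hull dist_edge FinOrb_iff exists_next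
  oc_le_of_rel orbs_mono mk_eq_iff TAct)
open Pool.Agent.SAG (IO Zt)
open Pool.Agent.BT (PX PQ JS bey exits x_next_unique mst Hyp Ell finite_of_hyp mst_conv)
open Pool.Agent.BT.TA

namespace SyQ

variable {H V : Type} [Group H] [MulAction H V] {S : SyQ H V}

/-- local pieces -/
theorem LIJ.plp {w : S.X} {y a b : V} (h : S.LIJ w y a b) : S.PLP y w a b := by
  induction h with
  | rel a b h => exact Relation.EqvGen.rel _ _ ⟨h.1.1, h.2.2.1, h.2.2.2⟩
  | refl a => exact Relation.EqvGen.refl _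
  | symm a b _ ih => exact ih.symm
  | trans a b c _ _ i1 i2 => exact i1.trans _ _ _ i2

theorem PLP.smul {a : V} {p : S.X} {n n' : V} (h : S.PLP a p n n') (g : H) :
    S.PLP (g • a) (g • p) (g • n) (g • n') := by
  induction h with
  | rel x y h =>
    exact Relation.EqvGen.rel _ _ ⟨h.1.smul g, S.js.smul g _ _ h.2.1,
      S.js.smul g _ _ h.2.2⟩
  | refl a => exact Relation.EqvGen.refl _
  | symm a b _ ih => exact ih.symm
  | trans a b c _ _ i1 i2 => exact i1.trans _ _ _ i2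

/-- no local piece is one-sided -/
theorem ptsa_of {w : S.X} (hT : S.TSp w) (pb : S.PLB w) : S.PTSA := by
  intro a p0 e0 hpe hcs p n hn hpa hpn
  obtain ⟨g, rfl⟩ := pb n a (Or.inl hn) p hpn hpa
  -- a direction at `g w`
  have hdir : ∃ u, S.D.G.Adj (g • w) u ∧ u ∈ S.J a := by
    by_cases k : g • w = p0
    · rw [k]
      exact ⟨e0, hpe, hcs.2⟩
    · obtain ⟨t, t1, t2, -⟩ := ph_nbr hpa hcs.1 k
      exact ⟨t, t1, t2⟩
  have back : ∀ {v : V} {q : S.X}, q ∈ S.J v → g⁻¹ • q ∈ S.J (g⁻¹ • v) :=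
    fun {v q} hv => S.js.smul g⁻¹ _ _ hv
  have bw : ∀ {v : V}, g • w ∈ S.J v → w ∈ S.J (g⁻¹ • v) := by
    intro v hv
    have := back hv
    rwa [inv_smul_smul] at this
  obtain ⟨u, hu, hua⟩ := hdir
  have hu' : S.D.G.Adj w (g⁻¹ • u) := by
    have := S.D.adj_smul g⁻¹ _ _ hu
    rwa [inv_smul_smul] at this
  obtain ⟨h1, h2⟩ := hT (g⁻¹ • a) (g⁻¹ • n) (S.K.ar_smul g⁻¹ _ _ hn) (bw hpa) (bw hpn)
    ⟨g⁻¹ • u, hu', back hua⟩
  have fw : ∀ {n' : V}, S.LIJ w (g⁻¹ • a) (g⁻¹ • n) n' → S.PLP a (g • w) n (g • n') := by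
    intro n' k
    have := k.plp.smul g
    rwa [smul_inv_smul, smul_inv_smul] at this
  have fc : ∀ {n' m : V}, S.K.Cor n' (g⁻¹ • a) m → S.K.Cor (g • n') a (g • m) := by
    intro n' m k
    have := k.smul g
    rwa [smul_inv_smul] at this
  constructor
  · intro d hd hda
    have hd' : S.D.G.Adj w (g⁻¹ • d) := by
      have := S.D.adj_smul g⁻¹ _ _ hd
      rwa [inv_smul_smul] at this
    obtain ⟨n', m, k1, k2, k3⟩ := h1 (g⁻¹ • d) hd' (back hda)
    refine ⟨g • n', g • m, fw k1, fc k2, ?_⟩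
    have := S.sub_bey_smul g k3
    rwa [smul_inv_smul] at this
  · intro b hb hpb
    obtain ⟨n', k1, k2⟩ := h2 (g⁻¹ • b) (S.K.ar_smul g⁻¹ _ _ hb) (bw hpb)
    refine ⟨g • n', fw k1, ?_⟩
    have := fc k2
    rwa [smul_inv_smul] at this

/-- no broken sink is reversed -/
theorem pd0_of {w : S.X} (hS : S.SinkH) (hD : ∀ z ∈ S.K.sVD, ∃ g : H, S.Sat w (g • z)) : S.PD0 := by
  intro a ha p hp g ga gp e he hea
  by_cases hd : DT (stabilizer H a)
  · exfalso
    obtain ⟨k, -, hk⟩ := hD a ⟨ha, hd.2.1, hd.2.2⟩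
    have h1 := S.js.smul k _ _ hp
    have h2 := S.js.smul k _ _ hea
    rw [hk] at h1 h2
    have : k • p = k • e := (Set.mem_singleton_iff.1 h1).trans (Set.mem_singleton_iff.1 h2).symm
    exact he.ne (smul_left_cancel k this)
  · exact hS.d0 ha hd ga hp gp hea

/-- the subtree of a sink is a point or a line -/
theorem pline_of (hS : S.SinkH) : S.PLine := by
  intro a ha p e he hp hea
  obtain ⟨v, h1, h2, h3, -⟩ := hS.line_ex ha hp hea he
  exact ⟨v, h2, h1, h3⟩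

/-- elements which fix a broken sink and a point of its line have finite order -/
theorem pfo_of (hS : S.SinkH) {x : V} (hx : ∀ a, ¬ S.K.ar x a) {p e : S.X} (he : S.D.G.Adj p e)
    (hp : p ∈ S.J x) (hex : e ∈ S.J x) {g : H} (gx : g • x = x) (gp : g • p = p) : ¬ IO g := by
  rcases hS.ty x hx with ⟨r, hr⟩ | ⟨h1, -, -⟩
  · exfalso
    rw [hr] at hp hex
    exact he.ne ((Set.mem_singleton_iff.1 hp).trans (Set.mem_singleton_iff.1 hex).symm)
  · have hf : Finite ↥(Subgroup.zpowers g) := by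
      apply finite_of_hyp S.D.tact (S.K.stab x) h1 (by rw [Subgroup.zpowers_le]; exact gx) (w := p)
      rintro b ⟨n, rfl⟩
      exact zpow_smul_eq_iff_minimalPeriod_dvd.2 (by
        rw [Function.minimalPeriod_eq_one_iff_isFixedPt.2 gp]
        exact one_dvd _)
    intro hio
    obtain ⟨n, hn0, hn1⟩ := (isOfFinOrder_of_finite
      (⟨g, Subgroup.mem_zpowers g⟩ : ↥(Subgroup.zpowers g))).exists_pow_eq_one
    have h3 : g ^ n = 1 := congrArg Subtype.val hn1
    exact hio n hn0 h3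

/-- an arrow with one orbit of flags is no arrow of a top -/
theorem ph_nt_X {y a b d : V} (x1 : 1 ≤ S.P.X y a) (h : (y, a) ∈ S.K.ThA) :
    ¬ S.P.Top y a d b := by
  intro k
  obtain ⟨h1, h2, -, h4⟩ := h
  obtain ⟨f0, s0, x0, y0, z0⟩ := P45.Q4_flag k.1.symm
  have e0 : (P45.fy f0, P45.fz f0) = (y, a) := Prod.ext y0 z0
  rcases P45.X_pos x1 with ⟨f, hf, e⟩ | ⟨q, n, hz⟩
  · obtain ⟨g, hg⟩ := h4 f0 f e0 e
    apply hf.1
    rw [← hg]
    exact s0
  · obtain ⟨f, sf, xf, yf, zf⟩ := P45.Q4_flag hz.1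
    have e1 : (P45.fy f, P45.fz f) = (y, a) := Prod.ext yf zf
    obtain ⟨g, hg⟩ := h4 f0 f e0 e1
    have hy : g • y = y := by
      have := congrArg P45.fy hg
      rw [P45.fy_smul, y0, yf] at this
      exact this
    have hx : g • d = n := by
      have := congrArg P45.fx hg
      rw [P45.fx_smul, x0, xf] at this
      exact this
    have k1 := S.K.ar_smul g _ _ k.2.2
    rw [hy, hx] at k1
    exact GX.not_both' k1 hz.2.2

/-- an arrow of a bare top over `w` has more than one orbit of flags -/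
theorem ph_nt_bare0 {w : S.X} (two : ∀ q, w ∈ S.J q → S.P.Bare q → ∃ u, S.Dia w u q)
    (ts : S.PTSA) (d0 : S.PD0) (ln : S.PLine) {y a : V} (hb : S.P.Bare y)
    (h : (y, a) ∈ S.K.ThA) (wy : w ∈ S.J y) (wa : w ∈ S.J a) : False := by
  have out : ∀ {x}, S.K.E x y → S.K.ar y x := fun hx => hx.resolve_left (hb.1 _)
  rcases thA_ph h with ⟨b', c', d', A⟩ | ⟨b', d', k1, k2, k3⟩
  · exact hb.2 _ _ _ _ (out A.q.E5) A.ar A.q.rot.rot.rot.rot
  · have A : S.Au y a b' d' :=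
      { ar := h.1
        Eab := k1.E2
        Edy := k1.E4
        cor_y := by
          intro m h
          rcases P45.cor_cases (P := S.P) h with ⟨b', c', h⟩ | ⟨b', h⟩
          · exact absurd h.rot (k3 _ _ _)
          · obtain ⟨g, g1, g2, -, g4⟩ := k2 _ _ h.rot
            exact ⟨g, g1, g2, g4⟩
        cor_a := by
          intro m h
          rcases P45.cor_cases (P := S.P) h with ⟨b', c', h⟩ | ⟨b', h⟩
          · exact absurd h (k3 _ _ _)
          · obtain ⟨g, g1, g2, g3, -⟩ := k2 _ _ h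
            exact ⟨g, g1, g2, g3⟩
        dr := h.2.1.1 }
    obtain ⟨u, -, a1, a2, hne, h1, h2, hg⟩ := two y wy hb
    have hq : ∃ c, S.Qs w u y a c := by
      rcases hg.cases with e | ⟨⟨c1, q1⟩, ⟨c2, q2⟩⟩
      · exact absurd e hne
      · rcases S.K.two y a1 a2 a h1 h2 h.1 with e | e | e
        · exact absurd e hne
        · exact ⟨_, e ▸ q2⟩
        · exact ⟨_, e ▸ q1⟩
    obtain ⟨c, hu, ca, cc, -, ⟨y', z', hq, -, -⟩ | ⟨x, hq, hx⟩⟩ := hq
    · exact hb.2 _ _ _ _ (out hq.E1) (out hq.E2.symm) hq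
    · obtain ⟨g, g1, g2, g3⟩ := A.cor_a x ((P45.cor_iff S.P).2 (Or.inr ⟨_, hq.rot.rot.rot.symm⟩))
      have gw : g • w = w := ph_fix A.ar g1 g2 w wy
      have gw' : g⁻¹ • w = w := by
        rw [inv_smul_eq_iff]
        exact gw.symm
      have ga' : g⁻¹ • a = a := by
        rw [inv_smul_eq_iff]
        exact g2.symm
      refine A.stay ts d0 ln wy wa (e := g⁻¹ • u) ?_ ?_ ?_
      · have := S.D.adj_smul g⁻¹ _ _ hu
        rwa [gw'] at this
      · have := S.js.smul g⁻¹ _ _ ca.2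
        rwa [ga'] at this
      · have := S.sub_bey_smul g⁻¹ hx
        rwa [gw', ← g3, inv_smul_smul] at this

/-- an arrow of a bare top has more than one orbit of flags -/
theorem ph_nt_bare {w : S.X} (pb : S.PLB w) (two : ∀ q, w ∈ S.J q → S.P.Bare q → ∃ u, S.Dia w u q)
    (ts : S.PTSA) (d0 : S.PD0) (ln : S.PLine) {y a : V} (hb : S.P.Bare y)
    (h : (y, a) ∈ S.K.ThA) : False := by
  obtain ⟨p, p0, p1⟩ := S.one_ex (Or.inl h.1)
  obtain ⟨g, rfl⟩ := pb _ _ (Or.inl h.1) p p0 p1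
  have back : ∀ {v : V}, g • w ∈ S.J v → w ∈ S.J (g⁻¹ • v) := by
    intro v hv
    have := S.js.smul g⁻¹ _ _ hv
    rwa [inv_smul_smul] at this
  exact ph_nt_bare0 two ts d0 ln (hb.smul g⁻¹) (ThA_smul g⁻¹ h) (back p0) (back p1)

/-! ### a step -/

variable {w : S.X} {O : S.OR w} {E : V → Prop}

/-- every bare vertex over `w` is a top -/
theorem Psv.ph_bare_top (h : S.Psv w O E) {v : V} (hb : S.P.Bare v) (hw : w ∈ S.J v) :
    ∃ a b y, S.P.Top v a b y := by
  obtain ⟨u, -, a1, a2, -, h1, -, -⟩ := h.two v hw hb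
  obtain ⟨n, hn⟩ := S.K.VC_all h.lc h.bad v
  obtain ⟨m, hm⟩ := GX.EC_iff.1 hn.symm
  have out : ∀ {x}, S.K.E x v → S.K.ar v x := fun hx => hx.resolve_left (hb.1 _)
  rcases (P45.cor_iff S.P).1 hm with ⟨y', z', hq⟩ | ⟨q, hq⟩
  · exact absurd hq (hb.2 _ _ _ _ (out hm.E1.symm) (out hm.E2.symm))
  · exact ⟨_, _, _, hq, out hm.E1.symm, out hm.E2.symm⟩

/-- THE HYPOTHESES OF THE STRICT PART -/
theorem Psv.phG (h : S.Psv w O E) (hT : S.TSp w) (hz : S.ZW w)
    (hD : ∀ z ∈ S.K.sVD, ∃ g : H, S.Sat w (g • z)) (pb : S.PLB w)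
    (uq : ∀ x, (∀ a, ¬ S.K.ar x a) → x ∉ S.K.sVD → ∀ e, S.D.G.Adj w e → w ∈ S.J x → e ∈ S.J x →
      S.UqC w e x) : S.PhG w O := by
  have hS : S.SinkH := h.gd.sinkH (fun y _ => h.lc y)
  have ts := ptsa_of hT pb
  have d0 := pd0_of hS hD
  have ln := pline_of hS
  have hop : ∀ u q, w ∈ S.J q → ¬ S.P.Bare q → O.op u q := fun u q h1 h2 => (h.opn u q).2 ⟨h1, h2⟩
  exact
    { ts := ts
      d0 := d0
      ln := ln
      op :=
        { n2 := fun u u' q ho _ => (h.opn u' q).2 ((h.opn u q).1 ho)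
          n7 := fun u q x _ hq hx => hop u q hq (fun k => k.1 _ hx) }
      ot := by
        intro T a b y ht hay u hu
        refine ⟨fun hT => hop u T hT ?_, fun ha => hop u a ha (fun k => k.1 _ ht.2.1)⟩
        intro k
        exact GX.not_both' hay (h.sq.Ea _ _ _ _ ht (h.bE _ _ _ _ ht k))
      nd := h.nd
      ht := h.sq.top
      nt := by
        intro y a b d ht hp
        by_cases hb : S.P.Bare y
        · exact ph_nt_bare pb h.two ts d0 ln hb hp
        · exact ph_nt_X (h.x1 (y, a) ⟨_, _, ht⟩ hb) hp ht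
      wm := h.wm
      hz := h.toSy1.noDt hz
      tog := h.tog
      pl := fun a q b y hq p h1 h2 => pb _ _ hq.E1 p h1 h2
      hc := h.gd.conn
      nb := h.nbm
      lc := h.lc
      pe := h.pe
      opn := fun u q _ h1 h2 => hop u q h1 h2
      bloc := fun T a b y ht hb hl => h.noE _ _ _ _ ht hl (h.bE _ _ _ _ ht hb)
      bJ := by
        intro v hb hw p hp
        obtain ⟨a, b, y, ht⟩ := h.ph_bare_top hb hw
        exact h.eJ v (h.bE _ _ _ _ ht hb) hw p hp
      pb := pb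
      uq := uq
      fo := fun x hx p e he hp hex g gx gp _ => pfo_of hS hx he hp hex gx gp }

/-- THE LAW OF `phi_0` at a wall of `Z` type -/
theorem Psv.phi_law (h : S.Psv w O E)
    (hx : KX1 (O := O) (k0_min h.gd.conn h.wm) (S.sqN h.gd.conn w O)) (hT : S.TSp w) (hz : S.ZW w)
    (hD : ∀ z ∈ S.K.sVD, ∃ g : H, S.Sat w (g • z)) (pb : S.PLB w)
    (uq : ∀ x, (∀ a, ¬ S.K.ar x a) → x ∉ S.K.sVD → ∀ e, S.D.G.Adj w e → w ∈ S.J x → e ∈ S.J x →
      S.UqC w e x) :
    S.K.phA ≤ (h.kP O).thin.phA ∧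
      ((h.kP O).thin.phA = S.K.phA → ∀ z ∈ S.K.sVZ, ∃ g : H, S.Sat w (g • z)) := by
  have G := h.phG hT hz hD pb uq
  have h1 : S.K.phA ≤ (S.kf h.gd.conn w O).phA := G.toPhH.phA_le hx fin_ThA
  have h2 : (S.kf h.gd.conn w O).phA ≤ (h.kP O).thin.phA := (h.kP O).thin_phA
  refine ⟨h1.trans h2, fun e z hz' => ?_⟩
  exact G.sat hx (by omega) hz'.1 (fun k => k.2.2 hz'.2.2)

end SyQ

end Pool.Agent.DI
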