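import Pool.Agent.DI.PzB
import Pool.Agent.DI.VisQ
import Pool.Agent.DI.KXe
import Pool.Agent.DI.OpB

/-!
# The double hubs over `w` (`hdq` of the killing lemma)

`Ivs.no_fatB`, `vis_dqB`: `VisQ` with `BareF` (the folded hubs are bare). `Psv.hdq`: an element which fixes a
double hub over `w` and its poles fixes an edge at `w`.
-/

namespace Pool.Agent.DI

open MulAction
open Pool.Agent.SAF (InC SA orbs FinOrb oc Decomp SAn Conv hull dist_edge FinOrb_iff exists_next TAct)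
open Pool.Agent.BT (PX PQ JS bey exits)
open Pool.Agent.BT.TA

namespace SyQ

variable {H V : Type} [Group H] [MulAction H V] {S : SyQ H V}

section

variable {hc : S.Conn} {hnb : S.NB} {w : S.X} {O : S.OR w} {hm : (S.k0 hc w).Min}
  {hn : S.SqN w O} {F : Set V}

/-- A REVERSED POLE OF A BARE VERTEX IS NOT FAT -/
theorem Ivs.no_fatB {v : V} (hI : S.Ivs w v) (hFO : S.FO w O F) (hB : S.BareF w F)
    (hv : S.VisE hc hnb w O hm hn F) (hvF : v ∈ F) {a : V} (ha : S.K.ar v a) (hwa : w ∈ S.J a)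
    {g : H} (hr : S.Rv w a g) (gv : g • v = v) : ¬ (S.kfc hnb).Fat a := by
  intro hf
  have hwv : w ∈ S.J v := by rw [hI.Jv]; rfl
  have hSL : S.SL w a v g := ⟨hwa, hwv, ha, hr.1, hr.2.1, by rw [gv]; exact Relation.EqvGen.refl _⟩
  obtain ⟨e, h1, h2, h3, h4⟩ := hv ⟨a, hwa⟩ ⟨v, hwv⟩ g hSL hr hf
  -- the page is `v`
  have hx : (S.k0fc hc hnb w).x e = Sum.inl ⟨v, hwv⟩ := by
    have hst : S.SAr w ((S.k0fc hc hnb w).x e) ((S.k0fc hc hnb w).y e) := h1.1.1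
    obtain ⟨m, hm'⟩ := sar_soft hst
    rw [hm'] at h3 ⊢
    have h5 : (S.k0 hc w).IJ (Sum.inl ⟨a, hwa⟩) (Sum.inl m) (Sum.inl ⟨v, hwv⟩) :=
      ((S.k0P hc w).fc_IJ _).1 h3
    rw [hI.pc h5 (Or.inr rfl)]
  apply h4
  refine Or.inr (Or.inr ⟨⟨v, hwv⟩, hvF, hx, fun e' he' hx' hy' => ?_⟩)
  -- a kept flag of `v`
  have hk' : (S.kfM hc hnb w O hm hn).Kp ((S.k0fc hc hnb w).r ((S.k0fc hc hnb w).v e')) :=
    he'.v.r
  refine hB.no_kp hFO (q := ⟨v, hwv⟩) hvF hk' ?_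
  show (S.k0fc hc hnb w).x e' = _
  rw [hx', hx]

/-- VIS (b) FOR THE BARE VERTICES WITH TWO DIAMONDS -/
theorem vis_dqB (hwm : S.WMin w) (hL : ∀ v, S.K.LC v) (hTS : S.TSp w) (hFO : S.FO w O F)
    (hB : S.BareF w F) (hv : S.VisE hc hnb w O hm hn F)
    (uqs : ∀ z, (∀ a, ¬ S.K.ar z a) → S.K.VC z → ∀ u, S.D.G.Adj w u → w ∈ S.J z → u ∈ S.J z →
      S.UqV w u z)
    (uqt : ∀ z n g, S.SL w z n g → S.Rv w z g → (∃ a, S.K.ar z a) → ¬ (S.kfc hnb).Fat z → ∀ u,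
      S.D.G.Adj w u → u ∈ S.J z → S.UqV w u z)
    {i : S.K.I} (hi : ¬ S.P.sq i) {q : V} {u u' : S.X} (hd : S.Dia w u q) (hd' : S.Dia w u' q)
    (hne : u ≠ u') (hq : q ∈ F) (hN : S.NoS w q) {g : H} (gw : g • w = w) (gq : g • q = q)
    (gp : ∀ b, S.K.ar q b → g • b = b) : g • u = u := by
  obtain ⟨-, a, -, -, ha, -, -⟩ := id hd
  obtain ⟨b, hI⟩ := hd.int2 hd' hne ha
  have hIv := Ivs.of_int hI (k0_min hc hwm) (hL q) hN
  refine hI.fix hc hnb hwm (hL q) hN hTS hi gw gq (gp a ha) fun hgu => ?_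
  have key : ∀ c, S.K.ar q c → S.Cs w u c → ∀ v, S.D.G.Adj w v → v ∈ S.J c → S.UqV w v c := by
    intro c hc' hcs v hv1 hv2
    by_cases hs : ∃ d, S.K.ar c d
    · obtain ⟨d, hd0⟩ := hs
      have hr : S.Rv w c g := rv_of_exits hI.hu hd0 hcs.1 hcs.2 gw (gp c hc') hgu
      have hnf := hIv.no_fatB hFO hB hv hq hc' hcs.1 hr gq
      exact uqt c q g ⟨hcs.1, hI.hw, hc', gw, gp c hc', by rw [gq]; exact Relation.EqvGen.refl _⟩
        hr ⟨d, hd0⟩ hnf v hv1 hv2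
    · push Not at hs
      refine uqs c hs ?_ v hv1 hcs.1 hv2
      obtain ⟨y, hy⟩ := hI.cel (hL q) (Or.inr hc' : S.K.E c q)
      exact ⟨q, GX.EC_iff.2 ⟨y, hy⟩⟩
  exact ⟨fun v h1 h2 => key a ha hI.au v h1 h2, fun v h1 h2 => key b hI.vb hI.bu v h1 h2⟩

end

variable {w : S.X} {O : S.OR w} {E : V → Prop}

/-- `hdq` OF THE KILLING LEMMA -/
theorem Psv.hdq (h : S.Psv w O E) {hnb : S.NB} (hF : S.BareF w h.rz.F) (hTS : S.TSp w)
    (hv : S.VisE h.gd.conn hnb w O (k0_min h.gd.conn h.wm) (S.sqN h.gd.conn w O) h.rz.F)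
    (uqs : ∀ z, (∀ a, ¬ S.K.ar z a) → S.K.VC z → ∀ u, S.D.G.Adj w u → w ∈ S.J z → u ∈ S.J z →
      S.UqV w u z)
    (uqt : ∀ z n g, S.SL w z n g → S.Rv w z g → (∃ a, S.K.ar z a) → ¬ (S.kfc hnb).Fat z → ∀ u,
      S.D.G.Adj w u → u ∈ S.J z → S.UqV w u z) :
    ∀ q u u', S.J q = {w} → S.Dia w u q → S.Dia w u' q → u ≠ u' → ∀ g : H, g • q = q →
      (∀ b, S.K.ar q b → g • b = b) → ∃ v, S.D.G.Adj w v ∧ g • v = v := by
  intro q u u' hJ hd hd' hne g gq gp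
  have hb := h.bare_dq hd hd' hne
  obtain ⟨i, hi⟩ := h.pe
  refine ⟨u, ?_, vis_dqB h.wm h.lc hTS h.rz.fO hF hv uqs uqt hi hd hd' hne ⟨hd.1, hb⟩
    (h.noS hd.1 hb) (uk_fw hJ gq) gq gp⟩
  obtain ⟨-, a, -, -, ha, -, -⟩ := id hd
  exact (hd.two ha).1

end SyQ

end Pool.Agent.DI
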