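import Pool.Agent.DI.PzK
import Pool.Agent.DI.BrW

/-!
# No bare vertex over the bad place at a thin step, `p_5` at the walls of type `D_inf`

`WT.no_bare`: at a thin step no vertex over `w` is bare; from `bw` (a bare top is the vertex `qt i 3` of its
own walk) and `bo` (the vertices over the midpoint are bare). `WT.p5_thin`: `p_5` of the thinned folded slice
is smaller.
-/

namespace Pool.Agent.DI

open MulAction
open Pool.Agent.SAF (InC SA orbs FinOrb oc Decomp SAn Conv hull dist_edge FinOrb_iff exists_next TAct)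
open Pool.Agent.SAG (IO Zt)
open Pool.Agent.BT (PX PQ JS bey exits Ell Hyp lz lz_self lz_ne lz_symm x_next_unique)
open Pool.Agent.BT.TA

namespace SyQ

variable {H V : Type} [Group H] [MulAction H V] {S : SyQ H V} {w : S.X} {O : S.OR w}
  {E : V → Prop}

/-- the corner at a vertex of a listed square -/
theorem sq_le {i : S.K.I} (hi : S.P.sq i) (j : Fin 4) (g : H) :
    ∃ e : S.K.LE, e.1.1 = i ∧ e.1.2.1 = j.1 ∧ S.K.c0 e = g • S.P.qt i j := by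
  have hl : S.K.len i = 4 := S.P.len4 hi
  refine ⟨(⟨i, ⟨j.1, by rw [hl]; exact j.2⟩⟩, g), rfl, rfl, ?_⟩
  show g • S.K.vx i j.1 = _
  rw [S.P.vx4 hi j]

/-- opposite vertices of a square are not both bare -/
theorem BrJ.no_opp {a q b y : V} (h : Q4 S.P a q b y) {i1 i2 : S.K.I} {g1 g2 : H}
    {p1 p2 p01 p02 : S.X} (hq : q = g1 • S.P.qt i1 3) (h1 : S.BrJ i1 p1 p01)
    (hy : y = g2 • S.P.qt i2 3) (h2 : S.BrJ i2 p2 p02) : False := by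
  obtain ⟨g, i, j, hi, hc⟩ := h
  have e : q = g • S.P.qt i (j + 1) ∧ y = g • S.P.qt i (j + 3) := by
    rcases hc with ⟨-, k1, -, k2⟩ | ⟨-, k1, -, k2⟩
    · exact ⟨k1, k2⟩
    · exact ⟨k1, k2⟩
  obtain ⟨l1, a1, b1, c1⟩ := S.sq_le hi (j + 1) g
  obtain ⟨l2, a2, b2, c2⟩ := S.sq_le hi (j + 3) g
  have r1 := (h1.only' (c1.trans (e.1.symm.trans hq))).2
  have r2 := (h2.only' (c2.trans (e.2.symm.trans hy))).2
  rw [b1] at r1
  rw [b2] at r2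
  have : ∀ j : Fin 4, (j + 1).1 = 3 → (j + 3).1 = 3 → False := by decide
  exact this j r1 r2

/-- NO BARE VERTEX OVER THE BAD PLACE AT A THIN STEP -/
theorem WT.no_bare {u w' : S.X} {v z1 z2 : V} {r0 : H} (h : S.WT w u w' v z1 z2 r0)
    (r : S.Rz w O E)
    (bw : ∀ v a b y, S.P.Top v a b y → S.P.Bare v →
      ∃ (i : S.K.I) (g : H) (p p0 : S.X), v = g • S.P.qt i 3 ∧ S.BrJ i p p0)
    (bo : ∀ v, S.J v = {u} → S.P.Bare v) (q : V) (hq : w ∈ S.J q) : ¬ S.P.Bare q := by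
  intro hb
  obtain ⟨u1, hd⟩ := r.two q hq hb
  obtain ⟨a, b, y0, ht, hab, ca, cb, -, hQ⟩ := r.top_of_dia hd
  obtain ⟨k, kw, ku⟩ : ∃ k : H, k • w = w ∧ k • u1 = u := by
    rcases h.wi.bip w u1 hQ.adj with ⟨g, h1, h2⟩ | ⟨g, h1, h2⟩
    · exact ⟨g⁻¹, inv_smul_eq_iff.2 h1.symm, inv_smul_eq_iff.2 h2.symm⟩
    · exact (h.wi.wu g⁻¹ (inv_smul_eq_iff.2 h1.symm)).elim
  have hQ1 := Qs.smul (⟨k, kw⟩ : ↥(stabilizer H w)) hQ
  have hQ1 : S.Qs w (k • u1) (k • q) (k • a) (k • b) := hQ1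
  rw [ku] at hQ1
  have hb1 : S.P.Bare (k • q) := hb.smul k
  obtain ⟨y, h4, hcc⟩ := h.wi.wc.far' h.wi.con hQ1.l hQ1.r hQ1.2.2.2
  obtain ⟨j, -, ju, rfl⟩ := h.wi.wc.far h.wi.con hQ1.l hQ1.r hcc
  have hJ : S.J (j • v) = {u} := by
    have := Js_smul (g := j) h.wi.wc.Jv
    rwa [ju] at this
  have hb2 : S.P.Bare (j • v) := bo _ hJ
  have out : ∀ {T x : V}, S.P.Bare T → S.K.E T x → S.K.ar T x := fun hT e =>
    e.resolve_right (hT.1 _)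
  have t1 : S.P.Top (k • q) (k • a) (k • b) (j • v) :=
    ⟨h4, out hb1 h4.E1.symm, out hb1 h4.E2⟩
  have t2 : S.P.Top (j • v) (k • a) (k • b) (k • q) :=
    ⟨h4.rot.rot.symm, out hb2 h4.E4, out hb2 h4.E3.symm⟩
  obtain ⟨i1, g1, p1, p01, e1, k1⟩ := bw _ _ _ _ t1 hb1
  obtain ⟨i2, g2, p2, p02, e2, k2⟩ := bw _ _ _ _ t2 hb2
  exact BrJ.no_opp h4 e1 k1 e2 k2

/-- `p_5` AT THE WALLS OF TYPE `D_inf`, CASE F -/
theorem WT.p5_thin {u w' : S.X} {v z1 z2 : V} {r0 : H} (h : S.WT w u w' v z1 z2 r0)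
    (p : S.PzH h.wi.con w O) (l : S.LvG h.wi.con w O) (r : S.Rz w O E)
    {hm : (S.k0 h.wi.con w).Min} {hn : S.SqN w O} (hx : KX1 hm hn)
    (bw : ∀ v a b y, S.P.Top v a b y → S.P.Bare v →
      ∃ (i : S.K.I) (g : H) (p p0 : S.X), v = g • S.P.qt i 3 ∧ S.BrJ i p p0)
    (bo : ∀ v, S.J v = {u} → S.P.Bare v) :
    (S.kfP h.wi.con w O hm hn).thin.p5 + 1 ≤ S.K.p5 := by
  rw [P45.thin_p5]
  exact h.p5_kf p l r hx fun f _ q y hq _ hb _ _ _ => (h.no_bare r bw bo q hq hb).elim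

/-- THE DROP OF `p_5` ON `Psv`, CASE F -/
theorem Psv.p5_F (h : S.Psv w O E) {u w' : S.X} {v z1 z2 : V} {r0 : H}
    (t : S.WT w u w' v z1 z2 r0)
    (tu : ∀ u, (S.kf h.gd.conn w O).VC (S.fq w O (Sum.inr u)))
    (hx : KX1 (O := O) (k0_min h.gd.conn h.wm) (S.sqN h.gd.conn w O)) (hts : S.TSp w)
    (bw : ∀ v a b y, S.P.Top v a b y → S.P.Bare v →
      ∃ (i : S.K.I) (g : H) (p p0 : S.X), v = g • S.P.qt i 3 ∧ S.BrJ i p p0)
    (bo : ∀ v, S.J v = {u} → S.P.Bare v) : (h.kP O).thin.p5 + 1 ≤ S.K.p5 :=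
  t.p5_thin (h.pz tu) (h.lvg hx hts) h.rz hx bw bo

end SyQ

end Pool.Agent.DI
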