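import Pool.Agent.DI.SgN

/-!
# DI/SgP: surplus, constant sigma

`SgH.surplus`: counted arrows of the folded slice which carry nothing and pay nothing are a surplus.
At constant sigma: `SgH.near`: (N*) is an equality and a diamond carried by a near star has `X = 1`;
`SgH.locU`, `SgH.locD`, `SgH.loc4`: local tops; `SgH.zero`: an arrow which carries nothing has `X' = 1` and
`c ≤ 1` over it; `SgH.unch`: `c ≤ 1` over uncounted hub arrows; `SgH.gb`: gamma tops in case 2 with bad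
partner have `X = 1`.
-/

namespace Pool.Agent.DI

open MulAction
open Pool.Agent.SAF (InC orbs FinOrb oc Decomp SAn SA Conv hull dist_edge FinOrb_iff exists_next
  mk_eq_iff)
open Pool.Agent.BT (PX PQ JS bey exits lz lz_self lz_ne lz_symm x_next_unique)
open Pool.Agent.BT.TA

/-- equality of sums, pointwise inequality -/
theorem os_eq_of_le {G W : Type} [Group G] [MulAction G W] {A : Set W} (h : FinOrb G A)
    {X Y : W → ℕ} (hX : ∀ (g : G) p, X (g • p) = X p) (hY : ∀ (g : G) p, Y (g • p) = Y p)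
    (hle : ∀ p ∈ A, X p ≤ Y p) (he : os G A Y ≤ os G A X) {p : W} (hp : p ∈ A) : X p = Y p := by
  by_contra hne
  have hlt : X p < Y p := lt_of_le_of_ne (hle p hp) hne
  rw [os_eq h, os_eq h] at he
  have hq : (Quotient.mk'' p : orbitRel.Quotient G W) ∈ orbs G A := ⟨p, hp, rfl⟩
  obtain ⟨g, hg⟩ := mk_eq_iff.1 (rp_mk G hq)
  have hg' : g • p = rp G A (Quotient.mk'' p) := hg
  have : ∑ q ∈ h.toFinset, X (rp G A q) < ∑ q ∈ h.toFinset, Y (rp G A q) := by
    refine Finset.sum_lt_sum (fun q hq => hle _ (rp_mem G (h.mem_toFinset.1 hq)))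
      ⟨_, h.mem_toFinset.2 hq, ?_⟩
    rw [← hg', hX, hY]
    exact hlt
  omega

namespace SyQ

variable {H V : Type} [Group H] [MulAction H V] {S : SyQ H V}
  {hc : S.Conn} {w : S.X} {O : S.OR w} {hm : (S.k0 hc w).Min} {hn : S.SqN w O}
  {E : V → Prop} {c : S.Q w O × S.Q w O → ℕ}

/-- SURPLUS -/
theorem SgH.surplus (h : S.SgH hc w O hm hn E c) {Z : Set (S.Q w O × S.Q w O)}
    (hZ : Z ⊆ (S.kfP hc w O hm hn).CA)
    (iZ : ∀ (g : ↥(stabilizer H w)), ∀ k ∈ Z, g • k ∈ Z)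
    (h0 : ∀ k ∈ Z, (∀ p, ¬ S.Ca w O p k) ∧ ¬ S.NA w O k ∧ ∀ p, ¬ S.P4 hc hm hn p k) :
    S.P.sigma + os ↥(stabilizer H w) Z (fun k => 3 * ((S.kfP hc w O hm hn).X k.1 k.2 - 1 +
      os ↥(stabilizer ↥(stabilizer H w) k) {l | S.QN w O k l} (fun l => c l - 1))) ≤
      (S.kfP hc w O hm hn).sigma := by
  rw [P45.sigma_os h.o.sq h.x1, P45.sigma_os' (kf_U_Dm h.o) h.x1']
  have h1 := h.sgY.surplus hZ iZ (fun k hk => ⟨(h0 k hk).1, pay_zero (h0 k hk).2.1 (h0 k hk).2.2⟩)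
  refine le_trans ?_ h1
  have hZf : FinOrb ↥(stabilizer H w) Z := P45.fin_CA.mono hZ
  have : os ↥(stabilizer H w) Z (fun k => 3 * ((S.kfP hc w O hm hn).X k.1 k.2 - 1 +
      os ↥(stabilizer ↥(stabilizer H w) k) {l | S.QN w O k l} (fun l => c l - 1))) ≤
      os ↥(stabilizer H w) Z (fun k => (S.kfP hc w O hm hn).val k +
        chr (G := ↥(stabilizer H w)) (CQ hc hm hn) (pay hc hm hn c) k) := by
    refine os_le hZf fun k hk => ?_
    have h2 := chr_ge h.o h.ci (hZ hk)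
    have h3 := P45.le_val (P := S.kfP hc w O hm hn) k
    omega
  omega

/-! ### constant sigma -/

section Eq

variable (h : S.SgH hc w O hm hn E c) (hs : (S.kfP hc w O hm hn).sigma ≤ S.P.sigma)

include h hs

/-- the local equality -/
theorem SgH.eqn {k : S.Q w O × S.Q w O} (hk : k ∈ (S.kfP hc w O hm hn).CA) :
    os ↥(stabilizer ↥(stabilizer H w) k) {p | S.Ca w O p k} S.P.val + pay hc hm hn c k =
      (S.kfP hc w O hm hn).val k +
        chr (G := ↥(stabilizer H w)) (CQ hc hm hn) (pay hc hm hn c) k := by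
  rw [P45.sigma_os h.o.sq h.x1, P45.sigma_os' (kf_U_Dm h.o) h.x1'] at hs
  exact h.sgY.eq hs hk

/-- (N*) IS AN EQUALITY, diamonds carried by a near star have `X = 1` -/
theorem SgH.near {u : S.X} {q z x : V} (hk : S.KN w O u q z x) :
    os ↥(stabilizer ↥(stabilizer H w) (S.fq w O (S.rho w x), S.fq w O (S.rho w q)))
        {p | S.Ca w O p (S.fq w O (S.rho w x), S.fq w O (S.rho w q))}
        (fun p => S.P.X p.1 p.2 - 1) +
      (c (S.fq w O (S.rho w x), S.fq w O (S.rho w q)) - 1) =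
    ((S.kfP hc w O hm hn).X (S.fq w O (S.rho w x)) (S.fq w O (S.rho w q)) - 1) +
    os ↥(stabilizer ↥(stabilizer H w) (S.fq w O (S.rho w x), S.fq w O (S.rho w q)))
        {k | S.QN w O (S.fq w O (S.rho w x), S.fq w O (S.rho w q)) k} (fun k => c k - 1) ∧
    ∀ p ∈ S.P.Dm, S.Ca w O p (S.fq w O (S.rho w x), S.fq w O (S.rho w q)) →
      S.P.X p.1 p.2 = 1 := by
  have hN : S.NA w O (S.fq w O (S.rho w x), S.fq w O (S.rho w q)) :=
    ⟨_, u, q, z, x, hk, rfl, rfl⟩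
  have hU := hk.U (hc := hc) (hm := hm) (hn := hn) h.o.nf
  have hk' : (S.fq w O (S.rho w x), S.fq w O (S.rho w q)) ∈ (S.kfP hc w O hm hn).CA :=
    Or.inl hU
  have h1 := h.eqn hs hk'
  have h2 := h.nst u q z x hk
  have h3 := chr_ge h.o h.ci hk'
  have fC := Ca.fin h.o (S.fq w O (S.rho w x), S.fq w O (S.rho w q))
  have h4 : os ↥(stabilizer ↥(stabilizer H w) (S.fq w O (S.rho w x), S.fq w O (S.rho w q)))
      {p | S.Ca w O p (S.fq w O (S.rho w x), S.fq w O (S.rho w q))} S.P.val ≤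
      os ↥(stabilizer ↥(stabilizer H w) (S.fq w O (S.rho w x), S.fq w O (S.rho w q)))
      {p | S.Ca w O p (S.fq w O (S.rho w x), S.fq w O (S.rho w q))}
      (fun p => 4 * (S.P.X p.1 p.2 - 1)) := os_le fC fun p _ => P45.val_le p
  have h5 := os_mul fC 4 (fun p => S.P.X p.1 p.2 - 1)
  rw [pay_NA hN, P45.val_U hU] at h1
  dsimp only at h1
  refine ⟨by omega, ?_⟩
  intro p hp hpk
  have h6 := os_eq_of_le fC (X := S.P.val) (Y := fun p => 4 * (S.P.X p.1 p.2 - 1))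
    (fun g p => P45.val_smul g.1.1 p) (fun g p => by
      have : S.P.X (g.1.1 • p).1 (g.1.1 • p).2 = S.P.X p.1 p.2 := P45.X_smul g.1.1 p.1 p.2
      show 4 * (S.P.X (g.1.1 • p).1 (g.1.1 • p).2 - 1) = _
      rw [this]) (fun p _ => P45.val_le p) (by omega) hpk
  have h7 : p ∉ S.P.U := fun k => h.o.sq.U_Dm p k hp
  rw [P45.val_nU h7] at h6
  have h8 := h.x1 p hpk.1
  omega

/-- an arrow which carries nothing -/
theorem SgH.zero {k : S.Q w O × S.Q w O} (hk : k ∈ (S.kfP hc w O hm hn).CA)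
    (h0 : ∀ p, ¬ S.Ca w O p k) (hN : ¬ S.NA w O k) (h4 : ∀ p, ¬ S.P4 hc hm hn p k) :
    (S.kfP hc w O hm hn).X k.1 k.2 = 1 ∧ (∀ l, S.QN w O k l → c l ≤ 1) ∧
      os ↥(stabilizer ↥(stabilizer H w) k) {l | S.QN w O k l} (fun l => c l - 1) = 0 := by
  have h1 := h.eqn hs hk
  rw [os_none (G := ↥(stabilizer ↥(stabilizer H w) k)) (A := {p | S.Ca w O p k})
    (fun p hp => h0 p hp), pay_zero hN h4] at h1
  have h2 := P45.le_val (P := S.kfP hc w O hm hn) k
  have h3 := h.x1' k hk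
  have h5 := chr_ge h.o h.ci hk
  have h6 : os ↥(stabilizer ↥(stabilizer H w) k) {l | S.QN w O k l} (fun l => c l - 1) = 0 := by
    omega
  refine ⟨by omega, ?_, h6⟩
  intro l hl
  have h7 := le_os (QN.fin h.o hc hm hn k) (X := fun l => c l - 1)
    (fun g m _ _ => by
      show c (g.1 • m) - 1 = _
      rw [h.ci]) (p := l) hl
  omega

/-- over an uncounted hub arrow -/
theorem SgH.unch {u : S.X} {q z x : V} (hk : S.KN w O u q z x)
    (hq : (S.fq w O (S.rho w q), S.fq w O (S.rho w z)) ∉ (S.kfP hc w O hm hn).CA) :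
    c (S.fq w O (S.rho w x), S.fq w O (S.rho w q)) ≤ 1 := by
  have hN : S.QN w O (S.fq w O (S.rho w q), S.fq w O (S.rho w z))
    (S.fq w O (S.rho w x), S.fq w O (S.rho w q)) := ⟨u, q, z, x, hk, rfl, rfl⟩
  have hU := hk.U (hc := hc) (hm := hm) (hn := hn) h.o.nf
  have hs' := hs
  rw [P45.sigma_os h.o.sq h.x1, P45.sigma_os' (kf_U_Dm h.o) h.x1'] at hs'
  have h1 := h.sgY.unch hs' (Or.inl hU) ?_
  · rw [pay_NA ⟨_, hN⟩] at h1
    omega
  · intro q' hq'
    rcases hq' with ⟨h2, h3⟩ | ⟨p, h2, -⟩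
    · rw [h2.fun h.o hc hm hn hN] at h3
      exact hq h3
    · exact (h2.not_NA h.o).1 ⟨_, hN⟩

/-- LOCAL TOPS at constant sigma: gamma tops -/
theorem SgH.locU {T a : V} (hk : S.Ca w O (T, a) (S.fq w O (S.rho w T), S.fq w O (S.rho w a)))
    (hN : ¬ S.NA w O (S.fq w O (S.rho w T), S.fq w O (S.rho w a))) (hU : (T, a) ∈ S.P.U)
    (hU' : (S.fq w O (S.rho w T), S.fq w O (S.rho w a)) ∈ (S.kfP hc w O hm hn).U) :
    S.P.X T a = (S.kfP hc w O hm hn).X (S.fq w O (S.rho w T)) (S.fq w O (S.rho w a)) +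
      os ↥(stabilizer ↥(stabilizer H w) (S.fq w O (S.rho w T), S.fq w O (S.rho w a)))
        {k | S.QN w O (S.fq w O (S.rho w T), S.fq w O (S.rho w a)) k} (fun k => c k - 1) := by
  have hk' : (S.fq w O (S.rho w T), S.fq w O (S.rho w a)) ∈ (S.kfP hc w O hm hn).CA :=
    Or.inl hU'
  obtain ⟨b, y, ht, e, hT, ha, hb, -⟩ := Ca.loc h.o hk hN
  have h1 := h.eqn hs hk'
  rw [os_single (G := ↥(stabilizer ↥(stabilizer H w)
    (S.fq w O (S.rho w T), S.fq w O (S.rho w a))))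
    (A := {p | S.Ca w O p (S.fq w O (S.rho w T), S.fq w O (S.rho w a))}) (p := (T, a)) hk
    (Ca.one h.o hk hN), P45.val_U hU, P45.val_U hU'] at h1
  have h2 := h.lcl T a b y ht (Or.inl hk.1) hT ha hb
  have h3 := chr_ge h.o h.ci hk'
  have h4 := h.x1' _ hk'
  have h5 := h.x1 _ hk.1
  have h6 : pay hc hm hn c (S.fq w O (S.rho w T), S.fq w O (S.rho w a)) = 0 := by
    refine pay_zero hN fun p hp => ?_
    exact kf_U_Dm h.o _ hU' (hp.both h.o).1
  dsimp only at h1 h4 h5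
  omega

/-- LOCAL TOPS at constant sigma: diamond tops -/
theorem SgH.locD {T a : V} (hk : S.Ca w O (T, a) (S.fq w O (S.rho w T), S.fq w O (S.rho w a)))
    (hN : ¬ S.NA w O (S.fq w O (S.rho w T), S.fq w O (S.rho w a))) (hD : (T, a) ∈ S.P.Dm) :
    S.P.X T a = (S.kfP hc w O hm hn).X (S.fq w O (S.rho w T)) (S.fq w O (S.rho w a)) ∧
      ∀ l, S.QN w O (S.fq w O (S.rho w T), S.fq w O (S.rho w a)) l → c l ≤ 1 := by
  have hk' : (S.fq w O (S.rho w T), S.fq w O (S.rho w a)) ∈ (S.kfP hc w O hm hn).CA :=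
    Ca.mem h.o hk
  obtain ⟨b, y, ht, e, hT, ha, hb, -⟩ := Ca.loc h.o hk hN
  have hnU : (T, a) ∉ S.P.U := fun k => h.o.sq.U_Dm _ k hD
  have h1 := h.eqn hs hk'
  have h0 := P45.le_val (P := S.kfP hc w O hm hn)
    (S.fq w O (S.rho w T), S.fq w O (S.rho w a))
  rw [os_single (G := ↥(stabilizer ↥(stabilizer H w)
    (S.fq w O (S.rho w T), S.fq w O (S.rho w a))))
    (A := {p | S.Ca w O p (S.fq w O (S.rho w T), S.fq w O (S.rho w a))}) (p := (T, a)) hk
    (Ca.one h.o hk hN), P45.val_nU hnU] at h1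
  have h2 := h.lcl T a b y ht (Or.inl hk.1) hT ha hb
  have h3 := chr_ge h.o h.ci hk'
  have h4 := h.x1' _ hk'
  have h5 := h.x1 _ hk.1
  have h6 : pay hc hm hn c (S.fq w O (S.rho w T), S.fq w O (S.rho w a)) = 0 := by
    refine pay_zero hN ?_
    rintro ⟨T', a'⟩ hp4
    obtain ⟨hU, b', y', ht', e1, e2, hT', ha', hb', e3⟩ := hp4.data h.o
    have f1 := congrArg Prod.fst e3
    have f2 := congrArg Prod.snd e3
    dsimp only at f1 f2
    obtain rfl := h.o.alone (Or.inl hU) ht' hT' ha' hb' hT f1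
    rcases h.o.sq.sides ht' ht.2.1 with rfl | rfl
    · exact absurd f2 (h.o.nab _ _ _ _ ht' (Or.inl hU) hT' ha' hb')
    · obtain ⟨rfl, rfl⟩ := h.o.sq.uniq ht ht'.symm' (h.o.nE hk.1)
      exact GX.ck_asym e e2
  dsimp only at h0 h1 h4 h5
  have h7 : os ↥(stabilizer ↥(stabilizer H w) (S.fq w O (S.rho w T), S.fq w O (S.rho w a)))
      {k | S.QN w O (S.fq w O (S.rho w T), S.fq w O (S.rho w a)) k} (fun k => c k - 1) = 0 := by
    omega
  refine ⟨by omega, ?_⟩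
  intro l hl
  have h8 := le_os (QN.fin h.o hc hm hn (S.fq w O (S.rho w T), S.fq w O (S.rho w a)))
    (X := fun l => c l - 1)
    (fun g m _ _ => by
      show c (g.1 • m) - 1 = _
      rw [h.ci]) (p := l) hl
  omega

/-- gamma tops which become diamonds have `X = 1` -/
theorem SgH.loc4 {T a : V} {k : S.Q w O × S.Q w O} (h4 : S.P4 hc hm hn (T, a) k) :
    S.P.X T a = 1 ∧ (S.kfP hc w O hm hn).X k.1 k.2 = 1 := by
  have hk' : k ∈ (S.kfP hc w O hm hn).CA := Or.inr (h4.both h.o).1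
  have hN := (h4.not_NA h.o).1
  have h1 := h.eqn hs hk'
  have h0 := P45.le_val (P := S.kfP hc w O hm hn) k
  obtain ⟨hU, b, y, ht, e1, e2, hT, ha, hb, rfl⟩ := h4.data h.o
  rw [pay_P4 h.o h4] at h1
  have h2 := h.lcl T b a y ht.symm' (Or.inr (Or.inl hU)) hT hb ha
  have h3 := h.cor1 T a b y ht hU hT ha hb
  have h5 := h.x1 (T, a) (Or.inl hU)
  have h6 := h.x1' _ hk'
  have h7 := chr_ge h.o h.ci hk'
  have hv : (S.kfP hc w O hm hn).val (S.fq w O (S.rho w T), S.fq w O (S.rho w b)) =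
      3 * ((S.kfP hc w O hm hn).X (S.fq w O (S.rho w T)) (S.fq w O (S.rho w b)) - 1) :=
    P45.val_nU fun k => kf_U_Dm h.o _ k (h4.both h.o).1
  have h8 : os ↥(stabilizer ↥(stabilizer H w) (S.fq w O (S.rho w T), S.fq w O (S.rho w b)))
      {p | S.Ca w O p (S.fq w O (S.rho w T), S.fq w O (S.rho w b))} S.P.val = 0 := by
    refine os_none (G := ↥(stabilizer ↥(stabilizer H w)
      (S.fq w O (S.rho w T), S.fq w O (S.rho w b))))
      (A := {p | S.Ca w O p (S.fq w O (S.rho w T), S.fq w O (S.rho w b))}) ?_ _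
    rintro ⟨T', a'⟩ hp
    obtain ⟨b', y', ht', e', hT', ha', hb', e3⟩ := Ca.loc h.o hp hN
    have f1 := congrArg Prod.fst e3
    have f2 := congrArg Prod.snd e3
    dsimp only at f1 f2
    obtain rfl := h.o.alone hp.1 ht' hT' ha' hb' hT f1
    rcases h.o.sq.sides ht ht'.2.1 with rfl | rfl
    · exact absurd f2.symm (h.o.nab _ _ _ _ ht (Or.inl hU) hT ha hb)
    · obtain ⟨rfl, rfl⟩ := h.o.sq.uniq ht' ht.symm' (h.o.nE (Or.inl hU))
      exact GX.ck_asym e' e2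
  rw [h8, hv] at h1
  dsimp only at h1 h5 h6 ⊢
  omega

/-- gamma tops in case 2 whose partner meets the side at another bad vertex have `X = 1` -/
theorem SgH.gb {T a b y : V} (ht : S.P.Top T a b y) (hU : (T, a) ∈ S.P.U)
    (hg : S.GB w (T, a)) (hT : w ∈ S.J T) (ha : w ∈ S.J a) (hb : w ∈ S.J b) :
    S.P.X T a = 1 ∧ S.P.X T b ≤ 1 := by
  have hp : (T, a) ∈ S.P.CA := Or.inl hU
  have hab := h.o.nab _ _ _ _ ht hp hT ha hb
  -- the two arrows of the diamond top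
  have key : ∀ s s', S.P.Top T s s' y → (s = a ∧ s' = b ∨ s = b ∧ s' = a) → w ∈ S.J s →
      w ∈ S.J s' → S.P.X T s ≤ 1 := by
    intro s s' ts hss ws ws'
    -- it is an open two-pole star
    have hkh : ∃ u, S.KH w O u T a b := by
      rcases ht.pos4 with ⟨p, q, c'⟩ | ⟨p, q, c'⟩ | ⟨p, c'⟩
      · exfalso
        obtain rfl : p = w := S.one_eq (Or.inl ht.2.1) c'.p0 c'.p1 hT ha
        obtain ⟨u, hu⟩ := exists_Bt S.D.tree (Sgm.left p q) c'.ne
        exact h.o.no_cs ht hT ha hb hu.1 (c'.cs0 hu).2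
      · obtain rfl : p = w := S.one_eq (Or.inl ht.2.1) c'.p1 c'.p0 hT ha
        exact h.o.k2 hp ht c'
      · exfalso
        obtain rfl : p = w := S.one_eq (Or.inl ht.2.1) c'.p1 c'.p0 hT ha
        obtain ⟨b1, y1, q1, g1, g2, g3, g4, g5, g6, g7⟩ := hg
        have g1 : S.P.Top T a b1 y1 := g1
        obtain ⟨rfl, rfl⟩ := h.o.sq.uniq ht g1 (h.o.nE hp)
        have g2 : S.K.ar a y := g2
        have g4 : q1 ∈ S.J a := g4
        have g6 : q1 ∉ S.J T := g6
        obtain rfl : q1 = p := S.one_eq (Or.inl g2) g4 g5 c'.p0 c'.p3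
        exact g6 hT
    obtain ⟨u, hkh⟩ := hkh
    have hkh' : S.KH w O u T s s' := by
      rcases hss with ⟨rfl, rfl⟩ | ⟨rfl, rfl⟩
      · exact hkh
      · exact hkh.symm'
    have hss' : S.fq w O (S.rho w s) ≠ S.fq w O (S.rho w s') := by
      rcases hss with ⟨rfl, rfl⟩ | ⟨rfl, rfl⟩
      · exact hab
      · exact hab.symm
    have hk' : (S.fq w O (S.rho w T), S.fq w O (S.rho w s)) ∈ (S.kfP hc w O hm hn).CA :=
      Or.inr (hkh'.Dm h.o.nf hss')
    have hN : ¬ S.NA w O (S.fq w O (S.rho w T), S.fq w O (S.rho w s)) := by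
      rintro ⟨q, hq⟩
      exact hq.ne h.o hp ht hT ha hb rfl
    have h0 : ∀ p, ¬ S.Ca w O p (S.fq w O (S.rho w T), S.fq w O (S.rho w s)) := by
      rintro ⟨T', a'⟩ hp'
      obtain ⟨b', y', ht', e', hT', ha', hb', e3⟩ := Ca.loc h.o hp' hN
      have f1 := congrArg Prod.fst e3
      have f2 := congrArg Prod.snd e3
      dsimp only at f1 f2
      obtain rfl := h.o.alone hp'.1 ht' hT' ha' hb' hT f1
      rcases h.o.sq.sides ht ht'.2.1 with rfl | rfl
      · obtain ⟨-, -, ⟨k1, -⟩ | ⟨b2, y2, -, -, -, -, k2, -⟩⟩ := hp'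
        · exact k1 hg
        · exact k2 hT
      · obtain ⟨rfl, rfl⟩ := h.o.sq.uniq ht' ht.symm' (h.o.nE hp)
        obtain ⟨b1, y1, g1, g2, g3⟩ := hU
        have g1 : S.P.Top T b' b1 y1 := g1
        have g3 : S.K.ar y1 b1 := g3
        obtain ⟨rfl, rfl⟩ := h.o.sq.uniq ht g1 (h.o.nE hp)
        exact GX.ck_asym e' g3
    have h4 : ∀ p, ¬ S.P4 hc hm hn p (S.fq w O (S.rho w T), S.fq w O (S.rho w s)) := by
      rintro ⟨T', a'⟩ hp'
      obtain ⟨hU', b', y', ht', e1, e2, hT', ha', hb', e3⟩ := hp'.data h.o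
      have f1 := congrArg Prod.fst e3
      have f2 := congrArg Prod.snd e3
      dsimp only at f1 f2
      obtain rfl := h.o.alone (Or.inl hU') ht' hT' ha' hb' hT f1
      rcases h.o.sq.sides ht ht'.2.1 with rfl | rfl
      · obtain ⟨-, -, ⟨k1, -⟩ | ⟨b2, y2, -, -, -, -, k2, -⟩⟩ := hp'.1
        · exact k1 hg
        · exact k2 hT
      · obtain ⟨rfl, rfl⟩ := h.o.sq.uniq ht' ht.symm' (h.o.nE hp)
        obtain ⟨b1, y1, g1, g2, g3⟩ := hU
        have g1 : S.P.Top T b' b1 y1 := g1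
        have g3 : S.K.ar y1 b1 := g3
        obtain ⟨rfl, rfl⟩ := h.o.sq.uniq ht g1 (h.o.nE hp)
        exact GX.ck_asym e1 g3
    obtain ⟨z1, -, z3⟩ := h.zero hs hk' h0 hN h4
    have hl := h.lcl T s s' y ts (by
      rcases hss with ⟨rfl, rfl⟩ | ⟨rfl, rfl⟩
      · exact Or.inl hp
      · exact Or.inr hp) hT ws ws'
    dsimp only at z1
    omega
  have k1 := key a b ht (Or.inl ⟨rfl, rfl⟩) ha hb
  have k2 := key b a ht.symm' (Or.inr ⟨rfl, rfl⟩) hb ha
  have k3 := h.x1 (T, a) hp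
  dsimp only at k3
  exact ⟨by omega, k2⟩

end Eq

end SyQ

end Pool.Agent.DI
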