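import Pool.Agent.DI.PzP
import Pool.Agent.DI.HubQ
import Pool.Agent.DI.KpW
import Pool.Agent.DI.Bare
import Pool.Agent.DI.TSd

/-!
# The hypotheses of the laws of `p_4` and `p_5`, open stars

`Psv.pz`: `S.PzH` from `S.Psv` (open stars, placed) and the sinks `t_u` in cells. `ts_of`: the hypothesis
`ts` of Lemma V from [TS]. `Psv.lvg`: the geometric hypotheses `S.LvG` of Lemma V: the folded hubs are bare
and have no corner over `w`.
-/

namespace Pool.Agent.DI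

open MulAction
open Pool.Agent.SAF (InC SA orbs FinOrb oc Decomp SAn Conv hull dist_edge FinOrb_iff exists_next TAct)
open Pool.Agent.SAG (IO Zt)
open Pool.Agent.BT (PX PQ JS bey exits Ell Hyp lz lz_self lz_ne lz_symm x_next_unique)
open Pool.Agent.BT.TA

namespace SyQ

variable {H V : Type} [Group H] [MulAction H V] {S : SyQ H V} {w : S.X} {O : S.OR w}
  {E : V → Prop}

/-- not open means bare -/
theorem Psv.bare_of (h : S.Psv w O E) {u : S.X} {q : V} (hq : w ∈ S.J q) (ho : ¬ O.op u q) :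
    S.P.Bare q := by
  by_contra hb
  exact ho ((h.opn u q).2 ⟨hq, hb⟩)

/-- a local top is not bare -/
theorem Psv.nb_loc (h : S.Psv w O E) {T a b y : V} (ht : S.P.Top T a b y) (hl : S.Loc w T a b y) :
    ¬ S.P.Bare T := fun hb => h.noE _ _ _ _ ht hl (h.bE _ _ _ _ ht hb)

/-- TWO DIAMONDS: BARE -/
theorem Psv.bare_dq (h : S.Psv w O E) {u u' : S.X} {q : V} (hd : S.Dia w u q) (hd' : S.Dia w u' q)
    (hne : u ≠ u') : S.P.Bare q := by
  by_contra hb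
  exact hne (h.nf.n4 u u' q ((h.opn u q).2 ⟨hd.1, hb⟩) hd hd')

/-- THE FIRST HYPOTHESES -/
theorem Psv.pz (h : S.Psv w O E) (tu : ∀ u, (S.kf h.gd.conn w O).VC (S.fq w O (Sum.inr u))) :
    S.PzH h.gd.conn w O := by
  refine h.pzH h.nd ?_ ?_ tu
  · rcases h.alt with k | ⟨u, k⟩
    · exact Or.inl k
    · obtain ⟨w', hw'⟩ := h.mid u k
      exact Or.inr ⟨u, w', k, hw'.mp⟩
  · intro q n g u u' hJ hd hd' hne hpg
    exact ((h.bare_dq hd hd' hne).1 _ hpg.2.1).elim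

/-- [TS] in the form of Lemma V -/
theorem ts_of (hc : S.Conn) (hnb : S.NB) (hts : S.TSp w) (y : V) (u0 : S.X)
    (hu : S.D.G.Adj w u0) (n : V) (hcs : S.Cs w u0 y) (hnw : w ∈ S.J n) (hny : S.K.ar n y) :
    ∃ A, (S.k0 hc w).IJ (S.rho w y) (S.rho w n) A ∧
      (S.k0 hc w).Cor A (S.rho w y) (Sum.inr ⟨u0, hu⟩) := by
  obtain ⟨n', m, h1, h2, h3⟩ := (hts y n hny hcs.1 hnw ⟨u0, hu, hcs.2⟩).1 u0 hu hcs.2
  have hn' : w ∈ S.J n' := (lij_mem h1).1 hnw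
  have e1 : S.rho w y = Sum.inl ⟨y, hcs.1⟩ := S.rho_near hcs.1
  have e2 : S.rho w n = Sum.inl ⟨n, hnw⟩ := S.rho_near hnw
  have e3 : S.rho w n' = Sum.inl ⟨n', hn'⟩ := S.rho_near hn'
  have e4 : S.rho w m = Sum.inr ⟨u0, hu⟩ := S.rho_bey hu h3
  refine ⟨S.rho w n', ?_, ?_⟩
  · rw [e1, e2, e3]
    exact (ij_inl hc hnb).2 h1
  · rw [e1]
    refine (k0_cor_iff hc hnb).2 ⟨n', m, h2, rfl, e4, ?_⟩
    rw [e3]
    exact fun k => by cases k

/-- a bare vertex has no corner over `w` -/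
theorem Psv.bare_cor (h : S.Psv w O E) {y q m : V} (hb : S.P.Bare q) (wq : w ∈ S.J q)
    (wy : w ∈ S.J y) (e : S.K.ar q y) (wm : w ∈ S.J m) : ¬ S.K.Cor q y m := by
  intro hc
  have out : ∀ x, S.K.E x q → S.K.ar q x := fun x hx => hx.resolve_left (hb.1 x)
  rcases corC hc with ⟨z, t, hq⟩ | ⟨r, hq⟩
  · exact hb.2 t y m z (out t hq.E5) e hq.rot.rot.rot.rot
  · obtain ⟨u, hd⟩ := h.two q wq hb
    have hr : w ∈ S.J r := by
      by_contra hr
      exact hd.nc.2 _ (S.dir_adj hr) (S.dir_cross hq.E4.symm wq hr)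
    have k : S.P.Top q r y m := ⟨hq.rot.rot.rot, out r hq.E4, e⟩
    exact h.noE _ _ _ _ k ⟨wq, hr, wy, wm⟩ (h.bE _ _ _ _ k hb)

theorem Psv.bare_ic (h : S.Psv w O E) {hc : S.Conn} {y q : V} {A : S.SV w} (hb : S.P.Bare q)
    (wq : w ∈ S.J q) (wy : w ∈ S.J y) (e : S.K.ar q y) :
    ¬ (S.k0 hc w).IC (S.rho w y) (S.rho w q) A := by
  intro k
  obtain ⟨m, wm, -, rfl⟩ := sar_node wy k.2.2
  rw [S.rho_near wy, S.rho_near wq, S.rho_near wm] at k
  exact h.bare_cor hb wq wy e wm (IC_cor k)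

/-- THE GEOMETRIC HYPOTHESES OF LEMMA V -/
theorem Psv.lvg (h : S.Psv w O E)
    (hx : KX1 (O := O) (k0_min h.gd.conn h.wm) (S.sqN h.gd.conn w O)) (hts : S.TSp w) :
    S.LvG h.gd.conn w O where
  kin := KIn.of h.sq h.noE
  ts := ts_of h.gd.conn (h.nbw h.nd) hts
  leaf := by
    rintro y q wy wq e ⟨u, -, ho⟩ A A' k -
    exact (h.bare_ic (h.bare_of wq ho) wq wy e k).elim
  nself := by
    rintro y q wy wq e ⟨u, -, ho⟩ g hg k
    exact h.bare_ic (h.bare_of wq ho) wq wy e k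
  nsq := by
    rintro y q wy wq e ⟨u, -, ho⟩ m z k wm wz
    exact h.bare_cor (h.bare_of wq ho) wq wy e wm (P45.Q4_cor k)
  old := by
    intro T a b z ht hl
    refine Loc_ne hx h.nf (KIn.of h.sq h.noE) h.nd (h.nbw h.nd) ht hl ?_
    exact h.x1 (T, a) ⟨b, z, ht⟩ (h.nb_loc ht hl)

end SyQ

end Pool.Agent.DI
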