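import Pool.Agent.DI.SkT
import Pool.Agent.DI.PzB
import Pool.Agent.DI.KpW

/-!
# DI/SkP: Lemma SK for a step

`Psv.skh`: the hypotheses `S.SkH w O` of Lemma SK hold for `h : S.Psv w O E`, if the tops of the folded slice
have strands. `Psv.snk_vc`: with [TS] at `w` and a pentagon in `K` every sink of the folded slice is in a
cell; `Psv.tu`: the sinks `t_u`.
-/

namespace Pool.Agent.DI

open MulAction
open Pool.Agent.SAF (InC SA orbs FinOrb oc Decomp SAn Conv hull dist_edge FinOrb_iff exists_next TAct)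
open Pool.Agent.BT (PX PQ JS bey exits Ell Hyp lz lz_self lz_ne lz_symm x_next_unique)
open Pool.Agent.BT.TA

namespace SyQ

variable {H V : Type} [Group H] [MulAction H V] {S : SyQ H V} {w : S.X} {O : S.OR w}
  {E : V → Prop}

/-- a pentagon of `K` has a translate which is centred at `w` -/
theorem Sy1.pen (h : S.Sy1 w) (hp : ∃ i : S.K.I, ¬ S.P.sq i) :
    ∃ a q b y z, Qn S.P a q b y z ∧ S.IsC ![a, q, b, y, z] w := by
  obtain ⟨i, hi⟩ := hp
  obtain ⟨g, hg⟩ := qn_ctr h.gd.conn h.wm (Qn_pt (P := S.P) (1 : H) hi 0)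
  refine ⟨_, _, _, _, _, (Qn_pt (P := S.P) (1 : H) hi 0).smul g⁻¹, ?_⟩
  obtain ⟨h0, h1, h2, h3, h4⟩ := sk_isC' hg
  have key : ∀ x, g • w ∈ S.J x → w ∈ S.J (g⁻¹ • x) := fun x k => by
    have := S.js.smul g⁻¹ _ _ k
    rwa [inv_smul_smul] at this
  exact sk_isC (h0.imp (key _) (key _)) (h1.imp (key _) (key _)) (h2.imp (key _) (key _))
    (h3.imp (key _) (key _)) (h4.imp (key _) (key _))

/-- an open hub with two poles in one zero square has strands -/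
theorem Psv.hst (h : S.Psv w O E) {u : S.X} {q a b : V} (ho : O.op u q) (qa : S.K.ar q a)
    (qb : S.K.ar q b) (hab : a ≠ b) (hQ : S.Qs w u q a b) : S.HSt w q a ∨ S.HSt w q b := by
  obtain ⟨wq, hb⟩ := (h.opn u q).1 ho
  have hnb := h.nbw h.nd
  have hJ : S.J q = {w} := by
    have d : S.Dia w u q := ⟨wq, a, b, hab, qa, qb, Relation.EqvGen.rel _ _ hQ⟩
    exact d.nc.J
  by_cases hn : ∃ n, S.K.ar n q
  · obtain ⟨n, hn⟩ := hn
    exact HSt.of_page qa qb hab hn (h.lc q)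
  push Not at hn
  have hd : ∃ a' b' y z, S.K.ar q a' ∧ S.K.ar q b' ∧ Qn S.P a' q b' y z := by
    by_contra hcon
    push Not at hcon
    exact hb ⟨hn, hcon⟩
  obtain ⟨a', b', y, z, qa', qb', h5⟩ := hd
  have hne : a' ≠ b' := kw_ne hnb h5
  have hI : S.IsC ![a', q, b', y, z] w := by
    have hT : ∀ p ∈ S.J q, p = w := by
      intro p hp
      rw [hJ] at hp
      exact hp
    rcases kw_fiveS hT h5 with k | ⟨u', k, ky, kz⟩
    · exact k
    · exfalso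
      obtain ⟨c, hc⟩ := S.cen (v := ![a', q, b', y, z]) (by
        intro k
        fin_cases k
        exacts [h5.E1, h5.E2, h5.E3, h5.E4, h5.E5])
      have hcb : c ∈ bey S.D.G w u' := by
        rcases hc 3 with r | r
        · exact ky r
        · exact kz r
      exact h.dir q a' b' w u' y z c qa' qb' hne hJ k.adj k.l.2 k.r.2 h5 hc hcb
  have hb' : b' = a ∨ b' = b := by
    rcases S.K.two _ _ _ _ qa qb qb' with e | e | e
    · exact absurd e hab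
    · exact Or.inr e.symm
    · exact Or.inl e.symm
  rcases hb' with rfl | rfl
  · exact Or.inl (Or.inl ⟨a', y, z, h5, Or.inr hI⟩)
  · exact Or.inr (Or.inl ⟨a', y, z, h5, Or.inr hI⟩)

/-- THE HYPOTHESES OF LEMMA SK -/
theorem Psv.skh (h : S.Psv w O E)
    (hx : KX1 (O := O) (k0_min h.gd.conn h.wm) (S.sqN h.gd.conn w O)) : S.SkH w O where
  nf := h.nf
  hub u q a b ho qa qb hab hQ := by
    obtain ⟨wq, hb⟩ := (h.opn u q).1 ho
    exact pp_kept hx h.nd wq (fun u' _ => (h.opn u' q).2 ⟨wq, hb⟩) qa qb hab hQ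
      (h.hst ho qa qb hab hQ)
  loc T a b y ht hl := Loc_ne hx h.nf (KIn.of h.sq h.noE) h.nd (h.nbw h.nd) ht hl
    (h.x1 (T, a) ⟨b, y, ht⟩ (h.nb_loc ht hl))
  nlo T a b y ht hl u _ := (h.opn u T).2 ⟨hl.1, h.nb_loc ht hl⟩
  bare u q wq _ ho := by
    obtain ⟨h1, h2⟩ := h.bare_of wq ho
    refine ⟨h1, fun a b y z h5 => h2 a b y z ?_ ?_ h5⟩
    · exact h5.E1.resolve_left (h1 a)
    · exact h5.E2.resolve_right (h1 b)

/-- EVERY SINK OF THE FOLDED SLICE IS IN A CELL -/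
theorem Psv.snk_vc (h : S.Psv w O E)
    (x1 : ∀ p ∈ (h.kP O).TA, 1 ≤ (h.kP O).X p.1 p.2) (hTS : S.TSp w)
    (hp : ∃ i : S.K.I, ¬ S.P.sq i) (c : S.Q w O) (hs : (S.kf h.gd.conn w O).Snk c) :
    (S.kf h.gd.conn w O).VC c :=
  sk_all (k0_min h.gd.conn h.wm) (S.sqN h.gd.conn w O) (h.nbw h.nd) hTS
    (h.skh (KX1.of _ _ h.nf (KIn.of h.sq h.noE) x1)) h.lc
    (fun y _ => S.K.VC_all h.lc h.bad y) (h.toSy1.pen hp) hs

/-- the sinks `t_u` are in cells -/
theorem Psv.tu (h : S.Psv w O E)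
    (x1 : ∀ p ∈ (h.kP O).TA, 1 ≤ (h.kP O).X p.1 p.2) (hTS : S.TSp w)
    (hp : ∃ i : S.K.I, ¬ S.P.sq i) (u : S.EV w) :
    (S.kf h.gd.conn w O).VC (S.fq w O (Sum.inr u)) :=
  h.snk_vc x1 hTS hp _ (vdz_t_snk h.gd.conn O u)

/-- every sink of the folded slice is in a cell -/
theorem Psv.snk_of (h : S.Psv w O E)
    (x1 : ∀ p ∈ (h.kP O).TA, 1 ≤ (h.kP O).X p.1 p.2) (hTS : S.TSp w) :
    ∀ c, (S.kf h.gd.conn w O).Snk c → (S.kf h.gd.conn w O).VC c :=
  fun c => h.snk_vc x1 hTS h.pe c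

/-- the sinks `t_u` are in cells -/
theorem Psv.tu_of (h : S.Psv w O E)
    (x1 : ∀ p ∈ (h.kP O).TA, 1 ≤ (h.kP O).X p.1 p.2) (hTS : S.TSp w) :
    ∀ u : S.EV w, (S.kf h.gd.conn w O).VC (S.fq w O (Sum.inr u)) :=
  fun u => h.tu x1 hTS h.pe u

end SyQ

end Pool.Agent.DI
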