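import Pool.Agent.DI.PmK
import Pool.Agent.DI.Stc

/-!
# DI/PmK3: the static minimal cut under a tower, in an opened complex

`P.TallA E`: the field `tall` of `P45.Stc`. `OpW.tallS_dn`: a tower with a fat top goes down.
`OpW.tall_up`: the field goes up.
-/

namespace Pool.Agent.DI

open MulAction

/-- the minimal cut is strict under a tower with a fat top: the field `tall` of `P45.Stc` -/
def P45.TallA {H V : Type} [Group H] [MulAction H V] {K : GX H V} (P : P45 K) (E : V → Prop) :
    Prop :=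
  ∀ n x Y, P.PmS n x Y → (∀ y ∈ Y, ¬ E y) → ∀ T0 b s T1, T0 ∈ Y → P.Top T0 n b x →
    K.ar b x → (∀ g : H, g • T0 ∈ Y → g • b = n → g • x = x) → P.Top T1 T0 s n → s ∈ Y →
    P.TallS n Y T1 → P.PmG (fun _ _ => 1) 1 n x Y

namespace OpW

variable {H V W : Type} [Group H] [MulAction H V] [MulAction H W] {K : GX H V} {O : OpW K W}
  {P : P45 K}

/-- a top over a vertex with an arrow to the partner is an old top -/
theorem Ov_dn {T T' m z : W} (h : (O.p45 P).Top T' T m z) (k : O.gx.ar T z) :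
    P.Top (O.π T') (O.π T) (O.π m) (O.π z) := by
  rcases O.Top_π P h with q | q
  · exact q
  · exact absurd k (GX.not_both' (NSq.ar O q).2.2.1)

/-- a top which is not thin and comes from an old top -/
theorem Tn_dn (hv : O.NT P) (hj : ∀ j, O.js j ≠ O.jt j) {T : W} {a b y : V}
    (ht : P.Top (O.π T) a b y) (h : ¬ (O.p45 P).Tn T) : ¬ P.Tn (O.π T) := by
  intro hn
  apply h
  intro a' b' y' k
  have hd := hv.top ht
  rw [O.X_eq P hv (fun x e => O.not_dbl hd e) k.2.1]
  rcases O.Top_π P k with q | q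
  · exact hn _ _ _ q
  · exact absurd (NSq.dbl hj q).1 hd

/-- A TOWER WITH A FAT TOP GOES DOWN -/
theorem tallS_dn (hn : ∀ T a b y, P.Top T a b y → a ≠ b) (hv : O.NT P)
    (hj : ∀ j, O.js j ≠ O.jt j) {n x : W} {Y : Set W}
    (h : (O.p45 P).PmS n x Y) (hd : ∀ y ∈ Y, ¬ O.Dbl y) {T1 : W} {a b y : V}
    (ht : P.Top (O.π T1) a b y) (k : (O.p45 P).TallS n Y T1) :
    P.TallS (O.π n) (O.dn n x Y) (O.π T1) := by
  rcases k with k | ⟨T, T', m, z, k1, k2, k3, k4, k5⟩
  · exact Or.inl (Tn_dn hv hj ht k)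
  · right
    have t := Ov_dn k2 k3
    refine ⟨O.π T, O.π T', O.π m, O.π z, ?_, t, O.ar_π k3, Tn_dn hv hj t k4, ?_⟩
    · clear k2 k3 k4 k5 t
      induction k1 with
      | refl => exact Relation.ReflTransGen.refl
      | tail _ e ih =>
        obtain ⟨m, z, e1, e2⟩ := e
        exact ih.tail ⟨_, _, Ov_dn e1 e2, O.ar_π e2⟩
    · intro g hg
      have dT : ∀ g : H, ¬ O.Dbl (g • T') := fun g hdd => by
        have := hdd.smul g⁻¹
        rw [inv_smul_smul] at this
        exact hv.top t this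
      constructor
      · rintro ⟨j, j1, j2, y, hy, e⟩
        rw [← O.π_smul, ← O.π_smul, ← mul_smul] at e
        have f : y = (j * g) • T' := O.not_dbl (dT (j * g)) e
        have k6 := (k5 (j * g) (by rw [← f]; exact h.yn _ hy)).1 (by rw [← f]; exact hy)
        refine ⟨j, j1, j2, _, k6, ?_⟩
        rw [← O.π_smul, ← O.π_smul, mul_smul]
      · rintro ⟨j, j1, j2, y, hy, e⟩
        rw [← O.π_smul, ← O.π_smul, ← mul_smul] at e
        have f : (j * g) • z = y := O.not_dbl (hd y hy) e.symm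
        have hz : O.gx.ar ((j * g) • z) n := by
          rw [f]
          exact h.yn _ hy
        have hzn : K.ar ((j * g) • O.π z) (O.π n) := by
          rw [← O.π_smul]
          exact O.ar_π hz
        have hTn : K.ar ((j * g) • O.π T') (O.π n) := by
          have := K.ar_smul j _ _ hg
          rwa [j1, ← mul_smul] at this
        have t' := t.smul (j * g)
        have hm : (j * g) • O.π m = O.π n := by
          rcases K.two _ _ _ _ t'.2.1 t'.2.2 hTn with q | q | q
          · exact absurd (smul_left_cancel _ q) (hn _ _ _ _ t)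
          · exact q
          · have q1 := K.ar_smul (j * g) _ _ (O.ar_π k3)
            rw [q] at q1
            exact absurd hzn (GX.not_both' q1)
        have hm' : O.π ((j * g) • m) = O.π n := by rw [O.π_smul, hm]
        have e4 : O.gx.ar ((j * g) • z) ((j * g) • m) :=
          O.ar_of_E (O.gx.E_smul (j * g) k2.Eb.symm) (by rw [hm', O.π_smul]; exact hzn)
        have f2 : (j * g) • m = n := ar_tgt e4 hz hm'
        have k6 := (k5 (j * g) (by
          rw [← f2]
          exact O.gx.ar_smul _ _ _ k2.2.2)).2 (by rw [f]; exact hy)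
        refine ⟨j, j1, j2, _, k6, ?_⟩
        rw [← O.π_smul, ← O.π_smul, mul_smul]

/-- THE STRICT MINIMAL CUT GOES UP -/
theorem tall_up (hn : ∀ T a b y, P.Top T a b y → a ≠ b) (hv : O.NT P)
    (hj : ∀ j, O.js j ≠ O.jt j) (hA : P.TallA (fun _ => False)) :
    (O.p45 P).TallA O.Dbl := by
  intro n x Y h hd T0 b s T1 hT0 ht hb hc ht1 hs hk
  have d0 : ∀ g : H, ¬ O.Dbl (g • T0) := fun g hdd => by
    have := hdd.smul g⁻¹
    rw [inv_smul_smul] at this
    exact hd _ hT0 this
  have t0 : P.Top (O.π T0) (O.π n) (O.π b) (O.π x) := by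
    rcases O.Top_π P ht with q | q
    · exact q
    · exact absurd (NSq.dbl hj q).1 (hd _ hT0)
  have t1 := Ov_dn ht1 (h.yn _ hT0)
  refine pmG_up h hd hv (F := fun _ _ => 1) (fun _ _ _ => rfl) ?_
  have in_dn : ∀ y ∈ Y, O.π y ∈ O.dn n x Y := fun y hy =>
    ⟨1, one_smul _ _, one_smul _ _, y, hy, (one_smul _ _).symm⟩
  refine hA (O.π n) (O.π x) (O.dn n x Y) (pmS_dn h hd) (fun _ _ => not_false) (O.π T0) (O.π b)
    (O.π s) (O.π T1) (in_dn _ hT0) t0 (O.ar_π hb) ?_ t1 (in_dn _ hs)
    (tallS_dn hn hv hj h hd t1 hk)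
  rintro g ⟨j, j1, j2, y, hy, e⟩ hgb
  rw [← O.π_smul, ← O.π_smul, ← mul_smul] at e
  have f : y = (j * g) • T0 := O.not_dbl (d0 (j * g)) e
  have e1 : O.π ((j * g) • b) = O.π n := by rw [O.π_smul, mul_smul, hgb, j1]
  have k1 : O.gx.ar ((j * g) • T0) ((j * g) • b) := O.gx.ar_smul _ _ _ ht.2.2
  have k2 : O.gx.ar ((j * g) • T0) n := by
    rw [← f]
    exact h.yn _ hy
  have e2 : (j * g) • b = n := ar_tgt k1 k2 e1
  have e3 : (j * g) • x = x := hc (j * g) (by rw [← f]; exact hy) e2
  have e4 : (j * g) • O.π x = O.π x := by rw [← O.π_smul, e3]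
  rw [mul_smul] at e4
  have e5 : g • O.π x = j⁻¹ • O.π x := by rw [eq_inv_smul_iff]; exact e4
  rw [e5, inv_smul_eq_iff]
  exact j2.symm

end OpW

end Pool.Agent.DI
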