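import Pool.Agent.DI.CrT
import Pool.Agent.DI.PmK3

/-!
# DI/TallZ: no tower with a fat top over a near star at constant sigma

`SgH.tall61`: the field `tall` of `CrH` from the static strict minimal cut (`P45.TallA`, the field `tall` of
`P45.Stc`).
-/

namespace Pool.Agent.DI

open MulAction
open Pool.Agent.SAF (InC orbs FinOrb oc Decomp SAn SA Conv hull dist_edge FinOrb_iff exists_next
  mk_eq_iff)

/-- one orbit at most: two elements are in one orbit -/
theorem oc_le_one_rel {G Y : Type} [Group G] [MulAction G Y] {s : Set Y} (hf : FinOrb G s)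
    (h : oc G s ≤ 1) {a b : Y} (ha : a ∈ s) (hb : b ∈ s) : ∃ g : G, g • a = b := by
  have h1 : (orbs G s).ncard ≤ 1 := h
  rw [Set.ncard_le_one hf] at h1
  have e := h1 _ ⟨a, ha, rfl⟩ _ ⟨b, hb, rfl⟩
  obtain ⟨g, hg⟩ := mk_eq_iff.1 e
  exact ⟨g⁻¹, by rw [← hg, inv_smul_smul]⟩

namespace SyQ

variable {H V : Type} [Group H] [MulAction H V] {S : SyQ H V} {w u : S.X} {O : S.OR w}
  {n x y : V}

/-- the labels go over to the translates of the star -/
theorem tallS_nYs {T1 : V} (h : S.TallN n (S.Yc w O y) T1) :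
    S.P.TallS n (S.nYs w O n x y) T1 := by
  rcases h with h | ⟨T, T', m, z, h1, h2, h3, h4, h5⟩
  · exact Or.inl h
  · refine Or.inr ⟨T, T', m, z, h1, h2, h3, h4, fun g hg => ?_⟩
    have key : ∀ k : H, k • n = n → (k • g • T' ∈ S.Yc w O y ↔ k • g • z ∈ S.Yc w O y) := by
      intro k hk
      have hg' := S.K.ar_smul k _ _ hg
      rw [hk, ← mul_smul] at hg'
      have := h5 (k * g) hg'
      rwa [mul_smul, mul_smul] at this
    constructor
    · rintro ⟨k, k1, k2, k3⟩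
      exact ⟨k, k1, k2, (key k k1).1 k3⟩
    · rintro ⟨k, k1, k2, k3⟩
      exact ⟨k, k1, k2, (key k k1).2 k3⟩

/-- the number one -/
theorem fx_one {K : GX H V} {P : P45 K} : P.FX (fun _ _ => 1) :=
  ⟨fun _ _ _ => rfl, fun _ _ => le_rfl, fun _ _ _ _ _ _ => le_rfl⟩

variable {hc : S.Conn} {hm : (S.k0 hc w).Min} {hn : S.SqN w O} {E : V → Prop}

/-- NO TOWER WITH A FAT TOP OVER A NEAR STAR: the field `tall` of `CrH` -/
theorem SgH.tall61 (h : S.SgH hc w O hm hn E (S.ck w O))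
    (hs : (S.kfP hc w O hm hn).sigma ≤ S.P.sigma)
    (cor2 : ∀ T a b y z, (S.kfP hc w O hm hn).Top T a b y → (S.kf hc w O).ar a y →
      (a, z) ∈ (S.kfP hc w O hm hn).U → (S.kfP hc w O hm hn).X T a ≤ 1)
    (hnb : S.NB) (eJ : ∀ v, E v → w ∈ S.J v → ∀ p ∈ S.J v, p = w) (hA : S.P.TallA E) :
    ∀ u a y T0 b s T1, S.NSt w u O a y T0 → S.P.Top T0 a b y → ¬ E T0 → S.K.ar b y →
      (∀ g : H, g • T0 ∈ S.Yc w O T0 → g • b = a → g • y = y) →
      S.P.Top T1 T0 s a → s ∈ S.Yc w O T0 → ¬ S.TallN a (S.Yc w O T0) T1 := by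
  intro u a y T0 b s T1 N ht hE eb np ht1 hs1 hT
  have h1 : S.P.PmG (fun _ _ => 1) 1 a y (S.nYs w O a y T0) := by
    refine hA a y (S.nYs w O a y T0) (N.pms h.o.sq h.o.nf) (N.nE h.o.sq eJ h.o.nf) T0 b s T1
      (Yc_sub_nYs _ _ _ _ _ rfl) ht eb ?_ ht1 (Yc_sub_nYs _ _ _ _ _ hs1) (tallS_nYs hT)
    rintro g ⟨k, k1, k2, k3⟩ gb
    have e := np (k * g) (by rw [mul_smul]; exact k3) (by rw [mul_smul, gb, k1])
    rw [mul_smul] at e
    have e2 : g • y = k⁻¹ • y := by rw [eq_inv_smul_iff]; exact e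
    rw [e2, inv_smul_eq_iff]
    exact k2.symm
  have h2 := N.nst61 (hcn := hc) (hm := hm) (hn := hn) hnb h.o fx_one h1
  have h3 := h.sum0 hs cor2 (S.fq w O (S.rho w T0), S.fq w O (S.rho w a))
  have h4 := (h.near hs N.kn)
  have h5 := h.ck_le hs cor2 N.kn
  have h6 := N.ck_ca h.o
  have hCa : S.Ca w O (T0, a) (S.fq w O (S.rho w T0), S.fq w O (S.rho w a)) :=
    (N.ca_iff h.o).2 (Or.inl ⟨rfl, rfl, b, ht⟩)
  have hD : (T0, a) ∈ S.P.Dm := ⟨b, y, ht, N.nx, eb⟩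
  have fC := Ca.fin h.o (S.fq w O (S.rho w T0), S.fq w O (S.rho w a))
  have h7 : os ↥(stabilizer ↥(stabilizer H w) (S.fq w O (S.rho w T0), S.fq w O (S.rho w a)))
        {p | S.Ca w O p (S.fq w O (S.rho w T0), S.fq w O (S.rho w a))}
        (fun p => S.P.X p.1 p.2 - 1) = 0 := by
    refine os_zero' fC ?_
    intro p hp
    obtain ⟨g, hg⟩ := oc_le_one_rel fC (by omega) hCa hp
    have e : S.P.X p.1 p.2 = S.P.X T0 a := by
      rw [← hg]
      exact P45.X_smul g.1.1 T0 a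
    have := h4.2 _ hD hCa
    dsimp only at this
    omega
  have h8 : os ↥(stabilizer ↥(stabilizer H w) (S.fq w O (S.rho w T0), S.fq w O (S.rho w a)))
        {p | S.Ca w O p (S.fq w O (S.rho w T0), S.fq w O (S.rho w a))}
        (fun _ => 1 - 1) = 0 := os_zero' fC fun _ _ => rfl
  have h9 := h4.1
  omega

end SyQ

end Pool.Agent.DI
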