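import Pool.Agent.DI.Xt0

/-!
# Sums over the tops

`oc_fib`: orbits in a fibre; `oc_fib_sum`: the orbits of a set over an invariant set as a sum over the
orbits below. `P.sX A = Σ X`; the bound `sg + sd ≤ 5 * area`; the counting lemma `step_le` for maps of
old top arrows to new ones.
-/

namespace Pool.Agent.DI

open MulAction
open Pool.Agent.SAF (InC orbs FinOrb oc mk_eq_iff FinOrb_iff oc_mono oc_le_of_inj oc_le_of_rel
  oc_le_of_surj)

section Fib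

variable {H : Type} [Group H] {Y Z : Type} [MulAction H Y] [MulAction H Z]

/-- the orbit of a point -/
abbrev omk (H : Type) [Group H] {Z : Type} [MulAction H Z] (z : Z) : orbitRel.Quotient H Z :=
  Quotient.mk'' z

theorem omk_eq {a b : Z} : omk H a = omk H b ↔ ∃ h : H, h • b = a := mk_eq_iff

theorem omk_smul (h : H) (z : Z) : omk H (h • z) = omk H z := omk_eq.2 ⟨h, rfl⟩

theorem mem_orbs {A : Set Z} (hA : ∀ h : H, ∀ z ∈ A, h • z ∈ A) {z : Z} :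
    omk H z ∈ orbs H A ↔ z ∈ A := by
  constructor
  · rintro ⟨y, hy, e⟩
    obtain ⟨h, rfl⟩ := mk_eq_iff.1 e.symm
    exact hA h y hy
  · intro h
    exact ⟨z, h, rfl⟩

/-- orbits in a fibre of an equivariant map -/
theorem oc_fib {π : Y → Z} (hπ : ∀ (h : H) (y : Y), π (h • y) = h • π y) {F : Set Y}
    (hi : ∀ h : H, ∀ y ∈ F, h • y ∈ F) {z : Z} (hf : FinOrb H {y | y ∈ F ∧ omk H (π y) = omk H z}) :
    oc ↥(stabilizer H z) {y | y ∈ F ∧ π y = z} = oc H {y | y ∈ F ∧ omk H (π y) = omk H z} := by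
  have hs : ∀ a ∈ {y | y ∈ F ∧ π y = z}, a ∈ {y | y ∈ F ∧ omk H (π y) = omk H z} := by
    rintro a ⟨ha, e⟩
    exact ⟨ha, by rw [e]⟩
  have hinj : ∀ a ∈ {y | y ∈ F ∧ π y = z}, ∀ b ∈ {y | y ∈ F ∧ π y = z},
      (∃ h : H, h • a = b) → ∃ h : ↥(stabilizer H z), h • a = b := by
    rintro a ⟨-, ha⟩ b ⟨-, hb⟩ ⟨h, rfl⟩
    refine ⟨⟨h, ?_⟩, rfl⟩
    rw [hπ, ha] at hb
    exact hb
  have hfs : FinOrb ↥(stabilizer H z) {y | y ∈ F ∧ π y = z} :=
    Pool.Agent.SAF.FinOrb.of_inj hf (fun y => y) hs hinj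
  apply le_antisymm
  · exact oc_le_of_inj hf (fun y => y) hs hinj
  · refine oc_le_of_surj hfs (fun y => y) ?_ ?_
    · rintro b ⟨hb, e⟩
      obtain ⟨h, hh⟩ := omk_eq.1 e
      refine ⟨h⁻¹ • b, ⟨hi _ _ hb, ?_⟩, h, smul_inv_smul h b⟩
      rw [hπ, ← hh, inv_smul_smul]
    · rintro a - b - ⟨h, rfl⟩
      exact ⟨h.1, rfl⟩

/-- the sum over the orbits below -/
theorem oc_fib_sum {π : Y → Z} (hπ : ∀ (h : H) (y : Y), π (h • y) = h • π y) {F : Set Y}
    {A : Set Z} (hi : ∀ h : H, ∀ z ∈ A, h • z ∈ A) (hf : FinOrb H {y | y ∈ F ∧ π y ∈ A})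
    (hA : (orbs H A).Finite) :
    oc H {y | y ∈ F ∧ π y ∈ A} = ∑ c ∈ hA.toFinset, oc H {y | y ∈ F ∧ omk H (π y) = c} := by
  classical
  have hf' : (orbs H {y | y ∈ F ∧ π y ∈ A}).Finite := hf
  let q : orbitRel.Quotient H Y → orbitRel.Quotient H Z := fun c =>
    Quotient.liftOn' c (fun y => omk H (π y)) (fun a b h => by
      obtain ⟨g, hg⟩ := h
      have hg : g • b = a := hg
      rw [← hg, hπ, omk_smul])
  have hq : ∀ y, q (omk H y) = omk H (π y) := fun y => rfl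
  have h1 : oc H {y | y ∈ F ∧ π y ∈ A} = hf'.toFinset.card := by
    unfold oc
    exact Set.ncard_eq_toFinset_card _ hf'
  rw [h1, Finset.card_eq_sum_card_fiberwise (f := q) (t := hA.toFinset)]
  · apply Finset.sum_congr rfl
    intro c hc
    rw [Set.Finite.mem_toFinset] at hc
    unfold oc
    rw [← Set.ncard_coe_finset]
    congr 1
    ext d
    rw [Finset.coe_filter]
    constructor
    · rintro ⟨hd, e⟩
      rw [Set.Finite.mem_toFinset] at hd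
      obtain ⟨y, ⟨hy, -⟩, rfl⟩ := hd
      exact ⟨y, ⟨hy, e⟩, rfl⟩
    · rintro ⟨y, ⟨hy, e⟩, rfl⟩
      refine ⟨?_, e⟩
      rw [Set.Finite.mem_toFinset]
      refine ⟨y, ⟨hy, ?_⟩, rfl⟩
      rw [← e] at hc
      exact (mem_orbs hi).1 hc
  · intro d hd
    have hd : d ∈ hf'.toFinset := hd
    rw [Set.Finite.mem_toFinset] at hd
    obtain ⟨y, ⟨-, hy⟩, rfl⟩ := hd
    show _ ∈ hA.toFinset
    rw [Set.Finite.mem_toFinset]
    exact ⟨π y, hy, rfl⟩

end Fib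

theorem sum_pred_le {ι : Type} (s : Finset ι) (X : ι → ℕ) :
    ∑ i ∈ s, (X i - 1) ≤ (∑ i ∈ s, X i) - 1 := by
  classical
  induction s using Finset.induction_on with
  | empty => simp
  | insert a s ha ih =>
    rw [Finset.sum_insert ha, Finset.sum_insert ha]
    omega

theorem sum_pred_add {ι : Type} (s : Finset ι) (X : ι → ℕ) (h : ∀ i ∈ s, 1 ≤ X i) :
    ∑ i ∈ s, (X i - 1) + s.card = ∑ i ∈ s, X i := by
  classical
  induction s using Finset.induction_on with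
  | empty => simp
  | insert a s ha ih =>
    rw [Finset.sum_insert ha, Finset.sum_insert ha, Finset.card_insert_of_notMem ha,
      ← ih (fun i hi => h i (Finset.mem_insert_of_mem hi))]
    have := h a (Finset.mem_insert_self a s)
    omega

/-- THE COUNTING LEMMA: the strands over the fibres of `φ` are at most the strands below -/
theorem sum_sub_le {ι κ : Type} (s : Finset ι) (t : Finset κ) [DecidableEq κ] (X : ι → ℕ) (Y : κ → ℕ)
    (φ : ι → κ) (hφ : ∀ i ∈ s, φ i ∈ t)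
    (h : ∀ k ∈ t, ∑ i ∈ s.filter (fun i => φ i = k), X i ≤ Y k) :
    ∑ i ∈ s, (X i - 1) ≤ ∑ k ∈ t, (Y k - 1) := by
  rw [← Finset.sum_fiberwise_of_maps_to hφ]
  apply Finset.sum_le_sum
  intro k hk
  have h1 := h k hk
  have h3 := sum_pred_le (s.filter (fun i => φ i = k)) X
  omega

/-- the equality case of the counting lemma: no births, no mergers -/
theorem sum_sub_eq {ι κ : Type} (s : Finset ι) (t : Finset κ) [DecidableEq κ] (X : ι → ℕ) (Y : κ → ℕ)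
    (φ : ι → κ) (hφ : ∀ i ∈ s, φ i ∈ t) (hX : ∀ i ∈ s, 1 ≤ X i) (hY : ∀ k ∈ t, 2 ≤ Y k)
    (h : ∀ k ∈ t, ∑ i ∈ s.filter (fun i => φ i = k), X i ≤ Y k)
    (he : ∑ k ∈ t, (Y k - 1) ≤ ∑ i ∈ s, (X i - 1)) :
    ∀ k ∈ t, ∃ i ∈ s, φ i = k ∧ X i = Y k ∧ ∀ j ∈ s, φ j = k → j = i := by
  have hle : ∀ k ∈ t, ∑ i ∈ s.filter (fun i => φ i = k), (X i - 1) ≤ Y k - 1 := by
    intro k hk
    have h1 := h k hk
    have h3 := sum_pred_le (s.filter (fun i => φ i = k)) X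
    omega
  have heq : ∑ k ∈ t, ∑ i ∈ s.filter (fun i => φ i = k), (X i - 1) = ∑ k ∈ t, (Y k - 1) := by
    apply le_antisymm (Finset.sum_le_sum hle)
    rw [Finset.sum_fiberwise_of_maps_to hφ]
    exact he
  intro k hk
  have h1 := (Finset.sum_eq_sum_iff_of_le hle).1 heq k hk
  have h2 := sum_pred_add (s.filter (fun i => φ i = k)) X
    (fun i hi => hX i (Finset.mem_of_mem_filter i hi))
  have h3 := h k hk
  have h4 := hY k hk
  have h5 : (s.filter (fun i => φ i = k)).card ≠ 0 := by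
    intro h0
    rw [Finset.card_eq_zero.1 h0, Finset.sum_empty] at h1
    omega
  have h6 : (s.filter (fun i => φ i = k)).card = 1 := by omega
  obtain ⟨i, hi⟩ := Finset.card_eq_one.1 h6
  have hi' : i ∈ s.filter (fun i => φ i = k) := by rw [hi]; exact Finset.mem_singleton_self i
  rw [Finset.mem_filter] at hi'
  refine ⟨i, hi'.1, hi'.2, ?_, ?_⟩
  · rw [hi, Finset.sum_singleton] at h1 h3
    have := hX i hi'.1
    omega
  · intro j hj e
    have : j ∈ s.filter (fun i => φ i = k) := Finset.mem_filter.2 ⟨hj, e⟩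
    rw [hi] at this
    exact Finset.mem_singleton.1 this

namespace P45

variable {H V : Type} [Group H] [MulAction H V] {K : GX H V} {P : P45 K}

/-! ### invariance -/

theorem fy_smul (h : H) (f : FL K) : fy (h • f) = h • fy f := K.c1_smul h f.1

theorem fz_smul (h : H) (f : FL K) : fz (h • f) = h • fz f := by
  obtain ⟨e, b⟩ := f
  cases b
  · exact K.c0_smul h e
  · exact K.c2_smul h e

theorem fyz_smul (h : H) (f : FL K) : (fy (h • f), fz (h • f)) = h • (fy f, fz f) :=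
  Prod.ext (fy_smul h f) (fz_smul h f)

theorem RP_smul (h : H) : ∀ f ∈ P.RP, h • f ∈ P.RP := by
  rintro f ⟨h1, h2⟩
  refine ⟨h1, ?_⟩
  rw [fy_smul, fz_smul]
  exact K.ar_smul h _ _ h2

theorem ZP_smul (h : H) : ∀ p ∈ P.ZP, h • p ∈ P.ZP := by
  rintro p ⟨h1, h2, h3⟩
  exact ⟨h1.smul h, K.ar_smul h _ _ h2, K.ar_smul h _ _ h3⟩

theorem TA_smul (h : H) : ∀ p ∈ P.TA, h • p ∈ P.TA := by
  rintro p ⟨b, y, k⟩
  exact ⟨h • b, h • y, k.smul h⟩

theorem gam_smul (h : H) {T : V} (k : P.gam T) : P.gam (h • T) := by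
  obtain ⟨a, b, y, k1, k2⟩ := k
  exact ⟨h • a, h • b, h • y, k1.smul h, K.ar_smul h _ _ k2⟩

theorem gam_smul_iff (h : H) {T : V} : P.gam (h • T) ↔ P.gam T := by
  constructor
  · intro k
    have := gam_smul h⁻¹ k
    rwa [inv_smul_smul] at this
  · exact gam_smul h

theorem TG_smul (h : H) : ∀ p ∈ P.TG, h • p ∈ P.TG := by
  rintro p ⟨h1, h2⟩
  exact ⟨TA_smul h p h1, gam_smul h h2⟩

theorem TD_smul (h : H) : ∀ p ∈ P.TD, h • p ∈ P.TD := by
  rintro p ⟨h1, h2⟩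
  exact ⟨TA_smul h p h1, fun k => h2 ((gam_smul_iff h).1 k)⟩

theorem U_smul (h : H) : ∀ p ∈ P.U, h • p ∈ P.U := by
  rintro p ⟨b, y, k, k1, k2⟩
  exact ⟨h • b, h • y, k.smul h, K.ar_smul h _ _ k1, K.ar_smul h _ _ k2⟩

theorem Dm_smul (h : H) : ∀ p ∈ P.Dm, h • p ∈ P.Dm := by
  rintro p ⟨b, y, k, k1, k2⟩
  exact ⟨h • b, h • y, k.smul h, K.ar_smul h _ _ k1, K.ar_smul h _ _ k2⟩

theorem U_sub : P.U ⊆ P.TA := fun _ ⟨b, y, k, _⟩ => ⟨b, y, k⟩

theorem Dm_sub : P.Dm ⊆ P.TA := fun _ ⟨b, y, k, _⟩ => ⟨b, y, k⟩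

theorem TA_symm {T a b y : V} (h : P.Top T a b y) : (T, a) ∈ P.TA ∧ (T, b) ∈ P.TA :=
  ⟨⟨b, y, h⟩, ⟨a, y, h.symm'⟩⟩

/-! ### finiteness -/

theorem fin_FL : FinOrb H (Set.univ : Set (FL K)) := by
  obtain ⟨F, hF, -, hc⟩ := FinOrb_iff.1 K.fin_LE
  refine FinOrb_iff.2 ⟨F ×ˢ Set.univ, hF.prod Set.finite_univ, fun _ _ => trivial, ?_⟩
  rintro ⟨e, b⟩ -
  obtain ⟨f, hf, h, rfl⟩ := hc e trivial
  exact ⟨(f, b), ⟨hf, trivial⟩, h, rfl⟩

theorem fin_RP : FinOrb H P.RP := fin_FL.mono (Set.subset_univ _)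

theorem fin_ZP : FinOrb H P.ZP := by
  have := K.finI
  let F : K.I × Fin 4 × Bool → (V × V) × (V × V) := fun x =>
    if x.2.2 = true then ((P.qt x.1 (x.2.1 + 1), P.qt x.1 (x.2.1 + 2)),
      (P.qt x.1 (x.2.1 + 3), P.qt x.1 x.2.1))
    else ((P.qt x.1 (x.2.1 + 1), P.qt x.1 x.2.1), (P.qt x.1 (x.2.1 + 3), P.qt x.1 (x.2.1 + 2)))
  have h : FinOrb H {p : (V × V) × (V × V) | Q4 P p.2.2 p.1.1 p.1.2 p.2.1} := by
    refine FinOrb_iff.2 ⟨F '' {x | P.sq x.1}, (Set.toFinite _).image _, ?_, ?_⟩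
    · rintro _ ⟨⟨i, j, b⟩, hi, rfl⟩
      have hi : P.sq i := hi
      have k := Q4_qt (1 : H) hi j
      simp only [one_smul] at k
      cases b
      · exact k.symm
      · exact k
    · rintro ⟨⟨T, a⟩, ⟨q, n⟩⟩ ⟨g, i, j, hi, k | k⟩
      · obtain ⟨rfl, rfl, rfl, rfl⟩ := k
        exact ⟨_, ⟨(i, j, true), hi, rfl⟩, g, rfl⟩
      · obtain ⟨rfl, rfl, rfl, rfl⟩ := k
        exact ⟨_, ⟨(i, j, false), hi, rfl⟩, g, rfl⟩
  exact h.mono fun _ k => k.1

theorem fin_TA : FinOrb H P.TA := by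
  have h : FinOrb H {p : V × V | K.E p.1 p.2} := K.fin_E
  exact h.mono (fun p ⟨_, _, k⟩ => Or.inl k.2.1)

theorem fin_of {A : Set (V × V)} (hA : A ⊆ P.TA) : FinOrb H A := fin_TA.mono hA

theorem fin_TG : FinOrb H P.TG := fin_TA.mono fun _ k => k.1

theorem fin_TD : FinOrb H P.TD := fin_TA.mono fun _ k => k.1

/-! ### the strands of an orbit of arrows -/

variable (P)

/-- the strands of an orbit of arrows -/
noncomputable def Xo (c : orbitRel.Quotient H (V × V)) : ℕ :=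
  oc H {f : FL K | f ∈ P.RP ∧ omk H (fy f, fz f) = c} +
    oc H {p : (V × V) × (V × V) | p ∈ P.ZP ∧ omk H p.1 = c}

variable {P}

theorem X_eq (T a : V) : P.X T a = P.Xo (omk H (T, a)) := by
  unfold X Xo
  congr 1
  · exact oc_fib (π := fun f : FL K => (fy f, fz f)) (F := P.RP) (fun h f => fyz_smul h f)
      (fun h f hf => RP_smul h f hf) (fin_RP.mono fun _ k => k.1)
  · exact oc_fib (π := fun p : (V × V) × (V × V) => p.1) (F := P.ZP) (fun h p => rfl)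
      (fun h f hf => ZP_smul h f hf) (fin_ZP.mono fun _ k => k.1)

theorem X_smul (h : H) (T a : V) : P.X (h • T) (h • a) = P.X T a := by
  rw [X_eq, X_eq]
  exact congrArg P.Xo (omk_smul h (T, a))

theorem sX_eq {A : Set (V × V)} (hi : ∀ h : H, ∀ p ∈ A, h • p ∈ A) (hA : (orbs H A).Finite) :
    P.sX A = ∑ c ∈ hA.toFinset, P.Xo c := by
  unfold sX Xo
  rw [Finset.sum_add_distrib]
  congr 1
  · exact oc_fib_sum (π := fun f : FL K => (fy f, fz f)) (F := P.RP) (fun h f => fyz_smul h f)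
      hi (fin_RP.mono fun _ k => k.1) hA
  · exact oc_fib_sum (π := fun p : (V × V) × (V × V) => p.1) (F := P.ZP) (fun h p => rfl)
      hi (fin_ZP.mono fun _ k => k.1) hA

/-- the sum of `X - 1` -/
theorem sub_eq {A : Set (V × V)} (hi : ∀ h : H, ∀ p ∈ A, h • p ∈ A) (hA : (orbs H A).Finite)
    (h1 : ∀ p ∈ A, 1 ≤ P.X p.1 p.2) : P.sX A - oc H A = ∑ c ∈ hA.toFinset, (P.Xo c - 1) := by
  have h2 : ∀ c ∈ hA.toFinset, 1 ≤ P.Xo c := by
    intro c hc
    rw [Set.Finite.mem_toFinset] at hc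
    obtain ⟨p, hp, rfl⟩ := hc
    rw [← X_eq]
    exact h1 p hp
  have h3 := sum_pred_add hA.toFinset P.Xo h2
  have h4 : oc H A = hA.toFinset.card := Set.ncard_eq_toFinset_card _ hA
  rw [sX_eq hi hA, ← h3, h4]
  omega

theorem oc_le_sX {A : Set (V × V)} (hi : ∀ h : H, ∀ p ∈ A, h • p ∈ A) (hA : (orbs H A).Finite)
    (h1 : ∀ p ∈ A, 1 ≤ P.X p.1 p.2) : oc H A ≤ P.sX A := by
  have h2 : ∀ c ∈ hA.toFinset, 1 ≤ P.Xo c := by
    intro c hc
    rw [Set.Finite.mem_toFinset] at hc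
    obtain ⟨p, hp, rfl⟩ := hc
    rw [← X_eq]
    exact h1 p hp
  have h3 := sum_pred_add hA.toFinset P.Xo h2
  have h4 : oc H A = hA.toFinset.card := Set.ncard_eq_toFinset_card _ hA
  rw [sX_eq hi hA, ← h3, h4]
  omega

end P45

end Pool.Agent.DI
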