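import Pool.Agent.DI.Nq
import Pool.Agent.DI.Xt
import Pool.Agent.DI.QK0P

/-!
# Fat softs and plain strands

`P45.fat_iff`: a vertex is fat (`FC.Fat`) iff `2 ≤ P.X y a` at a pole `a`.
-/

namespace Pool.Agent.DI

open MulAction
open Pool.Agent.SAF (InC orbs FinOrb oc mk_eq_iff FinOrb_iff)

section

variable {G Y : Type} [Group G] [MulAction G Y]

theorem one_le_oc50 {s : Set Y} (hf : FinOrb G s) : 1 ≤ oc G s ↔ s.Nonempty := by
  have h : 1 ≤ oc G s ↔ (orbs G s).Nonempty := (Set.ncard_pos hf)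
  rw [h]
  exact Set.image_nonempty

theorem two_le_oc50 {s : Set Y} (hf : FinOrb G s) :
    2 ≤ oc G s ↔ ∃ a ∈ s, ∃ b ∈ s, ∀ g : G, g • a ≠ b := by
  have h : 2 ≤ oc G s ↔ ∃ a b, a ∈ orbs G s ∧ b ∈ orbs G s ∧ a ≠ b := Set.one_lt_ncard_iff hf
  rw [h]
  constructor
  · rintro ⟨_, _, ⟨a, ha, rfl⟩, ⟨b, hb, rfl⟩, hne⟩
    refine ⟨a, ha, b, hb, ?_⟩
    rintro g rfl
    exact hne (mk_eq_iff.2 ⟨g⁻¹, inv_smul_smul g a⟩)
  · rintro ⟨a, ha, b, hb, hne⟩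
    refine ⟨_, _, ⟨a, ha, rfl⟩, ⟨b, hb, rfl⟩, ?_⟩
    intro e
    obtain ⟨g, hg⟩ := mk_eq_iff.1 e.symm
    exact hne g hg

end

namespace P45

variable {H V : Type} [Group H] [MulAction H V] {K : GX H V} (P : P45 K)

theorem nx_l4 (i : K.I) (hi : P.sq i) (j : Fin 4) (h : H) :
    K.nx (P.l4 i hi j h) = P.l4 i hi (j + 1) h := by
  have h4 := P.len4 hi
  refine Prod.ext (Sigma.ext rfl (heq_of_eq ?_)) rfl
  apply Fin.ext
  show (j.1 + 1) % K.len i = (j + 1).1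
  rw [h4]
  rfl

theorem pv_l4 (i : K.I) (hi : P.sq i) (j : Fin 4) (h : H) :
    K.pv (P.l4 i hi j h) = P.l4 i hi (j + 3) h := by
  have h4 := P.len4 hi
  refine Prod.ext (Sigma.ext rfl (heq_of_eq ?_)) rfl
  apply Fin.ext
  show (j.1 + (K.len i - 1)) % K.len i = (j + 3).1
  rw [h4]
  rfl

theorem sq_l4 {e : K.LE} (he : P.sq e.1.1) : ∃ i hi j h, e = P.l4 i hi j h := by
  rcases P.l_cases e with ⟨i, hi, j, h, rfl⟩ | h
  · exact absurd he hi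
  · exact h

variable {P} (nd : P.ND)

/-- the walk of a flag of a square -/
theorem fl_Q450 {f : FL K} (hf : (P.fc nd).sq f) : Q4 P ((P.fc nd).x f) ((P.fc nd).y f)
    ((P.fc nd).z f) ((P.fc nd).z ((P.fc nd).r f)) := by
  obtain ⟨e, b⟩ := f
  obtain ⟨i, hi, j, h, rfl⟩ := P.sq_l4 (e := e) hf
  cases b
  · show Q4 P ((P.fc nd).x (P.l4 i hi j h, false)) (K.c1 (P.l4 i hi j h))
      ((P.fc nd).z (P.l4 i hi j h, false)) ((P.fc nd).z (K.pv (P.l4 i hi j h), false))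
    rw [P.fc_x', P.fc_z', P.fc_z', pv_l4, c0_4, c1_4, c2_4, c0_4]
    have k := (Q4_qt h hi j).symm
    exact k
  · show Q4 P ((P.fc nd).x (P.l4 i hi j h, true)) (K.c1 (P.l4 i hi j h))
      ((P.fc nd).z (P.l4 i hi j h, true)) ((P.fc nd).z (K.nx (P.l4 i hi j h), true))
    rw [P.fc_x, P.fc_z, P.fc_z, nx_l4, c0_4, c1_4, c2_4, c2_4]
    have k := Q4_qt h hi j
    have e3 : j + 1 + 2 = j + 3 := by rw [add_assoc]; rfl
    rw [e3]
    exact k

/-- every walk of a square is the walk of a flag -/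
theorem Q4_fl50 {a q b y : V} (h : Q4 P a q b y) : ∃ f : FL K, (P.fc nd).sq f ∧
    (P.fc nd).x f = a ∧ (P.fc nd).y f = q ∧ (P.fc nd).z f = b ∧
    (P.fc nd).z ((P.fc nd).r f) = y := by
  obtain ⟨g, i, j, hi, ⟨rfl, rfl, rfl, rfl⟩ | ⟨rfl, rfl, rfl, rfl⟩⟩ := h
  · refine ⟨(P.l4 i hi j g, true), hi, ?_, ?_, ?_, ?_⟩
    · rw [P.fc_x, c0_4]
    · exact P.c1_4 i hi j g
    · rw [P.fc_z, c2_4]
    · show (P.fc nd).z (K.nx (P.l4 i hi j g), true) = _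
      rw [P.fc_z, nx_l4, c2_4]
      have e3 : j + 1 + 2 = j + 3 := by rw [add_assoc]; rfl
      rw [e3]
  · refine ⟨(P.l4 i hi j g, false), hi, ?_, ?_, ?_, ?_⟩
    · rw [P.fc_x', c2_4]
    · exact P.c1_4 i hi j g
    · rw [P.fc_z', c0_4]
    · show (P.fc nd).z (K.pv (P.l4 i hi j g), false) = _
      rw [P.fc_z', pv_l4, c0_4]

theorem fc_fz (f : FL K) : (P.fc nd).z f = fz f := by
  obtain ⟨e, b⟩ := f
  cases b
  · rw [P.fc_z']
    rfl
  · rw [P.fc_z]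
    rfl

/-- the walk of a flag along an arrow -/
theorem zp_of_fl {f : FL K} (hf : (P.fc nd).sq f) (h1 : K.ar ((P.fc nd).y f) ((P.fc nd).z f))
    (h2 : ¬ (P.fc nd).Ow f) : (((P.fc nd).y f, (P.fc nd).z f),
      ((P.fc nd).z ((P.fc nd).r f), (P.fc nd).x f)) ∈ P.ZP := by
  refine ⟨P.fl_Q450 nd hf, h1, ?_⟩
  rcases (P.fc nd).Ex f with k | k
  · exact absurd ⟨hf, k, h1⟩ h2
  · exact k

/-- A VERTEX IS FAT IFF IT HAS TWO PLAIN STRANDS AT A POLE -/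
theorem fat_iff (y : V) : (P.fc nd).Fat y ↔ ∃ a, K.ar y a ∧ 2 ≤ P.X y a := by
  have finA : ∀ a, FinOrb ↥(stabilizer H ((y, a) : V × V))
      {f : FL K | f ∈ P.RP ∧ (fy f, fz f) = (y, a)} := by
    intro a
    refine Pool.Agent.SAF.FinOrb.of_inj (fin_RP (P := P)) (fun f => f) (fun f hf => hf.1) ?_
    rintro f ⟨-, hf⟩ f' ⟨-, hf'⟩ ⟨h, rfl⟩
    refine ⟨⟨h, ?_⟩, rfl⟩
    rw [fyz_smul, hf] at hf'
    exact hf'
  have finB : ∀ a, FinOrb ↥(stabilizer H ((y, a) : V × V))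
      {p : (V × V) × (V × V) | p ∈ P.ZP ∧ p.1 = (y, a)} := by
    intro a
    refine Pool.Agent.SAF.FinOrb.of_inj (fin_ZP (P := P)) (fun f => f) (fun f hf => hf.1) ?_
    rintro f ⟨-, hf⟩ f' ⟨-, hf'⟩ ⟨h, rfl⟩
    refine ⟨⟨h, ?_⟩, rfl⟩
    have : h • f.1 = (y, a) := hf'
    rw [hf] at this
    exact this
  have hX : ∀ a, 2 ≤ P.X y a ↔ (∃ f ∈ {f : FL K | f ∈ P.RP ∧ (fy f, fz f) = (y, a)},
      ∃ f' ∈ {f : FL K | f ∈ P.RP ∧ (fy f, fz f) = (y, a)},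
        ∀ g : ↥(stabilizer H ((y, a) : V × V)), g • f ≠ f') ∨
      (∃ p ∈ {p : (V × V) × (V × V) | p ∈ P.ZP ∧ p.1 = (y, a)},
      ∃ p' ∈ {p : (V × V) × (V × V) | p ∈ P.ZP ∧ p.1 = (y, a)},
        ∀ g : ↥(stabilizer H ((y, a) : V × V)), g • p ≠ p') ∨
      ({f : FL K | f ∈ P.RP ∧ (fy f, fz f) = (y, a)}.Nonempty ∧
      {p : (V × V) × (V × V) | p ∈ P.ZP ∧ p.1 = (y, a)}.Nonempty) := by
    intro a
    rw [← two_le_oc50 (finA a), ← two_le_oc50 (finB a), ← one_le_oc50 (finA a),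
      ← one_le_oc50 (finB a)]
    unfold P45.X
    omega
  have nsm : ∀ f f' : FL K, ¬ (P.fc nd).sq f → (P.fc nd).Sm f f' → f = f' := by
    rintro f f' h1 (h | ⟨h, -⟩)
    · exact h
    · exact absurd h h1
  have nsm' : ∀ f f' : FL K, ¬ (P.fc nd).sq f' → (P.fc nd).Sm f f' → f = f' := by
    rintro f f' h1 (h | ⟨-, h, -⟩)
    · exact h
    · exact absurd h h1
  have sqs : ∀ (h : H) (f : FL K), (P.fc nd).sq (h • f) ↔ (P.fc nd).sq f :=
    fun h f => (P.fc nd).sq_smul h f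
  constructor
  · rintro ⟨e, e', h1, h2, h3, h4, o1, o2, h5⟩
    refine ⟨(P.fc nd).z e, h3, (hX _).2 ?_⟩
    have a3 : K.ar ((P.fc nd).y e) ((P.fc nd).z e) := by rw [h1]; exact h3
    have a3' : K.ar ((P.fc nd).y e') ((P.fc nd).z e') := by rw [h2, h4]; exact h3
    by_cases q1 : (P.fc nd).sq e <;> by_cases q2 : (P.fc nd).sq e'
    · right
      left
      have k1 := P.zp_of_fl nd q1 a3 o1
      have k2 := P.zp_of_fl nd q2 a3' o2
      refine ⟨_, ⟨k1, by rw [h1]⟩, _, ⟨k2, by rw [h2, h4]⟩, ?_⟩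
      intro g hg
      apply h5 g.1
      have e1 := congrArg (fun p => p.1.1) hg
      have e2 := congrArg (fun p => p.1.2) hg
      have e3 := congrArg (fun p => p.2.1) hg
      have e4 := congrArg (fun p => p.2.2) hg
      refine Or.inr ⟨(sqs _ _).2 q1, q2, ?_, ?_, ?_, ?_⟩
      · rw [FC.x_smul]
        exact e4
      · rw [FC.y_smul]
        exact e1
      · rw [FC.z_smul]
        exact e2
      · rw [FC.r_smul, FC.z_smul]
        exact e3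
    · right
      right
      refine ⟨⟨e', ⟨q2, ?_⟩, ?_⟩, ⟨_, P.zp_of_fl nd q1 a3 o1, by rw [h1]⟩⟩
      · rw [← P.fc_fz nd]
        exact a3'
      · rw [← P.fc_fz nd, h4]
        exact Prod.ext h2 rfl
    · right
      right
      refine ⟨⟨e, ⟨q1, ?_⟩, ?_⟩, ⟨_, P.zp_of_fl nd q2 a3' o2, by rw [h2, h4]⟩⟩
      · rw [← P.fc_fz nd]
        exact a3
      · rw [← P.fc_fz nd]
        exact Prod.ext h1 rfl
    · left
      refine ⟨e, ⟨⟨q1, ?_⟩, ?_⟩, e', ⟨⟨q2, ?_⟩, ?_⟩, ?_⟩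
      · rw [← P.fc_fz nd]
        exact a3
      · rw [← P.fc_fz nd]
        exact Prod.ext h1 rfl
      · rw [← P.fc_fz nd]
        exact a3'
      · rw [← P.fc_fz nd, h4]
        exact Prod.ext h2 rfl
      · intro g hg
        exact h5 g.1 (Or.inl hg)
  · rintro ⟨a, ha, hXa⟩
    have pent : ∀ f : FL K, f ∈ P.RP → (fy f, fz f) = (y, a) → (P.fc nd).y f = y ∧
        (P.fc nd).z f = a ∧ ¬ (P.fc nd).Ow f ∧ ¬ (P.fc nd).sq f := by
      intro f hf e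
      refine ⟨congrArg Prod.fst e, ?_, fun k => hf.1 k.1, hf.1⟩
      rw [P.fc_fz nd]
      exact congrArg Prod.snd e
    have walk : ∀ p : (V × V) × (V × V), p ∈ P.ZP → p.1 = (y, a) → ∃ f : FL K,
        (P.fc nd).sq f ∧ (P.fc nd).y f = y ∧ (P.fc nd).z f = a ∧ ¬ (P.fc nd).Ow f ∧
        (P.fc nd).x f = p.2.2 ∧ (P.fc nd).z ((P.fc nd).r f) = p.2.1 := by
      rintro ⟨⟨y', a'⟩, ⟨q, n⟩⟩ ⟨k1, k2, k3⟩ e
      have e1 : y' = y := congrArg Prod.fst e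
      have e2 : a' = a := congrArg Prod.snd e
      subst e1
      subst e2
      obtain ⟨f, f1, f2, f3, f4, f5⟩ := P.Q4_fl50 nd k1
      have f2' : (P.fc nd).x f = n := f2
      refine ⟨f, f1, f3, f4, ?_, f2, f5⟩
      rintro ⟨-, o1, -⟩
      rw [f3, f2'] at o1
      exact FC.not_both o1 k3
    have hstab : ∀ (f f' : FL K) (h : H), (P.fc nd).y f = y → (P.fc nd).z f = a →
        (P.fc nd).y f' = y → (P.fc nd).z f' = a → (P.fc nd).Sm (h • f) f' →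
        h ∈ stabilizer H ((y, a) : V × V) := by
      intro f f' h f1 f2 f3 f4 hs
      have e1 := hs.yy
      have e2 := hs.zz
      rw [FC.y_smul, f1, f3] at e1
      rw [FC.z_smul, f2, f4] at e2
      exact Prod.ext e1 e2
    rcases (hX a).1 hXa with ⟨f, ⟨hf, e1⟩, f', ⟨hf', e2⟩, hne⟩ |
      ⟨p, ⟨hp, e1⟩, p', ⟨hp', e2⟩, hne⟩ | ⟨⟨f, hf, e1⟩, ⟨p, hp, e2⟩⟩
    · obtain ⟨a1, a2, a3, a4⟩ := pent f hf e1
      obtain ⟨b1, b2, b3, b4⟩ := pent f' hf' e2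
      refine ⟨f, f', a1, b1, by rw [a2]; exact ha, by rw [a2, b2], a3, b3, ?_⟩
      intro h hs
      exact hne ⟨h, hstab f f' h a1 a2 b1 b2 hs⟩ (nsm' _ _ b4 hs)
    · obtain ⟨f, f0, a1, a2, a3, a4, a5⟩ := walk p hp e1
      obtain ⟨f', f0', b1, b2, b3, b4, b5⟩ := walk p' hp' e2
      refine ⟨f, f', a1, b1, by rw [a2]; exact ha, by rw [a2, b2], a3, b3, ?_⟩
      intro h hs
      apply hne ⟨h, hstab f f' h a1 a2 b1 b2 hs⟩
      have hx := hs.xx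
      rw [FC.x_smul, a4, b4] at hx
      have hq : (P.fc nd).z ((P.fc nd).r (h • f)) = (P.fc nd).z ((P.fc nd).r f') := by
        rcases hs with k | k
        · rw [k]
        · exact k.2.2.2.2.2
      rw [FC.r_smul, FC.z_smul, a5, b5] at hq
      have h1 : h • p.1 = p'.1 := by
        rw [e1, e2]
        exact hstab f f' h a1 a2 b1 b2 hs
      exact Prod.ext h1 (Prod.ext hq hx)
    · obtain ⟨a1, a2, a3, a4⟩ := pent f hf e1
      obtain ⟨f', f0', b1, b2, b3, b4, b5⟩ := walk p hp e2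
      refine ⟨f, f', a1, b1, by rw [a2]; exact ha, by rw [a2, b2], a3, b3, ?_⟩
      intro h hs
      have := nsm _ _ (fun k => a4 ((sqs h f).1 k)) hs
      rw [← this] at f0'
      exact a4 ((sqs h f).1 f0')

/-- the number of the self pieces of fat softs -/
noncomputable def nNf : ℕ := (P.fc nd).nN

end P45

end Pool.Agent.DI
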