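import Pool.Agent.DI.WallN
import Pool.Agent.DI.NL
import Pool.Agent.DI.NX
import Pool.Agent.DI.Geo4T

/-!
# The law `UqR` of a step (owner: helper78)

`top_of_ow`: a flag of a square with two poles belongs to a top. `Psv.uqr_of`: the field `uqr` of the laws
from one crossing corner at the sinks (`us`), at the vertices which are not fat and have no own square
(`ut`), and `ntc`: tops which are not fat do not cross.
-/

namespace Pool.Agent.DI

open MulAction
open Pool.Agent.SAF (InC SA orbs FinOrb oc Decomp SAn Conv exists_next TAct)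

namespace SyQ

variable {H V : Type} [Group H] [MulAction H V] {S : SyQ H V} {w : S.X}

/-- a flag of a square with two poles belongs to a top -/
theorem top_of_ow (nd : S.P.ND) {f : FL S.K} (h : (S.P.fc nd).Ow f) :
    ∃ y, S.P.Top ((S.P.fc nd).y f) ((S.P.fc nd).x f) ((S.P.fc nd).z f) y := by
  obtain ⟨h1, h2, h3⟩ := h
  exact ⟨_, S.P.fl_Q450 nd h1, h2, h3⟩

/-- tops which are not fat do not cross an edge at `w`, from the statement of helper45 -/
theorem Psv.ntc_of {O : S.OR w} {E : V → Prop} (h : S.Psv w O E) {hnb : S.NB}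
    (stay : ∀ T a b y p q, S.P.Top T a b y → ¬ E T → S.P.X T a ≤ 1 → ¬ S.Cas1 T a b y p q) :
    ∀ T a b y, S.P.Top T a b y → ¬ (S.kfc hnb).Fat T →
      ∀ q, S.D.G.Adj w q → w ∈ S.J T → q ∉ S.J T := by
  intro T a b y ht hf q hq h1 h2
  by_cases hE : E T
  · exact hq.ne (h.eJ T hE h1 q h2).symm
  have hx : S.P.X T a ≤ 1 := by
    by_contra hlt
    exact hf ((S.P.fat_iff (S.P.nd_nb hnb) T).2 ⟨a, ht.2.1, by omega⟩)
  have hab := h.sq.nab _ _ _ _ ht
  have key : ∀ p, S.J T = {p} → False := by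
    intro p hp
    rw [hp] at h1 h2
    exact hq.ne ((Set.mem_singleton_iff.1 h1).trans (Set.mem_singleton_iff.1 h2).symm)
  rcases ht.pos4 with ⟨p, q', k⟩ | ⟨p, q', k⟩ | ⟨p, k⟩
  · exact stay _ _ _ _ _ _ ht hE hx k
  · exact key p (k.JT ht hab)
  · exact key p (k.JT ht hab)

/-- THE FIELD `uqr` OF THE LAWS -/
theorem Psv.uqr_of {O : S.OR w} {E : V → Prop} (h : S.Psv w O E) {hnb : S.NB}
    (nraw : S.NRaw hnb w)
    (hle : (S.kfc hnb).nN ≤ (S.k0fc h.gd.conn hnb w).nNP (S.FatK hnb w))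
    (us : ∀ u z, S.D.G.Adj w u → S.K.Snk z → S.K.VC z → w ∈ S.J z → u ∈ S.J z →
      ∃ A : SubMulAction H S.K.LE, S.Par A ∧ S.UqA A w u z)
    (ut : ∀ u z, S.D.G.Adj w u → w ∈ S.J z → u ∈ S.J z → (∃ a, S.K.ar z a) →
      ¬ (S.kfc hnb).Fat z → (∀ f, (S.kfc hnb).y f = z → ¬ (S.kfc hnb).Ow f) →
      ∃ A : SubMulAction H S.K.LE, S.Par A ∧ S.UqA A w u z)
    (ntc : ∀ T a b y, S.P.Top T a b y → ¬ (S.kfc hnb).Fat T →
      ∀ q, S.D.G.Adj w q → w ∈ S.J T → q ∉ S.J T) :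
    ∀ u w', S.Inv1 w u → S.Plc w u w' → S.UqR w u w' := by
  intro u w' _ p
  refine p.uqR h.gd.conn nraw hle (fun z h1 h2 h3 h4 => us u z p.mp.mid.hw.symm h1 h2 h3 h4) ?_
  intro z n b hpg hr hw hu hf
  refine ut u z p.mp.mid.hw.symm hw hu hpg.1 hf ?_
  intro f hfz ho
  obtain ⟨y, hy⟩ := top_of_ow (S.P.nd_nb hnb) ho
  have e : (S.P.fc (S.P.nd_nb hnb)).y f = z := hfz
  rw [e] at hy
  exact ntc _ _ _ _ hy hf u p.mp.mid.hw.symm hw hu

end SyQ

end Pool.Agent.DI
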