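import Pool.Agent.DI.UqG
import Pool.Agent.DI.ExL
import Pool.Agent.DI.WallQ

/-!
# [Z1] from the objects of a step

`h0`: the equality case of the exc-law with duplicates (`Psv.eq2_h0`). `Psv.uqA_snk`, `Psv.uqA_nfat`: the
corners without the duplicates which cross an edge are one orbit, at sinks and at softs which are not
fat and have no own squares; `Psv.uqV_snk`, `Psv.uqV_nfat`: all crossing corners are one orbit as
triples. `Psv.us_of`, `ut_of`, `uqs_of`, `uqt_of`, `uqr_h0`: the forms used in the laws.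
-/

namespace Pool.Agent.DI

open MulAction
open Pool.Agent.SAF (InC SA orbs FinOrb oc Conv exists_next)
open Pool.Agent.BT (PX PQ JS bey exits)
open Pool.Agent.BT.TA

namespace SyQ

variable {H V : Type} [Group H] [MulAction H V] {S : SyQ H V} {w : S.X} {O : S.OR w} {E : V → Prop}

theorem Psv.lostI (h : S.Psv w O E) : S.LostI (fun _ : Unit => w) := by
  refine lostI_of_brJ fun y n e p hy hn hp => ?_
  exact h.lost_brJ h.bw2 e hy hn (fun g hg => hp (Bp_iff.2 ⟨g, hg⟩))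

section

variable (h : S.Psv w O E)
  (h0 : ∑ i : Unit, (S.k0 h.gd.conn ((fun _ : Unit => w) i)).pexc ≤ S.K.pexc + (h.dB : ℤ))

include h0

theorem Psv.uqA_snk {z : V} (hz : ∀ a, ¬ S.K.ar z a) {x u : S.X} (hu : S.D.G.Adj x u)
    (hxu : S.Cs x u z) : S.UqA (S.aW S.FlW) x u z :=
  SyQ.uqA_snk h.gd.conn h.nbm (fun _ : Unit => w) (one_pl w) (F := S.FlW) (fun _ k => k)
    h.lostI (h.lostR h.bw2) (h.gd.sinkH fun z _ => h.lc z) (fun y _ => h.lc y) h0 hz hu hxu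

/-- the corners without the duplicates at the flipped walks only -/
theorem Psv.uqE_snk {z : V} (hz : ∀ a, ¬ S.K.ar z a) {x u : S.X} (hu : S.D.G.Adj x u)
    (hxu : S.Cs x u z) : S.UqA (S.pE S.FlW) x u z :=
  uqA_sink h.gd.conn h.nbm (fun _ : Unit => w) (one_pl w) (F := S.FlW) (fun _ k => k)
    (h.lostR h.bw2) (h.gd.sinkH fun z _ => h.lc z) (fun y _ => h.lc y) h0 hz hu hxu

/-- softs with one orbit of corners at every pole -/
theorem Psv.uqA_th1 {z : V} (th : S.Th1A (S.aW S.FlW) z) {x u : S.X} (hu : S.D.G.Adj x u)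
    (hxu : S.Cs x u z) : S.UqA (S.aW S.FlW) x u z :=
  SyQ.uqA_th1 h.gd.conn h.nbm (fun _ : Unit => w) (one_pl w) (F := S.FlW) (fun _ k => k)
    h.lostI (h.lostR h.bw2) (h.gd.sinkH fun z _ => h.lc z) (fun y _ => h.lc y) h0 th (h.lc z)
    hu hxu

/-- softs which are not fat, without own squares -/
theorem Psv.uqA_nfat {z : V} (hf : ¬ (S.kfc h.nbm).Fat z)
    (hown : ∀ f, (S.kfc h.nbm).y f = z → ¬ (S.kfc h.nbm).Ow f) {x u : S.X}
    (hu : S.D.G.Adj x u) (hxu : S.Cs x u z) : S.UqA (S.aW S.FlW) x u z :=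
  h.uqA_th1 h0 (th1A_of h.sq.noPl (S.P.nd_nb h.nbm) hf hown) hu hxu

theorem Psv.uqV_snk {z : V} (hz : ∀ a, ¬ S.K.ar z a) {x u : S.X} (hu : S.D.G.Adj x u)
    (hxu : S.Cs x u z) : S.UqV x u z :=
  UqA.uqV (aW_par fun _ k => k) (h.uqA_snk h0 hz hu hxu)

theorem Psv.uqV_nfat {z : V} (hf : ¬ (S.kfc h.nbm).Fat z)
    (hown : ∀ f, (S.kfc h.nbm).y f = z → ¬ (S.kfc h.nbm).Ow f) {x u : S.X}
    (hu : S.D.G.Adj x u) (hxu : S.Cs x u z) : S.UqV x u z :=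
  UqA.uqV (aW_par fun _ k => k) (h.uqA_nfat h0 hf hown hu hxu)

/-- the input `us` of `Psv.uqr_of` -/
theorem Psv.us_of : ∀ u z, S.D.G.Adj w u → S.K.Snk z → S.K.VC z → w ∈ S.J z → u ∈ S.J z →
    ∃ A : SubMulAction H S.K.LE, S.Par A ∧ S.UqA A w u z :=
  fun _ _ hu hz _ h1 h2 => ⟨S.aW S.FlW, aW_par fun _ k => k, h.uqA_snk h0 hz hu ⟨h1, h2⟩⟩

/-- the input `ut` of `Psv.uqr_of` -/
theorem Psv.ut_of : ∀ u z, S.D.G.Adj w u → w ∈ S.J z → u ∈ S.J z → (∃ a, S.K.ar z a) →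
    ¬ (S.kfc h.nbm).Fat z → (∀ f, (S.kfc h.nbm).y f = z → ¬ (S.kfc h.nbm).Ow f) →
    ∃ A : SubMulAction H S.K.LE, S.Par A ∧ S.UqA A w u z :=
  fun _ _ hu h1 h2 _ hf hown =>
    ⟨S.aW S.FlW, aW_par fun _ k => k, h.uqA_nfat h0 hf hown hu ⟨h1, h2⟩⟩

/-- one orbit of crossing corners at the sinks, as triples -/
theorem Psv.uqs_of : ∀ z, (∀ a, ¬ S.K.ar z a) → S.K.VC z → ∀ u, S.D.G.Adj w u → w ∈ S.J z →
    u ∈ S.J z → S.UqV w u z :=
  fun _ hz _ _ hu h1 h2 => h.uqV_snk h0 hz hu ⟨h1, h2⟩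

variable (ntc : ∀ T a b y, S.P.Top T a b y → ¬ (S.kfc h.nbm).Fat T →
  ∀ q, S.D.G.Adj w q → w ∈ S.J T → q ∉ S.J T)

omit h0 in
include ntc in
/-- no own square at a soft which crosses an edge at `w` and is not fat -/
theorem Psv.no_ow {z : V} {u : S.X} (hu : S.D.G.Adj w u) (h1 : w ∈ S.J z) (h2 : u ∈ S.J z)
    (hf : ¬ (S.kfc h.nbm).Fat z) (f : FL S.K) (hfz : (S.kfc h.nbm).y f = z) :
    ¬ (S.kfc h.nbm).Ow f := by
  intro ho
  obtain ⟨y, hy⟩ := top_of_ow (S.P.nd_nb h.nbm) ho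
  have e : (S.P.fc (S.P.nd_nb h.nbm)).y f = z := hfz
  rw [e] at hy
  exact ntc _ _ _ _ hy hf u hu h1 h2

include ntc

/-- one orbit of crossing corners at the softs over `w` which are not fat -/
theorem Psv.uqA_w {z : V} {u : S.X} (hu : S.D.G.Adj w u) (h1 : w ∈ S.J z) (h2 : u ∈ S.J z)
    (hf : ¬ (S.kfc h.nbm).Fat z) : S.UqA (S.aW S.FlW) w u z :=
  h.uqA_nfat h0 hf (fun f hfz => h.no_ow ntc hu h1 h2 hf f hfz) hu ⟨h1, h2⟩

/-- one orbit of crossing corners at the reversed softs which are not fat, as triples -/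
theorem Psv.uqt_of : ∀ z n g, S.SL w z n g → S.Rv w z g → (∃ a, S.K.ar z a) →
    ¬ (S.kfc h.nbm).Fat z → ∀ u, S.D.G.Adj w u → u ∈ S.J z → S.UqV w u z :=
  fun _ _ _ hs _ _ hf _ hu h2 => UqA.uqV (aW_par fun _ k => k) (h.uqA_w h0 ntc hu hs.1 h2 hf)

/-- THE FIELD `uqr` -/
theorem Psv.uqr_h0 (nraw : S.NRaw h.nbm w)
    (hle : (S.kfc h.nbm).nN ≤ (S.k0fc h.gd.conn h.nbm w).nNP (S.FatK h.nbm w)) :
    ∀ u w', S.Inv1 w u → S.Plc w u w' → S.UqR w u w' :=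
  h.uqr_of nraw hle (h.us_of h0) (h.ut_of h0) ntc

end

end SyQ

end Pool.Agent.DI
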