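import Pool.Agent.DI.UqP
import Pool.Agent.DI.Main0
import Pool.Agent.DI.UqW
import Pool.Agent.DI.XtB
import Pool.Agent.DI.Tail
import Pool.Agent.DI.LineQ
import Pool.Agent.DI.WallC

/-!
# DI/UqZ: at a wall of `ℤ` type no flipped walk crosses the edge at a broken sink (owner: helper64)

`uqC_of_uqA`: if the corners in `aW F` at a sink which cross the edge `w u` are one orbit then all of them are.
Proof (helper72): a flipped corner at `x` which crosses `w u` is fixed by an element `f` which exchanges `x` and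
the fourth vertex; `f` fixes `w`, `u`; every crossing cell at `x` is a translate of this walk, the wall is connected,
so the stabiliser of the edge is generated by `f` and the finite stabiliser of `x`, `w`, `u`; it is in `Zt`, so it is
finite. `Psv.uqC_Z`: the form of a step.
-/

namespace Pool.Agent.DI

open MulAction
open Pool.Agent.SAF (InC orbs FinOrb oc Decomp SAn SA Conv hull dist_edge FinOrb_iff exists_next TAct)
open Pool.Agent.SAG (IO Zt)
open Pool.Agent.BT (PX PQ JS bey exits mst Hyp finite_of_hyp axis)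
open Pool.Agent.BT.TA

/-- elements of finite order are in the kernel -/
theorem zt_ker1 {G : Type} [Group G] (F : G →* Multiplicative ℤ) {g : G} (h : ¬ IO g) : F g = 1 := by
  unfold Pool.Agent.SAG.IO at h
  push Not at h
  obtain ⟨n, hn, e⟩ := h
  have h7 : (F g) ^ n = 1 := by rw [← map_pow, e, map_one]
  have h8 := congrArg Multiplicative.toAdd h7
  rw [toAdd_pow, toAdd_one, nsmul_eq_mul] at h8
  have h9 : Multiplicative.toAdd (F g) = 0 := by
    rcases mul_eq_zero.1 h8 with k | k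
    · exact absurd k (by exact_mod_cast hn.ne')
    · exact k
  exact Multiplicative.toAdd.injective (by rw [h9, toAdd_one])

/-- a group in `Zt` which is generated by elements of finite order is finite -/
theorem zt_gen_fin {H : Type} [Group H] {J : Subgroup H} (hJ : Zt ↥J) {A : Set H} (hA : ∀ a ∈ A, a ∈ J)
    (hf : ∀ a ∈ A, ¬ IO a) (h : J ≤ Subgroup.closure A) : Finite ↥J := by
  obtain ⟨F, hF⟩ := hJ
  have h1 : Subgroup.closure A ≤ F.ker.map J.subtype := by
    rw [Subgroup.closure_le]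
    intro a ha
    refine ⟨⟨a, hA a ha⟩, ?_, rfl⟩
    show F ⟨a, hA a ha⟩ = 1
    refine zt_ker1 F fun k => hf a ha ?_
    exact io_coe.2 k
  have h2 : ∀ a : ↥J, F a = 1 := by
    intro a
    obtain ⟨b, hb, e⟩ := h1 (h a.2)
    have : b = a := Subtype.ext e
    rw [← this]
    exact hb
  exact Finite.of_injective (fun a : ↥J => (⟨a, h2 a⟩ : ↥F.ker))
    (fun a b e => congrArg (fun z : ↥F.ker => z.1) e)

namespace SyQ

variable {H V : Type} [Group H] [MulAction H V] {S : SyQ H V}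

/-- the square of a listed corner -/
theorem q4_le {e : S.K.LE} (hi : S.P.sq e.1.1) :
    Q4 S.P (S.K.c0 e) (S.K.c1 e) (S.K.c2 e) (S.K.vk e 3) := by
  have hj : e.1.2.1 % 4 < 4 := Nat.mod_lt _ (by norm_num)
  let j : Fin 4 := ⟨e.1.2.1 % 4, hj⟩
  refine ⟨e.2, e.1.1, j, hi, Or.inl ⟨?_, ?_, ?_, ?_⟩⟩
  · exact P45.vk4 hi 0 j rfl
  · refine P45.vk4 hi 1 (j + 1) ?_
    show (e.1.2.1 + 1) % 4 = (e.1.2.1 % 4 + 1) % 4
    omega
  · refine P45.vk4 hi 2 (j + 2) ?_
    show (e.1.2.1 + 2) % 4 = (e.1.2.1 % 4 + 2) % 4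
    omega
  · refine P45.vk4 hi 3 (j + 3) ?_
    show (e.1.2.1 + 3) % 4 = (e.1.2.1 % 4 + 3) % 4
    omega

theorem Xe.sides {w u : S.X} {e : S.K.LE} (h : S.Xe w u e) {a b : V}
    (hab : (S.K.c0 e = a ∧ S.K.c2 e = b) ∨ (S.K.c0 e = b ∧ S.K.c2 e = a)) :
    (S.J a ⊆ bey S.D.G w u ∧ S.J b ⊆ bey S.D.G u w) ∨
      (S.J b ⊆ bey S.D.G w u ∧ S.J a ⊆ bey S.D.G u w) := by
  rcases hab with ⟨rfl, rfl⟩ | ⟨rfl, rfl⟩
  · exact h
  · exact h.symm

theorem Xe.of {w u : S.X} {e : S.K.LE} {a b : V}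
    (hab : (S.K.c0 e = a ∧ S.K.c2 e = b) ∨ (S.K.c0 e = b ∧ S.K.c2 e = a))
    (h : (S.J a ⊆ bey S.D.G w u ∧ S.J b ⊆ bey S.D.G u w) ∨
      (S.J b ⊆ bey S.D.G w u ∧ S.J a ⊆ bey S.D.G u w)) : S.Xe w u e := by
  rcases hab with ⟨rfl, rfl⟩ | ⟨rfl, rfl⟩
  · exact h
  · exact h.symm

/-- a crossing corner has the walk of a crossing corner in `aW` -/
theorem par_aW {F : S.K.I → Prop} (hF : ∀ i, F i → S.Ewk i ∧ S.Flp i) (nd : S.P.ND) {w u : S.X} {x : V}
    {e : S.K.LE} (h1 : S.K.c1 e = x) (hx : S.Xe w u e) : ∃ e' ∈ S.aW F, S.K.c1 e' = x ∧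
      S.Xe w u e' ∧ (S.P.sq e.1.1 ↔ S.P.sq e'.1.1) ∧ (S.P.sq e.1.1 → S.K.vk e' 3 = S.K.vk e 3) := by
  obtain ⟨⟨e', b⟩, ha, hm⟩ := aW_parW hF nd ((e, true) : FL S.K)
  have ha : e' ∈ S.aW F := ha
  rcases hm with hm | ⟨s1, s2, mx, my, mz, mr⟩
  · have e0 : e = e' := congrArg Prod.fst hm
    subst e0
    exact ⟨e, ha, h1, hx, Iff.rfl, fun _ => rfl⟩
  · have s1 : S.P.sq e.1.1 := s1
    have s2 : S.P.sq e'.1.1 := s2
    rw [fc_xce, fc_xce] at mx
    rw [fc_zce, fc_zce] at mz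
    have mx : S.K.c0 e = ce S.K b e' := mx
    have mz : S.K.c2 e = ce S.K (!b) e' := mz
    have my : S.K.c1 e = S.K.c1 e' := my
    rw [fc_zr nd _ _ s1, fc_zr nd _ _ s2] at mr
    refine ⟨e', ha, by rw [← my, h1], ?_, ⟨fun _ => s2, fun _ => s1⟩, fun _ => mr.symm⟩
    refine Xe.of (a := S.K.c0 e) (b := S.K.c2 e) ?_ hx
    cases b
    · right
      exact ⟨mz.symm, mx.symm⟩
    · left
      exact ⟨mx.symm, mz.symm⟩

/-- ALL CROSSING CORNERS at a broken sink are one orbit -/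
theorem uqC_of_uqA (hc : S.Conn) (hS : S.SinkH) (nd : S.P.ND)
    (tf : ∀ T a b y, S.P.Top T a b y → Finite ↥(stabilizer H T))
    {E : V → Prop} (ht : S.P.SqE E)
    (inf : ∀ x y, S.D.G.Adj x y → Infinite ↥(stabilizer H x ⊓ stabilizer H y)) {w u : S.X}
    (hu : S.D.G.Adj w u) (hz : Zt ↥(stabilizer H w ⊓ stabilizer H u)) {F : S.K.I → Prop}
    (hF : ∀ i, F i → S.Ewk i ∧ S.Flp i) {x : V} (hs : ∀ a, ¬ S.K.ar x a) (hw : w ∈ S.J x)
    (hu' : u ∈ S.J x) (hq : S.UqA (S.aW F) w u x) : S.UqC w u x := by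
  -- every crossing corner at `x` is in `aW F`
  have main : ∀ e : S.K.LE, S.K.c1 e = x → S.Xe w u e → e ∈ S.aW F := by
    intro e h1 hx
    by_contra hne
    have hQ : S.Qa F e.1.1 e.1.2.1 := not_not.1 hne
    obtain ⟨-, hsq, g, gk, gk2, gk3, gk1⟩ := Qa_lt hF _ _ hQ
    let f : H := e.2 * g * e.2⁻¹
    have fm : ∀ {m m' : ℕ}, g • S.K.vx e.1.1 (e.1.2.1 + m) = S.K.vx e.1.1 (e.1.2.1 + m') →
        f • S.K.vk e m = S.K.vk e m' := by
      intro m m' k
      show (e.2 * g * e.2⁻¹) • e.2 • S.K.vx e.1.1 (e.1.2.1 + m) = e.2 • S.K.vx e.1.1 (e.1.2.1 + m')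
      rw [mul_smul, mul_smul, inv_smul_smul, k]
    have f0 : f • S.K.c0 e = S.K.c0 e := fm (m := 0) (m' := 0) gk
    have f2 : f • S.K.c2 e = S.K.c2 e := fm (m := 2) (m' := 2) gk2
    have fx : f • S.K.c1 e = S.K.vk e 3 := fm (m := 1) (m' := 3) gk1
    have fb : f • S.K.vk e 3 = S.K.c1 e := fm (m := 3) (m' := 1) gk3
    rw [h1] at fx fb
    -- the fourth vertex is a sink
    have hb : ∀ a, ¬ S.K.ar (S.K.vk e 3) a := by
      intro a k
      have := S.K.ar_smul f _ _ k
      rw [fb] at this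
      exact hs _ this
    have hq4 := q4_le (S := S) hsq
    rw [h1] at hq4
    -- `f` has finite order
    have hio : ¬ IO f := by
      have key : ∀ T : V, Finite ↥(stabilizer H T) → f • T = T → ¬ IO f := by
        intro T hT hfT k
        exact SAG.not_IO_finite (⟨f, hfT⟩ : ↥(stabilizer H T)) (io_coe.1 k)
      rcases ht.exists_top hq4 with k | k | k | k
      · exact absurd k.2.1 (hs _)
      · exact key _ (tf _ _ _ _ k) f2
      · exact absurd k.2.1 (hb _)
      · exact key _ (tf _ _ _ _ k) f0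
    -- `f` fixes the edge
    have hfin : Finite ↥(Subgroup.zpowers f) := by
      have h1 : IsOfFinOrder f := by
        have h3 := hio
        unfold Pool.Agent.SAG.IO at h3
        push Not at h3
        obtain ⟨n, hn, e⟩ := h3
        exact isOfFinOrder_iff_pow_eq_one.2 ⟨n, hn, e⟩
      exact h1.finite_zpowers.to_subtype
    have fixp : ∀ v : V, f • v = v → ∃ p ∈ S.J v, f • p = p := by
      intro v hv
      obtain ⟨p, hp, hp'⟩ := fix_in S.D.tact (S.js.conv v) (S.js.ne v) hfin (by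
        rintro _ ⟨n, rfl⟩ c hc'
        have h3 : f ^ n • v = v := by
          have : f ∈ stabilizer H v := hv
          exact (stabilizer H v).zpow_mem this n
        have := S.js.smul (f ^ n) _ _ hc'
        rwa [h3] at this)
      exact ⟨p, hp, hp' f (Subgroup.mem_zpowers f)⟩
    obtain ⟨p0, hp0, e0⟩ := fixp _ f0
    obtain ⟨p2, hp2, e2⟩ := fixp _ f2
    have hC := fix_conv (G := S.D.G) S.D.tact ({f} : Set H)
    have m0 : p0 ∈ {x : S.X | ∀ b ∈ ({f} : Set H), b • x = x} := by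
      intro b hb'
      rw [Set.mem_singleton_iff.1 hb']
      exact e0
    have m2 : p2 ∈ {x : S.X | ∀ b ∈ ({f} : Set H), b • x = x} := by
      intro b hb'
      rw [Set.mem_singleton_iff.1 hb']
      exact e2
    have hwu : f • w = w ∧ f • u = u := by
      rcases hx with ⟨k0, k2⟩ | ⟨k2, k0⟩
      · have := conv_cr S.D.tree hC hu m2 m0 (k2 hp2) (k0 hp0)
        exact ⟨this.1 f rfl, this.2 f rfl⟩
      · have := conv_cr S.D.tree hC hu m0 m2 (k0 hp0) (k2 hp2)
        exact ⟨this.1 f rfl, this.2 f rfl⟩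
    -- the corner in `aW`
    obtain ⟨e1, a1, b1, x1, s1, v1⟩ := par_aW hF nd h1 hx
    have v1 := v1 hsq
    -- the neighbours of `x` in the wall
    have nb : ∀ y, S.PW w u x y → ∃ j : H, j • x = x ∧ j • w = w ∧ j • u = u ∧ y = j • f • x := by
      rintro y ⟨-, -, -, q, hq'⟩
      have fin : ∀ e' : S.K.LE, S.K.c1 e' = x → S.Xe w u e' → S.P.sq e'.1.1 ∧
          ∃ j : H, j • x = x ∧ j • w = w ∧ j • u = u ∧ S.K.vk e' 3 = j • f • x := by
        intro e' k1 k2
        obtain ⟨e3, a3, b3, x3, s3, v3⟩ := par_aW hF nd k1 k2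
        obtain ⟨j, j1, j2, j3, j4⟩ := hq e1 e3 a1 a3 b1 b3 x1 x3
        have hs3 : S.P.sq e3.1.1 := by
          rw [j4]
          exact s1.1 hsq
        refine ⟨s3.2 hs3, j, j1, j2, j3, ?_⟩
        rw [← v3 (s3.2 hs3), j4, fx, ← v1]
        exact GX.vk_smul _ _ _ _
      have out : ∀ s t : S.X, (s = w ∧ t = u ∨ s = u ∧ t = w) → S.CC s t x q y → ∃ j : H,
          j • x = x ∧ j • w = w ∧ j • u = u ∧ y = j • f • x := by
        rintro s t hst ⟨c1, c2⟩
        have sides : ∀ y1, S.J y1 ⊆ bey S.D.G t s →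
            (S.J q ⊆ bey S.D.G w u ∧ S.J y1 ⊆ bey S.D.G u w) ∨
            (S.J y1 ⊆ bey S.D.G w u ∧ S.J q ⊆ bey S.D.G u w) := by
          intro y1 hy1
          rcases hst with ⟨rfl, rfl⟩ | ⟨rfl, rfl⟩
          · exact Or.inl ⟨c1, hy1⟩
          · exact Or.inr ⟨hy1, c1⟩
        rcases c2 with ⟨y1, z1, hn, l1, l2⟩ | ⟨y1, hn, l1⟩
        · obtain ⟨e', n1, n2, n3⟩ := hn.le
          refine absurd (fin e' n2 ?_).1 n1
          refine Xe.of (a := q) (b := z1) ?_ (sides z1 l2)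
          rcases n3 with ⟨n3, n4, -⟩ | ⟨n3, n4, -⟩
          · exact Or.inr ⟨n3, n4⟩
          · exact Or.inl ⟨n3, n4⟩
        · obtain ⟨e', n1, n2, n3, n4⟩ := hn.le
          obtain ⟨-, j, j1, j2, j3, j4⟩ := fin e' n2 (by
            refine Xe.of (a := q) (b := y1) ?_ (sides y1 l1)
            rcases n4 with ⟨n4, n5⟩ | ⟨n4, n5⟩
            · exact Or.inr ⟨n4, n5⟩
            · exact Or.inl ⟨n4, n5⟩)
          exact ⟨j, j1, j2, j3, by rw [← j4, n3]⟩
      rcases hq' with k | k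
      · exact out w u (Or.inl ⟨rfl, rfl⟩) k
      · exact out u w (Or.inr ⟨rfl, rfl⟩) k
    -- the generated group
    let A : Set H := {a | (a • x = x ∧ a • w = w ∧ a • u = u) ∨ a = f}
    have hAJ : ∀ a ∈ A, a ∈ stabilizer H w ⊓ stabilizer H u := by
      rintro a (⟨-, k1, k2⟩ | rfl)
      · exact ⟨k1, k2⟩
      · exact hwu
    have hMJ : Subgroup.closure A ≤ stabilizer H w ⊓ stabilizer H u := by
      rw [Subgroup.closure_le]
      exact hAJ
    have step : ∀ a b, S.PW w u a b → (∃ s ∈ Subgroup.closure A, a = s • x) →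
        ∃ s ∈ Subgroup.closure A, b = s • x := by
      rintro a b hp ⟨s, hs', rfl⟩
      have hsJ := hMJ hs'
      have k := PW.smul S s⁻¹ hp
      rw [inv_smul_smul, inv_smul_eq_iff.2 (show w = s • w from hsJ.1.symm),
        inv_smul_eq_iff.2 (show u = s • u from hsJ.2.symm)] at k
      obtain ⟨j, j1, j2, j3, j4⟩ := nb _ k
      refine ⟨s * j * f, ?_, ?_⟩
      · refine mul_mem (mul_mem hs' ?_) ?_
        · exact Subgroup.subset_closure (Or.inl ⟨j1, j2, j3⟩)
        · exact Subgroup.subset_closure (Or.inr rfl)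
      · rw [mul_smul, mul_smul, ← j4, smul_inv_smul]
    have all : ∀ a b, Relation.EqvGen (S.PW w u) a b →
        ((∃ s ∈ Subgroup.closure A, a = s • x) ↔ ∃ s ∈ Subgroup.closure A, b = s • x) := by
      intro a b k
      induction k with
      | rel a b k => exact ⟨step _ _ k, step _ _ k.symm'⟩
      | refl a => exact Iff.rfl
      | symm a b _ ih => exact ih.symm
      | trans a b c _ _ i1 i2 => exact i1.trans i2
    have hgen : stabilizer H w ⊓ stabilizer H u ≤ Subgroup.closure A := by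
      intro j hj
      have c1 : S.Cs w u (j • x) := by
        have k1 := S.js.smul j _ _ hw
        have k2 := S.js.smul j _ _ hu'
        rw [show j • w = w from hj.1] at k1
        rw [show j • u = u from hj.2] at k2
        exact ⟨k1, k2⟩
      obtain ⟨s, hs', e3⟩ := (all _ _ (hc.wall w u hu x (j • x) ⟨hw, hu'⟩ c1)).1
        ⟨1, one_mem _, (one_smul _ _).symm⟩
      have hsJ := hMJ hs'
      have h3 : s⁻¹ * j ∈ Subgroup.closure A := by
        refine Subgroup.subset_closure (Or.inl ⟨?_, ?_, ?_⟩)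
        · rw [mul_smul, e3, inv_smul_smul]
        · rw [mul_smul, show j • w = w from hj.1, inv_smul_eq_iff]
          exact hsJ.1.symm
        · rw [mul_smul, show j • u = u from hj.2, inv_smul_eq_iff]
          exact hsJ.2.symm
      have := mul_mem hs' h3
      rwa [mul_inv_cancel_left] at this
    -- finite order
    have hhyp : Hyp S.X (stabilizer H x) := by
      rcases hS.ty x hs with ⟨p, hp⟩ | ⟨k, -⟩
      · rw [hp] at hw hu'
        exact absurd ((Set.mem_singleton_iff.1 hw).trans (Set.mem_singleton_iff.1 hu').symm) hu.ne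
      · exact k
    have hAf : ∀ a ∈ A, ¬ IO a := by
      rintro a (⟨k0, k1, k2⟩ | rfl)
      · have hB : Finite ↥(stabilizer H x ⊓ stabilizer H w) :=
          finite_of_hyp S.D.tact (S.K.stab x) hhyp inf_le_left (w := w) (fun b hb' => hb'.2)
        intro k
        exact SAG.not_IO_finite (⟨a, k0, k1⟩ : ↥(stabilizer H x ⊓ stabilizer H w)) (io_coe.1 k)
      · exact hio
    have h9 := zt_gen_fin hz hAJ hAf hgen
    exact not_finite_iff_infinite.2 (inf _ _ hu) h9
  intro e e' h1 h1' hx hx'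
  exact hq e e' (main e h1 hx) (main e' h1' hx') h1 h1' hx hx'

/-- the form of a step: AT WALLS OF `ℤ` TYPE all corners of a broken sink which cross an edge are one orbit -/
theorem Psv.uqC_of {w : S.X} {O : S.OR w} {E : V → Prop} (h : S.Psv w O E) (hz : S.ZW w)
    {F : S.K.I → Prop} (hF : ∀ i, F i → S.Ewk i ∧ S.Flp i) {x : V} (hs : ∀ a, ¬ S.K.ar x a)
    {p e : S.X} (ha : S.D.G.Adj p e) (hp : p ∈ S.J x) (he : e ∈ S.J x)
    (hq : S.UqA (S.aW F) p e x) : S.UqC p e x := by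
  obtain ⟨v, hv, hzv⟩ := hz
  exact uqC_of_uqA h.gd.conn (h.gd.sinkH fun y _ => h.lc y) h.nd h.tf h.sq h.inf ha
    (h.zt_all hv ha hzv) hF hs hp he hq

/-- AT WALLS OF `ℤ` TYPE, if nothing is gained in the slice, all corners of a broken sink which cross an edge
are one orbit -/
theorem Psv.uqC_Z {w : S.X} {O : S.OR w} {E : V → Prop} (h : S.Psv w O E)
    (h0 : ∑ i : Unit, (S.k0 h.gd.conn ((fun _ : Unit => w) i)).pexc ≤ S.K.pexc + (h.dB : ℤ))
    (hz : S.ZW w) (x : V) (hs : ∀ a, ¬ S.K.ar x a) (p e : S.X) (ha : S.D.G.Adj p e)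
    (hp : p ∈ S.J x) (he : e ∈ S.J x) : S.UqC p e x :=
  h.uqC_of hz (F := S.FlW) (fun _ k => k) hs ha hp he (h.uqA_snk h0 hs ha ⟨hp, he⟩)

end SyQ

end Pool.Agent.DI
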