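import Pool.Agent.DI.HrE
import Pool.Agent.DI.SgP
import Pool.Agent.DI.Main0
import Pool.Agent.DI.P4V
import Pool.Agent.DI.GenV
import Pool.Agent.DI.NL
import Pool.Agent.DI.ExM
import Pool.Agent.DI.UqP
import Pool.Agent.DI.PzW
import Pool.Agent.DI.WallQ
import Pool.Agent.DI.SkP
import Pool.Agent.DI.PzH2
import Pool.Agent.DI.VisQ
import Pool.Agent.DI.Ph7
import Pool.Agent.DI.Stc
import Pool.Agent.DI.CrT
import Pool.Agent.DI.TallZ
import Pool.Agent.DI.TowK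
import Pool.Agent.DI.Cor2p
import Pool.Agent.DI.NplG
import Pool.Agent.DI.PhZ
import Pool.Agent.DI.GenF
import Pool.Agent.DI.UqZ
import Pool.Agent.DI.NW

/-!
# DI/LawG: the laws of a passive step, together

`Psv.sgH`, `Psv.sig_law`: the sigma law. `Psv.stay`, `Psv.npl`: thin tops do not cross, no parallel squares at
constant sigma. `Psv.Eq2.ts`, `he`, `sk`, `gen`, `nraw`, `nuq`: the equality case of the excess. `Psv.law`: the
numbers of the folded slice go down.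
-/

attribute [local instance 2000] SubMulAction.mulAction

namespace Pool.Agent.DI

open MulAction
open Pool.Agent.SAF (InC SA orbs FinOrb oc Decomp)
open Pool.Agent.BT (bey)
open Pool.Agent.SAG (IO Zt)

namespace SyQ

variable {H V : Type} [Group H] [MulAction H V] {S : SyQ H V} {w : S.X} {O : S.OR w}
  {E : V → Prop}

theorem Psv.k0m (h : S.Psv w O E) : (S.k0 h.gd.conn w).Min := k0_min h.gd.conn h.wm

theorem Psv.kx1 (h : S.Psv w O E) : KX1 (O := O) (k0_min h.gd.conn h.wm)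
    (S.sqN h.gd.conn w O) := by
  obtain ⟨F, hF, -, hp⟩ := h.st.pm
  exact h.rz.kx1F h.nbm h.eJ hF hp

/-- THE HYPOTHESES OF THE SIGMA LAW -/
theorem Psv.sgH (h : S.Psv w O E) :
    S.SgH h.gd.conn w O h.k0m (S.sqN h.gd.conn w O) E (S.ck w O) := by
  have hx := h.kx1
  have ho := h.rz.sgO hx h.nbm h.sgpl
  obtain ⟨F, hF, hXF, hp⟩ := h.st.pm
  exact
    { o := ho
      x1 := by
        rintro ⟨T, a⟩ hp
        obtain ⟨b, y, ht⟩ := P45.CA_sub hp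
        exact h.x1 (T, a) ⟨b, y, ht⟩ (h.rz.nb_top ht (h.rz.ca_nE hp))
      x1' := by
        intro k hk
        obtain ⟨b, y, ht⟩ := P45.CA_sub hk
        exact hx.x1 _ _ _ _ ht
      ci := fun g k => ck_ci h.rz.nf g k
      cor1 := fun T a b y ht hU _ _ _ => (h.st.cor1 T a b y ht (h.rz.ca_nE (Or.inl hU))).le
      nst := ho.nst61 h.nbm h.eJ hF hXF hp
      lcl := by
        intro T a b y ht hc hT ha hb
        have hE : ¬ E T := hc.elim (fun k => h.rz.ca_nE k) (fun k => h.rz.ca_nE k)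
        exact (h.rz.ltp hx h.nbm hT (h.rz.nb_top ht hE) ht ha hb).loc42 h.rz.nf h.nbm h.sq
          h.rz.nf.oldT }

/-- THE SIGMA LAW -/
theorem Psv.sig_law (h : S.Psv w O E) : S.P.sigma ≤ (h.kP O).sigma := h.sgH.le

/-- every bare vertex is a top -/
theorem Psv.bare_top (h : S.Psv w O E) {v : V} (hb : S.P.Bare v) (hs : ∃ a, S.K.ar v a) :
    ∃ a b y, S.P.Top v a b y := by
  obtain ⟨n, hn⟩ := S.K.VC_all h.lc h.bad v
  obtain ⟨m, hm⟩ := GX.EC_iff.1 hn.symm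
  have out : ∀ {x}, S.K.E x v → S.K.ar v x := fun hx => hx.resolve_left (hb.1 _)
  rcases (P45.cor_iff S.P).1 hm with ⟨y', z', hq⟩ | ⟨q, hq⟩
  · exact absurd hq (hb.2 _ _ _ _ (out hm.E1.symm) (out hm.E2.symm))
  · exact ⟨_, _, _, hq, out hm.E1.symm, out hm.E2.symm⟩

theorem Psv.bwo (h : S.Psv w O E) : S.Bwo w := ⟨h.bw, h.bo⟩

theorem Psv.bareF (h : S.Psv w O E) : S.BareF w h.rz.F := by
  refine bareF_of fun v hv => ⟨hv.1, ?_⟩
  obtain ⟨u, hd⟩ := h.two v hv.1 hv.2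
  obtain ⟨-, a, b, -, ha, -, -⟩ := id hd
  obtain ⟨c, d, y, ht⟩ := h.bare_top hv.2 ⟨a, ha⟩
  exact h.bw _ _ _ _ ht hv.2

/-- every piece which has a corner at a pole has one at the other pole -/
theorem Psv.osb (h : S.Psv w O E) : S.OSb := by
  intro y n m a hn ha hm hc
  obtain ⟨b, hb, hne⟩ := h.two_poles ha
  obtain ⟨k, h1, h2, h3⟩ := h.pc n y b hn hb
  refine ⟨b, k, hb, hne, ?_, h3⟩
  refine Relation.EqvGen.mono ?_ _ _ h1
  rintro x z ⟨k1, k2, k3⟩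
  exact ⟨k3, k1, k2⟩

/-- THE INPUTS OF [thin tops do not cross] at constant sigma -/
theorem Psv.crH (h : S.Psv w O E) (e : (h.kP O).sigma = S.P.sigma) :
    S.CrH h.gd.conn w O h.k0m (S.sqN h.gd.conn w O) E (S.ck w O) :=
  have x1 : ∀ p ∈ (h.kP O).TA, 1 ≤ (h.kP O).X p.1 p.2 := by
    rintro ⟨T, a⟩ ⟨b, y, ht⟩
    exact h.kx1.x1 _ _ _ _ ht
  { h := h.sgH
    hs := e.le
    cor2 := kf_cor2 h.rz.nf h.rz.kin x1
    red := h.red
    sk := h.gd.sinkH fun y _ => h.lc y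
    tf := h.tf
    cor1 := h.st.cor1
    nft := h.st.nft
    nft' := kf_nft h.rz.nf h.rz.kin x1
    cor2p := kf_cor2p h.rz.nf h.rz.kin x1
    nd := h.st.nd
    tall := h.sgH.tall61 e.le (kf_cor2 h.rz.nf h.rz.kin x1) h.nbm h.eJ h.st.tall }

/-- THIN TOPS DO NOT CROSS at constant sigma -/
theorem Psv.stay (h : S.Psv w O E) (e : (h.kP O).sigma = S.P.sigma) :
    ∀ T a b y p q, S.P.Top T a b y → ¬ E T → S.P.X T a ≤ 1 → ¬ S.Cas1 T a b y p q :=
  (h.crH e).stay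

/-- there are no two parallel squares in the folded slice at constant sigma -/
theorem Psv.npl (h : S.Psv w O E) (e : (h.kP O).sigma = S.P.sigma) : (h.kP O).NoPl :=
  h.rz.npl_of h.eb h.sgH e.le (h.crH e).cor2 (h.stay e)

/-- a top which is not fat does not cross an edge at `w` -/
theorem Psv.ntc (h : S.Psv w O E) (e : (h.kP O).sigma = S.P.sigma) : ∀ T a b y,
    S.P.Top T a b y → ¬ (S.kfc h.nbm).Fat T → ∀ q, S.D.G.Adj w q → w ∈ S.J T → q ∉ S.J T :=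
  h.ntc_of (h.stay e)

/-- nothing is gained in the slice -/
theorem Psv.Eq2.h0 {h : S.Psv w O E} (e : h.Eq2) : h.EqS := h.eqS h.kx1 (h.npl e.s) e

/-- no local piece is one-sided -/
theorem Psv.Eq2.ts {h : S.Psv w O E} (e : h.Eq2) : S.TSp w := h.tsp e.h0

/-- the fold of the bare vertices at constant excess -/
theorem Psv.Eq2.he {h : S.Psv w O E} (e : h.Eq2) :
    (S.kf h.gd.conn w O).pexc + oc H (S.Dz h.rz.F) ≤ (S.k0 h.gd.conn w).pexc :=
  h.eq2_he h.nSp_le (h.npl e.s) e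

/-- the class of the folded slice -/
theorem Psv.x1k (h : S.Psv w O E) : ∀ p ∈ (h.kP O).TA, 1 ≤ (h.kP O).X p.1 p.2 := by
  rintro ⟨T, a⟩ ⟨b, y, ht⟩
  exact h.kx1.x1 _ _ _ _ ht

/-- the sinks of the folded slice lie in cells -/
theorem Psv.Eq2.sk {h : S.Psv w O E} (e : h.Eq2) :
    ∀ c, (S.kf h.gd.conn w O).Snk c → (S.kf h.gd.conn w O).VC c :=
  h.snk_vc h.x1k e.ts h.pe

theorem Psv.Eq2.tu {h : S.Psv w O E} (e : h.Eq2) (u : S.EV w) :
    (S.kf h.gd.conn w O).VC (S.fq w O (Sum.inr u)) := e.sk _ (vdz_t_snk h.gd.conn O u)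

theorem Psv.Eq2.pz {h : S.Psv w O E} (e : h.Eq2) : S.PzH h.gd.conn w O := h.pz e.tu

theorem Psv.Eq2.lvg {h : S.Psv w O E} (e : h.Eq2) : S.LvG h.gd.conn w O := h.lvg h.kx1 e.ts

/-- characters: the crossing vertices -/
theorem Psv.Eq2.gen {h : S.Psv w O E} (e : h.Eq2) : S.Gen4 := h.eq2_gen4 (h.npl e.s) e

/-- one crossing corner at the reversed thin vertices, as walks -/
theorem Psv.Eq2.nuq {h : S.Psv w O E} (e : h.Eq2) : S.NUq h.nbm w :=
  nuq_of (aW_parW (fun _ k => k) (S.P.nd_nb h.nbm)) fun _ _ _ hs hf _ hu h2 _ =>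
    h.uqA_w e.h0 (h.ntc e.s) hu hs.1 h2 hf

/-- two reversed local pieces of one piece are one orbit -/
theorem Psv.Eq2.nraw {h : S.Psv w O E} (e : h.Eq2) : S.NRaw h.nbm w where
  lc := nraw_lc fun y _ => h.lc y
  one := by
    intro x n n' g g' s1 s2 r1 r2 hf hu hj
    obtain ⟨c, c', n1, n2, n3, n4, o1, o2, n5⟩ := id hf
    have hf' : Fintype (S.NC (S.pQ S.FlW) s1.2.2.1).fg.N := Fintype.ofFinite _
    have h0 := h.comp_eq e.h0 s1.2.2.1
    have e1 : S.LPG.rs (S.lp s1.2.2.1) S.PL =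
      (S.NC (S.pQ S.FlW) s1.2.2.1).imN (S.LPG.rQ (S.lp s1.2.2.1) S.PLq) := rs_PL s1.2.2.1
    rw [e1] at h0
    have hC : (S.NC (S.pQ S.FlW) s1.2.2.1).SoftC (S.LPG.rQ (S.lp s1.2.2.1) S.PLq)
        (S.LPG.re (S.lp s1.2.2.1)
          (exR h.gd.conn h.nbm (fun _ : Unit => w) (one_pl w) (S.pQ S.FlW))) :=
      (softC h.gd.conn (exR_ex h.gd.conn h.nbm (fun _ : Unit => w) (one_pl w) h.lR)
        (exR_em h.gd.conn h.nbm (fun _ : Unit => w) (one_pl w) h.lR) s1.2.2.1 ⟨_, n3⟩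
        (h.lc x)).rm (dupL_flW.par.comp (S.lp s1.2.2.1))
    exact swap_gen s1.2.2.1 s2.2.2.1 (S.NC (S.pQ S.FlW) s1.2.2.1) hC h0.ge s1.1 s1.2.1 s2.2.1 hj
      s1.2.2.2.2.2 r1 s2.2.2.2.2.2 r2

/-- the self pieces of the fat vertices do not become more -/
theorem Psv.Eq2.nn {h : S.Psv w O E} (e : h.Eq2) :
    ((h.kP O).thinP.fc ((h.kP O).thin_ND (h.kP_nd O))).nN ≤ (S.P.fc h.nd).nN :=
  h.nn_of h.bareF h.kx1 e.ts h.osb e.nraw e.nuq e.he

/-- the self local pieces of the fat vertices are seen -/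
theorem Psv.Eq3.visE {h : S.Psv w O E} (e : h.Eq3) :
    S.VisE h.gd.conn h.nbm w O (k0_min h.gd.conn h.wm) (S.sqN h.gd.conn w O) h.rz.F :=
  h.visE h.bareF h.kx1 e.ts h.osb e.nraw e.nuq e.he e.n

/-- the bare vertices with two diamonds -/
theorem Psv.Eq3.hdq {h : S.Psv w O E} (e : h.Eq3) : ∀ q u u', S.J q = {w} → S.Dia w u q →
    S.Dia w u' q → u ≠ u' → ∀ g : H, g • q = q → (∀ b, S.K.ar q b → g • b = b) →
    ∃ v, S.D.G.Adj w v ∧ g • v = v :=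
  h.hdq h.bareF e.ts e.visE (h.uqs_of e.h0) (h.uqt_of e.h0 (h.ntc e.s))

theorem Psv.Eq3.hle {h : S.Psv w O E} (e : h.Eq3) :
    (S.kfc h.nbm).nN ≤ (S.k0fc h.gd.conn h.nbm w).nNP (S.FatK h.nbm w) :=
  h.nn_hle h.bareF h.kx1 e.ts h.osb e.nuq e.he e.n

/-- one crossing corner at the reversed vertices -/
theorem Psv.Eq3.uqr {h : S.Psv w O E} (e : h.Eq3) :
    ∀ u w', S.Inv1 w u → S.Plc w u w' → S.UqR w u w' :=
  h.uqr_h0 e.h0 (h.ntc e.s) e.nraw e.hle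

/-- the law of `p_4` -/
theorem Psv.Eq3.p4' {h : S.Psv w O E} (e : h.Eq3) :
    (h.kP O).thin.p4 ≤ S.K.p4 ∧ (S.K.p4 ≤ (h.kP O).thin.p4 →
      (S.ZW w ∧ ∀ u, S.Inv1 w u → ∀ c : H, c • u = u → c • w ≠ w → IO c) ∨
      (¬ S.ZW w ∧ ∃ u, S.Inv1 w u ∧ S.CF u)) :=
  h.p4_law e.tu (fun hN φ hφ => h.hP4 e.pz e.lvg e.gen e.hdq hN φ hφ)
    (fun u i φ hφ hU => h.hPF4 e.pz e.lvg e.gen e.hdq u i φ hφ hU) (h.hN e.uqr)

/-- walls of type `D_inf` -/
theorem Psv.Eq3.tD {h : S.Psv w O E} (e : h.Eq3) (hz : ¬ S.ZW w) :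
    (h.kP O).thin.p4 < S.K.p4 ∨
      ((h.kP O).thin.p4 ≤ S.K.p4 ∧ (h.kP O).thin.p5 < S.K.p5) := by
  obtain ⟨h1, h2⟩ := e.p4'
  rcases h1.lt_or_eq with k | k
  · exact Or.inl k
  · rcases h2 k.ge with ⟨k1, -⟩ | ⟨-, u, i, cf⟩
    · exact absurd k1 hz
    · obtain ⟨w', v, z1, z2, r, t⟩ := h.cf_wt e.uqr i cf
      have := h.p5_F t e.tu h.kx1 e.ts h.bw (fun v hv => (h.bo u i v hv).1)
      exact Or.inr ⟨h1, by omega⟩

/-- THE LAW OF A STEP: the numbers of the folded slice go down -/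
theorem Psv.law (h : S.Psv w O E) : h.kNums.Lt h.nums := by
  refine h.lt_of h.sig_law (fun e => h.exc_law h.kx1 h.nSp_le (h.npl e)) (fun e => e.nn)
    (fun e => e.tD) (fun e _ => e.p4'.1) (fun e hz _ => h.p5_Z e.pz hz) ?_
  intro e hz hD
  obtain ⟨-, h2⟩ := e.toEq3.p4'
  rcases h2 e.p4.ge with ⟨-, k⟩ | ⟨k, -⟩
  · exact h.phi_law h.kx1 e.ts hz hD (h.plb k) fun x hx _ u hu h3 h4 =>
      h.uqC_Z e.h0 hz x hx w u hu h3 h4
  · exact absurd hz k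

end SyQ

end Pool.Agent.DI
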