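import Pool.Agent.DI.L13
import Pool.Agent.DI.BX

/-!
# The law of one vertex with half-edges (form of 2914 (1))

`G`: the local pieces, the poles and the ends of the half-edges (inverted strands); `D`: poles and
ends of half-edges, `S`: self local pieces. If `G` without `D` is connected the contribution after
the step minus the contribution before is `s + b + |D| - 2` (`FG.lawH`): `s + b + h - 2` for a
`D`-sink, `s + b + h - 1` for a self piece of a soft (one pole), `b` for a non-self piece (two poles,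
`s = h = 0`).

Leaves: if every node of `D` has degree one then `b1 G = b1 (G - D)` and `G - D` is connected as soon
as it is not empty (`FG.del_leaf`).
-/

namespace Pool.Agent.DI

open MulAction
open Pool.Agent.SAF (orbs FinOrb oc oc_mono)

namespace FG

variable (G : FG)

/-- THE LAW -/
theorem lawH [Fintype G.N] (hc : G.Cn) {D S : Set G.N} (hSD : ∀ x ∈ S, x ∉ D)
    (hdel : (G.del D).Cn) :
    G.aft D S - G.b1 = (Nat.card ↥S : ℤ) + (G.del D).b1 + Nat.card ↥D - 2 - G.nDD D := by
  have h1 := G.aft_eq hSD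
  have h2 := hc.b1
  have h3 := hdel.b1
  have h5 := G.nN_del D
  rw [h1, h2, h3, ← h5]
  push_cast
  ring

/-- deletion of leaves -/
theorem b1_del_leaf [Fintype G.N] (hc : G.Cn) {D : Set G.N} (hdel : (G.del D).Cn)
    (hdeg : ∀ x ∈ D, G.deg x = 1) (hDD : G.nDD D = 0) : (G.del D).b1 = G.b1 := by
  classical
  have h1 := G.nL_del D
  have h2 : ∑ x, (if x ∈ D then G.deg x else 0) = Nat.card ↥D := by
    have : ∑ x, (if x ∈ D then G.deg x else 0) = ∑ x, (if x ∈ D then 1 else 0) := by
      apply Finset.sum_congr rfl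
      intro x _
      split_ifs with hx
      · exact hdeg x hx
      · rfl
    rw [this, Finset.sum_ite, Finset.sum_const_zero, add_zero, Finset.sum_const, smul_eq_mul,
      mul_one, Nat.card_eq_fintype_card, Fintype.card_subtype]
  have h3 := G.nN_del D
  rw [hc.b1, hdel.b1]
  rw [h2, hDD] at h1
  omega

/-- a line with an end at a leaf -/
theorem leaf_line {x : G.N} (h : G.deg x = 1) {e e' : G.L} (he : G.a e = x ∨ G.b e = x)
    (he' : G.a e' = x ∨ G.b e' = x) : e = e' := by
  unfold deg at h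
  have key : ∀ g : G.L → G.N, Nat.card {e // g e = x} ≤ 1 → ∀ e e', g e = x → g e' = x → e = e' := by
    intro g hg e e' h1 h2
    have : Subsingleton {e // g e = x} := Finite.card_le_one_iff_subsingleton.1 hg
    exact congrArg Subtype.val (Subsingleton.elim (⟨e, h1⟩ : {e // g e = x}) ⟨e', h2⟩)
  have key2 : ∀ g : G.L → G.N, ∀ e, g e = x → 0 < Nat.card {e // g e = x} := by
    intro g e h1
    have : Nonempty {e // g e = x} := ⟨⟨e, h1⟩⟩
    exact Nat.card_pos
  rcases he with he | he <;> rcases he' with he' | he'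
  · exact key G.a (by omega) e e' he he'
  · have h1 := key2 G.a e he
    have h2 := key2 G.b e' he'
    omega
  · have h1 := key2 G.b e he
    have h2 := key2 G.a e' he'
    omega
  · exact key G.b (by omega) e e' he he'

theorem leaf_no_loop {x : G.N} (h : G.deg x = 1) {e : G.L} (h1 : G.a e = x) (h2 : G.b e = x) :
    False := by
  unfold deg at h
  have k1 : 0 < Nat.card {e // G.a e = x} := by
    have : Nonempty {e // G.a e = x} := ⟨⟨e, h1⟩⟩
    exact Nat.card_pos
  have k2 : 0 < Nat.card {e // G.b e = x} := by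
    have : Nonempty {e // G.b e = x} := ⟨⟨e, h2⟩⟩
    exact Nat.card_pos
  omega

/-- the graph without some leaves is connected -/
theorem cn_del_leaf (hc : G.Cn) {D : Set G.N} (hdeg : ∀ x ∈ D, G.deg x = 1) (hDD : G.nDD D = 0)
    (hne : ∃ x, x ∉ D) : (G.del D).Cn := by
  classical
  have hno : ∀ e, G.a e ∈ D → G.b e ∈ D → False := by
    intro e h1 h2
    unfold nDD at hDD
    have : Nonempty {e // G.a e ∈ D ∧ G.b e ∈ D} := ⟨⟨e, h1, h2⟩⟩
    have := Nat.card_pos (α := {e // G.a e ∈ D ∧ G.b e ∈ D})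
    omega
  -- the line at a leaf
  have hex : ∀ x ∈ D, ∃ e, G.a e = x ∨ G.b e = x := by
    intro x hx
    have h := hdeg x hx
    unfold deg at h
    by_contra hno'
    push Not at hno'
    have h1 : IsEmpty {e // G.a e = x} := ⟨fun e => (hno' e.1).1 e.2⟩
    have h2 : IsEmpty {e // G.b e = x} := ⟨fun e => (hno' e.1).2 e.2⟩
    rw [Nat.card_of_isEmpty, Nat.card_of_isEmpty] at h
    omega
  choose ln hln using hex
  -- the other end
  obtain ⟨x0, hx0⟩ := hne
  let oe : G.N → G.N := fun x => if h : x ∈ D then (if G.a (ln x h) = x then G.b (ln x h) else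
    G.a (ln x h)) else x
  have oe_not : ∀ x, x ∉ D → oe x = x := fun x hx => dif_neg hx
  have oe_a : ∀ e, G.a e ∈ D → oe (G.a e) = G.b e := by
    intro e he
    simp only [oe]
    rw [dif_pos he]
    have h1 : ln (G.a e) he = e := G.leaf_line (hdeg _ he) (hln _ he) (Or.inl rfl)
    rw [h1, if_pos rfl]
  have oe_b : ∀ e, G.b e ∈ D → oe (G.b e) = G.a e := by
    intro e he
    simp only [oe]
    rw [dif_pos he]
    have h1 : ln (G.b e) he = e := G.leaf_line (hdeg _ he) (hln _ he) (Or.inr rfl)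
    rw [h1, if_neg (fun h => G.leaf_no_loop (hdeg _ he) h rfl)]
  have oe_mem : ∀ x, oe x ∉ D := by
    intro x
    by_cases hx : x ∈ D
    · rcases hln x hx with h | h
      · have h1 : G.a (ln x hx) ∈ D := by rw [h]; exact hx
        have h2 := oe_a _ h1
        rw [h] at h2
        rw [h2]
        exact fun h3 => hno _ h1 h3
      · have h1 : G.b (ln x hx) ∈ D := by rw [h]; exact hx
        have h2 := oe_b _ h1
        rw [h] at h2
        rw [h2]
        exact fun h3 => hno _ h3 h1
    · rw [oe_not x hx]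
      exact hx
  let f : G.N → (G.del D).C := fun x => (G.del D).c ⟨oe x, oe_mem x⟩
  have hf : ∀ e, f (G.a e) = f (G.b e) := by
    intro e
    by_cases h1 : G.a e ∈ D
    · have h2 : G.b e ∉ D := fun h2 => hno e h1 h2
      show (G.del D).c _ = (G.del D).c _
      congr 1
      apply Subtype.ext
      show oe (G.a e) = oe (G.b e)
      rw [oe_a e h1, oe_not _ h2]
    · by_cases h2 : G.b e ∈ D
      · show (G.del D).c _ = (G.del D).c _
        congr 1
        apply Subtype.ext
        show oe (G.a e) = oe (G.b e)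
        rw [oe_b e h2, oe_not _ h1]
      · have h3 := c_line (G := G.del D) ⟨e, h1, h2⟩
        have e1 : f (G.a e) = (G.del D).c ⟨G.a e, h1⟩ := by
          show (G.del D).c _ = _
          congr 1
          exact Subtype.ext (oe_not _ h1)
        have e2 : f (G.b e) = (G.del D).c ⟨G.b e, h2⟩ := by
          show (G.del D).c _ = _
          congr 1
          exact Subtype.ext (oe_not _ h2)
        rw [e1, e2]
        exact h3
  rw [cn_iff]
  refine ⟨⟨⟨x0, hx0⟩⟩, ?_⟩
  rintro ⟨x, hx⟩ ⟨y, hy⟩
  have h := const_of_line hf (c_eq.1 ((G.cn_iff.1 hc).2 x y))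
  have e1 : f x = (G.del D).c ⟨x, hx⟩ := by
    show (G.del D).c _ = _
    congr 1
    exact Subtype.ext (oe_not _ hx)
  have e2 : f y = (G.del D).c ⟨y, hy⟩ := by
    show (G.del D).c _ = _
    congr 1
    exact Subtype.ext (oe_not _ hy)
  rw [← e1, ← e2]
  exact h

/-- THE LAW for a sink: all nodes of `D` are ends of half-edges (leaves) -/
theorem lawH_sink [Fintype G.N] (hc : G.Cn) {D S : Set G.N} (hSD : ∀ x ∈ S, x ∉ D)
    (hdeg : ∀ x ∈ D, G.deg x = 1) (hDD : G.nDD D = 0) (hne : ∃ x, x ∉ D) :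
    G.aft D S - G.b1 = (Nat.card ↥S : ℤ) + Nat.card ↥D + G.b1 - 2 := by
  have h1 := G.cn_del_leaf hc hdeg hDD hne
  rw [G.lawH hc hSD h1, G.b1_del_leaf hc h1 hdeg hDD, hDD]
  push_cast
  ring

end FG

namespace JM

variable {J T Ed : Type} [Group J] [MulAction J T] [MulAction J Ed] (M : JM J T Ed)

/-- THE LAW for a sink of `D_inf` type: the term is `s + h + b - 2 ≥ 0`; `Dh`: the orbits of the ends
of the half-edges (mirrored leaves), the self local pieces are the other mirrored orbits -/
theorem lawH_sink [Fintype M.fg.N] (L : DL J) (hne : Nonempty T)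
    (hconn : ∀ x y : T, Relation.EqvGen M.st x y) (hfin : ∀ x : T, Finite ↥(stabilizer J x))
    {Dh : Set M.fg.N} (hmir : Dh ⊆ M.mN L.Mir) (hdeg : ∀ x ∈ Dh, M.fg.deg x = 1)
    (hDD : M.fg.nDD Dh = 0) (hex : ∃ x, x ∉ Dh) :
    M.fg.aft Dh (M.mN L.Mir \ Dh) - M.fg.b1 =
      (Nat.card ↥(M.mN L.Mir \ Dh) : ℤ) + Nat.card ↥Dh + M.fg.b1 - 2 ∧
    0 ≤ (Nat.card ↥(M.mN L.Mir \ Dh) : ℤ) + Nat.card ↥Dh + M.fg.b1 - 2 := by
  refine ⟨M.fg.lawH_sink (M.cn_of_conn hne hconn) (fun x hx => hx.2) hdeg hDD hex, ?_⟩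
  have h1 := M.two_le L hne hconn hfin
  have h2 : Nat.card ↥(M.mN L.Mir \ Dh) + Nat.card ↥Dh = Nat.card ↥(M.mN L.Mir) := by
    have hfN : Finite M.fg.N := inferInstance
    have hf : (M.mN L.Mir).Finite := @Set.toFinite M.fg.N (M.mN L.Mir)
      (Subtype.finite (α := M.fg.N) (p := fun x => x ∈ M.mN L.Mir))
    exact Set.ncard_sdiff_add_ncard_of_subset hmir hf
  omega

end JM

end Pool.Agent.DI
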