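import Pool.Agent.DI.ClsK
import Pool.Agent.DI.UK

/-!
# Lemma V: the groups of the local pieces are killed

`leaf_kill`: a group acts on a graph; some vertices (leaves) have one orbit of neighbours under their
stabiliser. A character which kills the stabilisers of the leaves and the stabilisers of the components of
the graph without the leaves kills the stabilisers of the components.
`lemV`: `S : SyQ H V`, `y` crosses the edge `w u0`. A character of `H_w` which kills the groups of the pieces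
of the class of `y` in the folded slice kills the groups of the pieces of `y` in the raw slice.
-/

namespace Pool.Agent.DI

open MulAction
open Pool.Agent.SAF (InC orbs FinOrb oc Decomp SAn SA Conv hull dist_edge FinOrb_iff exists_next)
open Pool.Agent.BT (PX PQ JS bey exits lz lz_self lz_ne lz_symm x_next_unique)
open Pool.Agent.BT.TA

/-! ### the abstract lemma -/

section abs

variable {G X : Type} [Group G] [MulAction G X]

theorem eqv_rtg {R : X → X → Prop} (hsym : ∀ a b, R a b → R b a) {a b : X}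
    (h : Relation.EqvGen R a b) : Relation.ReflTransGen R a b := by
  have hs : ∀ a b, Relation.ReflTransGen R a b → Relation.ReflTransGen R b a := by
    intro a b h
    induction h with
    | refl => exact Relation.ReflTransGen.refl
    | tail _ e ih => exact Relation.ReflTransGen.head (hsym _ _ e) ih
  induction h with
  | rel a b h => exact Relation.ReflTransGen.single h
  | refl a => exact Relation.ReflTransGen.refl
  | symm a b _ ih => exact hs _ _ ih
  | trans a b c _ _ i1 i2 => exact i1.trans i2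

theorem leaf_kill (φ : H2m G) (B : Subgroup G) (R : X → X → Prop) (hsym : ∀ a b, R a b → R b a)
    (hR : ∀ g ∈ B, ∀ a b, R a b → R (g • a) (g • b)) (L : X → Prop)
    (hL : ∀ g ∈ B, ∀ a, L a → L (g • a)) (T : X → X → Prop) (hTt : ∀ a b c, T a b → T b c → T a c)
    (hTr : ∀ a, T a a) (hTs : ∀ g ∈ B, ∀ a b, T a b → T (g • a) (g • b)) (a0 : X)
    (h1 : ∀ a b, R a b → ¬ L a → ¬ L b → T a b)
    (h2 : ∀ g ∈ B, ∀ a, Relation.EqvGen R a0 a → ¬ L a → T a (g • a) → φ (Additive.ofMul g) = 0)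
    (h3 : ∀ q, L q → ∀ a b, R q a → R q b → ∃ g ∈ B, g • q = q ∧ g • a = b)
    (h4 : ∀ q, L q → ∀ g ∈ B, g • q = q → φ (Additive.ofMul g) = 0)
    (h5 : ∀ q, L q → ∀ g ∈ B, ¬ R q (g • q)) {g : G} (hg : g ∈ B)
    (hgg : Relation.EqvGen R a0 (g • a0)) : φ (Additive.ofMul g) = 0 := by
  have hRe : ∀ g ∈ B, ∀ a b, Relation.EqvGen R a b → Relation.EqvGen R (g • a) (g • b) := by
    intro g hg a b h
    induction h with
    | rel a b h => exact Relation.EqvGen.rel _ _ (hR g hg _ _ h)
    | refl a => exact Relation.EqvGen.refl _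
    | symm a b _ ih => exact ih.symm
    | trans a b c _ _ i1 i2 => exact i1.trans _ _ _ i2
  have hinv : ∀ g k : G, φ (Additive.ofMul k) = 0 → φ (Additive.ofMul (k⁻¹ * g)) = 0 →
      φ (Additive.ofMul g) = 0 := by
    intro g k h1 h2
    rw [h2_mul, h2_inv, h1] at h2
    simpa using h2
  by_cases hcase : ∃ a1, Relation.EqvGen R a0 a1 ∧ ¬ L a1
  · obtain ⟨a1, h01, hn1⟩ := hcase
    let P : X → Prop := fun x => ∃ k ∈ B, φ (Additive.ofMul k) = 0 ∧ T (k • a1) x
    let Gd : X → Prop := fun x => (¬ L x → P x) ∧ (L x → ∃ m, R x m ∧ ¬ L m ∧ P m)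
    have step : ∀ x y, R x y → Gd x → Gd y := by
      rintro x y e ⟨k1, k2⟩
      by_cases hx : L x
      · obtain ⟨m, hm, hLm, c, hc, c1, c2⟩ := k2 hx
        obtain ⟨k, hk, e1, e2⟩ := h3 x hx m y hm e
        have hy : ¬ L y := by
          intro hy
          apply hLm
          have := hL k⁻¹ (B.inv_mem hk) y hy
          rwa [← e2, inv_smul_smul] at this
        refine ⟨fun _ => ⟨k * c, B.mul_mem hk hc, ?_, ?_⟩, fun h => absurd h hy⟩
        · rw [h2_mul, c1, h4 x hx k hk e1, add_zero]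
        · rw [mul_smul, ← e2]
          exact hTs k hk _ _ c2
      · obtain ⟨c, hc, c1, c2⟩ := k1 hx
        refine ⟨fun hy => ⟨c, hc, c1, hTt _ _ _ c2 (h1 x y e hx hy)⟩,
          fun hy => ⟨x, hsym _ _ e, hx, c, hc, c1, c2⟩⟩
    have all : ∀ x, Relation.ReflTransGen R a1 x → Gd x := by
      intro x h
      induction h with
      | refl =>
        refine ⟨fun _ => ⟨1, B.one_mem, ?_, ?_⟩, fun h => absurd h hn1⟩
        · rw [ofMul_one, map_zero]
        · rw [one_smul]
          exact hTr _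
      | tail _ e ih => exact step _ _ e ih
    have hg1 : Relation.EqvGen R a1 (g • a1) :=
      (h01.symm.trans _ _ _ hgg).trans _ _ _ (hRe g hg _ _ h01)
    have hng : ¬ L (g • a1) := by
      intro h
      apply hn1
      have := hL g⁻¹ (B.inv_mem hg) _ h
      rwa [inv_smul_smul] at this
    obtain ⟨k, hk, k1, k2⟩ := (all _ (eqv_rtg hsym hg1)).1 hng
    have k3 := hTs k⁻¹ (B.inv_mem hk) _ _ k2
    rw [inv_smul_smul, ← mul_smul] at k3
    exact hinv g k k1 (h2 _ (B.mul_mem (B.inv_mem hk) hg) a1 h01 hn1 k3)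
  · push Not at hcase
    have hl0 : L a0 := hcase a0 (Relation.EqvGen.refl _)
    by_cases hm : ∃ m, R a0 m
    · obtain ⟨m, hm⟩ := hm
      have hlm : L m := hcase m (Relation.EqvGen.rel _ _ hm)
      let Gd : X → Prop := fun x => (∃ k ∈ B, φ (Additive.ofMul k) = 0 ∧ k • a0 = x) ∨
        ∃ k ∈ B, φ (Additive.ofMul k) = 0 ∧ k • m = x
      have key : ∀ p q : X, L p → R p q → ∀ k ∈ B, φ (Additive.ofMul k) = 0 → ∀ y, R (k • p) y →
          ∃ k' ∈ B, φ (Additive.ofMul k') = 0 ∧ k' • q = y := by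
        intro p q hp hpq k hk k1 y hy
        have h6 := hR k⁻¹ (B.inv_mem hk) _ _ hy
        rw [inv_smul_smul] at h6
        obtain ⟨c, hc, c1, c2⟩ := h3 p hp q _ hpq h6
        refine ⟨k * c, B.mul_mem hk hc, ?_, ?_⟩
        · rw [h2_mul, k1, h4 p hp c hc c1, add_zero]
        · rw [mul_smul, c2, smul_inv_smul]
      have all : ∀ x, Relation.ReflTransGen R a0 x → Gd x := by
        intro x h
        induction h with
        | refl => exact Or.inl ⟨1, B.one_mem, by rw [ofMul_one, map_zero], one_smul _ _⟩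
        | tail _ e ih =>
          rcases ih with ⟨k, hk, k1, k2⟩ | ⟨k, hk, k1, k2⟩
          · rw [← k2] at e
            exact Or.inr (key a0 m hl0 hm k hk k1 _ e)
          · rw [← k2] at e
            exact Or.inl (key m a0 hlm (hsym _ _ hm) k hk k1 _ e)
      rcases all _ (eqv_rtg hsym hgg) with ⟨k, hk, k1, k2⟩ | ⟨k, hk, k1, k2⟩
      · refine hinv g k k1 (h4 a0 hl0 _ (B.mul_mem (B.inv_mem hk) hg) ?_)
        rw [mul_smul, ← k2, inv_smul_smul]
      · exfalso
        refine h5 a0 hl0 (k⁻¹ * g) (B.mul_mem (B.inv_mem hk) hg) ?_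
        rw [mul_smul, ← k2, inv_smul_smul]
        exact hm
    · push Not at hm
      have all : ∀ x, Relation.ReflTransGen R a0 x → x = a0 := by
        intro x h
        induction h with
        | refl => rfl
        | tail _ e ih =>
          rw [ih] at e
          exact absurd e (hm _)
      exact h4 a0 hl0 g hg (all _ (eqv_rtg hsym hgg))

end abs

/-- a piece which is in no cell is one vertex -/
theorem GX.ij_ec {H V : Type} [Group H] [MulAction H V] {K : GX H V} {y a b : V}
    (h : K.IJ y a b) (he : ¬ K.EC a y) : b = a := by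
  have key : ∀ x z, K.IJ y x z → (x = a ↔ z = a) := by
    intro x z k
    induction k with
    | rel x z k =>
      constructor
      · intro e
        rw [e] at k
        exact absurd (GX.EC_iff.2 ⟨_, k.1⟩) he
      · intro e
        rw [e] at k
        exact absurd (GX.EC_iff.2 ⟨_, k.1.symm⟩) he
    | refl x => exact Iff.rfl
    | symm x z _ ih => exact ih.symm
    | trans x z t _ _ i1 i2 => exact i1.trans i2
  exact (key a b h).1 rfl

namespace SyQ

variable {H V : Type} [Group H] [MulAction H V] {S : SyQ H V}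

section

variable {hc : S.Conn} {w : S.X} {O : S.OR w} (hm : (S.k0 hc w).Min) (hn : S.SqN w O)

/-- all pentagons of the raw slice are kept -/
theorem k0_Qn_kf {A B C D E : S.SV w} (h : Qn (S.k0P hc w) A B C D E) :
    Qn (S.kfP hc w O hm hn) (S.fq w O A) (S.fq w O B) (S.fq w O C) (S.fq w O D) (S.fq w O E) := by
  obtain ⟨g, i, j, hi, h⟩ := h
  rcases i with c | p
  · refine ⟨g, Sum.inl c, j, kfP_not_sq hm hn c, ?_⟩
    rcases h with ⟨rfl, rfl, rfl, rfl, rfl⟩ | ⟨rfl, rfl, rfl, rfl, rfl⟩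
    · exact Or.inl ⟨rfl, rfl, rfl, rfl, rfl⟩
    · exact Or.inr ⟨rfl, rfl, rfl, rfl, rfl⟩
  · exact absurd ⟨p, rfl⟩ hi

include hm hn in
/-- the fate of a corner of the raw slice -/
theorem k0_cor_kf {A Y B : S.SV w} (h : (S.k0 hc w).Cor A Y B) :
    (S.kf hc w O).Cor (S.fq w O A) (S.fq w O Y) (S.fq w O B) ∨
      ∃ E, Q4 (S.k0P hc w) A Y B E ∧
        (S.fq w O A = S.fq w O B ∨ S.fq w O Y = S.fq w O E) := by
  rcases (S.k0P hc w).cor_iff.1 h with ⟨C, D, h⟩ | ⟨E, h⟩
  · exact Or.inl ((S.kfP hc w O hm hn).cor_iff.2 (Or.inl ⟨_, _, k0_Qn_kf hm hn h⟩))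
  · by_cases h1 : S.fq w O A = S.fq w O B
    · exact Or.inr ⟨E, h, Or.inl h1⟩
    · by_cases h2 : S.fq w O Y = S.fq w O E
      · exact Or.inr ⟨E, h, Or.inr h2⟩
      · exact Or.inl ((S.kfP hc w O hm hn).cor_iff.2 (Or.inr ⟨_, k0_Q4_kf hm hn h h1 h2⟩))

theorem sar_node {y : V} {A : S.SV w} (hy : w ∈ S.J y) (h : S.SAr w A (S.rho w y)) :
    ∃ n, w ∈ S.J n ∧ S.K.ar n y ∧ A = S.rho w n := by
  rw [S.rho_near hy] at h
  cases h with
  | hor x a e => exact ⟨x.1, x.2, e, (S.rho_near x.2).symm⟩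

theorem rho_inj' {x x' : V} (hx : w ∈ S.J x) (hx' : w ∈ S.J x')
    (e : S.rho w x = S.rho w x') : x = x' := by
  rw [S.rho_near hx, S.rho_near hx'] at e
  exact congrArg Subtype.val (Sum.inl.inj e)

/-- a vertex which crosses an edge at `w` is no hub -/
theorem lv_op {y : V} (hO : O.Nf) (hy : w ∈ S.J y) {u0 : S.X} (hu0 : S.D.G.Adj w u0)
    (hc0 : u0 ∈ S.J y) : ∀ u, S.D.G.Adj w u → O.op u y :=
  hO.n1 y hy (fun _ hd => hd.not_cs hu0 hc0)

/-- in-nodes of a vertex with open stars are terminal -/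
theorem lv_term {y n : V} (hy : w ∈ S.J y) (ho : ∀ u, S.D.G.Adj w u → O.op u y)
    (hn' : S.K.ar n y) : ∀ x, ¬ S.Dn w O n x := by
  rintro x ⟨u, s, hu, hcs, h1, h2, h3, h4, h5⟩
  have e : s = y := ar_ar_eq hcs.1 h1 h2 hn' hy hu hcs.2
  subst e
  exact h3.2 (ho u hu)

theorem lv_ar {y n : V} (hy : w ∈ S.J y) (hnw : w ∈ S.J n)
    (ho : ∀ u, S.D.G.Adj w u → O.op u y) (hn' : S.K.ar n y)
    (hs : ∀ u, ¬ S.Sk w O u (S.rho w n)) :
    (S.kf hc w O).ar (S.fq w O (S.rho w n)) (S.fq w O (S.rho w y)) := by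
  refine arQ_term hnw ?_ (lv_term hy ho hn') (sar_hor hnw hy hn')
  rw [S.rho_near hnw] at hs
  exact hs

/-- DATA OF LEMMA V: `y` crosses `w u0` -/
structure LVh (hc : S.Conn) (w : S.X) (O : S.OR w) (y : V) (u0 : S.X)
    (B : Subgroup ↥(stabilizer H w)) (φ : H2m ↥(stabilizer H w)) : Prop where
  nf : O.Nf
  kin : S.KIn w
  hy : w ∈ S.J y
  hu : S.D.G.Adj w u0
  hcr : u0 ∈ S.J y
  fix : ∀ g ∈ B, g.1 • y = y
  /-- the character kills the groups of the pieces of the class -/
  pg : ∀ g ∈ B, ∀ m, (S.kf hc w O).PG (S.fq w O (S.rho w y)) m g → φ (Additive.ofMul g) = 0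
  /-- every local piece touches the direction `u0` -/
  ts : ∀ n, w ∈ S.J n → S.K.ar n y → ∃ A, (S.k0 hc w).IJ (S.rho w y) (S.rho w n) A ∧
    (S.k0 hc w).Cor A (S.rho w y) (Sum.inr ⟨u0, hu⟩)
  /-- folded hubs are leaves -/
  leaf : ∀ q, w ∈ S.J q → S.K.ar q y → (∃ u, S.SD w u q ∧ ¬ O.op u q) → ∀ A A',
    (S.k0 hc w).IC (S.rho w y) (S.rho w q) A → (S.k0 hc w).IC (S.rho w y) (S.rho w q) A' →
    ∃ g ∈ B, g.1 • q = q ∧ g • A = A'
  /-- no corner between translates of a folded hub -/
  nself : ∀ q, w ∈ S.J q → S.K.ar q y → (∃ u, S.SD w u q ∧ ¬ O.op u q) → ∀ g ∈ B,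
    ¬ (S.k0 hc w).IC (S.rho w y) (S.rho w q) (g • S.rho w q)
  /-- no local square at a folded hub -/
  nsq : ∀ q, w ∈ S.J q → S.K.ar q y → (∃ u, S.SD w u q ∧ ¬ O.op u q) → ∀ m z,
    Q4 S.P m y q z → w ∈ S.J m → w ∈ S.J z → False
  /-- the sides of the local squares are not identified -/
  old : ∀ T a b z, S.P.Top T a b z → S.Loc w T a b z →
    S.fq w O (S.rho w a) ≠ S.fq w O (S.rho w b)
  /-- the character kills the stabilisers of the hubs -/
  hub : ∀ q, w ∈ S.J q → S.K.ar q y → (∃ u, S.Dia w u q) → ∀ g ∈ B, g.1 • q = q →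
    φ (Additive.ofMul g) = 0

variable {y : V} {u0 : S.X} {B : Subgroup ↥(stabilizer H w)} {φ : H2m ↥(stabilizer H w)}

/-- a square of the raw slice at `y` between two in-nodes -/
theorem LVh.sq (L : S.LVh hc w O y u0 B φ) (hnd : (S.k0P hc w).ND) {n m : V} {E : S.SV w}
    (hnw : w ∈ S.J n) (hmw : w ∈ S.J m) (h1 : S.K.ar n y) (h2 : S.K.ar m y)
    (h : Q4 (S.k0P hc w) (S.rho w n) (S.rho w y) (S.rho w m) E)
    (he : S.fq w O (S.rho w y) = S.fq w O E) :
    S.fq w O (S.rho w n) = S.fq w O (S.rho w m) := by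
  have hne := (h.ck_ne hnd).2
  by_contra hcon
  rcases k0_Q4_cases hc h with ⟨a, q, b, z, k1, k2, k3, k4, e1, e2, e3, e4⟩ |
    ⟨u, x, s, x', hs, hr⟩
  · obtain rfl := rho_inj' k2.p0 hnw e1.symm
    obtain rfl := rho_inj' k2.p1 L.hy e2.symm
    obtain rfl := rho_inj' k2.p2 hmw e3.symm
    rw [e4] at he hne
    rcases k1.ck_top L.kin.top with t | t | t | t
    · exact L.old _ _ _ _ t ⟨k2.p0, k2.p1, k2.p3, k2.p2⟩ he
    · exact GX.ck_asym h1 t.2.2
    · exact L.old _ _ _ _ t ⟨k2.p2, k2.p3, k2.p1, k2.p0⟩ he.symm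
    · have hl : S.Loc w z a b q := ⟨k2.p3, k2.p0, k2.p2, k2.p1⟩
      have := cls_one k2.p3 (fun v hv => L.kin.no_cs t hl hv)
        (fun v => L.nf.loc_nsk t hl k2.p3 v) (c := S.rho w q) he
      exact hne this
  · rcases hr with ⟨e1, e2, e3, e4⟩ | ⟨e1, e2, e3, e4⟩ | ⟨e1, e2, e3, e4⟩ | ⟨e1, e2, e3, e4⟩
    · rw [e4] at he
      have := fq_inr.1 he
      rw [S.rho_near L.hy] at this
      exact Sk.not_el L.hu L.hcr this
    · rw [S.rho_near hmw] at e3
      cases e3
    · rw [S.rho_near L.hy] at e2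
      cases e2
    · rw [S.rho_near hnw] at e1
      cases e1

include hm hn in
/-- THE GROUPS OF THE LOCAL PIECES ARE KILLED -/
theorem lemV (L : S.LVh hc w O y u0 B φ) (hnd : (S.k0P hc w).ND) {n : V} (hnw : w ∈ S.J n)
    (hny : S.K.ar n y) {g : ↥(stabilizer H w)} (hg : g ∈ B)
    (hgg : (S.k0 hc w).IJ (S.rho w y) (S.rho w n) (g • S.rho w n)) : φ (Additive.ofMul g) = 0 := by
  have hy := L.hy
  have ho := lv_op L.nf hy L.hu L.hcr
  have hYfix : ∀ g ∈ B, g • S.rho w y = S.rho w y := by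
    intro g hg
    rw [← S.rho_smul, L.fix g hg]
  have hYsk : ∀ u, ¬ S.Sk w O u (S.rho w y) := by
    intro u
    rw [S.rho_near hy]
    exact Sk.not_el L.hu L.hcr
  have hYf : ∀ g ∈ B, g • S.fq w O (S.rho w y) = S.fq w O (S.rho w y) := by
    intro g hg
    rw [← fq_smul, hYfix g hg]
  let K0 := S.k0 hc w
  let Kf := S.kf hc w O
  let R : S.SV w → S.SV w → Prop := (S.k0 hc w).IC (S.rho w y)
  let Lf : S.SV w → Prop := fun A => S.SAr w A (S.rho w y) ∧ ∃ u, S.Sk w O u A
  let T : S.SV w → S.SV w → Prop := fun A A' =>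
    (S.kf hc w O).IJ (S.fq w O (S.rho w y)) (S.fq w O A) (S.fq w O A')
  -- folded hubs
  have hLf : ∀ A, Lf A → ∃ q, w ∈ S.J q ∧ S.K.ar q y ∧ A = S.rho w q ∧
      ∃ u, S.SD w u q ∧ ¬ O.op u q := by
    rintro A ⟨h1, u, h2⟩
    obtain ⟨q, hq, e1, rfl⟩ := sar_node hy h1
    rw [S.rho_near hq] at h2
    exact ⟨q, hq, e1, rfl, u.1, Sk.inl.1 h2⟩
  -- unfolded nodes
  have har : ∀ A, S.SAr w A (S.rho w y) → ¬ Lf A →
      (S.kf hc w O).ar (S.fq w O A) (S.fq w O (S.rho w y)) := by
    intro A h1 h2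
    obtain ⟨q, hq, e1, rfl⟩ := sar_node hy h1
    exact lv_ar hy hq ho e1 (fun u k => h2 ⟨h1, u, k⟩)
  -- the fate of a corner between in-nodes
  have hcor : ∀ A A', R A A' →
      (S.kf hc w O).Cor (S.fq w O A) (S.fq w O (S.rho w y)) (S.fq w O A') ∨
      ((∃ E, Q4 (S.k0P hc w) A (S.rho w y) A' E) ∧ S.fq w O A = S.fq w O A') := by
    rintro A A' ⟨h1, h2, h3⟩
    obtain ⟨a, ha, e1, rfl⟩ := sar_node hy h2
    obtain ⟨a', ha', e2, rfl⟩ := sar_node hy h3
    rcases k0_cor_kf hm hn h1 with k | ⟨E, k, e | e⟩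
    · exact Or.inl k
    · exact Or.inr ⟨⟨E, k⟩, e⟩
    · exact Or.inr ⟨⟨E, k⟩, L.sq hnd ha ha' e1 e2 k e⟩
  -- a corner at a folded hub is kept
  have hleafcor : ∀ A A', R A A' → Lf A' →
      (S.kf hc w O).Cor (S.fq w O A) (S.fq w O (S.rho w y)) (S.fq w O A') := by
    rintro A A' h hl
    rcases hcor A A' h with k | ⟨⟨E, k⟩, -⟩
    · exact k
    · exfalso
      obtain ⟨h1, h2, h3⟩ := h
      obtain ⟨a, ha, e1, rfl⟩ := sar_node hy h2
      obtain ⟨q, hq, e2, rfl, u', hsd⟩ := hLf A' hl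
      rcases k0_Q4_cases hc k with ⟨a1, y1, q1, z, k1, k2, k3, k4, e1', e2', e3', e4'⟩ |
        ⟨u, x, s, x', hs, hr⟩
      · obtain rfl := rho_inj' k2.p0 ha e1'.symm
        obtain rfl := rho_inj' k2.p1 hy e2'.symm
        obtain rfl := rho_inj' k2.p2 hq e3'.symm
        exact L.nsq _ hq e2 ⟨u', hsd⟩ _ _ k1 k2.p0 k2.p3
      · rcases hr with ⟨e1', e2', e3', e4'⟩ | ⟨e1', e2', e3', e4'⟩ | ⟨e1', e2', e3', e4'⟩ |
          ⟨e1', e2', e3', e4'⟩
        · have := rho_inj' hq hs.r.1 e3'
          rw [← this] at hs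
          exact hsd.1.1.not_cs hs.adj hs.r.2
        · rw [S.rho_near hq] at e3'
          cases e3'
        · rw [S.rho_near hy] at e2'
          cases e2'
        · rw [S.rho_near ha] at e1'
          cases e1'
  refine leaf_kill φ B R (fun a b h => h.symm') (fun g hg a b h => ?_) Lf (fun g hg a h => ?_) T
    (fun a b c h h' => h.trans' h') (fun a => Relation.EqvGen.refl _) (fun g hg a b h => ?_)
    (S.rho w n) (fun a b h h1 h2 => ?_) (fun g hg a h h1 h2 => ?_) (fun q h a b h1 h2 => ?_)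
    (fun q h g hg h1 => ?_) (fun q h g hg h1 => ?_) hg hgg
  · have h' : (S.k0 hc w).IC (S.rho w y) a b := h
    have := h'.smul g
    rwa [hYfix g hg] at this
  · obtain ⟨h1, u, h2⟩ := h
    refine ⟨?_, g • u, h2.smul g⟩
    have := h1.smul g
    rwa [hYfix g hg] at this
  · have h' : (S.kf hc w O).IJ (S.fq w O (S.rho w y)) (S.fq w O a) (S.fq w O b) := h
    have := h'.smul g
    rwa [hYf g hg] at this
  · -- adjacent unfolded nodes
    rcases hcor a b h with k | ⟨-, k⟩
    · exact Relation.EqvGen.rel _ _ ⟨k, har a h.2.1 h1, har b h.2.2 h2⟩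
    · show (S.kf hc w O).IJ _ (S.fq w O a) (S.fq w O b)
      rw [k]
      exact Relation.EqvGen.refl _
  · -- unfolded nodes
    have hij : (S.k0 hc w).IJ (S.rho w y) (S.rho w n) a := h
    have ha : S.SAr w a (S.rho w y) :=
      hij.ar.1 (sar_hor hnw hy hny)
    have hkar := har a ha h1
    have h2' : (S.kf hc w O).IJ (S.fq w O (S.rho w y)) (S.fq w O a) (g • S.fq w O a) := h2
    by_cases hec : (S.kf hc w O).EC (S.fq w O a) (S.fq w O (S.rho w y))
    · exact L.pg g hg _ ⟨⟨_, arQ_up (S := S) (w := w) (O := O) L.hu ⟨hy, L.hcr⟩⟩, hkar, hec,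
        hYf g hg, h2'⟩
    · -- all nodes of the local piece are in the class of `a`
      have hall : ∀ b, Relation.ReflTransGen R a b → S.fq w O b = S.fq w O a ∧ ¬ Lf b := by
        intro b hb
        induction hb with
        | refl => exact ⟨rfl, h1⟩
        | @tail b c _ e ih =>
          have hlc : ¬ Lf c := by
            intro hl
            have k := hleafcor b c e hl
            rw [ih.1] at k
            exact hec (GX.EC_iff.2 ⟨_, k⟩)
          refine ⟨?_, hlc⟩
          rcases hcor b c e with k | ⟨-, k⟩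
          · rw [ih.1] at k
            exact absurd (GX.EC_iff.2 ⟨_, k⟩) hec
          · rw [← k, ih.1]
      obtain ⟨q0, hq0, e0, ea⟩ := sar_node hy ha
      obtain ⟨A, hA, hA'⟩ := L.ts q0 hq0 e0
      rw [← ea] at hA
      obtain ⟨eA, hlA⟩ := hall A (eqv_rtg (fun a b (h : R a b) => h.symm') hA)
      have hAa : S.SAr w A (S.rho w y) := hA.ar.1 ha
      obtain ⟨m, hmw, emy, rfl⟩ := sar_node hy hAa
      -- the corner in the direction `u0` is not kept
      have hdia : ∃ u, S.Dia w u m := by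
        rcases k0_cor_kf (O := O) hm hn hA' with k | ⟨E, k, e⟩
        · rw [eA] at k
          exact absurd (GX.EC_iff.2 ⟨_, k⟩) hec
        · have hE := (k.ck_ne hnd).2
          have e : S.fq w O (S.rho w y) = S.fq w O E := by
            rcases e with e | e
            · exact absurd ⟨hAa, _, fq_inr.1 e⟩ hlA
            · exact e
          rcases k0_Q4_cases hc k with ⟨a1, y1, q1, z, k1, k2, k3, k4, e1, e2, e3, e4⟩ |
            ⟨u, x, s, x', hs, hr⟩
          · rw [S.rho_near k2.p2] at e3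
            cases e3
          · rcases hr with ⟨e1, e2, e3, e4⟩ | ⟨e1, e2, e3, e4⟩ | ⟨e1, e2, e3, e4⟩ |
              ⟨e1, e2, e3, e4⟩
            · rw [S.rho_near hs.r.1] at e3
              cases e3
            · -- `m` is the apex
              have ey := rho_inj' hy hs.r.1 e2
              rw [← ey] at hs
              by_cases hsw : w ∈ S.J s
              · have em := rho_inj' hmw hsw e1
                rw [← em] at hs
                by_contra hcon
                push Not at hcon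
                have hop := L.nf.n1 m hmw hcon u hs.adj
                rcases hs.E1 with e5 | e5
                · have a1 := OR.ar_hub hop hs.adj e5 hs.l
                  have a1' : (S.kf hc w O).ar (S.fq w O (S.rho w x)) (S.fq w O (S.rho w m)) := a1
                  have a2 := har _ hAa hlA
                  have r1 := (S.kf hc w O).ar_rk _ _ a1'
                  have r2 := (S.kf hc w O).ar_rk _ _ a2
                  rw [e4] at e
                  rw [← e] at r1
                  omega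
                · refine hcon u ⟨hmw, x, y, ?_, e5, emy, Relation.EqvGen.rel _ _ hs⟩
                  rintro rfl
                  exact hE (by rw [e4])
              · rw [S.rho_near hmw, S.rho_far hsw] at e1
                cases e1
            · rw [S.rho_near hy] at e2
              cases e2
            · rw [S.rho_near hmw] at e1
              cases e1
      -- `m` is alone in its class
      have halone := fun c e => cls_one (O := O) hmw (fun v hv hv' => hdia.elim
        fun u hd => hd.not_cs hv hv') (fun v k => hlA ⟨hAa, v, by rw [S.rho_near hmw]; exact k⟩)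
        (c := c) e
      have hfix : g • S.fq w O a = S.fq w O a := GX.ij_ec h2' hec
      have ham : a = S.rho w m := halone a eA.symm
      have hgm : g • S.rho w m = S.rho w m := by
        apply halone
        rw [fq_smul, ← ham, hfix]
      have hgm' : g.1 • m = m := by
        have hw2 : w ∈ S.J (g.1 • m) := by
          have := S.js.smul g.1 _ _ hmw
          rwa [show g.1 • w = w from g.2] at this
        rw [← S.rho_smul] at hgm
        exact rho_inj' hw2 hmw hgm
      exact L.hub m hmw emy hdia g hg hgm'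
  · -- leaves
    obtain ⟨q, hq, e1, rfl, hsd⟩ := hLf q h
    obtain ⟨k, hk, k1, k2⟩ := L.leaf q hq e1 hsd a b h1 h2
    refine ⟨k, hk, ?_, k2⟩
    rw [← S.rho_smul, k1]
  · obtain ⟨q, hq, e1, rfl, u, hsd⟩ := hLf q h
    refine L.hub q hq e1 ⟨u, hsd.1.1⟩ g hg ?_
    have hw2 : w ∈ S.J (g.1 • q) := by
      have := S.js.smul g.1 _ _ hq
      rwa [show g.1 • w = w from g.2] at this
    rw [← S.rho_smul] at h1
    exact rho_inj' hw2 hq h1
  · obtain ⟨q, hq, e1, rfl, hsd⟩ := hLf q h
    exact L.nself q hq e1 hsd g hg h1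

end

end SyQ


end Pool.Agent.DI
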