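import Pool.Agent.DI.LightB

/-!
THE LIGHT WORLD.  `Sys.LWat S w`: `S` is a good system, all links are connected, the group is bad,
the area of `K` is minimal at the vertex `w`, and `V_s`, `Hv` of the folded slice at `w` are not
larger than those of `K` (`Cd.LW.at`: this holds at every bad vertex of every good system of a
candidate with `V_s`, `Hv` maximal).  Then no vertex with poles and infinite stabiliser crosses an
edge (`one_of_heavy`, `fin_of_cross`), heavy-incident sinks sit at one vertex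
(`one_of_heavy_in`), a new sink in a cell is not light (`inf_t`), some new sink is in a cell
(`exists_t`), and with one orbit of edges all edge groups are infinite (`inf_edge`).
`Cd.LW.next`: the next candidate.
-/

namespace Pool.Agent.DI

open MulAction
open Pool.Agent.SAF (InC SA orbs FinOrb oc Decomp SAn Conv exists_next FinOrb_iff oc_le_of_inj
  oc_lt_of_inj)
open Pool.Agent.BT (PX PQ JS bey exits Ell Hyp mst)

section

variable {H V : Type} [Group H] [MulAction H V] {K : GX H V}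

theorem inf_of_le_two {x : V} {a : V} (hi : Infinite ↥(stabilizer H x)) {b : V}
    (h : ∀ g : H, g • x = x → g • a = a ∨ g • a = b) :
    Infinite ↥(stabilizer H ((x, a) : V × V)) := by
  by_contra hcon
  rw [not_infinite_iff_finite] at hcon
  have h5 : Finite ↥(stabilizer ↥(stabilizer H x) a) := by
    refine Finite.of_injective (fun g : ↥(stabilizer ↥(stabilizer H x) a) =>
      (⟨g.1.1, Prod.ext g.1.2 g.2⟩ : ↥(stabilizer H ((x, a) : V × V)))) ?_
    intro a b e
    have e' := congrArg Subtype.val e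
    exact Subtype.ext (Subtype.ext e')
  have horb : (MulAction.orbit ↥(stabilizer H x) a).Finite := by
    refine Set.Finite.subset (Set.toFinite ({a, b} : Set V)) ?_
    rintro _ ⟨g, rfl⟩
    exact h g.1 g.2
  have : Finite (MulAction.orbit ↥(stabilizer H x) a) := horb.to_subtype
  have h4 : Finite (↥(stabilizer H x) ⧸ stabilizer ↥(stabilizer H x) a) :=
    Finite.of_equiv _ (MulAction.orbitEquivQuotientStabilizer _ a)
  have := Finite.of_equiv _ (Subgroup.groupEquivQuotientProdSubgroup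
    (s := stabilizer ↥(stabilizer H x) a)).symm
  exact not_finite_iff_infinite.2 hi this

/-- the stabiliser of a pole arrow of a heavy vertex is infinite -/
theorem inf_pole {x a : V} (ha : K.ar x a) (hi : Infinite ↥(stabilizer H x)) :
    Infinite ↥(stabilizer H ((x, a) : V × V)) := by
  by_cases h : ∃ b, K.ar x b ∧ a ≠ b
  · obtain ⟨b, hb, hne⟩ := h
    refine inf_of_le_two hi (b := b) ?_
    intro g hg
    have := K.ar_smul g _ _ ha
    rw [hg] at this
    exact GX.Sft.cases ha hb hne this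
  · refine inf_of_le_two hi (b := a) ?_
    intro g hg
    have := K.ar_smul g _ _ ha
    rw [hg] at this
    left
    by_contra hne
    exact h ⟨_, this, fun e => hne e.symm⟩

theorem inf_snd {x a : V} (hi : Infinite ↥(stabilizer H ((x, a) : V × V))) :
    Infinite ↥(stabilizer H a) := by
  refine Infinite.of_injective (fun g : ↥(stabilizer H ((x, a) : V × V)) =>
    (⟨g.1, congrArg Prod.snd g.2⟩ : ↥(stabilizer H a))) ?_
  intro a b e
  have e' := congrArg Subtype.val e
  exact Subtype.ext e'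

end

namespace Sys

variable {H V : Type} [Group H] [MulAction H V] {S : Sys H V}

theorem next_of_two {w l : S.X} {x : V} (h1 : w ∈ S.J x) (h2 : l ∈ S.J x) (hne : w ≠ l) :
    ∃ u, S.D.G.Adj w u ∧ u ∈ S.J x := by
  obtain ⟨u, hu, e⟩ := exists_next S.D.tree hne
  refine ⟨u, hu, S.js.conv x w h1 l h2 u ?_⟩
  rw [SimpleGraph.dist_eq_one_iff_adj.2 hu, e, add_comm]

/-- a pentagon has a centre -/
theorem exists_ce {a q b y z : V} (hp : Pn S.P a q b y z) : ∃ c, S.Ce c a q b y z := by
  obtain ⟨c, hc⟩ := S.cen (Pn.EE hp)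
  exact ⟨c, ce_iff.2 hc⟩

theorem exists_far (hl : ∀ v, S.K.LC v) (hb : ¬ SA H) : ∃ c a q b y z, Pn S.P a q b y z ∧
    S.Ce c a q b y z ∧ c ∉ S.J a := by
  by_contra hcon
  push Not at hcon
  -- a centre lies in all the sets
  have all : ∀ {c : S.X} {a q b y z : V}, Pn S.P a q b y z → S.Ce c a q b y z →
      c ∈ S.J a ∧ c ∈ S.J q ∧ c ∈ S.J b := fun hp h =>
    ⟨hcon _ _ _ _ _ _ hp h, hcon _ _ _ _ _ _ hp.rot h.rot, hcon _ _ _ _ _ _ hp.rot.rot h.rot.rot⟩
  have key : ∀ (c : S.X) (x a b : V), c ∈ S.J x → S.K.LJ x a b → (c ∈ S.J a ↔ c ∈ S.J b) := by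
    intro c x a b hx k
    induction k with
    | rel a b k =>
      obtain ⟨y, z, hp⟩ := S.P.cor_iff.1 k
      obtain ⟨c', hc'⟩ := exists_ce hp
      obtain ⟨h1, h2, h3⟩ := all hp hc'
      constructor
      · intro h
        rw [S.one_eq hp.E1 h hx h1 h2]
        exact h3
      · intro h
        rw [S.one_eq hp.E2 hx h h2 h3]
        exact h1
    | refl a => exact Iff.rfl
    | symm a b _ ih => exact ih.symm
    | trans a b d _ _ h1 h2 => exact h1.trans h2
  -- start
  obtain ⟨x0⟩ := S.K.ne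
  obtain ⟨y0, hy0⟩ := S.K.exists_nbr hb x0
  obtain ⟨c, c1, c2⟩ := S.one_ex hy0
  have step : ∀ x y, S.K.E x y → (c ∈ S.J x ∧ ∃ n, S.K.E x n ∧ c ∈ S.J n) →
      (c ∈ S.J y ∧ ∃ n, S.K.E y n ∧ c ∈ S.J n) := by
    rintro x y e ⟨h1, n, h2, h3⟩
    exact ⟨(key c x n y h1 (hl x n y h2 e)).1 h3, x, e.symm, h1⟩
  have hall : ∀ x, c ∈ S.J x ∧ ∃ n, S.K.E x n ∧ c ∈ S.J n := by
    intro x
    have := S.K.conn x0 x
    induction this with
    | refl => exact ⟨c1, y0, hy0, c2⟩
    | tail _ e ih => exact step _ _ e ih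
  obtain ⟨g, hg⟩ := S.D.nofix c
  apply hg
  have h1 : ∀ x, g • c ∈ S.J x := by
    intro x
    have := (S.mem_smul_iff g (g⁻¹ • x) c).2 (hall _).1
    rwa [smul_inv_smul] at this
  exact S.one_eq hy0 (h1 _) (h1 _) c1 c2

theorem t_snk (hc : S.Conn) {w : S.X} (u : S.EV w) : (S.kf hc w).Snk (S.fq w (Sum.inr u)) := by
  intro d hd
  rw [kf_ar, arQ_fq, GN_sk (Sk.inr.2 rfl : S.Sk w u (Sum.inr u))] at hd
  exact hd

theorem t_smul_iff {w : S.X} (u : S.EV w) (k : ↥(stabilizer H w)) :
    k • S.fq w (Sum.inr u) = S.fq w (Sum.inr u) ↔ k.1 • u.1 = u.1 := by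
  rw [← fq_smul, fq_inr]
  show S.Sk w u (Sum.inr (k • u)) ↔ _
  rw [Sk.inr]
  exact ⟨fun e => congrArg Subtype.val e, fun e => Subtype.ext e⟩

theorem t_inf {w : S.X} (u : S.EV w)
    (h : Infinite ↥(stabilizer ↥(stabilizer H w) (S.fq w (Sum.inr u)))) :
    Infinite ↥(stabilizer H w ⊓ stabilizer H u.1) := by
  refine Infinite.of_injective (fun k : ↥(stabilizer ↥(stabilizer H w) (S.fq w (Sum.inr u))) =>
    (⟨k.1.1, k.1.2, (t_smul_iff u k.1).1 k.2⟩ : ↥(stabilizer H w ⊓ stabilizer H u.1))) ?_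
  intro a b e
  have e' := congrArg Subtype.val e
  exact Subtype.ext (Subtype.ext e')

variable (S) in
/-- the light world at a vertex `w` of the tree -/
structure LWat (w : S.X) : Prop where
  hg : S.Gd
  lc : ∀ v, S.K.LC v
  bad : ¬ SA H
  hw : S.WMin w
  vs : (S.kf hg.conn w).nVs ≤ S.K.nVs
  hv : (S.kf hg.conn w).nVs = S.K.nVs → (S.kf hg.conn w).nHv ≤ S.K.nHv

namespace LWat

variable {w : S.X} (L : S.LWat w)

include L

theorem min : (S.k0 L.hg.conn w).Min := k0_min L.hg.conn L.hw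

theorem vs_eq : (S.kf L.hg.conn w).nVs = S.K.nVs := le_antisymm L.vs (vs_le L.hg L.hw)

/-- a new sink in a cell is not light -/
theorem inf_t (u : S.EV w) (h : (S.kf L.hg.conn w).VC (S.fq w (Sum.inr u))) :
    Infinite ↥(stabilizer H w ⊓ stabilizer H u.1) := by
  apply t_inf
  by_contra hcon
  rw [not_infinite_iff_finite] at hcon
  exact absurd (vs_lt L.hg L.hw (u := u) ⟨t_snk L.hg.conn u, hcon, h⟩) (by
    have := L.vs
    omega)

/-- some new sink lies in a cell -/
theorem exists_t : ∃ u : S.EV w, (S.kf L.hg.conn w).VC (S.fq w (Sum.inr u)) := by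
  obtain ⟨c, a, q, b, y, z, hp, hc, ha⟩ := exists_far L.lc L.bad
  obtain ⟨g, rfl⟩ := pn_orbit L.hg.conn L.hw hp hc
  have hp' := hp.smul g⁻¹
  have hc' := hc.smul g⁻¹
  rw [inv_smul_smul] at hc'
  have ha' : w ∉ S.J (g⁻¹ • a) := by
    intro h
    apply ha
    have := (S.mem_smul_iff g _ _).2 h
    rwa [smul_inv_smul] at this
  have h1 := kf_VC L.hg.conn L.min hp' hc'
  refine ⟨⟨S.dir w (g⁻¹ • a), S.dir_adj ha'⟩, ?_⟩
  unfold fr at h1
  rwa [S.rho_far ha'] at h1

theorem exists_inf : ∃ u, S.D.G.Adj w u ∧ Infinite ↥(stabilizer H w ⊓ stabilizer H u) := by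
  obtain ⟨u, hu⟩ := L.exists_t
  exact ⟨u.1, u.2, L.inf_t u hu⟩

/-- NO HEAVY VERTEX WITH POLES CROSSES AN EDGE -/
theorem light : ∀ (n : ℕ) (v a : V), S.K.rk v = n → S.K.ar v a →
    Infinite ↥(stabilizer H v) → ∃ p, S.J v = {p} := by
  intro n
  induction n using Nat.strong_induction_on with
  | _ n ih =>
    intro v a hn ha hi
    by_contra hcon
    -- heavy vertices below do not cross
    have below : ∀ x m, S.K.rk x < n → S.K.ar m x →
        Infinite ↥(stabilizer H ((m, x) : V × V)) → ∃ p, S.J x = {p} := by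
      intro x m hr hm hinf
      by_cases hx : S.K.Snk x
      · obtain ⟨p, b, c, y, y', h1, -⟩ := L.hg.seen x hx (ell_of_heavy L.hg hm hinf)
        exact ⟨p, h1⟩
      · unfold GX.Snk at hx
        push Not at hx
        obtain ⟨c, hc⟩ := hx
        exact ih _ hr x c rfl hc (inf_snd hinf)
    have ia := inf_pole ha hi
    have ra : S.K.rk a < n := by
      have := S.K.ar_rk _ _ ha
      omega
    obtain ⟨p, hp⟩ := below a v ra ha ia
    have hE : S.K.E v a := Or.inl ha
    have honly : S.Only p a := by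
      refine ⟨hp, ?_⟩
      intro c hc u hu huc
      have := S.K.ar_rk _ _ hc
      obtain ⟨p', hp'⟩ := below c a (by omega) hc (inf_pole hc (inf_snd ia))
      obtain ⟨l, l1, l2⟩ := S.one_ex (x := a) (y := c) (Or.inl hc)
      rw [hp] at l1
      rw [hp'] at l2 huc
      have l1 : l = p := l1
      have l2 : l = p' := l2
      have l3 : u = p' := huc
      rw [l3, ← l2, l1] at hu
      exact S.D.G.irrefl hu
    have hseen : S.Seen p a := by
      refine ⟨honly, ?_⟩
      by_cases hx : S.K.Snk a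
      · obtain ⟨p', b, c, y, y', h1, h2, h3⟩ := L.hg.seen a hx (ell_of_heavy L.hg ha ia)
        have : p' = p := by
          rw [hp] at h1
          exact (Set.singleton_injective h1).symm
        rw [this] at h3
        exact ⟨b, c, y, y', h2, h3⟩
      · unfold GX.Snk at hx
        push Not at hx
        obtain ⟨c, hc⟩ := hx
        have := S.K.ar_rk _ _ hc
        obtain ⟨p', hp'⟩ := below c a (by omega) hc (inf_pole hc (inf_snd ia))
        obtain ⟨l, l1, l2⟩ := S.one_ex (x := a) (y := c) (Or.inl hc)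
        rw [hp] at l1
        rw [hp'] at l2
        have l1 : l = p := l1
        have l2 : l = p' := l2
        obtain ⟨b, hb⟩ := GX.EC_iff.1 (S.K.EC_of_E L.lc L.bad (x := c) (y := a) (Or.inr hc))
        obtain ⟨y, z, hpn⟩ := S.P.cor_iff.1 hb
        obtain ⟨m, hm⟩ := exists_ce hpn
        have hmp : m = p := by
          rcases hm.1 with h | h
          · rw [hp'] at h
            have h : m = p' := h
            rw [h, ← l2, l1]
          · rw [hp] at h
            exact h
        rw [hmp] at hm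
        exact ⟨c, b, y, z, hpn, hm⟩
    -- translate to `w`
    obtain ⟨-, b, c, y, y', hpn, hce⟩ := id hseen
    obtain ⟨k, rfl⟩ := pn_orbit L.hg.conn L.hw hpn hce
    have hs := hseen.smul k⁻¹
    rw [inv_smul_smul] at hs
    obtain ⟨ho, b', c', y1, y1', hpn', hce'⟩ := id hs
    have hv' := S.K.ar_smul k⁻¹ _ _ ha
    have hwv : w ∈ S.J (k⁻¹ • v) := ho.nbr (Or.inr hv')
    have hne : ∃ l, l ∈ S.J (k⁻¹ • v) ∧ w ≠ l := by
      by_contra hc
      push Not at hc
      apply hcon
      refine ⟨k • w, ?_⟩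
      have h1 : S.J (k⁻¹ • v) = {w} := by
        ext l
        exact ⟨fun h => (hc l h).symm, fun h => by
          have h : l = w := h
          rw [h]
          exact hwv⟩
      have := J_smul_eq (g := k) h1
      rwa [smul_inv_smul] at this
    obtain ⟨l, hl1, hl2⟩ := hne
    obtain ⟨u, hu, huv⟩ := next_of_two hwv hl1 hl2
    have a1 := ho.ar hv'
    have a2 := arQ_up (S := S) hu (⟨hwv, huv⟩ : S.Cs w u (k⁻¹ • v))
    have e1 : (S.kf L.hg.conn w).EC (S.fr w (k⁻¹ • v)) (S.fr w (k⁻¹ • a)) :=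
      ho.EC L.hg.conn L.min (L.lc _) hpn' hce' (Or.inr hv')
    have e2 : (S.kf L.hg.conn w).EC (S.fr w (k⁻¹ • v)) (S.fq w (Sum.inr ⟨u, hu⟩)) :=
      pole_cell (S.kfP L.hg.conn w L.min) (S.kf_min L.hg.conn w L.min) a1 a2 (ho.ne_t _) e1
    have hinf : Infinite ↥(stabilizer ↥(stabilizer H w) ((S.fr w (k⁻¹ • v),
        S.fq w (Sum.inr ⟨u, hu⟩)) : S.Q w × S.Q w)) := by
      have h5 : Infinite ↥(stabilizer H ((k⁻¹ • v, k⁻¹ • a) : V × V)) :=
        (GX.inf_smul_iff (V := V × V) k⁻¹ (v, a)).2 ia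
      refine Infinite.of_injective (fun g : ↥(stabilizer H ((k⁻¹ • v, k⁻¹ • a) : V × V)) =>
        (⟨⟨g.1, ho.stab (congrArg Prod.snd g.2)⟩, ?_⟩ :
          ↥(stabilizer ↥(stabilizer H w) ((S.fr w (k⁻¹ • v), S.fq w (Sum.inr ⟨u, hu⟩)) :
            S.Q w × S.Q w)))) ?_
      · have e1 : g.1 • k⁻¹ • v = k⁻¹ • v := congrArg Prod.fst g.2
        have e2 : g.1 • k⁻¹ • a = k⁻¹ • a := congrArg Prod.snd g.2
        have f1 : (⟨g.1, ho.stab (congrArg Prod.snd g.2)⟩ : ↥(stabilizer H w)) •
            S.fr w (k⁻¹ • v) = S.fr w (k⁻¹ • v) := by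
          rw [← fr_smul]
          show S.fr w (g.1 • k⁻¹ • v) = _
          rw [e1]
        have f2 : (⟨g.1, ho.stab (congrArg Prod.snd g.2)⟩ : ↥(stabilizer H w)) •
            S.fr w (k⁻¹ • a) = S.fr w (k⁻¹ • a) := by
          rw [← fr_smul]
          show S.fr w (g.1 • k⁻¹ • a) = _
          rw [e2]
        refine Prod.ext f1 ?_
        show _ • S.fq w (Sum.inr ⟨u, hu⟩) = S.fq w (Sum.inr ⟨u, hu⟩)
        have a3 := arQ_smul (S := S) (⟨g.1, ho.stab (congrArg Prod.snd g.2)⟩ :
          ↥(stabilizer H w)) a2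
        have a2' : S.arQ w (S.fr w (k⁻¹ • v)) (S.fq w (Sum.inr ⟨u, hu⟩)) := a2
        have a3' : S.arQ w ((⟨g.1, ho.stab (congrArg Prod.snd g.2)⟩ : ↥(stabilizer H w)) •
          S.fr w (k⁻¹ • v)) ((⟨g.1, ho.stab (congrArg Prod.snd g.2)⟩ : ↥(stabilizer H w)) •
          S.fq w (Sum.inr ⟨u, hu⟩)) := a3
        rw [f1] at a3'
        rcases arQ_two a1 a2' a3' with e | e | e
        · exact absurd e (ho.ne_t _)
        · exact e.symm
        · exfalso
          rw [← f2] at e
          exact ho.ne_t _ (smul_left_cancel _ e)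
      · intro a b e
        have e' := congrArg (fun t => t.1.1) e
        exact Subtype.ext e'
    have hmem : S.fq w (Sum.inr ⟨u, hu⟩) ∈ (S.kf L.hg.conn w).sHv :=
      ⟨t_snk L.hg.conn _, S.fr w (k⁻¹ • v), a2, e2, hinf⟩
    have h1 := hv_lt L.hg L.hw L.lc hmem
    have h2 := L.hv L.vs_eq
    omega

/-- a vertex with poles and infinite stabiliser sits at one vertex of the tree -/
theorem one_of_heavy {v a : V} (ha : S.K.ar v a) (hi : Infinite ↥(stabilizer H v)) :
    ∃ p, S.J v = {p} := L.light _ v a rfl ha hi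

/-- crossing vertices with poles are light -/
theorem fin_of_cross {v a : V} (ha : S.K.ar v a) {y z : S.X} (hy : y ∈ S.J v) (hz : z ∈ S.J v)
    (hne : y ≠ z) : Finite ↥(stabilizer H v) := by
  by_contra hcon
  rw [not_finite_iff_infinite] at hcon
  obtain ⟨p, hp⟩ := L.one_of_heavy ha hcon
  rw [hp] at hy hz
  have hy : y = p := hy
  have hz : z = p := hz
  exact hne (hy.trans hz.symm)

/-- heavy-incident sinks sit at one vertex -/
theorem one_of_heavy_in {v n : V} (hn : S.K.ar n v)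
    (hi : Infinite ↥(stabilizer H ((n, v) : V × V))) : ∃ p, S.J v = {p} := by
  by_cases hx : S.K.Snk v
  · obtain ⟨p, b, c, y, y', h1, -⟩ := L.hg.seen v hx (ell_of_heavy L.hg hn hi)
    exact ⟨p, h1⟩
  · unfold GX.Snk at hx
    push Not at hx
    obtain ⟨c, hc⟩ := hx
    exact L.one_of_heavy hc (inf_snd hi)

/-- with one orbit of edges all edge groups are infinite -/
theorem inf_edge (h1 : ∀ x y x' y', S.D.G.Adj x y → S.D.G.Adj x' y' →
    ∃ g : H, (g • x = x' ∧ g • y = y') ∨ (g • x = y' ∧ g • y = x')) {x y : S.X}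
    (e : S.D.G.Adj x y) : Infinite ↥(stabilizer H x ⊓ stabilizer H y) := by
  obtain ⟨u, hu, hi⟩ := L.exists_inf
  obtain ⟨g, ⟨g1, g2⟩ | ⟨g1, g2⟩⟩ := h1 _ _ _ _ hu e
  · subst g1 g2
    refine Infinite.of_injective (fun k : ↥(stabilizer H w ⊓ stabilizer H u) =>
      (⟨g * k.1 * g⁻¹, ?_, ?_⟩ : ↥(stabilizer H (g • w) ⊓ stabilizer H (g • u)))) ?_
    · have h : k.1 • w = w := k.2.1
      show (g * k.1 * g⁻¹) • g • w = g • w
      rw [mul_smul, mul_smul, inv_smul_smul, h]
    · have h : k.1 • u = u := k.2.2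
      show (g * k.1 * g⁻¹) • g • u = g • u
      rw [mul_smul, mul_smul, inv_smul_smul, h]
    · intro a b e
      have e' := congrArg Subtype.val e
      exact Subtype.ext (mul_left_cancel (mul_right_cancel e'))
  · subst g1 g2
    refine Infinite.of_injective (fun k : ↥(stabilizer H w ⊓ stabilizer H u) =>
      (⟨g * k.1 * g⁻¹, ?_, ?_⟩ : ↥(stabilizer H (g • u) ⊓ stabilizer H (g • w)))) ?_
    · have h : k.1 • u = u := k.2.2
      show (g * k.1 * g⁻¹) • g • u = g • u
      rw [mul_smul, mul_smul, inv_smul_smul, h]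
    · have h : k.1 • w = w := k.2.1
      show (g * k.1 * g⁻¹) • g • w = g • w
      rw [mul_smul, mul_smul, inv_smul_smul, h]
    · intro a b e
      have e' := congrArg Subtype.val e
      exact Subtype.ext (mul_left_cancel (mul_right_cancel e'))

end LWat

end Sys

/-- the light world of candidates -/
theorem Cd.LW.at {C : Cd} (hC : C.LW) (S : Sys C.H C.V) (hK : S.K = C.K) (hg : S.Gd) {w : S.X}
    (hb : ¬ SA ↥(stabilizer C.H w)) : S.LWat w := by
  have hw : S.WMin w := fun V' _ K' => by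
    rw [hK]
    exact C.min _ V' K' hb
  have hm := Sys.k0_min hg.conn hw
  have h1 := hC.pair (S.kf hg.conn w) (S.kfP hg.conn w hm) hb
    ((S.kf_area_le hg.conn w).trans (le_of_eq (congrArg GX.area hK)))
  rw [← hK] at h1
  refine ⟨hg, fun v => ?_, C.bad, hw, h1.1, h1.2⟩
  rw [hK]
  exact C.lc v

/-- the slice at a bad vertex gives again a candidate of the light world -/
theorem Cd.LW.next {C : Cd} (hC : C.LW) (S : Sys C.H C.V) (hK : S.K = C.K) (hg : S.Gd) {w : S.X}
    (hb : ¬ SA ↥(stabilizer C.H w)) : ∃ (C' : Cd) (T : SubGX C'.K (S.kf hg.conn w)), C'.LW ∧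
      (∀ i, ∃ i', T.ι i' = i) ∧ C'.K.nU ≤ (S.kf hg.conn w).nU ∧
      C'.K.nW ≤ (S.kf hg.conn w).nW ∧ C'.K.nE ≤ (S.kf hg.conn w).nE ∧
      (S.kf hg.conn w).nVc ≤ C'.K.nVc := by
  have L := hC.at S hK hg hb
  have h1 := Sys.vs_le L.hg L.hw
  have h2 := Sys.hv_le L.hg L.hw L.lc
  rw [hK] at h1 h2
  exact hC.reduce (S.kf hg.conn w) (S.kfP hg.conn w L.min) hb
    ((S.kf_area_le hg.conn w).trans (le_of_eq (congrArg GX.area hK))) h1 h2

/-- a decomposition of a bad group has a bad vertex -/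
theorem exists_bad {H : Type} [Group H] (hb : ¬ SA H) (D : Decomp H) :
    ∃ w : D.X, ¬ SA ↥(stabilizer H w) := by
  by_contra hcon
  push Not at hcon
  exact hb (SA.of_decomp D hcon)

end Pool.Agent.DI
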