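import Pool.Agent.DI.LightA

/-!
`V_s` and `Hv` do not drop in the folded slice at a minimal vertex of a good system (`vs_le`,
`hv_le`), and rise if a new sink is a light sink in a cell, resp. heavy-incident (`vs_lt`,
`hv_lt`).
-/

namespace Pool.Agent.DI

open MulAction
open Pool.Agent.SAF (InC SA orbs FinOrb oc Decomp SAn Conv exists_next FinOrb_iff oc_le_of_inj
  oc_lt_of_inj)
open Pool.Agent.BT (PX PQ JS bey exits Ell Hyp mst)

namespace Sys

variable {H V : Type} [Group H] [MulAction H V] {S : Sys H V}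

theorem pn_orbit (hc : S.Conn) {w : S.X} (hw : S.WMin w) {a q b y z : V} (hp : Pn S.P a q b y z)
    {c : S.X} (h : S.Ce c a q b y z) : ∃ g : H, g • w = c := by
  obtain ⟨g, i, k, hh⟩ := hp
  rcases hh with ⟨h1, h2, h3, h4, h5⟩ | ⟨h1, h2, h3, h4, h5⟩
  · have hI : S.IsC (S.tr g i) c := by
      rw [ce_tr k]
      subst h1 h2 h3 h4 h5
      exact h
    exact isC_orbit hc hw hI
  · have hI : S.IsC (S.tr g i) c := by
      rw [ce_tr k]
      subst h1 h2 h3 h4 h5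
      exact h.symm
    exact isC_orbit hc hw hI

theorem J_smul_eq {g : H} {z : V} {p : S.X} (h : S.J z = {p}) : S.J (g • z) = {g • p} := by
  ext l
  rw [Set.mem_singleton_iff]
  constructor
  · intro hl
    have h1 : g • (g⁻¹ • l) ∈ S.J (g • z) := by rwa [smul_inv_smul]
    rw [S.mem_smul_iff, h] at h1
    have h1 : g⁻¹ • l = p := h1
    rw [← h1, smul_inv_smul]
  · rintro rfl
    rw [S.mem_smul_iff, h]
    exact rfl

/-- `z` sits at its place `p`, its poles cross no edge at `p` -/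
theorem Only.smul (g : H) {p : S.X} {z : V} (h : S.Only p z) : S.Only (g • p) (g • z) := by
  refine ⟨J_smul_eq h.1, ?_⟩
  intro a ha u hu hua
  have h1 := S.K.ar_smul g⁻¹ _ _ ha
  have h2 := S.D.adj_smul g⁻¹ _ _ hu
  rw [inv_smul_smul] at h1 h2
  refine h.2 _ h1 _ h2 ?_
  rw [← S.mem_smul_iff g, smul_inv_smul, smul_inv_smul]
  exact hua

variable (S) in
/-- `z` sits at `w` and is seen there -/
def Seen (w : S.X) (z : V) : Prop := S.Only w z ∧ ∃ b c y y', Pn S.P b z c y y' ∧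
  S.Ce w b z c y y'

theorem Seen.smul (g : H) {p : S.X} {z : V} (h : S.Seen p z) : S.Seen (g • p) (g • z) := by
  obtain ⟨h1, b, c, y, y', h2, h3⟩ := h
  exact ⟨h1.smul g, _, _, _, _, h2.smul g, h3.smul g⟩

theorem only_of_snk {z : V} (hz : S.K.Snk z) {p : S.X} (h : S.J z = {p}) : S.Only p z :=
  ⟨h, fun a ha => absurd ha (hz a)⟩

theorem Gd.seen_at (hg : S.Gd) {w : S.X} (hw : S.WMin w) {z : V} (hz : S.K.Snk z)
    (he : Ell H S.X z) : ∃ g : H, S.Seen w (g • z) := by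
  obtain ⟨p, b, c, y, y', h1, h2, h3⟩ := hg.seen z hz he
  obtain ⟨k, rfl⟩ := pn_orbit hg.conn hw h2 h3
  refine ⟨k⁻¹, ?_⟩
  have : S.Seen (k • w) z := ⟨only_of_snk hz h1, b, c, y, y', h2, h3⟩
  have := this.smul k⁻¹
  rwa [inv_smul_smul] at this

open Classical in
variable (S) in
/-- the map of the elliptic sinks to the folded slice -/
noncomputable def fz (w : S.X) (z : V) : S.Q w :=
  S.fr w ((if h : ∃ g : H, S.Seen w (g • z) then h.choose else 1) • z)

theorem fz_eq {w : S.X} {z : V} (h : ∃ g : H, S.Seen w (g • z)) :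
    ∃ g : H, S.Seen w (g • z) ∧ S.fz w z = S.fr w (g • z) := by
  refine ⟨h.choose, h.choose_spec, ?_⟩
  unfold fz
  rw [dif_pos h]

theorem fz_inj {w : S.X} {z z' : V} (h : ∃ g : H, S.Seen w (g • z))
    (h' : ∃ g : H, S.Seen w (g • z')) {k : ↥(stabilizer H w)} (e : k • S.fz w z = S.fz w z') :
    ∃ g : H, g • z = z' := by
  obtain ⟨g, h1, h2⟩ := fz_eq h
  obtain ⟨g', h3, h4⟩ := fz_eq h'
  rw [h2, h4, ← fr_smul] at e
  have := h3.1.cls' e
  refine ⟨g'⁻¹ * (k.1 * g), ?_⟩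
  rw [mul_smul, mul_smul, this, inv_smul_smul]

theorem fz_miss {w : S.X} {z : V} (h : ∃ g : H, S.Seen w (g • z)) (k : ↥(stabilizer H w))
    (u : S.EV w) : k • S.fz w z ≠ S.fq w (Sum.inr u) := by
  intro e
  obtain ⟨g, h1, h2⟩ := fz_eq h
  have e1 : S.fz w z = S.fq w (Sum.inr (k⁻¹ • u)) := by
    have : k⁻¹ • (k • S.fz w z) = k⁻¹ • S.fq w (Sum.inr u) := congrArg _ e
    rwa [inv_smul_smul, ← fq_smul] at this
  rw [h2] at e1
  exact h1.1.ne_t _ e1

theorem ell_of_fin {z : V} (hf : Finite ↥(stabilizer H z)) : Ell H S.X z := by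
  have := S.D.tree.connected.nonempty
  obtain ⟨c, hc⟩ := Pool.Agent.SAG.fix_of_finite S.D.tact _ hf
  exact ⟨c, hc⟩

theorem Only.stab {w : S.X} {x : V} (h : S.Only w x) {g : H} (hg : g • x = x) : g • w = w := by
  have h1 : g • w ∈ S.J (g • x) := S.js.smul g x w h.mem
  rw [hg, h.1] at h1
  exact h1

theorem Only.fin {w : S.X} {x : V} (h : S.Only w x) (hf : Finite ↥(stabilizer H x)) :
    Finite ↥(stabilizer ↥(stabilizer H w) (S.fr w x)) := by
  refine Finite.of_injective (fun g : ↥(stabilizer ↥(stabilizer H w) (S.fr w x)) =>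
    (⟨g.1.1, ?_⟩ : ↥(stabilizer H x))) ?_
  · have h1 : g.1 • S.fr w x = S.fr w x := g.2
    rw [← fr_smul] at h1
    exact h.cls' h1
  · intro a b e
    have e' := congrArg Subtype.val e
    exact Subtype.ext (Subtype.ext e')

variable (hg : S.Gd) {w : S.X} (hw : S.WMin w)

include hg hw

theorem fz_vs {z : V} (hz : z ∈ S.K.sVs) : S.fz w z ∈ (S.kf hg.conn w).sVs := by
  obtain ⟨h1, h2, h3⟩ := hz
  have he := hg.seen_at hw h1 (ell_of_fin h2)
  obtain ⟨g, ⟨ho, b, c, y, y', hp, hce⟩, e⟩ := fz_eq he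
  rw [e]
  refine ⟨ho.snk (h1.smul g) hg.conn, ho.fin ((GX.fin_smul_iff g z).2 h2), ?_⟩
  exact kf_VC hg.conn (k0_min hg.conn hw) hp.rot hce.rot

theorem vs_le : S.K.nVs ≤ (S.kf hg.conn w).nVs := by
  refine oc_le_of_inj ((S.kf hg.conn w).fo _) (S.fz w) (fun z hz => fz_vs hg hw hz) ?_
  rintro a ha b hb ⟨k, hk⟩
  exact fz_inj (hg.seen_at hw ha.1 (ell_of_fin ha.2.1)) (hg.seen_at hw hb.1 (ell_of_fin hb.2.1)) hk

theorem vs_lt {u : S.EV w} (hu : S.fq w (Sum.inr u) ∈ (S.kf hg.conn w).sVs) :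
    S.K.nVs < (S.kf hg.conn w).nVs := by
  refine oc_lt_of_inj ((S.kf hg.conn w).fo _) (S.fz w) (fun z hz => fz_vs hg hw hz) ?_ hu ?_
  · rintro a ha b hb ⟨k, hk⟩
    exact fz_inj (hg.seen_at hw ha.1 (ell_of_fin ha.2.1)) (hg.seen_at hw hb.1 (ell_of_fin hb.2.1))
      hk
  · intro a ha k
    exact fz_miss (hg.seen_at hw ha.1 (ell_of_fin ha.2.1)) k u

omit hw in
theorem ell_of_heavy {z n : V} (hn : S.K.ar n z)
    (hi : Infinite ↥(stabilizer H ((n, z) : V × V))) : Ell H S.X z := by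
  by_contra hcon
  have hy : Hyp S.X (stabilizer H z) := by
    unfold Ell at hcon
    push Not at hcon
    exact hcon
  obtain ⟨c, hc⟩ := hg.soft n z hn
  have hf : Finite ↥(stabilizer H ((n, z) : V × V)) := by
    refine BT.finite_of_hyp S.D.tact (S.K.stab z) hy ?_ (w := c) ?_
    · intro g hgg
      exact congrArg Prod.snd hgg
    · intro g hgg
      exact hc g (congrArg Prod.fst hgg)
  exact not_finite_iff_infinite.2 hi hf

theorem fz_hv (hl : ∀ v, S.K.LC v) {z : V} (hz : z ∈ S.K.sHv) :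
    S.fz w z ∈ (S.kf hg.conn w).sHv := by
  obtain ⟨h1, n, h2, h3, h4⟩ := hz
  have he := hg.seen_at hw h1 (ell_of_heavy hg h2 h4)
  obtain ⟨g, ⟨ho, b, c, y, y', hp, hce⟩, e⟩ := fz_eq he
  rw [e]
  have hm := k0_min hg.conn hw
  have hn := S.K.ar_smul g _ _ h2
  refine ⟨ho.snk (h1.smul g) hg.conn, S.fr w (g • n), ho.ar hn,
    ho.EC hg.conn hm (hl _) hp hce (Or.inr hn), ?_⟩
  have h5 : Infinite ↥(stabilizer H ((g • n, g • z) : V × V)) :=
    (GX.inf_smul_iff (V := V × V) g (n, z)).2 h4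
  refine Infinite.of_injective (fun k : ↥(stabilizer H ((g • n, g • z) : V × V)) =>
    (⟨⟨k.1, ho.stab (congrArg Prod.snd k.2)⟩, ?_⟩ :
      ↥(stabilizer ↥(stabilizer H w) ((S.fr w (g • n), S.fr w (g • z)) : S.Q w × S.Q w)))) ?_
  · have e1 : k.1 • g • n = g • n := congrArg Prod.fst k.2
    have e2 : k.1 • g • z = g • z := congrArg Prod.snd k.2
    refine Prod.ext ?_ ?_
    · show _ • S.fr w (g • n) = S.fr w (g • n)
      rw [← fr_smul]
      show S.fr w (k.1 • g • n) = _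
      rw [e1]
    · show _ • S.fr w (g • z) = S.fr w (g • z)
      rw [← fr_smul]
      show S.fr w (k.1 • g • z) = _
      rw [e2]
  · intro a b e
    have e' := congrArg (fun t => t.1.1) e
    exact Subtype.ext e'

theorem hv_le (hl : ∀ v, S.K.LC v) : S.K.nHv ≤ (S.kf hg.conn w).nHv := by
  refine oc_le_of_inj ((S.kf hg.conn w).fo _) (S.fz w) (fun z hz => fz_hv hg hw hl hz) ?_
  rintro a ha b hb ⟨k, hk⟩
  obtain ⟨h1, n, h2, h3, h4⟩ := ha
  obtain ⟨h1', n', h2', h3', h4'⟩ := hb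
  exact fz_inj (hg.seen_at hw h1 (ell_of_heavy hg h2 h4)) (hg.seen_at hw h1' (ell_of_heavy hg h2' h4')) hk

theorem hv_lt (hl : ∀ v, S.K.LC v) {u : S.EV w}
    (hu : S.fq w (Sum.inr u) ∈ (S.kf hg.conn w).sHv) :
    S.K.nHv < (S.kf hg.conn w).nHv := by
  refine oc_lt_of_inj ((S.kf hg.conn w).fo _) (S.fz w) (fun z hz => fz_hv hg hw hl hz) ?_ hu ?_
  · rintro a ha b hb ⟨k, hk⟩
    obtain ⟨h1, n, h2, h3, h4⟩ := ha
    obtain ⟨h1', n', h2', h3', h4'⟩ := hb
    exact fz_inj (hg.seen_at hw h1 (ell_of_heavy hg h2 h4)) (hg.seen_at hw h1' (ell_of_heavy hg h2' h4')) hk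
  · rintro a ⟨h1, n, h2, h3, h4⟩ k
    exact fz_miss (hg.seen_at hw h1 (ell_of_heavy hg h2 h4)) k u

end Sys

end Pool.Agent.DI
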