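import Mathlib

/-!
# Graphs over a line with one edge at every piece in each direction (owner: helper78)

`lin_one`: a connected graph with a map `pos` of its nodes to `ℤ`, a group `N` acts and keeps `pos`; the
pieces are the connected components of the edges which stay at one level; if the edges which leave a
piece upwards are one orbit, and the edges which leave it downwards are one orbit, then the edges which
cross a level are one orbit.
-/

namespace Pool.Agent.DI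

open MulAction

section Lin

variable {N Nd Cn : Type} [Group N] [MulAction N Nd] [MulAction N Cn] (s t : Cn → Nd) (pos : Nd → ℤ)

/-- `c` joins `a` and `b` -/
def LEd (a b : Nd) (c : Cn) : Prop := (s c = a ∧ t c = b) ∨ (s c = b ∧ t c = a)

/-- joined at one level -/
def LLoc (a b : Nd) : Prop := ∃ c, LEd s t a b c ∧ pos a = pos b

/-- `c` crosses the level between `k` and `k + 1` -/
def LCr (k : ℤ) (c : Cn) : Prop :=
  (pos (s c) ≤ k ∧ k < pos (t c)) ∨ (pos (t c) ≤ k ∧ k < pos (s c))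

/-- monotone chains -/
inductive LCh (N : Type) {Nd Cn : Type} [Group N] [MulAction N Nd] [MulAction N Cn]
    (s t : Cn → Nd) (pos : Nd → ℤ) (a0 b0 : Nd) (c0 : Cn) : Nd → Nd → Cn → Prop
  | up (g : N) : LCh N s t pos a0 b0 c0 (g • a0) (g • b0) (g • c0)
  | dn (g : N) : LCh N s t pos a0 b0 c0 (g • b0) (g • a0) (g • c0)
  | st {a b : Nd} {c : Cn} {a' b' : Nd} {c' : Cn} : LCh N s t pos a0 b0 c0 a b c →
      Relation.EqvGen (LLoc s t pos) b a' → LEd s t a' b' c' →
      ((pos a < pos b ∧ pos a' < pos b') ∨ (pos b < pos a ∧ pos b' < pos a')) →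
      LCh N s t pos a0 b0 c0 a' b' c'

variable {s t pos}

theorem LEd.symm {a b : Nd} {c : Cn} (h : LEd s t a b c) : LEd s t b a c := Or.symm h

theorem LLoc.eqv {a b : Nd} (h : Relation.EqvGen (LLoc s t pos) a b) : pos a = pos b := by
  induction h with
  | rel a b h => exact h.choose_spec.2
  | refl a => rfl
  | symm a b _ ih => exact ih.symm
  | trans a b c _ _ i1 i2 => exact i1.trans i2

variable (hs : ∀ (g : N) (c : Cn), s (g • c) = g • s c) (ht : ∀ (g : N) (c : Cn), t (g • c) = g • t c)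
  (hp : ∀ (g : N) (n : Nd), pos (g • n) = pos n)

include hs ht

theorem LEd.smul (g : N) {a b : Nd} {c : Cn} (h : LEd s t a b c) :
    LEd s t (g • a) (g • b) (g • c) := by
  rcases h with ⟨rfl, rfl⟩ | ⟨rfl, rfl⟩
  · exact Or.inl ⟨hs g c, ht g c⟩
  · exact Or.inr ⟨hs g c, ht g c⟩

include hp

theorem LLoc.smul (g : N) {a b : Nd} (h : Relation.EqvGen (LLoc s t pos) a b) :
    Relation.EqvGen (LLoc s t pos) (g • a) (g • b) := by
  induction h with
  | rel a b h =>
    obtain ⟨c, h1, h2⟩ := h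
    exact Relation.EqvGen.rel _ _ ⟨g • c, LEd.smul hs ht g h1, by rw [hp, hp, h2]⟩
  | refl a => exact Relation.EqvGen.refl _
  | symm a b _ ih => exact ih.symm
  | trans a b c _ _ i1 i2 => exact i1.trans _ _ _ i2

theorem LCh.smul {a0 b0 : Nd} {c0 : Cn} (g : N) {a b : Nd} {c : Cn}
    (h : LCh N s t pos a0 b0 c0 a b c) :
    LCh N s t pos a0 b0 c0 (g • a) (g • b) (g • c) := by
  induction h with
  | up g' =>
    rw [← mul_smul, ← mul_smul, ← mul_smul]
    exact LCh.up _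
  | dn g' =>
    rw [← mul_smul, ← mul_smul, ← mul_smul]
    exact LCh.dn _
  | st h1 h2 h3 h4 ih =>
    refine LCh.st ih (LLoc.smul hs ht hp g h2) (LEd.smul hs ht g h3) ?_
    rwa [hp, hp, hp, hp]

theorem LCh.inv {a0 b0 : Nd} {c0 : Cn} (h0 : LEd s t a0 b0 c0) {k : ℤ} (h1 : pos a0 ≤ k)
    (h2 : k < pos b0) {a b : Nd} {c : Cn} (h : LCh N s t pos a0 b0 c0 a b c) :
    LEd s t a b c ∧ ((pos a < pos b ∧ k < pos b) ∨ (pos b < pos a ∧ pos b ≤ k)) ∧
      ((∃ g : N, c = g • c0) ∨ ¬ LCr s t pos k c) := by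
  induction h with
  | up g =>
    refine ⟨LEd.smul hs ht g h0, Or.inl ?_, Or.inl ⟨g, rfl⟩⟩
    rw [hp, hp]
    exact ⟨by omega, h2⟩
  | dn g =>
    refine ⟨(LEd.smul hs ht g h0).symm, Or.inr ?_, Or.inl ⟨g, rfl⟩⟩
    rw [hp, hp]
    exact ⟨by omega, h1⟩
  | st h3 h4 h5 h6 ih =>
    obtain ⟨-, ih, -⟩ := ih
    have e := LLoc.eqv h4
    refine ⟨h5, ?_, Or.inr ?_⟩
    · rcases h6 with h6 | h6
      · left
        rcases ih with ih | ih
        · exact ⟨h6.2, by omega⟩
        · exact absurd ih.1 (by omega)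
      · right
        rcases ih with ih | ih
        · exact absurd ih.1 (by omega)
        · exact ⟨h6.2, by omega⟩
    · intro hc
      rcases h5 with ⟨e1, e2⟩ | ⟨e1, e2⟩ <;> rcases hc with hc | hc <;> rw [e1, e2] at hc <;>
        rcases h6 with h6 | h6 <;> rcases ih with ih | ih <;> omega

/-- reachable by a monotone chain -/
def LGd (N : Type) {Nd Cn : Type} [Group N] [MulAction N Nd] [MulAction N Cn]
    (s t : Cn → Nd) (pos : Nd → ℤ) (a0 b0 : Nd) (c0 : Cn) (n : Nd) : Prop :=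
  ∃ a b c, LCh N s t pos a0 b0 c0 a b c ∧ Relation.EqvGen (LLoc s t pos) b n

theorem LCh.near {a0 b0 : Nd} {c0 : Cn} {a b : Nd} {c : Cn} (h : LCh N s t pos a0 b0 c0 a b c)
    (g : N) : LGd N s t pos a0 b0 c0 (g • a) := by
  cases h with
  | up g' =>
    refine ⟨_, _, _, LCh.dn (g * g'), ?_⟩
    rw [mul_smul]
    exact Relation.EqvGen.refl _
  | dn g' =>
    refine ⟨_, _, _, LCh.up (g * g'), ?_⟩
    rw [mul_smul]
    exact Relation.EqvGen.refl _
  | st h1 h2 h3 h4 =>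
    exact ⟨_, _, _, h1.smul hs ht hp g, LLoc.smul hs ht hp g h2⟩

/-- THE EDGES WHICH CROSS A LEVEL ARE ONE ORBIT -/
theorem lin_one (conn : ∀ n m, Relation.EqvGen (fun a b => ∃ c, s c = a ∧ t c = b) n m)
    (SU : ∀ {c c' : Cn} {a b a' b' : Nd}, LEd s t a b c → LEd s t a' b' c' →
      Relation.EqvGen (LLoc s t pos) a a' →
      ((pos a < pos b ∧ pos a' < pos b') ∨ (pos b < pos a ∧ pos b' < pos a')) →
      ∃ g : N, c' = g • c ∧ b' = g • b)
    {k : ℤ} {c c' : Cn} (hc : LCr s t pos k c) (hc' : LCr s t pos k c') :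
    ∃ g : N, c' = g • c := by
  obtain ⟨a0, b0, h0, h1, h2⟩ : ∃ a0 b0, LEd s t a0 b0 c ∧ pos a0 ≤ k ∧ k < pos b0 := by
    rcases hc with hc | hc
    · exact ⟨s c, t c, Or.inl ⟨rfl, rfl⟩, hc⟩
    · exact ⟨t c, s c, Or.inr ⟨rfl, rfl⟩, hc⟩
  have step : ∀ {n m : Nd} {e : Cn}, LEd s t n m e → LGd N s t pos a0 b0 c n →
      LGd N s t pos a0 b0 c m := by
    rintro n m e he ⟨a, b, d, hd, hn⟩
    obtain ⟨i1, i2, -⟩ := hd.inv hs ht hp h0 h1 h2
    have hbn := LLoc.eqv hn
    rcases lt_trichotomy (pos n) (pos m) with h | h | h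
    · rcases i2 with i2 | i2
      · exact ⟨_, _, _, LCh.st hd hn he (Or.inl ⟨i2.1, h⟩), Relation.EqvGen.refl _⟩
      · obtain ⟨g, -, rfl⟩ := SU i1.symm he hn (Or.inl ⟨i2.1, h⟩)
        exact hd.near hs ht hp g
    · exact ⟨a, b, d, hd, hn.trans _ _ _ (Relation.EqvGen.rel _ _ ⟨e, he, h⟩)⟩
    · rcases i2 with i2 | i2
      · obtain ⟨g, -, rfl⟩ := SU i1.symm he hn (Or.inr ⟨i2.1, h⟩)
        exact hd.near hs ht hp g
      · exact ⟨_, _, _, LCh.st hd hn he (Or.inr ⟨i2.1, h⟩), Relation.EqvGen.refl _⟩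
  have good : ∀ n, LGd N s t pos a0 b0 c n := by
    intro n
    have g0 : LGd N s t pos a0 b0 c a0 := by
      refine ⟨_, _, _, LCh.dn 1, ?_⟩
      rw [one_smul]
      exact Relation.EqvGen.refl _
    have key : ∀ x y, Relation.EqvGen (fun a b => ∃ c, s c = a ∧ t c = b) x y →
        (LGd N s t pos a0 b0 c x ↔ LGd N s t pos a0 b0 c y) := by
      intro x y h
      induction h with
      | rel x y h =>
        obtain ⟨e, e1, e2⟩ := h
        exact ⟨step (Or.inl ⟨e1, e2⟩), step (Or.inr ⟨e1, e2⟩)⟩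
      | refl x => exact Iff.rfl
      | symm x y _ ih => exact ih.symm
      | trans x y z _ _ i1 i2 => exact i1.trans i2
    exact (key _ _ (conn a0 n)).1 g0
  obtain ⟨x, y, e0, e1, e2⟩ : ∃ x y, LEd s t x y c' ∧ pos x ≤ k ∧ k < pos y := by
    rcases hc' with hc' | hc'
    · exact ⟨s c', t c', Or.inl ⟨rfl, rfl⟩, hc'⟩
    · exact ⟨t c', s c', Or.inr ⟨rfl, rfl⟩, hc'⟩
  obtain ⟨a, b, d, hd, hy⟩ := good y
  obtain ⟨i1, i2, i3⟩ := hd.inv hs ht hp h0 h1 h2
  have hby := LLoc.eqv hy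
  rcases i2 with i2 | i2
  · obtain ⟨g, rfl, -⟩ := SU i1.symm e0.symm hy (Or.inr ⟨i2.1, by omega⟩)
    rcases i3 with ⟨g', rfl⟩ | i3
    · exact ⟨g * g', (mul_smul _ _ _).symm⟩
    · exfalso
      apply i3
      unfold LCr at hc' ⊢
      rwa [hs, ht, hp, hp] at hc'
  · exact absurd i2.2 (by omega)

end Lin

end Pool.Agent.DI
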