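import Pool.Agent.DI.ExcS

/-!
# The line lemma

`FG.aftE_zero`: if nothing is left after the step then every local piece has exactly as many strands
as pole ends. `LnD`: a graph with an action of `N`, the nodes have invariant places in a linear order,
the edges go up; edges with the same lower (upper) end are in one orbit; connected. Then any two nodes
are comparable (`LnD.comp`) and all edges over a given cut are in one orbit (`LnD.one`).
-/

namespace Pool.Agent.DI

open MulAction

theorem FG.aftE_zero (G : FG) [Fintype G.N] {D : Set G.N} {e : G.N → ℕ}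
    (he : ∀ x, x ∉ D → e x ≤ G.deg x) (h0 : G.aftE D e ≤ 0) : ∀ x, x ∉ D → G.deg x = e x := by
  classical
  intro x hx
  have h1 : ∀ y ∈ Finset.univ, (0:ℤ) ≤ (if y ∈ D then 0 else (G.deg y : ℤ) - e y) := by
    intro y _
    split_ifs with hD
    · exact le_refl _
    · have := he y hD
      omega
  have h2 : G.aftE D e = 0 := le_antisymm h0 (Finset.sum_nonneg h1)
  have h3 := (Finset.sum_eq_zero_iff_of_nonneg h1).1 h2 x (Finset.mem_univ x)
  rw [if_neg hx] at h3
  omega

/-- a graph with an action of `N` over a linear order -/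
structure LnD (N T Ed L : Type) [Group N] [MulAction N T] [MulAction N Ed] [LinearOrder L] where
  s : Ed → T
  t : Ed → T
  hs : ∀ (n : N) (e : Ed), s (n • e) = n • s e
  ht : ∀ (n : N) (e : Ed), t (n • e) = n • t e
  pl : T → L
  hpl : ∀ (n : N) (x : T), pl (n • x) = pl x
  up : ∀ e, pl (s e) < pl (t e)
  us : ∀ e e', s e = s e' → ∃ n : N, e' = n • e
  ut : ∀ e e', t e = t e' → ∃ n : N, e' = n • e
  conn : ∀ x y : T, ∃ n : N, Relation.EqvGen (fun a b => ∃ e, s e = a ∧ t e = b) x (n • y)

namespace LnD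

variable {N T Ed L : Type} [Group N] [MulAction N T] [MulAction N Ed] [LinearOrder L]
  (D : LnD N T Ed L)

/-- a step up -/
def U (x y : T) : Prop := ∃ e, D.s e = x ∧ D.t e = y

/-- `y` is reached from `x` by steps up, modulo `N` -/
def Le (x y : T) : Prop := ∃ n : N, Relation.ReflTransGen D.U x (n • y)

theorem U_smul (n : N) {x y : T} (h : D.U x y) : D.U (n • x) (n • y) := by
  obtain ⟨e, rfl, rfl⟩ := h
  exact ⟨n • e, D.hs n e, D.ht n e⟩

theorem rtg_smul (n : N) {x y : T} (h : Relation.ReflTransGen D.U x y) :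
    Relation.ReflTransGen D.U (n • x) (n • y) := by
  induction h with
  | refl => exact Relation.ReflTransGen.refl
  | tail _ h2 ih => exact ih.tail (D.U_smul n h2)

theorem Le_refl (x : T) : D.Le x x := ⟨1, by rw [one_smul]⟩

theorem Le_smul_left {x y : T} (n : N) (h : D.Le x y) : D.Le (n • x) y := by
  obtain ⟨m, hm⟩ := h
  refine ⟨n * m, ?_⟩
  rw [mul_smul]
  exact D.rtg_smul n hm

theorem Le_of_smul_left {x y : T} (n : N) (h : D.Le (n • x) y) : D.Le x y := by
  have := D.Le_smul_left n⁻¹ h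
  rwa [inv_smul_smul] at this

theorem Le_of_smul_right {x y : T} (n : N) (h : D.Le x (n • y)) : D.Le x y := by
  obtain ⟨m, hm⟩ := h
  refine ⟨m * n, ?_⟩
  rw [mul_smul]
  exact hm

theorem Le_smul_right {x y : T} (n : N) (h : D.Le x y) : D.Le x (n • y) := by
  apply D.Le_of_smul_right n⁻¹
  rw [inv_smul_smul]
  exact h

theorem Le_trans {x y z : T} (h1 : D.Le x y) (h2 : D.Le y z) : D.Le x z := by
  obtain ⟨n, hn⟩ := h1
  obtain ⟨m, hm⟩ := h2
  refine ⟨n * m, hn.trans ?_⟩
  rw [mul_smul]
  exact D.rtg_smul n hm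

theorem pl_rtg {x y : T} (h : Relation.ReflTransGen D.U x y) : D.pl x ≤ D.pl y := by
  induction h with
  | refl => exact le_refl _
  | tail _ h2 ih =>
    obtain ⟨e, rfl, rfl⟩ := h2
    exact ih.trans (D.up e).le

theorem pl_le {x y : T} (h : D.Le x y) : D.pl x ≤ D.pl y := by
  obtain ⟨n, hn⟩ := h
  have := D.pl_rtg hn
  rwa [D.hpl] at this

/-- a step up from `x` is the first step of every way up from `x` -/
theorem head {e : Ed} {y : T} (h : D.Le (D.s e) y) : D.Le y (D.s e) ∨ D.Le (D.t e) y := by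
  obtain ⟨n, hn⟩ := h
  rcases Relation.ReflTransGen.cases_head hn with h1 | ⟨z, ⟨e1, h1, rfl⟩, h2⟩
  · left
    apply D.Le_of_smul_left n
    rw [← h1]
    exact D.Le_refl _
  · right
    obtain ⟨m, hm⟩ := D.us e e1 h1.symm
    rw [hm, D.ht] at h2
    exact D.Le_of_smul_left m ⟨n, h2⟩

/-- a step up to `y` is the last step of every way up to `y` -/
theorem last {e : Ed} {x : T} (h : D.Le x (D.t e)) : D.Le (D.t e) x ∨ D.Le x (D.s e) := by
  obtain ⟨n, hn⟩ := h
  rcases Relation.ReflTransGen.cases_tail hn with h1 | ⟨z, h2, ⟨e1, rfl, h1⟩⟩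
  · left
    apply D.Le_of_smul_left n
    rw [h1]
    exact D.Le_refl _
  · right
    have h3 : D.t (n • e) = D.t e1 := by rw [D.ht, h1]
    obtain ⟨m, hm⟩ := D.ut (n • e) e1 h3
    rw [hm, ← mul_smul, D.hs] at h2
    exact ⟨m * n, h2⟩

/-- any two nodes are comparable -/
theorem comp (x y : T) : D.Le x y ∨ D.Le y x := by
  obtain ⟨n, hn⟩ := D.conn x y
  have key : ∀ z, Relation.EqvGen (fun a b => ∃ e, D.s e = a ∧ D.t e = b) x z →
      ∀ w, (D.Le w x ∨ D.Le x w) → (D.Le w z ∨ D.Le z w) := by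
    have step : ∀ e w, (D.Le w (D.s e) ∨ D.Le (D.s e) w) ↔ (D.Le w (D.t e) ∨ D.Le (D.t e) w) := by
      intro e w
      have hst : D.Le (D.s e) (D.t e) :=
        ⟨1, by rw [one_smul]; exact Relation.ReflTransGen.single ⟨e, rfl, rfl⟩⟩
      constructor
      · rintro (h | h)
        · exact Or.inl (D.Le_trans h hst)
        · rcases D.head h with h1 | h1
          · exact Or.inl (D.Le_trans h1 hst)
          · exact Or.inr h1
      · rintro (h | h)
        · rcases D.last h with h1 | h1
          · exact Or.inr (D.Le_trans hst h1)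
          · exact Or.inl h1
        · exact Or.inr (D.Le_trans hst h)
    have all : ∀ a b, Relation.EqvGen (fun a b => ∃ e, D.s e = a ∧ D.t e = b) a b →
        ∀ w, (D.Le w a ∨ D.Le a w) ↔ (D.Le w b ∨ D.Le b w) := by
      intro a b h
      induction h with
      | rel a b h =>
        obtain ⟨e, rfl, rfl⟩ := h
        exact step e
      | refl a => exact fun w => Iff.rfl
      | symm a b _ ih => exact fun w => (ih w).symm
      | trans a b c _ _ h1 h2 => exact fun w => (h1 w).trans (h2 w)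
    intro z hz w hw
    exact (all x z hz w).1 hw
  rcases key (n • y) hn x (Or.inl (D.Le_refl x)) with h | h
  · exact Or.inl (D.Le_of_smul_right n h)
  · exact Or.inr (D.Le_of_smul_left n h)

/-- THE LINE LEMMA: all edges over a cut are in one orbit -/
theorem one {k : L} {e e' : Ed} (h1 : D.pl (D.s e) ≤ k) (h2 : k < D.pl (D.t e))
    (h1' : D.pl (D.s e') ≤ k) (h2' : k < D.pl (D.t e')) : ∃ n : N, e' = n • e := by
  have key : ∀ e e' : Ed, D.pl (D.s e) ≤ k → k < D.pl (D.t e) → D.pl (D.s e') ≤ k →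
      D.Le (D.s e) (D.s e') → ∃ n : N, e' = n • e := by
    intro e e' h1 h2 h1' h
    obtain ⟨n, hn⟩ := h
    rcases Relation.ReflTransGen.cases_head hn with h3 | ⟨z, ⟨e1, h3, rfl⟩, h4⟩
    · rw [← D.hs] at h3
      obtain ⟨m, hm⟩ := D.us e (n • e') h3
      refine ⟨n⁻¹ * m, ?_⟩
      rw [mul_smul, ← hm, inv_smul_smul]
    · exfalso
      obtain ⟨m, hm⟩ := D.us e e1 h3.symm
      have h5 := D.pl_rtg h4
      rw [hm, D.ht, D.hpl, D.hpl] at h5
      exact absurd (lt_of_lt_of_le h2 h5) (not_lt.2 h1')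
  rcases D.comp (D.s e) (D.s e') with h | h
  · exact key e e' h1 h2 h1' h
  · obtain ⟨n, hn⟩ := key e' e h1' h2' h1 h
    exact ⟨n⁻¹, by rw [hn, inv_smul_smul]⟩

end LnD

end Pool.Agent.DI
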