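import Pool.Agent.DI.LkQ

/-!
# Pole excess and cycles of the pieces

For `Z : ZC K`: `Z.strs` = pole strands (corners between an in-arrow and a pole, real or zero, every zero
corner counted `mu` times), `Z.pols` = private poles, `Z.exc = # strs - # pols`; `Z.ip` = the pieces
without poles, `Z.cyc` its Betti number; `Z.eh2_eq : Z.eh2 = Z.cyc + Z.exc`.
-/

namespace Pool.Agent.DI

open MulAction
open Pool.Agent.SAF (InC orbs FinOrb oc mk_eq_iff FinOrb_iff)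

section

variable {H Y Y' : Type} [Group H] [MulAction H Y] [MulAction H Y']

/-- the orbits of an invariant set -/
theorem card_sub (A : SubMulAction H Y) :
    Nat.card (orbitRel.Quotient H ↥A) = oc H (A : Set Y) := by
  rw [Nat.card_congr (JM.imEquiv A)]
  have h : {q : orbitRel.Quotient H Y // q ∈ JM.im A} = ↥(orbs H (A : Set Y)) := rfl
  rw [h]
  exact Nat.card_coe_set_eq _

/-- an equivariant bijection of invariant sets -/
theorem oc_bij {s : Set Y} {s' : Set Y'} (hs : FinOrb H s) (hs' : FinOrb H s')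
    (hinv : ∀ (h : H), ∀ a ∈ s, h • a ∈ s) (f : Y → Y')
    (hf : ∀ (h : H), ∀ a ∈ s, f (h • a) = h • f a) (hm : ∀ a ∈ s, f a ∈ s')
    (hsur : ∀ b ∈ s', ∃ a ∈ s, f a = b) (hinj : ∀ a ∈ s, ∀ b ∈ s, f a = f b → a = b) :
    oc H s = oc H s' := by
  apply le_antisymm
  · refine SAF.oc_le_of_inj hs' f hm ?_
    rintro a ha b hb ⟨h, e⟩
    exact ⟨h, hinj _ (hinv h a ha) _ hb (by rw [hf h a ha, e])⟩
  · refine SAF.oc_le_of_surj hs f ?_ ?_
    · intro b hb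
      obtain ⟨a, ha, e⟩ := hsur b hb
      exact ⟨a, ha, 1, by rw [one_smul, e]⟩
    · rintro a ha b hb ⟨h, rfl⟩
      exact ⟨h, (hf h a ha).symm⟩

end

/-- the number of components, if they are the fibres of an equivariant map -/
theorem JM.nC_eq {J T Ed X : Type} [Group J] [MulAction J T] [MulAction J Ed] [MulAction J X]
    (M : JM J T Ed) (F : T → X) (hF : ∀ (j : J) (x : T), F (j • x) = j • F x)
    (hc : ∀ x y, Relation.EqvGen M.st x y ↔ F x = F y) :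
    M.fg.nC = oc J (Set.range F) := by
  have h1 : ∀ p q : M.fg.N, Relation.EqvGen M.fg.st p q →
      olift (fun x => oq J (F x)) (fun j x => by rw [hF, oq_smul]) p =
      olift (fun x => oq J (F x)) (fun j x => by rw [hF, oq_smul]) q := by
    intro p q h
    obtain ⟨x, rfl⟩ := oq_surj p
    obtain ⟨y, rfl⟩ := oq_surj q
    obtain ⟨j, hj⟩ := M.c_eq_iff.1 (FG.c_eq.2 h)
    rw [hc] at hj
    rw [olift_oq, olift_oq, hj, hF, oq_smul]
  let g : M.fg.C → orbitRel.Quotient J X := Quotient.lift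
    (olift (fun x => oq J (F x)) (fun j x => by rw [hF, oq_smul])) h1
  have hg : ∀ x : T, g (M.fg.c (oq J x)) = oq J (F x) := fun x => rfl
  have hinj : Function.Injective g := by
    intro p q h
    obtain ⟨p, rfl⟩ := FG.c_surj p
    obtain ⟨q, rfl⟩ := FG.c_surj q
    obtain ⟨x, rfl⟩ := oq_surj p
    obtain ⟨y, rfl⟩ := oq_surj q
    rw [hg, hg] at h
    obtain ⟨j, hj⟩ := oq_eq.1 h
    refine M.c_eq_iff.2 ⟨j⁻¹, (hc _ _).2 ?_⟩
    rw [hF, hj, inv_smul_smul]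
  have hr : Set.range g = orbs J (Set.range F) := by
    ext q
    constructor
    · rintro ⟨p, rfl⟩
      obtain ⟨p, rfl⟩ := FG.c_surj p
      obtain ⟨x, rfl⟩ := oq_surj p
      exact ⟨F x, ⟨x, rfl⟩, rfl⟩
    · rintro ⟨_, ⟨x, rfl⟩, rfl⟩
      exact ⟨M.fg.c (oq J x), rfl⟩
  unfold FG.nC oc
  rw [← hr, ← Set.image_univ, Set.ncard_image_of_injective _ hinj, Set.ncard_univ]

namespace ZC

variable {H V : Type} [Group H] [MulAction H V] {K : GX H V} (Z : ZC K)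

/-! ### the parts of the lines and of the nodes -/

/-- lines between in-arrows -/
def IE : SubMulAction H (LQ K.LE V) where
  carrier := {t | match t with
    | LQ.re e => e ∈ Z.R ∧ K.ar (K.c0 e) (K.c1 e) ∧ K.ar (K.c2 e) (K.c1 e)
    | LQ.fl x y z o k => k < Z.mu x y z o ∧ K.ar x y ∧ K.ar z y}
  smul_mem' h t ht := by
    cases t with
    | re e =>
      refine ⟨Z.R.smul_mem h ht.1, ?_⟩
      rw [K.c0_smul, K.c1_smul, K.c2_smul]
      exact ⟨K.ar_smul h _ _ ht.2.1, K.ar_smul h _ _ ht.2.2⟩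
    | fl x y z o k =>
      exact ⟨by rw [Z.sm]; exact ht.1, K.ar_smul h _ _ ht.2.1, K.ar_smul h _ _ ht.2.2⟩

/-- in-nodes and midpoints of zero corners between in-arrows -/
def IT : SubMulAction H (NQ V) where
  carrier := {t | match t with
    | NQ.inn y n => K.ar n y
    | NQ.mid y o X k => ∃ x z, X = {x, z} ∧ k < Z.mu x y z o ∧ K.ar x y ∧ K.ar z y
    | NQ.pol _ _ _ => False}
  smul_mem' h t ht := by
    cases t with
    | inn y n => exact K.ar_smul h _ _ ht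
    | mid y o X k =>
      obtain ⟨x, z, rfl, h1, h2, h3⟩ := ht
      exact ⟨h • x, h • z, pair_smul h x z, by rw [Z.sm]; exact h1, K.ar_smul h _ _ h2,
        K.ar_smul h _ _ h3⟩
    | pol y a C => exact ht

/-- the pole strands -/
def strs : Set (LQ K.LE V) := {t | match t with
    | LQ.re e => e ∈ Z.R ∧ ((K.ar (K.c0 e) (K.c1 e) ∧ K.ar (K.c1 e) (K.c2 e)) ∨
        (K.ar (K.c2 e) (K.c1 e) ∧ K.ar (K.c1 e) (K.c0 e)))
    | LQ.fl x y z o k => k < Z.mu x y z o ∧ K.ar x y ∧ K.ar y z}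

/-- the private poles -/
def pols : Set (NQ V) := {t | ∃ y a n, t = NQ.pol y a (Z.Pc y n) ∧ K.ar y a ∧ K.ar n y ∧ Z.Co a y n}

/-- the second flags of the zero strands -/
def strs' : Set (LQ K.LE V) := {t | ∃ x y z o k, t = LQ.fl x y z o k ∧ k < Z.mu x y z o ∧
  K.ar y x ∧ K.ar z y}

/-- the zero strands -/
def zstr : Set (LQ K.LE V) := {t | ∃ x y z o k, t = LQ.fl x y z o k ∧ k < Z.mu x y z o ∧
  K.ar x y ∧ K.ar y z}

/-- midpoints of the zero strands -/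
def smid : Set (NQ V) := {t | ∃ x y z o k, t = NQ.mid y o {x, z} k ∧ k < Z.mu x y z o ∧
  K.ar x y ∧ K.ar y z}

/-- THE POLE EXCESS -/
noncomputable def exc : ℤ := (oc H Z.strs : ℤ) - oc H Z.pols

theorem not_both {x y : V} (h : K.ar x y) : ¬ K.ar y x := fun k =>
  absurd (K.ar_rk _ _ h) (not_lt.2 (K.ar_rk _ _ k).le)

theorem fin_strs : FinOrb H Z.strs := by
  refine SAF.FinOrb.mono ?_ Z.fin_PE
  intro t ht
  cases t with
  | re e =>
    rcases ht.2 with h | h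
    · exact ⟨ht.1, Or.inl h.1⟩
    · exact ⟨ht.1, Or.inr h.1⟩
  | fl x y z o k => exact ⟨ht.1, Or.inl ht.2.1⟩

theorem pols_sub : Z.pols ⊆ (Z.PT : Set (NQ V)) := by
  rintro t ⟨y, a, n, rfl, h1, h2, h3⟩
  exact ⟨h1, n, h2, h3, rfl⟩

theorem fin_pols : FinOrb H Z.pols := SAF.FinOrb.mono Z.pols_sub Z.fin_PT

theorem IE_sub : (Z.IE : Set (LQ K.LE V)) ⊆ Z.PE := by
  intro t ht
  cases t with
  | re e => exact ⟨ht.1, Or.inl ht.2.1⟩
  | fl x y z o k => exact ⟨ht.1, Or.inl ht.2.1⟩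

theorem IT_sub : (Z.IT : Set (NQ V)) ⊆ Z.PT := by
  intro t ht
  cases t with
  | inn y n => exact ht
  | mid y o X k =>
    obtain ⟨x, z, rfl, h1, h2, h3⟩ := ht
    exact ⟨x, z, rfl, h1, Or.inl h2⟩
  | pol y a C => exact ht.elim

/-! ### the pieces without poles -/

theorem ls_IT {t : LQ K.LE V} (ht : t ∈ Z.IE) : Z.ls t ∈ Z.IT := by
  cases t with
  | re e =>
    show Z.nd _ _ _ ∈ Z.IT
    rw [Z.nd_in ht.2.1]
    exact ht.2.1
  | fl x y z o k =>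
    show Z.nd _ _ _ ∈ Z.IT
    rw [Z.nd_in ht.2.1]
    exact ht.2.1

theorem lt_IT {t : LQ K.LE V} (ht : t ∈ Z.IE) : Z.lt t ∈ Z.IT := by
  cases t with
  | re e =>
    show Z.nd _ _ _ ∈ Z.IT
    rw [Z.nd_in ht.2.2]
    exact ht.2.2
  | fl x y z o k => exact ⟨x, z, rfl, ht⟩

/-- THE PIECES WITHOUT POLES -/
noncomputable def ip : JM H ↥Z.IT ↥Z.IE where
  s e := ⟨Z.ls e.1, Z.ls_IT e.2⟩
  t e := ⟨Z.lt e.1, Z.lt_IT e.2⟩
  hs j e := Subtype.ext (Z.ls_smul j e.1)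
  ht j e := Subtype.ext (Z.lt_smul j e.1)
  fT := finite_orb_sub Z.IT (SAF.FinOrb.mono Z.IT_sub Z.fin_PT)
  fE := finite_orb_sub Z.IE (SAF.FinOrb.mono Z.IE_sub Z.fin_PE)

/-- the number of cycles of the pieces without poles -/
noncomputable def cyc : ℤ := Z.ip.fg.b1

theorem cyc_nonneg : 0 ≤ Z.cyc := FG.b1_nonneg _

/-- a corner between two in-arrows joins them -/
theorem ip_IC {y a b : V} (hc : Z.Co a y b) (ha : K.ar a y) (hb : K.ar b y) :
    Relation.EqvGen Z.ip.st ⟨NQ.inn y a, ha⟩ ⟨NQ.inn y b, hb⟩ := by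
  rcases hc with ⟨e, he, ⟨e0, e1, e2⟩ | ⟨e0, e1, e2⟩⟩ | ⟨o, ho⟩
  · have he' : LQ.re e ∈ Z.IE := ⟨he, by rw [e0, e1]; exact ha, by rw [e1, e2]; exact hb⟩
    apply Relation.EqvGen.rel
    refine ⟨⟨_, he'⟩, Subtype.ext ?_, Subtype.ext ?_⟩
    · show Z.nd (K.c1 e) (K.c0 e) (K.c2 e) = NQ.inn y a
      rw [e0, e1, e2, Z.nd_in ha]
    · show Z.nd (K.c1 e) (K.c2 e) (K.c0 e) = NQ.inn y b
      rw [e0, e1, e2, Z.nd_in hb]
  · have he' : LQ.re e ∈ Z.IE := ⟨he, by rw [e0, e1]; exact hb, by rw [e1, e2]; exact ha⟩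
    apply Relation.EqvGen.symm
    apply Relation.EqvGen.rel
    refine ⟨⟨_, he'⟩, Subtype.ext ?_, Subtype.ext ?_⟩
    · show Z.nd (K.c1 e) (K.c0 e) (K.c2 e) = NQ.inn y b
      rw [e0, e1, e2, Z.nd_in hb]
    · show Z.nd (K.c1 e) (K.c2 e) (K.c0 e) = NQ.inn y a
      rw [e0, e1, e2, Z.nd_in ha]
  · have h1 : LQ.fl a y b o 0 ∈ Z.IE := ⟨Nat.pos_of_ne_zero ho, ha, hb⟩
    have h2 : LQ.fl b y a o 0 ∈ Z.IE := ⟨by rw [Z.sy]; exact Nat.pos_of_ne_zero ho, hb, ha⟩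
    have hm : NQ.mid y o {a, b} 0 ∈ Z.IT := ⟨a, b, rfl, h1⟩
    have k1 : Relation.EqvGen Z.ip.st ⟨NQ.inn y a, ha⟩ ⟨NQ.mid y o {a, b} 0, hm⟩ := by
      apply Relation.EqvGen.rel
      refine ⟨⟨_, h1⟩, Subtype.ext ?_, Subtype.ext rfl⟩
      exact Z.nd_in ha
    have k2 : Relation.EqvGen Z.ip.st ⟨NQ.inn y b, hb⟩ ⟨NQ.mid y o {a, b} 0, hm⟩ := by
      apply Relation.EqvGen.rel
      refine ⟨⟨_, h2⟩, Subtype.ext ?_, Subtype.ext ?_⟩
      · exact Z.nd_in hb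
      · show NQ.mid y o {b, a} 0 = NQ.mid y o {a, b} 0
        rw [Set.pair_comm]
    exact k1.trans _ _ _ k2.symm

theorem ip_inn {y a b : V} (h : Z.IJ y a b) (ha : K.ar a y) (hb : K.ar b y) :
    Relation.EqvGen Z.ip.st ⟨NQ.inn y a, ha⟩ ⟨NQ.inn y b, hb⟩ := by
  induction h with
  | rel a b h => exact Z.ip_IC h.1 ha hb
  | refl a => exact Relation.EqvGen.refl _
  | symm a b _ ih => exact (ih hb ha).symm
  | trans a b c k1 k2 ih1 ih2 =>
    have hb' : K.ar b y := (IJ.ar k1).1 ha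
    exact (ih1 ha hb').trans _ _ _ (ih2 hb' hb)

theorem ip_exists_inn (t : ↥Z.IT) : ∃ y n, ∃ h : K.ar n y,
    Relation.EqvGen Z.ip.st t ⟨NQ.inn y n, h⟩ ∧ Z.pk t.1 = (y, Z.Pc y n) := by
  obtain ⟨t, ht⟩ := t
  cases t with
  | inn y n => exact ⟨y, n, ht, Relation.EqvGen.refl _, rfl⟩
  | mid y o X k =>
    obtain ⟨x, z, rfl, hk, h, h'⟩ := id ht
    refine ⟨y, x, h, ?_, Z.pk_mid (Z.Co_fl hk) (Or.inl rfl) h⟩
    apply Relation.EqvGen.symm
    apply Relation.EqvGen.rel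
    exact ⟨⟨LQ.fl x y z o k, hk, h, h'⟩, Subtype.ext (Z.nd_in h), Subtype.ext rfl⟩
  | pol y a C => exact (ht : False).elim

/-- the components are the pieces -/
theorem ip_eqv {x y : ↥Z.IT} : Relation.EqvGen Z.ip.st x y ↔ Z.pk x.1 = Z.pk y.1 := by
  constructor
  · intro h
    induction h with
    | rel x y h =>
      obtain ⟨e, rfl, rfl⟩ := h
      exact Z.pk_line ⟨e.1, Z.IE_sub e.2⟩
    | refl x => rfl
    | symm x y _ ih => exact ih.symm
    | trans x y z _ _ h1 h2 => exact h1.trans h2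
  · intro h
    obtain ⟨y1, n1, h1, k1, l1⟩ := Z.ip_exists_inn x
    obtain ⟨y2, n2, h2, k2, l2⟩ := Z.ip_exists_inn y
    rw [l1, l2] at h
    have e1 : y1 = y2 := congrArg Prod.fst h
    subst e1
    have e2 : Z.Pc y1 n1 = Z.Pc y1 n2 := congrArg Prod.snd h
    exact (k1.trans _ _ _ (Z.ip_inn (Pc_eq.1 e2) h1 h2)).trans _ _ _ k2.symm

/-! ### the number of the pieces -/

/-- the code of the piece of a node -/
noncomputable def pf (t : NQ V) : NQ V := NQ.pol (Z.pk t).1 (Z.pk t).1 (Z.pk t).2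

theorem pf_eq {s t : NQ V} : Z.pf s = Z.pf t ↔ Z.pk s = Z.pk t := by
  unfold pf
  constructor
  · intro h
    obtain ⟨h1, -, h3⟩ := NQ.pol.inj h
    exact Prod.ext h1 h3
  · intro h
    rw [h]

theorem pf_inn (y n : V) : Z.pf (NQ.inn y n) = NQ.pol y y (Z.Pc y n) := rfl

theorem pk_smul (j : H) (t : ↥Z.PT) : Z.pf (j • t.1) = j • Z.pf t.1 := by
  obtain ⟨y, n, h, k1, k2⟩ := Z.exists_inn t
  have h1 := Z.pc_eqv.1 (Z.pc.eqv_smul j k1)
  have h2 : Z.pk (j • t.1) = Z.pk (NQ.inn (j • y) (j • n)) := h1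
  rw [Z.pf_eq.2 h2]
  have h3 : Z.pk t.1 = Z.pk (NQ.inn y n) := k2
  rw [Z.pf_eq.2 h3, pf_inn, pf_inn, NQ.smul_pol, Pc_smul]

/-- the codes of the pieces -/
def pcs : Set (NQ V) := {t | ∃ y n, t = NQ.pol y y (Z.Pc y n) ∧ K.ar n y}

theorem nC_pc : Z.pc.fg.nC = oc H Z.pcs := by
  rw [Z.pc.nC_eq (fun t => Z.pf t.1) (fun j t => Z.pk_smul j t)
    (fun x y => by rw [Z.pc_eqv, Z.pf_eq])]
  congr 1
  ext t
  constructor
  · rintro ⟨x, rfl⟩
    obtain ⟨y, n, h, -, k2⟩ := Z.exists_inn x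
    refine ⟨y, n, ?_, h⟩
    have h3 : Z.pk x.1 = Z.pk (NQ.inn y n) := k2
    exact Z.pf_eq.2 h3
  · rintro ⟨y, n, rfl, h⟩
    exact ⟨⟨NQ.inn y n, h⟩, rfl⟩

theorem nC_ip : Z.ip.fg.nC = oc H Z.pcs := by
  rw [Z.ip.nC_eq (fun t => Z.pf t.1) (fun j t => Z.pk_smul j ⟨t.1, Z.IT_sub t.2⟩)
    (fun x y => by rw [Z.ip_eqv, Z.pf_eq])]
  congr 1
  ext t
  constructor
  · rintro ⟨x, rfl⟩
    obtain ⟨y, n, h, -, k2⟩ := Z.ip_exists_inn x
    refine ⟨y, n, ?_, h⟩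
    have h3 : Z.pk x.1 = Z.pk (NQ.inn y n) := k2
    exact Z.pf_eq.2 h3
  · rintro ⟨y, n, rfl, h⟩
    exact ⟨⟨NQ.inn y n, h⟩, rfl⟩

/-- `2 E^h` as orbit numbers -/
theorem eh2_oc : Z.eh2 = oc H (Z.PE : Set (LQ K.LE V)) - oc H (Z.PT : Set (NQ V)) + oc H Z.pcs := by
  have h1 : Z.pc.fg.nL = oc H (Z.PE : Set (LQ K.LE V)) := card_sub Z.PE
  have h2 : Z.pc.fg.nN = oc H (Z.PT : Set (NQ V)) := card_sub Z.PT
  unfold eh2 FG.b1
  rw [h1, h2, Z.nC_pc]

theorem cyc_oc : Z.cyc = oc H (Z.IE : Set (LQ K.LE V)) - oc H (Z.IT : Set (NQ V)) + oc H Z.pcs := by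
  have h1 : Z.ip.fg.nL = oc H (Z.IE : Set (LQ K.LE V)) := card_sub Z.IE
  have h2 : Z.ip.fg.nN = oc H (Z.IT : Set (NQ V)) := card_sub Z.IT
  unfold cyc FG.b1
  rw [h1, h2, Z.nC_ip]

/-! ### `2 E^h = cyc + exc` -/

theorem zstr_inv (h : H) : ∀ t ∈ Z.zstr, h • t ∈ Z.zstr := by
  rintro _ ⟨x, y, z, o, k, rfl, h1, h2, h3⟩
  exact ⟨_, _, _, _, k, rfl, by rw [Z.sm]; exact h1, K.ar_smul h _ _ h2, K.ar_smul h _ _ h3⟩

theorem strs'_inv (h : H) : ∀ t ∈ Z.strs', h • t ∈ Z.strs' := by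
  rintro _ ⟨x, y, z, o, k, rfl, h1, h2, h3⟩
  exact ⟨_, _, _, _, k, rfl, by rw [Z.sm]; exact h1, K.ar_smul h _ _ h2, K.ar_smul h _ _ h3⟩

theorem strs_inv (h : H) : ∀ t ∈ Z.strs, h • t ∈ Z.strs := by
  intro t ht
  cases t with
  | re e =>
    refine ⟨Z.R.smul_mem h ht.1, ?_⟩
    rw [K.c0_smul, K.c1_smul, K.c2_smul]
    exact ht.2.imp (fun k => ⟨K.ar_smul h _ _ k.1, K.ar_smul h _ _ k.2⟩)
      (fun k => ⟨K.ar_smul h _ _ k.1, K.ar_smul h _ _ k.2⟩)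
  | fl x y z o k =>
    exact ⟨by rw [Z.sm]; exact ht.1, K.ar_smul h _ _ ht.2.1, K.ar_smul h _ _ ht.2.2⟩

theorem fin_zstr : FinOrb H Z.zstr := by
  refine SAF.FinOrb.mono ?_ Z.fin_PE
  rintro _ ⟨x, y, z, o, k, rfl, h1, h2, h3⟩
  exact ⟨h1, Or.inl h2⟩

theorem fin_strs' : FinOrb H Z.strs' := by
  refine SAF.FinOrb.mono ?_ Z.fin_PE
  rintro _ ⟨x, y, z, o, k, rfl, h1, h2, h3⟩
  exact ⟨h1, Or.inr h3⟩

theorem fin_smid : FinOrb H Z.smid := by
  refine SAF.FinOrb.mono ?_ Z.fin_PT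
  rintro _ ⟨x, y, z, o, k, rfl, h1, h2, h3⟩
  exact ⟨x, z, rfl, h1, Or.inl h2⟩

/-- a pair with an in-arrow and a pole -/
theorem pair_inj {y x z x' z' : V} (e : ({x, z} : Set V) = {x', z'}) (h1 : K.ar x y)
    (h2 : K.ar y z) (h3 : K.ar x' y) (h4 : K.ar y z') : x = x' ∧ z = z' := by
  have a : x ∈ ({x', z'} : Set V) := by
    rw [← e]
    exact Or.inl rfl
  have b : z ∈ ({x', z'} : Set V) := by
    rw [← e]
    exact Or.inr rfl
  constructor
  · rcases a with a | a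
    · exact a
    · have a : x = z' := a
      rw [a] at h1
      exact absurd h4 (not_both h1)
  · rcases b with b | b
    · rw [b] at h2
      exact absurd h3 (not_both h2)
    · exact b

theorem oc_zstr : oc H Z.zstr = oc H Z.smid := by
  refine oc_bij Z.fin_zstr Z.fin_smid Z.zstr_inv Z.lt (fun h t _ => Z.lt_smul h t) ?_ ?_ ?_
  · rintro _ ⟨x, y, z, o, k, rfl, h⟩
    exact ⟨x, y, z, o, k, rfl, h⟩
  · rintro _ ⟨x, y, z, o, k, rfl, h⟩
    exact ⟨_, ⟨x, y, z, o, k, rfl, h⟩, rfl⟩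
  · rintro _ ⟨x, y, z, o, k, rfl, h1, h2, h3⟩ _ ⟨x', y', z', o', k', rfl, h1', h2', h3'⟩ e
    obtain ⟨rfl, rfl, e3, rfl⟩ := NQ.mid.inj (show NQ.mid y o {x, z} k = NQ.mid y' o' {x', z'} k'
      from e)
    obtain ⟨rfl, rfl⟩ := pair_inj e3 h2 h3 h2' h3'
    rfl

theorem oc_strs' : oc H Z.strs' = oc H Z.smid := by
  refine oc_bij Z.fin_strs' Z.fin_smid Z.strs'_inv Z.lt (fun h t _ => Z.lt_smul h t) ?_ ?_ ?_
  · rintro _ ⟨x, y, z, o, k, rfl, h1, h2, h3⟩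
    refine ⟨z, y, x, o, k, ?_, by rw [Z.sy]; exact h1, h3, h2⟩
    show NQ.mid y o {x, z} k = _
    rw [Set.pair_comm]
  · rintro _ ⟨x, y, z, o, k, rfl, h1, h2, h3⟩
    refine ⟨LQ.fl z y x o k, ⟨z, y, x, o, k, rfl, by rw [Z.sy]; exact h1, h3, h2⟩, ?_⟩
    show NQ.mid y o {z, x} k = _
    rw [Set.pair_comm]
  · rintro _ ⟨x, y, z, o, k, rfl, h1, h2, h3⟩ _ ⟨x', y', z', o', k', rfl, h1', h2', h3'⟩ e
    obtain ⟨rfl, rfl, e3, rfl⟩ := NQ.mid.inj (show NQ.mid y o {x, z} k = NQ.mid y' o' {x', z'} k'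
      from e)
    rw [Set.pair_comm x z, Set.pair_comm x' z'] at e3
    obtain ⟨rfl, rfl⟩ := pair_inj e3 h3 h2 h3' h2'
    rfl

theorem eh2_eq : Z.eh2 = Z.cyc + Z.exc := by
  -- the lines
  have l1 : (Z.PE : Set (LQ K.LE V)) = ((Z.IE : Set (LQ K.LE V)) ∪ Z.strs) ∪ Z.strs' := by
    ext t
    constructor
    · intro ht
      cases t with
      | re e =>
        have e0 := K.c_E0 e
        have e2 := K.c_E2 e
        left
        by_cases a0 : K.ar (K.c0 e) (K.c1 e)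
        · by_cases a2 : K.ar (K.c2 e) (K.c1 e)
          · exact Or.inl ⟨ht.1, a0, a2⟩
          · exact Or.inr ⟨ht.1, Or.inl ⟨a0, e2.resolve_right a2⟩⟩
        · have a2 := ht.2.resolve_left a0
          exact Or.inr ⟨ht.1, Or.inr ⟨a2, e0.resolve_right a0⟩⟩
      | fl x y z o k =>
        have e0 : K.E y x := (Z.Co_fl ht.1).E1
        have e2 : K.E y z := (Z.Co_fl ht.1).E2
        by_cases a0 : K.ar x y
        · left
          by_cases a2 : K.ar z y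
          · exact Or.inl ⟨ht.1, a0, a2⟩
          · exact Or.inr ⟨ht.1, a0, e2.resolve_right a2⟩
        · right
          exact ⟨x, y, z, o, k, rfl, ht.1, e0.resolve_right a0, ht.2.resolve_left a0⟩
    · rintro ((ht | ht) | ht)
      · exact Z.IE_sub ht
      · cases t with
        | re e =>
          rcases ht.2 with h | h
          · exact ⟨ht.1, Or.inl h.1⟩
          · exact ⟨ht.1, Or.inr h.1⟩
        | fl x y z o k => exact ⟨ht.1, Or.inl ht.2.1⟩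
      · obtain ⟨x, y, z, o, k, rfl, h1, h2, h3⟩ := ht
        exact ⟨h1, Or.inr h3⟩
  have d1 : Dj H (Z.IE : Set (LQ K.LE V)) Z.strs := by
    refine Dj.of_inv (fun g a ha => Z.IE.smul_mem g ha) ?_
    intro t ht ht'
    cases t with
    | re e =>
      rcases ht'.2 with h | h
      · exact not_both h.2 ht.2.2
      · exact not_both h.2 ht.2.1
    | fl x y z o k => exact not_both ht'.2.2 ht.2.2
  have d2 : Dj H ((Z.IE : Set (LQ K.LE V)) ∪ Z.strs) Z.strs' := by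
    apply Dj.symm
    refine Dj.of_inv (fun g a ha => Z.strs'_inv g a ha) ?_
    rintro _ ⟨x, y, z, o, k, rfl, h1, h2, h3⟩ (ht | ht)
    · exact not_both h2 ht.2.1
    · exact not_both h2 ht.2.1
  have n1 : oc H (Z.PE : Set (LQ K.LE V)) =
      oc H (Z.IE : Set (LQ K.LE V)) + oc H Z.strs + oc H Z.strs' := by
    have f1 : FinOrb H (Z.IE : Set (LQ K.LE V)) := SAF.FinOrb.mono Z.IE_sub Z.fin_PE
    rw [l1, oc_union d2 (finOrb_union f1 Z.fin_strs) Z.fin_strs', oc_union d1 f1 Z.fin_strs]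
  -- the nodes
  have l2 : (Z.PT : Set (NQ V)) = ((Z.IT : Set (NQ V)) ∪ Z.pols) ∪ Z.smid := by
    ext t
    constructor
    · intro ht
      cases t with
      | inn y n => exact Or.inl (Or.inl ht)
      | mid y o X k =>
        obtain ⟨x, z, rfl, h1, h2⟩ := ht
        have e0 : K.E y x := (Z.Co_fl h1).E1
        have e2 : K.E y z := (Z.Co_fl h1).E2
        by_cases a0 : K.ar x y
        · by_cases a2 : K.ar z y
          · exact Or.inl (Or.inl ⟨x, z, rfl, h1, a0, a2⟩)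
          · exact Or.inr ⟨x, y, z, o, k, rfl, h1, a0, e2.resolve_right a2⟩
        · refine Or.inr ⟨z, y, x, o, k, ?_, by rw [Z.sy]; exact h1, h2.resolve_left a0,
            e0.resolve_right a0⟩
          rw [Set.pair_comm]
      | pol y a C =>
        obtain ⟨h1, n, h2, h3, rfl⟩ := ht
        exact Or.inl (Or.inr ⟨y, a, n, rfl, h1, h2, h3⟩)
    · rintro ((ht | ht) | ht)
      · exact Z.IT_sub ht
      · exact Z.pols_sub ht
      · obtain ⟨x, y, z, o, k, rfl, h1, h2, h3⟩ := ht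
        exact ⟨x, z, rfl, h1, Or.inl h2⟩
  have d3 : Dj H (Z.IT : Set (NQ V)) Z.pols := by
    refine Dj.of_inv (fun g a ha => Z.IT.smul_mem g ha) ?_
    rintro t ht ⟨y, a, n, rfl, -⟩
    exact (ht : False)
  have d4 : Dj H ((Z.IT : Set (NQ V)) ∪ Z.pols) Z.smid := by
    refine Dj.union ?_ ?_
    · refine Dj.of_inv (fun g a ha => Z.IT.smul_mem g ha) ?_
      rintro t ht ⟨x, y, z, o, k, rfl, h1, h2, h3⟩
      obtain ⟨x', z', e, h1', h2', h3'⟩ := ht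
      have b : z ∈ ({x', z'} : Set V) := by
        rw [← e]
        exact Or.inr rfl
      rcases b with b | b
      · rw [b] at h3
        exact not_both h3 h2'
      · have b : z = z' := b
        rw [b] at h3
        exact not_both h3 h3'
    · rintro _ ⟨y, a, n, rfl, -⟩ g ⟨x', y', z', o', k', e, -⟩
      have e' : NQ.pol (g • y) (g • a) ((fun x => g • x) '' Z.Pc y n) =
        NQ.mid y' o' {x', z'} k' := e
      cases e'
  have n2 : oc H (Z.PT : Set (NQ V)) =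
      oc H (Z.IT : Set (NQ V)) + oc H Z.pols + oc H Z.smid := by
    have f1 : FinOrb H (Z.IT : Set (NQ V)) := SAF.FinOrb.mono Z.IT_sub Z.fin_PT
    rw [l2, oc_union d4 (finOrb_union f1 Z.fin_pols) Z.fin_smid, oc_union d3 f1 Z.fin_pols]
  rw [Z.eh2_oc, Z.cyc_oc, n1, n2, Z.oc_strs']
  unfold exc
  push_cast
  ring

end ZC

end Pool.Agent.DI
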