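import Pool.Agent.DI.Pc
import Pool.Agent.DI.OcA

/-!
# Links with zero corners of symmetric squares

`Z : ZC K`: real corners `Z.R` (an invariant set of positions of translates of cells) and zero corners:
`Z.mu x y z o` = number of squares with the corner `x y z` and the vertex `o` opposite to `y`. A zero
corner is subdivided by a midpoint `NQ.mid y o {x, z} k`: its two lines are the flags `(x, y, z, o, k)`
and `(z, y, x, o, k)`. An element which turns the corner over exchanges them, so the quotient has one line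
with a leaf. `Z.pc : JM`: the pieces with private poles, corners between two poles are left out;
`Z.eh2` its Betti number. `Z.ip`, `Z.cyc`: without poles.
-/

namespace Pool.Agent.DI

open MulAction
open Pool.Agent.SAF (InC orbs FinOrb oc mk_eq_iff FinOrb_iff)

/-- real corners and zero corners -/
structure ZC {H V : Type} [Group H] [MulAction H V] (K : GX H V) where
  R : SubMulAction H K.LE
  mu : V → V → V → V → ℕ
  sm : ∀ (h : H) (x y z o : V), mu (h • x) (h • y) (h • z) (h • o) = mu x y z o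
  sy : ∀ x y z o, mu x y z o = mu z y x o
  E : ∀ x y z o, mu x y z o ≠ 0 → K.E y x
  fin : FinOrb H {p : V × V × V × V | mu p.1 p.2.1 p.2.2.1 p.2.2.2 ≠ 0}

/-! ### nodes and lines -/

/-- nodes: in-arrows, midpoints of zero corners, private poles -/
inductive NQ (V : Type) : Type
  | inn : V → V → NQ V
  | mid : V → V → Set V → ℕ → NQ V
  | pol : V → V → Set V → NQ V

/-- lines: positions, flags of zero corners -/
inductive LQ (E V : Type) : Type
  | re : E → LQ E V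
  | fl : V → V → V → V → ℕ → LQ E V

section

variable {H V E : Type} [Group H] [MulAction H V] [MulAction H E]

instance : MulAction H (NQ V) where
  smul h t := match t with
    | NQ.inn y n => NQ.inn (h • y) (h • n)
    | NQ.mid y o X k => NQ.mid (h • y) (h • o) ((fun x => h • x) '' X) k
    | NQ.pol y a C => NQ.pol (h • y) (h • a) ((fun x => h • x) '' C)
  one_smul t := by
    cases t with
    | inn y n =>
      show NQ.inn ((1 : H) • y) ((1 : H) • n) = _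
      rw [one_smul, one_smul]
    | mid y o X k =>
      show NQ.mid ((1 : H) • y) ((1 : H) • o) ((fun x => (1 : H) • x) '' X) k = _
      simp
    | pol y a C =>
      show NQ.pol ((1 : H) • y) ((1 : H) • a) ((fun x => (1 : H) • x) '' C) = _
      simp
  mul_smul a b t := by
    cases t with
    | inn y n =>
      show NQ.inn ((a * b) • y) ((a * b) • n) = NQ.inn (a • b • y) (a • b • n)
      rw [mul_smul, mul_smul]
    | mid y o X k =>
      show NQ.mid ((a * b) • y) ((a * b) • o) ((fun x => (a * b) • x) '' X) k =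
        NQ.mid (a • b • y) (a • b • o) ((fun x => a • x) '' ((fun x => b • x) '' X)) k
      rw [Set.image_image, mul_smul, mul_smul]
      simp only [mul_smul]
    | pol y p C =>
      show NQ.pol ((a * b) • y) ((a * b) • p) ((fun x => (a * b) • x) '' C) =
        NQ.pol (a • b • y) (a • b • p) ((fun x => a • x) '' ((fun x => b • x) '' C))
      rw [Set.image_image, mul_smul, mul_smul]
      simp only [mul_smul]

theorem NQ.smul_inn (h : H) (y n : V) : h • NQ.inn y n = NQ.inn (h • y) (h • n) := rfl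

theorem NQ.smul_mid (h : H) (y o : V) (X : Set V) (k : ℕ) :
    h • NQ.mid y o X k = NQ.mid (h • y) (h • o) ((fun x => h • x) '' X) k := rfl

theorem NQ.smul_pol (h : H) (y a : V) (C : Set V) :
    h • NQ.pol y a C = NQ.pol (h • y) (h • a) ((fun x => h • x) '' C) := rfl

instance : MulAction H (LQ E V) where
  smul h t := match t with
    | LQ.re e => LQ.re (h • e)
    | LQ.fl x y z o k => LQ.fl (h • x) (h • y) (h • z) (h • o) k
  one_smul t := by
    cases t with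
    | re e =>
      show LQ.re ((1 : H) • e) = _
      rw [one_smul]
    | fl x y z o k =>
      show LQ.fl ((1 : H) • x) ((1 : H) • y) ((1 : H) • z) ((1 : H) • o) k = _
      rw [one_smul, one_smul, one_smul, one_smul]
  mul_smul a b t := by
    cases t with
    | re e =>
      show LQ.re ((a * b) • e) = LQ.re (a • b • e)
      rw [mul_smul]
    | fl x y z o k =>
      show LQ.fl ((a * b) • x) ((a * b) • y) ((a * b) • z) ((a * b) • o) k =
        LQ.fl (a • b • x) (a • b • y) (a • b • z) (a • b • o) k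
      rw [mul_smul, mul_smul, mul_smul, mul_smul]

theorem LQ.smul_re (h : H) (e : E) : h • (LQ.re e : LQ E V) = LQ.re (h • e) := rfl

theorem LQ.smul_fl (h : H) (x y z o : V) (k : ℕ) :
    h • (LQ.fl x y z o k : LQ E V) = LQ.fl (h • x) (h • y) (h • z) (h • o) k := rfl

end

namespace ZC

variable {H V : Type} [Group H] [MulAction H V] {K : GX H V} (Z : ZC K)

/-! ### corners and pieces -/

/-- a real corner -/
def Rc (a y b : V) : Prop := ∃ e ∈ Z.R,
  (K.c0 e = a ∧ K.c1 e = y ∧ K.c2 e = b) ∨ (K.c0 e = b ∧ K.c1 e = y ∧ K.c2 e = a)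

/-- a zero corner -/
def Zc (a y b : V) : Prop := ∃ o, Z.mu a y b o ≠ 0

/-- a corner -/
def Co (a y b : V) : Prop := Z.Rc a y b ∨ Z.Zc a y b

/-- a corner between two in-arrows -/
def IC (y a b : V) : Prop := Z.Co a y b ∧ K.ar a y ∧ K.ar b y

/-- same piece -/
def IJ (y a b : V) : Prop := Relation.EqvGen (Z.IC y) a b

/-- the piece of `n` -/
def Pc (y n : V) : Set V := {m | Z.IJ y n m}

variable {Z}

theorem Rc.symm {a y b : V} (h : Z.Rc a y b) : Z.Rc b y a := by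
  obtain ⟨e, he, h⟩ := h
  exact ⟨e, he, h.symm⟩

theorem Zc.symm {a y b : V} (h : Z.Zc a y b) : Z.Zc b y a := by
  obtain ⟨o, h⟩ := h
  exact ⟨o, by rwa [Z.sy]⟩

theorem Co.symm {a y b : V} (h : Z.Co a y b) : Z.Co b y a := h.imp Rc.symm Zc.symm

theorem Rc.smul (g : H) {a y b : V} (h : Z.Rc a y b) : Z.Rc (g • a) (g • y) (g • b) := by
  obtain ⟨e, he, h⟩ := h
  refine ⟨g • e, Z.R.smul_mem g he, ?_⟩
  rw [K.c0_smul, K.c1_smul, K.c2_smul]
  rcases h with ⟨rfl, rfl, rfl⟩ | ⟨rfl, rfl, rfl⟩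
  · exact Or.inl ⟨rfl, rfl, rfl⟩
  · exact Or.inr ⟨rfl, rfl, rfl⟩

theorem Zc.smul (g : H) {a y b : V} (h : Z.Zc a y b) : Z.Zc (g • a) (g • y) (g • b) := by
  obtain ⟨o, h⟩ := h
  exact ⟨g • o, by rwa [Z.sm]⟩

theorem Co.smul (g : H) {a y b : V} (h : Z.Co a y b) : Z.Co (g • a) (g • y) (g • b) :=
  h.imp (Rc.smul g) (Zc.smul g)

theorem Rc.E1 {a y b : V} (h : Z.Rc a y b) : K.E y a := by
  obtain ⟨e, -, ⟨rfl, rfl, rfl⟩ | ⟨rfl, rfl, rfl⟩⟩ := h
  · exact K.c_E0 e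
  · exact K.c_E2 e

theorem Co.E1 {a y b : V} (h : Z.Co a y b) : K.E y a := by
  rcases h with h | ⟨o, h⟩
  · exact h.E1
  · exact Z.E _ _ _ _ h

theorem Co.E2 {a y b : V} (h : Z.Co a y b) : K.E y b := h.symm.E1

theorem IC.symm' {y a b : V} (h : Z.IC y a b) : Z.IC y b a := ⟨h.1.symm, h.2.2, h.2.1⟩

theorem IC.smul (g : H) {y a b : V} (h : Z.IC y a b) : Z.IC (g • y) (g • a) (g • b) :=
  ⟨h.1.smul g, K.ar_smul g _ _ h.2.1, K.ar_smul g _ _ h.2.2⟩

theorem IJ.smul (g : H) {y a b : V} (h : Z.IJ y a b) : Z.IJ (g • y) (g • a) (g • b) := by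
  induction h with
  | rel a b h => exact Relation.EqvGen.rel _ _ (h.smul g)
  | refl a => exact Relation.EqvGen.refl _
  | symm a b _ ih => exact ih.symm
  | trans a b c _ _ ih1 ih2 => exact ih1.trans _ _ _ ih2

theorem IJ.symm' {y a b : V} (h : Z.IJ y a b) : Z.IJ y b a := Relation.EqvGen.symm _ _ h

theorem IJ.trans' {y a b c : V} (h : Z.IJ y a b) (h' : Z.IJ y b c) : Z.IJ y a c :=
  Relation.EqvGen.trans _ _ _ h h'

theorem IJ.ar {y a b : V} (h : Z.IJ y a b) : K.ar a y ↔ K.ar b y := by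
  induction h with
  | rel a b h => exact ⟨fun _ => h.2.2, fun _ => h.2.1⟩
  | refl a => exact Iff.rfl
  | symm a b _ ih => exact ih.symm
  | trans a b c _ _ ih1 ih2 => exact ih1.trans ih2

theorem mem_Pc {y n m : V} : m ∈ Z.Pc y n ↔ Z.IJ y n m := Iff.rfl

theorem self_Pc (y n : V) : n ∈ Z.Pc y n := Relation.EqvGen.refl n

theorem Pc_eq {y n m : V} : Z.Pc y n = Z.Pc y m ↔ Z.IJ y n m := by
  constructor
  · intro h
    have := self_Pc (Z := Z) y m
    rw [← h] at this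
    exact this
  · intro h
    ext z
    exact ⟨fun k => h.symm'.trans' k, fun k => h.trans' k⟩

theorem Pc_smul (g : H) (y n : V) : (fun x => g • x) '' Z.Pc y n = Z.Pc (g • y) (g • n) := by
  ext z
  constructor
  · rintro ⟨m, hm, rfl⟩
    exact IJ.smul g hm
  · intro hz
    refine ⟨g⁻¹ • z, ?_, smul_inv_smul g z⟩
    have := IJ.smul g⁻¹ hz
    rw [inv_smul_smul, inv_smul_smul] at this
    exact this

variable (Z)

/-! ### the pieces with private poles -/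

/-- a node -/
def PV : NQ V → Prop
  | NQ.inn y n => K.ar n y
  | NQ.mid y o X k => ∃ x z, X = {x, z} ∧ k < Z.mu x y z o ∧ (K.ar x y ∨ K.ar z y)
  | NQ.pol y a C => K.ar y a ∧ ∃ n, K.ar n y ∧ Z.Co a y n ∧ C = Z.Pc y n

theorem pair_smul (h : H) (x z : V) : (fun x => h • x) '' ({x, z} : Set V) = {h • x, h • z} :=
  Set.image_pair _ _ _

/-- the nodes of the pieces with private poles -/
def PT : SubMulAction H (NQ V) where
  carrier := {t | Z.PV t}
  smul_mem' h t ht := by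
    cases t with
    | inn y n => exact K.ar_smul h _ _ ht
    | mid y o X k =>
      obtain ⟨x, z, rfl, h1, h2⟩ := ht
      refine ⟨h • x, h • z, pair_smul h x z, ?_, h2.imp (K.ar_smul h _ _) (K.ar_smul h _ _)⟩
      rwa [Z.sm]
    | pol y a C =>
      obtain ⟨h1, n, h2, h3, rfl⟩ := ht
      exact ⟨K.ar_smul h _ _ h1, h • n, K.ar_smul h _ _ h2, h3.smul h, Pc_smul h y n⟩

/-- a line -/
def LV : LQ K.LE V → Prop
  | LQ.re e => e ∈ Z.R ∧ (K.ar (K.c0 e) (K.c1 e) ∨ K.ar (K.c2 e) (K.c1 e))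
  | LQ.fl x y z o k => k < Z.mu x y z o ∧ (K.ar x y ∨ K.ar z y)

/-- the lines of the pieces with private poles -/
def PE : SubMulAction H (LQ K.LE V) where
  carrier := {t | Z.LV t}
  smul_mem' h t ht := by
    cases t with
    | re e =>
      refine ⟨Z.R.smul_mem h ht.1, ?_⟩
      rw [K.c0_smul, K.c1_smul, K.c2_smul]
      exact ht.2.imp (K.ar_smul h _ _) (K.ar_smul h _ _)
    | fl x y z o k =>
      refine ⟨?_, ht.2.imp (K.ar_smul h _ _) (K.ar_smul h _ _)⟩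
      rw [Z.sm]
      exact ht.1

open Classical in
/-- the node of the end `a` of the corner `a y b` -/
noncomputable def nd (y a b : V) : NQ V := if K.ar a y then NQ.inn y a else NQ.pol y a (Z.Pc y b)

theorem nd_in {y a b : V} (h : K.ar a y) : Z.nd y a b = NQ.inn y a := if_pos h

theorem nd_pol {y a b : V} (h : K.ar y a) : Z.nd y a b = NQ.pol y a (Z.Pc y b) := by
  unfold nd
  rw [if_neg]
  intro h'
  have h1 := K.ar_rk _ _ h
  have h2 := K.ar_rk _ _ h'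
  omega

theorem nd_smul (g : H) (y a b : V) : Z.nd (g • y) (g • a) (g • b) = g • Z.nd y a b := by
  unfold nd
  by_cases h : K.ar a y
  · rw [if_pos h, if_pos (K.ar_smul g _ _ h)]
    rfl
  · rw [if_neg h, if_neg, NQ.smul_pol, Pc_smul]
    intro h'
    have := K.ar_smul g⁻¹ _ _ h'
    rw [inv_smul_smul, inv_smul_smul] at this
    exact h this

theorem nd_PV {y a b : V} (hc : Z.Co a y b) (h : K.ar a y ∨ K.ar b y) : Z.PV (Z.nd y a b) := by
  by_cases ha : K.ar a y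
  · rw [Z.nd_in ha]
    exact ha
  · have hy : K.ar y a := hc.E1.resolve_right ha
    rw [Z.nd_pol hy]
    exact ⟨hy, b, h.resolve_left ha, hc, rfl⟩

theorem Co_re {e : K.LE} (h : e ∈ Z.R) : Z.Co (K.c0 e) (K.c1 e) (K.c2 e) :=
  Or.inl ⟨e, h, Or.inl ⟨rfl, rfl, rfl⟩⟩

theorem Co_fl {x y z o : V} {k : ℕ} (h : k < Z.mu x y z o) : Z.Co x y z :=
  Or.inr ⟨o, by omega⟩

/-- the ends of a line -/
noncomputable def ls : LQ K.LE V → NQ V
  | LQ.re e => Z.nd (K.c1 e) (K.c0 e) (K.c2 e)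
  | LQ.fl x y z _ _ => Z.nd y x z

noncomputable def lt : LQ K.LE V → NQ V
  | LQ.re e => Z.nd (K.c1 e) (K.c2 e) (K.c0 e)
  | LQ.fl x y z o k => NQ.mid y o {x, z} k

theorem ls_PV (t : ↥Z.PE) : Z.PV (Z.ls t.1) := by
  obtain ⟨t, ht⟩ := t
  cases t with
  | re e => exact Z.nd_PV (Z.Co_re ht.1) ht.2
  | fl x y z o k => exact Z.nd_PV (Z.Co_fl ht.1) ht.2

theorem lt_PV (t : ↥Z.PE) : Z.PV (Z.lt t.1) := by
  obtain ⟨t, ht⟩ := t
  cases t with
  | re e => exact Z.nd_PV (Z.Co_re ht.1).symm ht.2.symm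
  | fl x y z o k => exact ⟨x, z, rfl, ht⟩

theorem ls_smul (h : H) (t : LQ K.LE V) : Z.ls (h • t) = h • Z.ls t := by
  cases t with
  | re e =>
    show Z.nd (K.c1 (h • e)) (K.c0 (h • e)) (K.c2 (h • e)) = _
    rw [K.c0_smul, K.c1_smul, K.c2_smul, Z.nd_smul]
    rfl
  | fl x y z o k => exact Z.nd_smul h y x z

theorem lt_smul (h : H) (t : LQ K.LE V) : Z.lt (h • t) = h • Z.lt t := by
  cases t with
  | re e =>
    show Z.nd (K.c1 (h • e)) (K.c2 (h • e)) (K.c0 (h • e)) = _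
    rw [K.c0_smul, K.c1_smul, K.c2_smul, Z.nd_smul]
    rfl
  | fl x y z o k =>
    show NQ.mid (h • y) (h • o) {h • x, h • z} k = NQ.mid (h • y) (h • o) _ k
    rw [pair_smul]

/-! ### finiteness -/

theorem fin_fl : FinOrb H {t : LQ K.LE V | ∃ x y z o k, t = LQ.fl x y z o k ∧ k < Z.mu x y z o} := by
  obtain ⟨F, hF, hFs, hc⟩ := FinOrb_iff.1 Z.fin
  have hfin : {t : LQ K.LE V | ∃ p ∈ F, ∃ k < Z.mu p.1 p.2.1 p.2.2.1 p.2.2.2,
      t = LQ.fl p.1 p.2.1 p.2.2.1 p.2.2.2 k}.Finite := by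
    have : {t : LQ K.LE V | ∃ p ∈ F, ∃ k < Z.mu p.1 p.2.1 p.2.2.1 p.2.2.2,
        t = LQ.fl p.1 p.2.1 p.2.2.1 p.2.2.2 k} ⊆
        ⋃ p ∈ F, (fun k => (LQ.fl p.1 p.2.1 p.2.2.1 p.2.2.2 k : LQ K.LE V)) ''
          {k | k < Z.mu p.1 p.2.1 p.2.2.1 p.2.2.2} := by
      rintro t ⟨p, hp, k, hk, rfl⟩
      exact Set.mem_biUnion hp ⟨k, hk, rfl⟩
    refine Set.Finite.subset (Set.Finite.biUnion hF fun p _ => ?_) this
    exact (Set.finite_lt_nat _).image _
  refine FinOrb_iff.2 ⟨_, hfin, ?_, ?_⟩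
  · rintro t ⟨p, hp, k, hk, rfl⟩
    exact ⟨_, _, _, _, k, rfl, hk⟩
  · rintro t ⟨x, y, z, o, k, rfl, hk⟩
    obtain ⟨p, hp, h, e⟩ := hc (x, y, z, o) (show Z.mu x y z o ≠ 0 by omega)
    have e1 : h • p.1 = x := congrArg (fun q => q.1) e
    have e2 : h • p.2.1 = y := congrArg (fun q => q.2.1) e
    have e3 : h • p.2.2.1 = z := congrArg (fun q => q.2.2.1) e
    have e4 : h • p.2.2.2 = o := congrArg (fun q => q.2.2.2) e
    refine ⟨LQ.fl p.1 p.2.1 p.2.2.1 p.2.2.2 k, ⟨p, hp, k, ?_, rfl⟩, h, ?_⟩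
    · rw [← e1, ← e2, ← e3, ← e4, Z.sm] at hk
      exact hk
    · rw [LQ.smul_fl, e1, e2, e3, e4]

theorem fin_re : FinOrb H {t : LQ K.LE V | ∃ e, t = LQ.re e} := by
  refine SAF.FinOrb.image K.fin_LE (fun e => (LQ.re e : LQ K.LE V)) ?_ ?_
  · rintro _ ⟨e, rfl⟩
    exact ⟨e, trivial, 1, one_smul _ _⟩
  · rintro a - _ - ⟨h, rfl⟩
    exact ⟨h, rfl⟩

theorem fin_PE : FinOrb H (Z.PE : Set (LQ K.LE V)) := by
  refine SAF.FinOrb.mono ?_ (finOrb_union (fin_re (K := K)) Z.fin_fl)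
  intro t ht
  cases t with
  | re e => exact Or.inl ⟨e, rfl⟩
  | fl x y z o k => exact Or.inr ⟨x, y, z, o, k, rfl, ht.1⟩

theorem fin_PT : FinOrb H (Z.PT : Set (NQ V)) := by
  have h1 : FinOrb H {t : NQ V | ∃ y n, K.ar n y ∧ t = NQ.inn y n} := by
    apply SAF.FinOrb.image K.fin_IN (fun p => NQ.inn p.1 p.2)
    · rintro _ ⟨y, n, h, rfl⟩
      exact ⟨(y, n), h, 1, one_smul _ _⟩
    · rintro a _ _ _ ⟨h, rfl⟩
      exact ⟨h, rfl⟩
  have key : ∀ (f : LQ K.LE V → NQ V), (∀ (h : H) t, f (h • t) = h • f t) →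
      FinOrb H (f '' (Z.PE : Set (LQ K.LE V))) := by
    intro f hf
    refine SAF.FinOrb.image Z.fin_PE f ?_ ?_
    · rintro _ ⟨t, ht, rfl⟩
      exact ⟨t, ht, 1, one_smul _ _⟩
    · rintro a _ _ _ ⟨h, rfl⟩
      exact ⟨h, (hf h a).symm⟩
  refine SAF.FinOrb.mono ?_ (finOrb_union h1 (finOrb_union (key Z.ls Z.ls_smul) (key Z.lt Z.lt_smul)))
  intro t ht
  cases t with
  | inn y n => exact Or.inl ⟨y, n, ht, rfl⟩
  | mid y o X k =>
    obtain ⟨x, z, rfl, h1, h2⟩ := ht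
    exact Or.inr (Or.inr ⟨LQ.fl x y z o k, ⟨h1, h2⟩, rfl⟩)
  | pol y a C =>
    obtain ⟨hy, n, hn, hc, rfl⟩ := ht
    rcases hc with ⟨e, he, ⟨e0, e1, e2⟩ | ⟨e0, e1, e2⟩⟩ | ⟨o, ho⟩
    · refine Or.inr (Or.inl ⟨LQ.re e, ⟨he, Or.inr (by rw [e2, e1]; exact hn)⟩, ?_⟩)
      show Z.nd (K.c1 e) (K.c0 e) (K.c2 e) = _
      rw [e0, e1, e2, Z.nd_pol hy]
    · refine Or.inr (Or.inr ⟨LQ.re e, ⟨he, Or.inl (by rw [e0, e1]; exact hn)⟩, ?_⟩)
      show Z.nd (K.c1 e) (K.c2 e) (K.c0 e) = _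
      rw [e0, e1, e2, Z.nd_pol hy]
    · refine Or.inr (Or.inl ⟨LQ.fl a y n o 0, ⟨Nat.pos_of_ne_zero ho, Or.inr hn⟩, ?_⟩)
      exact Z.nd_pol hy

/-- THE PIECES WITH PRIVATE POLES -/
noncomputable def pc : JM H ↥Z.PT ↥Z.PE where
  s e := ⟨Z.ls e.1, Z.ls_PV e⟩
  t e := ⟨Z.lt e.1, Z.lt_PV e⟩
  hs j e := Subtype.ext (Z.ls_smul j e.1)
  ht j e := Subtype.ext (Z.lt_smul j e.1)
  fT := finite_orb_sub Z.PT Z.fin_PT
  fE := finite_orb_sub Z.PE Z.fin_PE

theorem pc_s (e : ↥Z.PE) : (Z.pc.s e).1 = Z.ls e.1 := rfl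

theorem pc_t (e : ↥Z.PE) : (Z.pc.t e).1 = Z.lt e.1 := rfl

/-- twice the number `E^h` -/
noncomputable def eh2 : ℤ := Z.pc.fg.b1

theorem eh2_nonneg : 0 ≤ Z.eh2 := FG.b1_nonneg _

open Classical in
/-- the vertex and the piece of a node -/
noncomputable def pk : NQ V → V × Set V
  | NQ.inn y n => (y, Z.Pc y n)
  | NQ.mid y _ X _ => (y, if h : ∃ x ∈ X, K.ar x y then Z.Pc y (Classical.choose h) else ∅)
  | NQ.pol y _ C => (y, C)

theorem pk_nd {y a b : V} (hc : Z.Co a y b) (h : K.ar b y) :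
    Z.pk (Z.nd y a b) = (y, Z.Pc y b) := by
  by_cases ha : K.ar a y
  · rw [Z.nd_in ha]
    show (y, Z.Pc y a) = _
    rw [Pc_eq.2 (Relation.EqvGen.rel _ _ ⟨hc, ha, h⟩)]
  · rw [Z.nd_pol (hc.E1.resolve_right ha)]
    rfl

open Classical in
/-- the piece of a midpoint -/
theorem pk_mid {y o x z n : V} {k : ℕ} (hc : Z.Co x y z) (hn : n = x ∨ n = z) (h : K.ar n y) :
    Z.pk (NQ.mid y o {x, z} k) = (y, Z.Pc y n) := by
  have hex : ∃ m ∈ ({x, z} : Set V), K.ar m y := ⟨n, hn, h⟩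
  unfold pk
  simp only
  rw [dif_pos hex]
  obtain ⟨k1, k2⟩ := Classical.choose_spec hex
  set m := Classical.choose hex
  have : Z.IJ y m n := by
    rcases k1 with k1 | k1 <;> rcases hn with hn | hn
    · rw [k1, hn]
      exact Relation.EqvGen.refl _
    · rw [k1, hn]
      rw [k1] at k2
      rw [hn] at h
      exact Relation.EqvGen.rel _ _ ⟨hc, k2, h⟩
    · have k1 : m = z := k1
      rw [k1, hn]
      rw [k1] at k2
      rw [hn] at h
      exact Relation.EqvGen.rel _ _ ⟨hc.symm, k2, h⟩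
    · have k1 : m = z := k1
      rw [k1, hn]
      exact Relation.EqvGen.refl _
  rw [Pc_eq.2 this]

theorem pk_line (e : ↥Z.PE) : Z.pk (Z.pc.s e).1 = Z.pk (Z.pc.t e).1 := by
  rw [pc_s, pc_t]
  obtain ⟨t, ht⟩ := e
  cases t with
  | re e =>
    have hc := Z.Co_re ht.1
    show Z.pk (Z.nd _ _ _) = Z.pk (Z.nd _ _ _)
    rcases ht.2 with h | h
    · rw [Z.nd_in h, Z.pk_nd hc.symm h]
      rfl
    · rw [Z.pk_nd hc h, Z.nd_in h]
      rfl
  | fl x y z o k =>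
    have hc := Z.Co_fl ht.1
    show Z.pk (Z.nd y x z) = Z.pk (NQ.mid y o {x, z} k)
    rcases ht.2 with h | h
    · rw [Z.nd_in h, Z.pk_mid hc (Or.inl rfl) h]
      rfl
    · rw [Z.pk_nd hc h, Z.pk_mid hc (Or.inr rfl) h]

/-- a corner between two in-arrows joins them -/
theorem pc_IC {y a b : V} (hc : Z.Co a y b) (ha : K.ar a y) (hb : K.ar b y) :
    Relation.EqvGen Z.pc.st ⟨NQ.inn y a, ha⟩ ⟨NQ.inn y b, hb⟩ := by
  rcases hc with ⟨e, he, ⟨e0, e1, e2⟩ | ⟨e0, e1, e2⟩⟩ | ⟨o, ho⟩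
  · have he' : LQ.re e ∈ Z.PE := ⟨he, Or.inl (by rw [e0, e1]; exact ha)⟩
    apply Relation.EqvGen.rel
    refine ⟨⟨_, he'⟩, Subtype.ext ?_, Subtype.ext ?_⟩
    · show Z.nd (K.c1 e) (K.c0 e) (K.c2 e) = NQ.inn y a
      rw [e0, e1, e2, Z.nd_in ha]
    · show Z.nd (K.c1 e) (K.c2 e) (K.c0 e) = NQ.inn y b
      rw [e0, e1, e2, Z.nd_in hb]
  · have he' : LQ.re e ∈ Z.PE := ⟨he, Or.inl (by rw [e0, e1]; exact hb)⟩
    apply Relation.EqvGen.symm
    apply Relation.EqvGen.rel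
    refine ⟨⟨_, he'⟩, Subtype.ext ?_, Subtype.ext ?_⟩
    · show Z.nd (K.c1 e) (K.c0 e) (K.c2 e) = NQ.inn y b
      rw [e0, e1, e2, Z.nd_in hb]
    · show Z.nd (K.c1 e) (K.c2 e) (K.c0 e) = NQ.inn y a
      rw [e0, e1, e2, Z.nd_in ha]
  · have h1 : LQ.fl a y b o 0 ∈ Z.PE := ⟨Nat.pos_of_ne_zero ho, Or.inl ha⟩
    have h2 : LQ.fl b y a o 0 ∈ Z.PE := ⟨by rw [Z.sy]; exact Nat.pos_of_ne_zero ho, Or.inl hb⟩
    have hm : NQ.mid y o {a, b} 0 ∈ Z.PT := ⟨a, b, rfl, h1⟩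
    have k1 : Relation.EqvGen Z.pc.st ⟨NQ.inn y a, ha⟩ ⟨NQ.mid y o {a, b} 0, hm⟩ := by
      apply Relation.EqvGen.rel
      refine ⟨⟨_, h1⟩, Subtype.ext ?_, Subtype.ext rfl⟩
      exact Z.nd_in ha
    have k2 : Relation.EqvGen Z.pc.st ⟨NQ.inn y b, hb⟩ ⟨NQ.mid y o {a, b} 0, hm⟩ := by
      apply Relation.EqvGen.rel
      refine ⟨⟨_, h2⟩, Subtype.ext ?_, Subtype.ext ?_⟩
      · exact Z.nd_in hb
      · show NQ.mid y o {b, a} 0 = NQ.mid y o {a, b} 0
        rw [Set.pair_comm]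
    exact k1.trans _ _ _ k2.symm

/-- a node is connected with the in-nodes of its piece -/
theorem pc_inn {y a b : V} (h : Z.IJ y a b) (ha : K.ar a y) (hb : K.ar b y) :
    Relation.EqvGen Z.pc.st ⟨NQ.inn y a, ha⟩ ⟨NQ.inn y b, hb⟩ := by
  induction h with
  | rel a b h => exact Z.pc_IC h.1 ha hb
  | refl a => exact Relation.EqvGen.refl _
  | symm a b _ ih => exact (ih hb ha).symm
  | trans a b c k1 k2 ih1 ih2 =>
    have hb' : K.ar b y := (IJ.ar k1).1 ha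
    exact (ih1 ha hb').trans _ _ _ (ih2 hb' hb)

/-- every node has an in-node in its piece -/
theorem exists_inn (t : ↥Z.PT) : ∃ y n, ∃ h : K.ar n y,
    Relation.EqvGen Z.pc.st t ⟨NQ.inn y n, h⟩ ∧ Z.pk t.1 = (y, Z.Pc y n) := by
  obtain ⟨t, ht⟩ := t
  cases t with
  | inn y n => exact ⟨y, n, ht, Relation.EqvGen.refl _, rfl⟩
  | mid y o X k =>
    obtain ⟨x, z, rfl, hk, hx⟩ := id ht
    have hc := Z.Co_fl hk
    rcases hx with h | h
    · refine ⟨y, x, h, ?_, Z.pk_mid hc (Or.inl rfl) h⟩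
      apply Relation.EqvGen.symm
      apply Relation.EqvGen.rel
      exact ⟨⟨LQ.fl x y z o k, hk, Or.inl h⟩, Subtype.ext (Z.nd_in h), Subtype.ext rfl⟩
    · refine ⟨y, z, h, ?_, Z.pk_mid hc (Or.inr rfl) h⟩
      apply Relation.EqvGen.symm
      apply Relation.EqvGen.rel
      refine ⟨⟨LQ.fl z y x o k, by rw [Z.sy]; exact hk, Or.inl h⟩, Subtype.ext (Z.nd_in h),
        Subtype.ext ?_⟩
      show NQ.mid y o {z, x} k = NQ.mid y o {x, z} k
      rw [Set.pair_comm]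
  | pol y a C =>
    obtain ⟨hy, m, hm, hc, rfl⟩ := id ht
    refine ⟨y, m, hm, ?_, rfl⟩
    rcases hc with ⟨e, he, ⟨e0, e1, e2⟩ | ⟨e0, e1, e2⟩⟩ | ⟨o, ho⟩
    · have he' : LQ.re e ∈ Z.PE := ⟨he, Or.inr (by rw [e2, e1]; exact hm)⟩
      apply Relation.EqvGen.rel
      refine ⟨⟨_, he'⟩, Subtype.ext ?_, Subtype.ext ?_⟩
      · show Z.nd (K.c1 e) (K.c0 e) (K.c2 e) = NQ.pol y a (Z.Pc y m)
        rw [e0, e1, e2, Z.nd_pol hy]
      · show Z.nd (K.c1 e) (K.c2 e) (K.c0 e) = NQ.inn y m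
        rw [e0, e1, e2, Z.nd_in hm]
    · have he' : LQ.re e ∈ Z.PE := ⟨he, Or.inl (by rw [e0, e1]; exact hm)⟩
      apply Relation.EqvGen.symm
      apply Relation.EqvGen.rel
      refine ⟨⟨_, he'⟩, Subtype.ext ?_, Subtype.ext ?_⟩
      · show Z.nd (K.c1 e) (K.c0 e) (K.c2 e) = NQ.inn y m
        rw [e0, e1, e2, Z.nd_in hm]
      · show Z.nd (K.c1 e) (K.c2 e) (K.c0 e) = NQ.pol y a (Z.Pc y m)
        rw [e0, e1, e2, Z.nd_pol hy]
    · have h1 : LQ.fl a y m o 0 ∈ Z.PE := ⟨Nat.pos_of_ne_zero ho, Or.inr hm⟩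
      have h2 : LQ.fl m y a o 0 ∈ Z.PE := ⟨by rw [Z.sy]; exact Nat.pos_of_ne_zero ho, Or.inl hm⟩
      have hd : NQ.mid y o {a, m} 0 ∈ Z.PT := ⟨a, m, rfl, h1⟩
      have k1 : Relation.EqvGen Z.pc.st ⟨NQ.pol y a (Z.Pc y m), ht⟩
          ⟨NQ.mid y o {a, m} 0, hd⟩ := by
        apply Relation.EqvGen.rel
        exact ⟨⟨_, h1⟩, Subtype.ext (Z.nd_pol hy), Subtype.ext rfl⟩
      have k2 : Relation.EqvGen Z.pc.st ⟨NQ.inn y m, hm⟩ ⟨NQ.mid y o {a, m} 0, hd⟩ := by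
        apply Relation.EqvGen.rel
        refine ⟨⟨_, h2⟩, Subtype.ext (Z.nd_in hm), Subtype.ext ?_⟩
        show NQ.mid y o {m, a} 0 = NQ.mid y o {a, m} 0
        rw [Set.pair_comm]
      exact k1.trans _ _ _ k2.symm

/-- THE COMPONENTS ARE THE PIECES -/
theorem pc_eqv {x y : ↥Z.PT} : Relation.EqvGen Z.pc.st x y ↔ Z.pk x.1 = Z.pk y.1 := by
  constructor
  · intro h
    induction h with
    | rel x y h =>
      obtain ⟨e, rfl, rfl⟩ := h
      exact Z.pk_line e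
    | refl x => rfl
    | symm x y _ ih => exact ih.symm
    | trans x y z _ _ h1 h2 => exact h1.trans h2
  · intro h
    obtain ⟨y1, n1, h1, k1, l1⟩ := Z.exists_inn x
    obtain ⟨y2, n2, h2, k2, l2⟩ := Z.exists_inn y
    rw [l1, l2] at h
    have e1 : y1 = y2 := congrArg Prod.fst h
    subst e1
    have e2 : Z.Pc y1 n1 = Z.Pc y1 n2 := congrArg Prod.snd h
    exact (k1.trans _ _ _ (Z.pc_inn (Pc_eq.1 e2) h1 h2)).trans _ _ _ k2.symm

/-- the group of a piece -/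
theorem mem_pc_grp {y n : V} (h : K.ar n y) {j : H} :
    j ∈ Z.pc.grp ⟨NQ.inn y n, h⟩ ↔ j • y = y ∧ Z.IJ y n (j • n) := by
  rw [JM.mem_grp, pc_eqv]
  show (y, Z.Pc y n) = (j • y, Z.Pc (j • y) (j • n)) ↔ _
  constructor
  · intro e
    have e1 : y = j • y := congrArg Prod.fst e
    have e2 : Z.Pc y n = Z.Pc (j • y) (j • n) := congrArg Prod.snd e
    rw [← e1] at e2
    exact ⟨e1.symm, Pc_eq.1 e2⟩
  · rintro ⟨e1, e2⟩
    rw [e1, Pc_eq.2 e2]

end ZC

end Pool.Agent.DI
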