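import Pool.Agent.DI.BX

/-!
# Twisted circuits

For a graph `M : JM J T Ed` with a group and a set `W` of orbits of edges: `M.cw W x y` (joined by
edges with orbits in `W`), `M.cwJ W x y` (joined modulo `J`). A TWISTED CIRCUIT is a set `Z` of
orbits of edges such that for some edge `e` with orbit in `Z` the set `Z - [e]` is minimal among the
sets which join the ends of `e` modulo `J`, and it does not join the ends of `e` in `T`.
`M.m0` is the number of twisted circuits.

`M.mt P` counts the twisted circuits whose holonomy satisfies `P` (for `Z`-sinks: finite).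

* `mt_con`, `m0_con`: `(M.sub A).m0 + (M.con A).m0 ≤ M.m0`;
* `mt_strict`, `mt_strict_swap`: `(M.sub A).mt (fun e => P e.1) < M.mt P` if the contracted graph has `b ≠ 0` and
  `s + b = 2` (dihedral type) resp. `s + b = 1` (swaps);
* `TwAt.not_fixed`: no twisted circuit passes a node which is fixed by `J`;
* `mt_le_pow`: the number is bounded.
-/

namespace Pool.Agent.DI

open MulAction

namespace JM

variable {J T Ed : Type} [Group J] [MulAction J T] [MulAction J Ed] (M : JM J T Ed)

/-- a step along an edge with orbit in `W` -/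
def stw (W : Set (orbitRel.Quotient J Ed)) (x y : T) : Prop :=
  ∃ e, oq J e ∈ W ∧ M.s e = x ∧ M.t e = y

/-- joined by edges with orbits in `W` -/
def cw (W : Set (orbitRel.Quotient J Ed)) (x y : T) : Prop := Relation.EqvGen (M.stw W) x y

/-- joined modulo `J` -/
def cwJ (W : Set (orbitRel.Quotient J Ed)) (x y : T) : Prop := ∃ j : J, M.cw W x (j • y)

variable {M}

theorem cw.refl (W : Set (orbitRel.Quotient J Ed)) (x : T) : M.cw W x x :=
  Relation.EqvGen.refl _

theorem cw.symm {W : Set (orbitRel.Quotient J Ed)} {x y : T} (h : M.cw W x y) : M.cw W y x :=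
  Relation.EqvGen.symm _ _ h

theorem cw.trans {W : Set (orbitRel.Quotient J Ed)} {x y z : T} (h : M.cw W x y)
    (h' : M.cw W y z) : M.cw W x z := Relation.EqvGen.trans _ _ _ h h'

theorem cw.edge {W : Set (orbitRel.Quotient J Ed)} {e : Ed} (h : oq J e ∈ W) :
    M.cw W (M.s e) (M.t e) := Relation.EqvGen.rel _ _ ⟨e, h, rfl, rfl⟩

theorem cw.mono {W W' : Set (orbitRel.Quotient J Ed)} (hW : W ⊆ W') {x y : T}
    (h : M.cw W x y) : M.cw W' x y := by
  unfold cw at h ⊢
  induction h with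
  | rel x y h =>
    obtain ⟨e, he, h1, h2⟩ := h
    exact Relation.EqvGen.rel _ _ ⟨e, hW he, h1, h2⟩
  | refl x => exact Relation.EqvGen.refl _
  | symm x y _ ih => exact Relation.EqvGen.symm _ _ ih
  | trans x y z _ _ h1 h2 => exact Relation.EqvGen.trans _ _ _ h1 h2

theorem cw.smul {W : Set (orbitRel.Quotient J Ed)} (j : J) {x y : T}
    (h : M.cw W x y) : M.cw W (j • x) (j • y) := by
  unfold cw at h ⊢
  induction h with
  | rel x y h =>
    obtain ⟨e, he, rfl, rfl⟩ := h
    exact Relation.EqvGen.rel _ _ ⟨j • e, by rw [oq_smul]; exact he, M.hs j e, M.ht j e⟩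
  | refl x => exact Relation.EqvGen.refl _
  | symm x y _ ih => exact Relation.EqvGen.symm _ _ ih
  | trans x y z _ _ h1 h2 => exact Relation.EqvGen.trans _ _ _ h1 h2

theorem cw.toJ {W : Set (orbitRel.Quotient J Ed)} {x y : T} (h : M.cw W x y) : M.cwJ W x y :=
  ⟨1, by rw [one_smul]; exact h⟩

theorem cwJ.refl (W : Set (orbitRel.Quotient J Ed)) (x : T) : M.cwJ W x x := (cw.refl W x).toJ

theorem cwJ.symm {W : Set (orbitRel.Quotient J Ed)} {x y : T} (h : M.cwJ W x y) :
    M.cwJ W y x := by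
  obtain ⟨j, h⟩ := h
  refine ⟨j⁻¹, ?_⟩
  have := (h.smul j⁻¹).symm
  rwa [inv_smul_smul] at this

theorem cwJ.trans {W : Set (orbitRel.Quotient J Ed)} {x y z : T} (h : M.cwJ W x y)
    (h' : M.cwJ W y z) : M.cwJ W x z := by
  obtain ⟨j, h⟩ := h
  obtain ⟨k, h'⟩ := h'
  refine ⟨j * k, h.trans ?_⟩
  rw [mul_smul]
  exact h'.smul j

theorem cwJ.mono {W W' : Set (orbitRel.Quotient J Ed)} (hW : W ⊆ W') {x y : T}
    (h : M.cwJ W x y) : M.cwJ W' x y := by
  obtain ⟨j, h⟩ := h
  exact ⟨j, h.mono hW⟩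

theorem cwJ_smul {W : Set (orbitRel.Quotient J Ed)} (j : J) (x : T) : M.cwJ W x (j • x) :=
  ⟨j⁻¹, by rw [inv_smul_smul]; exact cw.refl W x⟩

theorem cwJ_of_oq {W : Set (orbitRel.Quotient J Ed)} {x y : T} (h : oq J x = oq J y) :
    M.cwJ W x y := by
  obtain ⟨j, rfl⟩ := oq_eq.1 h
  exact cwJ_smul j x

variable (M)

/-- the stabiliser of the component of `x` for the edges with orbits in `W` -/
def hol (W : Set (orbitRel.Quotient J Ed)) (x : T) : Subgroup J where
  carrier := {j | M.cw W x (j • x)}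
  one_mem' := by
    show M.cw W x ((1 : J) • x)
    rw [one_smul]
    exact cw.refl _ _
  mul_mem' {a b} ha hb := by
    show M.cw W x ((a * b) • x)
    rw [mul_smul]
    exact cw.trans ha (cw.smul a hb)
  inv_mem' {a} ha := by
    show M.cw W x (a⁻¹ • x)
    have := cw.smul a⁻¹ ha
    rw [inv_smul_smul] at this
    exact this.symm

variable {M} in
theorem mem_hol {W : Set (orbitRel.Quotient J Ed)} {x : T} {j : J} :
    j ∈ M.hol W x ↔ M.cw W x (j • x) := Iff.rfl

theorem hol_mono {W W' : Set (orbitRel.Quotient J Ed)} (h : W ⊆ W') (x : T) :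
    M.hol W x ≤ M.hol W' x := fun _ hj => cw.mono h hj

/-- `Z` is a twisted circuit, seen from the edge `e`; its holonomy satisfies `P` -/
structure TwAt (P : Ed → Subgroup J → Prop) (Z : Set (orbitRel.Quotient J Ed)) (e : Ed) :
    Prop where
  mem : oq J e ∈ Z
  cj : M.cwJ (Z \ {oq J e}) (M.s e) (M.t e)
  min : ∀ W, W ⊆ Z \ {oq J e} → M.cwJ W (M.s e) (M.t e) → W = Z \ {oq J e}
  nc : ¬ M.cw (Z \ {oq J e}) (M.s e) (M.t e)
  hl : P e (M.hol Z (M.s e))

/-- a twisted circuit with holonomy in `P` -/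
def Tw (P : Ed → Subgroup J → Prop) (Z : Set (orbitRel.Quotient J Ed)) : Prop :=
  ∃ e, M.TwAt P Z e

/-- the number of twisted circuits with holonomy in `P` -/
noncomputable def mt (P : Ed → Subgroup J → Prop) : ℕ :=
  Nat.card {Z : Set (orbitRel.Quotient J Ed) // M.Tw P Z}

/-- the number of twisted circuits -/
noncomputable def m0 : ℕ := M.mt (fun _ _ => True)

/-- `P` is inherited by subgroups and invariant -/
structure Adm (P : Ed → Subgroup J → Prop) : Prop where
  her : ∀ e G G', G ≤ G' → P e G' → P e G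
  inv : ∀ (j : J) e G, P e G → P (j • e) (G.map (MulAut.conj j).toMonoidHom)

include M in
theorem fin_tw (P : Set (orbitRel.Quotient J Ed) → Prop) :
    Finite {Z : Set (orbitRel.Quotient J Ed) // P Z} := by
  have := M.fE
  infer_instance

/-- `mt` is bounded by the number of sets of orbits of edges -/
theorem mt_le_pow (P : Ed → Subgroup J → Prop) : M.mt P ≤ 2 ^ M.fg.nL := by
  have := M.fE
  have h1 : M.mt P ≤ Nat.card (Set (orbitRel.Quotient J Ed)) :=
    Nat.card_le_card_of_injective Subtype.val Subtype.val_injective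
  have h2 : Nat.card (Set (orbitRel.Quotient J Ed)) = 2 ^ M.fg.nL := by
    have := Fintype.ofFinite (orbitRel.Quotient J Ed)
    classical
    rw [Nat.card_eq_fintype_card, Fintype.card_set]
    congr 1
    exact Nat.card_eq_fintype_card.symm
  rwa [h2] at h1

/-- a minimal connecting set gives a twisted circuit -/
theorem exists_tw {P : Ed → Subgroup J → Prop} (hP : Adm P) {V : Set (orbitRel.Quotient J Ed)}
    {e : Ed} (hV : oq J e ∉ V)
    (h : M.cwJ V (M.s e) (M.t e)) (hn : ¬ M.cw V (M.s e) (M.t e))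
    (hl : P e (M.hol (V ∪ {oq J e}) (M.s e))) :
    ∃ W ⊆ V, M.TwAt P (W ∪ {oq J e}) e := by
  have := M.fE
  obtain ⟨W, hW⟩ := (Set.toFinite {W : Set (orbitRel.Quotient J Ed) | W ⊆ V ∧
    M.cwJ W (M.s e) (M.t e)}).exists_minimal ⟨V, Set.Subset.rfl, h⟩
  have hWV := hW.prop.1
  have heW : oq J e ∉ W := fun k => hV (hWV k)
  have hd : (W ∪ {oq J e}) \ {oq J e} = W := by
    ext q
    simp only [Set.mem_sdiff, Set.mem_union, Set.mem_singleton_iff]
    constructor
    · rintro ⟨h1 | h1, h2⟩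
      · exact h1
      · exact absurd h1 h2
    · intro h1
      exact ⟨Or.inl h1, fun h2 => heW (h2 ▸ h1)⟩
  refine ⟨W, hWV, ⟨Or.inr rfl, ?_, ?_, ?_,
    hP.her _ _ _ (M.hol_mono (Set.union_subset_union_left _ hWV) _) hl⟩⟩
  · rw [hd]
    exact hW.prop.2
  · rw [hd]
    intro W' hW' h'
    exact Set.Subset.antisymm hW' (hW.le_of_le ⟨hW'.trans hWV, h'⟩ hW')
  · rw [hd]
    exact fun k => hn (k.mono hWV)

/-! ### restriction -/

/-- orbits of the smaller set of edges -/
noncomputable def io (A : SubMulAction J Ed) : orbitRel.Quotient J ↥A → orbitRel.Quotient J Ed :=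
  fun q => (imEquiv A q).1

omit M in
@[simp] theorem io_oq (A : SubMulAction J Ed) (e : ↥A) : io A (oq J e) = oq J e.1 := rfl

omit M in
theorem io_inj (A : SubMulAction J Ed) : Function.Injective (io A) := fun _ _ h =>
  (imEquiv A).injective (Subtype.ext h)

omit M in
theorem io_mem (A : SubMulAction J Ed) (q : orbitRel.Quotient J ↥A) : io A q ∈ im A :=
  (imEquiv A q).2

theorem sub_cw (A : SubMulAction J Ed) {W : Set (orbitRel.Quotient J ↥A)} {x y : T} :
    (M.sub A).cw W x y ↔ M.cw (io A '' W) x y := by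
  constructor
  · intro h
    unfold cw at h ⊢
    induction h with
    | rel x y h =>
      obtain ⟨e, he, h1, h2⟩ := h
      exact Relation.EqvGen.rel _ _ ⟨e.1, ⟨_, he, rfl⟩, h1, h2⟩
    | refl x => exact Relation.EqvGen.refl _
    | symm x y _ ih => exact Relation.EqvGen.symm _ _ ih
    | trans x y z _ _ h1 h2 => exact Relation.EqvGen.trans _ _ _ h1 h2
  · intro h
    unfold cw at h ⊢
    induction h with
    | rel x y h =>
      obtain ⟨e, ⟨q, hq, hqe⟩, h1, h2⟩ := h
      have hA : e ∈ A := by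
        have := io_mem A q
        rw [hqe] at this
        exact mem_im.1 this
      have hqe' : oq J (⟨e, hA⟩ : ↥A) = q := io_inj A (by rw [hqe]; rfl)
      exact Relation.EqvGen.rel _ _ ⟨⟨e, hA⟩, by rw [hqe']; exact hq, h1, h2⟩
    | refl x => exact Relation.EqvGen.refl _
    | symm x y _ ih => exact Relation.EqvGen.symm _ _ ih
    | trans x y z _ _ h1 h2 => exact Relation.EqvGen.trans _ _ _ h1 h2

theorem sub_cwJ (A : SubMulAction J Ed) {W : Set (orbitRel.Quotient J ↥A)} {x y : T} :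
    (M.sub A).cwJ W x y ↔ M.cwJ (io A '' W) x y := by
  constructor
  · rintro ⟨j, h⟩
    exact ⟨j, (M.sub_cw A).1 h⟩
  · rintro ⟨j, h⟩
    exact ⟨j, (M.sub_cw A).2 h⟩

omit M in
theorem image_diff_io (A : SubMulAction J Ed) (Z : Set (orbitRel.Quotient J ↥A)) (e : ↥A) :
    io A '' (Z \ {oq J e}) = io A '' Z \ {oq J e.1} := by
  rw [Set.image_sdiff (io_inj A), Set.image_singleton, io_oq]

theorem sub_hol (A : SubMulAction J Ed) (W : Set (orbitRel.Quotient J ↥A)) (x : T) :
    (M.sub A).hol W x = M.hol (io A '' W) x := by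
  ext j
  exact M.sub_cw A

variable {M} {P : Ed → Subgroup J → Prop}

theorem TwAt.of_sub {A : SubMulAction J Ed} {Z : Set (orbitRel.Quotient J ↥A)} {e : ↥A}
    (h : (M.sub A).TwAt (fun e => P e.1) Z e) : M.TwAt P (io A '' Z) e.1 where
  hl := by
    have := h.hl
    rw [M.sub_hol A] at this
    exact this
  mem := ⟨_, h.mem, rfl⟩
  cj := by
    rw [← image_diff_io]
    exact (M.sub_cwJ A).1 h.cj
  min W hW hc := by
    rw [← image_diff_io] at hW ⊢
    obtain ⟨W', hW', rfl⟩ := Set.subset_image_iff.1 hW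
    rw [h.min W' hW' ((M.sub_cwJ A).2 hc)]
  nc := by
    rw [← image_diff_io]
    exact fun k => h.nc ((M.sub_cw A).2 k)

theorem TwAt.to_sub {A : SubMulAction J Ed} {Z : Set (orbitRel.Quotient J ↥A)} {e : ↥A}
    (h : M.TwAt P (io A '' Z) e.1) : (M.sub A).TwAt (fun e => P e.1) Z e where
  hl := by
    rw [M.sub_hol A]
    exact h.hl
  mem := by
    obtain ⟨q, hq, hqe⟩ := h.mem
    rwa [io_inj A (hqe.trans (io_oq A e).symm)] at hq
  cj := by
    have := h.cj
    rw [← image_diff_io] at this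
    exact (M.sub_cwJ A).2 this
  min W hW hc := by
    have := h.min (io A '' W) (by rw [← image_diff_io]; exact Set.image_mono hW)
      ((M.sub_cwJ A).1 hc)
    rw [← image_diff_io] at this
    exact Set.image_injective.2 (io_inj A) this
  nc := by
    have := h.nc
    rw [← image_diff_io] at this
    exact fun k => this ((M.sub_cw A).1 k)

/-! ### contraction -/

variable (M)

theorem con_cw (A : SubMulAction J Ed) {W : Set (orbitRel.Quotient J Ed)} {x y : T} :
    (M.con A).cw (io (cpl A) ⁻¹' W) (M.ct A x) (M.ct A y) ↔ M.cw (W ∪ im A) x y := by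
  have hA : ∀ {x y : T}, M.ct A x = M.ct A y → M.cw (W ∪ im A) x y := by
    intro x y h
    have h' := M.ct_eq.1 h
    clear h
    induction h' with
    | rel x y h =>
      obtain ⟨e, rfl, rfl⟩ := h
      exact cw.edge (M := M) (e := e.1) (Or.inr (mem_im.2 e.2))
    | refl x => exact cw.refl _ _
    | symm x y _ ih => exact ih.symm
    | trans x y z _ _ h1 h2 => exact h1.trans h2
  constructor
  · intro h
    have key : ∀ p q : M.CT A, Relation.EqvGen ((M.con A).stw (io (cpl A) ⁻¹' W)) p q →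
        ∀ x y : T, M.ct A x = p → M.ct A y = q → M.cw (W ∪ im A) x y := by
      intro p q hpq
      induction hpq with
      | rel p q h =>
        intro x y hx hy
        obtain ⟨e, he, h1, h2⟩ := h
        have h1' : M.ct A (M.s e.1) = p := h1
        have h2' : M.ct A (M.t e.1) = q := h2
        have he' : oq J e.1 ∈ W := he
        exact ((hA (hx.trans h1'.symm)).trans (cw.edge (M := M) (e := e.1) (Or.inl he'))).trans
          (hA (h2'.trans hy.symm))
      | refl p => intro x y hx hy; exact hA (hx.trans hy.symm)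
      | symm p q _ ih => intro x y hx hy; exact (ih y x hy hx).symm
      | trans p q r _ _ h1 h2 =>
        intro x y hx hy
        obtain ⟨z, hz⟩ := M.ct_surj q
        exact (h1 x z hx hz).trans (h2 z y hz hy)
    exact key _ _ h x y rfl rfl
  · intro h
    unfold cw at h ⊢
    induction h with
    | rel x y h =>
      obtain ⟨e, he, rfl, rfl⟩ := h
      by_cases hA : e ∈ A
      · rw [M.ct_eq.2 (Relation.EqvGen.rel _ _ ⟨⟨e, hA⟩, rfl, rfl⟩ :
          Relation.EqvGen (M.sub A).st (M.s e) (M.t e))]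
        exact Relation.EqvGen.refl _
      · have he' : oq J e ∈ W := by
          rcases he with he | he
          · exact he
          · exact absurd (mem_im.1 he) hA
        exact Relation.EqvGen.rel _ _ ⟨⟨e, hA⟩, he', rfl, rfl⟩
    | refl x => exact Relation.EqvGen.refl _
    | symm x y _ ih => exact Relation.EqvGen.symm _ _ ih
    | trans x y z _ _ h1 h2 => exact Relation.EqvGen.trans _ _ _ h1 h2

theorem con_cwJ (A : SubMulAction J Ed) {W : Set (orbitRel.Quotient J Ed)} {x y : T} :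
    (M.con A).cwJ (io (cpl A) ⁻¹' W) (M.ct A x) (M.ct A y) ↔ M.cwJ (W ∪ im A) x y := by
  constructor
  · rintro ⟨j, h⟩
    exact ⟨j, (M.con_cw A).1 h⟩
  · rintro ⟨j, h⟩
    exact ⟨j, (M.con_cw A).2 h⟩

omit M in
theorem io_cpl_nmem (A : SubMulAction J Ed) (q : orbitRel.Quotient J ↥(cpl A)) :
    io (cpl A) q ∉ im A := by
  obtain ⟨e, rfl⟩ := oq_surj q
  intro h
  exact e.2 (mem_im.1 h)

omit M in
theorem exists_io_cpl {A : SubMulAction J Ed} {q : orbitRel.Quotient J Ed} (h : q ∉ im A) :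
    ∃ q', io (cpl A) q' = q := by
  obtain ⟨e, rfl⟩ := oq_surj q
  exact ⟨oq J (⟨e, fun k => h (mem_im.2 k)⟩ : ↥(cpl A)), rfl⟩

theorem con_hol (A : SubMulAction J Ed) (W : Set (orbitRel.Quotient J Ed)) (x : T) :
    (M.con A).hol (io (cpl A) ⁻¹' W) (M.ct A x) = M.hol (W ∪ im A) x := by
  ext j
  rw [mem_hol, mem_hol, ← M.ct_smul]
  exact M.con_cw A

/-- a twisted circuit of the contracted graph extends -/
theorem tw_con (hP : Adm P) {A : SubMulAction J Ed} {Z : Set (orbitRel.Quotient J ↥(cpl A))}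
    (h : (M.con A).Tw (fun e => P e.1) Z) : ∃ Z', M.Tw P Z' ∧ io (cpl A) ⁻¹' Z' = Z := by
  obtain ⟨e, he⟩ := h
  have hpre : ∀ X : Set (orbitRel.Quotient J ↥(cpl A)),
      io (cpl A) ⁻¹' (io (cpl A) '' X) = X := fun X => Set.preimage_image_eq X (io_inj _)
  obtain ⟨V, hV⟩ : ∃ V, V = io (cpl A) '' (Z \ {oq J e}) := ⟨_, rfl⟩
  have hVe : oq J e.1 ∉ V ∪ im A := by
    rintro (k | k)
    · rw [hV] at k
      obtain ⟨q, hq, hqe⟩ := k
      rw [io_inj _ (hqe.trans (io_oq (cpl A) e).symm)] at hq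
      exact hq.2 rfl
    · exact e.2 (mem_im.1 k)
  have h1 : M.cwJ (V ∪ im A) (M.s e.1) (M.t e.1) := by
    apply (M.con_cwJ A).1
    rw [hV, hpre]
    exact he.cj
  have h2 : ¬ M.cw (V ∪ im A) (M.s e.1) (M.t e.1) := by
    intro k
    apply he.nc
    have := (M.con_cw A).2 k
    rw [hV, hpre] at this
    exact this
  have h6 : P e.1 (M.hol ((V ∪ im A) ∪ {oq J e.1}) (M.s e.1)) := by
    have h7 := he.hl
    refine hP.her _ _ _ ?_ h7
    have h8 : (M.con A).hol Z ((M.con A).s e) = M.hol (io (cpl A) '' Z ∪ im A) (M.s e.1) := by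
      rw [← M.con_hol A, hpre]
      rfl
    rw [h8]
    apply M.hol_mono
    rintro q ((k | k) | k)
    · left
      rw [hV] at k
      obtain ⟨q', hq', rfl⟩ := k
      exact ⟨q', hq'.1, rfl⟩
    · exact Or.inr k
    · left
      have : q = oq J e.1 := k
      rw [this]
      exact ⟨_, he.mem, rfl⟩
  obtain ⟨W, hW, ht⟩ := M.exists_tw hP hVe h1 h2 h6
  refine ⟨_, ⟨e.1, ht⟩, ?_⟩
  have heW : oq J e.1 ∉ W := fun k => hVe (hW k)
  -- the part of `W` outside of `A` connects in the contracted graph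
  have h3 : io (cpl A) ⁻¹' W = Z \ {oq J e} := by
    apply he.min
    · intro q hq
      rcases hW hq with k | k
      · rw [hV] at k
        obtain ⟨q', hq', hqq⟩ := k
        rwa [io_inj _ hqq] at hq'
      · exact absurd k (io_cpl_nmem A q)
    · have h4 : M.cwJ W (M.s e.1) (M.t e.1) := by
        have h5 := ht.cj
        refine h5.mono ?_
        rintro q ⟨k | k, k'⟩
        · exact k
        · exact absurd k k'
      exact (M.con_cwJ A).2 (h4.mono Set.subset_union_left)
  ext q
  constructor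
  · rintro (k | k)
    · have : q ∈ io (cpl A) ⁻¹' W := k
      rw [h3] at this
      exact this.1
    · have : q = oq J e := io_inj _ k
      rw [this]
      exact he.mem
  · intro hq
    by_cases hqe : q = oq J e
    · right
      rw [hqe]
      rfl
    · left
      have : q ∈ io (cpl A) ⁻¹' W := by
        rw [h3]
        exact ⟨hq, hqe⟩
      exact this

/-- CONTRACTION -/
theorem mt_con (hP : Adm P) (A : SubMulAction J Ed) :
    (M.sub A).mt (fun e => P e.1) + (M.con A).mt (fun e => P e.1) ≤ M.mt P := by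
  classical
  have i1 := (M.sub A).fin_tw ((M.sub A).Tw (fun e => P e.1))
  have i2 := (M.con A).fin_tw ((M.con A).Tw (fun e => P e.1))
  have i3 := M.fin_tw (M.Tw P)
  choose F hF1 hF2 using fun Z : {Z // (M.con A).Tw (fun e => P e.1) Z} => M.tw_con hP Z.2
  have hsum : (M.sub A).mt (fun e => P e.1) + (M.con A).mt (fun e => P e.1) =
      Nat.card ({Z // (M.sub A).Tw (fun e => P e.1) Z} ⊕ {Z // (M.con A).Tw (fun e => P e.1) Z}) := Nat.card_sum.symm
  rw [hsum]
  refine Nat.card_le_card_of_injective (Sum.elim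
    (fun Z => (⟨io A '' Z.1, by
      obtain ⟨e, he⟩ := Z.2
      exact ⟨e.1, he.of_sub⟩⟩ : {Z // M.Tw P Z}))
    (fun Z => (⟨F Z, hF1 Z⟩ : {Z // M.Tw P Z}))) ?_
  have hne : ∀ (Z : {Z // (M.con A).Tw (fun e => P e.1) Z}) (Z' : Set (orbitRel.Quotient J ↥A)),
      io A '' Z' ≠ F Z := by
    intro Z Z' h
    obtain ⟨e, he⟩ := Z.2
    have h1 := he.mem
    rw [← hF2 Z, ← h] at h1
    obtain ⟨q, _, hq⟩ := h1
    have h2 := io_mem A q
    rw [hq] at h2
    exact io_cpl_nmem A _ h2
  rintro (Z | Z) (Z' | Z') h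
  · have h' : io A '' Z.1 = io A '' Z'.1 := congrArg Subtype.val h
    congr 1
    exact Subtype.ext (Set.image_injective.2 (io_inj A) h')
  · exact absurd (congrArg Subtype.val h : io A '' Z.1 = F Z') (hne Z' Z.1)
  · exact absurd (congrArg Subtype.val h : F Z = io A '' Z'.1).symm (hne Z Z'.1)
  · have h' : F Z = F Z' := congrArg Subtype.val h
    congr 1
    apply Subtype.ext
    rw [← hF2 Z, ← hF2 Z', h']

omit [MulAction J T] M in
theorem adm_true : Adm (fun (_ : Ed) (_ : Subgroup J) => True) :=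
  ⟨fun _ _ _ _ _ => trivial, fun _ _ _ _ => trivial⟩

theorem m0_con (A : SubMulAction J Ed) : (M.sub A).m0 + (M.con A).m0 ≤ M.m0 := by
  exact M.mt_con (P := fun _ _ => True) adm_true A

theorem m0_sub_le (A : SubMulAction J Ed) : (M.sub A).m0 ≤ M.m0 :=
  le_trans (Nat.le_add_right _ _) (M.m0_con A)

theorem m0_con_le (A : SubMulAction J Ed) : (M.con A).m0 ≤ M.m0 :=
  le_trans (Nat.le_add_left _ _) (M.m0_con A)

/-- one more twisted circuit -/
theorem mt_lt (hP : Adm P) (A : SubMulAction J Ed) {e : Ed} (he : e ∉ A)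
    (h1 : M.cwJ {oq J e}ᶜ (M.s e) (M.t e)) (h2 : ¬ M.cw {oq J e}ᶜ (M.s e) (M.t e))
    (h3 : P e ⊤) :
    (M.sub A).mt (fun e => P e.1) < M.mt P := by
  obtain ⟨W, hW, ht⟩ := M.exists_tw hP (V := {oq J e}ᶜ) (fun k => k rfl) h1 h2
    (hP.her _ _ _ le_top h3)
  have i3 := M.fin_tw (M.Tw P)
  have hinj : Function.Injective (fun Z : {Z // (M.sub A).Tw (fun e => P e.1) Z} => (⟨io A '' Z.1, by
      obtain ⟨e, he⟩ := Z.2
      exact ⟨e.1, he.of_sub⟩⟩ : {Z // M.Tw P Z})) := by
    intro Z Z' h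
    have h' : io A '' Z.1 = io A '' Z'.1 := congrArg Subtype.val h
    exact Subtype.ext (Set.image_injective.2 (io_inj A) h')
  have hns : ¬ Function.Surjective (fun Z : {Z // (M.sub A).Tw (fun e => P e.1) Z} => (⟨io A '' Z.1, by
      obtain ⟨e, he⟩ := Z.2
      exact ⟨e.1, he.of_sub⟩⟩ : {Z // M.Tw P Z})) := by
    intro hs
    obtain ⟨Z, hZ⟩ := hs ⟨_, e, ht⟩
    have hZ' : io A '' Z.1 = W ∪ {oq J e} := congrArg Subtype.val hZ
    have h3 : oq J e ∈ io A '' Z.1 := by
      rw [hZ']
      exact Or.inr rfl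
    obtain ⟨q, _, hq⟩ := h3
    have h4 := io_mem A q
    rw [hq] at h4
    exact he (mem_im.1 h4)
  have i1 := (M.sub A).fin_tw ((M.sub A).Tw (fun e => P e.1))
  have f1 := Fintype.ofFinite {Z // (M.sub A).Tw (fun e => P e.1) Z}
  have f3 := Fintype.ofFinite {Z // M.Tw P Z}
  unfold mt
  rw [Nat.card_eq_fintype_card, Nat.card_eq_fintype_card]
  exact Fintype.card_lt_of_injective_not_surjective _ hinj hns

/-! ### strictness -/

/-- an edge which is not a bridge of the quotient -/
theorem exists_nonbridge (h : M.fg.b1 ≠ 0) : ∃ e, M.cwJ {oq J e}ᶜ (M.s e) (M.t e) := by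
  classical
  by_contra hcon
  push Not at hcon
  apply h
  rw [M.b1_zero_iff]
  intro e
  refine ⟨fun x => if M.cwJ {oq J e}ᶜ (M.s e) x then 1 else 0, ?_, ?_, ?_⟩
  · intro j z
    have : M.cwJ {oq J e}ᶜ (M.s e) (j • z) ↔ M.cwJ {oq J e}ᶜ (M.s e) z :=
      ⟨fun k => k.trans (cwJ_smul j z).symm, fun k => k.trans (cwJ_smul j z)⟩
    simp only [this]
  · simp only [if_pos (cwJ.refl (M := M) {oq J e}ᶜ (M.s e)), if_neg (hcon e)]
    exact one_ne_zero
  · intro e' hne
    by_contra hj
    apply hne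
    have he' : oq J e' ∈ ({oq J e}ᶜ : Set (orbitRel.Quotient J Ed)) := by
      intro k
      obtain ⟨j, hj'⟩ := oq_eq.1 (k : oq J e' = oq J e)
      exact hj ⟨j⁻¹, by rw [hj', inv_smul_smul]⟩
    have hs : M.cwJ {oq J e}ᶜ (M.s e) (M.s e') ↔ M.cwJ {oq J e}ᶜ (M.s e) (M.t e') :=
      ⟨fun k => k.trans (cw.edge he').toJ, fun k => k.trans (cw.edge he').symm.toJ⟩
    simp only [hs]

/-- the edges outside of the orbit of `e` -/
def off (e : Ed) : SubMulAction J Ed where
  carrier := {e' | oq J e' ≠ oq J e}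
  smul_mem' j e' h := by
    show oq J (j • e') ≠ oq J e
    rw [oq_smul]
    exact h

omit M in
theorem mem_off {e e' : Ed} : e' ∈ off (J := J) e ↔ oq J e' ≠ oq J e := Iff.rfl

omit M in
theorem im_off (e : Ed) : im (off (J := J) e) = {oq J e}ᶜ := by
  ext q
  obtain ⟨e', rfl⟩ := oq_surj q
  rw [mem_im, mem_off]
  rfl

theorem off_st {e : Ed} {x y : T} :
    Relation.EqvGen (M.sub (off (J := J) e)).st x y ↔ M.cw {oq J e}ᶜ x y := by
  have h := M.con_cw (off (J := J) e) (W := ∅) (x := x) (y := y)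
  rw [Set.empty_union, im_off] at h
  rw [← h, ← M.ct_eq]
  constructor
  · intro k
    rw [k]
    exact cw.refl _ _
  · intro k
    unfold cw at k
    have key : ∀ p q : M.CT (off (J := J) e), Relation.EqvGen
        ((M.con (off (J := J) e)).stw (io (cpl (off (J := J) e)) ⁻¹' ∅)) p q → p = q := by
      intro p q hpq
      induction hpq with
      | rel p q h =>
        obtain ⟨_, h, _⟩ := h
        exact absurd h (Set.notMem_empty _)
      | refl p => rfl
      | symm p q _ ih => exact ih.symm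
      | trans p q r _ _ h1 h2 => exact h1.trans h2
    exact key _ _ k

/-- removing the orbit of an edge which is not a bridge of the quotient -/
theorem b1_off {e : Ed} (h : M.cwJ {oq J e}ᶜ (M.s e) (M.t e)) :
    (M.sub (off (J := J) e)).fg.b1 + 1 ≤ M.fg.b1 := by
  rw [M.b1_con (off (J := J) e)]
  have h1 : (M.con (off (J := J) e)).fg.b1 ≠ 0 := by
    intro h0
    have hc : e ∈ cpl (off (J := J) e) := fun k => k rfl
    obtain ⟨f, f1, f2, -⟩ := (M.con (off (J := J) e)).b1_zero_iff.1 h0 ⟨e, hc⟩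
    apply f2
    obtain ⟨j, hj⟩ := h
    have h2 : M.ct (off (J := J) e) (M.s e) = j • M.ct (off (J := J) e) (M.t e) := by
      rw [← M.ct_smul]
      exact M.ct_eq.2 (M.off_st.2 hj)
    show f (M.ct (off (J := J) e) (M.s e)) = f (M.ct (off (J := J) e) (M.t e))
    rw [h2, f1]
  have h2 := (M.con (off (J := J) e)).fg.b1_nonneg
  omega

/-- if the orbit of `e` does not cut, `T` stays connected without it -/
theorem off_conn {e : Ed} (h : M.cw {oq J e}ᶜ (M.s e) (M.t e))
    (hconn : ∀ x y : T, Relation.EqvGen M.st x y) (x y : T) :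
    Relation.EqvGen (M.sub (off (J := J) e)).st x y := by
  rw [M.off_st]
  induction hconn x y with
  | rel x y k =>
    obtain ⟨e', rfl, rfl⟩ := k
    by_cases he : oq J e' = oq J e
    · obtain ⟨j, rfl⟩ := oq_eq.1 he.symm
      rw [M.hs, M.ht]
      exact h.smul j
    · exact cw.edge he
  | refl x => exact cw.refl _ _
  | symm x y _ ih => exact ih.symm
  | trans x y z _ _ h1 h2 => exact h1.trans h2

/-- STRICTNESS. `T` connected, `Q` a property of the stabilisers such that `n ≤ s + b` holds for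
all connected graphs with the nodes of the contracted graph; `s + b ≤ n` and `b ≠ 0` for the
contracted graph: there is a twisted circuit outside of `A`. -/
theorem mt_strict' (hP : Adm P) (A : SubMulAction J Ed)
    (hconn : ∀ x y : T, Relation.EqvGen M.st x y) (hPt : ∀ e, P e ⊤) (Q : Subgroup J → Prop) (n : ℤ)
    (hn : ∀ B : SubMulAction J ↥(cpl A),
      (∀ x y : M.CT A, Relation.EqvGen ((M.con A).sub B).st x y) →
        n ≤ Nat.card ↥(((M.con A).sub B).mN Q) + ((M.con A).sub B).fg.b1)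
    (h0 : (M.con A).fg.b1 ≠ 0) (h1 : Nat.card ↥((M.con A).mN Q) + (M.con A).fg.b1 ≤ n) :
    (M.sub A).mt (fun e => P e.1) < M.mt P := by
  obtain ⟨e, he⟩ := (M.con A).exists_nonbridge h0
  have hc : ¬ (M.con A).cw {oq J e}ᶜ ((M.con A).s e) ((M.con A).t e) := by
    intro h2
    have h3 := hn _ ((M.con A).off_conn h2 (M.con_conn A hconn))
    have h4 := (M.con A).b1_off he
    have h5 : Nat.card ↥(((M.con A).sub (off (J := J) e)).mN Q) = Nat.card ↥((M.con A).mN Q) := rfl
    omega
  have hpre : (io (cpl A) ⁻¹' {oq J e.1}ᶜ) = ({oq J e}ᶜ : Set (orbitRel.Quotient J ↥(cpl A))) := by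
    ext q
    constructor
    · intro h2 h3
      apply h2
      have : q = oq J e := h3
      rw [this]
      rfl
    · intro h2 h3
      exact h2 (io_inj _ h3)
  have hu : ({oq J e.1}ᶜ : Set (orbitRel.Quotient J Ed)) ∪ im A = {oq J e.1}ᶜ := by
    apply Set.union_eq_self_of_subset_right
    intro q hq hqe
    have : q = oq J e.1 := hqe
    rw [this] at hq
    exact e.2 (mem_im.1 hq)
  apply M.mt_lt hP A e.2
  · have h2 := M.con_cwJ A (W := {oq J e.1}ᶜ) (x := M.s e.1) (y := M.t e.1)
    rw [hpre, hu] at h2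
    exact h2.1 he
  · have h2 := M.con_cw A (W := {oq J e.1}ᶜ) (x := M.s e.1) (y := M.t e.1)
    rw [hpre, hu] at h2
    exact fun k => hc (h2.2 k)
  · exact hPt _

/-- STRICTNESS for groups of dihedral type: `s + b = 2` and `b > 0` -/
theorem mt_strict (hP : Adm P) (L : DL J) (A : SubMulAction J Ed) (hne : Nonempty T)
    (hconn : ∀ x y : T, Relation.EqvGen M.st x y) (hfin : ∀ x : T, Finite ↥((M.sub A).grp x))
    (hPt : ∀ e, P e ⊤) (h0 : (M.con A).fg.b1 ≠ 0)
    (h1 : Nat.card ↥((M.con A).mN L.Mir) + (M.con A).fg.b1 ≤ 2) :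
    (M.sub A).mt (fun e => P e.1) < M.mt P := by
  refine M.mt_strict' hP A hconn hPt L.Mir 2 ?_ h0 h1
  intro B hB
  refine ((M.con A).sub B).two_le L (M.con_ne A hne) hB ?_
  intro c
  obtain ⟨x, rfl⟩ := M.ct_surj c
  rw [M.stab_ct]
  exact hfin x

/-- STRICTNESS for groups with swaps: `s + b = 1` and `b > 0` -/
theorem mt_strict_swap (hP : Adm P) (σ : J →* ℤˣ) (A : SubMulAction J Ed) (hne : Nonempty T)
    (hconn : ∀ x y : T, Relation.EqvGen M.st x y) (hσ : ∃ g, σ g = -1)
    (hPt : ∀ e, P e ⊤) (h0 : (M.con A).fg.b1 ≠ 0)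
    (h1 : Nat.card ↥((M.con A).mN (Sw σ)) + (M.con A).fg.b1 ≤ 1) :
    (M.sub A).mt (fun e => P e.1) < M.mt P :=
  M.mt_strict' hP A hconn hPt (Sw σ) 1
    (fun B hB => ((M.con A).sub B).one_le σ (M.con_ne A hne) hB hσ) h0 h1

/-! ### fixed nodes -/

variable {M}

/-- a minimal connecting set is connected to the ends of its edges -/
theorem TwAt.conn {Z : Set (orbitRel.Quotient J Ed)} {e : Ed} (h : M.TwAt P Z e) {e' : Ed}
    (he' : oq J e' ∈ Z \ {oq J e}) : M.cwJ (Z \ {oq J e}) (M.s e) (M.s e') := by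
  by_contra hcon
  have hcon2 : ¬ M.cwJ (Z \ {oq J e}) (M.s e) (M.t e') :=
    fun k => hcon (k.trans (cw.edge he').symm.toJ)
  -- walks from `s e` do not use the orbit of `e'`
  have key : ∀ x y : T, M.cw (Z \ {oq J e}) x y → M.cwJ (Z \ {oq J e}) (M.s e) x →
      M.cw ((Z \ {oq J e}) \ {oq J e'}) x y := by
    intro x y hxy
    unfold cw at hxy
    induction hxy with
    | rel x y k =>
      obtain ⟨f, hf, rfl, rfl⟩ := k
      intro hx
      refine cw.edge ⟨hf, ?_⟩
      intro hfe
      obtain ⟨j, hj⟩ := oq_eq.1 (hfe : oq J f = oq J e')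
      apply hcon
      refine hx.trans ?_
      rw [hj, M.hs]
      exact cwJ_smul j _
    | refl x => intro _; exact cw.refl _ _
    | symm x y k ih =>
      intro hy
      have hk : M.cw (Z \ {oq J e}) x y := k
      exact (ih (hy.trans hk.symm.toJ)).symm
    | trans x y z k k' ih1 ih2 =>
      intro hx
      have hk : M.cw (Z \ {oq J e}) x y := k
      exact (ih1 hx).trans (ih2 (hx.trans hk.toJ))
  obtain ⟨j, hj⟩ := h.cj
  have h1 := key _ _ hj (cwJ.refl _ _)
  have h2 := h.min _ Set.sdiff_subset ⟨j, h1⟩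
  have h3 : oq J e' ∈ (Z \ {oq J e}) \ {oq J e'} := by
    rw [h2]
    exact he'
  exact h3.2 rfl

/-- FIXED NODES: no twisted circuit passes a node which is fixed by the group -/
theorem TwAt.not_fixed {Z : Set (orbitRel.Quotient J Ed)} {e : Ed} (h : M.TwAt P Z e) {k : T}
    (hk : ∀ j : J, j • k = k) {e' : Ed} (he' : oq J e' ∈ Z) : M.s e' ≠ k ∧ M.t e' ≠ k := by
  have hfix : ∀ {x : T}, M.cwJ (Z \ {oq J e}) x k → M.cw (Z \ {oq J e}) x k := by
    rintro x ⟨j, hj⟩
    rwa [hk] at hj
  have key : ¬ M.cwJ (Z \ {oq J e}) (M.s e) k := by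
    intro h1
    exact h.nc ((hfix h1).trans (hfix (h.cj.symm.trans h1)).symm)
  by_cases hee : oq J e' = oq J e
  · obtain ⟨j, hj⟩ := oq_eq.1 hee.symm
    constructor
    · intro h1
      apply key
      rw [← h1, hj, M.hs]
      exact cwJ_smul j _
    · intro h1
      apply key
      refine h.cj.trans ?_
      rw [← h1, hj, M.ht]
      exact cwJ_smul j _
  · have he2 : oq J e' ∈ Z \ {oq J e} := ⟨he', hee⟩
    have h1 := h.conn he2
    constructor
    · intro h2
      exact key (h2 ▸ h1)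
    · intro h2
      exact key (h2 ▸ h1.trans (cw.edge he2).toJ)

end JM

end Pool.Agent.DI
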