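import Pool.Agent.DI.M0
import Pool.Agent.DI.Glue

/-!
# Twisted circuits: morphisms, levels, gluing

`JM.Mor M' M`: a morphism of graphs with different groups which is injective on the orbits of edges.

* `Mor.Emb` (levels): injective on vertices, walks lift. `mt_sum_le`: the sum of the numbers of a
  family of embeddings with disjoint images is at most the number of `M`.
* `mt_le_sum` (gluing): if every twisted circuit lies in one member and connections in the quotient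
  of `M` come from connections in the quotient of the member, the number of `M` is at most the sum.
* `FG.Gl.closure`: for a glued graph with `T.b1 = 0` connections are connections in the pieces.
-/

namespace Pool.Agent.DI

open MulAction

namespace JM

variable {J T Ed : Type} [Group J] [MulAction J T] [MulAction J Ed] {M : JM J T Ed}

theorem hol_smul (W : Set (orbitRel.Quotient J Ed)) (j : J) (x : T) :
    M.hol W (j • x) = (M.hol W x).map (MulAut.conj j).toMonoidHom := by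
  ext k
  rw [Subgroup.mem_map]
  constructor
  · intro h
    refine ⟨j⁻¹ * k * j, ?_, ?_⟩
    · have h1 : M.cw W (j • x) (k • j • x) := h
      have h2 := h1.smul j⁻¹
      rw [inv_smul_smul, smul_smul, smul_smul] at h2
      exact h2
    · show j * (j⁻¹ * k * j) * j⁻¹ = k
      group
  · rintro ⟨i, hi, rfl⟩
    have h1 : M.cw W x (i • x) := hi
    have h2 := h1.smul j
    show M.cw W (j • x) ((j * i * j⁻¹) • j • x)
    rw [smul_smul, inv_mul_cancel_right, mul_smul]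
    exact h2

theorem hol_eq_of_cw {W : Set (orbitRel.Quotient J Ed)} {x y : T} (h : M.cw W x y) :
    M.hol W x = M.hol W y := by
  ext j
  rw [mem_hol, mem_hol]
  exact ⟨fun k => h.symm.trans (k.trans (h.smul j)), fun k => h.trans (k.trans (h.smul j).symm)⟩

variable {P : Ed → Subgroup J → Prop}

/-- another base edge in the same orbit -/
theorem TwAt.smul (hP : Adm P) {Z : Set (orbitRel.Quotient J Ed)} {e : Ed} (h : M.TwAt P Z e)
    (j : J) : M.TwAt P Z (j • e) where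
  mem := by
    rw [oq_smul]
    exact h.mem
  cj := by
    rw [oq_smul, M.hs, M.ht]
    exact ((cwJ_smul j _).symm.trans h.cj).trans (cwJ_smul j _)
  min W hW hc := by
    rw [oq_smul] at hW ⊢
    rw [M.hs, M.ht] at hc
    exact h.min W hW (((cwJ_smul j _).trans hc).trans (cwJ_smul j _).symm)
  nc := by
    rw [oq_smul, M.hs, M.ht]
    intro k
    have := k.smul j⁻¹
    rw [inv_smul_smul, inv_smul_smul] at this
    exact h.nc this
  hl := by
    rw [M.hs, hol_smul]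
    exact hP.inv j _ _ h.hl

/-! ### morphisms -/

variable {J' T' Ed' : Type} [Group J'] [MulAction J' T'] [MulAction J' Ed']

/-- a morphism of graphs with groups, injective on the orbits of edges -/
structure Mor (M' : JM J' T' Ed') (M : JM J T Ed) where
  f : T' → T
  g : Ed' → Ed
  h : ∀ e, (M.s (g e) = f (M'.s e) ∧ M.t (g e) = f (M'.t e)) ∨
    (M.s (g e) = f (M'.t e) ∧ M.t (g e) = f (M'.s e))
  fo : ∀ (j : J') (x : T'), ∃ k : J, f (j • x) = k • f x
  go : ∀ (j : J') (e : Ed'), ∃ k : J, g (j • e) = k • g e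
  gi : ∀ (k : J) (e e' : Ed'), g e' = k • g e → ∃ j : J', e' = j • e

namespace Mor

variable {M' : JM J' T' Ed'} (φ : Mor M' M)

/-- the map of the orbits of edges -/
def q : orbitRel.Quotient J' Ed' → orbitRel.Quotient J Ed :=
  olift (fun e => oq J (φ.g e)) (fun j e => by
    obtain ⟨k, hk⟩ := φ.go j e
    rw [hk, oq_smul])

@[simp] theorem q_oq (e : Ed') : φ.q (oq J' e) = oq J (φ.g e) := rfl

theorem q_inj : Function.Injective φ.q := by
  intro p p' h
  obtain ⟨e, rfl⟩ := oq_surj p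
  obtain ⟨e', rfl⟩ := oq_surj p'
  obtain ⟨k, hk⟩ := oq_eq.1 (h : oq J (φ.g e) = oq J (φ.g e'))
  exact oq_eq.2 (φ.gi k e e' hk)

theorem cw {W : Set (orbitRel.Quotient J' Ed')} {x y : T'} (h : M'.cw W x y) :
    M.cw (φ.q '' W) (φ.f x) (φ.f y) := by
  unfold JM.cw at h
  induction h with
  | rel x y h =>
    obtain ⟨e, he, rfl, rfl⟩ := h
    have h1 : M.cw (φ.q '' W) (M.s (φ.g e)) (M.t (φ.g e)) := cw.edge ⟨_, he, rfl⟩
    rcases φ.h e with ⟨h2, h3⟩ | ⟨h2, h3⟩
    · rwa [h2, h3] at h1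
    · rw [h2, h3] at h1
      exact h1.symm
  | refl x => exact cw.refl _ _
  | symm x y _ ih => exact ih.symm
  | trans x y z _ _ h1 h2 => exact h1.trans h2

theorem cwJ {W : Set (orbitRel.Quotient J' Ed')} {x y : T'} (h : M'.cwJ W x y) :
    M.cwJ (φ.q '' W) (φ.f x) (φ.f y) := by
  obtain ⟨j, hj⟩ := h
  obtain ⟨k, hk⟩ := φ.fo j y
  refine ⟨k, ?_⟩
  rw [← hk]
  exact φ.cw hj

theorem image_diff (Z : Set (orbitRel.Quotient J' Ed')) (e : Ed') :
    φ.q '' (Z \ {oq J' e}) = φ.q '' Z \ {oq J (φ.g e)} := by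
  rw [Set.image_sdiff φ.q_inj, Set.image_singleton, q_oq]

/-! ### levels -/

/-- the morphism is an embedding, walks lift -/
structure Emb : Prop where
  fi : Function.Injective φ.f
  fJ : ∀ (k : J) (x y : T'), φ.f y = k • φ.f x → ∃ j : J', y = j • x
  lift : ∀ (e : Ed) (e' : Ed') (k : J) (x : T'), e = k • φ.g e' →
    (M.s e = φ.f x ∨ M.t e = φ.f x) → ∃ e'', φ.g e'' = e

variable {φ}

theorem Emb.cw_lift (E : φ.Emb) {W : Set (orbitRel.Quotient J' Ed')} {x : T'} {z : T}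
    (h : M.cw (φ.q '' W) (φ.f x) z) : ∃ y, z = φ.f y ∧ M'.cw W x y := by
  have key : ∀ a b : T, Relation.EqvGen (M.stw (φ.q '' W)) a b →
      (∀ x, a = φ.f x → ∃ y, b = φ.f y ∧ M'.cw W x y) ∧
      (∀ x, b = φ.f x → ∃ y, a = φ.f y ∧ M'.cw W x y) := by
    intro a b hab
    induction hab with
    | rel a b h =>
      obtain ⟨e, ⟨p, hp, hpe⟩, rfl, rfl⟩ := h
      obtain ⟨e', rfl⟩ := oq_surj p
      obtain ⟨k, hk⟩ := oq_eq.1 (hpe : oq J (φ.g e') = oq J e)
      have main : ∀ x, (M.s e = φ.f x ∨ M.t e = φ.f x) → ∃ e'', φ.g e'' = e ∧ oq J' e'' ∈ W := by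
        intro x hx
        obtain ⟨e'', he''⟩ := E.lift e e' k x hk hx
        refine ⟨e'', he'', ?_⟩
        have : oq J' e'' = oq J' e' := φ.q_inj (by
          rw [q_oq, q_oq, he'', hk, oq_smul])
        rw [this]
        exact hp
      constructor
      · intro x hx
        obtain ⟨e'', rfl, hW⟩ := main x (Or.inl hx)
        rcases φ.h e'' with ⟨h1, h2⟩ | ⟨h1, h2⟩
        · refine ⟨M'.t e'', h2, ?_⟩
          rw [← E.fi (h1.symm.trans hx)]
          exact cw.edge hW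
        · refine ⟨M'.s e'', h2, ?_⟩
          rw [← E.fi (h1.symm.trans hx)]
          exact (cw.edge hW).symm
      · intro x hx
        obtain ⟨e'', rfl, hW⟩ := main x (Or.inr hx)
        rcases φ.h e'' with ⟨h1, h2⟩ | ⟨h1, h2⟩
        · refine ⟨M'.s e'', h1, ?_⟩
          rw [← E.fi (h2.symm.trans hx)]
          exact (cw.edge hW).symm
        · refine ⟨M'.t e'', h1, ?_⟩
          rw [← E.fi (h2.symm.trans hx)]
          exact cw.edge hW
    | refl a => exact ⟨fun x hx => ⟨x, hx, cw.refl _ _⟩, fun x hx => ⟨x, hx, cw.refl _ _⟩⟩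
    | symm a b _ ih => exact ⟨ih.2, ih.1⟩
    | trans a b c _ _ h1 h2 =>
      constructor
      · intro x hx
        obtain ⟨y, hy, h3⟩ := h1.1 x hx
        obtain ⟨z, hz, h4⟩ := h2.1 y hy
        exact ⟨z, hz, h3.trans h4⟩
      · intro x hx
        obtain ⟨y, hy, h3⟩ := h2.2 x hx
        obtain ⟨z, hz, h4⟩ := h1.2 y hy
        exact ⟨z, hz, h3.trans h4⟩
  exact (key _ _ h).1 x rfl

theorem Emb.cw_iff (E : φ.Emb) {W : Set (orbitRel.Quotient J' Ed')} {x y : T'} :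
    M.cw (φ.q '' W) (φ.f x) (φ.f y) ↔ M'.cw W x y := by
  constructor
  · intro h
    obtain ⟨z, hz, h1⟩ := E.cw_lift h
    rwa [← E.fi hz] at h1
  · exact φ.cw

theorem Emb.cwJ_iff (E : φ.Emb) {W : Set (orbitRel.Quotient J' Ed')} {x y : T'} :
    M.cwJ (φ.q '' W) (φ.f x) (φ.f y) ↔ M'.cwJ W x y := by
  constructor
  · rintro ⟨k, h⟩
    obtain ⟨z, hz, h1⟩ := E.cw_lift h
    obtain ⟨j, rfl⟩ := E.fJ k y z hz.symm
    exact ⟨j, h1⟩
  · exact φ.cwJ

/-- a twisted circuit of an embedded graph -/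
theorem Emb.tw (E : φ.Emb) {P' : Ed' → Subgroup J' → Prop}
    (hPP : ∀ (e : Ed') (Z : Set (orbitRel.Quotient J' Ed')), oq J' e ∈ Z →
      P' e (M'.hol Z (M'.s e)) → P (φ.g e) (M.hol (φ.q '' Z) (M.s (φ.g e))))
    {Z : Set (orbitRel.Quotient J' Ed')} (h : M'.Tw P' Z) : M.Tw P (φ.q '' Z) := by
  obtain ⟨e, he⟩ := h
  refine ⟨φ.g e, ⟨⟨_, he.mem, rfl⟩, ?_, ?_, ?_, hPP e Z he.mem he.hl⟩⟩
  · rw [← φ.image_diff]
    rcases φ.h e with ⟨h1, h2⟩ | ⟨h1, h2⟩
    · rw [h1, h2]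
      exact φ.cwJ he.cj
    · rw [h1, h2]
      exact (φ.cwJ he.cj).symm
  · intro W hW hc
    rw [← φ.image_diff] at hW ⊢
    obtain ⟨W', hW', rfl⟩ := Set.subset_image_iff.1 hW
    rw [he.min W' hW']
    rcases φ.h e with ⟨h1, h2⟩ | ⟨h1, h2⟩
    · rw [h1, h2] at hc
      exact E.cwJ_iff.1 hc
    · rw [h1, h2] at hc
      exact E.cwJ_iff.1 hc.symm
  · rw [← φ.image_diff]
    intro k
    apply he.nc
    rcases φ.h e with ⟨h1, h2⟩ | ⟨h1, h2⟩
    · rw [h1, h2] at k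
      exact E.cw_iff.1 k
    · rw [h1, h2] at k
      exact E.cw_iff.1 k.symm

/-- one embedding -/
theorem Emb.mt_le (E : φ.Emb) {P' : Ed' → Subgroup J' → Prop}
    (hPP : ∀ (e : Ed') (Z : Set (orbitRel.Quotient J' Ed')), oq J' e ∈ Z →
      P' e (M'.hol Z (M'.s e)) → P (φ.g e) (M.hol (φ.q '' Z) (M.s (φ.g e)))) :
    M'.mt P' ≤ M.mt P := by
  have i3 := M.fin_tw (M.Tw P)
  refine Nat.card_le_card_of_injective
    (fun Z : {Z // M'.Tw P' Z} => (⟨φ.q '' Z.1, E.tw hPP Z.2⟩ : {Z // M.Tw P Z})) ?_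
  intro Z Z' h
  exact Subtype.ext (Set.image_injective.2 φ.q_inj (congrArg Subtype.val h))

/-! ### closure -/

variable (φ)

/-- connections of edges in the quotient of `M` come from connections in the quotient of `M'` -/
def Clo : Prop := ∀ (e : Ed') (V : Set (orbitRel.Quotient J Ed)),
  M.cwJ V (M.s (φ.g e)) (M.t (φ.g e)) → M'.cwJ (φ.q ⁻¹' V) (M'.s e) (M'.t e)

variable {φ}

/-- a twisted circuit of `M` through an edge of `M'` -/
theorem Clo.tw (C : φ.Clo) (hP : Adm P) {P' : Ed' → Subgroup J' → Prop}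
    (hPP : ∀ (e : Ed') (Z : Set (orbitRel.Quotient J' Ed')), oq J' e ∈ Z →
      P (φ.g e) (M.hol (φ.q '' Z) (M.s (φ.g e))) → P' e (M'.hol Z (M'.s e)))
    {Z : Set (orbitRel.Quotient J Ed)} {e : Ed} (he : M.TwAt P Z e) (hr : oq J e ∈ Set.range φ.q) :
    ∃ Z', M'.Tw P' Z' ∧ φ.q '' Z' = Z := by
  obtain ⟨p, hp⟩ := hr
  obtain ⟨e', rfl⟩ := oq_surj p
  obtain ⟨k, hk⟩ := oq_eq.1 (hp : oq J (φ.g e') = oq J e)
  have he1 : M.TwAt P Z (φ.g e') := by
    have := he.smul hP k⁻¹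
    rwa [hk, inv_smul_smul] at this
  have hends : ∀ V : Set (orbitRel.Quotient J' Ed'), M'.cwJ V (M'.s e') (M'.t e') →
      M.cwJ (φ.q '' V) (M.s (φ.g e')) (M.t (φ.g e')) := by
    intro V hV
    rcases φ.h e' with ⟨h1, h2⟩ | ⟨h1, h2⟩
    · rw [h1, h2]
      exact φ.cwJ hV
    · rw [h1, h2]
      exact (φ.cwJ hV).symm
  have hends' : ∀ V : Set (orbitRel.Quotient J' Ed'), M'.cw V (M'.s e') (M'.t e') →
      M.cw (φ.q '' V) (M.s (φ.g e')) (M.t (φ.g e')) := by
    intro V hV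
    rcases φ.h e' with ⟨h1, h2⟩ | ⟨h1, h2⟩
    · rw [h1, h2]
      exact φ.cw hV
    · rw [h1, h2]
      exact (φ.cw hV).symm
  have hc := C e' _ he1.cj
  have hpre : φ.q ⁻¹' (Z \ {oq J (φ.g e')}) = φ.q ⁻¹' Z \ {oq J' e'} := by
    ext r
    constructor
    · rintro ⟨h1, h2⟩
      exact ⟨h1, fun h3 => h2 (by
        have : r = oq J' e' := h3
        rw [this]
        rfl)⟩
    · rintro ⟨h1, h2⟩
      exact ⟨h1, fun h3 => h2 (φ.q_inj h3)⟩
  rw [hpre] at hc
  have hsub : φ.q '' (φ.q ⁻¹' Z \ {oq J' e'}) ⊆ Z \ {oq J (φ.g e')} := by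
    rw [← hpre]
    exact Set.image_preimage_subset _ _
  have h1 := he1.min _ hsub (hends _ hc)
  have hZ : φ.q '' (φ.q ⁻¹' Z) = Z := by
    apply Set.Subset.antisymm (Set.image_preimage_subset _ _)
    intro r hr
    by_cases h2 : r = oq J (φ.g e')
    · rw [h2]
      exact ⟨oq J' e', he1.mem, rfl⟩
    · have h3 : r ∈ Z \ {oq J (φ.g e')} := ⟨hr, h2⟩
      rw [← h1] at h3
      obtain ⟨r', hr', rfl⟩ := h3
      exact ⟨r', hr'.1, rfl⟩
  refine ⟨φ.q ⁻¹' Z, ⟨e', ⟨he1.mem, hc, ?_, ?_, ?_⟩⟩, hZ⟩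
  · intro W hW hcW
    have h2 : φ.q '' W ⊆ Z \ {oq J (φ.g e')} := (Set.image_mono hW).trans hsub
    have h3 := he1.min _ h2 (hends _ hcW)
    rw [← h1] at h3
    exact Set.image_injective.2 φ.q_inj h3
  · intro h2
    exact he1.nc ((hends' _ h2).mono hsub)
  · apply hPP e' _ he1.mem
    rw [hZ]
    exact he1.hl

end Mor

/-! ### families -/

section fam

variable {Q : Type} [Fintype Q] {J' T' Ed' : Q → Type} [∀ q, Group (J' q)]
  [∀ q, MulAction (J' q) (T' q)] [∀ q, MulAction (J' q) (Ed' q)]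
  {M' : ∀ q, JM (J' q) (T' q) (Ed' q)} {P' : ∀ q, Ed' q → Subgroup (J' q) → Prop}

/-- LEVELS: embeddings with disjoint images -/
theorem mt_sum_le (φ : ∀ q, Mor (M' q) M) (E : ∀ q, (φ q).Emb)
    (disj : ∀ q q' p p', (φ q).q p = (φ q').q p' → q = q')
    (hPP : ∀ q (e : Ed' q) (Z : Set (orbitRel.Quotient (J' q) (Ed' q))), oq (J' q) e ∈ Z →
      P' q e ((M' q).hol Z ((M' q).s e)) →
        P ((φ q).g e) (M.hol ((φ q).q '' Z) (M.s ((φ q).g e)))) :
    ∑ q, (M' q).mt (P' q) ≤ M.mt P := by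
  have i3 := M.fin_tw (M.Tw P)
  have hf : ∀ q, Finite {Z // (M' q).Tw (P' q) Z} := fun q => (M' q).fin_tw _
  have hs : ∑ q, (M' q).mt (P' q) = Nat.card (Σ q, {Z // (M' q).Tw (P' q) Z}) := by
    rw [Nat.card_sigma]
    rfl
  rw [hs]
  refine Nat.card_le_card_of_injective
    (fun Z : Σ q, {Z // (M' q).Tw (P' q) Z} =>
      (⟨(φ Z.1).q '' Z.2.1, (E Z.1).tw (hPP Z.1) Z.2.2⟩ : {Z // M.Tw P Z})) ?_
  rintro ⟨q, Z, hZ⟩ ⟨q', Z', hZ'⟩ h
  have h1 : (φ q).q '' Z = (φ q').q '' Z' := congrArg Subtype.val h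
  obtain ⟨e, he⟩ := hZ
  have h2 : (φ q).q (oq _ e) ∈ (φ q').q '' Z' := by
    rw [← h1]
    exact ⟨_, he.mem, rfl⟩
  obtain ⟨p', _, hp'⟩ := h2
  obtain rfl := disj _ _ _ _ hp'
  have h3 : Z' = Z := Set.image_injective.2 (φ q').q_inj h1.symm
  subst h3
  rfl

/-- GLUING: every edge orbit lies in one member and connections come from the members -/
theorem mt_le_sum (hP : Adm P) (φ : ∀ q, Mor (M' q) M) (C : ∀ q, (φ q).Clo)
    (hcov : ∀ e : Ed, ∃ q, oq J e ∈ Set.range (φ q).q)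
    (hPP : ∀ q (e : Ed' q) (Z : Set (orbitRel.Quotient (J' q) (Ed' q))), oq (J' q) e ∈ Z →
      P ((φ q).g e) (M.hol ((φ q).q '' Z) (M.s ((φ q).g e))) →
        P' q e ((M' q).hol Z ((M' q).s e))) :
    M.mt P ≤ ∑ q, (M' q).mt (P' q) := by
  have hf : ∀ q, Finite {Z // (M' q).Tw (P' q) Z} := fun q => (M' q).fin_tw _
  have hs : ∑ q, (M' q).mt (P' q) = Nat.card (Σ q, {Z // (M' q).Tw (P' q) Z}) := by
    rw [Nat.card_sigma]
    rfl
  rw [hs]
  have key : ∀ Z : {Z // M.Tw P Z}, ∃ q Z', (M' q).Tw (P' q) Z' ∧ (φ q).q '' Z' = Z.1 := by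
    rintro ⟨Z, e, he⟩
    obtain ⟨q, hq⟩ := hcov e
    obtain ⟨Z', h1, h2⟩ := (C q).tw hP (hPP q) he hq
    exact ⟨q, Z', h1, h2⟩
  choose F G hG1 hG2 using key
  refine Nat.card_le_card_of_injective
    (fun Z : {Z // M.Tw P Z} => (⟨F Z, ⟨G Z, hG1 Z⟩⟩ : Σ q, {Z // (M' q).Tw (P' q) Z})) ?_
  intro Z Z' h
  apply Subtype.ext
  rw [← hG2 Z, ← hG2 Z']
  have h2 : ∀ a b : (Σ q, {Z // (M' q).Tw (P' q) Z}), a = b →
      (φ a.1).q '' a.2.1 = (φ b.1).q '' b.2.1 := by
    rintro a b rfl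
    rfl
  exact h2 _ _ h

end fam

end JM

/-! ### glued graphs -/

namespace FG

namespace Gl

variable {G : FG} (g : G.Gl)

/-- CLOSURE: connections in a glued graph with `T.b1 = 0` are connections in the pieces -/
theorem closure (hT : g.T.b1 = 0) (q : g.Q) (V : Set G.L) {x y : (g.P q).N}
    (h : (G.sub V).c (g.n q x) = (G.sub V).c (g.n q y)) :
    ((g.P q).sub {l | g.l ⟨q, l⟩ ∈ V}).c x = ((g.P q).sub {l | g.l ⟨q, l⟩ ∈ V}).c y := by
  classical
  have := Fintype.ofFinite (g.P q).N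
  have hcut := g.T.b1_zero_iff.1 hT
  choose F hF1 hF2 using hcut
  obtain ⟨K, hK⟩ : ∃ K : Set (g.P q).N, K = {z | ((g.P q).sub {l | g.l ⟨q, l⟩ ∈ V}).c x =
    ((g.P q).sub {l | g.l ⟨q, l⟩ ∈ V}).c z} := ⟨_, rfl⟩
  -- the indicator of the part of the graph behind the nodes of `K`
  obtain ⟨Φ, hΦ⟩ : ∃ Φ : G.N → ZMod 2, Φ = fun z => ∑ k : (g.P q).N,
    if k ∈ K then F ⟨q, k⟩ (Sum.inl z) + F ⟨q, k⟩ (Sum.inr q) else 0 := ⟨_, rfl⟩
  have hz : ∀ a b : ZMod 2, a ≠ b → a + b = 1 := by decide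
  have hn : ∀ z : (g.P q).N, Φ (g.n q z) = if z ∈ K then 1 else 0 := by
    intro z
    rw [hΦ]
    show (∑ k : (g.P q).N, if k ∈ K then F ⟨q, k⟩ (Sum.inl (g.n q z)) + F ⟨q, k⟩ (Sum.inr q)
      else 0) = _
    rw [Finset.sum_eq_single z]
    · split_ifs with h1
      · exact hz _ _ (hF1 ⟨q, z⟩)
      · rfl
    · intro k _ hk
      split_ifs with h1
      · have h2 := hF2 ⟨q, k⟩ ⟨q, z⟩ (by
          intro h3
          have h4 : z = k := by
            have := (Sigma.mk.inj_iff.1 h3).2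
            exact eq_of_heq this
          exact hk h4.symm)
        rw [add_eq_zero_iff_eq']
        exact h2
      · rfl
    · intro h1
      exact absurd (Finset.mem_univ z) h1
  have hline : ∀ l : (G.sub V).L, Φ ((G.sub V).a l) = Φ ((G.sub V).b l) := by
    rintro ⟨l, hl⟩
    show Φ (G.a l) = Φ (G.b l)
    obtain ⟨⟨q', l⟩, rfl⟩ := g.l.surjective l
    have hsw : Φ (g.n q' ((g.P q').a l)) = Φ (g.n q' ((g.P q').b l)) := by
      by_cases hq : q' = q
      · subst hq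
        rw [hn, hn]
        have h1 : (g.P q').a l ∈ K ↔ (g.P q').b l ∈ K := by
          have h2 := c_line (G := (g.P q').sub {l | g.l ⟨q', l⟩ ∈ V}) ⟨l, hl⟩
          rw [hK]
          constructor
          · intro h3
            exact (h3 : _ = _).trans h2
          · intro h3
            exact (h3 : _ = _).trans h2.symm
        simp only [h1]
      · rw [hΦ]
        apply Finset.sum_congr rfl
        intro k _
        have h1 : ∀ z : (g.P q').N,
            F ⟨q, k⟩ (Sum.inl (g.n q' z)) = F ⟨q, k⟩ (Sum.inr q') := by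
          intro z
          exact hF2 ⟨q, k⟩ ⟨q', z⟩ (fun h3 => hq (Sigma.mk.inj_iff.1 h3).1)
        rw [h1, h1]
    rcases g.h ⟨q', l⟩ with ⟨h1, h2⟩ | ⟨h1, h2⟩
    · rw [h1, h2]
      exact hsw
    · rw [h1, h2]
      exact hsw.symm
  have h1 := const_of_line (G := G.sub V) hline (c_eq.1 h)
  rw [hn, hn] at h1
  have hx : x ∈ K := by
    rw [hK]
    rfl
  rw [if_pos hx] at h1
  have hy : y ∈ K := by
    by_contra hy
    rw [if_neg hy] at h1
    exact one_ne_zero h1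
  rw [hK] at hy
  exact hy

end Gl

end FG

end Pool.Agent.DI
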