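import Pool.Agent.DI.Glue

/-!
# The unfolded law for finite multigraphs

`FG.b1_pol`: nodes with private ends. `FG.CutD G R`: `R` is obtained from `G` by cutting the lines
which are not local (`∉ A`) and keeping the bad part `Bd`; `D`: the private ends of the half-lines.
`FG.CutD.law`: `b1 R + b1 (G.con A) = b1 G + ∑ (deg P - e P)` over the bad nodes `P` of `G.con A`,
`e P`: the number of private ends at `P`.
-/

namespace Pool.Agent.DI

namespace FG

/-- a set `D` of nodes, each of them attached to one component of the rest -/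
theorem b1_pol (G : FG) (D : Set G.N) (h0 : ∀ e, ¬ (G.a e ∈ D ∧ G.b e ∈ D))
    (pd : ↥D → (G.del D).C)
    (h1 : ∀ (e : G.L) (ha : G.a e ∈ D) (hb : G.b e ∉ D),
      (G.del D).c ⟨G.b e, hb⟩ = pd ⟨G.a e, ha⟩)
    (h2 : ∀ (e : G.L) (hb : G.b e ∈ D) (ha : G.a e ∉ D),
      (G.del D).c ⟨G.a e, ha⟩ = pd ⟨G.b e, hb⟩)
    (h3 : ∀ d : ↥D, ∃ e, G.a e = d.1 ∨ G.b e = d.1) :
    G.b1 = (G.del D).b1 + Nat.card {e // G.a e ∈ D ∨ G.b e ∈ D} - Nat.card ↥D := by
  classical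
  have := Fintype.ofFinite G.L
  let q : G.N → (G.del D).C := fun x => if h : x ∈ D then pd ⟨x, h⟩ else (G.del D).c ⟨x, h⟩
  have q1 : ∀ (x : G.N) (h : x ∈ D), q x = pd ⟨x, h⟩ := fun x h => dif_pos h
  have q2 : ∀ (x : G.N) (h : x ∉ D), q x = (G.del D).c ⟨x, h⟩ := fun x h => dif_neg h
  have hq : ∀ e, q (G.a e) = q (G.b e) := by
    intro e
    by_cases ha : G.a e ∈ D
    · have hb : G.b e ∉ D := fun hb => h0 e ⟨ha, hb⟩
      rw [q1 _ ha, q2 _ hb, h1 e ha hb]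
    · by_cases hb : G.b e ∈ D
      · rw [q2 _ ha, q1 _ hb, h2 e hb ha]
      · rw [q2 _ ha, q2 _ hb]
        exact c_line (G := G.del D) ⟨e, ha, hb⟩
  have hr : ∀ e : (G.del D).L, G.c ((G.del D).a e).1 = G.c ((G.del D).b e).1 :=
    fun e => c_line (G := G) e.1
  have hpd : ∀ (d : ↥D) (x : G.N) (hx : x ∉ D), (G.del D).c ⟨x, hx⟩ = pd d → G.c x = G.c d.1 := by
    intro d x hx hxd
    obtain ⟨e, he | he⟩ := h3 d
    · have hb : G.b e ∉ D := fun hb => h0 e ⟨he.symm ▸ d.2, hb⟩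
      have ha : G.a e ∈ D := he.symm ▸ d.2
      have h4 := h1 e ha hb
      have h5 : (⟨G.a e, ha⟩ : ↥D) = d := Subtype.ext he
      rw [h5, ← hxd] at h4
      have h6 : G.c (G.b e) = G.c x := const_of_line (f := fun z : (G.del D).N => G.c z.1) hr
        (c_eq.1 h4)
      rw [← h6, ← he]
      exact (c_line e).symm
    · have ha : G.a e ∉ D := fun ha => h0 e ⟨ha, he.symm ▸ d.2⟩
      have hb : G.b e ∈ D := he.symm ▸ d.2
      have h4 := h2 e hb ha
      have h5 : (⟨G.b e, hb⟩ : ↥D) = d := Subtype.ext he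
      rw [h5, ← hxd] at h4
      have h6 : G.c (G.a e) = G.c x := const_of_line (f := fun z : (G.del D).N => G.c z.1) hr
        (c_eq.1 h4)
      rw [← h6, ← he]
      exact c_line e
  have hC : G.nC = (G.del D).nC := by
    apply Nat.card_congr
    exact {
      toFun := lift q hq
      invFun := lift (G := G.del D) (fun z => G.c z.1) hr
      left_inv := by
        intro c
        obtain ⟨x, rfl⟩ := c_surj c
        show lift (G := G.del D) (fun z => G.c z.1) hr (q x) = G.c x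
        by_cases h : x ∈ D
        · rw [q1 x h]
          obtain ⟨y, hy⟩ := c_surj (pd ⟨x, h⟩)
          rw [← hy]
          show G.c y.1 = G.c x
          exact hpd ⟨x, h⟩ y.1 y.2 hy
        · rw [q2 x h]
          rfl
      right_inv := by
        intro c
        obtain ⟨x, rfl⟩ := c_surj c
        exact q2 x.1 x.2 }
  have hN := G.nN_del D
  have hL : G.nL = (G.del D).nL + Nat.card {e // G.a e ∈ D ∨ G.b e ∈ D} := by
    have e1 := Nat.card_congr (Equiv.sumCompl (fun e : G.L => G.a e ∈ D ∨ G.b e ∈ D))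
    rw [Nat.card_sum] at e1
    have e2 : Nat.card {e // ¬ (G.a e ∈ D ∨ G.b e ∈ D)} = (G.del D).nL :=
      Nat.card_congr (Equiv.subtypeEquivRight (fun e => not_or))
    unfold nL at e2 ⊢
    rw [← e1, e2, add_comm]
  unfold b1
  rw [hC, hL]
  omega

/-- the lines of `A` only, restricted to a set of nodes which contains all their ends -/
theorem b1_sub_part (G : FG) (A : Set G.L) (Bd : Set G.N) (hA : ∀ e ∈ A, G.a e ∈ Bd ∧ G.b e ∈ Bd)
    (hab : ∀ e : (G.sub A).L, ((G.sub A).a e ∈ Bd) = ((G.sub A).b e ∈ Bd)) :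
    (G.sub A).b1 = ((G.sub A).part (fun x => x ∈ Bd) hab True).b1 := by
  classical
  rw [(G.sub A).b1_part (fun x => (x ∈ Bd : Prop)) hab]
  rw [Fintype.sum_eq_single True]
  intro i hi
  have hi : i = False := by
    rcases Classical.propComplete i with h | h
    · exact absurd h hi
    · exact h
  subst hi
  have hL : IsEmpty ((G.sub A).part (fun x => x ∈ Bd) hab False).L := by
    refine ⟨fun e => ?_⟩
    have h1 : G.a e.1.1 ∈ Bd := (hA e.1.1 e.1.2).1
    have h2 : (G.a e.1.1 ∈ Bd) = False := e.2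
    rw [h2] at h1
    exact h1
  have hC : ((G.sub A).part (fun x => x ∈ Bd) hab False).nC =
      ((G.sub A).part (fun x => x ∈ Bd) hab False).nN := by
    apply Nat.card_congr
    exact {
      toFun := lift (fun x => x) (fun e => (hL.false e).elim)
      invFun := fun x => FG.c _ x
      left_inv := by
        intro c
        obtain ⟨x, rfl⟩ := c_surj c
        rfl
      right_inv := fun x => rfl }
  unfold b1
  rw [hC]
  unfold nL
  rw [Nat.card_of_isEmpty]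
  simp

/-- cutting the lines which are not local -/
structure CutD (G R : FG) where
  /-- the local lines -/
  A : Set G.L
  /-- the bad nodes -/
  Bd : Set G.N
  hA : ∀ e ∈ A, G.a e ∈ Bd ∧ G.b e ∈ Bd
  /-- the private ends -/
  D : Set R.N
  nn : {x // x ∉ D} ≃ {x // x ∈ Bd}
  ll : {e // R.a e ∉ D ∧ R.b e ∉ D} ≃ {e // e ∈ A}
  hll : ∀ e : {e // R.a e ∉ D ∧ R.b e ∉ D},
    (G.a (ll e).1 = (nn ⟨R.a e.1, e.2.1⟩).1 ∧ G.b (ll e).1 = (nn ⟨R.b e.1, e.2.2⟩).1) ∨
    (G.a (ll e).1 = (nn ⟨R.b e.1, e.2.2⟩).1 ∧ G.b (ll e).1 = (nn ⟨R.a e.1, e.2.1⟩).1)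
  dd : ∀ e, ¬ (R.a e ∈ D ∧ R.b e ∈ D)
  /-- the local piece of a private end -/
  pb : ↥D → (G.con A).N
  pa : ∀ (e : R.L) (ha : R.a e ∈ D) (hb : R.b e ∉ D),
    (G.sub A).c (nn ⟨R.b e, hb⟩).1 = pb ⟨R.a e, ha⟩
  pa' : ∀ (e : R.L) (hb : R.b e ∈ D) (ha : R.a e ∉ D),
    (G.sub A).c (nn ⟨R.a e, ha⟩).1 = pb ⟨R.b e, hb⟩
  pe : ∀ d : ↥D, ∃ e, R.a e = d.1 ∨ R.b e = d.1
  hh : Nat.card {e // R.a e ∈ D ∨ R.b e ∈ D} =
    Nat.card {e // e ∉ A ∧ G.a e ∈ Bd} + Nat.card {e // e ∉ A ∧ G.b e ∈ Bd}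

namespace CutD

variable {G R : FG} (c : CutD G R)

theorem hab (e : (G.sub c.A).L) : ((G.sub c.A).a e ∈ c.Bd) = ((G.sub c.A).b e ∈ c.Bd) := by
  apply propext
  exact ⟨fun _ => (c.hA e.1 e.2).2, fun _ => (c.hA e.1 e.2).1⟩

/-- the bad nodes of the contracted graph -/
def Bc : Set (G.con c.A).N := {P | ∃ x ∈ c.Bd, (G.sub c.A).c x = P}

theorem mem_Bc {x : G.N} : (G.sub c.A).c x ∈ c.Bc ↔ x ∈ c.Bd := by
  constructor
  · rintro ⟨y, hy, h⟩
    have h1 : (y ∈ c.Bd) = (x ∈ c.Bd) :=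
      const_of_line (G := G.sub c.A) (f := fun z => (z ∈ c.Bd : Prop)) c.hab (c_eq.1 h)
    rw [← h1]
    exact hy
  · intro h
    exact ⟨x, h, rfl⟩

/-- the part of the cut graph without the private ends -/
noncomputable def iso : Iso (R.del c.D) ((G.sub c.A).part (fun x => x ∈ c.Bd) c.hab True) where
  n := c.nn.trans (Equiv.subtypeEquivRight (fun _ => ⟨fun h => eq_true h, fun h => of_eq_true h⟩))
  l := c.ll.trans (by
    refine (Equiv.ofBijective (fun e : {e // e ∈ c.A} =>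
      (⟨e, eq_true (c.hA e.1 e.2).1⟩ : ((G.sub c.A).part (fun x => x ∈ c.Bd) c.hab True).L)) ?_)
    constructor
    · intro e e' h
      exact congrArg Subtype.val h
    · rintro ⟨e, he⟩
      exact ⟨e, rfl⟩)
  h e := by
    rcases c.hll e with ⟨h1, h2⟩ | ⟨h1, h2⟩
    · exact Or.inl ⟨Subtype.ext h1, Subtype.ext h2⟩
    · exact Or.inr ⟨Subtype.ext h1, Subtype.ext h2⟩

/-- nodes with the same local piece are connected in the cut graph -/
theorem c_of {x y : G.N} (h : (G.sub c.A).c x = (G.sub c.A).c y) (hx : x ∈ c.Bd) (hy : y ∈ c.Bd) :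
    (R.del c.D).c (c.nn.symm ⟨x, hx⟩) = (R.del c.D).c (c.nn.symm ⟨y, hy⟩) := by
  have h1 : ((G.sub c.A).part (fun x => x ∈ c.Bd) c.hab True).c ⟨x, eq_true hx⟩ =
      ((G.sub c.A).part (fun x => x ∈ c.Bd) c.hab True).c ⟨y, eq_true hy⟩ :=
    part_c c.hab (c_eq.1 h) (eq_true hx) (eq_true hy)
  have h2 := congrArg (fun z => c.iso.symm.C z) h1
  exact h2

theorem b1_del : (R.del c.D).b1 = (G.sub c.A).b1 := by
  rw [c.iso.b1, ← G.b1_sub_part c.A c.Bd c.hA c.hab]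

theorem pb_mem (d : ↥c.D) : c.pb d ∈ c.Bc := by
  obtain ⟨e, he | he⟩ := c.pe d
  · have ha : R.a e ∈ c.D := he.symm ▸ d.2
    have hb : R.b e ∉ c.D := fun hb => c.dd e ⟨ha, hb⟩
    have h1 := c.pa e ha hb
    have h2 : (⟨R.a e, ha⟩ : ↥c.D) = d := Subtype.ext he
    rw [h2] at h1
    rw [← h1]
    exact c.mem_Bc.2 (c.nn ⟨R.b e, hb⟩).2
  · have hb : R.b e ∈ c.D := he.symm ▸ d.2
    have ha : R.a e ∉ c.D := fun ha => c.dd e ⟨ha, hb⟩
    have h1 := c.pa' e hb ha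
    have h2 : (⟨R.b e, hb⟩ : ↥c.D) = d := Subtype.ext he
    rw [h2] at h1
    rw [← h1]
    exact c.mem_Bc.2 (c.nn ⟨R.a e, ha⟩).2

/-- the number of private ends at a local piece -/
noncomputable def eP (P : (G.con c.A).N) : ℕ := Nat.card {d : ↥c.D // c.pb d = P}

theorem b1_R : R.b1 = (G.sub c.A).b1 + Nat.card {e // R.a e ∈ c.D ∨ R.b e ∈ c.D} -
    Nat.card ↥c.D := by
  classical
  -- a component for every private end
  have key : ∀ d : ↥c.D, ∃ z : (R.del c.D).C, ∀ x : {x // x ∉ c.D},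
      (G.sub c.A).c (c.nn x).1 = c.pb d → (R.del c.D).c x = z := by
    intro d
    obtain ⟨e, he | he⟩ := c.pe d
    · have ha : R.a e ∈ c.D := he.symm ▸ d.2
      have hb : R.b e ∉ c.D := fun hb => c.dd e ⟨ha, hb⟩
      have h1 := c.pa e ha hb
      have h2 : (⟨R.a e, ha⟩ : ↥c.D) = d := Subtype.ext he
      rw [h2] at h1
      refine ⟨(R.del c.D).c ⟨R.b e, hb⟩, fun x hx => ?_⟩
      have h3 := c.c_of (hx.trans h1.symm) (c.nn x).2 (c.nn ⟨R.b e, hb⟩).2
      rwa [Subtype.coe_eta, Subtype.coe_eta, Equiv.symm_apply_apply, Equiv.symm_apply_apply] at h3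
    · have hb : R.b e ∈ c.D := he.symm ▸ d.2
      have ha : R.a e ∉ c.D := fun ha => c.dd e ⟨ha, hb⟩
      have h1 := c.pa' e hb ha
      have h2 : (⟨R.b e, hb⟩ : ↥c.D) = d := Subtype.ext he
      rw [h2] at h1
      refine ⟨(R.del c.D).c ⟨R.a e, ha⟩, fun x hx => ?_⟩
      have h3 := c.c_of (hx.trans h1.symm) (c.nn x).2 (c.nn ⟨R.a e, ha⟩).2
      rwa [Subtype.coe_eta, Subtype.coe_eta, Equiv.symm_apply_apply, Equiv.symm_apply_apply] at h3
  choose pd hpd using key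
  rw [R.b1_pol c.D c.dd pd (fun e ha hb => hpd ⟨R.a e, ha⟩ ⟨R.b e, hb⟩ (c.pa e ha hb))
    (fun e hb ha => hpd ⟨R.b e, hb⟩ ⟨R.a e, ha⟩ (c.pa' e hb ha)) c.pe, c.b1_del]

/-- the number of the half-lines -/
theorem card_half [Fintype (G.con c.A).N] [DecidablePred (· ∈ c.Bc)] :
    Nat.card {e // R.a e ∈ c.D ∨ R.b e ∈ c.D} =
      ∑ P, (if P ∈ c.Bc then (G.con c.A).deg P else 0) := by
  rw [(G.con c.A).sum_deg_set c.Bc, c.hh]
  congr 1
  · apply Nat.card_congr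
    exact {
      toFun := fun e => ⟨⟨e.1, e.2.1⟩, c.mem_Bc.2 e.2.2⟩
      invFun := fun e => ⟨e.1.1, e.1.2, c.mem_Bc.1 e.2⟩
      left_inv := fun _ => rfl
      right_inv := fun _ => rfl }
  · apply Nat.card_congr
    exact {
      toFun := fun e => ⟨⟨e.1, e.2.1⟩, c.mem_Bc.2 e.2.2⟩
      invFun := fun e => ⟨e.1.1, e.1.2, c.mem_Bc.1 e.2⟩
      left_inv := fun _ => rfl
      right_inv := fun _ => rfl }

/-- the number of the private ends -/
theorem card_D [Fintype (G.con c.A).N] [DecidablePred (· ∈ c.Bc)] :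
    Nat.card ↥c.D = ∑ P, (if P ∈ c.Bc then c.eP P else 0) := by
  rw [card_fib c.pb]
  apply Finset.sum_congr rfl
  intro P _
  split_ifs with h
  · rfl
  · have : IsEmpty {d // c.pb d = P} := ⟨fun d => h (d.2 ▸ c.pb_mem d.1)⟩
    exact Nat.card_of_isEmpty

/-- THE EXCESS AFTER THE CUT -/
theorem exc_eq [Fintype (G.con c.A).N] [DecidablePred (· ∈ c.Bc)] :
    (Nat.card {e // R.a e ∈ c.D ∨ R.b e ∈ c.D} : ℤ) - Nat.card ↥c.D =
      ∑ P, (if P ∈ c.Bc then ((G.con c.A).deg P : ℤ) - c.eP P else 0) := by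
  rw [c.card_half, c.card_D]
  push_cast
  rw [← Finset.sum_sub_distrib]
  apply Finset.sum_congr rfl
  intro P _
  split_ifs
  · rfl
  · simp

/-- THE LAW -/
theorem law [Fintype (G.con c.A).N] [DecidablePred (· ∈ c.Bc)] : R.b1 + (G.con c.A).b1 = G.b1 +
    ∑ P, (if P ∈ c.Bc then ((G.con c.A).deg P : ℤ) - c.eP P else 0) := by
  rw [← c.exc_eq, c.b1_R, G.b1_con c.A]
  ring

end CutD

end FG

end Pool.Agent.DI
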