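import Pool.Agent.DI.PoJ

/-!
# DI/PoK: the two poles of a top are joined without its own square

`P.Ck r x c z`: a corner of a pentagon, or a corner of a square with a top of rank `> r` at a side or at the
partner. `P45.SqT.top_join`: in a minimal complex with squares and `1 ≤ X` the poles of a top `T` are
joined in the link of `T` by such corners (`r = rk T`), so without the squares with the top `T`. The proof is
the proof of `pole_join` (PoJ).
-/

namespace Pool.Agent.DI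

open MulAction

namespace P45

variable {H V : Type} [Group H] [MulAction H V] {K : GX H V} {P : P45 K}

/-- corners of pentagons and of squares with a top of rank `> r`, not at the top -/
def Ck (P : P45 K) (r : ℕ) (x c z : V) : Prop := (∃ u w, Qn P x c z u w) ∨
  ∃ T s s' y, P.Top T s s' y ∧ r < K.rk T ∧ ((c = y ∧ x = s ∧ z = s') ∨ (c = s ∧ x = T ∧ z = y) ∨
    (c = s ∧ x = y ∧ z = T))

theorem Ck.symm {r : ℕ} {x c z : V} (h : P.Ck r x c z) : P.Ck r z c x := by
  rcases h with ⟨u, w, h⟩ | ⟨T, s, s', y, h, hr, ⟨h1, h2, h3⟩ | ⟨h1, h2, h3⟩ | ⟨h1, h2, h3⟩⟩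
  · exact Or.inl ⟨w, u, h.symm⟩
  · exact Or.inr ⟨T, s', s, y, h.symm', hr, Or.inl ⟨h1, h3, h2⟩⟩
  · exact Or.inr ⟨T, s, s', y, h, hr, Or.inr (Or.inr ⟨h1, h3, h2⟩)⟩
  · exact Or.inr ⟨T, s, s', y, h, hr, Or.inr (Or.inl ⟨h1, h3, h2⟩)⟩

theorem Ck.cor {r : ℕ} {x c z : V} (h : P.Ck r x c z) : K.Cor x c z := by
  rcases h with ⟨u, w, h⟩ | ⟨T, s, s', y, h, hr, ⟨h1, h2, h3⟩ | ⟨h1, h2, h3⟩ | ⟨h1, h2, h3⟩⟩
  · exact P.cor_iff.2 (Or.inl ⟨_, _, h⟩)
  · rw [h1, h2, h3]
    exact h.cor_y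
  · rw [h1, h2, h3]
    exact h.cor_s
  · rw [h1, h2, h3]
    exact h.cor_s.symm

theorem Top.ck_y {r : ℕ} {T s s' y : V} (h : P.Top T s s' y) (hr : r < K.rk T) : P.Ck r s y s' :=
  Or.inr ⟨T, s, s', y, h, hr, Or.inl ⟨rfl, rfl, rfl⟩⟩

theorem Top.ck_s {r : ℕ} {T s s' y : V} (h : P.Top T s s' y) (hr : r < K.rk T) : P.Ck r T s y :=
  Or.inr ⟨T, s, s', y, h, hr, Or.inr (Or.inl ⟨rfl, rfl, rfl⟩)⟩

/-- joined in the link of `v` by such corners -/
def LK (P : P45 K) (r : ℕ) (v x y : V) : Prop := Relation.EqvGen (fun x y => P.Ck r x v y) x y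

/-- the flags over `v` which are joined to `a` -/
inductive PK (P : P45 K) (v a : V) : V → V → Prop
  | base (n : V) : K.E v n → P.LK (K.rk v) v a n → PK P v a v n
  | up (T s s' y n : V) : P.Top T s s' y → K.rk v < K.rk T → PK P v a y s → K.E T n →
      P.LK (K.rk v) T s n → PK P v a T n

theorem PK.at {v a n : V} (h : PK P v a v n) : P.LK (K.rk v) v a n := by
  cases h with
  | base _ h1 h2 => exact h2
  | up _ s s' y _ h1 h2 => exact absurd h2 (lt_irrefl _)

theorem PK.cor {v a c n m : V} (h : PK P v a c n) (k : P.Ck (K.rk v) n c m) : PK P v a c m := by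
  cases h with
  | base _ h1 h2 => exact PK.base _ k.cor.E2 (h2.trans _ _ _ (Relation.EqvGen.rel _ _ k))
  | up _ s s' y _ h1 h2 h3 h4 h5 =>
    exact PK.up _ s s' y _ h1 h2 h3 k.cor.E2 (h5.trans _ _ _ (Relation.EqvGen.rel _ _ k))

namespace SqT

variable (hT : P.SqT)

include hT

theorem pk_iff {v a T s s' y : V} (t : P.Top T s s' y) (hr : K.rk v < K.rk T) :
    PK P v a T s ↔ PK P v a y s := by
  constructor
  · intro h
    cases h with
    | base _ h1 h2 => exact absurd hr (lt_irrefl _)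
    | up _ s1 s1' y1 _ h1 h2 h3 h4 h5 =>
      have e := hT.partner h1 t
      subst e
      rcases hT.sides t h1.2.1 with e | e
      · rw [← e]
        exact h3
      · rw [e] at h3
        exact h3.cor (t.symm'.ck_y hr)
  · intro h
    exact PK.up _ s s' y _ t hr h (Or.inl t.2.1) (Relation.EqvGen.refl _)

/-- flags over `v` are moved down to a flag with an unfolded leg -/
theorem pk_norm {v a : V} : ∀ (k : ℕ) (c n : V), K.rk c + K.rk n ≤ k → K.E c n →
    (hT.fr (K.rk v)).f c = (hT.fr (K.rk v)).f v →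
    ∃ c', (hT.fr (K.rk v)).f c' = (hT.fr (K.rk v)).f v ∧ K.E c' ((hT.fr (K.rk v)).f n).1 ∧
      (PK P v a c n ↔ PK P v a c' ((hT.fr (K.rk v)).f n).1) ∧
      (c' = v ∨ (K.ar ((hT.fr (K.rk v)).f n).1 c' ∧ K.rk v < K.rk c')) := by
  intro k
  induction k with
  | zero =>
    intro c n h1 h2
    rcases h2 with h | h
    · have := K.ar_rk _ _ h
      omega
    · have := K.ar_rk _ _ h
      omega
  | succ k ih =>
    intro c n h1 h2 h3
    have hc : c = v ∨ ((∃ s s' y, P.Top c s s' y) ∧ K.rk v < K.rk c) := by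
      by_cases hz : (hT.fr (K.rk v)).Z c
      · exact Or.inr hz
      · left
        have e := congrArg Subtype.val h3
        rw [(hT.fr (K.rk v)).f_not hz, show ((hT.fr (K.rk v)).f v).1 = v from hT.fr_not le_rfl] at e
        exact e
    by_cases hn : (hT.fr (K.rk v)).Z n
    · obtain ⟨⟨s, s', y, t⟩, hr⟩ := hn
      rcases h2 with h2 | h2
      · -- `c → n`
        have hcn := K.ar_rk _ _ h2
        rcases hc with rfl | ⟨⟨s1, s1', y1, t1⟩, hr1⟩
        · omega
        · have key : ∃ s2', P.Top c n s2' y1 := by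
            rcases hT.sides t1 h2 with e | e
            · rw [e]; exact ⟨_, t1⟩
            · rw [e]; exact ⟨_, t1.symm'⟩
          obtain ⟨s2', t2⟩ := key
          have h4 := hT.rk_lt t2
          have h5 := hT.fr_f t2 hr1
          obtain ⟨c', k1, k2, k3, k4⟩ := ih y1 n (by omega) t2.Ea.symm (h5.symm.trans h3)
          exact ⟨c', k1, k2, (hT.pk_iff t2 hr1).trans k3, k4⟩
      · -- `n → c`: a side of the top `n`
        have key : ∃ s2', P.Top n c s2' y := by
          rcases hT.sides t h2 with e | e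
          · rw [e]; exact ⟨_, t⟩
          · rw [e]; exact ⟨_, t.symm'⟩
        obtain ⟨s2', t2⟩ := key
        have h4 := hT.rk_lt t2
        have h5 := hT.fr_f t2 hr
        obtain ⟨c', k1, k2, k3, k4⟩ := ih c y (by omega) t2.Ea h3
        rw [← h5] at k2 k3 k4
        exact ⟨c', k1, k2, (Iff.intro (fun h => h.cor (t2.ck_s hr)) (fun h => h.cor (t2.ck_s hr).symm)).trans
          k3, k4⟩
    · have en : ((hT.fr (K.rk v)).f n).1 = n := by rw [(hT.fr (K.rk v)).f_not hn]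
      rw [en]
      rcases hc with rfl | ⟨⟨s1, s1', y1, t1⟩, hr1⟩
      · exact ⟨c, rfl, h2, Iff.rfl, Or.inl rfl⟩
      · rcases h2 with h2 | h2
        · have key : ∃ s2', P.Top c n s2' y1 := by
            rcases hT.sides t1 h2 with e | e
            · rw [e]; exact ⟨_, t1⟩
            · rw [e]; exact ⟨_, t1.symm'⟩
          obtain ⟨s2', t2⟩ := key
          have h4 := hT.rk_lt t2
          have h5 := hT.fr_f t2 hr1
          obtain ⟨c', k1, k2, k3, k4⟩ := ih y1 n (by omega) t2.Ea.symm (h5.symm.trans h3)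
          rw [en] at k2 k3 k4
          exact ⟨c', k1, k2, (hT.pk_iff t2 hr1).trans k3, k4⟩
        · exact ⟨c, h3, Or.inr h2, Iff.rfl, Or.inr ⟨h2, hr1⟩⟩

/-- flags with the same image in a pentagon -/
theorem pk_cons (hm : K.Min) {v a c n c1 n1 : V} (e : K.E c n) (e1 : K.E c1 n1)
    (h : (hT.fr (K.rk v)).f c = (hT.fr (K.rk v)).f v)
    (h1 : (hT.fr (K.rk v)).f c1 = (hT.fr (K.rk v)).f v)
    (hn : (hT.fr (K.rk v)).f n = (hT.fr (K.rk v)).f n1)
    (hp : ∃ i, ((hT.fr (K.rk v)).gx P).Long i ∧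
      ((hT.fr (K.rk v)).gx P).Pass i ((hT.fr (K.rk v)).f n) ((hT.fr (K.rk v)).f v)) :
    PK P v a c n ↔ PK P v a c1 n1 := by
  obtain ⟨c', k1, k2, k3, k4⟩ := hT.pk_norm (a := a) _ c n le_rfl e h
  obtain ⟨c1', l1, l2, l3, l4⟩ := hT.pk_norm (a := a) _ c1 n1 le_rfl e1 h1
  rw [← hn] at l2 l3 l4
  have main : c' = c1' := by
    by_contra hne
    obtain ⟨i, hi, hp⟩ := hp
    have hv : ((hT.fr (K.rk v)).f v).1 = v := hT.fr_not le_rfl
    -- both are poles
    have pole : ∀ {d d' : V}, K.E d ((hT.fr (K.rk v)).f n).1 → (d = v ∨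
        (K.ar ((hT.fr (K.rk v)).f n).1 d ∧ K.rk v < K.rk d)) → (d' = v ∨
        (K.ar ((hT.fr (K.rk v)).f n).1 d' ∧ K.rk v < K.rk d')) → d ≠ d' →
        K.ar ((hT.fr (K.rk v)).f n).1 d := by
      rintro d d' g1 (rfl | ⟨g2, g3⟩) g4 g5
      · rcases g1 with g1 | g1
        · rcases g4 with rfl | ⟨g4, g6⟩
          · exact absurd rfl g5
          · have r1 := K.ar_rk _ _ g1
            have r2 := K.ar_rk _ _ g4
            omega
        · exact g1
      · exact g2
    have p1 := pole k2 k4 l4 hne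
    have p2 := pole l2 l4 k4 (Ne.symm hne)
    refine ((hT.fr (K.rk v)).gx_min P hm).hair (x := (hT.fr (K.rk v)).f n)
      (c := (hT.fr (K.rk v)).f v) ⟨c', p1, k1⟩ ?_ hi hp
    rintro d ⟨d', hd, rfl⟩
    rcases GX.Sft.cases p1 p2 hne hd with e | e
    · rw [e]
      exact k1
    · rw [e]
      exact l1
  rw [k3, l3, main]

/-- the pull back of a path of corners of pentagons -/
theorem pk_path (hm : K.Min) {v a : V} {x x' : (hT.fr (K.rk v)).W}
    (h : Relation.EqvGen (((hT.fr (K.rk v)).p45 P).RC ((hT.fr (K.rk v)).f v)) x x') :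
    (∀ c n, (hT.fr (K.rk v)).f c = (hT.fr (K.rk v)).f v → K.E c n → (hT.fr (K.rk v)).f n = x →
      PK P v a c n) ↔
    (∀ c n, (hT.fr (K.rk v)).f c = (hT.fr (K.rk v)).f v → K.E c n → (hT.fr (K.rk v)).f n = x' →
      PK P v a c n) := by
  have one : ∀ {x x'}, ((hT.fr (K.rk v)).p45 P).RC ((hT.fr (K.rk v)).f v) x x' →
      (∀ c n, (hT.fr (K.rk v)).f c = (hT.fr (K.rk v)).f v → K.E c n → (hT.fr (K.rk v)).f n = x →
        PK P v a c n) → ∀ c n, (hT.fr (K.rk v)).f c = (hT.fr (K.rk v)).f v → K.E c n →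
        (hT.fr (K.rk v)).f n = x' → PK P v a c n := by
    rintro x x' ⟨y, z, k⟩ hx c n h1 h2 h3
    obtain ⟨i, hi, hp⟩ := k.symm.pass
    obtain ⟨x0, q0, z0, y0, w0, k1, rfl, k2, rfl, -, -⟩ := (hT.fr (K.rk v)).h_qn_back k
    have k3 := hx q0 x0 k2 k1.E1.symm rfl
    have k4 := k3.cor (Or.inl ⟨_, _, k1⟩)
    exact (hT.pk_cons hm k1.E2 h2 k2 h1 h3.symm ⟨i, hi, hp⟩).1 k4
  induction h with
  | rel x y k => exact ⟨one k, one k.symm⟩
  | refl x => exact Iff.rfl
  | symm x y _ ih => exact ih.symm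
  | trans x y z _ _ i1 i2 => exact i1.trans i2

/-- THE TWO POLES OF A TOP ARE JOINED WITHOUT ITS OWN SQUARE -/
theorem top_join (hm : K.Min) (hx : ∀ p ∈ P.TA, 1 ≤ P.X p.1 p.2) {T a b y : V}
    (h : P.Top T a b y) : P.LK (K.rk T) T a b := by
  have hj := hT.joined hm hx h
  set F := hT.fr (K.rk T) with hF
  have ea : (F.f a).1 = a := hT.fr_not (K.ar_rk _ _ h.2.1).le
  have h1 := (hT.pk_path hm (a := a) hj).1 (by
    intro c n k1 k2 k3
    obtain ⟨c', l1, l2, l3, l4⟩ := hT.pk_norm (a := a) _ c n le_rfl k2 k1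
    rw [show ((hT.fr (K.rk T)).f n).1 = a from by rw [k3]; exact ea] at l2 l3 l4
    rcases l4 with rfl | ⟨l4, l5⟩
    · exact l3.2 (PK.base _ (Or.inl h.2.1) (Relation.EqvGen.refl _))
    · have r1 := K.ar_rk _ _ l4
      have r2 := K.ar_rk _ _ h.2.1
      omega)
  exact (h1 T b rfl (Or.inl h.2.2) rfl).at

end SqT

end P45

end Pool.Agent.DI
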