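import Pool.Agent.DI.SfD
import Pool.Agent.DI.PoK

/-!
# DI/SfL: the links of the static fold of one thin top

`F : P.SfD`, `hs : P.SqT`. `F.NoOne hs`: the two sides of a top stay different. `F.lj`: joined vertices of a
link have joined images; `F.lc`: the links of `F.gx hs` are connected.
-/

namespace Pool.Agent.DI

open MulAction
open Pool.Agent.SAF (InC SA orbs FinOrb oc)

namespace P45.SfD

variable {H V : Type} [Group H] [MulAction H V] {K : GX H V} {P : P45 K} (F : P.SfD) (hs : P.SqT)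

/-- the sides of a top stay different -/
def NoOne : Prop := ∀ T s s' z, P.Top T s s' z → F.f hs s ≠ F.f hs s'

/-- the rank of the image -/
theorem rk_f (x : V) : K.rk (F.f hs x).1 ≤ K.rk x := (F.D hs).toF.rk_f x

/-- only the own squares identify the top and the partner -/
theorem own {T s s' z : V} (t : P.Top T s s' z) (e : F.f hs T = F.f hs z) : ∃ h : H, T = h • F.T := by
  rcases F.f_cases hs T with h1 | ⟨h, h1, -⟩
  · exfalso
    have e' : T = (F.f hs z).1 := by rw [← e, h1]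
    rcases F.f_cases hs z with h2 | ⟨g, h2, h3⟩
    · rw [h2] at e'
      exact hs.nTy _ _ _ _ t e'
    · have h4 := F.rk_f hs z
      rw [← e'] at h4
      have h5 := hs.rk_lt t
      omega
  · exact ⟨h, h1⟩

/-- corners of pentagons -/
theorem cor5 {a v b y z : V} (h : Qn P a v b y z) : (F.gx hs).Cor (F.f hs a) (F.f hs v) (F.f hs b) :=
  (F.P' hs).cor_iff.2 (Or.inl ⟨F.f hs y, F.f hs z,
    ((F.D hs).flat.Qn_iff P).2 ⟨_, _, _, _, _, h, rfl, rfl, rfl, rfl, rfl⟩⟩)

/-- corners of squares without equal opposite vertices -/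
theorem cor4 {a v b y : V} (h : Q4 P a v b y) (h1 : F.f hs a ≠ F.f hs b) (h2 : F.f hs v ≠ F.f hs y) :
    (F.gx hs).Cor (F.f hs a) (F.f hs v) (F.f hs b) :=
  (F.P' hs).cor_iff.2 (Or.inr ⟨F.f hs y,
    ((F.D hs).flat.Q4_iff P).2 ⟨_, _, _, _, h, rfl, rfl, rfl, rfl, h1, h2⟩⟩)

variable {hs} (h1 : F.NoOne hs) (hm : K.Min) (hx : ∀ p ∈ P.TA, 1 ≤ P.X p.1 p.2)

include h1 hm hx

/-- the poles of the folded top are joined -/
theorem join_T : (F.gx hs).LJ (F.f hs F.T) (F.f hs F.a) (F.f hs F.b) := by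
  have low : ∀ {T s s' y : V}, P.Top T s s' y → K.rk F.T < K.rk T → F.f hs T ≠ F.f hs y := by
    intro T s s' y t hr e
    obtain ⟨h, hh⟩ := F.own hs t e
    rw [hh, K.rk_smul] at hr
    exact lt_irrefl _ hr
  have two : ∀ {T s s' y : V}, P.Top T s s' y → K.rk F.T < K.rk T →
      (F.gx hs).Cor (F.f hs T) (F.f hs s) (F.f hs y) := by
    intro T s s' y t hr
    exact F.cor4 hs t.1.rot.rot.rot.symm (low t hr) (h1 _ _ _ _ t)
  have key : ∀ x z, P.Ck (K.rk F.T) x F.T z → (F.gx hs).LJ (F.f hs F.T) (F.f hs x) (F.f hs z) := by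
    rintro x z (⟨u, w, h⟩ | ⟨T, s, s', y, t, hr, ⟨e1, rfl, rfl⟩ | ⟨e1, rfl, rfl⟩ | ⟨e1, rfl, rfl⟩⟩)
    · exact Relation.EqvGen.rel _ _ (F.cor5 hs h)
    · refine Relation.EqvGen.rel _ _ ?_
      rw [e1]
      exact F.cor4 hs t.1.rot.rot.symm (h1 _ _ _ _ t) (low t hr).symm
    · refine Relation.EqvGen.rel _ _ ?_
      rw [e1]
      exact two t hr
    · refine Relation.EqvGen.rel _ _ ?_
      rw [e1]
      exact (two t hr).symm
  have hj := hs.top_join hm hx F.top
  have map : ∀ {x z}, P.LK (K.rk F.T) F.T x z → (F.gx hs).LJ (F.f hs F.T) (F.f hs x) (F.f hs z) := by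
    intro x z h
    induction h with
    | rel x z h => exact key x z h
    | refl x => exact Relation.EqvGen.refl _
    | symm x z _ ih => exact ih.symm
    | trans x y z _ _ i1 i2 => exact i1.trans _ _ _ i2
  exact map hj

theorem join_hT (h : H) : (F.gx hs).LJ (F.f hs (h • F.T)) (F.f hs (h • F.a)) (F.f hs (h • F.b)) := by
  have k := (F.join_T h1 hm hx).smul h
  rwa [← F.f_smul, ← F.f_smul, ← F.f_smul] at k

/-- the sides of a translate of the folded top -/
theorem join_top {T s s' z : V} (t : P.Top T s s' z) (e : F.f hs T = F.f hs z) :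
    (F.gx hs).LJ (F.f hs T) (F.f hs s) (F.f hs s') := by
  obtain ⟨h, rfl⟩ := F.own hs t e
  have t0 := F.top.smul h
  have k := F.join_hT h1 hm hx h
  rcases hs.sides t0 t.2.1 with e1 | e1 <;> rcases hs.sides t0 t.2.2 with e2 | e2
  · rw [e1, e2]
    exact Relation.EqvGen.refl _
  · rw [e1, e2]
    exact k
  · rw [e1, e2]
    exact k.symm
  · rw [e1, e2]
    exact Relation.EqvGen.refl _

/-- THE IMAGE OF A LINK -/
theorem lj_cor {a v b : V} (h : K.Cor a v b) : (F.gx hs).LJ (F.f hs v) (F.f hs a) (F.f hs b) := by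
  rcases P.cor_iff.1 h with ⟨y, z, h⟩ | ⟨y, h⟩
  · exact Relation.EqvGen.rel _ _ (F.cor5 hs h)
  · by_cases e1 : F.f hs a = F.f hs b
    · rw [e1]
      exact Relation.EqvGen.refl _
    · by_cases e2 : F.f hs v = F.f hs y
      · rcases hs.q4 h with t | t | t | t
        · exact absurd e2.symm (h1 _ _ _ _ t)
        · exact F.join_top h1 hm hx t e2
        · exact absurd e2 (h1 _ _ _ _ t)
        · rw [e2]
          exact (F.join_top h1 hm hx t e2.symm).symm
      · exact Relation.EqvGen.rel _ _ (F.cor4 hs h e1 e2)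

theorem lj {v a b : V} (h : K.LJ v a b) : (F.gx hs).LJ (F.f hs v) (F.f hs a) (F.f hs b) := by
  induction h with
  | rel a b h => exact F.lj_cor h1 hm hx h
  | refl a => exact Relation.EqvGen.refl _
  | symm a b _ ih => exact ih.symm
  | trans a b c _ _ i1 i2 => exact i1.trans _ _ _ i2

/-- THE LINKS OF THE FOLD ARE CONNECTED -/
theorem lc (hl : ∀ v, K.LC v) (c : F.W hs) : (F.gx hs).LC c := by
  -- a neighbour of `c` comes from an edge over `c`
  have nb : ∀ {d : F.W hs}, (F.gx hs).E c d → ∃ x n, K.E x n ∧ F.f hs x = c ∧ F.f hs n = d := by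
    rintro d (⟨x, k, rfl⟩ | ⟨x, k, e⟩)
    · exact ⟨c.1, x, Or.inl k, F.f_coe hs c, rfl⟩
    · exact ⟨x, d.1, Or.inr k, e, F.f_coe hs d⟩
  -- it is joined to the image of a neighbour of `c.1`
  have key : ∀ {x n : V}, K.E x n → F.f hs x = c → ∃ m, K.E c.1 m ∧
      (F.gx hs).LJ c (F.f hs n) (F.f hs m) := by
    intro x n e hxc
    rcases F.f_cases hs x with k | ⟨h, rfl, k⟩
    · rw [hxc] at k
      rw [← k] at e
      exact ⟨n, e, Relation.EqvGen.refl _⟩
    · rw [hxc] at k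
      refine ⟨h • F.a, ?_, ?_⟩
      · rw [k]
        exact K.E_smul h F.top.Ea.symm
      · have j := F.lj h1 hm hx (hl _ _ (h • F.a) e (Or.inl (K.ar_smul h _ _ F.top.2.1)))
        rwa [hxc] at j
  intro a b ha hb
  obtain ⟨x, n, e1, e2, rfl⟩ := nb ha
  obtain ⟨x', n', e1', e2', rfl⟩ := nb hb
  obtain ⟨m, k1, k2⟩ := key e1 e2
  obtain ⟨m', k1', k2'⟩ := key e1' e2'
  have j := F.lj h1 hm hx (hl c.1 m m' k1 k1')
  rw [F.f_coe] at j
  exact (k2.trans _ _ _ j).trans _ _ _ k2'.symm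

end P45.SfD

end Pool.Agent.DI
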