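import Pool.Agent.DI.SfE
import Pool.Agent.DI.SfL

/-!
# DI/SfE2: the static law of exc, the inputs (owner: helper79)

`h.pinj`: no vertex gets one pole in the fold (52's `Sq1.one`, connected links); `h.os`: a kept corner
`(x, T, b)` with `x` in the piece of `a` of the fold (16's `top_join`). THEOREM `F.exc_le` for `F : P.SfD`:
`P.exc ≤ (F.P' _).exc`.
-/

namespace Pool.Agent.DI

open MulAction
open Pool.Agent.SAF (InC orbs FinOrb oc mk_eq_iff FinOrb_iff)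

variable {H V : Type} [Group H] [MulAction H V] {K : GX H V}

/-- a flag of a pentagon with a given corner -/
theorem Qn_fl79 {P : P45 K} {a q b y z : V} (h : Qn P a q b y z) : ∃ f : FL K,
    ∃ _ : ¬ P.sq f.1.1.1, P45.fx f = a ∧ P45.fy f = q ∧ P45.fz f = b := by
  obtain ⟨g, i, j, hi, ⟨rfl, rfl, rfl, -⟩ | ⟨rfl, rfl, rfl, -⟩⟩ := h
  · exact ⟨(P.l5 i hi j g, true), hi, P.c0_5 i hi j g, P.c1_5 i hi j g, P.c2_5 i hi j g⟩
  · exact ⟨(P.l5 i hi j g, false), hi, P.c2_5 i hi j g, P.c1_5 i hi j g, P.c0_5 i hi j g⟩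

namespace Sq1.Sf

variable {D : Sq1 K} {P : P45 K} {a b : V} (h : D.Sf P a b)

include h

/-- NO VERTEX GETS ONE POLE -/
theorem pinj (hl : ∀ v, K.LC v) : ∀ p c d, K.ar p c → K.ar p d → D.toF.F c = D.toF.F d → c = d := by
  intro p c d hc hd e
  by_contra hne
  refine D.one h.cls h.min h.top hc hd hne e ?_
  -- a corner at the edge
  have hx : ∃ x, K.Cor x p c := by
    by_contra hx
    have key : ∀ m n, K.LJ p m n → (m = c ↔ n = c) := by
      intro m n k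
      induction k with
      | rel m n k =>
        constructor
        · rintro rfl
          exact absurd ⟨n, k.symm⟩ hx
        · rintro rfl
          exact absurd ⟨m, k⟩ hx
      | refl m => exact Iff.rfl
      | symm m n _ ih => exact ih.symm
      | trans m n l _ _ i1 i2 => exact i1.trans i2
    exact hne ((key c d (hl p c d (Or.inl hc) (Or.inl hd))).1 rfl).symm
  obtain ⟨x, hx⟩ := hx
  rcases P.cor_iff.1 hx with ⟨u, v, k⟩ | ⟨q, k⟩
  · exact Or.inl ⟨x, u, v, k⟩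
  · rcases k.E1 with k1 | k1
    · exact Or.inr ⟨x, q, k, k1⟩
    · have t : P.Top p c x q := ⟨k.symm, hc, k1⟩
      rcases P45.hw_strand (h.cls.x1 (p, c) ⟨x, q, t⟩) with ⟨n, u, v, hq⟩ | ⟨n, q, hq, hn⟩
      · exact Or.inl ⟨n, u, v, hq⟩
      · exact Or.inr ⟨n, q, hq, hn⟩

/-- A KEPT CORNER at the folded top between `b` and the piece of `a` of the fold -/
theorem os (ay : K.ar a D.y) : ∃ t : P.WL, h.M.Kp t ∧ (P.wfc h.ndK).y t = D.T ∧
    (P.wfc h.ndK).z t = b ∧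
    D.toF.gx.IJ (D.toF.F D.T) (D.toF.F ((P.wfc h.ndK).x t)) (D.toF.F a) := by
  have hj := P45.SqT.top_join h.cls.toSqE h.min h.cls.x1 h.top
  by_contra hc
  -- the flags of the corners
  have hO : ∀ {T'}, K.rk D.T < K.rk T' → ¬ D.toF.O T' := by
    intro T' hr o
    have := D.rk_O o
    omega
  have fl : ∀ x z, P.Ck (K.rk D.T) x D.T z → ∃ t : P.WL, h.M.Kp t ∧ (P.wfc h.ndK).x t = x ∧
      (P.wfc h.ndK).y t = D.T ∧ (P.wfc h.ndK).z t = z := by
    rintro x z (⟨u, w, k⟩ | ⟨T', s, s', y, t, hr, ⟨e1, rfl, rfl⟩ | ⟨e1, rfl, rfl⟩ | ⟨e1, rfl, rfl⟩⟩)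
    · obtain ⟨f, hf, e1, e2, e3⟩ := Qn_fl79 k
      exact ⟨P.w5 f hf, h.kp5 hf, (P.wfc_x5 _ hf).trans e1, (P.wfc_y5 _ hf).trans e2,
        (P.wfc_z5 _ hf).trans e3⟩
    · exact ⟨P45.w4 t.1.rot.rot.symm, (h.kp4 _).2 ⟨h.sides_ne t (hO hr), (h.top_ne t (hO hr)).symm⟩,
        rfl, e1.symm, rfl⟩
    · exact ⟨P45.w4 t.1.symm.rot, (h.kp4 _).2 ⟨h.top_ne t (hO hr), h.sides_ne t (hO hr)⟩,
        rfl, e1.symm, rfl⟩
    · exact ⟨P45.w4 t.1.symm.rot.symm, (h.kp4 _).2 ⟨(h.top_ne t (hO hr)).symm,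
        h.sides_ne t (hO hr)⟩, rfl, e1.symm, rfl⟩
  -- the neighbours of the top, except `b`, are in-arrows of the fold
  have kT := D.sf_T (1 : H)
  rw [one_smul, one_smul] at kT
  have inn : ∀ c, K.E D.T c → c ≠ b → D.toF.gx.ar (D.toF.F c) (D.toF.F D.T) := by
    rintro c (k | k) hne
    · rcases h.cls.toSqE.sides h.top k with rfl | rfl
      · rw [kT]
        exact h.ar_F (h.notO_T (K.ar_rk _ _ h.top.2.1)) ay
      · exact absurd rfl hne
    · exact h.ar_F (hO (K.ar_rk _ _ k)) k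
  have step : ∀ x z, P.Ck (K.rk D.T) x D.T z →
      (x ≠ b ∧ D.toF.gx.IJ (D.toF.F D.T) (D.toF.F x) (D.toF.F a)) →
      (z ≠ b ∧ D.toF.gx.IJ (D.toF.F D.T) (D.toF.F z) (D.toF.F a)) := by
    rintro x z k ⟨n1, n2⟩
    obtain ⟨t, k1, rfl, k2, rfl⟩ := fl x z k
    have hzb : (P.wfc h.ndK).z t ≠ b := fun e => hc ⟨t, k1, k2, e, n2⟩
    have ez := (P.wfc h.ndK).Ez t
    have ex := (P.wfc h.ndK).Ex t
    rw [k2] at ex ez
    refine ⟨hzb, ?_⟩
    obtain ⟨u, rfl⟩ := k1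
    have uy := h.M.y_ph u
    have uz := h.M.z_ph u
    have ux := h.M.x_ph u
    rw [k2] at uy
    have k5 : D.toF.gx.IJ (D.toF.F D.T) (D.toF.F ((P.wfc h.ndK).x (h.M.ph u)))
        (D.toF.F ((P.wfc h.ndK).z (h.M.ph u))) := by
      refine Relation.EqvGen.rel _ _ ⟨?_, inn _ ex n1, inn _ ez hzb⟩
      rw [← (D.flat.P45 P).wfc_Co ndF]
      exact ⟨u, ux.symm, uy.symm, uz.symm⟩
    exact k5.symm'.trans' n2
  have all : ∀ x z, P.LK (K.rk D.T) D.T x z →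
      ((x ≠ b ∧ D.toF.gx.IJ (D.toF.F D.T) (D.toF.F x) (D.toF.F a)) ↔
      (z ≠ b ∧ D.toF.gx.IJ (D.toF.F D.T) (D.toF.F z) (D.toF.F a))) := by
    intro x z k
    induction k with
    | rel x z k => exact ⟨step x z k, step z x k.symm⟩
    | refl x => exact Iff.rfl
    | symm x z _ ih => exact ih.symm
    | trans x y z _ _ i1 i2 => exact i1.trans i2
  exact ((all a b hj).1 ⟨h.cls.nab _ _ _ _ h.top, Relation.EqvGen.refl _⟩).1 rfl

/-- THE STATIC LAW OF `exc`, by walks -/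
theorem wexc_le' (ay : K.ar a D.y) (xa : P.X D.T a = 1) (xb : P.X D.T b = 1)
    (hl : ∀ v, K.LC v) : P.wexc ≤ (D.flat.P45 P).wexc :=
  h.wexc_le ay xa xb (h.pinj hl) (h.os ay)

end Sq1.Sf

namespace P45.SfD

variable {P : P45 K} (F : P.SfD)

/-- THE STATIC LAW OF `exc` (the field `e` of `SfIn`): the fold of one thin top does not lower `exc` -/
theorem exc_le (hc : P.Cls) (hm : K.Min) (hl : ∀ v, K.LC v) :
    P.exc ≤ (F.P' hc.toSqE).exc := by
  have h := F.sf hc hm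
  have e : (F.P' hc.toSqE).exc = (F.P' hc.toSqE).wexc := P45.exc_eq h.SqT
  rw [P45.exc_eq hc.toSqE, e]
  exact h.wexc_le' F.ay F.xa F.xb hl

end P45.SfD

/-- the field `e` of `SfIn` -/
theorem St.sf_e (C : St) (F : C.P.SfD) : C.P.exc ≤ (F.P' C.cls.toSqE).exc :=
  F.exc_le C.cls C.Min C.lc

end Pool.Agent.DI
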