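import Pool.Agent.DI.SqFb
import Pool.Agent.DI.FCk
import Pool.Agent.DI.Xt0

/-!
# DI/NdT: sides of tops are not adjacent, in no quotient of the same area

`Co L`: a vertex `T` with a pole `s`, the other pole of `T` is equal or adjacent to `s`. `C.gx`: the
collapse of `T` onto `s`. In a minimal complex no long cell passes the edge (`Co.kept`).
`GM P L G N`: a quotient map `G` of a complex `K` (with pentagons and squares `P`) to a minimal complex
`L` which keeps the pentagons and is injective on the vertices of rank at least `N`.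
`GM.not_adj`: the images of the two sides of a top of rank at least `N` are neither equal nor adjacent
(by descending rank: the strand at the arrow `T → s` is no pentagon, so it is a square, the top of this
square is above `T` and degenerates in the collapse). `Cls.sides_nadj`, `Sq1.sides_ne`.
-/

namespace Pool.Agent.DI

open MulAction
open Pool.Agent.SAF (InC orbs FinOrb oc)
open Pool.Agent.BT (HG Mg lz lz_self lz_ne lz_symm)

variable {H V : Type} [Group H] [MulAction H V]

/-- a vertex `T` with the pole `s`, the other poles are equal or adjacent to `s` -/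
structure Co (L : GX H V) where
  T : V
  s : V
  ar : L.ar T s
  ad : ∀ a, L.ar T a → a = s ∨ L.E s a
  fix : ∀ h : H, h • T = T → h • s = s

namespace Co

variable {L : GX H V} (C : Co L)

/-- the orbit of `T` -/
def O (x : V) : Prop := ∃ h : H, x = h • C.T

theorem O_iff (h : H) (x : V) : C.O (h • x) ↔ C.O x := by
  constructor
  · rintro ⟨k, e⟩
    refine ⟨h⁻¹ * k, ?_⟩
    rw [mul_smul, ← e, inv_smul_smul]
  · rintro ⟨k, rfl⟩
    exact ⟨h * k, (mul_smul h k _).symm⟩

open Classical in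
/-- the retraction -/
noncomputable def f (x : V) : V := if e : C.O x then (Classical.choose e) • C.s else x

theorem f_T (h : H) : C.f (h • C.T) = h • C.s := by
  have e : C.O (h • C.T) := ⟨h, rfl⟩
  unfold f
  rw [dif_pos e]
  have h1 := Classical.choose_spec e
  have h2 : (h⁻¹ * Classical.choose e) • C.T = C.T := by
    rw [mul_smul, ← h1, inv_smul_smul]
  have h3 := C.fix _ h2
  rw [mul_smul, inv_smul_eq_iff] at h3
  exact h3

theorem f_not {x : V} (h : ¬ C.O x) : C.f x = x := by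
  unfold f
  rw [dif_neg h]

theorem rk_O {x : V} (h : C.O x) : L.rk x = L.rk C.T := by
  obtain ⟨k, rfl⟩ := h
  exact L.rk_smul k _

theorem rk_s : L.rk C.s < L.rk C.T := L.ar_rk _ _ C.ar

theorem not_O_f (x : V) : ¬ C.O (C.f x) := by
  by_cases h : C.O x
  · obtain ⟨k, rfl⟩ := h
    rw [C.f_T]
    intro k'
    have h1 := C.rk_O k'
    rw [L.rk_smul] at h1
    have := C.rk_s
    omega
  · rw [C.f_not h]
    exact h

theorem rk_f (x : V) : L.rk (C.f x) ≤ L.rk x := by
  by_cases h : C.O x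
  · obtain ⟨k, rfl⟩ := h
    rw [C.f_T, L.rk_smul, L.rk_smul]
    exact C.rk_s.le
  · rw [C.f_not h]

theorem f_smul (h : H) (x : V) : C.f (h • x) = h • C.f x := by
  by_cases k : C.O x
  · obtain ⟨g, rfl⟩ := k
    rw [← mul_smul, C.f_T, C.f_T, mul_smul]
  · rw [C.f_not k, C.f_not (fun e => k ((C.O_iff h x).1 e))]

/-- the remaining vertices -/
def W : Type := {x : V // ¬ C.O x}

instance : MulAction H C.W where
  smul h x := ⟨h • x.1, fun k => x.2 ((C.O_iff h x.1).1 k)⟩
  one_smul x := Subtype.ext (one_smul H x.1)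
  mul_smul g h x := Subtype.ext (mul_smul g h x.1)

/-- the quotient map -/
noncomputable def F (x : V) : C.W := ⟨C.f x, C.not_O_f x⟩

theorem F_eq {x y : V} : C.F x = C.F y ↔ C.f x = C.f y :=
  ⟨fun h => congrArg Subtype.val h, fun h => Subtype.ext h⟩

theorem F_val (c : C.W) : C.F c.1 = c := Subtype.ext (C.f_not c.2)

theorem F_smul (h : H) (x : V) : C.F (h • x) = h • C.F x := Subtype.ext (C.f_smul h x)

/-- the arrows -/
def ar' (c d : C.W) : Prop := ∃ a, L.ar c.1 a ∧ C.F a = d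

theorem not_O_pole {x y : V} (e : L.ar x y) (hx : C.O x) : ¬ C.O y := by
  intro hy
  have h1 := L.ar_rk _ _ e
  rw [C.rk_O hx, C.rk_O hy] at h1
  omega

theorem e1 {x y : V} (e : L.E x y) :
    C.F x = C.F y ∨ (C.ar' (C.F x) (C.F y) ∨ C.ar' (C.F y) (C.F x)) := by
  have k0 : ∀ x y, L.ar x y → ¬ C.O x → C.ar' (C.F x) (C.F y) := by
    intro x y e hx
    refine ⟨y, ?_, rfl⟩
    show L.ar (C.f x) y
    rw [C.f_not hx]
    exact e
  have key : ∀ x y, L.ar x y →
      C.F x = C.F y ∨ (C.ar' (C.F x) (C.F y) ∨ C.ar' (C.F y) (C.F x)) := by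
    intro x y e
    by_cases hx : C.O x
    · obtain ⟨g, rfl⟩ := hx
      have e' := L.ar_smul g⁻¹ _ _ e
      rw [inv_smul_smul] at e'
      have hs : C.F (g • C.T) = C.F (g • C.s) := by
        apply Subtype.ext
        show C.f (g • C.T) = C.f (g • C.s)
        have h1 : ¬ C.O (g • C.s) := by
          have := C.not_O_f (g • C.T)
          rwa [C.f_T] at this
        rw [C.f_T, C.f_not h1]
      have hsO : ¬ C.O (g • C.s) := by
        have := C.not_O_f (g • C.T)
        rwa [C.f_T] at this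
      rcases C.ad _ e' with h | h
      · left
        rw [hs, ← h, smul_inv_smul]
      · have hE := L.E_smul g h
        rw [smul_inv_smul] at hE
        rw [hs]
        right
        rcases hE with k | k
        · exact Or.inl (k0 _ _ k hsO)
        · exact Or.inr (k0 _ _ k (C.not_O_pole e ⟨g, rfl⟩))
    · exact Or.inr (Or.inl (k0 x y e hx))
  rcases e with e | e
  · exact key x y e
  · rcases key y x e with h | h | h
    · exact Or.inl h.symm
    · exact Or.inr (Or.inr h)
    · exact Or.inr (Or.inl h)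

theorem mg_f (x : V) : Mg L.hg C.F x (C.f x) := by
  by_cases h : C.O x
  · obtain ⟨g, rfl⟩ := h
    rw [C.f_T]
    refine Mg.adj _ _ ?_ (L.E_smul g (Or.inl C.ar))
    apply Subtype.ext
    show C.f (g • C.T) = C.f (g • C.s)
    have h1 : ¬ C.O (g • C.s) := by
      have := C.not_O_f (g • C.T)
      rwa [C.f_T] at this
    rw [C.f_T, C.f_not h1]
  · rw [C.f_not h]
    exact Mg.refl x

/-- backtracking cells -/
def Bt (i : L.I) : Prop := ∀ φ : C.W → C.W → ZMod 2, (∀ x y, φ x y = φ y x) →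
  ps (lz φ) (C.F (L.cb i)) ((L.cw i).map C.F) = 0

/-- the collapse as a quotient -/
noncomputable def qt : Qt L C.F where
  ar := C.ar'
  rk c := L.rk c.1
  equi h x := C.F_smul h x
  surj c := ⟨c.1, C.F_val c⟩
  ar_rk := by
    rintro c d ⟨a, h, rfl⟩
    have h1 := L.ar_rk _ _ h
    have h2 := C.rk_f a
    show L.rk (C.f a) < L.rk c.1
    omega
  ar_smul := by
    rintro h c d ⟨a, e, rfl⟩
    exact ⟨h • a, L.ar_smul h _ _ e, C.F_smul h a⟩
  rk_smul h c := L.rk_smul h c.1
  two := by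
    rintro v _ _ _ ⟨a, ha, rfl⟩ ⟨b, hb, rfl⟩ ⟨c, hc, rfl⟩
    rcases L.two _ _ _ _ ha hb hc with h | h | h
    · exact Or.inl (by rw [h])
    · exact Or.inr (Or.inl (by rw [h]))
    · exact Or.inr (Or.inr (by rw [h]))
  e1 x y e := C.e1 e
  e2 := by
    rintro c d ⟨a, h, rfl⟩
    exact ⟨c.1, a, Or.inl h, C.F_val c, rfl⟩
  mg x y e := Mg.trans _ _ _ (C.mg_f x) (by
    have e' : C.f x = C.f y := C.F_eq.1 e
    rw [e']
    exact Mg.symm _ _ (C.mg_f y))
  stab c := by
    have h := L.stab c.1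
    have e : stabilizer H c = stabilizer H c.1 := by
      ext g
      rw [mem_stabilizer_iff, mem_stabilizer_iff]
      exact ⟨fun k => congrArg Subtype.val k, fun k => Subtype.ext k⟩
    rw [e]
    exact h
  J := {i : L.I // ¬ C.Bt i}
  finJ := by
    have := L.finI
    infer_instance
  ι j := j.1
  drop i hi φ hφ := by
    by_contra hne
    exact hi ⟨i, fun k => hne (k φ hφ)⟩ rfl

/-- the collapsed complex -/
noncomputable def gx : GX H C.W := C.qt.gx

theorem gx_ar {c d : C.W} : C.gx.ar c d ↔ ∃ a, L.ar c.1 a ∧ C.F a = d := Iff.rfl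

theorem gx_rk (c : C.W) : C.gx.rk c = L.rk c.1 := rfl

theorem area_le : C.gx.area ≤ L.area := C.qt.area_le Subtype.val_injective

theorem min (hm : L.Min) : C.gx.Min := fun V' _ K' => C.area_le.trans (hm V' K')

theorem area_eq (hm : L.Min) : C.gx.area = L.area := le_antisymm C.area_le (hm _ _)

/-- in a minimal complex long cells are kept and not shortened -/
theorem kept (hm : L.Min) {i : L.I} (hi : 4 < (L.cw i).length) :
    ¬ C.Bt i ∧ stn C.F (L.cb i) (L.cw i) = 0 := by
  classical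
  have := L.finI
  let := Fintype.ofFinite L.I
  have hJ : Finite C.qt.J := C.qt.finJ
  let := Fintype.ofFinite C.qt.J
  have h1 := C.area_eq hm
  have h2 : C.gx.area = ∑ j : C.qt.J,
      ((L.cw (C.qt.ι j)).length - stn C.F (L.cb (C.qt.ι j)) (L.cw (C.qt.ι j)) - 4) :=
    C.qt.gx_area
  rw [h2, L.area_eq] at h1
  have hinj : Function.Injective C.qt.ι := Subtype.val_injective
  have h3 : ∑ j : C.qt.J,
      ((L.cw (C.qt.ι j)).length - stn C.F (L.cb (C.qt.ι j)) (L.cw (C.qt.ι j)) - 4) =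
      ∑ i ∈ Finset.univ.map ⟨C.qt.ι, hinj⟩,
        ((L.cw i).length - stn C.F (L.cb i) (L.cw i) - 4) := by
    rw [Finset.sum_map]
    rfl
  rw [h3] at h1
  have h4 : ∑ i ∈ Finset.univ.map ⟨C.qt.ι, hinj⟩,
      ((L.cw i).length - stn C.F (L.cb i) (L.cw i) - 4) ≤
      ∑ i ∈ Finset.univ.map ⟨C.qt.ι, hinj⟩, ((L.cw i).length - 4) :=
    Finset.sum_le_sum fun i _ => by omega
  constructor
  · intro hB
    have hni : i ∉ Finset.univ.map ⟨C.qt.ι, hinj⟩ := by
      intro hmem
      obtain ⟨j, -, hj⟩ := Finset.mem_map.1 hmem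
      have hj' : j.1 = i := hj
      exact j.2 (hj' ▸ hB)
    have h5 : ∑ i ∈ Finset.univ.map ⟨C.qt.ι, hinj⟩, ((L.cw i).length - 4) + ((L.cw i).length - 4) ≤
        ∑ i : L.I, ((L.cw i).length - 4) := by
      rw [add_comm, ← Finset.sum_insert hni (f := fun i => (L.cw i).length - 4)]
      exact Finset.sum_le_sum_of_subset (Finset.subset_univ _)
    omega
  · by_contra hne
    have h5 : ∑ i ∈ Finset.univ.map ⟨C.qt.ι, hinj⟩,
        ((L.cw i).length - stn C.F (L.cb i) (L.cw i) - 4) <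
        ∑ i : L.I, ((L.cw i).length - 4) := by
      by_cases hmem : i ∈ Finset.univ.map ⟨C.qt.ι, hinj⟩
      · refine lt_of_lt_of_le (Finset.sum_lt_sum (fun i _ => ?_) ⟨i, hmem, ?_⟩)
          (Finset.sum_le_sum_of_subset (Finset.subset_univ _))
        · show (L.cw i).length - stn C.F (L.cb i) (L.cw i) - 4 ≤ (L.cw i).length - 4
          omega
        · show (L.cw i).length - stn C.F (L.cb i) (L.cw i) - 4 < (L.cw i).length - 4
          omega
      · have h6 : ∑ i ∈ Finset.univ.map ⟨C.qt.ι, hinj⟩, ((L.cw i).length - 4) +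
            ((L.cw i).length - 4) ≤ ∑ i : L.I, ((L.cw i).length - 4) := by
          rw [add_comm, ← Finset.sum_insert hmem (f := fun i => (L.cw i).length - 4)]
          exact Finset.sum_le_sum_of_subset (Finset.subset_univ _)
        omega
    omega

/-- long cells in the collapse -/
theorem long (hm : L.Min) {i : L.I} (hi : 4 < (L.cw i).length) : ∃ j : C.gx.I,
    C.gx.cb j = C.F (L.cb i) ∧ C.gx.cw j = (L.cw i).map C.F := by
  have h := C.kept hm hi
  exact ⟨⟨i, h.1⟩, rfl, dst_map _ _ _ h.2⟩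

end Co

/-! ### quotient maps -/

variable {K : GX H V} (P : P45 K)

/-- a quotient map to a minimal complex which keeps the pentagons, injective from rank `N` on -/
structure GM {W : Type} [MulAction H W] (L : GX H W) (G : V → W) (N : ℕ) : Prop where
  smul : ∀ (h : H) x, G (h • x) = h • G x
  E : ∀ x y, K.E x y → G x = G y ∨ L.E (G x) (G y)
  min : L.Min
  pen : ∀ i, ¬ P.sq i → ∃ j : L.I, L.cb j = G (K.cb i) ∧ L.cw j = (K.cw i).map G
  inj : ∀ x x', N ≤ K.rk x → G x' = G x → x' = x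
  ar : ∀ x d, N ≤ K.rk x → (L.ar (G x) d ↔ ∃ a, K.ar x a ∧ G a = d)
  rk : ∀ x, N ≤ K.rk x → L.rk (G x) = K.rk x

variable {P}

/-- the identity -/
theorem GM.id (hm : K.Min) : GM P K (fun x : V => x) 0 where
  smul _ _ := rfl
  E _ _ h := Or.inr h
  min := hm
  pen i _ := ⟨i, rfl, (List.map_id' _).symm⟩
  inj _ _ _ h := h
  ar x d _ := by
    constructor
    · intro h
      exact ⟨d, h, rfl⟩
    · rintro ⟨a, h, rfl⟩
      exact h
  rk _ _ := rfl

/-- the top of a square -/
theorem Q4.tops {a q b y : V} (ht : ∀ i, P.sq i → ∃ j, P.tp i j) (h : Q4 P a q b y) :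
    (K.ar q a ∧ K.ar q b) ∨ (K.ar b q ∧ K.ar b y) ∨ (K.ar y b ∧ K.ar y a) ∨
      (K.ar a y ∧ K.ar a q) := by
  have key : ∀ (g : H) (i : K.I) (j : Fin 4), P.sq i → ∀ a q b y : V, a = g • P.qt i j →
      q = g • P.qt i (j + 1) → b = g • P.qt i (j + 2) → y = g • P.qt i (j + 3) →
      (K.ar q a ∧ K.ar q b) ∨ (K.ar b q ∧ K.ar b y) ∨ (K.ar y b ∧ K.ar y a) ∨
      (K.ar a y ∧ K.ar a q) := by
    rintro g i j hi _ _ _ _ rfl rfl rfl rfl
    obtain ⟨j', h1, h2⟩ := ht i hi
    have h1 := K.ar_smul g _ _ h1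
    have h2 := K.ar_smul g _ _ h2
    have hcc : ∀ j j' : Fin 4, j' = j ∨ j' = j + 1 ∨ j' = j + 2 ∨ j' = j + 3 := by decide
    have e1 : j + 1 + 1 = j + 2 := by revert j; decide
    have e2 : j + 1 + 3 = j := by revert j; decide
    have e3 : j + 2 + 1 = j + 3 := by revert j; decide
    have e4 : j + 2 + 3 = j + 1 := by revert j; decide
    have e5 : j + 3 + 1 = j := by revert j; decide
    have e6 : j + 3 + 3 = j + 2 := by revert j; decide
    rcases hcc j j' with rfl | rfl | rfl | rfl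
    · exact Or.inr (Or.inr (Or.inr ⟨h2, h1⟩))
    · rw [e1] at h1
      rw [e2] at h2
      exact Or.inl ⟨h2, h1⟩
    · rw [e3] at h1
      rw [e4] at h2
      exact Or.inr (Or.inl ⟨h2, h1⟩)
    · rw [e5] at h1
      rw [e6] at h2
      exact Or.inr (Or.inr (Or.inl ⟨h2, h1⟩))
  obtain ⟨g, i, j, hi, ⟨h1, h2, h3, h4⟩ | ⟨h1, h2, h3, h4⟩⟩ := h
  · exact key g i j hi a q b y h1 h2 h3 h4
  · rcases key g i j hi b q a y h1 h2 h3 h4 with h | h | h | h
    · exact Or.inl h.symm
    · exact Or.inr (Or.inr (Or.inr h.symm))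
    · exact Or.inr (Or.inr (Or.inl h.symm))
    · exact Or.inr (Or.inl h.symm)

/-- the top of the square of a walk `n → t → s` is at `n` or at the fourth vertex -/
theorem Q4.tops_walk {n t s r : V} (ht : ∀ i, P.sq i → ∃ j, P.tp i j) (h : Q4 P n t s r)
    (h1 : K.ar n t) (h2 : K.ar t s) : P.Top n t r s ∨ P.Top r n s t := by
  rcases h.tops ht with k | k | k | k
  · exact absurd h1 (GX.not_both' k.1)
  · exact absurd h2 (GX.not_both' k.1)
  · exact Or.inr ⟨h.rot.rot.symm, k.2, k.1⟩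
  · exact Or.inl ⟨h.rot.rot.rot.symm, k.2, k.1⟩

/-- the edge of a pentagon flag -/
theorem P45.flag_edge (P : P45 K) (f : FL K) (hf : ¬ P.sq f.1.1.1) : ∃ (g : H) (j : Fin 5),
    (P45.fy f = g • P.pt f.1.1.1 j ∧ P45.fz f = g • P.pt f.1.1.1 (j + 1)) ∨
    (P45.fz f = g • P.pt f.1.1.1 j ∧ P45.fy f = g • P.pt f.1.1.1 (j + 1)) := by
  obtain ⟨⟨⟨i, m⟩, g⟩, b⟩ := f
  have hi : ¬ P.sq i := hf
  have e : ∀ (n : ℕ) (j : Fin 5), n % 5 = j.1 → K.vx i n = P.pt i j := by
    intro n j h
    rw [← P.vx5' hi j, ← h, ← P.len5 hi, K.vx_mod]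
  have key : ∀ n : ℕ, ∃ j : Fin 5, K.vx i n = P.pt i j ∧ K.vx i (n + 1) = P.pt i (j + 1) := by
    intro n
    refine ⟨⟨n % 5, Nat.mod_lt _ (by norm_num)⟩, e _ _ rfl, e _ _ ?_⟩
    rw [Fin.val_add]
    show (n + 1) % 5 = (n % 5 + 1) % 5
    omega
  cases b
  · obtain ⟨j, h1, h2⟩ := key m.1
    refine ⟨g, j, Or.inr ⟨?_, ?_⟩⟩
    · show g • K.vx i m.1 = _
      rw [h1]
    · show g • K.vx i (m.1 + 1) = _
      rw [h2]
  · obtain ⟨j, h1, h2⟩ := key (m.1 + 1)
    refine ⟨g, j, Or.inl ⟨?_, ?_⟩⟩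
    · show g • K.vx i (m.1 + 1) = _
      rw [h1]
    · show g • K.vx i (m.1 + 2) = _
      rw [h2]

namespace GM

variable {W : Type} [MulAction H W] {L : GX H W} {G : V → W} {N : ℕ}

/-- the collapse at the image of a top -/
noncomputable def co (hG : GM P L G N) (hc : P.Cls) {t s s' y : V} (k : P.Top t s s' y)
    (hN : N ≤ K.rk t) (hd : G s = G s' ∨ L.E (G s) (G s')) : Co L where
  T := G t
  s := G s
  ar := (hG.ar t _ hN).2 ⟨s, k.2.1, rfl⟩
  ad := by
    intro a ha
    obtain ⟨a', h1, rfl⟩ := (hG.ar t _ hN).1 ha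
    rcases hc.sides k h1 with rfl | rfl
    · exact Or.inl rfl
    · exact hd.imp (fun e => e.symm) (fun e => e)
  fix := by
    intro h e
    have e1 : h • t = t := hG.inj _ _ hN (by rw [hG.smul, e])
    have k1 := K.ar_smul h _ _ k.2.1
    rw [e1] at k1
    rcases hc.sides k k1 with e2 | e2
    · rw [← hG.smul, e2]
    · rcases hd with e3 | e3
      · rw [← hG.smul, e2, e3]
      · exfalso
        have e4 : h • G s = G s' := by rw [← hG.smul, e2]
        have e5 := L.rk_smul h (G s)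
        rw [e4] at e5
        rcases e3 with e3 | e3
        · have := L.ar_rk _ _ e3
          omega
        · have := L.ar_rk _ _ e3
          omega

theorem co_T (hG : GM P L G N) (hc : P.Cls) {t s s' y : V} (k : P.Top t s s' y)
    (hN : N ≤ K.rk t) (hd : G s = G s' ∨ L.E (G s) (G s')) : (hG.co hc k hN hd).T = G t := rfl

theorem co_s (hG : GM P L G N) (hc : P.Cls) {t s s' y : V} (k : P.Top t s s' y)
    (hN : N ≤ K.rk t) (hd : G s = G s' ∨ L.E (G s) (G s')) : (hG.co hc k hN hd).s = G s := rfl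

/-- consecutive vertices of a pentagon stay different -/
theorem ne_pen (hG : GM P L G N) (C : Co L) {i : K.I} (hi : ¬ P.sq i) (j : Fin 5) :
    C.F (G (P.pt i j)) ≠ C.F (G (P.pt i (j + 1))) := by
  obtain ⟨l, h1, h2⟩ := hG.pen i hi
  have h5 : 4 < (L.cw l).length := by
    rw [h2, List.length_map, P.cw5 i hi]
    show 4 < 5
    norm_num
  have h := (C.kept hG.min h5).2
  rw [h1, h2, P.cb5 i hi, P.cw5 i hi] at h
  simp only [List.map_cons, List.map_nil] at h
  have key : ∀ (x y : W) (l : List W), stn C.F x (y :: l) = 0 → C.F x ≠ C.F y ∧ stn C.F y l = 0 := by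
    intro x y l h
    by_cases e : C.F y = C.F x
    · rw [stn_cons_eq e] at h
      omega
    · rw [stn_cons_ne e] at h
      exact ⟨fun k => e k.symm, h⟩
  obtain ⟨h0, h⟩ := key _ _ _ h
  obtain ⟨h1, h⟩ := key _ _ _ h
  obtain ⟨h2, h⟩ := key _ _ _ h
  obtain ⟨h3, h⟩ := key _ _ _ h
  obtain ⟨h4, -⟩ := key _ _ _ h
  fin_cases j
  · exact h0
  · exact h1
  · exact h2
  · exact h3
  · exact h4

/-- no pentagon passes the arrow -/
theorem co_pen (hG : GM P L G N) (hc : P.Cls) {t s s' y : V} (k : P.Top t s s' y)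
    (hN : N ≤ K.rk t) (hd : G s = G s' ∨ L.E (G s) (G s')) (f : FL K) (hf : ¬ P.sq f.1.1.1)
    (h1 : P45.fy f = t) (h2 : P45.fz f = s) : False := by
  set C := hG.co hc k hN hd with hC
  have e0 : C.F (G t) = C.F (G s) := by
    apply Subtype.ext
    show C.f (G t) = C.f (G s)
    have h1 := C.f_T 1
    have h2 : ¬ C.O (G s) := by
      have := C.not_O_f (G t)
      rw [one_smul, one_smul] at h1
      have e : C.f (G t) = G s := h1
      rwa [e] at this
    rw [one_smul, one_smul] at h1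
    have e : C.f (G t) = G s := h1
    rw [e, C.f_not h2]
  obtain ⟨g, j, ⟨e1, e2⟩ | ⟨e1, e2⟩⟩ := P.flag_edge f hf
  · apply hG.ne_pen C hf j
    rw [h1] at e1
    rw [h2] at e2
    rw [e1, e2, hG.smul, hG.smul, C.F_smul, C.F_smul] at e0
    exact smul_left_cancel g e0
  · apply hG.ne_pen C hf j
    rw [h1] at e2
    rw [h2] at e1
    rw [e1, e2, hG.smul, hG.smul, C.F_smul, C.F_smul] at e0
    exact (smul_left_cancel g e0).symm

/-- vertices above the top stay -/
theorem co_above (hG : GM P L G N) (hc : P.Cls) {t s s' y : V} (k : P.Top t s s' y)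
    (hN : N ≤ K.rk t) (hd : G s = G s' ∨ L.E (G s) (G s')) {x : V} (hx : K.rk t + 1 ≤ K.rk x) :
    ¬ (hG.co hc k hN hd).O (G x) := by
  intro h
  have h1 := (hG.co hc k hN hd).rk_O h
  rw [co_T, hG.rk x (by omega), hG.rk t hN] at h1
  omega

/-- the composition -/
theorem co_GM (hG : GM P L G N) (hc : P.Cls) {t s s' y : V} (k : P.Top t s s' y)
    (hN : N ≤ K.rk t) (hd : G s = G s' ∨ L.E (G s) (G s')) :
    GM P (hG.co hc k hN hd).gx (fun x => (hG.co hc k hN hd).F (G x)) (K.rk t + 1) := by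
  set C := hG.co hc k hN hd with hC
  refine ⟨?_, ?_, ?_, ?_, ?_, ?_, ?_⟩
  · intro h x
    show C.F (G (h • x)) = h • C.F (G x)
    rw [hG.smul, C.F_smul]
  · intro x y e
    rcases hG.E x y e with h | h
    · left
      show C.F (G x) = C.F (G y)
      rw [h]
    · exact C.e1 h
  · exact C.min hG.min
  · intro i hi
    obtain ⟨l, h1, h2⟩ := hG.pen i hi
    have h5 : 4 < (L.cw l).length := by
      rw [h2, List.length_map, P.cw5 i hi]
      show 4 < 5
      norm_num
    obtain ⟨l', h3, h4⟩ := C.long hG.min h5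
    refine ⟨l', ?_, ?_⟩
    · rw [h3, h1]
    · rw [h4, h2, List.map_map]
      rfl
  · intro x x' hx e
    have hO : ¬ C.O (G x) := hG.co_above hc k hN hd hx
    have e' : C.f (G x') = C.f (G x) := C.F_eq.1 e
    rw [C.f_not hO] at e'
    by_cases hO' : C.O (G x')
    · exfalso
      obtain ⟨g, hg⟩ := hO'
      rw [hg, C.f_T] at e'
      have e2 := congrArg L.rk e'
      rw [L.rk_smul, hG.rk x (by omega)] at e2
      have e3 := C.rk_s
      have e4 : L.rk C.T = K.rk t := hG.rk t hN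
      omega
    · rw [C.f_not hO'] at e'
      exact hG.inj x x' (by omega) e'
  · intro x d hx
    have hO : ¬ C.O (G x) := hG.co_above hc k hN hd hx
    have hN' : N ≤ K.rk x := by omega
    have e0 : (C.F (G x)).1 = G x := C.f_not hO
    rw [C.gx_ar, e0]
    constructor
    · rintro ⟨a, h1, rfl⟩
      obtain ⟨a', h2, rfl⟩ := (hG.ar x a hN').1 h1
      exact ⟨a', h2, rfl⟩
    · rintro ⟨a', h2, rfl⟩
      exact ⟨G a', (hG.ar x _ hN').2 ⟨a', h2, rfl⟩, rfl⟩
  · intro x hx
    have hO : ¬ C.O (G x) := hG.co_above hc k hN hd hx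
    have e0 : (C.F (G x)).1 = G x := C.f_not hO
    show C.gx.rk (C.F (G x)) = K.rk x
    rw [C.gx_rk, e0, hG.rk x (by omega)]

/-- the images of the top and the side are equal after the collapse -/
theorem co_eq (hG : GM P L G N) (hc : P.Cls) {t s s' y : V} (k : P.Top t s s' y)
    (hN : N ≤ K.rk t) (hd : G s = G s' ∨ L.E (G s) (G s')) :
    (hG.co hc k hN hd).F (G t) = (hG.co hc k hN hd).F (G s) := by
  set C := hG.co hc k hN hd with hC
  apply Subtype.ext
  show C.f (G t) = C.f (G s)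
  have h1 := C.f_T 1
  rw [one_smul, one_smul] at h1
  have e : C.f (G t) = G s := h1
  have h2 : ¬ C.O (G s) := by
    have := C.not_O_f (G t)
    rwa [e] at this
  rw [e, C.f_not h2]

end GM

/-- the next top -/
theorem GM.co_next {W : Type} [MulAction H W] {L : GX H W} {G : V → W} {N : ℕ}
    (hG : GM P L G N) (hc : P.Cls) {t s s' y : V} (k : P.Top t s s' y)
    (hN : N ≤ K.rk t) (hd : G s = G s' ∨ L.E (G s) (G s')) :
    ∃ t' a b z, P.Top t' a b z ∧ K.rk t + 1 ≤ K.rk t' ∧
      ((hG.co hc k hN hd).F (G a) = (hG.co hc k hN hd).F (G b) ∨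
        (hG.co hc k hN hd).gx.E ((hG.co hc k hN hd).F (G a)) ((hG.co hc k hN hd).F (G b))) := by
  have hG' := hG.co_GM hc k hN hd
  have e0 := hG.co_eq hc k hN hd
  have hx := hc.x1 (t, s) ⟨s', y, k⟩
  have hx' : 1 ≤ P.X t s := hx
  unfold P45.X at hx'
  have hh : (∃ f : FL K, f ∈ P.RP ∧ (P45.fy f, P45.fz f) = (t, s)) ∨
      ∃ p : (V × V) × (V × V), p ∈ P.ZP ∧ p.1 = (t, s) := by
    by_contra hne
    push Not at hne
    have e1 : {f : FL K | f ∈ P.RP ∧ (P45.fy f, P45.fz f) = (t, s)} = ∅ := by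
      ext f
      exact ⟨fun h => hne.1 f h.1 h.2, fun h => h.elim⟩
    have e2 : {p : (V × V) × (V × V) | p ∈ P.ZP ∧ p.1 = (t, s)} = ∅ := by
      ext p
      exact ⟨fun h => hne.2 p h.1 h.2, fun h => h.elim⟩
    rw [e1, e2] at hx'
    have z : ∀ (A : Type) [MulAction ↥(stabilizer H (t, s)) A],
        oc ↥(stabilizer H (t, s)) (∅ : Set A) = 0 := fun A _ => oc_empty
    rw [z, z] at hx'
    omega
  rcases hh with ⟨f, hf, e⟩ | ⟨⟨⟨t1, s1⟩, ⟨r, n⟩⟩, ⟨q, h1, h2⟩, e⟩
  · exact (hG.co_pen hc k hN hd f hf.1 (congrArg Prod.fst e) (congrArg Prod.snd e)).elim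
  · have et : t1 = t := congrArg Prod.fst e
    have es : s1 = s := congrArg Prod.snd e
    subst et
    subst es
    have q : Q4 P n t1 s1 r := q
    have h1 : K.ar t1 s1 := h1
    have h2 : K.ar n t1 := h2
    rcases q.tops_walk hc.top h2 h1 with k' | k'
    · refine ⟨n, t1, r, s1, k', K.ar_rk _ _ h2, ?_⟩
      have h3 := hG'.E _ _ k'.Eb.symm
      rw [e0]
      exact h3
    · refine ⟨r, n, s1, t1, k', ?_, ?_⟩
      · have h3 := K.ar_rk _ _ h2
        have h4 := K.ar_rk _ _ k'.2.1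
        omega
      · have h3 := hG'.E _ _ (Or.inl h2)
        simp only [e0] at h3
        exact h3

/-- THE SIDES OF A TOP STAY DIFFERENT AND NOT ADJACENT -/
theorem GM.not_adj (hc : P.Cls) : ∀ (m : ℕ) {W : Type} [MulAction H W] (L : GX H W) (G : V → W)
    (N : ℕ), GM P L G N → ∀ {t a b y : V}, P.Top t a b y → N ≤ K.rk t →
    (∀ x, K.rk x ≤ K.rk t + m) → ¬ (G a = G b ∨ L.E (G a) (G b)) := by
  intro m
  induction m with
  | zero =>
    intro W _ L G N hG t a b y k hN hM hd
    obtain ⟨t', a', b', z, k', h1, h2⟩ := hG.co_next hc k hN hd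
    have := hM t'
    omega
  | succ m ih =>
    intro W _ L G N hG t a b y k hN hM hd
    obtain ⟨t', a', b', z, k', h1, h2⟩ := hG.co_next hc k hN hd
    refine ih _ _ _ (hG.co_GM hc k hN hd) k' h1 (fun x => ?_) h2
    have := hM x
    omega

/-- THE SIDES OF A TOP STAY DIFFERENT AND NOT ADJACENT -/
theorem GM.nadj {W : Type} [MulAction H W] {L : GX H W} {G : V → W} {N : ℕ} (hG : GM P L G N)
    (hc : P.Cls) {t a b y : V} (k : P.Top t a b y) (hN : N ≤ K.rk t) :
    ¬ (G a = G b ∨ L.E (G a) (G b)) := by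
  obtain ⟨M, hM⟩ := K.rk_bdd
  refine GM.not_adj hc M L G N hG k hN fun x => ?_
  have := hM x
  omega

/-- IN A MINIMAL COMPLEX THE SIDES OF A TOP ARE NOT ADJACENT -/
theorem P45.Cls.sides_nadj (hc : P.Cls) (hm : K.Min) {t a b y : V} (k : P.Top t a b y) :
    ¬ K.E a b := fun h => (GM.id hm).nadj hc k (Nat.zero_le _) (Or.inr h)

/-- the fold of one orbit of tops is a quotient map -/
theorem Sq1.gm (D : Sq1 K) (hm : K.Min) : GM P D.toF.gx D.toF.F (K.rk D.T + 1) where
  smul h x := D.toF.F_smul h x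
  E x y e := Or.inr (D.flat.E' e)
  min := D.toF.min hm
  pen i hi := by
    have h5 : 4 < (K.cw i).length := by
      rw [P.cw5 i hi]
      show 4 < 5
      norm_num
    have h := D.toF.kept hm h5
    exact ⟨⟨i, h.1⟩, rfl, dst_map _ _ _ h.2⟩
  inj x x' hx e := by
    have hO : ¬ D.toF.O x := by
      rintro ⟨g, rfl⟩
      rw [K.rk_smul] at hx
      omega
    have e' : D.toF.f x' = D.toF.f x := D.toF.F_eq.1 e
    rw [D.toF.f_not hO] at e'
    by_cases hO' : D.toF.O x'
    · obtain ⟨g, rfl⟩ := hO'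
      have e2 := congrArg K.rk e'
      rw [D.f_T, K.rk_smul] at e2
      have := D.rk
      omega
    · rwa [D.toF.f_not hO'] at e'
  ar x d hx := by
    have hO : ¬ D.toF.O x := by
      rintro ⟨g, rfl⟩
      rw [K.rk_smul] at hx
      omega
    have e0 : (D.toF.F x).1 = x := D.toF.f_not hO
    rw [D.toF.gx_ar]
    unfold SqF.ar'
    rw [e0]
  rk x hx := by
    have hO : ¬ D.toF.O x := by
      rintro ⟨g, rfl⟩
      rw [K.rk_smul] at hx
      omega
    have e0 : (D.toF.F x).1 = x := D.toF.f_not hO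
    rw [D.toF.gx_rk, e0]

/-- THE SIDES OF A HIGHER TOP STAY DIFFERENT AND NOT ADJACENT IN THE FOLD -/
theorem Sq1.nadj (D : Sq1 K) (hm : K.Min) (hc : P.Cls) {t a b y : V} (k : P.Top t a b y)
    (ht : K.rk D.T < K.rk t) :
    ¬ (D.toF.F a = D.toF.F b ∨ D.toF.gx.E (D.toF.F a) (D.toF.F b)) :=
  (D.gm hm).nadj hc k ht

end Pool.Agent.DI
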