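import Pool.Agent.DI.SfB

/-!
# DI/SfC: the static fold of one orbit of tops is in the class

`D : Sq1 K` with `P.Top D.T a b D.y`, `P.Cls`, `K.Min`, and
`sd : P.Top T' D.T m z → K.ar D.T z → K.ar D.y z` (`T` is a side with an arrow to the partner only of walks
whose partner is below `y`). `D.core`: a walk of the fold has its top where the walk of `K` has it.
`D.top_lift`, `D.top_F`: the tops of the fold. `D.cls`: the fold is in the class.
-/

namespace Pool.Agent.DI

open MulAction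
open Pool.Agent.SAF (InC orbs FinOrb oc mk_eq_iff FinOrb_iff)

variable {H V : Type} [Group H] [MulAction H V] {K : GX H V} {P : P45 K}

/-- a walk `n → T → a`, `q` has its top at `n` or at `q` -/
theorem P45.zp52 (ht : ∀ i, P.sq i → ∃ j, P.tp i j) {n T a q : V} (ha : K.ar T a)
    (hn : K.ar n T) (h : Q4 P n T a q) : P.Top n T q a ∨ P.Top q n a T := by
  rcases h.ck_top ht with k | k | k | k
  · exact Or.inl k
  · exact absurd k.2.2 (GX.ck_asym hn)
  · exact absurd k.2.2 (GX.ck_asym ha)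
  · exact Or.inr k

namespace Sq1

variable (D : Sq1 K)

theorem na {x c : V} (hx : D.toF.O x) (h : K.ar x c) : ¬ D.toF.O c := D.flat.na x c hx h

theorem na' {x c : V} (hc : D.toF.O c) (h : K.ar x c) : ¬ D.toF.O x := fun hx => D.na hx h hc

theorem na_E {x c : V} (hx : D.toF.O x) (h : K.E x c) : ¬ D.toF.O c := by
  rcases h with h | h
  · exact D.na hx h
  · exact D.na' hx h

theorem ar_not {x z : V} (h : K.ar x z) (hx : ¬ D.toF.O x) :
    D.toF.gx.ar (D.toF.F x) (D.toF.F z) := by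
  refine ⟨z, ?_, rfl⟩
  show K.ar (D.toF.f x) z
  rw [D.toF.f_not hx]
  exact h

/-- the arrows of the partner -/
theorem ar_y {h : H} {z : V} (k : K.ar (h • D.y) z) :
    D.toF.gx.ar (D.toF.F (h • D.T)) (D.toF.F z) := by
  refine ⟨z, ?_, rfl⟩
  show K.ar (D.toF.f (h • D.T)) z
  rw [D.f_T]
  exact k

theorem sd_smul (sd : ∀ T' m z, P.Top T' D.T m z → K.ar D.T z → K.ar D.y z) {h : H} {T' m z : V}
    (k : P.Top T' (h • D.T) m z) (kz : K.ar (h • D.T) z) : K.ar (h • D.y) z := by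
  have k1 := k.smul h⁻¹
  rw [inv_smul_smul] at k1
  have k2 := K.ar_smul h⁻¹ _ _ kz
  rw [inv_smul_smul] at k2
  have k3 := K.ar_smul h _ _ (sd _ _ _ k1 k2)
  rwa [smul_inv_smul] at k3

theorem par_smul (hs : P.SqT) {a b : V} (top : P.Top D.T a b D.y) {h : H} {A B Y : V}
    (k : P.Top (h • D.T) A B Y) : Y = h • D.y :=
  (hs.par _ _ _ _ _ _ _ k (top.smul h)).resolve_left (fun h => h)

/-- THE PLACE OF THE TOP -/
theorem core (hs : P.SqT) {a b : V} (top : P.Top D.T a b D.y)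
    (sd : ∀ T' m z, P.Top T' D.T m z → K.ar D.T z → K.ar D.y z) {A T1 B Y : V}
    (hq : Q4 P A T1 B Y) (n1 : D.toF.F A ≠ D.toF.F B) (n2 : D.toF.F T1 ≠ D.toF.F Y)
    (h1 : D.toF.gx.ar (D.toF.F T1) (D.toF.F A)) (h2 : D.toF.gx.ar (D.toF.F T1) (D.toF.F B)) :
    ¬ D.toF.O T1 ∧ K.ar T1 A ∧ K.ar T1 B := by
  have rky := D.rk
  -- arrows out of the partner
  have keyO : ∀ C, D.toF.O T1 → K.E T1 C → D.toF.gx.ar (D.toF.F T1) (D.toF.F C) → K.ar T1 C := by
    rintro C hO hE ⟨x, hx, ex⟩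
    have hC : ¬ D.toF.O C := D.na_E hO hE
    have hx : K.ar (D.toF.f T1) x := hx
    have r1 := K.ar_rk _ _ hx
    rw [D.rk_fO hO] at r1
    have hxO : ¬ D.toF.O x := fun k => by
      have := D.rk_O k
      omega
    have ex := D.toF.F_eq.1 ex
    rw [D.toF.f_not hxO, D.toF.f_not hC] at ex
    subst ex
    rcases hE with hE | hE
    · exact hE
    · have r2 := K.ar_rk _ _ hE
      rw [D.rk_O hO] at r2
      omega
  have hO : ¬ D.toF.O T1 := by
    intro hO
    have k : P.Top T1 A B Y := ⟨hq, keyO A hO hq.E1.symm h1, keyO B hO hq.E2 h2⟩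
    obtain ⟨h, rfl⟩ := hO
    have e := D.par_smul hs top k
    rw [e] at n2
    exact n2 (D.sf_T h)
  -- arrows into `T1`
  have keyN : ∀ C, K.ar C T1 → D.toF.gx.ar (D.toF.F T1) (D.toF.F C) →
      ∃ h : H, C = h • D.T ∧ K.ar T1 (h • D.y) := by
    rintro C hC ⟨x, hx, ex⟩
    have hx : K.ar (D.toF.f T1) x := hx
    rw [D.toF.f_not hO] at hx
    have r1 := K.ar_rk _ _ hx
    have r2 := K.ar_rk _ _ hC
    have ex := D.toF.F_eq.1 ex
    by_cases hCO : D.toF.O C
    · obtain ⟨h, rfl⟩ := hCO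
      refine ⟨h, rfl, ?_⟩
      have hxO : ¬ D.toF.O x := fun k => by
        have := D.rk_O k
        rw [K.rk_smul] at r2
        omega
      rw [D.toF.f_not hxO, D.f_T] at ex
      rw [← ex]
      exact hx
    · exfalso
      rw [D.toF.f_not hCO] at ex
      have := D.toF.rk_f x
      rw [ex] at this
      omega
  have main : ∀ A B, Q4 P A T1 B Y → D.toF.F A ≠ D.toF.F B →
      D.toF.gx.ar (D.toF.F T1) (D.toF.F A) → D.toF.gx.ar (D.toF.F T1) (D.toF.F B) →
      K.ar T1 A := by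
    intro A B hq n1 h1 h2
    rcases hq.E1 with hA | hA
    · exfalso
      obtain ⟨h, rfl, hy⟩ := keyN A hA h1
      rcases hq.ck_top hs.top with k | k | k | k
      · have e := D.par_smul hs top k
        rw [e] at n1
        exact n1 (D.sf_T h)
      · exact GX.ck_asym hA k.2.2
      · rcases hq.E2 with hB | hB
        · exact GX.ck_asym hB k.2.2
        · obtain ⟨h', rfl, -⟩ := keyN B hB h2
          have e := D.par_smul hs top k
          have := congrArg K.rk e
          rw [K.rk_smul, K.rk_smul] at this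
          omega
      · exact GX.ck_asym hy (D.sd_smul sd k hA)
    · exact hA
  exact ⟨hO, main A B hq n1 h1 h2, main B A hq.symm n1.symm h2 h1⟩

/-- THE TOPS OF THE FOLD come from tops -/
theorem top_lift (hs : P.SqT) {a b : V} (top : P.Top D.T a b D.y)
    (sd : ∀ T' m z, P.Top T' D.T m z → K.ar D.T z → K.ar D.y z) {T' a' b' y' : D.toF.W}
    (h : (D.flat.P45 P).Top T' a' b' y') : ∃ A B Y, P.Top T'.1 A B Y ∧ D.toF.F A = a' ∧
      D.toF.F B = b' ∧ D.toF.F Y = y' := by
  obtain ⟨hq', h1, h2⟩ := h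
  obtain ⟨A, T1, B, Y, hq, rfl, rfl, rfl, rfl, n1, n2⟩ := (D.flat.Q4_iff P).1 hq'
  clear hq'
  obtain ⟨k0, k1, k2⟩ := D.core hs top sd hq n1 n2 h1 h2
  have e : (D.toF.F T1).1 = T1 := D.toF.f_not k0
  exact ⟨A, B, Y, by rw [e]; exact ⟨hq, k1, k2⟩, rfl, rfl, rfl⟩

/-- the tops which are not folded are tops of the fold -/
theorem top_F (hP : P.Cls) (hm : K.Min) {a b : V} (top : P.Top D.T a b D.y) {T A B Y : V}
    (k : P.Top T A B Y) (hO : ¬ D.toF.O T) :
    (D.flat.P45 P).Top (D.toF.F T) (D.toF.F A) (D.toF.F B) (D.toF.F Y) :=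
  ⟨D.q4 k.1 (D.F_ne_top hP hm top k) (D.F_ne_par hP.toSqE k (fun h => h) hO),
    D.ar_not k.2.1 hO, D.ar_not k.2.2 hO⟩

/-- the tops of the fold -/
theorem top_iff (hP : P.Cls) (hm : K.Min) {a b : V} (top : P.Top D.T a b D.y)
    (sd : ∀ T' m z, P.Top T' D.T m z → K.ar D.T z → K.ar D.y z) {T' a' b' y' : D.toF.W} :
    (D.flat.P45 P).Top T' a' b' y' ↔ ∃ A B Y, P.Top T'.1 A B Y ∧ D.toF.F A = a' ∧
      D.toF.F B = b' ∧ D.toF.F Y = y' := by
  refine ⟨D.top_lift hP.toSqE top sd, ?_⟩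
  rintro ⟨A, B, Y, k, rfl, rfl, rfl⟩
  have h := D.top_F hP hm top k T'.2
  rwa [D.toF.F_val T'] at h

/-- a position of a top of the fold -/
theorem tp_lift (hs : P.SqT) {a b : V} (top : P.Top D.T a b D.y)
    (sd : ∀ T' m z, P.Top T' D.T m z → K.ar D.T z → K.ar D.y z) {i : D.toF.gx.I}
    (hi : P.sq i.1) {j : Fin 4} (h : (D.flat.P45 P).tp i j) :
    ¬ D.toF.O (P.qt i.1 j) ∧ P.tp i.1 j := by
  have k := P45.ck_tp (P := D.flat.P45 P) hi h
  have hq : Q4 P (P.qt i.1 (j + 1)) (P.qt i.1 j) (P.qt i.1 (j + 3)) (P.qt i.1 (j + 2)) := by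
    have h := (Q4_qt (P := P) 1 hi (j + 3)).symm
    simp only [one_smul] at h
    have e1 : j + 3 + 1 = j := by
      have : ∀ j : Fin 4, j + 3 + 1 = j := by decide
      exact this j
    have e2 : j + 3 + 2 = j + 1 := by
      have : ∀ j : Fin 4, j + 3 + 2 = j + 1 := by decide
      exact this j
    have e3 : j + 3 + 3 = j + 2 := by
      have : ∀ j : Fin 4, j + 3 + 3 = j + 2 := by decide
      exact this j
    rw [e1, e2, e3] at h
    exact h
  obtain ⟨n1, n2⟩ := k.1.ck_ne D.nd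
  obtain ⟨k0, k1, k2⟩ := D.core hs top sd hq n1 n2 h.1 h.2
  exact ⟨k0, k1, k2⟩

/-- the strands of the tops of the fold -/
theorem x1' (hP : P.Cls) (hm : K.Min) {a b : V} (top : P.Top D.T a b D.y)
    (sd : ∀ T' m z, P.Top T' D.T m z → K.ar D.T z → K.ar D.y z) {T1 A B Y : V}
    (k : P.Top T1 A B Y) (hO : ¬ D.toF.O T1) :
    1 ≤ (D.flat.P45 P).X (D.toF.F T1) (D.toF.F A) := by
  have hs : P.SqT := hP.toSqE
  have htop := hs.top
  have kA := D.ar_not k.2.1 hO
  have rky := D.rk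
  rcases P45.hw_strand (hP.x1 (T1, A) ⟨B, Y, k⟩) with ⟨n, u, v, hq⟩ | ⟨n, q, hq, hn⟩
  · exact P45.sf_X5 kA (D.qn hq)
  rcases P45.zp52 htop k.2.1 hn hq with k' | k'
  · by_cases hnO : D.toF.O n
    · -- the own walk of `n = h T`, `A = h y`
      obtain ⟨h, rfl⟩ := hnO
      have eA := D.par_smul hs top k'
      subst eA
      rw [← D.sf_T h] at kA ⊢
      rcases P45.hw_strand (hP.x1 (h • D.T, T1) ⟨_, _, k'⟩) with ⟨m, u, v, hm'⟩ | ⟨m, r, hm', hmr⟩
      · exact P45.sf_X5 kA (D.qn hm'.symm.rot.rot.rot.rot)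
      · rcases P45.zp52 htop hn hmr hm' with k2 | k2
        · exact absurd (D.sd_smul sd k2 hn) (GX.ck_asym k.2.1)
        · have r1 := K.ar_rk _ _ k2.2.1
          have r2 := K.ar_rk _ _ hmr
          have r3 : K.rk T1 < K.rk (h • D.T) := K.ar_rk _ _ hn
          rw [K.rk_smul] at r2 r3
          have hrO : ¬ D.toF.O r := fun k => by
            have := D.rk_O k
            omega
          have hmO : ¬ D.toF.O m := fun k => by
            have := D.rk_O k
            omega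
          refine P45.sf_X4 kA (D.ar_not k2.2.2 hrO) (D.q4 hm'.rot.symm ?_ ?_)
          · intro e
            have e := D.toF.F_eq.1 e
            rw [D.toF.f_not hrO, D.f_T] at e
            have := congrArg K.rk e
            rw [K.rk_smul] at this
            omega
          · intro e
            have e := D.toF.F_eq.1 e
            rw [D.toF.f_not hmO, D.toF.f_not hO] at e
            have e : T1 = m := e
            rw [e] at r3
            omega
    · exact P45.sf_X4 kA (D.ar_not hn hnO)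
        (D.q4 hq (D.F_ne_par hs k' (fun h => h) hnO) (D.F_ne_top hP hm top k'))
  · by_cases hqO : D.toF.O q
    · -- the own walk of `q = h T`, `T1 = h y`
      obtain ⟨h, rfl⟩ := hqO
      have eT := D.par_smul hs top k'
      subst eT
      rw [← D.sf_T h] at kA ⊢
      rcases P45.hw_strand (hP.x1 (h • D.T, A) ⟨_, _, k'.symm'⟩) with ⟨m, u, v, hm'⟩ | ⟨m, r, hm', hmr⟩
      · exact P45.sf_X5 kA (D.qn hm')
      · have hmO : ¬ D.toF.O m := D.na' ⟨h, rfl⟩ hmr
        have km := D.ar_not hmr hmO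
        rcases P45.zp52 htop k'.2.2 hmr hm' with k2 | k2
        · exact P45.sf_X4 kA km (D.q4 hm' (D.F_ne_par hs k2 (fun h => h) hmO)
            (D.F_ne_top hP hm top k2))
        · have r1 := K.ar_rk _ _ k2.2.1
          have r2 := K.ar_rk _ _ hmr
          rw [K.rk_smul] at r2
          have hrO : ¬ D.toF.O r := fun k => by
            have := D.rk_O k
            omega
          exact P45.sf_X4 kA km (D.q4 hm' (D.F_ne_top hP hm top k2)
            (D.F_ne_par hs k2 (fun h => h) hrO).symm)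
    · have kn : D.toF.gx.ar (D.toF.F n) (D.toF.F T1) := by
        by_cases hnO : D.toF.O n
        · obtain ⟨h, rfl⟩ := hnO
          exact D.ar_y (D.sd_smul sd k' hn)
        · exact D.ar_not hn hnO
      exact P45.sf_X4 kA kn (D.q4 hq (D.F_ne_top hP hm top k')
        (D.F_ne_par hs k' (fun h => h) hqO).symm)

/-- THE FOLD IS IN THE CLASS -/
theorem cls (hP : P.Cls) (hm : K.Min) {a b : V} (top : P.Top D.T a b D.y)
    (sd : ∀ T' m z, P.Top T' D.T m z → K.ar D.T z → K.ar D.y z) : (D.flat.P45 P).Cls where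
  top := D.ht hP.toSqE top (fun h => h)
  one i i' hi hi' j j' hj hj' h e := by
    obtain ⟨k0, k1⟩ := D.tp_lift hP.toSqE top sd hi hj
    obtain ⟨k2, k3⟩ := D.tp_lift hP.toSqE top sd hi' hj'
    refine Subtype.ext (hP.one i.1 i'.1 hi hi' j j' k1 k3 h ?_)
    have e' : h • D.toF.F (P.qt i.1 j) = D.toF.F (P.qt i'.1 j') := e
    have e2 := congrArg Subtype.val e'
    rw [D.toF.smul_coe, D.toF.F_coe, D.toF.F_coe, D.toF.f_not k0, D.toF.f_not k2] at e2
    exact e2
  par T' a b y a' b' y' h h' := by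
    obtain ⟨A, B, Y, k, -, -, rfl⟩ := D.top_lift hP.toSqE top sd h
    obtain ⟨A', B', Y', k', -, -, rfl⟩ := D.top_lift hP.toSqE top sd h'
    exact Or.inr (congrArg D.toF.F ((hP.par _ _ _ _ _ _ _ k k').resolve_left (fun h => h)))
  side T' a' b' y' h := by
    obtain ⟨A, B, Y, k, rfl, rfl, rfl⟩ := D.top_lift hP.toSqE top sd h
    have key : ∀ A B, P.Top T'.1 A B Y → K.ar A Y → D.toF.gx.ar (D.toF.F A) (D.toF.F Y) := by
      intro A B k kA
      by_cases hO : D.toF.O A
      · obtain ⟨h, rfl⟩ := hO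
        exact D.ar_y (D.sd_smul sd k kA)
      · exact D.ar_not kA hO
    rcases (hP.side _ _ _ _ k).resolve_left (fun h => h) with e | e
    · exact Or.inr (Or.inl (key A B k e))
    · exact Or.inr (Or.inr (key B A k.symm' e))
  Ey _ _ _ _ _ h := h
  Ea _ _ _ _ _ h := h.elim
  Es _ _ h := h
  nab _ _ _ _ h := (h.1.ck_ne D.nd).1
  nTy _ _ _ _ h := (h.1.ck_ne D.nd).2
  x1 := by
    rintro ⟨T', a'⟩ ⟨b', y', h⟩
    obtain ⟨A, B, Y, k, e, -, -⟩ := D.top_lift hP.toSqE top sd h
    have h1 := D.x1' hP hm top sd k T'.2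
    rw [D.toF.F_val T', e] at h1
    exact h1

end Sq1

end Pool.Agent.DI
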