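import Pool.Agent.DI.SfL
import Pool.Agent.DI.Main0
import Pool.Agent.DI.K1
import Pool.Agent.DI.NdT
import Pool.Agent.DI.SfC
import Pool.Agent.DI.RedT

/-!
# DI/SfS: the static fold of one thin top is a state

`F : C.P.SfD` (`C : St`). Proved here: sinks, finite sinks, heavy arrows, tops of the fold
(`topB`, `tf`, `fs`, `hv`), the numbers `V_s`, `Hv`, `V_D`, `V_Z`, the number of tops drops (`nt`). `St.sf`: the fold is a
state which is smaller (inputs: the class and the numbers sigma, exc, N'', p_4, p_5, phi_0 of the fold).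
-/

namespace Pool.Agent.DI

open MulAction
open Pool.Agent.SAF (InC SA orbs FinOrb oc oc_lt_of_inj)
open Pool.Agent.SAG (Zt)

namespace P45.SfD

variable {H V : Type} [Group H] [MulAction H V] {K : GX H V} {P : P45 K} (F : P.SfD) (hs : P.SqT)

/-! ### sinks -/

theorem snk_iff {c : F.W hs} : (F.gx hs).Snk c ↔ K.Snk c.1 := by
  constructor
  · intro h a ha
    exact h (F.f hs a) ⟨a, ha, rfl⟩
  · intro h d hd
    obtain ⟨a, ha, -⟩ := (F.gx_ar hs).1 hd
    exact h a ha

/-- a sink is not folded -/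
theorem snk_ne {z : V} (hz : K.Snk z) (h : H) : z ≠ h • F.T := by
  rintro rfl
  exact hz _ (K.ar_smul h _ _ F.top.2.1)

theorem f_snk {z : V} (hz : K.Snk z) : (F.f hs z).1 = z := F.f_not hs (F.snk_ne hz)

/-- the orbits of a set without folded vertices -/
theorem oc_coe {A : Set V} (hA : ∀ x ∈ A, ∀ h : H, x ≠ h • F.T) :
    oc H {c : F.W hs | c.1 ∈ A} = oc H A := by
  refine oc_rel (fun c : F.W hs => c.1) (fun c hc => hc) ?_ ?_
  · intro x hx
    refine ⟨F.f hs x, ?_, 1, ?_⟩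
    · show (F.f hs x).1 ∈ A
      rw [F.f_not hs (hA x hx)]
      exact hx
    · rw [one_smul]
      exact F.f_not hs (hA x hx)
  · intro c _ d _
    constructor
    · rintro ⟨g, rfl⟩
      exact ⟨g, rfl⟩
    · rintro ⟨g, e⟩
      exact ⟨g, Subtype.ext e⟩

theorem nVD : (F.gx hs).nVD = K.nVD := by
  have e : (F.gx hs).sVD = {c : F.W hs | c.1 ∈ K.sVD} := by
    ext c
    show ((F.gx hs).Snk c ∧ _ ∧ _) ↔ (K.Snk c.1 ∧ _ ∧ _)
    rw [F.snk_iff, F.stab]
  unfold GX.nVD
  rw [e]
  exact F.oc_coe hs fun x hx => F.snk_ne hx.1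

theorem nVZ : (F.gx hs).nVZ = K.nVZ := by
  have e : (F.gx hs).sVZ = {c : F.W hs | c.1 ∈ K.sVZ} := by
    ext c
    show ((F.gx hs).Snk c ∧ _ ∧ _) ↔ (K.Snk c.1 ∧ _ ∧ _)
    rw [F.snk_iff, F.stab]
  unfold GX.nVZ
  rw [e]
  exact F.oc_coe hs fun x hx => F.snk_ne hx.1

theorem nVs (hl : ∀ v, K.LC v) (hl' : ∀ c, (F.gx hs).LC c) (hb : ¬ SA H) :
    (F.gx hs).nVs = K.nVs := by
  have hv : ∀ x : V, K.VC x := fun x => by
    obtain ⟨y, hy⟩ := K.exists_nbr hb x
    exact ⟨y, K.EC_of_E hl hb hy⟩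
  have hv' : ∀ c : F.W hs, (F.gx hs).VC c := fun c => by
    obtain ⟨y, hy⟩ := (F.gx hs).exists_nbr hb c
    exact ⟨y, (F.gx hs).EC_of_E hl' hb hy⟩
  have e : (F.gx hs).sVs = {c : F.W hs | c.1 ∈ K.sVs} := by
    ext c
    show ((F.gx hs).Snk c ∧ _ ∧ _) ↔ (K.Snk c.1 ∧ _ ∧ _)
    rw [F.snk_iff, F.stab]
    exact and_congr_right fun _ => and_congr_right fun _ => ⟨fun _ => hv _, fun _ => hv' _⟩
  unfold GX.nVs
  rw [e]
  exact F.oc_coe hs fun x hx => F.snk_ne hx.1

/-! ### heavy arrows -/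

/-- the stabiliser of a pair of the fold -/
theorem stab2 {c d : F.W hs} : stabilizer H ((c, d) : F.W hs × F.W hs) = stabilizer H ((c.1, d.1) : V × V) := by
  ext g
  rw [mem_stabilizer_iff, mem_stabilizer_iff]
  constructor
  · intro k
    exact Prod.ext (congrArg (fun z : F.W hs × F.W hs => z.1.1) k)
      (congrArg (fun z : F.W hs × F.W hs => z.2.1) k)
  · intro k
    exact Prod.ext (Subtype.ext (congrArg Prod.fst k)) (Subtype.ext (congrArg Prod.snd k))

variable (tf : ∀ T a b y, P.Top T a b y → Finite ↥(stabilizer H T))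

include tf

theorem finT (h : H) : Finite ↥(stabilizer H (h • F.T)) :=
  (GX.fin_smul_iff h F.T).2 (tf _ _ _ _ F.top)

/-- a heavy arrow of the fold is a heavy arrow -/
theorem heavy {c d : F.W hs} (h : (F.gx hs).ar c d)
    (hi : Infinite ↥(stabilizer H ((c, d) : F.W hs × F.W hs))) : K.ar c.1 d.1 := by
  obtain ⟨x, hx, e0⟩ := (F.gx_ar hs).1 h
  subst e0
  rcases F.f_cases hs x with e | ⟨g, rfl, e⟩
  · rw [e]
    exact hx
  · exfalso
    rw [F.stab2] at hi
    have hc : Infinite ↥(stabilizer H c.1) := inf_of_arrow hi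
    have h2 : Infinite ↥(stabilizer H ((c.1, g • F.T) : V × V)) := by
      by_cases h1 : ∃ b, K.ar c.1 b ∧ g • F.T ≠ b
      · obtain ⟨b, hb, hne⟩ := h1
        refine inf_of_le_two hc (b := b) fun k hk => ?_
        have := K.ar_smul k _ _ hx
        rw [hk] at this
        exact GX.Sft.cases hx hb hne this
      · push Not at h1
        refine inf_of_le_two hc (b := g • F.T) fun k hk => Or.inl ?_
        have := K.ar_smul k _ _ hx
        rw [hk] at this
        exact (h1 _ this).symm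
    have := F.finT tf g
    have h3 : Finite ↥(stabilizer H ((c.1, g • F.T) : V × V)) := by
      refine Finite.of_injective (fun k : ↥(stabilizer H ((c.1, g • F.T) : V × V)) =>
        (⟨k.1, congrArg Prod.snd k.2⟩ : ↥(stabilizer H (g • F.T)))) ?_
      intro a b e
      have e' := congrArg Subtype.val e
      exact Subtype.ext e'
    exact not_finite_iff_infinite.2 h2 h3

/-- a heavy arrow gives a heavy arrow of the fold -/
theorem heavy' {n v : V} (h : K.ar n v) (hi : Infinite ↥(stabilizer H ((n, v) : V × V)))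
    (hv : ∀ g : H, v ≠ g • F.T) : (F.f hs n).1 = n ∧ (F.f hs v).1 = v ∧
      (F.gx hs).ar (F.f hs n) (F.f hs v) := by
  have hn : ∀ g : H, n ≠ g • F.T := by
    rintro g rfl
    exact not_finite_iff_infinite.2 (inf_of_arrow hi) (F.finT tf g)
  have e1 := F.f_not hs hn
  refine ⟨e1, F.f_not hs hv, v, ?_, rfl⟩
  rw [e1]
  exact h

theorem nHv (hl : ∀ v, K.LC v) (hl' : ∀ c, (F.gx hs).LC c) (hb : ¬ SA H) :
    (F.gx hs).nHv = K.nHv := by
  have e : (F.gx hs).sHv = {c : F.W hs | c.1 ∈ K.sHv} := by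
    ext c
    show ((F.gx hs).Snk c ∧ _) ↔ (K.Snk c.1 ∧ _)
    rw [F.snk_iff]
    refine and_congr_right fun h => ?_
    constructor
    · rintro ⟨n, h1, h2, h3⟩
      have k := F.heavy hs tf h1 h3
      refine ⟨n.1, k, K.EC_of_E hl hb (Or.inl k), ?_⟩
      rwa [F.stab2] at h3
    · rintro ⟨n, h1, h2, h3⟩
      obtain ⟨e1, e2, k⟩ := F.heavy' hs tf h1 h3 (F.snk_ne h)
      rw [F.f_coe] at k
      refine ⟨F.f hs n, k, (F.gx hs).EC_of_E hl' hb (Or.inl k), ?_⟩
      rw [F.stab2, e1]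
      exact h3
  unfold GX.nHv
  rw [e]
  exact F.oc_coe hs fun x hx => F.snk_ne hx.1

omit tf

/-! ### squares -/

/-- the partner of a top which is over the folded top -/
theorem side_y {T' s z : V} {h : H} (t : P.Top T' (h • F.T) s z) (hz : K.ar (h • F.T) z) :
    z = h • F.b ∧ K.ar F.y F.b := by
  have t1 := t.smul h⁻¹
  have hz' := K.ar_smul h⁻¹ _ _ hz
  rw [inv_smul_smul] at t1 hz'
  obtain ⟨e1, e2, -⟩ := F.sd _ _ _ t1 hz'
  exact ⟨by rw [← e1, smul_inv_smul], e2⟩

/-- A TOP OF THE FOLD IS A TOP -/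
theorem topB {c d1 d2 e : F.W hs} (t : (F.P' hs).Top c d1 d2 e) :
    ∃ a b y, P.Top c.1 a b y ∧ F.f hs a = d1 ∧ F.f hs b = d2 ∧ F.f hs y = e := by
  obtain ⟨hq, ha, hb⟩ := t
  obtain ⟨a', v, b', y', hq', rfl, rfl, rfl, rfl, n1, n2⟩ := ((F.D hs).flat.Q4_iff P).1 hq
  change F.f hs a' ≠ F.f hs b' at n1
  change F.f hs v ≠ F.f hs y' at n2
  have r1 : K.rk (F.f hs a').1 < K.rk (F.f hs v).1 := (F.gx hs).ar_rk _ _ ha
  have r2 : K.rk (F.f hs b').1 < K.rk (F.f hs v).1 := (F.gx hs).ar_rk _ _ hb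
  have rv := F.rk_f hs v
  -- a top side is impossible
  have no1 : ∀ {a s' b : V}, P.Top a s' v b → F.f hs a ≠ F.f hs b →
      K.rk (F.f hs a).1 < K.rk (F.f hs v).1 → False := by
    intro a s' b t hne hr
    rcases F.f_cases hs a with e | ⟨h, rfl, e⟩
    · have := K.ar_rk _ _ t.2.2
      rw [e] at hr
      omega
    · have e1 := hs.partner t (F.top.smul h)
      apply hne
      rw [e1, F.f_Ty]
  rcases hs.q4 hq' with t | t | t | t
  · exact (no1 t n1 r1).elim
  · rcases F.f_cases hs v with e | ⟨h, rfl, e⟩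
    · refine ⟨a', b', y', ?_, rfl, rfl, rfl⟩
      show P.Top (F.f hs v).1 a' b' y'
      rw [e]
      exact t
    · exfalso
      have e1 := hs.partner t (F.top.smul h)
      apply n2
      rw [e1, F.f_Ty]
  · exact (no1 t.symm' n1.symm r2).elim
  · exfalso
    -- `v` is the partner of `y'`
    have no2 : ∀ {a b : V}, P.Top y' a b v → K.ar a v → K.rk (F.f hs a).1 < K.rk (F.f hs v).1 →
        False := by
      intro a b t hav hr
      rcases F.f_cases hs a with e | ⟨h, rfl, e⟩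
      · have := K.ar_rk _ _ hav
        rw [e] at hr
        omega
      · obtain ⟨e1, e2⟩ := F.side_y t hav
        have hb : ∀ g : H, v ≠ g • F.T := by
          intro g e3
          have h3 := congrArg K.rk (e1.symm.trans e3)
          rw [K.rk_smul, K.rk_smul] at h3
          have := K.ar_rk _ _ F.top.2.2
          omega
        rw [F.f_not hs hb, e, e1, K.rk_smul, K.rk_smul] at hr
        have := K.ar_rk _ _ e2
        omega
    rcases (hs.side _ _ _ _ t).resolve_left id with k | k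
    · exact no2 t k r2
    · exact no2 t.symm' k r1

theorem tf' (tf : ∀ T a b y, P.Top T a b y → Finite ↥(stabilizer H T)) :
    ∀ T a b y, (F.P' hs).Top T a b y → Finite ↥(stabilizer H T) := by
  intro T a b y t
  obtain ⟨a', b', y', t', -⟩ := F.topB hs t
  rw [F.stab]
  exact tf _ _ _ _ t'

/-- a finite sink is in no square -/
theorem fs' (fs : ∀ z, K.FS z → P.NoQ z) : ∀ z, (F.gx hs).FS z → (F.P' hs).NoQ z := by
  rintro z ⟨hz1, hz2⟩ a b y hq
  rw [F.stab] at hz2
  have hz : K.FS z.1 := ⟨(F.snk_iff hs).1 hz1, hz2⟩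
  obtain ⟨a', v, b', y', hq', rfl, rfl, rfl, rfl, n1, n2⟩ := ((F.D hs).flat.Q4_iff P).1 hq
  change K.FS (F.f hs v).1 at hz
  rcases F.f_cases hs v with e | ⟨h, rfl, e⟩
  · rw [e] at hz
    exact fs _ hz _ _ _ hq'
  · rw [e] at hz
    exact fs _ hz _ _ _ (F.top.smul h).1.rot.rot

/-- no heavy arrow in a square -/
theorem hv' (tf : ∀ T a b y, P.Top T a b y → Finite ↥(stabilizer H T))
    (hv : ∀ x a b y, Q4 P x a b y → K.ar x a → Finite ↥(stabilizer H ((x, a) : V × V))) :
    ∀ x a b y, Q4 (F.P' hs) x a b y → (F.gx hs).ar x a →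
      Finite ↥(stabilizer H ((x, a) : F.W hs × F.W hs)) := by
  intro x a b y hq hx
  by_contra hcon
  have hi := not_finite_iff_infinite.1 hcon
  have k := F.heavy hs tf hx hi
  rw [F.stab2] at hi
  obtain ⟨x', a', b', y', hq', ex, ea, -, -, -, -⟩ := ((F.D hs).flat.Q4_iff P).1 hq
  change F.f hs x' = x at ex
  change F.f hs a' = a at ea
  subst ex ea
  -- a pole of a translate of `T`
  have own : ∀ (h : H) (c : V), K.ar (h • F.T) c → ∃ s, Q4 P c (h • F.T) s (h • F.y) := by
    intro h c hc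
    have t := F.top.smul h
    rcases hs.sides t hc with e | e
    · rw [e]
      exact ⟨_, t.1⟩
    · rw [e]
      exact ⟨_, t.symm'.1⟩
  rcases F.f_cases hs x' with e1 | ⟨g, rfl, e1⟩ <;> rcases F.f_cases hs a' with e2 | ⟨h, rfl, e2⟩ <;>
    rw [e1, e2] at k hi
  · exact not_finite_iff_infinite.2 hi (hv _ _ _ _ hq' k)
  · rcases hq'.E1 with k1 | k1
    · have h2 : Infinite ↥(stabilizer H ((x', h • F.T) : V × V)) := by
        have hne : h • F.T ≠ h • F.y := fun e => hs.nTy _ _ _ _ F.top (smul_left_cancel h e)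
        refine inf_of_le_two (inf_of_arrow hi) (b := h • F.y) fun l hl => ?_
        have := K.ar_smul l _ _ k1
        rw [hl] at this
        exact GX.Sft.cases k1 k hne this
      have := F.finT tf h
      have h3 : Finite ↥(stabilizer H ((x', h • F.T) : V × V)) := by
        refine Finite.of_injective (fun l : ↥(stabilizer H ((x', h • F.T) : V × V)) =>
          (⟨l.1, congrArg Prod.snd l.2⟩ : ↥(stabilizer H (h • F.T)))) ?_
        intro a b e
        have e' := congrArg Subtype.val e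
        exact Subtype.ext e'
      exact not_finite_iff_infinite.2 h2 h3
    · obtain ⟨s, hs'⟩ := own h x' k1
      exact not_finite_iff_infinite.2 hi (hv _ _ _ _ hs'.rot.rot.symm k)
  · rcases hq'.E1 with k1 | k1
    · obtain ⟨s, hs'⟩ := own g a' k1
      exact not_finite_iff_infinite.2 hi (hv _ _ _ _ hs'.rot.rot.rot k)
    · have r1 := K.ar_rk _ _ k1
      have r2 := K.ar_rk _ _ k
      have r3 := hs.rk_lt F.top
      rw [K.rk_smul] at r1 r2
      omega
  · have r := hq'.E1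
    rcases r with r | r
    · have := K.ar_rk _ _ r
      rw [K.rk_smul, K.rk_smul] at this
      omega
    · have := K.ar_rk _ _ r
      rw [K.rk_smul, K.rk_smul] at this
      omega

/-- THE SIDES OF A TOP STAY DIFFERENT -/
theorem noOne (hm : K.Min) (hc : P.Cls) : F.NoOne hc.toSqE := by
  intro t s s' z k e
  by_cases hr : K.rk F.T < K.rk t
  · exact (F.D hc.toSqE).nadj hm hc k hr (Or.inl e)
  · have low : ∀ {c : V}, K.ar t c → (F.f hc.toSqE c).1 = c := by
      intro c h
      refine F.f_not hc.toSqE ?_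
      rintro g rfl
      have := K.ar_rk _ _ h
      rw [K.rk_smul] at this
      omega
    have e' := congrArg Subtype.val e
    rw [low k.2.1, low k.2.2] at e'
    exact hc.nab _ _ _ _ k e'

/-- the number of orbits of tops drops -/
theorem nt : oc H (F.P' hs).tops < oc H P.tops := by
  refine oc_lt_of_inj (K.fo _) (fun c : F.W hs => c.1) ?_ ?_ (b0 := F.T) ⟨_, _, _, F.top⟩ ?_
  · rintro c ⟨a, b, y, t⟩
    obtain ⟨a', b', y', t', -⟩ := F.topB hs t
    exact ⟨_, _, _, t'⟩
  · rintro c - d - ⟨g, e⟩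
    exact ⟨g, Subtype.ext e⟩
  · rintro c - g e
    refine F.coe_ne hs c g⁻¹ ?_
    have e : g • c.1 = F.T := e
    rw [← e, inv_smul_smul]

end P45.SfD

/-! ### the state -/

namespace St

variable (C : St)

/-- the inputs: the numbers of the fold -/
structure SfIn (F : C.P.SfD) : Prop where
  s : C.P.sigma ≤ (F.P' C.cls.toSqE).sigma
  e : C.P.exc ≤ (F.P' C.cls.toSqE).exc
  n : ∀ nd : (F.P' C.cls.toSqE).ND, (F.P' C.cls.toSqE).exc = C.P.exc →
    ((F.P' C.cls.toSqE).fc nd).nN ≤ (C.P.fc C.nd).nN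
  p4 : (F.gx C.cls.toSqE).p4 ≤ C.K.p4
  p5 : (F.gx C.cls.toSqE).p5 ≤ C.K.p5
  ph : C.K.phA ≤ (F.gx C.cls.toSqE).phA

variable {C} {F : C.P.SfD}

theorem sf_lc (c : F.W C.cls.toSqE) : (F.gx C.cls.toSqE).LC c :=
  F.lc (F.noOne C.Min C.cls) C.Min C.cls.x1 C.lc c

variable (F) in
/-- the class (helper52) -/
theorem sf_cls : (F.P' C.cls.toSqE).Cls :=
  (F.D C.cls.toSqE).cls C.cls C.Min (a := F.a) (b := F.b) F.top (fun _ _ _ k hz => by
    obtain ⟨rfl, h, -⟩ := F.sd _ _ _ k hz
    exact h)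

variable (F) in
/-- THE FOLDED STATE -/
noncomputable def sfSt : St where
  H := C.H
  V := F.W C.cls.toSqE
  grp := C.grp
  act := inferInstance
  K := F.gx C.cls.toSqE
  P := F.P' C.cls.toSqE
  bad := C.bad
  min H' V' _ _ K' hb := ((F.D C.cls.toSqE).toF.area_le).trans (C.min H' V' K' hb)
  lc := sf_lc
  cls := sf_cls F
  tf := F.tf' C.cls.toSqE C.tf
  fs := F.fs' C.cls.toSqE C.fs
  hv := F.hv' C.cls.toSqE C.tf C.hv
  lw C' := by
    rw [F.nVs C.cls.toSqE C.lc sf_lc C.bad, F.nHv C.cls.toSqE C.tf C.lc sf_lc C.bad]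
    exact C.lw C'

/-- LEMMA SF: a state with a foldable thin top has a smaller state -/
theorem sf (I : C.SfIn F) : ∃ N : St, N.Lt C := by
  refine ⟨sfSt F, ?_⟩
  by_cases he : (F.P' C.cls.toSqE).exc = C.P.exc
  · refine Or.inr ⟨?_, F.nt C.cls.toSqE⟩
    exact {
      s := I.s
      e := I.e
      n := I.n _ he
      p4 := I.p4
      p5 := I.p5
      vd := (F.nVD C.cls.toSqE).le
      ph := I.ph
      vz := (F.nVZ C.cls.toSqE).ge }
  · left
    have h1 : (sfSt F).nums.s = (F.P' C.cls.toSqE).sigma := rfl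
    have h2 : (sfSt F).nums.e = (F.P' C.cls.toSqE).exc := rfl
    rcases I.s.lt_or_eq with hs | hs
    · exact Nums.Lt.of_s hs
    · refine Or.inr ⟨?_, Or.inl ?_⟩
      · show -((sfSt F).nums.s : ℤ) = -(C.nums.s : ℤ)
        rw [h1, ← hs]
        rfl
      · show -(sfSt F).nums.e < -C.nums.e
        rw [h2]
        have h3 : C.nums.e = C.P.exc := rfl
        have h4 := I.e
        rw [h3]
        have : (F.P' C.cls.toSqE).exc ≠ C.P.exc := he
        omega

/-- A STATE WITH A FOLDABLE TOP, helper45's form -/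
theorem exists_SfD (h : ¬ C.P.red (fun _ => False)) : Nonempty C.P.SfD := by
  unfold P45.red at h
  push Not at h
  obtain ⟨T, a, b, y, k, -, hay, h1, h2, h3, h4, -⟩ := h
  refine ⟨{
    T := T
    a := a
    b := b
    y := y
    top := k
    ay := hay
    xa := le_antisymm h1 (C.cls.x1 (T, a) ⟨b, y, k⟩)
    xb := le_antisymm h2 (C.cls.x1 (T, b) ⟨a, y, k.symm'⟩)
    sd := fun T' m z k' hz => ?_
    fp := h4.fp
    ny := h4.ny }⟩
  exact h3 T' m z k' hz

/-- THE FIRST ALTERNATIVE OF A STEP: a state with a foldable top is not minimal -/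
theorem sf_start (hI : ∀ F : C.P.SfD, C.SfIn F) (h : ¬ C.P.red (fun _ => False)) :
    ∃ N : St, N.Lt C := by
  obtain ⟨F⟩ := exists_SfD h
  exact sf (hI F)

end St

end Pool.Agent.DI
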