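import Pool.Agent.DI.SqFb
import Pool.Agent.DI.HrW
import Pool.Agent.DI.BndE
import Pool.Agent.DI.PhA
import Pool.Agent.DI.NX

/-!
# DI/SfB: the static fold of one orbit of tops, one-pole vertices, dropped squares, the class

`D : Sq1 K` with `P.Top D.T a b D.y`, `P.Cls`, `K.Min`.
`D.one`: no vertex with a strand gets one pole in the fold `K / (T ~ y)` (HAIR, 37's `hairW` in the fold).
`D.bt_iff`: a square is dropped iff its top is folded. `D.nd`, `D.ht`: the squares of the fold are not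
degenerate and have tops. `D.top_lift`, `D.top_F`: the tops of the fold (if `T` is a side only of walks whose
partner is an out-neighbour of `y`). `D.cls`: the fold is in the class.
-/

namespace Pool.Agent.DI

open MulAction
open Pool.Agent.SAF (InC orbs FinOrb oc mk_eq_iff FinOrb_iff)

variable {H V : Type} [Group H] [MulAction H V] {K : GX H V} {P : P45 K}

/-! ### positions, walks, strands -/

theorem Qn.a5 {n T a y z : V} (h : Qn P n T a y z) : ∃ g i j, ¬ P.sq i ∧ P.A5 g i j T a := by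
  obtain ⟨g, i, j, hi, h⟩ := h
  have e : ∀ j : Fin 5, j + 1 + 1 = j + 2 := by decide
  rcases h with ⟨rfl, rfl, rfl, rfl, rfl⟩ | ⟨rfl, rfl, rfl, rfl, rfl⟩
  · exact ⟨g, i, j + 1, hi, Or.inl ⟨rfl, by rw [e]⟩⟩
  · exact ⟨g, i, j, hi, Or.inr ⟨rfl, rfl⟩⟩

theorem Q4.a4 {n T a q : V} (h : Q4 P n T a q) : ∃ g i j, P.sq i ∧ P.A4 g i j T a := by
  obtain ⟨g, i, j, hi, h⟩ := h
  have e : ∀ j : Fin 4, j + 1 + 1 = j + 2 := by decide
  rcases h with ⟨rfl, rfl, rfl, rfl⟩ | ⟨rfl, rfl, rfl, rfl⟩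
  · exact ⟨g, i, j + 1, hi, Or.inl ⟨rfl, by rw [e]⟩⟩
  · exact ⟨g, i, j, hi, Or.inr ⟨rfl, rfl⟩⟩

theorem P45.A5.qn {g : H} {i : K.I} (hi : ¬ P.sq i) {j : Fin 5} {x y : V} (h : P.A5 g i j x y) :
    ∃ n b c, Qn P n x y b c := by
  have e1 : ∀ j : Fin 5, j + 4 + 1 = j := by decide
  have e2 : ∀ j : Fin 5, j + 4 + 2 = j + 1 := by decide
  rcases h with ⟨rfl, rfl⟩ | ⟨rfl, rfl⟩
  · have k := Qn_pt (P := P) g hi (j + 4)
    rw [e1, e2] at k
    exact ⟨_, _, _, k⟩
  · exact ⟨_, _, _, (Qn_pt (P := P) g hi j).symm⟩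

theorem P45.A4.q4 {g : H} {i : K.I} (hi : P.sq i) {j : Fin 4} {x y : V} (h : P.A4 g i j x y) :
    ∃ n b, Q4 P n x y b := by
  have e1 : ∀ j : Fin 4, j + 3 + 1 = j := by decide
  have e2 : ∀ j : Fin 4, j + 3 + 2 = j + 1 := by decide
  rcases h with ⟨rfl, rfl⟩ | ⟨rfl, rfl⟩
  · have k := Q4_qt (P := P) g hi (j + 3)
    rw [e1, e2] at k
    exact ⟨_, _, k⟩
  · exact ⟨_, _, (Q4_qt (P := P) g hi j).symm⟩

namespace P45

/-- a pentagon through an arrow is a strand -/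
theorem sf_X5 {n T a y z : V} (ha : K.ar T a) (h : Qn P n T a y z) : 1 ≤ P.X T a := by
  obtain ⟨g, i, j, hi, k⟩ := h.a5
  obtain ⟨b, hb⟩ := k.fl hi
  rw [X_eq]
  unfold Xo
  have h1 : 1 ≤ oc H {f : FL K | f ∈ P.RP ∧ omk H (fy f, fz f) = omk H (T, a)} := by
    rw [one_le_oc50 (fin_RP.mono fun _ k => k.1)]
    refine ⟨P.pf5 i hi j g b, ⟨?_, ?_⟩, by rw [hb]⟩
    · cases b <;> exact hi
    · rw [show fy (P.pf5 i hi j g b) = T from congrArg Prod.fst hb,
        show fz (P.pf5 i hi j g b) = a from congrArg Prod.snd hb]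
      exact ha
  omega

/-- a walk from above through an arrow is a strand -/
theorem sf_X4 {n T a q : V} (ha : K.ar T a) (hn : K.ar n T) (h : Q4 P n T a q) :
    1 ≤ P.X T a := by
  rw [X_eq]
  unfold Xo
  have h1 : 1 ≤ oc H {p : (V × V) × (V × V) | p ∈ P.ZP ∧ omk H p.1 = omk H (T, a)} := by
    rw [one_le_oc50 (fin_ZP.mono fun _ k => k.1)]
    exact ⟨((T, a), (q, n)), ⟨h, ha, hn⟩, rfl⟩
  omega

/-- no square is degenerate -/
theorem SqE.nd52 {E : V → Prop} (hs : P.SqE E) : P.ND := by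
  intro i hi
  obtain ⟨j, hj⟩ := hs.top i hi
  have k := P45.ck_tp hi hj
  have n1 := hs.nab _ _ _ _ k
  have n2 := hs.nTy _ _ _ _ k
  fin_cases j
  · exact ⟨n2, n1⟩
  · exact ⟨n1.symm, n2⟩
  · exact ⟨n2.symm, n1.symm⟩
  · exact ⟨n1, n2.symm⟩

end P45

/-! ### the fold of one orbit -/

namespace Sq1

variable (D : Sq1 K)

theorem rk_O {x : V} (hx : D.toF.O x) : K.rk x = K.rk D.T := by
  obtain ⟨h, rfl⟩ := hx
  rw [K.rk_smul]

theorem rk_fO {x : V} (hx : D.toF.O x) : K.rk (D.toF.f x) = K.rk D.y := by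
  obtain ⟨h, rfl⟩ := hx
  rw [D.f_T, K.rk_smul]

theorem f_big {x : V} (h : K.rk D.T < K.rk x) : D.toF.f x = x := by
  refine D.toF.f_not fun k => ?_
  rw [D.rk_O k] at h
  exact absurd h (lt_irrefl _)

theorem sf_T (h : H) : D.toF.F (h • D.T) = D.toF.F (h • D.y) := by
  rw [D.toF.F_eq, D.f_T]
  refine (D.toF.f_not ?_).symm
  rintro ⟨k, e⟩
  have h1 := congrArg K.rk e
  rw [K.rk_smul, K.rk_smul] at h1
  have := D.rk
  omega

/-- vertices with the same image -/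
theorem F_cases {x z : V} (e : D.toF.F x = D.toF.F z) : x = z ∨ D.toF.O x ∨ D.toF.O z := by
  by_cases hx : D.toF.O x
  · exact Or.inr (Or.inl hx)
  · by_cases hz : D.toF.O z
    · exact Or.inr (Or.inr hz)
    · left
      have k := D.toF.F_eq.1 e
      rwa [D.toF.f_not hx, D.toF.f_not hz] at k

/-- the squares of the fold are not degenerate -/
theorem nd : (D.flat.P45 P).ND := fun i hi =>
  ⟨D.flat.opp_ne P hi i.2 0, D.flat.opp_ne P hi i.2 1⟩

/-- the top of a folded orbit: the square is dropped -/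
theorem bt_of {E : V → Prop} (hs : P.SqE E) {a b : V} (top : P.Top D.T a b D.y) (hE : ¬ E D.T)
    {i : K.I} (hi : P.sq i) {j : Fin 4} (hj : P.tp i j) (hO : D.toF.O (P.qt i j)) :
    D.toF.Bt i := by
  rw [D.flat.Bt4_iff P hi]
  obtain ⟨h, e⟩ := hO
  have k := P45.ck_tp hi hj
  rw [e] at k
  have hE' : ¬ E (h • D.T) := fun k => hE (by
    have := hs.Es h⁻¹ _ k
    rwa [inv_smul_smul] at this)
  have e1 := (hs.par _ _ _ _ _ _ _ k (top.smul h)).resolve_left hE'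
  have e2 : D.toF.F (P.qt i j) = D.toF.F (P.qt i (j + 2)) := by
    rw [e, e1]
    exact D.sf_T h
  fin_cases j
  · exact Or.inl e2
  · exact Or.inr e2
  · exact Or.inl e2.symm
  · exact Or.inr e2.symm

/-- every square of the fold has a top -/
theorem ht {E : V → Prop} (hs : P.SqE E) {a b : V} (top : P.Top D.T a b D.y) (hE : ¬ E D.T) :
    ∀ i, (D.flat.P45 P).sq i → ∃ j, (D.flat.P45 P).tp i j := by
  intro i hi
  obtain ⟨j, h1, h2⟩ := hs.top i.1 hi
  have hO : ¬ D.toF.O (P.qt i.1 j) := fun k => i.2 (D.bt_of hs top hE hi ⟨h1, h2⟩ k)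
  refine ⟨j, ⟨_, ?_, rfl⟩, ⟨_, ?_, rfl⟩⟩
  · show K.ar (D.toF.f (P.qt i.1 j)) _
    rw [D.toF.f_not hO]
    exact h1
  · show K.ar (D.toF.f (P.qt i.1 j)) _
    rw [D.toF.f_not hO]
    exact h2

/-- the tops of large rank of the fold -/
theorem top_big {T' a' b' y' : D.toF.W} (h : (D.flat.P45 P).Top T' a' b' y')
    (hr : K.rk D.T < K.rk T'.1) : ∃ A B Y, P.Top T'.1 A B Y ∧ D.toF.F A = a' ∧ D.toF.F B = b' ∧
      D.toF.F Y = y' := by
  obtain ⟨hq, h1, h2⟩ := h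
  obtain ⟨A, T1, B, Y, hq, e1, e2, e3, e4, -⟩ := (D.flat.Q4_iff P).1 hq
  have hT : T1 = T'.1 := by
    by_cases k : D.toF.O T1
    · have r := D.rk_fO k
      rw [show D.toF.f T1 = T'.1 from congrArg Subtype.val e2] at r
      have := D.rk
      omega
    · exact (D.toF.f_not k).symm.trans (congrArg Subtype.val e2)
  have key : ∀ C, K.E T1 C → D.toF.gx.ar T' (D.toF.F C) → K.ar T1 C := by
    rintro C (k | k) ⟨x, hx, ex⟩
    · exact k
    · exfalso
      have r1 := K.ar_rk _ _ k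
      rw [hT] at r1
      have r2 : D.toF.f C = C := D.f_big (by omega)
      have r3 := K.ar_rk _ _ hx
      have r4 := D.toF.rk_f x
      rw [D.toF.F_eq.1 ex, r2] at r4
      omega
  refine ⟨A, B, Y, ?_, e1, e3, e4⟩
  rw [← hT]
  refine ⟨hq, key A hq.E1.symm ?_, key B hq.E2 ?_⟩
  · rw [e1]
    exact h1
  · rw [e3]
    exact h2

/-- pentagons go to pentagons -/
theorem qn {a q b y z : V} (h : Qn P a q b y z) :
    Qn (D.flat.P45 P) (D.toF.F a) (D.toF.F q) (D.toF.F b) (D.toF.F y) (D.toF.F z) :=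
  (D.flat.Qn_iff P).2 ⟨_, _, _, _, _, h, rfl, rfl, rfl, rfl, rfl⟩

/-- walks with different opposite vertices go to walks -/
theorem q4 {a q b y : V} (h : Q4 P a q b y) (h1 : D.toF.F a ≠ D.toF.F b)
    (h2 : D.toF.F q ≠ D.toF.F y) :
    Q4 (D.flat.P45 P) (D.toF.F a) (D.toF.F q) (D.toF.F b) (D.toF.F y) :=
  (D.flat.Q4_iff P).2 ⟨_, _, _, _, h, rfl, rfl, rfl, rfl, h1, h2⟩

/-- a walk `x → n → z`, `q` above `T` is kept -/
theorem q4_big (nd : P.ND) {x n z q : V} (h : Q4 P x n z q) (hx : K.ar x n) (hn : K.ar n z)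
    (hr : K.rk D.T < K.rk n) :
    Q4 (D.flat.P45 P) (D.toF.F x) (D.toF.F n) (D.toF.F z) (D.toF.F q) := by
  have r1 := K.ar_rk _ _ hx
  have r2 := K.ar_rk _ _ hn
  refine D.q4 h (fun e => ?_) fun e => ?_
  · have k := D.toF.F_eq.1 e
    rw [D.f_big (by omega)] at k
    have := D.toF.rk_f z
    rw [← k] at this
    omega
  · have k := D.toF.F_eq.1 e
    rw [D.f_big hr] at k
    by_cases hq : D.toF.O q
    · have := D.rk_fO hq
      rw [← k] at this
      have := D.rk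
      omega
    · rw [D.toF.f_not hq] at k
      exact (h.ck_ne nd).2 k

theorem ar_big {x z : V} (h : K.ar x z) (hr : K.rk D.T < K.rk x) :
    D.toF.gx.ar (D.toF.F x) (D.toF.F z) := by
  refine ⟨z, ?_, rfl⟩
  show K.ar (D.toF.f x) z
  rw [D.f_big hr]
  exact h

/-- the tops of large rank of the fold have strands -/
theorem x1_big (hP : P.Cls) {T' a' b' y' : D.toF.W} (h : (D.flat.P45 P).Top T' a' b' y')
    (hr : K.rk D.T < K.rk T'.1) : 1 ≤ (D.flat.P45 P).X T' a' := by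
  obtain ⟨A, B, Y, k, rfl, rfl, rfl⟩ := D.top_big h hr
  have e : D.toF.F T'.1 = T' := D.toF.F_val T'
  have ha : D.toF.gx.ar T' (D.toF.F A) := h.2.1
  rcases P45.hw_strand (hP.x1 (T'.1, A) ⟨B, Y, k⟩) with ⟨n, u, v, hq⟩ | ⟨n, q, hq, hn⟩
  · have := D.qn hq
    rw [e] at this
    exact P45.sf_X5 ha this
  · have h1 := D.q4_big hP.toSqE.nd52 hq hn k.2.1 hr
    have h2 := D.ar_big hn (hr.trans (K.ar_rk _ _ hn))
    rw [e] at h1 h2
    exact P45.sf_X4 ha h2 h1

/-- NO VERTEX WITH A STRAND GETS ONE POLE -/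
theorem one (hP : P.Cls) (hm : K.Min) {a b : V} (top : P.Top D.T a b D.y) {n z z' : V}
    (h1 : K.ar n z) (h2 : K.ar n z') (hne : z ≠ z') (e : D.toF.F z = D.toF.F z')
    (hs : (∃ x u v, Qn P x n z u v) ∨ ∃ x q, Q4 P x n z q ∧ K.ar x n) : False := by
  have hr : K.rk D.T < K.rk n := by
    have r1 := K.ar_rk _ _ h1
    have r2 := K.ar_rk _ _ h2
    rcases D.F_cases e with k | k | k
    · exact absurd k hne
    · rw [D.rk_O k] at r1
      exact r1
    · rw [D.rk_O k] at r2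
      exact r2
  have en : (D.toF.F n).1 = n := D.f_big hr
  have hc : D.toF.gx.ar (D.toF.F n) (D.toF.F z) := D.ar_big h1 hr
  have hu : ∀ d, D.toF.gx.ar (D.toF.F n) d → d = D.toF.F z := by
    rintro d ⟨x, hx, rfl⟩
    rw [en] at hx
    rcases out_two h1 h2 hne hx with rfl | rfl
    · rfl
    · exact e.symm
  obtain ⟨k1, k2⟩ := P45.hairW (D.flat.P45 P) D.nd (D.toF.min hm)
    (D.ht hP.toSqE top (fun h => h)) (fun T' a' b' y' h hr' => D.x1_big hP h (by
      have : K.rk (D.toF.F n).1 < K.rk T'.1 := hr'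
      rw [en] at this
      omega)) hc hu
  rcases hs with ⟨x, u, v, hq⟩ | ⟨x, q, hq, hx⟩
  · exact k1 _ _ _ (D.qn hq)
  · exact k2 _ _ (D.q4_big hP.toSqE.nd52 hq hx h1 hr) (D.ar_big hx (hr.trans (K.ar_rk _ _ hx)))

/-- the poles of the tops stay different -/
theorem F_ne_top (hP : P.Cls) (hm : K.Min) {a b : V} (top : P.Top D.T a b D.y) {T A B Y : V}
    (k : P.Top T A B Y) : D.toF.F A ≠ D.toF.F B := fun e => by
  refine D.one hP hm top k.2.1 k.2.2 (hP.nab _ _ _ _ k) e ?_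
  rcases P45.hw_strand (hP.x1 (T, A) ⟨B, Y, k⟩) with ⟨n, u, v, hq⟩ | ⟨n, q, hq, hn⟩
  · exact Or.inl ⟨n, u, v, hq⟩
  · exact Or.inr ⟨n, q, hq, hn⟩

/-- the partner has smaller rank -/
theorem _root_.Pool.Agent.DI.P45.SqE.rk52 {E : V → Prop} (hs : P.SqE E) {T A B Y : V}
    (k : P.Top T A B Y) (hE : ¬ E T) : K.rk Y < K.rk T := by
  rcases (hs.side _ _ _ _ k).resolve_left hE with h | h
  · exact (K.ar_rk _ _ h).trans (K.ar_rk _ _ k.2.1)
  · exact (K.ar_rk _ _ h).trans (K.ar_rk _ _ k.2.2)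

/-- top and partner stay different -/
theorem F_ne_par {E : V → Prop} (hs : P.SqE E) {T A B Y : V} (k : P.Top T A B Y) (hE : ¬ E T)
    (hO : ¬ D.toF.O T) : D.toF.F T ≠ D.toF.F Y := fun e => by
  have r := hs.rk52 k hE
  have e := D.toF.F_eq.1 e
  rw [D.toF.f_not hO] at e
  have := D.toF.rk_f Y
  rw [← e] at this
  omega

/-- THE DROPPED SQUARES -/
theorem bt_iff (hP : P.Cls) (hm : K.Min) {a b : V} (top : P.Top D.T a b D.y) {i : K.I}
    (hi : P.sq i) : D.toF.Bt i ↔ ∃ j, P.tp i j ∧ D.toF.O (P.qt i j) := by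
  constructor
  · intro hB
    obtain ⟨j, hj⟩ := hP.top i hi
    refine ⟨j, hj, ?_⟩
    by_contra hO
    have k := P45.ck_tp hi hj
    have n1 := D.F_ne_top hP hm top k
    have n2 := D.F_ne_par hP.toSqE k (fun h => h) hO
    rw [D.flat.Bt4_iff P hi] at hB
    fin_cases j
    · rcases hB with e | e
      · exact n2 e
      · exact n1 e
    · rcases hB with e | e
      · exact n1 e.symm
      · exact n2 e
    · rcases hB with e | e
      · exact n2 e.symm
      · exact n1 e.symm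
    · rcases hB with e | e
      · exact n1 e
      · exact n2 e.symm
  · rintro ⟨j, hj, hO⟩
    exact D.bt_of hP.toSqE top (fun h => h) hi hj hO

end Sq1

end Pool.Agent.DI
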