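import Pool.Agent.DI.Xt0
import Pool.Agent.DI.SeenQ
import Pool.Agent.DI.XtB
import Pool.Agent.DI.Frame

/-!
# DI/State: the states of the descent

`St`: a group `H` which is not strongly accessible, a complex `K` with listed pentagons and squares
(`P : P45 K`) of minimal area among all complexes of all such groups, with connected links, squares
of the static class (`P.Cls`), finite tops, no finite sink and no heavy arrow in a square, in the light world
(`V_s`, then `Hv` maximal among all candidates).
`Cd.LW.st`: a candidate of the light world is a state (without squares). `exists_St`: a finitely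
presented group which is not strongly accessible gives a state. `St.main`: the frame.
-/

namespace Pool.Agent.DI

open MulAction
open Pool.Agent.SAF (InC SA orbs FinOrb oc Decomp)

/-- the states -/
structure St : Type 1 where
  H : Type
  V : Type
  grp : Group H
  act : MulAction H V
  K : GX H V
  P : P45 K
  bad : ¬ SA H
  min : ∀ (H' V' : Type) [Group H'] [MulAction H' V'] (K' : GX H' V'), ¬ SA H' →
    K.area ≤ K'.area
  lc : ∀ v, K.LC v
  cls : P.Cls
  tf : ∀ T a b y, P.Top T a b y → Finite ↥(stabilizer H T)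
  fs : ∀ z, K.FS z → P.NoQ z
  hv : ∀ x a b y, Q4 P x a b y → K.ar x a → Finite ↥(stabilizer H ((x, a) : V × V))
  lw : ∀ C : Cd, C.K.nVs ≤ K.nVs ∧ (C.K.nVs = K.nVs → C.K.nHv ≤ K.nHv)

namespace St

attribute [instance] St.grp St.act

/-- no square is degenerate -/
theorem nd (C : St) : C.P.ND := by
  intro i hi
  obtain ⟨j, h1, h2⟩ := C.cls.top i hi
  have hT : ∀ j : Fin 4, C.K.ar (C.P.qt i j) (C.P.qt i (j + 1)) → C.K.ar (C.P.qt i j) (C.P.qt i (j + 3)) →
      C.P.Top (C.P.qt i j) (C.P.qt i (j + 3)) (C.P.qt i (j + 1)) (C.P.qt i (j + 2)) := by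
    intro j h1 h2
    have h := Q4_qt (P := C.P) (1 : C.H) hi (j + 3)
    simp only [one_smul] at h
    have e1 : j + 3 + 1 = j := by
      have : ∀ j : Fin 4, j + 3 + 1 = j := by decide
      exact this j
    have e2 : j + 3 + 2 = j + 1 := by
      have : ∀ j : Fin 4, j + 3 + 2 = j + 1 := by decide
      exact this j
    have e3 : j + 3 + 3 = j + 2 := by
      have : ∀ j : Fin 4, j + 3 + 3 = j + 2 := by decide
      exact this j
    rw [e1, e2, e3] at h
    exact ⟨h, h2, h1⟩
  have k := hT j h1 h2
  have n1 := C.cls.nab _ _ _ _ k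
  have n2 := C.cls.nTy _ _ _ _ k
  fin_cases j
  · exact ⟨n2, n1.symm⟩
  · exact ⟨n1, n2⟩
  · exact ⟨n2.symm, n1⟩
  · exact ⟨n1.symm, n2.symm⟩

/-- the area is minimal for the group -/
theorem Min (C : St) : C.K.Min := fun V' _ K' => C.min C.H V' K' C.bad

theorem area_unique (C C' : St) : C.K.area = C'.K.area :=
  le_antisymm (C.min _ _ C'.K C'.bad) (C'.min _ _ C.K C.bad)

theorem area_Cd (C : St) (C' : Cd) : C.K.area = C'.K.area :=
  le_antisymm (C.min _ _ C'.K C'.bad) (C'.min _ _ C.K C.bad)

end St

/-! ### complexes without squares -/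

section

variable {H V : Type} [Group H] [MulAction H V] {K : GX H V} (P : Pt K)

theorem Pt.no_Q4 {a q b y : V} : ¬ Q4 P.toP45 a q b y := by
  rintro ⟨h, i, j, hi, -⟩
  exact hi

theorem Pt.no_Top {T a b y : V} : ¬ P.toP45.Top T a b y := fun h => P.no_Q4 h.1

theorem Pt.cls : P.toP45.Cls where
  top _ h := h.elim
  one _ _ h := h.elim
  par _ _ _ _ _ _ _ h := (P.no_Top h).elim
  side _ _ _ _ h := (P.no_Top h).elim
  Ey _ _ _ _ h := (P.no_Top h).elim
  Ea _ _ _ _ h := (P.no_Top h).elim
  Es _ _ h := h.elim
  nab _ _ _ _ h := (P.no_Top h).elim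
  nTy _ _ _ _ h := (P.no_Top h).elim
  x1 := by
    rintro p ⟨b, y, h⟩
    exact (P.no_Top h).elim

theorem Pt.NoQ (z : V) : P.toP45.NoQ z := fun _ _ _ h => P.no_Q4 h

end

/-- a candidate of the light world is a state -/
def Cd.LW.st {C : Cd} (hC : C.LW) : St where
  H := C.H
  V := C.V
  grp := C.grp
  act := C.act
  K := C.K
  P := C.P.toP45
  bad := C.bad
  min := C.min
  lc := C.lc
  cls := C.P.cls
  tf _ _ _ _ h := (C.P.no_Top h).elim
  fs z _ := C.P.NoQ z
  hv _ _ _ _ h := (C.P.no_Q4 h).elim
  lw := hC

/-- a finitely presented group which is not strongly accessible gives a state -/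
theorem exists_St (G : Type) [Group G] [Group.IsFinitelyPresented G] (hb : ¬ SA G) :
    Nonempty St := by
  obtain ⟨C, hC⟩ := Cd.exists_LW (exists_Cd G hb)
  exact ⟨hC.st⟩

/-- THE FRAME: if every state has a successor which is smaller for a lexicographic order of finitely many
integer potentials which are bounded below, then finitely presented groups are strongly accessible -/
theorem St.main (pots : List (St → ℤ)) (hb : ∀ p ∈ pots, ∃ b : ℤ, ∀ C, b ≤ p C)
    (step : ∀ C : St, ∃ C' : St, LexLt pots C' C)
    (G : Type) [Group G] [Group.IsFinitelyPresented G] : SA G := by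
  by_contra hG
  exact frame (exists_St G hG) pots hb step

end Pool.Agent.DI
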