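import Pool.Agent.DI.SqFb
import Pool.Agent.DI.Xt0
import Pool.Agent.DI.State
import Pool.Agent.DI.DrN
import Pool.Agent.DI.P5Def

/-!
# DI/SfD: the static fold of one thin top (data)

`F : P.SfD`: a top `T = {a, b}` with the partner `y`, `a → y`, one strand at both arrows, `T` is an upper side
only of walks whose partner is `b` (`y → b` not direct in the sense of `DrN`), the elements which fix `T` and `a` fix
the poles of `y` (and lie in `N_y`, if `y` is an infinite sink).
`F.D hs : Sq1 K` (`hs : P.SqT`), `F.gx hs` the folded complex `K / (T ~ y)`, `F.P hs` its cells,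
`F.f hs : V → F.W hs` the quotient map.
-/

namespace Pool.Agent.DI

open MulAction
open Pool.Agent.SAF (InC SA orbs FinOrb oc)

/-- A FOLDABLE TOP -/
structure P45.SfD {H V : Type} [Group H] [MulAction H V] {K : GX H V} (P : P45 K) where
  T : V
  a : V
  b : V
  y : V
  top : P.Top T a b y
  ay : K.ar a y
  xa : P.X T a = 1
  xb : P.X T b = 1
  /-- a walk with the upper side `T` has the partner `b`, `y → b` is not direct or `b` is a D-sink -/
  sd : ∀ T' m z, P.Top T' T m z → K.ar T z → z = b ∧ K.ar y b ∧ ¬ DrN K y b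
  /-- the stabiliser of `T`, `a` fixes the poles of `y` -/
  fp : ∀ g : H, g • T = T → g • a = a → ∀ c, K.ar y c → g • c = c
  /-- the stabiliser of `T`, `a` lies in `N_y` for an infinite sink `y` -/
  ny : K.Snk y → Infinite ↥(stabilizer H y) → ∀ g : H, g • T = T → g • a = a → NY y g

namespace P45.SfD

variable {H V : Type} [Group H] [MulAction H V] {K : GX H V} {P : P45 K} (F : P.SfD) (hs : P.SqT)

/-- the fold -/
noncomputable def D : Sq1 K where
  T := F.T
  y := F.y
  rk := (K.ar_rk _ _ F.ay).trans (K.ar_rk _ _ F.top.2.1)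
  E c hc := by
    rcases hs.sides F.top hc with rfl | rfl
    · exact F.top.Ea.symm
    · exact F.top.Eb.symm
  ex := ⟨F.a, F.top.2.1⟩
  fix _ hg := hs.fix F.top (fun h => h) hg

@[simp] theorem D_T : (F.D hs).T = F.T := rfl

@[simp] theorem D_y : (F.D hs).y = F.y := rfl

/-- the vertices of the fold -/
abbrev W : Type := (F.D hs).toF.W

/-- the quotient map -/
noncomputable def f (x : V) : F.W hs := (F.D hs).toF.F x

/-- THE FOLDED COMPLEX -/
noncomputable def gx : GX H (F.W hs) := (F.D hs).toF.gx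

/-- the cells of the folded complex -/
noncomputable def P' : P45 (F.gx hs) := (F.D hs).flat.P45 P

theorem f_smul (h : H) (x : V) : F.f hs (h • x) = h • F.f hs x := (F.D hs).toF.F_smul h x

/-- the fold of `T` is `y` -/
theorem f_T (h : H) : (F.f hs (h • F.T)).1 = h • F.y := (F.D hs).f_T h

theorem f_Ty (h : H) : F.f hs (h • F.T) = F.f hs (h • F.y) := by
  refine Subtype.ext ?_
  rw [F.f_T hs h]
  refine ((F.D hs).toF.f_not ?_).symm
  exact (F.D hs).flat.np (h • F.T) ⟨h, rfl⟩ |> fun k => by
    rwa [show (F.D hs).toF.ρ (h • F.T) = h • F.y from (F.D hs).ρ_eq h] at k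

theorem f_not {x : V} (hx : ∀ h : H, x ≠ h • F.T) : (F.f hs x).1 = x := (F.D hs).f_not hx

theorem coe_ne (c : F.W hs) (h : H) : c.1 ≠ h • F.T := fun e => c.2 ⟨h, e⟩

theorem f_coe (c : F.W hs) : F.f hs c.1 = c := (F.D hs).toF.F_val c

theorem f_cases (x : V) : (F.f hs x).1 = x ∨ ∃ h : H, x = h • F.T ∧ (F.f hs x).1 = h • F.y := by
  by_cases hx : ∃ h : H, x = h • F.T
  · obtain ⟨h, rfl⟩ := hx
    exact Or.inr ⟨h, rfl, F.f_T hs h⟩
  · push Not at hx
    exact Or.inl (F.f_not hs hx)

/-- the arrows of the fold -/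
theorem gx_ar {c d : F.W hs} : (F.gx hs).ar c d ↔ ∃ x, K.ar c.1 x ∧ F.f hs x = d := Iff.rfl

/-- no edge collapses -/
theorem f_E {x y : V} (e : K.E x y) : (F.gx hs).E (F.f hs x) (F.f hs y) := (F.D hs).flat.E' e

theorem stab (c : F.W hs) : stabilizer H c = stabilizer H c.1 := by
  ext g
  rw [mem_stabilizer_iff, mem_stabilizer_iff]
  exact ⟨fun k => congrArg Subtype.val k, fun k => Subtype.ext k⟩

end P45.SfD

end Pool.Agent.DI
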