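import Pool.Agent.DI.SfX3
import Pool.Agent.DI.SfB
import Pool.Agent.DI.SfD

/-!
# DI/SfX4: sigma under the static fold of a thin top

`h.sigma_le`: sigma does not drop under the fold of a thin top, if `X T a ≤ X T b` for the gamma tops
`T = {a, b}`, `a → y → b` (Cor 1): gamma tops with the partner `D.T` may become diamonds, all other kinds
stay. `h.fat`: a fat arrow of the fold comes from a fat arrow. `F.sf`, `F.sigma_le`, `F.fat` for `F : P.SfD`.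
-/

namespace Pool.Agent.DI

open MulAction
open Pool.Agent.SAF (InC orbs FinOrb oc mk_eq_iff FinOrb_iff oc_le_of_inj oc_le_of_surj)

variable {H V : Type} [Group H] [MulAction H V]

namespace P45

variable {K : GX H V} {P : P45 K}

/-- the sums at the other arrows of the tops -/
theorem SqT.sm_swap (hs : P.SqT) {C C' : Set (V × V)} (hC : ∀ g : H, ∀ p ∈ C, g • p ∈ C)
    (hC' : ∀ g : H, ∀ p ∈ C', g • p ∈ C') (aC' : ∀ p ∈ C', K.ar p.1 p.2)
    (x1 : ∀ p ∈ C, 1 ≤ P.X p.1 p.2) (x1' : ∀ p ∈ C', 1 ≤ P.X p.1 p.2)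
    (hm : ∀ p ∈ C, ∃ s' z, P.Top p.1 p.2 s' z ∧ (p.1, s') ∈ C' ∧ P.X p.1 p.2 ≤ P.X p.1 s') :
    P.sm C ≤ P.sm C' := by
  classical
  have aC : ∀ p ∈ C, K.ar p.1 p.2 := by
    intro p hp
    obtain ⟨_, _, k, -, -⟩ := hm p hp
    exact k.2.1
  have fC := fin_arr (K := K) (H := H) aC
  have fC' := fin_arr (K := K) (H := H) aC'
  have e1 := sub_eq (P := P) hC fC x1
  have e2 := sub_eq (P := P) hC' fC' x1'
  show P.sX C - oc H C ≤ P.sX C' - oc H C'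
  rw [e1, e2]
  have hrep : ∀ c : orbitRel.Quotient H (V × V), ∃ d, c ∈ fC.toFinset →
      ∃ p ∈ C, omk H p = c ∧ ∃ s' z, P.Top p.1 p.2 s' z ∧ (p.1, s') ∈ C' ∧
        P.X p.1 p.2 ≤ P.X p.1 s' ∧ d = omk H (p.1, s') := by
    intro c
    by_cases hc : c ∈ fC.toFinset
    · have hc' := hc
      rw [Set.Finite.mem_toFinset] at hc'
      obtain ⟨p, hp, rfl⟩ := hc'
      obtain ⟨s', z, k1, k2, k3⟩ := hm p hp
      exact ⟨omk H (p.1, s'), fun _ => ⟨p, hp, rfl, s', z, k1, k2, k3, rfl⟩⟩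
    · exact ⟨c, fun k => absurd k hc⟩
  choose φ hφ using hrep
  have inj : ∀ c ∈ fC.toFinset, ∀ d ∈ fC.toFinset, φ c = φ d → c = d := by
    intro c hc d hd e
    obtain ⟨p, hp, rfl, s, z, k1, -, -, e3⟩ := hφ c hc
    obtain ⟨q, hq, rfl, s', z', k2, -, -, e4⟩ := hφ d hd
    rw [e3, e4] at e
    obtain ⟨g, hg⟩ := omk_eq.1 e
    have g1 : g • q.1 = p.1 := congrArg Prod.fst hg
    have g2 : g • s' = s := congrArg Prod.snd hg
    have k3 := (k2.smul g).symm'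
    rw [g1, g2] at k3
    have e5 := (hs.uniq k1.symm' k3 (fun k => k)).1
    exact omk_eq.2 ⟨g, Prod.ext g1 e5.symm⟩
  calc ∑ c ∈ fC.toFinset, (P.Xo c - 1) ≤ ∑ c ∈ fC.toFinset, (P.Xo (φ c) - 1) := by
        refine Finset.sum_le_sum fun c hc => ?_
        obtain ⟨p, hp, e0, s, z, k1, -, k3, e3⟩ := hφ c hc
        have e4 : P.Xo c ≤ P.Xo (φ c) := by
          have e5 : P.X p.1 p.2 = P.Xo (omk H p) := X_eq p.1 p.2
          rw [e3, ← X_eq, ← e0, ← e5]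
          exact k3
        omega
    _ = ∑ d ∈ fC.toFinset.image φ, (P.Xo d - 1) := by
        rw [Finset.sum_image]
        intro c hc d hd e
        exact inj c hc d hd e
    _ ≤ ∑ d ∈ fC'.toFinset, (P.Xo d - 1) := by
        refine Finset.sum_le_sum_of_subset ?_
        intro d hd
        obtain ⟨c, hc, rfl⟩ := Finset.mem_image.1 hd
        obtain ⟨p, hp, e0, s, z, k1, k2, k3, e3⟩ := hφ c hc
        rw [Set.Finite.mem_toFinset]
        exact ⟨(p.1, s), k2, e3.symm⟩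

end P45

namespace Sq1.Sf

variable {K : GX H V} {D : Sq1 K} {P : P45 K} {a b : V} (h : D.Sf P a b)

include h

/-- the top of an arrow over an arrow of a top of the fold -/
theorem prA_TA {A' : Set (D.toF.W × D.toF.W)} (hT : A' ⊆ (D.flat.P45 P).TA) {x c : V}
    (hx : (x, c) ∈ D.prA A') : ∃ s' z, P.Top x c s' z := by
  obtain ⟨h1, h2, h3⟩ := hx
  obtain ⟨b1, y1, k1⟩ := hT h3
  obtain ⟨t, s, s', z, k, hO, e1, e2, rfl, rfl⟩ := h.Top_iff.1 k1
  have e1 : D.toF.F t = D.toF.F x := e1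
  have e2 : D.toF.F s = D.toF.F c := e2
  rw [D.toF.F_eq, D.toF.f_not h1, D.toF.f_not hO] at e1
  subst e1
  rcases h.cls.sides k h2 with rfl | rfl
  · exact ⟨_, _, k⟩
  · exact absurd e2 (h.sides_ne k hO)

/-- the upper arrows of the gamma tops of the fold -/
theorem prA_U {x c : V} : (x, c) ∈ D.prA (D.flat.P45 P).U ↔ ∃ s' z, P.Top x c s' z ∧ ¬ D.toF.O x ∧
    D.toF.gx.ar (D.toF.F c) (D.toF.F z) ∧ D.toF.gx.ar (D.toF.F z) (D.toF.F s') := by
  constructor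
  · intro hx
    obtain ⟨s', z, k⟩ := h.prA_TA P45.U_sub hx
    obtain ⟨h1, h2, b1, y1, k1, k2, k3⟩ := hx
    have kF := h.Top_F k h1
    obtain ⟨e1, e2⟩ := h.SqT.uniq kF k1 (fun k => k)
    have e1 : D.toF.F s' = b1 := e1
    have e2 : D.toF.F z = y1 := e2
    subst e1
    subst e2
    exact ⟨s', z, k, h1, k2, k3⟩
  · rintro ⟨s', z, k, h1, k2, k3⟩
    exact ⟨h1, k.2.1, _, _, h.Top_F k h1, k2, k3⟩

/-- the arrows of the diamond tops of the fold -/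
theorem prA_Dm {x c : V} : (x, c) ∈ D.prA (D.flat.P45 P).Dm ↔ ∃ s' z, P.Top x c s' z ∧ ¬ D.toF.O x ∧
    D.toF.gx.ar (D.toF.F c) (D.toF.F z) ∧ D.toF.gx.ar (D.toF.F s') (D.toF.F z) := by
  constructor
  · intro hx
    obtain ⟨s', z, k⟩ := h.prA_TA P45.Dm_sub hx
    obtain ⟨h1, h2, b1, y1, k1, k2, k3⟩ := hx
    have kF := h.Top_F k h1
    obtain ⟨e1, e2⟩ := h.SqT.uniq kF k1 (fun k => k)
    have e1 : D.toF.F s' = b1 := e1
    have e2 : D.toF.F z = y1 := e2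
    subst e1
    subst e2
    exact ⟨s', z, k, h1, k2, k3⟩
  · rintro ⟨s', z, k, h1, k2, k3⟩
    exact ⟨h1, k.2.1, _, _, h.Top_F k h1, k2, k3⟩

/-- upper arrows come from upper arrows -/
theorem prA_U_sub : D.prA (D.flat.P45 P).U = {p | (p ∈ P.U ∧ ¬ D.toF.O p.1) ∧
    p ∈ D.prA (D.flat.P45 P).U} := by
  ext ⟨x, c⟩
  constructor
  · intro hx
    refine ⟨?_, hx⟩
    obtain ⟨s', z, k, h1, k2, k3⟩ := h.prA_U.1 hx
    refine ⟨⟨s', z, k, ?_, ?_⟩, h1⟩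
    · rcases (h.cls.side _ _ _ _ k).resolve_left (fun k => k) with e | e
      · exact e
      · exact absurd k3 (GX.not_both' (h.ar_side k.symm' e))
    · rcases k.Eb with e | e
      · exact absurd k3 (GX.not_both' (h.ar_side k.symm' e))
      · exact e
  · exact fun hx => hx.2

/-- SIGMA DOES NOT DROP -/
theorem sigma_le (xa : P.X D.T a = 1) (xb : P.X D.T b = 1)
    (hX : ∀ t s s' z, P.Top t s s' z → (t, s) ∈ P.U → P.X t s ≤ P.X t s') :
    P.sigma ≤ (D.flat.P45 P).sigma := by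
  have iU := P45.U_smul (P := P)
  have iD := P45.Dm_smul (P := P)
  have iU' := P45.U_smul (P := D.flat.P45 P)
  have iD' := P45.Dm_smul (P := D.flat.P45 P)
  have tU : ∀ p ∈ P.U, K.ar p.1 p.2 := fun p ⟨_, _, k, _⟩ => k.2.1
  have tD : ∀ p ∈ P.Dm, K.ar p.1 p.2 := fun p ⟨_, _, k, _⟩ => k.2.1
  have xU : ∀ p ∈ P.U, 1 ≤ P.X p.1 p.2 := fun p hp => h.cls.x1 p (P45.U_sub hp)
  have xD : ∀ p ∈ P.Dm, 1 ≤ P.X p.1 p.2 := fun p hp => h.cls.x1 p (P45.Dm_sub hp)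
  have hO : ∀ (g : H) (p : V × V), D.toF.O p.1 → D.toF.O (g • p).1 := fun g p k =>
    (D.toF.O_iff g p.1).2 k
  have oneO : ∀ p ∈ P.TA, D.toF.O p.1 → P.X p.1 p.2 = 1 := by
    rintro ⟨x, c⟩ ⟨s', z, k⟩ ⟨g, rfl⟩
    have kT : P.Top (g • D.T) (g • a) (g • b) (g • D.y) := h.top.smul g
    rcases h.cls.sides kT k.2.1 with rfl | rfl
    · rw [← xa]
      exact P45.X_smul g D.T a
    · rw [← xb]
      exact P45.X_smul g D.T b
  have smO : ∀ A : Set (V × V), (∀ g : H, ∀ p ∈ A, g • p ∈ A) → A ⊆ P.TA →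
      P.sm {p | p ∈ A ∧ D.toF.O p.1} = 0 := by
    intro A hA hT
    have e := P45.sX_one (P := P) (A := {p | p ∈ A ∧ D.toF.O p.1})
      (fun g p k => ⟨hA g p k.1, hO g p k.2⟩)
      (fun p k => by
        obtain ⟨_, _, k⟩ := hT k.1
        exact k.2.1)
      (fun p k => oneO p (hT k.1) k.2)
    unfold P45.sm
    rw [e, Nat.sub_self]
  -- the sets
  set Q : V × V → Prop := fun p => p ∈ D.prA (D.flat.P45 P).U with hQ
  have iQ : ∀ (g : H) (p : V × V), Q p → Q (g • p) := fun g p k => Sq1.prA_smul iU' g p k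
  have iQ' : ∀ (g : H) (p : V × V), ¬ Q p → ¬ Q (g • p) := fun g p k k' => k (by
    have := iQ g⁻¹ _ k'
    rwa [inv_smul_smul] at this)
  have hO' : ∀ (g : H) (p : V × V), ¬ D.toF.O p.1 → ¬ D.toF.O (g • p).1 := fun g p k k' =>
    k ((D.toF.O_iff g p.1).1 k')
  set U0 : Set (V × V) := {p | p ∈ P.U ∧ ¬ D.toF.O p.1} with hU0
  set D0 : Set (V × V) := {p | p ∈ P.Dm ∧ ¬ D.toF.O p.1} with hD0
  set Ch : Set (V × V) := {p | p ∈ U0 ∧ ¬ Q p} with hCh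
  have s1 : P.sm P.U = P.sm U0 := by
    rw [P45.sm_split (P := P) P.U (fun p => D.toF.O p.1) hO iU tU xU, smO P.U iU P45.U_sub, zero_add]
  have s2 : P.sm P.Dm = P.sm D0 := by
    rw [P45.sm_split (P := P) P.Dm (fun p => D.toF.O p.1) hO iD tD xD, smO P.Dm iD P45.Dm_sub, zero_add]
  have e3 : {p | p ∈ U0 ∧ Q p} = D.prA (D.flat.P45 P).U := h.prA_U_sub.symm
  have s3 : P.sm U0 = P.sm (D.prA (D.flat.P45 P).U) + P.sm Ch := by
    rw [P45.sm_split (P := P) U0 Q iQ (fun g p k => ⟨iU g p k.1, hO' g p k.2⟩)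
      (fun p k => tU p k.1) (fun p k => xU p k.1), e3]
  -- the diamonds of the fold
  set E : Set (V × V) := D.prA (D.flat.P45 P).Dm with hE
  have iE : ∀ (g : H), ∀ p ∈ E, g • p ∈ E := Sq1.prA_smul iD'
  have tE : ∀ p ∈ E, K.ar p.1 p.2 := fun p k => k.2.1
  have xE : ∀ p ∈ E, 1 ≤ P.X p.1 p.2 := by
    rintro ⟨x, c⟩ hp
    obtain ⟨s', z, k, -⟩ := h.prA_Dm.1 hp
    exact h.cls.x1 (x, c) ⟨_, _, k⟩
  have s4 := P45.sm_split (P := P) E (fun p => p ∈ P.Dm) (fun g p k => iD g p k) iE tE xE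
  have e4 : {p | p ∈ E ∧ p ∈ P.Dm} = D0 := by
    ext ⟨x, c⟩
    constructor
    · rintro ⟨k1, k2⟩
      exact ⟨k2, k1.1⟩
    · rintro ⟨k1, k2⟩
      refine ⟨h.prA_Dm.2 ?_, k1⟩
      obtain ⟨s', z, k, e1, e2⟩ := k1
      exact ⟨s', z, k, k2, h.ar_side k e1, h.ar_side k.symm' e2⟩
  have nD' : ∀ (g : H) (p : V × V), p ∉ P.Dm → g • p ∉ P.Dm := fun g p k k' => k (by
    have := iD g⁻¹ _ k'
    rwa [inv_smul_smul] at this)
  have nU' : ∀ (g : H) (p : V × V), p ∉ P.U → g • p ∉ P.U := fun g p k k' => k (by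
    have := iU g⁻¹ _ k'
    rwa [inv_smul_smul] at this)
  have s5 := P45.sm_split (P := P) {p | p ∈ E ∧ ¬ p ∈ P.Dm} (fun p => p ∈ P.U)
    (fun g p k => iU g p k) (fun g p k => ⟨iE g p k.1, nD' g p k.2⟩) (fun p k => tE p k.1)
    (fun p k => xE p k.1)
  have nUD : ∀ p, p ∈ P.U → p ∈ P.Dm → False := by
    rintro ⟨x, c⟩ ⟨s', z, k, e1, e2⟩ ⟨s1, z1, k1, e3, e4⟩
    obtain ⟨rfl, rfl⟩ := h.cls.uniq k k1 (fun k => k)
    exact GX.not_both' e2 e4
  have e5 : {p | p ∈ {p | p ∈ E ∧ ¬ p ∈ P.Dm} ∧ p ∈ P.U} = Ch := by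
    ext ⟨x, c⟩
    constructor
    · rintro ⟨⟨k1, k2⟩, k3⟩
      refine ⟨⟨k3, k1.1⟩, ?_⟩
      intro hq
      obtain ⟨s', z, k, -, w1, w2⟩ := h.prA_U.1 hq
      obtain ⟨s1, z1, k', -, w3, w4⟩ := h.prA_Dm.1 k1
      obtain ⟨rfl, rfl⟩ := h.cls.uniq k k' (fun k => k)
      exact GX.not_both' w2 w4
    · rintro ⟨⟨k3, ho⟩, hq⟩
      refine ⟨⟨h.prA_Dm.2 ?_, fun k => nUD _ k3 k⟩, k3⟩
      obtain ⟨s', z, k, w1, w2⟩ := k3
      refine ⟨s', z, k, ho, h.ar_side k w1, ?_⟩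
      rcases D.flat.E' k.Eb with w | w
      · exact w
      · exact absurd (h.prA_U.2 ⟨s', z, k, ho, h.ar_side k w1, w⟩) hq
  set Cl : Set (V × V) := {p | p ∈ {p | p ∈ E ∧ ¬ p ∈ P.Dm} ∧ ¬ p ∈ P.U} with hCl
  have s6 : P.sm Ch ≤ P.sm Cl := by
    have hsT : P.SqT := h.cls.toSqE
    refine hsT.sm_swap (C := Ch) (C' := Cl) ?_ ?_ ?_ ?_ ?_ ?_
    · rintro g p ⟨⟨k1, k2⟩, k3⟩
      exact ⟨⟨iU g p k1, hO' g p k2⟩, iQ' g p k3⟩
    · rintro g p ⟨⟨k1, k2⟩, k3⟩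
      exact ⟨⟨iE g p k1, nD' g p k2⟩, nU' g p k3⟩
    · exact fun p k => tE p k.1.1
    · exact fun p k => xU p k.1.1
    · exact fun p k => xE p k.1.1
    · rintro ⟨x, c⟩ hp
      have hp' := hp
      rw [← e5] at hp'
      obtain ⟨⟨k1, k2⟩, k3⟩ := hp'
      obtain ⟨s', z, k, ho, w1, w2⟩ := h.prA_Dm.1 k1
      have k3' := k3
      obtain ⟨s1, z1, k', v1, v2⟩ := k3'
      obtain ⟨rfl, rfl⟩ := h.cls.uniq k k' (fun k => k)
      refine ⟨s', z, k, ⟨⟨h.prA_Dm.2 ⟨c, z, k.symm', ho, w2, w1⟩, ?_⟩, ?_⟩, hX _ _ _ _ k k3⟩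
      · rintro ⟨s2, z2, k4, v3, v4⟩
        obtain ⟨rfl, rfl⟩ := h.cls.uniq k.symm' k4 (fun k => k)
        exact GX.not_both' v2 v3
      · rintro ⟨s2, z2, k4, v3, v4⟩
        obtain ⟨rfl, rfl⟩ := h.cls.uniq k.symm' k4 (fun k => k)
        exact GX.not_both' v2 v3
  rw [e4] at s4
  rw [e5] at s5
  have t1 := h.sm_thin xa xb iU' P45.U_sub
  have t2 : (D.flat.P45 P).sm (D.flat.P45 P).Dm = P.sm E := h.sm_thin xa xb iD' P45.Dm_sub
  unfold P45.sigma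
  rw [t1, t2]
  have s7 : P.sm {p | p ∈ E ∧ ¬ p ∈ P.Dm} = P.sm Ch + P.sm Cl := s5
  have s8 : P.sm E = P.sm D0 + P.sm {p | p ∈ E ∧ ¬ p ∈ P.Dm} := s4
  rw [s1, s2, s3]
  omega

omit h in
/-- a strand at an arrow -/
theorem _root_.Pool.Agent.DI.P45.strand_of {n z : V} (hx : 1 ≤ P.X n z) :
    (∃ x u v, Qn P x n z u v) ∨ ∃ x q, Q4 P x n z q ∧ K.ar x n := by
  by_contra hne
  push Not at hne
  obtain ⟨n1, n2⟩ := hne
  have e1 : {f : FL K | f ∈ P.RP ∧ (P45.fy f, P45.fz f) = (n, z)} = ∅ := by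
    ext f
    refine ⟨fun k => ?_, fun k => k.elim⟩
    obtain ⟨⟨k1, -⟩, k3⟩ := k
    have e1 : P45.fy f = n := congrArg Prod.fst k3
    have e2 : P45.fz f = z := congrArg Prod.snd k3
    obtain ⟨⟨⟨i, m⟩, g⟩, bb⟩ := f
    have hi : ¬ P.sq i := k1
    have w : ∀ j : ℕ, K.vx i j = P.pt i (Fin.ofNat 5 j) := fun j => P.tvx5 hi j
    have s1 : ∀ j : ℕ, Fin.ofNat 5 (j + 1) = Fin.ofNat 5 j + 1 := by
      intro j
      apply Fin.ext
      rw [Fin.val_add]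
      show (j + 1) % 5 = (j % 5 + 1) % 5
      omega
    have s2 : ∀ j : ℕ, Fin.ofNat 5 (j + 2) = Fin.ofNat 5 j + 2 := by
      intro j
      apply Fin.ext
      rw [Fin.val_add]
      show (j + 2) % 5 = (j % 5 + 2) % 5
      omega
    cases bb
    · have e1 : g • K.vx i (m.1 + 1) = n := e1
      have e2 : g • K.vx i m.1 = z := e2
      rw [w, s1] at e1
      rw [w] at e2
      exact (n1 (g • P.pt i (Fin.ofNat 5 m.1 + 2)) (g • P.pt i (Fin.ofNat 5 m.1 + 4))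
        (g • P.pt i (Fin.ofNat 5 m.1 + 3)) ⟨g, i, Fin.ofNat 5 m.1, hi, Or.inr
        ⟨e2.symm, e1.symm, rfl, rfl, rfl⟩⟩).elim
    · have e1 : g • K.vx i (m.1 + 1) = n := e1
      have e2 : g • K.vx i (m.1 + 2) = z := e2
      rw [w, s1] at e1
      rw [w, s2] at e2
      exact (n1 (g • P.pt i (Fin.ofNat 5 m.1)) (g • P.pt i (Fin.ofNat 5 m.1 + 3))
        (g • P.pt i (Fin.ofNat 5 m.1 + 4)) ⟨g, i, Fin.ofNat 5 m.1, hi, Or.inl
        ⟨rfl, e1.symm, e2.symm, rfl, rfl⟩⟩).elim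
  have e2 : {p : (V × V) × (V × V) | p ∈ P.ZP ∧ p.1 = (n, z)} = ∅ := by
    ext p
    refine ⟨fun k => ?_, fun k => k.elim⟩
    obtain ⟨⟨t1, s1⟩, ⟨q, x⟩⟩ := p
    obtain ⟨⟨k1, k2, k3⟩, k4⟩ := k
    have et : t1 = n := congrArg Prod.fst k4
    have es : s1 = z := congrArg Prod.snd k4
    subst et
    subst es
    exact n2 x q k1 k3
  have hx' := hx
  unfold P45.X at hx'
  rw [e1, e2] at hx'
  have z0 : ∀ (A : Type) [MulAction ↥(stabilizer H (n, z)) A],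
      oc ↥(stabilizer H (n, z)) (∅ : Set A) = 0 := fun A _ => oc_empty
  rw [z0, z0] at hx'
  omega

/-- A FAT ARROW OF THE FOLD COMES FROM A FAT ARROW -/
theorem fat (xa : P.X D.T a = 1) (xb : P.X D.T b = 1) {c d : D.toF.W}
    (h2 : 2 ≤ (D.flat.P45 P).X c d) : ∃ z, K.ar c.1 z ∧ D.toF.F z = d ∧ 2 ≤ P.X c.1 z := by
  rw [P45.X_sX, h.sX_thin xa xb (h.orb_inv _)] at h2
  have iA := Sq1.prA_smul (h.orb_inv (c, d))
  have tA : ∀ p ∈ D.prA {p | omk H p = omk H (c, d)}, K.ar p.1 p.2 := fun p k => k.2.1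
  have hA := P45.fin_arr (K := K) (H := H) tA
  rw [P45.sX_eq iA hA] at h2
  -- the arrows over `(c, d)`
  have ovr : ∀ x w : V, (x, w) ∈ D.prA {p | omk H p = omk H (c, d)} → ∃ g : H, ∃ z, x = g • c.1 ∧
      w = g • z ∧ K.ar c.1 z ∧ D.toF.F z = d := by
    rintro x w ⟨h1, h2, h3⟩
    obtain ⟨g, hg⟩ := omk_eq.1 (show omk H (D.toF.F x, D.toF.F w) = omk H (c, d) from h3)
    have e1 : g • c = D.toF.F x := congrArg Prod.fst hg
    have e2 : g • d = D.toF.F w := congrArg Prod.snd hg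
    have e1' : g • c.1 = x := by
      have := congrArg Subtype.val e1
      have e3 : (D.toF.F x).1 = x := D.toF.f_not h1
      rw [e3] at this
      exact this
    refine ⟨g, g⁻¹ • w, e1'.symm, (smul_inv_smul g w).symm, ?_, ?_⟩
    · have h2 : K.ar x w := h2
      have := K.ar_smul g⁻¹ _ _ h2
      rwa [← e1', inv_smul_smul] at this
    · rw [D.toF.F_smul, ← e2, inv_smul_smul]
  by_contra hne
  push Not at hne
  by_cases hu : ∃ z z', K.ar c.1 z ∧ K.ar c.1 z' ∧ D.toF.F z = d ∧ D.toF.F z' = d ∧ z ≠ z'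
  · obtain ⟨z, z', k1, k2, k3, k4, k5⟩ := hu
    have x0 : ∀ u, K.ar c.1 u → D.toF.F u = d → P.X c.1 u = 0 := by
      intro u hu1 hu2
      by_contra h0
      have hx : 1 ≤ P.X c.1 u := Nat.one_le_iff_ne_zero.2 h0
      have hs := P45.strand_of hx
      by_cases e : u = z
      · subst e
        exact D.one h.cls h.min h.top k1 k2 k5 (k3.trans k4.symm) hs
      · exact D.one h.cls h.min h.top hu1 k1 e (hu2.trans k3.symm) hs
    have e0 : ∑ o ∈ hA.toFinset, P.Xo o = 0 := by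
      refine Finset.sum_eq_zero fun o ho => ?_
      rw [Set.Finite.mem_toFinset] at ho
      obtain ⟨⟨x, w⟩, hp, rfl⟩ := ho
      obtain ⟨g, u, rfl, rfl, w1, w2⟩ := ovr x w hp
      show P.Xo (omk H (g • c.1, g • u)) = 0
      rw [← P45.X_eq, P45.X_smul]
      exact x0 u w1 w2
    omega
  · push Not at hu
    -- one orbit
    have e1 : ∑ o ∈ hA.toFinset, P.Xo o ≤ 1 := by
      by_cases hz : ∃ z, K.ar c.1 z ∧ D.toF.F z = d
      · obtain ⟨z, k1, k2⟩ := hz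
        have sub : hA.toFinset ⊆ {omk H (c.1, z)} := by
          intro o ho
          rw [Set.Finite.mem_toFinset] at ho
          obtain ⟨⟨x, w⟩, hp, rfl⟩ := ho
          obtain ⟨g, u, rfl, rfl, w1, w2⟩ := ovr x w hp
          have e : u = z := hu u z w1 k1 w2 k2
          subst e
          exact Finset.mem_singleton.2 (omk_smul g (c.1, u))
        refine (Finset.sum_le_sum_of_subset sub).trans ?_
        rw [Finset.sum_singleton, ← P45.X_eq]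
        have := hne z k1 k2
        omega
      · push Not at hz
        have e0 : ∑ o ∈ hA.toFinset, P.Xo o = 0 := by
          refine Finset.sum_eq_zero fun o ho => ?_
          rw [Set.Finite.mem_toFinset] at ho
          obtain ⟨⟨x, w⟩, hp, rfl⟩ := ho
          obtain ⟨g, u, rfl, rfl, w1, w2⟩ := ovr x w hp
          exact absurd w2 (hz u w1)
        omega
    omega

end Sq1.Sf

namespace P45.SfD

variable {K : GX H V} {P : P45 K} (F : P.SfD) (hc : P.Cls) (hm : K.Min)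

include hc hm

/-- the hypotheses for a foldable top -/
theorem sf : (F.D hc.toSqE).Sf P F.a F.b where
  cls := hc
  min := hm
  top := F.top
  low := by
    intro T' z p k e
    obtain ⟨rfl, h, -⟩ := F.sd _ _ _ k e
    exact h

/-- SIGMA DOES NOT DROP (the field `s` of `SfIn`) -/
theorem sigma_le (hX : ∀ t s s' z, P.Top t s s' z → (t, s) ∈ P.U → P.X t s ≤ P.X t s') :
    P.sigma ≤ (F.P' hc.toSqE).sigma := (F.sf hc hm).sigma_le F.xa F.xb hX

/-- THE STRANDS AT THE ARROWS OF THE OTHER TOPS DO NOT CHANGE -/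
theorem X_eq {t s s' z : V} (k : P.Top t s s' z) (hO : ∀ g : H, t ≠ g • F.T) :
    (F.P' hc.toSqE).X (F.f hc.toSqE t) (F.f hc.toSqE s) = P.X t s :=
  (F.sf hc hm).X_thin F.xa F.xb k (fun ⟨g, e⟩ => hO g e)

/-- A FAT ARROW OF THE FOLD COMES FROM A FAT ARROW -/
theorem fat {c d : F.W hc.toSqE} (h2 : 2 ≤ (F.P' hc.toSqE).X c d) :
    ∃ z, K.ar c.1 z ∧ F.f hc.toSqE z = d ∧ 2 ≤ P.X c.1 z := (F.sf hc hm).fat F.xa F.xb h2

end P45.SfD

end Pool.Agent.DI
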