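import Pool.Agent.DI.SfN
import Pool.Agent.DI.SfX4
import Pool.Agent.DI.SfS

/-!
# DI/SfNs: the number N'' of the folded state (owner: helper16)
-/

namespace Pool.Agent.DI

open MulAction

namespace P45.SfD

variable {H V : Type} [Group H] [MulAction H V] {K : GX H V} {P : P45 K} (F : P.SfD)

/-- a fat soft of the fold is a fat soft -/
theorem fat_coe (hc : P.Cls) (hm : K.Min) (c : F.W hc.toSqE) (h : (F.P' hc.toSqE).fat c) :
    P.fat c.1 := by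
  obtain ⟨d, -, h2⟩ := h
  obtain ⟨z, h1, -, h3⟩ := F.fat hc hm h2
  exact ⟨z, h1, h3⟩

/-- THE SELF PIECES OF FAT SOFTS UNDER THE FOLD OF A THIN TOP -/
theorem nN_cls (hc : P.Cls) (hm : K.Min) (lc : ∀ v, K.LC v) (nd : P.ND)
    (nd' : (F.P' hc.toSqE).ND) : ((F.P' hc.toSqE).fc nd').nN ≤ (P.fc nd).nN :=
  F.nN_le hc.toSqE (F.noOne hm hc) hm hc.x1 lc (F.sf hc hm).Cls.toSqE
    ((F.D hc.toSqE).toF.min hm) (F.sf hc hm).Cls.x1 (F.fat_coe hc hm) nd nd'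

end P45.SfD

/-- the field `n` of `SfIn` -/
theorem St.sf_n (C : St) (F : C.P.SfD) (nd : (F.P' C.cls.toSqE).ND) :
    ((F.P' C.cls.toSqE).fc nd).nN ≤ (C.P.fc C.nd).nN :=
  F.nN_cls C.cls C.Min C.lc C.nd nd

end Pool.Agent.DI
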