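import Pool.Agent.DI.SfPh
import Pool.Agent.DI.SfD
import Pool.Agent.DI.PhA

/-!
# DI/SfPi: the number `phi_0` does not drop under the static fold of a thin top

`SfD.oneFl`, `SfD.drN`: one orbit of flags and `DrN` pass to the fold. `SfD.phA_le`.
-/

namespace Pool.Agent.DI

open MulAction
open Pool.Agent.SAF (InC orbs FinOrb oc mk_eq_iff FinOrb_iff oc_le_of_inj)
open Pool.Agent.SAG (IO Zt)

variable {H V : Type} [Group H] [MulAction H V] {K : GX H V} {P : P45 K}

namespace P45.SfD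

variable (F : P.SfD) (hP : P.Cls)

theorem sd' {g : H} {T' m z : V} (k : P.Top T' (g • F.T) m z) (kz : K.ar (g • F.T) z) :
    z = g • F.b ∧ K.ar (g • F.y) (g • F.b) ∧ ¬ DrN K (g • F.y) (g • F.b) := by
  have k1 := k.smul g⁻¹
  rw [inv_smul_smul] at k1
  have k2 := K.ar_smul g⁻¹ _ _ kz
  rw [inv_smul_smul] at k2
  obtain ⟨h1, h2, h3⟩ := F.sd _ _ _ k1 k2
  refine ⟨?_, K.ar_smul g _ _ h2, fun h => h3 ((DrN.smul_iff g).1 h)⟩
  rw [← h1, smul_inv_smul]

theorem xg {g : H} {c : V} (hP : P.Cls) (hc : K.ar (g • F.T) c) :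
    (∃ m, P.Top (g • F.T) c m (g • F.y)) ∧ P.X (g • F.T) c ≤ 1 ∧ (c = g • F.a ∨ c = g • F.b) := by
  have k := F.top.smul g
  rcases hP.toSqE.sides k hc with rfl | rfl
  · refine ⟨⟨_, k⟩, ?_, Or.inl rfl⟩
    rw [X_smul, F.xa]
  · refine ⟨⟨_, k.symm'⟩, ?_, Or.inr rfl⟩
    rw [X_smul, F.xb]

/-- ONE ORBIT OF FLAGS passes to the fold -/
theorem oneFl (hm : K.Min) (hl : ∀ v, K.LC v) {c d : V} (h : K.ar c d) (hd : DrN K c d)
    (hf : K.OneFl (c, d)) : (F.gx hP.toSqE).OneFl (F.f hP.toSqE c, F.f hP.toSqE d) := by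
  have hs : P.SqT := hP.toSqE
  set D := F.D hs with hD
  have top : P.Top D.T F.a F.b D.y := F.top
  -- `c` is not folded
  have hc : ¬ D.toF.O c := by
    rintro ⟨g, rfl⟩
    obtain ⟨⟨m, k⟩, -, -⟩ := F.xg hP h
    exact P45.not_oneFl k (hP.x1 (g • D.T, d) ⟨_, _, k⟩) hf
  -- existence and uniqueness suffice for flags of `K`
  have up : ∀ f' : FL D.toF.gx, (fy f', fz f') = (D.toF.F c, D.toF.F d) → ∃ f, D.Lf P f f' ∧
      ((fy f = c ∧ fz f = d) ∨
      (∃ g : H, d = g • D.y ∧ fy f = c ∧ fz f = g • D.T ∧ K.ar (g • D.T) c) ∨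
      (∃ g : H, c = g • D.y ∧ fy f = g • D.T ∧ fz f = d ∧ K.ar (g • D.T) d)) := by
    intro f' e
    obtain ⟨f, hf⟩ := D.lf_up P f'
    obtain ⟨y1, z1⟩ := hf.yz
    refine ⟨f, hf, D.edge_over hP hm top hl h hc (fl_E52 f) ?_ ?_⟩
    · rw [y1]
      exact congrArg Prod.fst e
    · rw [z1]
      exact congrArg Prod.snd e
  have down : ∀ f : FL K, ¬ D.toF.Bt f.1.1.1 → D.toF.F (fy f) = D.toF.F c →
      D.toF.F (fz f) = D.toF.F d → ∃ f' : FL D.toF.gx, (fy f', fz f') =
        (D.toF.F c, D.toF.F d) := by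
    intro f hB e1 e2
    obtain ⟨f', hf'⟩ := D.lf_down P hB
    obtain ⟨y1, z1⟩ := hf'.yz
    exact ⟨f', Prod.ext (y1.symm.trans e1) (z1.symm.trans e2)⟩
  have r := K.ar_rk _ _ h
  by_cases t1 : ∃ g : H, d = g • D.y ∧ K.ar (g • D.T) c
  · -- `c` is a side with an arrow to the partner
    obtain ⟨g, rfl, hg⟩ := t1
    have nt : ∀ g : H, K.ar (g • D.T) c → K.ar c (g • D.y) →
        ∀ T' m, ¬ P.Top T' (g • D.T) m c := by
      intro g hg hy T' m k
      obtain ⟨h1, h2, -⟩ := F.sd' k hg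
      rw [← h1] at h2
      exact GX.ck_asym h2 hy
    obtain ⟨⟨m, k⟩, hX, -⟩ := F.xg hP hg
    constructor
    · obtain ⟨f, hB, e⟩ := D.strand_flag hP hm top ⟨g, rfl⟩ k (nt g hg h)
      refine down (opp f) (by rwa [opp_cell]) ?_ ?_
      · rw [fy_opp]
        exact congrArg D.toF.F (congrArg Prod.snd e)
      · rw [fz_opp]
        exact (congrArg D.toF.F (congrArg Prod.fst e)).trans (D.sf_T g)
    · -- the lifts
      have low : ∀ f f', D.Lf P f f' → ((fy f = c ∧ fz f = g • D.y) ∨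
          (∃ g' : H, g • D.y = g' • D.y ∧ fy f = c ∧ fz f = g' • D.T ∧ K.ar (g' • D.T) c) ∨
          (∃ g' : H, c = g' • D.y ∧ fy f = g' • D.T ∧ fz f = g • D.y ∧
            K.ar (g' • D.T) (g • D.y))) → ∃ g' : H, g • D.y = g' • D.y ∧ fy f = c ∧
              fz f = g' • D.T ∧ K.ar (g' • D.T) c := by
        rintro f f' hL (⟨e1, e2⟩ | e | ⟨g', e1, -⟩)
        · exfalso
          obtain ⟨f0, b0, -, y0, z0⟩ := D.own_flag hP top ⟨g, rfl⟩ k
          obtain ⟨x, hx⟩ := hf.2 f0 f (Prod.ext y0 z0) (Prod.ext e1 e2)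
          refine hL.bt ?_
          rw [← hx]
          exact b0
        · exact e
        · rw [e1, K.rk_smul, K.rk_smul] at r
          exact absurd r (lt_irrefl _)
      intro f1' f2' e1 e2
      obtain ⟨f1, L1, c1⟩ := up f1' e1
      obtain ⟨f2, L2, c2⟩ := up f2' e2
      obtain ⟨g1, d1, y1, z1, a1⟩ := low f1 f1' L1 c1
      obtain ⟨g2, d2, y2, z2, a2⟩ := low f2 f2' L2 c2
      obtain ⟨⟨m1, k1⟩, -, -⟩ := F.xg hP a1
      obtain ⟨⟨m2, k2⟩, X2, -⟩ := F.xg hP a2
      obtain ⟨p1, -, x1, u1, v1⟩ := D.own_flag hP top ⟨g1, rfl⟩ k1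
      obtain ⟨p2, -, x2, u2, v2⟩ := D.own_flag hP top ⟨g2, rfl⟩ k2
      obtain ⟨x, hx⟩ := hf.2 p1 p2 (Prod.ext u1 (v1.trans d1.symm)) (Prod.ext u2 (v2.trans d2.symm))
      have xT : x • g1 • D.T = g2 • D.T := by
        have := congrArg fx hx
        rwa [fx_smul, x1, x2] at this
      have xc : x • c = c := by
        have := congrArg fy hx
        rwa [fy_smul, u1, u2] at this
      have s1 : (fy (x • opp f1), fz (x • opp f1)) = (g2 • D.T, c) := by
        rw [fy_smul, fz_smul, fy_opp, fz_opp, y1, z1, xT, xc]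
      have s2 : (fy (opp f2), fz (opp f2)) = (g2 • D.T, c) := by
        rw [fy_opp, fz_opp, y2, z2]
      have b1 : ¬ D.toF.Bt (x • opp f1).1.1.1 := by
        show ¬ D.toF.Bt (opp f1).1.1.1
        rw [opp_cell]
        exact L1.bt
      have b2 : ¬ D.toF.Bt (opp f2).1.1.1 := by
        rw [opp_cell]
        exact L2.bt
      obtain ⟨w, hw⟩ := D.strand hP top a2 ⟨g2, rfl⟩ X2 (nt g2 a2 (d2 ▸ h)) b1 b2 s1 s2
      refine ⟨w * x, L1.orb L2 ?_⟩
      have := congrArg opp hw
      rw [opp_opp, ← mul_smul, opp_smul, opp_opp] at this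
      exact this
  · by_cases t2 : ∃ g : H, c = g • D.y ∧ K.ar (g • D.T) d
    · -- `d` is the lower side
      obtain ⟨g, rfl, hg⟩ := t2
      have nt : ∀ g' : H, g • D.y = g' • D.y → K.ar (g' • D.T) d →
          ∀ T' m, ¬ P.Top T' (g' • D.T) m d := by
        intro g' hy hg' T' m k
        obtain ⟨h1, h2, h3⟩ := F.sd' k hg'
        rw [← h1] at h3
        refine h3 ?_
        have e : g' • F.y = g • D.y := hy.symm
        rw [e]
        exact hd
      obtain ⟨⟨m, k⟩, hX, -⟩ := F.xg hP hg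
      constructor
      · obtain ⟨f, hB, e⟩ := D.strand_flag hP hm top ⟨g, rfl⟩ k (nt g rfl hg)
        refine down f hB ?_ ?_
        · exact (congrArg D.toF.F (congrArg Prod.fst e)).trans (D.sf_T g)
        · exact congrArg D.toF.F (congrArg Prod.snd e)
      · have low : ∀ f f', D.Lf P f f' → ((fy f = g • D.y ∧ fz f = d) ∨
            (∃ g' : H, d = g' • D.y ∧ fy f = g • D.y ∧ fz f = g' • D.T ∧
              K.ar (g' • D.T) (g • D.y)) ∨
            (∃ g' : H, g • D.y = g' • D.y ∧ fy f = g' • D.T ∧ fz f = d ∧ K.ar (g' • D.T) d)) →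
            ∃ g' : H, g • D.y = g' • D.y ∧ fy f = g' • D.T ∧ fz f = d ∧ K.ar (g' • D.T) d := by
          rintro f f' hL (⟨e1, e2⟩ | ⟨g', e1, -⟩ | e)
          · exfalso
            obtain ⟨f0, b0, -, y0, z0⟩ := D.own_flag hP top ⟨g, rfl⟩ k
            obtain ⟨x, hx⟩ := hf.2 (opp f0) f (Prod.ext ((fy_opp f0).trans z0) ((fz_opp f0).trans y0))
              (Prod.ext e1 e2)
            refine hL.bt ?_
            rw [← hx]
            show D.toF.Bt (opp f0).1.1.1
            rw [opp_cell]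
            exact b0
          · rw [e1, K.rk_smul, K.rk_smul] at r
            exact absurd r (lt_irrefl _)
          · exact e
        intro f1' f2' e1 e2
        obtain ⟨f1, L1, c1⟩ := up f1' e1
        obtain ⟨f2, L2, c2⟩ := up f2' e2
        obtain ⟨g1, d1, y1, z1, a1⟩ := low f1 f1' L1 c1
        obtain ⟨g2, d2, y2, z2, a2⟩ := low f2 f2' L2 c2
        obtain ⟨⟨m1, k1⟩, -, -⟩ := F.xg hP a1
        obtain ⟨⟨m2, k2⟩, X2, -⟩ := F.xg hP a2
        obtain ⟨p1, -, x1, u1, v1⟩ := D.own_flag hP top ⟨g1, rfl⟩ k1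
        obtain ⟨p2, -, x2, u2, v2⟩ := D.own_flag hP top ⟨g2, rfl⟩ k2
        obtain ⟨x, hx⟩ := hf.2 (opp p1) (opp p2)
          (by rw [fy_opp, fz_opp, u1, v1]; exact Prod.ext d1.symm rfl)
          (by rw [fy_opp, fz_opp, u2, v2]; exact Prod.ext d2.symm rfl)
        have hx' : x • p1 = p2 := by
          have := congrArg opp hx
          rwa [← opp_smul, opp_opp, opp_opp] at this
        have xT : x • g1 • D.T = g2 • D.T := by
          have := congrArg fx hx'
          rwa [fx_smul, x1, x2] at this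
        have xd : x • d = d := by
          have := congrArg fy hx'
          rwa [fy_smul, u1, u2] at this
        have s1 : (fy (x • f1), fz (x • f1)) = (g2 • D.T, d) := by
          rw [fy_smul, fz_smul, y1, z1, xT, xd]
        have s2 : (fy f2, fz f2) = (g2 • D.T, d) := Prod.ext y2 z2
        obtain ⟨w, hw⟩ := D.strand hP top a2 ⟨g2, rfl⟩ X2 (nt g2 d2 a2) (f1 := x • f1) L1.bt
          L2.bt s1 s2
        refine ⟨w * x, L1.orb L2 ?_⟩
        rw [mul_smul]
        exact hw
    · -- no folded top at the edge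
      have low : ∀ f f', D.Lf P f f' → ((fy f = c ∧ fz f = d) ∨
          (∃ g : H, d = g • D.y ∧ fy f = c ∧ fz f = g • D.T ∧ K.ar (g • D.T) c) ∨
          (∃ g : H, c = g • D.y ∧ fy f = g • D.T ∧ fz f = d ∧ K.ar (g • D.T) d)) →
          fy f = c ∧ fz f = d := by
        rintro f f' - (e | ⟨g, e1, -, -, e2⟩ | ⟨g, e1, -, -, e2⟩)
        · exact e
        · exact absurd ⟨g, e1, e2⟩ t1
        · exact absurd ⟨g, e1, e2⟩ t2
      constructor
      · obtain ⟨f, e⟩ := hf.1
        have e1 : fy f = c := congrArg Prod.fst e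
        have e2 : fz f = d := congrArg Prod.snd e
        refine down f ?_ (congrArg D.toF.F e1) (congrArg D.toF.F e2)
        intro hB
        rcases P.pf_cases f with ⟨i, hi, j, g, b0, rfl⟩ | ⟨i, hi, j, g, b0, rfl⟩
        · rw [pf5_cell] at hB
          exact D.flat.not_Bt5 P hi hB
        · rw [pf4_cell, D.bt_iff hP hm top hi] at hB
          obtain ⟨l, tl, Ol⟩ := hB
          obtain ⟨-, v2, v3⟩ := pf4_v (P := P) i hi j g b0
          have w2 : c = g • P.qt i (iy j b0) := e1.symm.trans v2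
          have w3 : d = g • P.qt i (iz j b0) := e2.symm.trans v3
          have hq := pf4_q4 (P := P) i hi j g b0
          rw [← w2, ← w3] at hq
          have Og : D.toF.O (g • P.qt i l) := D.toF.O_smul g _ Ol
          rcases idx_cases j b0 l with k | k | k | k
          · rw [k, ← w2] at Og
            exact hc Og
          · rw [k] at tl
            have a1 : K.ar (g • P.qt i (iz j b0)) (g • P.qt i (iy j b0)) :=
              of_tp ((adj_iz j b0).elim (fun h => Or.inl h.1) (fun h => Or.inr h.2)) g tl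
            rw [← w2, ← w3] at a1
            exact GX.ck_asym h a1
          · rw [k] at tl Og
            have a1 : K.ar (g • P.qt i (ix j b0)) (g • P.qt i (iy j b0)) :=
              of_tp ((adj_ix j b0).elim (fun h => Or.inl h.1) (fun h => Or.inr h.2)) g tl
            have a2 : K.ar (g • P.qt i (ix j b0)) (g • P.qt i (iv j b0)) :=
              of_tp ((adj_ix j b0).elim (fun h => Or.inr h.2) (fun h => Or.inl h.1)) g tl
            obtain ⟨g', eg⟩ := Og
            rw [eg] at a1 a2 hq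
            rw [← w2] at a1
            have kT : P.Top (g' • D.T) (g • P.qt i (iv j b0)) c d :=
              ⟨hq.rot.rot.rot, a2, a1⟩
            exact t1 ⟨g', D.par_smul hs top kT, a1⟩
          · rw [k] at tl Og
            have a1 : K.ar (g • P.qt i (iv j b0)) (g • P.qt i (ix j b0)) :=
              of_tp ((adj_iv j b0).elim (fun h => Or.inl h.1) (fun h => Or.inr h.2)) g tl
            have a2 : K.ar (g • P.qt i (iv j b0)) (g • P.qt i (iz j b0)) :=
              of_tp ((adj_iv j b0).elim (fun h => Or.inr h.2) (fun h => Or.inl h.1)) g tl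
            obtain ⟨g', eg⟩ := Og
            rw [eg] at a1 a2 hq
            rw [← w3] at a2
            have kT : P.Top (g' • D.T) d (g • P.qt i (ix j b0)) c := ⟨hq.rot.rot, a2, a1⟩
            exact t2 ⟨g', D.par_smul hs top kT, a2⟩
      · intro f1' f2' e1 e2
        obtain ⟨f1, L1, c1⟩ := up f1' e1
        obtain ⟨f2, L2, c2⟩ := up f2' e2
        obtain ⟨y1, z1⟩ := low f1 f1' L1 c1
        obtain ⟨y2, z2⟩ := low f2 f2' L2 c2
        obtain ⟨x, hx⟩ := hf.2 f1 f2 (Prod.ext y1 z1) (Prod.ext y2 z2)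
        exact ⟨x, L1.orb L2 hx⟩

/-- DIRECT ARROWS stay direct -/
theorem drN (hm : K.Min) (hl : ∀ v, K.LC v) {c d : V} (h : K.ar c d)
    (hc : ¬ (F.D hP.toSqE).toF.O c) (hd : DrN K c d) :
    DrN (F.gx hP.toSqE) (F.f hP.toSqE c) (F.f hP.toSqE d) := by
  have hs : P.SqT := hP.toSqE
  set D := F.D hs with hD
  have top : P.Top D.T F.a F.b D.y := F.top
  have fc : ∀ g : H, g • D.toF.F c = D.toF.F c → g • c = c := by
    intro g e
    have e := congrArg Subtype.val e
    rwa [D.toF.smul_coe, D.toF.F_coe, D.toF.f_not hc] at e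
  by_cases hO : D.toF.O d
  · -- the target is folded
    obtain ⟨k, rfl⟩ := hO
    have ev : (D.toF.F (k • D.T)).1 = k • D.y := D.f_T k
    -- an element which fixes `c` and `k y` fixes `k T` and `k a`
    have key : ∀ g : H, g • D.toF.F c = D.toF.F c → g • D.toF.F (k • D.T) = D.toF.F (k • D.T) →
        (k⁻¹ * g * k) • F.T = F.T ∧ (k⁻¹ * g * k) • F.a = F.a := by
      intro g e1 e2
      have g1 := fc g e1
      have h1 : K.ar c (g • k • D.T) := by
        have := K.ar_smul g _ _ h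
        rwa [g1] at this
      have h2 : D.toF.F (k • D.T) = D.toF.F (g • k • D.T) :=
        e2.symm.trans (D.toF.F_smul g (k • D.T)).symm
      have h3 := D.poles_inj hP hm top (hl c) h h1 h2
      have h4 := hd.1 g g1 h3.symm (k • F.a) (K.ar_smul k _ _ F.top.2.1)
      constructor
      · rw [mul_smul, mul_smul]
        have : g • k • F.T = k • F.T := h3.symm
        rw [this, inv_smul_smul]
      · rw [mul_smul, mul_smul, h4, inv_smul_smul]
    constructor
    · rintro g e1 e2 x ⟨z, hz, rfl⟩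
      obtain ⟨p1, p2⟩ := key g e1 e2
      have hz : K.ar (D.toF.F (k • D.T)).1 z := hz
      rw [ev] at hz
      have hz' : K.ar F.y (k⁻¹ • z) := by
        have := K.ar_smul k⁻¹ _ _ hz
        rwa [inv_smul_smul] at this
      have q := F.fp _ p1 p2 _ hz'
      rw [mul_smul, mul_smul, smul_inv_smul] at q
      have q2 : g • z = z := by
        have := congrArg (fun w => k • w) q
        simpa only [smul_inv_smul] using this
      rw [← D.toF.F_smul, q2]
    · intro hk hi g e1 e2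
      obtain ⟨p1, p2⟩ := key g e1 e2
      have hsy : K.Snk F.y := by
        intro z hz
        refine hk (D.toF.F (k • z)) ⟨k • z, ?_, rfl⟩
        show K.ar (D.toF.F (k • D.T)).1 _
        rw [ev]
        exact K.ar_smul k _ _ hz
      have hst : stabilizer H (F.f hP.toSqE (k • D.T)) = stabilizer H (k • F.y) := by
        rw [F.stab]
        exact congrArg _ ev
      have hiy : Infinite ↥(stabilizer H F.y) := by
        rw [hst] at hi
        exact inf_stab_smul k hi
      have q := (F.ny hsy hiy _ p1 p2).smul k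
      have e3 : k * (k⁻¹ * g * k) * k⁻¹ = g := by group
      rw [e3] at q
      obtain ⟨q1, q2, t, q3, q4, q5⟩ := q
      have mem : ∀ x : H, x • (k • F.y) = k • F.y → x • F.f hP.toSqE (k • D.T) =
          F.f hP.toSqE (k • D.T) := by
        intro x hx
        have : x ∈ stabilizer H (k • F.y) := hx
        rw [← hst] at this
        exact this
      exact ⟨mem _ q1, q2, t, mem _ q3, q4, q5⟩
  · have ev : (D.toF.F d).1 = d := D.toF.f_not hO
    have fd : ∀ g : H, g • D.toF.F d = D.toF.F d → g • d = d := by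
      intro g e
      have e := congrArg Subtype.val e
      rwa [D.toF.smul_coe, ev] at e
    constructor
    · rintro g e1 e2 x ⟨z, hz, rfl⟩
      have hz : K.ar (D.toF.F d).1 z := hz
      rw [ev] at hz
      rw [← D.toF.F_smul, hd.1 g (fc g e1) (fd g e2) z hz]
    · intro hk hi g e1 e2
      have hsd : K.Snk d := by
        intro z hz
        refine hk (D.toF.F z) ⟨z, ?_, rfl⟩
        show K.ar (D.toF.F d).1 _
        rw [ev]
        exact hz
      have hst : stabilizer H (F.f hP.toSqE d) = stabilizer H d := by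
        rw [F.stab]
        exact congrArg _ ev
      rw [hst] at hi
      obtain ⟨q1, q2, t, q3, q4, q5⟩ := hd.2 hsd hi g (fc g e1) (fd g e2)
      have mem : ∀ x : H, x • d = d → x • F.f hP.toSqE d = F.f hP.toSqE d := by
        intro x hx
        have : x ∈ stabilizer H d := hx
        rw [← hst] at this
        exact this
      exact ⟨mem _ q1, q2, t, mem _ q3, q4, q5⟩

/-- THE NUMBER `phi_0` DOES NOT DROP -/
theorem phA_le (hm : K.Min) (hl : ∀ v, K.LC v) : K.phA ≤ (F.gx hP.toSqE).phA := by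
  have hs : P.SqT := hP.toSqE
  set D := F.D hs with hD
  have top : P.Top D.T F.a F.b D.y := F.top
  have hnO : ∀ p : V × V, p ∈ K.ThA → ¬ D.toF.O p.1 := by
    rintro ⟨c, d⟩ ⟨h1, -, h3, h4⟩ ⟨g, e⟩
    have e : c = g • D.T := e
    subst e
    obtain ⟨⟨m, k⟩, -, -⟩ := F.xg hP h1
    exact P45.not_oneFl k (hP.x1 (g • D.T, d) ⟨_, _, k⟩) ⟨h3, h4⟩
  have hfin : FinOrb H (F.gx hs).ThA := by
    have h : FinOrb H {p : F.W hs × F.W hs | (F.gx hs).E p.1 p.2} := (F.gx hs).fin_E
    exact h.mono fun p hp => Or.inl hp.1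
  refine oc_le_of_inj hfin (fun p => (D.toF.F p.1, D.toF.F p.2)) ?_ ?_
  · rintro ⟨c, d⟩ hp
    have hc := hnO _ hp
    obtain ⟨h1, h2, h3, h4⟩ := hp
    obtain ⟨k3, k4⟩ := F.oneFl hP hm hl h1 h2 ⟨h3, h4⟩
    exact ⟨D.ar_not h1 hc, F.drN hP hm hl h1 hc h2, k3, k4⟩
  · rintro ⟨c, d⟩ hp ⟨c', d'⟩ hp' ⟨g, e⟩
    have hc := hnO _ hp
    have hc' := hnO _ hp'
    have e1 : g • D.toF.F c = D.toF.F c' := congrArg Prod.fst e
    have e2 : g • D.toF.F d = D.toF.F d' := congrArg Prod.snd e
    have e3 : g • c = c' := by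
      have e1 := congrArg Subtype.val e1
      rwa [D.toF.smul_coe, D.toF.F_coe, D.toF.F_coe, D.toF.f_not hc, D.toF.f_not hc'] at e1
    have h1 : K.ar c' (g • d) := by
      have := K.ar_smul g _ _ hp.1
      rw [← e3]
      exact this
    have e4 := D.poles_inj hP hm top (hl c') h1 hp'.1 (by rw [D.toF.F_smul, e2])
    exact ⟨g, Prod.ext e3 e4⟩

end P45.SfD

end Pool.Agent.DI
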