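import Pool.Agent.DI.SfP
import Pool.Agent.DI.SfS

/-!
# DI/SfPs: `p_4` and `p_5` of the folded state (owner: helper64)
-/

namespace Pool.Agent.DI

open MulAction

namespace St

/-- the field `p4` of `SfIn` -/
theorem sf_p4 (C : St) (F : C.P.SfD) : (F.gx C.cls.toSqE).p4 ≤ C.K.p4 :=
  F.p4_le (F.noOne C.Min C.cls) C.Min C.cls.x1 C.lc C.bad (C.tf _ _ _ _ F.top)

/-- the field `p5` of `SfIn` -/
theorem sf_p5 (C : St) (F : C.P.SfD) : (F.gx C.cls.toSqE).p5 ≤ C.K.p5 := by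
  refine F.p5_le (F.noOne C.Min C.cls) C.Min C.cls.x1 C.lc C.bad ?_
  intro h
  exact C.fs _ h _ _ _ F.top.1.rot.rot

end St

end Pool.Agent.DI
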