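import Pool.Agent.DI.PmT
import Pool.Agent.DI.PmI
import Pool.Agent.DI.Bare

/-!
# DI/PmX: the weighted strands and the plain strands

`SqT.XW_eq`: in a state the weighted number `P.XW T c` is twice the number `P.X T c` of the plain strands.
`SqT.cl`: a state whose top arrows have strands is in the class `P.Cl`. `Cl.two`: in the class the
weighted number at the arrow of a top is at least `2`.
-/

namespace Pool.Agent.DI

open MulAction
open Pool.Agent.SAF (InC orbs FinOrb oc)

variable {H V : Type} [Group H] [MulAction H V]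

namespace P45

variable {K : GX H V} {P : P45 K}

theorem lg_nonneg (T c p q : V) : 0 ≤ lg H T c p q := by
  unfold lg
  split_ifs <;> norm_num

theorem lg_of {T c p q : V} (h : Tr H T c p q) : lg H T c p q = 1 := if_pos h

theorem lg_smul_r (g : H) (T c p q : V) : lg H T c (g • p) (g • q) = lg H T c p q := by
  classical
  unfold lg
  refine if_congr ?_ rfl rfl
  constructor
  · rintro ⟨h, e1, e2⟩
    exact ⟨g⁻¹ * h, by rw [mul_smul, ← e1, inv_smul_smul], by rw [mul_smul, ← e2, inv_smul_smul]⟩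
  · rintro ⟨h, rfl, rfl⟩
    exact ⟨g * h, (mul_smul _ _ _).symm, (mul_smul _ _ _).symm⟩

theorem lg_pair {T c p q p' q' : V} (g : H) (e1 : g • p = p') (e2 : g • q = q') :
    lg H T c p q = lg H T c p' q' := by
  rw [← e1, ← e2, lg_smul_r]

/-- THE WEIGHTED STRANDS OF A STATE -/
theorem SqT.XW_eq (hs : P.SqT) {T c b y : V} (h : P.Top T c b y) : P.XW T c = 2 * P.X T c := by
  classical
  have hc := hs.wc
  have hA : ∀ (g : H), ∀ p ∈ {p : V × V | omk H p = omk H (T, c)},
      g • p ∈ {p : V × V | omk H p = omk H (T, c)} := fun g p hp => by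
    show omk H (g • p) = _
    rw [omk_smul]
    exact hp
  have mem : ∀ p q, (p, q) ∈ {p : V × V | omk H p = omk H (T, c)} ↔ Tr H T c p q := by
    intro p q
    constructor
    · intro hp
      obtain ⟨g, hg⟩ := omk_eq.1 hp
      exact ⟨g, (congrArg Prod.fst hg).symm, (congrArg Prod.snd hg).symm⟩
    · rintro ⟨g, rfl, rfl⟩
      exact omk_eq.2 ⟨g, rfl⟩
  have arT : ∀ {p q}, Tr H T c p q → K.ar p q := by
    rintro p q ⟨g, rfl, rfl⟩
    exact K.ar_smul g _ _ h.2.1
  rw [X_sX, hc.two_sX _ hA, XW_top]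
  refine Finset.sum_congr rfl fun i _ => ?_
  by_cases hi : P.sq i
  · rw [if_pos hi]
    by_cases ho : P.own T i
    · rw [if_pos ho, P.ccs4 hi]
      symm
      rw [Finset.sum_eq_zero, mul_zero]
      intro j _
      obtain ⟨-, g, k, hk, e⟩ := ho
      have a1 : ∀ j : Fin 4, j + 1 + 1 = j + 2 := by decide
      have a3 : ∀ j : Fin 4, j + 1 + 3 = j := by decide
      have key : ∀ q, (P.qt i (j + 1), q) ∈ {p : V × V | omk H p = omk H (T, c)} →
          K.ar (P.qt i (j + 1)) (P.qt i j) ∧ K.ar (P.qt i (j + 1)) (P.qt i (j + 2)) := by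
        intro q hq
        obtain ⟨g', e1, -⟩ := (mem _ _).1 hq
        have e2 : j + 1 = k := tq_rk hi hk (by rw [e1, K.rk_smul, ← e, K.rk_smul])
        have t := hk.1
        rw [← e2] at t
        have t1 := t.1
        have t2 := t.2
        rw [a1] at t1
        rw [a3] at t2
        exact ⟨t2, t1⟩
      rw [if_neg, if_neg, add_zero]
      · rintro ⟨k1, -, k3⟩
        exact GX.not_both' k1 (key _ k3).2
      · rintro ⟨k1, -, k3⟩
        exact GX.not_both' k1 (key _ k3).1
    · rw [if_neg ho, hs.wq_eq]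
      congr 1
      rw [P.ccs4 hi, P.ccs4 hi]
      refine Finset.sum_congr rfl fun j _ => ?_
      have a1 : ∀ j : Fin 4, j + 1 + 1 = j + 2 := by decide
      have a3 : ∀ j : Fin 4, j + 1 + 3 = j := by decide
      have no : ∀ q, Tr H T c (P.qt i (j + 1)) q → ¬ (K.ar (P.qt i (j + 1)) (P.qt i j) ∧
          K.ar (P.qt i (j + 1)) (P.qt i (j + 2))) := by
        rintro q ⟨g, e1, -⟩ ⟨k1, k2⟩
        refine ho ⟨hi, g⁻¹, j + 1, (hs.tq_iff hi).2 ⟨?_, ?_⟩, ?_⟩
        · rw [a1]
          exact k2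
        · rw [a3]
          exact k1
        · rw [e1, inv_smul_smul]
      have E1 : K.E (P.qt i j) (P.qt i (j + 1)) := P.E4 hi j
      have E2 : K.E (P.qt i (j + 1)) (P.qt i (j + 2)) := by
        have := P.E4 hi (j + 1)
        rwa [a1] at this
      have f1 : lg H T c (P.qt i (j + 1)) (P.qt i (j + 2)) =
          if K.ar (P.qt i j) (P.qt i (j + 1)) ∧ K.ar (P.qt i (j + 1)) (P.qt i (j + 2)) ∧
            (P.qt i (j + 1), P.qt i (j + 2)) ∈ {p : V × V | omk H p = omk H (T, c)} then 1 else 0 := by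
        unfold lg
        refine if_congr ?_ rfl rfl
        constructor
        · intro k
          refine ⟨?_, arT k, (mem _ _).2 k⟩
          rcases E1 with e | e
          · exact e
          · exact absurd ⟨e, arT k⟩ (no _ k)
        · rintro ⟨-, -, k⟩
          exact (mem _ _).1 k
      have f2 : lg H T c (P.qt i (j + 1)) (P.qt i j) =
          if K.ar (P.qt i (j + 2)) (P.qt i (j + 1)) ∧ K.ar (P.qt i (j + 1)) (P.qt i j) ∧
            (P.qt i (j + 1), P.qt i j) ∈ {p : V × V | omk H p = omk H (T, c)} then 1 else 0 := by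
        unfold lg
        refine if_congr ?_ rfl rfl
        constructor
        · intro k
          refine ⟨?_, arT k, (mem _ _).2 k⟩
          rcases E2 with e | e
          · exact absurd ⟨arT k, e⟩ (no _ k)
          · exact e
        · rintro ⟨-, -, k⟩
          exact (mem _ _).1 k
      rw [f1, f2, add_comm]
      congr!
  · rw [if_neg hi, if_neg (fun k => hi k.1), hs.wq_eq]
    congr 1
    refine K.ccs_congr i fun j => ?_
    have f : ∀ p q, lg H T c p q = if K.ar p q ∧ (p, q) ∈ {p : V × V | omk H p = omk H (T, c)}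
        then 1 else 0 := by
      intro p q
      unfold lg
      refine if_congr ?_ rfl rfl
      exact ⟨fun k => ⟨arT k, (mem _ _).2 k⟩, fun k => (mem _ _).1 k.2⟩
    rw [f, f, add_comm]
    congr!

/-! ### the class -/

/-- A STATE WHOSE TOP ARROWS HAVE STRANDS IS IN THE CLASS -/
theorem SqT.cl (hs : P.SqT) (h1 : ∀ T a b y, P.Top T a b y → 1 ≤ P.X T a) : P.Cl where
  top i hi := by
    obtain ⟨j, hj⟩ := hs.top i hi
    exact ⟨j, (hs.tq_iff hi).2 hj⟩
  one i i' hi hi' j j' h h' := hs.one i i' hi hi' j j' h.1 h'.1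
  par T a b y a' b' y' h h' := (hs.par _ _ _ _ _ _ _ h.1 h'.1).resolve_left (fun k => k)
  nab T a b y h := hs.nab _ _ _ _ h.1
  x1 T a b y h := by
    have k := h1 _ _ _ _ h.1
    unfold X at k
    have kk : 1 ≤ oc ↥(stabilizer H (T, a)) {f : FL K | f ∈ P.RP ∧ (fy f, fz f) = (T, a)} ∨
      1 ≤ oc ↥(stabilizer H (T, a)) {p : (V × V) × (V × V) | p ∈ P.ZP ∧ p.1 = (T, a)} := by omega
    rcases kk with kk | kk
    · left
      by_contra hno
      have e : {f : FL K | f ∈ P.RP ∧ (fy f, fz f) = (T, a)} = ∅ := by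
        ext f
        constructor
        · rintro ⟨⟨h2, -⟩, h3⟩
          have h4 : fy f = T := congrArg Prod.fst h3
          have h5 : fz f = a := congrArg Prod.snd h3
          obtain ⟨y', z', h6⟩ := bare_qn (P := P) h2
          rw [h4, h5] at h6
          exact hno ⟨_, _, _, h6⟩
        · exact fun k => k.elim
      rw [e, oc_empty] at kk
      omega
    · right
      by_contra hno
      have e : {p : (V × V) × (V × V) | p ∈ P.ZP ∧ p.1 = (T, a)} = ∅ := by
        ext p
        constructor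
        · rintro ⟨⟨h2, h3, h4⟩, h5⟩
          have h6 : p.1.1 = T := congrArg Prod.fst h5
          have h7 : p.1.2 = a := congrArg Prod.snd h5
          rw [h6, h7] at h2
          rw [h6] at h4
          refine hno ⟨_, _, h2, ?_⟩
          rintro ⟨e1, -⟩
          rw [e1] at h4
          exact GX.not_both' h4 h.1.2.2
        · exact fun k => k.elim
      rw [e, oc_empty] at kk
      omega

/-! ### two weighted passes -/

/-- the passes of a listed square -/
theorem ccs_lg4 {i : K.I} (hi : P.sq i) (T a : V) :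
    K.ccs i (fun x y z => lg H T a y x + lg H T a y z) = ∑ j : Fin 4,
      (lg H T a (P.qt i j) (P.qt i (j + 1)) + lg H T a (P.qt i (j + 1)) (P.qt i j)) := by
  rw [P.ccs4 hi, Fin.sum_univ_four, Fin.sum_univ_four]
  have b1 : (0 : Fin 4) + 1 = 1 := rfl
  have b2 : (0 : Fin 4) + 2 = 2 := rfl
  have b3 : (1 : Fin 4) + 1 = 2 := rfl
  have b4 : (1 : Fin 4) + 2 = 3 := rfl
  have b5 : (2 : Fin 4) + 1 = 3 := rfl
  have b6 : (2 : Fin 4) + 2 = 0 := rfl
  have b7 : (3 : Fin 4) + 1 = 0 := rfl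
  have b8 : (3 : Fin 4) + 2 = 1 := rfl
  rw [b1, b2, b3, b4, b5, b6, b7, b8]
  ring

/-- the passes of a listed square, lower bound -/
theorem ccs_lg4_ge {i : K.I} (hi : P.sq i) (T a : V) {m : Fin 4}
    (h : 1 ≤ lg H T a (P.qt i m) (P.qt i (m + 1)) + lg H T a (P.qt i (m + 1)) (P.qt i m)) :
    1 ≤ K.ccs i (fun x y z => lg H T a y x + lg H T a y z) := by
  rw [ccs_lg4 hi]
  exact h.trans (Finset.single_le_sum (f := fun j : Fin 4 =>
    lg H T a (P.qt i j) (P.qt i (j + 1)) + lg H T a (P.qt i (j + 1)) (P.qt i j))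
    (fun j _ => add_nonneg (lg_nonneg _ _ _ _) (lg_nonneg _ _ _ _)) (Finset.mem_univ m))

theorem ccs_lg4_ge2 {i : K.I} (hi : P.sq i) (T a : V) {m m' : Fin 4} (hne : m ≠ m')
    (h : 1 ≤ lg H T a (P.qt i m) (P.qt i (m + 1)) + lg H T a (P.qt i (m + 1)) (P.qt i m))
    (h' : 1 ≤ lg H T a (P.qt i m') (P.qt i (m' + 1)) + lg H T a (P.qt i (m' + 1)) (P.qt i m')) :
    2 ≤ K.ccs i (fun x y z => lg H T a y x + lg H T a y z) := by
  rw [ccs_lg4 hi]
  have k := Finset.sum_le_sum_of_subset_of_nonneg (f := fun j : Fin 4 =>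
    lg H T a (P.qt i j) (P.qt i (j + 1)) + lg H T a (P.qt i (j + 1)) (P.qt i j))
    (Finset.subset_univ {m, m'})
    (fun j _ _ => add_nonneg (lg_nonneg _ _ _ _) (lg_nonneg _ _ _ _))
  rw [Finset.sum_pair hne] at k
  have k : _ ≤ _ := k
  linarith

/-- the flip of a square -/
theorem Cl.flip (hC : P.Cl) {i : K.I} (hi : P.sq i) {k : Fin 4} (hk : P.tq i k) {g : H}
    (h1 : g • P.qt i k = P.qt i k) (h2 : g • P.qt i (k + 1) = P.qt i (k + 3)) :
    g • P.qt i (k + 2) = P.qt i (k + 2) ∧ g • P.qt i (k + 3) = P.qt i (k + 1) := by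
  have t := tq_TopR hi hk
  refine ⟨hC.fix t h1, ?_⟩
  have a := K.ar_smul g _ _ t.1.2.2
  rw [h1] at a
  rcases hC.sides t a with e | e
  · exact e
  · exact absurd (smul_left_cancel g (h2.trans e.symm)) (hC.nab _ _ _ _ t)

/-- a flipped square passes an arrow twice -/
theorem Cl.flip_two (hC : P.Cl) {i : K.I} (hf : P.flq i) (T a : V) {m : Fin 4}
    (h : 1 ≤ lg H T a (P.qt i m) (P.qt i (m + 1)) + lg H T a (P.qt i (m + 1)) (P.qt i m)) :
    2 ≤ K.ccs i (fun x y z => lg H T a y x + lg H T a y z) := by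
  obtain ⟨hi, g, k, hk, h1, h2⟩ := hf
  obtain ⟨h3, h4⟩ := hC.flip hi hk h1 h2
  have s1 : k + 1 + 1 = k + 2 := by rw [add_assoc]; rfl
  have s2 : k + 2 + 1 = k + 3 := by rw [add_assoc]; rfl
  have s3 : k + 3 + 1 = k := by rw [add_assoc]; exact add_zero k
  have n1 : k ≠ k + 3 := by
    have : ∀ k : Fin 4, k ≠ k + 3 := by decide
    exact this k
  have n2 : k + 1 ≠ k + 2 := by
    have : ∀ k : Fin 4, k + 1 ≠ k + 2 := by decide
    exact this k
  obtain ⟨l, rfl⟩ : ∃ l, m = k + l := ⟨m - k, (add_sub_cancel k m).symm⟩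
  fin_cases l
  · have h : 1 ≤ lg H T a (P.qt i (k + 0)) (P.qt i (k + 0 + 1)) +
      lg H T a (P.qt i (k + 0 + 1)) (P.qt i (k + 0)) := h
    rw [add_zero] at h
    refine ccs_lg4_ge2 hi T a n1 h ?_
    rw [s3, ← lg_pair g h2 h1, ← lg_pair g h1 h2, add_comm]
    exact h
  · have h : 1 ≤ lg H T a (P.qt i (k + 1)) (P.qt i (k + 1 + 1)) +
      lg H T a (P.qt i (k + 1 + 1)) (P.qt i (k + 1)) := h
    refine ccs_lg4_ge2 hi T a n2 h ?_
    rw [s1] at h
    rw [s2, ← lg_pair g h3 h2, ← lg_pair g h2 h3, add_comm]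
    exact h
  · have h : 1 ≤ lg H T a (P.qt i (k + 2)) (P.qt i (k + 2 + 1)) +
      lg H T a (P.qt i (k + 2 + 1)) (P.qt i (k + 2)) := h
    refine ccs_lg4_ge2 hi T a n2.symm h ?_
    rw [s2] at h
    rw [s1, ← lg_pair g h4 h3, ← lg_pair g h3 h4, add_comm]
    exact h
  · have h : 1 ≤ lg H T a (P.qt i (k + 3)) (P.qt i (k + 3 + 1)) +
      lg H T a (P.qt i (k + 3 + 1)) (P.qt i (k + 3)) := h
    refine ccs_lg4_ge2 hi T a n1.symm h ?_
    rw [s3] at h
    rw [← lg_pair g h1 h4, ← lg_pair g h4 h1, add_comm]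
    exact h

/-- IN THE CLASS THE ARROW OF A TOP HAS TWO WEIGHTED PASSES -/
theorem Cl.two (hC : P.Cl) {T a b y : V} (h : P.TopR T a b y) : 2 ≤ P.XW T a := by
  classical
  have cn : ∀ i, 0 ≤ K.ccs i (fun x y z => lg H T a y x + lg H T a y z) := fun i =>
    K.ccs_nonneg i fun j => add_nonneg (lg_nonneg _ _ _ _) (lg_nonneg _ _ _ _)
  have tn : ∀ i, 0 ≤ (if P.own T i then 0 else
      P.wq i * K.ccs i (fun x y z => lg H T a y x + lg H T a y z)) := by
    intro i
    split_ifs
    · exact le_rfl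
    · exact mul_nonneg (wq_pos i).le (cn i)
  have key : ∀ i, ¬ P.own T i → 2 ≤ P.wq i * K.ccs i (fun x y z => lg H T a y x + lg H T a y z) →
      2 ≤ P.XW T a := by
    intro i ho h2
    rw [XW_top]
    have k := Finset.single_le_sum (f := fun i => if P.own T i then 0 else
      P.wq i * K.ccs i (fun x y z => lg H T a y x + lg H T a y z)) (fun i _ => tn i)
      (Finset.mem_univ i)
    refine le_trans ?_ k
    show 2 ≤ if P.own T i then 0 else _
    rw [if_neg ho]
    exact h2
  rcases hC.x1 _ _ _ _ h with ⟨n, q, z, g, i, j, hi, hq⟩ | ⟨n, q, ⟨g, i, j, hi, hq⟩, hn⟩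
  · refine key i (fun k => hi k.1) ?_
    rw [wq_pent hi]
    have : 1 ≤ K.ccs i (fun x y z => lg H T a y x + lg H T a y z) := by
      rw [P.ccs5 hi]
      refine le_trans ?_ (Finset.single_le_sum (f := fun j : Fin 5 =>
        lg H T a (P.pt i (j + 1)) (P.pt i j) + lg H T a (P.pt i (j + 1)) (P.pt i (j + 2)))
        (fun j _ => add_nonneg (lg_nonneg _ _ _ _) (lg_nonneg _ _ _ _)) (Finset.mem_univ j))
      have n1 := lg_nonneg (H := H) T a (P.pt i (j + 1)) (P.pt i j)
      have n2 := lg_nonneg (H := H) T a (P.pt i (j + 1)) (P.pt i (j + 2))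
      rcases hq with ⟨-, e1, e2, -, -⟩ | ⟨e2, e1, -, -, -⟩
      · have : lg H T a (P.pt i (j + 1)) (P.pt i (j + 2)) = 1 :=
          lg_of ⟨g⁻¹, by rw [e1, inv_smul_smul], by rw [e2, inv_smul_smul]⟩
        show 1 ≤ lg H T a (P.pt i (j + 1)) (P.pt i j) + lg H T a (P.pt i (j + 1)) (P.pt i (j + 2))
        omega
      · have : lg H T a (P.pt i (j + 1)) (P.pt i j) = 1 :=
          lg_of ⟨g⁻¹, by rw [e1, inv_smul_smul], by rw [e2, inv_smul_smul]⟩
        show 1 ≤ lg H T a (P.pt i (j + 1)) (P.pt i j) + lg H T a (P.pt i (j + 1)) (P.pt i (j + 2))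
        omega
    omega
  · have a1 : j + 1 + 1 = j + 2 := by rw [add_assoc]; rfl
    have a2 : j + 1 + 2 = j + 3 := by rw [add_assoc]; rfl
    have a3 : j + 1 + 3 = j := by rw [add_assoc]; exact add_zero j
    have ho : ¬ P.own T i := by
      rintro ⟨-, g', k, hk, e⟩
      have e1 : g • P.qt i (j + 1) = T := by rcases hq with hq | hq <;> exact hq.2.1.symm
      have e2 : j + 1 = k := tq_rk hi hk (by
        rw [← K.rk_smul g (P.qt i (j + 1)), e1, ← e, K.rk_smul])
      rw [← e2] at hk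
      have t := (tq_TopR hi hk).smul g
      rw [a1, a2, a3, e1] at t
      have hy : g • P.qt i (j + 3) = y := hC.par _ _ _ _ _ _ _ t h
      rcases hq with ⟨q1, q2, q3, q4⟩ | ⟨q1, q2, q3, q4⟩
      · rw [← q1, ← q3] at t
        refine hn ⟨?_, by rw [q4, hy]⟩
        rcases hC.sides h t.1.2.2 with e | e
        · exact absurd e.symm (hC.nab _ _ _ _ t)
        · exact e
      · rw [← q1, ← q3] at t
        refine hn ⟨?_, by rw [q4, hy]⟩
        rcases hC.sides h t.1.2.1 with e | e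
        · exact absurd e (hC.nab _ _ _ _ t)
        · exact e
    have hp : ∃ m : Fin 4, 1 ≤ lg H T a (P.qt i m) (P.qt i (m + 1)) +
        lg H T a (P.qt i (m + 1)) (P.qt i m) := by
      rcases hq with ⟨-, e1, e2, -⟩ | ⟨e2, e1, -, -⟩
      · refine ⟨j + 1, ?_⟩
        have : lg H T a (P.qt i (j + 1)) (P.qt i (j + 1 + 1)) = 1 := by
          rw [a1]
          exact lg_of ⟨g⁻¹, by rw [e1, inv_smul_smul], by rw [e2, inv_smul_smul]⟩
        have n2 := lg_nonneg (H := H) T a (P.qt i (j + 1 + 1)) (P.qt i (j + 1))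
        omega
      · refine ⟨j, ?_⟩
        have : lg H T a (P.qt i (j + 1)) (P.qt i j) = 1 :=
          lg_of ⟨g⁻¹, by rw [e1, inv_smul_smul], by rw [e2, inv_smul_smul]⟩
        have n2 := lg_nonneg (H := H) T a (P.qt i j) (P.qt i (j + 1))
        omega
    obtain ⟨m, hm⟩ := hp
    refine key i ho ?_
    by_cases hf : P.flq i
    · have e : P.wq i = 1 := if_pos hf
      rw [e, one_mul]
      exact hC.flip_two hf T a hm
    · have e : P.wq i = 2 := if_neg hf
      rw [e]
      have := ccs_lg4_ge hi T a hm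
      omega

end P45

end Pool.Agent.DI
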