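import Pool.Agent.DI.PmS
import Pool.Agent.DI.HrW
import Pool.Agent.DI.HDL

/-!
# DI/PmN: hairs and backtracking in the class of the min-cut theorem

`hC : P.Cl`, `hm : K.Min`. `hC.hair hm`: no cell passes the arrow of a vertex with one out-neighbour.
`hC.nhr hm : K.NHr`, `P.nbt hC hm : K.NBt`: no backtracking cell.
-/

namespace Pool.Agent.DI

open MulAction
open Pool.Agent.SAF (InC orbs FinOrb oc)

variable {H V : Type} [Group H] [MulAction H V]

namespace P45

variable {K : GX H V} {P : P45 K}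

/-- EVERY WALK HAS A TOP whose partner has smaller rank -/
theorem Cl.q4N (hC : P.Cl) {a q b y : V} (h : Q4 P a q b y) :
    P.TopR a q y b ∨ P.TopR q b a y ∨ P.TopR b y q a ∨ P.TopR y a b q := by
  obtain ⟨g, i, j, hi, h⟩ := h
  obtain ⟨k, hk⟩ := hC.top i hi
  have t := (P45.tq_TopR hi hk).smul g
  obtain ⟨m, rfl⟩ : ∃ m, k = j + m := ⟨k - j, (add_sub_cancel j k).symm⟩
  have key : ∀ a q b y : V, (a = g • P.qt i j ∧ q = g • P.qt i (j + 1) ∧ b = g • P.qt i (j + 2) ∧
      y = g • P.qt i (j + 3)) →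
      P.TopR a q y b ∨ P.TopR q b a y ∨ P.TopR b y q a ∨ P.TopR y a b q := by
    rintro a q b y ⟨rfl, rfl, rfl, rfl⟩
    have s1 : ∀ j : Fin 4, j + 1 + 1 = j + 2 := by decide
    have s2 : ∀ j : Fin 4, j + 1 + 2 = j + 3 := by decide
    have s3 : ∀ j : Fin 4, j + 1 + 3 = j := by decide
    have s4 : ∀ j : Fin 4, j + 2 + 1 = j + 3 := by decide
    have s5 : ∀ j : Fin 4, j + 2 + 2 = j := by decide
    have s6 : ∀ j : Fin 4, j + 2 + 3 = j + 1 := by decide
    have s7 : ∀ j : Fin 4, j + 3 + 1 = j := by decide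
    have s8 : ∀ j : Fin 4, j + 3 + 2 = j + 1 := by decide
    have s9 : ∀ j : Fin 4, j + 3 + 3 = j + 2 := by decide
    fin_cases m
    · left
      have t : P.TopR (g • P.qt i (j + 0)) (g • P.qt i (j + 0 + 1)) (g • P.qt i (j + 0 + 3))
        (g • P.qt i (j + 0 + 2)) := t
      rwa [add_zero] at t
    · right; left
      have t : P.TopR (g • P.qt i (j + 1)) (g • P.qt i (j + 1 + 1)) (g • P.qt i (j + 1 + 3))
        (g • P.qt i (j + 1 + 2)) := t
      rwa [s1, s2, s3] at t
    · right; right; left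
      have t : P.TopR (g • P.qt i (j + 2)) (g • P.qt i (j + 2 + 1)) (g • P.qt i (j + 2 + 3))
        (g • P.qt i (j + 2 + 2)) := t
      rwa [s4, s5, s6] at t
    · right; right; right
      have t : P.TopR (g • P.qt i (j + 3)) (g • P.qt i (j + 3 + 1)) (g • P.qt i (j + 3 + 3))
        (g • P.qt i (j + 3 + 2)) := t
      rwa [s7, s8, s9] at t
  rcases h with h | ⟨h1, h2, h3, h4⟩
  · exact key _ _ _ _ h
  · rcases key b q a y ⟨h1, h2, h3, h4⟩ with k | k | k | k
    · exact Or.inr (Or.inr (Or.inl k.symm'))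
    · exact Or.inr (Or.inl k.symm')
    · exact Or.inl k.symm'
    · exact Or.inr (Or.inr (Or.inr k.symm'))

/-- the walk of a top with a given side -/
theorem Cl.own_eq (hC : P.Cl) {T a b y n q : V} (h : P.TopR T a b y) (h' : P.TopR T a n q) :
    n = b ∧ q = y := by
  refine ⟨?_, hC.par _ _ _ _ _ _ _ h' h⟩
  rcases out_two h.1.2.1 h.1.2.2 (hC.nab _ _ _ _ h) h'.1.2.2 with e | e
  · exact absurd e.symm (hC.nab _ _ _ _ h')
  · exact e

/-- the next top over a folded vertex -/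
theorem Cl.next (hC : P.Cl) {K2 : GX H V} {φ : V → V} {R : ℕ} (h : HF K K2 φ R) {n t p q : V}
    (hq : Q4 P n t p q) (tp : K.ar t p) (e : φ t = φ p) (hnt : ¬ P.TopR t p n q) :
    (∃ a b y, P.TopR n a b y ∧ (φ a = φ b ∨ K2.E (φ a) (φ b)) ∧ K.rk t < K.rk n) ∨
    ∃ a b y, P.TopR q a b y ∧ (φ a = φ b ∨ K2.E (φ a) (φ b)) ∧ K.rk t < K.rk q := by
  rcases hC.q4N hq with k | k | k | k
  · left
    refine ⟨t, q, p, k, ?_, K.ar_rk _ _ k.1.2.1⟩
    rw [e]
    exact h.edge p q hq.E3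
  · exact absurd k hnt
  · exact absurd k.1.2.2 (GX.ck_asym tp)
  · right
    refine ⟨n, p, t, k, ?_, k.2⟩
    rw [← e]
    exact h.edge n t hq.E1

theorem Cl.hmain (hC : P.Cl) {M : ℕ} (hM : ∀ T a b y, P.Top T a b y → K.rk T ≤ M) (n : ℕ) :
    ∀ (K2 : GX H V) (φ : V → V) (R : ℕ) (t a b y : V), HF K K2 φ R → P.TopR t a b y →
      R ≤ K.rk t → (φ a = φ b ∨ K2.E (φ a) (φ b)) → M - K.rk t = n → False := by
  induction n using Nat.strong_induction_on with
  | _ n ih =>
    intro K2 φ R t a b y h top hR e hn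
    have hφ : φ t = t := by
      by_contra hne
      have := h.lo t hne
      omega
    have hab : a ≠ b := hC.nab _ _ _ _ top
    let D := h.adjD hφ top.1.2.1 top.1.2.2 hab e
    have r1 := K.ar_rk _ _ top.1.2.1
    rcases hC.x1 t a b y top with ⟨n', y', z', hq⟩ | ⟨n', q, hq, hn'⟩
    · obtain ⟨i, h5, hp⟩ := hq.rot.pass
      obtain ⟨i2, h6, h7⟩ := h.pass i t a h5 hp
      rw [hφ] at h7
      exact h.min.adj D h6 h7
    · have h' := h.step D (R' := K.rk t + 1) (by omega) (by omega)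
      have e' : D.fo.f (φ t) = D.fo.f (φ a) := by
        rw [hφ, D.fo_x]
        refine (D.fo_lt ?_).symm
        rw [h.rk]
        have := h.le a
        omega
      rcases hC.next h' hq top.1.2.1 e' (fun k => hn' (hC.own_eq top k)) with
        ⟨a', b', y', k1, k2, k3⟩ | ⟨a', b', y', k1, k2, k3⟩
      · refine ih (M - K.rk n') ?_ _ _ _ n' a' b' y' h' k1 (by omega) k2 rfl
        have := hM _ _ _ _ k1.1
        omega
      · refine ih (M - K.rk q) ?_ _ _ _ q a' b' y' h' k1 (by omega) k2 rfl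
        have := hM _ _ _ _ k1.1
        omega

/-- HAIRS -/
theorem Cl.hair (hC : P.Cl) (hm : K.Min) {x c : V} (hc : K.ar x c)
    (h : ∀ d, K.ar x d → d = c) :
    (∀ n y z, ¬ Qn P n x c y z) ∧ ∀ n q, ¬ Q4 P n x c q := by
  constructor
  · intro n y z hq
    obtain ⟨i, h5, hp⟩ := hq.rot.pass
    exact hm.hair hc h h5 hp
  · intro n q hq
    obtain ⟨M, hM⟩ := hw_bound P
    let D : AdjD K x c :=
      { xy := hc
        out := fun a k => Or.inl (h a k)
        st := by
          intro g e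
          have := K.ar_smul g _ _ hc
          rw [e] at this
          exact h _ this }
    have h' := (HF.refl hm).step D (R' := K.rk x + 1) (by omega) (by omega)
    have e' : D.fo.f (id x) = D.fo.f (id c) := by
      show D.fo.f x = D.fo.f c
      rw [D.fo_x, D.fo_lt (K.ar_rk _ _ hc).ne]
    rcases hC.next h' hq hc e' (fun k => hC.nab _ _ _ _ k (h _ k.1.2.2).symm) with
      ⟨a', b', y', k1, k2, k3⟩ | ⟨a', b', y', k1, k2, k3⟩
    · exact hC.hmain hM _ _ _ _ n a' b' y' h' k1 (by omega) k2 rfl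
    · exact hC.hmain hM _ _ _ _ q a' b' y' h' k1 (by omega) k2 rfl

/-- the walk at a position of a square -/
theorem pn_Q4 {i : K.I} (hi : P.sq i) (j : ℕ) :
    Q4 P (K.vx i j) (K.vx i (j + 1)) (K.vx i (j + 2)) (K.vx i (j + 3)) := by
  have h := Q4_qt (P := P) 1 hi (Fin.ofNat 4 j)
  simp only [one_smul] at h
  rw [P.tvx4 hi, P.tvx4 hi, P.tvx4 hi, P.tvx4 hi]
  have e : ∀ k : ℕ, Fin.ofNat 4 (j + k) = Fin.ofNat 4 j + Fin.ofNat 4 k := by
    intro k
    ext
    simp [Fin.val_add]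
  rw [e 1, e 2, e 3]
  exact h

/-- the walk at a position of a pentagon -/
theorem pn_Qn {i : K.I} (hi : ¬ P.sq i) (j : ℕ) :
    Qn P (K.vx i j) (K.vx i (j + 1)) (K.vx i (j + 2)) (K.vx i (j + 3)) (K.vx i (j + 4)) := by
  have h := Qn_pt (P := P) 1 hi (Fin.ofNat 5 j)
  simp only [one_smul] at h
  rw [P.tvx5 hi, P.tvx5 hi, P.tvx5 hi, P.tvx5 hi, P.tvx5 hi]
  have e : ∀ k : ℕ, Fin.ofNat 5 (j + k) = Fin.ofNat 5 j + Fin.ofNat 5 k := by
    intro k
    ext
    simp [Fin.val_add]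
  rw [e 1, e 2, e 3, e 4]
  exact h

/-- NO CELL PASSES THE ARROW OF A HAIR -/
theorem Cl.nhr (hC : P.Cl) (hm : K.Min) : K.NHr where
  l i j har := by
    by_contra hcon
    push Not at hcon
    obtain ⟨h1, h2⟩ := hC.hair hm har hcon
    by_cases hi : P.sq i
    · have h := (pn_Q4 (P := P) hi j).rot.rot.rot
      exact h2 _ _ h
    · have h := (pn_Qn (P := P) hi j).rot.rot.rot.rot
      exact h1 _ _ _ h
  r i j har := by
    by_contra hcon
    push Not at hcon
    obtain ⟨h1, h2⟩ := hC.hair hm har hcon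
    by_cases hi : P.sq i
    · exact h2 _ _ (pn_Q4 (P := P) hi j).symm
    · exact h1 _ _ _ (pn_Qn (P := P) hi j).symm

/-- NO BACKTRACKING -/
theorem nbt (hC : P.Cl) (hm : K.Min) : K.NBt := by
  intro i j
  by_cases hi : P.sq i
  · have h := pn_Q4 (P := P) hi j
    rcases hC.q4N h with k | k | k | k
    · intro e
      have := k.2
      rw [e] at this
      omega
    · exact (hC.nab _ _ _ _ k).symm
    · intro e
      have := k.2
      rw [e] at this
      omega
    · exact hC.nab _ _ _ _ k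
  · exact hne hm (pn_Qn (P := P) hi j)

end P45

end Pool.Agent.DI
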