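import Pool.Agent.DI.PqG

/-!
# DI/PqH: THE CUT INEQUALITY WITH SQUARES

`Cm.pmc`: in the class `Cm` the weighted sum of the corner values of a cut `D` is `≥ 0`.
-/

namespace Pool.Agent.DI

open MulAction
open Pool.Agent.SAF (InC orbs FinOrb oc FinOrb_iff)
open Pool.Agent.BT (PX)

variable {H V : Type} [Group H] [MulAction H V]

namespace P45

variable {K : GX H V} {P : P45 K}

theorem tt_congr {w w' : V → V → V → ℤ} (h : ∀ x y z, w x y z = w' x y z) : P.tt w = P.tt w' := by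
  have : w = w' := by
    funext x y z
    exact h x y z
  rw [this]

theorem tt_tr (D : CuD K) (g : H) : P.tt (D.tr g).s = P.tt D.s := tt_congr (D.tr_s g)

theorem Tp.ne_sd {i : K.I} {j k k' : Fin 4} (hd : ∀ k, P.qt i k ≠ P.qt i (k + 2))
    (hk : Sd j k k') : P.qt i k ≠ P.qt i k' := by
  rcases hk with ⟨rfl, rfl⟩ | ⟨rfl, rfl⟩
  · have := hd (j + 1)
    rwa [f4d] at this
  · have := hd (j + 3)
    rwa [f4f] at this

/-- elements of the stabiliser of the top -/
theorem Tp.perm {i : K.I} {j k k' : Fin 4} (hd : ∀ k, P.qt i k ≠ P.qt i (k + 2)) (h : P.Tp i j)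
    (hk : Sd j k k') {t : H} (ht : t • P.qt i j = P.qt i j) :
    t • P.qt i k = P.qt i k ∨ t • P.qt i k = P.qt i k' := by
  have a := K.ar_smul t _ _ (h.ark hk)
  rw [ht] at a
  exact h.pol hd hk a

theorem Hu2_III (hC : P.Cm) {i : K.I} {j k k' : Fin 4} (h : P.Tp i j) (hk : Sd j k k')
    (D : CuD K) (hv : D.v = P.qt i (j + 2)) (ha : D.a = P.qt i k') (hm : P.qt i k ∈ D.R) :
    (hC.dd h).Hu2 D := by
  have hd := hC.nd i h.1
  have r1 := K.ar_rk _ _ (D.R_ar _ hm)
  have r2 := K.ar_rk _ _ D.va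
  rw [ha] at r2
  refine ⟨hv.symm, ?_, ?_⟩
  · intro t ht
    change t • P.qt i j = P.qt i j at ht
    rw [ha]
    rcases h.perm hd hk.symm ht with e | e
    · exact e
    · exfalso
      have := congrArg K.rk e
      rw [K.rk_smul] at this
      omega
  · intro g g' a
    change K.ar (g • P.qt i j) (g' • D.v) at a
    have a1 := K.ar_smul g⁻¹ _ _ a
    rw [inv_smul_smul, ← mul_smul] at a1
    have r := K.rk_smul (g⁻¹ * g') D.v
    rcases h.pol hd hk a1 with e | e
    · rw [e] at r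
      omega
    · rw [e] at r
      omega

theorem Hu2_0 (hC : P.Cm) {i : K.I} {j k k' : Fin 4} (h : P.Tp i j) (hk : Sd j k k')
    (D : CuD K) (hv : D.v = P.qt i (j + 2)) (hm : P.qt i k ∈ D.R) (hm' : P.qt i k' ∈ D.R) :
    (hC.dd h).Hu2 D := by
  have hd := hC.nd i h.1
  have r1 := K.ar_rk _ _ (D.R_ar _ hm)
  have r2 := K.ar_rk _ _ (D.R_ar _ hm')
  refine ⟨hv.symm, ?_, ?_⟩
  · intro t ht
    change t • P.qt i j = P.qt i j at ht
    have e : t • D.v = D.v := by
      rw [hv]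
      exact h.2.2.2.2 t ht
    refine D.stab t e _ hm ?_
    rcases h.perm hd hk ht with e | e
    · rw [e]
      exact hm
    · rw [e]
      exact hm'
  · intro g g' a
    change K.ar (g • P.qt i j) (g' • D.v) at a
    have a1 := K.ar_smul g⁻¹ _ _ a
    rw [inv_smul_smul, ← mul_smul] at a1
    have r := K.rk_smul (g⁻¹ * g') D.v
    rcases h.pol hd hk a1 with e | e
    · rw [e] at r
      omega
    · rw [e] at r
      omega

/-- a negative square with a top: type I or type III -/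
theorem Cm.neg_cases (hC : P.Cm) {i : K.I} {j : Fin 4} (h : P.Tp i j) (D : CuD K)
    (hn : P.cc i D.s < 0) : ∃ k k' : Fin 4, Sd j k k' ∧ ∃ g : H,
      ((P.qt i (j + 2) = g • D.v ∧ P.qt i k' = g • D.a ∧ g⁻¹ • P.qt i k ∈ D.R) ∨
      (P.qt i k = g • D.v ∧ P.qt i (j + 2) = g • D.a ∧ g⁻¹ • P.qt i j ∈ D.R ∧
        (D.mv (P.qt i j) (P.qt i k') → P.qt i (j + 2) = D.tg (P.qt i j) (P.qt i k')))) := by
  have sd : Sd j (j + 1) (j + 3) := Or.inl ⟨rfl, rfl⟩
  have r1 := h.rk1
  have r3 := h.rk3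
  have r2 := h.rk2
  -- type III
  have A : ∀ k k' : Fin 4, Sd j k k' → D.mv (P.qt i k) (P.qt i (j + 2)) →
      P.qt i k' = D.tg (P.qt i k) (P.qt i (j + 2)) → ∃ k k' : Fin 4, Sd j k k' ∧ ∃ g : H,
      ((P.qt i (j + 2) = g • D.v ∧ P.qt i k' = g • D.a ∧ g⁻¹ • P.qt i k ∈ D.R) ∨
      (P.qt i k = g • D.v ∧ P.qt i (j + 2) = g • D.a ∧ g⁻¹ • P.qt i j ∈ D.R ∧
        (D.mv (P.qt i j) (P.qt i k') → P.qt i (j + 2) = D.tg (P.qt i j) (P.qt i k')))) := by
    rintro k k' hk ⟨g, g1, g2⟩ e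
    rw [D.tg_mv g1 g2] at e
    exact ⟨k, k', hk, g, Or.inl ⟨g2, e, g1⟩⟩
  -- type I
  have B : ∀ k k' : Fin 4, Sd j k k' → D.s (P.qt i j) (P.qt i k) (P.qt i (j + 2)) < 0 →
      D.s (P.qt i k) (P.qt i (j + 2)) (P.qt i k') = 0 →
      P.cc i D.s = D.s (P.qt i k) (P.qt i j) (P.qt i k') +
      D.s (P.qt i j) (P.qt i k) (P.qt i (j + 2)) + D.s (P.qt i j) (P.qt i k') (P.qt i (j + 2)) +
      D.s (P.qt i k) (P.qt i (j + 2)) (P.qt i k') →
      ∃ k k' : Fin 4, Sd j k k' ∧ ∃ g : H,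
      ((P.qt i (j + 2) = g • D.v ∧ P.qt i k' = g • D.a ∧ g⁻¹ • P.qt i k ∈ D.R) ∨
      (P.qt i k = g • D.v ∧ P.qt i (j + 2) = g • D.a ∧ g⁻¹ • P.qt i j ∈ D.R ∧
        (D.mv (P.qt i j) (P.qt i k') → P.qt i (j + 2) = D.tg (P.qt i j) (P.qt i k')))) := by
    intro k k' hk hs hz hcc
    have c1 : D.s (P.qt i k) (P.qt i j) (P.qt i k') = 0 := D.s_poles (h.ark hk) (h.ark hk.symm)
    rcases D.of_neg hs with ⟨⟨g, g1, g2⟩, -, e⟩ | ⟨⟨g, g1, g2⟩, -, e⟩
    · rw [D.tg_mv g1 g2] at e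
      refine ⟨k, k', hk, g, Or.inr ⟨g2, e, g1, fun m => ?_⟩⟩
      have c2 := D.s_ge (P.qt i j) (P.qt i k) (P.qt i (j + 2))
      have c3 : D.s (P.qt i j) (P.qt i k') (P.qt i (j + 2)) ≤ 0 := by omega
      by_contra hne
      have nm : ¬ D.mv (P.qt i (j + 2)) (P.qt i k') := by
        rintro ⟨g', g1', g2'⟩
        have q1 := K.ar_rk _ _ (D.R_ar _ g1')
        rw [K.rk_smul, e, K.rk_smul] at q1
        have q2 := K.ar_rk _ _ D.va
        omega
      have := D.s_one m nm hne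
      omega
    · exfalso
      rw [D.tg_mv g1 g2] at e
      have q1 := K.ar_rk _ _ D.va
      have q2 := K.ar_rk _ _ (D.R_ar _ g1)
      have q3 := congrArg K.rk e
      have q4 := congrArg K.rk g2
      rw [K.rk_smul] at q2 q3 q4
      have q5 := K.ar_rk _ _ (h.ark hk)
      omega
  have c0 := P.cc_sd D.s_symm h.1 sd
  have c0' := P.cc_sd D.s_symm h.1 sd.symm
  have c1 : D.s (P.qt i (j + 1)) (P.qt i j) (P.qt i (j + 3)) = 0 :=
    D.s_poles (h.ark sd) (h.ark sd.symm)
  by_cases k4 : D.s (P.qt i (j + 1)) (P.qt i (j + 2)) (P.qt i (j + 3)) < 0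
  · rcases D.of_neg k4 with ⟨m, -, e⟩ | ⟨m, -, e⟩
    · exact A _ _ sd m e
    · exact A _ _ sd.symm m e
  · by_cases k2 : D.s (P.qt i j) (P.qt i (j + 1)) (P.qt i (j + 2)) < 0
    · refine B _ _ sd k2 ?_ c0
      refine D.s_far (fun g e => ?_)
      rcases D.of_neg k2 with ⟨⟨g', g1, g2⟩, -, e'⟩ | ⟨⟨g', g1, g2⟩, -, e'⟩
      · rw [D.tg_mv g1 g2] at e'
        have q1 := K.ar_rk _ _ D.va
        have q2 := congrArg K.rk e
        have q3 := congrArg K.rk e'
        rw [K.rk_smul] at q2 q3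
        omega
      · rw [D.tg_mv g1 g2] at e'
        have q1 := K.ar_rk _ _ D.va
        have q2 := congrArg K.rk g2
        have q3 := congrArg K.rk e'
        rw [K.rk_smul] at q2 q3
        omega
    · have k3 : D.s (P.qt i j) (P.qt i (j + 3)) (P.qt i (j + 2)) < 0 := by omega
      refine B _ _ sd.symm k3 ?_ c0'
      refine D.s_far (fun g e => ?_)
      rcases D.of_neg k3 with ⟨⟨g', g1, g2⟩, -, e'⟩ | ⟨⟨g', g1, g2⟩, -, e'⟩
      · rw [D.tg_mv g1 g2] at e'
        have q1 := K.ar_rk _ _ D.va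
        have q2 := congrArg K.rk e
        have q3 := congrArg K.rk e'
        rw [K.rk_smul] at q2 q3
        omega
      · rw [D.tg_mv g1 g2] at e'
        have q1 := K.ar_rk _ _ D.va
        have q2 := congrArg K.rk g2
        have q3 := congrArg K.rk e'
        rw [K.rk_smul] at q2 q3
        omega

theorem pmc_aux : ∀ (n : ℕ) {V : Type} [MulAction H V] {K : GX H V} {P : P45 K}, P.Cm →
    Nat.card K.I = n → ∀ D : CuD K, 0 ≤ P.tt D.s := by
  intro n
  induction n using Nat.strong_induction_on with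
  | _ n ih =>
    intro V _ K P hC hn D
    -- the fold of a top
    have fo : ∀ {i : K.I} {j : Fin 4} (h : P.Tp i j) (D1 : CuD (hC.dd h).toF.gx),
        0 ≤ ((hC.dd h).flat.P45 P).tt D1.s := fun {i j} h D1 =>
      ih _ (hn ▸ card_lt (h.Bt _)) (hC.fold h) rfl D1
    by_cases a1 : ∃ i j, P.Tp i j ∧ P.cc i D.s < 0
    · obtain ⟨i, j, h, hneg⟩ := a1
      obtain ⟨k, k', hk, g, ⟨e1, e2, e3⟩ | ⟨e1, e2, e3, e4⟩⟩ := hC.neg_cases h D hneg
      · rw [← tt_tr D g]
        have e3' : P.qt i k ∈ (D.tr g).R := e3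
        have hu := Hu2_III hC h hk (D.tr g) e1.symm e2.symm e3'
        have h1 := hC.stepIII h hk (D.tr g) hu e1.symm e2.symm e3'
        have h2 := fo h hu.cu
        have h3 := (hC.W_two h hk.symm.fst).2
        linarith
      · rw [← tt_tr D g]
        have r1 := K.ar_rk _ _ (h.ark hk)
        have hh : (hC.dd h).Hub (D.tr g) := by
          refine Sq1.Hub.of_rk _ _ ?_
          show K.rk (g • D.v) < K.rk (P.qt i j)
          rw [← e1]
          exact r1
        have h1 := hC.stepI h hk (D.tr g) hh e1.symm e2.symm e3 (by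
          intro t t1 t2
          change t • P.qt i k' = g • D.v at t1
          rw [D.tr_mv] at t2
          change t • (g • D.a) = _
          rw [D.tr_tg]
          change D.mv (t • P.qt i j) (g • D.v) at t2
          change _ = D.tg (t • P.qt i j) (g • D.v)
          rw [← t1, D.mv_smul_iff] at t2
          rw [← t1, D.tg_smul, ← e4 t2, e2])
        have h2 := fo h ((hC.dd h).cu (D.tr g) hh)
        have h3 := (hC.W_two h hk.fst).1
        linarith
    · push Not at a1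
      by_cases a2 : ∀ i j k k', P.Tp i j → Sd j k k' → ∀ g : H, g • P.qt i k = D.v →
          g • P.qt i j ∈ D.R → g • P.qt i (j + 2) ∈ D.R → ∃ h : H, h • P.qt i k' = D.v
      · by_cases a3 : ∀ i j k k', P.Tp i j → Sd j k k' → ∀ g : H, g • P.qt i (j + 2) = D.v →
            ¬ (g • P.qt i k ∈ D.R ∧ g • P.qt i k' ∈ D.R)
        · exact hC.base ⟨a1, a2, a3⟩
        · push Not at a3
          obtain ⟨i, j, k, k', h, hk, g, g1, g2, g3⟩ := a3
          rw [← tt_tr D g⁻¹]
          have e1 : (D.tr g⁻¹).v = P.qt i (j + 2) := by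
            show g⁻¹ • D.v = _
            rw [← g1, inv_smul_smul]
          have e2 : P.qt i k ∈ (D.tr g⁻¹).R := by
            show g⁻¹⁻¹ • P.qt i k ∈ D.R
            rw [inv_inv]
            exact g2
          have e3 : P.qt i k' ∈ (D.tr g⁻¹).R := by
            show g⁻¹⁻¹ • P.qt i k' ∈ D.R
            rw [inv_inv]
            exact g3
          have hu := Hu2_0 hC h hk (D.tr g⁻¹) e1 e2 e3
          have h1 := hC.step0' h hk (D.tr g⁻¹) hu e1 e2 e3
          have h2 := fo h hu.cu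
          linarith
      · push Not at a2
        obtain ⟨i, j, k, k', h, hk, g, g1, g2, g3, g4⟩ := a2
        rw [← tt_tr D g⁻¹]
        have e1 : (D.tr g⁻¹).v = P.qt i k := by
          show g⁻¹ • D.v = _
          rw [← g1, inv_smul_smul]
        have e2 : P.qt i j ∈ (D.tr g⁻¹).R := by
          show g⁻¹⁻¹ • P.qt i j ∈ D.R
          rw [inv_inv]
          exact g2
        have e3 : P.qt i (j + 2) ∈ (D.tr g⁻¹).R := by
          show g⁻¹⁻¹ • P.qt i (j + 2) ∈ D.R
          rw [inv_inv]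
          exact g3
        have r1 := K.ar_rk _ _ (h.ark hk)
        have hh : (hC.dd h).Hub (D.tr g⁻¹) := by
          refine Sq1.Hub.of_rk _ _ ?_
          rw [e1]
          exact r1
        have h1 := hC.step0 h hk (D.tr g⁻¹) hh e1 e2 e3 (by
          intro t t1
          change t • P.qt i k' = g⁻¹ • D.v at t1
          refine g4 (g * t) ?_
          rw [mul_smul, t1, smul_inv_smul])
        have h2 := fo h ((hC.dd h).cu (D.tr g⁻¹) hh)
        linarith

/-- THE CUT INEQUALITY WITH SQUARES -/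
theorem Cm.pmc (hC : P.Cm) (D : CuD K) : 0 ≤ P.tt D.s := pmc_aux _ hC rfl D

end P45

end Pool.Agent.DI
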