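import Pool.Agent.DI.PmI
import Pool.Agent.DI.PmN
import Pool.Agent.DI.PqH

/-!
# DI/PmZ: PMC for the class `P.Cl`

`Cl.toCm`: the class `P.Cl` (DI/PmD) is contained in helper41's class `P.Cm` (DI/PqA). `Cl.pmcZ`: PMC for
`P.Cl`. `Cl.cor1Z`: both poles of a vertex have the same number of strands.
-/

namespace Pool.Agent.DI

open MulAction
open Pool.Agent.SAF (InC orbs FinOrb oc)

variable {H V : Type} [Group H] [MulAction H V]

namespace P45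

variable {K : GX H V} {P : P45 K}

theorem Cl.Tp_iff (hC : P.Cl) {i : K.I} {j : Fin 4} : P.Tp i j ↔ P.sq i ∧ P.tq i j := by
  constructor
  · rintro ⟨hi, h1, h2, h3, -⟩
    exact ⟨hi, ⟨h1, h2⟩, h3⟩
  · rintro ⟨hi, h1, h3⟩
    exact ⟨hi, h1.1, h1.2, h3, fun h e => hC.fix (tq_TopR hi ⟨h1, h3⟩) e⟩

theorem Cl.not_Nt (hC : P.Cl) {i : K.I} {j : Fin 4} : ¬ P.Nv i j := by
  rintro ⟨hi, ⟨g, hg⟩, h1, h2, h3, h4⟩
  obtain ⟨k, hk⟩ := hC.top i hi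
  have hr : K.rk (P.qt i (j + 2)) = K.rk (P.qt i j) := by rw [hg, K.rk_smul]
  have r1 := K.ar_rk _ _ h1
  have r2 := K.ar_rk _ _ h2
  obtain ⟨m, rfl⟩ : ∃ m, k = j + m := ⟨k - j, (add_sub_cancel j k).symm⟩
  have s1 : ∀ j : Fin 4, j + 1 + 3 = j := by decide
  have s2 : ∀ j : Fin 4, j + 2 + 2 = j := by decide
  have s3 : ∀ j : Fin 4, j + 3 + 1 = j := by decide
  fin_cases m
  · have := hk.2
    have e0 : K.rk (P.qt i (j + 0 + 2)) < K.rk (P.qt i (j + 0)) := this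
    rw [add_zero] at e0
    omega
  · have e0 : K.ar (P.qt i (j + 1)) (P.qt i (j + 1 + 3)) := hk.1.2
    rw [s1] at e0
    have := K.ar_rk _ _ e0
    omega
  · have e0 : K.rk (P.qt i (j + 2 + 2)) < K.rk (P.qt i (j + 2)) := hk.2
    rw [s2] at e0
    omega
  · have e0 : K.ar (P.qt i (j + 3)) (P.qt i (j + 3 + 1)) := hk.1.1
    rw [s3] at e0
    have := K.ar_rk _ _ e0
    omega

/-- the cell passes the edge -/
theorem Cl.eg_x1 (hC : P.Cl) {i : K.I} {j : Fin 4} (hi : P.sq i) (hj : P.tq i j) {a b y : V}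
    (ht : P.TopR (P.qt i j) a b y) : ∃ i', i' ≠ i ∧ ¬ P.Nt i' ∧ P.eg i' (P.qt i j) a := by
  have nN : ∀ i', ¬ P.Nt i' := fun i' ⟨_, h⟩ => hC.not_Nt h
  rcases hC.x1 _ _ _ _ ht with ⟨n, q, z, h, i', j', hi', hq⟩ | ⟨n, q, ⟨h, i', j', hi', hq⟩, hne⟩
  · refine ⟨i', fun e => hi' (by rw [e]; exact hi), nN i', Or.inr ⟨hi', h, ?_⟩⟩
    rcases hq with ⟨-, e1, e2, -⟩ | ⟨e2', e1, -, -, -⟩
    · refine ⟨j' + 1, Or.inl ⟨e1, ?_⟩⟩
      rw [e2, add_assoc]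
      rfl
    · exact ⟨j', Or.inr ⟨e2', e1⟩⟩
  · have hQ : Q4 P n (P.qt i j) a q := ⟨h, i', j', hi', hq⟩
    refine ⟨i', ?_, nN i', Or.inl ⟨hi', h, ?_⟩⟩
    · rintro rfl
      have e1 : P.qt i' j = h • P.qt i' (j' + 1) := by rcases hq with hq | hq <;> exact hq.2.1
      have e2 : j' + 1 = j := tq_rk hi hj (by rw [e1, K.rk_smul])
      have t := (tq_TopR hi hj).smul h
      rw [← e2] at t
      have s1 : ∀ j : Fin 4, j + 1 + 1 = j + 2 := by decide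
      have s2 : ∀ j : Fin 4, j + 1 + 2 = j + 3 := by decide
      have s3 : ∀ j : Fin 4, j + 1 + 3 = j := by decide
      rw [s1, s2, s3, ← e1] at t
      have ht' : P.TopR (P.qt i' j) a n q := by
        rcases hq with ⟨q1, q2, q3, q4⟩ | ⟨q1, q2, q3, q4⟩
        · rw [← q1, ← q3, ← q4] at t
          exact t
        · rw [← q1, ← q3, ← q4] at t
          exact t.symm'
      exact hne (hC.own_eq ht ht')
    · rcases hq with ⟨-, e1, e2, -⟩ | ⟨e2', e1, -, -⟩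
      · refine ⟨j' + 1, Or.inl ⟨e1, ?_⟩⟩
        rw [e2, add_assoc]
        rfl
      · exact ⟨j', Or.inr ⟨e2', e1⟩⟩

/-- THE CLASS `P.Cl` IS CONTAINED IN `P.Cm` -/
theorem Cl.toCm (hC : P.Cl) (hm : K.Min) : P.Cm where
  min := hm
  nd i hi j := hC.ndj hi j
  tn i hi := Or.inr (by
    obtain ⟨j, hj⟩ := hC.top i hi
    exact ⟨j, hC.Tp_iff.2 ⟨hi, hj⟩⟩)
  one i i' j j' h h' g e := hC.one i i' (hC.Tp_iff.1 h).1 (hC.Tp_iff.1 h').1 j j' (hC.Tp_iff.1 h).2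
    (hC.Tp_iff.1 h').2 g e
  nv i i' j j' h := absurd h hC.not_Nt
  X i j h k hk := by
    obtain ⟨hi, hj⟩ := hC.Tp_iff.1 h
    rcases hk with rfl | rfl
    · exact hC.eg_x1 hi hj (tq_TopR hi hj)
    · exact hC.eg_x1 hi hj (tq_TopR hi hj).symm'

theorem Cl.wm_eq (hC : P.Cl) (i : K.I) : P.wm i = P.wq i := by
  have h : P.Fm i ↔ P.flq i := by
    constructor
    · rintro ⟨j, h1, g, g1, g2⟩
      exact ⟨(hC.Tp_iff.1 h1).1, g, j, (hC.Tp_iff.1 h1).2, g1, g2⟩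
    · rintro ⟨hi, g, j, hj, g1, g2⟩
      exact ⟨j, hC.Tp_iff.2 ⟨hi, hj⟩, g, g1, g2⟩
  unfold wm wq
  by_cases hf : P.Fm i
  · rw [if_pos hf, if_pos (h.1 hf)]
  · rw [if_neg hf, if_neg (fun k => hf (h.2 k))]

theorem cc_ccs (i : K.I) (w : V → V → V → ℤ) : P.cc i w = K.ccs i w := by
  by_cases hi : P.sq i
  · rw [P.cc_sq hi, P.ccs4 hi]
  · rw [P.ccs5 hi]
    exact if_neg hi

/-- PMC -/
theorem Cl.pmcZ (hC : P.Cl) (hm : K.Min) : P.PMC := by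
  intro D
  have h := (hC.toCm hm).pmc D
  have e : P.tt D.s = K.wcs P.wq D.sv := by
    unfold tt GX.wcs
    refine Finset.sum_congr rfl fun i _ => ?_
    rw [hC.wm_eq, cc_ccs]
    rfl
  rwa [e] at h

/-- COR 1 -/
theorem Cl.cor1Z (hC : P.Cl) (hm : K.Min) {s a b : V} (ha : K.ar s a) (hb : K.ar s b) :
    P.XW s a = P.XW s b :=
  hC.cor1 hm ha hb fun D _ => hC.pmcZ hm D

end P45

end Pool.Agent.DI
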