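import Pool.Agent.DI.SfX4
import Pool.Agent.DI.PmX
import Pool.Agent.DI.PmZ
import Pool.Agent.DI.SfS

/-!
# DI/SfXs: Cor 1 for states and sigma of the static fold of a thin top

`P45.cor1X`: in a minimal complex of the class a top has the same number of strands at both poles.
`St.sf_s`: the field `s` of `SfIn`.
-/

namespace Pool.Agent.DI

open MulAction
open Pool.Agent.SAF (InC orbs FinOrb oc)

variable {H V : Type} [Group H] [MulAction H V] {K : GX H V} {P : P45 K}

/-- COR 1: a top has the same number of strands at both poles -/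
theorem P45.cor1X (hc : P.Cls) (hm : K.Min) {T a b y : V} (h : P.Top T a b y) :
    P.X T a = P.X T b := by
  have hs : P.SqT := hc.toSqE
  have hC : P.Cl := hs.cl (fun T a b y k => hc.x1 (T, a) ⟨b, y, k⟩)
  have e := hC.cor1Z hm h.2.1 h.2.2
  rw [hs.XW_eq h, hs.XW_eq h.symm'] at e
  have e' : (P.X T a : ℤ) = P.X T b := by linarith
  exact_mod_cast e'

/-- SIGMA DOES NOT DROP UNDER THE STATIC FOLD OF A THIN TOP -/
theorem P45.SfD.sigma_le' (F : P.SfD) (hc : P.Cls) (hm : K.Min) :
    P.sigma ≤ (F.P' hc.toSqE).sigma :=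
  F.sigma_le hc hm fun _ _ _ _ k _ => (P45.cor1X hc hm k).le

/-- the field `s` of `SfIn` -/
theorem St.sf_s (C : St) (F : C.P.SfD) : C.P.sigma ≤ (F.P' C.cls.toSqE).sigma :=
  F.sigma_le' C.cls C.Min

end Pool.Agent.DI
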