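import Pool.Agent.DI.SfS
import Pool.Agent.DI.SfXs
import Pool.Agent.DI.SfPs
import Pool.Agent.DI.SfNs
import Pool.Agent.DI.SfPi
import Pool.Agent.DI.SfE2

/-!
# DI/SfZ: the static fold of a thin top

`St.sf_in`: all inputs of the static fold (helper86: sigma, helper79: `exc`, helper16: `nN`, helper64: `P_4`,
`P_5`, helper52: `phi`). `St.sf_step`: a state with a foldable top has a smaller state.
-/

namespace Pool.Agent.DI

open MulAction

namespace St

variable {C : St}

/-- the inputs of the static fold -/
theorem sfIn (F : C.P.SfD) : C.SfIn F where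
  s := C.sf_s F
  e := C.sf_e F
  n := fun nd _ => C.sf_n F nd
  p4 := C.sf_p4 F
  p5 := C.sf_p5 F
  ph := F.phA_le C.cls C.Min C.lc

/-- THE FIRST ALTERNATIVE OF A STEP -/
theorem sf_step (h : ¬ C.P.red (fun _ => False)) : ∃ N : St, N.Lt C := sf_start sfIn h

end St

end Pool.Agent.DI
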