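import Pool.Agent.DI.PmK
import Pool.Agent.DI.K1

/-!
# DI/PmK2: the static minimal cut in the step complex of a state

`OpW.FX_up`: the numbers `F ∘ π` of the opened complex satisfy `P45.FX`. `St.K1.F`: the strands of the state,
`St.K1.FX`, `St.K1.pmF`: the input of `Psv.law_x1` and of `SgO.nstF` for the step complex from the static
minimal cut of the state.
-/

namespace Pool.Agent.DI

open MulAction
open Pool.Agent.SAF (InC orbs FinOrb oc mk_eq_iff FinOrb_iff)

namespace OpW

variable {H V W : Type} [Group H] [MulAction H V] [MulAction H W] {K : GX H V} {O : OpW K W}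
  {P : P45 K}

/-- THE CONDITIONS ON THE NUMBERS OF THE TOPS GO UP -/
theorem FX_up (hv : O.NT P) (hj : ∀ j, O.js j ≠ O.jt j) {F : V → V → ℕ} (hF : P.FX F) :
    (O.p45 P).FX (fun T a => F (O.π T) (O.π a)) where
  inv g T a := by
    show F (O.π (g • T)) (O.π (g • a)) = _
    rw [O.π_smul, O.π_smul]
    exact hF.inv g _ _
  one p hp := by
    refine hF.one (O.π p.1, O.π p.2) ?_
    rcases hp with h | h
    · rw [O.U_upA P hv] at h
      exact Or.inl h.2
    · rw [O.Dm_upA P hv] at h
      exact Or.inr h.2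
  gam T a b y h hu := by
    rw [O.U_upA P hv] at hu
    have hu2 : (O.π T, O.π a) ∈ P.U := hu.2
    rcases O.Top_π P h with k | k
    · exact hF.gam _ _ _ _ k hu2
    · obtain ⟨b', y', k', -⟩ := hu2
      exact absurd (NSq.dbl hj k).1 (hv.top k')

end OpW

namespace St.K1

variable {C : St} (k : C.K1)

/-- the strands of the state -/
noncomputable def F (T a : k.W) : ℕ := C.P.X (k.O.π T) (k.O.π a)

/-- the conditions on the strands of the state in the step complex -/
theorem FX (hX : C.P.FX C.P.X) : k.P.FX k.F := OpW.FX_up k.ok.nt k.ok.ne hX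

/-- THE MINIMAL CUT IN THE STEP COMPLEX -/
theorem pmF (hp : ∀ n x Y, C.P.PmS n x Y → C.P.PmP n x Y) :
    ∀ n x Y, k.P.PmS n x Y → (∀ y ∈ Y, ¬ k.E y) → k.P.PmF k.F n x Y := fun _ _ _ h hd =>
  OpW.pmG_up h hd k.ok.nt (fun g T a => C.P.X_smul g T a) (hp _ _ _ (OpW.pmS_dn h hd))

end St.K1

end Pool.Agent.DI
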