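import Pool.Agent.DI.TowX
import Pool.Agent.DI.PmK2
import Pool.Agent.DI.NP

/-!
# DI/NdS: no top over a top and its partner

`Cl.nd0`: in the class of the min-cut theorem, `SqT.nd`: in a state with strands at the tops, there is no top
whose sides are a top and its partner. `OpW.nd_up`: the opened complex. `St.ndT`, `St.K1.ndT`: the field `nd` of
`P.Stc`.
-/

namespace Pool.Agent.DI

open MulAction

variable {H V : Type} [Group H] [MulAction H V]

namespace P45

variable {K : GX H V} {P : P45 K}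

/-- NO TOP OVER A TOP AND ITS PARTNER -/
theorem Cl.nd0 (hC : P.Cl) (hm : K.Min) {T a b y T' z : V} (h : P.TopR T a b y)
    (h' : P.TopR T' T y z) : False := by
  have hr := K.ar_rk _ _ h'.1.2.1
  refine hC.sides1 hm (D1 := hC.s1 h) h h' ?_ ?_
  · intro g e
    have := congrArg K.rk e
    rw [K.rk_smul] at this
    have e2 : (hC.s1 h).T = T := rfl
    rw [e2] at this
    omega
  · have := ToF.F_T (D1 := hC.s1 h) (1 : H)
    rw [one_smul, one_smul] at this
    exact this

/-- in a state -/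
theorem SqT.nd (hs : P.SqT) (h1 : ∀ T a b y, P.Top T a b y → 1 ≤ P.X T a) (hm : K.Min)
    (T a b y T' z : V) (h : P.Top T a b y) : ¬ P.Top T' T y z := fun h' =>
  (SqT.cl hs h1).nd0 hm (SqE.TopR hs h (fun k => k)) (SqE.TopR hs h' (fun k => k))

end P45

/-- in the opened complex -/
theorem OpW.nd_up {W : Type} [MulAction H W] {K : GX H V} (O : OpW K W) (P : P45 K)
    (hj : ∀ j, O.js j ≠ O.jt j)
    (hn : ∀ T a b y T' z : V, P.Top T a b y → ¬ P.Top T' T y z) (T a b y T' z : W)
    (h : (O.p45 P).Top T a b y) (hT : ¬ O.Dbl T) (hT' : ¬ O.Dbl T') :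
    ¬ (O.p45 P).Top T' T y z := by
  intro h'
  rcases O.Top_π P h with k | k
  · rcases O.Top_π P h' with k' | k'
    · exact hn _ _ _ _ _ _ k k'
    · exact hT' (NSq.dbl hj k').1
  · exact hT (NSq.dbl hj k).1

/-- a state -/
theorem St.ndT (C : St) (T a b y T' z : C.V) (h : C.P.Top T a b y) : ¬ C.P.Top T' T y z :=
  P45.SqT.nd C.cls.toSqE (fun T a b y k => C.cls.x1 (T, a) ⟨b, y, k⟩) C.Min T a b y T' z h

/-- THE STEP COMPLEX -/
theorem St.K1.ndT {C : St} (k : C.K1) (T a b y T' z : k.W) (h : k.P.Top T a b y) (hT : ¬ k.E T)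
    (hT' : ¬ k.E T') : ¬ k.P.Top T' T y z :=
  k.O.nd_up C.P k.ok.ne C.ndT T a b y T' z h hT hT'

end Pool.Agent.DI
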