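import Pool.Agent.DI.PmS
import Pool.Agent.DI.PmN

/-!
# DI/PmO: the min-cut sum under the fold of a top into a neighbour of the hub

`D : CuD K`, `D1 : Sq1 K`, `T = D1.T ∈ D.R` with the partner `y = D1.y`. Good legs `D.gl D1 p q`: the leg
`p` at `q` is a translate of `T` which is moved, its partner is the target. Bad legs `D.bl D1 p q`: the
partner is not the target.
-/

namespace Pool.Agent.DI

open MulAction
open Pool.Agent.SAF (InC orbs FinOrb oc)

variable {H V : Type} [Group H] [MulAction H V]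

namespace CuD

variable {K : GX H V} (D : CuD K)

open Classical in
/-- the corner value as a table -/
theorem sv_val (x y z : V) : D.sv x y z =
    if D.mv x y then (if D.mv z y then (if D.τ x y = D.τ z y then 0 else 2)
      else (if z = D.τ x y then -1 else 1))
    else (if D.mv z y then (if x = D.τ z y then -1 else 1) else 0) := by
  by_cases h1 : D.mv x y
  · rw [if_pos h1]
    by_cases h2 : D.mv z y
    · rw [if_pos h2]
      by_cases h3 : D.τ x y = D.τ z y
      · rw [if_pos h3, D.sv_mm h1 h2 h3]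
      · rw [if_neg h3, D.sv_two h1 h2 h3]
    · rw [if_neg h2]
      by_cases h3 : z = D.τ x y
      · rw [if_pos h3, D.sv_τ h1 h3]
      · rw [if_neg h3, D.sv_one h1 h2 h3]
  · rw [if_neg h1]
    by_cases h2 : D.mv z y
    · rw [if_pos h2, D.sv_symm]
      by_cases h3 : x = D.τ z y
      · rw [if_pos h3, D.sv_τ h2 h3]
      · rw [if_neg h3, D.sv_one h2 h1 h3]
    · rw [if_neg h2, D.sv_not h1 h2]

/-- a moved leg has the rank of the hub -/
theorem mv_rk {x y : V} (h : D.mv x y) : K.rk y = K.rk D.v := D.rk1 _ _ h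

theorem τ_rk {x y : V} (h : D.mv x y) : K.rk (D.τ x y) = K.rk D.a := D.rk2 _ _ h

variable (D1 : Sq1 K)

/-- good legs -/
def gL (p q : V) : Prop := D1.toF.O p ∧ D.mv p q ∧ D1.toF.f p = D.τ p q

/-- bad legs -/
def bL (p q : V) : Prop := D1.toF.O p ∧ D.mv p q ∧ D1.toF.f p ≠ D.τ p q

open Classical in
/-- the number of good legs minus the number of bad legs -/
noncomputable def gb (p q : V) : ℤ := (if D.gL D1 p q then 1 else 0) - (if D.bL D1 p q then 1 else 0)

variable {D D1}

theorem gb_g {p q : V} (h : D.gL D1 p q) : D.gb D1 p q = 1 := by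
  unfold gb
  rw [if_pos h, if_neg (fun k => k.2.2 h.2.2), sub_zero]

theorem gb_b {p q : V} (h : D.bL D1 p q) : D.gb D1 p q = -1 := by
  unfold gb
  rw [if_pos h, if_neg (fun k => h.2.2 k.2.2), zero_sub]

theorem gb_O {p q : V} (h : ¬ D1.toF.O p) : D.gb D1 p q = 0 := by
  unfold gb
  rw [if_neg (fun k => h k.1), if_neg (fun k => h k.1), sub_zero]

theorem gb_m {p q : V} (h : ¬ D.mv p q) : D.gb D1 p q = 0 := by
  unfold gb
  rw [if_neg (fun k => h k.2.1), if_neg (fun k => h k.2.1), sub_zero]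

section

variable (hr : K.rk D.v < K.rk D1.T) (hy : D1.y = D.a)

include hr hy

omit hr in
theorem fO_rk {p : V} (h : D1.toF.O p) : K.rk (D1.toF.f p) = K.rk D.a := by
  obtain ⟨l, rfl⟩ := h
  rw [D1.f_T, K.rk_smul, hy]

theorem fO_mv {p q : V} (h : D1.toF.O p) : ¬ D.mv (D1.toF.f p) q := by
  intro k
  have h1 := K.ar_rk _ _ (D.mv_ar k)
  rw [D.mv_rk k, fO_rk hy h] at h1
  have := D.ra
  omega

omit hy in
theorem τ_nO {p q z : V} (h : D.mv p q) (hz : D1.toF.O z) : z ≠ D.τ p q := by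
  intro e
  obtain ⟨l, rfl⟩ := hz
  have h1 := D.τ_rk h
  rw [← e, K.rk_smul] at h1
  have := D.ra
  omega

/-- THE CORNER INEQUALITY -/
theorem sv_le {x y z : V} (hne : D1.toF.f x ≠ D1.toF.f z) :
    D.sv (D1.toF.f x) (D1.toF.f y) (D1.toF.f z) ≤ D.sv x y z - (D.gb D1 x y + D.gb D1 z y) := by
  by_cases hO : D1.toF.O y
  · have r0 := D.ra
    have e0 : K.rk y ≠ K.rk D.v := by
      obtain ⟨l, rfl⟩ := hO
      rw [K.rk_smul]
      omega
    have n1 : ∀ p, ¬ D.mv p y := fun p h => e0 (D.mv_rk h)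
    have n2 : ∀ p, ¬ D.mv p (D1.toF.f y) := by
      intro p h
      have h1 := D.mv_rk h
      rw [fO_rk hy hO] at h1
      omega
    rw [D.sv_not (n2 _) (n2 _), D.sv_not (n1 _) (n1 _), gb_m (n1 _), gb_m (n1 _)]
    norm_num
  rw [D1.toF.f_not hO]
  -- a leg which is in the orbit is not moved after the fold
  have key : ∀ {x z : V}, D1.toF.f x ≠ D1.toF.f z → D.mv (D1.toF.f x) y →
      ¬ D.mv (D1.toF.f z) y →
      D.sv (D1.toF.f x) y (D1.toF.f z) ≤ D.sv x y z - (D.gb D1 x y + D.gb D1 z y) := by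
    intro x z hne h1 h2
    have ox : ¬ D1.toF.O x := fun k => fO_mv hr hy k h1
    rw [D1.toF.f_not ox] at h1 hne ⊢
    rw [gb_O ox]
    by_cases oz : D1.toF.O z
    · by_cases mz : D.mv z y
      · by_cases tz : D1.toF.f z = D.τ z y
        · rw [gb_g ⟨oz, mz, tz⟩, tz]
          by_cases e : D.τ x y = D.τ z y
          · rw [D.sv_τ h1 e.symm, D.sv_mm h1 mz e]
            norm_num
          · rw [D.sv_two h1 mz e, D.sv_one h1 (by rw [← tz]; exact h2) (fun k => e k.symm)]
            norm_num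
        · rw [gb_b ⟨oz, mz, tz⟩]
          by_cases e : D.τ x y = D.τ z y
          · rw [D.sv_mm h1 mz e, D.sv_one h1 h2 (by rw [e]; exact tz)]
            norm_num
          · rw [D.sv_two h1 mz e, D.sv_val, if_pos h1, if_neg h2]
            split_ifs <;> norm_num
      · rw [gb_m mz, D.sv_one h1 mz (τ_nO hr h1 oz), D.sv_val, if_pos h1, if_neg h2]
        split_ifs <;> norm_num
    · rw [gb_O oz, D1.toF.f_not oz]
      norm_num
  by_cases h1 : D.mv (D1.toF.f x) y
  · by_cases h2 : D.mv (D1.toF.f z) y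
    · have ox : ¬ D1.toF.O x := fun k => fO_mv hr hy k h1
      have oz : ¬ D1.toF.O z := fun k => fO_mv hr hy k h2
      rw [D1.toF.f_not ox, D1.toF.f_not oz, gb_O ox, gb_O oz]
      norm_num
    · exact key hne h1 h2
  · by_cases h2 : D.mv (D1.toF.f z) y
    · rw [D.sv_symm, D.sv_symm x, add_comm]
      exact key hne.symm h2 h1
    · rw [D.sv_not h1 h2]
      by_cases ox : D1.toF.O x
      · by_cases mx : D.mv x y
        · by_cases oz : D1.toF.O z
          · by_cases mz : D.mv z y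
            · by_cases tx : D1.toF.f x = D.τ x y <;> by_cases tz : D1.toF.f z = D.τ z y
              · rw [gb_g ⟨ox, mx, tx⟩, gb_g ⟨oz, mz, tz⟩,
                  D.sv_two mx mz (by rw [← tx, ← tz]; exact hne)]
                norm_num
              · rw [gb_g ⟨ox, mx, tx⟩, gb_b ⟨oz, mz, tz⟩, D.sv_val, if_pos mx, if_pos mz]
                split_ifs <;> norm_num
              · rw [gb_b ⟨ox, mx, tx⟩, gb_g ⟨oz, mz, tz⟩, D.sv_val, if_pos mx, if_pos mz]
                split_ifs <;> norm_num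
              · rw [gb_b ⟨ox, mx, tx⟩, gb_b ⟨oz, mz, tz⟩, D.sv_val, if_pos mx, if_pos mz]
                split_ifs <;> norm_num
            · rw [gb_m mz, D.sv_one mx mz (τ_nO hr mx oz)]
              unfold gb
              split_ifs <;> norm_num
          · rw [gb_O oz]
            have mz : ¬ D.mv z y := by rwa [D1.toF.f_not oz] at h2
            rw [D1.toF.f_not oz] at hne
            by_cases tx : D1.toF.f x = D.τ x y
            · rw [gb_g ⟨ox, mx, tx⟩, D.sv_one mx mz (by rw [← tx]; exact hne.symm)]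
              norm_num
            · rw [gb_b ⟨ox, mx, tx⟩, D.sv_val, if_pos mx, if_neg mz]
              split_ifs <;> norm_num
        · rw [gb_m mx]
          by_cases mz : D.mv z y
          · have oz : D1.toF.O z := by
              by_contra oz
              rw [D1.toF.f_not oz] at h2
              exact h2 mz
            rw [D.sv_symm, D.sv_one mz mx (τ_nO hr mz ox)]
            unfold gb
            split_ifs <;> norm_num
          · rw [gb_m mz, D.sv_not mx mz]
            norm_num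
      · have mx : ¬ D.mv x y := by rwa [D1.toF.f_not ox] at h1
        rw [gb_m mx]
        rw [D1.toF.f_not ox] at hne
        by_cases mz : D.mv z y
        · have oz : D1.toF.O z := by
            by_contra oz
            rw [D1.toF.f_not oz] at h2
            exact h2 mz
          by_cases tz : D1.toF.f z = D.τ z y
          · rw [gb_g ⟨oz, mz, tz⟩, D.sv_symm, D.sv_one mz mx (by rw [← tz]; exact hne)]
            norm_num
          · rw [gb_b ⟨oz, mz, tz⟩, D.sv_symm, D.sv_val, if_pos mz, if_neg mx]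
            split_ifs <;> norm_num
        · rw [gb_m mz, D.sv_not mx mz]
          norm_num

/-- the corners of the own square -/
theorem sv_own {x y z : V} (h : (D1.toF.O x ∧ z = D1.toF.f x) ∨ (D1.toF.O z ∧ x = D1.toF.f z) ∨
    K.rk y ≠ K.rk D.v) : D.sv x y z = -(D.gb D1 x y + D.gb D1 z y) := by
  have key : ∀ {x z : V}, D1.toF.O x → z = D1.toF.f x →
      D.sv x y z = -(D.gb D1 x y + D.gb D1 z y) := by
    intro x z ox e
    have mz : ¬ D.mv z y := by
      rw [e]
      exact fO_mv hr hy ox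
    rw [gb_m mz]
    by_cases mx : D.mv x y
    · by_cases tx : D1.toF.f x = D.τ x y
      · rw [gb_g ⟨ox, mx, tx⟩, D.sv_τ mx (by rw [e, tx])]
        norm_num
      · rw [gb_b ⟨ox, mx, tx⟩, D.sv_one mx mz (by rw [e]; exact tx)]
        norm_num
    · rw [gb_m mx, D.sv_not mx mz]
      norm_num
  rcases h with ⟨h1, h2⟩ | ⟨h1, h2⟩ | h1
  · exact key h1 h2
  · rw [D.sv_symm, add_comm]
    exact key h1 h2
  · have n1 : ∀ p, ¬ D.mv p y := fun p h => h1 (D.mv_rk h)
    rw [D.sv_not (n1 _) (n1 _), gb_m (n1 _), gb_m (n1 _)]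
    norm_num

end

end CuD

/-! ### the sums -/

/-- no backtracking in the fold -/
theorem Sq1.side_nbt {K : GX H V} (D1 : Sq1 K) (P : P45 K) (hm : K.Min) : D1.toF.gx.NBt := by
  intro j k
  rw [D1.flat.vx P, D1.flat.vx P]
  by_cases hj : P.sq j.1
  · have e : Fin.ofNat 4 (k + 2) = Fin.ofNat 4 k + 2 := by
      ext
      simp [Fin.val_add]
    rw [P.tvx4 hj, P.tvx4 hj, e]
    exact D1.flat.opp_ne P hj j.2 _
  · have e : Fin.ofNat 5 (k + 2) = Fin.ofNat 5 k + 2 := by
      ext
      simp [Fin.val_add]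
    rw [P.tvx5 hj, P.tvx5 hj, e]
    have h1 := Qn_pt (P := D1.flat.P45 P) (1 : H) (i := j) hj (Fin.ofNat 5 k)
    have h2 := P45.hne (D1.toF.min hm) h1
    rw [one_smul, one_smul] at h2
    exact h2

namespace CuD

variable {K : GX H V} {D : CuD K} {D1 : Sq1 K}

open Classical in
/-- THE WEIGHTED SUMS -/
theorem side_wcs (hr : K.rk D.v < K.rk D1.T) (hy : D1.y = D.a) (P : P45 K) (hm : K.Min)
    (w : K.I → ℤ) (hw : ∀ i, 0 ≤ w i) (hB : ∀ i, D1.toF.Bt i →
      K.ccs i D.sv = -K.ccs i (fun x y z => D.gb D1 x y + D.gb D1 z y)) :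
    D1.toF.gx.wcs (fun j => w j.1) (D.side D1 hr).sv + ∑ i, (if D1.toF.Bt i then -1 else 1) *
      (w i * K.ccs i (fun x y z => D.gb D1 x y + D.gb D1 z y)) ≤ K.wcs w D.sv := by
  have nb := D1.side_nbt P hm
  rw [D1.flat.wcs_if P w]
  unfold GX.wcs
  rw [← Finset.sum_add_distrib]
  refine Finset.sum_le_sum fun i _ => ?_
  by_cases hi : D1.toF.Bt i
  · rw [if_pos hi, if_pos hi, hB i hi]
    linarith
  · rw [if_neg hi, if_neg hi]
    have h1 : K.ccs i (fun x y z => (D.side D1 hr).sv (D1.toF.F x) (D1.toF.F y) (D1.toF.F z)) ≤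
        K.ccs i (fun x y z => D.sv x y z - (D.gb D1 x y + D.gb D1 z y)) := by
      refine K.ccs_mono i fun j => ?_
      rw [D.side_sv_F D1 hr]
      refine sv_le hr hy ?_
      let j0 : D1.toF.gx.I := ⟨i, hi⟩
      have h2 : D1.toF.gx.vx j0 j ≠ D1.toF.gx.vx j0 (j + 2) := nb j0 j
      rw [D1.flat.vx P, D1.flat.vx P] at h2
      exact fun k => h2 (Subtype.ext k)
    rw [K.ccs_sub] at h1
    have h3 := mul_le_mul_of_nonneg_left h1 (hw i)
    rw [mul_sub] at h3
    linarith

/-- the own square -/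
theorem side_own (hr : K.rk D.v < K.rk D1.T) (hy : D1.y = D.a) (P : P45 K)
    (hy1 : ∀ a b y, P.TopR D1.T a b y → y = D1.y) {i : K.I} (hi : P.own D1.T i) :
    K.ccs i D.sv = -K.ccs i (fun x y z => D.gb D1 x y + D.gb D1 z y) := by
  obtain ⟨hs, h, j, hj, e⟩ := hi
  have ht := (P45.tq_TopR hs hj).smul h
  rw [e] at ht
  have ey := hy1 _ _ _ ht
  have e0 : P.qt i j = h⁻¹ • D1.T := by rw [← e, inv_smul_smul]
  have e2 : P.qt i (j + 2) = D1.toF.f (P.qt i j) := by
    rw [e0, D1.f_T, ← ey, inv_smul_smul]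
  have oj : D1.toF.O (P.qt i j) := ⟨h⁻¹, e0⟩
  have r0 : K.rk (P.qt i j) ≠ K.rk D.v := by
    rw [e0, K.rk_smul]
    omega
  have r2 : K.rk (P.qt i (j + 2)) ≠ K.rk D.v := by
    rw [e2, fO_rk hy oj]
    have := D.ra
    omega
  rw [P.ccs_at hs j, P.ccs_at hs j, sv_own hr hy (Or.inr (Or.inr r0)),
    sv_own hr hy (Or.inl ⟨oj, e2⟩), sv_own hr hy (Or.inr (Or.inr r2)),
    sv_own hr hy (Or.inr (Or.inl ⟨oj, e2⟩))]
  ring

end CuD

namespace P45

variable {K : GX H V} {P : P45 K}

/-- the own square passes the arrows of the top twice, with weights -/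
theorem Cl.own_two (hC : P.Cl) {T c d y : V} (ht : P.TopR T c d y) {i : K.I} (hi : P.own T i) :
    P.wq i * K.ccs i (fun x y z => lg H T c x y + lg H T c z y) = 2 := by
  obtain ⟨hs, h, j, hj, e⟩ := hi
  have ht' := (tq_TopR hs hj).smul h
  rw [e] at ht'
  have ey : h • P.qt i (j + 2) = y := hC.par _ _ _ _ _ _ _ ht' ht
  have hab := hC.nab _ _ _ _ ht'
  have tc : K.ar T c := ht.1.2.1
  have e0 : P.qt i j = h⁻¹ • T := by rw [← e, inv_smul_smul]
  set a := h • P.qt i (j + 1) with ha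
  set b := h • P.qt i (j + 3) with hb
  have ta : K.ar T a := ht'.1.2.1
  have tb : K.ar T b := ht'.1.2.2
  have ea : P.qt i (j + 1) = h⁻¹ • a := by rw [ha, inv_smul_smul]
  have eb : P.qt i (j + 3) = h⁻¹ • b := by rw [hb, inv_smul_smul]
  have e2 : P.qt i (j + 2) = h⁻¹ • y := by rw [← ey, inv_smul_smul]
  have n0 : ∀ p q : V, K.rk p < K.rk T → lg H T c (h⁻¹ • p) q = 0 := by
    intro p q hp
    refine lg_neg ?_
    rintro ⟨g, e1, -⟩
    have := congrArg K.rk e1
    rw [K.rk_smul, K.rk_smul] at this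
    omega
  have ra := K.ar_rk _ _ ta
  have rb := K.ar_rk _ _ tb
  have ry := ht.2
  have sm : ∀ q : V, lg H T c (h⁻¹ • T) (h⁻¹ • q) = lg H T c T q := by
    intro q
    by_cases k : Tr H T c T q
    · rw [lg_pos k, lg_pos (k.smul h⁻¹)]
    · rw [lg_neg k, lg_neg]
      intro k'
      apply k
      have := k'.smul h
      rwa [smul_inv_smul, smul_inv_smul] at this
  rw [P.ccs_at hs j, e0, ea, eb, e2, n0 b _ rb, n0 a _ ra, n0 y _ ry, n0 a _ ra, n0 b _ rb,
    n0 y _ ry, sm, sm]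
  -- the two legs
  have hca : c = a ∨ c = b := by
    rcases K.two _ _ _ _ ta tb tc with k | k | k
    · exact absurd k hab
    · exact Or.inr k.symm
    · exact Or.inl k.symm
  have hfl : (∃ g : H, g • T = T ∧ g • a = b) ↔ P.flq i := by
    constructor
    · rintro ⟨g, g1, g2⟩
      refine ⟨hs, h⁻¹ * g * h, j, hj, ?_, ?_⟩
      · rw [mul_smul, mul_smul, e, g1, e0]
      · rw [mul_smul, mul_smul, ← ha, g2, eb]
    · rintro ⟨-, g, j', hj', g1, g2⟩
      have := tq_uniq hj hj'
      subst this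
      refine ⟨h * g * h⁻¹, ?_, ?_⟩
      · rw [mul_smul, mul_smul, ← e0, g1, e]
      · rw [mul_smul, mul_smul, ← ea, g2]
  unfold wq
  by_cases hf : P.flq i
  · rw [if_pos hf]
    obtain ⟨g, g1, g2⟩ := hfl.2 hf
    have t1 : Tr H T a T b := ⟨g, g1.symm, g2.symm⟩
    rcases hca with rfl | rfl
    · rw [lg_pos (Tr.refl _ _), lg_pos t1]
      norm_num
    · rw [lg_pos (Tr.refl _ _), lg_pos t1.symm]
      norm_num
  · rw [if_neg hf]
    have t1 : ¬ Tr H T a T b := by
      rintro ⟨g, g1, g2⟩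
      exact hf (hfl.1 ⟨g, g1.symm, g2.symm⟩)
    rcases hca with rfl | rfl
    · rw [lg_pos (Tr.refl _ _), lg_neg t1]
      norm_num
    · rw [lg_pos (Tr.refl _ _), lg_neg (fun k => t1 k.symm)]
      norm_num

open Classical in
/-- the sum with signs -/
theorem Cl.sgn_sum (hC : P.Cl) {T c d y : V} (ht : P.TopR T c d y) {B : K.I → Prop}
    (hB : ∀ i, B i ↔ P.own T i) : (∑ i, (if B i then -1 else 1) *
      (P.wq i * K.ccs i (fun x y z => lg H T c x y + lg H T c z y))) = P.XW T c - 2 := by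
  obtain ⟨i0, h0⟩ := P45.Cl.own_ex ht
  have h1 : (∑ i, if P.own T i then P.wq i * K.ccs i (fun x y z => lg H T c x y + lg H T c z y)
      else 0) = 2 := by
    rw [Finset.sum_eq_single i0]
    · rw [if_pos h0]
      exact hC.own_two ht h0
    · intro i _ hi
      rw [if_neg (fun k => hi (hC.own_uniq k h0))]
    · intro h
      exact absurd (Finset.mem_univ _) h
  rw [← h1]
  unfold XW
  rw [← Finset.sum_sub_distrib]
  refine Finset.sum_congr rfl fun i _ => ?_
  by_cases hi : P.own T i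
  · rw [if_pos ((hB i).2 hi), if_pos hi, if_pos hi]
    ring
  · rw [if_neg (fun k => hi ((hB i).1 k)), if_neg hi, if_neg hi]
    ring

end P45

namespace CuD

variable {K : GX H V} {D : CuD K} {D1 : Sq1 K} {P : P45 K}

/-- the translates of the arrow of the top over the hub -/
theorem gL_tr (hT : D1.T ∈ D.R) (hy : D1.y = D.a) {p q : V} (k : Tr H D1.T D.v p q) :
    D.gL D1 p q := by
  obtain ⟨l, rfl, rfl⟩ := k
  have h1 : l⁻¹ • (l • D1.T) ∈ D.R := by rwa [inv_smul_smul]
  refine ⟨⟨l, rfl⟩, ⟨l, h1, rfl⟩, ?_⟩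
  rw [D1.f_T, D.τ_eq h1 rfl, hy]

/-- STEP SIDE, ONE CLASS: the partner of `T ∈ R` is the pole `a`, only the translates of the arrow
`T, v` are moved -/
theorem side_one (hC : P.Cl) (hm : K.Min) (hr : K.rk D.v < K.rk D1.T) {c : V}
    (ht : P.TopR D1.T c D.v D1.y) (hB : ∀ i, D1.toF.Bt i ↔ P.own D1.T i) (hT : D1.T ∈ D.R)
    (hy : D1.y = D.a) (h1 : ∀ h : H, h • D1.T ∈ D.R → Tr H D1.T D.v (h • D1.T) D.v) :
    D1.toF.gx.wcs (fun j => P.wq j.1) (D.side D1 hr).sv + P.XW D1.T D.v - 2 ≤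
      K.wcs P.wq D.sv := by
  classical
  have hy1 : ∀ a b y, P.TopR D1.T a b y → y = D1.y := fun _ _ _ k => hC.par _ _ _ _ _ _ _ k ht
  have h2 := side_wcs hr hy P hm P.wq (fun i => (P45.wq_pos i).le)
    (fun i hi => side_own hr hy P hy1 ((hB i).1 hi))
  have e : ∀ p q, D.gb D1 p q = lg H D1.T D.v p q := by
    intro p q
    by_cases k : Tr H D1.T D.v p q
    · rw [lg_pos k, gb_g (gL_tr hT hy k)]
    · rw [lg_neg k]
      by_cases o : D1.toF.O p
      · by_cases m : D.mv p q
        · exfalso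
          obtain ⟨l, rfl⟩ := o
          obtain ⟨g, g1, rfl⟩ := m
          rw [← mul_smul] at g1
          have := (h1 _ g1).smul g
          rw [mul_smul, smul_inv_smul] at this
          exact k this
        · exact gb_m m
      · exact gb_O o
  simp only [e] at h2
  rw [hC.sgn_sum ht.symm' hB] at h2
  linarith

/-- the moved legs in the orbit of `T` -/
theorem mv_O {c : V} (ht : P.TopR D1.T c D.v D1.y) (hcv : c ≠ D.v) {p q : V} (o : D1.toF.O p)
    (m : D.mv p q) : Tr H D1.T D.v p q ∨ ∃ g l : H, p = l • D1.T ∧ q = l • c ∧ q = g • D.v ∧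
      g⁻¹ • p ∈ D.R := by
  obtain ⟨l, rfl⟩ := o
  obtain ⟨g, g1, rfl⟩ := m
  have h1 := K.ar_smul l⁻¹ _ _ (K.ar_smul g _ _ (D.R_ar _ g1))
  rw [smul_inv_smul, inv_smul_smul] at h1
  rcases K.two _ _ _ _ ht.1.2.1 ht.1.2.2 h1 with k | k | k
  · exact absurd k hcv
  · refine Or.inl ⟨l, rfl, ?_⟩
    rw [← inv_smul_eq_iff]
    exact k.symm
  · refine Or.inr ⟨g, l, rfl, ?_, rfl, g1⟩
    rw [← inv_smul_eq_iff]
    exact k.symm

/-- STEP SIDE, TWO CLASSES: both poles of `T` are in the orbit of the hub -/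
theorem side_two (hC : P.Cl) (hm : K.Min) (hr : K.rk D.v < K.rk D1.T) {c : V}
    (ht : P.TopR D1.T c D.v D1.y) (hB : ∀ i, D1.toF.Bt i ↔ P.own D1.T i) (hT : D1.T ∈ D.R)
    (hy : D1.y = D.a) {h : H} (hc : h • c = D.v) (hR : h • D1.T ∈ D.R) (ha : h • D.a = D.a)
    (hn : ¬ Tr H D1.T D.v D1.T c) :
    D1.toF.gx.wcs (fun j => P.wq j.1) (D.side D1 hr).sv + P.XW D1.T D.v + P.XW D1.T c - 4 ≤
      K.wcs P.wq D.sv := by
  classical
  have hy1 : ∀ a b y, P.TopR D1.T a b y → y = D1.y := fun _ _ _ k => hC.par _ _ _ _ _ _ _ k ht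
  have h2 := side_wcs hr hy P hm P.wq (fun i => (P45.wq_pos i).le)
    (fun i hi => side_own hr hy P hy1 ((hB i).1 hi))
  have hcv : c ≠ D.v := hC.nab _ _ _ _ ht
  have e : ∀ p q, D.gb D1 p q = lg H D1.T D.v p q + lg H D1.T c p q := by
    intro p q
    by_cases k : Tr H D1.T D.v p q
    · rw [lg_pos k, gb_g (gL_tr hT hy k), lg_neg (fun k' => hn (k.trans k'.symm)), add_zero]
    · rw [lg_neg k]
      by_cases k' : Tr H D1.T c p q
      · rw [lg_pos k', zero_add]
        refine gb_g ?_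
        obtain ⟨l, rfl, rfl⟩ := k'
        have h3 : (l * h⁻¹)⁻¹ • (l • D1.T) ∈ D.R := by
          rw [mul_inv_rev, inv_inv, mul_smul, inv_smul_smul]
          exact hR
        have h4 : l • c = (l * h⁻¹) • D.v := by
          rw [mul_smul, ← hc, inv_smul_smul]
        refine ⟨⟨l, rfl⟩, ⟨_, h3, h4⟩, ?_⟩
        rw [D1.f_T, D.τ_eq h3 h4, hy, mul_smul]
        congr 1
        rw [eq_inv_smul_iff, ha]
      · rw [lg_neg k', add_zero]
        by_cases o : D1.toF.O p
        · by_cases m : D.mv p q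
          · exfalso
            rcases mv_O ht hcv o m with k3 | ⟨g, l, k3, k4, -⟩
            · exact k k3
            · exact k' ⟨l, k3, k4⟩
          · exact gb_m m
        · exact gb_O o
  have e2 : ∀ i, K.ccs i (fun x y z => D.gb D1 x y + D.gb D1 z y) =
      K.ccs i (fun x y z => lg H D1.T D.v x y + lg H D1.T D.v z y) +
      K.ccs i (fun x y z => lg H D1.T c x y + lg H D1.T c z y) := by
    intro i
    rw [← K.ccs_add]
    refine K.ccs_congr i fun j => ?_
    rw [e, e]
    ring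
  simp only [e2, mul_add] at h2
  rw [Finset.sum_add_distrib, hC.sgn_sum ht.symm' hB, hC.sgn_sum ht hB] at h2
  linarith

/-- STEP SIDE, case (*t): both poles of `T` are in the orbit of the hub, the partners are different
poles -/
theorem side_t (hC : P.Cl) (hm : K.Min) (hr : K.rk D.v < K.rk D1.T) {c : V}
    (ht : P.TopR D1.T c D.v D1.y) (hB : ∀ i, D1.toF.Bt i ↔ P.own D1.T i) (hT : D1.T ∈ D.R)
    (hy : D1.y = D.a) {h : H} (hc : h • c = D.v) (hR : h • D1.T ∈ D.R) (ha : h • D.a ≠ D.a) :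
    D1.toF.gx.wcs (fun j => P.wq j.1) (D.side D1 hr).sv + P.XW D1.T D.v - P.XW D1.T c ≤
      K.wcs P.wq D.sv := by
  classical
  have hy1 : ∀ a b y, P.TopR D1.T a b y → y = D1.y := fun _ _ _ k => hC.par _ _ _ _ _ _ _ k ht
  have h2 := side_wcs hr hy P hm P.wq (fun i => (P45.wq_pos i).le)
    (fun i hi => side_own hr hy P hy1 ((hB i).1 hi))
  have hcv : c ≠ D.v := hC.nab _ _ _ _ ht
  have hb : ∀ {p q}, Tr H D1.T c p q → D.bL D1 p q := by
    rintro p q ⟨l, rfl, rfl⟩
    have h3 : (l * h⁻¹)⁻¹ • (l • D1.T) ∈ D.R := by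
      rw [mul_inv_rev, inv_inv, mul_smul, inv_smul_smul]
      exact hR
    have h4 : l • c = (l * h⁻¹) • D.v := by
      rw [mul_smul, ← hc, inv_smul_smul]
    refine ⟨⟨l, rfl⟩, ⟨_, h3, h4⟩, ?_⟩
    rw [D1.f_T, D.τ_eq h3 h4, hy, mul_smul]
    intro k
    have k' := smul_left_cancel l k
    rw [eq_inv_smul_iff] at k'
    exact ha k'
  have e : ∀ p q, D.gb D1 p q = lg H D1.T D.v p q - lg H D1.T c p q := by
    intro p q
    by_cases k : Tr H D1.T D.v p q
    · have k1 := gL_tr hT hy k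
      rw [lg_pos k, gb_g k1, lg_neg (fun k' => (hb k').2.2 k1.2.2), sub_zero]
    · rw [lg_neg k]
      by_cases k' : Tr H D1.T c p q
      · rw [lg_pos k', zero_sub]
        exact gb_b (hb k')
      · rw [lg_neg k', sub_zero]
        by_cases o : D1.toF.O p
        · by_cases m : D.mv p q
          · exfalso
            rcases mv_O ht hcv o m with k3 | ⟨g, l, k3, k4, -⟩
            · exact k k3
            · exact k' ⟨l, k3, k4⟩
          · exact gb_m m
        · exact gb_O o
  have e2 : ∀ i, K.ccs i (fun x y z => D.gb D1 x y + D.gb D1 z y) =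
      K.ccs i (fun x y z => lg H D1.T D.v x y + lg H D1.T D.v z y) -
      K.ccs i (fun x y z => lg H D1.T c x y + lg H D1.T c z y) := by
    intro i
    rw [← K.ccs_sub]
    refine K.ccs_congr i fun j => ?_
    rw [e, e]
    ring
  simp only [e2, mul_sub] at h2
  rw [Finset.sum_sub_distrib, hC.sgn_sum ht.symm' hB, hC.sgn_sum ht hB] at h2
  linarith

/-! ### the partner is moved too -/

/-- STEP SIDE, (0b): the top and its partner are moved -/
theorem side_zero (hC : P.Cl) (hr : K.rk D.v < K.rk D1.T) {c : V}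
    (ht : P.TopR D1.T c D.v D1.y) (hB : ∀ i, D1.toF.Bt i ↔ P.own D1.T i)
    (hy : D1.y ∈ D.R) (hb : ∀ h : H, K.ar (h • D1.T) D.v → (h • D1.T ∈ D.R ↔ h • D1.y ∈ D.R)) :
    K.wcs P.wq D.sv = D1.toF.gx.wcs (fun j => P.wq j.1) (D.side D1 hr).sv := by
  classical
  have ry := K.ar_rk _ _ (D.R_ar _ hy)
  have ra := D.ra
  -- legs at the hub
  have leg : ∀ (g : H) (p : V), K.E p (g • D.v) → (D.mv (D1.toF.f p) (g • D.v) ↔ D.mv p (g • D.v)) ∧
      (D.mv p (g • D.v) → D.τ (D1.toF.f p) (g • D.v) = D.τ p (g • D.v)) ∧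
      (∀ l : H, D1.toF.f p = l • D.a ↔ p = l • D.a) := by
    intro g p hE
    by_cases o : D1.toF.O p
    · obtain ⟨l, rfl⟩ := o
      rw [D1.f_T]
      have har : K.ar (l • D1.T) (g • D.v) := by
        rcases hE with k | k
        · exact k
        · have := K.ar_rk _ _ k
          rw [K.rk_smul, K.rk_smul] at this
          omega
      -- for every element which moves the hub to `g v`
      have tr : ∀ m : H, g • D.v = m • D.v → (m⁻¹ • (l • D1.T) ∈ D.R ↔ m⁻¹ • (l • D1.y) ∈ D.R) := by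
        intro m hm
        have h1 : K.ar ((m⁻¹ * l) • D1.T) D.v := by
          have := K.ar_smul m⁻¹ _ _ har
          rwa [hm, inv_smul_smul, ← mul_smul] at this
        have h2 := hb _ h1
        rwa [mul_smul, mul_smul] at h2
      refine ⟨⟨?_, ?_⟩, ?_, ?_⟩
      · rintro ⟨m, h1, h2⟩
        exact ⟨m, (tr m h2).2 h1, h2⟩
      · rintro ⟨m, h1, h2⟩
        exact ⟨m, (tr m h2).1 h1, h2⟩
      · rintro ⟨m, h1, h2⟩
        rw [D.τ_eq h1 h2, D.τ_eq ((tr m h2).1 h1) h2]
      · intro m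
        constructor
        · intro k
          have := congrArg K.rk k
          rw [K.rk_smul, K.rk_smul] at this
          omega
        · intro k
          have := congrArg K.rk k
          rw [K.rk_smul, K.rk_smul] at this
          omega
    · rw [D1.toF.f_not o]
      exact ⟨Iff.rfl, fun _ => rfl, fun _ => Iff.rfl⟩
  -- corners
  have cor : ∀ x y z, K.E x y → K.E z y →
      D.sv (D1.toF.f x) (D1.toF.f y) (D1.toF.f z) = D.sv x y z := by
    intro x y z exy ezy
    by_cases hv : ∃ g : H, y = g • D.v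
    · obtain ⟨g, rfl⟩ := hv
      have ev : D1.toF.f (g • D.v) = g • D.v := f_hub D1 hr g
      rw [ev]
      obtain ⟨a1, a2, a3⟩ := leg g x exy
      obtain ⟨b1, b2, b3⟩ := leg g z ezy
      have τa : ∀ {p}, D.mv p (g • D.v) → ∃ l : H, D.τ p (g • D.v) = l • D.a := by
        rintro p ⟨l, h1, h2⟩
        exact ⟨l, D.τ_eq h1 h2⟩
      rw [D.sv_val, D.sv_val x]
      by_cases mx : D.mv x (g • D.v)
      · rw [if_pos (a1.2 mx), if_pos mx, a2 mx]
        by_cases mz : D.mv z (g • D.v)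
        · rw [if_pos (b1.2 mz), if_pos mz, b2 mz]
        · rw [if_neg (fun k => mz (b1.1 k)), if_neg mz]
          obtain ⟨l, hl⟩ := τa mx
          rw [hl]
          exact if_congr (b3 l) rfl rfl
      · rw [if_neg (fun k => mx (a1.1 k)), if_neg mx]
        by_cases mz : D.mv z (g • D.v)
        · rw [if_pos (b1.2 mz), if_pos mz, b2 mz]
          obtain ⟨l, hl⟩ := τa mz
          rw [hl]
          exact if_congr (a3 l) rfl rfl
        · rw [if_neg (fun k => mz (b1.1 k)), if_neg mz]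
    · have n1 : ∀ p, ¬ D.mv p y := fun p ⟨g, _, e⟩ => hv ⟨g, e⟩
      have n2 : ∀ p, ¬ D.mv p (D1.toF.f y) := by
        rintro p ⟨g, -, e⟩
        by_cases o : D1.toF.O y
        · obtain ⟨l, rfl⟩ := o
          rw [D1.f_T] at e
          have := congrArg K.rk e
          rw [K.rk_smul, K.rk_smul] at this
          omega
        · rw [D1.toF.f_not o] at e
          exact hv ⟨g, e⟩
      rw [D.sv_not (n2 _) (n2 _), D.sv_not (n1 _) (n1 _)]
  rw [D1.flat.wcs_if P P.wq]
  unfold GX.wcs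
  refine Finset.sum_congr rfl fun i _ => ?_
  have hl : 0 < K.len i := by
    by_cases hs : P.sq i
    · rw [P.tlen4 hs]
      norm_num
    · rw [P.tlen5 hs]
      norm_num
  by_cases hi : D1.toF.Bt i
  · rw [if_pos hi]
    obtain ⟨hs, h, j, hj, e⟩ := (hB i).1 hi
    have ht' := (P45.tq_TopR hs hj).smul h
    rw [e] at ht'
    have ey : h • P.qt i (j + 2) = D1.y := hC.par _ _ _ _ _ _ _ ht' ht
    have e0 : P.qt i j = h⁻¹ • D1.T := by rw [← e, inv_smul_smul]
    have e2 : P.qt i (j + 2) = h⁻¹ • D1.y := by rw [← ey, inv_smul_smul]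
    have n0 : ∀ p, ¬ D.mv p (P.qt i j) := by
      intro p k
      have := D.mv_rk k
      rw [e0, K.rk_smul] at this
      omega
    have n2 : ∀ p, ¬ D.mv p (P.qt i (j + 2)) := by
      intro p k
      have := D.mv_rk k
      rw [e2, K.rk_smul] at this
      omega
    -- the corners at the sides
    have sd : ∀ s, K.E (P.qt i j) s → D.sv (P.qt i j) s (P.qt i (j + 2)) = 0 := by
      intro s hE
      by_cases hv : ∃ g : H, s = g • D.v
      · obtain ⟨g, rfl⟩ := hv
        obtain ⟨a1, a2, a3⟩ := leg g (P.qt i j) hE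
        have ef : D1.toF.f (P.qt i j) = P.qt i (j + 2) := by rw [e0, D1.f_T, e2]
        rw [ef] at a1 a2
        by_cases mx : D.mv (P.qt i j) (g • D.v)
        · exact D.sv_mm mx (a1.2 mx) (a2 mx).symm
        · exact D.sv_not mx (fun k => mx (a1.1 k))
      · exact D.sv_not (fun ⟨g, _, k⟩ => hv ⟨g, k⟩) (fun ⟨g, _, k⟩ => hv ⟨g, k⟩)
    have s1 : K.E (P.qt i j) (P.qt i (j + 1)) := Or.inl hj.1.1
    have s3 : K.E (P.qt i j) (P.qt i (j + 3)) := Or.inl hj.1.2
    rw [P.ccs_at hs j, D.sv_not (n0 _) (n0 _), D.sv_not (n2 _) (n2 _), sd _ s1, D.sv_symm,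
      sd _ s3]
    norm_num
  · rw [if_neg hi]
    congr 1
    refine K.ccs_congr i fun j => ?_
    rw [D.side_sv_F D1 hr]
    exact (cor _ _ _ (K.vx_E hl j) (K.vx_E hl (j + 1)).symm).symm

end CuD

end Pool.Agent.DI
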