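import Pool.Agent.DI.SgL

/-!
# DI/SgM: the sigma law of the folded slice

`S.QN w O q k`: the near star arrow `k = ([n],[q0])` is charged by the arrow `q = ([q0],[z])` of its hub to
its partner. `S.P4 hc hm hn p k`: `p` is the upper arrow of a gamma top over `w` which becomes a diamond
top, `k` is the other arrow of this diamond top. `S.SgH`: the hypotheses, with a number `c k` for every
near star arrow: (N*) for the near stars, (LOC) for the local tops. `SgH.sgY`: the assembly. `SgH.le`: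
SIGMA DOES NOT DROP.
-/

namespace Pool.Agent.DI

open MulAction
open Pool.Agent.SAF (InC orbs FinOrb oc Decomp SAn SA Conv hull dist_edge FinOrb_iff exists_next
  mk_eq_iff)
open Pool.Agent.BT (PX PQ JS bey exits lz lz_self lz_ne lz_symm x_next_unique)
open Pool.Agent.BT.TA

/-- the sum over a set with one element -/
theorem os_single {G W : Type} [Group G] [MulAction G W] {A : Set W} {p : W} (hp : p ∈ A)
    (h : ∀ q ∈ A, q = p) (X : W → ℕ) : os G A X = X p := by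
  have e : A = {p} := by
    ext q
    exact ⟨fun hq => h q hq, fun hq => by rw [Set.mem_singleton_iff.1 hq]; exact hp⟩
  have hA : FinOrb G A := by
    rw [e]
    exact (Set.finite_singleton _).image _
  rw [os_eq hA]
  have e2 : hA.toFinset = {Quotient.mk'' p} := by
    ext q
    rw [hA.mem_toFinset, Finset.mem_singleton]
    constructor
    · rintro ⟨x, hx, rfl⟩
      rw [h x hx]
    · rintro rfl
      exact ⟨p, hp, rfl⟩
  rw [e2, Finset.sum_singleton]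
  congr 1
  exact h _ (rp_mem G ⟨p, hp, rfl⟩)

theorem os_none {G W : Type} [Group G] [MulAction G W] {A : Set W} (h : ∀ q, q ∉ A)
    (X : W → ℕ) : os G A X = 0 := by
  have : A = ∅ := Set.eq_empty_iff_forall_notMem.2 h
  rw [this]
  exact os_empty X

namespace SyQ

variable {H V : Type} [Group H] [MulAction H V] (S : SyQ H V)

/-- THE NEAR STARS over the hub arrow `q` -/
def QN (w : S.X) (O : S.OR w) (q k : S.Q w O × S.Q w O) : Prop :=
  ∃ u q0 z n, S.KN w O u q0 z n ∧ q = (S.fq w O (S.rho w q0), S.fq w O (S.rho w z)) ∧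
    k = (S.fq w O (S.rho w n), S.fq w O (S.rho w q0))

/-- near star arrows -/
def NA (w : S.X) (O : S.OR w) (k : S.Q w O × S.Q w O) : Prop := ∃ q, S.QN w O q k

variable {w : S.X} {O : S.OR w}

/-- a gamma top over `w` which becomes a diamond top; `k` is the second arrow -/
def P4 (hc : S.Conn) (hm : (S.k0 hc w).Min) (hn : S.SqN w O) (p : V × V)
    (k : S.Q w O × S.Q w O) : Prop :=
  S.Ca w O p (S.fq w O (S.rho w p.1), S.fq w O (S.rho w p.2)) ∧ w ∈ S.J p.1 ∧ p ∈ S.P.U ∧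
  (S.fq w O (S.rho w p.1), S.fq w O (S.rho w p.2)) ∈ (S.kfP hc w O hm hn).Dm ∧
  ∃ b y, S.P.Top p.1 p.2 b y ∧ w ∈ S.J b ∧ k = (S.fq w O (S.rho w p.1), S.fq w O (S.rho w b))

/-! ### equivariance and uniqueness -/

variable {S}

theorem KN.gsm (g : ↥(stabilizer H w)) {u : S.X} {q z x : V} (h : S.KN w O u q z x) :
    S.KN w O (g.1 • u) (g.1 • q) (g.1 • z) (g.1 • x) :=
  ⟨h.1.smul g, O.smul g u q h.2.1, S.K.ar_smul _ _ _ h.2.2.1, S.K.ar_smul _ _ _ h.2.2.2⟩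

theorem QN.smul (g : ↥(stabilizer H w)) {q k : S.Q w O × S.Q w O} (h : S.QN w O q k) :
    S.QN w O (g • q) (g • k) := by
  obtain ⟨u, q0, z, n, hk, rfl, rfl⟩ := h
  exact ⟨_, _, _, _, KN.gsm g hk, Prod.ext (fr_smul g q0).symm (fr_smul g z).symm,
    Prod.ext (fr_smul g n).symm (fr_smul g q0).symm⟩

theorem NA.smul (g : ↥(stabilizer H w)) {k : S.Q w O × S.Q w O} (h : S.NA w O k) :
    S.NA w O (g • k) := by
  obtain ⟨q, hq⟩ := h
  exact ⟨_, hq.smul g⟩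

theorem NA.smul_iff (g : ↥(stabilizer H w)) {k : S.Q w O × S.Q w O} :
    S.NA w O (g • k) ↔ S.NA w O k := by
  refine ⟨fun h => ?_, fun h => h.smul g⟩
  have := h.smul g⁻¹
  rwa [inv_smul_smul] at this

section Main

variable {hc : S.Conn} {hm : (S.k0 hc w).Min} {hn : S.SqN w O} {E : V → Prop}

theorem P4.smul (g : ↥(stabilizer H w)) {p : V × V} {k : S.Q w O × S.Q w O}
    (h : S.P4 hc hm hn p k) : S.P4 hc hm hn (g • p) (g • k) := by
  obtain ⟨h1, h2, h3, h4, b, y, h5, h6, rfl⟩ := h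
  have e : (S.fq w O (S.rho w (g • p).1), S.fq w O (S.rho w (g • p).2)) =
      g • (S.fq w O (S.rho w p.1), S.fq w O (S.rho w p.2)) :=
    Prod.ext (fr_smul g p.1) (fr_smul g p.2)
  refine ⟨?_, mem_smul g h2, P45.U_smul g.1 p h3, ?_, g.1 • b, g.1 • y, h5.smul g.1,
    mem_smul g h6, Prod.ext (fr_smul g p.1).symm (fr_smul g b).symm⟩
  · rw [e]
    exact h1.smul g
  · rw [e]
    exact P45.Dm_smul g _ h4

theorem QN.mem (hO : O.Nf) {q k : S.Q w O × S.Q w O} (h : S.QN w O q k) :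
    k ∈ (S.kfP hc w O hm hn).U := by
  obtain ⟨u, q0, z, n, hk, rfl, rfl⟩ := h
  exact hk.U hO

theorem QN.fun (h : S.SgO w O E) (hc : S.Conn) (hm : (S.k0 hc w).Min) (hn : S.SqN w O)
    {q q' k : S.Q w O × S.Q w O} (h1 : S.QN w O q k) (h2 : S.QN w O q' k) : q = q' := by
  obtain ⟨u, q0, z, n, hk, rfl, rfl⟩ := h1
  obtain ⟨u', q0', z', n', hk', rfl, e⟩ := h2
  have e1 := congrArg Prod.fst e
  have e2 := congrArg Prod.snd e
  dsimp only at e1 e2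
  have t1 := hk.Top (hc := hc) (hm := hm) (hn := hn) h.nf
  have t2 := hk'.Top (hc := hc) (hm := hm) (hn := hn) h.nf
  rw [← e1] at t2
  exact Prod.ext e2 (kf_par h.nf h.kin t1 t2)

/-- A LOCAL TOP -/
theorem SgO.no_cs (h : S.SgO w O E) {T a b y : V} (ht : S.P.Top T a b y) (hT : w ∈ S.J T)
    (ha : w ∈ S.J a) (hb : w ∈ S.J b) {u : S.X} (hu : S.D.G.Adj w u) : u ∉ S.J T :=
  poles_edge (h.sq.nab _ _ _ _ ht) hT ht.2.1 ht.2.2 ha hb hu

theorem SgO.alone (h : S.SgO w O E) {T a b y : V} (hp : (T, a) ∈ S.P.CA)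
    (ht : S.P.Top T a b y) (hT : w ∈ S.J T) (ha : w ∈ S.J a) (hb : w ∈ S.J b) {x : V}
    (hx : w ∈ S.J x) (e : S.fq w O (S.rho w x) = S.fq w O (S.rho w T)) : x = T :=
  car_inj hx hT (cls_one hT (fun _ hv => h.no_cs ht hT ha hb hv)
    (fun v hv => (Sk.inl.1 hv).2 (h.n8 _ _ _ _ ht hp hT ha hb v.1 v.2)) e)

/-- the image of a local top -/
theorem SgO.img (h : S.SgO w O E) {T a b y : V} (hp : (T, a) ∈ S.P.CA)
    (ht : S.P.Top T a b y) (hT : w ∈ S.J T) (ha : w ∈ S.J a) (hb : w ∈ S.J b) :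
    ∃ Y, (S.kfP hc w O hm hn).Top (S.fq w O (S.rho w T)) (S.fq w O (S.rho w a))
      (S.fq w O (S.rho w b)) Y := by
  have hab := h.nab _ _ _ _ ht hp hT ha hb
  rcases ht.pos4 with ⟨p, q, c⟩ | ⟨p, q, c⟩ | ⟨p, c⟩
  · exfalso
    obtain rfl : p = w := S.one_eq (Or.inl ht.2.1) c.p0 c.p1 hT ha
    obtain ⟨u, hu⟩ := exists_Bt S.D.tree (Sgm.left p q) c.ne
    exact h.no_cs ht hT ha hb hu.1 (c.cs0 hu).2
  · obtain rfl : p = w := S.one_eq (Or.inl ht.2.1) c.p1 c.p0 hT ha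
    obtain ⟨u, k⟩ := h.k2 hp ht c
    exact ⟨_, k.Top h.nf hab⟩
  · obtain rfl : p = w := S.one_eq (Or.inl ht.2.1) c.p1 c.p0 hT ha
    exact ⟨_, loc_Top h.nf h.kin ht (Cas3.loc c) (h.sq.nTy _ _ _ _ ht) hab⟩

/-- a near star arrow is not an arrow of a local top -/
theorem QN.ne (h : S.SgO w O E) {q k : S.Q w O × S.Q w O} (h1 : S.QN w O q k) {T a b y : V}
    (hp : (T, a) ∈ S.P.CA) (ht : S.P.Top T a b y) (hT : w ∈ S.J T) (ha : w ∈ S.J a)
    (hb : w ∈ S.J b) : k.1 ≠ S.fq w O (S.rho w T) := by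
  obtain ⟨u, q0, z, n, hk, rfl, rfl⟩ := h1
  intro e
  have e : S.fq w O (S.rho w n) = S.fq w O (S.rho w T) := e
  obtain rfl := h.alone hp ht hT ha hb hk.1.r.1 e
  exact h.no_cs ht hT ha hb hk.adj hk.1.r.2

/-- the data of `P4` -/
theorem P4.data (h : S.SgO w O E) {T a : V} {k : S.Q w O × S.Q w O}
    (h1 : S.P4 hc hm hn (T, a) k) : (T, a) ∈ S.P.U ∧ ∃ b y, S.P.Top T a b y ∧ S.K.ar a y ∧
      S.K.ar y b ∧ w ∈ S.J T ∧ w ∈ S.J a ∧ w ∈ S.J b ∧
      k = (S.fq w O (S.rho w T), S.fq w O (S.rho w b)) := by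
  obtain ⟨h1, h2, h3, h4, b, y, h5, h6, rfl⟩ := h1
  refine ⟨h3, b, y, h5, ?_⟩
  have hp : (T, a) ∈ S.P.CA := Or.inl h3
  obtain ⟨b', y', ht', e1, e2⟩ := h3
  obtain ⟨rfl, rfl⟩ := h.sq.uniq h5 ht' (h.nE hp)
  exact ⟨e1, e2, h2, h1.2.1, h6, rfl⟩

theorem P4.fun (h : S.SgO w O E) {p p' : V × V} {k : S.Q w O × S.Q w O}
    (h1 : S.P4 hc hm hn p k) (h2 : S.P4 hc hm hn p' k) : p = p' := by
  obtain ⟨T, a⟩ := p
  obtain ⟨T', a'⟩ := p'
  obtain ⟨hU, b, y, ht, e1, e2, hT, ha, hb, rfl⟩ := h1.data h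
  obtain ⟨hU', b', y', ht', e1', e2', hT', ha', hb', e⟩ := h2.data h
  have f1 := congrArg Prod.fst e
  dsimp only at f1
  have hp : (T, a) ∈ S.P.CA := Or.inl hU
  have hp' : (T', a') ∈ S.P.CA := Or.inl hU'
  obtain rfl := h.alone hp' ht' hT' ha' hb' hT f1
  rcases h.sq.sides ht ht'.2.1 with rfl | rfl
  · rfl
  · exfalso
    obtain ⟨rfl, rfl⟩ := h.sq.uniq ht' ht.symm' (h.nE hp')
    exact GX.ck_asym e1' e2

/-- both arrows of the diamond top -/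
theorem P4.both (h : S.SgO w O E) {p : V × V} {k : S.Q w O × S.Q w O}
    (h1 : S.P4 hc hm hn p k) : k ∈ (S.kfP hc w O hm hn).Dm ∧
      (S.fq w O (S.rho w p.1), S.fq w O (S.rho w p.2)) ∈ (S.kfP hc w O hm hn).Dm ∧
      S.Ca w O p (S.fq w O (S.rho w p.1), S.fq w O (S.rho w p.2)) := by
  obtain ⟨T, a⟩ := p
  have h0 := h1
  obtain ⟨hU, b, y, ht, e1, e2, hT, ha, hb, rfl⟩ := h1.data h
  refine ⟨?_, h0.2.2.2.1, h0.1⟩
  obtain ⟨B, Y', t1, t2, t3⟩ := h0.2.2.2.1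
  obtain ⟨Y, t⟩ := h.img (hc := hc) (hm := hm) (hn := hn) (Or.inl hU) ht hT ha hb
  have t1 : (S.kfP hc w O hm hn).Top (S.fq w O (S.rho w T)) (S.fq w O (S.rho w a)) B Y' := t1
  have t2 : S.arQ w O (S.fq w O (S.rho w a)) Y' := t2
  have t3 : S.arQ w O B Y' := t3
  have hab := h.nab _ _ _ _ ht (Or.inl hU) hT ha hb
  have eB : B = S.fq w O (S.rho w b) := by
    rcases (S.kf hc w O).two _ _ _ _ t.2.1 t.2.2 t1.2.2 with e | e | e
    · exact absurd e hab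
    · exact e.symm
    · exact absurd e (kf_nab t1)
  subst eB
  exact ⟨_, _, t1.symm', t3, t2⟩

theorem P4.not_NA (h : S.SgO w O E) {p : V × V} {k : S.Q w O × S.Q w O}
    (h1 : S.P4 hc hm hn p k) : ¬ S.NA w O k ∧
      ¬ S.NA w O (S.fq w O (S.rho w p.1), S.fq w O (S.rho w p.2)) := by
  obtain ⟨T, a⟩ := p
  obtain ⟨hU, b, y, ht, e1, e2, hT, ha, hb, rfl⟩ := h1.data h
  constructor
  · rintro ⟨q, hq⟩
    exact hq.ne h (Or.inl hU) ht hT ha hb rfl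
  · rintro ⟨q, hq⟩
    exact hq.ne h (Or.inl hU) ht hT ha hb rfl

/-! ### payments and charges -/

open Classical in
/-- THE PAYMENTS -/
noncomputable def pay (hc : S.Conn) (hm : (S.k0 hc w).Min) (hn : S.SqN w O)
    (c : S.Q w O × S.Q w O → ℕ) (k : S.Q w O × S.Q w O) : ℕ :=
  if S.NA w O k then 4 * (c k - 1) else
    if hp : ∃ p, S.P4 hc hm hn p k then
      S.P.X (Classical.choose hp).1 (Classical.choose hp).2 - 1 else 0

/-- THE CHARGES -/
def CQ (hc : S.Conn) (hm : (S.k0 hc w).Min) (hn : S.SqN w O) (q k : S.Q w O × S.Q w O) : Prop :=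
  (S.QN w O q k ∧ q ∈ (S.kfP hc w O hm hn).CA) ∨ ∃ p, S.P4 hc hm hn p k ∧
    q = (S.fq w O (S.rho w p.1), S.fq w O (S.rho w p.2))

variable {c : S.Q w O × S.Q w O → ℕ}

theorem pay_NA {k : S.Q w O × S.Q w O} (h : S.NA w O k) : pay hc hm hn c k = 4 * (c k - 1) :=
  if_pos h

theorem pay_P4 (h : S.SgO w O E) {p : V × V} {k : S.Q w O × S.Q w O} (h1 : S.P4 hc hm hn p k) :
    pay hc hm hn c k = S.P.X p.1 p.2 - 1 := by
  have hp : ∃ p, S.P4 hc hm hn p k := ⟨p, h1⟩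
  unfold pay
  rw [if_neg (h1.not_NA h).1, dif_pos hp, (Classical.choose_spec hp).fun h h1]

theorem pay_zero {k : S.Q w O × S.Q w O} (h : ¬ S.NA w O k) (h' : ∀ p, ¬ S.P4 hc hm hn p k) :
    pay hc hm hn c k = 0 := by
  unfold pay
  rw [if_neg h, dif_neg (fun ⟨p, hp⟩ => h' p hp)]

theorem pay_smul (h : S.SgO w O E) (ci : ∀ (g : ↥(stabilizer H w)) k, c (g • k) = c k)
    (g : ↥(stabilizer H w)) (k : S.Q w O × S.Q w O) :
    pay hc hm hn c (g • k) = pay hc hm hn c k := by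
  by_cases h1 : S.NA w O k
  · rw [pay_NA h1, pay_NA (h1.smul g), ci]
  · have h1' : ¬ S.NA w O (g • k) := fun l => h1 ((NA.smul_iff g).1 l)
    by_cases h2 : ∃ p, S.P4 hc hm hn p k
    · obtain ⟨p, hp⟩ := h2
      rw [pay_P4 h hp, pay_P4 h (hp.smul g)]
      have : S.P.X (g • p).1 (g • p).2 = S.P.X p.1 p.2 := P45.X_smul g.1 p.1 p.2
      rw [this]
    · push Not at h2
      rw [pay_zero h1 h2, pay_zero h1']
      intro p hp
      have := hp.smul g⁻¹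
      rw [inv_smul_smul] at this
      exact h2 _ this

theorem CQ.smul (g : ↥(stabilizer H w)) {q k : S.Q w O × S.Q w O} (h : CQ hc hm hn q k) :
    CQ hc hm hn (g • q) (g • k) := by
  rcases h with ⟨h1, h2⟩ | ⟨p, h1, rfl⟩
  · exact Or.inl ⟨h1.smul g, P45.CA_smul g _ h2⟩
  · exact Or.inr ⟨g • p, h1.smul g, Prod.ext (fr_smul g p.1).symm (fr_smul g p.2).symm⟩

theorem CQ.mem (h : S.SgO w O E) {q k : S.Q w O × S.Q w O} (h1 : CQ hc hm hn q k) :
    q ∈ (S.kfP hc w O hm hn).CA ∧ k ∈ (S.kfP hc w O hm hn).CA := by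
  rcases h1 with ⟨h1, h2⟩ | ⟨p, h1, rfl⟩
  · exact ⟨h2, Or.inl (h1.mem h.nf)⟩
  · obtain ⟨k1, k2, -⟩ := h1.both h
    exact ⟨Or.inr k2, Or.inr k1⟩

theorem CQ.fun (h : S.SgO w O E) {q q' k : S.Q w O × S.Q w O} (h1 : CQ hc hm hn q k)
    (h2 : CQ hc hm hn q' k) : q = q' := by
  rcases h1 with ⟨h1, -⟩ | ⟨p, h1, rfl⟩ <;> rcases h2 with ⟨h2, -⟩ | ⟨p', h2, rfl⟩
  · exact h1.fun h hc hm hn h2
  · exact absurd ⟨_, h1⟩ (h2.not_NA h).1
  · exact absurd ⟨_, h2⟩ (h1.not_NA h).1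
  · rw [h1.fun h h2]

/-! ### finiteness -/

theorem Ca.fin (h : S.SgO w O E) (k : S.Q w O × S.Q w O) :
    FinOrb ↥(stabilizer ↥(stabilizer H w) k) {p | S.Ca w O p k} := by
  have fD : FinOrb ↥(stabilizer H w) {p | ∃ k, S.Ca w O p k} :=
    finOrb_sl (T := S.P.CA) (D := {p | ∃ k, S.Ca w O p k}) P45.fin_CA
      (fun p ⟨k, hk⟩ => hk.1) (fun g p ⟨k, hk⟩ ⟨k', hk'⟩ => Ca.slice h hk hk')
  have := finOrb_fib (R := fun p k => S.Ca w O p k) fD (fun g p k hk => hk.smul g)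
    (fun p k k' hk hk' => Ca.fun h hk hk') k
  rwa [SgR.set_eq (fun p k => S.Ca w O p k) k] at this

theorem QN.fin (h : S.SgO w O E) (hc : S.Conn) (hm : (S.k0 hc w).Min) (hn : S.SqN w O)
    (q : S.Q w O × S.Q w O) :
    FinOrb ↥(stabilizer ↥(stabilizer H w) q) {k | S.QN w O q k} := by
  have fD : FinOrb ↥(stabilizer H w) {k | ∃ q, S.QN w O q k} :=
    P45.fin_CA.mono fun k ⟨q, hq⟩ => Or.inl (hq.mem (hc := hc) (hm := hm) (hn := hn) h.nf)
  have := finOrb_fib (R := fun k q => S.QN w O q k) fD (fun g k q hk => hk.smul g)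
    (fun k q q' hk hk' => hk.fun h hc hm hn hk') q
  have e1 : {k | k ∈ {k | ∃ q, S.QN w O q k} ∧ S.QN w O q k} = {k | S.QN w O q k} := by
    ext k
    exact ⟨fun h => h.2, fun h => ⟨⟨_, h⟩, h⟩⟩
  rwa [e1] at this

theorem CQ.fin (h : S.SgO w O E) (q : S.Q w O × S.Q w O) :
    FinOrb ↥(stabilizer ↥(stabilizer H w) q) {k | CQ hc hm hn q k} := by
  have fD : FinOrb ↥(stabilizer H w) {k | ∃ q, CQ hc hm hn q k} :=
    P45.fin_CA.mono fun k ⟨q, hq⟩ => (hq.mem h).2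
  have := finOrb_fib (R := fun k q => CQ hc hm hn q k) fD (fun g k q hk => hk.smul g)
    (fun k q q' hk hk' => hk.fun h hk') q
  have e1 : {k | k ∈ {k | ∃ q, CQ hc hm hn q k} ∧ CQ hc hm hn q k} = {k | CQ hc hm hn q k} := by
    ext k
    exact ⟨fun h => h.2, fun h => ⟨⟨_, h⟩, h⟩⟩
  rwa [e1] at this

end Main

end SyQ

end Pool.Agent.DI
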