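import Pool.Agent.DI.PmI
import Pool.Agent.DI.PmN
import Pool.Agent.DI.SgM

/-!
# DI/PmJ: the min-cut theorem with marks

`D.m1 P`: the tops in `D.R` over the hub whose partner is the pole `D.a` (type I), `D.m3 P`: the tops over
a vertex of `D.R` and the pole `D.a` whose partner is the hub (type III), `P.xc T c = XW - 2`.
`PmH.marks`: the sum of `P.xc` over the orbits of these tops is at most the change of length.
-/

namespace Pool.Agent.DI

open MulAction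
open Pool.Agent.SAF (InC orbs FinOrb oc FinOrb_iff)

variable {H V : Type} [Group H] [MulAction H V]

namespace CuD

variable {K : GX H V} (D : CuD K) (P : P45 K)

/-- (I) -/
def m1 : Set V := {T | T ∈ D.R ∧ ∃ c, P.TopR T D.v c D.a}

/-- (III) -/
def m3 : Set V := {T | ∃ m ∈ D.R, P.TopR T m D.a D.v}

/-- the marked tops -/
def mF (F : K.I → Prop) (A : Set V) : Set V := {T | T ∈ A ∧ ∃ i, F i ∧ P.own T i}

end CuD

namespace P45

variable {K : GX H V} {P : P45 K}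

/-- twice the number of the strands of `T, c` minus one -/
noncomputable def xc (P : P45 K) (T c : V) : ℕ := (P.XW T c - 2).toNat

theorem xc_smul (g : H) (T c : V) : P.xc (g • T) (g • c) = P.xc T c := by
  unfold xc
  rw [XW_smul]

theorem own_orb {T T' : V} {i : K.I} (h : P.own T i) (h' : P.own T' i) : ∃ g : H, T = g • T' := by
  obtain ⟨-, g, j, hj, e⟩ := h
  obtain ⟨-, g', j', hj', e'⟩ := h'
  have ej := tq_uniq hj hj'
  subst ej
  exact ⟨g * g'⁻¹, by rw [mul_smul, ← e', inv_smul_smul, e]⟩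

theorem fin_m1 (D : CuD K) : FinOrb ↥(stabilizer H ((D.v, D.a) : V × V)) (D.m1 P) := by
  have f1 : FinOrb ↥(stabilizer H ((D.v, D.a) : V × V)) {p | p ∈ P.ZP ∧ p.1 = (D.v, D.a)} := by
    refine Pool.Agent.SAF.FinOrb.of_inj (fin_ZP (P := P)) (fun y => y) (fun _ h => h.1) ?_
    rintro a ⟨-, ha⟩ b ⟨-, hb⟩ ⟨h, rfl⟩
    refine ⟨⟨h, ?_⟩, rfl⟩
    have : h • a.1 = (D.v, D.a) := hb
    rw [ha] at this
    exact this
  refine Pool.Agent.SAF.FinOrb.image f1 (fun p => p.2.2) ?_ ?_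
  · rintro T ⟨hT, c, ht⟩
    exact ⟨((D.v, D.a), (c, T)), ⟨⟨ht.1.1.symm.rot, D.va, D.R_ar _ hT⟩, rfl⟩, 1, one_smul _ _⟩
  · rintro p - q - ⟨g, rfl⟩
    exact ⟨g, rfl⟩

theorem fin_m3 (D : CuD K) : FinOrb ↥(stabilizer H ((D.v, D.a) : V × V)) (D.m3 P) := by
  have f1 : FinOrb ↥(stabilizer H ((D.v, D.a) : V × V)) {p | p ∈ P.ZP ∧ p.1 = (D.v, D.a)} := by
    refine Pool.Agent.SAF.FinOrb.of_inj (fin_ZP (P := P)) (fun y => y) (fun _ h => h.1) ?_
    rintro a ⟨-, ha⟩ b ⟨-, hb⟩ ⟨h, rfl⟩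
    refine ⟨⟨h, ?_⟩, rfl⟩
    have : h • a.1 = (D.v, D.a) := hb
    rw [ha] at this
    exact this
  refine Pool.Agent.SAF.FinOrb.image f1 (fun p => p.2.1) ?_ ?_
  · rintro T ⟨m, hm, ht⟩
    exact ⟨((D.v, D.a), (T, m)), ⟨⟨ht.1.1.rot.rot.symm, D.va, D.R_ar _ hm⟩, rfl⟩, 1, one_smul _ _⟩
  · rintro p - q - ⟨g, rfl⟩
    exact ⟨g, rfl⟩

theorem fin_mF {G : Type} [Group G] [MulAction G V] (P : P45 K) (F : K.I → Prop) {A : Set V}
    (h : FinOrb G A) : FinOrb G (CuD.mF P F A) := h.mono fun _ k => k.1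

end P45

/-- the input of the marked form -/
structure PmM (H : Type) [Group H] : Prop where
  mono : ∀ {V : Type} [MulAction H V] {K : GX H V} {P : P45 K}, P.Cl → K.Min → ∀ (D1 : Sq1 K)
    (a b : V), P.TopR D1.T a b D1.y → ∀ T c d z, P.TopR T c d z → (∀ g : H, T ≠ g • D1.T) →
    P.XW T c ≤ (D1.flat.P45 P).XW (D1.toF.F T) (D1.toF.F c)

namespace PmH

variable (X : PmH H) {K : GX H V} {P : P45 K}

/-! ### the other tops in the fold -/

section

variable (D1 : Sq1 K)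

theorem F_val {T : V} (hT : ∀ g : H, T ≠ g • D1.T) : (D1.toF.F T).1 = T :=
  D1.toF.f_not fun ⟨g, e⟩ => hT g e

theorem low {x : V} (h : K.rk x < K.rk D1.T) (g : H) : x ≠ g • D1.T := by
  rintro rfl
  rw [K.rk_smul] at h
  exact lt_irrefl _ h

include X

/-- the square of another top is kept -/
theorem nBt (hC : P.Cl) (hm : K.Min) {a b : V} (ht : P.TopR D1.T a b D1.y) {T : V} {i : K.I}
    (ho : P.own T i) (hT : ∀ g : H, T ≠ g • D1.T) : ¬ D1.toF.Bt i := by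
  intro h
  obtain ⟨g, e⟩ := P45.own_orb ho ((X.bt hC hm D1 a b ht i).1 h)
  exact hT g e

/-- another top stays a top -/
theorem topR (hC : P.Cl) (hm : K.Min) {a b : V} (ht : P.TopR D1.T a b D1.y) {T c d z : V}
    (hk : P.TopR T c d z) (hT : ∀ g : H, T ≠ g • D1.T) :
    (D1.flat.P45 P).TopR (D1.toF.F T) (D1.toF.F c) (D1.toF.F d) (D1.toF.F z) := by
  obtain ⟨i, ho, g, j, hi, htq, e1, e2⟩ := P45.Cl.own_ey hk
  have hB := X.nBt D1 hC hm ht ho hT
  have inj : ∀ u v : V, D1.toF.F (g • u) = D1.toF.F (g • v) → D1.toF.F u = D1.toF.F v := by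
    intro u v e
    rw [D1.toF.F_smul, D1.toF.F_smul] at e
    exact smul_left_cancel g e
  have n1 : D1.toF.F T ≠ D1.toF.F z := by
    rw [← e1, ← e2]
    exact fun e => D1.flat.opp_ne P hi hB j (inj _ _ e)
  have n2 : D1.toF.F c ≠ D1.toF.F d := by
    have t := (P45.tq_TopR hi htq).smul g
    rw [e1] at t
    have o := D1.flat.opp_ne P hi hB (j + 1)
    have s1 : ∀ j : Fin 4, j + 1 + 2 = j + 3 := by decide
    rw [s1] at o
    have nab := hC.nab _ _ _ _ hk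
    rcases hC.sides t hk.1.2.1 with h1 | h1
    · rcases hC.sides t hk.1.2.2 with h2 | h2
      · exact absurd (h1.trans h2.symm) nab
      · rw [h1, h2]
        exact fun e => o (inj _ _ e)
    · rcases hC.sides t hk.1.2.2 with h2 | h2
      · rw [h1, h2]
        exact fun e => o (inj _ _ e).symm
      · exact absurd (h1.trans h2.symm) nab
  refine ⟨⟨(D1.flat.Q4_iff P).2 ⟨_, _, _, _, hk.1.1, rfl, rfl, rfl, rfl, n2, n1⟩, ?_, ?_⟩, ?_⟩
  · refine ⟨c, ?_, rfl⟩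
    rw [F_val D1 hT]
    exact hk.1.2.1
  · refine ⟨d, ?_, rfl⟩
    rw [F_val D1 hT]
    exact hk.1.2.2
  · show K.rk (D1.toF.F z).1 < K.rk (D1.toF.F T).1
    rw [F_val D1 hT]
    exact lt_of_le_of_lt (D1.toF.rk_f z) hk.2

theorem own_fold (hC : P.Cl) (hm : K.Min) {a b : V} (ht : P.TopR D1.T a b D1.y) {T : V} {i : K.I}
    (ho : P.own T i) (hT : ∀ g : H, T ≠ g • D1.T) (hB : ¬ D1.toF.Bt i) :
    (D1.flat.P45 P).own (D1.toF.F T) ⟨i, hB⟩ := by
  obtain ⟨hi, g, j, hj, e⟩ := ho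
  have hT' : ∀ k : H, P.qt i j ≠ k • D1.T := by
    intro k e'
    apply hT (g * k)
    rw [mul_smul, ← e', e]
  have t := X.topR D1 hC hm ht (P45.tq_TopR hi hj) hT'
  refine ⟨hi, g, j, ⟨⟨t.1.2.1, t.1.2.2⟩, t.2⟩, ?_⟩
  show g • D1.toF.F (P.qt i j) = _
  rw [← D1.toF.F_smul, e]

/-- tops of the fold with a given square -/
theorem own_back (hC : P.Cl) (hm : K.Min) {a b : V} (ht : P.TopR D1.T a b D1.y) {c : D1.toF.W}
    {j : D1.toF.gx.I} (ho : (D1.flat.P45 P).own c j) : P.own c.1 j.1 := by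
  obtain ⟨hi, g, k, hk, e⟩ := ho
  have hi' : P.sq j.1 := hi
  obtain ⟨k0, hk0⟩ := hC.top j.1 hi'
  have hT' : ∀ l : H, P.qt j.1 k0 ≠ l • D1.T := by
    intro l e'
    apply j.2
    rw [X.bt hC hm D1 a b ht]
    exact ⟨hi', l⁻¹, k0, hk0, by rw [e', inv_smul_smul]⟩
  have t := X.topR D1 hC hm ht (P45.tq_TopR hi' hk0) hT'
  have ek : k = k0 := P45.tq_uniq (P := D1.flat.P45 P) (i := j) hk ⟨⟨t.1.2.1, t.1.2.2⟩, t.2⟩
  subst ek
  refine ⟨hi', g, k, hk0, ?_⟩
  have e1 : g • D1.toF.F (P.qt j.1 k) = c := e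
  rw [← D1.toF.F_smul] at e1
  rw [← e1]
  refine (F_val D1 ?_).symm
  intro l e'
  apply hT' (g⁻¹ * l)
  rw [mul_smul, ← e', inv_smul_smul]

end

end PmH

/-! ### sums over one or two orbits -/

theorem os_orb {G W : Type} [Group G] [MulAction G W] {B : Set W} (hB : FinOrb G B) {p : W}
    (h : ∀ q ∈ B, ∃ g : G, q = g • p) {X : W → ℕ} (hX : ∀ (g : G) q, X (g • q) = X q) :
    os G B X ≤ X p := by
  classical
  rw [os_eq hB]
  have h1 : hB.toFinset ⊆ {(Quotient.mk'' p : orbitRel.Quotient G W)} := by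
    intro q hq
    obtain ⟨x, hx, rfl⟩ := hB.mem_toFinset.1 hq
    obtain ⟨g, rfl⟩ := h x hx
    exact Finset.mem_singleton.2 (Pool.Agent.SAF.mk_eq_iff.2 ⟨g, rfl⟩)
  have h2 : ∀ q ∈ hB.toFinset, X (rp G B q) = X p := by
    intro q hq
    obtain ⟨g, hg⟩ := h _ (rp_mem G (hB.mem_toFinset.1 hq))
    rw [hg, hX]
  rw [Finset.sum_congr rfl h2, Finset.sum_const, smul_eq_mul]
  have h3 := Finset.card_le_card h1
  rw [Finset.card_singleton] at h3
  exact (Nat.mul_le_mul_right _ h3).trans (one_mul _).le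

theorem os_orb2 {G W : Type} [Group G] [MulAction G W] {B : Set W} (hB : FinOrb G B) {p p' : W}
    (iB : ∀ (g : G), ∀ q ∈ B, g • q ∈ B)
    (h : ∀ q ∈ B, (∃ g : G, q = g • p) ∨ ∃ g : G, q = g • p') {X : W → ℕ}
    (hX : ∀ (g : G) q, X (g • q) = X q) : os G B X ≤ X p + X p' := by
  have e : B = {q | q ∈ B ∧ ∃ g : G, q = g • p} ∪ {q | q ∈ B ∧ ¬ ∃ g : G, q = g • p} := by
    ext q
    constructor
    · intro hq
      by_cases k : ∃ g : G, q = g • p
      · exact Or.inl ⟨hq, k⟩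
      · exact Or.inr ⟨hq, k⟩
    · rintro (⟨k, -⟩ | ⟨k, -⟩) <;> exact k
  have h1 : FinOrb G {q | q ∈ B ∧ ∃ g : G, q = g • p} := hB.mono fun _ k => k.1
  have h2 : FinOrb G {q | q ∈ B ∧ ¬ ∃ g : G, q = g • p} := hB.mono fun _ k => k.1
  rw [e, os_union h1 h2 ?_ ?_ hX]
  · refine Nat.add_le_add (os_orb h1 (fun q hq => hq.2) hX) (os_orb h2 (fun q hq => ?_) hX)
    exact (h q hq.1).resolve_left hq.2
  · rintro g q ⟨k1, l, rfl⟩
    exact ⟨iB g _ k1, g * l, (mul_smul _ _ _).symm⟩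
  · rintro q ⟨-, k⟩ ⟨-, k'⟩
    exact k' k

namespace PmH

variable (X : PmH H) {K : GX H V} {P : P45 K}

/-- the conditions on the marked squares -/
structure Mk (D : CuD K) (P : P45 K) (F : K.I → Prop) : Prop where
  rel : ∀ i, F i → ∃ T, P.own T i ∧ (T ∈ D.m1 P ∨ T ∈ D.m3 P)
  np : ∀ T ∈ D.m1 P, ∀ i, F i → P.own T i → ∀ h : H, h • T ∈ D.R → h • D.a ≠ D.b

/-- the marked tops of the fold -/
def Fm (D1 : Sq1 K) (F : K.I → Prop) (i0 : K.I) (j : D1.toF.gx.I) : Prop := F j.1 ∧ j.1 ≠ i0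

/-- the cut data of the fold have the same hub and the same poles -/
structure Same (D : CuD K) (D1 : Sq1 K) (D' : CuD D1.toF.gx) : Prop where
  hr : K.rk D.v < K.rk D1.T
  v : D'.v = D1.toF.F D.v
  a : D'.a = D1.toF.F D.a
  b : D'.b = D1.toF.F D.b

section

variable {D : CuD K} {D1 : Sq1 K} {D' : CuD D1.toF.gx} (hs : Same D D1 D')

include hs

theorem Same.ra : K.rk D.a < K.rk D1.T := D.ra.trans hs.hr

theorem Same.rb : K.rk D.b < K.rk D1.T := D.rb.trans hs.hr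

/-- vertices of low rank are not identified -/
theorem Same.inj {x y : V} (hx : K.rk x < K.rk D1.T) (hy : K.rk y < K.rk D1.T)
    (e : D1.toF.F x = D1.toF.F y) : x = y := by
  have e1 := congrArg Subtype.val e
  rwa [F_val D1 (low D1 hx), F_val D1 (low D1 hy)] at e1

theorem Same.os_le {A : Set V} {A' : Set D1.toF.W}
    (fA : FinOrb ↥(stabilizer H ((D.v, D.a) : V × V)) A)
    (fA' : FinOrb ↥(stabilizer H ((D'.v, D'.a) : D1.toF.W × D1.toF.W)) A')
    (hA : ∀ T ∈ A, (∀ g : H, T ≠ g • D1.T) ∧ D1.toF.F T ∈ A') {p : V} {p' : D1.toF.W}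
    (hp : (p = D.v ∧ p' = D'.v) ∨ (p = D.a ∧ p' = D'.a))
    (hx : ∀ T ∈ A, P.xc T p ≤ (D1.flat.P45 P).xc (D1.toF.F T) p') :
    os ↥(stabilizer H ((D.v, D.a) : V × V)) A (fun T => P.xc T p) ≤
      os ↥(stabilizer H ((D'.v, D'.a) : D1.toF.W × D1.toF.W)) A'
        (fun T => (D1.flat.P45 P).xc T p') := by
  refine os_le_map fA fA' ?_ D1.toF.F (fun T hT => (hA T hT).2) ?_ hx
  · rintro ⟨g, hg⟩ T - -
    have h1 : g • D'.v = D'.v := congrArg Prod.fst hg
    have h2 : g • D'.a = D'.a := congrArg Prod.snd hg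
    have h3 : g • p' = p' := by
      rcases hp with ⟨-, rfl⟩ | ⟨-, rfl⟩
      · exact h1
      · exact h2
    show (D1.flat.P45 P).xc (g • T) p' = _
    nth_rw 1 [← h3]
    exact P45.xc_smul g T p'
  · rintro T hT T' hT' ⟨⟨g, hg⟩, e⟩
    have h1 : g • D'.v = D'.v := congrArg Prod.fst hg
    have h2 : g • D'.a = D'.a := congrArg Prod.snd hg
    rw [hs.v, ← D1.toF.F_smul] at h1
    rw [hs.a, ← D1.toF.F_smul] at h2
    have k1 := hs.inj (by rw [K.rk_smul]; exact hs.hr) hs.hr h1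
    have k2 := hs.inj (by rw [K.rk_smul]; exact hs.ra) hs.ra h2
    refine ⟨⟨g, Prod.ext k1 k2⟩, ?_⟩
    have e1 : g • D1.toF.F T = D1.toF.F T' := e
    rw [← D1.toF.F_smul] at e1
    have e2 := congrArg Subtype.val e1
    rw [F_val D1 (hA T' hT').1, F_val D1 ?_] at e2
    · exact e2
    · intro l k
      apply (hA T hT).1 (g⁻¹ * l)
      rw [mul_smul, ← k, inv_smul_smul]

end

/-- the data of a comparison: the marked tops go to marked tops -/
structure Tr1 (D : CuD K) (D1 : Sq1 K) (D' : CuD D1.toF.gx) (P : P45 K) (A1 A3 : Set V) : Prop where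
  c1 : ∀ T ∈ A1, (∀ g : H, T ≠ g • D1.T) ∧ D1.toF.F T ∈ D'.m1 (D1.flat.P45 P)
  c3 : ∀ T ∈ A3, (∀ g : H, T ≠ g • D1.T) ∧ D1.toF.F T ∈ D'.m3 (D1.flat.P45 P)

include X

theorem xc_mono (Y : PmM H) (hC : P.Cl) (hm : K.Min) (D1 : Sq1 K) {a b : V}
    (ht : P.TopR D1.T a b D1.y) {T c d z : V} (h : P.TopR T c d z) (hT : ∀ g : H, T ≠ g • D1.T) :
    P.xc T c ≤ (D1.flat.P45 P).xc (D1.toF.F T) (D1.toF.F c) := by
  have := Y.mono hC hm D1 a b ht T c d z h hT
  unfold P45.xc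
  omega

/-- the two sums do not drop -/
theorem Tr1.le {D : CuD K} {D1 : Sq1 K} {D' : CuD D1.toF.gx} {F : K.I → Prop} {i0 : K.I}
    (Y : PmM H) (hC : P.Cl) (hm : K.Min) {a b : V} (ht : P.TopR D1.T a b D1.y)
    (hs : Same D D1 D') (hc : Tr1 D D1 D' P (CuD.mF P (fun i => F i ∧ i ≠ i0) (D.m1 P))
      (CuD.mF P (fun i => F i ∧ i ≠ i0) (D.m3 P))) :
    os ↥(stabilizer H ((D.v, D.a) : V × V)) (CuD.mF P (fun i => F i ∧ i ≠ i0) (D.m1 P))
        (fun T => P.xc T D.v) +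
      os ↥(stabilizer H ((D.v, D.a) : V × V)) (CuD.mF P (fun i => F i ∧ i ≠ i0) (D.m3 P))
        (fun T => P.xc T D.a) ≤
    os ↥(stabilizer H ((D'.v, D'.a) : D1.toF.W × D1.toF.W))
        (CuD.mF (D1.flat.P45 P) (Fm D1 F i0) (D'.m1 (D1.flat.P45 P)))
        (fun T => (D1.flat.P45 P).xc T D'.v) +
      os ↥(stabilizer H ((D'.v, D'.a) : D1.toF.W × D1.toF.W))
        (CuD.mF (D1.flat.P45 P) (Fm D1 F i0) (D'.m3 (D1.flat.P45 P)))
        (fun T => (D1.flat.P45 P).xc T D'.a) := by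
  refine Nat.add_le_add (hs.os_le (P45.fin_mF _ _ (P45.fin_m1 D)) (P45.fin_mF _ _ (P45.fin_m1 D'))
    ?_ (Or.inl ⟨rfl, rfl⟩) ?_) (hs.os_le (P45.fin_mF _ _ (P45.fin_m3 D))
    (P45.fin_mF _ _ (P45.fin_m3 D')) ?_ (Or.inr ⟨rfl, rfl⟩) ?_)
  · intro T hT
    obtain ⟨k1, k2⟩ := hc.c1 T hT
    obtain ⟨-, i, hi, ho⟩ := hT
    exact ⟨k1, k2, ⟨i, X.nBt D1 hC hm ht ho k1⟩, hi, X.own_fold D1 hC hm ht ho k1 _⟩
  · intro T hT
    obtain ⟨k1, k2⟩ := hc.c1 T hT
    obtain ⟨⟨-, c, hk⟩, -⟩ := hT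
    rw [hs.v]
    exact X.xc_mono Y hC hm D1 ht hk k1
  · intro T hT
    obtain ⟨k1, k2⟩ := hc.c3 T hT
    obtain ⟨-, i, hi, ho⟩ := hT
    exact ⟨k1, k2, ⟨i, X.nBt D1 hC hm ht ho k1⟩, hi, X.own_fold D1 hC hm ht ho k1 _⟩
  · intro T hT
    obtain ⟨k1, k2⟩ := hc.c3 T hT
    obtain ⟨⟨m, -, hk⟩, -⟩ := hT
    rw [hs.a]
    exact X.xc_mono Y hC hm D1 ht hk.symm' k1

/-- a marked square of the fold which has a top of type (I) has one in `K` -/
theorem back1 {D : CuD K} {D1 : Sq1 K} {D' : CuD D1.toF.gx} {F : K.I → Prop} {i0 : K.I}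
    (hC : P.Cl) (hm : K.Min) {a b : V} (ht : P.TopR D1.T a b D1.y)
    (hs : Same D D1 D') (hM : Mk D P F) {c : D1.toF.W} (hc : c ∈ D'.m1 (D1.flat.P45 P))
    {j : D1.toF.gx.I} (hj : Fm D1 F i0 j) (ho : (D1.flat.P45 P).own c j) :
    ∃ (g : H) (T : V) (d : V), T ∈ D.m1 P ∧ P.own T j.1 ∧ c.1 = g • T ∧ g • D.a = D.a ∧
      P.TopR c.1 (g • D.v) d D.a := by
  have ho' := X.own_back D1 hC hm ht ho
  obtain ⟨T, hT, hmem⟩ := hM.rel _ hj.1
  obtain ⟨g, hg⟩ := P45.own_orb ho' hT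
  have hC' := X.fold hC hm D1 a b ht
  have hcT : ∀ l : H, c.1 ≠ l • D1.T := fun l e => c.2 ⟨l, e⟩
  have key : ∀ u v z : V, P.TopR c.1 u v z → D1.toF.F z = D1.toF.F D.a := by
    intro u v z h
    have k := X.topR D1 hC hm ht h hcT
    rw [D1.toF.F_val] at k
    obtain ⟨-, d, hd⟩ := hc
    rw [← hs.a]
    exact hC'.par _ _ _ _ _ _ _ k hd
  rcases hmem with ⟨hR, d, hd⟩ | ⟨m, hR, hd⟩
  · have k := hd.smul g
    rw [← hg] at k
    have k2 := hs.inj (by rw [K.rk_smul]; exact hs.ra) hs.ra (key _ _ _ k)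
    rw [k2] at k
    exact ⟨g, T, _, ⟨hR, d, hd⟩, hT, hg, k2, k⟩
  · exfalso
    have k := hd.smul g
    rw [← hg] at k
    have k2 := hs.inj (by rw [K.rk_smul]; exact hs.hr) hs.ra (key _ _ _ k)
    have := D.ra
    rw [← k2, K.rk_smul] at this
    exact lt_irrefl _ this

/-- the marked squares of the fold have marked tops -/
theorem rel' {D : CuD K} {D1 : Sq1 K} {D' : CuD D1.toF.gx} {F : K.I → Prop} {i0 : K.I}
    (hC : P.Cl) (hm : K.Min) {a b : V} (ht : P.TopR D1.T a b D1.y) (hM : Mk D P F)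
    (hc : Tr1 D D1 D' P (CuD.mF P (fun i => F i ∧ i ≠ i0) (D.m1 P))
      (CuD.mF P (fun i => F i ∧ i ≠ i0) (D.m3 P))) (j : D1.toF.gx.I) (hj : Fm D1 F i0 j) :
    ∃ T, (D1.flat.P45 P).own T j ∧
      (T ∈ D'.m1 (D1.flat.P45 P) ∨ T ∈ D'.m3 (D1.flat.P45 P)) := by
  obtain ⟨T, ho, hT | hT⟩ := hM.rel _ hj.1
  · obtain ⟨k1, k2⟩ := hc.c1 T ⟨hT, _, hj, ho⟩
    exact ⟨_, X.own_fold D1 hC hm ht ho k1 j.2, Or.inl k2⟩
  · obtain ⟨k1, k2⟩ := hc.c3 T ⟨hT, _, hj, ho⟩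
    exact ⟨_, X.own_fold D1 hC hm ht ho k1 j.2, Or.inr k2⟩

omit X in
theorem nO (hC : P.Cl) {D1 : Sq1 K} {i0 : K.I} (ho : P.own D1.T i0) {T : V} {i : K.I}
    (hi : P.own T i) (hne : i ≠ i0) (g : H) : T ≠ g • D1.T := by
  rintro rfl
  exact hne (hC.own_uniq ((P45.own_smul g _ _).1 hi) ho)

/-- TYPE (I): the other marks -/
theorem side_tr (hC : P.Cl) (hm : K.Min) {D : CuD K} {D1 : Sq1 K} (hr : K.rk D.v < K.rk D1.T)
    {c : V} (ht : P.TopR D1.T D.v c D1.y) (hy : D1.y = D.a) (F : K.I → Prop) {i0 : K.I}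
    (ho : P.own D1.T i0) (np : ∀ h : H, h • D1.T ∈ D.R → h • D.a ≠ D.b) :
    Tr1 D D1 (D.side D1 hr) P (CuD.mF P (fun i => F i ∧ i ≠ i0) (D.m1 P))
      (CuD.mF P (fun i => F i ∧ i ≠ i0) (D.m3 P)) where
  c1 := by
    rintro T ⟨⟨hR, d, hd⟩, i, ⟨-, hne⟩, hoi⟩
    have nT := nO hC ho hoi hne
    refine ⟨nT, ?_, _, X.topR D1 hC hm ht hd nT⟩
    show (D1.toF.F T).1 ∈ D.R
    rw [F_val D1 nT]
    exact hR
  c3 := by
    rintro T ⟨⟨m, hR, hd⟩, i, ⟨-, hne⟩, hoi⟩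
    have nT := nO hC ho hoi hne
    have hk := X.topR D1 hC hm ht hd nT
    refine ⟨nT, _, ?_, hk⟩
    show (D1.toF.F m).1 ∈ D.R
    by_cases hmT : ∃ g : H, m = g • D1.T
    · exfalso
      obtain ⟨g, rfl⟩ := hmT
      have k := ht.smul g
      have hga : g • D1.y = D.a := by
        have e1 := K.ar_smul g⁻¹ _ _ (D.R_ar _ hR)
        rw [inv_smul_smul] at e1
        have e2 : K.E D.v (g • D1.y) := by
          rcases hC.sides ht e1 with e | e
          · rw [inv_smul_eq_iff] at e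
            have := k.1.Ea
            rwa [← e] at this
          · rw [inv_smul_eq_iff] at e
            have := k.1.Eb
            rwa [← e] at this
        have hl : K.ar D.v (g • D1.y) := by
          rcases e2 with e | e
          · exact e
          · exfalso
            have r1 := K.ar_rk _ _ e
            have r2 := D.ra
            rw [K.rk_smul, hy] at r1
            omega
        rcases K.two _ _ _ _ D.va D.vb hl with e | e | e
        · exact absurd e D.ab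
        · exfalso
          exact np g hR (by rw [← hy]; exact e.symm)
        · exact e.symm
      refine (X.fold hC hm D1 _ _ ht).nab _ _ _ _ hk ?_
      rw [D1.toF.F_eq, D1.f_T, hga, D1.toF.f_not]
      exact fun ⟨l, e⟩ => low D1 (D.ra.trans hr) l e
    · push Not at hmT
      rw [F_val D1 hmT]
      exact hR

/-- TYPE (III): the other marks -/
theorem part_tr (hC : P.Cl) (hm : K.Min) {D : CuD K} {D1 : Sq1 K} (hP : D.Pt1 D1) {m : V}
    (ht : P.TopR D1.T m D.a D1.y) (F : K.I → Prop) {i0 : K.I} (ho : P.own D1.T i0)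
    (hmR : m ∈ D.R) : Tr1 D D1 hP.part P (CuD.mF P (fun i => F i ∧ i ≠ i0) (D.m1 P))
      (CuD.mF P (fun i => F i ∧ i ≠ i0) (D.m3 P)) where
  c1 := by
    rintro T ⟨⟨hR, d, hd⟩, i, ⟨-, hne⟩, hoi⟩
    have nT := nO hC ho hoi hne
    have hk := X.topR D1 hC hm ht hd nT
    refine ⟨nT, ⟨⟨D1.toF.F d, hk.1.2.2, ?_⟩, Or.inl ?_⟩, _, hk⟩
    · exact ((X.fold hC hm D1 _ _ ht).nab _ _ _ _ hk).symm
    · rw [F_val D1 nT]
      exact hR
  c3 := by
    rintro T ⟨⟨m2, hR, hd⟩, i, ⟨-, hne⟩, hoi⟩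
    have nT := nO hC ho hoi hne
    have hk := X.topR D1 hC hm ht hd nT
    have rm := K.ar_rk _ _ (D.R_ar _ hmR)
    have ra := D.ra
    have hm2 : ∀ g : H, m2 ≠ g • D1.T := by
      rintro g rfl
      have e1 := K.ar_smul g⁻¹ _ _ (D.R_ar _ hR)
      rw [inv_smul_smul] at e1
      rcases hC.sides ht e1 with e | e
      · rw [← e, K.rk_smul] at rm
        exact lt_irrefl _ rm
      · rw [← e, K.rk_smul] at ra
        exact lt_irrefl _ ra
    have har : D1.toF.gx.ar (D1.toF.F m2) (D1.toF.F D.v) := by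
      refine ⟨D.v, ?_, rfl⟩
      rw [F_val D1 hm2]
      exact D.R_ar _ hR
    refine ⟨nT, _, ⟨?_, Or.inl ?_⟩, hk⟩
    · by_contra hcon
      push Not at hcon
      exact ((X.fold hC hm D1 _ _ ht).hair (D1.toF.min hm) har hcon).2 _ _ hk.1.1.rot.rot.symm.rot.rot.rot
    · rw [F_val D1 hm2]
      exact hR

theorem side_mk (hC : P.Cl) (hm : K.Min) {D : CuD K} {D1 : Sq1 K} (hr : K.rk D.v < K.rk D1.T)
    {c : V} (ht : P.TopR D1.T D.v c D1.y) (hy : D1.y = D.a) (F : K.I → Prop) {i0 : K.I}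
    (ho : P.own D1.T i0) (np : ∀ h : H, h • D1.T ∈ D.R → h • D.a ≠ D.b) (hM : Mk D P F) :
    Mk (D.side D1 hr) (D1.flat.P45 P) (Fm D1 F i0) where
  rel := X.rel' hC hm ht hM (X.side_tr hC hm hr ht hy F ho np)
  np := by
    intro T hT j hj hoj h hh e
    have hs : Same D D1 (D.side D1 hr) := ⟨hr, rfl, rfl, rfl⟩
    obtain ⟨g, T0, d, h1, h2, h3, h4, -⟩ := X.back1 hC hm ht hs hM hT hj hoj
    have h5 : (h * g) • T0 ∈ D.R := by
      rw [mul_smul, ← h3]
      exact hh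
    have h6 := hM.np T0 h1 _ hj.1 h2 (h * g) h5
    rw [mul_smul, h4] at h6
    apply h6
    have e1 : h • D1.toF.F D.a = D1.toF.F D.b := e
    rw [← D1.toF.F_smul] at e1
    exact hs.inj (by rw [K.rk_smul]; exact hs.ra) hs.rb e1

theorem part_mk (hC : P.Cl) (hm : K.Min) {D : CuD K} {D1 : Sq1 K} (hP : D.Pt1 D1) {m : V}
    (ht : P.TopR D1.T m D.a D1.y) (F : K.I → Prop) {i0 : K.I} (ho : P.own D1.T i0)
    (hmR : m ∈ D.R) (hM : Mk D P F) : Mk hP.part (D1.flat.P45 P) (Fm D1 F i0) where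
  rel := X.rel' hC hm ht hM (X.part_tr hC hm hP ht F ho hmR)
  np := by
    intro T hT j hj hoj h hh e
    have hs : Same D D1 hP.part := ⟨hP.hr, rfl, rfl, rfl⟩
    obtain ⟨g, T0, d, h1, h2, h3, h4, h5⟩ := X.back1 hC hm ht hs hM hT hj hoj
    have e1 : h • D1.toF.F D.a = D1.toF.F D.b := e
    rw [← D1.toF.F_smul] at e1
    have e2 := hs.inj (by rw [K.rk_smul]; exact hs.ra) hs.rb e1
    obtain ⟨-, hR | ⟨k, k1, k2, k3⟩⟩ := hh
    · have h6 : (h * g) • T0 ∈ D.R := by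
        rw [mul_smul, ← h3]
        exact hR
      have h7 := hM.np T0 h1 _ hj.1 h2 (h * g) h6
      rw [mul_smul, h4] at h7
      exact h7 e2
    · have k4 : K.ar (h • T.1) (k • D1.T) := k3
      have h6 := h5.smul h
      rw [e2] at h6
      have rm := K.ar_rk _ _ (D.R_ar _ hmR)
      have rb := D.rb
      have rT := K.ar_rk _ _ ht.1.2.1
      have hE : K.E (k • D1.T) D.b := by
        rcases hC.sides h6 k4 with e | e
        · rw [e]
          exact h6.1.Ea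
        · rw [e]
          exact h6.1.Eb
      rcases hE with e | e
      · have e3 := K.ar_smul k⁻¹ _ _ e
        rw [inv_smul_smul] at e3
        rcases hC.sides ht e3 with e4 | e4
        · rw [← e4, K.rk_smul] at rm
          omega
        · rw [inv_smul_eq_iff] at e4
          rw [k2] at e4
          exact D.ab e4.symm
      · have := K.ar_rk _ _ e
        rw [K.rk_smul] at this
        omega

omit X in
/-- the marked tops, with and without the square `i0` -/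
theorem split {G : Type} [Group G] [MulAction G V] (F : K.I → Prop) (i0 : K.I) {A : Set V}
    (fA : FinOrb G A) (iA : ∀ (g : G), ∀ T ∈ A, g • T ∈ A)
    (io : ∀ (g : G) (T : V) (i : K.I), P.own T i → P.own (g • T) i) {x : V → ℕ}
    (hx : ∀ (g : G) T, x (g • T) = x T) :
    os G (CuD.mF P F A) x ≤ os G (CuD.mF P (fun i => F i ∧ i ≠ i0) A) x +
      os G {T | T ∈ A ∧ F i0 ∧ P.own T i0} x := by
  classical
  have f1 : FinOrb G (CuD.mF P (fun i => F i ∧ i ≠ i0) A) := P45.fin_mF _ _ fA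
  have f2 : FinOrb G {T | T ∈ A ∧ F i0 ∧ P.own T i0} := fA.mono fun _ h => h.1
  have e : CuD.mF P F A ⊆ CuD.mF P (fun i => F i ∧ i ≠ i0) A ∪
      {T | (T ∈ A ∧ F i0 ∧ P.own T i0) ∧ T ∉ CuD.mF P (fun i => F i ∧ i ≠ i0) A} := by
    rintro T ⟨hT, i, hi, ho⟩
    by_cases h : i = i0
    · subst h
      by_cases h' : T ∈ CuD.mF P (fun j => F j ∧ j ≠ i) A
      · exact Or.inl h'
      · exact Or.inr ⟨⟨hT, hi, ho⟩, h'⟩
    · exact Or.inl ⟨hT, i, ⟨hi, h⟩, ho⟩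
  have f3 : FinOrb G {T | (T ∈ A ∧ F i0 ∧ P.own T i0) ∧
      T ∉ CuD.mF P (fun i => F i ∧ i ≠ i0) A} := f2.mono fun _ h => h.1
  have i1 : ∀ (g : G), ∀ T ∈ CuD.mF P (fun i => F i ∧ i ≠ i0) A,
      g • T ∈ CuD.mF P (fun i => F i ∧ i ≠ i0) A := by
    rintro g T ⟨hT, i, hi, ho⟩
    exact ⟨iA g T hT, i, hi, io g T i ho⟩
  have f4 : FinOrb G (CuD.mF P (fun i => F i ∧ i ≠ i0) A ∪
      {T | (T ∈ A ∧ F i0 ∧ P.own T i0) ∧ T ∉ CuD.mF P (fun i => F i ∧ i ≠ i0) A}) :=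
    fA.mono (by
      rintro T (h | h)
      · exact h.1
      · exact h.1.1)
  refine (os_mono f4 e fun g p _ _ => hx g p).trans ?_
  rw [os_union f1 f3 i1 (fun p hp h => h.2 hp) hx]
  exact Nat.add_le_add_left (os_mono f2 (fun _ h => h.1) fun g p _ _ => hx g p) _

/-- THE MARKED FORM of the min-cut theorem, squares as marks -/
theorem marksF (Y : PmM H) (m : ℕ) : ∀ {V : Type} [MulAction H V] {K : GX H V} {P : P45 K},
    P.Cl → K.Min → P.nq = m → ∀ (D : CuD K) (F : K.I → Prop), Mk D P F →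
    ((os ↥(stabilizer H ((D.v, D.a) : V × V)) (CuD.mF P F (D.m1 P)) (fun T => P.xc T D.v) +
      os ↥(stabilizer H ((D.v, D.a) : V × V)) (CuD.mF P F (D.m3 P)) (fun T => P.xc T D.a) : ℕ) : ℤ)
      ≤ P.Phi D := by
  induction m using Nat.strong_induction_on with
  | _ m ih =>
  intro V _ K P hC hm hn D F hM
  have gv : ∀ g : ↥(stabilizer H ((D.v, D.a) : V × V)), (g : H) • D.v = D.v := fun g => congrArg Prod.fst g.2
  have ga : ∀ g : ↥(stabilizer H ((D.v, D.a) : V × V)), (g : H) • D.a = D.a := fun g => congrArg Prod.snd g.2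
  have i1 : ∀ (g : ↥(stabilizer H ((D.v, D.a) : V × V))), ∀ T ∈ D.m1 P, g • T ∈ D.m1 P := by
    rintro g T ⟨hR, c, hc⟩
    refine ⟨D.inv g.1 (gv g) (ga g) _ hR, g.1 • c, ?_⟩
    have := hc.smul g.1
    rw [gv, ga] at this
    exact this
  have i3 : ∀ (g : ↥(stabilizer H ((D.v, D.a) : V × V))), ∀ T ∈ D.m3 P, g • T ∈ D.m3 P := by
    rintro g T ⟨m, hR, hc⟩
    refine ⟨g.1 • m, D.inv g.1 (gv g) (ga g) _ hR, ?_⟩
    have := hc.smul g.1
    rw [gv, ga] at this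
    exact this
  have io : ∀ (g : ↥(stabilizer H ((D.v, D.a) : V × V))) (T : V) (i : K.I), P.own T i → P.own (g • T) i := fun g T i h =>
    (P45.own_smul g.1 T i).2 h
  have x1 : ∀ (g : ↥(stabilizer H ((D.v, D.a) : V × V))) T, P.xc (g • T) D.v = P.xc T D.v := by
    intro g T
    have := P45.xc_smul (P := P) g.1 T D.v
    rw [gv] at this
    exact this
  have x3 : ∀ (g : ↥(stabilizer H ((D.v, D.a) : V × V))) T, P.xc (g • T) D.a = P.xc T D.a := by
    intro g T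
    have := P45.xc_smul (P := P) g.1 T D.a
    rw [ga] at this
    exact this
  have f1 := P45.fin_m1 (P := P) D
  have f3 := P45.fin_m3 (P := P) D
  have ra := D.ra
  by_cases h1 : ∃ (i : K.I) (T : V), F i ∧ P.own T i ∧ T ∈ D.m1 P
  · -- (I)
    obtain ⟨i0, T, hF, hoT, hT⟩ := h1
    obtain ⟨hR, c, ht⟩ := id hT
    have hr : K.rk D.v < K.rk T := K.ar_rk _ _ (D.R_ar _ hR)
    have np := hM.np T hT i0 hF hoT
    have s1 := split (P := P) F i0 f1 i1 io (x := fun T => P.xc T D.v) x1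
    have s3 := split (P := P) F i0 f3 i3 io (x := fun T => P.xc T D.a) x3
    have hs : Same D (hC.s1 ht) (D.side (hC.s1 ht) hr) := ⟨hr, rfl, rfl, rfl⟩
    have tr := X.side_tr hC hm (D1 := hC.s1 ht) hr ht rfl F hoT np
    have c1 := Tr1.le X Y hC hm (D1 := hC.s1 ht) ht hs tr
    have c2 := ih _ (by rw [← hn]; exact P45.nq_fold (hC.s1 ht) ht)
      (X.fold hC hm (hC.s1 ht) _ _ ht) ((hC.s1 ht).toF.min hm) rfl (D.side (hC.s1 ht) hr)
      (Fm (hC.s1 ht) F i0) (X.side_mk hC hm (D1 := hC.s1 ht) hr ht rfl F hoT np hM)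
    have hw := X.wcs_fold hC hm (hC.s1 ht) ht (D.side (hC.s1 ht) hr)
    have two1 : 2 ≤ P.XW T D.v := X.two hC hm _ _ _ _ ht
    have two2 : 2 ≤ P.XW T c := X.two hC hm _ _ _ _ ht.symm'
    have hPhi : P.Phi D = K.wcs P.wq D.sv := rfl
    have b3 : os ↥(stabilizer H ((D.v, D.a) : V × V)) {T' | T' ∈ D.m3 P ∧ F i0 ∧ P.own T' i0} (fun T => P.xc T D.a) = 0 := by
      refine os_none ?_ _
      rintro T' ⟨⟨m, -, k⟩, -, ho'⟩
      obtain ⟨g, rfl⟩ := P45.own_orb ho' hoT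
      have e := hC.par _ _ _ _ _ _ _ k (ht.smul g)
      rw [e, K.rk_smul] at ra
      exact lt_irrefl _ ra
    have fB : FinOrb ↥(stabilizer H ((D.v, D.a) : V × V)) {T' | T' ∈ D.m1 P ∧ F i0 ∧ P.own T' i0} := f1.mono fun _ h => h.1
    -- the tops of the orbit
    have hB : ∀ T' ∈ {T' | T' ∈ D.m1 P ∧ F i0 ∧ P.own T' i0}, ∃ g : H, T' = g • T ∧ g • D.a = D.a ∧
        T' ∈ D.R ∧ (g • D.v = D.v ∨ g • c = D.v) := by
      rintro T' ⟨⟨hR', c', k⟩, -, ho'⟩
      obtain ⟨g, rfl⟩ := P45.own_orb ho' hoT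
      have k2 := ht.smul g
      refine ⟨g, rfl, (hC.par _ _ _ _ _ _ _ k k2).symm, hR', ?_⟩
      rcases hC.sides k2 k.1.2.1 with e | e
      · exact Or.inl e.symm
      · exact Or.inr e.symm
    by_cases hs1 : ∀ h : H, h • T ∈ D.R → Tr H T D.v (h • T) D.v
    · have st := X.sideOne hC hm D (hC.s1 ht) hr c ht.symm' hR rfl hs1
      rw [hw] at st
      have st' : ((hC.s1 ht).flat.P45 P).Phi (D.side (hC.s1 ht) hr) + P.XW T D.v - 2 ≤
        K.wcs P.wq D.sv := st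
      have b1 : os ↥(stabilizer H ((D.v, D.a) : V × V)) {T' | T' ∈ D.m1 P ∧ F i0 ∧ P.own T' i0} (fun T => P.xc T D.v) ≤
          P.xc T D.v := by
        refine os_orb fB ?_ x1
        intro T' hT'
        obtain ⟨g, e1, e2, e3, -⟩ := hB T' hT'
        rw [e1] at e3
        obtain ⟨k, k1, k2⟩ := hs1 g e3
        have k3 := (ht.smul k)
        rw [← k1] at k3
        have k4 := hC.par _ _ _ _ _ _ _ k3 (ht.smul g)
        rw [e2] at k4
        exact ⟨⟨k, Prod.ext k2.symm k4⟩, by rw [e1, k1]; rfl⟩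
      have x : (P.xc T D.v : ℤ) = P.XW T D.v - 2 := by
        unfold P45.xc
        rw [Int.toNat_of_nonneg (by omega)]
      omega
    · push Not at hs1
      obtain ⟨h, e1, e2⟩ := hs1
      have e3 : h • c = D.v := by
        have k := K.ar_smul h⁻¹ _ _ (D.R_ar _ e1)
        rw [inv_smul_smul] at k
        rcases hC.sides ht k with e | e
        · exfalso
          apply e2
          refine ⟨h, rfl, ?_⟩
          rw [inv_smul_eq_iff] at e
          exact e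
        · rw [← e, smul_inv_smul]
      have ea : h • D.a = D.a := by
        have k := (ht.smul h)
        rw [e3] at k
        have hE := k.1.Eb
        rcases hE with e | e
        · rcases K.two _ _ _ _ D.va D.vb e with e' | e' | e'
          · exact absurd e' D.ab
          · exact absurd e'.symm (np h e1)
          · exact e'.symm
        · have := K.ar_rk _ _ e
          rw [K.rk_smul] at this
          omega
      have hTr : ¬ Tr H T D.v T c := by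
        rintro ⟨g, g1, g2⟩
        apply e2
        refine ⟨h * g, ?_, ?_⟩
        · rw [mul_smul, ← g1]
        · rw [mul_smul, ← g2, e3]
      have st := X.sideTwo hC hm D (hC.s1 ht) hr c ht.symm' hR rfl h e3 e1 ea hTr
      rw [hw] at st
      have st' : ((hC.s1 ht).flat.P45 P).Phi (D.side (hC.s1 ht) hr) + P.XW T D.v + P.XW T c - 4 ≤
        K.wcs P.wq D.sv := st
      have b1 : os ↥(stabilizer H ((D.v, D.a) : V × V)) {T' | T' ∈ D.m1 P ∧ F i0 ∧ P.own T' i0} (fun T => P.xc T D.v) ≤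
          P.xc T D.v + P.xc (h • T) D.v := by
        refine os_orb2 fB ?_ ?_ x1
        · rintro g T' ⟨k1, k2, k3⟩
          exact ⟨i1 g _ k1, k2, io g _ _ k3⟩
        · intro T' hT'
          obtain ⟨g, k1, k2, -, k3 | k3⟩ := hB T' hT'
          · exact Or.inl ⟨⟨g, Prod.ext k3 k2⟩, k1⟩
          · right
            refine ⟨⟨g * h⁻¹, Prod.ext ?_ ?_⟩, ?_⟩
            · show (g * h⁻¹) • D.v = D.v
              rw [mul_smul, ← e3, inv_smul_smul, k3, e3]
            · show (g * h⁻¹) • D.a = D.a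
              rw [mul_smul, inv_smul_eq_iff.2 ea.symm, k2]
            · show T' = (g * h⁻¹) • h • T
              rw [mul_smul, inv_smul_smul, k1]
      have x : (P.xc T D.v : ℤ) = P.XW T D.v - 2 := by
        unfold P45.xc
        rw [Int.toNat_of_nonneg (by omega)]
      have xh : P.xc (h • T) D.v = P.xc T c := by
        rw [← e3]
        exact P45.xc_smul h T c
      have x' : (P.xc T c : ℤ) = P.XW T c - 2 := by
        unfold P45.xc
        rw [Int.toNat_of_nonneg (by omega)]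
      omega
  · by_cases h3 : ∃ (i : K.I) (T : V), F i ∧ P.own T i ∧ T ∈ D.m3 P
    · -- (III)
      obtain ⟨i0, T, hF, hoT, m, hR, ht⟩ := h3
      have hP : D.Pt1 (hC.s1 ht) := ⟨rfl, fun p hp => by
        rcases hC.sides ht hp with rfl | rfl
        · exact Or.inl hR
        · exact Or.inr rfl, ⟨m, ht.1.2.1, hR⟩⟩
      have s1 := split (P := P) F i0 f1 i1 io (x := fun T => P.xc T D.v) x1
      have s3 := split (P := P) F i0 f3 i3 io (x := fun T => P.xc T D.a) x3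
      have hs : Same D (hC.s1 ht) hP.part := ⟨hP.hr, rfl, rfl, rfl⟩
      have tr := X.part_tr hC hm hP ht F hoT hR
      have c1 := Tr1.le X Y hC hm (D1 := hC.s1 ht) ht hs tr
      have c2 := ih _ (by rw [← hn]; exact P45.nq_fold (hC.s1 ht) ht)
        (X.fold hC hm (hC.s1 ht) _ _ ht) ((hC.s1 ht).toF.min hm) rfl hP.part
        (Fm (hC.s1 ht) F i0) (X.part_mk hC hm hP ht F hoT hR hM)
      have st : P.Phi D = ((hC.s1 ht).flat.P45 P).Phi hP.part + (P.XW T D.a - 2) :=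
        (X.part hC hm D (hC.s1 ht) hP ht).1 ht.1.2.2
      have two : 2 ≤ P.XW T D.a := X.two hC hm _ _ _ _ ht.symm'
      have b1 : os ↥(stabilizer H ((D.v, D.a) : V × V)) {T' | T' ∈ D.m1 P ∧ F i0 ∧ P.own T' i0} (fun T => P.xc T D.v) = 0 := by
        refine os_none ?_ _
        rintro T' ⟨k, k1, k2⟩
        exact h1 ⟨i0, T', k1, k2, k⟩
      have b3 : os ↥(stabilizer H ((D.v, D.a) : V × V)) {T' | T' ∈ D.m3 P ∧ F i0 ∧ P.own T' i0} (fun T => P.xc T D.a) ≤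
          P.xc T D.a := by
        refine os_orb (f3.mono fun _ h => h.1) ?_ x3
        rintro T' ⟨⟨m', hR', k⟩, -, ho'⟩
        obtain ⟨g, rfl⟩ := P45.own_orb ho' hoT
        have k2 := ht.smul g
        have e1 : g • D.v = D.v := (hC.par _ _ _ _ _ _ _ k2 k)
        have rm := K.ar_rk _ _ (D.R_ar _ hR)
        have e2 : g • D.a = D.a := by
          rcases hC.sides k2 k.1.2.2 with e | e
          · rw [e, K.rk_smul] at ra
            omega
          · exact e.symm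
        exact ⟨⟨g, Prod.ext e1 e2⟩, rfl⟩
      have x : (P.xc T D.a : ℤ) = P.XW T D.a - 2 := by
        unfold P45.xc
        rw [Int.toNat_of_nonneg (by omega)]
      omega
    · have e1 : os ↥(stabilizer H ((D.v, D.a) : V × V)) (CuD.mF P F (D.m1 P)) (fun T => P.xc T D.v) = 0 :=
        os_none (by
          rintro T ⟨k, i, k1, k2⟩
          exact h1 ⟨i, T, k1, k2, k⟩) _
      have e3 : os ↥(stabilizer H ((D.v, D.a) : V × V)) (CuD.mF P F (D.m3 P)) (fun T => P.xc T D.a) = 0 :=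
        os_none (by
          rintro T ⟨k, i, k1, k2⟩
          exact h3 ⟨i, T, k1, k2, k⟩) _
      rw [e1, e3]
      exact X.pmc hC hm D

/-- THE MARKED FORM of the min-cut theorem -/
theorem marks (Y : PmM H) (hC : P.Cl) (hm : K.Min) (D : CuD K)
    (np : ∀ T ∈ D.m1 P, ∀ h : H, h • T ∈ D.R → h • D.a ≠ D.b) :
    ((os ↥(stabilizer H ((D.v, D.a) : V × V)) (D.m1 P) (fun T => P.xc T D.v) +
      os ↥(stabilizer H ((D.v, D.a) : V × V)) (D.m3 P) (fun T => P.xc T D.a) : ℕ) : ℤ) ≤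
      K.wcs P.wq D.sv := by
  have h := X.marksF Y _ hC hm rfl D (fun i => ∃ T, P.own T i ∧ (T ∈ D.m1 P ∨ T ∈ D.m3 P))
    ⟨fun i hi => hi, fun T hT i _ _ h hh => np T hT h hh⟩
  have e1 : CuD.mF P (fun i => ∃ T, P.own T i ∧ (T ∈ D.m1 P ∨ T ∈ D.m3 P)) (D.m1 P) = D.m1 P := by
    ext T
    refine ⟨fun k => k.1, fun k => ?_⟩
    obtain ⟨-, c, hc⟩ := id k
    obtain ⟨i, hi⟩ := P45.Cl.own_ex hc
    exact ⟨k, i, ⟨T, hi, Or.inl k⟩, hi⟩
  have e3 : CuD.mF P (fun i => ∃ T, P.own T i ∧ (T ∈ D.m1 P ∨ T ∈ D.m3 P)) (D.m3 P) = D.m3 P := by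
    ext T
    refine ⟨fun k => k.1, fun k => ?_⟩
    obtain ⟨m, -, hc⟩ := id k
    obtain ⟨i, hi⟩ := P45.Cl.own_ex hc
    exact ⟨k, i, ⟨T, hi, Or.inr k⟩, hi⟩
  rw [e1, e3] at h
  exact h

end PmH

end Pool.Agent.DI
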