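import Pool.Agent.DI.PmT
import Pool.Agent.DI.PmJ

/-!
# DI/PmV: the marked min-cut in a state

`P45.SqT.marks`: `PmH.marks` (DI/PmJ) for the squares of a state, in the form which `SqT.pmF` (DI/PmT) uses;
`P45.SqT.pmP`: the static minimal cut `P.PmP` for all sets with `P.PmS`.
-/

namespace Pool.Agent.DI

open MulAction
open Pool.Agent.SAF (InC orbs FinOrb oc FinOrb_iff)

variable {H V : Type} [Group H] [MulAction H V]

namespace P45

variable {K : GX H V} {P : P45 K}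

/-- THE MARKED MINIMAL CUT IN A STATE -/
theorem SqT.marks (X : PmH H) (Y : PmM H) (hs : P.SqT) (hC : P.Cl) (hm : K.Min)
    (hx : ∀ T a b y, P.Top T a b y → P.XW T a = 2 * (P.X T a : ℕ)) (D : CuD K)
    (np : ∀ T c, T ∈ D.R → ¬ P.Top T D.v c D.b) :
    2 * ((os ↥(stabilizer H (D.v, D.a)) (P.t1 D.v D.a D.R) (fun p => P.X p.1 p.2 - 1) : ℕ) +
        (os ↥(stabilizer H (D.v, D.a)) (P.t3 D.v D.a D.R) (fun p => P.X p.1 D.a - 1) : ℕ) : ℤ)
      ≤ K.wcs P.wq D.sv := by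
  have tr : ∀ {T a b y : V}, P.Top T a b y → P.TopR T a b y := fun h => hs.TopR h (fun k => k)
  have ga : ∀ g : ↥(stabilizer H ((D.v, D.a) : V × V)), (g : H) • D.a = D.a := fun g =>
    congrArg Prod.snd g.2
  have gv : ∀ g : ↥(stabilizer H ((D.v, D.a) : V × V)), (g : H) • D.v = D.v := fun g =>
    congrArg Prod.fst g.2
  have h := X.marks Y hC hm D (fun T hT h hR e => by
    obtain ⟨hR', c, hc⟩ := hT
    have k := hc.smul h
    rw [e] at k
    rcases hC.sides k (D.R_ar _ hR) with e' | e'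
    · rw [← e'] at k
      exact np _ _ hR k.1
    · rw [← e'] at k
      exact np _ _ hR k.1.symm')
  have f1 := fin_t1 (P := P) (Y := D.R) D.va
  have f3 := fin_t3 (P := P) D.va D.R_ar
  have h1 : os ↥(stabilizer H (D.v, D.a)) (P.t1 D.v D.a D.R) (fun p => 2 * (P.X p.1 p.2 - 1)) ≤
      os ↥(stabilizer H ((D.v, D.a) : V × V)) (D.m1 P) (fun T => P.xc T D.v) := by
    refine os_le_map f1 (P45.fin_m1 (P := P) D) ?_ (fun p => p.1) ?_ ?_ ?_
    · intro g p _ _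
      have k := P45.xc_smul (P := P) g.1 p D.v
      rw [gv] at k
      exact k
    · rintro ⟨T, n⟩ ⟨k1, k2, b, k3⟩
      have k2 : n = D.v := k2
      subst k2
      exact ⟨k1, b, tr k3⟩
    · rintro ⟨T, n⟩ ⟨-, k2, -⟩ ⟨T', n'⟩ ⟨-, k2', -⟩ ⟨g, e⟩
      have k2 : n = D.v := k2
      have k2' : n' = D.v := k2'
      refine ⟨g, Prod.ext e ?_⟩
      show (g : H) • n = n'
      rw [k2, k2', gv]
    · rintro ⟨T, n⟩ ⟨k1, k2, b, k3⟩
      have k2 : n = D.v := k2
      subst k2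
      have e : P.XW T D.v = 2 * (P.X T D.v : ℕ) := hx _ _ _ _ k3
      show 2 * (P.X T D.v - 1) ≤ (P.XW T D.v - 2).toNat
      rw [e]
      omega
  have h3 : os ↥(stabilizer H (D.v, D.a)) (P.t3 D.v D.a D.R) (fun p => 2 * (P.X p.1 D.a - 1)) ≤
      os ↥(stabilizer H ((D.v, D.a) : V × V)) (D.m3 P) (fun T => P.xc T D.a) := by
    refine os_le_map f3 (P45.fin_m3 (P := P) D) ?_ (fun p => p.1) ?_ ?_ ?_
    · intro g p _ _
      have k := P45.xc_smul (P := P) g.1 p D.a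
      rw [ga] at k
      exact k
    · rintro ⟨T, m⟩ ⟨k1, k2⟩
      exact ⟨m, k1, tr k2⟩
    · rintro ⟨T, m⟩ ⟨k1, k2⟩ ⟨T', m'⟩ ⟨k1', k2'⟩ ⟨g, e⟩
      have e : g • T = T' := e
      refine ⟨g, Prod.ext e ?_⟩
      show (g : H) • m = m'
      have k := (tr k2).smul g.1
      rw [ga, gv] at k
      have e1 : g.1 • T = T' := e
      rw [e1] at k
      rcases hC.sides k (tr k2').1.2.1 with e' | e'
      · exact e'.symm
      · exact absurd e'.symm (hC.nab _ _ _ _ (tr k2')).symm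
    · rintro ⟨T, m⟩ ⟨k1, k2⟩
      have e : P.XW T D.a = 2 * (P.X T D.a : ℕ) := hx _ _ _ _ k2.symm'
      show 2 * (P.X T D.a - 1) ≤ (P.XW T D.a - 2).toNat
      rw [e]
      omega
  rw [os_mul f1] at h1
  rw [os_mul f3] at h3
  have e : (2 : ℤ) * ((os ↥(stabilizer H (D.v, D.a)) (P.t1 D.v D.a D.R)
      (fun p => P.X p.1 p.2 - 1) : ℕ) +
        (os ↥(stabilizer H (D.v, D.a)) (P.t3 D.v D.a D.R) (fun p => P.X p.1 D.a - 1) : ℕ) : ℤ) ≤
      ((os ↥(stabilizer H ((D.v, D.a) : V × V)) (D.m1 P) (fun T => P.xc T D.v) +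
      os ↥(stabilizer H ((D.v, D.a) : V × V)) (D.m3 P) (fun T => P.xc T D.a) : ℕ) : ℤ) := by
    push_cast
    omega
  exact e.trans h

/-- THE STATIC MINIMAL CUT -/
theorem SqT.pmP (X : PmH H) (Y : PmM H) (hs : P.SqT) (hC : P.Cl) (hm : K.Min)
    (hx : ∀ T a b y, P.Top T a b y → P.XW T a = 2 * (P.X T a : ℕ)) {n x : V} {Z : Set V}
    (h : P.PmS n x Z) : P.PmP n x Z :=
  hs.pmF (hC.nhr hm) (fun T a b y ht => by
    have h1 := X.two hC hm _ _ _ _ (hs.TopR ht (fun k => k))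
    have h2 := hx _ _ _ _ ht
    omega) (fun D np => hs.marks X Y hC hm hx D np) h

/-- the numbers of strands `P.X` satisfy the conditions `P.FX` -/
theorem SqT.fx (X : PmH H) (hs : P.SqT) (hC : P.Cl) (hm : K.Min)
    (hx : ∀ T a b y, P.Top T a b y → P.XW T a = 2 * (P.X T a : ℕ)) : P.FX P.X where
  inv g T a := X_smul g T a
  one p hp := by
    have : ∃ b y, P.Top p.1 p.2 b y := by
      rcases hp with ⟨b, y, h, -⟩ | ⟨b, y, h, -⟩
      · exact ⟨b, y, h⟩
      · exact ⟨b, y, h⟩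
    obtain ⟨b, y, h⟩ := this
    have h1 := X.two hC hm _ _ _ _ (hs.TopR h (fun k => k))
    have h2 := hx _ _ _ _ h
    omega
  gam T a b y h _ := by
    have h1 := hx _ _ _ _ h
    have h2 := hx _ _ _ _ h.symm'
    have h3 := X.cor1 hC hm h.2.1 h.2.2
    omega

end P45

end Pool.Agent.DI
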