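import Pool.Agent.DI.ClC
import Pool.Agent.DI.PmO
import Pool.Agent.DI.PmX
import Pool.Agent.DI.PmV

/-!
# DI/PmY: the min-cut theorem, glued

`pmH : PmH H`, `pmM : PmM H`: the step lemmas of DI/PmI, DI/PmJ hold (folds: DI/ClB, hairs: DI/PmN, strands: DI/PmX,
side steps: DI/PmO, monotonicity: DI/ClC). `P45.Cl.pmc`, `P45.Cl.marks`: PMC and its marked form for the class.
`P45.SqT.pm`, `P45.SqT.FX`: the static minimal cut in a state.
-/

namespace Pool.Agent.DI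

open MulAction

variable {H : Type} [Group H]

/-- THE STEP LEMMAS of the min-cut theorem -/
theorem pmH : PmH H where
  fold hC hm D1 a b ht := hC.fold1 hm ht
  bt hC hm D1 a b ht i := hC.Bt_own hm ht i
  wqf hC hm D1 a b ht j := hC.wq1 hm ht j
  nhr hC hm := hC.nhr hm
  two hC hm T a b y ht := hC.two ht
  side0 hC hm D D1 hr c ht _ hy hb := CuD.side_zero hC hr ht (hC.Bt_own hm ht.symm') hy hb
  sideOne hC hm D D1 hr c ht hT hy h1 := CuD.side_one hC hm hr ht (hC.Bt_own hm ht) hT hy h1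
  sideTwo hC hm D D1 hr c ht hT hy h hc hR ha hn :=
    CuD.side_two hC hm hr ht (hC.Bt_own hm ht) hT hy hc hR ha hn
  sideT hC hm D D1 hr c ht hT hy h hc hR ha :=
    CuD.side_t hC hm hr ht (hC.Bt_own hm ht) hT hy hc hR ha

/-- THE STEP LEMMA of the marked form -/
theorem pmM : PmM H where
  mono hC hm D1 a b ht T c d z k hT := hC.mono hm ht (fun c d k' => hC.two k') k.1.2.1 hT

namespace P45

variable {V : Type} [MulAction H V] {K : GX H V} {P : P45 K}

/-- THE MIN-CUT THEOREM -/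
theorem Cl.pmcY (hC : P.Cl) (hm : K.Min) : P.PMC := fun D => pmH.pmc hC hm D

/-- the strands at the two arrows of a top -/
theorem Cl.cor1Y (hC : P.Cl) (hm : K.Min) {s a b : V} (ha : K.ar s a) (hb : K.ar s b) :
    P.XW s a = P.XW s b := pmH.cor1 hC hm ha hb

/-- THE MARKED MIN-CUT THEOREM -/
theorem Cl.marks (hC : P.Cl) (hm : K.Min) (D : CuD K)
    (np : ∀ T ∈ D.m1 P, ∀ h : H, h • T ∈ D.R → h • D.a ≠ D.b) :
    ((os ↥(stabilizer H ((D.v, D.a) : V × V)) (D.m1 P) (fun T => P.xc T D.v) +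
      os ↥(stabilizer H ((D.v, D.a) : V × V)) (D.m3 P) (fun T => P.xc T D.a) : ℕ) : ℤ) ≤
      K.wcs P.wq D.sv := pmH.marks pmM hC hm D np

/-- THE STATIC MINIMAL CUT, in a state -/
theorem SqT.pm (hs : P.SqT) (hm : K.Min) (h1 : ∀ T a b y, P.Top T a b y → 1 ≤ P.X T a) {n x : V}
    {Z : Set V} (h : P.PmS n x Z) : P.PmP n x Z :=
  hs.pmP pmH pmM (hs.cl h1) hm (fun _ _ _ _ k => hs.XW_eq k) h

theorem SqT.FX (hs : P.SqT) (hm : K.Min) (h1 : ∀ T a b y, P.Top T a b y → 1 ≤ P.X T a) :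
    P.FX P.X :=
  hs.fx pmH (hs.cl h1) hm (fun _ _ _ _ k => hs.XW_eq k)

end P45

end Pool.Agent.DI
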