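import Pool.Agent.DI.SqFb
import Pool.Agent.DI.CuS
import Pool.Agent.DI.TFo2

/-!
# DI/SqC: corners under a partial fold

`K.wcs w F`: the sum over all positions `p` of `K.cr` of `w` (cell of `p`) times `F` (corner at `p`).
`Flat.wcs_eq`: the sum over the corners of the fold is the sum over the corners of `K` of the pulled
back function, minus the terms of the squares which are dropped.
-/

namespace Pool.Agent.DI

open MulAction
open Pool.Agent.SAF (InC orbs FinOrb oc)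

variable {H V : Type} [Group H] [MulAction H V]

namespace GX

variable (K : GX H V)

/-- the weighted sum over the corners -/
noncomputable def wcs (w : K.I → ℤ) (F : V → V → V → ℤ) : ℤ := ∑ i, w i * K.ccs i F

theorem wcs_one (F : V → V → V → ℤ) : K.wcs (fun _ => 1) F = K.cr.cs F := by
  rw [wcs, K.cs_eq]
  exact Finset.sum_congr rfl fun i _ => one_mul _

theorem ccs_add (i : K.I) (F G : V → V → V → ℤ) :
    K.ccs i (fun x y z => F x y z + G x y z) = K.ccs i F + K.ccs i G := Finset.sum_add_distrib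

theorem ccs_sub (i : K.I) (F G : V → V → V → ℤ) :
    K.ccs i (fun x y z => F x y z - G x y z) = K.ccs i F - K.ccs i G :=
  Finset.sum_sub_distrib _ _

theorem ccs_mul (i : K.I) (c : ℤ) (F : V → V → V → ℤ) :
    K.ccs i (fun x y z => c * F x y z) = c * K.ccs i F := (Finset.mul_sum _ _ _).symm

theorem ccs_congr (i : K.I) {F G : V → V → V → ℤ}
    (h : ∀ j : ℕ, F (K.vx i j) (K.vx i (j + 1)) (K.vx i (j + 2)) =
      G (K.vx i j) (K.vx i (j + 1)) (K.vx i (j + 2))) : K.ccs i F = K.ccs i G :=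
  Finset.sum_congr rfl fun j _ => h j

theorem ccs_nonneg (i : K.I) {F : V → V → V → ℤ}
    (h : ∀ j : ℕ, 0 ≤ F (K.vx i j) (K.vx i (j + 1)) (K.vx i (j + 2))) : 0 ≤ K.ccs i F :=
  Finset.sum_nonneg fun j _ => h j

theorem ccs_mono (i : K.I) {F G : V → V → V → ℤ}
    (h : ∀ j : ℕ, F (K.vx i j) (K.vx i (j + 1)) (K.vx i (j + 2)) ≤
      G (K.vx i j) (K.vx i (j + 1)) (K.vx i (j + 2))) : K.ccs i F ≤ K.ccs i G :=
  Finset.sum_le_sum fun j _ => h j

theorem wcs_add (w : K.I → ℤ) (F G : V → V → V → ℤ) :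
    K.wcs w (fun x y z => F x y z + G x y z) = K.wcs w F + K.wcs w G := by
  unfold wcs
  rw [← Finset.sum_add_distrib]
  refine Finset.sum_congr rfl fun i _ => ?_
  rw [K.ccs_add, mul_add]

theorem wcs_sub (w : K.I → ℤ) (F G : V → V → V → ℤ) :
    K.wcs w (fun x y z => F x y z - G x y z) = K.wcs w F - K.wcs w G := by
  unfold wcs
  rw [← Finset.sum_sub_distrib]
  refine Finset.sum_congr rfl fun i _ => ?_
  rw [K.ccs_sub, mul_sub]

theorem wcs_mul (w : K.I → ℤ) (c : ℤ) (F : V → V → V → ℤ) :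
    K.wcs w (fun x y z => c * F x y z) = c * K.wcs w F := by
  unfold wcs
  rw [Finset.mul_sum]
  refine Finset.sum_congr rfl fun i _ => ?_
  rw [K.ccs_mul]
  ring

theorem wcs_zero (w : K.I → ℤ) : K.wcs w (fun _ _ _ => 0) = 0 := by
  unfold wcs
  refine Finset.sum_eq_zero fun i _ => ?_
  rw [ccs, Finset.sum_const_zero, mul_zero]

theorem wcs_congr (w : K.I → ℤ) {F G : V → V → V → ℤ}
    (h : ∀ (i : K.I) (j : ℕ), F (K.vx i j) (K.vx i (j + 1)) (K.vx i (j + 2)) =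
      G (K.vx i j) (K.vx i (j + 1)) (K.vx i (j + 2))) : K.wcs w F = K.wcs w G :=
  Finset.sum_congr rfl fun i _ => by rw [K.ccs_congr i (h i)]

theorem wcs_mono (w : K.I → ℤ) (hw : ∀ i, 0 ≤ w i) {F G : V → V → V → ℤ}
    (h : ∀ (i : K.I) (j : ℕ), F (K.vx i j) (K.vx i (j + 1)) (K.vx i (j + 2)) ≤
      G (K.vx i j) (K.vx i (j + 1)) (K.vx i (j + 2))) : K.wcs w F ≤ K.wcs w G :=
  Finset.sum_le_sum fun i _ => mul_le_mul_of_nonneg_left (K.ccs_mono i (h i)) (hw i)

theorem wcs_nonneg (w : K.I → ℤ) (hw : ∀ i, 0 ≤ w i) {F : V → V → V → ℤ}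
    (h : ∀ (i : K.I) (j : ℕ), 0 ≤ F (K.vx i j) (K.vx i (j + 1)) (K.vx i (j + 2))) :
    0 ≤ K.wcs w F :=
  Finset.sum_nonneg fun i _ => mul_nonneg (hw i) (K.ccs_nonneg i (h i))

/-- the reversed corners -/
theorem ccs_shift (i : K.I) (f : V → V → ℤ) :
    K.ccs i (fun x y _ => f x y) = K.ccs i (fun _ y z => f y z) := by
  have h := Equiv.sum_comp (finRotate (K.len i)) (fun j => f (K.vx i j) (K.vx i (j + 1)))
  unfold ccs
  rw [← h]
  refine Finset.sum_congr rfl fun j _ => ?_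
  have e0 := K.vx_nxt ⟨i, j⟩ 0
  have e1 := K.vx_nxt ⟨i, j⟩ 1
  have e0' : K.vx i ((finRotate (K.len i) j : Fin (K.len i)) : ℕ) = K.vx i (j + 1) := e0
  have e1' : K.vx i (((finRotate (K.len i) j : Fin (K.len i)) : ℕ) + 1) = K.vx i (j + 2) := e1
  rw [e0', e1']

theorem wcs_shift (w : K.I → ℤ) (f : V → V → ℤ) :
    K.wcs w (fun x y _ => f x y) = K.wcs w (fun _ y z => f y z) :=
  Finset.sum_congr rfl fun i _ => by rw [K.ccs_shift i f]

end GX

namespace P45

variable {K : GX H V} (P : P45 K)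

/-- the corners of a square -/
theorem ccs4 {i : K.I} (hi : P.sq i) (F : V → V → V → ℤ) : K.ccs i F =
    ∑ j : Fin 4, F (P.qt i j) (P.qt i (j + 1)) (P.qt i (j + 2)) := by
  have h : ∀ (n : ℕ), n = 4 → ∑ j : Fin n, F (K.vx i j) (K.vx i (j + 1)) (K.vx i (j + 2)) =
      ∑ j : Fin 4, F (K.vx i j) (K.vx i (j + 1)) (K.vx i (j + 2)) := by
    rintro n rfl
    rfl
  unfold GX.ccs
  rw [h _ (P.tlen4 hi)]
  refine Finset.sum_congr rfl fun j _ => ?_
  rw [P.tvx4 hi, P.tvx4 hi, P.tvx4 hi]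
  fin_cases j <;> rfl

/-- the corners of a pentagon -/
theorem ccs5 {i : K.I} (hi : ¬ P.sq i) (F : V → V → V → ℤ) : K.ccs i F =
    ∑ j : Fin 5, F (P.pt i j) (P.pt i (j + 1)) (P.pt i (j + 2)) := by
  have h : ∀ (n : ℕ), n = 5 → ∑ j : Fin n, F (K.vx i j) (K.vx i (j + 1)) (K.vx i (j + 2)) =
      ∑ j : Fin 5, F (K.vx i j) (K.vx i (j + 1)) (K.vx i (j + 2)) := by
    rintro n rfl
    rfl
  unfold GX.ccs
  rw [h _ (P.tlen5 hi)]
  refine Finset.sum_congr rfl fun j _ => ?_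
  rw [P.tvx5 hi, P.tvx5 hi, P.tvx5 hi]
  fin_cases j <;> rfl

end P45

namespace SqF

variable {K : GX H V} {D : SqF K}

theorem Flat.vx (hF : D.Flat) (P : Pool.Agent.DI.P45 K) (j : D.gx.I) (k : ℕ) :
    D.gx.vx j k = D.F (K.vx j.1 k) := by
  by_cases hj : P.sq j.1
  · rw [(hF.P45 P).tvx4 (i := j) hj, P.tvx4 hj]
    rfl
  · rw [(hF.P45 P).tvx5 (i := j) hj, P.tvx5 hj]
    rfl

theorem Flat.len (hF : D.Flat) (P : Pool.Agent.DI.P45 K) (j : D.gx.I) :
    D.gx.len j = K.len j.1 := by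
  by_cases hj : P.sq j.1
  · rw [(hF.P45 P).tlen4 (i := j) hj, P.tlen4 hj]
  · rw [(hF.P45 P).tlen5 (i := j) hj, P.tlen5 hj]

theorem Flat.ccs (hF : D.Flat) (P : Pool.Agent.DI.P45 K) (j : D.gx.I)
    (F' : D.W → D.W → D.W → ℤ) :
    D.gx.ccs j F' = K.ccs j.1 (fun x y z => F' (D.F x) (D.F y) (D.F z)) := by
  by_cases hj : P.sq j.1
  · rw [(hF.P45 P).ccs4 (i := j) hj, P.ccs4 hj]
    rfl
  · rw [(hF.P45 P).ccs5 (i := j) hj, P.ccs5 hj]
    rfl

open Classical in
/-- DICTIONARY: the corners of the fold, as a sum over the kept cells -/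
theorem Flat.wcs_if (hF : D.Flat) (P : Pool.Agent.DI.P45 K) (w : K.I → ℤ)
    (F' : D.W → D.W → D.W → ℤ) :
    D.gx.wcs (fun j => w j.1) F' = ∑ i : K.I, if D.Bt i then 0 else
      w i * K.ccs i (fun x y z => F' (D.F x) (D.F y) (D.F z)) := by
  set G : V → V → V → ℤ := fun x y z => F' (D.F x) (D.F y) (D.F z) with hG
  have h1 : D.gx.wcs (fun j => w j.1) F' = ∑ j : D.gx.I, w j.1 * K.ccs j.1 G :=
    Finset.sum_congr rfl fun j _ => by rw [hF.ccs P j F']
  have h6 : ∀ (I J : Fintype {i : K.I // ¬ D.Bt i}) (f : {i : K.I // ¬ D.Bt i} → ℤ),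
      (@Finset.sum _ _ _ (@Finset.univ _ I) f) = @Finset.sum _ _ _ (@Finset.univ _ J) f := by
    intro I J f
    rw [Subsingleton.elim I J]
  have h5 : ∑ j : D.gx.I, w j.1 * K.ccs j.1 G =
      ∑ j : {i : K.I // ¬ D.Bt i}, w j.1 * K.ccs j.1 G := h6 _ _ _
  have h4 : ∑ j : {i : K.I // ¬ D.Bt i}, w j.1 * K.ccs j.1 G =
      ∑ i ∈ (Finset.univ : Finset K.I).filter (fun i => ¬ D.Bt i), w i * K.ccs i G := by
    rw [Finset.sum_subtype ((Finset.univ : Finset K.I).filter (fun i => ¬ D.Bt i))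
      (p := fun i => ¬ D.Bt i) (fun i => by simp) (fun i => w i * K.ccs i G)]
  rw [h1, h5, h4, Finset.sum_filter]
  refine Finset.sum_congr rfl fun i _ => ?_
  by_cases h : D.Bt i
  · rw [if_pos h, if_neg (not_not.2 h)]
  · rw [if_neg h, if_pos h]

open Classical in
/-- DICTIONARY: the corners of the fold -/
theorem Flat.wcs_eq (hF : D.Flat) (P : Pool.Agent.DI.P45 K) (w : K.I → ℤ)
    (F' : D.W → D.W → D.W → ℤ) :
    D.gx.wcs (fun j => w j.1) F' = K.wcs w (fun x y z => F' (D.F x) (D.F y) (D.F z)) -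
      ∑ i : K.I, if D.Bt i then w i * K.ccs i (fun x y z => F' (D.F x) (D.F y) (D.F z)) else 0 := by
  rw [hF.wcs_if P w F']
  unfold GX.wcs
  rw [← Finset.sum_sub_distrib]
  refine Finset.sum_congr rfl fun i _ => ?_
  by_cases h : D.Bt i
  · rw [if_pos h, if_pos h, sub_self]
  · rw [if_neg h, if_neg h, sub_zero]

/-- DICTIONARY, only one square is dropped -/
theorem Flat.wcs_one (hF : D.Flat) (P : Pool.Agent.DI.P45 K) (w : K.I → ℤ)
    (F' : D.W → D.W → D.W → ℤ) (i0 : K.I) (hi : ∀ i, D.Bt i ↔ i = i0) :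
    D.gx.wcs (fun j => w j.1) F' = K.wcs w (fun x y z => F' (D.F x) (D.F y) (D.F z)) -
      w i0 * K.ccs i0 (fun x y z => F' (D.F x) (D.F y) (D.F z)) := by
  classical
  rw [hF.wcs_eq P w F']
  congr 1
  rw [Finset.sum_eq_single i0]
  · rw [if_pos ((hi i0).2 rfl)]
  · intro i _ h
    rw [if_neg (fun k => h ((hi i).1 k))]
  · intro h
    exact absurd (Finset.mem_univ _) h

/-- the numbers of the corners of pentagons -/
theorem Flat.rcn_eq (hF : D.Flat) (P : Pool.Agent.DI.P45 K) (F' : D.W → D.W → D.W → Prop)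
    (G : PG K) (G' : PG D.gx) (hG : ∀ i, G.five i ↔ ¬ P.sq i) (hG' : ∀ j, G'.five j ↔ ¬ P.sq j.1) :
    G'.rcn F' = G.rcn (fun x y z => F' (D.F x) (D.F y) (D.F z)) := by
  classical
  have h := hF.wcs_if P (fun i => if P.sq i then 0 else 1)
    (fun x y z => if F' x y z then (1 : ℤ) else 0)
  have e : (G'.rcn F' : ℤ) = G.rcn (fun x y z => F' (D.F x) (D.F y) (D.F z)) := by
    rw [G'.rcn_eq, G.rcn_eq]
    have h1 : (∑ j, if G'.five j then
        D.gx.ccs j (fun x y z => if F' x y z then (1 : ℤ) else 0) else 0) =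
        D.gx.wcs (fun j => if P.sq j.1 then 0 else 1)
          (fun x y z => if F' x y z then (1 : ℤ) else 0) := by
      have key : ∀ (p q : Prop) [Decidable p] [Decidable q] (c : ℤ), (p ↔ ¬ q) →
          (if p then c else 0) = (if q then 0 else 1) * c := by
        intro p q _ _ c hpq
        by_cases hq : q
        · rw [if_neg (fun k => (hpq.1 k) hq), if_pos hq, zero_mul]
        · rw [if_pos (hpq.2 hq), if_neg hq, one_mul]
      exact Finset.sum_congr rfl fun j _ => key _ _ _ (hG' j)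
    rw [h1, h]
    refine Finset.sum_congr rfl fun i _ => ?_
    by_cases hi : P.sq i
    · rw [if_neg (fun k => ((hG i).1 k) hi), if_pos hi, zero_mul, ite_self]
    · rw [if_pos ((hG i).2 hi), if_neg (hF.not_Bt5 P hi), if_neg hi, one_mul]
  exact_mod_cast e

end SqF

end Pool.Agent.DI
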