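import Pool.Agent.DI.Ns3
import Pool.Agent.DI.WkD
import Pool.Agent.DI.SqC
import Pool.Agent.DI.CuS
import Pool.Agent.DI.PmS
import Pool.Agent.DI.NX

/-!
# DI/PmT: the minimal cut in the form of weighted positions

`D : CuD K`: the slide of the in-arrows `R` of `v` to the pole `a`. `D.GO x y z`: the corner `x - y - z`
leaves the moved set, `D.GA x y z`: it ends in the target. `sg_GO`: the length change is the sum over both
directions. `wcs_sg`: `Σ wt i * ccs i (sg D) = 2 (#o5 + #o4) - 2 (#r5 + #t1 + #t3)`.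
`pmF_of`: the inequality `P.PmF F v a R` from `2 Σ (F - 1) ≤ Σ wt i * ccs i (sg D)`.
-/

namespace Pool.Agent.DI

open MulAction
open Pool.Agent.SAF (InC orbs FinOrb oc mk_eq_iff FinOrb_iff oc_le_of_inj oc_le_of_surj oc_le_of_rel)

namespace CuD

variable {H V : Type} [Group H] [MulAction H V] {K : GX H V} (D : CuD K)

/-- the corner leaves the moved set -/
def GO (x y z : V) : Prop := D.mv x y ∧ ¬ (D.mv z y ∧ D.τ x y = D.τ z y) ∧ z ≠ D.τ x y

/-- the corner ends in the target -/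
def GA (x y z : V) : Prop := D.mv x y ∧ z = D.τ x y

open Classical in
theorem sg_GO (x y z : V) : sg D.sl.mv D.sl.τ x y z =
    ((if D.GO x y z then 1 else 0) + if D.GO z y x then 1 else 0) -
    ((if D.GA x y z then 1 else 0) + if D.GA z y x then 1 else 0) := by
  rw [D.sg_eq]
  have u : ∀ {x y z : V}, D.mv x y → z = D.τ x y → ¬ D.mv z y := by
    intro x y z h e
    rw [e]
    exact D.not_mv_τ h
  -- the target is not moved
  have gA : ∀ {x y z : V}, D.mv z y → ¬ D.GA x y z := fun h k => u k.1 k.2 h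
  have cAi : ∀ x y z, cA D.sl.mv D.sl.τ x y z ↔ D.GA x y z ∨ D.GA z y x := fun x y z => Iff.rfl
  by_cases h1 : D.mv x y
  · by_cases h2 : D.mv z y
    · have a1 : ¬ D.GA x y z := gA h2
      have a2 : ¬ D.GA z y x := gA h1
      have a3 : ¬ cA D.sl.mv D.sl.τ x y z := fun k => (k.elim a1 a2)
      have n1 : ¬ D.c1 x y z := by
        rintro (⟨-, e, -⟩ | ⟨-, e, -⟩)
        · exact e h2
        · exact e h1
      by_cases h3 : D.τ x y = D.τ z y
      · have g1 : ¬ D.GO x y z := fun k => k.2.1 ⟨h2, h3⟩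
        have g2 : ¬ D.GO z y x := fun k => k.2.1 ⟨h1, h3.symm⟩
        have n2 : ¬ D.c2 x y z := fun k => k.2.2 h3
        rw [if_neg a1, if_neg a2, if_neg a3, if_neg n1, if_neg n2, if_neg g1, if_neg g2]
        norm_num
      · have g1 : D.GO x y z := ⟨h1, fun k => h3 k.2, fun e => a1 ⟨h1, e⟩⟩
        have g2 : D.GO z y x := ⟨h2, fun k => h3 k.2.symm, fun e => a2 ⟨h2, e⟩⟩
        have n2 : D.c2 x y z := ⟨h1, h2, h3⟩
        rw [if_neg a1, if_neg a2, if_neg a3, if_neg n1, if_pos n2, if_pos g1, if_pos g2]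
        norm_num
    · have a2 : ¬ D.GA z y x := fun k => h2 k.1
      have g2 : ¬ D.GO z y x := fun k => h2 k.1
      have n2 : ¬ D.c2 x y z := fun k => h2 k.2.1
      by_cases h3 : z = D.τ x y
      · have a1 : D.GA x y z := ⟨h1, h3⟩
        have a3 : cA D.sl.mv D.sl.τ x y z := Or.inl a1
        have g1 : ¬ D.GO x y z := fun k => k.2.2 h3
        have n1 : ¬ D.c1 x y z := by
          rintro (⟨-, -, e⟩ | ⟨e, -, -⟩)
          · exact e h3
          · exact h2 e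
        rw [if_pos a1, if_neg a2, if_pos a3, if_neg n1, if_neg n2, if_neg g1, if_neg g2]
        norm_num
      · have a1 : ¬ D.GA x y z := fun k => h3 k.2
        have a3 : ¬ cA D.sl.mv D.sl.τ x y z := fun k => (k.elim a1 a2)
        have g1 : D.GO x y z := ⟨h1, fun k => h2 k.1, h3⟩
        have n1 : D.c1 x y z := Or.inl ⟨h1, h2, h3⟩
        rw [if_neg a1, if_neg a2, if_neg a3, if_pos n1, if_neg n2, if_pos g1, if_neg g2]
        norm_num
  · have a1 : ¬ D.GA x y z := fun k => h1 k.1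
    have g1 : ¬ D.GO x y z := fun k => h1 k.1
    have n2 : ¬ D.c2 x y z := fun k => h1 k.1
    by_cases h2 : D.mv z y
    · by_cases h3 : x = D.τ z y
      · have a2 : D.GA z y x := ⟨h2, h3⟩
        have a3 : cA D.sl.mv D.sl.τ x y z := Or.inr a2
        have g2 : ¬ D.GO z y x := fun k => k.2.2 h3
        have n1 : ¬ D.c1 x y z := by
          rintro (⟨e, -, -⟩ | ⟨-, -, e⟩)
          · exact h1 e
          · exact e h3
        rw [if_neg a1, if_pos a2, if_pos a3, if_neg n1, if_neg n2, if_neg g1, if_neg g2]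
        norm_num
      · have a2 : ¬ D.GA z y x := fun k => h3 k.2
        have a3 : ¬ cA D.sl.mv D.sl.τ x y z := fun k => (k.elim a1 a2)
        have g2 : D.GO z y x := ⟨h2, fun k => h1 k.1, h3⟩
        have n1 : D.c1 x y z := Or.inr ⟨h2, h1, h3⟩
        rw [if_neg a1, if_neg a2, if_neg a3, if_pos n1, if_neg n2, if_neg g1, if_pos g2]
        norm_num
    · have a2 : ¬ D.GA z y x := fun k => h2 k.1
      have a3 : ¬ cA D.sl.mv D.sl.τ x y z := fun k => (k.elim a1 a2)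
      have g2 : ¬ D.GO z y x := fun k => h2 k.1
      have n1 : ¬ D.c1 x y z := by
        rintro (⟨e, -, -⟩ | ⟨e, -, -⟩)
        · exact h1 e
        · exact h2 e
      rw [if_neg a1, if_neg a2, if_neg a3, if_neg n1, if_neg n2, if_neg g1, if_neg g2]
      norm_num

variable {D}

theorem GO.smul (g : H) {x y z : V} (h : D.GO x y z) : D.GO (g • x) (g • y) (g • z) := by
  obtain ⟨h1, h2, h3⟩ := h
  have e1 : D.τ (g • x) (g • y) = g • D.τ x y := D.sl.τ_smul g x y h1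
  refine ⟨D.sl.mv_smul g x y h1, ?_, ?_⟩
  · rintro ⟨k1, k2⟩
    have k1' : D.mv z y := by
      have := D.sl.mv_smul g⁻¹ _ _ k1
      rwa [inv_smul_smul, inv_smul_smul] at this
    have e2 : D.τ (g • z) (g • y) = g • D.τ z y := D.sl.τ_smul g z y k1'
    rw [e1, e2] at k2
    exact h2 ⟨k1', smul_left_cancel g k2⟩
  · rw [e1]
    exact fun k => h3 (smul_left_cancel g k)

theorem GA.smul (g : H) {x y z : V} (h : D.GA x y z) : D.GA (g • x) (g • y) (g • z) := by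
  obtain ⟨h1, rfl⟩ := h
  exact ⟨D.sl.mv_smul g x y h1, (D.sl.τ_smul g x y h1).symm⟩

/-- an element which fixes the middle and keeps a moved vertex fixes the target -/
theorem fix_a {g : H} (hv : g • D.v = D.v) {z : V} (h1 : z ∈ D.R) (h2 : g • z ∈ D.R) :
    g ∈ stabilizer H (D.v, D.a) := by
  show g • (D.v, D.a) = (D.v, D.a)
  exact Prod.ext hv (D.stab g hv z h1 h2)

section Orb

variable {Z : Type} [MulAction H Z] {A B C : Z → V} {Q : Z → Prop}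

theorem oc_GO (hA : ∀ (g : H) z, A (g • z) = g • A z) (hB : ∀ (g : H) z, B (g • z) = g • B z)
    (hC : ∀ (g : H) z, C (g • z) = g • C z) (hQ : ∀ (g : H) z, Q z → Q (g • z))
    (hf : FinOrb H {z | Q z}) :
    oc ↥(stabilizer H (D.v, D.a)) {z | Q z ∧ A z ∈ D.R ∧ B z = D.v ∧ C z ∉ D.R ∧ C z ≠ D.a} =
      oc H {z | Q z ∧ D.GO (A z) (B z) (C z)} := by
  have hi : ∀ z ∈ {z | Q z ∧ A z ∈ D.R ∧ B z = D.v ∧ C z ∉ D.R ∧ C z ≠ D.a},
      z ∈ {z | Q z ∧ D.GO (A z) (B z) (C z)} := by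
    rintro z ⟨h0, h1, h2, h3, h4⟩
    have e : (1 : H)⁻¹ • A z ∈ D.R := by
      rw [inv_one, one_smul]
      exact h1
    have ht : D.τ (A z) (B z) = D.a := by
      rw [h2, D.τ_eq (h := 1) e (one_smul _ _).symm, one_smul]
    refine ⟨h0, ⟨1, e, by rw [h2, one_smul]⟩, ?_, ?_⟩
    · rintro ⟨⟨k, k1, k2⟩, k3⟩
      rw [h2] at k2
      rw [ht, h2, D.τ_eq (h := k) k1 k2] at k3
      apply h3
      have := D.inv k k2.symm k3.symm _ k1
      rwa [smul_inv_smul] at this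
    · rw [ht]
      exact h4
  have hinj : ∀ z ∈ {z | Q z ∧ A z ∈ D.R ∧ B z = D.v ∧ C z ∉ D.R ∧ C z ≠ D.a},
      ∀ z' ∈ {z | Q z ∧ A z ∈ D.R ∧ B z = D.v ∧ C z ∉ D.R ∧ C z ≠ D.a}, (∃ g : H, g • z = z') →
      ∃ g : ↥(stabilizer H (D.v, D.a)), g • z = z' := by
    rintro z ⟨h0, h1, h2, h3, h4⟩ _ ⟨h0', h1', h2', h3', h4'⟩ ⟨g, rfl⟩
    rw [hB, h2] at h2'
    rw [hA] at h1'
    exact ⟨⟨g, fix_a h2' h1 h1'⟩, rfl⟩
  have hf2 : FinOrb H {z | Q z ∧ D.GO (A z) (B z) (C z)} := hf.mono fun z h => h.1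
  apply le_antisymm
  · exact oc_le_of_inj hf2 (fun z => z) hi hinj
  · refine oc_le_of_surj (Pool.Agent.SAF.FinOrb.of_inj hf2 (fun z => z) hi hinj) (fun z => z) ?_ ?_
    · rintro z ⟨h0, ⟨k, k1, k2⟩, h2, h3⟩
      have ht : D.τ (A z) (B z) = k • D.a := D.τ_eq k1 k2
      refine ⟨k⁻¹ • z, ⟨hQ _ _ h0, ?_, ?_, ?_, ?_⟩, k, smul_inv_smul k z⟩
      · rw [hA]
        exact k1
      · rw [hB, k2, inv_smul_smul]
      · rw [hC]
        intro k3
        exact h2 ⟨⟨k, k3, k2⟩, by rw [ht, D.τ_eq k3 k2]⟩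
      · rw [hC]
        intro k3
        rw [inv_smul_eq_iff] at k3
        exact h3 (by rw [ht]; exact k3)
    · rintro z - _ - ⟨g, rfl⟩
      exact ⟨g.1, rfl⟩

theorem oc_GA (hA : ∀ (g : H) z, A (g • z) = g • A z) (hB : ∀ (g : H) z, B (g • z) = g • B z)
    (hC : ∀ (g : H) z, C (g • z) = g • C z) (hQ : ∀ (g : H) z, Q z → Q (g • z))
    (hf : FinOrb H {z | Q z}) :
    oc ↥(stabilizer H (D.v, D.a)) {z | Q z ∧ A z ∈ D.R ∧ B z = D.v ∧ C z = D.a} =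
      oc H {z | Q z ∧ D.GA (A z) (B z) (C z)} := by
  have hi : ∀ z ∈ {z | Q z ∧ A z ∈ D.R ∧ B z = D.v ∧ C z = D.a},
      z ∈ {z | Q z ∧ D.GA (A z) (B z) (C z)} := by
    rintro z ⟨h0, h1, h2, h3⟩
    have e : (1 : H)⁻¹ • A z ∈ D.R := by
      rw [inv_one, one_smul]
      exact h1
    have ht : D.τ (A z) (B z) = D.a := by
      rw [h2, D.τ_eq (h := 1) e (one_smul _ _).symm, one_smul]
    exact ⟨h0, ⟨1, e, by rw [h2, one_smul]⟩, by rw [ht, h3]⟩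
  have hinj : ∀ z ∈ {z | Q z ∧ A z ∈ D.R ∧ B z = D.v ∧ C z = D.a},
      ∀ z' ∈ {z | Q z ∧ A z ∈ D.R ∧ B z = D.v ∧ C z = D.a}, (∃ g : H, g • z = z') →
      ∃ g : ↥(stabilizer H (D.v, D.a)), g • z = z' := by
    rintro z ⟨h0, h1, h2, h3⟩ _ ⟨h0', h1', h2', h3'⟩ ⟨g, rfl⟩
    rw [hB, h2] at h2'
    rw [hA] at h1'
    exact ⟨⟨g, fix_a h2' h1 h1'⟩, rfl⟩
  have hf2 : FinOrb H {z | Q z ∧ D.GA (A z) (B z) (C z)} := hf.mono fun z h => h.1
  apply le_antisymm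
  · exact oc_le_of_inj hf2 (fun z => z) hi hinj
  · refine oc_le_of_surj (Pool.Agent.SAF.FinOrb.of_inj hf2 (fun z => z) hi hinj) (fun z => z) ?_ ?_
    · rintro z ⟨h0, ⟨k, k1, k2⟩, h2⟩
      have ht : D.τ (A z) (B z) = k • D.a := D.τ_eq k1 k2
      refine ⟨k⁻¹ • z, ⟨hQ _ _ h0, ?_, ?_, ?_⟩, k, smul_inv_smul k z⟩
      · rw [hA]
        exact k1
      · rw [hB, k2, inv_smul_smul]
      · rw [hC, h2, ht, inv_smul_smul]
    · rintro z - _ - ⟨g, rfl⟩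
      exact ⟨g.1, rfl⟩

end Orb

end CuD

namespace P45

variable {H V : Type} [Group H] [MulAction H V] {K : GX H V} {P : P45 K}

theorem fin_W4 : FinOrb H {t | P.W4 t} := by
  have := K.finI
  refine FinOrb_iff.2 ⟨(fun x : K.I × (Fin 4 × Bool) => P.wk x.1 x.2) '' {x | P.sq x.1},
    (Set.toFinite _).image _, ?_, ?_⟩
  · rintro _ ⟨x, hx, rfl⟩
    exact wk_W4 hx x.2
  · intro t ht
    obtain ⟨g, i, x, hi, rfl⟩ := W4.rep ht
    exact ⟨_, ⟨(i, x), hi, rfl⟩, g, rfl⟩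

theorem wrot_surj (t : (V × V) × (V × V)) : wrot (wrot (wrot (wrot t))) = t := rfl

theorem W4.wrot {t : (V × V) × (V × V)} (h : P.W4 t) : P.W4 (P45.wrot t) := Q4.rot h

/-- the next flag -/
noncomputable def nfl (f : FL K) : FL K := if f.2 = true then (K.nx f.1, true) else (K.pv f.1, false)

theorem pfl_nfl (f : FL K) : pfl (nfl f) = f := by
  obtain ⟨e, b⟩ := f
  cases b
  · show (K.nx (K.pv e), false) = _
    rw [K.nx_pv]
  · show (K.pv (K.nx e), true) = _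
    rw [K.pv_nx]

/-- rotated flags -/
theorem oc_flag (G : V → V → V → Prop) :
    oc H {f : FL K | ¬ P.sq f.1.1.1 ∧ G (fx f) (fy f) (fz f)} =
      oc H {f : FL K | ¬ P.sq f.1.1.1 ∧ G (fy f) (fz f) (fv f)} := by
  have hfx : ∀ f : FL K, fx f = fprv f := fun _ => rfl
  symm
  refine oc_img (G := H) pfl (fun g f => pfl_smul g f) (fun _ _ => pfl_inj) ?_
  ext f
  constructor
  · rintro ⟨f, ⟨h1, h2⟩, rfl⟩
    refine ⟨fun k => h1 ((pfl_sq f).1 k), ?_⟩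
    rw [fy_pfl, fz_pfl, fv_pfl]
    exact h2
  · rintro ⟨h1, h2⟩
    refine ⟨nfl f, ⟨fun k => h1 ?_, ?_⟩, pfl_nfl f⟩
    · rw [← pfl_nfl f]
      exact (pfl_sq _).2 k
    · have e := pfl_nfl f
      have e1 := fy_pfl (nfl f)
      have e2 := fz_pfl (nfl f)
      have e3 := fv_pfl (nfl f)
      rw [e] at e1 e2 e3
      show G (fprv _) _ _
      rw [← e1, ← e2, ← e3]
      exact h2

/-- rotated walks -/
theorem oc_walk (G : V → V → V → Prop) :
    oc H {t : (V × V) × (V × V) | P.W4 t ∧ G t.2.2 t.1.1 t.1.2} =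
      oc H {t : (V × V) × (V × V) | P.W4 t ∧ G t.1.1 t.1.2 t.2.1} := by
  refine oc_img (G := H) wrot (fun g f => wrot_smul g f) (fun _ _ => wrot_inj) ?_
  ext t
  constructor
  · rintro ⟨t, ⟨h1, h2⟩, rfl⟩
    exact ⟨h1.wrot, h2⟩
  · rintro ⟨h1, h2⟩
    exact ⟨wrot (wrot (wrot t)), ⟨h1.wrot.wrot.wrot, h2⟩, wrot_surj t⟩

/-- the walks through `Y`, `n`, `x`, written `((y, n), (x, z))` -/
def r4 (P : P45 K) (n x : V) (Y : Set V) : Set ((V × V) × (V × V)) :=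
  {p | P.W4 p ∧ p.1.1 ∈ Y ∧ p.1.2 = n ∧ p.2.1 = x}

open Classical in
/-- THE LEAVING CORNERS against weighted positions -/
theorem out_count (hc : P.WC) (D : CuD K) :
    (2 : ℤ) * (oc ↥(stabilizer H (D.v, D.a)) (P.o5 D.v D.a D.R) +
      oc ↥(stabilizer H (D.v, D.a)) (P.o4 D.v D.a D.R)) = ∑ i, (P.wt i : ℤ) *
      K.ccs i (fun x y z => (if D.GO x y z then 1 else 0) + if D.GO z y x then 1 else 0) := by
  rw [← hc.all_count D.GO (fun g _ _ _ h => h.smul g), oc_flag, oc_walk]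
  have h5 := CuD.oc_GO (D := D) (A := fy) (B := fz) (C := fv) (Q := fun f : FL K => ¬ P.sq f.1.1.1)
    (fun g f => fy_smul g f) (fun g f => fz_smul g f) (fun g f => fv_smul g f)
    (fun _ _ h => h) (fin_FL.mono (Set.subset_univ _))
  have h4 := CuD.oc_GO (D := D) (A := fun t : (V × V) × (V × V) => t.1.1) (B := fun t => t.1.2)
    (C := fun t => t.2.1) (Q := P.W4) (fun _ _ => rfl) (fun _ _ => rfl) (fun _ _ => rfl)
    (fun g _ h => W4.smul g h) fin_W4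
  rw [← h5, ← h4]
  rfl

open Classical in
/-- THE CORNERS AT THE TARGET against weighted positions -/
theorem tgt_count (hc : P.WC) (D : CuD K) :
    (2 : ℤ) * (oc ↥(stabilizer H (D.v, D.a)) (P.r5 D.v D.a D.R) +
      oc ↥(stabilizer H (D.v, D.a)) (P.r4 D.v D.a D.R)) = ∑ i, (P.wt i : ℤ) *
      K.ccs i (fun x y z => (if D.GA x y z then 1 else 0) + if D.GA z y x then 1 else 0) := by
  rw [← hc.all_count D.GA (fun g _ _ _ h => h.smul g), oc_flag, oc_walk]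
  have h5 := CuD.oc_GA (D := D) (A := fy) (B := fz) (C := fv) (Q := fun f : FL K => ¬ P.sq f.1.1.1)
    (fun g f => fy_smul g f) (fun g f => fz_smul g f) (fun g f => fv_smul g f)
    (fun _ _ h => h) (fin_FL.mono (Set.subset_univ _))
  have h4 := CuD.oc_GA (D := D) (A := fun t : (V × V) × (V × V) => t.1.1) (B := fun t => t.1.2)
    (C := fun t => t.2.1) (Q := P.W4) (fun _ _ => rfl) (fun _ _ => rfl) (fun _ _ => rfl)
    (fun g _ h => W4.smul g h) fin_W4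
  rw [← h5, ← h4]
  rfl

/-- THE LENGTH CHANGE OF THE SLIDE -/
theorem wcs_sg (hc : P.WC) (D : CuD K) : K.wcs (fun i => (P.wt i : ℤ)) (sg D.sl.mv D.sl.τ) =
    2 * (oc ↥(stabilizer H (D.v, D.a)) (P.o5 D.v D.a D.R) +
      oc ↥(stabilizer H (D.v, D.a)) (P.o4 D.v D.a D.R)) -
    2 * (oc ↥(stabilizer H (D.v, D.a)) (P.r5 D.v D.a D.R) +
      oc ↥(stabilizer H (D.v, D.a)) (P.r4 D.v D.a D.R)) := by
  classical
  rw [out_count hc D, tgt_count hc D, ← Finset.sum_sub_distrib]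
  unfold GX.wcs
  refine Finset.sum_congr rfl fun i _ => ?_
  rw [← mul_sub, ← GX.ccs_sub]
  congr 1
  exact K.ccs_congr i fun j => D.sg_GO _ _ _

/-- the poles of a top and the partner determine the other side -/
theorem WC.sideq (hc : P.WC) {T a b b' y y' : V} (h : P.Top T a b y) (h' : P.Top T a b' y') :
    b = b' := by
  rcases K.two _ _ _ _ h.2.1 h.2.2 h'.2.2 with e | e | e
  · exact absurd e (hc.nab _ _ _ _ h)
  · exact e
  · exact absurd e (hc.nab _ _ _ _ h')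

/-- the walks at the target: the tops (I) and (III) -/
theorem r4_eq (hc : P.WC) {n x : V} {Y : Set V} (hx : K.ar n x) (hy : ∀ y ∈ Y, K.ar y n) :
    oc ↥(stabilizer H (n, x)) (P.r4 n x Y) =
      oc ↥(stabilizer H (n, x)) (P.t1 n x Y) + oc ↥(stabilizer H (n, x)) (P.t3 n x Y) := by
  have hf : FinOrb ↥(stabilizer H (n, x)) (P.r4 n x Y) := by
    have h := DI.fin_fib (π := fun p : (V × V) × (V × V) => (p.1.2, p.2.1)) (fun _ _ => rfl)
      (fin_W4 (P := P)) (n, x)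
    refine h.mono ?_
    rintro p ⟨h1, h2, h3, h4⟩
    exact ⟨h1, Prod.ext h3 h4⟩
  have gn : ∀ g : ↥(stabilizer H (n, x)), g.1 • n = n := fun g => congrArg Prod.fst g.2
  have gx : ∀ g : ↥(stabilizer H (n, x)), g.1 • x = x := fun g => congrArg Prod.snd g.2
  have e : P.r4 n x Y = {p | p ∈ P.r4 n x Y ∧ P.Top p.1.1 n p.2.2 x} ∪
      {p | p ∈ P.r4 n x Y ∧ P.Top p.2.2 p.1.1 x n} := by
    ext p
    constructor
    · intro hp
      obtain ⟨⟨p1, p2⟩, ⟨p3, p4⟩⟩ := p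
      obtain ⟨h1, h2, h3, h4⟩ := hp
      obtain rfl : p2 = n := h3
      obtain rfl : p3 = x := h4
      have h1 : Q4 P p4 p1 p2 p3 := h1
      have hy' : K.ar p1 p2 := hy _ h2
      have a1 := GX.ck_asym hx
      have a2 := GX.ck_asym hy'
      rcases h1.ck_top hc.top with k | k | k | k
      · exact Or.inr ⟨⟨h1, h2, rfl, rfl⟩, k⟩
      · exact Or.inl ⟨⟨h1, h2, rfl, rfl⟩, k⟩
      · exact absurd k.2.2 a2
      · exact absurd k.2.2 a1
    · rintro (h | h)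
      · exact h.1
      · exact h.1
  have hA : FinOrb ↥(stabilizer H (n, x)) {p | p ∈ P.r4 n x Y ∧ P.Top p.1.1 n p.2.2 x} :=
    hf.mono fun p hp => hp.1
  have hB : FinOrb ↥(stabilizer H (n, x)) {p | p ∈ P.r4 n x Y ∧ P.Top p.2.2 p.1.1 x n} :=
    hf.mono fun p hp => hp.1
  have hd : Dj ↥(stabilizer H (n, x)) {p | p ∈ P.r4 n x Y ∧ P.Top p.1.1 n p.2.2 x}
      {p | p ∈ P.r4 n x Y ∧ P.Top p.2.2 p.1.1 x n} := by
    rintro p ⟨-, h1⟩ g ⟨-, h2⟩
    have h3 := (h1.smul g.1).2.2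
    exact GX.ck_asym h3 h2.2.1
  have e0 : oc ↥(stabilizer H (n, x)) (P.r4 n x Y) = oc ↥(stabilizer H (n, x))
      ({p | p ∈ P.r4 n x Y ∧ P.Top p.1.1 n p.2.2 x} ∪
      {p | p ∈ P.r4 n x Y ∧ P.Top p.2.2 p.1.1 x n}) := congrArg _ e
  rw [e0, oc_union hd hA hB]
  congr 1
  · apply le_antisymm
    · refine oc_le_of_inj (fin_t1 hx) (fun p => p.1) ?_ ?_
      · rintro p ⟨⟨h1, h2, h3, h4⟩, h5⟩
        exact ⟨h2, h3, p.2.2, h5⟩
      · rintro p ⟨⟨h1, h2, h3, h4⟩, h5⟩ p' ⟨⟨h1', h2', h3', h4'⟩, h5'⟩ ⟨g, hg⟩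
        have k1 : g.1 • p.1.1 = p'.1.1 := congrArg Prod.fst hg
        have k := h5.smul g.1
        rw [k1, gn g, gx g] at k
        have k2 := hc.sideq k h5'
        refine ⟨g, Prod.ext hg (Prod.ext ?_ k2)⟩
        show g.1 • p.2.1 = p'.2.1
        rw [h4, h4', gx g]
    · refine oc_le_of_rel hA (fun q p => q = p.1) ?_ ?_
      · rintro ⟨T, n'⟩ ⟨h1, rfl, b, ht⟩
        exact ⟨((T, n'), (x, b)), ⟨⟨ht.1.symm, h1, rfl, rfl⟩, ht⟩, rfl⟩
      · rintro q - q' - p - p' - rfl rfl ⟨g, rfl⟩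
        exact ⟨g, rfl⟩
  · apply le_antisymm
    · refine oc_le_of_inj (fin_t3 hx hy) (fun p => (p.2.2, p.1.1)) ?_ ?_
      · rintro p ⟨⟨h1, h2, h3, h4⟩, h5⟩
        exact ⟨h2, h5⟩
      · rintro p ⟨⟨h1, h2, h3, h4⟩, h5⟩ p' ⟨⟨h1', h2', h3', h4'⟩, h5'⟩ ⟨g, hg⟩
        have k1 : g.1 • p.2.2 = p'.2.2 := congrArg Prod.fst hg
        have k2 : g.1 • p.1.1 = p'.1.1 := congrArg Prod.snd hg
        refine ⟨g, Prod.ext (Prod.ext k2 ?_) (Prod.ext ?_ k1)⟩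
        · show g.1 • p.1.2 = p'.1.2
          rw [h3, h3', gn g]
        · show g.1 • p.2.1 = p'.2.1
          rw [h4, h4', gx g]
    · refine oc_le_of_rel hB (fun q p => q = (p.2.2, p.1.1)) ?_ ?_
      · rintro ⟨T, y⟩ ⟨h1, ht⟩
        exact ⟨((y, n), (x, T)), ⟨⟨ht.1.symm.rot, h1, rfl, rfl⟩, ht⟩, rfl⟩
      · rintro q - q' - p - p' - rfl rfl ⟨g, rfl⟩
        exact ⟨g, rfl⟩

/-! ### the weights -/

theorem SqT.tq_iff (hs : P.SqT) {i : K.I} (hi : P.sq i) {j : Fin 4} : P.tq i j ↔ P.tp i j :=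
  ⟨fun h => h.1, fun h => ⟨h, (hs.TopR (tp_Top0 hi h) (fun k => k)).2⟩⟩

theorem SqT.wq_eq (hs : P.SqT) (i : K.I) : P.wq i = (P.wt i : ℤ) := by
  have e : P.flq i ↔ P.sq i ∧ P.flp i := by
    constructor
    · rintro ⟨h1, g, j, h2, h3, h4⟩
      exact ⟨h1, g, j, h2.1, h3, h4⟩
    · rintro ⟨h1, g, j, h2, h3, h4⟩
      exact ⟨h1, g, j, (hs.tq_iff h1).2 h2, h3, h4⟩
  unfold wq wt
  by_cases h : P.flq i
  · rw [if_pos h, if_pos (e.1 h)]
    rfl
  · rw [if_neg h, if_neg fun k => h (e.2 k)]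
    rfl

/-- THE LENGTH CHANGE OF THE SLIDE, in a state -/
theorem SqT.wcs_sv (hs : P.SqT) (D : CuD K) : K.wcs P.wq D.sv =
    2 * (oc ↥(stabilizer H (D.v, D.a)) (P.o5 D.v D.a D.R) +
      oc ↥(stabilizer H (D.v, D.a)) (P.o4 D.v D.a D.R)) -
    2 * (oc ↥(stabilizer H (D.v, D.a)) (P.r5 D.v D.a D.R) +
      (oc ↥(stabilizer H (D.v, D.a)) (P.t1 D.v D.a D.R) +
        oc ↥(stabilizer H (D.v, D.a)) (P.t3 D.v D.a D.R))) := by
  have hc := hs.wc
  have h1 := wcs_sg hc D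
  rw [r4_eq hc D.va D.R_ar] at h1
  have h2 : K.wcs P.wq D.sv = K.wcs (fun i => (P.wt i : ℤ)) (sg D.sl.mv D.sl.τ) := by
    unfold GX.wcs
    exact Finset.sum_congr rfl fun i _ => by rw [hs.wq_eq]; rfl
  rw [h2, h1]
  push_cast
  rfl

/-- the sum of `F` and the sum of `F - 1` -/
theorem os_sub_one {G W : Type} [Group G] [MulAction G W] {A : Set W} (hA : FinOrb G A)
    {f : W → ℕ} (h : ∀ p ∈ A, 1 ≤ f p) : os G A f = os G A (fun p => f p - 1) + oc G A := by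
  rw [← os_one hA, ← os_add hA]
  exact os_congr hA fun p hp => by have := h p hp; omega

/-- THE MARKED MINIMAL CUT GIVES `PmG` -/
theorem SqT.pmG (hs : P.SqT) (D : CuD K) {F : V → V → ℕ} {d : ℕ}
    (h1 : ∀ p ∈ P.t1 D.v D.a D.R, 1 ≤ F p.1 p.2) (h3 : ∀ p ∈ P.t3 D.v D.a D.R, 1 ≤ F p.1 D.a)
    (h : 2 * ((os ↥(stabilizer H (D.v, D.a)) (P.t1 D.v D.a D.R) (fun p => F p.1 p.2 - 1) : ℕ) +
      (os ↥(stabilizer H (D.v, D.a)) (P.t3 D.v D.a D.R) (fun p => F p.1 D.a - 1) : ℕ) + (d : ℕ) : ℤ)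
      ≤ K.wcs P.wq D.sv) : P.PmG F d D.v D.a D.R := by
  rw [hs.wcs_sv D] at h
  have e1 := os_sub_one (fin_t1 (P := P) (Y := D.R) D.va) h1
  have e3 := os_sub_one (fin_t3 (P := P) D.va D.R_ar) h3
  unfold PmG
  omega

theorem SqT.of_pmG (hs : P.SqT) (D : CuD K) {F : V → V → ℕ} {d : ℕ}
    (h1 : ∀ p ∈ P.t1 D.v D.a D.R, 1 ≤ F p.1 p.2) (h3 : ∀ p ∈ P.t3 D.v D.a D.R, 1 ≤ F p.1 D.a)
    (h : P.PmG F d D.v D.a D.R) :
    2 * ((os ↥(stabilizer H (D.v, D.a)) (P.t1 D.v D.a D.R) (fun p => F p.1 p.2 - 1) : ℕ) +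
      (os ↥(stabilizer H (D.v, D.a)) (P.t3 D.v D.a D.R) (fun p => F p.1 D.a - 1) : ℕ) + (d : ℕ) : ℤ)
      ≤ K.wcs P.wq D.sv := by
  rw [hs.wcs_sv D]
  have e1 := os_sub_one (fin_t1 (P := P) (Y := D.R) D.va) h1
  have e3 := os_sub_one (fin_t3 (P := P) D.va D.R_ar) h3
  unfold PmG at h
  omega

/-! ### one pole -/

theorem _root_.Pool.Agent.DI.GX.NHr.e1 (nh : K.NHr) (e : K.LE) (h : K.ar (K.c0 e) (K.c1 e)) :
    ∃ d, K.ar (K.c0 e) d ∧ d ≠ K.c1 e := by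
  obtain ⟨⟨i, j⟩, g⟩ := e
  have h : K.ar (g • K.vx i j.1) (g • K.vx i (j.1 + 1)) := h
  have h' := K.ar_smul g⁻¹ _ _ h
  rw [inv_smul_smul, inv_smul_smul] at h'
  obtain ⟨d, h1, h2⟩ := nh.l i j.1 h'
  exact ⟨g • d, K.ar_smul g _ _ h1, fun e => h2 (smul_left_cancel g e)⟩

theorem _root_.Pool.Agent.DI.GX.NHr.e2 (nh : K.NHr) (e : K.LE) (h : K.ar (K.c1 e) (K.c0 e)) :
    ∃ d, K.ar (K.c1 e) d ∧ d ≠ K.c0 e := by
  obtain ⟨⟨i, j⟩, g⟩ := e
  have h : K.ar (g • K.vx i (j.1 + 1)) (g • K.vx i j.1) := h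
  have h' := K.ar_smul g⁻¹ _ _ h
  rw [inv_smul_smul, inv_smul_smul] at h'
  obtain ⟨d, h1, h2⟩ := nh.r i j.1 h'
  exact ⟨g • d, K.ar_smul g _ _ h1, fun e => h2 (smul_left_cancel g e)⟩

theorem _root_.Pool.Agent.DI.GX.NHr.fl (nh : K.NHr) (f : FL K) (h : K.ar (fz f) (fv f)) :
    ∃ d, K.ar (fz f) d ∧ d ≠ fv f := by
  obtain ⟨e, b⟩ := f
  cases b
  · have h : K.ar (K.c0 e) (K.c0 (K.pv e)) := h
    rw [← K.c1_pv] at h
    obtain ⟨d, h1, h2⟩ := nh.e2 _ h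
    rw [K.c1_pv] at h1
    exact ⟨d, h1, h2⟩
  · have h : K.ar (K.c2 e) (K.c2 (K.nx e)) := h
    rw [← K.c1_nx, ← K.c0_nx, ← K.c1_nx] at h
    obtain ⟨d, h1, h2⟩ := nh.e1 _ h
    rw [K.c0_nx, K.c1_nx] at h1
    rw [K.c1_nx] at h2
    exact ⟨d, h1, h2⟩

/-- the flag of a walk -/
theorem exists_flag4 {a q b y : V} (h : Q4 P a q b y) : ∃ f : FL K,
    fprv f = a ∧ fy f = q ∧ fz f = b ∧ fv f = y := by
  obtain ⟨g, i, j, hi, h⟩ := h
  have b2 : ∀ k : Fin 4, k + 1 + 2 = k + 3 := by decide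
  rcases h with ⟨rfl, rfl, rfl, rfl⟩ | ⟨rfl, rfl, rfl, rfl⟩
  · refine ⟨(P.l4 i hi j g, true), P45.c0_4 P i hi j g, P45.c1_4 P i hi j g,
      P45.c2_4 P i hi j g, ?_⟩
    show K.c2 (K.nx _) = _
    rw [nx_l4, P45.c2_4, b2]
  · refine ⟨(P.l4 i hi j g, false), P45.c2_4 P i hi j g, P45.c1_4 P i hi j g,
      P45.c0_4 P i hi j g, ?_⟩
    show K.c0 (K.pv _) = _
    rw [pv_l4, P45.c0_4]

/-- one pole: nothing ends in the target -/
theorem pmF_one (nh : K.NHr) {F : V → V → ℕ} {n x : V} {Y : Set V} (hx : K.ar n x)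
    (h : ∀ d, K.ar n d → d = x) : P.PmF F n x Y := by
  have h5 : P.r5 n x Y = ∅ := by
    ext f
    constructor
    · rintro ⟨h1, h2, h3, h4⟩
      obtain ⟨d, k1, k2⟩ := nh.fl f (by rw [h3, h4]; exact hx)
      rw [h3] at k1
      rw [h4] at k2
      exact (k2 (h d k1)).elim
    · exact fun k => k.elim
  have hno : ∀ z y, ¬ Q4 P z y n x := by
    intro z y hq
    obtain ⟨f, f1, f2, f3, f4⟩ := exists_flag4 hq
    obtain ⟨d, k1, k2⟩ := nh.fl f (by rw [f3, f4]; exact hx)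
    rw [f3] at k1
    rw [f4] at k2
    exact k2 (h d k1)
  have h1 : P.t1 n x Y = ∅ := by
    ext p
    constructor
    · rintro ⟨-, -, b, k⟩
      exact hno b p.1 k.1.symm
    · exact fun k => k.elim
  have h3 : P.t3 n x Y = ∅ := by
    ext p
    constructor
    · rintro ⟨-, k⟩
      exact hno p.1 p.2 k.1.symm.rot
    · exact fun k => k.elim
  unfold PmF PmG
  rw [h5, h1, h3, oc_empty, os_empty, os_empty]
  omega

/-- THE CONDITIONS GIVE CUT DATA -/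
def PmS.cud {n x b : V} {Y : Set V} (h : P.PmS n x Y) (hb : K.ar n b) (hne : x ≠ b) : CuD K where
  v := n
  a := x
  b := b
  R := Y
  va := h.nx
  vb := hb
  ab := hne
  R_ar := h.yn
  stab g h1 z h2 h3 := by
    by_contra k
    exact h.sw g h1 k z h2 h3
  inv g h1 h2 z h3 := h.inv g h1 h2 z h3

/-- THE STATIC MINIMAL CUT IN THE FORM WHICH IS USED, from the marked minimal cut for all cut data -/
theorem SqT.pmF (hs : P.SqT) (nh : K.NHr) {F : V → V → ℕ}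
    (hF : ∀ T a b y, P.Top T a b y → 1 ≤ F T a)
    (hM : ∀ D : CuD K, (∀ T c, T ∈ D.R → ¬ P.Top T D.v c D.b) →
      2 * ((os ↥(stabilizer H (D.v, D.a)) (P.t1 D.v D.a D.R) (fun p => F p.1 p.2 - 1) : ℕ) +
        (os ↥(stabilizer H (D.v, D.a)) (P.t3 D.v D.a D.R) (fun p => F p.1 D.a - 1) : ℕ) : ℤ)
      ≤ K.wcs P.wq D.sv) {n x : V} {Y : Set V} (h : P.PmS n x Y) : P.PmF F n x Y := by
  by_cases hb : ∃ b, K.ar n b ∧ x ≠ b
  · obtain ⟨b, hb, hne⟩ := hb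
    have k := hM (h.cud hb hne) (fun T c hT ht => hne (h.np T c b hT ht hb).symm)
    refine hs.pmG (h.cud hb hne) (d := 0) ?_ ?_ ?_
    · rintro p ⟨-, e, c, ht⟩
      have ht : P.Top p.1 n c x := ht
      have e : p.2 = n := e
      rw [e]
      exact hF _ _ _ _ ht
    · rintro p ⟨-, ht⟩
      exact hF _ _ _ _ ht.symm'
    · push_cast at k ⊢
      rw [add_zero]
      exact k
  · push Not at hb
    exact pmF_one nh h.nx fun d hd => (hb d hd).symm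

end P45

end Pool.Agent.DI
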