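import Pool.Agent.DI.Ns3
import Pool.Agent.DI.RedT

/-!
# DI/TallD: the strict minimal cut under a fat tower, statement

`P.TallN n Y T1`: a tower which starts with `T1` has a fat member. `P.TallP E`: the static minimal cut is
strict for a set `Y` with a top `T0` over the hub `n`, the partner of `T0` is the pole `x`, and such a tower over
`T0` and a vertex of `Y` with the partner `n`.
-/

namespace Pool.Agent.DI

open MulAction
open Pool.Agent.SAF (InC orbs FinOrb oc)

namespace P45

variable {H V : Type} [Group H] [MulAction H V] {K : GX H V} (P : P45 K)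

/-- A FAT TOP IN A TOWER which starts with `T1`: `T1` is fat, or a fat top `T'` over a member `T`, the
partner is `z`; for the arrows of translates of `T'` to `n` the labels (`Y`) of `T'` and `z` are equal -/
def TallN (n : V) (Y : Set V) (T1 : V) : Prop := ¬ P.Tn T1 ∨
  ∃ T T' m z, Relation.ReflTransGen P.Ov T1 T ∧ P.Top T' T m z ∧ K.ar T z ∧ ¬ P.Tn T' ∧
    ∀ g : H, K.ar (g • T') n → (g • T' ∈ Y ↔ g • z ∈ Y)

/-- THE STRICT MINIMAL CUT under a fat tower -/
def TallP (E : V → Prop) : Prop := ∀ n x Y T0 b T1 s, P.PmS n x Y → (∀ y ∈ Y, ¬ E y) → T0 ∈ Y →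
  P.Top T0 n b x → (∀ g : H, g • T0 ∈ Y → g • b = n → g • x = x) → P.Top T1 T0 s n → s ∈ Y →
  P.TallN n Y T1 → P.PmG (fun _ _ => 1) 1 n x Y

end P45

end Pool.Agent.DI
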