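import Pool.Agent.DI.Tall
import Pool.Agent.DI.TallD
import Pool.Agent.DI.PmX
import Pool.Agent.DI.PmT
import Pool.Agent.DI.PmN

/-!
# DI/TallS: the strict minimal cut under a fat tower, in a state

`P45.SqT.tallP`: `P.TallP` for the squares of a state, from `PmH.tallN` and `PmH.tall0` (DI/Tall).
-/

namespace Pool.Agent.DI

open MulAction
open Pool.Agent.SAF (InC orbs FinOrb oc)

variable {H V : Type} [Group H] [MulAction H V]

namespace P45

variable {K : GX H V} {P : P45 K}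

/-- the members of a tower -/
theorem SqT.towR (hs : P.SqT) {T1 T : V} (h : Relation.ReflTransGen P.Ov T1 T) :
    ∃ n, P.Tow T1 n T := by
  induction h with
  | refl => exact ⟨0, rfl⟩
  | tail _ h ih =>
    obtain ⟨n, hn⟩ := ih
    obtain ⟨m, z, h, e⟩ := h
    exact ⟨n + 1, _, m, z, hn, hs.TopR h (fun k => k), e⟩

/-- THE STRICT MINIMAL CUT UNDER A FAT TOWER -/
theorem SqT.tallP (X : PmH H) (hs : P.SqT) (hm : K.Min)
    (h1 : ∀ T a b y, P.Top T a b y → 1 ≤ P.X T a) : P.TallP (fun _ => False) := by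
  intro n x Y T0 b T1 s hS _ h0 ht np ht1 hsY hT
  have hC : P.Cl := hs.cl h1
  have tr : ∀ {T a b y : V}, P.Top T a b y → P.TopR T a b y := fun h => hs.TopR h (fun k => k)
  -- the other pole of the hub
  obtain ⟨f, f1, f2, f3, f4⟩ := exists_flag4 ht.symm'.1
  obtain ⟨d, hd, hne⟩ := (hC.nhr hm).fl f (by rw [f3, f4]; exact hS.nx)
  rw [f3] at hd
  rw [f4] at hne
  have hf : P.TCf (hS.cud hd hne.symm) T0 b T1 s := ⟨h0, tr ht, tr ht1, hsY, np⟩
  have key : 2 ≤ P.Phi (hS.cud hd hne.symm) := by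
    rcases hT with hT | ⟨T, T', m, z, hT, ht', e, hn, hb⟩
    · have h2 : ∃ a' b' y', P.Top T1 a' b' y' ∧ ¬ P.X T1 a' ≤ 1 := by
        by_contra k
        push Not at k
        exact hT fun a' b' y' h => (k a' b' y' h)
      obtain ⟨a', b', y', h3, h4⟩ := h2
      refine X.tall0 hC hm _ hf.hT hf.ht hf.h1 hf.hc hf.np ?_
      rw [X.cor1 hC hm ht1.2.1 h3.2.1, hs.XW_eq h3]
      omega
    · have h2 : ∃ a' b' y', P.Top T' a' b' y' ∧ ¬ P.X T' a' ≤ 1 := by
        by_contra k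
        push Not at k
        exact hn fun a' b' y' h => (k a' b' y' h)
      obtain ⟨a', b', y', h3, h4⟩ := h2
      obtain ⟨N, hN⟩ := hs.towR hT
      refine X.tallN N hC hm _ hf hN (tr ht') e h3.2.1 ?_ hb
      rw [hs.XW_eq h3]
      omega
  refine hs.pmG (hS.cud hd hne.symm) (F := fun _ _ => 1) (d := 1) (fun _ _ => le_rfl)
    (fun _ _ => le_rfl) ?_
  have e1 : os ↥(stabilizer H (n, x)) (P.t1 n x Y) (fun _ => 1 - 1) = 0 := by
    rw [os_eq (fin_t1 hS.nx)]
    exact Finset.sum_eq_zero fun _ _ => rfl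
  have e3 : os ↥(stabilizer H (n, x)) (P.t3 n x Y) (fun _ => 1 - 1) = 0 := by
    rw [os_eq (fin_t3 hS.nx hS.yn)]
    exact Finset.sum_eq_zero fun _ _ => rfl
  show 2 * ((os ↥(stabilizer H (n, x)) (P.t1 n x Y) (fun _ => 1 - 1) : ℕ) +
    (os ↥(stabilizer H (n, x)) (P.t3 n x Y) (fun _ => 1 - 1) : ℕ) + (1 : ℕ) : ℤ) ≤ _
  rw [e1, e3]
  have k : 2 ≤ K.wcs P.wq (hS.cud hd hne.symm).sv := key
  push_cast
  omega

end P45

end Pool.Agent.DI
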