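import Pool.Agent.DI.TowK
import Pool.Agent.DI.PmK3
import Pool.Agent.DI.PmY
import Pool.Agent.DI.NdS
import Pool.Agent.DI.TallS

/-!
# DI/StcK: the static input of the laws for the step complex of a state

`OpW.Ok.stc`: the static input goes up to a step complex. `St.stc`: the static input of a state.
`St.K1.stc`: the static input of its step complexes.
-/

namespace Pool.Agent.DI

open MulAction

namespace OpW

variable {H V W : Type} [Group H] [MulAction H V] [MulAction H W] {K : GX H V} {O : OpW K W}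
  {P : P45 K}

/-- a counted arrow does not start at an opened vertex -/
theorem Ok.ca_nd (ok : O.Ok P) {T a : W} (h : (T, a) ∈ (O.p45 P).CA) : ¬ O.Dbl T := by
  rcases h with h | h
  · rw [O.U_upA P ok.nt] at h
    obtain ⟨-, b, y, ht, -⟩ := h
    exact ok.nt.top ht
  · rw [O.Dm_upA P ok.nt] at h
    obtain ⟨-, b, y, ht, -⟩ := h
    exact ok.nt.top ht

/-- THE STATIC INPUT GOES UP to a step complex -/
theorem Ok.stc (ok : O.Ok P) (hs : P.SqT) (h : P.Stc (fun _ => False)) :
    (O.p45 P).Stc O.Dbl where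
  pm := by
    obtain ⟨F, hF, hX, hp⟩ := h.pm
    refine ⟨fun T a => F (O.π T) (O.π a), FX_up ok.nt ok.ne hF, ?_, ?_⟩
    · rintro ⟨T, a⟩ hq
      obtain ⟨b, y, ht⟩ := P45.CA_sub hq
      have hd := ok.ca_nd hq
      have e : (O.p45 P).X T a = P.X (O.π T) (O.π a) :=
        O.X_eq P ok.nt (fun _ e => O.not_dbl hd e) ht.2.1
      show (O.p45 P).X T a ≤ F (O.π T) (O.π a)
      rw [e]
      refine hX (O.π T, O.π a) ?_
      rcases hq with hq | hq
      · rw [O.U_upA P ok.nt] at hq
        exact Or.inl hq.2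
      · rw [O.Dm_upA P ok.nt] at hq
        exact Or.inr hq.2
    · intro n x Y hq hd
      exact pmG_up hq hd ok.nt (fun g T a => hF.inv g T a) (hp _ _ _ (pmS_dn hq hd)
        (fun _ _ k => k))
  cor1 T a b y k hE := O.cor1_up P ok.nt ok.ne (fun k => h.cor1 _ _ _ _ k (fun e => e)) k hE
  nft k s T hk hT := O.nft_up P ok.nt ok.ne (fun hk hT => h.nft _ _ _ hk hT) hk hT
  nd := O.nd_up P ok.ne fun T a b y T' z k => h.nd T a b y T' z k (fun e => e) (fun e => e)
  tall := OpW.tall_up (fun T a b y k => hs.nab T a b y k) ok.nt ok.ne h.tall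

end OpW

namespace St

/-- THE STATIC INPUT OF A STATE -/
theorem stc (C : St) : C.P.Stc (fun _ => False) where
  pm := ⟨C.P.X, P45.SqT.FX C.cls.toSqE C.Min (fun _ _ _ _ k => C.x1T k), fun _ _ => le_refl _,
    fun _ _ _ h _ => P45.SqT.pm C.cls.toSqE C.Min (fun _ _ _ _ k => C.x1T k) h⟩
  cor1 _ _ _ _ h _ := C.cor1 h
  nft _ _ _ hk hT := C.nft hk hT
  nd T a b y T' z h _ _ := C.ndT T a b y T' z h
  tall n x Y hS hE T0 b s T1 h0 ht _ np h1 hs hT :=
    P45.SqT.tallP pmH C.cls.toSqE C.Min (fun _ _ _ _ k => C.x1T k) n x Y T0 b T1 s hS hE h0 ht np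
      h1 hs hT

/-- THE STATIC INPUT OF A STEP COMPLEX -/
theorem K1.stc {C : St} (k : C.K1) : k.P.Stc k.E := k.ok.stc C.cls.toSqE C.stc

end St

end Pool.Agent.DI
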