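import Pool.Agent.DI.K1Z
import Pool.Agent.DI.BrK
import Pool.Agent.DI.StcK
import Pool.Agent.DI.K1P
import Pool.Agent.DI.K1R
import Pool.Agent.DI.K1N
import Pool.Agent.DI.SfZ

/-!
# DI/StartK: the passive step over the step complex of a state

`St.kx_psv`: the data of a step (`SyQ.Psv`) over `C.kx r`. `St.exists_step`: a state without a foldable top
has a passive step; its numbers are not worse than those of the state. `St.start_law`: the field `start` of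
`Laws`.
-/

namespace Pool.Agent.DI

open MulAction
open Pool.Agent.SAF (InC SA orbs FinOrb oc Decomp SAn Conv FinOrb_iff exists_next)
open Pool.Agent.BT (PX PQ JS bey exits Ell mst)

namespace St

variable (C : St) {D : Decomp C.H} {J : C.ofs.W → Set D.X} {js : JS (C.ow.p45 C.P).pq D J}
  {hc : (SyQ.mk C.ow.gx (C.ow.p45 C.P) D J js).Conn} {tw : C.ofs.W → C.ofs.W → Prop}
  {Tp : C.ofs.W → Prop} {pt : C.ofs.W → C.ofs.W} {Z : C.ofs.W → Prop}
  (r : (SyQ.mk C.ow.gx (C.ow.p45 C.P) D J js).RK hc tw Tp pt Z)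
  {σ : C.V → D.X} (sg : Sig C.ow J σ)

/-- the system on the step complex -/
noncomputable def kxS : SyQ C.H (C.kx r).W :=
  SyQ.mk (C.kx r).K (C.kx r).P D (C.kxJ r sg) (C.kx_js r sg)

/-- the bare vertices over `w` -/
def kxF (w : D.X) : Set (C.kx r).W := {q | w ∈ C.kxJ r sg q ∧ (C.kx r).P.Bare q}

theorem kxF_inv (w : D.X) (g : C.H) (hg : g • w = w) (q : (C.kx r).W) (hq : q ∈ C.kxF r sg w) :
    g • q ∈ C.kxF r sg w := by
  refine ⟨?_, ?_⟩
  · have := (C.kx_js r sg).smul g _ _ hq.1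
    rwa [hg] at this
  · exact hq.2.smul g

/-- THE OPEN STARS: all over `w`, except over the bare vertices -/
noncomputable def kxO (w : D.X) : (C.kxS r sg).OR w :=
  (C.kxS r sg).opF w (C.kxF r sg w) (C.kxF_inv r sg w)

theorem kx_opn (w : D.X) (u : D.X) (q : (C.kx r).W) :
    (C.kxO r sg w).op u q ↔ w ∈ C.kxJ r sg q ∧ ¬ (C.kx r).P.Bare q := by
  have h : (C.kxO r sg w).op u q ↔ w ∈ C.kxJ r sg q ∧ q ∉ C.kxF r sg w := Iff.rfl
  rw [h]
  exact ⟨fun h => ⟨h.1, fun hb => h.2 ⟨h.1, hb⟩⟩, fun h => ⟨h.1, fun hf => h.2 hf.2⟩⟩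

theorem kx_rz (w : D.X) : (C.kxS r sg).Rz w (C.kxO r sg w) (C.kx r).E :=
  (C.kx r).rz (C.kx_js r sg) (C.kx_opn r sg w)
    (fun v hb hw p hp => C.kx_eJ' r sg v ((C.kx r).be hb) hw p hp) (C.kx_noE' r sg)
    (fun _ _ _ _ _ _ h1 h2 h3 h4 h5 h6 h7 h8 => (C.kx_r0 r sg).page h4 h5 h1 h2 h3 h6 h7 h8)
    (fun _ _ _ _ _ _ _ _ h1 h2 _ h4 h5 h6 h7 h8 h9 =>
      (C.kx_r0 r sg).dir h4 h5 h1 h2 h6 h7 h8 h9)

theorem kx_sy1 {w : D.X} (s : (SyQ.mk C.ow.gx (C.ow.p45 C.P) D J js).SyP w) :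
    (C.kxS r sg).Sy1 w :=
  (C.kx r).sy1 (C.kx_js r sg) (C.kx_gd r sg s) (C.kx_tog r sg s) s.one s.badw
    (C.kx_inv1 r sg s)

/-- THE DATA OF A STEP over the step complex -/
theorem kx_psv {w : D.X} (s : (SyQ.mk C.ow.gx (C.ow.p45 C.P) D J js).SyP w)
    (hr : C.P.red (fun _ => False)) :
    (C.kxS r sg).Psv w (C.kxO r sg w) (C.kx r).E :=
  (C.kx r).psv (js := C.kx_js r sg) (C.kx_sy1 r sg s) (C.kx_noE' r sg) (C.kx_plcd r sg s)
    (C.kx_mid r sg s) (C.kx_opn r sg w) (C.kx_rz r sg w).two (C.kx_rz r sg w).nf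
    (C.kx_rz r sg w).page (C.kx_rz r sg w).dir (C.kx_eJ' r sg)
    (fun _ _ _ h1 h2 => (C.kx r).pc h1 h2) ((C.kx r).red hr)
    (fun _ _ _ _ h1 h2 => (C.kx r).eW h1 h2) (C.kx_eb r) (C.kx r).stc (C.kx_bw r sg)
    (C.kx_bo r sg s)

end St

/-- THE PASSIVE STEP OF A STATE WITHOUT A FOLDABLE TOP -/
theorem St.exists_step (C : St) (hr : C.P.red (fun _ => False)) :
    ∃ (V : Type) (_ : MulAction C.H V) (S : SyQ C.H V) (f : V → C.fd.V) (w : S.X) (O : S.OR w)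
      (E : V → Prop) (h : S.Psv w O E), OvC C.fd S.K S.P f ∧ h.nums.Le C.nums := by
  obtain ⟨D, J, js, w, s, r⟩ := C.exists_Kf
  obtain ⟨σ, sg⟩ := C.kx_sig r
  exact ⟨(C.kx r).W, (C.kx r).act, C.kxS r sg, (C.kx r).f, w, C.kxO r sg w, (C.kx r).E,
    C.kx_psv r sg s hr, (C.kx r).ovc, (C.kx r).nums_le (C.kx_phA r s)⟩

/-- THE FIELD `start` OF THE LAWS -/
theorem St.start_law (C : St) : (∃ N : St, N.Lt C) ∨
    ∃ (V : Type) (_ : MulAction C.H V) (S : SyQ C.H V) (f : V → C.fd.V) (w : S.X) (O : S.OR w)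
      (E : V → Prop) (h : S.Psv w O E), OvC C.fd S.K S.P f ∧ h.nums.Le C.nums := by
  by_cases hr : C.P.red (fun _ => False)
  · exact Or.inr (C.exists_step hr)
  · exact Or.inl (St.sf_step hr)

end Pool.Agent.DI
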