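import Pool.Agent.DI.Main0
import Pool.Agent.DI.PhN
import Pool.Agent.DI.LawG
import Pool.Agent.DI.CutG
import Pool.Agent.DI.StartK

/-!
# DI/Main1: the laws of the frame, and the theorem

`laws`: the laws `Laws` of the frame (`DI/Main0`) hold; `main`: every finitely presented group is
strongly accessible over the class of finite and virtually infinite cyclic groups (`SAF.SA`).
-/

namespace Pool.Agent.DI

open MulAction
open Pool.Agent.SAF (InC SA orbs FinOrb oc Decomp)

namespace SyQ

variable {H V : Type} [Group H] [MulAction H V] {S : SyQ H V} {w : S.X} {O : S.OR w} {E : V → Prop}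

/-- a bare vertex has diamonds over two edges -/
theorem Psv.no_fld (h : S.Psv w O E) : ∀ u q, ¬ Fld w O u q :=
  SyQ.no_fld (fun u q h1 h2 => (h.opn u q).2 ⟨h1, h2⟩) fun q h1 h2 => h.bareF.dq q ⟨h1, h2⟩

end SyQ

/-- THE LAWS -/
theorem laws : Laws where
  bound := exists_phA_bound
  start := St.start_law
  x1 H V _ _ S w O E h := h.x1k
  law H V _ _ S w O E h := h.law
  cut C0 hC V _ S f ov w O E h C' := by
    rintro ⟨N⟩
    exact h.cut_le hC ov h.no_fld (fun e => e.sk) C' N

/-- EVERY FINITELY PRESENTED GROUP IS STRONGLY ACCESSIBLE -/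
theorem main (G : Type) [Group G] [Group.IsFinitelyPresented G] : SA G := laws.main G

end Pool.Agent.DI
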