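import Pool.Agent.DI.OvQ
import Pool.Agent.DI.TpS
import Pool.Agent.DI.PlcdS

/-!
# DI/MidU: nothing is over a midpoint except softs

`SyQ.Mq w u w'`: `u` has exactly the neighbours `w`, `w'`, no pentagon is centred at `u`, links are
connected, every piece meets every pole. In a placed system (`S.Plcd`) with squares of the static class
no square has its four subtrees through `u` (`Mq.nsq`) and no elliptic sink is over `u` (`Mq.no_snk`),
so `S.Mp w u w'` (`Mq.mp`).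
-/

namespace Pool.Agent.DI

open MulAction
open Pool.Agent.SAF (InC SA orbs FinOrb oc Decomp SAn Conv exists_next)
open Pool.Agent.BT (PX PQ JS bey exits Ell mst Hyp mst_conv)
open Pool.Agent.BT.TA (bey_or bey_not bey_self conv_cr conv_sd)

section

/-- every vertex of the line of a hyperbolic subgroup has two neighbours on it -/
theorem mst_nb2 {H : Type} [Group H] (D : Decomp H) {A : Subgroup H} (hn : Hyp D.X A)
    {y : D.X} (hy : y ∈ mst D.G A) : ∃ t1 t2, t1 ≠ t2 ∧ D.G.Adj y t1 ∧ D.G.Adj y t2 ∧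
      t1 ∈ mst D.G A ∧ t2 ∈ mst D.G A := by
  have hT := D.tree
  by_contra hno
  have hone : ∀ t1 t2, D.G.Adj y t1 → D.G.Adj y t2 → t1 ∈ mst D.G A → t2 ∈ mst D.G A →
      t1 = t2 := by
    intro t1 t2 h1 h2 h3 h4
    by_contra hne
    exact hno ⟨t1, t2, hne, h1, h2, h3, h4⟩
  have hconv := mst_conv (G := D.G) A
  have hinv : ∀ g ∈ A, ∀ z ∈ mst D.G A, g • z ∈ mst D.G A := by
    intro g hg z hz C h1 h2 h3
    exact h3 g hg _ (hz C h1 h2 h3)
  have hleaf : ∀ g ∈ A, ∀ t1 t2, D.G.Adj (g • y) t1 → D.G.Adj (g • y) t2 → t1 ∈ mst D.G A →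
      t2 ∈ mst D.G A → t1 = t2 := by
    intro g hg t1 t2 h1 h2 h3 h4
    have k1 := D.adj_smul g⁻¹ _ _ h1
    have k2 := D.adj_smul g⁻¹ _ _ h2
    rw [inv_smul_smul] at k1 k2
    have := hone _ _ k1 k2 (hinv _ (inv_mem hg) _ h3) (hinv _ (inv_mem hg) _ h4)
    exact smul_left_cancel g⁻¹ this
  -- the next vertex on the way to a vertex of the line
  have hnext : ∀ a ∈ mst D.G A, ∀ b ∈ mst D.G A, a ≠ b → ∃ t, D.G.Adj a t ∧ t ∈ mst D.G A ∧
      D.G.dist a b = D.G.dist t b + 1 := by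
    intro a ha b hb hne
    obtain ⟨t, h1, h2⟩ := exists_next hT hne
    refine ⟨t, h1, hconv a ha b hb t ?_, h2⟩
    rw [SimpleGraph.dist_eq_one_iff_adj.2 h1, h2, add_comm]
  have key := hy {z | z ∈ mst D.G A ∧ ¬ ∃ g ∈ A, g • y = z} ?_ ?_ ?_
  · exact key.2 ⟨1, one_mem A, one_smul _ _⟩
  · rintro a ⟨ha, ha'⟩ b ⟨hb, hb'⟩ c hc
    have hcM := hconv a ha b hb c hc
    refine ⟨hcM, ?_⟩
    rintro ⟨g, hg, rfl⟩
    have hca : g • y ≠ a := fun e => ha' ⟨g, hg, e⟩
    have hcb : g • y ≠ b := fun e => hb' ⟨g, hg, e⟩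
    obtain ⟨t1, k1, k2, k3⟩ := hnext _ hcM _ ha hca
    obtain ⟨t2, l1, l2, l3⟩ := hnext _ hcM _ hb hcb
    have e := hleaf g hg t1 t2 k1 l1 k2 l2
    subst e
    have tr : D.G.dist a b ≤ D.G.dist a t1 + D.G.dist t1 b := hT.connected.dist_triangle
    rw [SimpleGraph.dist_comm (u := g • y), SimpleGraph.dist_comm (u := t1)] at k3
    omega
  · obtain ⟨g, hg, hgy⟩ := hn y
    obtain ⟨t, k1, k2, -⟩ := hnext y hy (g • y) (hinv g hg y hy) (Ne.symm hgy)
    refine ⟨t, k2, ?_⟩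
    rintro ⟨k, hk, rfl⟩
    -- the line is one edge
    have hall : ∀ z ∈ mst D.G A, z = y ∨ z = k • y := by
      intro z hz
      by_contra hcon
      push Not at hcon
      obtain ⟨t1, a1, a2, a3⟩ := hnext y hy z hz (Ne.symm hcon.1)
      have e1 : t1 = k • y := hone _ _ a1 k1 a2 k2
      subst e1
      obtain ⟨t2, b1, b2, b3⟩ := hnext _ a2 z hz (Ne.symm hcon.2)
      have e2 : t2 = y := hleaf k hk _ _ b1 k1.symm b2 hy
      rw [e2] at b3
      omega
    rcases hall (k • k • y) (hinv k hk _ k2) with h | h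
    · exact D.noinv k y (k • y) k1 ⟨rfl, h⟩
    · have := smul_left_cancel k h
      exact k1.ne' this
  · rintro g hg c ⟨hc, hc'⟩
    refine ⟨hinv g hg c hc, ?_⟩
    rintro ⟨k, hk, e⟩
    exact hc' ⟨g⁻¹ * k, A.mul_mem (A.inv_mem hg) hk, by rw [mul_smul, e, inv_smul_smul]⟩

end

namespace P45

variable {H V : Type} [Group H] [MulAction H V] {K : GX H V} {P : P45 K}

/-- the pentagon of a flag -/
theorem mu_le5 {e : K.LE} (hi : ¬ P.sq e.1.1) : ∃ y z, Qn P (K.c0 e) (K.c1 e) (K.c2 e) y z := by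
  have hj : e.1.2.1 % 5 < 5 := Nat.mod_lt _ (by norm_num)
  let j : Fin 5 := ⟨e.1.2.1 % 5, hj⟩
  refine ⟨K.vk e 3, K.vk e 4, e.2, e.1.1, j, hi, Or.inl ⟨?_, ?_, ?_, ?_, ?_⟩⟩
  · exact P45.vk5 hi 0 j rfl
  · refine P45.vk5 hi 1 (j + 1) ?_
    show (e.1.2.1 + 1) % 5 = (e.1.2.1 % 5 + 1) % 5
    omega
  · refine P45.vk5 hi 2 (j + 2) ?_
    show (e.1.2.1 + 2) % 5 = (e.1.2.1 % 5 + 2) % 5
    omega
  · refine P45.vk5 hi 3 (j + 3) ?_
    show (e.1.2.1 + 3) % 5 = (e.1.2.1 % 5 + 3) % 5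
    omega
  · refine P45.vk5 hi 4 (j + 4) ?_
    show (e.1.2.1 + 4) % 5 = (e.1.2.1 % 5 + 4) % 5
    omega

/-- a strand is a pentagon or a walk -/
theorem mu_strand {T a : V} (h : 1 ≤ P.X T a) : (∃ n y z, Qn P n T a y z) ∨
    ∃ n q, Q4 P n T a q ∧ K.ar n T := by
  by_contra hcon
  push Not at hcon
  obtain ⟨h1, h2⟩ := hcon
  have e1 : {f : FL K | f ∈ P.RP ∧ (fy f, fz f) = (T, a)} = ∅ := by
    ext f
    simp only [Set.mem_setOf_eq, Set.mem_empty_iff_false, iff_false]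
    rintro ⟨⟨k1, -⟩, k2⟩
    have k3 : fy f = T := congrArg Prod.fst k2
    have k4 : fz f = a := congrArg Prod.snd k2
    obtain ⟨y, z, hq⟩ := mu_le5 (P := P) (e := f.1) k1
    unfold fy at k3
    unfold fz at k4
    by_cases hb : f.2 = true
    · rw [if_pos hb] at k4
      rw [k3, k4] at hq
      exact h1 _ _ _ hq
    · rw [if_neg hb] at k4
      rw [k3, k4] at hq
      exact h1 _ _ _ hq.symm
  have e2 : {p : (V × V) × (V × V) | p ∈ P.ZP ∧ p.1 = (T, a)} = ∅ := by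
    ext p
    simp only [Set.mem_setOf_eq, Set.mem_empty_iff_false, iff_false]
    rintro ⟨⟨k1, -, k3⟩, k2⟩
    rw [k2] at k1 k3
    exact h2 _ _ k1 k3
  unfold P45.X at h
  rw [e1, e2, oc_empty, oc_empty] at h
  omega

end P45

namespace SyQ

variable {H V : Type} [Group H] [MulAction H V] {S : SyQ H V}

variable (S) in
/-- a midpoint `u` over which there is no centre -/
structure Mq (w u w' : S.X) : Prop where
  mid : S.Mid w u w'
  lc : ∀ v, S.K.LC v
  ec : ∀ {x y : V}, S.K.E x y → S.K.EC x y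
  nbt : ∀ {n v k : V}, S.K.Cor n v k → n ≠ k
  pc : ∀ {v n a : V}, S.K.ar n v → S.K.ar v a → ∃ k, S.K.PC v n k ∧ S.K.ar k v ∧ S.K.Cor k v a
  nc : ∀ {a q b y z : V}, Qn S.P a q b y z → ¬ S.IsC ![a, q, b, y, z] u

/-- a page crosses at most one edge -/
theorem mq_one {v n : V} {u t t' : S.X} (hn : S.K.ar n v) (hv : u ∈ S.J v) (hu : u ∈ S.J n)
    (h1 : S.D.G.Adj u t) (h2 : S.D.G.Adj u t') (k1 : t ∈ S.J n) (k2 : t' ∈ S.J n) : t = t' := by
  by_contra hne
  exact exl hn hu hv h1 h2 hne k1 k2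

theorem mq_mem {v n : V} {u : S.X} (hv : S.J v = {u}) (e : S.K.E n v) : u ∈ S.J n := by
  obtain ⟨p, p0, p1⟩ := S.one_ex e
  rw [hv] at p1
  rw [← Set.mem_singleton_iff.1 p1]
  exact p0

theorem mq_fix {v : V} {u : S.X} (hv : S.J v = {u}) {g : H} (hg : g • v = v) : g • u = u := by
  have h1 : g • u ∈ S.J (g • v) := S.js.smul g v u (by rw [hv]; rfl)
  rw [hg, hv] at h1
  exact h1

namespace Mq

variable {w u w' : S.X} (m : S.Mq w u w')

include m

/-- the two neighbours of a vertex over `u` in a pentagon cross the same edge -/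
theorem five {n v k y z : V} (hv : S.J v = {u}) (hq : Qn S.P n v k y z) :
    ∃ t, S.D.G.Adj u t ∧ t ∈ S.J n ∧ t ∈ S.J k := by
  obtain ⟨c, hce⟩ := Qn.cen hq
  have hne : u ≠ c := by
    rintro rfl
    exact m.nc hq hce
  obtain ⟨t, h1, h2⟩ := bey_of_ne hne
  have h3 : t ∉ S.J v := by
    rw [hv]
    exact h1.ne'
  obtain ⟨k1, k2⟩ := nbr_cs hq hce (by rw [hv]; rfl) h1 h2 h3
  exact ⟨t, h1, k1.2, k2.2⟩

/-- the same in a square with the last vertex not over `u` -/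
theorem four {n v k y : V} (hv : S.J v = {u}) (hq : Q4 S.P n v k y) (hy : u ∉ S.J y) :
    ∃ t, S.D.G.Adj u t ∧ t ∈ S.J n ∧ t ∈ S.J k := by
  obtain ⟨t, ht, hb⟩ := exists_dr hy
  obtain ⟨p1, a1, b1⟩ := S.one_ex hq.E4
  obtain ⟨p3, a3, b3⟩ := S.one_ex hq.E3
  refine ⟨t, ht, (cs_of ht (mq_mem hv hq.E1) b1 (hb a1)).2,
    (cs_of ht (mq_mem hv (Or.symm hq.E2)) a3 (hb b3)).2⟩

/-- the same for all corners at a page -/
theorem tt {n v k : V} (hv : S.J v = {u})
    (hG : ∀ n k y, Q4 S.P n v k y → S.K.ar n v → u ∉ S.J y) (hn : S.K.ar n v)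
    (hc : S.K.Cor n v k) : ∃ t, S.D.G.Adj u t ∧ t ∈ S.J n ∧ t ∈ S.J k := by
  rcases corC hc with ⟨y, z, hq⟩ | ⟨y, hq⟩
  · exact m.five hv hq
  · exact m.four hv hq (hG _ _ _ hq hn)

/-- the pages of a piece cross the same edge -/
theorem pct {v n k : V} {t : S.X} (hv : S.J v = {u}) (ht : S.D.G.Adj u t)
    (hG : ∀ n k y, Q4 S.P n v k y → S.K.ar n v → u ∉ S.J y) (h : S.K.PC v n k) :
    (S.K.ar n v ∧ t ∈ S.J n) ↔ (S.K.ar k v ∧ t ∈ S.J k) := by
  have hu : u ∈ S.J v := by rw [hv]; rfl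
  induction h with
  | rel a b h =>
    obtain ⟨ha, hb, hc⟩ := h
    obtain ⟨t1, h1, h2, h3⟩ := m.tt hv hG ha hc
    constructor
    · rintro ⟨-, k⟩
      refine ⟨hb, ?_⟩
      rw [mq_one ha hu (mq_mem hv (Or.inl ha)) ht h1 k h2]
      exact h3
    · rintro ⟨-, k⟩
      refine ⟨ha, ?_⟩
      rw [mq_one hb hu (mq_mem hv (Or.inl hb)) ht h1 k h3]
      exact h2
  | refl a => exact Iff.rfl
  | symm a b _ ih => exact ih.symm
  | trans a b c _ _ ih1 ih2 => exact ih1.trans ih2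

/-- the main step: a top over `u` with the highest rank -/
theorem core (hT : S.P.SqT) (hx : ∀ p ∈ S.P.TA, 1 ≤ S.P.X p.1 p.2) (hp : S.Plcd) {T a b y : V}
    (top : S.P.Top T a b y) (hJ : S.J T = {u}) (hy : u ∈ S.J y) (hay : S.K.ar a y)
    (hG : ∀ n k y, Q4 S.P n T k y → S.K.ar n T → u ∉ S.J y) : False := by
  have huT : u ∈ S.J T := by rw [hJ]; rfl
  have hua : u ∈ S.J a := mq_mem hJ (Or.inr top.2.1)
  have hub : u ∈ S.J b := mq_mem hJ (Or.inr top.2.2)
  have hst := P45.mu_strand (hx (T, a) ⟨b, y, top⟩)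
  obtain ⟨n, t, hn, ht, ht1, ht2⟩ : ∃ n t, ((S.K.ar n T ∧ S.K.Cor n T a) ∨
      ∃ y z, Qn S.P n T a y z) ∧ S.D.G.Adj u t ∧ t ∈ S.J n ∧ t ∈ S.J a := by
    rcases hst with ⟨n, y', z', hq⟩ | ⟨n, q, hq, hn⟩
    · obtain ⟨t, h1, h2, h3⟩ := m.five hJ hq
      exact ⟨n, t, Or.inr ⟨y', z', hq⟩, h1, h2, h3⟩
    · obtain ⟨t, h1, h2, h3⟩ := m.four hJ hq (hG _ _ _ hq hn)
      exact ⟨n, t, Or.inl ⟨hn, hq.rot.cor.symm⟩, h1, h2, h3⟩
  -- all pages contain `t`
  have hpg : ∀ k, S.K.ar k T → t ∈ S.J k := by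
    intro k hk
    obtain ⟨l, h1, h2, h3⟩ := m.pc hk top.2.1
    obtain ⟨t1, k1, k2, k3⟩ := m.tt hJ hG h2 h3
    have e : t1 = t := mq_one hay hy hua k1 ht k3 ht2
    rw [e] at k2
    exact ((m.pct hJ ht hG h1).2 ⟨h2, k2⟩).2
  -- `b` contains `t`
  have hb : t ∈ S.J b := by
    by_cases hk : ∃ k, S.K.ar k T
    · obtain ⟨k, hk⟩ := hk
      obtain ⟨l, h1, h2, h3⟩ := m.pc hk top.2.2
      obtain ⟨t1, k1, k2, k3⟩ := m.tt hJ hG h2 h3
      have e : t1 = t := mq_one h2 huT (mq_mem hJ (Or.inl h2)) k1 ht k2 (hpg l h2)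
      rwa [e] at k3
    · push Not at hk
      rcases hn with ⟨h1, -⟩ | ⟨y', z', hq⟩
      · exact absurd h1 (hk n)
      · have h2 : S.K.ar T n := (hq.E1).resolve_left (hk n)
        rcases hT.sides top h2 with rfl | rfl
        · exact absurd rfl (m.nbt hq.rot.cor)
        · exact ht1
  -- the stabiliser of `T` fixes `t`
  have hfix : ∀ h : H, h • T = T → h • t = t := by
    intro h hh
    have hu : h • u = u := mq_fix hJ hh
    have hadj : S.D.G.Adj u (h • t) := by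
      have := S.D.adj_smul h _ _ ht
      rwa [hu] at this
    by_cases hk : ∃ k, S.K.ar k T
    · obtain ⟨k, hk⟩ := hk
      have hk' : S.K.ar (h • k) T := by
        have := S.K.ar_smul h _ _ hk
        rwa [hh] at this
      exact mq_one hk' huT (mq_mem hJ (Or.inl hk')) hadj ht (S.js.smul h _ _ (hpg k hk))
        (hpg _ hk')
    · have h1 : S.K.ar T (h • a) := by
        have := S.K.ar_smul h _ _ top.2.1
        rwa [hh] at this
      have h2 := S.js.smul h _ _ ht2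
      rcases hT.sides top h1 with e | e
      · rw [e] at h2
        exact mq_one hay hy hua hadj ht h2 ht2
      · have h3 := S.K.ar_smul h _ _ hay
        rw [hT.fix top id hh, e] at h3
        rw [e] at h2
        exact mq_one h3 hy hub hadj ht h2 hb
  have hpole : ∀ c, S.K.ar T c → t ∈ S.J c := by
    intro c hc
    rcases hT.sides top hc with rfl | rfl
    · exact ht2
    · exact hb
  by_cases hk : ∃ k, S.K.ar k T
  · obtain ⟨k, h1, h2⟩ := hp.page T u t hJ ht hfix hpole hk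
    exact h2 (hpg k h1)
  · push Not at hk
    rcases hn with ⟨h1, -⟩ | ⟨y', z', hq⟩
    · exact absurd h1 (hk n)
    obtain ⟨a1, b1, y1, z1, c, k1, k2, k3⟩ := hp.nopage T u t ⟨a, top.2.1⟩ hk hJ ht hfix hpole
      ⟨_, _, _, _, hq⟩
    have hne : u ≠ c := by
      rintro rfl
      exact m.nc k1 k2
    obtain ⟨t2, l1, l2⟩ := bey_of_ne hne
    have l3 : t2 ∉ S.J T := by
      rw [hJ]
      exact l1.ne'
    obtain ⟨c1, c2⟩ := nbr_cs k1 k2 huT l1 l2 l3
    have ha1 : S.K.ar T a1 := (k1.E1).resolve_left (hk a1)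
    have hb1 : S.K.ar T b1 := (k1.E2).resolve_right (hk b1)
    have hne1 := m.nbt k1.rot.cor.symm
    have h5 : t2 ∈ S.J a := by
      rcases hT.sides top ha1 with e | e
      · rw [← e]
        exact c1.2
      · rcases hT.sides top hb1 with e' | e'
        · rw [← e']
          exact c2.2
        · exact absurd (e.trans e'.symm) hne1
    have e : t2 = t := mq_one hay hy hua l1 ht h5 ht2
    rw [e] at l2
    exact k3 l2

/-- NO SQUARE OVER `u` -/
theorem nsq (hT : S.P.SqT) (hx : ∀ p ∈ S.P.TA, 1 ≤ S.P.X p.1 p.2) (hp : S.Plcd) {a q b y : V}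
    (hq : Q4 S.P a q b y) (ha : u ∈ S.J a) (hq' : u ∈ S.J q) (hb : u ∈ S.J b) (hy : u ∈ S.J y) :
    False := by
  obtain ⟨N, hN⟩ := S.K.rk_bdd
  have key : ∀ k : ℕ, ∀ T a b y, S.P.Top T a b y → u ∈ S.J T → u ∈ S.J a → u ∈ S.J b →
      u ∈ S.J y → N + 1 ≤ S.K.rk T + k → False := by
    intro k
    induction k with
    | zero =>
      intro T a b y _ _ _ _ _ h2
      have h5 := hN T
      omega
    | succ k ih =>
      intro T a b y top hT0 ha hb hy hr
      have hJ : S.J T = {u} := by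
        ext p
        constructor
        · intro hpT
          by_contra hpu
          obtain ⟨t, k1, k2, -⟩ := ex_nbp hT0 hpT (fun e => hpu e.symm)
          obtain ⟨c, hc, hJc⟩ := S.js.cross T ⟨a, top.2.1⟩ u t k1 hT0 k2
          have huc : u ∈ S.J c := by
            rcases hT.sides top hc with rfl | rfl
            · exact ha
            · exact hb
          exact Pool.Agent.BT.bey_irr_l (hJc huc)
        · rintro rfl
          exact hT0
      have hG : ∀ n l y, Q4 S.P n T l y → S.K.ar n T → u ∉ S.J y := by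
        intro n l z hs hn hz
        have hun := mq_mem hJ hs.E1
        have hul := mq_mem hJ (Or.symm hs.E2)
        have h1 := S.K.ar_rk _ _ hn
        rcases hT.q4 hs with h | h | h | h
        · exact ih n z T l h hun hz hT0 hul (by omega)
        · have := S.K.ar_rk _ _ h.2.1
          omega
        · have := S.K.ar_rk _ _ h.2.1
          exact ih l T z n h hul hT0 hz hun (by omega)
        · have := hT.rk_lt h
          exact ih z l n T h hz hul hun hT0 (by omega)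
      rcases (hT.side T a b y top).resolve_left id with h | h
      · exact m.core hT hx hp top hJ hy h hG
      · exact m.core hT hx hp top.symm' hJ hy h hG
  rcases hT.q4 hq with h | h | h | h
  · exact key (N + 1) _ _ _ _ h ha hy hq' hb (by omega)
  · exact key (N + 1) _ _ _ _ h hq' ha hb hy (by omega)
  · exact key (N + 1) _ _ _ _ h hb hq' hy ha (by omega)
  · exact key (N + 1) _ _ _ _ h hy hb ha hq' (by omega)

/-- NO ELLIPTIC SINK OVER `u` -/
theorem no_snk (hns : ∀ {a q b y : V}, Q4 S.P a q b y → u ∈ S.J a → u ∈ S.J q → u ∈ S.J b →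
    u ∈ S.J y → False) (hp : S.Plcd) {z : V} (hz : ∀ a, ¬ S.K.ar z a) (hJ : S.J z = {u}) :
    False := by
  have huz : u ∈ S.J z := by rw [hJ]; rfl
  have hG : ∀ n k y, Q4 S.P n z k y → S.K.ar n z → u ∉ S.J y := fun n k y hq _ hy =>
    hns hq (mq_mem hJ hq.E1) huz (mq_mem hJ (Or.symm hq.E2)) hy
  have hex : ∃ n, S.K.ar n z := by
    by_contra hcon
    push Not at hcon
    have hall : ∀ x, x = z := by
      intro x
      have := S.K.conn z x
      induction this with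
      | refl => rfl
      | tail _ h2 ih =>
        rw [ih] at h2
        rcases h2 with h2 | h2
        · exact absurd h2 (hz _)
        · exact absurd h2 (hcon _)
    obtain ⟨h, hh⟩ := S.D.nofix u
    exact hh (mq_fix hJ (hall (h • z)))
  obtain ⟨n0, hn0⟩ := hex
  obtain ⟨b, hb⟩ := GX.EC_iff.1 (m.ec (Or.inl hn0 : S.K.E n0 z))
  obtain ⟨t, ht, ht0, -⟩ := m.tt hJ hG hn0 hb
  have hcl : ∀ x y : V, Relation.EqvGen (fun a b => S.K.Cor a z b) x y →
      ((S.K.ar x z ∧ t ∈ S.J x) ↔ (S.K.ar y z ∧ t ∈ S.J y)) := by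
    have st : ∀ x y : V, S.K.Cor x z y → (S.K.ar x z ∧ t ∈ S.J x) →
        (S.K.ar y z ∧ t ∈ S.J y) := by
      rintro x y hc ⟨h1, h2⟩
      have hy : S.K.ar y z := hc.E2.resolve_left (hz y)
      obtain ⟨t1, k1, k2, k3⟩ := m.tt hJ hG h1 hc
      refine ⟨hy, ?_⟩
      rw [mq_one h1 huz (mq_mem hJ (Or.inl h1)) ht k1 h2 k2]
      exact k3
    intro x y h
    induction h with
    | rel a b h => exact ⟨st a b h, st b a h.symm⟩
    | refl a => exact Iff.rfl
    | symm a b _ ih => exact ih.symm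
    | trans a b c _ _ ih1 ih2 => exact ih1.trans ih2
  have hpg : ∀ n, S.K.ar n z → t ∈ S.J n := fun n hn =>
    ((hcl n0 n (m.lc z n0 n (Or.inr hn0) (Or.inr hn))).1 ⟨hn0, ht0⟩).2
  have hfix : ∀ h : H, h • z = z → h • t = t := by
    intro h hh
    have hu : h • u = u := mq_fix hJ hh
    have hadj : S.D.G.Adj u (h • t) := by
      have := S.D.adj_smul h _ _ ht
      rwa [hu] at this
    have hk' : S.K.ar (h • n0) z := by
      have := S.K.ar_smul h _ _ hn0
      rwa [hh] at this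
    exact mq_one hk' huz (mq_mem hJ (Or.inl hk')) hadj ht (S.js.smul h _ _ ht0) (hpg _ hk')
  obtain ⟨n, h1, h2⟩ := hp.page z u t hJ ht hfix (fun a ha => absurd ha (hz a)) ⟨n0, hn0⟩
  exact h2 (hpg n h1)

/-- sinks over `u` cross both edges -/
theorem snk {Z : V → Prop} (h0 : S.GdQ0 Z)
    (hns : ∀ {a q b y : V}, Q4 S.P a q b y → u ∈ S.J a → u ∈ S.J q → u ∈ S.J b →
    u ∈ S.J y → False) (hp : S.Plcd) (z : V) (hz : ∀ a, ¬ S.K.ar z a) (hu : u ∈ S.J z) :
    w ∈ S.J z ∧ w' ∈ S.J z := by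
  by_cases he : Ell H S.X z
  · exfalso
    obtain ⟨p, hJ⟩ := h0.one z hz he
    rw [hJ, Set.mem_singleton_iff] at hu
    rw [← hu] at hJ
    exact m.no_snk hns hp hz hJ
  · have hy : Hyp S.X (stabilizer H z) := by
      unfold Ell at he
      push Not at he
      exact he
    have hJ := h0.ax z hz he
    rw [hJ] at hu ⊢
    obtain ⟨t1, t2, hne, h1, h2, h3, h4⟩ := mst_nb2 S.D hy hu
    rcases m.mid.val t1 h1 with e | e <;> rcases m.mid.val t2 h2 with e' | e'
    · exact absurd (e.trans e'.symm) hne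
    · exact ⟨e ▸ h3, e' ▸ h4⟩
    · exact ⟨e' ▸ h4, e ▸ h3⟩
    · exact absurd (e.trans e'.symm) hne

/-- A PLACED SYSTEM HAS NOTHING OVER `u` EXCEPT SOFTS -/
theorem mp {Z : V → Prop} (h0 : S.GdQ0 Z) (hT : S.P.SqT)
    (hx : ∀ p ∈ S.P.TA, 1 ≤ S.P.X p.1 p.2) (hp : S.Plcd) : S.Mp w u w' where
  mid := m.mid
  ec := m.ec
  nbt := m.nbt
  pc := m.pc
  nc := m.nc
  nsq := m.nsq hT hx hp
  snk := m.snk h0 (m.nsq hT hx hp) hp

end Mq

end SyQ

end Pool.Agent.DI
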