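import Pool.Agent.DI.MovU

/-!
# DI/MovV: the moved system is placed, good and reversed over the midpoints

`PlS.S'`: the system with the subtrees `PlS.J'`. `PlS.gdq0`, `PlS.tog`, `PlS.plcd`, `PlS.rev'`,
`PlS.mp'`. `exists_mov`: in a good placed one-edge system with a midpoint `u` without centres there is
such a move.
-/

namespace Pool.Agent.DI

open MulAction
open Pool.Agent.SAF (InC SA orbs FinOrb oc Decomp SAn Conv exists_next)
open Pool.Agent.BT (PX PQ JS bey exits Ell mst x_next_unique bey_irr_l)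
open Pool.Agent.BT.TA (bey_or bey_not bey_self conv_cr conv_sd conv_union)

namespace SyQ

variable {H V : Type} [Group H] [MulAction H V] {S : SyQ H V}

theorem mq_sym {a q b y : V} {P : P45 S.K} (hT : P.SqT) (hx : ∀ p ∈ P.TA, 1 ≤ P.X p.1 p.2)
    (hq : Q4 P a q b y) (hno : ∀ n, ¬ S.K.ar n q) : ∃ n c y z, Qn P n q c y z := by
  rcases hT.q4 hq with h | h | h | h
  · exact absurd h.2.2 (hno a)
  · rcases P45.mu_strand (hx (q, a) ⟨b, y, h⟩) with ⟨n, y, z, k⟩ | ⟨n, q', k, hn⟩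
    · exact ⟨n, a, y, z, k⟩
    · exact absurd hn (hno n)
  · exact absurd h.2.1 (hno b)
  · rcases (hT.side _ _ _ _ h).resolve_left id with k | k
    · exact absurd k (hno _)
    · exact absurd k (hno _)

namespace PlS

variable {w u w' : S.X} (Q : PlS S w u w')

/-- the moved system -/
def S' : SyQ H V := ⟨S.K, S.P, S.D, Q.J', Q.J'_js⟩

/-- points which are not in the orbit of `u` stay -/
theorem keep {x : V} {c : S.X} (hc : c ∈ S.J x) (hT : ¬ ∃ g : H, g • u = c) : c ∈ Q.J' x := by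
  by_cases hx : x ∈ S.Um u
  · obtain ⟨p, hp⟩ := um_J hx
    rw [hp, Set.mem_singleton_iff] at hc
    rw [hc] at hT
    exact absurd (um_T hx hp) hT
  · exact Q.J'_nT hx hc hT

include Q in
theorem cen_nT {v : Fin 5 → V} {a q b y z : V} {c : S.X} (hp : Qn S.P a q b y z)
    (hc : S.IsC ![a, q, b, y, z] c) : ¬ ∃ g : H, g • u = c := by
  rintro ⟨g, rfl⟩
  exact (Q.mp.smul g).nc hp hc

/-- the centres stay -/
theorem cen' {a q b y z : V} {c : S.X} (hp : Qn S.P a q b y z)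
    (hc : S.IsC ![a, q, b, y, z] c) : Q.S'.IsC ![a, q, b, y, z] c := by
  have hT : ¬ ∃ g : H, g • u = c := Q.cen_nT (v := ![a, q, b, y, z]) hp hc
  intro k
  exact (hc k).imp (fun h => Q.keep h hT) (fun h => Q.keep h hT)

/-- a vertex without a moved pole which is not moved keeps its subtree -/
theorem same {x : V} (hx : x ∉ S.Um u) (h : ∀ v ∈ S.Um u, ¬ S.K.ar x v) : Q.J' x = S.J x := by
  ext y
  constructor
  · rintro (⟨h1, -⟩ | ⟨-, ⟨h1, -⟩ | ⟨v, hv, ha, -⟩⟩)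
    · exact absurd h1 hx
    · exact h1
    · exact absurd ha (h v hv)
  · intro hy
    exact Or.inr ⟨hx, Or.inl ⟨hy, fun ⟨v, hv, ha, _⟩ => h v hv ha⟩⟩

include Q in
theorem um_soft {v : V} (hv : v ∈ S.Um u) : ∃ a, S.K.ar v a := by
  obtain ⟨p, hp⟩ := um_J hv
  obtain ⟨s', m⟩ := Q.mpv hv hp
  exact m.ov_pole hp

theorem sink' {z : V} (hz : ∀ a, ¬ S.K.ar z a) : Q.J' z = S.J z := by
  refine Q.same (fun h => ?_) (fun v _ => hz v)
  obtain ⟨a, ha⟩ := Q.um_soft h
  exact hz a ha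

/-- vertices with one point which does not meet a moved pole -/
theorem sing' {x : V} {p p' : S.X} (hJ : Q.J' x = {p}) (hadj : S.D.G.Adj p p')
    (hpole : ∀ a, S.K.ar x a → p' ∈ Q.J' a) (hx : x ∉ S.Um u) :
    S.J x = {p} ∧ ∀ v ∈ S.Um u, ¬ S.K.ar x v := by
  have h1 : ∀ v ∈ S.Um u, ¬ S.K.ar x v := by
    intro v hv ha
    have h2 : Q.σ v ∈ Q.J' x := Q.nbσ hv (Or.inr ha)
    rw [hJ, Set.mem_singleton_iff] at h2
    have h3 := hpole v ha
    rw [Q.J'_um hv, Set.mem_singleton_iff, h2] at h3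
    exact hadj.ne h3.symm
  exact ⟨(Q.same hx h1).symm.trans hJ, h1⟩

/-- an unmoved vertex over a midpoint `q` whose stabiliser fixes a neighbour of `q` -/
theorem no_fix {x : V} {q p' s' : S.X} (m : S.Mp p' q s') (hx : x ∉ S.Um u)
    (hT : ∃ g : H, g • u = q) (hJ : S.J x = {q}) (hfix : ∀ h : H, h • x = x → h • p' = p') :
    False := by
  obtain ⟨k, k1, k2⟩ := rev m hx hT hJ
  rw [hfix k k1] at k2
  exact m.mid.ne k2

/-- nothing is added next to an unmoved vertex with one point -/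
theorem no_ad {x n : V} {p p' : S.X} (hx : x ∉ S.Um u) (hJ : S.J x = {p})
    (hadj : S.D.G.Adj p p') (hfix : ∀ h : H, h • x = x → h • p' = p') (e : S.K.E x n)
    (h : Q.Ad n p') : False := by
  obtain ⟨v, hv, q, s', m, hJv, ha, hσ, hn, hq, hs', hsub⟩ := Ad.dat h
  obtain ⟨r, r1, r2⟩ := S.one_ex e
  rw [hJ, Set.mem_singleton_iff] at r1
  rw [r1] at r2
  have h1 : p = q := adj_ad m hsub r2 hadj.symm
  rw [h1] at hJ
  exact no_fix m hx (um_T hv hJv) hJ hfix

/-- TWO SIDES -/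
theorem two (hp : S.Plcd) {v : V} (hv : v ∈ S.Um u) {p s s' : S.X} (m : S.Mp s p s')
    (hJ : S.J v = {p}) (hpole : ∀ a, S.K.ar v a → s ∈ S.J a) (hpg : ∃ n, S.K.ar n v) :
    ∃ n, S.K.ar n v ∧ s ∉ S.J n ∧ s' ∈ S.J n := by
  have hfix : ∀ h : H, h • v = v → h • s = s := by
    intro h hh
    obtain ⟨g, h1, h2⟩ := hv
    have e : p = g • u := Set.singleton_injective (hJ.symm.trans h1)
    exact h2 h hh s (by rw [← e]; exact m.mid.hw)
  obtain ⟨n, h1, h2⟩ := hp.page v p s hJ m.mid.hw hfix hpole hpg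
  exact ⟨n, h1, h2, ((m.nb hJ (Or.inr h1)).2).resolve_left h2⟩

theorem two0 (hp : S.Plcd) (hT : S.P.SqT) (hx : ∀ p ∈ S.P.TA, 1 ≤ S.P.X p.1 p.2) {v : V}
    (hv : v ∈ S.Um u) {p s s' : S.X} (m : S.Mp s p s')
    (hJ : S.J v = {p}) (hpole : ∀ a, S.K.ar v a → s ∈ S.J a) (hpg : ∀ n, ¬ S.K.ar n v) :
    (∀ a, S.K.ar v a → s' ∈ S.J a) ∧
      ∃ a b y z c, Qn S.P a v b y z ∧ S.IsC ![a, v, b, y, z] c ∧ c ∈ bey S.D.G p s' := by
  have hfix : ∀ h : H, h • v = v → h • s = s := by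
    intro h hh
    obtain ⟨g, h1, h2⟩ := hv
    have e : p = g • u := Set.singleton_injective (hJ.symm.trans h1)
    exact h2 h hh s (by rw [← e]; exact m.mid.hw)
  obtain ⟨a0, ha0⟩ := m.ov_pole hJ
  have hpent : ∃ a b y z, Qn S.P a v b y z := by
    obtain ⟨b, hb⟩ := GX.EC_iff.1 (m.ec (Or.inr ha0 : S.K.E a0 v))
    rcases corC hb with ⟨y, z, hq⟩ | ⟨y, hq⟩
    · exact ⟨_, _, _, _, hq⟩
    · exact mq_sym hT hx hq hpg
  obtain ⟨a, b, y, z, c, h1, h2, h3⟩ := hp.nopage v p s ⟨a0, ha0⟩ hpg hJ m.mid.hw hfix hpole hpent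
  have hne : p ≠ c := by
    rintro rfl
    exact m.nc h1 h2
  obtain ⟨t, k1, k2⟩ := bey_of_ne hne
  have ht : t = s' := by
    rcases m.mid.val t k1 with e | e
    · rw [e] at k2
      exact absurd k2 h3
    · exact e
  rw [ht] at k1 k2
  have k3 : s' ∉ S.J v := by
    rw [hJ]
    exact k1.ne'
  obtain ⟨c1, c2⟩ := nbr_cs h1 h2 (by rw [hJ]; rfl) k1 k2 k3
  refine ⟨?_, a, b, y, z, c, h1, h2, k2⟩
  intro d hd
  have ha : S.K.ar v a := (h1.E1).resolve_left (hpg a)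
  have hb : S.K.ar v b := (h1.E2).resolve_right (hpg b)
  rcases GX.Sft.cases ha hb (m.nbt h1.rot.cor.symm) hd with rfl | rfl
  · exact c1.2
  · exact c2.2

/-- THE MOVED SYSTEM IS PLACED -/
theorem plcd (hp : S.Plcd) (hT : S.P.SqT) (hx1 : ∀ p ∈ S.P.TA, 1 ≤ S.P.X p.1 p.2) :
    Q.S'.Plcd where
  page := by
    intro x p p' hJ hadj hfix hpole hpg
    have hJ : Q.J' x = {p} := hJ
    have hpole : ∀ a, S.K.ar x a → p' ∈ Q.J' a := hpole
    have hadj : S.D.G.Adj p p' := hadj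
    by_cases hxu : x ∈ S.Um u
    · obtain ⟨q, hq⟩ := um_J hxu
      obtain ⟨s', m⟩ := Q.mpv hxu hq
      rw [Q.J'_um hxu] at hJ
      have e : Q.σ x = p := Set.singleton_injective hJ
      obtain ⟨n1, a1, a2, a3⟩ := two hp hxu m hq (Q.pole x hxu) hpg
      have hpole' : ∀ a, S.K.ar x a → s' ∈ S.J a := fun a ha => m.symm.page_pole hq a1 a3 ha
      by_cases hpq : p' = q
      · obtain ⟨n2, b1, b2, b3⟩ := two hp hxu m.symm hq hpole' hpg
        refine ⟨n2, b1, fun h => ?_⟩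
        have h : p' ∈ Q.J' n2 := h
        rw [hpq] at h
        exact (Q.J'_T h (um_T hxu hq)).2.2 ⟨x, hxu, b1, hq, b3⟩
      · refine ⟨n1, a1, fun h => ?_⟩
        have h : p' ∈ Q.J' n1 := h
        have hn1 := Q.nb_not hxu (Or.inr a1)
        have hsub : S.J n1 ⊆ bey S.D.G (Q.σ x) q :=
          conv_sd S.D.tree (S.js.conv n1) m.mid.hw.symm (fun e => a2 e.1)
            (m.nb hq (Or.inr a1)).1 (bey_self m.mid.hw.symm)
        rcases h with ⟨h, -⟩ | ⟨-, ⟨h, -⟩ | h⟩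
        · exact hn1 h
        · exact hpq (adj_ad (S := S) m hsub h (by rw [e]; exact hadj))
        · rcases Q.bip p p' hadj with k | k
          · rw [← e] at k
            exact Q.σ_nT hxu k
          · exact h.nT k
    · obtain ⟨h1, h2⟩ := Q.sing' hJ hadj hpole hxu
      have hpole' : ∀ a, S.K.ar x a → p' ∈ S.J a := by
        intro a ha
        rcases hpole a ha with ⟨h, -⟩ | ⟨-, ⟨h, -⟩ | h⟩
        · exact absurd ha (h2 a h)
        · exact h
        · exact (Q.no_ad hxu h1 hadj hfix (Or.inl ha) h).elim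
      obtain ⟨n, k1, k2⟩ := hp.page x p p' h1 hadj hfix hpole' hpg
      refine ⟨n, k1, ?_⟩
      rintro (⟨h, -⟩ | ⟨-, ⟨h, -⟩ | h⟩)
      · obtain ⟨q, hq⟩ := um_J h
        obtain ⟨s', m⟩ := Q.mpv h hq
        obtain ⟨l1, l2⟩ := m.nb hq (Or.inl k1)
        rw [h1, Set.mem_singleton_iff] at l1
        rw [h1] at l2
        rcases l2 with l2 | l2
        · exact m.mid.hw.ne (l1.trans l2.symm)
        · exact m.mid.hw'.ne (l1.trans l2.symm)
      · exact k2 h
      · exact Q.no_ad hxu h1 hadj hfix (Or.inr k1) h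
  nopage := by
    intro v p p' hsf hpg hJ hadj hfix hpole hex
    have hJ : Q.J' v = {p} := hJ
    have hpole : ∀ a, S.K.ar v a → p' ∈ Q.J' a := hpole
    have hadj : S.D.G.Adj p p' := hadj
    by_cases hxu : v ∈ S.Um u
    · obtain ⟨q, hq⟩ := um_J hxu
      obtain ⟨s', m⟩ := Q.mpv hxu hq
      rw [Q.J'_um hxu] at hJ
      have e : Q.σ v = p := Set.singleton_injective hJ
      obtain ⟨hpole', a, b, y, z, c, c1, c2, c3⟩ := two0 hp hT hx1 hxu m hq (Q.pole v hxu) hpg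
      by_cases hpq : p' = q
      · obtain ⟨-, a, b, y, z, c, c1, c2, c3⟩ := two0 hp hT hx1 hxu m.symm hq hpole' hpg
        refine ⟨a, b, y, z, c, c1, Q.cen' c1 c2, ?_⟩
        show c ∉ bey S.D.G p p'
        rw [← e, hpq]
        exact fun h => bey_not h c3
      · refine ⟨a, b, y, z, c, c1, Q.cen' c1 c2, ?_⟩
        intro h
        have h : c ∈ bey S.D.G p p' := h
        have h2 : c ∈ bey S.D.G p q := by
          rw [← e]
          exact bey_sub S.D.tree m.mid.hw.symm m.mid.hw' m.mid.ne c3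
        exact hpq (x_next_unique S.D.tree hadj (by rw [← e]; exact m.mid.hw.symm) h h2)
    · obtain ⟨h1, h2⟩ := Q.sing' hJ hadj hpole hxu
      have hpole' : ∀ a, S.K.ar v a → p' ∈ S.J a := by
        intro a ha
        rcases hpole a ha with ⟨h, -⟩ | ⟨-, ⟨h, -⟩ | h⟩
        · exact absurd ha (h2 a h)
        · exact h
        · exact (Q.no_ad hxu h1 hadj hfix (Or.inl ha) h).elim
      obtain ⟨a, b, y, z, c, c1, c2, c3⟩ := hp.nopage v p p' hsf hpg h1 hadj hfix hpole' hex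
      exact ⟨a, b, y, z, c, c1, Q.cen' c1 c2, c3⟩

/-- heavy arrows -/
theorem tog {x a : V} (ha : S.K.ar x a) (h : S.Tog x a) : Q.S'.Tog x a := by
  obtain ⟨p, h1, h2⟩ := h
  -- `p` is not over the orbit of `u`
  have hT : ¬ ∃ g : H, g • u = p := by
    rintro ⟨g, rfl⟩
    have m := Q.mp.smul g
    obtain ⟨-, l2⟩ := m.nb h1 (Or.inl ha)
    rw [h2] at l2
    rcases l2 with l2 | l2
    · exact m.mid.hw.ne l2.symm
    · exact m.mid.hw'.ne l2.symm
  have key : ∀ y : V, S.J y = {p} → Q.J' y = {p} := by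
    intro y hy
    have hyu : y ∉ S.Um u := fun h => hT (um_T h hy)
    rw [Q.same hyu, hy]
    intro v hv hyv
    obtain ⟨q, hq⟩ := um_J hv
    obtain ⟨s', m⟩ := Q.mpv hv hq
    have l1 := (m.nb hq (Or.inr hyv)).1
    rw [hy, Set.mem_singleton_iff] at l1
    rw [← l1] at hT
    exact hT (um_T hv hq)
  exact ⟨p, key x h1, key a h2⟩

/-- THE MOVED SYSTEM IS GOOD -/
theorem gdq0 {Z : V → Prop} (h0 : S.GdQ0 Z) : Q.S'.GdQ0 Z where
  soft := h0.soft
  fin := by
    intro x hx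
    show (Q.J' x).Finite
    have hx : Ell H S.X x := hx
    by_cases hxu : x ∈ S.Um u
    · rw [Q.J'_um hxu]
      exact Set.finite_singleton _
    have h1 : {v | S.K.ar x v}.Finite := by
      by_cases hs : ∃ a, S.K.ar x a
      · obtain ⟨a, ha⟩ := hs
        by_cases hs2 : ∃ b, S.K.ar x b ∧ a ≠ b
        · obtain ⟨b, hb, hne⟩ := hs2
          refine (Set.toFinite ({a, b} : Set V)).subset ?_
          intro c hc
          exact GX.Sft.cases ha hb hne hc
        · push Not at hs2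
          refine (Set.toFinite ({a} : Set V)).subset ?_
          intro c hc
          exact (hs2 c hc).symm
      · push Not at hs
        refine Set.finite_empty.subset ?_
        intro c hc
        exact absurd hc (hs c)
    refine ((h0.fin x hx).union (h1.image Q.σ)).subset ?_
    rintro y (⟨h, -⟩ | ⟨-, ⟨h, -⟩ | ⟨v, hv, ha, h, -⟩⟩)
    · exact absurd h hxu
    · exact Or.inl h
    · exact Or.inr ⟨v, ha, h⟩
  one := by
    intro z hz he
    obtain ⟨p, h⟩ := h0.one z hz he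
    exact ⟨p, (Q.sink' hz).trans h⟩
  seen := by
    intro z hz hZ he
    obtain ⟨p, b, c, y, y', h1, h2, h3⟩ := h0.seen z hz hZ he
    exact ⟨p, b, c, y, y', (Q.sink' hz).trans h1, h2, Q.cen' h2 h3⟩
  ax := by
    intro z hz he
    exact (Q.sink' hz).trans (h0.ax z hz he)

/-- all vertices over a midpoint are reversed -/
theorem rev' {v : V} {p s s' : S.X} (m : S.Mp s p s') (hT : ∃ g : H, g • u = p)
    (hv : Q.J' v = {p}) : ∃ k : H, k • v = v ∧ k • s = s' := by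
  have hvu : v ∉ S.Um u := by
    intro h
    rw [Q.J'_um h] at hv
    rw [← Set.singleton_injective hv] at hT
    exact Q.σ_nT h hT
  have h1 : p ∈ S.J v := (Q.J'_T (show p ∈ Q.J' v by rw [hv]; rfl) hT).2.1
  refine rev m hvu hT ?_
  ext y
  constructor
  · intro hy
    by_contra hne
    obtain ⟨t, k1, k2, -⟩ := ex_nbp h1 hy (fun e => hne e.symm)
    have h2 := Q.keep k2 (Q.not_T k1 hT)
    rw [hv, Set.mem_singleton_iff] at h2
    exact k1.ne h2.symm
  · rintro rfl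
    exact h1

/-- the structure at `u` -/
theorem mq' (m : S.Mq w u w') : Q.S'.Mq w u w' where
  mid := ⟨m.mid.hw, m.mid.hw', m.mid.ne, m.mid.val⟩
  lc := m.lc
  ec := m.ec
  nbt := m.nbt
  pc := m.pc
  nc := by
    intro a q b y z hp hc
    obtain ⟨c, hce⟩ := Qn.cen (S := S) hp
    have h1 := Q.cen' hp hce
    have h2 : c = u := Q.S'.isC_unique (Qn.hv hp) h1 hc
    rw [h2] at hce
    exact m.nc hp hce

end PlS

/-- THE MOVE: from a good placed one-edge system with a midpoint to one in which all vertices over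
the midpoints are reversed -/
theorem exists_mov {Z : V → Prop} (h0 : S.GdQ0 Z) (hp : S.Plcd) (hT : S.P.SqT)
    (hx : ∀ p ∈ S.P.TA, 1 ≤ S.P.X p.1 p.2) {w u w' : S.X} (m : S.Mq w u w')
    (one : ∀ x y, S.D.G.Adj x y → Eo S.D w u x y) (ne : ∀ h : H, h • w ≠ u) :
    ∃ (J' : V → Set S.X) (js' : JS S.P.pq S.D J'), (SyQ.mk S.K S.P S.D J' js').GdQ0 Z ∧
      (SyQ.mk S.K S.P S.D J' js').Plcd ∧ (SyQ.mk S.K S.P S.D J' js').Plc w u w' ∧
      ∀ x a, S.K.ar x a → S.Tog x a → (SyQ.mk S.K S.P S.D J' js').Tog x a := by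
  classical
  have mp := m.mp h0 hT hx hp
  have bip : ∀ a b, S.D.G.Adj a b → (∃ g : H, g • u = a) ∨ (∃ g : H, g • u = b) := by
    intro a b hab
    obtain ⟨h, ⟨h1, h2⟩ | ⟨h1, h2⟩⟩ := one a b hab
    · exact Or.inr ⟨h, h2⟩
    · exact Or.inl ⟨h, h2⟩
  have ne' : ∀ h : H, h • w' ≠ u := by
    intro h e
    obtain ⟨g, ⟨h1, h2⟩ | ⟨h1, h2⟩⟩ := one u w' m.mid.hw'
    · exact ne g h1
    · rw [← h1, ← mul_smul] at e
      exact ne _ e
  have hne : Nonempty S.X := ⟨u⟩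
  obtain ⟨σ, hσ1, hσ2⟩ := exists_sigma (X := S.X) (S.Um u) (fun g v hv => Um_smul g hv)
    (fun v t => (∃ p, S.J v = {p} ∧ S.D.G.Adj p t) ∧ ∀ a, S.K.ar v a → t ∈ S.J a) (by
      rintro g v t ⟨⟨p, h1, h2⟩, h3⟩
      refine ⟨⟨g • p, J_sing h1, S.D.adj_smul g _ _ h2⟩, ?_⟩
      intro a ha
      have h4 : S.K.ar v (g⁻¹ • a) := by
        have := S.K.ar_smul g⁻¹ _ _ ha
        rwa [inv_smul_smul] at this
      have := S.js.smul g _ _ (h3 _ h4)
      rwa [smul_inv_smul] at this) (by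
      intro v hv
      obtain ⟨g, h1, h2⟩ := hv
      have m' := mp.smul g
      rcases m'.exists_side h1 with h | h
      · exact ⟨g • w, ⟨⟨_, h1, m'.mid.hw⟩, h⟩, fun k hk => h2 k hk _ m'.mid.hw⟩
      · exact ⟨g • w', ⟨⟨_, h1, m'.mid.hw'⟩, h⟩, fun k hk => h2 k hk _ m'.mid.hw'⟩)
  let Q : PlS S w u w' :=
    { mp := mp
      bip := bip
      hn := ne
      hn' := ne'
      σ := σ
      adj := by
        intro v hv p hpv
        obtain ⟨⟨q, h1, h2⟩, -⟩ := hσ1 v hv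
        rw [Set.singleton_injective (hpv.symm.trans h1)]
        exact h2
      pole := fun v hv a ha => (hσ1 v hv).2 a ha
      sm := hσ2 }
  have h1 := Q.gdq0 h0
  have h2 := Q.plcd hp hT hx
  have h3 := (Q.mq' m).mp h1 hT hx h2
  refine ⟨Q.J', Q.J'_js, h1, h2, ⟨h3, one, ne, ?_⟩, fun x a ha h => Q.tog ha h⟩
  intro v hv
  exact Q.rev' mp ⟨1, one_smul _ _⟩ hv

end SyQ

end Pool.Agent.DI
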