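import Pool.Agent.DI.OneEdge

/-!
# DI/MuH: a collapse with one orbit of edges and one orbit of vertices

`exists_hnn_col`: if `dist l (t l)` is odd for some `l`, `t` then some collapse has one orbit of edges
and one orbit of vertices. `odd_of_trans`: such `l`, `t` exist over a tree with one orbit of vertices.
-/

namespace Pool.Agent.DI

open MulAction
open Pool.Agent.SAF (InC orbs FinOrb oc Decomp SAn SA Conv exists_cut exists_next FinOrb_iff TAct)
open Pool.Agent.BT (bey)
open Pool.Agent.BT.TA

variable {H : Type} [Group H]

/-- HNN COLLAPSE -/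
theorem exists_hnn_col (D : Decomp H) {l0 : D.X} {t0 : H} (hodd : Odd (D.G.dist l0 (t0 • l0))) :
    ∃ (D1 : Decomp H) (c : D.X → D1.X), TMap D.G D1.G c ∧ (∀ (h : H) a, c (h • a) = h • c a) ∧
      OneE D1 ∧ ∀ x y : D1.X, ∃ h : H, h • x = y := by
  classical
  have hex : ∃ n : ℕ, Odd n ∧ ∃ (l : D.X) (t : H), D.G.dist l (t • l) = n :=
    ⟨_, hodd, l0, t0, rfl⟩
  obtain ⟨hn, l, t, hlt⟩ := Nat.find_spec hex
  set n := Nat.find hex with hndef
  have hmin : ∀ (l' : D.X) (t' : H), Odd (D.G.dist l' (t' • l')) → n ≤ D.G.dist l' (t' • l') :=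
    fun l' t' h => Nat.find_min' hex ⟨h, l', t', rfl⟩
  have hne : l ≠ t • l := by
    intro e
    rw [← e, SimpleGraph.dist_self] at hlt
    rw [← hlt] at hn
    exact absurd hn (by decide)
  obtain ⟨x1, hx1, hd1⟩ := exists_next D.tree hne
  have hR := IR_Rl D l x1
  -- the rest of the path avoids the orbit
  have walk : ∀ m y, D.G.dist y (t • l) = m → D.G.dist l y + m = n → 1 ≤ D.G.dist l y →
      Relation.EqvGen (Rl D l x1) y (t • l) := by
    intro m
    induction m with
    | zero =>
      intro y h1 _ _
      rw [(D.tree.connected.dist_eq_zero_iff).1 h1]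
      exact Relation.EqvGen.refl _
    | succ m ih =>
      intro y h1 h2 h3
      have hny : y ≠ t • l := by
        rintro rfl
        rw [SimpleGraph.dist_self] at h1
        omega
      obtain ⟨y', hy', hdy⟩ := exists_next D.tree hny
      have hdy' : D.G.dist y (t • l) = D.G.dist y' (t • l) + 1 := hdy
      have e1 : D.G.dist y y' = 1 := SimpleGraph.dist_eq_one_iff_adj.2 hy'
      have t1 : D.G.dist l y' ≤ D.G.dist l y + D.G.dist y y' := D.tree.connected.dist_triangle
      have t2 : D.G.dist l (t • l) ≤ D.G.dist l y' + D.G.dist y' (t • l) :=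
        D.tree.connected.dist_triangle
      have h4 : D.G.dist l y' = D.G.dist l y + 1 := by omega
      have h5 : D.G.dist y' (t • l) = m := by omega
      refine Relation.EqvGen.trans _ _ _ (Relation.EqvGen.rel _ _ ⟨hy', ?_⟩)
        (ih y' h5 (by omega) (by omega))
      rintro ⟨g, ⟨g1, g2⟩ | ⟨g1, g2⟩⟩
      · -- same direction
        have h6 : D.G.dist l (g • l) = D.G.dist l y := by rw [g1]
        by_cases ho : Odd (D.G.dist l (g • l))
        · have := hmin l g ho
          omega
        · rw [Nat.not_odd_iff_even] at ho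
          have h7 : D.G.dist l ((g⁻¹ * t) • l) = m + 1 := by
            rw [← D.tact.dist_smul g l ((g⁻¹ * t) • l), mul_smul, smul_inv_smul, g1]
            exact h1
          have ho2 : Odd (D.G.dist l ((g⁻¹ * t) • l)) := by
            rw [h7]
            rw [h6] at ho
            rw [← h2] at hn
            rcases Nat.even_or_odd (m + 1) with h8 | h8
            · exact absurd hn (by
                rw [Nat.not_odd_iff_even]
                exact ho.add h8)
            · exact h8
          have := hmin l _ ho2
          omega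
      · -- opposite direction
        have h6 : D.G.dist l (g • l) = D.G.dist l y + 1 := by rw [g1, h4]
        by_cases ho : Odd (D.G.dist l (g • l))
        · -- `y` is beyond the first edge
          have h7 : D.G.dist y l = D.G.dist y x1 + 1 := by
            rcases bey_or D.tree hx1 y with h8 | h8
            · exact h8
            · exfalso
              have h9 := Pool.Agent.BT.dist_cross D.tree hx1 (a := y) (b := t • l) h8 (by
                rw [SimpleGraph.dist_comm, SimpleGraph.dist_comm (u := t • l) (v := x1)]
                exact hd1)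
              have h10 : D.G.dist y l = D.G.dist l y := SimpleGraph.dist_comm
              have hd1' : D.G.dist l (t • l) = D.G.dist x1 (t • l) + 1 := hd1
              omega
          have h10 : D.G.dist y l = D.G.dist l y := SimpleGraph.dist_comm
          have h11 : D.G.dist x1 (g • x1) = D.G.dist y x1 := by
            rw [g2, SimpleGraph.dist_comm]
          have ho2 : Odd (D.G.dist x1 (g • x1)) := by
            rw [h11]
            rw [h6] at ho
            have h12 : D.G.dist l y + 1 = D.G.dist y x1 + 2 := by omega
            rw [h12] at ho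
            exact (Nat.odd_add.1 ho).2 (by decide)
          have := hmin x1 g ho2
          omega
        · rw [Nat.not_odd_iff_even] at ho
          have h7 : D.G.dist l ((g⁻¹ * t) • l) = m := by
            rw [← D.tact.dist_smul g l ((g⁻¹ * t) • l), mul_smul, smul_inv_smul, g1]
            exact h5
          have ho2 : Odd (D.G.dist l ((g⁻¹ * t) • l)) := by
            rw [h7]
            rw [h6] at ho
            have h8 : n = D.G.dist l y + 1 + m := by omega
            rw [h8] at hn
            rcases Nat.even_or_odd m with h9 | h9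
            · exact absurd hn (by
                rw [Nat.not_odd_iff_even]
                exact ho.add h9)
            · exact h9
          have := hmin l _ ho2
          omega
  have hd1' : D.G.dist l (t • l) = D.G.dist x1 (t • l) + 1 := hd1
  have e1 : D.G.dist l x1 = 1 := SimpleGraph.dist_eq_one_iff_adj.2 hx1
  have hx1t : Relation.EqvGen (Rl D l x1) x1 (t • l) :=
    walk _ x1 rfl (by omega) (by omega)
  -- one orbit of classes
  have hC : ∀ z : D.X, ∃ h : H, Relation.EqvGen (Rl D l x1) (h • l) z := by
    have key : ∀ x y, D.G.Adj x y → (∃ h : H, Relation.EqvGen (Rl D l x1) (h • l) x) →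
        ∃ h : H, Relation.EqvGen (Rl D l x1) (h • l) y := by
      rintro x y hxy ⟨h, hh⟩
      by_cases he : Eo D l x1 x y
      · obtain ⟨g, ⟨rfl, rfl⟩ | ⟨rfl, rfl⟩⟩ := he
        · refine ⟨g * t, ?_⟩
          rw [mul_smul]
          exact (hR.eqv g hx1t).symm
        · exact ⟨g, Relation.EqvGen.refl _⟩
      · exact ⟨h, hh.trans _ _ _ (Relation.EqvGen.rel _ _ ⟨hxy, he⟩)⟩
    intro z
    have hr := (SimpleGraph.reachable_iff_reflTransGen l z).1 (D.tree.connected.preconnected l z)
    induction hr with
    | refl => exact ⟨1, by rw [one_smul]; exact Relation.EqvGen.refl _⟩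
    | tail _ e ih => exact key _ _ e ih
  have hall : ∀ x y : D.X, ∃ h : H, Relation.EqvGen (Rl D l x1) (h • x) y := by
    intro x y
    obtain ⟨h1, hh1⟩ := hC x
    obtain ⟨h2, hh2⟩ := hC y
    refine ⟨h2 * h1⁻¹, ?_⟩
    have h3 := hR.eqv (h2 * h1⁻¹) hh1
    rw [mul_smul, inv_smul_smul] at h3
    exact h3.symm.trans _ _ _ hh2
  obtain ⟨D1, c, T, hc, hcl⟩ := exists_col D _ hR (by
    intro x
    by_contra hcon
    push Not at hcon
    have h1 : ∀ y, Relation.EqvGen (Rl D l x1) y x := by
      intro y
      obtain ⟨h, hh⟩ := hall x y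
      exact hh.symm.trans _ _ _ (hcon h)
    exact (hR.of_class hx1 ((h1 l).trans _ _ _ (h1 x1).symm)).2 (Eo.refl l x1))
  refine ⟨D1, c, T, hc, one_of_col T hc hcl, ?_⟩
  intro x y
  obtain ⟨α, rfl⟩ := T.surj x
  obtain ⟨β, rfl⟩ := T.surj y
  obtain ⟨h, hh⟩ := hall α β
  exact ⟨h, by rw [← hc, hcl]; exact hh⟩

end Pool.Agent.DI
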