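import Pool.Agent.DI.MuJ
import Pool.Agent.DI.PlcdS

/-!
# DI/MuK: places of the vertices without pages, finite sinks are seen

`SyQ.Plcd`: the placement conditions (page), (nopage). `exists_plcd`: they can be reached on a fixed
tree. `Plcd.seen`: elliptic sinks in no square lie in a pentagon centred at their point.
-/

namespace Pool.Agent.DI

open MulAction
open Pool.Agent.SAF (InC orbs FinOrb oc Decomp SAn SA Conv exists_cut exists_next FinOrb_iff TAct)
open Pool.Agent.BT (PX PQ JS bey exits MinSub Ell mst Hyp Lq mst_conv axis bey_irr_l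
  x_next_unique conv_tri_q QDat IsJQ jq_status exists_jq)
open Pool.Agent.BT.TA

variable {H V : Type} [Group H] [MulAction H V]

theorem isC_iff5 {S : SyQ H V} {a v b y z : V} {c : S.X} : S.IsC ![a, v, b, y, z] c ↔
    (c ∈ S.J a ∪ S.J v) ∧ (c ∈ S.J v ∪ S.J b) ∧ (c ∈ S.J b ∪ S.J y) ∧ (c ∈ S.J y ∪ S.J z) ∧
      (c ∈ S.J z ∪ S.J a) := by
  constructor
  · intro h
    exact ⟨h 0, h 1, h 2, h 3, h 4⟩
  · rintro ⟨h0, h1, h2, h3, h4⟩ k
    fin_cases k
    exacts [h0, h1, h2, h3, h4]

theorem isC_smul5 {S : SyQ H V} {a v b y z : V} {c : S.X} (g : H)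
    (h : S.IsC ![a, v, b, y, z] c) : S.IsC ![g • a, g • v, g • b, g • y, g • z] (g • c) := by
  rw [isC_iff5] at h ⊢
  have k : ∀ x : V, c ∈ S.J x → g • c ∈ S.J (g • x) := fun x hx => S.js.smul g x c hx
  obtain ⟨h0, h1, h2, h3, h4⟩ := h
  exact ⟨h0.imp (k _) (k _), h1.imp (k _) (k _), h2.imp (k _) (k _), h3.imp (k _) (k _),
    h4.imp (k _) (k _)⟩

/-- PLACEMENT ON A FIXED TREE -/
theorem exists_plcd {K : GX H V} (P : P45 K) {D : Decomp H}
    (hsoft : ∀ x a, K.ar x a → Ell H D.X x) {J0 : V → Set D.X} (g0 : GJ P.pq D J0) :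
    ∃ (J : V → Set D.X) (g : GJ P.pq D J), (SyQ.mk K P D J g.js).Plcd := by
  classical
  have hne : Nonempty D.X := D.tree.connected.nonempty
  obtain ⟨J, g, hpg⟩ := g0.exists_page K.stab hsoft
  have js := g.js
  let S : SyQ H V := ⟨K, P, D, J, js⟩
  -- the vertices without pages
  let NP : V → Prop := fun x => (∃ a, K.ar x a) ∧ (∀ n, ¬ K.ar n x) ∧
    (∃ w, ∀ a, K.ar x a → w ∈ J a) ∧ ∃ a b y z, Qn P a x b y z
  have hNP : ∀ (h : H) x, NP x → NP (h • x) := by
    rintro h x ⟨⟨a, ha⟩, h2, ⟨w, hw⟩, a', b, y, z, hq⟩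
    refine ⟨⟨h • a, K.ar_smul h _ _ ha⟩, ?_, ⟨h • w, ?_⟩, h • a', h • b, h • y, h • z, hq.smul h⟩
    · intro n hn
      have := K.ar_smul h⁻¹ _ _ hn
      rw [inv_smul_smul] at this
      exact h2 _ this
    · intro a ha
      have := K.ar_smul h⁻¹ _ _ ha
      rw [inv_smul_smul] at this
      have h3 := js.smul h _ _ (hw _ this)
      rwa [smul_inv_smul] at h3
  have hNP' : ∀ (h : H) x, NP (h • x) → NP x := by
    intro h x hx
    have := hNP h⁻¹ _ hx
    rwa [inv_smul_smul] at this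
  let Q : V → D.X → Prop := fun x w => (∀ a, K.ar x a → w ∈ J a) ∧
    ∀ w1, D.G.Adj w w1 → (∀ h : H, h • x = x → h • w1 = w1) → (∀ a, K.ar x a → w1 ∈ J a) →
      ∃ a b y z c, Qn P a x b y z ∧ S.IsC ![a, x, b, y, z] c ∧ c ∉ bey D.G w w1
  have hQs : ∀ (h : H) x w, Q x w → Q (h • x) (h • w) := by
    rintro h x w ⟨h1, h2⟩
    have hin : ∀ w a, (∀ a, K.ar x a → w ∈ J a) → K.ar (h • x) a → h • w ∈ J a := by
      intro w a hw ha
      have := K.ar_smul h⁻¹ _ _ ha
      rw [inv_smul_smul] at this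
      have h3 := js.smul h _ _ (hw _ this)
      rwa [smul_inv_smul] at h3
    refine ⟨fun a ha => hin w a h1 ha, ?_⟩
    intro w1 h3 h4 h5
    obtain ⟨a, b, y, z, c, k1, k2, k3⟩ := h2 (h⁻¹ • w1) (by
        have := D.adj_smul h⁻¹ _ _ h3
        rwa [inv_smul_smul] at this) (by
        intro k hk
        have := h4 (h * k * h⁻¹) (by rw [mul_smul, mul_smul, inv_smul_smul, hk])
        rw [mul_smul, mul_smul] at this
        exact smul_eq_iff_eq_inv_smul h |>.1 this) (by
        intro a ha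
        have := js.smul h⁻¹ _ _ (h5 _ (K.ar_smul h _ _ ha))
        rwa [inv_smul_smul] at this)
    refine ⟨h • a, h • b, h • y, h • z, h • c, k1.smul h, isC_smul5 h k2, ?_⟩
    intro hcon
    apply k3
    have h6 : D.G.dist (h • c) (h • w) = D.G.dist (h • c) w1 + 1 := hcon
    show D.G.dist c w = D.G.dist c (h⁻¹ • w1) + 1
    rw [D.tact.dist_smul] at h6
    rw [h6, ← D.tact.dist_smul h c (h⁻¹ • w1), smul_inv_smul]
  obtain ⟨q, hq1, hq2⟩ := oe_equi (H := H) (V := V) (X := D.X)
    (E := fun x => Ell H D.X x) (P := fun x w => (NP x → Q x w) ∧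
      (¬ NP x → ∀ s, J x = {s} → w = s))
    (fun h x hx => ell_smul hx h) (by
      rintro h x w ⟨h1, h2⟩
      refine ⟨fun hx => hQs h x w (h1 (hNP' h x hx)), ?_⟩
      intro hn s hs
      have h3 : J x = {h⁻¹ • s} := by
        have := js_pt_smul js hs h⁻¹
        rwa [inv_smul_smul] at this
      rw [h2 (fun hx => hn (hNP h x hx)) _ h3, smul_inv_smul]) (by
      intro x hx
      by_cases hn : NP x
      · obtain ⟨⟨a0, ha0⟩, hnp, hov, a, b, y, z, hq⟩ := hn
        obtain ⟨p, hp⟩ := js_point js ⟨a0, ha0⟩ hov.choose_spec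
        have hpJ : ∀ a, K.ar x a → p ∈ J a := by
          intro a ha
          obtain ⟨s, hs⟩ := js.one x a (Or.inl ha)
          have hs' : s ∈ J x ∩ J a := by rw [hs]; rfl
          have := hs'.1
          rw [hp, Set.mem_singleton_iff] at this
          rw [← this]
          exact hs'.2
        obtain ⟨c, hc⟩ := S.cen (SyQ.Qn.hv hq)
        -- the fixed point of `I` nearest to `c`
        have hex : ∃ n : ℕ, ∃ w : D.X, (∀ a, K.ar x a → w ∈ J a) ∧
            (∀ h : H, h • x = x → h • w = w) ∧ D.G.dist c w = n :=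
          ⟨_, p, hpJ, fun h hh => js_fix js hp hh, rfl⟩
        obtain ⟨w, h1, h2, h3⟩ := Nat.find_spec hex
        refine ⟨w, ⟨fun _ => ⟨h1, ?_⟩, fun hcon => absurd ⟨⟨a0, ha0⟩, hnp, hov, a, b, y, z, hq⟩ hcon⟩,
          fun h hh => h2 h hh⟩
        intro w1 h4 h5 h6
        refine ⟨a, b, y, z, c, hq, hc, ?_⟩
        intro hcon
        have h7 : D.G.dist c w = D.G.dist c w1 + 1 := hcon
        have h8 := Nat.find_min' hex ⟨w1, h6, h5, rfl⟩
        omega
      · by_cases hs : ∃ s, J x = {s}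
        · obtain ⟨s, hs⟩ := hs
          refine ⟨s, ⟨fun h => absurd h hn, fun _ s' hs' => ?_⟩, ?_⟩
          · exact Set.singleton_injective (hs.symm.trans hs')
          · intro h hh
            exact js_fix js hs hh
        · obtain ⟨y, hy⟩ := hx
          exact ⟨y, ⟨fun h => absurd h hn, fun _ s hs' => absurd ⟨s, hs'⟩ hs⟩, hy⟩)
  have hQ : QDat P.pq D (Lq H q) q := qdat_lq (K := P.pq) K.stab hsoft q hq1
  obtain ⟨J', hJ', js', hfin⟩ := exists_jq P.pq D _ q hQ
  have hLe : ∀ x, Ell H D.X x → Lq H q x = {q x} := fun x h => if_pos h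
  have hLh : ∀ x, ¬ Ell H D.X x → Lq H q x = mst D.G (stabilizer H x) := fun x h => if_neg h
  have hpn : ∀ x a, K.ar x a → ¬ NP a := fun x a ha h => h.2.1 x ha
  have same : ∀ n x, K.rk x ≤ n → ¬ NP x → J' x = J x := by
    intro n
    induction n using Nat.strong_induction_on with
    | _ n ih =>
      intro x hn hx0
      by_cases hx : ∃ a, K.ar x a
      · have ihp : ∀ a, K.ar x a → J' a = J a := by
          intro a ha
          have := K.ar_rk _ _ ha
          exact ih (K.rk a) (by omega) a le_rfl (hpn x a ha)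
        have hgx := hJ'.good hQ x
        refine TMap.eq_of_pos D.tree hgx.1 (js.conv x) hgx.2 (js.ne x) ?_
        intro w w' e
        rw [(jq_status P.pq D _ q hQ J' hJ' e x hx).2, js_status js hx ((by
          intro s hs
          obtain ⟨a, ha⟩ := hx
          exact (hq2 x (hsoft x a ha)).2 hx0 s hs) : ∀ s, J x = {s} → q x = s) e]
        have e1 : ∀ u u' : D.X, (∃ a, P.pq.ar x a ∧ J' a ⊆ bey D.G u u') ↔
            ∃ a, P.pq.ar x a ∧ J a ⊆ bey D.G u u' := by
          intro u u'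
          constructor
          · rintro ⟨a, ha, h⟩
            exact ⟨a, ha, by rwa [ihp a ha] at h⟩
          · rintro ⟨a, ha, h⟩
            exact ⟨a, ha, by rwa [ihp a ha]⟩
        rw [e1, e1]
      · push Not at hx
        rw [hJ'.sink x hx]
        by_cases he : Ell H D.X x
        · obtain ⟨s, hs⟩ := g.one x hx he
          rw [hLe x he, (hq2 x he).2 hx0 s hs, hs]
        · rw [hLh x he, g.ax x hx he]
  have same' : ∀ x, ¬ NP x → J' x = J x := fun x hx => same _ x le_rfl hx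
  have npJ : ∀ x, NP x → J' x = {q x} := by
    rintro x hx
    obtain ⟨a0, ha0⟩ := hx.1
    have h1 := ((hq2 x (hsoft x a0 ha0)).1 hx).1
    have hin : ∀ a, K.ar x a → q x ∈ J' a := by
      intro a ha
      rw [same' a (hpn x a ha)]
      exact h1 a ha
    obtain ⟨s, hs1, hs2, hs3⟩ := hJ'.pt _ ⟨a0, ha0⟩ ⟨q x, hin⟩
    have h4 := hs3 (q x) hin
    rw [SimpleGraph.dist_self] at h4
    have h5 : D.G.dist (q x) s = 0 := by omega
    rw [hs1, (D.tree.connected.dist_eq_zero_iff).1 h5]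
  have ptJ : ∀ x, NP x → ∃ p, J x = {p} ∧ ∀ a, K.ar x a → p ∈ J a := by
    intro x hx
    obtain ⟨p, hp⟩ := js_point js hx.1 hx.2.2.1.choose_spec
    refine ⟨p, hp, ?_⟩
    intro a ha
    obtain ⟨s, hs⟩ := js.one x a (Or.inl ha)
    have hs' : s ∈ J x ∩ J a := by rw [hs]; rfl
    have := hs'.1
    rw [hp, Set.mem_singleton_iff] at this
    rw [← this]
    exact hs'.2
  let S' : SyQ H V := ⟨K, P, D, J', js'⟩
  -- centres stay
  have cE : ∀ {x y : V} {c : D.X}, K.E x y → c ∈ J x ∪ J y → c ∈ J' x ∪ J' y := by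
    have key : ∀ {x y : V} {c : D.X}, K.E x y → c ∈ J x → c ∈ J' x ∪ J' y := by
      intro x y c e hc
      by_cases hx : NP x
      · obtain ⟨p, hp, hp2⟩ := ptJ x hx
        have hxy : K.ar x y := e.resolve_right (hx.2.1 y)
        right
        rw [same' y (hpn x y hxy)]
        rw [hp, Set.mem_singleton_iff] at hc
        rw [hc]
        exact hp2 y hxy
      · left
        rw [same' x hx]
        exact hc
    intro x y c e hc
    rcases hc with hc | hc
    · exact key e hc
    · exact (key e.symm hc).symm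
  have cC : ∀ {a x b y z : V} {c : D.X}, Qn P a x b y z → S.IsC ![a, x, b, y, z] c →
      S'.IsC ![a, x, b, y, z] c := by
    intro a x b y z c hq hc
    rw [isC_iff5] at hc ⊢
    obtain ⟨h0, h1, h2, h3, h4⟩ := hc
    exact ⟨cE hq.E1 h0, cE hq.E2 h1, cE hq.E3 h2, cE hq.E4 h3, cE hq.E5 h4⟩
  have gj : GJ P.pq D J' := by
    refine ⟨js', ?_, ?_, ?_, ?_⟩
    · intro x hx
      by_cases ha : ∃ a, K.ar x a
      · exact hfin x ha
      · push Not at ha
        rw [hJ'.sink x ha, hLe x hx]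
        exact Set.finite_singleton _
    · intro z hz he
      exact ⟨q z, by rw [hJ'.sink z hz, hLe z he]⟩
    · intro z hz he
      rw [hJ'.sink z hz, hLh z he]
    · intro x a ha hi
      obtain ⟨s, h1, h2⟩ := g.tog x a ha hi
      have h3 := same' a (hpn x a ha)
      refine ⟨s, ?_, by rw [h3, h2]⟩
      by_cases hx : NP x
      · have h4 := ((hq2 x (hsoft x a ha)).1 hx).1 a ha
        rw [h2, Set.mem_singleton_iff] at h4
        rw [npJ x hx, h4]
      · rw [same' x hx, h1]
  refine ⟨J', gj, ?_, ?_⟩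
  · intro x p p' h1 h2 h3 h4 h5
    obtain ⟨n0, hn0⟩ := h5
    have hx : ¬ NP x := hpn n0 x hn0
    have h1' : J x = {p} := (same' x hx).symm.trans h1
    obtain ⟨n, hn, hn'⟩ := hpg x p p' h1' h2 h3 (fun a ha => by
      have := h4 a ha
      rw [← same' a (hpn x a ha)]
      exact this) ⟨n0, hn0⟩
    refine ⟨n, hn, ?_⟩
    show p' ∉ J' n
    by_cases hnn : NP n
    · intro hcon
      have h6 := npJ n hnn
      obtain ⟨s, hs⟩ := js'.one n x (Or.inl hn)
      have hs' : s ∈ J' n ∩ J' x := by rw [hs]; rfl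
      rw [h6] at hcon
      have h7 := hs'.1
      rw [h6] at h7
      have h8 : s ∈ J' x := hs'.2
      rw [show J' x = {p} from h1, Set.mem_singleton_iff] at h8
      rw [Set.mem_singleton_iff] at hcon h7
      exact h2.ne (h8.symm.trans (h7.trans hcon.symm))
    · rw [same' n hnn]
      exact hn'
  · intro v p p' h1 h2 h3 h4 h5 h6 h7
    have h3' : J' v = {p} := h3
    have hov : ∀ a, K.ar v a → p ∈ J a := by
      intro a ha
      obtain ⟨s, hs⟩ := js'.one v a (Or.inl ha)
      have hs' : s ∈ J' v ∩ J' a := by rw [hs]; rfl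
      have h8 := hs'.1
      rw [h3', Set.mem_singleton_iff] at h8
      rw [← h8, ← same' a (hpn v a ha)]
      exact hs'.2
    have hv : NP v := ⟨h1, h2, ⟨p, hov⟩, h7⟩
    have h9 : q v = p := Set.singleton_injective ((npJ v hv).symm.trans h3')
    obtain ⟨a0, ha0⟩ := h1
    obtain ⟨a, b, y, z, c, k1, k2, k3⟩ := ((hq2 v (hsoft v a0 ha0)).1 hv).2 p'
      (by rw [h9]; exact h4) h5 (fun a ha => by
        have := h6 a ha
        rw [← same' a (hpn v a ha)]
        exact this)
    rw [h9] at k3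
    exact ⟨a, b, y, z, c, k1, cC k1 k2, k3⟩

end Pool.Agent.DI
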