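import Pool.Agent.DI.MuK
import Pool.Agent.DI.OneEdge

/-!
# DI/MuL: the placement conditions give seen sinks and pass through refinements and collapses

`Plcd.seen`, `Plcd.next`, `Plcd.col`; `exists_hnn_col`: if `dist l (t l)` is odd for some `l`, `t`
then some collapse has one orbit of edges and one orbit of vertices.
-/

namespace Pool.Agent.DI

open MulAction
open Pool.Agent.SAF (InC orbs FinOrb oc Decomp SAn SA Conv exists_cut exists_next FinOrb_iff TAct)
open Pool.Agent.BT (PX PQ JS bey exits MinSub Ell mst Hyp Lq mst_conv axis bey_irr_l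
  x_next_unique conv_tri_q)
open Pool.Agent.BT.TA

/-- the next vertex is fixed -/
theorem mj_next {H : Type} [Group H] {D : Decomp H} {x y z : D.X} {g : H} (hx : g • x = x)
    (hy : g • y = y) (hz : D.G.Adj x z) (hd : D.G.dist x y = D.G.dist z y + 1) : g • z = z := by
  have h1 : D.G.Adj x (g • z) := by
    have := D.adj_smul g _ _ hz
    rwa [hx] at this
  have h2 : D.G.dist (g • z) y = D.G.dist z y := by
    conv_lhs => rw [← hy]
    exact D.tact.dist_smul g z y
  have k1 : y ∈ bey D.G x z := by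
    show D.G.dist y x = D.G.dist y z + 1
    rw [SimpleGraph.dist_comm, hd, SimpleGraph.dist_comm]
  have k2 : y ∈ bey D.G x (g • z) := by
    show D.G.dist y x = D.G.dist y (g • z) + 1
    rw [SimpleGraph.dist_comm, hd, ← h2, SimpleGraph.dist_comm]
  exact x_next_unique D.tree h1 hz k2 k1

namespace SyQ

variable {H V : Type} [Group H] [MulAction H V] {S : SyQ H V}

/-- FINITE SINKS ARE SEEN -/
theorem Plcd.seen (pl : S.Plcd) (hl : ∀ v, S.K.LC v) (hb : ¬ SA H) {z : V}
    (hz : ∀ a, ¬ S.K.ar z a) (hq : S.P.NoQ z) {p : S.X} (hp : S.J z = {p}) :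
    ∃ b c y y', Qn S.P b z c y y' ∧ S.IsC ![b, z, c, y, y'] p := by
  by_contra hcon
  push Not at hcon
  have hfp : ∀ h : H, h • z = z → h • p = p := fun h hh => js_fix S.js hp hh
  -- a neighbour
  obtain ⟨n0, e0⟩ : ∃ y, S.K.E z y := by
    by_contra hno
    push Not at hno
    have hall : ∀ x, x = z := by
      intro x
      have := S.K.conn z x
      induction this with
      | refl => rfl
      | tail _ h2 ih =>
        rw [ih] at h2
        exact absurd h2 (hno _)
    obtain ⟨h, hh⟩ := S.D.nofix p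
    exact hh (hfp h (hall _))
  have har : ∀ y, S.K.E z y → S.K.ar y z := fun y e => e.resolve_left (hz y)
  have hpy : ∀ y, S.K.E z y → p ∈ S.J y := by
    intro y e
    obtain ⟨r, h1, h2⟩ := S.one_ex e
    rw [hp, Set.mem_singleton_iff] at h1
    rwa [h1] at h2
  have hpz : p ∈ S.J z := by rw [hp]; rfl
  have huniq : ∀ y, S.K.E z y → ∀ t t', S.D.G.Adj p t → S.D.G.Adj p t' → t ∈ S.J y →
      t' ∈ S.J y → t = t' := by
    intro y e t t' h1 h2 h3 h4
    rcases S.js.two y p (hpy y e) (Sum.inl z) (Or.inl ⟨z, rfl, har y e, hpz⟩) (Sum.inr t)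
      (Or.inr ⟨t, rfl, h1, h3⟩) (Sum.inr t') (Or.inr ⟨t', rfl, h2, h4⟩) with k | k | k
    · cases k
    · cases k
    · exact Sum.inr_injective k
  have hcor : ∀ y y', S.K.Cor y z y' → S.K.E z y → S.K.E z y' →
      ∃ t, S.D.G.Adj p t ∧ t ∈ S.J y ∧ t ∈ S.J y' := by
    intro y y' hc e e'
    obtain ⟨a, b, hqn⟩ := hq.cor hc
    obtain ⟨c, hcc⟩ := S.cen (SyQ.Qn.hv hqn)
    have hne : p ≠ c := by
      rintro rfl
      exact hcon _ _ _ _ hqn hcc
    have hcz : c ∉ S.J z := by
      rw [hp]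
      exact fun h => hne h.symm
    have hcc := isC_iff5.1 hcc
    have h1 : c ∈ S.J y := hcc.1.resolve_right hcz
    have h2 : c ∈ S.J y' := hcc.2.1.resolve_left hcz
    obtain ⟨t, ht, hd⟩ := exists_next S.D.tree hne
    have h3 : S.D.G.dist p t = 1 := SimpleGraph.dist_eq_one_iff_adj.2 ht
    exact ⟨t, ht, S.js.conv y _ (hpy y e) _ h1 _ (by rw [h3, hd, add_comm]),
      S.js.conv y' _ (hpy y' e') _ h2 _ (by rw [h3, hd, add_comm])⟩
  obtain ⟨b0, hb0⟩ := GX.EC_iff.1 (S.K.EC_of_E hl hb e0.symm)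
  have hb0' := hb0.E2
  obtain ⟨t0, ht0, h0, -⟩ := hcor n0 b0 hb0 e0 hb0'
  have hall : ∀ y, S.K.E z y → t0 ∈ S.J y := by
    have key : ∀ a b, Relation.EqvGen (fun a b => S.K.Cor a z b) a b →
        ((S.K.E z a ∧ t0 ∈ S.J a) ↔ (S.K.E z b ∧ t0 ∈ S.J b)) := by
      intro a b h
      induction h with
      | rel a b h =>
        have ea : S.K.E z a := h.symm.E2
        have eb : S.K.E z b := h.E2
        obtain ⟨t, k1, k2, k3⟩ := hcor a b h ea eb
        constructor
        · rintro ⟨-, h1⟩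
          rw [huniq a ea _ _ ht0 k1 h1 k2]
          exact ⟨eb, k3⟩
        · rintro ⟨-, h1⟩
          rw [huniq b eb _ _ ht0 k1 h1 k3]
          exact ⟨ea, k2⟩
      | refl a => exact Iff.rfl
      | symm a b _ ih => exact ih.symm
      | trans a b c _ _ ih1 ih2 => exact ih1.trans ih2
    intro y e
    exact ((key n0 y (hl z n0 y e0 e)).1 ⟨e0, h0⟩).2
  have hfix : ∀ h : H, h • z = z → h • t0 = t0 := by
    intro h hh
    have e1 : S.K.E z (h • n0) := by
      have := S.K.E_smul h e0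
      rwa [hh] at this
    refine huniq _ e1 _ _ ?_ ht0 (S.js.smul h _ _ h0) (hall _ e1)
    have := S.D.adj_smul h _ _ ht0
    rwa [hfp h hh] at this
  obtain ⟨n, hn, hn'⟩ := pl.page z p t0 hp ht0 hfix (fun a ha => absurd ha (hz a)) ⟨n0, har _ e0⟩
  exact hn' (hall n (Or.inr hn))

/-- THE CONDITIONS PASS TO THE REFINEMENT -/
theorem Plcd.next (pl : S.Plcd) : S.next.Plcd := by
  have hpt : ∀ {x : V} {l : S.LV}, S.next.J x = {l} → S.J x = {S.pr l} := by
    intro x l hl
    ext w
    constructor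
    · intro hw
      obtain ⟨m, hm, rfl⟩ := S.J'_ex hw
      have hm' : m ∈ S.next.J x := hm
      rw [hl] at hm'
      have hm2 : m = l := hm'
      rw [hm2]
      rfl
    · intro hw
      rw [Set.mem_singleton_iff.1 hw]
      exact S.J'_pr (x := x) (show l ∈ S.next.J x by rw [hl]; rfl)
  have hfx : ∀ {x : V} {l : S.LV}, (∀ h : H, h • x = x → h • l = l) →
      ∀ h : H, h • x = x → h • S.pr l = S.pr l := by
    intro x l hf h hh
    rw [← S.pr_smul, hf h hh]
  refine ⟨?_, ?_⟩
  · intro x l l' h1 h2 h3 h4 h5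
    have h2' : S.LAdj l l' := h2
    obtain ⟨n, hn, hn'⟩ := pl.page x (S.pr l) (S.pr l') (hpt h1) h2'.1 (hfx h3)
      (fun a ha => S.J'_pr (x := a) (h4 a ha)) h5
    exact ⟨n, hn, fun hcon => hn' (S.J'_pr (x := n) hcon)⟩
  · intro v l l' h1 h2 h3 h4 h5 h6 h7
    have h4' : S.LAdj l l' := h4
    obtain ⟨a, b, y, z, c, k1, k2, k3⟩ := pl.nopage v (S.pr l) (S.pr l') h1 h2 (hpt h3) h4'.1
      (hfx h5) (fun a ha => S.J'_pr (x := a) (h6 a ha)) h7
    obtain ⟨m, rfl, hm, -⟩ := S.next_cen (SyQ.Qn.hv k1) k2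
    refine ⟨a, b, y, z, m, k1, hm, ?_⟩
    intro hcon
    have hva : S.K.ar v a := by
      rcases k1.E1 with e | e
      · exact absurd e (h2 a)
      · exact e
    have hlv : l ∈ S.next.J v := by rw [h3]; rfl
    have hla : l ∈ S.next.J a := by
      obtain ⟨r, h8, h9⟩ := S.next.one_ex (Or.inl hva)
      rw [h3] at h8
      have h8' : r = l := h8
      rwa [h8'] at h9
    have hma : m ∈ S.next.J a := by
      rcases (isC_iff5.1 hm).1 with e | e
      · exact e
      · rw [h3] at e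
        have e' : m = l := e
        rw [e']
        exact hla
    exact k3 ((S.bey_iff (x := a) hla (h6 a hva) hma).1 hcon)

/-- THE CONDITIONS PASS TO COLLAPSES -/
theorem Plcd.col (pl : S.Plcd) (hs : S.SinkOK) {D1 : Decomp H} {c : S.X → D1.X}
    (T : TMap S.D.G D1.G c) (hc : ∀ (h : H) a, c (h • a) = h • c a) : (S.col hs T hc).Plcd := by
  -- the situation
  have key : ∀ (x : V) (p p' : D1.X), c '' S.J x = {p} → D1.G.Adj p p' →
      (∀ h : H, h • x = x → h • p' = p') → (∀ a, S.K.ar x a → p' ∈ c '' S.J a) →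
      ∃ α β s t, c α = p ∧ c β = p' ∧ S.D.G.Adj α β ∧ S.J x = {s} ∧ S.D.G.Adj s t ∧
        (∀ h : H, h • x = x → h • t = t) ∧ (∀ a, S.K.ar x a → t ∈ S.J a) ∧
        (∀ n, S.K.ar n x → p' ∈ c '' S.J n → t ∈ S.J n) ∧
        (∀ c0 : S.X, c0 ∈ bey S.D.G α β → c0 ∈ bey S.D.G s t) := by
    intro x p p' h1 h2 h3 h4
    obtain ⟨α, β, hα, hβ, hab⟩ := T.lift p p' h2
    have hne : c α ≠ c β := by
      rw [hα, hβ]
      exact h2.ne
    have hjs1 := (S.col hs T hc).js
    have hfp : ∀ h : H, h • x = x → h • p = p := fun h hh => js_fix hjs1 (p := p) h1 hh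
    have hfab : ∀ h : H, h • x = x → h • α = α ∧ h • β = β := by
      intro h hh
      refine T.uniq _ _ _ _ (S.D.adj_smul h _ _ hab) hab ?_ ?_ ?_
      · rw [hc, hc]
        exact fun e => hne (smul_left_cancel h e)
      · rw [hc, hα, hfp h hh]
      · rw [hc, hβ, h3 h hh]
    -- neighbours
    have hin : ∀ y, S.K.E x y → p ∈ c '' S.J y := by
      intro y e
      obtain ⟨r, h5, h6⟩ := (S.col hs T hc).one_ex e
      have h5' : r ∈ c '' S.J x := h5
      rw [h1, Set.mem_singleton_iff] at h5'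
      rw [← h5']
      exact h6
    have hlift : ∀ y, S.K.E x y → p' ∈ c '' S.J y → α ∈ S.J y ∧ β ∈ S.J y := by
      intro y e hy
      exact T.mem_lift' (S.js.conv y) hab hne (by rw [hα]; exact hin y e) (by rw [hβ]; exact hy)
    -- the point
    obtain ⟨s, hsx⟩ : ∃ s, S.J x = {s} := by
      by_cases hx : ∃ a, S.K.ar x a
      · exact js_point S.js hx (w := α) (fun a ha => (hlift a (Or.inl ha) (h4 a ha)).1)
      · push Not at hx
        rcases hs x hx with h | ⟨h, -⟩
        · exact h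
        · exfalso
          obtain ⟨k, hk, hk'⟩ := h α
          exact hk' (hfab k hk).1
    have hcs : c s = p := by
      have : c s ∈ c '' S.J x := ⟨s, by rw [hsx]; rfl, rfl⟩
      rwa [h1, Set.mem_singleton_iff] at this
    have hsy : ∀ y, S.K.E x y → s ∈ S.J y := by
      intro y e
      obtain ⟨r, h5, h6⟩ := S.one_ex e
      rw [hsx, Set.mem_singleton_iff] at h5
      rwa [h5] at h6
    by_cases hsα : s = α
    · subst hsα
      exact ⟨s, β, s, β, hα, hβ, hab, hsx, hab, fun h hh => (hfab h hh).2,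
        fun a ha => (hlift a (Or.inl ha) (h4 a ha)).2,
        fun n hn hn' => (hlift n (Or.inr hn) hn').2, fun _ h => h⟩
    · obtain ⟨t, ht, hd⟩ := exists_next S.D.tree hsα
      have h3' : S.D.G.dist s t = 1 := SimpleGraph.dist_eq_one_iff_adj.2 ht
      have hty : ∀ y, s ∈ S.J y → α ∈ S.J y → t ∈ S.J y := fun y k1 k2 =>
        S.js.conv y _ k1 _ k2 _ (by rw [h3', hd, add_comm])
      refine ⟨α, β, s, t, hα, hβ, hab, hsx, ht, ?_, ?_, ?_, ?_⟩
      · intro h hh
        exact mj_next (js_fix S.js hsx hh) (hfab h hh).1 ht hd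
      · intro a ha
        exact hty a (hsy a (Or.inl ha)) (hlift a (Or.inl ha) (h4 a ha)).1
      · intro n hn hn'
        exact hty n (hsy n (Or.inr hn)) (hlift n (Or.inr hn) hn').1
      · intro c0 h0
        -- `s` and `t` are on the side of `α`
        have hst : ∀ w : S.X, c w = p → w ∈ bey S.D.G β α := by
          intro w hw
          rw [T.bey_iff hab.symm hne.symm, hw, hα, hβ]
          exact bey_self h2.symm
        have hct : c t = p := by
          have h5 := T.conv_fibre p s hcs α hα t (by rw [h3', hd, add_comm])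
          exact h5
        have k1 := Pool.Agent.BT.dist_cross S.D.tree hab (show S.D.G.dist s β =
          S.D.G.dist s α + 1 from hst s hcs) (show S.D.G.dist c0 α = S.D.G.dist c0 β + 1 from h0)
        have k2 := Pool.Agent.BT.dist_cross S.D.tree hab (show S.D.G.dist t β =
          S.D.G.dist t α + 1 from hst t hct) (show S.D.G.dist c0 α = S.D.G.dist c0 β + 1 from h0)
        show S.D.G.dist c0 s = S.D.G.dist c0 t + 1
        rw [SimpleGraph.dist_comm, k1, SimpleGraph.dist_comm (u := c0) (v := t), k2]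
        have hd' : S.D.G.dist s α = S.D.G.dist t α + 1 := hd
        omega
  refine ⟨?_, ?_⟩
  · intro x p p' h1 h2 h3 h4 h5
    obtain ⟨α, β, s, t, -, -, -, k1, k2, k3, k4, k5, -⟩ := key x p p' h1 h2 h3 h4
    obtain ⟨n, hn, hn'⟩ := pl.page x s t k1 k2 k3 k4 h5
    exact ⟨n, hn, fun hcon => hn' (k5 n hn hcon)⟩
  · intro v p p' h1 h2 h3 h4 h5 h6 h7
    obtain ⟨α, β, s, t, hα, hβ, hab, k1, k2, k3, k4, -, k6⟩ := key v p p' h3 h4 h5 h6
    obtain ⟨a, b, y, z, c0, m1, m2, m3⟩ := pl.nopage v s t h1 h2 k1 k2 k3 k4 h7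
    refine ⟨a, b, y, z, c c0, m1, ?_, ?_⟩
    · intro k
      exact (m2 k).imp (fun h => ⟨c0, h, rfl⟩) (fun h => ⟨c0, h, rfl⟩)
    · intro hcon
      have hne : c α ≠ c β := by
        rw [hα, hβ]
        exact h4.ne
      apply m3
      apply k6
      rw [T.bey_iff hab hne, hα, hβ]
      exact hcon

end SyQ

end Pool.Agent.DI
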