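import Pool.Agent.DI.MuL
import Pool.Agent.DI.MuH
import Pool.Agent.DI.OneEdgeR
import Pool.Agent.DI.LightQ

/-!
# DI/MuM: placed one-edge systems

`Cd.LW.one_placedQ`: either a good placed one-edge system with one orbit of vertices, or, over an
inverted one-edge tree, a placed system which is good except for connectedness, no pentagon is centred at
the midpoint.
-/

namespace Pool.Agent.DI

open MulAction
open Pool.Agent.SAF (InC orbs FinOrb oc Decomp SAn SA Conv exists_cut exists_next FinOrb_iff TAct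
  dist_edge)
open Pool.Agent.BT (PX PQ JS bey exits MinSub Ell mst Hyp Lq mst_conv axis)
open Pool.Agent.BT.TA

/-- a graph map between trees keeps the parity of distances -/
theorem par_map {X' X : Type} {G' : SimpleGraph X'} {G : SimpleGraph X} (hG' : G'.IsTree)
    (hG : G.IsTree) (f : X' → X) (hf : ∀ a b, G'.Adj a b → G.Adj (f a) (f b)) (l m : X') :
    Even (G'.dist l m + G.dist (f l) (f m)) := by
  have hr := (SimpleGraph.reachable_iff_reflTransGen l m).1 (hG'.connected.preconnected l m)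
  induction hr with
  | refl => rw [SimpleGraph.dist_self, SimpleGraph.dist_self]; exact ⟨0, rfl⟩
  | @tail m m' _ e ih =>
    rw [Nat.even_iff] at ih ⊢
    have h1 := (dist_edge hG' e l).1
    have h2 := (dist_edge hG (hf _ _ e) (f l)).1
    omega

theorem inC_stab_smul {H X : Type} [Group H] [MulAction H X] (h : H) (w : X)
    (hC : InC ↥(stabilizer H w)) : InC ↥(stabilizer H (h • w)) := by
  rw [MulAction.stabilizer_smul_eq_stabilizer_map_conj]
  exact hC.iso (Subgroup.equivMapOfInjective _ _ (MulAut.conj h).injective)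

namespace FoldC

variable {C : Cd} {V : Type} [MulAction C.H V] {K : GX C.H V} {P : P45 K} {f : V → C.V}

/-- no pentagon is centred at a vertex whose group is in the class -/
theorem c5e (F : FoldC C P f) {D : Decomp C.H} {J : V → Set D.X} (js : JS P.pq D J) {u : D.X}
    (hU : InC ↥(stabilizer C.H u)) : IsEmpty ((SyQ.mk K P D J js).C5 u) := by
  have hA : P.px.A = C.P.px.A := by
    rw [Pt.px_A, ← F.area, P.area_eq]
    rfl
  have hmin : MinSub C.H P.px.A := by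
    rw [hA]
    exact C.minSub
  refine ⟨fun c => ?_⟩
  obtain ⟨i, hi, h, hI⟩ := c
  let S : SyQ C.H V := ⟨K, P, D, J, js⟩
  have h1 : S.IsC (S.tr 1 i) (h⁻¹ • u) := by
    have := (S.isC_smul h⁻¹ h i u).2 hI
    rwa [inv_mul_cancel] at this
  refine hmin.lemZ' C.bad (K := P.px) js ⟨i, hi⟩ (h⁻¹ • u) ?_ (inC_stab_smul h⁻¹ u hU)
  intro k
  have h2 := h1 k
  have e : ∀ j, S.tr 1 i j = P.pt i j := fun j => one_smul _ _
  rw [e, e] at h2
  exact h2

theorem nc (F : FoldC C P f) {D : Decomp C.H} {J : V → Set D.X} (js : JS P.pq D J) {u : D.X}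
    (hU : InC ↥(stabilizer C.H u)) {a q b y z : V} (hp : Qn P a q b y z) :
    ¬ (SyQ.mk K P D J js).IsC ![a, q, b, y, z] u := by
  intro h
  obtain ⟨c, -⟩ := SyQ.c5_of_qn (S := SyQ.mk K P D J js) hp h
  exact (F.c5e js hU).false c

end FoldC

namespace SyQ

variable {H V : Type} [Group H] [MulAction H V] {S : SyQ H V}

theorem GdQ.gj {Z : V → Prop} (hg : S.GdQ Z) (ht : ∀ x a, S.K.ar x a →
    Infinite ↥(stabilizer H ((x, a) : V × V)) → S.Tog x a) : GJ S.P.pq S.D S.J :=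
  ⟨S.js, hg.fin, hg.one, hg.ax, ht⟩

/-- placed systems are good -/
theorem Plcd.gdQ0 (pl : S.Plcd) (g : GJ S.P.pq S.D S.J) (hl : ∀ v, S.K.LC v) (hb : ¬ SA H)
    (hsoft : ∀ x a, S.K.ar x a → Ell H S.X x) {Z : V → Prop} (hZ : ∀ z, Z z → S.P.NoQ z) :
    S.GdQ0 Z := by
  refine ⟨hsoft, g.fin, g.one, ?_, g.ax⟩
  intro z hz hzZ he
  obtain ⟨p, hp⟩ := g.one z hz he
  obtain ⟨b, c, y, y', h1, h2⟩ := pl.seen hl hb hz (hZ z hzZ) hp
  exact ⟨p, b, c, y, y', hp, h1, h2⟩

/-- over a tree with one orbit of vertices there is an odd translation in the refinement -/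
theorem next_odd (htr : ∀ x y : S.X, ∃ h : H, h • x = y) :
    ∃ (l : S.next.X) (t : H), Odd (S.next.D.G.dist l (t • l)) := by
  obtain ⟨x0⟩ := S.K.ne
  obtain ⟨l, hl⟩ := S.next.js.ne x0
  obtain ⟨w', hw'⟩ := exists_nb S.D (S.pr l)
  obtain ⟨t, ht⟩ := htr (S.pr l) w'
  refine ⟨l, t, ?_⟩
  have h1 := par_map S.next.D.tree S.D.tree S.pr (fun a b h => (h : S.LAdj a b).1) l (t • l)
  have h2 : S.pr (t • l) = w' := by
    have : S.pr (t • l) = t • S.pr l := S.pr_smul t l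
    rw [this, ht]
  rw [h2, SimpleGraph.dist_eq_one_iff_adj.2 hw'] at h1
  rcases Nat.even_or_odd (S.next.D.G.dist l (t • l)) with h3 | h3
  · exfalso
    rw [Nat.even_iff] at h1 h3
    omega
  · exact h3

end SyQ

/-- PLACED ONE-EDGE SYSTEMS -/
theorem Cd.LW.one_placedQ {C : Cd} (hC : C.LW) {V : Type} [MulAction C.H V] {K : GX C.H V}
    {P : P45 K} {f : V → C.V} (F : FoldC C P f) (hT : P.SqT) :
    (∃ (D : Decomp C.H) (J : V → Set D.X) (js : JS P.pq D J),
      (SyQ.mk K P D J js).GdQ K.FS ∧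
      (∀ x a, K.ar x a → Infinite ↥(stabilizer C.H ((x, a) : V × V)) →
        (SyQ.mk K P D J js).Tog x a) ∧ (SyQ.mk K P D J js).Plcd ∧ OneE D ∧
      ∀ x y : D.X, ∃ h : C.H, h • x = y) ∨
    ∃ (D : Decomp C.H) (J : V → Set D.X) (js : JS P.pq D J) (w u : D.X),
      (SyQ.mk K P D J js).GdQ0 K.FS ∧
      (∀ x a, K.ar x a → Infinite ↥(stabilizer C.H ((x, a) : V × V)) →
        (SyQ.mk K P D J js).Tog x a) ∧ (SyQ.mk K P D J js).Plcd ∧ OneE D ∧
      ¬ SA ↥(stabilizer C.H w) ∧ (SyQ.mk K P D J js).Inv1 w u ∧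
      ∀ a q b y z, Qn P a q b y z → ¬ (SyQ.mk K P D J js).IsC ![a, q, b, y, z] u := by
  obtain ⟨D5, J5, js5, hg5, ht5, hone5, halt⟩ := hC.one_edgeQ F hT
  have hsoft : ∀ (D : Decomp C.H) x a, K.ar x a → Ell C.H D.X x := fun D x a ha =>
    F.soft D x a ha
  have g5 : GJ P.pq D5 J5 := hg5.gj ht5
  obtain ⟨J6, g6, pl6⟩ := exists_plcd P (hsoft D5) g5
  let S6 : SyQ C.H V := ⟨K, P, D5, J6, g6.js⟩
  have hg6 : S6.GdQ0 K.FS := SyQ.Plcd.gdQ0 (S := S6) pl6 g6 F.lc C.bad (hsoft D5) F.fs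
  have ht6 : ∀ x a, K.ar x a → Infinite ↥(stabilizer C.H ((x, a) : V × V)) → S6.Tog x a := g6.tog
  rcases halt with htr | ⟨w, u, hw, hi⟩
  · left
    have hg7 := hg6.next
    have pl7 : S6.next.Plcd := SyQ.Plcd.next pl6
    obtain ⟨l, t, hodd⟩ := SyQ.next_odd (S := S6) htr
    obtain ⟨D8, c8, T8, hc8, hone8, htr8⟩ := exists_hnn_col S6.next.D hodd
    refine ⟨D8, _, (S6.next.col hg7.sinkOK T8 hc8).js, ?_, ?_, ?_, hone8, htr8⟩
    · exact hg7.col (fun z _ hz => FoldC.fs_ell S6.next.D z hz) T8 hc8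
    · intro x a ha hi
      exact SyQ.Tog.col hg7.sinkOK T8 hc8 ((ht6 x a ha hi).next (Or.inl ha))
    · exact SyQ.Plcd.col pl7 hg7.sinkOK T8 hc8
  · right
    refine ⟨D5, J6, g6.js, w, u, hg6, ht6, pl6, hone5, hw, ?_, ?_⟩
    · exact ⟨hi.adj, hi.orb, hi.ne, hi.inC, hi.flip⟩
    · intro a q b y z hp
      exact F.nc g6.js hi.inC hp

end Pool.Agent.DI
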