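import Pool.Agent.DI.NsL
import Pool.Agent.DI.LT4

/-!
# DI/Ns2: the inequality of a near star in the form of the charges

`S.ck`: the number of the far strands of a near star arrow (LT4), `S.Qk w O κ k`: the near star arrow `k`
lies over its hub with the partner given by `κ`.
`NSt.law42`: `#outS ≤ X' [y] [n] + Σ_{Q ([y],[n]) k} (ck k - 1)` (no assumption on the numbers `ck`).
`NSt.one_le`: if there is a pass which leaves the star then `1 ≤ X' [y] [n]`.
-/

namespace Pool.Agent.DI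

open MulAction
open Pool.Agent.SAF (InC orbs FinOrb oc Decomp SAn SA Conv hull dist_edge FinOrb_iff exists_next
  mk_eq_iff oc_mono oc_le_of_inj oc_le_of_rel oc_le_of_surj)
open Pool.Agent.BT (PX PQ JS bey exits lz lz_self lz_ne lz_symm x_next_unique)
open Pool.Agent.BT.TA

/-- a non-empty set has an orbit -/
theorem ns2_oc_pos {G Y : Type} [Group G] [MulAction G Y] {A : Set Y} (hA : FinOrb G A)
    (h : A.Nonempty) : 1 ≤ oc G A := by
  obtain ⟨a, ha⟩ := h
  have h1 : (orbs G A).Nonempty := ⟨_, a, ha, rfl⟩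
  exact (Set.ncard_pos hA).2 h1

/-- a sum is at most the sum of `f - 1` and the number of the orbits -/
theorem ns2_os_sub {G Y : Type} [Group G] [MulAction G Y] {A : Set Y} (hA : FinOrb G A) (f : Y → ℕ) :
    os G A f ≤ os G A (fun y => f y - 1) + oc G A := by
  rw [← os_one hA, ← os_add hA]
  exact os_le hA fun p _ => by omega

namespace SyQ

variable {H V : Type} [Group H] [MulAction H V] {S : SyQ H V}

section

variable {w u : S.X} {O : S.OR w} {n x y : V}

theorem NSt.kn (N : S.NSt w u O n x y) : S.KN w O u n x y := ⟨N.qs.symm', N.op, N.nx, N.yn⟩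

/-- the near stars over a near star -/
theorem NSt.qk_iff (hO : O.Nf) (N : S.NSt w u O n x y) {k : S.Q w O × S.Q w O} :
    S.Qk w O (S.fq w O (S.rho w y), S.fq w O (S.rho w n)) k ↔
      ∃ c ∈ S.clsS w O n y, k = (c, S.fq w O (S.rho w y)) := by
  constructor
  · rintro ⟨u', q, z, m, h1, h2, rfl⟩
    have e1 : S.fq w O (S.rho w q) = S.fq w O (S.rho w y) := (congrArg Prod.fst h2).symm
    have e2 : S.fq w O (S.rho w z) = S.fq w O (S.rho w n) := (congrArg Prod.snd h2).symm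
    have hq : q ∈ S.Yc w O y := e1
    have N' := (N.nv.cl hO hq).1
    -- the pole is `n`
    have hzn : z = n := by
      by_contra hne
      exact poles_edge hne N'.cs.1 h1.2.2.1 N'.yn h1.1.l.1 N'.nw N'.adj N'.cs.2
    subst hzn
    exact ⟨_, ⟨u', q, m, hq, h1.nst, rfl⟩, by rw [e1]⟩
  · rintro ⟨c, ⟨u', y', z, h1, h2, rfl⟩, rfl⟩
    have e1 : S.fq w O (S.rho w y') = S.fq w O (S.rho w y) := h1
    exact ⟨u', y', n, z, h2.kn, by rw [e1], by rw [e1]⟩

theorem NSt.fin_cls {hc : S.Conn} (hnb : S.NB) (hm : (S.k0 hc w).Min) (hO : O.Nf)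
    (hK : S.KIn w) (N : S.NSt w u O n x y) :
    FinOrb ↥(stabilizer ↥(stabilizer H w) (S.fq w O (S.rho w y), S.fq w O (S.rho w n)))
      (S.clsS w O n y) :=
  (finOrb_of_sSum (fin_of_rel (fin_tgt (hm := hm) (hn := S.sqN hc w O) y n)
    (S.RelN hc hnb w O hm (S.sqN hc w O)) (RelN.ex hO hK N) (RelN.inj hO hK N))).2

theorem NSt.fin_qk {hc : S.Conn} (hnb : S.NB) (hm : (S.k0 hc w).Min) (hO : O.Nf)
    (hK : S.KIn w) (N : S.NSt w u O n x y) :
    FinOrb ↥(stabilizer ↥(stabilizer H w) (S.fq w O (S.rho w y), S.fq w O (S.rho w n)))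
      {k | S.Qk w O (S.fq w O (S.rho w y), S.fq w O (S.rho w n)) k} := by
  refine Pool.Agent.SAF.FinOrb.image (N.fin_cls hnb hm hO hK)
    (fun c => (c, S.fq w O (S.rho w y))) ?_ ?_
  · intro k hk
    obtain ⟨c, hc, rfl⟩ := (N.qk_iff hO).1 hk
    exact ⟨c, hc, 1, one_smul _ _⟩
  · rintro c - _ - ⟨g, rfl⟩
    exact ⟨g, Prod.ext rfl (congrArg Prod.fst g.2)⟩

/-- finitely many far corners -/
theorem NSt.fin_farS (hO : O.Nf) (N : S.NSt w u O n x y) :
    FinOrb ↥(stabilizer ↥(stabilizer H w) (S.fq w O (S.rho w y), S.fq w O (S.rho w n)))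
      (S.farS w u O n x y) := by
  have hE : ∀ f : FL S.K, S.K.E (P45.fy f) (P45.fz f) := by
    rintro ⟨e, b⟩
    cases b
    · exact S.K.c_E0 e
    · exact S.K.c_E2 e
  have h5 : FinOrb ↥(stabilizer H w) {f : FL S.K | w ∈ S.J (P45.fy f) ∧ w ∈ S.J (P45.fz f)} := by
    refine Pool.Agent.SAF.FinOrb.of_inj (P45.fin_FL (K := S.K)) (fun f => f)
      (fun _ _ => trivial) ?_
    rintro f ⟨a1, a2⟩ f' ⟨b1, b2⟩ ⟨g, rfl⟩
    have c1 := S.js.smul g _ _ a1
    have c2 := S.js.smul g _ _ a2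
    rw [P45.fy_smul] at b1
    rw [P45.fz_smul] at b2
    have hEg : S.K.E (g • P45.fy f) (g • P45.fz f) := S.K.E_smul g (hE f)
    exact ⟨⟨g, S.one_eq hEg c1 c2 b1 b2⟩, rfl⟩
  have h4 : FinOrb ↥(stabilizer H w) {p : (V × V) × (V × V) | p ∈ S.P.ZP ∧ w ∈ S.J p.1.1 ∧
      w ∈ S.J p.1.2} := by
    refine Pool.Agent.SAF.FinOrb.of_inj (P45.fin_ZP (P := S.P)) (fun f => f)
      (fun _ h => h.1) ?_
    rintro p ⟨a0, a1, a2⟩ p' ⟨b0, b1, b2⟩ ⟨g, rfl⟩
    have c1 := S.js.smul g _ _ a1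
    have c2 := S.js.smul g _ _ a2
    have hEg : S.K.E (g • p.1.1) (g • p.1.2) := S.K.E_smul g (Or.inl a0.2.1)
    exact ⟨⟨g, S.one_eq hEg c1 c2 b1 b2⟩, rfl⟩
  have k5 := fin_fib (π := fun f : FL S.K => (S.fq w O (S.rho w (P45.fprv f)),
    S.fq w O (S.rho w (P45.fy f)))) (fun g f => by
      show (S.fq w O (S.rho w (P45.fprv (g.1 • f))), S.fq w O (S.rho w (P45.fy (g.1 • f)))) = _
      rw [P45.fprv_smul, P45.fy_smul, S.rho_smul, S.rho_smul]
      rfl) h5 (S.fq w O (S.rho w y), S.fq w O (S.rho w n))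
  have k4 := fin_fib (π := fun p : (V × V) × (V × V) => (S.fq w O (S.rho w p.2.2),
    S.fq w O (S.rho w p.1.1))) (fun g p => by
      show (S.fq w O (S.rho w (g.1 • p.2.2)), S.fq w O (S.rho w (g.1 • p.1.1))) = _
      rw [S.rho_smul, S.rho_smul]
      rfl) h4 (S.fq w O (S.rho w y), S.fq w O (S.rho w n))
  refine (finOrb_sSum k5 k4).mono ?_
  rintro (f | p) hi
  · obtain ⟨j1, j2, j3, j4, j5⟩ := hi
    refine sSum_inl.2 ⟨⟨by rw [j3]; exact N.nv.nw, by rw [j4]; exact N.qs.r.1⟩, ?_⟩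
    show (S.fq w O (S.rho w (P45.fprv f)), S.fq w O (S.rho w (P45.fy f))) = _
    rw [j3]
    exact Prod.ext j2 rfl
  · obtain ⟨j1, j2, j3, j4, j5⟩ := hi
    have N' := (N.nv.cl hO j2).1
    refine sSum_inr.2 ⟨⟨⟨j1, ?_, ?_⟩, by rw [j3]; exact N.nv.nw, by rw [j4]; exact N.qs.r.1⟩, ?_⟩
    · rw [j3, j4]
      exact N.nx
    · rw [j3]
      exact N'.yn
    · show (S.fq w O (S.rho w p.2.2), S.fq w O (S.rho w p.1.1)) = _
      rw [j3]
      exact Prod.ext j2 rfl

/-- `ck` is invariant -/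
theorem NSt.ck_smul (hO : O.Nf) (N : S.NSt w u O n x y) (g : ↥(stabilizer H w)) :
    S.ck w O (g • (S.fq w O (S.rho w y), S.fq w O (S.rho w n))) =
      S.ck w O (S.fq w O (S.rho w y), S.fq w O (S.rho w n)) := by
  have hf : FinOrb ↥(stabilizer ↥(stabilizer H w) (S.fq w O (S.rho w y), S.fq w O (S.rho w n)))
      (S.fkS w O (S.fq w O (S.rho w y), S.fq w O (S.rho w n))) := by
    rw [fkS_eq hO N.kn]
    exact N.fin_farS hO
  have := oc_stab_smul (G := ↥(stabilizer H w)) (F := S.fkS w O)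
    (fun g x y hy => LTp.fkS_smul g x y hy) g (S.fq w O (S.rho w y), S.fq w O (S.rho w n)) hf
  exact this

/-- (N*), RIGHT HALF: no assumption on the numbers of the far strands -/
theorem NSt.law42 {hc : S.Conn} (hnb : S.NB) {hm : (S.k0 hc w).Min} {hn : S.SqN w O}
    (hO : O.Nf) (hK : S.KIn w) (N : S.NSt w u O n x y) :
    oc ↥(stabilizer ↥(stabilizer H w) (S.fq w O (S.rho w y), S.fq w O (S.rho w n)))
      (S.outS w O n x y) ≤
    (S.kfP hc w O hm hn).X (S.fq w O (S.rho w y)) (S.fq w O (S.rho w n)) +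
      os ↥(stabilizer ↥(stabilizer H w) (S.fq w O (S.rho w y), S.fq w O (S.rho w n)))
        {k | S.Qk w O (S.fq w O (S.rho w y), S.fq w O (S.rho w n)) k}
        (fun k => S.ck w O k - 1) := by
  have h1 := N.law (hm := hm) (hn := hn) hnb hO hK
  have hfc := N.fin_cls hnb hm hO hK
  have h2 := ns2_os_sub hfc (S.cN w O n x y)
  have h3 : os ↥(stabilizer ↥(stabilizer H w) (S.fq w O (S.rho w y), S.fq w O (S.rho w n)))
      (S.clsS w O n y) (fun c => S.cN w O n x y c - 1) ≤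
      os ↥(stabilizer ↥(stabilizer H w) (S.fq w O (S.rho w y), S.fq w O (S.rho w n)))
        {k | S.Qk w O (S.fq w O (S.rho w y), S.fq w O (S.rho w n)) k}
        (fun k => S.ck w O k - 1) := by
    refine os_of_inj hfc (N.fin_qk hnb hm hO hK) (fun c => (c, S.fq w O (S.rho w y)))
      (fun c hc => (N.qk_iff hO).2 ⟨c, hc, rfl⟩) ?_ ?_ ?_
    · rintro c - c' - ⟨g, hg⟩
      exact ⟨g, congrArg Prod.fst hg⟩
    · intro g k hk hk'
      obtain ⟨c, ⟨u', y', z, k1, k2, rfl⟩, rfl⟩ := (N.qk_iff hO).1 hk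
      have e1 : S.fq w O (S.rho w y') = S.fq w O (S.rho w y) := k1
      have key : ∀ c' : S.Q w O, c' = S.fq w O (S.rho w y') →
          S.ck w O (g.1 • (S.fq w O (S.rho w z), c')) = S.ck w O (S.fq w O (S.rho w z), c') := by
        rintro _ rfl
        exact k2.ck_smul hO g.1
      have e2 := key _ e1.symm
      show S.ck w O (g.1 • _) - 1 = S.ck w O _ - 1
      rw [e2]
    · rintro c ⟨u', y', z, k1, k2, rfl⟩
      have e1 : S.fq w O (S.rho w y') = S.fq w O (S.rho w y) := k1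
      have e2 := N.cN_eq hnb hO k1 k2
      have e3 := ck_eq hO k2.kn
      have e4 : S.ck w O (S.fq w O (S.rho w z), S.fq w O (S.rho w y)) =
          oc ↥(stabilizer ↥(stabilizer H w) (S.fq w O (S.rho w z), S.fq w O (S.rho w y')))
            (S.farS w u' O y' n z) :=
        (congrArg (fun c => S.ck w O (S.fq w O (S.rho w z), c)) e1.symm).trans e3
      show S.cN w O n x y _ - 1 ≤ S.ck w O (_, S.fq w O (S.rho w y)) - 1
      rw [e2, e4]
  omega

/-- `X' ≥ 1` AT A NEAR STAR if there is a pass which leaves the star -/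
theorem NSt.one_le {hc : S.Conn} (hnb : S.NB) {hm : (S.k0 hc w).Min} {hn : S.SqN w O}
    (hO : O.Nf) (hK : S.KIn w) (N : S.NSt w u O n x y) (h : (S.outS w O n x y).Nonempty) :
    1 ≤ (S.kfP hc w O hm hn).X (S.fq w O (S.rho w y)) (S.fq w O (S.rho w n)) := by
  have hfc := N.fin_cls hnb hm hO hK
  by_cases hne : (S.clsS w O n y).Nonempty
  · have h1 := N.near_cls_le (hm := hm) (hn := hn) hnb hO hK
    have h2 := ns2_oc_pos hfc hne
    omega
  · have h1 := N.law (hm := hm) (hn := hn) hnb hO hK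
    have h2 := ns2_oc_pos (N.fin_out hO) h
    have h3 : S.clsS w O n y = ∅ := Set.not_nonempty_iff_eq_empty.1 hne
    rw [h3, os_empty] at h1
    omega

end

end SyQ

end Pool.Agent.DI
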