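import Pool.Agent.DI.NsP
import Pool.Agent.DI.ClsK
import Pool.Agent.DI.Geo4C

/-!
# DI/NsD: the strands of a near star top of the folded slice

`S.nrS`: the passes of `outS` at `w`; `S.frB`: the passes of `outS` which go on beyond another edge;
`S.clsS`: the near star tops `[z]` over `[y]` with partner `[n]`.
`NSt.near_cls_le`: `#nrS + #clsS ≤ X' [y] [n]`.
-/

namespace Pool.Agent.DI

open MulAction
open Pool.Agent.SAF (InC orbs FinOrb oc Decomp SAn SA Conv hull dist_edge FinOrb_iff exists_next)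
open Pool.Agent.BT (PX PQ JS bey exits lz lz_self lz_ne lz_symm x_next_unique)
open Pool.Agent.BT.TA

/-- finiteness from a relation -/
theorem fin_of_rel {H H' Y Y' : Type} [Group H] [Group H'] [MulAction H Y] [MulAction H' Y']
    {s : Set Y} {s' : Set Y'} (hs' : FinOrb H' s') (R : Y → Y' → Prop)
    (hf : ∀ a ∈ s, ∃ b ∈ s', R a b)
    (hinj : ∀ a ∈ s, ∀ b ∈ s, ∀ a' ∈ s', ∀ b' ∈ s', R a a' → R b b' →
      (∃ h : H', h • a' = b') → ∃ h : H, h • a = b) : FinOrb H s := by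
  classical
  by_cases hne : ∃ a, a ∈ s
  · obtain ⟨a0, h0⟩ := hne
    obtain ⟨b0, -, -⟩ := hf a0 h0
    let f : Y → Y' := fun a => if h : a ∈ s then (hf a h).choose else b0
    have hf1 : ∀ a (h : a ∈ s), f a = (hf a h).choose := fun a h => dif_pos h
    refine Pool.Agent.SAF.FinOrb.of_inj hs' f ?_ ?_
    · intro a ha
      rw [hf1 a ha]
      exact (hf a ha).choose_spec.1
    · intro a ha b hb h
      rw [hf1 a ha, hf1 b hb] at h
      exact hinj a ha b hb _ (hf a ha).choose_spec.1 _ (hf b hb).choose_spec.1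
        (hf a ha).choose_spec.2 (hf b hb).choose_spec.2 h
  · push Not at hne
    have : s = ∅ := Set.eq_empty_iff_forall_notMem.2 hne
    rw [this]
    unfold FinOrb orbs
    rw [Set.image_empty]
    exact Set.finite_empty

namespace SyQ

variable {H V : Type} [Group H] [MulAction H V] (S : SyQ H V)

/-- the pass goes on beyond an edge at the last vertex -/
def FarI (w : S.X) (i : FL S.K ⊕ ((V × V) × (V × V))) : Prop :=
  match i with
  | Sum.inl f => ∃ u', S.Qs w u' (P45.fy f) (P45.fprv f) (P45.fz f) ∧ S.J (P45.fv f) ⊆ bey S.D.G w u'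
  | Sum.inr p => ∃ u', S.Qs w u' p.1.1 p.2.2 p.1.2 ∧ S.J p.2.1 ⊆ bey S.D.G w u'

/-- the passes at `w` -/
def nrS (w : S.X) (O : S.OR w) (n x y : V) : Set (FL S.K ⊕ ((V × V) × (V × V))) :=
  {i | i ∈ S.outS w O n x y ∧ ¬ S.FarI w i}

/-- the far passes -/
def frB (w : S.X) (O : S.OR w) (n x y : V) : Set (FL S.K ⊕ ((V × V) × (V × V))) :=
  {i | i ∈ S.outS w O n x y ∧ S.FarI w i}

/-- the near star tops over `[y]` with partner `[n]` -/
def clsS (w : S.X) (O : S.OR w) (n y : V) : Set (S.Q w O) :=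
  {c | ∃ u' y' z, y' ∈ S.Yc w O y ∧ S.NSt w u' O y' n z ∧ S.fq w O (S.rho w z) = c}

variable {S}

section

variable {w u : S.X} {O : S.OR w} {n x y : V}

/-- LOCAL WALKS `z - y' - n - m` are determined by the classes of `z` and `m` -/
theorem ns_loc_inj (hO : O.Nf) (hK : S.KIn w) (N : S.NSt w u O n x y) {z1 y1 m1 z2 y2 m2 : V}
    (h1 : Q4 S.P z1 y1 n m1) (h2 : Q4 S.P z2 y2 n m2) (l1 : S.At4 z1 y1 n m1 w)
    (l2 : S.At4 z2 y2 n m2 w) (a1 : S.K.ar z1 y1) (a2 : S.K.ar z2 y2) (c1 : y1 ∈ S.Yc w O y)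
    (c2 : y2 ∈ S.Yc w O y) (n1 : m1 ∉ S.Yc w O y) (n2 : m2 ∉ S.Yc w O y)
    (ez : S.fq w O (S.rho w z1) = S.fq w O (S.rho w z2))
    (em : S.fq w O (S.rho w m1) = S.fq w O (S.rho w m2)) : z1 = z2 ∧ y1 = y2 ∧ m1 = m2 := by
  have b1 := (N.nv.cl hO c1).1.yn
  have b2 := (N.nv.cl hO c2).1.yn
  -- the top is `z` or `m`
  have top : ∀ {z y' m : V}, Q4 S.P z y' n m → S.K.ar z y' → S.K.ar y' n →
      S.P.Top z y' m n ∨ S.P.Top m z n y' := by
    intro z y' m hq a b
    rcases hq.ck_top hK.top with k | k | k | k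
    · exact Or.inl k
    · exact (GX.ck_asym a k.2.2).elim
    · exact (GX.ck_asym b k.2.2).elim
    · exact Or.inr k
  have single : ∀ {T a b p c : V}, S.P.Top T a b p → S.Loc w T a b p → w ∈ S.J c →
      S.fq w O (S.rho w c) = S.fq w O (S.rho w T) → c = T := by
    intro T a b p c ht hl hc' e
    have k := cls_one hl.1 (fun v hv => hK.no_cs ht hl hv)
      (fun v => hO.loc_nsk ht hl hl.1 v) e
    rw [S.rho_near hl.1] at k
    exact rho_inl k
  rcases top h1 a1 b1 with t1 | t1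
  · have hl1 : S.Loc w z1 y1 m1 n := ⟨l1.p0, l1.p1, l1.p3, l1.p2⟩
    have hz : z2 = z1 := single t1 hl1 l2.p0 ez.symm
    subst hz
    rcases top h2 a2 b2 with t2 | t2
    · have hy : y1 = y2 := by
        rcases S.K.two _ _ _ _ t1.2.1 t1.2.2 t2.2.1 with e | e | e
        · exact absurd e (hK.nab _ _ _ _ t1)
        · rw [← e] at c2
          exact absurd c2 n1
        · exact e
      refine ⟨rfl, hy, ?_⟩
      rcases S.K.two _ _ _ _ t1.2.1 t1.2.2 t2.2.2 with e | e | e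
      · exact absurd e (hK.nab _ _ _ _ t1)
      · exact e
      · rw [← e] at n2
        exact absurd c1 n2
    · exfalso
      have hl2 : S.Loc w m2 z2 n y2 := ⟨l2.p3, l2.p0, l2.p2, l2.p1⟩
      have hm : m1 = m2 := single t2 hl2 l1.p3 em
      rw [hm] at t1
      exact GX.ck_asym t1.2.2 t2.2.1
  · have hl1 : S.Loc w m1 z1 n y1 := ⟨l1.p3, l1.p0, l1.p2, l1.p1⟩
    have hm : m2 = m1 := single t1 hl1 l2.p3 em.symm
    subst hm
    rcases top h2 a2 b2 with t2 | t2
    · exfalso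
      have hl2 : S.Loc w z2 y2 m2 n := ⟨l2.p0, l2.p1, l2.p3, l2.p2⟩
      have hz : z1 = z2 := single t2 hl2 l1.p0 ez
      rw [hz] at t1
      exact GX.ck_asym t2.2.2 t1.2.1
    · have hz : z1 = z2 := by
        rcases S.K.two _ _ _ _ t1.2.1 t1.2.2 t2.2.1 with e | e | e
        · exact absurd e (hK.nab _ _ _ _ t1)
        · exfalso
          have r1 := S.K.ar_rk _ _ a2
          have r2 := S.K.ar_rk _ _ b2
          rw [← e] at r1
          omega
        · exact e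
      exact ⟨hz, hK.par _ _ _ _ _ _ _ t1 hl1 t2, rfl⟩

/-- LOCAL WALKS are walks of the folded slice -/
theorem ns_loc_walk {hc : S.Conn} {hm : (S.k0 hc w).Min} {hn : S.SqN w O} (hO : O.Nf) (hK : S.KIn w)
    (N : S.NSt w u O n x y) {z y' m : V} (hq : Q4 S.P z y' n m) (l : S.At4 z y' n m w)
    (a : S.K.ar z y') (c : y' ∈ S.Yc w O y) (nm : m ∉ S.Yc w O y) :
    Q4 (S.kfP hc w O hm hn) (S.fq w O (S.rho w z)) (S.fq w O (S.rho w y')) (S.fq w O (S.rho w n))
      (S.fq w O (S.rho w m)) ∧ S.arQ w O (S.fq w O (S.rho w z)) (S.fq w O (S.rho w y')) ∧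
      ∀ v : S.EV w, S.fq w O (S.rho w m) ≠ S.fq w O (Sum.inr v) := by
  have N' := (N.nv.cl hO c).1
  have hop : ∀ v, S.D.G.Adj w v → O.op v y' := fun v hv => hO.op_of_cs N'.adj N'.cs hv
  have key : (∀ v, ¬ S.Sk w O v (Sum.inl ⟨z, l.p0⟩)) ∧ ∀ v, ¬ S.Sk w O v (Sum.inl ⟨m, l.p3⟩) := by
    rcases hq.ck_top hK.top with k | k | k | k
    · have hl : S.Loc w z y' m n := ⟨l.p0, l.p1, l.p3, l.p2⟩
      have hl' : S.Loc w z m y' n := ⟨l.p0, l.p3, l.p1, l.p2⟩
      exact ⟨fun v => hO.loc_nsk k hl l.p0 v, fun v => hO.side_nsk k.symm' hl' l.p3 v⟩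
    · exact (GX.ck_asym a k.2.2).elim
    · exact (GX.ck_asym N'.yn k.2.2).elim
    · have hl : S.Loc w m z n y' := ⟨l.p3, l.p0, l.p2, l.p1⟩
      exact ⟨fun v => hO.side_nsk k hl l.p0 v, fun v => hO.loc_nsk k hl l.p3 v⟩
  have ar1 : S.arQ w O (S.fq w O (S.rho w z)) (S.fq w O (S.rho w y')) :=
    arQ_term l.p0 key.1 (not_dn_of_op a l.p1 hop) (sar_hor l.p0 l.p1 a)
  have ar2 := N'.ar
  have ne1 := fq_ne2 ar1 ar2
  have ne2 : S.fq w O (S.rho w y') ≠ S.fq w O (S.rho w m) := by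
    intro e
    exact nm (e.symm.trans c)
  refine ⟨?_, ar1, ?_⟩
  · refine k0_Q4_kf hm hn ?_ ne1 ne2
    exact hq.k0q hc (fun e => ne1 (by rw [e])) (fun e => ne2 (by rw [e]))
  · intro v e
    rw [S.rho_near l.p3] at e
    exact key.2 v (fq_inr.1 e)

/-- A NEAR STAR over `[y]` with partner `[n]` gives a walk -/
theorem ns_far_walk {hc : S.Conn} {hm : (S.k0 hc w).Min} {hn : S.SqN w O} (hO : O.Nf)
    (N : S.NSt w u O n x y) {u' : S.X} {y' z : V} (c : y' ∈ S.Yc w O y)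
    (N2 : S.NSt w u' O y' n z) :
    Q4 (S.kfP hc w O hm hn) (S.fq w O (S.rho w z)) (S.fq w O (S.rho w y')) (S.fq w O (S.rho w n))
      (S.fq w O (Sum.inr ⟨u', N2.qs.adj⟩)) ∧
      S.arQ w O (S.fq w O (S.rho w z)) (S.fq w O (S.rho w y')) := by
  have N' := (N.nv.cl hO c).1
  have ar1 := N2.nv.ar
  have ar2 := N'.ar
  have ne1 := fq_ne2 ar1 ar2
  refine ⟨k0_Q4_kf hm hn (N2.qs.k0 hc (fun e => ne1 (by rw [e]))) ne1 (N'.ne_inr _), ar1⟩

/-- the group of the top arrow -/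
theorem NSt.grp (hO : O.Nf) (N : S.NSt w u O n x y)
    (h : ↥(stabilizer ↥(stabilizer H w) (S.fq w O (S.rho w y), S.fq w O (S.rho w n)))) :
    (∀ z, z ∈ S.Yc w O y → h.1.1 • z ∈ S.Yc w O y) ∧ h.1.1 • n = n ∧ h.1.1 • u = u := by
  have h1 : h.1 • (S.fq w O (S.rho w y), S.fq w O (S.rho w n)) =
    (S.fq w O (S.rho w y), S.fq w O (S.rho w n)) := h.2
  have h2 : h.1 • S.fq w O (S.rho w y) = S.fq w O (S.rho w y) := congrArg Prod.fst h1
  have h3 : ∀ z, z ∈ S.Yc w O y → h.1.1 • z ∈ S.Yc w O y := by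
    intro z hz
    have hz : S.fq w O (S.rho w z) = S.fq w O (S.rho w y) := hz
    show S.fq w O (S.rho w (h.1.1 • z)) = S.fq w O (S.rho w y)
    rw [S.rho_smul, fq_smul, hz, h2]
  have N' := N.nv
  have hw : h.1.1 • w = w := h.1.2
  have N2 : Nv w (h.1.1 • u) O (h.1.1 • n) (h.1.1 • y) := by
    refine ⟨O.smul h.1 u n N'.op, ?_, ?_, S.K.ar_smul _ _ _ N'.yn⟩
    · have := S.D.adj_smul h.1.1 _ _ N'.adj
      rwa [hw] at this
    · have := N'.cs.smul h.1.1
      rwa [hw] at this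
  have h4 := N'.hub hO N2 (h3 y rfl)
  exact ⟨h3, h4.1, h4.2⟩

variable (S) in
/-- the relation between passes of `K` and passes of the folded slice -/
def RelN (hc : S.Conn) (hnb : S.NB) (w : S.X) (O : S.OR w) (hm : (S.k0 hc w).Min)
    (hn : S.SqN w O) : (FL S.K ⊕ ((V × V) × (V × V))) ⊕ S.Q w O →
    FL (S.kf hc w O) ⊕ ((S.Q w O × S.Q w O) × (S.Q w O × S.Q w O)) → Prop
  | Sum.inl (Sum.inl f), Sum.inl f1 => bkf hc ((S.kfM hc hnb w O hm hn).ph f1) = f
  | Sum.inl (Sum.inr p), Sum.inr p' => p' = ((S.fq w O (S.rho w p.1.1), S.fq w O (S.rho w p.1.2)),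
      (S.fq w O (S.rho w p.2.1), S.fq w O (S.rho w p.2.2)))
  | Sum.inr c, Sum.inr p' => p'.2.2 = c ∧ ∃ v : S.EV w, p'.2.1 = S.fq w O (Sum.inr v)
  | _, _ => False

variable (S) in
/-- the strands of the top arrow `[y] → [n]` -/
def tgt (hc : S.Conn) (w : S.X) (O : S.OR w) (hm : (S.k0 hc w).Min) (hn : S.SqN w O) (y n : V) :
    Set (FL (S.kf hc w O) ⊕ ((S.Q w O × S.Q w O) × (S.Q w O × S.Q w O))) :=
  sSum {f : FL (S.kf hc w O) | f ∈ (S.kfP hc w O hm hn).RP ∧
      (P45.fy f, P45.fz f) = (S.fq w O (S.rho w y), S.fq w O (S.rho w n))}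
    {p | p ∈ (S.kfP hc w O hm hn).ZP ∧ p.1 = (S.fq w O (S.rho w y), S.fq w O (S.rho w n))}

theorem fin_tgt {hc : S.Conn} {hm : (S.k0 hc w).Min} {hn : S.SqN w O} (y n : V) :
    FinOrb ↥(stabilizer ↥(stabilizer H w) (S.fq w O (S.rho w y), S.fq w O (S.rho w n)))
      (S.tgt hc w O hm hn y n) :=
  finOrb_sSum (fin_fib (fun g f => P45.fyz_smul g f) P45.fin_RP _)
    (fin_fib (fun g p => rfl) P45.fin_ZP _)

theorem oc_tgt {hc : S.Conn} {hm : (S.k0 hc w).Min} {hn : S.SqN w O} (y n : V) :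
    oc ↥(stabilizer ↥(stabilizer H w) (S.fq w O (S.rho w y), S.fq w O (S.rho w n)))
      (S.tgt hc w O hm hn y n) =
    (S.kfP hc w O hm hn).X (S.fq w O (S.rho w y)) (S.fq w O (S.rho w n)) :=
  oc_sSum (fin_fib (fun g f => P45.fyz_smul g f) P45.fin_RP _)
    (fin_fib (fun g p => rfl) P45.fin_ZP _)

/-- every near pass and every near star over `[y]` has an image -/
theorem RelN.ex {hc : S.Conn} {hnb : S.NB} {hm : (S.k0 hc w).Min} {hn : S.SqN w O} (hO : O.Nf)
    (hK : S.KIn w) (N : S.NSt w u O n x y) :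
    ∀ a ∈ sSum (S.nrS w O n x y) (S.clsS w O n y), ∃ b ∈ S.tgt hc w O hm hn y n,
      S.RelN hc hnb w O hm hn a b := by
  rintro _ (⟨i, hi, rfl⟩ | ⟨c, hcl, rfl⟩)
  · rcases i with f | p
    · obtain ⟨⟨h1, h2, h3, h4, h5⟩, h6⟩ := hi
      have N' := (N.nv.cl hO h2).1
      rcases pos5 hc hnb h1 (by rw [h3]; exact N'.yn) (by rw [h3]; exact N'.nw) N'.adj N'.cs with
        ⟨f0, c, k1, k2, k3, k4⟩ | k | k
      · obtain ⟨f1, k5⟩ := (S.kfM_ph hc hnb w O hm hn f0).2 (by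
          intro p hp
          rw [k2] at hp
          cases hp)
        refine ⟨Sum.inl f1, sSum_inl.2 ?_, ?_⟩
        · have e1 : P45.fy f1 = S.fq w O (S.rho w y) := by
            have h := (S.kfM hc hnb w O hm hn).y_ph f1
            rw [k5] at h
            have h' : P45.fy f1 = S.fq w O (P45.fy f0) := h.symm
            rw [h', k3]
            exact h2
          have e2 : P45.fz f1 = S.fq w O (S.rho w n) := by
            have h := (S.kfM hc hnb w O hm hn).z_ph f1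
            rw [k5] at h
            have h' : S.fq w O (P45.fz f0) = P45.fz f1 := by
              have a1 := (S.k0P hc w).fc_zf (S.k0P_nd hc hnb w) f0
              have a2 := (S.kfP hc w O hm hn).fc_zf (S.kfP_nd hc w O hm hn) f1
              rw [← a1, ← a2]
              exact h
            rw [← h', k4, h3]
          refine ⟨⟨?_, ?_⟩, by rw [e1, e2]⟩
          · have e3 : (S.kfP hc w O hm hn).sq f1.1.1.1 ↔ (S.k0P hc w).sq f0.1.1.1 := by
              rw [← k5]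
              exact Iff.rfl
            rw [e3, k2]
            rintro ⟨p, hp⟩
            cases hp
          · rw [e1, e2]
            exact N.nv.ar
        · show bkf hc ((S.kfM hc hnb w O hm hn).ph f1) = f
          rw [k5, k1]
      · exact absurd k h6
      · rw [h3] at k
        rcases N.cases hO h2 k with k' | k'
        · exact absurd k' h4
        · exact absurd k' h5
    · obtain ⟨⟨y', n'⟩, ⟨m, z⟩⟩ := p
      obtain ⟨⟨h1, h2, h3, h4, h5, h6⟩, h7⟩ := hi
      have h4 : n' = n := h4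
      subst h4
      have N' := (N.nv.cl hO h3).1
      rcases pos4 h1 N'.yn N'.nw N'.adj N'.cs with k | k | k
      · obtain ⟨w1, w2, -⟩ := ns_loc_walk (hm := hm) (hn := hn) hO hK N h1 k h2 h3 h5
        have e1 : S.fq w O (S.rho w y') = S.fq w O (S.rho w y) := h3
        refine ⟨Sum.inr ((S.fq w O (S.rho w y'), S.fq w O (S.rho w n')), (S.fq w O (S.rho w m),
          S.fq w O (S.rho w z))), sSum_inr.2 ⟨⟨w1, ?_, w2⟩, ?_⟩, rfl⟩
        · show S.arQ w O (S.fq w O (S.rho w y')) (S.fq w O (S.rho w n'))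
          rw [e1]
          exact N.nv.ar
        · show (S.fq w O (S.rho w y'), S.fq w O (S.rho w n')) = _
          rw [e1]
      · exact absurd k h7
      · rcases N.cases hO h3 k with k' | k'
        · exact absurd k' h5
        · exact absurd k' h6
  · obtain ⟨u', y', z, h1, h2, rfl⟩ := hcl
    obtain ⟨w1, w2⟩ := ns_far_walk (hm := hm) (hn := hn) hO N h1 h2
    have e1 : S.fq w O (S.rho w y') = S.fq w O (S.rho w y) := h1
    refine ⟨Sum.inr ((S.fq w O (S.rho w y'), S.fq w O (S.rho w n)),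
      (S.fq w O (Sum.inr ⟨u', h2.qs.adj⟩), S.fq w O (S.rho w z))), sSum_inr.2 ⟨⟨w1, ?_, w2⟩, ?_⟩,
      rfl, _, rfl⟩
    · show S.arQ w O (S.fq w O (S.rho w y')) (S.fq w O (S.rho w n))
      rw [e1]
      exact N.nv.ar
    · show (S.fq w O (S.rho w y'), S.fq w O (S.rho w n)) = _
      rw [e1]

/-- passes with the same image are equivalent -/
theorem RelN.inj {hc : S.Conn} {hnb : S.NB} {hm : (S.k0 hc w).Min} {hn : S.SqN w O} (hO : O.Nf)
    (hK : S.KIn w) (N : S.NSt w u O n x y) :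
    ∀ a ∈ sSum (S.nrS w O n x y) (S.clsS w O n y),
    ∀ b ∈ sSum (S.nrS w O n x y) (S.clsS w O n y), ∀ a' ∈ S.tgt hc w O hm hn y n,
    ∀ b' ∈ S.tgt hc w O hm hn y n, S.RelN hc hnb w O hm hn a a' → S.RelN hc hnb w O hm hn b b' →
    (∃ h : ↥(stabilizer ↥(stabilizer H w) (S.fq w O (S.rho w y), S.fq w O (S.rho w n))),
      h • a' = b') →
    ∃ h : ↥(stabilizer ↥(stabilizer H w) (S.fq w O (S.rho w y), S.fq w O (S.rho w n))),
      h • a = b := by
  -- local walks
  have loc : ∀ {y' n' m z : V}, Sum.inr ((y', n'), (m, z)) ∈ S.nrS w O n x y →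
      n' = n ∧ Q4 S.P z y' n m ∧ S.At4 z y' n m w ∧ S.K.ar z y' ∧ y' ∈ S.Yc w O y ∧
        m ∉ S.Yc w O y := by
    rintro y' n' m z ⟨⟨h1, h2, h3, h4, h5, h6⟩, h7⟩
    have h4 : n' = n := h4
    subst h4
    have N' := (N.nv.cl hO h3).1
    refine ⟨rfl, h1, ?_, h2, h3, h5⟩
    rcases pos4 h1 N'.yn N'.nw N'.adj N'.cs with k | k | k
    · exact k
    · exact absurd k h7
    · rcases N.cases hO h3 k with k' | k'
      · exact absurd k' h5
      · exact absurd k' h6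
  have cross : ∀ {y' n' m z : V} {c : S.Q w O}, Sum.inr ((y', n'), (m, z)) ∈ S.nrS w O n x y →
      ∀ v : S.EV w, S.fq w O (S.rho w m) ≠ S.fq w O (Sum.inr v) := by
    intro y' n' m z c hi v
    obtain ⟨k1, k2, k3, k4, k5, k6⟩ := loc hi
    exact (ns_loc_walk (hm := hm) (hn := hn) hO hK N k2 k3 k4 k5 k6).2.2 v
  rintro _ (⟨i, hi, rfl⟩ | ⟨c, hcl, rfl⟩) _ (⟨j, hj, rfl⟩ | ⟨d, hd, rfl⟩) a' - b' - r1 r2 ⟨g, hg⟩
  · rcases i with f | p <;> rcases j with f' | p' <;> rcases a' with a' | a' <;>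
      rcases b' with b' | b'
    all_goals first
      | (exact (r1 : False).elim)
      | (exact (r2 : False).elim)
      | (cases hg; done)
      | skip
    · have r1 : bkf hc ((S.kfM hc hnb w O hm hn).ph a') = f := r1
      have r2 : bkf hc ((S.kfM hc hnb w O hm hn).ph b') = f' := r2
      have hg : g • a' = b' := Sum.inl.inj hg
      refine ⟨g, ?_⟩
      rw [← r1, ← r2, ← hg]
      have e1 : (S.kfM hc hnb w O hm hn).ph (g • a') = g.1 • (S.kfM hc hnb w O hm hn).ph a' :=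
        (S.kfM hc hnb w O hm hn).ph_smul g.1 a'
      rw [e1, bkf_smul]
      rfl
    · obtain ⟨⟨y1, n1⟩, ⟨m1, z1⟩⟩ := p
      obtain ⟨⟨y2, n2⟩, ⟨m2, z2⟩⟩ := p'
      have r1 : a' = ((S.fq w O (S.rho w y1), S.fq w O (S.rho w n1)),
        (S.fq w O (S.rho w m1), S.fq w O (S.rho w z1))) := r1
      have r2 : b' = ((S.fq w O (S.rho w y2), S.fq w O (S.rho w n2)),
        (S.fq w O (S.rho w m2), S.fq w O (S.rho w z2))) := r2
      have hg : g • a' = b' := Sum.inr.inj hg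
      rw [r1, r2] at hg
      obtain ⟨e1, h1, h2, h3, h4, h5⟩ := loc hi
      obtain ⟨e2, k1, k2, k3, k4, k5⟩ := loc hj
      subst e1
      subst e2
      obtain ⟨s1, s2, s3⟩ := N.grp hO g
      have hw : g.1.1 • w = w := g.1.2
      have em : S.fq w O (S.rho w (g.1.1 • m1)) = S.fq w O (S.rho w m2) := by
        rw [S.rho_smul, fq_smul]
        exact congrArg (fun p => p.2.1) hg
      have ez : S.fq w O (S.rho w (g.1.1 • z1)) = S.fq w O (S.rho w z2) := by
        rw [S.rho_smul, fq_smul]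
        exact congrArg (fun p => p.2.2) hg
      have q1 := h1.smul g.1.1
      have q2 := h2.smul g.1.1
      rw [s2] at q1 q2
      rw [hw] at q2
      have nm : g.1.1 • m1 ∉ S.Yc w O y := by
        intro h
        have := (N.grp hO g⁻¹).1 _ h
        have e : (g⁻¹).1.1 • g.1.1 • m1 = m1 := by
          show g.1.1⁻¹ • g.1.1 • m1 = m1
          rw [inv_smul_smul]
        rw [e] at this
        exact h5 this
      obtain ⟨f1, f2, f3⟩ := ns_loc_inj hO hK N q1 k1 q2 k2 (S.K.ar_smul _ _ _ h3) k3 (s1 _ h4) k4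
        nm k5 ez em
      refine ⟨g, ?_⟩
      have : g • (((y1, n2), (m1, z1)) : (V × V) × (V × V)) = ((y2, n2), (m2, z2)) := by
        show ((g.1.1 • y1, g.1.1 • n2), (g.1.1 • m1, g.1.1 • z1)) = ((y2, n2), (m2, z2))
        rw [f1, f2, f3, s2]
      rw [← this]
      rfl
  · exfalso
    rcases i with f | p <;> rcases a' with a' | a' <;> rcases b' with b' | b'
    all_goals first
      | (exact (r1 : False).elim)
      | (exact (r2 : False).elim)
      | (cases hg; done)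
      | skip
    obtain ⟨⟨y1, n1⟩, ⟨m1, z1⟩⟩ := p
    have r1 : a' = ((S.fq w O (S.rho w y1), S.fq w O (S.rho w n1)),
        (S.fq w O (S.rho w m1), S.fq w O (S.rho w z1))) := r1
    obtain ⟨r2, v, r3⟩ : b'.2.2 = d ∧ ∃ v : S.EV w, b'.2.1 = S.fq w O (Sum.inr v) := r2
    have hg : g • a' = b' := Sum.inr.inj hg
    rw [← hg, r1] at r3
    have r3 : g.1 • S.fq w O (S.rho w m1) = S.fq w O (Sum.inr v) := r3
    apply cross (c := d) hi (g.1⁻¹ • v)
    rw [eq_comm, ← inv_smul_eq_iff.2 r3.symm]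
    rfl
  · exfalso
    rcases j with f | p <;> rcases a' with a' | a' <;> rcases b' with b' | b'
    all_goals first
      | (exact (r1 : False).elim)
      | (exact (r2 : False).elim)
      | (cases hg; done)
      | skip
    obtain ⟨⟨y1, n1⟩, ⟨m1, z1⟩⟩ := p
    have r2 : b' = ((S.fq w O (S.rho w y1), S.fq w O (S.rho w n1)),
        (S.fq w O (S.rho w m1), S.fq w O (S.rho w z1))) := r2
    obtain ⟨r1, v, r3⟩ : a'.2.2 = c ∧ ∃ v : S.EV w, a'.2.1 = S.fq w O (Sum.inr v) := r1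
    have hg : g • a' = b' := Sum.inr.inj hg
    rw [r2] at hg
    have h1 : g.1 • a'.2.1 = S.fq w O (S.rho w m1) := congrArg (fun p => p.2.1) hg
    rw [r3] at h1
    exact cross (c := c) hj (g.1 • v) h1.symm
  · rcases a' with a' | a' <;> rcases b' with b' | b'
    all_goals first
      | (exact (r1 : False).elim)
      | (exact (r2 : False).elim)
      | (cases hg; done)
      | skip
    obtain ⟨r1, v, r3⟩ : a'.2.2 = c ∧ ∃ v : S.EV w, a'.2.1 = S.fq w O (Sum.inr v) := r1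
    obtain ⟨r2, v', r4⟩ : b'.2.2 = d ∧ ∃ v : S.EV w, b'.2.1 = S.fq w O (Sum.inr v) := r2
    have hg : g • a' = b' := Sum.inr.inj hg
    refine ⟨g, ?_⟩
    rw [← r1, ← r2, ← hg]
    rfl

/-- THE STRANDS OF A NEAR STAR TOP: the passes at `w` and the near stars over it -/
theorem NSt.near_cls_le {hc : S.Conn} (hnb : S.NB) {hm : (S.k0 hc w).Min} {hn : S.SqN w O}
    (hO : O.Nf) (hK : S.KIn w) (N : S.NSt w u O n x y) :
    oc ↥(stabilizer ↥(stabilizer H w) (S.fq w O (S.rho w y), S.fq w O (S.rho w n)))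
      (S.nrS w O n x y) +
    oc ↥(stabilizer ↥(stabilizer H w) (S.fq w O (S.rho w y), S.fq w O (S.rho w n)))
      (S.clsS w O n y) ≤
    (S.kfP hc w O hm hn).X (S.fq w O (S.rho w y)) (S.fq w O (S.rho w n)) := by
  have hf := fin_of_rel (fin_tgt (hm := hm) (hn := hn) y n) (S.RelN hc hnb w O hm hn)
    (RelN.ex hO hK N) (RelN.inj hO hK N)
  obtain ⟨h1, h2⟩ := finOrb_of_sSum hf
  rw [← oc_sSum h1 h2, ← oc_tgt (hm := hm) (hn := hn)]
  exact Pool.Agent.SAF.oc_le_of_rel (fin_tgt (hm := hm) (hn := hn) y n)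
    (S.RelN hc hnb w O hm hn) (RelN.ex hO hK N) (RelN.inj hO hK N)

end

end SyQ

end Pool.Agent.DI
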