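import Pool.Agent.DI.NsD

/-!
# DI/NsL: the law of a near star

`S.cN w O n x y c`: the number of the far passes of the near star whose last vertex has the class `c`.
`NSt.law`: `#outS + #clsS ≤ X' [y] [n] + Σ_{c ∈ clsS} cN c`. `NSt.cN_eq`: `cN [z]` is the number of the far
corners of the near star `(u', y', n, z)`. `NSt.law_one`: if all these numbers are at most one then
`#outS ≤ X' [y] [n]`.
-/

namespace Pool.Agent.DI

open MulAction
open Pool.Agent.SAF (InC orbs FinOrb oc Decomp SAn SA Conv hull dist_edge FinOrb_iff exists_next)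
open Pool.Agent.BT (PX PQ JS bey exits lz lz_self lz_ne lz_symm x_next_unique)
open Pool.Agent.BT.TA

namespace SyQ

variable {H V : Type} [Group H] [MulAction H V] (S : SyQ H V)

/-- the class of the last vertex of a pass -/
noncomputable def clN (w : S.X) (O : S.OR w) : FL S.K ⊕ ((V × V) × (V × V)) → S.Q w O
  | Sum.inl f => S.fq w O (S.rho w (P45.fprv f))
  | Sum.inr p => S.fq w O (S.rho w p.2.2)

/-- THE NUMBER OF THE FAR PASSES with class `c` -/
noncomputable def cN (w : S.X) (O : S.OR w) (n x y : V) (c : S.Q w O) : ℕ :=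
  oc ↥(stabilizer ↥(stabilizer ↥(stabilizer H w) (S.fq w O (S.rho w y), S.fq w O (S.rho w n))) c)
    {i | i ∈ S.frB w O n x y ∧ S.clN w O i = c}

variable {S}

section

variable {w u : S.X} {O : S.OR w} {n x y : V}

theorem clN_smul (g : ↥(stabilizer H w)) (i : FL S.K ⊕ ((V × V) × (V × V))) :
    S.clN w O (g • i) = g • S.clN w O i := by
  rcases i with f | p
  · show S.fq w O (S.rho w (P45.fprv (g.1 • f))) = g • S.fq w O (S.rho w (P45.fprv f))
    rw [P45.fprv_smul, S.rho_smul, fq_smul]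
  · show S.fq w O (S.rho w (g.1 • p.2.2)) = g • S.fq w O (S.rho w p.2.2)
    rw [S.rho_smul, fq_smul]

/-- the group of the top arrow keeps the class -/
theorem NSt.Yc_iff (hO : O.Nf) (N : S.NSt w u O n x y)
    (h : ↥(stabilizer ↥(stabilizer H w) (S.fq w O (S.rho w y), S.fq w O (S.rho w n)))) (z : V) :
    h.1.1 • z ∈ S.Yc w O y ↔ z ∈ S.Yc w O y := by
  constructor
  · intro k
    have := (N.grp hO h⁻¹).1 _ k
    have e : (h⁻¹).1.1 • h.1.1 • z = z := by
      show h.1.1⁻¹ • h.1.1 • z = z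
      rw [inv_smul_smul]
    rwa [e] at this
  · exact (N.grp hO h).1 z

/-- the group of the top arrow fixes the pole of the hub -/
theorem NSt.grp_x (hO : O.Nf) (N : S.NSt w u O n x y)
    (h : ↥(stabilizer ↥(stabilizer H w) (S.fq w O (S.rho w y), S.fq w O (S.rho w n)))) :
    h.1.1 • x = x := by
  obtain ⟨h1, h2, h3⟩ := N.grp hO h
  have hw : h.1.1 • w = w := h.1.2
  have k := N.qs.smul h.1
  rw [h2, h3] at k
  rcases N.cases hO (h1 y rfl) k with e | e
  · exfalso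
    have e1 := (N.nv.cl hO e).1.yn
    have e2 := S.K.ar_smul h.1.1 _ _ N.nx
    rw [h2] at e2
    exact GX.ck_asym e1 e2
  · exact e

theorem NSt.outS_inv (hO : O.Nf) (N : S.NSt w u O n x y)
    (h : ↥(stabilizer ↥(stabilizer H w) (S.fq w O (S.rho w y), S.fq w O (S.rho w n)))) :
    ∀ i ∈ S.outS w O n x y, h • i ∈ S.outS w O n x y := by
  obtain ⟨h1, h2, h3⟩ := N.grp hO h
  have hx := N.grp_x hO h
  rintro (f | p) hi
  · obtain ⟨k1, k2, k3, k4, k5⟩ := hi
    refine ⟨k1, ?_, ?_, ?_, ?_⟩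
    · show P45.fy (h.1.1 • f) ∈ _
      rw [P45.fy_smul]
      exact h1 _ k2
    · show P45.fz (h.1.1 • f) = n
      rw [P45.fz_smul, k3, h2]
    · show P45.fv (h.1.1 • f) ∉ _
      rw [P45.fv_smul, N.Yc_iff hO h]
      exact k4
    · show P45.fv (h.1.1 • f) ≠ x
      rw [P45.fv_smul]
      intro e
      rw [← hx] at e
      exact k5 (smul_left_cancel _ e)
  · obtain ⟨k1, k2, k3, k4, k5, k6⟩ := hi
    refine ⟨k1.smul h.1.1, S.K.ar_smul _ _ _ k2, h1 _ k3, ?_, ?_, ?_⟩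
    · show h.1.1 • p.1.2 = n
      rw [k4, h2]
    · show h.1.1 • p.2.1 ∉ _
      rw [N.Yc_iff hO h]
      exact k5
    · show h.1.1 • p.2.1 ≠ x
      intro e
      rw [← hx] at e
      exact k6 (smul_left_cancel _ e)

theorem ns_bey {w' v : S.X} {z : V} (g : H) (h : S.J z ⊆ bey S.D.G w' v) :
    S.J (g • z) ⊆ bey S.D.G (g • w') (g • v) := by
  intro p hp
  have h1 := S.js.smul g⁻¹ _ _ hp
  rw [inv_smul_smul] at h1
  have h2 := S.bey_smul g (h h1)
  rwa [smul_inv_smul] at h2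

theorem FarI_smul (g : ↥(stabilizer H w)) {i : FL S.K ⊕ ((V × V) × (V × V))} (hi : S.FarI w i) :
    S.FarI w (g • i) := by
  have hw : g.1 • w = w := g.2
  rcases i with f | p
  · obtain ⟨v, h1, h2⟩ := hi
    refine ⟨g.1 • v, ?_, ?_⟩
    · show S.Qs w (g.1 • v) (P45.fy (g.1 • f)) (P45.fprv (g.1 • f)) (P45.fz (g.1 • f))
      rw [P45.fy_smul, P45.fprv_smul, P45.fz_smul]
      exact h1.smul g
    · show S.J (P45.fv (g.1 • f)) ⊆ _
      rw [P45.fv_smul]
      have := ns_bey (S := S) g.1 h2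
      rwa [hw] at this
  · obtain ⟨v, h1, h2⟩ := hi
    refine ⟨g.1 • v, h1.smul g, ?_⟩
    have := ns_bey (S := S) g.1 h2
    rwa [hw] at this

theorem FarI_iff (g : ↥(stabilizer H w)) {i : FL S.K ⊕ ((V × V) × (V × V))} :
    S.FarI w (g • i) ↔ S.FarI w i := by
  constructor
  · intro h
    have := FarI_smul g⁻¹ h
    rwa [inv_smul_smul] at this
  · exact FarI_smul g

theorem NSt.frB_inv (hO : O.Nf) (N : S.NSt w u O n x y)
    (h : ↥(stabilizer ↥(stabilizer H w) (S.fq w O (S.rho w y), S.fq w O (S.rho w n)))) :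
    ∀ i ∈ S.frB w O n x y, h • i ∈ S.frB w O n x y := fun i hi =>
  ⟨N.outS_inv hO h i hi.1, (FarI_iff h.1).2 hi.2⟩

theorem NSt.nrS_inv (hO : O.Nf) (N : S.NSt w u O n x y)
    (h : ↥(stabilizer ↥(stabilizer H w) (S.fq w O (S.rho w y), S.fq w O (S.rho w n)))) :
    ∀ i ∈ S.nrS w O n x y, h • i ∈ S.nrS w O n x y := fun i hi =>
  ⟨N.outS_inv hO h i hi.1, fun k => hi.2 ((FarI_iff h.1).1 k)⟩

theorem NSt.clsS_inv (hO : O.Nf) (N : S.NSt w u O n x y)
    (h : ↥(stabilizer ↥(stabilizer H w) (S.fq w O (S.rho w y), S.fq w O (S.rho w n)))) :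
    ∀ c ∈ S.clsS w O n y, h • c ∈ S.clsS w O n y := by
  obtain ⟨h1, h2, h3⟩ := N.grp hO h
  rintro _ ⟨u', y', z, k1, k2, rfl⟩
  refine ⟨h.1.1 • u', h.1.1 • y', h.1.1 • z, h1 _ k1, ⟨O.smul h.1 _ _ k2.op, ?_,
    S.K.ar_smul _ _ _ k2.yn, ?_⟩, ?_⟩
  · have := k2.qs.smul h.1
    rwa [h2] at this
  · have := S.K.ar_smul h.1.1 _ _ k2.nx
    rwa [h2] at this
  · rw [S.rho_smul, fq_smul]
    rfl

/-- finiteness -/
theorem NSt.fin_out (hO : O.Nf) (N : S.NSt w u O n x y) :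
    FinOrb ↥(stabilizer ↥(stabilizer H w) (S.fq w O (S.rho w y), S.fq w O (S.rho w n)))
      (S.outS w O n x y) := by
  have hE : ∀ f : FL S.K, S.K.E (P45.fy f) (P45.fz f) := by
    rintro ⟨e, b⟩
    cases b
    · exact S.K.c_E0 e
    · exact S.K.c_E2 e
  -- flags over `w`
  have h5 : FinOrb ↥(stabilizer H w) {f : FL S.K | w ∈ S.J (P45.fy f) ∧ w ∈ S.J (P45.fz f)} := by
    refine Pool.Agent.SAF.FinOrb.of_inj (P45.fin_FL (K := S.K)) (fun f => f)
      (fun _ _ => trivial) ?_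
    rintro f ⟨a1, a2⟩ f' ⟨b1, b2⟩ ⟨g, rfl⟩
    have c1 := S.js.smul g _ _ a1
    have c2 := S.js.smul g _ _ a2
    rw [P45.fy_smul] at b1
    rw [P45.fz_smul] at b2
    have hEg : S.K.E (g • P45.fy f) (g • P45.fz f) := S.K.E_smul g (hE f)
    exact ⟨⟨g, S.one_eq hEg c1 c2 b1 b2⟩, rfl⟩
  have h4 : FinOrb ↥(stabilizer H w) {p : (V × V) × (V × V) | p ∈ S.P.ZP ∧ w ∈ S.J p.1.1 ∧
      w ∈ S.J p.1.2} := by
    refine Pool.Agent.SAF.FinOrb.of_inj (P45.fin_ZP (P := S.P)) (fun f => f)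
      (fun _ h => h.1) ?_
    rintro p ⟨a0, a1, a2⟩ p' ⟨b0, b1, b2⟩ ⟨g, rfl⟩
    have c1 := S.js.smul g _ _ a1
    have c2 := S.js.smul g _ _ a2
    have hEg : S.K.E (g • p.1.1) (g • p.1.2) := S.K.E_smul g (Or.inl a0.2.1)
    exact ⟨⟨g, S.one_eq hEg c1 c2 b1 b2⟩, rfl⟩
  have k5 := fin_fib (π := fun f : FL S.K => (S.fq w O (S.rho w (P45.fy f)),
    S.fq w O (S.rho w (P45.fz f)))) (fun g f => by
      show (S.fq w O (S.rho w (P45.fy (g.1 • f))), S.fq w O (S.rho w (P45.fz (g.1 • f)))) = _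
      rw [P45.fy_smul, P45.fz_smul, S.rho_smul, S.rho_smul]
      rfl) h5 (S.fq w O (S.rho w y), S.fq w O (S.rho w n))
  have k4 := fin_fib (π := fun p : (V × V) × (V × V) => (S.fq w O (S.rho w p.1.1),
    S.fq w O (S.rho w p.1.2))) (fun g p => by
      show (S.fq w O (S.rho w (g.1 • p.1.1)), S.fq w O (S.rho w (g.1 • p.1.2))) = _
      rw [S.rho_smul, S.rho_smul]
      rfl) h4 (S.fq w O (S.rho w y), S.fq w O (S.rho w n))
  refine (finOrb_sSum k5 k4).mono ?_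
  rintro (f | p) hi
  · obtain ⟨j1, j2, j3, j4, j5⟩ := hi
    have N' := (N.nv.cl hO j2).1
    refine sSum_inl.2 ⟨⟨N'.cs.1, by rw [j3]; exact N'.nw⟩, ?_⟩
    show (S.fq w O (S.rho w (P45.fy f)), S.fq w O (S.rho w (P45.fz f))) = _
    rw [j3]
    exact Prod.ext j2 rfl
  · obtain ⟨j1, j2, j3, j4, j5, j6⟩ := hi
    have N' := (N.nv.cl hO j3).1
    refine sSum_inr.2 ⟨⟨⟨j1, ?_, j2⟩, N'.cs.1, by rw [j4]; exact N'.nw⟩, ?_⟩
    · rw [j4]
      exact N'.yn
    · show (S.fq w O (S.rho w p.1.1), S.fq w O (S.rho w p.1.2)) = _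
      rw [j4]
      exact Prod.ext j3 rfl

/-- the classes of the far passes -/
theorem NSt.clN_mem (hnb : S.NB) (hO : O.Nf) (N : S.NSt w u O n x y)
    {i : FL S.K ⊕ ((V × V) × (V × V))} (hi : i ∈ S.frB w O n x y) :
    S.clN w O i ∈ S.clsS w O n y := by
  rcases i with f | p
  · obtain ⟨⟨j1, j2, j3, j4, j5⟩, u', h1, h2⟩ := hi
    have N' := (N.nv.cl hO j2).1
    rw [j3] at h1
    refine ⟨u', P45.fy f, P45.fprv f, j2, ⟨hO.op_of_cs N'.adj N'.cs h1.adj, h1, ?_, N'.yn⟩, rfl⟩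
    rcases h1.E1 with e | e
    · exact e
    · exfalso
      have hne : P45.fprv f ≠ n := by
        rw [← j3]
        obtain ⟨e', b⟩ := f
        cases b
        · exact (hnb e').symm
        · exact hnb e'
      exact poles_edge hne N'.cs.1 e N'.yn h1.l.1 N'.nw N'.adj N'.cs.2
  · obtain ⟨⟨j1, j2, j3, j4, j5, j6⟩, u', h1, h2⟩ := hi
    have N' := (N.nv.cl hO j3).1
    rw [j4] at h1
    exact ⟨u', p.1.1, p.2.2, j3, ⟨hO.op_of_cs N'.adj N'.cs h1.adj, h1, j2, N'.yn⟩, rfl⟩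

/-- THE LAW OF A NEAR STAR -/
theorem NSt.law {hc : S.Conn} (hnb : S.NB) {hm : (S.k0 hc w).Min} {hn : S.SqN w O}
    (hO : O.Nf) (hK : S.KIn w) (N : S.NSt w u O n x y) :
    oc ↥(stabilizer ↥(stabilizer H w) (S.fq w O (S.rho w y), S.fq w O (S.rho w n)))
      (S.outS w O n x y) +
    oc ↥(stabilizer ↥(stabilizer H w) (S.fq w O (S.rho w y), S.fq w O (S.rho w n)))
      (S.clsS w O n y) ≤
    (S.kfP hc w O hm hn).X (S.fq w O (S.rho w y)) (S.fq w O (S.rho w n)) +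
    os ↥(stabilizer ↥(stabilizer H w) (S.fq w O (S.rho w y), S.fq w O (S.rho w n)))
      (S.clsS w O n y) (S.cN w O n x y) := by
  have hfo := N.fin_out hO
  have hfc : FinOrb ↥(stabilizer ↥(stabilizer H w) (S.fq w O (S.rho w y), S.fq w O (S.rho w n)))
      (S.clsS w O n y) :=
    (finOrb_of_sSum (fin_of_rel (fin_tgt (hm := hm) (hn := hn) y n) (S.RelN hc hnb w O hm hn)
      (RelN.ex hO hK N) (RelN.inj hO hK N))).2
  have hfb := hfo.mono (fun i (hi : i ∈ S.frB w O n x y) => hi.1)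
  have hfn := hfo.mono (fun i (hi : i ∈ S.nrS w O n x y) => hi.1)
  have h1 := N.near_cls_le (hm := hm) (hn := hn) hnb hO hK
  have h2 : oc ↥(stabilizer ↥(stabilizer H w) (S.fq w O (S.rho w y), S.fq w O (S.rho w n)))
      (S.outS w O n x y) =
      oc ↥(stabilizer ↥(stabilizer H w) (S.fq w O (S.rho w y), S.fq w O (S.rho w n)))
        (S.nrS w O n x y) +
      oc ↥(stabilizer ↥(stabilizer H w) (S.fq w O (S.rho w y), S.fq w O (S.rho w n)))
        (S.frB w O n x y) := by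
    rw [← oc_union (Dj.of_inv (fun g a ha => N.nrS_inv hO g a ha) (fun a ha hb => ha.2 hb.2))
      hfn hfb]
    congr 1
    ext i
    constructor
    · intro hi
      by_cases hf : S.FarI w i
      · exact Or.inr ⟨hi, hf⟩
      · exact Or.inl ⟨hi, hf⟩
    · rintro (hi | hi)
      · exact hi.1
      · exact hi.1
  have h3 := os_oc (f := S.clN w O) hfb hfc (fun g s hs => N.frB_inv hO g s hs)
    (fun g s hs => N.clsS_inv hO g s hs) (fun g s => clN_smul g.1 s)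
  have h4 : {s | s ∈ S.frB w O n x y ∧ S.clN w O s ∈ S.clsS w O n y} = S.frB w O n x y := by
    ext i
    constructor
    · exact fun k => k.1
    · exact fun k => ⟨k, N.clN_mem hnb hO k⟩
  rw [h4] at h3
  have h5 : os ↥(stabilizer ↥(stabilizer H w) (S.fq w O (S.rho w y), S.fq w O (S.rho w n)))
      (S.clsS w O n y) (S.cN w O n x y) =
      oc ↥(stabilizer ↥(stabilizer H w) (S.fq w O (S.rho w y), S.fq w O (S.rho w n)))
        (S.frB w O n x y) := h3
  omega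

/-- the cell of a pentagon flag -/
theorem ns_flag_Qn {f : FL S.K} (hf : ¬ S.P.sq f.1.1.1) :
    ∃ m, Qn S.P (P45.fprv f) (P45.fy f) (P45.fz f) (P45.fv f) m := by
  obtain ⟨e, b⟩ := f
  rcases S.P.l_cases e with ⟨i, hi, j, h, rfl⟩ | ⟨i, hi, j, h, rfl⟩
  swap
  · exact absurd hi hf
  have b2 : ∀ k : Fin 5, k + 1 + 2 = k + 3 := by decide
  have e1 : P45.fy ((S.P.l5 i hi j h, b) : FL S.K) = S.tr h i (j + 1) := P45.c1_5 S.P i hi j h
  cases b
  · have e0 : P45.fprv ((S.P.l5 i hi j h, false) : FL S.K) = S.tr h i (j + 2) :=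
      P45.c2_5 S.P i hi j h
    have e2 : P45.fz ((S.P.l5 i hi j h, false) : FL S.K) = S.tr h i j := P45.c0_5 S.P i hi j h
    have e3 : P45.fv ((S.P.l5 i hi j h, false) : FL S.K) = S.tr h i (j + 4) := by
      show S.K.c0 (S.K.pv _) = _
      rw [P45.pv_l5, P45.c0_5]
      rfl
    rw [e0, e1, e2, e3]
    exact ⟨_, (Qn_pt (P := S.P) h hi j).symm⟩
  · have e0 : P45.fprv ((S.P.l5 i hi j h, true) : FL S.K) = S.tr h i j :=
      P45.c0_5 S.P i hi j h
    have e2 : P45.fz ((S.P.l5 i hi j h, true) : FL S.K) = S.tr h i (j + 2) :=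
      P45.c2_5 S.P i hi j h
    have e3 : P45.fv ((S.P.l5 i hi j h, true) : FL S.K) = S.tr h i (j + 3) := by
      show S.K.c2 (S.K.nx _) = _
      rw [P45.nx_l5, P45.c2_5, b2]
      rfl
    rw [e0, e1, e2, e3]
    exact ⟨_, Qn_pt (P := S.P) h hi j⟩

/-- a far corner of a near star is a zero square -/
theorem farS_Qs (hO : O.Nf) (N : S.NSt w u O n x y) {i : FL S.K ⊕ ((V × V) × (V × V))}
    (hi : i ∈ S.farS w u O n x y) :
    (∀ f, i = Sum.inl f → S.Qs w u n (P45.fprv f) x) ∧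
      ∀ p, i = Sum.inr p → S.Qs w u n p.2.2 x := by
  have cx := N.qs.r
  have hnr := N.qs.near
  constructor
  · rintro f rfl
    obtain ⟨h1, h2, h3, h4, h5⟩ := hi
    have N' := (N.nv.cl hO h2).1
    obtain ⟨m, hm⟩ := ns_flag_Qn h1
    rw [h3, h4] at hm
    refine ⟨N.qs.adj, N'.cs, cx, hnr, Or.inl ⟨_, m, hm, h5, ?_⟩⟩
    obtain ⟨p, hp1, hp2⟩ := S.one_ex hm.E4
    exact S.side_of N.qs.adj (S.adj_nc N.qs.adj hm.E5.symm N'.cs) hp2 (h5 hp1)
  · rintro p rfl
    obtain ⟨h1, h2, h3, h4, h5⟩ := hi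
    have N' := (N.nv.cl hO h2).1
    have h1 : Q4 S.P p.2.2 p.1.1 p.1.2 p.2.1 := h1
    rw [h3, h4] at h1
    exact ⟨N.qs.adj, N'.cs, cx, hnr, Or.inr ⟨_, h1, h5⟩⟩

/-- the far passes with class `[z]` are the far corners of the near star of `z` -/
theorem NSt.cN_set (hnb : S.NB) (hO : O.Nf) (N : S.NSt w u O n x y) {u' : S.X} {y' z : V}
    (hy : y' ∈ S.Yc w O y) (N2 : S.NSt w u' O y' n z) :
    {i | i ∈ S.frB w O n x y ∧ S.clN w O i = S.fq w O (S.rho w z)} = S.farS w u' O y' n z := by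
  have hN' := (N.nv.cl hO hy).1
  have nm : ∀ {m : V}, S.J m ⊆ bey S.D.G w u' → m ∉ S.Yc w O y ∧ m ≠ x := by
    intro m hm
    have h0 := S.not_mem_of_bey N2.qs.adj hm
    refine ⟨fun h => h0 (N.nv.cl hO h).1.cs.1, ?_⟩
    rintro rfl
    exact h0 N.qs.r.1
  ext i
  constructor
  · rintro ⟨hi, hcl⟩
    rcases i with f | p
    · obtain ⟨⟨j1, j2, j3, j4, j5⟩, u'', h1, h2⟩ := hi
      have Nf := (N.nv.cl hO j2).1
      rw [j3] at h1
      have hz : P45.fprv f ∈ S.Yc w O z := hcl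
      have har : S.K.ar (P45.fprv f) (P45.fy f) := by
        rcases h1.E1 with e | e
        · exact e
        · exfalso
          have hne : P45.fprv f ≠ n := by
            rw [← j3]
            obtain ⟨e', b⟩ := f
            cases b
            · exact (hnb e').symm
            · exact hnb e'
          exact poles_edge hne Nf.cs.1 e Nf.yn h1.l.1 Nf.nw Nf.adj Nf.cs.2
      have N3 : Nv w u'' O (P45.fy f) (P45.fprv f) :=
        ⟨hO.op_of_cs Nf.adj Nf.cs h1.adj, h1.adj, h1.l, har⟩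
      obtain ⟨e1, e2⟩ := N2.nv.hub hO N3 hz
      rw [e2] at h2
      exact ⟨j1, hz, e1, j3, h2⟩
    · obtain ⟨⟨j1, j2, j3, j4, j5, j6⟩, u'', h1, h2⟩ := hi
      have Nf := (N.nv.cl hO j3).1
      rw [j4] at h1
      have hz : p.2.2 ∈ S.Yc w O z := hcl
      have N3 : Nv w u'' O p.1.1 p.2.2 :=
        ⟨hO.op_of_cs Nf.adj Nf.cs h1.adj, h1.adj, h1.l, j2⟩
      obtain ⟨e1, e2⟩ := N2.nv.hub hO N3 hz
      rw [e2] at h2
      exact ⟨j1, hz, e1, j4, h2⟩
  · intro hi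
    have hQ := farS_Qs hO N2 hi
    rcases i with f | p
    · obtain ⟨h1, h2, h3, h4, h5⟩ := hi
      have hq := hQ.1 f rfl
      obtain ⟨m1, m2⟩ := nm h5
      refine ⟨⟨⟨h1, ?_, h4, m1, m2⟩, u', ?_, h5⟩, h2⟩
      · rw [h3]
        exact hy
      · show S.Qs w u' (P45.fy f) (P45.fprv f) (P45.fz f)
        rw [h3, h4]
        exact hq
    · obtain ⟨h1, h2, h3, h4, h5⟩ := hi
      have hq := hQ.2 p rfl
      obtain ⟨m1, m2⟩ := nm h5
      refine ⟨⟨⟨h1, ?_, ?_, h4, m1, m2⟩, u', ?_, h5⟩, h2⟩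
      · rw [h3]
        exact (N2.nv.cl hO h2).1.yn
      · rw [h3]
        exact hy
      · show S.Qs w u' p.1.1 p.2.2 p.1.2
        rw [h3, h4]
        exact hq

/-- THE NUMBER OF THE FAR PASSES WITH CLASS `[z]` -/
theorem NSt.cN_eq (hnb : S.NB) (hO : O.Nf) (N : S.NSt w u O n x y) {u' : S.X} {y' z : V}
    (hy : y' ∈ S.Yc w O y) (N2 : S.NSt w u' O y' n z) :
    S.cN w O n x y (S.fq w O (S.rho w z)) =
      oc ↥(stabilizer ↥(stabilizer H w) (S.fq w O (S.rho w z), S.fq w O (S.rho w y')))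
        (S.farS w u' O y' n z) := by
  have hy' : S.fq w O (S.rho w y') = S.fq w O (S.rho w y) := hy
  unfold cN
  rw [N.cN_set hnb hO hy N2]
  refine oc_same ?_ ?_ ?_
  · intro g
    refine ⟨⟨g.1.1, ?_⟩, fun i => rfl⟩
    have h1 : g.1.1 • S.fq w O (S.rho w z) = S.fq w O (S.rho w z) := g.2
    have h2 : g.1.1 • (S.fq w O (S.rho w y), S.fq w O (S.rho w n)) =
      (S.fq w O (S.rho w y), S.fq w O (S.rho w n)) := g.1.2
    have h3 : g.1.1 • S.fq w O (S.rho w y) = S.fq w O (S.rho w y) := congrArg Prod.fst h2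
    show g.1.1 • (S.fq w O (S.rho w z), S.fq w O (S.rho w y')) = _
    rw [hy']
    exact Prod.ext h1 h3
  · intro g
    have h2 : g.1 • (S.fq w O (S.rho w z), S.fq w O (S.rho w y')) =
      (S.fq w O (S.rho w z), S.fq w O (S.rho w y')) := g.2
    have h3 : g.1 • S.fq w O (S.rho w y') = S.fq w O (S.rho w y') := congrArg Prod.snd h2
    have h4 : g.1 • S.fq w O (S.rho w n) = S.fq w O (S.rho w n) := by
      rw [← fq_smul, ← S.rho_smul, N2.grp_x hO g]
    have h5 : g.1 • S.fq w O (S.rho w y) = S.fq w O (S.rho w y) :=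
      (congrArg (fun c => g.1 • c) hy').symm.trans (h3.trans hy')
    refine ⟨⟨⟨g.1, ?_⟩, ?_⟩, fun i => rfl⟩
    · show g.1 • (S.fq w O (S.rho w y), S.fq w O (S.rho w n)) = _
      exact Prod.ext h5 h4
    · exact congrArg Prod.fst h2
  · have h1 : FinOrb ↥(stabilizer ↥(stabilizer H w) (S.fq w O (S.rho w y), S.fq w O (S.rho w n)))
        (S.frB w O n x y) := (N.fin_out hO).mono (fun i hi => hi.1)
    have h2 := fin_fib (π := S.clN w O) (fun (g : ↥(stabilizer ↥(stabilizer H w)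
      (S.fq w O (S.rho w y), S.fq w O (S.rho w n)))) i => clN_smul g.1 i) h1
        (S.fq w O (S.rho w z))
    rw [N.cN_set hnb hO hy N2] at h2
    exact h2

/-- D4: every near star over the class of `y` with pole `n` has at most one far corner -/
theorem NSt.law_one {hc : S.Conn} (hnb : S.NB) {hm : (S.k0 hc w).Min} {hn : S.SqN w O}
    (hO : O.Nf) (hK : S.KIn w) (N : S.NSt w u O n x y)
    (hC : ∀ u' y' z, y' ∈ S.Yc w O y → S.NSt w u' O y' n z →
      oc ↥(stabilizer ↥(stabilizer H w) (S.fq w O (S.rho w z), S.fq w O (S.rho w y')))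
        (S.farS w u' O y' n z) ≤ 1) :
    oc ↥(stabilizer ↥(stabilizer H w) (S.fq w O (S.rho w y), S.fq w O (S.rho w n)))
      (S.outS w O n x y) ≤
    (S.kfP hc w O hm hn).X (S.fq w O (S.rho w y)) (S.fq w O (S.rho w n)) := by
  have h1 := N.law (hm := hm) (hn := hn) hnb hO hK
  have hfc : FinOrb ↥(stabilizer ↥(stabilizer H w) (S.fq w O (S.rho w y), S.fq w O (S.rho w n)))
      (S.clsS w O n y) :=
    (finOrb_of_sSum (fin_of_rel (fin_tgt (hm := hm) (hn := hn) y n) (S.RelN hc hnb w O hm hn)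
      (RelN.ex hO hK N) (RelN.inj hO hK N))).2
  have h2 := os_le (X := S.cN w O n x y) (Y := fun _ => 1) hfc (by
    rintro c ⟨u', y', z, k1, k2, rfl⟩
    rw [N.cN_eq hnb hO k1 k2]
    exact hC u' y' z k1 k2)
  rw [os_one hfc] at h2
  omega

end

end SyQ

end Pool.Agent.DI
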