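import Pool.Agent.DI.Thin2
import Pool.Agent.DI.TpS

/-!
# DI/SgEq0: the number of listed squares over a top

`P.nsq T`: the number of listed squares whose top is a translate of `T` (`c_k` of the law of sigma, with
`P = kfP`, before thinning). `P.nsq_le_iff`: all `nsq` are at most 1 iff the field `one` of `P.SqE` holds.
`P.tfl T`: the flags of listed squares at the top `T`; modulo the stabiliser of `T` there are
`2 * nsq T`; modulo the stabiliser of `T` and the pole `a` there are `nsq T` (if no element of the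
stabiliser of `T` moves a pole).
-/

namespace Pool.Agent.DI

open MulAction
open Pool.Agent.SAF (InC orbs FinOrb oc mk_eq_iff FinOrb_iff)

namespace P45

variable {H V : Type} [Group H] [MulAction H V] {K : GX H V} (P : P45 K)

/-- the listed squares whose top is a translate of `T` -/
def sqAt (T : V) : Set K.I := {i | P.sq i ∧ ∃ j, P.tp i j ∧ ∃ h : H, h • P.qt i j = T}

/-- THE NUMBER OF LISTED SQUARES WITH THE TOP `T` -/
noncomputable def nsq (T : V) : ℕ := (P.sqAt T).ncard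

theorem sqAt_fin (T : V) : (P.sqAt T).Finite := by
  have := K.finI
  exact Set.toFinite _

theorem sqAt_smul (g : H) (T : V) : P.sqAt (g • T) = P.sqAt T := by
  ext i
  constructor
  · rintro ⟨hi, j, hj, h, e⟩
    exact ⟨hi, j, hj, g⁻¹ * h, by rw [mul_smul, e, inv_smul_smul]⟩
  · rintro ⟨hi, j, hj, h, e⟩
    exact ⟨hi, j, hj, g * h, by rw [mul_smul, e]⟩

theorem nsq_smul (g : H) (T : V) : P.nsq (g • T) = P.nsq T := by
  unfold nsq
  rw [sqAt_smul]

theorem sqAt_ne {T : V} : (P.sqAt T).Nonempty ↔ ∃ a b y, P.Top T a b y := by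
  constructor
  · rintro ⟨i, hi, j, hj, h, rfl⟩
    exact ⟨_, _, _, (tp.top hi hj).smul h⟩
  · rintro ⟨a, b, y, h⟩
    obtain ⟨g, i, j, hi, hj, e, -⟩ := h.tpos
    exact ⟨i, hi, j, hj, g, e.symm⟩

theorem nsq_pos_iff {T : V} : 0 < P.nsq T ↔ ∃ a b y, P.Top T a b y := by
  rw [← P.sqAt_ne]
  exact Set.ncard_pos (P.sqAt_fin T)

variable {P}

theorem Top.nsq_pos {T a b y : V} (h : P.Top T a b y) : 1 ≤ P.nsq T :=
  P.nsq_pos_iff.2 ⟨a, b, y, h⟩

variable (P)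

/-- the field `one` of the static class -/
theorem nsq_le_iff : (∀ T, P.nsq T ≤ 1) ↔ ∀ i i', P.sq i → P.sq i' → ∀ j j', P.tp i j →
    P.tp i' j' → ∀ h : H, h • P.qt i j = P.qt i' j' → i = i' := by
  constructor
  · intro h1 i i' hi hi' j j' hj hj' h e
    have h2 := h1 (P.qt i' j')
    exact (Set.ncard_le_one (P.sqAt_fin _)).1 h2 i ⟨hi, j, hj, h, e⟩ i'
      ⟨hi', j', hj', 1, one_smul _ _⟩
  · intro h1 T
    refine (Set.ncard_le_one (P.sqAt_fin _)).2 ?_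
    rintro i ⟨hi, j, hj, h, e⟩ i' ⟨hi', j', hj', h', e'⟩
    refine h1 i i' hi hi' j j' hj hj' (h'⁻¹ * h) ?_
    rw [mul_smul, e, ← e', inv_smul_smul]

variable {P}

theorem SqE.nsq_le {E : V → Prop} (hs : P.SqE E) (T : V) : P.nsq T ≤ 1 :=
  P.nsq_le_iff.2 hs.one T

theorem SqE.nsq_one {E : V → Prop} (hs : P.SqE E) {T a b y : V} (h : P.Top T a b y) :
    P.nsq T = 1 := le_antisymm (hs.nsq_le T) h.nsq_pos

variable (P)

/-- the thinned complex has fewer squares -/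
theorem thin_nsq (T : V) : P.thinP.nsq T ≤ P.nsq T := by
  unfold nsq
  refine Set.ncard_le_ncard_of_injOn (fun i => i.1) ?_ (fun i _ i' _ e => Subtype.ext e)
    (P.sqAt_fin T)
  rintro i ⟨hi, j, hj, h, e⟩
  exact ⟨hi, j, hj, h, e⟩

/-! ### flags at the top -/

/-- the flags of the listed squares at the top `T` -/
def tfl (T : V) : Set (FL K) := {f | P.sq f.1.1.1 ∧ K.ar (K.c1 f.1) (K.c0 f.1) ∧
  K.ar (K.c1 f.1) (K.c2 f.1) ∧ K.c1 f.1 = T}

/-- the place of the vertex of a position in a square -/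
theorem c_qt {e : K.LE} (hi : P.sq e.1.1) : ∃ k : Fin 4, K.c1 e = e.2 • P.qt e.1.1 k ∧
    K.c2 e = e.2 • P.qt e.1.1 (k + 1) ∧ K.c0 e = e.2 • P.qt e.1.1 (k + 3) ∧
    k.1 = (e.1.2.1 + 1) % 4 := by
  obtain ⟨⟨i, j⟩, h⟩ := e
  have h4 := P.len4 hi
  have hj : j.1 < 4 := lt_of_lt_of_eq j.2 h4
  have key : ∀ n : ℕ, K.vx i n = P.qt i ⟨n % 4, Nat.mod_lt _ (by norm_num)⟩ := by
    intro n
    rw [← P.vx4 hi, ← K.vx_mod i n, h4]
  refine ⟨⟨(j.1 + 1) % 4, Nat.mod_lt _ (by norm_num)⟩, ?_, ?_, ?_, rfl⟩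
  · show h • K.vx i (j.1 + 1) = _
    rw [key]
  · show h • K.vx i (j.1 + 2) = _
    rw [key]
    congr 2
    apply Fin.ext
    show (j.1 + 2) % 4 = ((j.1 + 1) % 4 + 1) % 4
    omega
  · show h • K.vx i j.1 = _
    rw [key]
    congr 2
    apply Fin.ext
    show j.1 % 4 = ((j.1 + 1) % 4 + 3) % 4
    omega

theorem ar_back {g : H} {x z : V} (k : K.ar (g • x) (g • z)) : K.ar x z := by
  have := K.ar_smul g⁻¹ _ _ k
  rwa [inv_smul_smul, inv_smul_smul] at this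

variable {P}

/-- a flag at a top comes from a top place -/
theorem tfl_place {T : V} {f : FL K} (hf : f ∈ P.tfl T) : ∃ k : Fin 4, P.tp f.1.1.1 k ∧
    k.1 = (f.1.1.2.1 + 1) % 4 ∧ f.1.2 • P.qt f.1.1.1 k = T ∧
    K.c2 f.1 = f.1.2 • P.qt f.1.1.1 (k + 1) ∧ K.c0 f.1 = f.1.2 • P.qt f.1.1.1 (k + 3) := by
  obtain ⟨hi, h0, h2, h1⟩ := hf
  obtain ⟨k, e1, e2, e0, ek⟩ := P.c_qt hi
  rw [e1, e0] at h0
  rw [e1, e2] at h2
  exact ⟨k, ⟨ar_back h2, ar_back h0⟩, ek, by rw [← e1, h1], e2, e0⟩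

/-- two flags at a top in the same square -/
theorem tfl_same (hu : ∀ i, P.sq i → ∀ j j', P.tp i j → P.tp i j' → j = j') {T : V}
    {f f' : FL K} (hf : f ∈ P.tfl T) (hf' : f' ∈ P.tfl T) (e : f.1.1.1 = f'.1.1.1) :
    f'.1 = (f'.1.2 * f.1.2⁻¹) • f.1 ∧ (f'.1.2 * f.1.2⁻¹) • T = T := by
  obtain ⟨k, hk, ek, e1, -, -⟩ := tfl_place hf
  obtain ⟨k', hk', ek', e1', -, -⟩ := tfl_place hf'
  obtain ⟨⟨⟨i, j⟩, h⟩, b⟩ := f
  obtain ⟨⟨⟨i', j'⟩, h'⟩, b'⟩ := f'
  have e2 : i = i' := e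
  subst e2
  have e3 : k = k' := hu i hf.1 k k' hk hk'
  subst e3
  have h4 := P.len4 hf.1
  have h4' : K.len i = 4 := h4
  have a1 := j.2
  have a2 := j'.2
  have e4 : j.1 = j'.1 := by
    have b1 : k.1 = (j.1 + 1) % 4 := ek
    have b2 : k.1 = (j'.1 + 1) % 4 := ek'
    omega
  constructor
  · show ((⟨i, j'⟩, h') : K.LE) = (⟨i, j⟩, (h' * h⁻¹) * h)
    rw [inv_mul_cancel_right]
    exact K.le_ext e4.symm
  · show (h' * h⁻¹) • T = T
    have c1 : h • P.qt i k = T := e1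
    have c2 : h' • P.qt i k = T := e1'
    rw [mul_smul]
    nth_rewrite 1 [← c1]
    rw [inv_smul_smul, c2]

variable (P)

/-- every listed square over `T` has a flag at `T` -/
theorem tfl_ex {T : V} {i : K.I} (hi : i ∈ P.sqAt T) (b : Bool) :
    ∃ f ∈ P.tfl T, f.1.1.1 = i ∧ f.2 = b ∧ ∃ k, P.tp i k ∧ f.1.2 • P.qt i k = T ∧
      K.c2 f.1 = f.1.2 • P.qt i (k + 1) ∧ K.c0 f.1 = f.1.2 • P.qt i (k + 3) := by
  obtain ⟨hs, k, hk, h, e⟩ := hi
  have h4 := P.len4 hs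
  have hk4 := k.2
  let j : Fin (K.len i) := ⟨(k.1 + 3) % 4, by rw [h4]; exact Nat.mod_lt _ (by norm_num)⟩
  obtain ⟨k', e1, e2, e0, ek⟩ := P.c_qt (e := ((⟨i, j⟩, h) : K.LE)) hs
  have e3 : k' = k := by
    apply Fin.ext
    rw [ek]
    show ((k.1 + 3) % 4 + 1) % 4 = k.1
    omega
  subst e3
  have e1' : K.c1 ((⟨i, j⟩, h) : K.LE) = T := e1.trans e
  refine ⟨((⟨i, j⟩, h), b), ⟨hs, ?_, ?_, e1'⟩, rfl, rfl, k', hk, e, e2, e0⟩
  · show K.ar (K.c1 ((⟨i, j⟩, h) : K.LE)) (K.c0 ((⟨i, j⟩, h) : K.LE))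
    rw [e1, e0]
    exact K.ar_smul h _ _ hk.2
  · show K.ar (K.c1 ((⟨i, j⟩, h) : K.LE)) (K.c2 ((⟨i, j⟩, h) : K.LE))
    rw [e1, e2]
    exact K.ar_smul h _ _ hk.1

/-- number of orbits of a set with an invariant `φ` which separates the orbits -/
theorem _root_.Pool.Agent.DI.oc_ncard {G Y Z : Type} [Group G] [MulAction G Y] (A : Set Y)
    (φ : Y → Z) (hφ : ∀ (g : G) (y : Y), φ (g • y) = φ y)
    (hs : ∀ a ∈ A, ∀ b ∈ A, φ a = φ b → ∃ g : G, g • a = b) : oc G A = (φ '' A).ncard := by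
  let F : orbitRel.Quotient G Y → Z := Quotient.lift φ (by
    rintro a b ⟨g, hg⟩
    have hg : g • b = a := hg
    rw [← hg, hφ])
  have e : φ '' A = F '' orbs G A := by
    ext z
    constructor
    · rintro ⟨a, ha, rfl⟩
      exact ⟨Quotient.mk'' a, ⟨a, ha, rfl⟩, rfl⟩
    · rintro ⟨_, ⟨a, ha, rfl⟩, rfl⟩
      exact ⟨a, ha, rfl⟩
  rw [e]
  unfold SAF.oc
  refine (Set.InjOn.ncard_image ?_).symm
  rintro _ ⟨a, ha, rfl⟩ _ ⟨b, hb, rfl⟩ h
  have h : φ a = φ b := h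
  obtain ⟨g, hg⟩ := hs a ha b hb h
  exact mk_eq_iff.2 ⟨g⁻¹, by rw [← hg, inv_smul_smul]⟩

/-- THE FLAGS AT A TOP -/
theorem oc_tfl (hu : ∀ i, P.sq i → ∀ j j', P.tp i j → P.tp i j' → j = j') (T : V) :
    oc ↥(stabilizer H T) (P.tfl T) = 2 * P.nsq T := by
  rw [oc_ncard (G := ↥(stabilizer H T)) (P.tfl T) (fun f => (f.1.1.1, f.2))
    (fun g y => rfl) ?_]
  · have e : (fun f : FL K => (f.1.1.1, f.2)) '' P.tfl T = P.sqAt T ×ˢ (Set.univ : Set Bool) := by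
      ext ⟨i, b⟩
      constructor
      · rintro ⟨f, hf, e⟩
        obtain ⟨k, hk, -, e1, -, -⟩ := tfl_place hf
        have e2 : f.1.1.1 = i := congrArg Prod.fst e
        subst e2
        exact ⟨⟨hf.1, k, hk, _, e1⟩, trivial⟩
      · rintro ⟨hi, -⟩
        obtain ⟨f, hf, e1, e2, -⟩ := P.tfl_ex hi b
        exact ⟨f, hf, Prod.ext e1 e2⟩
    rw [e, Set.ncard_prod, Set.ncard_univ, Nat.card_eq_fintype_card, Fintype.card_bool, mul_comm]
    rfl
  · intro f hf f' hf' e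
    obtain ⟨e1, e2⟩ := Prod.mk.inj (show (f.1.1.1, f.2) = (f'.1.1.1, f'.2) from e)
    obtain ⟨h1, h2⟩ := tfl_same hu hf hf' e1
    refine ⟨⟨f'.1.2 * f.1.2⁻¹, h2⟩, ?_⟩
    exact Prod.ext h1.symm e2

/-- THE FLAGS AT AN ARROW OF AN ORDINARY TOP -/
theorem oc_tfl_pole (hu : ∀ i, P.sq i → ∀ j j', P.tp i j → P.tp i j' → j = j') {T a b y : V}
    (h : P.Top T a b y) (hn : ∀ a b y, P.Top T a b y → a ≠ b)
    (ho : ∀ g : H, g • T = T → g • a = a) :
    oc ↥(stabilizer H (T, a)) {f | f ∈ P.tfl T ∧ fz f = a} = P.nsq T := by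
  have two : ∀ c, K.ar T c → c = a ∨ c = b := by
    intro c hc
    rcases K.two _ _ _ _ h.2.1 h.2.2 hc with e | e | e
    · exact absurd e (hn _ _ _ h)
    · exact Or.inr e.symm
    · exact Or.inl e.symm
  rw [oc_ncard (G := ↥(stabilizer H (T, a))) {f : FL K | f ∈ P.tfl T ∧ fz f = a}
    (fun f => f.1.1.1) (fun g y => rfl) ?_]
  · have e : (fun f : FL K => f.1.1.1) '' {f : FL K | f ∈ P.tfl T ∧ fz f = a} = P.sqAt T := by
      ext i
      constructor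
      · rintro ⟨f, ⟨hf, -⟩, e⟩
        obtain ⟨k, hk, -, e1, -, -⟩ := tfl_place hf
        have e2 : f.1.1.1 = i := e
        subst e2
        exact ⟨hf.1, k, hk, _, e1⟩
      · intro hi
        obtain ⟨f, hf, e1, e2, k, hk, e3, e4, e5⟩ := P.tfl_ex hi true
        -- the poles of the top place are the poles of `T`
        have t2 := two _ (by rw [← hf.2.2.2]; exact hf.2.2.1)
        have t0 := two _ (by rw [← hf.2.2.2]; exact hf.2.1)
        by_cases ha : K.c2 f.1 = a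
        · exact ⟨f, ⟨hf, by unfold fz; rw [if_pos e2]; exact ha⟩, e1⟩
        by_cases ha0 : K.c0 f.1 = a
        · exact ⟨(f.1, false), ⟨hf, by unfold fz; rw [if_neg (by simp)]; exact ha0⟩, e1⟩
        exfalso
        have r2 := t2.resolve_left ha
        have r0 := t0.resolve_left ha0
        have htop := (tp.top hi.1 hk).smul f.1.2
        rw [e3, ← e4, ← e5] at htop
        exact hn _ _ _ htop (r2.trans r0.symm)
    rw [e]
    rfl
  · intro f hf f' hf' e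
    have e1 : f.1.1.1 = f'.1.1.1 := e
    obtain ⟨h1, h2⟩ := tfl_same hu hf.1 hf'.1 e1
    have h3 := ho _ h2
    have hg : (f'.1.2 * f.1.2⁻¹) ∈ stabilizer H (T, a) := by
      rw [mem_stabilizer_iff]
      exact Prod.ext h2 h3
    refine ⟨⟨_, hg⟩, Prod.ext h1.symm ?_⟩
    -- the directions agree
    by_contra hne
    have k1 := hf.2
    have k2 := hf'.2
    obtain ⟨k, hk, -, e5, e2, e0⟩ := tfl_place hf.1
    have htop := (tp.top hf.1.1 hk).smul f.1.2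
    rw [e5, ← e2, ← e0] at htop
    have hne' := hn _ _ _ htop
    have c2 : K.c2 f'.1 = (f'.1.2 * f.1.2⁻¹) • K.c2 f.1 :=
      (congrArg K.c2 h1).trans (K.c2_smul _ _)
    have c0 : K.c0 f'.1 = (f'.1.2 * f.1.2⁻¹) • K.c0 f.1 :=
      (congrArg K.c0 h1).trans (K.c0_smul _ _)
    have hne2 : f.2 ≠ f'.2 := hne
    unfold fz at k1 k2
    rcases hb : f.2 with _ | _ <;> rcases hb' : f'.2 with _ | _
    · exact hne2 (hb.trans hb'.symm)
    · rw [hb, if_neg (by simp)] at k1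
      rw [hb', if_pos rfl, c2] at k2
      rw [← h3] at k2
      exact hne' ((smul_left_cancel _ k2).trans k1.symm)
    · rw [hb, if_pos rfl] at k1
      rw [hb', if_neg (by simp), c0] at k2
      rw [← h3] at k2
      exact hne' (k1.trans (smul_left_cancel _ k2).symm)
    · exact hne2 (hb.trans hb'.symm)

end P45

end Pool.Agent.DI
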