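import Pool.Agent.DI.OpB
import Pool.Agent.DI.Ns3
import Pool.Agent.DI.SgEq0
import Pool.Agent.DI.ClsT

/-!
# DI/NsQ: one listed square over every top of the folded slice

`NSt.nsq_le`: the number of the listed squares over a near star is at most the number of its far strands.
`nsq_alone`: over a vertex which crosses no edge at `w` there is at most one. `Rz.nsq_le`: if every near star
has one far strand then no two listed squares of the folded slice have their tops in one orbit.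
-/

attribute [local instance 2000] SubMulAction.mulAction

namespace Pool.Agent.DI

open MulAction
open Pool.Agent.SAF (InC orbs FinOrb oc Decomp SAn SA Conv hull dist_edge FinOrb_iff exists_next
  mk_eq_iff oc_mono oc_le_of_inj oc_le_of_rel oc_le_of_surj)
open Pool.Agent.BT (PX PQ JS bey exits lz lz_self lz_ne lz_symm x_next_unique)
open Pool.Agent.BT.TA

/-- different indices have different orbits -/
theorem ncard_le_oc {G Y I : Type} [Group G] [MulAction G Y] {A : Set I} {B : Set Y}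
    (hB : FinOrb G B) (R : I → Y → Prop) (h1 : ∀ i ∈ A, ∃ y ∈ B, R i y)
    (h2 : ∀ i ∈ A, ∀ i' ∈ A, ∀ y ∈ B, ∀ y' ∈ B, R i y → R i' y' → (∃ g : G, g • y = y') → i = i') :
    A.ncard ≤ oc G B := by
  classical
  rcases A.eq_empty_or_nonempty with rfl | ⟨i0, hi0⟩
  · rw [Set.ncard_empty]
    exact Nat.zero_le _
  have key : ∀ i : I, ∃ y : Y, y ∈ B ∧ (i ∈ A → R i y) := fun i => by
    by_cases h : i ∈ A
    · obtain ⟨y, hy, hy'⟩ := h1 i h
      exact ⟨y, hy, fun _ => hy'⟩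
    · obtain ⟨y, hy, -⟩ := h1 i0 hi0
      exact ⟨y, hy, fun k => absurd k h⟩
  choose f hf hf' using key
  unfold SAF.oc
  refine Set.ncard_le_ncard_of_injOn (fun i => (Quotient.mk'' (f i) : orbitRel.Quotient G Y))
    (fun i _ => ⟨f i, hf i, rfl⟩) ?_ hB
  intro i hi i' hi' e
  obtain ⟨g, hg⟩ := mk_eq_iff.1 e
  exact h2 i hi i' hi' _ (hf i) _ (hf i') (hf' i hi) (hf' i' hi')
    ⟨g⁻¹, by rw [← hg, inv_smul_smul]⟩

theorem nq_pt {G Y : Type} [Group G] [MulAction G Y] {g g' : G} {a b w : Y} (h : g • a = w)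
    (h' : g' • b = w) (k : (g * g'⁻¹) • w = w) : a = b := by
  have e : g'⁻¹ • w = b := by rw [← h', inv_smul_smul]
  rw [mul_smul, e] at k
  exact smul_left_cancel g (h.trans k.symm)

/-! ### translates of a listed square -/

namespace P45

section

variable {H V : Type} [Group H] [MulAction H V] {K : GX H V} {P : P45 K}

/-- the walk is the translate of the square `i` by `g` -/
def Q4i (P : P45 K) (g : H) (i : K.I) (a q b y : V) : Prop := ∃ j : Fin 4,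
  (a = g • P.qt i j ∧ q = g • P.qt i (j + 1) ∧ b = g • P.qt i (j + 2) ∧
    y = g • P.qt i (j + 3)) ∨
  (b = g • P.qt i j ∧ q = g • P.qt i (j + 1) ∧ a = g • P.qt i (j + 2) ∧ y = g • P.qt i (j + 3))

theorem nq_a1 : ∀ j : Fin 4, j + 1 + 1 = j + 2 := by decide
theorem nq_a2 : ∀ j : Fin 4, j + 1 + 2 = j + 3 := by decide
theorem nq_a3 : ∀ j : Fin 4, j + 1 + 3 = j := by decide
theorem nq_b1 : ∀ j : Fin 4, j + 2 + 1 = j + 3 := by decide
theorem nq_b2 : ∀ j : Fin 4, j + 2 + 2 = j := by decide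
theorem nq_b3 : ∀ j : Fin 4, j + 2 + 3 = j + 1 := by decide
theorem nq_c1 : ∀ j : Fin 4, j + 3 + 1 = j := by decide
theorem nq_c2 : ∀ j : Fin 4, j + 3 + 2 = j + 1 := by decide
theorem nq_c3 : ∀ j : Fin 4, j + 3 + 3 = j + 2 := by decide
theorem nq_4 : ∀ t t' : Fin 4, t' = t ∨ t' = t + 1 ∨ t' = t + 2 ∨ t' = t + 3 := by decide

theorem Q4i.q4 {g : H} {i : K.I} (hi : P.sq i) {a q b y : V} (h : P.Q4i g i a q b y) :
    Q4 P a q b y := by
  obtain ⟨j, h⟩ := h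
  exact ⟨g, i, j, hi, h⟩

theorem Q4i.symm {g : H} {i : K.I} {a q b y : V} (h : P.Q4i g i a q b y) :
    P.Q4i g i b q a y := by
  obtain ⟨j, h | h⟩ := h
  · exact ⟨j, Or.inr h⟩
  · exact ⟨j, Or.inl h⟩

theorem Q4i.rot {g : H} {i : K.I} {a q b y : V} (h : P.Q4i g i a q b y) :
    P.Q4i g i q b y a := by
  obtain ⟨j, ⟨rfl, rfl, rfl, rfl⟩ | ⟨rfl, rfl, rfl, rfl⟩⟩ := h
  · refine ⟨j + 1, Or.inl ⟨rfl, ?_, ?_, ?_⟩⟩
    · rw [nq_a1]
    · rw [nq_a2]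
    · rw [nq_a3]
  · refine ⟨j + 3, Or.inr ⟨rfl, ?_, ?_, ?_⟩⟩
    · rw [nq_c1]
    · rw [nq_c2]
    · rw [nq_c3]

theorem Q4i.smul {g : H} {i : K.I} {a q b y : V} (h : P.Q4i g i a q b y) (k : H) :
    P.Q4i (k * g) i (k • a) (k • q) (k • b) (k • y) := by
  obtain ⟨j, ⟨rfl, rfl, rfl, rfl⟩ | ⟨rfl, rfl, rfl, rfl⟩⟩ := h
  · exact ⟨j, Or.inl ⟨smul_smul _ _ _, smul_smul _ _ _, smul_smul _ _ _, smul_smul _ _ _⟩⟩
  · exact ⟨j, Or.inr ⟨smul_smul _ _ _, smul_smul _ _ _, smul_smul _ _ _, smul_smul _ _ _⟩⟩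

theorem Q4i_qt (P : P45 K) (g : H) (i : K.I) (j : Fin 4) : P.Q4i g i (g • P.qt i j)
    (g • P.qt i (j + 1)) (g • P.qt i (j + 2)) (g • P.qt i (j + 3)) :=
  ⟨j, Or.inl ⟨rfl, rfl, rfl, rfl⟩⟩

/-- the place of a top in the listed square -/
theorem Q4i.top {g : H} {i : K.I} {a T b y : V} (h : P.Q4i g i a T b y) (ha : K.ar T a)
    (hb : K.ar T b) : ∃ t, P.tp i t ∧ g • P.qt i t = T ∧ y = g • P.qt i (t + 2) ∧
      ((a = g • P.qt i (t + 1) ∧ b = g • P.qt i (t + 3)) ∨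
       (a = g • P.qt i (t + 3) ∧ b = g • P.qt i (t + 1))) := by
  obtain ⟨j, ⟨rfl, rfl, rfl, rfl⟩ | ⟨rfl, rfl, rfl, rfl⟩⟩ := h
  · refine ⟨j + 1, ⟨?_, ?_⟩, rfl, ?_, Or.inr ⟨?_, ?_⟩⟩
    · rw [nq_a1]
      exact ar_back hb
    · rw [nq_a3]
      exact ar_back ha
    · rw [nq_a2]
    · rw [nq_a3]
    · rw [nq_a1]
  · refine ⟨j + 1, ⟨?_, ?_⟩, rfl, ?_, Or.inl ⟨?_, ?_⟩⟩
    · rw [nq_a1]
      exact ar_back ha
    · rw [nq_a3]
      exact ar_back hb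
    · rw [nq_a2]
    · rw [nq_a1]
    · rw [nq_a3]

/-- a square has one top place, or its tops are opened -/
theorem SqE.tpu {E : V → Prop} (hs : P.SqE E) {i : K.I} (hi : P.sq i) {t t' : Fin 4}
    (h : P.tp i t) (h' : P.tp i t') : t = t' ∨ (t' = t + 2 ∧ E (P.qt i t)) := by
  rcases nq_4 t t' with rfl | rfl | rfl | rfl
  · exact Or.inl rfl
  · exfalso
    have := h'.2
    rw [nq_a3] at this
    exact GX.ck_asym h.1 this
  · refine Or.inr ⟨rfl, ?_⟩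
    rcases hs.side _ _ _ _ (P45.ck_tp hi h) with k | k | k
    · exact k
    · exfalso
      have := h'.2
      rw [nq_b3] at this
      exact GX.ck_asym k this
    · exfalso
      have := h'.1
      rw [nq_b1] at this
      exact GX.ck_asym k this
  · exfalso
    have := h'.1
    rw [nq_c1] at this
    exact GX.ck_asym h.2 this

/-- the walk at a top which is not opened determines the listed square, and its translate up to an
element which fixes the square -/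
theorem SqE.q4i_eq {E : V → Prop} (hs : P.SqE E) {g g' : H} {i i' : K.I} (hi : P.sq i)
    (hi' : P.sq i') {a T b y : V} (h : P.Q4i g i a T b y) (h' : P.Q4i g' i' a T b y)
    (ha : K.ar T a) (hb : K.ar T b) (hE : ¬ E T) :
    i = i' ∧ (g * g'⁻¹) • T = T ∧ (g * g'⁻¹) • y = y ∧
      (((g * g'⁻¹) • a = a ∧ (g * g'⁻¹) • b = b) ∨ ((g * g'⁻¹) • a = b ∧ (g * g'⁻¹) • b = a)) := by
  obtain ⟨t, t1, t2, t3, t4⟩ := h.top ha hb
  obtain ⟨t', t1', t2', t3', t4'⟩ := h'.top ha hb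
  have e : i = i' := by
    refine hs.one i i' hi hi' t t' t1 t1' (g'⁻¹ * g) ?_
    rw [mul_smul, t2, ← t2', inv_smul_smul]
  subst e
  have et : t = t' := by
    rcases hs.tpu hi t1 t1' with k | ⟨-, k⟩
    · exact k
    · exfalso
      apply hE
      rw [← t2]
      exact hs.Es g _ k
  subst et
  have m : ∀ k, (g * g'⁻¹) • g' • P.qt i k = g • P.qt i k := fun k => by
    rw [mul_smul, inv_smul_smul]
  refine ⟨rfl, ?_, ?_, ?_⟩
  · nth_rw 1 [← t2']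
    rw [m, t2]
  · nth_rw 1 [t3']
    rw [m, t3]
  · rcases t4 with ⟨k1, k2⟩ | ⟨k1, k2⟩ <;> rcases t4' with ⟨l1, l2⟩ | ⟨l1, l2⟩
    · left
      constructor
      · nth_rw 1 [l1]
        rw [m, k1]
      · nth_rw 1 [l2]
        rw [m, k2]
    · right
      constructor
      · nth_rw 1 [l1]
        rw [m, k2]
      · nth_rw 1 [l2]
        rw [m, k1]
    · right
      constructor
      · nth_rw 1 [l1]
        rw [m, k2]
      · nth_rw 1 [l2]
        rw [m, k1]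
    · left
      constructor
      · nth_rw 1 [l1]
        rw [m, k1]
      · nth_rw 1 [l2]
        rw [m, k2]

end

end P45

open P45

namespace SyQ

variable {H V : Type} [Group H] [MulAction H V] {S : SyQ H V}

/-! ### the position of a square seen at `w` -/

/-- the position of a square of `K` seen at `w`, with the vertices -/
theorem nd4_pos {w : S.X} {a q b y : V} (h : Q4 S.P a q b y) (hn : S.Nd4 w a q b y) :
    S.At4 a q b y w ∨
    (∃ u, S.Qs w u q a b ∧ S.J y ⊆ bey S.D.G w u) ∨ (∃ u, S.Qs w u y a b ∧ S.J q ⊆ bey S.D.G w u) ∨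
    (∃ u, S.Qs w u b q y ∧ S.J a ⊆ bey S.D.G w u) ∨ ∃ u, S.Qs w u a q y ∧ S.J b ⊆ bey S.D.G w u := by
  have key : ∀ {x0 x1 x2 x3 : V} {p p' : S.X}, Q4 S.P x0 x1 x2 x3 → S.Nd4 w x0 x1 x2 x3 →
      S.Al x0 x1 x2 x3 p p' → (∃ u, S.Qs w u x1 x0 x2 ∧ S.J x3 ⊆ bey S.D.G w u) ∨
        ∃ u, S.Qs w u x3 x0 x2 ∧ S.J x1 ⊆ bey S.D.G w u := by
    intro x0 x1 x2 x3 p p' hq hn k
    obtain ⟨hw, hne⟩ := (k.nd_iff hq.w4).1 hn
    by_cases e : w = p'
    · subst e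
      obtain ⟨u, b⟩ := exists_Bt S.D.tree (Sgm.left w p) (Ne.symm k.ne)
      right
      refine ⟨u, k.qs' hq b.symm, ?_⟩
      exact k.s1 hq.w4 b.symm
    · obtain ⟨u, b⟩ := exists_Bt S.D.tree hw e
      left
      exact ⟨u, k.qs hq b, k.s3 hq.w4 b⟩
  rcases h.w4.pos with ⟨p, p', k⟩ | ⟨p, p', k⟩ | ⟨p, k⟩
  · rcases key h hn k with r | r
    · exact Or.inr (Or.inl r)
    · exact Or.inr (Or.inr (Or.inl r))
  · rcases key h.rot hn.rot k with r | r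
    · exact Or.inr (Or.inr (Or.inr (Or.inl r)))
    · exact Or.inr (Or.inr (Or.inr (Or.inr r)))
  · left
    rw [((k.nd_iff h.w4).1 hn).1]
    exact k

/-- THE KIND OF A KEPT SQUARE with the top `[a]` -/
theorem top_kind {w : S.X} {O : S.OR w} (hO : O.Nf) (hK : S.KIn w) {a q1 b q2 : V}
    (h : Q4 S.P a q1 b q2) (hnd : S.Nd4 w a q1 b q2)
    (n1 : S.fq w O (S.rho w a) ≠ S.fq w O (S.rho w b))
    (n2 : S.fq w O (S.rho w q1) ≠ S.fq w O (S.rho w q2))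
    (t1 : S.arQ w O (S.fq w O (S.rho w a)) (S.fq w O (S.rho w q1)))
    (t2 : S.arQ w O (S.fq w O (S.rho w a)) (S.fq w O (S.rho w q2))) :
    (S.P.Top a q1 q2 b ∧ S.Loc w a q1 q2 b) ∨ (∃ u, S.KN w O u q1 b a ∧ S.J q2 ⊆ bey S.D.G w u) ∨
      (∃ u, S.KN w O u q2 b a ∧ S.J q1 ⊆ bey S.D.G w u) ∨
      ∃ u, S.KH w O u a q1 q2 ∧ S.J b ⊆ bey S.D.G w u := by
  -- the star of a side
  have near : ∀ {q q' : V} {u : S.X}, S.Qs w u q a b → S.J q' ⊆ bey S.D.G w u →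
      S.fq w O (S.rho w q) ≠ S.fq w O (S.rho w q') →
      S.arQ w O (S.fq w O (S.rho w a)) (S.fq w O (S.rho w q)) →
      S.KN w O u q b a ∧ S.J q' ⊆ bey S.D.G w u := by
    intro q q' u k1 k2 k3 k4
    have ey : S.rho w q' = Sum.inr ⟨u, k1.adj⟩ := S.rho_bey k1.adj k2
    rw [ey] at k3
    rcases fold_sq (O := O) k1 with r | r | ⟨r1, r2⟩
    · exact absurd r n1
    · exact absurd r k3
    · have ea : S.K.ar a q := by
        rcases k1.E1 with e | e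
        · exact e
        · exact absurd (hO.ar_pole r1 k1.adj e k1.l) (arQ_asym k4)
      exact ⟨⟨k1.symm', r1, r2.resolve_left (GX.ck_asym ea), ea⟩, k2⟩
  rcases nd4_pos h hnd with k | ⟨u, k1, k2⟩ | ⟨u, k1, k2⟩ | ⟨u, k1, k2⟩ | ⟨u, k1, k2⟩
  · left
    have hl : S.Loc w a q1 q2 b := ⟨k.p0, k.p1, k.p3, k.p2⟩
    rcases h.ck_top hK.top with t | t | t | t
    · exact ⟨t, hl⟩
    · exfalso
      have := (loc_ar hO hK t ⟨hl.2.1, hl.2.2.2, hl.1, hl.2.2.1⟩).2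
      exact arQ_asym this t1
    · exfalso
      have hl' : S.Loc w b q2 q1 a := ⟨hl.2.2.2, hl.2.2.1, hl.2.1, hl.1⟩
      rcases loc_side hO hK t hl' n2.symm with e | e
      · exact arQ_asym e t2
      · exact arQ_asym e t1
    · exfalso
      have := (loc_ar hO hK t ⟨hl.2.2.1, hl.1, hl.2.2.2, hl.2.1⟩).1
      exact arQ_asym this t2
  · exact Or.inr (Or.inl ⟨u, near k1 k2 n2 t1⟩)
  · exact Or.inr (Or.inr (Or.inl ⟨u, near k1 k2 n2.symm t2⟩))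
  · exfalso
    rw [S.rho_bey k1.adj k2] at t1
    exact not_arQ_inr t1
  · right; right; right
    have eb : S.rho w b = Sum.inr ⟨u, k1.adj⟩ := S.rho_bey k1.adj k2
    rw [eb] at n1
    rcases fold_sq (O := O) k1 with r | r | ⟨r1, r2⟩
    · exact absurd r n2
    · exact absurd r n1
    · have e1 : S.K.ar a q1 := by
        rcases k1.E1 with e | e
        · exact absurd (OR.ar_hub r1 k1.adj e k1.l) (arQ_asym t1)
        · exact e
      have e2 : S.K.ar a q2 := by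
        rcases k1.E2 with e | e
        · exact absurd (OR.ar_hub r1 k1.adj e k1.r) (arQ_asym t2)
        · exact e
      exact ⟨u, ⟨k1, r1, e1, e2, fun e => n2 (by rw [e])⟩, k2⟩

/-- THE KIND OF A ZERO SQUARE, top at an end -/
theorem top_kind5 {w u : S.X} {O : S.OR w} (hO : O.Nf) {a q b : V} (k1 : S.Qs w u q a b)
    (n1 : S.fq w O (S.rho w a) ≠ S.fq w O (S.rho w b))
    (n2 : S.fq w O (S.rho w q) ≠ S.fq w O (Sum.inr ⟨u, k1.adj⟩))
    (t1 : S.arQ w O (S.fq w O (S.rho w a)) (S.fq w O (S.rho w q))) : S.KN w O u q b a := by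
  rcases fold_sq (O := O) k1 with r | r | ⟨r1, r2⟩
  · exact absurd r n1
  · exact absurd r n2
  · have ea : S.K.ar a q := by
      rcases k1.E1 with e | e
      · exact e
      · exact absurd (hO.ar_pole r1 k1.adj e k1.l) (arQ_asym t1)
    exact ⟨k1.symm', r1, r2.resolve_left (GX.ck_asym ea), ea⟩

/-- THE KIND OF A ZERO SQUARE, top at the hub -/
theorem top_kind5h {w u : S.X} {O : S.OR w} {a q b : V} (k1 : S.Qs w u q a b)
    (n1 : S.fq w O (S.rho w a) ≠ S.fq w O (S.rho w b))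
    (n2 : S.fq w O (S.rho w q) ≠ S.fq w O (Sum.inr ⟨u, k1.adj⟩))
    (t1 : S.arQ w O (S.fq w O (S.rho w q)) (S.fq w O (S.rho w a)))
    (t2 : S.arQ w O (S.fq w O (S.rho w q)) (S.fq w O (S.rho w b))) : S.KH w O u q a b := by
  rcases fold_sq (O := O) k1 with r | r | ⟨r1, r2⟩
  · exact absurd r n1
  · exact absurd r n2
  · have e1 : S.K.ar q a := by
      rcases k1.E1 with e | e
      · exact absurd (OR.ar_hub r1 k1.adj e k1.l) (arQ_asym t1)
      · exact e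
    have e2 : S.K.ar q b := by
      rcases k1.E2 with e | e
      · exact absurd (OR.ar_hub r1 k1.adj e k1.r) (arQ_asym t2)
      · exact e
    exact ⟨k1, r1, e1, e2, fun e => n1 (by rw [e])⟩

/-! ### the listed squares of the folded slice -/

section Read

variable {hc : S.Conn} {w : S.X} {O : S.OR w} {hm : (S.k0 hc w).Min} {hn : S.SqN w O}

theorem kf_sq_cases {i : (S.kf hc w O).I} (hi : (S.kfP hc w O hm hn).sq i) :
    (∃ (p : S.C4 w) (hp : S.kept w O (Sum.inl p)), i = Sum.inr ⟨Sum.inl p, hp⟩) ∨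
    ∃ (p : S.C4q w) (hp : S.kept w O (Sum.inr p)), i = Sum.inr ⟨Sum.inr p, hp⟩ := by
  rcases i with c | ⟨p | p, hp⟩
  · exact absurd hi (kfP_not_sq hm hn c)
  · exact Or.inl ⟨p, hp, rfl⟩
  · exact Or.inr ⟨p, hp, rfl⟩

theorem kf_tp {p : {p // S.kept w O p}} {j : Fin 4} (ht : (S.kfP hc w O hm hn).tp (Sum.inr p) j)
    (l : ↥(stabilizer H w)) :
    S.arQ w O (S.fq w O (l • S.vq w p.1 j)) (S.fq w O (l • S.vq w p.1 (j + 1))) ∧
    S.arQ w O (S.fq w O (l • S.vq w p.1 j)) (S.fq w O (l • S.vq w p.1 (j + 3))) := by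
  obtain ⟨h1, h2⟩ := ht
  rw [kfP_qt, kfP_qt] at h1
  rw [kfP_qt, kfP_qt] at h2
  have h1 : S.arQ w O (S.fq w O (S.vq w p.1 j)) (S.fq w O (S.vq w p.1 (j + 1))) := h1
  have h2 : S.arQ w O (S.fq w O (S.vq w p.1 j)) (S.fq w O (S.vq w p.1 (j + 3))) := h2
  rw [fq_smul, fq_smul, fq_smul]
  exact ⟨arQ_smul l h1, arQ_smul l h2⟩

theorem kept_j {p : S.C4 w ⊕ S.C4q w} (hp : S.kept w O p) (l : ↥(stabilizer H w)) (j : Fin 4) :
    S.fq w O (l • S.vq w p j) ≠ S.fq w O (l • S.vq w p (j + 2)) := by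
  rw [fq_smul, fq_smul]
  intro e
  have e := smul_left_cancel l e
  fin_cases j
  · exact hp.1 e
  · exact hp.2 e
  · exact hp.1 e.symm
  · exact hp.2 e.symm

/-- THE KIND OF A LISTED SQUARE of `K` -/
theorem C4q.kind (hO : O.Nf) (hK : S.KIn w) (p : S.C4q w) (hp : S.kept w O (Sum.inr p))
    (l : ↥(stabilizer H w)) {j : Fin 4}
    (ht : (S.kfP hc w O hm hn).tp (Sum.inr ⟨Sum.inr p, hp⟩) j) :
    (S.P.Top (S.tq (l.1 * p.g) p.1.1 j) (S.tq (l.1 * p.g) p.1.1 (j + 1))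
        (S.tq (l.1 * p.g) p.1.1 (j + 3)) (S.tq (l.1 * p.g) p.1.1 (j + 2)) ∧
      S.Loc w (S.tq (l.1 * p.g) p.1.1 j) (S.tq (l.1 * p.g) p.1.1 (j + 1))
        (S.tq (l.1 * p.g) p.1.1 (j + 3)) (S.tq (l.1 * p.g) p.1.1 (j + 2))) ∨
    (∃ u, S.KN w O u (S.tq (l.1 * p.g) p.1.1 (j + 1)) (S.tq (l.1 * p.g) p.1.1 (j + 2))
        (S.tq (l.1 * p.g) p.1.1 j) ∧ S.J (S.tq (l.1 * p.g) p.1.1 (j + 3)) ⊆ bey S.D.G w u) ∨
    (∃ u, S.KN w O u (S.tq (l.1 * p.g) p.1.1 (j + 3)) (S.tq (l.1 * p.g) p.1.1 (j + 2))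
        (S.tq (l.1 * p.g) p.1.1 j) ∧ S.J (S.tq (l.1 * p.g) p.1.1 (j + 1)) ⊆ bey S.D.G w u) ∨
    ∃ u, S.KH w O u (S.tq (l.1 * p.g) p.1.1 j) (S.tq (l.1 * p.g) p.1.1 (j + 1))
        (S.tq (l.1 * p.g) p.1.1 (j + 3)) ∧ S.J (S.tq (l.1 * p.g) p.1.1 (j + 2)) ⊆
          bey S.D.G w u := by
  have ev : ∀ k, l • S.vq w (Sum.inr p) k = S.rho w (S.tq (l.1 * p.g) p.1.1 k) := fun k =>
    l_rhoq l _ _ _
  obtain ⟨t1, t2⟩ := kf_tp ht l
  have n1 := kept_j hp l j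
  have n2 := kept_j hp l (j + 1)
  rw [nq_a2] at n2
  rw [ev, ev] at t1 t2 n1 n2
  have hn' : S.Nd4 w (S.tq (l.1 * p.g) p.1.1 0) (S.tq (l.1 * p.g) p.1.1 1)
        (S.tq (l.1 * p.g) p.1.1 2) (S.tq (l.1 * p.g) p.1.1 3) := p.ndl l
  have hnd : S.Nd4 w (S.tq (l.1 * p.g) p.1.1 j) (S.tq (l.1 * p.g) p.1.1 (j + 1))
      (S.tq (l.1 * p.g) p.1.1 (j + 2)) (S.tq (l.1 * p.g) p.1.1 (j + 3)) := by
    fin_cases j
    · exact hn'
    · exact hn'.rot
    · exact hn'.rot.rot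
    · exact hn'.rot.rot.rot
  exact top_kind hO hK (Q4_qt (P := S.P) (l.1 * p.g) p.2.1 j) hnd n1 n2 t1 t2

/-- THE KIND OF A LISTED ZERO SQUARE of a pentagon -/
theorem C4.kind (hO : O.Nf) (p : S.C4 w) (hp : S.kept w O (Sum.inl p))
    (l : ↥(stabilizer H w)) {j : Fin 4}
    (ht : (S.kfP hc w O hm hn).tp (Sum.inr ⟨Sum.inl p, hp⟩) j) :
    (j = 0 ∧ ∃ u, S.KN w O u (S.tr (l.1 * p.g) p.1.1 (p.1.2.1 + 1))
      (S.tr (l.1 * p.g) p.1.1 (p.1.2.1 + 2)) (S.tr (l.1 * p.g) p.1.1 p.1.2.1) ∧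
      S.J (S.tr (l.1 * p.g) p.1.1 (p.1.2.1 + 3)) ⊆ bey S.D.G w u) ∨
    (j = 2 ∧ ∃ u, S.KN w O u (S.tr (l.1 * p.g) p.1.1 (p.1.2.1 + 1))
      (S.tr (l.1 * p.g) p.1.1 p.1.2.1) (S.tr (l.1 * p.g) p.1.1 (p.1.2.1 + 2)) ∧
      S.J (S.tr (l.1 * p.g) p.1.1 (p.1.2.1 + 4)) ⊆ bey S.D.G w u) ∨
    (j = 1 ∧ ∃ u, S.KH w O u (S.tr (l.1 * p.g) p.1.1 (p.1.2.1 + 1))
      (S.tr (l.1 * p.g) p.1.1 p.1.2.1) (S.tr (l.1 * p.g) p.1.1 (p.1.2.1 + 2)) ∧
      S.Sq w u (S.tr (l.1 * p.g) p.1.1 p.1.2.1) (S.tr (l.1 * p.g) p.1.1 (p.1.2.1 + 1))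
        (S.tr (l.1 * p.g) p.1.1 (p.1.2.1 + 2)) (S.tr (l.1 * p.g) p.1.1 (p.1.2.1 + 3))
        (S.tr (l.1 * p.g) p.1.1 (p.1.2.1 + 4))) := by
  have hs := p.sql l
  have hq := Qn_pt (P := S.P) (l.1 * p.g) p.2.1 p.1.2.1
  have e0 : l • S.vq w (Sum.inl p) 0 = S.rho w (S.tr (l.1 * p.g) p.1.1 p.1.2.1) := l_rho l _ _ _
  have e1 : l • S.vq w (Sum.inl p) 1 = S.rho w (S.tr (l.1 * p.g) p.1.1 (p.1.2.1 + 1)) :=
    l_rho l _ _ _
  have e2 : l • S.vq w (Sum.inl p) 2 = S.rho w (S.tr (l.1 * p.g) p.1.1 (p.1.2.1 + 2)) :=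
    l_rho l _ _ _
  have e3 : l • S.vq w (Sum.inl p) 3 = Sum.inr ⟨_, hs.1⟩ :=
    (l_rho l _ _ _).trans (S.rho_bey hs.1 hs.2.2.2.2.1)
  have hQ : S.Qs w (l.1 • p.u) (S.tr (l.1 * p.g) p.1.1 (p.1.2.1 + 1))
      (S.tr (l.1 * p.g) p.1.1 p.1.2.1) (S.tr (l.1 * p.g) p.1.1 (p.1.2.1 + 2)) :=
    ⟨hs.1, hs.2.1, hs.2.2.1, hs.2.2.2.1, Or.inl ⟨_, _, hq, hs.2.2.2.2.1, hs.2.2.2.2.2⟩⟩
  have n1 := kept_j hp l 0
  have n2 := kept_j hp l 1
  have n1 : S.fq w O (l • S.vq w (Sum.inl p) 0) ≠ S.fq w O (l • S.vq w (Sum.inl p) 2) := n1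
  have n2 : S.fq w O (l • S.vq w (Sum.inl p) 1) ≠ S.fq w O (l • S.vq w (Sum.inl p) 3) := n2
  rw [e0, e2] at n1
  rw [e1, e3] at n2
  obtain ⟨t1, t2⟩ := kf_tp ht l
  fin_cases j
  · left
    have t1 : S.arQ w O (S.fq w O (l • S.vq w (Sum.inl p) 0))
      (S.fq w O (l • S.vq w (Sum.inl p) 1)) := t1
    rw [e0, e1] at t1
    exact ⟨rfl, _, top_kind5 hO hQ n1 n2 t1, hs.2.2.2.2.1⟩
  · right; right
    have t1 : S.arQ w O (S.fq w O (l • S.vq w (Sum.inl p) 1))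
      (S.fq w O (l • S.vq w (Sum.inl p) 2)) := t1
    have t2 : S.arQ w O (S.fq w O (l • S.vq w (Sum.inl p) 1))
      (S.fq w O (l • S.vq w (Sum.inl p) 0)) := t2
    rw [e1, e2] at t1
    rw [e1, e0] at t2
    exact ⟨rfl, _, top_kind5h hQ n1 n2 t2 t1, hs⟩
  · right; left
    have t2 : S.arQ w O (S.fq w O (l • S.vq w (Sum.inl p) 2))
      (S.fq w O (l • S.vq w (Sum.inl p) 1)) := t2
    rw [e2, e1] at t2
    exact ⟨rfl, _, top_kind5 hO hQ.symm' n1.symm n2 t2, hs.2.2.2.2.2⟩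
  · exfalso
    have t1 : S.arQ w O (S.fq w O (l • S.vq w (Sum.inl p) 3))
      (S.fq w O (l • S.vq w (Sum.inl p) 0)) := t1
    rw [e3] at t1
    exact not_arQ_inr t1

/-- the corner of `K` in a listed square of the folded slice -/
def Rsq (hc : S.Conn) (w : S.X) (O : S.OR w) (i : (S.kf hc w O).I)
    (c : FL S.K ⊕ ((V × V) × (V × V))) : Prop :=
  (∃ (p : S.C4 w) (hp : S.kept w O (Sum.inl p)) (l : ↥(stabilizer H w)) (k : Fin 5) (b : Bool),
    i = Sum.inr ⟨Sum.inl p, hp⟩ ∧ c = Sum.inl (S.P.l5 p.1.1 p.2.1 k (l.1 * p.g), b)) ∨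
  ∃ (p : S.C4q w) (hp : S.kept w O (Sum.inr p)) (l : ↥(stabilizer H w))
    (d : (V × V) × (V × V)), i = Sum.inr ⟨Sum.inr p, hp⟩ ∧ c = Sum.inr d ∧
    S.P.Q4i (l.1 * p.g) p.1.1 d.2.2 d.1.1 d.1.2 d.2.1

/-- A LISTED SQUARE OVER A NEAR STAR HAS A FAR CORNER -/
theorem NSt.sq_ex (hO : O.Nf) (hK : S.KIn w) {u : S.X} {n x y : V} (N : S.NSt w u O n x y)
    {i : (S.kf hc w O).I} (hi : i ∈ (S.kfP hc w O hm hn).sqAt (S.fq w O (S.rho w y))) :
    ∃ c ∈ S.farS w u O n x y, S.Rsq hc w O i c := by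
  obtain ⟨hsq, j, hj, l, e⟩ := hi
  rcases kf_sq_cases hsq with ⟨p, hp, rfl⟩ | ⟨p, hp, rfl⟩
  · have b2 : ∀ k : Fin 5, k + 1 + 2 = k + 3 := by decide
    rcases C4.kind hO p hp l hj with ⟨rfl, u', k1, k2⟩ | ⟨rfl, u', k1, k2⟩ | ⟨rfl, u', k1, k2⟩
    · have e1 : S.fq w O (S.rho w (S.tr (l.1 * p.g) p.1.1 p.1.2.1)) = S.fq w O (S.rho w y) := by
        rw [← e, kfP_qt, ← fq_smul]
        exact congrArg (S.fq w O) (l_rho l _ _ _).symm
      obtain ⟨e2, rfl, e3⟩ := N.kn.uniq hO k1 e1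
      refine ⟨Sum.inl (S.P.l5 p.1.1 p.2.1 p.1.2.1 (l.1 * p.g), true), ?_,
        Or.inl ⟨p, hp, l, p.1.2.1, true, rfl, rfl⟩⟩
      refine ⟨p.2.1, ?_, ?_, ?_, ?_⟩
      · show S.fq w O (S.rho w (S.K.c0 _)) = _
        rw [P45.c0_5]
        exact e1
      · show S.K.c1 _ = _
        rw [P45.c1_5]
        exact e2
      · show S.K.c2 _ = _
        rw [P45.c2_5]
        exact e3
      · have ev : fv ((S.P.l5 p.1.1 p.2.1 p.1.2.1 (l.1 * p.g), true) : FL S.K) =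
            S.tr (l.1 * p.g) p.1.1 (p.1.2.1 + 3) := by
          show S.K.c2 (S.K.nx _) = _
          rw [P45.nx_l5, P45.c2_5, b2]
          rfl
        rw [ev]
        exact k2
    · have e1 : S.fq w O (S.rho w (S.tr (l.1 * p.g) p.1.1 (p.1.2.1 + 2))) =
          S.fq w O (S.rho w y) := by
        rw [← e, kfP_qt, ← fq_smul]
        exact congrArg (S.fq w O) (l_rho l _ _ _).symm
      obtain ⟨e2, rfl, e3⟩ := N.kn.uniq hO k1 e1
      refine ⟨Sum.inl (S.P.l5 p.1.1 p.2.1 p.1.2.1 (l.1 * p.g), false), ?_,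
        Or.inl ⟨p, hp, l, p.1.2.1, false, rfl, rfl⟩⟩
      refine ⟨p.2.1, ?_, ?_, ?_, ?_⟩
      · show S.fq w O (S.rho w (S.K.c2 _)) = _
        rw [P45.c2_5]
        exact e1
      · show S.K.c1 _ = _
        rw [P45.c1_5]
        exact e2
      · show S.K.c0 _ = _
        rw [P45.c0_5]
        exact e3
      · have ev : fv ((S.P.l5 p.1.1 p.2.1 p.1.2.1 (l.1 * p.g), false) : FL S.K) =
            S.tr (l.1 * p.g) p.1.1 (p.1.2.1 + 4) := by
          show S.K.c0 (S.K.pv _) = _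
          rw [P45.pv_l5, P45.c0_5]
          rfl
        rw [ev]
        exact k2
    · exfalso
      have e1 : S.fq w O (S.rho w (S.tr (l.1 * p.g) p.1.1 (p.1.2.1 + 1))) =
          S.fq w O (S.rho w y) := by
        rw [← e, kfP_qt, ← fq_smul]
        exact congrArg (S.fq w O) (l_rho l _ _ _).symm
      have N' := (N.nv.cl hO e1).1
      exact k1.dia.not_cs N'.adj N'.cs.2
  · have e1 : S.fq w O (S.rho w (S.tq (l.1 * p.g) p.1.1 j)) = S.fq w O (S.rho w y) := by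
      rw [← e, kfP_qt, ← fq_smul]
      exact congrArg (S.fq w O) (l_rhoq l _ _ _).symm
    have N' := (N.nv.cl hO e1).1
    have hqi := Q4i_qt S.P (l.1 * p.g) p.1.1 j
    -- the fourth vertex is beyond
    have far : ∀ {q b r : V}, S.P.Q4i (l.1 * p.g) p.1.1 (S.tq (l.1 * p.g) p.1.1 j) q b r →
        (∃ u', S.KN w O u' q b (S.tq (l.1 * p.g) p.1.1 j) ∧ S.J r ⊆ bey S.D.G w u') →
        ∃ c ∈ S.farS w u O n x y, S.Rsq hc w O (Sum.inr ⟨Sum.inr p, hp⟩) c := by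
      rintro q b r hq' ⟨u', k, hr⟩
      obtain ⟨rfl, rfl, rfl⟩ := N.kn.uniq hO k e1
      exact ⟨Sum.inr ((q, b), (r, S.tq (l.1 * p.g) p.1.1 j)),
        ⟨Q4i.q4 (P := S.P) p.2.1 hq', e1, rfl, rfl, hr⟩, Or.inr ⟨p, hp, l, _, rfl, rfl, hq'⟩⟩
    rcases C4q.kind hO hK p hp l hj with ⟨k1, k2⟩ | k | k | ⟨u', k, -⟩
    · exact absurd N'.cs.2 (hK.no_cs k1 k2 N'.adj)
    · exact far hqi k
    · exact far hqi.symm.rot.rot k
    · exact absurd N'.cs.2 (k.dia.not_cs N'.adj)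

/-- THE CORNER DETERMINES THE LISTED SQUARE, if no exchanged diamond top crosses -/
theorem Rsq.inj {E : V → Prop} (hs : S.P.SqE E) {u : S.X} {n x y : V} (N : S.NSt w u O n x y)
    (hO : O.Nf)
    (fl : ∀ T a b y (g : H), S.P.Top T a b y → S.K.ar a y → w ∈ S.J T → w ∈ S.J a →
      w ∉ S.J b → g • T = T → g • a ≠ b)
    {i i' : (S.kf hc w O).I} {c c' : FL S.K ⊕ ((V × V) × (V × V))} (h : S.Rsq hc w O i c)
    (h' : S.Rsq hc w O i' c') (hf : c ∈ S.farS w u O n x y) (hf' : c' ∈ S.farS w u O n x y)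
    (g : ↥(stabilizer ↥(stabilizer H w) (S.fq w O (S.rho w y), S.fq w O (S.rho w n))))
    (e : g • c = c') : i = i' := by
  rcases h with ⟨p, hp, l, k, b, rfl, rfl⟩ | ⟨p, hp, l, ⟨⟨p1, p2⟩, ⟨p3, p4⟩⟩, rfl, rfl, h⟩
  · rcases h' with ⟨p', hp', l', k', b', rfl, rfl⟩ | ⟨p', hp', l', d', rfl, rfl, h'⟩
    · have e := Sum.inl.inj e
      have e1 : p.1.1 = p'.1.1 := congrArg (fun f : FL S.K => f.1.1.1) e
      have e2 : g.1.1 * (l.1 * p.g) = l'.1 * p'.g := congrArg (fun f : FL S.K => f.1.2) e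
      have e3 : (g.1 * l).1 * p.g = l'.1 * p'.g := by
        rw [← e2]
        exact mul_assoc _ _ _
      obtain ⟨rfl, -⟩ := C4.eq_of e1 e3
      rfl
    · cases e
  · rcases h' with ⟨p', hp', l', k', b', rfl, rfl⟩ | ⟨p', hp', l', ⟨⟨p1', p2'⟩, ⟨p3', p4'⟩⟩, rfl, rfl, h'⟩
    · cases e
    · have e := Sum.inr.inj e
      obtain ⟨h1', h2', h3', h4', h5'⟩ := hf'
      have f3 : g.1.1 • p3 = p3' := congrArg (fun r : (V × V) × (V × V) => r.2.1) e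
      have f4 : g.1.1 • p4 = p4' := congrArg (fun r : (V × V) × (V × V) => r.2.2) e
      have f1 : g.1.1 • p1 = p1' := congrArg (fun r : (V × V) × (V × V) => r.1.1) e
      have f2 : g.1.1 • p2 = p2' := congrArg (fun r : (V × V) × (V × V) => r.1.2) e
      have k := Q4i.smul h g.1.1
      have k : S.P.Q4i (g.1.1 * (l.1 * p.g)) p.1.1 (g.1.1 • p4) (g.1.1 • p1) (g.1.1 • p2)
        (g.1.1 • p3) := k
      rw [f1, f2, f3, f4] at k
      have k' : S.P.Q4i (l'.1 * p'.g) p'.1.1 p4' p1' p2' p3' := h'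
      obtain rfl : p1' = n := h3'
      obtain rfl : p2' = x := h4'
      have N' := (N.nv.cl hO h2').1
      have gw : g.1.1 • w = w := g.1.2
      have w1 : (g.1.1 * (l.1 * p.g)) • p.1.2 = w := by
        rw [mul_smul, mul_smul, p.g_smul, show l.1 • w = w from l.2, gw]
      have w2 : (l'.1 * p'.g) • p'.1.2 = w := by
        rw [mul_smul, p'.g_smul, show l'.1 • w = w from l'.2]
      have fin : p.1.1 = p'.1.1 →
          ((g.1.1 * (l.1 * p.g)) * (l'.1 * p'.g)⁻¹) • w = w → (Sum.inr ⟨Sum.inr p, hp⟩ :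
          (S.kf hc w O).I) = Sum.inr ⟨Sum.inr p', hp'⟩ := by
        intro e1 e2
        have e3 : p.1.2 = p'.1.2 := nq_pt w1 w2 e2
        obtain rfl : p = p' := Subtype.ext (Prod.ext e1 e3)
        rfl
      have mv : ∀ {h : H} {r : V}, h • r = r → w ∈ S.J r → h • w ∈ S.J r := by
        intro h r e hr
        have := S.js.smul h _ _ hr
        rwa [e] at this
      have yn : S.K.ar p4' p1' := N'.yn
      rcases zp_cases hs N.nx yn h1' with ⟨t, hE⟩ | ⟨t, hE⟩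
      · have t : S.P.Top p4' p1' p3' p2' := t
        obtain ⟨e1, e2, e3, e4⟩ := hs.q4i_eq p.2.1 p'.2.1 k.rot.rot.rot k'.rot.rot.rot
          t.2.2 t.2.1 hE
        rcases e4 with ⟨e4, e5⟩ | ⟨e4, e5⟩
        · refine fin e1 ?_
          exact S.one_eq (Or.inl yn) (mv e2 N'.cs.1) (mv e5 N'.nw) N'.cs.1 N'.nw
        · exact absurd e5 (fl _ _ _ _ _ t N.nx N'.cs.1 N'.nw
            (S.not_mem_of_bey N.qs.adj h5') e2)
      · have t : S.P.Top p3' p4' p2' p1' := t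
        obtain ⟨e1, e2, e3, e4⟩ := hs.q4i_eq p.2.1 p'.2.1 k.rot.rot k'.rot.rot
          t.2.2 t.2.1 hE
        rcases e4 with ⟨e4, e5⟩ | ⟨e4, e5⟩
        · refine fin e1 ?_
          exact S.one_eq (Or.inl N.nx) (mv e3 N.nv.nw) (mv e4 N.qs.r.1) N.nv.nw N.qs.r.1
        · exfalso
          have := S.K.ar_smul (g.1.1 * (l.1 * p.g) * (l'.1 * p'.g)⁻¹) _ _ yn
          rw [e5, e3] at this
          exact GX.ck_asym this N.nx

/-- THE LISTED SQUARES OVER A NEAR STAR are at most its far corners -/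
theorem NSt.nsq_le {E : V → Prop} (hs : S.P.SqE E) (hO : O.Nf) (hK : S.KIn w) {u : S.X}
    {n x y : V} (N : S.NSt w u O n x y)
    (fl : ∀ T a b y (g : H), S.P.Top T a b y → S.K.ar a y → w ∈ S.J T → w ∈ S.J a →
      w ∉ S.J b → g • T = T → g • a ≠ b) :
    (S.kfP hc w O hm hn).nsq (S.fq w O (S.rho w y)) ≤
      S.ck w O (S.fq w O (S.rho w y), S.fq w O (S.rho w n)) := by
  rw [ck_eq hO N.kn]
  refine ncard_le_oc (N.fin_farS hO) (S.Rsq hc w O) (fun i hi => N.sq_ex hO hK hi) ?_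
  rintro i - i' - c hc' c' hc'' h h' ⟨g, hg⟩
  exact h.inj hs N hO fl h' hc' hc'' g hg

/-- a listed square over a vertex which crosses no edge at `w` -/
theorem alone_ex (hO : O.Nf) (hK : S.KIn w) {q : V} (hq : w ∈ S.J q)
    (hcr : ∀ u, S.D.G.Adj w u → u ∉ S.J q)
    (hcl : ∀ c, S.fq w O c = S.fq w O (S.rho w q) → c = S.rho w q)
    (hd : ∀ u a b y z, S.K.ar q a → S.K.ar q b → a ≠ b → Qn S.P a q b y z → S.Sq w u a q b y z →
      False)
    {i : (S.kf hc w O).I} (hi : i ∈ (S.kfP hc w O hm hn).sqAt (S.fq w O (S.rho w q))) :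
    ∃ (p : S.C4q w) (hp : S.kept w O (Sum.inr p)) (L : H) (j : Fin 4),
      i = Sum.inr ⟨Sum.inr p, hp⟩ ∧ L • p.1.2 = w ∧ L • S.P.qt p.1.1 j = q ∧
      S.P.tp p.1.1 j := by
  obtain ⟨hsq, j, hj, l, e⟩ := hi
  have inj : ∀ {r : V}, S.fq w O (S.rho w r) = S.fq w O (S.rho w q) → r = q := by
    intro r k
    rcases S.rho_eq_iff.1 (hcl _ k) with e | ⟨-, e, -⟩
    · exact e
    · exact absurd hq e
  rcases kf_sq_cases hsq with ⟨p, hp, rfl⟩ | ⟨p, hp, rfl⟩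
  · exfalso
    rcases C4.kind hO p hp l hj with ⟨rfl, u', k1, k2⟩ | ⟨rfl, u', k1, k2⟩ | ⟨rfl, u', k1, k2⟩
    · have e1 : S.fq w O (S.rho w (S.tr (l.1 * p.g) p.1.1 p.1.2.1)) = S.fq w O (S.rho w q) := by
        rw [← e, kfP_qt, ← fq_smul]
        exact congrArg (S.fq w O) (l_rho l _ _ _).symm
      apply hcr u' k1.adj
      rw [← inj e1]
      exact k1.1.r.2
    · have e1 : S.fq w O (S.rho w (S.tr (l.1 * p.g) p.1.1 (p.1.2.1 + 2))) =
          S.fq w O (S.rho w q) := by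
        rw [← e, kfP_qt, ← fq_smul]
        exact congrArg (S.fq w O) (l_rho l _ _ _).symm
      apply hcr u' k1.adj
      rw [← inj e1]
      exact k1.1.r.2
    · have e1 : S.fq w O (S.rho w (S.tr (l.1 * p.g) p.1.1 (p.1.2.1 + 1))) =
          S.fq w O (S.rho w q) := by
        rw [← e, kfP_qt, ← fq_smul]
        exact congrArg (S.fq w O) (l_rho l _ _ _).symm
      have e2 := inj e1
      have hq := Qn_pt (P := S.P) (l.1 * p.g) p.2.1 p.1.2.1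
      have k3 := k1.2.2.1
      have k4 := k1.2.2.2.1
      have k5 := k1.2.2.2.2
      rw [e2] at k3 k4 k2
      have hq : Qn S.P (S.tr (l.1 * p.g) p.1.1 p.1.2.1) (S.tr (l.1 * p.g) p.1.1 (p.1.2.1 + 1))
        (S.tr (l.1 * p.g) p.1.1 (p.1.2.1 + 2)) (S.tr (l.1 * p.g) p.1.1 (p.1.2.1 + 3))
        (S.tr (l.1 * p.g) p.1.1 (p.1.2.1 + 4)) := hq
      rw [e2] at hq
      exact hd _ _ _ _ _ k3 k4 k5 hq k2
  · have e1 : S.fq w O (S.rho w (S.tq (l.1 * p.g) p.1.1 j)) = S.fq w O (S.rho w q) := by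
      rw [← e, kfP_qt, ← fq_smul]
      exact congrArg (S.fq w O) (l_rhoq l _ _ _).symm
    have e2 := inj e1
    have w1 : (l.1 * p.g) • p.1.2 = w := by
      rw [mul_smul, p.g_smul, show l.1 • w = w from l.2]
    refine ⟨p, hp, l.1 * p.g, j, rfl, w1, e2, ?_⟩
    rcases C4q.kind hO hK p hp l hj with ⟨k1, k2⟩ | ⟨u', k, -⟩ | ⟨u', k, -⟩ | ⟨u', k, -⟩
    · exact ⟨ar_back k1.2.1, ar_back k1.2.2⟩
    · exfalso
      apply hcr u' k.adj
      rw [← e2]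
      exact k.1.r.2
    · exfalso
      apply hcr u' k.adj
      rw [← e2]
      exact k.1.r.2
    · exact ⟨ar_back k.2.2.1, ar_back k.2.2.2.1⟩

/-- ONE LISTED SQUARE over a vertex which crosses no edge at `w` -/
theorem nsq_alone {E : V → Prop} (hs : S.P.SqE E) (hO : O.Nf) (hK : S.KIn w) {q : V}
    (hq : w ∈ S.J q) (hcr : ∀ u, S.D.G.Adj w u → u ∉ S.J q)
    (hcl : ∀ c, S.fq w O c = S.fq w O (S.rho w q) → c = S.rho w q)
    (hd : ∀ u a b y z, S.K.ar q a → S.K.ar q b → a ≠ b → Qn S.P a q b y z → S.Sq w u a q b y z →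
      False)
    (hu : ∀ i, S.P.sq i → ∀ t t' (g g' : H), S.P.tp i t → S.P.tp i t' → g • S.P.qt i t = q →
      g' • S.P.qt i t' = q → t = t') :
    (S.kfP hc w O hm hn).nsq (S.fq w O (S.rho w q)) ≤ 1 := by
  refine (Set.ncard_le_one ((S.kfP hc w O hm hn).sqAt_fin _)).2 ?_
  intro i hi i' hi'
  obtain ⟨p, hp, L, j, rfl, h1, h2, h3⟩ := alone_ex hO hK hq hcr hcl hd hi
  obtain ⟨p', hp', L', j', rfl, h1', h2', h3'⟩ := alone_ex hO hK hq hcr hcl hd hi'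
  have e1 : p.1.1 = p'.1.1 := by
    refine hs.one _ _ p.2.1 p'.2.1 j j' h3 h3' (L'⁻¹ * L) ?_
    rw [mul_smul, h2, ← h2', inv_smul_smul]
  have e2 : j = j' := by
    refine hu p.1.1 p.2.1 j j' L L' h3 ?_ h2 ?_
    · rw [e1]
      exact h3'
    · rw [e1]
      exact h2'
  have e3 : (L * L'⁻¹) • q = q := by
    nth_rw 1 [← h2']
    rw [mul_smul, inv_smul_smul, ← e1, ← e2, h2]
  have e4 : (L * L'⁻¹) • w = w := by
    have := S.js.smul (L * L'⁻¹) _ _ hq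
    rw [e3] at this
    exact one_of_loc hq hcr this
  obtain rfl : p = p' := Subtype.ext (Prod.ext e1 (nq_pt h1 h1' e4))
  rfl

end Read

/-! ### all tops -/

namespace Rz

variable {w : S.X} {O : S.OR w} {E : V → Prop} (h : S.Rz w O E)
variable {hc : S.Conn} {hm : (S.k0 hc w).Min} {hn : S.SqN w O}

include h

/-- the top place of a square over a vertex which is not bare -/
theorem tpu (eb : ∀ T a b y, S.P.Top T a b y → E T → ¬ S.P.Bare T → ¬ S.P.Bare y →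
      ∀ g : H, g • T ≠ y)
    {q : V} (hb : ¬ S.P.Bare q) :
    ∀ i, S.P.sq i → ∀ t t' (g g' : H), S.P.tp i t → S.P.tp i t' → g • S.P.qt i t = q →
      g' • S.P.qt i t' = q → t = t' := by
  intro i hi t t' g g' ht ht' e e'
  rcases h.sq.tpu hi ht ht' with k | ⟨rfl, k⟩
  · exact k
  exfalso
  have t1 := (P45.ck_tp hi ht).smul g
  have t2 := (P45.ck_tp hi ht').smul g'
  rw [e] at t1
  rw [e', nq_b2] at t2
  have k' : E q := by
    rw [← e]
    exact h.sq.Es g _ k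
  have e3 := h.par _ _ _ _ _ _ _ t1 t2 hb
  by_cases k2 : S.P.Bare (g • S.P.qt i (t + 2))
  · rw [e3] at k2
    have k3 := k2.smul (g * g'⁻¹)
    rw [mul_smul, inv_smul_smul, e] at k3
    exact hb k3
  · refine eb _ _ _ _ t1 k' hb k2 (g' * g⁻¹) ?_
    rw [e3, ← e, mul_smul, inv_smul_smul]

/-- ONE LISTED SQUARE OVER EVERY TOP OF THE FOLDED SLICE -/
theorem nsq_le (eb : ∀ T a b y, S.P.Top T a b y → E T → ¬ S.P.Bare T → ¬ S.P.Bare y →
      ∀ g : H, g • T ≠ y)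
    (fl : ∀ T a b y (g : H), S.P.Top T a b y → S.K.ar a y → w ∈ S.J T → w ∈ S.J a →
      w ∉ S.J b → g • T = T → g • a ≠ b)
    (hk : ∀ u q z x, S.KN w O u q z x →
      S.ck w O (S.fq w O (S.rho w x), S.fq w O (S.rho w q)) ≤ 1) (T : S.Q w O) :
    (S.kfP hc w O hm hn).nsq T ≤ 1 := by
  rcases Nat.eq_zero_or_pos ((S.kfP hc w O hm hn).nsq T) with e | e
  · rw [e]
    exact Nat.zero_le _
  have hdir : ∀ {q : V}, w ∈ S.J q → ∀ u a b y z, S.K.ar q a → S.K.ar q b → a ≠ b →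
      Qn S.P a q b y z → S.Sq w u a q b y z → False := by
    intro q hq u a b y z qa qb hab k1 k2
    exact h.drw hq qa qb hab k2.1 k2.2.1 k2.2.2.1 k1 ⟨k2.2.2.2.2.1, k2.2.2.2.2.2⟩
  obtain ⟨a, b, y, ht⟩ := (S.kfP hc w O hm hn).nsq_pos_iff.1 e
  rcases kf_Top h.nf h.kin ht with ⟨u, q, z, x, k, rfl, -⟩ | ⟨u, q, z, x, k, rfl, -⟩ |
    ⟨T0, a0, b0, y0, k, hl, rfl, -⟩
  · exact (k.nst.nsq_le h.sq h.nf h.kin fl).trans (hk _ _ _ _ k)
  · have hq := O.near u q k.2.1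
    have hb := ((h.opn u q).1 k.2.1).2
    exact nsq_alone h.sq h.nf h.kin hq (fun v hv => k.dia.not_cs hv)
      (fun c e => cls_one hq (fun v hv => k.dia.not_cs hv) (fun v => h.nf.nsk k.2.1 hq v) e)
      (hdir hq) (h.tpu eb hb)
  · have hb := h.nb_loc k hl
    exact nsq_alone h.sq h.nf h.kin hl.1 (fun v hv => h.kin.no_cs k hl hv)
      (fun c e => cls_one hl.1 (fun v hv => h.kin.no_cs k hl hv)
        (fun v => h.nf.loc_nsk k hl hl.1 v) e) (hdir hl.1) (h.tpu eb hb)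

/-- THE FOLDED SLICE ITSELF HAS THE STATIC CLASS -/
theorem kf_sqT (eb : ∀ T a b y, S.P.Top T a b y → E T → ¬ S.P.Bare T → ¬ S.P.Bare y →
      ∀ g : H, g • T ≠ y)
    (fl : ∀ T a b y (g : H), S.P.Top T a b y → S.K.ar a y → w ∈ S.J T → w ∈ S.J a →
      w ∉ S.J b → g • T = T → g • a ≠ b)
    (hk : ∀ u q z x, S.KN w O u q z x →
      S.ck w O (S.fq w O (S.rho w x), S.fq w O (S.rho w q)) ≤ 1) :
    (S.kfP hc w O hm hn).SqT where
  top := kf_top h.nf h.kin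
  one := (S.kfP hc w O hm hn).nsq_le_iff.1 (h.nsq_le eb fl hk)
  par _ _ _ _ _ _ _ k k' := Or.inr (kf_par h.nf h.kin k k')
  side _ _ _ _ k := Or.inr (kf_side h.nf h.kin k)
  Ey _ _ _ _ _ k := k.elim
  Ea _ _ _ _ _ k := k.elim
  Es _ _ k := k.elim
  nab _ _ _ _ k := kf_nab k
  nTy _ _ _ _ k := kf_nTy k

/-- NO TWO LISTED SQUARES OF THE FOLDED SLICE ARE PARALLEL -/
theorem kf_noPl (eb : ∀ T a b y, S.P.Top T a b y → E T → ¬ S.P.Bare T → ¬ S.P.Bare y →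
      ∀ g : H, g • T ≠ y)
    (fl : ∀ T a b y (g : H), S.P.Top T a b y → S.K.ar a y → w ∈ S.J T → w ∈ S.J a →
      w ∉ S.J b → g • T = T → g • a ≠ b)
    (hk : ∀ u q z x, S.KN w O u q z x →
      S.ck w O (S.fq w O (S.rho w x), S.fq w O (S.rho w q)) ≤ 1) :
    (S.kfP hc w O hm hn).NoPl :=
  SqE.noPl (h.kf_sqT (hc := hc) (hm := hm) (hn := hn) eb fl hk)

end Rz

end SyQ

end Pool.Agent.DI
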