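import Pool.Agent.DI.OEMap
import Pool.Agent.DI.OEDef
import Pool.Agent.SAF.BColl

/-!
# DI/OECol: collapse of a decomposition along an invariant set of edges

`exists_col`: for an invariant symmetric relation `R` contained in the adjacency, without invariant
class, there are a decomposition whose vertices are the classes of `R` and the collapse `c` (`TMap`).
-/

namespace Pool.Agent.DI

open MulAction
open Pool.Agent.SAF (InC orbs FinOrb oc Decomp SAn SA Conv exists_cut exists_next isTree_of_cut
  connected_of_rtg)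

/-- invariant symmetric sets of edges -/
structure IR {H : Type} [Group H] (D : Decomp H) (R : D.X → D.X → Prop) : Prop where
  adj : ∀ x y, R x y → D.G.Adj x y
  symm : ∀ x y, R x y → R y x
  smul : ∀ (h : H) x y, R x y → R (h • x) (h • y)

section Collapse

variable {H : Type} [Group H] {D : Decomp H} {R : D.X → D.X → Prop}

theorem IR.eqv (hR : IR D R) (h : H) {a b : D.X} (e : Relation.EqvGen R a b) :
    Relation.EqvGen R (h • a) (h • b) := by
  induction e with
  | rel x y hxy => exact Relation.EqvGen.rel _ _ (hR.smul h _ _ hxy)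
  | refl x => exact Relation.EqvGen.refl _
  | symm x y _ ih => exact Relation.EqvGen.symm _ _ ih
  | trans x y z _ _ ih1 ih2 => exact Relation.EqvGen.trans _ _ _ ih1 ih2

/-- the cut function of an edge which is not in `R` is constant on classes -/
theorem IR.cut_const (hR : IR D R) {u v : D.X}
    (hnc : ¬ R u v) {g : D.X → ZMod 2}
    (hg : ∀ a b, D.G.Adj a b → (g a ≠ g b ↔ ((a = u ∧ b = v) ∨ (a = v ∧ b = u))))
    {a b : D.X} (e : Relation.EqvGen R a b) : g a = g b := by
  induction e with
  | rel x y hxy =>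
    by_contra hne
    rcases (hg x y (hR.adj _ _ hxy)).1 hne with ⟨rfl, rfl⟩ | ⟨rfl, rfl⟩
    · exact hnc hxy
    · exact hnc (hR.symm _ _ hxy)
  | refl x => rfl
  | symm x y _ ih => exact ih.symm
  | trans x y z _ _ ih1 ih2 => exact ih1.trans ih2

/-- an adjacent pair in one class is in `R` -/
theorem IR.of_class (hR : IR D R) {u v : D.X}
    (huv : D.G.Adj u v) (e : Relation.EqvGen R u v) : R u v := by
  by_contra hnc
  obtain ⟨g, hg, _, _⟩ := exists_cut D.G D.tree u v huv
  have h1 := hR.cut_const hnc hg e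
  exact (hg u v huv).2 (Or.inl ⟨rfl, rfl⟩) h1

variable (D R)

/-- the classes -/
private def csR : Setoid D.X := Relation.EqvGen.setoid R

private def QR : Type := Quotient (csR D R)

private def qr (a : D.X) : QR D R := Quotient.mk (csR D R) a

variable {D R}

private theorem qr_eq {a b : D.X} : qr D R a = qr D R b ↔ Relation.EqvGen R a b :=
  ⟨fun h => Quotient.exact h, fun h => Quotient.sound h⟩

private theorem qr_surj (c : QR D R) : ∃ a, qr D R a = c := by
  induction c using Quotient.inductionOn with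
  | h p => exact ⟨p, rfl⟩

variable (D R)

private def GR : SimpleGraph (QR D R) where
  Adj c c' := c ≠ c' ∧ ∃ a b, qr D R a = c ∧ qr D R b = c' ∧ D.G.Adj a b
  symm := ⟨fun _ _ h => ⟨h.1.symm, by
    obtain ⟨a, b, h1, h2, h3⟩ := h.2
    exact ⟨b, a, h2, h1, h3.symm⟩⟩⟩
  loopless := ⟨fun _ h => h.1 rfl⟩

variable {D R}

/-- the edge of `D.G` under an edge of the new graph, and its cut function -/
private theorem GR_edge (hR : IR D R) {c c' : QR D R} (h : (GR D R).Adj c c') :
    ∃ u v, qr D R u = c ∧ qr D R v = c' ∧ D.G.Adj u v ∧ ¬ R u v ∧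
      ∀ a b, qr D R a = c → qr D R b = c' → D.G.Adj a b → a = u ∧ b = v := by
  obtain ⟨hne, u, v, h1, h2, huv⟩ := h
  have hnc : ¬ R u v := by
    intro hC
    apply hne
    rw [← h1, ← h2]
    exact qr_eq.2 (Relation.EqvGen.rel _ _ hC)
  refine ⟨u, v, h1, h2, huv, hnc, ?_⟩
  intro a b ha hb hab
  obtain ⟨g, hg, hg0, hg1⟩ := exists_cut D.G D.tree u v huv
  have e1 : g a = g u := hR.cut_const hnc hg (qr_eq.1 (ha.trans h1.symm))
  have e2 : g b = g v := hR.cut_const hnc hg (qr_eq.1 (hb.trans h2.symm))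
  have e3 : g u ≠ g v := (hg u v huv).2 (Or.inl ⟨rfl, rfl⟩)
  have e4 : g a ≠ g b := by rw [e1, e2]; exact e3
  rcases (hg a b hab).1 e4 with e | ⟨rfl, rfl⟩
  · exact e
  · exact absurd e1.symm e3

private theorem GR_tree (hR : IR D R) : (GR D R).IsTree := by
  apply isTree_of_cut
  · obtain ⟨x0⟩ := D.tree.connected.nonempty
    apply connected_of_rtg _ ⟨qr D R x0⟩
    intro x y
    obtain ⟨a, rfl⟩ := qr_surj x
    obtain ⟨b, rfl⟩ := qr_surj y
    have hr : Relation.ReflTransGen D.G.Adj a b :=
      (SimpleGraph.reachable_iff_reflTransGen a b).1 (D.tree.connected.preconnected a b)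
    induction hr with
    | refl => exact Relation.ReflTransGen.refl
    | @tail c d _ hcd ih =>
      by_cases e : qr D R c = qr D R d
      · rw [← e]; exact ih
      · exact ih.tail ⟨e, c, d, rfl, rfl, hcd⟩
  · intro c c' hcc
    obtain ⟨u, v, h1, h2, huv, hnc, -⟩ := GR_edge hR hcc
    obtain ⟨g, hg, hg0, hg1⟩ := exists_cut D.G D.tree u v huv
    have hgc : ∀ a b : D.X, (csR D R) a b → g a = g b := fun a b e => hR.cut_const hnc hg e
    refine ⟨Quotient.lift g hgc, ?_, ?_⟩
    · rw [← h1, ← h2]
      exact (hg u v huv).2 (Or.inl ⟨rfl, rfl⟩)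
    · rintro d d' ⟨-, a, b, rfl, rfl, hab⟩ hne
      rcases (hg a b hab).1 hne with ⟨rfl, rfl⟩ | ⟨rfl, rfl⟩
      · exact Or.inl ⟨h1, h2⟩
      · exact Or.inr ⟨h2, h1⟩

end Collapse

/-- THE COLLAPSE along an invariant set of edges -/
theorem exists_col {H : Type} [Group H] (D : Decomp H) (R : D.X → D.X → Prop) (hR : IR D R)
    (hfix : ∀ x : D.X, ∃ h : H, ¬ Relation.EqvGen R (h • x) x) :
    ∃ (D1 : Decomp H) (c : D.X → D1.X), TMap D.G D1.G c ∧ (∀ (h : H) a, c (h • a) = h • c a) ∧
      ∀ a b, c a = c b ↔ Relation.EqvGen R a b := by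
  let act : MulAction H (QR D R) :=
    { smul := fun h => Quotient.map (fun p => h • p) (fun _ _ e => hR.eqv h e)
      one_smul := fun l => by
        induction l using Quotient.inductionOn with
        | h p => exact congrArg (Quotient.mk (csR D R)) (one_smul H p)
      mul_smul := fun a b l => by
        induction l using Quotient.inductionOn with
        | h p => exact congrArg (Quotient.mk (csR D R)) (mul_smul a b p) }
  have qs : ∀ (h : H) (a : D.X), qr D R (h • a) = h • qr D R a := fun _ _ => rfl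
  have hsm : ∀ (h : H) (x y : QR D R), (GR D R).Adj x y → (GR D R).Adj (h • x) (h • y) := by
    intro h x y e
    obtain ⟨hne, a, b, rfl, rfl, hab⟩ := e
    exact ⟨fun e => hne (smul_left_cancel h e), h • a, h • b, rfl, rfl, D.adj_smul h _ _ hab⟩
  have hst : ∀ (x y : QR D R), (GR D R).Adj x y →
      InC ↥(stabilizer H x ⊓ stabilizer H y) := by
    intro x y e
    obtain ⟨u, v, h1, h2, huv, hnc, hun⟩ := GR_edge hR e
    have hle : stabilizer H x ⊓ stabilizer H y ≤ stabilizer H u ⊓ stabilizer H v := by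
      rintro j ⟨hx, hy⟩
      replace hx : j • x = x := hx
      replace hy : j • y = y := hy
      have k1 : qr D R (j • u) = x := by rw [qs, h1, hx]
      have k2 : qr D R (j • v) = y := by rw [qs, h2, hy]
      exact hun _ _ k1 k2 (D.adj_smul j _ _ huv)
    exact Pool.Agent.SAG.InC.mono hle (D.edgeC _ _ huv)
  let D1 : Decomp H :=
    { X := QR D R
      act := act
      G := GR D R
      tree := GR_tree hR
      adj_smul := hsm
      noinv := by
        rintro h x y e ⟨e1, e2⟩
        obtain ⟨u, v, h1, h2, huv, hnc, hun⟩ := GR_edge hR e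
        have k1 : qr D R (h • v) = x := by rw [qs, h2, e2]
        have k2 : qr D R (h • u) = y := by rw [qs, h1, e1]
        obtain ⟨f1, f2⟩ := hun _ _ k1 k2 (D.adj_smul h _ _ huv).symm
        exact D.noinv h u v huv ⟨f2, f1⟩
      finV := by
        apply D.finV.image (fun a => qr D R a)
        · intro b _
          obtain ⟨a, rfl⟩ := qr_surj b
          exact ⟨a, trivial, 1, one_smul _ _⟩
        · rintro a _ b _ ⟨h, rfl⟩
          exact ⟨h, rfl⟩
      finE := by
        apply D.finE.image (fun p => (qr D R p.1, qr D R p.2))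
        · rintro ⟨c, c'⟩ ⟨-, a, b, h1, h2, hab⟩
          refine ⟨(a, b), hab, 1, ?_⟩
          rw [one_smul]
          exact Prod.ext h1 h2
        · rintro a _ b _ ⟨h, rfl⟩
          exact ⟨h, rfl⟩
      edgeC := hst
      nofix := by
        intro c
        obtain ⟨a, rfl⟩ := qr_surj c
        obtain ⟨h, hh⟩ := hfix a
        exact ⟨h, fun e => hh (qr_eq.1 e)⟩ }
  refine ⟨D1, fun a => qr D R a, ?_, fun h a => rfl, fun a b => qr_eq⟩
  refine
    { t' := D.tree
      t := D1.tree
      surj := qr_surj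
      adj := ?_
      lift := ?_
      uniq := ?_ }
  · intro a b h
    by_cases e : qr D R a = qr D R b
    · exact Or.inl e
    · exact Or.inr ⟨e, a, b, rfl, rfl, h⟩
  · intro x y h
    obtain ⟨u, v, h1, h2, huv, -, -⟩ := GR_edge hR (c := x) (c' := y) h
    exact ⟨u, v, h1, h2, huv⟩
  · intro a b a' b' h h' hne e1 e2
    obtain ⟨u, v, h1, h2, huv, hnc, hun⟩ := GR_edge hR (c := qr D R a) (c' := qr D R b)
      ⟨hne, a, b, rfl, rfl, h⟩
    obtain ⟨k1, k2⟩ := hun a b rfl rfl h
    obtain ⟨k3, k4⟩ := hun a' b' e1.symm e2.symm h'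
    exact ⟨k1.trans k3.symm, k2.trans k4.symm⟩

theorem IR_Rl {H : Type} [Group H] (D : Decomp H) (a b : D.X) : IR D (Rl D a b) :=
  ⟨fun _ _ h => h.1, fun _ _ h => h.symm', fun h _ _ k => k.smul h⟩

end Pool.Agent.DI
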