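import Pool.Agent.DI.OEDef

/-!
# The choice of the edge orbit

`D` a decomposition of `H`, `w` a vertex. There is an edge orbit such that the collapse of all other
edges has one orbit of vertices, or the orbit of an edge `v p` such that the collapse has the two
orbits of the classes of `w` and `v`, the stabiliser of the class of `v` is the stabiliser of `v`, and
the class of `v` has two different edges of the orbit (`exists_leaf`).
-/

namespace Pool.Agent.DI

open MulAction
open Pool.Agent.SAF

variable {H : Type} [Group H]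

theorem Rl.eqv_smul {D : Decomp H} {a b x y : D.X} (k : H)
    (h : Relation.EqvGen (Rl D a b) x y) : Relation.EqvGen (Rl D a b) (k • x) (k • y) := by
  induction h with
  | rel x y h => exact Relation.EqvGen.rel _ _ (h.smul k)
  | refl x => exact Relation.EqvGen.refl _
  | symm x y _ ih => exact Relation.EqvGen.symm _ _ ih
  | trans x y z _ _ h1 h2 => exact Relation.EqvGen.trans _ _ _ h1 h2

/-! ### depth -/

section dep

variable (D : Decomp H) (w : D.X)

/-- distance to the orbit of `w` -/
noncomputable def dep (x : D.X) : ℕ := sInf {n | ∃ h : H, D.G.dist x (h • w) = n}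

theorem dep_spec (x : D.X) : ∃ h : H, D.G.dist x (h • w) = dep D w x :=
  Nat.sInf_mem (s := {n | ∃ h : H, D.G.dist x (h • w) = n}) ⟨_, 1, rfl⟩

theorem dep_le (x : D.X) (h : H) : dep D w x ≤ D.G.dist x (h • w) :=
  Nat.sInf_le ⟨h, rfl⟩

theorem dep_smul (k : H) (x : D.X) : dep D w (k • x) = dep D w x := by
  apply le_antisymm
  · obtain ⟨h, hh⟩ := dep_spec D w x
    rw [← hh, ← D.tact.dist_smul k, ← mul_smul]
    exact dep_le D w _ _
  · obtain ⟨h, hh⟩ := dep_spec D w (k • x)
    rw [← hh]
    have h1 := D.tact.dist_smul k x (k⁻¹ • h • w)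
    rw [smul_inv_smul] at h1
    rw [h1, ← mul_smul]
    exact dep_le D w _ _

theorem dep_w (h : H) : dep D w (h • w) = 0 := by
  have := dep_le D w (h • w) h
  rw [SimpleGraph.dist_self] at this
  omega

theorem dep_zero {x : D.X} (hx : dep D w x = 0) : ∃ h : H, h • w = x := by
  obtain ⟨h, hh⟩ := dep_spec D w x
  rw [hx] at hh
  exact ⟨h, ((D.tree.connected.dist_eq_zero_iff).1 hh).symm⟩

theorem dep_adj {x y : D.X} (h : D.G.Adj x y) : dep D w x ≤ dep D w y + 1 := by
  obtain ⟨k, hk⟩ := dep_spec D w y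
  have h1 := dep_le D w x k
  have h2 : D.G.dist x (k • w) ≤ D.G.dist x y + D.G.dist y (k • w) :=
    D.tree.connected.dist_triangle
  have h3 : D.G.dist x y = 1 := SimpleGraph.dist_eq_one_iff_adj.2 h
  omega

/-- `p` is a parent of `x` -/
def Par (x p : D.X) : Prop := D.G.Adj x p ∧ dep D w x = dep D w p + 1

theorem Par.smul {x p : D.X} (k : H) (h : Par D w x p) : Par D w (k • x) (k • p) := by
  refine ⟨D.adj_smul k x p h.1, ?_⟩
  rw [dep_smul, dep_smul]
  exact h.2

theorem exists_par {x : D.X} (hx : dep D w x ≠ 0) : ∃ p, Par D w x p := by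
  obtain ⟨h, hh⟩ := dep_spec D w x
  have hne : x ≠ h • w := by
    intro e
    apply hx
    rw [e]
    exact dep_w D w h
  obtain ⟨c, hc, ec⟩ := exists_next D.tree hne
  refine ⟨c, hc, ?_⟩
  have h1 := dep_le D w c h
  have h2 := dep_adj D w hc
  omega

/-- descending along edges of a relation -/
theorem exists_desc {R : D.X → D.X → Prop} (hR : ∀ x, dep D w x ≠ 0 → ∃ p, Par D w x p ∧ R x p)
    (x : D.X) : ∃ h : H, Relation.EqvGen R x (h • w) := by
  have key : ∀ n : ℕ, ∀ x, dep D w x = n → ∃ h : H, Relation.EqvGen R x (h • w) := by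
    intro n
    induction n with
    | zero =>
      intro x hx
      obtain ⟨h, rfl⟩ := dep_zero D w hx
      exact ⟨h, Relation.EqvGen.refl _⟩
    | succ n ih =>
      intro x hx
      obtain ⟨p, hp, hr⟩ := hR x (by omega)
      obtain ⟨h, hh⟩ := ih p (by have := hp.2; omega)
      exact ⟨h, Relation.EqvGen.trans _ _ _ (Relation.EqvGen.rel _ _ hr) hh⟩
  exact key _ x rfl

/-- one orbit of classes -/
theorem one_orbit {a b : D.X}
    (hR : ∀ x, dep D w x ≠ 0 → ∃ p, Par D w x p ∧ Rl D a b x p) (x y : D.X) :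
    ∃ h : H, Relation.EqvGen (Rl D a b) (h • x) y := by
  obtain ⟨k, hk⟩ := exists_desc D w hR x
  obtain ⟨l, hl⟩ := exists_desc D w hR y
  refine ⟨l * k⁻¹, ?_⟩
  have h1 := Rl.eqv_smul (l * k⁻¹) hk
  rw [← mul_smul, inv_mul_cancel_right] at h1
  exact Relation.EqvGen.trans _ _ _ h1 (Relation.EqvGen.symm _ _ hl)

/-- `v` has two different parents -/
def Brn (v : D.X) : Prop := ∃ p p', Par D w v p ∧ Par D w v p' ∧ p ≠ p'

/-- there is a branching vertex if there are no edges between vertices of the same depth -/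
theorem exists_brn (hne : ∀ x y, D.G.Adj x y → dep D w x ≠ dep D w y) : ∃ v, Brn D w v := by
  by_contra hno
  have huniq : ∀ x p p', Par D w x p → Par D w x p' → p = p' := by
    intro x p p' h1 h2
    by_contra h3
    exact hno ⟨x, p, p', h1, h2, h3⟩
  -- the root
  let De : D.X → D.X → Prop := fun x z => Relation.ReflTransGen (Par D w) x z ∧ dep D w z = 0
  have hpar : ∀ x p z, Par D w x p → (De x z ↔ De p z) := by
    intro x p z hp
    constructor
    · rintro ⟨h1, h2⟩
      refine ⟨?_, h2⟩
      rcases Relation.ReflTransGen.cases_head h1 with h3 | ⟨q, hq, h3⟩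
      · exfalso
        rw [h3] at hp
        have := hp.2
        omega
      · rw [huniq x p q hp hq]
        exact h3
    · rintro ⟨h1, h2⟩
      exact ⟨Relation.ReflTransGen.head hp h1, h2⟩
  have hadj : ∀ x y z, D.G.Adj x y → (De x z ↔ De y z) := by
    intro x y z h
    have h1 := dep_adj D w h
    have h2 := dep_adj D w h.symm
    have h3 := hne x y h
    by_cases h4 : dep D w x = dep D w y + 1
    · exact hpar x y z ⟨h, h4⟩
    · exact (hpar y x z ⟨h.symm, by omega⟩).symm
  have hall : ∀ x y z, De x z ↔ De y z := by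
    intro x y z
    obtain ⟨p⟩ := D.tree.connected x y
    induction p with
    | nil => exact Iff.rfl
    | cons h _ ih => exact (hadj _ _ z h).trans ih
  obtain ⟨h, hh⟩ := D.nofix w
  have h1 : De w w := ⟨Relation.ReflTransGen.refl, by
    have := dep_w D w 1
    rwa [one_smul] at this⟩
  have h2 := (hall w (h • w) w).1 h1
  rcases Relation.ReflTransGen.cases_head h2.1 with h3 | ⟨q, hq, _⟩
  · exact hh h3
  · have := hq.2
    rw [dep_w] at this
    omega

/-- the depth is bounded -/
theorem dep_bdd : ∃ N, ∀ x, dep D w x ≤ N := by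
  have hf : (orbs H (Set.univ : Set D.X)).Finite := D.finV
  let f : orbitRel.Quotient H D.X → ℕ := Quotient.lift (dep D w) (by
    rintro a b ⟨h, rfl⟩
    exact dep_smul D w h b)
  obtain ⟨N, hN⟩ := (hf.image f).bddAbove
  refine ⟨N, fun x => ?_⟩
  exact hN ⟨Quotient.mk'' x, ⟨x, trivial, rfl⟩, rfl⟩

end dep

/-- THE CHOICE OF THE EDGE ORBIT -/
theorem exists_leaf (D : Decomp H) (w : D.X) :
    (∃ a b, D.G.Adj a b ∧ ∀ x y : D.X, ∃ h : H, Relation.EqvGen (Rl D a b) (h • x) y) ∨
    (∃ v p p', D.G.Adj v p ∧ D.G.Adj v p' ∧ p ≠ p' ∧ Eo D v p v p' ∧ (∀ h : H, h • w ≠ v) ∧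
      (∀ h : H, Relation.EqvGen (Rl D v p) (h • v) v → h • v = v) ∧
      (∀ h : H, ¬ Relation.EqvGen (Rl D v p) (h • w) v) ∧
      (∀ x, (∃ h : H, Relation.EqvGen (Rl D v p) (h • x) v) ∨
        ∃ h : H, Relation.EqvGen (Rl D v p) (h • x) w)) := by
  -- edges in the orbit of a parent edge are parent edges
  have hor : ∀ v p x y, Par D w v p → Par D w x y → Eo D v p x y →
      ∃ h : H, h • v = x ∧ h • p = y := by
    rintro v p x y h1 h2 ⟨h, ⟨e1, e2⟩ | ⟨e1, e2⟩⟩
    · exact ⟨h, e1, e2⟩
    · exfalso
      have h3 := h1.2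
      have h4 := h2.2
      rw [← e1, ← e2, dep_smul, dep_smul] at h4
      omega
  by_cases ha : ∃ x y, D.G.Adj x y ∧ dep D w x = dep D w y
  · obtain ⟨a, b, hab, he⟩ := ha
    refine Or.inl ⟨a, b, hab, ?_⟩
    apply one_orbit D w
    intro x hx
    obtain ⟨p, hp⟩ := exists_par D w hx
    refine ⟨p, hp, hp.1, ?_⟩
    rintro ⟨h, ⟨e1, e2⟩ | ⟨e1, e2⟩⟩
    · have h4 := hp.2
      rw [← e1, ← e2, dep_smul, dep_smul] at h4
      omega
    · have h4 := hp.2
      rw [← e1, ← e2, dep_smul, dep_smul] at h4
      omega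
  by_cases hb : ∃ v p1 p2, Par D w v p1 ∧ Par D w v p2 ∧ ∀ k : H, k • v = v → k • p1 ≠ p2
  · obtain ⟨v, p1, p2, h1, h2, h3⟩ := hb
    refine Or.inl ⟨v, p1, h1.1, ?_⟩
    apply one_orbit D w
    intro x hx
    obtain ⟨p, hp⟩ := exists_par D w hx
    by_cases he : Eo D v p1 x p
    · obtain ⟨h, e1, e2⟩ := hor v p1 x p h1 hp he
      have hp2 : Par D w x (h • p2) := by
        have := h2.smul D w h
        rwa [e1] at this
      refine ⟨h • p2, hp2, hp2.1, fun he2 => ?_⟩
      obtain ⟨k, f1, f2⟩ := hor v p1 x (h • p2) h1 hp2 he2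
      apply h3 (h⁻¹ * k)
      · rw [mul_smul, f1, ← e1, inv_smul_smul]
      · rw [mul_smul, f2, inv_smul_smul]
    · exact ⟨p, hp, hp.1, he⟩
  have ha' : ∀ x y, D.G.Adj x y → dep D w x ≠ dep D w y := fun x y h1 h2 => ha ⟨x, y, h1, h2⟩
  have hb' : ∀ v p1 p2, Par D w v p1 → Par D w v p2 → ∃ k : H, k • v = v ∧ k • p1 = p2 := by
    intro v p1 p2 h1 h2
    by_contra h3
    exact hb ⟨v, p1, p2, h1, h2, fun k hk hk2 => h3 ⟨k, hk, hk2⟩⟩
  -- a branching vertex of maximal depth
  obtain ⟨N, hN⟩ := dep_bdd D w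
  obtain ⟨v, hv, hmax⟩ : ∃ v, Brn D w v ∧ ∀ x, Brn D w x → dep D w x ≤ dep D w v := by
    obtain ⟨v0, hv0⟩ := exists_brn D w ha'
    have key : ∀ n : ℕ, ∀ v, Brn D w v → N - dep D w v = n →
        ∃ v, Brn D w v ∧ ∀ x, Brn D w x → dep D w x ≤ dep D w v := by
      intro n
      induction n using Nat.strong_induction_on with
      | _ n ih =>
        intro v hv hn
        by_cases h : ∀ x, Brn D w x → dep D w x ≤ dep D w v
        · exact ⟨v, hv, h⟩
        · push Not at h
          obtain ⟨x, hx, hlt⟩ := h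
          have h1 := hN x
          exact ih (N - dep D w x) (by omega) x hx rfl
    exact key _ v0 hv0 rfl
  obtain ⟨p, p', hp, hp', hpp⟩ := hv
  have hdv : dep D w v ≠ 0 := by
    have := hp.2
    omega
  have hwv : ∀ h : H, h • w ≠ v := by
    intro h e
    apply hdv
    rw [← e]
    exact dep_w D w h
  -- descendants
  let De : D.X → Prop := fun y => Relation.ReflTransGen (fun a b => Par D w b a) v y
  have hdeep : ∀ y, De y → y = v ∨ dep D w v < dep D w y := by
    intro y hy
    induction hy with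
    | refl => exact Or.inl rfl
    | @tail y z _ hz ih =>
      right
      have := hz.2
      rcases ih with rfl | ih
      · omega
      · omega
  have hclosed : ∀ x y, De x → Rl D v p x y → De y := by
    intro x y hx hxy
    have h1 := dep_adj D w hxy.1
    have h2 := dep_adj D w hxy.1.symm
    have h3 := ha' x y hxy.1
    by_cases h4 : dep D w y = dep D w x + 1
    · exact Relation.ReflTransGen.tail hx ⟨hxy.1.symm, h4⟩
    · have hpar : Par D w x y := ⟨hxy.1, by omega⟩
      rcases Relation.ReflTransGen.cases_tail hx with h5 | ⟨z, hz, hzx⟩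
      · exfalso
        obtain ⟨k, k1, k2⟩ := hb' v p y hp (by rw [h5] at hpar; exact hpar)
        apply hxy.2
        refine ⟨k, Or.inl ⟨?_, k2⟩⟩
        rw [k1]
        exact h5.symm
      · have hne : ¬ Brn D w x := by
          intro hbr
          have h6 := hmax x hbr
          rcases hdeep x hx with h7 | h7
          · rcases hdeep z hz with h8 | h8
            · have := hzx.2
              rw [h7, h8] at this
              omega
            · have := hzx.2
              rw [h7] at this
              omega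
          · omega
        have : z = y := by
          by_contra h6
          exact hne ⟨z, y, hzx, hpar, h6⟩
        rw [← this]
        exact hz
  have hclass : ∀ x y, Relation.EqvGen (Rl D v p) x y → (De x ↔ De y) := by
    intro x y h
    induction h with
    | rel x y h => exact ⟨fun k => hclosed x y k h, fun k => hclosed y x k h.symm'⟩
    | refl x => exact Iff.rfl
    | symm x y _ ih => exact ih.symm
    | trans x y z _ _ h1 h2 => exact h1.trans h2
  have hv0 : De v := Relation.ReflTransGen.refl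
  refine Or.inr ⟨v, p, p', hp.1, hp'.1, hpp, ?_, hwv, ?_, ?_, ?_⟩
  · obtain ⟨k, k1, k2⟩ := hb' v p p' hp hp'
    exact ⟨k, Or.inl ⟨k1, k2⟩⟩
  · intro h hh
    rcases hdeep _ ((hclass _ _ hh).2 hv0) with h1 | h1
    · exact h1
    · rw [dep_smul] at h1
      omega
  · intro h hh
    rcases hdeep _ ((hclass _ _ hh).2 hv0) with h1 | h1
    · exact hwv h h1
    · rw [dep_w] at h1
      omega
  · intro x
    have key : ∀ n : ℕ, ∀ x, dep D w x = n →
        (∃ h : H, Relation.EqvGen (Rl D v p) (h • x) v) ∨
          ∃ h : H, Relation.EqvGen (Rl D v p) (h • x) w := by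
      intro n
      induction n with
      | zero =>
        intro x hx
        obtain ⟨h, rfl⟩ := dep_zero D w hx
        right
        refine ⟨h⁻¹, ?_⟩
        rw [inv_smul_smul]
        exact Relation.EqvGen.refl _
      | succ n ih =>
        intro x hx
        obtain ⟨q, hq⟩ := exists_par D w (x := x) (by omega)
        by_cases he : Eo D v p x q
        · obtain ⟨h, e1, e2⟩ := hor v p x q hp hq he
          left
          refine ⟨h⁻¹, ?_⟩
          rw [← e1, inv_smul_smul]
          exact Relation.EqvGen.refl _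
        · have hs : Rl D v p x q := ⟨hq.1, he⟩
          rcases ih q (by have := hq.2; omega) with ⟨h, hh⟩ | ⟨h, hh⟩
          · exact Or.inl ⟨h, Relation.EqvGen.trans _ _ _
              (Relation.EqvGen.rel _ _ (hs.smul h)) hh⟩
          · exact Or.inr ⟨h, Relation.EqvGen.trans _ _ _
              (Relation.EqvGen.rel _ _ (hs.smul h)) hh⟩
    exact key _ x rfl

end Pool.Agent.DI
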