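import Pool.Agent.DI.TrkB

/-!
# DI/OEMap: collapses of trees

`TMap G' G c`: the map `c` collapses some edges of the tree `G'` and is bijective on the other
edges. Sides of edges, convex sets.
-/

namespace Pool.Agent.DI

open MulAction
open Pool.Agent.SAF (InC orbs FinOrb oc Decomp SAn SA Conv exists_cut exists_next)
open Pool.Agent.BT (bey conv_tri_q dist_cross)
open Pool.Agent.BT.TA

/-- a collapse of trees -/
structure TMap {X' X : Type} (G' : SimpleGraph X') (G : SimpleGraph X) (c : X' → X) : Prop where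
  t' : G'.IsTree
  t : G.IsTree
  surj : ∀ x, ∃ a, c a = x
  adj : ∀ a b, G'.Adj a b → c a = c b ∨ G.Adj (c a) (c b)
  lift : ∀ x y, G.Adj x y → ∃ a b, c a = x ∧ c b = y ∧ G'.Adj a b
  uniq : ∀ a b a' b', G'.Adj a b → G'.Adj a' b' → c a ≠ c b → c a = c a' → c b = c b' →
    a = a' ∧ b = b'

namespace TMap

variable {X' X : Type} {G' : SimpleGraph X'} {G : SimpleGraph X} {c : X' → X}

theorem adj' (T : TMap G' G c) {a b : X'} (h : G'.Adj a b) (hne : c a ≠ c b) :
    G.Adj (c a) (c b) := (T.adj a b h).resolve_left hne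

/-- the sides of an edge which is not collapsed -/
theorem bey_iff (T : TMap G' G c) {a b : X'} (h : G'.Adj a b) (hne : c a ≠ c b) (z : X') :
    z ∈ bey G' a b ↔ c z ∈ bey G (c a) (c b) := by
  obtain ⟨g, hg, hg0, hg1⟩ := exists_cut G T.t (c a) (c b) (T.adj' h hne)
  obtain ⟨g', hg', hg0', hg1'⟩ := exists_cut G' T.t' a b h
  have key : ∀ u v, G'.Adj u v → g (c u) + g' u = g (c v) + g' v := by
    intro u v huv
    have two : ∀ p q : ZMod 2, p ≠ q → p = q + 1 := by decide
    by_cases k : g' u = g' v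
    · rw [k]
      congr 1
      by_contra hc
      rcases T.adj u v huv with e | e
      · rw [e] at hc
        exact hc rfl
      · rcases (hg _ _ e).1 hc with ⟨e1, e2⟩ | ⟨e1, e2⟩
        · obtain ⟨rfl, rfl⟩ := T.uniq a b u v h huv hne e1.symm e2.symm
          exact (hg' _ _ h).2 (Or.inl ⟨rfl, rfl⟩) k
        · obtain ⟨rfl, rfl⟩ := T.uniq a b v u h huv.symm hne e2.symm e1.symm
          exact (hg' _ _ h).2 (Or.inl ⟨rfl, rfl⟩) k.symm
    · have k2 : g (c u) ≠ g (c v) := by
        rcases (hg' u v huv).1 k with ⟨rfl, rfl⟩ | ⟨rfl, rfl⟩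
        · exact (hg _ _ (T.adj' h hne)).2 (Or.inl ⟨rfl, rfl⟩)
        · exact (hg _ _ (T.adj' h hne).symm).2 (Or.inr ⟨rfl, rfl⟩)
      have h1 := two _ _ k
      have h2 := two _ _ k2
      rw [h1, h2]
      have h3 : (1 : ZMod 2) + 1 = 0 := by decide
      linear_combination h3
  have hconst : ∀ u v, g (c u) + g' u = g (c v) + g' v := by
    intro u v
    have hr : Relation.ReflTransGen G'.Adj u v :=
      (SimpleGraph.reachable_iff_reflTransGen u v).1 (T.t'.connected.preconnected u v)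
    induction hr with
    | refl => rfl
    | tail _ e ih => rw [ih]; exact key _ _ e
  have ha : g (c a) = 0 := (hg0 _).2 (by
    rw [SimpleGraph.dist_self, SimpleGraph.dist_eq_one_iff_adj.2 (T.adj' h hne)])
  have ha' : g' a = 0 := (hg0' _).2 (by
    rw [SimpleGraph.dist_self, SimpleGraph.dist_eq_one_iff_adj.2 h])
  have e : g (c z) = g' z := by
    have h1 := hconst z a
    rw [ha, ha', add_zero] at h1
    have h2 : ∀ p q : ZMod 2, p + q = 0 → p = q := by decide
    exact h2 _ _ h1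
  have h1 := hg1 (c z)
  have h2 := hg1' z
  show G'.dist z a = G'.dist z b + 1 ↔ G.dist (c z) (c a) = G.dist (c z) (c b) + 1
  rw [← h1, ← h2, e]

/-- a convex set which contains an edge downstairs contains its lift -/
theorem mem_lift (T : TMap G' G c) {C : Set X'} (hC : Conv G' C) {a b : X'} (h : G'.Adj a b)
    (hne : c a ≠ c b) (h1 : ∃ z ∈ C, c z ∈ bey G (c b) (c a))
    (h2 : ∃ z ∈ C, c z ∈ bey G (c a) (c b)) : a ∈ C ∧ b ∈ C := by
  obtain ⟨z, hz, k1⟩ := h1
  obtain ⟨z', hz', k2⟩ := h2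
  exact conv_cr T.t' hC h hz hz' ((T.bey_iff h.symm (fun e => hne e.symm) z).2 k1)
    ((T.bey_iff h hne z').2 k2)

theorem mem_lift' (T : TMap G' G c) {C : Set X'} (hC : Conv G' C) {a b : X'} (h : G'.Adj a b)
    (hne : c a ≠ c b) (h1 : c a ∈ c '' C) (h2 : c b ∈ c '' C) : a ∈ C ∧ b ∈ C := by
  obtain ⟨z, hz, e1⟩ := h1
  obtain ⟨z', hz', e2⟩ := h2
  refine T.mem_lift hC h hne ⟨z, hz, ?_⟩ ⟨z', hz', ?_⟩
  · rw [e1]
    exact bey_self (T.adj' h hne).symm
  · rw [e2]
    exact bey_self (T.adj' h hne)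

/-- images of convex sets are convex -/
theorem conv_image (T : TMap G' G c) {C : Set X'} (hC : Conv G' C) : Conv G (c '' C) := by
  rintro _ ⟨a, ha, rfl⟩ _ ⟨b, hb, rfl⟩ w hw
  by_cases hwa : w = c a
  · exact ⟨a, ha, hwa.symm⟩
  obtain ⟨x, hx, hd⟩ := exists_next T.t hwa
  obtain ⟨α, β, rfl, rfl, hαβ⟩ := T.lift _ _ hx
  have hne : c α ≠ c β := hx.ne
  have h1 : c a ∈ bey G (c α) (c β) := by
    show G.dist (c a) (c α) = G.dist (c a) (c β) + 1
    rw [SimpleGraph.dist_comm, hd, SimpleGraph.dist_comm]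
  have h2 : c b ∈ bey G (c β) (c α) := by
    rcases bey_or T.t hx (c b) with k | k
    · exfalso
      have k' : G.dist (c b) (c α) = G.dist (c b) (c β) + 1 := k
      have h1' : G.dist (c a) (c α) = G.dist (c a) (c β) + 1 := h1
      have t1 : G.dist (c a) (c b) ≤ G.dist (c a) (c β) + G.dist (c β) (c b) :=
        T.t.connected.dist_triangle
      have c2 : G.dist (c β) (c b) = G.dist (c b) (c β) := SimpleGraph.dist_comm
      have c3 : G.dist (c α) (c b) = G.dist (c b) (c α) := SimpleGraph.dist_comm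
      omega
    · exact k
  exact ⟨α, (T.mem_lift hC hαβ hne ⟨b, hb, h2⟩ ⟨a, ha, h1⟩).1, rfl⟩

/-- a vertex outside a convex set is separated from it by an edge at the vertex -/
theorem exists_sep (hG : G.IsTree) {C : Set X} (hC : Conv G C) (hne : C.Nonempty) {x : X}
    (hx : x ∉ C) : ∃ y, G.Adj x y ∧ C ⊆ bey G x y := by
  obtain ⟨z, hz⟩ := hne
  have hxz : x ≠ z := by
    rintro rfl
    exact hx hz
  obtain ⟨y, hy, hd⟩ := exists_next hG hxz
  refine ⟨y, hy, conv_sd hG hC hy (fun k => hx k.1) hz ?_⟩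
  show G.dist z x = G.dist z y + 1
  rw [SimpleGraph.dist_comm, hd, SimpleGraph.dist_comm]

/-- preimages of convex sets are convex -/
theorem conv_preimage (T : TMap G' G c) {C : Set X} (hC : Conv G C) : Conv G' (c ⁻¹' C) := by
  intro a ha b hb w hw
  by_contra hcon
  obtain ⟨y, hy, hs⟩ := exists_sep T.t hC ⟨_, ha⟩ (x := c w) hcon
  obtain ⟨α, β, h1, h2, hαβ⟩ := T.lift _ _ hy
  have hne : c α ≠ c β := by
    rw [h1, h2]
    exact hy.ne
  have k1 : a ∈ bey G' α β := (T.bey_iff hαβ hne a).2 (by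
    rw [h1, h2]
    exact hs ha)
  have k2 : b ∈ bey G' α β := (T.bey_iff hαβ hne b).2 (by
    rw [h1, h2]
    exact hs hb)
  have k3 := (T.bey_iff hαβ hne w).1 (bey_conv T.t' hαβ a k1 b k2 w hw)
  rw [← h1] at k3
  exact bey_not k3 (bey_self (by rw [h1, h2]; exact hy.symm))

theorem conv_fibre (T : TMap G' G c) (x : X) : Conv G' (c ⁻¹' {x}) :=
  T.conv_preimage (Pool.Agent.BT.conv_singleton T.t x)

/-- convex sets with the same position with respect to all edges -/
theorem eq_of_pos (hG : G.IsTree) {A B : Set X} (hA : Conv G A) (hB : Conv G B)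
    (nA : A.Nonempty) (nB : B.Nonempty)
    (h : ∀ x y, G.Adj x y → (A ⊆ bey G x y ↔ B ⊆ bey G x y)) : A = B := by
  ext x
  constructor
  · intro hx
    by_contra hcon
    obtain ⟨y, hy, hs⟩ := exists_sep hG hB nB hcon
    exact bey_not ((h x y hy).2 hs hx) (bey_self hy.symm)
  · intro hx
    by_contra hcon
    obtain ⟨y, hy, hs⟩ := exists_sep hG hA nA hcon
    exact bey_not ((h x y hy).1 hs hx) (bey_self hy.symm)

/-- collapses can be composed -/
theorem comp {X'' : Type} {G'' : SimpleGraph X''} {c' : X'' → X'} (T' : TMap G'' G' c')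
    (T : TMap G' G c) : TMap G'' G (fun a => c (c' a)) where
  t' := T'.t'
  t := T.t
  surj x := by
    obtain ⟨a, rfl⟩ := T.surj x
    obtain ⟨b, rfl⟩ := T'.surj a
    exact ⟨b, rfl⟩
  adj a b h := by
    rcases T'.adj a b h with e | e
    · left
      show c (c' a) = c (c' b)
      rw [e]
    · exact T.adj _ _ e
  lift x y h := by
    obtain ⟨a, b, rfl, rfl, hab⟩ := T.lift x y h
    obtain ⟨a', b', rfl, rfl, hab'⟩ := T'.lift a b hab
    exact ⟨a', b', rfl, rfl, hab'⟩
  uniq a b a' b' h h' hne e1 e2 := by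
    have hne1 : c' a ≠ c' b := fun e => hne (by rw [e])
    have hne2 : c' a' ≠ c' b' := fun e => hne (by
      show c (c' a) = c (c' b)
      rw [show c (c' a) = c (c' a') from e1, show c (c' b) = c (c' b') from e2, e])
    obtain ⟨k1, k2⟩ := T.uniq _ _ _ _ (T'.adj' h hne1) (T'.adj' h' hne2) hne e1 e2
    exact T'.uniq _ _ _ _ h h' hne1 k1 k2

end TMap

end Pool.Agent.DI
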