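import Pool.Agent.DI.OESys

/-!
# DI/OERel: relative systems of subtrees

`rel_image`: `c : D' → D` a collapse, `J` a system on `D`, `J'` the system on `D'` given by points
`q' x` over `J x` (if `J x` is a point) and subtrees `L' x` over `J x` for the sinks. Then
`c '' J' x = J x` for all `x`.
-/

namespace Pool.Agent.DI

open MulAction
open Pool.Agent.SAF (InC orbs FinOrb oc Decomp SAn SA Conv exists_cut exists_next FinOrb_iff TAct)
open Pool.Agent.BT (PX PQ JS bey exits MinSub Ell mst Hyp Lq mst_conv axis bey_irr_l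
  x_next_unique conv_tri_q QDat IsJQ jq_status)
open Pool.Agent.BT.TA

variable {H V : Type} [Group H] [MulAction H V]

/-- if all poles contain an edge then `J x` is a point -/
theorem js_point {K : PQ H V} {D : Decomp H} {J : V → Set D.X} (js : JS K D J) {x : V}
    (hx : ∃ a, K.ar x a) {w : D.X} (h : ∀ a, K.ar x a → w ∈ J a) : ∃ p, J x = {p} := by
  obtain ⟨p, hp⟩ := js.ne x
  refine ⟨p, Set.eq_singleton_iff_unique_mem.2 ⟨hp, fun y hy => ?_⟩⟩
  by_contra hne
  obtain ⟨u, hu, hd⟩ := exists_next D.tree hne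
  have hum : u ∈ J x := js.conv x y hy p hp u (by
    rw [SimpleGraph.dist_eq_one_iff_adj.2 hu]
    omega)
  obtain ⟨a, ha, h1⟩ := js.cross x hx y u hu hy hum
  obtain ⟨b, hb, h2⟩ := js.cross x hx u y hu.symm hum hy
  exact bey_not (h1 (h a ha)) (h2 (h b hb))

/-- the position of `J x` with respect to an edge -/
theorem js_status {K : PQ H V} {D : Decomp H} {J : V → Set D.X} (js : JS K D J) {x : V}
    (hx : ∃ a, K.ar x a) {q : D.X} (hq : ∀ p, J x = {p} → q = p) {w w' : D.X}
    (e : D.G.Adj w w') : J x ⊆ bey D.G w w' ↔ (¬ ∃ a, K.ar x a ∧ J a ⊆ bey D.G w' w) ∧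
      ((∃ a, K.ar x a ∧ J a ⊆ bey D.G w w') ∨ q ∈ bey D.G w w') := by
  have hmeet : ∀ a, K.ar x a → ∃ p, p ∈ J x ∧ p ∈ J a := by
    intro a ha
    obtain ⟨p, hp⟩ := js.one x a (Or.inl ha)
    have : p ∈ J x ∩ J a := by
      rw [hp]
      rfl
    exact ⟨p, this.1, this.2⟩
  have hpt : (¬ ∃ a, K.ar x a ∧ J a ⊆ bey D.G w' w) → (¬ ∃ a, K.ar x a ∧ J a ⊆ bey D.G w w') →
      ∃ p, J x = {p} := by
    intro h1 h2
    apply js_point js hx (w := w)
    intro a ha
    rcases conv_tri_q D.tree (js.conv a) e with h | h | h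
    · exact absurd ⟨a, ha, h⟩ h2
    · exact absurd ⟨a, ha, h⟩ h1
    · exact h.1
  constructor
  · intro hsub
    have h1 : ¬ ∃ a, K.ar x a ∧ J a ⊆ bey D.G w' w := by
      rintro ⟨a, ha, hs⟩
      obtain ⟨p, h1, h2⟩ := hmeet a ha
      exact bey_not (hsub h1) (hs h2)
    refine ⟨h1, ?_⟩
    by_cases h2 : ∃ a, K.ar x a ∧ J a ⊆ bey D.G w w'
    · exact Or.inl h2
    · right
      obtain ⟨p, hp⟩ := hpt h1 h2
      rw [hq p hp]
      apply hsub
      rw [hp]
      rfl
  · rintro ⟨h1, h2⟩
    rcases conv_tri_q D.tree (js.conv x) e with h | h | h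
    · exact h
    · exfalso
      rcases h2 with ⟨a, ha, hs⟩ | h2
      · obtain ⟨p, k1, k2⟩ := hmeet a ha
        exact bey_not (hs k2) (h k1)
      · by_cases h3 : ∃ a, K.ar x a ∧ J a ⊆ bey D.G w w'
        · obtain ⟨a, ha, hs⟩ := h3
          obtain ⟨p, k1, k2⟩ := hmeet a ha
          exact bey_not (hs k2) (h k1)
        · obtain ⟨p, hp⟩ := hpt h1 h3
          rw [hq p hp] at h2
          exact bey_not h2 (h (by rw [hp]; rfl))
    · exfalso
      obtain ⟨a, ha, hs⟩ := js.cross x hx w' w e.symm h.2 h.1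
      exact h1 ⟨a, ha, hs⟩

/-- THE RELATIVE SYSTEM -/
theorem rel_image {K : PQ H V} {D' D : Decomp H} {c : D'.X → D.X} (T : TMap D'.G D.G c)
    {J : V → Set D.X} (js : JS K D J) {L' : V → Set D'.X} {q' : V → D'.X}
    (hQ : QDat K D' L' q') {J' : V → Set D'.X} (hJ' : IsJQ K D' L' q' J')
    (hs : ∀ x, (∀ a, ¬ K.ar x a) → c '' L' x = J x)
    (hq : ∀ x, (∃ a, K.ar x a) → ∀ p, J x = {p} → c (q' x) = p) :
    ∀ x, c '' J' x = J x := by
  have key : ∀ n x, K.rk x ≤ n → c '' J' x = J x := by
    intro n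
    induction n using Nat.strong_induction_on with
    | _ n ih =>
      intro x hn
      by_cases hx : ∃ a, K.ar x a
      · have ihp : ∀ a, K.ar x a → c '' J' a = J a := by
          intro a ha
          have h1 := K.ar_rk _ _ ha
          exact ih (K.rk a) (by omega) a le_rfl
        have hg := hJ'.good hQ x
        refine TMap.eq_of_pos T.t (T.conv_image hg.1) (js.conv x) (hg.2.image c) (js.ne x) ?_
        intro w w' e
        obtain ⟨α, β, rfl, rfl, hab⟩ := T.lift w w' e
        have hne : c α ≠ c β := e.ne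
        have hne' : c β ≠ c α := e.ne'
        rw [T.image_bey hab hne, (jq_status K D' L' q' hQ J' hJ' hab x hx).2,
          js_status js hx (hq x hx) e]
        have e1 : (∃ a, K.ar x a ∧ J' a ⊆ bey D'.G β α) ↔
            ∃ a, K.ar x a ∧ J a ⊆ bey D.G (c β) (c α) := by
          constructor
          · rintro ⟨a, ha, h⟩
            refine ⟨a, ha, ?_⟩
            rw [← ihp a ha]
            exact (T.image_bey hab.symm hne').2 h
          · rintro ⟨a, ha, h⟩
            refine ⟨a, ha, ?_⟩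
            rw [← ihp a ha] at h
            exact (T.image_bey hab.symm hne').1 h
        have e2 : (∃ a, K.ar x a ∧ J' a ⊆ bey D'.G α β) ↔
            ∃ a, K.ar x a ∧ J a ⊆ bey D.G (c α) (c β) := by
          constructor
          · rintro ⟨a, ha, h⟩
            refine ⟨a, ha, ?_⟩
            rw [← ihp a ha]
            exact (T.image_bey hab hne).2 h
          · rintro ⟨a, ha, h⟩
            refine ⟨a, ha, ?_⟩
            rw [← ihp a ha] at h
            exact (T.image_bey hab hne).1 h
        rw [e1, e2, T.bey_iff hab hne]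
      · push Not at hx
        rw [hJ'.sink x hx]
        exact hs x hx
  intro x
  exact key _ x le_rfl

end Pool.Agent.DI
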