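import Pool.Agent.DI.OESysA
import Pool.Agent.DI.Fd

/-!
# DI/OESys: the collapse of a good system is good

`Sys.col`: the collapsed system. `Conn.col`: walls and slices stay connected. `Gd.col`: good systems
stay good.
-/

namespace Pool.Agent.DI

open MulAction
open Pool.Agent.SAF (InC orbs FinOrb oc Decomp SAn SA Conv exists_cut exists_next FinOrb_iff TAct)
open Pool.Agent.BT (PX PQ JS bey exits MinSub Ell mst Hyp Lq mst_conv axis bey_irr_l
  x_next_unique conv_tri_q)
open Pool.Agent.BT.TA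

theorem TMap.image_bey {X' X : Type} {G' : SimpleGraph X'} {G : SimpleGraph X} {c : X' → X}
    (T : TMap G' G c) {a b : X'} (hab : G'.Adj a b) (hne : c a ≠ c b) {C : Set X'} :
    c '' C ⊆ bey G (c a) (c b) ↔ C ⊆ bey G' a b := by
  constructor
  · intro h z hz
    exact (T.bey_iff hab hne z).2 (h ⟨z, hz, rfl⟩)
  · rintro h _ ⟨z, hz, rfl⟩
    exact (T.bey_iff hab hne z).1 (h hz)

namespace Sys

variable {H V : Type} [Group H] [MulAction H V] {S : Sys H V}

/-- two vertices of a pentagon over `w` at distance two -/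
theorem pent_conn {x q z y y' : V} (hp : Pn S.P x q z y y') {w : S.X} (hx : w ∈ S.J x)
    (hz : w ∈ S.J z) (hne : ∀ w1, S.D.G.Adj w w1 → S.J q ⊆ bey S.D.G w w1 →
      ¬ S.J y ⊆ bey S.D.G w w1) : Relation.EqvGen (S.SR w) x z := by
  have hE : ∀ {a b : V}, S.K.E a b → w ∈ S.J a → w ∈ S.J b → Relation.EqvGen (S.SR w) a b :=
    fun e h1 h2 => Relation.EqvGen.rel _ _ (Or.inl ⟨e, h1, h2⟩)
  by_cases hq : w ∈ S.J q
  · exact (hE hp.E1 hx hq).trans _ _ _ (hE hp.E2 hq hz)
  have ha := S.dir_adj hq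
  have hb := S.dir_bey hq
  have c1 : S.Cs w (S.dir w q) x := ⟨hx, S.dir_cross hp.E1 hx hq⟩
  have c2 : S.Cs w (S.dir w q) z := ⟨hz, S.dir_cross hp.E2.symm hz hq⟩
  have n1 : ¬ S.Cs w (S.dir w q) y := S.adj_nc ha hp.E3 c2
  have n2 : ¬ S.Cs w (S.dir w q) y' := S.adj_nc ha hp.E5.symm c1
  have n1' : ¬ S.Cs (S.dir w q) w y := fun k => n1 k.swap
  have n2' : ¬ S.Cs (S.dir w q) w y' := fun k => n2 k.swap
  have hws : w ∈ bey S.D.G (S.dir w q) w := bey_self ha.symm
  have fin : S.J y ⊆ bey S.D.G (S.dir w q) w → S.J y' ⊆ bey S.D.G (S.dir w q) w →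
      Relation.EqvGen (S.SR w) x z := fun s1 s2 =>
    Relation.EqvGen.rel _ _ (Or.inr ⟨S.dir w q, ha, c1, c2, q, y, y', hp, Or.inl ⟨hb, s1, s2⟩⟩)
  by_cases hy : w ∈ S.J y
  · by_cases hy' : w ∈ S.J y'
    · exact ((hE hp.E3 hz hy).trans _ _ _ ((hE hp.E4 hy hy').trans _ _ _
        (hE hp.E5 hy' hx))).symm
    · have s1 := S.side_of ha.symm n1' hy hws
      exact fin s1 (S.side_adj ha.symm hp.E4 n2' s1)
  · by_cases hy' : w ∈ S.J y'
    · have s2 := S.side_of ha.symm n2' hy' hws
      exact fin (S.side_adj ha.symm hp.E4.symm n1' s2) s2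
    · -- both are on the same side, not on the side of `q`
      rcases S.side_or ha n1 with s | s
      · exact absurd s (hne _ ha hb)
      · exact fin s (S.side_adj ha.symm hp.E4 n2' s)

variable (S)

/-- the collapsed system -/
abbrev col (hs : S.SinkOK) {D1 : Decomp H} {c : S.X → D1.X} (T : TMap S.D.G D1.G c)
    (hc : ∀ (h : H) a, c (h • a) = h • c a) : Sys H V where
  K := S.K
  P := S.P
  D := D1
  J := fun x => c '' S.J x
  js := js_col hs T hc

variable {S}

section

variable (hs : S.SinkOK) {D1 : Decomp H} {c : S.X → D1.X} (T : TMap S.D.G D1.G c)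
    (hc : ∀ (h : H) a, c (h • a) = h • c a)

theorem col_cs {a b : S.X} (hab : S.D.G.Adj a b) (hne : c a ≠ c b) {x : V} :
    (S.col hs T hc).Cs (c a) (c b) x ↔ S.Cs a b x := by
  constructor
  · intro h
    exact T.mem_lift' (S.js.conv x) hab hne h.1 h.2
  · intro h
    exact ⟨⟨a, h.1, rfl⟩, ⟨b, h.2, rfl⟩⟩

theorem col_pw {a b : S.X} (hab : S.D.G.Adj a b) (hne : c a ≠ c b) {x z : V}
    (h : S.PW a b x z) : (S.col hs T hc).PW (c a) (c b) x z := by
  obtain ⟨-, h2, h3, q, y, y', hp, h4⟩ := h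
  refine ⟨T.adj' hab hne, (col_cs hs T hc hab hne).2 h2, (col_cs hs T hc hab hne).2 h3,
    q, y, y', hp, ?_⟩
  have hne' : c b ≠ c a := fun e => hne e.symm
  rcases h4 with ⟨a1, a2, a3⟩ | ⟨a1, a2, a3⟩
  · exact Or.inl ⟨(T.image_bey hab hne).2 a1, (T.image_bey hab.symm hne').2 a2,
      (T.image_bey hab.symm hne').2 a3⟩
  · exact Or.inr ⟨(T.image_bey hab.symm hne').2 a1, (T.image_bey hab hne).2 a2,
      (T.image_bey hab hne).2 a3⟩

/-- steps in slices of the fibre -/
theorem col_sr {a : S.X} {x z : V} (h : S.SR a x z) :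
    Relation.EqvGen ((S.col hs T hc).SR (c a)) x z := by
  rcases h with ⟨e, h1, h2⟩ | ⟨a', h⟩
  · exact Relation.EqvGen.rel _ _ (Or.inl ⟨e, ⟨a, h1, rfl⟩, ⟨a, h2, rfl⟩⟩)
  · by_cases hne : c a = c a'
    · obtain ⟨hadj, h2, h3, q, y, y', hp, h4⟩ := h
      -- the other sides
      have hside : ∃ u u', S.D.G.Adj u u' ∧ c u = c a ∧ c u' = c a ∧ S.J q ⊆ bey S.D.G u u' ∧
          S.J y ⊆ bey S.D.G u' u := by
        rcases h4 with ⟨a1, a2, a3⟩ | ⟨a1, a2, a3⟩
        · exact ⟨a, a', hadj, rfl, hne.symm, a1, a2⟩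
        · exact ⟨a', a, hadj.symm, hne.symm, rfl, a1, a2⟩
      obtain ⟨u, u', huu, e1, e2, s1, s2⟩ := hside
      refine pent_conn (S := S.col hs T hc) (y := y) (y' := y') hp ⟨a, h2.1, rfl⟩
        ⟨a, h3.1, rfl⟩ ?_
      intro w1 hw1 k1 k2
      obtain ⟨α, β, f1, rfl, hab⟩ := T.lift (c a) w1 hw1
      have hn : c α ≠ c β := by
        rw [f1]
        exact hw1.ne
      have k1' : S.J q ⊆ bey S.D.G α β := (T.image_bey hab hn).1 (by rw [f1]; exact k1)
      have k2' : S.J y ⊆ bey S.D.G α β := (T.image_bey hab hn).1 (by rw [f1]; exact k2)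
      obtain ⟨p, hp'⟩ := S.js.ne q
      obtain ⟨r, hr⟩ := S.js.ne y
      have h5 := (conv_cr S.D.tree (bey_conv S.D.tree hab) huu (k2' hr) (k1' hp')
        (s2 hr) (s1 hp')).1
      have h6 := (T.bey_iff hab hn u).1 h5
      rw [e1, ← f1] at h6
      exact bey_irr_l h6
    · exact Relation.EqvGen.rel _ _ (Or.inr ⟨c a', col_pw hs T hc h.1 hne h⟩)

theorem eqv_bind {X : Type} {r r' : X → X → Prop} (h : ∀ a b, r a b → Relation.EqvGen r' a b)
    {a b : X} (k : Relation.EqvGen r a b) : Relation.EqvGen r' a b := by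
  induction k with
  | rel a b k => exact h a b k
  | refl a => exact Relation.EqvGen.refl a
  | symm a b _ ih => exact ih.symm
  | trans a b d _ _ i1 i2 => exact i1.trans _ _ _ i2

/-- WALLS AND SLICES STAY CONNECTED -/
theorem Conn.col (hcn : S.Conn) : (S.col hs T hc).Conn where
  wall := by
    intro w w' hww x z hx hz
    obtain ⟨α, β, rfl, rfl, hab⟩ := T.lift w w' hww
    have hne : c α ≠ c β := hww.ne
    have k := hcn.wall α β hab x z ((col_cs hs T hc hab hne).1 hx)
      ((col_cs hs T hc hab hne).1 hz)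
    exact eqv_bind (fun a b h => Relation.EqvGen.rel _ _ (col_pw hs T hc hab hne h)) k
  crossed := by
    intro w w' hww
    obtain ⟨α, β, rfl, rfl, hab⟩ := T.lift w w' hww
    obtain ⟨x, hx⟩ := hcn.crossed α β hab
    exact ⟨x, (col_cs hs T hc hab hww.ne).2 hx⟩
  slice := by
    rintro w x z ⟨a, ha, rfl⟩ ⟨b, hb, hab⟩
    have key : ∀ (n : ℕ) (a b : S.X) (x z : V), S.D.G.dist a b = n → c b = c a → a ∈ S.J x →
        b ∈ S.J z → Relation.EqvGen ((S.col hs T hc).SR (c a)) x z := by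
      intro n
      induction n with
      | zero =>
        intro a b x z hd _ ha hb
        have e : a = b := S.D.tree.connected.dist_eq_zero_iff.1 hd
        rw [← e] at hb
        exact eqv_bind (fun a b h => col_sr hs T hc h) (hcn.slice a x z ha hb)
      | succ n ih =>
        intro a b x z hd hcb ha hb
        have hne : a ≠ b := by
          rintro rfl
          rw [SimpleGraph.dist_self] at hd
          omega
        obtain ⟨a1, h1, h2⟩ := exists_next S.D.tree hne
        obtain ⟨v, hv⟩ := hcn.crossed a a1 h1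
        have hf : c a1 = c a := by
          have : a1 ∈ c ⁻¹' {c a} := by
            apply T.conv_fibre (c a) a rfl b hcb
            rw [SimpleGraph.dist_eq_one_iff_adj.2 h1]
            omega
          exact this
        have k1 := eqv_bind (fun a b h => col_sr hs T hc h) (hcn.slice a x v ha hv.1)
        have k2 := ih a1 b v z (by omega) (hcb.trans hf.symm) hv.2 hb
        rw [hf] at k2
        exact k1.trans _ _ _ k2
    exact key _ a b x z rfl hab ha hb

end

/-- an edge at `z` is in a pentagon with `z` in the middle -/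
theorem exists_pent (hl : ∀ v, S.K.LC v) (hb : ¬ SA H) {z b : V} (e : S.K.E z b) :
    ∃ a y y', Pn S.P b z a y y' := by
  rcases S.K.edge_corner hl hb e with ⟨a, -, h⟩ | ⟨a, -, h⟩
  · obtain ⟨y, y', h⟩ := S.P.cor_iff.1 h
    exact ⟨a, y, y', h⟩
  · obtain ⟨y, y', h⟩ := S.P.cor_iff.1 h
    have h2 := h.rot.rot.rot.rot
    exact ⟨y', y, a, h2.symm⟩

/-- a sink with one point: seen, or all neighbours cross one edge at the point -/
theorem seen_or (hl : ∀ v, S.K.LC v) (hb : ¬ SA H) {z : V} (hz : ∀ a, ¬ S.K.ar z a) {ξ : S.X}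
    (hξ : S.J z = {ξ}) {b0 : V} (e0 : S.K.E z b0) :
    (∃ b c y y', Pn S.P b z c y y' ∧ S.Ce ξ b z c y y') ∨
      ∃ u, S.D.G.Adj ξ u ∧ ∀ b, S.K.E z b → S.Cs ξ u b := by
  by_cases hcon : ∃ b c y y', Pn S.P b z c y y' ∧ S.Ce ξ b z c y y'
  · exact Or.inl hcon
  right
  push Not at hcon
  have hin : ∀ b, S.K.E z b → S.K.ar b z := fun b e => e.resolve_left (hz b)
  have hmem : ∀ b, S.K.E z b → ξ ∈ S.J b := by
    intro b e
    obtain ⟨p, p0, p1⟩ := S.one_ex e
    rw [hξ, Set.mem_singleton_iff] at p0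
    rwa [p0] at p1
  have hzm : ξ ∈ S.J z := by
    rw [hξ]
    exact rfl
  have claim : ∀ b c y y', Pn S.P b z c y y' → ∃ u, S.D.G.Adj ξ u ∧ S.Cs ξ u b ∧
      S.Cs ξ u c := by
    intro b c y y' hp
    have hv : ∀ k, S.K.E (![b, z, c, y, y'] k) (![b, z, c, y, y'] (k + 1)) := by
      intro k
      fin_cases k
      exacts [hp.E1, hp.E2, hp.E3, hp.E4, hp.E5]
    obtain ⟨c1, hc1⟩ := S.cen hv
    have hc1' : S.Ce c1 b z c y y' := ce_iff.2 hc1
    have hne : ξ ≠ c1 := by
      rintro rfl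
      exact hcon b c y y' hp hc1'
    have hnz : c1 ∉ S.J z := by
      rw [hξ]
      intro k
      exact hne (Set.mem_singleton_iff.1 k).symm
    have hbm : c1 ∈ S.J b := hc1'.1.resolve_right hnz
    have hcm : c1 ∈ S.J c := hc1'.2.1.resolve_left hnz
    obtain ⟨u, hu, hd⟩ := exists_next S.D.tree hne
    have hu' : S.D.G.dist ξ u + S.D.G.dist u c1 = S.D.G.dist ξ c1 := by
      rw [SimpleGraph.dist_eq_one_iff_adj.2 hu]
      omega
    exact ⟨u, hu, ⟨hmem b hp.E1.symm, S.js.conv b _ (hmem b hp.E1.symm) _ hbm u hu'⟩,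
      ⟨hmem c hp.E2, S.js.conv c _ (hmem c hp.E2) _ hcm u hu'⟩⟩
  obtain ⟨a0, y, y', hp0⟩ := exists_pent hl hb e0
  obtain ⟨u, hu, h1, -⟩ := claim _ _ _ _ hp0
  refine ⟨u, hu, fun b e => ?_⟩
  have key : ∀ a b, Relation.EqvGen (fun a b => S.K.Cor a z b) a b →
      (S.Cs ξ u a ↔ S.Cs ξ u b) := by
    intro a b k
    induction k with
    | rel a b k =>
      obtain ⟨y, y', hp⟩ := S.P.cor_iff.1 k
      obtain ⟨u', hu', k1, k2⟩ := claim _ _ _ _ hp
      have ha := hin a hp.E1.symm
      have hb := hin b hp.E2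
      constructor
      · intro k
        have : u = u' := ar_cs_eq k.1 ha hzm hu hu' k.2 k1.2
        rw [this]
        exact k2
      · intro k
        have : u = u' := ar_cs_eq k.1 hb hzm hu hu' k.2 k2.2
        rw [this]
        exact k1
    | refl a => exact Iff.rfl
    | symm a b _ ih => exact ih.symm
    | trans a b c _ _ i1 i2 => exact i1.trans i2
  exact (key _ _ (hl z b0 b e0 e)).1 h1

/-- GOOD SYSTEMS STAY GOOD -/
theorem Gd.col (hg : S.Gd) (hl : ∀ v, S.K.LC v) (hb : ¬ SA H) {D1 : Decomp H} {c : S.X → D1.X}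
    (T : TMap S.D.G D1.G c) (hc : ∀ (h : H) a, c (h • a) = h • c a) :
    (S.col hg.sinkOK T hc).Gd := by
  have hyp : ∀ z : V, ¬ Ell H S.X z → Hyp S.X (stabilizer H z) := by
    intro z he
    unfold Ell at he
    push Not at he
    exact he
  -- broken sinks which become elliptic have one point
  have hfib : ∀ z : V, (∀ a, ¬ S.K.ar z a) → ¬ Ell H S.X z → Ell H D1.X z →
      ∃ ξ : D1.X, (∀ h ∈ stabilizer H z, h • ξ = ξ) ∧ c '' S.J z = {ξ} := by
    rintro z hz he ⟨ξ, hξ⟩
    refine ⟨ξ, hξ, ?_⟩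
    rw [hg.ax z hz he]
    have hax := axis S.D.tact _ (S.K.stab z) (hyp z he)
    obtain ⟨w, hw⟩ := hax.2.1
    apply Set.Subset.antisymm
    · rintro _ ⟨w', hw', rfl⟩
      exact T.mst_fibre hc hξ hw'
    · rintro _ rfl
      exact ⟨w, hw, T.mst_fibre hc hξ hw⟩
  refine ⟨Conn.col hg.sinkOK T hc hg.conn, ?_, ?_, ?_, ?_⟩
  · intro x a ha
    exact ell_of_map hc (hg.soft x a ha)
  · intro x hx
    show (c '' S.J x).Finite
    by_cases he : Ell H S.X x
    · exact (hg.fin x he).image c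
    · have hz : ∀ a, ¬ S.K.ar x a := fun a ha => he (hg.soft x a ha)
      obtain ⟨ξ, -, h⟩ := hfib x hz he hx
      rw [h]
      exact Set.finite_singleton ξ
  · intro z hz he1
    by_cases he : Ell H S.X z
    · obtain ⟨p, b, a, y, y', h1, h2, h3⟩ := hg.seen z hz he
      refine ⟨c p, b, a, y, y', ?_, h2, ?_⟩
      · show c '' S.J z = {c p}
        rw [h1, Set.image_singleton]
      · have e : ∀ x, p ∈ S.J x → c p ∈ c '' S.J x := fun x hx => ⟨p, hx, rfl⟩
        exact ⟨h3.1.imp (e _) (e _), h3.2.1.imp (e _) (e _), h3.2.2.1.imp (e _) (e _),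
          h3.2.2.2.1.imp (e _) (e _), h3.2.2.2.2.imp (e _) (e _)⟩
    · obtain ⟨ξ, hfix, hJ⟩ := hfib z hz he he1
      -- a neighbour
      have hnb : ∃ b0, S.K.E z b0 := by
        by_contra hno
        push Not at hno
        have hall : ∀ y, y = z := by
          intro y
          have := S.K.conn z y
          induction this with
          | refl => rfl
          | tail _ h2 ih =>
            rw [ih] at h2
            exact absurd h2 (hno _)
        obtain ⟨h, hh⟩ := D1.nofix ξ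
        exact hh (hfix h (hall _))
      obtain ⟨b0, e0⟩ := hnb
      rcases seen_or (S := S.col hg.sinkOK T hc) hl hb hz hJ e0 with h | ⟨u, hu, h⟩
      · obtain ⟨b, a, y, y', h1, h2⟩ := h
        exact ⟨ξ, b, a, y, y', hJ, h1, h2⟩
      · exfalso
        have hzm : ξ ∈ (S.col hg.sinkOK T hc).J z := by
          show ξ ∈ c '' S.J z
          rw [hJ]
          exact rfl
        have hin : S.K.ar b0 z := e0.resolve_left (hz b0)
        have hu1 : ∀ g ∈ stabilizer H z, g • u = u := by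
          intro g hgz
          have e1 : S.K.E z (g • b0) := by
            have := S.K.E_smul g e0
            rwa [show g • z = z from hgz] at this
          have k1 := h _ e1
          have k2 := (h _ e0).smul g
          have hgξ : g • ξ = ξ := hfix g hgz
          rw [hgξ] at k2
          have hin' : S.K.ar (g • b0) z := e1.resolve_left (hz _)
          have hu' : D1.G.Adj ξ (g • u) := by
            have := D1.adj_smul g _ _ hu
            rwa [hgξ] at this
          exact ar_cs_eq (S := S.col hg.sinkOK T hc) k1.1 hin' hzm hu' hu k2.2 k1.2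
        obtain ⟨α, β, h1, h2, hab⟩ := T.lift ξ u hu
        apply he
        refine ⟨α, fun g hgz => ?_⟩
        have k := T.uniq _ _ _ _ (S.D.adj_smul g _ _ hab) hab (by
          rw [hc, hc, h1, h2, hfix g hgz, hu1 g hgz]
          exact hu.ne) (by rw [hc, h1, hfix g hgz]) (by rw [hc, h2, hu1 g hgz])
        exact k.1
  · intro z hz he1
    have he : ¬ Ell H S.X z := fun h => he1 (ell_of_map hc h)
    show c '' S.J z = mst D1.G (stabilizer H z)
    rw [hg.ax z hz he]
    refine T.mst_image hc (axis S.D.tact _ (S.K.stab z) (hyp z he)).2.1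
      (axis D1.tact _ (S.K.stab z) ?_).2.1
    unfold Ell at he1
    push Not at he1
    exact he1

end Sys

end Pool.Agent.DI
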