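import Pool.Agent.DI.TrkB

/-!
# Theorem A for tracks, part 3: every system can be made connected
-/

namespace Pool.Agent.DI

open MulAction
open Pool.Agent.SAF (InC orbs FinOrb oc Decomp SAn SA Conv hull dist_edge FinOrb_iff exists_next
  isTree_of_cut conv_of_rtg)
open Pool.Agent.BT (PX PQ JS bey exits dist_cross)
open Pool.Agent.BT.TA

namespace Sys

variable {H V : Type} [Group H] [MulAction H V] (S : Sys H V)

theorem J'_SR_iff {x z : V} {l : S.LV} (k : S.SR (S.pr l) x z) : l ∈ S.J' x ↔ l ∈ S.J' z :=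
  ⟨fun h => S.J'_SR h k, fun h => S.J'_SR h (SR.symm' S k)⟩

/-- transport along a wall -/
theorem J'_wall {l l' : S.LV} {x z : V} (k : Relation.EqvGen (S.PW (S.pr l) (S.pr l')) x z) :
    (l ∈ S.J' x ↔ l ∈ S.J' z) ∧ (l' ∈ S.J' x ↔ l' ∈ S.J' z) := by
  induction k with
  | rel x y h =>
    exact ⟨S.J'_SR_iff (Or.inr ⟨_, h⟩), S.J'_SR_iff (Or.inr ⟨_, h.swap⟩)⟩
  | refl x => exact ⟨Iff.rfl, Iff.rfl⟩
  | symm x y _ ih => exact ⟨ih.1.symm, ih.2.symm⟩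
  | trans x y z _ _ ih1 ih2 => exact ⟨ih1.1.trans ih2.1, ih1.2.trans ih2.2⟩

/-- the class of `x` over the edge `w w'` -/
def Wc (w w' : S.X) (x0 x : V) : Prop :=
  S.Cs w w' x ∧ Relation.EqvGen (S.PW w w') x0 x

theorem Wc_cl {w w' : S.X} (h : S.D.G.Adj w w') (x0 : V) : S.Cl w w' (S.Wc w w' x0) where
  adj := h
  mem x hx := hx.1
  cl x z k := by
    constructor
    · rintro ⟨-, e⟩
      exact ⟨k.r, e.trans _ _ _ (Relation.EqvGen.rel _ _ k)⟩
    · rintro ⟨-, e⟩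
      exact ⟨k.l, e.trans _ _ _ ((Relation.EqvGen.rel _ _ k).symm _ _)⟩

/-- the cut function on the new tree -/
theorem exists_cutL {w w' : S.X} {C : V → Prop} (hC : S.Cl w w' C) :
    ∃ g : S.LV → ZMod 2, ∀ x l l', l ∈ S.J' x → l' ∈ S.J' x → S.D.G.Adj (S.pr l) (S.pr l') →
      (g l ≠ g l' ↔ (C x ∧ ((S.pr l = w ∧ S.pr l' = w') ∨ (S.pr l = w' ∧ S.pr l' = w)))) := by
  obtain ⟨G, hG1, hG2⟩ := exists_loc hC
  have hl : ∀ q r : S.V1, Relation.EqvGen S.lr q r → G q.1.1 q.1.2 = G r.1.1 r.1.2 := by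
    intro q r k
    induction k with
    | rel x y h =>
      have := hG1 _ _ _ h.2
      rw [this, h.1]
    | refl x => rfl
    | symm x y _ ih => exact ih.symm
    | trans x y z _ _ ih1 ih2 => exact ih1.trans ih2
  refine ⟨Quotient.lift (fun q => G q.1.1 q.1.2) hl, ?_⟩
  intro x l l' h1 h2 h3
  obtain ⟨a, ha⟩ := id h1
  obtain ⟨b, hb⟩ := id h2
  have e1 : Quotient.lift (fun q : S.V1 => G q.1.1 q.1.2) hl l = G x (S.pr l) := by
    conv_lhs => rw [← ha]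
    rfl
  have e2 : Quotient.lift (fun q : S.V1 => G q.1.1 q.1.2) hl l' = G x (S.pr l') := by
    conv_lhs => rw [← hb]
    rfl
  rw [e1, e2]
  exact hG2 x _ _ a b h3

theorem J'_ne (x : V) : ∃ l, l ∈ S.J' x := by
  obtain ⟨w, hw⟩ := S.js.ne x
  exact ⟨S.cm ⟨(x, w), hw⟩, S.J'_cm ⟨(x, w), hw⟩⟩

theorem J'_ex {x : V} {w : S.X} (hw : w ∈ S.J x) : ∃ l, l ∈ S.J' x ∧ S.pr l = w :=
  ⟨S.cm ⟨(x, w), hw⟩, S.J'_cm ⟨(x, w), hw⟩, rfl⟩

/-- lifting of paths in `J x` -/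
theorem lift_path {x : V} {l m : S.LV} (hl : l ∈ S.J' x) (hm : m ∈ S.J' x) :
    Relation.ReflTransGen (fun a b => S.LG.Adj a b ∧ a ∈ S.J' x ∧ b ∈ S.J' x) l m := by
  have h := (S.js.conv x).rtg S.D.tree (S.J'_pr hl) (S.J'_pr hm)
  have key : ∀ c, Relation.ReflTransGen (fun u v => S.D.G.Adj u v ∧ u ∈ S.J x ∧ v ∈ S.J x)
      (S.pr l) c → ∀ n : S.LV, n ∈ S.J' x → S.pr n = c →
      Relation.ReflTransGen (fun a b => S.LG.Adj a b ∧ a ∈ S.J' x ∧ b ∈ S.J' x) l n := by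
    intro c hc
    induction hc with
    | refl =>
      intro n hn e
      rw [S.J'_inj hn hl e]
    | @tail b c _ h2 ih =>
      intro n hn e
      obtain ⟨m0, hm0, e0⟩ := S.J'_ex h2.2.1
      refine (ih m0 hm0 e0).tail ⟨⟨?_, x, hm0, hn⟩, hm0, hn⟩
      rw [e0, e]
      exact h2.1
  exact key _ h m hm rfl

theorem J'_reach {x : V} {l m : S.LV} (hl : l ∈ S.J' x) (hm : m ∈ S.J' x) :
    S.LG.Reachable l m := by
  have h := S.lift_path hl hm
  clear hm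
  induction h with
  | refl => exact SimpleGraph.Reachable.refl _
  | tail _ h2 ih => exact ih.trans h2.1.reachable

theorem LG_conn : S.LG.Connected := by
  obtain ⟨x0⟩ := S.K.ne
  obtain ⟨l0, hl0⟩ := S.J'_ne x0
  have hne : Nonempty S.LV := ⟨l0⟩
  have key : ∀ y, Relation.ReflTransGen (fun a b => S.K.ar a b ∨ S.K.ar b a) x0 y →
      ∀ m, m ∈ S.J' y → S.LG.Reachable l0 m := by
    intro y h
    induction h with
    | refl =>
      intro m hm
      exact S.J'_reach hl0 hm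
    | @tail b c _ h2 ih =>
      intro m hm
      obtain ⟨p, p0, p1⟩ := S.one_ex (h2 : S.K.E b c)
      obtain ⟨n, hn, en⟩ := S.J'_ex p0
      have hn' : n ∈ S.J' c := S.J'_E h2 hn (by rw [en]; exact p1)
      exact (ih n hn).trans (S.J'_reach hn' hm)
  refine ⟨fun a b => ?_⟩
  have all : ∀ a : S.LV, S.LG.Reachable l0 a := by
    intro a
    induction a using Quotient.inductionOn with
    | h q => exact key q.1.1 (S.K.conn x0 q.1.1) _ (S.J'_cm q)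
  exact (all a).symm.trans (all b)

theorem LG_tree : S.LG.IsTree := by
  apply isTree_of_cut _ S.LG_conn
  intro l l' hl
  obtain ⟨ha, x0, h0, h0'⟩ : S.LAdj l l' := hl
  obtain ⟨g, hg⟩ := S.exists_cutL (S.Wc_cl ha x0)
  refine ⟨g, ?_, ?_⟩
  · exact (hg x0 l l' h0 h0' ha).2 ⟨⟨⟨S.J'_pr h0, S.J'_pr h0'⟩,
      Relation.EqvGen.refl _⟩, Or.inl ⟨rfl, rfl⟩⟩
  · intro a b hab hne
    obtain ⟨hab1, y, hy, hy'⟩ : S.LAdj a b := hab
    obtain ⟨⟨-, hw⟩, hh⟩ := (hg y a b hy hy' hab1).1 hne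
    have t := S.J'_wall hw
    have t1 := t.1.1 h0
    have t2 := t.2.1 h0'
    rcases hh with ⟨e1, e2⟩ | ⟨e1, e2⟩
    · exact Or.inl ⟨S.J'_inj hy t1 e1, S.J'_inj hy' t2 e2⟩
    · exact Or.inr ⟨S.J'_inj hy t2 e1, S.J'_inj hy' t1 e2⟩

theorem dist_pr_le (l m : S.LV) : S.D.G.dist (S.pr l) (S.pr m) ≤ S.LG.dist l m := by
  obtain ⟨p, hp⟩ := S.LG_conn.exists_walk_length_eq_dist l m
  let f : S.LG →g S.D.G := ⟨S.pr, fun {a b} h => (h : S.LAdj a b).1⟩
  have h1 := SimpleGraph.dist_le (p.map f)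
  rw [SimpleGraph.Walk.length_map, hp] at h1
  exact h1

/-- the projection is isometric on the new subtrees -/
theorem iso {x : V} : ∀ (n : ℕ) (l m : S.LV), l ∈ S.J' x → m ∈ S.J' x →
    S.D.G.dist (S.pr l) (S.pr m) = n → S.LG.dist l m = n := by
  intro n
  induction n with
  | zero =>
    intro l m hl hm h
    have e : S.pr l = S.pr m := (S.D.tree.connected.dist_eq_zero_iff).1 h
    rw [S.J'_inj hl hm e, SimpleGraph.dist_self]
  | succ n ih =>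
    intro l m hl hm h
    have hne : S.pr l ≠ S.pr m := by
      intro e
      rw [e, SimpleGraph.dist_self] at h
      omega
    obtain ⟨v, hv, ev⟩ := exists_next S.D.tree hne
    have h1 : S.D.G.dist (S.pr l) v = 1 := SimpleGraph.dist_eq_one_iff_adj.2 hv
    have hvJ : v ∈ S.J x := S.js.conv x _ (S.J'_pr hl) _ (S.J'_pr hm) v (by omega)
    obtain ⟨k, hk, ek⟩ := S.J'_ex hvJ
    have h2 := ih k m hk hm (by rw [ek]; omega)
    have h3 : S.LG.Adj l k := ⟨by rw [ek]; exact hv, x, hl, hk⟩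
    have h4 : S.LG.dist l k = 1 := SimpleGraph.dist_eq_one_iff_adj.2 h3
    have h5 : S.LG.dist l m ≤ S.LG.dist l k + S.LG.dist k m := S.LG_conn.dist_triangle
    have h6 := S.dist_pr_le l m
    omega

theorem iso' {x : V} {l m : S.LV} (hl : l ∈ S.J' x) (hm : m ∈ S.J' x) :
    S.LG.dist l m = S.D.G.dist (S.pr l) (S.pr m) := S.iso _ l m hl hm rfl

theorem bey_iff {x : V} {l l' m : S.LV} (hl : l ∈ S.J' x) (hl' : l' ∈ S.J' x)
    (hm : m ∈ S.J' x) : m ∈ bey S.LG l l' ↔ S.pr m ∈ bey S.D.G (S.pr l) (S.pr l') := by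
  show S.LG.dist m l = S.LG.dist m l' + 1 ↔
    S.D.G.dist (S.pr m) (S.pr l) = S.D.G.dist (S.pr m) (S.pr l') + 1
  rw [S.iso' hm hl, S.iso' hm hl']

theorem J'_conv (x : V) : Conv S.LG (S.J' x) := by
  apply conv_of_rtg S.LG_tree
  intro a ha b hb
  exact S.lift_path ha hb

theorem finite_of_three {X : Type} {s : Set X}
    (h : ∀ a ∈ s, ∀ b ∈ s, ∀ c ∈ s, a = b ∨ a = c ∨ b = c) : s.Finite := by
  by_contra hi
  have hi' : s.Infinite := hi
  obtain ⟨a, ha⟩ := hi'.nonempty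
  obtain ⟨b, hb, hba⟩ := (hi'.sdiff (Set.finite_singleton a)).nonempty
  obtain ⟨c, hc, hcab⟩ := (hi'.sdiff ((Set.finite_singleton a).union
    (Set.finite_singleton b))).nonempty
  rcases h a ha b hb c hc with e | e | e
  · exact hba e.symm
  · exact hcab (Or.inl e.symm)
  · exact hcab (Or.inr e.symm)

theorem nb_finite {x : V} {w : S.X} (hw : w ∈ S.J x) :
    {w' | S.D.G.Adj w w' ∧ w' ∈ S.J x}.Finite := by
  apply finite_of_three
  intro a ha b hb c hc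
  have k := S.js.two x w hw (Sum.inr a) (Or.inr ⟨a, rfl, ha.1, ha.2⟩) (Sum.inr b)
    (Or.inr ⟨b, rfl, hb.1, hb.2⟩) (Sum.inr c) (Or.inr ⟨c, rfl, hc.1, hc.2⟩)
  rcases k with k | k | k
  · exact Or.inl (Sum.inr.inj k)
  · exact Or.inr (Or.inl (Sum.inr.inj k))
  · exact Or.inr (Or.inr (Sum.inr.inj k))

theorem V1_fin : FinOrb H (Set.univ : Set S.V1) := by
  apply Pool.Agent.SAF.FinOrb.of_inj S.js.fin (fun q : S.V1 => q.1) (fun q _ => q.2)
  rintro a _ b _ ⟨h, e⟩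
  exact ⟨h, Subtype.ext e⟩

theorem LG_finV : FinOrb H (Set.univ : Set S.LV) := by
  apply Pool.Agent.SAF.FinOrb.image S.V1_fin S.cm
  · intro b _
    obtain ⟨p, rfl⟩ := Quotient.exists_rep b
    exact ⟨p, Set.mem_univ _, 1, one_smul H _⟩
  · rintro a _ b _ ⟨h, rfl⟩
    exact ⟨h, rfl⟩

theorem LG_finE : FinOrb H {p : S.LV × S.LV | S.LG.Adj p.1 p.2} := by
  have h1 : FinOrb H {r : S.V1 × S.V1 | r.1 ∈ (Set.univ : Set S.V1) ∧
      r.2 ∈ (fun q : S.V1 => {t : S.V1 | t.1.1 = q.1.1 ∧ S.D.G.Adj q.1.2 t.1.2}) r.1} := by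
    apply Pool.Agent.SAF.finOrb_fibre (Set.univ : Set S.V1) S.V1_fin
      (fun q : S.V1 => {t : S.V1 | t.1.1 = q.1.1 ∧ S.D.G.Adj q.1.2 t.1.2})
    · rintro h q _ t ⟨e1, e2⟩
      refine ⟨congrArg (h • ·) e1, S.D.adj_smul h _ _ e2⟩
    · intro q _
      have hf : {t : S.V1 | t.1.1 = q.1.1 ∧ S.D.G.Adj q.1.2 t.1.2}.Finite := by
        apply Set.Finite.of_finite_image (f := fun t : S.V1 => t.1.2)
        · apply (S.nb_finite q.2).subset
          rintro _ ⟨t, ⟨e1, e2⟩, rfl⟩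
          refine ⟨e2, ?_⟩
          have := t.2
          rw [e1] at this
          exact this
        · rintro t ⟨e1, e2⟩ t' ⟨e1', e2'⟩ e
          exact Subtype.ext (Prod.ext (e1.trans e1'.symm) e)
      exact hf.image _
  apply Pool.Agent.SAF.FinOrb.image h1 (fun r => (S.cm r.1, S.cm r.2))
  · rintro ⟨l, l'⟩ hl
    obtain ⟨ha, x, ⟨a, ea⟩, ⟨b, eb⟩⟩ : S.LAdj l l' := hl
    exact ⟨(⟨(x, S.pr l), a⟩, ⟨(x, S.pr l'), b⟩), ⟨Set.mem_univ _, rfl, ha⟩, 1, by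
      rw [one_smul]
      exact Prod.ext ea eb⟩
  · rintro a _ b _ ⟨h, rfl⟩
    exact ⟨h, rfl⟩

theorem LG_edgeC (l l' : S.LV) (h : S.LG.Adj l l') : InC ↥(stabilizer H l ⊓ stabilizer H l') := by
  have hle : ∀ l : S.LV, stabilizer H l ≤ stabilizer H (S.pr l) := by
    intro l h hh
    have hh' : h • l = l := hh
    show h • S.pr l = S.pr l
    rw [← S.pr_smul, hh']
  exact Pool.Agent.SAG.InC.mono (inf_le_inf (hle l) (hle l')) (S.D.edgeC _ _ (h : S.LAdj l l').1)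

/-- the new decomposition -/
def LD : Decomp H where
  X := S.LV
  G := S.LG
  tree := S.LG_tree
  adj_smul h x y e := S.LAdj_smul h x y e
  noinv := by
    rintro h l l' hl ⟨h1, h2⟩
    have hl' : S.LAdj l l' := hl
    apply S.D.noinv h _ _ hl'.1
    rw [← S.pr_smul, ← S.pr_smul, h1, h2]
    exact ⟨rfl, rfl⟩
  finV := S.LG_finV
  finE := S.LG_finE
  edgeC := S.LG_edgeC
  nofix l := by
    obtain ⟨h, hh⟩ := S.D.nofix (S.pr l)
    refine ⟨h, fun e => hh ?_⟩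
    rw [← S.pr_smul, e]

theorem J'_one {x y : V} (e : S.K.E x y) : ∃ p, S.J' x ∩ S.J' y = {p} := by
  obtain ⟨p, p0, p1⟩ := S.one_ex e
  obtain ⟨n, hn, en⟩ := S.J'_ex p0
  have hn' : n ∈ S.J' y := S.J'_E e hn (by rw [en]; exact p1)
  refine ⟨n, Set.eq_singleton_iff_unique_mem.2 ⟨⟨hn, hn'⟩, ?_⟩⟩
  rintro m ⟨h1, h2⟩
  exact S.J'_inj h1 hn (S.one_eq e (S.J'_pr h1) (S.J'_pr h2) (S.J'_pr hn) (S.J'_pr hn'))

/-- a common point of new subtrees over adjacent vertices -/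
theorem J'_one_ex {x y : V} (e : S.K.E x y) : ∃ n, n ∈ S.J' x ∧ n ∈ S.J' y := by
  obtain ⟨p, p0, p1⟩ := S.one_ex e
  obtain ⟨n, hn, en⟩ := S.J'_ex p0
  exact ⟨n, hn, S.J'_E e hn (by rw [en]; exact p1)⟩

theorem ex_map {x : V} {l : S.LV} {s : V ⊕ S.LV} (hs : s ∈ exits S.P.pq S.LG S.J' x l) :
    Sum.map id S.pr s ∈ exits S.P.pq S.D.G S.J x (S.pr l) := by
  rcases hs with ⟨a, rfl, h1, h2⟩ | ⟨m, rfl, h1, h2⟩
  · exact Or.inl ⟨a, rfl, h1, S.J'_pr h2⟩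
  · exact Or.inr ⟨S.pr m, rfl, (h1 : S.LAdj l m).1, S.J'_pr h2⟩

theorem ex_inj {x : V} {l : S.LV} {s t : V ⊕ S.LV} (hs : s ∈ exits S.P.pq S.LG S.J' x l)
    (ht : t ∈ exits S.P.pq S.LG S.J' x l) (e : Sum.map id S.pr s = Sum.map id S.pr t) :
    s = t := by
  rcases hs with ⟨a, rfl, h1, h2⟩ | ⟨m, rfl, h1, h2⟩
  · rcases ht with ⟨b, rfl, k1, k2⟩ | ⟨n, rfl, k1, k2⟩
    · exact congrArg Sum.inl (Sum.inl.inj e)
    · cases e
  · rcases ht with ⟨b, rfl, k1, k2⟩ | ⟨n, rfl, k1, k2⟩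
    · cases e
    · exact congrArg Sum.inr (S.J'_inj h2 k2 (Sum.inr.inj e))

/-- sides of new subtrees of neighbours of crossing vertices -/
theorem side_up {x y : V} (e : S.K.E x y) {l l' : S.LV} (h : S.LAdj l l') (h1 : l ∈ S.J' x)
    (h2 : l' ∈ S.J' x) (hs : S.J y ⊆ bey S.D.G (S.pr l) (S.pr l')) : S.J' y ⊆ bey S.LG l l' := by
  obtain ⟨n, hn, hn'⟩ := S.J'_one_ex e
  apply conv_sd S.LG_tree (S.J'_conv y) h _ hn'
  · exact (S.bey_iff h1 h2 hn).2 (hs (S.J'_pr hn'))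
  · rintro ⟨k, -⟩
    exact bey_not (hs (S.J'_pr k)) (bey_self h.1.symm)

theorem J'_cross {x : V} (hx : ∃ a, S.K.ar x a) {l l' : S.LV} (h : S.LG.Adj l l')
    (hl : l ∈ S.J' x) (hl' : l' ∈ S.J' x) : ∃ a, S.K.ar x a ∧ S.J' a ⊆ bey S.LG l l' := by
  have hD : S.D.G.Adj (S.pr l) (S.pr l') := (h : S.LAdj l l').1
  obtain ⟨a, ha, hs⟩ := S.js.cross x hx _ _ hD (S.J'_pr hl) (S.J'_pr hl')
  exact ⟨a, ha, S.side_up (Or.inl ha) h hl hl' hs⟩

theorem J'_fin : FinOrb H {p : V × S.LV | p.2 ∈ S.J' p.1} := by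
  apply Pool.Agent.SAF.FinOrb.of_inj S.js.fin (fun p : V × S.LV => (p.1, S.pr p.2))
  · intro p hp
    exact S.J'_pr hp
  · rintro ⟨x, l⟩ hl ⟨y, m⟩ hm ⟨h, e⟩
    have hl' : l ∈ S.J' x := hl
    have hm' : m ∈ S.J' y := hm
    have e1 : h • x = y := congrArg Prod.fst e
    have e2 : h • S.pr l = S.pr m := congrArg Prod.snd e
    have e3 : h • l ∈ S.J' y := by
      have := S.J'_smul h x l hl'
      rw [e1] at this
      exact this
    have e4 : h • l = m := S.J'_inj e3 hm' (by rw [S.pr_smul]; exact e2)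
    exact ⟨h, Prod.ext e1 e4⟩

theorem J'_js : JS S.P.pq S.LD S.J' where
  conv x := S.J'_conv x
  ne x := S.J'_ne x
  smul h x l := S.J'_smul h x l
  one x y e := S.J'_one e
  two x l hl s hs t ht u hu := by
    rcases S.js.two x _ (S.J'_pr hl) _ (S.ex_map hs) _ (S.ex_map ht) _ (S.ex_map hu) with
      k | k | k
    · exact Or.inl (S.ex_inj hs ht k)
    · exact Or.inr (Or.inl (S.ex_inj hs hu k))
    · exact Or.inr (Or.inr (S.ex_inj ht hu k))
  cross x hx l l' h hl hl' := S.J'_cross hx h hl hl'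
  fin := S.J'_fin

/-- the new system -/
def next : Sys H V where
  K := S.K
  P := S.P
  D := S.LD
  J := S.J'
  js := S.J'_js

theorem PW_up {l l' : S.LV} {x z : V} (hl : l ∈ S.J' x) (hl' : l' ∈ S.J' x)
    (k : S.PW (S.pr l) (S.pr l') x z) : S.next.PW l l' x z := by
  have t := S.J'_wall (Relation.EqvGen.rel _ _ k)
  obtain ⟨a, -, -, q, y, z', hp, h4⟩ := k
  have ha : S.LAdj l l' := ⟨a, x, hl, hl'⟩
  have hz := t.1.1 hl
  have hz' := t.2.1 hl'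
  have ha' : S.LAdj l' l := ⟨a.symm, x, hl', hl⟩
  refine ⟨ha, ⟨hl, hl'⟩, ⟨hz, hz'⟩, q, y, z', hp, ?_⟩
  rcases h4 with ⟨a1, a2, a3⟩ | ⟨a1, a2, a3⟩
  · exact Or.inl ⟨S.side_up hp.E1 ha hl hl' a1, S.side_up hp.E3 ha' hz' hz a2,
      S.side_up (Or.symm hp.E5) ha' hl' hl a3⟩
  · exact Or.inr ⟨S.side_up hp.E1 ha' hl' hl a1, S.side_up hp.E3 ha hz hz' a2,
      S.side_up (Or.symm hp.E5) ha hl hl' a3⟩

theorem wall_up {l l' : S.LV} {x z : V}
    (k : Relation.EqvGen (S.PW (S.pr l) (S.pr l')) x z) :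
    l ∈ S.J' x → l' ∈ S.J' x → Relation.EqvGen (S.next.PW l l') x z := by
  induction k with
  | rel x y h =>
    intro h1 h2
    exact Relation.EqvGen.rel _ _ (S.PW_up h1 h2 h)
  | refl x =>
    intro _ _
    exact Relation.EqvGen.refl _
  | symm x y h ih =>
    intro h1 h2
    have t := S.J'_wall h
    exact (ih (t.1.2 h1) (t.2.2 h2)).symm _ _
  | trans x y z h h' ih1 ih2 =>
    intro h1 h2
    have t := S.J'_wall h
    exact (ih1 h1 h2).trans _ _ _ (ih2 (t.1.1 h1) (t.2.1 h2))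

theorem next_conn : S.next.Conn where
  wall l l' h x z hx hz := by
    have h1 : l ∈ S.J' x := hx.1
    have h2 : l' ∈ S.J' x := hx.2
    have h3 : l ∈ S.J' z := hz.1
    have h4 : l' ∈ S.J' z := hz.2
    have hD : S.D.G.Adj (S.pr l) (S.pr l') := (h : S.LAdj l l').1
    obtain ⟨g, hg⟩ := S.exists_cutL (S.Wc_cl hD x)
    have k1 : g l ≠ g l' := (hg x l l' h1 h2 hD).2
      ⟨⟨⟨S.J'_pr h1, S.J'_pr h2⟩, Relation.EqvGen.refl _⟩, Or.inl ⟨rfl, rfl⟩⟩
    have k2 := ((hg z l l' h3 h4 hD).1 k1).1.2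
    exact S.wall_up k2 h1 h2
  slice l x z h1 h2 := by
    obtain ⟨a, ea⟩ : l ∈ S.J' x := h1
    obtain ⟨b, eb⟩ : l ∈ S.J' z := h2
    have key : ∀ q r : S.V1, Relation.EqvGen S.lr q r → S.cm q = l →
        Relation.EqvGen (S.next.SR l) q.1.1 r.1.1 := by
      intro q r k
      induction k with
      | rel q r h =>
        intro hq
        subst hq
        obtain ⟨h1, h2⟩ := h
        have hx : S.cm q ∈ S.J' q.1.1 := S.J'_cm q
        apply Relation.EqvGen.rel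
        rcases id h2 with ⟨e, k1, k2⟩ | ⟨w', k⟩
        · exact Or.inl ⟨e, hx, S.J'_E e hx k2⟩
        · obtain ⟨l', hl', el'⟩ := S.J'_ex k.l.2
          refine Or.inr ⟨l', S.PW_up hx hl' ?_⟩
          rw [el']
          exact k
      | refl q =>
        intro _
        exact Relation.EqvGen.refl _
      | symm q r h ih =>
        intro hq
        have : S.cm q = S.cm r := Quotient.sound h
        exact (ih (this.trans hq)).symm _ _
      | trans q r s h h' ih1 ih2 =>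
        intro hq
        have : S.cm q = S.cm r := Quotient.sound h
        exact (ih1 hq).trans _ _ _ (ih2 (this.symm.trans hq))
    exact key ⟨(x, S.pr l), a⟩ ⟨(z, S.pr l), b⟩ (Quotient.exact (ea.trans eb.symm)) ea
  crossed l l' h := by
    obtain ⟨-, x, h1, h2⟩ : S.LAdj l l' := h
    exact ⟨x, h1, h2⟩

/-- **Theorem A for tracks.** Every system can be made connected by a refinement of the tree. -/
theorem exists_conn : ∃ (D' : Decomp H) (J' : V → Set D'.X) (js' : JS S.P.pq D' J')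
    (pr : D'.X → S.X), (Sys.mk S.K S.P D' J' js').Conn ∧
    (∀ (h : H) l, pr (h • l) = h • pr l) ∧
    (∀ a b, D'.G.Adj a b → S.D.G.Adj (pr a) (pr b)) ∧
    (∀ x, ∀ l ∈ J' x, pr l ∈ S.J x) ∧
    (∀ x, ∀ w ∈ S.J x, ∃ l ∈ J' x, pr l = w) ∧
    (∀ x, ∀ l ∈ J' x, ∀ m ∈ J' x, pr l = pr m → l = m) :=
  ⟨S.LD, S.J', S.J'_js, S.pr, S.next_conn, S.pr_smul, fun _ _ h => (h : S.LAdj _ _).1,
    fun _ _ h => S.J'_pr h, fun _ _ h => S.J'_ex h, fun _ _ h1 _ h2 e => S.J'_inj h1 h2 e⟩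

end Sys

end Pool.Agent.DI
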