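import Pool.Agent.DI.CutX
import Pool.Agent.BT.SAC

/-!
# Consequences of connected links

`SubGX.nbr_of_LC`, `SubGX.stab_of_LC`: at a vertex with connected link a part has the same link and
the same stabiliser. `edge_corner`: if all links are connected and the group is bad then every edge
lies in a cell. `SubGX.oc_le`: numbers of orbits of edges do not increase.
-/

namespace Pool.Agent.DI

open MulAction
open Pool.Agent.SAF (InC SA orbs FinOrb oc Decomp TAct FinOrb_iff oc_le_of_inj)

namespace SubGX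

variable {H' V' H V : Type} [Group H'] [MulAction H' V'] [Group H] [MulAction H V]
  {K' : GX H' V'} {K : GX H V}

/-- the numbers of orbits of edges do not increase -/
theorem oc_le (S : SubGX K' K) {Z' : Set (V' × V')} {Z : Set (V × V)} (hZ : FinOrb H Z)
    (hE : ∀ p ∈ Z', K'.E p.1 p.2) (hm : ∀ p ∈ Z', (S.f p.1, S.f p.2) ∈ Z) :
    oc H' Z' ≤ oc H Z := by
  refine oc_le_of_inj hZ (fun p : V' × V' => (S.f p.1, S.f p.2)) hm ?_
  rintro ⟨v, n⟩ h1 ⟨v', n'⟩ h2 ⟨h, hh⟩
  have e1 : h • S.f v = S.f v' := congrArg Prod.fst hh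
  have e2 : h • S.f n = S.f n' := congrArg Prod.snd hh
  obtain ⟨k, rfl⟩ := S.edge v n v' n' h (hE _ h1) (hE _ h2) e1 e2
  exact ⟨k, Prod.ext (S.f_inj (by rw [← e1]; exact S.f_smul _ _))
    (S.f_inj (by rw [← e2]; exact S.f_smul _ _))⟩

/-- the stabiliser of an edge is the same -/
theorem stab_edge (S : SubGX K' K) {x y : V'} (e : K'.E x y) {h : H} (h1 : h • S.f x = S.f x)
    (h2 : h • S.f y = S.f y) : ∃ h', S.φ h' = h ∧ h' • x = x ∧ h' • y = y := by
  obtain ⟨k, rfl⟩ := S.edge x y x y h e e h1 h2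
  exact ⟨k, rfl, S.f_inj (by rw [S.f_smul]; exact h1), S.f_inj (by rw [S.f_smul]; exact h2)⟩

/-- at a vertex with connected link all neighbours belong to the part -/
theorem nbr_of_LC (S : SubGX K' K) {v n : V'} (hv : K.LC (S.f v)) (e : K'.E v n) {b : V}
    (hb : K.E (S.f v) b) : ∃ b', S.f b' = b ∧ K'.E v b' := by
  obtain ⟨b', h1, -⟩ := (S.LJ_back (hv _ _ (S.E_iff.1 e) hb)).1 n rfl e
  exact ⟨b', h1, S.E_iff.2 (by rw [h1]; exact hb)⟩

/-- at a vertex with connected link the stabiliser is the same -/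
theorem stab_of_LC (S : SubGX K' K) {v n : V'} (hv : K.LC (S.f v)) (e : K'.E v n) {h : H}
    (hh : h • S.f v = S.f v) : ∃ h', S.φ h' = h ∧ h' • v = v := by
  have e1 : K.E (S.f v) (h • S.f n) := by
    have := K.E_smul h (S.E_iff.1 e)
    rwa [hh] at this
  obtain ⟨b', h1, h2⟩ := S.nbr_of_LC hv e e1
  obtain ⟨k, rfl⟩ := S.edge v n v b' h e h2 hh h1.symm
  exact ⟨k, rfl, S.f_inj (by rw [S.f_smul]; exact hh)⟩

theorem tb_f (S : SubGX K' K) (i : K'.I) : ∃ k : H, ∀ h : H',
    S.f (K'.tb i h) = K.tb (S.ι i) (S.φ h * k) ∧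
      (K'.tw i h).map S.f = K.tw (S.ι i) (S.φ h * k) := by
  obtain ⟨k, e1, e2⟩ := S.cell i
  refine ⟨k, fun h => ⟨?_, ?_⟩⟩
  · rw [K.tb_mul, ← e1]
    exact S.f_smul _ _
  · rw [K.tw_mul, ← e2]
    unfold GX.tw
    rw [List.map_map, List.map_map]
    apply List.map_congr_left
    intro z _
    exact S.f_smul _ _

end SubGX

namespace GX

variable {H V : Type} [Group H] [MulAction H V] {K : GX H V}

/-- a joined pair of different vertices has a corner to a different vertex -/
theorem LJ.corner {v a b : V} (h : K.LJ v a b) (hne : a ≠ b) : ∃ c, c ≠ a ∧ K.Cor a v c := by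
  have key : (∀ c, K.Cor a v c → c = a) → ∀ x y, K.LJ v x y → (x = a ↔ y = a) := by
    intro hc x y h'
    induction h' with
    | rel x y h' =>
      constructor
      · intro e; rw [e] at h'; exact hc _ h'
      · intro e; rw [e] at h'; exact hc _ h'.symm
    | refl x => exact Iff.rfl
    | symm x y _ ih => exact ih.symm
    | trans x y z _ _ ih1 ih2 => exact ih1.trans ih2
  by_contra hcon
  push Not at hcon
  have hc : ∀ c, K.Cor a v c → c = a := by
    intro c hac
    by_contra hne
    exact hcon c hne hac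
  exact hne ((key hc a b h).1 rfl).symm

/-- a neighbour of a vertex with connected link of at least two elements has a corner -/
theorem LC.corner {v a b : V} (h : K.LC v) (ha : K.E v a) (hb : K.E v b) (hne : a ≠ b) :
    ∃ c, c ≠ a ∧ K.Cor a v c :=
  (h a b ha hb).corner hne

/-- a complex with one edge -/
theorem SA_of_leaf (K : GX H V) {x y : V} (e : K.E x y) (hx : ∀ z, K.E x z → z = y)
    (hy : ∀ z, K.E y z → z = x) : SA H := by
  have hall : ∀ z, z = x ∨ z = y := by
    intro z
    have := K.conn x z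
    induction this with
    | refl => exact Or.inl rfl
    | tail _ e' ih =>
      rcases ih with h | h
      · rw [h] at e'
        exact Or.inr (hx _ e')
      · rw [h] at e'
        exact Or.inl (hy _ e')
  have hfix : ∀ h : H, h • x = x := by
    intro h
    rcases hall (h • x) with h1 | h1
    · exact h1
    · exfalso
      rw [← h1] at e
      exact K.E_orb e
  exact SAF.SA.of_stabilizer_top hfix (Pool.Agent.BT.SA_of_InC (K.stab x))

/-- EVERY EDGE LIES IN A CELL -/
theorem edge_corner (K : GX H V) (hLC : ∀ v, K.LC v) (hb : ¬ SA H) {x y : V} (e : K.E x y) :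
    (∃ b, b ≠ y ∧ K.Cor y x b) ∨ ∃ b, b ≠ x ∧ K.Cor x y b := by
  by_cases hx : ∀ z, K.E x z → z = y
  · by_cases hy : ∀ z, K.E y z → z = x
    · exact absurd (K.SA_of_leaf e hx hy) hb
    · push Not at hy
      obtain ⟨z, hz, hne⟩ := hy
      exact Or.inr ((hLC y).corner e.symm hz hne.symm)
  · push Not at hx
    obtain ⟨z, hz, hne⟩ := hx
    exact Or.inl ((hLC x).corner e hz hne.symm)

end GX

end Pool.Agent.DI
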