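import Pool.Agent.DI.K0L
import Pool.Agent.DI.Vis
import Pool.Agent.DI.Opt
import Pool.Agent.DI.TrkC
import Pool.Agent.DI.DTree
import Pool.Agent.BTK.KHat
import Pool.Agent.BT.FlipG

/-!
# DI/Seen: existence of the system of subtrees

`Cd.soft_ell`: in a candidate no vertex with poles is hyperbolic, for any decomposition.
`Cd.exists_sys`: for every decomposition `D` of `C.H` there is a good system: walls and slices are
connected by pentagons (`Conn`), elliptic vertices have finite subtrees, every elliptic sink `z` has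
`J z = {p}` and lies in a pentagon with centre `p` (is seen), hyperbolic sinks have their axis.
-/

namespace Pool.Agent.DI

open MulAction
open Pool.Agent.SAF (InC orbs FinOrb oc Decomp SAn SA Conv exists_next)
open Pool.Agent.BT (PX PQ JS bey exits MinSub Ell mst Hyp Lq mst_conv axis)

section

variable {H V : Type} [Group H] [MulAction H V] {K : GX H V}

/-- the complex with pentagons only as a pentagon complex (more walks are filled) -/
def Pt.px (P : Pt K) : PX H V where
  ar := K.ar
  rk := K.rk
  I := K.I
  finI := K.finI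
  pt := P.pt
  ar_rk := K.ar_rk
  ar_smul := K.ar_smul
  rk_smul := K.rk_smul
  two := K.two
  pt_E := P.E
  ne := K.ne
  conn := K.conn
  H1 := P.pq.H1
  fin := K.fin
  stab := K.stab

theorem Pt.px_pq (P : Pt K) : P.px.pq = P.pq := rfl

theorem Pt.px_A (P : Pt K) : P.px.A = K.area := by
  classical
  have := K.finI
  let ft := Fintype.ofFinite K.I
  rw [P.area_eq, ← Nat.card_eq_fintype_card]
  rfl

variable {P : Pt K}

theorem Pn.px_cor {a q b y z : V} (h : Pn P a q b y z) : P.px.Cor a q b := by
  obtain ⟨g, i, j, ⟨h1, h2, h3, -, -⟩ | ⟨h1, h2, h3, -, -⟩⟩ := h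
  · exact ⟨g, i, j, Or.inl ⟨h1, h2, h3⟩⟩
  · exact ⟨g, i, j, Or.inr ⟨h1, h2, h3⟩⟩

theorem Pn.px_inP {a q b y z : V} (h : Pn P a q b y z) : P.px.InP a q := by
  obtain ⟨g, i, j, ⟨h1, h2, -, -, -⟩ | ⟨-, h2, h3, -, -⟩⟩ := h
  · exact ⟨g, i, j, Or.inl ⟨h1, h2⟩⟩
  · refine ⟨g, i, j + 1, Or.inr ⟨h2, ?_⟩⟩
    rw [h3, add_assoc]
    rfl

theorem px_linkC (hl : ∀ v, K.LC v) : P.px.LinkC := by
  intro x y z hy hz
  have h := hl x y z hy hz
  have hsym : ∀ a b : V, Relation.ReflTransGen (fun a b => P.px.Cor a x b) a b →
      Relation.ReflTransGen (fun a b => P.px.Cor a x b) b a := by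
    intro a b k
    induction k with
    | refl => exact Relation.ReflTransGen.refl
    | tail _ k ih =>
      refine Relation.ReflTransGen.head ?_ ih
      obtain ⟨g, i, j, k⟩ := k
      exact ⟨g, i, j, Or.symm k⟩
  induction h with
  | rel a b h =>
    obtain ⟨y, z, h⟩ := P.cor_iff.1 h
    exact Relation.ReflTransGen.single h.px_cor
  | refl a => exact Relation.ReflTransGen.refl
  | symm a b _ ih => exact hsym _ _ (ih hz hy)
  | trans a b c k1 k2 ih1 ih2 =>
    by_cases hb : K.E x b
    · exact (ih1 hy hb).trans (ih2 hb hz)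
    · exfalso
      have key : ∀ a b, Relation.EqvGen (fun a b => K.Cor a x b) a b → (K.E x a ↔ K.E x b) := by
        intro a b k
        induction k with
        | rel a b k => exact ⟨fun _ => k.E2, fun _ => k.E1⟩
        | refl a => exact Iff.rfl
        | symm a b _ ih => exact ih.symm
        | trans a b c _ _ i1 i2 => exact i1.trans i2
      exact hb ((key _ _ k1).1 hy)

theorem px_allP (hl : ∀ v, K.LC v) (hb : ¬ SA H) : P.px.AllP := by
  intro x y e
  rcases K.edge_corner hl hb e with ⟨b, -, h⟩ | ⟨b, -, h⟩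
  · obtain ⟨y', z', h⟩ := P.cor_iff.1 h
    exact h.px_inP.symm
  · obtain ⟨y', z', h⟩ := P.cor_iff.1 h
    exact h.px_inP

end

namespace Cd

variable (C : Cd)

theorem minSub : MinSub C.H C.P.px.A := by
  intro S V' _ L hS
  rw [Pt.px_A]
  obtain ⟨V3, j3, K3, f, r, hc⟩ := BT.exists_clean L
  have h1 := C.min _ _ (ofClean K3 hc) hS
  rw [ofClean_area] at h1
  exact h1.trans (Red_A r)

theorem allP : C.P.px.AllP := px_allP C.lc C.bad

theorem linkC : C.P.px.LinkC := px_linkC C.lc

/-- NO VERTEX WITH POLES IS HYPERBOLIC -/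
theorem soft_ell (D : Decomp C.H) {x a : C.V} (hA : C.K.ar x a) : Ell C.H D.X x :=
  C.minSub.soft_ell C.bad C.allP D hA

/-- centres of pentagons are not in `C` -/
theorem centre_not_inC {D : Decomp C.H} {J : C.V → Set D.X} (js : JS C.P.pq D J) (i : C.K.I)
    (c : D.X) (h : ∀ k, c ∈ J (C.P.pt i k) ∪ J (C.P.pt i (k + 1))) :
    ¬ InC ↥(stabilizer C.H c) :=
  C.minSub.lemZ' C.bad (K := C.P.px) js i c h

end Cd

/-! ### good systems -/

/-- a walk with the given ends passes a vertex between them -/
theorem walk_between {X X' : Type} {G : SimpleGraph X} {G' : SimpleGraph X'} (hG : G.IsTree)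
    (hG' : G'.IsTree) (f : X' → X) (hf : ∀ a b, G'.Adj a b → G.Adj (f a) (f b)) :
    ∀ (n : ℕ) (a b : X'), G'.dist a b = n → ∀ w, G.dist (f a) w + G.dist w (f b) =
      G.dist (f a) (f b) → ∃ l, f l = w ∧ G'.dist a l + G'.dist l b = G'.dist a b := by
  intro n
  induction n with
  | zero =>
    intro a b hab w hw
    have e : a = b := hG'.connected.dist_eq_zero_iff.1 hab
    subst e
    rw [SimpleGraph.dist_self] at hw
    have h1 : G.dist (f a) w = 0 := by omega
    refine ⟨a, hG.connected.dist_eq_zero_iff.1 h1, ?_⟩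
    rw [SimpleGraph.dist_self]
  | succ n ih =>
    intro a b hab w hw
    have hne : a ≠ b := by
      rintro rfl
      rw [SimpleGraph.dist_self] at hab
      omega
    obtain ⟨c, hc, hd⟩ := exists_next hG' hne
    by_cases hwa : f a = w
    · exact ⟨a, hwa, by rw [SimpleGraph.dist_self, zero_add]⟩
    have hfc := hf _ _ hc
    have hac : G'.dist a c = 1 := SimpleGraph.dist_eq_one_iff_adj.2 hc
    -- `w` is between `f c` and `f b`
    have key : G.dist (f c) w + G.dist w (f b) = G.dist (f c) (f b) := by
      have hfac : G.dist (f a) (f c) = 1 := SimpleGraph.dist_eq_one_iff_adj.2 hfc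
      have t1 : G.dist (f c) (f b) ≤ G.dist (f c) w + G.dist w (f b) := hG.connected.dist_triangle
      obtain ⟨u, hu, hdu⟩ := exists_next hG (Ne.symm (Ne.symm hwa))
      by_cases huc : u = f c
      · have t2 : G.dist (f a) (f b) ≤ G.dist (f a) (f c) + G.dist (f c) (f b) :=
          hG.connected.dist_triangle
        rw [← huc] at t1 t2 hfac ⊢
        omega
      · -- both `w` and `f b` are on the other side of `f a`
        have s1 : G.dist w (f c) = G.dist w (f a) + 1 := by
          rcases hG.dist_eq_dist_add_one_of_adj w hfc with h | h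
          · exfalso
            apply huc
            refine next_unique hG (b := w) hu hfc hdu ?_
            rw [SimpleGraph.dist_comm, h, SimpleGraph.dist_comm]
          · exact h
        have hub : G.dist (f b) (f a) = G.dist (f b) u + 1 := by
          have e1 : G.dist u w + G.dist w (f b) + 1 = G.dist (f a) (f b) := by omega
          have t3 : G.dist u (f b) ≤ G.dist u w + G.dist w (f b) := hG.connected.dist_triangle
          have hau : G.dist (f a) u = 1 := SimpleGraph.dist_eq_one_iff_adj.2 hu
          have t4 : G.dist (f a) (f b) ≤ G.dist (f a) u + G.dist u (f b) :=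
            hG.connected.dist_triangle
          have c1 : G.dist (f b) (f a) = G.dist (f a) (f b) := SimpleGraph.dist_comm
          have c2 : G.dist (f b) u = G.dist u (f b) := SimpleGraph.dist_comm
          omega
        have s2 : G.dist (f b) (f c) = G.dist (f b) (f a) + 1 := by
          rcases hG.dist_eq_dist_add_one_of_adj (f b) hfc with h | h
          · exfalso
            apply huc
            refine next_unique hG (b := f b) hu hfc ?_ ?_
            · rw [SimpleGraph.dist_comm, hub, SimpleGraph.dist_comm]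
            · rw [SimpleGraph.dist_comm, h, SimpleGraph.dist_comm]
          · exact h
        have c1 : G.dist w (f c) = G.dist (f c) w := SimpleGraph.dist_comm
        have c2 : G.dist (f b) (f c) = G.dist (f c) (f b) := SimpleGraph.dist_comm
        have c3 : G.dist w (f a) = G.dist (f a) w := SimpleGraph.dist_comm
        have c4 : G.dist (f b) (f a) = G.dist (f a) (f b) := SimpleGraph.dist_comm
        omega
    obtain ⟨l, hl, hl'⟩ := ih c b (by omega) w key
    refine ⟨l, hl, ?_⟩
    have t1 : G'.dist a l ≤ G'.dist a c + G'.dist c l := hG'.connected.dist_triangle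
    have t2 : G'.dist a b ≤ G'.dist a l + G'.dist l b := hG'.connected.dist_triangle
    omega

namespace Sys

variable {H V : Type} [Group H] [MulAction H V]

/-- a good system -/
structure Gd (S : Sys H V) : Prop where
  conn : S.Conn
  soft : ∀ x a, S.K.ar x a → Ell H S.X x
  fin : ∀ x, Ell H S.X x → (S.J x).Finite
  seen : ∀ z, (∀ a, ¬ S.K.ar z a) → Ell H S.X z → ∃ p b c y y', S.J z = {p} ∧
    Pn S.P b z c y y' ∧ S.Ce p b z c y y'
  ax : ∀ z, (∀ a, ¬ S.K.ar z a) → ¬ Ell H S.X z → S.J z = mst S.D.G (stabilizer H z)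

end Sys

/-- EXISTENCE OF A GOOD SYSTEM -/
theorem Cd.exists_sys (C : Cd) (D : Decomp C.H) :
    ∃ (D' : Decomp C.H) (J' : C.V → Set D'.X) (js : JS C.P.pq D' J'),
      (Sys.mk C.K C.P D' J' js).Gd ∧ ∀ x : C.V, Ell C.H D'.X x → Ell C.H D.X x := by
  classical
  obtain ⟨D1, q, J, hQ, hJ, js, hfin, hell, hseen⟩ := BT.exists_seen_gen (K := C.P.px)
    C.allP C.linkC D (fun js i c h => C.centre_not_inC js i c h)
    (fun D x a ha => C.soft_ell D ha)
  let S1 : Sys C.H C.V := ⟨C.K, C.P, D1, J, js⟩
  obtain ⟨D', J', js', pr, hc, p1, p2, p3, p4, p5⟩ := Sys.exists_conn S1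
  have hpr : ∀ x : C.V, Ell C.H D'.X x → Ell C.H D1.X x := by
    rintro x ⟨c, hc⟩
    exact ⟨pr c, fun g hg => by rw [← p1, hc g hg]⟩
  have hell' : ∀ x : C.V, Ell C.H D1.X x → Ell C.H D'.X x := by
    intro x hx
    by_contra hcon
    -- `J' x` is finite and invariant
    have hf : (J' x).Finite := by
      apply Set.Finite.of_finite_image ((hfin x hx).subset _)
      · intro l hl m hm e
        exact p5 x l hl m hm e
      · rintro _ ⟨l, hl, rfl⟩
        exact p3 x l hl
    have hy : Hyp D'.X (stabilizer C.H x) := by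
      unfold Ell at hcon
      push Not at hcon
      exact hcon
    have h1 : mst D'.G (stabilizer C.H x) ⊆ J' x := by
      intro w hw
      refine hw (J' x) (js'.conv x) (js'.ne x) ?_
      intro g hg c hc
      have := js'.smul g x c hc
      rwa [show g • x = x from hg] at this
    have h2 := axis D'.tact (stabilizer C.H x) (C.K.stab x) hy
    -- a hyperbolic element has an infinite orbit in the finite set
    obtain ⟨w, hw⟩ := h2.2.1
    have hfm : (mst D'.G (stabilizer C.H x)).Finite := hf.subset h1
    -- the stabiliser of `w` in the group has finite index and is finite: then the group is finite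
    have hst : Finite ↥(stabilizer C.H x ⊓ stabilizer C.H w) :=
      BT.finite_of_hyp D'.tact (C.K.stab x) hy inf_le_left (w := w) (fun b hb => hb.2)
    have horb : (MulAction.orbit ↥(stabilizer C.H x) w).Finite := by
      apply hfm.subset
      rintro _ ⟨g, rfl⟩
      intro Cc h1 h2 h3
      exact h3 g.1 g.2 _ (hw Cc h1 h2 h3)
    have hfg : Finite ↥(stabilizer C.H x) := by
      have : Finite (MulAction.orbit ↥(stabilizer C.H x) w) := horb.to_subtype
      have h4 : Finite (↥(stabilizer C.H x) ⧸ stabilizer ↥(stabilizer C.H x) w) :=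
        Finite.of_equiv _ (MulAction.orbitEquivQuotientStabilizer _ w)
      have h5 : Finite ↥(stabilizer ↥(stabilizer C.H x) w) := by
        refine Finite.of_injective (fun g : ↥(stabilizer ↥(stabilizer C.H x) w) =>
          (⟨g.1.1, g.1.2, g.2⟩ : ↥(stabilizer C.H x ⊓ stabilizer C.H w))) ?_
        intro a b e
        have e' := congrArg Subtype.val e
        exact Subtype.ext (Subtype.ext e')
      exact Finite.of_equiv _ (Subgroup.groupEquivQuotientProdSubgroup
        (s := stabilizer ↥(stabilizer C.H x) w)).symm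
    have := D'.tree.connected.nonempty
    obtain ⟨z, hz⟩ := Pool.Agent.SAG.fix_of_finite D'.tact _ hfg
    exact hcon ⟨z, hz⟩
  refine ⟨D', J', js', ⟨hc, ?_, ?_, ?_, ?_⟩, fun x hx => hell x (hpr x hx)⟩
  · intro x a ha
    exact C.soft_ell D' ha
  · intro x hx
    apply Set.Finite.of_finite_image ((hfin x (hpr x hx)).subset _)
    · intro l hl m hm e
      exact p5 x l hl m hm e
    · rintro _ ⟨l, hl, rfl⟩
      exact p3 x l hl
  · intro z hz he
    have he1 := hpr z he
    have hJz : J z = {q z} := by
      rw [hJ.sink z hz]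
      exact if_pos he1
    obtain ⟨h, i, k, e, hk⟩ := hseen z hz he1
    -- the centre in the refined tree
    let S' : Sys C.H C.V := ⟨C.K, C.P, D', J', js'⟩
    obtain ⟨c, hcc⟩ := S'.cen (v := S'.tr h i) (S'.tr_E h i)
    have hc1 : S1.IsC (S1.tr h i) (pr c) := by
      intro k'
      exact (hcc k').imp (p3 _ _) (p3 _ _)
    have hc2 : S1.IsC (S1.tr h i) (q z) := fun k' => hk k'
    have hc3 : pr c = q z := S1.isC_unique (S1.tr_E h i) hc1 hc2
    have hmem : c ∈ J' z := by
      obtain ⟨l, hl, hl'⟩ := p4 z (q z) (by rw [show S1.J z = J z from rfl, hJz]; rfl)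
      rcases hcc k with h4 | h4
      · rw [e]
        exact h4
      · have e5 : C.K.E z (h • C.P.pt i (k + 1)) := by
          rw [e]
          exact C.K.E_smul h (C.P.E i k)
        obtain ⟨p, hp1, hp2⟩ := S'.one_ex e5
        have h8 : pr p = q z := by
          have := p3 _ _ hp1
          rw [show S1.J z = J z from rfl, hJz] at this
          exact this
        have h9 := p5 _ _ h4 _ hp2 (hc3.trans h8.symm)
        rw [h9]
        exact hp1
    refine ⟨c, h • C.P.pt i (k + 4), h • C.P.pt i (k + 1), h • C.P.pt i (k + 2),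
      h • C.P.pt i (k + 3), ?_, ?_, ?_⟩
    · ext l
      constructor
      · intro hl
        have h5 := p3 _ _ hl
        rw [show S1.J z = J z from rfl, hJz, Set.mem_singleton_iff] at h5
        exact p5 _ _ hl _ hmem (h5.trans hc3.symm)
      · rintro rfl
        exact hmem
    · have h6 := Pn_pt (P := C.P) h i (k + 4)
      have e1 : k + 4 + 1 = k := f41 k
      have e2 : k + 4 + 2 = k + 1 := by rw [add_assoc]; rfl
      have e3 : k + 4 + 3 = k + 2 := by rw [add_assoc]; rfl
      have e4 : k + 4 + 4 = k + 3 := by rw [add_assoc]; rfl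
      rw [e1, e2, e3, e4] at h6
      have e' : h • C.P.pt i k = z := e.symm
      rw [e'] at h6
      exact h6
    · have h7 := (Sys.ce_tr (S := S') (k + 4)).1 hcc
      have e1 : k + 4 + 1 = k := f41 k
      have e2 : k + 4 + 2 = k + 1 := by rw [add_assoc]; rfl
      have e3 : k + 4 + 3 = k + 2 := by rw [add_assoc]; rfl
      have e4 : k + 4 + 4 = k + 3 := by rw [add_assoc]; rfl
      rw [e1, e2, e3, e4] at h7
      have e' : S'.tr h i k = z := e.symm
      rw [e'] at h7
      exact h7
  · intro z hz he
    have he1 : ¬ Ell C.H D1.X z := fun h => he (hell' z h)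
    have hJz : J z = mst D1.G (stabilizer C.H z) := by
      rw [hJ.sink z hz]
      exact if_neg he1
    have hy : Hyp D'.X (stabilizer C.H z) := by
      unfold Ell at he
      push Not at he
      exact he
    have h1 : mst D'.G (stabilizer C.H z) ⊆ J' z := by
      intro w hw
      refine hw (J' z) (js'.conv z) (js'.ne z) ?_
      intro g hg c hc
      have := js'.smul g z c hc
      rwa [show g • z = z from hg] at this
    have h2 := axis D'.tact (stabilizer C.H z) (C.K.stab z) hy
    -- the image of the axis is convex and invariant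
    have h3 : mst D1.G (stabilizer C.H z) ⊆ pr '' (mst D'.G (stabilizer C.H z)) := by
      intro w hw
      refine hw _ ?_ ?_ ?_
      · rintro _ ⟨a, ha, rfl⟩ _ ⟨b, hb, rfl⟩ w hw
        obtain ⟨l, hl, hl'⟩ := walk_between D1.tree D'.tree pr (fun a b h => p2 a b h) _ a b rfl
          w hw
        exact ⟨l, h2.1 a ha b hb l hl', hl⟩
      · obtain ⟨w, hw⟩ := h2.2.1
        exact ⟨_, w, hw, rfl⟩
      · rintro g hg _ ⟨a, ha, rfl⟩
        refine ⟨g • a, ?_, p1 g a⟩
        intro Cc k1 k2 k3
        exact k3 g hg _ (ha Cc k1 k2 k3)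
    apply Set.Subset.antisymm _ h1
    intro l hl
    have h4 : pr l ∈ mst D1.G (stabilizer C.H z) := by
      rw [← hJz]
      exact p3 z l hl
    obtain ⟨m, hm, e⟩ := h3 h4
    rw [← p5 z m (h1 hm) l hl e]
    exact hm

end Pool.Agent.DI
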