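import Pool.Agent.DI.OECol
import Pool.Agent.DI.Seen

/-!
# DI/OESysA: the image of a system of subtrees under a collapse

`js_col`: the sets `c '' J x` satisfy the axioms `JS`. `mst_image`: images of axes.
-/

namespace Pool.Agent.DI

open MulAction
open Pool.Agent.SAF (InC orbs FinOrb oc Decomp SAn SA Conv exists_cut exists_next FinOrb_iff TAct)
open Pool.Agent.BT (PX PQ JS bey exits MinSub Ell mst Hyp Lq mst_conv axis bey_irr_l
  x_next_unique conv_tri_q)
open Pool.Agent.BT.TA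

/-! ### axes -/

section

variable {H : Type} [Group H] {X' X : Type} [MulAction H X'] [MulAction H X]
  {G' : SimpleGraph X'} {G : SimpleGraph X} {c : X' → X}

theorem mst_inv1 {A : Subgroup H} {a : H} (ha : a ∈ A) {w : X'}
    (hw : w ∈ mst G' A) : a • w ∈ mst G' A := by
  intro C h1 h2 h3
  exact h3 a ha _ (hw C h1 h2 h3)

/-- images of minimal subtrees -/
theorem TMap.mst_image (T : TMap G' G c) (hc : ∀ (h : H) a, c (h • a) = h • c a)
    {A : Subgroup H} (h1 : (mst G' A).Nonempty) (h2 : (mst G A).Nonempty) :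
    c '' mst G' A = mst G A := by
  apply Set.Subset.antisymm
  · rintro _ ⟨w, hw, rfl⟩
    have := hw (c ⁻¹' mst G A) (T.conv_preimage (mst_conv A)) ?_ ?_
    · exact this
    · obtain ⟨x, hx⟩ := h2
      obtain ⟨a, rfl⟩ := T.surj x
      exact ⟨a, hx⟩
    · intro a ha x hx C k1 k2 k3
      show c (a • x) ∈ C
      rw [hc]
      exact k3 a ha _ (hx C k1 k2 k3)
  · intro w hw
    refine hw _ (T.conv_image (mst_conv A)) (h1.image c) ?_
    rintro a ha _ ⟨x, hx, rfl⟩
    exact ⟨a • x, mst_inv1 ha hx, hc a x⟩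

/-- an axis in the fibre of a fixed vertex -/
theorem TMap.mst_fibre (T : TMap G' G c) (hc : ∀ (h : H) a, c (h • a) = h • c a)
    {A : Subgroup H} {x : X} (hx : ∀ a ∈ A, a • x = x) {w : X'} (hw : w ∈ mst G' A) : c w = x := by
  have := hw (c ⁻¹' {x}) (T.conv_fibre x) ?_ ?_
  · exact this
  · obtain ⟨a, ha⟩ := T.surj x
    exact ⟨a, ha⟩
  · intro a ha y hy
    show c (a • y) = x
    rw [hc, show c y = x from hy, hx a ha]

end

section

variable {H V : Type} [Group H] [MulAction H V]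

theorem ell_of_map {D' D : Decomp H} {c : D'.X → D.X} (hc : ∀ (h : H) a, c (h • a) = h • c a)
    {x : V} (h : Ell H D'.X x) : Ell H D.X x := by
  obtain ⟨w, hw⟩ := h
  exact ⟨c w, fun g hg => by rw [← hc, hw g hg]⟩

variable (S : Sys H V)

/-- sinks have points or axes -/
def Sys.SinkOK : Prop := ∀ z, (∀ a, ¬ S.K.ar z a) → (∃ p, S.J z = {p}) ∨
  (Hyp S.X (stabilizer H z) ∧ S.J z = mst S.D.G (stabilizer H z))

variable {S}

theorem Sys.Gd.sinkOK (hg : S.Gd) : S.SinkOK := by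
  intro z hz
  by_cases he : Ell H S.X z
  · obtain ⟨p, b, c, y, y', h, -⟩ := hg.seen z hz he
    exact Or.inl ⟨p, h⟩
  · right
    refine ⟨?_, hg.ax z hz he⟩
    unfold Ell at he
    push Not at he
    exact he

/-- THE IMAGE OF A SYSTEM -/
theorem js_col (hs : S.SinkOK) {D1 : Decomp H} {c : S.X → D1.X} (T : TMap S.D.G D1.G c)
    (hc : ∀ (h : H) a, c (h • a) = h • c a) : JS S.P.pq D1 (fun x => c '' S.J x) := by
  have hcross : ∀ x, (∃ a, S.K.ar x a) → ∀ w w', D1.G.Adj w w' → w ∈ c '' S.J x →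
      w' ∈ c '' S.J x → ∃ a, S.K.ar x a ∧ c '' S.J a ⊆ bey D1.G w w' := by
    intro x hx w w' hww h1 h2
    obtain ⟨α, β, rfl, rfl, hab⟩ := T.lift w w' hww
    obtain ⟨k1, k2⟩ := T.mem_lift' (S.js.conv x) hab hww.ne h1 h2
    obtain ⟨a, ha, hs⟩ := S.js.cross x hx α β hab k1 k2
    refine ⟨a, ha, ?_⟩
    rintro _ ⟨z, hz, rfl⟩
    exact (T.bey_iff hab hww.ne z).1 (hs hz)
  refine
    { conv := fun x => T.conv_image (S.js.conv x)
      ne := fun x => (S.js.ne x).image c
      smul := ?_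
      one := ?_
      two := ?_
      cross := hcross
      fin := ?_ }
  · rintro h x _ ⟨w, hw, rfl⟩
    exact ⟨h • w, S.js.smul h x w hw, hc h w⟩
  · intro x y e
    obtain ⟨p, hp⟩ := S.js.one x y e
    have hpx : p ∈ S.J x ∩ S.J y := by rw [hp]; rfl
    refine ⟨c p, ?_⟩
    apply Set.Subset.antisymm
    · rintro ξ ⟨⟨a, ha, ea⟩, ⟨b, hb, eb⟩⟩
      by_contra hne
      have hne' : c p ≠ ξ := fun k => hne k.symm
      obtain ⟨y', hy', hd⟩ := exists_next D1.tree hne'
      obtain ⟨α, β, h1, rfl, hab⟩ := T.lift _ _ hy'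
      have hn : c α ≠ c β := by
        rw [h1]
        exact hy'.ne
      have hξ : ξ ∈ bey D1.G (c α) (c β) := by
        rw [h1]
        show D1.G.dist ξ (c p) = D1.G.dist ξ (c β) + 1
        rw [SimpleGraph.dist_comm, hd, SimpleGraph.dist_comm]
      have hpp : c p ∈ bey D1.G (c β) (c α) := by
        rw [← h1]
        exact bey_self (T.adj' hab hn).symm
      have k1 := T.mem_lift (S.js.conv x) hab hn ⟨p, hpx.1, hpp⟩ ⟨a, ha, by rw [ea]; exact hξ⟩
      have k2 := T.mem_lift (S.js.conv y) hab hn ⟨p, hpx.2, hpp⟩ ⟨b, hb, by rw [eb]; exact hξ⟩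
      have m1 : α ∈ S.J x ∩ S.J y := ⟨k1.1, k2.1⟩
      have m2 : β ∈ S.J x ∩ S.J y := ⟨k1.2, k2.2⟩
      rw [hp, Set.mem_singleton_iff] at m1 m2
      exact hab.ne (m1.trans m2.symm)
    · rintro _ rfl
      exact ⟨⟨p, hpx.1, rfl⟩, ⟨p, hpx.2, rfl⟩⟩
  · intro x w hw s hs1 t ht u hu
    by_cases hx : ∃ a, S.K.ar x a
    · -- every exit belongs to a pole
      have key : ∀ s ∈ exits S.P.pq D1.G (fun x => c '' S.J x) x w, ∃ a, S.K.ar x a ∧
          ((s = Sum.inl a ∧ w ∈ c '' S.J a) ∨ ∃ w', s = Sum.inr w' ∧ D1.G.Adj w w' ∧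
            c '' S.J a ⊆ bey D1.G w w') := by
        rintro s (⟨a, rfl, ha, hwa⟩ | ⟨w', rfl, hww, hw'⟩)
        · exact ⟨a, ha, Or.inl ⟨rfl, hwa⟩⟩
        · obtain ⟨a, ha, hsub⟩ := hcross x hx w w' hww hw hw'
          exact ⟨a, ha, Or.inr ⟨w', rfl, hww, hsub⟩⟩
      have inj : ∀ s s' a, ((s = Sum.inl a ∧ w ∈ c '' S.J a) ∨ ∃ w', s = Sum.inr w' ∧
            D1.G.Adj w w' ∧ c '' S.J a ⊆ bey D1.G w w') →
          ((s' = Sum.inl a ∧ w ∈ c '' S.J a) ∨ ∃ w', s' = Sum.inr w' ∧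
            D1.G.Adj w w' ∧ c '' S.J a ⊆ bey D1.G w w') → s = s' := by
        rintro s s' a (⟨rfl, h1⟩ | ⟨w1, rfl, h1, h2⟩) (⟨rfl, h3⟩ | ⟨w2, rfl, h3, h4⟩)
        · rfl
        · exact absurd (h4 h1) bey_irr_l
        · exact absurd (h2 h3) bey_irr_l
        · obtain ⟨z, hz⟩ := (S.js.ne a).image c
          rw [x_next_unique D1.tree h1 h3 (h2 hz) (h4 hz)]
      obtain ⟨a, ha, ka⟩ := key s hs1
      obtain ⟨b, hb, kb⟩ := key t ht
      obtain ⟨d, hd, kd⟩ := key u hu
      rcases S.K.two x a b d ha hb hd with rfl | rfl | rfl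
      · exact Or.inl (inj _ _ _ ka kb)
      · exact Or.inr (Or.inr (inj _ _ _ kb kd))
      · exact Or.inr (Or.inl (inj _ _ _ ka kd))
    · push Not at hx
      -- exits are edges
      have ed : ∀ s ∈ exits S.P.pq D1.G (fun x => c '' S.J x) x w, ∃ w', s = Sum.inr w' ∧
          D1.G.Adj w w' ∧ w' ∈ c '' S.J x := by
        rintro s (⟨a, rfl, ha, -⟩ | ⟨w', rfl, hww, hw'⟩)
        · exact absurd ha (hx a)
        · exact ⟨w', rfl, hww, hw'⟩
      obtain ⟨a, rfl, ha, ha'⟩ := ed s hs1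
      obtain ⟨b, rfl, hb, hb'⟩ := ed t ht
      obtain ⟨d, rfl, hd, hd'⟩ := ed u hu
      rcases hs x hx with ⟨p, hp⟩ | ⟨hy, hm⟩
      · exfalso
        change w ∈ c '' S.J x at hw
        rw [hp, Set.image_singleton, Set.mem_singleton_iff] at hw ha'
        exact ha.ne (hw.trans ha'.symm)
      · by_cases he : Hyp D1.X (stabilizer H x)
        · have e1 := T.mst_image hc (axis S.D.tact _ (S.K.stab x) hy).2.1
            (axis D1.tact _ (S.K.stab x) he).2.1
          change w ∈ c '' S.J x at hw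
          rw [hm, e1] at hw ha' hb' hd'
          have h3 := (axis D1.tact _ (S.K.stab x) he).2.2.1 w hw a b d ha hb hd ha' hb' hd'
          rcases h3 with e | e | e
          · exact Or.inl (by rw [e])
          · exact Or.inr (Or.inl (by rw [e]))
          · exact Or.inr (Or.inr (by rw [e]))
        · exfalso
          unfold Hyp at he
          push Not at he
          obtain ⟨ξ, hξ⟩ := he
          change w ∈ c '' S.J x at hw
          rw [hm] at hw ha'
          obtain ⟨α, hα, e1⟩ := hw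
          obtain ⟨β, hβ, e2⟩ := ha'
          have k1 := T.mst_fibre hc hξ hα
          have k2 := T.mst_fibre hc hξ hβ
          exact ha.ne (e1.symm.trans (k1.trans (k2.symm.trans e2)))
  · apply S.js.fin.image (fun p => (p.1, c p.2))
    · rintro ⟨v, l⟩ ⟨w, hw, e⟩
      refine ⟨(v, w), hw, 1, ?_⟩
      rw [one_smul]
      exact Prod.ext rfl e
    · rintro a _ b _ ⟨h, rfl⟩
      refine ⟨h, ?_⟩
      exact Prod.ext rfl (hc h a.2).symm

end

end Pool.Agent.DI
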