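import Pool.Agent.DI.OQRel
import Pool.Agent.DI.QTrkC
import Pool.Agent.DI.QK0b
import Pool.Agent.DI.Seen

/-!
# DI/OQConn: what the refinement `S.next` (QTrkC) does to points, axes and centres

`next_ell`: elliptic vertices stay elliptic. `next_pt`: points stay points. `next_cen`: centres of
pentagons lift. `next_ax`: axes stay axes. `pr_inj`: over a connected slice there is one vertex.
-/

namespace Pool.Agent.DI

open MulAction
open Pool.Agent.SAF (InC orbs FinOrb oc Decomp SAn SA Conv exists_cut exists_next FinOrb_iff TAct)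
open Pool.Agent.BT (PX PQ JS bey exits MinSub Ell mst Hyp Lq mst_conv axis bey_irr_l
  x_next_unique conv_tri_q)
open Pool.Agent.BT.TA

namespace SyQ

variable {H V : Type} [Group H] [MulAction H V] (S : SyQ H V)

theorem ls_of_sr {w : S.X} {x z : V} (k : Relation.EqvGen (S.SR w) x z) :
    (∀ hx : w ∈ S.J x, ∃ hz : w ∈ S.J z, Relation.EqvGen S.lr ⟨(x, w), hx⟩ ⟨(z, w), hz⟩) ∧
      (∀ hz : w ∈ S.J z, ∃ hx : w ∈ S.J x, Relation.EqvGen S.lr ⟨(x, w), hx⟩ ⟨(z, w), hz⟩) := by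
  induction k with
  | rel x z k =>
    exact ⟨fun hx => ⟨(SR.mem S k).2, Relation.EqvGen.rel _ _ ⟨rfl, k⟩⟩,
      fun hz => ⟨(SR.mem S k).1, Relation.EqvGen.rel _ _ ⟨rfl, k⟩⟩⟩
  | refl x => exact ⟨fun hx => ⟨hx, Relation.EqvGen.refl _⟩, fun hx => ⟨hx, Relation.EqvGen.refl _⟩⟩
  | symm x z _ ih =>
    exact ⟨fun hx => ⟨(ih.2 hx).1, (ih.2 hx).2.symm⟩, fun hx => ⟨(ih.1 hx).1, (ih.1 hx).2.symm⟩⟩
  | trans x y z _ _ i1 i2 =>
    constructor
    · intro hx
      obtain ⟨hy, k1⟩ := i1.1 hx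
      obtain ⟨hz, k2⟩ := i2.1 hy
      exact ⟨hz, k1.trans _ _ _ k2⟩
    · intro hz
      obtain ⟨hy, k2⟩ := i2.2 hz
      obtain ⟨hx, k1⟩ := i1.2 hy
      exact ⟨hx, k1.trans _ _ _ k2⟩

/-- over a connected slice there is one vertex -/
theorem pr_inj {w : S.X} (hw : ∀ x z, w ∈ S.J x → w ∈ S.J z → Relation.EqvGen (S.SR w) x z)
    {l m : S.LV} (hl : S.pr l = w) (hm : S.pr m = w) : l = m := by
  obtain ⟨⟨⟨x, w1⟩, h1⟩, rfl⟩ := Quotient.exists_rep l
  obtain ⟨⟨⟨z, w2⟩, h2⟩, rfl⟩ := Quotient.exists_rep m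
  have e1 : w1 = w := hl
  have e2 : w2 = w := hm
  subst e1
  subst e2
  obtain ⟨hz, k⟩ := (S.ls_of_sr (hw x z h1 h2)).1 h1
  exact Quotient.sound k

theorem next_ell_of {x : V} (h : Ell H S.next.X x) : Ell H S.X x := by
  obtain ⟨c, hc⟩ := h
  exact ⟨S.pr c, fun g hg => by
    rw [← S.pr_smul]
    exact congrArg S.pr (hc g hg)⟩

/-- elliptic vertices with finite subtrees stay elliptic -/
theorem next_ell {x : V} (hx : (S.J x).Finite) : Ell H S.next.X x := by
  have hf : (S.next.J x).Finite := by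
    apply Set.Finite.of_finite_image (hx.subset _)
    · intro l hl m hm e
      exact S.J'_inj (x := x) hl hm e
    · rintro _ ⟨l, hl, rfl⟩
      exact S.J'_pr hl
  obtain ⟨l, hl⟩ := S.next.js.ne x
  obtain ⟨w, hw⟩ := Pool.Agent.SAG.fix_of_finite_orbit S.next.D.tact (stabilizer H x) l
    (hf.subset (by
      rintro _ ⟨a, ha, rfl⟩
      have := S.next.js.smul a x l hl
      rwa [show a • x = x from ha] at this))
  exact ⟨w, hw⟩

/-- points stay points -/
theorem next_pt {x : V} {p : S.X} (hx : S.J x = {p}) : ∃ l, S.next.J x = {l} ∧ S.pr l = p := by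
  obtain ⟨l, hl⟩ := S.next.js.ne x
  have h1 : ∀ m ∈ S.next.J x, S.pr m = p := by
    intro m hm
    have := S.J'_pr (x := x) hm
    rwa [hx] at this
  refine ⟨l, ?_, h1 l hl⟩
  apply Set.Subset.antisymm
  · intro m hm
    exact S.J'_inj (x := x) hm hl ((h1 m hm).trans (h1 l hl).symm)
  · rintro _ rfl
    exact hl

/-- centres lift -/
theorem next_cen {v : Fin 5 → V} (hv : ∀ k, S.K.E (v k) (v (k + 1))) {p : S.X}
    (hp : S.IsC v p) : ∃ l : S.next.X, S.pr l = p ∧ S.next.IsC v l ∧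
      ∀ k, S.J (v k) = {p} → S.next.J (v k) = {l} := by
  obtain ⟨l, hl⟩ := S.next.cen hv
  have h1 : S.IsC v (S.pr l) := fun k => (hl k).imp S.J'_pr S.J'_pr
  have h2 : S.pr l = p := S.isC_unique hv h1 hp
  refine ⟨l, h2, hl, fun k hk => ?_⟩
  obtain ⟨m, hm, e⟩ := S.next_pt hk
  have hmk : m ∈ S.next.J (v k) := by rw [hm]; exact rfl
  rcases hl k with h | h
  · rw [hm] at h ⊢
    rw [Set.mem_singleton_iff.1 h]
  · obtain ⟨r, hr1, hr2⟩ := S.next.one_ex (hv k)
    have h3 : S.pr r = p := by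
      have := S.J'_pr (x := v k) hr1
      rwa [hk] at this
    have h4 : r = l := S.J'_inj (x := v (k + 1)) hr2 h (h3.trans h2.symm)
    rw [hm] at hr1 ⊢
    rw [← h4, Set.mem_singleton_iff.1 hr1]

/-- axes stay axes -/
theorem next_ax {z : V} (hJz : S.J z = mst S.D.G (stabilizer H z))
    (he : ¬ Ell H S.next.X z) : S.next.J z = mst S.next.D.G (stabilizer H z) := by
  have hy : Hyp S.next.X (stabilizer H z) := hyp_of_not_ell he
  have h1 : mst S.next.D.G (stabilizer H z) ⊆ S.next.J z := by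
    intro w hw
    refine hw (S.next.J z) (S.next.js.conv z) (S.next.js.ne z) ?_
    intro g hg c hc
    have := S.next.js.smul g z c hc
    rwa [show g • z = z from hg] at this
  have h2 := axis S.next.D.tact (stabilizer H z) (S.K.stab z) hy
  have h3 : mst S.D.G (stabilizer H z) ⊆ S.pr '' (mst S.next.D.G (stabilizer H z)) := by
    intro w hw
    refine hw _ ?_ ?_ ?_
    · rintro _ ⟨a, ha, rfl⟩ _ ⟨b, hb, rfl⟩ w hw
      obtain ⟨l, hl, hl'⟩ := walk_between S.D.tree S.next.D.tree S.pr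
        (fun a b h => (h : S.LAdj a b).1) _ a b rfl w hw
      exact ⟨l, h2.1 a ha b hb l hl', hl⟩
    · obtain ⟨w, hw⟩ := h2.2.1
      exact ⟨_, w, hw, rfl⟩
    · rintro g hg _ ⟨a, ha, rfl⟩
      refine ⟨g • a, ?_, S.pr_smul g a⟩
      intro Cc k1 k2 k3
      exact k3 g hg _ (ha Cc k1 k2 k3)
  apply Set.Subset.antisymm _ h1
  intro l hl
  have h4 : S.pr l ∈ mst S.D.G (stabilizer H z) := by
    rw [← hJz]
    exact S.J'_pr (x := z) hl
  obtain ⟨m, hm, e⟩ := h3 h4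
  rw [← S.J'_inj (x := z) (h1 hm) hl e]
  exact hm

end SyQ

end Pool.Agent.DI
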