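import Pool.Agent.DI.OSt0

/-!
# DI/OSt: every piece of a vertex has a corner at every pole

Static, for a minimal complex of pentagons and squares in the static class (`P.SqT`) with connected
links in which every arrow of a top has a strand. `SqT.os`: `n → v → b`, then there is `k → v` in the
piece of `n` (pages, corners of pentagons and squares) with a corner `k, v, b`. `SqT.no_one`: there is
no vertex with only one pole. Proof in the fold `K_r` of all tops of rank `> r = rk v`: there `v` is the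
top of all squares at `v`. `P.Rep v v' m x`: the neighbour `m` of `v'` has the colour `x`, a neighbour
of `v`.
-/

namespace Pool.Agent.DI

open MulAction
open Pool.Agent.SAF (InC SA orbs FinOrb oc Decomp)

namespace P45

variable {H V : Type} [Group H] [MulAction H V] {K : GX H V} (P : P45 K)

/-- the neighbour `m` of `v'` has the colour `x` at `v` -/
inductive Rep (v : V) : V → V → V → Prop
  | base {m : V} : K.E v m → Rep v v m m
  | side {T s s' o x : V} : P.Top T s s' o → Rep v o s x → Rep v T s x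
  | page {T s s' o m x : V} : P.Top T s s' o → K.ar s o → K.ar m T → Rep v o s x → Rep v T m x

/-- the piece of `x` touches the pole `y` -/
def Tch (K : GX H V) (v x y : V) : Prop := ∃ k, K.PC v x k ∧ K.ar k v ∧ K.Cor k v y

/-- compatible colours -/
def Cp (K : GX H V) (v x y : V) : Prop := K.PC v x y ∨ (K.ar v y ∧ Tch K v x y) ∨
  (K.ar v x ∧ Tch K v y x) ∨ (K.ar v x ∧ K.ar v y)

variable {P}

theorem Tch.congr {v x x' y : V} (h : K.PC v x x') (k : Tch K v x y) : Tch K v x' y := by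
  obtain ⟨z, h1, h2, h3⟩ := k
  exact ⟨z, (h.symm).trans _ _ _ h1, h2, h3⟩

theorem Tch.smul (g : H) {v x y : V} (k : Tch K v x y) : Tch K (g • v) (g • x) (g • y) := by
  obtain ⟨z, h1, h2, h3⟩ := k
  exact ⟨g • z, h1.smul g, K.ar_smul g _ _ h2, h3.smul g⟩

theorem ar_asym {c d : V} (h1 : K.ar c d) (h2 : K.ar d c) : False :=
  absurd ((K.ar_rk _ _ h1).trans (K.ar_rk _ _ h2)) (lt_irrefl _)

/-- a corner gives compatible colours -/
theorem cp_cor {v x y : V} (h : K.Cor x v y) : Cp K v x y := by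
  rcases h.E1 with h1 | h1
  · rcases h.E2 with h2 | h2
    · exact Or.inr (Or.inr (Or.inr ⟨h1, h2⟩))
    · exact Or.inr (Or.inr (Or.inl ⟨h1, y, Relation.EqvGen.refl _, h2, h.symm⟩))
  · rcases h.E2 with h2 | h2
    · exact Or.inr (Or.inl ⟨h2, x, Relation.EqvGen.refl _, h1, h⟩)
    · exact Or.inl (Relation.EqvGen.rel _ _ ⟨h1, h2, h⟩)

theorem Cp.page {v x y : V} (h : Cp K v x y) (hx : K.ar x v) (hy : K.ar y v) : K.PC v x y := by
  rcases h with h | h | h | h
  · exact h
  · exact (ar_asym h.1 hy).elim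
  · exact (ar_asym h.1 hx).elim
  · exact (ar_asym h.1 hx).elim

namespace Rep

variable {v v' m x : V}

theorem E (h : P.Rep v v' m x) : K.E v x := by
  induction h with
  | base h => exact h
  | side _ _ ih => exact ih
  | page _ _ _ _ ih => exact ih

theorem E' (h : P.Rep v v' m x) : K.E v' m := by
  cases h with
  | base h => exact h
  | side h _ => exact Or.inl h.2.1
  | page _ _ h _ => exact Or.inr h

theorem smul (g : H) (h : P.Rep v v' m x) : P.Rep (g • v) (g • v') (g • m) (g • x) := by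
  induction h with
  | base h => exact .base (K.E_smul g h)
  | side h _ ih => exact .side (h.smul g) ih
  | page h h1 h2 _ ih => exact .page (h.smul g) (K.ar_smul g _ _ h1) (K.ar_smul g _ _ h2) ih

/-- pages have the colour of a page -/
theorem pg (h : P.Rep v v' m x) (hm : K.ar m v') : K.ar x v := by
  induction h with
  | base h => exact hm
  | side h _ ih => exact (ar_asym h.2.1 hm).elim
  | page h h1 h2 _ ih => exact ih h1

/-- poles have the colour of a pole or of a page -/
theorem pl (h : P.Rep v v' m x) (hx : K.ar v x) : K.ar v' m := by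
  rcases h.E' with k | k
  · exact k
  · exact (ar_asym hx (h.pg k)).elim

end Rep

namespace SqT

variable (hT : P.SqT)

include hT

theorem rep_rk {v v' m x : V} (h : P.Rep v v' m x) : (v' = v ∧ m = x) ∨ K.rk v < K.rk v' := by
  induction h with
  | base h => exact Or.inl ⟨rfl, rfl⟩
  | side h _ ih =>
    right
    have := hT.rk_lt h
    rcases ih with ⟨rfl, -⟩ | ih
    · exact this
    · exact ih.trans this
  | page h _ _ _ ih =>
    right
    have := hT.rk_lt h
    rcases ih with ⟨rfl, -⟩ | ih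
    · exact this
    · exact ih.trans this

theorem rep_base {v m x : V} (h : P.Rep v v m x) : m = x := by
  rcases hT.rep_rk h with h | h
  · exact h.2
  · exact absurd h (lt_irrefl _)

/-- the colour of a neighbour of a top comes from a side -/
theorem rep_top {v T m x : V} (h : P.Rep v T m x) (hne : T ≠ v) : ∃ s s' o, P.Top T s s' o ∧
    P.Rep v o s x ∧ (m = s ∨ (K.ar s o ∧ K.ar m T)) := by
  cases h with
  | base h => exact absurd rfl hne
  | side h k => exact ⟨_, _, _, h, k, Or.inl rfl⟩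
  | page h h1 h2 k => exact ⟨_, _, _, h, k, Or.inr ⟨h1, h2⟩⟩

/-- COLOURS ARE UNIQUE, corners have compatible colours -/
theorem rep_main (v : V) : ∀ v' : V,
    (∀ m x x', P.Rep v v' m x → P.Rep v v' m x' → K.PC v x x') ∧
    (∀ m m' x x', P.Rep v v' m x → P.Rep v v' m' x' → K.Cor m v' m' → Cp K v x x') := by
  intro v'
  induction hn : K.rk v' using Nat.strong_induction_on generalizing v' with
  | _ n ih =>
    by_cases hv : v' = v
    · subst hv
      refine ⟨fun m x x' h h' => ?_, fun m m' x x' h h' hc => ?_⟩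
      · rw [← hT.rep_base h, ← hT.rep_base h']
        exact Relation.EqvGen.refl _
      · rw [← hT.rep_base h, ← hT.rep_base h']
        exact cp_cor hc
    · have step : ∀ {x x' s s' o t t' o' : V}, P.Top v' s s' o → P.Rep v o s x →
          P.Top v' t t' o' → P.Rep v o' t x' → (s = t ∧ K.PC v x x') ∨
          (s ≠ t ∧ K.Cor s o t ∧ o = o' ∧ Cp K v x x') := by
        intro x x' s s' o t t' o' h1 h2 h3 h4
        have e : o = o' := hT.partner h1 h3
        subst e
        have hr := hT.rk_lt h1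
        obtain ⟨i1, i2⟩ := ih _ (by omega) o rfl
        by_cases hst : s = t
        · subst hst
          exact Or.inl ⟨rfl, i1 _ _ _ h2 h4⟩
        · have e : t = s' := (hT.sides h1 h3.2.1).resolve_left (fun e => hst e.symm)
          subst e
          have hc : K.Cor s o t := P.cor_iff.2 (Or.inr ⟨v', h1.1.rot.rot.symm⟩)
          exact Or.inr ⟨hst, hc, rfl, i2 _ _ _ _ h2 h4 hc⟩
      refine ⟨fun m x x' h h' => ?_, fun m m' x x' h h' hc => ?_⟩
      · obtain ⟨s, s', o, h1, h2, h3⟩ := hT.rep_top h hv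
        obtain ⟨t, t', o', k1, k2, k3⟩ := hT.rep_top h' hv
        rcases step h1 h2 k1 k2 with ⟨-, h⟩ | ⟨hne, -, e, hcp⟩
        · exact h
        · subst e
          rcases h3 with rfl | ⟨h3, h4⟩
          · rcases k3 with rfl | ⟨k3, k4⟩
            · exact absurd rfl hne
            · exact (ar_asym h1.2.1 k4).elim
          · rcases k3 with rfl | ⟨k3, k4⟩
            · exact (ar_asym k1.2.1 h4).elim
            · exact hcp.page (h2.pg h3) (k2.pg k3)
      · obtain ⟨s, s', o, h1, h2, -⟩ := hT.rep_top h hv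
        obtain ⟨t, t', o', k1, k2, -⟩ := hT.rep_top h' hv
        rcases step h1 h2 k1 k2 with ⟨-, h⟩ | ⟨-, -, -, hcp⟩
        · exact Or.inl h
        · exact hcp

theorem rep_uniq {v v' m x x' : V} (h : P.Rep v v' m x) (h' : P.Rep v v' m x') : K.PC v x x' :=
  (hT.rep_main v v').1 _ _ _ h h'

theorem rep_cor {v v' m m' x x' : V} (h : P.Rep v v' m x) (h' : P.Rep v v' m' x')
    (hc : K.Cor m v' m') : Cp K v x x' :=
  (hT.rep_main v v').2 _ _ _ _ h h' hc

/-! ### images -/

theorem fr_Z {r : ℕ} {v : V} : (hT.fr r).Z v ↔ (∃ a b y, P.Top v a b y) ∧ r < K.rk v := Iff.rfl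

theorem fr_g {r : ℕ} {T a b y : V} (h : P.Top T a b y) (hr : r < K.rk T) :
    (hT.fr r).g T = (hT.fr r).g y := congrArg Subtype.val (hT.fr_f h hr)

/-- every neighbour of a vertex over `v` has a colour -/
theorem rep_ex {r : ℕ} {v : V} : ∀ {v' m : V}, (hT.fr r).g v' = v → K.E v' m →
    ∃ x, P.Rep v v' m x := by
  intro v' m
  induction hn : K.rk v' using Nat.strong_induction_on generalizing v' m with
  | _ n ih =>
    intro hg he
    by_cases hz : (hT.fr r).Z v'
    · obtain ⟨⟨a, b, y, h⟩, hr⟩ := hz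
      have hlt := hT.rk_lt h
      have hgy : (hT.fr r).g y = v := by rw [← hT.fr_g h hr, hg]
      rcases he with k | k
      · rcases hT.sides h k with rfl | rfl
        · obtain ⟨x, hx⟩ := ih _ (by omega) rfl hgy h.Ea.symm
          exact ⟨x, .side h hx⟩
        · obtain ⟨x, hx⟩ := ih _ (by omega) rfl hgy h.Eb.symm
          exact ⟨x, .side h.symm' hx⟩
      · rcases (hT.side _ _ _ _ h).resolve_left id with h1 | h1
        · obtain ⟨x, hx⟩ := ih _ (by omega) rfl hgy h.Ea.symm
          exact ⟨x, .page h h1 k hx⟩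
        · obtain ⟨x, hx⟩ := ih _ (by omega) rfl hgy h.Eb.symm
          exact ⟨x, .page h.symm' h1 k hx⟩
    · rw [(hT.fr r).g_not hz] at hg
      subst hg
      exact ⟨m, .base he⟩


/-- THE IMAGE OF A COLOURED NEIGHBOUR -/
theorem img {v : V} {s : ℕ} (hs : K.rk v ≤ s) : ∀ {v' m x : V}, (hT.fr s).g v' = v →
    P.Rep v v' m x → (K.ar v x → (hT.fr s).g m = x) ∧
      (K.ar x v → (∃ y, K.ar v y ∧ (hT.fr s).g m = y ∧ Tch K v x y) ∨
        ∃ vt xt, (hT.fr s).g vt = v ∧ K.ar ((hT.fr s).g m) vt ∧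
          P.Rep v vt ((hT.fr s).g m) xt ∧ K.PC v x xt) := by
  intro v' m
  induction hn : K.rk v' + K.rk m using Nat.strong_induction_on generalizing v' m with
  | _ n ih =>
    intro x hg h
    have hnot : ∀ {z : V}, K.rk z ≤ s → (hT.fr s).g z = z := fun hz =>
      (hT.fr s).g_not (fun k => absurd k.2 (not_lt.2 hz))
    rcases h.E' with hm | hm
    · by_cases hz : (hT.fr s).Z v'
      · have hr : s < K.rk v' := hz.2
        have hne : v' ≠ v := by
          rintro rfl
          omega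
        obtain ⟨t, t', o, h1, h2, h3⟩ := hT.rep_top h hne
        have e : m = t := by
          rcases h3 with h3 | ⟨-, h3⟩
          · exact h3
          · exact (ar_asym hm h3).elim
        subst e
        have hlt := hT.rk_lt h1
        exact ih (K.rk o + K.rk m) (by omega) rfl (by rw [← hT.fr_g h1 hr, hg]) h2
      · rw [(hT.fr s).g_not hz] at hg
        subst hg
        have e := hT.rep_base h
        subst e
        exact ⟨fun _ => hnot ((K.ar_rk _ _ hm).le.trans hs), fun k => (ar_asym hm k).elim⟩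
    · have hxp := h.pg hm
      refine ⟨fun k => (ar_asym k hxp).elim, fun _ => ?_⟩
      by_cases hz : (hT.fr s).Z m
      · have hr : s < K.rk m := hz.2
        obtain ⟨d, p, t⟩ : ∃ d p, P.Top m v' d p := by
          obtain ⟨⟨c, d, p, t⟩, -⟩ := hz
          rcases hT.sides t hm with e | e
          · rw [← e] at t
            exact ⟨d, p, t⟩
          · rw [← e] at t
            exact ⟨c, p, t.symm'⟩
        have hlt := hT.rk_lt t
        obtain ⟨x1, h1⟩ := hT.rep_ex hg t.Ea
        have hc : K.Cor m v' p := P.cor_iff.2 (Or.inr ⟨d, t.1.rot.rot.rot.symm⟩)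
        have hcp := hT.rep_cor h h1 hc
        obtain ⟨i1, i2⟩ := ih (K.rk v' + K.rk p) (by omega) rfl hg h1
        rw [hT.fr_g t hr]
        rcases hcp with k | ⟨k1, k2⟩ | ⟨k1, -⟩ | ⟨k1, -⟩
        · have hx1 : K.ar x1 v := k.ar.1 hxp
          rcases i2 hx1 with ⟨y, j1, j2, j3⟩ | ⟨vt, xt, j1, j2, j3, j4⟩
          · exact Or.inl ⟨y, j1, j2, j3.congr k.symm⟩
          · exact Or.inr ⟨vt, xt, j1, j2, j3, k.trans _ _ _ j4⟩
        · exact Or.inl ⟨x1, k1, i1 k1, k2⟩
        · exact (ar_asym k1 hxp).elim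
        · exact (ar_asym k1 hxp).elim
      · right
        rw [(hT.fr s).g_not hz]
        exact ⟨v', x, hg, hm, h, Relation.EqvGen.refl _⟩

omit hT in
theorem eqv_ne {α : Type} {r : α → α → Prop} {a b : α} (h : Relation.EqvGen r a b) :
    a = b ∨ ((∃ c, r a c ∨ r c a) ∧ ∃ c, r b c ∨ r c b) := by
  induction h with
  | rel a b h => exact Or.inr ⟨⟨b, Or.inl h⟩, ⟨a, Or.inr h⟩⟩
  | refl a => exact Or.inl rfl
  | symm a b _ ih => exact ih.imp Eq.symm And.symm
  | trans a b c _ _ h1 h2 =>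
    rcases h1 with e1 | ⟨h1, h1'⟩
    · rw [e1]
      exact h2
    · rcases h2 with e2 | ⟨-, h2⟩
      · rw [← e2]
        exact Or.inr ⟨h1, h1'⟩
      · exact Or.inr ⟨h1, h2⟩

/-- a hair in a fold: the image of `z` has only one pole -/
theorem one_pole (hm : K.Min) (hx : ∀ p ∈ P.TA, 1 ≤ P.X p.1 p.2) {t : ℕ} {z c y : V}
    (ht : t ≤ K.rk z) (hz : ¬ (hT.fr t).Z z) (hc : K.ar z c) (hy : K.Cor y z c)
    (h : ∀ d, K.ar z d → (hT.fr t).f d = (hT.fr t).f c) : False := by
  have ez : ((hT.fr t).f z).1 = z := (hT.fr t).g_not hz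
  obtain ⟨x, d, e, k⟩ := hT.real' hx hc hy
  have k2 := hT.fr_qn ht k
  rw [← hT.fr_mono ht, ← hT.fr_mono ht] at k2
  obtain ⟨i, h5, hp⟩ := k2.pass
  refine ((hT.fr t).gx_min P hm).hair (x := (hT.fr t).f z) (c := (hT.fr t).f c) ?_ ?_ h5 hp
  · refine ⟨c, ?_, rfl⟩
    rw [ez]
    exact hc
  · rintro w ⟨d', hd, rfl⟩
    rw [ez] at hd
    exact h d' hd

/-- there is only one pole over `v` -/
theorem one_over (hm : K.Min) (hx : ∀ p ∈ P.TA, 1 ≤ P.X p.1 p.2) (lc : ∀ v, K.LC v) {s : ℕ}
    {z v1 v2 v : V} (hz : ¬ (hT.fr s).Z z) (h1 : K.ar z v1) (h2 : K.ar z v2)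
    (e1 : (hT.fr s).g v1 = v) (e2 : (hT.fr s).g v2 = v) : v1 = v2 := by
  by_contra hne
  have hl := lc z v1 v2 (Or.inl h1) (Or.inl h2)
  obtain ⟨y, hy⟩ : ∃ y, K.Cor y z v1 := by
    rcases eqv_ne hl with h | ⟨⟨c, h | h⟩, -⟩
    · exact absurd h hne
    · exact ⟨c, GX.Cor.symm h⟩
    · exact ⟨c, h⟩
  refine hT.one_pole hm hx (t := min s (K.rk z)) (min_le_right _ _) ?_ h1 hy ?_
  · rintro ⟨k1, k2⟩
    refine hz ⟨k1, ?_⟩
    rcases min_lt_iff.1 k2 with k | k
    · exact k
    · exact absurd k (lt_irrefl _)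
  · have e : (hT.fr (min s (K.rk z))).f v1 = (hT.fr (min s (K.rk z))).f v2 := by
      rw [hT.fr_mono (min_le_left s (K.rk z)) v1, hT.fr_mono (min_le_left s (K.rk z)) v2]
      show (hT.fr (min s (K.rk z))).f ((hT.fr s).g v1) = (hT.fr (min s (K.rk z))).f ((hT.fr s).g v2)
      rw [e1, e2]
    intro d hd
    rcases GX.Sft.cases h1 h2 hne hd with rfl | rfl
    · rfl
    · exact e.symm

/-- THERE ARE NO VERTICES WITH ONLY ONE POLE -/
theorem no_one (hm : K.Min) (hx : ∀ p ∈ P.TA, 1 ≤ P.X p.1 p.2) {v c y : V} (hc : K.ar v c)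
    (hy : K.Cor y v c) (h : ∀ d, K.ar v d → d = c) : False :=
  hT.one_pole hm hx (t := K.rk v) le_rfl (fun k => absurd k.2 (lt_irrefl _)) hc hy
    (fun d hd => by rw [h d hd])

/-- in the fold of the tops of rank `> rk v` the vertex `v` is the top of all squares at `v` -/
theorem fr_own {v : V} (hv : ∃ a, K.ar v a) {x c d : (hT.fr (K.rk v)).W}
    (hq : Q4 ((hT.fr (K.rk v)).p45 P) x ((hT.fr (K.rk v)).f v) c d) :
    ((hT.fr (K.rk v)).gx P).ar ((hT.fr (K.rk v)).f v) x := by
  set F := hT.fr (K.rk v) with hF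
  have eT : (F.f v).1 = v := hT.fr_not le_rfl
  have hlow : ∀ {w : V}, K.rk w < K.rk v → F.f w ≠ F.f v := by
    intro w hw e
    have e' := congrArg Subtype.val e
    rw [eT, show (F.f w).1 = w from hT.fr_not hw.le] at e'
    rw [e'] at hw
    exact lt_irrefl _ hw
  have htop : ∀ {T' a' b' y' : V}, P.Top T' a' b' y' → F.f T' ≠ F.f y' → K.rk T' ≤ K.rk v := by
    intro T' a' b' y' k hne
    by_contra hlt
    exact hne (hT.fr_f k (not_le.1 hlt))
  obtain ⟨x', v', y', z', hq', rfl, ev, rfl, rfl, n1, n2⟩ := F.h_q4_back hq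
  rcases hT.q4 hq' with t | t | t | t
  · have h1 := htop t n1
    exact absurd ev (hlow (((K.ar_rk _ _ t.2.2)).trans_le h1))
  · have h1 := htop t n2
    have e' := congrArg Subtype.val ev
    rw [eT, show (F.f v').1 = v' from hT.fr_not h1] at e'
    rw [e'] at t
    exact ⟨x', by rw [eT]; exact t.2.1, rfl⟩
  · have h1 := htop t n1.symm
    exact absurd ev (hlow (((K.ar_rk _ _ t.2.1)).trans_le h1))
  · have h1 := htop t n2.symm
    exact absurd ev (hlow ((hT.rk_lt t).trans_le h1))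

/-- EVERY PIECE HAS A CORNER AT EVERY POLE -/
theorem os (hm : K.Min) (hx : ∀ p ∈ P.TA, 1 ≤ P.X p.1 p.2) (lc : ∀ v, K.LC v) {v n b : V}
    (hn : K.ar n v) (hb : K.ar v b) : ∃ k, K.PC v n k ∧ K.ar k v ∧ K.Cor k v b := by
  classical
  by_contra hno
  have hno : ¬ Tch K v n b := hno
  -- the piece touches a pole
  obtain ⟨a, ha, hta⟩ : ∃ a, K.ar v a ∧ Tch K v n a := by
    have key : ∀ p q, Relation.EqvGen (fun a b => K.Cor a v b) p q →
        ((K.PC v n p → K.PC v n q ∨ ∃ y, K.ar v y ∧ Tch K v n y) ∧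
        (K.PC v n q → K.PC v n p ∨ ∃ y, K.ar v y ∧ Tch K v n y)) := by
      have st : ∀ p q, K.Cor p v q → K.PC v n p → K.PC v n q ∨ ∃ y, K.ar v y ∧ Tch K v n y := by
        intro p q hc h
        have hp : K.ar p v := h.ar.1 hn
        rcases hc.E2 with k | k
        · exact Or.inr ⟨q, k, p, h, hp, hc⟩
        · exact Or.inl (h.trans _ _ _ (Relation.EqvGen.rel _ _ ⟨hp, k, hc⟩))
      intro p q h
      induction h with
      | rel p q h => exact ⟨st p q h, st q p h.symm⟩
      | refl p => exact ⟨Or.inl, Or.inl⟩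
      | symm p q _ ih => exact ⟨ih.2, ih.1⟩
      | trans p q r _ _ i1 i2 =>
        exact ⟨fun h => (i1.1 h).elim i2.1 Or.inr, fun h => (i2.2 h).elim i1.2 Or.inr⟩
    rcases (key n b (lc v n b (Or.inr hn) (Or.inl hb))).1 (Relation.EqvGen.refl _) with h | h
    · exact (ar_asym hb (h.ar.1 hn)).elim
    · exact h
  have hab : a ≠ b := by
    rintro rfl
    exact hno hta
  set F := hT.fr (K.rk v) with hF
  have gn : ∀ {z : V}, K.rk z ≤ K.rk v → F.g z = z := fun hz =>
    F.g_not (fun k => absurd k.2 (not_lt.2 hz))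
  have gv : F.g v = v := gn le_rfl
  have ga : F.g a = a := gn (K.ar_rk _ _ ha).le
  have gb : F.g b = b := gn (K.ar_rk _ _ hb).le
  have fv : (F.f v).1 = v := gv
  have fx : ∀ {h : H}, h • v = v → h • a = a → h • b = b := by
    intro h h1 h2
    have h3 := K.ar_smul h _ _ hb
    rw [h1] at h3
    rcases GX.Sft.cases ha hb hab h3 with e | e
    · rw [← h2] at e
      exact absurd (smul_left_cancel h e).symm hab
    · exact e
  -- the colours of the piece
  let Cl : V → Prop := fun x => ∃ h : H, h • v = v ∧ h • a = a ∧ K.PC v (h • n) x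
  have cp : ∀ {x}, Cl x → K.ar x v := by
    rintro x ⟨h, h1, -, h2⟩
    refine h2.ar.1 ?_
    have := K.ar_smul h _ _ hn
    rwa [h1] at this
  have cc : ∀ {x x'}, K.PC v x x' → Cl x → Cl x' := by
    rintro x x' k ⟨h, h1, h2, h3⟩
    exact ⟨h, h1, h2, h3.trans _ _ _ k⟩
  have cb : ∀ {x}, Cl x → ¬ Tch K v x b := by
    rintro x ⟨h, h1, h2, h3⟩ k
    have k1 : Tch K v (h • n) b := k.congr h3.symm
    have k2 := k1.smul h⁻¹
    rw [inv_smul_eq_iff.2 h1.symm, inv_smul_smul, inv_smul_eq_iff.2 (fx h1 h2).symm] at k2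
    exact hno k2
  have ca : ∀ {x}, Cl x → Tch K v x a := by
    rintro x ⟨h, h1, h2, h3⟩
    have := hta.smul h
    rw [h1, h2] at this
    exact this.congr h3
  have cs : ∀ {g : H} {x}, g • v = v → g • a = a → Cl x → Cl (g • x) := by
    rintro g x g1 g2 ⟨h, h1, h2, h3⟩
    refine ⟨g * h, by rw [mul_smul, h1, g1], by rw [mul_smul, h2, g2], ?_⟩
    have := h3.smul g
    rw [g1] at this
    rwa [mul_smul]
  let R : Set F.W := {z | ∃ vt x, F.g vt = v ∧ K.ar z.1 vt ∧ P.Rep v vt z.1 x ∧ Cl x}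
  have hcol : ∀ {v' m x : V}, F.g v' = v → P.Rep v v' m x → Cl x → F.g m = a ∨ F.f m ∈ R := by
    intro v' m x h1 h2 h3
    rcases (hT.img le_rfl h1 h2).2 (cp h3) with ⟨y, k1, k2, k3⟩ | ⟨vt, xt, k1, k2, k3, k4⟩
    · rcases GX.Sft.cases ha hb hab k1 with rfl | rfl
      · exact Or.inl k2
      · exact absurd k3 (cb h3)
    · exact Or.inr ⟨vt, xt, k1, k2, k3, cc k4 h3⟩
  -- a page over `v` is no pole
  have npole : ∀ {z vt y : V}, K.ar z vt → F.g vt = v → K.ar v y → z ≠ y := by
    rintro z vt y h1 h2 h3 rfl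
    have k1 := K.ar_rk _ _ h1
    have k2 := K.ar_rk _ _ h3
    have k3 := F.g_rk vt
    rw [h2] at k3
    omega
  have lift : ∀ {m v' x vt xt : V}, F.g v' = v → P.Rep v v' m x → F.g vt = v →
      K.ar (F.g m) vt → P.Rep v vt (F.g m) xt → K.PC v xt x := by
    intro m v' x vt xt h1 h2 h3 h4 h5
    obtain ⟨i1, i2⟩ := hT.img le_rfl h1 h2
    rcases h2.E with k | k
    · exact absurd (i1 k) (npole h4 h3 k)
    · rcases i2 k with ⟨y, j1, j2, -⟩ | ⟨vt', xt', j1, j2, j3, j4⟩
      · exact absurd j2 (npole h4 h3 j1)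
      · have e : vt = vt' := hT.one_over hm hx lc (F.g_nZ m) h4 j2 h3 j1
        subst e
        exact (hT.rep_uniq h5 j3).trans _ _ _ j4.symm
  have Rar : ∀ z ∈ R, (F.gx P).ar z (F.f v) := by
    rintro z ⟨vt, x, h1, h2, -⟩
    exact ⟨vt, h2, Subtype.ext (by rw [F.f_val, F.f_val, h1, gv])⟩
  have gsm : ∀ {g : H}, g • F.f v = F.f v → g • v = v := by
    intro g h
    have := congrArg Subtype.val h
    rw [F.smul_val, fv] at this
    exact this
  have va : (F.gx P).ar (F.f v) (F.f a) := ⟨a, by rw [fv]; exact ha, rfl⟩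
  have vb : (F.gx P).ar (F.f v) (F.f b) := ⟨b, by rw [fv]; exact hb, rfl⟩
  have fab : F.f a ≠ F.f b := by
    intro e
    have := congrArg Subtype.val e
    rw [F.f_val, F.f_val, ga, gb] at this
    exact hab this
  have hown : ∀ x y z, Q4 (F.p45 P) x (F.f v) y z → (F.gx P).ar (F.f v) x := fun x y z h =>
    hT.fr_own ⟨a, ha⟩ h
  have hR : ∀ c d, (F.p45 P).RC (F.f v) c d → c ∈ R → d ∈ R ∨ d = F.f a := by
    rintro c d ⟨y, z, h⟩ ⟨vt, x, h1, h2, h3, h4⟩
    obtain ⟨m1, v', m2, y', z', hq, rfl, ev, rfl, -, -⟩ := F.h_qn_back h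
    have gv' : F.g v' = v := by rw [← F.f_val, ev, fv]
    have hc : K.Cor m1 v' m2 := P.cor_iff.2 (Or.inl ⟨_, _, hq⟩)
    obtain ⟨x1, r1⟩ := hT.rep_ex gv' hc.E1
    obtain ⟨x2, r2⟩ := hT.rep_ex gv' hc.E2
    have c1 : Cl x1 := cc (lift gv' r1 h1 h2 h3) h4
    have hcp := hT.rep_cor r1 r2 hc
    have fin : F.g m2 = a → F.f m2 = F.f a := fun e =>
      Subtype.ext (by rw [F.f_val, F.f_val, e, ga])
    rcases hcp with k | ⟨k1, k2⟩ | ⟨k1, -⟩ | ⟨k1, -⟩
    · exact (hcol gv' r2 (cc k c1)).elim (fun e => Or.inr (fin e)) Or.inl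
    · rcases GX.Sft.cases ha hb hab k1 with rfl | rfl
      · exact Or.inr (fin ((hT.img le_rfl gv' r2).1 ha))
      · exact absurd k2 (cb c1)
    · exact (ar_asym k1 (cp c1)).elim
    · exact (ar_asym k1 (cp c1)).elim
  have Rst : ∀ g : H, g • F.f v = F.f v → ∀ z ∈ R, g • z ∈ R → g • F.f a = F.f a := by
    rintro g hg z ⟨vt, x, h1, h2, h3, h4⟩ ⟨wt, x', k1, k2, k3, k4⟩
    have gv2 := gsm hg
    have h5 : K.ar v (g • a) := by
      have := K.ar_smul g _ _ ha
      rwa [gv2] at this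
    rcases GX.Sft.cases ha hb hab h5 with e | e
    · rw [← F.f_smul, e]
    · exfalso
      have r := h3.smul g
      rw [gv2] at r
      have k2' : K.ar (g • z.1) wt := k2
      have k3' : P.Rep v wt (g • z.1) x' := k3
      have l1 : F.g (g • vt) = v := by rw [F.g_smul, h1, gv2]
      have e' : g • vt = wt := hT.one_over hm hx lc (fun k => z.2 ((F.Z_iff g _).1 k))
        (K.ar_smul g _ _ h2) k2' l1 k1
      rw [e'] at r
      have u := hT.rep_uniq r k3'
      have t := (ca h4).smul g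
      rw [gv2, e] at t
      exact cb k4 (t.congr u)
  have Rinv : ∀ g : H, g • F.f v = F.f v → g • F.f a = F.f a → ∀ z ∈ R, g • z ∈ R := by
    rintro g hg hga z ⟨vt, x, h1, h2, h3, h4⟩
    have gv2 := gsm hg
    have ga2 : g • a = a := by
      have := congrArg Subtype.val hga
      rw [F.smul_val, F.f_val, ga] at this
      exact this
    have r := h3.smul g
    rw [gv2] at r
    exact ⟨g • vt, g • x, by rw [F.g_smul, h1, gv2], K.ar_smul g _ _ h2, r, cs gv2 ga2 h4⟩
  have hcut : ∀ z ∈ R, ¬ (F.p45 P).RC (F.f v) z (F.f a) := fun z hz =>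
    cutR (F.gx_min P hm) (fun j hj => j.2 hj) va vb fab hown R Rar Rst Rinv hR hz
  -- `R` is empty
  have hRe : ∀ z, z ∉ R := by
    intro z hz
    have st : ∀ p q, (F.gx P).Cor p (F.f v) q → p ∈ R → q ∈ R := by
      intro p q hc hp
      rcases (F.p45 P).cor_iff.1 hc with h | ⟨y, h⟩
      · rcases hR _ _ h hp with k | k
        · exact k
        · rw [k] at h
          exact absurd h (hcut p hp)
      · exact (ar_asym (Rar p hp) (hown _ _ _ h)).elim
    have key : ∀ p q, Relation.EqvGen (fun a b => (F.gx P).Cor a (F.f v) b) p q →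
        (p ∈ R ↔ q ∈ R) := by
      intro p q h
      induction h with
      | rel p q h => exact ⟨st p q h, st q p h.symm⟩
      | refl p => exact Iff.rfl
      | symm p q _ ih => exact ih.symm
      | trans p q r _ _ i1 i2 => exact i1.trans i2
    have := (key z (F.f b) (hT.fr_lc hm hx lc _ (F.f v) z (F.f b) (Or.inr (Rar z hz))
      (Or.inl vb))).1 hz
    exact ar_asym vb (Rar _ this)
  -- a page of minimal rank
  obtain ⟨n', h1, hmin⟩ : ∃ n', K.PC v n n' ∧ ∀ m, K.PC v n m → K.rk n' ≤ K.rk m := by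
    let A : Set ℕ := {k | ∃ m, K.PC v n m ∧ K.rk m = k}
    have hA : A.Nonempty := ⟨_, n, Relation.EqvGen.refl _, rfl⟩
    obtain ⟨m, m1, m2⟩ := Nat.sInf_mem hA
    refine ⟨m, m1, fun k hk => ?_⟩
    rw [m2]
    exact Nat.sInf_le ⟨k, hk, rfl⟩
  have hn' : K.ar n' v := h1.ar.1 hn
  have cn' : Cl n' := ⟨1, one_smul _ _, one_smul _ _, by rw [one_smul]; exact h1⟩
  have gn' : F.g n' = a := (hcol gv (.base (Or.inr hn')) cn').resolve_right (hRe _)
  have hz : F.Z n' := by
    by_contra hz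
    rw [F.g_not hz] at gn'
    exact npole hn' gv ha gn'
  obtain ⟨d, p, t⟩ : ∃ d p, P.Top n' v d p := by
    obtain ⟨⟨c, d, p, t⟩, -⟩ := hz
    rcases hT.sides t hn' with e | e
    · rw [← e] at t
      exact ⟨d, p, t⟩
    · rw [← e] at t
      exact ⟨c, p, t.symm'⟩
  have hr : K.rk v ≤ K.rk n' := (K.ar_rk _ _ hn').le
  set G := hT.fr (K.rk n') with hG
  have Gn : G.g n' = n' := G.g_not (fun k => absurd k.2 (lt_irrefl _))
  have Gv : G.g v = v := G.g_not (fun k => absurd k.2 (not_lt.2 hr))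
  obtain ⟨w1, w2, w3, k⟩ := hT.real hx t
  obtain ⟨m1, v', m2, y', z', hq, e1, e2, -, -, -⟩ := G.h_qn_back k
  have g1 : G.g m1 = n' := by
    have := congrArg Subtype.val e1
    rw [G.f_val, G.f_val, Gn] at this
    exact this
  have g2 : G.g v' = v := by
    have := congrArg Subtype.val e2
    rw [G.f_val, G.f_val, Gv] at this
    exact this
  have f1 : F.f m1 = F.f n' := by
    rw [hT.fr_mono hr m1]
    show F.f (G.g m1) = _
    rw [g1]
  have f2 : F.f v' = F.f v := by
    rw [hT.fr_mono hr v']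
    show F.f (G.g v') = _
    rw [g2]
  have gv' : F.g v' = v := by rw [← F.f_val, f2, fv]
  have hc : K.Cor m1 v' m2 := P.cor_iff.2 (Or.inl ⟨_, _, hq⟩)
  obtain ⟨x1, r1⟩ := hT.rep_ex gv' hc.E1
  obtain ⟨x2, r2⟩ := hT.rep_ex gv' hc.E2
  have c1 : Cl x1 := by
    obtain ⟨i1, i2⟩ := hT.img hr g2 r1
    rcases r1.E with k | k
    · exact absurd ((i1 k).symm.trans g1) (npole hn' gv k).symm
    · rcases i2 k with ⟨y, j1, j2, -⟩ | ⟨vt, xt, j1, j2, j3, j4⟩
      · exact absurd (j2.symm.trans g1) (npole hn' gv j1).symm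
      · rw [g1] at j2 j3
        have e : vt = v := hT.one_over hm hx lc (s := K.rk n')
          (fun k => absurd k.2 (lt_irrefl _)) j2 hn' j1 Gv
        subst e
        rw [← hT.rep_base j3] at j4
        exact cc j4.symm cn'
  have hcp := hT.rep_cor r1 r2 hc
  have hg2 : F.g m2 = a := by
    rcases hcp with k | ⟨k1, k2⟩ | ⟨k1, -⟩ | ⟨k1, -⟩
    · exact (hcol gv' r2 (cc k c1)).resolve_right (hRe _)
    · rcases GX.Sft.cases ha hb hab k1 with rfl | rfl
      · exact (hT.img le_rfl gv' r2).1 ha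
      · exact absurd k2 (cb c1)
    · exact (ar_asym k1 (cp c1)).elim
    · exact (ar_asym k1 (cp c1)).elim
  refine hne (F.gx_min P hm) (F.h_qn hq) ?_
  rw [f1]
  exact Subtype.ext (by rw [F.f_val, F.f_val, gn', hg2])

end SqT

end P45

end Pool.Agent.DI
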