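import Pool.Agent.DI.HDL
import Pool.Agent.DI.Hr3
import Pool.Agent.DI.OvP
import Pool.Agent.DI.Pc

/-!
# DI/OSt0: tools for DI/OSt

`P45.cutR`: the cut for an invariant set `R` of pages of `v` which is left only to the pole `a`.
`SqT.fr_lc`: the fold of all tops of rank `> r` has connected links. `SqT.real'`: if there is a corner
`y, z, c` with `z → c`, then `z c` lies in a pentagon of the fold of all tops of rank `> rk z`.
-/

namespace Pool.Agent.DI

open MulAction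
open Pool.Agent.SAF (InC SA orbs FinOrb oc Decomp)

namespace P45

variable {H V : Type} [Group H] [MulAction H V] {K : GX H V} {P : P45 K}

/-- THE CUT: no corner leaves `R` except to the pole `a` -/
theorem cutR (hm : K.Min) (hnd : P.ND) {v a b : V} (va : K.ar v a) (vb : K.ar v b) (ab : a ≠ b)
    (hown : ∀ x y z, Q4 P x v y z → K.ar v x) (R : Set V) (Rar : ∀ n ∈ R, K.ar n v)
    (Rst : ∀ g : H, g • v = v → ∀ n ∈ R, g • n ∈ R → g • a = a)
    (Rinv : ∀ g : H, g • v = v → g • a = a → ∀ n ∈ R, g • n ∈ R)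
    (hR : ∀ c d, P.RC v c d → c ∈ R → d ∈ R ∨ d = a) {n : V} (hn : n ∈ R) : ¬ P.RC v n a := by
  classical
  intro hna
  have asym : ∀ {c d : V}, K.ar c d → K.ar d c → False := fun h1 h2 =>
    absurd ((K.ar_rk _ _ h1).trans (K.ar_rk _ _ h2)) (lt_irrefl _)
  let D : CuD K :=
    { v := v
      a := a
      b := b
      R := R
      va := va
      vb := vb
      ab := ab
      R_ar := Rar
      stab := Rst
      inv := Rinv }
  have hcl : ∀ c d : V, (∃ y z, Qn P c v d y z) ∨ (∃ y, Q4 P c v d y) → c ∈ D.R →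
      d ∈ D.R ∨ d = a := by
    rintro c d (h | ⟨y, h⟩) hc
    · exact hR _ _ h hc
    · exact absurd (Rar c hc) (fun k => asym k (hown _ _ _ h))
  have hcor : ∀ p : K.Pos, ∀ g : H, (∃ y z, Qn P (g • K.vx p.1 p.2) (g • K.vx p.1 (p.2 + 1))
      (g • K.vx p.1 (p.2 + 2)) y z) ∨ ∃ y, Q4 P (g • K.vx p.1 p.2) (g • K.vx p.1 (p.2 + 1))
      (g • K.vx p.1 (p.2 + 2)) y := by
    intro p g
    by_cases hp : P.sq p.1
    · exact Or.inr ⟨_, (P.hpos4 hp p.2).smul g⟩
    · exact Or.inl ⟨_, _, (P.hpos5 hp p.2).smul g⟩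
  have hsym : ∀ {x y z : V}, ((∃ s t, Qn P x y z s t) ∨ ∃ s, Q4 P x y z s) →
      ((∃ s t, Qn P z y x s t) ∨ ∃ s, Q4 P z y x s) := by
    rintro x y z (⟨s, t, h⟩ | ⟨s, h⟩)
    · exact Or.inl ⟨t, s, h.symm⟩
    · exact Or.inr ⟨s, h.symm⟩
  have hleg : ∀ {x y z : V} (h : H), h⁻¹ • x ∈ D.R → y = h • v →
      ((∃ s t, Qn P (h⁻¹ • x) (h⁻¹ • y) (h⁻¹ • z) s t) ∨
        ∃ s, Q4 P (h⁻¹ • x) (h⁻¹ • y) (h⁻¹ • z) s) → h⁻¹ • z ∈ D.R ∨ z = h • a := by
    intro x y z h h1 h2 h3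
    rw [h2, inv_smul_smul] at h3
    rcases hcl _ _ h3 h1 with k | k
    · exact Or.inl k
    · exact Or.inr (inv_smul_eq_iff.1 k)
  have z1 : K.cr.cn D.c1 = 0 := by
    unfold Cr.cn
    rw [Finset.card_eq_zero, Finset.filter_eq_empty_iff]
    intro p _ hp
    have key : ∀ x y z : V, (∀ g : H, (∃ s t, Qn P (g • x) (g • y) (g • z) s t) ∨
        ∃ s, Q4 P (g • x) (g • y) (g • z) s) → D.mv x y → ¬ D.mv z y → z ≠ D.τ x y → False := by
      rintro x y z hc ⟨h, h1, h2⟩ h3 h4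
      rcases hleg h h1 h2 (hc h⁻¹) with k | k
      · exact h3 ⟨h, k, h2⟩
      · exact h4 (k.trans (D.τ_eq h1 h2).symm)
    rcases hp with ⟨h1, h2, h3⟩ | ⟨h1, h2, h3⟩
    · exact key _ _ _ (hcor p) h1 h2 h3
    · exact key _ _ _ (fun g => hsym (hcor p g)) h1 h2 h3
  have z2 : K.cr.cn D.c2 = 0 := by
    unfold Cr.cn
    rw [Finset.card_eq_zero, Finset.filter_eq_empty_iff]
    rintro p _ ⟨⟨h, h1, h2⟩, h3, h4⟩
    rcases hleg h h1 h2 (hcor p h⁻¹) with k | k
    · exact h4 ((D.τ_eq h1 h2).trans (D.τ_eq k h2).symm)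
    · have h5 := D.mv_ar h3
      rw [show K.cr.v2 p = h • a from k, show K.cr.v1 p = h • v from h2] at h5
      exact asym h5 (K.ar_smul h _ _ va)
  have hcut := D.cut_sq P.hpg hm P.qt (fun i hi => by
    have hi' : P.sq i := not_not.1 hi
    exact ⟨P.cb4 i hi', P.cw4 i hi', (hnd i hi').1, (hnd i hi').2⟩) (by
    rintro i hi j g h1 ⟨h2, -⟩
    have hi' : P.sq i := not_not.1 hi
    have h3 := Q4_qt (P := P) g hi' j
    rw [h1] at h3
    exact asym (Rar _ h2) (hown _ _ _ h3))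
  rw [z1, z2] at hcut
  obtain ⟨y, z, h1⟩ := hna
  obtain ⟨p, g, hp, hg⟩ := P.hpos_of h1
  have h5 : 0 < P.hpg.rcn (cA D.sl.mv D.sl.τ) := by
    unfold PG.rcn
    rw [Finset.card_pos]
    refine ⟨p, Finset.mem_filter.2 ⟨Finset.mem_univ _, hp, ?_⟩⟩
    have m1 : g⁻¹ • (g • n) ∈ D.R := by
      rw [inv_smul_smul]
      exact hn
    have m2 : D.mv (g • n) (g • v) := ⟨g, m1, rfl⟩
    rcases hg with ⟨e1, e2, e3⟩ | ⟨e1, e2, e3⟩
    · rw [e1, e2, e3]
      exact Or.inl ⟨m2, (D.τ_eq m1 rfl).symm⟩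
    · rw [e1, e2, e3]
      exact Or.inr ⟨m2, (D.τ_eq m1 rfl).symm⟩
  omega

namespace SqT

variable (hT : P.SqT)

/-- the links of the fold of the tops of rank `> r` -/
theorem fr_hd (hm : K.Min) (hx : ∀ p ∈ P.TA, 1 ≤ P.X p.1 p.2) (r : ℕ) : (hT.fr r).HD P := by
  have key : ∀ {T a b y : V}, P.Top T a b y → r < K.rk T → ((hT.fr r).gx P).LJ ((hT.fr r).f T)
      ((hT.fr r).f a) ((hT.fr r).f b) := by
    intro T a b y h hr
    have mono : ∀ v, (hT.fr r).f v = (hT.fr r).f ((hT.fr (K.rk T)).f v).1 := hT.fr_mono hr.le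
    have hj := hT.joined hm hx h
    have map : ∀ {v c d}, Relation.EqvGen (((hT.fr (K.rk T)).p45 P).RC v) c d →
        ((hT.fr r).gx P).LJ ((hT.fr r).f v.1) ((hT.fr r).f c.1) ((hT.fr r).f d.1) := by
      intro v c d k
      induction k with
      | rel c d k =>
        obtain ⟨y', z', k⟩ := k
        obtain ⟨a', q', b', y', z', k1, rfl, rfl, rfl, -, -⟩ := (hT.fr (K.rk T)).h_qn_back k
        rw [← mono, ← mono, ← mono]
        refine Relation.EqvGen.rel _ _ ?_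
        exact ((hT.fr r).p45 P).cor_iff.2 (Or.inl ⟨_, _, (hT.fr r).h_qn k1⟩)
      | refl c => exact Relation.EqvGen.refl _
      | symm c d _ ih => exact ih.symm
      | trans c d e _ _ i1 i2 => exact i1.trans _ _ _ i2
    have := map hj
    rwa [← mono, ← mono, ← mono] at this
  -- the images of top and partner, of the sides
  have main : ∀ {T a b y : V}, P.Top T a b y →
      ((hT.fr r).f T = (hT.fr r).f y → ((hT.fr r).gx P).LJ ((hT.fr r).f T)
        ((hT.fr r).f a) ((hT.fr r).f b)) ∧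
      ((hT.fr r).f a = (hT.fr r).f b → ((hT.fr r).gx P).LJ ((hT.fr r).f a)
        ((hT.fr r).f T) ((hT.fr r).f y)) := by
    intro T a b y h
    by_cases hr : r < K.rk T
    · refine ⟨fun _ => key h hr, fun _ => ?_⟩
      rw [hT.fr_f h hr]
      exact Relation.EqvGen.refl _
    · have hr' : K.rk T ≤ r := not_lt.1 hr
      refine ⟨fun e => ?_, fun e => ?_⟩
      · have e' := congrArg Subtype.val e
        rw [hT.fr_not hr', hT.fr_not ((hT.rk_lt h).le.trans hr')] at e'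
        exact absurd e' (hT.nTy _ _ _ _ h)
      · have e' := congrArg Subtype.val e
        rw [hT.fr_not ((K.ar_rk _ _ h.2.1).le.trans hr'),
          hT.fr_not ((K.ar_rk _ _ h.2.2).le.trans hr')] at e'
        exact absurd e' (hT.nab _ _ _ _ h)
  intro i hi k he
  have hq := Q4_qt (P := P) (1 : H) hi k
  simp only [one_smul] at hq
  have e3 : k + 3 = k + 3 := rfl
  rcases hT.q4 hq with t | t | t | t
  · -- top `qt k`, partner `qt (k+2)`, sides `qt (k+3)`, `qt (k+1)`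
    have := (main t).2 he.symm
    rw [he]
    exact this
  · exact (main t).1 he
  · have := (main t).2 he
    exact this.symm
  · have := (main t).1 he.symm
    rw [he]
    exact this.symm

/-- the links of the fold are connected -/
theorem fr_lc (hm : K.Min) (hx : ∀ p ∈ P.TA, 1 ≤ P.X p.1 p.2) (lc : ∀ v, K.LC v) (r : ℕ)
    (v : (hT.fr r).W) : ((hT.fr r).gx P).LC v :=
  (hT.fr r).LC_gx (hT.fr_hd hm hx r) lc v

/-- the edge from a soft to a pole lies in a pentagon of the fold of the higher tops -/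
theorem real' (hx : ∀ p ∈ P.TA, 1 ≤ P.X p.1 p.2) {z c y : V} (hzc : K.ar z c)
    (hc : K.Cor y z c) : ∃ x d e, Qn ((hT.fr (K.rk z)).p45 P) ((hT.fr (K.rk z)).f z)
      ((hT.fr (K.rk z)).f c) x d e := by
  have asym : ∀ {c d : V}, K.ar c d → K.ar d c → False := fun h1 h2 =>
    absurd ((K.ar_rk _ _ h1).trans (K.ar_rk _ _ h2)) (lt_irrefl _)
  rcases P.cor_iff.1 hc with ⟨u, w, h⟩ | ⟨q, h⟩
  · exact ⟨_, _, _, (hT.fr (K.rk z)).h_qn h.rot⟩
  · rcases hT.q4 h with t | t | t | t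
    · -- top `y`, sides `q`, `z`, partner `c`
      have hr := K.ar_rk _ _ t.2.2
      obtain ⟨x, d, e, k1⟩ := hT.real hx t.symm'
      have k2 := hT.fr_qn hr.le k1
      rw [← hT.fr_mono hr.le, ← hT.fr_mono hr.le, hT.fr_f t hr] at k2
      exact ⟨_, _, _, k2.symm.rot⟩
    · exact hT.real hx t.symm'
    · exact absurd t.2.1 (fun e => asym e hzc)
    · have hr : K.rk z < K.rk q := hT.rk_lt t
      obtain ⟨x, d, e, k1⟩ := hT.real hx t
      have k2 := hT.fr_qn hr.le k1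
      rw [← hT.fr_mono hr.le, ← hT.fr_mono hr.le, hT.fr_f t hr] at k2
      exact ⟨_, _, _, k2⟩

end SqT

end P45

end Pool.Agent.DI
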