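import Pool.Agent.DI.OpnV
import Pool.Agent.DI.LkE

/-!
# DI/OpnZ: the opening and the pieces

`OZ O Z`: zero corners of the opened complex `O.gx`: the lifts of the zero corners of `Z` and new ones
(`mn`), which join vertices over the same vertex or are direct. `OZ.exc_eq`: the pole excess does not
change. `OZ.cyc_eq`: the cycles without poles do not change if the new flags, midpoints and in-nodes
balance.
-/

namespace Pool.Agent.DI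

open MulAction
open Pool.Agent.SAF (InC orbs FinOrb oc mk_eq_iff FinOrb_iff)

namespace OpW

variable {H V W : Type} [Group H] [MulAction H V] [MulAction H W] {K : GX H V} (O : OpW K W)

/-- the lift of a corner -/
def up (e : K.LE) : O.gx.LE :=
  (⟨Sum.inl e.1.1, Fin.cast (O.gx_len_inl e.1.1).symm e.1.2⟩, e.2)

theorem up_smul (h : H) (e : K.LE) : O.up (h • e) = h • O.up e := rfl

theorem up_inj {e e' : K.LE} (h : O.up e = O.up e') : e = e' := by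
  obtain ⟨⟨i, j⟩, g⟩ := e
  obtain ⟨⟨i', j'⟩, g'⟩ := e'
  have h1 : (⟨Sum.inl i, Fin.cast (O.gx_len_inl i).symm j⟩ : O.gx.Pos) =
      ⟨Sum.inl i', Fin.cast (O.gx_len_inl i').symm j'⟩ := congrArg Prod.fst h
  have h2 : g = g' := congrArg Prod.snd h
  subst h2
  have h3 : (Sum.inl i : K.I ⊕ O.J) = Sum.inl i' := congrArg Sigma.fst h1
  have h4 := Sum.inl.inj h3
  subst h4
  have h5 := eq_of_heq (Sigma.mk.inj h1).2
  have h6 : j = j' := by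
    apply Fin.ext
    have := congrArg Fin.val h5
    exact this
  rw [h6]

theorem up_c (e : K.LE) : O.gx.c0 (O.up e) = e.2 • O.lp e.1.1 e.1.2 ∧
    O.gx.c1 (O.up e) = e.2 • O.lp e.1.1 (e.1.2 + 1) ∧
    O.gx.c2 (O.up e) = e.2 • O.lp e.1.1 (e.1.2 + 2) := by
  have hl : 0 < K.len e.1.1 := Nat.zero_lt_of_lt e.1.2.2
  refine ⟨?_, ?_, ?_⟩
  · show e.2 • O.gx.vx (Sum.inl e.1.1) _ = _
    rw [O.gx_vx_inl _ hl]
    rfl
  · show e.2 • O.gx.vx (Sum.inl e.1.1) _ = _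
    rw [O.gx_vx_inl _ hl]
    rfl
  · show e.2 • O.gx.vx (Sum.inl e.1.1) _ = _
    rw [O.gx_vx_inl _ hl]
    rfl

theorem π_up0 (e : K.LE) : O.π (O.gx.c0 (O.up e)) = K.c0 e := by
  rw [(O.up_c e).1, O.π_smul, O.π_lp]
  rfl

theorem π_up1 (e : K.LE) : O.π (O.gx.c1 (O.up e)) = K.c1 e := by
  rw [(O.up_c e).2.1, O.π_smul, O.π_lp]
  rfl

theorem π_up2 (e : K.LE) : O.π (O.gx.c2 (O.up e)) = K.c2 e := by
  rw [(O.up_c e).2.2, O.π_smul, O.π_lp]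
  rfl

theorem ar_π {x y : W} (h : O.gx.ar x y) : K.ar (O.π x) (O.π y) := h.1

theorem ar_e' {x y : W} (h : O.gx.ar x y) : O.e (O.π x) (O.π y) = y := h.2

/-- the orientation of an edge -/
theorem ar_of_E {x y : W} (h : O.gx.E x y) (k : K.ar (O.π x) (O.π y)) : O.gx.ar x y := by
  rcases h with h | h
  · exact h
  · exact absurd (O.ar_π h) (ZC.not_both k)

theorem ar_iff {x y : W} (h : O.gx.E x y) : O.gx.ar x y ↔ K.ar (O.π x) (O.π y) :=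
  ⟨O.ar_π, O.ar_of_E h⟩

/-- an arrow depends only on the image of its source -/
theorem ar_congr {x x' y : W} (h : O.gx.ar x y) (e : O.π x = O.π x') : O.gx.ar x' y := by
  refine ⟨?_, ?_⟩
  · rw [← e]
    exact h.1
  · rw [← e]
    exact h.2

end OpW

/-- zero corners of the opened complex -/
structure OZ {H V W : Type} [Group H] [MulAction H V] [MulAction H W] {K : GX H V} (O : OpW K W)
    (Z : ZC K) where
  Z' : ZC O.gx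
  mo : W → W → W → W → ℕ
  mn : W → W → W → W → ℕ
  R_iff : ∀ e', e' ∈ Z'.R ↔ ∃ e ∈ Z.R, O.up e = e'
  mu_eq : ∀ x y z o, Z'.mu x y z o = mo x y z o + mn x y z o
  disj : ∀ x y z o, mn x y z o ≠ 0 → mo x y z o = 0
  mo_π : ∀ x y z o, mo x y z o ≠ 0 → mo x y z o = Z.mu (O.π x) (O.π y) (O.π z) (O.π o)
  mo_sy : ∀ x y z o, mo x y z o = mo z y x o
  mn_sm : ∀ (h : H) (x y z o : W), mn (h • x) (h • y) (h • z) (h • o) = mn x y z o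
  lift : ∀ x y z o, Z.mu x y z o ≠ 0 → ∃ x' y' z' o', O.π x' = x ∧ O.π y' = y ∧ O.π z' = z ∧
    O.π o' = o ∧ mo x' y' z' o' ≠ 0
  uniq : ∀ x y z o x' y' z' o', mo x y z o ≠ 0 → mo x' y' z' o' ≠ 0 → O.π x = O.π x' →
    O.π y = O.π y' → O.π z = O.π z' → O.π o = O.π o' → x = x' ∧ y = y' ∧ z = z' ∧ o = o'
  mn_in : ∀ x y z o, mn x y z o ≠ 0 → O.gx.ar x y → O.gx.ar z y ∧ O.π x = O.π z
  mn_out : ∀ x y z o, mn x y z o ≠ 0 → O.gx.ar y x → O.gx.ar y z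
  fib : ∀ x y z, O.gx.ar x y → O.gx.ar z y → O.π x = O.π z → Z'.IJ y x z

namespace OZ

variable {H V W : Type} [Group H] [MulAction H V] [MulAction H W] {K : GX H V} {O : OpW K W}
  {Z : ZC K} (Q : OZ O Z)

include Q

theorem mem_up {e : K.LE} : O.up e ∈ Q.Z'.R ↔ e ∈ Z.R := by
  rw [Q.R_iff]
  constructor
  · rintro ⟨e', he', h⟩
    rw [← O.up_inj h]
    exact he'
  · exact fun h => ⟨e, h, rfl⟩

/-! ### corners -/

theorem Rc_π {a y b : W} (h : Q.Z'.Rc a y b) : Z.Rc (O.π a) (O.π y) (O.π b) := by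
  obtain ⟨e', he', h⟩ := h
  obtain ⟨e, he, rfl⟩ := (Q.R_iff _).1 he'
  refine ⟨e, he, ?_⟩
  rw [← O.π_up0, ← O.π_up1, ← O.π_up2]
  rcases h with ⟨rfl, rfl, rfl⟩ | ⟨rfl, rfl, rfl⟩
  · exact Or.inl ⟨rfl, rfl, rfl⟩
  · exact Or.inr ⟨rfl, rfl, rfl⟩

/-- the image of a corner -/
theorem Co_π {a y b : W} (h : Q.Z'.Co a y b) : Z.Co (O.π a) (O.π y) (O.π b) ∨
    ∃ o, Q.mn a y b o ≠ 0 := by
  rcases h with h | ⟨o, h⟩
  · exact Or.inl (Or.inl (Q.Rc_π h))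
  · rw [Q.mu_eq] at h
    by_cases h' : Q.mo a y b o ≠ 0
    · left
      right
      refine ⟨O.π o, ?_⟩
      rw [← Q.mo_π _ _ _ _ h']
      exact h'
    · right
      exact ⟨o, by omega⟩

/-- a corner between a pole and an in-arrow -/
theorem Co_π' {a y b : W} (h : Q.Z'.Co a y b) (ha : O.gx.ar y a) (hb : O.gx.ar b y) :
    Z.Co (O.π a) (O.π y) (O.π b) := by
  rcases Q.Co_π h with h | ⟨o, h⟩
  · exact h
  · exact absurd (Q.mn_out _ _ _ _ h ha) (ZC.not_both hb)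

/-- a corner has a lift -/
theorem Co_lift {a y b : V} (h : Z.Co a y b) : ∃ a' y' b', O.π a' = a ∧ O.π y' = y ∧ O.π b' = b ∧
    Q.Z'.Co a' y' b' := by
  rcases h with ⟨e, he, h⟩ | ⟨o, h⟩
  · have hc := Q.Z'.Co_re (Q.mem_up.2 he)
    rcases h with ⟨h0, h1, h2⟩ | ⟨h0, h1, h2⟩
    · exact ⟨_, _, _, (O.π_up0 e).trans h0, (O.π_up1 e).trans h1, (O.π_up2 e).trans h2, hc⟩
    · exact ⟨_, _, _, (O.π_up2 e).trans h2, (O.π_up1 e).trans h1, (O.π_up0 e).trans h0, hc.symm⟩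
  · obtain ⟨a', y', b', o', h1, h2, h3, h4, h5⟩ := Q.lift _ _ _ _ h
    refine ⟨a', y', b', h1, h2, h3, Or.inr ⟨o', ?_⟩⟩
    rw [Q.mu_eq]
    omega

theorem IJ_π {y a b : W} (h : Q.Z'.IJ y a b) : Z.IJ (O.π y) (O.π a) (O.π b) := by
  induction h with
  | rel a b h =>
    obtain ⟨hc, ha, hb⟩ := h
    rcases Q.Co_π hc with h | ⟨o, h⟩
    · exact Relation.EqvGen.rel _ _ ⟨h, O.ar_π ha, O.ar_π hb⟩
    · rw [(Q.mn_in _ _ _ _ h ha).2]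
      exact Relation.EqvGen.refl _
  | refl a => exact Relation.EqvGen.refl _
  | symm a b _ ih => exact ih.symm
  | trans a b c _ _ ih1 ih2 => exact ih1.trans _ _ _ ih2

theorem IJ_lift {y a b : V} (h : Z.IJ y a b) : (K.ar a y → O.e a y = O.e b y) ∧
    ∀ y' a' b', O.π y' = y → O.π a' = a → O.π b' = b → O.gx.ar a' y' → O.gx.ar b' y' →
      Q.Z'.IJ y' a' b' := by
  induction h with
  | rel a b h =>
    obtain ⟨hc, ha, hb⟩ := h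
    obtain ⟨a1, y1, b1, e1, e2, e3, hc'⟩ := Q.Co_lift hc
    have k1 : O.gx.ar a1 y1 := O.ar_of_E hc'.E1.symm (by rw [e1, e2]; exact ha)
    have k2 : O.gx.ar b1 y1 := O.ar_of_E hc'.E2.symm (by rw [e3, e2]; exact hb)
    have l1 := O.ar_e' k1
    have l2 := O.ar_e' k2
    rw [e1, e2] at l1
    rw [e3, e2] at l2
    refine ⟨fun _ => l1.trans l2.symm, ?_⟩
    intro y' a' b' f1 f2 f3 f4 f5
    have l3 := O.ar_e' f4
    rw [f2, f1] at l3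
    have hy : y1 = y' := l1.symm.trans l3
    subst hy
    exact ((Q.fib _ _ _ f4 k1 (f2.trans e1.symm)).trans'
      (Relation.EqvGen.rel _ _ ⟨hc', k1, k2⟩)).trans' (Q.fib _ _ _ k2 f5 (e3.trans f3.symm))
  | refl a =>
    refine ⟨fun _ => rfl, ?_⟩
    intro y' a' b' f1 f2 f3 f4 f5
    exact Q.fib _ _ _ f4 f5 (f2.trans f3.symm)
  | symm a b h ih =>
    refine ⟨fun ha => (ih.1 ((ZC.IJ.ar h).2 ha)).symm, ?_⟩
    intro y' a' b' f1 f2 f3 f4 f5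
    exact (ih.2 y' b' a' f1 f3 f2 f5 f4).symm'
  | trans a b c h1 h2 ih1 ih2 =>
    refine ⟨fun ha => (ih1.1 ha).trans (ih2.1 ((ZC.IJ.ar h1).1 ha)), ?_⟩
    intro y' a' c' f1 f2 f3 f4 f5
    obtain ⟨b', hb'⟩ := O.sur b
    have ha : K.ar a y := by
      have := O.ar_π f4
      rwa [f2, f1] at this
    have l3 := O.ar_e' f4
    rw [f2, f1] at l3
    have hb : O.gx.ar b' y' := by
      refine ⟨?_, ?_⟩
      · rw [hb', f1]
        exact (ZC.IJ.ar h1).1 ha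
      · rw [hb', f1, ← ih1.1 ha, l3]
    exact (ih1.2 y' a' b' f1 f2 hb' f4 hb).trans' (ih2.2 y' b' c' f1 hb' f3 hb f5)

/-- the image of a piece -/
theorem Pc_π {y n : W} (h : O.gx.ar n y) : O.π '' Q.Z'.Pc y n = Z.Pc (O.π y) (O.π n) := by
  ext m
  constructor
  · rintro ⟨m', hm', rfl⟩
    exact Q.IJ_π hm'
  · intro hm
    have hm : Z.IJ (O.π y) (O.π n) m := hm
    obtain ⟨m', rfl⟩ := O.sur m
    refine ⟨m', ?_, rfl⟩
    have k := Q.IJ_lift hm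
    have hm' : O.gx.ar m' y :=
      ⟨(ZC.IJ.ar hm).1 (O.ar_π h), by rw [← k.1 (O.ar_π h)]; exact O.ar_e' h⟩
    exact k.2 y n m' rfl rfl rfl h hm'

/-- a piece is determined by its image -/
theorem Pc_inj {y y' n n' : W} (h : O.gx.ar n y) (h' : O.gx.ar n' y') (e : O.π y = O.π y')
    (e' : O.π '' Q.Z'.Pc y n = O.π '' Q.Z'.Pc y' n') : y = y' ∧ Q.Z'.Pc y n = Q.Z'.Pc y' n' := by
  have h1 : O.π n ∈ O.π '' Q.Z'.Pc y' n' := by
    rw [← e']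
    exact ⟨n, ZC.self_Pc y n, rfl⟩
  obtain ⟨m, hm, h2⟩ := h1
  have hm : Q.Z'.IJ y' n' m := hm
  have h3 : O.gx.ar m y' := (ZC.IJ.ar hm).1 h'
  have h4 : y = y' := by
    rw [← O.ar_e' h, ← O.ar_e' h3, e, h2]
  subst h4
  refine ⟨rfl, ZC.Pc_eq.2 ?_⟩
  exact (Q.fib _ _ _ h h3 h2.symm).trans' hm.symm'

omit Q in
/-- the projection of the nodes -/
def gN (O : OpW K W) : NQ W → NQ V
  | NQ.inn y n => NQ.inn (O.π y) (O.π n)
  | NQ.mid y o X k => NQ.mid (O.π y) (O.π o) (O.π '' X) k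
  | NQ.pol y a C => NQ.pol (O.π y) (O.π a) (O.π '' C)

omit Q in
theorem im_smul (h : H) (X : Set W) : O.π '' ((fun x => h • x) '' X) =
    (fun x => h • x) '' (O.π '' X) := by
  rw [Set.image_image, Set.image_image]
  exact Set.image_congr fun x _ => O.π_smul h x

omit Q in
theorem gN_smul (h : H) (t : NQ W) : gN O (h • t) = h • gN O t := by
  cases t with
  | inn y n =>
    show NQ.inn (O.π (h • y)) (O.π (h • n)) = _
    rw [O.π_smul, O.π_smul]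
    rfl
  | mid y o X k =>
    show NQ.mid (O.π (h • y)) (O.π (h • o)) (O.π '' ((fun x => h • x) '' X)) k = _
    rw [O.π_smul, O.π_smul, im_smul]
    rfl
  | pol y a C =>
    show NQ.pol (O.π (h • y)) (O.π (h • a)) (O.π '' ((fun x => h • x) '' C)) = _
    rw [O.π_smul, O.π_smul, im_smul]
    rfl

omit Q in
theorem pols_inv (Z : ZC K) (h : H) : ∀ t ∈ Z.pols, h • t ∈ Z.pols := by
  rintro _ ⟨y, a, n, rfl, h1, h2, h3⟩
  refine ⟨h • y, h • a, h • n, ?_, K.ar_smul h _ _ h1, K.ar_smul h _ _ h2, h3.smul h⟩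
  rw [NQ.smul_pol, ZC.Pc_smul]

omit Q in
theorem pcs_inv (Z : ZC K) (h : H) : ∀ t ∈ Z.pcs, h • t ∈ Z.pcs := by
  rintro _ ⟨y, n, rfl, h1⟩
  refine ⟨h • y, h • n, ?_, K.ar_smul h _ _ h1⟩
  rw [NQ.smul_pol, ZC.Pc_smul]

omit Q in
theorem fin_pcs (Z : ZC K) : FinOrb H Z.pcs := by
  refine SAF.FinOrb.image K.fin_IN (fun p => NQ.pol p.1 p.1 (Z.Pc p.1 p.2)) ?_ ?_
  · rintro _ ⟨y, n, rfl, h⟩
    exact ⟨(y, n), h, 1, one_smul _ _⟩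
  · rintro a - _ - ⟨h, rfl⟩
    refine ⟨h, ?_⟩
    show h • NQ.pol a.1 a.1 (Z.Pc a.1 a.2) = NQ.pol (h • a.1) (h • a.1) (Z.Pc (h • a.1) (h • a.2))
    rw [NQ.smul_pol, ZC.Pc_smul]

/-- the private poles -/
theorem pols_eq : oc H Q.Z'.pols = oc H Z.pols := by
  refine oc_bij Q.Z'.fin_pols Z.fin_pols (pols_inv Q.Z') (gN O) (fun h t _ => gN_smul h t) ?_ ?_ ?_
  · rintro _ ⟨y, a, n, rfl, h1, h2, h3⟩
    refine ⟨O.π y, O.π a, O.π n, ?_, O.ar_π h1, O.ar_π h2, Q.Co_π' h3 h1 h2⟩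
    show NQ.pol (O.π y) (O.π a) (O.π '' Q.Z'.Pc y n) = _
    rw [Q.Pc_π h2]
  · rintro _ ⟨y, a, n, rfl, h1, h2, h3⟩
    obtain ⟨a', y', n', rfl, rfl, rfl, hc⟩ := Q.Co_lift h3
    have k1 := O.ar_of_E hc.E1 h1
    have k2 := O.ar_of_E hc.E2.symm h2
    refine ⟨_, ⟨y', a', n', rfl, k1, k2, hc⟩, ?_⟩
    show NQ.pol (O.π y') (O.π a') (O.π '' Q.Z'.Pc y' n') = _
    rw [Q.Pc_π k2]
  · rintro _ ⟨y, a, n, rfl, h1, h2, h3⟩ _ ⟨y', a', n', rfl, h1', h2', h3'⟩ e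
    obtain ⟨e1, e2, e3⟩ := NQ.pol.inj (show NQ.pol (O.π y) (O.π a) (O.π '' Q.Z'.Pc y n) =
      NQ.pol (O.π y') (O.π a') (O.π '' Q.Z'.Pc y' n') from e)
    obtain ⟨rfl, e4⟩ := Q.Pc_inj h2 h2' e1 e3
    have e5 : a = a' := by
      rw [← O.ar_e' h1, ← O.ar_e' h1', e2]
    rw [e5, e4]

/-- the pieces -/
theorem pcs_eq : oc H Q.Z'.pcs = oc H Z.pcs := by
  refine oc_bij (fin_pcs Q.Z') (fin_pcs Z) (pcs_inv Q.Z') (gN O) (fun h t _ => gN_smul h t) ?_ ?_ ?_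
  · rintro _ ⟨y, n, rfl, h⟩
    refine ⟨O.π y, O.π n, ?_, O.ar_π h⟩
    show NQ.pol (O.π y) (O.π y) (O.π '' Q.Z'.Pc y n) = _
    rw [Q.Pc_π h]
  · rintro _ ⟨y, n, rfl, h⟩
    obtain ⟨n', rfl⟩ := O.sur n
    have k : O.gx.ar n' (O.e (O.π n') y) := O.ar_e n' h
    refine ⟨_, ⟨O.e (O.π n') y, n', rfl, k⟩, ?_⟩
    show NQ.pol (O.π _) (O.π _) (O.π '' Q.Z'.Pc _ n') = _
    rw [Q.Pc_π k, O.π_e _ _ h]
  · rintro _ ⟨y, n, rfl, h⟩ _ ⟨y', n', rfl, h'⟩ e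
    obtain ⟨e1, -, e3⟩ := NQ.pol.inj (show NQ.pol (O.π y) (O.π y) (O.π '' Q.Z'.Pc y n) =
      NQ.pol (O.π y') (O.π y') (O.π '' Q.Z'.Pc y' n') from e)
    obtain ⟨rfl, e4⟩ := Q.Pc_inj h h' e1 e3
    rw [e4]

/-! ### the pole strands -/

omit Q in
/-- the real strands -/
def rstr (Z : ZC K) : Set (LQ K.LE V) := {t | ∃ e ∈ Z.R, t = LQ.re e ∧
  ((K.ar (K.c0 e) (K.c1 e) ∧ K.ar (K.c1 e) (K.c2 e)) ∨
    (K.ar (K.c2 e) (K.c1 e) ∧ K.ar (K.c1 e) (K.c0 e)))}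

omit Q in
theorem strs_rz (Z : ZC K) : Z.strs = rstr Z ∪ Z.zstr := by
  ext t
  constructor
  · intro ht
    cases t with
    | re e => exact Or.inl ⟨e, ht.1, rfl, ht.2⟩
    | fl x y z o k => exact Or.inr ⟨x, y, z, o, k, rfl, ht⟩
  · rintro (⟨e, h1, rfl, h2⟩ | ⟨x, y, z, o, k, rfl, h⟩)
    · exact ⟨h1, h2⟩
    · exact h

omit Q in
theorem rstr_inv (Z : ZC K) (h : H) : ∀ t ∈ rstr Z, h • t ∈ rstr Z := by
  rintro _ ⟨e, h1, rfl, h2⟩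
  refine ⟨h • e, Z.R.smul_mem h h1, rfl, ?_⟩
  rw [K.c0_smul, K.c1_smul, K.c2_smul]
  exact h2.imp (fun k => ⟨K.ar_smul h _ _ k.1, K.ar_smul h _ _ k.2⟩)
    (fun k => ⟨K.ar_smul h _ _ k.1, K.ar_smul h _ _ k.2⟩)

omit Q in
theorem fin_rstr (Z : ZC K) : FinOrb H (rstr Z) := by
  refine SAF.FinOrb.mono ?_ Z.fin_strs
  rw [strs_rz]
  exact Set.subset_union_left

omit Q in
theorem oc_strs (Z : ZC K) : oc H Z.strs = oc H (rstr Z) + oc H Z.zstr := by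
  have d : Dj H (rstr Z) Z.zstr := by
    refine Dj.of_inv (fun g a ha => rstr_inv Z g a ha) ?_
    rintro _ ⟨e, h1, rfl, h2⟩ ⟨x, y, z, o, k, e, -⟩
    cases e
  rw [strs_rz, oc_union d (fin_rstr Z) Z.fin_zstr]

omit Q in
/-- the lift of the lines -/
noncomputable def upL (O : OpW K W) : LQ K.LE V → LQ O.gx.LE W
  | LQ.re e => LQ.re (O.up e)
  | LQ.fl x y z o k => LQ.fl (O.σ x) (O.σ y) (O.σ z) (O.σ o) k

omit Q in
/-- the projection of the lines -/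
noncomputable def gL (O : OpW K W) : LQ O.gx.LE W → LQ K.LE V
  | LQ.re e => LQ.fl (O.π (O.gx.c0 e)) (O.π (O.gx.c1 e)) (O.π (O.gx.c2 e)) (O.π (O.gx.c1 e)) 0
  | LQ.fl x y z o k => LQ.fl (O.π x) (O.π y) (O.π z) (O.π o) k

omit Q in
theorem ar_up10 (e : K.LE) : O.gx.ar (O.gx.c1 (O.up e)) (O.gx.c0 (O.up e)) ↔
    K.ar (K.c1 e) (K.c0 e) := by
  rw [O.ar_iff (O.gx.c_E0 (O.up e)), O.π_up0, O.π_up1]

omit Q in
theorem ar_up01 (e : K.LE) : O.gx.ar (O.gx.c0 (O.up e)) (O.gx.c1 (O.up e)) ↔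
    K.ar (K.c0 e) (K.c1 e) := by
  rw [O.ar_iff (O.gx.c_E0 (O.up e)).symm, O.π_up0, O.π_up1]

omit Q in
theorem ar_up12 (e : K.LE) : O.gx.ar (O.gx.c1 (O.up e)) (O.gx.c2 (O.up e)) ↔
    K.ar (K.c1 e) (K.c2 e) := by
  rw [O.ar_iff (O.gx.c_E2 (O.up e)), O.π_up1, O.π_up2]

omit Q in
theorem ar_up21 (e : K.LE) : O.gx.ar (O.gx.c2 (O.up e)) (O.gx.c1 (O.up e)) ↔
    K.ar (K.c2 e) (K.c1 e) := by
  rw [O.ar_iff (O.gx.c_E2 (O.up e)).symm, O.π_up1, O.π_up2]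

theorem rstr_eq : oc H (rstr Q.Z') = oc H (rstr Z) := by
  refine (oc_bij (fin_rstr Z) (fin_rstr Q.Z') (rstr_inv Z) (upL O) ?_ ?_ ?_ ?_).symm
  · rintro h _ ⟨e, h1, rfl, h2⟩
    rfl
  · rintro _ ⟨e, h1, rfl, h2⟩
    refine ⟨O.up e, Q.mem_up.2 h1, rfl, ?_⟩
    rw [ar_up01, ar_up12, ar_up10, ar_up21]
    exact h2
  · rintro _ ⟨e', h1, rfl, h2⟩
    obtain ⟨e, he, rfl⟩ := (Q.R_iff _).1 h1
    rw [ar_up01, ar_up12, ar_up10, ar_up21] at h2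
    exact ⟨_, ⟨e, he, rfl, h2⟩, rfl⟩
  · rintro _ ⟨e, h1, rfl, h2⟩ _ ⟨e', h1', rfl, h2'⟩ h
    have h : (LQ.re (O.up e) : LQ O.gx.LE W) = LQ.re (O.up e') := h
    rw [O.up_inj (LQ.re.inj h)]

/-- a zero strand is old -/
theorem mo_str {x y z o : W} (_h : Q.Z'.mu x y z o ≠ 0) (h1 : O.gx.ar x y) (h2 : O.gx.ar y z) :
    Q.mn x y z o = 0 := by
  by_contra hn
  exact ZC.not_both h2 (Q.mn_in _ _ _ _ hn h1).1

theorem mu_old {x y z o : W} (h : Q.Z'.mu x y z o ≠ 0) (hn : Q.mn x y z o = 0) :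
    Q.mo x y z o ≠ 0 ∧ Q.Z'.mu x y z o = Z.mu (O.π x) (O.π y) (O.π z) (O.π o) := by
  rw [Q.mu_eq, hn, add_zero] at h ⊢
  exact ⟨h, Q.mo_π _ _ _ _ h⟩

theorem zstr_eq : oc H Q.Z'.zstr = oc H Z.zstr := by
  refine oc_bij Q.Z'.fin_zstr Z.fin_zstr Q.Z'.zstr_inv (gL O) ?_ ?_ ?_ ?_
  · rintro h _ ⟨x, y, z, o, k, rfl, h1, h2, h3⟩
    show (LQ.fl (O.π (h • x)) (O.π (h • y)) (O.π (h • z)) (O.π (h • o)) k : LQ K.LE V) = _
    rw [O.π_smul, O.π_smul, O.π_smul, O.π_smul]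
    rfl
  · rintro _ ⟨x, y, z, o, k, rfl, h1, h2, h3⟩
    have h0 : Q.Z'.mu x y z o ≠ 0 := by omega
    obtain ⟨-, k2⟩ := Q.mu_old h0 (Q.mo_str h0 h2 h3)
    exact ⟨_, _, _, _, k, rfl, by rw [← k2]; exact h1, O.ar_π h2, O.ar_π h3⟩
  · rintro _ ⟨x, y, z, o, k, rfl, h1, h2, h3⟩
    obtain ⟨x', y', z', o', rfl, rfl, rfl, rfl, h5⟩ := Q.lift x y z o (by omega)
    have h6 : Q.Z'.mu x' y' z' o' ≠ 0 := by
      rw [Q.mu_eq]
      omega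
    have h7 : k < Q.Z'.mu x' y' z' o' := by
      rw [Q.mu_eq, Q.mo_π _ _ _ _ h5]
      omega
    refine ⟨LQ.fl x' y' z' o' k, ⟨x', y', z', o', k, rfl, h7, ?_, ?_⟩, rfl⟩
    · exact O.ar_of_E (Q.Z'.Co_fl h7).E1.symm h2
    · exact O.ar_of_E (Q.Z'.Co_fl h7).E2 h3
  · rintro _ ⟨x, y, z, o, k, rfl, h1, h2, h3⟩ _ ⟨x', y', z', o', k', rfl, h1', h2', h3'⟩ e
    obtain ⟨e1, e2, e3, e4, rfl⟩ := LQ.fl.inj (show (LQ.fl (O.π x) (O.π y) (O.π z) (O.π o) k :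
      LQ K.LE V) = LQ.fl (O.π x') (O.π y') (O.π z') (O.π o') k' from e)
    have h0 : Q.Z'.mu x y z o ≠ 0 := by omega
    have h0' : Q.Z'.mu x' y' z' o' ≠ 0 := by omega
    obtain ⟨rfl, rfl, rfl, rfl⟩ := Q.uniq _ _ _ _ _ _ _ _ (Q.mu_old h0 (Q.mo_str h0 h2 h3)).1
      (Q.mu_old h0' (Q.mo_str h0' h2' h3')).1 e1 e2 e3 e4
    rfl

theorem strs_eq : oc H Q.Z'.strs = oc H Z.strs := by
  rw [oc_strs, oc_strs, Q.rstr_eq, Q.zstr_eq]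

/-- THE OPENING DOES NOT CHANGE THE POLE EXCESS -/
theorem exc_eq : Q.Z'.exc = Z.exc := by
  unfold ZC.exc
  rw [Q.strs_eq, Q.pols_eq]

/-! ### the cycles without poles -/

omit Q in
/-- the in-nodes -/
def inn (K : GX H V) : Set (NQ V) := {t | ∃ y n, t = NQ.inn y n ∧ K.ar n y}

omit Q in
/-- the real lines between in-arrows -/
def rIE (Z : ZC K) : Set (LQ K.LE V) := {t | ∃ e ∈ Z.R, t = LQ.re e ∧
  K.ar (K.c0 e) (K.c1 e) ∧ K.ar (K.c2 e) (K.c1 e)}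

omit Q in
/-- flags between in-arrows, with multiplicity `f` -/
def zIE (K : GX H V) (f : V → V → V → V → ℕ) : Set (LQ K.LE V) :=
  {t | ∃ x y z o k, t = LQ.fl x y z o k ∧ k < f x y z o ∧ K.ar x y ∧ K.ar z y}

omit Q in
/-- midpoints between in-arrows, with multiplicity `f` -/
def zIT (K : GX H V) (f : V → V → V → V → ℕ) : Set (NQ V) :=
  {t | ∃ x y z o k, t = NQ.mid y o {x, z} k ∧ k < f x y z o ∧ K.ar x y ∧ K.ar z y}

/-- the new flags -/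
def nF : Set (LQ O.gx.LE W) := zIE O.gx Q.mn

/-- the new midpoints -/
def nM : Set (NQ W) := zIT O.gx Q.mn

omit Q in
theorem inn_inv (K : GX H V) (h : H) : ∀ t ∈ inn K, h • t ∈ inn K := by
  rintro _ ⟨y, n, rfl, h1⟩
  exact ⟨h • y, h • n, rfl, K.ar_smul h _ _ h1⟩

omit Q in
theorem rIE_inv (Z : ZC K) (h : H) : ∀ t ∈ rIE Z, h • t ∈ rIE Z := by
  rintro _ ⟨e, h1, rfl, h2⟩
  refine ⟨h • e, Z.R.smul_mem h h1, rfl, ?_⟩
  rw [K.c0_smul, K.c1_smul, K.c2_smul]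
  exact ⟨K.ar_smul h _ _ h2.1, K.ar_smul h _ _ h2.2⟩

omit Q in
theorem zIE_inv (K : GX H V) {f : V → V → V → V → ℕ}
    (hf : ∀ (h : H) (x y z o : V), f (h • x) (h • y) (h • z) (h • o) = f x y z o) (h : H) :
    ∀ t ∈ zIE K f, h • t ∈ zIE K f := by
  rintro _ ⟨x, y, z, o, k, rfl, h1, h2, h3⟩
  exact ⟨_, _, _, _, k, rfl, by rw [hf]; exact h1, K.ar_smul h _ _ h2, K.ar_smul h _ _ h3⟩

omit Q in
theorem zIT_inv (K : GX H V) {f : V → V → V → V → ℕ}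
    (hf : ∀ (h : H) (x y z o : V), f (h • x) (h • y) (h • z) (h • o) = f x y z o) (h : H) :
    ∀ t ∈ zIT K f, h • t ∈ zIT K f := by
  rintro _ ⟨x, y, z, o, k, rfl, h1, h2, h3⟩
  refine ⟨h • x, h • y, h • z, h • o, k, ?_, by rw [hf]; exact h1, K.ar_smul h _ _ h2,
    K.ar_smul h _ _ h3⟩
  rw [NQ.smul_mid, ZC.pair_smul]

omit Q in
theorem IE_rz (Z : ZC K) : (Z.IE : Set (LQ K.LE V)) = rIE Z ∪ zIE K Z.mu := by
  ext t
  constructor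
  · intro ht
    cases t with
    | re e => exact Or.inl ⟨e, ht.1, rfl, ht.2⟩
    | fl x y z o k => exact Or.inr ⟨x, y, z, o, k, rfl, ht⟩
  · rintro (⟨e, h1, rfl, h2⟩ | ⟨x, y, z, o, k, rfl, h⟩)
    · exact ⟨h1, h2⟩
    · exact h

omit Q in
theorem IT_rz (Z : ZC K) : (Z.IT : Set (NQ V)) = inn K ∪ zIT K Z.mu := by
  ext t
  constructor
  · intro ht
    cases t with
    | inn y n => exact Or.inl ⟨y, n, rfl, ht⟩
    | mid y o X k =>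
      obtain ⟨x, z, rfl, h⟩ := ht
      exact Or.inr ⟨x, y, z, o, k, rfl, h⟩
    | pol y a C => exact ht.elim
  · rintro (⟨y, n, rfl, h⟩ | ⟨x, y, z, o, k, rfl, h⟩)
    · exact h
    · exact ⟨x, z, rfl, h⟩

omit Q in
theorem fin_IE (Z : ZC K) : FinOrb H (Z.IE : Set (LQ K.LE V)) := SAF.FinOrb.mono Z.IE_sub Z.fin_PE

omit Q in
theorem fin_IT (Z : ZC K) : FinOrb H (Z.IT : Set (NQ V)) := SAF.FinOrb.mono Z.IT_sub Z.fin_PT

omit Q in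
theorem fin_rIE (Z : ZC K) : FinOrb H (rIE Z) := by
  refine SAF.FinOrb.mono ?_ (fin_IE Z)
  rw [IE_rz]
  exact Set.subset_union_left

omit Q in
theorem fin_zIE (Z : ZC K) : FinOrb H (zIE K Z.mu) := by
  refine SAF.FinOrb.mono ?_ (fin_IE Z)
  rw [IE_rz]
  exact Set.subset_union_right

omit Q in
theorem fin_inn (Z : ZC K) : FinOrb H (inn K) := by
  refine SAF.FinOrb.mono ?_ (fin_IT Z)
  rw [IT_rz]
  exact Set.subset_union_left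

omit Q in
theorem fin_zIT (Z : ZC K) : FinOrb H (zIT K Z.mu) := by
  refine SAF.FinOrb.mono ?_ (fin_IT Z)
  rw [IT_rz]
  exact Set.subset_union_right

omit Q in
theorem oc_IE (Z : ZC K) : oc H (Z.IE : Set (LQ K.LE V)) = oc H (rIE Z) + oc H (zIE K Z.mu) := by
  have d : Dj H (rIE Z) (zIE K Z.mu) := by
    refine Dj.of_inv (fun g a ha => rIE_inv Z g a ha) ?_
    rintro _ ⟨e, h1, rfl, h2⟩ ⟨x, y, z, o, k, e, -⟩
    cases e
  rw [IE_rz, oc_union d (fin_rIE Z) (fin_zIE Z)]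

omit Q in
theorem oc_IT (Z : ZC K) : oc H (Z.IT : Set (NQ V)) = oc H (inn K) + oc H (zIT K Z.mu) := by
  have d : Dj H (inn K) (zIT K Z.mu) := by
    refine Dj.of_inv (fun g a ha => inn_inv K g a ha) ?_
    rintro _ ⟨y, n, rfl, h2⟩ ⟨x, y, z, o, k, e, -⟩
    cases e
  rw [IT_rz, oc_union d (fin_inn Z) (fin_zIT Z)]

theorem rIE_eq : oc H (rIE Q.Z') = oc H (rIE Z) := by
  refine (oc_bij (fin_rIE Z) (fin_rIE Q.Z') (rIE_inv Z) (upL O) ?_ ?_ ?_ ?_).symm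
  · rintro h _ ⟨e, h1, rfl, h2⟩
    rfl
  · rintro _ ⟨e, h1, rfl, h2⟩
    refine ⟨O.up e, Q.mem_up.2 h1, rfl, ?_⟩
    rw [ar_up01, ar_up21]
    exact h2
  · rintro _ ⟨e', h1, rfl, h2⟩
    obtain ⟨e, he, rfl⟩ := (Q.R_iff _).1 h1
    rw [ar_up01, ar_up21] at h2
    exact ⟨_, ⟨e, he, rfl, h2⟩, rfl⟩
  · rintro _ ⟨e, h1, rfl, h2⟩ _ ⟨e', h1', rfl, h2'⟩ h
    have h : (LQ.re (O.up e) : LQ O.gx.LE W) = LQ.re (O.up e') := h
    rw [O.up_inj (LQ.re.inj h)]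

theorem mo_sm (h : H) (x y z o : W) :
    Q.mo (h • x) (h • y) (h • z) (h • o) = Q.mo x y z o := by
  have h3 := Q.Z'.sm h x y z o
  rw [Q.mu_eq, Q.mu_eq, Q.mn_sm] at h3
  omega

theorem mn_sy (x y z o : W) : Q.mn x y z o = Q.mn z y x o := by
  have h3 := Q.Z'.sy x y z o
  rw [Q.mu_eq, Q.mu_eq, Q.mo_sy] at h3
  omega

theorem zIE_on : zIE O.gx Q.Z'.mu = zIE O.gx Q.mo ∪ Q.nF := by
  ext t
  constructor
  · rintro ⟨x, y, z, o, k, rfl, h1, h2⟩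
    by_cases hn : Q.mn x y z o = 0
    · left
      refine ⟨x, y, z, o, k, rfl, ?_, h2⟩
      rw [Q.mu_eq, hn] at h1
      omega
    · right
      refine ⟨x, y, z, o, k, rfl, ?_, h2⟩
      rw [Q.mu_eq, Q.disj _ _ _ _ hn] at h1
      omega
  · rintro (⟨x, y, z, o, k, rfl, h1, h2⟩ | ⟨x, y, z, o, k, rfl, h1, h2⟩)
    · exact ⟨x, y, z, o, k, rfl, by rw [Q.mu_eq]; omega, h2⟩
    · exact ⟨x, y, z, o, k, rfl, by rw [Q.mu_eq]; omega, h2⟩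

theorem zIT_on : zIT O.gx Q.Z'.mu = zIT O.gx Q.mo ∪ Q.nM := by
  ext t
  constructor
  · rintro ⟨x, y, z, o, k, rfl, h1, h2⟩
    by_cases hn : Q.mn x y z o = 0
    · left
      refine ⟨x, y, z, o, k, rfl, ?_, h2⟩
      rw [Q.mu_eq, hn] at h1
      omega
    · right
      refine ⟨x, y, z, o, k, rfl, ?_, h2⟩
      rw [Q.mu_eq, Q.disj _ _ _ _ hn] at h1
      omega
  · rintro (⟨x, y, z, o, k, rfl, h1, h2⟩ | ⟨x, y, z, o, k, rfl, h1, h2⟩)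
    · exact ⟨x, y, z, o, k, rfl, by rw [Q.mu_eq]; omega, h2⟩
    · exact ⟨x, y, z, o, k, rfl, by rw [Q.mu_eq]; omega, h2⟩

theorem fin_nF : FinOrb H Q.nF := by
  refine SAF.FinOrb.mono ?_ (fin_zIE Q.Z')
  rw [Q.zIE_on]
  exact Set.subset_union_right

theorem fin_nM : FinOrb H Q.nM := by
  refine SAF.FinOrb.mono ?_ (fin_zIT Q.Z')
  rw [Q.zIT_on]
  exact Set.subset_union_right

theorem fin_oF : FinOrb H (zIE O.gx Q.mo) := by
  refine SAF.FinOrb.mono ?_ (fin_zIE Q.Z')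
  rw [Q.zIE_on]
  exact Set.subset_union_left

theorem fin_oM : FinOrb H (zIT O.gx Q.mo) := by
  refine SAF.FinOrb.mono ?_ (fin_zIT Q.Z')
  rw [Q.zIT_on]
  exact Set.subset_union_left

theorem zIE_eq : oc H (zIE O.gx Q.Z'.mu) = oc H (zIE K Z.mu) + oc H Q.nF := by
  have d : Dj H (zIE O.gx Q.mo) Q.nF := by
    refine Dj.of_inv (fun g a ha => zIE_inv O.gx Q.mo_sm g a ha) ?_
    rintro _ ⟨x, y, z, o, k, rfl, h1, h2⟩ ⟨x', y', z', o', k', e, h1', h2'⟩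
    obtain ⟨rfl, rfl, rfl, rfl, rfl⟩ := LQ.fl.inj e
    have := Q.disj x y z o (by omega)
    omega
  rw [Q.zIE_on, oc_union d Q.fin_oF Q.fin_nF]
  congr 1
  refine oc_bij Q.fin_oF (fin_zIE Z) (zIE_inv O.gx Q.mo_sm) (gL O) ?_ ?_ ?_ ?_
  · rintro h _ ⟨x, y, z, o, k, rfl, h1, h2, h3⟩
    show (LQ.fl (O.π (h • x)) (O.π (h • y)) (O.π (h • z)) (O.π (h • o)) k : LQ K.LE V) = _
    rw [O.π_smul, O.π_smul, O.π_smul, O.π_smul]
    rfl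
  · rintro _ ⟨x, y, z, o, k, rfl, h1, h2, h3⟩
    have h0 : Q.mo x y z o ≠ 0 := by omega
    exact ⟨_, _, _, _, k, rfl, by rw [← Q.mo_π _ _ _ _ h0]; exact h1, O.ar_π h2, O.ar_π h3⟩
  · rintro _ ⟨x, y, z, o, k, rfl, h1, h2, h3⟩
    obtain ⟨x', y', z', o', rfl, rfl, rfl, rfl, h5⟩ := Q.lift x y z o (by omega)
    have h7 : k < Q.mo x' y' z' o' := by
      rw [Q.mo_π _ _ _ _ h5]
      omega
    have h8 : k < Q.Z'.mu x' y' z' o' := by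
      rw [Q.mu_eq]
      omega
    refine ⟨LQ.fl x' y' z' o' k, ⟨x', y', z', o', k, rfl, h7, ?_, ?_⟩, rfl⟩
    · exact O.ar_of_E (Q.Z'.Co_fl h8).E1.symm h2
    · exact O.ar_of_E (Q.Z'.Co_fl h8).E2.symm h3
  · rintro _ ⟨x, y, z, o, k, rfl, h1, h2, h3⟩ _ ⟨x', y', z', o', k', rfl, h1', h2', h3'⟩ e
    obtain ⟨e1, e2, e3, e4, rfl⟩ := LQ.fl.inj (show (LQ.fl (O.π x) (O.π y) (O.π z) (O.π o) k :
      LQ K.LE V) = LQ.fl (O.π x') (O.π y') (O.π z') (O.π o') k' from e)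
    obtain ⟨rfl, rfl, rfl, rfl⟩ := Q.uniq _ _ _ _ _ _ _ _ (by omega) (by omega) e1 e2 e3 e4
    rfl

theorem zIT_eq : oc H (zIT O.gx Q.Z'.mu) = oc H (zIT K Z.mu) + oc H Q.nM := by
  have d : Dj H (zIT O.gx Q.mo) Q.nM := by
    refine Dj.of_inv (fun g a ha => zIT_inv O.gx Q.mo_sm g a ha) ?_
    rintro _ ⟨x, y, z, o, k, rfl, h1, h2⟩ ⟨x', y', z', o', k', e, h1', h2'⟩
    obtain ⟨rfl, rfl, e3, rfl⟩ := NQ.mid.inj e
    rcases Set.pair_eq_pair_iff.1 e3 with ⟨rfl, rfl⟩ | ⟨rfl, rfl⟩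
    · have := Q.disj x y z o (by omega)
      omega
    · have := Q.disj z y x o (by omega)
      have k1 := Q.mo_sy x y z o
      omega
  rw [Q.zIT_on, oc_union d Q.fin_oM Q.fin_nM]
  congr 1
  refine oc_bij Q.fin_oM (fin_zIT Z) (zIT_inv O.gx Q.mo_sm) (gN O) (fun h t _ => gN_smul h t)
    ?_ ?_ ?_
  · rintro _ ⟨x, y, z, o, k, rfl, h1, h2, h3⟩
    have h0 : Q.mo x y z o ≠ 0 := by omega
    refine ⟨O.π x, O.π y, O.π z, O.π o, k, ?_, by rw [← Q.mo_π _ _ _ _ h0]; exact h1, O.ar_π h2,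
      O.ar_π h3⟩
    show NQ.mid (O.π y) (O.π o) (O.π '' {x, z}) k = _
    rw [Set.image_pair]
  · rintro _ ⟨x, y, z, o, k, rfl, h1, h2, h3⟩
    obtain ⟨x', y', z', o', rfl, rfl, rfl, rfl, h5⟩ := Q.lift x y z o (by omega)
    have h7 : k < Q.mo x' y' z' o' := by
      rw [Q.mo_π _ _ _ _ h5]
      omega
    have h8 : k < Q.Z'.mu x' y' z' o' := by
      rw [Q.mu_eq]
      omega
    refine ⟨_, ⟨x', y', z', o', k, rfl, h7, ?_, ?_⟩, ?_⟩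
    · exact O.ar_of_E (Q.Z'.Co_fl h8).E1.symm h2
    · exact O.ar_of_E (Q.Z'.Co_fl h8).E2.symm h3
    · show NQ.mid (O.π y') (O.π o') (O.π '' {x', z'}) k = _
      rw [Set.image_pair]
  · rintro _ ⟨x, y, z, o, k, rfl, h1, h2, h3⟩ _ ⟨x', y', z', o', k', rfl, h1', h2', h3'⟩ e
    obtain ⟨e1, e2, e3, rfl⟩ := NQ.mid.inj (show NQ.mid (O.π y) (O.π o) (O.π '' {x, z}) k =
      NQ.mid (O.π y') (O.π o') (O.π '' {x', z'}) k' from e)
    rw [Set.image_pair, Set.image_pair] at e3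
    rcases Set.pair_eq_pair_iff.1 e3 with ⟨f1, f2⟩ | ⟨f1, f2⟩
    · obtain ⟨rfl, rfl, rfl, rfl⟩ := Q.uniq _ _ _ _ _ _ _ _ (by omega) (by omega) f1 e1 f2 e2
      rfl
    · have k1 := Q.mo_sy x' y' z' o'
      obtain ⟨rfl, rfl, rfl, rfl⟩ := Q.uniq x y z o z' y' x' o' (by omega) (by omega) f1 e1 f2 e2
      rw [Set.pair_comm]

/-- THE CYCLES WITHOUT POLES -/
theorem cyc_eq (hb : oc H Q.nF + oc H (inn K) = oc H Q.nM + oc H (inn O.gx)) :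
    Q.Z'.cyc = Z.cyc := by
  rw [Q.Z'.cyc_oc, Z.cyc_oc, oc_IE, oc_IE, oc_IT, oc_IT, Q.rIE_eq, Q.zIE_eq, Q.zIT_eq, Q.pcs_eq]
  push_cast
  have : (oc H Q.nF : ℤ) + oc H (inn K) = oc H Q.nM + oc H (inn O.gx) := by exact_mod_cast hb
  linear_combination this

/-- THE OPENING DOES NOT CHANGE `2 E^h` -/
theorem eh2_eq (hb : oc H Q.nF + oc H (inn K) = oc H Q.nM + oc H (inn O.gx)) :
    Q.Z'.eh2 = Z.eh2 := by
  rw [ZC.eh2_eq, ZC.eh2_eq, Q.exc_eq, Q.cyc_eq hb]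

end OZ

end Pool.Agent.DI
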