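import Pool.Agent.DI.OSt
import Pool.Agent.DI.OpnZ
import Pool.Agent.DI.OpnP

/-!
# DI/OStO: pieces of an opened complex

`OpW.pc_lift`: pages of `x` over pages of one piece of `π x` are in one piece of `x`.
`OpW.os`: if every piece of `K` has a corner at every pole, then the same holds in `O.gx`, for every
opening `O : OpW K W` (only vertices with two poles are opened).
-/

namespace Pool.Agent.DI

open MulAction
open Pool.Agent.SAF (InC SA orbs FinOrb oc Decomp)

namespace OpW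

variable {H V W : Type} [Group H] [MulAction H V] [MulAction H W] {K : GX H V} (O : OpW K W)

/-- the vertices over one vertex are pages of one piece -/
theorem twin_pc (P : P45 K)
    (h2 : ∀ x y : W, O.π x = O.π y → x ≠ y → ∃ a b, a ≠ b ∧ K.ar (O.π x) a ∧ K.ar (O.π x) b)
    {x y : W} (h : O.π x = O.π y) {v : V} (hv : K.ar (O.π x) v) :
    O.gx.PC (O.e (O.π x) v) x y := by
  by_cases hxy : x = y
  · rw [hxy]
    exact Relation.EqvGen.refl _
  obtain ⟨b, hvb, hb⟩ : ∃ b, v ≠ b ∧ K.ar (O.π x) b := by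
    obtain ⟨a, b, hab, h1, h3⟩ := h2 x y h hxy
    by_cases e : v = a
    · exact ⟨b, by rw [e]; exact hab, h3⟩
    · exact ⟨a, e, h1⟩
  have hcov := O.cov x y h v b hv hb hvb
  -- along the chain
  have key : ∀ p q : W, Relation.EqvGen (fun x y => ∃ (j : O.J) (h : H), h • O.js j = x ∧
      h • O.jt j = y) p q → O.π p = O.π q ∧ (O.π p = O.π x →
      O.gx.PC (O.e (O.π x) v) p q) := by
    intro p q hpq
    induction hpq with
    | rel p q h =>
      obtain ⟨j, g, rfl, rfl⟩ := h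
      have e : O.π (g • O.js j) = O.π (g • O.jt j) := by rw [O.π_smul, O.π_smul, O.j_eq]
      refine ⟨e, fun h1 => ?_⟩
      have ha : K.ar (O.π (g • O.js j)) (g • O.ja j) := by
        rw [O.π_smul]
        exact K.ar_smul g _ _ (O.j_a j)
      have hb' : K.ar (O.π (g • O.js j)) (g • O.jb j) := by
        rw [O.π_smul]
        exact K.ar_smul g _ _ (O.j_b j)
      have hne : g • O.ja j ≠ g • O.jb j := fun k => O.j_ab j (smul_left_cancel g k)
      have hv' : K.ar (O.π (g • O.js j)) v := by rw [h1]; exact hv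
      -- the new square has a corner at `e v`
      have main : ∀ {a b : W}, O.NSq a (g • O.js j) b (g • O.jt j) → O.π a = v →
          O.gx.PC (O.e (O.π x) v) (g • O.js j) (g • O.jt j) := by
        intro a b hN hav
        obtain ⟨n1, n2, n3, n4, -, -⟩ := hN.ar
        have ea : a = O.e (O.π x) v := by
          have k2 : O.e (O.π (g • O.js j)) (O.π a) = a := n1.2
          rw [← k2, h1, hav]
        rw [← ea]
        refine Relation.EqvGen.rel _ _ ⟨n1, n3, ?_⟩
        exact (O.p45 P).cor_iff.2 (Or.inr ⟨b, ((O.Q4_new (P := P) hN).rot.rot.rot.symm)⟩)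
      have e1 : O.π (g • O.e (O.π (O.js j)) (O.ja j)) = g • O.ja j := by
        rw [O.π_smul, O.π_e _ _ (O.j_a j)]
      have e2 : O.π (g • O.e (O.π (O.js j)) (O.jb j)) = g • O.jb j := by
        rw [O.π_smul, O.π_e _ _ (O.j_b j)]
      rcases GX.Sft.cases ha hb' hne hv' with k | k
      · exact main (a := g • O.e (O.π (O.js j)) (O.ja j)) (b := g • O.e (O.π (O.js j)) (O.jb j))
          ⟨g, j, Or.inl ⟨rfl, rfl⟩, Or.inl ⟨rfl, rfl⟩⟩ (e1.trans k.symm)
      · exact main (a := g • O.e (O.π (O.js j)) (O.jb j)) (b := g • O.e (O.π (O.js j)) (O.ja j))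
          ⟨g, j, Or.inl ⟨rfl, rfl⟩, Or.inr ⟨rfl, rfl⟩⟩ (e2.trans k.symm)
    | refl p => exact ⟨rfl, fun _ => Relation.EqvGen.refl _⟩
    | symm p q _ ih => exact ⟨ih.1.symm, fun h => (ih.2 (ih.1.trans h)).symm⟩
    | trans p q r _ _ i1 i2 =>
      exact ⟨i1.1.trans i2.1, fun h => (i1.2 h).trans _ _ _ (i2.2 (i1.1.symm.trans h))⟩
  exact (key x y hcov).2 rfl

/-- lift of a corner at a page -/
theorem cor_lift {p v q : V} (hp : K.ar p v) (hc : K.Cor p v q) :
    ∃ p' q' : W, O.π p' = p ∧ O.π q' = q ∧ O.gx.Cor p' (O.e p v) q' ∧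
      (K.ar v q → q' = O.e v q) ∧ (K.ar q v → O.e q v = O.e p v) := by
  have asym : ∀ {c d : V}, K.ar c d → K.ar d c → False := fun h1 h2 =>
    absurd ((K.ar_rk _ _ h1).trans (K.ar_rk _ _ h2)) (lt_irrefl _)
  have key : ∀ {p' v' q' : W}, O.gx.Cor p' v' q' → O.π p' = p → O.π v' = v → O.π q' = q →
      ∃ p' q' : W, O.π p' = p ∧ O.π q' = q ∧ O.gx.Cor p' (O.e p v) q' ∧
      (K.ar v q → q' = O.e v q) ∧ (K.ar q v → O.e q v = O.e p v) := by
    intro p' v' q' hc' e1 e2 e3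
    have h1 : O.gx.ar p' v' := by
      rcases hc'.E1 with k | k
      · exfalso
        have := O.ar_π k
        rw [e1, e2] at this
        exact asym this hp
      · exact k
    have ev : O.e p v = v' := by
      have := O.ar_e' h1
      rwa [e1, e2] at this
    refine ⟨p', q', e1, e3, by rw [ev]; exact hc', fun h => ?_, fun h => ?_⟩
    · rcases hc'.E2 with k | k
      · have := O.ar_e' k
        rw [e2, e3] at this
        exact this.symm
      · exfalso
        have := O.ar_π k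
        rw [e2, e3] at this
        exact asym this h
    · rcases hc'.E2 with k | k
      · exfalso
        have := O.ar_π k
        rw [e2, e3] at this
        exact asym this h
      · have := O.ar_e' k
        rw [e2, e3] at this
        rw [this, ev]
  obtain ⟨f, ⟨rfl, rfl, rfl⟩ | ⟨rfl, rfl, rfl⟩⟩ := K.cor_LE.1 hc
  · exact key (O.gx.cor_LE.2 ⟨O.up f, Or.inl ⟨rfl, rfl, rfl⟩⟩) (O.π_up0 f) (O.π_up1 f) (O.π_up2 f)
  · exact key (O.gx.cor_LE.2 ⟨O.up f, Or.inr ⟨rfl, rfl, rfl⟩⟩) (O.π_up2 f) (O.π_up1 f) (O.π_up0 f)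

/-- PIECES ARE LIFTED -/
theorem pc_lift (P : P45 K)
    (h2 : ∀ x y : W, O.π x = O.π y → x ≠ y → ∃ a b, a ≠ b ∧ K.ar (O.π x) a ∧ K.ar (O.π x) b)
    {v n k : V} (hpc : K.PC v n k) (hn : K.ar n v) : O.e n v = O.e k v ∧
      ∀ n' k' : W, O.π n' = n → O.π k' = k → O.gx.PC (O.e n v) n' k' := by
  have tw : ∀ {n n' k' : _}, O.π n' = n → O.π k' = n → K.ar n v →
      O.gx.PC (O.e n v) n' k' := by
    rintro n n' k' rfl h hn
    exact O.twin_pc P h2 h.symm hn
  have key : ∀ n k, K.PC v n k → (K.ar n v ↔ K.ar k v) ∧ (K.ar n v → O.e n v = O.e k v ∧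
      ∀ n' k' : W, O.π n' = n → O.π k' = k → O.gx.PC (O.e n v) n' k') := by
    intro n k h
    induction h with
    | rel n k h =>
      obtain ⟨h1, h3, hc⟩ := h
      refine ⟨⟨fun _ => h3, fun _ => h1⟩, fun _ => ?_⟩
      obtain ⟨p', q', e1, e3, c, -, l2⟩ := O.cor_lift h1 hc
      refine ⟨(l2 h3).symm, fun n' k' hn' hk' => ?_⟩
      have ap : O.gx.ar p' (O.e n v) := by
        have := O.ar_e p' (a := v) (by rw [e1]; exact h1)
        rwa [e1] at this
      have aq : O.gx.ar q' (O.e n v) := by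
        have := O.ar_e q' (a := v) (by rw [e3]; exact h3)
        rwa [e3, l2 h3] at this
      have t1 := tw hn' e1 h1
      have t2 := tw e3 hk' h3
      rw [l2 h3] at t2
      exact (t1.trans _ _ _ (Relation.EqvGen.rel _ _ ⟨ap, aq, c⟩)).trans _ _ _ t2
    | refl n => exact ⟨Iff.rfl, fun h => ⟨rfl, fun n' k' h1 h3 => tw h1 h3 h⟩⟩
    | symm n k _ ih =>
      refine ⟨ih.1.symm, fun h => ?_⟩
      obtain ⟨i1, i2⟩ := ih.2 (ih.1.2 h)
      refine ⟨i1.symm, fun n' k' h1 h3 => ?_⟩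
      rw [← i1]
      exact (i2 k' n' h3 h1).symm
    | trans n m k _ _ i1 i2 =>
      refine ⟨i1.1.trans i2.1, fun h => ?_⟩
      obtain ⟨j1, j2⟩ := i1.2 h
      obtain ⟨l1, l2⟩ := i2.2 (i1.1.1 h)
      refine ⟨j1.trans l1, fun n' k' h1 h3 => ?_⟩
      obtain ⟨m', hm'⟩ := O.sur m
      have := l2 m' k' hm' h3
      rw [← j1] at this
      exact (j2 n' m' h1 hm').trans _ _ _ this
  exact (key n k hpc).2 hn

/-- EVERY PIECE OF THE OPENED COMPLEX HAS A CORNER AT EVERY POLE -/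
theorem os (P : P45 K)
    (h2 : ∀ x y : W, O.π x = O.π y → x ≠ y → ∃ a b, a ≠ b ∧ K.ar (O.π x) a ∧ K.ar (O.π x) b)
    (hK : ∀ {v n b : V}, K.ar n v → K.ar v b → ∃ k, K.PC v n k ∧ K.ar k v ∧ K.Cor k v b)
    {x n b : W} (hn : O.gx.ar n x) (hb : O.gx.ar x b) :
    ∃ k, O.gx.PC x n k ∧ O.gx.ar k x ∧ O.gx.Cor k x b := by
  have h1 := O.ar_π hn
  have h3 := O.ar_π hb
  obtain ⟨k, k1, k2, k3⟩ := hK h1 h3
  obtain ⟨l1, l2⟩ := O.pc_lift P h2 k1 h1
  have ex : O.e (O.π n) (O.π x) = x := O.ar_e' hn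
  rw [ex] at l1 l2
  obtain ⟨k', b', e1, e2, c, c1, -⟩ := O.cor_lift k2 k3
  rw [← l1] at c
  rw [c1 h3, O.ar_e' hb] at c
  refine ⟨k', l2 n k' rfl e1, ?_, c⟩
  have := O.ar_e k' (a := O.π x) (by rw [e1]; exact k2)
  rwa [e1, ← l1] at this

end OpW

end Pool.Agent.DI
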