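import Pool.Agent.DI.OpSysP

/-!
# DI/OpGen: walls and slices of an opened system are connected

`Z : S.OpS`, `O : OpW S.K W`, `J : W → Set S.X` with `G : Z.Gen O J` (the properties common to both
forms `K°`, `K⁺`): `G.sys : SyQ H W`; `G.conn : S.Conn → G.sys.Conn`.
-/

namespace Pool.Agent.DI

open MulAction
open Pool.Agent.SAF (InC orbs FinOrb oc Decomp SAn SA Conv hull dist_edge FinOrb_iff exists_next)
open Pool.Agent.BT (PX PQ JS bey exits)
open Pool.Agent.BT.TA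

namespace SyQ

variable {H V : Type} [Group H] [MulAction H V] {S : SyQ H V}

namespace OpS

/-! ### geometry near `g u` -/

section Geo

variable (Z : S.OpS)

theorem valg {g : H} {z : S.X} (h : S.D.G.Adj (g • Z.u) z) : z = g • Z.w ∨ z = g • Z.w' := by
  have h1 := S.D.adj_smul g⁻¹ _ _ h
  rw [inv_smul_smul] at h1
  rcases Z.val _ h1 with e | e
  · left
    rw [← e, smul_inv_smul]
  · right
    rw [← e, smul_inv_smul]

theorem gww (g : H) : g • Z.w ≠ g • Z.w' := fun e => Z.ne (smul_left_cancel g e)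

theorem nb {g g' : H} (h : g' • Z.u = g • Z.u) :
    (g' • Z.w = g • Z.w ∧ g' • Z.w' = g • Z.w') ∨ (g' • Z.w = g • Z.w' ∧ g' • Z.w' = g • Z.w) := by
  have h1 := S.D.adj_smul g' _ _ Z.hw
  have h2 := S.D.adj_smul g' _ _ Z.hw'
  rw [h] at h1 h2
  rcases Z.valg h1 with e1 | e1 <;> rcases Z.valg h2 with e2 | e2
  · exact absurd (e1.trans e2.symm) (Z.gww g')
  · exact Or.inl ⟨e1, e2⟩
  · exact Or.inr ⟨e1, e2⟩
  · exact absurd (e1.trans e2.symm) (Z.gww g')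

theorem choose {g g' : H} (h : g' • Z.u = g • Z.u) : ∃ k : H, k • Z.v = g' • Z.v ∧
    k • Z.u = g • Z.u ∧ k • Z.w = g • Z.w ∧ k • Z.w' = g • Z.w' := by
  rcases Z.nb h with ⟨e1, e2⟩ | ⟨e1, e2⟩
  · exact ⟨g', rfl, h, e1, e2⟩
  · refine ⟨g' * Z.r, ?_, ?_, ?_, ?_⟩
    · rw [mul_smul, Z.rv]
    · rw [mul_smul, Z.ru, h]
    · rw [mul_smul, Z.rw, e2]
    · rw [mul_smul, Z.rw', e1]

theorem agu (g : H) : S.D.G.Adj (g • Z.w) (g • Z.u) := S.D.adj_smul g _ _ Z.hw.symm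

/-- a page of `g' v` over `g u` which crosses `g w, g u` -/
theorem Pg.side {x : V} {g g' : H} (h : Z.Pg x g') (hu : g' • Z.u = g • Z.u)
    (hx : g • Z.w ∈ S.J x) : g' • Z.w = g • Z.w ∧ g' • Z.w' = g • Z.w' := by
  rcases Z.nb hu with e | ⟨e1, e2⟩
  · exact e
  · exfalso
    apply h.nw'
    rw [e2]
    exact hx

/-- poles are not pages -/
theorem pole_not_page {x : V} {g g' : H} (h : S.K.ar (g • Z.v) x) (hp : Z.Pg x g') :
    g' • Z.u ≠ g • Z.u := by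
  intro e
  obtain ⟨h1, h2, h3⟩ := Z.pole_mem h
  rcases Z.nb e with ⟨e1, e2⟩ | ⟨e1, e2⟩
  · apply hp.nw'
    rw [e2]
    exact h3
  · apply hp.nw'
    rw [e2]
    exact h1

/-- the neighbour of a page over `g u` -/
theorem Pg.over_eq {x m : V} {g' : H} (h : Z.Pg x g') (e : S.K.E x m) (t1 : g' • Z.u ∈ S.J m) :
    m = g' • Z.v := by
  rcases e with e | e
  · have s1 : (Sum.inl m : V ⊕ S.X) ∈ BT.exits S.P.pq S.D.G S.J x (g' • Z.u) :=
      Or.inl ⟨_, rfl, e, t1⟩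
    rcases h.exits Z s1 with k | k
    · exact Sum.inl.inj k
    · cases k
  · exfalso
    have k1 := S.K.ar_smul g'⁻¹ _ _ h.1
    have k2 := S.K.ar_smul g'⁻¹ _ _ e
    have k3 := S.js.smul g'⁻¹ _ _ t1
    rw [inv_smul_smul] at k1 k3
    exact Z.nin _ _ k1 k2 k3

/-- the neighbour of a page beyond the edge -/
theorem Pg.far_eq {x m : V} {g g' : H} (h : Z.Pg x g') (hu : g' • Z.u = g • Z.u)
    (hx : g • Z.w ∈ S.J x) (e : S.K.E x m) (hm : S.J m ⊆ bey S.D.G (g • Z.w) (g • Z.u)) :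
    m = g' • Z.v := by
  obtain ⟨t, t0, t1⟩ := S.one_ex e
  have hs := h.side Z hu hx
  have ht : t = g' • Z.u := by
    by_contra hne
    have hne' : g' • Z.u ≠ t := fun k => hne k.symm
    obtain ⟨z, hz, e1⟩ := exists_next S.D.tree hne'
    have hb : t ∈ bey S.D.G (g' • Z.u) z := by
      show S.D.G.dist t (g' • Z.u) = S.D.G.dist t z + 1
      rw [SimpleGraph.dist_comm, e1, SimpleGraph.dist_comm]
    have hz2 := (conv_cr S.D.tree (S.js.conv x) hz h.nu t0 (bey_self hz.symm) hb).2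
    rcases Z.valg hz with rfl | rfl
    · have h2 := hm t1
      rw [← hs.1, ← hu] at h2
      exact bey_not h2 hb
    · exact h.nw' Z hz2
  rw [ht] at t1
  exact h.over_eq Z e t1

/-- a neighbour of `g' v` is a pole or a page -/
theorem near_v {z : V} {g' : H} (h : S.K.E z (g' • Z.v)) :
    S.K.ar (g' • Z.v) z ∨ ∃ k, Z.Pg z k ∧ k • Z.v = g' • Z.v ∧ k • Z.u = g' • Z.u := by
  rcases h with h | h
  · right
    rcases Z.exists_Pg h with k | k
    · exact ⟨g', k, rfl, rfl⟩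
    · exact ⟨g' * Z.r, k, by rw [mul_smul, Z.rv], by rw [mul_smul, Z.ru]⟩
  · exact Or.inl h

theorem Pg.vv {x : V} {g g' : H} (h : Z.Pg x g) (h' : Z.Pg x g') (e : g • Z.u = g' • Z.u) :
    g • Z.v = g' • Z.v := by
  have h1 := Z.opd.mk_eq.1 (h.uniq Z h' e)
  have h2 : (g⁻¹ * g') • Z.v = Z.v := h1.1
  rw [mul_smul, inv_smul_eq_iff] at h2
  exact h2.symm

/-- no pentagon has a corner between pages on different sides -/
theorem no_corner {n n' y z : V} {g g' : H} (hq : Qn S.P n (g • Z.v) n' y z) (h : Z.Pg n g)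
    (h' : Z.Pg n' g') (hv : g' • Z.v = g • Z.v) (hw : g' • Z.w ≠ g • Z.w) : False := by
  have h1 := hq.smul g⁻¹
  rw [inv_smul_smul] at h1
  have k1 := S.K.ar_smul g⁻¹ _ _ h.1
  have k2 := S.K.ar_smul g⁻¹ _ _ h'.1
  have k3 := S.js.smul g⁻¹ _ _ h.2
  rw [inv_smul_smul] at k1 k3
  rw [hv, inv_smul_smul] at k2
  have k4 := S.js.smul g _ _ (Z.nc _ _ _ _ h1 k1 k2 k3)
  rw [smul_inv_smul] at k4
  have hu := Z.fu' hv
  exact hw (h'.side Z hu k4).1

theorem nZ_pole {x : V} {g : H} (h : S.K.ar (g • Z.v) x) : ∀ k : H, x ≠ k • Z.v := by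
  rintro k rfl
  exact Z.not_ar_vv h

/-- a crossing vertex is not in the orbit of `v` -/
theorem nZ_cs {x : V} {p q : S.X} (h : S.D.G.Adj p q) (hx : S.Cs p q x) :
    ∀ k : H, x ≠ k • Z.v := by
  rintro k rfl
  have h1 := hx.1
  have h2 := hx.2
  rw [Z.Ju] at h1 h2
  rw [Set.mem_singleton_iff.1 h1, Set.mem_singleton_iff.1 h2] at h
  exact h.ne rfl

end Geo

/-! ### the properties of an opened system -/

variable {W : Type} [MulAction H W]

/-- the properties of an opened system -/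
structure Gen (Z : S.OpS) (O : OpW S.K W) (J : W → Set S.X) : Prop where
  js : JS (O.p45 S.P).pq S.D J
  inj : ∀ x y : W, (∀ g : H, O.π x ≠ g • Z.v) → O.π x = O.π y → x = y
  J1 : ∀ x : W, (∀ g : H, O.π x ≠ g • Z.v) → ∀ p, p ∈ J x ↔
    p ∈ S.J (O.π x) ∧ ∀ g, Z.Pg (O.π x) g → p ≠ g • Z.u
  J2 : ∀ (x : W) (g : H), O.π x = g • Z.v → ∃ p, J x = {p} ∧
    (p = g • Z.u ∨ p = g • Z.w ∨ p = g • Z.w')
  J3 : ∀ (n x : W) (g : H), O.ar n x → O.π x = g • Z.v → Z.Pg (O.π n) g → J x = {g • Z.w}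
  J4 : ∀ (g : H) (y y' : W), S.K.ar (g • Z.v) (O.π y) → S.K.ar (g • Z.v) (O.π y') →
    O.π y ≠ O.π y' → ∃ c d, Q4 (O.p45 S.P) y c y' d ∧ J c = {g • Z.w} ∧
      J d ⊆ bey S.D.G (g • Z.w) (g • Z.u)

namespace Gen

variable {Z : S.OpS} {O : OpW S.K W} {J : W → Set S.X} (G : Z.Gen O J)

/-- the opened system -/
noncomputable def sys : SyQ H W where
  K := O.gx
  P := O.p45 S.P
  D := S.D
  J := J
  js := G.js

include G

theorem sub {x : W} (hx : ∀ g : H, O.π x ≠ g • Z.v) : J x ⊆ S.J (O.π x) :=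
  fun p hp => ((G.J1 x hx p).1 hp).1

theorem mem {x : W} (hx : ∀ g : H, O.π x ≠ g • Z.v) {p : S.X} (h : p ∈ S.J (O.π x))
    (hp : ∀ g : H, p ≠ g • Z.u) : p ∈ J x := (G.J1 x hx p).2 ⟨h, fun g _ => hp g⟩

theorem pole_mem {y : W} {g : H} (h : S.K.ar (g • Z.v) (O.π y)) :
    g • Z.w ∈ J y ∧ g • Z.u ∈ J y ∧ g • Z.w' ∈ J y := by
  obtain ⟨h1, h2, h3⟩ := Z.pole_mem h
  refine ⟨G.mem (Z.nZ_pole h) h1 (Z.ngw g), ?_, G.mem (Z.nZ_pole h) h3 (Z.ngw' g)⟩
  exact (G.J1 y (Z.nZ_pole h) _).2 ⟨h2, fun g' hg e => Z.pole_not_page h hg e.symm⟩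

/-- sides are kept -/
theorem side {x : W} {p q : S.X} (hpq : S.D.G.Adj p q) (h : S.J (O.π x) ⊆ bey S.D.G p q)
    (hq : ∀ g : H, O.π x = g • Z.v → q ≠ g • Z.u) : J x ⊆ bey S.D.G p q := by
  by_cases hx : ∃ g : H, O.π x = g • Z.v
  · obtain ⟨g, hg⟩ := hx
    have hu : g • Z.u ∈ bey S.D.G p q := by
      apply h
      rw [hg, Z.Ju]
      exact rfl
    obtain ⟨t, ht, h1⟩ := G.J2 x g hg
    rw [ht]
    intro s hs
    rw [Set.mem_singleton_iff.1 hs]
    rcases h1 with rfl | rfl | rfl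
    · exact hu
    · exact Z.far hpq (hq g hg) hu
    · have e1 : (g * Z.r) • Z.u = g • Z.u := by rw [mul_smul, Z.ru]
      have e2 : (g * Z.r) • Z.w = g • Z.w' := by rw [mul_smul, Z.rw]
      rw [← e2]
      refine Z.far hpq ?_ ?_
      · rw [e1]
        exact hq g hg
      · rw [e1]
        exact hu
  · push Not at hx
    exact fun t ht => h (G.sub hx ht)

/-- the vertex over a vertex -/
theorem σ_eq {x : W} {y : V} (hy : ∀ g : H, y ≠ g • Z.v) (h : O.π x = y) : x = O.σ y := by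
  refine G.inj x (O.σ y) ?_ ?_
  · rw [h]
    exact hy
  · rw [O.π_σ, h]

omit G in
theorem nσ {y : V} (hy : ∀ g : H, y ≠ g • Z.v) : ∀ g : H, O.π (O.σ y) ≠ g • Z.v := by
  rw [O.π_σ]
  exact hy

/-- arrows to vertices outside of the orbit -/
theorem ar_of {x y : W} (h : S.K.ar (O.π x) (O.π y)) (hy : ∀ g : H, O.π y ≠ g • Z.v) :
    O.ar x y := by
  have h1 := O.ar_e x h
  have h2 : O.e (O.π x) (O.π y) = y := (G.inj y _ hy (O.π_e _ _ h).symm).symm
  rwa [h2] at h1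

theorem E_of {x y : W} (h : S.K.E (O.π x) (O.π y)) (hx : ∀ g : H, O.π x ≠ g • Z.v)
    (hy : ∀ g : H, O.π y ≠ g • Z.v) : G.sys.K.E x y := by
  rcases h with h | h
  · exact Or.inl (G.ar_of h hy)
  · exact Or.inr (G.ar_of h hx)

theorem qn {x z : W} (hx : ∀ g : H, O.π x ≠ g • Z.v) (hz : ∀ g : H, O.π z ≠ g • Z.v)
    {c y t : V} (h : Qn S.P (O.π x) c (O.π z) y t) :
    ∃ c' y' t', O.π c' = c ∧ O.π y' = y ∧ O.π t' = t ∧ Qn (O.p45 S.P) x c' z y' t' := by
  obtain ⟨a', c', b', y', t', e1, e2, e3, e4, e5, hq⟩ := O.Qn_lift S.P h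
  rw [G.inj x a' hx e1.symm, G.inj z b' hz e3.symm]
  exact ⟨c', y', t', e2, e4, e5, hq⟩

theorem q4 {x z : W} (hx : ∀ g : H, O.π x ≠ g • Z.v) (hz : ∀ g : H, O.π z ≠ g • Z.v)
    {c y : V} (h : Q4 S.P (O.π x) c (O.π z) y) :
    ∃ c' y', O.π c' = c ∧ O.π y' = y ∧ Q4 (O.p45 S.P) x c' z y' := by
  obtain ⟨a', c', b', y', e1, e2, e3, e4, hq⟩ := O.Q4_lift S.P h
  rw [G.inj x a' hx e1.symm, G.inj z b' hz e3.symm]
  exact ⟨c', y', e2, e4, hq⟩

/-- a crossing cell has a crossing lift -/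
theorem cc {p q : S.X} (hpq : S.D.G.Adj p q) {x z : W} (hx : ∀ g : H, O.π x ≠ g • Z.v)
    (hz : ∀ g : H, O.π z ≠ g • Z.v) {c : V} (h : S.CC p q (O.π x) c (O.π z))
    (h1 : ∀ g : H, c = g • Z.v → q ≠ g • Z.u) (h2 : ∀ g : H, p ≠ g • Z.u) :
    ∃ c', G.sys.CC p q x c' z := by
  obtain ⟨hc, ⟨y, t, hq, hy, ht⟩ | ⟨y, hq, hy⟩⟩ := h
  · obtain ⟨c', y', t', rfl, rfl, rfl, hq'⟩ := G.qn hx hz hq
    exact ⟨c', G.side hpq hc h1, Or.inl ⟨y', t', hq', G.side hpq.symm hy fun g _ => h2 g,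
      G.side hpq.symm ht fun g _ => h2 g⟩⟩
  · obtain ⟨c', y', rfl, rfl, hq'⟩ := G.q4 hx hz hq
    exact ⟨c', G.side hpq hc h1, Or.inr ⟨y', hq', G.side hpq.symm hy fun g _ => h2 g⟩⟩

/-! ### walls away from the orbit of `u` -/

theorem pwA {p q : S.X} (hp : ∀ g : H, p ≠ g • Z.u) (hq : ∀ g : H, q ≠ g • Z.u) {x z : V}
    (h : S.PW p q x z) : G.sys.PW p q (O.σ x) (O.σ z) := by
  obtain ⟨hpq, hx, hz, c, hc⟩ := h
  have nx := Z.nZ_cs hpq hx
  have nz := Z.nZ_cs hpq hz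
  have mx : G.sys.Cs p q (O.σ x) :=
    ⟨G.mem (nσ nx) (by rw [O.π_σ]; exact hx.1) hp, G.mem (nσ nx) (by rw [O.π_σ]; exact hx.2) hq⟩
  have mz : G.sys.Cs p q (O.σ z) :=
    ⟨G.mem (nσ nz) (by rw [O.π_σ]; exact hz.1) hp, G.mem (nσ nz) (by rw [O.π_σ]; exact hz.2) hq⟩
  rcases hc with hc | hc
  · obtain ⟨c', hc'⟩ := G.cc hpq (x := O.σ x) (z := O.σ z) (nσ nx) (nσ nz)
      (by rw [O.π_σ, O.π_σ]; exact hc) (fun g _ => hq g) hp
    exact ⟨hpq, mx, mz, c', Or.inl hc'⟩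
  · obtain ⟨c', hc'⟩ := G.cc hpq.symm (x := O.σ x) (z := O.σ z) (nσ nx) (nσ nz)
      (by rw [O.π_σ, O.π_σ]; exact hc) (fun g _ => hp g) hq
    exact ⟨hpq, mx, mz, c', Or.inr hc'⟩

/-! ### walls at `g w, g u` -/

omit G in
/-- the images of a vertex which crosses `g w, g u` -/
def Ph (Z : S.OpS) (O : OpW S.K W) (g : H) (x : V) (y : W) : Prop :=
  (O.π y = x ∧ ∀ g', Z.Pg x g' → g' • Z.u ≠ g • Z.u) ∨
  ∃ g', Z.Pg x g' ∧ g' • Z.u = g • Z.u ∧ g' • Z.w = g • Z.w ∧ S.K.ar (g' • Z.v) (O.π y)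

/-- the poles are in one wall class -/
theorem poles {g g' : H} (hu : g' • Z.u = g • Z.u) (hw : g' • Z.w = g • Z.w) {y y' : W}
    (h : S.K.ar (g' • Z.v) (O.π y)) (h' : S.K.ar (g' • Z.v) (O.π y')) :
    Relation.EqvGen (G.sys.PW (g • Z.w) (g • Z.u)) y y' := by
  by_cases e : O.π y = O.π y'
  · rw [G.inj y y' (Z.nZ_pole h) e]
    exact Relation.EqvGen.refl _
  · obtain ⟨c, d, hq, hc, hd⟩ := G.J4 g' y y' h h' e
    obtain ⟨a1, a2, -⟩ := G.pole_mem h
    obtain ⟨b1, b2, -⟩ := G.pole_mem h'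
    rw [hw] at a1 b1 hc hd
    rw [hu] at a2 b2 hd
    refine Relation.EqvGen.rel _ _ ⟨Z.agu g, ⟨a1, a2⟩, ⟨b1, b2⟩, c, Or.inr ⟨?_, Or.inr ⟨d, hq, hd⟩⟩⟩
    show J c ⊆ bey S.D.G (g • Z.u) (g • Z.w)
    rw [hc]
    intro s hs
    rw [Set.mem_singleton_iff.1 hs]
    exact bey_self (Z.agu g).symm

omit G in
/-- the image of a neighbour of a lost vertex -/
theorem Ph.pole {g g' : H} {x : V} {y : W} (h : Ph Z O g x y) (hx : S.Cs (g • Z.w) (g • Z.u) x)
    (e : S.K.E x (g' • Z.v)) (hu : g' • Z.u = g • Z.u) : S.K.ar (g' • Z.v) (O.π y) := by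
  rcases Z.near_v e with k | ⟨k, k1, k2, k3⟩
  · rcases h with ⟨rfl, -⟩ | ⟨g'', h1, h2, -, -⟩
    · exact k
    · exact absurd (h2.trans hu.symm) (Z.pole_not_page k h1)
  · rcases h with ⟨-, h1⟩ | ⟨g'', h1, h2, -, h3⟩
    · exact absurd (k3.trans hu) (h1 k k1)
    · have e1 := k1.vv Z h1 (by rw [k3, hu, h2])
      rw [← k2, e1]
      exact h3

omit G in
/-- a vertex which crosses and is no page there -/
theorem Ph.eq {g : H} {x : V} {y : W} (h : Ph Z O g x y)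
    (hx : ∀ g', Z.Pg x g' → g' • Z.u ≠ g • Z.u) : O.π y = x := by
  rcases h with ⟨h, -⟩ | ⟨g', h1, h2, -⟩
  · exact h
  · exact absurd h2 (hx g' h1)

/-- it crosses -/
theorem Ph.cs {g : H} {x : V} {y : W} (h : Ph Z O g x y) (hx : S.Cs (g • Z.w) (g • Z.u) x) :
    G.sys.Cs (g • Z.w) (g • Z.u) y := by
  rcases h with ⟨rfl, h1⟩ | ⟨g', h1, h2, h3, h4⟩
  · have nx := Z.nZ_cs (Z.agu g) hx
    exact ⟨G.mem nx hx.1 (Z.ngw g), (G.J1 y nx _).2 ⟨hx.2, fun g' hg e => h1 g' hg e.symm⟩⟩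
  · obtain ⟨a1, a2, -⟩ := G.pole_mem h4
    rw [h3] at a1
    rw [h2] at a2
    exact ⟨a1, a2⟩

omit G in
theorem Ph.ex {g : H} {x : V} (hx : S.Cs (g • Z.w) (g • Z.u) x) : ∃ y, Ph Z O g x y := by
  by_cases h : ∃ g', Z.Pg x g' ∧ g' • Z.u = g • Z.u
  · obtain ⟨g', h1, h2⟩ := h
    refine ⟨O.σ (g' • Z.a), Or.inr ⟨g', h1, h2, (h1.side Z h2 hx.1).1, ?_⟩⟩
    rw [O.π_σ]
    exact S.K.ar_smul g' _ _ Z.va
  · push Not at h
    exact ⟨O.σ x, Or.inl ⟨O.π_σ x, h⟩⟩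

theorem Ph.refl {g : H} {x : V} {y y' : W} (hx : S.Cs (g • Z.w) (g • Z.u) x)
    (h : Ph Z O g x y) (h' : Ph Z O g x y') :
    Relation.EqvGen (G.sys.PW (g • Z.w) (g • Z.u)) y y' := by
  rcases h with ⟨h1, h2⟩ | ⟨g1, h1, h2, h3, h4⟩
  · have e := h'.eq h2
    have nx := Z.nZ_cs (Z.agu g) hx
    rw [G.inj y y' (by rw [h1]; exact nx) (by rw [h1, e])]
    exact Relation.EqvGen.refl _
  · rcases h' with ⟨-, k⟩ | ⟨g2, k1, k2, k3, k4⟩
    · exact absurd h2 (k g1 h1)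
    · rw [← h1.vv Z k1 (by rw [h2, k2])] at k4
      exact G.poles h2 h3 h4 k4

/-- one step of a wall at `g w, g u`, pentagons with two vertices beyond -/
theorem stepP {g : H} {x z c y t : V} {a b : W} (hx : S.Cs (g • Z.w) (g • Z.u) x)
    (hz : S.Cs (g • Z.w) (g • Z.u) z) (hq : Qn S.P x c z y t)
    (hc : S.J c ⊆ bey S.D.G (g • Z.u) (g • Z.w)) (hy : S.J y ⊆ bey S.D.G (g • Z.w) (g • Z.u))
    (ht : S.J t ⊆ bey S.D.G (g • Z.w) (g • Z.u)) (ha : Ph Z O g x a) (hb : Ph Z O g z b) :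
    Relation.EqvGen (G.sys.PW (g • Z.w) (g • Z.u)) a b := by
  -- `t` in the orbit of `v`, over `g u`
  have spec : ∀ {x z c y t : V} {a b : W}, S.Cs (g • Z.w) (g • Z.u) x →
      S.Cs (g • Z.w) (g • Z.u) z → Qn S.P x c z y t →
      S.J c ⊆ bey S.D.G (g • Z.u) (g • Z.w) → S.J y ⊆ bey S.D.G (g • Z.w) (g • Z.u) →
      S.J t ⊆ bey S.D.G (g • Z.w) (g • Z.u) → Ph Z O g x a → Ph Z O g z b →
      (∃ k : H, t = k • Z.v ∧ k • Z.u = g • Z.u) →
      Relation.EqvGen (G.sys.PW (g • Z.w) (g • Z.u)) a b := by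
    rintro x z c y t a b hx hz hq hc hy ht ha hb ⟨k, rfl, hk⟩
    -- `y` is a page on the other side
    have hyv : S.K.E y (k • Z.v) := hq.E4
    obtain ⟨l, l1, l2, l3⟩ : ∃ l, Z.Pg y l ∧ l • Z.v = k • Z.v ∧ l • Z.u = k • Z.u := by
      rcases Z.near_v hyv with e | e
      · exfalso
        obtain ⟨e1, -, e3⟩ := Z.pole_mem e
        rcases Z.nb hk with ⟨e4, -⟩ | ⟨-, e5⟩
        · rw [e4] at e1
          exact bey_not (hy e1) (bey_self (Z.agu g).symm)
        · rw [e5] at e3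
          exact bey_not (hy e3) (bey_self (Z.agu g).symm)
      · exact e
    have lw : l • Z.w ≠ g • Z.w := by
      intro e
      have := hy l1.2
      rw [e] at this
      exact bey_not this (bey_self (Z.agu g).symm)
    -- `z` is no page at `g u`
    have nz : ∀ g', Z.Pg z g' → g' • Z.u ≠ g • Z.u := by
      intro g' h1 h2
      have := h1.far_eq Z h2 hz.1 hq.E3 hy
      rw [this] at hyv
      rcases hyv with e | e
      · exact Z.not_ar_vv e
      · exact Z.not_ar_vv e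
    -- `x` is no page at `g u`
    have nx : ∀ g', Z.Pg x g' → g' • Z.u ≠ g • Z.u := by
      intro g' h1 h2
      have e1 := h1.far_eq Z h2 hx.1 hq.E5.symm ht
      have hc1 : Qn S.P x (g' • Z.v) y z c := by
        rw [← e1]
        exact hq.symm.rot.rot
      refine Z.no_corner hc1 h1 l1 (by rw [l2, e1]) ?_
      rw [(h1.side Z h2 hx.1).1]
      exact lw
    have ea := ha.eq nx
    have eb := hb.eq nz
    subst ea
    subst eb
    have mx := Z.nZ_cs (Z.agu g) hx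
    have mz := Z.nZ_cs (Z.agu g) hz
    obtain ⟨c', y', t', rfl, rfl, e3, hq'⟩ := G.qn mx mz hq
    have hyt : O.ar y' t' := by
      rcases hq'.E4 with e | e
      · exact e
      · exfalso
        have h1 : S.K.ar (O.π t') (O.π y') := e.1
        rw [e3, ← l2] at h1
        have h2 := S.K.ar_rk _ _ h1
        have h3 := S.K.ar_rk _ _ l1.1
        omega
    have hJt := G.J3 y' t' l hyt (by rw [e3, l2]) l1
    refine Relation.EqvGen.rel _ _ ⟨Z.agu g, Ph.cs G ha hx, Ph.cs G hb hz, c', Or.inr ⟨?_, Or.inl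
      ⟨y', t', hq', ?_, ?_⟩⟩⟩
    · exact G.side (Z.agu g).symm hc fun g' _ e => Z.ngw g g' e
    · refine G.side (Z.agu g) hy ?_
      intro g' e
      exfalso
      rw [e] at hyv
      rcases hyv with e' | e'
      · exact Z.not_ar_vv e'
      · exact Z.not_ar_vv e'
    · show J t' ⊆ _
      rw [hJt]
      intro s hs
      rw [Set.mem_singleton_iff.1 hs]
      exact hy l1.2
  by_cases h1 : ∃ k : H, t = k • Z.v ∧ k • Z.u = g • Z.u
  · exact spec hx hz hq hc hy ht ha hb h1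
  by_cases h2 : ∃ k : H, y = k • Z.v ∧ k • Z.u = g • Z.u
  · exact (spec hz hx hq.symm hc ht hy hb ha h2).symm
  push Not at h1 h2
  have nx : ∀ g', Z.Pg x g' → g' • Z.u ≠ g • Z.u := fun g' k1 k2 =>
    h1 g' (k1.far_eq Z k2 hx.1 hq.E5.symm ht) k2
  have nz : ∀ g', Z.Pg z g' → g' • Z.u ≠ g • Z.u := fun g' k1 k2 =>
    h2 g' (k1.far_eq Z k2 hz.1 hq.E3 hy) k2
  have ea := ha.eq nx
  have eb := hb.eq nz
  subst ea
  subst eb
  have mx := Z.nZ_cs (Z.agu g) hx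
  have mz := Z.nZ_cs (Z.agu g) hz
  obtain ⟨c', y', t', rfl, rfl, rfl, hq'⟩ := G.qn mx mz hq
  refine Relation.EqvGen.rel _ _ ⟨Z.agu g, Ph.cs G ha hx, Ph.cs G hb hz, c', Or.inr ⟨?_, Or.inl
    ⟨y', t', hq', ?_, ?_⟩⟩⟩
  · exact G.side (Z.agu g).symm hc fun g' _ e => Z.ngw g g' e
  · exact G.side (Z.agu g) hy fun g' e e' => h2 g' e e'.symm
  · exact G.side (Z.agu g) ht fun g' e e' => h1 g' e e'.symm

/-- one step of a wall at `g w, g u` -/
theorem step {g : H} {x z : V} {a b : W} (h : S.PW (g • Z.w) (g • Z.u) x z)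
    (ha : Ph Z O g x a) (hb : Ph Z O g z b) :
    Relation.EqvGen (G.sys.PW (g • Z.w) (g • Z.u)) a b := by
  obtain ⟨hpq, hx, hz, c, hc⟩ := h
  -- a common neighbour beyond the edge
  have key : ∀ m : V, S.K.E x m → S.K.E z m → S.J m ⊆ bey S.D.G (g • Z.w) (g • Z.u) →
      ((∀ g' : H, m = g' • Z.v → g' • Z.u ≠ g • Z.u) → O.π a = x → O.π b = z →
        ∃ c', G.sys.CC (g • Z.w) (g • Z.u) a c' b ∨ G.sys.CC (g • Z.u) (g • Z.w) a c' b) →
      Relation.EqvGen (G.sys.PW (g • Z.w) (g • Z.u)) a b := by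
    intro m e1 e2 hm hl
    by_cases hs : ∃ g' : H, m = g' • Z.v ∧ g' • Z.u = g • Z.u
    · obtain ⟨g', rfl, hu⟩ := hs
      obtain ⟨k, k1, k2, k3, -⟩ := Z.choose hu
      have p1 := ha.pole hx e1 hu
      have p2 := hb.pole hz e2 hu
      rw [← k1] at p1 p2
      exact G.poles k2 k3 p1 p2
    · push Not at hs
      have nx : ∀ g', Z.Pg x g' → g' • Z.u ≠ g • Z.u := fun g' k1 k2 =>
        hs g' (k1.far_eq Z k2 hx.1 e1 hm) k2
      have nz : ∀ g', Z.Pg z g' → g' • Z.u ≠ g • Z.u := fun g' k1 k2 =>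
        hs g' (k1.far_eq Z k2 hz.1 e2 hm) k2
      obtain ⟨c', hc'⟩ := hl hs (ha.eq nx) (hb.eq nz)
      exact Relation.EqvGen.rel _ _ ⟨hpq, Ph.cs G ha hx, Ph.cs G hb hz, c', hc'⟩
  rcases hc with hc | hc
  · refine key c hc.E1 hc.E2.symm hc.1 ?_
    rintro hs rfl rfl
    obtain ⟨c', hc'⟩ := G.cc hpq (Z.nZ_cs hpq hx) (Z.nZ_cs hpq hz) hc
      (fun g' e e' => hs g' e e'.symm) (Z.ngw g)
    exact ⟨c', Or.inl hc'⟩
  · obtain ⟨h1, ⟨y, t, hq, hy, ht⟩ | ⟨y, hq, hy⟩⟩ := hc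
    · exact G.stepP hx hz hq h1 hy ht ha hb
    · refine key y hq.E4.symm hq.E3 hy ?_
      rintro hs rfl rfl
      obtain ⟨c', y', rfl, rfl, hq'⟩ := G.q4 (Z.nZ_cs hpq hx) (Z.nZ_cs hpq hz) hq
      refine ⟨c', Or.inr ⟨?_, Or.inr ⟨y', hq', ?_⟩⟩⟩
      · exact G.side hpq.symm h1 fun g' _ e => Z.ngw g g' e
      · exact G.side hpq hy fun g' e e' => hs g' e e'.symm

/-- chains of steps -/
theorem chain {g : H} {x z : V} (h : Relation.EqvGen (S.PW (g • Z.w) (g • Z.u)) x z) :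
    (∀ a, Ph Z O g x a → ∃ b, Ph Z O g z b ∧
      Relation.EqvGen (G.sys.PW (g • Z.w) (g • Z.u)) a b) ∧
    (∀ b, Ph Z O g z b → ∃ a, Ph Z O g x a ∧
      Relation.EqvGen (G.sys.PW (g • Z.w) (g • Z.u)) b a) := by
  induction h with
  | rel x y h =>
    constructor
    · intro a ha
      obtain ⟨b, hb⟩ := Ph.ex (Z := Z) (O := O) h.r
      exact ⟨b, hb, G.step h ha hb⟩
    · intro b hb
      obtain ⟨a, ha⟩ := Ph.ex (Z := Z) (O := O) h.l
      exact ⟨a, ha, (G.step h ha hb).symm⟩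
  | refl x => exact ⟨fun a ha => ⟨a, ha, Relation.EqvGen.refl _⟩,
      fun a ha => ⟨a, ha, Relation.EqvGen.refl _⟩⟩
  | symm x y _ ih => exact ⟨ih.2, ih.1⟩
  | trans x y z _ _ i1 i2 =>
    constructor
    · intro a ha
      obtain ⟨b, hb, e1⟩ := i1.1 a ha
      obtain ⟨c, hc, e2⟩ := i2.1 b hb
      exact ⟨c, hc, e1.trans _ _ _ e2⟩
    · intro c hc
      obtain ⟨b, hb, e1⟩ := i2.2 c hc
      obtain ⟨a, ha, e2⟩ := i1.2 b hb
      exact ⟨a, ha, e1.trans _ _ _ e2⟩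

/-- crossing vertices of the opened system -/
theorem cs_old {g : H} {x : W} (h : G.sys.Cs (g • Z.w) (g • Z.u) x) :
    S.Cs (g • Z.w) (g • Z.u) (O.π x) ∧ Ph Z O g (O.π x) x := by
  have nx : ∀ k : H, O.π x ≠ k • Z.v := by
    intro k e
    obtain ⟨p, hp, -⟩ := G.J2 x k e
    have h1 : g • Z.w ∈ J x := h.1
    have h2 : g • Z.u ∈ J x := h.2
    rw [hp] at h1 h2
    exact (Z.agu g).ne ((Set.mem_singleton_iff.1 h1).trans (Set.mem_singleton_iff.1 h2).symm)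
  have h1 := (G.J1 x nx _).1 h.1
  have h2 := (G.J1 x nx _).1 h.2
  exact ⟨⟨h1.1, h2.1⟩, Or.inl ⟨rfl, fun g' hg e => h2.2 g' hg e.symm⟩⟩

theorem wallB (hc : S.Conn) {g : H} {x z : W} (hx : G.sys.Cs (g • Z.w) (g • Z.u) x)
    (hz : G.sys.Cs (g • Z.w) (g • Z.u) z) :
    Relation.EqvGen (G.sys.PW (g • Z.w) (g • Z.u)) x z := by
  obtain ⟨x1, x2⟩ := G.cs_old hx
  obtain ⟨z1, z2⟩ := G.cs_old hz
  obtain ⟨b, hb, e⟩ := (G.chain (hc.wall _ _ (Z.agu g) _ _ x1 z1)).1 x x2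
  exact e.trans _ _ _ (Ph.refl G z1 hb z2)

omit G in
theorem Eqv.swap {T : SyQ H W} {p q : T.X} {x z : W} (h : Relation.EqvGen (T.PW p q) x z) :
    Relation.EqvGen (T.PW q p) x z :=
  Relation.EqvGen.mono (fun _ _ k => k.swap) _ _ h

theorem wall (hc : S.Conn) (p q : S.X) (hpq : S.D.G.Adj p q) (x z : W) (hx : G.sys.Cs p q x)
    (hz : G.sys.Cs p q z) : Relation.EqvGen (G.sys.PW p q) x z := by
  by_cases h1 : ∃ g : H, q = g • Z.u
  · obtain ⟨g, rfl⟩ := h1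
    obtain ⟨k, rfl, e⟩ : ∃ k : H, p = k • Z.w ∧ k • Z.u = g • Z.u := by
      rcases Z.valg hpq.symm with rfl | rfl
      · exact ⟨g, rfl, rfl⟩
      · exact ⟨g * Z.r, by rw [mul_smul, Z.rw], by rw [mul_smul, Z.ru]⟩
    rw [← e] at hx hz ⊢
    exact G.wallB hc hx hz
  by_cases h2 : ∃ g : H, p = g • Z.u
  · obtain ⟨g, rfl⟩ := h2
    obtain ⟨k, rfl, e⟩ : ∃ k : H, q = k • Z.w ∧ k • Z.u = g • Z.u := by
      rcases Z.valg hpq with rfl | rfl
      · exact ⟨g, rfl, rfl⟩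
      · exact ⟨g * Z.r, by rw [mul_smul, Z.rw], by rw [mul_smul, Z.ru]⟩
    rw [← e] at hx hz ⊢
    exact Eqv.swap (G.wallB hc hx.swap hz.swap)
  push Not at h1 h2
  have nx : ∀ {x : W}, G.sys.Cs p q x → ∀ k : H, O.π x ≠ k • Z.v := by
    intro x hx k e
    obtain ⟨t, ht, -⟩ := G.J2 x k e
    have k1 : p ∈ J x := hx.1
    have k2 : q ∈ J x := hx.2
    rw [ht] at k1 k2
    exact hpq.ne ((Set.mem_singleton_iff.1 k1).trans (Set.mem_singleton_iff.1 k2).symm)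
  have ex := G.σ_eq (nx hx) rfl
  have ez := G.σ_eq (nx hz) rfl
  have key : ∀ x z : V, Relation.EqvGen (S.PW p q) x z →
      Relation.EqvGen (G.sys.PW p q) (O.σ x) (O.σ z) := by
    intro x z h
    induction h with
    | rel x y h => exact Relation.EqvGen.rel _ _ (G.pwA h2 h1 h)
    | refl x => exact Relation.EqvGen.refl _
    | symm x y _ ih => exact ih.symm
    | trans x y z _ _ i1 i2 => exact i1.trans _ _ _ i2
  have kx : S.Cs p q (O.π x) := ⟨G.sub (nx hx) hx.1, G.sub (nx hx) hx.2⟩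
  have kz : S.Cs p q (O.π z) := ⟨G.sub (nx hz) hz.1, G.sub (nx hz) hz.2⟩
  have k := key _ _ (hc.wall p q hpq _ _ kx kz)
  rwa [← ex, ← ez] at k

theorem crossed (hc : S.Conn) (p q : S.X) (hpq : S.D.G.Adj p q) : ∃ x, G.sys.Cs p q x := by
  by_cases h1 : ∃ g : H, q = g • Z.u
  · obtain ⟨g, rfl⟩ := h1
    obtain ⟨k, rfl, e⟩ : ∃ k : H, p = k • Z.w ∧ k • Z.u = g • Z.u := by
      rcases Z.valg hpq.symm with rfl | rfl
      · exact ⟨g, rfl, rfl⟩
      · exact ⟨g * Z.r, by rw [mul_smul, Z.rw], by rw [mul_smul, Z.ru]⟩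
    have h : S.K.ar (k • Z.v) (O.π (O.σ (k • Z.a))) := by
      rw [O.π_σ]
      exact S.K.ar_smul k _ _ Z.va
    obtain ⟨a1, a2, -⟩ := G.pole_mem h
    rw [e] at a2
    exact ⟨_, a1, a2⟩
  by_cases h2 : ∃ g : H, p = g • Z.u
  · obtain ⟨g, rfl⟩ := h2
    obtain ⟨k, rfl, e⟩ : ∃ k : H, q = k • Z.w ∧ k • Z.u = g • Z.u := by
      rcases Z.valg hpq with rfl | rfl
      · exact ⟨g, rfl, rfl⟩
      · exact ⟨g * Z.r, by rw [mul_smul, Z.rw], by rw [mul_smul, Z.ru]⟩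
    have h : S.K.ar (k • Z.v) (O.π (O.σ (k • Z.a))) := by
      rw [O.π_σ]
      exact S.K.ar_smul k _ _ Z.va
    obtain ⟨a1, a2, -⟩ := G.pole_mem h
    rw [e] at a2
    exact ⟨_, a2, a1⟩
  push Not at h1 h2
  obtain ⟨x, hx⟩ := hc.crossed p q hpq
  have nx := Z.nZ_cs hpq hx
  exact ⟨O.σ x, G.mem (nσ nx) (by rw [O.π_σ]; exact hx.1) h2,
    G.mem (nσ nx) (by rw [O.π_σ]; exact hx.2) h1⟩

/-! ### slices -/

omit G in
theorem Eqv.sr {T : SyQ H W} {p q : T.X} {x z : W} (h : Relation.EqvGen (T.PW p q) x z) :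
    Relation.EqvGen (T.SR p) x z :=
  Relation.EqvGen.mono (fun _ _ k => Or.inr ⟨q, k⟩) _ _ h

/-- a vertex of the slice at `g w` and its images -/
theorem sr_ph {g : H} {x : V} {a : W} (hx : S.Cs (g • Z.w) (g • Z.u) x) (h : Ph Z O g x a) :
    Relation.EqvGen (G.sys.SR (g • Z.w)) (O.σ x) a := by
  have nx := Z.nZ_cs (Z.agu g) hx
  rcases h with ⟨h1, h2⟩ | ⟨g', h1, h2, h3, h4⟩
  · rw [← G.σ_eq nx h1]
    exact Relation.EqvGen.refl _
  · have h0 : S.K.ar (O.π (O.σ x)) (g' • Z.v) := by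
      rw [O.π_σ]
      exact h1.1
    have k1 := O.ar_e (O.σ x) h0
    have k2 : O.π (O.e (O.π (O.σ x)) (g' • Z.v)) = g' • Z.v := O.π_e _ _ h0
    generalize O.e (O.π (O.σ x)) (g' • Z.v) = c at k1 k2
    have k3 := G.J3 _ c g' k1 k2 (by rw [O.π_σ]; exact h1)
    have k4 : O.ar c a := G.ar_of (by rw [k2]; exact h4) (Z.nZ_pole h4)
    have m1 : g • Z.w ∈ J (O.σ x) := G.mem (nσ nx) (by rw [O.π_σ]; exact hx.1) (Z.ngw g)
    have m2 : g • Z.w ∈ J c := by
      rw [k3, h3]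
      exact rfl
    have m3 : g • Z.w ∈ J a := by
      have := (G.pole_mem h4).1
      rwa [h3] at this
    have s1 : G.sys.SR (g • Z.w) (O.σ x) c := Or.inl ⟨Or.inl k1, m1, m2⟩
    have s2 : G.sys.SR (g • Z.w) c a := Or.inl ⟨Or.inl k4, m2, m3⟩
    exact (Relation.EqvGen.rel _ _ s1).trans _ _ _ (Relation.EqvGen.rel _ _ s2)

/-- slices away from the orbit of `u` -/
theorem sliceA (hc : S.Conn) {p : S.X} (hp : ∀ g : H, p ≠ g • Z.u) (x z : W) (hx : p ∈ J x)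
    (hz : p ∈ J z) : Relation.EqvGen (G.sys.SR p) x z := by
  have n0 : ∀ {y : V}, p ∈ S.J y → ∀ k : H, y ≠ k • Z.v := by
    rintro y hy k rfl
    rw [Z.Ju] at hy
    exact hp k (Set.mem_singleton_iff.1 hy)
  have key : ∀ x z : V, Relation.EqvGen (S.SR p) x z →
      Relation.EqvGen (G.sys.SR p) (O.σ x) (O.σ z) := by
    intro x z h
    induction h with
    | rel x y h =>
      rcases h with ⟨e, h1, h2⟩ | ⟨q, h⟩
      · refine Relation.EqvGen.rel _ _ (Or.inl ⟨?_, ?_, ?_⟩)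
        · refine G.E_of ?_ (nσ (n0 h1)) (nσ (n0 h2))
          rw [O.π_σ, O.π_σ]
          exact e
        · exact G.mem (nσ (n0 h1)) (by rw [O.π_σ]; exact h1) hp
        · exact G.mem (nσ (n0 h2)) (by rw [O.π_σ]; exact h2) hp
      · by_cases hq : ∃ g : H, q = g • Z.u
        · obtain ⟨g, rfl⟩ := hq
          obtain ⟨k, rfl, e⟩ : ∃ k : H, p = k • Z.w ∧ k • Z.u = g • Z.u := by
            rcases Z.valg h.1.symm with rfl | rfl
            · exact ⟨g, rfl, rfl⟩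
            · exact ⟨g * Z.r, by rw [mul_smul, Z.rw], by rw [mul_smul, Z.ru]⟩
          rw [← e] at h
          obtain ⟨a, ha⟩ := Ph.ex (Z := Z) (O := O) h.l
          obtain ⟨b, hb⟩ := Ph.ex (Z := Z) (O := O) h.r
          exact (G.sr_ph h.l ha).trans _ _ _ ((Eqv.sr (G.step h ha hb)).trans _ _ _
            (G.sr_ph h.r hb).symm)
        · push Not at hq
          exact Relation.EqvGen.rel _ _ (Or.inr ⟨q, G.pwA hp hq h⟩)
    | refl x => exact Relation.EqvGen.refl _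
    | symm x y _ ih => exact ih.symm
    | trans x y z _ _ i1 i2 => exact i1.trans _ _ _ i2
  have red : ∀ x : W, p ∈ J x → ∃ y : V, p ∈ S.J y ∧ Relation.EqvGen (G.sys.SR p) x (O.σ y) := by
    intro x hx
    by_cases h : ∃ g : H, O.π x = g • Z.v
    · obtain ⟨g, hg⟩ := h
      have h1 : S.K.ar (O.π x) (g • Z.a) := by
        rw [hg]
        exact S.K.ar_smul g _ _ Z.va
      have h2 : S.K.ar (g • Z.v) (O.π (O.σ (g • Z.a))) := by
        rw [O.π_σ]
        exact S.K.ar_smul g _ _ Z.va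
      have hpa : p ∈ J (O.σ (g • Z.a)) := by
        obtain ⟨a1, -, a3⟩ := G.pole_mem h2
        obtain ⟨t, ht, h3⟩ := G.J2 x g hg
        rw [ht] at hx
        have e := Set.mem_singleton_iff.1 hx
        rcases h3 with h3 | h3 | h3
        · exact absurd (e.trans h3) (hp g)
        · rw [e, h3]
          exact a1
        · rw [e, h3]
          exact a3
      refine ⟨g • Z.a, ?_, Relation.EqvGen.rel _ _ (Or.inl ⟨Or.inl ?_, hx, hpa⟩)⟩
      · have := G.sub (Z.nZ_pole h2) hpa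
        rwa [O.π_σ] at this
      · exact G.ar_of (by rw [O.π_σ]; exact h1) (Z.nZ_pole h2)
    · push Not at h
      refine ⟨O.π x, G.sub h hx, ?_⟩
      rw [← G.σ_eq h rfl]
      exact Relation.EqvGen.refl _
  obtain ⟨x', hx', e1⟩ := red x hx
  obtain ⟨z', hz', e2⟩ := red z hz
  exact e1.trans _ _ _ ((key _ _ (hc.slice p _ _ hx' hz')).trans _ _ _ e2.symm)

omit G in
/-- the images of a vertex over `g u` -/
def Ps (Z : S.OpS) (O : OpW S.K W) (g : H) (x : V) (a : W) : Prop :=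
  (O.π a = x ∧ (∀ k : H, x ≠ k • Z.v) ∧ ∀ g', Z.Pg x g' → g' • Z.u ≠ g • Z.u) ∨
  ∃ g', g' • Z.u = g • Z.u ∧ (x = g' • Z.v ∨ Z.Pg x g') ∧ S.K.ar (g' • Z.v) (O.π a)

omit G in
theorem over_v {g k : H} (h : g • Z.u ∈ S.J (k • Z.v)) : k • Z.u = g • Z.u := by
  rw [Z.Ju] at h
  exact (Set.mem_singleton_iff.1 h).symm

omit G in
theorem Ps.ex {g : H} {x : V} (hx : g • Z.u ∈ S.J x) : ∃ a, Ps Z O g x a := by
  by_cases h : ∃ g', g' • Z.u = g • Z.u ∧ (x = g' • Z.v ∨ Z.Pg x g')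
  · obtain ⟨g', h1, h2⟩ := h
    refine ⟨O.σ (g' • Z.a), Or.inr ⟨g', h1, h2, ?_⟩⟩
    rw [O.π_σ]
    exact S.K.ar_smul g' _ _ Z.va
  · push Not at h
    refine ⟨O.σ x, Or.inl ⟨O.π_σ x, ?_, fun g' h1 h2 => (h g' h2).2 h1⟩⟩
    rintro k rfl
    exact (h k (over_v hx)).1 rfl

theorem Ps.mem {g : H} {x : V} {a : W} (h : Ps Z O g x a) (hx : g • Z.u ∈ S.J x) :
    g • Z.u ∈ J a := by
  rcases h with ⟨rfl, h1, h2⟩ | ⟨g', h1, -, h3⟩
  · exact (G.J1 a h1 _).2 ⟨hx, fun g' hg e => h2 g' hg e.symm⟩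
  · rw [← h1]
    exact (G.pole_mem h3).2.1

omit G in
theorem Ps.v {g k : H} {a : W} (h : Ps Z O g (k • Z.v) a) : S.K.ar (k • Z.v) (O.π a) := by
  rcases h with ⟨-, h1, -⟩ | ⟨g', -, h2 | h2, h3⟩
  · exact absurd rfl (h1 k)
  · rw [h2]
    exact h3
  · exact absurd h2 Z.not_Pg_v

omit G in
theorem Ps.near {g g' : H} {x : V} {a : W} (h : Ps Z O g x a) (e : S.K.E x (g' • Z.v))
    (hu : g' • Z.u = g • Z.u) : S.K.ar (g' • Z.v) (O.π a) := by
  rcases Z.near_v e with k | ⟨k, k1, k2, k3⟩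
  · rcases h with ⟨rfl, -, -⟩ | ⟨g'', h1, h2 | h2, -⟩
    · exact k
    · rw [h2] at k
      exact absurd k Z.not_ar_vv
    · exact absurd (h1.trans hu.symm) (Z.pole_not_page k h2)
  · rcases h with ⟨-, -, h1⟩ | ⟨g'', h1, h2 | h2, h3⟩
    · exact absurd (k3.trans hu) (h1 k k1)
    · rw [h2] at k1
      exact absurd k1 Z.not_Pg_v
    · have e1 := k1.vv Z h2 (by rw [k3, hu, h1])
      rw [← k2, e1]
      exact h3

/-- the poles are in one class of the slice -/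
theorem poles' {g g' : H} (hu : g' • Z.u = g • Z.u) {y y' : W} (h : S.K.ar (g' • Z.v) (O.π y))
    (h' : S.K.ar (g' • Z.v) (O.π y')) : Relation.EqvGen (G.sys.SR (g • Z.u)) y y' := by
  have k := Eqv.sr (Eqv.swap (G.poles (g := g') rfl rfl h h'))
  rwa [hu] at k

theorem Ps.refl {g : H} {x : V} {a b : W} (h : Ps Z O g x a) (h' : Ps Z O g x b) :
    Relation.EqvGen (G.sys.SR (g • Z.u)) a b := by
  rcases h with ⟨h1, h2, h3⟩ | ⟨g1, h1, h2, h3⟩
  · rcases h' with ⟨k1, -, -⟩ | ⟨g2, k1, k2 | k2, -⟩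
    · rw [G.inj a b (by rw [h1]; exact h2) (by rw [h1, k1])]
      exact Relation.EqvGen.refl _
    · exact absurd k2 (h2 g2)
    · exact absurd k1 (h3 g2 k2)
  · rcases h' with ⟨-, k2, k3⟩ | ⟨g2, k1, k2, k3⟩
    · rcases h2 with h2 | h2
      · exact absurd h2 (k2 g1)
      · exact absurd h1 (k3 g1 h2)
    · refine G.poles' h1 h3 ?_
      rcases h2 with h2 | h2
      · rcases k2 with k2 | k2
        · rw [← h2, k2]
          exact k3
        · rw [h2] at k2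
          exact absurd k2 Z.not_Pg_v
      · rcases k2 with k2 | k2
        · rw [k2] at h2
          exact absurd h2 Z.not_Pg_v
        · rw [h2.vv Z k2 (by rw [h1, k1])]
          exact k3

theorem stepE {g : H} {x z : V} {a b : W} (e : S.K.E x z) (hx : g • Z.u ∈ S.J x)
    (hz : g • Z.u ∈ S.J z) (ha : Ps Z O g x a) (hb : Ps Z O g z b) :
    Relation.EqvGen (G.sys.SR (g • Z.u)) a b := by
  by_cases h1 : ∃ k : H, x = k • Z.v
  · obtain ⟨k, rfl⟩ := h1
    have hk := over_v hx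
    exact G.poles' hk ha.v (hb.near e.symm hk)
  by_cases h2 : ∃ k : H, z = k • Z.v
  · obtain ⟨k, rfl⟩ := h2
    have hk := over_v hz
    exact G.poles' hk (ha.near e hk) hb.v
  push Not at h1 h2
  have nx : ∀ g', Z.Pg x g' → g' • Z.u ≠ g • Z.u := by
    intro g' k1 k2
    rw [← k2] at hz
    exact h2 g' (k1.over_eq Z e hz)
  have nz : ∀ g', Z.Pg z g' → g' • Z.u ≠ g • Z.u := by
    intro g' k1 k2
    rw [← k2] at hx
    exact h1 g' (k1.over_eq Z e.symm hx)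
  have ea : O.π a = x := by
    rcases ha with ⟨h, -⟩ | ⟨g', k1, k2 | k2, -⟩
    · exact h
    · exact absurd k2 (h1 g')
    · exact absurd k1 (nx g' k2)
  have eb : O.π b = z := by
    rcases hb with ⟨h, -⟩ | ⟨g', k1, k2 | k2, -⟩
    · exact h
    · exact absurd k2 (h2 g')
    · exact absurd k1 (nz g' k2)
  have ma := Ps.mem G ha hx
  have mb := Ps.mem G hb hz
  subst ea
  subst eb
  exact Relation.EqvGen.rel _ _ (Or.inl ⟨G.E_of e h1 h2, ma, mb⟩)

omit G in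
theorem Ps.ph {g k : H} {x : V} {a : W} (h : Ps Z O g x a) (hk : k • Z.u = g • Z.u)
    (hx : S.Cs (k • Z.w) (k • Z.u) x) : Ph Z O k x a := by
  rcases h with ⟨h1, h2, h3⟩ | ⟨g', h1, h2 | h2, h3⟩
  · exact Or.inl ⟨h1, fun g' hg e => h3 g' hg (e.trans hk)⟩
  · exact absurd h2 (Z.nZ_cs (Z.agu k) hx g')
  · exact Or.inr ⟨g', h2, h1.trans hk.symm, (h2.side Z (h1.trans hk.symm) hx.1).1, h3⟩

theorem stepS {g : H} {x z : V} {a b : W} (h : S.SR (g • Z.u) x z) (ha : Ps Z O g x a)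
    (hb : Ps Z O g z b) : Relation.EqvGen (G.sys.SR (g • Z.u)) a b := by
  rcases h with ⟨e, h1, h2⟩ | ⟨q, h⟩
  · exact G.stepE e h1 h2 ha hb
  · obtain ⟨k, rfl, e⟩ : ∃ k : H, q = k • Z.w ∧ k • Z.u = g • Z.u := by
      rcases Z.valg h.1 with rfl | rfl
      · exact ⟨g, rfl, rfl⟩
      · exact ⟨g * Z.r, by rw [mul_smul, Z.rw], by rw [mul_smul, Z.ru]⟩
    rw [← e] at h ⊢
    have h' := h.swap
    exact Eqv.sr (Eqv.swap (G.step h' (ha.ph e h'.l) (hb.ph e h'.r)))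

theorem chainS {g : H} {x z : V} (h : Relation.EqvGen (S.SR (g • Z.u)) x z) :
    (∀ a, Ps Z O g x a → ∃ b, Ps Z O g z b ∧ Relation.EqvGen (G.sys.SR (g • Z.u)) a b) ∧
    (∀ b, Ps Z O g z b → ∃ a, Ps Z O g x a ∧ Relation.EqvGen (G.sys.SR (g • Z.u)) b a) := by
  induction h with
  | rel x y h =>
    constructor
    · intro a ha
      obtain ⟨b, hb⟩ := Ps.ex (Z := Z) (O := O) h.mem.2
      exact ⟨b, hb, G.stepS h ha hb⟩
    · intro b hb
      obtain ⟨a, ha⟩ := Ps.ex (Z := Z) (O := O) h.mem.1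
      exact ⟨a, ha, (G.stepS h ha hb).symm⟩
  | refl x => exact ⟨fun a ha => ⟨a, ha, Relation.EqvGen.refl _⟩,
      fun a ha => ⟨a, ha, Relation.EqvGen.refl _⟩⟩
  | symm x y _ ih => exact ⟨ih.2, ih.1⟩
  | trans x y z _ _ i1 i2 =>
    constructor
    · intro a ha
      obtain ⟨b, hb, e1⟩ := i1.1 a ha
      obtain ⟨c, hc, e2⟩ := i2.1 b hb
      exact ⟨c, hc, e1.trans _ _ _ e2⟩
    · intro c hc
      obtain ⟨b, hb, e1⟩ := i2.2 c hc
      obtain ⟨a, ha, e2⟩ := i1.2 b hb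
      exact ⟨a, ha, e1.trans _ _ _ e2⟩

/-- slices at `g u` -/
theorem sliceB (hc : S.Conn) {g : H} (x z : W) (hx : g • Z.u ∈ J x) (hz : g • Z.u ∈ J z) :
    Relation.EqvGen (G.sys.SR (g • Z.u)) x z := by
  have red : ∀ x : W, g • Z.u ∈ J x → ∃ (y : V) (a : W), g • Z.u ∈ S.J y ∧ Ps Z O g y a ∧
      Relation.EqvGen (G.sys.SR (g • Z.u)) x a := by
    intro x hx
    by_cases h : ∃ k : H, O.π x = k • Z.v
    · obtain ⟨k, hk⟩ := h
      obtain ⟨p, hp, h3⟩ := G.J2 x k hk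
      have hx' := hx
      rw [hp] at hx'
      have ep := Set.mem_singleton_iff.1 hx'
      have hku : k • Z.u = g • Z.u := by
        rcases h3 with h3 | h3 | h3
        · rw [← h3, ep]
        · exact absurd (h3.symm.trans ep.symm) (Z.ngw k g)
        · exact absurd (h3.symm.trans ep.symm) (Z.ngw' k g)
      have h2 : S.K.ar (k • Z.v) (O.π (O.σ (k • Z.a))) := by
        rw [O.π_σ]
        exact S.K.ar_smul k _ _ Z.va
      have hm : g • Z.u ∈ J (O.σ (k • Z.a)) := by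
        rw [← hku]
        exact (G.pole_mem h2).2.1
      refine ⟨k • Z.v, O.σ (k • Z.a), ?_, Or.inr ⟨k, hku, Or.inl rfl, h2⟩,
        Relation.EqvGen.rel _ _ (Or.inl ⟨Or.inl ?_, hx, hm⟩)⟩
      · rw [Z.Ju, hku]
        exact rfl
      · exact G.ar_of (by rw [hk]; exact h2) (Z.nZ_pole h2)
    · push Not at h
      have h1 := (G.J1 x h _).1 hx
      exact ⟨O.π x, x, h1.1, Or.inl ⟨rfl, h, fun g' hg e => h1.2 g' hg e.symm⟩,
        Relation.EqvGen.refl _⟩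
  obtain ⟨y, a, h1, h2, h3⟩ := red x hx
  obtain ⟨y', a', k1, k2, k3⟩ := red z hz
  obtain ⟨b, hb, e⟩ := (G.chainS (hc.slice _ y y' h1 k1)).1 a h2
  exact h3.trans _ _ _ (e.trans _ _ _ ((Ps.refl G hb k2).trans _ _ _ k3.symm))

/-- WALLS AND SLICES OF THE OPENED SYSTEM ARE CONNECTED -/
theorem conn (hc : S.Conn) : G.sys.Conn where
  wall p q hpq x z hx hz := G.wall hc p q hpq x z hx hz
  slice p x z hx hz := by
    by_cases h : ∃ g : H, p = g • Z.u
    · obtain ⟨g, rfl⟩ := h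
      exact G.sliceB hc x z hx hz
    · push Not at h
      exact G.sliceA hc h x z hx hz
  crossed p q hpq := G.crossed hc p q hpq

end Gen

/-! ### the two instances -/

section Inst

variable (Z : S.OpS)

/-- `K°` -/
theorem gen (ch : S.K.I → ℕ → Z.opd.W) (hch : ∀ i j, ch i (j + S.K.len i) = ch i j)
    (hπ : ∀ i j, Z.opd.π (ch i j) = S.K.vx i j) : Z.Gen (Z.op ch hch hπ) Z.Jo where
  js := Z.js ch hch hπ
  inj := by
    intro x y hx e
    rcases x with x | s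
    · rcases y with y | t
      · exact congrArg Sum.inl (Subtype.ext e)
      · exfalso
        induction t using QuotientGroup.induction_on with
        | _ g => exact hx g e
    · exfalso
      induction s using QuotientGroup.induction_on with
      | _ g => exact hx g rfl
  J1 := by
    intro x hx p
    rcases x with x | s
    · exact Iff.rfl
    · exfalso
      induction s using QuotientGroup.induction_on with
      | _ g => exact hx g rfl
  J2 := by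
    intro x g hx
    rcases x with x | s
    · exact absurd hx (Z.nZ x g)
    · induction s using QuotientGroup.induction_on with
      | _ k =>
        have e : k • Z.v = g • Z.v := hx
        refine ⟨k • Z.w, Z.Jo_mk k, Or.inr ?_⟩
        rcases Z.nb (Z.fu' e) with ⟨e1, -⟩ | ⟨e1, -⟩
        · exact Or.inl e1
        · exact Or.inr e1
  J3 := by
    intro n x g h hx hp
    have h2 : Z.opd.e ((Z.op ch hch hπ).π n) ((Z.op ch hch hπ).π x) = x := h.2
    have hp' : Z.Pg ((Z.op ch hch hπ).π n) g := hp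
    rw [hx, hp'.e] at h2
    rw [← h2]
    exact Z.Jo_mk g
  J4 := by
    intro g y y' h h' hne
    refine ⟨Sum.inr (g : H ⧸ Z.opd.D), Sum.inr ((g * Z.r : H) : H ⧸ Z.opd.D), ?_, Z.Jo_mk g, ?_⟩
    · refine (Z.op ch hch hπ).Q4_new S.P ?_
      refine ⟨g, (), Or.inl ⟨?_, rfl⟩, ?_⟩
      · show (Sum.inr (g : H ⧸ Z.opd.D) : Z.opd.W) = Sum.inr ((g * 1 : H) : H ⧸ Z.opd.D)
        rw [mul_one]
      · have key : ∀ (y : Z.opd.W) (c : V), S.K.ar Z.v c → Z.opd.π y = g • c →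
            y = g • Z.opd.e (Z.opd.π (Sum.inr ((1 : H) : H ⧸ Z.opd.D))) c := by
          intro y c hc e
          have h1 : Z.opd.π (Sum.inr ((1 : H) : H ⧸ Z.opd.D)) = Z.v := one_smul H Z.v
          have nc : ¬ Z.opd.Z c := by
            rintro ⟨k, rfl⟩
            have : S.K.ar ((1 : H) • Z.v) (k • Z.v) := by
              rw [one_smul]
              exact hc
            exact Z.not_ar_vv this
          rw [h1, Z.opd.e_inl nc]
          rcases y with y | t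
          · exact congrArg Sum.inl (Subtype.ext e)
          · exfalso
            induction t using QuotientGroup.induction_on with
            | _ k =>
              have e : k • Z.v = g • c := e
              have h2 := S.K.ar_smul g _ _ hc
              rw [← e] at h2
              exact Z.not_ar_vv h2
        have ha : ∀ {y : Z.opd.W}, S.K.ar (g • Z.v) (Z.opd.π y) →
            Z.opd.π y = g • Z.a ∨ Z.opd.π y = g • Z.b := fun h => Z.pole_eq h
        rcases ha h with e1 | e1 <;> rcases ha h' with e2 | e2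
        · exact absurd (e1.trans e2.symm) hne
        · exact Or.inl ⟨key y _ Z.va e1, key y' _ Z.vb e2⟩
        · exact Or.inr ⟨key y _ Z.vb e1, key y' _ Z.va e2⟩
        · exact absurd (e1.trans e2.symm) hne
    · rw [Z.Jo_mk, mul_smul, Z.rw]
      intro s hs
      rw [Set.mem_singleton_iff.1 hs]
      rcases bey_or S.D.tree (Z.agu g) (g • Z.w') with k | k
      · exact k
      · exfalso
        have := edge_eq S.D.tree (S.D.adj_smul g _ _ Z.hw'.symm) (Z.agu g) k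
          (bey_self (Z.agu g))
        exact Z.gww g this.1.symm

theorem sys_eq (ch : S.K.I → ℕ → Z.opd.W) (hch : ∀ i j, ch i (j + S.K.len i) = ch i j)
    (hπ : ∀ i j, Z.opd.π (ch i j) = S.K.vx i j) : (Z.gen ch hch hπ).sys = Z.sys ch hch hπ := rfl

/-- `K⁺` -/
theorem genP (ch : S.K.I → ℕ → V ⊕ (H ⧸ Z.opd.D)) (hch : ∀ i j, ch i (j + S.K.len i) = ch i j)
    (hπ : ∀ i j, Z.opd.πp (ch i j) = S.K.vx i j) : Z.Gen (Z.opP ch hch hπ) Z.Jp where
  js := Z.jsP ch hch hπ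
  inj := by
    intro x y hx e
    rcases x with x | s
    · rcases y with y | t
      · exact congrArg Sum.inl e
      · exfalso
        induction t using QuotientGroup.induction_on with
        | _ g => exact hx g e
    · exfalso
      induction s using QuotientGroup.induction_on with
      | _ g => exact hx g rfl
  J1 := by
    intro x hx p
    rcases x with x | s
    · exact Iff.rfl
    · exfalso
      induction s using QuotientGroup.induction_on with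
      | _ g => exact hx g rfl
  J2 := by
    intro x g hx
    rcases x with x | s
    · have hx : x = g • Z.v := hx
      subst hx
      exact ⟨_, Z.Jp_v g, Or.inl rfl⟩
    · induction s using QuotientGroup.induction_on with
      | _ k =>
        have e : k • Z.v = g • Z.v := hx
        refine ⟨k • Z.w, Z.Jp_mk k, Or.inr ?_⟩
        rcases Z.nb (Z.fu' e) with ⟨e1, -⟩ | ⟨e1, -⟩
        · exact Or.inl e1
        · exact Or.inr e1
  J3 := by
    intro n x g h hx hp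
    have h2 : Z.opd.ep ((Z.opP ch hch hπ).π n) ((Z.opP ch hch hπ).π x) = x := h.2
    have hp' : Z.Pg ((Z.opP ch hch hπ).π n) g := hp
    rw [hx, hp'.ep] at h2
    rw [← h2]
    exact Z.Jp_mk g
  J4 := by
    intro g y y' h h' hne
    refine ⟨Sum.inr (g : H ⧸ Z.opd.D), Sum.inl (g • Z.v), ?_, Z.Jp_mk g, ?_⟩
    · refine (Z.opP ch hch hπ).Q4_new S.P ?_
      refine ⟨g, (), Or.inl ⟨?_, rfl⟩, ?_⟩
      · show (Sum.inr (g : H ⧸ Z.opd.D) : V ⊕ (H ⧸ Z.opd.D)) = Sum.inr ((g * 1 : H) : H ⧸ Z.opd.D)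
        rw [mul_one]
      · have key : ∀ (y : V ⊕ (H ⧸ Z.opd.D)) (c : V), S.K.ar Z.v c → Z.opd.πp y = g • c →
            y = g • Z.opd.ep (Z.opd.πp (Sum.inr ((1 : H) : H ⧸ Z.opd.D))) c := by
          intro y c hc e
          have h1 : Z.opd.πp (Sum.inr ((1 : H) : H ⧸ Z.opd.D)) = Z.v := one_smul H Z.v
          have nc : ¬ Z.opd.Z c := by
            rintro ⟨k, rfl⟩
            have : S.K.ar ((1 : H) • Z.v) (k • Z.v) := by
              rw [one_smul]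
              exact hc
            exact Z.not_ar_vv this
          rw [h1, Z.opd.ep_inl nc]
          rcases y with y | t
          · exact congrArg Sum.inl e
          · exfalso
            induction t using QuotientGroup.induction_on with
            | _ k =>
              have e : k • Z.v = g • c := e
              have h2 := S.K.ar_smul g _ _ hc
              rw [← e] at h2
              exact Z.not_ar_vv h2
        have ha : ∀ {y : V ⊕ (H ⧸ Z.opd.D)}, S.K.ar (g • Z.v) (Z.opd.πp y) →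
            Z.opd.πp y = g • Z.a ∨ Z.opd.πp y = g • Z.b := fun h => Z.pole_eq h
        rcases ha h with e1 | e1 <;> rcases ha h' with e2 | e2
        · exact absurd (e1.trans e2.symm) hne
        · exact Or.inl ⟨key y _ Z.va e1, key y' _ Z.vb e2⟩
        · exact Or.inr ⟨key y _ Z.vb e1, key y' _ Z.va e2⟩
        · exact absurd (e1.trans e2.symm) hne
    · rw [Z.Jp_v]
      intro s hs
      rw [Set.mem_singleton_iff.1 hs]
      exact bey_self (Z.agu g)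

theorem sysP_eq (ch : S.K.I → ℕ → V ⊕ (H ⧸ Z.opd.D))
    (hch : ∀ i j, ch i (j + S.K.len i) = ch i j)
    (hπ : ∀ i j, Z.opd.πp (ch i j) = S.K.vx i j) :
    (Z.genP ch hch hπ).sys = Z.sysP ch hch hπ := rfl

/-- THE OPENED SYSTEM `K°` IS CONNECTED -/
theorem sys_conn (hc : S.Conn) (ch : S.K.I → ℕ → Z.opd.W)
    (hch : ∀ i j, ch i (j + S.K.len i) = ch i j)
    (hπ : ∀ i j, Z.opd.π (ch i j) = S.K.vx i j) : (Z.sys ch hch hπ).Conn :=
  (Z.gen ch hch hπ).conn hc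

/-- THE OPENED SYSTEM `K⁺` IS CONNECTED -/
theorem sysP_conn (hc : S.Conn) (ch : S.K.I → ℕ → V ⊕ (H ⧸ Z.opd.D))
    (hch : ∀ i j, ch i (j + S.K.len i) = ch i j)
    (hπ : ∀ i j, Z.opd.πp (ch i j) = S.K.vx i j) : (Z.sysP ch hch hπ).Conn :=
  (Z.genP ch hch hπ).conn hc

end Inst

end OpS

end SyQ

end Pool.Agent.DI
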