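import Pool.Agent.DI.OpnP
import Pool.Agent.DI.SeenQ
import Pool.Agent.DI.WallC

/-!
# DI/OpSys: the system of subtrees on the opened complex

`Z : S.OpS`: a soft `v` of `S : SyQ H V` with `J v = {u}`, `u` has the neighbours `w` and `w'` only,
`r` fixes `v` and sends `w` to `w'`, the poles of `v` cross both edges. `Z.opd : OpD S.K` (95's
opening data: `D` = elements which fix `v` and `w`, `L` = in-arrows which cross `u w`).
`Z.Jo`: subtrees of the vertices of the opened complex: `J` of the coset `g D` is `{g w}`, a page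
`n → g v` loses the point `g u`. `Z.js : JS (p45).pq S.D Z.Jo`; `Z.sys ch : SyQ H Z.opd.W`.
-/

namespace Pool.Agent.DI

open MulAction
open Pool.Agent.SAF (InC orbs FinOrb oc Decomp SAn SA Conv hull dist_edge FinOrb_iff exists_next)
open Pool.Agent.BT (PX PQ JS bey exits)
open Pool.Agent.BT.TA

theorem conv_edge {X : Type} {G : SimpleGraph X} (hG : G.IsTree) {a b : X} (h : G.Adj a b) :
    Conv G {a, b} := by
  have h1 : G.dist a b = 1 := SimpleGraph.dist_eq_one_iff_adj.2 h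
  have h2 : G.dist b a = 1 := SimpleGraph.dist_eq_one_iff_adj.2 h.symm
  have z : ∀ {p q : X}, G.dist p q = 0 → p = q := fun {p q} e =>
    (hG.connected.dist_eq_zero_iff).1 e
  intro p hp q hq t e
  have hd : G.dist p q ≤ 1 := by
    rcases hp with hp | hp <;> rcases hq with hq | hq
    · rw [hp, hq, SimpleGraph.dist_self]
      exact Nat.zero_le _
    · rw [hp, Set.mem_singleton_iff.1 hq, h1]
    · rw [Set.mem_singleton_iff.1 hp, hq, h2]
    · rw [Set.mem_singleton_iff.1 hp, Set.mem_singleton_iff.1 hq, SimpleGraph.dist_self]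
      exact Nat.zero_le _
  rcases Nat.eq_zero_or_pos (G.dist p t) with k | k
  · rw [← z k]
    exact hp
  · rw [z (by omega : G.dist t q = 0)]
    exact hq

/-- an edge whose ends are on different sides of an edge -/
theorem edge_eq {X : Type} {G : SimpleGraph X} (hG : G.IsTree) {a b p q : X} (h : G.Adj a b)
    (h' : G.Adj p q) (ha : a ∈ bey G q p) (hb : b ∈ bey G p q) : a = p ∧ b = q := by
  obtain ⟨h1, h2⟩ := conv_cr hG (conv_edge hG h) h' (Or.inl rfl) (Or.inr rfl) ha hb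
  have np : ∀ {x y : X}, x ∉ bey G x y := by
    intro x y e
    have e : G.dist x x = G.dist x y + 1 := e
    rw [SimpleGraph.dist_self] at e
    omega
  constructor
  · rcases h1 with e | e
    · exact e.symm
    · have e : p = b := e
      rw [← e] at hb
      exact absurd hb np
  · rcases h2 with e | e
    · have e : q = a := e
      rw [← e] at ha
      exact absurd ha np
    · exact (Set.mem_singleton_iff.1 e).symm

namespace SyQ

variable {H V : Type} [Group H] [MulAction H V] (S : SyQ H V)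

/-- a soft over a midpoint which is going to be opened -/
structure OpS where
  w : S.X
  u : S.X
  w' : S.X
  v : V
  a : V
  b : V
  r : H
  hw : S.D.G.Adj u w
  hw' : S.D.G.Adj u w'
  ne : w ≠ w'
  val : ∀ z, S.D.G.Adj u z → z = w ∨ z = w'
  wu : ∀ g : H, g • u ≠ w
  Jv : S.J v = {u}
  va : S.K.ar v a
  vb : S.K.ar v b
  ab : a ≠ b
  aw : w ∈ S.J a
  aw' : w' ∈ S.J a
  bw : w ∈ S.J b
  bw' : w' ∈ S.J b
  rv : r • v = v
  rw : r • w = w'
  pg : ∀ n, S.K.ar n v → w ∈ S.J n ∨ w' ∈ S.J n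
  nin : ∀ n m, S.K.ar n v → S.K.ar m n → u ∉ S.J m
  nc : ∀ n n' y z, Qn S.P n v n' y z → S.K.ar n v → S.K.ar n' v → w ∈ S.J n → w ∈ S.J n'
  nd : ∀ n n', ¬ Q4 S.P n v n' v

namespace OpS

variable {S} (Z : S.OpS)

theorem fu {g : H} (h : g • Z.v = Z.v) : g • Z.u = Z.u := by
  have h1 := Js_smul (g := g) Z.Jv
  rw [h, Z.Jv] at h1
  exact (Set.singleton_eq_singleton_iff.1 h1).symm

theorem fu' {g g' : H} (h : g • Z.v = g' • Z.v) : g • Z.u = g' • Z.u := by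
  have h1 : (g'⁻¹ * g) • Z.v = Z.v := by rw [mul_smul, h, inv_smul_smul]
  have h2 := Z.fu h1
  rw [mul_smul, inv_smul_eq_iff] at h2
  exact h2

theorem ru : Z.r • Z.u = Z.u := Z.fu Z.rv

theorem fw {g : H} (h : g • Z.u = Z.u) : g • Z.w = Z.w ∨ g • Z.w = Z.w' := by
  have h1 := S.D.adj_smul g _ _ Z.hw
  rw [h] at h1
  exact Z.val _ h1

theorem rw' : Z.r • Z.w' = Z.w := by
  have h1 := S.D.adj_smul Z.r _ _ Z.hw'
  rw [Z.ru] at h1
  rcases Z.val _ h1 with e | e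
  · exact e
  · rw [← Z.rw] at e
    have e1 := smul_left_cancel _ e
    rw [Z.rw] at e1
    exact absurd (smul_left_cancel _ (e.trans rfl) : Z.r • Z.w = Z.w)
      (fun k => Z.ne (by rw [Z.rw] at k; exact k.symm))

theorem Ju (g : H) : S.J (g • Z.v) = {g • Z.u} := Js_smul Z.Jv

/-- adjacent vertices of `g v` are over `g u` -/
theorem nu {x : V} {g : H} (h : S.K.E x (g • Z.v)) : g • Z.u ∈ S.J x := by
  obtain ⟨p, p0, p1⟩ := S.one_ex h
  rw [Z.Ju] at p1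
  rw [← Set.mem_singleton_iff.1 p1]
  exact p0

/-- a page crosses one edge only -/
theorem page {x : V} {g : H} (h : S.K.ar x (g • Z.v)) :
    ¬ (g • Z.w ∈ S.J x ∧ g • Z.w' ∈ S.J x) := by
  rintro ⟨h1, h2⟩
  have hu := Z.nu (Or.inl h)
  have s1 : (Sum.inl (g • Z.v) : V ⊕ S.X) ∈ exits S.P.pq S.D.G S.J x (g • Z.u) :=
    Or.inl ⟨_, rfl, h, by rw [Z.Ju]; exact rfl⟩
  have s2 : (Sum.inr (g • Z.w) : V ⊕ S.X) ∈ exits S.P.pq S.D.G S.J x (g • Z.u) :=
    Or.inr ⟨_, rfl, S.D.adj_smul g _ _ Z.hw, h1⟩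
  have s3 : (Sum.inr (g • Z.w') : V ⊕ S.X) ∈ exits S.P.pq S.D.G S.J x (g • Z.u) :=
    Or.inr ⟨_, rfl, S.D.adj_smul g _ _ Z.hw', h2⟩
  rcases S.js.two x _ hu _ s1 _ s2 _ s3 with e | e | e
  · cases e
  · cases e
  · exact Z.ne (smul_left_cancel g (Sum.inr.inj e))

/-- the opening data of helper95 -/
noncomputable def opd : OpD S.K where
  v := Z.v
  a := Z.a
  b := Z.b
  va := Z.va
  vb := Z.vb
  ab := Z.ab
  D := stabilizer H Z.v ⊓ stabilizer H Z.w
  r := Z.r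
  Dv _ h := h.1
  rv := Z.rv
  rD h := Z.ne (h.2.symm.trans Z.rw)
  two g h := by
    rcases Z.fw (Z.fu h) with e | e
    · exact Or.inl ⟨h, e⟩
    · refine Or.inr ⟨?_, ?_⟩
      · show (Z.r⁻¹ * g) • Z.v = Z.v
        rw [mul_smul, h, inv_smul_eq_iff, Z.rv]
      · show (Z.r⁻¹ * g) • Z.w = Z.w
        rw [mul_smul, e, inv_smul_eq_iff, Z.rw]
  L := {n | S.K.ar n Z.v ∧ Z.w ∈ S.J n}
  Linv g hg n hn := by
    have h1 := S.K.ar_smul g _ _ hn.1
    have h2 := S.js.smul g _ _ hn.2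
    rw [show g • Z.v = Z.v from hg.1] at h1
    rw [show g • Z.w = Z.w from hg.2] at h2
    exact ⟨h1, h2⟩
  Lst g hg n hn hn' := by
    rcases Z.fw (Z.fu hg) with e | e
    · exact ⟨hg, e⟩
    · exfalso
      have h2 := S.js.smul g _ _ hn.2
      rw [e] at h2
      have h3 : S.K.ar (g • n) ((1 : H) • Z.v) := by
        rw [one_smul]
        exact hn'.1
      refine Z.page h3 ?_
      rw [one_smul, one_smul]
      exact ⟨hn'.2, h2⟩
  Lcov n hn := by
    rcases Z.pg n hn with h | h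
    · exact Or.inl ⟨hn, h⟩
    · refine Or.inr ⟨?_, ?_⟩
      · have h1 := S.K.ar_smul Z.r⁻¹ _ _ hn
        rwa [inv_smul_eq_iff.2 Z.rv.symm] at h1
      · have h1 := S.js.smul Z.r⁻¹ _ _ h
        rwa [inv_smul_eq_iff.2 Z.rw.symm] at h1
  cor i j h hl hv h1 h2 hL := by
    refine ⟨h2, ?_⟩
    by_cases hi : S.P.sq i
    · -- a square
      rcases Z.pg _ h2 with k | k
      · exact k
      exfalso
      have hq : Q4 S.P (h • S.K.vx i j) Z.v (h • S.K.vx i (j + 2)) (h • S.K.vx i (j + 3)) := by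
        have m : ∀ t : ℕ, (j + t) % 4 < 4 := fun t => Nat.mod_lt _ (by norm_num)
        refine ⟨h, i, ⟨(j + 0) % 4, m 0⟩, hi, Or.inl ⟨?_, ?_, ?_, ?_⟩⟩
        · rw [S.P.vx4n hi j ⟨(j + 0) % 4, m 0⟩ rfl]
        · rw [← hv, S.P.vx4n hi (j + 1) (⟨(j + 0) % 4, m 0⟩ + 1)]
          rw [Fin.val_add]
          show (j + 1) % 4 = ((j + 0) % 4 + 1) % 4
          omega
        · rw [S.P.vx4n hi (j + 2) (⟨(j + 0) % 4, m 0⟩ + 2)]
          rw [Fin.val_add]
          show (j + 2) % 4 = ((j + 0) % 4 + 2) % 4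
          omega
        · rw [S.P.vx4n hi (j + 3) (⟨(j + 0) % 4, m 0⟩ + 3)]
          rw [Fin.val_add]
          show (j + 3) % 4 = ((j + 0) % 4 + 3) % 4
          omega
      generalize h • S.K.vx i j = n at *
      generalize h • S.K.vx i (j + 2) = n' at *
      generalize h • S.K.vx i (j + 3) = y at *
      -- `y` is over `u`
      obtain ⟨p, p0, p1⟩ := S.one_ex hq.E3
      obtain ⟨q, q0, q1⟩ := S.one_ex hq.E4
      have hn1 : S.K.ar n ((1 : H) • Z.v) := by rw [one_smul]; exact h1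
      have hn2 : S.K.ar n' ((1 : H) • Z.v) := by rw [one_smul]; exact h2
      have un : Z.u ∈ S.J n := by
        have := Z.nu (Or.inl hn1)
        rwa [one_smul] at this
      have un' : Z.u ∈ S.J n' := by
        have := Z.nu (Or.inl hn2)
        rwa [one_smul] at this
      have nn : Z.w' ∉ S.J n := by
        intro e
        have := Z.page hn1
        rw [one_smul, one_smul] at this
        exact this ⟨hL.2, e⟩
      have nn' : Z.w ∉ S.J n' := by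
        intro e
        have := Z.page hn2
        rw [one_smul, one_smul] at this
        exact this ⟨e, k⟩
      -- position of the common points
      have pos : ∀ {x : V} {t : S.X}, Z.u ∈ S.J x → Z.w' ∉ S.J x → t ∈ S.J x →
          t ∈ bey S.D.G Z.w' Z.u := by
        intro x t hu hx ht
        have hs : S.J x ⊆ bey S.D.G Z.w' Z.u :=
          S.side_of Z.hw'.symm (fun e => hx e.1) hu (bey_self Z.hw'.symm)
        exact hs ht
      have pos' : ∀ {x : V} {t : S.X}, Z.u ∈ S.J x → Z.w ∉ S.J x → t ∈ S.J x →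
          t ∈ bey S.D.G Z.w Z.u := by
        intro x t hu hx ht
        have hs : S.J x ⊆ bey S.D.G Z.w Z.u :=
          S.side_of Z.hw.symm (fun e => hx e.1) hu (bey_self Z.hw.symm)
        exact hs ht
      have uy : Z.u ∈ S.J y := by
        by_contra hu
        obtain ⟨z, hz, hs⟩ := S.exists_dir hu
        rcases Z.val z hz with rfl | rfl
        · exact bey_not (hs p1) (pos' un' nn' p0)
        · exact bey_not (hs q0) (pos un nn q1)
      -- so `n` has three exits at `u`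
      have hyn : S.K.E n y := hq.E4.symm
      rcases hyn with e | e
      · have s1 : (Sum.inl Z.v : V ⊕ S.X) ∈ exits S.P.pq S.D.G S.J n Z.u :=
          Or.inl ⟨_, rfl, h1, by rw [Z.Jv]; exact rfl⟩
        have s2 : (Sum.inr Z.w : V ⊕ S.X) ∈ exits S.P.pq S.D.G S.J n Z.u :=
          Or.inr ⟨_, rfl, Z.hw, hL.2⟩
        have s3 : (Sum.inl y : V ⊕ S.X) ∈ exits S.P.pq S.D.G S.J n Z.u :=
          Or.inl ⟨_, rfl, e, uy⟩
        rcases S.js.two n _ un _ s1 _ s2 _ s3 with k1 | k1 | k1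
        · cases k1
        · have k2 : Z.v = y := Sum.inl.inj k1
          rw [← k2] at hq
          exact Z.nd _ _ hq
        · cases k1
      · exact Z.nin n y h1 e uy
    · -- a pentagon
      have m : (j + 0) % 5 < 5 := Nat.mod_lt _ (by norm_num)
      refine Z.nc (h • S.K.vx i j) (h • S.K.vx i (j + 2)) (h • S.K.vx i (j + 3))
        (h • S.K.vx i (j + 4)) ?_ h1 h2 hL.2
      refine ⟨h, i, ⟨(j + 0) % 5, m⟩, hi, Or.inl ⟨?_, ?_, ?_, ?_, ?_⟩⟩
      · rw [S.P.vx5n hi j ⟨(j + 0) % 5, m⟩ rfl]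
      · rw [← hv, S.P.vx5n hi (j + 1) (⟨(j + 0) % 5, m⟩ + 1)]
        rw [Fin.val_add]
        show (j + 1) % 5 = ((j + 0) % 5 + 1) % 5
        omega
      · rw [S.P.vx5n hi (j + 2) (⟨(j + 0) % 5, m⟩ + 2)]
        rw [Fin.val_add]
        show (j + 2) % 5 = ((j + 0) % 5 + 2) % 5
        omega
      · rw [S.P.vx5n hi (j + 3) (⟨(j + 0) % 5, m⟩ + 3)]
        rw [Fin.val_add]
        show (j + 3) % 5 = ((j + 0) % 5 + 3) % 5
        omega
      · rw [S.P.vx5n hi (j + 4) (⟨(j + 0) % 5, m⟩ + 4)]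
        rw [Fin.val_add]
        show (j + 4) % 5 = ((j + 0) % 5 + 4) % 5
        omega

/-! ### pages -/

/-- `x` is a page of `g v` on the side of `g w` -/
def Pg (x : V) (g : H) : Prop := S.K.ar x (g • Z.v) ∧ g • Z.w ∈ S.J x

theorem Pg.nu {x : V} {g : H} (h : Z.Pg x g) : g • Z.u ∈ S.J x := Z.nu (Or.inl h.1)

theorem Pg.nw' {x : V} {g : H} (h : Z.Pg x g) : g • Z.w' ∉ S.J x := fun e => Z.page h.1 ⟨h.2, e⟩

theorem Pg.smul {x : V} {g : H} (h : Z.Pg x g) (k : H) : Z.Pg (k • x) (k * g) := by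
  refine ⟨?_, ?_⟩
  · rw [mul_smul]
    exact S.K.ar_smul k _ _ h.1
  · rw [mul_smul]
    exact S.js.smul k _ _ h.2

theorem exists_Pg {x : V} {g : H} (h : S.K.ar x (g • Z.v)) : Z.Pg x g ∨ Z.Pg x (g * Z.r) := by
  have h1 := S.K.ar_smul g⁻¹ _ _ h
  rw [inv_smul_smul] at h1
  rcases Z.pg _ h1 with k | k
  · left
    have := S.js.smul g _ _ k
    rw [smul_inv_smul] at this
    exact ⟨h, this⟩
  · right
    have := S.js.smul g _ _ k
    rw [smul_inv_smul, ← Z.rw, ← mul_smul] at this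
    refine ⟨?_, this⟩
    rw [mul_smul, Z.rv]
    exact h

/-- the page has the exits `g v` and `g w` at `g u` -/
theorem Pg.exits {x : V} {g : H} (h : Z.Pg x g) {s : V ⊕ S.X}
    (hs : s ∈ exits S.P.pq S.D.G S.J x (g • Z.u)) :
    s = Sum.inl (g • Z.v) ∨ s = Sum.inr (g • Z.w) := by
  have s1 : (Sum.inl (g • Z.v) : V ⊕ S.X) ∈ BT.exits S.P.pq S.D.G S.J x (g • Z.u) :=
    Or.inl ⟨_, rfl, h.1, by rw [Z.Ju]; exact rfl⟩
  have s2 : (Sum.inr (g • Z.w) : V ⊕ S.X) ∈ BT.exits S.P.pq S.D.G S.J x (g • Z.u) :=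
    Or.inr ⟨_, rfl, S.D.adj_smul g _ _ Z.hw, h.2⟩
  rcases S.js.two x _ h.nu _ s1 _ s2 _ hs with e | e | e
  · cases e
  · exact Or.inl e.symm
  · exact Or.inr e.symm

theorem Pg.uniq {x : V} {g g' : H} (h : Z.Pg x g) (h' : Z.Pg x g') (e : g • Z.u = g' • Z.u) :
    ((g : H ⧸ Z.opd.D)) = (g' : H ⧸ Z.opd.D) := by
  have s1 : (Sum.inl (g' • Z.v) : V ⊕ S.X) ∈ BT.exits S.P.pq S.D.G S.J x (g • Z.u) :=
    Or.inl ⟨_, rfl, h'.1, by rw [Z.Ju, e]; exact rfl⟩
  have s2 : (Sum.inr (g' • Z.w) : V ⊕ S.X) ∈ BT.exits S.P.pq S.D.G S.J x (g • Z.u) :=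
    Or.inr ⟨_, rfl, by rw [e]; exact S.D.adj_smul g' _ _ Z.hw, h'.2⟩
  rw [Z.opd.mk_eq]
  have e1 : g' • Z.v = g • Z.v := by
    rcases h.exits Z s1 with k | k
    · exact Sum.inl.inj k
    · cases k
  have e2 : g' • Z.w = g • Z.w := by
    rcases h.exits Z s2 with k | k
    · cases k
    · exact Sum.inr.inj k
  refine ⟨?_, ?_⟩
  · show (g⁻¹ * g') • Z.v = Z.v
    rw [mul_smul, e1, inv_smul_smul]
  · show (g⁻¹ * g') • Z.w = Z.w
    rw [mul_smul, e2, inv_smul_smul]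

/-- the label of a page -/
theorem Pg.e {x : V} {g : H} (h : Z.Pg x g) : Z.opd.e x (g • Z.v) = Sum.inr (g : H ⧸ Z.opd.D) := by
  refine Z.opd.e_inr rfl ?_
  refine ⟨?_, ?_⟩
  · have h1 := S.K.ar_smul g⁻¹ _ _ h.1
    rwa [inv_smul_smul] at h1
  · have h1 := S.js.smul g⁻¹ _ _ h.2
    rwa [inv_smul_smul] at h1

theorem Pg_of_e {x : V} {g : H} (h : S.K.ar x (g • Z.v))
    (he : Z.opd.e x (g • Z.v) = Sum.inr (g : H ⧸ Z.opd.D)) : Z.Pg x g := by
  rcases Z.exists_Pg h with k | k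
  · exact k
  · exfalso
    have h1 := k.e
    rw [mul_smul, Z.rv, he] at h1
    have h2 := Z.opd.mk_eq.1 (Sum.inr.inj h1)
    rw [inv_mul_cancel_left] at h2
    exact Z.opd.rD h2

theorem ngw (g k : H) : g • Z.w ≠ k • Z.u := by
  intro e
  refine Z.wu (g⁻¹ * k) ?_
  rw [mul_smul, ← e, inv_smul_smul]

theorem ngw' (g k : H) : g • Z.w' ≠ k • Z.u := by
  rw [← Z.rw, ← mul_smul]
  exact Z.ngw _ _

/-! ### the subtrees -/

/-- the subtrees of the opened complex -/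
def Jo : Z.opd.W → Set S.X
  | Sum.inl x => {p | p ∈ S.J x.1 ∧ ∀ g, Z.Pg x.1 g → p ≠ g • Z.u}
  | Sum.inr s => {p | ∃ g : H, (g : H ⧸ Z.opd.D) = s ∧ p = g • Z.w}

theorem Jo_inl {x : ↥(cO H Z.opd.v)} {p : S.X} :
    p ∈ Z.Jo (Sum.inl x) ↔ p ∈ S.J x.1 ∧ ∀ g, Z.Pg x.1 g → p ≠ g • Z.u := Iff.rfl

theorem Jo_mk (g : H) : Z.Jo (Sum.inr (g : H ⧸ Z.opd.D)) = {g • Z.w} := by
  ext p
  constructor
  · rintro ⟨g', h, rfl⟩
    have h1 := Z.opd.mk_eq.1 h
    have h2 : (g'⁻¹ * g) • Z.w = Z.w := h1.2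
    rw [mul_smul, inv_smul_eq_iff] at h2
    exact h2.symm
  · intro h
    exact ⟨g, rfl, Set.mem_singleton_iff.1 h⟩

/-- not in the orbit of `v` -/
theorem nZ (x : ↥(cO H Z.opd.v)) (g : H) : x.1 ≠ g • Z.v := fun e => x.2 ⟨g, e⟩

theorem Jo_conv (x : Z.opd.W) : Conv S.D.G (Z.Jo x) := by
  rcases x with x | s
  · intro a ha b hb t ht
    refine ⟨S.js.conv x.1 a ha.1 b hb.1 t ht, ?_⟩
    rintro g hg rfl
    have na : g • Z.u ≠ a := fun e => ha.2 g hg e.symm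
    have nb : g • Z.u ≠ b := fun e => hb.2 g hg e.symm
    obtain ⟨z, hz, e1⟩ := exists_next S.D.tree na
    obtain ⟨z', hz', e2⟩ := exists_next S.D.tree nb
    have ba : a ∈ bey S.D.G (g • Z.u) z := by
      show S.D.G.dist a (g • Z.u) = S.D.G.dist a z + 1
      rw [SimpleGraph.dist_comm, e1, SimpleGraph.dist_comm]
    have bb : b ∈ bey S.D.G (g • Z.u) z' := by
      show S.D.G.dist b (g • Z.u) = S.D.G.dist b z' + 1
      rw [SimpleGraph.dist_comm, e2, SimpleGraph.dist_comm]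
    have mz := (conv_cr S.D.tree (S.js.conv x.1) hz hg.nu ha.1 (bey_self hz.symm) ba).2
    have mz' := (conv_cr S.D.tree (S.js.conv x.1) hz' hg.nu hb.1 (bey_self hz'.symm) bb).2
    have key : ∀ z, S.D.G.Adj (g • Z.u) z → z ∈ S.J x.1 → z = g • Z.w := by
      intro z hz mz
      have h1 := S.D.adj_smul g⁻¹ _ _ hz
      rw [inv_smul_smul] at h1
      rcases Z.val _ h1 with e | e
      · rw [← e, smul_inv_smul]
      · exfalso
        apply hg.nw'
        rw [← e, smul_inv_smul]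
        exact mz
    have k1 := key z hz mz
    have k2 := key z' hz' mz'
    rw [k1] at e1
    rw [k2] at e2
    have h3 := S.D.tree.connected.dist_triangle (u := a) (v := g • Z.w) (w := b)
    rw [SimpleGraph.dist_comm (u := a) (v := g • Z.w)] at h3
    rw [SimpleGraph.dist_comm (u := a)] at ht
    omega
  · induction s using QuotientGroup.induction_on with
    | _ g =>
      rw [Z.Jo_mk]
      exact Pool.Agent.BT.conv_singleton S.D.tree _

theorem Jo_ne (x : Z.opd.W) : (Z.Jo x).Nonempty := by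
  rcases x with x | s
  · by_cases h : ∃ g, Z.Pg x.1 g
    · obtain ⟨g, hg⟩ := h
      exact ⟨g • Z.w, hg.2, fun k _ => Z.ngw g k⟩
    · push Not at h
      obtain ⟨p, hp⟩ := S.js.ne x.1
      exact ⟨p, hp, fun g hg => absurd hg (h g)⟩
  · induction s using QuotientGroup.induction_on with
    | _ g =>
      rw [Z.Jo_mk]
      exact ⟨_, rfl⟩

theorem Jo_smul (h : H) (x : Z.opd.W) (p : S.X) (hp : p ∈ Z.Jo x) : h • p ∈ Z.Jo (h • x) := by
  rcases x with x | s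
  · refine ⟨S.js.smul h _ _ hp.1, ?_⟩
    intro g hg e
    have h1 := hg.smul Z h⁻¹
    have e1 : h⁻¹ • (h • x).1 = x.1 := inv_smul_smul h x.1
    rw [e1] at h1
    refine hp.2 _ h1 ?_
    rw [mul_smul, ← e, inv_smul_smul]
  · obtain ⟨g, rfl, rfl⟩ := hp
    exact ⟨h * g, rfl, (mul_smul _ _ _).symm⟩

variable (ch : S.K.I → ℕ → Z.opd.W) (hch : ∀ i j, ch i (j + S.K.len i) = ch i j)
  (hπ : ∀ i j, Z.opd.π (ch i j) = S.K.vx i j)

/-- the opened complex -/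
noncomputable abbrev op : OpW S.K Z.opd.W := Z.opd.opn ch hch hπ

theorem op_ar_inl {x y : ↥(cO H Z.opd.v)} :
    (Z.op ch hch hπ).ar (Sum.inl x) (Sum.inl y) ↔ S.K.ar x.1 y.1 := by
  constructor
  · exact fun h => h.1
  · exact fun h => ⟨h, Z.opd.e_inl y.2⟩

theorem op_ar_page {x : ↥(cO H Z.opd.v)} {g : H} :
    (Z.op ch hch hπ).ar (Sum.inl x) (Sum.inr (g : H ⧸ Z.opd.D)) ↔ Z.Pg x.1 g := by
  constructor
  · exact fun h => Z.Pg_of_e h.1 h.2
  · exact fun h => ⟨h.1, h.e⟩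

theorem op_ar_pole {y : ↥(cO H Z.opd.v)} {g : H} :
    (Z.op ch hch hπ).ar (Sum.inr (g : H ⧸ Z.opd.D)) (Sum.inl y) ↔ S.K.ar (g • Z.v) y.1 := by
  constructor
  · exact fun h => h.1
  · exact fun h => ⟨h, Z.opd.e_inl y.2⟩

theorem pole_eq {y : V} {g : H} (h : S.K.ar (g • Z.v) y) : y = g • Z.a ∨ y = g • Z.b := by
  have h1 := S.K.ar_smul g⁻¹ _ _ h
  rw [inv_smul_smul] at h1
  rcases S.K.two _ _ _ _ Z.va Z.vb h1 with e | e | e
  · exact absurd e Z.ab
  · right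
    rw [e, smul_inv_smul]
  · left
    rw [e, smul_inv_smul]

theorem pole_mem {y : V} {g : H} (h : S.K.ar (g • Z.v) y) :
    g • Z.w ∈ S.J y ∧ g • Z.u ∈ S.J y ∧ g • Z.w' ∈ S.J y := by
  refine ⟨?_, Z.nu (Or.inr h), ?_⟩
  · rcases Z.pole_eq h with rfl | rfl
    · exact S.js.smul g _ _ Z.aw
    · exact S.js.smul g _ _ Z.bw
  · rcases Z.pole_eq h with rfl | rfl
    · exact S.js.smul g _ _ Z.aw'
    · exact S.js.smul g _ _ Z.bw'

theorem not_ar_vv {g g' : H} : ¬ S.K.ar (g • Z.v) (g' • Z.v) := by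
  intro h
  have := S.K.ar_rk _ _ h
  rw [S.K.rk_smul, S.K.rk_smul] at this
  exact lt_irrefl _ this

theorem Jo_one_ar {x y : Z.opd.W} (h : (Z.op ch hch hπ).ar x y) :
    ∃ p, Z.Jo x ∩ Z.Jo y = {p} := by
  rcases x with x | s <;> rcases y with y | t
  · have h1 := (Z.op_ar_inl ch hch hπ).1 h
    obtain ⟨p, hp⟩ := S.js.one x.1 y.1 (Or.inl h1)
    have p0 : p ∈ S.J x.1 := (hp.symm ▸ rfl : p ∈ S.J x.1 ∩ S.J y.1).1
    have p1 : p ∈ S.J y.1 := (hp.symm ▸ rfl : p ∈ S.J x.1 ∩ S.J y.1).2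
    have q0 : p ∈ Z.Jo (Sum.inl x) := by
      refine ⟨p0, ?_⟩
      rintro g hg rfl
      have s1 : (Sum.inl y.1 : V ⊕ S.X) ∈ exits S.P.pq S.D.G S.J x.1 (g • Z.u) :=
        Or.inl ⟨_, rfl, h1, p1⟩
      rcases hg.exits Z s1 with k | k
      · exact Z.nZ y g (Sum.inl.inj k)
      · cases k
    have q1 : p ∈ Z.Jo (Sum.inl y) := by
      refine ⟨p1, ?_⟩
      rintro g hg rfl
      have k1 := S.K.ar_smul g⁻¹ _ _ hg.1
      have k2 := S.K.ar_smul g⁻¹ _ _ h1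
      have k3 := S.js.smul g⁻¹ _ _ p0
      rw [inv_smul_smul] at k1 k3
      exact Z.nin _ _ k1 k2 k3
    refine ⟨p, ?_⟩
    apply Set.Subset.antisymm
    · rintro q ⟨a1, a2⟩
      rw [← hp]
      exact ⟨a1.1, a2.1⟩
    · rintro q rfl
      exact ⟨q0, q1⟩
  · induction t using QuotientGroup.induction_on with
    | _ g =>
      have h1 := (Z.op_ar_page ch hch hπ).1 h
      refine ⟨g • Z.w, ?_⟩
      rw [Z.Jo_mk]
      apply Set.inter_eq_self_of_subset_right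
      rintro p rfl
      exact ⟨h1.2, fun k _ => Z.ngw g k⟩
  · induction s using QuotientGroup.induction_on with
    | _ g =>
      have h1 := (Z.op_ar_pole ch hch hπ).1 h
      refine ⟨g • Z.w, ?_⟩
      rw [Z.Jo_mk]
      apply Set.inter_eq_self_of_subset_left
      rintro p rfl
      exact ⟨(Z.pole_mem h1).1, fun k _ => Z.ngw g k⟩
  · exfalso
    induction s using QuotientGroup.induction_on with
    | _ g =>
      induction t using QuotientGroup.induction_on with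
      | _ g' => exact Z.not_ar_vv h.1

/-- the old exit of a new exit -/
def Ro (x : ↥(cO H Z.opd.v)) (p : S.X) : Z.opd.W ⊕ S.X → V ⊕ S.X → Prop
  | Sum.inl (Sum.inl a), t => t = Sum.inl a.1
  | Sum.inl (Sum.inr c), t => ∃ g : H, c = (g : H ⧸ Z.opd.D) ∧ Z.Pg x.1 g ∧ p = g • Z.w ∧
      t = Sum.inr (g • Z.u)
  | Sum.inr q, t => q ∈ Z.Jo (Sum.inl x) ∧ t = Sum.inr q

theorem Ro_inj {x : ↥(cO H Z.opd.v)} {p : S.X} {s s' : Z.opd.W ⊕ S.X} {t : V ⊕ S.X}
    (h : Z.Ro x p s t) (h' : Z.Ro x p s' t) : s = s' := by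
  rcases s with (a | c) | q <;> rcases s' with (a' | c') | q'
  · have e1 : t = Sum.inl a.1 := h
    have e2 : t = Sum.inl a'.1 := h'
    rw [e1] at e2
    rw [Subtype.ext (Sum.inl.inj e2)]
  · have e1 : t = Sum.inl a.1 := h
    obtain ⟨g, -, -, -, e2⟩ := h'
    rw [e1] at e2
    cases e2
  · have e1 : t = Sum.inl a.1 := h
    obtain ⟨-, e2⟩ := h'
    rw [e1] at e2
    cases e2
  · have e1 : t = Sum.inl a'.1 := h'
    obtain ⟨g, -, -, -, e2⟩ := h
    rw [e1] at e2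
    cases e2
  · obtain ⟨g, rfl, a1, a2, a3⟩ := h
    obtain ⟨g', rfl, b1, b2, b3⟩ := h'
    rw [a3] at b3
    rw [a1.uniq Z b1 (Sum.inr.inj b3)]
  · obtain ⟨g, rfl, a1, a2, a3⟩ := h
    obtain ⟨b1, b2⟩ := h'
    rw [a3] at b2
    exact absurd (Sum.inr.inj b2).symm (b1.2 g a1)
  · have e1 : t = Sum.inl a'.1 := h'
    obtain ⟨-, e2⟩ := h
    rw [e1] at e2
    cases e2
  · obtain ⟨g, rfl, a1, a2, a3⟩ := h'
    obtain ⟨b1, b2⟩ := h
    rw [a3] at b2
    exact absurd (Sum.inr.inj b2).symm (b1.2 g a1)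
  · obtain ⟨-, b2⟩ := h
    obtain ⟨-, b3⟩ := h'
    rw [b2] at b3
    rw [Sum.inr.inj b3]

theorem Ro_ex {x : ↥(cO H Z.opd.v)} {p : S.X} {s : Z.opd.W ⊕ S.X}
    (h : s ∈ exits ((Z.op ch hch hπ).p45 S.P).pq S.D.G Z.Jo (Sum.inl x) p) :
    ∃ t ∈ exits S.P.pq S.D.G S.J x.1 p, Z.Ro x p s t := by
  rcases h with ⟨a, rfl, h1, h2⟩ | ⟨q, rfl, h1, h2⟩
  · rcases a with a | c
    · have h1 := (Z.op_ar_inl ch hch hπ).1 h1
      exact ⟨Sum.inl a.1, Or.inl ⟨_, rfl, h1, h2.1⟩, rfl⟩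
    · induction c using QuotientGroup.induction_on with
      | _ g =>
        have h1 := (Z.op_ar_page ch hch hπ).1 h1
        rw [Z.Jo_mk] at h2
        have e : p = g • Z.w := h2
        refine ⟨Sum.inr (g • Z.u), Or.inr ⟨_, rfl, ?_, h1.nu⟩, g, rfl, h1, e, rfl⟩
        rw [e]
        exact S.D.adj_smul g _ _ Z.hw.symm
  · exact ⟨Sum.inr q, Or.inr ⟨_, rfl, h1, h2.1⟩, h2, rfl⟩

theorem Jo_two (x : Z.opd.W) (p : S.X) (hp : p ∈ Z.Jo x) (s : Z.opd.W ⊕ S.X)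
    (hs : s ∈ exits ((Z.op ch hch hπ).p45 S.P).pq S.D.G Z.Jo x p) (t : Z.opd.W ⊕ S.X)
    (ht : t ∈ exits ((Z.op ch hch hπ).p45 S.P).pq S.D.G Z.Jo x p) (v : Z.opd.W ⊕ S.X)
    (hv : v ∈ exits ((Z.op ch hch hπ).p45 S.P).pq S.D.G Z.Jo x p) : s = t ∨ s = v ∨ t = v := by
  rcases x with x | c
  · obtain ⟨s', s1, s2⟩ := Z.Ro_ex ch hch hπ hs
    obtain ⟨t', t1, t2⟩ := Z.Ro_ex ch hch hπ ht
    obtain ⟨v', v1, v2⟩ := Z.Ro_ex ch hch hπ hv
    rcases S.js.two x.1 p hp.1 _ s1 _ t1 _ v1 with e | e | e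
    · exact Or.inl (Z.Ro_inj s2 (e ▸ t2))
    · exact Or.inr (Or.inl (Z.Ro_inj s2 (e ▸ v2)))
    · exact Or.inr (Or.inr (Z.Ro_inj t2 (e ▸ v2)))
  · induction c using QuotientGroup.induction_on with
    | _ g =>
      have key : ∀ s ∈ exits ((Z.op ch hch hπ).p45 S.P).pq S.D.G Z.Jo
          (Sum.inr (g : H ⧸ Z.opd.D)) p, ∃ a, s = Sum.inl a ∧
            (Z.op ch hch hπ).gx.ar (Sum.inr (g : H ⧸ Z.opd.D)) a := by
        rintro s (⟨a, rfl, h1, h2⟩ | ⟨q, rfl, h1, h2⟩)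
        · exact ⟨a, rfl, h1⟩
        · exfalso
          rw [Z.Jo_mk] at hp h2
          rw [Set.mem_singleton_iff.1 hp, Set.mem_singleton_iff.1 h2] at h1
          exact h1.ne rfl
      obtain ⟨a, rfl, ha⟩ := key s hs
      obtain ⟨b, rfl, hb⟩ := key t ht
      obtain ⟨c, rfl, hc⟩ := key v hv
      rcases (Z.op ch hch hπ).gx.two _ _ _ _ ha hb hc with e | e | e
      · exact Or.inl (by rw [e])
      · exact Or.inr (Or.inr (by rw [e]))
      · exact Or.inr (Or.inl (by rw [e]))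

/-- if `g u` is beyond an edge which is not `g w, g u`, then `g w` is -/
theorem far {g : H} {p q : S.X} (hpq : S.D.G.Adj p q)
    (hq : q ≠ g • Z.u) (hu : g • Z.u ∈ bey S.D.G p q) : g • Z.w ∈ bey S.D.G p q := by
  rcases bey_or S.D.tree hpq (g • Z.w) with k | k
  · exact k
  · exfalso
    have := edge_eq S.D.tree (S.D.adj_smul g _ _ Z.hw.symm) hpq k hu
    exact hq this.2.symm

theorem Jo_cross (x : Z.opd.W) (hx : ∃ a, ((Z.op ch hch hπ).p45 S.P).pq.ar x a) (p q : S.X)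
    (hpq : S.D.G.Adj p q) (hp : p ∈ Z.Jo x) (hq : q ∈ Z.Jo x) :
    ∃ a, ((Z.op ch hch hπ).p45 S.P).pq.ar x a ∧ Z.Jo a ⊆ bey S.D.G p q := by
  rcases x with x | c
  · obtain ⟨a0, ha0⟩ := hx
    obtain ⟨a, a1, a2⟩ := S.js.cross x.1 ⟨_, ha0.1⟩ p q hpq hp.1 hq.1
    by_cases hz : ∃ g : H, a = g • Z.v
    · obtain ⟨g, rfl⟩ := hz
      obtain ⟨g', hg', e⟩ : ∃ g', Z.Pg x.1 g' ∧ g' • Z.v = g • Z.v := by
        rcases Z.exists_Pg a1 with k | k
        · exact ⟨g, k, rfl⟩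
        · exact ⟨g * Z.r, k, by rw [mul_smul, Z.rv]⟩
      refine ⟨Sum.inr (g' : H ⧸ Z.opd.D), (Z.op_ar_page ch hch hπ).2 hg', ?_⟩
      rw [Z.Jo_mk]
      rintro t ht
      rw [Set.mem_singleton_iff.1 ht]
      refine Z.far hpq (hq.2 g' hg') (a2 ?_)
      rw [Z.Ju, Z.fu' e]
      exact rfl
    · refine ⟨Sum.inl ⟨a, hz⟩, (Z.op_ar_inl ch hch hπ).2 a1, ?_⟩
      exact fun t ht => a2 ht.1
  · exfalso
    induction c using QuotientGroup.induction_on with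
    | _ g =>
      rw [Z.Jo_mk] at hp hq
      rw [Set.mem_singleton_iff.1 hp, Set.mem_singleton_iff.1 hq] at hpq
      exact hpq.ne rfl

theorem Jo_fin : FinOrb H {p : Z.opd.W × S.X | p.2 ∈ Z.Jo p.1} := by
  have h1 : FinOrb H {p : Z.opd.W × S.X | p.2 ∈ Z.Jo p.1 ∧ ∃ x, p.1 = Sum.inl x} := by
    refine FinOrb.of_inj (H' := H) S.js.fin (fun p => (Z.opd.π p.1, p.2)) ?_ ?_
    · rintro ⟨_, p⟩ ⟨h, x, rfl⟩
      exact h.1
    · rintro ⟨_, p⟩ ⟨h, x, rfl⟩ ⟨_, p'⟩ ⟨h', x', rfl⟩ ⟨g, e⟩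
      refine ⟨g, ?_⟩
      have e1 : g • x.1 = x'.1 := congrArg Prod.fst e
      have e2 : g • p = p' := congrArg Prod.snd e
      exact Prod.ext (congrArg Sum.inl (Subtype.ext e1)) e2
  have h2 : FinOrb H {p : Z.opd.W × S.X | p.2 ∈ Z.Jo p.1 ∧ ∃ s, p.1 = Sum.inr s} := by
    refine FinOrb_iff.2 ⟨{(Sum.inr ((1 : H) : H ⧸ Z.opd.D), Z.w)}, Set.finite_singleton _, ?_, ?_⟩
    · rintro _ rfl
      refine ⟨?_, _, rfl⟩
      exact ⟨1, rfl, (one_smul _ _).symm⟩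
    · rintro ⟨c, p⟩ ⟨h0, s, e0⟩
      have e0 : c = Sum.inr s := e0
      subst e0
      obtain ⟨g, h, e⟩ : p ∈ Z.Jo (Sum.inr s) := h0
      refine ⟨_, rfl, g, ?_⟩
      have e : p = g • Z.w := e
      rw [e]
      refine Prod.ext ?_ rfl
      show (Sum.inr (g • ((1 : H) : H ⧸ Z.opd.D)) : Z.opd.W) = Sum.inr s
      rw [← h]
      congr 1
      show ((g * 1 : H) : H ⧸ Z.opd.D) = _
      rw [mul_one]
  have un : ∀ (A B : Set (Z.opd.W × S.X)), FinOrb H A → FinOrb H B → FinOrb H (A ∪ B) := by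
    intro A B hA hB
    have e : orbs H (A ∪ B) = orbs H A ∪ orbs H B := Set.image_union _ _ _
    unfold FinOrb
    rw [e]
    exact Set.Finite.union hA hB
  refine (un _ _ h1 h2).mono ?_
  rintro ⟨x | s, p⟩ h
  · exact Or.inl ⟨h, x, rfl⟩
  · exact Or.inr ⟨h, s, rfl⟩

/-- THE SYSTEM OF SUBTREES ON THE OPENED COMPLEX -/
theorem js : JS ((Z.op ch hch hπ).p45 S.P).pq S.D Z.Jo where
  conv := Z.Jo_conv
  ne := Z.Jo_ne
  smul := Z.Jo_smul
  one x y h := by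
    rcases h with h | h
    · exact Z.Jo_one_ar ch hch hπ h
    · rw [Set.inter_comm]
      exact Z.Jo_one_ar ch hch hπ h
  two x p hp s hs t ht v hv := Z.Jo_two ch hch hπ x p hp s hs t ht v hv
  cross x hx p q hpq hp hq := Z.Jo_cross ch hch hπ x hx p q hpq hp hq
  fin := Z.Jo_fin

/-- THE OPENED SYSTEM -/
noncomputable def sys : SyQ H Z.opd.W where
  K := (Z.op ch hch hπ).gx
  P := (Z.op ch hch hπ).p45 S.P
  D := S.D
  J := Z.Jo
  js := Z.js ch hch hπ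

end OpS

end SyQ

end Pool.Agent.DI
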