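import Pool.Agent.DI.OpSys

/-!
# DI/OpSysP: the system of subtrees on the opened complex `K⁺`

`Z : S.OpS`. `K⁺ = (Z.opd.opp ch).gx`: `v` is kept without in-arrows, `J v = {u}`; `J` of the coset
`g D` is `{g w}`, a page `n → g v` loses the point `g u`. `Z.sysP ch : SyQ H (V ⊕ H ⧸ D)`.
-/

namespace Pool.Agent.DI

open MulAction
open Pool.Agent.SAF (InC orbs FinOrb oc Decomp SAn SA Conv hull dist_edge FinOrb_iff exists_next)
open Pool.Agent.BT (PX PQ JS bey exits)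
open Pool.Agent.BT.TA

namespace SyQ

variable {H V : Type} [Group H] [MulAction H V] (S : SyQ H V)

namespace OpS

variable {S} (Z : S.OpS)

/-- the label of a page -/
theorem Pg.ep {x : V} {g : H} (h : Z.Pg x g) :
    Z.opd.ep x (g • Z.v) = Sum.inr (g : H ⧸ Z.opd.D) := by
  refine Z.opd.ep_inr rfl ?_
  refine ⟨?_, ?_⟩
  · have h1 := S.K.ar_smul g⁻¹ _ _ h.1
    rwa [inv_smul_smul] at h1
  · have h1 := S.js.smul g⁻¹ _ _ h.2
    rwa [inv_smul_smul] at h1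

theorem Pg_of_ep {x : V} {g : H} (h : S.K.ar x (g • Z.v))
    (he : Z.opd.ep x (g • Z.v) = Sum.inr (g : H ⧸ Z.opd.D)) : Z.Pg x g := by
  rcases Z.exists_Pg h with k | k
  · exact k
  · exfalso
    have h1 := k.ep
    rw [mul_smul, Z.rv, he] at h1
    have h2 := Z.opd.mk_eq.1 (Sum.inr.inj h1)
    rw [inv_mul_cancel_left] at h2
    exact Z.opd.rD h2

/-- the subtrees of the opened complex -/
def Jp : V ⊕ (H ⧸ Z.opd.D) → Set S.X
  | Sum.inl x => {p | p ∈ S.J x ∧ ∀ g, Z.Pg x g → p ≠ g • Z.u}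
  | Sum.inr s => {p | ∃ g : H, (g : H ⧸ Z.opd.D) = s ∧ p = g • Z.w}

theorem Jp_inl {x : V} {p : S.X} :
    p ∈ Z.Jp (Sum.inl x) ↔ p ∈ S.J x ∧ ∀ g, Z.Pg x g → p ≠ g • Z.u := Iff.rfl

theorem Jp_mk (g : H) : Z.Jp (Sum.inr (g : H ⧸ Z.opd.D)) = {g • Z.w} := Z.Jo_mk g

theorem not_Pg_v {g g' : H} : ¬ Z.Pg (g • Z.v) g' := fun h => Z.not_ar_vv h.1

theorem Jp_v (g : H) : Z.Jp (Sum.inl (g • Z.v)) = {g • Z.u} := by
  rw [← Z.Ju g]
  ext p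
  exact ⟨fun h => h.1, fun h => ⟨h, fun k hk => absurd hk Z.not_Pg_v⟩⟩

theorem Jp_conv (x : V ⊕ (H ⧸ Z.opd.D)) : Conv S.D.G (Z.Jp x) := by
  rcases x with x | s
  · by_cases hx : ∃ g : H, x = g • Z.v
    · obtain ⟨g, rfl⟩ := hx
      rw [Z.Jp_v]
      exact Pool.Agent.BT.conv_singleton S.D.tree _
    · exact Z.Jo_conv (Sum.inl ⟨x, hx⟩)
  · exact Z.Jo_conv (Sum.inr s)

theorem Jp_ne (x : V ⊕ (H ⧸ Z.opd.D)) : (Z.Jp x).Nonempty := by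
  rcases x with x | s
  · by_cases hx : ∃ g : H, x = g • Z.v
    · obtain ⟨g, rfl⟩ := hx
      rw [Z.Jp_v]
      exact ⟨_, rfl⟩
    · exact Z.Jo_ne (Sum.inl ⟨x, hx⟩)
  · exact Z.Jo_ne (Sum.inr s)

theorem Jp_smul (h : H) (x : V ⊕ (H ⧸ Z.opd.D)) (p : S.X) (hp : p ∈ Z.Jp x) :
    h • p ∈ Z.Jp (h • x) := by
  rcases x with x | s
  · refine ⟨S.js.smul h _ _ hp.1, ?_⟩
    intro g hg e
    have h1 := hg.smul Z h⁻¹
    have e1 : h⁻¹ • (h • x) = x := inv_smul_smul h x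
    rw [e1] at h1
    refine hp.2 _ h1 ?_
    rw [mul_smul, ← e, inv_smul_smul]
  · obtain ⟨g, rfl, rfl⟩ := hp
    exact ⟨h * g, rfl, (mul_smul _ _ _).symm⟩

variable (ch : S.K.I → ℕ → V ⊕ (H ⧸ Z.opd.D)) (hch : ∀ i j, ch i (j + S.K.len i) = ch i j)
  (hπ : ∀ i j, Z.opd.πp (ch i j) = S.K.vx i j)

/-- the opened complex -/
noncomputable abbrev opP : OpW S.K (V ⊕ (H ⧸ Z.opd.D)) := Z.opd.opp ch hch hπ

theorem opP_ar_inl {x y : V} : (Z.opP ch hch hπ).ar (Sum.inl x) (Sum.inl y) ↔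
    S.K.ar x y ∧ ∀ g : H, y ≠ g • Z.v := by
  constructor
  · intro h
    refine ⟨h.1, ?_⟩
    rintro g rfl
    have h1 : S.K.ar x (g • Z.v) := h.1
    have h2 : Z.opd.ep x (g • Z.v) = Sum.inl (g • Z.v) := h.2
    rcases Z.exists_Pg h1 with k | k
    · rw [k.ep] at h2
      cases h2
    · have h3 := k.ep
      rw [mul_smul, Z.rv, h2] at h3
      cases h3
  · rintro ⟨h1, h2⟩
    exact ⟨h1, Z.opd.ep_inl fun ⟨g, e⟩ => h2 g e⟩

theorem opP_ar_page {x : V} {g : H} :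
    (Z.opP ch hch hπ).ar (Sum.inl x) (Sum.inr (g : H ⧸ Z.opd.D)) ↔ Z.Pg x g := by
  constructor
  · exact fun h => Z.Pg_of_ep h.1 h.2
  · exact fun h => ⟨h.1, h.ep⟩

theorem opP_ar_pole {y : V} {g : H} :
    (Z.opP ch hch hπ).ar (Sum.inr (g : H ⧸ Z.opd.D)) (Sum.inl y) ↔ S.K.ar (g • Z.v) y := by
  constructor
  · exact fun h => h.1
  · intro h
    refine ⟨h, Z.opd.ep_inl ?_⟩
    rintro ⟨g', rfl⟩
    exact Z.not_ar_vv h

theorem Jp_one_ar {x y : V ⊕ (H ⧸ Z.opd.D)} (h : (Z.opP ch hch hπ).ar x y) :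
    ∃ p, Z.Jp x ∩ Z.Jp y = {p} := by
  rcases x with x | s <;> rcases y with y | t
  · obtain ⟨h1, h0⟩ := (Z.opP_ar_inl ch hch hπ).1 h
    obtain ⟨p, hp⟩ := S.js.one x y (Or.inl h1)
    have p0 : p ∈ S.J x := (hp.symm ▸ rfl : p ∈ S.J x ∩ S.J y).1
    have p1 : p ∈ S.J y := (hp.symm ▸ rfl : p ∈ S.J x ∩ S.J y).2
    have q0 : p ∈ Z.Jp (Sum.inl x) := by
      refine ⟨p0, ?_⟩
      rintro g hg rfl
      have s1 : (Sum.inl y : V ⊕ S.X) ∈ exits S.P.pq S.D.G S.J x (g • Z.u) :=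
        Or.inl ⟨_, rfl, h1, p1⟩
      rcases hg.exits Z s1 with k | k
      · exact h0 g (Sum.inl.inj k)
      · cases k
    have q1 : p ∈ Z.Jp (Sum.inl y) := by
      refine ⟨p1, ?_⟩
      rintro g hg rfl
      have k1 := S.K.ar_smul g⁻¹ _ _ hg.1
      have k2 := S.K.ar_smul g⁻¹ _ _ h1
      have k3 := S.js.smul g⁻¹ _ _ p0
      rw [inv_smul_smul] at k1 k3
      exact Z.nin _ _ k1 k2 k3
    refine ⟨p, ?_⟩
    apply Set.Subset.antisymm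
    · rintro q ⟨a1, a2⟩
      rw [← hp]
      exact ⟨a1.1, a2.1⟩
    · rintro q rfl
      exact ⟨q0, q1⟩
  · induction t using QuotientGroup.induction_on with
    | _ g =>
      have h1 := (Z.opP_ar_page ch hch hπ).1 h
      refine ⟨g • Z.w, ?_⟩
      rw [Z.Jp_mk]
      apply Set.inter_eq_self_of_subset_right
      rintro p rfl
      exact ⟨h1.2, fun k _ => Z.ngw g k⟩
  · induction s using QuotientGroup.induction_on with
    | _ g =>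
      have h1 := (Z.opP_ar_pole ch hch hπ).1 h
      refine ⟨g • Z.w, ?_⟩
      rw [Z.Jp_mk]
      apply Set.inter_eq_self_of_subset_left
      rintro p rfl
      exact ⟨(Z.pole_mem h1).1, fun k _ => Z.ngw g k⟩
  · exfalso
    induction s using QuotientGroup.induction_on with
    | _ g =>
      induction t using QuotientGroup.induction_on with
      | _ g' => exact Z.not_ar_vv h.1

/-- the old exit of a new exit -/
def Rp (x : V) (p : S.X) : (V ⊕ (H ⧸ Z.opd.D)) ⊕ S.X → V ⊕ S.X → Prop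
  | Sum.inl (Sum.inl a), t => t = Sum.inl a
  | Sum.inl (Sum.inr c), t => ∃ g : H, c = (g : H ⧸ Z.opd.D) ∧ Z.Pg x g ∧ p = g • Z.w ∧
      t = Sum.inr (g • Z.u)
  | Sum.inr q, t => q ∈ Z.Jp (Sum.inl x) ∧ t = Sum.inr q

theorem Rp_inj {x : V} {p : S.X} {s s' : (V ⊕ (H ⧸ Z.opd.D)) ⊕ S.X} {t : V ⊕ S.X}
    (h : Z.Rp x p s t) (h' : Z.Rp x p s' t) : s = s' := by
  rcases s with (a | c) | q <;> rcases s' with (a' | c') | q'
  · have e1 : t = Sum.inl a := h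
    have e2 : t = Sum.inl a' := h'
    rw [e1] at e2
    rw [Sum.inl.inj e2]
  · have e1 : t = Sum.inl a := h
    obtain ⟨g, -, -, -, e2⟩ := h'
    rw [e1] at e2
    cases e2
  · have e1 : t = Sum.inl a := h
    obtain ⟨-, e2⟩ := h'
    rw [e1] at e2
    cases e2
  · have e1 : t = Sum.inl a' := h'
    obtain ⟨g, -, -, -, e2⟩ := h
    rw [e1] at e2
    cases e2
  · obtain ⟨g, rfl, a1, a2, a3⟩ := h
    obtain ⟨g', rfl, b1, b2, b3⟩ := h'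
    rw [a3] at b3
    rw [a1.uniq Z b1 (Sum.inr.inj b3)]
  · obtain ⟨g, rfl, a1, a2, a3⟩ := h
    obtain ⟨b1, b2⟩ := h'
    rw [a3] at b2
    exact absurd (Sum.inr.inj b2).symm (b1.2 g a1)
  · have e1 : t = Sum.inl a' := h'
    obtain ⟨-, e2⟩ := h
    rw [e1] at e2
    cases e2
  · obtain ⟨g, rfl, a1, a2, a3⟩ := h'
    obtain ⟨b1, b2⟩ := h
    rw [a3] at b2
    exact absurd (Sum.inr.inj b2).symm (b1.2 g a1)
  · obtain ⟨-, b2⟩ := h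
    obtain ⟨-, b3⟩ := h'
    rw [b2] at b3
    rw [Sum.inr.inj b3]

theorem Rp_ex {x : V} {p : S.X} {s : (V ⊕ (H ⧸ Z.opd.D)) ⊕ S.X}
    (h : s ∈ exits ((Z.opP ch hch hπ).p45 S.P).pq S.D.G Z.Jp (Sum.inl x) p) :
    ∃ t ∈ exits S.P.pq S.D.G S.J x p, Z.Rp x p s t := by
  rcases h with ⟨a, rfl, h1, h2⟩ | ⟨q, rfl, h1, h2⟩
  · rcases a with a | c
    · have h1 := ((Z.opP_ar_inl ch hch hπ).1 h1).1
      exact ⟨Sum.inl a, Or.inl ⟨_, rfl, h1, h2.1⟩, rfl⟩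
    · induction c using QuotientGroup.induction_on with
      | _ g =>
        have h1 := (Z.opP_ar_page ch hch hπ).1 h1
        rw [Z.Jp_mk] at h2
        have e : p = g • Z.w := h2
        refine ⟨Sum.inr (g • Z.u), Or.inr ⟨_, rfl, ?_, h1.nu⟩, g, rfl, h1, e, rfl⟩
        rw [e]
        exact S.D.adj_smul g _ _ Z.hw.symm
  · exact ⟨Sum.inr q, Or.inr ⟨_, rfl, h1, h2.1⟩, h2, rfl⟩

theorem Jp_two (x : V ⊕ (H ⧸ Z.opd.D)) (p : S.X) (hp : p ∈ Z.Jp x)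
    (s : (V ⊕ (H ⧸ Z.opd.D)) ⊕ S.X)
    (hs : s ∈ exits ((Z.opP ch hch hπ).p45 S.P).pq S.D.G Z.Jp x p)
    (t : (V ⊕ (H ⧸ Z.opd.D)) ⊕ S.X)
    (ht : t ∈ exits ((Z.opP ch hch hπ).p45 S.P).pq S.D.G Z.Jp x p)
    (v : (V ⊕ (H ⧸ Z.opd.D)) ⊕ S.X)
    (hv : v ∈ exits ((Z.opP ch hch hπ).p45 S.P).pq S.D.G Z.Jp x p) : s = t ∨ s = v ∨ t = v := by
  rcases x with x | c
  · obtain ⟨s', s1, s2⟩ := Z.Rp_ex ch hch hπ hs
    obtain ⟨t', t1, t2⟩ := Z.Rp_ex ch hch hπ ht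
    obtain ⟨v', v1, v2⟩ := Z.Rp_ex ch hch hπ hv
    rcases S.js.two x p hp.1 _ s1 _ t1 _ v1 with e | e | e
    · exact Or.inl (Z.Rp_inj s2 (e ▸ t2))
    · exact Or.inr (Or.inl (Z.Rp_inj s2 (e ▸ v2)))
    · exact Or.inr (Or.inr (Z.Rp_inj t2 (e ▸ v2)))
  · induction c using QuotientGroup.induction_on with
    | _ g =>
      have key : ∀ s ∈ exits ((Z.opP ch hch hπ).p45 S.P).pq S.D.G Z.Jp
          (Sum.inr (g : H ⧸ Z.opd.D)) p, ∃ a, s = Sum.inl a ∧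
            (Z.opP ch hch hπ).gx.ar (Sum.inr (g : H ⧸ Z.opd.D)) a := by
        rintro s (⟨a, rfl, h1, h2⟩ | ⟨q, rfl, h1, h2⟩)
        · exact ⟨a, rfl, h1⟩
        · exfalso
          rw [Z.Jp_mk] at hp h2
          rw [Set.mem_singleton_iff.1 hp, Set.mem_singleton_iff.1 h2] at h1
          exact h1.ne rfl
      obtain ⟨a, rfl, ha⟩ := key s hs
      obtain ⟨b, rfl, hb⟩ := key t ht
      obtain ⟨c, rfl, hc⟩ := key v hv
      rcases (Z.opP ch hch hπ).gx.two _ _ _ _ ha hb hc with e | e | e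
      · exact Or.inl (by rw [e])
      · exact Or.inr (Or.inr (by rw [e]))
      · exact Or.inr (Or.inl (by rw [e]))

theorem Jp_cross (x : V ⊕ (H ⧸ Z.opd.D)) (hx : ∃ a, ((Z.opP ch hch hπ).p45 S.P).pq.ar x a)
    (p q : S.X) (hpq : S.D.G.Adj p q) (hp : p ∈ Z.Jp x) (hq : q ∈ Z.Jp x) :
    ∃ a, ((Z.opP ch hch hπ).p45 S.P).pq.ar x a ∧ Z.Jp a ⊆ bey S.D.G p q := by
  rcases x with x | c
  · obtain ⟨a0, ha0⟩ := hx
    obtain ⟨a, a1, a2⟩ := S.js.cross x ⟨_, ha0.1⟩ p q hpq hp.1 hq.1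
    by_cases hz : ∃ g : H, a = g • Z.v
    · obtain ⟨g, rfl⟩ := hz
      obtain ⟨g', hg', e⟩ : ∃ g', Z.Pg x g' ∧ g' • Z.v = g • Z.v := by
        rcases Z.exists_Pg a1 with k | k
        · exact ⟨g, k, rfl⟩
        · exact ⟨g * Z.r, k, by rw [mul_smul, Z.rv]⟩
      refine ⟨Sum.inr (g' : H ⧸ Z.opd.D), (Z.opP_ar_page ch hch hπ).2 hg', ?_⟩
      rw [Z.Jp_mk]
      rintro t ht
      rw [Set.mem_singleton_iff.1 ht]
      refine Z.far hpq (hq.2 g' hg') (a2 ?_)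
      rw [Z.Ju, Z.fu' e]
      exact rfl
    · refine ⟨Sum.inl a, (Z.opP_ar_inl ch hch hπ).2 ⟨a1, fun g e => hz ⟨g, e⟩⟩, ?_⟩
      exact fun t ht => a2 ht.1
  · exfalso
    induction c using QuotientGroup.induction_on with
    | _ g =>
      rw [Z.Jp_mk] at hp hq
      rw [Set.mem_singleton_iff.1 hp, Set.mem_singleton_iff.1 hq] at hpq
      exact hpq.ne rfl

theorem Jp_fin : FinOrb H {p : (V ⊕ (H ⧸ Z.opd.D)) × S.X | p.2 ∈ Z.Jp p.1} := by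
  have h1 : FinOrb H {p : (V ⊕ (H ⧸ Z.opd.D)) × S.X | p.2 ∈ Z.Jp p.1 ∧ ∃ x, p.1 = Sum.inl x} := by
    refine FinOrb.of_inj (H' := H) S.js.fin (fun p => (Z.opd.πp p.1, p.2)) ?_ ?_
    · rintro ⟨_, p⟩ ⟨h, x, rfl⟩
      exact h.1
    · rintro ⟨_, p⟩ ⟨h, x, rfl⟩ ⟨_, p'⟩ ⟨h', x', rfl⟩ ⟨g, e⟩
      refine ⟨g, ?_⟩
      have e1 : g • x = x' := congrArg Prod.fst e
      have e2 : g • p = p' := congrArg Prod.snd e
      exact Prod.ext (congrArg Sum.inl e1) e2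
  have h2 : FinOrb H {p : (V ⊕ (H ⧸ Z.opd.D)) × S.X | p.2 ∈ Z.Jp p.1 ∧ ∃ s, p.1 = Sum.inr s} := by
    refine FinOrb_iff.2 ⟨{(Sum.inr ((1 : H) : H ⧸ Z.opd.D), Z.w)}, Set.finite_singleton _, ?_, ?_⟩
    · rintro _ rfl
      refine ⟨?_, _, rfl⟩
      exact ⟨1, rfl, (one_smul _ _).symm⟩
    · rintro ⟨c, p⟩ ⟨h0, s, e0⟩
      have e0 : c = Sum.inr s := e0
      subst e0
      obtain ⟨g, h, e⟩ : p ∈ Z.Jp (Sum.inr s) := h0
      refine ⟨_, rfl, g, ?_⟩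
      have e : p = g • Z.w := e
      rw [e]
      refine Prod.ext ?_ rfl
      show (Sum.inr (g • ((1 : H) : H ⧸ Z.opd.D)) : V ⊕ (H ⧸ Z.opd.D)) = Sum.inr s
      rw [← h]
      congr 1
      show ((g * 1 : H) : H ⧸ Z.opd.D) = _
      rw [mul_one]
  have un : ∀ (A B : Set ((V ⊕ (H ⧸ Z.opd.D)) × S.X)), FinOrb H A → FinOrb H B →
      FinOrb H (A ∪ B) := by
    intro A B hA hB
    have e : orbs H (A ∪ B) = orbs H A ∪ orbs H B := Set.image_union _ _ _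
    unfold FinOrb
    rw [e]
    exact Set.Finite.union hA hB
  refine (un _ _ h1 h2).mono ?_
  rintro ⟨x | s, p⟩ h
  · exact Or.inl ⟨h, x, rfl⟩
  · exact Or.inr ⟨h, s, rfl⟩

/-- THE SYSTEM OF SUBTREES ON THE OPENED COMPLEX `K⁺` -/
theorem jsP : JS ((Z.opP ch hch hπ).p45 S.P).pq S.D Z.Jp where
  conv := Z.Jp_conv
  ne := Z.Jp_ne
  smul := Z.Jp_smul
  one x y h := by
    rcases h with h | h
    · exact Z.Jp_one_ar ch hch hπ h
    · rw [Set.inter_comm]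
      exact Z.Jp_one_ar ch hch hπ h
  two x p hp s hs t ht v hv := Z.Jp_two ch hch hπ x p hp s hs t ht v hv
  cross x hx p q hpq hp hq := Z.Jp_cross ch hch hπ x hx p q hpq hp hq
  fin := Z.Jp_fin

/-- THE OPENED SYSTEM -/
noncomputable def sysP : SyQ H (V ⊕ (H ⧸ Z.opd.D)) where
  K := (Z.opP ch hch hπ).gx
  P := (Z.opP ch hch hπ).p45 S.P
  D := S.D
  J := Z.Jp
  js := Z.jsP ch hch hπ

end OpS

end SyQ

end Pool.Agent.DI
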