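import Pool.Agent.DI.PG3
import Pool.Agent.DI.Count

/-!
# DI/Opn: opening a vertex

`O : OpW K W`: an `H`-set `W` with an equivariant surjection `π : W → V`; the in-arrows `n → y` of `K` get
labels `e n y` over `y`. New complex `O.gx` on `W`: a vertex `x` over `v` has the arrows `x → e v a`
(`a` a pole of `v`); every cell is lifted; for the different vertices over the same vertex there are
squares `a, x, b, x'`. No arrow of the new complex depends on more than the images, the area is the same.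
-/

namespace Pool.Agent.DI

open MulAction
open Pool.Agent.SAF (InC orbs FinOrb oc)

/-! ### walks given by functions -/

section Fl

variable {V V' : Type}

/-- the walk `f 1, ..., f n` -/
def fl (f : ℕ → V) (n : ℕ) : List V := (List.range n).map (fun j => f (j + 1))

@[simp] theorem fl_zero (f : ℕ → V) : fl f 0 = [] := rfl

theorem fl_succ (f : ℕ → V) (n : ℕ) : fl f (n + 1) = f 1 :: fl (fun j => f (j + 1)) n := by
  unfold fl
  rw [List.range_succ_eq_map, List.map_cons, List.map_map]
  rfl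

@[simp] theorem fl_length (f : ℕ → V) (n : ℕ) : (fl f n).length = n := by
  unfold fl
  rw [List.length_map, List.length_range]

theorem map_fl (g : V → V') (f : ℕ → V) (n : ℕ) : (fl f n).map g = fl (fun j => g (f j)) n := by
  unfold fl
  rw [List.map_map]
  rfl

theorem Wk_fl {E : V → V → Prop} (f : ℕ → V) (n : ℕ) (h : ∀ j, j < n → E (f j) (f (j + 1))) :
    Wk E (f 0) (fl f n) := by
  induction n generalizing f with
  | zero => trivial
  | succ n ih =>
    rw [fl_succ]
    exact ⟨h 0 (Nat.succ_pos n), ih (fun j => f (j + 1)) fun j hj => h (j + 1) (Nat.succ_lt_succ hj)⟩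

theorem tg_fl (f : ℕ → V) (n : ℕ) : tg (f 0) (fl f n) = f n := by
  induction n generalizing f with
  | zero => rfl
  | succ n ih =>
    rw [fl_succ]
    exact ih fun j => f (j + 1)

theorem ps_fl (φ : V → V → ZMod 2) (f : ℕ → V) (n : ℕ) :
    ps φ (f 0) (fl f n) = ∑ j ∈ Finset.range n, φ (f j) (f (j + 1)) := by
  induction n generalizing f with
  | zero => rfl
  | succ n ih =>
    rw [fl_succ, ps_cons, Finset.sum_range_succ', add_comm]
    congr 1
    exact ih fun j => f (j + 1)

theorem fl_congr {f g : ℕ → V} (n : ℕ) (h : ∀ j, j < n → f (j + 1) = g (j + 1)) :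
    fl f n = fl g n := by
  unfold fl
  refine List.map_congr_left fun j hj => h j (List.mem_range.1 hj)

theorem fl_get (f : ℕ → V) (n k : ℕ) (h : k ≤ n) (d : V) : (f 0 :: fl f n).getD k d = f k := by
  cases k with
  | zero => rfl
  | succ k =>
    have hk : k < (fl f n).length := by
      rw [fl_length]
      omega
    rw [List.getD_cons_succ, List.getD_eq_getElem _ _ hk]
    unfold fl
    rw [List.getElem_map, List.getElem_range]

/-- a closed sum of `a j + a (j + 1)` -/
theorem sum_closed (c : ℕ → ZMod 2) (n : ℕ) (h : c n = c 0) :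
    ∑ j ∈ Finset.range n, (c j + c (j + 1)) = 0 := by
  have key : ∀ n, ∑ j ∈ Finset.range n, (c j + c (j + 1)) = c 0 + c n := by
    intro n
    induction n with
    | zero =>
      rw [Finset.sum_range_zero]
      exact (CharTwo.add_self_eq_zero _).symm
    | succ n ih =>
      rw [Finset.sum_range_succ, ih]
      have := CharTwo.add_self_eq_zero (c n)
      linear_combination this
  rw [key, h]
  exact CharTwo.add_self_eq_zero _

end Fl

theorem GX.cw_fl {H V : Type} [Group H] [MulAction H V] (K : GX H V) (i : K.I) :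
    K.cw i = fl (K.vx i) (K.len i) := by
  refine List.ext_getElem (by rw [fl_length]; rfl) fun j h1 h2 => ?_
  unfold fl
  rw [List.getElem_map, List.getElem_range, K.vx_of_le (Nat.succ_le_of_lt h1),
    List.getD_cons_succ, List.getD_eq_getElem _ _ h1]

/-- opening data: `W` is the new set of vertices -/
structure OpW {H V : Type} [Group H] [MulAction H V] (K : GX H V) (W : Type) [MulAction H W] where
  π : W → V
  e : V → V → W
  π_smul : ∀ (h : H) (x : W), π (h • x) = h • π x
  e_smul : ∀ (h : H) (n y : V), K.ar n y → e (h • n) (h • y) = h • e n y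
  π_e : ∀ n y : V, K.ar n y → π (e n y) = y
  sur : ∀ v : V, ∃ x, π x = v
  pole : ∀ x y : W, π x = π y → x ≠ y → ∃ a, K.ar (π x) a
  J : Type
  finJ : Finite J
  js : J → W
  jt : J → W
  ja : J → V
  jb : J → V
  j_eq : ∀ j, π (jt j) = π (js j)
  j_a : ∀ j, K.ar (π (js j)) (ja j)
  j_b : ∀ j, K.ar (π (js j)) (jb j)
  j_ab : ∀ j, ja j ≠ jb j
  cov : ∀ x y : W, π x = π y → ∀ a b, K.ar (π x) a → K.ar (π x) b → a ≠ b →
    Relation.EqvGen (fun x y => ∃ (j : J) (h : H), h • js j = x ∧ h • jt j = y) x y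
  lp : K.I → ℕ → W
  lp_len : ∀ i j, lp i (j + K.len i) = lp i j
  π_lp : ∀ i j, π (lp i j) = K.vx i j
  lp_E : ∀ i j, j < K.len i →
    (K.ar (K.vx i j) (K.vx i (j + 1)) ∧ e (K.vx i j) (K.vx i (j + 1)) = lp i (j + 1)) ∨
    (K.ar (K.vx i (j + 1)) (K.vx i j) ∧ e (K.vx i (j + 1)) (K.vx i j) = lp i j)
  fin : FinOrb H (Set.univ : Set W)
  stab : ∀ x : W, InC ↥(stabilizer H x)

namespace OpW

variable {H V W : Type} [Group H] [MulAction H V] [MulAction H W] {K : GX H V} (O : OpW K W)

/-- the arrows of the new complex -/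
def ar (x y : W) : Prop := K.ar (O.π x) (O.π y) ∧ O.e (O.π x) (O.π y) = y

/-- the edges of the new complex -/
def E' (x y : W) : Prop := O.ar x y ∨ O.ar y x

theorem E'_symm {x y : W} (h : O.E' x y) : O.E' y x := Or.symm h

/-- the arrow over an arrow -/
theorem ar_e (x : W) {a : V} (h : K.ar (O.π x) a) : O.ar x (O.e (O.π x) a) := by
  have e := O.π_e _ _ h
  refine ⟨?_, ?_⟩
  · rw [e]
    exact h
  · rw [e]

/-- base vertices of the cells -/
def cb : K.I ⊕ O.J → W
  | Sum.inl i => O.lp i 0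
  | Sum.inr j => O.e (O.π (O.js j)) (O.ja j)

/-- further vertices of the cells -/
def cw : K.I ⊕ O.J → List W
  | Sum.inl i => fl (O.lp i) (K.len i)
  | Sum.inr j => [O.js j, O.e (O.π (O.js j)) (O.jb j), O.jt j, O.e (O.π (O.js j)) (O.ja j)]

theorem lE (i : K.I) : Wk O.E' (O.lp i 0) (fl (O.lp i) (K.len i)) := by
  refine Wk_fl _ _ fun j hj => ?_
  rcases O.lp_E i j hj with ⟨h1, h2⟩ | ⟨h1, h2⟩
  · left
    refine ⟨?_, ?_⟩
    · rw [O.π_lp, O.π_lp]
      exact h1
    · rw [O.π_lp, O.π_lp]
      exact h2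
  · right
    refine ⟨?_, ?_⟩
    · rw [O.π_lp, O.π_lp]
      exact h1
    · rw [O.π_lp, O.π_lp]
      exact h2

theorem ltg (i : K.I) : tg (O.lp i 0) (fl (O.lp i) (K.len i)) = O.lp i 0 := by
  rw [tg_fl]
  have := O.lp_len i 0
  rwa [zero_add] at this

/-- the chosen vertex over a vertex -/
noncomputable def σ (v : V) : W := Classical.choose (O.sur v)

theorem π_σ (v : V) : O.π (O.σ v) = v := Classical.choose_spec (O.sur v)

section Coc

variable {φ : W → W → ZMod 2} (c : Coc H O.cb O.cw φ)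

include c

/-- one square -/
theorem square0 (j : O.J) (k : H) {a b : V} (ha : K.ar (O.π (k • O.js j)) a)
    (hb : K.ar (O.π (k • O.js j)) b) :
    φ (k • O.js j) (O.e (O.π (k • O.js j)) a) + φ (k • O.jt j) (O.e (O.π (k • O.js j)) a) =
    φ (k • O.js j) (O.e (O.π (k • O.js j)) b) + φ (k • O.jt j) (O.e (O.π (k • O.js j)) b) := by
  by_cases hab : a = b
  · rw [hab]
  have s := c.2 (Sum.inr j) k
  have s' : φ (k • O.e (O.π (O.js j)) (O.ja j)) (k • O.js j) +
      (φ (k • O.js j) (k • O.e (O.π (O.js j)) (O.jb j)) +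
      (φ (k • O.e (O.π (O.js j)) (O.jb j)) (k • O.jt j) +
      (φ (k • O.jt j) (k • O.e (O.π (O.js j)) (O.ja j)) + 0))) = 0 := s
  rw [← O.e_smul k _ _ (O.j_a j), ← O.e_smul k _ _ (O.j_b j), ← O.π_smul] at s'
  have ka := K.ar_smul k _ _ (O.j_a j)
  have kb := K.ar_smul k _ _ (O.j_b j)
  rw [← O.π_smul] at ka kb
  have kab : k • O.ja j ≠ k • O.jb j := fun e => O.j_ab j (smul_left_cancel k e)
  generalize k • O.js j = x at s' ha hb ka kb ⊢
  generalize k • O.jt j = y at s' ⊢
  have z1 := CharTwo.add_self_eq_zero (φ x (O.e (O.π x) b))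
  have z2 := CharTwo.add_self_eq_zero (φ y (O.e (O.π x) b))
  have s1 := c.1 (O.e (O.π x) a) x
  have s2 := c.1 (O.e (O.π x) a) y
  have s3 := c.1 (O.e (O.π x) b) x
  have s4 := c.1 (O.e (O.π x) b) y
  have q : (k • O.ja j = a ∧ k • O.jb j = b) ∨ (k • O.ja j = b ∧ k • O.jb j = a) := by
    rcases K.two _ _ _ _ ka ha kb with e1 | e1 | e1
    · rcases K.two _ _ _ _ kb hb ka with e2 | e2 | e2
      · exact Or.inl ⟨e1, e2⟩
      · exact absurd (e1.symm.trans e2.symm) hab
      · exact absurd e2.symm kab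
    · rcases K.two _ _ _ _ ka hb kb with e2 | e2 | e2
      · exact Or.inr ⟨e2, e1.symm⟩
      · exact absurd (e1.trans e2.symm) hab
      · exact absurd e2 kab
    · exact absurd e1 kab
  rcases q with ⟨q1, q2⟩ | ⟨q1, q2⟩
  all_goals
    rw [q1, q2] at s'
    simp only [s1, s2, s3, s4, add_zero] at s'
    linear_combination s' - z1 - z2

/-- the squares -/
theorem square {x y : W} (h : O.π x = O.π y) {a b : V} (ha : K.ar (O.π x) a) (hb : K.ar (O.π x) b) :
    φ x (O.e (O.π x) a) + φ y (O.e (O.π x) a) = φ x (O.e (O.π x) b) + φ y (O.e (O.π x) b) := by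
  by_cases hab : a = b
  · rw [hab]
  have key : ∀ x y : W, Relation.EqvGen (fun x y => ∃ (j : O.J) (h : H), h • O.js j = x ∧
      h • O.jt j = y) x y → O.π x = O.π y ∧ (K.ar (O.π x) a → K.ar (O.π x) b →
      φ x (O.e (O.π x) a) + φ y (O.e (O.π x) a) =
        φ x (O.e (O.π x) b) + φ y (O.e (O.π x) b)) := by
    intro x y h
    induction h with
    | rel x y h =>
      obtain ⟨j, k, rfl, rfl⟩ := h
      refine ⟨?_, O.square0 c j k⟩
      rw [O.π_smul, O.π_smul, O.j_eq]
    | refl x =>
      refine ⟨rfl, fun _ _ => ?_⟩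
      rw [CharTwo.add_self_eq_zero, CharTwo.add_self_eq_zero]
    | symm x y _ ih =>
      refine ⟨ih.1.symm, fun ha hb => ?_⟩
      rw [← ih.1] at ha hb ⊢
      have := ih.2 ha hb
      linear_combination this
    | trans x y z _ _ h1 h2 =>
      refine ⟨h1.1.trans h2.1, fun ha hb => ?_⟩
      have k1 := h1.2 ha hb
      rw [h1.1] at ha hb
      have k2 := h2.2 ha hb
      rw [← h1.1] at k2
      have z1 := CharTwo.add_self_eq_zero (φ y (O.e (O.π x) a))
      have z2 := CharTwo.add_self_eq_zero (φ y (O.e (O.π x) b))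
      linear_combination k1 + k2 - z1 + z2
  exact (key x y (O.cov x y h a b ha hb hab)).2 ha hb

open Classical in
/-- the correction -/
noncomputable def cr (O : OpW K W) (φ : W → W → ZMod 2) (x : W) : ZMod 2 :=
  if h : ∃ a, K.ar (O.π x) a then
    φ x (O.e (O.π x) (Classical.choose h)) + φ (O.σ (O.π x)) (O.e (O.π x) (Classical.choose h))
  else 0

theorem cr_eq {x : W} {a : V} (ha : K.ar (O.π x) a) :
    φ x (O.e (O.π x) a) = φ (O.σ (O.π x)) (O.e (O.π x) a) + O.cr φ x := by
  have h : ∃ a, K.ar (O.π x) a := ⟨a, ha⟩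
  unfold cr
  rw [dif_pos h]
  have k := O.square c (x := x) (y := O.σ (O.π x)) (O.π_σ _).symm ha (Classical.choose_spec h)
  have z := CharTwo.add_self_eq_zero (φ (O.σ (O.π x)) (O.e (O.π x) a))
  linear_combination k - z

/-- the cochain on the old complex -/
noncomputable def ψ (_c : Coc H O.cb O.cw φ) : V → V → ZMod 2 := fun x y =>
  by
    classical
    exact if K.ar x y then φ (O.σ x) (O.e x y) + O.cr φ (O.e x y)
      else if K.ar y x then φ (O.σ y) (O.e y x) + O.cr φ (O.e y x) else 0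

omit c in
theorem ψ_ar (c : Coc H O.cb O.cw φ) {x y : V} (h : K.ar x y) :
    O.ψ c x y = φ (O.σ x) (O.e x y) + O.cr φ (O.e x y) := by
  unfold ψ
  exact if_pos h

omit c in
theorem not_rev (K : GX H V) {x y : V} (h : K.ar x y) : ¬ K.ar y x := fun k =>
  absurd (K.ar_rk _ _ h) (not_lt.2 (K.ar_rk _ _ k).le)

omit c in
theorem ψ_symm (c : Coc H O.cb O.cw φ) (x y : V) : O.ψ c x y = O.ψ c y x := by
  unfold ψ
  by_cases h1 : K.ar x y
  · have h2 := not_rev K h1
    simp only [if_pos h1, if_neg h2]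
  · by_cases h2 : K.ar y x
    · simp only [if_neg h1, if_pos h2]
    · simp only [if_neg h1, if_neg h2]

/-- an edge of the new complex -/
theorem ψ_E {x y : W} (h : O.E' x y) :
    O.ψ c (O.π x) (O.π y) = φ x y + (O.cr φ x + O.cr φ y) := by
  have key : ∀ x y : W, O.ar x y → O.ψ c (O.π x) (O.π y) = φ x y + (O.cr φ x + O.cr φ y) := by
    intro x y ⟨h1, h2⟩
    rw [O.ψ_ar c h1]
    have k := O.cr_eq c h1
    rw [h2] at k ⊢
    have z := CharTwo.add_self_eq_zero (O.cr φ x)
    linear_combination -k - z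
  rcases h with h | h
  · exact key _ _ h
  · rw [O.ψ_symm, key _ _ h, c.1 y x, add_comm (O.cr φ y)]

end Coc

theorem E'_smul (h : H) {x y : W} (e : O.E' x y) : O.E' (h • x) (h • y) := by
  have key : ∀ x y : W, O.ar x y → O.ar (h • x) (h • y) := by
    intro x y ⟨h1, h2⟩
    refine ⟨?_, ?_⟩
    · rw [O.π_smul, O.π_smul]
      exact K.ar_smul h _ _ h1
    · rw [O.π_smul, O.π_smul, O.e_smul h _ _ h1, h2]
  exact e.imp (key _ _) (key _ _)

theorem H1' (φ : W → W → ZMod 2) (hs : ∀ x y, φ x y = φ y x)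
    (hc : ∀ (i : K.I ⊕ O.J) (h : H), ps φ (h • O.cb i) ((O.cw i).map (fun z => h • z)) = 0) :
    ∃ g : W → ZMod 2, ∀ x y, (O.ar x y ∨ O.ar y x) → φ x y = g x + g y := by
  have c : Coc H O.cb O.cw φ := ⟨hs, hc⟩
  obtain ⟨g, hg⟩ := K.H1 (O.ψ c) (O.ψ_symm c) (by
    intro i h
    have e1 : (K.cw i).map (fun z => h • z) = fl (fun j => O.π (h • O.lp i j)) (K.len i) := by
      rw [K.cw_fl, map_fl]
      congr 1
      funext j
      rw [O.π_smul, O.π_lp]
    have e2 : h • K.cb i = O.π (h • O.lp i 0) := by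
      rw [O.π_smul, O.π_lp, K.vx_zero]
    rw [e1, e2, ps_fl (O.ψ c) (fun j => O.π (h • O.lp i j))]
    have k := c.2 (Sum.inl i) h
    have k' : ps φ (h • O.lp i 0) ((fl (O.lp i) (K.len i)).map (fun z => h • z)) = 0 := k
    rw [map_fl, ps_fl φ (fun j => h • O.lp i j)] at k'
    have e3 : ∀ j ∈ Finset.range (K.len i),
        O.ψ c (O.π (h • O.lp i j)) (O.π (h • O.lp i (j + 1))) =
          φ (h • O.lp i j) (h • O.lp i (j + 1)) +
            (O.cr φ (h • O.lp i j) + O.cr φ (h • O.lp i (j + 1))) := by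
      intro j hj
      refine O.ψ_E c (O.E'_smul h ?_)
      have := O.lE i
      rcases O.lp_E i j (Finset.mem_range.1 hj) with ⟨h1, h2⟩ | ⟨h1, h2⟩
      · left
        refine ⟨?_, ?_⟩
        · rw [O.π_lp, O.π_lp]
          exact h1
        · rw [O.π_lp, O.π_lp]
          exact h2
      · right
        refine ⟨?_, ?_⟩
        · rw [O.π_lp, O.π_lp]
          exact h1
        · rw [O.π_lp, O.π_lp]
          exact h2
    rw [Finset.sum_congr rfl e3, Finset.sum_add_distrib, k', zero_add]
    refine sum_closed (fun j => O.cr φ (h • O.lp i j)) _ ?_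
    have := O.lp_len i 0
    rw [zero_add] at this
    show O.cr φ (h • O.lp i (K.len i)) = _
    rw [this])
  refine ⟨fun x => g (O.π x) + O.cr φ x, fun x y e => ?_⟩
  have h1 := O.ψ_E c e
  have h2 : K.ar (O.π x) (O.π y) ∨ K.ar (O.π y) (O.π x) := e.imp (fun k => k.1) (fun k => k.1)
  rw [hg _ _ h2] at h1
  have z1 := CharTwo.add_self_eq_zero (O.cr φ x)
  have z2 := CharTwo.add_self_eq_zero (O.cr φ y)
  show φ x y = g (O.π x) + O.cr φ x + (g (O.π y) + O.cr φ y)
  linear_combination -h1 - z1 - z2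

theorem conn' (x y : W) : Relation.ReflTransGen O.E' x y := by
  have sy : ∀ {x y : W}, Relation.ReflTransGen O.E' x y → Relation.ReflTransGen O.E' y x := by
    intro x y h
    induction h with
    | refl => exact Relation.ReflTransGen.refl
    | @tail b c _ e ih => exact (Relation.ReflTransGen.single (O.E'_symm e)).trans ih
  -- vertices over the same vertex
  have h0 : ∀ x y : W, O.π x = O.π y → Relation.ReflTransGen O.E' x y := by
    intro x y h
    by_cases hxy : x = y
    · rw [hxy]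
    obtain ⟨a, ha⟩ := O.pole x y h hxy
    have e1 : O.E' x (O.e (O.π x) a) := Or.inl (O.ar_e x ha)
    have e2 : O.E' y (O.e (O.π x) a) := by
      rw [h]
      exact Or.inl (O.ar_e y (h ▸ ha))
    exact (Relation.ReflTransGen.single e1).tail (Or.symm e2)
  have h1 : ∀ v w : V, K.ar v w → ∀ x y : W, O.π x = v → O.π y = w →
      Relation.ReflTransGen O.E' x y := by
    rintro v w e x y rfl hy
    have e1 : O.E' x (O.e (O.π x) w) := Or.inl (O.ar_e x e)
    exact (Relation.ReflTransGen.single e1).trans (h0 _ _ (by rw [O.π_e _ _ e, hy]))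
  have h2 : ∀ v w : V, Relation.ReflTransGen (fun a b => K.ar a b ∨ K.ar b a) v w →
      ∀ x y : W, O.π x = v → O.π y = w → Relation.ReflTransGen O.E' x y := by
    intro v w h
    induction h with
    | refl => exact fun x y hx hy => h0 x y (hx.trans hy.symm)
    | @tail b c _ e ih =>
      intro x y hx hy
      obtain ⟨z, hz⟩ := O.sur b
      refine (ih x z hx hz).trans ?_
      rcases e with e | e
      · exact h1 _ _ e z y hz hy
      · exact sy (h1 _ _ e y z hy hz)
  exact h2 _ _ (K.conn (O.π x) (O.π y)) x y rfl rfl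

/-- the opened complex -/
def gx : GX H W where
  ar := O.ar
  rk x := K.rk (O.π x)
  I := K.I ⊕ O.J
  finI := by
    have := K.finI
    have := O.finJ
    infer_instance
  cb := O.cb
  cw := O.cw
  ar_rk x y e := K.ar_rk _ _ e.1
  ar_smul h x y e := by
    refine ⟨?_, ?_⟩
    · rw [O.π_smul, O.π_smul]
      exact K.ar_smul h _ _ e.1
    · rw [O.π_smul, O.π_smul, O.e_smul h _ _ e.1, e.2]
  rk_smul h x := by
    rw [O.π_smul, K.rk_smul]
  two x a b c ha hb hc := by
    rcases K.two _ _ _ _ ha.1 hb.1 hc.1 with h | h | h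
    · exact Or.inl (by rw [← ha.2, ← hb.2, h])
    · exact Or.inr (Or.inl (by rw [← hb.2, ← hc.2, h]))
    · exact Or.inr (Or.inr (by rw [← ha.2, ← hc.2, h]))
  c_E := by
    rintro (i | j)
    · exact O.lE i
    · have h1 := O.ar_e (O.js j) (O.j_a j)
      have h2 := O.ar_e (O.js j) (O.j_b j)
      have h3 := O.ar_e (O.jt j) (a := O.ja j) (by rw [O.j_eq]; exact O.j_a j)
      have h4 := O.ar_e (O.jt j) (a := O.jb j) (by rw [O.j_eq]; exact O.j_b j)
      rw [O.j_eq] at h3 h4
      exact ⟨Or.inr h1, Or.inl h2, Or.inr h4, Or.inl h3, trivial⟩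
  c_tg := by
    rintro (i | j)
    · exact O.ltg i
    · rfl
  ne := by
    obtain ⟨v⟩ := K.ne
    exact ⟨O.σ v⟩
  conn := O.conn'
  H1 := O.H1'
  fin := O.fin
  stab := O.stab

theorem gx_len_inl (i : K.I) : O.gx.len (Sum.inl i) = K.len i := fl_length _ _

theorem gx_len_inr (j : O.J) : O.gx.len (Sum.inr j) = 4 := rfl

/-- the vertices of the lifted cells -/
theorem gx_vx_inl (i : K.I) (h : 0 < K.len i) (j : ℕ) : O.gx.vx (Sum.inl i) j = O.lp i j := by
  have per : ∀ (n j : ℕ), O.lp i (j + n * K.len i) = O.lp i j := by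
    intro n
    induction n with
    | zero =>
      intro j
      rw [zero_mul, add_zero]
    | succ n ih =>
      intro j
      rw [Nat.succ_mul, ← add_assoc, O.lp_len, ih]
  have e : O.lp i j = O.lp i (j % K.len i) := by
    conv_lhs => rw [← Nat.mod_add_div j (K.len i), mul_comm]
    exact per _ _
  rw [e, ← O.gx.vx_mod, gx_len_inl]
  have hl : j % K.len i ≤ O.gx.len (Sum.inl i) := by
    rw [gx_len_inl]
    exact (Nat.mod_lt _ h).le
  rw [O.gx.vx_of_le hl]
  rw [gx_len_inl] at hl
  exact fl_get _ _ _ hl _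

/-- the area does not change -/
theorem gx_area : O.gx.area = K.area := by
  have := K.finI
  have := O.finJ
  let _ : Fintype K.I := Fintype.ofFinite K.I
  let _ : Fintype O.J := Fintype.ofFinite O.J
  let _ : Fintype O.gx.I := (inferInstance : Fintype (K.I ⊕ O.J))
  rw [O.gx.area_eq, K.area_eq]
  have h1 : ∑ i : K.I ⊕ O.J, ((O.cw i).length - 4)
      = (∑ i : K.I, ((O.cw (Sum.inl i)).length - 4))
        + ∑ j : O.J, ((O.cw (Sum.inr j)).length - 4) := Fintype.sum_sum_type _
  refine h1.trans ?_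
  have h2 : ∑ j : O.J, ((O.cw (Sum.inr j)).length - 4) = 0 := Finset.sum_eq_zero fun j _ => rfl
  rw [h2, add_zero]
  refine Finset.sum_congr rfl fun i _ => ?_
  show (fl (O.lp i) (K.len i)).length - 4 = _
  rw [fl_length]
  rfl

theorem gx_min (hm : K.Min) : O.gx.Min := by
  intro V' _ K'
  rw [O.gx_area]
  exact hm V' K'

end OpW

end Pool.Agent.DI
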