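import Pool.Agent.DI.OpnN
import Pool.Agent.DI.OneEdgeQ

/-!
# DI/OpnC: the class of an opened complex (links, finite tops, heavy arrows, fold)

For `O : OpW K W` (with `Tw`, `js ≠ jt`): `O.gx_lc`: the links of `O.gx` are connected if those of `K`
are. `op_tf`, `op_fs`, `op_hv`: tops are finite, finite sinks are in no square, no heavy arrow in a
square. `foldC`: the opened complex over the same candidate.
-/

namespace Pool.Agent.DI

open MulAction
open Pool.Agent.SAF (InC orbs FinOrb oc)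

namespace OpW

variable {H V W : Type} [Group H] [MulAction H V] [MulAction H W] {K : GX H V} (O : OpW K W)

/-! ### links -/

/-- the corner of a new square at an opened vertex -/
theorem new_cor (j : O.J) (g : H) :
    O.gx.Cor (g • O.e (O.π (O.js j)) (O.ja j)) (g • O.js j) (g • O.e (O.π (O.js j)) (O.jb j)) ∧
    O.gx.Cor (g • O.e (O.π (O.js j)) (O.ja j)) (g • O.jt j) (g • O.e (O.π (O.js j)) (O.jb j)) := by
  obtain ⟨v0, v1, v2, v3⟩ := O.vx_inr j
  have hl := O.gx_len_inr j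
  constructor
  · refine O.gx.cor_LE.2 ⟨(⟨Sum.inr j, ⟨0, by omega⟩⟩, g), Or.inl ⟨?_, ?_, ?_⟩⟩
    · show g • O.gx.vx (Sum.inr j) 0 = _
      rw [v0]
    · show g • O.gx.vx (Sum.inr j) 1 = _
      rw [v1]
    · show g • O.gx.vx (Sum.inr j) 2 = _
      rw [v2]
  · refine O.gx.cor_LE.2 ⟨(⟨Sum.inr j, ⟨2, by omega⟩⟩, g), Or.inr ⟨?_, ?_, ?_⟩⟩
    · show g • O.gx.vx (Sum.inr j) 2 = _
      rw [v2]
    · show g • O.gx.vx (Sum.inr j) 3 = _
      rw [v3]
    · show g • O.gx.vx (Sum.inr j) 4 = _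
      rw [← O.gx.vx_mod (Sum.inr j) 4, hl]
      show g • O.gx.vx (Sum.inr j) 0 = _
      rw [v0]

/-- a nontrivial chain has a first step -/
theorem eqv_step {α : Type} {r : α → α → Prop} {x y : α} (h : Relation.EqvGen r x y) :
    x = y ∨ ((∃ z, r x z ∨ r z x) ∧ ∃ z, r y z ∨ r z y) := by
  induction h with
  | rel x y h => exact Or.inr ⟨⟨y, Or.inl h⟩, ⟨x, Or.inr h⟩⟩
  | refl x => exact Or.inl rfl
  | symm x y _ ih =>
    rcases ih with rfl | ⟨h1, h2⟩
    · exact Or.inl rfl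
    · exact Or.inr ⟨h2, h1⟩
  | trans x y z _ _ i1 i2 =>
    rcases i1 with rfl | ⟨h1, h2⟩
    · exact i2
    · rcases i2 with rfl | ⟨h3, h4⟩
      · exact Or.inr ⟨h1, h2⟩
      · exact Or.inr ⟨h1, h4⟩

/-- an opened vertex lies in a new square -/
theorem dbl_sq (ht : O.Tw) {x : W} (h : O.Dbl x) : ∃ (j : O.J) (g : H),
    g • O.js j = x ∨ g • O.jt j = x := by
  obtain ⟨y, h1, h2⟩ := h
  obtain ⟨a, b, hab, ha, hb⟩ := ht x y h1 h2
  rcases eqv_step (O.cov x y h1 a b ha hb hab) with e | ⟨⟨z, k | k⟩, -⟩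
  · exact absurd e h2
  · obtain ⟨j, g, e1, -⟩ := k
    exact ⟨j, g, Or.inl e1⟩
  · obtain ⟨j, g, -, e1⟩ := k
    exact ⟨j, g, Or.inr e1⟩

/-- the two poles of an opened vertex are joined in its link -/
theorem poles_lj (ht : O.Tw) {x : W} (h : O.Dbl x) {p q : W} (hp : O.gx.ar x p)
    (hq : O.gx.ar x q) : O.gx.LJ x p q := by
  by_cases hne : p = q
  · rw [hne]
    exact Relation.EqvGen.refl _
  obtain ⟨j, g, hx⟩ := O.dbl_sq ht h
  obtain ⟨a1, a2, a3, a4⟩ := O.sq_ar j g
  have hcor : O.gx.Cor (g • O.e (O.π (O.js j)) (O.ja j)) x (g • O.e (O.π (O.js j)) (O.jb j)) ∧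
      O.gx.ar x (g • O.e (O.π (O.js j)) (O.ja j)) ∧ O.gx.ar x (g • O.e (O.π (O.js j)) (O.jb j)) := by
    rcases hx with rfl | rfl
    · exact ⟨(O.new_cor j g).1, a1, a2⟩
    · exact ⟨(O.new_cor j g).2, a3, a4⟩
  obtain ⟨hc, b1, b2⟩ := hcor
  rcases O.gx.two _ _ _ _ hp hq b1 with e | e | e
  · exact absurd e hne
  · -- q = first
    rcases O.gx.two _ _ _ _ hp hq b2 with e' | e' | e'
    · exact absurd e' hne
    · exfalso
      rw [← e, ← e'] at hc
      have hcc := congrArg O.π (e.symm.trans e')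
      have h3 : g • O.e (O.π (O.js j)) (O.ja j) = g • O.e (O.π (O.js j)) (O.jb j) :=
        e.symm.trans e'
      have q2 := congrArg O.π (smul_left_cancel g h3)
      rw [O.π_e _ _ (O.j_a j), O.π_e _ _ (O.j_b j)] at q2
      exact O.j_ab j q2
    · rw [← e, ← e'] at hc
      exact Relation.EqvGen.rel _ _ hc.symm
  · rcases O.gx.two _ _ _ _ hp hq b2 with e' | e' | e'
    · exact absurd e' hne
    · rw [← e, ← e'] at hc
      exact Relation.EqvGen.rel _ _ hc
    · exfalso
      have h3 : g • O.e (O.π (O.js j)) (O.ja j) = g • O.e (O.π (O.js j)) (O.jb j) :=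
        e.symm.trans e'
      have q2 := congrArg O.π (smul_left_cancel g h3)
      rw [O.π_e _ _ (O.j_a j), O.π_e _ _ (O.j_b j)] at q2
      exact O.j_ab j q2

/-- two neighbours over the same vertex are joined in the link -/
theorem fib_lj (ht : O.Tw) {x p q : W} (hp : O.gx.E x p) (hq : O.gx.E x q) (e : O.π p = O.π q) :
    O.gx.LJ x p q := by
  rcases hp with hp | hp
  · have hq' : O.gx.ar x q := O.ar_of_E hq (by rw [← e]; exact O.ar_π hp)
    have h1 := O.ar_e' hp
    have h2 := O.ar_e' hq'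
    rw [← e, h1] at h2
    rw [h2]
    exact Relation.EqvGen.refl _
  · have hq' : O.gx.ar q x := O.ar_of_E (Or.symm hq) (by rw [← e]; exact O.ar_π hp)
    exact GX.IJ.lj (O.fib ht hp hq' e)

/-- THE LINKS OF THE OPENED COMPLEX ARE CONNECTED -/
theorem gx_lc (ht : O.Tw) (hl : ∀ v, K.LC v) (x : W) : O.gx.LC x := by
  have hE : ∀ {p q : W}, O.gx.E p q → K.E (O.π p) (O.π q) := fun h =>
    h.imp O.ar_π O.ar_π
  by_cases hd : O.Dbl x
  · -- opened
    obtain ⟨y, h1, h2⟩ := id hd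
    obtain ⟨a, b, hab, ha, hb⟩ := ht x y h1 h2
    have hpa := O.ar_e x ha
    have key : ∀ c d : V, K.LJ (O.π x) c d →
        ((∀ c', O.gx.E x c' → O.π c' = c → O.gx.LJ x c' (O.e (O.π x) a)) ↔
        (∀ d', O.gx.E x d' → O.π d' = d → O.gx.LJ x d' (O.e (O.π x) a))) := by
      have step : ∀ c d : V, K.Cor c (O.π x) d →
          (∀ c', O.gx.E x c' → O.π c' = c → O.gx.LJ x c' (O.e (O.π x) a)) →
          ∀ d', O.gx.E x d' → O.π d' = d → O.gx.LJ x d' (O.e (O.π x) a) := by
        intro c d hc hgood d' hd' hdd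
        rcases hd' with hd' | hd'
        · exact O.poles_lj ht hd hd' hpa
        · obtain ⟨c1, y1, d1, e1, e2, e3, hc1⟩ := O.Cor_lift hc
          have k1 : K.ar d (O.π x) := by
            rw [← hdd]
            exact O.ar_π hd'
          have k2 : O.gx.ar d1 y1 := O.ar_of_E hc1.E2.symm (by rw [e3, e2]; exact k1)
          have l1 := O.ar_e' k2
          have l2 := O.ar_e' hd'
          rw [e3, e2] at l1
          rw [hdd] at l2
          have hy : y1 = x := l1.symm.trans l2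
          rw [hy] at hc1 k2
          have j1 : O.gx.LJ x c1 (O.e (O.π x) a) := hgood c1 hc1.E1 e1
          have j2 : O.gx.LJ x d1 d' := O.fib_lj ht (Or.inr k2) (Or.inr hd') (e3.trans hdd.symm)
          exact (j2.symm.trans _ _ _ (Relation.EqvGen.rel _ _ hc1.symm)).trans _ _ _ j1
      intro c d h
      induction h with
      | rel c d h => exact ⟨step c d h, step d c h.symm⟩
      | refl c => exact Iff.rfl
      | symm c d _ ih => exact ih.symm
      | trans c d e _ _ i1 i2 => exact i1.trans i2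
    have base : ∀ c', O.gx.E x c' → O.π c' = a → O.gx.LJ x c' (O.e (O.π x) a) := by
      intro c' hc' e
      exact O.fib_lj ht hc' (Or.inl hpa) (e.trans (O.π_e _ _ ha).symm)
    have all : ∀ c', O.gx.E x c' → O.gx.LJ x c' (O.e (O.π x) a) := by
      intro c' hc'
      exact (key _ _ (hl (O.π x) a (O.π c') (Or.inl ha) (hE hc'))).1 base c' hc' rfl
    intro p q hp hq
    exact (all p hp).trans _ _ _ (all q hq).symm
  · have step : ∀ (p : W), O.gx.E x p → ∀ c d : V, K.Cor c (O.π x) d →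
        (∀ c', O.gx.E x c' → O.π c' = c → O.gx.LJ x c' p) →
        ∀ d', O.gx.E x d' → O.π d' = d → O.gx.LJ x d' p := by
      intro p hp c d hc hgood d' hd' hdd
      obtain ⟨c1, y1, d1, e1, e2, e3, hc1⟩ := O.Cor_lift hc
      have hy : y1 = x := O.not_dbl hd e2
      rw [hy] at hc1
      have j1 := hgood c1 hc1.E1 e1
      have j2 : O.gx.LJ x d1 d' := O.fib_lj ht hc1.E2 hd' (e3.trans hdd.symm)
      exact (j2.symm.trans _ _ _ (Relation.EqvGen.rel _ _ hc1.symm)).trans _ _ _ j1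
    intro p q hp hq
    have key : ∀ c d : V, K.LJ (O.π x) c d →
        ((∀ c', O.gx.E x c' → O.π c' = c → O.gx.LJ x c' p) ↔
        (∀ d', O.gx.E x d' → O.π d' = d → O.gx.LJ x d' p)) := by
      intro c d h
      induction h with
      | rel c d h => exact ⟨step p hp c d h, step p hp d c h.symm⟩
      | refl c => exact Iff.rfl
      | symm c d _ ih => exact ih.symm
      | trans c d e _ _ i1 i2 => exact i1.trans i2
    have base : ∀ c', O.gx.E x c' → O.π c' = O.π p → O.gx.LJ x c' p := fun c' hc' e =>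
      O.fib_lj ht hc' hp e
    exact ((key _ _ (hl (O.π x) _ _ (hE hp) (hE hq))).1 base q hq rfl).symm

/-! ### finiteness, the class of the squares -/

variable (P : P45 K)

/-- the tops are finite -/
theorem op_tf (hj : ∀ j, O.js j ≠ O.jt j) (hf : O.DF)
    (h : ∀ T a b y, P.Top T a b y → Finite ↥(stabilizer H T)) {T a b y : W}
    (k : (O.p45 P).Top T a b y) : Finite ↥(stabilizer H T) := by
  have h1 : Finite ↥(stabilizer H (O.π T)) := by
    rcases O.Top_π P k with q | q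
    · exact h _ _ _ _ q
    · exact hf T (NSq.dbl hj q).1
  refine Finite.of_injective (fun g : ↥(stabilizer H T) =>
    (⟨g.1, ?_⟩ : ↥(stabilizer H (O.π T)))) ?_
  · show g.1 • O.π T = O.π T
    rw [← O.π_smul, show g.1 • T = T from g.2]
  · intro g g' e
    exact Subtype.ext (Subtype.mk.inj e)

/-- the poles of the opened vertices are not finite sinks -/
def NF : Prop := ∀ x : W, O.Dbl x → ∀ a, K.ar (O.π x) a → ¬ K.FS a

theorem fs_π {z : W} (h : O.gx.FS z) : K.FS (O.π z) := by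
  have h1 := O.snk_iff.1 h.1
  refine ⟨h1, ?_⟩
  rw [← O.stab_eq (O.snk_ndbl h1)]
  exact h.2

/-- a finite sink is in no square -/
theorem op_fs (hj : ∀ j, O.js j ≠ O.jt j) (hn : O.NF) (h : ∀ z, K.FS z → P.NoQ z) {z : W}
    (hz : O.gx.FS z) : (O.p45 P).NoQ z := by
  intro a b y hq
  have hz' := O.fs_π hz
  rcases O.Q4_π P hq with q | q | q
  · exact h _ hz' _ _ _ q
  · exact O.snk_ndbl hz'.1 (NSq.dbl hj q).1
  · have h1 := NSq.ar O q
    have h2 := (NSq.dbl hj q).1
    exact hn b h2 (O.π z) (O.ar_π h1.1) hz'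

/-- no heavy arrow in a square -/
theorem op_hv (hj : ∀ j, O.js j ≠ O.jt j) (hf : O.DF)
    (h : ∀ x a b y, Q4 P x a b y → K.ar x a → Finite ↥(stabilizer H ((x, a) : V × V)))
    {x a b y : W} (hq : Q4 (O.p45 P) x a b y) (hx : O.gx.ar x a) :
    Finite ↥(stabilizer H ((x, a) : W × W)) := by
  rcases O.Q4_π P hq with q | q | q
  · have h1 := h _ _ _ _ q (O.ar_π hx)
    refine Finite.of_injective (fun g : ↥(stabilizer H ((x, a) : W × W)) =>
      (⟨g.1, ?_⟩ : ↥(stabilizer H ((O.π x, O.π a) : V × V)))) ?_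
    · have e1 : g.1 • x = x := congrArg Prod.fst g.2
      have e2 : g.1 • a = a := congrArg Prod.snd g.2
      refine Prod.ext ?_ ?_
      · show g.1 • O.π x = O.π x
        rw [← O.π_smul, e1]
      · show g.1 • O.π a = O.π a
        rw [← O.π_smul, e2]
    · intro g g' e
      exact Subtype.ext (Subtype.mk.inj e)
  · exact absurd hx (GX.not_both' (NSq.ar O q).1)
  · have h2 := (NSq.dbl hj q).1
    exact O.fin_of_dbl hf (h2.congr (NSq.ar O q).2.2.2.2.1)

theorem sq_Ea {E0 : V → Prop} (hs : P.SqE E0) (hv : O.NT P)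
    {T a b y : W} (h : (O.p45 P).Top T a b y) (hE : O.EE E0 T) : O.gx.ar y a := by
  rcases O.Top_π P h with k | k
  · have hE0 : E0 (O.π T) := hE.resolve_left (hv.top k)
    exact O.ar_of_E h.Ea.symm (hs.Ea _ _ _ _ k hE0)
  · exact (NSq.ar O k).2.2.1

/-- THE STATIC CLASS OF THE SQUARES of the opened complex -/
theorem sqE {E0 : V → Prop} (hs : P.SqE E0) (hv : O.NT P) (hj : ∀ j, O.js j ≠ O.jt j)
    (hJ : O.Js) : (O.p45 P).SqE (O.EE E0) where
  top := O.sq_top P hs.top
  one i i' hi hi' k k' hk hk' h e := O.sq_one P hv hj hJ hs.one i i' hi hi' k k' hk hk' h e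
  par _ _ _ _ _ _ _ h h' := O.sq_par P hs hj hs.par h h'
  side _ _ _ _ h := O.sq_side P hs hj h
  Ey _ _ _ _ h hE := O.sq_Ey P hs hv hj h hE
  Ea _ _ _ _ h hE := O.sq_Ea P hs hv h hE
  Es h v hE := O.sq_Es P hs h v hE
  nab _ _ _ _ h := O.sq_nab P hs h
  nTy _ _ _ _ h := O.sq_nTy P hs hj h

/-- the pentagon at an arrow of an unopened vertex -/
theorem qn_up {x a : W} (hx : ¬ O.Dbl x) (ha : O.gx.ar x a) {b y z : V}
    (h : Qn P (O.π x) (O.π a) b y z) : ∃ b' y' z', Qn (O.p45 P) x a b' y' z' := by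
  obtain ⟨x', a', b', y', z', e1, e2, -, -, -, hq⟩ := O.Qn_lift P h
  have hx' : x' = x := O.not_dbl hx e1
  subst hx'
  have h1 := O.ar_of_E hq.E1 (by rw [e2]; exact O.ar_π ha)
  have h2 : a' = a := by
    rw [← O.ar_e' h1, ← O.ar_e' ha, e2]
  subst h2
  exact ⟨_, _, _, hq⟩

/-- THE OPENED COMPLEX lies over the same candidate -/
theorem op_foldC {C : Cd} {V W : Type} [MulAction C.H V] [MulAction C.H W] {K : GX C.H V}
    (O : OpW K W) {P : P45 K} {f : V → C.V} (F : FoldC C P f) (ht : O.Tw)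
    (hj : ∀ j, O.js j ≠ O.jt j) (hf : O.DF) (hn : O.NF) :
    FoldC C (O.p45 P) (fun x => f (O.π x)) where
  area := O.gx_area.trans F.area
  lc := O.gx_lc ht F.lc
  fs _ hz := O.op_fs P hj hn F.fs hz
  smul h x := by rw [O.π_smul, F.smul]
  arr x a hx hi := by
    refine F.arr _ _ (O.ar_π hx) ?_
    refine Infinite.of_injective (fun g : ↥(stabilizer C.H x) =>
      (⟨g.1, ?_⟩ : ↥(stabilizer C.H (O.π x)))) ?_
    · show g.1 • O.π x = O.π x
      rw [← O.π_smul, show g.1 • x = x from g.2]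
    · intro g g' e
      exact Subtype.ext (Subtype.mk.inj e)
  snk z hz hi := by
    refine F.snk (O.π z) (O.snk_iff.1 hz) ?_
    refine Infinite.of_injective (fun g : ↥(stabilizer C.H z) =>
      (⟨g.1, ?_⟩ : ↥(stabilizer C.H (O.π z)))) ?_
    · show g.1 • O.π z = O.π z
      rw [← O.π_smul, show g.1 • z = z from g.2]
    · intro g g' e
      exact Subtype.ext (Subtype.mk.inj e)
  hv x a hx hi := by
    have hd : ¬ O.Dbl x := fun k => not_finite_iff_infinite.2 hi (O.fin_of_dbl hf k)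
    have hi' : Infinite ↥(stabilizer C.H ((O.π x, O.π a) : V × V)) := by
      rw [← O.stab_pair_eq hd hx]
      exact hi
    obtain ⟨b, y, z, hq⟩ := F.hv _ _ (O.ar_π hx) hi'
    exact O.qn_up P hd hx hq

end OpW

end Pool.Agent.DI
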