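import Pool.Agent.DI.OpnSp
import Pool.Agent.DI.OpnN
import Pool.Agent.DI.OneEdgeQ
import Pool.Agent.DI.LightQ

/-!
# DI/OpnF: the opened complex lies over the same candidate

`O : OpW K W` with `O.Tw`, `O.DE` (the two poles of a vertex with a double are joined by a direct corner),
`O.DF` (vertices with doubles have finite stabilisers), `O.NP` (their poles are no finite sinks): the
links of `O.gx` are connected (`OpW.lc`), finite sinks are in no square (`OpW.noq`), `OpW.foldC`,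
`OpW.ovC`: the fields of `FoldC`, `OvC`. `OpR.opr_DE`: all pairs are joined.
-/

namespace Pool.Agent.DI

open MulAction
open Pool.Agent.SAF (InC orbs FinOrb oc FinOrb_iff)

theorem GX.pcij {H V : Type} [Group H] [MulAction H V] {K : GX H V} {v n m : V} :
    K.PC v n m ↔ K.IJ v n m := by
  constructor
  · intro h
    induction h with
    | rel a b h => exact Relation.EqvGen.rel _ _ ⟨h.2.2, h.1, h.2.1⟩
    | refl a => exact Relation.EqvGen.refl _
    | symm a b _ ih => exact ih.symm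
    | trans a b c _ _ ih1 ih2 => exact ih1.trans _ _ _ ih2
  · intro h
    induction h with
    | rel a b h => exact Relation.EqvGen.rel _ _ ⟨h.2.1, h.2.2, h.1⟩
    | refl a => exact Relation.EqvGen.refl _
    | symm a b _ ih => exact ih.symm
    | trans a b c _ _ ih1 ih2 => exact ih1.trans _ _ _ ih2

namespace OpW

variable {H V W : Type} [Group H] [MulAction H V] [MulAction H W] {K : GX H V} (O : OpW K W)

/-- the poles of the vertices with a double are joined by a direct corner -/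
def DE : Prop := ∀ x : W, O.Dbl x → ∀ a b, a ≠ b → K.ar (O.π x) a → K.ar (O.π x) b →
  O.gx.Cor (O.e (O.π x) a) x (O.e (O.π x) b)

/-- the corners of a new square -/
theorem NSq_cor {a q b y : W} (h : O.NSq a q b y) : O.gx.Cor a q b := by
  obtain ⟨g, j, h1, h2⟩ := h
  have hl := O.gx_len_inr j
  obtain ⟨v0, v1, v2, v3⟩ := O.vx_inr j
  have v4 : O.gx.vx (Sum.inr j) 4 = O.gx.vx (Sum.inr j) 0 := by
    rw [← O.gx.vx_mod (Sum.inr j) 4, hl]
  have k1 : O.gx.Cor (g • O.e (O.π (O.js j)) (O.ja j)) (g • O.js j)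
      (g • O.e (O.π (O.js j)) (O.jb j)) := by
    refine O.gx.cor_LE.2 ⟨(⟨Sum.inr j, ⟨0, by omega⟩⟩, g), Or.inl ⟨?_, ?_, ?_⟩⟩
    · show g • O.gx.vx (Sum.inr j) 0 = _
      rw [v0]
    · show g • O.gx.vx (Sum.inr j) 1 = _
      rw [v1]
    · show g • O.gx.vx (Sum.inr j) 2 = _
      rw [v2]
  have k2 : O.gx.Cor (g • O.e (O.π (O.js j)) (O.jb j)) (g • O.jt j)
      (g • O.e (O.π (O.js j)) (O.ja j)) := by
    refine O.gx.cor_LE.2 ⟨(⟨Sum.inr j, ⟨2, by omega⟩⟩, g), Or.inl ⟨?_, ?_, ?_⟩⟩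
    · show g • O.gx.vx (Sum.inr j) 2 = _
      rw [v2]
    · show g • O.gx.vx (Sum.inr j) 3 = _
      rw [v3]
    · show g • O.gx.vx (Sum.inr j) 4 = _
      rw [v4, v0]
  rcases h1 with ⟨rfl, rfl⟩ | ⟨rfl, rfl⟩ <;> rcases h2 with ⟨rfl, rfl⟩ | ⟨rfl, rfl⟩
  · exact k1
  · exact k1.symm
  · exact k2.symm
  · exact k2

/-- two neighbours over the same vertex are joined -/
theorem same_nb (ht : O.Tw) {x z z' : W} (h : O.gx.E x z) (h' : O.gx.E x z')
    (e : O.π z = O.π z') : O.gx.LJ x z z' := by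
  rcases h with h | h
  · have k : O.gx.ar x z' := O.ar_of_E h' (by rw [← e]; exact O.ar_π h)
    have e1 : z = z' := by
      rw [← O.ar_e' h, ← O.ar_e' k, e]
    rw [e1]
    exact Relation.EqvGen.refl _
  · exact (O.fib ht h (O.ar_congr h e) e).lj

/-- a vertex without a double has all the neighbours -/
theorem ex_nb {x : W} (hd : ¬ O.Dbl x) {b : V} (h : K.E (O.π x) b) :
    ∃ z, O.gx.E x z ∧ O.π z = b := by
  rcases h with h | h
  · exact ⟨_, Or.inl (O.ar_e x h), O.π_e _ _ h⟩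
  · obtain ⟨z, rfl⟩ := O.sur b
    have k := O.ar_e z h
    have e1 : O.e (O.π z) (O.π x) = x := O.not_dbl hd (O.π_e _ _ h)
    rw [e1] at k
    exact ⟨z, Or.inr k, rfl⟩

/-- THE LINKS OF THE OPENED COMPLEX ARE CONNECTED -/
theorem lc (ht : O.Tw) (hE : O.DE) (hl : ∀ v, K.LC v) (x : W) : O.gx.LC x := by
  by_cases hd : O.Dbl x
  · -- every neighbour is joined to a pole
    obtain ⟨y, hy, hne⟩ := id hd
    obtain ⟨a, b, hab, ha, hb⟩ := ht x y hy hne
    have hAB : O.gx.LJ x (O.e (O.π x) a) (O.e (O.π x) b) :=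
      Relation.EqvGen.rel _ _ (hE x hd a b hab ha hb)
    have out : ∀ z, O.gx.ar x z → O.gx.LJ x z (O.e (O.π x) a) := by
      intro z hz
      have e1 := O.ar_e' hz
      rcases K.two _ _ _ _ ha hb (O.ar_π hz) with q | q | q
      · exact absurd q hab
      · rw [← e1, ← q]
        exact hAB.symm
      · rw [← e1, ← q]
        exact Relation.EqvGen.refl _
    have key : ∀ z, O.gx.E x z → O.gx.LJ x z (O.e (O.π x) a) := by
      rintro z (hz | hz)
      · exact out z hz
      · obtain ⟨m, c, h1, h2, h3, h4⟩ := GX.touch hl (O.ar_π hz) ha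
        obtain ⟨m', x', c', rfl, e2, rfl, hc⟩ := O.Cor_lift h4
        have hij := GX.pcij.1 h1
        have k1 : O.gx.ar m' x' := O.ar_of_E hc.E1.symm (by rw [e2]; exact h2)
        have l1 := O.ar_e' k1
        rw [e2] at l1
        have l2 := (O.IJ_lift ht hij).1 (O.ar_π hz)
        have e3 : x' = x := by
          rw [← l1, ← l2]
          exact O.ar_e' hz
        rw [e3] at hc k1
        have l3 := (O.IJ_lift ht hij).2 x z m' rfl rfl rfl hz k1
        have l4 : O.gx.ar x c' := O.ar_of_E hc.E2 h3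
        exact (l3.lj.trans _ _ _ (Relation.EqvGen.rel _ _ hc)).trans _ _ _ (out c' l4)
    intro z z' hz hz'
    exact (key z hz).trans _ _ _ (key z' hz').symm
  · have key : ∀ a b, K.LJ (O.π x) a b → (K.E (O.π x) a ↔ K.E (O.π x) b) ∧
        ∀ z z', O.gx.E x z → O.gx.E x z' → O.π z = a → O.π z' = b → O.gx.LJ x z z' := by
      intro a b h
      induction h with
      | rel a b h =>
        refine ⟨⟨fun _ => h.E2, fun _ => h.E1⟩, ?_⟩
        intro z z' hz hz' e e'
        obtain ⟨a', x', b', e1, e2, e3, hc⟩ := O.Cor_lift h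
        have e4 : x' = x := O.not_dbl hd e2
        rw [e4] at hc
        exact ((O.same_nb ht hz hc.E1 (e.trans e1.symm)).trans _ _ _
          (Relation.EqvGen.rel _ _ hc)).trans _ _ _ (O.same_nb ht hc.E2 hz' (e3.trans e'.symm))
      | refl a =>
        exact ⟨Iff.rfl, fun z z' hz hz' e e' => O.same_nb ht hz hz' (e.trans e'.symm)⟩
      | symm a b _ ih =>
        exact ⟨ih.1.symm, fun z z' hz hz' e e' => (ih.2 z' z hz' hz e' e).symm⟩
      | trans a b c _ _ ih1 ih2 =>
        refine ⟨ih1.1.trans ih2.1, fun z z' hz hz' e e' => ?_⟩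
        have hzE : K.E (O.π x) a := by
          rw [← e]
          rcases hz with hz | hz
          · exact Or.inl (O.ar_π hz)
          · exact Or.inr (O.ar_π hz)
        obtain ⟨y, hy, ey⟩ := O.ex_nb hd (ih1.1.1 hzE)
        exact (ih1.2 z y hz hy e ey).trans _ _ _ (ih2.2 y z' hy hz' ey e')
    intro z z' hz hz'
    have E0 : ∀ {z}, O.gx.E x z → K.E (O.π x) (O.π z) := by
      rintro z (hz | hz)
      · exact Or.inl (O.ar_π hz)
      · exact Or.inr (O.ar_π hz)
    exact (key _ _ (hl _ _ _ (E0 hz) (E0 hz'))).2 z z' hz hz' rfl rfl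

/-- the poles of the vertices with a double are no finite sinks -/
def NP : Prop := ∀ x : W, O.Dbl x → ∀ a, K.ar (O.π x) a → ¬ K.FS a

theorem fs_dn {z : W} (h : O.gx.FS z) : K.FS (O.π z) := by
  have hs := O.snk_iff.1 h.1
  refine ⟨hs, ?_⟩
  rw [← O.stab_eq (O.snk_ndbl hs)]
  exact h.2

theorem fs_up {z : W} (h : K.FS (O.π z)) : O.gx.FS z := by
  refine ⟨O.snk_iff.2 h.1, ?_⟩
  rw [O.stab_eq (O.snk_ndbl h.1)]
  exact h.2

/-- FINITE SINKS ARE IN NO SQUARE -/
theorem noq {P : P45 K} (hp : O.NP) (hj : ∀ j, O.js j ≠ O.jt j) (fs : ∀ z, K.FS z → P.NoQ z) (z : W)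
    (hz : O.gx.FS z) : (O.p45 P).NoQ z := by
  intro a b y h
  have hz' := O.fs_dn hz
  rcases O.Q4_π P h with k | k | k
  · exact fs _ hz' _ _ _ k
  · exact hz.1 _ (NSq.ar O k).1
  · have hd := (NSq.dbl hj k).1
    exact hp b hd _ (O.ar_π (NSq.ar O k).1) hz'

/-- heavy arrows -/
theorem stab_up (hf : O.DF) {x a : W} (_h : O.gx.ar x a)
    (hi : Infinite ↥(stabilizer H ((x, a) : W × W))) : ¬ O.Dbl x ∧
      Infinite ↥(stabilizer H ((O.π x, O.π a) : V × V)) := by
  have hd : ¬ O.Dbl x := fun hd => by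
    have := O.fin_of_dbl hf hd (y := a)
    exact not_finite_iff_infinite.2 hi this
  refine ⟨hd, ?_⟩
  rw [← O.stab_pair_eq hd _h]
  exact hi

theorem stab_inf {x : W} (hi : Infinite ↥(stabilizer H x)) :
    Infinite ↥(stabilizer H (O.π x)) := by
  refine Infinite.of_injective (fun g : ↥(stabilizer H x) =>
    (⟨g.1, by rw [mem_stabilizer_iff, ← O.π_smul, g.2]⟩ : ↥(stabilizer H (O.π x)))) ?_
  intro g g' e
  exact Subtype.ext (congrArg (fun t : ↥(stabilizer H (O.π x)) => t.1) e)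

/-- heavy arrows are in pentagons -/
theorem hv_up {P : P45 K} (hf : O.DF)
    (hv : ∀ x a, K.ar x a → Infinite ↥(stabilizer H ((x, a) : V × V)) → ∃ b y z, Qn P x a b y z)
    (x a : W) (ha : O.gx.ar x a) (hi : Infinite ↥(stabilizer H ((x, a) : W × W))) :
    ∃ b y z, Qn (O.p45 P) x a b y z := by
  obtain ⟨hd, h⟩ := O.stab_up hf ha hi
  obtain ⟨b, y, z, k⟩ := hv _ _ (O.ar_π ha) h
  obtain ⟨x', a', b', y', z', e1, e2, -, -, -, k'⟩ := O.Qn_lift P k
  have e3 : x' = x := O.not_dbl hd e1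
  rw [e3] at k'
  have h1 : O.gx.ar x a' := O.ar_of_E k'.E1 (by rw [e2]; exact O.ar_π ha)
  have e4 : a' = a := by
    rw [← O.ar_e' h1, ← O.ar_e' ha, e2]
  rw [e4] at k'
  exact ⟨b', y', z', k'⟩

end OpW

/-- the opened complex lies over the same candidate -/
theorem OpW.foldC {C : Cd} {V W : Type} [MulAction C.H V] [MulAction C.H W] {K : GX C.H V}
    {P : P45 K} {f : V → C.V} (F : FoldC C P f) (O : OpW K W) (ht : O.Tw) (hE : O.DE) (hf : O.DF)
    (hp : O.NP) (hj : ∀ j, O.js j ≠ O.jt j) : FoldC C (O.p45 P) (fun x => f (O.π x)) where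
  area := O.gx_area.trans F.area
  lc := O.lc ht hE F.lc
  fs := O.noq hp hj F.fs
  smul h x := by
    show f (O.π (h • x)) = _
    rw [O.π_smul, F.smul]
  arr x a ha hi := F.arr _ _ (O.ar_π ha) (O.stab_inf hi)
  snk z hz hi := F.snk _ (O.snk_iff.1 hz) (O.stab_inf hi)
  hv := O.hv_up hf F.hv

/-- the same for the light world -/
theorem OpW.ovC {C : Cd} {V W : Type} [MulAction C.H V] [MulAction C.H W] {K : GX C.H V}
    {P : P45 K} {f : V → C.V} (F : OvC C K P f) (O : OpW K W) (ht : O.Tw) (hE : O.DE) (hf : O.DF)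
    (hp : O.NP) (hj : ∀ j, O.js j ≠ O.jt j) : OvC C O.gx (O.p45 P) (fun x => f (O.π x)) where
  area := O.gx_area.trans F.area
  lc := O.lc ht hE F.lc
  fs := O.noq hp hj F.fs
  hp := O.hv_up hf F.hp
  smul h x := by
    show f (O.π (h • x)) = _
    rw [O.π_smul, F.smul]
  ar x a ha hi := F.ar _ _ (O.ar_π ha) (O.stab_inf hi)
  snk z hz hi := F.snk _ (O.snk_iff.1 hz) (O.stab_inf hi)
  fsink z hz hi := by
    obtain ⟨z', h1, h2⟩ := F.fsink z hz hi
    obtain ⟨w, rfl⟩ := O.sur z'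
    exact ⟨w, O.fs_up h1, h2⟩
  hv n v ha hi hs := by
    obtain ⟨n', v', h1, h2, h3, h4⟩ := F.hv n v ha hi hs
    obtain ⟨w, rfl⟩ := O.sur n'
    have h5 := O.ar_e w h1
    have e := O.π_e _ _ h1
    have hd : ¬ O.Dbl w := fun hd => by
      have := hf w hd
      refine not_finite_iff_infinite.2 h3 (Finite.of_injective (fun g : ↥(stabilizer C.H
        ((O.π w, v') : V × V)) => (⟨g.1, congrArg Prod.fst g.2⟩ : ↥(stabilizer C.H (O.π w)))) ?_)
      intro g g' e
      exact Subtype.ext (congrArg (fun t : ↥(stabilizer C.H (O.π w)) => t.1) e)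
    refine ⟨w, _, h5, O.snk_iff.2 (by rw [e]; exact h2), ?_, ?_⟩
    · rw [O.stab_pair_eq hd h5, e]
      exact h3
    · show f (O.π _) = v
      rw [e]
      exact h4

end Pool.Agent.DI
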