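import Pool.Agent.DI.OpnF

/-!
# DI/OpnG: the facts of the total split

`O : OpR K X`: `opr_DE`. `O : SpD P Z`: the fields of `OpW.foldC`, `OpW.ovC` for `O.sp.opr`: `sp_DF`,
`sp_NP`; the structure of the parts: `sp_one` (one piece), `sp_dir` (one direct corner of a pentagon if there is
no page), `sp_sq` (every square has a middle over `Z`). `P45.Zs`: the standard `Z`; `P45.Zs_sp`.
-/

namespace Pool.Agent.DI

open MulAction
open Pool.Agent.SAF (InC orbs FinOrb oc FinOrb_iff)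

theorem LE_one {H V : Type} [Group H] [MulAction H V] (K : GX H V) (p : K.Pos) (g : H) :
    g • (show K.LE from (p, 1)) = (p, g) := Prod.ext rfl (mul_one g)

namespace OpR

variable {H V X : Type} [Group H] [MulAction H V] [MulAction H X] {K : GX H V} (O : OpR K X)

theorem opr_DE : O.opr.DE := by
  rintro x ⟨y, h, hne⟩ a b hab ha hb
  exact O.opr.NSq_cor (O.opr_NSq h hne ha hb hab)

/-- the label of the target of an arrow -/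
theorem lab {x y : O.W} (h : O.opr.gx.ar x y) : y.1.2 = O.r (O.π x) (O.π y) := by
  have h1 : O.e (O.π x) (O.π y) = y := O.opr.ar_e' h
  have h2 := O.e_ar (O.opr.ar_π h)
  exact congrArg (fun w : O.W => w.1.2) (h1.symm.trans h2)

/-- arrows -/
theorem ar_mk {x y : O.W} (h : K.ar (O.π x) (O.π y)) (e : y.1.2 = O.r (O.π x) (O.π y)) :
    O.opr.gx.ar x y := by
  refine ⟨h, ?_⟩
  show O.e (O.π x) (O.π y) = y
  rw [O.e_ar h]
  exact Subtype.ext (Prod.ext rfl e.symm)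

/-- the stabiliser of a vertex -/
theorem stab_iff {x : O.W} {h : H} : h • x = x ↔ h • O.π x = O.π x ∧ h • x.1.2 = x.1.2 := by
  constructor
  · intro e
    exact ⟨congrArg (fun w : O.W => w.1.1) e, congrArg (fun w : O.W => w.1.2) e⟩
  · rintro ⟨e1, e2⟩
    exact Subtype.ext (Prod.ext e1 e2)

end OpR

namespace SpD

variable {H V : Type} [Group H] [MulAction H V] {K : GX H V} {P : P45 K} {Z : Set V} (O : SpD P Z)

/-- only vertices of `Z` are opened -/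
theorem dbl_Z {x : O.sp.W} (h : O.sp.opr.Dbl x) : O.sp.π x ∈ Z := by
  obtain ⟨l, hl, hne⟩ := O.sp.opr_dbl.1 h
  by_contra hz
  exact hne ((Lb_nZ hl hz).trans (Lb_nZ x.2 hz).symm)

theorem sp_DF : O.sp.opr.DF := fun _ hx => O.fin _ (O.dbl_Z hx)

theorem sp_NP (hp : ∀ y ∈ Z, ∀ a, K.ar y a → ¬ K.FS a) : O.sp.opr.NP :=
  fun _ hx _ ha => hp _ (O.dbl_Z hx) _ ha

theorem sp_CE (hc : ∀ y ∈ Z, ∀ a, K.ar y a → K.EC y a) : O.sp.opr.CE :=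
  fun _ hx _ ha => hc _ (O.dbl_Z hx) _ ha

/-- the label of a part with a page -/
theorem lab_Z {n x : O.sp.W} (hx : O.sp.π x ∈ Z) (h : O.sp.opr.gx.ar n x) :
    x.1.2 = Lbl.pc (K.Pc (O.sp.π x) (O.sp.π n)) := (O.sp.lab h).trans (r_Z hx)

/-- ONE PIECE: the in-arrows of a part are one piece -/
theorem sp_IJ {x n k : O.sp.W} (hx : O.sp.π x ∈ Z) (hn : O.sp.opr.gx.ar n x)
    (hk : O.sp.opr.gx.ar k x) : O.sp.opr.gx.IJ x n k := by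
  have e := (O.lab_Z hx hn).symm.trans (O.lab_Z hx hk)
  have e1 : K.Pc (O.sp.π x) (O.sp.π n) = K.Pc (O.sp.π x) (O.sp.π k) := Lbl.pc.inj e
  exact (O.sp.opr.IJ_lift O.sp.opr_Tw (GX.Pc_eq.1 e1)).2 x n k rfl rfl rfl hn hk

theorem sp_one {x n k : O.sp.W} (hx : O.sp.π x ∈ Z) (hn : O.sp.opr.gx.ar n x)
    (hk : O.sp.opr.gx.ar k x) : O.sp.opr.gx.PC x n k := GX.pcij.2 (O.sp_IJ hx hn hk)

/-- the stabiliser of a part with a page -/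
theorem stab_pc {x n : O.sp.W} (hx : O.sp.π x ∈ Z) (hn : O.sp.opr.gx.ar n x) {h : H} :
    h • x = x ↔ h • O.sp.π x = O.sp.π x ∧ K.IJ (O.sp.π x) (O.sp.π n) (h • O.sp.π n) := by
  rw [O.sp.stab_iff, O.lab_Z hx hn, Lbl.smul_pc]
  refine and_congr_right fun e => ?_
  rw [GX.Pc_smul, e]
  constructor
  · intro k
    exact (GX.Pc_eq.1 (Lbl.pc.inj k)).symm'
  · intro k
    rw [GX.Pc_eq.2 k]

/-- in-arrows of a part -/
theorem ar_pc {x n : O.sp.W} (hx : O.sp.π x ∈ Z) (hn : O.sp.opr.gx.ar n x) {m : O.sp.W} :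
    O.sp.opr.gx.ar m x ↔ K.IJ (O.sp.π x) (O.sp.π n) (O.sp.π m) := by
  constructor
  · intro hm
    exact O.sp.opr.IJ_π (O.sp_IJ hx hn hm)
  · intro h
    have h1 : K.ar (O.sp.π m) (O.sp.π x) := (GX.IJ.ar h).1 (O.sp.opr.ar_π hn)
    refine O.sp.ar_mk h1 ?_
    rw [O.lab_Z hx hn]
    show _ = r K Z _ _
    rw [r_Z hx, GX.Pc_eq.2 h]

/-- EVERY SQUARE HAS A MIDDLE OVER `Z` -/
theorem sp_sq (ht : ∀ a q b y, Q4 P a q b y → (q ∈ Z ∧ K.ar q a ∧ K.ar q b) ∨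
      (y ∈ Z ∧ K.ar y a ∧ K.ar y b) ∨ (a ∈ Z ∧ K.ar a q ∧ K.ar a y) ∨ (b ∈ Z ∧ K.ar b q ∧ K.ar b y))
    {a q b y : O.sp.W} (h : Q4 (O.sp.opr.p45 P) a q b y) :
    (O.sp.π q ∈ Z ∧ O.sp.opr.gx.ar q a ∧ O.sp.opr.gx.ar q b) ∨
    (O.sp.π y ∈ Z ∧ O.sp.opr.gx.ar y a ∧ O.sp.opr.gx.ar y b) ∨
    (O.sp.π a ∈ Z ∧ O.sp.opr.gx.ar a q ∧ O.sp.opr.gx.ar a y) ∨
    (O.sp.π b ∈ Z ∧ O.sp.opr.gx.ar b q ∧ O.sp.opr.gx.ar b y) := by
  rcases O.sp.opr.Q4_π P h with k | k | k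
  · rcases ht _ _ _ _ k with ⟨h1, h2, h3⟩ | ⟨h1, h2, h3⟩ | ⟨h1, h2, h3⟩ | ⟨h1, h2, h3⟩
    · exact Or.inl ⟨h1, O.sp.opr.ar_of_E h.E1.symm h2, O.sp.opr.ar_of_E h.E2 h3⟩
    · exact Or.inr (Or.inl ⟨h1, O.sp.opr.ar_of_E h.E4 h2, O.sp.opr.ar_of_E h.E3.symm h3⟩)
    · exact Or.inr (Or.inr (Or.inl ⟨h1, O.sp.opr.ar_of_E h.E1 h2, O.sp.opr.ar_of_E h.E4.symm h3⟩))
    · exact Or.inr (Or.inr (Or.inr ⟨h1, O.sp.opr.ar_of_E h.E2.symm h2, O.sp.opr.ar_of_E h.E3 h3⟩))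
  · exact Or.inl ⟨O.dbl_Z (OpW.NSq.dbl O.sp.opr_ne k).1, (OpW.NSq.ar _ k).1, (OpW.NSq.ar _ k).2.1⟩
  · exact Or.inr (Or.inr (Or.inr ⟨O.dbl_Z (OpW.NSq.dbl O.sp.opr_ne k).1, (OpW.NSq.ar _ k).1,
      (OpW.NSq.ar _ k).2.1⟩))

/-- a direct corner of a pentagon -/
theorem dir_aux {i : K.I} (hi : ¬ P.sq i) (m : Fin 5) (hz : K.vx i (m + 1 : Fin 5) ∈ Z)
    (h1 : K.ar (P.pt i (m + 1)) (P.pt i m)) (h2 : K.ar (P.pt i (m + 1)) (P.pt i (m + 2))) :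
    (O.sp.opr.lp i ((m + 1 : Fin 5) : ℕ)).1.2 = Lbl.dir ((⟨i, Fin.cast (P.len5 hi).symm m⟩, 1) : K.LE) := by
  have hl := P.len5 hi
  have v0 : K.vx i ((m + 1 : Fin 5) : ℕ) = P.pt i (m + 1) := P.vx5 hi _
  have f1 : ∀ m : Fin 5, (((m + 1 : Fin 5) : ℕ) + 1) % 5 = ((m + 2 : Fin 5) : ℕ) := by decide
  have f2 : ∀ m : Fin 5, (((m + 1 : Fin 5) : ℕ) + 5 - 1) % 5 = (m : ℕ) := by decide
  have v1 : K.vx i (((m + 1 : Fin 5) : ℕ) + 1) = P.pt i (m + 2) := by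
    rw [← K.vx_mod, hl, f1, P.vx5 hi]
  have v2 : K.vx i (((m + 1 : Fin 5) : ℕ) + K.len i - 1) = P.pt i m := by
    rw [← K.vx_mod, hl, f2, P.vx5 hi]
  have hlp : O.sp.opr.lp i ((m + 1 : Fin 5) : ℕ) =
      ⟨(K.vx i ((m + 1 : Fin 5) : ℕ), d P Z i ((m + 1 : Fin 5) : ℕ)), d_mem _ _⟩ := by
    show lpOf K O.sp.e (fun i j => (⟨(K.vx i j, O.sp.d i j), O.sp.d_mem i j⟩ : O.sp.W)) i
      ((m + 1 : Fin 5) : ℕ) = _
    rw [lpOf_ch]
    · rfl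
    · rw [v2, v0]
      exact GX.not_both' h1
    · rw [v1, v0]
      exact GX.not_both' h2
  rw [hlp]
  show d P Z i ((m + 1 : Fin 5) : ℕ) = _
  rw [d_dir hi (by omega) hz (by rw [v0, v2]; exact h1) (by rw [v0, v1]; exact h2)]
  have f3 : (⟨(((m + 1 : Fin 5) : ℕ) + K.len i - 1) % K.len i, Nat.mod_lt _ (by omega)⟩ :
      Fin (K.len i)) = Fin.cast (P.len5 hi).symm m := by
    apply Fin.ext
    show (((m + 1 : Fin 5) : ℕ) + K.len i - 1) % K.len i = (m : ℕ)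
    rw [hl, f2]
  rw [f3]

/-- a direct corner of a pentagon at a part is the label -/
theorem dir_lab {x n k y z : O.sp.W} (hx : O.sp.π x ∈ Z) (hn : O.sp.opr.gx.ar x n)
    (hk : O.sp.opr.gx.ar x k) (h : Qn (O.sp.opr.p45 P) n x k y z) :
    ∃ (g : H) (i : K.I) (hi : ¬ P.sq i) (m : Fin 5),
      x.1.2 = Lbl.dir ((⟨i, Fin.cast (P.len5 hi).symm m⟩, g) : K.LE) ∧
      ((n = g • O.sp.opr.lp i (m : ℕ) ∧ k = g • O.sp.opr.lp i ((m + 2 : Fin 5) : ℕ) ∧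
        y = g • O.sp.opr.lp i ((m + 3 : Fin 5) : ℕ) ∧ z = g • O.sp.opr.lp i ((m + 4 : Fin 5) : ℕ)) ∨
      (k = g • O.sp.opr.lp i (m : ℕ) ∧ n = g • O.sp.opr.lp i ((m + 2 : Fin 5) : ℕ) ∧
        z = g • O.sp.opr.lp i ((m + 3 : Fin 5) : ℕ) ∧ y = g • O.sp.opr.lp i ((m + 4 : Fin 5) : ℕ))) := by
  obtain ⟨g, i | j, m, hi, h⟩ := h
  swap
  · exact absurd trivial hi
  have hi : ¬ P.sq i := hi
  have key : ∀ n k x : O.sp.W, n = g • O.sp.opr.lp i (m : ℕ) → x = g • O.sp.opr.lp i ((m + 1 : Fin 5) : ℕ) →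
      k = g • O.sp.opr.lp i ((m + 2 : Fin 5) : ℕ) → O.sp.π x ∈ Z → O.sp.opr.gx.ar x n →
      O.sp.opr.gx.ar x k → x.1.2 = Lbl.dir ((⟨i, Fin.cast (P.len5 hi).symm m⟩, g) : K.LE) := by
    intro n k x e1 e2 e3 hx hn hk
    have p0 : O.sp.π (O.sp.opr.lp i (m : ℕ)) = P.pt i m :=
      (O.sp.opr.π_lp _ _).trans (P.vx5 hi _)
    have p1 : O.sp.π (O.sp.opr.lp i ((m + 1 : Fin 5) : ℕ)) = P.pt i (m + 1) :=
      (O.sp.opr.π_lp _ _).trans (P.vx5 hi _)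
    have p2 : O.sp.π (O.sp.opr.lp i ((m + 2 : Fin 5) : ℕ)) = P.pt i (m + 2) :=
      (O.sp.opr.π_lp _ _).trans (P.vx5 hi _)
    have a1 : K.ar (P.pt i (m + 1)) (P.pt i m) := by
      have h1 := O.sp.opr.ar_π hn
      rw [e1, e2] at h1
      have h2 := K.ar_smul g⁻¹ _ _ h1
      rw [O.sp.opr.π_smul, O.sp.opr.π_smul, inv_smul_smul, inv_smul_smul] at h2
      rw [← p0, ← p1]
      exact h2
    have a2 : K.ar (P.pt i (m + 1)) (P.pt i (m + 2)) := by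
      have h1 := O.sp.opr.ar_π hk
      rw [e3, e2] at h1
      have h2 := K.ar_smul g⁻¹ _ _ h1
      rw [O.sp.opr.π_smul, O.sp.opr.π_smul, inv_smul_smul, inv_smul_smul] at h2
      rw [← p2, ← p1]
      exact h2
    have hz : K.vx i ((m + 1 : Fin 5) : ℕ) ∈ Z := by
      rw [P.vx5 hi, ← p1]
      have := O.inv g⁻¹ _ hx
      rw [e2] at this
      have e4 : O.sp.π (g • O.sp.opr.lp i ((m + 1 : Fin 5) : ℕ)) =
        g • O.sp.π (O.sp.opr.lp i ((m + 1 : Fin 5) : ℕ)) := rfl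
      rw [e4, inv_smul_smul] at this
      exact this
    rw [e2]
    show g • (O.sp.opr.lp i ((m + 1 : Fin 5) : ℕ)).1.2 = _
    rw [O.dir_aux hi m hz a1 a2]
    exact congrArg Lbl.dir (LE_one K ⟨i, Fin.cast (P.len5 hi).symm m⟩ g)
  refine ⟨g, i, hi, m, ?_, ?_⟩
  · rcases h with ⟨h1, h2, h3, -, -⟩ | ⟨h1, h2, h3, -, -⟩
    · exact key n k x h1 h2 h3 hx hn hk
    · exact key k n x h1 h2 h3 hx hk hn
  · rcases h with ⟨h1, h2, h3, h4, h5⟩ | ⟨h1, h2, h3, h4, h5⟩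
    · exact Or.inl ⟨h1, h3, h4, h5⟩
    · exact Or.inr ⟨h1, h3, h4, h5⟩

/-- ONE DIRECT CORNER: two pentagons with direct corners at one part are the same -/
theorem sp_dir {x n k y z n' k' y' z' : O.sp.W} (hx : O.sp.π x ∈ Z) (hn : O.sp.opr.gx.ar x n)
    (hk : O.sp.opr.gx.ar x k) (h : Qn (O.sp.opr.p45 P) n x k y z) (hn' : O.sp.opr.gx.ar x n')
    (hk' : O.sp.opr.gx.ar x k') (h' : Qn (O.sp.opr.p45 P) n' x k' y' z') :
    (n = n' ∧ k = k' ∧ y = y' ∧ z = z') ∨ (n = k' ∧ k = n' ∧ y = z' ∧ z = y') := by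
  obtain ⟨g, i, hi, m, h1, h2⟩ := O.dir_lab hx hn hk h
  obtain ⟨g', i', hi', m', h1', h2'⟩ := O.dir_lab hx hn' hk' h'
  have e := Lbl.dir.inj (h1.symm.trans h1')
  have e1 := congrArg Prod.fst e
  have e2 : g = g' := congrArg Prod.snd e
  have e3 : i = i' := congrArg Sigma.fst e1
  subst e2
  subst e3
  have e4 : m = m' := by
    have e5 := eq_of_heq (Sigma.mk.inj e1).2
    have e6 := congrArg Fin.val e5
    exact Fin.ext e6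
  subst e4
  rcases h2 with ⟨a1, a2, a3, a4⟩ | ⟨a1, a2, a3, a4⟩ <;>
    rcases h2' with ⟨b1, b2, b3, b4⟩ | ⟨b1, b2, b3, b4⟩
  · exact Or.inl ⟨a1.trans b1.symm, a2.trans b2.symm, a3.trans b3.symm, a4.trans b4.symm⟩
  · exact Or.inr ⟨a1.trans b1.symm, a2.trans b2.symm, a3.trans b3.symm, a4.trans b4.symm⟩
  · exact Or.inr ⟨a2.trans b2.symm, a1.trans b1.symm, a4.trans b4.symm, a3.trans b3.symm⟩
  · exact Or.inl ⟨a2.trans b2.symm, a1.trans b1.symm, a4.trans b4.symm, a3.trans b3.symm⟩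

/-- a part with a direct corner of a pentagon has no page -/
theorem dir_nopage {x n k y z m : O.sp.W} (hx : O.sp.π x ∈ Z) (hn : O.sp.opr.gx.ar x n)
    (hk : O.sp.opr.gx.ar x k) (h : Qn (O.sp.opr.p45 P) n x k y z) : ¬ O.sp.opr.gx.ar m x := by
  intro hm
  obtain ⟨g, i, hi, j, h1, -⟩ := O.dir_lab hx hn hk h
  rw [O.lab_Z hx hm] at h1
  cases h1

end SpD

end Pool.Agent.DI
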