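import Pool.Agent.DI.Opn
import Pool.Agent.BT.LineC

/-!
# DI/OpnV: opening a soft

`lpOf`: lifts of the cells, if the two labels at every corner of a cell agree; at direct corners the lift
is free (`ch`). `OpD K`: a soft `v` with poles `a`, `b`, a subgroup `D` of index two of its stabiliser
(`r` the other coset), a `D`-invariant set `L` of in-arrows which with `r L` makes up all in-arrows;
no cell has a corner between `L` and `r L`. `OpD.opn`: the vertices over `v` are the cosets of `D`.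
-/

namespace Pool.Agent.DI

open MulAction
open Pool.Agent.SAF (InC orbs FinOrb oc)

section Lift

variable {H V W : Type} [Group H] [MulAction H V] {K : GX H V} (π : W → V) (e : V → V → W)

open Classical in
/-- lifts of the cells -/
noncomputable def lpOf (K : GX H V) (e : V → V → W) (ch : K.I → ℕ → W) (i : K.I) (j : ℕ) : W :=
  if K.ar (K.vx i (j + K.len i - 1)) (K.vx i j) then e (K.vx i (j + K.len i - 1)) (K.vx i j)
  else if K.ar (K.vx i (j + 1)) (K.vx i j) then e (K.vx i (j + 1)) (K.vx i j) else ch i j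

variable {π e} {ch : K.I → ℕ → W}

theorem lpOf_left {i : K.I} {j : ℕ} (h : K.ar (K.vx i (j + K.len i - 1)) (K.vx i j)) :
    lpOf K e ch i j = e (K.vx i (j + K.len i - 1)) (K.vx i j) := if_pos h

theorem lpOf_right {i : K.I} {j : ℕ} (h : ¬ K.ar (K.vx i (j + K.len i - 1)) (K.vx i j))
    (h' : K.ar (K.vx i (j + 1)) (K.vx i j)) : lpOf K e ch i j = e (K.vx i (j + 1)) (K.vx i j) := by
  unfold lpOf
  rw [if_neg h, if_pos h']

theorem lpOf_ch {i : K.I} {j : ℕ} (h : ¬ K.ar (K.vx i (j + K.len i - 1)) (K.vx i j))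
    (h' : ¬ K.ar (K.vx i (j + 1)) (K.vx i j)) : lpOf K e ch i j = ch i j := by
  unfold lpOf
  rw [if_neg h, if_neg h']

/-- the condition at the corners -/
def CorE (K : GX H V) (e : V → V → W) : Prop := ∀ (i : K.I) (j : ℕ), 0 < K.len i →
  K.ar (K.vx i j) (K.vx i (j + 1)) → K.ar (K.vx i (j + 2)) (K.vx i (j + 1)) →
    e (K.vx i j) (K.vx i (j + 1)) = e (K.vx i (j + 2)) (K.vx i (j + 1))

/-- both labels -/
theorem lpOf_right' (hc : CorE K e) {i : K.I} {j : ℕ} (hl : 0 < K.len i)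
    (h' : K.ar (K.vx i (j + 1)) (K.vx i j)) : lpOf K e ch i j = e (K.vx i (j + 1)) (K.vx i j) := by
  by_cases h : K.ar (K.vx i (j + K.len i - 1)) (K.vx i j)
  · rw [lpOf_left h]
    have e1 : K.vx i (j + K.len i - 1 + 1) = K.vx i j := by
      rw [show j + K.len i - 1 + 1 = j + K.len i by omega, K.vx_add_len]
    have e2 : K.vx i (j + K.len i - 1 + 2) = K.vx i (j + 1) := by
      rw [show j + K.len i - 1 + 2 = j + 1 + K.len i by omega, K.vx_add_len]
    have k := hc i (j + K.len i - 1) hl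
    rw [e1, e2] at k
    exact k h h'
  · exact lpOf_right h h'

theorem lpOf_len (hch : ∀ i j, ch i (j + K.len i) = ch i j) (i : K.I) (j : ℕ) :
    lpOf K e ch i (j + K.len i) = lpOf K e ch i j := by
  have e1 : K.vx i (j + K.len i + K.len i - 1) = K.vx i (j + K.len i - 1) := by
    rcases Nat.eq_zero_or_pos (K.len i) with h | h
    · rw [h]
    · rw [show j + K.len i + K.len i - 1 = j + K.len i - 1 + K.len i by omega, K.vx_add_len]
  have e2 : K.vx i (j + K.len i + 1) = K.vx i (j + 1) := by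
    rw [show j + K.len i + 1 = j + 1 + K.len i by omega, K.vx_add_len]
  unfold lpOf
  rw [e1, e2, K.vx_add_len, hch]

theorem π_lpOf (hπ : ∀ n y : V, K.ar n y → π (e n y) = y) (hch : ∀ i j, π (ch i j) = K.vx i j)
    (i : K.I) (j : ℕ) : π (lpOf K e ch i j) = K.vx i j := by
  unfold lpOf
  split_ifs with h1 h2
  · exact hπ _ _ h1
  · exact hπ _ _ h2
  · exact hch i j

theorem lpOf_E (hc : CorE K e) (i : K.I) (j : ℕ) (hj : j < K.len i) :
    (K.ar (K.vx i j) (K.vx i (j + 1)) ∧ e (K.vx i j) (K.vx i (j + 1)) = lpOf K e ch i (j + 1)) ∨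
    (K.ar (K.vx i (j + 1)) (K.vx i j) ∧ e (K.vx i (j + 1)) (K.vx i j) = lpOf K e ch i j) := by
  have hl : 0 < K.len i := by omega
  rcases K.vx_E hl j with h | h
  · left
    refine ⟨h, ?_⟩
    have e1 : K.vx i (j + 1 + K.len i - 1) = K.vx i j := by
      rw [show j + 1 + K.len i - 1 = j + K.len i by omega, K.vx_add_len]
    rw [lpOf_left (by rw [e1]; exact h), e1]
  · right
    exact ⟨h, (lpOf_right' hc hl h).symm⟩

end Lift

/-! ### a soft -/

/-- the complement of an orbit -/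
def cO (H : Type) {V : Type} [Group H] [MulAction H V] (v : V) : SubMulAction H V where
  carrier := {x | ¬ ∃ g : H, x = g • v}
  smul_mem' := by
    rintro h x hx ⟨g, hg⟩
    exact hx ⟨h⁻¹ * g, by rw [mul_smul, ← hg, inv_smul_smul]⟩

/-- opening data for a soft -/
structure OpD {H V : Type} [Group H] [MulAction H V] (K : GX H V) where
  v : V
  a : V
  b : V
  va : K.ar v a
  vb : K.ar v b
  ab : a ≠ b
  D : Subgroup H
  r : H
  Dv : ∀ g ∈ D, g • v = v
  rv : r • v = v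
  rD : r ∉ D
  two : ∀ g : H, g • v = v → g ∈ D ∨ r⁻¹ * g ∈ D
  L : Set V
  Linv : ∀ g ∈ D, ∀ n ∈ L, g • n ∈ L
  Lst : ∀ g : H, g • v = v → ∀ n ∈ L, g • n ∈ L → g ∈ D
  Lcov : ∀ n, K.ar n v → n ∈ L ∨ r⁻¹ • n ∈ L
  cor : ∀ (i : K.I) (j : ℕ) (h : H), 0 < K.len i → h • K.vx i (j + 1) = v →
    K.ar (h • K.vx i j) v → K.ar (h • K.vx i (j + 2)) v → h • K.vx i j ∈ L → h • K.vx i (j + 2) ∈ L

namespace OpD

variable {H V : Type} [Group H] [MulAction H V] {K : GX H V} (O : OpD K)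

/-- the vertices of the opened complex -/
abbrev W : Type := ↥(cO H O.v) ⊕ (H ⧸ O.D)

/-- the vertex below a coset -/
def q (s : H ⧸ O.D) : V := Quotient.liftOn' s (fun g => g • O.v) (by
  intro g g' h
  have h' : g⁻¹ * g' ∈ O.D := QuotientGroup.leftRel_apply.1 h
  have := O.Dv _ h'
  rw [mul_smul, inv_smul_eq_iff] at this
  exact this.symm)

@[simp] theorem q_mk (g : H) : O.q (g : H ⧸ O.D) = g • O.v := rfl

theorem q_smul (h : H) (s : H ⧸ O.D) : O.q (h • s) = h • O.q s := by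
  induction s using QuotientGroup.induction_on with
  | _ g =>
    rw [q_mk, ← mul_smul]
    rfl

/-- the projection -/
def π : O.W → V
  | Sum.inl x => x.1
  | Sum.inr s => O.q s

theorem π_smul (h : H) (x : O.W) : O.π (h • x) = h • O.π x := by
  rcases x with x | s
  · rfl
  · exact O.q_smul h s

/-- the orbit of `v` -/
def Z (y : V) : Prop := ∃ g : H, y = g • O.v

theorem Z_smul (h : H) {y : V} (hy : O.Z y) : O.Z (h • y) := by
  obtain ⟨g, rfl⟩ := hy
  exact ⟨h * g, (mul_smul _ _ _).symm⟩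

theorem Z_iff (h : H) (y : V) : O.Z (h • y) ↔ O.Z y := by
  refine ⟨fun k => ?_, O.Z_smul h⟩
  have := O.Z_smul h⁻¹ k
  rwa [inv_smul_smul] at this

/-- equality of cosets -/
theorem mk_eq {g g' : H} : ((g : H ⧸ O.D) = (g' : H ⧸ O.D)) ↔ g⁻¹ * g' ∈ O.D := QuotientGroup.eq

open Classical in
/-- the label of an in-arrow -/
noncomputable def e (n y : V) : O.W :=
  if h : O.Z y then
    (if h' : ∃ g : H, y = g • O.v ∧ g⁻¹ • n ∈ O.L then Sum.inr ((Classical.choose h' : H) : H ⧸ O.D)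
      else Sum.inr ((1 : H) : H ⧸ O.D))
  else Sum.inl ⟨y, h⟩

theorem e_inl {n y : V} (h : ¬ O.Z y) : O.e n y = Sum.inl ⟨y, h⟩ := by
  unfold e
  rw [dif_neg h]

theorem e_inr {n y : V} {g : H} (h1 : y = g • O.v) (h2 : g⁻¹ • n ∈ O.L) :
    O.e n y = Sum.inr (g : H ⧸ O.D) := by
  have h : O.Z y := ⟨g, h1⟩
  have h' : ∃ g : H, y = g • O.v ∧ g⁻¹ • n ∈ O.L := ⟨g, h1, h2⟩
  unfold e
  rw [dif_pos h, dif_pos h']
  obtain ⟨k1, k2⟩ := Classical.choose_spec h'
  set k := Classical.choose h' with hk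
  congr 1
  refine O.mk_eq.2 (O.Lst _ ?_ _ h2 ?_)
  · rw [mul_smul, ← h1, k1, inv_smul_smul]
  · rw [mul_smul, smul_inv_smul]
    exact k2

theorem exists_lab {n y : V} (h : K.ar n y) (hy : O.Z y) : ∃ g : H, y = g • O.v ∧ g⁻¹ • n ∈ O.L := by
  obtain ⟨g, rfl⟩ := hy
  have h1 := K.ar_smul g⁻¹ _ _ h
  rw [inv_smul_smul] at h1
  rcases O.Lcov _ h1 with h2 | h2
  · exact ⟨g, rfl, h2⟩
  · refine ⟨g * O.r, ?_, ?_⟩
    · rw [mul_smul, O.rv]
    · rw [mul_inv_rev, mul_smul]
      exact h2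

theorem π_e (n y : V) (h : K.ar n y) : O.π (O.e n y) = y := by
  by_cases hy : O.Z y
  · obtain ⟨g, h1, h2⟩ := O.exists_lab h hy
    rw [O.e_inr h1 h2, h1]
    rfl
  · rw [O.e_inl hy]
    rfl

theorem e_smul (h : H) (n y : V) (a : K.ar n y) : O.e (h • n) (h • y) = h • O.e n y := by
  by_cases hy : O.Z y
  · obtain ⟨g, h1, h2⟩ := O.exists_lab a hy
    rw [O.e_inr h1 h2, O.e_inr (n := h • n) (y := h • y) (g := h * g)]
    · rfl
    · rw [h1, mul_smul]
    · rw [mul_inv_rev, mul_smul, inv_smul_smul]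
      exact h2
  · rw [O.e_inl hy, O.e_inl (fun k => hy ((O.Z_iff h y).1 k))]
    rfl

theorem sur (x : V) : ∃ w, O.π w = x := by
  by_cases h : O.Z x
  · obtain ⟨g, rfl⟩ := h
    exact ⟨Sum.inr (g : H ⧸ O.D), rfl⟩
  · exact ⟨Sum.inl ⟨x, h⟩, rfl⟩

/-- two vertices over the same vertex are cosets -/
theorem two_over {x y : O.W} (h : O.π x = O.π y) (hne : x ≠ y) : ∃ g : H,
    x = Sum.inr (g : H ⧸ O.D) ∧ y = Sum.inr ((g * O.r : H) : H ⧸ O.D) := by
  rcases x with x | s <;> rcases y with y | t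
  · exact absurd (congrArg Sum.inl (Subtype.ext h)) hne
  · exfalso
    induction t using QuotientGroup.induction_on with
    | _ g => exact x.2 ⟨g, h⟩
  · exfalso
    induction s using QuotientGroup.induction_on with
    | _ g => exact y.2 ⟨g, h.symm⟩
  · induction s using QuotientGroup.induction_on with
    | _ g =>
      induction t using QuotientGroup.induction_on with
      | _ g' =>
        refine ⟨g, rfl, ?_⟩
        have h' : g • O.v = g' • O.v := h
        have h1 : (g⁻¹ * g') • O.v = O.v := by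
          rw [mul_smul, ← h', inv_smul_smul]
        rcases O.two _ h1 with k | k
        · exact absurd (congrArg Sum.inr (O.mk_eq.2 k)) hne
        · refine congrArg Sum.inr (O.mk_eq.2 ?_).symm
          rw [mul_inv_rev, mul_assoc]
          exact k

/-- the corner condition -/
theorem corE : CorE K O.e := by
  intro i j hl h1 h2
  by_cases hy : O.Z (K.vx i (j + 1))
  · obtain ⟨g, g1, g2⟩ := O.exists_lab h1 hy
    rw [O.e_inr g1 g2]
    have e1 : g⁻¹ • K.vx i (j + 1) = O.v := by rw [g1, inv_smul_smul]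
    have k1 := K.ar_smul g⁻¹ _ _ h1
    have k2 := K.ar_smul g⁻¹ _ _ h2
    rw [e1] at k1 k2
    exact (O.e_inr g1 (O.cor i j g⁻¹ hl e1 k1 k2 g2)).symm
  · rw [O.e_inl hy, O.e_inl hy]

theorem fin : FinOrb H (Set.univ : Set O.W) := by
  have h1 : FinOrb H (Set.range (fun x : ↥(cO H O.v) => (Sum.inl x : O.W))) := by
    refine FinOrb.of_inj (H' := H) K.fin O.π (fun _ _ => trivial) ?_
    rintro _ ⟨x, rfl⟩ _ ⟨y, rfl⟩ ⟨h, e⟩
    exact ⟨h, congrArg Sum.inl (Subtype.ext e)⟩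
  have h2 : FinOrb H (Set.range (fun s : H ⧸ O.D => (Sum.inr s : O.W))) := by
    refine Pool.Agent.SAF.FinOrb_iff.2 ⟨{Sum.inr ((1 : H) : H ⧸ O.D)}, Set.finite_singleton _, ?_, ?_⟩
    · rintro _ rfl
      exact ⟨_, rfl⟩
    · rintro _ ⟨s, rfl⟩
      induction s using QuotientGroup.induction_on with
      | _ g =>
        refine ⟨_, rfl, g, ?_⟩
        show (Sum.inr (g • ((1 : H) : H ⧸ O.D)) : O.W) = _
        congr 1
        show ((g * 1 : H) : H ⧸ O.D) = _
        rw [mul_one]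
  have un : ∀ (A B : Set O.W), FinOrb H A → FinOrb H B → FinOrb H (A ∪ B) := by
    intro A B hA hB
    have e : orbs H (A ∪ B) = orbs H A ∪ orbs H B := Set.image_union _ _ _
    unfold FinOrb
    rw [e]
    exact Set.Finite.union hA hB
  refine (un _ _ h1 h2).mono ?_
  rintro (x | s) -
  · exact Or.inl ⟨x, rfl⟩
  · exact Or.inr ⟨s, rfl⟩

theorem stab_le (x : O.W) : stabilizer H x ≤ stabilizer H (O.π x) := by
  intro h hh
  rw [mem_stabilizer_iff] at hh ⊢
  rw [← O.π_smul, hh]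

theorem stab (x : O.W) : InC ↥(stabilizer H x) :=
  Pool.Agent.BT.InC.of_injective (Subgroup.inclusion (O.stab_le x))
    (Subgroup.inclusion_injective _) (K.stab _)

/-- the opened complex; `ch` are the lifts at the direct corners -/
noncomputable def opn (ch : K.I → ℕ → O.W) (hch : ∀ i j, ch i (j + K.len i) = ch i j)
    (hπ : ∀ i j, O.π (ch i j) = K.vx i j) : OpW K O.W where
  π := O.π
  e := O.e
  π_smul := O.π_smul
  e_smul := O.e_smul
  π_e := O.π_e
  sur := O.sur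
  pole x y h hne := by
    obtain ⟨g, rfl, rfl⟩ := O.two_over h hne
    exact ⟨g • O.a, K.ar_smul g _ _ O.va⟩
  J := Unit
  finJ := inferInstance
  js _ := Sum.inr ((1 : H) : H ⧸ O.D)
  jt _ := Sum.inr (O.r : H ⧸ O.D)
  ja _ := O.a
  jb _ := O.b
  j_eq _ := by
    show O.r • O.v = (1 : H) • O.v
    rw [O.rv, one_smul]
  j_a _ := by
    show K.ar ((1 : H) • O.v) O.a
    rw [one_smul]
    exact O.va
  j_b _ := by
    show K.ar ((1 : H) • O.v) O.b
    rw [one_smul]
    exact O.vb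
  j_ab _ := O.ab
  cov x y h a b ha hb hab := by
    by_cases hne : x = y
    · rw [hne]
      exact Relation.EqvGen.refl _
    obtain ⟨g, rfl, rfl⟩ := O.two_over h hne
    refine Relation.EqvGen.rel _ _ ⟨(), g, ?_, rfl⟩
    show (Sum.inr ((g * 1 : H) : H ⧸ O.D) : O.W) = _
    rw [mul_one]
  lp := lpOf K O.e ch
  lp_len := lpOf_len hch
  π_lp := π_lpOf O.π_e hπ
  lp_E := lpOf_E O.corE
  fin := O.fin
  stab := O.stab

/-! ### the opening which keeps `v` without in-arrows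

The vertices over `v` are `v` itself, without in-arrows, and the cosets; the squares are `a, D, b, v`. -/

/-- the projection -/
def πp : V ⊕ (H ⧸ O.D) → V
  | Sum.inl x => x
  | Sum.inr s => O.q s

theorem πp_smul (h : H) (x : V ⊕ (H ⧸ O.D)) : O.πp (h • x) = h • O.πp x := by
  rcases x with x | s
  · rfl
  · exact O.q_smul h s

open Classical in
/-- the label of an in-arrow -/
noncomputable def ep (n y : V) : V ⊕ (H ⧸ O.D) :=
  if h' : ∃ g : H, y = g • O.v ∧ g⁻¹ • n ∈ O.L then Sum.inr ((Classical.choose h' : H) : H ⧸ O.D)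
  else Sum.inl y

theorem ep_inl {n y : V} (h : ¬ O.Z y) : O.ep n y = Sum.inl y := by
  unfold ep
  rw [dif_neg]
  rintro ⟨g, h1, -⟩
  exact h ⟨g, h1⟩

theorem ep_inr {n y : V} {g : H} (h1 : y = g • O.v) (h2 : g⁻¹ • n ∈ O.L) :
    O.ep n y = Sum.inr (g : H ⧸ O.D) := by
  have h' : ∃ g : H, y = g • O.v ∧ g⁻¹ • n ∈ O.L := ⟨g, h1, h2⟩
  unfold ep
  rw [dif_pos h']
  obtain ⟨k1, k2⟩ := Classical.choose_spec h'
  set k := Classical.choose h' with hk
  congr 1
  refine O.mk_eq.2 (O.Lst _ ?_ _ h2 ?_)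
  · rw [mul_smul, ← h1, k1, inv_smul_smul]
  · rw [mul_smul, smul_inv_smul]
    exact k2

theorem πp_ep (n y : V) (h : K.ar n y) : O.πp (O.ep n y) = y := by
  by_cases hy : O.Z y
  · obtain ⟨g, h1, h2⟩ := O.exists_lab h hy
    rw [O.ep_inr h1 h2, h1]
    rfl
  · rw [O.ep_inl hy]
    rfl

theorem ep_smul (h : H) (n y : V) (a : K.ar n y) : O.ep (h • n) (h • y) = h • O.ep n y := by
  by_cases hy : O.Z y
  · obtain ⟨g, h1, h2⟩ := O.exists_lab a hy
    rw [O.ep_inr h1 h2, O.ep_inr (n := h • n) (y := h • y) (g := h * g)]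
    · rfl
    · rw [h1, mul_smul]
    · rw [mul_inv_rev, mul_smul, inv_smul_smul]
      exact h2
  · rw [O.ep_inl hy, O.ep_inl (fun k => hy ((O.Z_iff h y).1 k))]
    rfl

/-- every coset is joined to the vertex below -/
theorem sq_q (s : H ⧸ O.D) : ∃ h : H, h • (Sum.inr ((1 : H) : H ⧸ O.D) : V ⊕ (H ⧸ O.D)) = Sum.inr s ∧
    h • (Sum.inl O.v : V ⊕ (H ⧸ O.D)) = Sum.inl (O.q s) := by
  induction s using QuotientGroup.induction_on with
  | _ g =>
    refine ⟨g, ?_, rfl⟩
    show (Sum.inr ((g * 1 : H) : H ⧸ O.D) : V ⊕ (H ⧸ O.D)) = _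
    rw [mul_one]

/-- the corner condition -/
theorem corEp : CorE K O.ep := by
  intro i j hl h1 h2
  by_cases hy : O.Z (K.vx i (j + 1))
  · obtain ⟨g, g1, g2⟩ := O.exists_lab h1 hy
    rw [O.ep_inr g1 g2]
    have e1 : g⁻¹ • K.vx i (j + 1) = O.v := by rw [g1, inv_smul_smul]
    have k1 := K.ar_smul g⁻¹ _ _ h1
    have k2 := K.ar_smul g⁻¹ _ _ h2
    rw [e1] at k1 k2
    exact (O.ep_inr g1 (O.cor i j g⁻¹ hl e1 k1 k2 g2)).symm
  · rw [O.ep_inl hy, O.ep_inl hy]

theorem finp : FinOrb H (Set.univ : Set (V ⊕ (H ⧸ O.D))) := by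
  have h1 : FinOrb H (Set.range (fun x : V => (Sum.inl x : V ⊕ (H ⧸ O.D)))) := by
    refine FinOrb.of_inj (H' := H) K.fin O.πp (fun _ _ => trivial) ?_
    rintro _ ⟨x, rfl⟩ _ ⟨y, rfl⟩ ⟨h, e⟩
    exact ⟨h, congrArg Sum.inl e⟩
  have h2 : FinOrb H (Set.range (fun s : H ⧸ O.D => (Sum.inr s : V ⊕ (H ⧸ O.D)))) := by
    refine Pool.Agent.SAF.FinOrb_iff.2 ⟨{Sum.inr ((1 : H) : H ⧸ O.D)}, Set.finite_singleton _, ?_, ?_⟩
    · rintro _ rfl
      exact ⟨_, rfl⟩
    · rintro _ ⟨s, rfl⟩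
      obtain ⟨h, h1, -⟩ := O.sq_q s
      exact ⟨_, rfl, h, h1⟩
  have un : ∀ (A B : Set (V ⊕ (H ⧸ O.D))), FinOrb H A → FinOrb H B → FinOrb H (A ∪ B) := by
    intro A B hA hB
    have e : orbs H (A ∪ B) = orbs H A ∪ orbs H B := Set.image_union _ _ _
    unfold FinOrb
    rw [e]
    exact Set.Finite.union hA hB
  refine (un _ _ h1 h2).mono ?_
  rintro (x | s) -
  · exact Or.inl ⟨x, rfl⟩
  · exact Or.inr ⟨s, rfl⟩

theorem stab_lep (x : V ⊕ (H ⧸ O.D)) : stabilizer H x ≤ stabilizer H (O.πp x) := by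
  intro h hh
  rw [mem_stabilizer_iff] at hh ⊢
  rw [← O.πp_smul, hh]

/-- THE OPENED COMPLEX `K⁺`: `v` is kept, without in-arrows -/
noncomputable def opp (ch : K.I → ℕ → V ⊕ (H ⧸ O.D)) (hch : ∀ i j, ch i (j + K.len i) = ch i j)
    (hπ : ∀ i j, O.πp (ch i j) = K.vx i j) : OpW K (V ⊕ (H ⧸ O.D)) where
  π := O.πp
  e := O.ep
  π_smul := O.πp_smul
  e_smul := O.ep_smul
  π_e := O.πp_ep
  sur x := ⟨Sum.inl x, rfl⟩
  pole x y h hne := by
    have key : ∀ s : H ⧸ O.D, ∃ a, K.ar (O.q s) a := by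
      intro s
      induction s using QuotientGroup.induction_on with
      | _ g => exact ⟨g • O.a, K.ar_smul g _ _ O.va⟩
    rcases x with x | s
    · rcases y with y | t
      · exact absurd (congrArg Sum.inl h) hne
      · rw [h]
        exact key t
    · exact key s
  J := Unit
  finJ := inferInstance
  js _ := Sum.inr ((1 : H) : H ⧸ O.D)
  jt _ := Sum.inl O.v
  ja _ := O.a
  jb _ := O.b
  j_eq _ := by
    show O.v = (1 : H) • O.v
    rw [one_smul]
  j_a _ := by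
    show K.ar ((1 : H) • O.v) O.a
    rw [one_smul]
    exact O.va
  j_b _ := by
    show K.ar ((1 : H) • O.v) O.b
    rw [one_smul]
    exact O.vb
  j_ab _ := O.ab
  cov x y h a b ha hb hab := by
    have key : ∀ x : V ⊕ (H ⧸ O.D), Relation.EqvGen (fun x y => ∃ (_ : Unit) (h : H),
        h • (Sum.inr ((1 : H) : H ⧸ O.D) : V ⊕ (H ⧸ O.D)) = x ∧
        h • (Sum.inl O.v : V ⊕ (H ⧸ O.D)) = y) x (Sum.inl (O.πp x)) := by
      intro x
      rcases x with x | s
      · exact Relation.EqvGen.refl _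
      · obtain ⟨h, h1, h2⟩ := O.sq_q s
        exact Relation.EqvGen.rel _ _ ⟨(), h, h1, h2⟩
    have k1 := key x
    have k2 := key y
    rw [← h] at k2
    exact k1.trans _ _ _ k2.symm
  lp := lpOf K O.ep ch
  lp_len := lpOf_len hch
  π_lp := π_lpOf O.πp_ep hπ
  lp_E := lpOf_E O.corEp
  fin := O.finp
  stab x := Pool.Agent.BT.InC.of_injective (Subgroup.inclusion (O.stab_lep x))
    (Subgroup.inclusion_injective _) (K.stab _)

end OpD

end Pool.Agent.DI
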