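import Pool.Agent.DI.Zc
import Pool.Agent.DI.GXAdd

/-!
# DI/Zs: families of open squares with a common path

`ZS P`: the cells which are no pentagons are squares `s, n i, b, u` with `n i → s → u`, `n i → b`, the
edge `b u` in any direction. `Z.qt`: the quotient `g • n i ~ g • u`, in which the squares disappear.
`hair`: in a minimal complex of pentagons no pentagon passes an edge `x → c`, if `c` is the only
out-neighbour of `x`.
-/

namespace Pool.Agent.DI

open MulAction
open Pool.Agent.SAF (InC orbs FinOrb oc)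
open Pool.Agent.BT (lz lz_self lz_ne lz_symm)

variable {H V : Type} [Group H] [MulAction H V]

/-- open squares -/
structure ZS {K : GX H V} (P : PG K) where
  s : V
  u : V
  b : V
  n : K.I → V
  cb0 : ∀ i, ¬ P.five i → K.cb i = s
  cw0 : ∀ i, ¬ P.five i → K.cw i = [n i, b, u, s]
  hns : ∀ i, ¬ P.five i → K.ar (n i) s
  hnb : ∀ i, ¬ P.five i → K.ar (n i) b
  hsu : K.ar s u
  hbu : K.E b u
  sb : s ≠ b
  fix : ∀ i j (g : H), ¬ P.five i → ¬ P.five j → g • n i = n j → g • u = u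

namespace ZS

variable {K : GX H V} {P : PG K} (Z : ZS P)

theorem rk1 : K.rk Z.u < K.rk Z.s := K.ar_rk _ _ Z.hsu

theorem rk2 {i : K.I} (hi : ¬ P.five i) : K.rk Z.s < K.rk (Z.n i) := K.ar_rk _ _ (Z.hns i hi)

theorem rkb {i : K.I} (hi : ¬ P.five i) : K.rk Z.b < K.rk (Z.n i) := K.ar_rk _ _ (Z.hnb i hi)

/-- the out-neighbours of the translates of `n i` -/
theorem n_out {i : K.I} (hi : ¬ P.five i) {g : H} {x : V} (h : K.ar (g • Z.n i) x) :
    x = g • Z.s ∨ x = g • Z.b := by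
  rcases K.two _ _ _ _ h (K.ar_smul g _ _ (Z.hns i hi)) (K.ar_smul g _ _ (Z.hnb i hi)) with
    e | e | e
  · exact Or.inl e
  · exact absurd (smul_left_cancel g e) Z.sb
  · exact Or.inr e

/-- the vertices which are no translates of `n i` -/
def W : SubMulAction H V where
  carrier := {x | ∀ (i : K.I) (g : H), ¬ P.five i → g • Z.n i ≠ x}
  smul_mem' := by
    intro c x hx i g hi e
    exact hx i (c⁻¹ * g) hi (by rw [mul_smul, e, inv_smul_smul])

theorem not_W {i : K.I} (hi : ¬ P.five i) {g : H} : ¬ g • Z.n i ∈ Z.W := fun h => h i g hi rfl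

theorem W_of_rk {x : V} (h : K.rk x ≤ K.rk Z.s) : x ∈ Z.W := by
  intro i g hi e
  rw [← e, K.rk_smul] at h
  have := Z.rk2 hi
  omega

open Classical in
/-- the translates of `n i` go to the translates of `u` -/
noncomputable def f0 (x : V) : V :=
  if h : ∃ p : K.I × H, ¬ P.five p.1 ∧ p.2 • Z.n p.1 = x then (Classical.choose h).2 • Z.u else x

theorem f0_n {i : K.I} (hi : ¬ P.five i) (g : H) : Z.f0 (g • Z.n i) = g • Z.u := by
  have h : ∃ p : K.I × H, ¬ P.five p.1 ∧ p.2 • Z.n p.1 = g • Z.n i := ⟨(i, g), hi, rfl⟩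
  unfold f0
  rw [dif_pos h]
  obtain ⟨e1, e⟩ := Classical.choose_spec h
  set p := Classical.choose h
  have e2 : (g⁻¹ * p.2) • Z.n p.1 = Z.n i := by rw [mul_smul, e, inv_smul_smul]
  have e3 := Z.fix _ _ _ e1 hi e2
  rw [mul_smul, inv_smul_eq_iff] at e3
  exact e3

theorem f0_W {x : V} (h : x ∈ Z.W) : Z.f0 x = x := by
  have h' : ¬ ∃ p : K.I × H, ¬ P.five p.1 ∧ p.2 • Z.n p.1 = x := fun ⟨p, e1, e⟩ => h p.1 p.2 e1 e
  unfold f0
  rw [dif_neg h']

theorem cases (x : V) : x ∈ Z.W ∨ ∃ (i : K.I) (g : H), ¬ P.five i ∧ x = g • Z.n i := by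
  by_cases h : ∃ p : K.I × H, ¬ P.five p.1 ∧ p.2 • Z.n p.1 = x
  · obtain ⟨p, h1, h2⟩ := h
    exact Or.inr ⟨p.1, p.2, h1, h2.symm⟩
  · exact Or.inl fun i g hi e => h ⟨(i, g), hi, e⟩

theorem rk_f0 (x : V) : K.rk (Z.f0 x) ≤ K.rk x := by
  rcases Z.cases x with h | ⟨i, g, hi, rfl⟩
  · rw [Z.f0_W h]
  · rw [Z.f0_n hi, K.rk_smul, K.rk_smul]
    have := Z.rk1
    have := Z.rk2 hi
    omega

theorem s_W : Z.s ∈ Z.W := Z.W_of_rk le_rfl

theorem u_W : Z.u ∈ Z.W := Z.W_of_rk Z.rk1.le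

theorem f0_mem (x : V) : Z.f0 x ∈ Z.W := by
  rcases Z.cases x with h | ⟨i, g, hi, rfl⟩
  · rw [Z.f0_W h]
    exact h
  · rw [Z.f0_n hi]
    exact Z.W.smul_mem g Z.u_W

theorem f0_smul (h : H) (x : V) : Z.f0 (h • x) = h • Z.f0 x := by
  rcases Z.cases x with hx | ⟨i, g, hi, rfl⟩
  · rw [Z.f0_W hx, Z.f0_W (Z.W.smul_mem h hx)]
  · rw [← mul_smul, Z.f0_n hi, Z.f0_n hi, mul_smul]

/-- the quotient map -/
noncomputable def f (x : V) : Z.W := ⟨Z.f0 x, Z.f0_mem x⟩

theorem f_coe (x : V) : (Z.f x : V) = Z.f0 x := rfl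

theorem f_W (x : Z.W) : Z.f x = x := Subtype.ext (Z.f0_W x.2)

theorem f_eq_iff {x y : V} : Z.f x = Z.f y ↔ Z.f0 x = Z.f0 y :=
  ⟨fun e => congrArg Subtype.val e, fun e => Subtype.ext e⟩

theorem f_smul (h : H) (x : V) : Z.f (h • x) = h • Z.f x := Subtype.ext (Z.f0_smul h x)

/-- the new arrows -/
def ar' (c d : Z.W) : Prop := ∃ z, K.ar (c : V) z ∧ Z.f z = d

theorem f_n {i : K.I} (hi : ¬ P.five i) (g : H) : Z.f (g • Z.n i) = Z.f (g • Z.u) := by
  rw [f_eq_iff, Z.f0_n hi, Z.f0_W (Z.W.smul_mem g Z.u_W)]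

/-- arrows between vertices which are no translates of `n i` -/
theorem ar'_of {x y : V} (hx : x ∈ Z.W) (h : K.ar x y) : Z.ar' (Z.f x) (Z.f y) := by
  refine ⟨y, ?_, rfl⟩
  rw [f_coe, Z.f0_W hx]
  exact h

/-- old arrows -/
theorem ar_f {x y : V} (h : K.ar x y) : Z.ar' (Z.f x) (Z.f y) ∨ Z.ar' (Z.f y) (Z.f x) := by
  rcases Z.cases x with hx | ⟨i, g, hi, rfl⟩
  · exact Or.inl (Z.ar'_of hx h)
  · rw [Z.f_n hi]
    rcases Z.n_out hi h with rfl | rfl
    · exact Or.inr (Z.ar'_of (Z.W.smul_mem g Z.s_W) (K.ar_smul g _ _ Z.hsu))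
    · rcases Z.hbu with e | e
      · refine Or.inr (Z.ar'_of (Z.W.smul_mem g ?_) (K.ar_smul g _ _ e))
        intro j k hj e'
        -- `b` is no translate of `n j`
        have r1 := K.ar_rk _ _ (Z.hnb i hi)
        have r2 := K.ar_rk _ _ (K.ar_smul k _ _ (Z.hns j hj))
        have r3 := K.ar_rk _ _ (K.ar_smul k _ _ (Z.hnb j hj))
        rcases Z.n_out hj (g := k) (x := Z.u) (by rw [e']; exact e) with e2 | e2
        · have := congrArg K.rk e2
          rw [K.rk_smul] at this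
          have := Z.rk1
          omega
        · have e3 := congrArg K.rk e2
          rw [K.rk_smul] at e3
          have e4 := K.ar_rk _ _ e
          omega
      · exact Or.inl (Z.ar'_of (Z.W.smul_mem g Z.u_W) (K.ar_smul g _ _ e))

/-- the quotient -/
noncomputable def qt : Qt K Z.f where
  ar := Z.ar'
  rk c := K.rk c
  equi := Z.f_smul
  surj c := ⟨c, Z.f_W c⟩
  ar_rk := by
    rintro c d ⟨z, hz, rfl⟩
    exact lt_of_le_of_lt (Z.rk_f0 z) (K.ar_rk _ _ hz)
  ar_smul := by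
    rintro h c d ⟨z, hz, rfl⟩
    exact ⟨h • z, K.ar_smul h _ _ hz, Z.f_smul h z⟩
  rk_smul h c := K.rk_smul h c
  two := by
    rintro v a b c ⟨z, hz, rfl⟩ ⟨z', hz', rfl⟩ ⟨z'', hz'', rfl⟩
    rcases K.two _ _ _ _ hz hz' hz'' with e | e | e
    · exact Or.inl (by rw [e])
    · exact Or.inr (Or.inl (by rw [e]))
    · exact Or.inr (Or.inr (by rw [e]))
  e1 := by
    rintro x y (h | h)
    · exact Or.inr (Z.ar_f h)
    · exact Or.inr (Z.ar_f h).symm
  e2 := by
    rintro c d ⟨z, hz, rfl⟩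
    exact ⟨c, z, Or.inl hz, Z.f_W c, rfl⟩
  mg := by
    have key : ∀ x, BT.Mg K.hg Z.f x (Z.f0 x) := by
      intro x
      rcases Z.cases x with hx | ⟨i, g, hi, rfl⟩
      · rw [Z.f0_W hx]
        exact BT.Mg.refl x
      · rw [Z.f0_n hi]
        exact BT.Mg.nb _ _ (g • Z.s) (g • Z.s) (Z.f_n hi g) (BT.Mg.refl _)
          (Or.inr (K.ar_smul g _ _ (Z.hns i hi))) (Or.inl (K.ar_smul g _ _ Z.hsu))
    intro x y e
    have e' := Z.f_eq_iff.1 e
    refine BT.Mg.trans _ _ _ (key x) ?_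
    rw [e']
    exact BT.Mg.symm _ _ (key y)
  stab v := by
    have e : stabilizer H v = stabilizer H (v : V) := by
      ext g
      rw [mem_stabilizer_iff, mem_stabilizer_iff]
      exact ⟨fun k => congrArg Subtype.val k, fun k => Subtype.ext k⟩
    rw [e]
    exact K.stab v
  J := {i : K.I // P.five i}
  finJ := by
    have := K.finI
    infer_instance
  ι := Subtype.val
  drop := by
    intro i hi φ hs
    have e : ¬ P.five i := fun k => hi ⟨i, k⟩ rfl
    rw [Z.cb0 i e, Z.cw0 i e]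
    simp only [List.map_cons, List.map_nil, ps_cons, ps_nil, add_zero]
    have e1 : Z.f (Z.n i) = Z.f Z.u := by
      have k := Z.f_n e 1
      rwa [one_smul, one_smul] at k
    rw [e1, lz_symm φ hs (Z.f Z.u) (Z.f Z.b), lz_symm φ hs (Z.f Z.u) (Z.f Z.s)]
    have k1 := add_self_two (lz φ (Z.f Z.s) (Z.f Z.u))
    have k2 := add_self_two (lz φ (Z.f Z.b) (Z.f Z.u))
    linear_combination k1 + k2

/-- the kept cells are pentagons -/
def q5 : Q5 Z.qt where
  p j := P.pt j.1
  inj := Subtype.val_injective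
  cb_eq j := P.cb_eq _ j.2
  cw_eq j := P.cw_eq _ j.2
  short := by
    intro i hi
    have e : ¬ P.five i := fun k => hi ⟨i, k⟩ rfl
    rw [Z.cw0 i e]
    exact le_rfl

/-- translates of pentagons lift -/
theorem lift (hm : K.Min) {c : Fin 5 → Z.W} {i : Z.qt.gx.I} (a : (Z.q5.pt hm).At c i) :
    ∃ d : Fin 5 → V, P.At d i.1 ∧ ∀ j, c j = Z.f (d j) := by
  obtain ⟨h, k, a | a⟩ := a
  · refine ⟨fun j => h • P.pt i.1 (k + j), ⟨i.2, h, k, Or.inl fun _ => rfl⟩, fun j => ?_⟩
    rw [a, Z.f_smul]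
    rfl
  · refine ⟨fun j => h • P.pt i.1 (k - j), ⟨i.2, h, k, Or.inr fun _ => rfl⟩, fun j => ?_⟩
    rw [a, Z.f_smul]
    rfl

/-- and conversely -/
theorem desc (hm : K.Min) {d : Fin 5 → V} {i : K.I} (a : P.At d i) :
    ∃ i' : Z.qt.gx.I, (Z.q5.pt hm).At (fun j => Z.f (d j)) i' := by
  obtain ⟨hi, h, k, a⟩ := a
  refine ⟨⟨i, hi⟩, h, k, ?_⟩
  rcases a with a | a
  · left
    intro j
    show Z.f (d j) = _
    rw [a, Z.f_smul]
    rfl
  · right
    intro j
    show Z.f (d j) = _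
    rw [a, Z.f_smul]
    rfl

/-- no backtracks in the quotient -/
theorem ne2 (hm : K.Min) {d : Fin 5 → V} {i : K.I} (a : P.At d i) (j : Fin 5) :
    Z.f (d j) ≠ Z.f (d (j + 2)) := by
  obtain ⟨i', a'⟩ := Z.desc hm a
  exact a'.ne2 (Z.q5.min hm) j

/-- a vertex over a vertex of larger rank than `u` -/
theorem eq_of_f {x : V} {c : Z.W} (h : Z.f x = c) (hr : K.rk Z.u ≠ K.rk (c : V)) : x = c := by
  rcases Z.cases x with hx | ⟨i, g, hi, rfl⟩
  · rw [← h, f_coe, Z.f0_W hx]
  · exfalso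
    rw [← h, f_coe, Z.f0_n hi, K.rk_smul] at hr
    exact hr rfl

open Classical in
/-- sums over the pentagons -/
theorem sum_five (g : K.I → ℤ) :
    ∑ i : Z.qt.gx.I, g i.1 = ∑ i : K.I, if P.five i then g i else 0 := by
  rw [← Finset.sum_filter]
  symm
  refine Finset.sum_bij' (fun i hi => (⟨i, ?_⟩ : Z.qt.gx.I)) (fun i _ => i.1) ?_ ?_ ?_ ?_ ?_
  · exact (Finset.mem_filter.1 hi).2
  · intro i _
    exact Finset.mem_univ _
  · intro i _
    exact Finset.mem_filter.2 ⟨Finset.mem_univ _, i.2⟩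
  · intro i _
    rfl
  · intro i _
    rfl
  · intro i _
    rfl

/-- the squares -/
theorem isSq {i : K.I} (hi : ¬ P.five i) : IsSq K i ![Z.s, Z.n i, Z.b, Z.u] where
  cb_eq := Z.cb0 i hi
  cw_eq := Z.cw0 i hi
  ne0 := Z.sb
  ne1 := by
    intro e
    have h1 := Z.rk1
    have h2 := Z.rk2 hi
    have e : Z.n i = Z.u := e
    rw [e] at h2
    omega

end ZS

/-! ### hairs -/

section Hair

variable {K : GX H V} {x c : V}

/-- a fold of a minimal complex of pentagons makes no stutters -/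
theorem Pt.no_stutter (P : Pt K) (hm : K.Min) (F : Fo K) (i : K.I) (j : Fin 5) :
    F.f (P.pt i j) ≠ F.f (P.pt i (j + 1)) := by
  have h1 := hm V F.gx
  rw [P.area_eq, F.gx_area] at h1
  have h2 : stn F.f (K.cb i) (K.cw i) = 0 := by
    by_contra hne
    have h3 : ∑ i : K.I, ((K.cw i).length - stn F.f (K.cb i) (K.cw i) - 4) < ∑ _i : K.I, 1 := by
      apply Finset.sum_lt_sum
      · intro j _
        rw [P.cw_eq j]
        show 5 - _ - 4 ≤ 1
        omega
      · refine ⟨i, Finset.mem_univ _, ?_⟩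
        have h3 : (K.cw i).length = 5 := by
          rw [P.cw_eq]
          rfl
        omega
    rw [Finset.sum_const, Finset.card_univ, smul_eq_mul, mul_one] at h3
    omega
  rw [P.cb_eq, P.cw_eq] at h2
  have key : ∀ (x y : V) (l : List V), stn F.f x (y :: l) = 0 → F.f x ≠ F.f y ∧ stn F.f y l = 0 := by
    intro x y l h
    by_cases e : F.f y = F.f x
    · rw [stn_cons_eq e] at h
      omega
    · rw [stn_cons_ne e] at h
      exact ⟨fun k => e k.symm, h⟩
  obtain ⟨h0, h⟩ := key _ _ _ h2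
  obtain ⟨h1, h⟩ := key _ _ _ h
  obtain ⟨h2, h⟩ := key _ _ _ h
  obtain ⟨h3, h⟩ := key _ _ _ h
  obtain ⟨h4, -⟩ := key _ _ _ h
  fin_cases j
  · exact h0
  · exact h1
  · exact h2
  · exact h3
  · exact h4

theorem Pt.At.no_stutter {P : Pt K} (hm : K.Min) (F : Fo K) {d : Fin 5 → V} {i : K.I}
    (a : P.At d i) (j : Fin 5) : F.f (d j) ≠ F.f (d (j + 1)) := by
  obtain ⟨h, k, a | a⟩ := a
  · rw [a, a, F.f_smul, F.f_smul, ← add_assoc]
    exact fun e => P.no_stutter hm F i _ (smul_left_cancel h e)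
  · rw [a, a, F.f_smul, F.f_smul]
    have := (P.no_stutter hm F i (k - (j + 1))).symm
    rw [f5_3] at this
    exact fun e => this (smul_left_cancel h e)

open Classical in
/-- the translates of `x` go to the translates of `c` -/
noncomputable def hf (H : Type) {V : Type} [Group H] [MulAction H V] (x c y : V) : V :=
  if k : ∃ g : H, g • x = y then (Classical.choose k) • c else y

theorem hf_x (key : ∀ g : H, g • x = x → g • c = c) (g : H) : hf H x c (g • x) = g • c := by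
  have k : ∃ g' : H, g' • x = g • x := ⟨g, rfl⟩
  unfold hf
  rw [dif_pos k]
  have e := Classical.choose_spec k
  set g' := Classical.choose k
  have e1 : (g⁻¹ * g') • x = x := by rw [mul_smul, e, inv_smul_smul]
  have e2 := key _ e1
  rw [mul_smul, inv_smul_eq_iff] at e2
  exact e2

theorem hf_not {y : V} (h : ¬ ∃ g : H, g • x = y) : hf H x c y = y := by
  unfold hf
  rw [dif_neg h]

/-- the fold of a hair -/
noncomputable def hairFo (hc : K.ar x c) (h : ∀ d, K.ar x d → d = c) : Fo K :=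
  have key : ∀ g : H, g • x = x → g • c = c := by
    intro g e
    have := K.ar_smul g _ _ hc
    rw [e] at this
    exact h _ this
  have hcx : ∀ g : H, ¬ ∃ g' : H, g' • x = g • c := by
    rintro g ⟨g', e⟩
    have := congrArg K.rk e
    rw [K.rk_smul, K.rk_smul] at this
    have := K.ar_rk _ _ hc
    omega
  have dic : ∀ y, (∃ g : H, y = g • x) ∨ ¬ ∃ g : H, g • x = y := by
    intro y
    by_cases k : ∃ g : H, g • x = y
    · obtain ⟨g, k⟩ := k
      exact Or.inl ⟨g, k.symm⟩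
    · exact Or.inr k
  { f := hf H x c
    f_smul := by
      intro g y
      rcases dic y with ⟨k, rfl⟩ | k
      · rw [← mul_smul, hf_x key, hf_x key, mul_smul]
      · rw [hf_not k, hf_not]
        rintro ⟨g', e⟩
        exact k ⟨g⁻¹ * g', by rw [mul_smul, e, inv_smul_smul]⟩
    idem := by
      intro y
      rcases dic y with ⟨k, rfl⟩ | k
      · rw [hf_x key, hf_not (hcx k)]
      · rw [hf_not k, hf_not k]
    f_ar := by
      intro y hy
      rcases dic y with ⟨k, rfl⟩ | k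
      · rw [hf_x key]
        exact K.ar_smul k _ _ hc
      · exact absurd (hf_not k) hy
    adj := by
      intro y z e
      rcases dic y with ⟨k, rfl⟩ | k
      · left
        have e' : z = k • c := by
          have := K.ar_smul k⁻¹ _ _ e
          rw [inv_smul_smul] at this
          rw [← h _ this, smul_inv_smul]
        rw [hf_x key, e', hf_not (hcx k)]
      · right
        left
        rw [hf_not k]
        exact Or.inl ⟨hf_not k, z, e, rfl⟩ }

/-- HAIRS: no pentagon of a minimal complex passes the edge `x → c`, `c` the only out-neighbour of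
`x` -/
theorem Pt.At.hair {P : Pt K} (hm : K.Min) (hc : K.ar x c) (h : ∀ d, K.ar x d → d = c)
    {d : Fin 5 → V} {i : K.I} (a : P.At d i) (j : Fin 5) (e0 : d j = x) (e1 : d (j + 1) = c) :
    False := by
  refine a.no_stutter hm (hairFo hc h) j ?_
  rw [e0, e1]
  have key : ∀ g : H, g • x = x → g • c = c := by
    intro g e
    have := K.ar_smul g _ _ hc
    rw [e] at this
    exact h _ this
  have hcx : ¬ ∃ g' : H, g' • x = c := by
    rintro ⟨g', e⟩
    have := congrArg K.rk e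
    rw [K.rk_smul] at this
    have := K.ar_rk _ _ hc
    omega
  have k1 := hf_x key 1
  rw [one_smul, one_smul] at k1
  show hf H x c x = hf H x c c
  rw [k1, hf_not hcx]

/-- the same in the other direction -/
theorem Pt.At.hair' {P : Pt K} (hm : K.Min) (hc : K.ar x c) (h : ∀ d, K.ar x d → d = c)
    {d : Fin 5 → V} {i : K.I} (a : P.At d i) (j : Fin 5) (e0 : d j = c) (e1 : d (j + 1) = x) :
    False := by
  refine (a.refl (j + 1)).hair hm hc h 0 ?_ ?_
  · show d (j + 1 - 0) = x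
    rw [sub_zero]
    exact e1
  · show d (j + 1 - (0 + 1)) = c
    rw [zero_add, add_sub_cancel_right]
    exact e0

end Hair

end Pool.Agent.DI
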