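import Pool.Agent.DI.QKF
import Pool.Agent.DI.QK0P
import Pool.Agent.DI.QKMin
import Pool.Agent.DI.Zs

/-!
# Thin edges of the pentagons, the number `phi`

`P.A5 h i j x y`: the translate by `h` of the edge `j, j + 1` of the pentagon `i` is `{x, y}`. `P.Th i j`:
no other position of a cell has a translate along the edge `j` of the pentagon `i`. `Dr K y a`: the elements
which fix `y` and `a` fix the poles of `a`. `P.phi`: the number of the positions with `Th` and `DrE`.
`Al S w y a b c d`: the arrow `y → a` is thin and direct, `y a b c d` is its pentagon, centred at `w`.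
`P.hair`: in a minimal complex no pentagon passes the edge of a vertex with one pole.
-/

namespace Pool.Agent.DI

open MulAction
open Pool.Agent.SAF (InC orbs FinOrb oc Decomp SAn SA Conv hull dist_edge FinOrb_iff exists_next)
open Pool.Agent.BT (PX PQ JS bey exits x_next_unique)
open Pool.Agent.BT.TA

section

variable {H V : Type} [Group H] [MulAction H V] {K : GX H V}

/-! ### hairs -/

namespace P45

variable (P : P45 K)

/-- a fold of a minimal complex makes no stutters in pentagons -/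
theorem no_stutter (hm : K.Min) (F : Fo K) {i : K.I} (hi : ¬ P.sq i) (j : Fin 5) :
    F.f (P.pt i j) ≠ F.f (P.pt i (j + 1)) := by
  classical
  have := K.finI
  let := Fintype.ofFinite K.I
  have h1 := hm V F.gx
  rw [K.area_eq, F.gx_area] at h1
  have h2 : stn F.f (K.cb i) (K.cw i) = 0 := by
    by_contra hne
    have h3 : ∑ i : K.I, ((K.cw i).length - stn F.f (K.cb i) (K.cw i) - 4) <
        ∑ i : K.I, ((K.cw i).length - 4) := by
      apply Finset.sum_lt_sum
      · intro j _
        omega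
      · refine ⟨i, Finset.mem_univ _, ?_⟩
        have h3 : (K.cw i).length = 5 := by
          rw [P.cw5 i hi]
          rfl
        omega
    omega
  rw [P.cb5 i hi, P.cw5 i hi] at h2
  have key : ∀ (x y : V) (l : List V), stn F.f x (y :: l) = 0 → F.f x ≠ F.f y ∧ stn F.f y l = 0 := by
    intro x y l h
    by_cases e : F.f y = F.f x
    · rw [stn_cons_eq e] at h
      omega
    · rw [stn_cons_ne e] at h
      exact ⟨fun k => e k.symm, h⟩
  obtain ⟨h0, h⟩ := key _ _ _ h2
  obtain ⟨h1, h⟩ := key _ _ _ h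
  obtain ⟨h2, h⟩ := key _ _ _ h
  obtain ⟨h3, h⟩ := key _ _ _ h
  obtain ⟨h4, -⟩ := key _ _ _ h
  fin_cases j
  · exact h0
  · exact h1
  · exact h2
  · exact h3
  · exact h4

/-- the translate by `h` of the edge `j, j + 1` of the pentagon `i` is `{x, y}` -/
def A5 (h : H) (i : K.I) (j : Fin 5) (x y : V) : Prop :=
  (h • P.pt i j = x ∧ h • P.pt i (j + 1) = y) ∨ (h • P.pt i j = y ∧ h • P.pt i (j + 1) = x)

/-- the translate by `h` of the edge `j, j + 1` of the square `i` is `{x, y}` -/
def A4 (h : H) (i : K.I) (j : Fin 4) (x y : V) : Prop :=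
  (h • P.qt i j = x ∧ h • P.qt i (j + 1) = y) ∨ (h • P.qt i j = y ∧ h • P.qt i (j + 1) = x)

/-- no pentagon of a minimal complex passes the edge of a vertex with one pole -/
theorem hair (hm : K.Min) {x c : V} (hc : K.ar x c) (h : ∀ d, K.ar x d → d = c) {g : H} {i : K.I}
    (hi : ¬ P.sq i) {j : Fin 5} (ha : P.A5 g i j x c) : False := by
  have key : ∀ g : H, g • x = x → g • c = c := by
    intro g e
    have := K.ar_smul g _ _ hc
    rw [e] at this
    exact h _ this
  have hcx : ¬ ∃ g' : H, g' • x = c := by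
    rintro ⟨g', e⟩
    have := congrArg K.rk e
    rw [K.rk_smul] at this
    have := K.ar_rk _ _ hc
    omega
  have k1 := hf_x key 1
  rw [one_smul, one_smul] at k1
  have k2 : (hairFo hc h).f x = (hairFo hc h).f c := by
    show hf H x c x = hf H x c c
    rw [k1, hf_not hcx]
  have k3 := P.no_stutter hm (hairFo hc h) hi j
  have k4 : (hairFo hc h).f (g • P.pt i j) = (hairFo hc h).f (g • P.pt i (j + 1)) := by
    rcases ha with ⟨e1, e2⟩ | ⟨e1, e2⟩
    · rw [e1, e2, k2]
    · rw [e1, e2, k2]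
  rw [(hairFo hc h).f_smul, (hairFo hc h).f_smul] at k4
  exact k3 (smul_left_cancel g k4)

variable {P}

theorem A5.smul (g : H) {h : H} {i : K.I} {j : Fin 5} {x y : V} (k : P.A5 h i j x y) :
    P.A5 (g * h) i j (g • x) (g • y) := by
  rcases k with ⟨rfl, rfl⟩ | ⟨rfl, rfl⟩
  · exact Or.inl ⟨mul_smul _ _ _, mul_smul _ _ _⟩
  · exact Or.inr ⟨mul_smul _ _ _, mul_smul _ _ _⟩

theorem A5.swap {h : H} {i : K.I} {j : Fin 5} {x y : V} (k : P.A5 h i j x y) : P.A5 h i j y x :=
  Or.symm k

theorem A4.smul (g : H) {h : H} {i : K.I} {j : Fin 4} {x y : V} (k : P.A4 h i j x y) :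
    P.A4 (g * h) i j (g • x) (g • y) := by
  rcases k with ⟨rfl, rfl⟩ | ⟨rfl, rfl⟩
  · exact Or.inl ⟨mul_smul _ _ _, mul_smul _ _ _⟩
  · exact Or.inr ⟨mul_smul _ _ _, mul_smul _ _ _⟩

theorem A4.swap {h : H} {i : K.I} {j : Fin 4} {x y : V} (k : P.A4 h i j x y) : P.A4 h i j y x :=
  Or.symm k

variable (P)

/-- no other position of a cell has a translate along the edge -/
def Th (i : K.I) (j : Fin 5) : Prop := ¬ P.sq i ∧
  (∀ (h : H) (i' : K.I) (j' : Fin 5), ¬ P.sq i' → P.A5 h i' j' (P.pt i j) (P.pt i (j + 1)) →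
    i' = i ∧ j' = j) ∧
  ∀ (h : H) (i' : K.I) (j' : Fin 4), P.sq i' → ¬ P.A4 h i' j' (P.pt i j) (P.pt i (j + 1))

end P45

/-- the elements which fix `y` and `a` fix the poles of `a` -/
def Dr (K : GX H V) (y a : V) : Prop := ∀ g : H, g • y = y → g • a = a → ∀ b, K.ar a b → g • b = b

/-- the same for an edge -/
def DrE (K : GX H V) (x y : V) : Prop := (K.ar x y ∧ Dr K x y) ∨ (K.ar y x ∧ Dr K y x)

theorem Dr.smul (g : H) {y a : V} (h : Dr K y a) : Dr K (g • y) (g • a) := by
  intro k ky ka b hb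
  have e1 : (g⁻¹ * k * g) • y = y := by rw [mul_smul, mul_smul, ky, inv_smul_smul]
  have e2 : (g⁻¹ * k * g) • a = a := by rw [mul_smul, mul_smul, ka, inv_smul_smul]
  have hb' : K.ar a (g⁻¹ • b) := by
    have := K.ar_smul g⁻¹ _ _ hb
    rwa [inv_smul_smul] at this
  have e3 := h _ e1 e2 _ hb'
  rw [mul_smul, mul_smul, smul_inv_smul] at e3
  exact smul_left_cancel _ e3

theorem DrE.symm {x y : V} (h : DrE K x y) : DrE K y x := Or.symm h

theorem DrE.smul (g : H) {x y : V} (h : DrE K x y) : DrE K (g • x) (g • y) :=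
  h.imp (fun k => ⟨K.ar_smul g _ _ k.1, k.2.smul g⟩) (fun k => ⟨K.ar_smul g _ _ k.1, k.2.smul g⟩)

theorem DrE.dr {x y : V} (h : DrE K x y) (e : K.ar x y) : Dr K x y := by
  rcases h with h | h
  · exact h.2
  · have h1 := K.ar_rk _ _ e
    have h2 := K.ar_rk _ _ h.1
    omega

namespace P45

variable (P : P45 K)

/-- THE NUMBER of the thin direct positions -/
noncomputable def phi : ℕ := Nat.card {p : K.I × Fin 5 //
  P.Th p.1 p.2 ∧ DrE K (P.pt p.1 p.2) (P.pt p.1 (p.2 + 1))}

end P45

/-! ### walks around a cell -/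

variable {P : P45 K}

theorem Qn.rev {a q b y z : V} (h : Qn P a q b y z) : Qn P a z y b q := h.symm.rot.rot

theorem Q4.rev {a q b y : V} (h : Q4 P a q b y) : Q4 P a y b q := h.symm.rot.rot

end

end Pool.Agent.DI
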