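import Pool.Agent.DI.OpnG
import Pool.Agent.DI.ClsK
import Pool.Agent.DI.Ph1

/-!
# DI/OpnZs: the standard set of vertices

`K.Zs`: the vertices with finite stabiliser, two poles and no finite sink as a pole. `P45.Zs_sp`: `SpD P K.Zs`
for a complex of the class; tops and middles of squares are in `K.Zs`.
-/

namespace Pool.Agent.DI

open MulAction
open Pool.Agent.SAF (InC orbs FinOrb oc FinOrb_iff)

/-! ### the standard set of vertices -/

/-- the softs with finite stabiliser, two poles and no finite sink as a pole -/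
def GX.Zs {H V : Type} [Group H] [MulAction H V] (K : GX H V) : Set V :=
  {y | Finite ↥(stabilizer H y) ∧ (∃ a b, a ≠ b ∧ K.ar y a ∧ K.ar y b) ∧
    ∀ a, K.ar y a → ¬ K.FS a}

namespace P45

variable {H V : Type} [Group H] [MulAction H V] {K : GX H V} (P : P45 K)

theorem Zs_inv (h : H) {y : V} (hy : y ∈ K.Zs) : h • y ∈ K.Zs := by
  obtain ⟨h1, ⟨a, b, hab, ha, hb⟩, h3⟩ := hy
  refine ⟨?_, ⟨h • a, h • b, fun e => hab (smul_left_cancel h e), K.ar_smul h _ _ ha,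
    K.ar_smul h _ _ hb⟩, ?_⟩
  · refine Finite.of_injective (fun g : ↥(stabilizer H (h • y)) =>
      (⟨h⁻¹ * g.1 * h, ?_⟩ : ↥(stabilizer H y))) ?_
    · have := g.2
      rw [mem_stabilizer_iff] at this ⊢
      rw [mul_smul, mul_smul, this, inv_smul_smul]
    · intro g g' e
      have := congrArg Subtype.val e
      exact Subtype.ext (mul_left_cancel (mul_right_cancel this))
  · intro c hc k
    have h4 := K.ar_smul h⁻¹ _ _ hc
    rw [inv_smul_smul] at h4
    exact h3 _ h4 (k.smul h⁻¹)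

variable {P}

/-- a top with a strand has an in-arrow or a direct corner of a pentagon -/
theorem tp_of {T a : V} (h : 1 ≤ P.X T a) : (∃ n, K.ar n T) ∨ ∃ f, f ∈ P.DP T := by
  rcases X_pos h with ⟨f, ⟨h1, h2⟩, e⟩ | ⟨q, n, -, -, h3⟩
  · have e1 : fy f = T := congrArg Prod.fst e
    have e2 : fz f = a := congrArg Prod.snd e
    have key : (K.E T (K.c0 f.1)) ∧ K.E T (K.c2 f.1) := by
      rw [← e1]
      exact ⟨K.c_E0 f.1, K.c_E2 f.1⟩
    have e1' : K.c1 f.1 = T := e1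
    rcases key.1 with k1 | k1
    · rcases key.2 with k2 | k2
      · exact Or.inr ⟨f.1, h1, e1', k1, k2⟩
      · exact Or.inl ⟨_, k2⟩
    · exact Or.inl ⟨_, k1⟩
  · exact Or.inl ⟨n, h3⟩

/-- THE STANDARD SPLIT of a complex of the class -/
theorem Zs_sp (hc : P.Cls) : SpD P K.Zs where
  inv h _ hy := Zs_inv h hy
  two _ hy := hy.2.1
  fin _ hy := hy.1
  tp T a b y h _ := tp_of (T := T) (a := a) (hc.x1 (T, a) ⟨b, y, h⟩)

/-- a top is in the standard set -/
theorem top_Zs (hc : P.Cls) (tf : ∀ T a b y, P.Top T a b y → Finite ↥(stabilizer H T))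
    (fs : ∀ z, K.FS z → P.NoQ z) {T a b y : V} (h : P.Top T a b y) : T ∈ K.Zs := by
  have hab := hc.nab _ _ _ _ h
  have h3 : ∀ c, K.ar T c → ¬ K.FS c := by
    intro c hc' k
    rcases K.two _ _ _ _ h.2.1 h.2.2 hc' with q | q | q
    · exact hab q
    · rw [← q] at k
      exact fs b k T y a h.1.rot
    · rw [← q] at k
      exact fs a k T y b h.1.symm.rot
  exact ⟨tf _ _ _ _ h, ⟨a, b, hab, h.2.1, h.2.2⟩, h3⟩

/-- every square has a middle in the standard set -/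
theorem sq_Zs (hc : P.Cls) (tf : ∀ T a b y, P.Top T a b y → Finite ↥(stabilizer H T))
    (fs : ∀ z, K.FS z → P.NoQ z) {a q b y : V} (h : Q4 P a q b y) :
    (q ∈ K.Zs ∧ K.ar q a ∧ K.ar q b) ∨ (y ∈ K.Zs ∧ K.ar y a ∧ K.ar y b) ∨
    (a ∈ K.Zs ∧ K.ar a q ∧ K.ar a y) ∨ (b ∈ K.Zs ∧ K.ar b q ∧ K.ar b y) := by
  rcases Q4.ck_top hc.top h with k | k | k | k
  · exact Or.inr (Or.inr (Or.inl ⟨top_Zs hc tf fs k, k.2.1, k.2.2⟩))
  · exact Or.inl ⟨top_Zs hc tf fs k, k.2.2, k.2.1⟩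
  · exact Or.inr (Or.inr (Or.inr ⟨top_Zs hc tf fs k, k.2.2, k.2.1⟩))
  · exact Or.inr (Or.inl ⟨top_Zs hc tf fs k, k.2.1, k.2.2⟩)

end P45

end Pool.Agent.DI
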