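import Pool.Agent.DI.PlcD
import Pool.Agent.DI.OQGd
import Pool.Agent.DI.IslA

/-!
# DI/OvQ: structure over a vertex `u` of valence two for complexes with pentagons and squares

The statements of DI/OvP and DI/PlcD for `SyQ`. `SyQ.Mp w u w'`: `u` has exactly the neighbours
`w`, `w'`, no pentagon is centred at `u`, no square has its four subtrees through `u`, sinks over `u`
cross both edges; every edge is in a cell, no corner backtracks, every piece meets every pole.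
-/

namespace Pool.Agent.DI

open MulAction
open Pool.Agent.SAF (InC SA orbs FinOrb oc Decomp SAn Conv exists_next)
open Pool.Agent.BT (PX PQ JS bey exits Ell mst)
open Pool.Agent.BT.TA (bey_or bey_not bey_self conv_cr conv_sd)

namespace SyQ

variable {H V : Type} [Group H] [MulAction H V] {S : SyQ H V}

variable (S) in
/-- the neighbours of `u` are `w` and `w'` -/
structure Mid (w u w' : S.X) : Prop where
  hw : S.D.G.Adj u w
  hw' : S.D.G.Adj u w'
  ne : w ≠ w'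
  val : ∀ z, S.D.G.Adj u z → z = w ∨ z = w'

namespace Mid

variable {w u w' : S.X} (m : S.Mid w u w')

include m

theorem symm : S.Mid w' u w := ⟨m.hw', m.hw, m.ne.symm, fun z hz => (m.val z hz).symm⟩

/-- an element which fixes `u` fixes or exchanges `w` and `w'` -/
theorem cases {g : H} (hg : g • u = u) :
    (g • w = w ∧ g • w' = w') ∨ (g • w = w' ∧ g • w' = w) := by
  have h1 : S.D.G.Adj u (g • w) := by
    have := S.D.adj_smul g _ _ m.hw
    rwa [hg] at this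
  have h2 : S.D.G.Adj u (g • w') := by
    have := S.D.adj_smul g _ _ m.hw'
    rwa [hg] at this
  have h3 : g • w ≠ g • w' := fun e => m.ne (smul_left_cancel g e)
  rcases m.val _ h1 with h | h <;> rcases m.val _ h2 with h' | h'
  · exact absurd (h.trans h'.symm) h3
  · exact Or.inl ⟨h, h'⟩
  · exact Or.inr ⟨h, h'⟩
  · exact absurd (h.trans h'.symm) h3

end Mid

variable (S) in
/-- a midpoint `u` over which there is no cell -/
structure Mp (w u w' : S.X) : Prop where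
  mid : S.Mid w u w'
  ec : ∀ {x y : V}, S.K.E x y → S.K.EC x y
  nbt : ∀ {n v k : V}, S.K.Cor n v k → n ≠ k
  pc : ∀ {v n a : V}, S.K.ar n v → S.K.ar v a → ∃ k, S.K.PC v n k ∧ S.K.ar k v ∧ S.K.Cor k v a
  nc : ∀ {a q b y z : V}, Qn S.P a q b y z → ¬ S.IsC ![a, q, b, y, z] u
  nsq : ∀ {a q b y : V}, Q4 S.P a q b y → u ∈ S.J a → u ∈ S.J q → u ∈ S.J b → u ∈ S.J y → False
  snk : ∀ z, (∀ a, ¬ S.K.ar z a) → u ∈ S.J z → w ∈ S.J z ∧ w' ∈ S.J z

/-- a vertex on the way from `u` -/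
theorem bey_of_ne {u c : S.X} (h : u ≠ c) : ∃ t, S.D.G.Adj u t ∧ c ∈ bey S.D.G u t := by
  obtain ⟨t, h1, h2⟩ := exists_next S.D.tree h
  refine ⟨t, h1, ?_⟩
  show S.D.G.dist c u = S.D.G.dist c t + 1
  rw [SimpleGraph.dist_comm, h2, SimpleGraph.dist_comm]

/-- a convex set with more than the vertex `u` contains a neighbour of `u` -/
theorem ex_nbp {u p : S.X} {x : V} (hu : u ∈ S.J x) (hp : p ∈ S.J x) (hne : u ≠ p) :
    ∃ t, S.D.G.Adj u t ∧ t ∈ S.J x ∧ p ∈ bey S.D.G u t := by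
  obtain ⟨t, h1, h2⟩ := bey_of_ne hne
  exact ⟨t, h1, (conv_cr S.D.tree (S.js.conv x) h1 hu hp (bey_self h1.symm) h2).2, h2⟩

/-- a subtree without `u` is beyond an edge at `u` -/
theorem exists_dr {u : S.X} {z : V} (hu : u ∉ S.J z) :
    ∃ t, S.D.G.Adj u t ∧ S.J z ⊆ bey S.D.G u t := by
  obtain ⟨p, hp⟩ := S.js.ne z
  have hne : u ≠ p := by
    rintro rfl
    exact hu hp
  obtain ⟨t, h1, h2⟩ := bey_of_ne hne
  exact ⟨t, h1, S.side_of h1 (fun e => hu e.1) hp h2⟩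

/-- a subtree through `u` with a point beyond `u t` -/
theorem cs_of {u t p : S.X} {x : V} (ht : S.D.G.Adj u t) (hu : u ∈ S.J x) (hp : p ∈ S.J x)
    (hb : p ∈ bey S.D.G u t) : S.Cs u t x :=
  conv_cr S.D.tree (S.js.conv x) ht hu hp (bey_self ht.symm) hb

/-- the centre is beyond `t` and `x` does not cross `u t`: the neighbours of `x` do -/
theorem nbr_cs {a x b y z : V} {u t c : S.X} (hp : Qn S.P a x b y z)
    (hc : S.IsC ![a, x, b, y, z] c)
    (hx : u ∈ S.J x) (ht : S.D.G.Adj u t) (hcb : c ∈ bey S.D.G u t) (hn : t ∉ S.J x) :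
    S.Cs u t a ∧ S.Cs u t b := by
  have hs : S.J x ⊆ bey S.D.G t u :=
    conv_sd S.D.tree (S.js.conv x) ht.symm (fun e => hn e.1) hx (bey_self ht.symm)
  have hcx : c ∉ S.J x := fun h => bey_not hcb (hs h)
  constructor
  · obtain ⟨p, p0, p1⟩ := S.one_ex hp.E1
    have h1 : c ∈ S.J a := (hc 0 : c ∈ S.J a ∨ c ∈ S.J x).resolve_right hcx
    exact conv_cr S.D.tree (S.js.conv a) ht p0 h1 (hs p1) hcb
  · obtain ⟨p, p0, p1⟩ := S.one_ex hp.E2
    have h1 : c ∈ S.J b := (hc 1 : c ∈ S.J x ∨ c ∈ S.J b).resolve_left hcx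
    exact conv_cr S.D.tree (S.js.conv b) ht p1 h1 (hs p0) hcb

/-- centres of rotated pentagons -/
theorem IsC.rot {a x b y z : V} {c : S.X} (h : S.IsC ![a, x, b, y, z] c) :
    S.IsC ![x, b, y, z, a] c := by
  intro k
  fin_cases k
  · exact (h 1 : c ∈ S.J x ∨ c ∈ S.J b)
  · exact (h 2 : c ∈ S.J b ∨ c ∈ S.J y)
  · exact (h 3 : c ∈ S.J y ∨ c ∈ S.J z)
  · exact (h 4 : c ∈ S.J z ∨ c ∈ S.J a)
  · exact (h 0 : c ∈ S.J a ∨ c ∈ S.J x)

/-- a centre of a pentagon -/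
theorem Qn.cen {a q b y z : V} (h : Qn S.P a q b y z) : ∃ c, S.IsC ![a, q, b, y, z] c := by
  obtain ⟨c, hc⟩ := S.cen (v := ![a, q, b, y, z]) (Qn.hv h)
  exact ⟨c, hc⟩

/-- three exits: one pole and two edges -/
theorem exl {x a : V} {u t t' : S.X} (ha : S.K.ar x a) (hx : u ∈ S.J x) (hu : u ∈ S.J a)
    (h1 : S.D.G.Adj u t) (h2 : S.D.G.Adj u t') (hne : t ≠ t') (k1 : t ∈ S.J x) (k2 : t' ∈ S.J x) :
    False := by
  rcases S.js.two x u hx (Sum.inl a) (Or.inl ⟨a, rfl, ha, hu⟩) (Sum.inr t)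
    (Or.inr ⟨t, rfl, h1, k1⟩) (Sum.inr t') (Or.inr ⟨t', rfl, h2, k2⟩) with e | e | e
  · cases e
  · cases e
  · exact hne (Sum.inr.inj e)

/-- three exits: two poles and an edge -/
theorem exll {x a b : V} {u t : S.X} (ha : S.K.ar x a) (hb : S.K.ar x b) (hne : a ≠ b)
    (hx : u ∈ S.J x) (hua : u ∈ S.J a) (hub : u ∈ S.J b)
    (h1 : S.D.G.Adj u t) (k1 : t ∈ S.J x) : False := by
  rcases S.js.two x u hx (Sum.inl a) (Or.inl ⟨a, rfl, ha, hua⟩) (Sum.inl b)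
    (Or.inl ⟨b, rfl, hb, hub⟩) (Sum.inr t) (Or.inr ⟨t, rfl, h1, k1⟩) with e | e | e
  · exact hne (Sum.inl.inj e)
  · cases e
  · cases e

namespace Mp

variable {w u w' : S.X} (m : S.Mp w u w')

include m

theorem symm : S.Mp w' u w where
  mid := m.mid.symm
  ec := m.ec
  nbt := m.nbt
  pc := m.pc
  nc := m.nc
  nsq := m.nsq
  snk z h1 h2 := (m.snk z h1 h2).symm

/-- the centre is beyond `w` or `w'` -/
theorem cen_bey {a q b y z : V} {c : S.X} (hp : Qn S.P a q b y z)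
    (hc : S.IsC ![a, q, b, y, z] c) : c ∈ bey S.D.G u w ∨ c ∈ bey S.D.G u w' := by
  have hne : u ≠ c := by
    rintro rfl
    exact m.nc hp hc
  obtain ⟨t, h1, h2⟩ := bey_of_ne hne
  rcases m.mid.val t h1 with rfl | rfl
  · exact Or.inl h2
  · exact Or.inr h2

/-- THE CELL LEMMA -/
theorem cell {n x k : V} (hc : S.K.Cor n x k) (hn : u ∈ S.J n) (hx : u ∈ S.J x) :
    ∃ l t, S.K.Cor l n x ∧ (t = w ∨ t = w') ∧ (t ∉ S.J n → S.Cs u t l ∧ S.Cs u t x) ∧
      (t ∉ S.J x → S.Cs u t n ∧ S.Cs u t k) := by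
  rcases corC hc with ⟨z, z', hp⟩ | ⟨y, hp⟩
  · obtain ⟨c, hce⟩ := Qn.cen hp
    have hp' : Qn S.P z' n x k z := hp.rot.rot.rot.rot
    have hce' : S.IsC ![z', n, x, k, z] c := hce.rot.rot.rot.rot
    have hne : u ≠ c := by
      rintro rfl
      exact m.nc hp hce
    obtain ⟨t, h1, h2⟩ := bey_of_ne hne
    refine ⟨z', t, hp.cor.symm, m.mid.val t h1, ?_, ?_⟩
    · intro h
      exact nbr_cs hp' hce' hn h1 h2 h
    · intro h
      exact nbr_cs hp hce hx h1 h2 h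
  · obtain ⟨p1, a1, b1⟩ := S.one_ex hp.E4
    obtain ⟨p2, a2, b2⟩ := S.one_ex hp.E2
    obtain ⟨p3, a3, b3⟩ := S.one_ex hp.E3
    by_cases hk : u ∈ S.J k
    · have hy : u ∉ S.J y := fun h => m.nsq hp hn hx hk h
      obtain ⟨t, h1, h2⟩ := exists_dr hy
      have k1 := cs_of h1 hn b1 (h2 a1)
      have k2 := cs_of h1 hk a3 (h2 b3)
      exact ⟨y, t, hp.cor.symm, m.mid.val t h1, fun h => absurd k1.2 h, fun _ => ⟨k1, k2⟩⟩
    · obtain ⟨t, h1, h2⟩ := exists_dr hk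
      have k1 := cs_of h1 hx a2 (h2 b2)
      refine ⟨y, t, hp.cor.symm, m.mid.val t h1, fun h => ⟨?_, k1⟩, fun h => absurd k1.2 h⟩
      have k2 : S.J n ⊆ bey S.D.G t u :=
        S.side_of h1.symm (fun e => h e.1) hn (bey_self h1.symm)
      exact conv_cr S.D.tree (S.js.conv y) h1 a1 b3 (k2 b1) (h2 a3)

/-- the main step: no arrow with source in `L'` and target in `L`, if there is none with a target of
bigger rank -/
theorem step1 {x y : V} (hyx : S.K.ar y x) (hux : u ∈ S.J x) (hwx : w ∈ S.J x) (huy : u ∈ S.J y)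
    (hwy : w' ∈ S.J y)
    (ih : ∀ x1 y1, S.K.ar y1 x1 → S.K.rk x < S.K.rk x1 → u ∈ S.J x1 → u ∈ S.J y1 →
      ¬ (w' ∈ S.J x1 ∧ w ∈ S.J y1)) : False := by
  have hw'x : w' ∉ S.J x := fun h => m.mid.hw'.ne (S.one_eq (Or.inl hyx) huy hux hwy h)
  -- all elements of the piece
  have key : ∀ n, u ∈ S.J n → w' ∈ S.J n → S.K.ar n x → ∀ k, S.K.Cor n x k →
      u ∈ S.J k ∧ w' ∈ S.J k := by
    intro n h1 h2 h3 k hc
    obtain ⟨l, t, hl, ht, i1, i2⟩ := m.cell hc h1 hux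
    rcases ht with rfl | rfl
    · exfalso
      have hwn : t ∉ S.J n := fun h => m.mid.hw.ne (S.one_eq (Or.inl h3) h1 hux h hwx)
      obtain ⟨⟨k1, k2⟩, -⟩ := i1 hwn
      rcases hl.symm.E2 with e | e
      · exact exll e h3 (m.nbt hl) h1 k1 hux m.mid.hw' h2
      · exact ih n l e (S.K.ar_rk _ _ h3) h1 k1 ⟨h2, k2⟩
    · exact (i2 hw'x).2
  have hpc : ∀ n, S.K.PC x y n → (u ∈ S.J n ∧ w' ∈ S.J n) ∧ S.K.ar n x := by
    have h0 : ∀ a b, S.K.PC x a b → (((u ∈ S.J a ∧ w' ∈ S.J a) ∧ S.K.ar a x) ↔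
        ((u ∈ S.J b ∧ w' ∈ S.J b) ∧ S.K.ar b x)) := by
      intro a b h
      induction h with
      | rel a b h => exact ⟨fun k => ⟨key a k.1.1 k.1.2 k.2 b h.2.2, h.2.1⟩,
          fun k => ⟨key b k.1.1 k.1.2 k.2 a h.2.2.symm, h.1⟩⟩
      | refl a => exact Iff.rfl
      | symm a b _ ih => exact ih.symm
      | trans a b c _ _ ih1 ih2 => exact ih1.trans ih2
    intro n hn
    exact (h0 y n hn).1 ⟨⟨huy, hwy⟩, hyx⟩
  -- the poles
  have hpole : ∀ a, S.K.ar x a → u ∈ S.J a := by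
    intro a ha
    obtain ⟨n, h1, h2, h3⟩ := m.pc hyx ha
    exact (key n (hpc n h1).1.1 (hpc n h1).1.2 h2 a h3).1
  have hex : ∃ a, S.K.ar x a := by
    by_contra hcon
    push Not at hcon
    exact hw'x (m.snk x hcon hux).2
  obtain ⟨a, ha, hJa⟩ := S.js.cross x hex u w m.mid.hw hux hwx
  have := hJa (hpole a ha)
  exact Pool.Agent.BT.bey_irr_l this

/-- NO EDGE JOINS `L` AND `L'` -/
theorem no_LL {x y : V} (e : S.K.E x y) (hux : u ∈ S.J x) (hwx : w ∈ S.J x) (huy : u ∈ S.J y)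
    (hwy : w' ∈ S.J y) : False := by
  obtain ⟨N, hN⟩ := S.K.rk_bdd
  have key : ∀ n : ℕ, ∀ x y, S.K.ar y x → N - S.K.rk x ≤ n → u ∈ S.J x → u ∈ S.J y →
      ¬ ((w ∈ S.J x ∧ w' ∈ S.J y) ∨ (w' ∈ S.J x ∧ w ∈ S.J y)) := by
    intro n
    induction n with
    | zero =>
      intro x y h1 h2 _ _ _
      have := S.K.ar_rk _ _ h1
      have := hN y
      omega
    | succ n ih =>
      intro x y h1 h2 h3 h4 h5
      have ih' : ∀ x1 y1, S.K.ar y1 x1 → S.K.rk x < S.K.rk x1 → u ∈ S.J x1 → u ∈ S.J y1 →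
          ¬ ((w ∈ S.J x1 ∧ w' ∈ S.J y1) ∨ (w' ∈ S.J x1 ∧ w ∈ S.J y1)) := by
        intro x1 y1 k1 k2 k3 k4
        apply ih x1 y1 k1 _ k3 k4
        have := hN x1
        omega
      rcases h5 with ⟨h5, h6⟩ | ⟨h5, h6⟩
      · exact m.step1 h1 h3 h5 h4 h6 (fun x1 y1 k1 k2 k3 k4 k5 => ih' x1 y1 k1 k2 k3 k4 (Or.inr k5))
      · exact m.symm.step1 h1 h3 h5 h4 h6
          (fun x1 y1 k1 k2 k3 k4 k5 => ih' x1 y1 k1 k2 k3 k4 (Or.inl k5))
  rcases e with e | e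
  · exact key _ y x e le_rfl huy hux (Or.inr ⟨hwy, hwx⟩)
  · exact key _ x y e le_rfl hux huy (Or.inl ⟨hwx, hwy⟩)

/-- a subtree through `u` which is not `u` contains `w` or `w'` -/
theorem ex_w {z : V} (hz : u ∈ S.J z) (hne : S.J z ≠ {u}) : w ∈ S.J z ∨ w' ∈ S.J z := by
  by_contra hc
  push Not at hc
  apply hne
  ext p
  constructor
  · intro hp
    by_contra hpu
    obtain ⟨t, k1, k2, -⟩ := ex_nbp hz hp (fun e => hpu e.symm)
    rcases m.mid.val t k1 with rfl | rfl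
    · exact hc.1 k2
    · exact hc.2 k2
  · rintro rfl
    exact hz

/-- adjacent vertices over `u`: one of them is over `u` only -/
theorem u1 {x y : V} (e : S.K.E x y) (hx : u ∈ S.J x) (hy : u ∈ S.J y) :
    S.J x = {u} ∨ S.J y = {u} := by
  by_contra hcon
  push Not at hcon
  obtain ⟨h1, h2⟩ := hcon
  rcases m.ex_w hx h1 with k | k <;> rcases m.ex_w hy h2 with k' | k'
  · exact m.mid.hw.ne (S.one_eq e hx hy k k')
  · exact m.no_LL e hx k hy k'
  · exact m.no_LL e.symm hy k' hx k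
  · exact m.mid.hw'.ne (S.one_eq e hx hy k k')

/-- a vertex which crosses exactly one of the two edges has a pole over `u` -/
theorem ex_pole {x : V} (hux : u ∈ S.J x) (hwx : w ∈ S.J x) (hn : w' ∉ S.J x) :
    ∃ v, S.K.ar x v ∧ S.J v = {u} := by
  have hex : ∃ a, S.K.ar x a := by
    by_contra hcon
    push Not at hcon
    exact hn (m.snk x hcon hux).2
  obtain ⟨a, ha, hJa⟩ := S.js.cross x hex w u m.mid.hw.symm hwx hux
  obtain ⟨p, p0, p1⟩ := S.one_ex (Or.inl ha)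
  have hpu : p = u := by
    by_contra hne
    obtain ⟨t, k1, k2, k3⟩ := ex_nbp hux p0 (fun e => hne e.symm)
    rcases m.mid.val t k1 with rfl | rfl
    · exact bey_not k3 (hJa p1)
    · exact hn k2
  subst hpu
  refine ⟨a, ha, ?_⟩
  rcases m.u1 (Or.inl ha) hux p1 with h | h
  · exfalso
    rw [h] at hwx
    exact m.mid.hw.ne hwx.symm
  · exact h

/-- the two neighbours of a vertex over `u` in a cell cross the same edge -/
theorem cor_cs {v n k : V} (hv : S.J v = {u}) (hc : S.K.Cor n v k) :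
    (S.Cs u w n ∧ S.Cs u w k) ∨ (S.Cs u w' n ∧ S.Cs u w' k) := by
  have hu : u ∈ S.J v := by rw [hv]; rfl
  have hn : u ∈ S.J n := by
    obtain ⟨p, p0, p1⟩ := S.one_ex hc.symm.E2
    rw [hv] at p0
    rw [← Set.mem_singleton_iff.1 p0]
    exact p1
  obtain ⟨l, t, hl, ht, i1, i2⟩ := m.cell hc hn hu
  rcases ht with rfl | rfl
  · exact Or.inl (i2 (by
      rw [hv]
      exact m.mid.hw.ne'))
  · exact Or.inr (i2 (by
      rw [hv]
      exact m.mid.hw'.ne'))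

/-- every neighbour of a vertex over `u` crosses one of the edges -/
theorem nb {v y : V} (hv : S.J v = {u}) (e : S.K.E v y) : u ∈ S.J y ∧ (w ∈ S.J y ∨ w' ∈ S.J y) := by
  obtain ⟨b, hb⟩ := GX.EC_iff.1 (m.ec e.symm)
  rcases m.cor_cs hv hb with ⟨h, -⟩ | ⟨h, -⟩
  · exact ⟨h.1, Or.inl h.2⟩
  · exact ⟨h.1, Or.inr h.2⟩

/-- a page crosses only one of the edges -/
theorem page_one {v n : V} (hv : S.J v = {u}) (hn : S.K.ar n v) (h1 : w ∈ S.J n)
    (h2 : w' ∈ S.J n) : False := by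
  have hu : u ∈ S.J v := by rw [hv]; rfl
  exact exl hn (m.nb hv (Or.inr hn)).1 hu m.mid.hw m.mid.hw' m.mid.ne h1 h2

/-- the pieces are on one side -/
theorem pc_side {v n n' : V} (hv : S.J v = {u}) (h : S.K.PC v n n') :
    (S.K.ar n v ∧ w ∈ S.J n) ↔ (S.K.ar n' v ∧ w ∈ S.J n') := by
  induction h with
  | rel a b h =>
    obtain ⟨ha, hb, hc⟩ := h
    rcases m.cor_cs hv hc with ⟨k1, k2⟩ | ⟨k1, k2⟩
    · exact ⟨fun _ => ⟨hb, k2.2⟩, fun _ => ⟨ha, k1.2⟩⟩
    · exact ⟨fun k => absurd k1.2 (fun k1 => m.page_one hv ha k.2 k1),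
        fun k => absurd k2.2 (fun k2 => m.page_one hv hb k.2 k2)⟩
  | refl a => exact Iff.rfl
  | symm a b _ ih => exact ih.symm
  | trans a b c _ _ ih1 ih2 => exact ih1.trans ih2

/-- the poles cross the edge of a page -/
theorem page_pole {v n a : V} (hv : S.J v = {u}) (hn : S.K.ar n v) (h : w ∈ S.J n)
    (ha : S.K.ar v a) : w ∈ S.J a := by
  obtain ⟨k, h1, h2, h3⟩ := m.pc hn ha
  have h4 := (m.pc_side hv h1).1 ⟨hn, h⟩
  rcases m.cor_cs hv h3 with ⟨k1, k2⟩ | ⟨k1, k2⟩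
  · exact k2.2
  · exact absurd k1.2 (fun k1 => m.page_one hv h2 h4.2 k1)

/-- a vertex over `u` has a pole -/
theorem ov_pole {v : V} (hv : S.J v = {u}) : ∃ a, S.K.ar v a := by
  by_contra hcon
  push Not at hcon
  have := (m.snk v hcon (by rw [hv]; rfl)).1
  rw [hv] at this
  exact m.mid.hw.ne this.symm

/-- there is an edge which is crossed by all poles -/
theorem exists_side {v : V} (hv : S.J v = {u}) : (∀ a, S.K.ar v a → w ∈ S.J a) ∨
    (∀ a, S.K.ar v a → w' ∈ S.J a) := by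
  obtain ⟨a, ha⟩ := m.ov_pole hv
  obtain ⟨b, hb⟩ := GX.EC_iff.1 (m.ec (Or.inr ha : S.K.E a v))
  have hcase : ∀ {w w' : S.X} (m : S.Mp w u w'), w ∈ S.J a → w ∈ S.J b → ∀ c, S.K.ar v c →
      w ∈ S.J c := by
    intro w w' m h1 h2 c hc
    rcases hb.E2 with e | e
    · -- two poles
      rcases GX.Sft.cases ha e (m.nbt hb) hc with rfl | rfl
      · exact h1
      · exact h2
    · exact m.page_pole hv e h2 hc
  rcases m.cor_cs hv hb with ⟨k1, k2⟩ | ⟨k1, k2⟩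
  · exact Or.inl (hcase m k1.2 k2.2)
  · exact Or.inr (hcase m.symm k1.2 k2.2)

/-- the stabiliser of a vertex over `u` fixes `u` -/
theorem fix_u {v : V} (hv : S.J v = {u}) {g : H} (hg : g • v = v) : g • u = u := by
  have h1 : g • u ∈ S.J (g • v) := S.js.smul g v u (by rw [hv]; rfl)
  rw [hg, hv] at h1
  exact h1

/-- the poles of a reversed vertex over `u` cross both edges -/
theorem rev_pole {v a : V} {g : H} (hv : S.J v = {u}) (hg : g • v = v) (hw : g • w = w')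
    (ha : S.K.ar v a) : w ∈ S.J a ∧ w' ∈ S.J a := by
  have hu : g • u = u := m.fix_u hv hg
  have hw' : g • w' = w := by
    rcases m.mid.cases hu with h | h
    · exact absurd (h.1.symm.trans hw) m.mid.ne
    · exact h.2
  have hi : g⁻¹ • v = v := inv_smul_eq_iff.2 hg.symm
  have h2 : S.K.ar v (g⁻¹ • a) := by
    have := S.K.ar_smul g⁻¹ _ _ ha
    rwa [hi] at this
  rcases m.exists_side hv with h | h
  · refine ⟨h a ha, ?_⟩
    have := S.js.smul g _ _ (h _ h2)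
    rwa [smul_inv_smul, hw] at this
  · refine ⟨?_, h a ha⟩
    have := S.js.smul g _ _ (h _ h2)
    rwa [smul_inv_smul, hw'] at this

theorem opp {p : S.X} (h : p ∈ bey S.D.G u w) : p ∈ bey S.D.G w' u := by
  rcases bey_or S.D.tree m.mid.hw' p with k | k
  · exact absurd (Pool.Agent.BT.x_next_unique S.D.tree m.mid.hw m.mid.hw' h k) m.mid.ne
  · exact k

/-- the cell at `q` on the side of `u` -/
theorem step_q {x q z : V} (hx : S.Cs w u x) (hz : S.Cs w u z) (e1 : S.K.E x q) (e2 : S.K.E q z)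
    (hq : S.J q ⊆ bey S.D.G w u) : S.J q = {u} ∨
    (S.Cs u w' x ∧ S.Cs u w' z ∧ S.J q ⊆ bey S.D.G u w') := by
  by_cases hu : u ∈ S.J q
  · rcases m.u1 e1 hx.2 hu with h | h
    · exfalso
      have := hx.1
      rw [h] at this
      exact m.mid.hw.ne this.symm
    · exact Or.inl h
  · right
    have hq' : S.J q ⊆ bey S.D.G u w' := by
      obtain ⟨t, k1, k2⟩ := exists_dr hu
      rcases m.mid.val t k1 with rfl | rfl
      · obtain ⟨p, hpq⟩ := S.js.ne q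
        exact absurd (hq hpq) (fun k => bey_not k (k2 hpq))
      · exact k2
    refine ⟨?_, ?_, hq'⟩
    · obtain ⟨p, p0, p1⟩ := S.one_ex e1
      exact cs_of m.mid.hw' hx.2 p0 (hq' p1)
    · obtain ⟨p, p0, p1⟩ := S.one_ex e2
      exact cs_of m.mid.hw' hz.2 p1 (hq' p0)

/-- the pentagon with its centre on the side of `u` -/
theorem step_c {x q z y y' : V} (hx : S.Cs w u x) (hz : S.Cs w u z) (hp : Qn S.P x q z y y')
    (h1 : S.J q ⊆ bey S.D.G u w) (h2 : S.J y ⊆ bey S.D.G w u) (h3 : S.J y' ⊆ bey S.D.G w u) :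
    S.Cs u w' x ∧ S.Cs u w' z ∧ S.J y ⊆ bey S.D.G u w' ∧ S.J y' ⊆ bey S.D.G u w' := by
  obtain ⟨c, hce⟩ := Qn.cen hp
  have hcyy : c ∈ S.J y ∨ c ∈ S.J y' := hce 3
  have hcb : c ∈ bey S.D.G w u := by
    rcases hcyy with k | k
    · exact h2 k
    · exact h3 k
  have hcb' : c ∈ bey S.D.G u w' := by
    rcases m.cen_bey hp hce with k | k
    · exact absurd hcb (fun k' => bey_not k' k)
    · exact k
  have hcq : c ∉ S.J q := fun k => bey_not (h1 k) hcb
  have cx : S.Cs u w' x :=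
    cs_of m.mid.hw' hx.2 ((hce 0 : c ∈ S.J x ∨ c ∈ S.J q).resolve_right hcq) hcb'
  have cz : S.Cs u w' z :=
    cs_of m.mid.hw' hz.2 ((hce 1 : c ∈ S.J q ∨ c ∈ S.J z).resolve_left hcq) hcb'
  have ny : ¬ S.Cs u w' y := S.adj_nc m.mid.hw' hp.E3 cz
  have ny' : ¬ S.Cs u w' y' := S.adj_nc m.mid.hw' (Or.symm hp.E5) cx
  refine ⟨cx, cz, ?_⟩
  rcases hcyy with k | k
  · have s1 := S.side_of m.mid.hw' ny k hcb'
    exact ⟨s1, S.side_adj m.mid.hw' hp.E4 ny' s1⟩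
  · have s1 := S.side_of m.mid.hw' ny' k hcb'
    exact ⟨S.side_adj m.mid.hw' (Or.symm hp.E4) ny s1, s1⟩

/-- a wall step over `w u`: a vertex over `u` is cut off, or it is a wall step over `u w'` -/
theorem step' {x z : V} (h : S.PW w u x z) : (∃ q, S.J q = {u} ∧ S.K.E x q ∧ S.K.E q z) ∨
    S.PW u w' x z := by
  obtain ⟨-, hx, hz, q, h4⟩ := h
  rcases h4 with h4 | h4
  · -- `q` on the side of `u`
    rcases m.step_q hx hz h4.E1 h4.E2 h4.1 with k | ⟨cx, cz, hq⟩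
    · exact Or.inl ⟨q, k, h4.E1, h4.E2⟩
    right
    refine ⟨m.mid.hw', cx, cz, q, Or.inl ⟨hq, ?_⟩⟩
    obtain ⟨h1, ⟨y, y', hp, h2, h3⟩ | ⟨y, hp, h2⟩⟩ := h4
    · exact Or.inl ⟨y, y', hp, fun p hp' => m.opp (h2 hp'), fun p hp' => m.opp (h3 hp')⟩
    · exact Or.inr ⟨y, hp, fun p hp' => m.opp (h2 hp')⟩
  · -- `q` on the side of `w`
    obtain ⟨h1, ⟨y, y', hp, h2, h3⟩ | ⟨y, hp, h2⟩⟩ := h4
    · right
      obtain ⟨cx, cz, k1, k2⟩ := m.step_c hx hz hp h1 h2 h3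
      exact ⟨m.mid.hw', cx, cz, q, Or.inr ⟨fun p hp' => m.opp (h1 hp'),
        Or.inl ⟨y, y', hp, k1, k2⟩⟩⟩
    · rcases m.step_q hx hz (Or.symm hp.E4) (Or.symm hp.E3) h2 with k | ⟨cx, cz, hy⟩
      · exact Or.inl ⟨y, k, Or.symm hp.E4, Or.symm hp.E3⟩
      · right
        exact ⟨m.mid.hw', cx, cz, q, Or.inr ⟨fun p hp' => m.opp (h1 hp'),
          Or.inr ⟨y, hp, hy⟩⟩⟩

/-- a wall step over `w u`: a vertex over `u` is cut off, or both ends cross `u w'` -/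
theorem step {x z : V} (h : S.PW w u x z) : (∃ q, S.J q = {u} ∧ S.K.E x q ∧ S.K.E q z) ∨
    (w' ∈ S.J x ∧ w' ∈ S.J z) := by
  rcases m.step' h with k | k
  · exact Or.inl k
  · exact Or.inr ⟨k.l.2, k.r.2⟩

/-- a corner at a vertex over `u` is a wall step over one of the edges -/
theorem cor_pw {v n k : V} (hv : S.J v = {u}) (hc : S.K.Cor n v k) :
    S.PW u w n k ∨ S.PW u w' n k := by
  have hu : u ∈ S.J v := by rw [hv]; rfl
  have ou : ∀ {n k : V}, S.K.Cor n v k → u ∈ S.J n := by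
    intro n k hc
    obtain ⟨p, p0, p1⟩ := S.one_ex hc.symm.E2
    rw [hv] at p0
    rw [← Set.mem_singleton_iff.1 p0]
    exact p1
  have key : ∀ {t : S.X}, S.D.G.Adj u t → S.PW u t n k → S.PW u w n k ∨ S.PW u w' n k := by
    intro t ht h
    rcases m.mid.val t ht with rfl | rfl
    · exact Or.inl h
    · exact Or.inr h
  rcases corC hc with ⟨z, z', hp⟩ | ⟨y, hp⟩
  · obtain ⟨c, hce⟩ := Qn.cen hp
    have hne : u ≠ c := by
      rintro rfl
      exact m.nc hp hce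
    obtain ⟨t, ht, hb⟩ := bey_of_ne hne
    apply key ht
    have hn : t ∉ S.J v := by
      rw [hv]
      exact ht.ne'
    obtain ⟨c1, c2⟩ := nbr_cs hp hce hu ht hb hn
    have nz : ¬ S.Cs u t z := S.adj_nc ht hp.E3 c2
    have nz' : ¬ S.Cs u t z' := S.adj_nc ht (Or.symm hp.E5) c1
    have hcz : c ∈ S.J z ∨ c ∈ S.J z' := hce 3
    refine ⟨ht, c1, c2, v, Or.inr ⟨?_, Or.inl ⟨z, z', hp, ?_⟩⟩⟩
    · rw [hv]
      rintro p rfl
      exact bey_self ht.symm
    · rcases hcz with k | k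
      · have s1 := S.side_of ht nz k hb
        exact ⟨s1, S.side_adj ht hp.E4 nz' s1⟩
      · have s1 := S.side_of ht nz' k hb
        exact ⟨S.side_adj ht (Or.symm hp.E4) nz s1, s1⟩
  · have hn := ou hc
    have hk := ou hc.symm
    have hy : u ∉ S.J y := fun h => m.nsq hp hn hu hk h
    obtain ⟨t, ht, hb⟩ := exists_dr hy
    apply key ht
    obtain ⟨p1, a1, b1⟩ := S.one_ex hp.E4
    obtain ⟨p3, a3, b3⟩ := S.one_ex hp.E3
    refine ⟨ht, cs_of ht hn b1 (hb a1), cs_of ht hk a3 (hb b3), v, Or.inr ⟨?_,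
      Or.inr ⟨y, hp, hb⟩⟩⟩
    rw [hv]
    rintro p rfl
    exact bey_self ht.symm

end Mp

end SyQ

end Pool.Agent.DI
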