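import Pool.Agent.DI.ExtA

/-!
# The step law of `p3`

`P3 H V`: the homomorphisms of `H` to `ZMod 2` which vanish on the stabilisers of all points of `V`.
`PWh w J`: the homomorphisms of the stabiliser of a vertex `w` of a tree which vanish on the stabilisers of
the edges at `w` and of the points `y` with `w ∈ J y`. `p3_le`, `p3_lt`: `dim PWh ≤ dim P3 + k` and
`dim PWh + 1 ≤ dim P3 + k`. `exists_chiT`, `exists_chiU`: the characters.
-/

namespace Pool.Agent.DI

open MulAction

/-- homomorphisms to `ZMod 2` -/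
abbrev H2m (H : Type) [Group H] : Type := Additive H →+ ZMod 2

section

variable (H V : Type) [Group H] [MulAction H V]

/-- the homomorphisms which vanish on all stabilisers -/
def P3 : Submodule (ZMod 2) (H2m H) where
  carrier := {φ | ∀ (y : V) (a : H), a • y = y → φ (Additive.ofMul a) = 0}
  add_mem' := by
    intro φ ψ h k y a e
    rw [AddMonoidHom.add_apply, h y a e, k y a e, add_zero]
  zero_mem' := fun _ _ _ => rfl
  smul_mem' := by
    intro c φ h y a e
    show c • φ (Additive.ofMul a) = 0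
    rw [h y a e, smul_zero]

variable {H V}

theorem mem_P3 {φ : H2m H} : φ ∈ P3 H V ↔
    ∀ (y : V) (a : H), a • y = y → φ (Additive.ofMul a) = 0 := Iff.rfl

theorem h2_ext {φ ψ : H2m H} (h : ∀ a : H, φ (Additive.ofMul a) = ψ (Additive.ofMul a)) : φ = ψ :=
  AddMonoidHom.ext fun a => h (Additive.toMul a)

theorem h2_one (φ : H2m H) : φ (Additive.ofMul 1) = 0 := by
  rw [ofMul_one, map_zero]

theorem h2_mul (φ : H2m H) (a b : H) : φ (Additive.ofMul (a * b)) =
    φ (Additive.ofMul a) + φ (Additive.ofMul b) := by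
  rw [ofMul_mul, map_add]

theorem h2_inv (φ : H2m H) (a : H) : φ (Additive.ofMul a⁻¹) = - φ (Additive.ofMul a) := by
  rw [ofMul_inv, map_neg]

theorem h2_conj (φ : H2m H) (a b : H) : φ (Additive.ofMul (a * b * a⁻¹)) =
    φ (Additive.ofMul b) := by
  rw [h2_mul, h2_mul, h2_inv]
  abel

theorem h2_conj' (φ : H2m H) (a b : H) : φ (Additive.ofMul (a⁻¹ * b * a)) =
    φ (Additive.ofMul b) := by
  rw [h2_mul, h2_mul, h2_inv]
  abel

end

section law

variable {H V X : Type} [Group H] [MulAction H V] [MulAction H X] (G : SimpleGraph X)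
  (J : V → Set X) (w : X)

/-- the homomorphisms of the stabiliser of `w` -/
def PWh : Submodule (ZMod 2) (H2m ↥(stabilizer H w)) where
  carrier := {φ | (∀ u, G.Adj w u → ∀ a : ↥(stabilizer H w), a.1 • u = u →
      φ (Additive.ofMul a) = 0) ∧
    ∀ y, w ∈ J y → ∀ a : ↥(stabilizer H w), a.1 • y = y → φ (Additive.ofMul a) = 0}
  add_mem' := by
    rintro φ ψ ⟨h1, h2⟩ ⟨k1, k2⟩
    refine ⟨fun u e a h => ?_, fun y e a h => ?_⟩
    · rw [AddMonoidHom.add_apply, h1 u e a h, k1 u e a h, add_zero]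
    · rw [AddMonoidHom.add_apply, h2 y e a h, k2 y e a h, add_zero]
  zero_mem' := ⟨fun _ _ _ _ => rfl, fun _ _ _ _ => rfl⟩
  smul_mem' := by
    rintro c φ ⟨h1, h2⟩
    refine ⟨fun u e a h => ?_, fun y e a h => ?_⟩
    · show c • φ (Additive.ofMul a) = 0
      rw [h1 u e a h, smul_zero]
    · show c • φ (Additive.ofMul a) = 0
      rw [h2 y e a h, smul_zero]

/-- the homomorphisms of the group whose restriction is in `PWh` -/
def PEh : Submodule (ZMod 2) (H2m H) where
  carrier := {φ | (∀ u, G.Adj w u → ∀ a : H, a • w = w → a • u = u → φ (Additive.ofMul a) = 0) ∧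
    (∀ y, w ∈ J y → ∀ a : H, a • w = w → a • y = y → φ (Additive.ofMul a) = 0) ∧
    ∀ x, (¬ ∃ h : H, h • w = x) → ∀ y, x ∈ J y → ∀ a : H, a • x = x → a • y = y →
      φ (Additive.ofMul a) = 0}
  add_mem' := by
    rintro φ ψ ⟨h1, h2, h3⟩ ⟨k1, k2, k3⟩
    refine ⟨fun u e a h h' => ?_, fun y e a h h' => ?_, fun x hx y e a h h' => ?_⟩
    · rw [AddMonoidHom.add_apply, h1 u e a h h', k1 u e a h h', add_zero]
    · rw [AddMonoidHom.add_apply, h2 y e a h h', k2 y e a h h', add_zero]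
    · rw [AddMonoidHom.add_apply, h3 x hx y e a h h', k3 x hx y e a h h', add_zero]
  zero_mem' := ⟨fun _ _ _ _ _ => rfl, fun _ _ _ _ _ => rfl, fun _ _ _ _ _ _ _ => rfl⟩
  smul_mem' := by
    rintro c φ ⟨h1, h2, h3⟩
    refine ⟨fun u e a h h' => ?_, fun y e a h h' => ?_, fun x hx y e a h h' => ?_⟩
    · show c • φ (Additive.ofMul a) = 0
      rw [h1 u e a h h', smul_zero]
    · show c • φ (Additive.ofMul a) = 0
      rw [h2 y e a h h', smul_zero]
    · show c • φ (Additive.ofMul a) = 0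
      rw [h3 x hx y e a h h', smul_zero]

variable {G J w}

/-- the restriction to a subgroup -/
def res2 (A : Subgroup H) : H2m H →ₗ[ZMod 2] H2m ↥A where
  toFun φ := mkHa (fun a => φ (Additive.ofMul a.1)) (fun a b => h2_mul φ a.1 b.1)
  map_add' _ _ := rfl
  map_smul' _ _ := rfl

theorem res2_apply (A : Subgroup H) (φ : H2m H) (a : ↥A) :
    res2 A φ (Additive.ofMul a) = φ (Additive.ofMul a.1) := rfl

theorem PE_res {φ : H2m H} (h : φ ∈ PEh G J w) : res2 (stabilizer H w) φ ∈ PWh G J w :=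
  ⟨fun u e a k => h.1 u e a.1 a.2 k, fun y e a k => h.2.1 y e a.1 a.2 k⟩

/-- the restriction `PEh → PWh` -/
def rPEh : ↥(PEh (H := H) G J w) →ₗ[ZMod 2] ↥(PWh (H := H) G J w) :=
  (res2 (stabilizer H w)).restrict (fun _ h => PE_res h)

/-- it is onto -/
theorem rPE_surj (hG : G.IsTree)
    (hsm : ∀ (h : H) (x y : X), G.Adj x y → G.Adj (h • x) (h • y))
    (hni : ∀ (h : H) (x y : X), G.Adj x y → ¬ (h • x = y ∧ h • y = x)) :
    Function.Surjective (rPEh (H := H) (G := G) (J := J) (w := w)) := by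
  rintro ⟨f, hf⟩
  obtain ⟨φ, h1, h2⟩ := exists_homA_one hG hsm hni w f hf.1
  refine ⟨⟨φ, ⟨fun u e a k k' => ?_, fun y e a k k' => ?_, fun x hx y e a k k' => ?_⟩⟩, ?_⟩
  · rw [h1 ⟨a, k⟩]
    exact hf.1 u e ⟨a, k⟩ k'
  · rw [h1 ⟨a, k⟩]
    exact hf.2 y e ⟨a, k⟩ k'
  · exact h2 x hx a k
  · apply Subtype.ext
    apply h2_ext
    intro a
    exact h1 a

variable {ι : Type} [Fintype ι] (z : ι → H)

/-- the values at finitely many elements -/
def evz : H2m H →ₗ[ZMod 2] (ι → ZMod 2) where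
  toFun φ i := φ (Additive.ofMul (z i))
  map_add' _ _ := rfl
  map_smul' _ _ := rfl

variable (hJ : ∀ (h : H) (x : X) (y : V), x ∈ J y → h • x ∈ J (h • y))
  (hgen : ∀ φ : H2m H, (∀ y p, p ∈ J y → ∀ a : H, a • p = p → a • y = y →
    φ (Additive.ofMul a) = 0) → (∀ i, φ (Additive.ofMul (z i)) = 0) → φ ∈ P3 H V)

include hJ hgen in
theorem PE_P3 {φ : H2m H} (h : φ ∈ PEh G J w) (hz : evz z φ = 0) : φ ∈ P3 H V := by
  refine hgen φ (fun y p hp a ha hb => ?_) (fun i => congrFun hz i)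
  by_cases hx : ∃ k : H, k • w = p
  · obtain ⟨k, rfl⟩ := hx
    rw [← h2_conj' φ k a]
    apply h.2.1 (k⁻¹ • y)
    · have := hJ k⁻¹ _ _ hp
      rwa [inv_smul_smul] at this
    · rw [mul_smul, mul_smul, ha, inv_smul_smul]
    · rw [mul_smul, smul_inv_smul, mul_smul, hb]
  · exact h.2.2 p hx y hp a ha hb

variable (hfd : FiniteDimensional (ZMod 2) ↥(P3 H V))

include hJ hgen hfd in
/-- the dimension of `PEh` -/
theorem PE_le : FiniteDimensional (ZMod 2) ↥(PEh (H := H) G J w) ∧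
    Module.finrank (ZMod 2) ↥(PEh (H := H) G J w) ≤
      Module.finrank (ZMod 2) ↥(P3 H V) + Fintype.card ι := by
  let d : ↥(PEh (H := H) G J w) →ₗ[ZMod 2] (ι → ZMod 2) := (evz z).domRestrict _
  have hk : ∀ x ∈ LinearMap.ker d, x.1 ∈ P3 H V := fun x hx => PE_P3 z hJ hgen x.2 hx
  let j : ↥(LinearMap.ker d) →ₗ[ZMod 2] ↥(P3 H V) :=
    { toFun := fun x => ⟨x.1.1, hk x.1 x.2⟩
      map_add' := fun _ _ => rfl
      map_smul' := fun _ _ => rfl }
  have hj : Function.Injective j := by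
    intro x y h
    have h' : x.1.1 = y.1.1 := congrArg (fun w : ↥(P3 H V) => w.1) h
    exact Subtype.ext (Subtype.ext h')
  have f1 : FiniteDimensional (ZMod 2) ↥(LinearMap.ker d) := FiniteDimensional.of_injective j hj
  have f2 : FiniteDimensional (ZMod 2) ↥(PEh (H := H) G J w) := by
    have e := d.quotKerEquivRange
    have f3 : FiniteDimensional (ZMod 2) (↥(PEh (H := H) G J w) ⧸ LinearMap.ker d) :=
      Module.Finite.equiv e.symm
    exact Module.Finite.of_submodule_quotient (LinearMap.ker d)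
  refine ⟨f2, ?_⟩
  have h1 := LinearMap.finrank_range_add_finrank_ker d
  have h2 := LinearMap.finrank_le_finrank_of_injective hj
  have h3 : Module.finrank (ZMod 2) ↥(LinearMap.range d) ≤ Fintype.card ι := by
    have := Submodule.finrank_le (LinearMap.range d)
    rwa [Module.finrank_fintype_fun_eq_card] at this
  omega

variable (hG : G.IsTree) (hsm : ∀ (h : H) (x y : X), G.Adj x y → G.Adj (h • x) (h • y))
  (hni : ∀ (h : H) (x y : X), G.Adj x y → ¬ (h • x = y ∧ h • y = x))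

include hJ hgen hfd hG hsm hni in
/-- the step law -/
theorem p3_le : FiniteDimensional (ZMod 2) ↥(PWh (H := H) G J w) ∧
    Module.finrank (ZMod 2) ↥(PWh (H := H) G J w) ≤
      Module.finrank (ZMod 2) ↥(P3 H V) + Fintype.card ι := by
  obtain ⟨f1, h1⟩ := PE_le (G := G) (w := w) z hJ hgen hfd
  have hs := rPE_surj (J := J) (w := w) hG hsm hni
  exact ⟨Module.Finite.of_surjective _ hs,
    (LinearMap.finrank_le_finrank_of_surjective hs).trans h1⟩

include hJ hgen hfd hG hsm hni in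
/-- the strict step law -/
theorem p3_lt {χ : H2m H} (h0 : χ ≠ 0) (hw : ∀ a : H, a • w = w → χ (Additive.ofMul a) = 0)
    (hx : ∀ x, (¬ ∃ h : H, h • w = x) → ∀ y, x ∈ J y → ∀ a : H, a • x = x → a • y = y →
      χ (Additive.ofMul a) = 0) :
    FiniteDimensional (ZMod 2) ↥(PWh (H := H) G J w) ∧
    Module.finrank (ZMod 2) ↥(PWh (H := H) G J w) + 1 ≤
      Module.finrank (ZMod 2) ↥(P3 H V) + Fintype.card ι := by
  obtain ⟨f1, h1⟩ := PE_le (G := G) (w := w) z hJ hgen hfd
  have hs := rPE_surj (J := J) (w := w) hG hsm hni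
  refine ⟨Module.Finite.of_surjective _ hs, ?_⟩
  have h2 := LinearMap.finrank_range_add_finrank_ker (rPEh (H := H) (G := G) (J := J) (w := w))
  rw [LinearMap.range_eq_top.2 hs, finrank_top] at h2
  have h3 : 0 < Module.finrank (ZMod 2)
      ↥(LinearMap.ker (rPEh (H := H) (G := G) (J := J) (w := w))) := by
    rw [Module.finrank_pos_iff_exists_ne_zero]
    have hE : χ ∈ PEh G J w := ⟨fun u _ a k _ => hw a k, fun y _ a k _ => hw a k, hx⟩
    refine ⟨⟨⟨χ, hE⟩, ?_⟩, ?_⟩
    · rw [LinearMap.mem_ker]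
      apply Subtype.ext
      apply h2_ext
      intro a
      exact hw a.1 a.2
    · intro e
      exact h0 (congrArg (fun x => x.1.1) e)
  omega

end law

section chi

variable {H X : Type} [Group H] [MulAction H X] {G : SimpleGraph X} (hG : G.IsTree)
  (hsm : ∀ (h : H) (x y : X), G.Adj x y → G.Adj (h • x) (h • y))
  (hni : ∀ (h : H) (x y : X), G.Adj x y → ¬ (h • x = y ∧ h • y = x))

include hG hsm in
/-- the character which counts the edges of a set modulo two -/
theorem exists_chiT (O : X → X → Prop) (hO : ∀ (h : H) x y, O (h • x) (h • y) ↔ O x y)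
    (hs : ∀ x y, O x y ↔ O y x) : ∃ χ : H2m H,
      (∀ (x : X) (a : H), a • x = x → χ (Additive.ofMul a) = 0) ∧
      (∀ (x : X) (a : H), G.Adj x (a • x) → O x (a • x) → χ (Additive.ofMul a) = 1) ∧
      ∀ (x : X) (a : H), G.Adj x (a • x) → ¬ O x (a • x) → χ (Additive.ofMul a) = 0 := by
  classical
  obtain ⟨χ, p, hp, hχ⟩ := exists_homA_aux (A := ZMod 2) hG hsm (fun _ _ => 0)
    (fun _ _ _ => by rw [add_zero]) (fun x y => if O x y then 1 else 0) (by
      intro x y _
      show (if O x y then (1 : ZMod 2) else 0) = - (if O y x then 1 else 0)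
      by_cases h : O x y
      · rw [if_pos h, if_pos ((hs x y).1 h)]
        decide
      · rw [if_neg h, if_neg (fun k => h ((hs x y).2 k))]
        decide) (by
      intro x y _ a
      show (0 : ZMod 2) - 0 = (if O (a • x) (a • y) then (1 : ZMod 2) else 0) -
        (if O x y then 1 else 0)
      by_cases h : O x y
      · rw [if_pos h, if_pos ((hO a x y).2 h), sub_self, sub_self]
      · rw [if_neg h, if_neg (fun k => h ((hO a x y).1 k)), sub_self])
  refine ⟨χ, ?_, ?_, ?_⟩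
  · intro x a ha
    rw [hχ x a, ha, sub_self, add_zero]
  · intro x a e h
    have h1 := hp _ _ e
    have h1 : (if O x (a • x) then (1 : ZMod 2) else 0) = p (a • x) - p x := h1
    rw [if_pos h] at h1
    rw [hχ x a, ← h1, zero_add]
  · intro x a e h
    have h1 := hp _ _ e
    have h1 : (if O x (a • x) then (1 : ZMod 2) else 0) = p (a • x) - p x := h1
    rw [if_neg h] at h1
    rw [hχ x a, ← h1, zero_add]

include hG hsm in
/-- HNN extensions: the character of the stable letter -/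
theorem exists_chiHnn {x : X} {t : H} (ht : G.Adj x (t • x)) : ∃ χ : H2m H, χ ≠ 0 ∧
    ∀ (x : X) (a : H), a • x = x → χ (Additive.ofMul a) = 0 := by
  obtain ⟨χ, h1, h2, -⟩ := exists_chiT hG hsm (fun x y => G.Adj x y)
    (fun h x y => ⟨fun e => by
      have := hsm h⁻¹ _ _ e
      rwa [inv_smul_smul, inv_smul_smul] at this, hsm h x y⟩) (fun x y => ⟨fun e => e.symm,
      fun e => e.symm⟩)
  refine ⟨χ, fun h => ?_, h1⟩
  have h3 := h2 x t ht ht
  rw [h] at h3
  exact zero_ne_one h3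

include hG hsm hni in
/-- a subgroup of index two in the stabiliser of `u` which contains the stabilisers of the edges -/
theorem exists_chiU {u : X} (J : Subgroup H) (hJ : ∀ v, G.Adj u v → ∀ a : H, a • u = u →
    a • v = v → a ∈ J) {b : H} (hb : b • u = u) (hbJ : b ∉ J)
    (h2 : ∀ a c : H, a • u = u → c • u = u → (a * c ∈ J ↔ (a ∈ J ↔ c ∈ J))) :
    ∃ χ : H2m H, χ ≠ 0 ∧ (∀ a : H, a • u = u → (χ (Additive.ofMul a) = 0 ↔ a ∈ J)) ∧
      ∀ x, (¬ ∃ h : H, h • u = x) → ∀ a : H, a • x = x → χ (Additive.ofMul a) = 0 := by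
  classical
  let f : H2m ↥(stabilizer H u) := mkHa (fun a => if a.1 ∈ J then 0 else 1) (by
    intro a c
    have h := h2 a.1 c.1 a.2 c.2
    show (if a.1 * c.1 ∈ J then (0 : ZMod 2) else 1) = (if a.1 ∈ J then 0 else 1) +
      (if c.1 ∈ J then 0 else 1)
    by_cases ha : a.1 ∈ J <;> by_cases hc : c.1 ∈ J
    · rw [if_pos ha, if_pos hc, if_pos (h.2 ⟨fun _ => hc, fun _ => ha⟩), add_zero]
    · rw [if_pos ha, if_neg hc, if_neg (fun k => hc ((h.1 k).1 ha)), zero_add]
    · rw [if_neg ha, if_pos hc, if_neg (fun k => ha ((h.1 k).2 hc)), add_zero]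
    · rw [if_neg ha, if_neg hc, if_pos (h.2 ⟨fun k => absurd k ha, fun k => absurd k hc⟩)]
      decide)
  have hf : ∀ a : ↥(stabilizer H u), f (Additive.ofMul a) = if a.1 ∈ J then 0 else 1 :=
    fun _ => rfl
  obtain ⟨χ, h3, h4⟩ := exists_homA_one hG hsm hni u f (by
    intro v e a ha
    rw [hf, if_pos (hJ v e a.1 a.2 ha)])
  refine ⟨χ, fun h => ?_, fun a ha => ?_, h4⟩
  · have h5 := h3 ⟨b, hb⟩
    rw [hf, if_neg hbJ, h] at h5
    exact zero_ne_one h5
  · have h5 : χ (Additive.ofMul a) = if a ∈ J then 0 else 1 := h3 ⟨a, ha⟩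
    rw [h5]
    by_cases h : a ∈ J
    · rw [if_pos h]
      exact ⟨fun _ => h, fun _ => rfl⟩
    · rw [if_neg h]
      exact ⟨fun k => absurd k (by decide), fun k => absurd k h⟩

end chi

end Pool.Agent.DI
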