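import Pool.Agent.DI.P3
import Pool.Agent.DI.DTree
import Pool.Agent.DI.DLE

/-!
# The step law of `p3` for subtrees

`BZ J`: the points whose stabiliser is of `Z` type and fixes no point of `J y` (broken). `exists_hgen`: if
every stabiliser is of `D_inf` type, of `Z` type or fixes a point of `J y` then the hypothesis `hgen`
of the step law holds with one element for every orbit of `BZ`. `p3_step`, `p3_step_lt`: the step law,
`p3_hnn`, `p3_mid`: the strict cases.
-/

namespace Pool.Agent.DI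

open MulAction
open Pool.Agent.SAF (InC FinOrb oc orbs mk_eq_iff exists_rep TAct Conv)
open Pool.Agent.SAG (IO Zt)

/-- finite subgroups of a group of `Z` type and a generator -/
theorem zt_gen {A : Type} [Group A] (h : Zt A) :
    ∃ z : A, ∀ a : A, ∃ (n : ℤ) (k : A), a = z ^ n * k ∧ ¬ IO k := by
  obtain ⟨f, hf⟩ := h
  let R : Subgroup (Multiplicative ℤ) := f.range
  -- the range is cyclic
  have hc : ∃ z : A, ∀ a : A, ∃ n : ℤ, f a = f z ^ n := by
    obtain ⟨g, hg⟩ := IsCyclic.exists_generator (α := ↥R)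
    obtain ⟨z, hz⟩ := g.2
    refine ⟨z, fun a => ?_⟩
    obtain ⟨n, hn⟩ := Subgroup.mem_zpowers_iff.1 (hg ⟨f a, ⟨a, rfl⟩⟩)
    refine ⟨n, ?_⟩
    have h1 : (g ^ n : ↥R).1 = f a := congrArg Subtype.val hn
    rw [hz, ← h1]
    rfl
  obtain ⟨z, hz⟩ := hc
  refine ⟨z, fun a => ?_⟩
  obtain ⟨n, hn⟩ := hz a
  refine ⟨n, z ^ (-n) * a, by rw [zpow_neg, mul_inv_cancel_left], ?_⟩
  intro hio
  have hk : ∀ m : ℕ, (z ^ (-n) * a) ^ m ∈ f.ker := by
    intro m
    apply f.ker.pow_mem
    rw [MonoidHom.mem_ker, map_mul, map_zpow, hn, ← zpow_add, neg_add_cancel, zpow_zero]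
  have hinj : Function.Injective (fun m : ℕ => (⟨(z ^ (-n) * a) ^ m, hk m⟩ : f.ker)) := by
    intro m m' e
    have e' : (z ^ (-n) * a) ^ m = (z ^ (-n) * a) ^ m' := congrArg Subtype.val e
    have h1 := io_zpow_inj hio (i := m) (j := m') (by rw [zpow_natCast, zpow_natCast, e'])
    exact_mod_cast h1
  have := Finite.of_injective _ hinj
  exact (Infinite.not_finite (α := ℕ)) this

section

variable {H V X : Type} [Group H] [MulAction H V] [MulAction H X] {G : SimpleGraph X}
  {J : V → Set X}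

/-- the broken points of `Z` type -/
def BZ (H : Type) {V X : Type} [Group H] [MulAction H V] [MulAction H X] (J : V → Set X) : Set V :=
  {y | Zt ↥(stabilizer H y) ∧ ¬ ∃ p ∈ J y, ∀ a : H, a • y = y → a • p = p}

variable (hG : TAct H G) (hJ : ∀ (h : H) (x : X) (y : V), x ∈ J y → h • x ∈ J (h • y))
  (hconv : ∀ y, Conv G (J y)) (hne : ∀ y, (J y).Nonempty)

include hG hJ hconv hne in
/-- elements of finite order are killed -/
theorem kill_io {φ : H2m H} (hφ : ∀ y p, p ∈ J y → ∀ a : H, a • p = p → a • y = y →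
    φ (Additive.ofMul a) = 0) {y : V} {a : H} (ha : a • y = y) (hio : ¬ IO a) :
    φ (Additive.ofMul a) = 0 := by
  have hf : Finite ↥(Subgroup.zpowers a) := by
    unfold SAG.IO at hio
    push Not at hio
    obtain ⟨n, hn, e⟩ := hio
    have : IsOfFinOrder a := isOfFinOrder_iff_pow_eq_one.2 ⟨n, hn, e⟩
    exact this.finite_zpowers
  have hz : ∀ b ∈ Subgroup.zpowers a, b • y = y := by
    intro b hb
    have : Subgroup.zpowers a ≤ stabilizer H y := by
      rw [Subgroup.zpowers_le]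
      exact ha
    exact this hb
  obtain ⟨c, hc, h⟩ := fix_in hG (hconv y) (hne y) hf (by
    intro b hb c hc
    have := hJ b c y hc
    rwa [hz b hb] at this)
  exact hφ y c hc a (h a (Subgroup.mem_zpowers a)) ha

theorem not_io_mk {A : Subgroup H} {a : ↥A} (h : ¬ IO a) : ¬ IO a.1 := by
  intro k
  apply h
  intro n hn e
  exact k n hn (congrArg Subtype.val e)

include hG hJ hconv hne in
/-- the hypothesis of the step law -/
theorem exists_hgen (hfin : FinOrb H (BZ H J))
    (hty : ∀ y, Nonempty (DL ↥(stabilizer H y)) ∨ Zt ↥(stabilizer H y) ∨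
      ∃ p ∈ J y, ∀ a : H, a • y = y → a • p = p) :
    ∃ (ι : Type) (_ : Fintype ι) (z : ι → H), Fintype.card ι = oc H (BZ H J) ∧
      ∀ φ : H2m H, (∀ y p, p ∈ J y → ∀ a : H, a • p = p → a • y = y →
        φ (Additive.ofMul a) = 0) → (∀ i, φ (Additive.ofMul (z i)) = 0) → φ ∈ P3 H V := by
  classical
  obtain ⟨r, hr⟩ := exists_rep (H := H) (BZ H J)
  have hZ : ∀ q : ↥(orbs H (BZ H J)), ∃ z : ↥(stabilizer H (r q.1)),
      ∀ a : ↥(stabilizer H (r q.1)), ∃ (n : ℤ) (k : ↥(stabilizer H (r q.1))),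
        a = z ^ n * k ∧ ¬ IO k := fun q => zt_gen (hr q.1 q.2).1.1
  choose z hz using hZ
  have hf : Finite ↥(orbs H (BZ H J)) := Set.Finite.to_subtype hfin
  refine ⟨↥(orbs H (BZ H J)), Fintype.ofFinite _, fun q => (z q).1, ?_, ?_⟩
  · have e := Nat.card_coe_set_eq (orbs H (BZ H J))
    rw [@Nat.card_eq_fintype_card _ (Fintype.ofFinite _)] at e
    exact e
  · intro φ hφ hzz y a ha
    have kio := fun {y : V} {a : H} (h1 : a • y = y) (h2 : ¬ IO a) =>
      kill_io (G := G) hG hJ hconv hne hφ h1 h2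
    by_cases hel : ∃ p ∈ J y, ∀ a : H, a • y = y → a • p = p
    · obtain ⟨p, hp, h⟩ := hel
      exact hφ y p hp a (h a ha) ha
    · rcases hty y with ⟨⟨L⟩⟩ | h | h
      · -- `D_inf` type
        have h1 : ∀ g : ↥(stabilizer H y), L.ε g = -1 → φ (Additive.ofMul g.1) = 0 := by
          intro g hg
          apply kio g.2
          apply not_io_mk
          intro h
          have := (L.io_iff.1 h).1
          rw [hg] at this
          exact DL.ne_neg_one this.symm
        rcases L.ε_cases ⟨a, ha⟩ with h | h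
        · obtain ⟨s, hs, -⟩ := L.s0
          have h2 : L.ε (⟨a, ha⟩ * s) = -1 := by rw [map_mul, h, hs, one_mul]
          have h3 := h1 _ h2
          have h4 := h1 _ hs
          have h5 : φ (Additive.ofMul (a * s.1)) = 0 := h3
          rw [h2_mul, h4, add_zero] at h5
          exact h5
        · exact h1 ⟨a, ha⟩ h
      · -- `Z` type, broken
        have hy : y ∈ BZ H J := ⟨h, hel⟩
        have hq : (Quotient.mk'' y : orbitRel.Quotient H V) ∈ orbs H (BZ H J) := ⟨y, hy, rfl⟩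
        obtain ⟨g, hg⟩ := mk_eq_iff.1 (hr _ hq).2.symm
        let q : ↥(orbs H (BZ H J)) := ⟨Quotient.mk'' y, hq⟩
        have hg' : g • r q.1 = y := hg
        have hst : (g⁻¹ * a * g) • r q.1 = r q.1 := by
          rw [mul_smul, mul_smul, hg', ha, inv_smul_eq_iff, hg']
        obtain ⟨n, k, e1, e2⟩ := hz q ⟨g⁻¹ * a * g, hst⟩
        have e1' : g⁻¹ * a * g = (z q).1 ^ n * k.1 := congrArg Subtype.val e1
        rw [← h2_conj' φ g a, e1', h2_mul, kio k.2 (not_io_mk e2), add_zero, ofMul_zpow,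
          map_zsmul, hzz q, smul_zero]
      · exact absurd h hel

variable {w : X} (hfin : FinOrb H (BZ H J))
  (hty : ∀ y, Nonempty (DL ↥(stabilizer H y)) ∨ Zt ↥(stabilizer H y) ∨
    ∃ p ∈ J y, ∀ a : H, a • y = y → a • p = p)
  (hfd : FiniteDimensional (ZMod 2) ↥(P3 H V))

include hG hJ hconv hne hfin hty hfd in
/-- the step law -/
theorem p3_step : FiniteDimensional (ZMod 2) ↥(PWh (H := H) G J w) ∧
    Module.finrank (ZMod 2) ↥(PWh (H := H) G J w) ≤
      Module.finrank (ZMod 2) ↥(P3 H V) + oc H (BZ H J) := by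
  obtain ⟨ι, hι, z, hc, hgen⟩ := exists_hgen (G := G) hG hJ hconv hne hfin hty
  have h := p3_le (G := G) (w := w) z hJ hgen hfd hG.tree hG.adj_smul hG.noinv
  rwa [hc] at h

include hG hJ hconv hne hfin hty hfd in
/-- the strict step law -/
theorem p3_step_lt {χ : H2m H} (h0 : χ ≠ 0) (hw : ∀ a : H, a • w = w → χ (Additive.ofMul a) = 0)
    (hx : ∀ x, (¬ ∃ h : H, h • w = x) → ∀ y, x ∈ J y → ∀ a : H, a • x = x → a • y = y →
      χ (Additive.ofMul a) = 0) :
    FiniteDimensional (ZMod 2) ↥(PWh (H := H) G J w) ∧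
    Module.finrank (ZMod 2) ↥(PWh (H := H) G J w) + 1 ≤
      Module.finrank (ZMod 2) ↥(P3 H V) + oc H (BZ H J) := by
  obtain ⟨ι, hι, z, hc, hgen⟩ := exists_hgen (G := G) hG hJ hconv hne hfin hty
  have h := p3_lt (G := G) (w := w) z hJ hgen hfd hG.tree hG.adj_smul hG.noinv h0 hw hx
  rwa [hc] at h

include hG hJ hconv hne hfin hty hfd in
/-- HNN extensions -/
theorem p3_hnn {x : X} {t : H} (ht : G.Adj x (t • x)) :
    FiniteDimensional (ZMod 2) ↥(PWh (H := H) G J w) ∧
    Module.finrank (ZMod 2) ↥(PWh (H := H) G J w) + 1 ≤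
      Module.finrank (ZMod 2) ↥(P3 H V) + oc H (BZ H J) := by
  obtain ⟨χ, h0, h1⟩ := exists_chiHnn (H := H) hG.tree hG.adj_smul ht
  exact p3_step_lt hG hJ hconv hne hfin hty hfd h0 (fun a ha => h1 w a ha)
    (fun x _ y _ a ha _ => h1 x a ha)

include hG hJ hconv hne hfin hty hfd in
/-- a midpoint `u` whose stabiliser has a subgroup `U0` of index two which contains the stabilisers of
the edges at `u` and the stabilisers of the points over `u` -/
theorem p3_mid {u : X} (U0 : Subgroup H) (hu : ∀ h : H, h • u ≠ w)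
    (hU : ∀ v, G.Adj u v → ∀ a : H, a • u = u → a • v = v → a ∈ U0)
    {b : H} (hb : b • u = u) (hbJ : b ∉ U0)
    (h2 : ∀ a c : H, a • u = u → c • u = u → (a * c ∈ U0 ↔ (a ∈ U0 ↔ c ∈ U0)))
    (hN : ∀ y, u ∈ J y → ∀ a : H, a • u = u → a • y = y → a ∈ U0) :
    FiniteDimensional (ZMod 2) ↥(PWh (H := H) G J w) ∧
    Module.finrank (ZMod 2) ↥(PWh (H := H) G J w) + 1 ≤
      Module.finrank (ZMod 2) ↥(P3 H V) + oc H (BZ H J) := by
  obtain ⟨χ, h0, h1, h3⟩ := exists_chiU (H := H) hG.tree hG.adj_smul hG.noinv U0 hU hb hbJ h2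
  refine p3_step_lt hG hJ hconv hne hfin hty hfd h0 (fun a ha => ?_) ?_
  · apply h3 w _ a ha
    rintro ⟨h, hh⟩
    exact hu h hh
  · intro x hx y hy a ha hay
    by_cases hxu : ∃ h : H, h • u = x
    · obtain ⟨g, rfl⟩ := hxu
      have ha' : (g⁻¹ * a * g) • u = u := by
        rw [mul_smul, mul_smul, ha, inv_smul_smul]
      rw [← h2_conj' χ g a, h1 _ ha']
      apply hN (g⁻¹ • y) _ _ ha'
      · rw [mul_smul, smul_inv_smul, mul_smul, hay]
      · have := hJ g⁻¹ _ _ hy
        rwa [inv_smul_smul] at this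
    · exact h3 x hxu a ha

end

end Pool.Agent.DI
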