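import Pool.Agent.DI.P3b
import Pool.Agent.DI.KF

/-!
# The step law of `p3` for slices

`P3_le_PWh`: a set of vertices `V'` on which the stabiliser of `w` acts, with a vertex for every edge at
`w` and for every point over `w`, has `P3 ≤ PWh`. `Sys.p3_kf`, `Sys.p3_kf_hnn`, `Sys.p3_kf_mid`: the law for
the folded slice; `Sys.p3_gen`: for every complex on `V'`.
-/

namespace Pool.Agent.DI

open MulAction
open Pool.Agent.SAF (InC FinOrb oc TAct Conv)
open Pool.Agent.SAG (IO Zt)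

section

variable {H V X : Type} [Group H] [MulAction H V] [MulAction H X] {G : SimpleGraph X}
  {J : V → Set X} {w : X} {V' : Type} [MulAction ↥(stabilizer H w) V']

/-- stabilisers of the slice are larger -/
theorem P3_le_PWh
    (h1 : ∀ u, G.Adj w u → ∃ v' : V', ∀ a : ↥(stabilizer H w), a.1 • u = u → a • v' = v')
    (h2 : ∀ y, w ∈ J y → ∃ v' : V', ∀ a : ↥(stabilizer H w), a.1 • y = y → a • v' = v') :
    P3 ↥(stabilizer H w) V' ≤ PWh G J w := by
  intro φ hφ
  refine ⟨fun u e a ha => ?_, fun y e a ha => ?_⟩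
  · obtain ⟨v', h⟩ := h1 u e
    exact hφ v' a (h a ha)
  · obtain ⟨v', h⟩ := h2 y e
    exact hφ v' a (h a ha)

end

namespace Sys

variable {H V : Type} [Group H] [MulAction H V] (S : Sys H V) {w : S.X}

/-- every stabiliser is of `D_inf` type, of `Z` type or fixes a point of the subtree -/
def Ty : Prop := ∀ y, Nonempty (DL ↥(stabilizer H y)) ∨ Zt ↥(stabilizer H y) ∨
  ∃ p ∈ S.J y, ∀ a : H, a • y = y → a • p = p

/-- the broken points of `Z` type -/
def bz : Set V := BZ H S.J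

variable {S}

theorem fin_bz : FinOrb H S.bz := S.K.fin.mono fun _ _ => trivial

variable {V' : Type} [MulAction ↥(stabilizer H w) V']
  (h1 : ∀ u, S.D.G.Adj w u → ∃ v' : V', ∀ a : ↥(stabilizer H w), a.1 • u = u → a • v' = v')
  (h2 : ∀ y, w ∈ S.J y → ∃ v' : V', ∀ a : ↥(stabilizer H w), a.1 • y = y → a • v' = v')
  (hty : S.Ty) (hfd : FiniteDimensional (ZMod 2) ↥(P3 H V))

include h1 h2 hty hfd in
/-- the step law for an arbitrary set of vertices -/
theorem p3_gen : FiniteDimensional (ZMod 2) ↥(P3 ↥(stabilizer H w) V') ∧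
    Module.finrank (ZMod 2) ↥(P3 ↥(stabilizer H w) V') ≤
      Module.finrank (ZMod 2) ↥(P3 H V) + oc H S.bz := by
  obtain ⟨f, h⟩ := p3_step (w := w) S.D.tact (fun h x y => S.js.smul h y x) S.js.conv S.js.ne fin_bz
    hty hfd
  have hle := P3_le_PWh (G := S.D.G) (J := S.J) h1 h2
  exact ⟨Submodule.finiteDimensional_of_le hle, (Submodule.finrank_mono hle).trans h⟩

include h1 h2 hty hfd in
/-- HNN extensions -/
theorem p3_gen_hnn {x : S.X} {t : H} (ht : S.D.G.Adj x (t • x)) :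
    FiniteDimensional (ZMod 2) ↥(P3 ↥(stabilizer H w) V') ∧
    Module.finrank (ZMod 2) ↥(P3 ↥(stabilizer H w) V') + 1 ≤
      Module.finrank (ZMod 2) ↥(P3 H V) + oc H S.bz := by
  obtain ⟨f, h⟩ := p3_hnn (w := w) S.D.tact (fun h x y => S.js.smul h y x) S.js.conv S.js.ne fin_bz
    hty hfd ht
  have hle := P3_le_PWh (G := S.D.G) (J := S.J) h1 h2
  have h4 := Submodule.finrank_mono hle
  exact ⟨Submodule.finiteDimensional_of_le hle, (Nat.add_le_add_right h4 1).trans h⟩

include h1 h2 hty hfd in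
/-- a midpoint without reversed points over it -/
theorem p3_gen_mid {u : S.X} (U0 : Subgroup H) (hu : ∀ h : H, h • u ≠ w)
    (hU : ∀ v, S.D.G.Adj u v → ∀ a : H, a • u = u → a • v = v → a ∈ U0)
    {b : H} (hb : b • u = u) (hbJ : b ∉ U0)
    (h3 : ∀ a c : H, a • u = u → c • u = u → (a * c ∈ U0 ↔ (a ∈ U0 ↔ c ∈ U0)))
    (hN : ∀ y, u ∈ S.J y → ∀ a : H, a • u = u → a • y = y → a ∈ U0) :
    FiniteDimensional (ZMod 2) ↥(P3 ↥(stabilizer H w) V') ∧
    Module.finrank (ZMod 2) ↥(P3 ↥(stabilizer H w) V') + 1 ≤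
      Module.finrank (ZMod 2) ↥(P3 H V) + oc H S.bz := by
  obtain ⟨f, h⟩ := p3_mid (w := w) S.D.tact (fun h x y => S.js.smul h y x) S.js.conv S.js.ne fin_bz
    hty hfd U0 hu hU hb hbJ h3 hN
  have hle := P3_le_PWh (G := S.D.G) (J := S.J) h1 h2
  have h4 := Submodule.finrank_mono hle
  exact ⟨Submodule.finiteDimensional_of_le hle, (Nat.add_le_add_right h4 1).trans h⟩

/-! ### the vertices of the slice -/

theorem sv_tv (u : S.X) (hu : S.D.G.Adj w u) : ∃ v' : S.SV w, ∀ a : ↥(stabilizer H w),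
    a.1 • u = u → a • v' = v' := by
  let e : S.EV w := ⟨u, hu⟩
  refine ⟨Sum.inr e, fun a ha => ?_⟩
  have h : a • e = e := Subtype.ext ha
  exact congrArg Sum.inr h

theorem sv_nv (y : V) (hy : w ∈ S.J y) : ∃ v' : S.SV w, ∀ a : ↥(stabilizer H w),
    a.1 • y = y → a • v' = v' := by
  let e : S.NV w := ⟨y, hy⟩
  refine ⟨Sum.inl e, fun a ha => ?_⟩
  have h : a • e = e := Subtype.ext ha
  exact congrArg Sum.inl h

/-- a set of vertices with an equivariant map from the vertices of the slice -/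
theorem sv_map (f : S.SV w → V') (hf : ∀ (a : ↥(stabilizer H w)) x, f (a • x) = a • f x) :
    (∀ u, S.D.G.Adj w u → ∃ v' : V', ∀ a : ↥(stabilizer H w), a.1 • u = u → a • v' = v') ∧
    ∀ y, w ∈ S.J y → ∃ v' : V', ∀ a : ↥(stabilizer H w), a.1 • y = y → a • v' = v' := by
  constructor
  · intro u hu
    obtain ⟨v, hv⟩ := sv_tv u hu
    exact ⟨f v, fun a ha => by rw [← hf, hv a ha]⟩
  · intro y hy
    obtain ⟨v, hv⟩ := sv_nv y hy
    exact ⟨f v, fun a ha => by rw [← hf, hv a ha]⟩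

end Sys

end Pool.Agent.DI
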