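import Pool.Agent.DI.P3b

/-!
# The general extension law

`ext_law`, `ext_law_lt`: `L` characters of the stabiliser of `w` which vanish on the stabilisers of the
edges at `w`, `P` characters of the group. If the extensions of the members of `L` which vanish at finitely
many elements are in `P` then `dim L ≤ dim P + k`, and `dim L + 1 ≤ dim P + k` if there is a suitable
character `chi` which vanishes on the stabiliser of `w`.
-/

namespace Pool.Agent.DI

open MulAction
open Pool.Agent.SAF (TAct)

section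

variable {H X : Type} [Group H] [MulAction H X] {G : SimpleGraph X} (hG : TAct H G) {w : X}
  (L : Submodule (ZMod 2) (H2m ↥(stabilizer H w))) (P E : Submodule (ZMod 2) (H2m H))
  (hL : ∀ f ∈ L, ∀ u, G.Adj w u → ∀ a : ↥(stabilizer H w), a.1 • u = u → f (Additive.ofMul a) = 0)
  (h1 : ∀ φ : H2m H, res2 (stabilizer H w) φ ∈ L →
    (∀ x, (¬ ∃ h : H, h • w = x) → ∀ a : H, a • x = x → φ (Additive.ofMul a) = 0) → φ ∈ E)
  (h2 : ∀ φ ∈ E, res2 (stabilizer H w) φ ∈ L)
  {ι : Type} [Fintype ι] (z : ι → H)
  (h3 : ∀ φ ∈ E, (∀ i, φ (Additive.ofMul (z i)) = 0) → φ ∈ P)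
  (hfd : FiniteDimensional (ZMod 2) ↥P)

/-- the restriction -/
def rE : ↥E →ₗ[ZMod 2] ↥L := (res2 (stabilizer H w)).restrict h2

include hG hL h1 in
theorem rE_surj : Function.Surjective (rE L E h2) := by
  rintro ⟨f, hf⟩
  obtain ⟨φ, k1, k2⟩ := exists_homA_one hG.tree hG.adj_smul hG.noinv w f (hL f hf)
  have hr : res2 (stabilizer H w) φ = f := h2_ext k1
  refine ⟨⟨φ, h1 φ (by rw [hr]; exact hf) k2⟩, Subtype.ext hr⟩

include h3 hfd in
theorem E_le : FiniteDimensional (ZMod 2) ↥E ∧
    Module.finrank (ZMod 2) ↥E ≤ Module.finrank (ZMod 2) ↥P + Fintype.card ι := by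
  let d : ↥E →ₗ[ZMod 2] (ι → ZMod 2) := (evz z).domRestrict _
  have hk : ∀ x ∈ LinearMap.ker d, x.1 ∈ P := fun x hx => h3 x.1 x.2 (fun i => congrFun hx i)
  let j : ↥(LinearMap.ker d) →ₗ[ZMod 2] ↥P :=
    { toFun := fun x => ⟨x.1.1, hk x.1 x.2⟩
      map_add' := fun _ _ => rfl
      map_smul' := fun _ _ => rfl }
  have hj : Function.Injective j := by
    intro x y h
    have h' : x.1.1 = y.1.1 := congrArg (fun w : ↥P => w.1) h
    exact Subtype.ext (Subtype.ext h')
  have f1 : FiniteDimensional (ZMod 2) ↥(LinearMap.ker d) := FiniteDimensional.of_injective j hj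
  have f2 : FiniteDimensional (ZMod 2) ↥E := by
    have e := d.quotKerEquivRange
    have f3 : FiniteDimensional (ZMod 2) (↥E ⧸ LinearMap.ker d) := Module.Finite.equiv e.symm
    exact Module.Finite.of_submodule_quotient (LinearMap.ker d)
  refine ⟨f2, ?_⟩
  have h4 := LinearMap.finrank_range_add_finrank_ker d
  have h5 := LinearMap.finrank_le_finrank_of_injective hj
  have h6 : Module.finrank (ZMod 2) ↥(LinearMap.range d) ≤ Fintype.card ι := by
    have := Submodule.finrank_le (LinearMap.range d)
    rwa [Module.finrank_fintype_fun_eq_card] at this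
  omega

include hG hL h1 h2 h3 hfd in
/-- the extension law -/
theorem ext_law : FiniteDimensional (ZMod 2) ↥L ∧
    Module.finrank (ZMod 2) ↥L ≤ Module.finrank (ZMod 2) ↥P + Fintype.card ι := by
  obtain ⟨f1, h4⟩ := E_le P E z h3 hfd
  have hs := rE_surj hG L E hL h1 h2
  exact ⟨Module.Finite.of_surjective _ hs,
    (LinearMap.finrank_le_finrank_of_surjective hs).trans h4⟩

include hG hL h1 h2 h3 hfd in
/-- the strict extension law -/
theorem ext_law_lt {χ : H2m H} (h0 : χ ≠ 0) (hE : χ ∈ E)
    (hw : ∀ a : H, a • w = w → χ (Additive.ofMul a) = 0) : FiniteDimensional (ZMod 2) ↥L ∧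
    Module.finrank (ZMod 2) ↥L + 1 ≤ Module.finrank (ZMod 2) ↥P + Fintype.card ι := by
  obtain ⟨f1, h4⟩ := E_le P E z h3 hfd
  have hs := rE_surj hG L E hL h1 h2
  refine ⟨Module.Finite.of_surjective _ hs, ?_⟩
  have h5 := LinearMap.finrank_range_add_finrank_ker (rE L E h2)
  rw [LinearMap.range_eq_top.2 hs, finrank_top] at h5
  have h6 : 0 < Module.finrank (ZMod 2) ↥(LinearMap.ker (rE L E h2)) := by
    rw [Module.finrank_pos_iff_exists_ne_zero]
    refine ⟨⟨⟨χ, hE⟩, ?_⟩, ?_⟩
    · rw [LinearMap.mem_ker]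
      apply Subtype.ext
      apply h2_ext
      intro a
      exact hw a.1 a.2
    · intro e
      exact h0 (congrArg (fun x => x.1.1) e)
  omega

end

/-- the characters which vanish on the subgroups of a family -/
def PF (H : Type) {Y : Type} [Group H] (F : Y → Subgroup H) : Submodule (ZMod 2) (H2m H) where
  carrier := {φ | ∀ (y : Y) (a : H), a ∈ F y → φ (Additive.ofMul a) = 0}
  add_mem' := by
    intro φ ψ h k y a e
    rw [AddMonoidHom.add_apply, h y a e, k y a e, add_zero]
  zero_mem' := fun _ _ _ => rfl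
  smul_mem' := by
    intro c φ h y a e
    show c • φ (Additive.ofMul a) = 0
    rw [h y a e, smul_zero]

theorem mem_PF {H Y : Type} [Group H] {F : Y → Subgroup H} {φ : H2m H} : φ ∈ PF H F ↔
    ∀ (y : Y) (a : H), a ∈ F y → φ (Additive.ofMul a) = 0 := Iff.rfl

/-- characters are determined by generators -/
theorem h2_closure {H : Type} [Group H] {φ : H2m H} {A : Set H}
    (h : ∀ a ∈ A, φ (Additive.ofMul a) = 0) {a : H} (ha : a ∈ Subgroup.closure A) :
    φ (Additive.ofMul a) = 0 := by
  induction ha using Subgroup.closure_induction with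
  | mem a ha => exact h a ha
  | one => exact h2_one φ
  | mul a b _ _ h1 h2 => rw [h2_mul, h1, h2, add_zero]
  | inv a _ h1 => rw [h2_inv, h1, neg_zero]

/-- larger groups, fewer characters -/
theorem PF_mono {H Y Y' : Type} [Group H] {F : Y → Subgroup H} {F' : Y' → Subgroup H}
    (h : ∀ y, ∃ y', F y ≤ F' y') : PF H F' ≤ PF H F := by
  intro φ hφ y a ha
  obtain ⟨y', h'⟩ := h y
  exact hφ y' a (h' ha)

/-- a finitely generated group has finitely many characters -/
theorem finite_H2m {H : Type} [Group H] [hfg : Group.FG H] : FiniteDimensional (ZMod 2) (H2m H) := by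
  obtain ⟨S, hS⟩ := Group.fg_def.1 hfg
  let ev : H2m H →ₗ[ZMod 2] (↥S → ZMod 2) :=
    { toFun := fun φ s => φ (Additive.ofMul s.1)
      map_add' := fun _ _ => rfl
      map_smul' := fun _ _ => rfl }
  have hi : Function.Injective ev := by
    intro φ ψ h
    apply h2_ext
    intro a
    have h0 : (φ - ψ) (Additive.ofMul a) = 0 := by
      apply h2_closure (A := (S : Set H)) (φ := φ - ψ)
      · intro s hs
        have := congrFun h ⟨s, hs⟩
        show φ (Additive.ofMul s) - ψ (Additive.ofMul s) = 0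
        exact sub_eq_zero.2 this
      · rw [hS]
        trivial
    exact sub_eq_zero.1 h0
  exact FiniteDimensional.of_injective ev hi

end Pool.Agent.DI
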