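import Pool.Agent.DI.LemV
import Pool.Agent.DI.OvQ
import Pool.Agent.DI.DTree
import Pool.Agent.DI.Psv

/-!
# `P_5` at walls of `Z` type, and the common part of `P_4` and `P_5`

`pz_comm`: an element of finite order which commutes with an element of infinite order of the stabiliser
of `y` fixes an edge of the tree, or `y` is elliptic. `pz_cross`: elements which fix the poles of `y`
fix the subtree `J y` pointwise. `S.PzH hc w O`: the hypotheses. `P5Z`: at walls of `Z` type a character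
of `H` whose restriction to `H_w` is in `P_5` of the folded slice is in `P_5` of `K`.
-/

namespace Pool.Agent.DI

open MulAction
open Pool.Agent.SAF (InC SA orbs FinOrb oc Decomp SAn Conv hull dist_edge FinOrb_iff exists_next TAct)
open Pool.Agent.SAG (IO Zt)
open Pool.Agent.BT (PX PQ JS bey exits Ell Hyp lz lz_self lz_ne lz_symm x_next_unique)
open Pool.Agent.BT.TA

/-! ### elements of finite order on a tree -/

section tree

variable {H X : Type} [Group H] [MulAction H X] {G : SimpleGraph X}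

theorem pz_bey {p q t : X} (e : G.dist p q = G.dist t q + 1) : q ∈ bey G p t := by
  show G.dist q p = G.dist q t + 1
  rw [SimpleGraph.dist_comm, e, SimpleGraph.dist_comm]

/-- an element with two fixed points fixes an edge -/
theorem pz_edge (hG : TAct H G) {a : H} {p q : X} (hp : a • p = p) (hq : a • q = q)
    (hne : p ≠ q) : ∃ t, G.Adj p t ∧ a • t = t := by
  obtain ⟨t, ht, e⟩ := exists_next hG.tree hne
  have hC := fix_conv hG ({a} : Set H)
  have hpC : p ∈ {x : X | ∀ b ∈ ({a} : Set H), b • x = x} := by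
    intro b hb
    rw [Set.mem_singleton_iff.1 hb]
    exact hp
  have hqC : q ∈ {x : X | ∀ b ∈ ({a} : Set H), b • x = x} := by
    intro b hb
    rw [Set.mem_singleton_iff.1 hb]
    exact hq
  have h := conv_cr hG.tree hC ht hpC hqC (bey_self ht.symm) (pz_bey e)
  exact ⟨t, ht, h.2 a rfl⟩

/-- an element of finite order has a fixed point -/
theorem pz_fixpt (hG : TAct H G) [Nonempty X] {a : H} (h : ¬ IO a) : ∃ z : X, a • z = z := by
  have h1 : IsOfFinOrder a := by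
    unfold Pool.Agent.SAG.IO at h
    push Not at h
    obtain ⟨n, hn, e⟩ := h
    exact isOfFinOrder_iff_pow_eq_one.2 ⟨n, hn, e⟩
  have h2 : Finite ↥(Subgroup.zpowers a) := by
    have := h1.finite_zpowers
    exact this.to_subtype
  obtain ⟨z, hz⟩ := Pool.Agent.SAG.fix_of_finite hG (Subgroup.zpowers a) h2
  exact ⟨z, hz a (Subgroup.mem_zpowers a)⟩

end tree

namespace SyQ

variable {H V : Type} [Group H] [MulAction H V] {S : SyQ H V}

theorem pz_comm {y : V} {a t : H} (hio : ¬ IO a) (ht : t • y = y) (hti : IO t)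
    (e : a * t = t * a) : (∃ x z : S.X, S.D.G.Adj x z ∧ a • x = x ∧ a • z = z) ∨
      Ell H S.X y := by
  have : Nonempty S.X := S.D.tree.connected.nonempty
  obtain ⟨p, hp⟩ := pz_fixpt S.D.tact hio
  by_cases htp : t • p = p
  · right
    by_contra hcon
    have hy : Hyp S.X (stabilizer H y) := by
      unfold Ell at hcon
      push Not at hcon
      exact hcon
    have hf : Finite ↥(Subgroup.zpowers t) := by
      refine Pool.Agent.BT.finite_of_hyp S.D.tact (S.K.stab y) hy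
        (B := Subgroup.zpowers t) ?_ (w := p) ?_
      · rw [Subgroup.zpowers_le]
        exact ht
      · intro b hb
        exact smul_eq_self_of_mem_zpowers hb htp
    refine Pool.Agent.SAG.not_IO_finite (⟨t, Subgroup.mem_zpowers t⟩ : ↥(Subgroup.zpowers t)) ?_
    exact io_coe.1 hti
  · left
    have h1 : a • t • p = t • p := by rw [← mul_smul, e, mul_smul, hp]
    obtain ⟨z, hz, hz'⟩ := pz_edge S.D.tact hp h1 (Ne.symm htp)
    exact ⟨p, z, hz, hp, hz'⟩

/-- pure elements fix the subtree -/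
theorem pz_cross {y : V} (hs : ∃ b, S.K.ar y b) {x z : S.X} (hxz : S.D.G.Adj x z)
    (hx : x ∈ S.J y) (hz : z ∈ S.J y) {a : H} (ha : a • y = y)
    (hp : ∀ b, S.K.ar y b → a • b = b) : a • x = x ∧ a • z = z := by
  obtain ⟨b1, k1, l1⟩ := S.js.cross y hs x z hxz hx hz
  obtain ⟨b2, k2, l2⟩ := S.js.cross y hs z x hxz.symm hz hx
  have k1 : S.K.ar y b1 := k1
  have k2 : S.K.ar y b2 := k2
  have key : ∀ b, S.K.ar y b → ∃ p, p ∈ S.J b ∧ a • p = p := by
    intro b hb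
    obtain ⟨p, p0, p1⟩ := S.one_ex (Or.inl hb : S.K.E y b)
    refine ⟨p, p1, ?_⟩
    have h1 := S.js.smul a _ _ p0
    have h2 := S.js.smul a _ _ p1
    rw [ha] at h1
    rw [hp b hb] at h2
    exact S.one_eq (Or.inl hb : S.K.E y b) h1 h2 p0 p1
  obtain ⟨p1, q1, r1⟩ := key b1 k1
  obtain ⟨p2, q2, r2⟩ := key b2 k2
  have hC := fix_conv S.D.tact ({a} : Set H)
  have h := conv_cr S.D.tree hC hxz (a := p2) (b := p1) (by
    intro b hb
    rw [Set.mem_singleton_iff.1 hb]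
    exact r2) (by
    intro b hb
    rw [Set.mem_singleton_iff.1 hb]
    exact r1) (l2 q2) (l1 q1)
  exact ⟨h.1 a rfl, h.2 a rfl⟩

theorem pz_Jsmul {y : V} {p : S.X} (h : S.J y = {p}) (g : H) : S.J (g • y) = {g • p} := by
  ext x
  constructor
  · intro hx
    have h1 := S.js.smul g⁻¹ _ _ hx
    rw [inv_smul_smul, h] at h1
    have h2 : g⁻¹ • x = p := h1
    rw [Set.mem_singleton_iff, ← h2, smul_inv_smul]
  · intro hx
    rw [Set.mem_singleton_iff.1 hx]
    refine S.js.smul g _ _ ?_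
    rw [h]
    exact rfl

theorem pz_single {y : V} (h : ¬ ∃ x z, S.D.G.Adj x z ∧ x ∈ S.J y ∧ z ∈ S.J y) :
    ∃ p, S.J y = {p} := by
  obtain ⟨p, hp⟩ := S.js.ne y
  refine ⟨p, ?_⟩
  ext q
  constructor
  · intro hq
    by_contra hne
    have hne' : p ≠ q := fun e => hne e.symm
    obtain ⟨u, hu, e⟩ := exists_next S.D.tree hne'
    have := conv_cr S.D.tree (S.js.conv y) hu hp hq (bey_self hu.symm) (pz_bey e)
    exact h ⟨p, u, hu, this.1, this.2⟩
  · rintro rfl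
    exact hp

/-- the stabiliser of a soft which is not together with its pole is finite -/
theorem pz_finite (tog : ∀ x a, S.K.ar x a → Infinite ↥(stabilizer H ((x, a) : V × V)) → S.Tog x a)
    {y b : V} (hb : S.K.ar y b) (h : ¬ S.Tog y b) : Finite ↥(stabilizer H y) := by
  by_contra hcon
  have : Infinite ↥(stabilizer H y) := not_finite_iff_infinite.1 hcon
  exact h (tog y b hb (inf_pole (K := S.K) hb this))

theorem pz_nio {y : V} (h : Finite ↥(stabilizer H y)) {a : H} (ha : a • y = y) : ¬ IO a := by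
  intro k
  exact Pool.Agent.SAG.not_IO_finite (⟨a, ha⟩ : ↥(stabilizer H y)) (io_coe.1 k)

variable (S) in
/-- THE HYPOTHESES OF THE LAWS OF `p_4` AND `p_5` (part outside the broken vertices) -/
structure PzH (hc : S.Conn) (w : S.X) (O : S.OR w) : Prop where
  k0m : (S.k0 hc w).Min
  sqn : S.SqN w O
  nb : S.NB
  soft : ∀ x a, S.K.ar x a → Ell H S.X x
  one : ∀ z, (∀ a, ¬ S.K.ar z a) → Ell H S.X z → ∃ p, S.J z = {p}
  tog : ∀ x a, S.K.ar x a → Infinite ↥(stabilizer H ((x, a) : V × V)) → S.Tog x a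
  lc : ∀ v, S.K.LC v
  nf : O.Nf
  edge : ∀ x z, S.D.G.Adj x z → (∃ h : H, h • w = x) ∨ ∃ h : H, h • w = z
  mid : ∀ p, (∃ h : H, h • w = p) ∨ ∃ (h : H) (w1 w2 : S.X), S.Mp w1 (h • p) w2
  /-- at hubs with two diamonds the groups of the pieces fix an edge -/
  dq : ∀ q n g u u', S.J q = {w} → S.Dia w u q → S.Dia w u' q → u ≠ u' → S.K.PG q n g →
    ∃ v, S.D.G.Adj w v ∧ g • v = v
  /-- the sinks `t_u` are in cells -/
  tu : ∀ u, (S.kf hc w O).VC (S.fq w O (Sum.inr u))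

variable {hc : S.Conn} {w : S.X} {O : S.OR w}

/-- the character kills the elements of finite order which fix an edge -/
def Ek (S : SyQ H V) (φ : H2m H) : Prop := ∀ (a : H) (x z : S.X), S.D.G.Adj x z → a • x = x →
  a • z = z → ¬ IO a → φ (Additive.ofMul a) = 0

/-- it is enough to look at the edges at `w` -/
theorem PzH.ek (h : S.PzH hc w O) {φ : H2m H} (hk : ∀ (a : H) (u : S.X), S.D.G.Adj w u →
    a • w = w → a • u = u → ¬ IO a → φ (Additive.ofMul a) = 0) : S.Ek φ := by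
  have key : ∀ (a : H) (x z : S.X), S.D.G.Adj x z → (∃ g : H, g • w = x) → a • x = x →
      a • z = z → ¬ IO a → φ (Additive.ofMul a) = 0 := by
    rintro a x z hxz ⟨g, rfl⟩ hx hz hio
    have h1 : S.D.G.Adj w (g⁻¹ • z) := by
      have := S.D.adj_smul g⁻¹ _ _ hxz
      rwa [inv_smul_smul] at this
    have h2 : (g⁻¹ * a * g) • w = w := by
      rw [mul_smul, mul_smul, hx, inv_smul_smul]
    have h3 : (g⁻¹ * a * g) • g⁻¹ • z = g⁻¹ • z := by
      rw [mul_smul, mul_smul, smul_inv_smul, hz]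
    have h4 : ¬ IO (g⁻¹ * a * g) := by
      intro k
      apply hio
      have := k.conj g
      have e : g * (g⁻¹ * a * g) * g⁻¹ = a := by group
      rwa [e] at this
    have := hk _ _ h1 h2 h3 h4
    rwa [h2_conj'] at this
  intro a x z hxz hx hz hio
  rcases h.edge x z hxz with hg | hg
  · exact key a x z hxz hg hx hz hio
  · exact key a z x hxz.symm hg hz hx hio

/-- walls of `Z` type -/
theorem PzH.ek5 (h : S.PzH hc w O) (hz : ∀ u, S.D.G.Adj w u →
    Infinite ↥(stabilizer H w ⊓ stabilizer H u) ∧ Zt ↥(stabilizer H w ⊓ stabilizer H u))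
    {φ : H2m H} (hφ : res2 (stabilizer H w) φ ∈ (S.kf hc w O).P5) : S.Ek φ := by
  refine h.ek fun a u hu hw hau hio => ?_
  obtain ⟨hi, hzt⟩ := hz u hu
  obtain ⟨t, ht, h1, h2⟩ := zt_comm hzt hi (show a ∈ stabilizer H w ⊓ stabilizer H u from
    ⟨hw, hau⟩) hio
  refine hφ.1 _ (vdz_t_snk hc O ⟨u, hu⟩) (h.tu _) ⟨a, hw⟩ ⟨(vdz_t_stab _ _).2 hau, ?_,
    ⟨t, ht.1⟩, (vdz_t_stab _ _).2 ht.2, ?_, ?_⟩
  · exact fun k => hio (io_coe.2 k)
  · exact io_coe.1 h1
  · exact Subtype.ext h2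

/-- the place of an elliptic sink -/
theorem PzH.place (h : S.PzH hc w O) {y : V} (hs : S.K.Snk y) (he : Ell H S.X y) :
    ∃ g : H, S.J (g • y) = {w} := by
  obtain ⟨p, hp⟩ := h.one y hs he
  rcases h.mid p with ⟨g, hg⟩ | ⟨g, w1, w2, m⟩
  · refine ⟨g⁻¹, ?_⟩
    rw [pz_Jsmul hp, ← hg, inv_smul_smul]
  · exfalso
    have h1 := pz_Jsmul hp g
    have h2 := m.snk (g • y) (hs.smul g) (by rw [h1]; exact rfl)
    have h3 := h2.1
    rw [h1] at h3
    exact m.mid.hw.ne (Set.mem_singleton_iff.1 h3).symm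

/-- SINKS: `P_5` -/
theorem PzH.snk5 (h : S.PzH hc w O) {φ : H2m H} (he : S.Ek φ)
    (hφ : res2 (stabilizer H w) φ ∈ (S.kf hc w O).P5) {y : V} (hs : S.K.Snk y) (hv : S.K.VC y)
    {a : H} (ha : NY y a) : φ (Additive.ofMul a) = 0 := by
  obtain ⟨hay, hio, t, hty, hti, e⟩ := ha
  rcases pz_comm hio hty hti e with ⟨x, z, hxz, hx, hz⟩ | hell
  · exact he a x z hxz hx hz hio
  · obtain ⟨g, hg⟩ := h.place hs hell
    have hN : NY (g • y) (g * a * g⁻¹) := NY.smul g ⟨hay, hio, t, hty, hti, e⟩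
    rw [← h2_conj φ g a]
    rcases uk_snk h.k0m h.sqn h.nb hg (hs.smul g) (h.lc _) (hv.smul g) with k | ⟨u, hu, k⟩
    · obtain ⟨h1, h2, t', h3, h4, h5⟩ := hN
      refine hφ.1 _ (uk_snk_kf hg (hs.smul g)) k ⟨g * a * g⁻¹, uk_fw hg h1⟩ ⟨uk_fix_cls hg h1, ?_,
        ⟨t', uk_fw hg h3⟩, uk_fix_cls hg h3, io_coe.1 h4, Subtype.ext h5⟩
      exact fun k => h2 (io_coe.2 k)
    · exact he _ w u hu (uk_fw hg hN.1) (k _ hN.1) hN.2.1

/-- a vertex with a pole which crosses an edge and `J y` one point -/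
theorem PzH.fin_of (h : S.PzH hc w O) {y b : V} (hb : S.K.ar y b) {x z : S.X}
    (hxz : S.D.G.Adj x z) (hx : x ∈ S.J b) (hz : z ∈ S.J b) : Finite ↥(stabilizer H y) := by
  refine pz_finite h.tog hb ?_
  rintro ⟨p, h1, h2⟩
  rw [h2] at hx hz
  exact hxz.ne ((Set.mem_singleton_iff.1 hx).trans (Set.mem_singleton_iff.1 hz).symm)

theorem PzH.fin_of' (h : S.PzH hc w O) {y b : V} (hb : S.K.ar y b) {x z : S.X}
    (hxz : S.D.G.Adj x z) (hx : x ∈ S.J y) (hz : z ∈ S.J y) : Finite ↥(stabilizer H y) := by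
  refine pz_finite h.tog hb ?_
  rintro ⟨p, h1, h2⟩
  rw [h1] at hx hz
  exact hxz.ne ((Set.mem_singleton_iff.1 hx).trans (Set.mem_singleton_iff.1 hz).symm)

/-- over a midpoint the groups of the pieces fix an edge -/
theorem pz_mid {w1 u w2 : S.X} (m : S.Mp w1 u w2) {y n : V} {a : H} (hy : S.J y = {u})
    (hpg : S.K.PG y n a) : ∃ t, S.D.G.Adj u t ∧ a • u = u ∧ a • t = t ∧
      ∀ b, S.K.ar y b → u ∈ S.J b ∧ t ∈ S.J b := by
  have key : ∀ {w1 w2 : S.X}, S.Mp w1 u w2 → w1 ∈ S.J n → ∃ t, S.D.G.Adj u t ∧ a • u = u ∧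
      a • t = t ∧ ∀ b, S.K.ar y b → u ∈ S.J b ∧ t ∈ S.J b := by
    intro w1 w2 m h1
    obtain ⟨-, hn, -, hay, hij⟩ := hpg
    have hau : a • u = u := m.fix_u hy hay
    have hpc : S.K.PC y n (a • n) := by
      refine Relation.EqvGen.mono ?_ _ _ hij
      rintro x z ⟨k1, k2, k3⟩
      exact ⟨k2, k3, k1⟩
    have h2 := (m.pc_side hy hpc).1 ⟨hn, h1⟩
    have h3 : a • w1 ∈ S.J (a • n) := S.js.smul a _ _ h1
    have h4 : a • w1 = w1 := by
      rcases m.mid.cases hau with k | k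
      · exact k.1
      · rw [k.1] at h3
        exact (m.page_one hy h2.1 h2.2 h3).elim
    refine ⟨w1, m.mid.hw, hau, h4, fun b hb => ⟨?_, m.page_pole hy hn h1 hb⟩⟩
    exact (m.nb hy (Or.inl hb)).1
  rcases (m.nb hy (Or.inr hpg.2.1)).2 with h | h
  · exact key m h
  · exact key m.symm h

/-- VERTICES WITH POLES, ONE PLACE: either the elements are in the groups of the folded slice or they
fix an edge -/
theorem PzH.pg (h : S.PzH hc w O) {y n : V} {a : H} (hpg : S.K.PG y n a)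
    (hJ : ∃ p, S.J y = {p}) : (∃ x z : S.X, S.D.G.Adj x z ∧ a • x = x ∧ a • z = z ∧ ¬ IO a) ∨
    ∃ (g : H) (hq : S.J (g • y) = {w}) (m : S.Q w O),
      (S.kf hc w O).PG (S.fq w O (S.rho w (g • y))) m
        ⟨g * a * g⁻¹, uk_fw hq (hpg.smul g).2.2.2.1⟩ := by
  obtain ⟨p, hp⟩ := hJ
  have back : ∀ (g : H) (x z : S.X), S.D.G.Adj x z → (g * a * g⁻¹) • x = x →
      (g * a * g⁻¹) • z = z → ¬ IO (g * a * g⁻¹) →
      ∃ x z : S.X, S.D.G.Adj x z ∧ a • x = x ∧ a • z = z ∧ ¬ IO a := by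
    intro g x z hxz hx hz hio
    have e : ∀ x : S.X, (g * a * g⁻¹) • x = x → a • g⁻¹ • x = g⁻¹ • x := by
      intro x hx
      rw [mul_smul, mul_smul] at hx
      rw [eq_inv_smul_iff]
      exact hx
    exact ⟨g⁻¹ • x, g⁻¹ • z, S.D.adj_smul g⁻¹ _ _ hxz, e x hx, e z hz, fun k => hio (k.conj g)⟩
  rcases h.mid p with ⟨g, hg⟩ | ⟨g, w1, w2, m⟩
  · have hq : S.J (g⁻¹ • y) = {w} := by
      rw [pz_Jsmul hp, ← hg, inv_smul_smul]
    have hpg' := hpg.smul g⁻¹
    have hgy := hpg'.2.2.2.1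
    by_cases ho : ∀ u, S.D.G.Adj w u → O.op u (g⁻¹ • y)
    · obtain ⟨m, hm⟩ := uk_pg h.k0m h.sqn h.nb h.lc hq ho hpg'
      exact Or.inr ⟨g⁻¹, hq, _, hm⟩
    · left
      -- a hub
      have hd : ∃ u, S.Dia w u (g⁻¹ • y) := by
        by_contra hcon
        push Not at hcon
        exact ho (h.nf.n1 _ (uk_one hq) hcon)
      obtain ⟨u, hd⟩ := hd
      have hyw := uk_fw hq hgy
      obtain ⟨b, hb⟩ := hpg'.1
      have hdt := hd.two hb
      have hfin := h.fin_of hb hdt.1 hdt.2.1 hdt.2.2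
      have hnio : ¬ IO (g⁻¹ * a * g⁻¹⁻¹) := pz_nio hfin hgy
      by_cases hsd : S.SD w u (g⁻¹ • y)
      · have h1 := hsd.1.smul ⟨g⁻¹ * a * g⁻¹⁻¹, hyw⟩
        have h2 : S.Dia w ((g⁻¹ * a * g⁻¹⁻¹) • u) (g⁻¹ • y) := by
          have h3 : S.Dia w ((g⁻¹ * a * g⁻¹⁻¹) • u) ((g⁻¹ * a * g⁻¹⁻¹) • g⁻¹ • y) := h1
          rwa [hgy] at h3
        exact back g⁻¹ w u hdt.1 hyw (hsd.2 _ h2) hnio
      · obtain ⟨u', hd', hne⟩ : ∃ u', S.Dia w u' (g⁻¹ • y) ∧ u' ≠ u := by
          by_contra hcon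
          push Not at hcon
          exact hsd ⟨hd, hcon⟩
        obtain ⟨v, hv, hv'⟩ := h.dq _ _ _ u u' hq hd hd' hne.symm hpg'
        exact back g⁻¹ w v hv hyw hv' hnio
  · left
    have hq : S.J (g • y) = {g • p} := pz_Jsmul hp g
    have hpg' := hpg.smul g
    obtain ⟨t, ht, h1, h2, h3⟩ := pz_mid m hq hpg'
    obtain ⟨b, hb⟩ := hpg'.1
    have hfin := h.fin_of hb ht (h3 b hb).1 (h3 b hb).2
    exact back g _ _ ht h1 h2 (pz_nio hfin hpg'.2.2.2.1)

/-- `P_5` AT WALLS OF `Z` TYPE -/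
theorem PzH.p5 (h : S.PzH hc w O) (hz : ∀ u, S.D.G.Adj w u →
    Infinite ↥(stabilizer H w ⊓ stabilizer H u) ∧ Zt ↥(stabilizer H w ⊓ stabilizer H u))
    (φ : H2m H) (hφ : res2 (stabilizer H w) φ ∈ (S.kf hc w O).P5) : φ ∈ S.K.P5 := by
  have he := h.ek5 hz hφ
  refine ⟨fun y hs hv a ha => h.snk5 he hφ hs hv ha, fun y n a hpg hp => ?_⟩
  by_cases hcr : ∃ x z, S.D.G.Adj x z ∧ x ∈ S.J y ∧ z ∈ S.J y
  · obtain ⟨x, z, hxz, hx, hz⟩ := hcr
    obtain ⟨b, hb⟩ := hpg.1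
    have hf := pz_cross hpg.1 hxz hx hz hpg.2.2.2.1 hp
    exact he a x z hxz hf.1 hf.2 (pz_nio (h.fin_of' hb hxz hx hz) hpg.2.2.2.1)
  · rcases h.pg hpg (pz_single hcr) with ⟨x, z, hxz, hx, hz, hio⟩ | ⟨g, hq, m, hm⟩
    · exact he a x z hxz hx hz hio
    · rw [← h2_conj φ g a]
      refine hφ.2 _ _ ⟨g * a * g⁻¹, uk_fw hq (hpg.smul g).2.2.2.1⟩ hm (fun d hd => ?_)
      refine uk_fix_pole hq (hpg.smul g).2.2.2.1 (fun b hb => ?_) hd
      have h1 : S.K.ar y (g⁻¹ • b) := by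
        have := S.K.ar_smul g⁻¹ _ _ hb
        rwa [inv_smul_smul] at this
      rw [mul_smul, mul_smul, hp _ h1, smul_inv_smul]

end SyQ

end Pool.Agent.DI
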