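import Pool.Agent.DI.PG

/-!
# DI/PG2: the slide inequality with the real gain at the pentagons
-/

namespace Pool.Agent.DI

open MulAction
open Pool.Agent.SAF (InC orbs FinOrb oc)
open Pool.Agent.BT (PX)

variable {H V : Type} [Group H] [MulAction H V]

/-- all in-arrows are moved from vertices of one rank to vertices of one rank, compatible with the
corners of the cells -/
structure PQg {K : GX H V} (P : PG K) where
  S : Sl K
  ρ : ℕ
  ρ' : ℕ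
  rk1 : ∀ n v, S.mv n v → K.rk v = ρ
  rk2 : ∀ n v, S.mv n v → K.rk (S.τ n v) = ρ'
  comp : ∀ (c : Fin 5 → V) (i : K.I), P.At c i → S.mv (c 0) (c 1) →
    (S.mv (c 2) (c 1) ∧ S.τ (c 2) (c 1) = S.τ (c 0) (c 1)) ∨ c 2 = S.τ (c 0) (c 1) ∨
      K.ar (c 1) (c 2)

namespace PQg

variable {K : GX H V} {P : PG K} (Q : PQg P)

/-- the top of a cell which is shortened twice -/
def N (n : V) : Prop := ∃ (d : Fin 5 → V) (i : K.I), P.At d i ∧ d 2 = n ∧ Q.S.mv (d 2) (d 1) ∧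
  K.ar (d 2) (d 3) ∧ Q.S.mv (d 3) (d 4) ∧ d 0 = Q.S.τ (d 2) (d 1) ∧ d 0 = Q.S.τ (d 3) (d 4)

theorem lt1 {n v : V} (h : Q.S.mv n v) : Q.ρ < K.rk n := by
  rw [← Q.rk1 n v h]
  exact K.ar_rk _ _ (Q.S.mv_ar _ _ h)

theorem lt2 {n v : V} (h : Q.S.mv n v) : Q.ρ' < Q.ρ := by
  rw [← Q.rk1 n v h, ← Q.rk2 n v h]
  exact K.ar_rk _ _ (Q.S.τ_ar _ _ h)

theorem rkM {v : V} (h : Q.S.M v) : K.rk v = Q.ρ := by
  obtain ⟨n, hn⟩ := h
  exact Q.rk1 n v hn

/-- a moved vertex is no target -/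
theorem not_mv_of_τ {n v : V} (h : Q.S.mv n v) (w : V) : ¬ Q.S.mv (Q.S.τ n v) w := fun k => by
  have h1 := Q.lt1 k
  rw [Q.rk2 n v h] at h1
  exact absurd (Q.lt2 h) (by omega)

theorem N_smul (h : H) {n : V} (e : Q.N n) : Q.N (h • n) := by
  obtain ⟨d, i, a, rfl, h1, h2, h3, h4, h5⟩ := e
  exact ⟨fun j => h • d j, i, a.smul h, rfl, Q.S.mv_smul h _ _ h1, K.ar_smul h _ _ h2,
    Q.S.mv_smul h _ _ h3, by rw [Q.S.τ_smul h _ _ h1, ← h4], by rw [Q.S.τ_smul h _ _ h3, ← h5]⟩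

/-- the out-neighbours of a top -/
theorem N_out {n : V} (e : Q.N n) : ∃ v m, Q.S.mv n v ∧ K.ar n m ∧ Q.ρ < K.rk m ∧
    (∃ v', Q.S.mv m v' ∧ Q.S.τ m v' = Q.S.τ n v) ∧ ∀ y, K.ar n y → y = v ∨ y = m := by
  obtain ⟨d, i, a, rfl, h1, h2, h3, h4, h5⟩ := e
  refine ⟨d 1, d 3, h1, h2, Q.lt1 h3, ⟨d 4, h3, by rw [← h4, ← h5]⟩, fun y hy => ?_⟩
  have hne : d 1 ≠ d 3 := by
    intro e
    have k1 := Q.rk1 _ _ h1
    have k3 := Q.lt1 h3
    rw [← e] at k3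
    omega
  rcases K.two _ _ _ _ hy (Q.S.mv_ar _ _ h1) h2 with k | k | k
  · exact Or.inl k
  · exact absurd k hne
  · exact Or.inr k

/-- the out-neighbour of rank `ρ` of a top -/
theorem N_uniq {n v v' : V} (e : Q.N n) (hv : K.ar n v) (hv' : K.ar n v') (r : K.rk v = Q.ρ)
    (r' : K.rk v' = Q.ρ) : v = v' := by
  obtain ⟨u, m, h1, h2, h3, -, h4⟩ := Q.N_out e
  have k : ∀ y, K.ar n y → K.rk y = Q.ρ → y = u := by
    intro y hy ry
    rcases h4 y hy with h | h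
    · exact h
    · rw [← h] at h3
      omega
  rw [k v hv r, k v' hv' r']

/-- no out-neighbour of small rank -/
theorem N_ge {n y : V} (e : Q.N n) (hy : K.ar n y) : Q.ρ ≤ K.rk y := by
  obtain ⟨u, m, h1, h2, h3, -, h4⟩ := Q.N_out e
  rcases h4 y hy with h | h
  · rw [h, Q.rk1 _ _ h1]
  · rw [h]
    exact h3.le

/-- the slide of the tops only -/
def SN : Sl K where
  mv n v := Q.S.mv n v ∧ Q.N n
  τ := Q.S.τ
  mv_ar n v h := Q.S.mv_ar n v h.1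
  mv_smul h n v e := ⟨Q.S.mv_smul h n v e.1, Q.N_smul h e.2⟩
  τ_smul h n v e := Q.S.τ_smul h n v e.1
  τ_ar n v e := Q.S.τ_ar n v e.1
  far n v n' v' e e' := Q.S.far n v n' v' e.1 e'.1

/-- the two corner functions -/
noncomputable def s (x v z : V) : ℤ := sg Q.S.mv Q.S.τ x v z

noncomputable def sN (x v z : V) : ℤ := sg Q.SN.mv Q.SN.τ x v z

theorem s_symm (x v z : V) : Q.s x v z = Q.s z v x := sg_symm x v z

theorem sN_symm (x v z : V) : Q.sN x v z = Q.sN z v x := sg_symm x v z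

/-- `s ≥ -1` and the case `s = -1` -/
theorem s_cases (x v z : V) : 0 ≤ Q.s x v z ∨ Q.s x v z = -1 ∧
    ((Q.S.mv x v ∧ z = Q.S.τ x v) ∨ (Q.S.mv z v ∧ x = Q.S.τ z v)) := by
  unfold s sg seg
  by_cases h1 : Q.S.mv x v
  · by_cases h2 : Q.S.mv z v
    · rw [if_pos h1, if_pos h2]
      split_ifs
      · exact Or.inl (by simp)
      · exact Or.inl (by simp)
    · rw [if_pos h1, if_neg h2]
      split_ifs with h3
      · exact Or.inr ⟨by simp, Or.inl ⟨h1, h3⟩⟩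
      · exact Or.inl (by simp)
  · by_cases h2 : Q.S.mv z v
    · rw [if_neg h1, if_pos h2]
      split_ifs with h3
      · exact Or.inr ⟨by simp, Or.inr ⟨h2, h3⟩⟩
      · exact Or.inl (by simp)
    · rw [if_neg h1, if_neg h2]
      exact Or.inl (by simp)

/-- a moved vertex whose partner is not the target -/
theorem s_nonneg {x v z : V} (h1 : Q.S.mv x v) (h2 : z ≠ Q.S.τ x v) : 0 ≤ Q.s x v z := by
  rcases Q.s_cases x v z with h | ⟨-, h | h⟩
  · exact h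
  · exact absurd h.2 h2
  · exfalso
    have := Q.not_mv_of_τ h.1 v
    rw [← h.2] at this
    exact this h1

theorem s_τ {x v z : V} (h1 : Q.S.mv x v) (h2 : z = Q.S.τ x v) : Q.s x v z = -1 :=
  sg_mv_τ h1 (by rw [h2]; exact Q.not_mv_of_τ h1 v) h2

open Classical in
theorem sN_τ {x v z : V} (h1 : Q.S.mv x v) (h2 : z = Q.S.τ x v) :
    Q.sN x v z = if Q.N x then -1 else 0 := by
  have hz : ¬ Q.S.mv z v := by rw [h2]; exact Q.not_mv_of_τ h1 v
  have hz' : ¬ Q.SN.mv z v := fun k => hz k.1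
  split_ifs with h
  · exact sg_mv_τ (mv := Q.SN.mv) (τ := Q.SN.τ) ⟨h1, h⟩ hz' h2
  · exact sg_not_not (mv := Q.SN.mv) (τ := Q.SN.τ) (fun k => h k.2) hz'

/-- `sN ≤ 1` at the corners of the cells and the case `sN = 1` -/
theorem sN_cases {c : Fin 5 → V} {i : K.I} (a : P.At c i) :
    Q.sN (c 0) (c 1) (c 2) ≤ 0 ∨ Q.sN (c 0) (c 1) (c 2) = 1 ∧
    ((Q.S.mv (c 0) (c 1) ∧ Q.N (c 0) ∧ c 2 ≠ Q.S.τ (c 0) (c 1)) ∨
      (Q.S.mv (c 2) (c 1) ∧ Q.N (c 2) ∧ c 0 ≠ Q.S.τ (c 2) (c 1))) := by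
  unfold sN
  by_cases h1 : Q.SN.mv (c 0) (c 1)
  · by_cases h2 : Q.SN.mv (c 2) (c 1)
    · left
      rcases Q.comp c i a h1.1 with h | h | h
      · rw [sg_mv_mv (τ := Q.SN.τ) h1 h2 h.2.symm]
      · exfalso
        have := Q.not_mv_of_τ h1.1 (c 1)
        rw [← h] at this
        exact this h2.1
      · exfalso
        have k1 := K.ar_rk _ _ h
        have k2 := K.ar_rk _ _ (Q.S.mv_ar _ _ h2.1)
        omega
    · by_cases h3 : c 2 = Q.S.τ (c 0) (c 1)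
      · left
        rw [sg_mv_τ (τ := Q.SN.τ) h1 h2 h3]
        simp
      · right
        exact ⟨sg_mv_not h1 h2 h3, Or.inl ⟨h1.1, h1.2, h3⟩⟩
  · by_cases h2 : Q.SN.mv (c 2) (c 1)
    · by_cases h3 : c 0 = Q.S.τ (c 2) (c 1)
      · left
        rw [sg_symm, sg_mv_τ (τ := Q.SN.τ) h2 h1 h3]
        simp
      · right
        rw [sg_symm]
        exact ⟨sg_mv_not h2 h1 h3, Or.inr ⟨h2.1, h2.2, h3⟩⟩
    · left
      rw [sg_not_not h1 h2]

/-- a top between two vertices with moved in-arrows -/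
theorem no_mid (hm : K.Min) {c : Fin 5 → V} {i : K.I} (a : P.At c i) (h1 : Q.S.M (c 1))
    (h3 : Q.S.M (c 3)) : ¬ Q.N (c 2) := by
  intro hN
  have hr : Q.ρ < K.rk (c 2) := by
    obtain ⟨u, m, k1, -⟩ := Q.N_out hN
    exact Q.lt1 k1
  have e1 : K.E (c 1) (c 2) := a.E 1
  have e2 : K.E (c 2) (c 3) := a.E 2
  have r1 := Q.rkM h1
  have r3 := Q.rkM h3
  have a1 : K.ar (c 2) (c 1) := by
    rcases e1 with e | e
    · have := K.ar_rk _ _ e
      omega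
    · exact e
  have a3 : K.ar (c 2) (c 3) := by
    rcases e2 with e | e
    · exact e
    · have := K.ar_rk _ _ e
      omega
  exact a.ne2 hm 1 (Q.N_uniq hN a1 a3 r1 r3)

/-- the sums over the corners of a cell -/
noncomputable def t (i : K.I) : ℤ := csg Q.S.mv Q.S.τ (K.cb i) (K.cw i)

noncomputable def tN (i : K.I) : ℤ := csg Q.SN.mv Q.SN.τ (K.cb i) (K.cw i)

theorem t_eq {c : Fin 5 → V} {i : K.I} (a : P.At c i) :
    Q.t i = ∑ j, Q.s (c j) (c (j + 1)) (c (j + 2)) := by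
  rw [a.corners (F := Q.s) Q.s_symm (fun h x y z => Q.S.sg_smul h x y z)]
  exact P.csg_eq Q.S a.1

theorem tN_eq {c : Fin 5 → V} {i : K.I} (a : P.At c i) :
    Q.tN i = ∑ j, Q.sN (c j) (c (j + 1)) (c (j + 2)) := by
  rw [a.corners (F := Q.sN) Q.sN_symm (fun h x y z => Q.SN.sg_smul h x y z)]
  exact P.csg_eq Q.SN a.1

theorem t_two {c : Fin 5 → V} {i : K.I} (a : P.At c i) (h0 : ¬ Q.S.M (c 0)) (h2 : ¬ Q.S.M (c 2))
    (h4 : ¬ Q.S.M (c 4)) : Q.t i = Q.s (c 0) (c 1) (c 2) + Q.s (c 2) (c 3) (c 4) := by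
  rw [Q.t_eq a]
  exact sum_two h0 h2 h4

theorem tN_two {c : Fin 5 → V} {i : K.I} (a : P.At c i) (h0 : ¬ Q.S.M (c 0)) (h2 : ¬ Q.S.M (c 2))
    (h4 : ¬ Q.S.M (c 4)) : Q.tN i = Q.sN (c 0) (c 1) (c 2) + Q.sN (c 2) (c 3) (c 4) := by
  rw [Q.tN_eq a]
  have k : ∀ v, ¬ Q.S.M v → ¬ Q.SN.M v := fun v hv ⟨n, hn⟩ => hv ⟨n, hn.1⟩
  exact sum_two (k _ h0) (k _ h2) (k _ h4)

/-- (2): a cell which is shortened twice -/
theorem two_le {i : K.I} (hi : P.five i) (ht : Q.t i ≤ -2) : Q.t i = -2 ∧ Q.tN i ≤ -1 := by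
  classical
  obtain ⟨c, a, m0, m2, m4⟩ := P.norm Q.S hi
  rw [Q.t_two a m0 m2 m4] at ht ⊢
  rw [Q.tN_two a m0 m2 m4]
  rcases Q.s_cases (c 0) (c 1) (c 2) with h | ⟨h, h'⟩
  · rcases Q.s_cases (c 2) (c 3) (c 4) with k | ⟨k, -⟩ <;> omega
  rcases Q.s_cases (c 2) (c 3) (c 4) with k | ⟨k, k'⟩
  · omega
  refine ⟨by rw [h, k]; rfl, ?_⟩
  rcases h' with ⟨p1, p2⟩ | ⟨p1, p2⟩
  · rcases k' with ⟨q1, q2⟩ | ⟨q1, q2⟩
    · exfalso
      have := Q.not_mv_of_τ p1 (c 3)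
      rw [← p2] at this
      exact this q1
    · -- the shape
      have e : K.E (c 4) (c 0) := a.E 4
      have f0 : Q.sN (c 0) (c 1) (c 2) = if Q.N (c 0) then -1 else 0 := Q.sN_τ p1 p2
      have f4 : Q.sN (c 2) (c 3) (c 4) = if Q.N (c 4) then -1 else 0 := by
        rw [Q.sN_symm]
        exact Q.sN_τ q1 q2
      have hN : Q.N (c 0) ∨ Q.N (c 4) := by
        rcases e with e | e
        · exact Or.inr ⟨fun j => c (2 + j), i, a.rot 2, rfl, q1, e, p1, q2, p2⟩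
        · exact Or.inl ⟨fun j => c (2 - j), i, a.refl 2, rfl, p1, e, q1, p2, q2⟩
      rw [f0, f4]
      rcases hN with hN | hN
      · rw [if_pos hN]
        split_ifs <;> omega
      · rw [if_pos hN]
        split_ifs <;> omega
  · rcases k' with ⟨q1, q2⟩ | ⟨q1, q2⟩
    · exfalso
      have e : K.E (c 4) (c 0) := a.E 4
      have r0 := Q.rk2 _ _ p1
      have r4 := Q.rk2 _ _ q1
      rw [← p2] at r0
      rw [← q2] at r4
      rcases e with e | e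
      · have := K.ar_rk _ _ e
        omega
      · have := K.ar_rk _ _ e
        omega
    · exfalso
      have := Q.not_mv_of_τ q1 (c 1)
      rw [← q2] at this
      exact this p1

/-- two tops next to each other -/
theorem no_tops (hm : K.Min) {c : Fin 5 → V} {i : K.I} (a : P.At c i) (h1 : Q.S.mv (c 0) (c 1))
    (n0 : Q.N (c 0)) (h3 : Q.S.mv (c 4) (c 3)) (n4 : Q.N (c 4)) (har : K.ar (c 0) (c 4))
    (k1 : c 2 ≠ Q.S.τ (c 0) (c 1)) (k3 : c 2 ≠ Q.S.τ (c 4) (c 3)) : False := by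
  obtain ⟨d, i', a', e2, g1, g2, g3, g4, g5⟩ := id n0
  have q1 : d 1 = c 1 := Q.N_uniq n0 (by rw [← e2]; exact Q.S.mv_ar _ _ g1) (Q.S.mv_ar _ _ h1)
    (Q.rk1 _ _ g1) (Q.rk1 _ _ h1)
  have q3 : d 3 = c 4 := by
    obtain ⟨u, m, j1, j2, j3, -, j4⟩ := Q.N_out n0
    have key : ∀ y, K.ar (c 0) y → Q.ρ < K.rk y → y = m := by
      intro y hy ry
      rcases j4 y hy with h | h
      · rw [h, Q.rk1 _ _ j1] at ry
        omega
      · exact h
    rw [key (d 3) (by rw [← e2]; exact g2) (Q.lt1 g3), key (c 4) har (Q.lt1 h3)]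
  have q4 : d 4 = c 3 := by
    rw [q3] at g3
    exact Q.N_uniq n4 (Q.S.mv_ar _ _ g3) (Q.S.mv_ar _ _ h3) (Q.rk1 _ _ g3) (Q.rk1 _ _ h3)
  have hi : i = i' := (a.refl 2).uniq hm a' q1.symm e2.symm q3.symm q4.symm
  subst hi
  have z0 : ¬ Q.S.M (c 0) := fun k => by
    have := Q.rkM k
    have := Q.lt1 h1
    omega
  have z4 : ¬ Q.S.M (c 4) := fun k => by
    have := Q.rkM k
    have := Q.lt1 h3
    omega
  have z2 : ¬ Q.S.M (c 2) := fun k => Q.S.not_MM ⟨_, h1⟩ k (a.E 1)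
  have t1 := Q.t_two a z0 z2 z4
  have t2 := Q.t_two (a'.refl 2) (by
      show ¬ Q.S.M (d 2)
      rw [e2]; exact z0) (by
      show ¬ Q.S.M (d 0)
      exact fun k => Q.S.not_MM k ⟨_, g1⟩ (a'.E 0)) (by
      show ¬ Q.S.M (d 3)
      rw [q3]; exact z4)
  have s1 : 0 ≤ Q.s (c 0) (c 1) (c 2) := Q.s_nonneg h1 k1
  have s3 : 0 ≤ Q.s (c 2) (c 3) (c 4) := by
    rw [Q.s_symm]
    exact Q.s_nonneg h3 k3
  have u1 : Q.s (d 2) (d 1) (d 0) = -1 := Q.s_τ g1 g4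
  have u3 : Q.s (d 0) (d 4) (d 3) = -1 := by
    rw [Q.s_symm]
    exact Q.s_τ g3 g5
  have t3 : Q.t i = Q.s (d 2) (d 1) (d 0) + Q.s (d 0) (d 4) (d 3) := t2
  omega

/-- (3) -/
theorem tN_le (hm : K.Min) {i : K.I} (hi : P.five i) : Q.tN i ≤ 1 := by
  obtain ⟨c, a, m0, m2, m4⟩ := P.norm Q.S hi
  rw [Q.tN_two a m0 m2 m4]
  rcases Q.sN_cases a with h | ⟨h, h'⟩
  · rcases Q.sN_cases (a.rot 2) with k | ⟨k, -⟩
    · have k : Q.sN (c 2) (c 3) (c 4) ≤ 0 := k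
      omega
    · have k : Q.sN (c 2) (c 3) (c 4) = 1 := k
      omega
  · rcases Q.sN_cases (a.rot 2) with k | ⟨k, k'⟩
    · have k : Q.sN (c 2) (c 3) (c 4) ≤ 0 := k
      omega
    · exfalso
      have k' : (Q.S.mv (c 2) (c 3) ∧ Q.N (c 2) ∧ c 4 ≠ Q.S.τ (c 2) (c 3)) ∨
        (Q.S.mv (c 4) (c 3) ∧ Q.N (c 4) ∧ c 2 ≠ Q.S.τ (c 4) (c 3)) := k'
      have M1 : Q.S.M (c 1) := by
        rcases h' with h' | h'
        · exact ⟨_, h'.1⟩
        · exact ⟨_, h'.1⟩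
      have M3 : Q.S.M (c 3) := by
        rcases k' with h' | h'
        · exact ⟨_, h'.1⟩
        · exact ⟨_, h'.1⟩
      have hn := Q.no_mid hm a M1 M3
      rcases h' with ⟨p1, p2, p3⟩ | ⟨-, p2, -⟩
      · rcases k' with ⟨-, q2, -⟩ | ⟨q1, q2, q3⟩
        · exact hn q2
        · rcases (a.E 4 : K.E (c 4) (c 0)) with e | e
          · exact Q.no_tops hm (a.refl 4) q1 q2 p1 p2 e q3 p3
          · exact Q.no_tops hm a p1 p2 q1 q2 e p3 q3
      · exact hn p2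

/-- (4): a corner with a top which is no target corner -/
theorem tN_pos (hm : K.Min) {i : K.I} (hi : P.five i) (ht : 1 ≤ Q.tN i) : 0 ≤ Q.t i ∧
    ∃ c : Fin 5 → V, P.At c i ∧ Q.S.mv (c 0) (c 1) ∧ Q.N (c 0) ∧ c 2 ≠ Q.S.τ (c 0) (c 1) := by
  obtain ⟨c, a, m0, m2, m4, hc⟩ : ∃ c, P.At c i ∧ ¬ Q.S.M (c 0) ∧ ¬ Q.S.M (c 2) ∧ ¬ Q.S.M (c 4) ∧
      Q.sN (c 0) (c 1) (c 2) = 1 := by
    obtain ⟨c, a, m0, m2, m4⟩ := P.norm Q.S hi
    rw [Q.tN_two a m0 m2 m4] at ht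
    rcases Q.sN_cases a with h | ⟨h, h'⟩
    · refine ⟨_, a.refl 4, m4, m2, m0, ?_⟩
      show Q.sN (c 4) (c 3) (c 2) = 1
      rcases Q.sN_cases (a.refl 4) with k | ⟨k, -⟩
      · have k : Q.sN (c 4) (c 3) (c 2) ≤ 0 := k
        rw [Q.sN_symm] at k
        omega
      · exact k
    · exact ⟨c, a, m0, m2, m4, h⟩
  have h' : (Q.S.mv (c 0) (c 1) ∧ Q.N (c 0) ∧ c 2 ≠ Q.S.τ (c 0) (c 1)) ∨
      (Q.S.mv (c 2) (c 1) ∧ Q.N (c 2) ∧ c 0 ≠ Q.S.τ (c 2) (c 1)) := by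
    rcases Q.sN_cases a with h | ⟨-, h'⟩
    · omega
    · exact h'
  constructor
  · rw [Q.t_two a m0 m2 m4]
    have s1 : 0 ≤ Q.s (c 0) (c 1) (c 2) := by
      rcases h' with h' | h'
      · exact Q.s_nonneg h'.1 h'.2.2
      · rw [Q.s_symm]
        exact Q.s_nonneg h'.1 h'.2.2
    rcases Q.s_cases (c 2) (c 3) (c 4) with k | ⟨k, k'⟩
    · omega
    have M1 : Q.S.M (c 1) := by
      rcases h' with h' | h'
      · exact ⟨_, h'.1⟩
      · exact ⟨_, h'.1⟩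
    have M3 : Q.S.M (c 3) := by
      rcases k' with h' | h'
      · exact ⟨_, h'.1⟩
      · exact ⟨_, h'.1⟩
    have hn := Q.no_mid hm a M1 M3
    rcases h' with ⟨p1, p2, p3⟩ | ⟨-, p2, -⟩
    · rcases k' with ⟨q1, q2⟩ | ⟨q1, q2⟩
      · exfalso
        have r4 := Q.rk2 _ _ q1
        rw [← q2] at r4
        have r0 := Q.lt1 p1
        have l := Q.lt2 p1
        have e : K.ar (c 0) (c 4) := by
          rcases (a.E 4 : K.E (c 4) (c 0)) with e | e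
          · have : K.rk (c 0) < K.rk (c 4) := K.ar_rk _ _ e
            omega
          · exact e
        have := Q.N_ge p2 e
        omega
      · have hz : ¬ Q.S.mv (c 2) (c 1) := by
          rw [q2]
          exact Q.not_mv_of_τ q1 (c 1)
        have s2 : Q.s (c 0) (c 1) (c 2) = 1 := sg_mv_not p1 hz p3
        omega
    · exact absurd p2 hn
  · rcases h' with h' | h'
    · exact ⟨c, a, h'⟩
    · exact ⟨_, a.refl 2, h'⟩

theorem N_mv {n : V} (h : Q.N n) : ∃ v, Q.S.mv n v := by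
  obtain ⟨v, m, h1, -⟩ := Q.N_out h
  exact ⟨v, h1⟩

open Classical in
/-- the fold of the tops to their targets -/
noncomputable def ff (x : V) : V := if h : Q.N x then Q.S.τ x (Classical.choose (Q.N_mv h)) else x

theorem ff_not {x : V} (h : ¬ Q.N x) : Q.ff x = x := by
  unfold ff
  rw [dif_neg h]

theorem ff_N {x v : V} (h : Q.N x) (hv : Q.S.mv x v) : Q.ff x = Q.S.τ x v := by
  unfold ff
  rw [dif_pos h]
  have := Classical.choose_spec (Q.N_mv h)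
  rw [Q.N_uniq h (Q.S.mv_ar _ _ this) (Q.S.mv_ar _ _ hv) (Q.rk1 _ _ this) (Q.rk1 _ _ hv)]

theorem N_iff (h : H) (x : V) : Q.N (h • x) ↔ Q.N x := by
  refine ⟨fun e => ?_, Q.N_smul h⟩
  have := Q.N_smul h⁻¹ e
  rwa [inv_smul_smul] at this

theorem not_N_τ {n v : V} (h : Q.S.mv n v) : ¬ Q.N (Q.S.τ n v) := fun k => by
  obtain ⟨w, hw⟩ := Q.N_mv k
  exact Q.not_mv_of_τ h w hw

theorem ff_τ {n v : V} (h : Q.S.mv n v) : Q.ff (Q.S.τ n v) = Q.S.τ n v := Q.ff_not (Q.not_N_τ h)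

/-- the fold -/
noncomputable def fo : Fo Q.S.gx where
  f := Q.ff
  f_smul h x := by
    by_cases hx : Q.N x
    · obtain ⟨v, hv⟩ := Q.N_mv hx
      rw [Q.ff_N hx hv, Q.ff_N (Q.N_smul h hx) (Q.S.mv_smul h _ _ hv), Q.S.τ_smul h _ _ hv]
    · rw [Q.ff_not hx, Q.ff_not (fun k => hx ((Q.N_iff h x).1 k))]
  idem x := by
    by_cases hx : Q.N x
    · obtain ⟨v, hv⟩ := Q.N_mv hx
      rw [Q.ff_N hx hv, Q.ff_τ hv]
    · rw [Q.ff_not hx, Q.ff_not hx]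
  f_ar x hx := by
    by_cases h : Q.N x
    · obtain ⟨v, hv⟩ := Q.N_mv h
      rw [Q.ff_N h hv]
      exact Or.inr ⟨v, hv, rfl⟩
    · exact absurd (Q.ff_not h) hx
  adj x y e := by
    by_cases hx : Q.N x
    · rcases e with ⟨e, e'⟩ | ⟨v, e, rfl⟩
      · obtain ⟨v, m, h1, h2, h3, ⟨v', h4, h5⟩, h6⟩ := Q.N_out hx
        rcases h6 y e with h | h
        · rw [h] at e'
          exact absurd h1 e'
        · rw [h, Q.ff_N hx h1]
          by_cases hm : Q.N m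
          · left
            rw [Q.ff_N hm h4, h5]
          · right
            right
            rw [Q.ff_not hm]
            exact Or.inl ⟨Q.ff_not hm, _, Or.inr ⟨v', h4, h5⟩, Q.ff_τ h1⟩
      · left
        rw [Q.ff_N hx e, Q.ff_τ e]
    · right
      left
      rw [Q.ff_not hx]
      exact Or.inl ⟨Q.ff_not hx, y, e, rfl⟩

end PQg

/-- the corners of a pentagon at vertices with moved in-arrows are inner corners of the rotated
walk -/
theorem PG.corner_infix {K : GX H V} (P : PG K) (S : Sl K) {i : K.I} (hi : P.five i) (k : Fin 5)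
    (hk : S.M (P.pt i (k + 1))) :
    ∃ l1 l2, S.rb i :: S.rl i = l1 ++ P.pt i k :: P.pt i (k + 1) :: P.pt i (k + 2) :: l2 := by
  unfold Sl.rb Sl.rl
  rw [P.cb_eq i hi, P.cw_eq i hi]
  simp only
  by_cases hM : S.M (P.pt i 0)
  · rw [if_pos hM, if_pos hM]
    fin_cases k
    · exact absurd (P.E hi 0) (S.not_MM hM hk)
    · exact ⟨[], [P.pt i 4, P.pt i 0, P.pt i 1], rfl⟩
    · exact ⟨[P.pt i 1], [P.pt i 0, P.pt i 1], rfl⟩
    · exact absurd (P.E hi 4) (S.not_MM hk hM)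
    · exact ⟨[P.pt i 1, P.pt i 2, P.pt i 3], [], rfl⟩
  · rw [if_neg hM, if_neg hM]
    fin_cases k
    · exact ⟨[], [P.pt i 3, P.pt i 4, P.pt i 0], rfl⟩
    · exact ⟨[P.pt i 0], [P.pt i 4, P.pt i 0], rfl⟩
    · exact ⟨[P.pt i 0, P.pt i 1], [P.pt i 0], rfl⟩
    · exact ⟨[P.pt i 0, P.pt i 1, P.pt i 2], [], rfl⟩
    · exact absurd hk hM

namespace PQg

variable {K : GX H V} {P : PG K} (Q : PQg P)

/-- a stutter, general form -/
theorem stn_infix {i : K.I} {x v z : V} (l1 l2 : List V) (hv : Q.S.M v)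
    (hm : (Q.S.mv x v ∧ Q.N x ∧ z ≠ Q.S.τ x v) ∨ (Q.S.mv z v ∧ Q.N z ∧ x ≠ Q.S.τ z v))
    (e : Q.S.rb i :: Q.S.rl i = l1 ++ x :: v :: z :: l2) :
    1 ≤ stn Q.ff (Q.S.gx.cb i) (Q.S.gx.cw i) := by
  obtain ⟨h3, h4, -, -, -⟩ := Q.S.rot_spec i
  have hrb : ¬ Q.S.M (Q.S.rb i) := by
    rcases h3 with h3 | h3
    · rw [h3] at e
      have := congrArg List.length e
      simp at this
      omega
    · exact h3
  obtain ⟨l1', l2', e'⟩ := Q.S.slw_infix hv _ _ _ l1 l2 le_rfl hrb h4 e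
  rcases hm with ⟨hx, hN, hz⟩ | ⟨hz, hN, hx⟩
  · obtain ⟨l, hl⟩ := seg_head hx hz
    rw [hl] at e'
    refine stn_pos (a := x) (b := Q.S.τ x v) ?_ l1' _ _ _ e'
    rw [Q.ff_N hN hx, Q.ff_τ hx]
  · obtain ⟨l, hl⟩ := seg_last hz hx
    rw [hl] at e'
    refine stn_pos (a := Q.S.τ z v) (b := z) ?_ (l1' ++ x :: l) l2' _ _ ?_
    · rw [Q.ff_N hN hz, Q.ff_τ hz]
    rw [show Q.S.gx.cb i = Q.S.rb i from rfl]
    rw [show Q.S.gx.cw i = slw Q.S.mv Q.S.τ (Q.S.rb i) (Q.S.rl i) from rfl, e']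
    simp

/-- a top at a corner which is no target corner gives a stutter -/
theorem stn_one {i : K.I} {c : Fin 5 → V} (a : P.At c i) (h1 : Q.S.mv (c 0) (c 1)) (hN : Q.N (c 0))
    (h2 : c 2 ≠ Q.S.τ (c 0) (c 1)) : 1 ≤ stn Q.ff (Q.S.gx.cb i) (Q.S.gx.cw i) := by
  obtain ⟨hi, h, k, a⟩ := a
  have g1 : ∀ k : Fin 5, k - 0 = k - 2 + 2 := by decide
  have g2 : ∀ k : Fin 5, k - 1 = k - 2 + 1 := by decide
  have tr : Q.S.mv (h⁻¹ • c 0) (h⁻¹ • c 1) := Q.S.mv_smul h⁻¹ _ _ h1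
  have hM : Q.S.M (h⁻¹ • c 1) := ⟨_, tr⟩
  have hz : h⁻¹ • c 2 ≠ Q.S.τ (h⁻¹ • c 0) (h⁻¹ • c 1) := by
    rw [Q.S.τ_smul h⁻¹ _ _ h1]
    exact fun e => h2 (smul_left_cancel _ e)
  have hN' := Q.N_smul h⁻¹ hN
  rcases a with a | a
  · rw [a, inv_smul_smul] at tr hM hz hN'
    rw [a, inv_smul_smul] at tr hz
    rw [a, inv_smul_smul] at hz
    rw [add_zero] at tr hN' hz
    obtain ⟨l1, l2, e⟩ := P.corner_infix Q.S hi k hM
    exact Q.stn_infix l1 l2 hM (Or.inl ⟨tr, hN', hz⟩) e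
  · rw [a, inv_smul_smul] at tr hM hz hN'
    rw [a, inv_smul_smul] at tr hz
    rw [a, inv_smul_smul] at hz
    rw [g1, g2] at tr hz
    rw [g2] at hM
    rw [g1] at hN'
    obtain ⟨l1, l2, e⟩ := P.corner_infix Q.S hi (k - 2) hM
    exact Q.stn_infix l1 l2 hM (Or.inr ⟨tr, hN', hz⟩) e

open Classical in
/-- THE INEQUALITY WITH THE REAL GAIN: exact at the pentagons, a bound `w` at the other cells -/
theorem sum_nonneg (hm : K.Min) [Fintype K.I] (w : K.I → ℤ) (hw : ∀ i, ¬ P.five i →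
    max 0 (((K.cw i).length : ℤ) + Q.t i - stn Q.ff (Q.S.gx.cb i) (Q.S.gx.cw i) - 4) +
      max 0 (((K.cw i).length : ℤ) + Q.tN i - 4) ≤ 2 * max 0 (((K.cw i).length : ℤ) - 4) + w i) :
    0 ≤ ∑ i, if P.five i then Q.t i else w i := by
  have hA := hm.le_max Q.fo.gx rfl (fun i => (Q.fo.gx.cw i).length) (fun i => rfl)
  have hB := hm.le_max Q.SN.gx rfl (fun i => (Q.SN.gx.cw i).length) (fun i => rfl)
  have key : ∀ i : K.I, max 0 (((Q.fo.gx.cw i).length : ℤ) - 4) +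
      max 0 (((Q.SN.gx.cw i).length : ℤ) - 4) ≤
      2 * max 0 (((K.cw i).length : ℤ) - 4) + if P.five i then Q.t i else w i := by
    intro i
    have l1 : ((Q.fo.gx.cw i).length : ℤ) + stn Q.ff (Q.S.gx.cb i) (Q.S.gx.cw i) =
        (K.cw i).length + Q.t i := by
      have e1 : ((Q.fo.gx.cw i).length : ℤ) + stn Q.ff (Q.S.gx.cb i) (Q.S.gx.cw i) =
          (Q.S.gx.cw i).length := by exact_mod_cast Q.fo.gx_length i
      rw [e1]
      exact Q.S.gx_length i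
    have l1' : ((Q.SN.gx.cw i).length : ℤ) = (K.cw i).length + Q.tN i := Q.SN.gx_length i
    have l2 : (0 : ℤ) ≤ stn Q.ff (Q.S.gx.cb i) (Q.S.gx.cw i) := by positivity
    by_cases hi : P.five i
    · rw [if_pos hi]
      have h5 : ((K.cw i).length : ℤ) = 5 := by
        rw [P.cw_eq i hi]
        rfl
      rw [h5] at l1 l1' ⊢
      have m0 : max (0 : ℤ) (5 - 4) = 1 := by norm_num
      rw [m0]
      have l3 := Q.tN_le hm hi
      rcases le_or_gt (Q.t i) (-2) with h | h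
      · obtain ⟨h3, h4⟩ := Q.two_le hi h
        rw [max_eq_left (by omega), max_eq_left (by omega)]
        omega
      · rcases le_or_gt (Q.tN i) 0 with h' | h'
        · have m1 : max 0 (((Q.fo.gx.cw i).length : ℤ) - 4) ≤ 1 + Q.t i :=
            max_le (by omega) (by omega)
          have m2 : max 0 (((Q.SN.gx.cw i).length : ℤ) - 4) ≤ 1 := max_le (by omega) (by omega)
          omega
        · obtain ⟨h3, c, a, h4, h5, h6⟩ := Q.tN_pos hm hi (by omega)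
          have := Q.stn_one a h4 h5 h6
          have l4 : (1 : ℤ) ≤ stn Q.ff (Q.S.gx.cb i) (Q.S.gx.cw i) := by exact_mod_cast this
          have m1 : max 0 (((Q.fo.gx.cw i).length : ℤ) - 4) ≤ Q.t i :=
            max_le (by omega) (by omega)
          have m2 : max 0 (((Q.SN.gx.cw i).length : ℤ) - 4) ≤ 2 := max_le (by omega) (by omega)
          omega
    · rw [if_neg hi]
      have e1 : ((Q.fo.gx.cw i).length : ℤ) - 4 =
          ((K.cw i).length : ℤ) + Q.t i - stn Q.ff (Q.S.gx.cb i) (Q.S.gx.cw i) - 4 := by omega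
      rw [e1, l1']
      exact hw i hi
  have h1 := Finset.sum_le_sum fun i (_ : i ∈ (Finset.univ : Finset K.I)) => key i
  rw [Finset.sum_add_distrib, Finset.sum_add_distrib, ← Finset.mul_sum] at h1
  linarith

end PQg

end Pool.Agent.DI
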