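import Pool.Agent.DI.PG3

/-!
# DI/PG4: unions of pieces in a complex with pentagons and other cells
-/

namespace Pool.Agent.DI

open MulAction
open Pool.Agent.SAF (InC orbs FinOrb oc)
open Pool.Agent.BT (PX)

variable {H V : Type} [Group H] [MulAction H V] {K : GX H V}

/-- `x, v, z` are consecutive in the closed walk `b, l` -/
def Cons3 (b : V) (l : List V) (x v z : V) : Prop :=
  ∃ l1 l2, b :: (l ++ l.head?.toList) = l1 ++ x :: v :: z :: l2

/-- number of corners of the closed walk with a property -/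
noncomputable def wcn (F : V → V → V → Prop) (b : V) (l : List V) : ℤ :=
  open Classical in match b, l with
  | _, [] => 0
  | b, y :: l => wgo b (y :: l ++ [y])
where
  /-- inner corners of a walk -/
  wgo : V → List V → ℤ
  | _, [] => 0
  | _, [_] => 0
  | x, y :: z :: r => (open Classical in if F x y z then 1 else 0) + wgo y (z :: r)

theorem wgo_cons (F : V → V → V → Prop) (x y z : V) (r : List V) :
    wcn.wgo F x (y :: z :: r) = (open Classical in if F x y z then 1 else 0) +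
      wcn.wgo F y (z :: r) := rfl

/-- the sum of `sg` as a difference of numbers of corners -/
theorem sgs_wgo {mv : V → V → Prop} {τ : V → V → V} {A B : V → V → V → Prop} :
    ∀ (x : V) (l : List V), (∀ a v b l1 l2, x :: l = l1 ++ a :: v :: b :: l2 →
      sg mv τ a v b = (open Classical in (if B a v b then 1 else 0) - (if A a v b then 1 else 0))) →
      sgs mv τ x l = wcn.wgo B x l - wcn.wgo A x l := by
  classical
  intro x l
  induction l generalizing x with
  | nil => intro _; rfl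
  | cons y l ih =>
    intro h
    cases l with
    | nil => rfl
    | cons z r =>
      have h1 := h x y z [] r rfl
      have h2 := ih y (fun a v b l1 l2 e => h a v b (x :: l1) l2 (by rw [e]; rfl))
      rw [wgo_cons, wgo_cons]
      show sg mv τ x y z + sgs mv τ y (z :: r) = _
      rw [h1, h2]
      ring

theorem csg_wcn {mv : V → V → Prop} {τ : V → V → V} {A B : V → V → V → Prop} (b : V) (l : List V)
    (h : ∀ x v z, Cons3 b l x v z →
      sg mv τ x v z = (open Classical in (if B x v z then 1 else 0) - (if A x v z then 1 else 0))) :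
    csg mv τ b l = wcn B b l - wcn A b l := by
  cases l with
  | nil => rfl
  | cons y l =>
    exact sgs_wgo b (y :: l ++ [y]) (fun a v c l1 l2 e => h a v c ⟨l1, l2, e⟩)

/-- a set `R` of in-arrows of `v` whose corners, at all cells, stay in `R` or go to an
out-neighbour -/
structure PcG (P : PG K) where
  v : V
  a : V
  b : V
  R : Set V
  va : K.ar v a
  vb : K.ar v b
  ab : a ≠ b
  R_ar : ∀ n ∈ R, K.ar n v
  stab : ∀ g : H, g • v = v → ∀ n ∈ R, g • n ∈ R → g • a = a
  inv : ∀ g : H, g • v = v → g • a = a → ∀ n ∈ R, g • n ∈ R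
  cl : ∀ (i : K.I) (h : H) (x z : V), Cons3 (K.cb i) (K.cw i) (h • x) (h • v) (h • z) →
    (x ∈ R → z ∈ R ∨ K.ar v z) ∧ (z ∈ R → x ∈ R ∨ K.ar v x)

namespace PcG

variable {P : PG K} (D : PcG P)

/-- the other pole is fixed, too -/
theorem fix_b {g : H} (hv : g • D.v = D.v) (ha : g • D.a = D.a) : g • D.b = D.b := by
  have h := K.ar_smul g _ _ D.vb
  rw [hv] at h
  rcases K.two _ _ _ _ D.va D.vb h with e | e | e
  · exact absurd e D.ab
  · exact e.symm
  · exfalso
    rw [← ha] at e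
    exact D.ab (smul_left_cancel g e)

/-- the same with the poles exchanged -/
def swap : PcG P where
  v := D.v
  a := D.b
  b := D.a
  R := D.R
  va := D.vb
  vb := D.va
  ab := D.ab.symm
  R_ar := D.R_ar
  stab g hv n hn hg := D.fix_b hv (D.stab g hv n hn hg)
  inv g hv hb n hn := by
    refine D.inv g hv ?_ n hn
    have h := K.ar_smul g _ _ D.va
    rw [hv] at h
    rcases K.two _ _ _ _ D.va D.vb h with e | e | e
    · exact absurd e D.ab
    · exfalso
      rw [← hb] at e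
      exact D.ab (smul_left_cancel g e.symm)
    · exact e.symm
  cl := D.cl

/-- moved arrows -/
def mv (n y : V) : Prop := ∃ h : H, h⁻¹ • n ∈ D.R ∧ y = h • D.v

theorem mv_ar {n y : V} (e : D.mv n y) : K.ar n y := by
  obtain ⟨h, h1, rfl⟩ := e
  have := K.ar_smul h _ _ (D.R_ar _ h1)
  rwa [smul_inv_smul] at this

open Classical in
/-- targets -/
noncomputable def τ (n y : V) : V := if e : D.mv n y then (Classical.choose e) • D.a else y

theorem τ_eq {n y : V} {h : H} (h1 : h⁻¹ • n ∈ D.R) (h2 : y = h • D.v) : D.τ n y = h • D.a := by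
  have e : D.mv n y := ⟨h, h1, h2⟩
  unfold τ
  rw [dif_pos e]
  obtain ⟨k1, k2⟩ := Classical.choose_spec e
  set k := Classical.choose e
  have e1 : (h⁻¹ * k) • D.v = D.v := by
    rw [mul_smul, ← k2, h2, inv_smul_smul]
  have e2 : (h⁻¹ * k) • (k⁻¹ • n) ∈ D.R := by
    rw [mul_smul, smul_inv_smul]
    exact h1
  have e3 := D.stab _ e1 _ k1 e2
  rw [mul_smul, inv_smul_eq_iff] at e3
  exact e3

/-- the slide -/
noncomputable def sl : Sl K where
  mv := D.mv
  τ := D.τ
  mv_ar _ _ e := D.mv_ar e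
  mv_smul h n y := by
    rintro ⟨k, h1, rfl⟩
    refine ⟨h * k, ?_, (mul_smul h k _).symm⟩
    rw [mul_inv_rev, mul_smul, inv_smul_smul]
    exact h1
  τ_smul h n y := by
    rintro ⟨k, h1, rfl⟩
    rw [D.τ_eq h1 rfl, D.τ_eq (h := h * k) (n := h • n) (y := h • k • D.v) ?_ (mul_smul h k _).symm,
      mul_smul]
    rw [mul_inv_rev, mul_smul, inv_smul_smul]
    exact h1
  τ_ar n y := by
    rintro ⟨k, h1, rfl⟩
    rw [D.τ_eq h1 rfl]
    exact K.ar_smul k _ _ D.va
  far := by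
    rintro n v n' v' ⟨k, -, rfl⟩ ⟨k', -, rfl⟩ e
    have h1 := K.rk_smul k D.v
    have h2 := K.rk_smul k' D.v
    rcases e with e | e
    · have := K.ar_rk _ _ e
      omega
    · have := K.ar_rk _ _ e
      omega

/-- corners of the piece at the translates of the pole `a` -/
def ca (x y z : V) : Prop := ∃ h : H, y = h • D.v ∧
  ((h⁻¹ • x ∈ D.R ∧ z = h • D.a) ∨ (h⁻¹ • z ∈ D.R ∧ x = h • D.a))

theorem ca_symm {x y z : V} : D.ca x y z ↔ D.ca z y x := by
  constructor
  · rintro ⟨h, h1, h2⟩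
    exact ⟨h, h1, h2.symm⟩
  · rintro ⟨h, h1, h2⟩
    exact ⟨h, h1, h2.symm⟩

theorem ca_iff {h : H} {x y z : V} (h1 : h⁻¹ • x ∈ D.R) (h2 : y = h • D.v) :
    D.ca x y z ↔ z = h • D.a := by
  constructor
  · rintro ⟨k, k2, ⟨k1, e⟩ | ⟨k1, e⟩⟩
    · rw [e]
      have e1 := D.τ_eq h1 h2
      rw [D.τ_eq k1 k2] at e1
      exact e1
    · exfalso
      have r1 := K.ar_rk _ _ (D.mv_ar ⟨h, h1, h2⟩)
      have r2 := K.ar_rk _ _ (K.ar_smul k _ _ D.va)
      rw [← k2, ← e] at r2
      omega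
  · intro e
    exact ⟨h, h2, Or.inl ⟨h1, e⟩⟩

theorem ca_mv {x y z : V} (h : D.ca x y z) : D.mv x y ∨ D.mv z y := by
  obtain ⟨k, k2, ⟨k1, -⟩ | ⟨k1, -⟩⟩ := h
  · exact Or.inl ⟨k, k1, k2⟩
  · exact Or.inr ⟨k, k1, k2⟩

open Classical in
/-- the value of `sg` when the first leg is moved -/
theorem sg_eq' {x y z : V} {h : H} (h1 : h⁻¹ • x ∈ D.R) (h2 : y = h • D.v)
    (hc : h⁻¹ • z ∈ D.R ∨ K.ar D.v (h⁻¹ • z)) :
    sg D.sl.mv D.sl.τ x y z = (if D.swap.ca x y z then 1 else 0) - (if D.ca x y z then 1 else 0) := by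
  have hx : D.sl.mv x y := ⟨h, h1, h2⟩
  have i1 : D.ca x y z ↔ z = h • D.a := D.ca_iff h1 h2
  have i2 : D.swap.ca x y z ↔ z = h • D.b := D.swap.ca_iff h1 h2
  have hτ : D.sl.τ x y = h • D.a := D.τ_eq h1 h2
  rcases hc with hc | hc
  · have hz : D.sl.mv z y := ⟨h, hc, h2⟩
    have hτ' : D.sl.τ z y = h • D.a := D.τ_eq hc h2
    have r1 := K.ar_rk _ _ (D.mv_ar hz)
    have n1 : ¬ z = h • D.a := by
      rintro rfl
      have r2 := K.ar_rk _ _ (K.ar_smul h _ _ D.va)
      rw [← h2] at r2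
      omega
    have n2 : ¬ z = h • D.b := by
      rintro rfl
      have r2 := K.ar_rk _ _ (K.ar_smul h _ _ D.vb)
      rw [← h2] at r2
      omega
    rw [if_neg (fun k => n2 (i2.1 k)), if_neg (fun k => n1 (i1.1 k)),
      sg_mv_mv (τ := D.sl.τ) hx hz (hτ.trans hτ'.symm)]
    norm_num
  · have hyz : K.ar y z := by
      have := K.ar_smul h _ _ hc
      rwa [smul_inv_smul, ← h2] at this
    have hz : ¬ D.sl.mv z y := fun k => by
      have r1 := K.ar_rk _ _ (D.mv_ar k)
      have r2 := K.ar_rk _ _ hyz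
      omega
    rcases K.two _ _ _ _ D.va D.vb hc with e | e | e
    · exact absurd e D.ab
    · have e1 : z = h • D.b := by rw [e, smul_inv_smul]
      have n1 : ¬ z = h • D.a := by
        rw [e1]
        exact fun k => D.ab (smul_left_cancel h k).symm
      rw [if_pos (i2.2 e1), if_neg (fun k => n1 (i1.1 k)),
        sg_mv_not (τ := D.sl.τ) hx hz (by rw [hτ]; exact n1)]
      norm_num
    · have e1 : z = h • D.a := by rw [e, smul_inv_smul]
      have n2 : ¬ z = h • D.b := by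
        rw [e1]
        exact fun k => D.ab (smul_left_cancel h k)
      rw [if_neg (fun k => n2 (i2.1 k)), if_pos (i1.2 e1),
        sg_mv_τ (τ := D.sl.τ) hx hz (by rw [hτ]; exact e1)]
      norm_num

open Classical in
/-- the value of `sg` at the corners of the cells -/
theorem sg_eq {i : K.I} {x y z : V} {g : H} (hc : Cons3 (K.cb i) (K.cw i) (g • x) (g • y) (g • z)) :
    sg D.sl.mv D.sl.τ x y z = (if D.swap.ca x y z then 1 else 0) - (if D.ca x y z then 1 else 0) := by
  by_cases h1 : D.mv x y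
  · obtain ⟨h, h1, h2⟩ := h1
    refine D.sg_eq' h1 h2 ((D.cl i (g * h) (h⁻¹ • x) (h⁻¹ • z) ?_).1 h1)
    rw [mul_smul, mul_smul, mul_smul, smul_inv_smul, smul_inv_smul, ← h2]
    exact hc
  by_cases h3 : D.mv z y
  · obtain ⟨h, h1, h2⟩ := h3
    rw [sg_symm]
    have := D.sg_eq' (x := z) (z := x) h1 h2 ((D.cl i (g * h) (h⁻¹ • x) (h⁻¹ • z) (by
      rw [mul_smul, mul_smul, mul_smul, smul_inv_smul, smul_inv_smul, ← h2]
      exact hc)).2 h1)
    rw [this]
    simp only [D.ca_symm (x := z) (z := x), D.swap.ca_symm (x := z) (z := x)]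
  · have n1 : ¬ D.ca x y z := fun k => (D.ca_mv k).elim h1 h3
    have n2 : ¬ D.swap.ca x y z := fun k => (D.swap.ca_mv k).elim h1 h3
    rw [if_neg n1, if_neg n2, sg_not_not (mv := D.sl.mv) (τ := D.sl.τ) h1 h3]
    norm_num

/-- the sum over a cell -/
theorem csg_eq (i : K.I) : csg D.sl.mv D.sl.τ (K.cb i) (K.cw i) =
    wcn D.swap.ca (K.cb i) (K.cw i) - wcn D.ca (K.cb i) (K.cw i) :=
  csg_wcn _ _ fun x v z hc => D.sg_eq (g := 1) (by rwa [one_smul, one_smul, one_smul])

end PcG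

/-- the positions of a translate of a pentagon, for a fixed cell -/
theorem PG.cons3 {P : PG K} {c : Fin 5 → V} {i : K.I} (a : P.At c i) : ∃ h : H,
    Cons3 (K.cb i) (K.cw i) (h • c 0) (h • c 1) (h • c 2) ∨
      Cons3 (K.cb i) (K.cw i) (h • c 2) (h • c 1) (h • c 0) := by
  obtain ⟨hi, h, k, a⟩ := a
  have key : ∀ k : Fin 5, Cons3 (K.cb i) (K.cw i) (P.pt i k) (P.pt i (k + 1)) (P.pt i (k + 2)) := by
    intro k
    unfold Cons3
    rw [P.cb_eq i hi, P.cw_eq i hi]
    fin_cases k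
    · exact ⟨[], [P.pt i 3, P.pt i 4, P.pt i 0, P.pt i 1], rfl⟩
    · exact ⟨[P.pt i 0], [P.pt i 4, P.pt i 0, P.pt i 1], rfl⟩
    · exact ⟨[P.pt i 0, P.pt i 1], [P.pt i 0, P.pt i 1], rfl⟩
    · exact ⟨[P.pt i 0, P.pt i 1, P.pt i 2], [P.pt i 1], rfl⟩
    · exact ⟨[P.pt i 0, P.pt i 1, P.pt i 2, P.pt i 3], [], rfl⟩
  refine ⟨h⁻¹, ?_⟩
  rcases a with a | a
  · left
    rw [a, a, a, inv_smul_smul, inv_smul_smul, inv_smul_smul, add_zero]
    exact key k
  · right
    rw [a, a, a, inv_smul_smul, inv_smul_smul, inv_smul_smul]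
    have := key (k - 2)
    have g1 : ∀ k : Fin 5, k - 2 + 2 = k - 0 := by decide
    have g2 : ∀ k : Fin 5, k - 2 + 1 = k - 1 := by decide
    rw [g1, g2] at this
    exact this

namespace PcG

variable {P : PG K} (D : PcG P)

/-- the data of `PQg` -/
noncomputable def pqg : PQg P where
  S := D.sl
  ρ := K.rk D.v
  ρ' := K.rk D.a
  rk1 := by
    rintro n v ⟨k, -, rfl⟩
    exact K.rk_smul k _
  rk2 := by
    rintro n v ⟨k, h1, rfl⟩
    show K.rk (D.τ _ _) = _
    rw [D.τ_eq h1 rfl, K.rk_smul]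
  comp := by
    rintro c i a ⟨k, h1, h2⟩
    have hcl : k⁻¹ • c 2 ∈ D.R ∨ K.ar D.v (k⁻¹ • c 2) := by
      obtain ⟨g, hg | hg⟩ := PG.cons3 a
      · refine (D.cl i (g * k) (k⁻¹ • c 0) (k⁻¹ • c 2) ?_).1 h1
        rw [mul_smul, mul_smul, mul_smul, smul_inv_smul, smul_inv_smul, ← h2]
        exact hg
      · refine (D.cl i (g * k) (k⁻¹ • c 2) (k⁻¹ • c 0) ?_).2 h1
        rw [mul_smul, mul_smul, mul_smul, smul_inv_smul, smul_inv_smul, ← h2]
        exact hg
    rcases hcl with h | h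
    · left
      refine ⟨⟨k, h, h2⟩, ?_⟩
      show D.τ _ _ = D.τ _ _
      rw [D.τ_eq h h2, D.τ_eq h1 h2]
    · right
      right
      have := K.ar_smul k _ _ h
      rwa [smul_inv_smul, ← h2] at this

open Classical in
/-- THE INEQUALITY FOR A UNION OF PIECES, other cells with a bound `w` -/
theorem le_w (hm : K.Min) [Fintype K.I] (w : K.I → ℤ) (hw : ∀ i, ¬ P.five i →
    max 0 (((K.cw i).length : ℤ) + D.pqg.t i - stn D.pqg.ff (D.pqg.S.gx.cb i) (D.pqg.S.gx.cw i) - 4) +
      max 0 (((K.cw i).length : ℤ) + D.pqg.tN i - 4) ≤ 2 * max 0 (((K.cw i).length : ℤ) - 4) + w i) :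
    (∑ i, if P.five i then wcn D.ca (K.cb i) (K.cw i) else 0) ≤
      (∑ i, if P.five i then wcn D.swap.ca (K.cb i) (K.cw i) else 0) +
        ∑ i, if P.five i then 0 else w i := by
  have h := D.pqg.sum_nonneg hm w hw
  rw [← Finset.sum_add_distrib, ← sub_nonneg, ← Finset.sum_sub_distrib]
  refine h.trans (le_of_eq (Finset.sum_congr rfl fun i _ => ?_))
  by_cases hi : P.five i
  · rw [if_pos hi, if_pos hi, if_pos hi, if_pos hi]
    show csg D.sl.mv D.sl.τ (K.cb i) (K.cw i) = _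
    rw [D.csg_eq i]
    ring
  · rw [if_neg hi, if_neg hi, if_neg hi, if_neg hi]
    ring

open Classical in
/-- THE INEQUALITY FOR A UNION OF PIECES, pentagons and squares -/
theorem le_sq (hm : K.Min) [Fintype K.I] (q : K.I → Fin 4 → V)
    (hq : ∀ i, ¬ P.five i → IsSq K i (q i))
    (h : ∀ i, ¬ P.five i → ∀ j, D.mv (q i j) (q i (j + 1)) → D.mv (q i (j + 2)) (q i (j + 1)) →
      ¬ D.pqg.N (q i j) ∧ ¬ D.pqg.N (q i (j + 2))) :
    (∑ i, if P.five i then wcn D.ca (K.cb i) (K.cw i) else 0) ≤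
      (∑ i, if P.five i then wcn D.swap.ca (K.cb i) (K.cw i) else 0) +
        ∑ i, if P.five i then 0 else
          max 0 (wcn D.swap.ca (K.cb i) (K.cw i) - wcn D.ca (K.cb i) (K.cw i)) := by
  have h' := D.le_w hm (fun i => max 0 (D.pqg.t i)) fun i hi => D.pqg.sq_bound (hq i hi) (h i hi)
  have e : ∀ i, D.pqg.t i = wcn D.swap.ca (K.cb i) (K.cw i) - wcn D.ca (K.cb i) (K.cw i) :=
    fun i => D.csg_eq i
  simpa only [e] using h'

end PcG

end Pool.Agent.DI
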