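import Pool.Agent.DI.PG2

/-!
# DI/PGA: the slide inequality for arbitrary sets of in-arrows

As PG2, but without a condition on the corners: the set of the moved in-arrows need not be a union of
pieces, and two moved legs of a corner may have different targets (corner value `2`).
`sum_nonneg`: pentagons exact, a bound `w` at the other cells. `Pt.slide_sum`: pentagons only,
`0 ≤ Σ t`.
-/

namespace Pool.Agent.DI

open MulAction
open Pool.Agent.SAF (InC orbs FinOrb oc)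
open Pool.Agent.BT (PX)

variable {H V : Type} [Group H] [MulAction H V]

theorem stn_suffix {V' : Type} (f : V → V') : ∀ (l1 : List V) (y : V) (r : List V) (x : V)
    (l : List V), x :: l = l1 ++ y :: r → stn f y r ≤ stn f x l := by
  intro l1
  induction l1 with
  | nil =>
    intro y r x l e
    obtain ⟨rfl, rfl⟩ := List.cons.inj e
    exact le_rfl
  | cons u l1 ih =>
    intro y r x l e
    obtain ⟨rfl, rfl⟩ := List.cons.inj e
    cases l1 with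
    | nil =>
      show stn f y r ≤ stn f x (y :: r)
      by_cases h : f y = f x
      · rw [stn_cons_eq h]
        omega
      · rw [stn_cons_ne h]
    | cons w l1 =>
      have := ih y r w (l1 ++ y :: r) rfl
      show stn f y r ≤ stn f x (w :: (l1 ++ y :: r))
      by_cases h : f w = f x
      · rw [stn_cons_eq h]
        omega
      · rw [stn_cons_ne h]
        exact this

/-- two stutters -/
theorem stn_two {V' : Type} {f : V → V'} {a b v c d : V} (h1 : f b = f a) (h2 : f d = f c)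
    (l1 l2 : List V) (x : V) (l : List V) (e : x :: l = l1 ++ a :: b :: v :: c :: d :: l2) :
    2 ≤ stn f x l := by
  refine le_trans ?_ (stn_suffix f l1 a _ x l e)
  have k1 := stn_suffix f [b, v] c (d :: l2) b (v :: c :: d :: l2) rfl
  rw [stn_cons_eq h2] at k1
  rw [stn_cons_eq h1]
  omega

/-- all in-arrows are moved from vertices of one rank to vertices of one rank -/
structure PQa {K : GX H V} (P : PG K) where
  S : Sl K
  ρ : ℕ
  ρ' : ℕ
  rk1 : ∀ n v, S.mv n v → K.rk v = ρ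
  rk2 : ∀ n v, S.mv n v → K.rk (S.τ n v) = ρ'

namespace PQa

variable {K : GX H V} {P : PG K} (Q : PQa P)

/-- the top of a cell which is shortened twice -/
def N (n : V) : Prop := ∃ (d : Fin 5 → V) (i : K.I), P.At d i ∧ d 2 = n ∧ Q.S.mv (d 2) (d 1) ∧
  K.ar (d 2) (d 3) ∧ Q.S.mv (d 3) (d 4) ∧ d 0 = Q.S.τ (d 2) (d 1) ∧ d 0 = Q.S.τ (d 3) (d 4)

theorem lt1 {n v : V} (h : Q.S.mv n v) : Q.ρ < K.rk n := by
  rw [← Q.rk1 n v h]
  exact K.ar_rk _ _ (Q.S.mv_ar _ _ h)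

theorem lt2 {n v : V} (h : Q.S.mv n v) : Q.ρ' < Q.ρ := by
  rw [← Q.rk1 n v h, ← Q.rk2 n v h]
  exact K.ar_rk _ _ (Q.S.τ_ar _ _ h)

theorem rkM {v : V} (h : Q.S.M v) : K.rk v = Q.ρ := by
  obtain ⟨n, hn⟩ := h
  exact Q.rk1 n v hn

/-- a moved vertex is no target -/
theorem not_mv_of_τ {n v : V} (h : Q.S.mv n v) (w : V) : ¬ Q.S.mv (Q.S.τ n v) w := fun k => by
  have h1 := Q.lt1 k
  rw [Q.rk2 n v h] at h1
  exact absurd (Q.lt2 h) (by omega)

theorem N_smul (h : H) {n : V} (e : Q.N n) : Q.N (h • n) := by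
  obtain ⟨d, i, a, rfl, h1, h2, h3, h4, h5⟩ := e
  exact ⟨fun j => h • d j, i, a.smul h, rfl, Q.S.mv_smul h _ _ h1, K.ar_smul h _ _ h2,
    Q.S.mv_smul h _ _ h3, by rw [Q.S.τ_smul h _ _ h1, ← h4], by rw [Q.S.τ_smul h _ _ h3, ← h5]⟩

/-- the out-neighbours of a top -/
theorem N_out {n : V} (e : Q.N n) : ∃ v m, Q.S.mv n v ∧ K.ar n m ∧ Q.ρ < K.rk m ∧
    (∃ v', Q.S.mv m v' ∧ Q.S.τ m v' = Q.S.τ n v) ∧ ∀ y, K.ar n y → y = v ∨ y = m := by
  obtain ⟨d, i, a, rfl, h1, h2, h3, h4, h5⟩ := e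
  refine ⟨d 1, d 3, h1, h2, Q.lt1 h3, ⟨d 4, h3, by rw [← h4, ← h5]⟩, fun y hy => ?_⟩
  have hne : d 1 ≠ d 3 := by
    intro e
    have k1 := Q.rk1 _ _ h1
    have k3 := Q.lt1 h3
    rw [← e] at k3
    omega
  rcases K.two _ _ _ _ hy (Q.S.mv_ar _ _ h1) h2 with k | k | k
  · exact Or.inl k
  · exact absurd k hne
  · exact Or.inr k

/-- the out-neighbour of rank `ρ` of a top -/
theorem N_uniq {n v v' : V} (e : Q.N n) (hv : K.ar n v) (hv' : K.ar n v') (r : K.rk v = Q.ρ)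
    (r' : K.rk v' = Q.ρ) : v = v' := by
  obtain ⟨u, m, h1, h2, h3, -, h4⟩ := Q.N_out e
  have k : ∀ y, K.ar n y → K.rk y = Q.ρ → y = u := by
    intro y hy ry
    rcases h4 y hy with h | h
    · exact h
    · rw [← h] at h3
      omega
  rw [k v hv r, k v' hv' r']

/-- no out-neighbour of small rank -/
theorem N_ge {n y : V} (e : Q.N n) (hy : K.ar n y) : Q.ρ ≤ K.rk y := by
  obtain ⟨u, m, h1, h2, h3, -, h4⟩ := Q.N_out e
  rcases h4 y hy with h | h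
  · rw [h, Q.rk1 _ _ h1]
  · rw [h]
    exact h3.le

/-- the slide of the tops only -/
def SN : Sl K where
  mv n v := Q.S.mv n v ∧ Q.N n
  τ := Q.S.τ
  mv_ar n v h := Q.S.mv_ar n v h.1
  mv_smul h n v e := ⟨Q.S.mv_smul h n v e.1, Q.N_smul h e.2⟩
  τ_smul h n v e := Q.S.τ_smul h n v e.1
  τ_ar n v e := Q.S.τ_ar n v e.1
  far n v n' v' e e' := Q.S.far n v n' v' e.1 e'.1

/-- the two corner functions -/
noncomputable def s (x v z : V) : ℤ := sg Q.S.mv Q.S.τ x v z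

noncomputable def sN (x v z : V) : ℤ := sg Q.SN.mv Q.SN.τ x v z

theorem s_symm (x v z : V) : Q.s x v z = Q.s z v x := sg_symm x v z

theorem sN_symm (x v z : V) : Q.sN x v z = Q.sN z v x := sg_symm x v z

/-- `s ≥ -1` and the case `s = -1` -/
theorem s_cases (x v z : V) : 0 ≤ Q.s x v z ∨ Q.s x v z = -1 ∧
    ((Q.S.mv x v ∧ z = Q.S.τ x v) ∨ (Q.S.mv z v ∧ x = Q.S.τ z v)) := by
  unfold s sg seg
  by_cases h1 : Q.S.mv x v
  · by_cases h2 : Q.S.mv z v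
    · rw [if_pos h1, if_pos h2]
      split_ifs
      · exact Or.inl (by simp)
      · exact Or.inl (by simp)
    · rw [if_pos h1, if_neg h2]
      split_ifs with h3
      · exact Or.inr ⟨by simp, Or.inl ⟨h1, h3⟩⟩
      · exact Or.inl (by simp)
  · by_cases h2 : Q.S.mv z v
    · rw [if_neg h1, if_pos h2]
      split_ifs with h3
      · exact Or.inr ⟨by simp, Or.inr ⟨h2, h3⟩⟩
      · exact Or.inl (by simp)
    · rw [if_neg h1, if_neg h2]
      exact Or.inl (by simp)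

/-- a moved vertex whose partner is not the target -/
theorem s_nonneg {x v z : V} (h1 : Q.S.mv x v) (h2 : z ≠ Q.S.τ x v) : 0 ≤ Q.s x v z := by
  rcases Q.s_cases x v z with h | ⟨-, h | h⟩
  · exact h
  · exact absurd h.2 h2
  · exfalso
    have := Q.not_mv_of_τ h.1 v
    rw [← h.2] at this
    exact this h1

theorem s_τ {x v z : V} (h1 : Q.S.mv x v) (h2 : z = Q.S.τ x v) : Q.s x v z = -1 :=
  sg_mv_τ h1 (by rw [h2]; exact Q.not_mv_of_τ h1 v) h2

open Classical in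
theorem sN_τ {x v z : V} (h1 : Q.S.mv x v) (h2 : z = Q.S.τ x v) :
    Q.sN x v z = if Q.N x then -1 else 0 := by
  have hz : ¬ Q.S.mv z v := by rw [h2]; exact Q.not_mv_of_τ h1 v
  have hz' : ¬ Q.SN.mv z v := fun k => hz k.1
  split_ifs with h
  · exact sg_mv_τ (mv := Q.SN.mv) (τ := Q.SN.τ) ⟨h1, h⟩ hz' h2
  · exact sg_not_not (mv := Q.SN.mv) (τ := Q.SN.τ) (fun k => h k.2) hz'

/-- the corner has a top which is not paired with its target -/
def Tp (x v z : V) : Prop :=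
  (Q.S.mv x v ∧ Q.N x ∧ z ≠ Q.S.τ x v) ∨ (Q.S.mv z v ∧ Q.N z ∧ x ≠ Q.S.τ z v)

/-- the values of `sN` -/
theorem sN_cases (x v z : V) : Q.sN x v z ≤ 0 ∨ (Q.sN x v z = 1 ∧ 0 ≤ Q.s x v z ∧ Q.Tp x v z) ∨
    (Q.sN x v z = 2 ∧ Q.s x v z = 2 ∧ Q.S.mv x v ∧ Q.N x ∧ Q.S.mv z v ∧ Q.N z ∧
      Q.S.τ x v ≠ Q.S.τ z v) := by
  by_cases h1 : Q.SN.mv x v
  · by_cases h2 : Q.SN.mv z v
    · by_cases h3 : Q.S.τ x v = Q.S.τ z v
      · left
        have : Q.sN x v z = 0 := sg_mv_mv (τ := Q.SN.τ) h1 h2 h3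
        omega
      · right
        right
        refine ⟨?_, ?_, h1.1, h1.2, h2.1, h2.2, h3⟩
        · show sg Q.SN.mv Q.SN.τ x v z = 2
          unfold sg seg
          rw [if_pos h1, if_pos h2, if_neg (show ¬ Q.SN.τ x v = Q.SN.τ z v from h3)]
          rfl
        · show sg Q.S.mv Q.S.τ x v z = 2
          unfold sg seg
          rw [if_pos h1.1, if_pos h2.1, if_neg h3]
          rfl
    · by_cases h3 : z = Q.S.τ x v
      · left
        have : Q.sN x v z = -1 := sg_mv_τ (τ := Q.SN.τ) h1 h2 h3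
        omega
      · right
        left
        exact ⟨sg_mv_not (τ := Q.SN.τ) h1 h2 h3, Q.s_nonneg h1.1 h3, Or.inl ⟨h1.1, h1.2, h3⟩⟩
  · by_cases h2 : Q.SN.mv z v
    · by_cases h3 : x = Q.S.τ z v
      · left
        have : Q.sN x v z = -1 := by
          rw [Q.sN_symm]
          exact sg_mv_τ (τ := Q.SN.τ) h2 h1 h3
        omega
      · right
        left
        refine ⟨?_, ?_, Or.inr ⟨h2.1, h2.2, h3⟩⟩
        · rw [Q.sN_symm]
          exact sg_mv_not (τ := Q.SN.τ) h2 h1 h3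
        · rw [Q.s_symm]
          exact Q.s_nonneg h2.1 h3
    · left
      have : Q.sN x v z = 0 := sg_not_not (τ := Q.SN.τ) h1 h2
      omega

theorem Tp_M {x v z : V} (h : Q.Tp x v z) : Q.S.M v := by
  rcases h with h | h
  · exact ⟨_, h.1⟩
  · exact ⟨_, h.1⟩

theorem sN_not {x v z : V} (h : ¬ Q.S.M v) : Q.sN x v z = 0 :=
  sg_of_not (fun ⟨n, hn⟩ => h ⟨n, hn.1⟩)

theorem s_not {x v z : V} (h : ¬ Q.S.M v) : Q.s x v z = 0 := sg_of_not h

/-- a top between two vertices with moved in-arrows -/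
theorem no_mid (hm : K.Min) {c : Fin 5 → V} {i : K.I} (a : P.At c i) (h1 : Q.S.M (c 1))
    (h3 : Q.S.M (c 3)) : ¬ Q.N (c 2) := by
  intro hN
  have hr : Q.ρ < K.rk (c 2) := by
    obtain ⟨u, m, k1, -⟩ := Q.N_out hN
    exact Q.lt1 k1
  have e1 : K.E (c 1) (c 2) := a.E 1
  have e2 : K.E (c 2) (c 3) := a.E 2
  have r1 := Q.rkM h1
  have r3 := Q.rkM h3
  have a1 : K.ar (c 2) (c 1) := by
    rcases e1 with e | e
    · have := K.ar_rk _ _ e
      omega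
    · exact e
  have a3 : K.ar (c 2) (c 3) := by
    rcases e2 with e | e
    · exact e
    · have := K.ar_rk _ _ e
      omega
  exact a.ne2 hm 1 (Q.N_uniq hN a1 a3 r1 r3)

/-- the sums over the corners of a cell -/
noncomputable def t (i : K.I) : ℤ := csg Q.S.mv Q.S.τ (K.cb i) (K.cw i)

noncomputable def tN (i : K.I) : ℤ := csg Q.SN.mv Q.SN.τ (K.cb i) (K.cw i)

theorem t_eq {c : Fin 5 → V} {i : K.I} (a : P.At c i) :
    Q.t i = ∑ j, Q.s (c j) (c (j + 1)) (c (j + 2)) := by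
  rw [a.corners (F := Q.s) Q.s_symm (fun h x y z => Q.S.sg_smul h x y z)]
  exact P.csg_eq Q.S a.1

theorem tN_eq {c : Fin 5 → V} {i : K.I} (a : P.At c i) :
    Q.tN i = ∑ j, Q.sN (c j) (c (j + 1)) (c (j + 2)) := by
  rw [a.corners (F := Q.sN) Q.sN_symm (fun h x y z => Q.SN.sg_smul h x y z)]
  exact P.csg_eq Q.SN a.1

theorem t_two {c : Fin 5 → V} {i : K.I} (a : P.At c i) (h0 : ¬ Q.S.M (c 0)) (h2 : ¬ Q.S.M (c 2))
    (h4 : ¬ Q.S.M (c 4)) : Q.t i = Q.s (c 0) (c 1) (c 2) + Q.s (c 2) (c 3) (c 4) := by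
  rw [Q.t_eq a]
  exact sum_two h0 h2 h4

theorem tN_two {c : Fin 5 → V} {i : K.I} (a : P.At c i) (h0 : ¬ Q.S.M (c 0)) (h2 : ¬ Q.S.M (c 2))
    (h4 : ¬ Q.S.M (c 4)) : Q.tN i = Q.sN (c 0) (c 1) (c 2) + Q.sN (c 2) (c 3) (c 4) := by
  rw [Q.tN_eq a]
  have k : ∀ v, ¬ Q.S.M v → ¬ Q.SN.M v := fun v hv ⟨n, hn⟩ => hv ⟨n, hn.1⟩
  exact sum_two (k _ h0) (k _ h2) (k _ h4)

/-- (2): a cell which is shortened twice -/
theorem two_le {i : K.I} (hi : P.five i) (ht : Q.t i ≤ -2) : Q.t i = -2 ∧ Q.tN i ≤ -1 := by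
  classical
  obtain ⟨c, a, m0, m2, m4⟩ := P.norm Q.S hi
  rw [Q.t_two a m0 m2 m4] at ht ⊢
  rw [Q.tN_two a m0 m2 m4]
  rcases Q.s_cases (c 0) (c 1) (c 2) with h | ⟨h, h'⟩
  · rcases Q.s_cases (c 2) (c 3) (c 4) with k | ⟨k, -⟩ <;> omega
  rcases Q.s_cases (c 2) (c 3) (c 4) with k | ⟨k, k'⟩
  · omega
  refine ⟨by rw [h, k]; rfl, ?_⟩
  rcases h' with ⟨p1, p2⟩ | ⟨p1, p2⟩
  · rcases k' with ⟨q1, q2⟩ | ⟨q1, q2⟩
    · exfalso
      have := Q.not_mv_of_τ p1 (c 3)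
      rw [← p2] at this
      exact this q1
    · -- the shape
      have e : K.E (c 4) (c 0) := a.E 4
      have f0 : Q.sN (c 0) (c 1) (c 2) = if Q.N (c 0) then -1 else 0 := Q.sN_τ p1 p2
      have f4 : Q.sN (c 2) (c 3) (c 4) = if Q.N (c 4) then -1 else 0 := by
        rw [Q.sN_symm]
        exact Q.sN_τ q1 q2
      have hN : Q.N (c 0) ∨ Q.N (c 4) := by
        rcases e with e | e
        · exact Or.inr ⟨fun j => c (2 + j), i, a.rot 2, rfl, q1, e, p1, q2, p2⟩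
        · exact Or.inl ⟨fun j => c (2 - j), i, a.refl 2, rfl, p1, e, q1, p2, q2⟩
      rw [f0, f4]
      rcases hN with hN | hN
      · rw [if_pos hN]
        split_ifs <;> omega
      · rw [if_pos hN]
        split_ifs <;> omega
  · rcases k' with ⟨q1, q2⟩ | ⟨q1, q2⟩
    · exfalso
      have e : K.E (c 4) (c 0) := a.E 4
      have r0 := Q.rk2 _ _ p1
      have r4 := Q.rk2 _ _ q1
      rw [← p2] at r0
      rw [← q2] at r4
      rcases e with e | e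
      · have := K.ar_rk _ _ e
        omega
      · have := K.ar_rk _ _ e
        omega
    · exfalso
      have := Q.not_mv_of_τ q1 (c 1)
      rw [← q2] at this
      exact this p1

/-- two tops next to each other -/
theorem no_tops (hm : K.Min) {c : Fin 5 → V} {i : K.I} (a : P.At c i) (h1 : Q.S.mv (c 0) (c 1))
    (n0 : Q.N (c 0)) (h3 : Q.S.mv (c 4) (c 3)) (n4 : Q.N (c 4)) (har : K.ar (c 0) (c 4))
    (k1 : c 2 ≠ Q.S.τ (c 0) (c 1)) (k3 : c 2 ≠ Q.S.τ (c 4) (c 3)) : False := by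
  obtain ⟨d, i', a', e2, g1, g2, g3, g4, g5⟩ := id n0
  have q1 : d 1 = c 1 := Q.N_uniq n0 (by rw [← e2]; exact Q.S.mv_ar _ _ g1) (Q.S.mv_ar _ _ h1)
    (Q.rk1 _ _ g1) (Q.rk1 _ _ h1)
  have q3 : d 3 = c 4 := by
    obtain ⟨u, m, j1, j2, j3, -, j4⟩ := Q.N_out n0
    have key : ∀ y, K.ar (c 0) y → Q.ρ < K.rk y → y = m := by
      intro y hy ry
      rcases j4 y hy with h | h
      · rw [h, Q.rk1 _ _ j1] at ry
        omega
      · exact h
    rw [key (d 3) (by rw [← e2]; exact g2) (Q.lt1 g3), key (c 4) har (Q.lt1 h3)]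
  have q4 : d 4 = c 3 := by
    rw [q3] at g3
    exact Q.N_uniq n4 (Q.S.mv_ar _ _ g3) (Q.S.mv_ar _ _ h3) (Q.rk1 _ _ g3) (Q.rk1 _ _ h3)
  have hi : i = i' := (a.refl 2).uniq hm a' q1.symm e2.symm q3.symm q4.symm
  subst hi
  have z0 : ¬ Q.S.M (c 0) := fun k => by
    have := Q.rkM k
    have := Q.lt1 h1
    omega
  have z4 : ¬ Q.S.M (c 4) := fun k => by
    have := Q.rkM k
    have := Q.lt1 h3
    omega
  have z2 : ¬ Q.S.M (c 2) := fun k => Q.S.not_MM ⟨_, h1⟩ k (a.E 1)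
  have t1 := Q.t_two a z0 z2 z4
  have t2 := Q.t_two (a'.refl 2) (by
      show ¬ Q.S.M (d 2)
      rw [e2]; exact z0) (by
      show ¬ Q.S.M (d 0)
      exact fun k => Q.S.not_MM k ⟨_, g1⟩ (a'.E 0)) (by
      show ¬ Q.S.M (d 3)
      rw [q3]; exact z4)
  have s1 : 0 ≤ Q.s (c 0) (c 1) (c 2) := Q.s_nonneg h1 k1
  have s3 : 0 ≤ Q.s (c 2) (c 3) (c 4) := by
    rw [Q.s_symm]
    exact Q.s_nonneg h3 k3
  have u1 : Q.s (d 2) (d 1) (d 0) = -1 := Q.s_τ g1 g4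
  have u3 : Q.s (d 0) (d 4) (d 3) = -1 := by
    rw [Q.s_symm]
    exact Q.s_τ g3 g5
  have t3 : Q.t i = Q.s (d 2) (d 1) (d 0) + Q.s (d 0) (d 4) (d 3) := t2
  omega

/-- a top corner at `c 1`, the vertex `c 3` has moved in-arrows: the top is `c 0` -/
theorem Tp_left (hm : K.Min) {c : Fin 5 → V} {i : K.I} (a : P.At c i) (h : Q.Tp (c 0) (c 1) (c 2))
    (h3 : Q.S.M (c 3)) : Q.S.mv (c 0) (c 1) ∧ Q.N (c 0) ∧ c 2 ≠ Q.S.τ (c 0) (c 1) := by
  have hn := Q.no_mid hm a (Q.Tp_M h) h3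
  rcases h with h | ⟨-, h, -⟩
  · exact h
  · exact absurd h hn

/-- not two top corners in one pentagon -/
theorem not_two (hm : K.Min) {c : Fin 5 → V} {i : K.I} (a : P.At c i)
    (h1 : Q.Tp (c 0) (c 1) (c 2)) (h3 : Q.Tp (c 2) (c 3) (c 4)) : False := by
  obtain ⟨p1, p2, p3⟩ := Q.Tp_left hm a h1 (Q.Tp_M h3)
  have h3' : Q.Tp (c 4) (c 3) (c 2) := h3.symm
  obtain ⟨q1, q2, q3⟩ := Q.Tp_left hm (c := fun j => c (4 - j)) (a.refl 4) h3' (Q.Tp_M h1)
  have q1 : Q.S.mv (c 4) (c 3) := q1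
  have q2 : Q.N (c 4) := q2
  have q3 : c 2 ≠ Q.S.τ (c 4) (c 3) := q3
  rcases (a.E 4 : K.E (c 4) (c 0)) with e | e
  · exact Q.no_tops hm (a.refl 4) q1 q2 p1 p2 e q3 p3
  · exact Q.no_tops hm a p1 p2 q1 q2 e p3 q3

/-- a top corner at `c 1`: the sum of the two values of `s` is not negative -/
theorem t_top (hm : K.Min) {c : Fin 5 → V} {i : K.I} (a : P.At c i)
    (h1 : Q.Tp (c 0) (c 1) (c 2)) : 0 ≤ Q.s (c 0) (c 1) (c 2) + Q.s (c 2) (c 3) (c 4) := by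
  have s1 : 0 ≤ Q.s (c 0) (c 1) (c 2) := by
    rcases h1 with h' | h'
    · exact Q.s_nonneg h'.1 h'.2.2
    · rw [Q.s_symm]
      exact Q.s_nonneg h'.1 h'.2.2
  rcases Q.s_cases (c 2) (c 3) (c 4) with k | ⟨k, k'⟩
  · omega
  have M3 : Q.S.M (c 3) := by
    rcases k' with h' | h'
    · exact ⟨_, h'.1⟩
    · exact ⟨_, h'.1⟩
  obtain ⟨p1, p2, p3⟩ := Q.Tp_left hm a h1 M3
  rcases k' with ⟨q1, q2⟩ | ⟨q1, q2⟩
  · exfalso
    have r4 := Q.rk2 _ _ q1
    rw [← q2] at r4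
    have r0 := Q.lt1 p1
    have l := Q.lt2 p1
    have e : K.ar (c 0) (c 4) := by
      rcases (a.E 4 : K.E (c 4) (c 0)) with e | e
      · have : K.rk (c 0) < K.rk (c 4) := K.ar_rk _ _ e
        omega
      · exact e
    have := Q.N_ge p2 e
    omega
  · have hz : ¬ Q.S.mv (c 2) (c 1) := by
      rw [q2]
      exact Q.not_mv_of_τ q1 (c 1)
    have s2 : Q.s (c 0) (c 1) (c 2) = 1 := sg_mv_not p1 hz p3
    omega

/-- the values of `tN` -/
theorem tN_cases (hm : K.Min) {i : K.I} (hi : P.five i) : Q.tN i ≤ 0 ∨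
    (Q.tN i = 1 ∧ 0 ≤ Q.t i ∧
      ∃ c : Fin 5 → V, P.At c i ∧ Q.S.mv (c 0) (c 1) ∧ Q.N (c 0) ∧ c 2 ≠ Q.S.τ (c 0) (c 1)) ∨
    (Q.tN i = 2 ∧ Q.t i = 2 ∧
      ∃ c : Fin 5 → V, P.At c i ∧ Q.S.mv (c 0) (c 1) ∧ Q.N (c 0) ∧ Q.S.mv (c 2) (c 1) ∧
        Q.N (c 2) ∧ Q.S.τ (c 0) (c 1) ≠ Q.S.τ (c 2) (c 1)) := by
  obtain ⟨c, a, m0, m2, m4⟩ := P.norm Q.S hi
  -- the first corner is as large as the second one
  have main : ∀ {c : Fin 5 → V}, P.At c i → ¬ Q.S.M (c 0) → ¬ Q.S.M (c 2) → ¬ Q.S.M (c 4) →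
      Q.sN (c 2) (c 3) (c 4) ≤ Q.sN (c 0) (c 1) (c 2) → Q.tN i ≤ 0 ∨
      (Q.tN i = 1 ∧ 0 ≤ Q.t i ∧
        ∃ c : Fin 5 → V, P.At c i ∧ Q.S.mv (c 0) (c 1) ∧ Q.N (c 0) ∧ c 2 ≠ Q.S.τ (c 0) (c 1)) ∨
      (Q.tN i = 2 ∧ Q.t i = 2 ∧
        ∃ c : Fin 5 → V, P.At c i ∧ Q.S.mv (c 0) (c 1) ∧ Q.N (c 0) ∧ Q.S.mv (c 2) (c 1) ∧
          Q.N (c 2) ∧ Q.S.τ (c 0) (c 1) ≠ Q.S.τ (c 2) (c 1)) := by
    intro c a m0 m2 m4 hle
    rw [Q.t_two a m0 m2 m4, Q.tN_two a m0 m2 m4]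
    rcases Q.sN_cases (c 0) (c 1) (c 2) with h | ⟨h, h', ht⟩ | ⟨h, h', k1, k2, k3, k4, k5⟩
    · left
      omega
    · rcases Q.sN_cases (c 2) (c 3) (c 4) with k | ⟨k, -, kt⟩ | ⟨k, -⟩
      · rcases lt_or_ge (Q.sN (c 2) (c 3) (c 4)) 0 with k | k
        · left
          omega
        · right
          left
          refine ⟨by omega, Q.t_top hm a ht, ?_⟩
          rcases ht with h' | h'
          · exact ⟨c, a, h'⟩
          · exact ⟨_, a.refl 2, h'⟩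
      · exact (Q.not_two hm a ht kt).elim
      · omega
    · have h3 : ¬ Q.S.M (c 3) := fun k => Q.no_mid hm a ⟨_, k1⟩ k k4
      have e1 : Q.sN (c 2) (c 3) (c 4) = 0 := Q.sN_not h3
      have e2 : Q.s (c 2) (c 3) (c 4) = 0 := Q.s_not h3
      right
      right
      exact ⟨by omega, by omega, c, a, k1, k2, k3, k4, k5⟩
  rcases le_total (Q.sN (c 2) (c 3) (c 4)) (Q.sN (c 0) (c 1) (c 2)) with h | h
  · exact main a m0 m2 m4 h
  · refine main (c := fun j => c (4 - j)) (a.refl 4) m4 m2 m0 ?_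
    show Q.sN (c 2) (c 1) (c 0) ≤ Q.sN (c 4) (c 3) (c 2)
    rw [Q.sN_symm (c 2), Q.sN_symm (c 4)]
    exact h

theorem N_mv {n : V} (h : Q.N n) : ∃ v, Q.S.mv n v := by
  obtain ⟨v, m, h1, -⟩ := Q.N_out h
  exact ⟨v, h1⟩

open Classical in
/-- the fold of the tops to their targets -/
noncomputable def ff (x : V) : V := if h : Q.N x then Q.S.τ x (Classical.choose (Q.N_mv h)) else x

theorem ff_not {x : V} (h : ¬ Q.N x) : Q.ff x = x := by
  unfold ff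
  rw [dif_neg h]

theorem ff_N {x v : V} (h : Q.N x) (hv : Q.S.mv x v) : Q.ff x = Q.S.τ x v := by
  unfold ff
  rw [dif_pos h]
  have := Classical.choose_spec (Q.N_mv h)
  rw [Q.N_uniq h (Q.S.mv_ar _ _ this) (Q.S.mv_ar _ _ hv) (Q.rk1 _ _ this) (Q.rk1 _ _ hv)]

theorem N_iff (h : H) (x : V) : Q.N (h • x) ↔ Q.N x := by
  refine ⟨fun e => ?_, Q.N_smul h⟩
  have := Q.N_smul h⁻¹ e
  rwa [inv_smul_smul] at this

theorem not_N_τ {n v : V} (h : Q.S.mv n v) : ¬ Q.N (Q.S.τ n v) := fun k => by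
  obtain ⟨w, hw⟩ := Q.N_mv k
  exact Q.not_mv_of_τ h w hw

theorem ff_τ {n v : V} (h : Q.S.mv n v) : Q.ff (Q.S.τ n v) = Q.S.τ n v := Q.ff_not (Q.not_N_τ h)

/-- the fold -/
noncomputable def fo : Fo Q.S.gx where
  f := Q.ff
  f_smul h x := by
    by_cases hx : Q.N x
    · obtain ⟨v, hv⟩ := Q.N_mv hx
      rw [Q.ff_N hx hv, Q.ff_N (Q.N_smul h hx) (Q.S.mv_smul h _ _ hv), Q.S.τ_smul h _ _ hv]
    · rw [Q.ff_not hx, Q.ff_not (fun k => hx ((Q.N_iff h x).1 k))]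
  idem x := by
    by_cases hx : Q.N x
    · obtain ⟨v, hv⟩ := Q.N_mv hx
      rw [Q.ff_N hx hv, Q.ff_τ hv]
    · rw [Q.ff_not hx, Q.ff_not hx]
  f_ar x hx := by
    by_cases h : Q.N x
    · obtain ⟨v, hv⟩ := Q.N_mv h
      rw [Q.ff_N h hv]
      exact Or.inr ⟨v, hv, rfl⟩
    · exact absurd (Q.ff_not h) hx
  adj x y e := by
    by_cases hx : Q.N x
    · rcases e with ⟨e, e'⟩ | ⟨v, e, rfl⟩
      · obtain ⟨v, m, h1, h2, h3, ⟨v', h4, h5⟩, h6⟩ := Q.N_out hx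
        rcases h6 y e with h | h
        · rw [h] at e'
          exact absurd h1 e'
        · rw [h, Q.ff_N hx h1]
          by_cases hm : Q.N m
          · left
            rw [Q.ff_N hm h4, h5]
          · right
            right
            rw [Q.ff_not hm]
            exact Or.inl ⟨Q.ff_not hm, _, Or.inr ⟨v', h4, h5⟩, Q.ff_τ h1⟩
      · left
        rw [Q.ff_N hx e, Q.ff_τ e]
    · right
      left
      rw [Q.ff_not hx]
      exact Or.inl ⟨Q.ff_not hx, y, e, rfl⟩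

/-- a stutter, general form -/
theorem stn_infix {i : K.I} {x v z : V} (l1 l2 : List V) (hv : Q.S.M v)
    (hm : (Q.S.mv x v ∧ Q.N x ∧ z ≠ Q.S.τ x v) ∨ (Q.S.mv z v ∧ Q.N z ∧ x ≠ Q.S.τ z v))
    (e : Q.S.rb i :: Q.S.rl i = l1 ++ x :: v :: z :: l2) :
    1 ≤ stn Q.ff (Q.S.gx.cb i) (Q.S.gx.cw i) := by
  obtain ⟨h3, h4, -, -, -⟩ := Q.S.rot_spec i
  have hrb : ¬ Q.S.M (Q.S.rb i) := by
    rcases h3 with h3 | h3
    · rw [h3] at e
      have := congrArg List.length e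
      simp at this
      omega
    · exact h3
  obtain ⟨l1', l2', e'⟩ := Q.S.slw_infix hv _ _ _ l1 l2 le_rfl hrb h4 e
  rcases hm with ⟨hx, hN, hz⟩ | ⟨hz, hN, hx⟩
  · obtain ⟨l, hl⟩ := seg_head hx hz
    rw [hl] at e'
    refine stn_pos (a := x) (b := Q.S.τ x v) ?_ l1' _ _ _ e'
    rw [Q.ff_N hN hx, Q.ff_τ hx]
  · obtain ⟨l, hl⟩ := seg_last hz hx
    rw [hl] at e'
    refine stn_pos (a := Q.S.τ z v) (b := z) ?_ (l1' ++ x :: l) l2' _ _ ?_
    · rw [Q.ff_N hN hz, Q.ff_τ hz]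
    rw [show Q.S.gx.cb i = Q.S.rb i from rfl]
    rw [show Q.S.gx.cw i = slw Q.S.mv Q.S.τ (Q.S.rb i) (Q.S.rl i) from rfl, e']
    simp

/-- a top at a corner which is no target corner gives a stutter -/
theorem stn_one {i : K.I} {c : Fin 5 → V} (a : P.At c i) (h1 : Q.S.mv (c 0) (c 1)) (hN : Q.N (c 0))
    (h2 : c 2 ≠ Q.S.τ (c 0) (c 1)) : 1 ≤ stn Q.ff (Q.S.gx.cb i) (Q.S.gx.cw i) := by
  obtain ⟨hi, h, k, a⟩ := a
  have g1 : ∀ k : Fin 5, k - 0 = k - 2 + 2 := by decide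
  have g2 : ∀ k : Fin 5, k - 1 = k - 2 + 1 := by decide
  have tr : Q.S.mv (h⁻¹ • c 0) (h⁻¹ • c 1) := Q.S.mv_smul h⁻¹ _ _ h1
  have hM : Q.S.M (h⁻¹ • c 1) := ⟨_, tr⟩
  have hz : h⁻¹ • c 2 ≠ Q.S.τ (h⁻¹ • c 0) (h⁻¹ • c 1) := by
    rw [Q.S.τ_smul h⁻¹ _ _ h1]
    exact fun e => h2 (smul_left_cancel _ e)
  have hN' := Q.N_smul h⁻¹ hN
  rcases a with a | a
  · rw [a, inv_smul_smul] at tr hM hz hN'
    rw [a, inv_smul_smul] at tr hz
    rw [a, inv_smul_smul] at hz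
    rw [add_zero] at tr hN' hz
    obtain ⟨l1, l2, e⟩ := P.corner_infix Q.S hi k hM
    exact Q.stn_infix l1 l2 hM (Or.inl ⟨tr, hN', hz⟩) e
  · rw [a, inv_smul_smul] at tr hM hz hN'
    rw [a, inv_smul_smul] at tr hz
    rw [a, inv_smul_smul] at hz
    rw [g1, g2] at tr hz
    rw [g2] at hM
    rw [g1] at hN'
    obtain ⟨l1, l2, e⟩ := P.corner_infix Q.S hi (k - 2) hM
    exact Q.stn_infix l1 l2 hM (Or.inr ⟨tr, hN', hz⟩) e

/-- two tops with different targets give two stutters -/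
theorem stn_infix2 {i : K.I} {x v z : V} (l1 l2 : List V) (hx : Q.S.mv x v) (hNx : Q.N x)
    (hz : Q.S.mv z v) (hNz : Q.N z) (hne : Q.S.τ x v ≠ Q.S.τ z v)
    (e : Q.S.rb i :: Q.S.rl i = l1 ++ x :: v :: z :: l2) :
    2 ≤ stn Q.ff (Q.S.gx.cb i) (Q.S.gx.cw i) := by
  obtain ⟨h3, h4, -, -, -⟩ := Q.S.rot_spec i
  have hrb : ¬ Q.S.M (Q.S.rb i) := by
    rcases h3 with h3 | h3
    · rw [h3] at e
      have := congrArg List.length e
      simp at this
      omega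
    · exact h3
  obtain ⟨l1', l2', e'⟩ := Q.S.slw_infix ⟨_, hx⟩ _ _ _ l1 l2 le_rfl hrb h4 e
  have hs : seg Q.S.mv Q.S.τ x v z = [Q.S.τ x v, v, Q.S.τ z v] := by
    unfold seg
    rw [if_pos hx, if_pos hz, if_neg hne]
  rw [hs] at e'
  refine stn_two (a := x) (b := Q.S.τ x v) (c := Q.S.τ z v) (d := z) ?_ ?_ l1' l2' _ _ e'
  · rw [Q.ff_N hNx hx, Q.ff_τ hx]
  · rw [Q.ff_N hNz hz, Q.ff_τ hz]

theorem stn_two' {i : K.I} {c : Fin 5 → V} (a : P.At c i) (h0 : Q.S.mv (c 0) (c 1))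
    (hN0 : Q.N (c 0)) (h2 : Q.S.mv (c 2) (c 1)) (hN2 : Q.N (c 2))
    (hne : Q.S.τ (c 0) (c 1) ≠ Q.S.τ (c 2) (c 1)) :
    2 ≤ stn Q.ff (Q.S.gx.cb i) (Q.S.gx.cw i) := by
  obtain ⟨hi, h, k, a⟩ := a
  have g1 : ∀ k : Fin 5, k - 0 = k - 2 + 2 := by decide
  have g2 : ∀ k : Fin 5, k - 1 = k - 2 + 1 := by decide
  have tr0 : Q.S.mv (h⁻¹ • c 0) (h⁻¹ • c 1) := Q.S.mv_smul h⁻¹ _ _ h0
  have tr2 : Q.S.mv (h⁻¹ • c 2) (h⁻¹ • c 1) := Q.S.mv_smul h⁻¹ _ _ h2
  have hM : Q.S.M (h⁻¹ • c 1) := ⟨_, tr0⟩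
  have hz : Q.S.τ (h⁻¹ • c 0) (h⁻¹ • c 1) ≠ Q.S.τ (h⁻¹ • c 2) (h⁻¹ • c 1) := by
    rw [Q.S.τ_smul h⁻¹ _ _ h0, Q.S.τ_smul h⁻¹ _ _ h2]
    exact fun e => hne (smul_left_cancel _ e)
  have hN0' := Q.N_smul h⁻¹ hN0
  have hN2' := Q.N_smul h⁻¹ hN2
  rcases a with a | a
  · have e0 : h⁻¹ • c 0 = P.pt i k := by rw [a, inv_smul_smul, add_zero]
    have e1 : h⁻¹ • c 1 = P.pt i (k + 1) := by rw [a, inv_smul_smul]
    have e2 : h⁻¹ • c 2 = P.pt i (k + 2) := by rw [a, inv_smul_smul]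
    rw [e0, e1] at tr0
    rw [e2, e1] at tr2
    rw [e1] at hM
    rw [e0, e1, e2] at hz
    rw [e0] at hN0'
    rw [e2] at hN2'
    obtain ⟨l1, l2, e⟩ := P.corner_infix Q.S hi k hM
    exact Q.stn_infix2 l1 l2 tr0 hN0' tr2 hN2' hz e
  · have e0 : h⁻¹ • c 0 = P.pt i (k - 2 + 2) := by rw [a, inv_smul_smul, g1]
    have e1 : h⁻¹ • c 1 = P.pt i (k - 2 + 1) := by rw [a, inv_smul_smul, g2]
    have e2 : h⁻¹ • c 2 = P.pt i (k - 2) := by rw [a, inv_smul_smul]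
    rw [e0, e1] at tr0
    rw [e2, e1] at tr2
    rw [e1] at hM
    rw [e0, e1, e2] at hz
    rw [e0] at hN0'
    rw [e2] at hN2'
    obtain ⟨l1, l2, e⟩ := P.corner_infix Q.S hi (k - 2) hM
    exact Q.stn_infix2 l1 l2 tr2 hN2' tr0 hN0' hz.symm e

open Classical in
/-- THE INEQUALITY WITH THE REAL GAIN: exact at the pentagons, a bound `w` at the other cells -/
theorem sum_nonneg (hm : K.Min) [Fintype K.I] (w : K.I → ℤ) (hw : ∀ i, ¬ P.five i →
    max 0 (((K.cw i).length : ℤ) + Q.t i - stn Q.ff (Q.S.gx.cb i) (Q.S.gx.cw i) - 4) +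
      max 0 (((K.cw i).length : ℤ) + Q.tN i - 4) ≤ 2 * max 0 (((K.cw i).length : ℤ) - 4) + w i) :
    0 ≤ ∑ i, if P.five i then Q.t i else w i := by
  have hA := hm.le_max Q.fo.gx rfl (fun i => (Q.fo.gx.cw i).length) (fun i => rfl)
  have hB := hm.le_max Q.SN.gx rfl (fun i => (Q.SN.gx.cw i).length) (fun i => rfl)
  have key : ∀ i : K.I, max 0 (((Q.fo.gx.cw i).length : ℤ) - 4) +
      max 0 (((Q.SN.gx.cw i).length : ℤ) - 4) ≤
      2 * max 0 (((K.cw i).length : ℤ) - 4) + if P.five i then Q.t i else w i := by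
    intro i
    have l1 : ((Q.fo.gx.cw i).length : ℤ) + stn Q.ff (Q.S.gx.cb i) (Q.S.gx.cw i) =
        (K.cw i).length + Q.t i := by
      have e1 : ((Q.fo.gx.cw i).length : ℤ) + stn Q.ff (Q.S.gx.cb i) (Q.S.gx.cw i) =
          (Q.S.gx.cw i).length := by exact_mod_cast Q.fo.gx_length i
      rw [e1]
      exact Q.S.gx_length i
    have l1' : ((Q.SN.gx.cw i).length : ℤ) = (K.cw i).length + Q.tN i := Q.SN.gx_length i
    have l2 : (0 : ℤ) ≤ stn Q.ff (Q.S.gx.cb i) (Q.S.gx.cw i) := by positivity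
    by_cases hi : P.five i
    · rw [if_pos hi]
      have h5 : ((K.cw i).length : ℤ) = 5 := by
        rw [P.cw_eq i hi]
        rfl
      rw [h5] at l1 l1' ⊢
      have m0 : max (0 : ℤ) (5 - 4) = 1 := by norm_num
      rw [m0]
      rcases le_or_gt (Q.t i) (-2) with h | h
      · obtain ⟨h3, h4⟩ := Q.two_le hi h
        rw [max_eq_left (by omega), max_eq_left (by omega)]
        omega
      · rcases Q.tN_cases hm hi with h' | ⟨h', h3, c, a, h4, h5, h6⟩ |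
          ⟨h', h3, c, a, h4, h5, h6, h7, h8⟩
        · have m1 : max 0 (((Q.fo.gx.cw i).length : ℤ) - 4) ≤ 1 + Q.t i :=
            max_le (by omega) (by omega)
          have m2 : max 0 (((Q.SN.gx.cw i).length : ℤ) - 4) ≤ 1 := max_le (by omega) (by omega)
          omega
        · have := Q.stn_one a h4 h5 h6
          have l4 : (1 : ℤ) ≤ stn Q.ff (Q.S.gx.cb i) (Q.S.gx.cw i) := by exact_mod_cast this
          have m1 : max 0 (((Q.fo.gx.cw i).length : ℤ) - 4) ≤ Q.t i :=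
            max_le (by omega) (by omega)
          have m2 : max 0 (((Q.SN.gx.cw i).length : ℤ) - 4) ≤ 2 := max_le (by omega) (by omega)
          omega
        · have := Q.stn_two' a h4 h5 h6 h7 h8
          have l4 : (2 : ℤ) ≤ stn Q.ff (Q.S.gx.cb i) (Q.S.gx.cw i) := by exact_mod_cast this
          have m1 : max 0 (((Q.fo.gx.cw i).length : ℤ) - 4) ≤ 1 := max_le (by omega) (by omega)
          have m2 : max 0 (((Q.SN.gx.cw i).length : ℤ) - 4) ≤ 3 := max_le (by omega) (by omega)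
          omega
    · rw [if_neg hi]
      have e1 : ((Q.fo.gx.cw i).length : ℤ) - 4 =
          ((K.cw i).length : ℤ) + Q.t i - stn Q.ff (Q.S.gx.cb i) (Q.S.gx.cw i) - 4 := by omega
      rw [e1, l1']
      exact hw i hi
  have h1 := Finset.sum_le_sum fun i (_ : i ∈ (Finset.univ : Finset K.I)) => key i
  rw [Finset.sum_add_distrib, Finset.sum_add_distrib, ← Finset.mul_sum] at h1
  linarith

end PQa

/-! ### pentagons only, cuts -/

/-- THE SLIDE INEQUALITY for an arbitrary set of in-arrows, pentagons only -/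
theorem Pt.slide_sum {K : GX H V} (P : Pt K) (hm : K.Min) (S : Sl K) (ρ ρ' : ℕ)
    (rk1 : ∀ n v, S.mv n v → K.rk v = ρ) (rk2 : ∀ n v, S.mv n v → K.rk (S.τ n v) = ρ') :
    0 ≤ K.cr.cs (sg S.mv S.τ) := by
  classical
  let Q : PQa P.toPG := ⟨S, ρ, ρ', rk1, rk2⟩
  have h := Q.sum_nonneg hm (fun _ => 0) (fun i hi => absurd trivial hi)
  rw [P.cs_eq]
  refine h.trans (le_of_eq (Finset.sum_congr rfl fun i _ => ?_))
  rw [if_pos (show P.toPG.five i from trivial)]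
  exact P.toPG.csg_eq S trivial

/-- a set `R` of in-arrows of a soft `v` with poles `a`, `b`: elements of the stabiliser of `v` which
fix the poles preserve `R`, the others move `R` off itself -/
structure CuD (K : GX H V) where
  v : V
  a : V
  b : V
  R : Set V
  va : K.ar v a
  vb : K.ar v b
  ab : a ≠ b
  R_ar : ∀ n ∈ R, K.ar n v
  stab : ∀ g : H, g • v = v → ∀ n ∈ R, g • n ∈ R → g • a = a
  inv : ∀ g : H, g • v = v → g • a = a → ∀ n ∈ R, g • n ∈ R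

namespace CuD

variable {K : GX H V} (D : CuD K)

/-- moved arrows -/
def mv (n y : V) : Prop := ∃ h : H, h⁻¹ • n ∈ D.R ∧ y = h • D.v

theorem mv_ar {n y : V} (e : D.mv n y) : K.ar n y := by
  obtain ⟨h, h1, rfl⟩ := e
  have := K.ar_smul h _ _ (D.R_ar _ h1)
  rwa [smul_inv_smul] at this

open Classical in
/-- targets -/
noncomputable def τ (n y : V) : V := if e : D.mv n y then (Classical.choose e) • D.a else y

theorem τ_eq {n y : V} {h : H} (h1 : h⁻¹ • n ∈ D.R) (h2 : y = h • D.v) : D.τ n y = h • D.a := by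
  have e : D.mv n y := ⟨h, h1, h2⟩
  unfold τ
  rw [dif_pos e]
  obtain ⟨k1, k2⟩ := Classical.choose_spec e
  set k := Classical.choose e
  have e1 : (h⁻¹ * k) • D.v = D.v := by
    rw [mul_smul, ← k2, h2, inv_smul_smul]
  have e2 : (h⁻¹ * k) • (k⁻¹ • n) ∈ D.R := by
    rw [mul_smul, smul_inv_smul]
    exact h1
  have e3 := D.stab _ e1 _ k1 e2
  rw [mul_smul, inv_smul_eq_iff] at e3
  exact e3

/-- the slide -/
noncomputable def sl : Sl K where
  mv := D.mv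
  τ := D.τ
  mv_ar _ _ e := D.mv_ar e
  mv_smul h n y := by
    rintro ⟨k, h1, rfl⟩
    refine ⟨h * k, ?_, (mul_smul h k _).symm⟩
    rw [mul_inv_rev, mul_smul, inv_smul_smul]
    exact h1
  τ_smul h n y := by
    rintro ⟨k, h1, rfl⟩
    rw [D.τ_eq h1 rfl, D.τ_eq (h := h * k) (n := h • n) (y := h • k • D.v) ?_ (mul_smul h k _).symm,
      mul_smul]
    rw [mul_inv_rev, mul_smul, inv_smul_smul]
    exact h1
  τ_ar n y := by
    rintro ⟨k, h1, rfl⟩
    rw [D.τ_eq h1 rfl]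
    exact K.ar_smul k _ _ D.va
  far := by
    rintro n v n' v' ⟨k, -, rfl⟩ ⟨k', -, rfl⟩ e
    have h1 := K.rk_smul k D.v
    have h2 := K.rk_smul k' D.v
    rcases e with e | e
    · have := K.ar_rk _ _ e
      omega
    · have := K.ar_rk _ _ e
      omega

theorem rk1 (n v : V) (h : D.sl.mv n v) : K.rk v = K.rk D.v := by
  obtain ⟨k, -, rfl⟩ := h
  exact K.rk_smul k _

theorem rk2 (n v : V) (h : D.sl.mv n v) : K.rk (D.sl.τ n v) = K.rk D.a := by
  obtain ⟨k, h1, rfl⟩ := h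
  show K.rk (D.τ _ _) = _
  rw [D.τ_eq h1 rfl, K.rk_smul]

/-- corners with exactly one moved leg, the other leg is not the target -/
def c1 (x y z : V) : Prop :=
  (D.mv x y ∧ ¬ D.mv z y ∧ z ≠ D.τ x y) ∨ (D.mv z y ∧ ¬ D.mv x y ∧ x ≠ D.τ z y)

/-- corners with two moved legs and different targets -/
def c2 (x y z : V) : Prop := D.mv x y ∧ D.mv z y ∧ D.τ x y ≠ D.τ z y

theorem not_mv_τ {x y w : V} (h : D.mv x y) : ¬ D.mv (D.τ x y) w := by
  intro k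
  have h1 := K.ar_rk _ _ (D.mv_ar k)
  have h2 := D.rk1 _ _ k
  have h3 := D.rk2 _ _ h
  have h4 := K.ar_rk _ _ D.va
  have h3 : K.rk (D.τ x y) = K.rk D.a := h3
  omega

open Classical in
/-- the corner values -/
theorem sg_eq (x y z : V) : sg D.sl.mv D.sl.τ x y z = (if D.c1 x y z then 1 else 0) +
    2 * (if D.c2 x y z then 1 else 0) - (if cA D.sl.mv D.sl.τ x y z then 1 else 0) := by
  have u : ∀ {x y z : V}, D.mv x y → z = D.τ x y → ¬ D.mv z y := by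
    intro x y z h e
    rw [e]
    exact D.not_mv_τ h
  by_cases h1 : D.mv x y
  · by_cases h2 : D.mv z y
    · have nA : ¬ cA D.sl.mv D.sl.τ x y z := by
        rintro (⟨-, e⟩ | ⟨-, e⟩)
        · exact u h1 e h2
        · exact u h2 e h1
      have n1 : ¬ D.c1 x y z := by
        rintro (⟨-, e, -⟩ | ⟨-, e, -⟩)
        · exact e h2
        · exact e h1
      rw [if_neg nA, if_neg n1]
      by_cases h3 : D.τ x y = D.τ z y
      · have n2 : ¬ D.c2 x y z := fun k => k.2.2 h3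
        rw [if_neg n2, sg_mv_mv (mv := D.sl.mv) (τ := D.sl.τ) h1 h2 h3]
        norm_num
      · have p2 : D.c2 x y z := ⟨h1, h2, h3⟩
        rw [if_pos p2]
        show sg D.mv D.τ x y z = _
        unfold sg seg
        rw [if_pos h1, if_pos h2, if_neg h3]
        rfl
    · have n2 : ¬ D.c2 x y z := fun k => h2 k.2.1
      rw [if_neg n2]
      by_cases h3 : z = D.τ x y
      · have pA : cA D.sl.mv D.sl.τ x y z := Or.inl ⟨h1, h3⟩
        have n1 : ¬ D.c1 x y z := by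
          rintro (⟨-, -, e⟩ | ⟨e, -⟩)
          · exact e h3
          · exact h2 e
        rw [if_pos pA, if_neg n1, sg_mv_τ (mv := D.sl.mv) (τ := D.sl.τ) h1 h2 h3]
        norm_num
      · have nA : ¬ cA D.sl.mv D.sl.τ x y z := by
          rintro (⟨-, e⟩ | ⟨e, -⟩)
          · exact h3 e
          · exact h2 e
        have p1 : D.c1 x y z := Or.inl ⟨h1, h2, h3⟩
        rw [if_neg nA, if_pos p1, sg_mv_not (mv := D.sl.mv) (τ := D.sl.τ) h1 h2 h3]
        norm_num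
  · by_cases h2 : D.mv z y
    · have n2 : ¬ D.c2 x y z := fun k => h1 k.1
      rw [if_neg n2, sg_symm]
      by_cases h3 : x = D.τ z y
      · have pA : cA D.sl.mv D.sl.τ x y z := Or.inr ⟨h2, h3⟩
        have n1 : ¬ D.c1 x y z := by
          rintro (⟨e, -⟩ | ⟨-, -, e⟩)
          · exact h1 e
          · exact e h3
        rw [if_pos pA, if_neg n1, sg_mv_τ (mv := D.sl.mv) (τ := D.sl.τ) h2 h1 h3]
        norm_num
      · have nA : ¬ cA D.sl.mv D.sl.τ x y z := by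
          rintro (⟨e, -⟩ | ⟨-, e⟩)
          · exact h1 e
          · exact h3 e
        have p1 : D.c1 x y z := Or.inr ⟨h2, h1, h3⟩
        rw [if_neg nA, if_pos p1, sg_mv_not (mv := D.sl.mv) (τ := D.sl.τ) h2 h1 h3]
        norm_num
    · have nA : ¬ cA D.sl.mv D.sl.τ x y z := by
        rintro (⟨e, -⟩ | ⟨e, -⟩)
        · exact h1 e
        · exact h2 e
      have n1 : ¬ D.c1 x y z := by
        rintro (⟨e, -⟩ | ⟨e, -⟩)
        · exact h1 e
        · exact h2 e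
      have n2 : ¬ D.c2 x y z := fun k => h1 k.1
      rw [if_neg nA, if_neg n1, if_neg n2, sg_not_not (mv := D.sl.mv) (τ := D.sl.τ) h1 h2]
      norm_num

/-- EVERY CUT between the poles is at least as large as the star of a pole: the number of the corners
`(a, v, n)`, `n ∈ R`, is at most the number of the corners which leave `R` (those between `R` and its
mirror image count twice, as they leave `R` and the mirror image) -/
theorem cut (P : Pt K) (hm : K.Min) :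
    K.cr.cn (cA D.sl.mv D.sl.τ) ≤ K.cr.cn D.c1 + 2 * K.cr.cn D.c2 := by
  classical
  have h := P.slide_sum hm D.sl _ _ D.rk1 D.rk2
  have e : K.cr.cs (sg D.sl.mv D.sl.τ) = (K.cr.cn D.c1 : ℤ) + 2 * K.cr.cn D.c2 -
      K.cr.cn (cA D.sl.mv D.sl.τ) := by
    rw [K.cr.cn_eq, K.cr.cn_eq, K.cr.cn_eq, ← Cr.cs_mul, ← Cr.cs_add, ← Cr.cs_sub]
    exact K.cr.cs_congr fun p => D.sg_eq _ _ _
  rw [e] at h
  omega

end CuD

end Pool.Agent.DI
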