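import Pool.Agent.DI.Repl

/-!
# DI/PQ: the slide inequality without truncation (p = q)
-/

namespace Pool.Agent.DI

open MulAction
open Pool.Agent.SAF (InC orbs FinOrb oc)
open Pool.Agent.BT (PX)

variable {H V : Type} [Group H] [MulAction H V]

theorem g5_1 : ∀ k m j : Fin 5, k - (m + j) = k - m - j := by decide

theorem g5_2 : ∀ k m j : Fin 5, k - (m - j) = k - m + j := by decide

theorem g5_3 : ∀ k m j : Fin 5, k + (m - j) = k + m - j := by decide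

theorem g5_4 : ∀ k j : Fin 5, k - 2 - j = k - (j + 2) := by decide

theorem g5_5 : ∀ k j : Fin 5, k - 2 - j + 1 = k - (j + 1) := by decide

theorem g5_6 : ∀ k j : Fin 5, k - 2 - j + 2 = k - j := by decide

theorem g5_7 : ∀ k j : Fin 5, k + (j + 1) = k + j + 1 := by decide

theorem g5_8 : ∀ k j : Fin 5, k + (j + 2) = k + j + 2 := by decide

/-- an independent set of the pentagon misses three vertices `k, k + 2, k + 4` -/
theorem ind5 : ∀ b : Fin 5 → Bool, (∀ j, ¬ (b j = true ∧ b (j + 1) = true)) →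
    ∃ k : Fin 5, b k = false ∧ b (k + 2) = false ∧ b (k + 4) = false := by decide

namespace Pt

variable {K : GX H V} {P : Pt K}

theorem At.rot {c : Fin 5 → V} {i : K.I} (a : P.At c i) (m : Fin 5) :
    P.At (fun j => c (m + j)) i := by
  obtain ⟨h, k, a | a⟩ := a
  · exact ⟨h, k + m, Or.inl fun j => by
      show c (m + j) = _
      rw [a, add_assoc]⟩
  · exact ⟨h, k - m, Or.inr fun j => by
      show c (m + j) = _
      rw [a, g5_1]⟩

theorem At.refl {c : Fin 5 → V} {i : K.I} (a : P.At c i) (m : Fin 5) :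
    P.At (fun j => c (m - j)) i := by
  obtain ⟨h, k, a | a⟩ := a
  · exact ⟨h, k + m, Or.inr fun j => by
      show c (m - j) = _
      rw [a, g5_3]⟩
  · exact ⟨h, k - m, Or.inl fun j => by
      show c (m - j) = _
      rw [a, g5_2]⟩

theorem At.smul {c : Fin 5 → V} {i : K.I} (a : P.At c i) (g : H) :
    P.At (fun j => g • c j) i := by
  obtain ⟨h, k, a | a⟩ := a
  · exact ⟨g * h, k, Or.inl fun j => by
      show g • c j = _
      rw [a, mul_smul]⟩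
  · exact ⟨g * h, k, Or.inr fun j => by
      show g • c j = _
      rw [a, mul_smul]⟩

theorem at_pt (P : Pt K) (i : K.I) : P.At (P.pt i) i :=
  ⟨1, 0, Or.inl fun j => by rw [one_smul, zero_add]⟩

/-- a sum over the corners does not depend on the translate -/
theorem At.corners {c : Fin 5 → V} {i : K.I} (a : P.At c i) {F : V → V → V → ℤ}
    (hF : ∀ x y z, F x y z = F z y x) (hH : ∀ (h : H) x y z, F (h • x) (h • y) (h • z) = F x y z) :
    ∑ j, F (c j) (c (j + 1)) (c (j + 2)) =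
      ∑ j, F (P.pt i j) (P.pt i (j + 1)) (P.pt i (j + 2)) := by
  obtain ⟨h, k, a | a⟩ := a
  · refine Fintype.sum_equiv (Equiv.addLeft k) _ _ (fun j => ?_)
    show F (c j) (c (j + 1)) (c (j + 2)) = F (P.pt i (k + j)) (P.pt i (k + j + 1)) (P.pt i (k + j + 2))
    rw [a, a, a, hH, g5_7, g5_8]
  · refine Fintype.sum_equiv (Equiv.subLeft (k - 2)) _ _ (fun j => ?_)
    show F (c j) (c (j + 1)) (c (j + 2)) =
      F (P.pt i (k - 2 - j)) (P.pt i (k - 2 - j + 1)) (P.pt i (k - 2 - j + 2))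
    rw [a, a, a, hH, g5_6, g5_5, g5_4, hF]

/-- the length of the new cells, as a sum over the corners of the pentagon -/
theorem slide_length (P : Pt K) (S : Sl K) (i : K.I) : ((S.gx.cw i).length : ℤ) =
    5 + ∑ j : Fin 5, sg S.mv S.τ (P.pt i j) (P.pt i (j + 1)) (P.pt i (j + 2)) := by
  rw [S.gx_length i, P.cb_eq, P.cw_eq]
  show ((5 : ℕ) : ℤ) + (sg S.mv S.τ (P.pt i 0) (P.pt i 1) (P.pt i 2) +
    (sg S.mv S.τ (P.pt i 1) (P.pt i 2) (P.pt i 3) + (sg S.mv S.τ (P.pt i 2) (P.pt i 3) (P.pt i 4) +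
    (sg S.mv S.τ (P.pt i 3) (P.pt i 4) (P.pt i 0) +
    (sg S.mv S.τ (P.pt i 4) (P.pt i 0) (P.pt i 1) + 0))))) = _
  rw [Fin.sum_univ_five]
  have f0 : (0 : Fin 5) + 1 = 1 := rfl
  have f1 : (1 : Fin 5) + 1 = 2 := rfl
  have f2 : (2 : Fin 5) + 1 = 3 := rfl
  have f3 : (3 : Fin 5) + 1 = 4 := rfl
  have f4 : (4 : Fin 5) + 1 = 0 := rfl
  have g0 : (0 : Fin 5) + 2 = 2 := rfl
  have g1 : (1 : Fin 5) + 2 = 3 := rfl
  have g2 : (2 : Fin 5) + 2 = 4 := rfl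
  have g3 : (3 : Fin 5) + 2 = 0 := rfl
  have g4 : (4 : Fin 5) + 2 = 1 := rfl
  rw [f0, f1, f2, f3, f4, g0, g1, g2, g3, g4]
  push_cast
  ring

/-- a comparison with another complex with the same index set -/
theorem area_le (P : Pt K) (hm : K.Min) [Fintype K.I] {V' : Type} [MulAction H V'] (K' : GX H V')
    (e : K'.I = K.I) (L : K.I → ℕ) (hL : ∀ i : K'.I, (K'.cw i).length = L (cast e i)) :
    (Fintype.card K.I : ℤ) ≤ ∑ i, max 0 ((L i : ℤ) - 4) := by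
  have h1 := hm V' K'
  rw [P.area_eq] at h1
  have : Fintype K'.I := by rw [e]; infer_instance
  have h2 : K'.area = ∑ i : K'.I, (L (cast e i) - 4) := by
    rw [K'.area_eq]
    exact Finset.sum_congr rfl fun i _ => by rw [hL]
  have h3 : ∑ i : K'.I, (L (cast e i) - 4) = ∑ i : K.I, (L i - 4) :=
    Fintype.sum_equiv (Equiv.cast e) _ _ fun _ => rfl
  rw [h2, h3] at h1
  have h4 : (Fintype.card K.I : ℤ) ≤ ((∑ i : K.I, (L i - 4) : ℕ) : ℤ) := by
    exact_mod_cast h1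
  refine h4.trans ?_
  rw [Nat.cast_sum]
  apply Finset.sum_le_sum
  intro i _
  rcases le_total 4 (L i) with h | h
  · rw [Nat.cast_sub h]
    exact le_max_right _ _
  · rw [Nat.sub_eq_zero_of_le h]
    exact le_max_left _ _

/-- the slide inequality -/
theorem slide_ineq (P : Pt K) (hm : K.Min) (S : Sl K) [Fintype K.I] :
    (Fintype.card K.I : ℤ) ≤ ∑ i, max 0 (1 + ∑ j : Fin 5,
      sg S.mv S.τ (P.pt i j) (P.pt i (j + 1)) (P.pt i (j + 2))) := by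
  refine (P.area_le hm S.gx rfl (fun i => (S.gx.cw i).length) (fun i => rfl)).trans ?_
  apply Finset.sum_le_sum
  intro i _
  have h5 := P.slide_length S i
  apply max_le_max le_rfl
  linarith

end Pt

/-! ### the corners of a slide -/

section Corners

variable {K : GX H V}

theorem Sl.sg_smul (S : Sl K) (h : H) (x y z : V) :
    sg S.mv S.τ (h • x) (h • y) (h • z) = sg S.mv S.τ x y z := by
  have key : ∀ a b c : V, S.mv a b → ((h • c = S.τ (h • a) (h • b)) ↔ (c = S.τ a b)) := by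
    intro a b c hab
    rw [S.τ_smul h _ _ hab]
    exact ⟨fun e => smul_left_cancel h e, fun e => by rw [e]⟩
  unfold sg seg
  by_cases h1 : S.mv x y <;> by_cases h2 : S.mv z y
  · rw [if_pos h1, if_pos h2, if_pos (S.mv_smul h _ _ h1), if_pos (S.mv_smul h _ _ h2)]
    by_cases h3 : S.τ x y = S.τ z y
    · rw [if_pos h3, if_pos (by rw [S.τ_smul h _ _ h1, S.τ_smul h _ _ h2, h3])]
      rfl
    · rw [if_neg h3, if_neg (fun e => h3 (by
        rw [S.τ_smul h _ _ h1, S.τ_smul h _ _ h2] at e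
        exact smul_left_cancel h e))]
      rfl
  · rw [if_pos h1, if_neg h2, if_pos (S.mv_smul h _ _ h1), if_neg (fun e => h2 ((S.mv_iff h _ _).1 e))]
    by_cases h3 : z = S.τ x y
    · rw [if_pos h3, if_pos ((key x y z h1).2 h3)]
    · rw [if_neg h3, if_neg (fun e => h3 ((key x y z h1).1 e))]
      rfl
  · rw [if_neg h1, if_pos h2, if_neg (fun e => h1 ((S.mv_iff h _ _).1 e)), if_pos (S.mv_smul h _ _ h2)]
    by_cases h3 : x = S.τ z y
    · rw [if_pos h3, if_pos ((key z y x h2).2 h3)]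
    · rw [if_neg h3, if_neg (fun e => h3 ((key z y x h2).1 e))]
      rfl
  · rw [if_neg h1, if_neg h2, if_neg (fun e => h1 ((S.mv_iff h _ _).1 e)),
      if_neg (fun e => h2 ((S.mv_iff h _ _).1 e))]
    rfl

/-- the values of `sg` -/
theorem sg_mv_mv {mv : V → V → Prop} {τ : V → V → V} {x v z : V} (h1 : mv x v) (h2 : mv z v)
    (h3 : τ x v = τ z v) : sg mv τ x v z = 0 := by
  unfold sg seg
  rw [if_pos h1, if_pos h2, if_pos h3]
  rfl

theorem sg_mv_τ {mv : V → V → Prop} {τ : V → V → V} {x v z : V} (h1 : mv x v) (h2 : ¬ mv z v)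
    (h3 : z = τ x v) : sg mv τ x v z = -1 := by
  unfold sg seg
  rw [if_pos h1, if_neg h2, if_pos h3]
  rfl

theorem sg_mv_not {mv : V → V → Prop} {τ : V → V → V} {x v z : V} (h1 : mv x v) (h2 : ¬ mv z v)
    (h3 : z ≠ τ x v) : sg mv τ x v z = 1 := by
  unfold sg seg
  rw [if_pos h1, if_neg h2, if_neg h3]
  rfl

theorem sg_not_not {mv : V → V → Prop} {τ : V → V → V} {x v z : V} (h1 : ¬ mv x v)
    (h2 : ¬ mv z v) : sg mv τ x v z = 0 := by
  unfold sg seg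
  rw [if_neg h1, if_neg h2]
  rfl

/-- the sum over the corners of a cell where only `c 1`, `c 3` can have moved in-arrows -/
theorem sum_two {S : Sl K} {c : Fin 5 → V} (h0 : ¬ S.M (c 0)) (h2 : ¬ S.M (c 2)) (h4 : ¬ S.M (c 4)) :
    ∑ j, sg S.mv S.τ (c j) (c (j + 1)) (c (j + 2)) =
      sg S.mv S.τ (c 0) (c 1) (c 2) + sg S.mv S.τ (c 2) (c 3) (c 4) := by
  rw [Fin.sum_univ_five]
  have f1 : (1 : Fin 5) + 1 = 2 := rfl
  have f3 : (3 : Fin 5) + 1 = 4 := rfl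
  have f4 : (4 : Fin 5) + 1 = 0 := rfl
  rw [f1, f3, f4, sg_of_not (x := c 1) (show ¬ ∃ n, S.mv n (c 2) from h2),
    sg_of_not (x := c 3) (show ¬ ∃ n, S.mv n (c 4) from h4),
    sg_of_not (x := c 4) (show ¬ ∃ n, S.mv n (c 0) from h0)]
  show sg S.mv S.τ (c 0) (c 1) (c 2) + 0 + sg S.mv S.τ (c 2) (c 3) (c 4) + 0 + 0 = _
  ring

/-- every cell can be written in this way -/
theorem Pt.norm (P : Pt K) (S : Sl K) (i : K.I) : ∃ c, P.At c i ∧ ¬ S.M (c 0) ∧ ¬ S.M (c 2) ∧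
    ¬ S.M (c 4) := by
  classical
  obtain ⟨k, h0, h2, h4⟩ := ind5 (fun j => decide (S.M (P.pt i j))) (by
    rintro j ⟨h1, h2⟩
    exact S.not_MM (of_decide_eq_true h1) (of_decide_eq_true h2) (P.E i j))
  refine ⟨_, (P.at_pt i).rot k, ?_, of_decide_eq_false h2, of_decide_eq_false h4⟩
  have := of_decide_eq_false h0
  show ¬ S.M (P.pt i (k + 0))
  rwa [add_zero]

end Corners

/-! ### the main inequality -/

/-- all in-arrows are moved from vertices of one rank to vertices of one rank, compatible with the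
corners of the cells -/
structure PQd {K : GX H V} (P : Pt K) where
  S : Sl K
  ρ : ℕ
  ρ' : ℕ
  rk1 : ∀ n v, S.mv n v → K.rk v = ρ
  rk2 : ∀ n v, S.mv n v → K.rk (S.τ n v) = ρ'
  comp : ∀ (c : Fin 5 → V) (i : K.I), P.At c i → S.mv (c 0) (c 1) →
    (S.mv (c 2) (c 1) ∧ S.τ (c 2) (c 1) = S.τ (c 0) (c 1)) ∨ c 2 = S.τ (c 0) (c 1) ∨
      K.ar (c 1) (c 2)

namespace PQd

variable {K : GX H V} {P : Pt K} (Q : PQd P)

/-- the top of a cell which is shortened twice -/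
def N (n : V) : Prop := ∃ (d : Fin 5 → V) (i : K.I), P.At d i ∧ d 2 = n ∧ Q.S.mv (d 2) (d 1) ∧
  K.ar (d 2) (d 3) ∧ Q.S.mv (d 3) (d 4) ∧ d 0 = Q.S.τ (d 2) (d 1) ∧ d 0 = Q.S.τ (d 3) (d 4)

theorem lt1 {n v : V} (h : Q.S.mv n v) : Q.ρ < K.rk n := by
  rw [← Q.rk1 n v h]
  exact K.ar_rk _ _ (Q.S.mv_ar _ _ h)

theorem lt2 {n v : V} (h : Q.S.mv n v) : Q.ρ' < Q.ρ := by
  rw [← Q.rk1 n v h, ← Q.rk2 n v h]
  exact K.ar_rk _ _ (Q.S.τ_ar _ _ h)

theorem rkM {v : V} (h : Q.S.M v) : K.rk v = Q.ρ := by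
  obtain ⟨n, hn⟩ := h
  exact Q.rk1 n v hn

/-- a moved vertex is no target -/
theorem not_mv_of_τ {n v : V} (h : Q.S.mv n v) (w : V) : ¬ Q.S.mv (Q.S.τ n v) w := fun k => by
  have h1 := Q.lt1 k
  rw [Q.rk2 n v h] at h1
  exact absurd (Q.lt2 h) (by omega)

theorem N_smul (h : H) {n : V} (e : Q.N n) : Q.N (h • n) := by
  obtain ⟨d, i, a, rfl, h1, h2, h3, h4, h5⟩ := e
  exact ⟨fun j => h • d j, i, a.smul h, rfl, Q.S.mv_smul h _ _ h1, K.ar_smul h _ _ h2,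
    Q.S.mv_smul h _ _ h3, by rw [Q.S.τ_smul h _ _ h1, ← h4], by rw [Q.S.τ_smul h _ _ h3, ← h5]⟩

/-- the out-neighbours of a top -/
theorem N_out {n : V} (e : Q.N n) : ∃ v m, Q.S.mv n v ∧ K.ar n m ∧ Q.ρ < K.rk m ∧
    (∃ v', Q.S.mv m v' ∧ Q.S.τ m v' = Q.S.τ n v) ∧ ∀ y, K.ar n y → y = v ∨ y = m := by
  obtain ⟨d, i, a, rfl, h1, h2, h3, h4, h5⟩ := e
  refine ⟨d 1, d 3, h1, h2, Q.lt1 h3, ⟨d 4, h3, by rw [← h4, ← h5]⟩, fun y hy => ?_⟩
  have hne : d 1 ≠ d 3 := by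
    intro e
    have k1 := Q.rk1 _ _ h1
    have k3 := Q.lt1 h3
    rw [← e] at k3
    omega
  rcases K.two _ _ _ _ hy (Q.S.mv_ar _ _ h1) h2 with k | k | k
  · exact Or.inl k
  · exact absurd k hne
  · exact Or.inr k

/-- the out-neighbour of rank `ρ` of a top -/
theorem N_uniq {n v v' : V} (e : Q.N n) (hv : K.ar n v) (hv' : K.ar n v') (r : K.rk v = Q.ρ)
    (r' : K.rk v' = Q.ρ) : v = v' := by
  obtain ⟨u, m, h1, h2, h3, -, h4⟩ := Q.N_out e
  have k : ∀ y, K.ar n y → K.rk y = Q.ρ → y = u := by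
    intro y hy ry
    rcases h4 y hy with h | h
    · exact h
    · rw [← h] at h3
      omega
  rw [k v hv r, k v' hv' r']

/-- no out-neighbour of small rank -/
theorem N_ge {n y : V} (e : Q.N n) (hy : K.ar n y) : Q.ρ ≤ K.rk y := by
  obtain ⟨u, m, h1, h2, h3, -, h4⟩ := Q.N_out e
  rcases h4 y hy with h | h
  · rw [h, Q.rk1 _ _ h1]
  · rw [h]
    exact h3.le

/-- the slide of the tops only -/
def SN : Sl K where
  mv n v := Q.S.mv n v ∧ Q.N n
  τ := Q.S.τ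
  mv_ar n v h := Q.S.mv_ar n v h.1
  mv_smul h n v e := ⟨Q.S.mv_smul h n v e.1, Q.N_smul h e.2⟩
  τ_smul h n v e := Q.S.τ_smul h n v e.1
  τ_ar n v e := Q.S.τ_ar n v e.1
  far n v n' v' e e' := Q.S.far n v n' v' e.1 e'.1

/-- the two corner functions -/
noncomputable def s (x v z : V) : ℤ := sg Q.S.mv Q.S.τ x v z

noncomputable def sN (x v z : V) : ℤ := sg Q.SN.mv Q.SN.τ x v z

theorem s_symm (x v z : V) : Q.s x v z = Q.s z v x := sg_symm x v z

theorem sN_symm (x v z : V) : Q.sN x v z = Q.sN z v x := sg_symm x v z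

/-- `s ≥ -1` and the case `s = -1` -/
theorem s_cases (x v z : V) : 0 ≤ Q.s x v z ∨ Q.s x v z = -1 ∧
    ((Q.S.mv x v ∧ z = Q.S.τ x v) ∨ (Q.S.mv z v ∧ x = Q.S.τ z v)) := by
  unfold s sg seg
  by_cases h1 : Q.S.mv x v
  · by_cases h2 : Q.S.mv z v
    · rw [if_pos h1, if_pos h2]
      split_ifs
      · exact Or.inl (by simp)
      · exact Or.inl (by simp)
    · rw [if_pos h1, if_neg h2]
      split_ifs with h3
      · exact Or.inr ⟨by simp, Or.inl ⟨h1, h3⟩⟩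
      · exact Or.inl (by simp)
  · by_cases h2 : Q.S.mv z v
    · rw [if_neg h1, if_pos h2]
      split_ifs with h3
      · exact Or.inr ⟨by simp, Or.inr ⟨h2, h3⟩⟩
      · exact Or.inl (by simp)
    · rw [if_neg h1, if_neg h2]
      exact Or.inl (by simp)

/-- a moved vertex whose partner is not the target -/
theorem s_nonneg {x v z : V} (h1 : Q.S.mv x v) (h2 : z ≠ Q.S.τ x v) : 0 ≤ Q.s x v z := by
  rcases Q.s_cases x v z with h | ⟨-, h | h⟩
  · exact h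
  · exact absurd h.2 h2
  · exfalso
    have := Q.not_mv_of_τ h.1 v
    rw [← h.2] at this
    exact this h1

theorem s_τ {x v z : V} (h1 : Q.S.mv x v) (h2 : z = Q.S.τ x v) : Q.s x v z = -1 :=
  sg_mv_τ h1 (by rw [h2]; exact Q.not_mv_of_τ h1 v) h2

open Classical in
theorem sN_τ {x v z : V} (h1 : Q.S.mv x v) (h2 : z = Q.S.τ x v) :
    Q.sN x v z = if Q.N x then -1 else 0 := by
  have hz : ¬ Q.S.mv z v := by rw [h2]; exact Q.not_mv_of_τ h1 v
  have hz' : ¬ Q.SN.mv z v := fun k => hz k.1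
  split_ifs with h
  · exact sg_mv_τ (mv := Q.SN.mv) (τ := Q.SN.τ) ⟨h1, h⟩ hz' h2
  · exact sg_not_not (mv := Q.SN.mv) (τ := Q.SN.τ) (fun k => h k.2) hz'

/-- `sN ≤ 1` at the corners of the cells and the case `sN = 1` -/
theorem sN_cases {c : Fin 5 → V} {i : K.I} (a : P.At c i) :
    Q.sN (c 0) (c 1) (c 2) ≤ 0 ∨ Q.sN (c 0) (c 1) (c 2) = 1 ∧
    ((Q.S.mv (c 0) (c 1) ∧ Q.N (c 0) ∧ c 2 ≠ Q.S.τ (c 0) (c 1)) ∨
      (Q.S.mv (c 2) (c 1) ∧ Q.N (c 2) ∧ c 0 ≠ Q.S.τ (c 2) (c 1))) := by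
  unfold sN
  by_cases h1 : Q.SN.mv (c 0) (c 1)
  · by_cases h2 : Q.SN.mv (c 2) (c 1)
    · left
      rcases Q.comp c i a h1.1 with h | h | h
      · rw [sg_mv_mv (τ := Q.SN.τ) h1 h2 h.2.symm]
      · exfalso
        have := Q.not_mv_of_τ h1.1 (c 1)
        rw [← h] at this
        exact this h2.1
      · exfalso
        have k1 := K.ar_rk _ _ h
        have k2 := K.ar_rk _ _ (Q.S.mv_ar _ _ h2.1)
        omega
    · by_cases h3 : c 2 = Q.S.τ (c 0) (c 1)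
      · left
        rw [sg_mv_τ (τ := Q.SN.τ) h1 h2 h3]
        simp
      · right
        exact ⟨sg_mv_not h1 h2 h3, Or.inl ⟨h1.1, h1.2, h3⟩⟩
  · by_cases h2 : Q.SN.mv (c 2) (c 1)
    · by_cases h3 : c 0 = Q.S.τ (c 2) (c 1)
      · left
        rw [sg_symm, sg_mv_τ (τ := Q.SN.τ) h2 h1 h3]
        simp
      · right
        rw [sg_symm]
        exact ⟨sg_mv_not h2 h1 h3, Or.inr ⟨h2.1, h2.2, h3⟩⟩
    · left
      rw [sg_not_not h1 h2]

/-- a top between two vertices with moved in-arrows -/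
theorem no_mid (hm : K.Min) {c : Fin 5 → V} {i : K.I} (a : P.At c i) (h1 : Q.S.M (c 1))
    (h3 : Q.S.M (c 3)) : ¬ Q.N (c 2) := by
  intro hN
  have hr : Q.ρ < K.rk (c 2) := by
    obtain ⟨u, m, k1, -⟩ := Q.N_out hN
    exact Q.lt1 k1
  have e1 : K.E (c 1) (c 2) := a.E 1
  have e2 : K.E (c 2) (c 3) := a.E 2
  have r1 := Q.rkM h1
  have r3 := Q.rkM h3
  have a1 : K.ar (c 2) (c 1) := by
    rcases e1 with e | e
    · have := K.ar_rk _ _ e
      omega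
    · exact e
  have a3 : K.ar (c 2) (c 3) := by
    rcases e2 with e | e
    · exact e
    · have := K.ar_rk _ _ e
      omega
  exact a.ne2 hm 1 (Q.N_uniq hN a1 a3 r1 r3)

/-- the sums over the corners of a cell -/
noncomputable def t (i : K.I) : ℤ := ∑ j, Q.s (P.pt i j) (P.pt i (j + 1)) (P.pt i (j + 2))

noncomputable def tN (i : K.I) : ℤ := ∑ j, Q.sN (P.pt i j) (P.pt i (j + 1)) (P.pt i (j + 2))

theorem t_eq {c : Fin 5 → V} {i : K.I} (a : P.At c i) :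
    Q.t i = ∑ j, Q.s (c j) (c (j + 1)) (c (j + 2)) :=
  (a.corners (F := Q.s) Q.s_symm (fun h x y z => Q.S.sg_smul h x y z)).symm

theorem tN_eq {c : Fin 5 → V} {i : K.I} (a : P.At c i) :
    Q.tN i = ∑ j, Q.sN (c j) (c (j + 1)) (c (j + 2)) :=
  (a.corners (F := Q.sN) Q.sN_symm (fun h x y z => Q.SN.sg_smul h x y z)).symm

theorem t_two {c : Fin 5 → V} {i : K.I} (a : P.At c i) (h0 : ¬ Q.S.M (c 0)) (h2 : ¬ Q.S.M (c 2))
    (h4 : ¬ Q.S.M (c 4)) : Q.t i = Q.s (c 0) (c 1) (c 2) + Q.s (c 2) (c 3) (c 4) := by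
  rw [Q.t_eq a]
  exact sum_two h0 h2 h4

theorem tN_two {c : Fin 5 → V} {i : K.I} (a : P.At c i) (h0 : ¬ Q.S.M (c 0)) (h2 : ¬ Q.S.M (c 2))
    (h4 : ¬ Q.S.M (c 4)) : Q.tN i = Q.sN (c 0) (c 1) (c 2) + Q.sN (c 2) (c 3) (c 4) := by
  rw [Q.tN_eq a]
  have k : ∀ v, ¬ Q.S.M v → ¬ Q.SN.M v := fun v hv ⟨n, hn⟩ => hv ⟨n, hn.1⟩
  exact sum_two (k _ h0) (k _ h2) (k _ h4)

/-- (2): a cell which is shortened twice -/
theorem two_le (i : K.I) (ht : Q.t i ≤ -2) : Q.t i = -2 ∧ Q.tN i ≤ -1 := by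
  classical
  obtain ⟨c, a, m0, m2, m4⟩ := P.norm Q.S i
  rw [Q.t_two a m0 m2 m4] at ht ⊢
  rw [Q.tN_two a m0 m2 m4]
  rcases Q.s_cases (c 0) (c 1) (c 2) with h | ⟨h, h'⟩
  · rcases Q.s_cases (c 2) (c 3) (c 4) with k | ⟨k, -⟩ <;> omega
  rcases Q.s_cases (c 2) (c 3) (c 4) with k | ⟨k, k'⟩
  · omega
  refine ⟨by rw [h, k]; rfl, ?_⟩
  rcases h' with ⟨p1, p2⟩ | ⟨p1, p2⟩
  · rcases k' with ⟨q1, q2⟩ | ⟨q1, q2⟩
    · exfalso
      have := Q.not_mv_of_τ p1 (c 3)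
      rw [← p2] at this
      exact this q1
    · -- the shape
      have e : K.E (c 4) (c 0) := a.E 4
      have f0 : Q.sN (c 0) (c 1) (c 2) = if Q.N (c 0) then -1 else 0 := Q.sN_τ p1 p2
      have f4 : Q.sN (c 2) (c 3) (c 4) = if Q.N (c 4) then -1 else 0 := by
        rw [Q.sN_symm]
        exact Q.sN_τ q1 q2
      have hN : Q.N (c 0) ∨ Q.N (c 4) := by
        rcases e with e | e
        · exact Or.inr ⟨fun j => c (2 + j), i, a.rot 2, rfl, q1, e, p1, q2, p2⟩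
        · exact Or.inl ⟨fun j => c (2 - j), i, a.refl 2, rfl, p1, e, q1, p2, q2⟩
      rw [f0, f4]
      rcases hN with hN | hN
      · rw [if_pos hN]
        split_ifs <;> omega
      · rw [if_pos hN]
        split_ifs <;> omega
  · rcases k' with ⟨q1, q2⟩ | ⟨q1, q2⟩
    · exfalso
      have e : K.E (c 4) (c 0) := a.E 4
      have r0 := Q.rk2 _ _ p1
      have r4 := Q.rk2 _ _ q1
      rw [← p2] at r0
      rw [← q2] at r4
      rcases e with e | e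
      · have := K.ar_rk _ _ e
        omega
      · have := K.ar_rk _ _ e
        omega
    · exfalso
      have := Q.not_mv_of_τ q1 (c 1)
      rw [← q2] at this
      exact this p1

/-- two tops next to each other -/
theorem no_tops (hm : K.Min) {c : Fin 5 → V} {i : K.I} (a : P.At c i) (h1 : Q.S.mv (c 0) (c 1))
    (n0 : Q.N (c 0)) (h3 : Q.S.mv (c 4) (c 3)) (n4 : Q.N (c 4)) (har : K.ar (c 0) (c 4))
    (k1 : c 2 ≠ Q.S.τ (c 0) (c 1)) (k3 : c 2 ≠ Q.S.τ (c 4) (c 3)) : False := by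
  obtain ⟨d, i', a', e2, g1, g2, g3, g4, g5⟩ := id n0
  have q1 : d 1 = c 1 := Q.N_uniq n0 (by rw [← e2]; exact Q.S.mv_ar _ _ g1) (Q.S.mv_ar _ _ h1)
    (Q.rk1 _ _ g1) (Q.rk1 _ _ h1)
  have q3 : d 3 = c 4 := by
    obtain ⟨u, m, j1, j2, j3, -, j4⟩ := Q.N_out n0
    have key : ∀ y, K.ar (c 0) y → Q.ρ < K.rk y → y = m := by
      intro y hy ry
      rcases j4 y hy with h | h
      · rw [h, Q.rk1 _ _ j1] at ry
        omega
      · exact h
    rw [key (d 3) (by rw [← e2]; exact g2) (Q.lt1 g3), key (c 4) har (Q.lt1 h3)]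
  have q4 : d 4 = c 3 := by
    rw [q3] at g3
    exact Q.N_uniq n4 (Q.S.mv_ar _ _ g3) (Q.S.mv_ar _ _ h3) (Q.rk1 _ _ g3) (Q.rk1 _ _ h3)
  have hi : i = i' := (a.refl 2).uniq hm a' q1.symm e2.symm q3.symm q4.symm
  subst hi
  have z0 : ¬ Q.S.M (c 0) := fun k => by
    have := Q.rkM k
    have := Q.lt1 h1
    omega
  have z4 : ¬ Q.S.M (c 4) := fun k => by
    have := Q.rkM k
    have := Q.lt1 h3
    omega
  have z2 : ¬ Q.S.M (c 2) := fun k => Q.S.not_MM ⟨_, h1⟩ k (a.E 1)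
  have t1 := Q.t_two a z0 z2 z4
  have t2 := Q.t_two (a'.refl 2) (by
      show ¬ Q.S.M (d 2)
      rw [e2]; exact z0) (by
      show ¬ Q.S.M (d 0)
      exact fun k => Q.S.not_MM k ⟨_, g1⟩ (a'.E 0)) (by
      show ¬ Q.S.M (d 3)
      rw [q3]; exact z4)
  have s1 : 0 ≤ Q.s (c 0) (c 1) (c 2) := Q.s_nonneg h1 k1
  have s3 : 0 ≤ Q.s (c 2) (c 3) (c 4) := by
    rw [Q.s_symm]
    exact Q.s_nonneg h3 k3
  have u1 : Q.s (d 2) (d 1) (d 0) = -1 := Q.s_τ g1 g4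
  have u3 : Q.s (d 0) (d 4) (d 3) = -1 := by
    rw [Q.s_symm]
    exact Q.s_τ g3 g5
  have t3 : Q.t i = Q.s (d 2) (d 1) (d 0) + Q.s (d 0) (d 4) (d 3) := t2
  omega

/-- (3) -/
theorem tN_le (hm : K.Min) (i : K.I) : Q.tN i ≤ 1 := by
  obtain ⟨c, a, m0, m2, m4⟩ := P.norm Q.S i
  rw [Q.tN_two a m0 m2 m4]
  rcases Q.sN_cases a with h | ⟨h, h'⟩
  · rcases Q.sN_cases (a.rot 2) with k | ⟨k, -⟩
    · have k : Q.sN (c 2) (c 3) (c 4) ≤ 0 := k
      omega
    · have k : Q.sN (c 2) (c 3) (c 4) = 1 := k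
      omega
  · rcases Q.sN_cases (a.rot 2) with k | ⟨k, k'⟩
    · have k : Q.sN (c 2) (c 3) (c 4) ≤ 0 := k
      omega
    · exfalso
      have k' : (Q.S.mv (c 2) (c 3) ∧ Q.N (c 2) ∧ c 4 ≠ Q.S.τ (c 2) (c 3)) ∨
        (Q.S.mv (c 4) (c 3) ∧ Q.N (c 4) ∧ c 2 ≠ Q.S.τ (c 4) (c 3)) := k'
      have M1 : Q.S.M (c 1) := by
        rcases h' with h' | h'
        · exact ⟨_, h'.1⟩
        · exact ⟨_, h'.1⟩
      have M3 : Q.S.M (c 3) := by
        rcases k' with h' | h'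
        · exact ⟨_, h'.1⟩
        · exact ⟨_, h'.1⟩
      have hn := Q.no_mid hm a M1 M3
      rcases h' with ⟨p1, p2, p3⟩ | ⟨-, p2, -⟩
      · rcases k' with ⟨-, q2, -⟩ | ⟨q1, q2, q3⟩
        · exact hn q2
        · rcases (a.E 4 : K.E (c 4) (c 0)) with e | e
          · exact Q.no_tops hm (a.refl 4) q1 q2 p1 p2 e q3 p3
          · exact Q.no_tops hm a p1 p2 q1 q2 e p3 q3
      · exact hn p2

/-- (4): a corner with a top which is no target corner -/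
theorem tN_pos (hm : K.Min) (i : K.I) (ht : 1 ≤ Q.tN i) : 0 ≤ Q.t i ∧
    ∃ c : Fin 5 → V, P.At c i ∧ Q.S.mv (c 0) (c 1) ∧ Q.N (c 0) ∧ c 2 ≠ Q.S.τ (c 0) (c 1) := by
  obtain ⟨c, a, m0, m2, m4, hc⟩ : ∃ c, P.At c i ∧ ¬ Q.S.M (c 0) ∧ ¬ Q.S.M (c 2) ∧ ¬ Q.S.M (c 4) ∧
      Q.sN (c 0) (c 1) (c 2) = 1 := by
    obtain ⟨c, a, m0, m2, m4⟩ := P.norm Q.S i
    rw [Q.tN_two a m0 m2 m4] at ht
    rcases Q.sN_cases a with h | ⟨h, h'⟩
    · refine ⟨_, a.refl 4, m4, m2, m0, ?_⟩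
      show Q.sN (c 4) (c 3) (c 2) = 1
      rcases Q.sN_cases (a.refl 4) with k | ⟨k, -⟩
      · have k : Q.sN (c 4) (c 3) (c 2) ≤ 0 := k
        rw [Q.sN_symm] at k
        omega
      · exact k
    · exact ⟨c, a, m0, m2, m4, h⟩
  have h' : (Q.S.mv (c 0) (c 1) ∧ Q.N (c 0) ∧ c 2 ≠ Q.S.τ (c 0) (c 1)) ∨
      (Q.S.mv (c 2) (c 1) ∧ Q.N (c 2) ∧ c 0 ≠ Q.S.τ (c 2) (c 1)) := by
    rcases Q.sN_cases a with h | ⟨-, h'⟩
    · omega
    · exact h'
  constructor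
  · rw [Q.t_two a m0 m2 m4]
    have s1 : 0 ≤ Q.s (c 0) (c 1) (c 2) := by
      rcases h' with h' | h'
      · exact Q.s_nonneg h'.1 h'.2.2
      · rw [Q.s_symm]
        exact Q.s_nonneg h'.1 h'.2.2
    rcases Q.s_cases (c 2) (c 3) (c 4) with k | ⟨k, k'⟩
    · omega
    have M1 : Q.S.M (c 1) := by
      rcases h' with h' | h'
      · exact ⟨_, h'.1⟩
      · exact ⟨_, h'.1⟩
    have M3 : Q.S.M (c 3) := by
      rcases k' with h' | h'
      · exact ⟨_, h'.1⟩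
      · exact ⟨_, h'.1⟩
    have hn := Q.no_mid hm a M1 M3
    rcases h' with ⟨p1, p2, p3⟩ | ⟨-, p2, -⟩
    · rcases k' with ⟨q1, q2⟩ | ⟨q1, q2⟩
      · exfalso
        have r4 := Q.rk2 _ _ q1
        rw [← q2] at r4
        have r0 := Q.lt1 p1
        have l := Q.lt2 p1
        have e : K.ar (c 0) (c 4) := by
          rcases (a.E 4 : K.E (c 4) (c 0)) with e | e
          · have : K.rk (c 0) < K.rk (c 4) := K.ar_rk _ _ e
            omega
          · exact e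
        have := Q.N_ge p2 e
        omega
      · have hz : ¬ Q.S.mv (c 2) (c 1) := by
          rw [q2]
          exact Q.not_mv_of_τ q1 (c 1)
        have s2 : Q.s (c 0) (c 1) (c 2) = 1 := sg_mv_not p1 hz p3
        omega
    · exact absurd p2 hn
  · rcases h' with h' | h'
    · exact ⟨c, a, h'⟩
    · exact ⟨_, a.refl 2, h'⟩

end PQd

end Pool.Agent.DI
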