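import Pool.Agent.DI.PQ
import Pool.Agent.DI.Fold

/-!
# DI/PQ2: the slide inequality without truncation, end
-/

namespace Pool.Agent.DI

open MulAction
open Pool.Agent.SAF (InC orbs FinOrb oc)
open Pool.Agent.BT (PX)

section Lists

variable {V V' : Type}

/-- a stutter -/
theorem stn_pos {f : V → V'} {a b : V} (hf : f b = f a) : ∀ (l1 : List V) (l2 : List V) (x : V)
    (l : List V), x :: l = l1 ++ a :: b :: l2 → 1 ≤ stn f x l := by
  intro l1
  induction l1 with
  | nil =>
    intro l2 x l e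
    obtain ⟨rfl, rfl⟩ := List.cons.inj e
    rw [stn_cons_eq hf]
    omega
  | cons u l1 ih =>
    intro l2 x l e
    obtain ⟨rfl, rfl⟩ := List.cons.inj e
    cases l1 with
    | nil =>
      have := ih l2 a (b :: l2) rfl
      show 1 ≤ stn f x (a :: b :: l2)
      by_cases h : f a = f x
      · rw [stn_cons_eq h]
        omega
      · rw [stn_cons_ne h]
        exact this
    | cons w l1 =>
      have := ih l2 w (l1 ++ a :: b :: l2) rfl
      show 1 ≤ stn f x (w :: (l1 ++ a :: b :: l2))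
      by_cases h : f w = f x
      · rw [stn_cons_eq h]
        omega
      · rw [stn_cons_ne h]
        exact this

end Lists

section

variable {H V : Type} [Group H] [MulAction H V] {K : GX H V}

/-- the corner `a, v, b` of a walk gives `a, seg a v b, b` in the new walk -/
theorem Sl.slw_infix (S : Sl K) {a v b : V} (hv : S.M v) : ∀ (n : ℕ) (x : V) (l : List V)
    (l1 l2 : List V), l.length ≤ n → ¬ S.M x → Wk K.E x l → x :: l = l1 ++ a :: v :: b :: l2 →
    ∃ l1' l2', x :: slw S.mv S.τ x l = l1' ++ a :: (seg S.mv S.τ a v b ++ b :: l2') := by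
  intro n
  induction n with
  | zero =>
    intro x l l1 l2 hl _ _ e
    have : l = [] := List.length_eq_zero_iff.1 (by omega)
    subst this
    have := congrArg List.length e
    simp at this
    omega
  | succ n ih =>
    intro x l l1 l2 hl hx hw e
    match l, hl, hw, e with
    | [], _, _, e =>
      have := congrArg List.length e
      simp at this
      omega
    | [y], _, _, e =>
      have := congrArg List.length e
      simp at this
      omega
    | y :: z :: r, hl, hw, e =>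
      obtain ⟨e1, e2, hr⟩ := hw
      by_cases hy : S.M y
      · have hz : ¬ S.M z := fun k => S.not_MM hy k e2
        have hs : slw S.mv S.τ x (y :: z :: r) = seg S.mv S.τ x y z ++ z :: slw S.mv S.τ z r := by
          have hy' : ∃ n, S.mv n y := hy
          simp only [slw]
          rw [if_pos hy']
        rw [hs]
        rcases l1 with _ | ⟨u, _ | ⟨u', l1⟩⟩
        · simp only [List.nil_append, List.cons.injEq] at e
          obtain ⟨rfl, rfl, rfl, rfl⟩ := e
          exact ⟨[], _, rfl⟩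
        · exfalso
          simp only [List.cons_append, List.nil_append, List.cons.injEq] at e
          exact hz (by rw [e.2.2.1]; exact hv)
        · simp only [List.cons_append, List.cons.injEq] at e
          have hlen : r.length ≤ n := by
            simp only [List.length_cons] at hl
            omega
          obtain ⟨l1', l2', h⟩ := ih z r l1 l2 hlen hz hr e.2.2
          refine ⟨x :: (seg S.mv S.τ x y z ++ l1'), l2', ?_⟩
          rw [h]
          simp
      · have hs : slw S.mv S.τ x (y :: z :: r) = y :: slw S.mv S.τ y (z :: r) := by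
          have hy' : ¬ ∃ n, S.mv n y := hy
          simp only [slw]
          rw [if_neg hy']
        rw [hs]
        rcases l1 with _ | ⟨u, l1⟩
        · exfalso
          simp only [List.nil_append, List.cons.injEq] at e
          exact hy (by rw [e.2.1]; exact hv)
        · simp only [List.cons_append, List.cons.injEq] at e
          have hlen : (z :: r).length ≤ n := by
            simp only [List.length_cons] at hl ⊢
            omega
          obtain ⟨l1', l2', h⟩ := ih y (z :: r) l1 l2 hlen hy ⟨e2, hr⟩ e.2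
          refine ⟨x :: l1', l2', ?_⟩
          rw [h]
          simp

/-- the corners of a pentagon at vertices with moved in-arrows are inner corners of the rotated
walk -/
theorem Pt.corner_infix (P : Pt K) (S : Sl K) (i : K.I) (k : Fin 5) (hk : S.M (P.pt i (k + 1))) :
    ∃ l1 l2, S.rb i :: S.rl i = l1 ++ P.pt i k :: P.pt i (k + 1) :: P.pt i (k + 2) :: l2 := by
  unfold Sl.rb Sl.rl
  rw [P.cb_eq, P.cw_eq]
  simp only
  by_cases hM : S.M (P.pt i 0)
  · rw [if_pos hM, if_pos hM]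
    have e0 := P.E i 0
    have e4 := P.E i 4
    fin_cases k
    · exact absurd (P.E i 0) (S.not_MM hM hk)
    · exact ⟨[], [P.pt i 4, P.pt i 0, P.pt i 1], rfl⟩
    · exact ⟨[P.pt i 1], [P.pt i 0, P.pt i 1], rfl⟩
    · exact absurd (P.E i 4) (S.not_MM hk hM)
    · exact ⟨[P.pt i 1, P.pt i 2, P.pt i 3], [], rfl⟩
  · rw [if_neg hM, if_neg hM]
    fin_cases k
    · exact ⟨[], [P.pt i 3, P.pt i 4, P.pt i 0], rfl⟩
    · exact ⟨[P.pt i 0], [P.pt i 4, P.pt i 0], rfl⟩
    · exact ⟨[P.pt i 0, P.pt i 1], [P.pt i 0], rfl⟩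
    · exact ⟨[P.pt i 0, P.pt i 1, P.pt i 2], [], rfl⟩
    · exact absurd hk hM

theorem seg_head {mv : V → V → Prop} {τ : V → V → V} {x v z : V} (h1 : mv x v) (h2 : z ≠ τ x v) :
    ∃ l, seg mv τ x v z = τ x v :: l := by
  unfold seg
  rw [if_pos h1]
  by_cases h3 : mv z v
  · rw [if_pos h3]
    split_ifs
    · exact ⟨_, rfl⟩
    · exact ⟨_, rfl⟩
  · rw [if_neg h3, if_neg h2]
    exact ⟨_, rfl⟩

theorem seg_last {mv : V → V → Prop} {τ : V → V → V} {x v z : V} (h1 : mv z v) (h2 : x ≠ τ z v) :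
    ∃ l, seg mv τ x v z = l ++ [τ z v] := by
  unfold seg
  by_cases h3 : mv x v
  · rw [if_pos h3, if_pos h1]
    split_ifs with h4
    · exact ⟨[], by rw [h4]; rfl⟩
    · exact ⟨[τ x v, v], rfl⟩
  · rw [if_neg h3, if_pos h1, if_neg h2]
    exact ⟨[v], rfl⟩

end

namespace PQd

variable {H V : Type} [Group H] [MulAction H V] {K : GX H V} {P : Pt K} (Q : PQd P)

theorem N_mv {n : V} (h : Q.N n) : ∃ v, Q.S.mv n v := by
  obtain ⟨v, m, h1, -⟩ := Q.N_out h
  exact ⟨v, h1⟩

open Classical in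
/-- the fold of the tops to their targets -/
noncomputable def ff (x : V) : V := if h : Q.N x then Q.S.τ x (Classical.choose (Q.N_mv h)) else x

theorem ff_not {x : V} (h : ¬ Q.N x) : Q.ff x = x := by
  unfold ff
  rw [dif_neg h]

theorem ff_N {x v : V} (h : Q.N x) (hv : Q.S.mv x v) : Q.ff x = Q.S.τ x v := by
  unfold ff
  rw [dif_pos h]
  have := Classical.choose_spec (Q.N_mv h)
  rw [Q.N_uniq h (Q.S.mv_ar _ _ this) (Q.S.mv_ar _ _ hv) (Q.rk1 _ _ this) (Q.rk1 _ _ hv)]

theorem N_iff (h : H) (x : V) : Q.N (h • x) ↔ Q.N x := by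
  refine ⟨fun e => ?_, Q.N_smul h⟩
  have := Q.N_smul h⁻¹ e
  rwa [inv_smul_smul] at this

theorem not_N_τ {n v : V} (h : Q.S.mv n v) : ¬ Q.N (Q.S.τ n v) := fun k => by
  obtain ⟨w, hw⟩ := Q.N_mv k
  exact Q.not_mv_of_τ h w hw

theorem ff_τ {n v : V} (h : Q.S.mv n v) : Q.ff (Q.S.τ n v) = Q.S.τ n v := Q.ff_not (Q.not_N_τ h)

/-- the fold -/
noncomputable def fo : Fo Q.S.gx where
  f := Q.ff
  f_smul h x := by
    by_cases hx : Q.N x
    · obtain ⟨v, hv⟩ := Q.N_mv hx
      rw [Q.ff_N hx hv, Q.ff_N (Q.N_smul h hx) (Q.S.mv_smul h _ _ hv), Q.S.τ_smul h _ _ hv]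
    · rw [Q.ff_not hx, Q.ff_not (fun k => hx ((Q.N_iff h x).1 k))]
  idem x := by
    by_cases hx : Q.N x
    · obtain ⟨v, hv⟩ := Q.N_mv hx
      rw [Q.ff_N hx hv, Q.ff_τ hv]
    · rw [Q.ff_not hx, Q.ff_not hx]
  f_ar x hx := by
    by_cases h : Q.N x
    · obtain ⟨v, hv⟩ := Q.N_mv h
      rw [Q.ff_N h hv]
      exact Or.inr ⟨v, hv, rfl⟩
    · exact absurd (Q.ff_not h) hx
  adj x y e := by
    by_cases hx : Q.N x
    · rcases e with ⟨e, e'⟩ | ⟨v, e, rfl⟩
      · obtain ⟨v, m, h1, h2, h3, ⟨v', h4, h5⟩, h6⟩ := Q.N_out hx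
        rcases h6 y e with h | h
        · rw [h] at e'
          exact absurd h1 e'
        · rw [h, Q.ff_N hx h1]
          by_cases hm : Q.N m
          · left
            rw [Q.ff_N hm h4, h5]
          · right
            right
            rw [Q.ff_not hm]
            exact Or.inl ⟨Q.ff_not hm, _, Or.inr ⟨v', h4, h5⟩, Q.ff_τ h1⟩
      · left
        rw [Q.ff_N hx e, Q.ff_τ e]
    · right
      left
      rw [Q.ff_not hx]
      exact Or.inl ⟨Q.ff_not hx, y, e, rfl⟩

/-- a top at a corner which is no target corner gives a stutter -/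
theorem stn_one {i : K.I} {c : Fin 5 → V} (a : P.At c i) (h1 : Q.S.mv (c 0) (c 1)) (hN : Q.N (c 0))
    (h2 : c 2 ≠ Q.S.τ (c 0) (c 1)) : 1 ≤ stn Q.ff (Q.S.gx.cb i) (Q.S.gx.cw i) := by
  obtain ⟨h3, h4, -, -, -⟩ := Q.S.rot_spec i
  have hM : Q.S.M (c 1) := ⟨_, h1⟩
  obtain ⟨h, k, a⟩ := a
  -- everything in the cell itself
  have key : ∀ (x v z : V) (k : Fin 5), (∃ (m : Fin 5), (x = P.pt i m ∧ v = P.pt i (m + 1) ∧
      z = P.pt i (m + 2)) ∨ (z = P.pt i m ∧ v = P.pt i (m + 1) ∧ x = P.pt i (m + 2))) →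
      Q.S.mv x v → Q.N x → z ≠ Q.S.τ x v → 1 ≤ stn Q.ff (Q.S.gx.cb i) (Q.S.gx.cw i) := by
    rintro x v z k ⟨m, hm⟩ hv hN hz
    have hMv : Q.S.M v := ⟨_, hv⟩
    have hM' : Q.S.M (P.pt i (m + 1)) := by
      rcases hm with hm | hm
      · rw [← hm.2.1]; exact hMv
      · rw [← hm.2.1]; exact hMv
    obtain ⟨l1, l2, e⟩ := P.corner_infix Q.S i m hM'
    have hrb : ¬ Q.S.M (Q.S.rb i) := by
      rcases h3 with h3 | h3
      · rw [h3] at e
        have := congrArg List.length e
        simp at this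
        omega
      · exact h3
    obtain ⟨l1', l2', e'⟩ := Q.S.slw_infix hM' _ _ _ l1 l2 le_rfl hrb h4 e
    have hf : Q.ff x = Q.ff (Q.S.τ x v) := by
      rw [Q.ff_N hN hv, Q.ff_τ hv]
    rcases hm with ⟨rfl, rfl, rfl⟩ | ⟨rfl, rfl, rfl⟩
    · obtain ⟨l, hl⟩ := seg_head hv hz
      rw [hl] at e'
      exact stn_pos hf.symm l1' _ _ _ e'
    · obtain ⟨l, hl⟩ := seg_last hv hz
      rw [hl] at e'
      refine stn_pos (a := Q.S.τ (P.pt i (m + 2)) (P.pt i (m + 1))) (b := P.pt i (m + 2)) hf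
        (l1' ++ P.pt i m :: l) l2' _ _ ?_
      rw [show Q.S.gx.cb i = Q.S.rb i from rfl]
      rw [show Q.S.gx.cw i = slw Q.S.mv Q.S.τ (Q.S.rb i) (Q.S.rl i) from rfl, e']
      simp
  have g1 : ∀ k : Fin 5, k - 0 = k - 2 + 2 := by decide
  have g2 : ∀ k : Fin 5, k - 1 = k - 2 + 1 := by decide
  have tr : Q.S.mv (h⁻¹ • c 0) (h⁻¹ • c 1) := Q.S.mv_smul h⁻¹ _ _ h1
  refine key (h⁻¹ • c 0) (h⁻¹ • c 1) (h⁻¹ • c 2) k ?_ tr (Q.N_smul h⁻¹ hN) ?_
  · rcases a with a | a
    · refine ⟨k, Or.inl ?_⟩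
      rw [a, a, a, inv_smul_smul, inv_smul_smul, inv_smul_smul, add_zero]
      exact ⟨rfl, rfl, rfl⟩
    · refine ⟨k - 2, Or.inr ?_⟩
      rw [a, a, a, inv_smul_smul, inv_smul_smul, inv_smul_smul, g1, g2]
      exact ⟨rfl, rfl, rfl⟩
  · rw [Q.S.τ_smul h⁻¹ _ _ h1]
    exact fun e => h2 (smul_left_cancel _ e)

/-- the inequality without truncation -/
theorem sum_nonneg (hm : K.Min) [Fintype K.I] : 0 ≤ ∑ i, Q.t i := by
  have hA := P.area_le hm Q.fo.gx rfl (fun i => (Q.fo.gx.cw i).length) (fun i => rfl)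
  have hB := P.slide_ineq hm Q.SN
  have key : ∀ i : K.I, max 0 (((Q.fo.gx.cw i).length : ℤ) - 4) + max 0 (1 + Q.tN i) ≤
      2 + Q.t i := by
    intro i
    have l1 : ((Q.fo.gx.cw i).length : ℤ) + stn Q.ff (Q.S.gx.cb i) (Q.S.gx.cw i) = 5 + Q.t i := by
      have e1 : ((Q.fo.gx.cw i).length : ℤ) + stn Q.ff (Q.S.gx.cb i) (Q.S.gx.cw i) =
          (Q.S.gx.cw i).length := by exact_mod_cast Q.fo.gx_length i
      rw [e1]
      exact P.slide_length Q.S i
    have l2 : (0 : ℤ) ≤ stn Q.ff (Q.S.gx.cb i) (Q.S.gx.cw i) := by positivity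
    have l3 := Q.tN_le hm i
    rcases le_or_gt (Q.t i) (-2) with h | h
    · obtain ⟨h3, h4⟩ := Q.two_le i h
      rw [max_eq_left (by omega), max_eq_left (by omega)]
      omega
    · rcases le_or_gt (Q.tN i) 0 with h' | h'
      · have m1 : max 0 (((Q.fo.gx.cw i).length : ℤ) - 4) ≤ 1 + Q.t i :=
          max_le (by omega) (by omega)
        have m2 : max 0 (1 + Q.tN i) ≤ 1 := max_le (by omega) (by omega)
        omega
      · obtain ⟨h3, c, a, h4, h5, h6⟩ := Q.tN_pos hm i (by omega)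
        have := Q.stn_one a h4 h5 h6
        have l4 : (1 : ℤ) ≤ stn Q.ff (Q.S.gx.cb i) (Q.S.gx.cw i) := by exact_mod_cast this
        have m1 : max 0 (((Q.fo.gx.cw i).length : ℤ) - 4) ≤ Q.t i :=
          max_le (by omega) (by omega)
        have m2 : max 0 (1 + Q.tN i) ≤ 2 := max_le (by omega) (by omega)
        omega
  have h1 := Finset.sum_le_sum fun i (_ : i ∈ (Finset.univ : Finset K.I)) => key i
  rw [Finset.sum_add_distrib, Finset.sum_add_distrib, Finset.sum_const, Finset.card_univ] at h1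
  have hB' : (Fintype.card K.I : ℤ) ≤ ∑ i, max 0 (1 + Q.tN i) := hB
  have e : ((Fintype.card K.I) • (2 : ℤ)) = 2 * Fintype.card K.I := by
    rw [nsmul_eq_mul]
    ring
  rw [e] at h1
  linarith

end PQd

end Pool.Agent.DI
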