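import Pool.Agent.DI.Split
import Pool.Agent.DI.PG3

/-!
# DI/PageA: the page surgery, equivariant form

`PgD P S`: `S` splits the vertices of `Z = q S` (the pages), `W` is an invariant set of vertices of one
rank, every in-arrow `n → w` (`w` in `W`) has a colour, a pole of `w`: `π n w` if `n` is no page,
`p s w` for the half `s` of a page. The cells lift to cells with the same colour at both sides of each
corner at a vertex of `W`. Then the number of corners `x, w, _` of the cells with `w` in `W` and `x` a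
pole of `w` is at most the number of orbits of pairs `s, w` with `w` a pole of `q s` (`PgD.lam_le`).
-/

namespace Pool.Agent.DI

open MulAction
open Pool.Agent.SAF (InC orbs FinOrb oc)

/-- data of the page surgery -/
structure PgD {H V : Type} [Group H] [MulAction H V] {K : GX H V} (P : Pt K) (S : Type)
    [MulAction H S] where
  q : S → V
  e : V → V → S
  W : V → Prop
  ρ : ℕ
  ρ' : ℕ
  ρZ : ℕ
  π : V → V → V
  p : S → V → V
  q_smul : ∀ (h : H) (s : S), q (h • s) = h • q s
  e_smul : ∀ (h : H) (n : V) (s : S), K.ar n (q s) → e (h • n) (h • q s) = h • e n (q s)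
  q_e : ∀ (n : V) (s : S), K.ar n (q s) → q (e n (q s)) = q s
  rkZ : ∀ s, K.rk (q s) = ρZ
  rkW : ∀ w, W w → K.rk w = ρ
  ltZ : ρ < ρZ
  W_smul : ∀ (h : H) (w : V), W w → W (h • w)
  π_smul : ∀ (h : H) (n w : V), W w → K.ar n w → (¬ ∃ s, q s = n) →
    π (h • n) (h • w) = h • π n w
  π_ar : ∀ (n w : V), W w → K.ar n w → (¬ ∃ s, q s = n) → K.ar w (π n w)
  π_rk : ∀ (n w : V), W w → K.ar n w → (¬ ∃ s, q s = n) → K.rk (π n w) = ρ'
  p_smul : ∀ (h : H) (s : S) (w : V), W w → K.ar (q s) w → p (h • s) (h • w) = h • p s w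
  p_ar : ∀ (s : S) (w : V), W w → K.ar (q s) w → K.ar w (p s w)
  p_rk : ∀ (s : S) (w : V), W w → K.ar (q s) w → K.rk (p s w) = ρ'
  fin : FinOrb H (Set.univ : Set S)
  stab : ∀ s : S, InC ↥(stabilizer H s)
  J : Type
  finJ : Finite J
  js : J → S
  jp : J → V
  jar : ∀ j, K.ar (q (js j)) (jp j)
  cov : ∀ s w, K.ar (q s) w → ∃ (j : J) (h : H), h • js j = s ∧ h • jp j = w
  c : K.I → Fin 5 → V ⊕ S
  c_pr : ∀ i j, spr q (c i j) = P.pt i j
  c_E : ∀ i j, spE K q e (c i j) (c i (j + 1))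
  c_Z : ∀ i j v, c i j = Sum.inl v → ¬ ∃ s, q s = v
  mono : ∀ i j w, c i (j + 1) = Sum.inl w → W w → ∀ a b : V,
    (∀ n, c i j = Sum.inl n → (K.ar w n ∧ a = n) ∨ (K.ar n w ∧ a = π n w)) →
    (∀ s, c i j = Sum.inr s → a = p s w) →
    (∀ n, c i (j + 2) = Sum.inl n → (K.ar w n ∧ b = n) ∨ (K.ar n w ∧ b = π n w)) →
    (∀ s, c i (j + 2) = Sum.inr s → b = p s w) → a = b

theorem f5_7 : ∀ k : Fin 5, k - 2 + 2 = k := by decide

theorem f5_8 : ∀ k : Fin 5, k - 2 + 1 = k - 1 := by decide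

namespace PgD

variable {H V S : Type} [Group H] [MulAction H V] [MulAction H S] {K : GX H V} {P : Pt K}
  (D : PgD P S)

/-- the splitting -/
def sp : Spl K S where
  q := D.q
  e := D.e
  q_smul := D.q_smul
  e_smul := D.e_smul
  q_e := D.q_e
  far := fun s t k => by
    have := K.ar_rk _ _ k
    rw [D.rkZ, D.rkZ] at this
    omega
  fin := D.fin
  stab := D.stab
  J := D.J
  finJ := D.finJ
  js := D.js
  jp := D.jp
  jar := D.jar
  cov := D.cov
  lb i := D.c i 0
  lw i := [D.c i 1, D.c i 2, D.c i 3, D.c i 4, D.c i 0]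
  lE i := ⟨D.c_E i 0, D.c_E i 1, D.c_E i 2, D.c_E i 3, D.c_E i 4, trivial⟩
  ltg _ := rfl
  pb i := by rw [D.c_pr, P.cb_eq]
  pw i := by
    rw [P.cw_eq]
    simp only [List.map_cons, List.map_nil, D.c_pr]

/-- the split complex -/
def K1 : GX H ((V ⊕ S) ⊕ S) := D.sp.gx

/-- its pentagons -/
def pg : PG D.K1 where
  five := fun i => match i with
    | Sum.inl _ => True
    | Sum.inr _ => False
  pt := fun i => match i with
    | Sum.inl i => fun j => Sum.inl (D.c i j)
    | Sum.inr j => fun _ => Sum.inl (Sum.inr (D.js j))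
  cb_eq := by
    rintro (i | j) h
    · rfl
    · exact h.elim
  cw_eq := by
    rintro (i | j) h
    · rfl
    · exact h.elim

/-- the in-arrows which are moved -/
def inA : V ⊕ S → V → Prop
  | Sum.inl n, w => K.ar n w ∧ ¬ ∃ s, D.q s = n
  | Sum.inr s, w => K.ar (D.q s) w

/-- the colour -/
def tau : V ⊕ S → V → V
  | Sum.inl n, w => D.π n w
  | Sum.inr s, w => D.p s w

/-- the moved arrows -/
def mv : (V ⊕ S) ⊕ S → (V ⊕ S) ⊕ S → Prop
  | Sum.inl a, Sum.inl (Sum.inl w) => D.W w ∧ D.inA a w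
  | _, _ => False

/-- the targets -/
def τ : (V ⊕ S) ⊕ S → (V ⊕ S) ⊕ S → (V ⊕ S) ⊕ S
  | Sum.inl a, Sum.inl (Sum.inl w) => Sum.inl (Sum.inl (D.tau a w))
  | a, _ => a

theorem not_ZW {w : V} (hw : D.W w) : ¬ ∃ s, D.q s = w := by
  rintro ⟨s, rfl⟩
  have h1 := D.rkW _ hw
  have h2 := D.rkZ s
  have := D.ltZ
  omega

theorem inA_ar {a : V ⊕ S} {w : V} (h : D.inA a w) : K.ar (spr D.q a) w := by
  rcases a with n | s
  · exact h.1
  · exact h

theorem Zs (h : H) {y : V} : (∃ s, D.q s = h • y) ↔ ∃ s, D.q s = y := D.sp.Z_iff h y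

theorem inA_smul (h : H) {a : V ⊕ S} {w : V} (k : D.inA a w) : D.inA (h • a) (h • w) := by
  rcases a with n | s
  · exact ⟨K.ar_smul h _ _ k.1, fun k' => k.2 ((D.Zs h).1 k')⟩
  · show K.ar (D.q (h • s)) (h • w)
    rw [D.q_smul]
    exact K.ar_smul h _ _ k

theorem tau_smul (h : H) {a : V ⊕ S} {w : V} (hw : D.W w) (k : D.inA a w) :
    D.tau (h • a) (h • w) = h • D.tau a w := by
  rcases a with n | s
  · exact D.π_smul h n w hw k.1 k.2
  · exact D.p_smul h s w hw k

theorem tau_ar {a : V ⊕ S} {w : V} (hw : D.W w) (k : D.inA a w) : K.ar w (D.tau a w) := by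
  rcases a with n | s
  · exact D.π_ar n w hw k.1 k.2
  · exact D.p_ar s w hw k

theorem tau_rk {a : V ⊕ S} {w : V} (hw : D.W w) (k : D.inA a w) : K.rk (D.tau a w) = D.ρ' := by
  rcases a with n | s
  · exact D.π_rk n w hw k.1 k.2
  · exact D.p_rk s w hw k

theorem tau_Z {a : V ⊕ S} {w : V} (hw : D.W w) (k : D.inA a w) : ¬ ∃ s, D.q s = D.tau a w := by
  rintro ⟨s, hs⟩
  have h1 := K.ar_rk _ _ (D.tau_ar hw k)
  rw [← hs, D.rkZ, D.rkW w hw] at h1
  have := D.ltZ
  omega

/-- the slide -/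
def sl : Sl D.K1 where
  mv := D.mv
  τ := D.τ
  mv_ar := by
    rintro (a | a) ((w | w) | w) h
    · rcases a with n | s
      · exact ⟨h.2.1, D.not_ZW h.1⟩
      · exact h.2
    all_goals exact (h : False).elim
  mv_smul := by
    rintro h (a | a) ((w | w) | w) k
    · exact ⟨D.W_smul h w k.1, D.inA_smul h k.2⟩
    all_goals exact (k : False).elim
  τ_smul := by
    rintro h (a | a) ((w | w) | w) k
    · exact congrArg (fun v => (Sum.inl (Sum.inl v) : (V ⊕ S) ⊕ S)) (D.tau_smul h k.1 k.2)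
    all_goals exact (k : False).elim
  τ_ar := by
    rintro (a | a) ((w | w) | w) k
    · exact ⟨D.tau_ar k.1 k.2, D.tau_Z k.1 k.2⟩
    all_goals exact (k : False).elim
  far := by
    rintro (a | a) ((w | w) | w) (a' | a') ((w' | w') | w') k k' e
    · have h1 := D.rkW w k.1
      have h2 := D.rkW w' k'.1
      rcases e with e | e
      · have := K.ar_rk _ _ e.1
        omega
      · have := K.ar_rk _ _ e.1
        omega
    all_goals first | exact (k : False).elim | exact (k' : False).elim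

theorem sl_mv {a : V ⊕ S} {w : V} : D.sl.mv (Sum.inl a) (Sum.inl (Sum.inl w)) ↔ D.W w ∧ D.inA a w :=
  Iff.rfl

theorem sl_τ {a : V ⊕ S} {w : V} :
    D.sl.τ (Sum.inl a) (Sum.inl (Sum.inl w)) = Sum.inl (Sum.inl (D.tau a w)) := rfl

/-- the neighbours of a vertex of `W` in the lifted cells -/
theorem nb {i : K.I} {j : Fin 5} {w : V} (hw : D.W w) (h : spE K D.q D.e (D.c i j) (Sum.inl w)) :
    D.inA (D.c i j) w ∨ ∃ y, D.c i j = Sum.inl y ∧ K.ar w y := by
  rcases hc : D.c i j with n | s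
  · rw [hc] at h
    rcases h with h | h
    · exact Or.inl ⟨h.1, D.c_Z i j n hc⟩
    · exact Or.inr ⟨n, rfl, h.1⟩
  · rw [hc] at h
    rcases h with h | h
    · exact Or.inl h
    · exfalso
      have h1 := K.ar_rk _ _ h.1
      rw [D.rkZ, D.rkW w hw] at h1
      have := D.ltZ
      omega

/-- the corners at a vertex of `W` -/
theorem corner {i : K.I} {j : Fin 5} {w : V} (hc : D.c i (j + 1) = Sum.inl w) (hw : D.W w) :
    (D.inA (D.c i j) w ∧ D.inA (D.c i (j + 2)) w ∧ D.tau (D.c i j) w = D.tau (D.c i (j + 2)) w) ∨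
    (D.inA (D.c i j) w ∧ D.c i (j + 2) = Sum.inl (D.tau (D.c i j) w)) ∨
    (D.inA (D.c i (j + 2)) w ∧ D.c i j = Sum.inl (D.tau (D.c i (j + 2)) w)) ∨
    D.c i j = D.c i (j + 2) := by
  have h1 := D.c_E i j
  have h2 := D.c_E i (j + 1)
  have g : j + 1 + 1 = j + 2 := by rw [add_assoc]; rfl
  rw [g] at h2
  rw [hc] at h1 h2
  have h2 : spE K D.q D.e (D.c i (j + 2)) (Sum.inl w) := Or.symm h2
  have key := D.mono i j w hc hw
  have an : ∀ {n : V}, K.ar w n → ¬ K.ar n w := fun h1 h2 =>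
    absurd (K.ar_rk _ _ h1) (not_lt.2 (K.ar_rk _ _ h2).le)
  -- the colour of an in-arrow
  have colA : ∀ k, D.inA (D.c i k) w → (∀ n, D.c i k = Sum.inl n →
      (K.ar w n ∧ D.tau (D.c i k) w = n) ∨ (K.ar n w ∧ D.tau (D.c i k) w = D.π n w)) ∧
      (∀ s, D.c i k = Sum.inr s → D.tau (D.c i k) w = D.p s w) := by
    intro k hk
    constructor
    · intro n hn
      rw [hn] at hk ⊢
      exact Or.inr ⟨hk.1, rfl⟩
    · intro s hs
      rw [hs]
      rfl
  have colP : ∀ k y, D.c i k = Sum.inl y → K.ar w y → (∀ n, D.c i k = Sum.inl n →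
      (K.ar w n ∧ y = n) ∨ (K.ar n w ∧ y = D.π n w)) ∧ (∀ s, D.c i k = Sum.inr s → y = D.p s w) := by
    intro k y hk hy
    constructor
    · intro n hn
      rw [hk] at hn
      obtain rfl := Sum.inl_injective hn
      exact Or.inl ⟨hy, rfl⟩
    · intro s hs
      rw [hk] at hs
      exact (Sum.inl_ne_inr hs).elim
  rcases D.nb hw h1 with a1 | ⟨y, a1, a2⟩
  · rcases D.nb hw h2 with b1 | ⟨z, b1, b2⟩
    · obtain ⟨u1, u2⟩ := colA _ a1
      obtain ⟨v1, v2⟩ := colA _ b1
      exact Or.inl ⟨a1, b1, key _ _ u1 u2 v1 v2⟩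
    · obtain ⟨u1, u2⟩ := colA _ a1
      obtain ⟨v1, v2⟩ := colP _ z b1 b2
      have := key _ _ u1 u2 v1 v2
      exact Or.inr (Or.inl ⟨a1, by rw [b1, this]⟩)
  · rcases D.nb hw h2 with b1 | ⟨z, b1, b2⟩
    · obtain ⟨u1, u2⟩ := colP _ y a1 a2
      obtain ⟨v1, v2⟩ := colA _ b1
      have := key _ _ u1 u2 v1 v2
      exact Or.inr (Or.inr (Or.inl ⟨b1, by rw [a1, ← this]⟩))
    · obtain ⟨u1, u2⟩ := colP _ y a1 a2
      obtain ⟨v1, v2⟩ := colP _ z b1 b2
      have := key _ _ u1 u2 v1 v2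
      exact Or.inr (Or.inr (Or.inr (by rw [a1, b1, this])))

/-- a slide with the corner condition -/
def pq : PQg D.pg where
  S := D.sl
  ρ := D.ρ
  ρ' := D.ρ'
  rk1 := by
    rintro (a | a) ((w | w) | w) k
    · exact D.rkW w k.1
    all_goals exact (k : False).elim
  rk2 := by
    rintro (a | a) ((w | w) | w) k
    · exact D.tau_rk k.1 k.2
    all_goals exact (k : False).elim
  comp := by
    -- the corner `c j, c (j+1), c (j+2)` and its translates
    have main : ∀ (i : K.I) (j : Fin 5) (h : H), D.sl.mv (h • Sum.inl (D.c i j))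
        (h • Sum.inl (D.c i (j + 1))) →
        (D.sl.mv (h • Sum.inl (D.c i (j + 2))) (h • Sum.inl (D.c i (j + 1))) ∧
          D.sl.τ (h • Sum.inl (D.c i (j + 2))) (h • Sum.inl (D.c i (j + 1))) =
            D.sl.τ (h • Sum.inl (D.c i j)) (h • Sum.inl (D.c i (j + 1)))) ∨
        h • (Sum.inl (D.c i (j + 2)) : (V ⊕ S) ⊕ S) =
          D.sl.τ (h • Sum.inl (D.c i j)) (h • Sum.inl (D.c i (j + 1))) ∨
        D.K1.ar (h • Sum.inl (D.c i (j + 1))) (h • Sum.inl (D.c i (j + 2))) := by
      intro i j h k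
      rw [D.sl.mv_iff] at k ⊢
      rcases hc : D.c i (j + 1) with w | s
      · rw [hc] at k
        rcases D.corner hc k.1 with a | a | a | a
        · left
          refine ⟨⟨k.1, a.2.1⟩, ?_⟩
          rw [D.sl.τ_smul h _ _ (D.sl_mv.2 ⟨k.1, a.2.1⟩), D.sl.τ_smul h _ _ (D.sl_mv.2 ⟨k.1, a.1⟩),
            D.sl_τ, D.sl_τ, a.2.2]
        · right
          left
          rw [D.sl.τ_smul h _ _ k, D.sl_τ, a.2]
        · exfalso
          have k2 := k.2
          rw [a.2] at k2
          have h1 := K.ar_rk _ _ (D.tau_ar k.1 a.1)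
          have h2 := K.ar_rk _ _ k2.1
          omega
        · left
          rw [← a]
          exact ⟨k, rfl⟩
      · rw [hc] at k
        exact (k : False).elim
    -- mirror images
    have main' : ∀ (i : K.I) (j : Fin 5) (h : H), D.sl.mv (h • Sum.inl (D.c i (j + 2)))
        (h • Sum.inl (D.c i (j + 1))) →
        (D.sl.mv (h • Sum.inl (D.c i j)) (h • Sum.inl (D.c i (j + 1))) ∧
          D.sl.τ (h • Sum.inl (D.c i j)) (h • Sum.inl (D.c i (j + 1))) =
            D.sl.τ (h • Sum.inl (D.c i (j + 2))) (h • Sum.inl (D.c i (j + 1)))) ∨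
        h • (Sum.inl (D.c i j) : (V ⊕ S) ⊕ S) =
          D.sl.τ (h • Sum.inl (D.c i (j + 2))) (h • Sum.inl (D.c i (j + 1))) ∨
        D.K1.ar (h • Sum.inl (D.c i (j + 1))) (h • Sum.inl (D.c i j)) := by
      intro i j h k
      rw [D.sl.mv_iff] at k ⊢
      rcases hc : D.c i (j + 1) with w | s
      · rw [hc] at k
        rcases D.corner hc k.1 with a | a | a | a
        · left
          refine ⟨⟨k.1, a.1⟩, ?_⟩
          rw [D.sl.τ_smul h _ _ (D.sl_mv.2 ⟨k.1, a.2.1⟩), D.sl.τ_smul h _ _ (D.sl_mv.2 ⟨k.1, a.1⟩),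
            D.sl_τ, D.sl_τ, a.2.2]
        · exfalso
          have k2 := k.2
          rw [a.2] at k2
          have h1 := K.ar_rk _ _ (D.tau_ar k.1 a.1)
          have h2 := K.ar_rk _ _ k2.1
          omega
        · right
          left
          rw [D.sl.τ_smul h _ _ k, D.sl_τ, a.2]
        · left
          rw [a]
          exact ⟨k, rfl⟩
      · rw [hc] at k
        exact (k : False).elim
    rintro d (i | i) ⟨hi, h, k, a | a⟩ hm
    · have g1 : k + 1 + 1 = k + 2 := by rw [add_assoc]; rfl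
      have e0 : d 0 = h • Sum.inl (D.c i k) := by
        have := a 0
        rw [add_zero] at this
        exact this
      have e1 : d 1 = h • Sum.inl (D.c i (k + 1)) := a 1
      have e2 : d 2 = h • Sum.inl (D.c i (k + 2)) := a 2
      rw [e0, e1] at hm
      rw [e0, e1, e2]
      exact main i k h hm
    · have g0 : k - 2 + 2 = k := f5_7 k
      have g1 : k - 2 + 1 = k - 1 := f5_8 k
      have e0 : d 0 = h • Sum.inl (D.c i (k - 2 + 2)) := by
        have := a 0
        rw [sub_zero] at this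
        rw [g0]
        exact this
      have e1 : d 1 = h • Sum.inl (D.c i (k - 2 + 1)) := by
        rw [g1]
        exact a 1
      have e2 : d 2 = h • Sum.inl (D.c i (k - 2)) := a 2
      rw [e0, e1] at hm
      rw [e0, e1, e2]
      exact main' i (k - 2) h hm
    · exact (hi : False).elim
    · exact (hi : False).elim

/-- a corner with a pole at a vertex of `W` -/
def Lam (i : K.I) (j : Fin 5) : Prop := D.W (P.pt i (j + 1)) ∧
  (K.ar (P.pt i (j + 1)) (P.pt i j) ∨ K.ar (P.pt i (j + 1)) (P.pt i (j + 2)))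

open Classical in
theorem sg_le (hm : K.Min) (i : K.I) (j : Fin 5) :
    sg D.sl.mv D.sl.τ (Sum.inl (D.c i j)) (Sum.inl (D.c i (j + 1))) (Sum.inl (D.c i (j + 2))) ≤
      -(if D.Lam i j then 1 else 0) := by
  rcases hc : D.c i (j + 1) with w | s
  · have hp : P.pt i (j + 1) = w := by
      rw [← D.c_pr, hc]
      rfl
    by_cases hw : D.W w
    · rcases D.corner hc hw with a | a | a | a
      · have hn : ¬ D.Lam i j := by
          rintro ⟨-, k | k⟩
          · rw [hp, ← D.c_pr i j] at k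
            have h1 := K.ar_rk _ _ k
            have h2 := K.ar_rk _ _ (D.inA_ar a.1)
            omega
          · rw [hp, ← D.c_pr i (j + 2)] at k
            have h1 := K.ar_rk _ _ k
            have h2 := K.ar_rk _ _ (D.inA_ar a.2.1)
            omega
        rw [if_neg hn]
        refine (sg_mv_mv (mv := D.sl.mv) (τ := D.sl.τ) (D.sl_mv.2 ⟨hw, a.1⟩)
          (D.sl_mv.2 ⟨hw, a.2.1⟩) ?_).le
        rw [D.sl_τ, D.sl_τ, a.2.2]
      · have h1 : sg D.sl.mv D.sl.τ (Sum.inl (D.c i j)) (Sum.inl (Sum.inl w))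
            (Sum.inl (D.c i (j + 2))) = -1 := by
          refine sg_mv_τ (mv := D.sl.mv) (τ := D.sl.τ) (D.sl_mv.2 ⟨hw, a.1⟩) ?_ ?_
          · rw [a.2]
            rintro ⟨-, k, -⟩
            have h1 := K.ar_rk _ _ (D.tau_ar hw a.1)
            have h2 := K.ar_rk _ _ k
            omega
          · rw [D.sl_τ, a.2]
        rw [h1]
        split_ifs <;> norm_num
      · have h1 : sg D.sl.mv D.sl.τ (Sum.inl (D.c i j)) (Sum.inl (Sum.inl w))
            (Sum.inl (D.c i (j + 2))) = -1 := by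
          rw [sg_symm]
          refine sg_mv_τ (mv := D.sl.mv) (τ := D.sl.τ) (D.sl_mv.2 ⟨hw, a.1⟩) ?_ ?_
          · rw [a.2]
            rintro ⟨-, k, -⟩
            have h1 := K.ar_rk _ _ (D.tau_ar hw a.1)
            have h2 := K.ar_rk _ _ k
            omega
          · rw [D.sl_τ, a.2]
        rw [h1]
        split_ifs <;> norm_num
      · exfalso
        refine (P.at_pt i).ne2 hm j ?_
        rw [← D.c_pr, ← D.c_pr, a]
    · have hn : ¬ D.Lam i j := by
        rintro ⟨k, -⟩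
        rw [hp] at k
        exact hw k
      rw [if_neg hn, sg_of_not]
      · simp
      · rintro ⟨a | a, k⟩
        · exact hw k.1
        · exact (k : False).elim
  · have hn : ¬ D.Lam i j := by
      rintro ⟨k, -⟩
      rw [← D.c_pr, hc] at k
      exact D.not_ZW k ⟨s, rfl⟩
    rw [if_neg hn, sg_of_not]
    · simp
    · rintro ⟨a | a, k⟩
      · exact (k : False).elim
      · exact (k : False).elim

theorem min1 (hm : K.Min) : D.K1.Min := fun V' _ K' => by
  show D.sp.gx.area ≤ _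
  rw [D.sp.gx_area]
  exact hm V' K'

/-- the squares -/
def sq (j : D.J) : Fin 4 → (V ⊕ S) ⊕ S :=
  ![Sum.inl (Sum.inr (D.js j)), Sum.inr (D.js j), Sum.inl (Sum.inl (D.q (D.js j))),
    Sum.inl (Sum.inl (D.jp j))]

theorem isSq (j : D.J) : IsSq D.K1 (Sum.inr j) (D.sq j) where
  cb_eq := rfl
  cw_eq := rfl
  ne0 := fun h => Sum.inr_ne_inl (Sum.inl_injective h)
  ne1 := fun h => Sum.inr_ne_inl h

open Classical in
/-- THE PAGE SURGERY: the number of corners with a pole at a vertex of `W` -/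
theorem lam_sum (hm : K.Min) [Fintype K.I] [Fintype D.J] :
    ∑ i : K.I, ∑ j : Fin 5, (if D.Lam i j then (1 : ℤ) else 0) ≤ Fintype.card D.J := by
  let _ : Fintype D.K1.I := (inferInstance : Fintype (K.I ⊕ D.J))
  have main := D.pq.sum_nonneg_sq (D.min1 hm)
    (fun i => match i with
      | Sum.inl _ => fun _ => Sum.inl (Sum.inl K.ne.some)
      | Sum.inr j => D.sq j) ?_ ?_
  · have e1 : ∑ i : D.K1.I, (if D.pg.five i then D.pq.t i else max 0 (D.pq.t i)) =
        (∑ i : K.I, D.pq.t (Sum.inl i)) + ∑ j : D.J, max 0 (D.pq.t (Sum.inr j)) := by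
      refine (Fintype.sum_sum_type (α₁ := K.I) (α₂ := D.J) _).trans ?_
      congr 1
      · exact Finset.sum_congr rfl fun i _ => if_pos trivial
      · exact Finset.sum_congr rfl fun i _ => if_neg id
    have h1 : ∀ i : K.I, D.pq.t (Sum.inl i) ≤ ∑ j : Fin 5, -(if D.Lam i j then (1 : ℤ) else 0) := by
      intro i
      have h : D.pq.t (Sum.inl i) = ∑ j : Fin 5, sg D.sl.mv D.sl.τ (Sum.inl (D.c i j))
          (Sum.inl (D.c i (j + 1))) (Sum.inl (D.c i (j + 2))) :=
        D.pg.csg_eq D.sl (i := Sum.inl i) trivial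
      rw [h]
      exact Finset.sum_le_sum fun j _ => D.sg_le hm i j
    have h2 : ∀ j : D.J, max 0 (D.pq.t (Sum.inr j)) ≤ 1 := by
      intro j
      have h : D.pq.t (Sum.inr j) =
        sg D.sl.mv D.sl.τ (Sum.inl (Sum.inr (D.js j))) (Sum.inr (D.js j))
          (Sum.inl (Sum.inl (D.q (D.js j)))) +
        (sg D.sl.mv D.sl.τ (Sum.inr (D.js j)) (Sum.inl (Sum.inl (D.q (D.js j))))
          (Sum.inl (Sum.inl (D.jp j))) +
        (sg D.sl.mv D.sl.τ (Sum.inl (Sum.inl (D.q (D.js j)))) (Sum.inl (Sum.inl (D.jp j)))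
          (Sum.inl (Sum.inr (D.js j))) +
        (sg D.sl.mv D.sl.τ (Sum.inl (Sum.inl (D.jp j))) (Sum.inl (Sum.inr (D.js j)))
          (Sum.inr (D.js j)) + 0))) := rfl
      have z1 : sg D.sl.mv D.sl.τ (Sum.inl (Sum.inr (D.js j))) (Sum.inr (D.js j))
          (Sum.inl (Sum.inl (D.q (D.js j)))) = 0 := by
        apply sg_of_not
        rintro ⟨a | a, k⟩
        · exact (k : False).elim
        · exact (k : False).elim
      have z2 : sg D.sl.mv D.sl.τ (Sum.inr (D.js j)) (Sum.inl (Sum.inl (D.q (D.js j))))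
          (Sum.inl (Sum.inl (D.jp j))) = 0 := by
        apply sg_of_not
        rintro ⟨a | a, k⟩
        · exact D.not_ZW k.1 ⟨_, rfl⟩
        · exact (k : False).elim
      have z4 : sg D.sl.mv D.sl.τ (Sum.inl (Sum.inl (D.jp j))) (Sum.inl (Sum.inr (D.js j)))
          (Sum.inr (D.js j)) = 0 := by
        apply sg_of_not
        rintro ⟨a | a, k⟩
        · exact (k : False).elim
        · exact (k : False).elim
      have z3 : sg D.sl.mv D.sl.τ (Sum.inl (Sum.inl (D.q (D.js j)))) (Sum.inl (Sum.inl (D.jp j)))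
          (Sum.inl (Sum.inr (D.js j))) ≤ 1 := by
        by_cases hw : D.W (D.jp j)
        · rw [sg_symm]
          have hin : D.inA (Sum.inr (D.js j)) (D.jp j) := D.jar j
          refine (sg_mv_not (mv := D.sl.mv) (τ := D.sl.τ) (D.sl_mv.2 ⟨hw, hin⟩) ?_ ?_).le
          · rintro ⟨-, -, k⟩
            exact k ⟨_, rfl⟩
          · intro k
            have k' : D.q (D.js j) = D.tau (Sum.inr (D.js j)) (D.jp j) :=
              Sum.inl_injective (Sum.inl_injective k)
            exact D.tau_Z hw hin ⟨_, k'⟩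
        · rw [sg_of_not]
          · norm_num
          · rintro ⟨a | a, k⟩
            · exact hw k.1
            · exact (k : False).elim
      rw [h, z1, z2, z4]
      omega
    have h3 : (0 : ℤ) ≤ (∑ i : K.I, ∑ j : Fin 5, -(if D.Lam i j then (1 : ℤ) else 0)) +
        ∑ j : D.J, (1 : ℤ) := by
      refine main.trans ?_
      rw [e1]
      exact add_le_add (Finset.sum_le_sum fun i _ => h1 i) (Finset.sum_le_sum fun j _ => h2 j)
    simp only [Finset.sum_neg_distrib, Finset.sum_const, Finset.card_univ, nsmul_eq_mul,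
      mul_one] at h3
    linarith
  · rintro (i | j) hi
    · exact (hi trivial).elim
    · exact D.isSq j
  · rintro (i | j) hi k h1 h2
    · exact (hi trivial).elim
    · exfalso
      fin_cases k
      · exact (h1 : False).elim
      · exact (h1 : False).elim
      · exact h1.2.2 ⟨_, rfl⟩
      · exact (h1 : False).elim

/-- the number of corners with a pole at a vertex of `W` -/
theorem lam_le (hm : K.Min) [Fintype K.I] [Fintype D.J] :
    Nat.card {x : K.I × Fin 5 // D.Lam x.1 x.2} ≤ Fintype.card D.J := by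
  classical
  have h := D.lam_sum hm
  have h4 : ∑ i : K.I, ∑ j : Fin 5, (if D.Lam i j then (1 : ℤ) else 0) =
      (Nat.card {x : K.I × Fin 5 // D.Lam x.1 x.2} : ℤ) := by
    rw [Nat.card_eq_fintype_card, Fintype.card_subtype, Finset.card_filter]
    push_cast
    rw [← Finset.univ_product_univ, Finset.sum_product]
  rw [h4] at h
  exact_mod_cast h

end PgD

end Pool.Agent.DI
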