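import Pool.Agent.DI.PageA
import Pool.Agent.DI.GXAdd
import Pool.Agent.DI.PQ3

/-!
# DI/PageB: the page surgery

`Page P` for a complex with pentagons only: a vertex `v` with poles `x`, `r x`, a page `z` of `v` with
poles `v`, `g v`; a subgroup `Hp` of index two of the stabiliser of `z` (the elements which fix the
two sides of `z`), `g` in `Hp`, `r` not in `Hp`, `r v = v`. `X`: the neighbours of `v` on the side of
`x`; `Y`: the in-arrows of `z` on the positive side. The corners of the cells at `v` and at `z` respect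
the sides. Then the number of corners with the leg `v x` is at most one (`Page.lam_le`).
-/

namespace Pool.Agent.DI

open MulAction
open Pool.Agent.SAF (InC orbs FinOrb oc FinOrb_iff)

/-- data of the page surgery -/
structure Page {H V : Type} [Group H] [MulAction H V] {K : GX H V} (P : Pt K) where
  v : V
  x : V
  z : V
  g : H
  r : H
  Hp : Subgroup H
  X : V → Prop
  Y : V → Prop
  vx : K.ar v x
  zv : K.ar z v
  rv : r • v = v
  rz : r • z = z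
  rx : r • x ≠ x
  gp : g ∈ Hp
  gv : g • v ≠ v
  Hz : ∀ h ∈ Hp, h • z = z
  Hx : ∀ h ∈ Hp, h • v = v → h • x = x
  two : ∀ h : H, h • z = z → h ∈ Hp ∨ r⁻¹ * h ∈ Hp
  Xx : X x
  Xs : ∀ (h : H) (n : V), h • v = v → K.E n v → (¬ ∃ k : H, k • z = n) → h • x = x →
    (X (h • n) ↔ X n)
  Xt : ∀ (h : H) (n : V), h • v = v → K.E n v → (¬ ∃ k : H, k • z = n) → h • x ≠ x →
    (X (h • n) ↔ ¬ X n)
  Ys : ∀ h ∈ Hp, ∀ n, K.ar n z → (Y (h • n) ↔ Y n)
  Yt : ∀ h ∉ Hp, h • z = z → ∀ n, K.ar n z → (Y (h • n) ↔ ¬ Y n)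
  c1 : ∀ (c : Fin 5 → V) (i : K.I), P.At c i → c 1 = v → (¬ ∃ k : H, k • z = c 0) →
    (¬ ∃ k : H, k • z = c 2) → (X (c 0) ↔ X (c 2))
  c2 : ∀ (c : Fin 5 → V) (i : K.I), P.At c i → c 1 = v → c 2 = z → ¬ ∃ k : H, k • z = c 0
  c3 : ∀ (c : Fin 5 → V) (i : K.I), P.At c i → c 1 = v → c 2 = z → K.ar (c 3) z →
    (X (c 0) ↔ Y (c 3))
  c4 : ∀ (c : Fin 5 → V) (i : K.I), P.At c i → c 1 = v → c 2 = z → c 3 = g • v →
    (X (c 0) ↔ X (g⁻¹ • c 4))
  c5 : ∀ (c : Fin 5 → V) (i : K.I), P.At c i → c 2 = z → K.ar (c 1) z → K.ar (c 3) z →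
    (Y (c 1) ↔ Y (c 3))

namespace Page

variable {H V : Type} [Group H] [MulAction H V] {K : GX H V} {P : Pt K} (D : Page P)

/-- the orbit of the page -/
def Z (y : V) : Prop := ∃ k : H, k • D.z = y

theorem Z_smul (h : H) {y : V} (k : D.Z y) : D.Z (h • y) := by
  obtain ⟨k, rfl⟩ := k
  exact ⟨h * k, mul_smul _ _ _⟩

theorem Z_iff (h : H) (y : V) : D.Z (h • y) ↔ D.Z y := by
  refine ⟨fun k => ?_, D.Z_smul h⟩
  have := D.Z_smul h⁻¹ k
  rwa [inv_smul_smul] at this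

theorem rk_Z {y : V} (h : D.Z y) : K.rk y = K.rk D.z := by
  obtain ⟨k, rfl⟩ := h
  exact K.rk_smul k _

/-- the orbit of `v` -/
def W (y : V) : Prop := ∃ k : H, k • D.v = y

theorem rk_W {y : V} (h : D.W y) : K.rk y = K.rk D.v := by
  obtain ⟨k, rfl⟩ := h
  exact K.rk_smul k _

theorem rk_lt : K.rk D.v < K.rk D.z := K.ar_rk _ _ D.zv

theorem zgv : K.ar D.z (D.g • D.v) := by
  have := K.ar_smul D.g _ _ D.zv
  rwa [D.Hz D.g D.gp] at this

theorem ri_v : D.r⁻¹ • D.v = D.v := by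
  rw [inv_smul_eq_iff, D.rv]

theorem ri_z : D.r⁻¹ • D.z = D.z := by
  rw [inv_smul_eq_iff, D.rz]

theorem ri_x : D.r⁻¹ • D.x ≠ D.x := fun h => D.rx (by
  rw [inv_smul_eq_iff] at h
  exact h.symm)

theorem r_not : D.r ∉ D.Hp := fun h => D.rx (D.Hx _ h D.rv)

theorem ri_not : D.r⁻¹ ∉ D.Hp := fun h => D.r_not (by
  have := D.Hp.inv_mem h
  rwa [inv_inv] at this)

/-- the poles of the page -/
theorem z_pole {y : V} (h : K.ar D.z y) : ∃ k ∈ D.Hp, k • D.v = y := by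
  rcases K.two _ _ _ _ h D.zv D.zgv with e | e | e
  · exact ⟨1, D.Hp.one_mem, by rw [one_smul, e]⟩
  · exact absurd e.symm D.gv
  · exact ⟨D.g, D.gp, e.symm⟩

/-- the poles of `v` -/
theorem v_pole {y : V} (h : K.ar D.v y) : y = D.x ∨ y = D.r • D.x := by
  have h1 : K.ar D.v (D.r • D.x) := by
    have := K.ar_smul D.r _ _ D.vx
    rwa [D.rv] at this
  rcases K.two _ _ _ _ h D.vx h1 with e | e | e
  · exact Or.inl e
  · exact absurd e.symm D.rx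
  · exact Or.inr e

theorem not_ZW {y : V} (h : D.W y) : ¬ D.Z y := fun k => by
  have h1 := D.rk_W h
  have h2 := D.rk_Z k
  have := D.rk_lt
  omega

theorem pole_not_Z {y w : V} (hw : D.W w) (h : K.ar w y) : ¬ D.Z y := fun k => by
  have h1 := D.rk_W hw
  have h2 := D.rk_Z k
  have h3 := K.ar_rk _ _ h
  have := D.rk_lt
  omega

/-! ### colours -/

theorem X_exists {n : V} (hn : K.E n D.v) (hZ : ¬ D.Z n) : ∃ k : H, k • D.v = D.v ∧
    D.X (k⁻¹ • n) := by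
  by_cases h : D.X n
  · exact ⟨1, one_smul _ _, by rwa [inv_one, one_smul]⟩
  · exact ⟨D.r, D.rv, (D.Xt _ n D.ri_v hn hZ D.ri_x).2 h⟩

/-- the colour of a neighbour of a vertex of `W` -/
theorem π_ex {n w : V} (hw : D.W w) (hn : K.E n w) (hZ : ¬ D.Z n) : ∃ k : H, k • D.v = w ∧
    D.X (k⁻¹ • n) := by
  obtain ⟨h, rfl⟩ := hw
  have e : K.E (h⁻¹ • n) D.v := by
    have := K.E_smul h⁻¹ hn
    rwa [inv_smul_smul] at this
  obtain ⟨k, k1, k2⟩ := D.X_exists e (fun k => hZ ((D.Z_iff h⁻¹ n).1 k))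
  refine ⟨h * k, by rw [mul_smul, k1], ?_⟩
  rw [mul_inv_rev, mul_smul]
  exact k2

theorem π_uniq {n : V} {k k' : H} (hn : K.E n (k • D.v)) (hZ : ¬ D.Z n)
    (e : k' • D.v = k • D.v) (h : D.X (k⁻¹ • n)) (h' : D.X (k'⁻¹ • n)) : k • D.x = k' • D.x := by
  by_contra hne
  have e1 : (k'⁻¹ * k) • D.v = D.v := by
    rw [mul_smul, ← e, inv_smul_smul]
  have e2 : K.E (k⁻¹ • n) D.v := by
    have := K.E_smul k⁻¹ hn
    rwa [inv_smul_smul] at this
  have e3 : (k'⁻¹ * k) • D.x ≠ D.x := by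
    intro e3
    apply hne
    rw [mul_smul, inv_smul_eq_iff] at e3
    exact e3
  have := (D.Xt (k'⁻¹ * k) (k⁻¹ • n) e1 e2 (fun k' => hZ ((D.Z_iff k⁻¹ n).1 k')) e3).1 (by
    rw [mul_smul, smul_inv_smul]
    exact h')
  exact this h

open Classical in
/-- the colour -/
noncomputable def π (n w : V) : V :=
  if h : ∃ k : H, k • D.v = w ∧ D.X (k⁻¹ • n) then h.choose • D.x else w

theorem π_eq {n w : V} {k : H} (hn : K.E n w) (hZ : ¬ D.Z n) (hk : k • D.v = w)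
    (h : D.X (k⁻¹ • n)) : D.π n w = k • D.x := by
  have hex : ∃ k : H, k • D.v = w ∧ D.X (k⁻¹ • n) := ⟨k, hk, h⟩
  unfold π
  rw [dif_pos hex]
  obtain ⟨e1, e2⟩ := hex.choose_spec
  subst hk
  exact (D.π_uniq hn hZ e1 h e2).symm

/-- the colour of a pole -/
theorem π_pole {y w : V} (hw : D.W w) (h : K.ar w y) : D.π y w = y := by
  have hZ := D.pole_not_Z hw h
  obtain ⟨k, rfl⟩ := hw
  have h1 : K.ar D.v (k⁻¹ • y) := by
    have := K.ar_smul k⁻¹ _ _ h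
    rwa [inv_smul_smul] at this
  rcases D.v_pole h1 with e | e
  · rw [D.π_eq (k := k) (Or.inr h) hZ rfl (by rw [e]; exact D.Xx), ← e, smul_inv_smul]
  · have e' : y = (k * D.r) • D.x := by
      rw [mul_smul, ← e, smul_inv_smul]
    have e2 : (k * D.r) • D.v = k • D.v := by rw [mul_smul, D.rv]
    rw [D.π_eq (k := k * D.r) (Or.inr h) hZ e2 (by
      rw [e', inv_smul_smul]
      exact D.Xx), e']

/-! ### the halves of the pages -/

/-- the page of a half -/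
noncomputable def q (s : H ⧸ D.Hp) : V := Quotient.out s • D.z

theorem q_mk (k : H) : D.q (k : H ⧸ D.Hp) = k • D.z := by
  have h := QuotientGroup.out_eq' (k : H ⧸ D.Hp)
  have h2 := QuotientGroup.eq.1 h.symm
  have h3 := D.Hz _ h2
  rw [mul_smul, inv_smul_eq_iff] at h3
  exact h3

theorem Z_q {y : V} : (∃ s, D.q s = y) ↔ D.Z y := by
  constructor
  · rintro ⟨s, rfl⟩
    exact ⟨_, rfl⟩
  · rintro ⟨k, rfl⟩
    exact ⟨_, D.q_mk k⟩

open Classical in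
/-- the colour of a half -/
noncomputable def p (s : H ⧸ D.Hp) (w : V) : V :=
  if h : ∃ k : H, (k : H ⧸ D.Hp) = s ∧ k • D.v = w then h.choose • D.x else w

theorem p_eq {s : H ⧸ D.Hp} {w : V} {k : H} (h1 : (k : H ⧸ D.Hp) = s) (h2 : k • D.v = w) :
    D.p s w = k • D.x := by
  have hex : ∃ k : H, (k : H ⧸ D.Hp) = s ∧ k • D.v = w := ⟨k, h1, h2⟩
  unfold p
  rw [dif_pos hex]
  obtain ⟨e1, e2⟩ := hex.choose_spec
  have h3 : k⁻¹ * hex.choose ∈ D.Hp := QuotientGroup.eq.1 (h1.trans e1.symm)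
  have h4 := D.Hx _ h3 (by rw [mul_smul, e2, ← h2, inv_smul_smul])
  rw [mul_smul, inv_smul_eq_iff] at h4
  exact h4

/-- the poles of a half -/
theorem q_pole {s : H ⧸ D.Hp} {w : V} (h : K.ar (D.q s) w) : ∃ k : H, (k : H ⧸ D.Hp) = s ∧
    k • D.v = w := by
  obtain ⟨k, rfl⟩ := QuotientGroup.mk_surjective s
  rw [D.q_mk] at h
  have h1 : K.ar D.z (k⁻¹ • w) := by
    have := K.ar_smul k⁻¹ _ _ h
    rwa [inv_smul_smul] at this
  obtain ⟨t, t1, t2⟩ := D.z_pole h1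
  refine ⟨k * t, ?_, ?_⟩
  · refine (QuotientGroup.eq.2 ?_).symm
    rw [inv_mul_cancel_left]
    exact t1
  · rw [mul_smul, t2, smul_inv_smul]

open Classical in
/-- the half of an in-arrow of a page -/
noncomputable def e (n y : V) : H ⧸ D.Hp :=
  if h : ∃ k : H, k • D.z = y ∧ D.Y (k⁻¹ • n) then (h.choose : H ⧸ D.Hp) else ((1 : H) : H ⧸ D.Hp)

theorem e_ex {n y : V} (hy : D.Z y) (h : K.ar n y) : ∃ k : H, k • D.z = y ∧ D.Y (k⁻¹ • n) := by
  obtain ⟨k, rfl⟩ := hy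
  have h1 : K.ar (k⁻¹ • n) D.z := by
    have := K.ar_smul k⁻¹ _ _ h
    rwa [inv_smul_smul] at this
  by_cases hY : D.Y (k⁻¹ • n)
  · exact ⟨k, rfl, hY⟩
  · refine ⟨k * D.r, by rw [mul_smul, D.rz], ?_⟩
    rw [mul_inv_rev, mul_smul]
    exact (D.Yt _ D.ri_not D.ri_z _ h1).2 hY

theorem e_eq {n y : V} {k : H} (h : K.ar n y) (h1 : k • D.z = y) (h2 : D.Y (k⁻¹ • n)) :
    D.e n y = (k : H ⧸ D.Hp) := by
  have hex : ∃ k : H, k • D.z = y ∧ D.Y (k⁻¹ • n) := ⟨k, h1, h2⟩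
  unfold e
  rw [dif_pos hex]
  obtain ⟨e1, e2⟩ := hex.choose_spec
  have h3 : K.ar (k⁻¹ • n) D.z := by
    have := K.ar_smul k⁻¹ _ _ h
    rwa [← h1, inv_smul_smul] at this
  have h4 : (hex.choose⁻¹ * k) • D.z = D.z := by
    rw [mul_smul, h1]
    rw [inv_smul_eq_iff]
    exact e1.symm
  refine QuotientGroup.eq.2 ?_
  by_contra hn
  have := (D.Yt _ hn h4 _ h3).1 (by
    rw [mul_smul, smul_inv_smul]
    exact e2)
  exact this h2

theorem q_e {n y : V} (hy : D.Z y) (h : K.ar n y) : D.q (D.e n y) = y := by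
  obtain ⟨k, k1, k2⟩ := D.e_ex hy h
  rw [D.e_eq h k1 k2, D.q_mk, k1]

theorem e_smul (h : H) {n y : V} (hy : D.Z y) (hn : K.ar n y) :
    D.e (h • n) (h • y) = h • D.e n y := by
  obtain ⟨k, k1, k2⟩ := D.e_ex hy hn
  rw [D.e_eq hn k1 k2, D.e_eq (k := h * k) (K.ar_smul h _ _ hn) (by rw [mul_smul, k1]) (by
    rw [mul_inv_rev, mul_smul, inv_smul_smul]
    exact k2)]
  rfl

/-! ### the sides at a page -/

/-- `n` is a neighbour of `z` on the positive side (with the next vertex `m`) -/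
def Sd (n m : V) : Prop := (K.ar n D.z ∧ D.Y n) ∨ ∃ h ∈ D.Hp, h • D.v = n ∧ D.X (h⁻¹ • m)

theorem Sd_in {n m : V} (h : K.ar n D.z) : D.Sd n m ↔ D.Y n := by
  constructor
  · rintro (k | ⟨k, k1, rfl, -⟩)
    · exact k.2
    · exfalso
      have h1 := K.ar_rk _ _ h
      have := D.rk_lt
      rw [K.rk_smul] at h1
      omega
  · exact fun k => Or.inl ⟨h, k⟩

theorem Sd_pole {h : H} {m : V} (hh : h ∈ D.Hp) (hm : K.E m (h • D.v)) (hZ : ¬ D.Z m) :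
    D.Sd (h • D.v) m ↔ D.X (h⁻¹ • m) := by
  constructor
  · rintro (k | ⟨k, k1, k2, k3⟩)
    · exfalso
      have h1 := K.ar_rk _ _ k.1
      have := D.rk_lt
      rw [K.rk_smul] at h1
      omega
    · have e1 : (h⁻¹ * k) • D.v = D.v := by rw [mul_smul, k2, inv_smul_smul]
      have e2 : K.E (k⁻¹ • m) D.v := by
        have := K.E_smul k⁻¹ hm
        rwa [← k2, inv_smul_smul] at this
      have := (D.Xs (h⁻¹ * k) (k⁻¹ • m) e1 e2 (fun k' => hZ ((D.Z_iff k⁻¹ m).1 k'))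
        (D.Hx _ (D.Hp.mul_mem (D.Hp.inv_mem hh) k1) e1)).2 k3
      rwa [mul_smul, smul_inv_smul] at this
  · exact fun k => Or.inr ⟨h, hh, rfl, k⟩

theorem Sd_smul {n m : V} {h : H} (hh : h ∈ D.Hp) (hn : K.E n D.z) (hm : K.E m n)
    (hZ : D.W n → ¬ D.Z m) : D.Sd (h • n) (h • m) ↔ D.Sd n m := by
  rcases hn with hn | hn
  · have h1 : K.ar (h • n) D.z := by
      have := K.ar_smul h _ _ hn
      rwa [D.Hz h hh] at this
    rw [D.Sd_in h1, D.Sd_in hn]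
    exact D.Ys h hh n hn
  · obtain ⟨k, k1, rfl⟩ := D.z_pole hn
    have hZ' := hZ ⟨k, rfl⟩
    have e : h • k • D.v = (h * k) • D.v := (mul_smul _ _ _).symm
    rw [D.Sd_pole k1 hm hZ', e, D.Sd_pole (D.Hp.mul_mem hh k1) (by
      rw [mul_smul]
      exact K.E_smul h hm) (fun k' => hZ' ((D.Z_iff h m).1 k'))]
    rw [mul_inv_rev, mul_smul, inv_smul_smul]

theorem norm_r {h : H} (hh : h ∈ D.Hp) : D.r⁻¹ * h * D.r ∈ D.Hp := by
  have h2 : D.r * D.r ∈ D.Hp := by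
    rcases D.two (D.r * D.r) (by rw [mul_smul, D.rz, D.rz]) with k | k
    · exact k
    · rw [inv_mul_cancel_left] at k
      exact absurd k D.r_not
  rcases D.two (D.r⁻¹ * h * D.r) (by rw [mul_smul, mul_smul, D.rz, D.Hz h hh, D.ri_z]) with k | k
  · exact k
  · exfalso
    apply D.r_not
    have e : D.r = h⁻¹ * ((D.r * D.r) * (D.r⁻¹ * (D.r⁻¹ * h * D.r))) := by group
    rw [e]
    exact D.Hp.mul_mem (D.Hp.inv_mem hh) (D.Hp.mul_mem h2 k)

theorem Sd_r {n m : V} (hn : K.E n D.z) (hm : K.E m n) (hZ : D.W n → ¬ D.Z m)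
    (h : ¬ D.Sd n m) : D.Sd (D.r⁻¹ • n) (D.r⁻¹ • m) := by
  rcases hn with hn | hn
  · have h1 : K.ar (D.r⁻¹ • n) D.z := by
      have := K.ar_smul D.r⁻¹ _ _ hn
      rwa [D.ri_z] at this
    rw [D.Sd_in hn] at h
    rw [D.Sd_in h1]
    exact (D.Yt _ D.ri_not D.ri_z _ hn).2 h
  · obtain ⟨k, k1, rfl⟩ := D.z_pole hn
    have hZ' := hZ ⟨k, rfl⟩
    rw [D.Sd_pole k1 hm hZ'] at h
    refine Or.inr ⟨D.r⁻¹ * k * D.r, D.norm_r k1, ?_, ?_⟩
    · rw [mul_smul, mul_smul, D.rv]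
    · have e : (D.r⁻¹ * k * D.r)⁻¹ • D.r⁻¹ • m = D.r⁻¹ • k⁻¹ • m := by
        rw [← mul_smul, ← mul_smul]
        congr 1
        group
      rw [e]
      have e2 : K.E (k⁻¹ • m) D.v := by
        have := K.E_smul k⁻¹ hm
        rwa [inv_smul_smul] at this
      exact (D.Xt _ _ D.ri_v e2 (fun k' => hZ' ((D.Z_iff k⁻¹ m).1 k')) D.ri_x).2 h

/-- a neighbour in `W` of a page is a pole -/
theorem W_pole {n y : V} (hn : D.W n) (hy : D.Z y) (h : K.E n y) : K.ar y n := by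
  rcases h with h | h
  · have h1 := K.ar_rk _ _ h
    rw [D.rk_W hn, D.rk_Z hy] at h1
    have := D.rk_lt
    omega
  · exact h

/-- a page and one of its poles -/
theorem pair {n y : V} (hn : D.W n) (hy : D.Z y) (h : K.E n y) : ∃ k : H, k • D.v = n ∧
    k • D.z = y := by
  have h1 := D.W_pole hn hy h
  obtain ⟨k, rfl⟩ := hy
  have h2 : K.ar D.z (k⁻¹ • n) := by
    have := K.ar_smul k⁻¹ _ _ h1
    rwa [inv_smul_smul] at this
  obtain ⟨t, t1, t2⟩ := D.z_pole h2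
  exact ⟨k * t, by rw [mul_smul, t2, smul_inv_smul], by rw [mul_smul, D.Hz t t1]⟩

theorem c2' {d : Fin 5 → V} {i : K.I} (a : P.At d i) (h1 : D.W (d 1)) (h2 : D.Z (d 2)) :
    ¬ D.Z (d 0) := by
  obtain ⟨k, k1, k2⟩ := D.pair h1 h2 (a.E 1)
  intro h
  refine D.c2 _ i (a.smul k⁻¹) ?_ ?_ (D.Z_smul k⁻¹ h)
  · show k⁻¹ • d 1 = _
    rw [← k1, inv_smul_smul]
  · show k⁻¹ • d 2 = _
    rw [← k2, inv_smul_smul]

theorem c1' {d : Fin 5 → V} {i : K.I} (a : P.At d i) (h1 : D.W (d 1)) (h0 : ¬ D.Z (d 0))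
    (h2 : ¬ D.Z (d 2)) : D.π (d 0) (d 1) = D.π (d 2) (d 1) := by
  have e0 : K.E (d 0) (d 1) := a.E 0
  have e1 : K.E (d 1) (d 2) := a.E 1
  obtain ⟨k, k1, k2⟩ := D.π_ex h1 e0 h0
  have k3 : D.X (k⁻¹ • d 2) := by
    refine (D.c1 _ i (a.smul k⁻¹) ?_ ?_ ?_).1 k2
    · show k⁻¹ • d 1 = _
      rw [← k1, inv_smul_smul]
    · exact fun k' => h0 ((D.Z_iff k⁻¹ _).1 k')
    · exact fun k' => h2 ((D.Z_iff k⁻¹ _).1 k')
  rw [D.π_eq e0 h0 k1 k2, D.π_eq e1.symm h2 k1 k3]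

/-- both sides of a page in a cell, first vertex a pole -/
theorem Sd_sym1 (hm : K.Min) {d : Fin 5 → V} {i : K.I} (a : P.At d i) (h2 : d 2 = D.z)
    (h1 : K.ar D.z (d 1)) : D.Sd (d 1) (d 0) ↔ D.Sd (d 3) (d 4) := by
  have main : ∀ d : Fin 5 → V, P.At d i → d 2 = D.z → d 1 = D.v →
      (D.Sd (d 1) (d 0) ↔ D.Sd (d 3) (d 4)) := by
    intro d a h2 h1
    have e0 : K.E (d 0) (d 1) := a.E 0
    have e2 : K.E (d 2) (d 3) := a.E 2
    have e3 : K.E (d 3) (d 4) := a.E 3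
    have hZ0 : ¬ D.Z (d 0) := D.c2' a ⟨1, by rw [one_smul, h1]⟩ ⟨1, by rw [one_smul, h2]⟩
    have s1 : D.Sd (d 1) (d 0) ↔ D.X (d 0) := by
      have := D.Sd_pole (h := 1) (m := d 0) D.Hp.one_mem (by rw [one_smul, ← h1]; exact e0) hZ0
      rw [one_smul, inv_one, one_smul] at this
      rw [h1]
      exact this
    rw [s1]
    rw [h2] at e2
    rcases e2 with e2 | e2
    · -- `d 3` is a pole
      have h3 : d 3 = D.g • D.v := by
        rcases K.two _ _ _ _ e2 D.zv D.zgv with e | e | e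
        · exfalso
          have := a.ne2 hm 1
          exact this (h1.trans e.symm)
        · exact absurd e.symm D.gv
        · exact e
      have hZ4 : ¬ D.Z (d 4) := D.c2' (a.refl 4) (by
          show D.W (d 3)
          exact ⟨D.g, h3.symm⟩) (by
          show D.Z (d 2)
          exact ⟨1, by rw [one_smul, h2]⟩)
      rw [D.c4 d i a h1 h2 h3, h3]
      exact (D.Sd_pole D.gp (by rw [← h3]; exact e3.symm) hZ4).symm
    · rw [D.Sd_in e2]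
      exact D.c3 d i a h1 h2 e2
  obtain ⟨k, k1, k2⟩ := D.z_pole h1
  have e0 : K.E (d 0) (d 1) := a.E 0
  have e1 : K.E (d 1) (d 2) := a.E 1
  have e2 : K.E (d 2) (d 3) := a.E 2
  have e3 : K.E (d 3) (d 4) := a.E 3
  have z2 : D.Z (d 2) := ⟨1, by rw [one_smul, h2]⟩
  have hki : k⁻¹ ∈ D.Hp := D.Hp.inv_mem k1
  have m := main _ (a.smul k⁻¹) (by
    show k⁻¹ • d 2 = _
    rw [h2, D.Hz _ hki]) (by
    show k⁻¹ • d 1 = _
    rw [← k2, inv_smul_smul])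
  have s1 : D.Sd (k⁻¹ • d 1) (k⁻¹ • d 0) ↔ D.Sd (d 1) (d 0) :=
    D.Sd_smul hki (by rw [← h2]; exact e1) e0 (fun w => D.c2' a w z2)
  have s2 : D.Sd (k⁻¹ • d 3) (k⁻¹ • d 4) ↔ D.Sd (d 3) (d 4) :=
    D.Sd_smul hki (by rw [← h2]; exact e2.symm) e3.symm (fun w => D.c2' (a.refl 4) w z2)
  exact s1.symm.trans (m.trans s2)

/-- both sides of a page in a cell -/
theorem Sd_sym (hm : K.Min) {d : Fin 5 → V} {i : K.I} (a : P.At d i) (h2 : d 2 = D.z) :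
    D.Sd (d 1) (d 0) ↔ D.Sd (d 3) (d 4) := by
  have e1 : K.E (d 1) (d 2) := a.E 1
  have e2 : K.E (d 2) (d 3) := a.E 2
  rw [h2] at e1 e2
  rcases e1 with e1 | e1
  · rcases e2 with e2 | e2
    · exact (D.Sd_sym1 hm (a.refl 4) h2 e2).symm
    · rw [D.Sd_in e1, D.Sd_in e2]
      exact D.c5 d i a h2 e1 e2
  · exact D.Sd_sym1 hm a h2 e1

/-- the good half of a page in a cell -/
theorem good (hm : K.Min) {d : Fin 5 → V} {i : K.I} (a : P.At d i) (h2 : D.Z (d 2)) :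
    ∃ k : H, k • D.z = d 2 ∧ D.Sd (k⁻¹ • d 1) (k⁻¹ • d 0) ∧ D.Sd (k⁻¹ • d 3) (k⁻¹ • d 4) := by
  obtain ⟨h, hh⟩ := h2
  have a' := a.smul h⁻¹
  have z2 : h⁻¹ • d 2 = D.z := by rw [← hh, inv_smul_smul]
  have s := D.Sd_sym hm a' z2
  have s : D.Sd (h⁻¹ • d 1) (h⁻¹ • d 0) ↔ D.Sd (h⁻¹ • d 3) (h⁻¹ • d 4) := s
  by_cases hS : D.Sd (h⁻¹ • d 1) (h⁻¹ • d 0)
  · exact ⟨h, hh, hS, s.1 hS⟩
  · have hS' : ¬ D.Sd (h⁻¹ • d 3) (h⁻¹ • d 4) := fun k => hS (s.2 k)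
    refine ⟨h * D.r, by rw [mul_smul, D.rz, hh], ?_, ?_⟩
    · rw [mul_inv_rev, mul_smul, mul_smul]
      refine D.Sd_r ?_ (a'.E 0) (fun w => D.c2' a' w ⟨1, by rw [one_smul]; exact z2.symm⟩) hS
      rw [← z2]
      exact a'.E 1
    · rw [mul_inv_rev, mul_smul, mul_smul]
      refine D.Sd_r ?_ (K.E_smul h⁻¹ (a.E 3)).symm
        (fun w => D.c2' (a'.refl 4) w ⟨1, by rw [one_smul]; exact z2.symm⟩) hS'
      rw [← z2]
      exact (K.E_smul h⁻¹ (a.E 2)).symm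

theorem f5_a : ∀ j : Fin 5, j - 2 + 3 = j + 1 := by decide

theorem f5_b : ∀ j : Fin 5, j - 2 + 4 = j + 2 := by decide

theorem f5_c : ∀ j : Fin 5, j + 1 - 1 = j := by decide

theorem f5_d : ∀ j : Fin 5, j + 2 - 1 = j + 1 := by decide

theorem f5_e : ∀ j : Fin 5, j + 2 - 2 = j := by decide

theorem good' (hm : K.Min) (i : K.I) (j : Fin 5) (h : D.Z (P.pt i j)) :
    ∃ k : H, k • D.z = P.pt i j ∧ D.Sd (k⁻¹ • P.pt i (j - 1)) (k⁻¹ • P.pt i (j - 2)) ∧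
      D.Sd (k⁻¹ • P.pt i (j + 1)) (k⁻¹ • P.pt i (j + 2)) := by
  have h' : D.Z (P.pt i (j - 2 + 2)) := by rwa [f5_7]
  obtain ⟨k, k1, k2, k3⟩ := D.good hm ((P.at_pt i).rot (j - 2)) h'
  rw [f5_7] at k1
  rw [f5_8, add_zero] at k2
  rw [f5_a, f5_b] at k3
  exact ⟨k, k1, k2, k3⟩

open Classical in
/-- the lift of a vertex of a cell -/
noncomputable def c (hm : K.Min) (i : K.I) (j : Fin 5) : V ⊕ (H ⧸ D.Hp) :=
  if h : D.Z (P.pt i j) then Sum.inr ((D.good' hm i j h).choose : H ⧸ D.Hp)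
  else Sum.inl (P.pt i j)

theorem c_not (hm : K.Min) {i : K.I} {j : Fin 5} (h : ¬ D.Z (P.pt i j)) :
    D.c hm i j = Sum.inl (P.pt i j) := dif_neg h

theorem c_Z (hm : K.Min) {i : K.I} {j : Fin 5} (h : D.Z (P.pt i j)) : ∃ k : H,
    D.c hm i j = Sum.inr (k : H ⧸ D.Hp) ∧ k • D.z = P.pt i j ∧
      D.Sd (k⁻¹ • P.pt i (j - 1)) (k⁻¹ • P.pt i (j - 2)) ∧
      D.Sd (k⁻¹ • P.pt i (j + 1)) (k⁻¹ • P.pt i (j + 2)) :=
  ⟨_, dif_pos h, (D.good' hm i j h).choose_spec⟩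

/-- the vertex is not in `Z` if its lift is `inl` -/
theorem c_inl (hm : K.Min) {i : K.I} {j : Fin 5} {n : V} (h : D.c hm i j = Sum.inl n) :
    n = P.pt i j ∧ ¬ D.Z (P.pt i j) := by
  by_cases hZ : D.Z (P.pt i j)
  · obtain ⟨k, k1, -⟩ := D.c_Z hm hZ
    rw [k1] at h
    exact (Sum.inr_ne_inl h).elim
  · rw [D.c_not hm hZ] at h
    exact ⟨(Sum.inl_injective h).symm, hZ⟩

theorem not_ZZ {y y' : V} (h : D.Z y) (h' : D.Z y') : ¬ K.E y y' := by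
  have r := D.rk_Z h
  have r' := D.rk_Z h'
  rintro (e | e)
  · have := K.ar_rk _ _ e
    omega
  · have := K.ar_rk _ _ e
    omega

/-- an edge of a half -/
theorem half_edge {n m : V} {k : H} (e : K.E n (k • D.z)) (h : D.Sd (k⁻¹ • n) (k⁻¹ • m)) :
    spE K D.q D.e (Sum.inl n) (Sum.inr (k : H ⧸ D.Hp)) := by
  rcases e with e | e
  · left
    show K.ar n (D.q (k : H ⧸ D.Hp)) ∧ D.e n (D.q (k : H ⧸ D.Hp)) = (k : H ⧸ D.Hp)
    rw [D.q_mk]
    refine ⟨e, D.e_eq e rfl ?_⟩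
    have e' : K.ar (k⁻¹ • n) D.z := by
      have := K.ar_smul k⁻¹ _ _ e
      rwa [inv_smul_smul] at this
    exact (D.Sd_in e').1 h
  · right
    show K.ar (D.q (k : H ⧸ D.Hp)) n
    rw [D.q_mk]
    exact e

theorem c_E (hm : K.Min) (i : K.I) (j : Fin 5) :
    spE K D.q D.e (D.c hm i j) (D.c hm i (j + 1)) := by
  have e := P.E i j
  by_cases h : D.Z (P.pt i j)
  · have h' : ¬ D.Z (P.pt i (j + 1)) := fun k => D.not_ZZ h k e
    obtain ⟨k, k1, k2, k3, k4⟩ := D.c_Z hm h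
    rw [k1, D.c_not hm h']
    rw [← k2] at e
    exact Or.symm (D.half_edge e.symm k4)
  · rw [D.c_not hm h]
    by_cases h' : D.Z (P.pt i (j + 1))
    · obtain ⟨k, k1, k2, k3, k4⟩ := D.c_Z hm h'
      rw [k1]
      rw [← k2] at e
      rw [f5_c] at k3
      exact D.half_edge e k3
    · rw [D.c_not hm h']
      rcases e with e | e
      · exact Or.inl ⟨e, fun k => h' (D.Z_q.1 k)⟩
      · exact Or.inr ⟨e, fun k => h (D.Z_q.1 k)⟩

/-- the colour of the half and of the vertex on the other side of `w` -/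
theorem half_col {w y n : V} {k : H} (hw : D.W w) (hy : k • D.z = y) (e : K.E w y)
    (hn : K.E n w) (hZ : ¬ D.Z n) (h : D.Sd (k⁻¹ • w) (k⁻¹ • n)) :
    D.p (k : H ⧸ D.Hp) w = D.π n w := by
  have e1 := D.W_pole hw ⟨k, hy⟩ e
  have e2 : K.ar D.z (k⁻¹ • w) := by
    have := K.ar_smul k⁻¹ _ _ e1
    rwa [← hy, inv_smul_smul] at this
  obtain ⟨t, t1, t2⟩ := D.z_pole e2
  have e3 : K.E (k⁻¹ • n) (t • D.v) := by
    rw [t2]
    exact K.E_smul k⁻¹ hn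
  have h3 : D.X (t⁻¹ • k⁻¹ • n) := by
    rw [← t2] at h
    exact (D.Sd_pole t1 e3 (fun k' => hZ ((D.Z_iff k⁻¹ n).1 k'))).1 h
  have h4 : (k * t) • D.v = w := by rw [mul_smul, t2, smul_inv_smul]
  have h5 : ((k * t : H) : H ⧸ D.Hp) = (k : H ⧸ D.Hp) := by
    refine (QuotientGroup.eq.2 ?_).symm
    rw [inv_mul_cancel_left]
    exact t1
  rw [D.p_eq h5 h4, D.π_eq hn hZ h4 (by
    rw [mul_inv_rev, mul_smul]
    exact h3)]

theorem mono (hm : K.Min) (i : K.I) (j : Fin 5) (w : V) (hc : D.c hm i (j + 1) = Sum.inl w)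
    (hw : D.W w) (a b : V)
    (h1 : ∀ n, D.c hm i j = Sum.inl n → (K.ar w n ∧ a = n) ∨ (K.ar n w ∧ a = D.π n w))
    (h2 : ∀ s, D.c hm i j = Sum.inr s → a = D.p s w)
    (h3 : ∀ n, D.c hm i (j + 2) = Sum.inl n → (K.ar w n ∧ b = n) ∨ (K.ar n w ∧ b = D.π n w))
    (h4 : ∀ s, D.c hm i (j + 2) = Sum.inr s → b = D.p s w) : a = b := by
  obtain ⟨rfl, -⟩ := D.c_inl hm hc
  have A : P.At (fun m => P.pt i (j + m)) i := (P.at_pt i).rot j
  have A0 : P.pt i (j + 0) = P.pt i j := by rw [add_zero]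
  have e0 := P.E i j
  have e1 := P.E i (j + 1)
  have g : j + 1 + 1 = j + 2 := by rw [add_assoc]; rfl
  rw [g] at e1
  -- the colour of a vertex not in `Z`
  have col : ∀ (k : Fin 5) (u : V), ¬ D.Z (P.pt i k) → (∀ n, D.c hm i k = Sum.inl n →
      (K.ar (P.pt i (j + 1)) n ∧ u = n) ∨ (K.ar n (P.pt i (j + 1)) ∧ u = D.π n (P.pt i (j + 1)))) →
      u = D.π (P.pt i k) (P.pt i (j + 1)) := by
    intro k u hk hu
    rcases hu _ (D.c_not hm hk) with ⟨u1, u2⟩ | ⟨-, u2⟩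
    · rw [D.π_pole hw u1, u2]
    · exact u2
  by_cases z0 : D.Z (P.pt i j)
  · have z2 : ¬ D.Z (P.pt i (j + 2)) := D.c2' (A.refl 2) hw (by
      show D.Z (P.pt i (j + 0))
      rwa [A0])
    obtain ⟨k, k1, k2, k3, k4⟩ := D.c_Z hm z0
    rw [h2 _ k1, col _ _ z2 h3]
    exact D.half_col hw k2 e0.symm e1.symm z2 k4
  · by_cases z2 : D.Z (P.pt i (j + 2))
    · obtain ⟨k, k1, k2, k3, k4⟩ := D.c_Z hm z2
      rw [f5_d, f5_e] at k3
      rw [h4 _ k1, col _ _ z0 h1]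
      exact (D.half_col hw k2 e1 e0 z0 k3).symm
    · rw [col _ _ z0 h1, col _ _ z2 h3]
      have := D.c1' A hw (by
        show ¬ D.Z (P.pt i (j + 0))
        rwa [A0]) z2
      rwa [A0] at this

/-- the data of the equivariant form -/
noncomputable def pgD (hm : K.Min) : PgD P (H ⧸ D.Hp) where
  q := D.q
  e := D.e
  W := D.W
  ρ := K.rk D.v
  ρ' := K.rk D.x
  ρZ := K.rk D.z
  π := D.π
  p := D.p
  q_smul h s := by
    obtain ⟨k, rfl⟩ := QuotientGroup.mk_surjective s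
    show D.q ((h * k : H) : H ⧸ D.Hp) = _
    rw [D.q_mk, D.q_mk, mul_smul]
  e_smul h n s hn := D.e_smul h (D.Z_q.1 ⟨s, rfl⟩) hn
  q_e n s hn := D.q_e (D.Z_q.1 ⟨s, rfl⟩) hn
  rkZ s := D.rk_Z (D.Z_q.1 ⟨s, rfl⟩)
  rkW w hw := D.rk_W hw
  ltZ := D.rk_lt
  W_smul := by
    rintro h w ⟨k, rfl⟩
    exact ⟨h * k, mul_smul _ _ _⟩
  π_smul h n w hw hn hZ := by
    have hZ' : ¬ D.Z n := fun k => hZ (D.Z_q.2 k)
    obtain ⟨k, k1, k2⟩ := D.π_ex hw (Or.inl hn) hZ'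
    rw [D.π_eq (Or.inl hn) hZ' k1 k2, D.π_eq (k := h * k) (Or.inl (K.ar_smul h _ _ hn))
      (fun k' => hZ' ((D.Z_iff h n).1 k')) (by rw [mul_smul, k1]) (by
        rw [mul_inv_rev, mul_smul, inv_smul_smul]
        exact k2), mul_smul]
  π_ar n w hw hn hZ := by
    have hZ' : ¬ D.Z n := fun k => hZ (D.Z_q.2 k)
    obtain ⟨k, k1, k2⟩ := D.π_ex hw (Or.inl hn) hZ'
    rw [D.π_eq (Or.inl hn) hZ' k1 k2, ← k1]
    exact K.ar_smul k _ _ D.vx
  π_rk n w hw hn hZ := by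
    have hZ' : ¬ D.Z n := fun k => hZ (D.Z_q.2 k)
    obtain ⟨k, k1, k2⟩ := D.π_ex hw (Or.inl hn) hZ'
    rw [D.π_eq (Or.inl hn) hZ' k1 k2, K.rk_smul]
  p_smul h s w hw hs := by
    obtain ⟨k, k1, k2⟩ := D.q_pole hs
    rw [D.p_eq k1 k2, D.p_eq (k := h * k) (by rw [← k1]; rfl) (by rw [mul_smul, k2]), mul_smul]
  p_ar s w hw hs := by
    obtain ⟨k, k1, k2⟩ := D.q_pole hs
    rw [D.p_eq k1 k2, ← k2]
    exact K.ar_smul k _ _ D.vx
  p_rk s w hw hs := by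
    obtain ⟨k, k1, k2⟩ := D.q_pole hs
    rw [D.p_eq k1 k2, K.rk_smul]
  fin := by
    rw [FinOrb_iff]
    refine ⟨{((1 : H) : H ⧸ D.Hp)}, Set.finite_singleton _, Set.subset_univ _, ?_⟩
    intro s _
    obtain ⟨g, rfl⟩ := QuotientGroup.mk_surjective s
    refine ⟨_, rfl, g, ?_⟩
    change ((g * 1 : H) : H ⧸ D.Hp) = _
    rw [mul_one]
  stab s := InC_quot (SAG.InC.mono (A := D.Hp) (B := stabilizer H D.z)
    (fun h hh => D.Hz h hh) (K.stab D.z)) s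
  J := Unit
  finJ := inferInstance
  js _ := ((1 : H) : H ⧸ D.Hp)
  jp _ := D.v
  jar _ := by
    rw [D.q_mk, one_smul]
    exact D.zv
  cov s w hs := by
    obtain ⟨k, k1, k2⟩ := D.q_pole hs
    refine ⟨(), k, ?_, k2⟩
    rw [← k1]
    show ((k * 1 : H) : H ⧸ D.Hp) = _
    rw [mul_one]
  c := D.c hm
  c_pr i j := by
    by_cases h : D.Z (P.pt i j)
    · obtain ⟨k, k1, k2, -⟩ := D.c_Z hm h
      rw [k1]
      show D.q (k : H ⧸ D.Hp) = _
      rw [D.q_mk, k2]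
    · rw [D.c_not hm h]
      rfl
  c_E := D.c_E hm
  c_Z i j n h k := by
    obtain ⟨rfl, k1⟩ := D.c_inl hm h
    exact k1 (D.Z_q.1 k)
  mono := D.mono hm

/-- the two poles of `v` are not the neighbours in a corner at `v` -/
theorem no_direct (hm : K.Min) {d : Fin 5 → V} {i : K.I} (a : P.At d i) (hw : D.W (d 1))
    (h0 : K.ar (d 1) (d 0)) (h2 : K.ar (d 1) (d 2)) : False := by
  have := D.c1' a hw (D.pole_not_Z hw h0) (D.pole_not_Z hw h2)
  rw [D.π_pole hw h0, D.π_pole hw h2] at this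
  exact a.ne2 hm 0 this

/-- THE PAGE SURGERY: at most one corner with the leg `v x` -/
theorem lam_le (hm : K.Min) : K.cr.lam H D.v D.x ≤ 1 := by
  classical
  let _ : Fintype (D.pgD hm).J := (inferInstance : Fintype Unit)
  have h := (D.pgD hm).lam_sum hm
  have h1 : (Fintype.card (D.pgD hm).J : ℤ) = 1 := rfl
  have h2 : (K.cr.lam H D.v D.x : ℤ) = K.cr.cs (fun x y z =>
      (if Tr H D.v D.x y x then 1 else 0) + (if Tr H D.v D.x y z then 1 else 0)) := by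
    rw [K.lam_bot D.vx]
    push_cast
    rw [K.cr.cn_eq, K.cr.cn_eq, ← Cr.cs_add]
  have h4 : ∀ i j, ((if Tr H D.v D.x (P.pt i (j + 1)) (P.pt i j) then (1 : ℤ) else 0) +
      (if Tr H D.v D.x (P.pt i (j + 1)) (P.pt i (j + 2)) then 1 else 0)) ≤
      if (D.pgD hm).Lam i j then 1 else 0 := by
    intro i j
    have key : ∀ y w : V, Tr H D.v D.x w y → D.W w ∧ K.ar w y := by
      rintro y w ⟨k, rfl, rfl⟩
      exact ⟨⟨k, rfl⟩, K.ar_smul k _ _ D.vx⟩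
    by_cases a : Tr H D.v D.x (P.pt i (j + 1)) (P.pt i j)
    · obtain ⟨a1, a2⟩ := key _ _ a
      by_cases b : Tr H D.v D.x (P.pt i (j + 1)) (P.pt i (j + 2))
      · exfalso
        obtain ⟨b1, b2⟩ := key _ _ b
        refine D.no_direct hm ((P.at_pt i).rot j) a1 ?_ b2
        show K.ar (P.pt i (j + 1)) (P.pt i (j + 0))
        rwa [add_zero]
      · have hL : (D.pgD hm).Lam i j := ⟨a1, Or.inl a2⟩
        rw [if_pos a, if_neg b, if_pos hL]
        norm_num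
    · by_cases b : Tr H D.v D.x (P.pt i (j + 1)) (P.pt i (j + 2))
      · obtain ⟨b1, b2⟩ := key _ _ b
        have hL : (D.pgD hm).Lam i j := ⟨b1, Or.inr b2⟩
        rw [if_neg a, if_pos b, if_pos hL]
        norm_num
      · rw [if_neg a, if_neg b]
        split_ifs <;> norm_num
  have h5 := (Finset.sum_le_sum fun i (_ : i ∈ (Finset.univ : Finset K.I)) =>
    Finset.sum_le_sum fun j (_ : j ∈ (Finset.univ : Finset (Fin 5))) => h4 i j).trans h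
  rw [h1] at h5
  rw [P.cs_eq] at h2
  have h6 : (K.cr.lam H D.v D.x : ℤ) ≤ 1 := by
    rw [h2]
    exact h5
  exact_mod_cast h6

end Page

end Pool.Agent.DI
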