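import Pool.Agent.DI.Ph2
import Pool.Agent.DI.Xt0

/-!
# Thin direct arrows: pentagons and squares

`S.PhP y a b c d`, `S.PhQ y a b d`: the arrow `y → a` is direct and passed by one orbit of flags, of the
pentagon `y, a, b, c, d` (resp. of the square `y, a, b, d`). `PhP.av`: the level is the centre of the
pentagon. `PhQ.av`: the level is the place of `y, d`; `d` is a side or the top of the square.
-/

namespace Pool.Agent.DI

open MulAction
open Pool.Agent.SAF (InC orbs FinOrb oc Decomp SAn SA Conv hull dist_edge FinOrb_iff exists_next)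
open Pool.Agent.BT (PX PQ JS bey exits x_next_unique)
open Pool.Agent.BT.TA

namespace SyQ

variable {H V : Type} [Group H] [MulAction H V] (S : SyQ H V)

/-- a direct arrow passed by one orbit of flags, of a pentagon -/
structure PhP (y a b c d : V) : Prop where
  ar : S.K.ar y a
  q : Qn S.P y a b c d
  th : ∀ b' c' d', Qn S.P y a b' c' d' →
    ∃ g : H, g • y = y ∧ g • a = a ∧ g • b = b' ∧ g • c = c' ∧ g • d = d'
  no4 : ∀ b' c', ¬ Q4 S.P y a b' c'
  dr : Dr S.K y a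

/-- a direct arrow passed by one orbit of flags, of a square -/
structure PhQ (y a b d : V) : Prop where
  ar : S.K.ar y a
  q : Q4 S.P y a b d
  th : ∀ b' d', Q4 S.P y a b' d' → ∃ g : H, g • y = y ∧ g • a = a ∧ g • b = b' ∧ g • d = d'
  no5 : ∀ b' c' d', ¬ Qn S.P y a b' c' d'
  dr : Dr S.K y a
  dy : S.K.ar d y

variable {S}

namespace PhP

variable {y a b c d : V} (A : S.PhP y a b c d)

include A

theorem au : S.Au y a b d where
  ar := A.ar
  Eab := A.q.E2
  Edy := A.q.E5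
  cor_y m h := by
    rcases P45.cor_cases (P := S.P) h with ⟨b', c', h⟩ | ⟨b', h⟩
    · obtain ⟨g, g1, g2, -, -, g5⟩ := A.th _ _ _ h.rot
      exact ⟨g, g1, g2, g5⟩
    · exact absurd h.rot (A.no4 _ _)
  cor_a m h := by
    rcases P45.cor_cases (P := S.P) h with ⟨b', c', h⟩ | ⟨b', h⟩
    · obtain ⟨g, g1, g2, g3, -, -⟩ := A.th _ _ _ h
      exact ⟨g, g1, g2, g3⟩
    · exact absurd h (A.no4 _ _)
  dr := A.dr

/-- `y` is over the centre -/
theorem near (ts : S.PTSA) (d0 : S.PD0) (ln : S.PLine) {w : S.X} (hI : S.IsC ![y, a, b, c, d] w) :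
    w ∈ S.J y := by
  by_contra hwy
  have c0 : w ∈ S.J y ∨ w ∈ S.J a := hI 0
  have c1 : w ∈ S.J a ∨ w ∈ S.J b := hI 1
  have c2 : w ∈ S.J b ∨ w ∈ S.J c := hI 2
  have c4 : w ∈ S.J d ∨ w ∈ S.J y := hI 4
  have hwa : w ∈ S.J a := c0.resolve_left hwy
  have hwd : w ∈ S.J d := c4.resolve_right hwy
  have hu := S.dir_adj hwy
  have hyu := S.dir_bey hwy
  set u := S.dir w y with hudef
  have hua : u ∈ S.J a := S.dir_cross (Or.inr A.ar) hwa hwy
  have hud : u ∈ S.J d := S.dir_cross A.q.E5 hwd hwy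
  obtain ⟨p, p0, p1⟩ := S.one_ex (Or.inl A.ar)
  have hpu : p ∈ bey S.D.G w u := hyu p0
  have hpw : p ≠ w := by
    rintro rfl
    exact hwy p0
  obtain ⟨e, e1, e2, e3⟩ := ph_nbr p1 hwa hpw
  -- `b` is on the side of `w` of `p e`
  have hb : S.J b ⊆ bey S.D.G p e := by
    have hnb : ¬ S.Cs p e b := fun k => S.not_both e1 A.q.E2 ⟨p1, e2⟩ k
    by_cases hwb : w ∈ S.J b
    · exact S.side_of e1 hnb hwb e3
    · have hwc : w ∈ S.J c := c2.resolve_left hwb
      have hcb : S.dir w b ∈ S.J c := S.dir_cross A.q.E3.symm hwc hwb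
      have hne : S.dir w b ≠ u := by
        intro k
        rw [k] at hcb
        exact S.not_both hu A.q.E4 ⟨hwc, hcb⟩ ⟨hwd, hud⟩
      obtain ⟨z, hz⟩ := S.js.ne b
      have hz1 : z ∈ bey S.D.G u w := by
        rcases bey_or S.D.tree hu z with k | k
        · exact absurd (S.bey_unique (S.dir_adj hwb) hu (S.dir_bey hwb hz) k) hne
        · exact k
      exact S.side_of e1 hnb hz (ph_side S.D.tree hu hpu e1 e3 hz1)
  exact A.au.stay ts d0 ln p0 p1 e1 e2 hb

/-- the place of `d` is on the side of `w`, if `a` is beyond `u` -/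
theorem place_d {w : S.X} (hI : S.IsC ![y, a, b, c, d] w) {u : S.X} (hw : w ∈ S.J y)
    (hu : S.D.G.Adj w u) (ha : S.J a ⊆ bey S.D.G w u)
    {q : S.X} (hq : q ∈ S.J d) (hq' : q ∈ S.J y) : q ∈ bey S.D.G u w := by
  have c1 : w ∈ S.J a ∨ w ∈ S.J b := hI 1
  have c3 : w ∈ S.J c ∨ w ∈ S.J d := hI 3
  have hwa : w ∉ S.J a := S.not_mem_of_bey hu ha
  have hwb : w ∈ S.J b := c1.resolve_left hwa
  have hub : u ∈ S.J b := by
    have := S.dir_cross A.q.E2.symm hwb hwa
    rwa [S.dir_eq hu ha] at this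
  by_cases hwd : w ∈ S.J d
  · have e : q = w := S.one_eq A.q.E5 hq hq' hwd hw
    rw [e]
    exact bey_self hu.symm
  · have hwc : w ∈ S.J c := c3.resolve_right hwd
    have hcd : S.dir w d ∈ S.J c := S.dir_cross A.q.E4 hwc hwd
    have hne : S.dir w d ≠ u := by
      intro e
      rw [e] at hcd
      exact S.not_both hu A.q.E3 ⟨hwb, hub⟩ ⟨hwc, hcd⟩
    rcases bey_or S.D.tree hu q with k | k
    · exact absurd (S.bey_unique (S.dir_adj hwd) hu (S.dir_bey hwd hq) k) hne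
    · exact k

/-- translates of the pentagon with the same edge are centred at `w` -/
theorem cen_of {w : S.X} (hI : S.IsC ![y, a, b, c, d] w) (hw : w ∈ S.J y) {b' c' d' : V}
    (h : Qn S.P y a b' c' d') : S.IsC ![y, a, b', c', d'] w := by
  obtain ⟨g, g1, g2, g3, g4, g5⟩ := A.th _ _ _ h
  have gw := ph_fix A.ar g1 g2 w hw
  have c0 : w ∈ S.J y ∨ w ∈ S.J a := hI 0
  have c1 : w ∈ S.J a ∨ w ∈ S.J b := hI 1
  have c2 : w ∈ S.J b ∨ w ∈ S.J c := hI 2
  have c3 : w ∈ S.J c ∨ w ∈ S.J d := hI 3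
  have c4 : w ∈ S.J d ∨ w ∈ S.J y := hI 4
  have key : ∀ z z', g • z = z' → w ∈ S.J z → w ∈ S.J z' := by
    intro z z' e hz
    have := S.js.smul g z w hz
    rwa [gw, e] at this
  intro k
  fin_cases k
  · exact c0
  · exact c1.imp id (key _ _ g3)
  · exact c2.imp (key _ _ g3) (key _ _ g4)
  · exact c3.imp (key _ _ g4) (key _ _ g5)
  · exact c4.imp (key _ _ g5) id

/-- two adjacent far vertices are not in a centred pentagon -/
theorem no_far {w u : S.X} (hu : S.D.G.Adj w u) {x z : V} (hx : S.J x ⊆ bey S.D.G w u)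
    (hz : S.J z ⊆ bey S.D.G w u) (h : w ∈ S.J x ∨ w ∈ S.J z) : False := by
  rcases h with h | h
  · exact S.not_mem_of_bey hu hx h
  · exact S.not_mem_of_bey hu hz h

/-- THE LEVEL is the centre -/
theorem av (ts : S.PTSA) (d0 : S.PD0) (ln : S.PLine) {w : S.X} (O : S.OR w)
    (hI : S.IsC ![y, a, b, c, d] w) : S.Av w O y a b d where
  toAu := A.au
  wy := A.near ts d0 ln hI
  pd u hu ha q hq hq' := A.place_d hI (A.near ts d0 ln hI) hu ha hq hq'
  zq u q x' h := by
    have hw := A.near ts d0 ln hI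
    have hu := h.adj
    obtain ⟨-, -, -, -, hcell⟩ := h
    left
    rcases hcell with ⟨s, z, hp, hs, hz⟩ | ⟨s, hp, hs⟩
    · refine ⟨z, hp.E5, hz, ?_, ?_⟩
      · intro e
        rw [e] at hp hz
        have hc := A.cen_of hI hw hp.rev
        exact A.no_far hu hz hs (hc 1)
      · intro e
        rw [e] at hp
        have hc := A.cen_of hI hw hp
        exact A.no_far hu hs hz (hc 3)
    · refine ⟨s, hp.E4, hs, ?_, ?_⟩
      · intro e
        rw [e] at hp
        exact A.no4 _ _ hp.rev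
      · intro e
        rw [e] at hp
        exact A.no4 _ _ hp
  z0 u c' h := by
    have hw := A.near ts d0 ln hI
    obtain ⟨hu, -, -, -, ⟨s, z, hq, hs, hz⟩ | ⟨s, hq, -⟩⟩ := h
    · have hc := A.cen_of hI hw hq.symm.rot
      exact A.no_far hu hz hs (hc 2)
    · exact A.no4 _ _ hq.symm.rot

end PhP

variable (S)

/-- the stars over the tops and the sides of the squares which are not bare are open -/
def OTS (w : S.X) (O : S.OR w) : Prop := ∀ T a b y, S.P.Top T a b y → S.K.ar a y → ∀ u,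
  S.D.G.Adj w u → (w ∈ S.J T → O.op u T) ∧ (w ∈ S.J a → O.op u a)

variable {S}

/-- every walk has a top -/
theorem _root_.Pool.Agent.DI.Q4.ph_top {K : GX H V} {P : P45 K} (ht : ∀ i, P.sq i → ∃ j, P.tp i j)
    {a q b y : V} (h : Q4 P a q b y) :
    P.Top a q y b ∨ P.Top q b a y ∨ P.Top b y q a ∨ P.Top y a b q := by
  -- a walk with a top at one of its vertices
  have key : ∀ {a q b y : V} (g : H) (i : K.I) (j m : Fin 4), P.sq i → P.tp i (j + m) →
      (a = g • P.qt i j ∧ q = g • P.qt i (j + 1) ∧ b = g • P.qt i (j + 2) ∧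
      y = g • P.qt i (j + 3)) → P.Top a q y b ∨ P.Top q b a y ∨ P.Top b y q a ∨ P.Top y a b q := by
    rintro a q b y g i j m hi ⟨t1, t2⟩ ⟨e1, e2, e3, e4⟩
    have hq := Q4_qt (P := P) g hi j
    rw [← e1, ← e2, ← e3, ← e4] at hq
    have s1 : ∀ j : Fin 4, j + 1 + 1 = j + 2 := by decide
    have s3 : ∀ j : Fin 4, j + 1 + 3 = j := by decide
    have s4 : ∀ j : Fin 4, j + 2 + 1 = j + 3 := by decide
    have s6 : ∀ j : Fin 4, j + 2 + 3 = j + 1 := by decide
    have s7 : ∀ j : Fin 4, j + 3 + 1 = j := by decide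
    have s9 : ∀ j : Fin 4, j + 3 + 3 = j + 2 := by decide
    have t1' := K.ar_smul g _ _ t1
    have t2' := K.ar_smul g _ _ t2
    fin_cases m
    · left
      have u1 : K.ar (g • P.qt i (j + 0)) (g • P.qt i (j + 0 + 1)) := t1'
      have u2 : K.ar (g • P.qt i (j + 0)) (g • P.qt i (j + 0 + 3)) := t2'
      rw [add_zero, ← e1, ← e2] at u1
      rw [add_zero, ← e1, ← e4] at u2
      exact ⟨hq.symm.rot, u1, u2⟩
    · right; left
      have u1 : K.ar (g • P.qt i (j + 1)) (g • P.qt i (j + 1 + 1)) := t1'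
      have u2 : K.ar (g • P.qt i (j + 1)) (g • P.qt i (j + 1 + 3)) := t2'
      rw [s1, ← e2, ← e3] at u1
      rw [s3, ← e2, ← e1] at u2
      exact ⟨hq.symm, u1, u2⟩
    · right; right; left
      have u1 : K.ar (g • P.qt i (j + 2)) (g • P.qt i (j + 2 + 1)) := t1'
      have u2 : K.ar (g • P.qt i (j + 2)) (g • P.qt i (j + 2 + 3)) := t2'
      rw [s4, ← e3, ← e4] at u1
      rw [s6, ← e3, ← e2] at u2
      exact ⟨hq.rot.symm, u1, u2⟩
    · right; right; right
      have u1 : K.ar (g • P.qt i (j + 3)) (g • P.qt i (j + 3 + 1)) := t1'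
      have u2 : K.ar (g • P.qt i (j + 3)) (g • P.qt i (j + 3 + 3)) := t2'
      rw [s7, ← e4, ← e1] at u1
      rw [s9, ← e4, ← e3] at u2
      exact ⟨hq.rot.rot.symm, u1, u2⟩
  obtain ⟨g, i, j, hi, h⟩ := h
  obtain ⟨k, hk⟩ := ht i hi
  obtain ⟨m, rfl⟩ : ∃ m, k = j + m := ⟨k - j, (add_sub_cancel j k).symm⟩
  rcases h with h | ⟨h1, h2, h3, h4⟩
  · exact key g i j m hi hk h
  · rcases key g i j m hi hk ⟨h1, h2, h3, h4⟩ with k | k | k | k
    · exact Or.inr (Or.inr (Or.inl k.symm'))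
    · exact Or.inr (Or.inl k.symm')
    · exact Or.inl k.symm'
    · exact Or.inr (Or.inr (Or.inr k.symm'))

namespace PhQ

variable {y a b d : V} (A : S.PhQ y a b d)

include A

theorem au : S.Au y a b d where
  ar := A.ar
  Eab := A.q.E2
  Edy := A.q.E4
  cor_y m h := by
    rcases P45.cor_cases (P := S.P) h with ⟨b', c', h⟩ | ⟨b', h⟩
    · exact absurd h.rot (A.no5 _ _ _)
    · obtain ⟨g, g1, g2, -, g4⟩ := A.th _ _ h.rot
      exact ⟨g, g1, g2, g4⟩
  cor_a m h := by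
    rcases P45.cor_cases (P := S.P) h with ⟨b', c', h⟩ | ⟨b', h⟩
    · exact absurd h (A.no5 _ _ _)
    · obtain ⟨g, g1, g2, g3, -⟩ := A.th _ _ h
      exact ⟨g, g1, g2, g3⟩
  dr := A.dr

/-- `d` is the top or a side -/
theorem top_d (ht : ∀ i, S.P.sq i → ∃ j, S.P.tp i j) :
    S.P.Top d y b a ∨ S.P.Top b d a y := by
  rcases A.q.ph_top ht with k | k | k | k
  · exfalso
    have r1 := S.K.ar_rk _ _ A.dy
    have r2 := S.K.ar_rk _ _ k.2.2
    omega
  · exfalso
    have r1 := S.K.ar_rk _ _ A.ar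
    have r2 := S.K.ar_rk _ _ k.2.2
    omega
  · exact Or.inr k
  · exact Or.inl k

theorem op_d (ht : ∀ i, S.P.sq i → ∃ j, S.P.tp i j) {w : S.X} {O : S.OR w} (ho : S.OTS w O)
    {g : H} {u : S.X} (hu : S.D.G.Adj w u) (hw : w ∈ S.J (g • d)) : O.op u (g • d) := by
  rcases A.top_d ht with k | k
  · exact (ho _ _ _ _ (k.smul g) (S.K.ar_smul g _ _ A.ar) u hu).1 hw
  · exact (ho _ _ _ _ (k.smul g) (S.K.ar_smul g _ _ A.dy) u hu).2 hw

/-- `b` is over the level -/
theorem wb (ts : S.PTSA) (d0 : S.PD0) (ln : S.PLine) {w : S.X} (h1 : w ∈ S.J y) (h2 : w ∈ S.J d) :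
    w ∈ S.J b := by
  by_contra hwb
  obtain ⟨p, p0, p1⟩ := S.one_ex (Or.inl A.ar)
  have hpb := A.au.over_b ts d0 ln p0 p1
  have e1 := S.dir_adj hwb
  have e2 := S.dir_cross A.q.E3.symm h2 hwb
  have e3 : S.dir w b ∈ S.J y :=
    (conv_cr S.D.tree (S.js.conv y) e1 h1 p0 (bey_self e1.symm) (S.dir_bey hwb hpb)).2
  exact e1.ne (S.one_eq A.q.E4 h2 h1 e2 e3)

/-- THE LEVEL is the place of `y, d` -/
theorem av (ht : ∀ i, S.P.sq i → ∃ j, S.P.tp i j) (ts : S.PTSA) (d0 : S.PD0) (ln : S.PLine)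
    {w : S.X} {O : S.OR w} (ho : S.OTS w O) (h1 : w ∈ S.J y) (h2 : w ∈ S.J d) :
    S.Av w O y a b d where
  toAu := A.au
  wy := h1
  pd u hu ha q hq hq' := by
    rw [S.one_eq A.q.E4 hq hq' h2 h1]
    exact bey_self hu.symm
  zq u q x' h := by
    have hu := h.adj
    obtain ⟨-, -, -, -, hcell⟩ := h
    have key : ∀ g : H, g • y = y → g • a = a → w ∈ S.J (g • d) := by
      intro g g1 g2
      have := S.js.smul g _ _ h2
      rwa [ph_fix A.ar g1 g2 w h1] at this
    rcases hcell with ⟨s, z, hp, hs, hz⟩ | ⟨s, hp, hs⟩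
    · left
      refine ⟨z, hp.E5, hz, ?_, ?_⟩
      · intro e
        rw [e] at hp
        exact A.no5 _ _ _ hp.rev
      · intro e
        rw [e] at hp
        exact A.no5 _ _ _ hp
    · by_cases e : s = a
      · right
        rw [e] at hp hs
        obtain ⟨g, g1, g2, g3, g4⟩ := A.th _ _ hp.rev
        have hq := key g g1 g2
        have ho' := A.op_d ht ho (g := g) hu hq
        have hd := S.K.ar_smul g _ _ A.dy
        rw [g4] at hq ho' hd
        rw [g1] at hd
        exact ⟨hs, hd, hq, ho'⟩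
      · left
        refine ⟨s, hp.E4, hs, e, ?_⟩
        intro e'
        rw [e'] at hp
        obtain ⟨g, g1, g2, g3, g4⟩ := A.th _ _ hp
        have hq := key g g1 g2
        rw [g4] at hq
        exact S.not_mem_of_bey hu hs hq
  z0 u c' h := by
    obtain ⟨hu, -, -, -, ⟨s, z, hq, hs, hz⟩ | ⟨s, hq, hs⟩⟩ := h
    · exact A.no5 _ _ _ hq.symm.rot
    · obtain ⟨g, g1, g2, g3, -⟩ := A.th _ _ hq.symm.rot
      have h3 := S.js.smul g _ _ (A.wb ts d0 ln h1 h2)
      rw [ph_fix A.ar g1 g2 w h1, g3] at h3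
      exact S.not_mem_of_bey hu hs h3

/-- at the level `a` is over it or beyond an edge crossed by `y` and `b` -/
theorem cs_b (ts : S.PTSA) (d0 : S.PD0) (ln : S.PLine) {w u : S.X} (h1 : w ∈ S.J y)
    (h2 : w ∈ S.J d) (hu : S.D.G.Adj w u) (ha : S.J a ⊆ bey S.D.G w u) : S.Cs w u b := by
  have hwa : w ∉ S.J a := S.not_mem_of_bey hu ha
  have hb := A.wb ts d0 ln h1 h2
  have := S.dir_cross A.q.E2.symm hb hwa
  rw [S.dir_eq hu ha] at this
  exact ⟨hb, this⟩

end PhQ

end SyQ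

end Pool.Agent.DI
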