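import Pool.Agent.DI.Ph3

/-!
# Thin direct arrows: the class of `y` and the key claim

`S.Hx w v O x`: zero squares at `x` have hubs `q → x` over `w` and are over `w v` or in an open star, `x` is
no hub of a diamond. `S.Xc`: the members of the class of such a vertex. `Av.hx`. `Av.key`: an edge of the
slice with image `[y] [a]` is `y a`.
-/

namespace Pool.Agent.DI

open MulAction
open Pool.Agent.SAF (InC orbs FinOrb oc Decomp SAn SA Conv hull dist_edge FinOrb_iff exists_next)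
open Pool.Agent.BT (PX PQ JS bey exits x_next_unique)
open Pool.Agent.BT.TA

namespace SyQ

variable {H V : Type} [Group H] [MulAction H V] (S : SyQ H V)

/-- the openness depends only on the hub -/
def ON2 (w : S.X) (O : S.OR w) : Prop := ∀ u u' q, O.op u q → S.D.G.Adj w u' → O.op u' q

/-- `x` is only in closed zero squares over `w v` and in open ones, with `q → x`, and is no hub of a
diamond -/
structure Hx (w v : S.X) (O : S.OR w) (x : V) : Prop where
  mem : w ∈ S.J x
  h1 : ∀ u q x', S.Qs w u q x x' → S.K.ar q x ∧ w ∈ S.J q ∧ (u = v ∨ O.op u q)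
  h2 : ∀ u, ¬ S.Dia w u x

/-- the members of the class of `x0` -/
inductive Xc (w v : S.X) (O : S.OR w) (x0 : V) : V → Prop
  | base : Xc w v O x0 x0
  | step (z q x : V) : Xc w v O x0 z → S.K.ar x q → S.K.ar q z → w ∈ S.J q → S.Cs w v x →
      S.D.G.Adj w v → S.Gc w v q z x → ¬ S.SD w v q → ¬ O.op v q → Xc w v O x0 x

variable {S}

theorem Av.hx {w : S.X} {O : S.OR w} {y a b d : V} (A : S.Av w O y a b d) (ts : S.PTSA) :
    ∃ v, S.Hx w v O y ∧ ∀ q c, S.Qs w v q y c → ¬ O.op v q → ¬ S.J a ⊆ bey S.D.G w v := by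
  have last : ∀ v q c, S.Qs w v q y c → ¬ O.op v q → ¬ S.J a ⊆ bey S.D.G w v :=
    fun v q c h1 h2 => (A.zs ts h1).2.2.resolve_right h2
  by_cases h : ∃ u q x', S.Qs w u q y x' ∧ ¬ S.J a ⊆ bey S.D.G w u
  · obtain ⟨u, q, x', h, hn⟩ := h
    refine ⟨u, ⟨A.wy, fun u' q' x'' h' => ?_, fun u' k => A.not_dia k⟩, last u⟩
    obtain ⟨h1, h2, h3⟩ := A.zs ts h'
    exact ⟨h1, h2, h3.imp (fun k => A.zs_unique h' h k hn) id⟩
  · push Not at h
    refine ⟨w, ⟨A.wy, fun u' q' x'' h' => ?_, fun u' k => A.not_dia k⟩, last w⟩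
    obtain ⟨h1, h2, h3⟩ := A.zs ts h'
    exact ⟨h1, h2, Or.inr (h3.resolve_left (fun k => k (h _ _ _ h')))⟩

theorem Qs.gc {w u : S.X} {q x x' : V} (h : S.Qs w u q x x') : S.Gc w u q x x' :=
  Relation.EqvGen.rel _ _ h

/-- a non-trivial component path gives a zero square -/
theorem Gc.qs {w u : S.X} {q x x' : V} (h : S.Gc w u q x x') (hne : x ≠ x') :
    ∃ c, S.Qs w u q x c := by
  rcases h.cases with e | ⟨h, -⟩
  · exact absurd e hne
  · exact h

/-- a diamond which is not simple has a second edge -/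
theorem Dia.snd {w u : S.X} {q : V} (h : S.Dia w u q) (hn : ¬ S.SD w u q) :
    ∃ u', S.Dia w u' q ∧ u' ≠ u := by
  by_contra hcon
  push Not at hcon
  exact hn ⟨h, hcon⟩

/-- the zero squares at a pole of the hub of a diamond -/
theorem Dia.qs {w u : S.X} {q : V} (h : S.Dia w u q) {p : V} (hp : S.K.ar q p) :
    ∃ c, S.Qs w u q p c := by
  obtain ⟨hw, a, b, hne, ha, hb, hg⟩ := h
  rcases S.K.two q a b p ha hb hp with e | e | e
  · exact absurd e hne
  · rw [← e]
    exact hg.symm'.qs hne.symm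
  · rw [← e]
    exact hg.qs hne

namespace Xc

variable {w v : S.X} {O : S.OR w} {x0 x : V}

theorem fq (h : S.Xc w v O x0 x) : S.fq w O (S.rho w x) = S.fq w O (S.rho w x0) := by
  induction h with
  | base => rfl
  | step z q x h h1 h2 h3 h4 h5 h6 h7 h8 ih => exact (h6.fq h7 h8).symm.trans ih

theorem mem (h : S.Xc w v O x0 x) (hx : w ∈ S.J x0) : w ∈ S.J x := by
  cases h with
  | base => exact hx
  | step z q x h h1 h2 h3 h4 h5 h6 h7 h8 => exact h4.1

theorem rk_le (h : S.Xc w v O x0 x) : S.K.rk x0 ≤ S.K.rk x := by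
  induction h with
  | base => exact le_rfl
  | step z q x h h1 h2 h3 h4 h5 h6 h7 h8 ih =>
    have k1 := S.K.ar_rk _ _ h1
    have k2 := S.K.ar_rk _ _ h2
    omega

theorem ne_rk {z q x : V} (h1 : S.K.ar x q) (h2 : S.K.ar q z) : z ≠ x := by
  rintro rfl
  have k1 := S.K.ar_rk _ _ h1
  have k2 := S.K.ar_rk _ _ h2
  omega

/-- if there is another member, then there is a closed zero square at `x0` -/
theorem ex0 (h : S.Xc w v O x0 x) (hne : x ≠ x0) : ∃ q c, S.Qs w v q x0 c ∧ ¬ O.op v q := by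
  induction h with
  | base => exact absurd rfl hne
  | step z q x h h1 h2 h3 h4 h5 h6 h7 h8 ih =>
    by_cases e : z = x0
    · rw [e] at h6 h2
      obtain ⟨c, hc⟩ := h6.qs (ne_rk h1 h2)
      exact ⟨q, c, hc, h8⟩
    · exact ih e

/-- the exits of the other members -/
theorem exits (h : S.Xc w v O x0 x) (hne : x ≠ x0) : ∃ q, S.K.ar x q ∧ w ∈ S.J q ∧
    S.D.G.Adj w v ∧ S.Cs w v x := by
  cases h with
  | base => exact absurd rfl hne
  | step z q x h h1 h2 h3 h4 h5 h6 h7 h8 => exact ⟨q, h1, h3, h5, h4⟩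

/-- another member crosses only the edge `w v` -/
theorem only (h : S.Xc w v O x0 x) (hne : x ≠ x0) {u : S.X} (hu : S.D.G.Adj w u)
    (c : u ∈ S.J x) : u = v := by
  obtain ⟨q, h1, h2, h3, h4⟩ := h.exits hne
  exact ar_cs_eq h4.1 h1 h2 hu h3 c h4.2

/-- `J x` is on one side of `w` for another member -/
theorem side (h : S.Xc w v O x0 x) (hne : x ≠ x0) {r : S.X} (hr : r ∈ S.J x)
    (hb : r ∈ bey S.D.G v w) : r = w := by
  by_contra e
  obtain ⟨q, h1, h2, h3, h4⟩ := h.exits hne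
  obtain ⟨t, t1, t2, t3⟩ := ph_nbr h4.1 hr (fun k => e k.symm)
  have := h.only hne t1 t2
  rw [this] at t3
  exact bey_not t3 hb

end Xc

/-- zero squares at a member -/
theorem Xc.zs {w v : S.X} {O : S.OR w} {x0 x : V} (h : S.Xc w v O x0 x) (hx : S.Hx w v O x0)
    {u : S.X} {q x' : V} (k : S.Qs w u q x x') : w ∈ S.J q ∧ (u = v ∨ (x = x0 ∧ O.op u q)) := by
  by_cases hne : x = x0
  · rw [hne] at k
    obtain ⟨-, h2, h3⟩ := hx.h1 _ _ _ k
    exact ⟨h2, h3.imp id (fun k => ⟨hne, k⟩)⟩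
  · have e := h.only hne k.adj k.l.2
    refine ⟨?_, Or.inl e⟩
    obtain ⟨r, r0, r1⟩ := S.one_ex k.E1
    have hr : r ∈ bey S.D.G v w := by
      rw [← e]
      exact k.near r1
    rw [h.side hne r0 hr] at r1
    exact r1

/-- a merge with a member gives a member -/
theorem Xc.mer {w v : S.X} {O : S.OR w} (n2 : S.ON2 w O) {x0 x : V} (h : S.Xc w v O x0 x)
    (hx : S.Hx w v O x0)
    {u : S.X} {q x' : V} (k : S.Qs w u q x x') (h1 : ¬ S.SD w u q) (h2 : ¬ O.op u q) :
    S.Xc w v O x0 x' := by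
  obtain ⟨hq, e⟩ := h.zs hx k
  have e : u = v := e.resolve_right (fun k => h2 k.2)
  rw [e] at k h1 h2
  by_cases hxx : x' = x
  · rw [hxx]
    exact h
  -- a diamond at a member is impossible
  have nodia : ∀ z, S.Xc w v O x0 z → S.K.ar q z → ∀ z', z ≠ z' → S.K.ar q z' →
      S.Gc w v q z z' → False := by
    intro z hz a1 z' hne a2 g
    have hd : S.Dia w v q := ⟨hq, z, z', hne, a1, a2, g⟩
    obtain ⟨u', hd', hu'⟩ := hd.snd h1
    obtain ⟨c, hc⟩ := hd'.qs a1
    rcases (hz.zs hx hc).2 with k' | ⟨-, k'⟩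
    · exact hu' k'
    · exact h2 (n2 _ _ _ k' k.adj)
  rcases k.E1 with e1 | e1
  · -- `x → q`: `x` is another member and `q` its pole
    cases h with
    | base =>
      have := (hx.h1 _ _ _ k).1
      have r1 := S.K.ar_rk _ _ this
      have r2 := S.K.ar_rk _ _ e1
      omega
    | step z q1 x hz a1 a2 a3 a4 a5 a6 a7 a8 =>
      have eq : q1 = q := ar_ar_eq a4.1 a1 a3 e1 hq a5 a4.2
      subst eq
      rcases k.E2 with e2 | e2
      · exact Xc.step z q1 x' hz e2 a2 a3 k.r a5 (a6.trans _ _ _ k.gc) a7 a8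
      · by_cases ez : x' = z
        · rw [ez]
          exact hz
        · exact (nodia z hz a2 x' (fun k => ez k.symm) e2 (a6.trans _ _ _ k.gc)).elim
  · rcases k.E2 with e2 | e2
    · exact Xc.step x q x' h e2 e1 hq k.r k.adj k.gc h1 h2
    · exact (nodia x h e1 x' (fun k => hxx k.symm) e2 k.gc).elim

/-- a parallel square of an open star at a member is impossible -/
theorem Xc.par {w v : S.X} {O : S.OR w} {x0 x : V} (h : S.Xc w v O x0 x) (hx : S.Hx w v O x0)
    {u : S.X} {q x' : V} (k : S.Qs w u q x x') (h1 : O.op u q) (h2 : S.K.ar x q) : False := by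
  obtain ⟨hq, e⟩ := h.zs hx k
  cases h with
  | base =>
    have := (hx.h1 _ _ _ k).1
    have r1 := S.K.ar_rk _ _ this
    have r2 := S.K.ar_rk _ _ h2
    omega
  | step z q1 x hz a1 a2 a3 a4 a5 a6 a7 a8 =>
    have e : u = v := ar_cs_eq a4.1 a1 a3 k.adj a5 k.l.2 a4.2
    rw [e] at k h1
    have eq : q1 = q := ar_ar_eq a4.1 a1 a3 h2 hq a5 a4.2
    subst eq
    exact a8 h1

/-- THE CLASS of `x0` -/
theorem Hx.class {w v : S.X} {O : S.OR w} (n2 : S.ON2 w O) {x0 : V} (hx : S.Hx w v O x0)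
    {c : S.SV w}
    (h : S.fq w O c = S.fq w O (S.rho w x0)) : ∃ x : S.NV w, c = Sum.inl x ∧ S.Xc w v O x0 x.1 := by
  have key : ∀ a b : S.SV w, Relation.EqvGen (S.FR w O) a b →
      ((∃ x : S.NV w, a = Sum.inl x ∧ S.Xc w v O x0 x.1) ↔
        ∃ x : S.NV w, b = Sum.inl x ∧ S.Xc w v O x0 x.1) := by
    intro a b k
    induction k with
    | rel a b k =>
      cases k with
      | mer u q x x' h1 h2 h3 =>
        constructor
        · rintro ⟨z, e, hz⟩
          rw [← Sum.inl.inj e] at hz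
          exact ⟨x', rfl, hz.mer n2 hx h1 h2 h3⟩
        · rintro ⟨z, e, hz⟩
          rw [← Sum.inl.inj e] at hz
          exact ⟨x, rfl, hz.mer n2 hx h1.symm' h2 h3⟩
      | par u q x x' h1 h2 h3 h4 =>
        constructor
        · rintro ⟨z, e, hz⟩
          rw [← Sum.inl.inj e] at hz
          exact (hz.par hx h1 h2 h3).elim
        · rintro ⟨z, e, hz⟩
          rw [← Sum.inl.inj e] at hz
          exact (hz.par hx h1.symm' h2 h4).elim
      | dia q u h1 h2 =>
        constructor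
        · rintro ⟨z, e, hz⟩
          rw [← Sum.inl.inj e] at hz
          exfalso
          by_cases hne : q.1 = x0
          · rw [hne] at h1
            exact hx.h2 _ h1.1
          · obtain ⟨q', -, -, k3, k4⟩ := hz.exits hne
            exact h1.1.not_cs k3 k4.2
        · rintro ⟨z, e, -⟩
          cases e
    | refl a => exact Iff.rfl
    | symm a b _ ih => exact ih.symm
    | trans a b c _ _ i1 i2 => exact i1.trans i2
  have k := fq_eq.1 h
  rw [S.rho_near hx.mem] at k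
  exact (key _ _ k).2 ⟨⟨x0, hx.mem⟩, rfl, Xc.base⟩

/-- the class of `x0`, for vertices of `K` -/
theorem Hx.class' {w v : S.X} {O : S.OR w} (n2 : S.ON2 w O) {x0 : V} (hx : S.Hx w v O x0)
    {x : V}
    (h : S.fq w O (S.rho w x) = S.fq w O (S.rho w x0)) : S.Xc w v O x0 x := by
  obtain ⟨z, h1, h2⟩ := hx.class n2 h
  rw [rho_inl h1]
  exact h2

/-! ### terminal elements -/

/-- `x0` is terminal -/
theorem Hx.term {w v : S.X} {O : S.OR w} {x0 : V} (hx : S.Hx w v O x0) (x : V) :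
    ¬ S.Dn w O x0 x := by
  rintro ⟨u, s, hu, hc, h1, h2, h3, h4, h5⟩
  obtain ⟨c, hc'⟩ := h5.qs (Ne.symm (Xc.ne_rk h1 h4))
  have := (hx.h1 _ _ _ hc').1
  have r1 := S.K.ar_rk _ _ this
  have r2 := S.K.ar_rk _ _ h1
  omega

theorem Hx.not_sk {w v : S.X} {O : S.OR w} {x0 : V} (hx : S.Hx w v O x0) (u : S.EV w) :
    ¬ S.Sk w O u (Sum.inl ⟨x0, hx.mem⟩) := fun h => hx.h2 _ (Sk.inl.1 h).1.1

/-- the arrows of the class of `x0` -/
theorem Hx.arQ {w v : S.X} {O : S.OR w} {x0 : V} (hx : S.Hx w v O x0) {d : S.Q w O} :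
    S.arQ w O (S.fq w O (S.rho w x0)) d ↔ ∃ z, S.SAr w (S.rho w x0) z ∧ S.fq w O z = d := by
  rw [S.rho_near hx.mem, arQ_fq, GN_tm hx.mem hx.not_sk (Tm.base x0 hx.term)]
  show d ∈ S.NS w O x0 ↔ _
  unfold NS
  rw [S.rho_near hx.mem]
  exact Iff.rfl

/-- the arrow of the slice `y → a` -/
theorem sar_of {w : S.X} {y a : V} (hy : w ∈ S.J y) (h : S.K.ar y a) :
    S.SAr w (S.rho w y) (S.rho w a) := by
  by_cases ha : w ∈ S.J a
  · exact sar_hor hy ha h
  · rw [S.rho_far ha]
    exact sar_up (S.dir_adj ha) ⟨hy, S.dir_cross (Or.inl h) hy ha⟩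

namespace Av

variable {w v : S.X} {O : S.OR w} {y a b d : V} (A : S.Av w O y a b d)

include A

/-- the other exit of `y` and `a` are not identified: hypothesis `hr`. If `v` is crossed by another
member, then `[a]` is not `t_v` -/
theorem not_v (hx : S.Hx w v O y)
    (hv : ∀ q c, S.Qs w v q y c → ¬ O.op v q → ¬ S.J a ⊆ bey S.D.G w v)
    (hr : ∀ z, S.SAr w (S.rho w y) z → S.fq w O z = S.fq w O (S.rho w a) → z = S.rho w a)
    {x : V} (h : S.Xc w v O y x) (hne : x ≠ y) (k : S.D.G.Adj w v)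
    (e : S.fq w O (Sum.inr ⟨v, k⟩) = S.fq w O (S.rho w a)) : False := by
  obtain ⟨q, c, h1, h2⟩ := h.ex0 hne
  have h3 := hv q c h1 h2
  have h4 := hr _ (sar_up h1.adj h1.l) e
  exact h3 (rho_inr h4.symm)

/-- QA: an in-arrow over `w` of a member is not in the class of `a` -/
theorem QA (n2 : S.ON2 w O) (ts : S.PTSA) (hx : S.Hx w v O y)
    (hv : ∀ q c, S.Qs w v q y c → ¬ O.op v q → ¬ S.J a ⊆ bey S.D.G w v)
    (hr : ∀ z, S.SAr w (S.rho w y) z → S.fq w O z = S.fq w O (S.rho w a) → z = S.rho w a)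
    {z : V} (hz : S.Xc w v O y z) : ∀ n, S.K.ar n z → w ∈ S.J n →
    S.fq w O (S.rho w n) ≠ S.fq w O (S.rho w a) := by
  induction hz with
  | base =>
    intro n hn hw e
    have hwy := hx.mem
    -- `n` in the class of a sink
    by_cases hs : ∃ u, S.Sk w O u (Sum.inl ⟨n, hw⟩)
    · obtain ⟨u, hu⟩ := hs
      have hu' := Sk.inl.1 hu
      obtain ⟨c, hc⟩ := hu'.1.1.qs hn
      have h3 := (A.zs ts hc).2.2.resolve_right hu'.2
      rw [S.rho_near hw, fq_inr.2 hu] at e
      have h4 := hr _ (sar_up hc.adj hc.l) e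
      exact h3 (rho_inr h4.symm)
    · push Not at hs
      by_cases ht : ∃ x, S.Dn w O n x
      · obtain ⟨x2, hd⟩ := ht
        have hd' := hd
        obtain ⟨u, s, hu, hc, h1, h2, h3, h4, h5⟩ := hd
        have es : s = y := ar_ar_eq hw h1 h2 hn hwy hu hc.2
        subst es
        have e2 := hr _ (sar_hor hwy hd'.mem.2 h4) (hd'.fq.symm.trans e)
        have e3 : x2 = a := by
          rw [S.rho_near hd'.mem.2] at e2
          exact (rho_inl e2.symm).symm
        rw [e3] at h5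
        obtain ⟨c, hc'⟩ := h5.symm'.qs (fun k => Xc.ne_rk hn A.ar k)
        exact A.z0 _ _ hc'
      · push Not at ht
        have h1 := arQ_term hw hs ht (sar_hor hw hwy hn)
        have h2 := hx.arQ.2 ⟨_, sar_of hwy A.ar, rfl⟩
        rw [e] at h1
        have r1 := arQ_rk h1
        have r2 := arQ_rk h2
        omega
  | step z q x hz a1 a2 a3 a4 a5 a6 a7 a8 ih =>
    intro n hn hw e
    have hX : S.Xc w v O y x := Xc.step z q x hz a1 a2 a3 a4 a5 a6 a7 a8
    have hne : x ≠ y := by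
      rintro rfl
      have r1 := hz.rk_le
      have r2 := S.K.ar_rk _ _ a1
      have r3 := S.K.ar_rk _ _ a2
      omega
    by_cases hs : ∃ u, S.Sk w O u (Sum.inl ⟨n, hw⟩)
    · obtain ⟨u, hu⟩ := hs
      have hu' := Sk.inl.1 hu
      obtain ⟨c, hc⟩ := hu'.1.1.qs hn
      have e2 : u.1 = v := hX.only hne hc.adj hc.l.2
      rw [S.rho_near hw, fq_inr.2 hu] at e
      obtain ⟨u, hu1⟩ := u
      have e2 : u = v := e2
      subst e2
      exact A.not_v hx hv hr hX hne hu1 e
    · push Not at hs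
      by_cases ht : ∃ x, S.Dn w O n x
      · obtain ⟨x2, hd⟩ := ht
        have hd' := hd
        obtain ⟨u, s, hu, hc, h1, h2, h3, h4, h5⟩ := hd
        have es : s = x := ar_ar_eq hw h1 h2 hn a4.1 hu hc.2
        subst es
        have e3 : x2 = q := ar_ar_eq a4.1 h4 hd'.mem.2 a1 a3 a5 a4.2
        subst e3
        exact ih _ a2 a3 (hd'.fq.symm.trans e)
      · push Not at ht
        have h1 := arQ_term hw hs ht (sar_hor hw a4.1 hn)
        have h2 := hx.arQ.2 ⟨_, sar_of hx.mem A.ar, rfl⟩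
        rw [e, hX.fq] at h1
        have r1 := arQ_rk h1
        have r2 := arQ_rk h2
        omega

/-- THE KEY CLAIM: an edge of the slice with image `[y] [a]` is `y a` -/
theorem key (n2 : S.ON2 w O) (ts : S.PTSA) (hx : S.Hx w v O y)
    (hv : ∀ q c, S.Qs w v q y c → ¬ O.op v q → ¬ S.J a ⊆ bey S.D.G w v)
    (hr : ∀ z, S.SAr w (S.rho w y) z → S.fq w O z = S.fq w O (S.rho w a) → z = S.rho w a)
    {p p' : V} (e : S.K.E p p')
    (h1 : S.fq w O (S.rho w p) = S.fq w O (S.rho w y))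
    (h2 : S.fq w O (S.rho w p') = S.fq w O (S.rho w a)) : p = y ∧ p' = a := by
  have hp := hx.class' n2 h1
  have hwp := hp.mem hx.mem
  by_cases hw : w ∈ S.J p'
  · rcases e with e | e
    · by_cases hne : p = y
      · subst hne
        have e2 := hr _ (sar_hor hwp hw e) h2
        refine ⟨rfl, ?_⟩
        rw [S.rho_near hw] at e2
        exact (rho_inl e2.symm).symm
      · exfalso
        cases hp with
        | base => exact hne rfl
        | step z q x hz a1 a2 a3 a4 a5 a6 a7 a8 =>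
          have e3 : p' = q := ar_ar_eq a4.1 e hw a1 a3 a5 a4.2
          subst e3
          exact A.QA n2 ts hx hv hr hz _ a2 a3 h2
    · exact absurd h2 (A.QA n2 ts hx hv hr hp _ e hw)
  · -- `p'` is beyond an edge crossed by `p`
    have k1 := S.dir_adj hw
    have k2 := S.dir_bey hw
    have k3 : S.dir w p' ∈ S.J p := S.dir_cross e hwp hw
    rw [S.rho_far hw] at h2
    by_cases hne : p = y
    · subst hne
      have e2 := hr _ (sar_up k1 ⟨hwp, k3⟩) h2
      have ha : S.J a ⊆ bey S.D.G w (S.dir w p') := rho_inr e2.symm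
      rcases e with e | e
      · exact ⟨rfl, A.toAu.pole_eq k1 ⟨hwp, k3⟩ ha e k2⟩
      · exfalso
        obtain ⟨r, r0, r1⟩ := S.one_ex (Or.inl e)
        exact A.toAu.noN (ts _ _ _ k1 ⟨hwp, k3⟩) k1 ⟨hwp, k3⟩ ha (A.pd _ k1 ha) e r0 r1 (k2 r0)
    · exfalso
      have ev : S.dir w p' = v := hp.only hne k1 k3
      have k1' : S.D.G.Adj w v := ev ▸ k1
      have h2' : S.fq w O (Sum.inr ⟨v, k1'⟩) = S.fq w O (S.rho w a) := by
        rw [← h2]
        exact congrArg (fun z => S.fq w O (Sum.inr z)) (Subtype.ext ev.symm)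
      exact A.not_v hx hv hr hp hne k1' h2'

end Av

end SyQ

end Pool.Agent.DI
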