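import Pool.Agent.DI.Ph4
import Pool.Agent.DI.PhA
import Pool.Agent.DI.FCk

/-!
# The image of a thin direct arrow in the folded slice

`SyQ.thA_ph`: an arrow of `K.ThA` is passed by one orbit of pentagons or of squares (`PhP`, or the
conditions of `PhQ`). `Hx.flag`: the flags of the folded slice at the class of a vertex with `Hx` come from
flags of `K`. `flag_orbit`: flags of the folded slice with lifts in one orbit are in one orbit.
`Av.thA`: the image of an arrow of `K.ThA` is in `ThA`, if its cell is kept.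
-/

namespace Pool.Agent.DI

open MulAction
open Pool.Agent.SAF (InC orbs FinOrb oc Decomp SAn SA Conv hull dist_edge FinOrb_iff exists_next)
open Pool.Agent.BT (PX PQ JS bey exits x_next_unique)
open Pool.Agent.BT.TA

section

variable {H V : Type} [Group H] [MulAction H V] {K : GX H V} (P : P45 K)

namespace P45

/-- the other three vertices of a pentagon, seen from a flag -/
def sh5 (i : K.I) (j : Fin 5) (h : H) : Bool → V × V × V
  | true => (h • P.pt i (j + 2), h • P.pt i (j + 3), h • P.pt i (j + 4))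
  | false => (h • P.pt i (j + 4), h • P.pt i (j + 3), h • P.pt i (j + 2))

/-- the other two vertices of a square, seen from a flag -/
def sh4 (i : K.I) (j : Fin 4) (h : H) : Bool → V × V
  | true => (h • P.qt i (j + 2), h • P.qt i (j + 3))
  | false => (h • P.qt i (j + 3), h • P.qt i (j + 2))

theorem sh5_smul (g : H) (i : K.I) (j : Fin 5) (h : H) (b : Bool) :
    P.sh5 i j (g * h) b = (g • (P.sh5 i j h b).1, g • (P.sh5 i j h b).2.1,
      g • (P.sh5 i j h b).2.2) := by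
  cases b <;> simp only [sh5, mul_smul]

theorem sh4_smul (g : H) (i : K.I) (j : Fin 4) (h : H) (b : Bool) :
    P.sh4 i j (g * h) b = (g • (P.sh4 i j h b).1, g • (P.sh4 i j h b).2) := by
  cases b <;> simp only [sh4, mul_smul]

end P45

variable {P}

/-- the flag of a walk around a pentagon -/
theorem Qn.flag {y a b c d : V} (h : Qn P y a b c d) : ∃ i, ∃ hi : ¬ P.sq i, ∃ j g b0,
    (P45.fy (P.pf5 i hi j g b0), P45.fz (P.pf5 i hi j g b0)) = (y, a) ∧
      P.sh5 i j g b0 = (b, c, d) := by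
  have e1 : ∀ j : Fin 5, j + 1 + 1 = j + 2 := by decide
  have e2 : ∀ j : Fin 5, j + 1 + 4 = j := by decide
  have e3 : ∀ j : Fin 5, j + 1 + 3 = j + 4 := by decide
  have e4 : ∀ j : Fin 5, j + 1 + 2 = j + 3 := by decide
  obtain ⟨g, i, j, hi, h⟩ := h
  rcases h with ⟨rfl, rfl, rfl, rfl, rfl⟩ | ⟨rfl, rfl, rfl, rfl, rfl⟩
  · exact ⟨i, hi, j, g, true, (P.pf5_yz i hi j g).1, rfl⟩
  · refine ⟨i, hi, j + 1, g, false, ?_, ?_⟩
    · rw [(P.pf5_yz i hi (j + 1) g).2, e1]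
    · show (g • P.pt i (j + 1 + 4), g • P.pt i (j + 1 + 3), g • P.pt i (j + 1 + 2)) = _
      rw [e2, e3, e4]

/-- the flag of a walk around a square -/
theorem Q4.flag {y a b d : V} (h : Q4 P y a b d) : ∃ i, ∃ hi : P.sq i, ∃ j g b0,
    (P45.fy (P.pf4 i hi j g b0), P45.fz (P.pf4 i hi j g b0)) = (y, a) ∧
      P.sh4 i j g b0 = (b, d) := by
  have e1 : ∀ j : Fin 4, j + 1 + 1 = j + 2 := by decide
  have e2 : ∀ j : Fin 4, j + 1 + 3 = j := by decide
  have e4 : ∀ j : Fin 4, j + 1 + 2 = j + 3 := by decide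
  obtain ⟨g, i, j, hi, h⟩ := h
  rcases h with ⟨rfl, rfl, rfl, rfl⟩ | ⟨rfl, rfl, rfl, rfl⟩
  · exact ⟨i, hi, j, g, true, (P.pf4_yz i hi j g).1, rfl⟩
  · refine ⟨i, hi, j + 1, g, false, ?_, ?_⟩
    · rw [(P.pf4_yz i hi (j + 1) g).2, e1]
    · show (g • P.qt i (j + 1 + 3), g • P.qt i (j + 1 + 2)) = _
      rw [e2, e4]

/-- the walk of a flag -/
theorem P45.qn_pf5 {i : K.I} {hi : ¬ P.sq i} {j : Fin 5} {g : H} {b0 : Bool} {y a : V}
    (h : (P45.fy (P.pf5 i hi j g b0), P45.fz (P.pf5 i hi j g b0)) = (y, a)) :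
    Qn P y a (P.sh5 i j g b0).1 (P.sh5 i j g b0).2.1 (P.sh5 i j g b0).2.2 := by
  cases b0
  · rw [(P.pf5_yz i hi j g).2] at h
    have h1 : g • P.pt i (j + 1) = y := congrArg Prod.fst h
    have h2 : g • P.pt i j = a := congrArg Prod.snd h
    have := (Qn_pt (P := P) g hi j).rot.rev
    rw [h1, h2] at this
    exact this
  · rw [(P.pf5_yz i hi j g).1] at h
    have h1 : g • P.pt i j = y := congrArg Prod.fst h
    have h2 : g • P.pt i (j + 1) = a := congrArg Prod.snd h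
    have := Qn_pt (P := P) g hi j
    rw [h1, h2] at this
    exact this

theorem P45.q4_pf4 {i : K.I} {hi : P.sq i} {j : Fin 4} {g : H} {b0 : Bool} {y a : V}
    (h : (P45.fy (P.pf4 i hi j g b0), P45.fz (P.pf4 i hi j g b0)) = (y, a)) :
    Q4 P y a (P.sh4 i j g b0).1 (P.sh4 i j g b0).2 := by
  cases b0
  · rw [(P.pf4_yz i hi j g).2] at h
    have h1 : g • P.qt i (j + 1) = y := congrArg Prod.fst h
    have h2 : g • P.qt i j = a := congrArg Prod.snd h
    have := (Q4_qt (P := P) g hi j).rot.rev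
    rw [h1, h2] at this
    exact this
  · rw [(P.pf4_yz i hi j g).1] at h
    have h1 : g • P.qt i j = y := congrArg Prod.fst h
    have h2 : g • P.qt i (j + 1) = a := congrArg Prod.snd h
    have := Q4_qt (P := P) g hi j
    rw [h1, h2] at this
    exact this

/-- the edge of a flag -/
theorem P45.fE (f : FL K) : K.E (P45.fy f) (P45.fz f) := by
  obtain ⟨e, b⟩ := f
  cases b
  · exact K.c_E0 e
  · exact K.c_E2 e

theorem P45.f_smul (g : H) (f : FL K) :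
    (P45.fy (g • f), P45.fz (g • f)) = (g • P45.fy f, g • P45.fz f) := by
  obtain ⟨e, b⟩ := f
  cases b
  · exact Prod.ext (K.c1_smul g e) (K.c0_smul g e)
  · exact Prod.ext (K.c1_smul g e) (K.c2_smul g e)

end

namespace SyQ

variable {H V : Type} [Group H] [MulAction H V] {S : SyQ H V}

/-- THE CELL of an arrow of `ThA` -/
theorem thA_ph {y a : V} (hp : (y, a) ∈ S.K.ThA) : (∃ b c d, S.PhP y a b c d) ∨
    ∃ b d, Q4 S.P y a b d ∧
      (∀ b' d', Q4 S.P y a b' d' → ∃ g : H, g • y = y ∧ g • a = a ∧ g • b = b' ∧ g • d = d') ∧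
      ∀ b' c' d', ¬ Qn S.P y a b' c' d' := by
  obtain ⟨h1, h2, ⟨f, h3⟩, h4⟩ := hp
  -- an element which maps flags with the edge to flags with the edge
  have fix : ∀ (f f' : FL S.K) (g : H), g • f = f' → (P45.fy f, P45.fz f) = (y, a) →
      (P45.fy f', P45.fz f') = (y, a) → g • y = y ∧ g • a = a := by
    intro f f' g e k k'
    rw [← e, P45.f_smul] at k'
    have k1 : P45.fy f = y := congrArg Prod.fst k
    have k2 : P45.fz f = a := congrArg Prod.snd k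
    rw [k1, k2] at k'
    exact ⟨congrArg Prod.fst k', congrArg Prod.snd k'⟩
  rcases S.P.pf_cases f with ⟨i, hi, j, h, b0, rfl⟩ | ⟨i, hi, j, h, b0, rfl⟩
  · left
    refine ⟨(S.P.sh5 i j h b0).1, (S.P.sh5 i j h b0).2.1, (S.P.sh5 i j h b0).2.2, h1,
      P45.qn_pf5 h3, ?_, ?_, h2.1⟩
    · intro b' c' d' hq
      obtain ⟨i', hi', j', h', b0', k1, k2⟩ := hq.flag
      obtain ⟨g, hg⟩ := h4 _ _ h3 k1
      obtain ⟨g1, g2⟩ := fix _ _ g hg h3 k1
      rw [S.P.pf5_smul] at hg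
      obtain ⟨rfl, rfl, rfl, rfl⟩ := S.P.pf5_inj hg
      rw [S.P.sh5_smul] at k2
      exact ⟨g, g1, g2, congrArg Prod.fst k2, congrArg (fun z => z.2.1) k2,
        congrArg (fun z => z.2.2) k2⟩
    · intro b' c' hq
      obtain ⟨i', hi', j', h', b0', k1, k2⟩ := hq.flag
      obtain ⟨g, hg⟩ := h4 _ _ h3 k1
      rw [S.P.pf5_smul] at hg
      exact S.P.pf5_ne_pf4 hg
  · right
    refine ⟨(S.P.sh4 i j h b0).1, (S.P.sh4 i j h b0).2, P45.q4_pf4 h3, ?_, ?_⟩
    · intro b' d' hq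
      obtain ⟨i', hi', j', h', b0', k1, k2⟩ := hq.flag
      obtain ⟨g, hg⟩ := h4 _ _ h3 k1
      obtain ⟨g1, g2⟩ := fix _ _ g hg h3 k1
      rw [S.P.pf4_smul] at hg
      obtain ⟨rfl, rfl, rfl, rfl⟩ := S.P.pf4_inj hg
      rw [S.P.sh4_smul] at k2
      exact ⟨g, g1, g2, congrArg Prod.fst k2, congrArg Prod.snd k2⟩
    · intro b' c' d' hq
      obtain ⟨i', hi', j', h', b0', k1, k2⟩ := hq.flag
      obtain ⟨g, hg⟩ := h4 _ _ k1 h3
      rw [S.P.pf5_smul] at hg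
      exact S.P.pf5_ne_pf4 hg

/-! ### flags of the folded slice -/

variable {hc : S.Conn} {w : S.X} {O : S.OR w} (hs : (S.kfQ hc w O).NSt)

include hs

/-- the flags of the folded slice at the class of a vertex with `Hx` -/
theorem Hx.flag (n2 : S.ON2 w O) {v : S.X} {x0 : V} (hx : S.Hx w v O x0)
    {f : FL (S.kf hc w O)} (h : P45.fy f = S.fq w O (S.rho w x0)) :
    ∃ x : S.NV w, (S.k0 hc w).c1 (Qt.lf hs f.1) = Sum.inl x ∧ S.Xc w v O x0 x.1 ∧
      S.K.c1 (bkq hc (Qt.lf hs f.1)) = x.1 ∧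
      P45.fz f = S.fq w O (S.rho w (P45.fz ((bkq hc (Qt.lf hs f.1), f.2) : FL S.K))) := by
  obtain ⟨e, b⟩ := f
  obtain ⟨h0, h1, h2⟩ := Qt.lf_c hs e
  have h1' : S.fq w O ((S.k0 hc w).c1 (Qt.lf hs e)) = S.fq w O (S.rho w x0) := h1.trans h
  obtain ⟨x, k1, k2⟩ := hx.class n2 h1'
  obtain ⟨b0, b1, b2⟩ := bkq_v hc k1
  refine ⟨x, k1, k2, b1, ?_⟩
  cases b
  · show (S.kf hc w O).c0 e = S.fq w O (S.rho w (S.K.c0 (bkq hc (Qt.lf hs e))))
    rw [← b0]
    exact h0.symm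
  · show (S.kf hc w O).c2 e = S.fq w O (S.rho w (S.K.c2 (bkq hc (Qt.lf hs e))))
    rw [← b2]
    exact h2.symm

/-- flags of the folded slice with lifts in one orbit -/
theorem flag_orbit {f f' : FL (S.kf hc w O)} {x x' : S.NV w}
    (h1 : (S.k0 hc w).c1 (Qt.lf hs f.1) = Sum.inl x)
    (h1' : (S.k0 hc w).c1 (Qt.lf hs f'.1) = Sum.inl x') {g : H} (gw : g • w = w)
    (h : g • bkq hc (Qt.lf hs f.1) = bkq hc (Qt.lf hs f'.1)) (hb : f.2 = f'.2) :
    ∃ k : ↥(stabilizer H w), k • f = f' := by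
  let k : ↥(stabilizer H w) := ⟨g, gw⟩
  refine ⟨k, Prod.ext ?_ hb⟩
  apply Qt.lf_inj hs (S.kfQ_inj hc w O)
  have e1 : Qt.lf hs (k • f.1) = k • Qt.lf hs f.1 := rfl
  have e2 : (S.k0 hc w).c1 (k • Qt.lf hs f.1) = Sum.inl (k • x) := by
    rw [(S.k0 hc w).c1_smul k, h1]
    rfl
  show Qt.lf hs (k • f.1) = Qt.lf hs f'.1
  rw [e1]
  refine lift_unique hc e2 h1' ?_
  rw [bkq_smul]
  exact h

/-- a flag of the slice is a flag of the folded slice if its cell is kept -/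
theorem exists_kf_flag {e : (S.k0 hc w).LE} (he : ∀ p, e.1.1 = Sum.inr p → S.kept w O p)
    (b : Bool) : ∃ f : FL (S.kf hc w O), Qt.lf hs f.1 = e ∧ f.2 = b := by
  obtain ⟨⟨i, j⟩, l⟩ := e
  have : ∃ i' : (S.kfQ hc w O).J, (S.kfQ hc w O).ι i' = i := by
    rcases i with c | p
    · exact ⟨Sum.inl c, rfl⟩
    · exact ⟨Sum.inr ⟨p, he p rfl⟩, rfl⟩
  obtain ⟨i', rfl⟩ := this
  exact ⟨((⟨i', Fin.cast (Qt.len_eq hs i').symm j⟩, l), b), rfl, rfl⟩

/-- THE IMAGE OF AN ARROW OF `ThA` -/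
theorem Av.thA (n2 : S.ON2 w O) {y a b d : V} (hA : (y, a) ∈ S.K.ThA) (A : S.Av w O y a b d)
    (ts : S.PTSA) {v : S.X} (hx : S.Hx w v O y)
    (hv : ∀ q c, S.Qs w v q y c → ¬ O.op v q → ¬ S.J a ⊆ bey S.D.G w v)
    (hr : ∀ z, S.SAr w (S.rho w y) z → S.fq w O z = S.fq w O (S.rho w a) → z = S.rho w a)
    (hd : Dz (S.kf hc w O) (S.fq w O (S.rho w y)) (S.fq w O (S.rho w a)))
    (hf : ∃ f : FL (S.kf hc w O), (P45.fy f, P45.fz f) =
      (S.fq w O (S.rho w y), S.fq w O (S.rho w a))) :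
    (S.fq w O (S.rho w y), S.fq w O (S.rho w a)) ∈ (S.kf hc w O).ThA := by
  refine ⟨hx.arQ.2 ⟨_, sar_of A.wy A.ar, rfl⟩, hd, hf, ?_⟩
  intro f f' k k'
  have key : ∀ f : FL (S.kf hc w O), (P45.fy f, P45.fz f) =
      (S.fq w O (S.rho w y), S.fq w O (S.rho w a)) →
      ∃ x : S.NV w, (S.k0 hc w).c1 (Qt.lf hs f.1) = Sum.inl x ∧
        (P45.fy ((bkq hc (Qt.lf hs f.1), f.2) : FL S.K),
          P45.fz ((bkq hc (Qt.lf hs f.1), f.2) : FL S.K)) = (y, a) := by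
    intro f k
    obtain ⟨x, k1, k2, k3, k4⟩ := hx.flag hs n2 (congrArg Prod.fst k)
    refine ⟨x, k1, ?_⟩
    have e : P45.fy ((bkq hc (Qt.lf hs f.1), f.2) : FL S.K) = x.1 := k3
    have hE := P45.fE ((bkq hc (Qt.lf hs f.1), f.2) : FL S.K)
    rw [e] at hE
    have h2 : P45.fz f = S.fq w O (S.rho w a) := congrArg Prod.snd k
    rw [k4] at h2
    obtain ⟨e1, e2⟩ := A.key n2 ts hx hv hr hE k2.fq h2
    rw [e, e1, e2]
  obtain ⟨x, k1, k2⟩ := key f k
  obtain ⟨x', k1', k2'⟩ := key f' k'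
  obtain ⟨g, hg⟩ := hA.2.2.2 _ _ k2 k2'
  have e := P45.f_smul g ((bkq hc (Qt.lf hs f.1), f.2) : FL S.K)
  rw [hg, k2'] at e
  rw [show P45.fy ((bkq hc (Qt.lf hs f.1), f.2) : FL S.K) = y from congrArg Prod.fst k2,
    show P45.fz ((bkq hc (Qt.lf hs f.1), f.2) : FL S.K) = a from congrArg Prod.snd k2] at e
  have gy : g • y = y := (congrArg Prod.fst e).symm
  have ga : g • a = a := (congrArg Prod.snd e).symm
  have hg1 : g • bkq hc (Qt.lf hs f.1) = bkq hc (Qt.lf hs f'.1) :=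
    congrArg (fun z : FL S.K => z.1) hg
  have hg2 : f.2 = f'.2 := congrArg (fun z : FL S.K => z.2) hg
  exact flag_orbit hs k1 k1' (ph_fix A.ar gy ga w A.wy) hg1 hg2

end SyQ

end Pool.Agent.DI
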