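import Pool.Agent.DI.Ph5
import Pool.Agent.DI.KpW
import Pool.Agent.DI.VDZ

/-!
# Thin direct arrows: the image in the folded slice is a thin direct arrow

`S.POp w O`: the stars over vertices with pages are open. Then all vertices are terminal and the class of a
vertex with `Hx` is this vertex. `PhP.img`, `PhQ.img`: the image of an arrow of `K.ThA` with level `w` is in
`(S.kf hc w O).ThA`.
-/

namespace Pool.Agent.DI

open MulAction
open Pool.Agent.SAF (InC orbs FinOrb oc Decomp SAn SA Conv hull dist_edge FinOrb_iff exists_next)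
open Pool.Agent.BT (PX PQ JS bey exits x_next_unique)
open Pool.Agent.BT.TA
open Pool.Agent.SAG (IO Zt)

namespace SyQ

variable {H V : Type} [Group H] [MulAction H V] (S : SyQ H V)

/-- the stars over vertices with pages are open, openness depends only on the hub -/
structure POp (w : S.X) (O : S.OR w) : Prop where
  n2 : S.ON2 w O
  n7 : ∀ u q x, S.D.G.Adj w u → w ∈ S.J q → S.K.ar x q → O.op u q

variable {S}

section

variable {w : S.X} {O : S.OR w}

theorem POp.dn (hO : S.POp w O) (z x : V) : ¬ S.Dn w O z x := by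
  rintro ⟨u, s, hu, -, h1, h2, h3, -, -⟩
  exact h3.2 (hO.n7 u s z hu h2 h1)

theorem POp.sk (hO : S.POp w O) {q n : V} (hq : w ∈ S.J q) (e : S.K.ar n q) (u : S.EV w) :
    ¬ S.Sk w O u (Sum.inl ⟨q, hq⟩) := fun h => (Sk.inl.1 h).2 (hO.n7 u.1 q n u.2 hq e)

/-- the arrows of the class of a vertex with a page -/
theorem POp.arQ (hO : S.POp w O) {q n : V} (hq : w ∈ S.J q) (e : S.K.ar n q) {d : S.Q w O} :
    S.arQ w O (S.fq w O (S.rho w q)) d ↔ ∃ z, S.SAr w (S.rho w q) z ∧ S.fq w O z = d := by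
  rw [S.rho_near hq, arQ_fq, GN_tm hq (hO.sk hq e) (Tm.base q (hO.dn q))]
  show d ∈ S.NS w O q ↔ _
  unfold NS
  rw [S.rho_near hq]
  exact Iff.rfl

/-- the class of `x0` -/
theorem Hx.alone {v : S.X} (hO : S.POp w O) {x0 : V} (hx : S.Hx w v O x0) {c : S.SV w}
    (h : S.fq w O c = S.fq w O (S.rho w x0)) : c = S.rho w x0 := by
  obtain ⟨x, rfl, k⟩ := hx.class hO.n2 h
  rw [S.rho_near hx.mem]
  congr 1
  apply Subtype.ext
  cases k with
  | base => rfl
  | step z q x h h1 h2 h3 h4 h5 h6 h7 h8 => exact absurd (hO.n7 v q _ h5 h3 h1) h8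

namespace Av

variable {v : S.X} {y a b d : V} (A : S.Av w O y a b d)

include A

/-- THE IMAGE IS DIRECT -/
theorem img_dr {hc : S.Conn} (hO : S.POp w O) (ts : S.PTSA) (d0 : S.PD0) (hx : S.Hx w v O y)
    (hv : ∀ q c, S.Qs w v q y c → ¬ O.op v q → ¬ S.J a ⊆ bey S.D.G w v)
    (hr : ∀ z, S.SAr w (S.rho w y) z → S.fq w O z = S.fq w O (S.rho w a) → z = S.rho w a) :
    Dr (S.kf hc w O) (S.fq w O (S.rho w y)) (S.fq w O (S.rho w a)) := by
  intro g gy ga m hm
  rw [S.kf_ar] at hm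
  -- `g` fixes `y` and `a`
  have e1 : S.fq w O (S.rho w (g.1 • y)) = S.fq w O (S.rho w y) := by
    rw [S.rho_smul, fq_smul]
    exact gy
  have e2 : S.fq w O (S.rho w (g.1 • a)) = S.fq w O (S.rho w a) := by
    rw [S.rho_smul, fq_smul]
    exact ga
  obtain ⟨g1, g2⟩ := A.key hO.n2 ts hx hv hr (Or.inl (S.K.ar_smul g.1 _ _ A.ar)) e1 e2
  have gw : g.1 • w = w := g.2
  by_cases ha : w ∈ S.J a
  · obtain ⟨z, hz, rfl⟩ := (hO.arQ ha A.ar).1 hm
    rw [S.rho_near ha] at hz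
    show g • S.fq w O z = _
    rw [← fq_smul]
    congr 1
    cases hz with
    | hor x s e =>
      have := A.dr g.1 g1 g2 s.1 e
      show Sum.inl (g • s) = Sum.inl s
      congr 1
      exact Subtype.ext this
    | up x u e =>
      have e : u.1 ∈ S.J a := e
      have hu : g.1 • u.1 = u.1 := by
        by_cases hs : ∃ a1, S.K.ar a a1
        · obtain ⟨b2, l1, l2⟩ := S.js.cross a hs w u.1 u.2 ha e
          have e5 := A.dr g.1 g1 g2 b2 l1
          have l3 := S.sub_bey_smul g.1 l2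
          rw [e5, gw] at l3
          obtain ⟨z, hz⟩ := S.js.ne b2
          have e1' : S.D.G.Adj w (g.1 • u.1) := by
            have := S.D.adj_smul g.1 _ _ u.2
            rwa [gw] at this
          exact S.bey_unique e1' u.2 (l3 hz) (l2 hz)
        · push Not at hs
          exact d0 a hs w ha g.1 g2 gw u.1 u.2 e
      show Sum.inr (g • u) = Sum.inr u
      congr 1
      exact Subtype.ext hu
  · exfalso
    rw [S.rho_far ha, arQ_fq, GN_sk (Or.inl rfl)] at hm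
    exact hm

/-- THE IMAGE IS DIRECT, with the condition at infinite sinks -/
theorem img_n {hc : S.Conn} (hz : S.NoDt w)
    (tog : ∀ x a, S.K.ar x a → Infinite ↥(stabilizer H ((x, a) : V × V)) → S.Tog x a)
    (hO : S.POp w O) (ts : S.PTSA) (d0 : S.PD0) (hx : S.Hx w v O y)
    (hv : ∀ q c, S.Qs w v q y c → ¬ O.op v q → ¬ S.J a ⊆ bey S.D.G w v)
    (hr : ∀ z, S.SAr w (S.rho w y) z → S.fq w O z = S.fq w O (S.rho w a) → z = S.rho w a)
    (hd : DrN S.K y a) :
    DrN (S.kf hc w O) (S.fq w O (S.rho w y)) (S.fq w O (S.rho w a)) := by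
  refine ⟨A.img_dr hO ts d0 hx hv hr, ?_⟩
  intro hs hi g gy ga
  have e1 : S.fq w O (S.rho w (g.1 • y)) = S.fq w O (S.rho w y) := by
    rw [S.rho_smul, fq_smul]
    exact gy
  have e2 : S.fq w O (S.rho w (g.1 • a)) = S.fq w O (S.rho w a) := by
    rw [S.rho_smul, fq_smul]
    exact ga
  obtain ⟨g1, g2⟩ := A.key hO.n2 ts hx hv hr (Or.inl (S.K.ar_smul g.1 _ _ A.ar)) e1 e2
  rcases snk_kf hc hs with ⟨u, e⟩ | ⟨x, hx', e⟩
  · -- `t_u`
    have hwa : w ∉ S.J a := by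
      intro wa
      rw [S.rho_near wa] at e
      exact hO.sk wa A.ar u (fq_inr.1 e)
    have hio : ¬ IO g.1 := by
      intro k
      have hinf : Infinite ↥(stabilizer H ((y, a) : V × V)) := by
        rw [← not_finite_iff_infinite]
        intro hf
        exact Pool.Agent.SAG.not_IO_finite
          (⟨g.1, Prod.ext g1 g2⟩ : ↥(stabilizer H ((y, a) : V × V))) (io_coe.1 k)
      obtain ⟨p, p1, p2⟩ := tog y a A.ar hinf
      have hw := A.wy
      rw [p1, Set.mem_singleton_iff] at hw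
      rw [p2, hw] at hwa
      exact hwa rfl
    have es := S.vdzIso O u
    rw [e] at hi ga ⊢
    have hi' : Infinite ↥(stabilizer H w ⊓ stabilizer H u.1) :=
      Infinite.of_injective es.symm es.symm.injective
    have hz' : Zt ↥(stabilizer ↥(stabilizer H w) (S.fq w O (Sum.inr u))) :=
      Pool.Agent.SAG.Zt.of_inj es.symm.toMonoidHom es.symm.injective (hz u.1 u.2 hi')
    exact (ny_zt hz' hi).2 ⟨ga, fun k => hio (io_coe.2 k)⟩
  · -- a sink over `w`
    have e3 : a = x := rho_inl (hx'.cls e)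
    subst e3
    have hiso := hx'.iso (O := O)
    rw [← e] at hiso
    have hi' : Infinite ↥(stabilizer H a) := Infinite.of_injective hiso.symm hiso.symm.injective
    obtain ⟨-, h2, t, h3, h4, h5⟩ := hd.2 hx'.1 hi' g.1 g1 g2
    refine ⟨ga, fun k => h2 (io_coe.2 k), ⟨t, hx'.stab h3⟩, ?_, io_coe.1 h4, Subtype.ext h5⟩
    rw [← fq_smul, S.rho_near hx'.mem]
    refine congrArg (S.fq w O) (congrArg Sum.inl (Subtype.ext ?_))
    exact h3

/-- if another arrow of `y` has the same image then `[a]` is the only out-neighbour of `[y]` -/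
theorem hair {hc : S.Conn} {hm : (S.k0 hc w).Min} {hn : S.SqN w O} (hk : KX1 hm hn)
    (hx : S.Hx w v O y) {z : S.SV w} (hz : S.SAr w (S.rho w y) z)
    (e : S.fq w O z = S.fq w O (S.rho w a)) (hne : z ≠ S.rho w a) :
    (∀ n y' z', ¬ Qn (S.kfP hc w O hm hn) n (S.fq w O (S.rho w y)) (S.fq w O (S.rho w a)) y' z') ∧
    ∀ n q, Q4 (S.kfP hc w O hm hn) n (S.fq w O (S.rho w y)) (S.fq w O (S.rho w a)) q →
      ¬ (S.kf hc w O).ar n (S.fq w O (S.rho w y)) := by
  refine (S.kfP hc w O hm hn).hairW (S.kfP_nd hc w O hm hn) (S.kf_min hc w O hm) hk.top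
    (fun T a b y k _ => hk.x1 T a b y k) ?_ ?_
  · rw [S.kf_ar]
    exact hx.arQ.2 ⟨_, sar_of A.wy A.ar, rfl⟩
  · intro d' hd
    rw [S.kf_ar] at hd
    obtain ⟨z', h1, rfl⟩ := hx.arQ.1 hd
    rcases SAr.two _ _ _ _ hz (sar_of A.wy A.ar) h1 with k | k | k
    · exact absurd k hne
    · rw [← k]
    · rw [← k, e]

end Av

/-- THE IMAGE OF A THIN ARROW OF A PENTAGON -/
theorem PhP.img {y a b c d : V} (A : S.PhP y a b c d) {hc : S.Conn} {hm : (S.k0 hc w).Min}
    {hn : S.SqN w O} (hk : KX1 hm hn) (hz : S.NoDt w)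
    (tog : ∀ x a, S.K.ar x a → Infinite ↥(stabilizer H ((x, a) : V × V)) → S.Tog x a)
    (hO : S.POp w O) (ts : S.PTSA)
    (d0 : S.PD0) (ln : S.PLine) (hA : (y, a) ∈ S.K.ThA) (hI : S.IsC ![y, a, b, c, d] w) :
    ∃ v, S.Hx w v O y ∧ (∀ q c, S.Qs w v q y c → ¬ O.op v q → ¬ S.J a ⊆ bey S.D.G w v) ∧
      (∀ z, S.SAr w (S.rho w y) z → S.fq w O z = S.fq w O (S.rho w a) → z = S.rho w a) ∧
      (S.fq w O (S.rho w y), S.fq w O (S.rho w a)) ∈ (S.kf hc w O).ThA := by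
  have Av := A.av ts d0 ln O hI
  obtain ⟨v, hx, hv⟩ := Av.hx ts
  have hr : ∀ z, S.SAr w (S.rho w y) z → S.fq w O z = S.fq w O (S.rho w a) →
      z = S.rho w a := by
    intro z h1 h2
    by_contra hne
    refine (Av.hair hk hx h1 h2 hne).1 _ _ _ (kfP_qn (a := d) (q := y) (b := a) (y := b) (z := c)
      hm hn A.q.rot.rot.rot.rot ?_)
    intro k
    fin_cases k
    · exact hI 4
    · exact hI 0
    · exact hI 1
    · exact hI 2
    · exact hI 3
  refine ⟨v, hx, hv, hr, ?_⟩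
  refine Av.thA (S.kf_nst hc w O hm hn) hO.n2 hA ts hx hv hr
    (Av.img_n hz tog hO ts d0 hx hv hr hA.2.1) ?_
  obtain ⟨i, hi, j, g, b0, k, -⟩ := (kfP_qn hm hn A.q hI).flag
  exact ⟨_, k⟩

/-- THE IMAGE OF A THIN ARROW OF A SQUARE -/
theorem PhQ.img {y a b d : V} (A : S.PhQ y a b d) {hc : S.Conn} {hm : (S.k0 hc w).Min}
    {hn : S.SqN w O} (hk : KX1 hm hn) (hz : S.NoDt w)
    (tog : ∀ x a, S.K.ar x a → Infinite ↥(stabilizer H ((x, a) : V × V)) → S.Tog x a)
    (hO : S.POp w O) (ho : S.OTS w O) (nd : S.P.ND)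
    (ht : ∀ i, S.P.sq i → ∃ j, S.P.tp i j) (ts : S.PTSA) (d0 : S.PD0) (ln : S.PLine)
    (hA : (y, a) ∈ S.K.ThA) (wy : w ∈ S.J y) (wd : w ∈ S.J d) :
    ∃ v, S.Hx w v O y ∧ (∀ q c, S.Qs w v q y c → ¬ O.op v q → ¬ S.J a ⊆ bey S.D.G w v) ∧
      (∀ z, S.SAr w (S.rho w y) z → S.fq w O z = S.fq w O (S.rho w a) → z = S.rho w a) ∧
      (S.fq w O (S.rho w y), S.fq w O (S.rho w a)) ∈ (S.kf hc w O).ThA := by
  have Av := A.av ht ts d0 ln ho wy wd
  obtain ⟨v, hx, hv⟩ := Av.hx ts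
  have wb := A.wb ts d0 ln wy wd
  obtain ⟨nyb, nad⟩ := A.q.ck_ne nd
  -- `[y] ≠ [b]`
  have n1 : S.fq w O (S.rho w y) ≠ S.fq w O (S.rho w b) := by
    intro e
    exact rho_ne_of_ne wy nyb (hx.alone hO e.symm).symm
  -- the arrows `[d] → [y] → [a]`
  have ya : S.arQ w O (S.fq w O (S.rho w y)) (S.fq w O (S.rho w a)) :=
    hx.arQ.2 ⟨_, sar_of wy A.ar, rfl⟩
  have dy : S.arQ w O (S.fq w O (S.rho w d)) (S.fq w O (S.rho w y)) := by
    refine arQ_term wd ?_ (hO.dn d) (sar_hor wd wy A.dy)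
    intro u k
    have := A.op_d ht ho (g := 1) u.2 (by rwa [one_smul])
    rw [one_smul] at this
    exact (Sk.inl.1 k).2 this
  have n2 : S.fq w O (S.rho w a) ≠ S.fq w O (S.rho w d) := by
    intro e
    have r1 := arQ_rk ya
    have r2 := arQ_rk dy
    rw [e] at r1
    omega
  -- the square of the folded slice
  have hQ : Q4 (S.kfP hc w O hm hn) (S.fq w O (S.rho w y)) (S.fq w O (S.rho w a))
      (S.fq w O (S.rho w b)) (S.fq w O (S.rho w d)) := by
    by_cases wa : w ∈ S.J a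
    · exact (A.q.k0q hc (rho_ne_of_ne wy nyb) (rho_ne_of_ne wa nad)).kfq n1 n2
    · have hu := S.dir_adj wa
      have ha := S.dir_bey wa
      have cb := A.cs_b ts d0 ln wy wd hu ha
      have cy : S.Cs w (S.dir w a) y := ⟨wy, S.dir_cross (Or.inl A.ar) wy wa⟩
      have nd' : ¬ S.Cs w (S.dir w a) d := S.adj_nc hu (Or.symm A.q.E4) cy
      have hd : S.J d ⊆ bey S.D.G (S.dir w a) w := by
        refine S.side_of hu.symm (fun k => nd' ⟨k.2, k.1⟩) wd (bey_self hu.symm)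
      have hs : S.Qs w (S.dir w a) d y b := ⟨hu, cy, cb, hd, Or.inr ⟨a, A.q.rev, ha⟩⟩
      have h1 := Qs.k0 hc hs nyb
      rw [S.rho_far wa] at n2 ⊢
      exact (h1.kfq n1 n2.symm).rev
  have hr : ∀ z, S.SAr w (S.rho w y) z → S.fq w O z = S.fq w O (S.rho w a) →
      z = S.rho w a := by
    intro z h1 h2
    by_contra hne
    refine (Av.hair hk hx h1 h2 hne).2 _ _ hQ.rot.rot.rot ?_
    rw [S.kf_ar]
    exact dy
  refine ⟨v, hx, hv, hr, ?_⟩
  refine Av.thA (S.kf_nst hc w O hm hn) hO.n2 hA ts hx hv hr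
    (Av.img_n hz tog hO ts d0 hx hv hr hA.2.1) ?_
  obtain ⟨i, hi, j, g, b0, k, -⟩ := hQ.flag
  exact ⟨_, k⟩

end

end SyQ

end Pool.Agent.DI
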