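import Pool.Agent.DI.Ph7
import Pool.Agent.DI.PhN
import Pool.Agent.DI.WallC
import Pool.Agent.DI.Bare

/-!
# A broken sink of Z-type gives a new thin direct arrow, I

`S.Wf w u x F`: the flag `F` at `x` goes over the edge `w u`. `UqC.flag`: these flags are one orbit.
`S.Gf w u x F`: in addition the cell of `F` is a pentagon centred at `w`, or a square whose near vertex is
over `w` and not bare. `Gf.hx`: then `Hx w v O x` for the other edge `w v` of `J x`. `Gf.thA`: the arrow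
`[x] → t_u` of the folded slice is in `ThA`.
-/

namespace Pool.Agent.DI

open MulAction
open Pool.Agent.SAF (InC orbs FinOrb oc Decomp SAn SA Conv hull dist_edge FinOrb_iff exists_next)
open Pool.Agent.BT (PX PQ JS bey exits x_next_unique)
open Pool.Agent.BT.TA
open Pool.Agent.SAG (IO Zt)

section

variable {H V : Type} [Group H] [MulAction H V] {K : GX H V} {P : P45 K}

theorem P45.pf5_x (i : K.I) (hi : ¬ P.sq i) (j : Fin 5) (g : H) (b : Bool) :
    P45.fx (P.pf5 i hi j g b) = (P.sh5 i j g b).2.2 := by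
  have e : ∀ j : Fin 5, j + 4 = j + 4 := fun _ => rfl
  cases b
  · show K.c2 (P.l5 i hi j g) = g • P.pt i (j + 2)
    rw [P.c2_5]
  · show K.c0 (P.l5 i hi (j + 4) g) = g • P.pt i (j + 4)
    rw [P.c0_5]

theorem P45.pf4_x (i : K.I) (hi : P.sq i) (j : Fin 4) (g : H) (b : Bool) :
    P45.fx (P.pf4 i hi j g b) = (P.sh4 i j g b).2 := by
  cases b
  · show K.c2 (P.l4 i hi j g) = g • P.qt i (j + 2)
    rw [P.c2_4]
  · show K.c0 (P.l4 i hi (j + 3) g) = g • P.qt i (j + 3)
    rw [P.c0_4]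

end

namespace SyQ

variable {H V : Type} [Group H] [MulAction H V] (S : SyQ H V)

/-- the flag `F` at `x` goes over the edge `w u` -/
structure Wf (w u : S.X) (x : V) (F : FL S.K) : Prop where
  ey : P45.fy F = x
  jz : S.J (P45.fz F) ⊆ bey S.D.G w u
  jx : S.J (P45.fx F) ⊆ bey S.D.G u w

/-- the cell of the flag is a pentagon centred at `w` -/
def C5f (w : S.X) (F : FL S.K) : Prop := ∃ i hi j g b, F = S.P.pf5 i hi j g b ∧
  S.IsC ![P45.fy F, P45.fz F, (S.P.sh5 i j g b).1, (S.P.sh5 i j g b).2.1,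
    (S.P.sh5 i j g b).2.2] w

variable {S}

/-- the flags over the edge are one orbit -/
theorem UqC.flag {w u : S.X} {x : V} (h : S.UqC w u x) {F F' : FL S.K}
    (k : S.Wf w u x F) (k' : S.Wf w u x F') :
    ∃ g : H, g • x = x ∧ g • w = w ∧ g • u = u ∧ g • F = F' := by
  have ex : ∀ F : FL S.K, S.Wf w u x F → S.Xe w u F.1 := by
    rintro ⟨e, b⟩ ⟨-, k1, k2⟩
    cases b
    · exact Or.inl ⟨k1, k2⟩
    · exact Or.inr ⟨k1, k2⟩
  obtain ⟨g, g1, g2, g3, g4⟩ := h F.1 F'.1 k.ey k'.ey (ex F k) (ex F' k')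
  refine ⟨g, g1, g2, g3, Prod.ext g4.symm ?_⟩
  show F.2 = F'.2
  by_contra hne
  -- the next vertex of `F'` is the image of the previous one of `F`
  have e : P45.fz F' = g • P45.fx F := by
    obtain ⟨e, b⟩ := F
    obtain ⟨e', b'⟩ := F'
    have g4' : e' = g • e := g4
    cases b <;> cases b'
    · exact absurd rfl hne
    · show S.K.c2 e' = g • S.K.c2 e
      rw [g4']
      exact S.K.c2_smul g e
    · show S.K.c0 e' = g • S.K.c0 e
      rw [g4']
      exact S.K.c0_smul g e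
    · exact absurd rfl hne
  have h1 := S.sub_bey_smul g k.jx
  rw [g2, g3, ← e] at h1
  obtain ⟨p, hp⟩ := S.js.ne (P45.fz F')
  exact bey_not (h1 hp) (k'.jz hp)

theorem C5f.smul {w : S.X} {F : FL S.K} (h : S.C5f w F) (g : H) : S.C5f (g • w) (g • F) := by
  obtain ⟨i, hi, j, g0, b, e, hI⟩ := h
  refine ⟨i, hi, j, g * g0, b, by rw [e, S.P.pf5_smul], ?_⟩
  have := ph_isC_smul g hI
  rw [S.P.sh5_smul]
  have e1 : P45.fy (g • F) = g • P45.fy F := P45.fy_smul g F
  have e2 : P45.fz (g • F) = g • P45.fz F := P45.fz_smul g F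
  rw [e1, e2]
  exact this

/-- the centre of the cell of the flag of a walk -/
theorem C5f.of_pf5 {w : S.X} {i : S.K.I} {hi : ¬ S.P.sq i} {j : Fin 5} {g : H} {b0 : Bool}
    {y a b c d : V}
    (k : (P45.fy (S.P.pf5 i hi j g b0), P45.fz (S.P.pf5 i hi j g b0)) = (y, a))
    (k2 : S.P.sh5 i j g b0 = (b, c, d)) :
    S.C5f w (S.P.pf5 i hi j g b0) ↔ S.IsC ![y, a, b, c, d] w := by
  have e1 : P45.fy (S.P.pf5 i hi j g b0) = y := congrArg Prod.fst k
  have e2 : P45.fz (S.P.pf5 i hi j g b0) = a := congrArg Prod.snd k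
  constructor
  · rintro ⟨i', hi', j', g', b', e, hI⟩
    obtain ⟨rfl, rfl, rfl, rfl⟩ := S.P.pf5_inj e
    rw [e1, e2, k2] at hI
    exact hI
  · intro hI
    refine ⟨i, hi, j, g, b0, rfl, ?_⟩
    rw [e1, e2, k2]
    exact hI

theorem C5f.not_pf4 {w : S.X} {i : S.K.I} {hi : S.P.sq i} {j : Fin 4} {g : H} {b0 : Bool} :
    ¬ S.C5f w (S.P.pf4 i hi j g b0) := by
  rintro ⟨i', hi', j', g', b', e, -⟩
  exact S.P.pf5_ne_pf4 e.symm

/-- the flags of a zero square at `x` -/
theorem Qs.flag {w u : S.X} {q x x' : V} (h : S.Qs w u q x x') :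
    (∃ F : FL S.K, S.Wf w u x F ∧ P45.fx F = q ∧ ¬ S.C5f w F) ∧
    ∃ F : FL S.K, P45.fy F = x ∧ P45.fz F = q ∧ S.J (P45.fx F) ⊆ bey S.D.G w u ∧
      ¬ S.C5f w F := by
  have hu := h.adj
  have hn := h.near
  obtain ⟨-, -, -, -, ⟨y, z, hq, hy, hz⟩ | ⟨y, hq, hy⟩⟩ := h
  · constructor
    · -- the walk `x, z, y, x', q`
      obtain ⟨i, hi, j, g, b0, k1, k2⟩ := hq.rev.flag
      refine ⟨_, ⟨congrArg Prod.fst k1, ?_, ?_⟩, ?_, ?_⟩
      · rw [show P45.fz (S.P.pf5 i hi j g b0) = z from congrArg Prod.snd k1]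
        exact hz
      · rw [S.P.pf5_x, k2]
        exact hn
      · rw [S.P.pf5_x, k2]
      · rw [C5f.of_pf5 k1 k2]
        intro hI
        rcases (hI 1 : w ∈ S.J z ∨ w ∈ S.J y) with k | k
        · exact S.not_mem_of_bey hu hz k
        · exact S.not_mem_of_bey hu hy k
    · obtain ⟨i, hi, j, g, b0, k1, k2⟩ := hq.flag
      refine ⟨_, congrArg Prod.fst k1, congrArg Prod.snd k1, ?_, ?_⟩
      · rw [S.P.pf5_x, k2]
        exact hz
      · rw [C5f.of_pf5 k1 k2]
        intro hI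
        rcases (hI 3 : w ∈ S.J y ∨ w ∈ S.J z) with k | k
        · exact S.not_mem_of_bey hu hy k
        · exact S.not_mem_of_bey hu hz k
  · constructor
    · obtain ⟨i, hi, j, g, b0, k1, k2⟩ := hq.rev.flag
      refine ⟨_, ⟨congrArg Prod.fst k1, ?_, ?_⟩, ?_, C5f.not_pf4⟩
      · rw [show P45.fz (S.P.pf4 i hi j g b0) = y from congrArg Prod.snd k1]
        exact hy
      · rw [S.P.pf4_x, k2]
        exact hn
      · rw [S.P.pf4_x, k2]
    · obtain ⟨i, hi, j, g, b0, k1, k2⟩ := hq.flag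
      refine ⟨_, congrArg Prod.fst k1, congrArg Prod.snd k1, ?_, C5f.not_pf4⟩
      rw [S.P.pf4_x, k2]
      exact hy

variable (S)

/-- THE GOOD FLAG at a broken sink -/
structure Gf (w u : S.X) (x : V) (F : FL S.K) : Prop extends S.Wf w u x F where
  gd : S.C5f w F ∨ (w ∈ S.J (P45.fx F) ∧ ¬ S.P.Bare (P45.fx F) ∧
    ∃ c, x ≠ c ∧ S.Qs w u (P45.fx F) x c)

variable {S}

/-- beyond another neighbour -/
theorem bey_other {w u v : S.X} (hu : S.D.G.Adj w u) (hv : S.D.G.Adj w v) (hne : u ≠ v) {s : V}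
    (hs : S.J s ⊆ bey S.D.G w v) : S.J s ⊆ bey S.D.G u w := by
  intro p hp
  rcases bey_or S.D.tree hu p with k | k
  · exact absurd (S.bey_unique hu hv k (hs hp)) hne
  · exact k

/-- `Hx` AT A BROKEN SINK -/
theorem Gf.hx {w u v : S.X} {O : S.OR w} {x : V} {F : FL S.K} (h : S.Gf w u x F)
    (hopn : ∀ u q, S.D.G.Adj w u → w ∈ S.J q → ¬ S.P.Bare q → O.op u q)
    (hq : S.UqC w u x) (hs : ∀ a, ¬ S.K.ar x a) (hu : S.D.G.Adj w u) (hv : S.D.G.Adj w v)
    (wx : w ∈ S.J x) (ux : u ∈ S.J x) (vx : v ∈ S.J x) (hne : u ≠ v) :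
    S.Hx w v O x ∧ ∀ q c, S.Qs w u q x c → O.op u q := by
  -- zero squares over `w u`
  have key : ∀ q c, S.Qs w u q x c → w ∈ S.J q ∧ O.op u q := by
    intro q c k
    obtain ⟨⟨F', k1, k2, k3⟩, -⟩ := k.flag
    obtain ⟨g, g1, g2, g3, g4⟩ := hq.flag h.toWf k1
    rcases h.gd with e | ⟨e1, e2, -⟩
    · exfalso
      have := e.smul g
      rw [g2, g4] at this
      exact k3 this
    · have e3 : q = g • P45.fx F := by
        rw [← k2, ← g4]
        exact P45.fx_smul g F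
      have e4 : w ∈ S.J q := by
        have := S.js.smul g _ _ e1
        rwa [g2, ← e3] at this
      refine ⟨e4, hopn u q hu e4 ?_⟩
      rw [e3, P45.bare_iff]
      exact e2
  refine ⟨⟨wx, ?_, ?_⟩, fun q c k => (key q c k).2⟩
  · intro u' q x' k
    have hE : S.K.ar q x := k.E1.resolve_left (hs q)
    rcases ph_two wx hu ux hv vx k.adj k.l.2 with e | e | e
    · exact absurd e hne
    · -- the edge `w v`
      rw [← e] at k ⊢
      refine ⟨hE, ?_, Or.inl rfl⟩
      by_contra hwq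
      obtain ⟨r, r0, r1⟩ := S.one_ex (Or.inl hE)
      have hrw : w ≠ r := by
        rintro rfl
        exact hwq r0
      obtain ⟨t, t1, t2, t3⟩ := ph_nbr wx r1 hrw
      have htu : t = u := by
        rcases ph_two wx hu ux hv vx t1 t2 with e | e | e
        · exact absurd e hne
        · rw [← e] at t3
          exact absurd (k.near r0) (fun h => bey_not t3 h)
        · exact e.symm
      rw [htu] at t3
      have nq : ¬ S.Cs w u q := S.adj_nc hu (Or.inr hE) ⟨wx, ux⟩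
      have hqu : S.J q ⊆ bey S.D.G w u := S.side_of hu nq r0 t3
      obtain ⟨-, F', k1, k2, k3, k4⟩ := k.flag
      have hW : S.Wf w u x F' := ⟨k1, by rw [k2]; exact hqu, bey_other hu hv hne k3⟩
      obtain ⟨g, g1, g2, g3, g4⟩ := hq.flag h.toWf hW
      rcases h.gd with e | ⟨e1, e2, -⟩
      · have := e.smul g
        rw [g2, g4] at this
        exact k4 this
      · have e3 : P45.fx F' = g • P45.fx F := by
          rw [← g4]
          exact P45.fx_smul g F
        have e4 := S.js.smul g _ _ e1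
        rw [g2, ← e3] at e4
        exact S.not_mem_of_bey hv k3 e4
    · rw [← e] at k ⊢
      obtain ⟨k1, k2⟩ := key _ _ k
      exact ⟨hE, k1, Or.inr k2⟩
  · rintro u' ⟨-, a, b, -, ha, -⟩
    exact hs a ha

/-- THE NEW THIN DIRECT ARROW -/
theorem Gf.thA {w u v : S.X} {O : S.OR w} {x : V} {F : FL S.K} (h : S.Gf w u x F)
    (hopn : ∀ u q, S.D.G.Adj w u → w ∈ S.J q → ¬ S.P.Bare q → O.op u q)
    (hO : S.POp w O) (hz : S.NoDt w) {hc : S.Conn} {hm : (S.k0 hc w).Min} {hn : S.SqN w O}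
    (hnb : S.NB) (hq : S.UqC w u x) (hs : ∀ a, ¬ S.K.ar x a) (hu : S.D.G.Adj w u)
    (hv : S.D.G.Adj w v) (fo : ∀ g : H, g • x = x → g • w = w → g • u = u → ¬ IO g)
    (wx : w ∈ S.J x) (ux : u ∈ S.J x) (vx : v ∈ S.J x) (hne : u ≠ v) :
    (S.fq w O (S.rho w x), S.fq w O (Sum.inr ⟨u, hu⟩)) ∈ (S.kf hc w O).ThA := by
  obtain ⟨hx, hop⟩ := h.hx hopn hq hs hu hv wx ux vx hne
  have hns := S.kf_nst hc w O hm hn
  refine ⟨hx.arQ.2 ⟨_, sar_up hu ⟨wx, ux⟩, rfl⟩, ⟨?_, ?_⟩, ?_, ?_⟩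
  · -- `t_u` is a sink
    intro g _ _ m hm'
    exact absurd hm' (vdz_t_snk hc O ⟨u, hu⟩ m)
  · -- elements which fix both have finite order
    intro _ hi g gx gt
    have hs' : S.fq w O (S.rho w (g.1 • x)) = S.fq w O (S.rho w x) := by
      rw [S.rho_smul, fq_smul]
      exact gx
    have g1 : g.1 • x = x := by
      have := hx.alone hO hs'
      rw [S.rho_near wx] at this
      exact rho_inl this
    have g2 := (vdz_t_stab (O := O) ⟨u, hu⟩ g).1 gt
    have hio := fo g.1 g1 g.2 g2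
    have es := S.vdzIso O (⟨u, hu⟩ : S.EV w)
    have hi' : Infinite ↥(stabilizer H w ⊓ stabilizer H u) :=
      Infinite.of_injective es.symm es.symm.injective
    have hz' : Zt ↥(stabilizer ↥(stabilizer H w) (S.fq w O (Sum.inr ⟨u, hu⟩))) :=
      Pool.Agent.SAG.Zt.of_inj es.symm.toMonoidHom es.symm.injective (hz u hu hi')
    exact (ny_zt hz' hi).2 ⟨gt, fun k => hio (io_coe.2 k)⟩
  · -- a flag
    have fz : S.rho w (P45.fz F) = Sum.inr ⟨u, hu⟩ := S.rho_bey hu h.jz
    rcases h.gd with ⟨i, hi, j, g, b, e, hI⟩ | ⟨e1, e2, c, hxc, e3⟩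
    · have hy := h.ey
      have k1 : (P45.fy (S.P.pf5 i hi j g b), P45.fz (S.P.pf5 i hi j g b)) =
          (x, P45.fz F) := by
        rw [← e, hy]
      have hQ := P45.qn_pf5 k1
      rw [hy] at hI
      have h2 := kfP_qn hm hn hQ hI
      rw [fz] at h2
      obtain ⟨i, hi, j, g, b0, k, -⟩ := h2.flag
      exact ⟨_, k⟩
    · have n1 : S.fq w O (S.rho w x) ≠ S.fq w O (S.rho w c) := by
        intro k
        exact rho_ne_of_ne wx hxc (hx.alone hO k.symm).symm
      have n2 : S.fq w O (S.rho w (P45.fx F)) ≠ S.fq w O (Sum.inr ⟨u, hu⟩) := by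
        rw [S.rho_near e1]
        intro k
        exact (Sk.inl.1 (fq_inr.1 k)).2 (hopn u _ hu e1 e2)
      have h2 := ((Qs.k0 hc e3 hxc).kfq (hm := hm) (hn := hn) n1 n2).rev
      obtain ⟨i, hi, j, g, b0, k, -⟩ := h2.flag
      exact ⟨_, k⟩
  · -- one orbit
    have key : ∀ f : FL (S.kf hc w O), (P45.fy f, P45.fz f) =
        (S.fq w O (S.rho w x), S.fq w O (Sum.inr ⟨u, hu⟩)) →
        (∃ x1 : S.NV w, (S.k0 hc w).c1 (Qt.lf hns f.1) = Sum.inl x1) ∧
        S.Wf w u x ((bkq hc (Qt.lf hns f.1), f.2) : FL S.K) := by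
      intro f k
      obtain ⟨x1, k1, k2, k3, k4⟩ := hx.flag hns hO.n2 (congrArg Prod.fst k)
      have ex1 : x1.1 = x := by
        have := hx.alone hO (k2.fq)
        rw [S.rho_near wx, S.rho_near x1.2] at this
        exact congrArg Subtype.val (Sum.inl.inj this)
      rw [ex1] at k3
      have e2 : P45.fz f = S.fq w O (Sum.inr ⟨u, hu⟩) := congrArg Prod.snd k
      rw [k4, fq_inr] at e2
      have hE := P45.fE ((bkq hc (Qt.lf hns f.1), f.2) : FL S.K)
      have k3' : P45.fy ((bkq hc (Qt.lf hns f.1), f.2) : FL S.K) = x := k3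
      rw [k3'] at hE
      -- the next vertex is beyond `u`
      have hz : S.J (P45.fz ((bkq hc (Qt.lf hns f.1), f.2) : FL S.K)) ⊆ bey S.D.G w u := by
        rcases e2 with e2 | ⟨q, e2, e3, e4⟩
        · exact rho_inr e2
        · exfalso
          have e5 : P45.fz ((bkq hc (Qt.lf hns f.1), f.2) : FL S.K) = q.1 := rho_inl e2
          rw [e5] at hE
          obtain ⟨c, hc'⟩ := e3.1.qs (hE.resolve_left (hs _))
          exact e4 (hop _ _ hc')
      refine ⟨⟨x1, k1⟩, k3', hz, ?_⟩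
      -- the previous vertex is not
      have hvis := (bkq_vis hc hnb _ k1).1.2
      have hE' : S.K.E (P45.fx ((bkq hc (Qt.lf hns f.1), f.2) : FL S.K)) x := by
        rw [← k3']
        cases f.2
        · exact (S.K.c_E2 _).symm
        · exact (S.K.c_E0 _).symm
      have hne' : S.rho w (P45.fx ((bkq hc (Qt.lf hns f.1), f.2) : FL S.K)) ≠
          Sum.inr ⟨u, hu⟩ := by
        rw [← S.rho_bey hu hz]
        cases f.2
        · exact hvis.symm
        · exact hvis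
      have nc := S.adj_nc hu hE'.symm ⟨wx, ux⟩
      obtain ⟨p, hp⟩ := S.js.ne (P45.fx ((bkq hc (Qt.lf hns f.1), f.2) : FL S.K))
      rcases bey_or S.D.tree hu p with k | k
      · exact absurd (S.rho_bey hu (S.side_of hu nc hp k)) hne'
      · exact S.side_of hu.symm (fun k => nc ⟨k.2, k.1⟩) hp k
    intro f f' k k'
    obtain ⟨⟨x1, k1⟩, k2⟩ := key f k
    obtain ⟨⟨x1', k1'⟩, k2'⟩ := key f' k'
    obtain ⟨g, g1, g2, g3, g4⟩ := hq.flag k2 k2'
    exact flag_orbit hns k1 k1' g2 (congrArg (fun z : FL S.K => z.1) g4)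
      (congrArg (fun z : FL S.K => z.2) g4)

end SyQ

end Pool.Agent.DI
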