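import Pool.Agent.DI.Ph8

/-!
# A broken sink of Z-type gives a new thin direct arrow, II

`S.PhG w O`: the hypotheses. `PhG.gf_ex`: a broken sink has a translate with a good flag at an edge of `w`.
`PhG.phA_lt`: `phi_0` goes up. `PhG.sat`: if `phi_0` is constant then every sink of Z-type sits at a
translate of `w`.
-/

namespace Pool.Agent.DI

open MulAction
open Pool.Agent.SAF (InC orbs FinOrb oc Decomp SAn SA Conv hull dist_edge FinOrb_iff exists_next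
  oc_le_of_rel orbs_mono mk_eq_iff)
open Pool.Agent.BT (PX PQ JS bey exits x_next_unique)
open Pool.Agent.BT.TA

/-- strict comparison of orbit numbers by a relation -/
theorem ph_oc_lt {H Y H' Y' : Type} [Group H] [MulAction H Y] [Group H'] [MulAction H' Y']
    {s : Set Y} {s' : Set Y'} (hs' : FinOrb H' s') (R : Y → Y' → Prop)
    (hf : ∀ a ∈ s, ∃ b ∈ s', R a b)
    (hinj : ∀ a ∈ s, ∀ b ∈ s, ∀ a' ∈ s', ∀ b' ∈ s', R a a' → R b b' →
      (∃ h : H', h • a' = b') → ∃ h : H, h • a = b) {b0 : Y'} (hb0 : b0 ∈ s')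
    (hmiss : ∀ a ∈ s, ∀ b ∈ s', R a b → ∀ h : H', h • b ≠ b0) : oc H s < oc H' s' := by
  have h1 : oc H s ≤ oc H' {y | y ∈ s' ∧ ∀ h : H', h • y ≠ b0} := by
    apply oc_le_of_rel (hs'.mono (fun _ h => h.1)) R
    · intro a ha
      obtain ⟨b, hb, hR⟩ := hf a ha
      exact ⟨b, ⟨hb, hmiss a ha b hb hR⟩, hR⟩
    · intro a ha b hb a' ha' b' hb' hR hR' hh
      exact hinj a ha b hb a' ha'.1 b' hb'.1 hR hR' hh
  refine lt_of_le_of_lt h1 ?_
  apply Set.ncard_lt_ncard ?_ hs'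
  refine ⟨orbs_mono (fun _ h => h.1), ?_⟩
  intro hsub
  obtain ⟨y, ⟨-, hy⟩, e⟩ := hsub ⟨b0, hb0, rfl⟩
  obtain ⟨h, hh⟩ := mk_eq_iff.1 e
  refine hy h⁻¹ ?_
  rw [← hh, inv_smul_smul]

namespace SyQ

variable {H V : Type} [Group H] [MulAction H V] (S : SyQ H V)

/-- THE HYPOTHESES OF THE STRICT PART -/
structure PhG (w : S.X) (O : S.OR w) : Prop extends S.PhH w O where
  hc : S.Conn
  nb : S.NB
  /-- links are connected -/
  lc : ∀ v, S.K.LC v
  /-- there is a pentagon -/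
  pe : ∃ i, ¬ S.P.sq i
  opn : ∀ u q, S.D.G.Adj w u → w ∈ S.J q → ¬ S.P.Bare q → O.op u q
  /-- bare tops are not local -/
  bloc : ∀ T a b y, S.P.Top T a b y → S.P.Bare T → ¬ S.Loc w T a b y
  /-- a bare vertex over `w` sits at `w` -/
  bJ : ∀ v, S.P.Bare v → w ∈ S.J v → ∀ p ∈ S.J v, p = w
  /-- the places of the edges are in the orbit of `w` -/
  pb : ∀ x y, S.K.E x y → ∀ p ∈ S.J x, p ∈ S.J y → ∃ g : H, g • w = p
  /-- the corners of a broken sink over an edge of `w` are one orbit -/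
  uq : ∀ x, (∀ a, ¬ S.K.ar x a) → x ∉ S.K.sVD → ∀ e, S.D.G.Adj w e → w ∈ S.J x → e ∈ S.J x →
    S.UqC w e x
  /-- elements which fix a broken sink and an edge of its line have finite order -/
  fo : ∀ x, (∀ a, ¬ S.K.ar x a) → ∀ p e, S.D.G.Adj p e → p ∈ S.J x → e ∈ S.J x →
    ∀ g : H, g • x = x → g • p = p → g • e = e → ¬ Pool.Agent.SAG.IO g

variable {S}

theorem ph_qs_smul (g : H) {w u : S.X} {q x x' : V} (h : S.Qs w u q x x') :
    S.Qs (g • w) (g • u) (g • q) (g • x) (g • x') := by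
  obtain ⟨h1, h2, h3, h4, h5⟩ := h
  refine ⟨S.D.adj_smul g _ _ h1, h2.smul g, h3.smul g, S.sub_bey_smul g h4, ?_⟩
  rcases h5 with ⟨y, z, k1, k2, k3⟩ | ⟨y, k1, k2⟩
  · exact Or.inl ⟨_, _, k1.smul g, S.sub_bey_smul g k2, S.sub_bey_smul g k3⟩
  · exact Or.inr ⟨_, k1.smul g, S.sub_bey_smul g k2⟩

theorem Gf.smul {w u : S.X} {x : V} {F : FL S.K} (h : S.Gf w u x F) (g : H) :
    S.Gf (g • w) (g • u) (g • x) (g • F) where
  ey := by
    rw [P45.fy_smul, h.ey]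
  jz := by
    rw [P45.fz_smul]
    exact S.sub_bey_smul g h.jz
  jx := by
    rw [P45.fx_smul]
    exact S.sub_bey_smul g h.jx
  gd := by
    rcases h.gd with k | ⟨k1, k2, c, k3, k4⟩
    · exact Or.inl (k.smul g)
    · right
      rw [P45.fx_smul]
      refine ⟨S.js.smul g _ _ k1, fun k => k2 ((P45.bare_iff g).1 k), g • c, ?_,
        ph_qs_smul g k4⟩
      intro e
      exact k3 (smul_left_cancel g e)

/-! ### bare vertices at a sink -/

/-- the cell of a corner at a bare vertex -/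
theorem bare_sq {n x m : V} (hb : S.P.Bare n) (h : S.K.Cor n x m) (e : S.K.ar n x) :
    ∃ y, Q4 S.P n x m y ∧ S.K.ar n y := by
  rcases P45.cor_cases (P := S.P) h with ⟨b, c, h⟩ | ⟨b, h⟩
  · exfalso
    have ec : S.K.ar n c := (Or.symm h.E5).resolve_right (hb.1 c)
    exact hb.2 c x m b ec e (by
      have := h.rot.rot.rot.rot
      exact this)
  · exact ⟨b, h, (Or.symm h.E4).resolve_right (hb.1 b)⟩

/-- the corners `n, x, m` of a bare vertex `n` are not local -/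
theorem PhG.bare_nl {w : S.X} {O : S.OR w} (h : S.PhG w O) {n x m : V} {p : S.X}
    (hb : S.P.Bare n) (e : S.K.ar n x) (hn : p ∈ S.J n) (hx : p ∈ S.J x) (hc : S.K.Cor n x m) :
    p ∉ S.J m := by
  intro hm
  obtain ⟨y, hq, ey⟩ := bare_sq hb hc e
  obtain ⟨g, rfl⟩ := h.pb n x (Or.inl e) p hn hx
  have hJ : ∀ r ∈ S.J n, r = g • w := by
    intro r hr
    have h1 : w ∈ S.J (g⁻¹ • n) := by
      have := S.js.smul g⁻¹ _ _ hn
      rwa [inv_smul_smul] at this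
    have h2 := S.js.smul g⁻¹ _ _ hr
    rw [← h.bJ _ (hb.smul g⁻¹) h1 _ h2, smul_inv_smul]
  have hy : g • w ∈ S.J y := by
    obtain ⟨r, r0, r1⟩ := S.one_ex (Or.inl ey)
    rwa [hJ r r0] at r1
  have ht : S.P.Top n x y m := ⟨hq.symm.rot, e, ey⟩
  have back : ∀ v, g • w ∈ S.J v → w ∈ S.J (g⁻¹ • v) := by
    intro v hv
    have := S.js.smul g⁻¹ _ _ hv
    rwa [inv_smul_smul] at this
  exact h.bloc _ _ _ _ (ht.smul g⁻¹) (hb.smul g⁻¹) ⟨back _ hn, back _ hx, back _ hy, back _ hm⟩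

/-- not all in-arrows of a sink come from bare vertices -/
theorem bare_all (lc : ∀ v, S.K.LC v) (nd : S.P.ND) (pe : ∃ i, ¬ S.P.sq i) {x : V}
    (hs : ∀ a, ¬ S.K.ar x a) (hb : ∀ n, S.K.ar n x → S.P.Bare n) {n0 m0 : V}
    (h0 : S.K.Cor n0 x m0) : False := by
  have e0 : S.K.ar n0 x := h0.E1.resolve_left (hs _)
  obtain ⟨y, hq, ey⟩ := bare_sq (hb _ e0) h0 e0
  obtain ⟨-, hxy⟩ := hq.ck_ne nd
  -- the poles of a vertex
  have poles : ∀ n z, S.K.ar n x → S.K.ar n y → S.K.ar n z → z = x ∨ z = y := by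
    intro n z h1 h2 h3
    rcases S.K.two _ _ _ _ h1 h2 h3 with k | k | k
    · exact absurd k hxy
    · exact Or.inr k.symm
    · exact Or.inl k.symm
  -- corners at `x`
  have sx : ∀ a b, S.K.Cor a x b → S.K.ar a y → S.K.ar b y := by
    intro a b hc ha
    have ax : S.K.ar a x := hc.E1.resolve_left (hs _)
    have bx : S.K.ar b x := hc.E2.resolve_left (hs _)
    obtain ⟨z, h1, h2⟩ := bare_sq (hb _ ax) hc ax
    rcases poles _ _ ax ha h2 with k | k
    · exact absurd k.symm (h1.ck_ne nd).2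
    · rw [k] at h1
      exact h1.E3.resolve_right ((hb _ bx).1 y)
  have nx : ∀ n, S.K.ar n x → S.K.ar n y := by
    intro n hn
    have k := lc x n0 n (Or.inr e0) (Or.inr hn)
    have key : ∀ a b, S.K.LJ x a b → (S.K.ar a y ↔ S.K.ar b y) := by
      intro a b k
      induction k with
      | rel a b k => exact ⟨sx a b k, sx b a k.symm⟩
      | refl a => exact Iff.rfl
      | symm a b _ ih => exact ih.symm
      | trans a b c _ _ i1 i2 => exact i1.trans i2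
    exact (key _ _ k).1 ey
  -- corners at `y`
  have sy : ∀ a b, S.K.Cor a y b → S.K.ar a x → S.K.ar b x := by
    intro a b hc ha
    have ay := nx a ha
    obtain ⟨z, h1, h2⟩ := bare_sq (hb _ ha) hc ay
    rcases poles _ _ ha ay h2 with k | k
    · rw [k] at h1
      exact h1.E3.resolve_right (hs b)
    · exact absurd k.symm (h1.ck_ne nd).2
  have ny : ∀ n, S.K.E y n → S.K.ar n x := by
    intro n hn
    have k := lc y n0 n (Or.inr ey) hn
    have key : ∀ a b, S.K.LJ y a b → (S.K.ar a x ↔ S.K.ar b x) := by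
      intro a b k
      induction k with
      | rel a b k => exact ⟨sy a b k, sy b a k.symm⟩
      | refl a => exact Iff.rfl
      | symm a b _ ih => exact ih.symm
      | trans a b c _ _ i1 i2 => exact i1.trans i2
    exact (key _ _ k).1 e0
  have all : ∀ v, v = x ∨ v = y ∨ S.K.ar v x := by
    intro v
    have k := S.K.conn x v
    induction k with
    | refl => exact Or.inl rfl
    | tail _ h2 ih =>
      rcases ih with e | e | e
      · rw [e] at h2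
        exact Or.inr (Or.inr (h2.resolve_left (hs _)))
      · rw [e] at h2
        exact Or.inr (Or.inr (ny _ h2))
      · rcases poles _ _ e (nx _ e) (h2.resolve_right ((hb _ e).1 _)) with k | k
        · exact Or.inl k
        · exact Or.inr (Or.inl k)
  -- a pentagon
  obtain ⟨i, hi⟩ := pe
  have hQ := Qn_pt (P := S.P) (1 : H) hi 0
  -- no vertex of it is bare
  have nb : ∀ a q b c d, Qn S.P a q b c d → ¬ S.K.ar q x := by
    intro a q b c d h k
    have h1 := (hb _ k).1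
    exact (hb _ k).2 a b c d ((Or.symm h.E1).resolve_right (h1 _)) (h.E2.resolve_right (h1 _)) h
  have ne : ∀ a q b c d, Qn S.P a q b c d → q = x ∨ q = y := by
    intro a q b c d h
    rcases all q with k | k | k
    · exact Or.inl k
    · exact Or.inr k
    · exact absurd k (nb _ _ _ _ _ h)
  have hxy' : ¬ S.K.E x y := by
    rintro (k | k)
    · exact hs _ k
    · have := S.K.ar_rk _ _ (nx _ k)
      omega
  have k1 := ne _ _ _ _ _ hQ
  have k2 := ne _ _ _ _ _ hQ.rot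
  have hE := hQ.E2
  rcases k1 with k1 | k1 <;> rcases k2 with k2 | k2 <;> rw [k1, k2] at hE
  · exact S.K.E_irr _ hE
  · exact hxy' hE
  · exact hxy' hE.symm
  · exact S.K.E_irr _ hE

/-- A CROSSING CORNER which is in a pentagon or whose near vertex is not bare -/
theorem PhG.corner {w : S.X} {O : S.OR w} (h : S.PhG w O) {x : V} (hs : ∀ a, ¬ S.K.ar x a)
    {p0 e0 : S.X} (ha : S.D.G.Adj p0 e0) (hp0 : p0 ∈ S.J x) (he0 : e0 ∈ S.J x) :
    ∃ p e n m, S.D.G.Adj p e ∧ p ∈ S.J x ∧ e ∈ S.J x ∧ S.K.ar n x ∧ p ∈ S.J n ∧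
      S.K.Cor n x m ∧ S.J m ⊆ bey S.D.G p e ∧
      ((∃ c d, Qn S.P n x m c d) ∨ ((∃ y, Q4 S.P n x m y) ∧ ¬ S.P.Bare n)) := by
  by_contra hcon
  push Not at hcon
  have ts := h.ts x p0 e0 ha ⟨hp0, he0⟩
  -- crossing corners in the piece of every in-arrow
  have step : ∀ n, S.K.ar n x → ∃ p n' m, p ∈ S.J n' ∧ S.PLP x p n n' ∧ S.K.Cor n' x m ∧
      S.K.ar n' x ∧ p ∈ S.J x ∧ S.P.Bare n' := by
    intro n hn
    obtain ⟨p, hpn, hpx⟩ := S.one_ex (Or.inl hn)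
    have : ∃ e, S.D.G.Adj p e ∧ e ∈ S.J x := by
      by_cases k : p = p0
      · rw [k]
        exact ⟨e0, ha, he0⟩
      · obtain ⟨t, t1, t2, -⟩ := ph_nbr hpx hp0 k
        exact ⟨t, t1, t2⟩
    obtain ⟨e, e1, e2⟩ := this
    obtain ⟨n', m, k1, k2, k3⟩ := (ts p n hn hpx hpn).1 e e1 e2
    have hn' : S.K.ar n' x := k2.E1.resolve_left (hs _)
    have hpn' := k1.mem hpn
    have hk := hcon p e n' m e1 hpx e2 hn' hpn' k2 k3
    refine ⟨p, n', m, hpn', k1, k2, hn', hpx, ?_⟩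
    rcases P45.cor_cases (P := S.P) k2 with ⟨b, c, q⟩ | ⟨b, q⟩
    · exact absurd q (hk.1 b c)
    · exact hk.2 ⟨b, q⟩
  have hb : ∀ n, S.K.ar n x → S.P.Bare n := by
    intro n hn
    obtain ⟨p, n', m, k1, k2, k3, k4, k5, k6⟩ := step n hn
    have := PLP.single (fun m hm => h.bare_nl k6 k4 k1 k5 hm) k2.symm
    rw [this]
    exact k6
  -- there is an in-arrow
  have : ∃ n, S.K.ar n x := by
    by_contra hno
    push Not at hno
    have hall : ∀ v, v = x := by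
      intro v
      have k := S.K.conn x v
      induction k with
      | refl => rfl
      | tail _ h2 ih =>
        rw [ih] at h2
        rcases h2 with h2 | h2
        · exact absurd h2 (hs _)
        · exact absurd h2 (hno _)
    obtain ⟨i, hi⟩ := h.pe
    have hQ := Qn_pt (P := S.P) (1 : H) hi 0
    have hE := hQ.E1
    rw [hall (_ • S.P.pt i 0), hall (_ • S.P.pt i (0 + 1))] at hE
    exact S.K.E_irr _ hE
  obtain ⟨n, hn⟩ := this
  obtain ⟨p, n', m, k1, k2, k3, k4, k5, k6⟩ := step n hn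
  exact bare_all h.lc h.nd h.pe hs hb k3

/-- the flag of a pentagon centred at `c`, from the corner `n, x, m` which crosses an edge -/
theorem gf_of_qn {x n m c3 c4 : V} {p e c : S.X} (ha : S.D.G.Adj p e) (hp : p ∈ S.J x)
    (he : e ∈ S.J x) (hn : p ∈ S.J n) (hm : S.J m ⊆ bey S.D.G p e) (hq : Qn S.P n x m c3 c4)
    (hI : S.IsC ![n, x, m, c3, c4] c) : ∃ c' F, S.D.G.Adj c c' ∧ c ∈ S.J x ∧ c' ∈ S.J x ∧
      S.Gf c c' x F := by
  have i0 : c ∈ S.J n ∨ c ∈ S.J x := hI 0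
  have i1 : c ∈ S.J x ∨ c ∈ S.J m := hI 1
  have i2 : c ∈ S.J m ∨ c ∈ S.J c3 := hI 2
  have i3 : c ∈ S.J c3 ∨ c ∈ S.J c4 := hI 3
  have i4 : c ∈ S.J c4 ∨ c ∈ S.J n := hI 4
  -- `J n`, `J m` are on different sides
  have hnn : S.J n ⊆ bey S.D.G e p :=
    S.side_of ha.symm (fun k => S.adj_nc ha hq.E1.symm ⟨hp, he⟩ ⟨k.2, k.1⟩) hn (bey_self ha.symm)
  have dis : ∀ r, r ∈ S.J n → r ∈ S.J m → False := fun r h1 h2 => bey_not (hnn h1) (hm h2)
  have hcx : c ∈ S.J x := by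
    by_contra k
    exact dis c (i0.resolve_right k) (i1.resolve_left k)
  -- the case `c` not over `m`
  have main : ∀ n m c3 c4, Qn S.P n x m c3 c4 → (c ∈ S.J m ∨ c ∈ S.J c3) →
      (c ∈ S.J c4 ∨ c ∈ S.J n) → c ∉ S.J m → S.IsC ![x, m, c3, c4, n] c →
      ∃ c' F, S.D.G.Adj c c' ∧ c ∈ S.J x ∧ c' ∈ S.J x ∧ S.Gf c c' x F := by
    intro n m c3 c4 hq i2 i4 hcm hI
    have hu := S.dir_adj hcm
    have hmb := S.dir_bey hcm
    have hcx' : S.dir c m ∈ S.J x := S.dir_cross hq.E2 hcx hcm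
    have nc := S.adj_nc hu hq.E1.symm ⟨hcx, hcx'⟩
    have hnb : S.J n ⊆ bey S.D.G (S.dir c m) c := by
      obtain ⟨r, hr⟩ := S.js.ne n
      rcases bey_or S.D.tree hu r with k | k
      · exfalso
        have hnb := S.side_of hu nc hr k
        have hcn := S.not_mem_of_bey hu hnb
        have h3 := i2.resolve_left hcm
        have h4 := i4.resolve_right hcn
        have e3 : S.dir c m ∈ S.J c3 := S.dir_cross hq.E3.symm h3 hcm
        have e4 : S.dir c n ∈ S.J c4 := S.dir_cross hq.E5 h4 hcn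
        rw [S.dir_eq hu hnb] at e4
        exact S.not_both hu hq.E4 ⟨h3, e3⟩ ⟨h4, e4⟩
      · exact S.side_of hu.symm (fun k => nc ⟨k.2, k.1⟩) hr k
    obtain ⟨i, hi, j, g, b0, k1, k2⟩ := hq.rot.flag
    refine ⟨S.dir c m, _, hu, hcx, hcx', ⟨⟨congrArg Prod.fst k1, ?_, ?_⟩, Or.inl ?_⟩⟩
    · rw [show P45.fz (S.P.pf5 i hi j g b0) = m from congrArg Prod.snd k1]
      exact hmb
    · rw [S.P.pf5_x, k2]
      exact hnb
    · rw [C5f.of_pf5 k1 k2]
      exact hI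
  by_cases hcm : c ∈ S.J m
  · have hcn : c ∉ S.J n := fun k => dis c k hcm
    refine main m n c4 c3 hq.symm (i4.symm) i2.symm hcn ?_
    intro k
    fin_cases k
    · exact Or.inl hcx
    · exact i4.symm
    · exact i3.symm
    · exact i2.symm
    · exact Or.inr hcx
  · refine main n m c3 c4 hq i2 i4 hcm ?_
    intro k
    fin_cases k
    · exact Or.inl hcx
    · exact i2
    · exact i3
    · exact i4
    · exact Or.inr hcx

/-- the flag of a square, from the corner `n, x, m` which crosses an edge -/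
theorem gf_of_q4 (nd : S.P.ND) {x n m y : V} {p e : S.X} (ha : S.D.G.Adj p e) (hp : p ∈ S.J x)
    (he : e ∈ S.J x) (hn : p ∈ S.J n) (hm : S.J m ⊆ bey S.D.G p e) (hq : Q4 S.P n x m y)
    (hb : ¬ S.P.Bare n) : ∃ F, S.Gf p e x F := by
  have hnn : S.J n ⊆ bey S.D.G e p :=
    S.side_of ha.symm (fun k => S.adj_nc ha hq.E1.symm ⟨hp, he⟩ ⟨k.2, k.1⟩) hn (bey_self ha.symm)
  obtain ⟨r, r0, r1⟩ := S.one_ex hq.E3
  obtain ⟨r', r2, r3⟩ := S.one_ex hq.E4
  have cy : S.Cs p e y := conv_cr S.D.tree (S.js.conv y) ha r2 r1 (hnn r3) (hm r0)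
  obtain ⟨i, hi, j, g, b0, k1, k2⟩ := hq.rot.flag
  have k3 : P45.fx (S.P.pf4 i hi j g b0) = n := by
    rw [S.P.pf4_x, k2]
  refine ⟨_, ⟨⟨congrArg Prod.fst k1, ?_, ?_⟩, Or.inr ?_⟩⟩
  · rw [show P45.fz (S.P.pf4 i hi j g b0) = m from congrArg Prod.snd k1]
    exact hm
  · rw [k3]
    exact hnn
  · rw [k3]
    exact ⟨hn, hb, y, (hq.ck_ne nd).2, ha, ⟨hp, he⟩, cy, hnn, Or.inr ⟨m, hq.symm.rot, hm⟩⟩

/-- THE GOOD FLAG at a broken sink -/
theorem PhG.gf_ex {w : S.X} {O : S.OR w} (h : S.PhG w O) {x : V} (hs : ∀ a, ¬ S.K.ar x a)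
    {p0 e0 : S.X} (ha : S.D.G.Adj p0 e0) (hp0 : p0 ∈ S.J x) (he0 : e0 ∈ S.J x) :
    ∃ (g : H) (u : S.X) (F : FL S.K), S.D.G.Adj w u ∧ w ∈ S.J (g • x) ∧ u ∈ S.J (g • x) ∧
      S.Gf w u (g • x) F := by
  obtain ⟨p, e, n, m, h1, h2, h3, h4, h5, h6, h7, h8⟩ := h.corner hs ha hp0 he0
  -- a good flag somewhere
  have : ∃ (g : H) (c' : S.X) (F : FL S.K), S.D.G.Adj (g • w) c' ∧ g • w ∈ S.J x ∧
      c' ∈ S.J x ∧ S.Gf (g • w) c' x F := by
    rcases h8 with ⟨c, d, hq⟩ | ⟨⟨y, hq⟩, hb⟩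
    · obtain ⟨g, hI⟩ := qn_level h.hc h.wm hq
      obtain ⟨c', F, k1, k2, k3, k4⟩ := gf_of_qn h1 h2 h3 h5 h7 hq hI
      exact ⟨g, c', F, k1, k2, k3, k4⟩
    · obtain ⟨g, hg⟩ := h.pb n x (Or.inl h4) p h5 h2
      obtain ⟨F, hF⟩ := gf_of_q4 h.nd h1 h2 h3 h5 h7 hq hb
      rw [← hg] at h1 h2 hF
      exact ⟨g, e, F, h1, h2, h3, hF⟩
  obtain ⟨g, c', F, k1, k2, k3, k4⟩ := this
  have l1 := S.D.adj_smul g⁻¹ _ _ k1
  have l2 := S.js.smul g⁻¹ _ _ k2
  have l3 := S.js.smul g⁻¹ _ _ k3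
  have l4 := k4.smul g⁻¹
  rw [inv_smul_smul] at l1 l2 l4
  exact ⟨g⁻¹, g⁻¹ • c', g⁻¹ • F, l1, l2, l3, l4⟩

/-- `phi_0` GOES UP at a broken sink which is no D-sink -/
theorem PhG.phA_lt {w : S.X} {O : S.OR w} (h : S.PhG w O) {hc : S.Conn} {hm : (S.k0 hc w).Min}
    {hn : S.SqN w O} (hk : KX1 hm hn) {x : V} (hs : ∀ a, ¬ S.K.ar x a) (hx : x ∉ S.K.sVD)
    {p0 e0 : S.X} (ha : S.D.G.Adj p0 e0) (hp0 : p0 ∈ S.J x) (he0 : e0 ∈ S.J x) :
    S.K.phA < (S.kf hc w O).phA := by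
  obtain ⟨g0, u, F, h1, h2, h3, h4⟩ := h.gf_ex hs ha hp0 he0
  have hs' : ∀ a, ¬ S.K.ar (g0 • x) a := by
    intro a k
    have := S.K.ar_smul g0⁻¹ _ _ k
    rw [inv_smul_smul] at this
    exact hs _ this
  have hx' : g0 • x ∉ S.K.sVD := fun k => hx ((sVD_smul g0).1 k)
  obtain ⟨v, v1, v2, v3⟩ := h.ln _ hs' w u h1 h2 h3
  have hq := h.uq _ hs' hx' u h1 h2 h3
  have hb0 := h4.thA h.opn h.op h.hz (hc := hc) (hm := hm) (hn := hn) h.nb hq hs' h1 v1
    (h.fo _ hs' w u h1 h2 h3) h2 h3 v2 (Ne.symm v3)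
  obtain ⟨hH, -⟩ := h4.hx (O := O) h.opn hq hs' h1 v1 h2 h3 v2 (Ne.symm v3)
  refine ph_oc_lt fin_ThA (fun p p' => ∃ g : H, S.PhL w (g • p.1) (g • p.2) ∧
    p' = (S.fq w O (S.rho w (g • p.1)), S.fq w O (S.rho w (g • p.2)))) ?_ ?_ hb0 ?_
  · rintro ⟨y, a⟩ hp
    obtain ⟨g, hg⟩ := h.level hc hp
    exact ⟨_, (hg.img h.toPhH hk (ThA_smul g hp)).1, g, hg, rfl⟩
  · rintro ⟨y, a⟩ hp ⟨y', a'⟩ hp' _ _ _ _ ⟨g, hg, rfl⟩ ⟨g', hg', rfl⟩ ⟨l, hl⟩
    have hl1 : S.fq w O (S.rho w ((l.1 * g) • y)) = S.fq w O (S.rho w (g' • y')) := by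
      rw [mul_smul, S.rho_smul, fq_smul]
      exact congrArg Prod.fst hl
    have hl2 : S.fq w O (S.rho w ((l.1 * g) • a)) = S.fq w O (S.rho w (g' • a')) := by
      rw [mul_smul, S.rho_smul, fq_smul]
      exact congrArg Prod.snd hl
    obtain ⟨e1, e2⟩ := (hg'.img h.toPhH hk (ThA_smul g' hp')).2 _ _
      (Or.inl (S.K.ar_smul _ _ _ hp.1)) hl1 hl2
    refine ⟨g'⁻¹ * (l.1 * g), Prod.ext ?_ ?_⟩
    · show (g'⁻¹ * (l.1 * g)) • y = y'
      rw [mul_smul, e1, inv_smul_smul]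
    · show (g'⁻¹ * (l.1 * g)) • a = a'
      rw [mul_smul, e2, inv_smul_smul]
  · rintro ⟨y, a⟩ hp _ - ⟨g, -, rfl⟩ l hl
    have hl1 : S.fq w O (S.rho w ((l.1 * g) • y)) = S.fq w O (S.rho w (g0 • x)) := by
      rw [mul_smul, S.rho_smul, fq_smul]
      exact congrArg Prod.fst hl
    have e1 := hH.alone h.op hl1
    rw [S.rho_near h2] at e1
    have e2 : (l.1 * g) • y = g0 • x := rho_inl e1
    have := S.K.ar_smul (l.1 * g) _ _ hp.1
    rw [e2] at this
    exact hs' _ this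

/-- IF `phi_0` IS CONSTANT then every sink which is no D-sink sits at a translate of `w` -/
theorem PhG.sat {w : S.X} {O : S.OR w} (h : S.PhG w O) {hc : S.Conn} {hm : (S.k0 hc w).Min}
    {hn : S.SqN w O} (hk : KX1 hm hn) (e : (S.kf hc w O).phA = S.K.phA) {z : V}
    (hs : S.K.Snk z) (hz : z ∉ S.K.sVD) : ∃ g : H, S.Sat w (g • z) := by
  by_contra hcon
  push Not at hcon
  -- a neighbour
  have : ∃ n, S.K.E z n := by
    by_contra hno
    push Not at hno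
    have hall : ∀ v, v = z := by
      intro v
      have k := S.K.conn z v
      induction k with
      | refl => rfl
      | tail _ h2 ih =>
        rw [ih] at h2
        exact absurd h2 (hno _)
    obtain ⟨i, hi⟩ := h.pe
    have hQ := Qn_pt (P := S.P) (1 : H) hi 0
    have hE := hQ.E1
    rw [hall (_ • S.P.pt i 0), hall (_ • S.P.pt i (0 + 1))] at hE
    exact S.K.E_irr _ hE
  obtain ⟨n, hn'⟩ := this
  obtain ⟨p, p0, p1⟩ := S.one_ex hn'
  by_cases hJ : ∀ q ∈ S.J z, q = p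
  · obtain ⟨g, rfl⟩ := h.pb z n hn' p p0 p1
    refine hcon g⁻¹ ⟨?_, ?_⟩
    · intro a k
      have := S.K.ar_smul g _ _ k
      rw [smul_inv_smul] at this
      exact hs _ this
    · apply Set.Subset.antisymm
      · intro q hq
        have h1 := S.js.smul g _ _ hq
        rw [smul_inv_smul] at h1
        have h2 := hJ _ h1
        exact smul_left_cancel g h2
      · rintro q rfl
        have := S.js.smul g⁻¹ _ _ p0
        rwa [inv_smul_smul] at this
  · push Not at hJ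
    obtain ⟨q, hq, hne⟩ := hJ
    obtain ⟨t, t1, t2, -⟩ := ph_nbr p0 hq (Ne.symm hne)
    have := h.phA_lt hk hs hz t1 p0 t2
    rw [e] at this
    exact lt_irrefl _ this

end SyQ

end Pool.Agent.DI
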