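import Pool.Agent.DI.OpnL
import Pool.Agent.DI.PhL

/-!
# Bare vertices of an opened complex

`OpW.only`: a vertex `x` of `O.gx` without in-arrows which is no lift of a direct corner lies only in the
new squares. `OpL.only_v`: the bare vertex `v` of `O.opl`. `OpW.ewk`: the new squares are `Ewk`.
-/

namespace Pool.Agent.DI

open MulAction
open Pool.Agent.SAF (InC orbs FinOrb oc)

namespace OpW

variable {H V W : Type} [Group H] [MulAction H V] [MulAction H W] {K : GX H V} (O : OpW K W)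

/-- a vertex without in-arrows which is no lift of a direct corner lies only in the new squares -/
theorem only {x : W} (hx : ∀ n, ¬ O.ar n x)
    (hd : ∀ (i : K.I) (j : ℕ) (h : H), j < K.len i → ¬ K.ar (K.vx i (j + K.len i - 1)) (K.vx i j) →
      ¬ K.ar (K.vx i (j + 1)) (K.vx i j) → h • O.lp i j ≠ x)
    {e : O.gx.LE} (he : O.gx.c0 e = x) : ∃ (j : O.J), e.1.1 = Sum.inr j ∧
      ((e.1.2.1 = 1 ∧ e.2 • O.js j = x) ∨ (e.1.2.1 = 3 ∧ e.2 • O.jt j = x)) := by
  obtain ⟨⟨i | j, k⟩, h⟩ := e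
  · exfalso
    have hk : k.1 < K.len i := lt_of_lt_of_eq k.2 (O.gx_len_inl i)
    have hl : 0 < K.len i := lt_of_le_of_lt (Nat.zero_le _) hk
    have e0 : h • O.lp i k.1 = x := by
      rw [← O.gx_vx_inl i hl]
      exact he
    have hl' : 0 < O.gx.len (Sum.inl i) := lt_of_lt_of_eq hl (O.gx_len_inl i).symm
    have hc := O.gx.cor_vx (Sum.inl i) (k.1 + K.len i - 1) h hl'
    rw [O.gx_vx_inl i hl, O.gx_vx_inl i hl, O.gx_vx_inl i hl] at hc
    have q1 : k.1 + K.len i - 1 + 1 = k.1 + K.len i := by omega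
    have q2 : k.1 + K.len i - 1 + 2 = k.1 + 1 + K.len i := by omega
    rw [q1, q2, O.lp_len, O.lp_len, e0] at hc
    have a1 : O.gx.ar x (h • O.lp i (k.1 + K.len i - 1)) := by
      rcases hc.E1 with a | a
      · exact a
      · exact absurd a (hx _)
    have a2 : O.gx.ar x (h • O.lp i (k.1 + 1)) := by
      rcases hc.E2 with a | a
      · exact a
      · exact absurd a (hx _)
    have key : ∀ y : W, O.gx.ar x (h • y) → ¬ K.ar (O.π y) (K.vx i k.1) := by
      intro y a b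
      have a : K.ar (O.π x) (O.π (h • y)) := a.1
      rw [← e0, O.π_smul, O.π_smul, O.π_lp] at a
      have b := K.ar_smul h _ _ b
      exact not_rev K a b
    refine hd i k.1 h hk ?_ ?_ e0
    · have := key _ a1
      rwa [O.π_lp] at this
    · have := key _ a2
      rwa [O.π_lp] at this
  · refine ⟨j, rfl, ?_⟩
    have hl := O.gx_len_inr j
    obtain ⟨v0, v1, v2, v3⟩ := O.vx_inr j
    have hk : k.1 < 4 := lt_of_lt_of_eq k.2 hl
    have hk' : k.1 = 0 ∨ k.1 = 1 ∨ k.1 = 2 ∨ k.1 = 3 := by omega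
    have he' : h • O.gx.vx (Sum.inr j) k.1 = x := he
    obtain ⟨a1, a2, a3, a4⟩ := O.sq_ar j h
    rcases hk' with q | q | q | q
    · exfalso
      rw [q, v0] at he'
      rw [he'] at a1
      exact hx _ a1
    · left
      rw [q, v1] at he'
      exact ⟨q, he'⟩
    · exfalso
      rw [q, v2] at he'
      rw [he'] at a2
      exact hx _ a2
    · right
      rw [q, v3] at he'
      exact ⟨q, he'⟩

/-- arrows of the lifted cells -/
theorem ar_lp {i : K.I} {j : ℕ} (hj : j < K.len i) (h : K.ar (K.vx i j) (K.vx i (j + 1))) :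
    O.gx.ar (O.lp i j) (O.lp i (j + 1)) := by
  rcases O.lp_E i j hj with ⟨h1, h2⟩ | ⟨h1, h2⟩
  · refine ⟨?_, ?_⟩
    · rw [O.π_lp, O.π_lp]
      exact h
    · rw [O.π_lp, O.π_lp]
      exact h2
  · exact absurd h1 (not_rev K h)

theorem ra_lp {i : K.I} {j : ℕ} (hj : j < K.len i) (h : K.ar (K.vx i (j + 1)) (K.vx i j)) :
    O.gx.ar (O.lp i (j + 1)) (O.lp i j) := by
  rcases O.lp_E i j hj with ⟨h1, h2⟩ | ⟨h1, h2⟩
  · exact absurd h1 (not_rev K h)
  · refine ⟨?_, ?_⟩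
    · rw [O.π_lp, O.π_lp]
      exact h
    · rw [O.π_lp, O.π_lp]
      exact h2

variable {P : P45 K}

/-- the new squares -/
theorem ew_new (j : O.J) : (O.p45 P).Ew (Sum.inr j) := by
  obtain ⟨a1, a2, a3, a4⟩ := O.sq_ar j (1 : H)
  rw [one_smul, one_smul] at a1 a2
  rw [one_smul, one_smul] at a3 a4
  refine ⟨trivial, a1, a2, a3, a4, ?_⟩
  show O.e (O.π (O.js j)) (O.ja j) ≠ O.e (O.π (O.js j)) (O.jb j)
  intro e
  have := congrArg O.π e
  rw [O.π_e _ _ (O.j_a j), O.π_e _ _ (O.j_b j)] at this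
  exact O.j_ab j this

/-- old squares -/
theorem ew_lift {i : K.I} (h : P.Ew i) : (O.p45 P).Ew (Sum.inl i) := by
  have hl : K.len i = 4 := P.len4 h.sq
  have v0 : K.vx i 0 = P.qt i 0 := P.vx4 h.sq 0
  have v1 : K.vx i 1 = P.qt i 1 := P.vx4 h.sq 1
  have v2 : K.vx i 2 = P.qt i 2 := P.vx4 h.sq 2
  have v3 : K.vx i 3 = P.qt i 3 := P.vx4 h.sq 3
  have v4 : K.vx i 4 = P.qt i 0 := by
    rw [← v0, ← K.vx_mod i 4, hl]
  have l4 : O.lp i 4 = O.lp i 0 := by
    have := O.lp_len i 0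
    rwa [hl] at this
  refine ⟨h.sq, ?_, ?_, ?_, ?_, ?_⟩
  · exact O.ra_lp (i := i) (j := 0) (by omega) (by rw [v0, v1]; exact h.Ta)
  · exact O.ar_lp (i := i) (j := 1) (by omega) (by rw [v1, v2]; exact h.Tb)
  · have := O.ar_lp (i := i) (j := 3) (by omega) (by rw [v3, v4]; exact h.va)
    rw [l4] at this
    exact this
  · exact O.ra_lp (i := i) (j := 2) (by omega) (by rw [v3, v2]; exact h.vb)
  · intro e
    apply h.ab
    rw [← O.π_qt P h.sq, ← O.π_qt P h.sq, e]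

/-- a bare vertex which is not opened stays bare -/
theorem br_lift {i : K.I} (h : P.Br i) (hu : ∀ x y : W, O.π x = P.qt i 3 → O.π y = P.qt i 3 → x = y)
    (hj : ∀ j, O.js j ≠ O.jt j) : (O.p45 P).Br (Sum.inl i) := by
  have h3 : O.π ((O.p45 P).qt (Sum.inl i) 3) = P.qt i 3 := O.π_qt P h.sq 3
  -- no in-arrow at a bare vertex
  have hno : ∀ n : W, ¬ O.gx.ar n ((O.p45 P).qt (Sum.inl i) 3) := by
    intro n hn
    have hn : K.ar (O.π n) (O.π ((O.p45 P).qt (Sum.inl i) 3)) := hn.1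
    rw [h3] at hn
    exact h.nin _ hn
  refine ⟨O.ew_lift h.toEw, ?_, hno⟩
  intro e he
  rcases O.LE_cases e with ⟨e0, rfl⟩ | ⟨j, k, g, rfl⟩
  · have h0 : K.c0 e0 = P.qt i 3 := by
      rw [← O.π_up0, he, h3]
    obtain ⟨h1, h2⟩ := h.only e0 h0
    refine ⟨?_, h2⟩
    show (Sum.inl e0.1.1 : K.I ⊕ O.J) = Sum.inl i
    rw [h1]
  · exfalso
    have hl := O.gx_len_inr j
    obtain ⟨v0, v1, v2, v3⟩ := O.vx_inr j
    have hk : k.1 < 4 := lt_of_lt_of_eq k.2 hl
    have hk' : k.1 = 0 ∨ k.1 = 1 ∨ k.1 = 2 ∨ k.1 = 3 := by omega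
    have he' : g • O.gx.vx (Sum.inr j) k.1 = (O.p45 P).qt (Sum.inl i) 3 := he
    obtain ⟨a1, a2, a3, a4⟩ := O.sq_ar j g
    have hd : ∀ x y : W, x ≠ y → O.π x = O.π y → x ≠ (O.p45 P).qt (Sum.inl i) 3 := by
      rintro x y hne hxy rfl
      exact hne (hu _ _ h3 (hxy.symm.trans h3))
    have hp : O.π (g • O.js j) = O.π (g • O.jt j) := by
      rw [O.π_smul, O.π_smul, O.j_eq]
    have hne : g • O.js j ≠ g • O.jt j := fun e => hj j (smul_left_cancel g e)
    rcases hk' with q | q | q | q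
    · rw [q, v0] at he'
      rw [he'] at a1
      exact hno _ a1
    · rw [q, v1] at he'
      exact hd _ _ hne hp he'
    · rw [q, v2] at he'
      rw [he'] at a2
      exact hno _ a2
    · rw [q, v3] at he'
      exact hd _ _ hne.symm hp.symm he'

end OpW

namespace OpL

variable {H V : Type} [Group H] [MulAction H V] {K : GX H V} (O : OpL K)

variable (ch : K.I → ℕ → O.W) (hch : ∀ i j, ch i (j + K.len i) = ch i j)
  (hπ : ∀ i j, O.π (ch i j) = K.vx i j)

/-- no in-arrow at the bare vertex -/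
theorem no_in (hb : ∀ n, K.ar n O.v → ∃ g, O.Lb n O.v g) (n : O.W) :
    ¬ (O.opl ch hch hπ).ar n (Sum.inl O.v) := by
  rintro ⟨h1, h2⟩
  obtain ⟨g, hg⟩ := hb _ h1
  have h2 : O.e _ O.v = Sum.inl O.v := h2
  rw [O.e_inr hg] at h2
  cases h2

/-- the vertex `v` is bare: all its in-arrows are moved and no direct corner is lifted to `v` -/
theorem only_v (hb : ∀ n, K.ar n O.v → ∃ g, O.Lb n O.v g)
    (hd : ∀ (i : K.I) (j : ℕ) (h : H), j < K.len i → ¬ K.ar (K.vx i (j + K.len i - 1)) (K.vx i j) →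
      ¬ K.ar (K.vx i (j + 1)) (K.vx i j) → h • ch i j ≠ Sum.inl O.v)
    {e : (O.opl ch hch hπ).gx.LE} (he : (O.opl ch hch hπ).gx.c0 e = Sum.inl O.v) :
    e.1.1 = Sum.inr () ∧ e.1.2.1 = 3 := by
  have hx := O.no_in ch hch hπ hb
  obtain ⟨j, h1, h2⟩ := (O.opl ch hch hπ).only hx (by
    intro i j h hj n1 n2
    have e1 : (O.opl ch hch hπ).lp i j = ch i j := lpOf_ch n1 n2
    rw [e1]
    exact hd i j h hj n1 n2) he
  refine ⟨h1, ?_⟩
  rcases h2 with ⟨-, h2⟩ | ⟨h2, -⟩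
  · exfalso
    have h2 : e.2 • (Sum.inr ((1 : H) : H ⧸ O.D) : O.W) = Sum.inl O.v := h2
    cases h2
  · exact h2

/-- the square of the bare vertex `v` -/
theorem br_v (P : P45 K) (hb : ∀ n, K.ar n O.v → ∃ g, O.Lb n O.v g)
    (hd : ∀ (i : K.I) (j : ℕ) (h : H), j < K.len i → ¬ K.ar (K.vx i (j + K.len i - 1)) (K.vx i j) →
      ¬ K.ar (K.vx i (j + 1)) (K.vx i j) → h • ch i j ≠ Sum.inl O.v) :
    ((O.opl ch hch hπ).p45 P).Br (Sum.inr ()) :=
  ⟨(O.opl ch hch hπ).ew_new (), fun _ he => O.only_v ch hch hπ hb hd he,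
    O.no_in ch hch hπ hb⟩

end OpL

end Pool.Agent.DI
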