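import Pool.Agent.BT.FlipG
import Pool.Agent.BT.JQ
import Pool.Agent.BT.Sub
import Pool.Agent.BT.XCtr
import Pool.Agent.BT.Ax
import Pool.Agent.BT.PCrit
import Pool.Agent.SAF.A11
import Pool.Agent.SAF.AOrb
import Pool.Agent.SAG.AG

/-!
# DI/PlR: placement, rank by rank

The places of the elliptic sinks and of the softs whose poles meet can be chosen such that never all
the centres of the pentagons which count for `x` lie beyond an edge over which `x` could be moved.
The centres do not depend on the places (the tree is a subdivision and midpoints are no centres), so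
the places of the vertices of rank `r` are chosen when all smaller ranks are done.
-/

namespace Pool.Agent.DI.PlR

open MulAction
open Pool.Agent.BT
open Pool.Agent.SAF (InC orbs FinOrb oc Decomp SAn SA Conv hull TAct dist_edge exists_next)

/-! ### Trees -/

section Tree

variable {X : Type} {G : SimpleGraph X}

private theorem adj_conv (hG : G.IsTree) {a b : X} (h : G.Adj a b) : Conv G ({a, b} : Set X) := by
  have hab : G.dist a b = 1 := SimpleGraph.dist_eq_one_iff_adj.2 h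
  have hba : G.dist b a = 1 := SimpleGraph.dist_eq_one_iff_adj.2 h.symm
  have key : ∀ u w : X, G.dist u w = 0 → w = u := fun u w e =>
    ((hG.connected.dist_eq_zero_iff).1 e).symm
  intro u hu v hv w hw
  have h3 : G.dist u v ≤ 1 := by
    rcases hu with rfl | rfl <;> rcases hv with rfl | rfl <;> simp [hab, hba]
  have h4 : G.dist u w = 0 ∨ G.dist w v = 0 := by omega
  rcases h4 with h4 | h4
  · rw [key _ _ h4]; exact hu
  · have h5 : w = v := (hG.connected.dist_eq_zero_iff).1 h4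
    rw [h5]; exact hv

/-- adjacent vertices are on the same side of every other edge -/
private theorem adj_side (hG : G.IsTree) {a b u u' : X} (h : G.Adj a b) (hu : G.Adj u u')
    (hn : ¬ ((u = a ∧ u' = b) ∨ (u = b ∧ u' = a))) : a ∈ bey G u u' → b ∈ bey G u u' := by
  intro ha
  have ha' : G.dist a u = G.dist a u' + 1 := ha
  by_contra hb
  have hb' : G.dist b u' = G.dist b u + 1 := by
    rcases (dist_edge hG hu b).1 with e | e
    · exact e
    · exact absurd e hb
  have h1 := Conv.edge hG (adj_conv hG h) hu.symm (a := a) (b := b) (Or.inl rfl) (Or.inr rfl)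
    ha' hb'
  have hne := hu.ne
  rcases h1 with ⟨h1 | h1, h2 | h2⟩
  · exact hne (h2.trans h1.symm)
  · exact hn (Or.inr ⟨h2, h1⟩)
  · exact hn (Or.inl ⟨h2, h1⟩)
  · exact hne (h2.trans h1.symm)

private theorem tri (hG : G.IsTree) {C : Set X} (hC : Conv G C) {w w' : X}
    (h : G.Adj w w') : C ⊆ bey G w w' ∨ C ⊆ bey G w' w ∨ (w ∈ C ∧ w' ∈ C) := by
  by_contra hno
  push Not at hno
  obtain ⟨h1, h2, h3⟩ := hno
  rw [Set.not_subset] at h1 h2
  obtain ⟨a, ha, ha'⟩ := h1
  obtain ⟨b, hb, hb'⟩ := h2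
  have ea : G.dist a w' = G.dist a w + 1 := by
    rcases (dist_edge hG h a).1 with e | e
    · exact e
    · exact absurd e ha'
  have eb : G.dist b w = G.dist b w' + 1 := by
    rcases (dist_edge hG h b).1 with e | e
    · exact absurd e hb'
    · exact e
  have := Pool.Agent.SAF.Conv.edge hG hC h ha hb ea eb
  exact h3 this.1 this.2

private theorem fcentre_side (hG : G.IsTree) (J : Fin 5 → Set X) (hJ : ∀ k, Conv G (J k))
    (h1 : ∀ k, ∃ p, J k ∩ J (k + 1) = {p}) {c : X} (hc : ∀ k, c ∈ J k ∪ J (k + 1)) {w w' : X}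
    (h : G.Adj w w') : c ∈ bey G w w' ↔ ∃ k, J k ⊆ bey G w w' ∧ J (k + 1) ⊆ bey G w w' := by
  have hdisj : ∀ x, x ∈ bey G w w' → x ∈ bey G w' w → False := fun x e e' =>
    (dist_edge hG h x).2 ⟨e', e⟩
  constructor
  · intro hcb
    by_contra hno
    push Not at hno
    have key : ∀ k, ((w ∈ J (k + 1) ∧ w' ∈ J (k + 1)) ↔ ¬ (w ∈ J k ∧ w' ∈ J k)) := by
      intro k
      obtain ⟨p, hp⟩ := h1 k
      have hpm : p ∈ J k ∩ J (k + 1) := by rw [hp]; rfl
      constructor
      · rintro ⟨e1, e2⟩ ⟨e3, e4⟩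
        have f1 : w ∈ J k ∩ J (k + 1) := ⟨e3, e1⟩
        have f2 : w' ∈ J k ∩ J (k + 1) := ⟨e4, e2⟩
        rw [hp] at f1 f2
        exact h.ne ((show w = p from f1).trans (show w' = p from f2).symm)
      · intro hk
        by_contra hk1
        rcases tri hG (hJ k) h with a | a | a
        · rcases tri hG (hJ (k + 1)) h with b | b | b
          · exact hno k a b
          · exact hdisj p (a hpm.1) (b hpm.2)
          · exact hk1 b
        · rcases tri hG (hJ (k + 1)) h with b | b | b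
          · exact hdisj p (b hpm.2) (a hpm.1)
          · rcases hc k with e | e
            · exact hdisj c hcb (a e)
            · exact hdisj c hcb (b e)
          · exact hk1 b
        · exact hk a
    have k0 := key 0
    have k1 := key 1
    have k2 := key 2
    have k3 := key 3
    have k4 := key 4
    have e0 : (0 + 1 : Fin 5) = 1 := rfl
    have e1 : (1 + 1 : Fin 5) = 2 := rfl
    have e2 : (2 + 1 : Fin 5) = 3 := rfl
    have e3 : (3 + 1 : Fin 5) = 4 := rfl
    have e4 : (4 + 1 : Fin 5) = 0 := rfl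
    rw [e0] at k0
    rw [e1] at k1
    rw [e2] at k2
    rw [e3] at k3
    rw [e4] at k4
    tauto
  · rintro ⟨k, a, b⟩
    rcases hc k with e | e
    · exact a e
    · exact b e

end Tree

section

variable {H V : Type} [Group H] [MulAction H V]

private theorem Ell.smul {X : Type} [MulAction H X] {x : V} (h : Ell H X x) (g : H) :
    Ell H X (g • x) := by
  obtain ⟨w, hw⟩ := h
  refine ⟨g • w, ?_⟩
  intro a ha
  have ha' : a • g • x = g • x := ha
  have h1 := hw (g⁻¹ * a * g) (by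
    change (g⁻¹ * a * g) • x = x
    rw [mul_smul, mul_smul, ha', inv_smul_smul])
  rw [mul_smul, mul_smul, inv_smul_eq_iff] at h1
  exact h1

private theorem ell_iff {X : Type} [MulAction H X] (x : V) (g : H) :
    Ell H X (g • x) ↔ Ell H X x := by
  constructor
  · intro h
    have := Ell.smul h g⁻¹
    rwa [inv_smul_smul] at this
  · intro h
    exact Ell.smul h g

/-- an equivariant map -/
private theorem exists_equi (X : Type) [MulAction H X] [Nonempty X] :
    ∃ q : V → X, ∀ (h : H) (x : V), Ell H X x → q (h • x) = h • q x := by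
  classical
  have h1 : ∀ o : orbitRel.Quotient H V, ∃ w : X, Ell H X (Quotient.out o) →
      ∀ h ∈ stabilizer H (Quotient.out o), h • w = w := by
    intro o
    by_cases ho : Ell H X (Quotient.out o)
    · obtain ⟨w, hw⟩ := ho
      exact ⟨w, fun _ => hw⟩
    · exact ⟨Classical.arbitrary X, fun h => absurd h ho⟩
  choose w hw using h1
  have h2 : ∀ x : V, ∃ g : H, g • Quotient.out (Quotient.mk'' x : orbitRel.Quotient H V) = x := by
    intro x
    have e : (Quotient.mk'' (Quotient.out (Quotient.mk'' x : orbitRel.Quotient H V)) :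
        orbitRel.Quotient H V) = Quotient.mk'' x := Quotient.out_eq _
    obtain ⟨g, hg⟩ := Pool.Agent.SAF.mk_eq_iff.1 e
    exact ⟨g⁻¹, by rw [← hg, inv_smul_smul]⟩
  choose g hg using h2
  refine ⟨fun x => g x • w (Quotient.mk'' x), ?_⟩
  intro h x hx
  have e1 : (Quotient.mk'' (h • x) : orbitRel.Quotient H V) = Quotient.mk'' x :=
    Pool.Agent.SAF.mk_eq_iff.2 ⟨h, rfl⟩
  have e2 := hg (h • x)
  have e3 := hg x
  show g (h • x) • w (Quotient.mk'' (h • x)) = h • g x • w (Quotient.mk'' x)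
  rw [e1] at e2 ⊢
  have hout : Ell H X (Quotient.out (Quotient.mk'' x : orbitRel.Quotient H V)) := by
    rw [← ell_iff _ (g x), e3]
    exact hx
  have h5 := hw (Quotient.mk'' x) hout ((h * g x)⁻¹ * g (h • x)) (by
    change ((h * g x)⁻¹ * g (h • x)) • Quotient.out (Quotient.mk'' x : orbitRel.Quotient H V) = _
    rw [mul_smul, e2, mul_inv_rev, mul_smul, inv_smul_smul, inv_smul_eq_iff, e3])
  rw [mul_smul, inv_smul_eq_iff, mul_smul] at h5
  exact h5

private theorem mst_smul {X : Type} [MulAction H X] {G : SimpleGraph X} (hG : TAct H G) (h : H)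
    (x : V) {w : X} (hw : w ∈ mst G (stabilizer H x)) : h • w ∈ mst G (stabilizer H (h • x)) := by
  intro C hC hne hA
  have h1 : w ∈ {y | h • y ∈ C} := by
    apply hw
    · intro a ha b hb y hy
      refine hC _ ha _ hb _ ?_
      rw [hG.dist_smul, hG.dist_smul, hG.dist_smul]
      exact hy
    · obtain ⟨y, hy⟩ := hne
      refine ⟨h⁻¹ • y, ?_⟩
      change h • h⁻¹ • y ∈ C
      rwa [smul_inv_smul]
    · intro a ha y hy
      have ha' : a • x = x := ha
      have h2 := hA (h * a * h⁻¹) (by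
        change (h * a * h⁻¹) • h • x = h • x
        rw [mul_smul, mul_smul, inv_smul_smul, ha']) _ hy
      rw [mul_smul, mul_smul, inv_smul_smul] at h2
      exact h2
  exact h1

variable {K : PX H V} {D : Decomp H}

/-- `c` is the centre of a pentagon which counts for `x` -/
def CA (K : PX H V) {D : Decomp H} (A : V → H → K.I → Prop) (J : V → Set D.X) (x : V) (c : D.X) :
    Prop := ∃ (h : H) (i : K.I), A x h i ∧
    ∀ k', c ∈ J (h • K.pt i k') ∪ J (h • K.pt i (k' + 1))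

/-- `x` is a vertex of the pentagon -/
def Mb (K : PX H V) (x : V) (h : H) (i : K.I) : Prop := ∃ k : Fin 5, x = h • K.pt i k

/-- `x` cannot be moved towards all centres -/
def Pla (K : PX H V) {D : Decomp H} (A : V → H → K.I → Prop) (R : V → D.X → Prop)
    (J : V → Set D.X) (x : V) : Prop :=
  ∀ p, J x = {p} → ∀ p', D.G.Adj p p' → (∀ h ∈ stabilizer H x, h • p' = p') →
    (∀ a, K.ar x a → p' ∈ J a) → R x p' → (∃ c, CA K A J x c) →
    ∃ c, CA K A J x c ∧ c ∉ bey D.G p p'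

/-- `c` is the centre of a pentagon through `x` -/
private def Cx (K : PX H V) {D : Decomp H} (J : V → Set D.X) (x : V) (c : D.X) : Prop :=
  ∃ (h : H) (i : K.I) (k : Fin 5), x = h • K.pt i k ∧
    ∀ k', c ∈ J (h • K.pt i k') ∪ J (h • K.pt i (k' + 1))

/-- the system given by the places `q` -/
structure Good (K : PX H V) (D : Decomp H) (q : V → D.X) (J : V → Set D.X) : Prop where
  qd : QDat K.pq D (Lq H q) q
  jq : IsJQ K.pq D (Lq H q) q J
  js : JS K.pq D J
  fin : ∀ x, Ell H D.X x → (J x).Finite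
  qs : ∀ (h : H) (x : V), Ell H D.X x → q (h • x) = h • q x

theorem exists_good (hsoft : ∀ x a, K.ar x a → Ell H D.X x) (q : V → D.X)
    (hq : ∀ (h : H) (x : V), Ell H D.X x → q (h • x) = h • q x) : ∃ J, Good K D q J := by
  classical
  have hLe : ∀ x, Ell H D.X x → Lq H q x = {q x} := fun x h => if_pos h
  have hLh : ∀ x, ¬ Ell H D.X x → Lq H q x = mst D.G (stabilizer H x) := fun x h => if_neg h
  have hax : ∀ x, ¬ Ell H D.X x → _ := fun x h =>
    axis D.tact (stabilizer H x) (K.stab x) (by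
      unfold Ell at h
      push Not at h
      exact h)
  have h1 : QDat K.pq D (Lq H q) q :=
    { L_conv := by
        intro x _
        by_cases hx : Ell H D.X x
        · rw [hLe x hx]
          intro a ha b hb w hw
          rw [Set.mem_singleton_iff] at ha hb ⊢
          subst ha hb
          rw [SimpleGraph.dist_self] at hw
          have h2 : D.G.dist w (q x) = 0 := by omega
          exact (D.tree.connected.dist_eq_zero_iff).1 h2
        · rw [hLh x hx]
          exact (hax x hx).1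
      L_ne := by
        intro x _
        by_cases hx : Ell H D.X x
        · rw [hLe x hx]
          exact Set.singleton_nonempty _
        · rw [hLh x hx]
          exact (hax x hx).2.1
      L_two := by
        intro x _
        by_cases hx : Ell H D.X x
        · rw [hLe x hx]
          intro w hw a b c e1 _ _ ha _ _
          rw [Set.mem_singleton_iff] at hw ha
          subst hw
          rw [ha] at e1
          exact absurd e1 (D.G.irrefl)
        · rw [hLh x hx]
          exact (hax x hx).2.2.1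
      L_smul := by
        intro h x w hw
        by_cases hx : Ell H D.X x
        · rw [hLe x hx] at hw
          rw [hLe _ (Ell.smul hx h)]
          rw [Set.mem_singleton_iff] at hw ⊢
          rw [hw, hq h x hx]
        · rw [hLh x hx] at hw
          rw [hLh _ (fun h' => hx ((ell_iff x h).1 h'))]
          exact mst_smul D.tact h x hw
      L_fin := by
        intro x _
        by_cases hx : Ell H D.X x
        · rw [hLe x hx]
          exact Set.Finite.image _ (Set.finite_singleton _)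
        · rw [hLh x hx]
          exact (hax x hx).2.2.2
      q_smul := by
        rintro h x ⟨a, ha⟩
        exact hq h x (hsoft x a ha) }
  obtain ⟨J, h2, h3, h4⟩ := exists_jq K.pq D _ q h1
  refine ⟨J, h1, h2, h3, ?_, hq⟩
  intro x hx
  by_cases ha : ∃ a, K.ar x a
  · exact h4 x ha
  · push Not at ha
    rw [h2.sink x ha, hLe x hx]
    exact Set.finite_singleton _

variable {q : V → D.X} {J : V → Set D.X}

theorem Good.sink (hg : Good K D q J) {x : V} (ha : ∀ a, ¬ K.ar x a)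
    (he : Ell H D.X x) : J x = {q x} := by
  rw [hg.jq.sink x ha]
  exact if_pos he

theorem Good.exists_c (hg : Good K D q J) (h : H) (i : K.I) :
    ∃! c, ∀ k', c ∈ J (h • K.pt i k') ∪ J (h • K.pt i (k' + 1)) :=
  x_centre D.tree (fun k => J (h • K.pt i k)) (fun _ => hg.js.conv _)
    (fun k => hg.js.one _ _ (K.E_smul h (K.pt_E i k)))

/-- the direction at `q x` in which all centres lie -/
private theorem Good.dir (hg : Good K D q J) {x : V} (hA : ∀ y, K.E x y → K.InP x y)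
    (hL : ∀ y z, K.E x y → K.E x z → Relation.ReflTransGen (fun a b => K.Cor a x b) y z)
    (he : Ell H D.X x) (ha : ∀ a, ¬ K.ar x a) (hne : ∃ y, K.E x y) (hn : ¬ Cx K J x (q x)) :
    ∃ w', D.G.Adj (q x) w' ∧ (∀ h ∈ stabilizer H x, h • w' = w') ∧
      (∃ c, Cx K J x c) ∧ ∀ c, Cx K J x c → D.G.dist (q x) c = D.G.dist w' c + 1 := by
  have hJx := hg.sink ha he
  -- neighbours
  have hnb : ∀ y, K.InP x y → K.ar y x ∧ q x ∈ J y := by
    intro y hy
    have h3 := hy.E
    refine ⟨h3.resolve_left (ha y), ?_⟩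
    obtain ⟨p, hp⟩ := hg.js.one x y hy.E
    have h4 : p ∈ J x ∩ J y := by rw [hp]; rfl
    have h5 : p = q x := by
      have := h4.1
      rw [hJx] at this
      exact this
    rw [← h5]
    exact h4.2
  -- at most one direction
  have huniq : ∀ y, K.InP x y → ∀ w' w'', D.G.Adj (q x) w' → D.G.Adj (q x) w'' → w' ∈ J y →
      w'' ∈ J y → w' = w'' := by
    intro y hy w' w'' e1 e2 m1 m2
    obtain ⟨h2, h3⟩ := hnb y hy
    have hxx : q x ∈ J x := by rw [hJx]; rfl
    have := hg.js.two y (q x) h3 (Sum.inl x) (Or.inl ⟨x, rfl, h2, hxx⟩)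
      (Sum.inr w') (Or.inr ⟨w', rfl, e1, m1⟩) (Sum.inr w'') (Or.inr ⟨w'', rfl, e2, m2⟩)
    rcases this with e | e | e
    · exact absurd e (by simp)
    · exact absurd e (by simp)
    · exact Sum.inr_injective e
  -- the centre of a pentagon
  have hcJ : ∀ c, Cx K J x c → ∀ y, c ∈ J x ∪ J y → K.InP x y →
      ∃ w', D.G.Adj (q x) w' ∧ w' ∈ J y ∧ D.G.dist (q x) c = D.G.dist w' c + 1 := by
    intro c hc y hcy hy
    have hcq : q x ≠ c := by
      rintro rfl
      exact hn hc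
    have hcy' : c ∈ J y := by
      rcases hcy with e | e
      · rw [hJx] at e
        exact absurd e.symm hcq
      · exact e
    obtain ⟨w', e1, e2⟩ := exists_next D.tree hcq
    refine ⟨w', e1, ?_, e2⟩
    have e3 : D.G.dist (q x) w' = 1 := SimpleGraph.dist_eq_one_iff_adj.2 e1
    exact hg.js.conv y _ (hnb y hy).2 _ hcy' _ (by rw [e3, e2, add_comm])
  -- corners
  have hcor : ∀ y z, K.Cor y x z → K.InP x y ∧ K.InP x z ∧ ∃ c, Cx K J x c ∧ c ∈ J x ∪ J y ∧
      c ∈ J x ∪ J z := by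
    rintro y z ⟨h, i, j, ⟨rfl, rfl, rfl⟩ | ⟨rfl, rfl, rfl⟩⟩
    · obtain ⟨c, hc, -⟩ := hg.exists_c h i
      have e : (j + 2 : Fin 5) = j + 1 + 1 := by rw [add_assoc]; rfl
      refine ⟨⟨h, i, j, Or.inr ⟨rfl, rfl⟩⟩, ⟨h, i, j + 1, Or.inl ⟨rfl, by rw [e]⟩⟩, c,
        ⟨h, i, j + 1, rfl, hc⟩, (hc j).symm, ?_⟩
      rw [e]
      exact hc (j + 1)
    · obtain ⟨c, hc, -⟩ := hg.exists_c h i
      have e : (j + 2 : Fin 5) = j + 1 + 1 := by rw [add_assoc]; rfl
      refine ⟨⟨h, i, j + 1, Or.inl ⟨rfl, by rw [e]⟩⟩, ⟨h, i, j, Or.inr ⟨rfl, rfl⟩⟩, c,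
        ⟨h, i, j + 1, rfl, hc⟩, ?_, (hc j).symm⟩
      rw [e]
      exact hc (j + 1)
  -- one neighbour
  obtain ⟨y0, hE0⟩ := hne
  have hy0 : K.InP x y0 := hA _ hE0
  obtain ⟨c0, hc0, hc0'⟩ : ∃ c, Cx K J x c ∧ c ∈ J x ∪ J y0 := by
    obtain ⟨h, i, j, ⟨rfl, rfl⟩ | ⟨rfl, rfl⟩⟩ := hy0
    · obtain ⟨c, hc, -⟩ := hg.exists_c h i
      exact ⟨c, ⟨h, i, j, rfl, hc⟩, hc j⟩
    · obtain ⟨c, hc, -⟩ := hg.exists_c h i
      exact ⟨c, ⟨h, i, j + 1, rfl, hc⟩, (hc j).symm⟩
  obtain ⟨w', e1, e2, -⟩ := hcJ c0 hc0 y0 hc0' hy0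
  have hall : ∀ y, K.InP x y → w' ∈ J y := by
    intro y hy
    have h1 := hL y0 y hE0 hy.E
    clear hy
    induction h1 with
    | refl => exact e2
    | tail _ h2 ih =>
      rename_i y z _
      obtain ⟨h3, h4, c, h5, h6, h7⟩ := hcor _ _ h2
      obtain ⟨w1, k1, k2, k3⟩ := hcJ c h5 _ h6 h3
      have n1 : w1 = w' := huniq _ h3 _ _ k1 e1 k2 ih
      have n2 : w1 ∈ J z := by
        have hcz : c ∈ J z := by
          rcases h7 with e | e
          · rw [hJx] at e
            exact absurd (e ▸ h5) hn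
          · exact e
        have e3 : D.G.dist (q x) w1 = 1 := SimpleGraph.dist_eq_one_iff_adj.2 k1
        exact hg.js.conv z _ (hnb z h4).2 _ hcz _ (by rw [e3, k3, add_comm])
      rw [← n1]
      exact n2
  refine ⟨w', e1, ?_, ⟨c0, hc0⟩, ?_⟩
  · intro h hh
    have hh' : h • x = x := hh
    have h1 : K.InP x (h • y0) := by
      have := hy0.smul h
      rwa [hh'] at this
    have h2 : h • q x = q x := by
      rw [← hg.qs h x he, hh']
    refine huniq _ h1 _ _ ?_ e1 ?_ (hall _ h1)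
    · have := D.adj_smul h _ _ e1
      rwa [h2] at this
    · exact hg.js.smul h y0 w' e2
  · intro c hc
    obtain ⟨h, i, k, hk, hc'⟩ := hc
    have h1 : K.InP x (h • K.pt i (k + 1)) := ⟨h, i, k, Or.inl ⟨hk, rfl⟩⟩
    obtain ⟨w1, k1, k2, k3⟩ := hcJ c ⟨h, i, k, hk, hc'⟩ _ (by rw [hk]; exact hc' k) h1
    rw [huniq _ h1 _ _ k1 e1 k2 (hall _ h1)] at k3
    exact k3



/-! ### Uniqueness -/

theorem Good.agree_one (hg : Good K D q J) {q' : V → D.X} {J' : V → Set D.X}
    (hg' : Good K D q' J') {y : V} (hq : q' y = q y) (hp : ∀ a, K.ar y a → J' a = J a) :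
    J' y = J y := by
  classical
  by_cases ha : ∃ a, K.ar y a
  · by_cases hw : ∃ w, ∀ a, K.ar y a → w ∈ J a
    · obtain ⟨p, h1, h2, h3⟩ := hg.jq.pt y ha hw
      obtain ⟨p', h1', h2', h3'⟩ := hg'.jq.pt y ha (by
        obtain ⟨w, hw⟩ := hw
        exact ⟨w, fun a ha => by rw [hp a ha]; exact hw a ha⟩)
      have e1 := h3 p' (fun a ha => by rw [← hp a ha]; exact h2' a ha)
      have e2 := h3' p (fun a ha => by rw [hp a ha]; exact h2 a ha)
      rw [hq, SimpleGraph.dist_comm (u := p') (v := p)] at e2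
      have e3 : D.G.dist p p' = 0 := by omega
      have e4 : p = p' := (D.tree.connected.dist_eq_zero_iff).1 e3
      rw [h1, h1', e4]
    · obtain ⟨a, ha⟩ := ha
      have hb : ∃ b, K.ar y b ∧ b ≠ a := by
        by_contra hno
        push Not at hno
        obtain ⟨w, hwa⟩ := hg.js.ne a
        apply hw
        refine ⟨w, fun b hb => ?_⟩
        rw [hno b hb]
        exact hwa
      obtain ⟨b, hb, hne⟩ := hb
      have hdis : ¬ (J a ∩ J b).Nonempty := by
        rintro ⟨w, h1, h2⟩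
        apply hw
        refine ⟨w, fun c hc => ?_⟩
        rcases K.two y a b c ha hb hc with e | e | e
        · exact absurd e.symm hne
        · rw [← e]
          exact h2
        · rw [← e]
          exact h1
      have h1 := hg.jq.br y a b ha hb hdis
      have h2 := hg'.jq.br y a b ha hb (by
        rw [hp a ha, hp b hb]
        exact hdis)
      rw [h1, h2, hp a ha, hp b hb]
  · push Not at ha
    rw [hg.jq.sink y ha, hg'.jq.sink y ha]
    unfold Lq
    rw [hq]

theorem Good.agree (hg : Good K D q J) {q' : V → D.X} {J' : V → Set D.X}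
    (hg' : Good K D q' J') {r : ℕ} (hq : ∀ y, K.rk y < r → q' y = q y) :
    ∀ (n : ℕ) (y : V), K.rk y = n → n < r → J' y = J y := by
  intro n
  induction n using Nat.strong_induction_on with
  | _ n ih =>
    intro y hy hn
    refine hg.agree_one hg' (hq y (by omega)) (fun a ha => ?_)
    have h1 := K.ar_rk _ _ ha
    exact ih (K.rk a) (by omega) a rfl (by omega)

theorem Good.moved (hg : Good K D q J) {q' : V → D.X} {J' : V → Set D.X}
    (hg' : Good K D q' J') {y : V} {p' : D.X} (hq : q' y = p') (he : Ell H D.X y)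
    (hp : ∀ a, K.ar y a → J' a = J a) (hp' : ∀ a, K.ar y a → p' ∈ J a) : J' y = {p'} := by
  by_cases ha : ∃ a, K.ar y a
  · obtain ⟨p1, h1, -, h3⟩ := hg'.jq.pt y ha ⟨p', fun a ha => by rw [hp a ha]; exact hp' a ha⟩
    have e := h3 p' (fun a ha => by rw [hp a ha]; exact hp' a ha)
    rw [hq, SimpleGraph.dist_self] at e
    have e3 : D.G.dist p' p1 = 0 := by omega
    rw [h1, (D.tree.connected.dist_eq_zero_iff).1 e3]
  · push Not at ha
    rw [hg'.sink ha he, hq]

/-! ### The move -/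

theorem status (hg : Good K D q J) {q' : V → D.X} {J' : V → Set D.X}
    (hg' : Good K D q' J') {a b : D.X} (hab : D.G.Adj a b)
    (hs : ∀ y, ((∃ c, K.ar y c) ∧ q' y = q y) ∨ J' y = J y ∨
      ∃ g : H, J y = {g • a} ∧ J' y = {g • b}) :
    ∀ (n : ℕ) (y : V), K.rk y = n → ∀ u u', D.G.Adj u u' →
      (∀ g : H, ¬ ((u = g • a ∧ u' = g • b) ∨ (u = g • b ∧ u' = g • a))) →
      (J y ⊆ bey D.G u u' ↔ J' y ⊆ bey D.G u u') := by
  intro n
  induction n using Nat.strong_induction_on with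
  | _ n ih =>
    intro y hrk u u' hu hnf
    rcases hs y with ⟨ha, hqy⟩ | e | ⟨g, e1, e2⟩
    · have h1 := (jq_status K.pq D _ q hg.qd J hg.jq hu y ha).2
      have h2 := (jq_status K.pq D _ q' hg'.qd J' hg'.jq hu y ha).2
      have hnf' : ∀ g : H, ¬ ((u' = g • a ∧ u = g • b) ∨ (u' = g • b ∧ u = g • a)) := by
        intro g e
        apply hnf g
        rcases e with ⟨e1, e2⟩ | ⟨e1, e2⟩
        · exact Or.inr ⟨e2, e1⟩
        · exact Or.inl ⟨e2, e1⟩
      have h3 : ∀ c, K.ar y c → (J c ⊆ bey D.G u u' ↔ J' c ⊆ bey D.G u u') := by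
        intro c hc
        exact ih (K.rk c) (by rw [← hrk]; exact K.ar_rk _ _ hc) c rfl u u' hu hnf
      have h4 : ∀ c, K.ar y c → (J c ⊆ bey D.G u' u ↔ J' c ⊆ bey D.G u' u) := by
        intro c hc
        exact ih (K.rk c) (by rw [← hrk]; exact K.ar_rk _ _ hc) c rfl u' u hu.symm hnf'
      rw [h1, h2, hqy]
      have h5 : (∃ c, K.pq.ar y c ∧ J c ⊆ bey D.G u' u) ↔
          (∃ c, K.pq.ar y c ∧ J' c ⊆ bey D.G u' u) := by
        constructor
        · rintro ⟨c, hc, e⟩
          exact ⟨c, hc, (h4 c hc).1 e⟩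
        · rintro ⟨c, hc, e⟩
          exact ⟨c, hc, (h4 c hc).2 e⟩
      have h6 : (∃ c, K.pq.ar y c ∧ J c ⊆ bey D.G u u') ↔
          (∃ c, K.pq.ar y c ∧ J' c ⊆ bey D.G u u') := by
        constructor
        · rintro ⟨c, hc, e⟩
          exact ⟨c, hc, (h3 c hc).1 e⟩
        · rintro ⟨c, hc, e⟩
          exact ⟨c, hc, (h3 c hc).2 e⟩
      rw [h5, h6]
    · rw [e]
    · rw [e1, e2, Set.singleton_subset_iff, Set.singleton_subset_iff]
      have hadj := D.adj_smul g _ _ hab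
      exact ⟨adj_side D.tree hadj hu (hnf g),
        adj_side D.tree hadj.symm hu (fun h => hnf g h.symm)⟩

/-- the centres are separated only by edges in the orbit of `a b` -/
theorem centre_sep (hg : Good K D q J) {q' : V → D.X} {J' : V → Set D.X}
    (hg' : Good K D q' J') {a b : D.X} (hab : D.G.Adj a b)
    (hs : ∀ y, ((∃ c, K.ar y c) ∧ q' y = q y) ∨ J' y = J y ∨
      ∃ g : H, J y = {g • a} ∧ J' y = {g • b}) {i : K.I} {c c' : D.X}
    (hc : ∀ k, c ∈ J (K.pt i k) ∪ J (K.pt i (k + 1)))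
    (hc' : ∀ k, c' ∈ J' (K.pt i k) ∪ J' (K.pt i (k + 1))) {u u' : D.X} (hu : D.G.Adj u u')
    (h1 : c' ∈ bey D.G u u') (h2 : c ∉ bey D.G u u') :
    ∃ g : H, (u = g • a ∧ u' = g • b) ∨ (u = g • b ∧ u' = g • a) := by
  by_contra hno
  push Not at hno
  apply h2
  have hnf : ∀ g : H, ¬ ((u = g • a ∧ u' = g • b) ∨ (u = g • b ∧ u' = g • a)) := by
    rintro g (⟨e1, e2⟩ | ⟨e1, e2⟩)
    · exact (hno g).1 e1 e2
    · exact (hno g).2 e1 e2
  have s1 := fcentre_side D.tree (fun k => J (K.pt i k)) (fun k => hg.js.conv _)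
    (fun k => hg.js.one _ _ (K.pt_E i k)) hc hu
  have s2 := fcentre_side D.tree (fun k => J' (K.pt i k)) (fun k => hg'.js.conv _)
    (fun k => hg'.js.one _ _ (K.pt_E i k)) hc' hu
  rw [s1]
  obtain ⟨k, k1, k2⟩ := s2.1 h1
  exact ⟨k, (status hg hg' hab hs _ _ rfl u u' hu hnf).2 k1,
    (status hg hg' hab hs _ _ rfl u u' hu hnf).2 k2⟩

/-- `D` is the subdivision of `D0`, midpoints are no centres -/
structure SubD (K : PX H V) (D0 D : Decomp H) (v : D0.X → D.X) (m : D0.X → D0.X → D.X) :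
    Prop where
  hv : ∀ (h : H) w, v (h • w) = h • v w
  hm : ∀ (h : H) w w', D0.G.Adj w w' → m (h • w) (h • w') = h • m w w'
  hvm : ∀ u w w', D0.G.Adj w w' → v u ≠ m w w'
  hmm : ∀ w w' u u', D0.G.Adj w w' → D0.G.Adj u u' → m w w' = m u u' →
        (w = u ∧ w' = u') ∨ (w = u' ∧ w' = u)
  hadj : ∀ y z, D.G.Adj y z ↔ ∃ w w', D0.G.Adj w w' ∧
        ((y = v w ∧ z = m w w') ∨ (z = v w ∧ y = m w w'))
  mid : ∀ {J : V → Set D.X}, JS K.pq D J → ∀ (i : K.I) (c : D.X),
      (∀ k, c ∈ J (K.pt i k) ∪ J (K.pt i (k + 1))) → ∀ w w', D0.G.Adj w w' → c ≠ m w w'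

/-- in a subdivision the centres do not move -/
theorem centre_eq {D0 : Decomp H} {v : D0.X → D.X} {m : D0.X → D0.X → D.X}
    (sd : SubD K D0 D v m)
    (hg : Good K D q J) {q' : V → D.X} {J' : V → Set D.X}
    (hg' : Good K D q' J') {a b : D.X} (hab : D.G.Adj a b)
    (hs : ∀ y, ((∃ c, K.ar y c) ∧ q' y = q y) ∨ J' y = J y ∨
      ∃ g : H, J y = {g • a} ∧ J' y = {g • b}) {i : K.I} {c c' : D.X}
    (hc : ∀ k, c ∈ J (K.pt i k) ∪ J (K.pt i (k + 1)))
    (hc' : ∀ k, c' ∈ J' (K.pt i k) ∪ J' (K.pt i (k + 1))) : c = c' := by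
  have n := sd.mid hg.js i c hc
  have n' := sd.mid hg'.js i c' hc'
  have hv := sd.hv
  have hm := sd.hm
  have hvm := sd.hvm
  have hmm := sd.hmm
  have hadj := sd.hadj
  by_contra hne
  obtain ⟨z1, e1, d1⟩ := exists_next D.tree hne
  -- `c` is a vertex, `z1` a midpoint
  have hcm : ∀ z, D.G.Adj c z → ∃ w w', D0.G.Adj w w' ∧ z = m w w' := by
    intro z hz'
    obtain ⟨w, w', e, ⟨e2, e3⟩ | ⟨e2, e3⟩⟩ := (hadj _ _).1 hz'
    · exact ⟨w, w', e, e3⟩
    · exact absurd e3 (n w w' e)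
  obtain ⟨t, t', et, hz1⟩ := hcm z1 e1
  have hne1 : z1 ≠ c' := by
    rintro rfl
    exact n' t t' et hz1
  obtain ⟨z2, e2, d2⟩ := exists_next D.tree hne1
  have hne2 : z2 ≠ c := by
    rintro rfl
    omega
  have hd1 : D.G.dist c z1 = 1 := SimpleGraph.dist_eq_one_iff_adj.2 e1
  obtain ⟨g, hgg⟩ := centre_sep hg hg' hab hs hc hc' e1
    (show D.G.dist c' c = D.G.dist c' z1 + 1 by
      rw [SimpleGraph.dist_comm, d1, SimpleGraph.dist_comm (u := c') (v := z1)])
    (fun e => by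
      have e' : D.G.dist c c = D.G.dist c z1 + 1 := e
      rw [SimpleGraph.dist_self] at e'
      omega)
  obtain ⟨g', hgg'⟩ := centre_sep hg hg' hab hs hc hc' e2
    (show D.G.dist c' z1 = D.G.dist c' z2 + 1 by
      rw [SimpleGraph.dist_comm, d2, SimpleGraph.dist_comm (u := c') (v := z2)])
    (fun e => by
      have e' : D.G.dist c z1 = D.G.dist c z2 + 1 := e
      have e3 : D.G.dist z2 c = 0 := by
        rw [SimpleGraph.dist_comm]
        omega
      exact hne2 ((D.tree.connected.dist_eq_zero_iff).1 e3))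
  -- the two ends of the edge `a b`
  obtain ⟨p, r, w, w', eww, hp, hr, h1, h2⟩ : ∃ p r w w', D0.G.Adj w w' ∧ p = v w ∧ r = m w w' ∧
      ((c = g • p ∧ z1 = g • r) ∨ (c = g • r ∧ z1 = g • p)) ∧
      ((z1 = g' • p ∧ z2 = g' • r) ∨ (z1 = g' • r ∧ z2 = g' • p)) := by
    obtain ⟨w, w', e, ⟨k1, k2⟩ | ⟨k1, k2⟩⟩ := (hadj _ _).1 hab
    · exact ⟨a, b, w, w', e, k1, k2, hgg, hgg'⟩
    · exact ⟨b, a, w, w', e, k1, k2, hgg.symm, hgg'.symm⟩
  have hgr : ∀ x : H, x • r = m (x • w) (x • w') := by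
    intro x
    rw [hr, hm x w w' eww]
  have hgp : ∀ x : H, x • p = v (x • w) := by
    intro x
    rw [hp, hv]
  have h1' : c = g • p ∧ z1 = g • r := by
    rcases h1 with h | h
    · exact h
    · exact absurd (h.1.trans (hgr g)) (n _ _ (D0.adj_smul g _ _ eww))
  have h2' : z1 = g' • r ∧ z2 = g' • p := by
    rcases h2 with h | h
    · exact absurd (((hgp g').symm.trans h.1.symm).trans hz1) (hvm _ _ _ et)
    · exact h
  have h3 : m (g • w) (g • w') = m (g' • w) (g' • w') := by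
    rw [← hgr, ← hgr, ← h1'.2, ← h2'.1]
  rcases hmm _ _ _ _ (D0.adj_smul g _ _ eww) (D0.adj_smul g' _ _ eww) h3 with ⟨k1, k2⟩ | ⟨k1, k2⟩
  · apply hne2
    rw [h2'.2, h1'.1, hgp, hgp, k1]
  · apply D0.noinv (g'⁻¹ * g) w w' eww
    rw [mul_smul, mul_smul, k1, k2, inv_smul_smul, inv_smul_smul]
    exact ⟨rfl, rfl⟩

/-- a move over an edge in `Mv` does not move the centres -/
def NoMv (K : PX H V) (D : Decomp H) (Mv : D.X → D.X → Prop) : Prop :=
  ∀ {q q' : V → D.X} {J J' : V → Set D.X}, Good K D q J → Good K D q' J' →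
    ∀ {a b : D.X}, D.G.Adj a b → Mv a b →
    (∀ y, ((∃ c, K.ar y c) ∧ q' y = q y) ∨ J' y = J y ∨
      ∃ g : H, J y = {g • a} ∧ J' y = {g • b}) → ∀ {i : K.I} {c c' : D.X},
    (∀ k, c ∈ J (K.pt i k) ∪ J (K.pt i (k + 1))) →
    (∀ k, c' ∈ J' (K.pt i k) ∪ J' (K.pt i (k + 1))) → c = c'

theorem SubD.noMv {D0 : Decomp H} {v : D0.X → D.X} {m : D0.X → D0.X → D.X}
    (sd : SubD K D0 D v m) : NoMv K D (fun _ _ => True) :=
  fun hg hg' _ _ hab _ hs _ _ _ hc hc' => centre_eq sd hg hg' hab hs hc hc'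

/-- the ends of the edges in `Mv` are not centres -/
theorem NoMv.of_ends {Mv : D.X → D.X → Prop}
    (h : ∀ {J : V → Set D.X}, JS K.pq D J → ∀ (i : K.I) (c : D.X),
      (∀ k, c ∈ J (K.pt i k) ∪ J (K.pt i (k + 1))) → ∀ a b, D.G.Adj a b → Mv a b →
      ∀ g : H, c ≠ g • a ∧ c ≠ g • b) : NoMv K D Mv := by
  intro q q' J J' hg hg' a b hab hm hs i c c' hc hc'
  by_contra hne
  obtain ⟨z1, e1, d1⟩ := exists_next D.tree hne
  obtain ⟨g, hgg⟩ := centre_sep hg hg' hab hs hc hc' e1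
    (show D.G.dist c' c = D.G.dist c' z1 + 1 by
      rw [SimpleGraph.dist_comm, d1, SimpleGraph.dist_comm (u := c') (v := z1)])
    (fun e => by
      have e' : D.G.dist c c = D.G.dist c z1 + 1 := e
      rw [SimpleGraph.dist_self] at e'
      omega)
  have h1 := h hg.js i c hc a b hab hm g
  rcases hgg with h | h
  · exact h1.1 h.1
  · exact h1.2 h.1

theorem CA.smul {A : V → H → K.I → Prop} (hA : ∀ (g : H) x h i, A x h i → A (g • x) (g * h) i)
    {J : V → Set D.X} (js : JS K.pq D J) (g : H) {x : V} {c : D.X} (h : CA K A J x c) :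
    CA K A J (g • x) (g • c) := by
  obtain ⟨h', i, ha, hc⟩ := h
  refine ⟨g * h', i, hA g _ _ _ ha, ?_⟩
  intro k'
  rw [mul_smul, mul_smul]
  exact (hc k').imp (js.smul g _ _) (js.smul g _ _)

/-- the distance from the place of `x` to the next centre which counts for `x` -/
private noncomputable def dc (K : PX H V) {D : Decomp H} (A : V → H → K.I → Prop)
    (J : V → Set D.X) (x : V) : ℕ :=
  sInf {n | ∃ c p, CA K A J x c ∧ J x = {p} ∧ n = D.G.dist p c}

private theorem step {Mv : D.X → D.X → Prop} (hnm : NoMv K D Mv)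
    (hsoft : ∀ x a, K.ar x a → Ell H D.X x)
    {A : V → H → K.I → Prop} (hA : ∀ (g : H) x h i, A x h i → A (g • x) (g * h) i)
    {R : V → D.X → Prop} (hR : ∀ (g : H) x p, R x p → R (g • x) (g • p))
    (hRM : ∀ {q : V → D.X} {J : V → Set D.X}, Good K D q J → (∀ x, Ell H D.X x → R x (q x)) →
      ∀ x p p', J x = {p} → R x p' → D.G.Adj p p' → Mv p p')
    (r : ℕ) (hg : Good K D q J) (hRq : ∀ x, Ell H D.X x → R x (q x)) :
    ∃ (q' : V → D.X) (J' : V → Set D.X), Good K D q' J' ∧ (∀ x, Ell H D.X x → R x (q' x)) ∧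
      (∀ y, K.rk y < r → J' y = J y) ∧ (∀ y c, CA K A J' y c ↔ CA K A J y c) ∧
      ∀ x, K.rk x = r → Pla K A R J' x := by
  classical
  have hfin : (orbs H {x : V | K.rk x = r}).Finite := SAF.FinOrb.mono (Set.subset_univ _) K.fin
  have hex : ∃ n : ℕ, ∃ (q' : V → D.X) (J' : V → Set D.X), (Good K D q' J' ∧
      (∀ x, Ell H D.X x → R x (q' x)) ∧ (∀ y, K.rk y < r → J' y = J y) ∧
      ∀ y c, CA K A J' y c ↔ CA K A J y c) ∧
      ∑ o ∈ hfin.toFinset, dc K A J' (Quotient.out o) = n :=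
    ⟨_, q, J, ⟨hg, hRq, fun _ _ => rfl, fun _ _ => Iff.rfl⟩, rfl⟩
  obtain ⟨q1, J1, ⟨hg1, hR1, hlow1, hca1⟩, hn⟩ := Nat.find_spec hex
  have hmin : ∀ (q' : V → D.X) (J' : V → Set D.X), (Good K D q' J' ∧
      (∀ x, Ell H D.X x → R x (q' x)) ∧ (∀ y, K.rk y < r → J' y = J y) ∧
      ∀ y c, CA K A J' y c ↔ CA K A J y c) →
      ∑ o ∈ hfin.toFinset, dc K A J1 (Quotient.out o) ≤
        ∑ o ∈ hfin.toFinset, dc K A J' (Quotient.out o) := by
    intro q' J' h
    rw [hn]
    exact Nat.find_min' hex ⟨q', J', h, rfl⟩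
  refine ⟨q1, J1, hg1, hR1, hlow1, hca1, ?_⟩
  rintro x hx p hp p' hadj' hfix hpole hRp ⟨c0, hc0⟩
  by_contra hno
  push Not at hno
  have hJg : ∀ g : H, J1 (g • x) = {g • p} := by
    intro g
    ext z
    constructor
    · intro hz
      have h1 := hg1.js.smul g⁻¹ _ _ hz
      rw [inv_smul_smul, hp, Set.mem_singleton_iff] at h1
      rw [Set.mem_singleton_iff, ← h1, smul_inv_smul]
    · intro hz
      rw [Set.mem_singleton_iff] at hz
      rw [hz]
      exact hg1.js.smul g _ _ (by rw [hp]; rfl)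
  have he : Ell H D.X x := by
    refine ⟨p, fun h hh => ?_⟩
    have hh' : h • x = x := hh
    have h1 := hJg h
    rw [hh', hp] at h1
    exact (Set.singleton_injective h1).symm
  -- the new points
  obtain ⟨q', hq'⟩ : ∃ q' : V → D.X, q' = fun y =>
      if h : ∃ g : H, g • x = y then h.choose • p' else q1 y := ⟨_, rfl⟩
  have hq1 : ∀ g : H, q' (g • x) = g • p' := by
    intro g
    have h : ∃ g' : H, g' • x = g • x := ⟨g, rfl⟩
    rw [hq']
    dsimp only
    rw [dif_pos h]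
    have h1 : h.choose • x = g • x := h.choose_spec
    have h2 := hfix (g⁻¹ * h.choose) (by
      change (g⁻¹ * h.choose) • x = x
      rw [mul_smul, h1, inv_smul_smul])
    rwa [mul_smul, inv_smul_eq_iff] at h2
  have hq2 : ∀ y, (¬ ∃ g : H, g • x = y) → q' y = q1 y := by
    intro y hy
    rw [hq']
    dsimp only
    rw [dif_neg hy]
  have hqs : ∀ (h : H) (y : V), Ell H D.X y → q' (h • y) = h • q' y := by
    intro h y hey
    by_cases hy : ∃ g : H, g • x = y
    · obtain ⟨g, rfl⟩ := hy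
      rw [hq1, smul_smul, hq1, mul_smul]
    · rw [hq2 y hy, hq2 (h • y) ?_, hg1.qs _ _ hey]
      rintro ⟨g, hgy⟩
      exact hy ⟨h⁻¹ * g, by rw [mul_smul, hgy, inv_smul_smul]⟩
  have hR' : ∀ y, Ell H D.X y → R y (q' y) := by
    intro y hy
    by_cases hy' : ∃ g : H, g • x = y
    · obtain ⟨g, rfl⟩ := hy'
      rw [hq1]
      exact hR g _ _ hRp
    · rw [hq2 y hy']
      exact hR1 y hy
  obtain ⟨J', hg'⟩ := exists_good (K := K) hsoft q' hqs
  have hrg : ∀ g : H, K.rk (g • x) = r := fun g => by rw [K.rk_smul, hx]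
  have hlow : ∀ y, K.rk y < r → J' y = J1 y := by
    intro y hy
    refine hg1.agree hg' (r := r) ?_ (K.rk y) y rfl hy
    intro z hz
    apply hq2
    rintro ⟨g, rfl⟩
    rw [hrg] at hz
    exact lt_irrefl _ hz
  have hmv : ∀ g : H, J' (g • x) = {g • p'} := by
    intro g
    refine hg1.moved hg' (hq1 g) (Ell.smul he g) ?_ ?_
    · intro a ha
      have h1 := K.ar_rk _ _ ha
      rw [hrg] at h1
      exact hlow a h1
    · intro a ha
      have h1 := K.ar_smul g⁻¹ _ _ ha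
      rw [inv_smul_smul] at h1
      have h2 := hg1.js.smul g _ _ (hpole _ h1)
      rwa [smul_inv_smul] at h2
  have hoth : ∀ y, K.rk y ≤ r → (¬ ∃ g : H, g • x = y) → J' y = J1 y := by
    intro y hy hny
    refine hg1.agree_one hg' (hq2 y hny) (fun a ha => ?_)
    have h1 := K.ar_rk _ _ ha
    exact hlow a (by omega)
  have hs : ∀ y, ((∃ c, K.ar y c) ∧ q' y = q1 y) ∨ J' y = J1 y ∨
      ∃ g : H, J1 y = {g • p} ∧ J' y = {g • p'} := by
    intro y
    by_cases hy : ∃ g : H, g • x = y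
    · obtain ⟨g, rfl⟩ := hy
      exact Or.inr (Or.inr ⟨g, hJg g, hmv g⟩)
    · by_cases ha : ∃ c, K.ar y c
      · exact Or.inl ⟨ha, hq2 y hy⟩
      · push Not at ha
        exact Or.inr (Or.inl (hg1.agree_one hg' (hq2 y hy) (fun a h => absurd h (ha a))))
  -- the centres do not move
  have hcen : ∀ (i : K.I), ∃ c, (∀ k, c ∈ J1 (K.pt i k) ∪ J1 (K.pt i (k + 1))) ∧
      (∀ k, c ∈ J' (K.pt i k) ∪ J' (K.pt i (k + 1))) := by
    intro i
    obtain ⟨c, hc, -⟩ := hg1.exists_c 1 i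
    obtain ⟨c', hc', -⟩ := hg'.exists_c 1 i
    simp only [one_smul] at hc hc'
    have := hnm hg1 hg' hadj' (hRM hg1 hR1 x p p' hp hRp hadj') hs hc hc'
    rw [← this] at hc'
    exact ⟨c, hc, hc'⟩
  have hcx : ∀ y c, CA K A J' y c ↔ CA K A J1 y c := by
    have key : ∀ {q q' : V → D.X} {J J' : V → Set D.X}, Good K D q J → Good K D q' J' →
        (∀ (i : K.I), ∃ c, (∀ k, c ∈ J (K.pt i k) ∪ J (K.pt i (k + 1))) ∧
          (∀ k, c ∈ J' (K.pt i k) ∪ J' (K.pt i (k + 1)))) → ∀ y c, CA K A J y c →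
            CA K A J' y c := by
      intro q q' J J' hg hg' hcen y c
      rintro ⟨h, i, e, hc⟩
      refine ⟨h, i, e, ?_⟩
      obtain ⟨c1, h1, h2⟩ := hcen i
      obtain ⟨c2, h3, h4⟩ := hg.exists_c h i
      have e1 : c = h • c1 := by
        rw [h4 c hc]
        symm
        apply h4
        intro k'
        exact (h1 k').imp (hg.js.smul h _ _) (hg.js.smul h _ _)
      rw [e1]
      intro k'
      exact (h2 k').imp (hg'.js.smul h _ _) (hg'.js.smul h _ _)
    intro y c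
    exact ⟨key hg' hg1 (fun i => (hcen i).imp fun c h => h.symm) y c, key hg1 hg' hcen y c⟩
  -- the sum drops
  have h1 := hmin q' J' ⟨hg', hR', fun y hy => (hlow y hy).trans (hlow1 y hy),
    fun y c => (hcx y c).trans (hca1 y c)⟩
  apply absurd h1
  push Not
  have hdx : ∀ g : H, dc K A J' (g • x) < dc K A J1 (g • x) := by
    intro g
    obtain ⟨c, p1, hc, hp1, hcd⟩ : ∃ c p1, CA K A J1 (g • x) c ∧ J1 (g • x) = {p1} ∧
        dc K A J1 (g • x) = D.G.dist p1 c :=
      Nat.sInf_mem (s := {n | ∃ c p1, CA K A J1 (g • x) c ∧ J1 (g • x) = {p1} ∧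
        n = D.G.dist p1 c}) ⟨_, g • c0, g • p, hc0.smul hA hg1.js g, hJg g, rfl⟩
    have hp2 : p1 = g • p := by
      rw [hJg] at hp1
      exact (Set.singleton_injective hp1).symm
    have h2 : dc K A J' (g • x) ≤ D.G.dist (g • p') c :=
      Nat.sInf_le ⟨c, g • p', (hcx _ c).2 hc, hmv g, rfl⟩
    have h3 := hc.smul hA hg1.js g⁻¹
    rw [inv_smul_smul] at h3
    have h4 : D.G.dist (g⁻¹ • c) p = D.G.dist (g⁻¹ • c) p' + 1 := hno _ h3
    have h5 : ∀ z : D.X, D.G.dist (g⁻¹ • c) z = D.G.dist (g • z) c := by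
      intro z
      rw [← D.tact.dist_smul g, smul_inv_smul, SimpleGraph.dist_comm]
    rw [h5, h5] at h4
    rw [hcd, hp2]
    omega
  obtain ⟨o0, ho0⟩ : ∃ o0 : orbitRel.Quotient H V, o0 = Quotient.mk'' x := ⟨_, rfl⟩
  have hdy : ∀ o ∈ hfin.toFinset, o ≠ o0 →
      dc K A J' (Quotient.out o) = dc K A J1 (Quotient.out o) := by
    intro o ho hne
    rw [Set.Finite.mem_toFinset] at ho
    obtain ⟨y, hy, hyo⟩ := ho
    have e1 : (Quotient.mk'' (Quotient.out o) : orbitRel.Quotient H V) = o := Quotient.out_eq _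
    have hr : K.rk (Quotient.out o) = r := by
      obtain ⟨g, hg⟩ := Pool.Agent.SAF.mk_eq_iff.1 (hyo.trans e1.symm)
      have hy' : K.rk y = r := hy
      rw [← hg, K.rk_smul] at hy'
      exact hy'
    have h2 : J' (Quotient.out o) = J1 (Quotient.out o) := by
      apply hoth _ hr.le
      rintro ⟨g, hgx⟩
      apply hne
      rw [ho0]
      exact e1.symm.trans (Pool.Agent.SAF.mk_eq_iff.2 ⟨g, hgx⟩)
    unfold dc
    rw [h2]
    simp only [hcx]
  apply Finset.sum_lt_sum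
  · intro o ho
    by_cases ho' : o = o0
    · have e1 : (Quotient.mk'' (Quotient.out o) : orbitRel.Quotient H V) = Quotient.mk'' x :=
        (Quotient.out_eq o).trans (ho'.trans ho0)
      obtain ⟨g, hgx⟩ := Pool.Agent.SAF.mk_eq_iff.1 e1
      rw [← hgx]
      exact (hdx g).le
    · exact (hdy o ho ho').le
  · refine ⟨o0, ?_, ?_⟩
    · rw [Set.Finite.mem_toFinset, ho0]
      exact ⟨x, hx, rfl⟩
    · have e1 : (Quotient.mk'' (Quotient.out o0) : orbitRel.Quotient H V) = Quotient.mk'' x :=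
        (Quotient.out_eq o0).trans ho0
      obtain ⟨g, hgx⟩ := Pool.Agent.SAF.mk_eq_iff.1 e1
      rw [← hgx]
      exact hdx g

end

section

variable {H V : Type} [Group H] [MulAction H V] {K : PX H V}

/-- PLACEMENT, rank by rank -/
theorem exists_placed {D : Decomp H} {Mv : D.X → D.X → Prop} (hmv : NoMv K D Mv)
    (hsoft : ∀ x a, K.ar x a → Ell H D.X x)
    (A : V → H → K.I → Prop) (hA : ∀ (g : H) x h i, A x h i → A (g • x) (g * h) i)
    (R : V → D.X → Prop) (hR : ∀ (g : H) x p, R x p → R (g • x) (g • p))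
    (hRM : ∀ {q : V → D.X} {J : V → Set D.X}, Good K D q J → (∀ x, Ell H D.X x → R x (q x)) →
      ∀ x p p', J x = {p} → R x p' → D.G.Adj p p' → Mv p p')
    (q1 : V → D.X) (hq1 : ∀ (h : H) (x : V), Ell H D.X x → q1 (h • x) = h • q1 x)
    (hR1 : ∀ x, Ell H D.X x → R x (q1 x)) (Z : V → Prop)
    (hZ : ∀ x, Z x → ∀ y, K.E x y → K.InP x y)
    (hL : ∀ x, Z x → ∀ y z, K.E x y → K.E x z →
      Relation.ReflTransGen (fun a b => K.Cor a x b) y z)
    (hAZ : ∀ x, Z x → ∀ h i, A x h i ↔ Mb K x h i) (hRZ : ∀ x, Z x → ∀ p, R x p) :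
    ∃ (q : V → D.X) (J : V → Set D.X), Good K D q J ∧
      (∀ x, Ell H D.X x → R x (q x)) ∧ (∀ x, Pla K A R J x) ∧
      (∀ x, K.Sink x → Z x → Ell H D.X x → ∃ (h : H) (i : K.I) (k : Fin 5), x = h • K.pt i k ∧
        ∀ k', q x ∈ J (h • K.pt i k') ∪ J (h • K.pt i (k' + 1))) := by
  classical
  have main : ∀ r : ℕ, ∃ (q : V → D.X) (J : V → Set D.X), Good K D q J ∧
      (∀ x, Ell H D.X x → R x (q x)) ∧ ∀ x, K.rk x < r → Pla K A R J x := by
    intro r
    induction r with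
    | zero =>
      obtain ⟨J, hg⟩ := exists_good (K := K) hsoft q1 hq1
      exact ⟨q1, J, hg, hR1, fun x hx => absurd hx (Nat.not_lt_zero _)⟩
    | succ r ih =>
      obtain ⟨q, J, hg, h1, h2⟩ := ih
      obtain ⟨q', J', hg', h1', hlow, hca, h3⟩ := step hmv hsoft hA hR hRM r hg h1
      refine ⟨q', J', hg', h1', fun x hx => ?_⟩
      rcases Nat.lt_succ_iff_lt_or_eq.1 hx with hx | hx
      · intro p hp p' k1 k2 k3 k4 k5
        have k3' : ∀ a, K.ar x a → p' ∈ J a := by
          intro a ha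
          rw [← hlow a ((K.ar_rk _ _ ha).trans hx)]
          exact k3 a ha
        rw [hlow x hx] at hp
        simp only [hca] at k5 ⊢
        exact h2 x hx p hp p' k1 k2 k3' k4 k5
      · exact h3 x hx
  obtain ⟨N, hN⟩ : ∃ N : ℕ, ∀ x, K.rk x < N := by
    have h1 : (orbs H (Set.univ : Set V)).Finite := K.fin
    have h2 : (Set.range K.rk).Finite := by
      have h3 : Set.range K.rk ⊆ (fun o : orbitRel.Quotient H V => K.rk (Quotient.out o)) ''
          (orbs H (Set.univ : Set V)) := by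
        rintro _ ⟨x, rfl⟩
        refine ⟨Quotient.mk'' x, ⟨x, trivial, rfl⟩, ?_⟩
        have e1 : (Quotient.mk'' (Quotient.out (Quotient.mk'' x : orbitRel.Quotient H V)) :
            orbitRel.Quotient H V) = Quotient.mk'' x := Quotient.out_eq _
        obtain ⟨g, hg⟩ := Pool.Agent.SAF.mk_eq_iff.1 e1
        show K.rk (Quotient.out (Quotient.mk'' x : orbitRel.Quotient H V)) = K.rk x
        rw [← hg, K.rk_smul]
      exact (h1.image _).subset h3
    obtain ⟨N, hN⟩ := h2.bddAbove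
    exact ⟨N + 1, fun x => Nat.lt_succ_of_le (hN ⟨x, rfl⟩)⟩
  obtain ⟨q, J, hg, h1, h2⟩ := main N
  have hp : ∀ x, Pla K A R J x := fun x => h2 x (hN x)
  refine ⟨q, J, hg, h1, hp, ?_⟩
  intro x hx hzx he
  by_contra hno
  have hn0 : ¬ Cx K J x (q x) := by
    rintro ⟨h, i, k, e1, e2⟩
    exact hno ⟨h, i, k, e1, e2⟩
  have hne : ∃ y, K.E x y := by
    by_contra hno
    push Not at hno
    have hall : ∀ z, z = x := by
      intro z
      have := K.conn x z
      induction this with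
      | refl => rfl
      | tail _ h2 ih =>
        rw [ih] at h2
        exact absurd h2 (hno _)
    obtain ⟨w, hw⟩ := he
    obtain ⟨h, hh⟩ := D.nofix w
    exact hh (hw h (hall _))
  obtain ⟨w', hadj', hfix, ⟨c0, hc0⟩, hdist⟩ := hg.dir (hZ x hzx) (hL x hzx) he hx hne hn0
  have hcc : ∀ c, CA K A J x c ↔ Cx K J x c := by
    intro c
    constructor
    · rintro ⟨h, i, ha, hc⟩
      obtain ⟨k, hk⟩ := (hAZ x hzx h i).1 ha
      exact ⟨h, i, k, hk, hc⟩
    · rintro ⟨h, i, k, hk, hc⟩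
      exact ⟨h, i, (hAZ x hzx h i).2 ⟨k, hk⟩, hc⟩
  obtain ⟨c, hc, hc'⟩ := hp x (q x) (hg.sink hx he) w' hadj' hfix (fun a ha => absurd ha (hx a))
    (hRZ x hzx w') ⟨c0, (hcc c0).2 hc0⟩
  apply hc'
  have := hdist c ((hcc c).1 hc)
  show D.G.dist c (q x) = D.G.dist c w' + 1
  rw [SimpleGraph.dist_comm, this, SimpleGraph.dist_comm]

/-- midpoints and places -/
def RSub {D D1 : Decomp H} (v : D.X → D1.X) (m : D.X → D.X → D1.X) (R0 : V → D.X → Prop) (x : V)
    (z : D1.X) : Prop :=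
  (∃ w, z = v w ∧ R0 x w) ∨ ∃ w w', D.G.Adj w w' ∧ z = m w w' ∧ R0 x w ∧ R0 x w'

/-- PLACEMENT, relative form. `R0 x w`: the place `w` is allowed for `x`. -/
theorem exists_placed_rel {K : PX H V} (Z : V → Prop)
    (hA : ∀ x, Z x → ∀ y, K.E x y → K.InP x y)
    (hL : ∀ x, Z x → ∀ y z, K.E x y → K.E x z →
      Relation.ReflTransGen (fun a b => K.Cor a x b) y z)
    (A : V → H → K.I → Prop) (hAi : ∀ (g : H) x h i, A x h i → A (g • x) (g * h) i)
    (hAZ : ∀ x, Z x → ∀ h i, A x h i ↔ Mb K x h i) (D : Decomp H)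
    (R0 : V → D.X → Prop) (hR0 : ∀ (g : H) x p, R0 x p → R0 (g • x) (g • p))
    (hRZ : ∀ x, Z x → ∀ p, R0 x p)
    (q0 : V → D.X) (hq0 : ∀ (h : H) (x : V), Ell H D.X x → q0 (h • x) = h • q0 x)
    (hRq : ∀ x, Ell H D.X x → R0 x (q0 x))
    (hZ : ∀ {D : Decomp H} {J : V → Set D.X}, JS K.pq D J → ∀ (i : K.I) (c : D.X),
      (∀ k, c ∈ J (K.pt i k) ∪ J (K.pt i (k + 1))) → ¬ InC ↥(stabilizer H c))
    (hsoft : ∀ (D : Decomp H) (x a : V), K.ar x a → Ell H D.X x) :
    ∃ (D1 : Decomp H) (v : D.X → D1.X) (m : D.X → D.X → D1.X) (q : V → D1.X) (J : V → Set D1.X),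
      Good K D1 q J ∧
      (∀ x : V, Ell H D1.X x → Ell H D.X x) ∧
      (∀ a b, D1.G.Adj a b → ∃ c d, D.G.Adj c d ∧
        stabilizer H a ⊓ stabilizer H b ≤ stabilizer H c ⊓ stabilizer H d) ∧
      SubD K D D1 v m ∧ Function.Injective v ∧
      (∀ z, (∃ w, z = v w) ∨ ∃ w w', D.G.Adj w w' ∧ z = m w w') ∧
      (∀ x, Ell H D1.X x → RSub v m R0 x (q x)) ∧
      (∀ x, Pla K A (RSub v m R0) J x) ∧
      (∀ x, K.Sink x → Z x → Ell H D1.X x → ∃ (h : H) (i : K.I) (k : Fin 5), x = h • K.pt i k ∧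
        ∀ k', q x ∈ J (h • K.pt i k') ∪ J (h • K.pt i (k' + 1))) := by
  classical
  obtain ⟨D1, v, m, hv, hm, -, hvi, hz, hvm, hmm, hadj⟩ := exists_sub D
  have hell1 : ∀ x : V, Ell H D1.X x → Ell H D.X x := by
    rintro x ⟨z, hzx⟩
    rcases hz z with ⟨w, rfl⟩ | ⟨w, w', e, rfl⟩
    · refine ⟨w, fun h hh => hvi ?_⟩
      rw [hv, hzx h hh]
    · refine ⟨w, fun h hh => ?_⟩
      have h1 := hzx h hh
      rw [← hm h w w' e] at h1
      rcases hmm _ _ _ _ (D.adj_smul h _ _ e) e h1 with ⟨k1, -⟩ | ⟨k1, k2⟩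
      · exact k1
      · exact absurd ⟨k1, k2⟩ (D.noinv h w w' e)
  have hedge : ∀ a b, D1.G.Adj a b → ∃ c d, D.G.Adj c d ∧
        stabilizer H a ⊓ stabilizer H b ≤ stabilizer H c ⊓ stabilizer H d := by
    intro a b hab
    have main : ∀ w w', D.G.Adj w w' → ∀ g : H, g • v w = v w → g • m w w' = m w w' →
        g • w = w ∧ g • w' = w' := by
      intro w w' e g h1 h2
      have h3 : g • w = w := by
        apply hvi
        rw [hv, h1]
      refine ⟨h3, ?_⟩
      rw [← hm g w w' e] at h2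
      rcases hmm _ _ _ _ (D.adj_smul g _ _ e) e h2 with ⟨-, k2⟩ | ⟨k1, k2⟩
      · exact k2
      · exact absurd ⟨k1, k2⟩ (D.noinv g w w' e)
    obtain ⟨w, w', e, ⟨rfl, rfl⟩ | ⟨rfl, rfl⟩⟩ := (hadj a b).1 hab
    · exact ⟨w, w', e, fun g hg => main w w' e g hg.1 hg.2⟩
    · exact ⟨w, w', e, fun g hg => main w w' e g hg.2 hg.1⟩
  have sd : SubD K D D1 v m := ⟨hv, hm, hvm, hmm, hadj, by
    intro J hj i c hc w w' e hcm
    refine hZ hj i c hc (Pool.Agent.SAG.InC.mono ?_ (D.edgeC w w' e))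
    intro h hh
    have h1 : h • c = c := hh
    rw [hcm, ← hm h w w' e] at h1
    rcases hmm _ _ _ _ (D.adj_smul h _ _ e) e h1 with ⟨k1, k2⟩ | ⟨k1, k2⟩
    · exact ⟨k1, k2⟩
    · exact absurd ⟨k1, k2⟩ (D.noinv h w w' e)⟩
  obtain ⟨q, J, hg, h1, h2, h3⟩ := exists_placed (K := K) (D := D1) (Mv := fun _ _ => True)
    sd.noMv (hsoft D1) A hAi (RSub v m R0) (by
      rintro g x p (⟨w, rfl, hw⟩ | ⟨w, w', e, rfl, hw, hw'⟩)
      · exact Or.inl ⟨g • w, (hv g w).symm, hR0 g _ _ hw⟩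
      · exact Or.inr ⟨g • w, g • w', D.adj_smul g _ _ e, (hm g w w' e).symm, hR0 g _ _ hw,
          hR0 g _ _ hw'⟩)
    (fun _ _ _ _ _ _ _ _ => trivial) (fun x => v (q0 x)) (by
      intro h x hx
      show v (q0 (h • x)) = h • v (q0 x)
      rw [hq0 h x (hell1 x hx), hv])
    (fun x hx => Or.inl ⟨q0 x, rfl, hRq x (hell1 x hx)⟩) Z hA hL hAZ (by
      intro x hx p
      rcases hz p with ⟨w, e⟩ | ⟨w, w', e, e'⟩
      · exact Or.inl ⟨w, e, hRZ x hx w⟩
      · exact Or.inr ⟨w, w', e, e', hRZ x hx w, hRZ x hx w'⟩)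
  exact ⟨D1, v, m, q, J, hg, hell1, hedge, sd, hvi, hz, h1, h2, h3⟩

end

end Pool.Agent.DI.PlR
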