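import Pool.Agent.DI.OneEdge

/-!
# DI/PlcT: a midpoint in a refined tree, and the collapse of the other edges

`exists_fix_over`: a refinement `D'' → D` one of whose edge groups is infinite has a vertex over
the midpoint `u` with the same stabiliser. `exists_mid_col`: a vertex `u` of valence two whose two
edges are exchanged: the collapse of all edges outside the orbit of `u l` keeps the midpoint.
-/

namespace Pool.Agent.DI

open MulAction
open Pool.Agent.SAF (InC orbs FinOrb oc Decomp SAn SA Conv exists_cut exists_next FinOrb_iff TAct)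
open Pool.Agent.BT (bey Ell mst Hyp)
open Pool.Agent.BT.TA

variable {H : Type} [Group H]

/-- an element which fixes two vertices fixes the first edge of the path -/
theorem fix_nxt {D : Decomp H} {u p t : D.X} {g : H} (hu : g • u = u) (hp : g • p = p)
    (ht : D.G.Adj u t) (hd : D.G.dist u p = D.G.dist t p + 1) : g • t = t := by
  have h1 : D.G.Adj u (g • t) := by
    have := D.adj_smul g _ _ ht
    rwa [hu] at this
  have k1 : p ∈ bey D.G u t := by
    show D.G.dist p u = D.G.dist p t + 1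
    rw [SimpleGraph.dist_comm, hd, SimpleGraph.dist_comm]
  have k2 : p ∈ bey D.G u (g • t) := by
    have := Pool.Agent.BT.TA.bey_smul D.adj_smul D.tree D.noinv g k1
    rwa [hu, hp] at this
  exact Pool.Agent.BT.x_next_unique D.tree h1 ht k2 k1

/-- the group of a translated edge is infinite -/
theorem stab2_inf_smul {X : Type} [MulAction H X] {x y : X} (g : H)
    (hi : Infinite ↥(stabilizer H x ⊓ stabilizer H y)) :
    Infinite ↥(stabilizer H (g • x) ⊓ stabilizer H (g • y)) := by
  haveI := hi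
  refine Infinite.of_injective
    (fun b : ↥(stabilizer H x ⊓ stabilizer H y) =>
      (⟨g * b.1 * g⁻¹, ?_, ?_⟩ : ↥(stabilizer H (g • x) ⊓ stabilizer H (g • y)))) ?_
  · have hb : b.1 • x = x := b.2.1
    show (g * b.1 * g⁻¹) • g • x = g • x
    rw [mul_smul, mul_smul, inv_smul_smul, hb]
  · have hb : b.1 • y = y := b.2.2
    show (g * b.1 * g⁻¹) • g • y = g • y
    rw [mul_smul, mul_smul, inv_smul_smul, hb]
  · intro a b hab
    have h1 : g * a.1 * g⁻¹ = g * b.1 * g⁻¹ := congrArg Subtype.val hab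
    exact Subtype.ext (mul_left_cancel (mul_right_cancel h1))

/-- THE MIDPOINT IN A REFINEMENT -/
theorem exists_fix_over {D D' : Decomp H} {pr : D'.X → D.X}
    (hs : ∀ (h : H) l, pr (h • l) = h • pr l)
    (ha : ∀ l m, D'.G.Adj l m → D.G.Adj (pr l) (pr m)) {w u w' : D.X}
    (hval : ∀ z, D.G.Adj u z → z = w ∨ z = w') (hne : w ≠ w')
    (hU : InC ↥(stabilizer H u)) {b : H} (hb : b • u = u) (hbw : b • w = w')
    (hone : ∀ x y, D.G.Adj x y → Eo D w u x y)
    (hinf : ∃ l m, D'.G.Adj l m ∧ Infinite ↥(stabilizer H l ⊓ stabilizer H m)) :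
    ∃ u' : D'.X, pr u' = u ∧ stabilizer H u' = stabilizer H u := by
  classical
  -- an edge over `w u`
  obtain ⟨l1, l2, h12, e1, e2, i12⟩ : ∃ l1 l2, D'.G.Adj l1 l2 ∧ pr l1 = w ∧ pr l2 = u ∧
      Infinite ↥(stabilizer H l1 ⊓ stabilizer H l2) := by
    obtain ⟨x0, y0, h0, i0⟩ := hinf
    obtain ⟨g, ⟨g1, g2⟩ | ⟨g1, g2⟩⟩ := hone _ _ (ha _ _ h0)
    · refine ⟨g⁻¹ • x0, g⁻¹ • y0, D'.adj_smul _ _ _ h0, ?_, ?_, stab2_inf_smul g⁻¹ i0⟩
      · rw [hs, ← g1, inv_smul_smul]
      · rw [hs, ← g2, inv_smul_smul]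
    · refine ⟨g⁻¹ • y0, g⁻¹ • x0, (D'.adj_smul _ _ _ h0).symm, ?_, ?_, ?_⟩
      · rw [hs, ← g1, inv_smul_smul]
      · rw [hs, ← g2, inv_smul_smul]
      · have := stab2_inf_smul g⁻¹ i0
        rwa [inf_comm] at this
  have hle : ∀ l, stabilizer H l ≤ stabilizer H (pr l) := by
    intro l g hg
    have hg' : g • l = l := hg
    show g • pr l = pr l
    rw [← hs, hg']
  obtain ⟨u', hu'⟩ : ∃ u' : D'.X, ∀ g ∈ stabilizer H u, g • u' = u' := by
    by_contra hcon
    push Not at hcon
    have hy : Hyp D'.X (stabilizer H u) := hcon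
    have h1 := Pool.Agent.BT.finite_of_hyp D'.tact hU hy
      (B := stabilizer H l1 ⊓ stabilizer H l2) (w := l2)
      (fun g hg => by rw [← e2]; exact hle _ hg.2) (fun g hg => hg.2)
    exact (not_finite_iff_infinite.2 i12) h1
  have hpu : pr u' = u := by
    by_contra hcon
    have hfix : ∀ g ∈ stabilizer H u, g • pr u' = pr u' := fun g hg => by
      rw [← hs, hu' g hg]
    obtain ⟨t, h1, h2⟩ := exists_next D.tree (a := u) (b := pr u') (fun e => hcon e.symm)
    have h3 := fix_nxt hb (hfix b hb) h1 h2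
    rcases hval t h1 with rfl | rfl
    · exact hne (h3.symm.trans hbw)
    · rw [← hbw] at h3
      exact hne ((smul_left_cancel b h3).symm.trans hbw).symm.symm
  refine ⟨u', hpu, le_antisymm ?_ hu'⟩
  rw [← hpu]
  exact hle u'

/-- THE COLLAPSE AT A MIDPOINT -/
theorem exists_mid_col {D : Decomp H} {u l l' : D.X} (hl : D.G.Adj u l) (hl' : D.G.Adj u l')
    (hne : l ≠ l') (hval : ∀ z, D.G.Adj u z → z = l ∨ z = l') {b : H} (hb : b • u = u)
    (hbl : b • l = l') :
    ∃ (D1 : Decomp H) (c : D.X → D1.X), TMap D.G D1.G c ∧ (∀ (h : H) a, c (h • a) = h • c a) ∧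
      (∀ a, c a = c u → a = u) ∧ c l ≠ c l' ∧ (∀ z, D1.G.Adj (c u) z → z = c l ∨ z = c l') ∧
      (∀ x y, D1.G.Adj x y → Eo D1 (c l) (c u) x y) := by
  have hR := IR_Rl D l u
  have hnR : ¬ Rl D l u l u := fun h => h.2 (Eo.refl l u)
  have hEl' : Eo D l u l' u := ⟨b, Or.inl ⟨hbl, hb⟩⟩
  have hnR' : ¬ Rl D l u l' u := fun h => h.2 hEl'
  have hnone : ∀ z, ¬ Rl D l u u z := by
    intro z h
    rcases hval z h.1 with rfl | rfl
    · exact hnR h.symm'
    · exact hnR' h.symm'
  -- the class of `u`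
  have hcls : ∀ x y, Relation.EqvGen (Rl D l u) x y → (x = u ↔ y = u) := by
    intro x y h
    induction h with
    | rel x y h =>
      constructor
      · rintro rfl
        exact absurd h (hnone y)
      · rintro rfl
        exact absurd h.symm' (hnone x)
    | refl x => exact Iff.rfl
    | symm x y _ ih => exact ih.symm
    | trans x y z _ _ i1 i2 => exact i1.trans i2
  obtain ⟨g, hg, hg0, hg1⟩ := exists_cut D.G D.tree l u hl.symm
  obtain ⟨g', hg', hg0', hg1'⟩ := exists_cut D.G D.tree l' u hl'.symm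
  -- sides are constant on classes
  have side : ∀ x y, Relation.EqvGen (Rl D l u) x y → (x ∈ bey D.G u l ↔ y ∈ bey D.G u l) := by
    intro x y h
    have e := hR.cut_const hnR hg h
    have h1 : ∀ z, z ∈ bey D.G u l ↔ g z = 0 := by
      intro z
      rw [hg0]
      exact Iff.rfl
    rw [h1, h1, e]
  have side' : ∀ x y, Relation.EqvGen (Rl D l u) x y →
      (x ∈ bey D.G u l' ↔ y ∈ bey D.G u l') := by
    intro x y h
    have e := hR.cut_const hnR' hg' h
    have h1 : ∀ z, z ∈ bey D.G u l' ↔ g' z = 0 := by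
      intro z
      rw [hg0']
      exact Iff.rfl
    rw [h1, h1, e]
  have hbl' : b • l' = l := by
    have h1 : D.G.Adj u (b • l') := by
      have := D.adj_smul b _ _ hl'
      rwa [hb] at this
    rcases hval _ h1 with h | h
    · exact h
    · exact absurd (smul_left_cancel b (hbl.trans h.symm)) hne
  have disj : ∀ z, z ∈ bey D.G u l → z ∈ bey D.G u l' → False := by
    intro z h1 h2
    exact hne (Pool.Agent.BT.x_next_unique D.tree hl hl' h1 h2)
  obtain ⟨D1, c, T, hc, hcl⟩ := exists_col D _ hR (by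
    intro x
    by_contra hcon
    push Not at hcon
    by_cases hxu : x = u
    · subst hxu
      obtain ⟨h, hh⟩ := D.nofix x
      exact hh ((hcls _ _ (hcon h)).2 rfl)
    · obtain ⟨t, h1, h2⟩ := exists_next D.tree (a := u) (b := x) (fun e => hxu e.symm)
      have hx : x ∈ bey D.G u t := by
        show D.G.dist x u = D.G.dist x t + 1
        rw [SimpleGraph.dist_comm, h2, SimpleGraph.dist_comm]
      have hbx : b • x ∈ bey D.G u (b • t) := by
        have := Pool.Agent.BT.TA.bey_smul D.adj_smul D.tree D.noinv b hx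
        rwa [hb] at this
      rcases hval t h1 with rfl | rfl
      · rw [hbl] at hbx
        exact disj _ ((side _ _ (hcon b)).2 hx) hbx
      · rw [hbl'] at hbx
        exact disj _ hbx ((side' _ _ (hcon b)).2 hx))
  refine ⟨D1, c, T, hc, ?_, ?_, ?_, ?_⟩
  · intro a h
    exact (hcls _ _ ((hcl _ _).1 h)).2 rfl
  · intro h
    have h1 := (side _ _ ((hcl _ _).1 h)).1 (bey_self hl)
    exact disj _ h1 (bey_self hl')
  · intro z hz
    obtain ⟨α, β, h1, rfl, hab⟩ := T.lift _ _ hz
    have h2 : α = u := (hcls _ _ ((hcl _ _).1 h1)).2 rfl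
    subst h2
    rcases hval β hab with rfl | rfl
    · exact Or.inl rfl
    · exact Or.inr rfl
  · intro x y hxy
    obtain ⟨α, β, rfl, rfl, hab⟩ := T.lift _ _ hxy
    have h1 : Eo D l u α β := by
      by_contra hcon
      exact hxy.ne ((hcl _ _).2 (Relation.EqvGen.rel _ _ ⟨hab, hcon⟩))
    obtain ⟨k, ⟨rfl, rfl⟩ | ⟨rfl, rfl⟩⟩ := h1
    · exact ⟨k, Or.inl ⟨(hc k l).symm, (hc k u).symm⟩⟩
    · exact ⟨k, Or.inr ⟨(hc k l).symm, (hc k u).symm⟩⟩

end Pool.Agent.DI
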