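import Pool.Agent.DI.PmD

/-!
# DI/PmC: cut data of a fold

`D : CuD K`, `D1 : Sq1 K` one orbit of tops with partners, the rank of the hub `D.v` is smaller than the
rank of the top. `D.side D1 hr`: the cut data of the fold, the same vertices without the folded ones.
`D.part D1 hr hy hp hm`: the hub is the partner of the top, the in-arrows of the top are added.
`side_sv`: the corner values of `D.side` are the corner values of `D` at the folded corner.
-/

namespace Pool.Agent.DI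

open MulAction
open Pool.Agent.SAF (InC orbs FinOrb oc)

variable {H V : Type} [Group H] [MulAction H V]

namespace CuD

variable {K : GX H V} (D : CuD K)

theorem sv_symm (x y z : V) : D.sv x y z = D.sv z y x := sg_symm x y z

theorem sv_not {x y z : V} (h1 : ¬ D.mv x y) (h2 : ¬ D.mv z y) : D.sv x y z = 0 :=
  sg_not_not (mv := D.sl.mv) (τ := D.sl.τ) h1 h2

theorem sv_mm {x y z : V} (h1 : D.mv x y) (h2 : D.mv z y) (h3 : D.τ x y = D.τ z y) :
    D.sv x y z = 0 :=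
  sg_mv_mv (mv := D.sl.mv) (τ := D.sl.τ) h1 h2 h3

theorem sv_two {x y z : V} (h1 : D.mv x y) (h2 : D.mv z y) (h3 : D.τ x y ≠ D.τ z y) :
    D.sv x y z = 2 := by
  show sg D.mv D.τ x y z = _
  unfold sg seg
  rw [if_pos h1, if_pos h2, if_neg h3]
  rfl

theorem sv_τ {x y z : V} (h1 : D.mv x y) (h3 : z = D.τ x y) : D.sv x y z = -1 :=
  sg_mv_τ (mv := D.sl.mv) (τ := D.sl.τ) h1 (by rw [h3]; exact D.not_mv_τ h1) h3

theorem sv_one {x y z : V} (h1 : D.mv x y) (h2 : ¬ D.mv z y) (h3 : z ≠ D.τ x y) :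
    D.sv x y z = 1 :=
  sg_mv_not (mv := D.sl.mv) (τ := D.sl.τ) h1 h2 h3

theorem mv_smul (g : H) {x y : V} (h : D.mv x y) : D.mv (g • x) (g • y) := D.sl.mv_smul g x y h

theorem mv_iff (g : H) {x y : V} : D.mv (g • x) (g • y) ↔ D.mv x y := D.sl.mv_iff g x y

theorem τ_smul (g : H) {x y : V} (h : D.mv x y) : D.τ (g • x) (g • y) = g • D.τ x y :=
  D.sl.τ_smul g x y h

theorem sv_smul (g : H) (x y z : V) : D.sv (g • x) (g • y) (g • z) = D.sv x y z := by
  have e : ∀ u v : V, g • u = g • v ↔ u = v := fun u v => smul_left_cancel_iff g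
  by_cases h1 : D.mv x y
  · by_cases h2 : D.mv z y
    · by_cases h3 : D.τ x y = D.τ z y
      · rw [D.sv_mm h1 h2 h3, D.sv_mm (D.mv_smul g h1) (D.mv_smul g h2)]
        rw [D.τ_smul g h1, D.τ_smul g h2, h3]
      · rw [D.sv_two h1 h2 h3, D.sv_two (D.mv_smul g h1) (D.mv_smul g h2)]
        rw [D.τ_smul g h1, D.τ_smul g h2]
        exact fun k => h3 ((e _ _).1 k)
    · by_cases h3 : z = D.τ x y
      · rw [D.sv_τ h1 h3, D.sv_τ (D.mv_smul g h1)]
        rw [D.τ_smul g h1, h3]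
      · rw [D.sv_one h1 h2 h3, D.sv_one (D.mv_smul g h1) (fun k => h2 ((D.mv_iff g).1 k))]
        rw [D.τ_smul g h1]
        exact fun k => h3 ((e _ _).1 k)
  · by_cases h2 : D.mv z y
    · rw [D.sv_symm, D.sv_symm x]
      by_cases h3 : x = D.τ z y
      · rw [D.sv_τ h2 h3, D.sv_τ (D.mv_smul g h2)]
        rw [D.τ_smul g h2, h3]
      · rw [D.sv_one h2 h1 h3, D.sv_one (D.mv_smul g h2) (fun k => h1 ((D.mv_iff g).1 k))]
        rw [D.τ_smul g h2]
        exact fun k => h3 ((e _ _).1 k)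
    · rw [D.sv_not h1 h2, D.sv_not (fun k => h1 ((D.mv_iff g).1 k)) (fun k => h2 ((D.mv_iff g).1 k))]

/-- the moved arrows are at the orbit of the hub -/
theorem mv_hub {x y : V} (h : D.mv x y) : ∃ g : H, y = g • D.v ∧ g⁻¹ • x ∈ D.R := by
  obtain ⟨g, h1, h2⟩ := h
  exact ⟨g, h2, h1⟩

theorem ra : K.rk D.a < K.rk D.v := K.ar_rk _ _ D.va

theorem rb : K.rk D.b < K.rk D.v := K.ar_rk _ _ D.vb

section Fold

variable {D} (D1 : Sq1 K) (hr : K.rk D.v < K.rk D1.T)

include hr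

theorem nOv : ¬ D1.toF.O D.v := by
  rintro ⟨h, e⟩
  rw [e, K.rk_smul] at hr
  omega

theorem nOa : ¬ D1.toF.O D.a := by
  rintro ⟨h, e⟩
  have h1 := D.ra
  rw [e, K.rk_smul] at h1
  omega

theorem nOb : ¬ D1.toF.O D.b := by
  rintro ⟨h, e⟩
  have h1 := D.rb
  rw [e, K.rk_smul] at h1
  omega

theorem f_hub (h : H) : D1.toF.f (h • D.v) = h • D.v := by
  rw [D1.toF.f_smul, D1.toF.f_not (nOv D1 hr)]

theorem f_pa (h : H) : D1.toF.f (h • D.a) = h • D.a := by
  rw [D1.toF.f_smul, D1.toF.f_not (nOa D1 hr)]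

theorem f_pb (h : H) : D1.toF.f (h • D.b) = h • D.b := by
  rw [D1.toF.f_smul, D1.toF.f_not (nOb D1 hr)]

theorem F_v : (D1.toF.F D.v).1 = D.v := D1.toF.f_not (nOv D1 hr)

theorem F_a : (D1.toF.F D.a).1 = D.a := D1.toF.f_not (nOa D1 hr)

theorem F_b : (D1.toF.F D.b).1 = D.b := D1.toF.f_not (nOb D1 hr)

end Fold

/-- THE SIDE FORM: the same vertices without the folded ones -/
noncomputable def side (D : CuD K) (D1 : Sq1 K) (hr : K.rk D.v < K.rk D1.T) : CuD D1.toF.gx where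
  v := D1.toF.F D.v
  a := D1.toF.F D.a
  b := D1.toF.F D.b
  R := {c | c.1 ∈ D.R}
  va := ⟨D.a, by rw [F_v D1 hr]; exact D.va, rfl⟩
  vb := ⟨D.b, by rw [F_v D1 hr]; exact D.vb, rfl⟩
  ab h := D.ab (by
    have := congrArg Subtype.val h
    rwa [F_a D1 hr, F_b D1 hr] at this)
  R_ar c hc := ⟨D.v, D.R_ar _ hc, rfl⟩
  stab g hg c hc hgc := by
    have h1 : g • D.v = D.v := by
      have := congrArg Subtype.val hg
      rwa [D1.toF.smul_coe, F_v D1 hr] at this
    apply Subtype.ext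
    rw [D1.toF.smul_coe, F_a D1 hr]
    exact D.stab g h1 _ hc hgc
  inv g hg ha c hc := by
    have h1 : g • D.v = D.v := by
      have := congrArg Subtype.val hg
      rwa [D1.toF.smul_coe, F_v D1 hr] at this
    have h2 : g • D.a = D.a := by
      have := congrArg Subtype.val ha
      rwa [D1.toF.smul_coe, F_a D1 hr] at this
    exact D.inv g h1 h2 _ hc

section Side

variable (D1 : Sq1 K) (hr : K.rk D.v < K.rk D1.T)

theorem side_mv {c d : D1.toF.W} : (D.side D1 hr).mv c d ↔ D.mv c.1 d.1 := by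
  constructor
  · rintro ⟨h, h1, h2⟩
    refine ⟨h, h1, ?_⟩
    have := congrArg Subtype.val h2
    rw [D1.toF.smul_coe] at this
    rw [this]
    show h • D1.toF.f D.v = _
    rw [D1.toF.f_not (nOv D1 hr)]
  · rintro ⟨h, h1, h2⟩
    refine ⟨h, h1, Subtype.ext ?_⟩
    rw [D1.toF.smul_coe, h2]
    show h • D.v = h • D1.toF.f D.v
    rw [D1.toF.f_not (nOv D1 hr)]

theorem side_τ {c d : D1.toF.W} (h : D.mv c.1 d.1) : ((D.side D1 hr).τ c d).1 = D.τ c.1 d.1 := by
  obtain ⟨g, h1, h2⟩ := h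
  have h3 : d = g • (D.side D1 hr).v := by
    apply Subtype.ext
    rw [D1.toF.smul_coe, h2]
    show g • D.v = g • D1.toF.f D.v
    rw [D1.toF.f_not (nOv D1 hr)]
  rw [(D.side D1 hr).τ_eq (h := g) h1 h3, D.τ_eq h1 h2]
  show g • D1.toF.f D.a = _
  rw [D1.toF.f_not (nOa D1 hr)]

/-- THE CORNER VALUES of the side form -/
theorem side_sv (c d e : D1.toF.W) : (D.side D1 hr).sv c d e = D.sv c.1 d.1 e.1 := by
  set D' := D.side D1 hr with hD'
  have m1 : D'.mv c d ↔ D.mv c.1 d.1 := D.side_mv D1 hr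
  have m2 : D'.mv e d ↔ D.mv e.1 d.1 := D.side_mv D1 hr
  by_cases h1 : D.mv c.1 d.1
  · have t1 := D.side_τ D1 hr h1
    by_cases h2 : D.mv e.1 d.1
    · have t2 := D.side_τ D1 hr h2
      by_cases h3 : D.τ c.1 d.1 = D.τ e.1 d.1
      · rw [D.sv_mm h1 h2 h3, D'.sv_mm (m1.2 h1) (m2.2 h2)]
        exact Subtype.ext (by rw [t1, t2, h3])
      · rw [D.sv_two h1 h2 h3, D'.sv_two (m1.2 h1) (m2.2 h2)]
        intro k
        exact h3 (by rw [← t1, ← t2]; exact congrArg Subtype.val k)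
    · by_cases h3 : e.1 = D.τ c.1 d.1
      · rw [D.sv_τ h1 h3, D'.sv_τ (m1.2 h1)]
        exact Subtype.ext (by rw [t1, h3])
      · rw [D.sv_one h1 h2 h3, D'.sv_one (m1.2 h1) (fun k => h2 (m2.1 k))]
        intro k
        exact h3 (by rw [← t1]; exact congrArg Subtype.val k)
  · by_cases h2 : D.mv e.1 d.1
    · have t2 := D.side_τ D1 hr h2
      rw [D.sv_symm, D'.sv_symm]
      by_cases h3 : c.1 = D.τ e.1 d.1
      · rw [D.sv_τ h2 h3, D'.sv_τ (m2.2 h2)]
        exact Subtype.ext (by rw [t2, h3])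
      · rw [D.sv_one h2 h1 h3, D'.sv_one (m2.2 h2) (fun k => h1 (m1.1 k))]
        intro k
        exact h3 (by rw [← t2]; exact congrArg Subtype.val k)
    · rw [D.sv_not h1 h2, D'.sv_not (fun k => h1 (m1.1 k)) (fun k => h2 (m2.1 k))]

/-- the corner values of the side form at the image of a corner -/
theorem side_sv_F (x y z : V) : (D.side D1 hr).sv (D1.toF.F x) (D1.toF.F y) (D1.toF.F z) =
    D.sv (D1.toF.f x) (D1.toF.f y) (D1.toF.f z) := D.side_sv D1 hr _ _ _

end Side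

/-- the hub is the partner of the top, the poles of the top are in `R` or the pole `a` of the hub -/
structure Pt1 (D : CuD K) (D1 : Sq1 K) : Prop where
  hy : D1.y = D.v
  hp : ∀ p, K.ar D1.T p → p ∈ D.R ∨ p = D.a
  hm : ∃ m, K.ar D1.T m ∧ m ∈ D.R

variable {D} {D1 : Sq1 K} (hP : Pt1 D D1)

include hP

theorem Pt1.hr : K.rk D.v < K.rk D1.T := by
  rw [← hP.hy]
  exact D1.rk

/-- elements which fix the top and the hub fix the pole -/
theorem Pt1.fixa {k : H} (h1 : k • D1.T = D1.T) (h2 : k • D.v = D.v) : k • D.a = D.a := by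
  obtain ⟨m, m1, m2⟩ := hP.hm
  have h3 := K.ar_smul k _ _ m1
  rw [h1] at h3
  rcases hP.hp _ h3 with h | h
  · exact D.stab k h2 m m2 h
  · exfalso
    have r1 := K.ar_rk _ _ (D.R_ar m m2)
    have r2 := D.ra
    rw [← h, K.rk_smul] at r2
    omega

theorem Pt1.f_top {h : H} (hv : h • D.v = D.v) : D1.toF.f (h • D1.T) = D.v := by
  rw [D1.f_T, hP.hy, hv]

/-- the in-arrows of the hub in the fold which are moved -/
def Pt1.R' (_hP : Pt1 D D1) : Set D1.toF.W :=
  {c | (∃ d, D1.toF.gx.ar c d ∧ d ≠ D1.toF.F D.v) ∧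
    (c.1 ∈ D.R ∨ ∃ h : H, h • D.v = D.v ∧ h • D.a = D.a ∧ K.ar c.1 (h • D1.T))}

/-- a vertex with another out-arrow has only one out-arrow over the hub -/
theorem Pt1.one {c : D1.toF.W} (hc : ∃ d, D1.toF.gx.ar c d ∧ d ≠ D1.toF.F D.v) {p q : V}
    (h1 : K.ar c.1 p) (h2 : K.ar c.1 q) (e1 : D1.toF.f p = D.v) (e2 : D1.toF.f q = D.v) : p = q := by
  obtain ⟨_, ⟨d, h3, rfl⟩, h4⟩ := hc
  have h5 : D1.toF.f d ≠ D.v := by
    intro e
    apply h4
    rw [D1.toF.F_eq, e, D1.toF.f_not (nOv D1 hP.hr)]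
  rcases K.two _ _ _ _ h1 h2 h3 with e | e | e
  · exact e
  · exact absurd (by rw [← e]; exact e2) h5
  · exact absurd (by rw [← e]; exact e1) h5

/-- THE PARTNER FORM: the in-arrows of the top are added -/
noncomputable def Pt1.part : CuD D1.toF.gx where
  v := D1.toF.F D.v
  a := D1.toF.F D.a
  b := D1.toF.F D.b
  R := hP.R'
  va := ⟨D.a, by rw [F_v D1 hP.hr]; exact D.va, rfl⟩
  vb := ⟨D.b, by rw [F_v D1 hP.hr]; exact D.vb, rfl⟩
  ab h := D.ab (by
    have := congrArg Subtype.val h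
    rwa [F_a D1 hP.hr, F_b D1 hP.hr] at this)
  R_ar c hc := by
    obtain ⟨-, h | ⟨h, h1, h2, h3⟩⟩ := hc
    · exact ⟨D.v, D.R_ar _ h, rfl⟩
    · refine ⟨h • D1.T, h3, D1.toF.F_eq.2 ?_⟩
      rw [hP.f_top h1, D1.toF.f_not (nOv D1 hP.hr)]
  stab g hg c hc hgc := by
    have hv : g • D.v = D.v := by
      have := congrArg Subtype.val hg
      rwa [D1.toF.smul_coe, F_v D1 hP.hr] at this
    have hv' : g⁻¹ • D.v = D.v := by rw [inv_smul_eq_iff, hv]
    apply Subtype.ext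
    rw [D1.toF.smul_coe, F_a D1 hP.hr]
    have fv : D1.toF.f D.v = D.v := D1.toF.f_not (nOv D1 hP.hr)
    obtain ⟨hn, h | ⟨h, h1, h2, h3⟩⟩ := hc
    · obtain ⟨-, k | ⟨k, k1, k2, k3⟩⟩ := hgc
      · exact D.stab g hv _ h k
      · exfalso
        have k4 : K.ar c.1 (g⁻¹ • k • D1.T) := by
          have := K.ar_smul g⁻¹ _ _ k3
          rwa [D1.toF.smul_coe, inv_smul_smul] at this
        have e1 : D1.toF.f (g⁻¹ • k • D1.T) = D.v := by
          rw [D1.toF.f_smul, hP.f_top k1, hv']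
        have e2 := hP.one hn (D.R_ar _ h) k4 fv e1
        exact nOv D1 hP.hr ⟨g⁻¹ * k, by rw [e2, mul_smul]⟩
    · have e1 : D1.toF.f (h • D1.T) = D.v := hP.f_top h1
      obtain ⟨-, k | ⟨k, k1, k2, k3⟩⟩ := hgc
      · exfalso
        have k4 : K.ar c.1 D.v := by
          have := K.ar_smul g⁻¹ _ _ (D.R_ar _ k)
          rwa [D1.toF.smul_coe, inv_smul_smul, hv'] at this
        have e2 := hP.one hn h3 k4 e1 fv
        exact nOv D1 hP.hr ⟨h, e2.symm⟩
      · have k4 : K.ar c.1 (g⁻¹ • k • D1.T) := by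
          have := K.ar_smul g⁻¹ _ _ k3
          rwa [D1.toF.smul_coe, inv_smul_smul] at this
        have e2 : D1.toF.f (g⁻¹ • k • D1.T) = D.v := by
          rw [D1.toF.f_smul, hP.f_top k1, hv']
        have e3 := hP.one hn h3 k4 e1 e2
        have e4 : (k⁻¹ * g * h) • D1.T = D1.T := by
          rw [mul_smul, mul_smul, e3, smul_inv_smul, inv_smul_smul]
        have e5 : (k⁻¹ * g * h) • D.v = D.v := by
          rw [mul_smul, mul_smul, h1, hv, inv_smul_eq_iff, k1]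
        have e6 := hP.fixa e4 e5
        rw [mul_smul, mul_smul, h2, inv_smul_eq_iff, k2] at e6
        exact e6
  inv g hg ha c hc := by
    have hv : g • D.v = D.v := by
      have := congrArg Subtype.val hg
      rwa [D1.toF.smul_coe, F_v D1 hP.hr] at this
    have hb : g • D.a = D.a := by
      have := congrArg Subtype.val ha
      rwa [D1.toF.smul_coe, F_a D1 hP.hr] at this
    obtain ⟨⟨d, d1, d2⟩, h⟩ := hc
    refine ⟨⟨g • d, D1.toF.gx.ar_smul g _ _ d1, ?_⟩, ?_⟩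
    · intro e
      apply d2
      rw [← inv_smul_smul g d, e, inv_smul_eq_iff]
      exact hg.symm
    · rcases h with h | ⟨h, h1, h2, h3⟩
      · exact Or.inl (D.inv g hv hb _ h)
      · exact Or.inr ⟨g * h, by rw [mul_smul, h1, hv], by rw [mul_smul, h2, hb],
          by rw [mul_smul]; exact K.ar_smul g _ _ h3⟩

end CuD

end Pool.Agent.DI
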