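import Pool.Agent.DI.PmC

/-!
# DI/PmF: the far fold step

`D : CuD K`, `D1 : Sq1 K`, the square of the top does not pass the hub: no translate of the top or of the
partner is the hub and no translate of the top has an arrow to the hub. `D.far`: the same cut in the fold.
`far_sv`: the corner values are equal. `far_wcs`: the weighted sums are equal.
-/

namespace Pool.Agent.DI

open MulAction
open Pool.Agent.SAF (InC orbs FinOrb oc)

variable {H V : Type} [Group H] [MulAction H V]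

/-- the square of the top does not pass the hub -/
structure FarF {K : GX H V} (D : CuD K) (D1 : Sq1 K) : Prop where
  v1 : ∀ h : H, D.v ≠ h • D1.T
  v2 : ∀ h : H, D.v ≠ h • D1.y
  v3 : ∀ h : H, ¬ K.ar (h • D1.T) D.v
  ab : D1.toF.F D.a ≠ D1.toF.F D.b

namespace FarF

variable {K : GX H V} {D : CuD K} {D1 : Sq1 K} (hF : FarF D D1)

include hF

theorem nO (g : H) : ¬ D1.toF.O (g • D.v) := by
  rintro ⟨h, e⟩
  exact hF.v1 (g⁻¹ * h) (by rw [mul_smul, ← e, inv_smul_smul])

theorem fv (g : H) : D1.toF.f (g • D.v) = g • D.v := D1.toF.f_not (hF.nO g)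

/-- only the hub is mapped to the hub -/
theorem eq_v {y : V} {g : H} (h : D1.toF.f y = g • D.v) : y = g • D.v := by
  by_cases hy : D1.toF.O y
  · obtain ⟨k, rfl⟩ := hy
    rw [D1.f_T] at h
    exact absurd (by rw [mul_smul, h, inv_smul_smul]) (hF.v2 (g⁻¹ * k))
  · rwa [D1.toF.f_not hy] at h

/-- the moved vertices are not folded -/
theorem nR {n : V} (hn : n ∈ D.R) : ¬ D1.toF.O n := by
  rintro ⟨k, rfl⟩
  exact hF.v3 k (D.R_ar _ hn)

/-- the cut in the fold -/
noncomputable def far : CuD D1.toF.gx where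
  v := D1.toF.F D.v
  a := D1.toF.F D.a
  b := D1.toF.F D.b
  R := {c | c.1 ∈ D.R}
  va := ⟨D.a, by
    have : (D1.toF.F D.v).1 = D.v := by
      have := hF.fv 1
      rwa [one_smul] at this
    rw [this]
    exact D.va, rfl⟩
  vb := ⟨D.b, by
    have : (D1.toF.F D.v).1 = D.v := by
      have := hF.fv 1
      rwa [one_smul] at this
    rw [this]
    exact D.vb, rfl⟩
  ab := hF.ab
  R_ar c hc := ⟨D.v, D.R_ar _ hc, rfl⟩
  stab g hg c hc hgc := by
    have h1 : g • D.v = D.v := by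
      have h2 := congrArg Subtype.val hg
      have h3 : D1.toF.f D.v = D.v := by
        have := hF.fv 1
        rwa [one_smul] at this
      rw [D1.toF.smul_coe] at h2
      have h4 : g • D1.toF.f D.v = D1.toF.f D.v := h2
      rwa [h3] at h4
    rw [← D1.toF.F_smul, D.stab g h1 _ hc hgc]
  inv g hg ha c hc := by
    have h1 : g • D.v = D.v := by
      have h2 := congrArg Subtype.val hg
      have h3 : D1.toF.f D.v = D.v := by
        have := hF.fv 1
        rwa [one_smul] at this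
      rw [D1.toF.smul_coe] at h2
      have h4 : g • D1.toF.f D.v = D1.toF.f D.v := h2
      rwa [h3] at h4
    have h5 : g • D.a = D.a := by
      have h6 := K.ar_smul g _ _ D.va
      rw [h1] at h6
      rcases K.two _ _ _ _ D.va D.vb h6 with e | e | e
      · exact absurd e D.ab
      · exfalso
        rw [← D1.toF.F_smul, ← e] at ha
        exact hF.ab ha.symm
      · exact e.symm
    exact D.inv g h1 h5 _ hc

theorem mv_iff {x y : V} (h : K.E x y) : hF.far.mv (D1.toF.F x) (D1.toF.F y) ↔ D.mv x y := by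
  constructor
  · rintro ⟨g, g1, g2⟩
    have h1 : D1.toF.f y = g • D.v := by
      have h2 := congrArg Subtype.val g2
      rw [D1.toF.smul_coe] at h2
      have h3 : (hF.far.v).1 = D.v := by
        have := hF.fv 1
        rwa [one_smul] at this
      rw [h3] at h2
      exact h2
    have h2 := hF.eq_v h1
    refine ⟨g, ?_, h2⟩
    have h3 : (g⁻¹ • D1.toF.F x).1 ∈ D.R := g1
    rw [D1.toF.smul_coe] at h3
    by_cases hx : D1.toF.O x
    · exfalso
      obtain ⟨k, rfl⟩ := hx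
      have h4 : g⁻¹ • D1.toF.f (k • D1.T) ∈ D.R := h3
      rw [D1.f_T] at h4
      rw [h2] at h
      have r1 := K.ar_rk _ _ (D.R_ar _ h4)
      rw [K.rk_smul, K.rk_smul] at r1
      have r2 := D1.rk
      rcases h with h | h
      · have h5 := K.ar_smul g⁻¹ _ _ h
        rw [inv_smul_smul, ← mul_smul] at h5
        exact hF.v3 _ h5
      · have r3 := K.ar_rk _ _ h
        rw [K.rk_smul, K.rk_smul] at r3
        omega
    · have h4 : g⁻¹ • D1.toF.f x ∈ D.R := h3
      rwa [D1.toF.f_not hx] at h4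
  · rintro ⟨g, g1, g2⟩
    refine ⟨g, ?_, ?_⟩
    · show (g⁻¹ • D1.toF.F x).1 ∈ D.R
      rw [D1.toF.smul_coe]
      show g⁻¹ • D1.toF.f x ∈ D.R
      have h1 := D1.toF.f_not (hF.nR g1)
      rw [D1.toF.f_smul] at h1
      rw [h1]
      exact g1
    · rw [g2, D1.toF.F_smul]
      rfl

theorem τ_eq {x y : V} (h : K.E x y) (hm : D.mv x y) :
    hF.far.τ (D1.toF.F x) (D1.toF.F y) = D1.toF.F (D.τ x y) := by
  obtain ⟨g, g1, g2⟩ := id hm
  rw [D.τ_eq g1 g2, D1.toF.F_smul]
  have h2 := (hF.mv_iff h).2 hm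
  refine hF.far.τ_eq (h := g) ?_ ?_
  · show (g⁻¹ • D1.toF.F x).1 ∈ D.R
    rw [D1.toF.smul_coe]
    show g⁻¹ • D1.toF.f x ∈ D.R
    have h1 := D1.toF.f_not (hF.nR g1)
    rw [D1.toF.f_smul] at h1
    rw [h1]
    exact g1
  · rw [g2, D1.toF.F_smul]
    rfl

/-- a neighbour of the hub which becomes a pole is a pole -/
theorem eq_a {z : V} {g : H} (h : K.E z (g • D.v)) (e : D1.toF.F z = D1.toF.F (g • D.a)) :
    z = g • D.a := by
  have ga : K.ar (g • D.v) (g • D.a) := K.ar_smul g _ _ D.va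
  have gb : K.ar (g • D.v) (g • D.b) := K.ar_smul g _ _ D.vb
  rcases h with h | h
  · exfalso
    have e' : D1.toF.f z = D1.toF.f (g • D.a) := D1.toF.F_eq.1 e
    have r1 := K.ar_rk _ _ h
    have r2 := K.ar_rk _ _ ga
    have r3 := D1.toF.rk_f (g • D.a)
    by_cases hz : D1.toF.O z
    · obtain ⟨k, rfl⟩ := hz
      have h5 := K.ar_smul g⁻¹ _ _ h
      rw [inv_smul_smul, ← mul_smul] at h5
      exact hF.v3 _ h5
    · rw [D1.toF.f_not hz] at e'
      rw [← e'] at r3
      omega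
  · rcases K.two _ _ _ _ ga gb h with e1 | e1 | e1
    · exact absurd (smul_left_cancel g e1) D.ab
    · exfalso
      rw [← e1, D1.toF.F_smul, D1.toF.F_smul] at e
      exact hF.ab (smul_left_cancel g e).symm
    · exact e1.symm

theorem eq_aa {g h : H} (e : D1.toF.F (g • D.a) = D1.toF.F (h • D.a)) (e' : g • D.v = h • D.v) :
    g • D.a = h • D.a :=
  hF.eq_a (Or.inr (by rw [← e']; exact K.ar_smul g _ _ D.va)) e

/-- THE CORNER VALUES -/
theorem sv {x y z : V} (hx : K.E x y) (hz : K.E z y) :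
    hF.far.sv (D1.toF.F x) (D1.toF.F y) (D1.toF.F z) = D.sv x y z := by
  have key : ∀ {x z : V}, K.E x y → K.E z y → D.mv x y → ¬ D.mv z y →
      hF.far.sv (D1.toF.F x) (D1.toF.F y) (D1.toF.F z) = D.sv x y z := by
    intro x z hx hz h1 h2
    have h1' := (hF.mv_iff hx).2 h1
    have h2' : ¬ hF.far.mv (D1.toF.F z) (D1.toF.F y) := fun k => h2 ((hF.mv_iff hz).1 k)
    have ht := hF.τ_eq hx h1
    by_cases h3 : z = D.τ x y
    · rw [D.sv_τ h1 h3, hF.far.sv_τ h1' (by rw [ht, h3])]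
    · rw [D.sv_one h1 h2 h3, hF.far.sv_one h1' h2' ?_]
      intro e
      rw [ht] at e
      apply h3
      obtain ⟨g, g1, g2⟩ := h1
      rw [D.τ_eq g1 g2] at e ⊢
      rw [g2] at hz
      exact hF.eq_a hz e
  by_cases h1 : D.mv x y
  · by_cases h2 : D.mv z y
    · have h1' := (hF.mv_iff hx).2 h1
      have h2' := (hF.mv_iff hz).2 h2
      have t1 := hF.τ_eq hx h1
      have t2 := hF.τ_eq hz h2
      by_cases h3 : D.τ x y = D.τ z y
      · rw [D.sv_mm h1 h2 h3, hF.far.sv_mm h1' h2' (by rw [t1, t2, h3])]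
      · rw [D.sv_two h1 h2 h3, hF.far.sv_two h1' h2' ?_]
        intro e
        rw [t1, t2] at e
        apply h3
        obtain ⟨g, g1, g2⟩ := h1
        obtain ⟨k, k1, k2⟩ := h2
        rw [D.τ_eq g1 g2, D.τ_eq k1 k2] at e ⊢
        exact hF.eq_aa e (g2.symm.trans k2)
    · exact key hx hz h1 h2
  · by_cases h2 : D.mv z y
    · rw [D.sv_symm, hF.far.sv_symm]
      exact key hz hx h2 h1
    · rw [D.sv_not h1 h2, hF.far.sv_not (fun k => h1 ((hF.mv_iff hx).1 k))
        (fun k => h2 ((hF.mv_iff hz).1 k))]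

omit hF in
/-- a cell which does not pass the hub has no corner with a value -/
theorem _root_.Pool.Agent.DI.CuD.sv_hub {K : GX H V} {D : CuD K} {x y z : V} (h : ∀ g : H, y ≠ g • D.v) : D.sv x y z = 0 :=
  D.sv_not (fun ⟨g, _, k⟩ => h g k) (fun ⟨g, _, k⟩ => h g k)

omit hF in
/-- the square of the top has no corner at the hub -/
theorem own_zero (hF : FarF D D1) {P : P45 K} {i : K.I} (ho : P.own D1.T i)
    (hy : ∀ a b y, P.TopR D1.T a b y → y = D1.y) : K.ccs i D.sv = 0 := by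
  obtain ⟨hi, h, j, hj, e⟩ := ho
  have ht := (P45.tq_TopR hi hj).smul h
  rw [e] at ht
  have ey := hy _ _ _ ht
  have e4 : ∀ k : Fin 4, k = j ∨ k = j + 1 ∨ k = j + 2 ∨ k = j + 3 := by
    have : ∀ j k : Fin 4, k = j ∨ k = j + 1 ∨ k = j + 2 ∨ k = j + 3 := by decide
    exact this j
  rw [P.ccs4 hi]
  refine Finset.sum_eq_zero fun k _ => CuD.sv_hub fun g hg => ?_
  have hT : P.qt i j = h⁻¹ • D1.T := by rw [← e, inv_smul_smul]
  have hyy : P.qt i (j + 2) = h⁻¹ • D1.y := by rw [← ey, inv_smul_smul]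
  have side : ∀ c : V, K.ar D1.T (h • c) → c = g • D.v → False := by
    intro c hc hcg
    have h1 := K.ar_smul (g⁻¹ * h⁻¹) _ _ hc
    rw [mul_smul g⁻¹ h⁻¹ (h • c), inv_smul_smul, hcg, inv_smul_smul] at h1
    exact hF.v3 _ h1
  rcases e4 (k + 1) with e5 | e5 | e5 | e5
  · rw [e5, hT] at hg
    exact hF.v1 (g⁻¹ * h⁻¹) (by rw [mul_smul, hg, inv_smul_smul])
  · rw [e5] at hg
    exact side _ ht.1.2.1 hg
  · rw [e5, hyy] at hg
    exact hF.v2 (g⁻¹ * h⁻¹) (by rw [mul_smul, hg, inv_smul_smul])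
  · rw [e5] at hg
    exact side _ ht.1.2.2 hg

/-- THE FAR FOLD STEP -/
theorem wcs {P : P45 K} (hB : ∀ i, D1.toF.Bt i → P.own D1.T i)
    (hy : ∀ a b y, P.TopR D1.T a b y → y = D1.y) (w : K.I → ℤ) :
    D1.toF.gx.wcs (fun j => w j.1) hF.far.sv = K.wcs w D.sv := by
  classical
  rw [D1.flat.wcs_if P w]
  unfold GX.wcs
  refine Finset.sum_congr rfl fun i _ => ?_
  have h1 : K.ccs i (fun x y z => hF.far.sv (D1.toF.F x) (D1.toF.F y) (D1.toF.F z)) =
      K.ccs i D.sv := by
    unfold GX.ccs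
    refine Finset.sum_congr rfl fun j _ => ?_
    have hl : 0 < K.len i := Nat.zero_lt_of_lt j.2
    exact hF.sv (K.vx_E hl _) (K.vx_E hl (j + 1)).symm
  by_cases hi : D1.toF.Bt i
  · rw [if_pos hi, own_zero hF (hB i hi) hy, mul_zero]
  · rw [if_neg hi, h1]

end FarF

end Pool.Agent.DI
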