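import Pool.Agent.DI.PmT
import Pool.Agent.DI.OpnS
import Pool.Agent.DI.OpnX

/-!
# DI/PmK: the static minimal cut in an opened complex

`O : OpW K W`, `P : P45 K`. `O.dn n x Y`: the translates of the images of the vertices of `Y` under the
stabiliser of the images of `n` and `x`. `pmS_dn`: the conditions go down. `pmG_up`: if no vertex of `Y` is
opened then the minimal cut for the image gives the minimal cut for `n`, `x`, `Y` in the opened complex.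
-/

namespace Pool.Agent.DI

open MulAction
open Pool.Agent.SAF (InC orbs FinOrb oc mk_eq_iff FinOrb_iff oc_le_of_inj oc_le_of_surj oc_le_of_rel)

namespace OpW

variable {H V W : Type} [Group H] [MulAction H V] [MulAction H W] {K : GX H V} (O : OpW K W)

/-- the images of the vertices of `Y`, up to the stabiliser of the images of `n` and `x` -/
def dn (n x : W) (Y : Set W) : Set V :=
  {z | ∃ g : H, g • O.π n = O.π n ∧ g • O.π x = O.π x ∧ ∃ y ∈ Y, O.π y = g • z}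

theorem nx_up (e : K.LE) : O.gx.nx (O.up e) = O.up (K.nx e) := by
  obtain ⟨⟨i, j⟩, g⟩ := e
  refine Prod.ext (Sigma.ext rfl (heq_of_eq (Fin.ext ?_))) rfl
  show (j.1 + 1) % O.gx.len (Sum.inl i) = (j.1 + 1) % K.len i
  rw [O.gx_len_inl]

theorem pv_up (e : K.LE) : O.gx.pv (O.up e) = O.up (K.pv e) := by
  obtain ⟨⟨i, j⟩, g⟩ := e
  refine Prod.ext (Sigma.ext rfl (heq_of_eq (Fin.ext ?_))) rfl
  show (j.1 + (O.gx.len (Sum.inl i) - 1)) % O.gx.len (Sum.inl i) =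
    (j.1 + (K.len i - 1)) % K.len i
  rw [O.gx_len_inl]

theorem π_fv (f : FL K) : O.π (P45.fv (O.upF f)) = P45.fv f := by
  obtain ⟨e, b⟩ := f
  cases b
  · show O.π (O.gx.c0 (O.gx.pv (O.up e))) = K.c0 (K.pv e)
    rw [O.pv_up, O.π_up0]
  · show O.π (O.gx.c2 (O.gx.nx (O.up e))) = K.c2 (K.nx e)
    rw [O.nx_up, O.π_up2]

variable {O}

theorem fl_up {P : P45 K} {f' : FL O.gx} (h : ¬ (O.p45 P).sq f'.1.1.1) :
    ∃ f : FL K, ¬ P.sq f.1.1.1 ∧ f' = O.upF f := by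
  obtain ⟨e', b⟩ := f'
  rcases O.LE_cases e' with ⟨e, rfl⟩ | ⟨j, k, g, rfl⟩
  · exact ⟨(e, b), h, rfl⟩
  · exact absurd trivial h

/-- two arrows with the same source and the same image -/
theorem ar_tgt {y n n' : W} (h : O.gx.ar y n) (h' : O.gx.ar y n') (e : O.π n = O.π n') : n = n' :=
  (O.ar_e' h).symm.trans ((congrArg (O.e (O.π y)) e).trans (O.ar_e' h'))

/-- an element which moves the image of a vertex which is not opened -/
theorem mv_pm {n x y y' : W} (hx : O.gx.ar n x) (hy : O.gx.ar y n) (hy' : O.gx.ar y' n)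
    (hd : ¬ O.Dbl y') {g : H} (hn : g • O.π n = O.π n) (e : g • O.π y = O.π y') :
    g • y = y' ∧ g • n = n ∧ (g • O.π x = O.π x → g • x = x) := by
  have e1 : g • y = y' := O.not_dbl hd (by rw [O.π_smul, e])
  have k := O.gx.ar_smul g _ _ hy
  rw [e1] at k
  have e2 : g • n = n := ar_tgt k hy' (by rw [O.π_smul, hn])
  refine ⟨e1, e2, fun e3 => ?_⟩
  have k2 := O.gx.ar_smul g _ _ hx
  rw [e2] at k2
  exact ar_tgt k2 hx (by rw [O.π_smul, e3])

variable {P : P45 K}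

/-- THE CONDITIONS GO DOWN -/
theorem pmS_dn {n x : W} {Y : Set W} (h : (O.p45 P).PmS n x Y) (hd : ∀ y ∈ Y, ¬ O.Dbl y) :
    P.PmS (O.π n) (O.π x) (O.dn n x Y) where
  nx := O.ar_π h.nx
  yn := by
    rintro z ⟨g, h1, h2, y, hy, e⟩
    have k := O.ar_π (h.yn y hy)
    rw [e, ← h1] at k
    have := K.ar_smul g⁻¹ _ _ k
    rwa [inv_smul_smul, inv_smul_smul] at this
  inv := by
    rintro g h1 h2 z ⟨k, h3, h4, y, hy, e⟩
    refine ⟨k * g⁻¹, ?_, ?_, y, hy, ?_⟩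
    · rw [mul_smul, ← h1, inv_smul_smul, h1, h3]
    · rw [mul_smul, ← h2, inv_smul_smul, h2, h4]
    · rw [mul_smul, inv_smul_smul, e]
  sw := by
    rintro g h1 h2 z ⟨k, h3, h4, y, hy, e⟩ ⟨k', h3', h4', y', hy', e'⟩
    have e1 : (k' * g * k⁻¹) • O.π y = O.π y' := by
      rw [e, mul_smul, mul_smul, inv_smul_smul, e']
    have hn : (k' * g * k⁻¹) • O.π n = O.π n := by
      rw [mul_smul, mul_smul]
      nth_rewrite 1 [← h3]
      rw [inv_smul_smul, h1, h3']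
    have hx : (k' * g * k⁻¹) • O.π x ≠ O.π x := by
      intro e2
      apply h2
      rw [mul_smul, mul_smul] at e2
      nth_rewrite 1 [← h4] at e2
      rw [inv_smul_smul] at e2
      have e3 : g • O.π x = k'⁻¹ • O.π x := by
        rw [eq_inv_smul_iff]
        exact e2
      rw [e3, inv_smul_eq_iff]
      exact h4'.symm
    generalize k' * g * k⁻¹ = q at e1 hn hx
    obtain ⟨f1, f2, -⟩ := mv_pm h.nx (h.yn y hy) (h.yn y' hy') (hd y' hy') hn e1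
    refine h.sw q f2 ?_ y hy (by rw [f1]; exact hy')
    intro e2
    apply hx
    rw [← O.π_smul, e2]
  np := by
    rintro T b x' ⟨g, h1, h2, y, hy, e⟩ ht hx'
    have ht' := ht.smul g
    rw [h1, ← e] at ht'
    have hx2 := K.ar_smul g _ _ hx'
    rw [h1] at hx2
    obtain ⟨T1, n1, b1, x1, e1, e2, e3, e4, k⟩ := O.Top_lift P ht'
    have f1 : T1 = y := O.not_dbl (hd y hy) e1
    subst f1
    have f2 : n1 = n := ar_tgt k.2.1 (h.yn _ hy) e2
    subst f2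
    have k3 : O.gx.ar n1 x1 := O.ar_of_E k.Ea (by rw [e4]; exact hx2)
    have f3 := h.np _ _ _ hy k k3
    rw [f3] at e4
    rw [← h2] at e4
    exact smul_left_cancel g e4.symm

section Cnt

variable {n x : W} {Y : Set W} (h : (O.p45 P).PmS n x Y) (hd : ∀ y ∈ Y, ¬ O.Dbl y)

theorem img_mem {y : W} (hy : y ∈ Y) : O.π y ∈ O.dn n x Y :=
  ⟨1, one_smul _ _, one_smul _ _, y, hy, (one_smul _ _).symm⟩

include h hd

/-- elements of the stabiliser below -/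
theorem lift_st {y y' : W} (hy : y ∈ Y) (hy' : y' ∈ Y)
    (g : ↥(stabilizer H (O.π n, O.π x))) (e : g.1 • O.π y = O.π y') :
    g.1 • y = y' ∧ g.1 ∈ stabilizer H (n, x) := by
  obtain ⟨f1, f2, f3⟩ := mv_pm h.nx (h.yn y hy) (h.yn y' hy') (hd y' hy')
    (congrArg Prod.fst g.2 : g.1 • O.π n = O.π n) e
  exact ⟨f1, Prod.ext f2 (f3 (congrArg Prod.snd g.2))⟩

theorem r5_le : oc ↥(stabilizer H (n, x)) ((O.p45 P).r5 n x Y) ≤
    oc ↥(stabilizer H (O.π n, O.π x)) (P.r5 (O.π n) (O.π x) (O.dn n x Y)) := by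
  refine oc_le_of_rel (P45.fin_r5 _ _ _) (fun f' f => f' = O.upF f) ?_ ?_
  · rintro f' ⟨h1, h2, h3, h4⟩
    obtain ⟨f, hf, rfl⟩ := fl_up h1
    refine ⟨f, ⟨hf, ?_, ?_, ?_⟩, rfl⟩
    · rw [← O.π_fy]
      exact img_mem h2
    · rw [← O.π_fz]
      exact congrArg O.π h3
    · rw [← O.π_fv]
      exact congrArg O.π h4
  · rintro f1' ⟨-, h2, -, -⟩ f2' ⟨-, h2', -, -⟩ f1 - f2 - rfl rfl ⟨g, hg⟩
    have e : g.1 • P45.fy f1 = P45.fy f2 := by
      rw [← P45.fy_smul]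
      exact congrArg P45.fy hg
    rw [← O.π_fy, ← O.π_fy] at e
    obtain ⟨-, k⟩ := lift_st h hd h2 h2' g e
    refine ⟨⟨g.1, k⟩, ?_⟩
    show g.1 • O.upF f1 = O.upF f2
    rw [← O.upF_smul]
    exact congrArg O.upF hg

theorem t1_le {F : V → V → ℕ} (hF : ∀ (g : H) T a, F (g • T) (g • a) = F T a) :
    os ↥(stabilizer H (n, x)) ((O.p45 P).t1 n x Y) (fun p => F (O.π p.1) (O.π p.2)) ≤
    os ↥(stabilizer H (O.π n, O.π x)) (P.t1 (O.π n) (O.π x) (O.dn n x Y))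
      (fun p => F p.1 p.2) := by
  refine os_of_inj (P45.fin_t1 h.nx) (P45.fin_t1 (O.ar_π h.nx)) (fun p => (O.π p.1, O.π p.2))
    ?_ ?_ ?_ ?_
  · rintro p ⟨h1, h2, b, ht⟩
    refine ⟨img_mem h1, congrArg O.π h2, O.π b, ?_⟩
    rcases O.Top_π P ht with k | k
    · exact k
    · exact absurd h.nx (GX.ck_asym (NSq.ar O k).2.2.1)
  · rintro p ⟨h1, h2, h3⟩ p' ⟨h1', h2', h3'⟩ ⟨g, hg⟩
    have e : g.1 • O.π p.1 = O.π p'.1 := congrArg Prod.fst hg
    obtain ⟨k1, k⟩ := lift_st h hd h1 h1' g e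
    refine ⟨⟨g.1, k⟩, Prod.ext k1 ?_⟩
    show g.1 • p.2 = p'.2
    rw [h2, h2']
    exact congrArg Prod.fst k
  · rintro g p - -
    exact hF g.1 p.1 p.2
  · intro p _
    exact le_rfl

theorem t3_le (hv : O.NT P) {F : V → V → ℕ} (hF : ∀ (g : H) T a, F (g • T) (g • a) = F T a) :
    os ↥(stabilizer H (n, x)) ((O.p45 P).t3 n x Y) (fun p => F (O.π p.1) (O.π x)) ≤
    os ↥(stabilizer H (O.π n, O.π x)) (P.t3 (O.π n) (O.π x) (O.dn n x Y))
      (fun p => F p.1 (O.π x)) := by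
  have key : ∀ p ∈ (O.p45 P).t3 n x Y, P.Top (O.π p.1) (O.π p.2) (O.π x) (O.π n) := by
    rintro p ⟨h1, ht⟩
    rcases O.Top_π P ht with k | k
    · exact k
    · have k2 := (NSq.ar O k).2.2.1
      exact absurd (h.yn _ h1) (GX.ck_asym k2)
  refine os_of_inj (P45.fin_t3 h.nx h.yn) (P45.fin_t3 (O.ar_π h.nx) (pmS_dn h hd).yn)
    (fun p => (O.π p.1, O.π p.2)) ?_ ?_ ?_ ?_
  · intro p hp
    exact ⟨img_mem hp.1, key p hp⟩
  · rintro p hp p' hp' ⟨g, hg⟩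
    have e : g.1 • O.π p.2 = O.π p'.2 := congrArg Prod.snd hg
    obtain ⟨k1, k⟩ := lift_st h hd hp.1 hp'.1 g e
    refine ⟨⟨g.1, k⟩, Prod.ext ?_ k1⟩
    show g.1 • p.1 = p'.1
    refine O.not_dbl (hv.top (key p' hp')) ?_
    rw [O.π_smul]
    exact congrArg Prod.fst hg
  · rintro g p - -
    have e : g.1 • O.π x = O.π x := congrArg Prod.snd g.2
    have := hF g.1 p.1 (O.π x)
    rw [e] at this
    exact this
  · intro p _
    exact le_rfl

omit h hd in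
/-- a representative whose first leg has its image over the class -/
theorem lift_leg {z : V} (hz : z ∈ O.dn n x Y) : ∃ g : ↥(stabilizer H (O.π n, O.π x)), ∃ y ∈ Y,
    O.π y = g.1 • z := by
  obtain ⟨g, h1, h2, y, hy, e⟩ := hz
  exact ⟨⟨g, Prod.ext h1 h2⟩, y, hy, e⟩

omit h hd in
/-- the end of a corner outside -/
theorem out_leg (g : ↥(stabilizer H (O.π n, O.π x))) {m : V} {m' : W} (e : O.π m' = g.1 • m)
    (h1 : m ∉ O.dn n x Y) (h2 : m ≠ O.π x) : m' ∉ Y ∧ m' ≠ x := by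
  constructor
  · intro k
    exact h1 ⟨g.1, congrArg Prod.fst g.2, congrArg Prod.snd g.2, m', k, e⟩
  · intro k
    apply h2
    have e2 : g.1 • O.π x = O.π x := congrArg Prod.snd g.2
    rw [k] at e
    exact (smul_left_cancel g.1 (e2.trans e)).symm

omit h hd in
theorem st_π {k : H} (hk : k ∈ stabilizer H (n, x)) : k ∈ stabilizer H (O.π n, O.π x) := by
  have e1 : k • n = n := congrArg Prod.fst hk
  have e2 : k • x = x := congrArg Prod.snd hk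
  refine Prod.ext ?_ ?_
  · show k • O.π n = O.π n
    rw [← O.π_smul, e1]
  · show k • O.π x = O.π x
    rw [← O.π_smul, e2]

theorem o5_le : oc ↥(stabilizer H (O.π n, O.π x)) (P.o5 (O.π n) (O.π x) (O.dn n x Y)) ≤
    oc ↥(stabilizer H (n, x)) ((O.p45 P).o5 n x Y) := by
  have hf : FinOrb ↥(stabilizer H (n, x)) ((O.p45 P).o5 n x Y) := by
    refine Pool.Agent.SAF.FinOrb.of_inj (P45.fin_FL (K := O.gx)) (fun f => f)
      (fun _ _ => trivial) ?_
    rintro f ⟨h1, h2, h3, h4, h5⟩ _ ⟨h1', h2', h3', h4', h5'⟩ ⟨g, rfl⟩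
    rw [P45.fz_smul, h3] at h3'
    rw [P45.fy_smul] at h2'
    refine ⟨⟨g, Prod.ext h3' ?_⟩, rfl⟩
    by_contra k
    exact h.sw g h3' k _ h2 h2'
  refine oc_le_of_rel hf
    (fun f f' => ∃ g : ↥(stabilizer H (O.π n, O.π x)), f' = O.upF (g.1 • f)) ?_ ?_
  · rintro f ⟨h1, h2, h3, h4, h5⟩
    obtain ⟨g, y, hy, e⟩ := lift_leg h2
    have e1 : O.π (P45.fy (O.upF (g.1 • f))) = O.π y := by
      rw [O.π_fy, P45.fy_smul, e]
    have e2 : O.π (P45.fz (O.upF (g.1 • f))) = O.π n := by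
      rw [O.π_fz, P45.fz_smul, h3]
      exact congrArg Prod.fst g.2
    have e3 : O.π (P45.fv (O.upF (g.1 • f))) = g.1 • P45.fv f := by
      rw [O.π_fv, P45.fv_smul]
    have f1 : P45.fy (O.upF (g.1 • f)) = y := O.not_dbl (hd y hy) e1
    have hE := OpW.E_fyz O.gx (O.upF (g.1 • f))
    rw [f1] at hE
    have ha : O.gx.ar y (P45.fz (O.upF (g.1 • f))) :=
      O.ar_of_E hE (by rw [e2]; exact O.ar_π (h.yn y hy))
    obtain ⟨k1, k2⟩ := out_leg g e3 h4 h5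
    refine ⟨O.upF (g.1 • f), ⟨h1, by rw [f1]; exact hy, ar_tgt ha (h.yn y hy) e2, k1, k2⟩,
      g, rfl⟩
  · rintro f1 - f2 - f1' - f2' - ⟨g1, rfl⟩ ⟨g2, rfl⟩ ⟨k, hk⟩
    have hk : k.1 • O.upF (g1.1 • f1) = O.upF (g2.1 • f2) := hk
    rw [← O.upF_smul] at hk
    have e := O.upF_inj hk
    refine ⟨g2⁻¹ * ⟨k.1, st_π k.2⟩ * g1, ?_⟩
    show (g2.1⁻¹ * k.1 * g1.1) • f1 = f2
    rw [mul_smul, mul_smul, e, inv_smul_smul]

theorem o4_le : oc ↥(stabilizer H (O.π n, O.π x)) (P.o4 (O.π n) (O.π x) (O.dn n x Y)) ≤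
    oc ↥(stabilizer H (n, x)) ((O.p45 P).o4 n x Y) := by
  have hf : FinOrb ↥(stabilizer H (n, x)) ((O.p45 P).o4 n x Y) := by
    have hq : FinOrb H {p : (W × W) × (W × W) | Q4 (O.p45 P) p.2.2 p.1.1 p.1.2 p.2.1} :=
      P45.fin_W4
    refine Pool.Agent.SAF.FinOrb.of_inj hq (fun f => f)
      (fun _ k => k.1) ?_
    rintro p ⟨h1, h2, h3, h4, h5⟩ _ ⟨h1', h2', h3', h4', h5'⟩ ⟨g, rfl⟩
    have h3' : g • p.1.2 = n := h3'
    rw [h3] at h3'
    refine ⟨⟨g, Prod.ext h3' ?_⟩, rfl⟩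
    by_contra k
    exact h.sw g h3' k _ h2 h2'
  refine oc_le_of_rel hf
    (fun p p' => ∃ g : ↥(stabilizer H (O.π n, O.π x)), O.πw p' = g.1 • p) ?_ ?_
  · rintro ⟨⟨p1, p2⟩, ⟨p3, p4⟩⟩ ⟨h1, h2, h3, h4, h5⟩
    obtain rfl : p2 = O.π n := h3
    have h1 : Q4 P p4 p1 (O.π n) p3 := h1
    obtain ⟨g, y, hy, e⟩ := lift_leg h2
    have e : O.π y = g.1 • p1 := e
    have hn : g.1 • O.π n = O.π n := congrArg Prod.fst g.2
    have h1' := h1.smul g.1
    rw [hn, ← e] at h1'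
    obtain ⟨z', y', n', m', e1, e2, e3, e4, hq⟩ := O.Q4_lift P h1'
    have f1 : y' = y := O.not_dbl (hd y hy) e2
    subst f1
    have f2 : n' = n := ar_tgt (O.ar_of_E hq.E2 (by rw [e3]; exact O.ar_π (h.yn _ hy)))
      (h.yn _ hy) e3
    subst f2
    obtain ⟨k1, k2⟩ := out_leg g e4 h4 h5
    refine ⟨((y', n'), (m', z')), ⟨hq, hy, rfl, k1, k2⟩, g, ?_⟩
    exact Prod.ext (Prod.ext e hn.symm) (Prod.ext e4 e1)
  · rintro p1 - p2 - p1' - p2' - ⟨g1, e1⟩ ⟨g2, e2⟩ ⟨k, hk⟩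
    have hk : k.1 • p1' = p2' := hk
    have e : k.1 • g1.1 • p1 = g2.1 • p2 := by
      rw [← e1, ← e2, ← hk, O.πw_smul]
    refine ⟨g2⁻¹ * ⟨k.1, st_π k.2⟩ * g1, ?_⟩
    show (g2.1⁻¹ * k.1 * g1.1) • p1 = p2
    rw [mul_smul, mul_smul, e, inv_smul_smul]

/-- THE MINIMAL CUT GOES UP -/
theorem pmG_up (hv : O.NT P) {F : V → V → ℕ} (hF : ∀ (g : H) T a, F (g • T) (g • a) = F T a)
    {d : ℕ} (hp : P.PmG F d (O.π n) (O.π x) (O.dn n x Y)) :
    (O.p45 P).PmG (fun T a => F (O.π T) (O.π a)) d n x Y := by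
  have h1 := r5_le h hd
  have h2 := t1_le h hd hF
  have h3 := t3_le h hd hv hF
  have h4 := o5_le h hd
  have h5 := o4_le h hd
  unfold P45.PmG at hp ⊢
  beta_reduce
  omega

end Cnt

end OpW

end Pool.Agent.DI
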