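import Pool.Agent.DI.PmTo

/-!
# DI/PmMo: the strands of the tops do not drop under a fold

`PmH.mono`: for the fold of a top `D1.T` and a top `T` outside its orbit the number of strands at the arrows
of `T` does not drop.
-/

namespace Pool.Agent.DI

open MulAction

variable {H V : Type} [Group H] [MulAction H V]

namespace P45

variable {K : GX H V} {P : P45 K}

theorem lg_tr (g : H) (T c x q : V) : lg H T c (g • x) (g • q) = lg H T c x q := by
  classical
  unfold lg
  refine if_congr ?_ rfl rfl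
  constructor
  · rintro ⟨k, k1, k2⟩
    exact ⟨g⁻¹ * k, by rw [mul_smul, ← k1, inv_smul_smul], by rw [mul_smul, ← k2, inv_smul_smul]⟩
  · rintro ⟨k, rfl, rfl⟩
    exact ⟨g * k, by rw [mul_smul], by rw [mul_smul]⟩

/-- the own square, written from the top -/
theorem own_ccs4 {T a b y : V} {i : K.I} (hC : P.Cl) (h : P.TopR T a b y) (h0 : P.own T i)
    (s c : V) : K.ccs i (fun x q z => lg H s c x q + lg H s c z q) =
      (lg H s c a T + lg H s c b T) + (lg H s c T a + lg H s c y a) +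
        (lg H s c T b + lg H s c y b) + (lg H s c a y + lg H s c b y) := by
  obtain ⟨hi, g, j, hj, e⟩ := h0
  have ht := (tq_TopR hi hj).smul g
  rw [e] at ht
  have ey : g • P.qt i (j + 2) = y := hC.par _ _ _ _ _ _ _ ht h
  rw [P.ccs_at hi j]
  beta_reduce
  rw [← lg_tr g s c (P.qt i (j + 3)) (P.qt i j), ← lg_tr g s c (P.qt i (j + 1)) (P.qt i j),
    ← lg_tr g s c (P.qt i j) (P.qt i (j + 1)), ← lg_tr g s c (P.qt i (j + 2)) (P.qt i (j + 1)),
    ← lg_tr g s c (P.qt i (j + 1)) (P.qt i (j + 2)), ← lg_tr g s c (P.qt i (j + 3)) (P.qt i (j + 2)),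
    ← lg_tr g s c (P.qt i (j + 2)) (P.qt i (j + 3)), ← lg_tr g s c (P.qt i j) (P.qt i (j + 3))]
  rw [e, ey]
  have hab := hC.nab _ _ _ _ h
  have hp : (g • P.qt i (j + 1) = a ∧ g • P.qt i (j + 3) = b) ∨
      (g • P.qt i (j + 1) = b ∧ g • P.qt i (j + 3) = a) := by
    have hab' := hC.nab _ _ _ _ ht
    rcases hC.sides h ht.1.2.1 with k1 | k1
    · rcases hC.sides h ht.1.2.2 with k2 | k2
      · exact absurd (k1.trans k2.symm) hab'
      · exact Or.inl ⟨k1, k2⟩
    · rcases hC.sides h ht.1.2.2 with k2 | k2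
      · exact Or.inr ⟨k1, k2⟩
      · exact absurd (k1.trans k2.symm) hab'
  rcases hp with ⟨e1, e2⟩ | ⟨e1, e2⟩
  · rw [e1, e2]
    ring
  · rw [e1, e2]
    ring

/-- a reversed own square: an element fixes the top and exchanges its poles -/
theorem flq_of {T a b y : V} {i : K.I} (hC : P.Cl) (h : P.TopR T a b y) (h0 : P.own T i) {g : H}
    (hg : g • T = T) (e : g • a = b) : P.flq i := by
  obtain ⟨hi, q, j, hj, e7⟩ := h0
  have ht' := (P45.tq_TopR hi hj).smul q
  have e7' : q • P.qt i j = T := e7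
  rw [e7'] at ht'
  have hab := hC.nab _ _ _ _ h
  have hab' := hC.nab _ _ _ _ ht'
  have hgz : g • b = a := by
    have h8 := h.smul g
    rw [hg] at h8
    rcases hC.sides h h8.1.2.2 with e8 | e8
    · exact e8
    · exfalso
      apply hab
      apply smul_left_cancel g
      rw [e, e8]
  have hcase : (q • P.qt i (j + 1) = a ∧ q • P.qt i (j + 3) = b) ∨
      (q • P.qt i (j + 1) = b ∧ q • P.qt i (j + 3) = a) := by
    rcases hC.sides h ht'.1.2.1 with k1 | k1
    · rcases hC.sides h ht'.1.2.2 with k2 | k2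
      · exact absurd (k1.trans k2.symm) hab'
      · exact Or.inl ⟨k1, k2⟩
    · rcases hC.sides h ht'.1.2.2 with k2 | k2
      · exact Or.inr ⟨k1, k2⟩
      · exact absurd (k1.trans k2.symm) hab'
  refine ⟨hi, q⁻¹ * g * q, j, hj, ?_, ?_⟩
  · rw [mul_smul, mul_smul, e7', hg, ← e7', inv_smul_smul]
  · rcases hcase with ⟨k1, k2⟩ | ⟨k1, k2⟩
    · rw [mul_smul, mul_smul, k1, e, ← k2, inv_smul_smul]
    · rw [mul_smul, mul_smul, k1, hgz, ← k2, inv_smul_smul]

namespace ToF

variable {D1 : Sq1 K} {a b : V} (h : P.ToF D1 a b)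

theorem lg_F (s c x q : V) : lg H s c x q ≤
    lg H (D1.toF.F s) (D1.toF.F c) (D1.toF.F x) (D1.toF.F q) := by
  by_cases k : Tr H s c x q
  · obtain ⟨g, rfl, rfl⟩ := k
    rw [lg_pos (T := D1.toF.F s) ⟨g, D1.toF.F_smul _ _, D1.toF.F_smul _ _⟩]
    exact lg_le_one _ _ _ _
  · rw [lg_neg k]
    exact lg_nonneg' _ _ _ _

include h

open Classical in
/-- the sum of the lower bound, any arrow -/
theorem sumG {s c : V} (hs : ¬ D1.toF.O s) {i0 : K.I} (h0 : P.own D1.T i0) (M : V → V → ℤ)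
    (hM : ∀ i, P.own s i → K.ccs i (fun x y z => M x y + M z y) = 0) (B : ℤ)
    (hB : B = ∑ i, if P.own D1.T i then 0 else P.wq i * K.ccs i (fun x y z => M x y + M z y)) :
    (∑ i, if P.own D1.T i then 0 else if P.own s i then 0 else
      P.wq i * K.ccs i (fun x y z => (lg H s c x y + M x y) + (lg H s c z y + M z y))) =
    P.XW s c + B - P.wq i0 * K.ccs i0 (fun x y z => lg H s c x y + lg H s c z y) := by
  have hu : ∀ i, P.own D1.T i → i = i0 := fun i hi => h.hC.own_uniq hi h0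
  have hns : ¬ P.own s i0 := by
    rintro ⟨hi, g, k, hk, e⟩
    obtain ⟨hi', g', k', hk', e'⟩ := h0
    have ek := P45.tq_uniq hk hk'
    subst ek
    exact hs ⟨g * g'⁻¹, by rw [mul_smul, ← e', inv_smul_smul, e]⟩
  have e1 : P.wq i0 * K.ccs i0 (fun x y z => lg H s c x y + lg H s c z y) =
      ∑ i, if P.own D1.T i then
        P.wq i * K.ccs i (fun x y z => lg H s c x y + lg H s c z y) else 0 := by
    rw [Finset.sum_eq_single i0]
    · rw [if_pos h0]
    · intro i _ hi
      rw [if_neg (fun k => hi (hu i k))]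
    · intro k
      exact absurd (Finset.mem_univ _) k
  rw [e1, hB]
  unfold XW
  rw [← Finset.sum_add_distrib, ← Finset.sum_sub_distrib]
  refine Finset.sum_congr rfl fun i _ => ?_
  have e2 : K.ccs i (fun x y z => (lg H s c x y + M x y) + (lg H s c z y + M z y)) =
      K.ccs i (fun x y z => lg H s c x y + lg H s c z y) +
        K.ccs i (fun x y z => M x y + M z y) := by
    rw [← K.ccs_add]
    exact K.ccs_congr i fun j => by ring
  by_cases k : P.own D1.T i
  · have k' : ¬ P.own s i := by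
      rw [hu i k]
      exact hns
    rw [if_pos k, if_pos k, if_pos k, if_neg k']
    ring
  · rw [if_neg k, if_neg k, if_neg k]
    by_cases k' : P.own s i
    · rw [if_pos k', if_pos k', hM i k']
      ring
    · rw [if_neg k', if_neg k', e2]
      ring

/-- the passes of the own square are lost -/
theorem lowN {s c : V} (hs : ¬ D1.toF.O s) {i0 : K.I} (h0 : P.own D1.T i0) :
    P.XW s c - P.wq i0 * K.ccs i0 (fun x y z => lg H s c x y + lg H s c z y) ≤
      (D1.flat.P45 P).XW (D1.toF.F s) (D1.toF.F c) := by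
  classical
  have e := h.sumG (c := c) hs h0 (fun _ _ => 0) (fun i _ => by
    unfold GX.ccs
    exact Finset.sum_eq_zero fun j _ => by ring) 0 (by
    symm
    refine Finset.sum_eq_zero fun i _ => ?_
    split_ifs
    · rfl
    · unfold GX.ccs
      rw [Finset.sum_eq_zero fun j _ => by ring, mul_zero])
  rw [add_zero] at e
  rw [← e]
  exact h.lowG hs (fun x q => lg H s c x q + 0) fun x q => by
    rw [add_zero]
    exact lg_F _ _ _ _

/-- the arrow of the partner to a side, in the fold -/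
theorem lg_lowY {c : V} (x q : V) : lg H D1.y c x q + lg H D1.T c x q ≤
    lg H (D1.toF.F D1.y) (D1.toF.F c) (D1.toF.F x) (D1.toF.F q) := by
  by_cases k2 : Tr H D1.T c x q
  · have k1 : ¬ Tr H D1.y c x q := by
      rintro ⟨g, e, -⟩
      obtain ⟨g', e', -⟩ := k2
      have := D1.rk
      rw [← K.rk_smul g D1.y, ← e, e', K.rk_smul] at this
      exact lt_irrefl _ this
    obtain ⟨g, rfl, rfl⟩ := k2
    rw [lg_neg k1, zero_add, lg_pos (T := D1.toF.F D1.y) ⟨g, F_T g, D1.toF.F_smul _ _⟩]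
    exact lg_le_one _ _ _ _
  · rw [lg_neg k2, add_zero]
    exact lg_F _ _ _ _

theorem lg_lowY2 {c d : V} {g0 : H} (hd : g0 • c = d) (hy : g0 • D1.y = D1.y)
    (ho : ∀ g : H, g • D1.T = D1.T → g • c ≠ d) (x q : V) :
    lg H D1.y c x q + (lg H D1.T c x q + lg H D1.T d x q) ≤
    lg H (D1.toF.F D1.y) (D1.toF.F c) (D1.toF.F x) (D1.toF.F q) := by
  by_cases k2 : Tr H D1.T d x q
  · have k1 : ¬ Tr H D1.y c x q := by
      rintro ⟨g, e, -⟩
      obtain ⟨g', e', -⟩ := k2
      have := D1.rk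
      rw [← K.rk_smul g D1.y, ← e, e', K.rk_smul] at this
      exact lt_irrefl _ this
    have k3 : ¬ Tr H D1.T c x q := by
      rintro ⟨g, e1, e2⟩
      obtain ⟨g', e3, e4⟩ := k2
      refine ho (g'⁻¹ * g) ?_ ?_
      · rw [mul_smul, ← e1, e3, inv_smul_smul]
      · rw [mul_smul, ← e2, e4, inv_smul_smul]
    obtain ⟨g, rfl, rfl⟩ := k2
    rw [lg_neg k1, lg_neg k3, zero_add, zero_add,
      lg_pos (T := D1.toF.F D1.y) ⟨g * g0, ?_, by rw [← hd, ← mul_smul, D1.toF.F_smul]⟩]
    · exact lg_le_one _ _ _ _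
    · rw [F_T, mul_smul, ← D1.toF.F_smul g0, hy]
  · rw [lg_neg k2, add_zero]
    exact h.lg_lowY x q

omit h in
/-- the own square of the partner does not pass the arrows of the top -/
theorem ccsT {i : K.I} (hi : P.own D1.y i) (c : V) :
    K.ccs i (fun x y z => lg H D1.T c x y + lg H D1.T c z y) = 0 := by
  have nT : ∀ s : V, K.rk s = K.rk D1.T → ∀ j : ℕ, K.vx i j ≠ s := by
    obtain ⟨hs, g, k, hk, e⟩ := hi
    have ht := tq_TopR hs hk
    have r0 : K.rk (P.qt i k) = K.rk D1.y := by rw [← e, K.rk_smul]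
    have r1 := K.ar_rk _ _ ht.1.2.1
    have r2 := K.ar_rk _ _ ht.1.2.2
    have r3 := ht.2
    have r4 := D1.rk
    intro s hs' j e'
    rw [P.tvx4 hs] at e'
    generalize Fin.ofNat 4 j = m at e'
    obtain ⟨l, rfl⟩ : ∃ l, m = k + l := ⟨m - k, (add_sub_cancel k m).symm⟩
    rw [← e'] at hs'
    fin_cases l
    · have : K.rk (P.qt i (k + 0)) = K.rk D1.T := hs'
      rw [add_zero] at this
      omega
    · have : K.rk (P.qt i (k + 1)) = K.rk D1.T := hs'
      omega
    · have : K.rk (P.qt i (k + 2)) = K.rk D1.T := hs'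
      omega
    · have : K.rk (P.qt i (k + 3)) = K.rk D1.T := hs'
      omega
  have z : K.ccs i (fun x y z => lg H D1.T c x y + lg H D1.T c z y) =
      K.ccs i (fun _ _ _ => 0) := by
    refine K.ccs_congr i fun j => ?_
    rw [lg_neg, lg_neg, add_zero]
    · rintro ⟨g, e1, -⟩
      exact nT _ (K.rk_smul g D1.T) _ e1
    · rintro ⟨g, e1, -⟩
      exact nT _ (K.rk_smul g D1.T) _ e1
  rw [z]
  unfold GX.ccs
  exact Finset.sum_eq_zero fun _ _ => rfl

/-- THE STRANDS OF THE PARTNER at a side, after the fold -/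
theorem lowY {c : V} {i0 : K.I} (h0 : P.own D1.T i0) :
    P.XW D1.y c + P.XW D1.T c -
      P.wq i0 * K.ccs i0 (fun x y z => lg H D1.y c x y + lg H D1.y c z y) ≤
      (D1.flat.P45 P).XW (D1.toF.F D1.y) (D1.toF.F c) := by
  have e := h.sumG (c := c) (O_rk D1.rk) h0 (fun x q => lg H D1.T c x q)
    (fun i hi => ccsT hi c) _ (show P.XW D1.T c = _ from rfl)
  rw [← e]
  exact h.lowG (O_rk D1.rk) (fun x q => lg H D1.y c x q + lg H D1.T c x q) fun x q => h.lg_lowY x q

/-- the same, if the other side is a translate -/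
theorem lowY2 {c d : V} {g0 : H} (hd : g0 • c = d) (hy : g0 • D1.y = D1.y)
    (ho : ∀ g : H, g • D1.T = D1.T → g • c ≠ d) {i0 : K.I} (h0 : P.own D1.T i0) :
    P.XW D1.y c + (P.XW D1.T c + P.XW D1.T d) -
      P.wq i0 * K.ccs i0 (fun x y z => lg H D1.y c x y + lg H D1.y c z y) ≤
      (D1.flat.P45 P).XW (D1.toF.F D1.y) (D1.toF.F c) := by
  classical
  have e := h.sumG (c := c) (O_rk D1.rk) h0 (fun x q => lg H D1.T c x q + lg H D1.T d x q)
    (fun i hi => by
      have k3 : K.ccs i (fun x y w => (lg H D1.T c x y + lg H D1.T d x y) +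
          (lg H D1.T c w y + lg H D1.T d w y)) =
          K.ccs i (fun x y w => lg H D1.T c x y + lg H D1.T c w y) +
          K.ccs i (fun x y w => lg H D1.T d x y + lg H D1.T d w y) := by
        rw [← K.ccs_add]
        exact K.ccs_congr i fun j => by ring
      rw [k3, ccsT hi, ccsT hi, add_zero]) (P.XW D1.T c + P.XW D1.T d) (by
      unfold XW
      rw [← Finset.sum_add_distrib]
      refine Finset.sum_congr rfl fun i _ => ?_
      by_cases k : P.own D1.T i
      · rw [if_pos k, if_pos k, if_pos k, add_zero]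
      · rw [if_neg k, if_neg k, if_neg k, ← mul_add, ← K.ccs_add]
        congr 1
        exact K.ccs_congr i fun j => by ring)
  rw [← e]
  exact h.lowG (O_rk D1.rk) (fun x q => lg H D1.y c x q + (lg H D1.T c x q + lg H D1.T d x q))
    fun x q => h.lg_lowY2 hd hy ho x q

/-- an arrow of a side to the partner -/
theorem monoS (t1 : 2 ≤ P.XW D1.T a) (t2 : 2 ≤ P.XW D1.T b) (ay : K.ar a D1.y) :
    P.XW a D1.y ≤ (D1.flat.P45 P).XW (D1.toF.F a) (D1.toF.F D1.y) := by
  classical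
  obtain ⟨i0, h0⟩ := P45.Cl.own_ex h.top
  have hv := P45.own_val h.hC h.top ay h0
  have l1 := lg_le_one (H := H) a D1.y b D1.y
  have low := h.low (s := a) h.top.1.2.1 h0
  have low' : P.XW a D1.y + P.XW D1.T a - P.wq i0 * (1 + lg H a D1.y b D1.y) ≤
      (D1.flat.P45 P).XW (D1.toF.F a) (D1.toF.F D1.y) := by
    rw [← hv]
    exact low
  by_cases hf : P.flq i0
  · have hw : P.wq i0 = 1 := if_pos hf
    rw [hw] at low'
    omega
  · have hw : P.wq i0 = 2 := if_neg hf
    rw [hw] at low'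
    by_cases ht : Tr H a D1.y b D1.y
    · obtain ⟨g0, e5, e6⟩ := id ht
      have low3 := h.low2 (s := a) (z := b) h.top.1.2.1 h.top.1.2.2 e5.symm e6.symm
        (fun g hg e => hf (P45.flq_of h.hC h.top h0 hg e)) h0
      have low3' : P.XW a D1.y + (P.XW D1.T a + P.XW D1.T b) -
          P.wq i0 * (1 + lg H a D1.y b D1.y) ≤
          (D1.flat.P45 P).XW (D1.toF.F a) (D1.toF.F D1.y) := by
        rw [← hv]
        exact low3
      rw [hw] at low3'
      omega
    · rw [lg_neg ht] at low'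
      omega

/-- an arrow of the partner to a side -/
theorem monoY (t1 : 2 ≤ P.XW D1.T a) (t2 : 2 ≤ P.XW D1.T b) (ya : K.ar D1.y a) :
    P.XW D1.y a ≤ (D1.flat.P45 P).XW (D1.toF.F D1.y) (D1.toF.F a) := by
  classical
  obtain ⟨i0, h0⟩ := P45.Cl.own_ex h.top
  have r1 := K.ar_rk _ _ ya
  have r2 := K.ar_rk _ _ h.top.1.2.1
  have r3 := K.ar_rk _ _ h.top.1.2.2
  have r4 := h.top.2
  have hv : K.ccs i0 (fun x q z => lg H D1.y a x q + lg H D1.y a z q) =
      1 + lg H D1.y a D1.y b := by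
    rw [P45.own_ccs4 h.hC h.top h0 D1.y a]
    have n1 : ∀ {x q : V}, K.rk x ≠ K.rk D1.y → lg H D1.y a x q = 0 := fun k =>
      lg_neg (by
        rintro ⟨g, e, -⟩
        exact k (by rw [e, K.rk_smul]))
    have n2 : ∀ {x q : V}, K.rk q ≠ K.rk a → lg H D1.y a x q = 0 := fun k =>
      lg_neg (by
        rintro ⟨g, -, e⟩
        exact k (by rw [e, K.rk_smul]))
    rw [n2 (x := a) (q := D1.T) (by omega), n2 (x := b) (q := D1.T) (by omega),
      n1 (x := D1.T) (q := a) (by omega), n1 (x := D1.T) (q := b) (by omega),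
      n2 (x := a) (q := D1.y) (by omega), n2 (x := b) (q := D1.y) (by omega),
      lg_pos (T := D1.y) (c := a) (p := D1.y) (q := a) ⟨1, (one_smul _ _).symm, (one_smul _ _).symm⟩]
    ring
  have l1 := lg_le_one (H := H) D1.y a D1.y b
  have low := h.lowY (c := a) h0
  have low' : P.XW D1.y a + P.XW D1.T a - P.wq i0 * (1 + lg H D1.y a D1.y b) ≤
      (D1.flat.P45 P).XW (D1.toF.F D1.y) (D1.toF.F a) := by
    rw [← hv]
    exact low
  by_cases hf : P.flq i0
  · have hw : P.wq i0 = 1 := if_pos hf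
    rw [hw] at low'
    omega
  · have hw : P.wq i0 = 2 := if_neg hf
    rw [hw] at low'
    by_cases ht : Tr H D1.y a D1.y b
    · obtain ⟨g0, e5, e6⟩ := id ht
      have low3 := h.lowY2 (c := a) (d := b) e6.symm e5.symm
        (fun g hg e => hf (P45.flq_of h.hC h.top h0 hg e)) h0
      have low3' : P.XW D1.y a + (P.XW D1.T a + P.XW D1.T b) -
          P.wq i0 * (1 + lg H D1.y a D1.y b) ≤
          (D1.flat.P45 P).XW (D1.toF.F D1.y) (D1.toF.F a) := by
        rw [← hv]
        exact low3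
      rw [hw] at low3'
      omega
    · rw [lg_neg ht] at low'
      omega

theorem symm' : P.ToF D1 b a := ⟨h.hC, h.hm, h.top.symm', h.bt, h.wqf⟩

/-- THE STRANDS DO NOT DROP -/
theorem mono (t1 : 2 ≤ P.XW D1.T a) (t2 : 2 ≤ P.XW D1.T b) {T c : V} (hc : K.ar T c)
    (hn : ∀ g : H, T ≠ g • D1.T) :
    P.XW T c ≤ (D1.flat.P45 P).XW (D1.toF.F T) (D1.toF.F c) := by
  classical
  obtain ⟨i0, h0⟩ := P45.Cl.own_ex h.top
  have hs : ¬ D1.toF.O T := fun ⟨g, e⟩ => hn g e
  -- translates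
  have tr : ∀ (g : H) (x q : V), x = g • T → q = g • c →
      P.XW x q ≤ (D1.flat.P45 P).XW (D1.toF.F x) (D1.toF.F q) →
      P.XW T c ≤ (D1.flat.P45 P).XW (D1.toF.F T) (D1.toF.F c) := by
    rintro g x q rfl rfl hx
    rw [D1.toF.F_smul, D1.toF.F_smul, XW_smul, XW_smul] at hx
    exact hx
  by_cases s1 : Tr H T c a D1.y
  · obtain ⟨g, e1, e2⟩ := s1
    refine tr g _ _ e1 e2 (h.monoS t1 t2 ?_)
    rw [e1, e2]
    exact K.ar_smul g _ _ hc
  by_cases s2 : Tr H T c b D1.y
  · obtain ⟨g, e1, e2⟩ := s2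
    refine tr g _ _ e1 e2 (h.symm'.monoS t2 t1 ?_)
    rw [e1, e2]
    exact K.ar_smul g _ _ hc
  by_cases s3 : Tr H T c D1.y a
  · obtain ⟨g, e1, e2⟩ := s3
    refine tr g _ _ e1 e2 (h.monoY t1 t2 ?_)
    rw [e1, e2]
    exact K.ar_smul g _ _ hc
  by_cases s4 : Tr H T c D1.y b
  · obtain ⟨g, e1, e2⟩ := s4
    refine tr g _ _ e1 e2 (h.symm'.monoY t2 t1 ?_)
    rw [e1, e2]
    exact K.ar_smul g _ _ hc
  have low := h.lowN (c := c) hs h0
  have hv : K.ccs i0 (fun x y z => lg H T c x y + lg H T c z y) = 0 := by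
    rw [P45.own_ccs4 h.hC h.top h0 T c, lg_neg s1, lg_neg s2, lg_neg s3, lg_neg s4]
    have n1 : ∀ q : V, lg H T c D1.T q = 0 := fun q => lg_neg (by
      rintro ⟨g, e, -⟩
      exact hn g⁻¹ (by rw [e, inv_smul_smul]))
    have n2 : ∀ x : V, K.ar D1.T x → lg H T c x D1.T = 0 := fun x k => lg_neg (by
      rintro ⟨g, e1, e2⟩
      have k1 := K.ar_rk _ _ (K.ar_smul g _ _ hc)
      rw [← e1, ← e2] at k1
      have k2 := K.ar_rk _ _ k
      omega)
    rw [n1, n1, n2 a h.top.1.2.1, n2 b h.top.1.2.2]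
    ring
  rw [hv, mul_zero, sub_zero] at low
  exact low

end ToF

end P45

namespace PmH

variable (X : PmH H)

include X

/-- THE STRANDS OF THE ARROWS OUTSIDE THE ORBIT OF THE TOP DO NOT DROP -/
theorem mono {K : GX H V} {P : P45 K} (hC : P.Cl) (hm : K.Min) {D1 : Sq1 K} {a b : V}
    (ht : P.TopR D1.T a b D1.y) {T c : V} (hc : K.ar T c) (hn : ∀ g : H, T ≠ g • D1.T) :
    P.XW T c ≤ (D1.flat.P45 P).XW (D1.toF.F T) (D1.toF.F c) :=
  (P45.ToF.mk hC hm ht (X.bt hC hm D1 a b ht) (X.wqf hC hm D1 a b ht)).mono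
    (X.two hC hm _ _ _ _ ht) (X.two hC hm _ _ _ _ ht.symm') hc hn

end PmH

end Pool.Agent.DI
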