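import Pool.Agent.DI.PmI

/-!
# DI/PmTo: the tower lemma

`h : P.ToF D1 a b`: the fold of the top `D1.T` with the sides `a`, `b` onto the partner `D1.y`.
`h.XW_F`: the strands of an arrow of the fold. `h.low`: the fold adds the strands of the top to the arrow of
a side to the partner. `PmL.cor2o`: Corollary 2 (i) for ordinary hubs. `PmL.cor2r`: a top over a vertex `k` whose poles have different ranks, with a pole
of `k` as partner, is thin. `PmL.tower`: all tops in a tower over `k` are thin.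
-/

namespace Pool.Agent.DI

open MulAction

variable {H V : Type} [Group H] [MulAction H V]

theorem lg_nonneg' (T c p q : V) : 0 ≤ lg H T c p q := by
  classical
  unfold lg
  split_ifs <;> norm_num

theorem lg_le_one (T c p q : V) : lg H T c p q ≤ 1 := by
  classical
  unfold lg
  split_ifs <;> norm_num

namespace P45

variable {K : GX H V} {P : P45 K}

open Classical in
/-- `XW` as a weighted sum of corners -/
theorem XW_wcs (T c : V) : P.XW T c = K.wcs (fun i => if P.own T i then 0 else P.wq i)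
    (fun x y z => lg H T c x y + lg H T c z y) := by
  unfold XW GX.wcs
  refine Finset.sum_congr rfl fun i _ => ?_
  show _ = (if P.own T i then (0 : ℤ) else P.wq i) * _
  by_cases h : P.own T i
  · rw [if_pos h, if_pos h, zero_mul]
  · rw [if_neg h, if_neg h]

open Classical in
/-- `XW` from the other end -/
theorem XW_fro (T c : V) : P.XW T c = ∑ i, if P.own T i then 0 else
    P.wq i * K.ccs i (fun x y z => lg H c T x y + lg H c T z y) := by
  rw [XW_top]
  refine Finset.sum_congr rfl fun i _ => ?_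
  by_cases h : P.own T i
  · rw [if_pos h, if_pos h]
  · rw [if_neg h, if_neg h]
    congr 1
    refine K.ccs_congr i fun j => ?_
    rw [lg_swap T, lg_swap T]

theorem XW_nonneg (T c : V) : 0 ≤ P.XW T c := by
  classical
  unfold XW
  refine Finset.sum_nonneg fun i _ => ?_
  split_ifs
  · exact le_refl _
  · exact mul_nonneg (wq_pos i).le (K.ccs_nonneg i fun j =>
      add_nonneg (lg_nonneg' _ _ _ _) (lg_nonneg' _ _ _ _))

/-- the square of `s` does not pass an edge with an end of larger rank -/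
theorem ccs_rk {s c : V} {i : K.I} (h : P.own s i) (hr : K.rk s < K.rk c) :
    K.ccs i (fun x y z => lg H s c x y + lg H s c z y) = 0 := by
  classical
  obtain ⟨hi, g, k, hk, e⟩ := h
  have ht := tq_TopR hi hk
  have r0 : K.rk (P.qt i k) = K.rk s := by rw [← e, K.rk_smul]
  have r1 := K.ar_rk _ _ ht.1.2.1
  have r2 := K.ar_rk _ _ ht.1.2.2
  have r3 := ht.2
  have rk : ∀ m : Fin 4, K.rk (P.qt i m) < K.rk c := by
    intro m
    obtain ⟨l, rfl⟩ : ∃ l, m = k + l := ⟨m - k, (add_sub_cancel k m).symm⟩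
    fin_cases l
    · show K.rk (P.qt i (k + 0)) < _
      rw [add_zero]
      omega
    · show K.rk (P.qt i (k + 1)) < _
      omega
    · show K.rk (P.qt i (k + 2)) < _
      omega
    · show K.rk (P.qt i (k + 3)) < _
      omega
  rw [P.ccs4 hi]
  refine Finset.sum_eq_zero fun j _ => ?_
  have n : ∀ x, ¬ Tr H s c x (P.qt i (j + 1)) := by
    rintro x ⟨h, -, e'⟩
    have := rk (j + 1)
    rw [e', K.rk_smul] at this
    exact lt_irrefl _ this
  rw [lg_neg (n _), lg_neg (n _), add_zero]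

/-- THE OWN SQUARE at the arrow of a side to the partner -/
theorem own_val {T a b y : V} {i : K.I} (hC : P.Cl) (h : P.TopR T a b y) (ay : K.ar a y)
    (h0 : P.own T i) :
    K.ccs i (fun x q z => lg H a y x q + lg H a y z q) = 1 + lg H a y b y := by
  obtain ⟨hi, g, j, hj, e⟩ := h0
  have ht := (tq_TopR hi hj).smul g
  rw [e] at ht
  have ey : g • P.qt i (j + 2) = y := hC.par _ _ _ _ _ _ _ ht h
  have ra := K.ar_rk _ _ ay
  have rT := K.ar_rk _ _ h.1.2.1
  have rb := K.ar_rk _ _ h.1.2.2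
  have key : ∀ x q : V, lg H a y x q = lg H a y (g • x) (g • q) := fun x q => by
    classical
    unfold lg
    refine if_congr ?_ rfl rfl
    constructor
    · rintro ⟨k, rfl, rfl⟩
      exact ⟨g * k, by rw [mul_smul], by rw [mul_smul]⟩
    · rintro ⟨k, k1, k2⟩
      exact ⟨g⁻¹ * k, by rw [mul_smul, ← k1, inv_smul_smul], by rw [mul_smul, ← k2, inv_smul_smul]⟩
  rw [P.ccs_at hi j]
  beta_reduce
  rw [key (P.qt i (j + 3)) (P.qt i j), key (P.qt i (j + 1)) (P.qt i j),
    key (P.qt i j) (P.qt i (j + 1)), key (P.qt i (j + 2)) (P.qt i (j + 1)),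
    key (P.qt i (j + 1)) (P.qt i (j + 2)), key (P.qt i (j + 3)) (P.qt i (j + 2)),
    key (P.qt i (j + 2)) (P.qt i (j + 3)), key (P.qt i j) (P.qt i (j + 3))]
  rw [e, ey]
  have hab := hC.nab _ _ _ _ h
  have hp : (g • P.qt i (j + 1) = a ∧ g • P.qt i (j + 3) = b) ∨
      (g • P.qt i (j + 1) = b ∧ g • P.qt i (j + 3) = a) := by
    have hab' := hC.nab _ _ _ _ ht
    rcases hC.sides h ht.1.2.1 with k1 | k1
    · rcases hC.sides h ht.1.2.2 with k2 | k2
      · exact absurd (k1.trans k2.symm) hab'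
      · exact Or.inl ⟨k1, k2⟩
    · rcases hC.sides h ht.1.2.2 with k2 | k2
      · exact Or.inr ⟨k1, k2⟩
      · exact absurd (k1.trans k2.symm) hab'
  -- the values
  have nT : ∀ x, lg H a y x T = 0 := fun x => lg_neg (by
    rintro ⟨k, -, e'⟩
    have := h.2
    rw [e', K.rk_smul] at this
    exact lt_irrefl _ this)
  have nT' : ∀ q, lg H a y T q = 0 := fun q => lg_neg (by
    rintro ⟨k, e', -⟩
    rw [e', K.rk_smul] at rT
    exact lt_irrefl _ rT)
  have ny : ∀ q, lg H a y y q = 0 := fun q => lg_neg (by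
    rintro ⟨k, e', -⟩
    have := congrArg K.rk e'
    rw [K.rk_smul] at this
    omega)
  have v1 : lg H a y a y = 1 := lg_pos ⟨1, (one_smul _ _).symm, (one_smul _ _).symm⟩
  rcases hp with ⟨e1, e2⟩ | ⟨e1, e2⟩
  · rw [e1, e2, nT, nT, nT', nT', ny, ny, v1]
    ring
  · rw [e1, e2, nT, nT, nT', nT', ny, ny, v1]
    ring

/-- the fold of the top `D1.T` -/
structure ToF (P : P45 K) (D1 : Sq1 K) (a b : V) : Prop where
  hC : P.Cl
  hm : K.Min
  top : P.TopR D1.T a b D1.y
  bt : ∀ i, D1.toF.Bt i ↔ P.own D1.T i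
  wqf : ∀ j, (D1.flat.P45 P).wq j = P.wq j.1

namespace ToF

variable {D1 : Sq1 K} {a b : V} (h : P.ToF D1 a b)

theorem O_rk {x : V} (hx : K.rk x < K.rk D1.T) : ¬ D1.toF.O x := by
  rintro ⟨g, e⟩
  rw [e, K.rk_smul] at hx
  exact lt_irrefl _ hx

theorem f_rk {x : V} (hx : K.rk x < K.rk D1.T) : D1.toF.f x = x := D1.toF.f_not (O_rk hx)

theorem F_T (g : H) : D1.toF.F (g • D1.T) = g • D1.toF.F D1.y := by
  apply Subtype.ext
  show D1.toF.f (g • D1.T) = g • D1.toF.f D1.y
  rw [D1.f_T, f_rk D1.rk]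

theorem O_iff' {x : V} : D1.toF.O x ↔ ∃ g : H, x = g • D1.T := Iff.rfl

include h

theorem nown (j : D1.toF.gx.I) : ¬ P.own D1.T j.1 := fun k => j.2 ((h.bt j.1).2 k)

theorem nO (j : D1.toF.gx.I) (hj : P.sq j.1) {k : Fin 4} (hk : P.tq j.1 k) :
    ¬ D1.toF.O (P.qt j.1 k) := by
  rintro ⟨g, e⟩
  exact h.nown j ⟨hj, g⁻¹, k, hk, by rw [e, inv_smul_smul]⟩

/-- the place of the top is kept -/
theorem tq_F (j : D1.toF.gx.I) (hj : P.sq j.1) {k : Fin 4} (hk : P.tq j.1 k) :
    (D1.flat.P45 P).tq j k := by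
  have hn := h.nO j hj hk
  have e1 : D1.toF.f (P.qt j.1 k) = P.qt j.1 k := D1.toF.f_not hn
  refine ⟨⟨⟨P.qt j.1 (k + 1), ?_, rfl⟩, ⟨P.qt j.1 (k + 3), ?_, rfl⟩⟩, ?_⟩
  · show K.ar (D1.toF.f (P.qt j.1 k)) _
    rw [e1]
    exact hk.1.1
  · show K.ar (D1.toF.f (P.qt j.1 k)) _
    rw [e1]
    exact hk.1.2
  · show K.rk (D1.toF.f (P.qt j.1 (k + 2))) < K.rk (D1.toF.f (P.qt j.1 k))
    rw [e1]
    exact lt_of_le_of_lt (D1.toF.rk_f _) hk.2

/-- THE OWN SQUARES OF THE FOLD -/
theorem own_F {s : V} (hs : ¬ D1.toF.O s) (j : D1.toF.gx.I) :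
    (D1.flat.P45 P).own (D1.toF.F s) j ↔ P.own s j.1 := by
  constructor
  · rintro ⟨hi, g, k, hk, e⟩
    obtain ⟨t, ht⟩ := h.hC.top j.1 hi
    have e' := P45.tq_uniq (h.tq_F j hi ht) hk
    subst e'
    refine ⟨hi, g, t, ht, ?_⟩
    have e2 : D1.toF.F (g • P.qt j.1 t) = D1.toF.F s := by
      rw [D1.toF.F_smul]
      exact e
    rw [D1.toF.F_eq, D1.toF.f_not hs, D1.toF.f_not] at e2
    · exact e2
    · intro k
      exact h.nO j hi ht ((D1.toF.O_iff g _).1 k)
  · rintro ⟨hi, g, k, hk, e⟩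
    refine ⟨hi, g, k, h.tq_F j hi hk, ?_⟩
    show g • D1.toF.F (P.qt j.1 k) = _
    rw [← D1.toF.F_smul, e]

open Classical in
/-- THE STRANDS OF THE FOLD -/
theorem XW_F {s : V} (hs : ¬ D1.toF.O s) (c : D1.toF.W) :
    (D1.flat.P45 P).XW (D1.toF.F s) c = ∑ i, if P.own D1.T i then 0 else
      (if P.own s i then 0 else P.wq i) * K.ccs i (fun x y z =>
        lg H (D1.toF.F s) c (D1.toF.F x) (D1.toF.F y) +
          lg H (D1.toF.F s) c (D1.toF.F z) (D1.toF.F y)) := by
  rw [XW_wcs]
  have e : (fun j : D1.toF.gx.I => if (D1.flat.P45 P).own (D1.toF.F s) j then (0 : ℤ) else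
      (D1.flat.P45 P).wq j) = fun j => (fun i => if P.own s i then (0 : ℤ) else P.wq i) j.1 := by
    funext j
    by_cases k : P.own s j.1
    · rw [if_pos ((h.own_F hs j).2 k)]
      show _ = if P.own s j.1 then (0 : ℤ) else P.wq j.1
      rw [if_pos k]
    · rw [if_neg (fun k' => k ((h.own_F hs j).1 k')), h.wqf]
      show _ = if P.own s j.1 then (0 : ℤ) else P.wq j.1
      rw [if_neg k]
  rw [e, D1.flat.wcs_if P (fun i => if P.own s i then (0 : ℤ) else P.wq i)
    (fun x y z => lg H (D1.toF.F s) c x y + lg H (D1.toF.F s) c z y)]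
  refine Finset.sum_congr rfl fun i _ => ?_
  by_cases k : P.own D1.T i
  · rw [if_pos ((h.bt i).2 k), if_pos k]
  · rw [if_neg (fun k' => k ((h.bt i).1 k')), if_neg k]

open Classical in
/-- a lower bound -/
theorem lowG {s : V} (hs : ¬ D1.toF.O s) {c : D1.toF.W} (N : V → V → ℤ)
    (hN : ∀ x q, N x q ≤ lg H (D1.toF.F s) c (D1.toF.F x) (D1.toF.F q)) :
    (∑ i, if P.own D1.T i then 0 else if P.own s i then 0 else
      P.wq i * K.ccs i (fun x y z => N x y + N z y)) ≤ (D1.flat.P45 P).XW (D1.toF.F s) c := by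
  rw [h.XW_F hs]
  refine Finset.sum_le_sum fun i _ => ?_
  by_cases k : P.own D1.T i
  · rw [if_pos k, if_pos k]
  · rw [if_neg k, if_neg k]
    by_cases k' : P.own s i
    · rw [if_pos k', if_pos k', zero_mul]
    · rw [if_neg k', if_neg k']
      exact mul_le_mul_of_nonneg_left (K.ccs_mono i fun j => add_le_add (hN _ _) (hN _ _))
        (wq_pos i).le

/-- the arrow of a side to the partner, in the fold -/
theorem lg_low {s : V} (x q : V) : lg H s D1.y x q + lg H s D1.T x q ≤
    lg H (D1.toF.F s) (D1.toF.F D1.y) (D1.toF.F x) (D1.toF.F q) := by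
  by_cases k1 : Tr H s D1.y x q
  · have k3 : ¬ Tr H s D1.T x q := by
      rintro ⟨g, -, e⟩
      obtain ⟨g', -, e'⟩ := k1
      have := D1.rk
      rw [← K.rk_smul g D1.T, ← e, e', K.rk_smul] at this
      exact lt_irrefl _ this
    obtain ⟨g, rfl, rfl⟩ := k1
    rw [lg_neg k3, add_zero, lg_pos (T := D1.toF.F s) ⟨g, D1.toF.F_smul _ _, D1.toF.F_smul _ _⟩]
    exact lg_le_one _ _ _ _
  · rw [lg_neg k1, zero_add]
    by_cases k2 : Tr H s D1.T x q
    · obtain ⟨g, rfl, rfl⟩ := k2
      rw [lg_pos (T := D1.toF.F s) ⟨g, D1.toF.F_smul _ _, F_T g⟩]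
      exact lg_le_one _ _ _ _
    · rw [lg_neg k2]
      exact lg_nonneg' _ _ _ _

/-- the same, with the other side -/
theorem lg_low2 {s z : V} {g0 : H} (hz : g0 • s = z) (hy : g0 • D1.y = D1.y)
    (ho : ∀ g : H, g • D1.T = D1.T → g • s ≠ z) (x q : V) :
    lg H s D1.y x q + (lg H s D1.T x q + lg H z D1.T x q) ≤
    lg H (D1.toF.F s) (D1.toF.F D1.y) (D1.toF.F x) (D1.toF.F q) := by
  by_cases k2 : Tr H z D1.T x q
  · have k1 : ¬ Tr H s D1.y x q := by
      rintro ⟨g, -, e⟩
      obtain ⟨g', -, e'⟩ := k2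
      have := D1.rk
      rw [← K.rk_smul g D1.y, ← e, e', K.rk_smul] at this
      exact lt_irrefl _ this
    have k3 : ¬ Tr H s D1.T x q := by
      rintro ⟨g, e1, e2⟩
      obtain ⟨g', e3, e4⟩ := k2
      refine ho (g'⁻¹ * g) ?_ ?_
      · rw [mul_smul, ← e2, e4, inv_smul_smul]
      · rw [mul_smul, ← e1, e3, inv_smul_smul]
    obtain ⟨g, rfl, rfl⟩ := k2
    rw [lg_neg k1, lg_neg k3, zero_add, zero_add,
      lg_pos (T := D1.toF.F s) ⟨g * g0, by rw [← hz, ← mul_smul, D1.toF.F_smul], ?_⟩]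
    · exact lg_le_one _ _ _ _
    · rw [F_T, mul_smul, ← D1.toF.F_smul g0, hy]
  · rw [lg_neg k2, add_zero]
    exact h.lg_low x q

open Classical in
/-- the sum of the lower bound -/
theorem sum_low {s : V} (hr : K.rk s < K.rk D1.T) {i0 : K.I} (h0 : P.own D1.T i0) (M : V → V → ℤ)
    (hM : ∀ i, P.own s i → K.ccs i (fun x y z => M x y + M z y) = 0) (B : ℤ)
    (hB : B = ∑ i, if P.own D1.T i then 0 else P.wq i * K.ccs i (fun x y z => M x y + M z y)) :
    (∑ i, if P.own D1.T i then 0 else if P.own s i then 0 else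
      P.wq i * K.ccs i (fun x y z => (lg H s D1.y x y + M x y) + (lg H s D1.y z y + M z y))) =
    P.XW s D1.y + B - P.wq i0 * K.ccs i0 (fun x y z => lg H s D1.y x y + lg H s D1.y z y) := by
  have hu : ∀ i, P.own D1.T i → i = i0 := fun i hi => h.hC.own_uniq hi h0
  have hns : ¬ P.own s i0 := by
    rintro ⟨hi, g, k, hk, e⟩
    obtain ⟨hi', g', k', hk', e'⟩ := h0
    have ek := P45.tq_uniq hk hk'
    subst ek
    rw [← e, ← e', K.rk_smul, K.rk_smul] at hr
    exact lt_irrefl _ hr
  have e1 : P.wq i0 * K.ccs i0 (fun x y z => lg H s D1.y x y + lg H s D1.y z y) =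
      ∑ i, if P.own D1.T i then
        P.wq i * K.ccs i (fun x y z => lg H s D1.y x y + lg H s D1.y z y) else 0 := by
    rw [Finset.sum_eq_single i0]
    · rw [if_pos h0]
    · intro i _ hi
      rw [if_neg (fun k => hi (hu i k))]
    · intro k
      exact absurd (Finset.mem_univ _) k
  rw [e1, hB]
  unfold XW
  rw [← Finset.sum_add_distrib, ← Finset.sum_sub_distrib]
  refine Finset.sum_congr rfl fun i _ => ?_
  have e2 : K.ccs i (fun x y z => (lg H s D1.y x y + M x y) + (lg H s D1.y z y + M z y)) =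
      K.ccs i (fun x y z => lg H s D1.y x y + lg H s D1.y z y) +
        K.ccs i (fun x y z => M x y + M z y) := by
    rw [← K.ccs_add]
    exact K.ccs_congr i fun j => by ring
  by_cases k : P.own D1.T i
  · have k' : ¬ P.own s i := by
      rw [hu i k]
      exact hns
    rw [if_pos k, if_pos k, if_pos k, if_neg k']
    ring
  · rw [if_neg k, if_neg k, if_neg k]
    by_cases k' : P.own s i
    · rw [if_pos k', if_pos k', hM i k']
      ring
    · rw [if_neg k', if_neg k', e2]
      ring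

/-- THE STRANDS OF A SIDE at the partner, after the fold -/
theorem low {s : V} (Ts : K.ar D1.T s) {i0 : K.I} (h0 : P.own D1.T i0) :
    P.XW s D1.y + P.XW D1.T s -
      P.wq i0 * K.ccs i0 (fun x y z => lg H s D1.y x y + lg H s D1.y z y) ≤
      (D1.flat.P45 P).XW (D1.toF.F s) (D1.toF.F D1.y) := by
  have hr := K.ar_rk _ _ Ts
  have e := h.sum_low hr h0 (fun x q => lg H s D1.T x q)
    (fun i hi => P45.ccs_rk hi hr) _ (XW_fro D1.T s)
  rw [← e]
  exact h.lowG (O_rk hr) (fun x q => lg H s D1.y x q + lg H s D1.T x q) fun x q => h.lg_low x q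

/-- the same, if the other side is a translate over the partner -/
theorem low2 {s z : V} {g0 : H} (Ts : K.ar D1.T s) (Tz : K.ar D1.T z) (hz : g0 • s = z)
    (hy : g0 • D1.y = D1.y) (ho : ∀ g : H, g • D1.T = D1.T → g • s ≠ z) {i0 : K.I}
    (h0 : P.own D1.T i0) :
    P.XW s D1.y + (P.XW D1.T s + P.XW D1.T z) -
      P.wq i0 * K.ccs i0 (fun x y z => lg H s D1.y x y + lg H s D1.y z y) ≤
      (D1.flat.P45 P).XW (D1.toF.F s) (D1.toF.F D1.y) := by
  classical
  have hr := K.ar_rk _ _ Ts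
  have e := h.sum_low hr h0 (fun x q => lg H s D1.T x q + lg H z D1.T x q)
    (fun i hi => by
      have k1 := P45.ccs_rk hi hr
      have k2 : K.ccs i (fun x y w => lg H z D1.T x y + lg H z D1.T w y) = 0 := by
        have hi' : P.own z i := by
          rw [← hz]
          exact (P45.own_smul g0 s i).2 hi
        exact P45.ccs_rk hi' (K.ar_rk _ _ Tz)
      have k3 : K.ccs i (fun x y w => (lg H s D1.T x y + lg H z D1.T x y) +
          (lg H s D1.T w y + lg H z D1.T w y)) =
          K.ccs i (fun x y w => lg H s D1.T x y + lg H s D1.T w y) +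
          K.ccs i (fun x y w => lg H z D1.T x y + lg H z D1.T w y) := by
        rw [← K.ccs_add]
        exact K.ccs_congr i fun j => by ring
      rw [k3, k1, k2, add_zero]) (P.XW D1.T s + P.XW D1.T z) (by
      rw [XW_fro D1.T s, XW_fro D1.T z, ← Finset.sum_add_distrib]
      refine Finset.sum_congr rfl fun i _ => ?_
      by_cases k : P.own D1.T i
      · rw [if_pos k, if_pos k, if_pos k, add_zero]
      · rw [if_neg k, if_neg k, if_neg k, ← mul_add, ← K.ccs_add]
        congr 1
        exact K.ccs_congr i fun j => by ring)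
  rw [← e]
  exact h.lowG (O_rk hr) (fun x q => lg H s D1.y x q + (lg H s D1.T x q + lg H z D1.T x q))
    fun x q => h.lg_low2 hz hy ho x q

/-- GROWTH -/
theorem grow {s : V} (Ts : K.ar D1.T s) :
    P.XW D1.T s ≤ (D1.flat.P45 P).XW (D1.toF.F s) (D1.toF.F D1.y) := by
  classical
  obtain ⟨i0, h0⟩ := P45.Cl.own_ex h.top
  have h1 := h.low Ts h0
  have hr := K.ar_rk _ _ Ts
  have hns : ¬ P.own s i0 := by
    rintro ⟨hi, g, k, hk, e⟩
    obtain ⟨hi', g', k', hk', e'⟩ := h0
    have ek := P45.tq_uniq hk hk'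
    subst ek
    rw [← e, ← e', K.rk_smul, K.rk_smul] at hr
    exact lt_irrefl _ hr
  have h2 : P.wq i0 * K.ccs i0 (fun x y z => lg H s D1.y x y + lg H s D1.y z y) ≤
      P.XW s D1.y := by
    unfold XW
    have h3 := Finset.single_le_sum (s := Finset.univ)
      (f := fun i => if P.own s i then (0 : ℤ) else P.wq i * K.ccs i (fun x y z =>
        lg H s D1.y x y + lg H s D1.y z y)) (fun i _ => by
          show 0 ≤ if P.own s i then (0 : ℤ) else _
          split_ifs
          · exact le_refl _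
          · exact mul_nonneg (wq_pos i).le (K.ccs_nonneg i fun j =>
              add_nonneg (lg_nonneg' _ _ _ _) (lg_nonneg' _ _ _ _))) (Finset.mem_univ i0)
    simp only [if_neg hns] at h3
    exact h3
  omega

/-- THE STRANDS AT THE OTHER POLE `c` of the side `k` do not grow, if no element which maps the partner
to `c` maps a side of the top to `k` -/
theorem upp {k z c : V} (top : P.TopR D1.T k z D1.y) (ky : K.ar k D1.y) (kc : K.ar k c)
    (n1 : ∀ g : H, g • k = k → g • D1.y ≠ c) (n2 : ∀ g : H, g • z = k → g • D1.y ≠ c) :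
    (D1.flat.P45 P).XW (D1.toF.F k) (D1.toF.F c) ≤ P.XW k c := by
  classical
  have rk' := K.ar_rk _ _ top.1.2.1
  have r2 := K.ar_rk _ _ ky
  have r3 := K.ar_rk _ _ kc
  rw [h.XW_F (O_rk rk'), XW]
  refine Finset.sum_le_sum fun i _ => ?_
  have nn : 0 ≤ P.wq i * K.ccs i (fun x y z => lg H k c x y + lg H k c z y) :=
    mul_nonneg (wq_pos i).le (K.ccs_nonneg i fun j =>
      add_nonneg (lg_nonneg' _ _ _ _) (lg_nonneg' _ _ _ _))
  have key : ∀ x q : V, K.E x q → lg H (D1.toF.F k) (D1.toF.F c) (D1.toF.F x) (D1.toF.F q) ≤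
      lg H k c x q := by
    intro x q hE
    by_cases t : Tr H (D1.toF.F k) (D1.toF.F c) (D1.toF.F x) (D1.toF.F q)
    · obtain ⟨g, e1, e2⟩ := t
      have f1 : D1.toF.f x = g • k := by
        have := congrArg Subtype.val e1
        rw [D1.toF.smul_coe] at this
        show (D1.toF.F x).1 = _
        rw [this]
        show g • D1.toF.f k = _
        rw [f_rk rk']
      have f2 : D1.toF.f q = g • c := by
        have := congrArg Subtype.val e2
        rw [D1.toF.smul_coe] at this
        show (D1.toF.F q).1 = _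
        rw [this]
        show g • D1.toF.f c = _
        rw [f_rk (r3.trans rk')]
      have g1 : x = g • k := by
        by_cases hx : D1.toF.O x
        · exfalso
          obtain ⟨h', rfl⟩ := hx
          rw [D1.f_T] at f1
          have := congrArg K.rk f1
          rw [K.rk_smul, K.rk_smul] at this
          omega
        · rwa [D1.toF.f_not hx] at f1
      have g2 : q = g • c := by
        by_cases hx : D1.toF.O q
        · exfalso
          obtain ⟨h', rfl⟩ := hx
          rw [D1.f_T] at f2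
          have hT : K.ar (h' • D1.T) (g • k) := by
            rw [g1] at hE
            rcases hE with hE | hE
            · have := K.ar_rk _ _ hE
              rw [K.rk_smul, K.rk_smul] at this
              omega
            · exact hE
          have hT' : K.ar D1.T (h'⁻¹ • g • k) := by
            have := K.ar_smul h'⁻¹ _ _ hT
            rwa [inv_smul_smul] at this
          have e3 : (g⁻¹ * h') • D1.y = c := by rw [mul_smul, f2, inv_smul_smul]
          rcases h.hC.sides top hT' with e | e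
          · refine n1 (g⁻¹ * h') ?_ e3
            have e4 : h' • k = g • k := by
              have := congrArg (fun v => h' • v) e
              simp only [smul_inv_smul] at this
              exact this.symm
            rw [mul_smul, e4, inv_smul_smul]
          · refine n2 (g⁻¹ * h') ?_ e3
            rw [← e, mul_smul, smul_inv_smul, inv_smul_smul]
        · rwa [D1.toF.f_not hx] at f2
      rw [lg_pos (T := k) (c := c) ⟨g, g1, g2⟩]
      exact lg_le_one _ _ _ _
    · rw [lg_neg t]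
      exact lg_nonneg' _ _ _ _
  by_cases k1 : P.own D1.T i
  · rw [if_pos k1]
    split_ifs
    · exact le_refl _
    · exact nn
  · rw [if_neg k1]
    by_cases k2 : P.own k i
    · rw [if_pos k2, if_pos k2, zero_mul]
    · rw [if_neg k2, if_neg k2]
      have hl := P.pm_len i
      exact mul_le_mul_of_nonneg_left (K.ccs_mono i fun j => add_le_add
        (key _ _ (K.vx_E hl j)) (key _ _ (K.vx_E hl (j + 1)).symm)) (wq_pos i).le

/-- arrows of the fold -/
theorem ar_F {x z : V} (hx : K.rk x < K.rk D1.T) (e : K.ar x z) :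
    D1.toF.gx.ar (D1.toF.F x) (D1.toF.F z) := by
  refine ⟨z, ?_, rfl⟩
  show K.ar (D1.toF.f x) z
  rw [f_rk hx]
  exact e

theorem rk_F {x : V} (hx : K.rk x < K.rk D1.T) : D1.toF.gx.rk (D1.toF.F x) = K.rk x := by
  show K.rk (D1.toF.f x) = _
  rw [f_rk hx]

/-- tops of smaller rank are kept -/
theorem TopR_F {t s z p : V} (hr : K.rk t < K.rk D1.T) (k : P.TopR t s z p) :
    (D1.flat.P45 P).TopR (D1.toF.F t) (D1.toF.F s) (D1.toF.F z) (D1.toF.F p) := by
  have r1 := K.ar_rk _ _ k.1.2.1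
  have r2 := K.ar_rk _ _ k.1.2.2
  have r3 := k.2
  refine ⟨⟨(D1.flat.Q4_iff P).2 ⟨_, _, _, _, k.1.1, rfl, rfl, rfl, rfl, ?_, ?_⟩, h.ar_F hr k.1.2.1,
    h.ar_F hr k.1.2.2⟩, ?_⟩
  · intro e
    rw [D1.toF.F_eq, f_rk (r1.trans hr), f_rk (r2.trans hr)] at e
    exact h.hC.nab _ _ _ _ k e
  · intro e
    rw [D1.toF.F_eq, f_rk hr, f_rk (r3.trans hr)] at e
    rw [e] at r3
    exact lt_irrefl _ r3
  · rw [h.rk_F hr, h.rk_F (r3.trans hr)]
    exact r3

end ToF

end P45

/-- WHAT IS USED: the class of a fold and Corollary 1 -/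
structure PmL (H : Type) [Group H] : Prop where
  fold : ∀ {V : Type} [MulAction H V] {K : GX H V} {P : P45 K}, P.Cl → K.Min → ∀ (D1 : Sq1 K)
    (a b : V), P.TopR D1.T a b D1.y → (D1.flat.P45 P).Cl
  bt : ∀ {V : Type} [MulAction H V] {K : GX H V} {P : P45 K}, P.Cl → K.Min → ∀ (D1 : Sq1 K)
    (a b : V), P.TopR D1.T a b D1.y → ∀ i, D1.toF.Bt i ↔ P.own D1.T i
  wqf : ∀ {V : Type} [MulAction H V] {K : GX H V} {P : P45 K}, P.Cl → K.Min → ∀ (D1 : Sq1 K)
    (a b : V), P.TopR D1.T a b D1.y → ∀ j, (D1.flat.P45 P).wq j = P.wq j.1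
  cor1 : ∀ {V : Type} [MulAction H V] {K : GX H V} {P : P45 K}, P.Cl → K.Min → ∀ {s a b : V},
    K.ar s a → K.ar s b → P.XW s a = P.XW s b

theorem PmH.toL (X : PmH H) : PmL H := ⟨X.fold, X.bt, X.wqf, fun hC hm _ _ _ ha hb => X.cor1 hC hm ha hb⟩

namespace PmL

variable (X : PmL H)

include X

theorem toF {K : GX H V} {P : P45 K} (hC : P.Cl) (hm : K.Min) {T a b y : V}
    (h : P.TopR T a b y) : P.ToF (hC.s1 h) a b :=
  ⟨hC, hm, h, X.bt hC hm (hC.s1 h) a b h, X.wqf hC hm (hC.s1 h) a b h⟩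

/-- COR 2 (i) FOR ORDINARY HUBS: a top over `k` whose partner `a` is a pole of `k` is thin, if no element
which maps `a` to the other pole `b` maps a side of the top to `k` (so `k` is ordinary and it is not
the exceptional case) -/
theorem cor2o {K : GX H V} {P : P45 K} (hC : P.Cl) (hm : K.Min) {T k z a b : V}
    (ka : K.ar k a) (kb : K.ar k b) (n1 : ∀ g : H, g • k = k → g • a ≠ b)
    (n2 : ∀ g : H, g • z = k → g • a ≠ b) (h : P.TopR T k z a) : P.XW T k ≤ 2 := by
  classical
  have F := X.toF hC hm h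
  set D1 := hC.s1 h with hD
  have hC' : (D1.flat.P45 P).Cl := X.fold hC hm D1 k z h
  have hm' := D1.toF.min hm
  have rT : K.rk k < K.rk D1.T := K.ar_rk _ _ h.1.2.1
  have e1 : (D1.flat.P45 P).XW (D1.toF.F k) (D1.toF.F a) =
      (D1.flat.P45 P).XW (D1.toF.F k) (D1.toF.F b) :=
    X.cor1 hC' hm' (F.ar_F rT ka) (F.ar_F rT kb)
  have e2 : P.XW k a = P.XW k b := X.cor1 hC hm ka kb
  have e3 : (D1.flat.P45 P).XW (D1.toF.F k) (D1.toF.F b) ≤ P.XW k b :=
    F.upp h ka kb n1 n2
  obtain ⟨i0, h0⟩ := P45.Cl.own_ex h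
  have hv := P45.own_val hC h ka h0
  have hT : P.XW T k = P.XW T z := X.cor1 hC hm h.1.2.1 h.1.2.2
  have l1 := lg_le_one (H := H) k a z a
  have l0 := lg_nonneg' (H := H) k a z a
  have low := F.low (s := k) h.1.2.1 h0
  have low' : P.XW k a + P.XW T k - P.wq i0 * (1 + lg H k a z a) ≤
      (D1.flat.P45 P).XW (D1.toF.F k) (D1.toF.F a) := by
    rw [← hv]
    exact low
  by_cases hf : P.flq i0
  · have hw : P.wq i0 = 1 := if_pos hf
    rw [hw] at low'
    omega
  · have hw : P.wq i0 = 2 := if_neg hf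
    rw [hw] at low'
    by_cases ht : Tr H k a z a
    · obtain ⟨g0, e5, e6⟩ := id ht
      have ho : ∀ g : H, g • T = T → g • k ≠ z := by
        intro g hg e
        apply hf
        obtain ⟨hi, q, j, hj, e7⟩ := h0
        have ht' := (P45.tq_TopR hi hj).smul q
        have e7' : q • P.qt i0 j = T := e7
        rw [e7'] at ht'
        have hab := hC.nab _ _ _ _ h
        have hab' := hC.nab _ _ _ _ ht'
        have hgz : g • z = k := by
          have h8 := h.smul g
          rw [hg] at h8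
          rcases hC.sides h h8.1.2.2 with e8 | e8
          · exact e8
          · exfalso
            apply hab
            apply smul_left_cancel g
            rw [e, e8]
        have hcase : (q • P.qt i0 (j + 1) = k ∧ q • P.qt i0 (j + 3) = z) ∨
            (q • P.qt i0 (j + 1) = z ∧ q • P.qt i0 (j + 3) = k) := by
          rcases hC.sides h ht'.1.2.1 with k1 | k1
          · rcases hC.sides h ht'.1.2.2 with k2 | k2
            · exact absurd (k1.trans k2.symm) hab'
            · exact Or.inl ⟨k1, k2⟩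
          · rcases hC.sides h ht'.1.2.2 with k2 | k2
            · exact Or.inr ⟨k1, k2⟩
            · exact absurd (k1.trans k2.symm) hab'
        refine ⟨hi, q⁻¹ * g * q, j, hj, ?_, ?_⟩
        · rw [mul_smul, mul_smul, e7', hg, ← e7', inv_smul_smul]
        · rcases hcase with ⟨k1, k2⟩ | ⟨k1, k2⟩
          · rw [mul_smul, mul_smul, k1, e, ← k2, inv_smul_smul]
          · rw [mul_smul, mul_smul, k1, hgz, ← k2, inv_smul_smul]
      have low3 := F.low2 (s := k) (z := z) h.1.2.1 h.1.2.2 e5.symm e6.symm ho h0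
      have low3' : P.XW k a + (P.XW T k + P.XW T z) - P.wq i0 * (1 + lg H k a z a) ≤
          (D1.flat.P45 P).XW (D1.toF.F k) (D1.toF.F a) := by
        rw [← hv]
        exact low3
      rw [hw] at low3'
      omega
    · rw [lg_neg ht] at low'
      omega

/-- COR 2 AT A VERTEX WHOSE POLES HAVE DIFFERENT RANKS -/
theorem cor2r {K : GX H V} {P : P45 K} (hC : P.Cl) (hm : K.Min) {T k z a b : V}
    (ka : K.ar k a) (kb : K.ar k b) (hr : K.rk b ≠ K.rk a) (h : P.TopR T k z a) :
    P.XW T k ≤ 2 :=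
  X.cor2o hC hm ka kb (fun g _ e => hr (by rw [← e, K.rk_smul]))
    (fun g _ e => hr (by rw [← e, K.rk_smul])) h

end PmL

namespace P45

variable {K : GX H V}

/-- `T` IS IN A TOWER of height `n` over `k`: every member is a top over the one before, its partner is a
pole of the one before -/
def Tow (P : P45 K) (k : V) : ℕ → V → Prop
  | 0, T => T = k
  | n + 1, T => ∃ s z p, Tow P k n s ∧ P.TopR T s z p ∧ K.ar s p

theorem Tow.rk_le {P : P45 K} {k : V} {n : ℕ} {T : V} (h : P.Tow k n T) : K.rk k ≤ K.rk T := by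
  induction n generalizing T with
  | zero =>
    have e : T = k := h
    rw [e]
  | succ n ih =>
    obtain ⟨s, z, p, h1, h2, -⟩ := h
    have := ih h1
    have := K.ar_rk _ _ h2.1.2.1
    omega

/-- a tower in the fold of a top above it -/
theorem ToF.tow {P : P45 K} {D1 : Sq1 K} {a b : V} (h : P.ToF D1 a b) {k : V} {n : ℕ} {T : V}
    (hT : P.Tow k n T) (hr : K.rk T < K.rk D1.T) :
    (D1.flat.P45 P).Tow (D1.toF.F k) n (D1.toF.F T) := by
  induction n generalizing T with
  | zero =>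
    have e : T = k := hT
    rw [e]
    rfl
  | succ n ih =>
    obtain ⟨s, z, p, h1, h2, h3⟩ := hT
    have r1 := (K.ar_rk _ _ h2.1.2.1).trans hr
    exact ⟨_, _, _, ih h1 r1, h.TopR_F hr h2, h.ar_F r1 h3⟩

end P45

namespace PmL

variable (X : PmL H)

include X

theorem tower' (n : ℕ) : ∀ {V : Type} [MulAction H V] {K : GX H V} {P : P45 K}, P.Cl → K.Min →
    ∀ {k a b : V}, K.ar k a → K.ar k b → K.rk a ≠ K.rk b → ∀ {T : V}, P.Tow k (n + 1) T →
    ∀ {c : V}, K.ar T c → P.XW T c ≤ 2 := by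
  induction n with
  | zero =>
    intro V _ K P hC hm k a b ka kb hr T hT c hc
    obtain ⟨s, z, p, h1, h2, h3⟩ := hT
    have e : s = k := h1
    subst e
    rw [X.cor1 hC hm hc h2.1.2.1]
    rcases K.two _ _ _ _ ka kb h3 with e | e | e
    · exact absurd (by rw [e]) hr
    · rw [← e] at h2
      exact X.cor2r hC hm kb ka hr h2
    · rw [← e] at h2
      exact X.cor2r hC hm ka kb hr.symm h2
  | succ n ih =>
    intro V _ K P hC hm k a b ka kb hr T hT c hc
    obtain ⟨s, z, p, h1, h2, h3⟩ := hT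
    rw [X.cor1 hC hm hc h2.1.2.1]
    have F := X.toF hC hm h2
    have rT : K.rk s < K.rk (hC.s1 h2).T := K.ar_rk _ _ h2.1.2.1
    have rk' : K.rk k < K.rk (hC.s1 h2).T := lt_of_le_of_lt h1.rk_le rT
    have ra := (K.ar_rk _ _ ka).trans rk'
    have rb := (K.ar_rk _ _ kb).trans rk'
    have hC' := X.fold hC hm (hC.s1 h2) s z h2
    have hm' := (hC.s1 h2).toF.min hm
    have h4 := F.grow (s := s) h2.1.2.1
    refine le_trans h4 (ih hC' hm' (F.ar_F rk' ka) (F.ar_F rk' kb) ?_ (F.tow h1 rT) (F.ar_F rT h3))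
    rw [F.rk_F ra, F.rk_F rb]
    exact hr

/-- THE TOWER LEMMA: the tops of a tower over a vertex with poles of different rank are thin -/
theorem tower {K : GX H V} {P : P45 K} (hC : P.Cl) (hm : K.Min) {k a b : V} (ka : K.ar k a)
    (kb : K.ar k b) (hr : K.rk a ≠ K.rk b) {n : ℕ} {T : V} (hT : P.Tow k (n + 1) T) {c : V}
    (hc : K.ar T c) : P.XW T c ≤ 2 := X.tower' n hC hm ka kb hr hT hc

end PmL

/-! ### from the frame -/

theorem PmH.cor2o (X : PmH H) {K : GX H V} {P : P45 K} (hC : P.Cl) (hm : K.Min) {T k z a b : V}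
    (ka : K.ar k a) (kb : K.ar k b) (n1 : ∀ g : H, g • k = k → g • a ≠ b)
    (n2 : ∀ g : H, g • z = k → g • a ≠ b) (h : P.TopR T k z a) : P.XW T k ≤ 2 :=
  X.toL.cor2o hC hm ka kb n1 n2 h

theorem PmH.tower (X : PmH H) {K : GX H V} {P : P45 K} (hC : P.Cl) (hm : K.Min) {k a b : V}
    (ka : K.ar k a) (kb : K.ar k b) (hr : K.rk a ≠ K.rk b) {n : ℕ} {T : V} (hT : P.Tow k (n + 1) T)
    {c : V} (hc : K.ar T c) : P.XW T c ≤ 2 := X.toL.tower hC hm ka kb hr hT hc

end Pool.Agent.DI
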