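import Pool.Agent.DI.PmMo
import Pool.Agent.DI.ClB
import Pool.Agent.DI.PmZ

/-!
# DI/PmTz: the tower lemma without hypotheses

`pmL : PmL H` (the class is closed under folds, Corollary 1). `Cl.toF0`: the fold of a top. `Cl.cor2o0`,
`Cl.cor2r0`: Corollary 2 (i). `Cl.tower0`: the tower lemma.
-/

namespace Pool.Agent.DI

open MulAction

variable {H V : Type} [Group H] [MulAction H V]

/-- THE INPUTS OF `DI/PmTo` -/
theorem pmL : PmL H where
  fold hC hm _ _ _ ht := hC.fold1 hm ht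
  bt hC hm _ _ _ ht i := hC.Bt_own hm ht i
  wqf hC hm _ _ _ ht j := hC.wq1 hm ht j
  cor1 hC hm _ _ _ ha hb := hC.cor1Z hm ha hb

namespace P45

variable {K : GX H V} {P : P45 K}

theorem Cl.toF0 (hC : P.Cl) (hm : K.Min) {T a b y : V} (h : P.TopR T a b y) :
    P.ToF (hC.s1 h) a b := pmL.toF hC hm h

/-- COR 2 (i) for ordinary hubs -/
theorem Cl.cor2o0 (hC : P.Cl) (hm : K.Min) {T k z a b : V}
    (ka : K.ar k a) (kb : K.ar k b) (n1 : ∀ g : H, g • k = k → g • a ≠ b)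
    (n2 : ∀ g : H, g • z = k → g • a ≠ b) (h : P.TopR T k z a) : P.XW T k ≤ 2 :=
  pmL.cor2o hC hm ka kb n1 n2 h

/-- COR 2 (i) for hubs with poles of different ranks -/
theorem Cl.cor2r0 (hC : P.Cl) (hm : K.Min) {T k z a b : V} (ka : K.ar k a) (kb : K.ar k b)
    (hr : K.rk b ≠ K.rk a) (h : P.TopR T k z a) : P.XW T k ≤ 2 := pmL.cor2r hC hm ka kb hr h

/-- THE TOWER LEMMA -/
theorem Cl.tower0 (hC : P.Cl) (hm : K.Min) {k a b : V} (ka : K.ar k a) (kb : K.ar k b)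
    (hr : K.rk a ≠ K.rk b) {n : ℕ} {T : V} (hT : P.Tow k (n + 1) T) {c : V} (hc : K.ar T c) :
    P.XW T c ≤ 2 := pmL.tower hC hm ka kb hr hT hc

end P45

end Pool.Agent.DI
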