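import Pool.Agent.DI.Pot0
import Pool.Agent.DI.Count
import Pool.Agent.DI.C5D

/-!
# DI/Pot1: the potentials of the tail

`K.Fat v`: `2 ≤ λ` at a pole; `K.nFat`: the number of fat light special softs.
`Att ar Co s n`: the piece of `n` at `s` has a corner at a pole; `WeakA`: `Weak` (C5D) with the last
clause for attached pieces only; `K.nNu`: the number of weak light softs (`WeakA`).
`GX.att_of_LC`, `GX.weakA_iff`: if the link of `s` is connected then all pieces are attached.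
Parts: `SubGX.lam_eq` (`λ` of an edge of the part is the same), `SubGX.nFat_le`, `SubGX.neg_iff`,
`SubGX.weakA`, `SubGX.nNu_le` (if the vertices with an out-arrow and infinite stabiliser have a
connected link).
-/

namespace Pool.Agent.DI

open MulAction
open Pool.Agent.SAF (InC SA orbs FinOrb oc FinOrb_iff mk_eq_iff exists_rep oc_le_of_inj
  oc_le_of_surj oc_mono)
open Pool.Agent.SAG (IO Zt)

/-! ### weak softs -/

section Weak

variable {H V : Type} [Group H] [MulAction H V]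

/-- the piece of `n` at `s` has a corner at a pole of `s` -/
def Att (ar : V → V → Prop) (Co : V → V → V → Prop) (s n : V) : Prop :=
  ∃ m c, LkC ar Co s n m ∧ ar s c ∧ Co m s c

/-- weak softs, attached pieces only -/
def WeakA (H : Type) {V : Type} [Group H] [MulAction H V] (ar : V → V → Prop)
    (Co : V → V → V → Prop) (s : V) : Prop :=
  Finite ↥(stabilizer H s) ∧ ∃ a b, a ≠ b ∧ ar s a ∧ ar s b ∧
    (∀ g : H, g • s = s → g • a = a → (Neg ar a g ↔ Neg ar b g)) ∧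
    (∃ g : H, g • s = s ∧ g • a = a ∧ Neg ar a g) ∧
    (∀ (n : V) (g : H), ar n s → Att ar Co s n → g • s = s → g • a = a →
      LkC ar Co s n (g • n) → ¬ Neg ar a g)

theorem Weak.weakA {ar : V → V → Prop} {Co : V → V → V → Prop} {s : V} (h : Weak H ar Co s) :
    WeakA H ar Co s := by
  obtain ⟨h1, a, b, h2, h3, h4, h5, h6, h7⟩ := h
  exact ⟨h1, a, b, h2, h3, h4, h5, h6, fun n g hn _ => h7 n g hn⟩

theorem WeakA.weak {ar : V → V → Prop} {Co : V → V → V → Prop} {s : V} (h : WeakA H ar Co s)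
    (hat : ∀ n, ar n s → Att ar Co s n) : Weak H ar Co s := by
  obtain ⟨h1, a, b, h2, h3, h4, h5, h6, h7⟩ := h
  exact ⟨h1, a, b, h2, h3, h4, h5, h6, fun n g hn => h7 n g hn (hat n hn)⟩

/-- a property closed under the corners is the same on a piece -/
theorem LkC.closed {ar : V → V → Prop} {Co : V → V → V → Prop} {s : V} {P : V → Prop}
    (hP : ∀ x y, ar x s → ar y s → Co x s y → (P x ↔ P y)) {n m : V} (h : LkC ar Co s n m) :
    P n ↔ P m := by
  unfold LkC at h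
  induction h with
  | rel x y h => exact hP _ _ h.1 h.2.1 h.2.2
  | refl x => exact Iff.rfl
  | symm x y _ ih => exact ih.symm
  | trans x y z _ _ ih1 ih2 => exact ih1.trans ih2

end Weak

/-! ### fat and weak softs of a complex -/

namespace GX

variable {H V : Type} [Group H] [MulAction H V] (K : GX H V)

/-- at least two corner orbits at a pole -/
def Fat (v : V) : Prop := ∃ a, K.ar v a ∧ 2 ≤ K.cr.lam H v a

/-- the fat light special softs -/
def sFat : Set V := {v | K.Spc v ∧ Finite ↥(stabilizer H v) ∧ K.Fat v}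

/-- the weak light softs -/
def sNu : Set V := {v | WeakA H K.ar K.Cor v}

/-- `N_fat` -/
noncomputable def nFat : ℕ := oc H K.sFat

/-- `ν` -/
noncomputable def nNu : ℕ := oc H K.sNu

variable {K}

theorem Fat.smul (h : H) {v : V} (hv : K.Fat v) : K.Fat (h • v) := by
  obtain ⟨a, ha, h2⟩ := hv
  exact ⟨h • a, K.ar_smul h _ _ ha, by rw [K.cr.lam_smul]; exact h2⟩

/-- for a special soft `λ` is the same at the poles -/
theorem Spc.lam_eq {v a b : V} (hs : K.Spc v) (ha : K.ar v a) (hb : K.ar v b) :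
    K.cr.lam H v a = K.cr.lam H v b := by
  by_cases hne : a = b
  · rw [hne]
  · obtain ⟨h, h1, h2, -⟩ := Spc.swap hs ha hb hne
    exact K.cr.lam_congr ⟨h, h1.symm, h2.symm⟩

theorem weakA_sft {v : V} (h : WeakA H K.ar K.Cor v) : K.Sft v := by
  obtain ⟨_, a, b, hne, ha, hb, _⟩ := h
  exact ⟨a, b, ha, hb, hne⟩

variable (K)

theorem nFat_le_nW : K.nFat ≤ K.nW := oc_mono (K.fo _) fun _ h => ⟨h.1, h.2.1⟩

theorem nNu_le_UW : K.nNu ≤ K.nU + K.nW := by
  have h : K.sNu ⊆ K.sU ∪ K.sW := by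
    intro v hv
    have h1 := weakA_sft (K := K) hv
    by_cases hs : K.Spc v
    · exact Or.inr ⟨hs, hv.1⟩
    · exact Or.inl ⟨h1, hs, hv.1⟩
  refine (oc_mono (K.fo _) h).trans ?_
  unfold oc
  have e : orbs H (K.sU ∪ K.sW) = orbs H K.sU ∪ orbs H K.sW := Set.image_union _ _ _
  rw [e]
  exact Set.ncard_union_le _ _

variable {K}

/-- if the link of `s` is connected then every piece of `s` has a corner at a pole -/
theorem att_of_LC {s n : V} (hl : K.LC s) (hs : ∃ a, K.ar s a) (hn : K.ar n s) :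
    Att K.ar K.Cor s n := by
  by_contra hcon
  obtain ⟨a, ha⟩ := hs
  have key : ∀ x y, K.LJ s x y → ((LkC K.ar K.Cor s n x ∧ K.ar x s) ↔
      (LkC K.ar K.Cor s n y ∧ K.ar y s)) := by
    intro x y h
    unfold LJ at h
    induction h with
    | rel x y h =>
      have one : ∀ x y, K.Cor x s y → (LkC K.ar K.Cor s n x ∧ K.ar x s) →
          (LkC K.ar K.Cor s n y ∧ K.ar y s) := by
        rintro x y h ⟨h1, h2⟩
        rcases h.E2 with h3 | h3
        · exact absurd ⟨x, y, h1, h3, h⟩ hcon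
        · exact ⟨Relation.EqvGen.trans _ _ _ h1 (Relation.EqvGen.rel _ _ ⟨h2, h3, h⟩), h3⟩
      exact ⟨one _ _ h, one _ _ h.symm⟩
    | refl x => exact Iff.rfl
    | symm x y _ ih => exact ih.symm
    | trans x y z _ _ ih1 ih2 => exact ih1.trans ih2
  have h1 := (key n a (hl n a (Or.inr hn) (Or.inl ha))).1 ⟨Relation.EqvGen.refl _, hn⟩
  have h2 := K.ar_rk _ _ h1.2
  have h3 := K.ar_rk _ _ ha
  omega

theorem weakA_iff {s : V} (hl : K.LC s) : WeakA H K.ar K.Cor s ↔ Weak H K.ar K.Cor s := by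
  refine ⟨fun h => h.weak fun n hn => att_of_LC hl ?_ hn, fun h => h.weakA⟩
  obtain ⟨a, _, ha, _, _⟩ := weakA_sft (K := K) h
  exact ⟨a, ha⟩

end GX

/-! ### consecutive vertices and positions -/

theorem Wk_self {V : Type} (x : V) (l : List V) : Wk (fun a b => Cn2 a b x l) x l := by
  induction l generalizing x with
  | nil => trivial
  | cons y l ih => exact ⟨Or.inl ⟨rfl, rfl⟩, (ih y).mono fun _ _ h => Or.inr h⟩

theorem GX.vx_cn2 {H V : Type} [Group H] [MulAction H V] (K : GX H V) (i : K.I) {j : ℕ}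
    (h : j < K.len i) : Cn2 (K.vx i j) (K.vx i (j + 1)) (K.cb i) (K.cw i) := by
  rw [K.vx_of_le h.le, K.vx_of_le h]
  exact Wk_get (Wk_self _ _) j h

namespace SubGX

variable {H' V' H V : Type} [Group H'] [MulAction H' V'] [Group H] [MulAction H V]
  {K' : GX H' V'} {K : GX H V}

theorem len_eq (S : SubGX K' K) (i : K'.I) : K'.len i = K.len (S.ι i) := S.cw_length i

theorem getD_of_map {A B C : Type} {F : A → C} {G : B → C} {l : List A} {m : List B} {d : A} {e : B}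
    (h : l.map F = m.map G) (hd : F d = G e) (n : ℕ) : F (l.getD n d) = G (m.getD n e) := by
  rw [← List.getD_map (f := F), ← List.getD_map (f := G), h, hd]

/-- the vertices of the translates of cells correspond -/
theorem vx_f' (S : SubGX K' K) {i : K'.I} {k : H'} {h : H} (e1 : S.f (K'.tb i k) = K.tb (S.ι i) h)
    (e2 : (K'.tw i k).map S.f = K.tw (S.ι i) h) (j : ℕ) :
    S.f (k • K'.vx i j) = h • K.vx (S.ι i) j := by
  unfold GX.vx
  rw [S.len_eq]
  refine getD_of_map (F := fun z : V' => S.f (k • z)) (G := fun z : V => h • z) ?_ e1 _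
  rw [List.map_cons, List.map_cons]
  unfold GX.tw at e2
  rw [List.map_map] at e2
  exact congrArg₂ List.cons e1 e2

/-- the vertices of the cells correspond -/
theorem vx_f (S : SubGX K' K) (i : K'.I) : ∃ h : H, ∀ j, S.f (K'.vx i j) = h • K.vx (S.ι i) j := by
  obtain ⟨h, hh⟩ := S.tb_f i
  refine ⟨S.φ 1 * h, fun j => ?_⟩
  have := S.vx_f' (hh 1).1 (hh 1).2 j
  rwa [one_smul] at this

/-- the positions of the part -/
def pos (S : SubGX K' K) (p : K'.Pos) : K.Pos := ⟨S.ι p.1, ⟨p.2, by rw [← S.len_eq]; exact p.2.2⟩⟩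

theorem pos_inj (S : SubGX K' K) : Function.Injective S.pos := by
  rintro ⟨i, j⟩ ⟨i', j'⟩ e
  have e1 : S.ι i = S.ι i' := congrArg Sigma.fst e
  obtain rfl := S.ι_inj e1
  have e2 : (S.pos ⟨i, j⟩).2 = (S.pos ⟨i, j'⟩).2 := eq_of_heq (Sigma.mk.inj_iff.1 e).2
  have e3 : ((S.pos ⟨i, j⟩).2 : ℕ) = (S.pos ⟨i, j'⟩).2 := by rw [e2]
  have e4 : (j : ℕ) = j' := e3
  rw [Fin.ext e4]

/-- `λ` of an edge of the part is the same -/
theorem lam_eq (S : SubGX K' K) {v a : V'} (e : K'.E v a) :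
    K'.cr.lam H' v a = K.cr.lam H (S.f v) (S.f a) := by
  classical
  apply le_antisymm
  · refine K'.cr.cn_le_of_inj K.cr S.pos (fun p q _ _ h => S.pos_inj h) ?_
    intro p hp
    obtain ⟨h, hh⟩ := S.vx_f p.1
    have key : ∀ x y, Tr H' x y (K'.vx p.1 p.2) (K'.vx p.1 (p.2 + 1)) →
        Tr H (S.f x) (S.f y) (K.vx (S.ι p.1) p.2) (K.vx (S.ι p.1) (p.2 + 1)) := by
      rintro x y ⟨k, h1, h2⟩
      refine ⟨h⁻¹ * S.φ k, ?_, ?_⟩
      · rw [mul_smul, ← S.f_smul, ← h1, hh, inv_smul_smul]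
      · rw [mul_smul, ← S.f_smul, ← h2, hh, inv_smul_smul]
    exact hp.imp (key v a) (key a v)
  · -- every position of `K` comes from a position of the part
    have key : ∀ p : K.Pos, (Tr H (S.f v) (S.f a) (K.vx p.1 p.2) (K.vx p.1 (p.2 + 1)) ∨
        Tr H (S.f a) (S.f v) (K.vx p.1 p.2) (K.vx p.1 (p.2 + 1))) →
        ∃ q : K'.Pos, S.pos q = p ∧ (Tr H' v a (K'.vx q.1 q.2) (K'.vx q.1 (q.2 + 1)) ∨
          Tr H' a v (K'.vx q.1 q.2) (K'.vx q.1 (q.2 + 1))) := by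
      have one : ∀ (x y : V'), K'.E x y → ∀ p : K.Pos,
          Tr H (S.f x) (S.f y) (K.vx p.1 p.2) (K.vx p.1 (p.2 + 1)) →
          ∃ q : K'.Pos, S.pos q = p ∧ Tr H' x y (K'.vx q.1 q.2) (K'.vx q.1 (q.2 + 1)) := by
        rintro x y exy ⟨i, j⟩ ⟨k, h1, h2⟩
        have h3 := (K.vx_cn2 i j.2).map (fun z => k⁻¹ • z)
        have h1' : K.vx i j = k • S.f x := h1
        have h2' : K.vx i (j + 1) = k • S.f y := h2
        rw [h1', h2'] at h3
        simp only [inv_smul_smul] at h3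
        obtain ⟨i', h', rfl, h4, h5⟩ := S.back i k⁻¹ x y exy h3
        have hj : (j : ℕ) < K'.len i' := by rw [S.len_eq]; exact j.2
        have h6 : ∀ (n : ℕ) (z : V'), K.vx (S.ι i') n = k • S.f z → K'.vx i' n = h'⁻¹ • z := by
          intro n z hz
          have h7 := S.vx_f' h4 h5 n
          rw [hz, inv_smul_smul] at h7
          rw [← S.f_inj h7, inv_smul_smul]
        exact ⟨⟨i', ⟨j, hj⟩⟩, rfl, h'⁻¹, h6 _ _ h1', h6 _ _ h2'⟩
      rintro p (h | h)
      · obtain ⟨q, h1, h2⟩ := one v a e p h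
        exact ⟨q, h1, Or.inl h2⟩
      · obtain ⟨q, h1, h2⟩ := one a v e.symm p h
        exact ⟨q, h1, Or.inr h2⟩
    rw [Cr.lam, Cr.lam, Cr.cn_nat, Cr.cn_nat]
    choose g hg1 hg2 using fun p : {p : K.cr.P // Tr H (S.f v) (S.f a) (K.cr.v0 p) (K.cr.v1 p) ∨
      Tr H (S.f a) (S.f v) (K.cr.v0 p) (K.cr.v1 p)} => key p.1 p.2
    exact Nat.card_le_card_of_injective
      (fun p => (⟨g p, hg2 p⟩ : {q : K'.cr.P // Tr H' v a (K'.cr.v0 q) (K'.cr.v1 q) ∨
        Tr H' a v (K'.cr.v0 q) (K'.cr.v1 q)}))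
      (fun p q e => by
        have e' : g p = g q := congrArg Subtype.val e
        exact Subtype.ext ((hg1 p).symm.trans ((congrArg S.pos e').trans (hg1 q))))

/-- the softs of a part are fat in the part if they are fat -/
theorem fat_iff (S : SubGX K' K) {v : V'} (hv : K'.Spc v) : K'.Fat v ↔ K.Fat (S.f v) := by
  constructor
  · rintro ⟨a, ha, h⟩
    exact ⟨S.f a, (S.ar_iff _ _).1 ha, by rwa [← S.lam_eq (Or.inl ha)]⟩
  · rintro ⟨c, hc, h⟩
    obtain ⟨a, _, ha, _, _⟩ := hv.sft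
    refine ⟨a, ha, ?_⟩
    rw [S.lam_eq (Or.inl ha), ((S.spc_iff hv.sft).1 hv).lam_eq ((S.ar_iff _ _).1 ha) hc]
    exact h

/-- `N_fat` does not increase -/
theorem nFat_le (S : SubGX K' K) : K'.nFat ≤ K.nFat := by
  refine oc_le_of_inj (K.fo _) S.f ?_ ?_
  · rintro v ⟨h1, h2, h3⟩
    exact ⟨(S.spc_iff h1.sft).1 h1, (S.soft_fin h1.sft).1 h2, (S.fat_iff h1).1 h3⟩
  · rintro v ⟨h1, _, _⟩ v' ⟨h1', _, _⟩ ⟨h, e⟩
    obtain ⟨k, _, hk⟩ := S.soft_back h1.sft h1'.sft e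
    exact ⟨k, hk⟩

/-- reversing elements of a part reverse -/
theorem rev_map (S : SubGX K' K) {J' : Subgroup H'} {J : Subgroup H} {k : H'}
    (hle : ∀ x ∈ J', S.φ x ∈ J) (h : Rev J' k) : Rev J (S.φ k) := by
  obtain ⟨h1, t, ht, h2, h3⟩ := h
  exact ⟨hle _ h1, S.φ t, hle _ ht, (io_map S.φ S.φ_inj).2 h2, by
    rw [← map_mul, ← map_inv, ← map_mul, h3, map_inv]⟩

/-- the characters of the vertices of a part: if `a` is reversed by some element of the part then
the elements of the part reverse `a` in the part iff they reverse it in the complex -/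
theorem neg_iff (S : SubGX K' K)
    (hh : ∀ v, (∃ b, K.ar v b) → Infinite ↥(stabilizer H v) → K.LC v) {a n : V'} (e : K'.E a n)
    (hx : ∃ g : H', Neg K'.ar a g) (k : H') : Neg K'.ar a k ↔ Neg K.ar (S.f a) (S.φ k) := by
  have hle : ∀ x ∈ stabilizer H' a, S.φ x ∈ stabilizer H (S.f a) := by
    intro x hx
    rw [mem_stabilizer_iff, ← S.f_smul, mem_stabilizer_iff.1 hx]
  -- a sink of the part with a reversing element is a sink
  have hsnk : (∀ b, ¬ K'.ar a b) → (∃ g, Rev (stabilizer H' a) g) → ∀ b, ¬ K.ar (S.f a) b := by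
    rintro h1 ⟨g, hg⟩ b hb
    have hd := DT.of_rev (K.stab (S.f a)) (S.rev_map hle hg)
    obtain ⟨b', h3, h4⟩ := S.nbr_of_LC (hh _ ⟨b, hb⟩ hd.2.1) e (Or.inl hb)
    apply h1 b'
    rw [S.ar_iff, h3]
    exact hb
  constructor
  · rintro ⟨h1, h2⟩
    refine ⟨by rw [← S.f_smul, h1], ?_⟩
    rcases h2 with ⟨h2, h3⟩ | ⟨p, q, hpq, hp, hq, h2⟩
    · exact Or.inl ⟨hsnk h2 ⟨k, h3⟩, S.rev_map hle h3⟩
    · exact Or.inr ⟨S.f p, S.f q, fun e => hpq (S.f_inj e), (S.ar_iff _ _).1 hp,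
        (S.ar_iff _ _).1 hq, by rw [← S.f_smul, h2]⟩
  · rintro ⟨h1, h2⟩
    have h1' : k • a = a := S.f_inj (by rw [S.f_smul]; exact h1)
    refine ⟨h1', ?_⟩
    obtain ⟨g, hg1, hg2⟩ := hx
    rcases hg2 with ⟨h3, h4⟩ | ⟨p', q', hpq', hp', hq', h4⟩
    · -- a sink
      have hK := hsnk h3 ⟨g, h4⟩
      rcases h2 with ⟨_, h5⟩ | ⟨p, q, _, hp, _, _⟩
      · refine Or.inl ⟨h3, ?_⟩
        let J'' : Subgroup H := (stabilizer H' a).map S.φ
        have hg'' : Rev J'' (S.φ g) := S.rev_map (fun x hx => Subgroup.mem_map_of_mem _ hx) h4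
        have hle'' : J'' ≤ stabilizer H (S.f a) := by
          rintro _ ⟨x, hx, rfl⟩
          exact hle x hx
        have hd := DT.of_rev (K.stab (S.f a)) (hg''.mono hle'')
        have hd'' : DT J'' := DT.of_rev (SAG.InC.mono hle'' (K.stab (S.f a))) hg''
        have h6 := rev_of_le hd'' hd hle'' (g := S.φ k) (Subgroup.mem_map_of_mem _ h1') h5
        obtain ⟨_, t, ⟨t', ht', rfl⟩, h7, h8⟩ := h6
        refine ⟨h1', t', ht', (io_map S.φ S.φ_inj).1 h7, S.φ_inj ?_⟩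
        rw [map_mul, map_mul, map_inv, map_inv]
        exact h8
      · exact absurd hp (hK p)
    · -- a soft
      have hp2 := (S.ar_iff _ _).1 hp'
      have hq2 := (S.ar_iff _ _).1 hq'
      have hne2 : S.f p' ≠ S.f q' := fun e => hpq' (S.f_inj e)
      rcases h2 with ⟨h5, _⟩ | ⟨p, q, hpq, hp, hq, h5⟩
      · exact absurd hp2 (h5 _)
      · refine Or.inr ?_
        rcases GX.Sft.cases hp2 hq2 hne2 hp with rfl | rfl
        · rcases GX.Sft.cases hp2 hq2 hne2 hq with rfl | rfl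
          · exact absurd rfl hpq
          · exact ⟨p', q', hpq', hp', hq', S.f_inj (by rw [S.f_smul]; exact h5)⟩
        · rcases GX.Sft.cases hp2 hq2 hne2 hq with rfl | rfl
          · exact ⟨q', p', hpq'.symm, hq', hp', S.f_inj (by rw [S.f_smul]; exact h5)⟩
          · exact absurd rfl hpq

/-- the pieces at a soft of the part which contain a vertex of the part -/
theorem lkC_back (S : SubGX K' K) {s : V'} {n m : V} (h : LkC K.ar K.Cor (S.f s) n m) :
    (∀ n', S.f n' = n → K'.ar n' s → ∃ m', S.f m' = m ∧ K'.ar m' s ∧ LkC K'.ar K'.Cor s n' m') ∧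
    ∀ m', S.f m' = m → K'.ar m' s → ∃ n', S.f n' = n ∧ K'.ar n' s ∧ LkC K'.ar K'.Cor s n' m' := by
  unfold LkC at h
  induction h with
  | rel x y h =>
    have one : ∀ x y, LkR K.ar K.Cor (S.f s) x y → ∀ x', S.f x' = x → K'.ar x' s →
        ∃ y', S.f y' = y ∧ K'.ar y' s ∧ LkC K'.ar K'.Cor s x' y' := by
      rintro x y ⟨_, h2, h3⟩ x' rfl hx
      obtain ⟨y', rfl, hc⟩ := S.corner_back (Or.inr hx) h3
      have hy : K'.ar y' s := (S.ar_iff _ _).2 h2
      exact ⟨y', rfl, hy, Relation.EqvGen.rel _ _ ⟨hx, hy, hc⟩⟩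
    refine ⟨one x y h, fun y' hy' hy => ?_⟩
    obtain ⟨x', h1, h2, h3⟩ := one y x ⟨h.2.1, h.1, h.2.2.symm⟩ y' hy' hy
    exact ⟨x', h1, h2, Relation.EqvGen.symm _ _ h3⟩
  | refl x => exact ⟨fun n' h1 h2 => ⟨n', h1, h2, Relation.EqvGen.refl _⟩,
      fun n' h1 h2 => ⟨n', h1, h2, Relation.EqvGen.refl _⟩⟩
  | symm x y _ ih =>
    refine ⟨fun n' h1 h2 => ?_, fun n' h1 h2 => ?_⟩
    · obtain ⟨m', h3, h4, h5⟩ := ih.2 n' h1 h2
      exact ⟨m', h3, h4, Relation.EqvGen.symm _ _ h5⟩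
    · obtain ⟨m', h3, h4, h5⟩ := ih.1 n' h1 h2
      exact ⟨m', h3, h4, Relation.EqvGen.symm _ _ h5⟩
  | trans x y z _ _ ih1 ih2 =>
    refine ⟨fun n' h1 h2 => ?_, fun n' h1 h2 => ?_⟩
    · obtain ⟨m', h3, h4, h5⟩ := ih1.1 n' h1 h2
      obtain ⟨l', h6, h7, h8⟩ := ih2.1 m' h3 h4
      exact ⟨l', h6, h7, Relation.EqvGen.trans _ _ _ h5 h8⟩
    · obtain ⟨m', h3, h4, h5⟩ := ih2.2 n' h1 h2
      obtain ⟨l', h6, h7, h8⟩ := ih1.2 m' h3 h4
      exact ⟨l', h6, h7, Relation.EqvGen.trans _ _ _ h8 h5⟩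

/-- attached pieces at a soft of the part belong to the part -/
theorem att_back (S : SubGX K' K) {s : V'} (hs : K'.Sft s) {n : V} (hn : K.ar n (S.f s))
    (h : Att K.ar K.Cor (S.f s) n) : ∃ n', S.f n' = n ∧ K'.ar n' s ∧ Att K'.ar K'.Cor s n' := by
  obtain ⟨m, c, h1, h2, h3⟩ := h
  obtain ⟨a, b, ha, hb, hne⟩ := hs
  have h4 : ∃ c', S.f c' = c ∧ K'.ar s c' := by
    rcases GX.Sft.cases ((S.ar_iff _ _).1 ha) ((S.ar_iff _ _).1 hb)
      (fun e => hne (S.f_inj e)) h2 with rfl | rfl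
    · exact ⟨a, rfl, ha⟩
    · exact ⟨b, rfl, hb⟩
  obtain ⟨c', rfl, hc'⟩ := h4
  obtain ⟨m', rfl, hm'⟩ := S.corner_back (Or.inl hc') h3.symm
  have hm2 : K.ar (S.f m') (S.f s) := (LkC.closed (P := fun x => K.ar x (S.f s))
    (fun x y hx hy _ => ⟨fun _ => hy, fun _ => hx⟩) h1).1 hn
  obtain ⟨n', h5, h6, h7⟩ := (S.lkC_back h1).2 m' rfl ((S.ar_iff _ _).2 hm2)
  exact ⟨n', h5, h6, m', c', h7, hc', hm'.symm⟩

/-- a weak soft of the part is weak -/
theorem weakA (S : SubGX K' K)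
    (hh : ∀ v, (∃ b, K.ar v b) → Infinite ↥(stabilizer H v) → K.LC v) {s : V'}
    (h : WeakA H' K'.ar K'.Cor s) : WeakA H K.ar K.Cor (S.f s) := by
  have hs := GX.weakA_sft (K := K') h
  obtain ⟨h1, a, b, h2, h3, h4, h5, ⟨g0, h6, h7, h8⟩, h9⟩ := h
  have hxa : ∃ g : H', Neg K'.ar a g := ⟨g0, h8⟩
  have hxb : ∃ g : H', Neg K'.ar b g := ⟨g0, (h5 g0 h6 h7).1 h8⟩
  have ea : K'.E a s := Or.inr h3
  have eb : K'.E b s := Or.inr h4
  refine ⟨(S.soft_fin hs).1 h1, S.f a, S.f b, fun e => h2 (S.f_inj e), (S.ar_iff _ _).1 h3,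
    (S.ar_iff _ _).1 h4, ?_, ?_, ?_⟩
  · intro g e1 e2
    obtain ⟨k, rfl, hk⟩ := S.soft_back hs hs e1
    have hka : k • a = a := S.f_inj (by rw [S.f_smul]; exact e2)
    rw [← S.neg_iff hh ea hxa, ← S.neg_iff hh eb hxb]
    exact h5 k hk hka
  · exact ⟨S.φ g0, by rw [← S.f_smul, h6], by rw [← S.f_smul, h7], (S.neg_iff hh ea hxa g0).1 h8⟩
  · intro n g hn hat e1 e2 hl
    obtain ⟨k, rfl, hk⟩ := S.soft_back hs hs e1
    have hka : k • a = a := S.f_inj (by rw [S.f_smul]; exact e2)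
    obtain ⟨n', rfl, hn', hat'⟩ := S.att_back hs hn hat
    obtain ⟨m', hm1, _, hm2⟩ := (S.lkC_back hl).1 n' rfl hn'
    have hm3 : m' = k • n' := S.f_inj (by rw [hm1, S.f_smul])
    rw [hm3] at hm2
    rw [← S.neg_iff hh ea hxa]
    exact h9 n' k hn' hat' hk hka hm2

/-- `ν` does not increase, if the heavy vertices with an out-arrow have a connected link -/
theorem nNu_le (S : SubGX K' K)
    (hh : ∀ v, (∃ b, K.ar v b) → Infinite ↥(stabilizer H v) → K.LC v) : K'.nNu ≤ K.nNu := by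
  refine oc_le_of_inj (K.fo _) S.f (fun v hv => S.weakA hh hv) ?_
  rintro v hv v' hv' ⟨h, e⟩
  obtain ⟨k, _, hk⟩ := S.soft_back (GX.weakA_sft (K := K') hv) (GX.weakA_sft (K := K') hv') e
  exact ⟨k, hk⟩

end SubGX

end Pool.Agent.DI
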