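import Pool.Agent.DI.SqF
import Pool.Agent.DI.QSys

/-!
# DI/SqFb: partial folds of squares, pentagons and squares of the fold

`D.Flat`: no partner is folded and no arrow joins two folded vertices (true for one orbit of tops,
`SqF.one`). Then no edge collapses, the fold is a complex of pentagons and squares (`Flat.P45`) and its
pentagons and squares are the images of those of `K` (`Flat.Qn_iff`, `Flat.Q4_iff`).
-/

namespace Pool.Agent.DI

open MulAction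
open Pool.Agent.SAF (InC orbs FinOrb oc)
open Pool.Agent.BT (HG Mg lz lz_self lz_ne lz_symm)

variable {H V : Type} [Group H] [MulAction H V]

namespace SqF

variable {K : GX H V} (D : SqF K)

/-- no partner is folded, no arrow joins two folded vertices -/
structure Flat : Prop where
  np : ∀ x, D.O x → ¬ D.O (D.ρ x)
  na : ∀ x a, D.O x → K.ar x a → ¬ D.O a

variable {D}

theorem Flat.f_O (hF : D.Flat) {x : V} (hx : D.O x) : D.f x = D.ρ x := by
  rw [D.f_O hx, D.f_not (hF.np x hx)]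

/-- no edge collapses -/
theorem Flat.f_ne (hF : D.Flat) {x y : V} (e : K.E x y) : D.f x ≠ D.f y := by
  have key : ∀ x y, K.ar x y → D.f x ≠ D.f y := by
    intro x y e h
    by_cases hx : D.O x
    · have hy := hF.na x y hx e
      rw [hF.f_O hx, D.f_not hy] at h
      have h1 := D.ρ_E x y hx e
      rw [h] at h1
      exact K.E_irr _ h1
    · rw [D.f_not hx] at h
      have h1 := D.rk_f y
      rw [← h] at h1
      have h2 := K.ar_rk _ _ e
      omega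
  rcases e with e | e
  · exact key x y e
  · exact (key y x e).symm

theorem Flat.F_ne (hF : D.Flat) {x y : V} (e : K.E x y) : D.F x ≠ D.F y := fun h =>
  hF.f_ne e (D.F_eq.1 h)

theorem Flat.E' (hF : D.Flat) {x y : V} (e : K.E x y) : D.gx.E (D.F x) (D.F y) :=
  (D.e1 e).resolve_left (hF.F_ne e)

/-- pentagons are kept -/
theorem Flat.not_Bt5 (hF : D.Flat) (P : P45 K) {i : K.I} (hi : ¬ P.sq i) : ¬ D.Bt i := by
  intro h
  have h1 := h (fun _ _ => 1) (fun _ _ => rfl)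
  have h2 : ∀ j : Fin 5, lz (fun _ _ => (1 : ZMod 2)) (D.F (P.pt i j)) (D.F (P.pt i (j + 1))) = 1 :=
    fun j => lz_ne _ (hF.F_ne (P.E5 hi j))
  rw [P.cb5 i hi, P.cw5 i hi] at h1
  simp only [List.map_cons, List.map_nil, ps_cons, ps_nil, add_zero] at h1
  have g0 := h2 0
  have g1 := h2 1
  have g2 := h2 2
  have g3 := h2 3
  have g4 := h2 4
  have e0 : (0 + 1 : Fin 5) = 1 := rfl
  have e1 : (1 + 1 : Fin 5) = 2 := rfl
  have e2 : (2 + 1 : Fin 5) = 3 := rfl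
  have e3 : (3 + 1 : Fin 5) = 4 := rfl
  have e4 : (4 + 1 : Fin 5) = 0 := rfl
  rw [e0] at g0
  rw [e1] at g1
  rw [e2] at g2
  rw [e3] at g3
  rw [e4] at g4
  rw [g0, g1, g2, g3, g4] at h1
  exact absurd h1 (by decide)

/-- a square is dropped iff two opposite vertices become equal -/
theorem Flat.Bt4_iff (hF : D.Flat) (P : P45 K) {i : K.I} (hi : P.sq i) : D.Bt i ↔
    (D.F (P.qt i 0) = D.F (P.qt i 2) ∨ D.F (P.qt i 1) = D.F (P.qt i 3)) := by
  have n0 : D.F (P.qt i 0) ≠ D.F (P.qt i 1) := hF.F_ne (P.E4 hi 0)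
  have n1 : D.F (P.qt i 1) ≠ D.F (P.qt i 2) := hF.F_ne (P.E4 hi 1)
  have n2 : D.F (P.qt i 2) ≠ D.F (P.qt i 3) := hF.F_ne (P.E4 hi 2)
  have n3 : D.F (P.qt i 3) ≠ D.F (P.qt i 0) := hF.F_ne (P.E4 hi 3)
  unfold Bt
  rw [P.cb4 i hi, P.cw4 i hi]
  simp only [List.map_cons, List.map_nil, ps_cons, ps_nil, add_zero]
  constructor
  · intro h
    by_contra hne
    push Not at hne
    obtain ⟨m0, m1⟩ := hne
    classical
    let φ : D.W → D.W → ZMod 2 := fun a b =>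
      if (a = D.F (P.qt i 0) ∧ b = D.F (P.qt i 1)) ∨ (b = D.F (P.qt i 0) ∧ a = D.F (P.qt i 1)) then 1
      else 0
    have h1 := h φ (fun a b => by
      show (if _ then _ else _) = (if _ then _ else _)
      refine if_congr ?_ rfl rfl
      exact or_comm)
    rw [lz_ne _ n0, lz_ne _ n1, lz_ne _ n2, lz_ne _ n3] at h1
    have f0 : φ (D.F (P.qt i 0)) (D.F (P.qt i 1)) = 1 := if_pos (Or.inl ⟨rfl, rfl⟩)
    have f1 : φ (D.F (P.qt i 1)) (D.F (P.qt i 2)) = 0 := if_neg (by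
      rintro (⟨e, -⟩ | ⟨e, -⟩)
      · exact n0 e.symm
      · exact m0 e.symm)
    have f2 : φ (D.F (P.qt i 2)) (D.F (P.qt i 3)) = 0 := if_neg (by
      rintro (⟨e, -⟩ | ⟨-, e⟩)
      · exact m0 e.symm
      · exact n1 e.symm)
    have f3 : φ (D.F (P.qt i 3)) (D.F (P.qt i 0)) = 0 := if_neg (by
      rintro (⟨e, -⟩ | ⟨-, e⟩)
      · exact n3 e
      · exact m1 e.symm)
    rw [f0, f1, f2, f3] at h1
    exact absurd h1 (by decide)
  · rintro (e | e) φ hs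
    · rw [← e, lz_symm φ hs (D.F (P.qt i 1)) (D.F (P.qt i 0)),
        lz_symm φ hs (D.F (P.qt i 3)) (D.F (P.qt i 0)), ← add_assoc,
        CharTwo.add_self_eq_zero, zero_add, CharTwo.add_self_eq_zero]
    · rw [← e, lz_symm φ hs (D.F (P.qt i 2)) (D.F (P.qt i 1)),
        lz_symm φ hs (D.F (P.qt i 1)) (D.F (P.qt i 0))]
      have := CharTwo.add_self_eq_zero (lz φ (D.F (P.qt i 1)) (D.F (P.qt i 2)))
      have k2 := CharTwo.add_self_eq_zero (lz φ (D.F (P.qt i 0)) (D.F (P.qt i 1)))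
      linear_combination this + k2

/-- the pentagons and squares of the fold -/
noncomputable def Flat.P45 (hF : D.Flat) (P : P45 K) : P45 D.gx where
  sq j := P.sq j.1
  pt j k := D.F (P.pt j.1 k)
  qt j k := D.F (P.qt j.1 k)
  cb5 j hj := by
    show D.F (K.cb j.1) = _
    rw [P.cb5 _ hj]
  cw5 j hj := by
    show dst (D.F (K.cb j.1)) ((K.cw j.1).map D.F) = _
    have n0 : D.F (P.pt j.1 1) ≠ D.F (P.pt j.1 0) := (hF.F_ne (P.E5 hj 0)).symm
    have n1 : D.F (P.pt j.1 2) ≠ D.F (P.pt j.1 1) := (hF.F_ne (P.E5 hj 1)).symm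
    have n2 : D.F (P.pt j.1 3) ≠ D.F (P.pt j.1 2) := (hF.F_ne (P.E5 hj 2)).symm
    have n3 : D.F (P.pt j.1 4) ≠ D.F (P.pt j.1 3) := (hF.F_ne (P.E5 hj 3)).symm
    have n4 : D.F (P.pt j.1 0) ≠ D.F (P.pt j.1 4) := (hF.F_ne (P.E5 hj 4)).symm
    rw [P.cb5 _ hj, P.cw5 _ hj]
    simp only [List.map_cons, List.map_nil]
    rw [dst_cons_ne n0, dst_cons_ne n1, dst_cons_ne n2, dst_cons_ne n3, dst_cons_ne n4, dst_nil]
  cb4 j hj := by
    show D.F (K.cb j.1) = _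
    rw [P.cb4 _ hj]
  cw4 j hj := by
    show dst (D.F (K.cb j.1)) ((K.cw j.1).map D.F) = _
    have n0 : D.F (P.qt j.1 1) ≠ D.F (P.qt j.1 0) := (hF.F_ne (P.E4 hj 0)).symm
    have n1 : D.F (P.qt j.1 2) ≠ D.F (P.qt j.1 1) := (hF.F_ne (P.E4 hj 1)).symm
    have n2 : D.F (P.qt j.1 3) ≠ D.F (P.qt j.1 2) := (hF.F_ne (P.E4 hj 2)).symm
    have n3 : D.F (P.qt j.1 0) ≠ D.F (P.qt j.1 3) := (hF.F_ne (P.E4 hj 3)).symm
    rw [P.cb4 _ hj, P.cw4 _ hj]
    simp only [List.map_cons, List.map_nil]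
    rw [dst_cons_ne n0, dst_cons_ne n1, dst_cons_ne n2, dst_cons_ne n3, dst_nil]

theorem Flat.P45_sq (hF : D.Flat) (P : Pool.Agent.DI.P45 K) (j : D.gx.I) :
    (hF.P45 P).sq j ↔ P.sq j.1 := Iff.rfl

theorem Flat.P45_pt (hF : D.Flat) (P : Pool.Agent.DI.P45 K) (j : D.gx.I) (k : Fin 5) :
    (hF.P45 P).pt j k = D.F (P.pt j.1 k) := rfl

theorem Flat.P45_qt (hF : D.Flat) (P : Pool.Agent.DI.P45 K) (j : D.gx.I) (k : Fin 4) :
    (hF.P45 P).qt j k = D.F (P.qt j.1 k) := rfl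

/-- the pentagons of the fold are the images of the pentagons -/
theorem Flat.Qn_iff (hF : D.Flat) (P : Pool.Agent.DI.P45 K) {a q b y z : D.W} :
    Qn (hF.P45 P) a q b y z ↔ ∃ a' q' b' y' z', Qn P a' q' b' y' z' ∧ D.F a' = a ∧ D.F q' = q ∧
      D.F b' = b ∧ D.F y' = y ∧ D.F z' = z := by
  constructor
  · rintro ⟨h, i, j, hi, ⟨rfl, rfl, rfl, rfl, rfl⟩ | ⟨rfl, rfl, rfl, rfl, rfl⟩⟩
    · exact ⟨_, _, _, _, _, ⟨h, i.1, j, hi, Or.inl ⟨rfl, rfl, rfl, rfl, rfl⟩⟩, D.F_smul _ _,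
        D.F_smul _ _, D.F_smul _ _, D.F_smul _ _, D.F_smul _ _⟩
    · exact ⟨_, _, _, _, _, ⟨h, i.1, j, hi, Or.inr ⟨rfl, rfl, rfl, rfl, rfl⟩⟩, D.F_smul _ _,
        D.F_smul _ _, D.F_smul _ _, D.F_smul _ _, D.F_smul _ _⟩
  · rintro ⟨_, _, _, _, _, ⟨h, i, j, hi, ⟨rfl, rfl, rfl, rfl, rfl⟩ | ⟨rfl, rfl, rfl, rfl, rfl⟩⟩,
      rfl, rfl, rfl, rfl, rfl⟩
    · exact ⟨h, ⟨i, hF.not_Bt5 P hi⟩, j, hi, Or.inl ⟨D.F_smul _ _,
        D.F_smul _ _, D.F_smul _ _, D.F_smul _ _, D.F_smul _ _⟩⟩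
    · exact ⟨h, ⟨i, hF.not_Bt5 P hi⟩, j, hi, Or.inr ⟨D.F_smul _ _,
        D.F_smul _ _, D.F_smul _ _, D.F_smul _ _, D.F_smul _ _⟩⟩

/-- opposite vertices of a kept square stay different -/
theorem Flat.opp_ne (hF : D.Flat) (P : Pool.Agent.DI.P45 K) {i : K.I} (hi : P.sq i)
    (hB : ¬ D.Bt i) (j : Fin 4) : D.F (P.qt i j) ≠ D.F (P.qt i (j + 2)) := by
  rw [hF.Bt4_iff P hi] at hB
  push Not at hB
  fin_cases j
  · exact hB.1
  · exact hB.2
  · exact hB.1.symm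
  · exact hB.2.symm

theorem Flat.not_Bt4 (hF : D.Flat) (P : Pool.Agent.DI.P45 K) {i : K.I} (hi : P.sq i) (j : Fin 4)
    (h0 : D.F (P.qt i j) ≠ D.F (P.qt i (j + 2)))
    (h1 : D.F (P.qt i (j + 1)) ≠ D.F (P.qt i (j + 3))) : ¬ D.Bt i := by
  rw [hF.Bt4_iff P hi]
  push Not
  fin_cases j
  · exact ⟨h0, h1⟩
  · exact ⟨h1.symm, h0⟩
  · exact ⟨h0.symm, h1.symm⟩
  · exact ⟨h1, h0.symm⟩

/-- the squares of the fold are the images of the squares without equal opposite vertices -/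
theorem Flat.Q4_iff (hF : D.Flat) (P : Pool.Agent.DI.P45 K) {a q b y : D.W} :
    Q4 (hF.P45 P) a q b y ↔ ∃ a' q' b' y', Q4 P a' q' b' y' ∧ D.F a' = a ∧ D.F q' = q ∧
      D.F b' = b ∧ D.F y' = y ∧ a ≠ b ∧ q ≠ y := by
  constructor
  · rintro ⟨h, i, j, hi, ⟨rfl, rfl, rfl, rfl⟩ | ⟨rfl, rfl, rfl, rfl⟩⟩
    · refine ⟨_, _, _, _, ⟨h, i.1, j, hi, Or.inl ⟨rfl, rfl, rfl, rfl⟩⟩, D.F_smul _ _,
        D.F_smul _ _, D.F_smul _ _, D.F_smul _ _, ?_, ?_⟩
      · exact fun k => hF.opp_ne P hi i.2 j (smul_left_cancel h k)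
      · have := hF.opp_ne P hi i.2 (j + 1)
        rw [show j + 1 + 2 = j + 3 by rw [add_assoc]; rfl] at this
        exact fun k => this (smul_left_cancel h k)
    · refine ⟨_, _, _, _, ⟨h, i.1, j, hi, Or.inr ⟨rfl, rfl, rfl, rfl⟩⟩, D.F_smul _ _,
        D.F_smul _ _, D.F_smul _ _, D.F_smul _ _, ?_, ?_⟩
      · exact fun k => hF.opp_ne P hi i.2 j (smul_left_cancel h k).symm
      · have := hF.opp_ne P hi i.2 (j + 1)
        rw [show j + 1 + 2 = j + 3 by rw [add_assoc]; rfl] at this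
        exact fun k => this (smul_left_cancel h k)
  · rintro ⟨_, _, _, _, ⟨h, i, j, hi, ⟨rfl, rfl, rfl, rfl⟩ | ⟨rfl, rfl, rfl, rfl⟩⟩,
      rfl, rfl, rfl, rfl, h0, h1⟩
    · refine ⟨h, ⟨i, hF.not_Bt4 P hi j ?_ ?_⟩, j, hi, Or.inl ⟨D.F_smul _ _,
        D.F_smul _ _, D.F_smul _ _, D.F_smul _ _⟩⟩
      · intro k
        rw [D.F_smul, D.F_smul, k] at h0
        exact h0 rfl
      · intro k
        rw [D.F_smul, D.F_smul, k] at h1
        exact h1 rfl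
    · refine ⟨h, ⟨i, hF.not_Bt4 P hi j ?_ ?_⟩, j, hi, Or.inr ⟨D.F_smul _ _,
        D.F_smul _ _, D.F_smul _ _, D.F_smul _ _⟩⟩
      · intro k
        rw [D.F_smul, D.F_smul, k] at h0
        exact h0 rfl
      · intro k
        rw [D.F_smul, D.F_smul, k] at h1
        exact h1 rfl

end SqF

/-! ### one orbit -/

/-- a top `T` with the partner `y` -/
structure Sq1 (K : GX H V) where
  T : V
  y : V
  rk : K.rk y < K.rk T
  E : ∀ a, K.ar T a → K.E y a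
  ex : ∃ a, K.ar T a
  fix : ∀ h : H, h • T = T → h • y = y

namespace Sq1

variable {K : GX H V} (D : Sq1 K)

/-- the folded orbit -/
def O (x : V) : Prop := ∃ h : H, x = h • D.T

open Classical in
noncomputable def ρ (x : V) : V := if e : D.O x then (Classical.choose e) • D.y else x

theorem ρ_eq (h : H) : D.ρ (h • D.T) = h • D.y := by
  have e : D.O (h • D.T) := ⟨h, rfl⟩
  unfold ρ
  rw [dif_pos e]
  have h1 := Classical.choose_spec e
  have h2 : (h⁻¹ * Classical.choose e) • D.T = D.T := by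
    rw [mul_smul, ← h1, inv_smul_smul]
  have h3 := D.fix _ h2
  rw [mul_smul, inv_smul_eq_iff] at h3
  exact h3

/-- the fold of one orbit of tops -/
noncomputable def toF : SqF K where
  O := D.O
  ρ := D.ρ
  O_smul := by
    rintro h _ ⟨k, rfl⟩
    exact ⟨h * k, (mul_smul h k _).symm⟩
  ρ_smul := by
    rintro h _ ⟨k, rfl⟩
    rw [D.ρ_eq, ← mul_smul, D.ρ_eq, mul_smul]
  ρ_rk := by
    rintro _ ⟨k, rfl⟩
    rw [D.ρ_eq, K.rk_smul, K.rk_smul]
    exact D.rk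
  ρ_E := by
    rintro _ a ⟨k, rfl⟩ e
    rw [D.ρ_eq]
    have h1 := K.ar_smul k⁻¹ _ _ e
    rw [inv_smul_smul] at h1
    have h2 := K.E_smul k (D.E _ h1)
    rwa [smul_inv_smul] at h2
  ρ_ex := by
    rintro _ ⟨k, rfl⟩
    obtain ⟨a, ha⟩ := D.ex
    exact ⟨k • a, K.ar_smul k _ _ ha⟩

theorem toF_O {x : V} : D.toF.O x ↔ ∃ h : H, x = h • D.T := Iff.rfl

theorem flat : D.toF.Flat where
  np := by
    rintro _ ⟨k, rfl⟩ ⟨l, e⟩
    have e' : D.ρ (k • D.T) = l • D.T := e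
    have h := congrArg K.rk e'
    rw [D.ρ_eq, K.rk_smul, K.rk_smul] at h
    have := D.rk
    omega
  na := by
    rintro _ _ ⟨k, rfl⟩ e ⟨l, rfl⟩
    have h := K.ar_rk _ _ e
    rw [K.rk_smul, K.rk_smul] at h
    omega

theorem f_T (h : H) : D.toF.f (h • D.T) = h • D.y := by
  rw [D.flat.f_O ⟨h, rfl⟩]
  exact D.ρ_eq h

theorem f_not {x : V} (hx : ∀ h : H, x ≠ h • D.T) : D.toF.f x = x :=
  D.toF.f_not (fun ⟨h, e⟩ => hx h e)

end Sq1

end Pool.Agent.DI
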