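import Pool.Agent.DI.CuS
import Pool.Agent.DI.SqFb
import Pool.Agent.DI.Short

/-!
# DI/PqA: preparations for the cut inequality with squares

`P.cc i w`: the sum of a weight over the corners of the cell `i` of `P : P45 K`. `P.eg i x y`: the cell
`i` passes a translate of the edge `x y`. HAIR (base): in a minimal complex a vertex `v` with the only
out-arrow `v → c` is joined to `c` in no pentagon. `P.Tp i j`: the vertex `j` of the square `i` is its
top; `P.Nt i`: the square is neutral. `Cm P`: THE CLASS for the inductions.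
-/

namespace Pool.Agent.DI

open MulAction
open Pool.Agent.SAF (InC orbs FinOrb oc)
open Pool.Agent.BT (PX)

variable {H V : Type} [Group H] [MulAction H V]

/-! ### pentagons and stutters -/

section

variable {V' : Type}

theorem stn_step (f : V → V') (x y : V) (l : List V) : stn f y l ≤ stn f x (y :: l) := by
  by_cases h : f y = f x
  · rw [stn_cons_eq h]
    omega
  · rw [stn_cons_ne h]

theorem stn_step' (f : V → V') {x y : V} (h : f y = f x) (l : List V) :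
    1 ≤ stn f x (y :: l) := by
  rw [stn_cons_eq h]
  omega

/-- a pentagon with a collapsed edge -/
theorem stn_five (f : V → V') (p : Fin 5 → V) (j : Fin 5) (h : f (p (j + 1)) = f (p j)) :
    1 ≤ stn f (p 0) [p 1, p 2, p 3, p 4, p 0] := by
  fin_cases j
  · exact stn_step' f h _
  · exact (stn_step' f h _).trans (stn_step _ _ _ _)
  · exact (stn_step' f h _).trans ((stn_step _ _ _ _).trans (stn_step _ _ _ _))
  · exact (stn_step' f h _).trans ((stn_step _ _ _ _).trans ((stn_step _ _ _ _).trans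
      (stn_step _ _ _ _)))
  · exact (stn_step' f h _).trans ((stn_step _ _ _ _).trans ((stn_step _ _ _ _).trans
      ((stn_step _ _ _ _).trans (stn_step _ _ _ _))))

end

/-- in a minimal complex a fold collapses no edge of a long cell -/
theorem Fo.stn_zero {K : GX H V} (F : Fo K) (hm : K.Min) {i : K.I} (hi : 4 < (K.cw i).length) :
    stn F.f (K.cb i) (K.cw i) = 0 := by
  classical
  have := K.finI
  let := Fintype.ofFinite K.I
  by_contra hne
  have h1 : K.area ≤ F.gx.area := hm _ _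
  rw [F.gx_area, K.area_eq] at h1
  have h2 : ∑ i : K.I, ((K.cw i).length - stn F.f (K.cb i) (K.cw i) - 4) <
      ∑ i : K.I, ((K.cw i).length - 4) :=
    Finset.sum_lt_sum (fun i _ => by omega) ⟨i, Finset.mem_univ _, by omega⟩
  omega

/-! ### folding a vertex with one out-arrow -/

/-- a vertex with one out-arrow -/
structure Har (K : GX H V) where
  v : V
  c : V
  vc : K.ar v c
  un : ∀ d, K.ar v d → d = c

namespace Har

variable {K : GX H V} (D : Har K)

theorem fix {h h' : H} (e : h • D.v = h' • D.v) : h • D.c = h' • D.c := by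
  have h1 : K.ar D.v ((h⁻¹ * h') • D.c) := by
    have := K.ar_smul (h⁻¹ * h') _ _ D.vc
    rwa [show (h⁻¹ * h') • D.v = D.v by rw [mul_smul, ← e, inv_smul_smul]] at this
  have h2 := D.un _ h1
  rw [mul_smul, inv_smul_eq_iff] at h2
  exact h2.symm

open Classical in
/-- the fold -/
noncomputable def f (x : V) : V := if e : ∃ h : H, x = h • D.v then e.choose • D.c else x

theorem f_v (h : H) : D.f (h • D.v) = h • D.c := by
  have e : ∃ h' : H, h • D.v = h' • D.v := ⟨h, rfl⟩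
  unfold f
  rw [dif_pos e]
  exact D.fix e.choose_spec.symm

theorem f_not {x : V} (h : ¬ ∃ h : H, x = h • D.v) : D.f x = x := by
  unfold f
  rw [dif_neg h]

theorem f_c (h : H) : D.f (h • D.c) = h • D.c := D.f_not (by
  rintro ⟨k, e⟩
  have h1 := congrArg K.rk e
  rw [K.rk_smul, K.rk_smul] at h1
  have := K.ar_rk _ _ D.vc
  omega)

/-- the fold -/
noncomputable def fo : Fo K where
  f := D.f
  f_smul h x := by
    by_cases e : ∃ k : H, x = k • D.v
    · obtain ⟨k, rfl⟩ := e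
      rw [D.f_v, ← mul_smul, D.f_v, mul_smul]
    · rw [D.f_not e, D.f_not]
      rintro ⟨k, e'⟩
      exact e ⟨h⁻¹ * k, by rw [mul_smul, ← e', inv_smul_smul]⟩
  idem x := by
    by_cases e : ∃ k : H, x = k • D.v
    · obtain ⟨k, rfl⟩ := e
      rw [D.f_v, D.f_c]
    · rw [D.f_not e, D.f_not e]
  f_ar x hx := by
    by_cases e : ∃ k : H, x = k • D.v
    · obtain ⟨k, rfl⟩ := e
      rw [D.f_v]
      exact K.ar_smul k _ _ D.vc
    · exact absurd (D.f_not e) hx
  adj x y a := by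
    by_cases e : ∃ k : H, x = k • D.v
    · obtain ⟨k, rfl⟩ := e
      left
      have h1 := K.ar_smul k⁻¹ _ _ a
      rw [inv_smul_smul] at h1
      have h2 := D.un _ h1
      rw [inv_smul_eq_iff] at h2
      rw [h2, D.f_v, D.f_c]
    · right; left
      left
      refine ⟨?_, y, ?_, rfl⟩
      · rw [D.f_not e, D.f_not e]
      · rw [D.f_not e]
        exact a

end Har

/-! ### cells of `P45` -/

namespace P45

variable {K : GX H V} (P : P45 K)

/-- pentagons and other cells -/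
def toPG : PG K where
  five i := ¬ P.sq i
  pt := P.pt
  cb_eq i h := P.cb5 i h
  cw_eq i h := P.cw5 i h

open Classical in
/-- the sum over the corners of a cell -/
noncomputable def cc (i : K.I) (w : V → V → V → ℤ) : ℤ :=
  if P.sq i then ∑ j : Fin 4, w (P.qt i j) (P.qt i (j + 1)) (P.qt i (j + 2))
  else ∑ j : Fin 5, w (P.pt i j) (P.pt i (j + 1)) (P.pt i (j + 2))

theorem cc_sq {i : K.I} (hi : P.sq i) (w : V → V → V → ℤ) :
    P.cc i w = ∑ j : Fin 4, w (P.qt i j) (P.qt i (j + 1)) (P.qt i (j + 2)) := if_pos hi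

theorem cc_pt {i : K.I} (hi : ¬ P.sq i) (w : V → V → V → ℤ) :
    P.cc i w = ∑ j : Fin 5, w (P.pt i j) (P.pt i (j + 1)) (P.pt i (j + 2)) := if_neg hi

theorem csg_eq (S : Sl K) (i : K.I) : csg S.mv S.τ (K.cb i) (K.cw i) = P.cc i (sg S.mv S.τ) := by
  by_cases hi : P.sq i
  · rw [P.cc_sq hi, P.cb4 i hi, P.cw4 i hi]
    show (sg S.mv S.τ (P.qt i 0) (P.qt i 1) (P.qt i 2) +
      (sg S.mv S.τ (P.qt i 1) (P.qt i 2) (P.qt i 3) +
      (sg S.mv S.τ (P.qt i 2) (P.qt i 3) (P.qt i 0) +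
      (sg S.mv S.τ (P.qt i 3) (P.qt i 0) (P.qt i 1) + 0)))) = _
    rw [Fin.sum_univ_four]
    have f1 : (1 : Fin 4) + 1 = 2 := rfl
    have f2 : (2 : Fin 4) + 1 = 3 := rfl
    have f3 : (3 : Fin 4) + 1 = 0 := rfl
    have g1 : (1 : Fin 4) + 2 = 3 := rfl
    have g2 : (2 : Fin 4) + 2 = 0 := rfl
    have g3 : (3 : Fin 4) + 2 = 1 := rfl
    rw [zero_add, zero_add, f1, f2, f3, g1, g2, g3]
    ring
  · rw [P.cc_pt hi]
    exact P.toPG.csg_eq S hi

theorem cc_add (i : K.I) (w w' : V → V → V → ℤ) :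
    P.cc i (fun x y z => w x y z + w' x y z) = P.cc i w + P.cc i w' := by
  by_cases hi : P.sq i
  · rw [P.cc_sq hi, P.cc_sq hi, P.cc_sq hi, Finset.sum_add_distrib]
  · rw [P.cc_pt hi, P.cc_pt hi, P.cc_pt hi, Finset.sum_add_distrib]

theorem cc_sub (i : K.I) (w w' : V → V → V → ℤ) :
    P.cc i (fun x y z => w x y z - w' x y z) = P.cc i w - P.cc i w' := by
  by_cases hi : P.sq i
  · rw [P.cc_sq hi, P.cc_sq hi, P.cc_sq hi, Finset.sum_sub_distrib]
  · rw [P.cc_pt hi, P.cc_pt hi, P.cc_pt hi, Finset.sum_sub_distrib]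

/-- comparison at the corners -/
theorem cc_le {i : K.I} {w w' : V → V → V → ℤ}
    (h4 : P.sq i → ∀ j : Fin 4, w (P.qt i j) (P.qt i (j + 1)) (P.qt i (j + 2)) ≤
      w' (P.qt i j) (P.qt i (j + 1)) (P.qt i (j + 2)))
    (h5 : ¬ P.sq i → ∀ j : Fin 5, w (P.pt i j) (P.pt i (j + 1)) (P.pt i (j + 2)) ≤
      w' (P.pt i j) (P.pt i (j + 1)) (P.pt i (j + 2))) : P.cc i w ≤ P.cc i w' := by
  by_cases hi : P.sq i
  · rw [P.cc_sq hi, P.cc_sq hi]
    exact Finset.sum_le_sum fun j _ => h4 hi j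
  · rw [P.cc_pt hi, P.cc_pt hi]
    exact Finset.sum_le_sum fun j _ => h5 hi j

theorem cc_nonneg {i : K.I} {w : V → V → V → ℤ}
    (h4 : P.sq i → ∀ j : Fin 4, 0 ≤ w (P.qt i j) (P.qt i (j + 1)) (P.qt i (j + 2)))
    (h5 : ¬ P.sq i → ∀ j : Fin 5, 0 ≤ w (P.pt i j) (P.pt i (j + 1)) (P.pt i (j + 2))) :
    0 ≤ P.cc i w := by
  by_cases hi : P.sq i
  · rw [P.cc_sq hi]
    exact Finset.sum_nonneg fun j _ => h4 hi j
  · rw [P.cc_pt hi]
    exact Finset.sum_nonneg fun j _ => h5 hi j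

/-- the cell `i` passes a translate of the edge `x y` -/
def eg (i : K.I) (x y : V) : Prop :=
  (P.sq i ∧ ∃ (h : H) (j : Fin 4), (x = h • P.qt i j ∧ y = h • P.qt i (j + 1)) ∨
    (y = h • P.qt i j ∧ x = h • P.qt i (j + 1))) ∨
  (¬ P.sq i ∧ ∃ (h : H) (j : Fin 5), (x = h • P.pt i j ∧ y = h • P.pt i (j + 1)) ∨
    (y = h • P.pt i j ∧ x = h • P.pt i (j + 1)))

variable {P}

theorem eg.smul {i : K.I} {x y : V} (e : P.eg i x y) (g : H) : P.eg i (g • x) (g • y) := by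
  rcases e with ⟨hi, h, j, e⟩ | ⟨hi, h, j, e⟩
  · refine Or.inl ⟨hi, g * h, j, ?_⟩
    rcases e with ⟨rfl, rfl⟩ | ⟨rfl, rfl⟩
    · exact Or.inl ⟨(mul_smul _ _ _).symm, (mul_smul _ _ _).symm⟩
    · exact Or.inr ⟨(mul_smul _ _ _).symm, (mul_smul _ _ _).symm⟩
  · refine Or.inr ⟨hi, g * h, j, ?_⟩
    rcases e with ⟨rfl, rfl⟩ | ⟨rfl, rfl⟩
    · exact Or.inl ⟨(mul_smul _ _ _).symm, (mul_smul _ _ _).symm⟩
    · exact Or.inr ⟨(mul_smul _ _ _).symm, (mul_smul _ _ _).symm⟩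

theorem eg.symm {i : K.I} {x y : V} (e : P.eg i x y) : P.eg i y x := by
  rcases e with ⟨hi, h, j, e⟩ | ⟨hi, h, j, e⟩
  · exact Or.inl ⟨hi, h, j, Or.symm e⟩
  · exact Or.inr ⟨hi, h, j, Or.symm e⟩

theorem eg.adj {i : K.I} {x y : V} (e : P.eg i x y) : K.E x y := by
  rcases e with ⟨hi, h, j, ⟨rfl, rfl⟩ | ⟨rfl, rfl⟩⟩ | ⟨hi, h, j, ⟨rfl, rfl⟩ | ⟨rfl, rfl⟩⟩
  · exact K.E_smul h (P.E4 hi j)
  · exact (K.E_smul h (P.E4 hi j)).symm
  · exact K.E_smul h (P.E5 hi j)
  · exact (K.E_smul h (P.E5 hi j)).symm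

/-- HAIR, base: no pentagon passes the edge of a vertex with one out-arrow -/
theorem hair0 (P : P45 K) (hm : K.Min) {v c : V} (hv : K.ar v c) (hu : ∀ d, K.ar v d → d = c)
    {i : K.I} (hi : ¬ P.sq i) : ¬ P.eg i v c := by
  rintro (⟨hi', -⟩ | ⟨-, h, j, e⟩)
  · exact hi hi'
  let D : Har K := ⟨v, c, hv, hu⟩
  have hl : 4 < (K.cw i).length := by
    rw [P.cw5 i hi]
    exact Nat.lt_succ_self 4
  have h0 := D.fo.stn_zero hm hl
  rw [P.cb5 i hi, P.cw5 i hi] at h0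
  have key : D.fo.f (P.pt i (j + 1)) = D.fo.f (P.pt i j) := by
    show D.f _ = D.f _
    rcases e with ⟨e1, e2⟩ | ⟨e1, e2⟩
    · have e1' : P.pt i j = h⁻¹ • D.v := by rw [show D.v = v from rfl, e1, inv_smul_smul]
      have e2' : P.pt i (j + 1) = h⁻¹ • D.c := by rw [show D.c = c from rfl, e2, inv_smul_smul]
      rw [e1', e2', D.f_v, D.f_c]
    · have e1' : P.pt i j = h⁻¹ • D.c := by rw [show D.c = c from rfl, e1, inv_smul_smul]
      have e2' : P.pt i (j + 1) = h⁻¹ • D.v := by rw [show D.v = v from rfl, e2, inv_smul_smul]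
      rw [e1', e2', D.f_v, D.f_c]
  have := stn_five D.fo.f (P.pt i) j key
  omega

/-! ### tops and neutral squares -/

variable (P)

/-- the vertex `j` of the square `i` is its top -/
def Tp (i : K.I) (j : Fin 4) : Prop := P.sq i ∧ K.ar (P.qt i j) (P.qt i (j + 1)) ∧
  K.ar (P.qt i j) (P.qt i (j + 3)) ∧ K.rk (P.qt i (j + 2)) < K.rk (P.qt i j) ∧
  ∀ h : H, h • P.qt i j = P.qt i j → h • P.qt i (j + 2) = P.qt i (j + 2)

/-- two opposite vertices `j`, `j + 2` of the square `i` in one orbit, the others are their poles -/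
def Nv (i : K.I) (j : Fin 4) : Prop := P.sq i ∧ (∃ g : H, P.qt i (j + 2) = g • P.qt i j) ∧
  K.ar (P.qt i j) (P.qt i (j + 1)) ∧ K.ar (P.qt i j) (P.qt i (j + 3)) ∧
  K.ar (P.qt i (j + 2)) (P.qt i (j + 1)) ∧ K.ar (P.qt i (j + 2)) (P.qt i (j + 3))

/-- neutral squares -/
def Nt (i : K.I) : Prop := ∃ j, P.Nv i j

/-- flipped squares -/
def Fm (i : K.I) : Prop := ∃ j, P.Tp i j ∧ ∃ h : H, h • P.qt i j = P.qt i j ∧
  h • P.qt i (j + 1) = P.qt i (j + 3)

/-- THE CLASS -/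
structure Cm : Prop where
  min : K.Min
  nd : ∀ i, P.sq i → ∀ j, P.qt i j ≠ P.qt i (j + 2)
  tn : ∀ i, P.sq i → P.Nt i ∨ ∃ j, P.Tp i j
  one : ∀ i i' j j', P.Tp i j → P.Tp i' j' → ∀ h : H, h • P.qt i j = P.qt i' j' → i = i'
  nv : ∀ i i' j j', P.Nv i j → P.Tp i' j' → ∀ h : H, h • P.qt i j ≠ P.qt i' j'
  X : ∀ i j, P.Tp i j → ∀ k, (k = j + 1 ∨ k = j + 3) → ∃ i', i' ≠ i ∧ ¬ P.Nt i' ∧
    P.eg i' (P.qt i j) (P.qt i k)

end P45

end Pool.Agent.DI
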