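import Pool.Agent.DI.PqA

/-!
# DI/PqB: the fold of one top in the class `Cm`

`Cm.fold`: the fold of one orbit of tops is again in the class. `Cm.nd_fold`: no fold identifies the
poles of a higher top. `Cm.hair`: a vertex with one out-arrow `v → c` is joined to `c` in no cell.
-/

namespace Pool.Agent.DI

open MulAction
open Pool.Agent.SAF (InC orbs FinOrb oc)
open Pool.Agent.BT (PX)

variable {H V : Type} [Group H] [MulAction H V]

theorem f4a (j : Fin 4) : j + 1 + 1 = j + 2 := by rw [add_assoc]; rfl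
theorem f4b (j : Fin 4) : j + 2 + 1 = j + 3 := by rw [add_assoc]; rfl
theorem f4c (j : Fin 4) : j + 3 + 1 = j := by rw [add_assoc]; exact add_zero j
theorem f4d (j : Fin 4) : j + 1 + 2 = j + 3 := by rw [add_assoc]; rfl
theorem f4e (j : Fin 4) : j + 2 + 2 = j := by rw [add_assoc]; exact add_zero j
theorem f4f (j : Fin 4) : j + 3 + 2 = j + 1 := by rw [add_assoc]; rfl
theorem f4g (j : Fin 4) : j + 2 + 3 = j + 1 := by rw [add_assoc]; rfl
theorem f4h (j : Fin 4) : j + 1 + 3 = j := by rw [add_assoc]; exact add_zero j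
theorem f4i (j : Fin 4) : j + 3 + 3 = j + 2 := by rw [add_assoc]; rfl
theorem f4 (j k : Fin 4) : k = j ∨ k = j + 1 ∨ k = j + 2 ∨ k = j + 3 := by
  revert j k; decide

namespace P45

section

variable {K : GX H V} {P : P45 K} {i : K.I} {j : Fin 4}

theorem Tp.rk1 (h : P.Tp i j) : K.rk (P.qt i (j + 1)) < K.rk (P.qt i j) := K.ar_rk _ _ h.2.1

theorem Tp.rk3 (h : P.Tp i j) : K.rk (P.qt i (j + 3)) < K.rk (P.qt i j) := K.ar_rk _ _ h.2.2.1

theorem Tp.rk2 (h : P.Tp i j) : K.rk (P.qt i (j + 2)) < K.rk (P.qt i j) := h.2.2.2.1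

theorem Tp.rk_lt (h : P.Tp i j) {k : Fin 4} (hk : k ≠ j) : K.rk (P.qt i k) < K.rk (P.qt i j) := by
  rcases f4 j k with e | e | e | e
  · exact absurd e hk
  · rw [e]; exact h.rk1
  · rw [e]; exact h.rk2
  · rw [e]; exact h.rk3

theorem Tp.rk_le (h : P.Tp i j) (k : Fin 4) : K.rk (P.qt i k) ≤ K.rk (P.qt i j) := by
  by_cases hk : k = j
  · rw [hk]
  · exact (h.rk_lt hk).le

theorem Tp.uniq (h : P.Tp i j) {k : Fin 4} (h' : P.Tp i k) : k = j := by
  by_contra hk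
  have h1 := h.rk_lt hk
  have h2 := h'.rk_le j
  omega

theorem Nv.symm' (h : P.Nv i j) : P.Nv i (j + 2) := by
  obtain ⟨h0, ⟨g, h1⟩, h2, h3, h4, h5⟩ := h
  refine ⟨h0, ⟨g⁻¹, ?_⟩, ?_, ?_, ?_, ?_⟩
  · rw [f4e, h1, inv_smul_smul]
  · rw [f4b]; exact h5
  · rw [f4g]; exact h4
  · rw [f4e, f4b]; exact h3
  · rw [f4e, f4g]; exact h2

theorem Nv.rk (h : P.Nv i j) : K.rk (P.qt i (j + 2)) = K.rk (P.qt i j) := by
  obtain ⟨-, ⟨g, h1⟩, -⟩ := h
  rw [h1, K.rk_smul]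

theorem Nv.not_Tp (h : P.Nv i j) {k : Fin 4} : ¬ P.Tp i k := by
  intro t
  have hr := h.rk
  obtain ⟨-, -, h2, h3, h4, h5⟩ := h
  have r2 := K.ar_rk _ _ h2
  have r3 := K.ar_rk _ _ h3
  have t0 := t.rk_le j
  have t2 := t.rk_le (j + 2)
  rcases f4 j k with e | e | e | e
  · rw [e] at t
    have := t.rk2
    omega
  · rw [e] at t0
    omega
  · rw [e] at t
    have := t.rk2
    rw [f4e] at this
    omega
  · rw [e] at t0
    omega

theorem Tp.not_Nt (h : P.Tp i j) : ¬ P.Nt i := fun ⟨_, k⟩ => k.not_Tp h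

theorem not_Nt_of_not_sq (h : ¬ P.sq i) : ¬ P.Nt i := fun ⟨_, k⟩ => h k.1

/-- the out-neighbours of a top -/
theorem Tp.poles (hd : ∀ k, P.qt i k ≠ P.qt i (k + 2)) (h : P.Tp i j) {a : V}
    (ha : K.ar (P.qt i j) a) : a = P.qt i (j + 1) ∨ a = P.qt i (j + 3) := by
  rcases K.two _ _ _ _ ha h.2.1 h.2.2.1 with e | e | e
  · exact Or.inl e
  · have := hd (j + 1)
    rw [f4d] at this
    exact absurd e this
  · exact Or.inr e

/-- the data of the fold of a top -/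
def Tp.d (hd : ∀ k, P.qt i k ≠ P.qt i (k + 2)) (h : P.Tp i j) : Sq1 K where
  T := P.qt i j
  y := P.qt i (j + 2)
  rk := h.rk2
  E a ha := by
    rcases h.poles hd ha with rfl | rfl
    · have := P.E4 h.1 (j + 1)
      rw [f4a] at this
      exact this.symm
    · have := P.E4 h.1 (j + 2)
      rw [f4b] at this
      exact this
  ex := ⟨_, h.2.1⟩
  fix := h.2.2.2.2

/-- the vertices of the edges of a square -/
theorem eg_sq (hi : P.sq i) {x y : V} (e : P.eg i x y) : ∃ (h : H) (k : Fin 4),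
    (x = h • P.qt i k ∧ y = h • P.qt i (k + 1)) ∨ (y = h • P.qt i k ∧ x = h • P.qt i (k + 1)) := by
  rcases e with ⟨-, e⟩ | ⟨h, -⟩
  · exact e
  · exact absurd hi h

theorem Tp.eg_rk (h : P.Tp i j) {x y : V} (e : P.eg i x y) : K.rk x ≤ K.rk (P.qt i j) ∧
    (K.rk x = K.rk (P.qt i j) → ∃ g : H, x = g • P.qt i j) := by
  obtain ⟨g, k, e⟩ := eg_sq h.1 e
  have key : ∀ k, K.rk (g • P.qt i k) ≤ K.rk (P.qt i j) ∧
      (K.rk (g • P.qt i k) = K.rk (P.qt i j) → ∃ g' : H, g • P.qt i k = g' • P.qt i j) := by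
    intro k
    rw [K.rk_smul]
    refine ⟨h.rk_le k, fun r => ?_⟩
    by_cases hk : k = j
    · rw [hk]
      exact ⟨g, rfl⟩
    · have := h.rk_lt hk
      omega
  rcases e with ⟨rfl, -⟩ | ⟨-, rfl⟩
  · exact key _
  · exact key _

/-- an edge of a square which contains no translate of the top in the upper place: its ends are a side
and the partner -/
theorem Tp.eg_low (h : P.Tp i j) {x y : V} (e : P.eg i x y) (hx : ∀ g : H, x ≠ g • P.qt i j)
    (hy : ∀ g : H, y ≠ g • P.qt i j) : ∃ (g : H) (k : Fin 4), (k = j + 1 ∨ k = j + 3) ∧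
    ((x = g • P.qt i k ∧ y = g • P.qt i (j + 2)) ∨ (x = g • P.qt i (j + 2) ∧ y = g • P.qt i k)) := by
  obtain ⟨g, k, e⟩ := eg_sq h.1 e
  rcases f4 j k with hk | hk | hk | hk
  · rw [hk] at e
    rcases e with ⟨e, -⟩ | ⟨e, -⟩
    · exact absurd e (hx g)
    · exact absurd e (hy g)
  · rw [hk, f4a] at e
    rcases e with ⟨e, e'⟩ | ⟨e, e'⟩
    · exact ⟨g, j + 1, Or.inl rfl, Or.inl ⟨e, e'⟩⟩
    · exact ⟨g, j + 1, Or.inl rfl, Or.inr ⟨e', e⟩⟩
  · rw [hk, f4b] at e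
    rcases e with ⟨e, e'⟩ | ⟨e, e'⟩
    · exact ⟨g, j + 3, Or.inr rfl, Or.inr ⟨e, e'⟩⟩
    · exact ⟨g, j + 3, Or.inr rfl, Or.inl ⟨e', e⟩⟩
  · rw [hk, f4c] at e
    rcases e with ⟨-, e⟩ | ⟨-, e⟩
    · exact absurd e (hy g)
    · exact absurd e (hx g)

end

end P45

/-! ### the fold -/

namespace Sq1

variable {K : GX H V} (D : Sq1 K)

theorem F_coe_not {x : V} (hx : ∀ h : H, x ≠ h • D.T) : (D.toF.F x).1 = x := D.f_not hx

theorem F_Tm (h : H) : D.toF.F (h • D.T) = D.toF.F (h • D.y) := by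
  apply Subtype.ext
  show D.toF.f _ = D.toF.f _
  rw [D.f_T, D.f_not]
  intro k e
  have h1 := congrArg K.rk e
  rw [K.rk_smul, K.rk_smul] at h1
  have := D.rk
  omega

theorem F_inj {x y : V} (hx : ∀ h : H, x ≠ h • D.T) (hy : ∀ h : H, y ≠ h • D.T)
    (e : D.toF.F x = D.toF.F y) : x = y := by
  have := congrArg Subtype.val e
  rwa [D.F_coe_not hx, D.F_coe_not hy] at this

theorem not_of_rk {x : V} (hx : K.rk x ≠ K.rk D.T) (h : H) : x ≠ h • D.T := by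
  rintro rfl
  exact hx (K.rk_smul _ _)

end Sq1

namespace P45

variable {K : GX H V} {P : P45 K}

/-- the edges of the kept cells -/
theorem eg.F {D : SqF K} (hF : D.Flat) {i : K.I} {x y : V} (e : P.eg i x y) (hi : ¬ D.Bt i) :
    (hF.P45 P).eg ⟨i, hi⟩ (D.F x) (D.F y) := by
  rcases e with ⟨hs, h, j, e⟩ | ⟨hs, h, j, e⟩
  · refine Or.inl ⟨hs, h, j, ?_⟩
    rcases e with ⟨rfl, rfl⟩ | ⟨rfl, rfl⟩
    · exact Or.inl ⟨D.F_smul _ _, D.F_smul _ _⟩
    · exact Or.inr ⟨D.F_smul _ _, D.F_smul _ _⟩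
  · refine Or.inr ⟨hs, h, j, ?_⟩
    rcases e with ⟨rfl, rfl⟩ | ⟨rfl, rfl⟩
    · exact Or.inl ⟨D.F_smul _ _, D.F_smul _ _⟩
    · exact Or.inr ⟨D.F_smul _ _, D.F_smul _ _⟩

/-- arrows of the fold -/
theorem arF {D : Sq1 K} {x a : V} (h : K.ar x a) (hx : ∀ h : H, x ≠ h • D.T) :
    D.toF.gx.ar (D.toF.F x) (D.toF.F a) := ⟨a, by rw [D.F_coe_not hx]; exact h, rfl⟩

theorem rkF {D : Sq1 K} {x : V} (hx : ∀ h : H, x ≠ h • D.T) :
    D.toF.gx.rk (D.toF.F x) = K.rk x := by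
  show K.rk (D.toF.F x).1 = _
  rw [D.F_coe_not hx]

theorem rkF_le {D : SqF K} (x : V) : D.gx.rk (D.F x) ≤ K.rk x := D.rk_f x

/-- tops of the fold -/
theorem Tp.F {D : Sq1 K} {i : K.I} {j : Fin 4} (h : P.Tp i j) (hT : ∀ h : H, P.qt i j ≠ h • D.T)
    (hi : ¬ D.toF.Bt i) : (D.flat.P45 P).Tp ⟨i, hi⟩ j := by
  refine ⟨h.1, arF h.2.1 hT, arF h.2.2.1 hT, ?_, ?_⟩
  · show D.toF.gx.rk (D.toF.F _) < D.toF.gx.rk (D.toF.F _)
    rw [rkF hT]
    exact lt_of_le_of_lt (rkF_le _) h.rk2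
  · intro g e
    have e' : g • D.toF.F (P.qt i j) = D.toF.F (P.qt i j) := e
    show g • D.toF.F (P.qt i (j + 2)) = D.toF.F (P.qt i (j + 2))
    have h1 := congrArg Subtype.val e'
    rw [SqF.smul_coe, D.F_coe_not hT] at h1
    rw [← D.toF.F_smul, h.2.2.2.2 g h1]

/-- neutral squares of the fold -/
theorem Nv.F {D : Sq1 K} {i : K.I} {j : Fin 4} (h : P.Nv i j) (hT : ∀ h : H, P.qt i j ≠ h • D.T)
    (hi : ¬ D.toF.Bt i) : (D.flat.P45 P).Nv ⟨i, hi⟩ j := by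
  obtain ⟨h0, ⟨g, h1⟩, h2, h3, h4, h5⟩ := h
  have hT' : ∀ h : H, P.qt i (j + 2) ≠ h • D.T := by
    intro k e
    rw [h1] at e
    exact hT (g⁻¹ * k) (by rw [mul_smul, ← e, inv_smul_smul])
  refine ⟨h0, ⟨g, ?_⟩, arF h2 hT, arF h3 hT, arF h4 hT', arF h5 hT'⟩
  show D.toF.F _ = g • D.toF.F _
  rw [h1, D.toF.F_smul]

theorem Tp.d_T {i : K.I} {j : Fin 4} (h : P.Tp i j) (hd : ∀ k, P.qt i k ≠ P.qt i (k + 2)) :
    (h.d hd).T = P.qt i j := rfl

theorem Tp.d_y {i : K.I} {j : Fin 4} (h : P.Tp i j) (hd : ∀ k, P.qt i k ≠ P.qt i (k + 2)) :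
    (h.d hd).y = P.qt i (j + 2) := rfl

/-- a square with equal opposite vertices is dropped -/
theorem Bt_of {D : SqF K} (hF : D.Flat) {i : K.I} (hi : P.sq i) (j : Fin 4)
    (e : D.F (P.qt i j) = D.F (P.qt i (j + 2))) : D.Bt i := by
  rw [hF.Bt4_iff P hi]
  fin_cases j
  · exact Or.inl e
  · exact Or.inr e
  · exact Or.inl e.symm
  · exact Or.inr e.symm

/-- the square of the folded top is dropped -/
theorem Tp.Bt {i : K.I} {j : Fin 4} (h : P.Tp i j) (hd : ∀ k, P.qt i k ≠ P.qt i (k + 2)) :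
    (h.d hd).toF.Bt i := by
  refine Bt_of (h.d hd).flat h.1 j ?_
  have := (h.d hd).F_Tm 1
  rwa [one_smul, one_smul] at this

namespace Cm

variable (hC : P.Cm)

include hC

theorem T_not {i i0 : K.I} {j j0 : Fin 4} (h : P.Tp i j) (h0 : P.Tp i0 j0) (hne : i ≠ i0) (g : H) :
    P.qt i j ≠ g • (h0.d (hC.nd i0 h0.1)).T := fun e => hne (hC.one i0 i j0 j h0 h g e.symm).symm

theorem N_not {i i0 : K.I} {j j0 : Fin 4} (h : P.Nv i j) (h0 : P.Tp i0 j0) (g : H) :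
    P.qt i j ≠ g • (h0.d (hC.nd i0 h0.1)).T := fun e =>
  hC.nv i i0 j j0 h h0 g⁻¹ (by rw [e, inv_smul_smul]; rfl)

/-- THE FOLD OF ONE TOP IS IN THE CLASS (if no other square with a top is dropped) -/
theorem fold0 {i0 : K.I} {j0 : Fin 4} (h0 : P.Tp i0 j0)
    (hk : ∀ i, i ≠ i0 → ¬ P.Nt i → ¬ (h0.d (hC.nd i0 h0.1)).toF.Bt i) :
    ((h0.d (hC.nd i0 h0.1)).flat.P45 P).Cm := by
  set D := h0.d (hC.nd i0 h0.1) with hD
  have hB0 : D.toF.Bt i0 := h0.Bt _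
  have hne : ∀ {i : K.I}, ¬ D.toF.Bt i → i ≠ i0 := by
    rintro i hi rfl
    exact hi hB0
  -- back to `K`
  have hTp : ∀ {i : K.I} (hi : ¬ D.toF.Bt i) {j : Fin 4}, (D.flat.P45 P).Tp ⟨i, hi⟩ j → P.Tp i j := by
    intro i hi j h
    rcases hC.tn i h.1 with ⟨k, hn⟩ | ⟨k, ht⟩
    · exact absurd h (hn.F (hC.N_not hn h0) hi).not_Tp
    · have := (ht.F (hC.T_not ht h0 (hne hi)) hi).uniq h
      rw [this]
      exact ht
  have hNt : ∀ {i : K.I} (hi : ¬ D.toF.Bt i), (D.flat.P45 P).Nt ⟨i, hi⟩ → P.Nt i := by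
    intro i hi h
    obtain ⟨k, hk⟩ := h
    rcases hC.tn i hk.1 with hn | ⟨k, ht⟩
    · exact hn
    · exact absurd (ht.F (hC.T_not ht h0 (hne hi)) hi) hk.not_Tp
  refine ⟨D.toF.min hC.min, ?_, ?_, ?_, ?_, ?_⟩
  · rintro ⟨i, hi⟩ hs j
    exact D.flat.opp_ne P hs hi j
  · rintro ⟨i, hi⟩ hs
    rcases hC.tn i hs with ⟨k, hn⟩ | ⟨k, ht⟩
    · exact Or.inl ⟨k, hn.F (hC.N_not hn h0) hi⟩
    · exact Or.inr ⟨k, ht.F (hC.T_not ht h0 (hne hi)) hi⟩
  · rintro ⟨i, hi⟩ ⟨i', hi'⟩ j j' h h' g e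
    have t := hTp hi h
    have t' := hTp hi' h'
    have e' : D.toF.F (g • P.qt i j) = D.toF.F (P.qt i' j') := by
      rw [D.toF.F_smul]
      exact e
    have := D.F_inj (fun k => ?_) (hC.T_not t' h0 (hne hi')) e'
    · exact Subtype.ext (hC.one i i' j j' t t' g this)
    · intro e2
      exact hC.T_not t h0 (hne hi) (g⁻¹ * k) (by rw [mul_smul, ← e2, inv_smul_smul])
  · rintro ⟨i, hi⟩ ⟨i', hi'⟩ j j' h h' g e
    have t' := hTp hi' h'
    obtain ⟨k, hn⟩ := hNt hi ⟨j, h⟩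
    have hn2 := hn.F (hC.N_not hn h0) hi
    -- `j = k` or `j = k + 2`
    have hj : P.Nv i j := by
      rcases f4 k j with rfl | rfl | rfl | rfl
      · exact hn
      · exfalso
        have r1 := D.toF.gx.ar_rk _ _ h.2.2.2.1
        have r2 := D.toF.gx.ar_rk _ _ hn2.2.2.1
        rw [f4h] at r1
        omega
      · exact hn.symm'
      · exfalso
        have r1 := D.toF.gx.ar_rk _ _ h.2.2.1
        have r2 := D.toF.gx.ar_rk _ _ hn2.2.2.2.1
        rw [f4c] at r1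
        omega
    have e' : D.toF.F (g • P.qt i j) = D.toF.F (P.qt i' j') := by
      rw [D.toF.F_smul]
      exact e
    have := D.F_inj (fun k => ?_) (hC.T_not t' h0 (hne hi')) e'
    · exact hC.nv i i' j j' hj t' g this
    · intro e2
      exact hC.N_not hj h0 (g⁻¹ * k) (by rw [mul_smul, ← e2, inv_smul_smul])
  · rintro ⟨i, hi⟩ j h k hk'
    have t := hTp hi h
    obtain ⟨i', h1, h2, h3⟩ := hC.X i j t k hk'
    by_cases e0 : i' = i0
    · subst e0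
      have hx := hC.T_not t h0 (hne hi)
      have hak : K.ar (P.qt i j) (P.qt i k) := by
        rcases hk' with rfl | rfl
        · exact t.2.1
        · exact t.2.2.1
      have hrk := K.ar_rk _ _ hak
      have hy : ∀ g : H, P.qt i k ≠ g • P.qt i' j0 := by
        intro g e
        have h4 := (h0.eg_rk h3).1
        rw [e, K.rk_smul] at hrk
        omega
      obtain ⟨g, k0, hk0, e⟩ := h0.eg_low h3 hx hy
      obtain ⟨i2, h4, h5, h6⟩ := hC.X i' j0 h0 k0 hk0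
      have hkept := hk i2 h4 h5
      have h7 : (D.flat.P45 P).eg ⟨i2, hkept⟩ (D.toF.F (P.qt i j)) (D.toF.F (P.qt i k)) := by
        have h8 := (h6.smul g).F D.flat hkept
        have h9 : D.toF.F (g • P.qt i' j0) = D.toF.F (g • P.qt i' (j0 + 2)) := D.F_Tm g
        rw [h9] at h8
        rcases e with ⟨e, e'⟩ | ⟨e, e'⟩
        · rw [e, e']
          exact h8.symm
        · rw [e, e']
          exact h8
      refine ⟨⟨i2, hkept⟩, ?_, fun hn => h5 (hNt hkept hn), h7⟩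
      intro e2
      have e3 : i2 = i := congrArg Subtype.val e2
      rw [e3] at h6
      have r1 := (t.eg_rk h6).1
      have r2 : K.rk (P.qt i j) < K.rk (P.qt i' j0) := by
        rcases e with ⟨e, -⟩ | ⟨e, -⟩
        · rw [e, K.rk_smul]
          rcases hk0 with rfl | rfl
          · exact h0.rk1
          · exact h0.rk3
        · rw [e, K.rk_smul]
          exact h0.rk2
      omega
    · refine ⟨⟨i', hk i' e0 h2⟩, ?_, fun hn => h2 (hNt _ hn), h3.F D.flat _⟩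
      intro e
      exact h1 (congrArg Subtype.val e)

end Cm

end P45

end Pool.Agent.DI
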