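import Pool.Agent.DI.PqB

/-!
# DI/PqB2: no fold identifies the poles of a top, HAIR, all folds are in the class
-/

namespace Pool.Agent.DI

open MulAction
open Pool.Agent.SAF (InC orbs FinOrb oc)
open Pool.Agent.BT (PX)

variable {H V : Type} [Group H] [MulAction H V]

namespace P45

/-- a fold induces a fold of a fold -/
noncomputable def ind {K : GX H V} (D1 : Sq1 K) (D : Sq1 K) (hT : ∀ h : H, D.T ≠ h • D1.T) :
    Sq1 D1.toF.gx where
  T := D1.toF.F D.T
  y := D1.toF.F D.y
  rk := by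
    rw [rkF hT]
    exact lt_of_le_of_lt (rkF_le _) D.rk
  E a ha := by
    obtain ⟨a0, h1, rfl⟩ := ha
    rw [D1.F_coe_not hT] at h1
    exact D1.flat.E' (D.E _ h1)
  ex := by
    obtain ⟨a, ha⟩ := D.ex
    exact ⟨_, arF ha hT⟩
  fix g e := by
    have h1 := congrArg Subtype.val e
    rw [SqF.smul_coe, D1.F_coe_not hT] at h1
    rw [← D1.toF.F_smul, D.fix g h1]

theorem ind_f {K : GX H V} (D1 : Sq1 K) (D : Sq1 K) (hT : ∀ h : H, D.T ≠ h • D1.T) {x : V}
    (hx : ∀ h : H, x ≠ h • D1.T) :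
    (ind D1 D hT).toF.f (D1.toF.F x) = D1.toF.F (D.toF.f x) := by
  by_cases e : ∃ h : H, x = h • D.T
  · obtain ⟨h, rfl⟩ := e
    rw [D.f_T, D1.toF.F_smul, D1.toF.F_smul]
    exact (ind D1 D hT).f_T h
  · push Not at e
    rw [D.f_not e]
    refine (ind D1 D hT).f_not fun h k => ?_
    have k' : D1.toF.F x = D1.toF.F (h • D.T) := by
      rw [D1.toF.F_smul]
      exact k
    refine e h (D1.F_inj hx (fun g e' => ?_) k')
    exact hT (h⁻¹ * g) (by rw [mul_smul, ← e', inv_smul_smul])

theorem ind_F {K : GX H V} (D1 : Sq1 K) (D : Sq1 K) (hT : ∀ h : H, D.T ≠ h • D1.T) {x y : V}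
    (hx : ∀ h : H, x ≠ h • D1.T) (hy : ∀ h : H, y ≠ h • D1.T) (e : D.toF.F x = D.toF.F y) :
    (ind D1 D hT).toF.F (D1.toF.F x) = (ind D1 D hT).toF.F (D1.toF.F y) := by
  apply Subtype.ext
  show (ind D1 D hT).toF.f _ = (ind D1 D hT).toF.f _
  rw [ind_f D1 D hT hx, ind_f D1 D hT hy, D.toF.F_eq.1 e]

/-- fewer cells -/
theorem card_lt {K : GX H V} {D : SqF K} {i : K.I} (h : D.Bt i) :
    Nat.card D.gx.I < Nat.card K.I := by
  have := K.finI
  exact Finite.card_subtype_lt (p := fun i : K.I => ¬ D.Bt i) (x := i) (fun k => k h)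

/-- a fold of a top of maximal rank drops no other square with a top -/
theorem Cm.kept_max {K : GX H V} {P : P45 K} (hC : P.Cm) {i0 : K.I} {j0 : Fin 4}
    (h0 : P.Tp i0 j0) (hmax : ∀ i j, P.Tp i j → K.rk (P.qt i j) ≤ K.rk (P.qt i0 j0)) :
    ∀ i, i ≠ i0 → ¬ P.Nt i → ¬ (h0.d (hC.nd i0 h0.1)).toF.Bt i := by
  intro i hne hn hB
  set D := h0.d (hC.nd i0 h0.1) with hD
  by_cases hs : P.sq i
  · rcases hC.tn i hs with hn' | ⟨j, ht⟩
    · exact hn hn'
    · have key : ∀ k : Fin 4, ∀ g : H, P.qt i k ≠ g • D.T := by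
        intro k g e
        have h1 : K.rk (P.qt i k) = K.rk (P.qt i0 j0) := by
          rw [e, K.rk_smul]
          rfl
        by_cases hk : k = j
        · subst hk
          exact hC.T_not ht h0 hne g e
        · have h2 := ht.rk_lt hk
          have h3 := hmax i j ht
          omega
      rw [D.flat.Bt4_iff P hs] at hB
      rcases hB with hB | hB
      · exact hC.nd i hs 0 (D.F_inj (key _) (key _) hB)
      · exact hC.nd i hs 1 (D.F_inj (key _) (key _) hB)
  · exact D.flat.not_Bt5 P hs hB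

theorem nd_aux : ∀ (n : ℕ) {V : Type} [MulAction H V] {K : GX H V} {P : P45 K}, P.Cm →
    Nat.card K.I = n → ∀ {i : K.I} {j : Fin 4}, P.Tp i j → ∀ D : Sq1 K,
    K.rk D.T < K.rk (P.qt i j) → D.toF.F (P.qt i (j + 1)) ≠ D.toF.F (P.qt i (j + 3)) := by
  intro n
  induction n using Nat.strong_induction_on with
  | _ n ih =>
    intro V _ K P hC hn i j h D hr e
    have hf := K.finI
    obtain ⟨⟨i1, j1⟩, h1, hmax'⟩ := Set.exists_max_image {p : K.I × Fin 4 | P.Tp p.1 p.2}
      (fun p => K.rk (P.qt p.1 p.2)) (Set.toFinite _) ⟨(i, j), h⟩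
    have h1 : P.Tp i1 j1 := h1
    have hmax : ∀ i j, P.Tp i j → K.rk (P.qt i j) ≤ K.rk (P.qt i1 j1) := fun i j t =>
      hmax' (i, j) t
    have hDT : ∀ g : H, P.qt i j ≠ g • D.T := D.not_of_rk (by omega)
    by_cases hle : K.rk (P.qt i1 j1) ≤ K.rk (P.qt i j)
    · obtain ⟨i', k1, k2, k3⟩ := hC.X i j h (j + 1) (Or.inl rfl)
      have hs : ¬ P.sq i' := by
        intro hs
        rcases hC.tn i' hs with hn' | ⟨j', ht⟩
        · exact k2 hn'
        · obtain ⟨r1, r2⟩ := ht.eg_rk k3
          have r3 := hmax i' j' ht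
          obtain ⟨g, hg⟩ := r2 (by omega)
          exact k1 (hC.one i' i j' j ht h g hg.symm)
      have hi' := D.flat.not_Bt5 P hs
      refine hair0 (D.flat.P45 P) (D.toF.min hC.min) (arF h.2.1 hDT) ?_ (i := ⟨i', hi'⟩) hs
        (k3.F D.flat hi')
      rintro d ⟨a, ha, rfl⟩
      rw [D.F_coe_not hDT] at ha
      rcases h.poles (hC.nd i h.1) ha with rfl | rfl
      · rfl
      · exact e.symm
    · push Not at hle
      have hk := hC.kept_max h1 hmax
      set D1 := h1.d (hC.nd i1 h1.1) with hD1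
      have hC1 := hC.fold0 h1 hk
      have hr1 : K.rk D1.T = K.rk (P.qt i1 j1) := rfl
      have hne : i ≠ i1 := by
        rintro rfl
        rw [h1.uniq h] at hle
        omega
      have hi := hk i hne h.not_Nt
      have hT := hC.T_not h h1 hne
      have hDT1 : ∀ g : H, D.T ≠ g • D1.T := D1.not_of_rk (by omega)
      have r1 := h.rk1
      have r3 := h.rk3
      have q1 : ∀ g : H, P.qt i (j + 1) ≠ g • D1.T := D1.not_of_rk (by omega)
      have q3 : ∀ g : H, P.qt i (j + 3) ≠ g • D1.T := D1.not_of_rk (by omega)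
      refine ih _ (hn ▸ card_lt (h1.Bt _)) hC1 rfl (h.F hT hi) (ind D1 D hDT1) ?_
        (ind_F D1 D hDT1 q1 q3 e)
      show D1.toF.gx.rk (D1.toF.F D.T) < D1.toF.gx.rk (D1.toF.F (P.qt i j))
      rw [rkF hDT1, rkF hT]
      exact hr

namespace Cm

variable {K : GX H V} {P : P45 K} (hC : P.Cm)

include hC

/-- NO FOLD IDENTIFIES THE POLES OF A HIGHER TOP -/
theorem nd_fold {i : K.I} {j : Fin 4} (h : P.Tp i j) (D : Sq1 K)
    (hr : K.rk D.T < K.rk (P.qt i j)) :
    D.toF.F (P.qt i (j + 1)) ≠ D.toF.F (P.qt i (j + 3)) := nd_aux _ hC rfl h D hr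

/-- a fold of a top drops no other square with a top -/
theorem kept {i0 : K.I} {j0 : Fin 4} (h0 : P.Tp i0 j0) :
    ∀ i, i ≠ i0 → ¬ P.Nt i → ¬ (h0.d (hC.nd i0 h0.1)).toF.Bt i := by
  intro i hne hn hB
  set D := h0.d (hC.nd i0 h0.1) with hD
  by_cases hs : P.sq i
  · rcases hC.tn i hs with hn' | ⟨j, ht⟩
    · exact hn hn'
    · have hT : ∀ g : H, P.qt i j ≠ g • D.T := hC.T_not ht h0 hne
      -- the top and the partner
      have h1 : D.toF.F (P.qt i j) ≠ D.toF.F (P.qt i (j + 2)) := by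
        intro e
        have e1 := congrArg Subtype.val e
        rw [D.F_coe_not hT] at e1
        have r1 : K.rk (D.toF.F (P.qt i (j + 2))).1 ≤ K.rk (P.qt i (j + 2)) := D.toF.rk_f _
        rw [← e1] at r1
        have := ht.rk2
        omega
      -- the sides
      have h2 : D.toF.F (P.qt i (j + 1)) ≠ D.toF.F (P.qt i (j + 3)) := by
        by_cases hr : K.rk D.T < K.rk (P.qt i j)
        · exact hC.nd_fold ht D hr
        · intro e
          have r1 := ht.rk1
          have r3 := ht.rk3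
          have := D.F_inj (D.not_of_rk (by omega)) (D.not_of_rk (by omega)) e
          have h3 := hC.nd i hs (j + 1)
          rw [f4d] at h3
          exact h3 this
      rw [D.flat.Bt4_iff P hs] at hB
      rcases f4 0 j with rfl | rfl | rfl | rfl
      · exact hB.elim h1 h2
      · exact hB.elim (fun e => h2 e.symm) h1
      · exact hB.elim (fun e => h1 e.symm) (fun e => h2 e.symm)
      · exact hB.elim h2 (fun e => h1 e.symm)
  · exact D.flat.not_Bt5 P hs hB

/-- THE FOLD OF ONE TOP IS IN THE CLASS -/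
theorem fold {i0 : K.I} {j0 : Fin 4} (h0 : P.Tp i0 j0) :
    ((h0.d (hC.nd i0 h0.1)).flat.P45 P).Cm := hC.fold0 h0 (hC.kept h0)

end Cm

theorem hair_aux : ∀ (n : ℕ) {V : Type} [MulAction H V] {K : GX H V} {P : P45 K}, P.Cm →
    Nat.card K.I = n → ∀ {v c : V}, K.ar v c → (∀ d, K.ar v d → d = c) → ∀ i, ¬ P.eg i v c := by
  intro n
  induction n using Nat.strong_induction_on with
  | _ n ih =>
    intro V _ K P hC hn v c hv hu i e
    have hrk := K.ar_rk _ _ hv
    by_cases hs : P.sq i
    · rcases hC.tn i hs with ⟨j, hN⟩ | ⟨j, h⟩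
      · -- neutral squares
        have two : ∀ (k : Fin 4) (g : H), v = g • P.qt i k → K.ar (P.qt i k) (P.qt i (k + 1)) →
            K.ar (P.qt i k) (P.qt i (k + 3)) → False := by
          intro k g ev k1 k3
          have a1 := K.ar_smul g _ _ k1
          have a3 := K.ar_smul g _ _ k3
          rw [← ev] at a1 a3
          have := (hu _ a1).trans (hu _ a3).symm
          have h3 := hC.nd i hs (k + 1)
          rw [f4d] at h3
          exact h3 (smul_left_cancel g this)
        obtain ⟨g, k, e⟩ := eg_sq hs e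
        have hN' := hN.symm'
        have r := hN.rk
        have r1 := K.ar_rk _ _ hN.2.2.1
        have r3 := K.ar_rk _ _ hN.2.2.2.1
        have r1' := K.ar_rk _ _ hN.2.2.2.2.1
        have r3' := K.ar_rk _ _ hN.2.2.2.2.2
        rcases f4 j k with rfl | rfl | rfl | rfl
        · rcases e with ⟨ev, ec⟩ | ⟨ec, ev⟩
          · exact two _ g ev hN.2.2.1 hN.2.2.2.1
          · rw [ev, ec, K.rk_smul, K.rk_smul] at hrk
            omega
        · rw [f4a] at e
          rcases e with ⟨ev, ec⟩ | ⟨ec, ev⟩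
          · rw [ev, ec, K.rk_smul, K.rk_smul] at hrk
            omega
          · exact two _ g ev hN'.2.2.1 hN'.2.2.2.1
        · rw [f4b] at e
          rcases e with ⟨ev, ec⟩ | ⟨ec, ev⟩
          · exact two _ g ev hN'.2.2.1 hN'.2.2.2.1
          · rw [ev, ec, K.rk_smul, K.rk_smul] at hrk
            omega
        · rw [f4c] at e
          rcases e with ⟨ev, ec⟩ | ⟨ec, ev⟩
          · rw [ev, ec, K.rk_smul, K.rk_smul] at hrk
            omega
          · exact two _ g ev hN.2.2.1 hN.2.2.2.1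
      · set D := h.d (hC.nd i h.1) with hD
        have hvT : ∀ g : H, v ≠ g • P.qt i j := by
          intro g ev
          have a1 := K.ar_smul g _ _ h.2.1
          have a3 := K.ar_smul g _ _ h.2.2.1
          rw [← ev] at a1 a3
          have := (hu _ a1).trans (hu _ a3).symm
          have h3 := hC.nd i hs (j + 1)
          rw [f4d] at h3
          exact h3 (smul_left_cancel g this)
        have hcT : ∀ g : H, c ≠ g • P.qt i j := by
          intro g ec
          have := (h.eg_rk e).1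
          rw [ec, K.rk_smul] at hrk
          omega
        obtain ⟨g, k, hk, e'⟩ := h.eg_low e hvT hcT
        obtain ⟨i2, k1, k2, k3⟩ := hC.X i j h k hk
        have hkept := hC.kept h i2 k1 k2
        have h8 := (k3.smul g).F D.flat hkept
        have h9 : D.toF.F (g • P.qt i j) = D.toF.F (g • P.qt i (j + 2)) := D.F_Tm g
        rw [h9] at h8
        refine ih _ (hn ▸ card_lt (h.Bt _)) (hC.fold h) rfl (v := D.toF.F v) (c := D.toF.F c)
          (arF hv hvT) ?_ ⟨i2, hkept⟩ ?_
        · rintro d ⟨a, ha, rfl⟩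
          rw [D.F_coe_not hvT] at ha
          rw [hu a ha]
        · rcases e' with ⟨e1, e2⟩ | ⟨e1, e2⟩
          · rw [e1, e2]
            exact h8.symm
          · rw [e1, e2]
            exact h8
    · exact hair0 P hC.min hv hu hs e

/-- HAIR: a vertex with one out-arrow `v → c` is joined to `c` in no cell -/
theorem Cm.hair {K : GX H V} {P : P45 K} (hC : P.Cm) {v c : V} (hv : K.ar v c)
    (hu : ∀ d, K.ar v d → d = c) (i : K.I) : ¬ P.eg i v c := hair_aux _ hC rfl hv hu i

end P45

end Pool.Agent.DI
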