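import Pool.Agent.DI.PqB2

/-!
# DI/PqC: the slide of a cut under the fold of a top

`P.wm i`: weight `1` for flipped squares, `2` otherwise. `P.tt w`: the weighted sum over all corners.
`Cm.step`: comparison of the sums before and after the fold of a top.
-/

namespace Pool.Agent.DI

open MulAction
open Pool.Agent.SAF (InC orbs FinOrb oc)
open Pool.Agent.BT (PX)

variable {H V : Type} [Group H] [MulAction H V]

/-! ### values at a corner -/

open Classical in
/-- the value of a corner: `b`, `b'`: the legs are moved, `x`, `x'` the targets (the legs itself, if they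
are not moved) -/
noncomputable def sv {V : Type} (b : Prop) (x : V) (b' : Prop) (x' : V) : ℤ :=
  if b then (if b' then (if x = x' then 0 else 2) else (if x' = x then -1 else 1))
  else (if b' then (if x = x' then -1 else 1) else 0)

open Classical in
/-- the target, or the vertex itself -/
noncomputable def tgt {V : Type} (mv : V → V → Prop) (τ : V → V → V) (x v : V) : V :=
  if mv x v then τ x v else x

theorem sg_sv {V : Type} (mv : V → V → Prop) (τ : V → V → V) (x v z : V) :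
    sg mv τ x v z = sv (mv x v) (tgt mv τ x v) (mv z v) (tgt mv τ z v) := by
  have p1 : ∀ {x : V}, mv x v → tgt mv τ x v = τ x v := fun h => if_pos h
  have p2 : ∀ {x : V}, ¬ mv x v → tgt mv τ x v = x := fun h => if_neg h
  by_cases h1 : mv x v <;> by_cases h2 : mv z v
  · rw [p1 h1, p1 h2]
    unfold sg seg sv
    rw [if_pos h1, if_pos h1, if_pos h2, if_pos h2]
    by_cases h3 : τ x v = τ z v
    · rw [if_pos h3, if_pos h3]; rfl
    · rw [if_neg h3, if_neg h3]; rfl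
  · rw [p1 h1, p2 h2]
    unfold sg seg sv
    rw [if_pos h1, if_pos h1, if_neg h2, if_neg h2]
    by_cases h3 : z = τ x v
    · rw [if_pos h3, if_pos h3]; rfl
    · rw [if_neg h3, if_neg h3]; rfl
  · rw [p2 h1, p1 h2]
    unfold sg seg sv
    rw [if_neg h1, if_neg h1, if_pos h2, if_pos h2]
    by_cases h3 : x = τ z v
    · rw [if_pos h3, if_pos h3]; rfl
    · rw [if_neg h3, if_neg h3]; rfl
  · rw [p2 h1, p2 h2]
    unfold sg seg sv
    rw [if_neg h1, if_neg h1, if_neg h2, if_neg h2]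
    rfl

section sv

variable {V : Type} {x x' : V} {b b' : Prop}

theorem sv_mm (h : b) (h' : b') (e : x = x') : sv b x b' x' = 0 := by
  unfold sv; rw [if_pos h, if_pos h', if_pos e]

theorem sv_mm' (h : b) (h' : b') (e : x ≠ x') : sv b x b' x' = 2 := by
  unfold sv; rw [if_pos h, if_pos h', if_neg e]

theorem sv_mt (h : b) (h' : ¬ b') (e : x' = x) : sv b x b' x' = -1 := by
  unfold sv; rw [if_pos h, if_neg h', if_pos e]

theorem sv_mn (h : b) (h' : ¬ b') (e : x' ≠ x) : sv b x b' x' = 1 := by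
  unfold sv; rw [if_pos h, if_neg h', if_neg e]

theorem sv_nn (h : ¬ b) (h' : ¬ b') : sv b x b' x' = 0 := by
  unfold sv; rw [if_neg h, if_neg h']

theorem sv_symm : sv b x b' x' = sv b' x' b x := by
  unfold sv
  by_cases h : b <;> by_cases h' : b'
  · simp only [h, h', if_true]
    by_cases e : x = x'
    · rw [if_pos e, if_pos e.symm]
    · rw [if_neg e, if_neg (fun k => e k.symm)]
  · simp only [h, h', if_true, if_false]
  · simp only [h, h', if_true, if_false]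
  · simp only [h, h', if_false]

theorem sv_congr {V' : Type} {y y' : V'} {c c' : Prop} (h : b ↔ c) (h' : b' ↔ c')
    (e : x = x' ↔ y = y') : sv b x b' x' = sv c y c' y' := by
  by_cases k : b <;> by_cases k' : b'
  · by_cases k2 : x = x'
    · rw [sv_mm k k' k2, sv_mm (h.1 k) (h'.1 k') (e.1 k2)]
    · rw [sv_mm' k k' k2, sv_mm' (h.1 k) (h'.1 k') (fun q => k2 (e.2 q))]
  · have q' := fun q => k' (h'.2 q)
    by_cases k2 : x = x'
    · rw [sv_mt k k' k2.symm, sv_mt (h.1 k) q' (e.1 k2).symm]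
    · rw [sv_mn k k' (fun q => k2 q.symm), sv_mn (h.1 k) q' (fun q => k2 (e.2 q.symm))]
  · have q := fun q => k (h.2 q)
    rw [sv_symm, sv_symm (b := c)]
    by_cases k2 : x = x'
    · rw [sv_mt k' k k2, sv_mt (h'.1 k') q (e.1 k2)]
    · rw [sv_mn k' k k2, sv_mn (h'.1 k') q (fun q => k2 (e.2 q))]
  · rw [sv_nn k k', sv_nn (fun q => k (h.2 q)) (fun q => k' (h'.2 q))]

end sv

namespace CuD

variable {K : GX H V} (D : CuD K)

/-- the change of the length at a corner -/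
noncomputable def s (x y z : V) : ℤ := sg D.sl.mv D.sl.τ x y z

theorem s_symm (x y z : V) : D.s x y z = D.s z y x := sg_symm x y z

/-- the target, or the vertex itself -/
noncomputable def tg (x v : V) : V := tgt D.mv D.τ x v

theorem s_sv (x y z : V) : D.s x y z = sv (D.mv x y) (D.tg x y) (D.mv z y) (D.tg z y) :=
  sg_sv D.mv D.τ x y z

theorem tg_mv {x y : V} {h : H} (h1 : h⁻¹ • x ∈ D.R) (h2 : y = h • D.v) : D.tg x y = h • D.a := by
  unfold tg tgt
  rw [if_pos (show D.mv x y from ⟨h, h1, h2⟩)]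
  exact D.τ_eq h1 h2

theorem tg_not {x y : V} (h : ¬ D.mv x y) : D.tg x y = x := by
  unfold tg tgt
  rw [if_neg h]

theorem mv_smul_iff (h : H) {x y : V} : D.mv (h • x) (h • y) ↔ D.mv x y := D.sl.mv_iff h x y

theorem tg_smul (h : H) (x y : V) : D.tg (h • x) (h • y) = h • D.tg x y := by
  by_cases e : D.mv x y
  · obtain ⟨k, k1, k2⟩ := e
    rw [D.tg_mv k1 k2, D.tg_mv (h := h * k), mul_smul]
    · rw [mul_inv_rev, mul_smul, inv_smul_smul]
      exact k1
    · rw [k2, mul_smul]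
  · rw [D.tg_not e, D.tg_not]
    rwa [D.mv_smul_iff]

theorem s_smul (h : H) (x y z : V) : D.s (h • x) (h • y) (h • z) = D.s x y z := by
  rw [D.s_sv, D.s_sv, D.tg_smul, D.tg_smul]
  exact sv_congr (D.mv_smul_iff h) (D.mv_smul_iff h)
    ⟨fun e => smul_left_cancel h e, fun e => by rw [e]⟩

/-- nothing is moved away from the hub -/
theorem s_far {x y z : V} (h : ∀ g : H, y ≠ g • D.v) : D.s x y z = 0 := by
  rw [D.s_sv]
  exact sv_nn (fun ⟨g, _, e⟩ => h g e) (fun ⟨g, _, e⟩ => h g e)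

/-- the target is a pole of the hub -/
theorem ar_tg {x y : V} (h : D.mv x y) : K.ar y (D.tg x y) := by
  obtain ⟨k, k1, k2⟩ := h
  rw [D.tg_mv k1 k2, k2]
  exact K.ar_smul k _ _ D.va

/-- corners whose legs are in-arrows -/
theorem s_nonneg {x y z : V} (h1 : K.ar x y) (h2 : K.ar z y) : 0 ≤ D.s x y z := by
  rw [D.s_sv]
  have key : ∀ x z : V, K.ar z y → D.mv x y → z ≠ D.tg x y := by
    intro x z h2 hx e
    have r1 := K.ar_rk _ _ (D.ar_tg hx)
    have r2 := K.ar_rk _ _ h2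
    rw [e] at r2
    omega
  by_cases hx : D.mv x y <;> by_cases hz : D.mv z y
  · by_cases e : D.tg x y = D.tg z y
    · rw [sv_mm hx hz e]
    · rw [sv_mm' hx hz e]
      norm_num
  · rw [sv_mn hx hz]
    · norm_num
    · rw [D.tg_not hz]
      exact key x z h2 hx
  · rw [sv_symm, sv_mn hz hx]
    · norm_num
    · rw [D.tg_not hx]
      exact key z x h1 hz
  · rw [sv_nn hx hz]

/-- corners whose legs are poles -/
theorem s_poles {x y z : V} (h1 : K.ar y x) (h2 : K.ar y z) : D.s x y z = 0 := by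
  rw [D.s_sv]
  refine sv_nn (fun k => ?_) (fun k => ?_)
  · have r1 := K.ar_rk _ _ (D.mv_ar k)
    have r2 := K.ar_rk _ _ h1
    omega
  · have r1 := K.ar_rk _ _ (D.mv_ar k)
    have r2 := K.ar_rk _ _ h2
    omega

/-- the translate of the data -/
def tr (g : H) : CuD K where
  v := g • D.v
  a := g • D.a
  b := g • D.b
  R := {x | g⁻¹ • x ∈ D.R}
  va := K.ar_smul g _ _ D.va
  vb := K.ar_smul g _ _ D.vb
  ab := fun e => D.ab (smul_left_cancel g e)
  R_ar n hn := by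
    have := K.ar_smul g _ _ (D.R_ar _ hn)
    rwa [smul_inv_smul] at this
  stab h e n hn hn' := by
    have h1 : (g⁻¹ * h * g) • D.v = D.v := by
      rw [mul_smul, mul_smul, e, inv_smul_smul]
    have h2 : (g⁻¹ * h * g) • (g⁻¹ • n) ∈ D.R := by
      rw [mul_smul, mul_smul, smul_inv_smul]
      exact hn'
    have h3 := D.stab _ h1 _ hn h2
    rw [mul_smul, mul_smul, inv_smul_eq_iff] at h3
    exact h3
  inv h e1 e2 n hn := by
    have h1 : (g⁻¹ * h * g) • D.v = D.v := by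
      rw [mul_smul, mul_smul, e1, inv_smul_smul]
    have h2 : (g⁻¹ * h * g) • D.a = D.a := by
      rw [mul_smul, mul_smul, e2, inv_smul_smul]
    have h3 := D.inv _ h1 h2 _ hn
    rw [mul_smul, mul_smul, smul_inv_smul] at h3
    exact h3

theorem tr_mv (g : H) (x y : V) : (D.tr g).mv x y ↔ D.mv x y := by
  constructor
  · rintro ⟨h, h1, h2⟩
    refine ⟨h * g, ?_, ?_⟩
    · rw [mul_inv_rev, mul_smul]
      exact h1
    · rw [mul_smul]
      exact h2
  · rintro ⟨h, h1, h2⟩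
    refine ⟨h * g⁻¹, ?_, ?_⟩
    · show g⁻¹ • (h * g⁻¹)⁻¹ • x ∈ D.R
      rw [mul_inv_rev, inv_inv, mul_smul, inv_smul_smul]
      exact h1
    · show y = (h * g⁻¹) • g • D.v
      rw [mul_smul, inv_smul_smul]
      exact h2

theorem tr_tg (g : H) (x y : V) : (D.tr g).tg x y = D.tg x y := by
  by_cases e : D.mv x y
  · obtain ⟨h, h1, h2⟩ := e
    rw [D.tg_mv h1 h2, (D.tr g).tg_mv (h := h * g⁻¹)]
    · show (h * g⁻¹) • g • D.a = _
      rw [mul_smul, inv_smul_smul]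
    · show g⁻¹ • (h * g⁻¹)⁻¹ • x ∈ D.R
      rw [mul_inv_rev, inv_inv, mul_smul, inv_smul_smul]
      exact h1
    · show y = (h * g⁻¹) • g • D.v
      rw [mul_smul, inv_smul_smul]
      exact h2
  · rw [D.tg_not e, (D.tr g).tg_not (fun k => e ((D.tr_mv g x y).1 k))]

theorem tr_s (g : H) (x y z : V) : (D.tr g).s x y z = D.s x y z := by
  rw [s_sv, s_sv, tr_tg, tr_tg]
  exact sv_congr (D.tr_mv g _ _) (D.tr_mv g _ _) Iff.rfl

end CuD

/-! ### sums -/

namespace P45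

variable {K : GX H V} (P : P45 K)

open Classical in
/-- weights -/
noncomputable def wm (i : K.I) : ℤ := if P.Fm i then 1 else 2

theorem wm_nonneg (i : K.I) : 0 ≤ P.wm i := by
  unfold wm
  split_ifs
  · norm_num
  · norm_num

/-- weighted sum over the corners -/
noncomputable def tt (w : V → V → V → ℤ) : ℤ := ∑ i, P.wm i * P.cc i w

theorem cc_congr {i : K.I} {w w' : V → V → V → ℤ} (h : ∀ x y z, w x y z = w' x y z) :
    P.cc i w = P.cc i w' := by
  have : w = w' := by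
    funext x y z
    exact h x y z
  rw [this]

theorem cc_top {w : V → V → V → ℤ} (hw : ∀ x y z, w x y z = w z y x) {i : K.I} (hi : P.sq i)
    (j : Fin 4) : P.cc i w = w (P.qt i (j + 1)) (P.qt i j) (P.qt i (j + 3)) +
      w (P.qt i j) (P.qt i (j + 1)) (P.qt i (j + 2)) +
      w (P.qt i j) (P.qt i (j + 3)) (P.qt i (j + 2)) +
      w (P.qt i (j + 1)) (P.qt i (j + 2)) (P.qt i (j + 3)) := by
  rw [P.cc_sq hi, Fin.sum_univ_four]
  have f1 : (1 : Fin 4) + 1 = 2 := rfl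
  have f2 : (2 : Fin 4) + 1 = 3 := rfl
  have f3 : (3 : Fin 4) + 1 = 0 := rfl
  have g1 : (1 : Fin 4) + 2 = 3 := rfl
  have g2 : (2 : Fin 4) + 2 = 0 := rfl
  have g3 : (3 : Fin 4) + 2 = 1 := rfl
  have k1 : (1 : Fin 4) + 3 = 0 := rfl
  have k2 : (2 : Fin 4) + 3 = 1 := rfl
  have k3 : (3 : Fin 4) + 3 = 2 := rfl
  rcases f4 0 j with rfl | rfl | rfl | rfl
  · simp only [zero_add, f1, f2, f3, g1, g2, g3]
    rw [hw (P.qt i 2) (P.qt i 3) (P.qt i 0), hw (P.qt i 3) (P.qt i 0) (P.qt i 1)]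
    ring
  · simp only [zero_add, f1, f2, f3, g1, g2, g3, k1]
    rw [hw (P.qt i 3) (P.qt i 0) (P.qt i 1), hw (P.qt i 0) (P.qt i 1) (P.qt i 2)]
    ring
  · simp only [zero_add, f1, f2, f3, g1, g2, g3, k2]
    rw [hw (P.qt i 0) (P.qt i 1) (P.qt i 2), hw (P.qt i 1) (P.qt i 2) (P.qt i 3)]
    ring
  · simp only [zero_add, f1, f2, f3, g1, g2, g3, k3]
    rw [hw (P.qt i 1) (P.qt i 2) (P.qt i 3), hw (P.qt i 2) (P.qt i 3) (P.qt i 0)]
    ring

/-- neutral squares do not get shorter -/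
theorem Nv.s_nonneg {P : P45 K} {i : K.I} {j : Fin 4} (h : P.Nv i j) (D : CuD K) :
    0 ≤ P.cc i D.s := by
  rw [P.cc_top D.s_symm h.1 j]
  have e1 := D.s_poles h.2.2.1 h.2.2.2.1
  have e2 := D.s_nonneg (x := P.qt i j) (z := P.qt i (j + 2)) h.2.2.1 h.2.2.2.2.1
  have e3 := D.s_nonneg (x := P.qt i j) (z := P.qt i (j + 2)) h.2.2.2.1 h.2.2.2.2.2
  have e4 := D.s_poles h.2.2.2.2.1 h.2.2.2.2.2
  linarith

/-- the sum over the kept cells -/
theorem sum_kept (D : SqF K) (f : K.I → ℤ) [DecidablePred D.Bt] :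
    ∑ j : D.gx.I, f j.1 = ∑ i, if D.Bt i then 0 else f i := by
  refine Fintype.sum_of_injective (fun j : D.gx.I => (j.1 : K.I)) Subtype.val_injective _ _
    (fun i hi => ?_) (fun j => ?_)
  · rw [if_pos]
    by_contra k
    exact hi ⟨⟨i, k⟩, rfl⟩
  · rw [if_neg j.2]

theorem cc_F {D : SqF K} (hF : D.Flat) (j : D.gx.I) (w : D.W → D.W → D.W → ℤ) :
    (hF.P45 P).cc j w = P.cc j.1 (fun x y z => w (D.F x) (D.F y) (D.F z)) := by
  by_cases hs : P.sq j.1
  · rw [P.cc_sq hs, (hF.P45 P).cc_sq (i := j) hs]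
    rfl
  · rw [P.cc_pt hs, (hF.P45 P).cc_pt (i := j) hs]
    rfl

variable {P}

/-- the data of the fold of a top -/
abbrev Cm.dd (hC : P.Cm) {i0 : K.I} {j0 : Fin 4} (h0 : P.Tp i0 j0) : Sq1 K :=
  h0.d (hC.nd i0 h0.1)

namespace Cm

variable (hC : P.Cm)

include hC

/-- the folded top is no longer a top of the kept squares -/
theorem Tp_back {i0 : K.I} {j0 : Fin 4} (h0 : P.Tp i0 j0) {i : K.I}
    (hi : ¬ (h0.d (hC.nd i0 h0.1)).toF.Bt i) {j : Fin 4}
    (h : ((h0.d (hC.nd i0 h0.1)).flat.P45 P).Tp ⟨i, hi⟩ j) : P.Tp i j := by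
  have hne : i ≠ i0 := by
    rintro rfl
    exact hi (h0.Bt _)
  rcases hC.tn i h.1 with ⟨k, hn⟩ | ⟨k, ht⟩
  · exact absurd h (hn.F (hC.N_not hn h0) hi).not_Tp
  · have := (ht.F (hC.T_not ht h0 hne) hi).uniq h
    rw [this]
    exact ht

theorem kept_ne {i0 : K.I} {j0 : Fin 4} (h0 : P.Tp i0 j0) {i : K.I}
    (hi : ¬ (h0.d (hC.nd i0 h0.1)).toF.Bt i) : i ≠ i0 := by
  rintro rfl
  exact hi (h0.Bt _)

/-- flipped squares of the fold -/
theorem Fm_iff {i0 : K.I} {j0 : Fin 4} (h0 : P.Tp i0 j0) {i : K.I}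
    (hi : ¬ (h0.d (hC.nd i0 h0.1)).toF.Bt i) :
    ((h0.d (hC.nd i0 h0.1)).flat.P45 P).Fm ⟨i, hi⟩ ↔ P.Fm i := by
  set D := h0.d (hC.nd i0 h0.1) with hD
  have hne := hC.kept_ne h0 hi
  constructor
  · rintro ⟨j, h, g, h1, h2⟩
    have t := hC.Tp_back h0 hi h
    have hT := hC.T_not t h0 hne
    have h1' : g • P.qt i j = P.qt i j := by
      have := congrArg Subtype.val h1
      rw [SqF.smul_coe] at this
      have e : ((D.flat.P45 P).qt ⟨i, hi⟩ j).1 = P.qt i j := D.F_coe_not hT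
      rwa [e] at this
    refine ⟨j, t, g, h1', ?_⟩
    have a1 := K.ar_smul g _ _ t.2.1
    rw [h1'] at a1
    rcases t.poles (hC.nd i t.1) a1 with e | e
    · exfalso
      have h3 := D.flat.opp_ne P t.1 hi (j + 1)
      rw [f4d] at h3
      apply h3
      have h4 : g • D.toF.F (P.qt i (j + 1)) = D.toF.F (P.qt i (j + 3)) := h2
      rw [← D.toF.F_smul, e] at h4
      exact h4
    · exact e
  · rintro ⟨j, t, g, h1, h2⟩
    have hT := hC.T_not t h0 hne
    refine ⟨j, t.F hT hi, g, ?_, ?_⟩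
    · show g • D.toF.F _ = D.toF.F _
      rw [← D.toF.F_smul, h1]
    · show g • D.toF.F _ = D.toF.F _
      rw [← D.toF.F_smul, h2]

theorem wm_eq {i0 : K.I} {j0 : Fin 4} (h0 : P.Tp i0 j0) {i : K.I}
    (hi : ¬ (h0.d (hC.nd i0 h0.1)).toF.Bt i) :
    ((h0.d (hC.nd i0 h0.1)).flat.P45 P).wm ⟨i, hi⟩ = P.wm i := by
  unfold wm
  by_cases h : P.Fm i
  · rw [if_pos h, if_pos ((hC.Fm_iff h0 hi).2 h)]
  · rw [if_neg h, if_neg (fun k => h ((hC.Fm_iff h0 hi).1 k))]

/-- the weighted sum of the fold -/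
theorem tt_F {i0 : K.I} {j0 : Fin 4} (h0 : P.Tp i0 j0)
    [DecidablePred (hC.dd h0).toF.Bt]
    (w : (hC.dd h0).toF.W → (hC.dd h0).toF.W →
      (hC.dd h0).toF.W → ℤ) :
    ((hC.dd h0).flat.P45 P).tt w =
      ∑ i, if (hC.dd h0).toF.Bt i then 0 else P.wm i * P.cc i (fun x y z =>
        w ((hC.dd h0).toF.F x) ((hC.dd h0).toF.F y)
          ((hC.dd h0).toF.F z)) := by
  rw [← sum_kept]
  unfold tt
  refine Finset.sum_congr rfl fun j _ => ?_
  rw [P.cc_F]
  have e := hC.wm_eq h0 (i := j.1) j.2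
  exact congrArg (fun x => x * _) e

end Cm

end P45

/-- the edge `x y` is not the edge of a hair `x` -/
def GX.Nh (K : GX H V) (x y : V) : Prop := ¬ (K.ar x y ∧ ∀ d, K.ar x d → d = y)

theorem GX.Nh.ex {K : GX H V} {x y : V} (h : K.Nh x y) (e : K.ar x y) : ∃ d, K.ar x d ∧ d ≠ y := by
  by_contra hne
  push Not at hne
  exact h ⟨e, hne⟩

theorem GX.Nh.smul {K : GX H V} {x y : V} (h : K.Nh x y) (g : H) : K.Nh (g • x) (g • y) := by
  rintro ⟨h1, h2⟩
  refine h ⟨?_, fun d hd => ?_⟩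
  · have := K.ar_smul g⁻¹ _ _ h1
    rwa [inv_smul_smul, inv_smul_smul] at this
  · exact smul_left_cancel g (h2 _ (K.ar_smul g _ _ hd))

namespace P45

variable {K : GX H V} {P : P45 K}

namespace Cm

variable (hC : P.Cm)

include hC

theorem eg_Nh {i : K.I} {x y : V} (e : P.eg i x y) : K.Nh x y :=
  fun ⟨h1, h2⟩ => hC.hair h1 h2 i e

omit hC in
theorem eg_qt {i : K.I} (hi : P.sq i) (j : Fin 4) : P.eg i (P.qt i j) (P.qt i (j + 1)) :=
  Or.inl ⟨hi, 1, j, Or.inl ⟨(one_smul _ _).symm, (one_smul _ _).symm⟩⟩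

omit hC in
theorem eg_pt {i : K.I} (hi : ¬ P.sq i) (j : Fin 5) : P.eg i (P.pt i j) (P.pt i (j + 1)) :=
  Or.inr ⟨hi, 1, j, Or.inl ⟨(one_smul _ _).symm, (one_smul _ _).symm⟩⟩

/-- comparison of weights at the corners of a kept cell -/
theorem cc_le_F {i0 : K.I} {j0 : Fin 4} (h0 : P.Tp i0 j0) {i : K.I}
    (hi : ¬ (hC.dd h0).toF.Bt i) {w w' : V → V → V → ℤ}
    (H' : ∀ p q r, K.E p q → K.E r q →
      (hC.dd h0).toF.F p ≠ (hC.dd h0).toF.F r →
      (hC.dd h0).toF.gx.Nh ((hC.dd h0).toF.F p)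
        ((hC.dd h0).toF.F q) →
      (hC.dd h0).toF.gx.Nh ((hC.dd h0).toF.F r)
        ((hC.dd h0).toF.F q) → w p q r ≤ w' p q r) : P.cc i w ≤ P.cc i w' := by
  set D := hC.dd h0 with hD
  have hC1 := hC.fold h0
  refine P.cc_le (fun hs j => ?_) (fun hs j => ?_)
  · refine H' _ _ _ (P.E4 hs j) ?_ (D.flat.opp_ne P hs hi j) ?_ ?_
    · have := P.E4 hs (j + 1)
      rw [f4a] at this
      exact this.symm
    · exact hC1.eg_Nh (i := ⟨i, hi⟩) ((eg_qt hs j).F D.flat hi)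
    · have := eg_qt hs (j + 1)
      rw [f4a] at this
      exact hC1.eg_Nh (i := ⟨i, hi⟩) (this.symm.F D.flat hi)
  · have f5a : j + 1 + 1 = j + 2 := by rw [add_assoc]; rfl
    refine H' _ _ _ (P.E5 hs j) ?_ ?_ ?_ ?_
    · have := P.E5 hs (j + 1)
      rw [f5a] at this
      exact this.symm
    · exact ((D.flat.P45 P).toPG.at_pt (i := ⟨i, hi⟩) hs).ne2 (D.toF.min hC.min) j
    · exact hC1.eg_Nh (i := ⟨i, hi⟩) ((eg_pt hs j).F D.flat hi)
    · have := eg_pt hs (j + 1)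
      rw [f5a] at this
      exact hC1.eg_Nh (i := ⟨i, hi⟩) (this.symm.F D.flat hi)

/-- THE STEP: comparison of the sums before and after the fold of a top -/
theorem step {i0 : K.I} {j0 : Fin 4} (h0 : P.Tp i0 j0) (D : CuD K)
    (D' : CuD (hC.dd h0).toF.gx) (m : V → V → V → ℤ)
    (hm : ∀ i j, P.Nv i j → P.cc i m = 0)
    (H' : ∀ p q r, K.E p q → K.E r q →
      (hC.dd h0).toF.F p ≠ (hC.dd h0).toF.F r →
      (hC.dd h0).toF.gx.Nh ((hC.dd h0).toF.F p)
        ((hC.dd h0).toF.F q) →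
      (hC.dd h0).toF.gx.Nh ((hC.dd h0).toF.F r)
        ((hC.dd h0).toF.F q) →
      m p q r + D'.s ((hC.dd h0).toF.F p) ((hC.dd h0).toF.F q)
        ((hC.dd h0).toF.F r) ≤ D.s p q r) :
    ((hC.dd h0).flat.P45 P).tt D'.s + (P.tt m - P.wm i0 * P.cc i0 m) +
      P.wm i0 * P.cc i0 D.s ≤ P.tt D.s := by
  classical
  have h1 := hC.tt_F h0 D'.s
  rw [h1]
  have h0' : ∀ f : K.I → ℤ, f i0 = ∑ i, if i = i0 then f i else 0 := by
    intro f
    rw [Finset.sum_ite_eq' Finset.univ i0 f, if_pos (Finset.mem_univ _)]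
  have h2 : P.tt m - P.wm i0 * P.cc i0 m = ∑ i, if i = i0 then 0 else P.wm i * P.cc i m := by
    rw [h0' (fun i => P.wm i * P.cc i m)]
    unfold tt
    rw [← Finset.sum_sub_distrib]
    refine Finset.sum_congr rfl fun i _ => ?_
    by_cases hi : i = i0
    · rw [if_pos hi, if_pos hi, sub_self]
    · rw [if_neg hi, if_neg hi, sub_zero]
  have h3 : P.wm i0 * P.cc i0 D.s = ∑ i, if i = i0 then P.wm i * P.cc i D.s else 0 :=
    h0' (fun i => P.wm i * P.cc i D.s)
  rw [h2, h3]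
  unfold tt
  rw [← Finset.sum_add_distrib, ← Finset.sum_add_distrib]
  refine Finset.sum_le_sum fun i _ => ?_
  by_cases hi : i = i0
  · subst hi
    rw [if_pos (h0.Bt _), if_pos rfl, if_pos rfl]
    linarith
  · rw [if_neg hi, if_neg hi, add_zero]
    by_cases hB : (hC.dd h0).toF.Bt i
    · rw [if_pos hB, zero_add]
      have hN : P.Nt i := by
        by_contra hN
        exact hC.kept h0 i hi hN hB
      obtain ⟨j, hN⟩ := hN
      rw [hm i j hN, mul_zero]
      exact mul_nonneg (P.wm_nonneg i) (hN.s_nonneg D)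
    · rw [if_neg hB, ← mul_add, ← P.cc_add]
      refine mul_le_mul_of_nonneg_left (hC.cc_le_F h0 hB fun p q r e1 e2 e3 e4 e5 => ?_)
        (P.wm_nonneg i)
      have := H' p q r e1 e2 e3 e4 e5
      linarith

end Cm

end P45

end Pool.Agent.DI
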