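import Pool.Agent.DI.PqC

/-!
# DI/PqD: the cut data of the fold of a top, comparison at the corners

`Sq1.cu`: the top is no hub; the set `R` without the folded top. `Sq1.cu2`: the partner is the hub; the
in-arrows of the top are added to `R`.
-/

namespace Pool.Agent.DI

open MulAction
open Pool.Agent.SAF (InC orbs FinOrb oc)
open Pool.Agent.BT (PX)

variable {H V : Type} [Group H] [MulAction H V]

namespace Sq1

open P45 (arF rkF rkF_le)

variable {K : GX H V} (E : Sq1 K) (D : CuD K)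

theorem tr_not {x : V} (hx : ∀ h : H, x ≠ h • E.T) (g h : H) : g • x ≠ h • E.T := fun e =>
  hx (g⁻¹ * h) (by rw [mul_smul, ← e, inv_smul_smul])

/-- the hub and its poles are not folded -/
structure Hub : Prop where
  v : ∀ h : H, D.v ≠ h • E.T
  a : ∀ h : H, D.a ≠ h • E.T
  b : ∀ h : H, D.b ≠ h • E.T

theorem Hub.of_rk (h : K.rk D.v < K.rk E.T) : E.Hub D := by
  have h1 := K.ar_rk _ _ D.va
  have h2 := K.ar_rk _ _ D.vb
  exact ⟨E.not_of_rk (by omega), E.not_of_rk (by omega), E.not_of_rk (by omega)⟩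

variable {E D}

/-- the image of a fixed vertex -/
theorem F_fix {x : V} (hx : ∀ h : H, x ≠ h • E.T) {g : H} (e : g • E.toF.F x = E.toF.F x) :
    g • x = x := by
  have h1 := congrArg Subtype.val e
  rwa [SqF.smul_coe, E.F_coe_not hx] at h1

theorem F_fix' {x : V} {g : H} (e : g • x = x) : g • E.toF.F x = E.toF.F x := by
  rw [← E.toF.F_smul, e]

/-- the translates of the hub of the fold -/
theorem F_hub {x q : V} (hx : ∀ h : H, x ≠ h • E.T) (hq : ∀ h : H, q ≠ h • E.T) {h : H}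
    (e : E.toF.F q = h • E.toF.F x) : q = h • x := by
  rw [← E.toF.F_smul] at e
  exact E.F_inj hq (E.tr_not hx h) e

variable (E D)

/-- the cut of the fold, the top is no hub -/
noncomputable def cu (hh : E.Hub D) : CuD E.toF.gx where
  v := E.toF.F D.v
  a := E.toF.F D.a
  b := E.toF.F D.b
  R := {c | c.1 ∈ D.R}
  va := arF D.va hh.v
  vb := arF D.vb hh.v
  ab := fun e => D.ab (E.F_inj hh.a hh.b e)
  R_ar c hc := ⟨D.v, D.R_ar _ hc, rfl⟩
  stab g e c hc hc' := F_fix' (D.stab g (F_fix hh.v e) c.1 hc hc')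
  inv g e1 e2 c hc := D.inv g (F_fix hh.v e1) (F_fix hh.a e2) c.1 hc

variable {E D}

theorem cu_mv (hh : E.Hub D) {c : E.toF.W} {q : V} (hq : ∀ h : H, q ≠ h • E.T) :
    (E.cu D hh).mv c (E.toF.F q) ↔ D.mv c.1 q := by
  constructor
  · rintro ⟨h, h1, h2⟩
    exact ⟨h, h1, F_hub hh.v hq h2⟩
  · rintro ⟨h, h1, h2⟩
    exact ⟨h, h1, by rw [h2]; exact E.toF.F_smul _ _⟩

theorem cu_tg (hh : E.Hub D) {c : E.toF.W} {q : V} (h : D.mv c.1 q) :
    (E.cu D hh).tg c (E.toF.F q) = E.toF.F (D.tg c.1 q) := by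
  obtain ⟨g, g1, g2⟩ := h
  rw [D.tg_mv g1 g2, E.toF.F_smul]
  exact (E.cu D hh).tg_mv (h := g) g1 (by rw [g2]; exact E.toF.F_smul _ _)

theorem cu_tg' (hh : E.Hub D) {c : E.toF.W} {q : V} (hq : ∀ h : H, q ≠ h • E.T)
    (h : ¬ D.mv c.1 q) : (E.cu D hh).tg c (E.toF.F q) = c :=
  (E.cu D hh).tg_not (fun k => h ((cu_mv hh hq).1 k))

/-- a moved leg is an in-arrow -/
theorem _root_.Pool.Agent.DI.CuD.not_mv_of_rk {D : CuD K} {x y : V} (h : K.rk x ≤ K.rk D.v) :
    ¬ D.mv x y := by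
  intro k
  have h1 := K.ar_rk _ _ (D.mv_ar k)
  have h2 := D.rk1 _ _ k
  omega

open Classical in
/-- number of the moved legs in the folded orbit -/
noncomputable def mt (E : Sq1 K) (D : CuD K) (p q r : V) : ℤ :=
  (if D.mv p q ∧ ∃ h : H, p = h • E.T then 1 else 0) +
    (if D.mv r q ∧ ∃ h : H, r = h • E.T then 1 else 0)

theorem mt_nonneg (p q r : V) : 0 ≤ mt E D p q r := by
  unfold mt
  split_ifs <;> norm_num

theorem mt_far {p q r : V} (h : ∀ g : H, q ≠ g • D.v) : mt E D p q r = 0 := by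
  unfold mt
  rw [if_neg (fun k => h _ k.1.choose_spec.2), if_neg (fun k => h _ k.1.choose_spec.2)]
  rfl

/-- the translates of the hub go to the hub only, if the partner is no hub -/
theorem F_ne_hub (hh : E.Hub D) (hy : ∀ g : H, E.y ≠ g • D.v) {q : V} (hq : ∀ g : H, q ≠ g • D.v)
    (g : H) : E.toF.F q ≠ g • E.toF.F D.v := by
  intro e
  by_cases hO : ∃ h : H, q = h • E.T
  · obtain ⟨h, rfl⟩ := hO
    rw [E.F_Tm] at e
    have hyT : ∀ k : H, E.y ≠ k • E.T := E.not_of_rk (by have := E.rk; omega)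
    have := F_hub hh.v (E.tr_not hyT h) e
    exact hy (h⁻¹ * g) (by rw [mul_smul, ← this, inv_smul_smul])
  · push Not at hO
    exact hq g (F_hub hh.v hO e)

/-- TYPE I, the comparison at a corner -/
theorem typeI (hh : E.Hub D) (hya : E.y = D.a) (hT : E.T ∈ D.R) {m : V}
    (hpol : ∀ q, K.ar E.T q → q = D.v ∨ q = m)
    (hB : ∀ h : H, h • m = D.v → D.mv (h • E.T) D.v → h • D.a = D.tg (h • E.T) D.v)
    {p q r : V} (hp : K.E p q) (hr : K.E r q) (hne : E.toF.F p ≠ E.toF.F r) :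
    mt E D p q r + (E.cu D hh).s (E.toF.F p) (E.toF.F q) (E.toF.F r) ≤ D.s p q r := by
  have rv := K.ar_rk _ _ (D.R_ar _ hT)
  have ra := K.ar_rk _ _ D.va
  by_cases hq : ∃ g : H, q = g • D.v
  swap
  · push Not at hq
    rw [mt_far hq, D.s_far hq, (E.cu D hh).s_far]
    · norm_num
    · refine F_ne_hub hh (fun g e => ?_) hq
      have := congrArg K.rk e
      rw [K.rk_smul, hya] at this
      omega
  obtain ⟨g, rfl⟩ := hq
  have hqO := E.tr_not hh.v g
  have haO : ∀ k h : H, k • D.a ≠ h • E.T := fun k => E.tr_not hh.a k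
  -- the folded legs
  have key : ∀ k : H, K.E (k • E.T) (g • D.v) → D.mv (k • E.T) (g • D.v) →
      D.tg (k • E.T) (g • D.v) = k • D.a := by
    intro k e hk
    have e' : K.ar (k • E.T) (g • D.v) := by
      rcases e with e | e
      · exact e
      · have := K.ar_rk _ _ e
        rw [K.rk_smul, K.rk_smul] at this
        omega
    have e2 := K.ar_smul k⁻¹ _ _ e'
    rw [inv_smul_smul] at e2
    rcases hpol _ e2 with h1 | h1
    · rw [inv_smul_eq_iff] at h1
      exact D.tg_mv (h := k) (by rw [inv_smul_smul]; exact hT) h1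
    · rw [inv_smul_eq_iff] at h1
      have h2 : (g⁻¹ * k) • m = D.v := by rw [mul_smul, ← h1, inv_smul_smul]
      have h3 : D.mv ((g⁻¹ * k) • E.T) D.v := by
        have := (D.mv_smul_iff g⁻¹).2 hk
        rwa [inv_smul_smul, ← mul_smul] at this
      have h4 := hB _ h2 h3
      have h5 := D.tg_smul g ((g⁻¹ * k) • E.T) D.v
      rw [← h4, ← mul_smul, ← mul_smul, mul_inv_cancel_left] at h5
      exact h5
  -- the target of a leg
  have tgF : ∀ p, K.E p (g • D.v) →
      (E.cu D hh).tg (E.toF.F p) (E.toF.F (g • D.v)) = E.toF.F (D.tg p (g • D.v)) := by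
    intro p hp
    by_cases hO : ∃ k : H, p = k • E.T
    · obtain ⟨k, rfl⟩ := hO
      have h1 : ¬ D.mv (E.toF.F (k • E.T)).1 (g • D.v) := by
        rw [E.F_Tm, hya, E.F_coe_not (haO k)]
        refine CuD.not_mv_of_rk ?_
        rw [K.rk_smul]
        omega
      rw [cu_tg' hh hqO h1]
      by_cases hk : D.mv (k • E.T) (g • D.v)
      · rw [key k hp hk, E.F_Tm, hya]
      · rw [D.tg_not hk]
    · push Not at hO
      by_cases hk : D.mv p (g • D.v)
      · rw [cu_tg hh (by rw [E.F_coe_not hO]; exact hk), E.F_coe_not hO]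
      · rw [cu_tg' hh hqO (by rw [E.F_coe_not hO]; exact hk), D.tg_not hk]
  -- moved legs
  have mvF : ∀ p, (E.cu D hh).mv (E.toF.F p) (E.toF.F (g • D.v)) ↔
      (D.mv p (g • D.v) ∧ ¬ ∃ k : H, p = k • E.T) := by
    intro p
    rw [cu_mv hh hqO]
    by_cases hO : ∃ k : H, p = k • E.T
    · constructor
      · intro h1
        exfalso
        obtain ⟨k, rfl⟩ := hO
        rw [E.F_Tm, hya, E.F_coe_not (haO k)] at h1
        refine CuD.not_mv_of_rk ?_ h1
        rw [K.rk_smul]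
        omega
      · intro h1
        exact absurd hO h1.2
    · have hO' := hO
      push Not at hO'
      rw [E.F_coe_not hO']
      exact ⟨fun h => ⟨h, hO⟩, fun h => h.1⟩
  -- targets are not folded
  have tO : ∀ p, D.mv p (g • D.v) → ∀ h : H, D.tg p (g • D.v) ≠ h • E.T := by
    intro p hp
    obtain ⟨k, k1, k2⟩ := hp
    rw [D.tg_mv k1 k2]
    exact haO k
  have FO : ∀ p, K.E p (g • D.v) → D.mv p (g • D.v) → (∃ k : H, p = k • E.T) →
      E.toF.F p = E.toF.F (D.tg p (g • D.v)) := by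
    rintro _ e hk ⟨k, rfl⟩
    rw [key k e hk, E.F_Tm, hya]
  rw [D.s_sv, (E.cu D hh).s_sv, tgF p hp, tgF r hr]
  unfold mt
  by_cases h1 : D.mv p (g • D.v)
  · by_cases h2 : D.mv r (g • D.v)
    · by_cases o1 : ∃ k : H, p = k • E.T
      · have n1 : ¬ (E.cu D hh).mv (E.toF.F p) (E.toF.F (g • D.v)) := fun k => ((mvF p).1 k).2 o1
        by_cases o2 : ∃ k : H, r = k • E.T
        · have n2 : ¬ (E.cu D hh).mv (E.toF.F r) (E.toF.F (g • D.v)) := fun k => ((mvF r).1 k).2 o2
          rw [if_pos ⟨h1, o1⟩, if_pos ⟨h2, o2⟩, sv_nn n1 n2, sv_mm' h1 h2]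
          · norm_num
          · intro e
            rw [FO p hp h1 o1, FO r hr h2 o2, e] at hne
            exact hne rfl
        · have n2 := (mvF r).2 ⟨h2, o2⟩
          rw [if_pos ⟨h1, o1⟩, if_neg (fun k => o2 k.2)]
          by_cases e : D.tg p (g • D.v) = D.tg r (g • D.v)
          · rw [sv_mm h1 h2 e, sv_symm, sv_mt n2 n1 (by rw [e])]
            norm_num
          · rw [sv_mm' h1 h2 e, sv_symm, sv_mn n2 n1 (fun k => e (E.F_inj (tO p h1) (tO r h2) k))]
            norm_num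
      · have n1 := (mvF p).2 ⟨h1, o1⟩
        by_cases o2 : ∃ k : H, r = k • E.T
        · have n2 : ¬ (E.cu D hh).mv (E.toF.F r) (E.toF.F (g • D.v)) := fun k => ((mvF r).1 k).2 o2
          rw [if_neg (fun k => o1 k.2), if_pos ⟨h2, o2⟩]
          by_cases e : D.tg p (g • D.v) = D.tg r (g • D.v)
          · rw [sv_mm h1 h2 e, sv_mt n1 n2 (by rw [e])]
            norm_num
          · rw [sv_mm' h1 h2 e, sv_mn n1 n2 (fun k => e (E.F_inj (tO r h2) (tO p h1) k).symm)]
            norm_num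
        · have n2 := (mvF r).2 ⟨h2, o2⟩
          rw [if_neg (fun k => o1 k.2), if_neg (fun k => o2 k.2)]
          by_cases e : D.tg p (g • D.v) = D.tg r (g • D.v)
          · rw [sv_mm h1 h2 e, sv_mm n1 n2 (by rw [e])]
            norm_num
          · rw [sv_mm' h1 h2 e, sv_mm' n1 n2 (fun k => e (E.F_inj (tO p h1) (tO r h2) k))]
            norm_num
    · have n2 : ¬ (E.cu D hh).mv (E.toF.F r) (E.toF.F (g • D.v)) := fun k => h2 ((mvF r).1 k).1
      rw [if_neg (show ¬ (D.mv r (g • D.v) ∧ ∃ h : H, r = h • E.T) from fun k => h2 k.1),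
        D.tg_not h2]
      by_cases o1 : ∃ k : H, p = k • E.T
      · have n1 : ¬ (E.cu D hh).mv (E.toF.F p) (E.toF.F (g • D.v)) := fun k => ((mvF p).1 k).2 o1
        rw [if_pos ⟨h1, o1⟩, sv_nn n1 n2, sv_mn h1 h2]
        · norm_num
        · intro e
          rw [FO p hp h1 o1, ← e] at hne
          exact hne rfl
      · have n1 := (mvF p).2 ⟨h1, o1⟩
        rw [if_neg (fun k => o1 k.2)]
        by_cases e : r = D.tg p (g • D.v)
        · rw [sv_mt h1 h2 e, sv_mt n1 n2 (by rw [e])]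
          norm_num
        · rw [sv_mn h1 h2 e]
          by_cases e2 : E.toF.F r = E.toF.F (D.tg p (g • D.v))
          · rw [sv_mt n1 n2 e2]
            norm_num
          · rw [sv_mn n1 n2 e2]
            norm_num
  · have n1 : ¬ (E.cu D hh).mv (E.toF.F p) (E.toF.F (g • D.v)) := fun k => h1 ((mvF p).1 k).1
    rw [if_neg (show ¬ (D.mv p (g • D.v) ∧ ∃ h : H, p = h • E.T) from fun k => h1 k.1),
      D.tg_not h1]
    by_cases h2 : D.mv r (g • D.v)
    · by_cases o2 : ∃ k : H, r = k • E.T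
      · have n2 : ¬ (E.cu D hh).mv (E.toF.F r) (E.toF.F (g • D.v)) := fun k => ((mvF r).1 k).2 o2
        rw [if_pos ⟨h2, o2⟩, sv_nn n1 n2, sv_symm, sv_mn h2 h1]
        · norm_num
        · intro e
          rw [FO r hr h2 o2, ← e] at hne
          exact hne rfl
      · have n2 := (mvF r).2 ⟨h2, o2⟩
        rw [if_neg (fun k => o2 k.2), sv_symm, sv_symm (b := D.mv p (g • D.v))]
        by_cases e : p = D.tg r (g • D.v)
        · rw [sv_mt h2 h1 e, sv_mt n2 n1 (by rw [e])]
          norm_num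
        · rw [sv_mn h2 h1 e]
          by_cases e2 : E.toF.F p = E.toF.F (D.tg r (g • D.v))
          · rw [sv_mt n2 n1 e2]
            norm_num
          · rw [sv_mn n2 n1 e2]
            norm_num
    · have n2 : ¬ (E.cu D hh).mv (E.toF.F r) (E.toF.F (g • D.v)) := fun k => h2 ((mvF r).1 k).1
      rw [if_neg (fun k => h2 k.1), sv_nn n1 n2, sv_nn h1 h2]
      norm_num

/-- TYPE 0, the top and the partner are in `R`, the other side is no hub: nothing changes -/
theorem type0 (hh : E.Hub D) (hT : E.T ∈ D.R) (hy : E.y ∈ D.R) {m : V}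
    (hpol : ∀ q, K.ar E.T q → q = D.v ∨ q = m) (hm : ∀ h : H, h • m ≠ D.v)
    {p q r : V} (hp : K.E p q) (hr : K.E r q) :
    (E.cu D hh).s (E.toF.F p) (E.toF.F q) (E.toF.F r) = D.s p q r := by
  have rv := K.ar_rk _ _ (D.R_ar _ hT)
  have ry := K.ar_rk _ _ (D.R_ar _ hy)
  have ra := K.ar_rk _ _ D.va
  by_cases hq : ∃ g : H, q = g • D.v
  swap
  · push Not at hq
    rw [D.s_far hq, (E.cu D hh).s_far]
    refine F_ne_hub hh (fun g e => ?_) hq
    have := congrArg K.rk e
    rw [K.rk_smul] at this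
    omega
  obtain ⟨g, rfl⟩ := hq
  have hqO := E.tr_not hh.v g
  have hyT : ∀ k : H, E.y ≠ k • E.T := E.not_of_rk (by have := E.rk; omega)
  have key : ∀ k : H, K.E (k • E.T) (g • D.v) → g • D.v = k • D.v := by
    intro k e
    have e' : K.ar (k • E.T) (g • D.v) := by
      rcases e with e | e
      · exact e
      · have := K.ar_rk _ _ e
        rw [K.rk_smul, K.rk_smul] at this
        omega
    have e2 := K.ar_smul k⁻¹ _ _ e'
    rw [inv_smul_smul] at e2
    rcases hpol _ e2 with h1 | h1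
    · rwa [inv_smul_eq_iff] at h1
    · rw [inv_smul_eq_iff] at h1
      exact absurd (by rw [mul_smul, ← h1, inv_smul_smul]) (hm (g⁻¹ * k))
  have mvF : ∀ p, K.E p (g • D.v) → ((E.cu D hh).mv (E.toF.F p) (E.toF.F (g • D.v)) ↔
      D.mv p (g • D.v)) := by
    intro p hp
    rw [cu_mv hh hqO]
    by_cases hO : ∃ k : H, p = k • E.T
    · obtain ⟨k, rfl⟩ := hO
      have e := key k hp
      refine iff_of_true ?_ ⟨k, by rw [inv_smul_smul]; exact hT, e⟩
      rw [E.F_Tm, E.F_coe_not (E.tr_not hyT k)]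
      exact ⟨k, by rw [inv_smul_smul]; exact hy, e⟩
    · push Not at hO
      rw [E.F_coe_not hO]
  have tgF : ∀ p, K.E p (g • D.v) →
      (E.cu D hh).tg (E.toF.F p) (E.toF.F (g • D.v)) = E.toF.F (D.tg p (g • D.v)) := by
    intro p hp
    by_cases hO : ∃ k : H, p = k • E.T
    · obtain ⟨k, rfl⟩ := hO
      have e := key k hp
      have m1 : D.mv (k • E.y) (g • D.v) := ⟨k, by rw [inv_smul_smul]; exact hy, e⟩
      rw [E.F_Tm, cu_tg hh (by rw [E.F_coe_not (E.tr_not hyT k)]; exact m1),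
        E.F_coe_not (E.tr_not hyT k), D.tg_mv (h := k) (by rw [inv_smul_smul]; exact hy) e,
        D.tg_mv (h := k) (by rw [inv_smul_smul]; exact hT) e]
    · push Not at hO
      by_cases hk : D.mv p (g • D.v)
      · rw [cu_tg hh (by rw [E.F_coe_not hO]; exact hk), E.F_coe_not hO]
      · rw [cu_tg' hh hqO (by rw [E.F_coe_not hO]; exact hk), D.tg_not hk]
  have tO : ∀ p, K.E p (g • D.v) → ∀ h : H, D.tg p (g • D.v) ≠ h • E.T := by
    intro p hp
    by_cases hk : D.mv p (g • D.v)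
    · obtain ⟨k, k1, k2⟩ := hk
      rw [D.tg_mv k1 k2]
      exact E.tr_not hh.a k
    · rw [D.tg_not hk]
      rintro k rfl
      exact hk ⟨k, by rw [inv_smul_smul]; exact hT, key k hp⟩
  rw [D.s_sv, (E.cu D hh).s_sv, tgF p hp, tgF r hr]
  exact sv_congr (mvF p hp) (mvF r hr) ⟨fun e => E.F_inj (tO p hp) (tO r hr) e, fun e => by rw [e]⟩

end Sq1

end Pool.Agent.DI
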