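import Pool.Agent.DI.PqD

/-!
# DI/PqD2: the cut data of the fold of a top to the hub
-/

namespace Pool.Agent.DI

open MulAction
open Pool.Agent.SAF (InC orbs FinOrb oc)
open Pool.Agent.BT (PX)

variable {H V : Type} [Group H] [MulAction H V]

namespace Sq1

open P45 (arF rkF rkF_le)

variable (K : GX H V) (E : Sq1 K) (D : CuD K)

/-- the partner is the hub -/
structure Hu2 {K : GX H V} (E : Sq1 K) (D : CuD K) : Prop where
  y : E.y = D.v
  fix : ∀ t : H, t • E.T = E.T → t • D.a = D.a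
  far : ∀ g h : H, ¬ K.ar (g • E.T) (h • D.v)

variable {K E D}

namespace Hu2

variable (hu : E.Hu2 D)

include hu

theorem rk : K.rk D.v < K.rk E.T := by
  rw [← hu.y]
  exact E.rk

theorem hub : E.Hub D := Hub.of_rk E D hu.rk

theorem F_Tm (g : H) : E.toF.F (g • E.T) = g • E.toF.F D.v := by
  rw [E.F_Tm, hu.y, E.toF.F_smul]

/-- the set of the fold -/
def R2 (_ : E.Hu2 D) : Set E.toF.W := {c | (c.1 ∈ D.R ∨ ∃ h : H, h • D.v = D.v ∧ h • D.a = D.a ∧
  K.ar c.1 (h • E.T)) ∧ ∃ d, E.toF.gx.ar c d ∧ d ≠ E.toF.F D.v}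

omit hu in
/-- all out-arrows of a vertex below the hub and a translate of the top go to the hub -/
theorem one {c : E.toF.W} {x y : V} (h1 : K.ar c.1 x) (h2 : K.ar c.1 y) (hxy : x ≠ y)
    (hx : E.toF.F x = E.toF.F D.v) (hy : E.toF.F y = E.toF.F D.v) {d : E.toF.W}
    (hd : E.toF.gx.ar c d) : d = E.toF.F D.v := by
  obtain ⟨a, ha, rfl⟩ := hd
  rcases K.two _ _ _ _ ha h1 h2 with e | e | e
  · rw [e, hx]
  · exact absurd e hxy
  · rw [e, hy]

theorem ne_T (x h : H) : x • D.v ≠ h • E.T := E.tr_not hu.hub.v x h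

/-- the cut of the fold -/
noncomputable def cu : CuD E.toF.gx where
  v := E.toF.F D.v
  a := E.toF.F D.a
  b := E.toF.F D.b
  R := hu.R2
  va := arF D.va hu.hub.v
  vb := arF D.vb hu.hub.v
  ab := fun e => D.ab (E.F_inj hu.hub.a hu.hub.b e)
  R_ar := by
    rintro c ⟨hc | ⟨h, h1, h2, h3⟩, -⟩
    · exact ⟨D.v, D.R_ar _ hc, rfl⟩
    · exact ⟨h • E.T, h3, by rw [hu.F_Tm, ← E.toF.F_smul, h1]⟩
  stab := by
    intro g e c hc hc'
    have e0 := F_fix hu.hub.v e
    refine F_fix' ?_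
    obtain ⟨hc, d, hd, hdv⟩ := hc
    obtain ⟨hc', -⟩ := hc'
    have e0' : D.v = g⁻¹ • D.v := by
      rw [eq_inv_smul_iff, e0]
    rcases hc with hc | ⟨h, h1, h2, h3⟩
    · rcases hc' with hc' | ⟨h', h1', h2', h3'⟩
      · exact D.stab g e0 c.1 hc hc'
      · exfalso
        have h4 := K.ar_smul g⁻¹ _ _ h3'
        rw [show g⁻¹ • (g • c).1 = c.1 from inv_smul_smul _ _, ← mul_smul] at h4
        refine hdv (one (D := D) (D.R_ar _ hc) h4 ?_ rfl ?_ hd)
        · have := hu.ne_T 1 (g⁻¹ * h')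
          rwa [one_smul] at this
        · rw [hu.F_Tm, ← E.toF.F_smul, mul_smul, h1', ← e0']
    · rcases hc' with hc' | ⟨h', h1', h2', h3'⟩
      · exfalso
        have h4 := K.ar_smul g⁻¹ _ _ (D.R_ar _ hc')
        rw [show g⁻¹ • (g • c).1 = c.1 from inv_smul_smul _ _, ← e0'] at h4
        refine hdv (one (D := D) h4 h3 ?_ rfl ?_ hd)
        · have := hu.ne_T 1 h
          rwa [one_smul] at this
        · rw [hu.F_Tm, ← E.toF.F_smul, h1]
      · have h4 := K.ar_smul g⁻¹ _ _ h3'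
        rw [show g⁻¹ • (g • c).1 = c.1 from inv_smul_smul _ _, ← mul_smul] at h4
        by_cases hx : h • E.T = (g⁻¹ * h') • E.T
        · have h5 : (h⁻¹ * (g⁻¹ * h')) • E.T = E.T := by
            rw [mul_smul, ← hx, inv_smul_smul]
          have h6 := hu.fix _ h5
          rw [mul_smul, inv_smul_eq_iff, mul_smul, h2, h2', inv_smul_eq_iff] at h6
          exact h6.symm
        · exfalso
          refine hdv (one (D := D) h3 h4 hx ?_ ?_ hd)
          · rw [hu.F_Tm, ← E.toF.F_smul, h1]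
          · rw [hu.F_Tm, ← E.toF.F_smul, mul_smul, h1', ← e0']
  inv := by
    intro g e1 e2 c hc
    have e1' := F_fix hu.hub.v e1
    have e2' := F_fix hu.hub.a e2
    obtain ⟨hc, d, hd, hdv⟩ := hc
    refine ⟨?_, g • d, E.toF.gx.ar_smul g _ _ hd, ?_⟩
    · rcases hc with hc | ⟨h, h1, h2, h3⟩
      · exact Or.inl (D.inv g e1' e2' c.1 hc)
      · exact Or.inr ⟨g * h, by rw [mul_smul, h1, e1'], by rw [mul_smul, h2, e2'], by
          rw [mul_smul]
          exact K.ar_smul g _ _ h3⟩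
    · intro e
      apply hdv
      rw [← e1] at e
      exact smul_left_cancel g e

theorem cu_v : hu.cu.v = E.toF.F D.v := rfl

/-- legs at the hub -/
theorem cu_mv {p : V} {g : H} (hp : K.E p (g • D.v))
    (hn : E.toF.gx.Nh (E.toF.F p) (E.toF.F (g • D.v))) :
    hu.cu.mv (E.toF.F p) (E.toF.F (g • D.v)) ↔ D.mv p (g • D.v) := by
  have hpO : ∀ h : H, p ≠ h • E.T := by
    rintro h rfl
    rcases hp with e | e
    · exact hu.far _ _ e
    · have := K.ar_rk _ _ e
      rw [K.rk_smul, K.rk_smul] at this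
      have := hu.rk
      omega
  constructor
  · rintro ⟨h, ⟨h1, d, hd, hdv⟩, h2⟩
    have h2' : g • D.v = h • D.v := F_hub hu.hub.v (E.tr_not hu.hub.v g) h2
    rcases h1 with h1 | ⟨h', k1, k2, k3⟩
    · refine ⟨h, ?_, h2'⟩
      have : (h⁻¹ • E.toF.F p).1 = h⁻¹ • p := by
        rw [SqF.smul_coe, E.F_coe_not hpO]
      rwa [this] at h1
    · exfalso
      have e1 : (h⁻¹ • E.toF.F p).1 = h⁻¹ • p := by
        rw [SqF.smul_coe, E.F_coe_not hpO]
      have hpa : K.ar p (g • D.v) := by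
        rcases hp with e | e
        · exact e
        · exfalso
          have r1 := K.ar_rk _ _ k3
          rw [e1, K.rk_smul, K.rk_smul] at r1
          have r2 := K.ar_rk _ _ e
          rw [K.rk_smul] at r2
          have := hu.rk
          omega
      have h4 : K.ar (h⁻¹ • E.toF.F p).1 D.v := by
        rw [e1]
        have := K.ar_smul h⁻¹ _ _ hpa
        rwa [h2', inv_smul_smul] at this
      refine hdv (one (D := D) h4 k3 ?_ rfl ?_ hd)
      · have := hu.ne_T 1 h'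
        rwa [one_smul] at this
      · rw [hu.F_Tm, ← E.toF.F_smul, k1]
  · rintro ⟨h, h1, h2⟩
    have hpa : K.ar p (g • D.v) := D.mv_ar ⟨h, h1, h2⟩
    obtain ⟨d, hd, hdv⟩ := hn.ex (arF hpa hpO)
    refine ⟨h, ⟨Or.inl ?_, h⁻¹ • d, E.toF.gx.ar_smul h⁻¹ _ _ hd, ?_⟩, ?_⟩
    · rw [SqF.smul_coe, E.F_coe_not hpO]
      exact h1
    · intro e
      apply hdv
      rw [h2, E.toF.F_smul, ← e, smul_inv_smul]
    · rw [h2]
      exact E.toF.F_smul _ _

/-- the targets at the hub -/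
theorem cu_tg {p : V} {g : H} (hp : K.E p (g • D.v))
    (hn : E.toF.gx.Nh (E.toF.F p) (E.toF.F (g • D.v))) :
    hu.cu.tg (E.toF.F p) (E.toF.F (g • D.v)) = E.toF.F (D.tg p (g • D.v)) := by
  by_cases h : D.mv p (g • D.v)
  · have h' := (hu.cu_mv hp hn).2 h
    have hpO : ∀ h : H, p ≠ h • E.T := by
      rintro h rfl
      exact hu.far _ _ (D.mv_ar ‹_›)
    obtain ⟨k, k1, k2⟩ := h
    obtain ⟨d, hd, hdv⟩ := hn.ex (arF (D.mv_ar ⟨k, k1, k2⟩) hpO)
    have h5 : hu.cu.tg (E.toF.F p) (E.toF.F (g • D.v)) = k • E.toF.F D.a := by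
      refine hu.cu.tg_mv (h := k) ⟨Or.inl ?_, k⁻¹ • d, E.toF.gx.ar_smul k⁻¹ _ _ hd, ?_⟩ ?_
      · rw [SqF.smul_coe, E.F_coe_not hpO]
        exact k1
      · intro e
        apply hdv
        rw [k2, E.toF.F_smul, ← e, smul_inv_smul]
      · rw [k2]
        exact E.toF.F_smul _ _
    rw [D.tg_mv k1 k2, h5, E.toF.F_smul]
  · rw [D.tg_not h, hu.cu.tg_not (fun k => h ((hu.cu_mv hp hn).1 k))]

/-- nothing changes at the hub -/
theorem at_hub {p r : V} {g : H} (hp : K.E p (g • D.v)) (hr : K.E r (g • D.v))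
    (hn : E.toF.gx.Nh (E.toF.F p) (E.toF.F (g • D.v)))
    (hn' : E.toF.gx.Nh (E.toF.F r) (E.toF.F (g • D.v))) :
    hu.cu.s (E.toF.F p) (E.toF.F (g • D.v)) (E.toF.F r) = D.s p (g • D.v) r := by
  rw [D.s_sv, hu.cu.s_sv, hu.cu_tg hp hn, hu.cu_tg hr hn']
  have tO : ∀ p, K.E p (g • D.v) → ∀ h : H, D.tg p (g • D.v) ≠ h • E.T := by
    intro p hp
    by_cases hk : D.mv p (g • D.v)
    · obtain ⟨k, k1, k2⟩ := hk
      rw [D.tg_mv k1 k2]
      exact E.tr_not hu.hub.a k
    · rw [D.tg_not hk]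
      rintro k rfl
      rcases hp with e | e
      · exact hu.far _ _ e
      · have := K.ar_rk _ _ e
        rw [K.rk_smul, K.rk_smul] at this
        have := hu.rk
        omega
  exact sv_congr (hu.cu_mv hp hn) (hu.cu_mv hr hn')
    ⟨fun e => E.F_inj (tO p hp) (tO r hr) e, fun e => by rw [e]⟩

/-- in-arrows of the top are moved to the hub's pole -/
theorem top_in {p : V} {g : H} (hp : K.ar p (g • E.T))
    (hn : E.toF.gx.Nh (E.toF.F p) (E.toF.F (g • E.T))) :
    hu.cu.mv (E.toF.F p) (E.toF.F (g • E.T)) ∧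
      hu.cu.tg (E.toF.F p) (E.toF.F (g • E.T)) = g • E.toF.F D.a := by
  have hpO : ∀ h : H, p ≠ h • E.T := by
    rintro h rfl
    have := K.ar_rk _ _ hp
    rw [K.rk_smul, K.rk_smul] at this
    omega
  obtain ⟨d, hd, hdv⟩ := hn.ex (arF hp hpO)
  have h1 : g⁻¹ • E.toF.F p ∈ hu.cu.R := by
    refine ⟨Or.inr ⟨1, one_smul _ _, one_smul _ _, ?_⟩, g⁻¹ • d,
      E.toF.gx.ar_smul g⁻¹ _ _ hd, ?_⟩
    · rw [SqF.smul_coe, E.F_coe_not hpO, one_smul]
      have := K.ar_smul g⁻¹ _ _ hp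
      rwa [inv_smul_smul] at this
    · intro e
      apply hdv
      rw [hu.F_Tm, ← e, smul_inv_smul]
  have h2 : E.toF.F (g • E.T) = g • hu.cu.v := hu.F_Tm g
  exact ⟨⟨g, h1, h2⟩, hu.cu.tg_mv h1 h2⟩

/-- a side of the top in `R` is moved to the hub's pole -/
theorem side_in {m : V} (hm : m ∈ D.R) (hTm : K.rk m < K.rk E.T) {g : H}
    (hn : E.toF.gx.Nh (E.toF.F (g • m)) (E.toF.F (g • E.T))) :
    hu.cu.mv (E.toF.F (g • m)) (E.toF.F (g • E.T)) ∧
      hu.cu.tg (E.toF.F (g • m)) (E.toF.F (g • E.T)) = g • E.toF.F D.a := by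
  have hmO : ∀ h : H, m ≠ h • E.T := E.not_of_rk (by omega)
  have hgm : ∀ h : H, g • m ≠ h • E.T := E.tr_not hmO g
  have h2 : E.toF.F (g • E.T) = g • hu.cu.v := hu.F_Tm g
  have ha : E.toF.gx.ar (E.toF.F (g • m)) (E.toF.F (g • E.T)) := by
    rw [h2]
    have := arF (K.ar_smul g _ _ (D.R_ar _ hm)) hgm
    rw [E.toF.F_smul g D.v] at this
    exact this
  obtain ⟨d, hd, hdv⟩ := hn.ex ha
  have h1 : g⁻¹ • E.toF.F (g • m) ∈ hu.cu.R := by
    refine ⟨Or.inl ?_, g⁻¹ • d, E.toF.gx.ar_smul g⁻¹ _ _ hd, ?_⟩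
    · rw [SqF.smul_coe, E.F_coe_not hgm, inv_smul_smul]
      exact hm
    · intro e
      apply hdv
      rw [hu.F_Tm, ← e, smul_inv_smul]
  exact ⟨⟨g, h1, h2⟩, hu.cu.tg_mv h1 h2⟩

/-- elsewhere nothing happens -/
theorem away {p q r : V} (h1 : ∀ g : H, q ≠ g • D.v) (h2 : ∀ g : H, q ≠ g • E.T) :
    hu.cu.s (E.toF.F p) (E.toF.F q) (E.toF.F r) = 0 := by
  refine hu.cu.s_far fun g e => ?_
  exact h1 g (F_hub hu.hub.v h2 e)

/-- TYPE 0, both sides in `R` -/
theorem type0 {m m' : V} (hm : m ∈ D.R) (hm' : m' ∈ D.R) (hTm : K.rk m < K.rk E.T)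
    (hTm' : K.rk m' < K.rk E.T) (hpol : ∀ q, K.ar E.T q → q = m ∨ q = m')
    {p q r : V} (hp : K.E p q) (hr : K.E r q)
    (hn : E.toF.gx.Nh (E.toF.F p) (E.toF.F q)) (hn' : E.toF.gx.Nh (E.toF.F r) (E.toF.F q)) :
    hu.cu.s (E.toF.F p) (E.toF.F q) (E.toF.F r) = D.s p q r := by
  by_cases h1 : ∃ g : H, q = g • D.v
  · obtain ⟨g, rfl⟩ := h1
    exact hu.at_hub hp hr hn hn'
  · push Not at h1
    rw [D.s_far h1]
    by_cases h2 : ∃ g : H, q = g • E.T
    · obtain ⟨g, rfl⟩ := h2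
      have key : ∀ p, K.E p (g • E.T) → E.toF.gx.Nh (E.toF.F p) (E.toF.F (g • E.T)) →
          hu.cu.mv (E.toF.F p) (E.toF.F (g • E.T)) ∧
          hu.cu.tg (E.toF.F p) (E.toF.F (g • E.T)) = g • E.toF.F D.a := by
        intro p hp hn
        rcases hp with e | e
        · exact hu.top_in e hn
        · have e2 := K.ar_smul g⁻¹ _ _ e
          rw [inv_smul_smul] at e2
          rcases hpol _ e2 with e3 | e3
          · rw [inv_smul_eq_iff] at e3
            subst e3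
            exact hu.side_in hm hTm hn
          · rw [inv_smul_eq_iff] at e3
            subst e3
            exact hu.side_in hm' hTm' hn
      obtain ⟨k1, k2⟩ := key p hp hn
      obtain ⟨k3, k4⟩ := key r hr hn'
      rw [hu.cu.s_sv, k2, k4, sv_mm k1 k3 rfl]
    · push Not at h2
      exact hu.away h1 h2

end Hu2

open Classical in
/-- the legs in the orbit of the pair `x y` -/
noncomputable def _root_.Pool.Agent.DI.lgc (H : Type) {V : Type} [Group H] [MulAction H V]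
    (x y p q r : V) : ℤ := (if Tr H x y p q then 1 else 0) + (if Tr H x y r q then 1 else 0)

namespace Hu2

variable (hu : E.Hu2 D)

include hu

/-- TYPE III, one side in `R`, the other side is the pole -/
theorem type3 {m : V} (hm : m ∈ D.R) (hTm : K.rk m < K.rk E.T)
    (hpol : ∀ q, K.ar E.T q → q = m ∨ q = D.a) {p q r : V} (hp : K.E p q) (hr : K.E r q)
    (hne : E.toF.F p ≠ E.toF.F r) (hn : E.toF.gx.Nh (E.toF.F p) (E.toF.F q))
    (hn' : E.toF.gx.Nh (E.toF.F r) (E.toF.F q)) :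
    lgc H D.a E.T p q r + hu.cu.s (E.toF.F p) (E.toF.F q) (E.toF.F r) ≤ D.s p q r := by
  have rv := hu.rk
  have ra := K.ar_rk _ _ D.va
  have rm := K.ar_rk _ _ (D.R_ar _ hm)
  by_cases h2 : ∃ g : H, q = g • E.T
  swap
  · have l0 : lgc H D.a E.T p q r = 0 := by
      unfold lgc
      rw [if_neg, if_neg]
      · rfl
      · rintro ⟨h, -, e⟩
        exact h2 ⟨h, e⟩
      · rintro ⟨h, -, e⟩
        exact h2 ⟨h, e⟩
    rw [l0, zero_add]
    by_cases h1 : ∃ g : H, q = g • D.v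
    · obtain ⟨g, rfl⟩ := h1
      exact (hu.at_hub hp hr hn hn').le
    · push Not at h1 h2
      rw [hu.away h1 h2, D.s_far h1]
  · obtain ⟨g, rfl⟩ := h2
    have hs : D.s p (g • E.T) r = 0 := D.s_far (fun h e => by
      have := congrArg K.rk e
      rw [K.rk_smul, K.rk_smul] at this
      omega)
    rw [hs]
    -- the legs
    have tr : ∀ p, Tr H D.a E.T p (g • E.T) ↔ p = g • D.a := by
      intro p
      constructor
      · rintro ⟨h, h1, h2⟩
        have h3 : (g⁻¹ * h) • E.T = E.T := by rw [mul_smul, ← h2, inv_smul_smul]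
        have h4 := hu.fix _ h3
        rw [mul_smul, inv_smul_eq_iff] at h4
        rw [h1, h4]
      · rintro rfl
        exact ⟨g, rfl, rfl⟩
    have key : ∀ p, K.E p (g • E.T) → E.toF.gx.Nh (E.toF.F p) (E.toF.F (g • E.T)) →
        p ≠ g • D.a → hu.cu.mv (E.toF.F p) (E.toF.F (g • E.T)) ∧
        hu.cu.tg (E.toF.F p) (E.toF.F (g • E.T)) = g • E.toF.F D.a := by
      intro p hp hn hpa
      rcases hp with e | e
      · exact hu.top_in e hn
      · have e2 := K.ar_smul g⁻¹ _ _ e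
        rw [inv_smul_smul] at e2
        rcases hpol _ e2 with e3 | e3
        · rw [inv_smul_eq_iff] at e3
          subst e3
          exact hu.side_in hm hTm hn
        · rw [inv_smul_eq_iff] at e3
          exact absurd e3 hpa
    have keya : ¬ hu.cu.mv (E.toF.F (g • D.a)) (E.toF.F (g • E.T)) := by
      refine CuD.not_mv_of_rk ?_
      show E.toF.gx.rk (E.toF.F (g • D.a)) ≤ E.toF.gx.rk (E.toF.F D.v)
      rw [rkF (E.tr_not hu.hub.a g), rkF hu.hub.v, K.rk_smul]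
      omega
    have keyt : hu.cu.tg (E.toF.F (g • D.a)) (E.toF.F (g • E.T)) = g • E.toF.F D.a := by
      rw [hu.cu.tg_not keya, E.toF.F_smul]
    unfold lgc
    rw [hu.cu.s_sv]
    by_cases e1 : p = g • D.a
    · by_cases e2 : r = g • D.a
      · rw [e1, e2] at hne
        exact absurd rfl hne
      · obtain ⟨k1, k2⟩ := key r hr hn' e2
        rw [if_pos ((tr p).2 e1), if_neg (fun k => e2 ((tr r).1 k)), k2, e1, keyt, sv_symm,
          sv_mt k1 keya rfl]
        norm_num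
    · obtain ⟨k1, k2⟩ := key p hp hn e1
      by_cases e2 : r = g • D.a
      · rw [if_neg (fun k => e1 ((tr p).1 k)), if_pos ((tr r).2 e2), k2, e2, keyt,
          sv_mt k1 keya rfl]
        norm_num
      · obtain ⟨k3, k4⟩ := key r hr hn' e2
        rw [if_neg (fun k => e1 ((tr p).1 k)), if_neg (fun k => e2 ((tr r).1 k)), k2, k4,
          sv_mm k1 k3 rfl]
        norm_num

end Hu2

end Sq1

end Pool.Agent.DI
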