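import Pool.Agent.DI.PqD2

/-!
# DI/PqE: weighted passes, the three fold steps

`P.W i x y`: the weighted number of the passes of the edge `x y` in the cells other than `i` (twice the
number of strands). `Cm.W_two`: it is at least `2` at the arrows of the tops. `Cm.stepI`, `Cm.stepIII`,
`Cm.step0`, `Cm.step0'`: the sums before and after the folds.
-/

namespace Pool.Agent.DI

open MulAction
open Pool.Agent.SAF (InC orbs FinOrb oc)
open Pool.Agent.BT (PX)

variable {H V : Type} [Group H] [MulAction H V]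

theorem lgc_nonneg (x y p q r : V) : 0 ≤ lgc H x y p q r := by
  unfold lgc
  split_ifs <;> norm_num

theorem lgc_symm (x y p q r : V) : lgc H x y p q r = lgc H x y r q p := by
  unfold lgc
  rw [add_comm]

theorem lgc_left {x y p q : V} (r : V) (h : Tr H x y p q) : 1 ≤ lgc H x y p q r := by
  unfold lgc
  rw [if_pos h]
  split_ifs <;> norm_num

theorem lgc_right {x y q r : V} (p : V) (h : Tr H x y r q) : 1 ≤ lgc H x y p q r := by
  rw [lgc_symm]
  exact lgc_left p h

theorem lgc_two {x y p q r : V} (h : Tr H x y p q) (h' : Tr H x y r q) : lgc H x y p q r = 2 := by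
  unfold lgc
  rw [if_pos h, if_pos h']
  norm_num

theorem lgc_zero {x y p q r : V} (h : ¬ Tr H x y p q) (h' : ¬ Tr H x y r q) :
    lgc H x y p q r = 0 := by
  unfold lgc
  rw [if_neg h, if_neg h']
  norm_num

namespace P45

variable {K : GX H V} (P : P45 K)

/-- the weighted sum without the cell `i` -/
theorem tt_sub (i0 : K.I) (m : V → V → V → ℤ) [DecidableEq K.I] :
    P.tt m - P.wm i0 * P.cc i0 m = ∑ i, if i = i0 then 0 else P.wm i * P.cc i m := by
  have h0 : (∑ i, if i = i0 then P.wm i * P.cc i m else 0) = P.wm i0 * P.cc i0 m := by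
    rw [Finset.sum_ite_eq' Finset.univ i0 (fun i => P.wm i * P.cc i m),
      if_pos (Finset.mem_univ _)]
  rw [← h0]
  unfold tt
  rw [← Finset.sum_sub_distrib]
  refine Finset.sum_congr rfl fun i _ => ?_
  by_cases hi : i = i0
  · rw [if_pos hi, if_pos hi, sub_self]
  · rw [if_neg hi, if_neg hi, sub_zero]

/-- the weighted number of the passes of an edge in the cells other than `i` -/
noncomputable def W (i : K.I) (x y : V) : ℤ := P.tt (lgc H x y) - P.wm i * P.cc i (lgc H x y)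

/-- monotone -/
theorem tt_sub_mono (i0 : K.I) {m m' : V → V → V → ℤ} (h : ∀ p q r, m p q r ≤ m' p q r) :
    P.tt m - P.wm i0 * P.cc i0 m ≤ P.tt m' - P.wm i0 * P.cc i0 m' := by
  classical
  rw [P.tt_sub, P.tt_sub]
  refine Finset.sum_le_sum fun i _ => ?_
  by_cases hi : i = i0
  · rw [if_pos hi, if_pos hi]
  · rw [if_neg hi, if_neg hi]
    exact mul_le_mul_of_nonneg_left (P.cc_le (fun _ _ => h _ _ _) (fun _ _ => h _ _ _))
      (P.wm_nonneg i)

theorem cc_lgc_nonneg (i : K.I) (x y : V) : 0 ≤ P.cc i (lgc H x y) :=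
  P.cc_nonneg (fun _ _ => lgc_nonneg _ _ _ _ _) (fun _ _ => lgc_nonneg _ _ _ _ _)

variable {P}

/-- a pass is counted -/
theorem cc_lgc_pos {i : K.I} {x y : V} (e : P.eg i x y) : 1 ≤ P.cc i (lgc H x y) := by
  have f5a : ∀ j : Fin 5, j + 4 + 1 = j := by decide
  have f5b : ∀ j : Fin 5, j + 4 + 2 = j + 1 := by decide
  rcases e with ⟨hi, h, j, e⟩ | ⟨hi, h, j, e⟩
  · rw [P.cc_sq hi]
    rcases e with ⟨e1, e2⟩ | ⟨e1, e2⟩
    · refine le_trans (lgc_left (P.qt i (j + 2)) (x := x) (y := y) (p := P.qt i j)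
        (q := P.qt i (j + 1)) ⟨h⁻¹, by rw [e1, inv_smul_smul], by rw [e2, inv_smul_smul]⟩) ?_
      exact Finset.single_le_sum (f := fun j => lgc H x y (P.qt i j) (P.qt i (j + 1))
        (P.qt i (j + 2))) (fun j _ => lgc_nonneg _ _ _ _ _) (Finset.mem_univ j)
    · have := lgc_right (P.qt i (j + 3)) (x := x) (y := y) (q := P.qt i (j + 3 + 1))
        (r := P.qt i (j + 3 + 2)) (H := H) ⟨h⁻¹, by rw [f4f, e2, inv_smul_smul], by
          rw [f4c, e1, inv_smul_smul]⟩
      refine this.trans ?_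
      exact Finset.single_le_sum (f := fun j => lgc H x y (P.qt i j) (P.qt i (j + 1))
        (P.qt i (j + 2))) (fun j _ => lgc_nonneg _ _ _ _ _) (Finset.mem_univ (j + 3))
  · rw [P.cc_pt hi]
    rcases e with ⟨e1, e2⟩ | ⟨e1, e2⟩
    · refine le_trans (lgc_left (P.pt i (j + 2)) (x := x) (y := y) (p := P.pt i j)
        (q := P.pt i (j + 1)) ⟨h⁻¹, by rw [e1, inv_smul_smul], by rw [e2, inv_smul_smul]⟩) ?_
      exact Finset.single_le_sum (f := fun j => lgc H x y (P.pt i j) (P.pt i (j + 1))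
        (P.pt i (j + 2))) (fun j _ => lgc_nonneg _ _ _ _ _) (Finset.mem_univ j)
    · have := lgc_right (P.pt i (j + 4)) (x := x) (y := y) (q := P.pt i (j + 4 + 1))
        (r := P.pt i (j + 4 + 2)) (H := H) ⟨h⁻¹, by rw [f5b, e2, inv_smul_smul], by
          rw [f5a, e1, inv_smul_smul]⟩
      refine this.trans ?_
      exact Finset.single_le_sum (f := fun j => lgc H x y (P.pt i j) (P.pt i (j + 1))
        (P.pt i (j + 2))) (fun j _ => lgc_nonneg _ _ _ _ _) (Finset.mem_univ (j + 4))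

/-- a pass in a flipped square is counted twice -/
theorem cc_lgc_two {i : K.I} {j : Fin 4} (h : P.Tp i j) {g : H} (hg : g • P.qt i j = P.qt i j)
    (hg' : g • P.qt i (j + 1) = P.qt i (j + 3)) {x y : V} (e : P.eg i x y)
    (hx : ∀ g : H, x ≠ g • P.qt i j) (hy : ∀ g : H, y ≠ g • P.qt i j) :
    2 ≤ P.cc i (lgc H x y) := by
  have hy' := h.2.2.2.2 g hg
  rw [P.cc_top (w := lgc H x y) (fun p q r => lgc_symm x y p q r) h.1 j]
  have n1 := lgc_nonneg (H := H) x y (P.qt i (j + 1)) (P.qt i j) (P.qt i (j + 3))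
  have n2 := lgc_nonneg (H := H) x y (P.qt i j) (P.qt i (j + 1)) (P.qt i (j + 2))
  have n3 := lgc_nonneg (H := H) x y (P.qt i j) (P.qt i (j + 3)) (P.qt i (j + 2))
  have n4 := lgc_nonneg (H := H) x y (P.qt i (j + 1)) (P.qt i (j + 2)) (P.qt i (j + 3))
  -- transport by the flip
  have t1 : ∀ {u v : V}, Tr H x y u v → Tr H x y (g • u) (g • v) := fun t => t.smul g
  have t2 : ∀ {u v : V}, Tr H x y (g • u) (g • v) → Tr H x y u v := fun t => by
    have := t.smul g⁻¹
    rwa [inv_smul_smul, inv_smul_smul] at this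
  have main1 : Tr H x y (P.qt i (j + 2)) (P.qt i (j + 1)) → 2 ≤
      lgc H x y (P.qt i (j + 1)) (P.qt i j) (P.qt i (j + 3)) +
      lgc H x y (P.qt i j) (P.qt i (j + 1)) (P.qt i (j + 2)) +
      lgc H x y (P.qt i j) (P.qt i (j + 3)) (P.qt i (j + 2)) +
      lgc H x y (P.qt i (j + 1)) (P.qt i (j + 2)) (P.qt i (j + 3)) := by
    intro t
    have t' := t1 t
    rw [hy', hg'] at t'
    have k1 := lgc_right (P.qt i j) t
    have k2 := lgc_right (P.qt i j) t'
    linarith
  have main2 : Tr H x y (P.qt i (j + 1)) (P.qt i (j + 2)) → 2 ≤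
      lgc H x y (P.qt i (j + 1)) (P.qt i j) (P.qt i (j + 3)) +
      lgc H x y (P.qt i j) (P.qt i (j + 1)) (P.qt i (j + 2)) +
      lgc H x y (P.qt i j) (P.qt i (j + 3)) (P.qt i (j + 2)) +
      lgc H x y (P.qt i (j + 1)) (P.qt i (j + 2)) (P.qt i (j + 3)) := by
    intro t
    have t' := t1 t
    rw [hy', hg'] at t'
    have k := lgc_two t t'
    linarith
  obtain ⟨h', k, hk, e'⟩ := h.eg_low e hx hy
  have T1 : ∀ {u v u' v' : V}, x = h' • u → y = h' • v → Tr H x y u v := by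
    intro u v _ _ e1 e2
    exact ⟨h'⁻¹, by rw [e1, inv_smul_smul], by rw [e2, inv_smul_smul]⟩
  rcases hk with rfl | rfl
  · rcases e' with ⟨e1, e2⟩ | ⟨e1, e2⟩
    · exact main2 (T1 (u' := x) (v' := x) e1 e2)
    · exact main1 (T1 (u' := x) (v' := x) e1 e2)
  · rcases e' with ⟨e1, e2⟩ | ⟨e1, e2⟩
    · refine main2 (t2 ?_)
      rw [hy', hg']
      exact T1 (u' := x) (v' := x) e1 e2
    · refine main1 (t2 ?_)
      rw [hy', hg']
      exact T1 (u' := x) (v' := x) e1 e2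

namespace Cm

variable (hC : P.Cm)

include hC

omit hC in
theorem W_ge {i0 i' : K.I} (hne : i' ≠ i0) (x y : V) :
    P.wm i' * P.cc i' (lgc H x y) ≤ P.W i0 x y := by
  classical
  unfold W
  rw [P.tt_sub]
  have h1 := Finset.single_le_sum
    (f := fun i => if i = i0 then 0 else P.wm i * P.cc i (lgc H x y))
    (fun i _ => by
      by_cases hi : i = i0
      · rw [if_pos hi]
      · rw [if_neg hi]
        exact mul_nonneg (P.wm_nonneg i) (P.cc_lgc_nonneg i x y)) (Finset.mem_univ i')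
  rw [if_neg hne] at h1
  exact h1

/-- the passes of an edge of another top -/
theorem two_of_eg {i0 i' : K.I} {j0 : Fin 4} (h0 : P.Tp i0 j0) (hne : i' ≠ i0) {x y : V}
    (e : P.eg i' x y)
    (hxy : (x = P.qt i0 j0 ∧ K.ar x y) ∨ (y = P.qt i0 j0 ∧ K.ar y x)) :
    2 ≤ P.wm i' * P.cc i' (lgc H x y) := by
  have h1 := cc_lgc_pos e
  by_cases hF : P.Fm i'
  · have hw : P.wm i' = 1 := if_pos hF
    obtain ⟨j', t, g, g1, g2⟩ := hF
    rw [hw, one_mul]
    have hx : ∀ g : H, x ≠ g • P.qt i' j' := by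
      rintro g rfl
      rcases hxy with ⟨k1, -⟩ | ⟨k1, k2⟩
      · exact hne (hC.one i' i0 j' j0 t h0 g k1)
      · have r1 := (t.eg_rk e.symm).1
        have r2 := K.ar_rk _ _ k2
        rw [K.rk_smul] at r2
        omega
    have hy : ∀ g : H, y ≠ g • P.qt i' j' := by
      rintro g rfl
      rcases hxy with ⟨k1, k2⟩ | ⟨k1, -⟩
      · have r1 := (t.eg_rk e).1
        have r2 := K.ar_rk _ _ k2
        rw [K.rk_smul] at r2
        omega
      · exact hne (hC.one i' i0 j' j0 t h0 g k1)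
    exact cc_lgc_two t g1 g2 e hx hy
  · have hw : P.wm i' = 2 := if_neg hF
    rw [hw]
    linarith

theorem W_two {i0 : K.I} {j0 k : Fin 4} (h0 : P.Tp i0 j0) (hk : k = j0 + 1 ∨ k = j0 + 3) :
    2 ≤ P.W i0 (P.qt i0 j0) (P.qt i0 k) ∧ 2 ≤ P.W i0 (P.qt i0 k) (P.qt i0 j0) := by
  obtain ⟨i', h1, h2, h3⟩ := hC.X i0 j0 h0 k hk
  have ha : K.ar (P.qt i0 j0) (P.qt i0 k) := by
    rcases hk with rfl | rfl
    · exact h0.2.1
    · exact h0.2.2.1
  exact ⟨(hC.two_of_eg h0 h1 h3 (Or.inl ⟨rfl, ha⟩)).trans (W_ge h1 _ _),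
    (hC.two_of_eg h0 h1 h3.symm (Or.inr ⟨rfl, ha⟩)).trans (W_ge h1 _ _)⟩

/-- a translate of a top is in a neutral square only as a pole -/
theorem N_pos {i i0 : K.I} {j j0 : Fin 4} (hN : P.Nv i j) (h0 : P.Tp i0 j0) {k : Fin 4} {g : H}
    (e : P.qt i k = g • P.qt i0 j0) :
    K.ar (P.qt i (k + 1)) (P.qt i k) ∧ K.ar (P.qt i (k + 3)) (P.qt i k) := by
  rcases f4 j k with rfl | rfl | rfl | rfl
  · exact absurd (by rw [e, inv_smul_smul]) (hC.nv i i0 k j0 hN h0 g⁻¹)
  · rw [f4a, f4h]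
    exact ⟨hN.2.2.2.2.1, hN.2.2.1⟩
  · exact absurd (by rw [e, inv_smul_smul]) (hC.nv i i0 (j + 2) j0 hN.symm' h0 g⁻¹)
  · rw [f4c, f4i]
    exact ⟨hN.2.2.2.1, hN.2.2.2.2.2⟩

/-- a weight on the legs at the folded tops vanishes on neutral squares -/
theorem N_zero {i i0 : K.I} {j j0 : Fin 4} (hN : P.Nv i j) (h0 : P.Tp i0 j0)
    {m : V → V → V → ℤ} {b : V → V → Prop}
    (hb : ∀ x y, b x y → (∃ g : H, x = g • P.qt i0 j0) ∧ K.ar x y ∨
      (∃ g : H, y = g • P.qt i0 j0) ∧ K.ar y x)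
    (hm : ∀ p q r, ¬ b p q → ¬ b r q → m p q r = 0) : P.cc i m = 0 := by
  have key : ∀ k, ¬ b (P.qt i k) (P.qt i (k + 1)) ∧ ¬ b (P.qt i (k + 1)) (P.qt i k) := by
    intro k
    constructor
    · intro h
      rcases hb _ _ h with ⟨⟨g, e⟩, h2⟩ | ⟨⟨g, e⟩, h2⟩
      · have := (hC.N_pos hN h0 e).1
        have r1 := K.ar_rk _ _ h2
        have r2 := K.ar_rk _ _ this
        omega
      · have := (hC.N_pos hN h0 e).2
        rw [f4h] at this
        have r1 := K.ar_rk _ _ h2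
        have r2 := K.ar_rk _ _ this
        omega
    · intro h
      rcases hb _ _ h with ⟨⟨g, e⟩, h2⟩ | ⟨⟨g, e⟩, h2⟩
      · have := (hC.N_pos hN h0 e).2
        rw [f4h] at this
        have r1 := K.ar_rk _ _ h2
        have r2 := K.ar_rk _ _ this
        omega
      · have := (hC.N_pos hN h0 e).1
        have r1 := K.ar_rk _ _ h2
        have r2 := K.ar_rk _ _ this
        omega
  rw [P.cc_sq hN.1]
  refine Finset.sum_eq_zero fun k _ => hm _ _ _ (key k).1 ?_
  have := (key (k + 1)).2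
  rwa [f4a] at this

end Cm

end P45

end Pool.Agent.DI
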