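import Pool.Agent.DI.PqE

/-!
# DI/PqE2: the fold steps
-/

namespace Pool.Agent.DI

open MulAction
open Pool.Agent.SAF (InC orbs FinOrb oc)
open Pool.Agent.BT (PX)

variable {H V : Type} [Group H] [MulAction H V]

namespace CuD

variable {K : GX H V} (D : CuD K)

theorem s_ge (x y z : V) : -1 ≤ D.s x y z := by
  rw [D.s_sv]
  unfold sv
  split_ifs <;> norm_num

/-- the value `-1` -/
theorem of_neg {x y z : V} (h : D.s x y z < 0) :
    (D.mv x y ∧ ¬ D.mv z y ∧ z = D.tg x y) ∨ (D.mv z y ∧ ¬ D.mv x y ∧ x = D.tg z y) := by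
  rw [D.s_sv] at h
  by_cases h1 : D.mv x y <;> by_cases h2 : D.mv z y
  · by_cases e : D.tg x y = D.tg z y
    · rw [sv_mm h1 h2 e] at h
      omega
    · rw [sv_mm' h1 h2 e] at h
      omega
  · by_cases e : D.tg z y = D.tg x y
    · left
      rw [D.tg_not h2] at e
      exact ⟨h1, h2, e⟩
    · rw [sv_mn h1 h2 e] at h
      omega
  · rw [sv_symm] at h
    by_cases e : D.tg x y = D.tg z y
    · right
      rw [D.tg_not h1] at e
      exact ⟨h2, h1, e⟩
    · rw [sv_mn h2 h1 e] at h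
      omega
  · rw [sv_nn h1 h2] at h
    omega

/-- a moved leg against an unmoved leg which is not the target -/
theorem s_one {x y z : V} (h1 : D.mv x y) (h2 : ¬ D.mv z y) (h3 : z ≠ D.tg x y) :
    D.s x y z = 1 := by
  rw [D.s_sv]
  refine sv_mn h1 h2 ?_
  rwa [D.tg_not h2]

/-- two legs in one translate of `R` -/
theorem s_zero {x y z : V} {h : H} (h1 : h⁻¹ • x ∈ D.R) (h2 : h⁻¹ • z ∈ D.R) (e : y = h • D.v) :
    D.s x y z = 0 := by
  rw [D.s_sv]
  refine sv_mm ⟨h, h1, e⟩ ⟨h, h2, e⟩ ?_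
  rw [D.tg_mv h1 e, D.tg_mv h2 e]

theorem s_neg {x y z : V} {h : H} (h1 : h⁻¹ • x ∈ D.R) (h2 : z = h • D.a) (e : y = h • D.v) :
    D.s x y z = -1 := by
  have hn : ¬ D.mv z y := by
    intro k
    have r1 := K.ar_rk _ _ (D.mv_ar k)
    have r2 := K.ar_rk _ _ D.va
    rw [e, h2, K.rk_smul, K.rk_smul] at r1
    omega
  rw [D.s_sv]
  refine sv_mt ⟨h, h1, e⟩ hn ?_
  rw [D.tg_not hn, D.tg_mv h1 e, h2]

end CuD

namespace P45

variable {K : GX H V} (P : P45 K)

theorem tt_add (w w' : V → V → V → ℤ) :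
    P.tt (fun x y z => w x y z + w' x y z) = P.tt w + P.tt w' := by
  unfold tt
  rw [← Finset.sum_add_distrib]
  refine Finset.sum_congr rfl fun i _ => ?_
  rw [P.cc_add, mul_add]

variable {P}

/-- the sides of a square with top `j` -/
def Sd (j k k' : Fin 4) : Prop := (k = j + 1 ∧ k' = j + 3) ∨ (k = j + 3 ∧ k' = j + 1)

theorem Sd.symm {j k k' : Fin 4} (h : Sd j k k') : Sd j k' k := h.elim (fun e => Or.inr ⟨e.2, e.1⟩)
  (fun e => Or.inl ⟨e.2, e.1⟩)

theorem Sd.fst {j k k' : Fin 4} (h : Sd j k k') : k = j + 1 ∨ k = j + 3 :=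
  h.elim (fun e => Or.inl e.1) (fun e => Or.inr e.1)

theorem Tp.ark {i : K.I} {j k k' : Fin 4} (h : P.Tp i j) (hk : Sd j k k') :
    K.ar (P.qt i j) (P.qt i k) := by
  rcases hk with ⟨rfl, -⟩ | ⟨rfl, -⟩
  · exact h.2.1
  · exact h.2.2.1

/-- the edge between a side and the partner -/
theorem Tp.Ek {i : K.I} {j k k' : Fin 4} (h : P.Tp i j) (hk : Sd j k k') :
    K.E (P.qt i (j + 2)) (P.qt i k) := by
  rcases hk with ⟨rfl, -⟩ | ⟨rfl, -⟩
  · have := P.E4 h.1 (j + 1)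
    rw [f4a] at this
    exact this.symm
  · have := P.E4 h.1 (j + 2)
    rw [f4b] at this
    exact this

theorem Tp.pol {i : K.I} {j k k' : Fin 4} (hd : ∀ k, P.qt i k ≠ P.qt i (k + 2)) (h : P.Tp i j)
    (hk : Sd j k k') {q : V} (hq : K.ar (P.qt i j) q) : q = P.qt i k ∨ q = P.qt i k' := by
  rcases hk with ⟨rfl, rfl⟩ | ⟨rfl, rfl⟩
  · exact h.poles hd hq
  · exact (h.poles hd hq).symm

/-- the sum over a square with a top -/
theorem cc_sd {w : V → V → V → ℤ} (hw : ∀ x y z, w x y z = w z y x) {i : K.I} (hi : P.sq i)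
    {j k k' : Fin 4} (hk : Sd j k k') : P.cc i w = w (P.qt i k) (P.qt i j) (P.qt i k') +
      w (P.qt i j) (P.qt i k) (P.qt i (j + 2)) + w (P.qt i j) (P.qt i k') (P.qt i (j + 2)) +
      w (P.qt i k) (P.qt i (j + 2)) (P.qt i k') := by
  rw [P.cc_top hw hi j]
  rcases hk with ⟨rfl, rfl⟩ | ⟨rfl, rfl⟩
  · rfl
  · rw [hw (P.qt i (j + 3)) (P.qt i j), hw (P.qt i (j + 3)) (P.qt i (j + 2))]
    ring

/-- a flipped square -/
theorem Fm_of {i : K.I} {j k k' : Fin 4} (h : P.Tp i j) (hk : Sd j k k') {t : H}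
    (h1 : t • P.qt i j = P.qt i j) (h2 : t • P.qt i k = P.qt i k') : P.Fm i := by
  rcases hk with ⟨rfl, rfl⟩ | ⟨rfl, rfl⟩
  · exact ⟨j, h, t, h1, h2⟩
  · refine ⟨j, h, t⁻¹, ?_, ?_⟩
    · rw [inv_smul_eq_iff, h1]
    · rw [inv_smul_eq_iff, h2]

namespace Cm

variable (hC : P.Cm)

include hC

/-- TYPE I: the hub is a side of the top `T ∈ R`, the partner is the pole -/
theorem stepI {i0 : K.I} {j0 k k' : Fin 4} (h0 : P.Tp i0 j0) (hk : Sd j0 k k') (D : CuD K)
    (hh : (hC.dd h0).Hub D) (hv : D.v = P.qt i0 k) (ha : D.a = P.qt i0 (j0 + 2))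
    (hT : P.qt i0 j0 ∈ D.R) (hB : ∀ h : H, h • P.qt i0 k' = D.v → D.mv (h • P.qt i0 j0) D.v →
      h • D.a = D.tg (h • P.qt i0 j0) D.v) :
    ((hC.dd h0).flat.P45 P).tt ((hC.dd h0).cu D hh).s +
      (P.W i0 (P.qt i0 j0) (P.qt i0 k) - 2) ≤ P.tt D.s := by
  have hd := hC.nd i0 h0.1
  have raT := K.ar_rk _ _ (h0.ark hk)
  have ra := K.ar_rk _ _ D.va
  have h1 := hC.step h0 D ((hC.dd h0).cu D hh) (Sq1.mt (hC.dd h0) D) (by
    intro i j hN
    refine hC.N_zero hN h0 (b := fun x y => D.mv x y ∧ ∃ h : H, x = h • (hC.dd h0).T)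
      (fun x y h => Or.inl ⟨h.2, D.mv_ar h.1⟩) (fun p q r h1 h2 => ?_)
    unfold Sq1.mt
    rw [if_neg h1, if_neg h2]
    rfl) (fun p q r e1 e2 e3 _ _ => Sq1.typeI hh ha.symm hT (m := P.qt i0 k')
      (fun q hq => by
        rw [hv]
        exact h0.pol hd hk hq) hB e1 e2 e3)
  have hle : ∀ p q r, lgc H (P.qt i0 j0) (P.qt i0 k) p q r ≤ Sq1.mt (hC.dd h0) D p q r := by
    intro p q r
    have key : ∀ p, Tr H (P.qt i0 j0) (P.qt i0 k) p q → D.mv p q ∧
        ∃ h : H, p = h • (hC.dd h0).T := by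
      rintro p ⟨h, rfl, rfl⟩
      exact ⟨⟨h, by rw [inv_smul_smul]; exact hT, by rw [hv]⟩, h, rfl⟩
    unfold lgc Sq1.mt
    by_cases k1 : Tr H (P.qt i0 j0) (P.qt i0 k) p q <;>
      by_cases k2 : Tr H (P.qt i0 j0) (P.qt i0 k) r q
    · rw [if_pos k1, if_pos k2, if_pos (key p k1), if_pos (key r k2)]
    · rw [if_pos k1, if_neg k2, if_pos (key p k1)]
      split_ifs <;> norm_num
    · rw [if_neg k1, if_pos k2, if_pos (key r k2)]
      split_ifs <;> norm_num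
    · rw [if_neg k1, if_neg k2]
      split_ifs <;> norm_num
  have h2 := P.tt_sub_mono i0 hle
  have c1 : D.s (P.qt i0 k) (P.qt i0 j0) (P.qt i0 k') = 0 :=
    D.s_poles (h0.ark hk) (h0.ark hk.symm)
  have c2 := D.s_ge (P.qt i0 j0) (P.qt i0 k) (P.qt i0 (j0 + 2))
  have c3 := D.s_ge (P.qt i0 j0) (P.qt i0 k') (P.qt i0 (j0 + 2))
  have c4 : D.s (P.qt i0 k) (P.qt i0 (j0 + 2)) (P.qt i0 k') = 0 := D.s_far (fun g e => by
    have := congrArg K.rk e
    rw [K.rk_smul, ← ha] at this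
    omega)
  have c0 := P.cc_sd D.s_symm h0.1 hk
  rw [c1, c4] at c0
  have hW : P.W i0 (P.qt i0 j0) (P.qt i0 k) =
    P.tt (lgc H (P.qt i0 j0) (P.qt i0 k)) - P.wm i0 * P.cc i0 (lgc H (P.qt i0 j0) (P.qt i0 k)) := rfl
  by_cases hF : P.Fm i0
  · have hw : P.wm i0 = 1 := if_pos hF
    have e : P.wm i0 * P.cc i0 D.s = P.cc i0 D.s := by rw [hw, one_mul]
    rw [e] at h1
    linarith
  · have hw : P.wm i0 = 2 := if_neg hF
    have e : P.wm i0 * P.cc i0 D.s = 2 * P.cc i0 D.s := by rw [hw]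
    rw [e] at h1
    by_cases c5 : 0 ≤ D.s (P.qt i0 j0) (P.qt i0 k') (P.qt i0 (j0 + 2))
    · linarith
    · push Not at c5
      have c6 : D.mv (P.qt i0 j0) (P.qt i0 k') := by
        rcases D.of_neg c5 with c6 | c6
        · exact c6.1
        · exfalso
          have r := h0.rk2
          have r1 := K.ar_rk _ _ (D.mv_ar c6.1)
          have r2 := K.ar_rk _ _ (h0.ark hk.symm)
          have r3 := D.rk1 _ _ c6.1
          rw [← ha] at r1
          omega
      have hle2 : ∀ p q r, lgc H (P.qt i0 j0) (P.qt i0 k) p q r +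
          lgc H (P.qt i0 j0) (P.qt i0 k') p q r ≤ Sq1.mt (hC.dd h0) D p q r := by
        classical
        intro p q r
        have ex : ∀ p, Tr H (P.qt i0 j0) (P.qt i0 k) p q → ¬ Tr H (P.qt i0 j0) (P.qt i0 k') p q := by
          rintro p ⟨h, rfl, rfl⟩ ⟨h', e1, e2⟩
          refine hF (Fm_of h0 hk.symm (t := h⁻¹ * h') ?_ ?_)
          · rw [mul_smul, ← e1, inv_smul_smul]
          · rw [mul_smul, ← e2, inv_smul_smul]
        have key : ∀ p, Tr H (P.qt i0 j0) (P.qt i0 k) p q → D.mv p q ∧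
            ∃ h : H, p = h • (hC.dd h0).T := by
          rintro p ⟨h, rfl, rfl⟩
          exact ⟨⟨h, by rw [inv_smul_smul]; exact hT, by rw [hv]⟩, h, rfl⟩
        have key' : ∀ p, Tr H (P.qt i0 j0) (P.qt i0 k') p q → D.mv p q ∧
            ∃ h : H, p = h • (hC.dd h0).T := by
          rintro p ⟨h, rfl, rfl⟩
          exact ⟨(D.mv_smul_iff h).2 c6, h, rfl⟩
        have one : ∀ p, (if Tr H (P.qt i0 j0) (P.qt i0 k) p q then (1 : ℤ) else 0) +
            (if Tr H (P.qt i0 j0) (P.qt i0 k') p q then 1 else 0) ≤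
            (if D.mv p q ∧ ∃ h : H, p = h • (hC.dd h0).T then 1 else 0) := by
          intro p
          by_cases k1 : Tr H (P.qt i0 j0) (P.qt i0 k) p q
          · rw [if_pos k1, if_neg (ex p k1), if_pos (key p k1)]
            norm_num
          · rw [if_neg k1]
            by_cases k2 : Tr H (P.qt i0 j0) (P.qt i0 k') p q
            · rw [if_pos k2, if_pos (key' p k2)]
              norm_num
            · rw [if_neg k2]
              split_ifs <;> norm_num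
        have o1 := one p
        have o2 := one r
        unfold lgc Sq1.mt
        linarith
      have h3 := P.tt_sub_mono i0 hle2
      rw [P.tt_add, P.cc_add] at h3
      have hW2 := (hC.W_two h0 hk.symm.fst).1
      have hW' : P.W i0 (P.qt i0 j0) (P.qt i0 k') =
        P.tt (lgc H (P.qt i0 j0) (P.qt i0 k')) -
          P.wm i0 * P.cc i0 (lgc H (P.qt i0 j0) (P.qt i0 k')) := rfl
      rw [mul_add] at h3
      linarith

/-- TYPE 0: the top and the partner are in `R`, one side is the hub, the other side is no hub -/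
theorem step0 {i0 : K.I} {j0 k k' : Fin 4} (h0 : P.Tp i0 j0) (hk : Sd j0 k k') (D : CuD K)
    (hh : (hC.dd h0).Hub D) (hv : D.v = P.qt i0 k) (hT : P.qt i0 j0 ∈ D.R)
    (hy : P.qt i0 (j0 + 2) ∈ D.R) (hm : ∀ h : H, h • P.qt i0 k' ≠ D.v) :
    ((hC.dd h0).flat.P45 P).tt ((hC.dd h0).cu D hh).s ≤ P.tt D.s := by
  have hd := hC.nd i0 h0.1
  have h1 := hC.step h0 D ((hC.dd h0).cu D hh) (fun _ _ _ => 0) (by
    intro i j hN
    rw [P.cc_sq hN.1]
    exact Finset.sum_const_zero) (fun p q r e1 e2 _ _ _ => by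
      rw [zero_add]
      exact (Sq1.type0 hh hT hy (m := P.qt i0 k') (fun q hq => by
        rw [hv]
        exact h0.pol hd hk hq) hm e1 e2).le)
  have z : P.tt (fun _ _ _ => 0) = 0 := by
    unfold tt
    refine Finset.sum_eq_zero fun i _ => ?_
    have : P.cc i (fun _ _ _ => 0) = 0 := by
      by_cases hi : P.sq i
      · rw [P.cc_sq hi]
        exact Finset.sum_const_zero
      · rw [P.cc_pt hi]
        exact Finset.sum_const_zero
    rw [this, mul_zero]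
  have z' : P.cc i0 (fun _ _ _ => 0) = 0 := by
    rw [P.cc_sq h0.1]
    exact Finset.sum_const_zero
  have c1 : D.s (P.qt i0 k) (P.qt i0 j0) (P.qt i0 k') = 0 :=
    D.s_poles (h0.ark hk) (h0.ark hk.symm)
  have c2 : D.s (P.qt i0 j0) (P.qt i0 k) (P.qt i0 (j0 + 2)) = 0 :=
    D.s_zero (h := 1) (by rw [inv_one, one_smul]; exact hT) (by rw [inv_one, one_smul]; exact hy)
      (by rw [one_smul, hv])
  have c3 : D.s (P.qt i0 j0) (P.qt i0 k') (P.qt i0 (j0 + 2)) = 0 := D.s_far (fun g e =>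
    hm g⁻¹ (by rw [e, inv_smul_smul]))
  have c4 : D.s (P.qt i0 k) (P.qt i0 (j0 + 2)) (P.qt i0 k') = 0 := D.s_far (fun g e => by
    have r1 := congrArg K.rk e
    have r2 := K.ar_rk _ _ (D.R_ar _ hy)
    rw [K.rk_smul] at r1
    omega)
  have c0 := P.cc_sd D.s_symm h0.1 hk
  rw [c1, c2, c3, c4] at c0
  rw [z, z', c0] at h1
  linarith

/-- TYPE III: the hub is the partner, one side is in `R`, the other side is the pole -/
theorem stepIII {i0 : K.I} {j0 k k' : Fin 4} (h0 : P.Tp i0 j0) (hk : Sd j0 k k') (D : CuD K)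
    (hu : (hC.dd h0).Hu2 D) (hv : D.v = P.qt i0 (j0 + 2)) (ha : D.a = P.qt i0 k')
    (hm : P.qt i0 k ∈ D.R) :
    ((hC.dd h0).flat.P45 P).tt hu.cu.s + (P.W i0 (P.qt i0 k') (P.qt i0 j0) - 2) ≤ P.tt D.s := by
  have hd := hC.nd i0 h0.1
  have rk := K.ar_rk _ _ (h0.ark hk)
  have rk' := K.ar_rk _ _ (h0.ark hk.symm)
  have ra := K.ar_rk _ _ D.va
  have rm := K.ar_rk _ _ (D.R_ar _ hm)
  have h1 := hC.step h0 D hu.cu (lgc H D.a (hC.dd h0).T) (by
    intro i j hN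
    refine hC.N_zero hN h0 (b := fun x y => Tr H D.a (hC.dd h0).T x y)
      (fun x y h => ?_) (fun p q r h1 h2 => lgc_zero h1 h2)
    obtain ⟨h, rfl, rfl⟩ := h
    refine Or.inr ⟨⟨h, rfl⟩, ?_⟩
    rw [ha]
    exact K.ar_smul h _ _ (h0.ark hk.symm)) (fun p q r e1 e2 e3 e4 e5 =>
      hu.type3 (m := P.qt i0 k) hm rk (fun q hq => by
        rw [ha]
        exact h0.pol hd hk hq) e1 e2 e3 e4 e5)
  have c1 : D.s (P.qt i0 k) (P.qt i0 j0) (P.qt i0 k') = 0 :=
    D.s_poles (h0.ark hk) (h0.ark hk.symm)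
  have c2 : D.s (P.qt i0 j0) (P.qt i0 k) (P.qt i0 (j0 + 2)) = 0 := D.s_far (fun g e => by
    have r1 := congrArg K.rk e
    rw [K.rk_smul] at r1
    omega)
  have c3 : D.s (P.qt i0 j0) (P.qt i0 k') (P.qt i0 (j0 + 2)) = 0 := D.s_far (fun g e => by
    have r1 := congrArg K.rk e
    rw [K.rk_smul, ← ha] at r1
    omega)
  have c4 : D.s (P.qt i0 k) (P.qt i0 (j0 + 2)) (P.qt i0 k') = -1 :=
    D.s_neg (h := 1) (by rw [inv_one, one_smul]; exact hm) (by rw [one_smul, ha])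
      (by rw [one_smul, hv])
  have c0 := P.cc_sd D.s_symm h0.1 hk
  rw [c1, c2, c3, c4] at c0
  have hF : ¬ P.Fm i0 := by
    rintro ⟨j, t, g, -, e⟩
    have hj := h0.uniq t
    subst hj
    have r1 := congrArg K.rk e
    rw [K.rk_smul] at r1
    rcases hk with ⟨rfl, rfl⟩ | ⟨rfl, rfl⟩
    · rw [← ha] at r1
      omega
    · rw [← ha] at r1
      omega
  have hw : P.wm i0 = 2 := if_neg hF
  have hW : P.W i0 (P.qt i0 k') (P.qt i0 j0) =
    P.tt (lgc H (P.qt i0 k') (P.qt i0 j0)) -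
      P.wm i0 * P.cc i0 (lgc H (P.qt i0 k') (P.qt i0 j0)) := rfl
  rw [hW, ← ha]
  have e : P.wm i0 * P.cc i0 D.s = -2 := by
    rw [hw, c0]
    norm_num
  rw [e] at h1
  have e' : (hC.dd h0).T = P.qt i0 j0 := rfl
  rw [e'] at h1
  linarith

/-- TYPE 0: the hub is the partner, both sides are in `R` -/
theorem step0' {i0 : K.I} {j0 k k' : Fin 4} (h0 : P.Tp i0 j0) (hk : Sd j0 k k') (D : CuD K)
    (hu : (hC.dd h0).Hu2 D) (hv : D.v = P.qt i0 (j0 + 2)) (hm : P.qt i0 k ∈ D.R)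
    (hm' : P.qt i0 k' ∈ D.R) :
    ((hC.dd h0).flat.P45 P).tt hu.cu.s ≤ P.tt D.s := by
  have hd := hC.nd i0 h0.1
  have rk := K.ar_rk _ _ (h0.ark hk)
  have rk' := K.ar_rk _ _ (h0.ark hk.symm)
  have rm := K.ar_rk _ _ (D.R_ar _ hm)
  have rm' := K.ar_rk _ _ (D.R_ar _ hm')
  have h1 := hC.step h0 D hu.cu (fun _ _ _ => 0) (by
    intro i j hN
    rw [P.cc_sq hN.1]
    exact Finset.sum_const_zero) (fun p q r e1 e2 _ e4 e5 => by
      rw [zero_add]
      exact (hu.type0 hm hm' rk rk' (fun q hq => h0.pol hd hk hq) e1 e2 e4 e5).le)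
  have z : P.tt (fun _ _ _ => 0) = 0 := by
    unfold tt
    refine Finset.sum_eq_zero fun i _ => ?_
    have : P.cc i (fun _ _ _ => 0) = 0 := by
      by_cases hi : P.sq i
      · rw [P.cc_sq hi]
        exact Finset.sum_const_zero
      · rw [P.cc_pt hi]
        exact Finset.sum_const_zero
    rw [this, mul_zero]
  have z' : P.cc i0 (fun _ _ _ => 0) = 0 := by
    rw [P.cc_sq h0.1]
    exact Finset.sum_const_zero
  have c1 : D.s (P.qt i0 k) (P.qt i0 j0) (P.qt i0 k') = 0 :=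
    D.s_poles (h0.ark hk) (h0.ark hk.symm)
  have c2 : D.s (P.qt i0 j0) (P.qt i0 k) (P.qt i0 (j0 + 2)) = 0 := D.s_far (fun g e => by
    have r1 := congrArg K.rk e
    rw [K.rk_smul] at r1
    omega)
  have c3 : D.s (P.qt i0 j0) (P.qt i0 k') (P.qt i0 (j0 + 2)) = 0 := D.s_far (fun g e => by
    have r1 := congrArg K.rk e
    rw [K.rk_smul] at r1
    omega)
  have c4 : D.s (P.qt i0 k) (P.qt i0 (j0 + 2)) (P.qt i0 k') = 0 :=
    D.s_zero (h := 1) (by rw [inv_one, one_smul]; exact hm) (by rw [inv_one, one_smul]; exact hm')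
      (by rw [one_smul, hv])
  have c0 := P.cc_sd D.s_symm h0.1 hk
  rw [c1, c2, c3, c4] at c0
  rw [z, z', c0] at h1
  linarith

end Cm

end P45

end Pool.Agent.DI
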