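import Pool.Agent.DI.PqE2

/-!
# DI/PqF: flipped squares are cut in halves

`P.FSm`: the translates of the tops of flipped squares; for each of them a new soft joined to the top and
the partner. `Cm.Kp`: the complex on `V ⊕ P.FSm`, the flipped squares are replaced by their halves
(free, not flipped). `Cm.base`: the cut inequality with weights if no square has to be folded.
-/

namespace Pool.Agent.DI

open MulAction
open Pool.Agent.SAF (InC orbs FinOrb oc FinOrb_iff)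
open Pool.Agent.BT (PX)

variable {H V : Type} [Group H] [MulAction H V]

namespace P45

variable {K : GX H V} (P : P45 K)

/-- translates of the tops of flipped squares -/
def Ft (x : V) : Prop := ∃ i j, (P.Fm i ∧ P.Tp i j) ∧ ∃ h : H, x = h • P.qt i j

/-- the new softs -/
def FSm : Type := {x : V // P.Ft x}

instance : MulAction H P.FSm where
  smul h x := ⟨h • x.1, by
    obtain ⟨i, j, k, g, e⟩ := x.2
    exact ⟨i, j, k, h * g, by rw [e, mul_smul]⟩⟩
  one_smul x := Subtype.ext (one_smul H x.1)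
  mul_smul g h x := Subtype.ext (mul_smul g h x.1)

theorem FSm_coe (h : H) (x : P.FSm) : (h • x).1 = h • x.1 := rfl

/-- the place of the top -/
noncomputable def fj (i : {i : K.I // P.Fm i}) : Fin 4 := Classical.choose i.2

theorem fj_tp (i : {i : K.I // P.Fm i}) : P.Tp i.1 (P.fj i) := (Classical.choose_spec i.2).1

theorem fj_fl (i : {i : K.I // P.Fm i}) : ∃ t : H, t • P.qt i.1 (P.fj i) = P.qt i.1 (P.fj i) ∧
    t • P.qt i.1 (P.fj i + 1) = P.qt i.1 (P.fj i + 3) := (Classical.choose_spec i.2).2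

variable {P}

theorem Cm.par_uniq (hC : P.Cm) {i i' : K.I} {j j' : Fin 4} {h h' : H} (t : P.Tp i j)
    (t' : P.Tp i' j') (e : h • P.qt i j = h' • P.qt i' j') :
    h • P.qt i (j + 2) = h' • P.qt i' (j' + 2) := by
  have e1 : (h'⁻¹ * h) • P.qt i j = P.qt i' j' := by rw [mul_smul, e, inv_smul_smul]
  have hi := hC.one i i' j j' t t' _ e1
  subst hi
  have hj := t.uniq t'
  subst hj
  have := t.2.2.2.2 _ e1
  rw [mul_smul, inv_smul_eq_iff] at this
  exact this

/-- the new softs with the halves of the squares -/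
noncomputable def Cm.ns (hC : P.Cm) : NS K P.FSm where
  pl s a := a = s.1 ∨ ∃ (i : K.I) (j : Fin 4) (h : H), P.Tp i j ∧ s.1 = h • P.qt i j ∧
    a = h • P.qt i (j + 2)
  rk s := K.rk s.1 + 1
  J := {i : K.I // P.Fm i}
  finJ := by
    have := K.finI
    infer_instance
  js i := ⟨P.qt i.1 (P.fj i), i.1, P.fj i, ⟨i.2, P.fj_tp i⟩, 1, (one_smul _ _).symm⟩
  ja i := P.qt i.1 (P.fj i)
  jb i := P.qt i.1 (P.fj i + 2)
  jl i := [P.qt i.1 (P.fj i + 1), P.qt i.1 (P.fj i)]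
  pl_smul := by
    rintro h s v (rfl | ⟨i, j, g, t, e1, e2⟩)
    · exact Or.inl rfl
    · exact Or.inr ⟨i, j, h * g, t, by rw [FSm_coe, e1, mul_smul], by rw [e2, mul_smul]⟩
  two := by
    have key : ∀ (s : P.FSm) (a b : V),
        (∃ (i : K.I) (j : Fin 4) (h : H), P.Tp i j ∧ s.1 = h • P.qt i j ∧
          a = h • P.qt i (j + 2)) →
        (∃ (i : K.I) (j : Fin 4) (h : H), P.Tp i j ∧ s.1 = h • P.qt i j ∧
          b = h • P.qt i (j + 2)) → a = b := by
      rintro s a b ⟨i, j, h, t, e1, rfl⟩ ⟨i', j', h', t', e1', rfl⟩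
      exact hC.par_uniq t t' (e1.symm.trans e1')
    rintro s a b c (ha | ha) (hb | hb) (hc | hc)
    · exact Or.inl (ha.trans hb.symm)
    · exact Or.inl (ha.trans hb.symm)
    · exact Or.inr (Or.inr (ha.trans hc.symm))
    · exact Or.inr (Or.inl (key s b c hb hc))
    · exact Or.inr (Or.inl (hb.trans hc.symm))
    · exact Or.inr (Or.inr (key s a c ha hc))
    · exact Or.inl (key s a b ha hb)
    · exact Or.inl (key s a b ha hb)
  pl_rk := by
    rintro s v (rfl | ⟨i, j, g, t, e1, rfl⟩)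
    · exact Nat.lt_succ_self _
    · have := t.rk2
      rw [e1, K.rk_smul, K.rk_smul]
      omega
  rk_smul h s := by rw [FSm_coe, K.rk_smul]
  one s := ⟨s.1, Or.inl rfl⟩
  pla i := Or.inl rfl
  plb i := Or.inr ⟨i.1, P.fj i, 1, P.fj_tp i, (one_smul _ _).symm, (one_smul _ _).symm⟩
  wk i := by
    have h := P.fj_tp i
    refine ⟨?_, ?_, trivial⟩
    · have := P.E4 h.1 (P.fj i + 1)
      rw [f4a] at this
      exact this.symm
    · exact (P.E4 h.1 (P.fj i)).symm
  tgl i := rfl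
  cov := by
    rintro ⟨x, i, j, ⟨hf, t⟩, h, e⟩ a b ha hb hab
    have hj : P.fj ⟨i, hf⟩ = j := (t.uniq (P.fj_tp ⟨i, hf⟩))
    refine ⟨⟨i, hf⟩, h, ?_, ?_⟩
    · apply Subtype.ext
      show h • P.qt i (P.fj ⟨i, hf⟩) = x
      rw [hj, e]
    · show ((h • P.qt i (P.fj ⟨i, hf⟩) = a ∧ h • P.qt i (P.fj ⟨i, hf⟩ + 2) = b) ∨
        (h • P.qt i (P.fj ⟨i, hf⟩) = b ∧ h • P.qt i (P.fj ⟨i, hf⟩ + 2) = a))
      rw [hj]
      have key : ∀ b, (∃ (i' : K.I) (j' : Fin 4) (h' : H), P.Tp i' j' ∧ x = h' • P.qt i' j' ∧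
          b = h' • P.qt i' (j' + 2)) → h • P.qt i (j + 2) = b := by
        rintro b ⟨i', j', h', t', e1', rfl⟩
        exact hC.par_uniq t t' (e.symm.trans e1')
      rcases ha with ha | ha
      · rcases hb with hb | hb
        · exact absurd (ha.trans hb.symm) hab
        · exact Or.inl ⟨by rw [ha, ← e], key b hb⟩
      · rcases hb with hb | hb
        · exact Or.inr ⟨by rw [hb, ← e], key a ha⟩
        · exact absurd ((key a ha).symm.trans (key b hb)) hab
  fin := by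
    have := K.finI
    rw [FinOrb_iff]
    refine ⟨Set.range (fun i : {i : K.I // P.Fm i} => (⟨P.qt i.1 (P.fj i), i.1, P.fj i,
      ⟨i.2, P.fj_tp i⟩, 1, (one_smul _ _).symm⟩ : P.FSm)), Set.finite_range _,
      Set.subset_univ _, ?_⟩
    rintro ⟨x, i, j, ⟨hf, t⟩, h, e⟩ -
    refine ⟨_, ⟨⟨i, hf⟩, rfl⟩, h, ?_⟩
    have hj : P.fj ⟨i, hf⟩ = j := (t.uniq (P.fj_tp ⟨i, hf⟩))
    apply Subtype.ext
    show h • P.qt i (P.fj ⟨i, hf⟩) = x
    rw [hj, e]
  stab s := by
    have h := K.stab s.1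
    have e : stabilizer H s = stabilizer H s.1 := by
      ext g
      rw [mem_stabilizer_iff, mem_stabilizer_iff]
      exact ⟨fun k => congrArg Subtype.val k, fun k => Subtype.ext k⟩
    rw [e]
    exact h

open Classical in
/-- the cells of the new complex -/
noncomputable def Cm.sel (hC : P.Cm) (i : K.I) : hC.ns.add.I :=
  if h : P.Fm i then Sum.inr ⟨i, h⟩ else Sum.inl i

theorem Cm.sel_pos (hC : P.Cm) {i : K.I} (h : P.Fm i) : hC.sel i = Sum.inr ⟨i, h⟩ := dif_pos h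

theorem Cm.sel_neg (hC : P.Cm) {i : K.I} (h : ¬ P.Fm i) : hC.sel i = Sum.inl i := dif_neg h

/-- the four edges of a square -/
theorem ps_sq {i : K.I} (hi : P.sq i) (φ : V → V → ZMod 2) (hs : ∀ x y, φ x y = φ y x)
    (j : Fin 4) : ps φ (K.cb i) (K.cw i) = φ (P.qt i j) (P.qt i (j + 1)) +
      φ (P.qt i (j + 1)) (P.qt i (j + 2)) + φ (P.qt i (j + 3)) (P.qt i (j + 2)) +
      φ (P.qt i j) (P.qt i (j + 3)) := by
  rw [P.cb4 i hi, P.cw4 i hi]
  simp only [ps_cons, ps_nil, add_zero]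
  have f1 : (1 : Fin 4) + 1 = 2 := rfl
  have f2 : (2 : Fin 4) + 1 = 3 := rfl
  have f3 : (3 : Fin 4) + 1 = 0 := rfl
  have g1 : (1 : Fin 4) + 2 = 3 := rfl
  have g2 : (2 : Fin 4) + 2 = 0 := rfl
  have g3 : (3 : Fin 4) + 2 = 1 := rfl
  have k1 : (1 : Fin 4) + 3 = 0 := rfl
  have k2 : (2 : Fin 4) + 3 = 1 := rfl
  have k3 : (3 : Fin 4) + 3 = 2 := rfl
  rcases f4 0 j with rfl | rfl | rfl | rfl
  · simp only [zero_add]
    rw [hs (P.qt i 2) (P.qt i 3), hs (P.qt i 3) (P.qt i 0)]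
    ring
  · simp only [zero_add, f1, g1, k1]
    rw [hs (P.qt i 3) (P.qt i 0), hs (P.qt i 0) (P.qt i 1)]
    ring
  · simp only [zero_add, f2, g2, k2]
    rw [hs (P.qt i 0) (P.qt i 1), hs (P.qt i 1) (P.qt i 2)]
    ring
  · simp only [zero_add, f3, g3, k3]
    rw [hs (P.qt i 1) (P.qt i 2), hs (P.qt i 2) (P.qt i 3)]
    ring

/-- the new complex -/
noncomputable def Cm.Kp (hC : P.Cm) : GX H (V ⊕ P.FSm) :=
  hC.ns.add.recell (I' := K.I) K.finI (fun i => hC.ns.add.cb (hC.sel i))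
    (fun i => hC.ns.add.cw (hC.sel i)) (fun i => hC.ns.add.c_E (hC.sel i))
    (fun i => hC.ns.add.c_tg (hC.sel i)) (by
      intro φ c
      have half : ∀ (i : {i : K.I // P.Fm i}) (h : H),
          φ (Sum.inl (h • P.qt i.1 (P.fj i))) (h • Sum.inr (hC.ns.js i)) +
          (φ (h • Sum.inr (hC.ns.js i)) (Sum.inl (h • P.qt i.1 (P.fj i + 2))) +
          (φ (Sum.inl (h • P.qt i.1 (P.fj i + 2))) (Sum.inl (h • P.qt i.1 (P.fj i + 1))) +
          φ (Sum.inl (h • P.qt i.1 (P.fj i + 1))) (Sum.inl (h • P.qt i.1 (P.fj i))))) = 0 := by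
        intro i h
        have h1 := c.2 i.1 h
        simp only [hC.sel_pos i.2] at h1
        have h2 : φ (Sum.inl (h • P.qt i.1 (P.fj i))) (h • Sum.inr (hC.ns.js i)) +
          (φ (h • Sum.inr (hC.ns.js i)) (Sum.inl (h • P.qt i.1 (P.fj i + 2))) +
          (φ (Sum.inl (h • P.qt i.1 (P.fj i + 2))) (Sum.inl (h • P.qt i.1 (P.fj i + 1))) +
          (φ (Sum.inl (h • P.qt i.1 (P.fj i + 1))) (Sum.inl (h • P.qt i.1 (P.fj i))) + 0))) = 0 := h1
        rw [add_zero] at h2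
        exact h2
      rintro (i | j)
      · by_cases hf : P.Fm i
        · have hi : P.sq i := by
            obtain ⟨j, t, -⟩ := hf
            exact t.1
          have e1 : ps φ (hC.ns.add.cb (Sum.inl i)) (hC.ns.add.cw (Sum.inl i)) =
              ps (fun x y => φ (Sum.inl x) (Sum.inl y)) (K.cb i) (K.cw i) :=
            ps_map Sum.inl φ (K.cb i) (K.cw i)
          rw [e1, ps_sq hi _ (fun x y => c.1 _ _) (P.fj ⟨i, hf⟩)]
          obtain ⟨t, t1, t2⟩ := P.fj_fl ⟨i, hf⟩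
          have t3 := (P.fj_tp ⟨i, hf⟩).2.2.2.2 t t1
          have h1 := half ⟨i, hf⟩ 1
          have h2 := half ⟨i, hf⟩ t
          have t4 : t • (Sum.inr (hC.ns.js ⟨i, hf⟩) : V ⊕ P.FSm) = Sum.inr (hC.ns.js ⟨i, hf⟩) :=
            congrArg Sum.inr (Subtype.ext t1)
          simp only [one_smul] at h1
          rw [t4, t1, t2, t3] at h2
          have c1 := c.1 (Sum.inl (P.qt i (P.fj ⟨i, hf⟩ + 2))) (Sum.inl (P.qt i (P.fj ⟨i, hf⟩ + 1)))
          have c2 := c.1 (Sum.inl (P.qt i (P.fj ⟨i, hf⟩ + 1))) (Sum.inl (P.qt i (P.fj ⟨i, hf⟩)))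
          have c3 := c.1 (Sum.inl (P.qt i (P.fj ⟨i, hf⟩ + 2))) (Sum.inl (P.qt i (P.fj ⟨i, hf⟩ + 3)))
          have c4 := c.1 (Sum.inl (P.qt i (P.fj ⟨i, hf⟩ + 3))) (Sum.inl (P.qt i (P.fj ⟨i, hf⟩)))
          rw [c1, c2] at h1
          rw [c3, c4] at h2
          have z := CharTwo.add_self_eq_zero
            (φ (Sum.inl (P.qt i (P.fj ⟨i, hf⟩))) (Sum.inr (hC.ns.js ⟨i, hf⟩)) +
              φ (Sum.inr (hC.ns.js ⟨i, hf⟩)) (Sum.inl (P.qt i (P.fj ⟨i, hf⟩ + 2))))
          linear_combination h1 + h2 - z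
        · have h1 := c.2 i 1
          simp only [hC.sel_neg hf, one_smul, List.map_id'] at h1
          exact h1
      · have h1 := c.2 j.1 1
        simp only [hC.sel_pos j.2, one_smul, List.map_id'] at h1
        exact h1)

end P45

end Pool.Agent.DI
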