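import Pool.Agent.DI.PqF

/-!
# DI/PqG: the cut inequality if no square has to be folded
-/

namespace Pool.Agent.DI

open MulAction
open Pool.Agent.SAF (InC orbs FinOrb oc FinOrb_iff)
open Pool.Agent.BT (PX)

variable {H V : Type} [Group H] [MulAction H V]

namespace P45

variable {K : GX H V} {P : P45 K} (hC : P.Cm)

theorem Cm.Kp_E {x y : V} : hC.Kp.E (Sum.inl x) (Sum.inl y) ↔ K.E x y := Iff.rfl

theorem Cm.Kp_not_ar {x : V ⊕ P.FSm} {s : P.FSm} : ¬ hC.Kp.ar x (Sum.inr s) := hC.ns.not_ar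

theorem Cm.Kp_cb {i : K.I} (h : ¬ P.Fm i) : hC.Kp.cb i = Sum.inl (K.cb i) := by
  show hC.ns.add.cb (hC.sel i) = _
  rw [hC.sel_neg h]
  rfl

theorem Cm.Kp_cw {i : K.I} (h : ¬ P.Fm i) : hC.Kp.cw i = (K.cw i).map Sum.inl := by
  show hC.ns.add.cw (hC.sel i) = _
  rw [hC.sel_neg h]
  rfl

theorem Cm.Kp_cb' {i : K.I} (h : P.Fm i) : hC.Kp.cb i = Sum.inl (P.qt i (P.fj ⟨i, h⟩)) := by
  show hC.ns.add.cb (hC.sel i) = _
  rw [hC.sel_pos h]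
  rfl

theorem Cm.Kp_cw' {i : K.I} (h : P.Fm i) : hC.Kp.cw i = [Sum.inr (hC.ns.js ⟨i, h⟩),
    Sum.inl (P.qt i (P.fj ⟨i, h⟩ + 2)), Sum.inl (P.qt i (P.fj ⟨i, h⟩ + 1)),
    Sum.inl (P.qt i (P.fj ⟨i, h⟩))] := by
  show hC.ns.add.cw (hC.sel i) = _
  rw [hC.sel_pos h]
  rfl

theorem Fm.sq {i : K.I} (h : P.Fm i) : P.sq i := by
  obtain ⟨j, t, -⟩ := h
  exact t.1

theorem Cm.Kp_area : hC.Kp.area = K.area := by
  have := K.finI
  let _ : Fintype K.I := Fintype.ofFinite K.I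
  let _ : Fintype hC.Kp.I := (inferInstance : Fintype K.I)
  rw [hC.Kp.area_eq, K.area_eq]
  refine Finset.sum_congr rfl fun i _ => ?_
  by_cases h : P.Fm i
  · have e1 : hC.Kp.cw i = _ := hC.Kp_cw' h
    rw [e1, P.cw4 i (Fm.sq h)]
    rfl
  · have e1 : hC.Kp.cw i = _ := hC.Kp_cw h
    rw [e1, List.length_map]

theorem Cm.Kp_min : hC.Kp.Min := by
  intro V' _ K'
  rw [hC.Kp_area]
  exact hC.min V' K'

/-- the pentagons -/
noncomputable def Cm.PGp : PG hC.Kp where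
  five i := ¬ P.sq i
  pt i j := Sum.inl (P.pt i j)
  cb_eq i h := by
    rw [hC.Kp_cb (fun k => h (Fm.sq k)), P.cb5 i h]
  cw_eq i h := by
    rw [hC.Kp_cw (fun k => h (Fm.sq k)), P.cw5 i h]
    rfl

open Classical in
/-- the squares -/
noncomputable def Cm.qp (i : K.I) : Fin 4 → V ⊕ P.FSm :=
  if h : P.Fm i then ![Sum.inl (P.qt i (P.fj ⟨i, h⟩)), Sum.inr (hC.ns.js ⟨i, h⟩),
    Sum.inl (P.qt i (P.fj ⟨i, h⟩ + 2)), Sum.inl (P.qt i (P.fj ⟨i, h⟩ + 1))]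
  else fun j => Sum.inl (P.qt i j)

theorem Cm.qp_pos {i : K.I} (h : P.Fm i) : hC.qp i = ![Sum.inl (P.qt i (P.fj ⟨i, h⟩)),
    Sum.inr (hC.ns.js ⟨i, h⟩), Sum.inl (P.qt i (P.fj ⟨i, h⟩ + 2)),
    Sum.inl (P.qt i (P.fj ⟨i, h⟩ + 1))] := dif_pos h

theorem Cm.qp_neg {i : K.I} (h : ¬ P.Fm i) : hC.qp i = fun j => Sum.inl (P.qt i j) := dif_neg h

theorem Cm.qp_sq {i : K.I} (hi : P.sq i) : IsSq hC.Kp i (hC.qp i) := by
  by_cases h : P.Fm i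
  · rw [hC.qp_pos h]
    exact ⟨hC.Kp_cb' h, hC.Kp_cw' h, fun e => hC.nd i hi _ (Sum.inl_injective e), fun e => by
      cases e⟩
  · rw [hC.qp_neg h]
    refine ⟨?_, ?_, fun e => hC.nd i hi 0 (Sum.inl_injective e),
      fun e => hC.nd i hi 1 (Sum.inl_injective e)⟩
    · rw [hC.Kp_cb h, P.cb4 i hi]
    · rw [hC.Kp_cw h, P.cw4 i hi]
      rfl

/-- the slide data -/
def Cm.Dp (D : CuD K) : CuD hC.Kp where
  v := Sum.inl D.v
  a := Sum.inl D.a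
  b := Sum.inl D.b
  R := Sum.inl '' D.R
  va := D.va
  vb := D.vb
  ab e := D.ab (Sum.inl_injective e)
  R_ar := by
    rintro _ ⟨n, hn, rfl⟩
    exact D.R_ar n hn
  stab := by
    rintro g e _ ⟨n, hn, rfl⟩ ⟨m, hm, e'⟩
    have e1 : m = g • n := Sum.inl_injective e'
    subst e1
    exact congrArg Sum.inl (D.stab g (Sum.inl_injective e) n hn hm)
  inv := by
    rintro g e1 e2 _ ⟨n, hn, rfl⟩
    exact ⟨g • n, D.inv g (Sum.inl_injective e1) (Sum.inl_injective e2) n hn, rfl⟩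

theorem Cm.Dp_R (D : CuD K) {x : V} : (Sum.inl x : V ⊕ P.FSm) ∈ (hC.Dp D).R ↔ x ∈ D.R := by
  constructor
  · rintro ⟨n, hn, e⟩
    rw [← Sum.inl_injective e]
    exact hn
  · exact fun h => ⟨x, h, rfl⟩

theorem Cm.Dp_mv (D : CuD K) {x y : V} : (hC.Dp D).mv (Sum.inl x) (Sum.inl y) ↔ D.mv x y := by
  constructor
  · rintro ⟨h, h1, h2⟩
    exact ⟨h, (hC.Dp_R D).1 h1, Sum.inl_injective h2⟩
  · rintro ⟨h, h1, h2⟩
    exact ⟨h, (hC.Dp_R D).2 h1, congrArg Sum.inl h2⟩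

theorem Cm.Dp_tg (D : CuD K) (x y : V) :
    (hC.Dp D).tg (Sum.inl x) (Sum.inl y) = Sum.inl (D.tg x y) := by
  by_cases e : D.mv x y
  · obtain ⟨h, h1, h2⟩ := e
    rw [D.tg_mv h1 h2, (hC.Dp D).tg_mv (h := h)]
    · rfl
    · exact (hC.Dp_R D).2 h1
    · exact congrArg Sum.inl h2
  · rw [D.tg_not e, (hC.Dp D).tg_not (fun k => e ((hC.Dp_mv D).1 k))]

theorem Cm.Dp_s (D : CuD K) (x y z : V) :
    (hC.Dp D).s (Sum.inl x) (Sum.inl y) (Sum.inl z) = D.s x y z := by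
  rw [CuD.s_sv, CuD.s_sv, hC.Dp_tg, hC.Dp_tg]
  exact sv_congr (hC.Dp_mv D) (hC.Dp_mv D) ⟨fun e => Sum.inl_injective e, fun e => by rw [e]⟩

theorem Cm.Dp_mv_inr (D : CuD K) {s : P.FSm} {y : V ⊕ P.FSm} : ¬ (hC.Dp D).mv (Sum.inr s) y := by
  rintro ⟨h, h1, -⟩
  obtain ⟨n, -, e⟩ := h1
  cases e

/-- the sum over a cell with base vertex and the vertices `l` -/
theorem Cm.csg_inl (D : CuD K) : ∀ (x : V) (l : List V),
    sgs (hC.Dp D).sl.mv (hC.Dp D).sl.τ (Sum.inl x : V ⊕ P.FSm) (l.map Sum.inl) =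
      sgs D.sl.mv D.sl.τ x l
  | _, [] => rfl
  | _, [_] => rfl
  | x, y :: z :: l => by
    show (hC.Dp D).s (Sum.inl x) (Sum.inl y) (Sum.inl z) +
      sgs (hC.Dp D).sl.mv (hC.Dp D).sl.τ (Sum.inl y : V ⊕ P.FSm) ((z :: l).map Sum.inl) =
      D.s x y z + sgs D.sl.mv D.sl.τ y (z :: l)
    rw [hC.Dp_s, Cm.csg_inl D y (z :: l)]


theorem Cm.t_not (D : CuD K) {i : K.I} (h : ¬ P.Fm i) :
    csg (hC.Dp D).sl.mv (hC.Dp D).sl.τ (hC.Kp.cb i) (hC.Kp.cw i) = P.cc i D.s := by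
  have e0 : csg (hC.Dp D).sl.mv (hC.Dp D).sl.τ (Sum.inl (K.cb i) : V ⊕ P.FSm)
      ((K.cw i).map Sum.inl) = csg D.sl.mv D.sl.τ (K.cb i) (K.cw i) := by
    cases e : K.cw i with
    | nil => rfl
    | cons y l =>
      have h := hC.csg_inl D (K.cb i) (y :: l ++ [y])
      rw [List.map_append] at h
      exact h
  rw [hC.Kp_cb h, hC.Kp_cw h, e0, P.csg_eq D.sl i]
  rfl

open Classical in
theorem Cm.t_fl (D : CuD K) {i : K.I} (h : P.Fm i) :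
    csg (hC.Dp D).sl.mv (hC.Dp D).sl.τ (hC.Kp.cb i) (hC.Kp.cw i) =
      D.s (P.qt i (P.fj ⟨i, h⟩)) (P.qt i (P.fj ⟨i, h⟩ + 1)) (P.qt i (P.fj ⟨i, h⟩ + 2)) +
      (if D.mv (P.qt i (P.fj ⟨i, h⟩ + 1)) (P.qt i (P.fj ⟨i, h⟩ + 2)) then 1 else 0) := by
  have t : P.Tp i (P.fj ⟨i, h⟩) := P.fj_tp ⟨i, h⟩
  set j := P.fj ⟨i, h⟩
  rw [hC.Kp_cb' h, hC.Kp_cw' h]
  show (hC.Dp D).s (Sum.inl (P.qt i j)) (Sum.inr (hC.ns.js ⟨i, h⟩)) (Sum.inl (P.qt i (j + 2))) +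
    ((hC.Dp D).s (Sum.inr (hC.ns.js ⟨i, h⟩)) (Sum.inl (P.qt i (j + 2)))
      (Sum.inl (P.qt i (j + 1))) +
    ((hC.Dp D).s (Sum.inl (P.qt i (j + 2))) (Sum.inl (P.qt i (j + 1))) (Sum.inl (P.qt i j)) +
    ((hC.Dp D).s (Sum.inl (P.qt i (j + 1))) (Sum.inl (P.qt i j))
      (Sum.inr (hC.ns.js ⟨i, h⟩)) + 0))) = _
  have s1 : (hC.Dp D).s (Sum.inl (P.qt i j)) (Sum.inr (hC.ns.js ⟨i, h⟩))
      (Sum.inl (P.qt i (j + 2))) = 0 := (hC.Dp D).s_far (fun g e => by cases e)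
  have s2 : (hC.Dp D).s (Sum.inr (hC.ns.js ⟨i, h⟩)) (Sum.inl (P.qt i (j + 2)))
      (Sum.inl (P.qt i (j + 1))) = if D.mv (P.qt i (j + 1)) (P.qt i (j + 2)) then 1 else 0 := by
    rw [CuD.s_sv]
    have n1 := hC.Dp_mv_inr D (s := hC.ns.js ⟨i, h⟩) (y := Sum.inl (P.qt i (j + 2)))
    by_cases k : D.mv (P.qt i (j + 1)) (P.qt i (j + 2))
    · rw [if_pos k, sv_symm, sv_mn ((hC.Dp_mv D).2 k) n1]
      rw [(hC.Dp D).tg_not n1, hC.Dp_tg]
      intro e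
      cases e
    · rw [if_neg k, sv_nn n1 (fun q => k ((hC.Dp_mv D).1 q))]
  have s4 : (hC.Dp D).s (Sum.inl (P.qt i (j + 1))) (Sum.inl (P.qt i j))
      (Sum.inr (hC.ns.js ⟨i, h⟩)) = 0 := by
    rw [CuD.s_sv]
    refine sv_nn (fun k => ?_) (hC.Dp_mv_inr D)
    have r := K.ar_rk _ _ (D.mv_ar ((hC.Dp_mv D).1 k))
    have := t.rk1
    omega
  rw [s1, s2, hC.Dp_s, s4, D.s_symm (P.qt i (j + 2))]
  ring

/-- the hypotheses of the base case -/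
structure Bas (P : P45 K) (D : CuD K) : Prop where
  b1 : ∀ i j, P.Tp i j → 0 ≤ P.cc i D.s
  b2 : ∀ i j k k', P.Tp i j → Sd j k k' → ∀ g : H, g • P.qt i k = D.v → g • P.qt i j ∈ D.R →
    g • P.qt i (j + 2) ∈ D.R → ∃ h : H, h • P.qt i k' = D.v
  b3 : ∀ i j k k', P.Tp i j → Sd j k k' → ∀ g : H, g • P.qt i (j + 2) = D.v →
    ¬ (g • P.qt i k ∈ D.R ∧ g • P.qt i k' ∈ D.R)

/-- a flipped square -/
theorem Cm.fl_cc {D : CuD K} (hb : Bas P D) {i : K.I} (h : P.Fm i) :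
    2 * max 0 (csg (hC.Dp D).sl.mv (hC.Dp D).sl.τ (hC.Kp.cb i) (hC.Kp.cw i)) ≤ P.cc i D.s := by
  classical
  rw [hC.t_fl D h]
  have t : P.Tp i (P.fj ⟨i, h⟩) := P.fj_tp ⟨i, h⟩
  obtain ⟨u, u1, u2⟩ := P.fj_fl ⟨i, h⟩
  set j := P.fj ⟨i, h⟩
  change u • P.qt i j = P.qt i j at u1
  change u • P.qt i (j + 1) = P.qt i (j + 3) at u2
  have u3 : u • P.qt i (j + 2) = P.qt i (j + 2) := t.2.2.2.2 u u1
  have hk : Sd j (j + 1) (j + 3) := Or.inl ⟨rfl, rfl⟩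
  have c0 := P.cc_sd D.s_symm t.1 hk
  have c1 : D.s (P.qt i (j + 1)) (P.qt i j) (P.qt i (j + 3)) = 0 :=
    D.s_poles (t.ark hk) (t.ark hk.symm)
  have c2 : D.s (P.qt i j) (P.qt i (j + 3)) (P.qt i (j + 2)) =
      D.s (P.qt i j) (P.qt i (j + 1)) (P.qt i (j + 2)) := by
    rw [← D.s_smul u (P.qt i j) (P.qt i (j + 1)) (P.qt i (j + 2)), u1, u2, u3]
  have m1 : D.mv (P.qt i (j + 3)) (P.qt i (j + 2)) ↔ D.mv (P.qt i (j + 1)) (P.qt i (j + 2)) := by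
    rw [← D.mv_smul_iff u (x := P.qt i (j + 1)) (y := P.qt i (j + 2)), u2, u3]
  have c3 : D.s (P.qt i (j + 1)) (P.qt i (j + 2)) (P.qt i (j + 3)) =
      2 * if D.mv (P.qt i (j + 1)) (P.qt i (j + 2)) then 1 else 0 := by
    rw [D.s_sv]
    by_cases k : D.mv (P.qt i (j + 1)) (P.qt i (j + 2))
    · rw [if_pos k, sv_mm' k (m1.2 k)]
      · rfl
      · intro e
        have q1 : D.τ (P.qt i (j + 1)) (P.qt i (j + 2)) = D.τ (P.qt i (j + 3)) (P.qt i (j + 2)) := by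
          obtain ⟨g, g1, g2⟩ := k
          obtain ⟨g', g1', g2'⟩ := m1.2 ⟨g, g1, g2⟩
          rw [D.tg_mv g1 g2, D.tg_mv g1' g2'] at e
          rw [D.τ_eq g1 g2, D.τ_eq g1' g2', e]
        obtain ⟨g, g1, g2, g3⟩ := D.same k (m1.2 k) q1
        exact hb.b3 i j (j + 1) (j + 3) t hk g⁻¹ (by rw [g1, inv_smul_smul]) ⟨g2, g3⟩
    · rw [if_neg k, sv_nn k (fun q => k (m1.1 q))]
      rfl
  rw [c1, c2, c3] at c0
  have b := hb.b1 i j t
  rw [c0] at b ⊢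
  rw [max_eq_right (by linarith)]
  linarith

/-- the slide of the new complex -/
noncomputable def Cm.Qp (D : CuD K) : PQa hC.PGp := ⟨(hC.Dp D).sl, _, _, (hC.Dp D).rk1, (hC.Dp D).rk2⟩

theorem Cm.not_N {D : CuD K} {x v v' : V} (h1 : ∃ g : H, v = g • D.v) (h2 : ∃ g : H, v' = g • D.v)
    (hR : D.R.Nonempty) (hne : v ≠ v') (e : K.E x v) (e' : K.E x v') :
    ¬ (hC.Qp D).N (Sum.inl x) := by
  intro hN
  obtain ⟨n, hn⟩ := hR
  have key : ∀ v : V, (∃ g : H, v = g • D.v) → (hC.Qp D).S.M (Sum.inl v) := by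
    rintro v ⟨g, rfl⟩
    refine ⟨Sum.inl (g • n), (hC.Dp_mv D).2 ⟨g, ?_, rfl⟩⟩
    rw [inv_smul_smul]
    exact hn
  exact hne (Sum.inl_injective ((hC.Qp D).N_two hN (key v h1) (key v' h2) e e'))

/-- the condition at a side of a square with a top -/
theorem Cm.side_N {D : CuD K} (hb : Bas P D) {i : K.I} {j k k' : Fin 4} (t : P.Tp i j)
    (hk : Sd j k k') {g : H} (g1 : P.qt i k = g • D.v) (g2 : g⁻¹ • P.qt i j ∈ D.R)
    (g3 : g⁻¹ • P.qt i (j + 2) ∈ D.R) :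
    ¬ (hC.Qp D).N (Sum.inl (P.qt i j)) ∧ ¬ (hC.Qp D).N (Sum.inl (P.qt i (j + 2))) := by
  obtain ⟨h, e⟩ := hb.b2 i j k k' t hk g⁻¹ (by rw [g1, inv_smul_smul]) g2 g3
  have hne : P.qt i k ≠ P.qt i k' := by
    have := hC.nd i t.1
    rcases hk with ⟨rfl, rfl⟩ | ⟨rfl, rfl⟩
    · have := this (j + 1)
      rwa [f4d] at this
    · have := this (j + 3)
      rwa [f4f] at this
  have h2 : ∃ g : H, P.qt i k' = g • D.v := ⟨h⁻¹, by rw [← e, inv_smul_smul]⟩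
  exact ⟨hC.not_N ⟨g, g1⟩ h2 ⟨_, g2⟩ hne (Or.inl (t.ark hk)) (Or.inl (t.ark hk.symm)),
    hC.not_N ⟨g, g1⟩ h2 ⟨_, g2⟩ hne (t.Ek hk) (t.Ek hk.symm)⟩

/-- two legs in `K` moved to the same target -/
theorem Cm.same {D : CuD K} {x y z : V ⊕ P.FSm} (h1 : (hC.Qp D).S.mv x y)
    (h2 : (hC.Qp D).S.mv z y) (e : (hC.Qp D).S.τ x y = (hC.Qp D).S.τ z y) :
    ∃ (x' y' z' : V) (g : H), x = Sum.inl x' ∧ y = Sum.inl y' ∧ z = Sum.inl z' ∧ y' = g • D.v ∧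
      g⁻¹ • x' ∈ D.R ∧ g⁻¹ • z' ∈ D.R := by
  obtain ⟨g, g1, g2, g3⟩ := (hC.Dp D).same h1 h2 e
  obtain ⟨n, hn, e2⟩ := g2
  obtain ⟨m, hm, e3⟩ := g3
  refine ⟨g • n, g • D.v, g • m, g, ?_, g1, ?_, rfl, ?_, ?_⟩
  · rw [eq_comm, inv_smul_eq_iff] at e2
    exact e2
  · rw [eq_comm, inv_smul_eq_iff] at e3
    exact e3
  · rw [inv_smul_smul]
    exact hn
  · rw [inv_smul_smul]
    exact hm

/-- the condition at the corners of a square with a top -/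
theorem Cm.cor_N {D : CuD K} (hb : Bas P D) {i : K.I} {j k : Fin 4} (t : P.Tp i j) {g : H}
    (g1 : P.qt i (k + 1) = g • D.v) (g2 : g⁻¹ • P.qt i k ∈ D.R)
    (g3 : g⁻¹ • P.qt i (k + 2) ∈ D.R) :
    ¬ (hC.Qp D).N (Sum.inl (P.qt i k)) ∧ ¬ (hC.Qp D).N (Sum.inl (P.qt i (k + 2))) := by
  have hk : Sd j (j + 1) (j + 3) := Or.inl ⟨rfl, rfl⟩
  have e1 : ∀ j : Fin 4, j + 1 + 1 = j + 2 := f4a
  rcases f4 j k with rfl | rfl | rfl | rfl
  · exact hC.side_N hb t hk g1 g2 g3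
  · rw [f4a] at g1
    rw [f4d] at g3
    exact (hb.b3 i j _ _ t hk g⁻¹ (by rw [g1, inv_smul_smul]) ⟨g2, g3⟩).elim
  · rw [f4b] at g1
    rw [f4e] at g3 ⊢
    exact (hC.side_N hb t hk.symm g1 g3 g2).symm
  · exfalso
    rw [f4c] at g1
    have r1 := t.rk3
    have r2 := K.ar_rk _ _ (D.R_ar _ g2)
    rw [K.rk_smul] at r2
    have r3 := congrArg K.rk g1
    rw [K.rk_smul] at r3
    omega

theorem Cm.hyp {D : CuD K} (hb : Bas P D) {i : K.I} (hi : P.sq i) (j : Fin 4)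
    (h1 : (hC.Qp D).S.mv (hC.qp i j) (hC.qp i (j + 1)))
    (h2 : (hC.Qp D).S.mv (hC.qp i (j + 2)) (hC.qp i (j + 1)))
    (e : (hC.Qp D).S.τ (hC.qp i j) (hC.qp i (j + 1)) =
      (hC.Qp D).S.τ (hC.qp i (j + 2)) (hC.qp i (j + 1))) :
    (hC.Qp D).N (hC.qp i j) ↔ (hC.Qp D).N (hC.qp i (j + 2)) := by
  obtain ⟨x, y, z, g, e1, e2, e3, g1, g2, g3⟩ := hC.same h1 h2 e
  by_cases hf : P.Fm i
  · have t : P.Tp i (P.fj ⟨i, hf⟩) := P.fj_tp ⟨i, hf⟩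
    rw [hC.qp_pos hf] at e1 e2 e3 ⊢
    set m := P.fj ⟨i, hf⟩
    have hk : Sd m (m + 1) (m + 3) := Or.inl ⟨rfl, rfl⟩
    have f1 : (1 : Fin 4) + 1 = 2 := rfl
    have f2 : (2 : Fin 4) + 1 = 3 := rfl
    have f3 : (3 : Fin 4) + 1 = 0 := rfl
    have k1 : (1 : Fin 4) + 2 = 3 := rfl
    have k2 : (2 : Fin 4) + 2 = 0 := rfl
    have k3 : (3 : Fin 4) + 2 = 1 := rfl
    rcases f4 0 j with rfl | rfl | rfl | rfl
    · exact absurd e2 (by rw [zero_add]; intro q; cases q)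
    · exact absurd e1 (by rw [zero_add]; intro q; cases q)
    · rw [zero_add, k2] at e3 ⊢
      rw [zero_add] at e1
      rw [zero_add, f2] at e2
      have q1 : P.qt i (m + 2) = x := Sum.inl_injective e1
      have q2 : P.qt i (m + 1) = y := Sum.inl_injective e2
      have q3 : P.qt i m = z := Sum.inl_injective e3
      rw [← q1] at g2
      rw [← q2] at g1
      rw [← q3] at g3
      obtain ⟨n1, n2⟩ := hC.side_N hb t hk g1 g3 g2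
      exact ⟨fun q => (n2 q).elim, fun q => (n1 q).elim⟩
    · exact absurd e3 (by rw [zero_add, k3]; intro q; cases q)
  · rw [hC.qp_neg hf] at e1 e2 e3 ⊢
    have q1 : P.qt i j = x := Sum.inl_injective e1
    have q2 : P.qt i (j + 1) = y := Sum.inl_injective e2
    have q3 : P.qt i (j + 2) = z := Sum.inl_injective e3
    rw [← q1] at g2
    rw [← q2] at g1
    rw [← q3] at g3
    rcases hC.tn i hi with ⟨m, hN⟩ | ⟨m, t⟩
    · have key : ∃ u : H, P.qt i (j + 2) = u • P.qt i j := by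
        have a1 : K.ar (P.qt i j) (P.qt i (j + 1)) := by
          have := K.ar_smul g _ _ (D.R_ar _ g2)
          rwa [smul_inv_smul, ← g1] at this
        obtain ⟨u, hu⟩ := hN.2.1
        rcases f4 m j with rfl | rfl | rfl | rfl
        · exact ⟨u, hu⟩
        · exfalso
          have r1 := K.ar_rk _ _ hN.2.2.2.2.1
          have r2 := K.ar_rk _ _ a1
          rw [f4a] at r2
          omega
        · exact ⟨u⁻¹, by rw [f4e, hu, inv_smul_smul]⟩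
        · exfalso
          have r1 := K.ar_rk _ _ hN.2.2.2.1
          have r2 := K.ar_rk _ _ a1
          rw [f4c] at r2
          omega
      obtain ⟨u, hu⟩ := key
      show (hC.Qp D).N (Sum.inl (P.qt i j)) ↔ (hC.Qp D).N (Sum.inl (P.qt i (j + 2)))
      rw [hu]
      exact ((hC.Qp D).N_iff u (Sum.inl (P.qt i j))).symm
    · obtain ⟨n1, n2⟩ := hC.cor_N hb t g1 g2 g3
      exact ⟨fun q => (n1 q).elim, fun q => (n2 q).elim⟩

include hC in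
/-- THE BASE: no square has to be folded -/
theorem Cm.base {D : CuD K} (hb : Bas P D) : 0 ≤ P.tt D.s := by
  classical
  have h := (hC.Qp D).sum_nonneg_sq hC.Kp_min hC.qp (fun i hi => hC.qp_sq (not_not.1 hi))
    (fun i hi j => hC.hyp hb (not_not.1 hi) j)
  have h2 : (0 : ℤ) ≤ ∑ i : K.I, 2 * if hC.PGp.five i then (hC.Qp D).t i else
      max 0 ((hC.Qp D).t i) := by
    rw [← Finset.mul_sum]
    have : (0 : ℤ) ≤ ∑ i : K.I, if hC.PGp.five i then (hC.Qp D).t i else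
      max 0 ((hC.Qp D).t i) := h
    linarith
  refine h2.trans (Finset.sum_le_sum fun i _ => ?_)
  by_cases hi : P.sq i
  · rw [if_neg (show ¬ hC.PGp.five i from fun k => k hi)]
    by_cases hf : P.Fm i
    · have e : P.wm i = 1 := if_pos hf
      rw [e, one_mul]
      exact hC.fl_cc hb hf
    · have e : P.wm i = 2 := if_neg hf
      have e2 : (hC.Qp D).t i = P.cc i D.s := hC.t_not D hf
      rw [e, e2]
      have : 0 ≤ P.cc i D.s := by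
        rcases hC.tn i hi with ⟨m, hN⟩ | ⟨m, t⟩
        · exact hN.s_nonneg D
        · exact hb.b1 i m t
      rw [max_eq_right this]
  · rw [if_pos (show hC.PGp.five i from hi)]
    have hf : ¬ P.Fm i := fun k => hi (Fm.sq k)
    have e : P.wm i = 2 := if_neg hf
    have e2 : (hC.Qp D).t i = P.cc i D.s := hC.t_not D hf
    rw [e, e2]

end P45

end Pool.Agent.DI
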