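import Pool.Agent.DI.PzB
import Pool.Agent.DI.OpB

/-!
# The hubs over `w` in the laws of `p_4` and `p_5`, open stars

`Rz.hub_ec`: the edges between an open hub over `w` with a two-pole star and its poles lie in cells of the
folded slice. `Rz.hub_pg`: an element which fixes the hub and a crossing pole is in the group of the piece
of the hub. `PzH.loc5b`: the killing lemma for the local pieces and `P_5`, only the stabilisers of the bare
hubs are left as a hypothesis.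
-/

namespace Pool.Agent.DI

open MulAction
open Pool.Agent.SAF (InC SA orbs FinOrb oc Decomp SAn Conv hull dist_edge FinOrb_iff exists_next TAct)
open Pool.Agent.SAG (IO Zt)
open Pool.Agent.BT (PX PQ JS bey exits Ell Hyp lz lz_self lz_ne lz_symm x_next_unique)
open Pool.Agent.BT.TA

namespace SyQ

variable {H V : Type} [Group H] [MulAction H V] {S : SyQ H V} {w : S.X} {O : S.OR w}
  {E : V → Prop} {hc : S.Conn} {hm : (S.k0 hc w).Min} {hn : S.SqN w O}

/-- an open hub is not in the class of a sink `t_u` -/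
theorem Rz.nsk (r : S.Rz w O E) {q : V} (hq : w ∈ S.J q) (hb : ¬ S.P.Bare q) (u : S.EV w) :
    ¬ S.Sk w O u (S.rho w q) := by
  rw [S.rho_near hq, Sk.inl]
  rintro ⟨-, ho⟩
  exact ho ((r.opn u.1 q).2 ⟨hq, hb⟩)

/-- THE EDGES OF AN OPEN HUB LIE IN CELLS OF THE FOLDED SLICE -/
theorem Rz.hub_ec (r : S.Rz w O E) (hx : KX1 hm hn) (hnb : S.NB) {q y : V} {u : S.X}
    (hd : S.Dia w u q) (hb : ¬ S.P.Bare q) (hqy : S.K.ar q y) :
    (S.kf hc w O).EC (S.fq w O (S.rho w q)) (S.fq w O (S.rho w y)) := by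
  obtain ⟨a, b, y', ht, hab, ca, cb, -, hQ⟩ := r.top_of_dia hd
  have hpp := r.pp hx hnb hd.1 hb ht ca.1 cb.1
  have hsk : S.fq w O (S.rho w q) ≠ S.fq w O (Sum.inr ⟨u, hQ.adj⟩) := fun e =>
    r.nsk hd.1 hb _ (fq_inr.1 e)
  have key : ∀ a b, a ≠ b → S.Qs w u q a b → S.fq w O (S.rho w a) ≠ S.fq w O (S.rho w b) →
      (S.kf hc w O).EC (S.fq w O (S.rho w q)) (S.fq w O (S.rho w a)) := by
    intro a b hab hQ hne
    have hsk : S.fq w O (S.rho w q) ≠ S.fq w O (Sum.inr ⟨u, hQ.adj⟩) := fun e =>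
      r.nsk hd.1 hb _ (fq_inr.1 e)
    have h4 := (Qs.k0 hc hQ hab).kfq (hm := hm) (hn := hn) hne hsk
    exact GX.EC_iff.2 ⟨_, h4.cor⟩
  rcases S.K.two q y a b hqy ht.2.1 ht.2.2 with e | e | e
  · rw [e]
    exact key a b hab hQ hpp
  · exact absurd e hab
  · rw [e]
    exact key b a hab.symm hQ.symm' hpp.symm

/-- THE GROUP OF THE PIECE OF AN OPEN HUB -/
theorem Rz.hub_pg (r : S.Rz w O E) (hx : KX1 hm hn) (hnb : S.NB) {q y : V} {u u0 : S.X}
    (hd : S.Dia w u q) (hb : ¬ S.P.Bare q) (hqy : S.K.ar q y) (hu : S.D.G.Adj w u0)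
    (hcs : S.Cs w u0 y) {g : ↥(stabilizer H w)} (hgq : g.1 • q = q) (hgy : g.1 • y = y) :
    (S.kf hc w O).PG (S.fq w O (S.rho w y)) (S.fq w O (S.rho w q)) g := by
  have ho := lv_op r.nf hcs.1 hu hcs.2
  have e1 : g • S.rho w q = S.rho w q := by rw [← S.rho_smul, hgq]
  have e2 : g • S.rho w y = S.rho w y := by rw [← S.rho_smul, hgy]
  refine ⟨⟨_, arQ_up (S := S) (w := w) (O := O) hu hcs⟩,
    lv_ar hcs.1 hd.1 ho hqy (fun v => r.nsk hd.1 hb v), r.hub_ec hx hnb hd hb hqy, ?_, ?_⟩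
  · rw [← fq_smul, e2]
  · rw [← fq_smul, e1]
    exact Relation.EqvGen.refl _

/-- an element which fixes the poles in the slice fixes the poles in the folded slice -/
theorem kf_pure {y : V} {u0 : S.X} (hu : S.D.G.Adj w u0) (hcs : S.Cs w u0 y)
    {g : ↥(stabilizer H w)} (hg : g ∈ S.Bpw w y) (b : S.Q w O)
    (hb : (S.kf hc w O).ar (S.fq w O (S.rho w y)) b) : g • b = b := by
  have hb : S.arQ w O (S.fq w O (S.rho w y)) b := hb
  have h0 := arQ_up (S := S) (w := w) (O := O) hu hcs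
  have hg0 : g • S.fq w O (Sum.inr ⟨u0, hu⟩) = S.fq w O (Sum.inr ⟨u0, hu⟩) := by
    rw [← fq_smul, hg.2 _ (sar_up hu hcs)]
  have hgy : g • S.fq w O (S.rho w y) = S.fq w O (S.rho w y) := by
    rw [← fq_smul, ← S.rho_smul, hg.1]
  have h1 := arQ_smul g hb
  rw [hgy] at h1
  by_cases hb0 : b = S.fq w O (Sum.inr ⟨u0, hu⟩)
  · rw [hb0, hg0]
  · rcases arQ_two hb h0 h1 with e | e | e
    · exact absurd e hb0
    · exfalso
      apply hb0
      have : g • b = g • S.fq w O (Sum.inr ⟨u0, hu⟩) := by rw [← e, hg0]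
      exact smul_left_cancel g this
    · exact e.symm

/-- THE KILLING LEMMA FOR THE LOCAL PIECES AND `P_5`, open stars -/
theorem PzH.loc5b (h : S.PzH hc w O) (l : S.LvG hc w O) (r : S.Rz w O E) (hx : KX1 hm hn)
    {φ : H2m ↥(stabilizer H w)}
    (hφ : φ ∈ (S.kf hc w O).P5) {y n : V} {u0 : S.X} (hu : S.D.G.Adj w u0) (hcs : S.Cs w u0 y)
    (hh : ∀ q, w ∈ S.J q → S.K.ar q y → S.P.Bare q → ∀ g ∈ S.Bpw w y, g.1 • q = q →
      φ (Additive.ofMul g) = 0) (hnw : w ∈ S.J n)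
    (hny : S.K.ar n y) {g : ↥(stabilizer H w)} (hg : g ∈ S.Bpw w y)
    (hgg : (S.k0 hc w).IJ (S.rho w y) (S.rho w n) (g • S.rho w n)) :
    φ (Additive.ofMul g) = 0 := by
  refine h.loc5 l hφ hu hcs (fun q hq hqy hd g hg hgq => ?_) hnw hny hg hgg
  by_cases hb : S.P.Bare q
  · exact hh q hq hqy hb g hg hgq
  · obtain ⟨u, hd⟩ := hd
    exact hφ.2 _ _ g (r.hub_pg hx h.nb hd hb hqy hu hcs hgq hg.1) (kf_pure hu hcs hg)

end SyQ

end Pool.Agent.DI
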