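import Pool.Agent.DI.WallS
import Pool.Agent.DI.C5PC

/-!
# The corners of the raw slice at the new vertices (owner: helper78)

`WI.cor_rho`: a corner of a cell with centre `w` is a corner of the raw slice; a lost vertex `g v` is
replaced by the new vertex of the edge `w (g u)`. `WT.stv`: the instance of `STv` of helper24.
-/

namespace Pool.Agent.DI

open MulAction
open Pool.Agent.SAF (InC orbs FinOrb oc Decomp SAn SA Conv hull dist_edge FinOrb_iff exists_next TAct)
open Pool.Agent.BT (PX PQ JS bey exits mst Hyp)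
open Pool.Agent.BT.TA

namespace SyQ

variable {H V : Type} [Group H] [MulAction H V] {S : SyQ H V}

section

variable {w u w' : S.X} {v b : V} {r : H}

/-- the image of a lost vertex next to `w` -/
theorem WI.rho_v (h : S.WI w u w' v b r) {g : H} (hg : S.D.G.Adj w (g • u)) :
    S.rho w (g • v) = Sum.inr ⟨g • u, hg⟩ := by
  apply S.rho_bey hg
  rw [h.Jg]
  intro p hp
  rw [Set.mem_singleton_iff.1 hp]
  exact bey_self hg

/-- opposite vertices of a square with centre `w` have different images -/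
theorem WI.rho_ne (h : S.WI w u w' v b r) (hnd : ∀ a q m y, Q4 S.P a q m y → a ≠ m)
    {n s m y : V} (hq : Q4 S.P n s m y) (hn : S.Ok u v w n) (hm : S.Ok u v w m) :
    S.rho w n ≠ S.rho w m := by
  have hne : n ≠ m := hnd _ _ _ _ hq
  rcases hn with hn | ⟨g, rfl, hg⟩
  · rcases hm with hm | ⟨g', rfl, hg'⟩
    · rw [S.rho_near hn, S.rho_near hm]
      intro e
      exact hne (congrArg Subtype.val (Sum.inl.inj e))
    · rw [S.rho_near hn, h.rho_v hg']
      exact fun e => by cases e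
  · rcases hm with hm | ⟨g', rfl, hg'⟩
    · rw [S.rho_near hm, h.rho_v hg]
      exact fun e => by cases e
    · rw [h.rho_v hg, h.rho_v hg']
      intro e
      have e1 : g • u = g' • u := congrArg Subtype.val (Sum.inr.inj e)
      have hq' := hq.smul g⁻¹
      rw [inv_smul_smul] at hq'
      refine h.nl _ _ _ _ hq'.rot.rot.rot h.wc.Jv ?_
      rw [← mul_smul, h.Jg, mul_smul, ← e1, inv_smul_smul]

/-- CORNERS WITH CENTRE `w` ARE CORNERS OF THE SLICE -/
theorem WI.cor_rho (h : S.WI w u w' v b r) (hnd : ∀ a q m y, Q4 S.P a q m y → a ≠ m)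
    {n s m : V} (hc : S.Cw w u v w n s m) :
    (S.k0 h.con w).Cor (S.rho w n) (S.rho w s) (S.rho w m) := by
  obtain ⟨-, ⟨y, z, hq, a1, a2, a3, a4, a5⟩ | ⟨y, hq, a1, a2, a3, a4⟩⟩ := hc
  · -- a pentagon
    obtain ⟨g, i, j, hi, hq'⟩ := id hq
    have k01 := h.adj_ok hq.E1 a1 a2
    have k12 := h.adj_ok hq.E2 a2 a3
    have k23 := h.adj_ok hq.E3 a3 a4
    have k34 := h.adj_ok hq.E4 a4 a5
    have k40 := h.adj_ok hq.E5 a5 a1
    have main : ∀ (g : H) (i : S.K.I) (j : Fin 5) (hi : ¬ S.P.sq i) {n s m y z : V}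
        (k01 : w ∈ S.J n ∨ w ∈ S.J s) (k12 : w ∈ S.J s ∨ w ∈ S.J m) (k23 : w ∈ S.J m ∨ w ∈ S.J y)
        (k34 : w ∈ S.J y ∨ w ∈ S.J z) (k40 : w ∈ S.J z ∨ w ∈ S.J n),
        n = g • S.P.pt i j → s = g • S.P.pt i (j + 1) → m = g • S.P.pt i (j + 2) →
        y = g • S.P.pt i (j + 3) → z = g • S.P.pt i (j + 4) →
        (S.k0 h.con w).Cor (S.rho w n) (S.rho w s) (S.rho w m) := by
      intro g i j hi n s m y z k01 k12 k23 k34 k40 e0 e1 e2 e3 e4
      have hI : S.IsC (S.tr g i) w := by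
        intro k
        have q1 : ∀ j k : Fin 5, k = j ∨ k = j + 1 ∨ k = j + 2 ∨ k = j + 3 ∨ k = j + 4 := by
          decide
        have q12 : ∀ j : Fin 5, j + 1 + 1 = j + 2 := by decide
        have q2 : ∀ j : Fin 5, j + 2 + 1 = j + 3 := by decide
        have q3 : ∀ j : Fin 5, j + 3 + 1 = j + 4 := by decide
        have q4 : ∀ j : Fin 5, j + 4 + 1 = j := by decide
        show w ∈ S.J (g • S.P.pt i k) ∨ w ∈ S.J (g • S.P.pt i (k + 1))
        rcases q1 j k with k1 | k1 | k1 | k1 | k1 <;> subst k1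
        · rw [← e0, ← e1]; exact k01
        · rw [q12, ← e1, ← e2]; exact k12
        · rw [q2, ← e2, ← e3]; exact k23
        · rw [q3, ← e3, ← e4]; exact k34
        · rw [q4, ← e4, ← e0]; exact k40
      obtain ⟨c, l, rfl, hl⟩ := exists_e5 hi hI
      apply (S.k0 h.con w).cor_LE.2
      refine ⟨e5 h.con c j l, Or.inl ⟨?_, ?_, ?_⟩⟩
      · rw [e5_c0, hl, e0]
        rfl
      · rw [e5_c1, hl, e1]
        rfl
      · rw [e5_c2, hl, e2]
        rfl
    rcases hq' with ⟨e0, e1, e2, e3, e4⟩ | ⟨e0, e1, e2, e3, e4⟩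
    · exact main g i j hi k01 k12 k23 k34 k40 e0 e1 e2 e3 e4
    · exact (main g i j hi k12.symm k01.symm k40.symm k34.symm k23.symm e0 e1 e2 e3 e4).symm
  · -- a square
    obtain ⟨g, i, j, hi, hq'⟩ := id hq
    have rsy : S.rho w s ≠ S.rho w y := h.rho_ne hnd hq.rot a2 a4
    have rnm : S.rho w n ≠ S.rho w m := h.rho_ne hnd hq a1 a3
    have main : ∀ (g : H) (i : S.K.I) (j : Fin 4) (hi : S.P.sq i) {n s m y : V}
        (r1 : S.rho w s ≠ S.rho w y) (r2 : S.rho w n ≠ S.rho w m),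
        n = g • S.P.qt i j → s = g • S.P.qt i (j + 1) → m = g • S.P.qt i (j + 2) →
        y = g • S.P.qt i (j + 3) →
        (S.k0 h.con w).Cor (S.rho w n) (S.rho w s) (S.rho w m) := by
      intro g i j hi n s m y r1 r2 e0 e1 e2 e3
      have hND : S.ND w (S.tq g i) := by
        have t : ∀ k, S.tq g i k = g • S.P.qt i k := fun _ => rfl
        unfold ND
        rw [t, t, t, t]
        have q1 : ∀ j : Fin 4, (j = 0) ∨ (j = 1) ∨ (j = 2) ∨ (j = 3) := by decide
        rw [e1, e3] at r1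
        rw [e0, e2] at r2
        rcases q1 j with k1 | k1 | k1 | k1 <;> subst k1
        · exact ⟨r2, r1⟩
        · exact ⟨r1.symm, r2⟩
        · exact ⟨r2.symm, r1.symm⟩
        · exact ⟨r1, r2.symm⟩
      obtain ⟨c, l, e5, hl⟩ := exists_e4q hi hND
      subst e5
      apply (S.k0 h.con w).cor_LE.2
      refine ⟨e4q h.con c j l, Or.inl ⟨?_, ?_, ?_⟩⟩
      · rw [e4q_c0, hl, e0]
        rfl
      · rw [e4q_c1, hl, e1]
        rfl
      · rw [e4q_c2, hl, e2]
        rfl
    rcases hq' with ⟨e0, e1, e2, e3⟩ | ⟨e0, e1, e2, e3⟩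
    · exact main g i j hi rsy rnm e0 e1 e2 e3
    · exact (main g i j hi rsy rnm.symm e0 e1 e2 e3).symm

end

/-- THE CORNERS AT THE NEW VERTICES -/
theorem WT.stv {w u w' : S.X} {v z1 z2 : V} {r : H} (h : S.WT w u w' v z1 z2 r)
    (hnd : ∀ a q m y, Q4 S.P a q m y → a ≠ m) :
    @T5.STv H V S.X _ _ _ h.t5 (S.SV w)
      (inferInstanceAs (MulAction ↥(stabilizer H w) (S.SV w))) (h.slc hnd) := by
  letI : MulAction ↥(stabilizer H h.t5.w) (S.SV w) :=
    inferInstanceAs (MulAction ↥(stabilizer H w) (S.SV w))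
  refine @T5.STv.mk H V S.X _ _ _ h.t5 (S.SV w) _ (h.slc hnd) ?_ ?_ ?_
  · intro g s m hg hs hm hc
    have hg : S.D.G.Adj w (g • u) := hg
    have hs : w ∈ S.J s := hs
    have hm : w ∈ S.J m := hm
    have hc : S.Cw w u v w (g • v) s m := hc
    have key := h.wi.cor_rho hnd hc
    rw [h.wi.rho_v hg, S.rho_near hs, S.rho_near hm] at key
    exact key
  · intro n g m hn hg hm hc
    have hg : S.D.G.Adj w (g • u) := hg
    have hn : w ∈ S.J n := hn
    have hm : w ∈ S.J m := hm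
    have hc : S.Cw w u v w n (g • v) m := hc
    have key := h.wi.cor_rho hnd hc
    rw [h.wi.rho_v hg, S.rho_near hn, S.rho_near hm] at key
    exact key
  · intro a b c hc
    exact GX.Cor.symm (K := S.k0 h.wi.con w) hc

end SyQ

end Pool.Agent.DI
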