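import Pool.Agent.DI.WallI
import Pool.Agent.DI.QK0P

/-!
# The raw slice of a thin step as an instance of `Slc` (owner: helper78)
-/

namespace Pool.Agent.DI

open MulAction
open Pool.Agent.SAF (InC orbs FinOrb oc Decomp SAn SA Conv hull dist_edge FinOrb_iff exists_next TAct)
open Pool.Agent.BT (PX PQ JS bey exits mst Hyp)
open Pool.Agent.BT.TA

namespace SyQ

variable {H V : Type} [Group H] [MulAction H V] {S : SyQ H V}

section

variable {w u w' : S.X} {v b : V} {r : H}

theorem WI.adj_ok (h : S.WI w u w' v b r) {y z : V} {c : S.X} (e : S.K.E y z)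
    (hy : S.Ok u v c y) (hz : S.Ok u v c z) : c ∈ S.J y ∨ c ∈ S.J z := by
  rcases hy with hy | ⟨g, rfl, hg⟩
  · exact Or.inl hy
  · rcases hz with hz | ⟨g', rfl, hg'⟩
    · exact Or.inr hz
    · exfalso
      obtain ⟨p, p0, p1⟩ := S.one_ex e
      rw [h.Jg] at p0 p1
      have e1 := (Set.mem_singleton_iff.1 p0).symm.trans (Set.mem_singleton_iff.1 p1)
      have e2 : S.K.E v (g⁻¹ • g' • v) := by
        have := S.K.E_smul g⁻¹ e
        rwa [inv_smul_smul] at this
      refine h.wc.ov.no_self h.wc.Jv ?_ e2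
      rw [← mul_smul, h.Jg, mul_smul, ← e1, inv_smul_smul]

/-- corners with centre `w` are corners of the slice -/
theorem WI.cor_k0 (h : S.WI w u w' v b r) (hnd : ∀ a q m y, Q4 S.P a q m y → a ≠ m)
    {n s m : V} (hn : w ∈ S.J n) (hs : w ∈ S.J s) (hm : w ∈ S.J m)
    (hc : S.Cw w u v w n s m) :
    (S.k0 h.con w).Cor (S.nv w n hn) (S.nv w s hs) (S.nv w m hm) := by
  obtain ⟨-, ⟨y, z, hq, a1, a2, a3, a4, a5⟩ | ⟨y, hq, a1, a2, a3, a4⟩⟩ := hc
  · -- a pentagon
    obtain ⟨g, i, j, hi, hq'⟩ := id hq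
    have hyz := h.adj_ok hq.E4 a4 a5
    have main : ∀ (g : H) (i : S.K.I) (j : Fin 5) (hi : ¬ S.P.sq i) {n s m y z : V}
        (hn : w ∈ S.J n) (hs : w ∈ S.J s) (hm : w ∈ S.J m) (hyz : w ∈ S.J y ∨ w ∈ S.J z),
        n = g • S.P.pt i j → s = g • S.P.pt i (j + 1) → m = g • S.P.pt i (j + 2) →
        y = g • S.P.pt i (j + 3) → z = g • S.P.pt i (j + 4) →
        (S.k0 h.con w).Cor (S.nv w n hn) (S.nv w s hs) (S.nv w m hm) := by
      intro g i j hi n s m y z hn hs hm hyz e0 e1 e2 e3 e4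
      have hI : S.IsC (S.tr g i) w := by
        intro k
        have q1 : ∀ j k : Fin 5, k = j ∨ k = j + 1 ∨ k = j + 2 ∨ k = j + 3 ∨ k = j + 4 := by
          decide
        have q2 : ∀ j : Fin 5, j + 2 + 1 = j + 3 := by decide
        have q3 : ∀ j : Fin 5, j + 3 + 1 = j + 4 := by decide
        have q4 : ∀ j : Fin 5, j + 4 + 1 = j := by decide
        show w ∈ S.J (g • S.P.pt i k) ∨ w ∈ S.J (g • S.P.pt i (k + 1))
        rcases q1 j k with k1 | k1 | k1 | k1 | k1 <;> subst k1
        · left; rw [← e0]; exact hn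
        · left; rw [← e1]; exact hs
        · left; rw [← e2]; exact hm
        · rw [q3, ← e3, ← e4]; exact hyz
        · right; rw [q4, ← e0]; exact hn
      obtain ⟨c, l, rfl, hl⟩ := exists_e5 hi hI
      apply (S.k0 h.con w).cor_LE.2
      refine ⟨e5 h.con c j l, Or.inl ⟨?_, ?_, ?_⟩⟩
      · rw [e5_c0, hl]
        show S.rho w (g • S.P.pt c.1 j) = _
        rw [← e0, S.rho_near hn]
        rfl
      · rw [e5_c1, hl]
        show S.rho w (g • S.P.pt c.1 (j + 1)) = _
        rw [← e1, S.rho_near hs]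
        rfl
      · rw [e5_c2, hl]
        show S.rho w (g • S.P.pt c.1 (j + 2)) = _
        rw [← e2, S.rho_near hm]
        rfl
    rcases hq' with ⟨e0, e1, e2, e3, e4⟩ | ⟨e0, e1, e2, e3, e4⟩
    · exact main g i j hi hn hs hm hyz e0 e1 e2 e3 e4
    · exact (main g i j hi hm hs hn hyz.symm e0 e1 e2 e3 e4).symm
  · -- a square
    obtain ⟨g, i, j, hi, hq'⟩ := id hq
    have hnm : n ≠ m := hnd _ _ _ _ hq
    have hsy : s ≠ y := hnd _ _ _ _ hq.rot
    have rsy : S.rho w s ≠ S.rho w y := by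
      rw [S.rho_near hs]
      by_cases hy : w ∈ S.J y
      · rw [S.rho_near hy]
        intro e
        exact hsy (congrArg Subtype.val (Sum.inl.inj e))
      · rw [S.rho_far hy]
        exact fun e => by cases e
    have rnm : S.rho w n ≠ S.rho w m := by
      rw [S.rho_near hn, S.rho_near hm]
      intro e
      exact hnm (congrArg Subtype.val (Sum.inl.inj e))
    have main : ∀ (g : H) (i : S.K.I) (j : Fin 4) (hi : S.P.sq i) {n s m y : V}
        (hn : w ∈ S.J n) (hs : w ∈ S.J s) (hm : w ∈ S.J m)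
        (r1 : S.rho w s ≠ S.rho w y) (r2 : S.rho w n ≠ S.rho w m),
        n = g • S.P.qt i j → s = g • S.P.qt i (j + 1) → m = g • S.P.qt i (j + 2) →
        y = g • S.P.qt i (j + 3) →
        (S.k0 h.con w).Cor (S.nv w n hn) (S.nv w s hs) (S.nv w m hm) := by
      intro g i j hi n s m y hn hs hm r1 r2 e0 e1 e2 e3
      have hND : S.ND w (S.tq g i) := by
        have t : ∀ k, S.tq g i k = g • S.P.qt i k := fun _ => rfl
        unfold ND
        rw [t, t, t, t]
        have q1 : ∀ j : Fin 4, (j = 0) ∨ (j = 1) ∨ (j = 2) ∨ (j = 3) := by decide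
        rw [e1, e3] at r1
        rw [e0, e2] at r2
        rcases q1 j with k1 | k1 | k1 | k1 <;> subst k1
        · exact ⟨r2, r1⟩
        · exact ⟨r1.symm, r2⟩
        · exact ⟨r2.symm, r1.symm⟩
        · exact ⟨r1, r2.symm⟩
      obtain ⟨c, l, e5, hl⟩ := exists_e4q hi hND
      subst e5
      apply (S.k0 h.con w).cor_LE.2
      refine ⟨e4q h.con c j l, Or.inl ⟨?_, ?_, ?_⟩⟩
      · rw [e4q_c0, hl]
        show S.rho w (g • S.P.qt c.1.1 j) = _
        rw [← e0, S.rho_near hn]
        rfl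
      · rw [e4q_c1, hl]
        show S.rho w (g • S.P.qt c.1.1 (j + 1)) = _
        rw [← e1, S.rho_near hs]
        rfl
      · rw [e4q_c2, hl]
        show S.rho w (g • S.P.qt c.1.1 (j + 2)) = _
        rw [← e2, S.rho_near hm]
        rfl
    rcases hq' with ⟨e0, e1, e2, e3⟩ | ⟨e0, e1, e2, e3⟩
    · exact main g i j hi hn hs hm rsy rnm e0 e1 e2 e3
    · exact (main g i j hi hm hs hn rsy rnm.symm e0 e1 e2 e3).symm

end

/-- THE SLICE -/
noncomputable def WT.slc {w u w' : S.X} {v z1 z2 : V} {r : H} (h : S.WT w u w' v z1 z2 r)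
    (hnd : ∀ a q m y, Q4 S.P a q m y → a ≠ m) :
    @Slc H V S.X _ _ _ h.t5 (S.SV w)
      (inferInstanceAs (MulAction ↥(stabilizer H w) (S.SV w))) :=
  letI : MulAction ↥(stabilizer H h.t5.w) (S.SV w) :=
    inferInstanceAs (MulAction ↥(stabilizer H w) (S.SV w))
  { nr := fun x hx => S.nv w x hx
    tv := fun x hx => S.tv w x hx
    ar := S.SAr w
    Co := (S.k0 h.wi.con w).Cor
    cases := by
      rintro (x | x)
      · exact Or.inl ⟨x.1, x.2, rfl⟩
      · exact Or.inr ⟨x.1, x.2, rfl⟩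
    nr_inj := fun x x' hx hx' e => congrArg Subtype.val (Sum.inl.inj e)
    tv_inj := fun x x' hx hx' e => congrArg Subtype.val (Sum.inr.inj e)
    nr_ne_tv := fun x x' hx hx' e => by cases e
    nr_smul := fun g x hx hx' => rfl
    tv_smul := fun g x hx hx' => rfl
    ar_nr := fun x a hx ha => by
      constructor
      · intro e
        cases e with
        | hor x a e => exact e
      · exact fun e => SAr.hor _ _ e
    ar_tv := fun x y hx hy => by
      constructor
      · intro e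
        cases e with
        | up x u e => exact e
      · exact fun e => SAr.up _ _ e
    tv_sink := fun x hx y e => by cases e
    Co_of := fun n s m h1 h2 h3 hc => h.wi.cor_k0 hnd h1 h2 h3 hc
    Co_smul := fun g a b c hc => GX.Cor.smul (K := S.k0 h.wi.con w) g hc }

end SyQ

end Pool.Agent.DI
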