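import Pool.Agent.DI.PzC
import Pool.Agent.DI.WallT
import Pool.Agent.DI19.P5lt

/-!
# `P_5` of the folded slice and of the raw slice, open stars

`PzH.kf_P5`: a character in `P_5` of the folded slice is in `P_5` of the raw slice; hypothesis `hh`: the
stabilisers of the bare hubs over `w` are killed. `WT.p5_kf`: THE DROP OF `p_5` at a thin step for the folded
slice.
-/

namespace Pool.Agent.DI

open MulAction
open Pool.Agent.SAF (InC SA orbs FinOrb oc Decomp SAn Conv hull dist_edge FinOrb_iff exists_next TAct)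
open Pool.Agent.SAG (IO Zt)
open Pool.Agent.BT (PX PQ JS bey exits Ell Hyp lz lz_self lz_ne lz_symm x_next_unique)
open Pool.Agent.BT.TA

/-- the kernel of a two-ended stabiliser grows with the stabiliser -/
theorem NY.mono {G Y Z : Type} [Group G] [MulAction G Y] [MulAction G Z] {y : Y} {z : Z} {a : G}
    (h : NY y a) (k : ∀ g : G, g • y = y → g • z = z) : NY z a := by
  obtain ⟨h1, h2, t, h3, h4, h5⟩ := h
  exact ⟨k _ h1, h2, t, k _ h3, h4, h5⟩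

namespace SyQ

variable {H V : Type} [Group H] [MulAction H V] {S : SyQ H V} {w : S.X} {O : S.OR w}
  {E : V → Prop} {hc : S.Conn} {hm : (S.k0 hc w).Min} {hn : S.SqN w O}

/-- THE FOLDED SLICE AND THE RAW SLICE -/
theorem PzH.kf_P5 (h : S.PzH hc w O) (l : S.LvG hc w O) (r : S.Rz w O E) (hx : KX1 hm hn)
    {f : H2m ↥(stabilizer H w)} (hf : f ∈ (S.kf hc w O).P5)
    (hh : ∀ q y, w ∈ S.J q → S.K.ar q y → S.P.Bare q → ∀ g ∈ S.Bpw w y, g.1 • q = q →
      f (Additive.ofMul g) = 0) : f ∈ (S.k0 hc w).P5 := by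
  -- the sinks `t_u`
  have htu : ∀ (u : S.EV w) (a : ↥(stabilizer H w)), NY (Sum.inr u : S.SV w) a →
      f (Additive.ofMul a) = 0 := by
    intro u a ha
    refine hf.1 _ (vdz_t_snk hc O u) (h.tu u) a (ha.mono fun g hg => ?_)
    rw [← fq_smul, hg]
  have hcov : ∀ (n : S.NV w) (y : S.NV w) (B : S.SV w), (S.k0 hc w).Cor (Sum.inl n) (Sum.inl y) B →
      S.K.EC n.1 y.1 := by
    intro n y B k
    obtain ⟨a, b, k1, k2, -⟩ := (k0_cor_iff hc h.nb).1 k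
    rw [← rho_inl k2]
    exact GX.EC_iff.2 ⟨_, k1⟩
  refine ⟨fun Y hs hv a ha => ?_, fun Y N a hpg hp => ?_⟩
  · rcases Y with y | u
    · -- a sink over `w`
      have hncr : ∀ u, S.D.G.Adj w u → u ∉ S.J y.1 := fun u hu k =>
        hs (Sum.inr ⟨u, hu⟩) (SAr.up y ⟨u, hu⟩ k)
      have hJ : S.J y.1 = {w} := Nc.J ⟨y.2, hncr⟩
      have hsk : S.K.Snk y.1 := by
        intro a ha
        obtain ⟨p, p0, p1⟩ := S.one_ex (Or.inl ha : S.K.E y.1 a)
        rw [hJ] at p0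
        rw [Set.mem_singleton_iff.1 p0] at p1
        exact hs (Sum.inl ⟨a, p1⟩) (SAr.hor y ⟨a, p1⟩ ha)
      have hvc : S.K.VC y.1 := by
        obtain ⟨N, hN⟩ := hv
        obtain ⟨B, hB⟩ := GX.EC_iff.1 hN.symm
        obtain ⟨a, b, k1, -⟩ := (k0_cor_iff hc h.nb).1 hB
        exact ⟨a, (GX.EC_iff.2 ⟨_, k1⟩).symm⟩
      have hr : S.rho w y.1 = Sum.inl y := S.rho_near y.2
      rcases uk_snk h.k0m h.sqn h.nb hJ hsk (h.lc _) hvc with k | ⟨u, hu, k⟩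
      · refine hf.1 _ (uk_snk_kf hJ hsk) k a (ha.mono fun g hg => ?_)
        rw [hr, ← fq_smul, hg]
      · refine htu ⟨u, hu⟩ a (ha.mono fun g hg => ?_)
        have e : g.1 • y.1 = y.1 := congrArg Subtype.val (Sum.inl.inj hg)
        exact congrArg Sum.inr (Subtype.ext (k _ e))
    · exact htu u a ha
  · obtain ⟨⟨b0, hb0⟩, hNY, hec, haY, hij⟩ := hpg
    rcases Y with y | u
    swap
    · cases hb0
    obtain ⟨n, hnw, hny, rfl⟩ := sar_node (S := S) y.2 (A := N) (by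
      rw [S.rho_near y.2]
      exact hNY)
    have hr : S.rho w y.1 = Sum.inl y := S.rho_near y.2
    have hay : a.1 • y.1 = y.1 := congrArg Subtype.val (Sum.inl.inj haY)
    by_cases hcr : ∃ u0, S.D.G.Adj w u0 ∧ u0 ∈ S.J y.1
    · obtain ⟨u0, hu, hcs⟩ := hcr
      refine h.loc5b l r hx hf hu ⟨y.2, hcs⟩ (fun q hq hqy hb g hg hgq => hh q _ hq hqy hb g hg hgq)
        hnw hny (g := a) ?_ ?_
      · exact ⟨hay, fun A hA => hp A (by rwa [hr] at hA)⟩
      · rw [hr]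
        exact hij
    · push Not at hcr
      have hJ : S.J y.1 = {w} := Nc.J ⟨y.2, fun u hu => hcr u hu⟩
      have hloc : ∀ b, S.K.ar y.1 b → w ∈ S.J b := by
        intro b hb
        obtain ⟨p, p0, p1⟩ := S.one_ex (Or.inl hb : S.K.E y.1 b)
        rw [hJ] at p0
        rwa [Set.mem_singleton_iff.1 p0] at p1
      have hpole : ∃ b, S.K.ar y.1 b := by
        cases hb0 with
        | hor x b k => exact ⟨b.1, k⟩
        | up x u k => exact absurd k (hcr _ u.2)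
      have hpg : S.K.PG y.1 n a.1 := by
        refine ⟨hpole, hny, ?_, hay, ?_⟩
        · obtain ⟨B, hB⟩ := GX.EC_iff.1 hec
          rw [S.rho_near hnw] at hB
          exact hcov ⟨n, hnw⟩ y B hB
        · rw [S.rho_near hnw] at hij
          exact ((ij_inl hc h.nb (a := ⟨n, hnw⟩) (b := a • ⟨n, hnw⟩)).1 hij).ij
      have hb : ¬ S.P.Bare y.1 := fun k => k.1 _ hny
      obtain ⟨m, hm'⟩ := uk_pg h.k0m h.sqn h.nb h.lc hJ
        (fun u _ => (r.opn u y.1).2 ⟨y.2, hb⟩) hpg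
      refine hf.2 _ _ ⟨a.1, uk_fw hJ hay⟩ hm' (fun d hd => ?_)
      refine uk_fix_pole hJ hay (fun b hb => ?_) hd
      have k := hp (Sum.inl ⟨b, hloc b hb⟩) (SAr.hor y ⟨b, hloc b hb⟩ hb)
      exact congrArg Subtype.val (Sum.inl.inj k)

/-! ### the thin step -/

section

variable {u w' : S.X} {v z1 z2 : V} {r0 : H}

/-- `t_u` has a corner in the raw slice -/
theorem WT.ht (h : S.WT w u w' v z1 z2 r0) (hnd : ∀ a q m y, Q4 S.P a q m y → a ≠ m)
    (hu : S.D.G.Adj w u) : ∃ n m, (S.k0 h.wi.con w).Cor n (Sum.inr ⟨u, hu⟩) m := by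
  have hv : S.rho w v = Sum.inr ⟨u, hu⟩ := by
    apply S.rho_bey hu
    rw [h.wi.wc.Jv]
    intro p hp
    rw [Set.mem_singleton_iff.1 hp]
    exact bey_self hu
  obtain ⟨m, hm⟩ := h.vis v z1 h.wi.az (Or.inl h.vfin)
  obtain ⟨b, hb⟩ := GX.EC_iff.1 (GX.EC_iff.2 ⟨m, hm⟩ : S.K.EC v z1).symm
  have key : ∀ b, S.Cw w u v w z1 v b → ∃ n m, (S.k0 h.wi.con w).Cor n (Sum.inr ⟨u, hu⟩) m := by
    intro b hb
    have := h.wi.cor_rho hnd hb
    rw [hv] at this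
    exact ⟨_, _, this⟩
  obtain ⟨c, hc⟩ := h.wi.cor_cw hb
  have hok : S.Ok u v c v := by
    obtain ⟨-, ⟨y, z, -, -, a2, -⟩ | ⟨y, -, -, a2, -⟩⟩ := hc
    · exact a2
    · exact a2
  obtain ⟨⟨k, hk⟩, -⟩ := id hc
  have hcu : S.D.G.Adj u c := by
    rcases hok with e | ⟨g, e, e'⟩
    · exfalso
      rw [h.wi.wc.Jv] at e
      exact h.wi.wu k (hk.trans (Set.mem_singleton_iff.1 e))
    · have h1 : S.J (g • v) = {g • u} := Js_smul h.wi.wc.Jv
      rw [← e, h.wi.wc.Jv] at h1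
      have h2 : u = g • u := Set.singleton_eq_singleton_iff.1 h1
      rw [← h2] at e'
      exact e'.symm
  rcases h.wi.wc.ov.val c hcu with rfl | rfl
  · exact key b hc
  · have h1 := hc.smul r0⁻¹
    have e1 : r0⁻¹ • c = w := inv_smul_eq_iff.2 h.wi.rw.symm
    have e2 : r0⁻¹ • z1 = z1 := inv_smul_eq_iff.2 h.wi.rb.symm
    have e3 : r0⁻¹ • v = v := inv_smul_eq_iff.2 h.wi.rv.symm
    rw [e1, e2, e3] at h1
    exact key _ h1

/-- the characters in `P_5` of the raw slice come from `P_5` -/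
theorem WT.k0_P5 (h : S.WT w u w' v z1 z2 r0) (nd : S.P.ND) (φ : H2m H)
    (hφ : res2 (stabilizer H w) φ ∈ (S.k0 h.wi.con w).P5) : φ ∈ S.K.P5 := by
  have hnd : ∀ a q m y, Q4 S.P a q m y → a ≠ m := fun a q m y k => (k.ck_ne nd).1
  letI : MulAction ↥(stabilizer H h.t5.w) (S.SV w) :=
    inferInstanceAs (MulAction ↥(stabilizer H w) (S.SV w))
  have h1 := GX.mem_P5_iff.1 hφ
  have h2 : Pool.Agent.DI.P5 H h.t5.ar h.t5.Co (mul2 φ) :=
    T5.p5_claim (h.slc hnd) (h.stv hnd) (h.ht hnd _) h1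
  rw [GX.mem_P5_iff]
  refine ⟨fun y hy hC hI hc g hg => ?_, fun s n g ha hn hc hg hp hl => ?_⟩
  · obtain ⟨n, m, hc⟩ := hc
    exact h2.snk y hy hC hI ⟨n, m, h.wi.cor_cw hc⟩ g hg
  · obtain ⟨m, hc⟩ := hc
    refine h2.soft s n g ha hn ⟨m, h.wi.cor_cw hc⟩ hg hp ?_
    refine Relation.EqvGen.mono ?_ _ _ hl
    rintro a b ⟨k1, k2, k3⟩
    exact ⟨k1, k2, h.wi.cor_cw k3⟩

/-- THE DROP OF `p_5` AT A THIN STEP, folded slice -/
theorem WT.p5_kf (h : S.WT w u w' v z1 z2 r0) (p : S.PzH h.wi.con w O)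
    (l : S.LvG h.wi.con w O) (r : S.Rz w O E) {hm : (S.k0 h.wi.con w).Min} {hn : S.SqN w O}
    (hx : KX1 hm hn) (hh : ∀ f ∈ (S.kf h.wi.con w O).P5, ∀ q y, w ∈ S.J q → S.K.ar q y →
      S.P.Bare q → ∀ g ∈ S.Bpw w y, g.1 • q = q → f (Additive.ofMul g) = 0) :
    (S.kf h.wi.con w O).p5 + 1 ≤ S.K.p5 := by
  have hu : S.D.G.Adj w u := h.wi.wc.ov.hw.symm
  exact h.p5_dim' _ (vdz_t_snk h.wi.con O ⟨u, hu⟩) (p.tu _) (fun x => vdz_t_stab _ _)
    (fun φ hφ => h.k0_P5 r.nd φ (p.kf_P5 l r hx hφ (hh _ hφ)))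

end

end SyQ

end Pool.Agent.DI
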