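import Pool.Agent.DI.QFd

/-!
# The elements of a class which cross an edge are connected

`S.MR w O u a b`: `a`, `b` cross `w u` and are joined by a merge of the fold: `nr` a square of a near
star at `u`, `pr` a parallel square of an open star at `u`, `ps` a passing square (`q` beyond `u`, the
square at another edge `w v`), `dq` the two poles of a double diamond. `S.class_conn`: two elements of
one class which cross `w u` are connected by `MR`.
-/

namespace Pool.Agent.DI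

open MulAction
open Pool.Agent.SAF (InC orbs FinOrb oc Decomp SAn SA Conv hull dist_edge FinOrb_iff exists_next)
open Pool.Agent.BT (PX PQ JS bey exits lz lz_self lz_ne lz_symm x_next_unique)
open Pool.Agent.BT.TA

namespace SyQ

variable {H V : Type} [Group H] [MulAction H V] (S : SyQ H V)

/-- merges inside the set of the elements which cross `w u` -/
inductive MR (w : S.X) (O : S.OR w) (u : S.X) : V → V → Prop
  | nr (q a b : V) : S.Qs w u q a b → ¬ S.SD w u q → ¬ O.op u q → MR w O u a b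
  | pr (q a b : V) : S.Qs w u q a b → O.op u q → S.K.ar a q → S.K.ar b q → MR w O u a b
  | ps (v : S.X) (q a b : V) : v ≠ u → S.D.G.Adj w u → S.Qs w v q a b → S.J q ⊆ bey S.D.G w u →
      MR w O u a b
  | dq (v : S.X) (q a b : V) : v ≠ u → a ≠ b → w ∈ S.J q → S.K.ar q a → S.K.ar q b →
      S.D.G.Adj w u → S.Cs w u a → S.Cs w u b → S.Gc w v q a b → ¬ S.SD w v q → ¬ O.op v q →
      MR w O u a b

/-- connected by merges -/
def MC (w : S.X) (O : S.OR w) (u : S.X) (a b : V) : Prop := Relation.EqvGen (S.MR w O u) a b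

variable {S}

theorem MC.refl' {w : S.X} {O : S.OR w} {u : S.X} (a : V) : S.MC w O u a a :=
  Relation.EqvGen.refl a

theorem MC.symm' {w : S.X} {O : S.OR w} {u : S.X} {a b : V} (h : S.MC w O u a b) :
    S.MC w O u b a := Relation.EqvGen.symm _ _ h

theorem MC.trans' {w : S.X} {O : S.OR w} {u : S.X} {a b c : V} (h : S.MC w O u a b)
    (h' : S.MC w O u b c) : S.MC w O u a c := Relation.EqvGen.trans _ _ _ h h'

theorem MR.mc {w : S.X} {O : S.OR w} {u : S.X} {a b : V} (h : S.MR w O u a b) :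
    S.MC w O u a b := Relation.EqvGen.rel _ _ h

/-- a star which is neither a simple diamond nor open -/
theorem Gc.mc {w u : S.X} {O : S.OR w} {q a b : V} (k : S.Gc w u q a b) (h1 : ¬ S.SD w u q)
    (h2 : ¬ O.op u q) : S.MC w O u a b := by
  induction k with
  | rel x y k => exact (MR.nr q x y k h1 h2).mc
  | refl x => exact MC.refl' x
  | symm x y _ ih => exact ih.symm'
  | trans x y z _ _ i1 i2 => exact i1.trans' i2

/-- the second edge at `w` is unique -/
theorem snd_unique {w u u1 u2 : S.X} {x : V} (hw : w ∈ S.J x) (hu : S.D.G.Adj w u)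
    (h1 : S.D.G.Adj w u1) (h2 : S.D.G.Adj w u2) (c : u ∈ S.J x) (c1 : u1 ∈ S.J x)
    (c2 : u2 ∈ S.J x) (n1 : u1 ≠ u) (n2 : u2 ≠ u) : u1 = u2 := by
  have k := S.js.two x w hw (Sum.inr u) (Or.inr ⟨u, rfl, hu, c⟩) (Sum.inr u1)
    (Or.inr ⟨u1, rfl, h1, c1⟩) (Sum.inr u2) (Or.inr ⟨u2, rfl, h2, c2⟩)
  rcases k with k | k | k
  · exact absurd (Sum.inr.inj k).symm n1
  · exact absurd (Sum.inr.inj k).symm n2
  · exact Sum.inr.inj k

/-- the two poles of a double diamond are connected at each of its edges -/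
theorem dq_mc {w v u : S.X} {O : S.OR w} {q a b : V} (hab : a ≠ b) (hw : w ∈ S.J q)
    (ha : S.K.ar q a) (hb : S.K.ar q b) (hg : S.Gc w v q a b) (h1 : ¬ S.SD w v q)
    (h2 : ¬ O.op v q) (hu : S.D.G.Adj w u) (c : S.Cs w u a) :
    S.Cs w u b ∧ S.MC w O u a b := by
  by_cases e : v = u
  · subst e
    exact ⟨hg.cs c, hg.mc h1 h2⟩
  · have hd : S.Dia w v q := ⟨hw, a, b, hab, ha, hb, hg⟩
    have : ∃ v', S.Dia w v' q ∧ v' ≠ v := by
      by_contra hcon
      push Not at hcon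
      exact h1 ⟨hd, hcon⟩
    obtain ⟨v', hd', hne⟩ := this
    have a1 := hd.two ha
    have a2 := hd'.two ha
    have b2 := hd'.two hb
    have e' : v' = u := by
      by_contra hne'
      exact hne (snd_unique c.1 hu a2.1 a1.1 c.2 a2.2.2 a1.2.2 hne' e)
    subst e'
    exact ⟨b2.2, (MR.dq v q a b e hab hw ha hb hu c b2.2 hg h1 h2).mc⟩

/-- the way down inside the elements which cross `w u` -/
theorem Dn.mc {w : S.X} {O : S.OR w} {z x : V} (h : S.Dn w O z x) {u : S.X}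
    (hu : S.D.G.Adj w u) (c : S.Cs w u z) : S.MC w O u z x := by
  obtain ⟨u', s, hu', hc, h1, h2, h3, h4, h5⟩ := h
  have e : u = u' := ar_cs_eq c.1 h1 h2 hu hu' c.2 hc.2
  rw [e]
  exact h5.mc h3.1 h3.2

theorem Tm.mc {w : S.X} {O : S.OR w} {z t : V} (h : S.Tm w O z t) {u : S.X}
    (hu : S.D.G.Adj w u) (c : S.Cs w u z) : S.MC w O u z t := by
  induction h with
  | base z h => exact MC.refl' z
  | step z x t h _ ih => exact (h.mc hu c).trans' (ih (h.cs hu c))

/-- two ways down -/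
theorem Dn.unique2 {w : S.X} {O : S.OR w} {z x x' : V} (h : S.Dn w O z x) (h' : S.Dn w O z x') :
    x = x' ∨ ((∀ y, ¬ S.Dn w O x y) ∧ (∀ y, ¬ S.Dn w O x' y) ∧ ∀ u, S.D.G.Adj w u →
      S.Cs w u x → S.Cs w u x' ∧ S.MC w O u x x') := by
  have h0 := h
  have h0' := h'
  obtain ⟨v, s, hv, hc, h1, h2, h3, h4, h5⟩ := h
  obtain ⟨v1, s1, hv1, hc1, k1, k2, k3, k4, k5⟩ := h'
  obtain rfl : v = v1 := ar_cs_eq hc.1 h1 h2 hv hv1 hc.2 hc1.2
  obtain rfl : s = s1 := ar_ar_eq hc.1 h1 h2 k1 k2 hv hc.2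
  by_cases e : x = x'
  · exact Or.inl e
  · right
    rcases h0.unique h0' with e' | ⟨u, u', hu, hu', hne, c1, c2, c3, c4⟩
    · exact absurd e' e
    · refine ⟨pass_term hu hu' hne c1 c2, pass_term hu hu' hne c3 c4, ?_⟩
      intro u hu c
      exact dq_mc e h2 h4 k4 (h5.symm'.trans _ _ _ k5) h3.1 h3.2 hu c

/-- two terminals of one element -/
theorem Tm.mc_unique {w : S.X} {O : S.OR w} {z t t' : V} (h : S.Tm w O z t)
    (h' : S.Tm w O z t') {u : S.X} (hu : S.D.G.Adj w u) (c : S.Cs w u t) :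
    S.Cs w u t' ∧ S.MC w O u t t' := by
  induction h with
  | base z h =>
    rw [h'.eq_of_term h]
    exact ⟨c, MC.refl' _⟩
  | step z x t h k ih =>
    cases h' with
    | base z h' => exact absurd h (h' x)
    | step z x' t' h' k' =>
      rcases h.unique2 h' with e | ⟨e1, e2, e3⟩
      · rw [← e] at k'
        exact ih k' c
      · rw [k.eq_of_term e1] at c ⊢
        rw [k'.eq_of_term e2]
        exact e3 u hu c

/-- the terminals at both ends of a merge -/
theorem mer_mc {w v : S.X} {O : S.OR w} {q x x' t t' : V} (h : S.Qs w v q x x')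
    (hq : ¬ S.SD w v q) (ho : ¬ O.op v q) (ht : S.Tm w O x t) (ht' : S.Tm w O x' t') {u : S.X}
    (hu : S.D.G.Adj w u) (c : S.Cs w u t) : S.Cs w u t' ∧ S.MC w O u t t' := by
  by_cases hw : w ∈ S.J q
  · have gxx : S.Gc w v q x x' := Relation.EqvGen.rel _ _ h
    rcases h.E1 with e1 | e1
    · rcases h.E2 with e2 | e2
      · by_cases hp : ∃ p, S.K.ar q p ∧ S.Gc w v q x p
        · obtain ⟨p, p1, p2⟩ := hp
          obtain ⟨t'', ht''⟩ := exists_Tm (S := S) w O p
          have d1 : S.Dn w O x p := ⟨v, q, h.adj, h.l, e1, hw, ⟨hq, ho⟩, p1, p2⟩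
          have d2 : S.Dn w O x' p := ⟨v, q, h.adj, h.r, e2, hw, ⟨hq, ho⟩, p1,
            gxx.symm'.trans _ _ _ p2⟩
          have r1 := ht.mc_unique (Tm.step _ _ _ d1 ht'') hu c
          have r2 := (Tm.step _ _ _ d2 ht'').mc_unique ht' hu r1.1
          exact ⟨r2.1, r1.2.trans' r2.2⟩
        · have t1 : ∀ y, ¬ S.Dn w O x y := by
            rintro y ⟨u1, s, hu1, hc, h1, h2, h3, h4, h5⟩
            obtain rfl : u1 = v := ar_cs_eq hc.1 e1 hw hu1 h.adj hc.2 h.l.2
            obtain rfl : s = q := ar_ar_eq hc.1 h1 h2 e1 hw hu1 hc.2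
            exact hp ⟨y, h4, h5⟩
          have t2 : ∀ y, ¬ S.Dn w O x' y := by
            rintro y ⟨u1, s, hu1, hc, h1, h2, h3, h4, h5⟩
            obtain rfl : u1 = v := ar_cs_eq hc.1 e2 hw hu1 h.adj hc.2 h.r.2
            obtain rfl : s = q := ar_ar_eq hc.1 h1 h2 e2 hw hu1 hc.2
            exact hp ⟨y, h4, gxx.trans _ _ _ h5⟩
          rw [ht.eq_of_term t1] at c ⊢
          rw [ht'.eq_of_term t2]
          obtain rfl : u = v := ar_cs_eq c.1 e1 hw hu h.adj c.2 h.l.2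
          exact ⟨h.r, gxx.mc hq ho⟩
      · have d1 : S.Dn w O x x' := ⟨v, q, h.adj, h.l, e1, hw, ⟨hq, ho⟩, e2, gxx⟩
        exact ht.mc_unique (Tm.step _ _ _ d1 ht') hu c
    · rcases h.E2 with e2 | e2
      · have d1 : S.Dn w O x' x := ⟨v, q, h.adj, h.r, e2, hw, ⟨hq, ho⟩, e1, gxx.symm'⟩
        exact (Tm.step _ _ _ d1 ht).mc_unique ht' hu c
      · by_cases e : x = x'
        · rw [← e] at ht'
          exact ht.mc_unique ht' hu c
        · have hd : S.Dia w v q := ⟨hw, x, x', e, e1, e2, gxx⟩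
          have : ∃ u', S.Dia w u' q ∧ u' ≠ v := by
            by_contra hcon
            push Not at hcon
            exact hq ⟨hd, hcon⟩
          obtain ⟨u', hd', hne⟩ := this
          have c1 := hd'.two e1
          have c2 := hd'.two e2
          rw [ht.eq_of_term (pass_term h.adj c1.1 hne.symm h.l c1.2)] at c ⊢
          rw [ht'.eq_of_term (pass_term h.adj c1.1 hne.symm h.r c2.2)]
          exact dq_mc e hw e1 e2 gxx hq ho hu c
  · -- passing
    have ha := S.dir_adj hw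
    have hb := S.dir_bey hw
    have hne : v ≠ S.dir w q := by
      intro e
      obtain ⟨p, hp⟩ := S.js.ne q
      have h1 := h.near hp
      have h2 := hb hp
      rw [← e] at h2
      exact bey_not h1 h2
    have c1 : S.Cs w (S.dir w q) x := ⟨h.l.1, S.dir_cross h.E1 h.l.1 hw⟩
    have c2 : S.Cs w (S.dir w q) x' := ⟨h.r.1, S.dir_cross h.E2 h.r.1 hw⟩
    rw [ht.eq_of_term (pass_term h.adj ha hne h.l c1)] at c ⊢
    rw [ht'.eq_of_term (pass_term h.adj ha hne h.r c2)]
    by_cases e : u = v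
    · subst e
      exact ⟨h.r, (MR.nr q x x' h hq ho).mc⟩
    · have e' : S.dir w q = u := by
        by_contra hne'
        exact hne (snd_unique c.1 hu ha h.adj c.2 c1.2 h.l.2 hne' (Ne.symm e)).symm
      have hb' : S.J q ⊆ bey S.D.G w u := by
        rw [← e']
        exact hb
      rw [e'] at c2
      exact ⟨c2, (MR.ps v q x x' (Ne.symm e) hu h hb').mc⟩

/-- the terminals at both ends of a parallel square of an open star -/
theorem par_mc {w v : S.X} {O : S.OR w} {q x x' t t' : V} (h : S.Qs w v q x x')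
    (ho : O.op v q) (e1 : S.K.ar x q) (e2 : S.K.ar x' q)
    (ht : S.Tm w O x t) (ht' : S.Tm w O x' t') {u : S.X} (hu : S.D.G.Adj w u)
    (c : S.Cs w u t) : S.Cs w u t' ∧ S.MC w O u t t' := by
  have hw : w ∈ S.J q := O.near v q ho
  have t1 : ∀ y, ¬ S.Dn w O x y := by
    rintro y ⟨u1, s, hu1, hc, h1, h2, h3, h4, h5⟩
    obtain rfl : u1 = v := ar_cs_eq hc.1 e1 hw hu1 h.adj hc.2 h.l.2
    obtain rfl : s = q := ar_ar_eq hc.1 h1 h2 e1 hw hu1 hc.2
    exact h3.2 ho
  have t2 : ∀ y, ¬ S.Dn w O x' y := by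
    rintro y ⟨u1, s, hu1, hc, h1, h2, h3, h4, h5⟩
    obtain rfl : u1 = v := ar_cs_eq hc.1 e2 hw hu1 h.adj hc.2 h.r.2
    obtain rfl : s = q := ar_ar_eq hc.1 h1 h2 e2 hw hu1 hc.2
    exact h3.2 ho
  rw [ht.eq_of_term t1] at c ⊢
  rw [ht'.eq_of_term t2]
  obtain rfl : u = v := ar_cs_eq c.1 e1 hw hu h.adj c.2 h.l.2
  exact ⟨h.r, (MR.pr q x x' h ho e1 e2).mc⟩

/-- what is carried along a chain of merges -/
def CarryP (w : S.X) (O : S.OR w) (u : S.X) (t0 : V) (a : S.SV w) : Prop :=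
  ∃ z : S.NV w, a = Sum.inl z ∧ ∀ t, S.Tm w O z.1 t → S.Cs w u t ∧ S.MC w O u t0 t

theorem carry_step {w u : S.X} {O : S.OR w} (hu : S.D.G.Adj w u) {t0 : V} {a b : S.SV w}
    (h : S.FR w O a b ∨ S.FR w O b a) (k : S.CarryP w O u t0 a) : S.CarryP w O u t0 b := by
  obtain ⟨z, rfl, hz⟩ := k
  have hz0 : ∃ t, S.Tm w O z.1 t := exists_Tm w O z.1
  obtain ⟨t, ht⟩ := hz0
  obtain ⟨c, m⟩ := hz t ht
  rcases h with h | h
  · cases h with
    | mer v q x x' h1 h2 h3 =>
      refine ⟨x', rfl, fun t' ht' => ?_⟩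
      have r := mer_mc h1 h2 h3 ht ht' hu c
      exact ⟨r.1, m.trans' r.2⟩
    | par v q x x' h1 h2 h3 h4 =>
      refine ⟨x', rfl, fun t' ht' => ?_⟩
      have r := par_mc h1 h2 h3 h4 ht ht' hu c
      exact ⟨r.1, m.trans' r.2⟩
    | dia q v h1 h2 =>
      exfalso
      have e : t = z.1 := by
        apply ht.eq_of_term
        rintro y ⟨u1, s, hu1, hc, -⟩
        exact h1.1.not_cs hu1 hc.2
      rw [e] at c
      exact h1.1.not_cs hu c.2
  · cases h with
    | mer v q x x' h1 h2 h3 =>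
      refine ⟨x, rfl, fun t' ht' => ?_⟩
      have r := mer_mc h1.symm' h2 h3 ht ht' hu c
      exact ⟨r.1, m.trans' r.2⟩
    | par v q x x' h1 h2 h3 h4 =>
      refine ⟨x, rfl, fun t' ht' => ?_⟩
      have r := par_mc h1.symm' h2 h4 h3 ht ht' hu c
      exact ⟨r.1, m.trans' r.2⟩

theorem carry {w u : S.X} {O : S.OR w} (hu : S.D.G.Adj w u) {t0 : V} {a b : S.SV w}
    (h : Relation.EqvGen (S.FR w O) a b) :
    S.CarryP w O u t0 a ↔ S.CarryP w O u t0 b := by
  induction h with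
  | rel a b h => exact ⟨carry_step hu (Or.inl h), carry_step hu (Or.inr h)⟩
  | refl a => exact Iff.rfl
  | symm a b _ ih => exact ih.symm
  | trans a b c _ _ i1 i2 => exact i1.trans i2

/-- two elements of one class which cross `w u` are connected by merges inside the set of the
elements which cross `w u` -/
theorem class_conn {w u : S.X} {O : S.OR w} (hu : S.D.G.Adj w u) {x x' : V} (c : S.Cs w u x)
    (c' : S.Cs w u x') (h : S.fq w O (S.rho w x) = S.fq w O (S.rho w x')) :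
    S.MC w O u x x' := by
  obtain ⟨t, ht⟩ := exists_Tm (S := S) w O x
  obtain ⟨t', ht'⟩ := exists_Tm (S := S) w O x'
  have h1 : S.CarryP w O u t (S.rho w x) := by
    refine ⟨⟨x, c.1⟩, S.rho_near c.1, fun t1 ht1 => ?_⟩
    exact ht.mc_unique ht1 hu (ht.cs hu c)
  obtain ⟨z, e, hz⟩ := (carry hu (fq_eq.1 h)).1 h1
  rw [S.rho_near c'.1] at e
  have e' : x' = z.1 := congrArg Subtype.val (Sum.inl.inj e)
  have h2 := hz t' (by rw [← e']; exact ht')
  exact ((ht.mc hu c).trans' h2.2).trans' (ht'.mc hu c').symm'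

/-! ### conversely -/

theorem MR.fq {w u : S.X} {O : S.OR w} {a b : V} (h : S.MR w O u a b) :
    S.fq w O (S.rho w a) = S.fq w O (S.rho w b) := by
  cases h with
  | nr q _ _ h1 h2 h3 =>
    have g : S.Gc w u q a b := Relation.EqvGen.rel _ _ h1
    exact g.fq h2 h3
  | pr q _ _ h1 h2 h3 h4 =>
    rw [S.rho_near h1.l.1, S.rho_near h1.r.1]
    exact (FR.par u q ⟨a, h1.l.1⟩ ⟨b, h1.r.1⟩ h1 h2 h3 h4).fq
  | ps v q _ _ h1 h2 h3 h4 =>
    have hw : w ∉ S.J q := S.not_mem_of_bey h2 h4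
    have g : S.Gc w v q a b := Relation.EqvGen.rel _ _ h3
    exact g.fq (fun k => hw k.1.1) (fun k => hw (O.near _ _ k))
  | dq v q _ _ h1 h2 h3 h4 h5 h6 h7 h8 h9 h10 h11 => exact h9.fq h10 h11

theorem MR.cs {w u : S.X} {O : S.OR w} {a b : V} (h : S.MR w O u a b) :
    S.D.G.Adj w u ∧ S.Cs w u a ∧ S.Cs w u b := by
  cases h with
  | nr q _ _ h1 h2 h3 => exact ⟨h1.adj, h1.l, h1.r⟩
  | pr q _ _ h1 h2 h3 h4 => exact ⟨h1.adj, h1.l, h1.r⟩
  | ps v q _ _ h1 h2 h3 h4 =>
    have hw : w ∉ S.J q := S.not_mem_of_bey h2 h4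
    have e : S.dir w q = u := S.dir_eq h2 h4
    refine ⟨h2, ⟨h3.l.1, ?_⟩, h3.r.1, ?_⟩
    · rw [← e]
      exact S.dir_cross h3.E1 h3.l.1 hw
    · rw [← e]
      exact S.dir_cross h3.E2 h3.r.1 hw
  | dq v q _ _ h1 h2 h3 h4 h5 h6 h7 h8 h9 h10 h11 => exact ⟨h6, h7, h8⟩

theorem MC.fq {w u : S.X} {O : S.OR w} {a b : V} (h : S.MC w O u a b) :
    S.fq w O (S.rho w a) = S.fq w O (S.rho w b) := by
  induction h with
  | rel a b h => exact h.fq
  | refl a => rfl
  | symm a b _ ih => exact ih.symm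
  | trans a b c _ _ i1 i2 => exact i1.trans i2

end SyQ

end Pool.Agent.DI
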