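import Pool.Agent.DI.QCut
import Pool.Agent.DI.CutS

/-!
# The pole excess of the raw slices

`S.AJ`: the corners between in-arrows with a common place (local corners of all levels).
`S.K.pc.con S.AJ`: the local pieces, the private poles and the strands which are not local.
`pexc_K`: the pole excess of `K` in this graph. `cutF hc hnb w hw`: the family of the raw slices at `w i`
(in different orbits). `pexc_sum`: the sum of their pole excesses is `aftE` of this graph. The number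
`e` of pole ends of a local piece: `e_le_two`, `e_le_one` (a group element moves a pole), `cor_of_two`,
`cor_of_one`.
-/

attribute [local instance 2000] SubMulAction.mulAction

namespace Pool.Agent.DI

open MulAction
open Pool.Agent.SAF (InC orbs FinOrb oc Decomp SAn SA Conv hull dist_edge FinOrb_iff exists_next)
open Pool.Agent.BT (PX PQ JS bey exits lz lz_self lz_ne lz_symm x_next_unique)
open Pool.Agent.BT.TA

namespace SyQ

variable {H V : Type} [Group H] [MulAction H V] {S : SyQ H V}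

theorem not_ar_inr (hc : S.Conn) {w : S.X} {u : S.EV w} {a : S.SV w} :
    ¬ (S.k0 hc w).ar (Sum.inr u) a := by
  intro h
  have h : S.SAr w (Sum.inr u) a := h
  cases h

/-- the pole excess of the slice -/
theorem pexc_near (hc : S.Conn) (w : S.X) :
    (S.k0 hc w).pexc = (nearJM hc w).fg.exc ((nearJM hc w).imN (nearP hc w)) := by
  rw [← (S.k0 hc w).pexc_pc]
  symm
  refine (S.k0 hc w).pc.exc_far (Q := (S.k0 hc w).PO) (Fr := farN hc w) ?_ ?_ (nearP hc w)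
    (fun _ => Iff.rfl)
  · rintro t ⟨y, a, n, h1, h2, h3, h4⟩ ⟨u, hu⟩
    rw [h1] at hu
    have hu : y = Sum.inr u := hu
    rw [hu] at h2
    exact not_ar_inr hc h2
  · intro e h
    have h1 : ∀ u : S.EV w, (S.k0 hc w).c1 e.1 ≠ Sum.inr u := by
      intro u hu
      rcases h with h | h
      · have h2 : ¬ (S.k0 hc w).ar ((S.k0 hc w).c0 e.1) ((S.k0 hc w).c1 e.1) :=
          (S.k0 hc w).nd_PO.1 h
        have h3 : (S.k0 hc w).ar ((S.k0 hc w).c1 e.1) ((S.k0 hc w).c0 e.1) :=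
          ((S.k0 hc w).c_E0 e.1).resolve_right h2
        rw [hu] at h3
        exact not_ar_inr hc h3
      · have h2 : ¬ (S.k0 hc w).ar ((S.k0 hc w).c2 e.1) ((S.k0 hc w).c1 e.1) :=
          (S.k0 hc w).nd_PO.1 h
        have h3 : (S.k0 hc w).ar ((S.k0 hc w).c1 e.1) ((S.k0 hc w).c2 e.1) :=
          ((S.k0 hc w).c_E2 e.1).resolve_right h2
        rw [hu] at h3
        exact not_ar_inr hc h3
    constructor
    · rintro ⟨u, hu⟩
      rw [GX.pc_s, GX.nd_pv] at hu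
      exact h1 u hu
    · rintro ⟨u, hu⟩
      rw [GX.pc_t, GX.nd_pv] at hu
      exact h1 u hu

variable (S) in
/-- the corners between in-arrows with a common place -/
def AJ : SubMulAction H ↥S.K.PE where
  carrier := {e | (S.K.ar (S.K.c0 e.1) (S.K.c1 e.1) ∧ S.K.ar (S.K.c2 e.1) (S.K.c1 e.1)) ∧
    ∃ p, p ∈ S.J (S.K.c0 e.1) ∧ p ∈ S.J (S.K.c1 e.1) ∧ p ∈ S.J (S.K.c2 e.1)}
  smul_mem' h e := by
    rintro ⟨⟨h1, h2⟩, p, h3, h4, h5⟩
    have e0 : S.K.c0 (h • e).1 = h • S.K.c0 e.1 := S.K.c0_smul h e.1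
    have e1 : S.K.c1 (h • e).1 = h • S.K.c1 e.1 := S.K.c1_smul h e.1
    have e2 : S.K.c2 (h • e).1 = h • S.K.c2 e.1 := S.K.c2_smul h e.1
    show (S.K.ar (S.K.c0 (h • e).1) (S.K.c1 (h • e).1) ∧
      S.K.ar (S.K.c2 (h • e).1) (S.K.c1 (h • e).1)) ∧
      ∃ p, p ∈ S.J (S.K.c0 (h • e).1) ∧ p ∈ S.J (S.K.c1 (h • e).1) ∧
        p ∈ S.J (S.K.c2 (h • e).1)
    rw [e0, e1, e2]
    exact ⟨⟨S.K.ar_smul h _ _ h1, S.K.ar_smul h _ _ h2⟩, h • p, S.js.smul h _ _ h3,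
      S.js.smul h _ _ h4, S.js.smul h _ _ h5⟩

theorem AJ_s {e : ↥S.K.PE} (he : e ∈ S.AJ) :
    (S.K.pc.s e).1 = PN.inn (S.K.c1 e.1) (S.K.c0 e.1) := by
  rw [GX.pc_s, S.K.nd_in he.1.1]

theorem AJ_t {e : ↥S.K.PE} (he : e ∈ S.AJ) :
    (S.K.pc.t e).1 = PN.inn (S.K.c1 e.1) (S.K.c2 e.1) := by
  rw [GX.pc_t, S.K.nd_in he.1.2]

/-- the common place -/
theorem AJ_cB {w : S.X} {e : ↥S.K.PE} (he : e ∈ S.AJ)
    (h : S.K.pc.s e ∈ S.cB w ∨ S.K.pc.t e ∈ S.cB w) : e ∈ S.cA w := by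
  have he' := he
  obtain ⟨⟨h1, h2⟩, p, h3, h4, h5⟩ := he'
  refine ⟨⟨h1, h2⟩, ?_⟩
  rcases h with ⟨y, n, k1, g, k2, k3⟩ | ⟨y, n, k1, g, k2, k3⟩
  · rw [AJ_s he] at k1
    obtain ⟨e1, e2⟩ := PN.inn.inj k1
    subst e1; subst e2
    have : g • w = p := S.one_eq (S.K.c_E0 e.1) k2 k3 h4 h3
    exact ⟨g, by rw [this]; exact h3, by rw [this]; exact h4, by rw [this]; exact h5⟩
  · rw [AJ_t he] at k1
    obtain ⟨e1, e2⟩ := PN.inn.inj k1
    subst e1; subst e2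
    have : g • w = p := S.one_eq (S.K.c_E2 e.1) k2 k3 h4 h5
    exact ⟨g, by rw [this]; exact h3, by rw [this]; exact h4, by rw [this]; exact h5⟩

theorem cA_AJ {w : S.X} {e : ↥S.K.PE} (he : e ∈ S.cA w) : e ∈ S.AJ := by
  obtain ⟨h1, g, h2, h3, h4⟩ := he
  exact ⟨h1, g • w, h2, h3, h4⟩

theorem cA_cB {w : S.X} {e : ↥S.K.PE} (he : e ∈ S.cA w) :
    S.K.pc.s e ∈ S.cB w ∧ S.K.pc.t e ∈ S.cB w := by
  have h := cA_AJ he
  obtain ⟨-, g, h3, h4, h5⟩ := he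
  exact ⟨⟨_, _, AJ_s h, g, h4, h3⟩, ⟨_, _, AJ_t h, g, h4, h5⟩⟩

/-- THE FAMILY OF THE RAW SLICES -/
noncomputable def cutF (hc : S.Conn) (hnb : S.NB) {ι : Type} (w : ι → S.X)
    (hw : ∀ (i j : ι) (g : H), g • w i = w j → i = j) :
    CutF S.K.pc (fun i => ↥(stabilizer H (w i))) (fun i => ↥(JM.cpl (farN hc (w i))))
      (fun i => ↥((S.k0 hc (w i)).pc.avE (farN hc (w i)))) (fun i => nearJM hc (w i)) where
  c i := jcut hc hnb (w i)
  A := S.AJ
  hA i e he := cA_AJ he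
  hB i e he := ⟨fun h => (cA_cB (AJ_cB he (Or.inl h))).2, fun h => (cA_cB (AJ_cB he (Or.inr h))).1⟩
  hI i e he h := AJ_cB he (Or.inl h)
  dj i j x := by
    rintro ⟨y, n, h1, g, h2, h3⟩ ⟨y', n', h1', g', h2', h3'⟩
    rw [h1] at h1'
    obtain ⟨e1, e2⟩ := PN.inn.inj h1'
    subst e1; subst e2
    have har : S.K.ar n y := by
      have := x.2
      rw [h1] at this
      exact this
    have h4 : g • w i = g' • w j := S.one_eq (Or.inl har) h3 h2 h3' h2'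
    apply hw i j (g'⁻¹ * g)
    rw [mul_smul, h4, inv_smul_smul]

/-- THE SUM OF THE POLE EXCESSES OF THE RAW SLICES -/
theorem pexc_sum (hc : S.Conn) (hnb : S.NB) {ι : Type} [Fintype ι] (w : ι → S.X)
    (hw : ∀ (i j : ι) (g : H), g • w i = w j → i = j) [Fintype (S.K.pc.con S.AJ).fg.N] :
    ∑ i, (S.k0 hc (w i)).pexc =
      (S.K.pc.con S.AJ).fg.aftE (cutF hc hnb w hw).D (cutF hc hnb w hw).e := by
  let _ : Fintype (S.K.pc.con (cutF hc hnb w hw).A).fg.N :=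
    (inferInstance : Fintype (S.K.pc.con S.AJ).fg.N)
  have h := (cutF hc hnb w hw).sum
  rw [Finset.sum_congr rfl (fun i _ => pexc_near hc (w i))]
  exact h

/-- THE POLE EXCESS OF `K` -/
theorem pexc_K : S.K.pexc = (S.K.pc.con S.AJ).fg.exc
    ((S.K.pc.con S.AJ).imN (S.K.pc.cim S.AJ S.K.PO)) := by
  rw [← S.K.pexc_pc]
  symm
  refine S.K.pc.exc_con (fun e he => ⟨?_, ?_⟩)
  · exact S.K.not_PO (AJ_s he)
  · exact S.K.not_PO (AJ_t he)

/-- the nodes which are not over the `w i` -/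
theorem mem_D (hc : S.Conn) (hnb : S.NB) {ι : Type} (w : ι → S.X)
    (hw : ∀ (i j : ι) (g : H), g • w i = w j → i = j) {x : ↥S.K.PT} :
    (oq H (S.K.pc.ct S.AJ x) : (S.K.pc.con S.AJ).fg.N) ∈ (cutF hc hnb w hw).D ↔
      ∀ i, x ∉ S.cB (w i) := (cutF hc hnb w hw).mem_D

/-! ### the pole ends of a local piece -/

/-- connected by local corners -/
theorem ct_inn {w : S.X} {t t' : ↥S.K.PT} (h : S.K.pc.ct (S.cA w) t = S.K.pc.ct (S.cA w) t')
    {y n : V} (ht : t.1 = PN.inn y n) (hy : w ∈ S.J y) (hn : w ∈ S.J n) :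
    ∃ n', t'.1 = PN.inn y n' ∧ w ∈ S.J n' ∧ S.LIJ w y n n' := by
  replace h := S.K.pc.ct_eq.1 h
  have key : (∀ y n, t.1 = PN.inn y n → w ∈ S.J y → w ∈ S.J n →
      ∃ n', t'.1 = PN.inn y n' ∧ w ∈ S.J n' ∧ S.LIJ w y n n') ∧
      (∀ y n, t'.1 = PN.inn y n → w ∈ S.J y → w ∈ S.J n →
      ∃ n', t.1 = PN.inn y n' ∧ w ∈ S.J n' ∧ S.LIJ w y n n') := by
    clear ht hy hn
    induction h with
    | rel t t' h =>
      obtain ⟨e, rfl, rfl⟩ := h
      have he := cA_AJ e.2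
      obtain ⟨⟨h1, h2⟩, g, h3, h4, h5⟩ := e.2
      have hcor : S.K.Cor (S.K.c0 e.1.1) (S.K.c1 e.1.1) (S.K.c2 e.1.1) := S.K.cor_c e.1.1
      constructor
      · intro y n k hy hn
        have k : (S.K.pc.s e.1).1 = PN.inn y n := k
        rw [AJ_s he] at k
        obtain ⟨e1, e2⟩ := PN.inn.inj k
        subst e1; subst e2
        have hg : g • w = w := place_eq (S.K.c_E0 e.1.1) hy hn h4 h3
        rw [hg] at h3 h4 h5
        exact ⟨_, AJ_t he, h5, Relation.EqvGen.rel _ _ ⟨⟨hcor, h1, h2⟩, h4, h3, h5⟩⟩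
      · intro y n k hy hn
        have k : (S.K.pc.t e.1).1 = PN.inn y n := k
        rw [AJ_t he] at k
        obtain ⟨e1, e2⟩ := PN.inn.inj k
        subst e1; subst e2
        have hg : g • w = w := place_eq (S.K.c_E2 e.1.1) hy hn h4 h5
        rw [hg] at h3 h4 h5
        exact ⟨_, AJ_s he, h3, Relation.EqvGen.symm _ _
          (Relation.EqvGen.rel _ _ ⟨⟨hcor, h1, h2⟩, h4, h3, h5⟩)⟩
    | refl t =>
      exact ⟨fun y n k hy hn => ⟨n, k, hn, Relation.EqvGen.refl _⟩,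
        fun y n k hy hn => ⟨n, k, hn, Relation.EqvGen.refl _⟩⟩
    | symm t t' _ ih => exact ⟨ih.2, ih.1⟩
    | trans t t' t'' _ _ i1 i2 =>
      constructor
      · intro y n k hy hn
        obtain ⟨n', k1, k2, k3⟩ := i1.1 y n k hy hn
        obtain ⟨n'', l1, l2, l3⟩ := i2.1 y n' k1 hy k2
        exact ⟨n'', l1, l2, Relation.EqvGen.trans _ _ _ k3 l3⟩
      · intro y n k hy hn
        obtain ⟨n', k1, k2, k3⟩ := i2.2 y n k hy hn
        obtain ⟨n'', l1, l2, l3⟩ := i1.2 y n' k1 hy k2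
        exact ⟨n'', l1, l2, Relation.EqvGen.trans _ _ _ k3 l3⟩
  exact key.1 y n ht hy hn

/-- a representative of a private pole of the local piece of `n` at `y` -/
theorem pole_rep (hc : S.Conn) (hnb : S.NB) {w : S.X} {y n : S.NV w} (har : S.K.ar n.1 y.1)
    (d : ↥(JM.cpl (farN hc w))) (hd : d ∈ nearP hc w)
    (h : oq H (pbN hc d hd) = oq H (S.K.pc.ct (S.cA w) ⟨PN.inn y.1 n.1, har⟩)) :
    ∃ (j : ↥(stabilizer H w)) (a : S.SV w) (n' : S.NV w), (S.k0 hc w).ar (Sum.inl y) a ∧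
      (S.k0 hc w).Cor a (Sum.inl y) (Sum.inl n') ∧ S.K.ar n'.1 y.1 ∧ S.LIJ w y.1 n.1 n'.1 ∧
      (j • d).1.1 = PN.pol (Sum.inl y) a ((S.k0 hc w).Pc (Sum.inl y) (Sum.inl n)) := by
  obtain ⟨y', a', n', h1, h2, h3, h4⟩ := near_pol hc d hd
  rw [pbN_eq hc hnb d hd h2 h4] at h
  obtain ⟨g, hg⟩ := oq_eq.1 h
  obtain ⟨n1, k1, k2, k3⟩ := ct_inn hg (y := y.1) (n := n.1) rfl y.2 n.2
  have k1 : PN.inn (g • y'.1) (g • n'.1) = PN.inn y.1 n1 := k1
  obtain ⟨e1, e2⟩ := PN.inn.inj k1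
  subst e2
  have hw : g • w = w := by
    apply place_smul (x := n'.1) (y := y'.1) (Or.inl h2) n'.2 y'.2 k2
    rw [e1]
    exact y.2
  let j : ↥(stabilizer H w) := ⟨g, hw⟩
  have ey : j • (Sum.inl y' : S.SV w) = Sum.inl y := congrArg Sum.inl (Subtype.ext e1)
  refine ⟨j, j • a', ⟨g • n'.1, k2⟩, ?_, ?_, ?_, k3, ?_⟩
  · have := (S.k0 hc w).ar_smul j _ _ h1
    rwa [ey] at this
  · have := h3.smul j
    rwa [ey] at this
  · have := S.K.ar_smul g _ _ h2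
    rwa [e1] at this
  · show j • d.1.1 = _
    rw [h4, PN.smul_pol, GX.Pc_smul, ey]
    congr 1
    apply GX.Pc_eq.2
    have h5 : (S.k0 hc w).IJ (Sum.inl y) (Sum.inl n) (Sum.inl ⟨g • n'.1, k2⟩) :=
      (ij_inl hc hnb).2 k3
    exact h5.symm'

theorem near_ext (hc : S.Conn) {w : S.X} {d d' : ↥(JM.cpl (farN hc w))}
    {j j' : ↥(stabilizer H w)} (h : (j • d).1.1 = (j' • d').1.1) :
    ∃ k : ↥(stabilizer H w), d' = k • d := by
  have h1 : j • d = j' • d' := Subtype.ext (Subtype.ext h)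
  refine ⟨j'⁻¹ * j, ?_⟩
  rw [mul_smul, h1, inv_smul_smul]

/-- AT MOST TWO POLE ENDS -/
theorem e_le_two' (hc : S.Conn) (hnb : S.NB) {w : S.X} {y n : S.NV w} (har : S.K.ar n.1 y.1) :
    (jcut hc hnb w).e (oq H (S.K.pc.ct (S.cA w) ⟨PN.inn y.1 n.1, har⟩)) ≤ 2 := by
  classical
  have ha0 : ∃ a0 : S.SV w, ∀ a a', (S.k0 hc w).ar (Sum.inl y) a →
      (S.k0 hc w).ar (Sum.inl y) a' → a ≠ a0 → a' ≠ a0 → a = a' := by
    by_cases hex : ∃ a, (S.k0 hc w).ar (Sum.inl y) a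
    · obtain ⟨a0, h0⟩ := hex
      refine ⟨a0, fun a a' h h' hne hne' => ?_⟩
      rcases (S.k0 hc w).two _ a a' a0 h h' h0 with k | k | k
      · exact k
      · exact absurd k hne'
      · exact absurd k hne
    · exact ⟨Sum.inl y, fun a a' h _ _ _ => absurd ⟨a, h⟩ hex⟩
  obtain ⟨a0, h0⟩ := ha0
  refine (jcut hc hnb w).e_le (C := S.K.pc.ct (S.cA w) ⟨PN.inn y.1 n.1, har⟩)
    (fun d => if ∃ j : ↥(stabilizer H w), (j • d).1.1 = PN.pol (Sum.inl y) a0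
      ((S.k0 hc w).Pc (Sum.inl y) (Sum.inl n)) then 0 else 1) ?_
  intro d d' hd hd' k k' hg
  obtain ⟨j, a, n1, l1, -, -, -, l2⟩ := pole_rep hc hnb har d hd k
  obtain ⟨j', a', n1', l1', -, -, -, l2'⟩ := pole_rep hc hnb har d' hd' k'
  by_cases p : ∃ j : ↥(stabilizer H w), (j • d).1.1 = PN.pol (Sum.inl y) a0
      ((S.k0 hc w).Pc (Sum.inl y) (Sum.inl n))
  · by_cases p' : ∃ j : ↥(stabilizer H w), (j • d').1.1 = PN.pol (Sum.inl y) a0
      ((S.k0 hc w).Pc (Sum.inl y) (Sum.inl n))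
    · obtain ⟨i, hi⟩ := p
      obtain ⟨i', hi'⟩ := p'
      exact near_ext hc (hi.trans hi'.symm)
    · rw [if_pos p, if_neg p'] at hg
      exact absurd hg (by decide)
  · by_cases p' : ∃ j : ↥(stabilizer H w), (j • d').1.1 = PN.pol (Sum.inl y) a0
      ((S.k0 hc w).Pc (Sum.inl y) (Sum.inl n))
    · rw [if_neg p, if_pos p'] at hg
      exact absurd hg (by decide)
    · have hne : a ≠ a0 := fun e => p ⟨j, by rw [l2, e]⟩
      have hne' : a' ≠ a0 := fun e => p' ⟨j', by rw [l2', e]⟩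
      have := h0 a a' l1 l1' hne hne'
      subst this
      exact near_ext hc (l2.trans l2'.symm)

/-- two poles of a vertex which are moved by a group element -/
theorem swap_poles {H' V' : Type} [Group H'] [MulAction H' V'] (K : GX H' V') {h : H'}
    {y a a1 a2 : V'} (hy : h • y = y) (ha : K.ar y a) (hne : h • a ≠ a) (h1 : K.ar y a1)
    (h2 : K.ar y a2) (h12 : a1 ≠ a2) : h • a1 = a2 ∧ h • a2 = a1 := by
  have hm : ∀ b, K.ar y b → K.ar y (h • b) := by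
    intro b hb
    have := K.ar_smul h _ _ hb
    rwa [hy] at this
  have hc : ∀ b, K.ar y b → b = a1 ∨ b = a2 := by
    intro b hb
    rcases K.two y a1 a2 b h1 h2 hb with k | k | k
    · exact absurd k h12
    · exact Or.inr k.symm
    · exact Or.inl k.symm
  have hinj : ∀ b c : V', h • b = h • c → b = c := fun b c k => by
    have k' := congrArg (fun x : V' => h⁻¹ • x) k
    have k' : h⁻¹ • h • b = h⁻¹ • h • c := k'
    rwa [inv_smul_smul, inv_smul_smul] at k'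
  rcases hc _ (hm _ h1) with k1 | k1
  · exfalso
    have k2 : h • a2 = a2 := by
      rcases hc _ (hm _ h2) with k2 | k2
      · exact absurd (hinj _ _ (k1.trans k2.symm)) h12
      · exact k2
    rcases hc a ha with rfl | rfl
    · exact hne k1
    · exact hne k2
  · refine ⟨k1, ?_⟩
    rcases hc _ (hm _ h2) with k2 | k2
    · exact k2
    · exact absurd (hinj _ _ (k1.trans k2.symm)) h12

/-- AT MOST ONE POLE END if a group element of the local piece moves a pole -/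
theorem e_le_one' (hc : S.Conn) (hnb : S.NB) {w : S.X} {y n : S.NV w} (har : S.K.ar n.1 y.1)
    {h : ↥(stabilizer H w)} (hy : h.1 • y.1 = y.1) (hP : S.LIJ w y.1 n.1 (h.1 • n.1)) {a : S.SV w}
    (ha : (S.k0 hc w).ar (Sum.inl y) a) (hne : h • a ≠ a) :
    (jcut hc hnb w).e (oq H (S.K.pc.ct (S.cA w) ⟨PN.inn y.1 n.1, har⟩)) ≤ 1 := by
  refine (jcut hc hnb w).e_le (C := S.K.pc.ct (S.cA w) ⟨PN.inn y.1 n.1, har⟩)
    (fun _ => 0) ?_
  intro d d' hd hd' k k' _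
  obtain ⟨j, a1, n1, l1, -, -, -, l2⟩ := pole_rep hc hnb har d hd k
  obtain ⟨j', a2, n1', l1', -, -, -, l2'⟩ := pole_rep hc hnb har d' hd' k'
  have hy' : h • (Sum.inl y : S.SV w) = Sum.inl y := congrArg Sum.inl (Subtype.ext hy)
  by_cases h12 : a1 = a2
  · subst h12
    exact near_ext hc (l2.trans l2'.symm)
  · have h3 := (swap_poles (S.k0 hc w) hy' ha hne l1 l1' h12).1
    have h4 : ((h * j) • d).1.1 = (j' • d').1.1 := by
      rw [mul_smul]
      show h • (j • d).1.1 = _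
      rw [l2, l2', PN.smul_pol, GX.Pc_smul, hy', h3]
      congr 1
      apply GX.Pc_eq.2
      have h5 : (S.k0 hc w).IJ (Sum.inl y) (Sum.inl n) (Sum.inl (h • n)) := (ij_inl hc hnb).2 hP
      exact h5.symm'
    exact near_ext hc h4

/-- the number of pole ends is positive: there is a pole corner -/
theorem cor_of_one (hc : S.Conn) (hnb : S.NB) {w : S.X} {y n : S.NV w} (har : S.K.ar n.1 y.1)
    (he : 1 ≤ (jcut hc hnb w).e (oq H (S.K.pc.ct (S.cA w) ⟨PN.inn y.1 n.1, har⟩))) :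
    ∃ (a : S.SV w) (n' : S.NV w), (S.k0 hc w).ar (Sum.inl y) a ∧
      (S.k0 hc w).Cor a (Sum.inl y) (Sum.inl n') ∧ S.K.ar n'.1 y.1 ∧ S.LIJ w y.1 n.1 n'.1 := by
  have h1 : 0 < Nat.card {d : ↥((nearJM hc w).imN (jcut hc hnb w).D) //
    (jcut hc hnb w).pbq d = (S.K.pc.conIso (jcut hc hnb w).A).n
      (oq H (S.K.pc.ct (S.cA w) ⟨PN.inn y.1 n.1, har⟩))} := he
  obtain ⟨⟨d, hd⟩⟩ := (Nat.card_pos_iff.1 h1).1
  obtain ⟨hx, hx'⟩ := ((jcut hc hnb w).exists_D d).choose_spec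
  have e1 := (S.K.pc.conIso (jcut hc hnb w).A).n.injective hd
  obtain ⟨j, a, n', k1, k2, k3, k4, k5⟩ := pole_rep hc hnb har _ hx e1
  exact ⟨a, n', k1, k2, k3, k4⟩

/-- two pole ends: every pole has a corner with the local piece -/
theorem cor_of_two (hc : S.Conn) (hnb : S.NB) {w : S.X} {y n : S.NV w} (har : S.K.ar n.1 y.1)
    (he : 2 ≤ (jcut hc hnb w).e (oq H (S.K.pc.ct (S.cA w) ⟨PN.inn y.1 n.1, har⟩)))
    {a : S.SV w} (ha : (S.k0 hc w).ar (Sum.inl y) a) :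
    ∃ n' : S.NV w, (S.k0 hc w).Cor a (Sum.inl y) (Sum.inl n') ∧ S.K.ar n'.1 y.1 ∧
      S.LIJ w y.1 n.1 n'.1 := by
  have h1 : 1 < Nat.card {d : ↥((nearJM hc w).imN (jcut hc hnb w).D) //
    (jcut hc hnb w).pbq d = (S.K.pc.conIso (jcut hc hnb w).A).n
      (oq H (S.K.pc.ct (S.cA w) ⟨PN.inn y.1 n.1, har⟩))} := he
  have hf := (Nat.card_pos_iff.1 (lt_trans Nat.zero_lt_one h1)).2
  rw [Finite.one_lt_card_iff_nontrivial] at h1
  obtain ⟨⟨d, hd⟩, ⟨d', hd'⟩, hne⟩ := h1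
  obtain ⟨hx, hx'⟩ := ((jcut hc hnb w).exists_D d).choose_spec
  obtain ⟨hz, hz'⟩ := ((jcut hc hnb w).exists_D d').choose_spec
  have e1 := (S.K.pc.conIso (jcut hc hnb w).A).n.injective hd
  have e2 := (S.K.pc.conIso (jcut hc hnb w).A).n.injective hd'
  obtain ⟨j, a1, n1, k1, k2, k3, k4, k5⟩ := pole_rep hc hnb har _ hx e1
  obtain ⟨j', a2, n2, l1, l2, l3, l4, l5⟩ := pole_rep hc hnb har _ hz e2
  have h12 : a1 ≠ a2 := by
    rintro rfl
    obtain ⟨k, hk⟩ := near_ext hc (k5.trans l5.symm)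
    apply hne
    apply Subtype.ext
    apply Subtype.ext
    show d.1 = d'.1
    rw [← hx', ← hz', hk]
    exact (oq_smul k _).symm
  rcases (S.k0 hc w).two _ a1 a2 a k1 l1 ha with m | m | m
  · exact absurd m h12
  · subst m
    exact ⟨n2, l2, l3, l4⟩
  · subst m
    exact ⟨n1, k2, k3, k4⟩

/-- one pole end of a local piece which is mirrored: every pole has a corner with it -/
theorem cor_of_mir (hc : S.Conn) (hnb : S.NB) {w : S.X} {y n : S.NV w} (har : S.K.ar n.1 y.1)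
    (he : 1 ≤ (jcut hc hnb w).e (oq H (S.K.pc.ct (S.cA w) ⟨PN.inn y.1 n.1, har⟩)))
    {h : ↥(stabilizer H w)} (hy : h.1 • y.1 = y.1) (hP : S.LIJ w y.1 n.1 (h.1 • n.1)) {b : S.SV w}
    (hb : (S.k0 hc w).ar (Sum.inl y) b) (hne : h • b ≠ b)
    {a : S.SV w} (ha : (S.k0 hc w).ar (Sum.inl y) a) :
    ∃ n' : S.NV w, (S.k0 hc w).Cor a (Sum.inl y) (Sum.inl n') ∧ S.K.ar n'.1 y.1 ∧
      S.LIJ w y.1 n.1 n'.1 := by
  obtain ⟨a1, n1, k1, k2, k3, k4⟩ := cor_of_one hc hnb har he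
  by_cases h12 : a1 = a
  · subst h12
    exact ⟨n1, k2, k3, k4⟩
  · have hy' : h • (Sum.inl y : S.SV w) = Sum.inl y := congrArg Sum.inl (Subtype.ext hy)
    have h3 := (swap_poles (S.k0 hc w) hy' hb hne k1 ha h12).1
    have h5 := k2.smul h
    rw [h3, hy'] at h5
    have h6 : S.K.ar (h • n1).1 y.1 := by
      have := S.K.ar_smul h.1 _ _ k3
      rwa [hy] at this
    refine ⟨h • n1, h5, h6, ?_⟩
    have h7 : (S.k0 hc w).IJ (Sum.inl y) (Sum.inl n) (Sum.inl (h • n)) := (ij_inl hc hnb).2 hP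
    have h8 : (S.k0 hc w).IJ (Sum.inl y) (Sum.inl n) (Sum.inl n1) := (ij_inl hc hnb).2 k4
    have h9 := h8.smul h
    rw [hy'] at h9
    exact (ij_inl hc hnb).1 (h7.trans' h9)

end SyQ

end Pool.Agent.DI
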