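import Pool.Agent.DI.QF

/-!
# Quotient forests: restriction, swaps

`QF.restrict`: an invariant part with its group. `QF.fix`: an element `r` normalising the group, with
`r * r` in the group, fixes a vertex modulo the group or flips an edge. `QF.fix_edge`: two different
fixed orbits give an edge with both ends fixed.
-/

namespace Pool.Agent.DI

open MulAction

section

variable {J T : Type*} [Group J] [MulAction J T]

/-- the part of the graph in `C` -/
def EIn (E : T → T → Prop) (C : Set T) (x y : T) : Prop := E x y ∧ x ∈ C ∧ y ∈ C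

theorem QF.restrict {E : T → T → Prop} (Q : QF J E) (P : Subgroup J) (C : Set T)
    (hinv : ∀ g ∈ P, ∀ z ∈ C, g • z ∈ C)
    (hedge : ∀ x ∈ C, ∀ y ∈ C, E x y → ∀ j : J, j • x ∈ C → j • y ∈ C → j ∈ P) :
    QF P (EIn E C) where
  symm := fun x y h => ⟨Q.symm x y h.1, h.2.2, h.2.1⟩
  smul := fun j x y h => ⟨Q.smul j.1 x y h.1, hinv j.1 j.2 x h.2.1, hinv j.1 j.2 y h.2.2⟩
  cut := by
    intro x y h
    obtain ⟨f, f1, f2, f3⟩ := Q.cut x y h.1
    refine ⟨f, fun j z => f1 j.1 z, f2, ?_⟩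
    intro z w hzw hf
    obtain ⟨j, hj⟩ := f3 z w hzw.1 hf
    have hjP : j ∈ P := by
      rcases hj with ⟨rfl, rfl⟩ | ⟨rfl, rfl⟩
      · exact hedge x h.2.1 y h.2.2 h.1 j hzw.2.1 hzw.2.2
      · exact hedge x h.2.1 y h.2.2 h.1 j hzw.2.2 hzw.2.1
    exact ⟨⟨j, hjP⟩, hj⟩

/-- shortening a walk at a backtrack -/
theorem WIn.shorten {E : T → T → Prop} {C : Set T} (hE : ∀ (j : J) (x y : T), E x y → E (j • x) (j • y))
    (hinv : ∀ (g : J), ∀ z ∈ C, g • z ∈ C) {n : ℕ} {x : ℕ → T} (hx : WIn E C n x) {i : ℕ}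
    (i1 : 1 ≤ i) (i2 : i < n) {g : J} (g2 : g • x (i - 1) = x (i + 1)) :
    ∃ y : ℕ → T, WIn E C (n - 2) y ∧ y 0 = x 0 ∧ y (n - 2) = g⁻¹ • x n := by
  have hback : g⁻¹ • x (i + 1) = x (i - 1) := by rw [← g2, inv_smul_smul]
  refine ⟨fun m => if m ≤ i - 1 then x m else g⁻¹ • x (m + 2), ⟨?_, ?_⟩, ?_, ?_⟩
  · intro m hm
    by_cases h1 : m + 1 ≤ i - 1
    · show E (if m ≤ i - 1 then x m else _) (if m + 1 ≤ i - 1 then x (m + 1) else _)
      rw [if_pos (by omega), if_pos h1]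
      exact hx.1 m (by omega)
    · by_cases h2 : m ≤ i - 1
      · have hmi : m = i - 1 := by omega
        show E (if m ≤ i - 1 then x m else _) (if m + 1 ≤ i - 1 then _ else g⁻¹ • x (m + 1 + 2))
        rw [if_pos h2, if_neg h1, hmi, ← hback]
        apply hE
        have e : i - 1 + 1 + 2 = i + 1 + 1 := by omega
        rw [e]
        exact hx.1 (i + 1) (by omega)
      · show E (if m ≤ i - 1 then _ else g⁻¹ • x (m + 2))
          (if m + 1 ≤ i - 1 then _ else g⁻¹ • x (m + 1 + 2))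
        rw [if_neg h2, if_neg h1]
        apply hE
        have e : m + 1 + 2 = m + 2 + 1 := by omega
        rw [e]
        exact hx.1 (m + 2) (by omega)
  · intro m hm
    by_cases h1 : m ≤ i - 1
    · show (if m ≤ i - 1 then x m else _) ∈ C
      rw [if_pos h1]
      exact hx.2 m (by omega)
    · show (if m ≤ i - 1 then _ else g⁻¹ • x (m + 2)) ∈ C
      rw [if_neg h1]
      exact hinv _ _ (hx.2 (m + 2) (by omega))
  · show (if 0 ≤ i - 1 then x 0 else _) = _
    rw [if_pos (Nat.zero_le _)]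
  · by_cases h1 : n - 2 ≤ i - 1
    · have e1 : n - 2 = i - 1 := by omega
      have e2 : n = i + 1 := by omega
      show (if n - 2 ≤ i - 1 then x (n - 2) else _) = _
      rw [if_pos h1, e1, e2, hback]
    · show (if n - 2 ≤ i - 1 then _ else g⁻¹ • x (n - 2 + 2)) = _
      rw [if_neg h1, Nat.sub_add_cancel (by omega)]

end

section

variable {R T : Type*} [Group R] [MulAction R T]

/-- a swap fixes a vertex modulo the group or flips an edge -/
theorem QF.fix {P : Subgroup R} [hP : P.Normal] {E : T → T → Prop} (Q : QF P E) {C : Set T}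
    (hE : ∀ (r : R) (x y : T), E x y → E (r • x) (r • y)) (hC : ∀ (r : R), ∀ z ∈ C, r • z ∈ C)
    (hc : CIn E C) (hne : C.Nonempty) {r : R} (hr : r * r ∈ P) :
    (∃ x ∈ C, ∃ p ∈ P, r • x = p • x) ∨
      ∃ x ∈ C, ∃ y ∈ C, E x y ∧ (∃ p ∈ P, r • x = p • y) ∧ ∃ p ∈ P, r • y = p • x := by
  classical
  obtain ⟨z, hz⟩ := hne
  have hex : ∃ n, ∃ x : ℕ → T, WIn E C n x ∧ ∃ p ∈ P, x n = p • r • x 0 := by
    obtain ⟨n, x, hx, x0, xn⟩ := hc z hz (r • z) (hC r z hz)
    exact ⟨n, x, hx, 1, P.one_mem, by rw [x0, xn, one_smul]⟩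
  let n := Nat.find hex
  obtain ⟨x, hx, p, hp, hxn⟩ : ∃ x : ℕ → T, WIn E C n x ∧ ∃ p ∈ P, x n = p • r • x 0 :=
    Nat.find_spec hex
  have hmin : ∀ m < n, ¬ ∃ x : ℕ → T, WIn E C m x ∧ ∃ p ∈ P, x m = p • r • x 0 :=
    fun m hm => Nat.find_min hex hm
  have hEP : ∀ (j : P) (x y : T), E x y → E (j • x) (j • y) := fun j x y h => hE j.1 x y h
  have hCP : ∀ (j : P), ∀ z ∈ C, j • z ∈ C := fun j z h => hC j.1 z h
  rcases Nat.eq_zero_or_pos n with h0 | hpos
  · left
    rw [h0] at hxn hx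
    refine ⟨x 0, hx.2 0 le_rfl, p⁻¹, P.inv_mem hp, ?_⟩
    nth_rewrite 2 [hxn]
    rw [inv_smul_smul]
  -- the doubled walk
  let y : ℕ → T := fun m => if m ≤ n then x m else p • r • x (m - n)
  have hy1 : ∀ m, m ≤ n → y m = x m := fun m hm => if_pos hm
  have hy2 : ∀ m, n ≤ m → y m = p • r • x (m - n) := by
    intro m hm
    rcases Nat.eq_or_lt_of_le hm with h | h
    · rw [hy1 m (le_of_eq h.symm), ← h, Nat.sub_self, hxn]
    · exact if_neg (by omega)
  have hyE : ∀ i < n + n, E (y i) (y (i + 1)) := by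
    intro i hi
    by_cases h : i + 1 ≤ n
    · rw [hy1 i (by omega), hy1 (i + 1) h]
      exact hx.1 i (by omega)
    · rw [hy2 i (by omega), hy2 (i + 1) (by omega)]
      apply hE
      apply hE
      have e : i + 1 - n = i - n + 1 := by omega
      rw [e]
      exact hx.1 (i - n) (by omega)
  have hyend : ∃ j : P, y (n + n) = j • y 0 := by
    refine ⟨⟨p * (r * p * r⁻¹) * (r * r), P.mul_mem (P.mul_mem hp (hP.conj_mem p hp r)) hr⟩, ?_⟩
    rw [hy2 (n + n) (by omega), Nat.add_sub_cancel, hxn, hy1 0 (Nat.zero_le _)]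
    show p • r • p • r • x 0 = (p * (r * p * r⁻¹) * (r * r)) • x 0
    rw [smul_smul, smul_smul, smul_smul]
    congr 1
    group
  obtain ⟨i, i1, i2, g, g1, g2⟩ := Q.back (n + n) y hyE (by omega) hyend
  rcases lt_trichotomy i n with hin | hin | hin
  · exfalso
    have g2' : g • x (i - 1) = x (i + 1) := by
      rw [← hy1 (i - 1) (by omega), ← hy1 (i + 1) (by omega)]
      exact g2
    obtain ⟨w, w1, w2, w3⟩ := hx.shorten hEP hCP i1 hin g2'
    refine hmin (n - 2) (by omega) ⟨w, w1, g.1⁻¹ * p, P.mul_mem (P.inv_mem g.2) hp, ?_⟩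
    rw [w3, w2, hxn, mul_smul]
    rfl
  · subst hin
    have g2' : g.1 • x (n - 1) = p • r • x 1 := by
      have h1 : y (n - 1) = x (n - 1) := hy1 _ (by omega)
      have h2 : y (n + 1) = p • r • x 1 := by
        rw [hy2 (n + 1) (by omega), Nat.add_sub_cancel_left]
      rw [← h1, ← h2]
      exact g2
    rcases Nat.eq_or_lt_of_le hpos with h1 | h1
    · right
      have h1 : n = 1 := h1.symm
      rw [h1] at hxn g2' hx
      refine ⟨x 0, hx.2 0 (by omega), x 1, hx.2 1 (by omega), hx.1 0 (by omega),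
        ⟨p⁻¹, P.inv_mem hp, ?_⟩, ⟨p⁻¹ * g.1, P.mul_mem (P.inv_mem hp) g.2, ?_⟩⟩
      · rw [hxn, inv_smul_smul]
      · rw [mul_smul]
        have g2'' : g.1 • x 0 = p • r • x 1 := g2'
        rw [g2'', inv_smul_smul]
    · exfalso
      refine hmin (n - 2) (by omega) ⟨fun m => x (m + 1), ⟨?_, ?_⟩, g.1⁻¹ * p,
        P.mul_mem (P.inv_mem g.2) hp, ?_⟩
      · intro m hm
        exact hx.1 (m + 1) (by omega)
      · intro m hm
        exact hx.2 (m + 1) (by omega)
      · show x (n - 2 + 1) = (g.1⁻¹ * p) • r • x (0 + 1)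
        have e : n - 2 + 1 = n - 1 := by omega
        rw [e, mul_smul, zero_add, ← g2', inv_smul_smul]
  · exfalso
    have hi' : i - n < n := by omega
    let k : R := (p * r)⁻¹ * g.1 * (p * r)
    have hk : k ∈ P := by
      have := hP.conj_mem g.1 g.2 (p * r)⁻¹
      rwa [inv_inv] at this
    have g2' : k • x (i - n - 1) = x (i - n + 1) := by
      have h1 : y (i - 1) = p • r • x (i - n - 1) := by
        rw [hy2 (i - 1) (by omega)]
        congr 3
        omega
      have h2 : y (i + 1) = p • r • x (i - n + 1) := by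
        rw [hy2 (i + 1) (by omega)]
        congr 3
        omega
      have h3 : g.1 • (p • r • x (i - n - 1)) = p • r • x (i - n + 1) := by
        rw [← h1, ← h2]
        exact g2
      show ((p * r)⁻¹ * g.1 * (p * r)) • x (i - n - 1) = x (i - n + 1)
      rw [mul_smul, mul_smul, mul_smul, h3, ← mul_smul p r, inv_smul_smul]
    obtain ⟨w, w1, w2, w3⟩ := hx.shorten (J := P) hEP hCP (by omega) hi' (g := ⟨k, hk⟩) g2'
    refine hmin (n - 2) (by omega) ⟨w, w1, k⁻¹ * p, P.mul_mem (P.inv_mem hk) hp, ?_⟩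
    rw [w3, w2, mul_smul, ← hxn]
    rfl

/-- two fixed orbits give an edge with fixed ends -/
theorem QF.fix_edge {P : Subgroup R} [hP : P.Normal] {E : T → T → Prop} (Q : QF P E) {C : Set T}
    (hE : ∀ (r : R) (x y : T), E x y → E (r • x) (r • y)) (hC : ∀ (r : R), ∀ z ∈ C, r • z ∈ C)
    (hc : CIn E C) {r : R} {a b : T} (ha : a ∈ C) (hb : b ∈ C)
    (fa : ∃ p ∈ P, r • a = p • a) (fb : ∃ p ∈ P, r • b = p • b) (hab : ∀ p ∈ P, b ≠ p • a) :
    ∃ x ∈ C, ∃ y ∈ C, E x y ∧ (∃ p ∈ P, r • x = p • x) ∧ (∃ p ∈ P, r • y = p • y) := by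
  classical
  have hex : ∃ n, ∃ x : ℕ → T, WIn E C n x ∧ x 0 = a ∧ ∃ q ∈ P, x n = q • b := by
    obtain ⟨n, x, hx, x0, xn⟩ := hc a ha b hb
    exact ⟨n, x, hx, x0, 1, P.one_mem, by rw [xn, one_smul]⟩
  let n := Nat.find hex
  obtain ⟨x, hx, x0, q, hq, hxn⟩ : ∃ x : ℕ → T, WIn E C n x ∧ x 0 = a ∧ ∃ q ∈ P, x n = q • b :=
    Nat.find_spec hex
  have hmin : ∀ m < n, ¬ ∃ x : ℕ → T, WIn E C m x ∧ x 0 = a ∧ ∃ q ∈ P, x m = q • b :=
    fun m hm => Nat.find_min hex hm
  have hEP : ∀ (j : P) (x y : T), E x y → E (j • x) (j • y) := fun j x y h => hE j.1 x y h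
  have hCP : ∀ (j : P), ∀ z ∈ C, j • z ∈ C := fun j z h => hC j.1 z h
  have hpos : 1 ≤ n := by
    rcases Nat.eq_zero_or_pos n with h0 | h
    · exfalso
      rw [h0, x0] at hxn
      exact hab q⁻¹ (P.inv_mem hq) (by rw [hxn, inv_smul_smul])
    · exact h
  obtain ⟨pa, hpa, fa⟩ := fa
  obtain ⟨pb, hpb, fb⟩ := fb
  -- `s` fixes `x n` and is `r` up to `P` on the left
  -- r • x n = t • x n with t in P
  let t : R := (r * q * r⁻¹) * pb * q⁻¹
  have ht : t ∈ P := P.mul_mem (P.mul_mem (hP.conj_mem q hq r) hpb) (P.inv_mem hq)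
  have hrx : r • x n = t • x n := by
    rw [hxn]
    show r • q • b = ((r * q * r⁻¹) * pb * q⁻¹) • q • b
    rw [smul_smul, mul_smul ((r * q * r⁻¹) * pb), inv_smul_smul, mul_smul (r * q * r⁻¹), ← fb,
      smul_smul]
    congr 1
    group
  let y : ℕ → T := fun m => if m ≤ n then x m else t⁻¹ • r • x (n + n - m)
  have hy1 : ∀ m, m ≤ n → y m = x m := fun m hm => if_pos hm
  have hy2 : ∀ m, n ≤ m → y m = t⁻¹ • r • x (n + n - m) := by
    intro m hm
    rcases Nat.eq_or_lt_of_le hm with h | h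
    · rw [hy1 m (le_of_eq h.symm), ← h, Nat.add_sub_cancel, hrx, inv_smul_smul]
    · exact if_neg (by omega)
  have hyE : ∀ i < n + n, E (y i) (y (i + 1)) := by
    intro i hi
    by_cases h : i + 1 ≤ n
    · rw [hy1 i (by omega), hy1 (i + 1) h]
      exact hx.1 i (by omega)
    · rw [hy2 i (by omega), hy2 (i + 1) (by omega)]
      apply hE
      apply hE
      have e : n + n - i = n + n - (i + 1) + 1 := by omega
      rw [e]
      exact Q.symm _ _ (hx.1 (n + n - (i + 1)) (by omega))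
  have hyend : ∃ j : P, y (n + n) = j • y 0 := by
    refine ⟨⟨t⁻¹ * pa, P.mul_mem (P.inv_mem ht) hpa⟩, ?_⟩
    rw [hy2 (n + n) (by omega), Nat.sub_self, hy1 0 (Nat.zero_le _), x0, fa]
    show t⁻¹ • pa • a = (t⁻¹ * pa) • a
    rw [mul_smul]
  obtain ⟨i, i1, i2, g, g1, g2⟩ := Q.back (n + n) y hyE (by omega) hyend
  rcases lt_trichotomy i n with hin | hin | hin
  · exfalso
    have g2' : g • x (i - 1) = x (i + 1) := by
      rw [← hy1 (i - 1) (by omega), ← hy1 (i + 1) (by omega)]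
      exact g2
    obtain ⟨w, w1, w2, w3⟩ := hx.shorten hEP hCP i1 hin g2'
    refine hmin (n - 2) (by omega) ⟨w, w1, by rw [w2, x0], g.1⁻¹ * q,
      P.mul_mem (P.inv_mem g.2) hq, ?_⟩
    rw [w3, hxn, mul_smul]
    rfl
  · have g2' : g.1 • x (n - 1) = t⁻¹ • r • x (n - 1) := by
      have h1 : y (i - 1) = x (n - 1) := by rw [hin]; exact hy1 _ (by omega)
      have h2 : y (i + 1) = t⁻¹ • r • x (n - 1) := by
        rw [hin, hy2 (n + 1) (by omega)]
        congr 3
        omega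
      rw [h1, h2] at g2
      exact g2
    refine ⟨x (n - 1), hx.2 _ (by omega), x n, hx.2 n le_rfl, ?_, ?_, ?_⟩
    · have := hx.1 (n - 1) (by omega)
      rwa [Nat.sub_add_cancel hpos] at this
    · refine ⟨t * g.1, P.mul_mem ht g.2, ?_⟩
      rw [mul_smul, g2', smul_inv_smul]
    · exact ⟨t, ht, hrx⟩
  · exfalso
    -- a backtrack in the second half
    let m := n + n - i
    have hm1 : 1 ≤ m := by show 1 ≤ n + n - i; omega
    have hm2 : m < n := by show n + n - i < n; omega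
    let k : R := (t⁻¹ * r)⁻¹ * g.1 * (t⁻¹ * r)
    have hk : k ∈ P := by
      have := hP.conj_mem g.1 g.2 (t⁻¹ * r)⁻¹
      rwa [inv_inv] at this
    have g2' : k • x (m + 1) = x (m - 1) := by
      have h1 : y (i - 1) = t⁻¹ • r • x (m + 1) := by
        rw [hy2 (i - 1) (by omega)]
        congr 3
        show n + n - (i - 1) = n + n - i + 1
        omega
      have h2 : y (i + 1) = t⁻¹ • r • x (m - 1) := by
        rw [hy2 (i + 1) (by omega)]
        congr 3
      have h3 : g.1 • (t⁻¹ • r • x (m + 1)) = t⁻¹ • r • x (m - 1) := by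
        rw [← h1, ← h2]
        exact g2
      show ((t⁻¹ * r)⁻¹ * g.1 * (t⁻¹ * r)) • x (m + 1) = x (m - 1)
      rw [mul_smul, mul_smul, mul_smul, h3, ← mul_smul t⁻¹ r, inv_smul_smul]
    have g3 : k⁻¹ • x (m - 1) = x (m + 1) := by rw [← g2', inv_smul_smul]
    obtain ⟨w, w1, w2, w3⟩ := hx.shorten (J := P) hEP hCP hm1 hm2 (g := ⟨k⁻¹, P.inv_mem hk⟩) g3
    refine hmin (n - 2) (by omega) ⟨w, w1, by rw [w2, x0], k⁻¹⁻¹ * q,
      P.mul_mem (P.inv_mem (P.inv_mem hk)) hq, ?_⟩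
    rw [w3, hxn, mul_smul]
    rfl

end

end Pool.Agent.DI
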