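import Pool.Agent.DI.QFM2
import Pool.Agent.DI.Inv

/-!
# The quotient multigraph, part 3: the involution and the quotient by the larger group

`JM.inn`: the involution (`FG.In`) of the quotient by `J` for a subgroup `J` of index two of `U`;
`JM.quoIso`: its quotient is the quotient by `U`; `JM.lef`: Lefschetz; `JM.b1_two_eq_zero`: if the
quotient by `J` is a forest then so is the quotient by `U`; the fixed nodes and lines.
-/

namespace Pool.Agent.DI

open MulAction

section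

variable {U T Ed : Type} [Group U] [MulAction U T] [MulAction U Ed] {J : Subgroup U} {b : U}
  (h2 : Two J b) (M : JM U T Ed)

/-- the involution -/
def JM.inn : (M.res h2).fg.In where
  n := M.bn h2
  l := M.bl h2
  nn := M.bn_bn h2
  ll := M.bl_bl h2
  ha := M.a_bl h2
  hb := M.b_bl h2

/-- the quotient by the involution -/
noncomputable def JM.quoIso : FG.Iso (M.inn h2).quo M.fg where
  n := Equiv.ofBijective (Quotient.lift (M.pn h2) (by
      rintro x y (h | h)
      · rw [h]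
      · exact (M.pn_eq h2 x y).2 (Or.inr h))) (by
    constructor
    · intro p q h
      obtain ⟨x, rfl⟩ := (M.inn h2).pn_surj p
      obtain ⟨y, rfl⟩ := (M.inn h2).pn_surj q
      rw [FG.In.pn_iff]
      rcases (M.pn_eq h2 x y).1 h with h | h
      · exact Or.inl h.symm
      · exact Or.inr h
    · intro q
      obtain ⟨x, rfl⟩ := M.pn_surj h2 q
      exact ⟨(M.inn h2).pn x, rfl⟩)
  l := Equiv.ofBijective (Quotient.lift (M.pl h2) (by
      rintro x y (h | h)
      · rw [h]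
      · exact (M.pl_eq h2 x y).2 (Or.inr h))) (by
    constructor
    · intro p q h
      obtain ⟨x, rfl⟩ := (M.inn h2).pl_surj p
      obtain ⟨y, rfl⟩ := (M.inn h2).pl_surj q
      rw [FG.In.pl_iff]
      rcases (M.pl_eq h2 x y).1 h with h | h
      · exact Or.inl h.symm
      · exact Or.inr h
    · intro q
      obtain ⟨x, rfl⟩ := M.pl_surj h2 q
      exact ⟨(M.inn h2).pl x, rfl⟩)
  h e := by
    obtain ⟨e, rfl⟩ := (M.inn h2).pl_surj e
    exact Or.inl ⟨M.a_pl h2 e, M.b_pl h2 e⟩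

theorem JM.quo_b1 : (M.inn h2).quo.b1 = M.fg.b1 := (M.quoIso h2).b1

theorem JM.quo_nN : (M.inn h2).quo.nN = M.fg.nN := (M.quoIso h2).nN

theorem JM.quo_nL : (M.inn h2).quo.nL = M.fg.nL := (M.quoIso h2).nL

theorem JM.quo_nC : (M.inn h2).quo.nC = M.fg.nC := (M.quoIso h2).nC

/-- Lefschetz -/
theorem JM.lef : ((M.inn h2).fix.nN : ℤ) - (M.inn h2).fix.nL =
    (M.inn h2).nF + ((M.res h2).fg.b1 - M.fg.b1) - M.fg.b1 := by
  rw [(M.inn h2).lef, M.quo_b1 h2]

theorem JM.nN_two : (M.res h2).fg.nN + (M.inn h2).fix.nN = 2 * M.fg.nN := by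
  rw [(M.inn h2).nN_quo, M.quo_nN h2]

theorem JM.nL_two : (M.res h2).fg.nL + (M.inn h2).fix.nL = 2 * M.fg.nL := by
  rw [(M.inn h2).nL_quo, M.quo_nL h2]

/-- the components of the quotient by the larger group -/
theorem JM.cn_two (h : (M.res h2).fg.Cn) : M.fg.Cn := by
  rw [M.cn_iff]
  obtain ⟨h1, h3⟩ := (M.res h2).cn_iff.1 h
  exact ⟨h1, fun x y => by
    obtain ⟨j, hj⟩ := h3 x y
    exact ⟨j.1, hj⟩⟩

/-- a fixed orbit: some element outside of `J` fixes the point -/
theorem Two.inv_fix {T : Type} [MulAction U T] (hb : b ∉ J) {x : T} :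
    h2.inv T (oq ↥J x) = oq ↥J x ↔ ∃ u : U, u ∉ J ∧ u • x = x := by
  constructor
  · intro h
    have h' : oq ↥J (b • x) = oq ↥J x := h
    obtain ⟨j, hj⟩ := oq_eq.1 h'
    have hj : x = j.1 • b • x := hj
    refine ⟨j.1 * b, fun h => hb ?_, by rw [mul_smul, ← hj]⟩
    have := J.mul_mem (J.inv_mem j.2) h
    rwa [inv_mul_cancel_left] at this
  · rintro ⟨u, hu, hx⟩
    rcases h2.all u with h | h
    · exact absurd h hu
    · have h3 : b * (b⁻¹ * u) * b⁻¹ ∈ J := h2.nor _ h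
      have h4 : b * (b⁻¹ * u) * b⁻¹ = u * b⁻¹ := by group
      rw [h4] at h3
      show oq ↥J (b • x) = oq ↥J x
      refine oq_eq.2 ⟨⟨u * b⁻¹, h3⟩, ?_⟩
      show x = (u * b⁻¹) • b • x
      rw [mul_smul, inv_smul_smul, hx]

theorem JM.bn_fix (hb : b ∉ J) {x : T} :
    M.bn h2 (oq ↥J x) = oq ↥J x ↔ ∃ u : U, u ∉ J ∧ u • x = x := h2.inv_fix hb

theorem JM.bl_fix (hb : b ∉ J) {e : Ed} :
    M.bl h2 (oq ↥J e) = oq ↥J e ↔ ∃ u : U, u ∉ J ∧ u • e = e := h2.inv_fix hb

end

end Pool.Agent.DI
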