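import Pool.Agent.DI.QK0b

/-!
# The unfolded slice as a complex with listed pentagons and squares: cells
-/

namespace Pool.Agent.DI

open MulAction
open Pool.Agent.SAF (InC orbs FinOrb oc Decomp SAn SA Conv hull dist_edge FinOrb_iff exists_next)
open Pool.Agent.BT (PX PQ JS bey exits lz lz_self lz_ne lz_symm x_next_unique)
open Pool.Agent.BT.TA

namespace SyQ

variable {H V : Type} [Group H] [MulAction H V] (S : SyQ H V)

/-- a translate of a pentagon -/
def tr (h : H) (i : S.K.I) (k : Fin 5) : V := h • S.P.pt i k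

/-- a translate of a square -/
def tq (h : H) (i : S.K.I) (k : Fin 4) : V := h • S.P.qt i k

theorem tr_E (h : H) {i : S.K.I} (hi : ¬ S.P.sq i) (k : Fin 5) :
    S.K.E (S.tr h i k) (S.tr h i (k + 1)) := S.K.E_smul h (S.P.E5 hi k)

theorem tq_E (h : H) {i : S.K.I} (hi : S.P.sq i) (k : Fin 4) :
    S.K.E (S.tq h i k) (S.tq h i (k + 1)) := S.K.E_smul h (S.P.E4 hi k)

theorem isC_smul (g h : H) (i : S.K.I) (w : S.X) :
    S.IsC (S.tr (g * h) i) (g • w) ↔ S.IsC (S.tr h i) w := by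
  have e : ∀ k, g • w ∈ S.J (S.tr (g * h) i k) ↔ w ∈ S.J (S.tr h i k) := by
    intro k
    show g • w ∈ S.J ((g * h) • S.P.pt i k) ↔ _
    rw [mul_smul]
    exact S.mem_smul_iff g _ w
  exact forall_congr' fun k => or_congr (e k) (e (k + 1))

theorem rho_eq_iff {w : S.X} {a b : V} : S.rho w a = S.rho w b ↔
    a = b ∨ (w ∉ S.J a ∧ w ∉ S.J b ∧ S.dir w a = S.dir w b) := by
  constructor
  · intro h
    by_cases ha : w ∈ S.J a
    · by_cases hb : w ∈ S.J b
      · rw [S.rho_near ha, S.rho_near hb] at h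
        exact Or.inl (congrArg Subtype.val (Sum.inl.inj h))
      · rw [S.rho_near ha, S.rho_far hb] at h
        cases h
    · by_cases hb : w ∈ S.J b
      · rw [S.rho_far ha, S.rho_near hb] at h
        cases h
      · rw [S.rho_far ha, S.rho_far hb] at h
        exact Or.inr ⟨ha, hb, congrArg Subtype.val (Sum.inr.inj h)⟩
  · rintro (rfl | ⟨ha, hb, h⟩)
    · rfl
    · rw [S.rho_far ha, S.rho_far hb]
      exact congrArg Sum.inr (Subtype.ext h)

theorem rho_eq_smul (h : H) {w : S.X} {a b : V} (e : S.rho (h • w) (h • a) = S.rho (h • w) (h • b)) :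
    S.rho w a = S.rho w b := by
  rw [S.rho_eq_iff] at e ⊢
  rcases e with e | ⟨ha, hb, e⟩
  · exact Or.inl (smul_left_cancel h e)
  · rw [S.mem_smul_iff] at ha hb
    rw [S.dir_smul h ha, S.dir_smul h hb] at e
    exact Or.inr ⟨ha, hb, smul_left_cancel h e⟩

theorem nd_smul' (h : H) {w : S.X} {v : Fin 4 → V} (k : S.ND w v) :
    S.ND (h • w) (fun j => h • v j) :=
  ⟨fun e => k.1 (S.rho_eq_smul h e), fun e => k.2 (S.rho_eq_smul h e)⟩

/-- the pentagons with centre in the orbit of `w` -/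
def C5 (w : S.X) : Type := {i : S.K.I // ¬ S.P.sq i ∧ ∃ h : H, S.IsC (S.tr h i) w}

/-- the zero squares of pentagons at the orbit of `w` -/
def C4 (w : S.X) : Type := {p : S.K.I × Fin 5 × S.X // ¬ S.P.sq p.1 ∧ (∃ h : H, h • p.2.2 = w) ∧
  ∃ u, S.Sq p.2.2 u (S.P.pt p.1 p.2.1) (S.P.pt p.1 (p.2.1 + 1)) (S.P.pt p.1 (p.2.1 + 2))
    (S.P.pt p.1 (p.2.1 + 3)) (S.P.pt p.1 (p.2.1 + 4))}

/-- the squares at the orbit of `w` -/
def C4q (w : S.X) : Type := {p : S.K.I × S.X // S.P.sq p.1 ∧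
  ∃ h : H, h • p.2 = w ∧ S.ND w (S.tq h p.1)}

variable {S}

/-- translating element of a pentagon -/
noncomputable def C5.g {w : S.X} (i : S.C5 w) : H := i.2.2.choose

theorem C5.isC {w : S.X} (i : S.C5 w) : S.IsC (S.tr i.g i.1) w := i.2.2.choose_spec

/-- translating element of a zero square -/
noncomputable def C4.g {w : S.X} (p : S.C4 w) : H := p.2.2.1.choose

theorem C4.g_smul {w : S.X} (p : S.C4 w) : p.g • p.1.2.2 = w := p.2.2.1.choose_spec

/-- the far end of the edge -/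
noncomputable def C4.u {w : S.X} (p : S.C4 w) : S.X := p.g • p.2.2.2.choose

theorem C4.sq {w : S.X} (p : S.C4 w) : S.Sq w p.u (S.tr p.g p.1.1 p.1.2.1)
    (S.tr p.g p.1.1 (p.1.2.1 + 1)) (S.tr p.g p.1.1 (p.1.2.1 + 2)) (S.tr p.g p.1.1 (p.1.2.1 + 3))
    (S.tr p.g p.1.1 (p.1.2.1 + 4)) := by
  have h := p.2.2.2.choose_spec.smul p.g
  rw [p.g_smul] at h
  exact h

/-- translating element of a square -/
noncomputable def C4q.g {w : S.X} (p : S.C4q w) : H := p.2.2.choose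

theorem C4q.g_smul {w : S.X} (p : S.C4q w) : p.g • p.1.2 = w := p.2.2.choose_spec.1

theorem C4q.nd {w : S.X} (p : S.C4q w) : S.ND w (S.tq p.g p.1.1) := p.2.2.choose_spec.2

variable (S)

/-- the index set of the cells of the slice -/
abbrev CI (w : S.X) : Type := S.C5 w ⊕ (S.C4 w ⊕ S.C4q w)

/-- base vertices of the cells of the slice -/
noncomputable def cbS (w : S.X) : S.CI w → S.SV w
  | Sum.inl i => S.rho w (S.tr i.g i.1 0)
  | Sum.inr (Sum.inl p) => S.rho w (S.tr p.g p.1.1 p.1.2.1)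
  | Sum.inr (Sum.inr p) => S.rho w (S.tq p.g p.1.1 0)

/-- the cells of the slice -/
noncomputable def cwS (w : S.X) : S.CI w → List (S.SV w)
  | Sum.inl i => [S.rho w (S.tr i.g i.1 1), S.rho w (S.tr i.g i.1 2), S.rho w (S.tr i.g i.1 3),
      S.rho w (S.tr i.g i.1 4), S.rho w (S.tr i.g i.1 0)]
  | Sum.inr (Sum.inl p) => [S.rho w (S.tr p.g p.1.1 (p.1.2.1 + 1)),
      S.rho w (S.tr p.g p.1.1 (p.1.2.1 + 2)),
      S.rho w (S.tr p.g p.1.1 (p.1.2.1 + 3)), S.rho w (S.tr p.g p.1.1 p.1.2.1)]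
  | Sum.inr (Sum.inr p) => [S.rho w (S.tq p.g p.1.1 1), S.rho w (S.tq p.g p.1.1 2),
      S.rho w (S.tq p.g p.1.1 3), S.rho w (S.tq p.g p.1.1 0)]

theorem finC5 (w : S.X) : Finite (S.C5 w) := by
  have := S.K.finI
  unfold C5
  infer_instance

theorem finC4 (w : S.X) : Finite (S.C4 w) := by
  have := S.K.finI
  have hp : ∀ r : {i : S.K.I // ¬ S.P.sq i} × Fin 5,
      {w | ∃ u, S.Sq w u (S.P.pt r.1.1 r.2) (S.P.pt r.1.1 (r.2 + 1))
      (S.P.pt r.1.1 (r.2 + 2)) (S.P.pt r.1.1 (r.2 + 3)) (S.P.pt r.1.1 (r.2 + 4))}.Finite := by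
    rintro ⟨⟨i, hi⟩, j⟩
    have hE : ∀ j, S.K.E (S.P.pt i j) (S.P.pt i (j + 1)) := fun j => S.P.E5 hi j
    obtain ⟨a, a0, a1⟩ := S.one_ex (hE j)
    have e4 := hE (j + 4)
    rw [q41] at e4
    obtain ⟨b, b0, b1⟩ := S.one_ex e4
    apply (Pool.Agent.SAF.hull_finite S.D.tree (Set.toFinite ({a, b} : Set S.X))).subset
    rintro w ⟨u, hu, c0, c2, s1, s3, s4⟩
    exact (conv_cr S.D.tree (Pool.Agent.SAF.hull_conv S.D.tree ({a, b} : Set S.X)) hu
      (Pool.Agent.SAF.subset_hull _ (Or.inl rfl)) (Pool.Agent.SAF.subset_hull _ (Or.inr rfl))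
      (s1 a1) (s4 b0)).1
  have hset : {p : S.K.I × Fin 5 × S.X | ¬ S.P.sq p.1 ∧ ∃ u,
      S.Sq p.2.2 u (S.P.pt p.1 p.2.1) (S.P.pt p.1 (p.2.1 + 1)) (S.P.pt p.1 (p.2.1 + 2))
      (S.P.pt p.1 (p.2.1 + 3)) (S.P.pt p.1 (p.2.1 + 4))}.Finite := by
    have hu : (⋃ r : {i : S.K.I // ¬ S.P.sq i} × Fin 5, (fun w => (r.1.1, r.2, w)) ''
        {w | ∃ u, S.Sq w u (S.P.pt r.1.1 r.2) (S.P.pt r.1.1 (r.2 + 1))
        (S.P.pt r.1.1 (r.2 + 2)) (S.P.pt r.1.1 (r.2 + 3)) (S.P.pt r.1.1 (r.2 + 4))}).Finite :=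
      Set.finite_iUnion fun r => (hp r).image _
    apply hu.subset
    rintro ⟨i, j, w⟩ ⟨hi, h⟩
    exact Set.mem_iUnion.2 ⟨(⟨i, hi⟩, j), w, h, rfl⟩
  exact Set.Finite.to_subtype (hset.subset fun p hp => ⟨hp.1, hp.2.2⟩)

theorem finC4q (w : S.X) : Finite (S.C4q w) := by
  have := S.K.finI
  have hset : {p : S.K.I × S.X | S.P.sq p.1 ∧ S.ND p.2 (S.P.qt p.1)}.Finite := by
    have hu : (⋃ i : {i : S.K.I // S.P.sq i}, (fun w => (i.1, w)) ''
        {w | S.ND w (S.P.qt i.1)}).Finite :=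
      Set.finite_iUnion fun i => (S.nd_fin (fun k => S.P.E4 i.2 k)).image _
    apply hu.subset
    rintro ⟨i, w⟩ ⟨hi, h⟩
    exact Set.mem_iUnion.2 ⟨⟨i, hi⟩, w, h, rfl⟩
  apply Set.Finite.to_subtype
  apply hset.subset
  rintro ⟨i, w'⟩ ⟨hi, h, hw, hn⟩
  refine ⟨hi, ?_⟩
  have h1 := S.nd_smul' h⁻¹ hn
  have e1 : h⁻¹ • w = w' := by
    rw [← hw]
    exact inv_smul_smul h w'
  rw [e1] at h1
  have e2 : (fun j => h⁻¹ • S.tq h i j) = S.P.qt i := by
    funext j
    exact inv_smul_smul h _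
  rw [e2] at h1
  exact h1

/-! ### finiteness -/

theorem finOrb_SV (w : S.X) : FinOrb ↥(stabilizer H w) (Set.univ : Set (S.SV w)) := by
  apply finOrb_sum
  · apply Pool.Agent.SAF.FinOrb.of_inj S.js.fin (fun x : S.NV w => (x.1, w)) (fun x _ => x.2)
    rintro a _ b _ ⟨h, e⟩
    have e1 : h • a.1 = b.1 := congrArg Prod.fst e
    have e2 : h • w = w := congrArg Prod.snd e
    exact ⟨⟨h, e2⟩, Subtype.ext e1⟩
  · apply Pool.Agent.SAF.FinOrb.of_inj S.D.finE (fun x : S.EV w => (w, x.1)) (fun x _ => x.2)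
    rintro a _ b _ ⟨h, e⟩
    have e1 : h • w = w := congrArg Prod.fst e
    have e2 : h • a.1 = b.1 := congrArg Prod.snd e
    exact ⟨⟨h, e1⟩, Subtype.ext e2⟩

theorem inC_SV (w : S.X) (y : S.SV w) : InC ↥(stabilizer ↥(stabilizer H w) y) := by
  obtain ⟨B, hB, hBw, hC⟩ : ∃ B : Subgroup H, (∀ h : ↥(stabilizer H w), h • y = y → h.1 ∈ B) ∧
      B ≤ stabilizer H w ∧ InC ↥B := by
    rcases y with x | u
    · refine ⟨stabilizer H x.1 ⊓ stabilizer H w, ?_, inf_le_right,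
        Pool.Agent.SAG.InC.mono inf_le_left (S.K.stab x.1)⟩
      intro h e
      exact ⟨congrArg Subtype.val (Sum.inl.inj e), h.2⟩
    · refine ⟨stabilizer H w ⊓ stabilizer H u.1, ?_, inf_le_left, S.D.edgeC w u.1 u.2⟩
      intro h e
      exact ⟨h.2, congrArg Subtype.val (Sum.inr.inj e)⟩
  have h1 : stabilizer ↥(stabilizer H w) y ≤ B.subgroupOf (stabilizer H w) := by
    intro h hh
    exact hB h hh
  have h2 : InC ↥(B.subgroupOf (stabilizer H w)) :=
    Pool.Agent.SAF.InC.iso (Subgroup.subgroupOfEquivOfLe hBw).symm hC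
  exact Pool.Agent.SAG.InC.mono h1 h2

variable {S}

theorem Conn.near (hc : S.Conn) (w : S.X) : ∃ x, w ∈ S.J x := by
  obtain ⟨x0⟩ := S.K.ne
  obtain ⟨y, hy⟩ := S.js.ne x0
  by_cases h : w = y
  · exact ⟨x0, by rw [h]; exact hy⟩
  · obtain ⟨u, hu, -⟩ := exists_next S.D.tree h
    obtain ⟨x, hx⟩ := hc.crossed w u hu
    exact ⟨x, hx.1⟩

theorem SAr.two {w : S.X} (v a b c : S.SV w) (ha : S.SAr w v a) (hb : S.SAr w v b)
    (hc : S.SAr w v c) : a = b ∨ b = c ∨ a = c := by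
  -- arrows are exits
  have key : ∀ (x : S.NV w) (a : S.SV w), S.SAr w (Sum.inl x) a →
      (Sum.map Subtype.val Subtype.val a : V ⊕ S.X) ∈ exits S.P.pq S.D.G S.J x.1 w := by
    intro x a h
    cases h with
    | hor _ a e => exact Or.inl ⟨a.1, rfl, e, a.2⟩
    | up _ u e => exact Or.inr ⟨u.1, rfl, u.2, e⟩
  have inj : Function.Injective (Sum.map Subtype.val Subtype.val : S.SV w → V ⊕ S.X) :=
    Function.Injective.sumMap Subtype.val_injective Subtype.val_injective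
  rcases v with x | u
  · rcases S.js.two x.1 w x.2 _ (key x a ha) _ (key x b hb) _ (key x c hc) with h | h | h
    · exact Or.inl (inj h)
    · exact Or.inr (Or.inr (inj h))
    · exact Or.inr (Or.inl (inj h))
  · cases ha

/-- constant along the walls -/
theorem wall_const {w : S.X} {φ : S.SV w → S.SV w → ZMod 2} (hs : ∀ x y, φ x y = φ y x)
    {g : V → ZMod 2} (hg : ∀ x y, S.K.E x y → lz φ (S.rho w x) (S.rho w y) = g x + g y)
    {u : S.X} (hu : S.D.G.Adj w u) {x z : V} (h : S.PW w u x z) :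
    g x + φ (S.rho w x) (Sum.inr ⟨u, hu⟩) = g z + φ (S.rho w z) (Sum.inr ⟨u, hu⟩) := by
  obtain ⟨-, cx, cz, q, h4 | h4⟩ := h
  · -- `q` beyond
    have rq := S.rho_bey hu h4.1
    have e1 := hg x q h4.E1
    have e2 := hg q z h4.E2
    rw [S.lz_near h4.E1 (Or.inl cx.1), rq] at e1
    rw [S.lz_near h4.E2 (Or.inr cz.1), rq, hs] at e2
    rw [e1, e2]
    have k1 := zz2 (g x)
    have k2 := zz2 (g z)
    linear_combination k1 - k2
  · obtain ⟨-, ⟨y, z', hp, a2, a3⟩ | ⟨y, hp, a2⟩⟩ := h4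
    · -- `y` and `z'` beyond
      have ry := S.rho_bey hu a2
      have rz := S.rho_bey hu a3
      have e3 := hg z y hp.E3
      have e4 := hg y z' hp.E4
      have e5 := hg z' x hp.E5
      rw [S.lz_near hp.E3 (Or.inl cz.1), ry] at e3
      rw [ry, rz, lz_self] at e4
      rw [S.lz_near hp.E5 (Or.inr cx.1), rz, hs] at e5
      rw [e3, e5]
      have k1 := zz2 (g x)
      have k2 := zz2 (g z)
      have k3 := zz2 (g y)
      linear_combination k1 - k2 - e4 - k3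
    · -- `y` beyond
      have ry := S.rho_bey hu a2
      have e3 := hg z y hp.E3
      have e5 := hg y x hp.E4
      rw [S.lz_near hp.E3 (Or.inl cz.1), ry] at e3
      rw [S.lz_near hp.E4 (Or.inr cx.1), ry, hs] at e5
      rw [e3, e5]
      have k1 := zz2 (g x)
      have k2 := zz2 (g z)
      linear_combination k1 - k2

theorem wall_const' (hc : S.Conn) {w : S.X} {φ : S.SV w → S.SV w → ZMod 2}
    (hs : ∀ x y, φ x y = φ y x)
    {g : V → ZMod 2} (hg : ∀ x y, S.K.E x y → lz φ (S.rho w x) (S.rho w y) = g x + g y)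
    {u : S.X} (hu : S.D.G.Adj w u) {x z : V} (hx : S.Cs w u x) (hz : S.Cs w u z) :
    g x + φ (S.rho w x) (Sum.inr ⟨u, hu⟩) = g z + φ (S.rho w z) (Sum.inr ⟨u, hu⟩) := by
  have h := hc.wall w u hu x z hx hz
  induction h with
  | rel x y h => exact wall_const hs hg hu h
  | refl x => rfl
  | symm x y h ih => exact (ih hz hx).symm
  | trans x y z h h' ih1 ih2 =>
    have hy : S.Cs w u y := by
      have : ∀ a b, Relation.EqvGen (S.PW w u) a b → (S.Cs w u a ↔ S.Cs w u b) := by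
        intro a b k
        induction k with
        | rel a b k => exact ⟨fun _ => k.r, fun _ => k.l⟩
        | refl a => exact Iff.rfl
        | symm a b _ ih => exact ih.symm
        | trans a b c _ _ i1 i2 => exact i1.trans i2
      exact (this _ _ h).1 hx
    exact (ih1 hx hy).trans (ih2 hy hz)

end SyQ

end Pool.Agent.DI
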