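import Pool.Agent.DI.QTrkA
import Pool.Agent.DI.TrkB

/-!
# Theorem A for tracks, part 2: the new tree
-/

namespace Pool.Agent.DI

open MulAction
open Pool.Agent.SAF (InC orbs FinOrb oc Decomp SAn SA Conv hull dist_edge FinOrb_iff exists_next
  isTree_of_cut conv_of_rtg)
open Pool.Agent.BT (PX PQ JS bey exits dist_cross)
open Pool.Agent.BT.TA

namespace SyQ

variable {H V : Type} [Group H] [MulAction H V] {S : SyQ H V}

/-- the local potential -/
theorem exists_loc {w w' : S.X} {C : V → Prop} (hC : S.Cl w w' C) :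
    ∃ G : V → S.X → ZMod 2, (∀ v x z, S.SR v x z → G x v = G z v) ∧
      ∀ x v v', v ∈ S.J x → v' ∈ S.J x → S.D.G.Adj v v' →
        (G x v ≠ G x v' ↔ (C x ∧ ((v = w ∧ v' = w') ∨ (v = w' ∧ v' = w)))) := by
  obtain ⟨g, hg⟩ := exists_pot hC
  have hz : ∀ a b : ZMod 2, a + b = 0 → a = b := by decide
  refine ⟨fun x v => g x + ci C x * S.sd w w' v, ?_, ?_⟩
  · intro v x z k
    apply hz
    show g x + ci C x * S.sd w w' v + (g z + ci C z * S.sd w w' v) = 0
    rcases k with ⟨e, h1, h2⟩ | ⟨v', k⟩
    · have e1 := hg x z e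
      unfold ph at e1
      rw [S.sp_eq w w' e h1 h2] at e1
      have k1 := zz2 ((ci C x + ci C z) * S.sd w w' v)
      linear_combination k1 - e1
    · obtain ⟨ha, cx, cz, q, h4⟩ := id k
      -- the neighbours on the other side
      have hE : S.K.E x q ∧ S.K.E q z ∧ ∃ y3 y5, S.K.E z y3 ∧ S.K.E y5 x ∧
          ((S.J q ⊆ bey S.D.G v v' ∧ S.J y3 ⊆ bey S.D.G v' v ∧ S.J y5 ⊆ bey S.D.G v' v) ∨
            (S.J q ⊆ bey S.D.G v' v ∧ S.J y3 ⊆ bey S.D.G v v' ∧ S.J y5 ⊆ bey S.D.G v v')) ∧
          (S.sp w w' y5 x ≠ S.sp w w' x q → S.sp w w' q z ≠ S.sp w w' z y3 →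
            S.PW w w' x z) := by
        rcases h4 with ⟨b1, ⟨y, z', hp, b2, b3⟩ | ⟨y, hp, b2⟩⟩ |
            ⟨b1, ⟨y, z', hp, b2, b3⟩ | ⟨y, hp, b2⟩⟩
        · exact ⟨hp.E1, hp.E2, y, z', hp.E3, hp.E5, Or.inl ⟨b1, b2, b3⟩,
            fun h1 h2 => pw_of_sides hC.adj hp h1 h2⟩
        · exact ⟨hp.E1, hp.E2, y, y, hp.E3, hp.E4, Or.inl ⟨b1, b2, b2⟩,
            fun h1 h2 => pw_of_sides4 hC.adj hp h1 h2⟩
        · exact ⟨hp.E1, hp.E2, y, z', hp.E3, hp.E5, Or.inr ⟨b1, b2, b3⟩,
            fun h1 h2 => pw_of_sides hC.adj hp h1 h2⟩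
        · exact ⟨hp.E1, hp.E2, y, y, hp.E3, hp.E4, Or.inr ⟨b1, b2, b2⟩,
            fun h1 h2 => pw_of_sides4 hC.adj hp h1 h2⟩
      obtain ⟨E1, E2, y3, y5, E3, E5, h4', hpw⟩ := hE
      obtain ⟨p1, p1x, p1q⟩ := S.one_ex E1
      obtain ⟨p2, p2q, p2z⟩ := S.one_ex E2
      obtain ⟨p3, p3z, p3y⟩ := S.one_ex E3
      obtain ⟨p5, p5z', p5x⟩ := S.one_ex E5
      have e1 := hg x q E1
      have e2 := hg q z E2
      unfold ph at e1 e2
      rw [S.sp_eq w w' E1 p1x p1q] at e1
      rw [S.sp_eq w w' E2 p2q p2z] at e2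
      have kq := zz2 (g q)
      -- the two common points at `q` are on the same side
      have s12 : S.sd w w' p1 = S.sd w w' p2 := by
        by_contra hne
        have cq := S.sd_ne hC.adj p1q p2q hne
        have nx : ¬ S.Cs w w' x := S.adj_nc hC.adj (Or.symm E1) cq
        have nz : ¬ S.Cs w w' z := S.adj_nc hC.adj E2 cq
        apply hne
        have a1 : S.sd w w' p1 = S.sd w w' v := by
          by_contra h
          exact nx (S.sd_ne hC.adj p1x cx.1 h)
        have a2 : S.sd w w' p2 = S.sd w w' v := by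
          by_contra h
          exact nz (S.sd_ne hC.adj p2z cz.1 h)
        exact a1.trans a2.symm
      rw [← s12] at e2
      by_cases hv : S.sd w w' v = S.sd w w' p1
      · rw [hv]
        have kx := zz2 (ci C x * S.sd w w' p1)
        have kz := zz2 (ci C z * S.sd w w' p1)
        have kqq := zz2 (ci C q * S.sd w w' p1)
        linear_combination kx + kz + kqq - e1 - e2 - kq
      · -- both cross `w w'` and the cell crosses there
        have hc : ci C x = ci C z := by
          apply ci_congr
          apply hC.cl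
          have side : ∀ {p p' : S.X} {t : V}, S.Cs v v' t → p ∈ S.J t → p' ∈ S.J t →
              ((p ∈ bey S.D.G v v' ∧ p' ∈ bey S.D.G v' v) ∨
                (p ∈ bey S.D.G v' v ∧ p' ∈ bey S.D.G v v')) →
              S.sd w w' v ≠ S.sd w w' p → S.sd w w' p' ≠ S.sd w w' p := by
            intro p p' t ct hp1 hp2 hor hne e
            -- the half tree which contains both
            have fin : ∀ Z : Set S.X, Conv S.D.G Z → p ∈ Z → p' ∈ Z → v ∈ Z := by
              intro Z hZ h1 h2
              rcases hor with ⟨a, b⟩ | ⟨a, b⟩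
              · exact (conv_cr S.D.tree hZ ha h2 h1 b a).1
              · exact (conv_cr S.D.tree hZ ha h1 h2 a b).1
            rcases S.sd_or hC.adj p with ⟨q1, q2⟩ | ⟨q1, q2⟩
            · rcases S.sd_or hC.adj p' with ⟨r1, r2⟩ | ⟨r1, r2⟩
              · have := fin _ (bey_conv S.D.tree hC.adj) q2 r2
                exact hne ((S.sd_mem this).trans q1.symm)
              · rw [r1, q1] at e
                exact absurd e (by decide)
            · rcases S.sd_or hC.adj p' with ⟨r1, r2⟩ | ⟨r1, r2⟩
              · rw [r1, q1] at e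
                exact absurd e (by decide)
              · have := fin _ (bey_conv S.D.tree hC.adj.symm) q2 r2
                exact hne ((S.sd_not this).trans q1.symm)
          have hx5 : S.sd w w' p5 ≠ S.sd w w' p1 := by
            apply side cx p1x p5x _ hv
            rcases h4' with ⟨a1, a2, a3⟩ | ⟨a1, a2, a3⟩
            · exact Or.inl ⟨a1 p1q, a3 p5z'⟩
            · exact Or.inr ⟨a1 p1q, a3 p5z'⟩
          have hz3 : S.sd w w' p3 ≠ S.sd w w' p2 := by
            apply side cz p2z p3z
            · rcases h4' with ⟨a1, a2, a3⟩ | ⟨a1, a2, a3⟩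
              · exact Or.inl ⟨a1 p2q, a2 p3y⟩
              · exact Or.inr ⟨a1 p2q, a2 p3y⟩
            · rw [← s12]
              exact hv
          apply hpw
          · rw [S.sp_eq w w' E5 p5z' p5x, S.sp_eq w w' E1 p1x p1q]
            exact hx5
          · rw [S.sp_eq w w' E2 p2q p2z, S.sp_eq w w' E3 p3z p3y]
            exact hz3.symm
        rw [hc] at e1 ⊢
        have kx := zz2 (ci C z * S.sd w w' p1)
        have kz := zz2 (ci C z * S.sd w w' v)
        have kqq := zz2 (ci C q * S.sd w w' p1)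
        linear_combination kx + kz + kqq - e1 - e2 - kq
  · intro x v v' h1 h2 h3
    by_cases hx : C x
    · have hc : ci C x = 1 := ci_mem hx
      show (g x + ci C x * S.sd w w' v ≠ g x + ci C x * S.sd w w' v' ↔ _)
      rw [hc, one_mul, one_mul]
      have hne : (g x + S.sd w w' v ≠ g x + S.sd w w' v' ↔ S.sd w w' v ≠ S.sd w w' v') := by
        constructor
        · intro h e
          exact h (by rw [e])
        · intro h e
          exact h (add_left_cancel e)
      rw [hne]
      constructor
      · intro h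
        refine ⟨hx, ?_⟩
        -- the edge `v v'` separates as `w w'`
        rcases S.sd_or hC.adj v with ⟨q1, q2⟩ | ⟨q1, q2⟩ <;>
          rcases S.sd_or hC.adj v' with ⟨r1, r2⟩ | ⟨r1, r2⟩
        · exact absurd (q1.trans r1.symm) h
        · have e1 := dist_cross S.D.tree hC.adj r2 q2
          have e2 : S.D.G.dist v' v = 1 := SimpleGraph.dist_eq_one_iff_adj.2 h3.symm
          have e3 : S.D.G.dist v' w = 0 := by omega
          have e4 : S.D.G.dist w' v = 0 := by omega
          right
          exact ⟨((S.D.tree.connected.dist_eq_zero_iff).1 e4).symm,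
            (S.D.tree.connected.dist_eq_zero_iff).1 e3⟩
        · have e1 := dist_cross S.D.tree hC.adj q2 r2
          have e2 : S.D.G.dist v v' = 1 := SimpleGraph.dist_eq_one_iff_adj.2 h3
          have e3 : S.D.G.dist v w = 0 := by omega
          have e4 : S.D.G.dist w' v' = 0 := by omega
          left
          exact ⟨(S.D.tree.connected.dist_eq_zero_iff).1 e3,
            ((S.D.tree.connected.dist_eq_zero_iff).1 e4).symm⟩
        · exact absurd (q1.trans r1.symm) h
      · rintro ⟨-, ⟨rfl, rfl⟩ | ⟨rfl, rfl⟩⟩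
        · rw [S.sd_not (bey_self hC.adj.symm), S.sd_mem (bey_self hC.adj)]
          decide
        · rw [S.sd_not (bey_self hC.adj.symm), S.sd_mem (bey_self hC.adj)]
          decide
    · have hc : ci C x = 0 := ci_not hx
      show (g x + ci C x * S.sd w w' v ≠ g x + ci C x * S.sd w w' v' ↔ _)
      rw [hc, zero_mul, zero_mul]
      constructor
      · intro h
        exact absurd rfl h
      · intro h
        exact absurd h.1 hx

end SyQ

end Pool.Agent.DI
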