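import Pool.Agent.DI.HrG

/-!
# DI/R0K: R0 for a system over a split complex

`r : S.RK hc tw Tp pt Z`: a connected placed system, the class `ClW` (DI/HrF) at all vertices of the tree,
`Z` a set of parts: every part is one piece or one direct corner, has two poles, which are joined at the
part; outside `Z` nothing is overlapped. `S.Ovl x a b p t`: `J x = {p}`, `x` has the poles `a ≠ b`, both
contain the neighbour `t` of `p`. Then no page of `x` contains `t` (`page`), no pentagon at a direct corner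
is centred beyond `(p, t)` (`dir`), `p` is an end of `J a ∩ J b` (`int`), and not the end where a common
pole of `a` and `b` (`fin`) or a vertex between them (`gam`) is.
-/

namespace Pool.Agent.DI

open MulAction
open Pool.Agent.SAF (InC orbs FinOrb oc Decomp SAn SA Conv)
open Pool.Agent.BT (PX PQ JS bey)

namespace SyQ

variable {H V : Type} [Group H] [MulAction H V]

/-- `x` is at `p`, both poles cross `(p, t)` -/
structure Ovl (S : SyQ H V) (x a b : V) (p t : S.X) : Prop where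
  J : S.J x = {p}
  adj : S.D.G.Adj p t
  xa : S.K.ar x a
  xb : S.K.ar x b
  ab : a ≠ b
  ta : t ∈ S.J a
  tb : t ∈ S.J b

/-- the hypotheses -/
structure RK (S : SyQ H V) (hc : S.Conn) (tw : V → V → Prop) (Tp : V → Prop) (pt : V → V)
    (Z : V → Prop) : Prop where
  pl : S.Plcd
  cl : ∀ w, S.ClW hc w tw Tp pt
  prt : ∀ x, Z x → S.Prt1 x
  os : ∀ x a b, Z x → S.K.ar x a → S.K.ar x b → a ≠ b → Relation.EqvGen (S.HrL x) a b
  nz : ∀ x a b p t, ¬ Z x → ¬ S.Ovl x a b p t

variable {S : SyQ H V}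

theorem Ovl.symm {x a b : V} {p t : S.X} (o : S.Ovl x a b p t) : S.Ovl x b a p t :=
  ⟨o.J, o.adj, o.xb, o.xa, o.ab.symm, o.tb, o.ta⟩

/-- both poles contain `t` -/
theorem Ovl.pole {x a b : V} {p t : S.X} (o : S.Ovl x a b p t) {c : V} (hc : S.K.ar x c) :
    t ∈ S.J c := by
  rcases out_two o.xa o.xb o.ab hc with rfl | rfl
  · exact o.ta
  · exact o.tb

namespace RK

variable {hc : S.Conn} {tw : V → V → Prop} {Tp : V → Prop} {pt : V → V} {Z : V → Prop}
  (r : S.RK hc tw Tp pt Z)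
include r

theorem Z_of {x a b : V} {p t : S.X} (o : S.Ovl x a b p t) : Z x := by
  by_contra hz
  exact r.nz _ _ _ _ _ hz o

/-- NO PAGE CROSSES -/
theorem page {x a b n : V} {p t : S.X} (o : S.Ovl x a b p t) (hn : S.K.ar n x) : t ∉ S.J n :=
  r.pl.r0_page (r.prt x (r.Z_of o)).one o.J o.adj (fun _ => o.pole)
    ((r.cl p).clo o.adj o.J ⟨a, b, o.ab, o.xa, o.xb⟩ (fun _ => o.pole)) hn

/-- NO DIRECT CORNER BEYOND -/
theorem dir {x a b y z : V} {p t c : S.X} (o : S.Ovl x a b p t) (hq : Qn S.P a x b y z)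
    (hcc : S.IsC ![a, x, b, y, z] c) : c ∉ bey S.D.G p t := by
  have hp := r.prt x (r.Z_of o)
  have hno : ∀ n, ¬ S.K.ar n x := fun n hn => hp.mix n hn a b y z o.xa o.xb hq
  exact r.pl.r0_dir hp hno o.J o.adj (fun _ => o.pole) hq hcc

/-- A PART IS AT AN END OF `J a ∩ J b` -/
theorem int {x a b : V} {p t t' : S.X} (o : S.Ovl x a b p t) (o' : S.Ovl x a b p t') : t = t' := by
  by_contra hne
  exact (r.cl p).no_int o.J o.xa o.xb o.ab (r.os _ _ _ (r.Z_of o) o.xa o.xb o.ab) o.adj o'.adj hne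
    o.ta o'.ta o.tb o'.tb (fun n hn => ⟨r.page o hn, r.page o' hn⟩)
    (fun y z c h1 h2 => ⟨r.dir o h1 h2, r.dir o' h1 h2⟩)

/-- NOT AT THE END OF THE PARTNER, DIAMOND -/
theorem fin {x a b o' : V} {p t : S.X} (o : S.Ovl x a b p t) (ho : p ∈ S.J o')
    (ao : S.K.ar a o') (bo : S.K.ar b o') : False :=
  (r.cl p).no_end o.J o.xa o.xb o.ab (r.os _ _ _ (r.Z_of o) o.xa o.xb o.ab) o.adj o.ta o.tb ho ao
    bo (fun _ hn => r.page o hn) (fun _ _ _ h1 h2 => r.dir o h1 h2)

/-- NOT AT THE END OF THE PARTNER, GAMMA -/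
theorem gam {x a b o' : V} {p t : S.X} (o : S.Ovl x a b p t) (ho : p ∈ S.J o')
    (ao : S.K.ar a o') (ob : S.K.ar o' b) : False :=
  (r.cl p).no_gam o.J o.xa o.xb o.ab (r.os _ _ _ (r.Z_of o) o.xa o.xb o.ab) o.adj o.ta o.tb ho ao
    ob (fun _ hn => r.page o hn) (fun _ _ _ h1 h2 => r.dir o h1 h2)

end RK

end SyQ

end Pool.Agent.DI
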