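import Pool.Agent.SAF.AOrb

/-!
# Graphs with a group action: the number of characters

`MG G P Q s t`: a connected graph with vertices `P`, edges `Q` (several edges between two vertices
allowed), edge `e` from `s e` to `t e`, with an action of `G` with finitely many orbits. If `X` is a
space of characters of `G` with values in `ZMod 2` whose restriction to each vertex stabiliser has
rank at most one, then `dim X ≤ S + b` where `S` is the number of orbits of vertices on whose
stabiliser some character of `X` is not trivial, and `b = #Q/G - #P/G + 1`.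

For an infinite group of dihedral type (`dim X = 2`): `s + b ≥ 2`. For a group of swaps
(`dim X = 1`): `s + b ≥ 1`.
-/

namespace Pool.Agent.DI

open MulAction
open Pool.Agent.SAF (orbs FinOrb oc)

/-- connected graphs with an action -/
structure MG (G : Type) [Group G] {V Ed : Type} [MulAction G V] [MulAction G Ed] (P : Set V)
    (Q : Set Ed) (s t : Ed → V) : Prop where
  P_smul : ∀ (g : G) x, x ∈ P → g • x ∈ P
  Q_smul : ∀ (g : G) e, e ∈ Q → g • e ∈ Q
  s_smul : ∀ (g : G) e, e ∈ Q → s (g • e) = g • s e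
  t_smul : ∀ (g : G) e, e ∈ Q → t (g • e) = g • t e
  s_mem : ∀ e ∈ Q, s e ∈ P
  t_mem : ∀ e ∈ Q, t e ∈ P
  finP : FinOrb G P
  finQ : FinOrb G Q
  ne : P.Nonempty
  conn : ∀ x ∈ P, ∀ y ∈ P, Relation.EqvGen (fun a b => ∃ e ∈ Q, s e = a ∧ t e = b) x y

section

variable {G : Type} [Group G] {V Ed : Type} [MulAction G V] [MulAction G Ed] {P : Set V}
  {Q : Set Ed} {s t : Ed → V}

/-- the representative of the orbit -/
private noncomputable def rp (G : Type) [Group G] {V : Type} [MulAction G V] (v : V) : V :=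
  Quotient.out (Quotient.mk'' v : orbitRel.Quotient G V)

private theorem rp_ex (v : V) : ∃ g : G, g • rp G v = v := by
  have h : (Quotient.mk'' v : orbitRel.Quotient G V) = Quotient.mk'' (rp G v) :=
    (Quotient.out_eq' _).symm
  exact Pool.Agent.SAF.mk_eq_iff.1 h

private theorem rp_smul (g : G) (v : V) : rp G (g • v) = rp G v := by
  unfold rp
  congr 1
  exact Pool.Agent.SAF.mk_eq_iff.2 ⟨g, rfl⟩

/-- an element which maps the representative to `v` -/
private noncomputable def gm (G : Type) [Group G] {V : Type} [MulAction G V] (v : V) : G :=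
  (rp_ex (G := G) v).choose

private theorem gm_spec (v : V) : gm G v • rp G v = v := (rp_ex (G := G) v).choose_spec

/-- the class of a vertex, with a value in a function on the classes -/
private noncomputable def hv (G : Type) [Group G] {V : Type} [MulAction G V] (P : Set V)
    (f : ↥(orbs G P) → ZMod 2) (v : V) : ZMod 2 := by
  classical
  exact if h : (Quotient.mk'' v : orbitRel.Quotient G V) ∈ orbs G P then f ⟨_, h⟩ else 0

private theorem hv_mem {f : ↥(orbs G P) → ZMod 2} {v : V} (h : v ∈ P) :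
    hv G P f v = f ⟨Quotient.mk'' v, v, h, rfl⟩ := by
  classical
  have h' : (Quotient.mk'' v : orbitRel.Quotient G V) ∈ orbs G P := ⟨v, h, rfl⟩
  unfold hv
  rw [dif_pos h']

private theorem hv_smul (f : ↥(orbs G P) → ZMod 2) (g : G) (v : V) :
    hv G P f (g • v) = hv G P f v := by
  classical
  have e : (Quotient.mk'' (g • v) : orbitRel.Quotient G V) = Quotient.mk'' v :=
    Pool.Agent.SAF.mk_eq_iff.2 ⟨g, rfl⟩
  unfold hv
  by_cases h : (Quotient.mk'' v : orbitRel.Quotient G V) ∈ orbs G P
  · rw [dif_pos h, dif_pos (by rw [e]; exact h)]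
    congr 1
    exact Subtype.ext e
  · rw [dif_neg h, dif_neg (by rw [e]; exact h)]

private theorem hv_add (f f' : ↥(orbs G P) → ZMod 2) (v : V) :
    hv G P (f + f') v = hv G P f v + hv G P f' v := by
  classical
  unfold hv
  split_ifs with h
  · rfl
  · simp

private theorem hv_smul' (c : ZMod 2) (f : ↥(orbs G P) → ZMod 2) (v : V) :
    hv G P (c • f) v = c * hv G P f v := by
  classical
  unfold hv
  split_ifs with h
  · rfl
  · simp

/-- the mirrored vertices: some character of `X` is not trivial on the stabiliser -/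
def MirX (G : Type) [Group G] {V : Type} [MulAction G V] (P : Set V)
    (X : Submodule (ZMod 2) (G → ZMod 2)) : Set V :=
  {v | v ∈ P ∧ ∃ χ ∈ X, ∃ g : G, g • v = v ∧ χ g ≠ 0}

variable {X : Submodule (ZMod 2) (G → ZMod 2)}

private theorem mir_ex (q : ↥(orbs G (MirX G P X))) (hX : ∀ χ ∈ X, ∀ g h : G, χ (g * h) = χ g + χ h) :
    ∃ g : G, g • Quotient.out q.1 = Quotient.out q.1 ∧ ∃ χ ∈ X, χ g ≠ 0 := by
  obtain ⟨q, v, ⟨-, χ, hχ, g, hg, hn⟩, rfl⟩ := q
  obtain ⟨h, hh⟩ := rp_ex (G := G) v
  refine ⟨h⁻¹ * g * h, ?_, χ, hχ, ?_⟩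
  · change (h⁻¹ * g * h) • rp G v = rp G v
    rw [mul_smul, mul_smul, hh, hg, inv_smul_eq_iff, hh]
  · have h1 : χ 1 = 0 := by
      have := hX χ hχ 1 1
      rw [mul_one] at this
      simpa using this
    have h2 : χ h⁻¹ + χ h = 0 := by rw [← hX χ hχ, inv_mul_cancel, h1]
    rw [hX χ hχ, hX χ hχ]
    have h3 : χ h⁻¹ + χ g + χ h = (χ h⁻¹ + χ h) + χ g := by ring
    rw [h3, h2, zero_add]
    exact hn

/-- The rank inequality. -/
theorem MG.rank_le (M : MG G P Q s t) (hX : ∀ χ ∈ X, ∀ g h : G, χ (g * h) = χ g + χ h)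
    [FiniteDimensional (ZMod 2) X]
    (h1 : ∀ v ∈ P, ∀ χ ∈ X, ∀ χ' ∈ X, (∃ g : G, g • v = v ∧ χ g ≠ 0) →
      (∃ g : G, g • v = v ∧ χ' g ≠ 0) → ∀ g : G, g • v = v → χ g = χ' g) :
    Module.finrank (ZMod 2) X + oc G P ≤ oc G (MirX G P X) + oc G Q + 1 := by
  classical
  have hone : ∀ χ ∈ X, χ 1 = 0 := by
    intro χ hχ
    have := hX χ hχ 1 1
    rw [mul_one] at this
    simpa using this
  have hinv : ∀ χ ∈ X, ∀ g : G, χ g⁻¹ = χ g := by
    intro χ hχ g
    have h2 : χ g⁻¹ + χ g = 0 := by rw [← hX χ hχ, inv_mul_cancel, hone χ hχ]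
    exact CharTwo.add_eq_zero.1 h2
  have finM : FinOrb G (MirX G P X) := M.finP.subset (Set.image_mono (fun v hv => hv.1))
  have fP : Finite ↥(orbs G P) := M.finP.to_subtype
  have fQ : Finite ↥(orbs G Q) := M.finQ.to_subtype
  have fM : Finite ↥(orbs G (MirX G P X)) := finM.to_subtype
  have iP : Fintype ↥(orbs G P) := Fintype.ofFinite _
  have iQ : Fintype ↥(orbs G Q) := Fintype.ofFinite _
  have iM : Fintype ↥(orbs G (MirX G P X)) := Fintype.ofFinite _
  -- chosen elements
  choose gσ hσ χσ hχσ hnσ using fun q : ↥(orbs G (MirX G P X)) => mir_ex q hX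
  -- the value of a pair at a vertex
  let F : X → (↥(orbs G P) → ZMod 2) → V → ZMod 2 := fun χ f v => χ.1 (gm G v) + hv G P f v
  let Ψ : (X × (↥(orbs G P) → ZMod 2)) →ₗ[ZMod 2]
      ((↥(orbs G (MirX G P X)) → ZMod 2) × (↥(orbs G Q) → ZMod 2)) :=
    { toFun := fun p => (fun q => p.1.1 (gσ q),
        fun q => F p.1 p.2 (s (Quotient.out q.1)) + F p.1 p.2 (t (Quotient.out q.1)))
      map_add' := by
        rintro ⟨χ, f⟩ ⟨χ', f'⟩
        apply Prod.ext
        · funext q
          rfl
        · funext q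
          simp only [F, Prod.mk_add_mk, Pi.add_apply, Submodule.coe_add, hv_add]
          ring
      map_smul' := by
        rintro c ⟨χ, f⟩
        apply Prod.ext
        · funext q
          rfl
        · funext q
          simp only [F, Prod.smul_mk, Pi.smul_apply, Submodule.coe_smul, hv_smul',
            smul_eq_mul, RingHom.id_apply]
          ring }
  -- the kernel
  have hker : LinearMap.ker Ψ ≤ Submodule.span (ZMod 2) {((0 : X), fun _ => (1 : ZMod 2))} := by
    rintro ⟨χ, f⟩ hk
    rw [LinearMap.mem_ker] at hk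
    have k1 : ∀ q, χ.1 (gσ q) = 0 := fun q => congrFun (congrArg Prod.fst hk) q
    have k2 : ∀ q : ↥(orbs G Q), F χ f (s (Quotient.out q.1)) + F χ f (t (Quotient.out q.1)) = 0 :=
      fun q => congrFun (congrArg Prod.snd hk) q
    -- `χ` is trivial on all vertex stabilisers
    have hst : ∀ v ∈ P, ∀ g : G, g • v = v → χ.1 g = 0 := by
      intro v hv g hg
      by_contra hn
      let q : ↥(orbs G (MirX G P X)) := ⟨Quotient.mk'' v, v, ⟨hv, χ.1, χ.2, g, hg, hn⟩, rfl⟩
      obtain ⟨h, hh⟩ := rp_ex (G := G) v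
      have hq : Quotient.out q.1 = rp G v := rfl
      have e1 : (h * gσ q * h⁻¹) • v = v := by
        have := hσ q
        rw [hq] at this
        have hh' : h⁻¹ • v = rp G v := by rw [inv_smul_eq_iff, hh]
        rw [mul_smul, mul_smul, hh', this, hh]
      have c1 : ∀ ψ ∈ X, ψ (h * gσ q * h⁻¹) = ψ (gσ q) := by
        intro ψ hψ
        rw [hX ψ hψ, hX ψ hψ, hinv ψ hψ]
        have h3 : ψ h + ψ (gσ q) + ψ h = (ψ h + ψ h) + ψ (gσ q) := by ring
        rw [h3, CharTwo.add_self_eq_zero, zero_add]
      have h2 := h1 v hv χ.1 χ.2 (χσ q) (hχσ q) ⟨g, hg, hn⟩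
        ⟨_, e1, by rw [c1 _ (hχσ q)]; exact hnσ q⟩ _ e1
      rw [c1 _ χ.2, c1 _ (hχσ q), k1] at h2
      exact hnσ q h2.symm
    -- equivariance of `F`
    have hF : ∀ v ∈ P, ∀ g : G, F χ f (g • v) = F χ f v + χ.1 g := by
      intro v hv g
      have e1 : gm G (g • v) • rp G v = g • v := by
        have := gm_spec (G := G) (g • v)
        rwa [rp_smul] at this
      have e2 : (gm G (g • v))⁻¹ • g • v = rp G v := by
        rw [inv_smul_eq_iff, e1]
      have e3 : (gm G v * (gm G (g • v))⁻¹ * g) • v = v := by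
        rw [mul_smul, mul_smul, e2, gm_spec]
      have e4 := hst v hv _ e3
      rw [hX _ χ.2, hX _ χ.2, hinv _ χ.2] at e4
      change χ.1 (gm G (g • v)) + _ = χ.1 (gm G v) + _ + _
      rw [hv_smul]
      have e5 : χ.1 (gm G (g • v)) = χ.1 (gm G v) + χ.1 g := by
        have e6 : χ.1 (gm G v) + χ.1 (gm G (g • v)) + χ.1 g =
          χ.1 (gm G (g • v)) + (χ.1 (gm G v) + χ.1 g) := by ring
        rw [e6] at e4
        exact CharTwo.add_eq_zero.1 e4
      rw [e5]
      ring
    -- `F` is constant
    have hE : ∀ e ∈ Q, F χ f (s e) = F χ f (t e) := by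
      intro e he
      obtain ⟨g, hg⟩ := rp_ex (G := G) e
      have hre : rp G e ∈ Q := by
        have := M.Q_smul g⁻¹ e he
        rw [← hg, inv_smul_smul] at this
        exact this
      have k3 := k2 ⟨Quotient.mk'' e, e, he, rfl⟩
      change F χ f (s (rp G e)) + F χ f (t (rp G e)) = 0 at k3
      have k4 := CharTwo.add_eq_zero.1 k3
      rw [← hg, M.s_smul g _ hre, M.t_smul g _ hre, hF _ (M.s_mem _ hre), hF _ (M.t_mem _ hre), k4]
    have hC : ∀ x ∈ P, ∀ y ∈ P, F χ f x = F χ f y := by
      intro x hx y hy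
      have := M.conn x hx y hy
      induction this with
      | rel a b h =>
        obtain ⟨e, he, rfl, rfl⟩ := h
        exact hE e he
      | refl a => rfl
      | symm a b h ih => exact (ih hy hx).symm
      | trans a b c h1 h2 ih1 ih2 =>
        have hb : b ∈ P := by
          have key : ∀ a b, Relation.EqvGen (fun a b => ∃ e ∈ Q, s e = a ∧ t e = b) a b →
              (a ∈ P ↔ b ∈ P) := by
            intro a b h
            induction h with
            | rel a b h =>
              obtain ⟨e, he, rfl, rfl⟩ := h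
              exact ⟨fun _ => M.t_mem e he, fun _ => M.s_mem e he⟩
            | refl a => exact Iff.rfl
            | symm a b _ ih => exact ih.symm
            | trans a b c _ _ ih1 ih2 => exact ih1.trans ih2
          exact (key a b h1).1 hx
        exact (ih1 hx hb).trans (ih2 hb hy)
    have hχ0 : χ.1 = 0 := by
      funext g
      obtain ⟨x, hx⟩ := M.ne
      have e1 := hC x hx (g • x) (M.P_smul g x hx)
      rw [hF x hx g] at e1
      change χ.1 g = 0
      have : F χ f x + 0 = F χ f x + χ.1 g := by rw [add_zero]; exact e1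
      exact (add_left_cancel this).symm
    have hχ0' : χ = 0 := Subtype.ext hχ0
    obtain ⟨x0, hx0⟩ := M.ne
    rw [Submodule.mem_span_singleton]
    refine ⟨hv G P f x0, ?_⟩
    apply Prod.ext
    · change hv G P f x0 • (0 : X) = χ
      rw [smul_zero, hχ0']
    · funext q
      change hv G P f x0 • (1 : ZMod 2) = f q
      obtain ⟨q, v, hv', rfl⟩ := q
      have e1 := hC x0 hx0 v hv'
      have e2 : ∀ y, F χ f y = hv G P f y := by
        intro y
        change χ.1 (gm G y) + _ = _
        rw [hχ0]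
        change (0 : ZMod 2) + _ = _
        rw [zero_add]
      rw [e2, e2, hv_mem hv'] at e1
      rw [smul_eq_mul, mul_one, e1]
  have hk1 : Module.finrank (ZMod 2) (LinearMap.ker Ψ) ≤ 1 :=
    (Submodule.finrank_mono hker).trans (by
      refine (finrank_span_le_card (R := ZMod 2) _).trans ?_
      simp)
  have hr := LinearMap.finrank_range_add_finrank_ker Ψ
  have hr2 : Module.finrank (ZMod 2) (LinearMap.range Ψ) ≤
      Module.finrank (ZMod 2) ((↥(orbs G (MirX G P X)) → ZMod 2) × (↥(orbs G Q) → ZMod 2)) :=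
    Submodule.finrank_le _
  rw [Module.finrank_prod, Module.finrank_fintype_fun_eq_card, Module.finrank_fintype_fun_eq_card]
    at hr2
  rw [Module.finrank_prod, Module.finrank_fintype_fun_eq_card] at hr
  have c1 : Fintype.card ↥(orbs G P) = oc G P := by
    rw [← Nat.card_eq_fintype_card]; rfl
  have c2 : Fintype.card ↥(orbs G Q) = oc G Q := by
    rw [← Nat.card_eq_fintype_card]; rfl
  have c3 : Fintype.card ↥(orbs G (MirX G P X)) = oc G (MirX G P X) := by
    rw [← Nat.card_eq_fintype_card]; rfl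
  rw [c1] at hr
  rw [c2, c3] at hr2
  omega

end

end Pool.Agent.DI
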