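import Pool.Agent.DI.SfM
import Pool.Agent.DI.SfX4
import Pool.Agent.DI.FCu
import Pool.Agent.DI.SpT

/-!
# DI/SfE: the static law of exc: the fold of one thin top does not lower `exc` (owner: helper79)

`h : D.Sf P a b` (DI/SfX), `a → y`, one strand at `T → a` and at `T → b`. The map `h.M` (DI/SfM) is a neutral
fold (`FM.FlipN`, DI/FCt): `h.flip`, inputs: (`pinj`) no vertex gets one pole, (`os`) a kept corner `(x, T, b)`
with `x` in the piece of `a` of the fold.
-/

namespace Pool.Agent.DI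

open MulAction
open Pool.Agent.SAF (InC orbs FinOrb oc mk_eq_iff FinOrb_iff)

variable {H V : Type} [Group H] [MulAction H V] {K : GX H V}

namespace Sq1.Sf

variable {D : Sq1 K} {P : P45 K} {a b : V} (h : D.Sf P a b)

include h

/-- the arrows of the folded tops -/
theorem arT {g : H} {v : V} (e : K.ar (g • D.T) v) : ∃ c c', v = g • c ∧ P.Top D.T c c' D.y := by
  have e1 := K.ar_smul g⁻¹ _ _ e
  rw [inv_smul_smul] at e1
  rcases h.cls.toSqE.sides h.top e1 with e2 | e2
  · exact ⟨a, b, by rw [← e2, smul_inv_smul], h.top⟩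
  · exact ⟨b, a, by rw [← e2, smul_inv_smul], h.top.symm'⟩

theorem notO_gc {c c' : V} (t : P.Top D.T c c' D.y) (g : H) : ¬ D.toF.O (g • c) :=
  h.notO_T (by rw [K.rk_smul]; exact K.ar_rk _ _ t.2.1)

/-- THE REVERSED ARROWS -/
theorem fl_iff {k p : V} : h.M.Fl k p ↔ ∃ (g : H) (c c' : V), k = g • D.T ∧ p = g • c ∧
    P.Top D.T c c' D.y ∧ K.ar c D.y := by
  constructor
  · rintro ⟨e1, e2⟩
    have e2 : D.toF.gx.ar (D.toF.F p) (D.toF.F k) := e2
    by_cases hO : D.toF.O k
    · obtain ⟨g, rfl⟩ := hO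
      obtain ⟨c, c', rfl, t⟩ := h.arT e1
      refine ⟨g, c, c', rfl, rfl, t, ?_⟩
      rcases t.Ea with k1 | k1
      · exact k1
      · exfalso
        have k2 := h.ar_F (h.notO_gy g) (K.ar_smul g _ _ k1)
        rw [← D.sf_T g] at k2
        exact GX.not_both' e2 k2
    · exact absurd (h.ar_F hO e1) (GX.not_both' e2)
  · rintro ⟨g, c, c', rfl, rfl, t, hc⟩
    refine ⟨K.ar_smul g _ _ t.2.1, ?_⟩
    show D.toF.gx.ar (D.toF.F (g • c)) (D.toF.F (g • D.T))
    rw [D.sf_T g]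
    exact h.ar_F (h.notO_gc t g) (K.ar_smul g _ _ hc)

/-- the tops of the map -/
theorem tp_O {k : V} (hk : h.M.Tp k) : D.toF.O k := by
  obtain ⟨p, hp⟩ := hk
  obtain ⟨g, c, c', rfl, -⟩ := h.fl_iff.1 hp
  exact ⟨g, rfl⟩

/-- the walks from above through a folded top are kept -/
theorem kpT {x y z q : V} (k : Q4 P x y z q) (hO : D.toF.O y) (hx : K.ar x y) :
    h.M.Kp (P45.w4 k) := by
  by_contra hk
  have r := D.rk_O hO
  rcases h.drop4 k hk with ⟨t, -⟩ | ⟨t, o⟩ | ⟨t, o⟩ | ⟨t, o⟩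
  · exact GX.not_both' hx t.2.1
  · have r1 := D.rk_O o
    have r2 := K.ar_rk _ _ t.2.1
    omega
  · have r1 := D.rk_O o
    have r2 := h.rkp t
    omega
  · have r1 := D.rk_O o
    have r2 := K.ar_rk _ _ hx
    omega

/-- the kept walks through a folded top and a pole of it come from above -/
theorem kpT' {x y z q : V} (k : Q4 P x y z q) (hk : h.M.Kp (P45.w4 k)) (hO : D.toF.O y)
    (hz : K.ar y z) : K.ar x y := by
  rcases k.E1 with e | e
  · exact e
  · exfalso
    exact ((h.kp4 k).1 hk).2 (h.own_eq ⟨k, e, hz⟩ hO)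

/-- the kept flags along an arrow of a folded top -/
theorem kp_from {t : P.WL} (hk : h.M.Kp t) (hO : D.toF.O ((P.wfc h.ndK).y t))
    (hz : K.ar ((P.wfc h.ndK).y t) ((P.wfc h.ndK).z t)) :
    (P.wfc h.ndK).sq t → K.ar ((P.wfc h.ndK).x t) ((P.wfc h.ndK).y t) := by
  intro hs
  rcases P45.wl_cases t with ⟨f, l, rfl⟩ | ⟨x, y, z, q, l, rfl⟩
  · exact (P.wfc_sq5 _ l hs).elim
  · exact h.kpT' l hk hO hz

/-- the flags from above through a folded top are kept -/
theorem kp_of {t : P.WL} (hO : D.toF.O ((P.wfc h.ndK).y t))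
    (hx : (P.wfc h.ndK).sq t → K.ar ((P.wfc h.ndK).x t) ((P.wfc h.ndK).y t)) : h.M.Kp t := by
  rcases P45.wl_cases t with ⟨f, l, rfl⟩ | ⟨x, y, z, q, l, rfl⟩
  · exact h.kp5 l
  · exact h.kpT l hO (hx trivial)

/-- the dropped flags are walks -/
theorem nk {t : P.WL} (hk : ¬ h.M.Kp t) : ∃ x y z q, ∃ k : Q4 P x y z q, t = P45.w4 k := by
  rcases P45.wl_cases t with ⟨f, l, rfl⟩ | ⟨x, y, z, q, l, rfl⟩
  · exact absurd (h.kp5 l) hk
  · exact ⟨x, y, z, q, l, rfl⟩

/-- the dropped walks at a reversed arrow -/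
theorem drop_fl {x y z q : V} (k : Q4 P x y z q) (hk : ¬ h.M.Kp (P45.w4 k)) (hf : h.M.Fl x y) :
    P.Top x y q z ∧ D.toF.O x ∧ K.ar y z := by
  obtain ⟨g, c, c', rfl, rfl, t, hc⟩ := h.fl_iff.1 hf
  have r : K.rk (g • D.T) = K.rk D.T := K.rk_smul _ _
  rcases h.drop4 k hk with ⟨t', -⟩ | ⟨t', o⟩ | ⟨t', o⟩ | ⟨t', o⟩
  · exact absurd t'.2.1 (GX.not_both' hf.1)
  · exfalso
    have r1 := D.rk_O o
    have r2 := h.rkp t'
    omega
  · exfalso
    have r1 := D.rk_O o
    have r2 := K.ar_rk _ _ t'.2.2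
    omega
  · refine ⟨t'.symm', o, ?_⟩
    have e := (h.cls.par _ _ _ _ _ _ _ t' (t.smul g)).resolve_left (fun k => k)
    rw [e]
    exact K.ar_smul g _ _ hc

/-- the other dropped strands -/
theorem drop_os {x y z q : V} (ay : K.ar a D.y) (k : Q4 P x y z q) (hk : ¬ h.M.Kp (P45.w4 k))
    (hf : ¬ h.M.Fl x y) (hx : K.ar x y) (hz : K.ar y z) : K.ar D.y b ∧ ∃ g : H, x = g • a ∧
      y = g • D.y ∧ z = g • b ∧ q = g • D.T := by
  rcases h.drop4 k hk with ⟨t', -⟩ | ⟨t', -⟩ | ⟨t', o⟩ | ⟨t', o⟩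
  · exact absurd t'.2.1 (GX.not_both' hx)
  · exact absurd t'.2.1 (GX.not_both' hz)
  · obtain ⟨g, rfl⟩ := o
    have e := (h.cls.par _ _ _ _ _ _ _ t' (h.top.smul g)).resolve_left (fun k => k)
    subst e
    have ga := K.ar_smul g _ _ ay
    have hxa : x = g • a := by
      rcases h.cls.toSqE.sides (h.top.smul g) t'.2.2 with e | e
      · exact e
      · exfalso
        rcases h.cls.toSqE.sides (h.top.smul g) t'.2.1 with e' | e'
        · rw [e'] at hz
          exact GX.not_both' hz ga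
        · exact h.cls.nab _ _ _ _ t' (e'.trans e.symm)
    have hzb : z = g • b := by
      rcases h.cls.toSqE.sides (h.top.smul g) t'.2.1 with e' | e'
      · rw [e'] at hz
        exact absurd hz (GX.not_both' ga)
      · exact e'
    refine ⟨?_, g, hxa, rfl, hzb, rfl⟩
    rw [hzb] at hz
    exact (GX.ar_smul_iff g).1 hz
  · exfalso
    obtain ⟨g, rfl⟩ := o
    obtain ⟨c, c', rfl, t⟩ := h.arT hx
    have e := (h.cls.par _ _ _ _ _ _ _ t' (h.top.smul g)).resolve_left (fun k => k)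
    subst e
    exact hf (h.fl_iff.2 ⟨g, c, c', rfl, rfl, t, (GX.ar_smul_iff g).1 hz⟩)

/-- the dropped corners between two in-arrows -/
theorem drop_di {x y z q : V} (k : Q4 P x y z q) (hk : ¬ h.M.Kp (P45.w4 k))
    (hx : K.ar x y) : D.toF.F x = D.toF.F z ∨ ∃ g : H, y = g • D.y ∧
      ((x = g • a ∧ z = g • b) ∨ (x = g • b ∧ z = g • a)) := by
  rcases h.drop4 k hk with ⟨t', -⟩ | ⟨t', o⟩ | ⟨t', o⟩ | ⟨t', o⟩
  · exact absurd t'.2.1 (GX.not_both' hx)
  · exact Or.inl (h.own_eq t' o).symm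
  · right
    obtain ⟨g, rfl⟩ := o
    have e := (h.cls.par _ _ _ _ _ _ _ t' (h.top.smul g)).resolve_left (fun k => k)
    refine ⟨g, e, ?_⟩
    have n := h.cls.nab _ _ _ _ t'
    rcases h.cls.toSqE.sides (h.top.smul g) t'.2.1 with e1 | e1 <;>
      rcases h.cls.toSqE.sides (h.top.smul g) t'.2.2 with e2 | e2
    · exact absurd (e1.trans e2.symm) n
    · exact Or.inr ⟨e2, e1⟩
    · exact Or.inl ⟨e2, e1⟩
    · exact absurd (e1.trans e2.symm) n
  · exact Or.inl (h.own_eq t' o)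

/-- no backtracking in the fold -/
theorem nbF (t : (D.flat.P45 P).WL) :
    ((D.flat.P45 P).wfc ndF).x t ≠ ((D.flat.P45 P).wfc ndF).z t := by
  rcases P45.wl_cases t with ⟨f, l, rfl⟩ | ⟨x, y, z, q, l, rfl⟩
  · have k := (D.flat.P45 P).min_nb (D.toF.min h.min) ndF f
    rw [P45.wfc_x5, P45.wfc_z5]
    obtain ⟨e, c⟩ := f
    cases c
    · rw [P45.fc_x', P45.fc_z'] at k
      exact k
    · rw [P45.fc_x, P45.fc_z] at k
      exact k
  · exact (P45.q4_ne ndF l).1

variable (ay : K.ar a D.y) (xa : P.X D.T a = 1) (xb : P.X D.T b = 1)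
  (hp : ∀ p c d, K.ar p c → K.ar p d → D.toF.F c = D.toF.F d → c = d)
  (hos : ∃ t : P.WL, h.M.Kp t ∧ (P.wfc h.ndK).y t = D.T ∧ (P.wfc h.ndK).z t = b ∧
    D.toF.gx.IJ (D.toF.F D.T) (D.toF.F ((P.wfc h.ndK).x t)) (D.toF.F a))

omit h in
theorem x_one {c c' : V} (h : D.Sf P a b) (xa : P.X D.T a = 1) (xb : P.X D.T b = 1)
    (t : P.Top D.T c c' D.y) (g : H) : P.X (g • D.T) (g • c) = 1 := by
  rw [P45.X_smul]
  rcases h.cls.toSqE.sides h.top t.2.1 with e | e
  · rw [e, xa]
  · rw [e, xb]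

include ay xa xb hp hos

/-- THE MAP IS A NEUTRAL FOLD -/
theorem flip : h.M.FlipN where
  pinj := hp
  zex := by
    intro k p hf
    obtain ⟨g, c, c', rfl, rfl, t, hc⟩ := h.fl_iff.1 hf
    refine ⟨P45.w4 (t.1.symm.rot.smul g), ?_, rfl, rfl⟩
    rw [h.kp4]
    exact fun k => k.1 (D.sf_T g)
  zp := by
    intro e he hf
    obtain ⟨x, y, z, q, k, rfl⟩ := h.nk he
    obtain ⟨t, o, hz⟩ := h.drop_fl k he hf
    exact ⟨hz, (h.own_eq t o).symm⟩
  zu := by
    intro e e' he he' hf hx hy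
    obtain ⟨x, y, z, q, k, rfl⟩ := h.nk he
    obtain ⟨x', y', z', q', k', rfl⟩ := h.nk he'
    have hx : x = x' := hx
    have hy : y = y' := hy
    subst hx hy
    obtain ⟨t, -, -⟩ := h.drop_fl k he hf
    obtain ⟨t', -, -⟩ := h.drop_fl k' he' hf
    obtain ⟨e1, e2⟩ := h.cls.toSqE.uniq t t' (fun k => k)
    exact ⟨1, by rw [one_smul]; exact P45.w4_ext _ _ rfl rfl e2 e1⟩
  kex := by
    intro k p hf
    obtain ⟨g, c, c', rfl, rfl, t, hc⟩ := h.fl_iff.1 hf
    obtain ⟨s, h1, h2, h3⟩ := P45.x1_ex h.ndK (x_one h xa xb t g).ge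
    refine ⟨(P.wfc h.ndK).r s, ?_, ?_, h2⟩
    · apply FM.Kp.r
      exact h.kp_of (by rw [h1]; exact ⟨g, rfl⟩) (by rw [h1]; exact h3)
    · rw [FC.xr, h1]
  ku := by
    intro e e' he he' hf hx hy
    obtain ⟨g, c, c', e1, e2, t, hc⟩ := h.fl_iff.1 hf
    have key : ∀ e : P.WL, h.M.Kp e → (P.wfc h.ndK).x e = g • D.T → (P.wfc h.ndK).y e = g • c →
        ∃ s : P.WL, (P.wfc h.ndK).r s = e ∧ (P.wfc h.ndK).y s = g • D.T ∧
          (P.wfc h.ndK).z s = g • c ∧ ((P.wfc h.ndK).sq s → K.ar ((P.wfc h.ndK).x s) (g • D.T)) := by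
      intro e he e1 e2
      have e3 : (P.wfc h.ndK).r ((P.wfc h.ndK).v ((P.wfc h.ndK).r ((P.wfc h.ndK).v e))) = e :=
        (P.wfc h.ndK).r_inv e
      have e4 : (P.wfc h.ndK).y ((P.wfc h.ndK).v ((P.wfc h.ndK).r ((P.wfc h.ndK).v e))) =
          g • D.T := by
        rw [(P.wfc h.ndK).yv]
        exact e1
      have e5 : (P.wfc h.ndK).z ((P.wfc h.ndK).v ((P.wfc h.ndK).r ((P.wfc h.ndK).v e))) =
          g • c := by
        unfold FC.z
        rw [e3]
        exact e2
      refine ⟨_, e3, e4, e5, ?_⟩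
      have hk : h.M.Kp ((P.wfc h.ndK).v ((P.wfc h.ndK).r ((P.wfc h.ndK).v e))) := he.v.r.v
      have k1 := h.kp_from hk (by rw [e4]; exact ⟨g, rfl⟩)
        (by rw [e4, e5]; exact K.ar_smul g _ _ t.2.1)
      rwa [e4] at k1
    obtain ⟨s, s1, s2, s3, s4⟩ := key e he e1 e2
    obtain ⟨s', s1', s2', s3', s4'⟩ := key e' he' (hx ▸ e1) (hy ▸ e2)
    obtain ⟨l, hl⟩ := P45.x1_rel h.ndK (x_one h xa xb t g).le (K.ar_smul g _ _ t.2.1) s2 s3 s4
      s2' s3' s4'
    refine ⟨l, ?_⟩
    rw [← s1, ← s1', ← hl, (P.wfc h.ndK).r_smul]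
  nb := h.nbF
  nt := by
    intro k p hf ht
    obtain ⟨g, c, c', rfl, rfl, t, hc⟩ := h.fl_iff.1 hf
    exact h.notO_gc t g (h.tp_O ht)
  tops := by
    intro s hs ht
    obtain ⟨g0, hg0⟩ := h.tp_O ht
    -- the flag over `s`
    set e := h.M.ph s with he
    have ey : D.toF.F ((P.wfc h.ndK).y e) = ((D.flat.P45 P).wfc ndF).y s := h.M.y_ph s
    have ez : D.toF.F ((P.wfc h.ndK).z e) = ((D.flat.P45 P).wfc ndF).z s := h.M.z_ph s
    have ex : D.toF.F ((P.wfc h.ndK).x e) = ((D.flat.P45 P).wfc ndF).x s := h.M.x_ph s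
    obtain ⟨hs1, hs2⟩ := hs
    rw [← ex, ← ey] at hs1
    rw [← ey, ← ez] at hs2
    rw [hg0] at hs1 hs2
    have hke : h.M.Kp e := ⟨s, rfl⟩
    -- the last vertex is a pole
    have hz : K.ar (g0 • D.T) ((P.wfc h.ndK).z e) := by
      have k := (P.wfc h.ndK).Ez e
      rw [hg0] at k
      rcases k with k | k
      · exact k
      · exfalso
        have hO : ¬ D.toF.O ((P.wfc h.ndK).z e) := by
          intro o
          have r1 := D.rk_O o
          have r2 := K.ar_rk _ _ k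
          rw [K.rk_smul] at r2
          omega
        exact GX.not_both' (h.ar_F hO k) hs2
    obtain ⟨c, c', ec, t⟩ := h.arT hz
    have hyc : K.ar D.y c := by
      rcases t.Ea with k | k
      · exfalso
        rw [ec, D.sf_T g0] at hs2
        exact GX.not_both' (h.ar_F (h.notO_gc t g0) (K.ar_smul g0 _ _ k)) hs2
      · exact k
    have hcb : c = b := by
      rcases h.cls.toSqE.sides h.top t.2.1 with e1 | e1
      · rw [e1] at hyc
        exact absurd hyc (GX.not_both' ay)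
      · exact e1
    subst hcb
    obtain ⟨t0, k1, k2, k3, k4⟩ := hos
    have o0 : D.toF.O ((P.wfc h.ndK).y t0) := by
      rw [k2]
      exact ⟨1, (one_smul H D.T).symm⟩
    have l0 := h.kp_from k1 o0 (by rw [k2, k3]; exact h.top.2.2)
    rw [k2] at l0
    -- the flag `g0⁻¹ • e`
    have k5 : (P.wfc h.ndK).y (g0⁻¹ • e) = D.T := by
      rw [FC.y_smul, hg0, inv_smul_smul]
    have k6 : (P.wfc h.ndK).z (g0⁻¹ • e) = c := by
      rw [FC.z_smul, ec, inv_smul_smul]
    have l1 := h.kp_from (hke.smul g0⁻¹) (by rw [k5]; exact ⟨1, (one_smul H D.T).symm⟩)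
      (by rw [k5, k6]; exact h.top.2.2)
    rw [k5] at l1
    obtain ⟨l, hl⟩ := P45.x1_rel h.ndK xb.le h.top.2.2 k2 k3 l0 k5 k6 l1
    have lT : l • D.T = D.T := by
      have := congrArg (P.wfc h.ndK).y hl
      rwa [FC.y_smul, k2, k5] at this
    have lb : l • c = c := by
      have := congrArg (P.wfc h.ndK).z hl
      rwa [FC.z_smul, k3, k6] at this
    have la : l • a = a := by
      have k7 := K.ar_smul l _ _ h.top.2.1
      rw [lT] at k7
      rcases h.cls.toSqE.sides h.top k7 with e1 | e1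
      · exact e1
      · exfalso
        exact h.cls.nab _ _ _ _ h.top (smul_left_cancel l (e1.trans lb.symm))
    have lx : l • (P.wfc h.ndK).x t0 = g0⁻¹ • (P.wfc h.ndK).x e := by
      have := congrArg (P.wfc h.ndK).x hl
      rwa [FC.x_smul, FC.x_smul] at this
    refine ⟨g0 • D.y, g0 • c, g0 • a, ?_, K.ar_smul g0 _ _ hyc, K.ar_smul g0 _ _ ay, ?_, ?_, ?_,
      ?_, ?_⟩
    · exact fun k => h.notO_gy g0 (h.tp_O k)
    · -- the own corner
      exact ⟨P45.w4 (h.top.1.rot.rot.symm.smul g0), rfl, rfl, rfl⟩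
    · intro k
      exact h.notO_gc h.top g0 (h.tp_O ⟨_, k⟩)
    · show D.toF.F (g0 • D.y) = _
      rw [← ey, hg0, D.sf_T g0]
    · show D.toF.F (g0 • c) = _
      rw [← ez, ec]
    · rw [P45.wfc_IJ, ← ey, ← ex, hg0]
      have k8 := (GX.IJ.smul (g0 * l) k4).symm'
      rw [← D.toF.F_smul, ← D.toF.F_smul, ← D.toF.F_smul, mul_smul, mul_smul, mul_smul, lT, la,
        lx, smul_inv_smul] at k8
      exact k8
  ho := by
    -- the lost strands are one orbit
    by_cases hb : K.ar D.y b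
    · have h1 : oc H h.M.Os ≤ 1 := by
        have h2 : h.M.Os ⊆ {t | ∃ g : H, t = g • (P45.w4 h.top.1.rot.rot.symm : P.WL)} := by
          rintro e ⟨⟨e1, e2⟩, he, hf⟩
          obtain ⟨x, y, z, q, k, rfl⟩ := h.nk he
          obtain ⟨-, g, rfl, rfl, rfl, rfl⟩ := h.drop_os ay k he hf e1 e2
          exact ⟨g, rfl⟩
        refine (Set.ncard_le_one ((P.wfc h.ndK).fin_sub _)).2 ?_
        rintro _ ⟨e, he, rfl⟩ _ ⟨e', he', rfl⟩
        obtain ⟨g, rfl⟩ := h2 he
        obtain ⟨g', rfl⟩ := h2 he'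
        exact mk_eq_iff.2 ⟨g * g'⁻¹, by rw [mul_smul, inv_smul_smul]⟩
      have h2 : 1 ≤ oc H h.M.Xo + oc H h.M.NtT := by
        obtain ⟨s, s1, s2, s3⟩ := P45.x1_ex h.ndK xb.ge
        have hTp : h.M.Tp D.T := ⟨a, h.fl_iff.2 ⟨1, a, b, (one_smul _ _).symm, (one_smul _ _).symm,
          h.top, ay⟩⟩
        have oT : D.toF.O D.T := ⟨1, (one_smul H D.T).symm⟩
        have hsK : h.M.Kp s := h.kp_of (by rw [s1]; exact oT) (by rw [s1]; exact s3)
        have hcb : h.M.Fl D.T b → False := by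
          intro k
          have k2 := h.ar_F (D := D) (x := D.y) (h.notO_T D.rk) hb
          have k3 := D.sf_T (1 : H)
          rw [one_smul, one_smul] at k3
          rw [← k3] at k2
          exact GX.not_both' k.2 k2
        have hE := (P.wfc h.ndK).Ex s
        rw [s1] at hE
        by_cases hx : K.ar ((P.wfc h.ndK).x s) D.T
        · have : 1 ≤ oc H h.M.Xo := by
            refine one_le_oc79 (SAF.FinOrb.mono ?_ (P.wfc h.ndK).fin_pols)
              (x := NF.pol D.T b ((P.wfc h.ndK).Pc D.T ((P.wfc h.ndK).x s))) ?_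
            · rintro _ ⟨y, a, n, rfl, h1, h2, h3, h4⟩
              exact ⟨y, a, n, rfl, h2, h1, h3⟩
            · exact ⟨D.T, b, _, rfl, hx, h.top.2.2, ⟨s, rfl, s1, s2⟩, hTp, hcb⟩
          omega
        · have : 1 ≤ oc H h.M.NtT := by
            have hx' := hE.resolve_right hx
            obtain ⟨u, rfl⟩ := hsK
            have uy := h.M.y_ph u
            have uz := h.M.z_ph u
            have ux := h.M.x_ph u
            rw [s1] at uy
            rw [s2] at uz
            refine one_le_oc79 (((D.flat.P45 P).wfc ndF).fin_sub _) (x := u) ⟨⟨?_, ?_⟩, ?_, ?_⟩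
            · have hxa : (P.wfc h.ndK).x (h.M.ph u) = a := by
                rcases h.cls.toSqE.sides h.top hx' with e1 | e1
                · exact e1
                · exfalso
                  rw [e1] at ux
                  exact h.nbF u (ux.symm.trans uz)
              rw [hxa] at ux
              rw [← ux, ← uy]
              have k3 := D.sf_T (1 : H)
              rw [one_smul, one_smul] at k3
              show D.toF.gx.ar (D.toF.F a) (D.toF.F D.T)
              rw [k3]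
              exact h.ar_F (h.notO_T (K.ar_rk _ _ h.top.2.1)) ay
            · rw [← uz, ← uy]
              have k3 := D.sf_T (1 : H)
              rw [one_smul, one_smul] at k3
              show D.toF.gx.ar (D.toF.F D.T) (D.toF.F b)
              rw [k3]
              exact h.ar_F (h.notO_T D.rk) hb
            · intro k
              have k1 := k.1
              rw [s1] at k1
              exact hx k1
            · rw [s1]
              exact hTp
          omega
      omega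
    · have : h.M.Os = ∅ := by
        ext e
        refine ⟨?_, fun k => k.elim⟩
        rintro ⟨⟨e1, e2⟩, he, hf⟩
        obtain ⟨x, y, z, q, k, rfl⟩ := h.nk he
        exact hb (h.drop_os ay k he hf e1 e2).1
      rw [this, oc_empty]
      exact Nat.zero_le _
  di := by
    rintro e ⟨e1, e2⟩ he -
    obtain ⟨x, y, z, q, k, rfl⟩ := h.nk he
    rw [P45.wfc_IJ]
    show D.toF.gx.IJ (D.toF.F y) (D.toF.F x) (D.toF.F z)
    rcases h.drop_di k he e1 with e | ⟨g, rfl, e⟩
    · rw [e]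
      exact Relation.EqvGen.refl _
    · have e1 : K.ar x (g • D.y) := e1
      have e2 : K.ar z (g • D.y) := e2
      have key : D.toF.gx.IJ (D.toF.F (g • D.y)) (D.toF.F (g • a)) (D.toF.F (g • b)) := by
        have hby : K.ar b D.y := by
          rcases e with ⟨-, rfl⟩ | ⟨rfl, -⟩
          · exact (GX.ar_smul_iff g).1 e2
          · exact (GX.ar_smul_iff g).1 e1
        obtain ⟨t0, ⟨u, rfl⟩, k2, k3, k4⟩ := hos
        have uy := h.M.y_ph u
        have uz := h.M.z_ph u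
        have ux := h.M.x_ph u
        rw [k2] at uy
        rw [k3] at uz
        have k3 := D.sf_T (1 : H)
        rw [one_smul, one_smul] at k3
        have ha : D.toF.gx.ar (D.toF.F a) (D.toF.F D.T) := by
          rw [k3]
          exact h.ar_F (h.notO_T (K.ar_rk _ _ h.top.2.1)) ay
        have hb' : D.toF.gx.ar (D.toF.F b) (D.toF.F D.T) := by
          rw [k3]
          exact h.ar_F (h.notO_T (K.ar_rk _ _ h.top.2.2)) hby
        have hx' := (GX.IJ.ar k4).2 ha
        have k5 : D.toF.gx.IJ (D.toF.F D.T) (D.toF.F ((P.wfc h.ndK).x (h.M.ph u))) (D.toF.F b) := by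
          refine Relation.EqvGen.rel _ _ ⟨?_, hx', hb'⟩
          rw [← (D.flat.P45 P).wfc_Co ndF]
          exact ⟨u, ux.symm, uy.symm, uz.symm⟩
        have k6 := GX.IJ.smul g (k4.symm'.trans' k5)
        rw [← D.toF.F_smul, ← D.toF.F_smul, ← D.toF.F_smul, D.sf_T g] at k6
        exact k6
      rcases e with ⟨rfl, rfl⟩ | ⟨rfl, rfl⟩
      · exact key
      · exact key.symm'

/-- THE STATIC LAW OF `exc` -/
theorem wexc_le : P.wexc ≤ (D.flat.P45 P).wexc := by
  have k := (h.flip ay xa xb hp hos).exc_le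
  rwa [P45.wfc_exc, P45.wfc_exc] at k

end Sq1.Sf

end Pool.Agent.DI
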