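import Pool.Agent.DI.ExcW
import Pool.Agent.DI.Xt

/-!
# DI/WFc: the flag complex of the walks (owner: helper79)

`P.WL`: the flags of the pentagons and the walks `(x, y, z, q)` of the squares (every walk once).
`P.wfc nd : FC K P.WL`: the flag complex; `P.wl : FL K → P.WL` the map of the flags, onto.
The corners, the pieces and the private poles are those of `P.fc nd`, `wfc_exc : (P.wfc nd).exc = P.wexc`.
`x1_rel`: one strand at an arrow `T → a`: the flags along the arrow are one orbit.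
-/

namespace Pool.Agent.DI

open MulAction
open Pool.Agent.SAF (InC orbs FinOrb oc mk_eq_iff FinOrb_iff)

/-- the members of one orbit -/
theorem oc_one_rel {G Y : Type} [Group G] [MulAction G Y] {s : Set Y} (hf : FinOrb G s)
    (h : oc G s ≤ 1) {x y : Y} (hx : x ∈ s) (hy : y ∈ s) : ∃ g : G, g • x = y := by
  have h1 := (Set.ncard_le_one hf).1 h _ ⟨y, hy, rfl⟩ _ ⟨x, hx, rfl⟩
  exact mk_eq_iff.1 h1

/-- a set with a member has an orbit -/
theorem one_le_oc79 {G Y : Type} [Group G] [MulAction G Y] {s : Set Y} (hf : FinOrb G s) {x : Y}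
    (hx : x ∈ s) : 1 ≤ oc G s := by
  have h : 1 ≤ oc G s ↔ (orbs G s).Nonempty := Set.ncard_pos hf
  exact h.2 ⟨_, x, hx, rfl⟩

namespace P45

variable {H V : Type} [Group H] [MulAction H V] {K : GX H V} (P : P45 K)

/-- THE FLAGS OF THE PENTAGONS AND THE WALKS OF THE SQUARES -/
def WL : Type := {f : FL K // ¬ P.sq f.1.1.1} ⊕ {t : V × V × V × V // Q4 P t.1 t.2.1 t.2.2.1 t.2.2.2}

/-- a flag of a pentagon -/
def w5 (f : FL K) (h : ¬ P.sq f.1.1.1) : P.WL := Sum.inl ⟨f, h⟩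

variable {P} in
/-- a walk of a square -/
def w4 {x y z q : V} (h : Q4 P x y z q) : P.WL := Sum.inr ⟨(x, y, z, q), h⟩

instance : MulAction H P.WL where
  smul h t := match t with
    | Sum.inl f => P.w5 (h • f.1) f.2
    | Sum.inr t => w4 (t.2.smul h)
  one_smul t := by
    rcases t with ⟨f, hf⟩ | ⟨⟨x, y, z, q⟩, ht⟩
    · exact congrArg Sum.inl (Subtype.ext (one_smul H f))
    · refine congrArg Sum.inr (Subtype.ext ?_)
      show (((1 : H) • x, (1 : H) • y, (1 : H) • z, (1 : H) • q) : V × V × V × V) = _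
      rw [one_smul, one_smul, one_smul, one_smul]
  mul_smul a b t := by
    rcases t with ⟨f, hf⟩ | ⟨⟨x, y, z, q⟩, ht⟩
    · exact congrArg Sum.inl (Subtype.ext (mul_smul a b f))
    · refine congrArg Sum.inr (Subtype.ext ?_)
      show (((a * b) • x, (a * b) • y, (a * b) • z, (a * b) • q) : V × V × V × V) =
        (a • b • x, a • b • y, a • b • z, a • b • q)
      rw [mul_smul, mul_smul, mul_smul, mul_smul]

variable {P}

theorem smul_w5 (h : H) {f : FL K} (hf : ¬ P.sq f.1.1.1) : h • P.w5 f hf = P.w5 (h • f) hf := rfl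

theorem smul_w4 (h : H) {x y z q : V} (k : Q4 P x y z q) : h • w4 k = w4 (k.smul h) := rfl

theorem w4_ext {x y z q x' y' z' q' : V} (k : Q4 P x y z q) (k' : Q4 P x' y' z' q') (e1 : x = x')
    (e2 : y = y') (e3 : z = z') (e4 : q = q') : w4 k = w4 k' := by
  subst e1 e2 e3 e4
  rfl

/-- cases of the flags -/
theorem wl_cases (t : P.WL) : (∃ f, ∃ h : ¬ P.sq f.1.1.1, t = P.w5 f h) ∨
    ∃ x y z q, ∃ h : Q4 P x y z q, t = w4 h := by
  rcases t with ⟨f, hf⟩ | ⟨⟨x, y, z, q⟩, ht⟩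
  · exact Or.inl ⟨f, hf, rfl⟩
  · exact Or.inr ⟨x, y, z, q, ht, rfl⟩

/-- opposite vertices of a walk are different -/
theorem q4_ne (nd : P.ND) {a q b y : V} (h : Q4 P a q b y) : a ≠ b ∧ q ≠ y := by
  obtain ⟨g, i, j, hi, h⟩ := h
  have key : ∀ k : Fin 4, P.qt i k ≠ P.qt i (k + 2) := by
    intro k
    fin_cases k
    · exact (nd i hi).1
    · exact (nd i hi).2
    · exact (nd i hi).1.symm
    · exact (nd i hi).2.symm
  have k1 := key (j + 1)
  have e : ∀ j : Fin 4, j + 1 + 2 = j + 3 := by decide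
  rw [e] at k1
  rcases h with ⟨rfl, rfl, rfl, rfl⟩ | ⟨rfl, rfl, rfl, rfl⟩
  · exact ⟨fun e => key j (smul_left_cancel g e), fun e => k1 (smul_left_cancel g e)⟩
  · exact ⟨fun e => key j (smul_left_cancel g e).symm, fun e => k1 (smul_left_cancel g e)⟩

/-- the flag of a walk -/
theorem Q4_fl' {x y z q : V} (h : Q4 P x y z q) : ∃ f : FL K, P.sq f.1.1.1 ∧ fx f = x ∧ fy f = y ∧
    fz f = z ∧ fz (rf f) = q := by
  have key : ∀ (g : H) (i : K.I) (j : Fin 4), P.sq i → ∃ f : FL K, P.sq f.1.1.1 ∧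
      fx f = g • P.qt i j ∧ fy f = g • P.qt i (j + 1) ∧ fz f = g • P.qt i (j + 2) ∧
      fz (rf f) = g • P.qt i (j + 3) := by
    intro g i j hi
    have hl := P.len4 hi
    have h4 : j.1 < K.len i := by omega
    refine ⟨((⟨i, ⟨j.1, h4⟩⟩, g), true), hi, ?_, ?_, ?_, ?_⟩
    · exact congrArg (g • ·) (P.vx4n hi j.1 j (by omega))
    · refine congrArg (g • ·) (P.vx4n hi (j.1 + 1) (j + 1) ?_)
      fin_cases j <;> rfl
    · refine congrArg (g • ·) (P.vx4n hi (j.1 + 2) (j + 2) ?_)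
      fin_cases j <;> rfl
    · show g • K.vx i ((j.1 + 1) % K.len i + 2) = _
      rw [K.vx_modadd]
      refine congrArg (g • ·) (P.vx4n hi (j.1 + 1 + 2) (j + 3) ?_)
      fin_cases j <;> rfl
  obtain ⟨g, i, j, hi, ⟨rfl, rfl, rfl, rfl⟩ | ⟨rfl, rfl, rfl, rfl⟩⟩ := h
  · exact key g i j hi
  · obtain ⟨f, h1, h2, h3, h4, h5⟩ := key g i j hi
    refine ⟨vf f, h1, ?_, ?_, ?_, ?_⟩
    · rw [fx_vf, h4]
    · rw [fy_vf, h3]
    · rw [fz_vf, h2]
    · have e : fz (rf (vf f)) = fz (rf f) := by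
        have e1 : rf (vf f) = vf (rf (rf (rf f))) := by
          have e2 := rf_vf_rf (rf (rf (rf f)))
          rw [rf4 h1] at e2
          exact e2
        rw [e1, fz_vf, fx_rf, fy_rf]
      rw [e, h5]

variable (P)

open Classical in
/-- the map of the flags -/
noncomputable def wl (f : FL K) : P.WL :=
  if h : P.sq f.1.1.1 then w4 (fl_Q4' h) else P.w5 f h

theorem wl_sq {f : FL K} (h : P.sq f.1.1.1) : P.wl f = w4 (fl_Q4' h) := dif_pos h

theorem wl_nsq {f : FL K} (h : ¬ P.sq f.1.1.1) : P.wl f = P.w5 f h := dif_neg h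

theorem wl_smul (h : H) (f : FL K) : P.wl (h • f) = h • P.wl f := by
  by_cases k : P.sq f.1.1.1
  · have k' : P.sq (h • f).1.1.1 := k
    rw [P.wl_sq k, P.wl_sq k', smul_w4]
    exact w4_ext _ _ (fx_smul h f) (fy_smul h f) (fz_smul h f) (by rw [rf_smul, fz_smul])
  · have k' : ¬ P.sq (h • f).1.1.1 := k
    rw [P.wl_nsq k, P.wl_nsq k']
    rfl

theorem wl_surj (t : P.WL) : ∃ f, P.wl f = t := by
  rcases wl_cases t with ⟨f, h, rfl⟩ | ⟨x, y, z, q, h, rfl⟩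
  · exact ⟨f, P.wl_nsq h⟩
  · obtain ⟨f, h1, h2, h3, h4, h5⟩ := Q4_fl' h
    exact ⟨f, by rw [P.wl_sq h1]; exact w4_ext _ _ h2 h3 h4 h5⟩

/-- THE FLAG COMPLEX OF THE WALKS -/
noncomputable def wfc (nd : P.ND) : FC K P.WL where
  y := Sum.elim (fun f => fy f.1) (fun t => t.1.2.1)
  r := Sum.elim (fun f => P.w5 (rf f.1) (fun h => f.2 (sq_rf.1 h))) (fun t => w4 t.2.rot)
  v := Sum.elim (fun f => P.w5 (vf f.1) (fun h => f.2 (sq_vf.1 h))) (fun t => w4 t.2.symm)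
  sq := Sum.elim (fun _ => False) (fun _ => True)
  y_smul h t := by
    rcases t with f | t
    · exact fy_smul h f.1
    · rfl
  r_smul h t := by
    rcases t with f | t
    · exact congrArg Sum.inl (Subtype.ext (rf_smul h f.1))
    · rfl
  v_smul h t := by
    rcases t with f | t <;> rfl
  sq_smul h t := by
    rcases t with f | t <;> exact Iff.rfl
  vv t := by
    rcases t with f | t
    · exact congrArg Sum.inl (Subtype.ext (vf_vf f.1))
    · rfl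
  rv t := by
    rcases t with f | t
    · exact congrArg Sum.inl (Subtype.ext (rf_vf_rf f.1))
    · rfl
  yv t := by
    rcases t with f | t <;> rfl
  E t := by
    rcases t with f | t
    · have h := (P.fc nd).E f.1
      exact h
    · exact t.2.E2
  sq_r t := by
    rcases t with f | t <;> exact Iff.rfl
  sq_v t := by
    rcases t with f | t <;> exact Iff.rfl
  r4 t h := by
    rcases t with f | t
    · exact h.elim
    · rfl
  r5 t h := by
    rcases t with f | t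
    · exact congrArg Sum.inl (Subtype.ext ((P.fc nd).r5 f.1 f.2))
    · exact (h trivial).elim
  ne t h := by
    rcases t with f | t
    · exact h.elim
    · exact (q4_ne nd t.2).2
  fin := by
    refine SAF.FinOrb.image (P.fc nd).fin P.wl ?_ ?_
    · intro t _
      obtain ⟨f, rfl⟩ := P.wl_surj t
      exact ⟨f, trivial, 1, one_smul _ _⟩
    · rintro a - _ - ⟨h, rfl⟩
      exact ⟨h, (P.wl_smul h a).symm⟩

variable (nd : P.ND)

@[simp] theorem wfc_y5 {f : FL K} (h : ¬ P.sq f.1.1.1) : (P.wfc nd).y (P.w5 f h) = fy f := rfl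

@[simp] theorem wfc_z5 {f : FL K} (h : ¬ P.sq f.1.1.1) : (P.wfc nd).z (P.w5 f h) = fz f := fy_rf f

@[simp] theorem wfc_x5 {f : FL K} (h : ¬ P.sq f.1.1.1) : (P.wfc nd).x (P.w5 f h) = fx f := by
  show fy (rf (vf f)) = fx f
  rw [fy_rf, fz_vf]

@[simp] theorem wfc_y4 {x y z q : V} (h : Q4 P x y z q) : (P.wfc nd).y (w4 h) = y := rfl

@[simp] theorem wfc_z4 {x y z q : V} (h : Q4 P x y z q) : (P.wfc nd).z (w4 h) = z := rfl

@[simp] theorem wfc_x4 {x y z q : V} (h : Q4 P x y z q) : (P.wfc nd).x (w4 h) = x := rfl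

@[simp] theorem wfc_r4 {x y z q : V} (h : Q4 P x y z q) : (P.wfc nd).r (w4 h) = w4 h.rot := rfl

@[simp] theorem wfc_v4 {x y z q : V} (h : Q4 P x y z q) : (P.wfc nd).v (w4 h) = w4 h.symm := rfl

@[simp] theorem wfc_r5 {f : FL K} (h : ¬ P.sq f.1.1.1) :
    (P.wfc nd).r (P.w5 f h) = P.w5 (rf f) (fun k => h (sq_rf.1 k)) := rfl

@[simp] theorem wfc_v5 {f : FL K} (h : ¬ P.sq f.1.1.1) :
    (P.wfc nd).v (P.w5 f h) = P.w5 (vf f) (fun k => h (sq_vf.1 k)) := rfl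

theorem wfc_sq4 {x y z q : V} (h : Q4 P x y z q) : (P.wfc nd).sq (w4 h) := trivial

theorem wfc_sq5 {f : FL K} (h : ¬ P.sq f.1.1.1) : ¬ (P.wfc nd).sq (P.w5 f h) := id

theorem wfc_y (f : FL K) : (P.wfc nd).y (P.wl f) = fy f := by
  by_cases h : P.sq f.1.1.1
  · rw [P.wl_sq h, wfc_y4]
  · rw [P.wl_nsq h, wfc_y5]

theorem wfc_z (f : FL K) : (P.wfc nd).z (P.wl f) = fz f := by
  by_cases h : P.sq f.1.1.1
  · rw [P.wl_sq h, wfc_z4]
  · rw [P.wl_nsq h, wfc_z5]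

theorem wfc_x (f : FL K) : (P.wfc nd).x (P.wl f) = fx f := by
  by_cases h : P.sq f.1.1.1
  · rw [P.wl_sq h, wfc_x4]
  · rw [P.wl_nsq h, wfc_x5]

/-- the same corners -/
theorem wfc_Co {a y b : V} : (P.wfc nd).Co a y b ↔ K.Cor a y b := by
  constructor
  · rintro ⟨t, h1, h2, h3⟩
    obtain ⟨f, rfl⟩ := P.wl_surj t
    rw [P.wfc_x nd] at h1
    rw [P.wfc_y nd] at h2
    rw [P.wfc_z nd] at h3
    rw [← h1, ← h2, ← h3]
    exact fl_cor f
  · intro h
    rw [K.cor_LE] at h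
    obtain ⟨e, ⟨h1, h2, h3⟩ | ⟨h1, h2, h3⟩⟩ := h
    · exact ⟨P.wl ((e, true) : FL K), (P.wfc_x nd _).trans h1, (P.wfc_y nd _).trans h2,
        (P.wfc_z nd _).trans h3⟩
    · exact ⟨P.wl ((e, false) : FL K), (P.wfc_x nd _).trans h3, (P.wfc_y nd _).trans h2,
        (P.wfc_z nd _).trans h1⟩

theorem wfc_IC {y a b : V} : (P.wfc nd).IC y a b ↔ K.IC y a b := by
  unfold FC.IC GX.IC
  rw [P.wfc_Co]

/-- the same pieces -/
theorem wfc_IJ {y a b : V} : (P.wfc nd).IJ y a b ↔ K.IJ y a b := by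
  unfold FC.IJ GX.IJ
  have : (P.wfc nd).IC y = K.IC y := by
    funext a b
    exact propext (P.wfc_IC nd)
  rw [this]

theorem wfc_Pc (y n : V) : (P.wfc nd).Pc y n = K.Pc y n := by
  ext m
  exact P.wfc_IJ nd

/-- the same private poles -/
theorem wfc_pols : oc H (P.wfc nd).pols = oc H K.pols := by
  let F : NF V P.WL → PN V := fun t => match t with
    | NF.inn y n => PN.inn y n
    | NF.mid _ => PN.inn K.ne.some K.ne.some
    | NF.pol y a C => PN.pol y a C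
  refine oc_bij (P.wfc nd).fin_pols K.fin_pols (P.wfc nd).pols_inv F ?_ ?_ ?_ ?_
  · rintro h _ ⟨y, a, n, rfl, -⟩
    rfl
  · rintro _ ⟨y, a, n, rfl, h1, h2, h3⟩
    refine ⟨y, a, n, ?_, h1, h2, (P.wfc_Co nd).1 h3.symm⟩
    show PN.pol y a _ = _
    rw [P.wfc_Pc]
  · rintro _ ⟨y, a, n, rfl, h1, h2, h3⟩
    refine ⟨_, ⟨y, a, n, rfl, h1, h2, ((P.wfc_Co nd).2 h3).symm⟩, ?_⟩
    show PN.pol y a _ = _
    rw [P.wfc_Pc]
  · rintro _ ⟨y, a, n, rfl, -⟩ _ ⟨y', a', n', rfl, -⟩ e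
    obtain ⟨rfl, rfl, e3⟩ := PN.pol.inj (show PN.pol y a ((P.wfc nd).Pc y n) =
      PN.pol y' a' ((P.wfc nd).Pc y' n') from e)
    rw [e3]

/-- the strands: the strands of the pentagons and the walks `n → T → a` -/
theorem wfc_strs : oc H (P.wfc nd).strs = oc H P.FS + oc H P.ZP := by
  have h1 := oc_split ((P.wfc nd).fin_sub (P.wfc nd).strs) (fun t => (P.wfc nd).sq t)
    (fun h t _ _ k => ((P.wfc nd).sq_smul h t).2 k)
  have h2 : oc H {t | t ∈ (P.wfc nd).strs ∧ (P.wfc nd).sq t} = oc H P.ZP := by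
    refine oc_bij ((P.wfc nd).fin_sub _) fin_ZP
      (fun h t k => ⟨(P.wfc nd).strs_inv h t k.1, ((P.wfc nd).sq_smul h t).2 k.2⟩)
      (Sum.elim (fun f => ((fy f.1, fy f.1), (fy f.1, fy f.1)))
        (fun t => ((t.1.2.1, t.1.2.2.1), (t.1.2.2.2, t.1.1)))) ?_ ?_ ?_ ?_
    · rintro h t ⟨-, k⟩
      rcases t with f | t
      · exact k.elim
      · rfl
    · rintro t ⟨⟨k1, k2⟩, k⟩
      rcases t with f | t
      · exact k.elim
      · exact ⟨t.2, k2, k1⟩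
    · rintro ⟨⟨T, a⟩, ⟨q, n⟩⟩ ⟨k1, k2, k3⟩
      exact ⟨w4 k1, ⟨⟨k3, k2⟩, trivial⟩, rfl⟩
    · rintro t ⟨-, k⟩ t' ⟨-, k'⟩ e
      rcases t with f | ⟨⟨x, y, z, q⟩, h⟩
      · exact k.elim
      rcases t' with f | ⟨⟨x', y', z', q'⟩, h'⟩
      · exact k'.elim
      have e : (((y, z), (q, x)) : (V × V) × (V × V)) = ((y', z'), (q', x')) := e
      obtain ⟨e1, e2⟩ := Prod.ext_iff.1 e
      obtain ⟨e3, e4⟩ := Prod.ext_iff.1 e1
      obtain ⟨e5, e6⟩ := Prod.ext_iff.1 e2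
      exact w4_ext h h' e6 e3 e4 e5
  have h3 : oc H {t | t ∈ (P.wfc nd).strs ∧ ¬ (P.wfc nd).sq t} = oc H P.FS := by
    symm
    refine oc_bij fin_FS ((P.wfc nd).fin_sub _) ?_ P.wl (fun h f _ => P.wl_smul h f) ?_ ?_ ?_
    · rintro h f ⟨⟨k1, k2⟩, k3⟩
      refine ⟨⟨k1, ?_⟩, ?_⟩
      · rw [fy_smul, fz_smul]
        exact K.ar_smul h _ _ k2
      · rw [fx_smul, fy_smul]
        exact K.ar_smul h _ _ k3
    · rintro f ⟨⟨k1, k2⟩, k3⟩
      rw [P.wl_nsq k1]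
      refine ⟨⟨?_, ?_⟩, P.wfc_sq5 nd k1⟩
      · rw [P.wfc_x5, P.wfc_y5]
        exact k3
      · rw [P.wfc_z5, P.wfc_y5]
        exact k2
    · rintro t ⟨⟨k1, k2⟩, k3⟩
      rcases wl_cases t with ⟨f, h, rfl⟩ | ⟨x, y, z, q, h, rfl⟩
      · rw [P.wfc_x5, P.wfc_y5] at k1
        rw [P.wfc_z5, P.wfc_y5] at k2
        exact ⟨f, ⟨⟨h, k2⟩, k1⟩, P.wl_nsq h⟩
      · exact (k3 trivial).elim
    · rintro f ⟨⟨k1, -⟩, -⟩ f' ⟨⟨k1', -⟩, -⟩ e
      rw [P.wl_nsq k1, P.wl_nsq k1'] at e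
      exact congrArg Subtype.val (Sum.inl.inj e)
  rw [h1, h2, h3, add_comm]

/-- THE POLE EXCESS BY WALKS -/
theorem wfc_exc : (P.wfc nd).exc = P.wexc := by
  unfold FC.exc wexc
  rw [P.wfc_strs, P.wfc_pols]
  push_cast
  ring

variable {P}

/-- ONE STRAND AT AN ARROW: the flags along the arrow are one orbit -/
theorem x1_rel {T a : V} (h1 : P.X T a ≤ 1) (ha : K.ar T a) {t t' : P.WL}
    (hy : (P.wfc nd).y t = T) (hz : (P.wfc nd).z t = a) (hx : (P.wfc nd).sq t → K.ar ((P.wfc nd).x t) T)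
    (hy' : (P.wfc nd).y t' = T) (hz' : (P.wfc nd).z t' = a)
    (hx' : (P.wfc nd).sq t' → K.ar ((P.wfc nd).x t') T) : ∃ h : H, h • t = t' := by
  rw [X_eq] at h1
  unfold Xo at h1
  have f1 : FinOrb H {f : FL K | f ∈ P.RP ∧ omk H (fy f, fz f) = omk H (T, a)} :=
    fin_RP.mono fun _ k => k.1
  have f2 : FinOrb H {p : (V × V) × (V × V) | p ∈ P.ZP ∧ omk H p.1 = omk H (T, a)} :=
    fin_ZP.mono fun _ k => k.1
  have i1 : ∀ (f : FL K) (h : ¬ P.sq f.1.1.1), fy f = T → fz f = a →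
      f ∈ {f : FL K | f ∈ P.RP ∧ omk H (fy f, fz f) = omk H (T, a)} := by
    intro f h e1 e2
    refine ⟨⟨h, ?_⟩, ?_⟩
    · rw [e1, e2]
      exact ha
    · rw [e1, e2]
  have i2 : ∀ (x y z q : V), Q4 P x y z q → y = T → z = a → K.ar x T →
      ((y, z), (q, x)) ∈ {p : (V × V) × (V × V) | p ∈ P.ZP ∧ omk H p.1 = omk H (T, a)} := by
    rintro x y z q h rfl rfl k
    exact ⟨⟨h, ha, k⟩, rfl⟩
  rcases wl_cases t with ⟨f, h, rfl⟩ | ⟨x, y, z, q, h, rfl⟩ <;>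
    rcases wl_cases t' with ⟨f', h', rfl⟩ | ⟨x', y', z', q', h', rfl⟩
  · rw [P.wfc_y5] at hy hy'
    rw [P.wfc_z5] at hz hz'
    obtain ⟨g, e⟩ := oc_one_rel f1 (by omega) (i1 f h hy hz) (i1 f' h' hy' hz')
    exact ⟨g, congrArg Sum.inl (Subtype.ext e)⟩
  · exfalso
    rw [P.wfc_y5] at hy
    rw [P.wfc_z5] at hz
    have n1 := one_le_oc79 f1 (i1 f h hy hz)
    have n2 := one_le_oc79 f2 (i2 x' y' z' q' h' hy' hz' (hx' trivial))
    omega
  · exfalso
    rw [P.wfc_y5] at hy'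
    rw [P.wfc_z5] at hz'
    have n1 := one_le_oc79 f1 (i1 f' h' hy' hz')
    have n2 := one_le_oc79 f2 (i2 x y z q h hy hz (hx trivial))
    omega
  · obtain ⟨g, e⟩ := oc_one_rel f2 (by omega) (i2 x y z q h hy hz (hx trivial))
      (i2 x' y' z' q' h' hy' hz' (hx' trivial))
    have e : (((g • y, g • z), (g • q, g • x)) : (V × V) × (V × V)) = ((y', z'), (q', x')) := e
    obtain ⟨e1, e2⟩ := Prod.ext_iff.1 e
    obtain ⟨e3, e4⟩ := Prod.ext_iff.1 e1
    obtain ⟨e5, e6⟩ := Prod.ext_iff.1 e2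
    exact ⟨g, w4_ext _ _ e6 e3 e4 e5⟩

/-- an arrow with a strand has a flag along it -/
theorem x1_ex {T a : V} (h : 1 ≤ P.X T a) : ∃ t : P.WL, (P.wfc nd).y t = T ∧ (P.wfc nd).z t = a ∧
    ((P.wfc nd).sq t → K.ar ((P.wfc nd).x t) T) := by
  rcases X_pos h with ⟨f, hf, e⟩ | ⟨q, n, hq, ha, hn⟩
  · refine ⟨P.w5 f hf.1, ?_, ?_, fun k => (P.wfc_sq5 nd hf.1 k).elim⟩
    · rw [P.wfc_y5]
      exact congrArg Prod.fst e
    · rw [P.wfc_z5]
      exact congrArg Prod.snd e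
  · have hq : Q4 P n T a q := hq
    exact ⟨w4 hq, rfl, rfl, fun _ => hn⟩

end P45

end Pool.Agent.DI
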