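import Pool.Agent.DI.SfX
import Pool.Agent.DI.SfB
import Pool.Agent.DI.WFc
import Pool.Agent.DI.FCt

/-!
# DI/SfM: the map of the walks under the static fold of one top (owner: helper79)

`h : D.Sf P a b` (DI/SfX). A kept walk of the fold has one preimage (`h.lift_uniq`: the place of the top is
the same). `h.M : FM (P.wfc nd) ((D.flat.P45 P).wfc nd')`; `h.kp5`, `h.kp4`: the kept flags; `h.drop4`:
a dropped walk passes the top and its partner or its two sides.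
-/

namespace Pool.Agent.DI

open MulAction
open Pool.Agent.SAF (InC orbs FinOrb oc mk_eq_iff FinOrb_iff)

variable {H V : Type} [Group H] [MulAction H V] {K : GX H V}

/-! ### positions -/

namespace SqF

variable {D : SqF K}

/-- the position over a position of the fold -/
noncomputable def Flat.le (hF : D.Flat) (P : Pool.Agent.DI.P45 K) (e : D.gx.LE) : K.LE :=
  (⟨e.1.1.1, ⟨e.1.2.1, (hF.len P e.1.1) ▸ e.1.2.2⟩⟩, e.2)

/-- the flag over a flag of the fold -/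
noncomputable def Flat.fl (hF : D.Flat) (P : Pool.Agent.DI.P45 K) (f : FL D.gx) : FL K :=
  (hF.le P f.1, f.2)

theorem Flat.c0 (hF : D.Flat) (P : Pool.Agent.DI.P45 K) (e : D.gx.LE) :
    D.F (K.c0 (hF.le P e)) = D.gx.c0 e := by
  show D.F (e.2 • K.vx e.1.1.1 e.1.2.1) = e.2 • D.gx.vx e.1.1 e.1.2.1
  rw [hF.vx P, D.F_smul]

theorem Flat.c1 (hF : D.Flat) (P : Pool.Agent.DI.P45 K) (e : D.gx.LE) :
    D.F (K.c1 (hF.le P e)) = D.gx.c1 e := by
  show D.F (e.2 • K.vx e.1.1.1 (e.1.2.1 + 1)) = e.2 • D.gx.vx e.1.1 (e.1.2.1 + 1)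
  rw [hF.vx P, D.F_smul]

theorem Flat.c2 (hF : D.Flat) (P : Pool.Agent.DI.P45 K) (e : D.gx.LE) :
    D.F (K.c2 (hF.le P e)) = D.gx.c2 e := by
  show D.F (e.2 • K.vx e.1.1.1 (e.1.2.1 + 2)) = e.2 • D.gx.vx e.1.1 (e.1.2.1 + 2)
  rw [hF.vx P, D.F_smul]

theorem Flat.le_nx (hF : D.Flat) (P : Pool.Agent.DI.P45 K) (e : D.gx.LE) :
    K.nx (hF.le P e) = hF.le P (D.gx.nx e) := by
  obtain ⟨⟨i, j⟩, g⟩ := e
  refine K.le_ext ?_
  exact congrArg (fun n => (j.1 + 1) % n) (hF.len P i).symm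

theorem Flat.le_pv (hF : D.Flat) (P : Pool.Agent.DI.P45 K) (e : D.gx.LE) :
    K.pv (hF.le P e) = hF.le P (D.gx.pv e) := by
  have h := hF.le_nx P (D.gx.pv e)
  rw [D.gx.nx_pv] at h
  rw [← h, K.pv_nx]

theorem Flat.le_inj (hF : D.Flat) (P : Pool.Agent.DI.P45 K) {e e' : D.gx.LE}
    (h : hF.le P e = hF.le P e') : e = e' := by
  obtain ⟨⟨i, j⟩, g⟩ := e
  obtain ⟨⟨i', j'⟩, g'⟩ := e'
  have h1 : g = g' := congrArg Prod.snd h
  have h2 : i.1 = i'.1 := congrArg (fun z : K.LE => z.1.1) h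
  have h3 : j.1 = j'.1 := congrArg (fun z : K.LE => z.1.2.1) h
  have h4 : i = i' := Subtype.ext h2
  subst h4
  subst h1
  exact D.gx.le_ext h3

theorem Flat.fl_inj (hF : D.Flat) (P : Pool.Agent.DI.P45 K) {f f' : FL D.gx}
    (h : hF.fl P f = hF.fl P f') : f = f' :=
  Prod.ext (hF.le_inj P (congrArg (fun z : FL K => z.1) h)) (congrArg (fun z : FL K => z.2) h)

theorem Flat.fl_y (hF : D.Flat) (P : Pool.Agent.DI.P45 K) (f : FL D.gx) :
    D.F (P45.fy (hF.fl P f)) = P45.fy f := hF.c1 P f.1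

theorem Flat.fl_rf (hF : D.Flat) (P : Pool.Agent.DI.P45 K) (f : FL D.gx) :
    P45.rf (hF.fl P f) = hF.fl P (P45.rf f) := by
  obtain ⟨e, b⟩ := f
  cases b
  · exact Prod.ext (hF.le_pv P e) rfl
  · exact Prod.ext (hF.le_nx P e) rfl

/-- the flags of the pentagons -/
theorem Flat.fl_surj (hF : D.Flat) (P : Pool.Agent.DI.P45 K) {f : FL K} (h : ¬ P.sq f.1.1.1) :
    ∃ f' : FL D.gx, hF.fl P f' = f := by
  obtain ⟨⟨⟨i, j⟩, g⟩, b⟩ := f
  have e : D.gx.len ⟨i, hF.not_Bt5 P h⟩ = K.len i := hF.len P ⟨i, hF.not_Bt5 P h⟩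
  exact ⟨((⟨⟨i, hF.not_Bt5 P h⟩, ⟨j.1, lt_of_lt_of_eq j.2 e.symm⟩⟩, g), b), rfl⟩

end SqF

/-! ### the map -/

namespace Sq1.Sf

variable {D : Sq1 K} {P : P45 K} {a b : V} (h : D.Sf P a b)

include h

/-- no square is degenerate -/
theorem ndK : P.ND := h.cls.toSqE.nd52

omit h in
theorem ndF : (D.flat.P45 P).ND := D.nd

/-- the walks from a top: the lift is unique -/
theorem uniq_top {x t z q x' t' z' q' : V} (k : Q4 P x t z q) (k' : Q4 P x' t' z' q')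
    (e1 : D.toF.F x = D.toF.F x') (e2 : D.toF.F t = D.toF.F t') (e3 : D.toF.F z = D.toF.F z')
    (e4 : D.toF.F q = D.toF.F q') (n1 : D.toF.F x ≠ D.toF.F z) (n2 : D.toF.F t ≠ D.toF.F q)
    (k1 : K.ar t x) (k2 : K.ar t z) : x = x' ∧ t = t' ∧ z = z' ∧ q = q' := by
  have kT : P.Top t x z q := ⟨k, k1, k2⟩
  have hO := h.kept_notO kT n2
  have a1 := h.ar_F hO k1
  have a2 := h.ar_F hO k2
  rw [e2, e1] at a1
  rw [e2, e3] at a2
  obtain ⟨kT', hO'⟩ := h.q_top k' (by rw [← e1, ← e3]; exact n1) (by rw [← e2, ← e4]; exact n2) a1 a2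
  have et : t = t' := by
    have e := D.toF.F_eq.1 e2
    rwa [D.toF.f_not hO, D.toF.f_not hO'] at e
  subst et
  have eq : q = q' := (h.cls.par _ _ _ _ _ _ _ kT kT').resolve_left (fun k => k)
  refine ⟨?_, rfl, ?_, eq⟩
  · rcases h.cls.toSqE.sides kT kT'.2.1 with e | e
    · exact e.symm
    · rw [← e, ← e1] at n1
      exact absurd rfl n1
  · rcases h.cls.toSqE.sides kT kT'.2.2 with e | e
    · rw [← e, ← e3] at n1
      exact absurd rfl n1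
    · exact e.symm

/-- THE LIFT OF A WALK IS UNIQUE -/
theorem lift_uniq {x t z q x' t' z' q' : V} (k : Q4 P x t z q) (k' : Q4 P x' t' z' q')
    (e1 : D.toF.F x = D.toF.F x') (e2 : D.toF.F t = D.toF.F t') (e3 : D.toF.F z = D.toF.F z')
    (e4 : D.toF.F q = D.toF.F q') (n1 : D.toF.F x ≠ D.toF.F z) (n2 : D.toF.F t ≠ D.toF.F q) :
    x = x' ∧ t = t' ∧ z = z' ∧ q = q' := by
  rcases k.tops h.cls.top with l | l | l | l
  · exact h.uniq_top k k' e1 e2 e3 e4 n1 n2 l.1 l.2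
  · -- the top is `z`
    obtain ⟨i1, i2, i3, i4⟩ := h.uniq_top k.rot k'.rot e2 e3 e4 e1 n2 n1.symm l.1 l.2
    exact ⟨i4, i1, i2, i3⟩
  · obtain ⟨i1, i2, i3, i4⟩ := h.uniq_top k.rot.rot k'.rot.rot e3 e4 e1 e2 n1.symm n2.symm l.1 l.2
    exact ⟨i3, i4, i1, i2⟩
  · obtain ⟨i1, i2, i3, i4⟩ := h.uniq_top k.rot.rot.rot k'.rot.rot.rot e4 e1 e2 e3 n2.symm n1 l.1 l.2
    exact ⟨i2, i3, i4, i1⟩

omit h in
theorem ex_lift (t : {t : D.toF.W × D.toF.W × D.toF.W × D.toF.W //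
    Q4 (D.flat.P45 P) t.1 t.2.1 t.2.2.1 t.2.2.2}) : ∃ s : {s : V × V × V × V //
      Q4 P s.1 s.2.1 s.2.2.1 s.2.2.2}, D.toF.F s.1.1 = t.1.1 ∧ D.toF.F s.1.2.1 = t.1.2.1 ∧
      D.toF.F s.1.2.2.1 = t.1.2.2.1 ∧ D.toF.F s.1.2.2.2 = t.1.2.2.2 ∧ t.1.1 ≠ t.1.2.2.1 ∧
      t.1.2.1 ≠ t.1.2.2.2 := by
  obtain ⟨x, y, z, q, k, e1, e2, e3, e4, n1, n2⟩ := (D.flat.Q4_iff P).1 t.2
  exact ⟨⟨(x, y, z, q), k⟩, e1, e2, e3, e4, n1, n2⟩

omit h in
/-- the walk over a walk of the fold -/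
noncomputable def lq (t : {t : D.toF.W × D.toF.W × D.toF.W × D.toF.W //
    Q4 (D.flat.P45 P) t.1 t.2.1 t.2.2.1 t.2.2.2}) : {s : V × V × V × V //
      Q4 P s.1 s.2.1 s.2.2.1 s.2.2.2} := Classical.choose (ex_lift t)

omit h in
/-- the flags over the flags of the fold -/
noncomputable def ph (D : Sq1 K) (P : P45 K) : (D.flat.P45 P).WL → P.WL :=
  Sum.elim (fun f => P.w5 (D.flat.fl P f.1) f.2) (fun t => Sum.inr (lq t))

omit h in
theorem ph5 {f : FL D.toF.gx} (k : ¬ (D.flat.P45 P).sq f.1.1.1) :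
    ph D P ((D.flat.P45 P).w5 f k) = P.w5 (D.flat.fl P f) k := rfl

/-- the walk over the image of a walk -/
theorem ph4 {x y z q : V} (k : Q4 P x y z q)
    (k' : Q4 (D.flat.P45 P) (D.toF.F x) (D.toF.F y) (D.toF.F z) (D.toF.F q)) :
    ph D P (P45.w4 k') = P45.w4 k := by
  have e : lq (P := P) (D := D) ⟨(D.toF.F x, D.toF.F y, D.toF.F z, D.toF.F q), k'⟩ =
      ⟨(x, y, z, q), k⟩ := by
    obtain ⟨e1, e2, e3, e4, n1, n2⟩ := Classical.choose_spec (ex_lift (P := P) (D := D)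
      ⟨(D.toF.F x, D.toF.F y, D.toF.F z, D.toF.F q), k'⟩)
    obtain ⟨i1, i2, i3, i4⟩ := h.lift_uniq k (lq (P := P) (D := D)
      ⟨(D.toF.F x, D.toF.F y, D.toF.F z, D.toF.F q), k'⟩).2 e1.symm e2.symm e3.symm e4.symm n1 n2
    refine Subtype.ext ?_
    exact (Prod.ext i1 (Prod.ext i2 (Prod.ext i3 i4))).symm
  exact congrArg Sum.inr e

omit h in
/-- the walks of the fold -/
theorem walk' {x y z q : D.toF.W} (k : Q4 (D.flat.P45 P) x y z q) : ∃ x' y' z' q',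
    ∃ _ : Q4 P x' y' z' q', ∃ k' : Q4 (D.flat.P45 P) (D.toF.F x') (D.toF.F y') (D.toF.F z')
      (D.toF.F q'), D.toF.F x' = x ∧ D.toF.F y' = y ∧ D.toF.F z' = z ∧ D.toF.F q' = q ∧
      P45.w4 k = P45.w4 k' := by
  obtain ⟨x', y', z', q', k0, rfl, rfl, rfl, rfl, n1, n2⟩ := (D.flat.Q4_iff P).1 k
  exact ⟨x', y', z', q', k0, k, rfl, rfl, rfl, rfl, rfl⟩

omit h in
/-- the flags of the fold -/
theorem wl' (t : (D.flat.P45 P).WL) : (∃ f, ∃ k : ¬ (D.flat.P45 P).sq f.1.1.1,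
      t = (D.flat.P45 P).w5 f k) ∨
    ∃ x y z q, ∃ _ : Q4 P x y z q, ∃ k' : Q4 (D.flat.P45 P) (D.toF.F x) (D.toF.F y) (D.toF.F z)
      (D.toF.F q), t = P45.w4 k' := by
  rcases P45.wl_cases t with ⟨f, k, rfl⟩ | ⟨x, y, z, q, k, rfl⟩
  · exact Or.inl ⟨f, k, rfl⟩
  · obtain ⟨x', y', z', q', k0, k', -, -, -, -, e⟩ := walk' k
    exact Or.inr ⟨x', y', z', q', k0, k', e⟩

/-- THE MAP OF THE WALKS -/
noncomputable def M : FM (P.wfc h.ndK) ((D.flat.P45 P).wfc ndF) where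
  f := D.toF.F
  ph := ph D P
  f_smul := D.toF.F_smul
  ph_smul g t := by
    rcases wl' t with ⟨f, k, rfl⟩ | ⟨x, y, z, q, k, k', rfl⟩
    · rfl
    · have e : g • (P45.w4 k' : (D.flat.P45 P).WL) = P45.w4 (x := D.toF.F (g • x))
          (y := D.toF.F (g • y)) (z := D.toF.F (g • z)) (q := D.toF.F (g • q)) (by
            rw [D.toF.F_smul, D.toF.F_smul, D.toF.F_smul, D.toF.F_smul]
            exact k'.smul g) := by
        rw [P45.smul_w4]
        exact P45.w4_ext _ _ (D.toF.F_smul g x).symm (D.toF.F_smul g y).symm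
          (D.toF.F_smul g z).symm (D.toF.F_smul g q).symm
      rw [e, h.ph4 (k.smul g), h.ph4 k k', P45.smul_w4]
  inj := by
    intro t t' e
    rcases wl' t with ⟨f, k, rfl⟩ | ⟨x, y, z, q, k, k', rfl⟩ <;>
      rcases wl' t' with ⟨f', l, rfl⟩ | ⟨x', y', z', q', l, l', rfl⟩
    · rw [ph5, ph5] at e
      have e1 : D.flat.fl P f = D.flat.fl P f' := congrArg Subtype.val (Sum.inl.inj e)
      have e2 := D.flat.fl_inj P e1
      subst e2
      rfl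
    · rw [ph5, h.ph4 l] at e
      cases e
    · rw [ph5, h.ph4 k] at e
      cases e
    · rw [h.ph4 k, h.ph4 l] at e
      have e1 : ((x, y, z, q) : V × V × V × V) = (x', y', z', q') :=
        congrArg Subtype.val (Sum.inr.inj e)
      obtain ⟨i1, i2⟩ := Prod.ext_iff.1 e1
      obtain ⟨i3, i4⟩ := Prod.ext_iff.1 i2
      obtain ⟨i5, i6⟩ := Prod.ext_iff.1 i4
      exact P45.w4_ext _ _ (congrArg D.toF.F i1) (congrArg D.toF.F i3) (congrArg D.toF.F i5)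
        (congrArg D.toF.F i6)
  y_ph t := by
    rcases wl' t with ⟨f, k, rfl⟩ | ⟨x, y, z, q, k, k', rfl⟩
    · exact D.flat.fl_y P f
    · rw [h.ph4 k]
      rfl
  r_ph t := by
    rcases wl' t with ⟨f, k, rfl⟩ | ⟨x, y, z, q, k, k', rfl⟩
    · exact congrArg Sum.inl (Subtype.ext (D.flat.fl_rf P f))
    · rw [h.ph4 k, P45.wfc_r4, P45.wfc_r4, h.ph4 k.rot]
  v_ph t := by
    rcases wl' t with ⟨f, k, rfl⟩ | ⟨x, y, z, q, k, k', rfl⟩
    · rfl
    · rw [h.ph4 k, P45.wfc_v4, P45.wfc_v4, h.ph4 k.symm]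

@[simp] theorem M_f (x : V) : h.M.f x = D.toF.F x := rfl

/-- the flags of the pentagons are kept -/
theorem kp5 {f : FL K} (k : ¬ P.sq f.1.1.1) : h.M.Kp (P.w5 f k) := by
  obtain ⟨f', rfl⟩ := D.flat.fl_surj P k
  exact ⟨(D.flat.P45 P).w5 f' k, rfl⟩

/-- the kept walks -/
theorem kp4 {x y z q : V} (k : Q4 P x y z q) : h.M.Kp (P45.w4 k) ↔
    D.toF.F x ≠ D.toF.F z ∧ D.toF.F y ≠ D.toF.F q := by
  constructor
  · rintro ⟨t, e⟩
    have e : ph D P t = P45.w4 k := e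
    rcases wl' t with ⟨f, l, rfl⟩ | ⟨x', y', z', q', l, l', rfl⟩
    · rw [ph5] at e
      cases e
    · rw [h.ph4 l] at e
      have e1 : ((x', y', z', q') : V × V × V × V) = (x, y, z, q) :=
        congrArg Subtype.val (Sum.inr.inj e)
      obtain ⟨i1, i2⟩ := Prod.ext_iff.1 e1
      obtain ⟨i3, i4⟩ := Prod.ext_iff.1 i2
      obtain ⟨i5, i6⟩ := Prod.ext_iff.1 i4
      have i1 : x' = x := i1
      have i3 : y' = y := i3
      have i5 : z' = z := i5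
      have i6 : q' = q := i6
      subst i1 i3 i5 i6
      exact P45.q4_ne ndF l'
  · rintro ⟨n1, n2⟩
    exact ⟨P45.w4 (D.q4 k n1 n2), h.ph4 k _⟩

/-- A DROPPED WALK: its top is folded -/
theorem drop4 {x y z q : V} (k : Q4 P x y z q) (hk : ¬ h.M.Kp (P45.w4 k)) :
    (P.Top y x z q ∧ D.toF.O y) ∨ (P.Top z y q x ∧ D.toF.O z) ∨ (P.Top q z x y ∧ D.toF.O q) ∨
      (P.Top x q y z ∧ D.toF.O x) := by
  rw [h.kp4] at hk
  rcases k.tops h.cls.top with l | l | l | l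
  · left
    have kT : P.Top y x z q := ⟨k, l.1, l.2⟩
    refine ⟨kT, ?_⟩
    by_contra hO
    exact hk ⟨h.sides_ne kT hO, h.top_ne kT hO⟩
  · right; left
    have kT : P.Top z y q x := ⟨k.rot, l.1, l.2⟩
    refine ⟨kT, ?_⟩
    by_contra hO
    exact hk ⟨(h.top_ne kT hO).symm, h.sides_ne kT hO⟩
  · right; right; left
    have kT : P.Top q z x y := ⟨k.rot.rot, l.1, l.2⟩
    refine ⟨kT, ?_⟩
    by_contra hO
    exact hk ⟨(h.sides_ne kT hO).symm, (h.top_ne kT hO).symm⟩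
  · right; right; right
    have kT : P.Top x q y z := ⟨k.rot.rot.rot, l.1, l.2⟩
    refine ⟨kT, ?_⟩
    by_contra hO
    exact hk ⟨h.top_ne kT hO, (h.sides_ne kT hO).symm⟩

end Sq1.Sf

end Pool.Agent.DI
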