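import Pool.Agent.DI.SfN0
import Pool.Agent.DI.OStK

/-!
# DI/SfN: the self pieces of fat softs under the static fold of one thin top (owner: helper16)

`F : P.SfD`. `F.ij_down`, `F.str_down`: pieces and strands of the fold at a vertex `c`, not in the orbit of
`y`, come from pieces and strands of `c`. `F.ij_up`: a piece of `c` gives one orbit of pieces of the fold.
`F.Nd n u`: the in-node `n` of `y` in the fold belongs to the piece of `u` at `y`.
`F.nN_le`: the number of the self pieces of fat softs does not grow.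
-/

namespace Pool.Agent.DI

open MulAction
open Pool.Agent.SAF (InC SA orbs FinOrb oc)

/-- the two notions of piece agree -/
theorem pc_ij16 {H V : Type} [Group H] [MulAction H V] {K : GX H V} {v n m : V}
    (h : K.PC v n m) : K.IJ v n m := by
  induction h with
  | rel a b h => exact Relation.EqvGen.rel _ _ ⟨h.2.2, h.1, h.2.1⟩
  | refl a => exact Relation.EqvGen.refl _
  | symm a b _ ih => exact ih.symm
  | trans a b c _ _ i1 i2 => exact i1.trans _ _ _ i2

namespace P45.SfD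

variable {H V : Type} [Group H] [MulAction H V] {K : GX H V} {P : P45 K} (F : P.SfD) (hs : P.SqT)

theorem ar_asymW {c d : F.W hs} (h : (F.gx hs).ar c d) (k : (F.gx hs).ar d c) : False :=
  absurd ((F.gx hs).ar_rk _ _ h) (not_lt.2 ((F.gx hs).ar_rk _ _ k).le)

theorem ar_asym16 {c d : V} (h : K.ar c d) (k : K.ar d c) : False :=
  absurd (K.ar_rk _ _ h) (not_lt.2 (K.ar_rk _ _ k).le)

theorem in_T_ne {n : V} {g : H} (h : K.ar n (g • F.T)) : ∀ k : H, n ≠ k • F.T := by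
  rintro k rfl
  have := K.ar_rk _ _ h
  rw [K.rk_smul, K.rk_smul] at this
  exact lt_irrefl _ this

theorem out_T_ne {n : V} {g : H} (h : K.ar (g • F.T) n) : ∀ k : H, n ≠ k • F.T := by
  rintro k rfl
  have := K.ar_rk _ _ h
  rw [K.rk_smul, K.rk_smul] at this
  exact lt_irrefl _ this

/-- the pieces of a folded top -/
theorem ijT (h1 : F.NoOne hs) {g : H} {n m : V} (k : K.IJ (g • F.T) n m) :
    (F.gx hs).IJ (F.f hs (g • F.T)) (F.f hs n) (F.f hs m) := by
  induction k with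
  | rel n m k =>
    refine Relation.EqvGen.rel _ _ ⟨(F.kc_in hs h1 k.1 k.2.1).cor', ?_, ?_⟩
    · exact F.ar_f hs (F.in_T_ne k.2.1) k.2.1
    · exact F.ar_f hs (F.in_T_ne k.2.2) k.2.2
  | refl n => exact Relation.EqvGen.refl _
  | symm n m _ ih => exact ih.symm
  | trans n m l _ _ i1 i2 => exact i1.trans _ _ _ i2

/-- a vertex over `c`, not in the orbit of `y` -/
theorem eq_of_f {c : F.W hs} (hc : ∀ g : H, c.1 ≠ g • F.y) {x : V} (e : F.f hs x = c) :
    x = c.1 := by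
  rcases F.f_cases hs x with k | ⟨h, -, k⟩
  · rw [← e, k]
  · rw [e] at k
    exact absurd k (hc h)

theorem in_node {c : F.W hs} (hc : ∀ g : H, c.1 ≠ g • F.y) {n0 : V} (hE : K.E n0 c.1)
    (ha : (F.gx hs).ar (F.f hs n0) c) : K.ar n0 c.1 ∧ K.IJ c.1 n0 (F.f hs n0).1 := by
  obtain ⟨x, hx, ex⟩ := ha
  have ex' := F.eq_of_f hs hc ex
  subst ex'
  rcases F.f_cases hs n0 with k | ⟨g, rfl, k⟩
  · have hx : K.ar (F.f hs n0).1 c.1 := hx
    rw [k] at hx
    exact ⟨hx, by rw [k]; exact Relation.EqvGen.refl _⟩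
  · have hx : K.ar (F.f hs (g • F.T)).1 c.1 := hx
    rw [k] at hx
    have r1 := K.ar_rk _ _ hx
    rw [K.rk_smul] at r1
    have r2 := F.rk_yT
    have h2 : K.ar (g • F.T) c.1 := by
      rcases hE with l | l
      · exact l
      · have := K.ar_rk _ _ l
        rw [K.rk_smul] at this
        omega
    refine ⟨h2, ?_⟩
    rw [k]
    rcases hs.sides (F.top.smul g) h2 with e | e
    · exfalso
      rw [e] at hx
      exact ar_asym16 hx (K.ar_smul g _ _ F.ay)
    · refine Relation.EqvGen.rel _ _ ⟨?_, h2, hx⟩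
      rw [e]
      exact F.cor_b g

/-- pieces away from the orbit of `y` -/
theorem ij_down {c : F.W hs} (hc : ∀ g : H, c.1 ≠ g • F.y) {n m : F.W hs}
    (k : (F.gx hs).IJ c n m) : K.IJ c.1 n.1 m.1 := by
  induction k with
  | rel n m k =>
    obtain ⟨k1, k2, k3⟩ := k
    obtain ⟨n0, c0, m0, hk, rfl, e, rfl⟩ := F.cor_up hs k1
    have e' := F.eq_of_f hs hc e
    subst e'
    obtain ⟨l1, l2⟩ := F.in_node hs hc hk.cor.E1.symm k2
    obtain ⟨l3, l4⟩ := F.in_node hs hc hk.cor.E2.symm k3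
    exact (l2.symm').trans' (GX.IJ.trans' (Relation.EqvGen.rel _ _ ⟨hk.cor, l1, l3⟩) l4)
  | refl n => exact Relation.EqvGen.refl _
  | symm n m _ ih => exact ih.symm
  | trans n m l _ _ i1 i2 => exact i1.trans _ _ _ i2

/-- strands away from the orbit of `y` -/
theorem str_down {c : F.W hs} (hc : ∀ g : H, c.1 ≠ g • F.y) {n α : F.W hs}
    (k1 : (F.gx hs).Cor n c α) (k2 : (F.gx hs).ar n c) (k3 : (F.gx hs).ar c α) :
    ∃ n1 α1, K.ar n1 c.1 ∧ K.ar c.1 α1 ∧ K.Cor n1 c.1 α1 ∧ K.IJ c.1 n.1 n1 ∧ F.f hs α1 = α := by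
  obtain ⟨n0, c0, α0, hk, rfl, e, rfl⟩ := F.cor_up hs k1
  have e' := F.eq_of_f hs hc e
  subst e'
  obtain ⟨l1, l2⟩ := F.in_node hs hc hk.cor.E1.symm k2
  rcases hk.cor.E2 with l | l
  · exact ⟨n0, α0, l1, l, hk.cor, l2.symm', rfl⟩
  · by_cases hO : ∀ g : H, α0 ≠ g • F.T
    · exfalso
      have := F.ar_f hs hO l
      rw [F.f_coe hs c] at this
      exact F.ar_asymW hs this k3
    · push Not at hO
      obtain ⟨g, rfl⟩ := hO
      obtain ⟨x, hx, ex⟩ := k3
      have hx : K.ar c.1 x := hx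
      have ex : F.f hs x = F.f hs (g • F.T) := ex
      have hxy : x = g • F.y := by
        rcases F.f_cases hs x with k | ⟨h, rfl, -⟩
        · rw [← k, ex, F.f_T hs g]
        · have r1 := K.ar_rk _ _ hx
          have r2 := K.ar_rk _ _ l
          rw [K.rk_smul] at r1 r2
          omega
      subst hxy
      refine ⟨g • F.T, g • F.y, l, hx, ?_, ?_, ex⟩
      · rcases hs.sides (F.top.smul g) l with e | e
        · rw [e]
          exact F.cor_a g
        · rw [e]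
          exact F.cor_b g
      · exact l2.symm'.trans' (Relation.EqvGen.rel _ _ ⟨hk.cor, l1, l⟩)

/-! ### from the complex to the fold -/

/-- the own corner of a diamond at `y` -/
theorem di (h1 : F.NoOne hs) (hm : K.Min) (hx : ∀ p ∈ P.TA, 1 ≤ P.X p.1 p.2)
    (lc : ∀ v, K.LC v) (hb : K.ar F.b F.y) (g : H) :
    (F.gx hs).IJ (F.f hs (g • F.y)) (F.f hs (g • F.a)) (F.f hs (g • F.b)) := by
  have main : (F.gx hs).IJ (F.f hs F.y) (F.f hs F.a) (F.f hs F.b) := by
    have eT : F.f hs F.T = F.f hs F.y := by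
      have := F.f_Ty hs 1
      rwa [one_smul, one_smul] at this
    have aT : ∀ h : H, F.a ≠ h • F.T := by
      have := F.out_T_ne (g := 1) (n := F.a) (by rw [one_smul]; exact F.top.2.1)
      exact this
    have bT : ∀ h : H, F.b ≠ h • F.T := by
      have := F.out_T_ne (g := 1) (n := F.b) (by rw [one_smul]; exact F.top.2.2)
      exact this
    have ay' := F.ar_f hs aT F.ay
    have by' := F.ar_f hs bT hb
    obtain ⟨m, hk⟩ := F.kc_ex hs h1
    have hc := hk.cor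
    rcases hc.E1 with l | l
    · rcases hs.sides F.top l with e | e
      · exfalso
        rw [e] at hc
        exact GX.nbt_of (fun e => P45.nb5m (P := P) hm hs.nd52 e) hc rfl
      · rw [e] at hk
        have k := hk.cor'
        rw [eT] at k
        exact Relation.EqvGen.rel _ _ ⟨k.symm, ay', by'⟩
    · obtain ⟨k, k1, k2, k3⟩ := hs.os hm hx lc l F.top.2.2
      have k1 := pc_ij16 k1
      have j1 := F.ijT hs h1 (g := 1) (by rw [one_smul]; exact k1)
      rw [one_smul, eT] at j1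
      have l' : K.ar m ((1 : H) • F.T) := by rwa [one_smul]
      have k2' : K.ar k ((1 : H) • F.T) := by rwa [one_smul]
      have j2 := (F.kc_in hs h1 (g := 1) (by rw [one_smul]; exact k3) k2').cor'
      rw [one_smul, eT] at j2
      have j3 := hk.cor'
      rw [eT] at j3
      have j4 := F.ar_f hs (F.in_T_ne l') l'
      rw [one_smul, eT] at j4
      have j5 := F.ar_f hs (F.in_T_ne k2') k2'
      rw [one_smul, eT] at j5
      have i1 : (F.gx hs).IJ (F.f hs F.y) (F.f hs F.a) (F.f hs m) :=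
        Relation.EqvGen.rel _ _ ⟨j3.symm, ay', j4⟩
      have i2 : (F.gx hs).IJ (F.f hs F.y) (F.f hs k) (F.f hs F.b) :=
        Relation.EqvGen.rel _ _ ⟨j2, j5, by'⟩
      exact (i1.trans' j1).trans' i2
  have := main.smul g
  rwa [← F.f_smul, ← F.f_smul, ← F.f_smul] at this

/-- an own corner with the image of `c` as vertex, if `c` is not reversed -/
theorem ic_up (h1 : F.NoOne hs) (hm : K.Min) (hx : ∀ p ∈ P.TA, 1 ≤ P.X p.1 p.2)
    (lc : ∀ v, K.LC v) {c : F.W hs} (hr : ∀ g : H, K.ar (g • F.T) c.1 → ¬ K.ar c.1 (g • F.y))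
    {n m : V} (k : K.IC c.1 n m) : (F.gx hs).IJ c (F.f hs n) (F.f hs m) := by
  have up : ∀ {n : V}, K.ar n c.1 → (F.gx hs).ar (F.f hs n) c := by
    intro n hn
    by_cases hO : ∀ g : H, n ≠ g • F.T
    · have := F.ar_f hs hO hn
      rwa [F.f_coe hs c] at this
    · push Not at hO
      obtain ⟨g, rfl⟩ := hO
      have h2 := hr g hn
      have hE : K.ar (g • F.y) c.1 := by
        rcases hs.sides (F.top.smul g) hn with e | e
        · exfalso
          apply h2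
          rw [e]
          exact K.ar_smul g _ _ F.ay
        · rcases F.top.Eb with l | l
          · exfalso
            apply h2
            rw [e]
            exact K.ar_smul g _ _ l
          · rw [e]
            exact K.ar_smul g _ _ l
      refine ⟨c.1, ?_, F.f_coe hs c⟩
      show K.ar (F.f hs (g • F.T)).1 c.1
      rw [F.f_T hs g]
      exact hE
  obtain ⟨k1, k2, k3⟩ := k
  rcases F.kc_or hs h1 k1 with hk | ⟨g, ⟨e | e, -⟩ | ⟨e, e'⟩⟩
  · have := hk.cor'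
    rw [F.f_coe hs c] at this
    exact Relation.EqvGen.rel _ _ ⟨this, up k2, up k3⟩
  · rw [e.1, e.2, F.f_Ty hs g]
    exact Relation.EqvGen.refl _
  · rw [e.1, e.2, F.f_Ty hs g]
    exact Relation.EqvGen.refl _
  · have ec : c.1 = g • F.y := e.resolve_left fun k => c.2 ⟨g, k⟩
    have hby : K.ar F.b F.y := by
      have key : K.ar (g • F.b) c.1 := by
        rcases e' with ⟨-, l⟩ | ⟨l, -⟩
        · rw [← l]
          exact k3
        · rw [← l]
          exact k2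
      rw [ec] at key
      have := K.ar_smul g⁻¹ _ _ key
      rwa [inv_smul_smul, inv_smul_smul] at this
    have hd := F.di hs h1 hm hx lc hby g
    have ec' : F.f hs (g • F.y) = c := by rw [← ec, F.f_coe]
    rw [ec'] at hd
    rcases e' with ⟨l1, l2⟩ | ⟨l1, l2⟩
    · rw [l1, l2]
      exact hd
    · rw [l1, l2]
      exact hd.symm'

/-- equal up to an element which fixes the vertex -/
def Rl (c : F.W hs) (n m : V) : Prop := ∃ s : H, s • c = c ∧
  (F.gx hs).IJ c (s • F.f hs n) (F.f hs m)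

/-- the induction along a piece at a reversed pole -/
def Qm (c : F.W hs) (n m : V) : Prop := ((∀ g : H, m ≠ g • F.T) → F.Rl hs c n m) ∧
  ∀ g : H, m = g • F.T → ∀ z, F.KC hs (g • F.T) c.1 z →
    K.ar z c.1 ∧ (∀ k : H, z ≠ k • F.T) ∧ F.Rl hs c n z

theorem qm_step {c : F.W hs} {g0 : H} (hy : K.ar c.1 (g0 • F.y))
    (h1 : F.NoOne hs) {n m l : V} (k : K.IC c.1 m l) (hq : F.Qm hs c n m) : F.Qm hs c n l := by
  obtain ⟨k1, k2, k3⟩ := k
  have rc : K.rk F.y < K.rk c.1 := by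
    have := K.ar_rk _ _ hy
    rwa [K.rk_smul] at this
  have hk : F.KC hs m c.1 l := by
    rcases F.kc_or hs h1 k1 with hk | ⟨g, ⟨e | e, -⟩ | ⟨e | e, -⟩⟩
    · exact hk
    · exfalso
      rw [e.2] at k3
      have := K.ar_rk _ _ k3
      rw [K.rk_smul] at this
      omega
    · exfalso
      rw [e.1] at k2
      have := K.ar_rk _ _ k2
      rw [K.rk_smul] at this
      omega
    · exact absurd ⟨g, e⟩ c.2
    · exfalso
      rw [e, K.rk_smul] at rc
      exact lt_irrefl _ rc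
  by_cases hO : ∀ g : H, m ≠ g • F.T
  · obtain ⟨s, s1, s2⟩ := hq.1 hO
    constructor
    · intro hO'
      refine ⟨s, s1, s2.trans' (Relation.EqvGen.rel _ _ ⟨?_, ?_, ?_⟩)⟩
      · have := hk.cor'
        rwa [F.f_coe hs c] at this
      · have := F.ar_f hs hO k2
        rwa [F.f_coe hs c] at this
      · have := F.ar_f hs hO' k3
        rwa [F.f_coe hs c] at this
    · rintro g rfl z hz
      obtain ⟨t, t1, t2, t3⟩ := F.ku hs k3 hk.symm hz
      have tc : t • c = c := Subtype.ext t2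
      refine ⟨?_, ?_, t * s, ?_, ?_⟩
      · rw [← t3, ← t2]
        exact K.ar_smul t _ _ k2
      · intro k e
        apply hO (t⁻¹ * k)
        rw [mul_smul, ← e, ← t3, inv_smul_smul]
      · rw [mul_smul, s1, tc]
      · have := s2.smul t
        rw [tc, ← F.f_smul hs t m, t3] at this
        rwa [mul_smul]
  · push Not at hO
    obtain ⟨g, rfl⟩ := hO
    obtain ⟨a1, a2, a3⟩ := hq.2 g rfl l hk
    exact ⟨fun _ => a3, fun k e => absurd e (a2 k)⟩

theorem qm_ij {c : F.W hs} {g0 : H} (hy : K.ar c.1 (g0 • F.y))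
    (h1 : F.NoOne hs) {n m l : V} (k : K.IJ c.1 m l) : F.Qm hs c n m ↔ F.Qm hs c n l := by
  induction k with
  | rel m l k => exact ⟨F.qm_step hs hy h1 k, F.qm_step hs hy h1 k.symm'⟩
  | refl m => exact Iff.rfl
  | symm m l _ ih => exact ih.symm
  | trans m l j _ _ i1 i2 => exact i1.trans i2

/-- A PIECE GIVES ONE ORBIT OF PIECES OF THE FOLD -/
theorem ij_up (h1 : F.NoOne hs) (hm : K.Min) (hx : ∀ p ∈ P.TA, 1 ≤ P.X p.1 p.2)
    (lc : ∀ v, K.LC v) {c : F.W hs} {n m : V} (hn : ∀ g : H, n ≠ g • F.T)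
    (hm' : ∀ g : H, m ≠ g • F.T) (k : K.IJ c.1 n m) : F.Rl hs c n m := by
  by_cases hr : ∀ g : H, K.ar (g • F.T) c.1 → ¬ K.ar c.1 (g • F.y)
  · refine ⟨1, one_smul _ _, ?_⟩
    rw [one_smul]
    clear hn hm'
    induction k with
    | rel n m k => exact F.ic_up hs h1 hm hx lc hr k
    | refl n => exact Relation.EqvGen.refl _
    | symm n m _ ih => exact ih.symm
    | trans n m l _ _ i1 i2 => exact i1.trans _ _ _ i2
  · push Not at hr
    obtain ⟨g, -, a2⟩ := hr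
    have hq : F.Qm hs c n n := ⟨fun _ => ⟨1, one_smul _ _, by
      rw [one_smul]; exact Relation.EqvGen.refl _⟩, fun g e => absurd e (hn g)⟩
    exact ((F.qm_ij hs a2 h1 k).1 hq).1 hm'

/-! ### the pieces of `y` -/

/-- the in-node `n` of `y` in the fold belongs to the piece of `u` at `y` -/
def Nd (n : F.W hs) (u : V) : Prop := (K.ar n.1 F.y ∧ K.IJ F.y n.1 u) ∨
  ∃ h : H, h • F.y = F.y ∧ K.ar n.1 (h • F.T) ∧ K.IJ F.y (h • F.a) u

variable {F hs}

theorem Nd.trans {n : F.W hs} {u v : V} (h : F.Nd hs n u) (k : K.IJ F.y u v) : F.Nd hs n v := by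
  rcases h with ⟨h1, h2⟩ | ⟨h, h1, h2, h3⟩
  · exact Or.inl ⟨h1, h2.trans' k⟩
  · exact Or.inr ⟨h, h1, h2, h3.trans' k⟩

theorem Nd.smul {g : H} (hg : g • F.y = F.y) {n : F.W hs} {u : V} (h : F.Nd hs n u) :
    F.Nd hs (g • n) (g • u) := by
  rcases h with ⟨h1, h2⟩ | ⟨h, h1, h2, h3⟩
  · left
    have k1 := K.ar_smul g _ _ h1
    have k2 := h2.smul g
    rw [hg] at k1 k2
    exact ⟨k1, k2⟩
  · right
    have k2 := K.ar_smul g _ _ h2
    have k3 := h3.smul g
    rw [hg] at k3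
    refine ⟨g * h, by rw [mul_smul, h1, hg], ?_, ?_⟩
    · rw [mul_smul]
      exact k2
    · rw [mul_smul]
      exact k3

variable (F hs)

theorem f_y1 : (F.f hs F.y).1 = F.y := by
  have := F.f_y hs 1
  rwa [one_smul] at this

theorem rkW {c d : F.W hs} (h : (F.gx hs).ar c d) : K.rk d.1 < K.rk c.1 := (F.gx hs).ar_rk _ _ h

/-- no vertex in a cell gets one pole -/
theorem uq (hs' : (F.P' hs).SqT) (hm' : (F.gx hs).Min)
    (hx' : ∀ p ∈ (F.P' hs).TA, 1 ≤ (F.P' hs).X p.1 p.2) {n m : F.W hs} {x1 x2 : V}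
    (k1 : K.ar n.1 x1) (k2 : K.ar n.1 x2) (e : F.f hs x1 = F.f hs x2)
    (hc : (F.gx hs).Cor n (F.f hs x1) m) : x1 = x2 := by
  by_contra hne
  obtain ⟨v, hv⟩ : ∃ v, (F.gx hs).Cor v n (F.f hs x1) := by
    rcases (F.P' hs).cor_iff.1 hc with ⟨u, v, h⟩ | ⟨q, h⟩
    · exact ⟨v, (F.P' hs).cor_iff.2 (Or.inl ⟨_, _, h.rot.rot.rot.rot⟩)⟩
    · exact ⟨q, (F.P' hs).cor_iff.2 (Or.inr ⟨_, h.rot.rot.rot⟩)⟩
  refine hs'.no_one hm' hx' (v := n) (c := F.f hs x1) ⟨x1, k1, rfl⟩ hv ?_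
  rintro d ⟨x, hx, rfl⟩
  rcases out_two k1 k2 hne hx with rfl | rfl
  · rfl
  · exact e.symm

theorem own_ic {h : H} (hy : h • F.y = F.y) (hb : K.ar F.b F.y) :
    K.IJ F.y (h • F.a) (h • F.b) := by
  have k1 := F.cor_y h
  have k2 := K.ar_smul h _ _ F.ay
  have k3 := K.ar_smul h _ _ hb
  rw [hy] at k1 k2 k3
  exact Relation.EqvGen.rel _ _ ⟨k1, k2, k3⟩

theorem Nd_uniq (hs' : (F.P' hs).SqT) (hm' : (F.gx hs).Min)
    (hx' : ∀ p ∈ (F.P' hs).TA, 1 ≤ (F.P' hs).X p.1 p.2) {n m : F.W hs}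
    (hc : (F.gx hs).Cor n (F.f hs F.y) m) {u v : V} (h1 : F.Nd hs n u) (h2 : F.Nd hs n v) :
    K.IJ F.y u v := by
  have eh : ∀ h : H, h • F.y = F.y → F.f hs (h • F.T) = F.f hs F.y := by
    intro h hh
    rw [F.f_Ty hs h, hh]
  have mix : ∀ h : H, h • F.y = F.y → K.ar n.1 F.y → K.ar n.1 (h • F.T) → False := by
    intro h hh k1 k2
    have := F.uq hs hs' hm' hx' k1 k2 (eh h hh).symm hc
    have h0 := F.y_ne_T 1 h
    rw [one_smul] at h0
    exact h0 this
  rcases h1 with ⟨a1, a2⟩ | ⟨h, a1, a2, a3⟩ <;> rcases h2 with ⟨b1, b2⟩ | ⟨h', b1, b2, b3⟩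
  · exact a2.symm'.trans' b2
  · exact (mix h' b1 a1 b2).elim
  · exact (mix h a1 b1 a2).elim
  · have e : h • F.T = h' • F.T := by
      refine F.uq hs hs' hm' hx' a2 b2 ?_ (m := m) ?_
      · rw [eh h a1, eh h' b1]
      · rw [eh h a1]
        exact hc
    have key : K.IJ F.y (h • F.a) (h' • F.a) := by
      have t : P.Top (h • F.T) (h' • F.a) (h' • F.b) (h' • F.y) := by
        have := F.top.smul h'
        rwa [← e] at this
      rcases hs.sides (F.top.smul h) t.2.1 with l | l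
      · rw [l]
        exact Relation.EqvGen.refl _
      · rw [l]
        refine F.own_ic a1 ?_
        have k := K.ar_smul h' _ _ F.ay
        rw [l, b1] at k
        have := K.ar_smul h⁻¹ _ _ k
        rwa [inv_smul_smul, show h⁻¹ • F.y = F.y by rw [inv_smul_eq_iff, a1]] at this
    exact (a3.symm'.trans' key).trans' b3

/-- the vertices over `y` -/
theorem over_y {c0 : V} (e : F.f hs c0 = F.f hs F.y) : c0 = F.y ∨ ∃ h : H, h • F.y = F.y ∧
    c0 = h • F.T := by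
  rcases F.f_cases hs c0 with k | ⟨h, k1, k2⟩
  · left
    rw [← k, e, F.f_y1]
  · right
    refine ⟨h, ?_, k1⟩
    rw [← k2, e, F.f_y1]

include hs in
/-- in-nodes of `y` in the fold over neighbours of `y` -/
theorem nb_y {n0 : V} (hE : K.E F.y n0) : (∀ h : H, n0 ≠ h • F.T) := by
  intro h e
  rw [e] at hE
  have := F.not_E_yT hs 1 h
  rw [one_smul] at this
  exact this hE

theorem in_y {n0 : V} (hE : K.E F.y n0) (ha : (F.gx hs).ar (F.f hs n0) (F.f hs F.y)) :
    K.ar n0 F.y := by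
  have hn := F.nb_y hs hE
  have r := F.rkW hs ha
  rw [F.f_y1, F.f_not hs hn] at r
  rcases hE with k | k
  · have := K.ar_rk _ _ k
    omega
  · exact k

theorem out_y {n0 : V} (hE : K.E F.y n0) (ha : (F.gx hs).ar (F.f hs F.y) (F.f hs n0)) :
    K.ar F.y n0 := by
  have hn := F.nb_y hs hE
  have r := F.rkW hs ha
  rw [F.f_y1, F.f_not hs hn] at r
  rcases hE with k | k
  · exact k
  · have := K.ar_rk _ _ k
    omega

theorem Nd_T {h : H} (hy : h • F.y = F.y) {n0 : V} (hE : K.E (h • F.T) n0)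
    (ha : (F.gx hs).ar (F.f hs n0) (F.f hs F.y)) : F.Nd hs (F.f hs n0) (h • F.a) := by
  rcases hE with k | k
  · have hn := F.out_T_ne k
    have e0 := F.f_not hs hn
    left
    rcases hs.sides (F.top.smul h) k with e | e
    · rw [e0, e]
      refine ⟨?_, Relation.EqvGen.refl _⟩
      have := K.ar_smul h _ _ F.ay
      rwa [hy] at this
    · have hb : K.ar F.b F.y := by
        have r := F.rkW hs ha
        rw [F.f_y1, e0, e, K.rk_smul] at r
        rcases F.top.Eb with l | l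
        · exact l
        · have := K.ar_rk _ _ l
          omega
      rw [e0, e]
      refine ⟨?_, (F.own_ic hy hb).symm'⟩
      have := K.ar_smul h _ _ hb
      rwa [hy] at this
  · have hn := F.in_T_ne k
    right
    refine ⟨h, hy, ?_, Relation.EqvGen.refl _⟩
    rw [F.f_not hs hn]
    exact k

theorem Nd_step (hs' : (F.P' hs).SqT) (hm' : (F.gx hs).Min)
    (hx' : ∀ p ∈ (F.P' hs).TA, 1 ≤ (F.P' hs).X p.1 p.2) {n m : F.W hs} {u : V}
    (k : (F.gx hs).IC (F.f hs F.y) n m) (h : F.Nd hs n u) : F.Nd hs m u := by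
  obtain ⟨k1, k2, k3⟩ := k
  obtain ⟨n0, c0, m0, hk, rfl, e, rfl⟩ := F.cor_up hs k1
  rcases F.over_y hs e with rfl | ⟨g, g1, rfl⟩
  · have l1 := F.in_y hs hk.cor.E1 k2
    have l2 := F.in_y hs hk.cor.E2 k3
    have n1 := F.f_not hs (F.nb_y hs hk.cor.E1)
    have n2 := F.f_not hs (F.nb_y hs hk.cor.E2)
    have a1 : F.Nd hs (F.f hs n0) n0 := Or.inl ⟨by rw [n1]; exact l1, by
      rw [n1]; exact Relation.EqvGen.refl _⟩
    have a2 := F.Nd_uniq hs hs' hm' hx' k1 h a1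
    refine Or.inl ⟨by rw [n2]; exact l2, ?_⟩
    rw [n2]
    exact GX.IJ.trans' (Relation.EqvGen.rel _ _ ⟨hk.cor.symm, l2, l1⟩) a2.symm'
  · have a1 := F.Nd_T hs g1 hk.cor.E1 k2
    have a2 := F.Nd_T hs g1 hk.cor.E2 k3
    exact a2.trans (F.Nd_uniq hs hs' hm' hx' k1 a1 h)

theorem Nd_ij (hs' : (F.P' hs).SqT) (hm' : (F.gx hs).Min)
    (hx' : ∀ p ∈ (F.P' hs).TA, 1 ≤ (F.P' hs).X p.1 p.2) {n m : F.W hs} {u : V}
    (k : (F.gx hs).IJ (F.f hs F.y) n m) : F.Nd hs n u ↔ F.Nd hs m u := by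
  induction k with
  | rel n m k => exact ⟨F.Nd_step hs hs' hm' hx' k, F.Nd_step hs hs' hm' hx' k.symm'⟩
  | refl n => exact Iff.rfl
  | symm n m _ ih => exact ih.symm
  | trans n m l _ _ i1 i2 => exact i1.trans i2

/-- a self piece of `y` in the fold -/
theorem dn_y (h1 : F.NoOne hs) (hm : K.Min) (hx : ∀ p ∈ P.TA, 1 ≤ P.X p.1 p.2)
    (lc : ∀ v, K.LC v) (hs' : (F.P' hs).SqT) (hm' : (F.gx hs).Min)
    (hx' : ∀ p ∈ (F.P' hs).TA, 1 ≤ (F.P' hs).X p.1 p.2) {n α : F.W hs} {g : H}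
    (hg : g • F.y = F.y) (k1 : (F.gx hs).Cor n (F.f hs F.y) α)
    (k2 : (F.gx hs).ar n (F.f hs F.y)) (k3 : (F.gx hs).ar (F.f hs F.y) α)
    (k4 : (F.gx hs).IJ (F.f hs F.y) n (g • n)) : ∃ u n1 α1, (∀ h : H, u ≠ h • F.T) ∧
      K.ar u F.y ∧ (F.gx hs).IJ (F.f hs F.y) n (F.f hs u) ∧ K.ar n1 F.y ∧ K.ar F.y α1 ∧
      K.Cor n1 F.y α1 ∧ K.IJ F.y u n1 ∧ K.IJ F.y u (g • u) ∧ F.f hs α1 = α := by
  have self : ∀ u, F.Nd hs n u → K.IJ F.y u (g • u) := by
    intro u hu
    have a1 := (F.Nd_ij hs hs' hm' hx' k4).1 hu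
    have a2 := hu.smul hg
    have hc := k1.smul g
    rw [← F.f_smul, hg] at hc
    exact F.Nd_uniq hs hs' hm' hx' hc a1 a2
  obtain ⟨n0, c0, α0, hk, rfl, e, rfl⟩ := F.cor_up hs k1
  rcases F.over_y hs e with rfl | ⟨h, g1, rfl⟩
  · have l1 := F.in_y hs hk.cor.E1 k2
    have l2 := F.out_y hs hk.cor.E2 k3
    have n1 := F.f_not hs (F.nb_y hs hk.cor.E1)
    refine ⟨n0, n0, α0, F.nb_y hs hk.cor.E1, l1, Relation.EqvGen.refl _, l1, l2, hk.cor,
      Relation.EqvGen.refl _, self n0 ?_, rfl⟩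
    exact Or.inl ⟨by rw [n1]; exact l1, by rw [n1]; exact Relation.EqvGen.refl _⟩
  · -- the strand comes from a strand of a folded top
    have ea : α0 = h • F.b ∧ K.ar F.y F.b := by
      have r := F.rkW hs k3
      rw [F.f_y1] at r
      rcases hk.cor.E2 with k | k
      · have hn := F.out_T_ne k
        rw [F.f_not hs hn] at r
        rcases hs.sides (F.top.smul h) k with e | e
        · rw [e, K.rk_smul] at r
          have := K.ar_rk _ _ F.ay
          omega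
        · refine ⟨e, ?_⟩
          rw [e, K.rk_smul] at r
          rcases F.top.Eb with l | l
          · have := K.ar_rk _ _ l
            omega
          · exact l
      · have hn := F.in_T_ne k
        rw [F.f_not hs hn] at r
        have := K.ar_rk _ _ k
        rw [K.rk_smul] at this
        have := F.rk_yT
        omega
    obtain ⟨rfl, hyb⟩ := ea
    have hay : K.ar (h • F.a) F.y := by
      have := K.ar_smul h _ _ F.ay
      rwa [g1] at this
    have hyb' : K.ar F.y (h • F.b) := by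
      have := K.ar_smul h _ _ hyb
      rwa [g1] at this
    have haT : K.ar (h • F.T) (h • F.a) := K.ar_smul h _ _ F.top.2.1
    have hcy := F.cor_y h
    rw [g1] at hcy
    have eT : F.f hs (h • F.T) = F.f hs F.y := by rw [F.f_Ty hs h, g1]
    refine ⟨h • F.a, h • F.a, h • F.b, F.out_T_ne haT, hay, ?_, hay, hyb', hcy,
      Relation.EqvGen.refl _, self _ (F.Nd_T hs g1 hk.cor.E1 k2), rfl⟩
    rcases hk.cor.E1 with k | k
    · rcases hs.sides (F.top.smul h) k with e | e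
      · rw [e]
        exact Relation.EqvGen.refl _
      · exfalso
        rw [e] at k2
        exact F.ar_asymW hs k2 k3
    · obtain ⟨z, z1, z2, z3⟩ := hs.os hm hx lc k haT
      have j1 := F.ijT hs h1 (pc_ij16 z1)
      rw [eT] at j1
      have j2 := (F.kc_in hs h1 z3 z2).cor'
      have j3 := F.ar_f hs (F.in_T_ne z2) z2
      have j4 := F.ar_f hs (F.out_T_ne haT) hay
      rw [eT] at j2 j3
      exact j1.trans' (Relation.EqvGen.rel _ _ ⟨j2, j3, j4⟩)

/-- A SELF PIECE OF THE FOLD COMES FROM A SELF PIECE -/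
theorem dn (h1 : F.NoOne hs) (hm : K.Min) (hx : ∀ p ∈ P.TA, 1 ≤ P.X p.1 p.2)
    (lc : ∀ v, K.LC v) (hs' : (F.P' hs).SqT) (hm' : (F.gx hs).Min)
    (hx' : ∀ p ∈ (F.P' hs).TA, 1 ≤ (F.P' hs).X p.1 p.2) {c n α : F.W hs} {g : H}
    (hg : g • c = c) (k1 : (F.gx hs).Cor n c α) (k2 : (F.gx hs).ar n c)
    (k3 : (F.gx hs).ar c α) (k4 : (F.gx hs).IJ c n (g • n)) :
    ∃ u n1 α1, (∀ h : H, u ≠ h • F.T) ∧ K.ar u c.1 ∧ (F.gx hs).IJ c n (F.f hs u) ∧
      K.ar n1 c.1 ∧ K.ar c.1 α1 ∧ K.Cor n1 c.1 α1 ∧ K.IJ c.1 u n1 ∧ K.IJ c.1 u (g • u) ∧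
      F.f hs α1 = α := by
  by_cases hc : ∀ g : H, c.1 ≠ g • F.y
  · obtain ⟨n1, α1, a1, a2, a3, a4, a5⟩ := F.str_down hs hc k1 k2 k3
    obtain ⟨x, hx, ex⟩ := id k2
    have ex' := F.eq_of_f hs hc ex
    subst ex'
    refine ⟨n.1, n1, α1, F.coe_ne hs n, hx, ?_, a1, a2, a3, a4, F.ij_down hs hc k4, a5⟩
    rw [F.f_coe]
    exact Relation.EqvGen.refl _
  · push Not at hc
    obtain ⟨g0, e0⟩ := hc
    have ec : c = g0 • F.f hs F.y := by
      apply Subtype.ext
      show c.1 = g0 • (F.f hs F.y).1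
      rw [F.f_y1, e0]
    have ei : g0⁻¹ • c = F.f hs F.y := by rw [ec, inv_smul_smul]
    have hg' : (g0⁻¹ * g * g0) • F.y = F.y := by
      have : g • c.1 = c.1 := congrArg Subtype.val hg
      rw [e0] at this
      rw [mul_smul, mul_smul, this, inv_smul_smul]
    have l1 := k1.smul g0⁻¹
    have l2 := (F.gx hs).ar_smul g0⁻¹ _ _ k2
    have l3 := (F.gx hs).ar_smul g0⁻¹ _ _ k3
    have l4 := k4.smul g0⁻¹
    rw [ei] at l1 l2 l3 l4
    have e4 : g0⁻¹ • g • n = (g0⁻¹ * g * g0) • g0⁻¹ • n := by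
      rw [mul_smul, mul_smul, smul_inv_smul]
    rw [e4] at l4
    obtain ⟨u, n1, α1, a0, a1, a2, a3, a4, a5, a6, a7, a8⟩ :=
      F.dn_y hs h1 hm hx lc hs' hm' hx' hg' l1 l2 l3 l4
    have b1 := K.ar_smul g0 _ _ a1
    have b2 := a2.smul g0
    have b3 := K.ar_smul g0 _ _ a3
    have b4 := K.ar_smul g0 _ _ a4
    have b5 := a5.smul g0
    have b6 := a6.smul g0
    have b7 := a7.smul g0
    rw [← ec, smul_inv_smul, ← F.f_smul] at b2
    rw [← e0] at b1 b3 b4 b5 b6 b7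
    refine ⟨g0 • u, g0 • n1, g0 • α1, ?_, b1, b2, b3, b4, b5, b6, ?_, ?_⟩
    · intro h e
      apply a0 (g0⁻¹ * h)
      rw [mul_smul, ← e, inv_smul_smul]
    · rwa [mul_smul, mul_smul, smul_inv_smul] at b7
    · rw [F.f_smul, a8, smul_inv_smul]

/-- THE NUMBER OF THE SELF PIECES OF FAT SOFTS DOES NOT GROW -/
theorem nN_le (h1 : F.NoOne hs) (hm : K.Min) (hx : ∀ p ∈ P.TA, 1 ≤ P.X p.1 p.2)
    (lc : ∀ v, K.LC v) (hs' : (F.P' hs).SqT) (hm' : (F.gx hs).Min)
    (hx' : ∀ p ∈ (F.P' hs).TA, 1 ≤ (F.P' hs).X p.1 p.2)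
    (hfat : ∀ c : F.W hs, (F.P' hs).fat c → P.fat c.1) (nd : P.ND) (nd' : (F.P' hs).ND) :
    ((F.P' hs).fc nd').nN ≤ (P.fc nd).nN := by
  rw [P.nN_eq nd, (F.P' hs).nN_eq nd']
  refine SAF.oc_le_of_rel (P.fin_sN nd) (fun t' t => ∃ (c : F.W hs) (u : V),
    (∀ h : H, u ≠ h • F.T) ∧ K.ar u c.1 ∧ t' = PN.pol c c ((F.gx hs).Pc c (F.f hs u)) ∧
    t = PN.pol c.1 c.1 (K.Pc c.1 u)) ?_ ?_
  · rintro t' ⟨c, n, α, g, rfl, k0, k2, k3, k1, hg, k4, k5⟩
    obtain ⟨u, n1, α1, a0, a1, a2, a3, a4, a5, a6, a7, a8⟩ :=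
      F.dn hs h1 hm hx lc hs' hm' hx' hg k1 k2 k3 k4
    have hg1 : g • c.1 = c.1 := congrArg Subtype.val hg
    refine ⟨PN.pol c.1 c.1 (K.Pc c.1 u), ⟨c.1, n1, α1, g, ?_, hfat c k0, a3, a4, a5, hg1, ?_,
      ?_⟩, c, u, a0, a1, ?_, rfl⟩
    · rw [GX.Pc_eq.2 a6]
    · have := a6.smul g
      rw [hg1] at this
      exact (a6.symm'.trans' a7).trans' this
    · intro e
      apply k5
      rw [← a8, ← F.f_smul, e]
    · rw [GX.Pc_eq.2 a2]
  · rintro _ - _ - _ - _ - ⟨c, u, a0, a1, rfl, rfl⟩ ⟨c', u', b0, b1, rfl, rfl⟩ ⟨h, hh⟩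
    rw [PN.smul_pol, GX.Pc_smul] at hh
    obtain ⟨e1, -, e3⟩ := PN.pol.inj hh
    rw [e1] at e3
    have ec : h • c = c' := Subtype.ext e1
    have hu : ∀ k : H, h • u ≠ k • F.T := by
      intro k e
      apply a0 (h⁻¹ * k)
      rw [mul_smul, ← e, inv_smul_smul]
    obtain ⟨s, s1, s2⟩ := F.ij_up hs h1 hm hx lc hu b0 (GX.Pc_eq.1 e3)
    refine ⟨s * h, ?_⟩
    rw [PN.smul_pol, GX.Pc_smul, mul_smul, mul_smul, ec, s1, ← F.f_smul, GX.Pc_eq.2 s2]


end P45.SfD

end Pool.Agent.DI
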