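import Pool.Agent.DI.SfL
import Pool.Agent.DI.SfB
import Pool.Agent.DI.NT
import Pool.Agent.DI.OSt

/-!
# DI/SfN0: kept corners and pieces of the static fold of one thin top (owner: helper16)

`F : P.SfD`. `F.KC hs n c m`: a corner of a pentagon, or of a square which is not an own square of the folded
orbit. `F.kc_or`: every other corner is an own corner. `F.ku`: `X = 1` at the arrows of `F.T`: two kept
corners at an arrow of `F.T` are in one orbit.
-/

namespace Pool.Agent.DI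

open MulAction
open Pool.Agent.SAF (InC SA orbs FinOrb oc)

namespace P45

variable {H V : Type} [Group H] [MulAction H V] {K : GX H V} (P : P45 K)

/-- a flag of a pentagon with a given corner -/
theorem Qn_fl16 {P : P45 K} (nd : P.ND) {a q b y z : V} (h : Qn P a q b y z) :
    ∃ f : FL K, ¬ (P.fc nd).sq f ∧ (P.fc nd).x f = a ∧ (P.fc nd).y f = q ∧ (P.fc nd).z f = b := by
  obtain ⟨g, i, j, hi, ⟨rfl, rfl, rfl, -⟩ | ⟨rfl, rfl, rfl, -⟩⟩ := h
  · refine ⟨(P.l5 i hi j g, true), hi, ?_, P.c1_5 i hi j g, ?_⟩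
    · rw [P.fc_x, c0_5]
    · rw [P.fc_z, c2_5]
  · refine ⟨(P.l5 i hi j g, false), hi, ?_, P.c1_5 i hi j g, ?_⟩
    · rw [P.fc_x', c2_5]
    · rw [P.fc_z', c0_5]

end P45

namespace P45.SfD

variable {H V : Type} [Group H] [MulAction H V] {K : GX H V} {P : P45 K} (F : P.SfD) (hs : P.SqT)

/-- a kept corner -/
def KC (n c m : V) : Prop := (∃ u v, Qn P n c m u v) ∨
  ∃ q, Q4 P n c m q ∧ F.f hs n ≠ F.f hs m ∧ F.f hs c ≠ F.f hs q

variable {F hs}

theorem KC.symm {n c m : V} (h : F.KC hs n c m) : F.KC hs m c n := by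
  rcases h with ⟨u, v, h⟩ | ⟨q, h, h1, h2⟩
  · exact Or.inl ⟨_, _, h.symm⟩
  · exact Or.inr ⟨q, h.symm, h1.symm, h2⟩

theorem KC.smul (g : H) {n c m : V} (h : F.KC hs n c m) : F.KC hs (g • n) (g • c) (g • m) := by
  rcases h with ⟨u, v, h⟩ | ⟨q, h, h1, h2⟩
  · exact Or.inl ⟨_, _, h.smul g⟩
  · refine Or.inr ⟨g • q, h.smul g, ?_, ?_⟩
    · rw [F.f_smul, F.f_smul]
      exact fun k => h1 (smul_left_cancel g k)
    · rw [F.f_smul, F.f_smul]
      exact fun k => h2 (smul_left_cancel g k)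

theorem KC.cor {n c m : V} (h : F.KC hs n c m) : K.Cor n c m := by
  rcases h with ⟨u, v, h⟩ | ⟨q, h, h1, h2⟩
  · exact P.cor_iff.2 (Or.inl ⟨_, _, h⟩)
  · exact P.cor_iff.2 (Or.inr ⟨_, h⟩)

theorem KC.cor' {n c m : V} (h : F.KC hs n c m) :
    (F.gx hs).Cor (F.f hs n) (F.f hs c) (F.f hs m) := by
  rcases h with ⟨u, v, h⟩ | ⟨q, h, h1, h2⟩
  · exact F.cor5 hs h
  · exact F.cor4 hs h h1 h2

variable (F hs)

/-- the corners of the fold -/
theorem cor_up {n c m : F.W hs} (h : (F.gx hs).Cor n c m) : ∃ n0 c0 m0, F.KC hs n0 c0 m0 ∧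
    F.f hs n0 = n ∧ F.f hs c0 = c ∧ F.f hs m0 = m := by
  rcases (F.P' hs).cor_iff.1 h with ⟨u, v, h⟩ | ⟨q, h⟩
  · obtain ⟨a', q', b', y', z', h, e1, e2, e3, -⟩ := ((F.D hs).flat.Qn_iff P).1 h
    exact ⟨_, _, _, Or.inl ⟨_, _, h⟩, e1, e2, e3⟩
  · obtain ⟨a', q', b', y', h, e1, e2, e3, e4, h1, h2⟩ := ((F.D hs).flat.Q4_iff P).1 h
    have e1 : F.f hs a' = n := e1
    have e2 : F.f hs q' = c := e2
    have e3 : F.f hs b' = m := e3
    have e4 : F.f hs y' = q := e4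
    refine ⟨a', q', b', Or.inr ⟨y', h, ?_, ?_⟩, e1, e2, e3⟩
    · rw [e1, e3]
      exact h1
    · rw [e2, e4]
      exact h2

/-! ### the own square -/

theorem rk_yT : K.rk F.y < K.rk F.T := (K.ar_rk _ _ F.ay).trans (K.ar_rk _ _ F.top.2.1)

theorem f_Ty1 (g : H) {x : V} (e : x = g • F.T) : F.f hs x = F.f hs (g • F.y) := by
  rw [e]
  exact F.f_Ty hs g

include hs in
/-- the vertices `y`, `T` are not adjacent -/
theorem not_E_yT (g h : H) : ¬ K.E (g • F.y) (h • F.T) := by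
  rintro (k | k)
  · have := K.ar_rk _ _ k
    rw [K.rk_smul, K.rk_smul] at this
    have := F.rk_yT
    omega
  · rcases hs.sides (F.top.smul h) k with e | e
    · have h1 := congrArg K.rk e
      rw [K.rk_smul, K.rk_smul] at h1
      have h2 := K.ar_rk _ _ F.ay
      omega
    · have h1 := congrArg K.rk e
      rw [K.rk_smul, K.rk_smul] at h1
      rcases F.top.Eb with h2 | h2
      · have := K.ar_rk _ _ h2
        omega
      · have := K.ar_rk _ _ h2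
        omega

theorem ar_f {x z : V} (hx : ∀ h : H, x ≠ h • F.T) (e : K.ar x z) :
    (F.gx hs).ar (F.f hs x) (F.f hs z) := by
  refine ⟨z, ?_, rfl⟩
  show K.ar (F.f hs x).1 z
  rw [F.f_not hs hx]
  exact e

theorem ne_T_of_rk {x : V} (h : K.rk x ≠ K.rk F.T) : ∀ g : H, x ≠ g • F.T := by
  rintro g rfl
  exact h (K.rk_smul g _)

theorem y_ne_T (g h : H) : g • F.y ≠ h • F.T := by
  intro e
  have := congrArg K.rk e
  rw [K.rk_smul, K.rk_smul] at this
  have := F.rk_yT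
  omega

theorem f_y (g : H) : (F.f hs (g • F.y)).1 = g • F.y := F.f_not hs fun h => F.y_ne_T g h

/-- a corner is kept or own -/
theorem kc_or (h1 : F.NoOne hs) {n c m : V} (h : K.Cor n c m) : F.KC hs n c m ∨ ∃ g : H,
    (((n = g • F.T ∧ m = g • F.y) ∨ (n = g • F.y ∧ m = g • F.T)) ∧
      (c = g • F.a ∨ c = g • F.b)) ∨
    ((c = g • F.T ∨ c = g • F.y) ∧
      ((n = g • F.a ∧ m = g • F.b) ∨ (n = g • F.b ∧ m = g • F.a))) := by
  rcases P.cor_iff.1 h with ⟨u, v, h⟩ | ⟨q, h⟩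
  · exact Or.inl (Or.inl ⟨u, v, h⟩)
  by_cases e1 : F.f hs n = F.f hs m
  · right
    rcases hs.q4 h with t | t | t | t
    · obtain ⟨g, rfl⟩ := F.own hs t e1
      have t0 := F.top.smul g
      exact ⟨g, Or.inl ⟨Or.inl ⟨rfl, hs.partner t t0⟩, hs.sides t0 t.2.2⟩⟩
    · exact absurd e1 (h1 _ _ _ _ t)
    · obtain ⟨g, rfl⟩ := F.own hs t e1.symm
      have t0 := F.top.smul g
      exact ⟨g, Or.inl ⟨Or.inr ⟨hs.partner t t0, rfl⟩, hs.sides t0 t.2.1⟩⟩
    · exact absurd e1.symm (h1 _ _ _ _ t)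
  by_cases e2 : F.f hs c = F.f hs q
  · right
    have key : ∀ g : H, n ≠ m → K.ar (g • F.T) n → K.ar (g • F.T) m →
        (n = g • F.a ∧ m = g • F.b) ∨ (n = g • F.b ∧ m = g • F.a) := by
      intro g hne k1 k2
      have t0 := F.top.smul g
      rcases hs.sides t0 k1 with l1 | l1 <;> rcases hs.sides t0 k2 with l2 | l2
      · exact absurd (l1.trans l2.symm) hne
      · exact Or.inl ⟨l1, l2⟩
      · exact Or.inr ⟨l1, l2⟩
      · exact absurd (l1.trans l2.symm) hne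
    have hne : n ≠ m := fun e => e1 (by rw [e])
    rcases hs.q4 h with t | t | t | t
    · exact absurd e2.symm (h1 _ _ _ _ t)
    · obtain ⟨g, rfl⟩ := F.own hs t e2
      exact ⟨g, Or.inr ⟨Or.inl rfl, key g hne t.2.1 t.2.2⟩⟩
    · exact absurd e2 (h1 _ _ _ _ t)
    · obtain ⟨g, rfl⟩ := F.own hs t e2.symm
      exact ⟨g, Or.inr ⟨Or.inr (hs.partner t (F.top.smul g)), key g hne t.2.2 t.2.1⟩⟩
  exact Or.inl (Or.inr ⟨q, h, e1, e2⟩)

/-- corners of an own square -/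
theorem cor_b (g : H) : K.Cor (g • F.T) (g • F.b) (g • F.y) :=
  P.cor_iff.2 (Or.inr ⟨_, (F.top.1.smul g).rot⟩)

theorem cor_a (g : H) : K.Cor (g • F.T) (g • F.a) (g • F.y) :=
  P.cor_iff.2 (Or.inr ⟨_, (F.top.1.symm.smul g).rot⟩)

theorem cor_y (g : H) : K.Cor (g • F.a) (g • F.y) (g • F.b) :=
  P.cor_iff.2 (Or.inr ⟨_, (F.top.1.smul g).rot.rot.symm⟩)

/-- a corner with an in-arrow at a folded top is kept -/
theorem kc_in (h1 : F.NoOne hs) {n m : V} {g : H} (h : K.Cor n (g • F.T) m)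
    (hn : K.ar n (g • F.T)) : F.KC hs n (g • F.T) m := by
  rcases F.kc_or hs h1 h with k | ⟨g', ⟨-, e⟩ | ⟨e, e'⟩⟩
  · exact k
  · exfalso
    have r : K.rk F.T = K.rk F.a ∨ K.rk F.T = K.rk F.b := by
      rcases e with e | e
      · left
        have := congrArg K.rk e
        rwa [K.rk_smul, K.rk_smul] at this
      · right
        have := congrArg K.rk e
        rwa [K.rk_smul, K.rk_smul] at this
    have r1 := K.ar_rk _ _ F.top.2.1
    have r2 := K.ar_rk _ _ F.top.2.2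
    omega
  · exfalso
    rcases e with e | e
    · have r0 := K.ar_rk _ _ hn
      have r1 := K.ar_rk _ _ F.top.2.1
      have r2 := K.ar_rk _ _ F.top.2.2
      rw [K.rk_smul] at r0
      rcases e' with ⟨rfl, -⟩ | ⟨rfl, -⟩
      · rw [K.rk_smul] at r0
        omega
      · rw [K.rk_smul] at r0
        omega
    · exact F.y_ne_T g' g e.symm

/-! ### one strand at the arrows of `T` -/

theorem kc_flag (nd : P.ND) {p z : V} (k : F.KC hs F.T p z) : ∃ e : FL K, (P.fc nd).y e = F.T ∧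
    (P.fc nd).z e = p ∧ (P.fc nd).z ((P.fc nd).r e) = z ∧ ¬ (P.fc nd).Ow e := by
  rcases k with ⟨u, v, h⟩ | ⟨q, h, h1, h2⟩
  · obtain ⟨e0, s0, x0, y0, z0⟩ := Qn_fl16 nd h
    refine ⟨(P.fc nd).v ((P.fc nd).r ((P.fc nd).v e0)), ?_, ?_, ?_, ?_⟩
    · rw [FC.yv]
      exact x0
    · show (P.fc nd).y ((P.fc nd).r _) = p
      rw [FC.r_inv]
      exact y0
    · rw [FC.r_inv]
      exact z0
    · rintro ⟨hsq, -⟩
      apply s0
      rw [FC.sq_v, FC.sq_r, FC.sq_v] at hsq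
      exact hsq
  · obtain ⟨e, h3, h4, h5, h6, h7⟩ := P.Q4_fl50 nd h.rot.rot.rot
    refine ⟨e, h5, h6, h7, ?_⟩
    rintro ⟨-, k1, k2⟩
    rw [h5, h4] at k1
    rw [h5, h6] at k2
    have t : P.Top F.T q p z := ⟨h.rot.rot.rot, k1, k2⟩
    apply h1
    rw [hs.partner t F.top]
    have := F.f_Ty hs 1
    rwa [one_smul, one_smul] at this

include hs in
theorem not_fat (nd : P.ND) : ¬ (P.fc nd).Fat F.T := by
  rw [P.fat_iff nd]
  rintro ⟨a', h1, h2⟩
  rcases hs.sides F.top h1 with rfl | rfl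
  · rw [F.xa] at h2
    omega
  · rw [F.xb] at h2
    omega

theorem ku1 {p z1 z2 : V} (hp : K.ar F.T p) (k1 : F.KC hs F.T p z1) (k2 : F.KC hs F.T p z2) :
    ∃ s : H, s • F.T = F.T ∧ s • p = p ∧ s • z1 = z2 := by
  have nd : P.ND := hs.nd52
  obtain ⟨e1, a1, a2, a3, a4⟩ := F.kc_flag hs nd k1
  obtain ⟨e2, b1, b2, b3, b4⟩ := F.kc_flag hs nd k2
  by_contra hne
  apply F.not_fat hs nd
  refine ⟨e1, e2, a1, b1, by rw [a2]; exact hp, by rw [a2, b2], a4, b4, ?_⟩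
  intro h hh
  apply hne
  refine ⟨h, ?_, ?_, ?_⟩
  · have := hh.yy
    rwa [FC.y_smul, a1, b1] at this
  · have := hh.zz
    rwa [FC.z_smul, a2, b2] at this
  · rcases hh with e | ⟨-, -, -, -, -, e⟩
    · have := congrArg (fun e => (P.fc nd).z ((P.fc nd).r e)) e
      have this : (P.fc nd).z ((P.fc nd).r (h • e1)) = (P.fc nd).z ((P.fc nd).r e2) := this
      rwa [FC.r_smul, FC.z_smul, a3, b3] at this
    · rwa [FC.r_smul, FC.z_smul, a3, b3] at e

/-- TWO KEPT CORNERS AT AN ARROW OF A FOLDED TOP ARE IN ONE ORBIT -/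
theorem ku {g : H} {p z1 z2 : V} (hp : K.ar (g • F.T) p) (k1 : F.KC hs (g • F.T) p z1)
    (k2 : F.KC hs (g • F.T) p z2) : ∃ s : H, s • g • F.T = g • F.T ∧ s • p = p ∧ s • z1 = z2 := by
  have a1 := K.ar_smul g⁻¹ _ _ hp
  have a2 := k1.smul g⁻¹
  have a3 := k2.smul g⁻¹
  rw [inv_smul_smul] at a1 a2 a3
  obtain ⟨s, h1, h2, h3⟩ := F.ku1 hs a1 a2 a3
  refine ⟨g * s * g⁻¹, ?_, ?_, ?_⟩
  · rw [mul_smul, mul_smul, inv_smul_smul, h1]
  · rw [mul_smul, mul_smul, h2, smul_inv_smul]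
  · rw [mul_smul, mul_smul, h3, smul_inv_smul]

/-- there is a kept corner at the arrow `T → a` -/
theorem kc_ex (h1 : F.NoOne hs) : ∃ m, F.KC hs m F.T F.a := by
  rcases P45.hw_strand (T := F.T) (a := F.a) (by rw [F.xa]) with ⟨n, u, v, h⟩ | ⟨n, q, h, hn⟩
  · exact ⟨n, Or.inl ⟨u, v, h⟩⟩
  · have k := F.kc_in hs h1 (g := 1) (n := n) (m := F.a) (by
      rw [one_smul]
      exact P.cor_iff.2 (Or.inr ⟨q, h⟩)) (by rwa [one_smul])
    rw [one_smul] at k
    exact ⟨n, k⟩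

end P45.SfD

end Pool.Agent.DI
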