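import Pool.Agent.DI.SfL
import Pool.Agent.DI.NX
import Pool.Agent.DI.XtB
import Pool.Agent.DI.ExcT
import Pool.Agent.DI.Isl
import Pool.Agent.DI.OSt
import Pool.Agent.DI.FCu

/-!
# DI/SfP: `P_4` and `P_5` of the static fold of a thin top (owner: helper64)

`F : P.SfD` (73), `F.gx hs = K / (T ~ y)`. `cor_map`: every corner of `K` is a corner of the fold or one of
the corners of the walks of `g T`. `one_orb`: the other corners at an arrow `T → s` are one orbit.
THEOREM `p4_le`, `p5_le`: `p_4` and `p_5` do not rise.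
Hypotheses: `K.Min`, `P.Cls`, links of `K` and of the fold connected, the fold is a complex of a bad group, tops
finite, finite sinks in no square, `hone`: no vertex over `T` gets one pole (52's lemma).
-/

namespace Pool.Agent.DI

open MulAction
open Pool.Agent.SAF (InC SA orbs FinOrb oc)
open Pool.Agent.SAG (IO Zt)

variable {H V : Type} [Group H] [MulAction H V] {K : GX H V}

/-- an edge at a vertex of a cell with connected link lies in a cell -/
theorem GX.ec_of_lc {v x : V} (hL : K.LC v) (hv : K.VC v) (hx : K.E v x) : K.EC x v := by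
  obtain ⟨z, hz⟩ := hv
  have hzE : K.E v z := hz.E
  obtain ⟨c, hc⟩ := GX.EC_iff.1 hz.symm
  have key : ∀ x y, K.LJ v x y → x = y ∨ ((∃ z, K.Cor x v z) ∧ ∃ z, K.Cor y v z) := by
    intro x y k
    induction k with
    | rel x y k => exact Or.inr ⟨⟨y, k⟩, ⟨x, k.symm⟩⟩
    | refl x => exact Or.inl rfl
    | symm x y _ ih =>
      rcases ih with e | e
      · exact Or.inl e.symm
      · exact Or.inr ⟨e.2, e.1⟩
    | trans x y z _ _ i1 i2 =>
      rcases i1 with rfl | i1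
      · exact i2
      · rcases i2 with rfl | i2
        · exact Or.inr i1
        · exact Or.inr ⟨i1.1, i2.2⟩
  rcases key x z (hL x z hx hzE) with rfl | k
  · exact hz.symm
  · exact GX.EC_iff.2 k.1

theorem P45.corP (P : P45 K) {n s m : V} (h : K.Cor n s m) :
    (∃ y z, Qn P n s m y z) ∨ ∃ y, Q4 P n s m y := by
  have key : ∀ e : K.LE, (∃ y z, Qn P (K.c0 e) (K.c1 e) (K.c2 e) y z) ∨
      ∃ y, Q4 P (K.c0 e) (K.c1 e) (K.c2 e) y := by
    intro e
    by_cases hi : P.sq e.1.1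
    · right
      have hl := P.ln4 hi
      have hj : e.1.2.1 % 4 < 4 := Nat.mod_lt _ (by norm_num)
      let j : Fin 4 := ⟨e.1.2.1 % 4, hj⟩
      refine ⟨K.vk e 3, e.2, e.1.1, j, hi, Or.inl ⟨?_, ?_, ?_, ?_⟩⟩
      · exact P45.vk4 hi 0 j rfl
      · refine P45.vk4 hi 1 (j + 1) ?_
        show (e.1.2.1 + 1) % 4 = (e.1.2.1 % 4 + 1) % 4
        omega
      · refine P45.vk4 hi 2 (j + 2) ?_
        show (e.1.2.1 + 2) % 4 = (e.1.2.1 % 4 + 2) % 4
        omega
      · refine P45.vk4 hi 3 (j + 3) ?_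
        show (e.1.2.1 + 3) % 4 = (e.1.2.1 % 4 + 3) % 4
        omega
    · left
      have hj : e.1.2.1 % 5 < 5 := Nat.mod_lt _ (by norm_num)
      let j : Fin 5 := ⟨e.1.2.1 % 5, hj⟩
      refine ⟨K.vk e 3, K.vk e 4, e.2, e.1.1, j, hi, Or.inl ⟨?_, ?_, ?_, ?_, ?_⟩⟩
      · exact P45.vk5 hi 0 j rfl
      · refine P45.vk5 hi 1 (j + 1) ?_
        show (e.1.2.1 + 1) % 5 = (e.1.2.1 % 5 + 1) % 5
        omega
      · refine P45.vk5 hi 2 (j + 2) ?_
        show (e.1.2.1 + 2) % 5 = (e.1.2.1 % 5 + 2) % 5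
        omega
      · refine P45.vk5 hi 3 (j + 3) ?_
        show (e.1.2.1 + 3) % 5 = (e.1.2.1 % 5 + 3) % 5
        omega
      · refine P45.vk5 hi 4 (j + 4) ?_
        show (e.1.2.1 + 4) % 5 = (e.1.2.1 % 5 + 4) % 5
        omega
  obtain ⟨e, ⟨rfl, rfl, rfl⟩ | ⟨rfl, rfl, rfl⟩⟩ := K.cor_LE.1 h
  · exact key e
  · rcases key e with ⟨y, z, hq⟩ | ⟨y, hq⟩
    · exact Or.inl ⟨z, y, hq.symm⟩
    · exact Or.inr ⟨y, hq.symm⟩

namespace P45.SfD

variable {P : P45 K} (F : P.SfD) (hs : P.SqT)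

variable {F hs}

theorem rky : K.rk F.y < K.rk F.T := (K.ar_rk _ _ F.ay).trans (K.ar_rk _ _ F.top.2.1)

theorem rkg (g h : H) : K.rk (g • F.y) < K.rk (h • F.T) := by
  rw [K.rk_smul, K.rk_smul]
  exact F.rky

theorem fgy (g : H) : (F.f hs (g • F.y)).1 = g • F.y := by
  refine F.f_not hs ?_
  intro h e
  have := F.rkg g h
  rw [e] at this
  exact lt_irrefl _ this

/-- poles of `g T` -/
theorem pol {g : H} {c : V} (h : K.ar (g • F.T) c) (hs : P.SqT) : c = g • F.a ∨ c = g • F.b := by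
  have h1 := K.ar_smul g⁻¹ _ _ h
  rw [inv_smul_smul] at h1
  rcases hs.sides F.top h1 with e | e
  · exact Or.inl (inv_smul_eq_iff.1 e)
  · exact Or.inr (inv_smul_eq_iff.1 e)

theorem arE {g : H} {c : V} (h : K.ar (g • F.T) c) (hs : P.SqT) : K.E (g • F.y) c := by
  rcases F.pol h hs with rfl | rfl
  · exact K.E_smul g F.top.Ea.symm
  · exact K.E_smul g F.top.Eb.symm

/-- the squares which are dropped are the walks of the tops `g T` -/
theorem opp1 (h1 : F.NoOne hs) {p s q r : V} (h : Q4 P p s q r) {g : H} (e1 : s = g • F.T)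
    (e2 : r = g • F.y) : K.ar (g • F.T) p ∧ K.ar (g • F.T) q := by
  subst e1
  subst e2
  rcases hs.exists_top h with k | k | k | k
  · exact ⟨k.2.1, k.2.2⟩
  · exact (h1 _ _ _ _ k (F.f_Ty hs g)).elim
  · exfalso
    rcases hs.side _ _ _ _ k with l | l | l
    · exact l
    · have a1 := K.ar_rk _ _ l
      have a2 := K.ar_rk _ _ k.2.1
      have := F.rkg g g
      omega
    · have a1 := K.ar_rk _ _ l
      have a2 := K.ar_rk _ _ k.2.2
      have := F.rkg g g
      omega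
  · exact (h1 _ _ _ _ k (F.f_Ty hs g).symm).elim

theorem opp (h1 : F.NoOne hs) {p s q r : V} (h : Q4 P p s q r) (e : F.f hs s = F.f hs r) :
    ∃ g : H, (s = g • F.T ∧ r = g • F.y ∨ s = g • F.y ∧ r = g • F.T) ∧ K.ar (g • F.T) p ∧
      K.ar (g • F.T) q := by
  have hne : s ≠ r := by
    rcases hs.exists_top h with k | k | k | k
    · exact hs.nTy _ _ _ _ k
    · exact hs.nab _ _ _ _ k
    · exact (hs.nTy _ _ _ _ k).symm
    · exact (hs.nab _ _ _ _ k).symm
  rcases F.f_cases hs s with es | ⟨g, es, es'⟩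
  · rcases F.f_cases hs r with er | ⟨k, er, er'⟩
    · exact absurd (es.symm.trans ((congrArg Subtype.val e).trans er)) hne
    · have e3 : s = k • F.y := by rw [← es, e, er']
      obtain ⟨l1, l2⟩ := F.opp1 h1 h.rot.rot er e3
      exact ⟨k, Or.inr ⟨e3, er⟩, l2, l1⟩
  · rcases F.f_cases hs r with er | ⟨k, er, er'⟩
    · have e3 : r = g • F.y := by rw [← er, ← e, es']
      obtain ⟨l1, l2⟩ := F.opp1 h1 h es e3
      exact ⟨g, Or.inl ⟨es, e3⟩, l1, l2⟩
    · exfalso
      subst es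
      subst er
      have hr : K.rk (g • F.T) = K.rk (k • F.T) := by rw [K.rk_smul, K.rk_smul]
      rcases hs.exists_top h with m | m | m | m
      · rcases hs.side _ _ _ _ m with l | l | l
        · exact l
        · have a1 := K.ar_rk _ _ l
          have a2 := K.ar_rk _ _ m.2.1
          omega
        · have a1 := K.ar_rk _ _ l
          have a2 := K.ar_rk _ _ m.2.2
          omega
      · exact h1 _ _ _ _ m e
      · rcases hs.side _ _ _ _ m with l | l | l
        · exact l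
        · have a1 := K.ar_rk _ _ l
          have a2 := K.ar_rk _ _ m.2.1
          omega
        · have a1 := K.ar_rk _ _ l
          have a2 := K.ar_rk _ _ m.2.2
          omega
      · exact h1 _ _ _ _ m e.symm

/-- the corners of the walks of the tops `g T` -/
def Ow4 (F : P.SfD) (p s q : V) : Prop := ∃ g : H,
  ((s = g • F.T ∨ s = g • F.y) ∧ K.ar (g • F.T) p ∧ K.ar (g • F.T) q) ∨
  (((p = g • F.T ∧ q = g • F.y) ∨ (p = g • F.y ∧ q = g • F.T)) ∧ K.ar (g • F.T) s)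

/-- CORNERS ARE CORNERS OF THE FOLD OR CORNERS OF THE DROPPED WALKS -/
theorem cor_map (h1 : F.NoOne hs) {p s q : V} (h : K.Cor p s q) :
    (F.gx hs).Cor (F.f hs p) (F.f hs s) (F.f hs q) ∨ F.Ow4 p s q := by
  rcases P.corP h with ⟨y, z, hq⟩ | ⟨r, hq⟩
  · left
    have k : Qn (F.P' hs) (F.f hs p) (F.f hs s) (F.f hs q) (F.f hs y) (F.f hs z) :=
      ((F.D hs).flat.Qn_iff P).2 ⟨p, s, q, y, z, hq, rfl, rfl, rfl, rfl, rfl⟩
    exact k.rot.cor.symm
  · by_cases e1 : F.f hs s = F.f hs r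
    · right
      obtain ⟨g, k1, k2, k3⟩ := F.opp h1 hq e1
      exact ⟨g, Or.inl ⟨k1.imp And.left And.left, k2, k3⟩⟩
    · by_cases e2 : F.f hs p = F.f hs q
      · right
        obtain ⟨g, k1, k2, k3⟩ := F.opp h1 hq.rot e2.symm
        exact ⟨g, Or.inr ⟨k1.symm.imp (fun k => ⟨k.2, k.1⟩) (fun k => ⟨k.2, k.1⟩), k2⟩⟩
      · left
        have k : Q4 (F.P' hs) (F.f hs p) (F.f hs s) (F.f hs q) (F.f hs r) :=
          ((F.D hs).flat.Q4_iff P).2 ⟨p, s, q, r, hq, rfl, rfl, rfl, rfl, e2, e1⟩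
        exact k.rot.cor.symm

theorem val_ne {x : V} (h : K.rk x ≠ K.rk F.T) : (F.f hs x).1 = x := by
  refine F.f_not hs ?_
  rintro g rfl
  exact h (K.rk_smul _ _)

/-- corners of the fold do not backtrack -/
theorem nbL (hm : K.Min) {p s q : F.W hs} (h : (F.gx hs).Cor p s q) : p ≠ q := by
  have hm' : (F.gx hs).Min := (F.D hs).toF.min hm
  have nd' : (F.P' hs).ND := by
    intro i hi
    have h0 := (F.D hs).flat.opp_ne P (i := i.1) hi i.2 0
    have h1 := (F.D hs).flat.opp_ne P (i := i.1) hi i.2 1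
    exact ⟨h0, h1⟩
  obtain ⟨f, rfl, -, rfl⟩ := ((F.P' hs).fc_Co nd').2 h
  exact (F.P' hs).min_nb hm' nd' f

/-- a pass of a pentagon -/
theorem _root_.Pool.Agent.DI.P45.rpQ {c d : V} {f : FL K} (hf : f ∈ P.RP)
    (ef : (fy f, fz f) = (c, d)) : ∃ n z u, Qn P n c d z u := by
  obtain ⟨h1, -⟩ := hf
  obtain ⟨e, b⟩ := f
  have key : ∃ y z, Qn P (K.c0 e) (K.c1 e) (K.c2 e) y z := by
    have hj : e.1.2.1 % 5 < 5 := Nat.mod_lt _ (by norm_num)
    let j : Fin 5 := ⟨e.1.2.1 % 5, hj⟩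
    refine ⟨K.vk e 3, K.vk e 4, e.2, e.1.1, j, h1, Or.inl ⟨?_, ?_, ?_, ?_, ?_⟩⟩
    · exact P45.vk5 h1 0 j rfl
    · refine P45.vk5 h1 1 (j + 1) ?_
      show (e.1.2.1 + 1) % 5 = (e.1.2.1 % 5 + 1) % 5
      omega
    · refine P45.vk5 h1 2 (j + 2) ?_
      show (e.1.2.1 + 2) % 5 = (e.1.2.1 % 5 + 2) % 5
      omega
    · refine P45.vk5 h1 3 (j + 3) ?_
      show (e.1.2.1 + 3) % 5 = (e.1.2.1 % 5 + 3) % 5
      omega
    · refine P45.vk5 h1 4 (j + 4) ?_
      show (e.1.2.1 + 4) % 5 = (e.1.2.1 % 5 + 4) % 5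
      omega
  obtain ⟨y, z, hq⟩ := key
  obtain ⟨e1, e2⟩ := Prod.mk.inj ef
  have e3 : K.c1 e = c := e1
  cases b
  · have e4 : K.c0 e = d := e2
    rw [e3, e4] at hq
    exact ⟨_, _, _, hq.symm⟩
  · have e4 : K.c2 e = d := e2
    rw [e3, e4] at hq
    exact ⟨_, _, _, hq⟩

/-- THE STRAND of `T` at the pole `c` -/
theorem ex_pass (h1 : F.NoOne hs) (hm : K.Min) {c : V} (hc : K.ar F.T c) : ∃ n z, K.Cor n F.T c ∧
    K.Cor F.T c z ∧ (F.gx hs).Cor (F.f hs n) (F.f hs F.T) (F.f hs c) ∧ z ≠ F.y := by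
  have hX : P.X F.T c = 1 := by
    rcases hs.sides F.top hc with rfl | rfl
    · exact F.xa
    · exact F.xb
  have hne : {f : FL K | f ∈ P.RP ∧ (fy f, fz f) = (F.T, c)}.Nonempty ∨
      {p : (V × V) × (V × V) | p ∈ P.ZP ∧ p.1 = (F.T, c)}.Nonempty := by
    by_contra hcon
    push Not at hcon
    obtain ⟨k1, k2⟩ := hcon
    unfold X at hX
    rw [k1, k2] at hX
    have z1 : oc ↥(stabilizer H ((F.T, c) : V × V)) (∅ : Set (FL K)) = 0 := by
      show Set.ncard (orbs _ _) = 0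
      unfold orbs
      rw [Set.image_empty, Set.ncard_empty]
    have z2 : oc ↥(stabilizer H ((F.T, c) : V × V)) (∅ : Set ((V × V) × (V × V))) = 0 := by
      show Set.ncard (orbs _ _) = 0
      unfold orbs
      rw [Set.image_empty, Set.ncard_empty]
    rw [z1, z2] at hX
    exact absurd hX (by norm_num)
  rcases hne with ⟨f, hf, e⟩ | ⟨⟨⟨_, _⟩, q, n⟩, hf, e⟩
  · obtain ⟨n, z, u, hq⟩ := P45.rpQ hf e
    have k : Qn (F.P' hs) (F.f hs n) (F.f hs F.T) (F.f hs c) (F.f hs z) (F.f hs u) :=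
      ((F.D hs).flat.Qn_iff P).2 ⟨n, F.T, c, z, u, hq, rfl, rfl, rfl, rfl, rfl⟩
    refine ⟨n, z, hq.rot.cor.symm, hq.rot.rot.cor.symm, k.rot.cor.symm, ?_⟩
    rintro rfl
    have hty : F.f hs F.T = F.f hs F.y := by
      have := F.f_Ty hs 1
      rwa [one_smul, one_smul] at this
    exact F.nbL hm k.rot.rot.cor.symm hty
  · obtain ⟨e5, e6⟩ := Prod.mk.inj e
    obtain ⟨k1, k2, k3⟩ := hf
    dsimp only at k1 k2 k3 e5 e6
    rw [e5, e6] at k1
    rw [e5] at k3
    clear k2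
    have hnT : ∀ g : H, ¬ K.ar (g • F.T) F.T := by
      intro g k
      have := K.ar_rk _ _ k
      rw [K.rk_smul] at this
      exact lt_irrefl _ this
    have hno : ¬ F.Ow4 n F.T c := by
      rintro ⟨g, ⟨k | k, k4, -⟩ | ⟨-, k⟩⟩
      · rw [← k] at k4
        exact GX.not_both' k3 k4
      · have := F.rkg g 1
        rw [← k, one_smul] at this
        exact lt_irrefl _ this
      · exact hnT g k
    refine ⟨n, q, k1.rot.cor.symm, k1.rot.rot.cor.symm,
      (F.cor_map h1 k1.rot.cor.symm).resolve_right hno, ?_⟩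
    rintro rfl
    have hty : F.f hs F.T = F.f hs F.y := by
      have := F.f_Ty hs 1
      rwa [one_smul, one_smul] at this
    obtain ⟨g, k4, k5, -⟩ := F.opp h1 k1 hty
    rcases k4 with ⟨e, -⟩ | ⟨e, -⟩
    · rw [← e] at k5
      exact GX.not_both' k3 k5
    · have := F.rkg g 1
      rw [← e, one_smul] at this
      exact lt_irrefl _ this

/-! ### one strand -/

theorem nfat (hs : P.SqT) (nd : P.ND) (g : H) : ¬ (P.fc nd).Fat (g • F.T) := by
  intro h
  have h := h.smul g⁻¹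
  rw [inv_smul_smul] at h
  obtain ⟨c, hc, h2⟩ := (P45.fat_iff nd F.T).1 h
  rcases hs.sides F.top hc with rfl | rfl
  · rw [F.xa] at h2
    omega
  · rw [F.xb] at h2
    omega

/-- a flag at `g T` which is not in the own walk -/
theorem now (hs : P.SqT) (nd : P.ND) {g : H} {f : FL K} (h1 : (P.fc nd).y f = g • F.T)
    (h2 : (P.fc nd).z ((P.fc nd).r f) ≠ g • F.y) : ¬ (P.fc nd).Ow f := by
  rintro ⟨k1, k2, k3⟩
  have hq := P.fl_Q450 nd k1
  have ht : P.Top ((P.fc nd).y f) ((P.fc nd).x f) ((P.fc nd).z f)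
      ((P.fc nd).z ((P.fc nd).r f)) := ⟨hq, k2, k3⟩
  rw [h1] at ht
  rcases hs.par _ _ _ _ _ _ _ ht (F.top.smul g) with k | k
  · exact k
  · exact h2 k

theorem sm4 (nd : P.ND) {e e' : FL K} (h : (P.fc nd).Sm e e') :
    (P.fc nd).z ((P.fc nd).r e) = (P.fc nd).z ((P.fc nd).r e') := by
  rcases h with rfl | ⟨-, -, -, -, -, h⟩
  · rfl
  · exact h

/-- flags at `g T` which are not in the own walk, at one pole, are one orbit -/
theorem orb (hs : P.SqT) (nd : P.ND) {g : H} {f f' : FL K} (h1 : (P.fc nd).y f = g • F.T)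
    (h2 : (P.fc nd).z ((P.fc nd).r f) ≠ g • F.y) (h1' : (P.fc nd).y f' = g • F.T)
    (h2' : (P.fc nd).z ((P.fc nd).r f') ≠ g • F.y) (hc : K.ar (g • F.T) ((P.fc nd).z f))
    (h3 : (P.fc nd).z f' = (P.fc nd).z f) : ∃ t : H, (P.fc nd).Sm (t • f) f' := by
  by_contra hno
  push Not at hno
  exact F.nfat hs nd g ⟨f, f', h1, h1', hc, h3, F.now hs nd h1 h2,
    F.now hs nd h1' h2', hno⟩

/-- the corner `p, s, q` as the corner after a flag at `p` -/
theorem fl_cor (nd : P.ND) {p s q : V} (h : K.Cor p s q) : ∃ f : FL K, (P.fc nd).y f = p ∧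
    (P.fc nd).z f = s ∧ (P.fc nd).z ((P.fc nd).r f) = q := by
  obtain ⟨e, e1, e2, e3⟩ := (P.fc_Co nd).2 h
  refine ⟨(P.fc nd).v ((P.fc nd).r ((P.fc nd).v e)), ?_, ?_, ?_⟩
  · rw [(P.fc nd).yv]
    exact e1
  · show (P.fc nd).y ((P.fc nd).r ((P.fc nd).v ((P.fc nd).r ((P.fc nd).v e)))) = s
    rw [(P.fc nd).rv, (P.fc nd).vv, e2]
  · rw [(P.fc nd).rv, (P.fc nd).vv, e3]

/-- THE OTHER CORNERS AT AN ARROW OF `g T` ARE ONE ORBIT -/
theorem one_orb (hs : P.SqT) (nd : P.ND) {g : H} {s z z' : V} (hn : K.ar (g • F.T) s)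
    (h : K.Cor (g • F.T) s z) (h' : K.Cor (g • F.T) s z') (ho : z ≠ g • F.y)
    (ho' : z' ≠ g • F.y) : ∃ t : H, t • g • F.T = g • F.T ∧ t • s = s ∧ t • z = z' := by
  obtain ⟨f, f1, f2, f3⟩ := P45.SfD.fl_cor nd h
  obtain ⟨f', k1, k2, k3⟩ := P45.SfD.fl_cor nd h'
  obtain ⟨t, ht⟩ := F.orb hs nd f1 (by rw [f3]; exact ho) k1 (by rw [k3]; exact ho')
    (by rw [f2]; exact hn) (by rw [k2, f2])
  refine ⟨t, ?_, ?_, ?_⟩
  · have := ht.yy
    rwa [FC.y_smul, f1, k1] at this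
  · have := ht.zz
    rwa [FC.z_smul, f2, k2] at this
  · have := P45.SfD.sm4 nd ht
    rwa [FC.r_smul, FC.z_smul, f3, k3] at this

/-- no element turns over a corner `T, s, κ T` -/
theorem no_turn (hs : P.SqT) (nd : P.ND) {g κ : H} {s : V} (hn : K.ar (g • F.T) s) (hr : K.ar s (g • F.y))
    (hk : κ • s = s) (h : K.Cor (g • F.T) s (κ • g • F.T)) : False := by
  have hn' : K.ar (κ • g • F.T) s := by
    have := K.ar_smul κ _ _ hn
    rwa [hk] at this
  obtain ⟨e, e1, e2, e3⟩ := (P.fc_Co nd).2 h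
  set C := P.fc nd with hC
  let f : FL K := C.v (C.r (C.v e))
  let f2 : FL K := C.v (C.r e)
  have y1 : C.y f = g • F.T := (C.yv _).trans e1
  have r1 : C.r f = e := (C.rv _).trans (C.vv _)
  have z1 : C.z f = s := by
    show C.y (C.r f) = s
    rw [r1, e2]
  have w1 : C.z (C.r f) = κ • g • F.T := by rw [r1, e3]
  have y2 : C.y f2 = κ • g • F.T := (C.yv _).trans e3
  have r2 : C.r f2 = C.v e := C.rv _
  have z2 : C.z f2 = s := by
    show C.y (C.r f2) = s
    rw [r2, C.yv, e2]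
  have w2 : C.z (C.r f2) = g • F.T := by rw [r2, C.zv, e1]
  have rk1 : K.rk (κ • g • F.T) = K.rk F.T := by rw [K.rk_smul, K.rk_smul]
  have rk2 : K.rk (g • F.T) = K.rk F.T := K.rk_smul _ _
  have rky' : ∀ k : H, K.rk (k • F.y) = K.rk F.y := fun k => K.rk_smul _ _
  have lt := F.rky
  obtain ⟨t, ht⟩ := F.orb hs nd (g := κ * g) (f := κ • f) (f' := f2)
    (by rw [FC.y_smul, mul_smul]; exact congrArg _ y1)
    (by
      rw [FC.r_smul, FC.z_smul]
      intro k
      have k' : κ • C.z (C.r f) = (κ * g) • F.y := k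
      rw [w1] at k'
      have := congrArg K.rk k'
      rw [K.rk_smul, rk1, rky'] at this
      omega)
    (by rw [mul_smul]; exact y2)
    (by
      intro k
      have k' : C.z (C.r f2) = (κ * g) • F.y := k
      rw [w2] at k'
      have := congrArg K.rk k'
      rw [rk2, rky'] at this
      omega)
    (by
      rw [FC.z_smul, mul_smul]
      have k' : κ • C.z f = s := by rw [z1, hk]
      have k2 : K.ar (κ • g • F.T) (κ • C.z f) := by rw [k']; exact hn'
      exact k2)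
    (by
      rw [FC.z_smul]
      have k' : κ • C.z f = s := by rw [z1, hk]
      exact z2.trans k'.symm)
  rcases ht with ht | ⟨ht, -, -, -, -, -⟩
  · have hb : e.2 = !e.2 := by
      have h1 := congrArg Prod.snd ht
      have h2 : (t • κ • f).2 = !(!e.2) := rfl
      have h3 : f2.2 = !e.2 := rfl
      rw [h2, h3, Bool.not_not] at h1
      exact h1
    revert hb
    cases e.2 <;> decide
  · -- a square
    have hsq : C.sq f := by
      have k1 : C.sq (t • κ • f) := ht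
      exact (C.sq_smul κ f).1 ((C.sq_smul t _).1 k1)
    have hq : Q4 P (C.x f) (C.y f) (C.z f) (C.z (C.r f)) := P.fl_Q450 nd hsq
    rw [y1, z1, w1] at hq
    rcases hs.exists_top hq with m | m | m | m
    · rcases hs.par _ _ _ _ _ _ _ m (F.top.smul g) with k | k
      · exact k
      · have := congrArg K.rk k
        rw [rk1, rky'] at this
        omega
    · exact GX.not_both' hn m.2.1
    · have m' : P.Top ((κ * g) • F.T) s (C.x f) (g • F.T) := by rwa [mul_smul]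
      rcases hs.par _ _ _ _ _ _ _ m' (F.top.smul (κ * g)) with k | k
      · exact k
      · have := congrArg K.rk k
        rw [rk2, rky'] at this
        omega
    · have m1 := m.symm'.smul g⁻¹
      rw [inv_smul_smul] at m1
      have k0 : K.ar F.T (g⁻¹ • s) := by
        have := K.ar_smul g⁻¹ _ _ hn
        rwa [inv_smul_smul] at this
      obtain ⟨k1, k2, -⟩ := F.sd _ _ _ m1 k0
      have k3 := K.ar_smul g⁻¹ _ _ hr
      rw [inv_smul_smul, k1] at k3
      exact GX.not_both' k2 k3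

/-! ### the pieces of the top -/

theorem ar_T {n : V} {g : H} (h : K.ar n (g • F.T)) :
    (F.gx hs).ar (F.f hs n) (F.f hs (g • F.T)) := by
  have h1 := K.ar_rk _ _ h
  rw [K.rk_smul] at h1
  refine ⟨g • F.T, ?_, rfl⟩
  rw [F.val_ne h1.ne']
  exact h

theorem fTy : F.f hs F.T = F.f hs F.y := by
  have := F.f_Ty hs 1
  rwa [one_smul, one_smul] at this

theorem no_ow_T {p q : V} (h : K.ar p F.T) : ¬ F.Ow4 p F.T q := by
  rintro ⟨g, ⟨k | k, k4, -⟩ | ⟨-, k⟩⟩
  · rw [← k] at k4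
    exact GX.not_both' h k4
  · have := F.rkg g 1
    rw [← k, one_smul] at this
    exact lt_irrefl _ this
  · have := K.ar_rk _ _ k
    rw [K.rk_smul] at this
    exact lt_irrefl _ this

/-- the pieces of the top lie in the pieces of the partner -/
theorem ij_T (h1 : F.NoOne hs) {n m : V} (h : K.IJ F.T n m) :
    (F.gx hs).IJ (F.f hs F.T) (F.f hs n) (F.f hs m) := by
  have aT : ∀ {n : V}, K.ar n F.T → (F.gx hs).ar (F.f hs n) (F.f hs F.T) := by
    intro n hn
    have := F.ar_T (hs := hs) (g := 1) (by rwa [one_smul] : K.ar n ((1 : H) • F.T))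
    rwa [one_smul] at this
  induction h with
  | rel p q h =>
    obtain ⟨k, k1, k2⟩ := h
    exact Relation.EqvGen.rel _ _ ⟨(F.cor_map h1 k).resolve_right (F.no_ow_T k1), aT k1, aT k2⟩
  | refl a => exact Relation.EqvGen.refl _
  | symm a b _ ih => exact Relation.EqvGen.symm _ _ ih
  | trans a b c _ _ i1 i2 => exact Relation.EqvGen.trans _ _ _ i1 i2

theorem pc_ij {v n m : V} (h : K.PC v n m) : K.IJ v n m := by
  induction h with
  | rel a b h => exact Relation.EqvGen.rel _ _ ⟨h.2.2, h.1, h.2.1⟩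
  | refl a => exact Relation.EqvGen.refl _
  | symm a b _ ih => exact Relation.EqvGen.symm _ _ ih
  | trans a b c _ _ i1 i2 => exact Relation.EqvGen.trans _ _ _ i1 i2

/-- the sides of a diamond top lie in one piece of the partner -/
theorem ab_ij (h1 : F.NoOne hs) (hm : K.Min) (hx : ∀ p ∈ P.TA, 1 ≤ P.X p.1 p.2)
    (lc : ∀ v, K.LC v) (hb : K.ar F.b F.y) (g : H) :
    (F.gx hs).IJ (F.f hs (g • F.y)) (F.f hs (g • F.a)) (F.f hs (g • F.b)) := by
  have e0 := F.fTy (hs := hs)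
  have low : ∀ {c : V}, K.ar F.T c → K.ar c F.y → (F.gx hs).ar (F.f hs c) (F.f hs F.T) := by
    intro c h2 h3
    refine ⟨F.y, ?_, e0.symm⟩
    rw [F.val_ne (K.ar_rk _ _ h2).ne]
    exact h3
  have aa := low F.top.2.1 F.ay
  have ab := low F.top.2.2 hb
  have aT : ∀ {n : V}, K.ar n F.T → (F.gx hs).ar (F.f hs n) (F.f hs F.T) := by
    intro n hn
    have := F.ar_T (hs := hs) (g := 1) (by rwa [one_smul] : K.ar n ((1 : H) • F.T))
    rwa [one_smul] at this
  have key : (F.gx hs).IJ (F.f hs F.T) (F.f hs F.a) (F.f hs F.b) := by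
    obtain ⟨n, -, c1, -, c3, -⟩ := F.ex_pass h1 hm F.top.2.1
    have hne := F.nbL hm c3
    rcases c1.E1 with k | k
    · rcases hs.sides F.top k with rfl | rfl
      · exact absurd rfl hne
      · exact Relation.EqvGen.rel _ _ ⟨c3.symm, aa, ab⟩
    · obtain ⟨m, m1, m2, m3⟩ := hs.os hm hx lc k F.top.2.2
      have l1 : (F.gx hs).IC (F.f hs F.T) (F.f hs F.a) (F.f hs n) := ⟨c3.symm, aa, aT k⟩
      have l2 := F.ij_T h1 (P45.SfD.pc_ij m1)
      have l3 : (F.gx hs).IC (F.f hs F.T) (F.f hs m) (F.f hs F.b) :=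
        ⟨(F.cor_map h1 m3).resolve_right (F.no_ow_T m2), aT m2, ab⟩
      exact (Relation.EqvGen.rel _ _ l1).trans _ _ _ (l2.trans _ _ _ (Relation.EqvGen.rel _ _ l3))
  have := key.smul g
  rw [← F.f_smul, ← F.f_smul, ← F.f_smul, F.f_Ty] at this
  exact this

/-! ### the pieces of the other vertices -/

/-- `n = g T` and the arrow `n → s` is reversed in the fold -/
def Rv (F : P.SfD) (n s : V) : Prop := ∃ g : H, n = g • F.T ∧ K.ar s (g • F.y)

theorem Rv.smul {n s : V} (h : F.Rv n s) (k : H) : F.Rv (k • n) (k • s) := by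
  obtain ⟨g, rfl, h2⟩ := h
  refine ⟨k * g, (mul_smul _ _ _).symm, ?_⟩
  rw [mul_smul]
  exact K.ar_smul k _ _ h2

/-- the arrows which are not reversed -/
theorem ar_al {n s : V} (hO : ∀ g : H, s ≠ g • F.T) (h : K.ar n s) (hr : ¬ F.Rv n s) :
    (F.gx hs).ar (F.f hs n) (F.f hs s) := by
  rcases F.f_cases hs n with e | ⟨g, rfl, e⟩
  · exact ⟨s, by rw [e]; exact h, rfl⟩
  · refine ⟨s, ?_, rfl⟩
    rw [e]
    rcases F.arE h hs with k | k
    · exact k
    · exact absurd ⟨g, rfl, k⟩ hr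

/-- a node of the fold at `s` which is attached to `p` -/
def At (F : P.SfD) (s p p' : V) : Prop := K.ar p' s ∧ ¬ F.Rv p' s ∧
  ((¬ F.Rv p s ∧ p' = p) ∨ (F.Rv p s ∧ K.ar p s ∧ K.Cor p s p'))

theorem At.smul {s p p' : V} (h : F.At s p p') {g : H} (hg : g • s = s) :
    F.At s (g • p) (g • p') := by
  obtain ⟨h1, h2, h3⟩ := h
  have rv : ∀ {x : V}, F.Rv (g • x) s → F.Rv x s := by
    intro x k
    have := k.smul g⁻¹
    rwa [inv_smul_smul, show g⁻¹ • s = s by rw [inv_smul_eq_iff, hg]] at this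
  refine ⟨?_, fun k => h2 (rv k), ?_⟩
  · have := K.ar_smul g _ _ h1
    rwa [hg] at this
  · rcases h3 with ⟨k, rfl⟩ | ⟨k1, k2, k3⟩
    · exact Or.inl ⟨fun l => k (rv l), rfl⟩
    · refine Or.inr ⟨?_, ?_, ?_⟩
      · have := k1.smul g
        rwa [hg] at this
      · have := K.ar_smul g _ _ k2
        rwa [hg] at this
      · have := k3.smul g
        rwa [hg] at this

/-- a page is not the partner of a reversed node -/
theorem ne_par {s z : V} {g : H} (h : K.ar s (g • F.y)) (hz : K.ar z s) : z ≠ g • F.y := by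
  rintro rfl
  exact GX.not_both' h hz

section

variable {φ : H2m H}

/-- the stabilisers of the reversed arrows are killed -/
theorem kill (hs : P.SqT) (hk : ∀ t : H, t • F.T = F.T → t • F.a = F.a → φ (Additive.ofMul t) = 0)
    {g t : H} {s : V} (hn : K.ar (g • F.T) s) (hr : K.ar s (g • F.y))
    (t1 : t • g • F.T = g • F.T) (t2 : t • s = s) :
    φ (Additive.ofMul t) = 0 ∧ ∀ c, K.ar s c → t • c = c := by
  have u1 : (g⁻¹ * t * g) • F.T = F.T := by
    rw [mul_smul, mul_smul, t1, inv_smul_smul]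
  have hsd : ∀ c : V, s = g • c → (g⁻¹ * t * g) • c = c := by
    intro c e
    rw [mul_smul, mul_smul, ← e, t2, e, inv_smul_smul]
  have u2 : (g⁻¹ * t * g) • F.a = F.a := by
    rcases F.pol hn hs with e | e
    · exact hsd _ e
    · have e1 := hsd _ e
      have e2 : K.ar F.T ((g⁻¹ * t * g) • F.a) := by
        have := K.ar_smul (g⁻¹ * t * g) _ _ F.top.2.1
        rwa [u1] at this
      rcases hs.sides F.top e2 with k | k
      · exact k
      · exfalso
        have e3 : (g⁻¹ * t * g) • F.a = (g⁻¹ * t * g) • F.b := by rw [k, e1]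
        exact hs.nab _ _ _ _ F.top (smul_left_cancel _ e3)
  refine ⟨?_, ?_⟩
  · have := hk _ u1 u2
    rwa [h2_conj'] at this
  · have u3 : (g⁻¹ * t * g) • F.y = F.y := hs.fix F.top (fun h => h) u1
    have u4 : t • g • F.y = g • F.y := by
      rw [mul_smul, mul_smul, inv_smul_eq_iff] at u3
      exact u3
    intro c hc
    have hc' : K.ar s (t • c) := by
      have := K.ar_smul t _ _ hc
      rwa [t2] at this
    rcases K.two _ _ _ _ hr hc hc' with e | e | e
    · rw [← e, u4]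
    · exact e.symm
    · have : t • c = t • g • F.y := by rw [u4, ← e]
      have := smul_left_cancel _ this
      rw [this, u4]

/-- attached nodes up to killed elements -/
def Qs (F : P.SfD) (hs : P.SqT) (φ : H2m H) (s p q : V) : Prop := ∃ t : H, t • s = s ∧
  (∀ c, K.ar s c → t • c = c) ∧ φ (Additive.ofMul t) = 0 ∧
  (F.gx hs).IJ (F.f hs s) (F.f hs (t • p)) (F.f hs q)

theorem Qs.of {s p q : V} (h : (F.gx hs).IJ (F.f hs s) (F.f hs p) (F.f hs q)) :
    F.Qs hs φ s p q := by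
  refine ⟨1, one_smul _ _, fun c _ => one_smul _ c, by rw [ofMul_one, map_zero], ?_⟩
  rw [one_smul]
  exact h

theorem Qs.symm {s p q : V} (h : F.Qs hs φ s p q) : F.Qs hs φ s q p := by
  obtain ⟨t, h1, h2, h3, h4⟩ := h
  refine ⟨t⁻¹, by rw [inv_smul_eq_iff, h1], fun c hc => by rw [inv_smul_eq_iff, h2 c hc], by
    rw [h2_inv, h3, neg_zero], ?_⟩
  have := (h4.smul t⁻¹).symm
  rw [← F.f_smul, ← F.f_smul, ← F.f_smul, inv_smul_smul] at this
  rwa [show t⁻¹ • s = s by rw [inv_smul_eq_iff, h1]] at this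

theorem Qs.trans {s p q r : V} (h : F.Qs hs φ s p q) (h' : F.Qs hs φ s q r) :
    F.Qs hs φ s p r := by
  obtain ⟨t, h1, h2, h3, h4⟩ := h
  obtain ⟨u, k1, k2, k3, k4⟩ := h'
  refine ⟨u * t, by rw [mul_smul, h1, k1], fun c hc => by rw [mul_smul, h2 c hc, k2 c hc], by
    rw [h2_mul, h3, k3, add_zero], ?_⟩
  have := h4.smul u
  rw [← F.f_smul, ← F.f_smul, ← F.f_smul, k1, ← mul_smul] at this
  exact this.trans _ _ _ k4

variable (nd : P.ND)
  (hk : ∀ t : H, t • F.T = F.T → t • F.a = F.a → φ (Additive.ofMul t) = 0)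

include nd hk

theorem at_same {s p b b' : V} (h : F.At s p b) (h' : F.At s p b') : F.Qs hs φ s b b' := by
  rcases h.2.2 with ⟨k, rfl⟩ | ⟨⟨g, rfl, kr⟩, k2, k3⟩
  · rcases h'.2.2 with ⟨-, rfl⟩ | ⟨l, -, -⟩
    · exact Qs.of (Relation.EqvGen.refl _)
    · exact absurd l k
  · rcases h'.2.2 with ⟨l, -⟩ | ⟨-, -, l3⟩
    · exact absurd ⟨g, rfl, kr⟩ l
    · obtain ⟨t, t1, t2, t3⟩ := F.one_orb hs nd k2 k3 l3 (F.ne_par kr h.1) (F.ne_par kr h'.1)
      obtain ⟨t4, t5⟩ := F.kill hs hk k2 kr t1 t2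
      exact ⟨t, t2, t5, t4, by rw [t3]; exact Relation.EqvGen.refl _⟩

omit hk in
/-- two reversed nodes of a corner are attached to nothing -/
theorem no_two {s p q a' : V} (h : K.IC s p q) (hp : F.Rv p s) (hq : F.Rv q s)
    (ha : F.At s p a') (hs : P.SqT) : False := by
  obtain ⟨hc, h1, h2⟩ := h
  rcases ha.2.2 with ⟨k, -⟩ | ⟨-, -, k3⟩
  · exact k hp
  · obtain ⟨g, rfl, hr⟩ := hp
    obtain ⟨t, t1, t2, t3⟩ := F.one_orb hs nd h1 hc k3 (F.ne_par hr h2) (F.ne_par hr ha.1)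
    have := hq.smul t
    rw [t2, t3] at this
    exact ha.2.1 this

theorem at_ic (h1 : F.NoOne hs) (hm : K.Min) (hx : ∀ p ∈ P.TA, 1 ≤ P.X p.1 p.2)
    (lc : ∀ v, K.LC v) {s : V} (hO : ∀ g : H, s ≠ g • F.T) {p q a' b' : V} (h : K.IC s p q)
    (ha : F.At s p a') (hb : F.At s q b') : F.Qs hs φ s a' b' := by
  obtain ⟨hc, hp, hq⟩ := id h
  by_cases rp : F.Rv p s
  · by_cases rq : F.Rv q s
    · exact (F.no_two nd h rp rq ha hs).elim
    · rcases hb.2.2 with ⟨-, rfl⟩ | ⟨k, -, -⟩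
      · exact F.at_same nd hk ha ⟨hq, rq, Or.inr ⟨rp, hp, hc⟩⟩
      · exact absurd k rq
  · rcases ha.2.2 with ⟨-, rfl⟩ | ⟨k, -, -⟩
    · by_cases rq : F.Rv q s
      · exact F.at_same nd hk ⟨hp, rp, Or.inr ⟨rq, hq, hc.symm⟩⟩ hb
      · rcases hb.2.2 with ⟨-, rfl⟩ | ⟨k, -, -⟩
        · rcases F.cor_map h1 hc with k | ⟨g, ⟨k | k, k2, k3⟩ | ⟨⟨k1, k2⟩ | ⟨k1, k2⟩, k3⟩⟩
          · exact Qs.of (Relation.EqvGen.rel _ _ ⟨k, F.ar_al hO hp rp, F.ar_al hO hq rq⟩)
          · exact absurd k (hO g)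
          · subst k
            apply Qs.of
            have hb' : ∀ {c : V}, K.ar c (g • F.y) → c = g • F.b → K.ar F.b F.y := by
              intro c l e
              rw [e] at l
              have := K.ar_smul g⁻¹ _ _ l
              rwa [inv_smul_smul, inv_smul_smul] at this
            rcases F.pol k2 hs with e | e <;> rcases F.pol k3 hs with e' | e'
            · rw [e, e']
              exact Relation.EqvGen.refl _
            · have := F.ab_ij h1 hm hx lc (hb' hq e') g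
              rwa [e, e']
            · have := F.ab_ij h1 hm hx lc (hb' hp e) g
              rw [e, e']
              exact this.symm
            · rw [e, e']
              exact Relation.EqvGen.refl _
          · apply Qs.of
            rw [k1, k2, F.f_Ty]
            exact Relation.EqvGen.refl _
          · apply Qs.of
            rw [k1, k2, F.f_Ty]
            exact Relation.EqvGen.refl _
        · exact absurd k rq
    · exact absurd k rp

omit hk in
theorem at_step {s p q : V} (h : K.IC s p q) (ha : ∃ a', F.At s p a') (hs : P.SqT) :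
    ∃ b', F.At s q b' := by
  obtain ⟨a', ha⟩ := ha
  obtain ⟨hc, hp, hq⟩ := id h
  by_cases rq : F.Rv q s
  · by_cases rp : F.Rv p s
    · exact (F.no_two nd h rp rq ha hs).elim
    · exact ⟨p, hp, rp, Or.inr ⟨rq, hq, hc.symm⟩⟩
  · exact ⟨q, hq, rq, Or.inl ⟨rq, rfl⟩⟩

omit hk in
theorem at_iff {s p q : V} (h : K.IJ s p q) (hs : P.SqT) :
    (∃ a', F.At s p a') ↔ ∃ b', F.At s q b' := by
  induction h with
  | rel p q h =>
    exact ⟨fun k => F.at_step nd h k hs, fun k => F.at_step nd ⟨h.1.symm, h.2.2, h.2.1⟩ k hs⟩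
  | refl p => exact Iff.rfl
  | symm p q _ ih => exact ih.symm
  | trans p q r _ _ i1 i2 => exact i1.trans i2

theorem at_ij (h1 : F.NoOne hs) (hm : K.Min) (hx : ∀ p ∈ P.TA, 1 ≤ P.X p.1 p.2)
    (lc : ∀ v, K.LC v) {s : V} (hO : ∀ g : H, s ≠ g • F.T) {p q : V} (h : K.IJ s p q) :
    ∀ {a' b' : V}, F.At s p a' → F.At s q b' → F.Qs hs φ s a' b' := by
  induction h with
  | rel p q h => exact fun ha hb => F.at_ic nd hk h1 hm hx lc hO h ha hb
  | refl p => exact fun ha hb => F.at_same nd hk ha hb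
  | symm p q _ ih => exact fun ha hb => (ih hb ha).symm
  | trans p q r h h' i1 i2 =>
    intro a' b' ha hb
    obtain ⟨c, hc⟩ := (F.at_iff nd h hs).1 ⟨_, ha⟩
    exact (i1 ha hc).trans (i2 hc hb)

/-- ALIVE PIECES -/
theorem move (h1 : F.NoOne hs) (hm : K.Min) (hx : ∀ p ∈ P.TA, 1 ≤ P.X p.1 p.2)
    (lc : ∀ v, K.LC v) (ec : ∀ c d, (F.gx hs).E c d → (F.gx hs).EC c d) {s n g : _}
    (hO : ∀ g : H, s ≠ g • F.T) (hpg : K.PG s n g) {b : V} (hb : F.At s n b) :
    ∃ t : H, t • s = s ∧ (∀ c, K.ar s c → t • c = c) ∧ φ (Additive.ofMul t) = 0 ∧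
      (F.gx hs).PG (F.f hs s) (F.f hs b) (t⁻¹ * g) := by
  obtain ⟨⟨c, hc⟩, hn, -, hg, hij⟩ := hpg
  obtain ⟨t, t1, t2, t3, t4⟩ := F.at_ij nd hk h1 hm hx lc hO hij hb (hb.smul hg)
  have e : (F.f hs s).1 = s := F.f_not hs hO
  have ti : t⁻¹ • s = s := by rw [inv_smul_eq_iff, t1]
  refine ⟨t, t1, t2, t3, ⟨F.f hs c, c, by rw [e]; exact hc, rfl⟩, F.ar_al hO hb.1 hb.2.1,
    ec _ _ (Or.inl (F.ar_al hO hb.1 hb.2.1)), ?_, ?_⟩
  · rw [← F.f_smul, mul_smul, hg, ti]
  · have := t4.smul t⁻¹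
    rw [← F.f_smul, ← F.f_smul, ← F.f_smul, inv_smul_smul, ti, ← mul_smul] at this
    rw [← F.f_smul]
    exact this

/-- DEAD PIECES -/
theorem dead (h1 : F.NoOne hs) (hm : K.Min) {s n : V} {g : H} (hn : K.ar n s) (hg : g • s = s)
    (hij : K.IJ s n (g • n)) (hno : ¬ ∃ b, F.At s n b) : φ (Additive.ofMul g) = 0 := by
  have hrv : F.Rv n s := by
    by_contra k
    exact hno ⟨n, hn, k, Or.inl ⟨k, rfl⟩⟩
  obtain ⟨g0, rfl, hr⟩ := id hrv
  -- a corner
  obtain ⟨z, hz, hzy⟩ : ∃ z, K.Cor (g0 • F.T) s z ∧ z ≠ g0 • F.y := by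
    have h2 : K.ar F.T (g0⁻¹ • s) := by
      have := K.ar_smul g0⁻¹ _ _ hn
      rwa [inv_smul_smul] at this
    obtain ⟨-, z, -, c2, -, c4⟩ := F.ex_pass h1 hm h2
    refine ⟨g0 • z, ?_, fun e => c4 (smul_left_cancel _ e)⟩
    have := c2.smul g0
    rwa [smul_inv_smul] at this
  have hfix : ∀ t : H, t • g0 • F.T = g0 • F.T → t • s = s → φ (Additive.ofMul t) = 0 :=
    fun t t1 t2 => (F.kill hs hk hn hr t1 t2).1
  rcases hz.E2 with hzs | hzs
  · -- a pole
    have key : ∀ m, K.IC s (g0 • F.T) m → False := by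
      rintro m ⟨k1, -, k3⟩
      obtain ⟨t, -, t2, t3⟩ := F.one_orb hs nd hn hz k1 hzy (F.ne_par hr k3)
      have := K.ar_smul t _ _ hzs
      rw [t2, t3] at this
      exact GX.not_both' this k3
    have iff : ∀ x y, K.IJ s x y → (x = g0 • F.T ↔ y = g0 • F.T) := by
      intro x y h
      induction h with
      | rel x y h =>
        constructor
        · rintro rfl
          exact (key _ h).elim
        · rintro rfl
          exact (key _ ⟨h.1.symm, h.2.2, h.2.1⟩).elim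
      | refl x => exact Iff.rfl
      | symm x y _ ih => exact ih.symm
      | trans x y z _ _ i1 i2 => exact i1.trans i2
    exact hfix g ((iff _ _ hij).1 rfl) hg
  · -- a reversed page
    have hzr : F.Rv z s := by
      by_contra k
      exact hno ⟨z, hzs, k, Or.inr ⟨hrv, hn, hz⟩⟩
    obtain ⟨k, rfl, hkr⟩ := id hzr
    have hfix' : ∀ t : H, t • k • F.T = k • F.T → t • s = s → φ (Additive.ofMul t) = 0 :=
      fun t t1 t2 => (F.kill hs hk hzs hkr t1 t2).1
    have step : ∀ x y, K.IC s x y →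
        (∃ t : H, t • s = s ∧ φ (Additive.ofMul t) = 0 ∧ (x = t • g0 • F.T ∨ x = t • k • F.T)) →
        ∃ t : H, t • s = s ∧ φ (Additive.ofMul t) = 0 ∧ (y = t • g0 • F.T ∨ y = t • k • F.T) := by
      rintro x y ⟨c1, -, c3⟩ ⟨t, t1, t2, t3⟩
      have ti : t⁻¹ • s = s := by rw [inv_smul_eq_iff, t1]
      have c3' : K.ar (t⁻¹ • y) s := by
        have := K.ar_smul t⁻¹ _ _ c3
        rwa [ti] at this
      have c1' := c1.smul t⁻¹
      rw [ti] at c1'
      rcases t3 with rfl | rfl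
      · rw [inv_smul_smul] at c1'
        obtain ⟨u, u1, u2, u3⟩ := F.one_orb hs nd hn hz c1' hzy (F.ne_par hr c3')
        refine ⟨t * u, by rw [mul_smul, u2, t1], by rw [h2_mul, t2, hfix u u1 u2, add_zero],
          Or.inr ?_⟩
        rw [mul_smul, u3, smul_inv_smul]
      · rw [inv_smul_smul] at c1'
        obtain ⟨u, u1, u2, u3⟩ := F.one_orb hs nd hzs hz.symm c1' (F.ne_par hkr hn)
          (F.ne_par hkr c3')
        refine ⟨t * u, by rw [mul_smul, u2, t1], by rw [h2_mul, t2, hfix' u u1 u2, add_zero],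
          Or.inl ?_⟩
        rw [mul_smul, u3, smul_inv_smul]
    have iff : ∀ x y, K.IJ s x y →
        ((∃ t : H, t • s = s ∧ φ (Additive.ofMul t) = 0 ∧
          (x = t • g0 • F.T ∨ x = t • k • F.T)) ↔
        ∃ t : H, t • s = s ∧ φ (Additive.ofMul t) = 0 ∧
          (y = t • g0 • F.T ∨ y = t • k • F.T)) := by
      intro x y h
      induction h with
      | rel x y h => exact ⟨step _ _ h, step _ _ ⟨h.1.symm, h.2.2, h.2.1⟩⟩
      | refl x => exact Iff.rfl
      | symm x y _ ih => exact ih.symm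
      | trans x y z _ _ i1 i2 => exact i1.trans i2
    obtain ⟨t, t1, t2, t3⟩ := (iff _ _ hij).1 ⟨1, one_smul _ _, by rw [ofMul_one, map_zero],
      Or.inl (one_smul _ _).symm⟩
    have ti : t⁻¹ • s = s := by rw [inv_smul_eq_iff, t1]
    have hgs : (t⁻¹ * g) • s = s := by rw [mul_smul, hg, ti]
    rcases t3 with t3 | t3
    · have := hfix (t⁻¹ * g) (by rw [mul_smul, t3, inv_smul_smul]) hgs
      rw [h2_mul, h2_inv, t2, neg_zero, zero_add] at this
      exact this
    · exfalso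
      refine F.no_turn hs nd hn hr hgs ?_
      rw [mul_smul, t3, inv_smul_smul]
      exact hz

end

/-! ### the spaces -/

section

variable (h1 : F.NoOne hs) (hm : K.Min) (hx : ∀ p ∈ P.TA, 1 ≤ P.X p.1 p.2)
  (lc : ∀ v, K.LC v) (bad : ¬ SA H)

include h1 hm hx lc bad

theorem ecL {c d : F.W hs} (h : (F.gx hs).E c d) : (F.gx hs).EC c d := by
  have hl := F.lc h1 hm hx lc
  exact GX.ec_of_lc (hl d) ((F.gx hs).VC_all hl bad d) h.symm

omit hx lc bad h1 hm in
theorem snkL {z : V} (hz : K.Snk z) : (F.gx hs).Snk (F.f hs z) := by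
  have hO : ∀ g : H, z ≠ g • F.T := by
    rintro g rfl
    exact hz _ (K.ar_smul g _ _ F.top.2.1)
  rintro d ⟨x, hx, -⟩
  rw [F.f_not hs hO] at hx
  exact hz _ hx

omit hx lc bad h1 hm in
theorem stabL {z : V} (hO : ∀ g : H, z ≠ g • F.T) :
    stabilizer H (F.f hs z) = stabilizer H z := by
  rw [F.stab, F.f_not hs hO]

omit hx lc bad h1 hm in
theorem ny_L {z : V} {g : H} (h : NY z g) : NY (F.f hs z) g := by
  obtain ⟨e1, e2, t, e3, e4, e5⟩ := h
  exact ⟨by rw [← F.f_smul, e1], e2, t, by rw [← F.f_smul, e3], e4, e5⟩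

omit hx lc bad h1 hm in
theorem y_ne (g : H) : F.y ≠ g • F.T := by
  intro e
  have := F.rkg 1 g
  rw [one_smul, ← e] at this
  exact lt_irrefl _ this

omit hx lc bad h1 hm in
theorem ar_ay : (F.gx hs).ar (F.f hs F.a) (F.f hs F.y) := by
  refine ⟨F.y, ?_, rfl⟩
  rw [F.val_ne (K.ar_rk _ _ F.top.2.1).ne]
  exact F.ay

/-- the page `a` of the partner: the stabiliser of the arrow `T → a` keeps its piece -/
theorem pg_a {c : V} (hc : K.ar F.y c) {t : H} (t1 : t • F.T = F.T) (t2 : t • F.a = F.a) :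
    (F.gx hs).PG (F.f hs F.y) (F.f hs F.a) t := by
  refine ⟨⟨F.f hs c, c, ?_, rfl⟩, F.ar_ay, F.ecL h1 hm hx lc bad (Or.inl F.ar_ay), ?_, ?_⟩
  · rw [F.f_not hs F.y_ne]
    exact hc
  · rw [← F.f_smul, hs.fix F.top (fun h => h) t1]
  · rw [← F.f_smul, t2]
    exact Relation.EqvGen.refl _

theorem P4_le (tf : Finite ↥(stabilizer H F.T)) (nd : P.ND) : (F.gx hs).P4 ≤ K.P4 := by
  intro φ hφ
  have nio : ∀ t : H, t • F.T = F.T → ¬ IO t := fun t ht k =>
    SAG.not_IO_finite (⟨t, ht⟩ : ↥(stabilizer H F.T)) (io_coe.1 k)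
  obtain ⟨p1, p2⟩ := id hφ
  have ysnk : K.Snk F.y → ∀ t : H, t • F.T = F.T → φ (Additive.ofMul t) = 0 := by
    intro hy t ht
    refine p1 _ (F.snkL hy) ((F.gx hs).VC_all (F.lc h1 hm hx lc) bad _) t ?_ (fun _ _ => nio t ht)
    rw [← F.f_smul, hs.fix F.top (fun h => h) ht]
  have hk : ∀ t : H, t • F.T = F.T → t • F.a = F.a → φ (Additive.ofMul t) = 0 := by
    intro t t1 t2
    by_cases hy : ∃ c, K.ar F.y c
    · obtain ⟨c, hc⟩ := hy
      exact p2 _ _ _ (F.pg_a h1 hm hx lc bad hc t1 t2)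
    · push Not at hy
      exact ysnk hy t t1
  have ec : ∀ c d, (F.gx hs).E c d → (F.gx hs).EC c d := fun c d h => F.ecL h1 hm hx lc bad h
  refine ⟨fun z hz hv t ht hzt => ?_, fun s n g hpg => ?_⟩
  · have hO : ∀ g : H, z ≠ g • F.T := by
      rintro g rfl
      exact hz _ (K.ar_smul g _ _ F.top.2.1)
    refine p1 _ (F.snkL hz) ((F.gx hs).VC_all (F.lc h1 hm hx lc) bad _) t ?_ ?_
    · rw [← F.f_smul, ht]
    · rw [F.stabL hO]
      exact hzt
  · by_cases hO : ∃ g : H, s = g • F.T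
    · obtain ⟨k, rfl⟩ := hO
      have hp := hpg.smul k⁻¹
      rw [inv_smul_smul, inv_inv] at hp
      have e : φ (Additive.ofMul g) = φ (Additive.ofMul (k⁻¹ * g * k)) := (h2_conj' φ k g).symm
      rw [e]
      obtain ⟨q1, q2, q3, q4, q5⟩ := hp
      by_cases hy : ∃ c, K.ar F.y c
      · obtain ⟨c, hc⟩ := hy
        have aT : (F.gx hs).ar (F.f hs (k⁻¹ • n)) (F.f hs F.T) := by
          have := F.ar_T (hs := hs) (g := 1) (by rwa [one_smul] : K.ar (k⁻¹ • n) ((1 : H) • F.T))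
          rwa [one_smul] at this
        refine p2 (F.f hs F.T) (F.f hs (k⁻¹ • n)) _ ⟨⟨F.f hs c, c, ?_, rfl⟩, aT, ec _ _ (Or.inl aT),
          ?_, ?_⟩
        · rw [F.fTy, F.f_not hs F.y_ne]
          exact hc
        · rw [← F.f_smul, q4]
        · rw [← F.f_smul]
          exact F.ij_T h1 q5
      · push Not at hy
        exact ysnk hy _ q4
    · push Not at hO
      by_cases hA : ∃ b, F.At s n b
      · obtain ⟨b, hb⟩ := hA
        obtain ⟨t, t1, t2, t3, t4⟩ := F.move nd hk h1 hm hx lc ec hO hpg hb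
        have := p2 _ _ _ t4
        rw [h2_mul, h2_inv, t3, neg_zero, zero_add] at this
        exact this
      · exact F.dead nd hk h1 hm hpg.2.1 hpg.2.2.2.1 hpg.2.2.2.2 hA

theorem P5_le (fs : ¬ (K.Snk F.y ∧ Finite ↥(stabilizer H F.y))) (nd : P.ND) :
    (F.gx hs).P5 ≤ K.P5 := by
  intro φ hφ
  obtain ⟨p1, p2⟩ := id hφ
  have hk : ∀ t : H, t • F.T = F.T → t • F.a = F.a → φ (Additive.ofMul t) = 0 := by
    intro t t1 t2
    by_cases hy : ∃ c, K.ar F.y c
    · obtain ⟨c, hc⟩ := hy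
      refine p2 _ _ _ (F.pg_a h1 hm hx lc bad hc t1 t2) ?_
      rintro d ⟨x, hx', rfl⟩
      rw [F.f_not hs F.y_ne] at hx'
      show t • F.f hs x = F.f hs x
      rw [← F.f_smul, F.fp t t1 t2 x hx']
    · push Not at hy
      have hi : Infinite ↥(stabilizer H F.y) := by
        rw [← not_finite_iff_infinite]
        exact fun k => fs ⟨hy, k⟩
      exact p1 _ (F.snkL hy) ((F.gx hs).VC_all (F.lc h1 hm hx lc) bad _) t
        (F.ny_L (F.ny hy hi t t1 t2))
  have ec : ∀ c d, (F.gx hs).E c d → (F.gx hs).EC c d := fun c d h => F.ecL h1 hm hx lc bad h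
  refine ⟨fun z hz hv t ht => ?_, fun s n g hpg hp => ?_⟩
  · exact p1 _ (F.snkL hz) ((F.gx hs).VC_all (F.lc h1 hm hx lc) bad _) t (F.ny_L ht)
  · by_cases hO : ∃ g : H, s = g • F.T
    · obtain ⟨k, rfl⟩ := hO
      have e : φ (Additive.ofMul g) = φ (Additive.ofMul (k⁻¹ * g * k)) := (h2_conj' φ k g).symm
      rw [e]
      refine hk _ ?_ ?_
      · rw [mul_smul, mul_smul, hpg.2.2.2.1, inv_smul_smul]
      · rw [mul_smul, mul_smul, hp _ (K.ar_smul k _ _ F.top.2.1), inv_smul_smul]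
    · push Not at hO
      by_cases hA : ∃ b, F.At s n b
      · obtain ⟨b, hb⟩ := hA
        obtain ⟨t, t1, t2, t3, t4⟩ := F.move nd hk h1 hm hx lc ec hO hpg hb
        have := p2 _ _ _ t4 (by
          rintro d ⟨x, hx', rfl⟩
          rw [F.f_not hs hO] at hx'
          show (t⁻¹ * g) • F.f hs x = F.f hs x
          rw [← F.f_smul, mul_smul, hp x hx', show t⁻¹ • x = x by
            rw [inv_smul_eq_iff, t2 x hx']])
        rw [h2_mul, h2_inv, t3, neg_zero, zero_add] at this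
        exact this
      · exact F.dead nd hk h1 hm hpg.2.1 hpg.2.2.2.1 hpg.2.2.2.2 hA

/-- `p_4` DOES NOT RISE -/
theorem p4_le (tf : Finite ↥(stabilizer H F.T)) : (F.gx hs).p4 ≤ K.p4 := by
  have := GX.finite_h2 K
  exact Submodule.finrank_mono (F.P4_le h1 hm hx lc bad tf hs.nd)

/-- `p_5` DOES NOT RISE -/
theorem p5_le (fs : ¬ (K.Snk F.y ∧ Finite ↥(stabilizer H F.y))) : (F.gx hs).p5 ≤ K.p5 := by
  have := GX.finite_h2 K
  exact Submodule.finrank_mono (F.P5_le h1 hm hx lc bad fs hs.nd)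

end

end P45.SfD

end Pool.Agent.DI
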