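import Pool.Agent.DI.SfPj
import Pool.Agent.DI.DrN

/-!
# DI/SfPh: flags along an arrow under the static fold of a thin top

`K.OneFl p`: there is a flag along the edge `p` and all flags along `p` are one orbit.
`D.Lf P f f'`: the flag `f'` of the fold comes from the flag `f`.
`D.strand`: the flags along an arrow of a folded top with one strand, the own walk left out, are one orbit.
`D.oneFl`: `OneFl` passes to the fold along arrows with `DrN`.
`D.drN`: `DrN` passes to the fold.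
-/

namespace Pool.Agent.DI

open MulAction
open Pool.Agent.SAF (InC orbs FinOrb oc mk_eq_iff FinOrb_iff)

variable {H V : Type} [Group H] [MulAction H V] {K : GX H V} {P : P45 K}

/-- there is a flag along the edge and all flags along it are one orbit -/
def GX.OneFl (K : GX H V) (p : V × V) : Prop := (∃ f : FL K, (P45.fy f, P45.fz f) = p) ∧
  ∀ f f' : FL K, (P45.fy f, P45.fz f) = p → (P45.fy f', P45.fz f') = p → ∃ g : H, g • f = f'

namespace P45

/-! ### the flag at the other end of an edge -/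

/-- the flag at the other end -/
def opp (f : FL K) : FL K := if f.2 = true then (K.nx f.1, false) else (K.pv f.1, true)

theorem opp_t (e : K.LE) : opp (e, true) = (K.nx e, false) := rfl

theorem opp_f (e : K.LE) : opp (e, false) = (K.pv e, true) := rfl

theorem opp_opp (f : FL K) : opp (opp f) = f := by
  obtain ⟨e, b⟩ := f
  cases b
  · rw [opp_f, opp_t, K.nx_pv]
  · rw [opp_t, opp_f, K.pv_nx]

theorem opp_smul (g : H) (f : FL K) : opp (g • f) = g • opp f := by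
  obtain ⟨e, b⟩ := f
  cases b <;> rfl

theorem fy_opp (f : FL K) : fy (opp f) = fz f := by
  obtain ⟨e, b⟩ := f
  cases b
  · exact K.c1_pv e
  · exact K.c1_nx e

theorem fz_opp (f : FL K) : fz (opp f) = fy f := by
  obtain ⟨e, b⟩ := f
  cases b
  · exact K.c2_pv e
  · exact K.c0_nx e

theorem opp_cell (f : FL K) : (opp f).1.1.1 = f.1.1.1 := by
  obtain ⟨e, b⟩ := f
  cases b <;> rfl

/-! ### normal forms -/

theorem pf4_t (i : K.I) (hi : P.sq i) (j : Fin 4) (h : H) :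
    fx (P.pf4 i hi j h true) = h • P.qt i (j + 3) ∧ fy (P.pf4 i hi j h true) = h • P.qt i j ∧
      fz (P.pf4 i hi j h true) = h • P.qt i (j + 1) := by
  have e := P.pf4_yz i hi j h
  exact ⟨P.c0_4 i hi (j + 3) h, congrArg Prod.fst e.1, congrArg Prod.snd e.1⟩

theorem pf4_f (i : K.I) (hi : P.sq i) (j : Fin 4) (h : H) :
    fx (P.pf4 i hi j h false) = h • P.qt i (j + 2) ∧
      fy (P.pf4 i hi j h false) = h • P.qt i (j + 1) ∧ fz (P.pf4 i hi j h false) = h • P.qt i j := by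
  have e := P.pf4_yz i hi j h
  exact ⟨P.c2_4 i hi j h, congrArg Prod.fst e.2, congrArg Prod.snd e.2⟩

theorem pf4_cell (i : K.I) (hi : P.sq i) (j : Fin 4) (h : H) (b : Bool) :
    (P.pf4 i hi j h b).1.1.1 = i := by
  cases b <;> rfl

theorem pf5_cell (i : K.I) (hi : ¬ P.sq i) (j : Fin 5) (h : H) (b : Bool) :
    (P.pf5 i hi j h b).1.1.1 = i := by
  cases b <;> rfl

end P45

/-- the flag of a walk of a square -/
theorem Q4.fl52 {n x z q : V} (h : Q4 P n x z q) : ∃ i hi j g b, P45.fx (P.pf4 i hi j g b) = n ∧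
    P45.fy (P.pf4 i hi j g b) = x ∧ P45.fz (P.pf4 i hi j g b) = z := by
  obtain ⟨g, i, j, hi, h⟩ := h
  have e2 : ∀ j : Fin 4, j + 1 + 3 = j := by decide
  have e3 : ∀ j : Fin 4, j + 1 + 1 = j + 2 := by decide
  rcases h with ⟨rfl, rfl, rfl, rfl⟩ | ⟨rfl, rfl, rfl, rfl⟩
  · obtain ⟨k1, k2, k3⟩ := P45.pf4_t (P := P) i hi (j + 1) g
    rw [e2] at k1
    rw [e3] at k3
    exact ⟨i, hi, j + 1, g, true, k1, k2, k3⟩
  · obtain ⟨k1, k2, k3⟩ := P45.pf4_f (P := P) i hi j g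
    exact ⟨i, hi, j, g, false, k1, k2, k3⟩

namespace Sq1

variable (D : Sq1 K)

/-! ### flags of the fold -/

/-- the flag `f'` of the fold comes from the flag `f` -/
def Lf (P : P45 K) (f : FL K) (f' : FL D.toF.gx) : Prop :=
  (∃ (i : K.I) (hi : ¬ P.sq i) (hB : ¬ D.toF.Bt i) (j : Fin 5) (h : H) (b : Bool),
    f = P.pf5 i hi j h b ∧ f' = (D.flat.P45 P).pf5 ⟨i, hB⟩ hi j h b) ∨
  (∃ (i : K.I) (hi : P.sq i) (hB : ¬ D.toF.Bt i) (j : Fin 4) (h : H) (b : Bool),
    f = P.pf4 i hi j h b ∧ f' = (D.flat.P45 P).pf4 ⟨i, hB⟩ hi j h b)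

theorem lf_up (P : P45 K) (f' : FL D.toF.gx) : ∃ f, D.Lf P f f' := by
  rcases (D.flat.P45 P).pf_cases f' with ⟨i, hi, j, h, b, e⟩ | ⟨i, hi, j, h, b, e⟩
  · exact ⟨P.pf5 i.1 hi j h b, Or.inl ⟨i.1, hi, i.2, j, h, b, rfl, e⟩⟩
  · exact ⟨P.pf4 i.1 hi j h b, Or.inr ⟨i.1, hi, i.2, j, h, b, rfl, e⟩⟩

theorem lf_down (P : P45 K) {f : FL K} (hB : ¬ D.toF.Bt f.1.1.1) : ∃ f', D.Lf P f f' := by
  rcases P.pf_cases f with ⟨i, hi, j, h, b, rfl⟩ | ⟨i, hi, j, h, b, rfl⟩
  · rw [P45.pf5_cell] at hB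
    exact ⟨_, Or.inl ⟨i, hi, hB, j, h, b, rfl, rfl⟩⟩
  · rw [P45.pf4_cell] at hB
    exact ⟨_, Or.inr ⟨i, hi, hB, j, h, b, rfl, rfl⟩⟩

variable {D}

theorem Lf.bt {f : FL K} {f' : FL D.toF.gx} (h : D.Lf P f f') : ¬ D.toF.Bt f.1.1.1 := by
  rcases h with ⟨i, hi, hB, j, h, b, rfl, rfl⟩ | ⟨i, hi, hB, j, h, b, rfl, rfl⟩
  · rwa [P45.pf5_cell]
  · rwa [P45.pf4_cell]

theorem Lf.yz {f : FL K} {f' : FL D.toF.gx} (h : D.Lf P f f') :
    D.toF.F (P45.fy f) = P45.fy f' ∧ D.toF.F (P45.fz f) = P45.fz f' := by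
  rcases h with ⟨i, hi, hB, j, h, b, rfl, rfl⟩ | ⟨i, hi, hB, j, h, b, rfl, rfl⟩
  · have e1 := P.pf5_yz i hi j h
    have e2 := (D.flat.P45 P).pf5_yz (⟨i, hB⟩ : D.toF.gx.I) hi j h
    cases b
    · exact ⟨(congrArg D.toF.F (congrArg Prod.fst e1.2)).trans
        ((D.toF.F_smul h _).trans (congrArg Prod.fst e2.2).symm),
        (congrArg D.toF.F (congrArg Prod.snd e1.2)).trans
        ((D.toF.F_smul h _).trans (congrArg Prod.snd e2.2).symm)⟩
    · exact ⟨(congrArg D.toF.F (congrArg Prod.fst e1.1)).trans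
        ((D.toF.F_smul h _).trans (congrArg Prod.fst e2.1).symm),
        (congrArg D.toF.F (congrArg Prod.snd e1.1)).trans
        ((D.toF.F_smul h _).trans (congrArg Prod.snd e2.1).symm)⟩
  · have e1 := P.pf4_yz i hi j h
    have e2 := (D.flat.P45 P).pf4_yz (⟨i, hB⟩ : D.toF.gx.I) hi j h
    cases b
    · exact ⟨(congrArg D.toF.F (congrArg Prod.fst e1.2)).trans
        ((D.toF.F_smul h _).trans (congrArg Prod.fst e2.2).symm),
        (congrArg D.toF.F (congrArg Prod.snd e1.2)).trans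
        ((D.toF.F_smul h _).trans (congrArg Prod.snd e2.2).symm)⟩
    · exact ⟨(congrArg D.toF.F (congrArg Prod.fst e1.1)).trans
        ((D.toF.F_smul h _).trans (congrArg Prod.fst e2.1).symm),
        (congrArg D.toF.F (congrArg Prod.snd e1.1)).trans
        ((D.toF.F_smul h _).trans (congrArg Prod.snd e2.1).symm)⟩

/-- flags of the fold with lifts in one orbit are in one orbit -/
theorem Lf.orb {f1 f2 : FL K} {f1' f2' : FL D.toF.gx} (h1 : D.Lf P f1 f1') (h2 : D.Lf P f2 f2')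
    {g : H} (e : g • f1 = f2) : g • f1' = f2' := by
  rcases h1 with ⟨i, hi, hB, j, h, b, rfl, rfl⟩ | ⟨i, hi, hB, j, h, b, rfl, rfl⟩ <;>
  rcases h2 with ⟨i', hi', hB', j', h', b', rfl, rfl⟩ | ⟨i', hi', hB', j', h', b', rfl, rfl⟩
  · rw [P45.pf5_smul] at e
    obtain ⟨rfl, rfl, rfl, rfl⟩ := P.pf5_inj e
    rw [P45.pf5_smul]
  · rw [P45.pf5_smul] at e
    exact absurd e (fun k => P.pf5_ne_pf4 k)
  · rw [P45.pf4_smul] at e
    exact absurd e.symm (fun k => P.pf5_ne_pf4 k)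
  · rw [P45.pf4_smul] at e
    obtain ⟨rfl, rfl, rfl, rfl⟩ := P.pf4_inj e
    rw [P45.pf4_smul]

variable (D)

/-! ### edges with the same image -/

/-- an edge over the image of an arrow `c → d`, `c` not folded: the arrow itself, or an arrow of a folded
top whose partner is an end of the arrow -/
theorem edge_over (hP : P.Cls) (hm : K.Min) {a b : V} (top : P.Top D.T a b D.y)
    (hl : ∀ v, K.LC v) {c d c' d' : V} (h : K.ar c d) (hc : ¬ D.toF.O c) (he : K.E c' d')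
    (e1 : D.toF.F c' = D.toF.F c) (e2 : D.toF.F d' = D.toF.F d) : (c' = c ∧ d' = d) ∨
    (∃ g : H, d = g • D.y ∧ c' = c ∧ d' = g • D.T ∧ K.ar (g • D.T) c) ∨
    (∃ g : H, c = g • D.y ∧ c' = g • D.T ∧ d' = d ∧ K.ar (g • D.T) d) := by
  have r := K.ar_rk _ _ h
  have rky := D.rk
  by_cases k1 : c' = c
  · subst k1
    by_cases k2 : d' = d
    · exact Or.inl ⟨rfl, k2⟩
    · right; left
      rcases he with he | he
      · exact absurd (D.poles_inj hP hm top (hl _) he h e2) k2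
      · rcases D.F_cases e2 with k3 | k3 | k3
        · exact absurd k3 k2
        · obtain ⟨g, rfl⟩ := k3
          have hd : ¬ D.toF.O d := by
            intro k4
            have r1 := K.ar_rk _ _ he
            rw [K.rk_smul] at r1
            rw [D.rk_O k4] at r
            omega
          have e3 := D.toF.F_eq.1 e2
          rw [D.f_T, D.toF.f_not hd] at e3
          exact ⟨g, e3.symm, rfl, rfl, he⟩
        · have hd' : ¬ D.toF.O d' := by
            intro k4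
            have r1 := K.ar_rk _ _ he
            rw [D.rk_O k4] at r1
            rw [D.rk_O k3] at r
            omega
          have r1 := K.ar_rk _ _ he
          have e3 := D.toF.F_eq.1 e2
          rw [D.toF.f_not hd'] at e3
          have r2 := D.rk_fO k3
          rw [← e3] at r2
          rw [D.rk_O k3] at r
          omega
  · right; right
    rcases D.F_cases e1 with k3 | k3 | k3
    · exact absurd k3 k1
    · obtain ⟨g, rfl⟩ := k3
      have e3 := D.toF.F_eq.1 e1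
      rw [D.f_T, D.toF.f_not hc] at e3
      have hd' : ¬ D.toF.O d' := D.na_E ⟨g, rfl⟩ he
      have hd : ¬ D.toF.O d := by
        intro k4
        rw [D.rk_O k4, ← e3, K.rk_smul] at r
        omega
      have e4 := D.toF.F_eq.1 e2
      rw [D.toF.f_not hd', D.toF.f_not hd] at e4
      subst e4
      refine ⟨g, e3.symm, rfl, rfl, ?_⟩
      rcases he with he | he
      · exact he
      · have r1 := K.ar_rk _ _ he
        rw [K.rk_smul] at r1
        rw [← e3, K.rk_smul] at r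
        omega
    · exact absurd k3 hc

end Sq1

namespace P45

/-! ### indices of the flags of a square -/

/-- index of `fy` -/
def iy (j : Fin 4) (b : Bool) : Fin 4 := if b = true then j else j + 1
/-- index of `fz` -/
def iz (j : Fin 4) (b : Bool) : Fin 4 := if b = true then j + 1 else j
/-- index of `fx` -/
def ix (j : Fin 4) (b : Bool) : Fin 4 := if b = true then j + 3 else j + 2
/-- index of the fourth vertex -/
def iv (j : Fin 4) (b : Bool) : Fin 4 := if b = true then j + 2 else j + 3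

theorem idx_cases : ∀ (j : Fin 4) (b : Bool) (m : Fin 4), m = iy j b ∨ m = iz j b ∨ m = ix j b ∨
    m = iv j b := by decide

theorem idx_inj : ∀ (j j' : Fin 4) (b b' : Bool), iy j b = iy j' b' → iz j b = iz j' b' →
    j = j' ∧ b = b' := by decide

theorem pf4_v (i : K.I) (hi : P.sq i) (j : Fin 4) (h : H) (b : Bool) :
    fx (P.pf4 i hi j h b) = h • P.qt i (ix j b) ∧ fy (P.pf4 i hi j h b) = h • P.qt i (iy j b) ∧
      fz (P.pf4 i hi j h b) = h • P.qt i (iz j b) := by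
  cases b
  · exact pf4_f i hi j h
  · exact pf4_t i hi j h

/-- the walk of a flag of a square -/
theorem pf4_q4 (i : K.I) (hi : P.sq i) (j : Fin 4) (h : H) (b : Bool) :
    Q4 P (h • P.qt i (ix j b)) (h • P.qt i (iy j b)) (h • P.qt i (iz j b))
      (h • P.qt i (iv j b)) := by
  have e1 : ∀ j : Fin 4, j + 3 + 1 = j := by decide
  have e2 : ∀ j : Fin 4, j + 3 + 2 = j + 1 := by decide
  have e3 : ∀ j : Fin 4, j + 3 + 3 = j + 2 := by decide
  cases b
  · exact (Q4_qt (P := P) h hi j).symm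
  · have k := Q4_qt (P := P) h hi (j + 3)
    rw [e1, e2, e3] at k
    exact k

/-- the flag of a walk -/
theorem _root_.Pool.Agent.DI.Q4.flv {n x z q : V} (h : Q4 P n x z q) : ∃ (i : K.I) (_ : P.sq i)
    (j : Fin 4) (g : H) (b : Bool), n = g • P.qt i (ix j b) ∧ x = g • P.qt i (iy j b) ∧
      z = g • P.qt i (iz j b) ∧ q = g • P.qt i (iv j b) := by
  obtain ⟨g, i, j, hi, h⟩ := h
  rcases h with ⟨rfl, rfl, rfl, rfl⟩ | ⟨rfl, rfl, rfl, rfl⟩
  · refine ⟨i, hi, j + 1, g, true, ?_, rfl, ?_, ?_⟩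
    · rw [show ix (j + 1) true = j from by revert j; decide]
    · rw [show iz (j + 1) true = j + 2 from by revert j; decide]
    · rw [show iv (j + 1) true = j + 3 from by revert j; decide]
  · exact ⟨i, hi, j, g, false, rfl, rfl, rfl, rfl⟩

theorem tp_adj {i : K.I} {m x z : Fin 4} (e : (m + 1 = x ∧ m + 3 = z) ∨ (m + 1 = z ∧ m + 3 = x))
    {h : H} (h1 : K.ar (h • P.qt i m) (h • P.qt i x)) (h2 : K.ar (h • P.qt i m) (h • P.qt i z)) :
    P.tp i m := by
  have k1 := K.ar_smul h⁻¹ _ _ h1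
  have k2 := K.ar_smul h⁻¹ _ _ h2
  rw [inv_smul_smul, inv_smul_smul] at k1 k2
  rcases e with ⟨rfl, rfl⟩ | ⟨rfl, rfl⟩
  · exact ⟨k1, k2⟩
  · exact ⟨k2, k1⟩

theorem adj_iy : ∀ (j : Fin 4) (b : Bool), (iy j b + 1 = ix j b ∧ iy j b + 3 = iz j b) ∨
    (iy j b + 1 = iz j b ∧ iy j b + 3 = ix j b) := by decide

theorem adj_iv : ∀ (j : Fin 4) (b : Bool), (iv j b + 1 = ix j b ∧ iv j b + 3 = iz j b) ∨
    (iv j b + 1 = iz j b ∧ iv j b + 3 = ix j b) := by decide

theorem adj_ix : ∀ (j : Fin 4) (b : Bool), (ix j b + 1 = iy j b ∧ ix j b + 3 = iv j b) ∨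
    (ix j b + 1 = iv j b ∧ ix j b + 3 = iy j b) := by decide

theorem adj_iz : ∀ (j : Fin 4) (b : Bool), (iz j b + 1 = iy j b ∧ iz j b + 3 = iv j b) ∨
    (iz j b + 1 = iv j b ∧ iz j b + 3 = iy j b) := by decide

theorem tp_iy {i : K.I} {j : Fin 4} {b : Bool} {h : H}
    (h1 : K.ar (h • P.qt i (iy j b)) (h • P.qt i (ix j b)))
    (h2 : K.ar (h • P.qt i (iy j b)) (h • P.qt i (iz j b))) : P.tp i (iy j b) :=
  tp_adj (adj_iy j b) h1 h2

theorem tp_iv {i : K.I} {j : Fin 4} {b : Bool} {h : H}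
    (h1 : K.ar (h • P.qt i (iv j b)) (h • P.qt i (ix j b)))
    (h2 : K.ar (h • P.qt i (iv j b)) (h • P.qt i (iz j b))) : P.tp i (iv j b) :=
  tp_adj (adj_iv j b) h1 h2

theorem tp_ix {i : K.I} {j : Fin 4} {b : Bool} {h : H}
    (h1 : K.ar (h • P.qt i (ix j b)) (h • P.qt i (iy j b)))
    (h2 : K.ar (h • P.qt i (ix j b)) (h • P.qt i (iv j b))) : P.tp i (ix j b) :=
  tp_adj (adj_ix j b) h1 h2

theorem of_tp {i : K.I} {m x : Fin 4} (e : m + 1 = x ∨ m + 3 = x) (h : H) (k : P.tp i m) :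
    K.ar (h • P.qt i m) (h • P.qt i x) := by
  rcases e with rfl | rfl
  · exact K.ar_smul h _ _ k.1
  · exact K.ar_smul h _ _ k.2

theorem fl_E52 (f : FL K) : K.E (fy f) (fz f) := by
  have := fl_E1 (opp f)
  rw [fy_opp] at this
  obtain ⟨e, b⟩ := f
  cases b
  · exact K.c_E0 e
  · exact K.c_E2 e

theorem oc_le_one {G Y : Type} [Group G] [MulAction G Y] {s : Set Y} (hf : FinOrb G s)
    (h : oc G s ≤ 1) {a b : Y} (ha : a ∈ s) (hb : b ∈ s) : ∃ g : G, g • a = b := by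
  by_contra hc
  push Not at hc
  have := (two_le_oc50 hf).2 ⟨a, ha, b, hb, hc⟩
  omega

/-- a top arrow with a strand has more than one orbit of flags -/
theorem not_oneFl {T a b y : V} (k : P.Top T a b y) (x1 : 1 ≤ P.X T a) : ¬ K.OneFl (T, a) := by
  rintro ⟨-, h⟩
  have hq : Q4 P b T a y := k.1.symm
  obtain ⟨i, hi, j, g, b0, e1, e2, e3, -⟩ := hq.flv
  obtain ⟨v1, v2, v3⟩ := pf4_v (P := P) i hi j g b0
  have f0 : (fy (P.pf4 i hi j g b0), fz (P.pf4 i hi j g b0)) = (T, a) := by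
    rw [v2, v3, ← e2, ← e3]
  rcases hw_strand x1 with ⟨n, u, v, hs⟩ | ⟨n, q, hs, hn⟩
  · obtain ⟨g', i', j', hi', k'⟩ := hs.a5
    obtain ⟨b', hb'⟩ := k'.fl hi'
    obtain ⟨x, hx⟩ := h _ _ f0 hb'
    rw [P45.pf4_smul] at hx
    exact P.pf5_ne_pf4 hx.symm
  · obtain ⟨i', hi', j', g', b', u1, u2, u3, -⟩ := hs.flv
    obtain ⟨w1, w2, w3⟩ := pf4_v (P := P) i' hi' j' g' b'
    have f1 : (fy (P.pf4 i' hi' j' g' b'), fz (P.pf4 i' hi' j' g' b')) = (T, a) := by
      rw [w2, w3, ← u2, ← u3]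
    obtain ⟨x, hx⟩ := h _ _ f0 f1
    have h1 : x • b = n := by
      have := congrArg fx hx
      rwa [fx_smul, v1, ← e1, w1, ← u1] at this
    have h2 : x • T = T := by
      have := congrArg fy hx
      rwa [fy_smul, v2, ← e2, w2, ← u2] at this
    have h3 := K.ar_smul x _ _ k.2.2
    rw [h1, h2] at h3
    exact GX.ck_asym h3 hn

end P45

namespace Sq1

variable (D : Sq1 K)

open P45 in
/-- a flag of a kept square along an arrow of a folded top over which no top has the partner `c` -/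
theorem walk_top (hP : P.Cls) {a b : V} (top : P.Top D.T a b D.y) {T1 c : V} (hc : K.ar T1 c)
    (hO : D.toF.O T1) (nt : ∀ T' m, ¬ P.Top T' T1 m c) {i : K.I} (hi : P.sq i) {j : Fin 4}
    {g : H} {b0 : Bool} (hB : ¬ D.toF.Bt i) (e2 : T1 = g • P.qt i (iy j b0))
    (e3 : c = g • P.qt i (iz j b0)) :
    K.ar (g • P.qt i (ix j b0)) T1 ∧
      P.Top (g • P.qt i (iv j b0)) (g • P.qt i (ix j b0)) c T1 := by
  have hq := pf4_q4 (P := P) i hi j g b0
  rw [← e2, ← e3] at hq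
  have hn : K.ar (g • P.qt i (ix j b0)) T1 := by
    rcases hq.E1 with h | h
    · exact h
    · exfalso
      refine hB (D.bt_of hP.toSqE top (fun h => h) hi (j := iy j b0) (tp_iy (h := g) ?_ ?_) ?_)
      · rw [← e2]
        exact h
      · rw [← e2, ← e3]
        exact hc
      · rw [e2] at hO
        exact (D.toF.O_iff g _).1 hO
  refine ⟨hn, ?_⟩
  rcases P45.zp52 hP.top hc hn hq with k | k
  · exact absurd k (nt _ _)
  · exact k

open P45 in
/-- THE STRAND: flags of kept cells along an arrow of a folded top with one strand are one orbit -/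
theorem strand (hP : P.Cls) {a b : V} (top : P.Top D.T a b D.y) {T1 c : V} (hc : K.ar T1 c)
    (hO : D.toF.O T1) (hX : P.X T1 c ≤ 1) (nt : ∀ T' m, ¬ P.Top T' T1 m c) {f1 f2 : FL K}
    (hB1 : ¬ D.toF.Bt f1.1.1.1) (hB2 : ¬ D.toF.Bt f2.1.1.1) (e1 : (fy f1, fz f1) = (T1, c))
    (e2 : (fy f2, fz f2) = (T1, c)) : ∃ g : H, g • f1 = f2 := by
  rw [X_eq] at hX
  unfold Xo at hX
  have fA : FinOrb H {f : FL K | f ∈ P.RP ∧ omk H (fy f, fz f) = omk H (T1, c)} :=
    fin_RP.mono fun _ k => k.1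
  have fB : FinOrb H {p : (V × V) × (V × V) | p ∈ P.ZP ∧ omk H p.1 = omk H (T1, c)} :=
    fin_ZP.mono fun _ k => k.1
  have memA : ∀ f : FL K, ¬ P.sq f.1.1.1 → (fy f, fz f) = (T1, c) →
      f ∈ {f : FL K | f ∈ P.RP ∧ omk H (fy f, fz f) = omk H (T1, c)} := by
    intro f hf e
    refine ⟨⟨hf, ?_⟩, by rw [e]⟩
    rw [show fy f = T1 from congrArg Prod.fst e, show fz f = c from congrArg Prod.snd e]
    exact hc
  have sqf : ∀ f : FL K, P.sq f.1.1.1 → ¬ D.toF.Bt f.1.1.1 → (fy f, fz f) = (T1, c) →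
      ∃ (i : K.I) (hi : P.sq i) (j : Fin 4) (g : H) (b0 : Bool), f = P.pf4 i hi j g b0 ∧
        T1 = g • P.qt i (iy j b0) ∧ c = g • P.qt i (iz j b0) ∧
        K.ar (g • P.qt i (ix j b0)) T1 ∧
        P.Top (g • P.qt i (iv j b0)) (g • P.qt i (ix j b0)) c T1 ∧
        ((T1, c), (g • P.qt i (iv j b0), g • P.qt i (ix j b0))) ∈
          {p : (V × V) × (V × V) | p ∈ P.ZP ∧ omk H p.1 = omk H (T1, c)} := by
    intro f hf hB e
    rcases P.pf_cases f with ⟨i, hi, j, g, b0, rfl⟩ | ⟨i, hi, j, g, b0, rfl⟩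
    · rw [pf5_cell] at hf
      exact absurd hf hi
    · rw [pf4_cell] at hB
      obtain ⟨-, v2, v3⟩ := pf4_v (P := P) i hi j g b0
      have e2 : T1 = g • P.qt i (iy j b0) := (congrArg Prod.fst e).symm.trans v2
      have e3 : c = g • P.qt i (iz j b0) := (congrArg Prod.snd e).symm.trans v3
      obtain ⟨k1, k2⟩ := D.walk_top hP top hc hO nt hi hB e2 e3
      refine ⟨i, hi, j, g, b0, rfl, e2, e3, k1, k2, ⟨?_, hc, k1⟩, rfl⟩
      have hq := pf4_q4 (P := P) i hi j g b0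
      rw [← e2, ← e3] at hq
      exact hq
  by_cases s1 : P.sq f1.1.1.1 <;> by_cases s2 : P.sq f2.1.1.1
  · obtain ⟨i1, hi1, j1, g1, b1, rfl, u2, u3, u4, u5, u6⟩ := sqf f1 s1 hB1 e1
    obtain ⟨i2, hi2, j2, g2, b2, rfl, w2, w3, w4, w5, w6⟩ := sqf f2 s2 hB2 e2
    obtain ⟨x, hx⟩ := oc_le_one fB (by omega) u6 w6
    have x1 : x • T1 = T1 := congrArg (fun p => p.1.1) hx
    have x2 : x • c = c := congrArg (fun p => p.1.2) hx
    have x3 : x • g1 • P.qt i1 (iv j1 b1) = g2 • P.qt i2 (iv j2 b2) :=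
      congrArg (fun p => p.2.1) hx
    have t1 : P.tp i1 (iv j1 b1) := by
      refine tp_iv (h := g1) u5.2.1 ?_
      rw [← u3]
      exact u5.2.2
    have t2 : P.tp i2 (iv j2 b2) := by
      refine tp_iv (h := g2) w5.2.1 ?_
      rw [← w3]
      exact w5.2.2
    have ei : i1 = i2 := by
      refine hP.one i1 i2 hi1 hi2 _ _ t1 t2 (g2⁻¹ * (x * g1)) ?_
      rw [mul_smul, mul_smul, x3, inv_smul_smul]
    subst ei
    -- ranks
    have r1 := K.ar_rk _ _ u4
    have r2 := K.ar_rk _ _ hc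
    have r3 := K.ar_rk _ _ u5.2.1
    have q1 : K.rk (P.qt i1 (iy j1 b1)) = K.rk T1 := by rw [u2, K.rk_smul]
    have q2 : K.rk (P.qt i1 (iz j1 b1)) = K.rk c := by rw [u3, K.rk_smul]
    rw [K.rk_smul] at r1 r3
    rw [K.rk_smul] at r3
    have q3 : K.rk (P.qt i1 (iy j2 b2)) = K.rk T1 := by rw [w2, K.rk_smul]
    have q4 : K.rk (P.qt i1 (iz j2 b2)) = K.rk c := by rw [w3, K.rk_smul]
    have c1 : iy j2 b2 = iy j1 b1 := by
      rcases idx_cases j1 b1 (iy j2 b2) with k | k | k | k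
      · exact k
      · rw [k] at q3; omega
      · rw [k] at q3; omega
      · rw [k] at q3; omega
    have c2 : iz j2 b2 = iz j1 b1 := by
      rcases idx_cases j1 b1 (iz j2 b2) with k | k | k | k
      · rw [k] at q4; omega
      · exact k
      · rw [k] at q4; omega
      · rw [k] at q4; omega
    obtain ⟨rfl, rfl⟩ := idx_inj _ _ _ _ c1 c2
    exact ⟨g2 * g1⁻¹, by rw [pf4_smul, inv_mul_cancel_right]⟩
  · exfalso
    obtain ⟨i1, hi1, j1, g1, b1, rfl, u2, u3, u4, u5, u6⟩ := sqf f1 s1 hB1 e1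
    have h1 := (one_le_oc50 fA).2 ⟨_, memA f2 s2 e2⟩
    have h2 := (one_le_oc50 fB).2 ⟨_, u6⟩
    omega
  · exfalso
    obtain ⟨i1, hi1, j1, g1, b1, rfl, u2, u3, u4, u5, u6⟩ := sqf f2 s2 hB2 e2
    have h1 := (one_le_oc50 fA).2 ⟨_, memA f1 s1 e1⟩
    have h2 := (one_le_oc50 fB).2 ⟨_, u6⟩
    omega
  · exact oc_le_one fA (by omega) (memA f1 s1 e1) (memA f2 s2 e2)

open P45 in
/-- the own flag of a folded top at a side -/
theorem own_flag (hP : P.Cls) {a b : V} (top : P.Top D.T a b D.y) {T1 c m z : V}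
    (hO : D.toF.O T1) (k : P.Top T1 c m z) : ∃ f : FL K, D.toF.Bt f.1.1.1 ∧ fx f = T1 ∧
      fy f = c ∧ fz f = z := by
  obtain ⟨i, hi, j, g, b0, e1, e2, e3, e4⟩ := (k.1.symm.rot).flv
  obtain ⟨v1, v2, v3⟩ := pf4_v (P := P) i hi j g b0
  refine ⟨P.pf4 i hi j g b0, ?_, v1.trans e1.symm, v2.trans e2.symm, v3.trans e3.symm⟩
  rw [pf4_cell]
  refine D.bt_of hP.toSqE top (fun h => h) hi (j := ix j b0) (tp_ix (h := g) ?_ ?_) ?_
  · rw [← e1, ← e2]
    exact k.2.1
  · rw [← e1, ← e4]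
    exact k.2.2
  · rw [e1] at hO
    exact (D.toF.O_iff g _).1 hO

open P45 in
/-- a flag of a kept cell along an arrow of a folded top -/
theorem strand_flag (hP : P.Cls) (hm : K.Min) {a b : V} (top : P.Top D.T a b D.y)
    {T1 c m z : V} (hO : D.toF.O T1) (k : P.Top T1 c m z) (nt : ∀ T' m, ¬ P.Top T' T1 m c) :
    ∃ f : FL K, ¬ D.toF.Bt f.1.1.1 ∧ (fy f, fz f) = (T1, c) := by
  have x1 : 1 ≤ P.X T1 c := hP.x1 (T1, c) ⟨m, z, k⟩
  rcases hw_strand x1 with ⟨n, u, v, hs⟩ | ⟨n, q, hs, hn⟩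
  · obtain ⟨g', i', j', hi', k'⟩ := hs.a5
    obtain ⟨b', hb'⟩ := k'.fl hi'
    refine ⟨_, ?_, hb'⟩
    rw [pf5_cell]
    exact D.flat.not_Bt5 P hi'
  · obtain ⟨i', hi', j', g', b', u1, u2, u3, u4⟩ := hs.flv
    obtain ⟨w1, w2, w3⟩ := pf4_v (P := P) i' hi' j' g' b'
    refine ⟨P.pf4 i' hi' j' g' b', ?_, ?_⟩
    · rw [pf4_cell, D.bt_iff hP hm top hi']
      rintro ⟨l, tl, Ol⟩
      have hT1 := D.rk_O hO
      have hl := D.rk_O Ol
      have r1 := K.ar_rk _ _ hn
      have r2 := K.ar_rk _ _ k.2.1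
      have r3 : K.rk n < K.rk q := by
        rcases P45.zp52 hP.top k.2.1 hn hs with h | h
        · exact absurd h (nt _ _)
        · exact K.ar_rk _ _ h.2.1
      rcases idx_cases j' b' l with e | e | e | e
      · rw [e] at tl
        have h1 : K.ar (g' • P.qt i' (iy j' b')) (g' • P.qt i' (ix j' b')) :=
          of_tp ((adj_iy j' b').elim (fun h => Or.inl h.1) (fun h => Or.inr h.2)) g' tl
        rw [← u1, ← u2] at h1
        exact GX.ck_asym hn h1
      · have := congrArg K.rk u3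
        rw [K.rk_smul, ← e] at this
        have r2' : K.rk c < K.rk T1 := r2
        omega
      · have := congrArg K.rk u1
        rw [K.rk_smul, ← e] at this
        have r1' : K.rk T1 < K.rk n := r1
        omega
      · have := congrArg K.rk u4
        rw [K.rk_smul, ← e] at this
        have r1' : K.rk T1 < K.rk n := r1
        omega
    · rw [w2, w3, ← u2, ← u3]

end Sq1

end Pool.Agent.DI
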