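import Pool.Agent.DI.SfC
import Pool.Agent.DI.SeenQ

/-!
# DI/SfPj (by helper52): poles stay different in the static fold

`D : Sq1 K` with `P.Top D.T a b D.y`, `P.Cls`, `K.Min`: if two poles `z ≠ z'` of `n` have the same image in
`K / (T ~ y)` then there is no corner `x, n, z` in `K` (`Sq1.no_cor`); so if the link of `n` is connected
the images of the poles of `n` are different (`Sq1.poles_inj`).
-/

namespace Pool.Agent.DI

open MulAction
open Pool.Agent.SAF (InC orbs FinOrb oc mk_eq_iff FinOrb_iff)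

variable {H V : Type} [Group H] [MulAction H V] {K : GX H V} {P : P45 K}

/-- an equivalence generated by a relation relates different points only along the relation -/
theorem eqvGen_ne {X : Type} {r : X → X → Prop} {a b : X} (h : Relation.EqvGen r a b)
    (hne : a ≠ b) : ∃ c, r a c ∨ r c a := by
  have key : ∀ a b, Relation.EqvGen r a b → a = b ∨
      ((∃ c, r a c ∨ r c a) ∧ ∃ c, r b c ∨ r c b) := by
    intro a b h
    induction h with
    | rel a b h => exact Or.inr ⟨⟨b, Or.inl h⟩, ⟨a, Or.inr h⟩⟩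
    | refl a => exact Or.inl rfl
    | symm a b _ ih =>
      rcases ih with h | ⟨h1, h2⟩
      · exact Or.inl h.symm
      · exact Or.inr ⟨h2, h1⟩
    | trans a b c _ _ ih1 ih2 =>
      rcases ih1 with h | ⟨h1, h2⟩
      · subst h
        exact ih2
      · rcases ih2 with h | ⟨h3, h4⟩
        · subst h
          exact Or.inr ⟨h1, h2⟩
        · exact Or.inr ⟨h1, h4⟩
  exact ((key a b h).resolve_left hne).1

namespace Sq1

variable (D : Sq1 K)

/-- NO CORNER AT A POLE OF A VERTEX WHICH GETS ONE POLE -/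
theorem no_cor (hP : P.Cls) (hm : K.Min) {a b : V} (top : P.Top D.T a b D.y) {n z z' x : V}
    (h1 : K.ar n z) (h2 : K.ar n z') (hne : z ≠ z') (e : D.toF.F z = D.toF.F z') :
    ¬ K.Cor x n z := by
  intro hc
  rcases P.cor_iff.1 hc with ⟨u, v, hq⟩ | ⟨q, hq⟩
  · exact D.one hP hm top h1 h2 hne e (Or.inl ⟨x, u, v, hq⟩)
  · rcases hq.E1 with hx | hx
    · exact D.one hP hm top h1 h2 hne e (Or.inr ⟨x, q, hq, hx⟩)
    · have hn := (hq.ck_ne hP.toSqE.nd52).1
      rcases out_two h1 h2 hne hx with rfl | rfl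
      · exact hn rfl
      · rcases hq.ck_top hP.top with k | k | k | k
        · exact GX.ck_asym hx k.2.1
        · exact D.F_ne_top hP hm top k e
        · exact GX.ck_asym h1 k.2.2
        · exact D.F_ne_top hP hm top k e.symm

/-- THE POLES STAY DIFFERENT -/
theorem poles_inj (hP : P.Cls) (hm : K.Min) {a b : V} (top : P.Top D.T a b D.y) {n z z' : V}
    (hl : K.LC n) (h1 : K.ar n z) (h2 : K.ar n z') (e : D.toF.F z = D.toF.F z') : z = z' := by
  by_contra hne
  obtain ⟨c, hc | hc⟩ := eqvGen_ne (hl z z' (Or.inl h1) (Or.inl h2)) hne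
  · exact D.no_cor hP hm top h1 h2 hne e hc.symm
  · exact D.no_cor hP hm top h1 h2 hne e hc

end Sq1

end Pool.Agent.DI
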