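import Pool.Agent.DI.NdT
import Pool.Agent.DI.SqC
import Pool.Agent.DI.WkD

/-!
# DI/SfX: the class and the strands under the static fold of one top

`h : D.Sf P a b` (`D : Sq1 K`): `P.Cls`, `K.Min`, `D.T` is a top with the sides `a`, `b` and the partner
`D.y`; (L) if `D.T → p` and `p` is the partner of a top over `D.T` then `D.y → p`.
`h.Bt_iff`: exactly the squares with tops in the orbit of `D.T` are dropped. `h.Top_iff`: the tops of the
fold are the images of the other tops. `h.SqT`: the static class of the squares.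
-/

namespace Pool.Agent.DI

open MulAction
open Pool.Agent.SAF (InC orbs FinOrb oc mk_eq_iff FinOrb_iff)

variable {H V : Type} [Group H] [MulAction H V]

/-- THE HYPOTHESES for the fold of one top -/
structure Sq1.Sf {K : GX H V} (D : Sq1 K) (P : P45 K) (a b : V) : Prop where
  cls : P.Cls
  min : K.Min
  top : P.Top D.T a b D.y
  low : ∀ T' z p, P.Top T' D.T z p → K.ar D.T p → K.ar D.y p

namespace Sq1.Sf

variable {K : GX H V} {D : Sq1 K} {P : P45 K} {a b : V} (h : D.Sf P a b)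

include h

theorem low_smul {g : H} {T' z p : V} (k : P.Top T' (g • D.T) z p) (k' : K.ar (g • D.T) p) :
    K.ar (g • D.y) p := by
  have k1 := k.smul g⁻¹
  have k2 := K.ar_smul g⁻¹ _ _ k'
  rw [inv_smul_smul] at k1 k2
  have k3 := K.ar_smul g _ _ (h.low _ _ _ k1 k2)
  rwa [smul_inv_smul] at k3

/-- a partner has smaller rank -/
theorem rkp {t s s' z : V} (k : P.Top t s s' z) : K.rk z < K.rk t := by
  rcases (h.cls.side _ _ _ _ k).resolve_left (fun k => k) with e | e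
  · exact (K.ar_rk _ _ e).trans (K.ar_rk _ _ k.2.1)
  · exact (K.ar_rk _ _ e).trans (K.ar_rk _ _ k.2.2)

theorem notO_T {x : V} (hx : K.rk x < K.rk D.T) : ¬ D.toF.O x := by
  rintro ⟨g, rfl⟩
  rw [K.rk_smul] at hx
  omega

theorem notO_gy (g : H) : ¬ D.toF.O (g • D.y) := h.notO_T (by rw [K.rk_smul]; exact D.rk)

/-- the own squares: the image of the top is the image of the partner -/
theorem own_eq {t s s' z : V} (k : P.Top t s s' z) (hO : D.toF.O t) : D.toF.F t = D.toF.F z := by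
  obtain ⟨g, rfl⟩ := hO
  have e := (h.cls.par _ _ _ _ _ _ _ k (h.top.smul g)).resolve_left (fun k => k)
  rw [e]
  apply D.toF.F_eq.2
  have e1 : D.toF.f (g • D.T) = g • D.y := D.f_T g
  rw [e1, D.toF.f_not (h.notO_gy g)]

/-- the images of the sides of the other tops are different and not adjacent -/
theorem sides_ne {t s s' z : V} (k : P.Top t s s' z) (hO : ¬ D.toF.O t) :
    D.toF.F s ≠ D.toF.F s' := by
  by_cases hr : K.rk D.T < K.rk t
  · exact fun e => D.nadj h.min h.cls k hr (Or.inl e)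
  · intro e
    have e' := D.toF.F_eq.1 e
    have h1 := K.ar_rk _ _ k.2.1
    have h2 := K.ar_rk _ _ k.2.2
    rw [D.toF.f_not (h.notO_T (by omega)), D.toF.f_not (h.notO_T (by omega))] at e'
    exact h.cls.nab _ _ _ _ k e'

/-- the image of another top is not the image of its partner -/
theorem top_ne {t s s' z : V} (k : P.Top t s s' z) (hO : ¬ D.toF.O t) :
    D.toF.F t ≠ D.toF.F z := by
  intro e
  have e' := D.toF.F_eq.1 e
  rw [D.toF.f_not hO] at e'
  have h1 := D.toF.rk_f z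
  have h2 := h.rkp k
  rw [← e'] at h1
  omega

/-- EXACTLY THE OWN SQUARES ARE DROPPED -/
theorem Bt_iff {i : K.I} (hi : P.sq i) {j : Fin 4} (hj : P.tp i j) :
    D.toF.Bt i ↔ D.toF.O (P.qt i j) := by
  have kT := P.tp_Top hi hj
  constructor
  · intro hB
    by_contra hO
    have n1 := h.sides_ne kT hO
    have n2 := h.top_ne kT hO
    rw [D.flat.Bt4_iff P hi] at hB
    have key : D.toF.F (P.qt i j) = D.toF.F (P.qt i (j + 2)) ∨
        D.toF.F (P.qt i (j + 1)) = D.toF.F (P.qt i (j + 3)) := by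
      clear n1 n2 kT hj hO
      fin_cases j
      · exact hB
      · exact hB.symm.imp id Eq.symm
      · exact hB.imp Eq.symm Eq.symm
      · exact hB.symm.imp Eq.symm id
    rcases key with e | e
    · exact n2 e
    · exact n1 e
  · intro hO
    have e := h.own_eq kT hO
    rw [D.flat.Bt4_iff P hi]
    clear kT hj hO
    fin_cases j
    · exact Or.inl e
    · exact Or.inr e
    · exact Or.inl e.symm
    · exact Or.inr e.symm

/-- arrows from vertices which are not folded -/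
theorem ar_F {x z : V} (hx : ¬ D.toF.O x) (e : K.ar x z) : D.toF.gx.ar (D.toF.F x) (D.toF.F z) := by
  refine ⟨z, ?_, rfl⟩
  show K.ar (D.toF.f x) z
  rw [D.toF.f_not hx]
  exact e

/-- arrows from a side `T` to the partner -/
theorem ar_side {t s s' z : V} (k : P.Top t s s' z) (e : K.ar s z) :
    D.toF.gx.ar (D.toF.F s) (D.toF.F z) := by
  by_cases hO : D.toF.O s
  · obtain ⟨g, rfl⟩ := hO
    have e1 := h.low_smul k e
    have e2 : D.toF.F (g • D.T) = D.toF.F (g • D.y) := by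
      apply D.toF.F_eq.2
      have e3 : D.toF.f (g • D.T) = g • D.y := D.f_T g
      rw [e3, D.toF.f_not (h.notO_gy g)]
    rw [e2]
    exact h.ar_F (h.notO_gy g) e1
  · exact h.ar_F hO e

/-- the top of a kept square is not folded -/
theorem kept_notO {x s s' z : V} (k : P.Top x s s' z) (n : D.toF.F x ≠ D.toF.F z) :
    ¬ D.toF.O x := fun hO => n (h.own_eq k hO)

/-- the place of the top of a kept square -/
theorem q_top {a' q' b' y' : V} (q : Q4 P a' q' b' y') (n1 : D.toF.F a' ≠ D.toF.F b')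
    (n2 : D.toF.F q' ≠ D.toF.F y') (k1 : D.toF.gx.ar (D.toF.F q') (D.toF.F a'))
    (k2 : D.toF.gx.ar (D.toF.F q') (D.toF.F b')) : P.Top q' a' b' y' ∧ ¬ D.toF.O q' := by
  rcases q.tops h.cls.top with k | k | k | k
  · have kT : P.Top q' a' b' y' := ⟨q, k.1, k.2⟩
    exact ⟨kT, h.kept_notO kT n2⟩
  · -- the top is `b'`
    exfalso
    have kT : P.Top b' q' y' a' := ⟨q.rot, k.1, k.2⟩
    exact GX.not_both' (h.ar_F (h.kept_notO kT n1.symm) k.1) k2
  · -- the top is `y'`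
    exfalso
    have kT : P.Top y' b' a' q' := ⟨q.rot.rot, k.1, k.2⟩
    rcases (h.cls.side _ _ _ _ kT).resolve_left (fun k => k) with e | e
    · exact GX.not_both' (h.ar_side kT e) k2
    · exact GX.not_both' (h.ar_side kT.symm' e) k1
  · -- the top is `a'`
    exfalso
    have kT : P.Top a' y' q' b' := ⟨q.rot.rot.rot, k.1, k.2⟩
    exact GX.not_both' (h.ar_F (h.kept_notO kT n1) k.2) k1

/-- the image of another top is a top -/
theorem Top_F {t s s' z : V} (k : P.Top t s s' z) (hO : ¬ D.toF.O t) :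
    (D.flat.P45 P).Top (D.toF.F t) (D.toF.F s) (D.toF.F s') (D.toF.F z) := by
  refine ⟨(D.flat.Q4_iff P).2 ⟨_, _, _, _, k.1, rfl, rfl, rfl, rfl, h.sides_ne k hO, h.top_ne k hO⟩,
    h.ar_F hO k.2.1, h.ar_F hO k.2.2⟩

/-- THE TOPS OF THE FOLD -/
theorem Top_iff {T1 a1 b1 y1 : D.toF.W} : (D.flat.P45 P).Top T1 a1 b1 y1 ↔
    ∃ t s s' z, P.Top t s s' z ∧ ¬ D.toF.O t ∧ D.toF.F t = T1 ∧ D.toF.F s = a1 ∧
      D.toF.F s' = b1 ∧ D.toF.F z = y1 := by
  constructor
  · rintro ⟨q0, k1, k2⟩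
    obtain ⟨a', q', b', y', q, rfl, rfl, rfl, rfl, n1, n2⟩ := (D.flat.Q4_iff P).1 q0
    obtain ⟨kT, hO⟩ := h.q_top q n1 n2 k1 k2
    exact ⟨q', a', b', y', kT, hO, rfl, rfl, rfl, rfl⟩
  · rintro ⟨t, s, s', z, k, hO, rfl, rfl, rfl, rfl⟩
    exact h.Top_F k hO

/-- the places of the tops of the kept squares -/
theorem tp_iff {i : D.toF.gx.I} (hi : P.sq i.1) (j : Fin 4) :
    (D.flat.P45 P).tp i j ↔ P.tp i.1 j ∧ ¬ D.toF.O (P.qt i.1 j) := by
  constructor
  · rintro ⟨k1, k2⟩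
    have q := Q4_qt (P := P) (1 : H) hi (j + 3)
    simp only [one_smul] at q
    have e1 : ∀ j : Fin 4, j + 3 + 1 = j := by decide
    have e2 : ∀ j : Fin 4, j + 3 + 2 = j + 1 := by decide
    have e3 : ∀ j : Fin 4, j + 3 + 3 = j + 2 := by decide
    rw [e1, e2, e3] at q
    have n2 := D.flat.opp_ne P hi i.2 j
    have n1 := D.flat.opp_ne P hi i.2 (j + 3)
    rw [e2] at n1
    have h1 := h.q_top q n1 n2 k2 k1
    exact ⟨⟨h1.1.2.2, h1.1.2.1⟩, h1.2⟩
  · rintro ⟨⟨k1, k2⟩, hO⟩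
    exact ⟨h.ar_F hO k1, h.ar_F hO k2⟩

/-- THE STATIC CLASS OF THE SQUARES OF THE FOLD -/
theorem SqT : (D.flat.P45 P).SqT where
  top i hi := by
    obtain ⟨j, hj⟩ := h.cls.top i.1 hi
    have hO : ¬ D.toF.O (P.qt i.1 j) := fun hO => i.2 ((h.Bt_iff hi hj).2 hO)
    exact ⟨j, (h.tp_iff hi j).2 ⟨hj, hO⟩⟩
  one := by
    intro i i' hi hi' j j' ht ht' g e
    obtain ⟨t1, o1⟩ := (h.tp_iff hi j).1 ht
    obtain ⟨t2, o2⟩ := (h.tp_iff hi' j').1 ht'
    have e1 : g • D.toF.F (P.qt i.1 j) = D.toF.F (P.qt i'.1 j') := e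
    rw [← D.toF.F_smul, D.toF.F_eq, D.toF.f_not o2,
      D.toF.f_not (fun k => o1 ((D.toF.O_iff g _).1 k))] at e1
    exact Subtype.ext (h.cls.one i.1 i'.1 hi hi' j j' t1 t2 g e1)
  par := by
    intro T1 a1 b1 y1 a2 b2 y2 k1 k2
    right
    obtain ⟨t, s, s', z, k, hO, rfl, rfl, rfl, rfl⟩ := h.Top_iff.1 k1
    obtain ⟨t2, r, r', z', k', hO', e, rfl, rfl, rfl⟩ := h.Top_iff.1 k2
    have e' := D.toF.F_eq.1 e
    rw [D.toF.f_not hO, D.toF.f_not hO'] at e'
    subst e'
    rw [(h.cls.par _ _ _ _ _ _ _ k k').resolve_left (fun k => k)]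
  side := by
    intro T1 a1 b1 y1 k1
    right
    obtain ⟨t, s, s', z, k, hO, rfl, rfl, rfl, rfl⟩ := h.Top_iff.1 k1
    rcases (h.cls.side _ _ _ _ k).resolve_left (fun k => k) with e | e
    · exact Or.inl (h.ar_side k e)
    · exact Or.inr (h.ar_side k.symm' e)
  Ey _ _ _ _ _ k := k.elim
  Ea _ _ _ _ _ k := k.elim
  Es _ _ k := k.elim
  nab := by
    intro T1 a1 b1 y1 k1
    obtain ⟨t, s, s', z, k, hO, rfl, rfl, rfl, rfl⟩ := h.Top_iff.1 k1
    exact h.sides_ne k hO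
  nTy := by
    intro T1 a1 b1 y1 k1
    obtain ⟨t, s, s', z, k, hO, rfl, rfl, rfl, rfl⟩ := h.Top_iff.1 k1
    exact h.top_ne k hO

end Sq1.Sf

end Pool.Agent.DI
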