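import Pool.Agent.DI.SfX

/-!
# DI/SfX2: the strands under the static fold of one top

For an invariant set `A'` of arrows of the fold: `D.prA A'` the arrows outside `T` over `A'`, `D.prB A'`
the arrows of the orbit of `T` which are laid on arrows in `A'`. `h.sX_fold` :
`sX' A' + oc (prB A') = sX (prA A') + sX (prB A')`.
-/

namespace Pool.Agent.DI

open MulAction
open Pool.Agent.SAF (InC orbs FinOrb oc mk_eq_iff FinOrb_iff oc_le_of_inj oc_le_of_surj)

variable {H V : Type} [Group H] [MulAction H V]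

namespace SqF

variable {K : GX H V} {D : SqF K}

open Classical in
/-- a sum over the cells of the fold -/
theorem sum_kept (w : K.I → ℤ) : ∑ j : D.gx.I, w j.1 = ∑ i : K.I, if D.Bt i then 0 else w i := by
  have h6 : ∀ (I J : Fintype {i : K.I // ¬ D.Bt i}) (f : {i : K.I // ¬ D.Bt i} → ℤ),
      (@Finset.sum _ _ _ (@Finset.univ _ I) f) = @Finset.sum _ _ _ (@Finset.univ _ J) f := by
    intro I J f
    rw [Subsingleton.elim I J]
  have h5 : ∑ j : D.gx.I, w j.1 = ∑ j : {i : K.I // ¬ D.Bt i}, w j.1 := h6 _ _ _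
  have h4 : ∑ j : {i : K.I // ¬ D.Bt i}, w j.1 =
      ∑ i ∈ (Finset.univ : Finset K.I).filter (fun i => ¬ D.Bt i), w i := by
    rw [Finset.sum_subtype ((Finset.univ : Finset K.I).filter (fun i => ¬ D.Bt i))
      (p := fun i => ¬ D.Bt i) (fun i => by simp) (fun i => w i)]
  rw [h5, h4, Finset.sum_filter]
  refine Finset.sum_congr rfl fun i _ => ?_
  by_cases h : D.Bt i
  · rw [if_pos h, if_neg (not_not.2 h)]
  · rw [if_neg h, if_pos h]

end SqF

namespace P45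

variable {K : GX H V} {P : P45 K}

/-- a sum over the places of a square, from one place -/
theorem sumc4 (f : Fin 4 → ℤ) (j : Fin 4) :
    ∑ k : Fin 4, f k = f j + f (j + 1) + f (j + 2) + f (j + 3) := by
  rw [Fin.sum_univ_four]
  fin_cases j
  · rfl
  · show f 0 + f 1 + f 2 + f 3 = f 1 + f 2 + f 3 + f 0
    ring
  · show f 0 + f 1 + f 2 + f 3 = f 2 + f 3 + f 0 + f 1
    ring
  · show f 0 + f 1 + f 2 + f 3 = f 3 + f 0 + f 1 + f 2
    ring

/-- four consecutive vertices of a square -/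
theorem cc4_eq {i : K.I} (hi : P.sq i) (F : V → V → V → V → ℤ) : K.cc4 i F =
    ∑ j : Fin 4, F (P.qt i j) (P.qt i (j + 1)) (P.qt i (j + 2)) (P.qt i (j + 3)) := by
  have h : ∀ (n : ℕ), n = 4 → ∑ j : Fin n, F (K.vx i j) (K.vx i (j + 1)) (K.vx i (j + 2))
      (K.vx i (j + 3)) = ∑ j : Fin 4, F (K.vx i j) (K.vx i (j + 1)) (K.vx i (j + 2))
      (K.vx i (j + 3)) := by
    rintro n rfl
    rfl
  unfold GX.cc4
  rw [h _ (P.tlen4 hi)]
  refine Finset.sum_congr rfl fun j _ => ?_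
  rw [P.tvx4 hi, P.tvx4 hi, P.tvx4 hi, P.tvx4 hi]
  fin_cases j <;> rfl

open Classical in
/-- the indicator of an arrow -/
noncomputable def ia (K : GX H V) (A : Set (V × V)) (p q : V) : ℤ :=
  if K.ar p q ∧ (p, q) ∈ A then 1 else 0

theorem ia_pos {A : Set (V × V)} {p q : V} (h1 : K.ar p q) (h2 : (p, q) ∈ A) : ia K A p q = 1 :=
  if_pos ⟨h1, h2⟩

theorem ia_neg {A : Set (V × V)} {p q : V} (h : ¬ (K.ar p q ∧ (p, q) ∈ A)) : ia K A p q = 0 :=
  if_neg h

open Classical in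
/-- the passes of a walk: the two edges which do not contain the top -/
theorem SqT.passes (hs : P.SqT) (A : Set (V × V)) {i : K.I} (hi : P.sq i) {j : Fin 4}
    (hj : P.tp i j) : K.ccs i (fun x y z => (if K.ar x y ∧ K.ar y z ∧ (y, z) ∈ A then 1 else 0) +
        if K.ar z y ∧ K.ar y x ∧ (y, x) ∈ A then 1 else 0) =
      ia K A (P.qt i (j + 1)) (P.qt i (j + 2)) + ia K A (P.qt i (j + 2)) (P.qt i (j + 1)) +
      (ia K A (P.qt i (j + 3)) (P.qt i (j + 2)) + ia K A (P.qt i (j + 2)) (P.qt i (j + 3))) := by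
  have kT := P.tp_Top hi hj
  rw [P.ccs4 hi, sumc4 _ j]
  have a1 : j + 1 + 1 = j + 2 := by rw [add_assoc]; rfl
  have a2 : j + 1 + 2 = j + 3 := by rw [add_assoc]; rfl
  have a3 : j + 2 + 1 = j + 3 := by rw [add_assoc]; rfl
  have a4 : j + 2 + 2 = j := by rw [add_assoc]; exact add_zero j
  have a5 : j + 3 + 1 = j := by rw [add_assoc]; exact add_zero j
  have a6 : j + 3 + 2 = j + 1 := by rw [add_assoc]; rfl
  rw [a1, a2, a3, a4, a5, a6]
  set t := P.qt i j
  set s := P.qt i (j + 1)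
  set s' := P.qt i (j + 3)
  set z := P.qt i (j + 2)
  have h1 := kT.2.1
  have h2 := kT.2.2
  have hs1 := (hs.side _ _ _ _ kT).resolve_left (fun k => k)
  have n1 : ¬ K.ar s t := GX.not_both' h1
  have n2 : ¬ K.ar s' t := GX.not_both' h2
  have e1 : (if K.ar t s ∧ K.ar s z ∧ (s, z) ∈ A then (1 : ℤ) else 0) = ia K A s z := by
    unfold ia
    exact if_congr ⟨fun k => k.2, fun k => ⟨h1, k⟩⟩ rfl rfl
  have e2 : (if K.ar z s ∧ K.ar s t ∧ (s, t) ∈ A then (1 : ℤ) else 0) = 0 :=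
    if_neg fun k => n1 k.2.1
  have e3 : (if K.ar s z ∧ K.ar z s' ∧ (z, s') ∈ A then (1 : ℤ) else 0) = ia K A z s' := by
    unfold ia
    refine if_congr ⟨fun k => k.2, fun k => ⟨?_, k⟩⟩ rfl rfl
    rcases hs1 with e | e
    · exact e
    · exact absurd k.1 (GX.not_both' e)
  have e4 : (if K.ar s' z ∧ K.ar z s ∧ (z, s) ∈ A then (1 : ℤ) else 0) = ia K A z s := by
    unfold ia
    refine if_congr ⟨fun k => k.2, fun k => ⟨?_, k⟩⟩ rfl rfl
    rcases hs1 with e | e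
    · exact absurd k.1 (GX.not_both' e)
    · exact e
  have e5 : (if K.ar z s' ∧ K.ar s' t ∧ (s', t) ∈ A then (1 : ℤ) else 0) = 0 :=
    if_neg fun k => n2 k.2.1
  have e6 : (if K.ar t s' ∧ K.ar s' z ∧ (s', z) ∈ A then (1 : ℤ) else 0) = ia K A s' z := by
    unfold ia
    exact if_congr ⟨fun k => k.2, fun k => ⟨h2, k⟩⟩ rfl rfl
  have e7 : (if K.ar s' t ∧ K.ar t s ∧ (t, s) ∈ A then (1 : ℤ) else 0) = 0 :=
    if_neg fun k => n2 k.1
  have e8 : (if K.ar s t ∧ K.ar t s' ∧ (t, s') ∈ A then (1 : ℤ) else 0) = 0 :=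
    if_neg fun k => n1 k.1
  rw [e1, e2, e3, e4, e5, e6, e7, e8]
  ring

open Classical in
/-- the strands of a pentagon: the edges -/
theorem pent_edges (A : Set (V × V)) (i : K.I) :
    K.ccs i (fun x y z => (if K.ar y z ∧ (y, z) ∈ A then 1 else 0) +
        if K.ar y x ∧ (y, x) ∈ A then 1 else 0) =
      K.ccs i (fun _ y z => ia K A y z + ia K A z y) := by
  rw [K.ccs_add i (fun _ y z => if K.ar y z ∧ (y, z) ∈ A then (1 : ℤ) else 0)
    (fun x y _ => if K.ar y x ∧ (y, x) ∈ A then (1 : ℤ) else 0),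
    K.ccs_add i (fun _ y z => ia K A y z) (fun _ y z => ia K A z y)]
  congr 1
  exact K.ccs_shift i (fun x y => if K.ar y x ∧ (y, x) ∈ A then (1 : ℤ) else 0)

end P45

namespace Sq1

variable {K : GX H V} (D : Sq1 K) (A' : Set (D.toF.W × D.toF.W))

/-- the arrows outside `T` over `A'` -/
def prA : Set (V × V) := {p | ¬ D.toF.O p.1 ∧ K.ar p.1 p.2 ∧ (D.toF.F p.1, D.toF.F p.2) ∈ A'}

/-- the arrows of the orbit of `T` which are laid on arrows in `A'` -/
def prB : Set (V × V) := {p | D.toF.O p.1 ∧ K.ar p.1 p.2 ∧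
  ((D.toF.gx.ar (D.toF.F p.1) (D.toF.F p.2) ∧ (D.toF.F p.1, D.toF.F p.2) ∈ A') ∨
    (D.toF.gx.ar (D.toF.F p.2) (D.toF.F p.1) ∧ (D.toF.F p.2, D.toF.F p.1) ∈ A'))}

variable {D A'}

theorem prA_smul (hA : ∀ (g : H), ∀ p ∈ A', g • p ∈ A') : ∀ (g : H), ∀ p ∈ D.prA A', g • p ∈ D.prA A' := by
  rintro g ⟨x, z⟩ ⟨h1, h2, h3⟩
  refine ⟨fun k => h1 ((D.toF.O_iff g x).1 k), K.ar_smul g _ _ h2, ?_⟩
  have := hA g _ h3
  show (D.toF.F (g • x), D.toF.F (g • z)) ∈ A'
  rw [D.toF.F_smul, D.toF.F_smul]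
  exact this

theorem prB_smul (hA : ∀ (g : H), ∀ p ∈ A', g • p ∈ A') : ∀ (g : H), ∀ p ∈ D.prB A', g • p ∈ D.prB A' := by
  rintro g ⟨x, z⟩ ⟨h1, h2, h3⟩
  refine ⟨(D.toF.O_iff g x).2 h1, K.ar_smul g _ _ h2, ?_⟩
  show (D.toF.gx.ar (D.toF.F (g • x)) (D.toF.F (g • z)) ∧ (D.toF.F (g • x), D.toF.F (g • z)) ∈ A') ∨
    (D.toF.gx.ar (D.toF.F (g • z)) (D.toF.F (g • x)) ∧ (D.toF.F (g • z), D.toF.F (g • x)) ∈ A')
  rw [D.toF.F_smul, D.toF.F_smul]
  rcases h3 with ⟨k1, k2⟩ | ⟨k1, k2⟩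
  · exact Or.inl ⟨D.toF.gx.ar_smul g _ _ k1, hA g _ k2⟩
  · exact Or.inr ⟨D.toF.gx.ar_smul g _ _ k1, hA g _ k2⟩

/-- edge by edge -/
theorem ia_edge {p q : V} (e : K.E p q) :
    P45.ia D.toF.gx A' (D.toF.F p) (D.toF.F q) + P45.ia D.toF.gx A' (D.toF.F q) (D.toF.F p) =
      P45.ia K (D.prA A') p q + P45.ia K (D.prA A') q p +
        (P45.ia K (D.prB A') p q + P45.ia K (D.prB A') q p) := by
  have key : ∀ p q : V, K.ar p q →
      P45.ia D.toF.gx A' (D.toF.F p) (D.toF.F q) + P45.ia D.toF.gx A' (D.toF.F q) (D.toF.F p) =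
      P45.ia K (D.prA A') p q + P45.ia K (D.prA A') q p +
        (P45.ia K (D.prB A') p q + P45.ia K (D.prB A') q p) := by
    intro p q e
    have n1 : P45.ia K (D.prA A') q p = 0 := P45.ia_neg fun k => GX.not_both' e k.1
    have n2 : P45.ia K (D.prB A') q p = 0 := P45.ia_neg fun k => GX.not_both' e k.1
    rw [n1, n2]
    by_cases hO : D.toF.O p
    · have n3 : P45.ia K (D.prA A') p q = 0 := P45.ia_neg fun k => k.2.1 hO
      rw [n3]
      rcases D.flat.E' (Or.inl e) with k | k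
      · have n4 : P45.ia D.toF.gx A' (D.toF.F q) (D.toF.F p) = 0 :=
          P45.ia_neg fun k' => GX.not_both' k k'.1
        rw [n4]
        by_cases hA : (D.toF.F p, D.toF.F q) ∈ A'
        · rw [P45.ia_pos k hA, P45.ia_pos (A := D.prB A') e ⟨hO, e, Or.inl ⟨k, hA⟩⟩]
          ring
        · rw [P45.ia_neg (fun k' => hA k'.2), P45.ia_neg]
          · ring
          · rintro ⟨-, -, -, ⟨-, k'⟩ | ⟨k', -⟩⟩
            · exact hA k'
            · exact GX.not_both' k k'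
      · have n4 : P45.ia D.toF.gx A' (D.toF.F p) (D.toF.F q) = 0 :=
          P45.ia_neg fun k' => GX.not_both' k k'.1
        rw [n4]
        by_cases hA : (D.toF.F q, D.toF.F p) ∈ A'
        · rw [P45.ia_pos k hA, P45.ia_pos (A := D.prB A') e ⟨hO, e, Or.inr ⟨k, hA⟩⟩]
          ring
        · rw [P45.ia_neg (fun k' => hA k'.2), P45.ia_neg]
          · ring
          · rintro ⟨-, -, -, ⟨k', -⟩ | ⟨-, k'⟩⟩
            · exact GX.not_both' k k'
            · exact hA k'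
    · have n3 : P45.ia K (D.prB A') p q = 0 := P45.ia_neg fun k => hO k.2.1
      have k : D.toF.gx.ar (D.toF.F p) (D.toF.F q) := by
        refine ⟨q, ?_, rfl⟩
        show K.ar (D.toF.f p) q
        rw [D.toF.f_not hO]
        exact e
      have n4 : P45.ia D.toF.gx A' (D.toF.F q) (D.toF.F p) = 0 :=
        P45.ia_neg fun k' => GX.not_both' k k'.1
      rw [n3, n4]
      by_cases hA : (D.toF.F p, D.toF.F q) ∈ A'
      · rw [P45.ia_pos k hA, P45.ia_pos (A := D.prA A') e ⟨hO, e, hA⟩]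
        ring
      · rw [P45.ia_neg (fun k' => hA k'.2), P45.ia_neg (fun k' => hA k'.2.2.2)]
        ring
  rcases e with e | e
  · exact key p q e
  · have := key q p e
    linarith

end Sq1

namespace Sq1.Sf

variable {K : GX H V} {D : Sq1 K} {P : P45 K} {a b : V} (h : D.Sf P a b)

include h

/-- the weights stay -/
theorem wt_eq {i : D.toF.gx.I} : (D.flat.P45 P).wt i = P.wt i.1 := by
  classical
  by_cases hi : P.sq i.1
  · have e : (D.flat.P45 P).flp i ↔ P.flp i.1 := by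
      constructor
      · rintro ⟨g, j, hj, e1, e2⟩
        obtain ⟨hj, hO⟩ := (h.tp_iff hi j).1 hj
        have kT := P.tp_Top hi hj
        have e1 : g • D.toF.F (P.qt i.1 j) = D.toF.F (P.qt i.1 j) := e1
        have e2 : g • D.toF.F (P.qt i.1 (j + 1)) = D.toF.F (P.qt i.1 (j + 3)) := e2
        rw [← D.toF.F_smul, D.toF.F_eq, D.toF.f_not hO,
          D.toF.f_not (fun k => hO ((D.toF.O_iff g _).1 k))] at e1
        have k := K.ar_smul g _ _ kT.2.1
        rw [e1] at k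
        rcases h.cls.sides kT k with e3 | e3
        · exfalso
          rw [← D.toF.F_smul, e3] at e2
          exact h.sides_ne kT hO e2
        · exact ⟨g, j, hj, e1, e3⟩
      · rintro ⟨g, j, hj, e1, e2⟩
        have hO : ¬ D.toF.O (P.qt i.1 j) := fun hO => i.2 ((h.Bt_iff hi hj).2 hO)
        refine ⟨g, j, (h.tp_iff hi j).2 ⟨hj, hO⟩, ?_, ?_⟩
        · show g • D.toF.F (P.qt i.1 j) = D.toF.F (P.qt i.1 j)
          rw [← D.toF.F_smul, e1]
        · show g • D.toF.F (P.qt i.1 (j + 1)) = D.toF.F (P.qt i.1 (j + 3))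
          rw [← D.toF.F_smul, e2]
    unfold P45.wt
    exact if_congr (and_congr Iff.rfl e) rfl rfl
  · have hi' : ¬ (D.flat.P45 P).sq i := hi
    rw [P45.wt_pent hi, P45.wt_pent hi']

/-- the partner of an own square is not folded -/
theorem notO_partner {t s s' z : V} (k : P.Top t s s' z) (hO : D.toF.O t) : ¬ D.toF.O z := by
  obtain ⟨g, rfl⟩ := hO
  have e := (h.cls.par _ _ _ _ _ _ _ k (h.top.smul g)).resolve_left (fun k => k)
  rw [e]
  exact h.notO_gy g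

theorem notO_side {t s s' z : V} (k : P.Top t s s' z) (hO : D.toF.O t) : ¬ D.toF.O s :=
  D.flat.na _ _ hO k.2.1

/-- the walks of the arrows in `prB` -/
def BW (_ : D.Sf P a b) (A' : Set (D.toF.W × D.toF.W)) (t : (V × V) × (V × V)) : Prop :=
  K.ar t.1.1 t.2.2 ∧ t.1 ∈ D.prB A'

theorem BW_ar {A' : Set (D.toF.W × D.toF.W)} {t : (V × V) × (V × V)} (k : h.BW A' t) :
    K.ar t.1.1 t.1.2 ∧ K.ar t.1.1 t.2.2 := ⟨k.2.2.1, k.1⟩

open Classical in
omit h in
/-- the arrows of `T` -/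
theorem _root_.Pool.Agent.DI.Sq1.prB_ia {A' : Set (D.toF.W × D.toF.W)} {p q : V} (hO : D.toF.O p) (e : K.ar p q) :
    (if (p, q) ∈ D.prB A' then (1 : ℤ) else 0) =
      P45.ia D.toF.gx A' (D.toF.F p) (D.toF.F q) + P45.ia D.toF.gx A' (D.toF.F q) (D.toF.F p) := by
  rw [Sq1.ia_edge (Or.inl e)]
  have n1 : P45.ia K (D.prA A') q p = 0 := P45.ia_neg fun k => GX.not_both' e k.1
  have n2 : P45.ia K (D.prB A') q p = 0 := P45.ia_neg fun k => GX.not_both' e k.1
  have n3 : P45.ia K (D.prA A') p q = 0 := P45.ia_neg fun k => k.2.1 hO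
  rw [n1, n2, n3, zero_add, zero_add, add_zero]
  unfold P45.ia
  exact if_congr ⟨fun k => ⟨e, k⟩, fun k => k.2⟩ rfl rfl

open Classical in
/-- THE CELLS, one by one -/
theorem cell (A' : Set (D.toF.W × D.toF.W)) (i : K.I) :
    (if D.toF.Bt i then 0 else (P.wt i : ℤ) * if P.sq i then
      K.ccs i (fun x y z => (if D.toF.gx.ar (D.toF.F x) (D.toF.F y) ∧ D.toF.gx.ar (D.toF.F y) (D.toF.F z)
        ∧ (D.toF.F y, D.toF.F z) ∈ A' then 1 else 0) +
        if D.toF.gx.ar (D.toF.F z) (D.toF.F y) ∧ D.toF.gx.ar (D.toF.F y) (D.toF.F x) ∧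
        (D.toF.F y, D.toF.F x) ∈ A' then 1 else 0)
      else K.ccs i (fun x y z => (if D.toF.gx.ar (D.toF.F y) (D.toF.F z) ∧
        (D.toF.F y, D.toF.F z) ∈ A' then 1 else 0) +
        if D.toF.gx.ar (D.toF.F y) (D.toF.F x) ∧ (D.toF.F y, D.toF.F x) ∈ A' then 1 else 0)) +
    (if P.sq i then (P.wt i : ℤ) *
      K.cc4 i (fun x y z u => (if h.BW A' ((y, z), (u, x)) then 1 else 0) +
        if h.BW A' ((y, x), (u, z)) then 1 else 0) else 0) =
    (P.wt i : ℤ) * (if P.sq i then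
      K.ccs i (fun x y z => (if K.ar x y ∧ K.ar y z ∧ (y, z) ∈ D.prA A' then 1 else 0) +
        if K.ar z y ∧ K.ar y x ∧ (y, x) ∈ D.prA A' then 1 else 0)
      else K.ccs i (fun x y z => (if K.ar y z ∧ (y, z) ∈ D.prA A' then 1 else 0) +
        if K.ar y x ∧ (y, x) ∈ D.prA A' then 1 else 0)) +
    (P.wt i : ℤ) * (if P.sq i then
      K.ccs i (fun x y z => (if K.ar x y ∧ K.ar y z ∧ (y, z) ∈ D.prB A' then 1 else 0) +
        if K.ar z y ∧ K.ar y x ∧ (y, x) ∈ D.prB A' then 1 else 0)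
      else K.ccs i (fun x y z => (if K.ar y z ∧ (y, z) ∈ D.prB A' then 1 else 0) +
        if K.ar y x ∧ (y, x) ∈ D.prB A' then 1 else 0)) := by
  by_cases hi : P.sq i
  · obtain ⟨j, hj⟩ := h.cls.top i hi
    have kT := P.tp_Top hi hj
    have hsT : P.SqT := h.cls.toSqE
    rw [if_pos hi, if_pos hi, if_pos hi, if_pos hi, hsT.passes (D.prA A') hi hj,
      hsT.passes (D.prB A') hi hj]
    have c4 : K.cc4 i (fun x y z u => (if h.BW A' ((y, z), (u, x)) then (1 : ℤ) else 0) +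
        if h.BW A' ((y, x), (u, z)) then 1 else 0) =
        (if (P.qt i j, P.qt i (j + 1)) ∈ D.prB A' then 1 else 0) +
        if (P.qt i j, P.qt i (j + 3)) ∈ D.prB A' then 1 else 0 := by
      rw [P.cc4_eq hi, P45.sumc4 _ (j + 3)]
      have z0 : ∀ x y z u : V, ¬ (K.ar y x ∧ K.ar y z) →
          ((if h.BW A' ((y, z), (u, x)) then (1 : ℤ) else 0) +
            if h.BW A' ((y, x), (u, z)) then 1 else 0) = 0 := by
        intro x y z u hn
        rw [if_neg, if_neg, add_zero]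
        · exact fun k => hn (h.BW_ar k)
        · exact fun k => hn (h.BW_ar k).symm
      have b1 : j + 3 + 1 = j := by rw [add_assoc]; exact add_zero j
      have b2 : j + 3 + 2 = j + 1 := by rw [add_assoc]; rfl
      have b3 : j + 3 + 3 = j + 2 := by rw [add_assoc]; rfl
      have a1 : j + 1 + 1 = j + 2 := by rw [add_assoc]; rfl
      have a2 : j + 1 + 2 = j + 3 := by rw [add_assoc]; rfl
      have a3 : j + 1 + 3 = j := by rw [add_assoc]; exact add_zero j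
      have c1 : j + 2 + 1 = j + 3 := by rw [add_assoc]; rfl
      have c2 : j + 2 + 2 = j := by rw [add_assoc]; exact add_zero j
      have c3 : j + 2 + 3 = j + 1 := by rw [add_assoc]; rfl
      rw [b1, b2, b3, a1, a2, a3, c1, c2, c3]
      have hs1 := (hsT.side _ _ _ _ kT).resolve_left (fun k => k)
      rw [z0 (P.qt i j) (P.qt i (j + 1)) (P.qt i (j + 2)) (P.qt i (j + 3))
        (fun k => GX.not_both' kT.2.1 k.1),
        z0 (P.qt i (j + 1)) (P.qt i (j + 2)) (P.qt i (j + 3)) (P.qt i j) (fun k => by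
          rcases hs1 with e | e
          · exact GX.not_both' e k.1
          · exact GX.not_both' e k.2),
        z0 (P.qt i (j + 2)) (P.qt i (j + 3)) (P.qt i j) (P.qt i (j + 1))
        (fun k => GX.not_both' kT.2.2 k.2), add_zero, add_zero, add_zero]
      congr 1
      · exact if_congr ⟨fun k => k.2, fun k => ⟨kT.2.2, k⟩⟩ rfl rfl
      · exact if_congr ⟨fun k => k.2, fun k => ⟨kT.2.1, k⟩⟩ rfl rfl
    rw [c4]
    by_cases hO : D.toF.O (P.qt i j)
    · rw [if_pos ((h.Bt_iff hi hj).2 hO), zero_add, Sq1.prB_ia hO kT.2.1, Sq1.prB_ia hO kT.2.2,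
        h.own_eq kT hO]
      have o1 := h.notO_side kT hO
      have o2 := h.notO_side kT.symm' hO
      have o3 := h.notO_partner kT hO
      have w1 := Sq1.ia_edge (D := D) (A' := A') kT.Ea
      have w2 := Sq1.ia_edge (D := D) (A' := A') kT.Eb
      have v1 : ∀ p q, ¬ D.toF.O p → P45.ia K (D.prB A') p q = 0 := fun p q hp =>
        P45.ia_neg fun k => hp k.2.1
      rw [v1 _ _ o1, v1 _ _ o3] at w1
      rw [v1 _ _ o2, v1 _ _ o3] at w2
      rw [v1 _ _ o1, v1 _ _ o2, v1 _ _ o3, v1 _ _ o3]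
      linear_combination (P.wt i : ℤ) * w1 + (P.wt i : ℤ) * w2
    · have hB : ¬ D.toF.Bt i := fun k => hO ((h.Bt_iff hi hj).1 k)
      have e1 := h.SqT.passes A' (i := (⟨i, hB⟩ : D.toF.gx.I)) hi ((h.tp_iff (i := ⟨i, hB⟩) hi j).2 ⟨hj, hO⟩)
      have e1 := (D.flat.ccs P (⟨i, hB⟩ : D.toF.gx.I) _).symm.trans e1
      rw [if_neg hB, if_neg (fun k => hO k.1), if_neg (fun k => hO k.1), add_zero, mul_zero, add_zero]
      have w1 := Sq1.ia_edge (D := D) (A' := A') kT.Ea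
      have w2 := Sq1.ia_edge (D := D) (A' := A') kT.Eb
      have e2 : K.ccs i (fun x y z => (if D.toF.gx.ar (D.toF.F x) (D.toF.F y) ∧
          D.toF.gx.ar (D.toF.F y) (D.toF.F z)
          ∧ (D.toF.F y, D.toF.F z) ∈ A' then (1 : ℤ) else 0) +
          if D.toF.gx.ar (D.toF.F z) (D.toF.F y) ∧ D.toF.gx.ar (D.toF.F y) (D.toF.F x) ∧
          (D.toF.F y, D.toF.F x) ∈ A' then 1 else 0) = _ := e1
      rw [e2]
      have q : ∀ k : Fin 4, (D.flat.P45 P).qt (⟨i, hB⟩ : D.toF.gx.I) k = D.toF.F (P.qt i k) :=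
        fun _ => rfl
      rw [q, q, q]
      linear_combination (P.wt i : ℤ) * w1 + (P.wt i : ℤ) * w2
  · have hB : ¬ D.toF.Bt i := D.flat.not_Bt5 P hi
    rw [if_neg hi, if_neg hB, if_neg hi, if_neg hi, if_neg hi, P45.pent_edges (D.prA A'),
      P45.pent_edges (D.prB A'), add_zero, ← mul_add, ← K.ccs_add]
    congr 1
    have e1 := P45.pent_edges (K := D.toF.gx) A' (⟨i, hB⟩ : D.toF.gx.I)
    have e1 := (D.flat.ccs P (⟨i, hB⟩ : D.toF.gx.I) _).symm.trans
      (e1.trans (D.flat.ccs P (⟨i, hB⟩ : D.toF.gx.I) _))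
    have e2 : K.ccs i (fun x y z => (if D.toF.gx.ar (D.toF.F y) (D.toF.F z) ∧
        (D.toF.F y, D.toF.F z) ∈ A' then (1 : ℤ) else 0) +
        if D.toF.gx.ar (D.toF.F y) (D.toF.F x) ∧ (D.toF.F y, D.toF.F x) ∈ A' then 1 else 0) = _ := e1
    rw [e2]
    refine K.ccs_congr i fun j => ?_
    exact Sq1.ia_edge (K.vx_E (by rw [P.tlen5 hi]; norm_num) (j + 1))

theorem BW_smul {A' : Set (D.toF.W × D.toF.W)} (hA : ∀ (g : H), ∀ p ∈ A', g • p ∈ A') (g : H)
    (t : (V × V) × (V × V)) (k : h.BW A' t) : h.BW A' (g • t) :=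
  ⟨K.ar_smul g _ _ k.1, Sq1.prB_smul hA g _ k.2⟩

/-- the walks of the arrows of `T` are the arrows -/
theorem oc_BW {A' : Set (D.toF.W × D.toF.W)} (hA : ∀ (g : H), ∀ p ∈ A', g • p ∈ A') :
    oc H {t | P.W4 t ∧ h.BW A' t} = oc H (D.prB A') := by
  have fB : FinOrb H (D.prB A') := by
    have h1 : FinOrb H {p : V × V | K.E p.1 p.2} := K.fin_E
    exact h1.mono fun p k => Or.inl k.2.1
  have key : ∀ t : (V × V) × (V × V), P.W4 t → h.BW A' t → P.Top t.1.1 t.1.2 t.2.2 t.2.1 := by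
    intro t k1 k2
    exact ⟨Q4.symm k1, k2.2.2.1, k2.1⟩
  have hmaps : ∀ t ∈ {t | P.W4 t ∧ h.BW A' t}, t.1 ∈ D.prB A' := fun t k => k.2.2
  have hinj : ∀ t ∈ {t | P.W4 t ∧ h.BW A' t}, ∀ t' ∈ {t | P.W4 t ∧ h.BW A' t},
      (∃ g : H, g • t.1 = t'.1) → ∃ g : H, g • t = t' := by
    rintro t ⟨k1, k2⟩ t' ⟨k1', k2'⟩ ⟨g, hg⟩
    refine ⟨g, Prod.ext hg ?_⟩
    have kT := (key t k1 k2).smul g
    have kT' := key t' k1' k2'
    have e1 : g • t.1.1 = t'.1.1 := congrArg Prod.fst hg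
    have e2 : g • t.1.2 = t'.1.2 := congrArg Prod.snd hg
    rw [e1, e2] at kT
    obtain ⟨u1, u2⟩ := h.cls.uniq kT kT' (fun k => k)
    exact Prod.ext u2 u1
  have fW : FinOrb H {t | P.W4 t ∧ h.BW A' t} := Pool.Agent.SAF.FinOrb.of_inj fB (fun t => t.1) hmaps hinj
  apply le_antisymm
  · exact oc_le_of_inj fB (fun t => t.1) hmaps hinj
  · refine oc_le_of_surj fW (fun t => t.1) ?_ ?_
    · rintro ⟨x, c⟩ hx
      have hx' := hx
      obtain ⟨⟨g, rfl⟩, k2, -⟩ := hx'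
      have kT : P.Top (g • D.T) (g • a) (g • b) (g • D.y) := h.top.smul g
      rcases h.cls.sides kT k2 with rfl | rfl
      · refine ⟨((g • D.T, g • a), (g • D.y, g • b)), ⟨kT.1.symm, kT.2.2, hx⟩, 1, ?_⟩
        exact one_smul _ _
      · refine ⟨((g • D.T, g • b), (g • D.y, g • a)), ⟨kT.1, kT.2.1, hx⟩, 1, ?_⟩
        exact one_smul _ _
    · rintro t - t' - ⟨g, rfl⟩
      exact ⟨g, rfl⟩

/-- THE STRANDS OF THE FOLD -/
theorem sX_fold {A' : Set (D.toF.W × D.toF.W)} (hA : ∀ (g : H), ∀ p ∈ A', g • p ∈ A') :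
    (D.flat.P45 P).sX A' + oc H (D.prB A') = P.sX (D.prA A') + P.sX (D.prB A') := by
  classical
  have hsT : P.SqT := h.cls.toSqE
  have e1 := h.SqT.wc.two_sX A' hA
  have e2 := hsT.wc.two_sX (D.prA A') (Sq1.prA_smul hA)
  have e3 := hsT.wc.two_sX (D.prB A') (Sq1.prB_smul hA)
  have e4 := hsT.wc.sq_count4 (h.BW A') (h.BW_smul hA)
  rw [h.oc_BW hA] at e4
  have e5 : (2 : ℤ) * (D.flat.P45 P).sX A' = ∑ i : K.I, if D.toF.Bt i then 0 else
      (P.wt i : ℤ) * if P.sq i then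
      K.ccs i (fun x y z => (if D.toF.gx.ar (D.toF.F x) (D.toF.F y) ∧ D.toF.gx.ar (D.toF.F y) (D.toF.F z)
        ∧ (D.toF.F y, D.toF.F z) ∈ A' then 1 else 0) +
        if D.toF.gx.ar (D.toF.F z) (D.toF.F y) ∧ D.toF.gx.ar (D.toF.F y) (D.toF.F x) ∧
        (D.toF.F y, D.toF.F x) ∈ A' then 1 else 0)
      else K.ccs i (fun x y z => (if D.toF.gx.ar (D.toF.F y) (D.toF.F z) ∧
        (D.toF.F y, D.toF.F z) ∈ A' then 1 else 0) +
        if D.toF.gx.ar (D.toF.F y) (D.toF.F x) ∧ (D.toF.F y, D.toF.F x) ∈ A' then 1 else 0) := by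
    rw [e1, ← SqF.sum_kept]
    refine Finset.sum_congr rfl fun j _ => ?_
    rw [h.wt_eq]
    by_cases hj : P.sq j.1
    · have hj' : (D.flat.P45 P).sq j := hj
      rw [if_pos hj, if_pos hj']
      congr 1
      exact D.flat.ccs P j _
    · have hj' : ¬ (D.flat.P45 P).sq j := hj
      rw [if_neg hj, if_neg hj']
      congr 1
      exact D.flat.ccs P j _
  have e6 : (2 : ℤ) * (D.flat.P45 P).sX A' + 2 * oc H (D.prB A') =
      2 * P.sX (D.prA A') + 2 * P.sX (D.prB A') := by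
    rw [e5, e4, e2, e3, ← Finset.sum_add_distrib, ← Finset.sum_add_distrib]
    exact Finset.sum_congr rfl fun i _ => h.cell A' i
  have e7 : ((D.flat.P45 P).sX A' + oc H (D.prB A') : ℤ) =
      P.sX (D.prA A') + P.sX (D.prB A') := by linarith
  exact_mod_cast e7

end Sq1.Sf

end Pool.Agent.DI
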