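import Pool.Agent.DI.SfX2

/-!
# DI/SfX3: X, the class and sigma under the static fold of one top

`h.X_top`: `X' (F t) (F s) + oc (prB ..) = X t s + sX (prB ..)` for the arrows of the other tops.
`h.Cls`: the fold is of the class. For a thin top (`xa`, `xb`): `h.X_thin`: the strands do not change,
`h.sm_thin`: the sum of `X - 1` at the arrows of the other tops.
-/

namespace Pool.Agent.DI

open MulAction
open Pool.Agent.SAF (InC orbs FinOrb oc mk_eq_iff FinOrb_iff oc_le_of_inj oc_le_of_surj)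

variable {H V : Type} [Group H] [MulAction H V]

namespace P45

variable {K : GX H V} {P : P45 K}

/-- arrows have finitely many orbits -/
theorem fin_ar {A : Set (V × V)} (hA : ∀ p ∈ A, K.ar p.1 p.2) : FinOrb H A := by
  have h : FinOrb H {p : V × V | K.E p.1 p.2} := K.fin_E
  exact h.mono (fun p k => Or.inl (hA p k))

theorem fin_arr {A : Set (V × V)} (hA : ∀ p ∈ A, K.ar p.1 p.2) : (orbs H A).Finite := fin_ar hA

/-- one strand at every arrow -/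
theorem sX_one {A : Set (V × V)} (hi : ∀ h : H, ∀ p ∈ A, h • p ∈ A) (ha : ∀ p ∈ A, K.ar p.1 p.2)
    (h1 : ∀ p ∈ A, P.X p.1 p.2 = 1) : P.sX A = oc H A := by
  have hA := fin_arr (K := K) (H := H) ha
  have e1 := oc_le_sX (P := P) hi hA (fun p hp => (h1 p hp).ge)
  have e2 := sub_eq (P := P) hi hA (fun p hp => (h1 p hp).ge)
  have e3 : ∑ c ∈ hA.toFinset, (P.Xo c - 1) = 0 := by
    refine Finset.sum_eq_zero fun c hc => ?_
    rw [Set.Finite.mem_toFinset] at hc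
    obtain ⟨p, hp, rfl⟩ := hc
    have e4 : P.Xo (omk H p) = 1 := by
      have := h1 p hp
      rwa [X_eq] at this
    show P.Xo (omk H p) - 1 = 0
    rw [e4]
  rw [e3] at e2
  omega

theorem oc_le_sXa {A : Set (V × V)} (hi : ∀ h : H, ∀ p ∈ A, h • p ∈ A) (ha : ∀ p ∈ A, K.ar p.1 p.2)
    (h1 : ∀ p ∈ A, 1 ≤ P.X p.1 p.2) : oc H A ≤ P.sX A :=
  oc_le_sX hi (fin_arr (K := K) (H := H) ha) h1

/-- the strands of a set of arrows, split -/
theorem sX_split (A : Set (V × V)) (Q : V × V → Prop) (hQ : ∀ (g : H) p, Q p → Q (g • p)) :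
    P.sX A = P.sX {p | p ∈ A ∧ Q p} + P.sX {p | p ∈ A ∧ ¬ Q p} := by
  have hQ' : ∀ (g : H) p, Q (g • p) ↔ Q p := fun g p => ⟨fun k => by
    have := hQ g⁻¹ _ k
    rwa [inv_smul_smul] at this, hQ g p⟩
  unfold sX
  have f1 : FinOrb H {f : FL K | f ∈ P.RP ∧ (fy f, fz f) ∈ A} := fin_RP.mono fun _ k => k.1
  have f2 : FinOrb H {p : (V × V) × (V × V) | p ∈ P.ZP ∧ p.1 ∈ A} := fin_ZP.mono fun _ k => k.1
  rw [oc_split (G := H) f1 (fun f : FL K => Q (fy f, fz f)) (fun g f _ _ k => by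
      rw [fyz_smul]
      exact hQ g _ k),
    oc_split (G := H) f2 (fun p : (V × V) × (V × V) => Q p.1) (fun g p _ _ k => hQ g _ k)]
  have e1 : {f : FL K | f ∈ {f : FL K | f ∈ P.RP ∧ (fy f, fz f) ∈ A} ∧ Q (fy f, fz f)} =
      {f : FL K | f ∈ P.RP ∧ (fy f, fz f) ∈ {p | p ∈ A ∧ Q p}} := by
    ext f
    exact ⟨fun k => ⟨k.1.1, k.1.2, k.2⟩, fun k => ⟨⟨k.1, k.2.1⟩, k.2.2⟩⟩
  have e2 : {f : FL K | f ∈ {f : FL K | f ∈ P.RP ∧ (fy f, fz f) ∈ A} ∧ ¬ Q (fy f, fz f)} =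
      {f : FL K | f ∈ P.RP ∧ (fy f, fz f) ∈ {p | p ∈ A ∧ ¬ Q p}} := by
    ext f
    exact ⟨fun k => ⟨k.1.1, k.1.2, k.2⟩, fun k => ⟨⟨k.1, k.2.1⟩, k.2.2⟩⟩
  have e3 : {p : (V × V) × (V × V) | p ∈ {p : (V × V) × (V × V) | p ∈ P.ZP ∧ p.1 ∈ A} ∧ Q p.1} =
      {p : (V × V) × (V × V) | p ∈ P.ZP ∧ p.1 ∈ {p | p ∈ A ∧ Q p}} := by
    ext f
    exact ⟨fun k => ⟨k.1.1, k.1.2, k.2⟩, fun k => ⟨⟨k.1, k.2.1⟩, k.2.2⟩⟩
  have e4 : {p : (V × V) × (V × V) | p ∈ {p : (V × V) × (V × V) | p ∈ P.ZP ∧ p.1 ∈ A} ∧ ¬ Q p.1} =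
      {p : (V × V) × (V × V) | p ∈ P.ZP ∧ p.1 ∈ {p | p ∈ A ∧ ¬ Q p}} := by
    ext f
    exact ⟨fun k => ⟨k.1.1, k.1.2, k.2⟩, fun k => ⟨⟨k.1, k.2.1⟩, k.2.2⟩⟩
  rw [e1, e2, e3, e4]
  omega

/-- the sum of `X - 1`, split -/
theorem sm_split (A : Set (V × V)) (Q : V × V → Prop) (hQ : ∀ (g : H) p, Q p → Q (g • p))
    (hi : ∀ h : H, ∀ p ∈ A, h • p ∈ A) (ha : ∀ p ∈ A, K.ar p.1 p.2)
    (h1 : ∀ p ∈ A, 1 ≤ P.X p.1 p.2) :
    P.sm A = P.sm {p | p ∈ A ∧ Q p} + P.sm {p | p ∈ A ∧ ¬ Q p} := by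
  have hQ' : ∀ (g : H) p, Q (g • p) ↔ Q p := fun g p => ⟨fun k => by
    have := hQ g⁻¹ _ k
    rwa [inv_smul_smul] at this, hQ g p⟩
  have e1 := sX_split (P := P) A Q hQ
  have e2 := oc_split (G := H) (fin_ar (H := H) ha) Q (fun g p _ _ k => hQ g p k)
  have e3 := oc_le_sXa (P := P) (A := {p | p ∈ A ∧ Q p}) (fun g p k => ⟨hi g p k.1, hQ g p k.2⟩)
    (fun p k => ha p k.1) (fun p k => h1 p k.1)
  have e4 := oc_le_sXa (P := P) (A := {p | p ∈ A ∧ ¬ Q p})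
    (fun g p k => ⟨hi g p k.1, fun k' => k.2 ((hQ' g p).1 k')⟩)
    (fun p k => ha p k.1) (fun p k => h1 p k.1)
  unfold sm
  omega

end P45

namespace Sq1.Sf

variable {K : GX H V} {D : Sq1 K} {P : P45 K} {a b : V} (h : D.Sf P a b)

include h

/-- the arrows over the arrow of another top -/
theorem prA_top {t s s' z : V} (k : P.Top t s s' z) (hO : ¬ D.toF.O t) :
    D.prA {p | omk H p = omk H (D.toF.F t, D.toF.F s)} = {p | omk H p = omk H (t, s)} := by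
  ext ⟨x, c⟩
  constructor
  · rintro ⟨h1, h2, h3⟩
    obtain ⟨g, hg⟩ := omk_eq.1 (show omk H (D.toF.F x, D.toF.F c) = omk H (D.toF.F t, D.toF.F s) from h3)
    have e1 : g • D.toF.F t = D.toF.F x := congrArg Prod.fst hg
    have e2 : g • D.toF.F s = D.toF.F c := congrArg Prod.snd hg
    rw [← D.toF.F_smul, D.toF.F_eq, D.toF.f_not h1,
      D.toF.f_not (fun k => hO ((D.toF.O_iff g _).1 k))] at e1
    subst e1
    have kg := k.smul g
    rcases h.cls.sides kg h2 with rfl | rfl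
    · exact omk_eq.2 ⟨g, rfl⟩
    · exfalso
      rw [← D.toF.F_smul] at e2
      exact h.sides_ne kg h1 e2
  · intro h3
    obtain ⟨g, hg⟩ := omk_eq.1 (show omk H (x, c) = omk H (t, s) from h3)
    have e1 : g • t = x := congrArg Prod.fst hg
    have e2 : g • s = c := congrArg Prod.snd hg
    subst e1
    subst e2
    refine ⟨fun k => hO ((D.toF.O_iff g _).1 k), K.ar_smul g _ _ k.2.1, ?_⟩
    refine omk_eq.2 ⟨g, Prod.ext ?_ ?_⟩
    · exact (D.toF.F_smul g t).symm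
    · exact (D.toF.F_smul g s).symm

theorem orb_inv (c : D.toF.W × D.toF.W) :
    ∀ (g : H), ∀ p ∈ {p | omk H p = omk H c}, g • p ∈ {p | omk H p = omk H c} := by
  intro g p hp
  have hp : omk H p = omk H c := hp
  show omk H (g • p) = omk H c
  rw [omk_smul, hp]

theorem prB_ar {A' : Set (D.toF.W × D.toF.W)} : ∀ p ∈ D.prB A', K.ar p.1 p.2 := fun _ k => k.2.1

theorem prB_TA {A' : Set (D.toF.W × D.toF.W)} : D.prB A' ⊆ P.TA := by
  rintro ⟨x, c⟩ ⟨⟨g, rfl⟩, k2, -⟩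
  have kT : P.Top (g • D.T) (g • a) (g • b) (g • D.y) := h.top.smul g
  rcases h.cls.sides kT k2 with rfl | rfl
  · exact ⟨_, _, kT⟩
  · exact ⟨_, _, kT.symm'⟩

/-- THE STRANDS AT THE ARROWS OF THE OTHER TOPS -/
theorem X_top {t s s' z : V} (k : P.Top t s s' z) (hO : ¬ D.toF.O t) :
    (D.flat.P45 P).X (D.toF.F t) (D.toF.F s) +
      oc H (D.prB {p | omk H p = omk H (D.toF.F t, D.toF.F s)}) =
    P.X t s + P.sX (D.prB {p | omk H p = omk H (D.toF.F t, D.toF.F s)}) := by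
  have e := h.sX_fold (h.orb_inv (D.toF.F t, D.toF.F s))
  rw [h.prA_top k hO] at e
  rw [P45.X_sX, P45.X_sX]
  exact e

theorem X_le {t s s' z : V} (k : P.Top t s s' z) (hO : ¬ D.toF.O t) :
    P.X t s ≤ (D.flat.P45 P).X (D.toF.F t) (D.toF.F s) := by
  have e := h.X_top k hO
  have e2 := P45.oc_le_sXa (P := P) (Sq1.prB_smul (h.orb_inv (D.toF.F t, D.toF.F s)))
    h.prB_ar (fun p hp => h.cls.x1 p (h.prB_TA hp))
  omega

/-- THE FOLD IS OF THE CLASS -/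
theorem Cls : (D.flat.P45 P).Cls where
  toSqE := h.SqT
  x1 := by
    rintro ⟨T1, a1⟩ ⟨b1, y1, k1⟩
    obtain ⟨t, s, s', z, k, hO, rfl, rfl, rfl, rfl⟩ := h.Top_iff.1 k1
    exact (h.cls.x1 (t, s) ⟨_, _, k⟩).trans (h.X_le k hO)

/-! ### thin tops -/

theorem prB_one (xa : P.X D.T a = 1) (xb : P.X D.T b = 1) {A' : Set (D.toF.W × D.toF.W)} :
    ∀ p ∈ D.prB A', P.X p.1 p.2 = 1 := by
  rintro ⟨x, c⟩ ⟨⟨g, rfl⟩, k2, -⟩
  have kT : P.Top (g • D.T) (g • a) (g • b) (g • D.y) := h.top.smul g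
  rcases h.cls.sides kT k2 with rfl | rfl
  · rw [← xa]
    exact P45.X_smul g D.T a
  · rw [← xb]
    exact P45.X_smul g D.T b

/-- THIN: the strands -/
theorem sX_thin (xa : P.X D.T a = 1) (xb : P.X D.T b = 1) {A' : Set (D.toF.W × D.toF.W)}
    (hA : ∀ (g : H), ∀ p ∈ A', g • p ∈ A') : (D.flat.P45 P).sX A' = P.sX (D.prA A') := by
  have e1 := h.sX_fold hA
  have e2 := P45.sX_one (P := P) (Sq1.prB_smul hA) h.prB_ar (h.prB_one xa xb)
  omega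

/-- THIN: THE STRANDS AT THE ARROWS OF THE OTHER TOPS DO NOT CHANGE -/
theorem X_thin (xa : P.X D.T a = 1) (xb : P.X D.T b = 1) {t s s' z : V} (k : P.Top t s s' z)
    (hO : ¬ D.toF.O t) : (D.flat.P45 P).X (D.toF.F t) (D.toF.F s) = P.X t s := by
  rw [P45.X_sX, h.sX_thin xa xb (h.orb_inv _), h.prA_top k hO, ← P45.X_sX]

/-- the orbits of the arrows of the other tops -/
theorem oc_prA {A' : Set (D.toF.W × D.toF.W)} (hA : ∀ (g : H), ∀ p ∈ A', g • p ∈ A')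
    (hT : A' ⊆ (D.flat.P45 P).TA) : oc H (D.prA A') = oc H A' := by
  have f' : FinOrb H A' := P45.fin_of hT
  have f : FinOrb H (D.prA A') := P45.fin_ar (K := K) (H := H) fun p k => k.2.1
  have top_of : ∀ x c : V, (x, c) ∈ D.prA A' → ∃ s' z, P.Top x c s' z := by
    rintro x c ⟨h1, h2, h3⟩
    obtain ⟨b1, y1, k1⟩ := hT h3
    obtain ⟨t, s, s', z, k, hO, e1, e2, rfl, rfl⟩ := h.Top_iff.1 k1
    have e1 : D.toF.F t = D.toF.F x := e1
    have e2 : D.toF.F s = D.toF.F c := e2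
    rw [D.toF.F_eq, D.toF.f_not h1, D.toF.f_not hO] at e1
    subst e1
    rcases h.cls.sides k h2 with rfl | rfl
    · exact ⟨_, _, k⟩
    · exact absurd e2 (h.sides_ne k hO)
  have hmaps : ∀ p ∈ D.prA A', (D.toF.F p.1, D.toF.F p.2) ∈ A' := fun p k => k.2.2
  apply le_antisymm
  · refine oc_le_of_inj f' (fun p => (D.toF.F p.1, D.toF.F p.2)) hmaps ?_
    rintro ⟨x, c⟩ hx ⟨x', c'⟩ hx' ⟨g, hg⟩
    obtain ⟨s', z, k⟩ := top_of x c hx
    have e1 : g • D.toF.F x = D.toF.F x' := congrArg Prod.fst hg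
    have e2 : g • D.toF.F c = D.toF.F c' := congrArg Prod.snd hg
    have o1 : ¬ D.toF.O (g • x) := fun k => hx.1 ((D.toF.O_iff g _).1 k)
    rw [← D.toF.F_smul, D.toF.F_eq, D.toF.f_not hx'.1, D.toF.f_not o1] at e1
    subst e1
    have kg := k.smul g
    refine ⟨g, Prod.ext rfl ?_⟩
    rcases h.cls.sides kg hx'.2.1 with e | e
    · exact e.symm
    · exfalso
      have e : c' = g • s' := e
      subst e
      rw [← D.toF.F_smul] at e2
      exact h.sides_ne kg o1 e2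
  · refine oc_le_of_surj f (fun p => (D.toF.F p.1, D.toF.F p.2)) ?_ ?_
    · rintro ⟨T1, a1⟩ hp
      obtain ⟨b1, y1, k1⟩ := hT hp
      obtain ⟨t, s, s', z, k, hO, e1, e2, rfl, rfl⟩ := h.Top_iff.1 k1
      have e1 : D.toF.F t = T1 := e1
      have e2 : D.toF.F s = a1 := e2
      subst e1
      subst e2
      exact ⟨(t, s), ⟨hO, k.2.1, hp⟩, 1, one_smul _ _⟩
    · rintro p - _ - ⟨g, rfl⟩
      refine ⟨g, Prod.ext ?_ ?_⟩
      · exact (D.toF.F_smul g p.1).symm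
      · exact (D.toF.F_smul g p.2).symm

/-- THIN: the sum of `X - 1` -/
theorem sm_thin (xa : P.X D.T a = 1) (xb : P.X D.T b = 1) {A' : Set (D.toF.W × D.toF.W)}
    (hA : ∀ (g : H), ∀ p ∈ A', g • p ∈ A') (hT : A' ⊆ (D.flat.P45 P).TA) :
    (D.flat.P45 P).sm A' = P.sm (D.prA A') := by
  unfold P45.sm
  rw [h.sX_thin xa xb hA, h.oc_prA hA hT]

end Sq1.Sf

end Pool.Agent.DI
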