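import Pool.Agent.DI.SgA

/-!
# DI/SgB: the assembly lemma of the sigma law, with values

`SgV`: old items `T` with values `v`, new items `T'` with values `v'`, `R p k`: `k` carries `p`; `loc`:
the sum of the values carried by `k` is at most `v' k`. `SgV.le`, `SgV.lt`, `SgV.eq`.
`It W`: items with a tag, `os_tag`: the sum over items is the sum over the tags.
-/

namespace Pool.Agent.DI

open MulAction
open Pool.Agent.SAF (orbs FinOrb oc FinOrb_iff oc_mono oc_le_of_inj oc_le_of_surj oc_le_of_rel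
  mk_eq_iff orbs_mono exists_rep)

/-- comparison of sums over orbits by a map which is injective on orbits -/
theorem os_le_map {G1 G2 W1 W2 : Type} [Group G1] [Group G2] [MulAction G1 W1] [MulAction G2 W2]
    {A1 : Set W1} {A2 : Set W2} (h1 : FinOrb G1 A1) (h2 : FinOrb G2 A2) {v1 : W1 → ℕ} {v2 : W2 → ℕ}
    (hv2 : ∀ (g : G2), ∀ p ∈ A2, g • p ∈ A2 → v2 (g • p) = v2 p) (f : W1 → W2)
    (hf : ∀ a ∈ A1, f a ∈ A2) (hinj : ∀ a ∈ A1, ∀ b ∈ A1, (∃ h : G2, h • f a = f b) →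
      ∃ h : G1, h • a = b) (hv : ∀ a ∈ A1, v1 a ≤ v2 (f a)) : os G1 A1 v1 ≤ os G2 A2 v2 := by
  classical
  rw [os_eq h1, os_eq h2]
  let Φ : orbitRel.Quotient G1 W1 → orbitRel.Quotient G2 W2 := fun q =>
    Quotient.mk'' (f (rp G1 A1 q))
  have hΦ : ∀ q ∈ h1.toFinset, Φ q ∈ orbs G2 A2 := fun q hq =>
    ⟨_, hf _ (rp_mem _ (h1.mem_toFinset.1 hq)), rfl⟩
  have hi : ∀ q ∈ h1.toFinset, ∀ q' ∈ h1.toFinset, Φ q = Φ q' → q = q' := by
    intro q hq q' hq' e
    have m := rp_mem _ (h1.mem_toFinset.1 hq)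
    have m' := rp_mem _ (h1.mem_toFinset.1 hq')
    obtain ⟨h, hh⟩ := hinj _ m' _ m (mk_eq_iff.1 e)
    rw [← rp_mk _ (h1.mem_toFinset.1 hq), ← rp_mk _ (h1.mem_toFinset.1 hq')]
    exact mk_eq_iff.2 ⟨h, hh⟩
  calc ∑ q ∈ h1.toFinset, v1 (rp G1 A1 q) ≤ ∑ q ∈ h1.toFinset, v2 (rp G2 A2 (Φ q)) := by
        refine Finset.sum_le_sum fun q hq => ?_
        have m := rp_mem _ (h1.mem_toFinset.1 hq)
        refine (hv _ m).trans (le_of_eq ?_)
        obtain ⟨g, hg⟩ := mk_eq_iff.1 (rp_mk _ (hΦ q hq))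
        have hg' : g • f (rp G1 A1 q) = rp G2 A2 (Φ q) := hg
        rw [← hg']
        refine (hv2 g _ (hf _ m) ?_).symm
        rw [hg']
        exact rp_mem _ (hΦ q hq)
    _ = ∑ q ∈ h1.toFinset.image Φ, v2 (rp G2 A2 q) := by
        rw [Finset.sum_image (fun q hq q' hq' e => hi q hq q' hq' e)]
    _ ≤ ∑ q ∈ h2.toFinset, v2 (rp G2 A2 q) := by
        refine Finset.sum_le_sum_of_subset fun q hq => ?_
        obtain ⟨q', hq', rfl⟩ := Finset.mem_image.1 hq
        exact h2.mem_toFinset.2 (hΦ q' hq')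

/-- old items with values, new items with values, carriers -/
structure SgV {H : Type} [Group H] (G : Subgroup H) {W W' : Type} [MulAction H W] [MulAction ↥G W']
    (T : Set W) (T' : Set W') (v : W → ℕ) (v' : W' → ℕ) (R : W → W' → Prop) : Prop where
  fT : FinOrb H T
  fT' : FinOrb ↥G T'
  iv : ∀ (h : H), ∀ p ∈ T, v (h • p) = v p
  iv' : ∀ (g : ↥G), ∀ k ∈ T', v' (g • k) = v' k
  R1 : ∀ p k, R p k → p ∈ T ∧ k ∈ T'
  R2 : ∀ (g : ↥G) p k, R p k → R (g • p) (g • k)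
  R3 : ∀ p k k', R p k → R p k' → k = k'
  R4 : ∀ p ∈ T, ∃ (h : H) (k : W'), R (h • p) k
  R5 : ∀ p k (h : H) k', R p k → R (h • p) k' → h ∈ G
  loc : ∀ k ∈ T', os ↥(stabilizer ↥G k) {p | R p k} v ≤ v' k

namespace SgV

variable {H : Type} [Group H] {G : Subgroup H} {W W' : Type} [MulAction H W] [MulAction ↥G W']
  {T : Set W} {T' : Set W'} {v : W → ℕ} {v' : W' → ℕ} {R : W → W' → Prop}
  (S : SgV G T T' v v' R)

include S

theorem fD : FinOrb ↥G {p | ∃ k, R p k} :=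
  finOrb_sl (T := T) (D := {p | ∃ k, R p k}) S.fT (fun p ⟨k, hk⟩ => (S.R1 p k hk).1)
    (fun h p ⟨k, hk⟩ ⟨k', hk'⟩ => S.R5 p k h k' hk hk')

theorem fF (k : W') : FinOrb ↥(stabilizer ↥G k) {p | R p k} := by
  have := finOrb_fib S.fD S.R2 S.R3 k
  rwa [SgR.set_eq R k] at this

theorem sum_fib : os H T v =
    ∑ q ∈ S.fT'.toFinset, os ↥(stabilizer ↥G (rp ↥G T' q)) {p | R p (rp ↥G T' q)} v := by
  have h0 : os ↥G {p | ∃ k, R p k} v = os H T v :=
    os_slice (T := T) (D := {p | ∃ k, R p k}) S.fT (fun p ⟨k, hk⟩ => (S.R1 p k hk).1)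
      (fun g p hp _ => S.iv g p hp) S.R4 (fun h p ⟨k, hk⟩ ⟨k', hk'⟩ => S.R5 p k h k' hk hk')
  rw [← h0]
  have := os_fib (X := v) S.fD S.fT' (fun g p ⟨k, hk⟩ _ => S.iv g.1 p (S.R1 p k hk).1)
    (fun g p ⟨k, hk⟩ => ⟨g • k, S.R2 g p k hk⟩) S.R2 S.R3 (fun p ⟨k, hk⟩ => ⟨k, (S.R1 p k hk).2, hk⟩)
  rw [this]
  refine Finset.sum_congr rfl fun q _ => ?_
  rw [SgR.set_eq]

/-- THE SUM DOES NOT DROP -/
theorem le : os H T v ≤ os ↥G T' v' := by
  rw [S.sum_fib, os_eq S.fT']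
  exact Finset.sum_le_sum fun q hq => S.loc _ (rp_mem _ (S.fT'.mem_toFinset.1 hq))

/-- THE CASE OF EQUALITY -/
theorem eq (h : os ↥G T' v' ≤ os H T v) {k : W'} (hk : k ∈ T') :
    os ↥(stabilizer ↥G k) {p | R p k} v = v' k := by
  have h1 : os H T v = os ↥G T' v' := le_antisymm S.le h
  rw [S.sum_fib, os_eq S.fT'] at h1
  have h4 := (Finset.sum_eq_sum_iff_of_le (fun q hq =>
    S.loc _ (rp_mem _ (S.fT'.mem_toFinset.1 hq)))).1 h1
  have hq : (Quotient.mk'' k : orbitRel.Quotient ↥G W') ∈ orbs ↥G T' := ⟨k, hk, rfl⟩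
  have h5 := h4 _ (S.fT'.mem_toFinset.2 hq)
  obtain ⟨g, hg⟩ := mk_eq_iff.1 (rp_mk _ hq)
  have hg' : g • k = rp ↥G T' (Quotient.mk'' k) := hg
  rw [← hg', S.iv' g k hk] at h5
  rw [← h5]
  -- transport along `g`
  have key : ∀ (k k' : W') (g : ↥G), g • k = k' →
      os ↥(stabilizer ↥G k) {p | R p k} v ≤ os ↥(stabilizer ↥G k') {p | R p k'} v := by
    intro k k' g e
    refine os_le_map (S.fF k) (S.fF k') (fun s p hp _ => S.iv s.1.1 p (S.R1 p k' hp).1)
      (fun p => g • p) (fun p hp => ?_) ?_ (fun p hp => (S.iv g.1 p (S.R1 p k hp).1).ge)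
    · show R (g • p) k'
      rw [← e]
      exact S.R2 g p k hp
    · rintro a - b - ⟨s, hs⟩
      have hs' : s.1 • g • a = g • b := hs
      refine ⟨⟨g⁻¹ * s.1 * g, ?_⟩, ?_⟩
      · rw [mem_stabilizer_iff, mul_smul, mul_smul, e]
        have := s.2
        rw [mem_stabilizer_iff] at this
        rw [this, ← e, inv_smul_smul]
      · show (g⁻¹ * s.1 * g) • a = b
        rw [mul_smul, mul_smul, hs', inv_smul_smul]
  exact le_antisymm (key _ _ g rfl) (key _ _ g⁻¹ (inv_smul_smul g k))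

/-- a strict rise -/
theorem lt {k : W'} (hk : k ∈ T') (h : os ↥(stabilizer ↥G k) {p | R p k} v < v' k) :
    os H T v < os ↥G T' v' := by
  by_contra hne
  have := S.eq (not_lt.1 hne) hk
  omega

end SgV

/-! ### items with tags -/

/-- items with a tag -/
def It (W : Type) : Type := W × Fin 3

instance {G W : Type} [Group G] [MulAction G W] : MulAction G (It W) where
  smul g x := ((g • x.1, x.2) : W × Fin 3)
  one_smul x := by
    show ((((1 : G) • x.1, x.2) : W × Fin 3)) = x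
    rw [one_smul]
    rfl
  mul_smul g h x := by
    show ((((g * h) • x.1, x.2) : W × Fin 3)) = ((g • h • x.1, x.2) : W × Fin 3)
    rw [mul_smul]

theorem It.smul_fst {G W : Type} [Group G] [MulAction G W] (g : G) (x : It W) :
    (g • x).1 = g • x.1 := rfl

theorem It.smul_snd {G W : Type} [Group G] [MulAction G W] (g : G) (x : It W) :
    (g • x).2 = x.2 := rfl

/-- the item -/
def It.mk {W : Type} (p : W) (i : Fin 3) : It W := (p, i)

theorem It.smul_mk {G W : Type} [Group G] [MulAction G W] (g : G) (p : W) (i : Fin 3) :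
    g • It.mk p i = It.mk (g • p) i := rfl

/-- the items over a family of sets -/
def Its {W : Type} (A : Fin 3 → Set W) : Set (It W) := {x | x.1 ∈ A x.2}

/-- the values of the items -/
def vls {W : Type} (v : Fin 3 → W → ℕ) (x : It W) : ℕ := v x.2 x.1

section Tag

variable {G : Type} [Group G] {W : Type} [MulAction G W]

theorem finOrb_its {A : Fin 3 → Set W} (h : ∀ i, FinOrb G (A i)) : FinOrb G (Its A) := by
  rw [FinOrb_iff]
  choose F hF hFs hFc using fun i => FinOrb_iff.1 (h i)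
  refine ⟨⋃ i, (fun p => It.mk p i) '' (F i), Set.finite_iUnion fun i => (hF i).image _, ?_, ?_⟩
  · rintro _ hx
    obtain ⟨i, p, hp, rfl⟩ := Set.mem_iUnion.1 hx
    exact hFs i hp
  · rintro ⟨p, i⟩ hp
    obtain ⟨f, hf, g, hg⟩ := hFc i p hp
    refine ⟨It.mk f i, Set.mem_iUnion.2 ⟨i, f, hf, rfl⟩, g, ?_⟩
    rw [It.smul_mk, hg]
    rfl

/-- the sum over the items is the sum over the tags -/
theorem os_its {A : Fin 3 → Set W} (h : ∀ i, FinOrb G (A i)) {v : Fin 3 → W → ℕ}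
    (hv : ∀ i (g : G), ∀ p ∈ A i, g • p ∈ A i → v i (g • p) = v i p)
    (hA : ∀ i (g : G), ∀ p ∈ A i, g • p ∈ A i) :
    os G (Its A) (vls v) = ∑ i, os G (A i) (v i) := by
  classical
  have hI := finOrb_its h
  -- the trivial action on the tags
  let T : MulAction G (Fin 3) :=
    { smul := fun _ i => i
      one_smul := fun _ => rfl
      mul_smul := fun _ _ _ => rfl }
  have hB : FinOrb G (Set.univ : Set (Fin 3)) := Set.toFinite _
  have h1 := os_fib (X := vls v) (R := fun (x : It W) (i : Fin 3) => x.2 = i) hI hB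
    (fun g p hp hgp => hv p.2 g p.1 hp hgp) (fun g p hp => hA p.2 g p.1 hp)
    (fun g p k e => e) (fun p k k' e e' => e.symm.trans e') (fun p _ => ⟨p.2, trivial, rfl⟩)
  rw [h1]
  refine Finset.sum_bij (fun q _ => rp G (Set.univ : Set (Fin 3)) q) (fun _ _ => Finset.mem_univ _)
    ?_ ?_ ?_
  · intro q hq q' hq' e
    rw [← rp_mk _ (hB.mem_toFinset.1 hq), ← rp_mk _ (hB.mem_toFinset.1 hq'), e]
  · intro i _
    have hq : (Quotient.mk'' i : orbitRel.Quotient G (Fin 3)) ∈ orbs G (Set.univ : Set (Fin 3)) :=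
      ⟨i, trivial, rfl⟩
    refine ⟨_, hB.mem_toFinset.2 hq, ?_⟩
    obtain ⟨g, hg⟩ := mk_eq_iff.1 (rp_mk _ hq)
    exact hg.symm
  · intro q hq
    set i := rp G (Set.univ : Set (Fin 3)) q
    have f1 : FinOrb ↥(stabilizer G i) {p | p ∈ Its A ∧ p.2 = i} := by
      have := finOrb_fib (R := fun (x : It W) (i : Fin 3) => x.2 = i) hI (fun g p k e => e)
        (fun p k k' e e' => e.symm.trans e') i
      exact this
    apply le_antisymm
    · refine os_le_map f1 (h i) (fun g p hp hgp => hv i g p hp hgp) (fun x => x.1) ?_ ?_ ?_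
      · rintro x ⟨hp, e⟩
        rw [← e]
        exact hp
      · rintro x ⟨hp, e⟩ x' ⟨hp', e'⟩ ⟨g, hg⟩
        refine ⟨⟨g, rfl⟩, ?_⟩
        show ((g • x.1, x.2) : W × Fin 3) = x'
        have hg' : g • x.1 = x'.1 := hg
        rw [hg', e, ← e']
        rfl
      · rintro x ⟨hp, e⟩
        show v x.2 x.1 ≤ v i x.1
        rw [e]
    · refine os_le_map (h i) f1 (fun g p hp hgp => ?_) (fun p => It.mk p i) ?_ ?_ ?_
      · exact hv p.2 g.1 p.1 hp.1 hgp.1
      · intro p hp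
        exact ⟨hp, rfl⟩
      · rintro a - b - ⟨g, hg⟩
        exact ⟨g.1, congrArg Prod.fst hg⟩
      · intro p hp
        exact le_rfl

end Tag

end Pool.Agent.DI
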