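import Pool.Agent.DI.SgB

/-!
# DI/SgD: the assembly lemma with charges

Like `SgV`, but a new item `k` pays `e k`, and an old item `p` may charge the new items `k` with
`Q p k` (every `k` is charged by at most one `p`): `loc`: the sum of `v p - ch p` over the old items
carried by `k`, plus `e k`, is at most `v' k`; `ch p` is the sum of `e` over the items charged by `p`.
-/

namespace Pool.Agent.DI

open MulAction
open Pool.Agent.SAF (orbs FinOrb oc FinOrb_iff oc_mono oc_le_of_inj oc_le_of_surj oc_le_of_rel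
  mk_eq_iff orbs_mono exists_rep)

theorem os_mono {G W : Type} [Group G] [MulAction G W] {A B : Set W} (hB : FinOrb G B) (h : A ⊆ B)
    {X : W → ℕ} (hX : ∀ (g : G), ∀ p ∈ B, g • p ∈ B → X (g • p) = X p) : os G A X ≤ os G B X :=
  os_le_map (hB.mono h) hB hX (fun p => p) h (fun _ _ _ _ e => e) (fun _ _ => le_rfl)

/-- the total charge of an old item -/
noncomputable def chg {H : Type} [Group H] (G : Subgroup H) {W W' : Type} [MulAction H W]
    [MulAction ↥G W'] (Q : W → W' → Prop) (e : W' → ℕ) (p : W) : ℕ :=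
  os ↥(stabilizer ↥G p) {k | Q p k} e

/-- old items, new items, carriers `R`, charges `Q`, payments `e` -/
structure SgX {H : Type} [Group H] (G : Subgroup H) {W W' : Type} [MulAction H W] [MulAction ↥G W']
    (T : Set W) (T' : Set W') (v : W → ℕ) (v' : W' → ℕ) (R Q : W → W' → Prop) (e : W' → ℕ) :
    Prop where
  fT : FinOrb H T
  fT' : FinOrb ↥G T'
  iv : ∀ (h : H), ∀ p ∈ T, v (h • p) = v p
  iv' : ∀ (g : ↥G), ∀ k ∈ T', v' (g • k) = v' k
  ie : ∀ (g : ↥G), ∀ k ∈ T', e (g • k) = e k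
  R1 : ∀ p k, R p k → p ∈ T ∧ k ∈ T'
  R2 : ∀ (g : ↥G) p k, R p k → R (g • p) (g • k)
  R3 : ∀ p k k', R p k → R p k' → k = k'
  R4 : ∀ p ∈ T, ∃ (h : H) (k : W'), R (h • p) k
  R5 : ∀ p k (h : H) k', R p k → R (h • p) k' → h ∈ G
  Q1 : ∀ p k, Q p k → (∃ k', R p k') ∧ k ∈ T'
  Q2 : ∀ (g : ↥G) p k, Q p k → Q (g • p) (g • k)
  Q3 : ∀ p p' k, Q p k → Q p' k → p = p'
  loc : ∀ k ∈ T', os ↥(stabilizer ↥G k) {p | R p k} (fun p => v p - chg G Q e p) + e k ≤ v' k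

namespace SgX

variable {H : Type} [Group H] {G : Subgroup H} {W W' : Type} [MulAction H W] [MulAction ↥G W']
  {T : Set W} {T' : Set W'} {v : W → ℕ} {v' : W' → ℕ} {R Q : W → W' → Prop} {e : W' → ℕ}
  (S : SgX G T T' v v' R Q e)

include S

theorem fD : FinOrb ↥G {p | ∃ k, R p k} :=
  finOrb_sl (T := T) (D := {p | ∃ k, R p k}) S.fT (fun p ⟨k, hk⟩ => (S.R1 p k hk).1)
    (fun h p ⟨k, hk⟩ ⟨k', hk'⟩ => S.R5 p k h k' hk hk')

theorem fF (k : W') : FinOrb ↥(stabilizer ↥G k) {p | R p k} := by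
  have := finOrb_fib S.fD S.R2 S.R3 k
  rwa [SgR.set_eq R k] at this

theorem fC : FinOrb ↥G {k | ∃ p, Q p k} := S.fT'.mono fun _ ⟨p, h⟩ => (S.Q1 p _ h).2

theorem fQ (p : W) : FinOrb ↥(stabilizer ↥G p) {k | Q p k} := by
  have := finOrb_fib (R := fun k p => Q p k) S.fC (fun g k p h => S.Q2 g p k h)
    (fun k p p' h h' => S.Q3 p p' k h h') p
  have e1 : {k | k ∈ {k | ∃ p, Q p k} ∧ Q p k} = {k | Q p k} := by
    ext k
    exact ⟨fun h => h.2, fun h => ⟨⟨p, h⟩, h⟩⟩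
  rwa [e1] at this

/-- the charge is invariant -/
theorem chg_smul (g : ↥G) (p : W) : chg G Q e (g • p) = chg G Q e p := by
  have key : ∀ (p p' : W) (g : ↥G), g • p = p' → chg G Q e p ≤ chg G Q e p' := by
    intro p p' g hg
    refine os_le_map (S.fQ p) (S.fQ p') (fun s k hk _ => S.ie s.1 k (S.Q1 p' k hk).2)
      (fun k => g • k) (fun k hk => ?_) ?_ (fun k hk => (S.ie g k (S.Q1 p k hk).2).ge)
    · show Q p' (g • k)
      rw [← hg]
      exact S.Q2 g p k hk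
    · rintro a - b - ⟨s, hs⟩
      have hs' : s.1 • g • a = g • b := hs
      refine ⟨⟨g⁻¹ * s.1 * g, ?_⟩, ?_⟩
      · rw [mem_stabilizer_iff, mul_smul, mul_smul, hg]
        have := s.2
        rw [mem_stabilizer_iff] at this
        rw [this, ← hg, inv_smul_smul]
      · show (g⁻¹ * s.1 * g) • a = b
        rw [mul_smul, mul_smul, hs', inv_smul_smul]
  exact le_antisymm (key _ _ g⁻¹ (inv_smul_smul g p)) (key _ _ g rfl)

/-- the sum of all charges is at most the sum of all payments -/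
theorem sum_chg : os ↥G {p | ∃ k, R p k} (chg G Q e) ≤ os ↥G T' e := by
  have i1 : ∀ (g : ↥G), ∀ k ∈ {k | ∃ p, Q p k}, g • k ∈ {k | ∃ p, Q p k} :=
    fun g k ⟨p, h⟩ => ⟨g • p, S.Q2 g p k h⟩
  have i2 : ∀ k ∈ {k | ∃ p, Q p k}, ∃ p ∈ {p | ∃ k, R p k}, Q p k :=
    fun k ⟨p, h⟩ => ⟨p, (S.Q1 p k h).1, h⟩
  have h1 := os_fib (G := ↥G) (A := {k | ∃ p, Q p k}) (B := {p | ∃ k, R p k}) (X := e)
    (R := fun k p => Q p k) S.fC S.fD
    (fun g k hk _ => S.ie g k (by obtain ⟨p, h⟩ := hk; exact (S.Q1 p k h).2))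
    i1 (fun g k p h => S.Q2 g p k h)
    (fun k p p' h h' => S.Q3 p p' k h h') i2
  have h2 : os ↥G {k | ∃ p, Q p k} e = os ↥G {p | ∃ k, R p k} (chg G Q e) := by
    rw [h1, os_eq S.fD]
    refine Finset.sum_congr rfl fun q _ => ?_
    have e1 : {k | k ∈ {k | ∃ p, Q p k} ∧ Q (rp ↥G {p | ∃ k, R p k} q) k} =
        {k | Q (rp ↥G {p | ∃ k, R p k} q) k} := by
      ext k
      exact ⟨fun h => h.2, fun h => ⟨⟨_, h⟩, h⟩⟩
    rw [e1]
    rfl
  rw [← h2]
  refine os_mono S.fT' ?_ (fun g k hk _ => S.ie g k hk)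
  rintro k ⟨p, h⟩
  exact (S.Q1 p k h).2

/-- THE SUM DOES NOT DROP -/
theorem le_add : os H T v + ∑ q ∈ S.fT'.toFinset, (v' (rp ↥G T' q) -
    (os ↥(stabilizer ↥G (rp ↥G T' q)) {p | R p (rp ↥G T' q)} (fun p => v p - chg G Q e p) +
      e (rp ↥G T' q))) ≤ os ↥G T' v' := by
  have h0 : os ↥G {p | ∃ k, R p k} v = os H T v :=
    os_slice (T := T) (D := {p | ∃ k, R p k}) S.fT (fun p ⟨k, hk⟩ => (S.R1 p k hk).1)
      (fun g p hp _ => S.iv g p hp) S.R4 (fun h p ⟨k, hk⟩ ⟨k', hk'⟩ => S.R5 p k h k' hk hk')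
  have h1 : os ↥G {p | ∃ k, R p k} v ≤ os ↥G {p | ∃ k, R p k} (fun p => v p - chg G Q e p) +
      os ↥G {p | ∃ k, R p k} (chg G Q e) := by
    rw [← os_add S.fD]
    exact os_le S.fD fun p _ => by omega
  have h2 := os_fib (A := {p | ∃ k, R p k}) (B := T') (X := fun p => v p - chg G Q e p) (R := R)
    S.fD S.fT'
    (fun g p ⟨k, hk⟩ _ => by
      show v (g • p) - chg G Q e (g • p) = _
      rw [S.chg_smul g p]
      have := S.iv g.1 p (S.R1 p k hk).1
      have e2 : v (g • p) = v p := this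
      rw [e2])
    (fun g p ⟨k, hk⟩ => ⟨g • k, S.R2 g p k hk⟩) S.R2 S.R3 (fun p ⟨k, hk⟩ => ⟨k, (S.R1 p k hk).2, hk⟩)
  have h3 : os ↥G {p | ∃ k, R p k} (fun p => v p - chg G Q e p) = ∑ q ∈ S.fT'.toFinset,
      os ↥(stabilizer ↥G (rp ↥G T' q)) {p | R p (rp ↥G T' q)} (fun p => v p - chg G Q e p) := by
    rw [h2]
    refine Finset.sum_congr rfl fun q _ => ?_
    rw [SgR.set_eq]
  have h4 := S.sum_chg
  rw [os_eq S.fT'] at h4
  rw [← h0, os_eq S.fT']
  have h5 : ∑ q ∈ S.fT'.toFinset, v' (rp ↥G T' q) = ∑ q ∈ S.fT'.toFinset, (v' (rp ↥G T' q) -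
    (os ↥(stabilizer ↥G (rp ↥G T' q)) {p | R p (rp ↥G T' q)} (fun p => v p - chg G Q e p) +
      e (rp ↥G T' q))) + (∑ q ∈ S.fT'.toFinset,
      os ↥(stabilizer ↥G (rp ↥G T' q)) {p | R p (rp ↥G T' q)} (fun p => v p - chg G Q e p) +
      ∑ q ∈ S.fT'.toFinset, e (rp ↥G T' q)) := by
    rw [← Finset.sum_add_distrib, ← Finset.sum_add_distrib]
    refine Finset.sum_congr rfl fun q hq => ?_
    have := S.loc _ (rp_mem _ (S.fT'.mem_toFinset.1 hq))
    omega
  rw [h5]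
  omega

theorem le : os H T v ≤ os ↥G T' v' := le_trans (Nat.le_add_right _ _) S.le_add

/-- if the sum is constant, then `loc` is an equality everywhere -/
theorem eq (h : os ↥G T' v' ≤ os H T v) {k : W'} (hk : k ∈ T') :
    os ↥(stabilizer ↥G k) {p | R p k} (fun p => v p - chg G Q e p) + e k = v' k := by
  have h0 := S.le_add
  have hq : (Quotient.mk'' k : orbitRel.Quotient ↥G W') ∈ orbs ↥G T' := ⟨k, hk, rfl⟩
  have h1 : ∑ q ∈ S.fT'.toFinset, (v' (rp ↥G T' q) -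
    (os ↥(stabilizer ↥G (rp ↥G T' q)) {p | R p (rp ↥G T' q)} (fun p => v p - chg G Q e p) +
      e (rp ↥G T' q))) = 0 := by omega
  have h2 := (Finset.sum_eq_zero_iff.1 h1) _ (S.fT'.mem_toFinset.2 hq)
  have h3 := S.loc _ (rp_mem _ hq)
  obtain ⟨g, hg⟩ := mk_eq_iff.1 (rp_mk _ hq)
  have hg' : g • k = rp ↥G T' (Quotient.mk'' k) := hg
  rw [← hg', S.iv' g k hk, S.ie g k hk] at h2 h3
  have key : ∀ (k k' : W') (g : ↥G), g • k = k' →
      os ↥(stabilizer ↥G k) {p | R p k} (fun p => v p - chg G Q e p) ≤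
      os ↥(stabilizer ↥G k') {p | R p k'} (fun p => v p - chg G Q e p) := by
    intro k k' g he
    have i1 : ∀ (s : ↥G) p, p ∈ T → v (s • p) - chg G Q e (s • p) = v p - chg G Q e p := by
      intro s p hp
      rw [S.chg_smul s p]
      have e2 : v (s • p) = v p := S.iv s.1 p hp
      rw [e2]
    refine os_le_map (S.fF k) (S.fF k') (fun s p hp _ => i1 s.1 p (S.R1 p k' hp).1)
      (fun p => g • p) (fun p hp => ?_) ?_ (fun p hp => (i1 g p (S.R1 p k hp).1).ge)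
    · show R (g • p) k'
      rw [← he]
      exact S.R2 g p k hp
    · rintro a - b - ⟨s, hs⟩
      have hs' : s.1 • g • a = g • b := hs
      refine ⟨⟨g⁻¹ * s.1 * g, ?_⟩, ?_⟩
      · rw [mem_stabilizer_iff, mul_smul, mul_smul, he]
        have := s.2
        rw [mem_stabilizer_iff] at this
        rw [this, ← he, inv_smul_smul]
      · show (g⁻¹ * s.1 * g) • a = b
        rw [mul_smul, mul_smul, hs', inv_smul_smul]
  have h4 : os ↥(stabilizer ↥G k) {p | R p k} (fun p => v p - chg G Q e p) =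
      os ↥(stabilizer ↥G (g • k)) {p | R p (g • k)} (fun p => v p - chg G Q e p) :=
    le_antisymm (key _ _ g rfl) (key _ _ g⁻¹ (inv_smul_smul g k))
  rw [← h4] at h2 h3
  omega

/-- a strict rise -/
theorem lt {k : W'} (hk : k ∈ T')
    (h : os ↥(stabilizer ↥G k) {p | R p k} (fun p => v p - chg G Q e p) + e k < v' k) :
    os H T v < os ↥G T' v' := by
  by_contra hne
  have := S.eq (not_lt.1 hne) hk
  omega

/-- at constant sum no charge is lost: `v p` is at least the charge -/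
theorem chg_le (h : os ↥G T' v' ≤ os H T v) {p : W} {k : W'} (hp : R p k) :
    chg G Q e p ≤ v p := by
  -- otherwise the truncated difference gains
  by_contra hne
  have h0 : os ↥G {p | ∃ k, R p k} v = os H T v :=
    os_slice (T := T) (D := {p | ∃ k, R p k}) S.fT (fun p ⟨k, hk⟩ => (S.R1 p k hk).1)
      (fun g p hp _ => S.iv g p hp) S.R4 (fun h p ⟨k, hk⟩ ⟨k', hk'⟩ => S.R5 p k h k' hk hk')
  have hpD : p ∈ {p | ∃ k, R p k} := ⟨k, hp⟩
  have i1 : ∀ (s : ↥G) p, p ∈ {p | ∃ k, R p k} → v (s • p) = v p :=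
    fun s p ⟨k, hk⟩ => S.iv s.1 p (S.R1 p k hk).1
  have h1 : os ↥G {p | ∃ k, R p k} v < os ↥G {p | ∃ k, R p k} (fun p => v p - chg G Q e p) +
      os ↥G {p | ∃ k, R p k} (chg G Q e) := by
    rw [← os_add S.fD, os_eq S.fD, os_eq S.fD]
    have hq : (Quotient.mk'' p : orbitRel.Quotient ↥G W) ∈ orbs ↥G {p | ∃ k, R p k} :=
      ⟨p, hpD, rfl⟩
    refine Finset.sum_lt_sum (fun q _ => by omega) ⟨_, S.fD.mem_toFinset.2 hq, ?_⟩
    obtain ⟨g, hg⟩ := mk_eq_iff.1 (rp_mk _ hq)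
    have hg' : g • p = rp ↥G {p | ∃ k, R p k} (Quotient.mk'' p) := hg
    rw [← hg', S.chg_smul g p, i1 g p hpD]
    omega
  have h2 := os_fib (A := {p | ∃ k, R p k}) (B := T') (X := fun p => v p - chg G Q e p) (R := R)
    S.fD S.fT'
    (fun g p ⟨k, hk⟩ _ => by
      show v (g • p) - chg G Q e (g • p) = _
      rw [S.chg_smul g p, i1 g p ⟨k, hk⟩])
    (fun g p ⟨k, hk⟩ => ⟨g • k, S.R2 g p k hk⟩) S.R2 S.R3 (fun p ⟨k, hk⟩ => ⟨k, (S.R1 p k hk).2, hk⟩)
  have h3 : os ↥G {p | ∃ k, R p k} (fun p => v p - chg G Q e p) = ∑ q ∈ S.fT'.toFinset,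
      os ↥(stabilizer ↥G (rp ↥G T' q)) {p | R p (rp ↥G T' q)} (fun p => v p - chg G Q e p) := by
    rw [h2]
    refine Finset.sum_congr rfl fun q _ => ?_
    rw [SgR.set_eq]
  have h4 := S.sum_chg
  rw [os_eq S.fT'] at h4
  have h5 : ∑ q ∈ S.fT'.toFinset, (os ↥(stabilizer ↥G (rp ↥G T' q)) {p | R p (rp ↥G T' q)}
      (fun p => v p - chg G Q e p) + e (rp ↥G T' q)) ≤ ∑ q ∈ S.fT'.toFinset, v' (rp ↥G T' q) :=
    Finset.sum_le_sum fun q hq => S.loc _ (rp_mem _ (S.fT'.mem_toFinset.1 hq))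
  rw [Finset.sum_add_distrib] at h5
  rw [os_eq S.fT'] at h
  omega

end SgX

end Pool.Agent.DI
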