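import Pool.Agent.DI.SgD

/-!
# DI/SgE: the assembly lemma with charges between new items

Old items `T` with values `v`, new items `T'` with values `v'`, `R p k`: `k` carries `p`. A new item `k`
pays `e k`, a new item `q` charges the new items `k` with `Q q k` (every `k` is charged at most once):
`loc`: the sum of the values carried by `k`, plus `e k`, is at most `v' k` plus the sum of `e` over the
items which `k` charges.
`SgY.le`: the sum does not drop. `SgY.eq`: at constant sum `loc` is an equality. `SgY.unch`: at constant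
sum an item which nobody charges pays nothing.
-/

namespace Pool.Agent.DI

open MulAction
open Pool.Agent.SAF (orbs FinOrb oc FinOrb_iff oc_mono oc_le_of_inj oc_le_of_surj oc_le_of_rel
  mk_eq_iff orbs_mono exists_rep)

/-- a strict inequality somewhere -/
theorem os_lt_of_subset {G W : Type} [Group G] [MulAction G W] {A B : Set W} (hB : FinOrb G B)
    (h : A ⊆ B) {X : W → ℕ} (hX : ∀ (g : G), ∀ p ∈ B, g • p ∈ B → X (g • p) = X p)
    (hA : ∀ (g : G), ∀ p ∈ A, g • p ∈ A) {p : W} (hp : p ∈ B) (hn : p ∉ A) (h1 : 1 ≤ X p) :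
    os G A X < os G B X := by
  classical
  have fA : FinOrb G A := hB.mono h
  rw [os_eq fA, os_eq hB]
  have hsub : fA.toFinset ⊆ hB.toFinset := by
    intro q hq
    obtain ⟨a, ha, rfl⟩ := fA.mem_toFinset.1 hq
    exact hB.mem_toFinset.2 ⟨a, h ha, rfl⟩
  have e1 : ∑ q ∈ fA.toFinset, X (rp G A q) = ∑ q ∈ fA.toFinset, X (rp G B q) := by
    refine Finset.sum_congr rfl fun q hq => ?_
    have m1 := rp_mem G (fA.mem_toFinset.1 hq)
    have m2 := rp_mem G (hB.mem_toFinset.1 (hsub hq))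
    have r1 := rp_mk G (fA.mem_toFinset.1 hq)
    have r2 := rp_mk G (hB.mem_toFinset.1 (hsub hq))
    obtain ⟨g, hg⟩ := mk_eq_iff.1 (r2.trans r1.symm)
    have hg' : g • rp G A q = rp G B q := hg
    rw [← hg']
    exact (hX g _ (h m1) (by rw [hg']; exact m2)).symm
  rw [e1]
  have hq : (Quotient.mk'' p : orbitRel.Quotient G W) ∈ orbs G B := ⟨p, hp, rfl⟩
  refine Finset.sum_lt_sum_of_subset hsub (hB.mem_toFinset.2 hq) ?_ ?_
    (fun _ _ _ => Nat.zero_le _)
  · intro hq'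
    obtain ⟨a, ha, e⟩ := fA.mem_toFinset.1 hq'
    obtain ⟨g, hg⟩ := mk_eq_iff.1 e.symm
    have hg' : g • a = p := hg
    exact hn (by rw [← hg']; exact hA g a ha)
  · obtain ⟨g, hg⟩ := mk_eq_iff.1 (rp_mk G hq)
    have hg' : g • p = rp G B (Quotient.mk'' p) := hg
    have := hX g p hp (by rw [hg']; exact rp_mem G hq)
    rw [← hg', this]
    omega

/-- the sum of the payments of the charged items -/
noncomputable def chr {G : Type} [Group G] {W' : Type} [MulAction G W'] (Q : W' → W' → Prop)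
    (e : W' → ℕ) (k : W') : ℕ := os ↥(stabilizer G k) {l | Q k l} e

/-- old items, new items, carriers `R`, charges `Q`, payments `e` -/
structure SgY {H : Type} [Group H] (G : Subgroup H) {W W' : Type} [MulAction H W] [MulAction ↥G W']
    (T : Set W) (T' : Set W') (v : W → ℕ) (v' : W' → ℕ) (R : W → W' → Prop)
    (Q : W' → W' → Prop) (e : W' → ℕ) : Prop where
  fT : FinOrb H T
  fT' : FinOrb ↥G T'
  iv : ∀ (h : H), ∀ p ∈ T, v (h • p) = v p
  iv' : ∀ (g : ↥G), ∀ k ∈ T', v' (g • k) = v' k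
  ie : ∀ (g : ↥G), ∀ k ∈ T', e (g • k) = e k
  R1 : ∀ p k, R p k → p ∈ T ∧ k ∈ T'
  R2 : ∀ (g : ↥G) p k, R p k → R (g • p) (g • k)
  R3 : ∀ p k k', R p k → R p k' → k = k'
  R4 : ∀ p ∈ T, ∃ (h : H) (k : W'), R (h • p) k
  R5 : ∀ p k (h : H) k', R p k → R (h • p) k' → h ∈ G
  Q1 : ∀ q k, Q q k → q ∈ T' ∧ k ∈ T'
  Q2 : ∀ (g : ↥G) q k, Q q k → Q (g • q) (g • k)
  Q3 : ∀ q q' k, Q q k → Q q' k → q = q'
  loc : ∀ k ∈ T', os ↥(stabilizer ↥G k) {p | R p k} v + e k ≤ v' k + chr (G := ↥G) Q e k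

namespace SgY

variable {H : Type} [Group H] {G : Subgroup H} {W W' : Type} [MulAction H W] [MulAction ↥G W']
  {T : Set W} {T' : Set W'} {v : W → ℕ} {v' : W' → ℕ} {R : W → W' → Prop} {Q : W' → W' → Prop}
  {e : W' → ℕ} (S : SgY G T T' v v' R Q e)

include S

theorem fD : FinOrb ↥G {p | ∃ k, R p k} :=
  finOrb_sl (T := T) (D := {p | ∃ k, R p k}) S.fT (fun p ⟨k, hk⟩ => (S.R1 p k hk).1)
    (fun h p ⟨k, hk⟩ ⟨k', hk'⟩ => S.R5 p k h k' hk hk')

theorem fF (k : W') : FinOrb ↥(stabilizer ↥G k) {p | R p k} := by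
  have := finOrb_fib S.fD S.R2 S.R3 k
  rwa [SgR.set_eq R k] at this

theorem iT' (g : ↥G) {q : W'} (h : ∃ k, Q q k) : ∃ k, Q (g • q) k := by
  obtain ⟨k, hk⟩ := h
  exact ⟨_, S.Q2 g q k hk⟩

theorem fC : FinOrb ↥G {k | ∃ q, Q q k} := S.fT'.mono fun _ ⟨q, h⟩ => (S.Q1 q _ h).2

theorem fQ (q : W') : FinOrb ↥(stabilizer ↥G q) {k | Q q k} := by
  have := finOrb_fib (R := fun k p => Q p k) S.fC (fun g k p h => S.Q2 g p k h)
    (fun k p p' h h' => S.Q3 p p' k h h') q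
  have e1 : {k | k ∈ {k | ∃ p, Q p k} ∧ Q q k} = {k | Q q k} := by
    ext k
    exact ⟨fun h => h.2, fun h => ⟨⟨q, h⟩, h⟩⟩
  rwa [e1] at this

/-- the charge is invariant -/
theorem chr_smul (g : ↥G) (q : W') : chr (G := ↥G) Q e (g • q) = chr (G := ↥G) Q e q := by
  have key : ∀ (p p' : W') (g : ↥G), g • p = p' → chr (G := ↥G) Q e p ≤ chr (G := ↥G) Q e p' := by
    intro p p' g hg
    refine os_le_map (S.fQ p) (S.fQ p') (fun s k hk _ => S.ie s.1 k (S.Q1 p' k hk).2)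
      (fun k => g • k) (fun k hk => ?_) ?_ (fun k hk => (S.ie g k (S.Q1 p k hk).2).ge)
    · show Q p' (g • k)
      rw [← hg]
      exact S.Q2 g p k hk
    · rintro a - b - ⟨s, hs⟩
      have hs' : s.1 • g • a = g • b := hs
      refine ⟨⟨g⁻¹ * s.1 * g, ?_⟩, ?_⟩
      · rw [mem_stabilizer_iff, mul_smul, mul_smul, hg]
        have := s.2
        rw [mem_stabilizer_iff] at this
        rw [this, ← hg, inv_smul_smul]
      · show (g⁻¹ * s.1 * g) • a = b
        rw [mul_smul, mul_smul, hs', inv_smul_smul]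
  exact le_antisymm (key _ _ g⁻¹ (inv_smul_smul g q)) (key _ _ g rfl)

/-- the sum of all charges -/
theorem sum_chr : os ↥G T' (chr (G := ↥G) Q e) = os ↥G {k | ∃ q, Q q k} e := by
  have i1 : ∀ (g : ↥G), ∀ k ∈ {k | ∃ p, Q p k}, g • k ∈ {k | ∃ p, Q p k} :=
    fun g k ⟨p, h⟩ => ⟨g • p, S.Q2 g p k h⟩
  have i2 : ∀ k ∈ {k | ∃ p, Q p k}, ∃ p ∈ T', Q p k :=
    fun k ⟨p, h⟩ => ⟨p, (S.Q1 p k h).1, h⟩
  have h1 := os_fib (G := ↥G) (A := {k | ∃ p, Q p k}) (B := T') (X := e)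
    (R := fun k p => Q p k) S.fC S.fT'
    (fun g k hk _ => S.ie g k (by obtain ⟨p, h⟩ := hk; exact (S.Q1 p k h).2))
    i1 (fun g k p h => S.Q2 g p k h)
    (fun k p p' h h' => S.Q3 p p' k h h') i2
  rw [h1, os_eq S.fT']
  refine Finset.sum_congr rfl fun q _ => ?_
  have e1 : {k | k ∈ {k | ∃ p, Q p k} ∧ Q (rp ↥G T' q) k} = {k | Q (rp ↥G T' q) k} := by
    ext k
    exact ⟨fun h => h.2, fun h => ⟨⟨_, h⟩, h⟩⟩
  rw [e1]
  rfl

theorem sum_chr_le : os ↥G T' (chr (G := ↥G) Q e) ≤ os ↥G T' e := by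
  rw [S.sum_chr]
  refine os_mono S.fT' ?_ (fun g k hk _ => S.ie g k hk)
  rintro k ⟨p, h⟩
  exact (S.Q1 p k h).2

theorem sum_fib : os H T v =
    ∑ q ∈ S.fT'.toFinset, os ↥(stabilizer ↥G (rp ↥G T' q)) {p | R p (rp ↥G T' q)} v := by
  have h0 : os ↥G {p | ∃ k, R p k} v = os H T v :=
    os_slice (T := T) (D := {p | ∃ k, R p k}) S.fT (fun p ⟨k, hk⟩ => (S.R1 p k hk).1)
      (fun g p hp _ => S.iv g p hp) S.R4 (fun h p ⟨k, hk⟩ ⟨k', hk'⟩ => S.R5 p k h k' hk hk')
  rw [← h0]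
  have := os_fib (A := {p | ∃ k, R p k}) (B := T') (X := v) (R := R) S.fD S.fT'
    (fun g p ⟨k, hk⟩ _ => S.iv g.1 p (S.R1 p k hk).1)
    (fun g p ⟨k, hk⟩ => ⟨g • k, S.R2 g p k hk⟩) S.R2 S.R3 (fun p ⟨k, hk⟩ => ⟨k, (S.R1 p k hk).2, hk⟩)
  rw [this]
  refine Finset.sum_congr rfl fun q _ => ?_
  rw [SgR.set_eq]

theorem four : os H T v + os ↥G T' e ≤ os ↥G T' v' + os ↥G T' (chr (G := ↥G) Q e) := by
  rw [S.sum_fib, os_eq S.fT', os_eq S.fT', os_eq S.fT', ← Finset.sum_add_distrib,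
    ← Finset.sum_add_distrib]
  exact Finset.sum_le_sum fun q hq => S.loc _ (rp_mem _ (S.fT'.mem_toFinset.1 hq))

/-- THE SUM DOES NOT DROP -/
theorem le : os H T v ≤ os ↥G T' v' := by
  have h1 := S.four
  have h2 := S.sum_chr_le
  omega

/-- the carried sum is invariant -/
theorem car_smul (g : ↥G) (k : W') : os ↥(stabilizer ↥G (g • k)) {p | R p (g • k)} v =
    os ↥(stabilizer ↥G k) {p | R p k} v := by
  have key : ∀ (k k' : W') (g : ↥G), g • k = k' →
      os ↥(stabilizer ↥G k) {p | R p k} v ≤ os ↥(stabilizer ↥G k') {p | R p k'} v := by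
    intro k k' g he
    refine os_le_map (S.fF k) (S.fF k') (fun s p hp _ => S.iv s.1.1 p (S.R1 p k' hp).1)
      (fun p => g • p) (fun p hp => ?_) ?_ (fun p hp => (S.iv g.1 p (S.R1 p k hp).1).ge)
    · show R (g • p) k'
      rw [← he]
      exact S.R2 g p k hp
    · rintro a - b - ⟨s, hs⟩
      have hs' : s.1 • g • a = g • b := hs
      refine ⟨⟨g⁻¹ * s.1 * g, ?_⟩, ?_⟩
      · rw [mem_stabilizer_iff, mul_smul, mul_smul, he]
        have := s.2
        rw [mem_stabilizer_iff] at this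
        rw [this, ← he, inv_smul_smul]
      · show (g⁻¹ * s.1 * g) • a = b
        rw [mul_smul, mul_smul, hs', inv_smul_smul]
  exact le_antisymm (key _ _ g⁻¹ (inv_smul_smul g k)) (key _ _ g rfl)

/-- THE CASE OF EQUALITY: `loc` is an equality -/
theorem eq (h : os ↥G T' v' ≤ os H T v) {k : W'} (hk : k ∈ T') :
    os ↥(stabilizer ↥G k) {p | R p k} v + e k = v' k + chr (G := ↥G) Q e k := by
  have h1 := S.four
  have h2 := S.sum_chr_le
  have h3 : os H T v + os ↥G T' e = os ↥G T' v' + os ↥G T' (chr (G := ↥G) Q e) := by omega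
  rw [S.sum_fib, os_eq S.fT', os_eq S.fT', os_eq S.fT', ← Finset.sum_add_distrib,
    ← Finset.sum_add_distrib] at h3
  have h4 := (Finset.sum_eq_sum_iff_of_le (fun q hq =>
    S.loc _ (rp_mem _ (S.fT'.mem_toFinset.1 hq)))).1 h3
  have hq : (Quotient.mk'' k : orbitRel.Quotient ↥G W') ∈ orbs ↥G T' := ⟨k, hk, rfl⟩
  have h5 := h4 _ (S.fT'.mem_toFinset.2 hq)
  obtain ⟨g, hg⟩ := mk_eq_iff.1 (rp_mk _ hq)
  have hg' : g • k = rp ↥G T' (Quotient.mk'' k) := hg
  rw [← hg', S.iv' g k hk, S.ie g k hk, S.chr_smul g k, S.car_smul g k] at h5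
  exact h5

/-- at constant sum an item which nobody charges pays nothing -/
theorem unch (h : os ↥G T' v' ≤ os H T v) {k : W'} (hk : k ∈ T') (hn : ∀ q, ¬ Q q k) : e k = 0 := by
  by_contra hne
  have h1 := S.four
  have h2 : os ↥G {k | ∃ q, Q q k} e < os ↥G T' e := by
    refine os_lt_of_subset S.fT' ?_ (fun g k hk _ => S.ie g k hk)
      (fun g k ⟨p, h⟩ => ⟨g • p, S.Q2 g p k h⟩) hk (fun ⟨q, hq⟩ => hn q hq) (by omega)
    rintro k ⟨p, h⟩
    exact (S.Q1 p k h).2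
  rw [← S.sum_chr] at h2
  omega

/-- a strict rise -/
theorem lt {k : W'} (hk : k ∈ T')
    (h : os ↥(stabilizer ↥G k) {p | R p k} v + e k < v' k + chr (G := ↥G) Q e k) :
    os H T v < os ↥G T' v' := by
  by_contra hne
  have := S.eq (not_lt.1 hne) hk
  omega

/-- a strict rise by an item which pays and is not charged -/
theorem lt_of_unch {k : W'} (hk : k ∈ T') (hn : ∀ q, ¬ Q q k) (h : 1 ≤ e k) :
    os H T v < os ↥G T' v' := by
  by_contra hne
  have := S.unch (not_lt.1 hne) hk hn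
  omega

/-- SURPLUS: arrows which carry nothing and pay nothing -/
theorem surplus {Z : Set W'} (hZ : Z ⊆ T') (iZ : ∀ (g : ↥G), ∀ k ∈ Z, g • k ∈ Z)
    (h0 : ∀ k ∈ Z, (∀ p, ¬ R p k) ∧ e k = 0) :
    os H T v + os ↥G Z (fun k => v' k + chr (G := ↥G) Q e k) ≤ os ↥G T' v' := by
  classical
  let s : W' → ℕ := fun k => if k ∈ Z then v' k + chr (G := ↥G) Q e k else 0
  have is : ∀ (g : ↥G), ∀ k ∈ T', s (g • k) = s k := by
    intro g k hk
    by_cases h : k ∈ Z
    · have e1 : s (g • k) = v' (g • k) + chr (G := ↥G) Q e (g • k) := if_pos (iZ g k h)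
      have e2 : s k = v' k + chr (G := ↥G) Q e k := if_pos h
      rw [e1, e2, S.iv' g k hk, S.chr_smul]
    · have h' : g • k ∉ Z := fun l => h (by
        have := iZ g⁻¹ _ l
        rwa [inv_smul_smul] at this)
      have e1 : s (g • k) = 0 := if_neg h'
      have e2 : s k = 0 := if_neg h
      rw [e1, e2]
  have h1 : os ↥G Z (fun k => v' k + chr (G := ↥G) Q e k) ≤ os ↥G T' s := by
    have e1 : os ↥G Z (fun k => v' k + chr (G := ↥G) Q e k) = os ↥G Z s :=
      os_congr (S.fT'.mono hZ) fun k hk => (if_pos hk).symm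
    rw [e1]
    exact os_mono S.fT' hZ (fun g k hk _ => is g k hk)
  have h2 : os H T v + os ↥G T' e + os ↥G T' s ≤
      os ↥G T' v' + os ↥G T' (chr (G := ↥G) Q e) := by
    rw [S.sum_fib, os_eq S.fT', os_eq S.fT', os_eq S.fT', os_eq S.fT', ← Finset.sum_add_distrib,
      ← Finset.sum_add_distrib, ← Finset.sum_add_distrib]
    refine Finset.sum_le_sum fun q hq => ?_
    have hm := rp_mem _ (S.fT'.mem_toFinset.1 hq)
    have hl := S.loc _ hm
    by_cases h : rp ↥G T' q ∈ Z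
    · obtain ⟨k1, k2⟩ := h0 _ h
      have e1 : s (rp ↥G T' q) = v' (rp ↥G T' q) + chr (G := ↥G) Q e (rp ↥G T' q) := if_pos h
      have e2 : os ↥(stabilizer ↥G (rp ↥G T' q)) {p | R p (rp ↥G T' q)} v = 0 := by
        have : {p | R p (rp ↥G T' q)} = ∅ :=
          Set.eq_empty_iff_forall_notMem.2 fun p hp => k1 p hp
        rw [this]
        exact os_empty v
      rw [e1, e2, k2]
      omega
    · have e1 : s (rp ↥G T' q) = 0 := if_neg h
      rw [e1]
      omega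
  have h3 := S.sum_chr_le
  omega

end SgY

end Pool.Agent.DI
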