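import Pool.Agent.DI.SgP

/-!
# DI/SgE5: at constant sigma no fat top has a bottom corner with ends over different points

`SgH.e5D`: a diamond top in case 1 (the sides sit at different points of the partner) has `X = 1`.
`SgH.e5G`: a gamma top in case 2 (the top and the partner sit at different bad points of the sides) has
`X = 1` at the upper arrow and `X ≤ 1` at the lower one. `SgH.no1`, `SgH.no2`: the same for fat tops.
-/

namespace Pool.Agent.DI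

open MulAction
open Pool.Agent.SAF (InC orbs FinOrb oc Decomp SAn SA Conv hull dist_edge FinOrb_iff exists_next
  mk_eq_iff)
open Pool.Agent.BT (PX PQ JS bey exits lz lz_self lz_ne lz_symm x_next_unique)
open Pool.Agent.BT.TA

namespace SyQ

variable {H V : Type} [Group H] [MulAction H V] {S : SyQ H V}
  {hc : S.Conn} {w : S.X} {O : S.OR w} {hm : (S.k0 hc w).Min} {hn : S.SqN w O}
  {E : V → Prop} {c : S.Q w O × S.Q w O → ℕ}

/-- the upper arrow of a diamond top is no `GB` arrow -/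
theorem SgO.ngb_D (h : S.SgO w O E) {T a : V}
    (hD : (T, a) ∈ S.P.Dm) : ¬ S.GB w (T, a) := by
  rintro ⟨b', y', q, g1, g2, g3, -⟩
  obtain ⟨b1, y1, k1, k2, k3⟩ := hD
  have g1 : S.P.Top T a b' y' := g1
  have k1 : S.P.Top T a b1 y1 := k1
  have hp : (T, a) ∈ S.P.CA := Or.inr ⟨b1, y1, k1, k2, k3⟩
  obtain ⟨rfl, rfl⟩ := h.sq.uniq k1 g1 (h.nE hp)
  exact GX.ck_asym k3 g3

/-- DIAMOND TOPS IN CASE 1 are thin at constant sigma -/
theorem SgH.e5D (h : S.SgH hc w O hm hn E c)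
    (hs : (S.kfP hc w O hm hn).sigma ≤ S.P.sigma) {T a b y : V} (ht : S.P.Top T a b y)
    (hD : (T, a) ∈ S.P.Dm) {p q : S.X} (k : S.Cas1 T a b y p q) : S.P.X T a = 1 := by
  have hng := h.o.ngb_D hD
  obtain ⟨q', h1, h2, h3⟩ := h.o.pl (T, a) (Or.inr hD) hng
  have e : q' = p := S.one_eq (Or.inl ht.2.1) h1 h2 k.p0 k.p1
  subst e
  obtain ⟨g, hg⟩ := h3
  -- move the place to `w`
  have ht' := ht.smul g⁻¹
  have k' := k.smul g⁻¹
  have hD' : (g⁻¹ • T, g⁻¹ • a) ∈ S.P.Dm := by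
    obtain ⟨b1, y1, k1, k2, k3⟩ := hD
    exact ⟨g⁻¹ • b1, g⁻¹ • y1, P45.Top.smul g⁻¹ k1, S.K.ar_smul _ _ _ k2, S.K.ar_smul _ _ _ k3⟩
  have hw : g⁻¹ • q' = w := by rw [inv_smul_eq_iff, hg]
  rw [hw] at k'
  have hng' := h.o.ngb_D hD'
  have hX : S.P.X T a = S.P.X (g⁻¹ • T) (g⁻¹ • a) := (P45.X_smul g⁻¹ T a).symm
  rw [hX]
  generalize g⁻¹ • T = T' at *
  generalize g⁻¹ • a = a' at *
  generalize g⁻¹ • b = b' at *
  generalize g⁻¹ • y = y' at *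
  generalize g⁻¹ • q = q1 at *
  obtain ⟨u, hu⟩ := exists_Bt S.D.tree (Sgm.left w q1) k'.ne
  have hay : S.K.ar a' y' := by
    obtain ⟨b1, y1, k1, k2, k3⟩ := hD'
    have k1 : S.P.Top T' a' b1 y1 := k1
    have hp : (T', a') ∈ S.P.CA := Or.inr ⟨b1, y1, k1, k2, k3⟩
    obtain ⟨rfl, rfl⟩ := h.o.sq.uniq k1 ht' (h.o.nE hp)
    exact k2
  have hq := (Al.qs k' ht'.q4' hu).symm'
  have ho := h.o.n7 u a' y' T' hq k'.p1 hay ht'.2.1
  have kn := Cas1.kn ht' k' hu hay ho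
  exact (h.near hs kn).2 (T', a') hD' ⟨Or.inr hD', k'.p1, Or.inl ⟨hng', k'.p0, rfl⟩⟩

/-- GAMMA TOPS IN CASE 2 with bad ends are thin at constant sigma -/
theorem SgH.e5G (h : S.SgH hc w O hm hn E c)
    (hs : (S.kfP hc w O hm hn).sigma ≤ S.P.sigma) {T a b y : V} (ht : S.P.Top T a b y)
    (hU : (T, a) ∈ S.P.U) {p q : S.X} (k : S.Cas2 T a b y p q) (hp : S.Bd w p)
    (hq : S.Bd w q) : S.P.X T a = 1 ∧ S.P.X T b ≤ 1 := by
  obtain ⟨g, hg⟩ := hp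
  have ht' := ht.smul g⁻¹
  have k' := k.smul g⁻¹
  have hU' : (g⁻¹ • T, g⁻¹ • a) ∈ S.P.U := by
    obtain ⟨b1, y1, k1, k2, k3⟩ := hU
    exact ⟨g⁻¹ • b1, g⁻¹ • y1, P45.Top.smul g⁻¹ k1, S.K.ar_smul _ _ _ k2, S.K.ar_smul _ _ _ k3⟩
  have hw : g⁻¹ • p = w := by rw [inv_smul_eq_iff, hg]
  rw [hw] at k'
  have hq' := hq.smul g⁻¹
  have hX : S.P.X T a = S.P.X (g⁻¹ • T) (g⁻¹ • a) := (P45.X_smul g⁻¹ T a).symm
  have hX2 : S.P.X T b = S.P.X (g⁻¹ • T) (g⁻¹ • b) := (P45.X_smul g⁻¹ T b).symm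
  rw [hX, hX2]
  generalize g⁻¹ • T = T' at *
  generalize g⁻¹ • a = a' at *
  generalize g⁻¹ • b = b' at *
  generalize g⁻¹ • y = y' at *
  generalize g⁻¹ • q = q1 at *
  obtain ⟨b1, y1, k1, k2, k3⟩ := hU'
  have k1 : S.P.Top T' a' b1 y1 := k1
  have k2 : S.K.ar a' y1 := k2
  have k3 : S.K.ar y1 b1 := k3
  have hCA : (T', a') ∈ S.P.CA := Or.inl ⟨b1, y1, k1, k2, k3⟩
  obtain ⟨rfl, rfl⟩ := h.o.sq.uniq ht' k1 (h.o.nE hCA)
  have hJ := k'.JT ht' (h.o.sq.nab _ _ _ _ ht')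
  have hG : S.GB w (T', a') := by
    refine ⟨b', y', q1, ht', k2, k3, k'.q0, k'.q3, ?_, hq'⟩
    intro e
    have e : q1 ∈ S.J T' := e
    rw [hJ] at e
    exact k'.ne (show q1 = w from e).symm
  exact h.gb hs ht' ⟨b', y', ht', k2, k3⟩ hG k'.p1 k'.p0 k'.p2

/-- no fat diamond top in case 1 -/
theorem SgH.no1 (h : S.SgH hc w O hm hn E c)
    (hs : (S.kfP hc w O hm hn).sigma ≤ S.P.sigma) {T a b y : V} (ht : S.P.Top T a b y)
    (ea : S.K.ar a y) (eb : S.K.ar b y) (hf : 2 ≤ S.P.X T a ∨ 2 ≤ S.P.X T b) {p q : S.X} :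
    ¬ S.Cas1 T a b y p q := by
  intro k
  have h1 := h.e5D hs ht ⟨b, y, ht, ea, eb⟩ k
  have h2 := h.e5D hs ht.symm' ⟨a, y, ht.symm', eb, ea⟩ k.symm
  omega

/-- no fat gamma top in case 2 with bad ends -/
theorem SgH.no2 (h : S.SgH hc w O hm hn E c)
    (hs : (S.kfP hc w O hm hn).sigma ≤ S.P.sigma) {T a b y : V} (ht : S.P.Top T a b y)
    (ea : S.K.ar a y) (eb : S.K.ar y b) (hf : 2 ≤ S.P.X T a ∨ 2 ≤ S.P.X T b) {p q : S.X}
    (hp : S.Bd w p) (hq : S.Bd w q) : ¬ S.Cas2 T a b y p q := by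
  intro k
  have h1 := h.e5G hs ht ⟨b, y, ht, ea, eb⟩ k hp hq
  omega

end SyQ

end Pool.Agent.DI
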