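import Pool.Agent.DI.SgP
import Pool.Agent.DI.HrE

/-!
# DI/SgI: no gamma top of a step becomes a diamond top

`Psv.no_p4`: no counted gamma top over `w` becomes a diamond top (`S.P4` is empty).
-/

namespace Pool.Agent.DI

open MulAction
open Pool.Agent.SAF (InC orbs FinOrb oc Decomp)

namespace SyQ

variable {H V : Type} [Group H] [MulAction H V] {S : SyQ H V} {w : S.X} {O : S.OR w}
  {E : V → Prop}

/-- no counted gamma top over `w` becomes a diamond top -/
theorem Psv.no_p4 (h : S.Psv w O E) {hc : S.Conn} {hm : (S.k0 hc w).Min} {hn : S.SqN w O}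
    (ho : S.SgO w O E) {p : V × V} {k : S.Q w O × S.Q w O} : ¬ S.P4 hc hm hn p k := by
  intro h1
  obtain ⟨T, a⟩ := p
  obtain ⟨hU, b, y, ht, e1, e2, hT, ha, hb, -⟩ := h1.data ho
  have hab := h.sq.nab _ _ _ _ ht
  have hy : ¬ S.P.Bare y := fun k => k.1 a e1
  by_cases wy : w ∈ S.J y
  · obtain ⟨B, Y', t1, t2, t3⟩ := h1.2.2.2.1
    have k1 : S.arQ w O (S.fq w O (S.rho w y)) (S.fq w O (S.rho w b)) :=
      ho.ar wy (fun v => h.rz.nf.nsk (h.rz.op_of wy hy w) wy v) hb e2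
    have k2 : (S.kfP hc w O hm hn).Top (S.fq w O (S.rho w T)) (S.fq w O (S.rho w a))
        (S.fq w O (S.rho w b)) (S.fq w O (S.rho w y)) :=
      loc_Top h.rz.nf ho.kin ht ⟨hT, ha, hb, wy⟩ (h.sq.nTy _ _ _ _ ht)
        (ho.nab _ _ _ _ ht (Or.inl hU) hT ha hb)
    obtain rfl := kf_par h.rz.nf ho.kin k2 t1
    have k3 : S.fq w O (S.rho w b) = B := by
      rcases (S.kf hc w O).two _ _ _ _ k2.2.1 k2.2.2 t1.2.2 with e | e | e
      · exact absurd e (kf_nab k2)
      · exact e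
      · exact absurd e (kf_nab t1)
    rw [← k3] at t3
    exact GX.ck_asym (K := S.kf hc w O) k1 t3
  · obtain ⟨q, q1, q2⟩ := S.one_ex (Or.inl e1 : S.K.E a y)
    have hbd := h.place_bd (Or.inl e1) (Rz.nb_side ht) hy q1 q2
    have hJ := rz_J hT ha hb ht.2.1 ht.2.2 hab
    rcases h1.1.2.2 with ⟨k, -⟩ | ⟨-, -, -, -, -, -, k, -⟩
    · apply k
      refine ⟨b, y, q, ht, e1, e2, q1, q2, ?_, hbd⟩
      intro hq
      have hq : q ∈ S.J T := hq
      rw [hJ, Set.mem_singleton_iff] at hq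
      rw [hq] at q2
      exact wy q2
    · exact k hT

end SyQ

end Pool.Agent.DI
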