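import Pool.Agent.DI.LemV
import Pool.Agent.DI.TSd
import Pool.Agent.DI.QKMin

/-!
# DI/SkC: Lemma SK, sinks of `K` lie in cells of the folded slice

`S : SyQ H V` with `Conn`, `NB`, `S.TSp w` (no one-sided local piece at `w`) and a pentagon centred at `w`.
`sk_snk`: if the sides of the squares of `K` over `w` are not identified then the class of every sink `y` of
`K` with `J y = {w}` is in a cell of the folded slice, for every rule `O` of open stars.
-/

namespace Pool.Agent.DI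

open MulAction
open Pool.Agent.SAF (InC orbs FinOrb oc Decomp SAn SA Conv hull dist_edge FinOrb_iff exists_next)
open Pool.Agent.BT (PX PQ JS bey exits)
open Pool.Agent.BT.TA

namespace SyQ

variable {H V : Type} [Group H] [MulAction H V] {S : SyQ H V}

/-! ### positions -/

/-- a vertex over `w` which is adjacent to a vertex beyond `u` crosses `w u` -/
theorem sk_cr {w u : S.X} (hu : S.D.G.Adj w u) {x z : V} (e : S.K.E x z) (hx : w ∈ S.J x)
    (hz : S.J z ⊆ bey S.D.G w u) : S.Cs w u x := by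
  have h1 := S.dir_cross e hx (S.not_mem_of_bey hu hz)
  rw [S.dir_eq hu hz] at h1
  exact ⟨hx, h1⟩

/-- a vertex not over `w` which is adjacent to a vertex beyond `u` is beyond `u` -/
theorem sk_far {w u : S.X} (hu : S.D.G.Adj w u) {x z : V} (e : S.K.E x z) (hx : w ∉ S.J x)
    (hz : S.J z ⊆ bey S.D.G w u) : S.J x ⊆ bey S.D.G w u := by
  have h1 := S.dir_far e hx (S.not_mem_of_bey hu hz)
  rw [S.dir_eq hu hz] at h1
  have h2 := S.dir_bey hx
  rwa [h1] at h2

/-- a neighbour of a vertex over `w` is over `w` or beyond a crossed edge -/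
theorem sk_nb {w : S.X} {a x : V} (e : S.K.E a x) (ha : w ∈ S.J a) (hx : w ∉ S.J x) :
    ∃ u, S.D.G.Adj w u ∧ u ∈ S.J a ∧ S.J x ⊆ bey S.D.G w u :=
  ⟨S.dir w x, S.dir_adj hx, S.dir_cross e ha hx, S.dir_bey hx⟩

theorem sk_sides {w u : S.X} {z : V} (h1 : S.J z ⊆ bey S.D.G w u)
    (h2 : S.J z ⊆ bey S.D.G u w) : False := by
  obtain ⟨p, hp⟩ := S.js.ne z
  exact bey_not (h1 hp) (h2 hp)

/-- the centre of a pentagon -/
theorem sk_isC {w : S.X} {a q b y z : V} (h0 : w ∈ S.J a ∨ w ∈ S.J q) (h1 : w ∈ S.J q ∨ w ∈ S.J b)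
    (h2 : w ∈ S.J b ∨ w ∈ S.J y) (h3 : w ∈ S.J y ∨ w ∈ S.J z) (h4 : w ∈ S.J z ∨ w ∈ S.J a) :
    S.IsC ![a, q, b, y, z] w := by
  intro k
  fin_cases k
  exacts [h0, h1, h2, h3, h4]

theorem sk_isC' {w : S.X} {a q b y z : V} (h : S.IsC ![a, q, b, y, z] w) :
    (w ∈ S.J a ∨ w ∈ S.J q) ∧ (w ∈ S.J q ∨ w ∈ S.J b) ∧ (w ∈ S.J b ∨ w ∈ S.J y) ∧
      (w ∈ S.J y ∨ w ∈ S.J z) ∧ (w ∈ S.J z ∨ w ∈ S.J a) :=
  ⟨h 0, h 1, h 2, h 3, h 4⟩

theorem sk_rot {w : S.X} {a q b y z : V} (h : S.IsC ![a, q, b, y, z] w) :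
    S.IsC ![q, b, y, z, a] w := by
  obtain ⟨h0, h1, h2, h3, h4⟩ := sk_isC' h
  exact sk_isC h1 h2 h3 h4 h0

/-- a centred pentagon has two adjacent vertices over `w` -/
theorem sk_two {w : S.X} {a q b y z : V} (h : Qn S.P a q b y z) (hI : S.IsC ![a, q, b, y, z] w) :
    ∃ a q b y z, Qn S.P a q b y z ∧ S.IsC ![a, q, b, y, z] w ∧ w ∈ S.J a ∧ w ∈ S.J q := by
  have key : ∀ {a q b y z : V}, Qn S.P a q b y z → S.IsC ![a, q, b, y, z] w → w ∉ S.J a →
      ∃ a q b y z, Qn S.P a q b y z ∧ S.IsC ![a, q, b, y, z] w ∧ w ∈ S.J a ∧ w ∈ S.J q := by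
    intro a q b y z h hI ha
    obtain ⟨h0, h1, h2, h3, h4⟩ := sk_isC' hI
    have hz := h4.resolve_right ha
    have hq := h0.resolve_left ha
    rcases h2 with hb | hy
    · exact ⟨q, b, y, z, a, h.rot, sk_rot hI, hq, hb⟩
    · exact ⟨y, z, a, q, b, h.rot.rot.rot, sk_rot (sk_rot (sk_rot hI)), hy, hz⟩
  by_cases ha : w ∈ S.J a
  · by_cases hq : w ∈ S.J q
    · exact ⟨a, q, b, y, z, h, hI, ha, hq⟩
    · exact key h.rot (sk_rot hI) hq
  · exact key h hI ha

section

variable {hc : S.Conn} {w : S.X} {O : S.OR w} (hm : (S.k0 hc w).Min) (hn : S.SqN w O)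

include hm hn

/-- vertices of centred pentagons are in cells -/
theorem sk_cen {a q b y z : V} (h : Qn S.P a q b y z) (hI : S.IsC ![a, q, b, y, z] w) :
    (S.kf hc w O).VC (S.fq w O (S.rho w q)) :=
  ⟨_, (GX.EC_iff.2 ⟨_, kf_cor5 hm hn h hI⟩).symm⟩

theorem sk_cen0 {a q b y z : V} (h : Qn S.P a q b y z) (hI : S.IsC ![a, q, b, y, z] w) :
    (S.kf hc w O).VC (S.fq w O (S.rho w a)) :=
  sk_cen hm hn h.rot.rot.rot.rot (sk_rot (sk_rot (sk_rot (sk_rot hI))))

/-- LEMMA SK, sinks of `K` -/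
theorem sk_snk (hnb : S.NB) (hTS : S.TSp w)
    (hloc : ∀ T a b y, S.P.Top T a b y → S.Loc w T a b y →
      S.fq w O (S.rho w a) ≠ S.fq w O (S.rho w b))
    (hpen : ∃ a q b y z, Qn S.P a q b y z ∧ S.IsC ![a, q, b, y, z] w)
    {y : V} (hq : S.J y = {w}) (hy : S.K.Snk y) (hlc : S.K.LC y) (hv : S.K.VC y) :
    (S.kf hc w O).VC (S.fq w O (S.rho w y)) := by
  by_contra hcell
  have nd := S.P.nd_nb hnb
  have hw := uk_one hq
  have hsk := uk_snk_sk (O := O) hq hy
  have hcls := fun b e => uk_cls (b := b) hw (fun u hu => uk_ncr hq hu) hsk e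
  -- the two ends of every corner are in one class
  have hcor : ∀ a b, S.K.Cor a y b → S.fq w O (S.rho w a) = S.fq w O (S.rho w b) := by
    intro a b h
    rcases uk_cor hm hn nd hq h with k | ⟨u, hu, k | k⟩ | ⟨z, hz, h4, k | k⟩
    · exact absurd ⟨_, (GX.EC_iff.2 ⟨_, k⟩).symm⟩ hcell
    · exact k
    · exact absurd (fq_inr.1 k) (hsk _)
    · exact k
    · have := hcls _ k.symm
      rw [S.rho_near hw, S.rho_near hz] at this
      exact absurd (congrArg Subtype.val (Sum.inl.inj this)).symm (uk_q4_ne nd h4).2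
  have hlj : ∀ a b, S.K.LJ y a b → S.fq w O (S.rho w a) = S.fq w O (S.rho w b) := by
    intro a b h
    induction h with
    | rel a b h => exact hcor a b h
    | refl a => rfl
    | symm a b _ ih => exact ih.symm
    | trans a b c _ _ i1 i2 => exact i1.trans i2
  obtain ⟨x, hx⟩ := hv
  obtain ⟨b, hxb⟩ := GX.EC_iff.1 hx.symm
  have hin : ∀ {n}, S.K.E y n → S.K.ar n y := fun {n} e => e.resolve_left (hy n)
  have ax : S.K.ar x y := hin hxb.E1
  have wx := uk_nb hq hxb.E1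
  have wb := uk_nb hq hxb.E2
  obtain ⟨u, hu, cu⟩ := uk_edge (O := O) wx wb (uk_nsk hq ax) (uk_cor_ne hnb hxb) (hcor _ _ hxb)
  have heq : ∀ n n', S.K.ar n y → S.K.ar n' y →
      S.fq w O (S.rho w n) = S.fq w O (S.rho w n') := fun n n' h h' =>
    hlj _ _ (hlc n n' (Or.inr h) (Or.inr h'))
  -- all in-arrows cross `w u`
  have hN : ∀ n, S.K.ar n y → S.Cs w u n := by
    intro n hn'
    by_cases hne : n = x
    · rw [hne]
      exact cu
    have wn := uk_nb hq (Or.inr hn')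
    obtain ⟨u', hu', cu'⟩ := uk_edge (O := O) wn wx (uk_nsk hq hn') hne (heq _ _ hn' ax)
    have a1 := arQ_up (S := S) (w := w) (O := O) hu cu
    have a2 : S.arQ w O (S.fq w O (S.rho w x)) (S.fq w O (S.rho w y)) :=
      uk_ar (hc := hc) hq ax (Or.inl hy)
    have a3 := arQ_up (S := S) (w := w) (O := O) hu' cu'
    rw [heq _ _ hn' ax] at a3
    rcases arQ_two a1 a2 a3 with e | e | e
    · exact absurd (fq_inr.1 e.symm) (hsk _)
    · exact absurd (fq_inr.1 e) (hsk _)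
    · have e1 : u = u' := congrArg Subtype.val (Sk.inr.1 (fq_inr.1 e))
      rw [e1]
      exact cu'
  -- they have no other neighbour over `w`
  have hE : ∀ n z, S.K.ar n y → S.K.E n z → w ∈ S.J z → z = y := by
    intro n z hn' e hz
    have cn := hN n hn'
    rcases e with e | e
    · exact ar_ar_eq cn.1 e hz hn' hw hu cn.2
    · exfalso
      obtain ⟨z', k1, k2⟩ := (hTS n z e cn.1 hz ⟨u, hu, cn.2⟩).2 y hn' hw
      have wz' := (lij_mem k1).1 hz
      have az' := (lij_ar k1).1 e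
      rcases S.P.cor_iff.1 k2 with ⟨x1, x2, h5⟩ | ⟨x1, h4⟩
      · have a1 := hN x1 (hin h5.E3)
        refine hcell (sk_cen hm hn h5.rot (sk_isC (Or.inl cn.1) (Or.inl hw) (Or.inl a1.1)
          (Or.inr wz') (Or.inl wz')))
      · have b1 := hin h4.E3
        have a1 := hN x1 b1
        rcases h4.E4 with e1 | e1
        · have e2 := ar_ar_eq a1.1 e1 wz' b1 hw hu a1.2
          rw [e2] at az'
          exact hy n az'
        · refine hloc z' n x1 y ⟨?_, az', e1⟩ ⟨wz', cn.1, a1.1, hw⟩ (heq _ _ hn' b1)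
          exact h4.rot.rot.rot.symm
  -- a neighbour on the side of `w` is `y`
  have hS : ∀ n z, S.K.ar n y → S.K.E n z → S.J z ⊆ bey S.D.G u w → z = y := by
    intro n z hn' e hz
    by_cases hwz : w ∈ S.J z
    · exact hE n z hn' e hwz
    · exfalso
      have cn := hN n hn'
      obtain ⟨u', h1, h2, h3⟩ := sk_nb e cn.1 hwz
      have e1 : u' = u := ar_cs_eq cn.1 hn' hw h1 hu h2 cn.2
      rw [e1] at h3
      exact sk_sides h3 hz
  have hyu : ¬ S.Cs w u y := fun k => uk_ncr hq hu k.2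
  -- the set is closed
  have hcl : ∀ a b, S.SR w a b → (a = y ∨ S.K.ar a y) → (b = y ∨ S.K.ar b y) := by
    rintro a b (⟨e, h1, h2⟩ | ⟨u', h⟩) (rfl | ha)
    · exact Or.inr (hin e)
    · exact Or.inl (hE a b ha e h2)
    · exact absurd h.l.2 (uk_ncr hq h.1)
    · have ca := hN a ha
      have e1 : u' = u := ar_cs_eq ca.1 ha hw h.1 hu h.l.2 ca.2
      subst e1
      obtain ⟨-, -, -, q, h | h⟩ := h
      · obtain ⟨-, ⟨y1, z1, h5, s1, s2⟩ | ⟨y1, h4, s1⟩⟩ := h
        · have e1 := hS a z1 ha h5.E5.symm s2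
          rw [e1] at h5
          have := hN y1 (hin h5.E4.symm)
          exact absurd this.2 (fun k => bey_not (s1 k) (bey_self hu))
        · have e1 := hS a y1 ha h4.E4.symm s1
          rw [e1] at h4
          exact Or.inr (hin h4.E3.symm)
      · have e1 := hS a q ha h.E1 h.1
        have e2 := h.E2
        rw [e1] at e2
        exact Or.inr (hin e2)
  have hiff : ∀ a b, Relation.EqvGen (S.SR w) a b →
      ((a = y ∨ S.K.ar a y) ↔ (b = y ∨ S.K.ar b y)) := by
    intro a b k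
    induction k with
    | rel a b k => exact ⟨hcl a b k, hcl b a (SR.symm' S k)⟩
    | refl a => exact Iff.rfl
    | symm a b _ ih => exact ih.symm
    | trans a b c _ _ i1 i2 => exact i1.trans i2
  have all : ∀ z, w ∈ S.J z → (z = y ∨ S.K.ar z y) := fun z hz =>
    (hiff y z (hc.slice w y z hw hz)).1 (Or.inl rfl)
  obtain ⟨a, q, b', y', z', h5, hI⟩ := hpen
  obtain ⟨a, q, b', y', z', h5, hI, wa, wq⟩ := sk_two h5 hI
  rcases all a wa with e | ka
  · rw [e] at h5 hI
    exact hcell (sk_cen0 hm hn h5 hI)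
  · rcases all q wq with e | kq
    · rw [e] at h5 hI
      exact hcell (sk_cen hm hn h5 hI)
    · exact S.not_both hu h5.E1 (hN a ka) (hN q kq)

end

end SyQ

end Pool.Agent.DI
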