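import Pool.Agent.DI.SkC

/-!
# DI/SkT: Lemma SK, the sinks `t_u`

`S : SyQ H V` with `Conn`, `NB`, connected links, `S.TSp w` and a pentagon centred at `w`. `sk_t`: for every
edge `w u` the sink `t_u` is in a cell of the folded slice, under `S.SkH w O`: the poles of a hub in an
open star and the sides of the squares of `K` over `w` are not identified, the tops of these squares
are open, and the hubs over `w` whose stars are not open are bare (no in-arrow, in no pentagon).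
`sk_all`: every sink of the folded slice is in a cell.
-/

namespace Pool.Agent.DI

open MulAction
open Pool.Agent.SAF (InC orbs FinOrb oc Decomp SAn SA Conv hull dist_edge FinOrb_iff exists_next)
open Pool.Agent.BT (PX PQ JS bey exits)
open Pool.Agent.BT.TA

namespace SyQ

variable {H V : Type} [Group H] [MulAction H V] {S : SyQ H V}

/-- the hypotheses on the fold -/
structure SkH (S : SyQ H V) (w : S.X) (O : S.OR w) : Prop where
  nf : O.Nf
  /-- the poles of a hub in an open star are not identified -/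
  hub : ∀ u q a b, O.op u q → S.K.ar q a → S.K.ar q b → a ≠ b → S.Qs w u q a b →
    S.fq w O (S.rho w a) ≠ S.fq w O (S.rho w b)
  /-- the sides of the squares over `w` are not identified -/
  loc : ∀ T a b y, S.P.Top T a b y → S.Loc w T a b y →
    S.fq w O (S.rho w a) ≠ S.fq w O (S.rho w b)
  /-- the stars of the tops over `w` are open -/
  nlo : ∀ T a b y, S.P.Top T a b y → S.Loc w T a b y → ∀ u, S.D.G.Adj w u → O.op u T
  /-- the hubs over `w` whose stars are not open are bare -/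
  bare : ∀ u q, w ∈ S.J q → S.D.G.Adj w u → ¬ O.op u q →
    (∀ x, ¬ S.K.ar x q) ∧ ∀ a b y z, ¬ Qn S.P a q b y z

/-- three crossed edges -/
theorem sk_cs3 {w : S.X} {z : V} (hz : w ∈ S.J z) {u u1 u2 : S.X} (hu : S.D.G.Adj w u)
    (h1 : S.D.G.Adj w u1) (h2 : S.D.G.Adj w u2) (c : u ∈ S.J z) (c1 : u1 ∈ S.J z)
    (c2 : u2 ∈ S.J z) : u = u1 ∨ u1 = u2 ∨ u = u2 := by
  have k0 : S.SAr w (Sum.inl ⟨z, hz⟩) (Sum.inr ⟨u, hu⟩) := SAr.up (S := S) ⟨z, hz⟩ ⟨u, hu⟩ c
  have k1 : S.SAr w (Sum.inl ⟨z, hz⟩) (Sum.inr ⟨u1, h1⟩) := SAr.up (S := S) ⟨z, hz⟩ ⟨u1, h1⟩ c1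
  have k2 : S.SAr w (Sum.inl ⟨z, hz⟩) (Sum.inr ⟨u2, h2⟩) := SAr.up (S := S) ⟨z, hz⟩ ⟨u2, h2⟩ c2
  rcases SAr.two _ _ _ _ k0 k1 k2 with e | e | e
  · exact Or.inl (congrArg Subtype.val (Sum.inr.inj e))
  · exact Or.inr (Or.inl (congrArg Subtype.val (Sum.inr.inj e)))
  · exact Or.inr (Or.inr (congrArg Subtype.val (Sum.inr.inj e)))

section

variable {hc : S.Conn} {w : S.X} {O : S.OR w} (hm : (S.k0 hc w).Min) (hn : S.SqN w O)

/-- a hub whose stars are not open has a diamond -/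
theorem SkH.dia (h : S.SkH w O) {u : S.X} {q : V} (hq : w ∈ S.J q) (hu : S.D.G.Adj w u)
    (ho : ¬ O.op u q) : ∃ u1, S.Dia w u1 q := by
  by_contra hcon
  push Not at hcon
  exact ho (h.nf.n1 q hq hcon u hu)

/-- an open star: the hub is not folded to a sink -/
theorem SkH.nsk (h : S.SkH w O) {u : S.X} {q : V} (hq : w ∈ S.J q) (ho : O.op u q) (v : S.EV w) :
    ¬ S.Sk w O v (S.rho w q) := by
  intro k
  rw [S.rho_near hq] at k
  exact (Sk.inl.1 k).2 (h.nf.n2 u v.1 q ho v.2)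

/-- a vertex which crosses an edge is not folded to a sink -/
theorem sk_nsk {u : S.X} {q : V} (hu : S.D.G.Adj w u) (c : S.Cs w u q) (v : S.EV w) :
    ¬ S.Sk w O v (S.rho w q) := by
  intro k
  rw [S.rho_near c.1] at k
  exact (Sk.inl.1 k).1.1.not_cs hu c.2

include hm hn

/-- a zero square at `t_u`, in a cell or collapsed or at a hub whose star is not open -/
theorem sk_qs {u : S.X} (hu : S.D.G.Adj w u) {q a b : V}
    (hs : S.Qs w u q a b) : (S.kf hc w O).VC (S.fq w O (Sum.inr ⟨u, hu⟩)) ∨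
      S.fq w O (S.rho w a) = S.fq w O (S.rho w b) ∨ (w ∈ S.J q ∧ ¬ O.op u q) := by
  by_cases h1 : S.fq w O (S.rho w a) = S.fq w O (S.rho w b)
  · exact Or.inr (Or.inl h1)
  by_cases h2 : S.fq w O (S.rho w q) = S.fq w O (Sum.inr ⟨u, hu⟩)
  · right; right
    by_cases hq : w ∈ S.J q
    · have k := fq_inr.1 h2
      rw [S.rho_near hq] at k
      exact ⟨hq, (Sk.inl.1 k).2⟩
    · rw [S.rho_far hq] at h2
      have e1 : S.dir w q = u := congrArg Subtype.val (Sk.inr.1 (fq_inr.1 h2))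
      have h3 := S.dir_bey hq
      rw [e1] at h3
      exact (sk_sides h3 hs.near).elim
  left
  obtain ⟨-, ca, cb, s0, ⟨y, z, h5, s1, s2⟩ | ⟨y, h4, s1⟩⟩ := hs
  · have k := kfP_q4 hm hn h5 ⟨hu, ca, cb, s0, s1, s2⟩ h1 h2
    exact ⟨_, (GX.EC_iff.2 ⟨_, (S.kfP hc w O hm hn).cor_iff.2 (Or.inr ⟨_, k.rot.rot⟩)⟩).symm⟩
  · have ry : S.rho w y = Sum.inr ⟨u, hu⟩ := S.rho_bey hu s1
    rw [← ry] at h2
    have hnd : S.ND w ![a, q, b, y] := ⟨fun e => h1 (congrArg _ e), fun e => h2 (congrArg _ e)⟩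
    have k := kfP_q4q hm hn h4 hnd h1 h2
    rw [ry] at k
    exact ⟨_, (GX.EC_iff.2 ⟨_, (S.kfP hc w O hm hn).cor_iff.2 (Or.inr ⟨_, k.rot.rot⟩)⟩).symm⟩

/-- LEMMA SK, the sinks `t_u` -/
theorem sk_t (hnb : S.NB) (hTS : S.TSp w) (h : S.SkH w O) (hlc : ∀ v, S.K.LC v)
    (hpen : ∃ a q b y z, Qn S.P a q b y z ∧ S.IsC ![a, q, b, y, z] w)
    {u : S.X} (hu : S.D.G.Adj w u) : (S.kf hc w O).VC (S.fq w O (Sum.inr ⟨u, hu⟩)) := by
  by_contra hcell
  have nd := S.P.nd_nb hnb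
  -- no vertex of a centred pentagon is beyond `u`
  have hfar : ∀ {a q b y z : V}, Qn S.P a q b y z → S.IsC ![a, q, b, y, z] w →
      ¬ S.J q ⊆ bey S.D.G w u := by
    intro a q b y z h5 hI s
    apply hcell
    have := sk_cen hm hn h5 hI
    rwa [S.rho_bey hu s] at this
  -- the zero squares of the open stars are collapsed
  have hqs : ∀ q a b, S.Qs w u q a b → O.op u q →
      S.fq w O (S.rho w a) = S.fq w O (S.rho w b) := by
    intro q a b hs ho
    rcases sk_qs hm hn hu hs with k | k | k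
    · exact absurd k hcell
    · exact k
    · exact absurd ho k.2
  -- a bare hub over `w` has no corner over `w` at its poles
  have hbc : ∀ a z1 z2, S.K.ar z1 a → w ∈ S.J a → w ∈ S.J z1 → w ∈ S.J z2 → ¬ O.op u z1 →
      ¬ S.K.Cor z1 a z2 := by
    intro a z1 z2 e1 wa w1 w2 ho k
    obtain ⟨u1, d1⟩ := h.dia w1 hu ho
    obtain ⟨b1, b2⟩ := h.bare u z1 w1 hu ho
    rcases S.P.cor_iff.1 k with ⟨x1, x2, h5⟩ | ⟨x, h4⟩
    · exact b2 _ _ _ _ h5.rot.rot.rot.rot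
    · have e2 : S.K.ar z1 x := (h4.E4).resolve_left (b1 x)
      have cx := d1.two e2
      exact ho (h.nlo z1 a x z2 ⟨h4.rot.rot.rot.symm, e1, e2⟩ ⟨w1, wa, cx.2.1, w2⟩ u hu)
  have hbq : ∀ a q z2, S.K.ar q a → w ∈ S.J a → ¬ O.op u q → S.LIJ w a q z2 → z2 = q := by
    intro a q z2 e wa ho k
    have key : ∀ z1 z2, S.LIJ w a z1 z2 → (z1 = q ↔ z2 = q) := by
      intro z1 z2 k
      induction k with
      | rel z1 z2 k =>
        obtain ⟨⟨k1, k2, k3⟩, wa, w1, w2⟩ := k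
        constructor
        · rintro rfl
          exact absurd k1 (hbc a z1 z2 e wa w1 w2 ho)
        · rintro rfl
          exact absurd k1.symm (hbc a z2 z1 e wa w2 w1 ho)
      | refl a => exact Iff.rfl
      | symm a b _ ih => exact ih.symm
      | trans a b c _ _ i1 i2 => exact i1.trans i2
    exact (key q z2 k).1 rfl
  have hlo : ∀ a z1 z2, S.K.ar z1 a → S.LIJ w a z1 z2 → O.op u z1 → O.op u z2 := by
    intro a z1 z2 e k o1
    by_contra o2
    by_cases wa : w ∈ S.J a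
    · have := hbq a z2 z1 ((lij_ar k).1 e) wa o2 (Relation.EqvGen.symm _ _ k)
      rw [this] at o1
      exact o2 o1
    · have key : ∀ z1 z2, S.LIJ w a z1 z2 → z1 = z2 := by
        intro z1 z2 k
        induction k with
        | rel z1 z2 k => exact absurd k.2.1 wa
        | refl a => rfl
        | symm a b _ ih => exact ih.symm
        | trans a b c _ _ i1 i2 => exact i1.trans i2
      rw [key z1 z2 k] at o1
      exact o2 o1
  -- in-arrows over `w` of the vertices which cross `w u` are bare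
  have hin : ∀ a z, S.Cs w u a → S.K.ar z a → w ∈ S.J z → ¬ O.op u z := by
    intro a z ca az wz oz
    obtain ⟨z', m, k1, k2, k3⟩ := (hTS a z az ca.1 wz ⟨u, hu, ca.2⟩).1 u hu ca.2
    have wz' := (lij_mem k1).1 wz
    have az' := (lij_ar k1).1 az
    have oz' := hlo a z z' az k1 oz
    have nz' : ¬ S.Cs w u z' := fun k => S.not_both hu (Or.inl az') k ca
    have bz' : S.J z' ⊆ bey S.D.G u w :=
      S.side_of hu.symm (fun k => nz' k.swap) wz' (bey_self hu.symm)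
    have hst : ∃ b, S.Qs w u z' a b ∧ S.K.Cor a z' b := by
      rcases S.P.cor_iff.1 k2 with ⟨x, b', h5⟩ | ⟨x, h4⟩
      · have wx : w ∉ S.J x := fun k => hfar h5.rot (sk_rot (sk_isC (Or.inl wz') (Or.inl ca.1)
          (Or.inr k) (Or.inl k) (Or.inr wz'))) k3
        have bx := sk_far hu h5.E3.symm wx k3
        have wb : w ∈ S.J b' := by
          by_contra k
          exact nz' (sk_cr hu h5.E5.symm wz' (sk_far hu h5.E4.symm k bx))
        have cb := sk_cr hu h5.E4.symm wb bx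
        have h6 : Qn S.P a z' b' x m := h5.symm.rot
        exact ⟨b', ⟨hu, ca, cb, bz', Or.inl ⟨x, m, h6, bx, k3⟩⟩,
          S.P.cor_iff.2 (Or.inl ⟨_, _, h6⟩)⟩
      · have wx : w ∈ S.J x := by
          by_contra k
          exact nz' (sk_cr hu h4.E4.symm wz' (sk_far hu h4.E3.symm k k3))
        have cx := sk_cr hu h4.E3.symm wx k3
        have h6 : Q4 S.P a z' x m := h4.symm.rot
        exact ⟨x, ⟨hu, ca, cx, bz', Or.inr ⟨m, h6, k3⟩⟩, S.P.cor_iff.2 (Or.inr ⟨_, h6⟩)⟩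
    obtain ⟨b, hs, kc⟩ := hst
    have hne := uk_cor_ne hnb kc
    have hab := hqs z' a b hs oz'
    rcases hs.E2 with e | e
    · have opz : ∀ u', S.D.G.Adj w u' → O.op u' z' := fun u' hu' => h.nf.n2 u u' z' oz' hu'
      have a1 := lv_ar (hc := hc) wz' hs.r.1 opz e (sk_nsk hu hs.r)
      have a2 := lv_ar (hc := hc) ca.1 wz' (lv_op h.nf ca.1 hu ca.2) az' (h.nsk wz' oz')
      have r1 := (S.kf hc w O).ar_rk _ _ a1
      have r2 := (S.kf hc w O).ar_rk _ _ a2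
      rw [hab] at r2
      exact absurd r2 (not_lt.2 r1.le)
    · exact h.hub u z' a b oz' az' e hne hs hab
  -- neighbours over `w`
  have hnbr : ∀ a x, S.Cs w u a → S.K.E a x → w ∈ S.J x →
      S.K.ar a x ∨ (S.K.ar x a ∧ ¬ O.op u x) := by
    rintro a x ca (e | e) wx
    · exact Or.inl e
    · exact Or.inr ⟨e, hin a x ca e wx⟩
  -- bare hubs
  have hQ : ∀ q a, w ∈ S.J q → ¬ O.op u q → S.K.ar q a → S.Cs w u a → S.Dia w u q := by
    intro q a wq oq qa ca
    obtain ⟨u1, d1⟩ := h.dia wq hu oq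
    obtain ⟨b1, b2⟩ := h.bare u q wq hu oq
    obtain ⟨z', m, k1, k2, k3⟩ := (hTS a q qa ca.1 wq ⟨u, hu, ca.2⟩).1 u hu ca.2
    have e := hbq a q z' qa ca.1 oq k1
    subst e
    rcases S.P.cor_iff.1 k2 with ⟨x, b', h5⟩ | ⟨x, h4⟩
    · exact (b2 _ _ _ _ h5.rot.rot.rot.rot).elim
    · have qx : S.K.ar z' x := h4.E4.resolve_left (b1 x)
      have cx := sk_cr hu h4.E3.symm (d1.two qx).2.1 k3
      have nq : ¬ S.Cs w u z' := fun k => S.not_both hu (Or.inl qa) k ca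
      have bq : S.J z' ⊆ bey S.D.G u w :=
        S.side_of hu.symm (fun k => nq k.swap) wq (bey_self hu.symm)
      exact ⟨wq, a, x, (uk_q4_ne nd h4).2, qa, qx, Relation.EqvGen.rel _ _
        ⟨hu, ca, cx, bq, Or.inr ⟨m, h4.symm.rot, k3⟩⟩⟩
  have hQ2 : ∀ q a, w ∈ S.J q → ¬ O.op u q → S.K.ar q a → S.Cs w u a → ∀ x, S.K.E q x →
      S.Cs w u x := by
    intro q a wq oq qa ca x e
    exact ((hQ q a wq oq qa ca).two (e.resolve_right ((h.bare u q wq hu oq).1 x))).2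
  -- the neighbours of a vertex with a pole over `w`
  have hfr : ∀ a y, S.Cs w u a → S.K.ar a y → w ∈ S.J y → ∀ z, S.K.E a z → z ≠ y →
      S.J z ⊆ bey S.D.G w u ∨ (w ∈ S.J z ∧ ¬ O.op u z ∧ S.K.ar z a) := by
    intro a y ca ay wy z e hne
    by_cases wz : w ∈ S.J z
    · right
      rcases hnbr a z ca e wz with k | ⟨k, ko⟩
      · exact absurd (ar_ar_eq ca.1 k wz ay wy hu ca.2) hne
      · exact ⟨wz, ko, k⟩
    · left
      obtain ⟨u1, h1, c1, b1⟩ := sk_nb e ca.1 wz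
      have : u1 = u := ar_cs_eq ca.1 ay wy h1 hu c1 ca.2
      rwa [this] at b1
  have hSL : ∀ a y x, S.Cs w u a → S.K.ar a y → w ∈ S.J y → S.K.Cor a y x → S.Cs w u x := by
    intro a y x ca ay wy k
    have ny : ¬ S.Cs w u y := fun k => S.not_both hu (Or.inl ay) ca k
    have fin : ∀ z, S.K.E x z → S.J z ⊆ bey S.D.G w u → S.Cs w u x := by
      intro z e bz
      by_cases wx : w ∈ S.J x
      · exact sk_cr hu e wx bz
      · exact absurd (sk_cr hu k.E2 wy (sk_far hu e wx bz)) ny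
    rcases S.P.cor_iff.1 k with ⟨x1, x2, h5⟩ | ⟨x2, h4⟩
    · rcases hfr a y ca ay wy x2 h5.E5.symm
        (uk_cor_ne hnb (S.P.cor_iff.2 (Or.inl ⟨_, _, h5.rot.rot.rot.rot⟩))) with b2 | ⟨w2, o2, -⟩
      · have w1 : w ∉ S.J x1 := fun k => hfar h5.rot.rot.rot (sk_rot (sk_rot (sk_rot
          (sk_isC (Or.inl ca.1) (Or.inl wy) (Or.inr k) (Or.inl k) (Or.inr ca.1))))) b2
        exact fin x1 h5.E3 (sk_far hu h5.E4 w1 b2)
      · exact ((h.bare u x2 w2 hu o2).2 _ _ _ _ h5.rot.rot.rot).elim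
    · rcases hfr a y ca ay wy x2 h4.E4.symm (uk_q4_ne nd h4).2.symm with b2 | ⟨w2, o2, k2⟩
      · exact fin x2 h4.E3 b2
      · exact hQ2 x2 a w2 o2 k2 ca x h4.E3.symm
  -- the poles over `w` cross nothing
  have hA1 : ∀ a y, S.Cs w u a → S.K.ar a y → w ∈ S.J y → ∀ u1, S.D.G.Adj w u1 → u1 ∉ S.J y := by
    intro a y ca ay wy u1 hu1 cy
    obtain ⟨n', m, k1, k2, k3⟩ := (hTS y a ay wy ca.1 ⟨u1, hu1, cy⟩).1 u1 hu1 cy
    have key : ∀ z1 z2, S.LIJ w y z1 z2 → (S.Cs w u z1 ↔ S.Cs w u z2) := by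
      intro z1 z2 k
      induction k with
      | rel z1 z2 k =>
        obtain ⟨⟨k1, k2, k3⟩, wy, w1, w2⟩ := k
        exact ⟨fun c => hSL z1 y z2 c k2 wy k1, fun c => hSL z2 y z1 c k3 wy k1.symm⟩
      | refl a => exact Iff.rfl
      | symm a b _ ih => exact ih.symm
      | trans a b c _ _ i1 i2 => exact i1.trans i2
    have cm := hSL n' y m ((key a n' k1).1 ca) ((lij_ar k1).1 ay) wy k2
    exact S.not_mem_of_bey hu1 k3 cm.1
  -- their neighbours cross `w u`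
  have hA2 : ∀ a y, S.Cs w u a → S.K.ar a y → w ∈ S.J y → ∀ x, S.K.E y x →
      S.Cs w u x ∧ S.K.ar x y := by
    intro a y ca ay wy x e
    have step : ∀ z1 z2, S.K.Cor z1 y z2 → (S.Cs w u z1 ∧ S.K.ar z1 y) →
        (S.Cs w u z2 ∧ S.K.ar z2 y) := by
      rintro z1 z2 k ⟨c1, a1⟩
      have c2 := hSL z1 y z2 c1 a1 wy k
      refine ⟨c2, ?_⟩
      rcases hnbr z2 y c2 k.E2.symm wy with k' | ⟨-, k'⟩
      · exact k'
      · exact absurd a1 ((h.bare u y wy hu k').1 z1)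
    have key : ∀ z1 z2, S.K.LJ y z1 z2 →
        ((S.Cs w u z1 ∧ S.K.ar z1 y) ↔ (S.Cs w u z2 ∧ S.K.ar z2 y)) := by
      intro z1 z2 k
      induction k with
      | rel z1 z2 k => exact ⟨step z1 z2 k, step z2 z1 k.symm⟩
      | refl a => exact Iff.rfl
      | symm a b _ ih => exact ih.symm
      | trans a b c _ _ i1 i2 => exact i1.trans i2
    exact (key a x (hlc y a x (Or.inr ay) e)).1 ⟨ca, ay⟩
  -- the closed set
  let M : V → Prop := fun z => S.Cs w u z ∨ (w ∈ S.J z ∧ ∃ a, S.Cs w u a ∧ S.K.ar a z) ∨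
    (w ∈ S.J z ∧ ¬ O.op u z ∧ ∃ a, S.Cs w u a ∧ S.K.ar z a)
  have hcl : ∀ a b, S.SR w a b → M a → M b := by
    rintro a b (⟨e, wa, wb⟩ | ⟨u', k⟩) (ca | ⟨-, n, cn, na⟩ | ⟨-, oa, n, cn, an⟩)
    · rcases hnbr a b ca e wb with k | ⟨k, ko⟩
      · exact Or.inr (Or.inl ⟨wb, a, ca, k⟩)
      · exact Or.inr (Or.inr ⟨wb, ko, a, ca, k⟩)
    · exact Or.inl (hA2 n a cn na wa b e).1
    · exact Or.inl (hQ2 a n wa oa an cn b e)
    · by_cases e : u' = u
      · subst e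
        exact Or.inl k.r
      left
      have hu' := k.1
      have ca' := k.l
      have cb := k.r
      have np : ∀ y, S.K.ar a y → w ∉ S.J y := fun y ay wy =>
        e (ar_cs_eq ca.1 ay wy hu' hu ca'.2 ca.2)
      have sm : ∀ z, S.K.E a z → S.J z ⊆ bey S.D.G u' w →
          (w ∈ S.J z ∧ ¬ O.op u z ∧ S.K.ar z a) ∨ S.J z ⊆ bey S.D.G w u := by
        intro z ez bz
        by_cases wz : w ∈ S.J z
        · left
          rcases hnbr a z ca ez wz with k1 | ⟨k1, k2⟩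
          · exact absurd wz (np z k1)
          · exact ⟨wz, k2, k1⟩
        · right
          obtain ⟨u1, h1, c1, b1⟩ := sk_nb ez ca.1 wz
          rcases sk_cs3 ca.1 hu hu' h1 ca.2 ca'.2 c1 with e1 | e1 | e1
          · exact absurd e1.symm e
          · rw [← e1] at b1
            exact (sk_sides b1 bz).elim
          · rw [e1]
            exact b1
      obtain ⟨-, -, -, q, ⟨s0, ⟨y1, z1, h5, s1, s2⟩ | ⟨z1, h4, s1⟩⟩ | k'⟩ := k
      · rcases sm z1 h5.E5.symm s2 with ⟨wz, oz, za⟩ | bz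
        · exact absurd h5.rot.rot.rot ((h.bare u z1 wz hu oz).2 _ _ _ _)
        · by_cases wy : w ∈ S.J y1
          · have cy := sk_cr hu h5.E4 wy bz
            rcases hnbr y1 b cy h5.E3.symm cb.1 with k1 | ⟨k1, k2⟩
            · exact absurd cb.2 (hA1 y1 b cy k1 cb.1 u' hu')
            · exact ((hQ b y1 cb.1 k2 k1 cy).not_cs hu' cb.2).elim
          · exact sk_cr hu h5.E3 cb.1 (sk_far hu h5.E4 wy bz)
      · rcases sm z1 h4.E4.symm s1 with ⟨wz, oz, za⟩ | bz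
        · exact hQ2 z1 a wz oz za ca b h4.E3.symm
        · exact sk_cr hu h4.E3 cb.1 bz
      · rcases sm q k'.E1 k'.1 with ⟨wq, oq, qa⟩ | bq
        · exact hQ2 q a wq oq qa ca b k'.E2
        · exact sk_cr hu k'.E2.symm cb.1 bq
    · exact absurd k.l.2 (hA1 n a cn na k.l.1 u' k.1)
    · exact ((hQ a n k.l.1 oa an cn).not_cs k.1 k.l.2).elim
  have hiff : ∀ a b, Relation.EqvGen (S.SR w) a b → (M a ↔ M b) := by
    intro a b k
    induction k with
    | rel a b k => exact ⟨hcl a b k, hcl b a (SR.symm' S k)⟩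
    | refl a => exact Iff.rfl
    | symm a b _ ih => exact ih.symm
    | trans a b c _ _ i1 i2 => exact i1.trans i2
  obtain ⟨a0, ca0⟩ := hc.crossed w u hu
  have all : ∀ z, w ∈ S.J z → M z := fun z hz =>
    (hiff a0 z (hc.slice w a0 z ca0.1 hz)).1 (Or.inl ca0)
  have hPC : ∀ {n y x x1 x2 : V}, Qn S.P n y x x1 x2 → S.IsC ![n, y, x, x1, x2] w →
      S.Cs w u n → S.K.ar n y → w ∈ S.J y → False := by
    intro n y x x1 x2 h5 hI cn ny wy
    rcases hfr n y cn ny wy x2 h5.E5.symm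
      (uk_cor_ne hnb (S.P.cor_iff.2 (Or.inl ⟨_, _, h5.rot.rot.rot.rot⟩))) with b2 | ⟨w2, o2, -⟩
    · exact hfar h5.rot.rot.rot (sk_rot (sk_rot (sk_rot hI))) b2
    · exact (h.bare u x2 w2 hu o2).2 _ _ _ _ h5.rot.rot.rot
  obtain ⟨a, q, b', y', z', h5, hI⟩ := hpen
  obtain ⟨a, q, b', y', z', h5, hI, wa, wq⟩ := sk_two h5 hI
  rcases all a wa with ca | ⟨-, n, cn, na⟩ | ⟨-, oa, n, cn, an⟩
  · rcases all q wq with cq | ⟨-, n, cn, nq⟩ | ⟨-, oq, n, cn, qn⟩
    · exact S.not_both hu h5.E1 ca cq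
    · have k := hA2 n q cn nq wq a h5.E1.symm
      exact hPC h5 hI k.1 k.2 wq
    · exact (h.bare u q wq hu oq).2 _ _ _ _ h5
  · have k := hA2 n a cn na wa q h5.E1
    obtain ⟨i0, i1, i2, i3, i4⟩ := sk_isC' hI
    exact hPC h5.symm.rot (sk_isC i0.symm i4.symm i3.symm i2.symm i1.symm) k.1 k.2 wa
  · exact (h.bare u a wa hu oa).2 _ _ _ _ h5.rot.rot.rot.rot

/-- ALL SINKS OF THE FOLDED SLICE ARE IN CELLS -/
theorem sk_all (hnb : S.NB) (hTS : S.TSp w) (h : S.SkH w O) (hlc : ∀ v, S.K.LC v)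
    (hvc : ∀ y, S.K.Snk y → S.K.VC y)
    (hpen : ∃ a q b y z, Qn S.P a q b y z ∧ S.IsC ![a, q, b, y, z] w) {c : S.Q w O}
    (hs : (S.kf hc w O).Snk c) : (S.kf hc w O).VC c := by
  rcases snk_kf hc hs with ⟨u, rfl⟩ | ⟨x, hx, rfl⟩
  · exact sk_t hm hn hnb hTS h hlc hpen u.2
  · have := sk_snk hm hn hnb hTS h.loc hpen hx.2 hx.1 (hlc x) (hvc x hx.1)
    rwa [S.rho_near hx.mem] at this

end

end SyQ

end Pool.Agent.DI
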