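import Pool.Agent.DI.GXTr
import Pool.Agent.BT.KVtx

/-!
# DI/Split: splitting vertices

`Spl K S`: an `H`-set `S` with an equivariant map `q : S → V`; no arrow between two vertices of the
image `Z`. Every in-arrow `n → q s` is given a label `e n (q s)` over `q s`. New complex `P.gx` on
`(V ⊕ S) ⊕ S`: the vertex `s` has the poles of `q s`; `n → z` (`z` in `Z`) becomes `n → e n z`; new
softs `d s` with poles `s` and `q s`; new cells: the squares `s, d s, q s, w`, `w` a pole of `q s`. The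
old cells are replaced by lifts (`lb i, lw i`) of the same length.
-/

namespace Pool.Agent.DI

open MulAction
open Pool.Agent.SAF (InC orbs FinOrb oc)
open Pool.Agent.BT (FinOrb.image_equi)

section

variable {H V S : Type} [Group H] [MulAction H V]

/-- the projection of the lifted walks -/
def spr (q : S → V) : V ⊕ S → V
  | Sum.inl v => v
  | Sum.inr s => q s

/-- the arrows on `V ⊕ S` -/
def spAr (K : GX H V) (q : S → V) (e : V → V → S) : V ⊕ S → V ⊕ S → Prop
  | Sum.inl n, Sum.inl y => K.ar n y ∧ ¬ ∃ s, q s = y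
  | Sum.inl n, Sum.inr s => K.ar n (q s) ∧ e n (q s) = s
  | Sum.inr s, Sum.inl y => K.ar (q s) y
  | Sum.inr _, Sum.inr _ => False

/-- the edges on `V ⊕ S` -/
def spE (K : GX H V) (q : S → V) (e : V → V → S) (a b : V ⊕ S) : Prop :=
  spAr K q e a b ∨ spAr K q e b a

end

/-- splitting data -/
structure Spl {H V : Type} [Group H] [MulAction H V] (K : GX H V) (S : Type) [MulAction H S] where
  q : S → V
  e : V → V → S
  q_smul : ∀ (h : H) (s : S), q (h • s) = h • q s
  e_smul : ∀ (h : H) (n : V) (s : S), K.ar n (q s) → e (h • n) (h • q s) = h • e n (q s)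
  q_e : ∀ (n : V) (s : S), K.ar n (q s) → q (e n (q s)) = q s
  far : ∀ s t : S, ¬ K.ar (q s) (q t)
  fin : FinOrb H (Set.univ : Set S)
  stab : ∀ s : S, InC ↥(stabilizer H s)
  J : Type
  finJ : Finite J
  js : J → S
  jp : J → V
  jar : ∀ j, K.ar (q (js j)) (jp j)
  cov : ∀ s w, K.ar (q s) w → ∃ (j : J) (h : H), h • js j = s ∧ h • jp j = w
  lb : K.I → V ⊕ S
  lw : K.I → List (V ⊕ S)
  lE : ∀ i, Wk (spE K q e) (lb i) (lw i)
  ltg : ∀ i, tg (lb i) (lw i) = lb i
  pb : ∀ i, spr q (lb i) = K.cb i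
  pw : ∀ i, (lw i).map (spr q) = K.cw i

namespace Spl

variable {H V S : Type} [Group H] [MulAction H V] [MulAction H S] {K : GX H V} (P : Spl K S)

/-- the image of `q` -/
def Z (y : V) : Prop := ∃ s, P.q s = y

/-- the arrows of the new complex -/
def ar : (V ⊕ S) ⊕ S → (V ⊕ S) ⊕ S → Prop
  | Sum.inl a, Sum.inl b => spAr K P.q P.e a b
  | Sum.inr s, Sum.inl b => b = Sum.inl (P.q s) ∨ b = Sum.inr s
  | _, Sum.inr _ => False

/-- the ranks of the new complex -/
def rk : (V ⊕ S) ⊕ S → ℕ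
  | Sum.inl (Sum.inl v) => K.rk v
  | Sum.inl (Sum.inr s) => K.rk (P.q s)
  | Sum.inr s => K.rk (P.q s) + 1

/-- base vertices of the cells -/
def cb : K.I ⊕ P.J → (V ⊕ S) ⊕ S
  | Sum.inl i => Sum.inl (P.lb i)
  | Sum.inr j => Sum.inl (Sum.inr (P.js j))

/-- further vertices of the cells -/
def cw : K.I ⊕ P.J → List ((V ⊕ S) ⊕ S)
  | Sum.inl i => (P.lw i).map Sum.inl
  | Sum.inr j => [Sum.inr (P.js j), Sum.inl (Sum.inl (P.q (P.js j))), Sum.inl (Sum.inl (P.jp j)),
      Sum.inl (Sum.inr (P.js j))]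

/-- the edges of the new complex -/
def E' (x y : (V ⊕ S) ⊕ S) : Prop := P.ar x y ∨ P.ar y x

theorem not_ar {x : (V ⊕ S) ⊕ S} {s : S} : ¬ P.ar x (Sum.inr s) := by
  rcases x with x | x <;> exact id

theorem Z_smul (h : H) {y : V} (hy : P.Z y) : P.Z (h • y) := by
  obtain ⟨s, rfl⟩ := hy
  exact ⟨h • s, P.q_smul h s⟩

theorem Z_iff (h : H) (y : V) : P.Z (h • y) ↔ P.Z y := by
  refine ⟨fun k => ?_, P.Z_smul h⟩
  have := P.Z_smul h⁻¹ k
  rwa [inv_smul_smul] at this

theorem not_ZZ {x y : V} (hx : P.Z x) (hy : P.Z y) : ¬ K.ar x y := by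
  obtain ⟨s, rfl⟩ := hx
  obtain ⟨t, rfl⟩ := hy
  exact P.far s t

theorem q_e' {n z : V} (h : K.ar n z) (hz : P.Z z) : P.q (P.e n z) = z := by
  obtain ⟨s, rfl⟩ := hz
  exact P.q_e n s h

theorem e_smul' (h : H) {n z : V} (hn : K.ar n z) (hz : P.Z z) :
    P.e (h • n) (h • z) = h • P.e n z := by
  obtain ⟨s, rfl⟩ := hz
  exact P.e_smul h n s hn

/-- a moved arrow -/
def mv (x y : V) : Prop := K.ar x y ∧ P.Z y

theorem mv_smul (h : H) {x y : V} (k : P.mv x y) : P.mv (h • x) (h • y) :=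
  ⟨K.ar_smul h _ _ k.1, P.Z_smul h k.2⟩

theorem mv_iff (h : H) (x y : V) : P.mv (h • x) (h • y) ↔ P.mv x y := by
  refine ⟨fun k => ?_, P.mv_smul h⟩
  have := P.mv_smul h⁻¹ k
  rwa [inv_smul_smul, inv_smul_smul] at this

theorem not_mv_rev {x y : V} (k : P.mv x y) : ¬ P.mv y x := fun k' =>
  absurd (K.ar_rk _ _ k.1) (not_lt.2 (K.ar_rk _ _ k'.1).le)

open Classical in
/-- the word of an edge -/
noncomputable def w (x y : V) : List ((V ⊕ S) ⊕ S) :=
  if P.mv x y then [Sum.inl (Sum.inr (P.e x y)), Sum.inr (P.e x y), Sum.inl (Sum.inl y)]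
  else if P.mv y x then [Sum.inr (P.e y x), Sum.inl (Sum.inr (P.e y x)), Sum.inl (Sum.inl y)]
  else [Sum.inl (Sum.inl y)]

theorem w_mv {x y : V} (h : P.mv x y) :
    P.w x y = [Sum.inl (Sum.inr (P.e x y)), Sum.inr (P.e x y), Sum.inl (Sum.inl y)] := if_pos h

theorem w_vm {x y : V} (h : P.mv y x) :
    P.w x y = [Sum.inr (P.e y x), Sum.inl (Sum.inr (P.e y x)), Sum.inl (Sum.inl y)] := by
  unfold w
  rw [if_neg (P.not_mv_rev h), if_pos h]

theorem w_not {x y : V} (h : ¬ P.mv x y) (h' : ¬ P.mv y x) : P.w x y = [Sum.inl (Sum.inl y)] := by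
  unfold w
  rw [if_neg h, if_neg h']

theorem w_tg (x y : V) : tg (Sum.inl (Sum.inl x) : (V ⊕ S) ⊕ S) (P.w x y) = Sum.inl (Sum.inl y) := by
  unfold w
  split_ifs <;> rfl

/-- the correction at a vertex of `V ⊕ S` -/
def corr (P : Spl K S) (φ : (V ⊕ S) ⊕ S → (V ⊕ S) ⊕ S → ZMod 2) : V ⊕ S → ZMod 2
  | Sum.inl _ => 0
  | Sum.inr s => φ (Sum.inl (Sum.inr s)) (Sum.inr s) + φ (Sum.inr s) (Sum.inl (Sum.inl (P.q s)))

/-- the squares -/
theorem square {φ : (V ⊕ S) ⊕ S → (V ⊕ S) ⊕ S → ZMod 2} (c : Coc H P.cb P.cw φ) {s : S} {y : V}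
    (hy : K.ar (P.q s) y) : φ (Sum.inl (Sum.inr s)) (Sum.inl (Sum.inl y)) + P.corr φ (Sum.inr s) =
      φ (Sum.inl (Sum.inl (P.q s))) (Sum.inl (Sum.inl y)) := by
  obtain ⟨j, h, rfl, rfl⟩ := P.cov s y hy
  have k := c.2 (Sum.inr j) h
  have k' : φ (Sum.inl (Sum.inr (h • P.js j))) (Sum.inr (h • P.js j)) +
      (φ (Sum.inr (h • P.js j)) (Sum.inl (Sum.inl (h • P.q (P.js j)))) +
      (φ (Sum.inl (Sum.inl (h • P.q (P.js j)))) (Sum.inl (Sum.inl (h • P.jp j))) +
      (φ (Sum.inl (Sum.inl (h • P.jp j))) (Sum.inl (Sum.inr (h • P.js j))) + 0))) = 0 := k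
  rw [← P.q_smul, c.1 (Sum.inl (Sum.inl (h • P.jp j))) (Sum.inl (Sum.inr (h • P.js j)))] at k'
  unfold corr
  have z := CharTwo.add_self_eq_zero
    (φ (Sum.inl (Sum.inl (P.q (h • P.js j)))) (Sum.inl (Sum.inl (h • P.jp j))))
  linear_combination k' - z

/-- the words are compatible with reversal -/
theorem rev {φ : (V ⊕ S) ⊕ S → (V ⊕ S) ⊕ S → ZMod 2} (c : Coc H P.cb P.cw φ) (x y : V) :
    ps φ (Sum.inl (Sum.inl x)) (P.w x y) = ps φ (Sum.inl (Sum.inl y)) (P.w y x) := by
  by_cases h1 : P.mv x y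
  · rw [P.w_mv h1, P.w_vm h1]
    simp only [ps_cons, ps_nil]
    rw [c.1 (Sum.inl (Sum.inl x)) (Sum.inl (Sum.inr (P.e x y))),
      c.1 (Sum.inl (Sum.inr (P.e x y))) (Sum.inr (P.e x y)),
      c.1 (Sum.inr (P.e x y)) (Sum.inl (Sum.inl y))]
    ring
  · by_cases h2 : P.mv y x
    · rw [P.w_vm h2, P.w_mv h2]
      simp only [ps_cons, ps_nil]
      rw [c.1 (Sum.inl (Sum.inl x)), c.1 (Sum.inl (Sum.inl y)),
        c.1 (Sum.inl (Sum.inr (P.e y x))) (Sum.inr (P.e y x))]
      ring
    · rw [P.w_not h1 h2, P.w_not h2 h1]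
      simp only [ps_cons, ps_nil]
      rw [c.1]

/-- the sum along the word of an edge with a lift -/
theorem ps_w {φ : (V ⊕ S) ⊕ S → (V ⊕ S) ⊕ S → ZMod 2} (c : Coc H P.cb P.cw φ) {a b : V ⊕ S}
    (h : spE K P.q P.e a b) :
    ps φ (Sum.inl (Sum.inl (spr P.q a))) (P.w (spr P.q a) (spr P.q b)) =
      φ (Sum.inl a) (Sum.inl b) + P.corr φ a + P.corr φ b := by
  have key : ∀ a b : V ⊕ S, spAr K P.q P.e a b →
      ps φ (Sum.inl (Sum.inl (spr P.q a))) (P.w (spr P.q a) (spr P.q b)) =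
      φ (Sum.inl a) (Sum.inl b) + P.corr φ a + P.corr φ b := by
    rintro (x | s) (y | t) h
    · obtain ⟨h1, h2⟩ : K.ar x y ∧ ¬ P.Z y := h
      have n1 : ¬ P.mv x y := fun k => h2 k.2
      have n2 : ¬ P.mv y x := fun k =>
        absurd (K.ar_rk _ _ k.1) (not_lt.2 (K.ar_rk _ _ h1).le)
      show ps φ (Sum.inl (Sum.inl x)) (P.w x y) = _ + 0 + 0
      rw [P.w_not n1 n2]
      simp
    · obtain ⟨h1, h2⟩ : K.ar x (P.q t) ∧ P.e x (P.q t) = t := h
      have n1 : P.mv x (P.q t) := ⟨h1, t, rfl⟩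
      show ps φ (Sum.inl (Sum.inl x)) (P.w x (P.q t)) = _ + 0 + _
      rw [P.w_mv n1, h2]
      simp only [ps_cons, ps_nil, corr]
      ring
    · have h1 : K.ar (P.q s) y := h
      have n1 : ¬ P.mv (P.q s) y := fun k => P.not_ZZ ⟨s, rfl⟩ k.2 h1
      have n2 : ¬ P.mv y (P.q s) := fun k =>
        absurd (K.ar_rk _ _ k.1) (not_lt.2 (K.ar_rk _ _ h1).le)
      show ps φ (Sum.inl (Sum.inl (P.q s))) (P.w (P.q s) y) = _ + _ + 0
      rw [P.w_not n1 n2, P.square c h1]
      simp
    · exact h.elim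
  rcases h with h | h
  · exact key a b h
  · rw [P.rev c, key b a h, c.1 (Sum.inl b) (Sum.inl a)]
    ring

/-- the sum along the words of a walk with a lift -/
theorem ps_lift {φ : (V ⊕ S) ⊕ S → (V ⊕ S) ⊕ S → ZMod 2} (c : Coc H P.cb P.cw φ) (a : V ⊕ S)
    (l : List (V ⊕ S)) (h : Wk (spE K P.q P.e) a l) :
    ps φ (Sum.inl (Sum.inl (spr P.q a))) (sub P.w (spr P.q a) (l.map (spr P.q))) =
      ps φ (Sum.inl a) (l.map Sum.inl) + P.corr φ a + P.corr φ (tg a l) := by
  induction l generalizing a with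
  | nil =>
    show (0 : ZMod 2) = 0 + P.corr φ a + P.corr φ a
    have := CharTwo.add_self_eq_zero (P.corr φ a)
    linear_combination -this
  | cons b l ih =>
    rw [List.map_cons, sub_cons, ps_append, P.w_tg, ih b h.2, P.ps_w c h.1, List.map_cons, ps_cons,
      tg_cons]
    have := CharTwo.add_self_eq_zero (P.corr φ b)
    linear_combination this

theorem H1' (φ : (V ⊕ S) ⊕ S → (V ⊕ S) ⊕ S → ZMod 2) (hs : ∀ x y, φ x y = φ y x)
    (hc : ∀ (i : K.I ⊕ P.J) (h : H), ps φ (h • P.cb i) ((P.cw i).map (fun z => h • z)) = 0) :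
    ∃ g : (V ⊕ S) ⊕ S → ZMod 2, ∀ x y, (P.ar x y ∨ P.ar y x) → φ x y = g x + g y := by
  refine K.transport (E' := fun x y => P.ar x y ∨ P.ar y x) (cb' := P.cb) (cw' := P.cw)
    (fun x => Sum.inl (Sum.inl x)) P.w (fun _ _ => rfl) (fun x y _ => P.w_tg x y)
    (fun h x y _ => ?_) (fun φ c x y _ => P.rev c x y) (fun φ c i => ?_) (fun φ c g hg => ?_) φ hs hc
  · by_cases h1 : P.mv x y
    · rw [P.w_mv h1, P.w_mv (P.mv_smul h h1), P.e_smul' h h1.1 h1.2]
      rfl
    · by_cases h2 : P.mv y x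
      · rw [P.w_vm h2, P.w_vm (P.mv_smul h h2), P.e_smul' h h2.1 h2.2]
        rfl
      · rw [P.w_not h1 h2, P.w_not (fun k => h1 ((P.mv_iff h _ _).1 k))
          (fun k => h2 ((P.mv_iff h _ _).1 k))]
        rfl
  · have k := P.ps_lift c (P.lb i) (P.lw i) (P.lE i)
    rw [P.pb, P.pw, P.ltg] at k
    rw [k]
    have k2 := c.2 (Sum.inl i) 1
    simp only [one_smul, List.map_id'] at k2
    have k3 : ps φ (Sum.inl (P.lb i)) ((P.lw i).map Sum.inl) = 0 := k2
    have := CharTwo.add_self_eq_zero (P.corr φ (P.lb i))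
    linear_combination k3 + this
  · refine ⟨fun x => match x with
      | Sum.inl (Sum.inl v) => g v
      | Sum.inl (Sum.inr s) => g (P.q s) + P.corr φ (Sum.inr s)
      | Sum.inr s => g (P.q s) + φ (Sum.inr s) (Sum.inl (Sum.inl (P.q s))), ?_⟩
    have key : ∀ x y, P.ar x y → φ x y = (match x with
      | Sum.inl (Sum.inl v) => g v
      | Sum.inl (Sum.inr s) => g (P.q s) + P.corr φ (Sum.inr s)
      | Sum.inr s => g (P.q s) + φ (Sum.inr s) (Sum.inl (Sum.inl (P.q s)))) + (match y with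
      | Sum.inl (Sum.inl v) => g v
      | Sum.inl (Sum.inr s) => g (P.q s) + P.corr φ (Sum.inr s)
      | Sum.inr s => g (P.q s) + φ (Sum.inr s) (Sum.inl (Sum.inl (P.q s)))) := by
      have lifted : ∀ a b : V ⊕ S, spAr K P.q P.e a b → K.E (spr P.q a) (spr P.q b) →
          φ (Sum.inl a) (Sum.inl b) =
            (g (spr P.q a) + P.corr φ a) + (g (spr P.q b) + P.corr φ b) := by
        intro a b h e
        have k := hg _ _ e
        rw [P.ps_w c (Or.inl h)] at k
        have z1 := CharTwo.add_self_eq_zero (P.corr φ a)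
        have z2 := CharTwo.add_self_eq_zero (P.corr φ b)
        linear_combination k - z1 - z2
      rintro (a | s) (b | t) h
      · have h' : spAr K P.q P.e a b := h
        have e : K.E (spr P.q a) (spr P.q b) := by
          rcases a with x | s <;> rcases b with y | t
          · exact Or.inl h'.1
          · exact Or.inl h'.1
          · exact Or.inl h'
          · exact h'.elim
        have k := lifted a b h' e
        rcases a with x | s <;> rcases b with y | t
        · have k : φ (Sum.inl (Sum.inl x)) (Sum.inl (Sum.inl y)) = (g x + 0) + (g y + 0) := k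
          rw [k, add_zero, add_zero]
        · have k : φ (Sum.inl (Sum.inl x)) (Sum.inl (Sum.inr t)) =
            (g x + 0) + (g (P.q t) + P.corr φ (Sum.inr t)) := k
          rw [k, add_zero]
        · have k : φ (Sum.inl (Sum.inr s)) (Sum.inl (Sum.inl y)) =
            (g (P.q s) + P.corr φ (Sum.inr s)) + (g y + 0) := k
          rw [k, add_zero]
        · exact h'.elim
      · exact (P.not_ar h).elim
      · rcases h with rfl | rfl
        · show _ = (g (P.q s) + φ (Sum.inr s) (Sum.inl (Sum.inl (P.q s)))) + g (P.q s)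
          have := CharTwo.add_self_eq_zero (g (P.q s))
          linear_combination -this
        · show _ = (g (P.q s) + φ (Sum.inr s) (Sum.inl (Sum.inl (P.q s)))) +
            (g (P.q s) + (φ (Sum.inl (Sum.inr s)) (Sum.inr s) +
              φ (Sum.inr s) (Sum.inl (Sum.inl (P.q s)))))
          rw [c.1 (Sum.inl (Sum.inr s)) (Sum.inr s)]
          have z1 := CharTwo.add_self_eq_zero (g (P.q s))
          have z2 := CharTwo.add_self_eq_zero (φ (Sum.inr s) (Sum.inl (Sum.inl (P.q s))))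
          linear_combination -z1 - z2
      · exact (P.not_ar h).elim
    rintro x y (e | e)
    · exact key x y e
    · rw [c.1, key y x e, add_comm]

theorem pole_ne {x y : V} (h : K.ar x y) (hx : P.Z x) : ¬ P.Z y := fun hy => P.not_ZZ hx hy h

theorem conn' (x y : (V ⊕ S) ⊕ S) : Relation.ReflTransGen P.E' x y := by
  have hs : ∀ a b : (V ⊕ S) ⊕ S, P.E' a b → P.E' b a := fun a b => Or.symm
  have hd : ∀ s : S, P.E' (Sum.inr s) (Sum.inl (Sum.inl (P.q s))) := fun s => Or.inl (Or.inl rfl)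
  have hd' : ∀ s : S, P.E' (Sum.inr s) (Sum.inl (Sum.inr s)) := fun s => Or.inl (Or.inr rfl)
  have h0 : ∀ x y : V, K.ar x y → Relation.ReflTransGen P.E' (Sum.inl (Sum.inl x))
      (Sum.inl (Sum.inl y)) := by
    intro x y e
    by_cases hy : P.Z y
    · have h1 : P.E' (Sum.inl (Sum.inl x)) (Sum.inl (Sum.inr (P.e x y))) := by
        refine Or.inl ?_
        show K.ar x (P.q (P.e x y)) ∧ P.e x (P.q (P.e x y)) = P.e x y
        rw [P.q_e' e hy]
        exact ⟨e, rfl⟩
      have h2 := hd (P.e x y)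
      rw [P.q_e' e hy] at h2
      exact ((Relation.ReflTransGen.single h1).tail (hs _ _ (hd' _))).tail h2
    · exact Relation.ReflTransGen.single (Or.inl ⟨e, hy⟩)
  have h0' : ∀ x y : V, K.ar x y → Relation.ReflTransGen P.E' (Sum.inl (Sum.inl y))
      (Sum.inl (Sum.inl x)) := by
    intro x y e
    by_cases hy : P.Z y
    · have h1 : P.E' (Sum.inl (Sum.inl x)) (Sum.inl (Sum.inr (P.e x y))) := by
        refine Or.inl ?_
        show K.ar x (P.q (P.e x y)) ∧ P.e x (P.q (P.e x y)) = P.e x y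
        rw [P.q_e' e hy]
        exact ⟨e, rfl⟩
      have h2 := hd (P.e x y)
      rw [P.q_e' e hy] at h2
      exact ((Relation.ReflTransGen.single (hs _ _ h2)).tail (hd' _)).tail (hs _ _ h1)
    · exact Relation.ReflTransGen.single (Or.inr ⟨e, hy⟩)
  have h1 : ∀ x y : V, Relation.ReflTransGen P.E' (Sum.inl (Sum.inl x)) (Sum.inl (Sum.inl y)) := by
    intro x y
    induction K.conn x y with
    | refl => exact Relation.ReflTransGen.refl
    | tail _ e ih =>
      rcases e with e | e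
      · exact ih.trans (h0 _ _ e)
      · exact ih.trans (h0' _ _ e)
  have h2 : ∀ x : (V ⊕ S) ⊕ S, ∃ v : V, Relation.ReflTransGen P.E' x (Sum.inl (Sum.inl v)) ∧
      Relation.ReflTransGen P.E' (Sum.inl (Sum.inl v)) x := by
    rintro ((x | s) | s)
    · exact ⟨x, Relation.ReflTransGen.refl, Relation.ReflTransGen.refl⟩
    · exact ⟨P.q s, (Relation.ReflTransGen.single (hs _ _ (hd' s))).tail (hd s),
        (Relation.ReflTransGen.single (hs _ _ (hd s))).tail (hd' s)⟩
    · exact ⟨P.q s, Relation.ReflTransGen.single (hd s), Relation.ReflTransGen.single (hs _ _ (hd s))⟩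
  obtain ⟨a, ha, -⟩ := h2 x
  obtain ⟨b, -, hb⟩ := h2 y
  exact (ha.trans (h1 a b)).trans hb

include P in
theorem fin' : FinOrb H (Set.univ : Set ((V ⊕ S) ⊕ S)) := by
  have un : ∀ (A B : Set ((V ⊕ S) ⊕ S)), FinOrb H A → FinOrb H B → FinOrb H (A ∪ B) := by
    intro A B hA hB
    have e : orbs H (A ∪ B) = orbs H A ∪ orbs H B := Set.image_union _ _ _
    unfold FinOrb
    rw [e]
    exact Set.Finite.union hA hB
  have g1 : FinOrb H ((fun v : V => (Sum.inl (Sum.inl v) : (V ⊕ S) ⊕ S)) '' Set.univ) :=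
    FinOrb.image_equi (F := fun v : V => (Sum.inl (Sum.inl v) : (V ⊕ S) ⊕ S)) (fun _ _ => rfl) K.fin
  have g2 : FinOrb H ((fun s : S => (Sum.inl (Sum.inr s) : (V ⊕ S) ⊕ S)) '' Set.univ) :=
    FinOrb.image_equi (F := fun s : S => (Sum.inl (Sum.inr s) : (V ⊕ S) ⊕ S)) (fun _ _ => rfl) P.fin
  have g3 : FinOrb H ((fun s : S => (Sum.inr s : (V ⊕ S) ⊕ S)) '' Set.univ) :=
    FinOrb.image_equi (F := fun s : S => (Sum.inr s : (V ⊕ S) ⊕ S)) (fun _ _ => rfl) P.fin
  refine (un _ _ g1 (un _ _ g2 g3)).mono ?_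
  rintro ((x | s) | s) -
  · exact Or.inl ⟨x, trivial, rfl⟩
  · exact Or.inr (Or.inl ⟨s, trivial, rfl⟩)
  · exact Or.inr (Or.inr ⟨s, trivial, rfl⟩)

theorem spAr_smul (h : H) {a b : V ⊕ S} (k : spAr K P.q P.e a b) :
    spAr K P.q P.e (h • a) (h • b) := by
  rcases a with x | s <;> rcases b with y | t
  · exact ⟨K.ar_smul h _ _ k.1, fun k' => k.2 ((P.Z_iff h y).1 k')⟩
  · obtain ⟨k1, k2⟩ : K.ar x (P.q t) ∧ P.e x (P.q t) = t := k
    show K.ar (h • x) (P.q (h • t)) ∧ P.e (h • x) (P.q (h • t)) = h • t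
    rw [P.q_smul]
    refine ⟨K.ar_smul h _ _ k1, ?_⟩
    rw [P.e_smul h x t k1, k2]
  · show K.ar (P.q (h • s)) (h • y)
    rw [P.q_smul]
    exact K.ar_smul h _ _ k
  · exact k.elim

theorem spAr_rk {a b : V ⊕ S} (k : spAr K P.q P.e a b) :
    K.rk (spr P.q b) < K.rk (spr P.q a) := by
  rcases a with x | s <;> rcases b with y | t
  · exact K.ar_rk _ _ k.1
  · exact K.ar_rk _ _ k.1
  · exact K.ar_rk _ _ k
  · exact k.elim

theorem rk_inl (a : V ⊕ S) : P.rk (Sum.inl a) = K.rk (spr P.q a) := by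
  rcases a with x | s <;> rfl

/-- the complex with split vertices -/
def gx : GX H ((V ⊕ S) ⊕ S) where
  ar := P.ar
  rk := P.rk
  I := K.I ⊕ P.J
  finI := by
    have := K.finI
    have := P.finJ
    infer_instance
  cb := P.cb
  cw := P.cw
  ar_rk := by
    rintro (a | s) (b | t) h
    · rw [P.rk_inl, P.rk_inl]
      exact P.spAr_rk h
    · exact (P.not_ar h).elim
    · rw [P.rk_inl]
      rcases h with rfl | rfl
      · exact Nat.lt_succ_self _
      · exact Nat.lt_succ_self _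
    · exact (P.not_ar h).elim
  ar_smul := by
    rintro h (a | s) (b | t) k
    · exact P.spAr_smul h k
    · exact (P.not_ar k).elim
    · rcases k with rfl | rfl
      · exact Or.inl (congrArg Sum.inl (P.q_smul h s)).symm
      · exact Or.inr rfl
    · exact (P.not_ar k).elim
  rk_smul := by
    rintro h ((x | s) | s)
    · exact K.rk_smul h x
    · show K.rk (P.q (h • s)) = _
      rw [P.q_smul, K.rk_smul]
      rfl
    · show K.rk (P.q (h • s)) + 1 = _
      rw [P.q_smul, K.rk_smul]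
      rfl
  two := by
    classical
    have key : ∀ (x : V) (b : (V ⊕ S) ⊕ S), P.ar (Sum.inl (Sum.inl x)) b → ∃ y, K.ar x y ∧
        (if P.Z y then Sum.inl (Sum.inr (P.e x y)) else Sum.inl (Sum.inl y)) = b := by
      rintro x ((y | t) | t) h
      · exact ⟨y, h.1, if_neg h.2⟩
      · obtain ⟨h1, h2⟩ : K.ar x (P.q t) ∧ P.e x (P.q t) = t := h
        exact ⟨P.q t, h1, by rw [if_pos ⟨t, rfl⟩, h2]⟩
      · exact (P.not_ar h).elim
    rintro ((x | s) | s) a b c ha hb hc
    · obtain ⟨p, hp, rfl⟩ := key _ _ ha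
      obtain ⟨q, hq, rfl⟩ := key _ _ hb
      obtain ⟨r, hr, rfl⟩ := key _ _ hc
      rcases K.two x p q r hp hq hr with h | h | h
      · exact Or.inl (by rw [h])
      · exact Or.inr (Or.inl (by rw [h]))
      · exact Or.inr (Or.inr (by rw [h]))
    · rcases a with (a | a) | a
      · rcases b with (b | b) | b
        · rcases c with (c | c) | c
          · rcases K.two (P.q s) a b c ha hb hc with h | h | h
            · exact Or.inl (by rw [h])
            · exact Or.inr (Or.inl (by rw [h]))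
            · exact Or.inr (Or.inr (by rw [h]))
          · exact (hc : False).elim
          · exact (P.not_ar hc).elim
        · exact (hb : False).elim
        · exact (P.not_ar hb).elim
      · exact (ha : False).elim
      · exact (P.not_ar ha).elim
    · rcases a with a | a
      · rcases b with b | b
        · rcases c with c | c
          · rcases ha with rfl | rfl <;> rcases hb with rfl | rfl <;> rcases hc with rfl | rfl <;> simp
          · exact (P.not_ar hc).elim
        · exact (P.not_ar hb).elim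
      · exact (P.not_ar ha).elim
  c_E := by
    rintro (i | j)
    · exact Wk_map Sum.inl (fun _ _ e => e) (P.lE i)
    · exact ⟨Or.inr (Or.inr rfl), Or.inl (Or.inl rfl), Or.inl ⟨P.jar j, P.pole_ne (P.jar j) ⟨_, rfl⟩⟩,
        Or.inr (P.jar j), trivial⟩
  c_tg := by
    rintro (i | j)
    · show tg (Sum.inl (P.lb i)) ((P.lw i).map Sum.inl) = _
      rw [tg_map Sum.inl, P.ltg]
      rfl
    · rfl
  ne := by
    obtain ⟨v⟩ := K.ne
    exact ⟨Sum.inl (Sum.inl v)⟩
  conn := P.conn'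
  H1 := P.H1'
  fin := P.fin'
  stab := by
    rintro ((v | s) | s)
    · have : stabilizer H (Sum.inl (Sum.inl v) : (V ⊕ S) ⊕ S) = stabilizer H v := by
        ext h
        rw [mem_stabilizer_iff, mem_stabilizer_iff]
        exact ⟨fun e => Sum.inl_injective (Sum.inl_injective e),
          fun e => congrArg (fun v => (Sum.inl (Sum.inl v) : (V ⊕ S) ⊕ S)) e⟩
      rw [this]
      exact K.stab v
    · have : stabilizer H (Sum.inl (Sum.inr s) : (V ⊕ S) ⊕ S) = stabilizer H s := by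
        ext h
        rw [mem_stabilizer_iff, mem_stabilizer_iff]
        exact ⟨fun e => Sum.inr_injective (Sum.inl_injective e),
          fun e => congrArg (fun s => (Sum.inl (Sum.inr s) : (V ⊕ S) ⊕ S)) e⟩
      rw [this]
      exact P.stab s
    · have : stabilizer H (Sum.inr s : (V ⊕ S) ⊕ S) = stabilizer H s := by
        ext h
        rw [mem_stabilizer_iff, mem_stabilizer_iff]
        exact ⟨fun e => Sum.inr_injective e, fun e => congrArg Sum.inr e⟩
      rw [this]
      exact P.stab s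

theorem len_lw (i : K.I) : (P.lw i).length = (K.cw i).length := by
  rw [← P.pw i, List.length_map]

/-- the area does not change -/
theorem gx_area : P.gx.area = K.area := by
  have := K.finI
  have := P.finJ
  let _ : Fintype K.I := Fintype.ofFinite K.I
  let _ : Fintype P.J := Fintype.ofFinite P.J
  let _ : Fintype P.gx.I := (inferInstance : Fintype (K.I ⊕ P.J))
  rw [P.gx.area_eq, K.area_eq]
  have h1 : ∑ i : K.I ⊕ P.J, ((P.cw i).length - 4)
      = (∑ i : K.I, ((P.cw (Sum.inl i)).length - 4))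
        + ∑ j : P.J, ((P.cw (Sum.inr j)).length - 4) := Fintype.sum_sum_type _
  refine h1.trans ?_
  have h2 : ∑ j : P.J, ((P.cw (Sum.inr j)).length - 4) = 0 := Finset.sum_eq_zero fun j _ => rfl
  rw [h2, add_zero]
  refine Finset.sum_congr rfl fun i _ => ?_
  show ((P.lw i).map Sum.inl).length - 4 = _
  rw [List.length_map, P.len_lw]

end Spl

end Pool.Agent.DI
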