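import Pool.Agent.DI.K1S
import Pool.Agent.DI.K1R
import Pool.Agent.DI.K1N
import Pool.Agent.DI.K1P
import Pool.Agent.DI.PlcAlt

/-!
# DI/StartG: the start of a step

`C.Red`: no top of the state is foldable. `k.Stp js w`: a placed one-edge system over the step complex
`k : C.K1` at a bad vertex `w`. `Stp.step`: the passive step. `St.start_of`: the law `start` for a state,
from the two halves (a foldable top: a smaller state; none: a step complex with a step system, the static
input `Stc` and the comparison of the numbers).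
-/

namespace Pool.Agent.DI

open MulAction
open Pool.Agent.SAF (InC SA orbs FinOrb oc Decomp)
open Pool.Agent.BT (PX PQ JS bey exits Ell mst)

namespace St

variable (C : St)

/-- no top of the state is foldable -/
def Red : Prop := C.P.red (fun _ => False)

/-- A PASSIVE STEP OVER THE STATE -/
def PsvStep : Prop :=
  ∃ (V : Type) (_ : MulAction C.H V) (S : SyQ C.H V) (f : V → C.fd.V) (w : S.X) (O : S.OR w)
    (E : V → Prop) (h : S.Psv w O E), OvC C.fd S.K S.P f ∧ h.nums.Le C.nums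

variable {C}

namespace K1

variable {k : C.K1} {D : Decomp C.H} {J : k.W → Set D.X} {js : JS k.P.pq D J}

/-- A STEP SYSTEM: a placed one-edge system over the step complex at a bad vertex -/
structure Stp (k : C.K1) {D : Decomp C.H} {J : k.W → Set D.X} (js : JS k.P.pq D J)
    (w : D.X) : Prop where
  gd : (SyQ.mk k.K k.P D J js).GdQ k.K.FS
  tog : ∀ x a, k.K.ar x a → Infinite ↥(stabilizer C.H ((x, a) : k.W × k.W)) →
    (SyQ.mk k.K k.P D J js).Tog x a
  one : OneE D
  alt : (∀ x y : D.X, ∃ h : C.H, h • x = y) ∨ ∃ u, (SyQ.mk k.K k.P D J js).Inv1 w u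
  badw : ¬ SA ↥(stabilizer C.H w)
  /-- no opened top is local -/
  noE : ∀ T a b y, k.P.Top T a b y → (SyQ.mk k.K k.P D J js).Loc w T a b y → ¬ k.E T
  /-- R0: the pages -/
  page : ∀ x a b p p' n, k.K.ar x a → k.K.ar x b → a ≠ b → J x = {p} → D.G.Adj p p' →
    p' ∈ J a → p' ∈ J b → k.K.ar n x → p' ∉ J n
  /-- R0: the direct corners -/
  dir : ∀ x a b p p' y z c, k.K.ar x a → k.K.ar x b → a ≠ b → J x = {p} → D.G.Adj p p' →
    p' ∈ J a → p' ∈ J b → Qn k.P a x b y z →
    (SyQ.mk k.K k.P D J js).IsC ![a, x, b, y, z] c → c ∉ bey D.G p p'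
  /-- an opened vertex has one place -/
  eJ : ∀ v, k.E v → w ∈ J v → ∀ p ∈ J v, p = w
  /-- the two vertices of an opened square which are not bare are in different orbits -/
  eb : ∀ T a b y, k.P.Top T a b y → k.E T → ¬ k.P.Bare T → ¬ k.P.Bare y → ∀ g : C.H, g • T ≠ y
  /-- the bare vertices -/
  bw : ∀ v a b y, k.P.Top v a b y → k.P.Bare v → ∃ (i : k.K.I) (g : C.H) (p p0 : D.X),
    v = g • k.P.qt i 3 ∧ (SyQ.mk k.K k.P D J js).BrJ i p p0
  /-- over a midpoint there are only bare vertices -/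
  bo : ∀ u, (SyQ.mk k.K k.P D J js).Inv1 w u → ∀ v, J v = {u} → k.P.Bare v
  /-- placed -/
  pl : (SyQ.mk k.K k.P D J js).Plcd
  /-- placed over the midpoint -/
  mid : ∀ u, (SyQ.mk k.K k.P D J js).Inv1 w u → ∃ w', (SyQ.mk k.K k.P D J js).Plc w u w'

namespace Stp

variable {w : D.X} (s : k.Stp js w)

include s

theorem sy1 : (SyQ.mk k.K k.P D J js).Sy1 w := k.sy1 js s.gd s.tog s.one s.badw s.alt

omit s in
/-- the stars which are not open: over the bare vertices -/
theorem inv (h : C.H) (_ : h • w = w) (q : k.W) (hq : q ∈ {q : k.W | k.P.Bare q}) :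
    h • q ∈ {q : k.W | k.P.Bare q} := by
  have hq : k.P.Bare q := hq
  exact hq.smul h

/-- A STEP SYSTEM GIVES A PASSIVE STEP -/
theorem step (hr : C.Red) (st : k.P.Stc k.E) (hn : (k.P.numsE k.nd k.E).Le C.nums) :
    C.PsvStep := by
  let S : SyQ C.H k.W := SyQ.mk k.K k.P D J js
  let O : S.OR w := S.opF w {q : k.W | k.P.Bare q} (fun h hh q hq => inv h hh q hq)
  have opn : ∀ u q, O.op u q ↔ w ∈ J q ∧ ¬ k.P.Bare q := fun u q => Iff.rfl
  have rz := k.rz js (O := O) opn (fun v hv hw => s.eJ v (k.be hv) hw) s.noE s.page s.dir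
  have h := k.psv js s.sy1 (O := O) s.noE s.pl s.mid opn (fun q hq hb => rz.two q hq hb) rz.nf
    s.page s.dir s.eJ (fun n v a hn ha => k.pc hn ha) (k.red hr)
    (fun T a b y ht hE => k.eW ht hE) s.eb st s.bw
    (fun u hu v hv => ⟨s.bo u hu v hv, k.bt (s.bo u hu v hv)⟩)
  exact ⟨k.W, inferInstance, S, k.f, w, O, k.E, h, k.ovc, hn⟩

end Stp

end K1

/-- THE LAW `start` from the two halves -/
theorem start_of (C : St) (hsf : ¬ C.Red → ∃ N : St, N.Lt C)
    (hk : C.Red → ∃ (k : C.K1) (D : Decomp C.H) (J : k.W → Set D.X) (js : JS k.P.pq D J)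
      (w : D.X), k.Stp js w ∧ k.P.Stc k.E ∧ (k.P.numsE k.nd k.E).Le C.nums) :
    (∃ N : St, N.Lt C) ∨
    ∃ (V : Type) (_ : MulAction C.H V) (S : SyQ C.H V) (f : V → C.fd.V) (w : S.X) (O : S.OR w)
      (E : V → Prop) (h : S.Psv w O E), OvC C.fd S.K S.P f ∧ h.nums.Le C.nums := by
  by_cases hr : C.Red
  · obtain ⟨k, D, J, js, w, s, st, hn⟩ := hk hr
    exact Or.inr (s.step hr st hn)
  · exact Or.inl (hsf hr)

end St

end Pool.Agent.DI
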