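import Pool.Agent.BT.ThA4
import Pool.Agent.BT.XBridge
import Pool.Agent.DI.Repl

/-!
# Systems of subtrees for a complex of listed pentagons, walls connected by pentagons

`Sys H V`: a complex `K` with pentagons only (`P : Pt K`; nothing else is filled, parallel soft
vertices are allowed), a decomposition `D`, subtrees `J x` with the axioms `BT.JS`.
`Pn a q b y z`: the five vertices of a translate of a pentagon (in cyclic order, both directions).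
`PW w w' a b`: `a`, `b` cross the edge `w w'` and a pentagon `a q b y z` crosses this edge (`J q` on
one side, `J y` and `J z` on the other side). `Conn`: walls and slices are connected.
-/

namespace Pool.Agent.DI

open MulAction
open Pool.Agent.SAF (InC orbs FinOrb oc Decomp SAn SA Conv hull dist_edge FinOrb_iff)
open Pool.Agent.BT (PX PQ JS bey exits)
open Pool.Agent.BT.TA

section

variable {H V : Type} [Group H] [MulAction H V] {K : GX H V}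

/-- the complex with pentagons only as a pre-complex (more walks are filled) -/
def Pt.pq (P : Pt K) : PQ H V where
  ar := K.ar
  rk := K.rk
  I := K.I
  finI := K.finI
  pt := P.pt
  ar_rk := K.ar_rk
  ar_smul := K.ar_smul
  rk_smul := K.rk_smul
  two := K.two
  pt_E := P.E
  ne := K.ne
  conn := K.conn
  H1 φ hs _ _ hp := K.H1 φ hs (fun i h => by
    rw [P.ps_cell]
    exact hp i h)
  fin := K.fin

/-- the vertices of a translate of a pentagon in cyclic order -/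
def Pn (P : Pt K) (a q b y z : V) : Prop := ∃ (h : H) (i : K.I) (j : Fin 5),
  (a = h • P.pt i j ∧ q = h • P.pt i (j + 1) ∧ b = h • P.pt i (j + 2) ∧ y = h • P.pt i (j + 3) ∧
    z = h • P.pt i (j + 4)) ∨
  (b = h • P.pt i j ∧ q = h • P.pt i (j + 1) ∧ a = h • P.pt i (j + 2) ∧ z = h • P.pt i (j + 3) ∧
    y = h • P.pt i (j + 4))

variable {P : Pt K}

theorem Pn.symm {a q b y z : V} (h : Pn P a q b y z) : Pn P b q a z y := by
  obtain ⟨g, i, j, h | h⟩ := h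
  · exact ⟨g, i, j, Or.inr ⟨h.1, h.2.1, h.2.2.1, h.2.2.2.1, h.2.2.2.2⟩⟩
  · exact ⟨g, i, j, Or.inl ⟨h.1, h.2.1, h.2.2.1, h.2.2.2.1, h.2.2.2.2⟩⟩

theorem Pn.smul (g : H) {a q b y z : V} (h : Pn P a q b y z) :
    Pn P (g • a) (g • q) (g • b) (g • y) (g • z) := by
  obtain ⟨k, i, j, h⟩ := h
  refine ⟨g * k, i, j, ?_⟩
  rcases h with ⟨rfl, rfl, rfl, rfl, rfl⟩ | ⟨rfl, rfl, rfl, rfl, rfl⟩
  · left; simp only [mul_smul, and_self]
  · right; simp only [mul_smul, and_self]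

theorem Pn_pt (h : H) (i : K.I) (j : Fin 5) : Pn P (h • P.pt i j) (h • P.pt i (j + 1))
    (h • P.pt i (j + 2)) (h • P.pt i (j + 3)) (h • P.pt i (j + 4)) :=
  ⟨h, i, j, Or.inl ⟨rfl, rfl, rfl, rfl, rfl⟩⟩

/-- rotation -/
theorem Pn.rot {a q b y z : V} (h : Pn P a q b y z) : Pn P q b y z a := by
  obtain ⟨g, i, j, h⟩ := h
  have e5 : ∀ j : Fin 5, j + 1 + 4 = j := by decide
  have e4 : ∀ j : Fin 5, j + 4 + 1 = j := by decide
  rcases h with ⟨rfl, rfl, rfl, rfl, rfl⟩ | ⟨rfl, rfl, rfl, rfl, rfl⟩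
  · refine ⟨g, i, j + 1, Or.inl ⟨rfl, ?_, ?_, ?_, ?_⟩⟩
    · rw [add_assoc]; rfl
    · rw [add_assoc]; rfl
    · rw [add_assoc]; rfl
    · rw [e5]
  · refine ⟨g, i, j + 4, Or.inr ⟨rfl, ?_, ?_, ?_, ?_⟩⟩
    · rw [e4]
    · rw [show j + 4 + 2 = j + 1 from by rw [add_assoc]; rfl]
    · rw [show j + 4 + 3 = j + 2 from by rw [add_assoc]; rfl]
    · rw [show j + 4 + 4 = j + 3 from by rw [add_assoc]; rfl]

theorem Pn.E1 {a q b y z : V} (h : Pn P a q b y z) : K.E a q := by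
  obtain ⟨g, i, j, h⟩ := h
  rcases h with ⟨rfl, rfl, rfl, rfl, rfl⟩ | ⟨rfl, rfl, rfl, rfl, rfl⟩
  · exact K.E_smul g (P.E i j)
  · have := K.E_smul g (P.E i (j + 1))
    rw [show j + 1 + 1 = j + 2 from by rw [add_assoc]; rfl] at this
    exact Or.symm this

theorem Pn.E2 {a q b y z : V} (h : Pn P a q b y z) : K.E q b := h.rot.E1

theorem Pn.E3 {a q b y z : V} (h : Pn P a q b y z) : K.E b y := h.rot.rot.E1

theorem Pn.E4 {a q b y z : V} (h : Pn P a q b y z) : K.E y z := h.rot.rot.rot.E1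

theorem Pn.E5 {a q b y z : V} (h : Pn P a q b y z) : K.E z a := h.rot.rot.rot.rot.E1

end

/-- systems of subtrees for a complex with pentagons only -/
structure Sys (H V : Type) [Group H] [MulAction H V] where
  K : GX H V
  P : Pt K
  D : Decomp H
  J : V → Set D.X
  js : JS P.pq D J

namespace Sys

variable {H V : Type} [Group H] [MulAction H V] (S : Sys H V)

/-- the vertices of the tree -/
abbrev X : Type := S.D.X

/-- `x` crosses the edge `w w'` -/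
def Cs (w w' : S.X) (x : V) : Prop := w ∈ S.J x ∧ w' ∈ S.J x

/-- consecutive vertices of the wall of `w w'`: a pentagon crosses the edge at `a` and `b` -/
def PW (w w' : S.X) (a b : V) : Prop := S.D.G.Adj w w' ∧ S.Cs w w' a ∧ S.Cs w w' b ∧
  ∃ q y z, Pn S.P a q b y z ∧
    ((S.J q ⊆ bey S.D.G w w' ∧ S.J y ⊆ bey S.D.G w' w ∧ S.J z ⊆ bey S.D.G w' w) ∨
      (S.J q ⊆ bey S.D.G w' w ∧ S.J y ⊆ bey S.D.G w w' ∧ S.J z ⊆ bey S.D.G w w'))

/-- the generating relation of the slice at `w` -/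
def SR (w : S.X) (x z : V) : Prop :=
  (S.K.E x z ∧ w ∈ S.J x ∧ w ∈ S.J z) ∨ ∃ w', S.PW w w' x z

/-- walls and slices are connected, every edge is crossed -/
structure Conn : Prop where
  wall : ∀ w w', S.D.G.Adj w w' → ∀ x z, S.Cs w w' x → S.Cs w w' z →
    Relation.EqvGen (S.PW w w') x z
  slice : ∀ w, ∀ x z, w ∈ S.J x → w ∈ S.J z → Relation.EqvGen (S.SR w) x z
  crossed : ∀ w w', S.D.G.Adj w w' → ∃ x, S.Cs w w' x

variable {S}

theorem PW.symm' {w w' : S.X} {a b : V} (h : S.PW w w' a b) : S.PW w w' b a := by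
  obtain ⟨h1, h2, h3, q, y, z, hp, h4⟩ := h
  refine ⟨h1, h3, h2, q, z, y, hp.symm, ?_⟩
  rcases h4 with ⟨a1, a2, a3⟩ | ⟨a1, a2, a3⟩
  · exact Or.inl ⟨a1, a3, a2⟩
  · exact Or.inr ⟨a1, a3, a2⟩

theorem Cs.swap {w w' : S.X} {x : V} (h : S.Cs w w' x) : S.Cs w' w x := ⟨h.2, h.1⟩

theorem Cs.smul (g : H) {w w' : S.X} {x : V} (h : S.Cs w w' x) : S.Cs (g • w) (g • w') (g • x) :=
  ⟨S.js.smul g _ _ h.1, S.js.smul g _ _ h.2⟩

theorem PW.swap {w w' : S.X} {a b : V} (h : S.PW w w' a b) : S.PW w' w a b := by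
  obtain ⟨h1, h2, h3, q, y, z, hp, h4⟩ := h
  exact ⟨h1.symm, h2.swap, h3.swap, q, y, z, hp, h4.symm⟩

theorem PW.l {w w' : S.X} {a b : V} (h : S.PW w w' a b) : S.Cs w w' a := h.2.1

theorem PW.r {w w' : S.X} {a b : V} (h : S.PW w w' a b) : S.Cs w w' b := h.2.2.1

variable (S)

theorem mem_smul_iff (h : H) (x : V) (w : S.X) : h • w ∈ S.J (h • x) ↔ w ∈ S.J x := by
  constructor
  · intro hh
    have := S.js.smul h⁻¹ _ _ hh
    rwa [inv_smul_smul, inv_smul_smul] at this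
  · exact S.js.smul h x w

theorem bey_smul (h : H) {w w' x : S.X} (e : x ∈ bey S.D.G w w') :
    h • x ∈ bey S.D.G (h • w) (h • w') :=
  Pool.Agent.BT.TA.bey_smul S.D.adj_smul S.D.tree S.D.noinv h e

theorem sub_bey_smul (h : H) {w w' : S.X} {x : V} (e : S.J x ⊆ bey S.D.G w w') :
    S.J (h • x) ⊆ bey S.D.G (h • w) (h • w') := by
  intro u hu
  have h1 : h⁻¹ • u ∈ S.J x := by
    have := S.js.smul h⁻¹ _ _ hu
    rwa [inv_smul_smul] at this
  have h2 := S.bey_smul h (e h1)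
  rwa [smul_inv_smul] at h2

theorem PW.smul (g : H) {w w' : S.X} {a b : V} (h : S.PW w w' a b) :
    S.PW (g • w) (g • w') (g • a) (g • b) := by
  obtain ⟨h1, h2, h3, q, y, z, hp, h4⟩ := h
  refine ⟨S.D.adj_smul g _ _ h1, h2.smul g, h3.smul g, g • q, g • y, g • z, hp.smul g, ?_⟩
  rcases h4 with ⟨a1, a2, a3⟩ | ⟨a1, a2, a3⟩
  · exact Or.inl ⟨S.sub_bey_smul g a1, S.sub_bey_smul g a2, S.sub_bey_smul g a3⟩
  · exact Or.inr ⟨S.sub_bey_smul g a1, S.sub_bey_smul g a2, S.sub_bey_smul g a3⟩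

theorem SR.symm' {w : S.X} {x z : V} (k : S.SR w x z) : S.SR w z x := by
  rcases k with ⟨e, h1, h2⟩ | ⟨w', k⟩
  · exact Or.inl ⟨Or.symm e, h2, h1⟩
  · exact Or.inr ⟨w', k.symm'⟩

theorem SR.mem {w : S.X} {x z : V} (k : S.SR w x z) : w ∈ S.J x ∧ w ∈ S.J z := by
  rcases k with ⟨e, h1, h2⟩ | ⟨w', k⟩
  · exact ⟨h1, h2⟩
  · exact ⟨k.l.1, k.r.1⟩

theorem SR.smul {w : S.X} {x z : V} (h : H) (k : S.SR w x z) : S.SR (h • w) (h • x) (h • z) := by
  rcases k with ⟨e, h1, h2⟩ | ⟨w', k⟩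
  · exact Or.inl ⟨S.K.E_smul h e, S.js.smul h _ _ h1, S.js.smul h _ _ h2⟩
  · exact Or.inr ⟨h • w', PW.smul S h k⟩

/-- the common point of adjacent subtrees -/
theorem one_eq {x y : V} (e : S.K.E x y) {a b : S.X} (h1 : a ∈ S.J x) (h2 : a ∈ S.J y)
    (h3 : b ∈ S.J x) (h4 : b ∈ S.J y) : a = b := by
  obtain ⟨p, hp⟩ := S.js.one x y e
  have ha : a ∈ S.J x ∩ S.J y := ⟨h1, h2⟩
  have hb : b ∈ S.J x ∩ S.J y := ⟨h3, h4⟩
  rw [hp] at ha hb
  rw [Set.mem_singleton_iff.1 ha, Set.mem_singleton_iff.1 hb]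

theorem one_ex {x y : V} (e : S.K.E x y) : ∃ p, p ∈ S.J x ∧ p ∈ S.J y := by
  obtain ⟨p, hp⟩ := S.js.one x y e
  have : p ∈ S.J x ∩ S.J y := by rw [hp]; exact rfl
  exact ⟨p, this.1, this.2⟩

theorem not_both {w w' : S.X} (h : S.D.G.Adj w w') {x y : V} (e : S.K.E x y) (hx : S.Cs w w' x)
    (hy : S.Cs w w' y) : False :=
  h.ne (S.one_eq e hx.1 hy.1 hx.2 hy.2)

/-- the subtree of a vertex which does not cross is on one side -/
theorem side_of {w w' : S.X} (h : S.D.G.Adj w w') {x : V} (hn : ¬ S.Cs w w' x) {u : S.X}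
    (hu : u ∈ S.J x) (hb : u ∈ bey S.D.G w w') : S.J x ⊆ bey S.D.G w w' :=
  conv_sd S.D.tree (S.js.conv x) h hn hu hb

theorem side_or {w w' : S.X} (h : S.D.G.Adj w w') {x : V} (hn : ¬ S.Cs w w' x) :
    S.J x ⊆ bey S.D.G w w' ∨ S.J x ⊆ bey S.D.G w' w := by
  obtain ⟨u, hu⟩ := S.js.ne x
  rcases bey_or S.D.tree h u with hb | hb
  · exact Or.inl (S.side_of h hn hu hb)
  · exact Or.inr (S.side_of h.symm (fun e => hn e.swap) hu hb)

theorem adj_nc {w w' : S.X} (h : S.D.G.Adj w w') {x y : V} (e : S.K.E x y) (hx : S.Cs w w' x) :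
    ¬ S.Cs w w' y := fun hy => S.not_both h e hx hy

/-- adjacent vertices which do not cross are on the same side -/
theorem side_adj {w w' : S.X} (h : S.D.G.Adj w w') {x y : V} (e : S.K.E x y)
    (hy : ¬ S.Cs w w' y) (hs : S.J x ⊆ bey S.D.G w w') : S.J y ⊆ bey S.D.G w w' := by
  obtain ⟨p, p0, p1⟩ := S.one_ex e
  exact S.side_of h hy p1 (hs p0)

/-- centres exist -/
theorem cen {v : Fin 5 → V} (hv : ∀ k, S.K.E (v k) (v (k + 1))) :
    ∃ c, ∀ k, c ∈ S.J (v k) ∪ S.J (v (k + 1)) := by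
  have hU : ∀ k, Conv S.D.G (S.J (v k) ∪ S.J (v (k + 1))) := by
    intro k
    obtain ⟨p, p0, p1⟩ := S.one_ex (hv k)
    exact conv_union S.D.tree (S.js.conv _) (S.js.conv _) p0 p1
  obtain ⟨p0, a0, b0⟩ := S.one_ex (hv 0)
  obtain ⟨p1, a1, b1⟩ := S.one_ex (hv 1)
  obtain ⟨p2, a2, b2⟩ := S.one_ex (hv 2)
  obtain ⟨p3, a3, b3⟩ := S.one_ex (hv 3)
  obtain ⟨p4, a4, b4⟩ := S.one_ex (hv 4)
  obtain ⟨m, m0, m1, m2, m3, m4⟩ := helly5 S.D.tree (hU 0) (hU 1) (hU 2) (hU 3) (hU 4)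
    ⟨p0, Or.inl a0, Or.inl b0⟩ ⟨p1, Or.inr a1, Or.inl b1⟩ ⟨p1, Or.inl a1, Or.inl b1⟩
    ⟨p4, Or.inl b4, Or.inr a4⟩ ⟨p2, Or.inr a2, Or.inl b2⟩ ⟨p2, Or.inl a2, Or.inl b2⟩
    ⟨p0, Or.inl a0, Or.inr a0⟩ ⟨p0, Or.inl b0, Or.inr a0⟩ ⟨p3, Or.inr a3, Or.inl b3⟩
    ⟨p3, Or.inl a3, Or.inl b3⟩
  refine ⟨m, fun k => ?_⟩
  fin_cases k
  · exact m0
  · exact m1
  · exact m2
  · exact m3
  · exact m4

end Sys

end Pool.Agent.DI
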