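import Pool.Agent.DI.LD
import Pool.Agent.DI.TrkC

/-!
# The graph of an edge and its passing part, finiteness

`S.St w u q x`: the star of `q` at the edge `w u` through `x` (near or far); `S.LE w u`: the lines of
the graph of the edge; `S.LP w u`: the passing lines at `w`, i.e. lines of a second edge at `w`, too.
`S.GE w u`, `S.GP w u`: the two graphs with the action of `Je w u`.
-/

namespace Pool.Agent.DI

open MulAction
open Pool.Agent.SAF (InC orbs FinOrb oc Decomp SAn SA Conv hull dist_edge FinOrb_iff exists_next)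
open Pool.Agent.BT (PX PQ JS bey exits x_next_unique)
open Pool.Agent.BT.TA

theorem finOrb_cover {H Y : Type} [Group H] [MulAction H Y] {s : Set Y} (F : Set Y)
    (hF : F.Finite) (h : ∀ y ∈ s, ∃ f ∈ F, ∃ g : H, g • f = y) : FinOrb H s := by
  apply (hF.image (fun y => (Quotient.mk'' y : orbitRel.Quotient H Y))).subset
  rintro _ ⟨y, hy, rfl⟩
  obtain ⟨f, hf, g, hg⟩ := h y hy
  exact ⟨f, hf, (Pool.Agent.SAF.mk_eq_iff.2 ⟨g, hg⟩).symm⟩

namespace Sys

variable {H V : Type} [Group H] [MulAction H V] (S : Sys H V)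

/-- the lines of the graph of the edge `w u` -/
def LE (w u : S.X) : Set (V × V) := {p | ∃ x', S.Qs w u p.2 p.1 x' ∨ S.Qs u w p.2 p.1 x'}

/-- the star of `q` at the edge `w u` through `x` -/
def St (w u : S.X) (q x : V) : Set V := {x' | S.Gc w u q x x' ∨ S.Gc u w q x x'}

variable {S}

theorem mem_LE {w u : S.X} {p : V × V} :
    p ∈ S.LE w u ↔ ∃ x', S.Qs w u p.2 p.1 x' ∨ S.Qs u w p.2 p.1 x' := Iff.rfl

theorem LE_comm (w u : S.X) : S.LE w u = S.LE u w := by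
  ext p
  exact exists_congr fun x' => or_comm

theorem St_comm (w u : S.X) (q x : V) : S.St w u q x = S.St u w q x := by
  ext x'
  exact or_comm

theorem LE_smul (g : H) {w u : S.X} {p : V × V} (h : p ∈ S.LE w u) :
    g • p ∈ S.LE (g • w) (g • u) := by
  obtain ⟨x', h | h⟩ := h
  · exact ⟨g • x', Or.inl (h.smul' g)⟩
  · exact ⟨g • x', Or.inr (h.smul' g)⟩

theorem LE_adj {w u : S.X} {p : V × V} (h : p ∈ S.LE w u) : S.D.G.Adj w u := by
  obtain ⟨x', h | h⟩ := h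
  · exact h.adj
  · exact h.adj.symm

theorem LE_cs {w u : S.X} {p : V × V} (h : p ∈ S.LE w u) : S.Cs w u p.1 := by
  obtain ⟨x', h | h⟩ := h
  · exact h.l
  · exact h.l.swap

theorem LE_E {w u : S.X} {p : V × V} (h : p ∈ S.LE w u) : S.K.E p.1 p.2 := by
  obtain ⟨x', h | h⟩ := h
  · exact h.E1
  · exact h.E1

theorem self_St (w u : S.X) (q x : V) : x ∈ S.St w u q x := Or.inl (Relation.EqvGen.refl x)

/-- at a near star -/
theorem St_near {w u : S.X} {q x x' : V} (h : S.Qs w u q x x') : S.St w u q x = S.Star w u q x := by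
  ext z
  constructor
  · rintro (k | k)
    · exact k
    · rcases k.cases with e | ⟨⟨c, hc⟩, -⟩
      · rw [← e]
        exact self_Star _ _ _ _
      · exact absurd hc h.not_far
  · intro k
    exact Or.inl k

theorem St_far {w u : S.X} {q x x' : V} (h : S.Qs u w q x x') : S.St w u q x = S.Star u w q x := by
  rw [St_comm]
  exact St_near h

/-- the star through another element -/
theorem St_eq {w u : S.X} {q x x' : V} (h : x' ∈ S.St w u q x) : S.St w u q x' = S.St w u q x := by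
  have key : ∀ (w u : S.X), S.Gc w u q x x' → S.St w u q x' = S.St w u q x := by
    intro w u h
    rcases h.cases with e | ⟨⟨c, hc⟩, c', hc'⟩
    · rw [e]
    · rw [St_near hc, St_near hc']
      exact (Star_eq h).symm
  rcases h with h | h
  · exact key w u h
  · rw [St_comm w u q x', St_comm w u q x]
    exact key u w h

theorem St_symm {w u : S.X} {q x x' : V} (h : x' ∈ S.St w u q x) : x ∈ S.St w u q x' := by
  rw [St_eq h]
  exact self_St _ _ _ _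

theorem St_smul (g : H) (w u : S.X) (q x : V) :
    S.St (g • w) (g • u) (g • q) (g • x) = (fun z => g • z) '' S.St w u q x := by
  have key : ∀ (g : H) (w u : S.X) (q x z : V), z ∈ S.St w u q x →
      g • z ∈ S.St (g • w) (g • u) (g • q) (g • x) := by
    rintro g w u q x z (h | h)
    · exact Or.inl (eqv_smul g h)
    · exact Or.inr (eqv_smul g h)
  ext z
  constructor
  · intro h
    refine ⟨g⁻¹ • z, ?_, smul_inv_smul g z⟩
    have := key g⁻¹ _ _ _ _ _ h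
    simpa only [inv_smul_smul] using this
  · rintro ⟨z, h, rfl⟩
    exact key g _ _ _ _ _ h

/-- elements of the star of a line are ends of lines -/
theorem LE_St {w u : S.X} {q x x' : V} (h : (x, q) ∈ S.LE w u) (h' : x' ∈ S.St w u q x) :
    (x', q) ∈ S.LE w u := by
  rcases h' with k | k
  · rcases k.cases with e | ⟨-, c, hc⟩
    · rw [← e]
      exact h
    · exact ⟨c, Or.inl hc⟩
  · rcases k.cases with e | ⟨-, c, hc⟩
    · rw [← e]
      exact h
    · exact ⟨c, Or.inr hc⟩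

variable (S)

/-! ### finiteness -/

theorem finOrb_LE2 : FinOrb H {r : (V × V) × (S.X × S.X) | r.1 ∈ S.LE r.2.1 r.2.2} := by
  have := S.K.finI
  have hP : ∀ (i : S.K.I) (k : Fin 5), ∃ a, a ∈ S.J (S.P.pt i k) ∧ a ∈ S.J (S.P.pt i (k + 1)) :=
    fun i k => S.one_ex (S.P.E i k)
  choose a ha1 ha2 using hP
  let HL : S.K.I → Set S.X := fun i => hull S.D.G (Set.range (a i))
  have hHL : ∀ i, (HL i).Finite := fun i =>
    Pool.Agent.SAF.hull_finite S.D.tree (Set.finite_range (a i))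
  let F : Set ((V × V) × (S.X × S.X)) := ⋃ i : S.K.I,
    ((fun k : Fin 5 × Fin 5 => (S.P.pt i k.1, S.P.pt i k.2)) '' Set.univ) ×ˢ (HL i ×ˢ HL i)
  have hF : F.Finite := Set.finite_iUnion fun i =>
    ((Set.toFinite _).image _).prod ((hHL i).prod (hHL i))
  apply finOrb_cover F hF
  rintro ⟨⟨x, q⟩, ⟨w, u⟩⟩ hr
  have key : ∀ (w u : S.X) x', S.Qs w u q x x' → ∃ (g : H) (i : S.K.I) (j k : Fin 5),
      x = g • S.P.pt i j ∧ q = g • S.P.pt i k ∧ g⁻¹ • w ∈ HL i ∧ g⁻¹ • u ∈ HL i := by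
    rintro w u x' ⟨y, z, ⟨g, i, j, hp⟩, hsq⟩
    have hconv : Conv S.D.G (HL i) := Pool.Agent.SAF.hull_conv S.D.tree _
    have hm : ∀ k, a i k ∈ HL i := fun k => Pool.Agent.SAF.subset_hull _ ⟨k, rfl⟩
    obtain ⟨hu, c0, c2, s1, s3, s4⟩ := hsq.smul g⁻¹
    rcases hp with ⟨e0, e1, e2, e3, e4⟩ | ⟨e2, e1, e0, e4, e3⟩
    · rw [e1, inv_smul_smul] at s1
      rw [e3, inv_smul_smul] at s3
      have h3 := conv_cr S.D.tree hconv hu (hm j) (hm (j + 3)) (s1 (ha2 i j)) (s3 (ha1 i (j + 3)))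
      exact ⟨g, i, j, j + 1, e0, e1, h3.1, h3.2⟩
    · rw [e1, inv_smul_smul] at s1
      rw [e4, inv_smul_smul] at s4
      have h3 := conv_cr S.D.tree hconv hu (hm j) (hm (j + 3)) (s1 (ha2 i j)) (s4 (ha1 i (j + 3)))
      exact ⟨g, i, j + 2, j + 1, e0, e1, h3.1, h3.2⟩
  have key2 : ∃ (g : H) (i : S.K.I) (j k : Fin 5),
      x = g • S.P.pt i j ∧ q = g • S.P.pt i k ∧ g⁻¹ • w ∈ HL i ∧ g⁻¹ • u ∈ HL i := by
    obtain ⟨x', h | h⟩ := hr
    · exact key w u x' h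
    · obtain ⟨g, i, j, k, h1, h2, h3, h4⟩ := key u w x' h
      exact ⟨g, i, j, k, h1, h2, h4, h3⟩
  obtain ⟨g, i, j, k, h1, h2, h3, h4⟩ := key2
  refine ⟨((S.P.pt i j, S.P.pt i k), (g⁻¹ • w, g⁻¹ • u)), ?_, g, ?_⟩
  · exact Set.mem_iUnion.2 ⟨i, ⟨⟨(j, k), trivial, rfl⟩, h3, h4⟩⟩
  · show ((g • S.P.pt i j, g • S.P.pt i k), (g • g⁻¹ • w, g • g⁻¹ • u)) = _
    rw [← h1, ← h2, smul_inv_smul, smul_inv_smul]

theorem finOrb_LE (w u : S.X) : FinOrb ↥(Je w u : Subgroup H) (S.LE w u) := by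
  apply Pool.Agent.SAF.FinOrb.of_inj S.finOrb_LE2 (fun p => (p, (w, u))) (fun p hp => hp)
  rintro a _ b _ ⟨h, e⟩
  have e1 : h • a = b := congrArg Prod.fst e
  have e2 : h • w = w := congrArg (fun r : (V × V) × (S.X × S.X) => r.2.1) e
  have e3 : h • u = u := congrArg (fun r : (V × V) × (S.X × S.X) => r.2.2) e
  exact ⟨⟨h, e2, e3⟩, e1⟩

theorem finOrb_Cs2 : FinOrb H {r : V × (S.X × S.X) | S.D.G.Adj r.2.1 r.2.2 ∧
    S.Cs r.2.1 r.2.2 r.1} := by
  obtain ⟨F, hF, hFs, hc⟩ := FinOrb_iff.1 S.js.fin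
  let F' : Set (V × (S.X × S.X)) := ⋃ r ∈ F,
    (fun u => (r.1, (r.2, u))) '' {u | S.D.G.Adj r.2 u ∧ u ∈ S.J r.1}
  have hF' : F'.Finite := hF.biUnion fun r hr => (S.nb_finite (hFs hr)).image _
  apply finOrb_cover F' hF'
  rintro ⟨x, w, u⟩ ⟨h1, h2, h3⟩
  obtain ⟨⟨x0, w0⟩, hr, g, hg⟩ := hc (x, w) h2
  have e1 : g • x0 = x := congrArg Prod.fst hg
  have e2 : g • w0 = w := congrArg Prod.snd hg
  refine ⟨(x0, (w0, g⁻¹ • u)), ?_, g, ?_⟩
  · refine Set.mem_biUnion hr ⟨g⁻¹ • u, ⟨?_, ?_⟩, rfl⟩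
    · have := S.D.adj_smul g⁻¹ _ _ h1
      rw [← e2] at this
      change S.D.G.Adj (g⁻¹ • g • w0) _ at this
      rwa [inv_smul_smul] at this
    · have := S.js.smul g⁻¹ _ _ h3
      rw [← e1] at this
      change _ ∈ S.J (g⁻¹ • g • x0) at this
      rwa [inv_smul_smul] at this
  · show (g • x0, (g • w0, g • g⁻¹ • u)) = _
    rw [e1, e2, smul_inv_smul]

theorem finOrb_Cs {w u : S.X} (hu : S.D.G.Adj w u) :
    FinOrb ↥(Je w u : Subgroup H) {x | S.Cs w u x} := by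
  apply Pool.Agent.SAF.FinOrb.of_inj S.finOrb_Cs2 (fun x => (x, (w, u))) (fun x hx => ⟨hu, hx⟩)
  rintro a _ b _ ⟨h, e⟩
  have e1 : h • a = b := congrArg Prod.fst e
  have e2 : h • w = w := congrArg (fun r : V × (S.X × S.X) => r.2.1) e
  have e3 : h • u = u := congrArg (fun r : V × (S.X × S.X) => r.2.2) e
  exact ⟨⟨h, e2, e3⟩, e1⟩

/-- the graph of the edge `w u` -/
def LDE {w u : S.X} (hu : S.D.G.Adj w u) : DI.LD V (Je w u : Subgroup H) where
  E := {x | S.Cs w u x}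
  A := S.LE w u
  C p := S.St w u p.2 p.1
  hE j hj x hx := by
    have h := Cs.smul j hx
    rw [hj.1, hj.2] at h
    exact h
  hA j hj p hp := by
    have h := LE_smul j hp
    rw [hj.1, hj.2] at h
    exact h
  hC j hj p _ := by
    have h := St_smul (S := S) j w u p.2 p.1
    rw [hj.1, hj.2] at h
    exact h
  hAE p hp := LE_cs hp
  fE := S.finOrb_Cs hu
  fA := S.finOrb_LE w u

/-! ### the passing part -/

/-- elements which pass `w` from `u` -/
def PE (w u : S.X) : Set V := {x | S.Cs w u x ∧ ∃ u1, u1 ≠ u ∧ S.D.G.Adj w u1 ∧ u1 ∈ S.J x}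

/-- passing lines -/
def LP (w u : S.X) : Set (V × V) := {p | p ∈ S.LE w u ∧ ∃ u1, u1 ≠ u ∧ p ∈ S.LE w u1}

/-- the passing star of a line -/
def CP (w u : S.X) (p : V × V) : Set V :=
  {x | x ∈ S.St w u p.2 p.1 ∧ ∃ u1, u1 ≠ u ∧ p ∈ S.LE w u1 ∧ x ∈ S.St w u1 p.2 p.1}

variable {S}

/-- the second edge is unique -/
theorem snd_unique {w u u1 u2 : S.X} {x : V} (hw : w ∈ S.J x) (hu : S.D.G.Adj w u)
    (h1 : S.D.G.Adj w u1) (h2 : S.D.G.Adj w u2) (c : u ∈ S.J x) (c1 : u1 ∈ S.J x)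
    (c2 : u2 ∈ S.J x) (n1 : u1 ≠ u) (n2 : u2 ≠ u) : u1 = u2 := by
  have k := S.js.two x w hw (Sum.inr u) (Or.inr ⟨u, rfl, hu, c⟩) (Sum.inr u1)
    (Or.inr ⟨u1, rfl, h1, c1⟩) (Sum.inr u2) (Or.inr ⟨u2, rfl, h2, c2⟩)
  rcases k with k | k | k
  · exact absurd (Sum.inr.inj k).symm n1
  · exact absurd (Sum.inr.inj k).symm n2
  · exact Sum.inr.inj k

theorem LE_snd_unique {w u u1 u2 : S.X} {p p' : V × V} (h : p ∈ S.LE w u) (h1 : p ∈ S.LE w u1)
    (n1 : u1 ≠ u) (h2 : p' ∈ S.LE w u2) (n2 : u2 ≠ u) (e : p.1 = p'.1) : u1 = u2 :=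
  snd_unique (LE_cs h).1 (LE_adj h) (LE_adj h1) (LE_adj h2) (LE_cs h).2 (LE_cs h1).2
    (by rw [e]; exact (LE_cs h2).2) n1 n2

theorem CP_eq {w u u1 : S.X} {p : V × V} (h : p ∈ S.LE w u) (n1 : u1 ≠ u) (h1 : p ∈ S.LE w u1) :
    S.CP w u p = S.St w u p.2 p.1 ∩ S.St w u1 p.2 p.1 := by
  ext x
  constructor
  · rintro ⟨h2, u2, n2, h3, h4⟩
    obtain rfl := LE_snd_unique h h1 n1 h3 n2 rfl
    exact ⟨h2, h4⟩
  · rintro ⟨h2, h3⟩
    exact ⟨h2, u1, n1, h1, h3⟩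

theorem self_CP {w u : S.X} {p : V × V} (h : p ∈ S.LP w u) : p.1 ∈ S.CP w u p := by
  obtain ⟨h1, u1, n1, h2⟩ := h
  exact ⟨self_St _ _ _ _, u1, n1, h2, self_St _ _ _ _⟩

theorem smul_ne' {w u u1 : S.X} {j : H} (hj : j ∈ (Je w u : Subgroup H)) (n : u1 ≠ u) :
    j • u1 ≠ u := by
  intro e
  apply n
  have h := hj.2
  exact smul_left_cancel j (e.trans h.symm)

theorem LP_smul {w u : S.X} {j : H} (hj : j ∈ (Je w u : Subgroup H)) {p : V × V}
    (h : p ∈ S.LP w u) : j • p ∈ S.LP w u := by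
  obtain ⟨h1, u1, n1, h2⟩ := h
  have k1 := LE_smul j h1
  have k2 := LE_smul j h2
  rw [hj.1, hj.2] at k1
  rw [hj.1] at k2
  exact ⟨k1, j • u1, smul_ne' hj n1, k2⟩

theorem CP_smul {w u : S.X} {j : H} (hj : j ∈ (Je w u : Subgroup H)) {p : V × V}
    (h : p ∈ S.LP w u) : S.CP w u (j • p) = (fun x => j • x) '' S.CP w u p := by
  obtain ⟨h1, u1, n1, h2⟩ := h
  have k1 := LE_smul j h1
  have k2 := LE_smul j h2
  rw [hj.1, hj.2] at k1
  rw [hj.1] at k2
  rw [CP_eq h1 n1 h2, CP_eq k1 (smul_ne' hj n1) k2, Set.image_inter (MulAction.injective j),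
    ← St_smul, ← St_smul, hj.1, hj.2]
  rfl

variable (S)

/-- the passing part at `w` of the graph of the edge `w u` -/
def LDP {w u : S.X} (hu : S.D.G.Adj w u) : DI.LD V (Je w u : Subgroup H) where
  E := S.PE w u
  A := S.LP w u
  C := S.CP w u
  hE j hj x hx := by
    obtain ⟨h1, u1, n1, h2, h3⟩ := hx
    have k1 := Cs.smul j h1
    have k2 := S.D.adj_smul j _ _ h2
    rw [hj.1, hj.2] at k1
    rw [hj.1] at k2
    exact ⟨k1, j • u1, smul_ne' hj n1, k2, S.js.smul j _ _ h3⟩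
  hA j hj p hp := LP_smul hj hp
  hC j hj p hp := CP_smul hj hp
  hAE p hp := by
    obtain ⟨h1, u1, n1, h2⟩ := hp
    exact ⟨LE_cs h1, u1, n1, LE_adj h2, (LE_cs h2).2⟩
  fE := (S.finOrb_Cs hu).mono fun x hx => hx.1
  fA := (S.finOrb_LE w u).mono fun p hp => hp.1

/-- the graph of the edge `w u` with the action of `Je w u` -/
def GE {w u : S.X} (hu : S.D.G.Adj w u) : JM ↥(Je w u : Subgroup H) ↥(S.LDE hu).nd
    ↥(S.LDE hu).ln := (S.LDE hu).jm

/-- its passing part at `w` -/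
def GP {w u : S.X} (hu : S.D.G.Adj w u) : JM ↥(Je w u : Subgroup H) ↥(S.LDP hu).nd
    ↥(S.LDP hu).ln := (S.LDP hu).jm

end Sys

end Pool.Agent.DI
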