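import Pool.Agent.DI.TL2

/-!
# Translates of the graphs of the edges

`JM.iso_of`: isomorphic graphs with isomorphic actions. `Sys.b1_GE_smul`, `Sys.b1_GP_smul`: the Betti
numbers at `w u` and `g w, g u`. `Sys.tree_lemma'`: flags up to translation suffice.
-/

namespace Pool.Agent.DI

open MulAction
open Pool.Agent.SAF (InC orbs FinOrb oc Decomp SAn SA Conv hull dist_edge FinOrb_iff exists_next)
open Pool.Agent.BT (PX PQ JS bey exits x_next_unique)
open Pool.Agent.BT.TA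

section

variable {J T Ed J' T' Ed' : Type} [Group J] [MulAction J T] [MulAction J Ed] [Group J']
  [MulAction J' T'] [MulAction J' Ed']

/-- orbits of isomorphic actions -/
def oqEquiv (φ : J ≃* J') (n : T ≃ T') (hn : ∀ (j : J) x, n (j • x) = φ j • n x) :
    orbitRel.Quotient J T ≃ orbitRel.Quotient J' T' where
  toFun := olift (fun x => oq J' (n x)) (fun j x => by rw [hn, oq_smul])
  invFun := olift (fun x => oq J (n.symm x)) (fun j x => by
    have : n.symm (j • x) = φ.symm j • n.symm x := by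
      rw [Equiv.symm_apply_eq, hn, φ.apply_symm_apply, Equiv.apply_symm_apply]
    rw [this, oq_smul])
  left_inv q := by
    obtain ⟨x, rfl⟩ := oq_surj q
    show oq J (n.symm (n x)) = _
    rw [Equiv.symm_apply_apply]
  right_inv q := by
    obtain ⟨x, rfl⟩ := oq_surj q
    show oq J' (n (n.symm x)) = _
    rw [Equiv.apply_symm_apply]

@[simp] theorem oqEquiv_oq (φ : J ≃* J') (n : T ≃ T') (hn : ∀ (j : J) x, n (j • x) = φ j • n x)
    (x : T) : oqEquiv φ n hn (oq J x) = oq J' (n x) := rfl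

/-- isomorphic graphs with isomorphic actions -/
def JM.iso_of (M : JM J T Ed) (M' : JM J' T' Ed') (φ : J ≃* J') (n : T ≃ T') (l : Ed ≃ Ed')
    (hn : ∀ (j : J) x, n (j • x) = φ j • n x) (hl : ∀ (j : J) x, l (j • x) = φ j • l x)
    (hs : ∀ e, M'.s (l e) = n (M.s e)) (ht : ∀ e, M'.t (l e) = n (M.t e)) :
    FG.Iso M.fg M'.fg where
  n := oqEquiv φ n hn
  l := oqEquiv φ l hl
  h q := by
    obtain ⟨e, rfl⟩ := oq_surj q
    left
    constructor
    · show oq J' (M'.s (l e)) = oq J' (n (M.s e))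
      rw [hs]
    · show oq J' (M'.t (l e)) = oq J' (n (M.t e))
      rw [ht]

end

section

variable {H V : Type} [Group H] [MulAction H V]

/-- translates of the data -/
theorem LD.b1_smul {J J' : Subgroup H} (D : LD V J) (D' : LD V J') (g : H)
    (h1 : ∀ j ∈ J, g * j * g⁻¹ ∈ J') (h2 : ∀ j ∈ J', g⁻¹ * j * g ∈ J)
    (hE : ∀ x, g • x ∈ D'.E ↔ x ∈ D.E) (hA : ∀ p, g • p ∈ D'.A ↔ p ∈ D.A)
    (hC : ∀ p ∈ D.A, D'.C (g • p) = (fun x => g • x) '' D.C p) :
    D'.jm.fg.b1 = D.jm.fg.b1 := by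
  have hsc : ∀ p ∈ D.A, D'.sc (g • p) = g • D.sc p := by
    intro p hp
    show TV.st (g • p).2 (D'.C (g • p)) = _
    rw [hC p hp]
    rfl
  have hnd : ∀ t, t ∈ D.nd → g • t ∈ D'.nd := by
    rintro t (⟨x, hx, rfl⟩ | ⟨p, hp, rfl⟩)
    · exact Or.inl ⟨g • x, (hE x).2 hx, rfl⟩
    · exact Or.inr ⟨g • p, (hA p).2 hp, (hsc p hp).symm⟩
  have hnd' : ∀ t, t ∈ D'.nd → g⁻¹ • t ∈ D.nd := by
    rintro t (⟨x, hx, rfl⟩ | ⟨p, hp, rfl⟩)
    · refine Or.inl ⟨g⁻¹ • x, (hE _).1 ?_, rfl⟩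
      rw [smul_inv_smul]
      exact hx
    · have hp' : g⁻¹ • p ∈ D.A := (hA _).1 (by rw [smul_inv_smul]; exact hp)
      refine Or.inr ⟨g⁻¹ • p, hp', ?_⟩
      have := hsc _ hp'
      rw [smul_inv_smul] at this
      rw [this, inv_smul_smul]
  let φ : ↥J ≃* ↥J' :=
    { toFun := fun j => ⟨g * j.1 * g⁻¹, h1 j.1 j.2⟩
      invFun := fun j => ⟨g⁻¹ * j.1 * g, h2 j.1 j.2⟩
      left_inv := fun j => Subtype.ext (by group)
      right_inv := fun j => Subtype.ext (by group)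
      map_mul' := fun a b => Subtype.ext (by
        show g * (a.1 * b.1) * g⁻¹ = g * a.1 * g⁻¹ * (g * b.1 * g⁻¹)
        group) }
  let n : ↥D.nd ≃ ↥D'.nd :=
    { toFun := fun t => ⟨g • t.1, hnd _ t.2⟩
      invFun := fun t => ⟨g⁻¹ • t.1, hnd' _ t.2⟩
      left_inv := fun t => Subtype.ext (inv_smul_smul g t.1)
      right_inv := fun t => Subtype.ext (smul_inv_smul g t.1) }
  let l : ↥D.ln ≃ ↥D'.ln :=
    { toFun := fun p => ⟨g • p.1, (hA _).2 p.2⟩
      invFun := fun p => ⟨g⁻¹ • p.1, (hA _).1 (by rw [smul_inv_smul]; exact p.2)⟩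
      left_inv := fun p => Subtype.ext (inv_smul_smul g p.1)
      right_inv := fun p => Subtype.ext (smul_inv_smul g p.1) }
  refine (FG.Iso.b1 (JM.iso_of D.jm D'.jm φ n l ?_ ?_ ?_ ?_)).symm
  · intro j x
    apply Subtype.ext
    show g • j.1 • x.1 = (g * j.1 * g⁻¹) • g • x.1
    rw [← mul_smul, ← mul_smul]
    congr 1
    group
  · intro j x
    apply Subtype.ext
    show g • j.1 • x.1 = (g * j.1 * g⁻¹) • g • x.1
    rw [← mul_smul, ← mul_smul]
    congr 1
    group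
  · intro e
    rfl
  · intro e
    exact Subtype.ext (hsc e.1 e.2)

namespace Sys

variable {S : Sys H V}

theorem Je_conj {X : Type} [MulAction H X] (g : H) {w u : X} {j : H}
    (hj : j ∈ (Je w u : Subgroup H)) : g * j * g⁻¹ ∈ (Je (g • w) (g • u) : Subgroup H) := by
  refine ⟨?_, ?_⟩
  · show (g * j * g⁻¹) • g • w = g • w
    rw [mul_smul, inv_smul_smul, mul_smul, show j • w = w from hj.1]
  · show (g * j * g⁻¹) • g • u = g • u
    rw [mul_smul, inv_smul_smul, mul_smul, show j • u = u from hj.2]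

theorem Je_conj' {X : Type} [MulAction H X] (g : H) {w u : X} {j : H}
    (hj : j ∈ (Je (g • w) (g • u) : Subgroup H)) : g⁻¹ * j * g ∈ (Je w u : Subgroup H) := by
  have := Je_conj g⁻¹ hj
  rwa [inv_inv, inv_smul_smul, inv_smul_smul] at this

theorem Cs_smul_iff (g : H) {w u : S.X} {x : V} :
    S.Cs (g • w) (g • u) (g • x) ↔ S.Cs w u x :=
  and_congr (S.mem_smul_iff g x w) (S.mem_smul_iff g x u)

theorem LE_smul_iff (g : H) {w u : S.X} {p : V × V} :
    g • p ∈ S.LE (g • w) (g • u) ↔ p ∈ S.LE w u := by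
  refine ⟨fun h => ?_, fun h => LE_smul g h⟩
  have := LE_smul g⁻¹ h
  simpa only [inv_smul_smul] using this

theorem PE_smul (g : H) {w u : S.X} {x : V} (h : x ∈ S.PE w u) :
    g • x ∈ S.PE (g • w) (g • u) := by
  obtain ⟨h1, u1, n1, h2, h3⟩ := h
  exact ⟨h1.smul g, g • u1, fun e => n1 (smul_left_cancel _ e), S.D.adj_smul g _ _ h2,
    S.js.smul g _ _ h3⟩

theorem PE_smul_iff (g : H) {w u : S.X} {x : V} :
    g • x ∈ S.PE (g • w) (g • u) ↔ x ∈ S.PE w u := by
  refine ⟨fun h => ?_, fun h => PE_smul g h⟩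
  have := PE_smul g⁻¹ h
  simpa only [inv_smul_smul] using this

theorem LP_smul' (g : H) {w u : S.X} {p : V × V} (h : p ∈ S.LP w u) :
    g • p ∈ S.LP (g • w) (g • u) := by
  obtain ⟨h1, u1, n1, h2⟩ := h
  exact ⟨LE_smul g h1, g • u1, fun e => n1 (smul_left_cancel _ e), LE_smul g h2⟩

theorem LP_smul_iff (g : H) {w u : S.X} {p : V × V} :
    g • p ∈ S.LP (g • w) (g • u) ↔ p ∈ S.LP w u := by
  refine ⟨fun h => ?_, fun h => LP_smul' g h⟩
  have := LP_smul' g⁻¹ h
  simpa only [inv_smul_smul] using this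

theorem CP_smul' (g : H) {w u : S.X} {p : V × V} (h : p ∈ S.LP w u) :
    S.CP (g • w) (g • u) (g • p) = (fun x => g • x) '' S.CP w u p := by
  obtain ⟨h1, u1, n1, h2⟩ := h
  rw [CP_eq h1 n1 h2, CP_eq (LE_smul g h1) (fun e => n1 (smul_left_cancel g e)) (LE_smul g h2),
    Set.image_inter (MulAction.injective g), ← St_smul, ← St_smul]
  rfl

/-- the Betti number of the graph of an edge -/
theorem b1_GE_smul (g : H) {w u : S.X} (hu : S.D.G.Adj w u) (hu' : S.D.G.Adj (g • w) (g • u)) :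
    (S.GE hu').fg.b1 = (S.GE hu).fg.b1 :=
  LD.b1_smul (S.LDE hu) (S.LDE hu') g (fun _ => Je_conj g) (fun _ => Je_conj' g)
    (fun _ => Cs_smul_iff g) (fun _ => LE_smul_iff g) (fun p _ => St_smul g w u p.2 p.1)

/-- the Betti number of the passing part -/
theorem b1_GP_smul (g : H) {w u : S.X} (hu : S.D.G.Adj w u) (hu' : S.D.G.Adj (g • w) (g • u)) :
    (S.GP hu').fg.b1 = (S.GP hu).fg.b1 :=
  LD.b1_smul (S.LDP hu) (S.LDP hu') g (fun _ => Je_conj g) (fun _ => Je_conj' g)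
    (fun _ => PE_smul_iff g) (fun _ => LP_smul_iff g) (fun _ hp => CP_smul' g hp)

theorem b1_le_smul (g : H) {w u : S.X} (hu : S.D.G.Adj w u) (hu' : S.D.G.Adj (g • w) (g • u))
    (h : (S.GE hu).fg.b1 ≤ (S.GP hu).fg.b1) : (S.GE hu').fg.b1 ≤ (S.GP hu').fg.b1 := by
  rw [b1_GE_smul g hu hu', b1_GP_smul g hu hu']
  exact h

/-- the Betti number of `T_e / J_e` does not depend on the direction of the edge -/
theorem b1_GE_swap {w u : S.X} (hu : S.D.G.Adj w u) : (S.GE hu.symm).fg.b1 = (S.GE hu).fg.b1 :=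
  LD.b1_smul (S.LDE hu) (S.LDE hu.symm) 1 (fun j hj => by
      rw [one_mul, inv_one, mul_one]
      exact ⟨hj.2, hj.1⟩) (fun j hj => by
      rw [inv_one, one_mul, mul_one]
      exact ⟨hj.2, hj.1⟩)
    (fun x => by
      rw [one_smul]
      exact ⟨fun h => ⟨h.2, h.1⟩, fun h => ⟨h.2, h.1⟩⟩)
    (fun p => by
      rw [one_smul]
      show p ∈ S.LE u w ↔ p ∈ S.LE w u
      rw [LE_comm])
    (fun p _ => by
      show S.St u w ((1 : H) • p).2 ((1 : H) • p).1 = (fun x => (1 : H) • x) '' S.St w u p.2 p.1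
      simp only [one_smul, Set.image_id']
      exact St_comm u w p.2 p.1)

/-- the tree lemma, flags up to translation -/
theorem tree_lemma' (hb : ∀ w u : S.X, S.D.G.Adj w u → ∃ (g : H) (h : S.D.G.Adj (g • w) (g • u)),
    (S.GE h).fg.b1 ≤ (S.GP h).fg.b1) (w u : S.X) :
    QF ↥(Je w u : Subgroup H) (S.TE w u) := by
  apply tree_lemma
  intro w u hu
  obtain ⟨g, h, h1⟩ := hb w u hu
  rw [← b1_GE_smul g hu h, ← b1_GP_smul g hu h]
  exact h1

end Sys

end

end Pool.Agent.DI
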