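import Pool.Agent.DI.Z1

/-!
# Two involutions

`In.Ze i r`: the cycles `z` with `z (i e) = r * z e`; `finrank_Zp`, `finrank_Zpm`: the dimensions of the
two eigenspaces. `TW`: a graph `G` with an involution `i`, a graph `G'` with an involution `s` and a
morphism `G' → G` which is injective on the lines, a function `r` on the lines of `G` with
`r (i e) = - r e` and `r e' + r (s e') < 0`. `TW.le_p`, `TW.le_m`: `b1 G'` is at most twice the dimension
of each eigenspace of `i`; `TW.tree`: equality of the Betti numbers only for forests. With a functional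
`h` on the cycles of `G` which vanishes on the cycles of `G'`: `TW.neg_p`, `TW.neg_m` (`h (i z) = - h z`),
`TW.pos_p`, `TW.pos_m` (`h (i z) = h z`).
-/

namespace Pool.Agent.DI

namespace FG

theorem pr_sub {G : FG} (z z' g : G.L → ℚ) : G.pr (z - z') g = G.pr z g - G.pr z' g := by
  have := Fintype.ofFinite G.L
  rw [pr_eq, pr_eq, pr_eq, ← Finset.sum_sub_distrib]
  exact Finset.sum_congr rfl fun e _ => by rw [Pi.sub_apply, sub_mul]

namespace In

variable {G : FG} (i : G.In)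

/-- the involution on chains -/
def ch : (G.L → ℚ) →ₗ[ℚ] (G.L → ℚ) where
  toFun z e := z (i.l e)
  map_add' _ _ := rfl
  map_smul' _ _ := rfl

theorem ch_apply (z : G.L → ℚ) (e : G.L) : i.ch z e = z (i.l e) := rfl

theorem ch_ch (z : G.L → ℚ) : i.ch (i.ch z) = z := by
  funext e
  rw [ch_apply, ch_apply, i.ll]

/-- the involution as a permutation of the lines -/
def pl' : G.L ≃ G.L := ⟨i.l, i.l, i.ll, i.ll⟩

theorem ch_mem {z : G.L → ℚ} (hz : z ∈ G.Z1) : i.ch z ∈ G.Z1 := by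
  intro f
  have := Fintype.ofFinite G.L
  have h := hz (fun x => f (i.n x))
  rw [pr_eq] at h ⊢
  rw [← h]
  refine Fintype.sum_equiv i.pl' _ _ fun e => ?_
  show z (i.l e) * (f (G.b e) - f (G.a e)) =
    z (i.l e) * (f (i.n (G.b (i.l e))) - f (i.n (G.a (i.l e))))
  rw [i.ha, i.hb, i.nn, i.nn]

/-- the cycles which are multiplied with `r` -/
noncomputable def Ze (r : ℚ) : Submodule ℚ (G.L → ℚ) where
  carrier := {z | z ∈ G.Z1 ∧ ∀ e, z (i.l e) = r * z e}
  add_mem' := by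
    rintro z z' ⟨h, k⟩ ⟨h', k'⟩
    refine ⟨G.Z1.add_mem h h', fun e => ?_⟩
    rw [Pi.add_apply, Pi.add_apply, k, k', mul_add]
  zero_mem' := ⟨G.Z1.zero_mem, fun e => by rw [Pi.zero_apply, Pi.zero_apply, mul_zero]⟩
  smul_mem' := by
    rintro c z ⟨h, k⟩
    refine ⟨G.Z1.smul_mem c h, fun e => ?_⟩
    rw [Pi.smul_apply, Pi.smul_apply, k, smul_eq_mul, smul_eq_mul]
    ring

theorem mem_Ze {r : ℚ} {z : G.L → ℚ} : z ∈ i.Ze r ↔ z ∈ G.Z1 ∧ ∀ e, z (i.l e) = r * z e := Iff.rfl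

theorem Ze_le (r : ℚ) : i.Ze r ≤ G.Z1 := fun _ h => h.1

theorem Ze_disj : i.Ze 1 ⊓ i.Ze (-1) = ⊥ := by
  rw [eq_bot_iff]
  rintro z ⟨h1, h2⟩
  rw [Submodule.mem_bot]
  funext e
  have k1 := h1.2 e
  have k2 := h2.2 e
  rw [Pi.zero_apply]
  linarith

/-- a subspace of the cycles which is kept by the involution splits -/
theorem Ze_split {W : Submodule ℚ (G.L → ℚ)} (hW : W ≤ G.Z1) (hi : ∀ z ∈ W, i.ch z ∈ W) :
    Module.finrank ℚ ↥(W ⊓ i.Ze 1) + Module.finrank ℚ ↥(W ⊓ i.Ze (-1)) = Module.finrank ℚ W := by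
  have h1 : (W ⊓ i.Ze 1) ⊓ (W ⊓ i.Ze (-1)) = ⊥ := by
    rw [eq_bot_iff, ← i.Ze_disj]
    exact inf_le_inf inf_le_right inf_le_right
  have h2 : (W ⊓ i.Ze 1) ⊔ (W ⊓ i.Ze (-1)) = W := by
    apply le_antisymm (sup_le inf_le_left inf_le_left)
    intro z hz
    have hz' := hi z hz
    rw [Submodule.mem_sup]
    refine ⟨(1 / 2 : ℚ) • (z + i.ch z), ⟨W.smul_mem _ (W.add_mem hz hz'),
      G.Z1.smul_mem _ (G.Z1.add_mem (hW hz) (i.ch_mem (hW hz))), fun e => ?_⟩,
      (1 / 2 : ℚ) • (z - i.ch z), ⟨W.smul_mem _ (W.sub_mem hz hz'),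
      G.Z1.smul_mem _ (G.Z1.sub_mem (hW hz) (i.ch_mem (hW hz))), fun e => ?_⟩, ?_⟩
    · show (1 / 2 : ℚ) * (z (i.l e) + z (i.l (i.l e))) = 1 * ((1 / 2 : ℚ) * (z e + z (i.l e)))
      rw [i.ll]
      ring
    · show (1 / 2 : ℚ) * (z (i.l e) - z (i.l (i.l e))) = -1 * ((1 / 2 : ℚ) * (z e - z (i.l e)))
      rw [i.ll]
      ring
    · funext e
      show (1 / 2 : ℚ) * (z e + z (i.l e)) + (1 / 2 : ℚ) * (z e - z (i.l e)) = z e
      ring
  have h3 := Submodule.finrank_sup_add_finrank_inf_eq (W ⊓ i.Ze 1) (W ⊓ i.Ze (-1))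
  rw [h1, h2, finrank_bot, add_zero] at h3
  exact h3.symm

theorem finrank_Zpm :
    (Module.finrank ℚ ↥(i.Ze 1) : ℤ) + Module.finrank ℚ ↥(i.Ze (-1)) = G.b1 := by
  have h := i.Ze_split (le_refl G.Z1) (fun z hz => i.ch_mem hz)
  rw [inf_eq_right.2 (i.Ze_le 1), inf_eq_right.2 (i.Ze_le (-1))] at h
  rw [← G.finrank_Z1, ← h]
  push_cast
  rfl

open Classical in
/-- two over the number of lines of an orbit -/
noncomputable def mu (e : G.L) : ℚ := if i.l e = e then 2 else 1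

theorem mu_l (e : G.L) : i.mu (i.l e) = i.mu e := by
  by_cases h : i.l e = e
  · rw [h]
  · unfold mu
    rw [if_neg h, if_neg]
    rw [i.ll]
    exact fun k => h k.symm

theorem mu_pos (e : G.L) : 0 < i.mu e := by
  unfold mu
  split_ifs <;> norm_num

open Classical in
theorem sum_mu [Fintype G.L] [Fintype i.quo.L] (f : i.quo.L → ℚ) :
    ∑ e, i.mu e * f (i.pl e) = 2 * ∑ E, f E := by
  rw [← Finset.sum_fiberwise Finset.univ i.pl, Finset.mul_sum]
  refine Finset.sum_congr rfl fun E _ => ?_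
  have h1 : ∑ e ∈ Finset.univ.filter (fun e => i.pl e = E), i.mu e * f (i.pl e) =
      (∑ e ∈ Finset.univ.filter (fun e => i.pl e = E), i.mu e) * f E := by
    rw [Finset.sum_mul]
    refine Finset.sum_congr rfl fun e he => ?_
    rw [(Finset.mem_filter.1 he).2]
  rw [h1]
  congr 1
  obtain ⟨e, rfl⟩ := i.pl_surj E
  by_cases h : i.l e = e
  · rw [Finset.sum_eq_single e]
    · unfold mu
      rw [if_pos h]
    · intro e' he' hne
      have := (i.pl_iff.1 (Finset.mem_filter.1 he').2.symm)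
      rw [h, or_self] at this
      exact absurd this hne
    · intro hn
      exact absurd ((Finset.mem_filter (s := Finset.univ) (p := fun e' => i.pl e' = i.pl e)).2
        ⟨Finset.mem_univ e, rfl⟩) hn
  · have h2 : Finset.univ.filter (fun e' => i.pl e' = i.pl e) = {e, i.l e} := by
      ext e'
      rw [Finset.mem_filter, Finset.mem_insert, Finset.mem_singleton]
      constructor
      · rintro ⟨-, h3⟩
        exact i.pl_iff.1 h3.symm
      · intro h3
        exact ⟨Finset.mem_univ _, (i.pl_iff.2 h3).symm⟩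
    rw [h2, Finset.sum_pair (fun k => h k.symm), i.mu_l]
    unfold mu
    rw [if_neg h]
    norm_num

/-- the pairing with a chain from the quotient -/
theorem pr_pull (w : i.quo.L → ℚ) (g : G.L → ℚ) (g' : i.quo.L → ℚ)
    (hg : ∀ e, g e + g (i.l e) = g' (i.pl e)) :
    G.pr (fun e => i.mu e * w (i.pl e)) g = i.quo.pr w g' := by
  have := Fintype.ofFinite G.L
  have := Fintype.ofFinite i.quo.L
  rw [pr_eq, pr_eq]
  have h1 : ∑ e, i.mu e * w (i.pl e) * g e = ∑ e, i.mu e * w (i.pl e) * g (i.l e) := by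
    refine Fintype.sum_equiv i.pl' _ _ fun e => ?_
    show _ = i.mu (i.l e) * w (i.pl (i.l e)) * g (i.l (i.l e))
    rw [i.mu_l, i.pl_l, i.ll]
  have h2 : 2 * ∑ e, i.mu e * w (i.pl e) * g e = 2 * ∑ E, w E * g' E := by
    rw [← i.sum_mu (fun E => w E * g' E), two_mul]
    nth_rw 2 [h1]
    rw [← Finset.sum_add_distrib]
    refine Finset.sum_congr rfl fun e _ => ?_
    rw [← hg]
    ring
  linarith

/-- the values of a cycle on the quotient -/
noncomputable def down (z : G.L → ℚ) (hz : ∀ e, z (i.l e) = 1 * z e) : i.quo.L → ℚ :=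
  Quotient.lift (fun e => z e / i.mu e) (by
    rintro e e' (h | h)
    · rw [h]
    · rw [h, i.mu_l, hz, one_mul])

theorem down_pl (z : G.L → ℚ) (hz : ∀ e, z (i.l e) = 1 * z e) (e : G.L) :
    i.down z hz (i.pl e) = z e / i.mu e := rfl

theorem mu_down (z : G.L → ℚ) (hz : ∀ e, z (i.l e) = 1 * z e) (e : G.L) :
    i.mu e * i.down z hz (i.pl e) = z e := by
  rw [down_pl, mul_div_cancel₀ _ (ne_of_gt (i.mu_pos e))]

/-- the fixed cycles are the cycles of the quotient -/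
noncomputable def ZeEquiv : ↥(i.Ze 1) ≃ₗ[ℚ] ↥i.quo.Z1 where
  toFun z := ⟨i.down z.1 z.2.2, by
    intro F
    have h := z.2.1 (fun x => F (i.pn x))
    have h2 := i.pr_pull (i.down z.1 z.2.2) (G.dq (fun x => F (i.pn x)))
      (fun E => 2 * i.quo.dq F E) (by
        intro e
        show F (i.pn (G.b e)) - F (i.pn (G.a e)) + (F (i.pn (G.b (i.l e))) - F (i.pn (G.a (i.l e)))) =
          2 * (F (i.quo.b (i.pl e)) - F (i.quo.a (i.pl e)))
        rw [i.hb, i.ha, i.pn_n, i.pn_n, i.quo_a, i.quo_b]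
        ring)
    have h3 : (fun e => i.mu e * i.down z.1 z.2.2 (i.pl e)) = z.1 := by
      funext e
      exact i.mu_down z.1 z.2.2 e
    rw [h3, h] at h2
    have := Fintype.ofFinite i.quo.L
    rw [pr_eq] at h2 ⊢
    have h4 : ∑ E, i.down z.1 z.2.2 E * (2 * i.quo.dq F E) =
        2 * ∑ E, i.down z.1 z.2.2 E * i.quo.dq F E := by
      rw [Finset.mul_sum]
      exact Finset.sum_congr rfl fun E _ => by ring
    rw [h4] at h2
    linarith⟩
  invFun w := ⟨fun e => i.mu e * w.1 (i.pl e), by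
    constructor
    · intro f
      have h := i.pr_pull w.1 (G.dq f) (i.quo.dq
        (Quotient.lift (fun x => f x + f (i.n x)) (by
          rintro x y (h | h)
          · rw [h]
          · rw [h, i.nn, add_comm]))) (by
        intro e
        show f (G.b e) - f (G.a e) + (f (G.b (i.l e)) - f (G.a (i.l e))) =
          f (G.b e) + f (i.n (G.b e)) - (f (G.a e) + f (i.n (G.a e)))
        rw [i.hb, i.ha]
        ring)
      rw [h]
      exact w.2 _
    · intro e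
      show i.mu (i.l e) * w.1 (i.pl (i.l e)) = 1 * (i.mu e * w.1 (i.pl e))
      rw [i.mu_l, i.pl_l, one_mul]⟩
  left_inv z := by
    apply Subtype.ext
    funext e
    exact i.mu_down z.1 z.2.2 e
  right_inv w := by
    apply Subtype.ext
    funext E
    obtain ⟨e, rfl⟩ := i.pl_surj E
    show i.mu e * w.1 (i.pl e) / i.mu e = w.1 (i.pl e)
    rw [mul_div_cancel_left₀ _ (ne_of_gt (i.mu_pos e))]
  map_add' z z' := by
    apply Subtype.ext
    funext E
    obtain ⟨e, rfl⟩ := i.pl_surj E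
    show (z.1 e + z'.1 e) / i.mu e = z.1 e / i.mu e + z'.1 e / i.mu e
    rw [add_div]
  map_smul' c z := by
    apply Subtype.ext
    funext E
    obtain ⟨e, rfl⟩ := i.pl_surj E
    show c * z.1 e / i.mu e = c * (z.1 e / i.mu e)
    rw [mul_div_assoc]

/-- the dimension of the fixed cycles -/
theorem finrank_Zp : (Module.finrank ℚ ↥(i.Ze 1) : ℤ) = i.quo.b1 := by
  rw [LinearEquiv.finrank_eq i.ZeEquiv, finrank_Z1]

/-- the dimension of the reversed cycles -/
theorem finrank_Zm : (Module.finrank ℚ ↥(i.Ze (-1)) : ℤ) = G.b1 - i.quo.b1 := by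
  have h1 := i.finrank_Zpm
  have h2 := i.finrank_Zp
  omega

theorem quo_b1_le : i.quo.b1 ≤ G.b1 := by
  have h1 := i.finrank_Zm
  omega

end In

end FG

open FG

/-- two involutions -/
structure TW (G G' : FG) where
  m : FG.Mor G' G
  hl : Function.Injective m.l
  i : G.In
  s : G'.In
  r : G.L → ℤ
  ri : ∀ e, r (i.l e) = - r e
  rs : ∀ e, r (m.l e) + r (m.l (s.l e)) < 0

namespace TW

variable {G G' : FG} (t : TW G G')

/-- no set of lines is kept by both involutions -/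
theorem no_set (A : Set G'.L) (hs : ∀ e ∈ A, t.s.l e ∈ A)
    (hi : ∀ e ∈ A, ∃ e' ∈ A, t.m.l e' = t.i.l (t.m.l e)) : A = ∅ := by
  classical
  have := Fintype.ofFinite G'.L
  have := Fintype.ofFinite G.L
  by_contra hne
  obtain ⟨e0, he0⟩ := Set.nonempty_iff_ne_empty.2 hne
  let F : Finset G'.L := Finset.univ.filter (fun e => e ∈ A)
  have hF : ∀ e, e ∈ F ↔ e ∈ A := fun e => by
    rw [Finset.mem_filter]
    exact ⟨fun h => h.2, fun h => ⟨Finset.mem_univ _, h⟩⟩
  have h1 : ∑ e ∈ F, t.r (t.m.l e) = ∑ e ∈ F, t.r (t.m.l (t.s.l e)) := by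
    refine Finset.sum_bij' (fun e _ => t.s.l e) (fun e _ => t.s.l e) ?_ ?_ ?_ ?_ ?_
    · intro e he
      exact (hF _).2 (hs e ((hF _).1 he))
    · intro e he
      exact (hF _).2 (hs e ((hF _).1 he))
    · intro e _
      exact t.s.ll e
    · intro e _
      exact t.s.ll e
    · intro e _
      rw [t.s.ll]
  have h2 : ∑ e ∈ F, (t.r (t.m.l e) + t.r (t.m.l (t.s.l e))) < 0 := by
    apply Finset.sum_neg
    · intro e _
      exact t.rs e
    · exact ⟨e0, (hF _).2 he0⟩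
  rw [Finset.sum_add_distrib, ← h1] at h2
  -- the sum over the image
  choose! j hj1 hj2 using hi
  have hjj : ∀ e ∈ A, j (j e) = e := by
    intro e he
    apply t.hl
    rw [hj2 _ (hj1 e he), hj2 e he, t.i.ll]
  have h3 : ∑ e ∈ F, t.r (t.m.l e) = ∑ e ∈ F, t.r (t.i.l (t.m.l e)) := by
    refine Finset.sum_bij' (fun e _ => j e) (fun e _ => j e) ?_ ?_ ?_ ?_ ?_
    · intro e he
      exact (hF _).2 (hj1 e ((hF _).1 he))
    · intro e he
      exact (hF _).2 (hj1 e ((hF _).1 he))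
    · intro e he
      exact hjj e ((hF _).1 he)
    · intro e he
      exact hjj e ((hF _).1 he)
    · intro e he
      show t.r (t.m.l e) = t.r (t.i.l (t.m.l (j e)))
      rw [hj2 e ((hF _).1 he), t.i.ll]
  have h4 : ∑ e ∈ F, t.r (t.i.l (t.m.l e)) = - ∑ e ∈ F, t.r (t.m.l e) := by
    rw [← Finset.sum_neg_distrib]
    exact Finset.sum_congr rfl fun e _ => t.ri _
  rw [h4] at h3
  omega

/-- common eigenvectors vanish -/
theorem no_vec {ε δ : ℚ} (hε : ε ≠ 0) (hδ : δ ≠ 0) {z : G'.L → ℚ} (h1 : ∀ e, z (t.s.l e) = ε * z e)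
    (h2 : ∀ e, t.m.push z (t.i.l e) = δ * t.m.push z e) : z = 0 := by
  have h := t.no_set {e | z e ≠ 0} (by
    intro e he
    show z (t.s.l e) ≠ 0
    rw [h1]
    exact mul_ne_zero hε he) (by
    intro e he
    by_contra hno
    push Not at hno
    have h3 : t.m.push z (t.i.l (t.m.l e)) ≠ 0 := by
      rw [h2, t.m.push_apply t.hl]
      exact mul_ne_zero hδ he
    apply h3
    by_cases hex : ∃ e', t.m.l e' = t.i.l (t.m.l e)
    · obtain ⟨e', he'⟩ := hex
      rw [← he', t.m.push_apply t.hl]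
      by_contra h4
      exact hno e' h4 he'
    · push Not at hex
      exact t.m.push_zero z _ hex)
  funext e
  by_contra hne
  have : e ∈ ({e | z e ≠ 0} : Set G'.L) := hne
  rw [h] at this
  exact this

theorem push_inj : Function.Injective t.m.push := by
  intro z z' h
  funext e
  rw [← t.m.push_apply t.hl z e, h, t.m.push_apply t.hl]

/-- the basic inequality in a subspace which contains the cycles of `G'` -/
theorem add_le {ε δ : ℚ} (hε : ε ≠ 0) (hδ : δ ≠ 0) {W : Submodule ℚ (G.L → ℚ)}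
    (hW : ∀ z ∈ G'.Z1, t.m.push z ∈ W) :
    Module.finrank ℚ ↥(t.s.Ze ε) + Module.finrank ℚ ↥(W ⊓ t.i.Ze δ) ≤ Module.finrank ℚ ↥W := by
  have h1 : Module.finrank ℚ ↥((t.s.Ze ε).map t.m.push) = Module.finrank ℚ ↥(t.s.Ze ε) :=
    (LinearEquiv.finrank_eq (Submodule.equivMapOfInjective t.m.push t.push_inj (t.s.Ze ε))).symm
  have h2 : (t.s.Ze ε).map t.m.push ⊓ (W ⊓ t.i.Ze δ) = ⊥ := by
    rw [eq_bot_iff]
    rintro _ ⟨⟨z, hz, rfl⟩, -, h4⟩
    rw [Submodule.mem_bot, t.no_vec hε hδ hz.2 h4.2, map_zero]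
  have h3 := Submodule.finrank_sup_add_finrank_inf_eq ((t.s.Ze ε).map t.m.push) (W ⊓ t.i.Ze δ)
  rw [h2, finrank_bot, add_zero, h1] at h3
  rw [← h3]
  apply Submodule.finrank_mono
  apply sup_le _ inf_le_left
  rintro _ ⟨z, hz, rfl⟩
  exact hW z hz.1

/-- `G'` has at most twice as many cycles as `G` has fixed cycles -/
theorem le_p : G'.b1 ≤ 2 * t.i.quo.b1 := by
  have hW : ∀ z ∈ G'.Z1, t.m.push z ∈ G.Z1 := fun z hz => t.m.push_mem hz
  have h1 := t.add_le one_ne_zero (neg_ne_zero.2 (one_ne_zero (α := ℚ))) hW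
  have h2 := t.add_le (neg_ne_zero.2 (one_ne_zero (α := ℚ)))
    (neg_ne_zero.2 (one_ne_zero (α := ℚ))) hW
  rw [inf_eq_right.2 (t.i.Ze_le (-1))] at h1 h2
  have h3 := t.i.finrank_Zm
  have h4 := t.s.finrank_Zpm
  have h5 := G.finrank_Z1
  omega

/-- `G'` has at most twice as many cycles as `G` has reversed cycles -/
theorem le_m : G'.b1 ≤ 2 * (G.b1 - t.i.quo.b1) := by
  have hW : ∀ z ∈ G'.Z1, t.m.push z ∈ G.Z1 := fun z hz => t.m.push_mem hz
  have h1 := t.add_le one_ne_zero (one_ne_zero (α := ℚ)) hW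
  have h2 := t.add_le (neg_ne_zero.2 (one_ne_zero (α := ℚ))) (one_ne_zero (α := ℚ)) hW
  rw [inf_eq_right.2 (t.i.Ze_le 1)] at h1 h2
  have h3 := t.i.finrank_Zp
  have h4 := t.s.finrank_Zpm
  have h5 := G.finrank_Z1
  omega

/-- the two inequalities with the Euler characteristic of the fixed graph -/
theorem chi (h : G.Cn) : G'.b1 + 1 - (t.i.fix.nN - t.i.fix.nL) ≤ G.b1 ∧
    G'.b1 + (t.i.fix.nN - t.i.fix.nL) - 1 ≤ G.b1 := by
  have h1 := t.le_p
  have h2 := t.le_m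
  have h3 := t.i.lef_cn h
  omega

/-- equality of the Betti numbers only for forests -/
theorem tree (t : TW G G') (h : G.b1 ≤ G'.b1) : G.b1 = 0 := by
  rw [← Z1_eq_bot_iff]
  have h1 := t.no_set {e | ∃ z ∈ G'.Z1, z e ≠ 0} (by
    rintro e ⟨z, hz, he⟩
    refine ⟨t.s.ch z, t.s.ch_mem hz, ?_⟩
    rw [In.ch_apply, t.s.ll]
    exact he) (by
    rintro e ⟨z, hz, he⟩
    have h2 : t.i.ch (t.m.push z) (t.i.l (t.m.l e)) ≠ 0 := by
      rw [In.ch_apply, t.i.ll, t.m.push_apply t.hl]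
      exact he
    obtain ⟨z', hz', e1⟩ := t.m.onto t.hl h (t.i.ch_mem (t.m.push_mem hz))
    rw [← e1] at h2
    have h3 : ∃ e', t.m.l e' = t.i.l (t.m.l e) := by
      by_contra hno
      push Not at hno
      exact h2 (t.m.push_zero z' _ hno)
    obtain ⟨e', he'⟩ := h3
    refine ⟨e', ⟨z', hz', ?_⟩, he'⟩
    rw [← he', t.m.push_apply t.hl] at h2
    exact h2)
  rw [eq_bot_iff]
  intro z hz
  obtain ⟨z', hz', rfl⟩ := t.m.onto t.hl h hz
  rw [Submodule.mem_bot]
  have h2 : z' = 0 := by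
    funext e
    by_contra he
    have : e ∈ ({e | ∃ z ∈ G'.Z1, z e ≠ 0} : Set G'.L) := ⟨z', hz', he⟩
    rw [h1] at this
    exact this
  rw [h2, map_zero]

/-! ### a functional on the cycles -/

/-- the kernel of a functional which does not vanish -/
theorem finrank_ker {M : Type} [AddCommGroup M] [Module ℚ M] [FiniteDimensional ℚ M]
    (Z : Submodule ℚ M) (h : M →ₗ[ℚ] ℚ) {z0 : M} (hz0 : z0 ∈ Z) (h0 : h z0 ≠ 0) :
    Module.finrank ℚ ↥(Z ⊓ LinearMap.ker h) + 1 = Module.finrank ℚ ↥Z := by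
  have h1 := LinearMap.finrank_range_add_finrank_ker (h.domRestrict Z)
  have h2 : LinearMap.range (h.domRestrict Z) = ⊤ := by
    rw [LinearMap.range_eq_top]
    intro c
    refine ⟨(c / h z0) • ⟨z0, hz0⟩, ?_⟩
    rw [map_smul, LinearMap.domRestrict_apply, smul_eq_mul, div_mul_cancel₀ _ h0]
  rw [h2, finrank_top, Module.finrank_self] at h1
  have h3 : Module.finrank ℚ ↥(LinearMap.ker (h.domRestrict Z)) =
      Module.finrank ℚ ↥(Z ⊓ LinearMap.ker h) := by
    have e := Submodule.equivMapOfInjective Z.subtype Z.injective_subtype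
      (LinearMap.ker (h.domRestrict Z))
    have this' : (LinearMap.ker (h.domRestrict Z)).map Z.subtype = Z ⊓ LinearMap.ker h := by
      ext z
      constructor
      · rintro ⟨⟨z, hz⟩, hk, rfl⟩
        exact ⟨hz, hk⟩
      · rintro ⟨hz, hk⟩
        exact ⟨⟨z, hz⟩, hk, rfl⟩
    rw [LinearEquiv.finrank_eq e, this']
  omega

section

variable (h : (G.L → ℚ) →ₗ[ℚ] ℚ) (h' : ∀ z ∈ G'.Z1, h (t.m.push z) = 0) {z0 : G.L → ℚ}
  (hz0 : z0 ∈ G.Z1) (h0 : h z0 ≠ 0)

include h' hz0 h0 in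
/-- the two inequalities in the kernel -/
theorem ker_le {ε δ : ℚ} (hε : ε ≠ 0) (hδ : δ ≠ 0) :
    Module.finrank ℚ ↥(t.s.Ze ε) + Module.finrank ℚ ↥((G.Z1 ⊓ LinearMap.ker h) ⊓ t.i.Ze δ) + 1 ≤
      Module.finrank ℚ ↥G.Z1 := by
  have h1 := t.add_le hε hδ (W := G.Z1 ⊓ LinearMap.ker h)
    (fun z hz => ⟨t.m.push_mem hz, h' z hz⟩)
  have h2 := finrank_ker G.Z1 h hz0 h0
  omega

include hz0 h0 in
theorem ker_split (hi : ∀ z ∈ G.Z1, h z = 0 → h (t.i.ch z) = 0) :
    Module.finrank ℚ ↥((G.Z1 ⊓ LinearMap.ker h) ⊓ t.i.Ze 1) +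
      Module.finrank ℚ ↥((G.Z1 ⊓ LinearMap.ker h) ⊓ t.i.Ze (-1)) + 1 =
      Module.finrank ℚ ↥G.Z1 := by
  have h1 := t.i.Ze_split (W := G.Z1 ⊓ LinearMap.ker h) inf_le_left
    (fun z hz => ⟨t.i.ch_mem hz.1, hi z hz.1 hz.2⟩)
  have h2 := finrank_ker G.Z1 h hz0 h0
  omega

include h' hz0 h0 in
/-- the involution changes the sign of the functional -/
theorem neg (hi : ∀ z ∈ G.Z1, h (t.i.ch z) = - h z) :
    G'.b1 ≤ 2 * t.i.quo.b1 ∧ G'.b1 + 2 ≤ 2 * (G.b1 - t.i.quo.b1) := by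
  have h1 : (G.Z1 ⊓ LinearMap.ker h) ⊓ t.i.Ze 1 = t.i.Ze 1 := by
    apply inf_eq_right.2
    intro z hz
    refine ⟨hz.1, ?_⟩
    have h2 := hi z hz.1
    have h3 : t.i.ch z = z := by
      funext e
      rw [In.ch_apply, hz.2, one_mul]
    rw [h3] at h2
    show h z = 0
    linarith
  have s := t.ker_split h hz0 h0 (fun z hz h5 => by rw [hi z hz, h5, neg_zero])
  have n1 : (-1 : ℚ) ≠ 0 := by norm_num
  have a1 := t.ker_le h h' hz0 h0 (ε := 1) (δ := 1) one_ne_zero one_ne_zero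
  have a2 := t.ker_le h h' hz0 h0 (ε := 1) (δ := -1) one_ne_zero n1
  have a3 := t.ker_le h h' hz0 h0 (ε := -1) (δ := 1) n1 one_ne_zero
  have a4 := t.ker_le h h' hz0 h0 (ε := -1) (δ := -1) n1 n1
  rw [h1] at s a1 a3
  have h3 := t.i.finrank_Zp
  have h4 := t.s.finrank_Zpm
  have h5 := G.finrank_Z1
  omega

include h' hz0 h0 in
/-- the involution keeps the functional -/
theorem pos (hi : ∀ z ∈ G.Z1, h (t.i.ch z) = h z) :
    G'.b1 + 2 ≤ 2 * t.i.quo.b1 ∧ G'.b1 ≤ 2 * (G.b1 - t.i.quo.b1) := by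
  have h1 : (G.Z1 ⊓ LinearMap.ker h) ⊓ t.i.Ze (-1) = t.i.Ze (-1) := by
    apply inf_eq_right.2
    intro z hz
    refine ⟨hz.1, ?_⟩
    have h2 := hi z hz.1
    have h3 : t.i.ch z = -z := by
      funext e
      rw [In.ch_apply, hz.2, neg_one_mul]
      rfl
    rw [h3, map_neg] at h2
    show h z = 0
    linarith
  have s := t.ker_split h hz0 h0 (fun z hz h5 => by rw [hi z hz, h5])
  have n1 : (-1 : ℚ) ≠ 0 := by norm_num
  have a1 := t.ker_le h h' hz0 h0 (ε := 1) (δ := 1) one_ne_zero one_ne_zero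
  have a2 := t.ker_le h h' hz0 h0 (ε := 1) (δ := -1) one_ne_zero n1
  have a3 := t.ker_le h h' hz0 h0 (ε := -1) (δ := 1) n1 one_ne_zero
  have a4 := t.ker_le h h' hz0 h0 (ε := -1) (δ := -1) n1 n1
  rw [h1] at s a2 a4
  have h3 := t.i.finrank_Zm
  have h4 := t.s.finrank_Zpm
  have h5 := G.finrank_Z1
  omega

include h' hz0 h0 in
/-- the case of a changed sign, with the Euler characteristic of the fixed graph -/
theorem neg_chi (hG : G.Cn) (hi : ∀ z ∈ G.Z1, h (t.i.ch z) = - h z) :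
    G'.b1 + 3 - (t.i.fix.nN - t.i.fix.nL) ≤ G.b1 ∧
      G'.b1 + (t.i.fix.nN - t.i.fix.nL) - 1 ≤ G.b1 := by
  obtain ⟨h1, h2⟩ := t.neg h h' hz0 h0 hi
  have h3 := t.i.lef_cn hG
  omega

include h' hz0 h0 in
/-- the case of the same sign, with the Euler characteristic of the fixed graph -/
theorem pos_chi (hG : G.Cn) (hi : ∀ z ∈ G.Z1, h (t.i.ch z) = h z) :
    G'.b1 + 1 - (t.i.fix.nN - t.i.fix.nL) ≤ G.b1 ∧
      G'.b1 + 1 + (t.i.fix.nN - t.i.fix.nL) ≤ G.b1 := by
  obtain ⟨h1, h2⟩ := t.pos h h' hz0 h0 hi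
  have h3 := t.i.lef_cn hG
  omega

end

end TW

end Pool.Agent.DI
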