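import Pool.Agent.DI.TallB
import Pool.Agent.DI.PmTo

/-!
# DI/Tall: a thin top which carries a fat tower

`P.TCf D T0 b0 T1 c`: `T0` is a top over the hub `D.v` with partner `D.a`, `T1` a top with the sides `T0` and `c`
in `D.R` and the hub as partner. `PmH.tall0`: if `T1` has two strands then `2 ≤ P.Phi D`. `PmH.tallN`: the same
if a member `T` of a tower over `T1` has two strands and the walk of `T` does not separate at the hub.
-/

namespace Pool.Agent.DI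

open MulAction
open Pool.Agent.SAF (InC orbs FinOrb oc)

/-- THE CONFIGURATION at the hub -/
structure P45.TCf {H V : Type} [Group H] [MulAction H V] {K : GX H V} (P : P45 K) (D : CuD K)
    (T0 b0 T1 c : V) : Prop where
  hT : T0 ∈ D.R
  ht : P.TopR T0 D.v b0 D.a
  h1 : P.TopR T1 T0 c D.v
  hc : c ∈ D.R
  np : ∀ h : H, h • T0 ∈ D.R → h • b0 = D.v → h • D.a = D.a

theorem P45.TCf.fold {H V : Type} [Group H] [MulAction H V] {K : GX H V} {P : P45 K} {D : CuD K}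
    {T0 b0 T1 c : V} (h : P.TCf D T0 b0 T1 c) (D1 : Sq1 K) (hB : ∀ i, D1.toF.Bt i ↔ P.own D1.T i)
    (hr : K.rk T1 < K.rk D1.T) (hv : K.rk D.v < K.rk D1.T) :
    (D1.flat.P45 P).TCf (D.side D1 hv) (D1.toF.F T0) (D1.toF.F b0) (D1.toF.F T1) (D1.toF.F c) := by
  have r1 : K.rk T0 < K.rk T1 := K.ar_rk _ _ h.h1.1.2.1
  have rc1 : K.rk c < K.rk T1 := K.ar_rk _ _ h.h1.1.2.2
  have rb : K.rk b0 < K.rk T0 := K.ar_rk _ _ h.ht.1.2.2
  have n1 : ∀ g : H, T1 ≠ g • D1.T := D1.nO_of_gt hr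
  have n0 : ∀ g : H, T0 ≠ g • D1.T := D1.nO_of_gt (r1.trans hr)
  have nc : ∀ g : H, c ≠ g • D1.T := D1.nO_of_gt (rc1.trans hr)
  have nb0 : ∀ g : H, b0 ≠ g • D1.T := D1.nO_of_gt (rb.trans (r1.trans hr))
  have nv : ∀ g : H, D.v ≠ g • D1.T := D1.nO_of_gt hv
  refine ⟨?_, P45.tall_img D1 hB h.ht n0, P45.tall_img D1 hB h.h1 n1, ?_, ?_⟩
  · show D1.toF.f T0 ∈ D.R
    rw [D1.f_not n0]
    exact h.hT
  · show D1.toF.f c ∈ D.R
    rw [D1.f_not nc]
    exact h.hc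
  · intro g e1 e2
    have k0 : g • T0 ∈ D.R := by
      have e3 : g • D1.toF.f T0 ∈ D.R := e1
      rwa [D1.f_not n0] at e3
    have k1 : g • b0 = D.v := by
      have e3 : g • D1.toF.f b0 = D1.toF.f D.v := congrArg Subtype.val e2
      rwa [D1.f_not nb0, D1.f_not nv] at e3
    show g • D1.toF.F D.a = D1.toF.F D.a
    rw [← D1.toF.F_smul, h.np g k0 k1]

variable {H : Type} [Group H]

namespace PmH

variable (X : PmH H)

include X

/-- THE LAST STEP: `T1` has two strands -/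
theorem tall0 {V : Type} [MulAction H V] {K : GX H V} {P : P45 K} (hC : P.Cl) (hm : K.Min)
    (D : CuD K) {T0 b0 T1 c : V} (hT : T0 ∈ D.R) (ht : P.TopR T0 D.v b0 D.a)
    (h1 : P.TopR T1 T0 c D.v) (hc : c ∈ D.R)
    (np : ∀ h : H, h • T0 ∈ D.R → h • b0 = D.v → h • D.a = D.a) (h4 : 4 ≤ P.XW T1 T0) :
    2 ≤ P.Phi D := by
  have r0 : K.rk D.v < K.rk T0 := K.ar_rk _ _ (D.R_ar _ hT)
  have rc : K.rk D.v < K.rk c := K.ar_rk _ _ (D.R_ar _ hc)
  have r1 : K.rk T0 < K.rk T1 := K.ar_rk _ _ h1.1.2.1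
  have ra := D.ra
  have rb : K.rk b0 < K.rk T0 := K.ar_rk _ _ ht.1.2.2
  have hP : D.Pt1 (hC.s1 h1) := ⟨rfl, fun p hp => by
    rcases hC.sides h1 hp with rfl | rfl
    · exact Or.inl hT
    · exact Or.inl hc, ⟨T0, h1.1.2.1, hT⟩⟩
  have h3 := X.part hC hm D (hC.s1 h1) hP h1
  have na : ¬ K.ar (hC.s1 h1).T D.a := by
    intro ha
    rcases hC.sides h1 ha with e | e
    · rw [e] at ra
      omega
    · rw [e] at ra
      omega
  rw [h3.2 na]
  have hC' := X.fold hC hm (hC.s1 h1) _ _ h1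
  have hB := X.bt hC hm (hC.s1 h1) _ _ h1
  have hm' := (hC.s1 h1).toF.min hm
  have n0 : ∀ g : H, T0 ≠ g • (hC.s1 h1).T := (hC.s1 h1).nO_of_gt r1
  have nb : ∀ g : H, b0 ≠ g • (hC.s1 h1).T := (hC.s1 h1).nO_of_gt (rb.trans r1)
  have nv : ∀ g : H, D.v ≠ g • (hC.s1 h1).T := (hC.s1 h1).nO_of_gt (r0.trans r1)
  have na' : ∀ g : H, D.a ≠ g • (hC.s1 h1).T :=
    (hC.s1 h1).nO_of_gt (lt_of_lt_of_le ra (r0.trans r1).le)
  have f0 : (hC.s1 h1).toF.f T0 = T0 := (hC.s1 h1).f_not n0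
  have fb : (hC.s1 h1).toF.f b0 = b0 := (hC.s1 h1).f_not nb
  have fv : (hC.s1 h1).toF.f D.v = D.v := (hC.s1 h1).f_not nv
  have fa : (hC.s1 h1).toF.f D.a = D.a := (hC.s1 h1).f_not na'
  have ht' := P45.tall_img (hC.s1 h1) hB ht n0
  have hR : (hC.s1 h1).toF.F T0 ∈ hP.part.R := by
    refine ⟨⟨(hC.s1 h1).toF.F b0, ht'.1.2.2, ?_⟩, Or.inl ?_⟩
    · intro e
      have e' := (hC.s1 h1).toF.F_eq.1 e
      rw [fb, fv] at e'
      exact hC.nab _ _ _ _ ht e'.symm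
    · show (hC.s1 h1).toF.f T0 ∈ D.R
      rw [f0]
      exact hT
  have h5 := X.mark1 hC' hm' hP.part hR ht' (by
    intro h e1 e2
    obtain ⟨-, e3⟩ := e1
    have g0 : (h • (hC.s1 h1).toF.F T0).1 = h • T0 := by
      show h • (hC.s1 h1).toF.f T0 = _
      rw [f0]
    have k0 : h • T0 ∈ D.R := by
      rcases e3 with e3 | ⟨k, -, -, e3⟩
      · rwa [g0] at e3
      · exfalso
        rw [g0] at e3
        have := K.ar_rk _ _ e3
        rw [K.rk_smul, K.rk_smul] at this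
        have r1' : K.rk T0 < K.rk (hC.s1 h1).T := r1
        omega
    have k1 : h • b0 = D.v := by
      have := congrArg Subtype.val e2
      have e4 : h • (hC.s1 h1).toF.f b0 = (hC.s1 h1).toF.f D.v := this
      rwa [fb, fv] at e4
    show h • (hC.s1 h1).toF.F D.a = (hC.s1 h1).toF.F D.a
    rw [← (hC.s1 h1).toF.F_smul, np h k0 k1])
  have h6 := P45.tall_grow hC (hC.s1 h1) hB (X.wqf hC hm _ _ _ h1) (s := T0) r1
  have h7 : P.XW (hC.s1 h1).T T0 = P.XW T1 T0 := rfl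
  have h8 : (hC.s1 h1).y = D.v := rfl
  rw [h8] at h6
  have h9 : (hP.part).v = (hC.s1 h1).toF.F D.v := rfl
  rw [h9] at h5
  omega

/-- THE FAR STEP: the fat top `T` over `s` with partner `p`, a pole of `s`; `q` is a pole of `s` above the hub -/
theorem far1 {V : Type} [MulAction H V] {K : GX H V} {P : P45 K} (hC : P.Cl) (hm : K.Min)
    (D : CuD K) {T s z p c' q : V} (h2 : P.TopR T s z p) (sp : K.ar s p) (sq : K.ar s q)
    (hq : K.rk D.v < K.rk q) (hc' : K.ar T c') (h4 : 4 ≤ P.XW T c')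
    (hb : ∀ g : H, K.ar (g • T) D.v → (g • T ∈ D.R ↔ g • p ∈ D.R)) :
    (∀ r, K.ar s r → K.rk r = K.rk p) ∧ ∃ hv : K.rk D.v < K.rk T,
      P.Phi D = ((hC.s1 h2).flat.P45 P).Phi (D.side (hC.s1 h2) hv) ∧
      4 ≤ ((hC.s1 h2).flat.P45 P).XW ((hC.s1 h2).toF.F s) ((hC.s1 h2).toF.F p) := by
  have hs4 : 4 ≤ P.XW T s := by
    rw [X.cor1 hC hm h2.1.2.1 hc']
    exact h4
  have eqr : ∀ r, K.ar s r → K.rk r = K.rk p := by
    intro r hr
    by_contra hne
    have := X.toL.cor2r hC hm sp hr hne h2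
    omega
  have rs : K.rk s < K.rk T := K.ar_rk _ _ h2.1.2.1
  have rq : K.rk q < K.rk s := K.ar_rk _ _ sq
  have rp : K.rk D.v < K.rk p := by
    rw [← eqr q sq]
    exact hq
  have hv : K.rk D.v < K.rk T := by omega
  refine ⟨eqr, hv, ?_, ?_⟩
  · have hF : D.FarG (hC.s1 h2) := by
      refine ⟨hv, ?_, ?_⟩
      · intro h e
        have e' : D.v = h • p := e
        rw [e', K.rk_smul] at rp
        omega
      · intro h e
        have e' : K.ar (h • T) D.v := e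
        refine ⟨?_, hb h e'⟩
        have k := K.ar_smul h⁻¹ _ _ e'
        rw [inv_smul_smul] at k
        have kr : K.rk (h⁻¹ • D.v) = K.rk D.v := K.rk_smul _ _
        rcases hC.sides h2 k with e1 | e1
        · rw [e1] at kr
          omega
        · have k2 : K.ar p z := by
            rcases h2.1.Eb with k3 | k3
            · have := K.ar_rk _ _ k3
              rw [← e1] at this
              omega
            · exact k3
          have k4 := K.ar_smul h _ _ k2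
          rw [← e1, smul_inv_smul] at k4
          exact k4
    have hB := X.bt hC hm (hC.s1 h2) _ _ h2
    rw [← X.wcs_fold hC hm (hC.s1 h2) h2, hF.step (P := P) (fun i => (hB i).1)
      (fun a' b' y' h' => hC.par _ _ _ _ _ _ _ h' h2)]
    rfl
  · have h5 := P45.tall_grow hC (hC.s1 h2) (X.bt hC hm _ _ _ h2) (X.wqf hC hm _ _ _ h2) (s := s) rs
    have h6 : P.XW (hC.s1 h2).T s = P.XW T s := rfl
    have h7 : (hC.s1 h2).y = p := rfl
    rw [h7] at h5
    omega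

/-- STRICT PMC FOR A TOP WITH A FAT TOWER: `T` is the fat top over the member `s` of the tower of height `n`
over `T1`, its partner `p` is a pole of `s`; a translate of `T` which is an in-arrow of the hub is in `R` iff the
translate of `p` is -/
theorem tallN : ∀ (n : ℕ) {V : Type} [MulAction H V] {K : GX H V} {P : P45 K}, P.Cl → K.Min →
    ∀ (D : CuD K) {T0 b0 T1 c s T z p c' : V}, P.TCf D T0 b0 T1 c → P.Tow T1 n s →
      P.TopR T s z p → K.ar s p → K.ar T c' → 4 ≤ P.XW T c' →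
      (∀ g : H, K.ar (g • T) D.v → (g • T ∈ D.R ↔ g • p ∈ D.R)) → 2 ≤ P.Phi D := by
  intro n
  induction n with
  | zero =>
    intro V _ K P hC hm D T0 b0 T1 c s T z p c' hf hs h2 sp hc' h4 hb
    have es : s = T1 := hs
    subst es
    have r0 : K.rk D.v < K.rk T0 := K.ar_rk _ _ (D.R_ar _ hf.hT)
    obtain ⟨-, hv, e1, e2⟩ := X.far1 hC hm D h2 sp hf.h1.1.2.1 r0 hc' h4 hb
    have hB := X.bt hC hm (hC.s1 h2) _ _ h2
    have rs : K.rk s < K.rk (hC.s1 h2).T := K.ar_rk _ _ h2.1.2.1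
    have hf' := hf.fold (hC.s1 h2) hB rs hv
    have hC' := X.fold hC hm (hC.s1 h2) _ _ h2
    have hm' := (hC.s1 h2).toF.min hm
    rw [e1]
    refine X.tall0 hC' hm' _ hf'.hT hf'.ht hf'.h1 hf'.hc hf'.np ?_
    have ap : ((hC.s1 h2).toF.gx).ar ((hC.s1 h2).toF.F s) ((hC.s1 h2).toF.F p) :=
      (hC.s1 h2).ar_map ((hC.s1 h2).nO_of_gt rs) sp
    rw [X.cor1 hC' hm' hf'.h1.1.2.1 ap]
    exact e2
  | succ n ih =>
    intro V _ K P hC hm D T0 b0 T1 c s T z p c' hf hs h2 sp hc' h4 hb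
    obtain ⟨s2, z2, p2, t1, t2, t3⟩ := hs
    have r0 : K.rk D.v < K.rk T0 := K.ar_rk _ _ (D.R_ar _ hf.hT)
    have r1 : K.rk T0 < K.rk T1 := K.ar_rk _ _ hf.h1.1.2.1
    have r2 : K.rk T1 ≤ K.rk s2 := t1.rk_le
    have r3 : K.rk s2 < K.rk s := K.ar_rk _ _ t2.1.2.1
    have rs : K.rk s < K.rk (hC.s1 h2).T := K.ar_rk _ _ h2.1.2.1
    obtain ⟨eqr, hv, e1, e2⟩ := X.far1 hC hm D h2 sp t2.1.2.1 (by omega) hc' h4 hb
    have hB := X.bt hC hm (hC.s1 h2) _ _ h2
    have hf' := hf.fold (hC.s1 h2) hB (by omega) hv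
    have hC' := X.fold hC hm (hC.s1 h2) _ _ h2
    have hm' := (hC.s1 h2).toF.min hm
    have ns : ∀ g : H, s ≠ g • (hC.s1 h2).T := (hC.s1 h2).nO_of_gt rs
    have ns2 : ∀ g : H, s2 ≠ g • (hC.s1 h2).T := (hC.s1 h2).nO_of_gt (r3.trans rs)
    have nv : ∀ g : H, D.v ≠ g • (hC.s1 h2).T := (hC.s1 h2).nO_of_gt hv
    rw [e1]
    refine ih hC' hm' _ hf' ((X.toL.toF hC hm h2).tow t1 (r3.trans rs)) (P45.tall_img _ hB t2 ns)
      ((hC.s1 h2).ar_map ns2 t3) ((hC.s1 h2).ar_map ns sp) e2 ?_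
    -- no translate of `s` has an arrow to the hub
    intro g hg
    exfalso
    obtain ⟨x, k1, k2⟩ := hg
    have k1 : K.ar (g • (hC.s1 h2).toF.F s).1 x := k1
    have e3 : (g • (hC.s1 h2).toF.F s).1 = g • s := by
      show g • (hC.s1 h2).toF.f s = _
      rw [(hC.s1 h2).f_not ns]
    rw [e3] at k1
    have e4 : (hC.s1 h2).toF.f x = D.v := by
      have := congrArg Subtype.val k2
      rw [show ((D.side (hC.s1 h2) hv).v).1 = D.v from (hC.s1 h2).f_not nv] at this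
      exact this
    have k3 := K.ar_smul g⁻¹ _ _ k1
    rw [inv_smul_smul] at k3
    have rx : K.rk x = K.rk p := by rw [← eqr _ k3, K.rk_smul]
    have rp : K.rk s2 = K.rk p := eqr _ t2.1.2.1
    have nx : ∀ g : H, x ≠ g • (hC.s1 h2).T := (hC.s1 h2).nO_of_gt (by omega)
    rw [(hC.s1 h2).f_not nx] at e4
    rw [e4] at rx
    omega

end PmH

end Pool.Agent.DI
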