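import Pool.Agent.DI.PmI
import Pool.Agent.DI.PmF
import Pool.Agent.DI.ClA

/-!
# DI/TallA: towers over a top, tools

`tall_img`: the other tops stay tops in a fold. `tall_grow`: in the fold `T ~ y` the arrow `s → y` of a pole
`s` of `T` has at least the strands of `T` at `s`. `PmH.mark1`: PMC with one marked orbit of tops.
-/

namespace Pool.Agent.DI

open MulAction
open Pool.Agent.SAF (InC orbs FinOrb oc)

variable {H V : Type} [Group H] [MulAction H V]

namespace P45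

variable {K : GX H V} {P : P45 K}

/-- the square of a top, with its place -/
theorem own_idx {T a b y : V} (h : P.TopR T a b y) : ∃ (g : H) (i : K.I) (j : Fin 4), P.sq i ∧
    P.tq i (j + 1) ∧ T = g • P.qt i (j + 1) ∧ y = g • P.qt i (j + 3) ∧
    ((a = g • P.qt i j ∧ b = g • P.qt i (j + 2)) ∨ (b = g • P.qt i j ∧ a = g • P.qt i (j + 2))) := by
  obtain ⟨⟨⟨g, i, j, hi, h4⟩, ha, hb⟩, hr⟩ := h
  have s2 : ∀ j : Fin 4, j + 1 + 1 = j + 2 := by decide
  have s3 : ∀ j : Fin 4, j + 1 + 2 = j + 3 := by decide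
  have s4 : ∀ j : Fin 4, j + 1 + 3 = j := by decide
  have dn : ∀ {x z : V}, K.ar (g • x) (g • z) → K.ar x z := by
    intro x z k
    have := K.ar_smul g⁻¹ _ _ k
    rwa [inv_smul_smul, inv_smul_smul] at this
  rcases h4 with ⟨rfl, rfl, rfl, rfl⟩ | ⟨rfl, rfl, rfl, rfl⟩
  · refine ⟨g, i, j, hi, ⟨⟨?_, ?_⟩, ?_⟩, rfl, rfl, Or.inl ⟨rfl, rfl⟩⟩
    · rw [s2]
      exact dn hb
    · rw [s4]
      exact dn ha
    · rw [s3]
      rwa [K.rk_smul, K.rk_smul] at hr
  · refine ⟨g, i, j, hi, ⟨⟨?_, ?_⟩, ?_⟩, rfl, rfl, Or.inr ⟨rfl, rfl⟩⟩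
    · rw [s2]
      exact dn ha
    · rw [s4]
      exact dn hb
    · rw [s3]
      rwa [K.rk_smul, K.rk_smul] at hr

/-- the top has the greatest rank of its square -/
theorem tq_max {i : K.I} {k : Fin 4} (h : P.tq i k) (m : Fin 4) :
    K.rk (P.qt i m) ≤ K.rk (P.qt i k) := by
  have h1 := K.ar_rk _ _ h.1.1
  have h2 := K.ar_rk _ _ h.1.2
  have h3 := h.2
  obtain ⟨l, rfl⟩ : ∃ l, m = k + l := ⟨m - k, (add_sub_cancel k m).symm⟩
  fin_cases l
  · exact le_of_eq (congrArg (fun m => K.rk (P.qt i m)) (add_zero k))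
  · exact h1.le
  · exact h3.le
  · exact h2.le

/-- THE OTHER TOPS OF A FOLD -/
theorem tall_img (D1 : Sq1 K) (hB : ∀ i, D1.toF.Bt i ↔ P.own D1.T i) {t a b y : V}
    (ht : P.TopR t a b y) (hn : ∀ g : H, t ≠ g • D1.T) :
    (D1.flat.P45 P).TopR (D1.toF.F t) (D1.toF.F a) (D1.toF.F b) (D1.toF.F y) := by
  obtain ⟨g, i, j, hi, hq, e1, e2, e3⟩ := own_idx ht
  have hb : ¬ D1.toF.Bt i := by
    rw [hB]
    rintro ⟨-, k, j', hj', e⟩
    have ej := tq_uniq hq hj'
    subst ej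
    apply hn (g * k⁻¹)
    rw [e1, mul_smul, ← e, inv_smul_smul]
  have nab := D1.flat.opp_ne P hi hb j
  have nab' : D1.toF.F a ≠ D1.toF.F b := by
    intro e
    rcases e3 with ⟨rfl, rfl⟩ | ⟨rfl, rfl⟩
    · rw [D1.toF.F_smul, D1.toF.F_smul] at e
      exact nab (smul_left_cancel g e)
    · rw [D1.toF.F_smul, D1.toF.F_smul] at e
      exact nab (smul_left_cancel g e).symm
  have rt : K.rk (D1.toF.f t) = K.rk t := by rw [D1.f_not hn]
  have ry := D1.toF.rk_f y
  have hr := ht.2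
  refine ⟨⟨(D1.flat.Q4_iff P).2 ⟨_, _, _, _, ht.1.1, rfl, rfl, rfl, rfl, nab', ?_⟩, ?_, ?_⟩, ?_⟩
  · intro e
    have e' := D1.toF.F_eq.1 e
    rw [e'] at rt
    omega
  · exact D1.ar_map hn ht.1.2.1
  · exact D1.ar_map hn ht.1.2.2
  · show K.rk (D1.toF.f y) < K.rk (D1.toF.f t)
    omega

/-- GROWTH: the strands of the folded top pass the arrow from its pole to its partner -/
theorem tall_grow (hC : P.Cl) (D1 : Sq1 K) (hB : ∀ i, D1.toF.Bt i ↔ P.own D1.T i)
    (hw : ∀ j, (D1.flat.P45 P).wq j = P.wq j.1) {s : V} (hs : K.rk s < K.rk D1.T) :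
    P.XW D1.T s ≤ (D1.flat.P45 P).XW (D1.toF.F s) (D1.toF.F D1.y) := by
  classical
  set P' := D1.flat.P45 P with hP'
  have ns : ∀ g : H, s ≠ g • D1.T := D1.nO_of_gt hs
  -- the weights of the fold
  let w : K.I → ℤ := fun i => if h : ¬ D1.toF.Bt i then
    (if P'.own (D1.toF.F s) ⟨i, h⟩ then 0 else P.wq i) else 0
  have e1 : P'.XW (D1.toF.F s) (D1.toF.F D1.y) = D1.toF.gx.wcs (fun j => w j.1)
      (fun x y z => lg H (D1.toF.F s) (D1.toF.F D1.y) y x +
        lg H (D1.toF.F s) (D1.toF.F D1.y) y z) := by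
    rw [XW_top]
    unfold GX.wcs
    refine Finset.sum_congr rfl fun j _ => ?_
    have ew : w j.1 = if P'.own (D1.toF.F s) j then 0 else P.wq j.1 := by
      show (if h : ¬ D1.toF.Bt j.1 then _ else _) = _
      rw [dif_pos j.2]
      rfl
    show _ = w j.1 * _
    rw [ew]
    by_cases h : P'.own (D1.toF.F s) j
    · rw [if_pos h, if_pos h, zero_mul]
    · rw [if_neg h, if_neg h, hw j]
  rw [e1, D1.flat.wcs_if P w]
  unfold XW
  refine Finset.sum_le_sum fun i _ => ?_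
  by_cases hi : P.own D1.T i
  · rw [if_pos hi, if_pos ((hB i).2 hi)]
  have hb : ¬ D1.toF.Bt i := fun k => hi ((hB i).1 k)
  rw [if_neg hi, if_neg hb]
  have ew : w i = if P'.own (D1.toF.F s) ⟨i, hb⟩ then 0 else P.wq i := by
    show (if h : ¬ D1.toF.Bt i then _ else _) = _
    rw [dif_pos hb]
  rw [ew]
  by_cases ho : P'.own (D1.toF.F s) ⟨i, hb⟩
  · -- the square of `s` does not pass the edge
    rw [if_pos ho, zero_mul]
    obtain ⟨hsq, h, k, hk, e⟩ := ho
    have hsq : P.sq i := hsq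
    obtain ⟨k0, hk0⟩ := hC.top i hsq
    have nt : ∀ g : H, P.qt i k0 ≠ g • D1.T := by
      intro g eg
      exact hi ⟨hsq, g⁻¹, k0, hk0, by rw [eg, inv_smul_smul]⟩
    have rt : K.rk (D1.toF.f (P.qt i k0)) = K.rk (P.qt i k0) := by rw [D1.f_not nt]
    have hk0' : P'.tq ⟨i, hb⟩ k0 := by
      refine ⟨⟨D1.ar_map nt hk0.1.1, D1.ar_map nt hk0.1.2⟩, ?_⟩
      show K.rk (D1.toF.f (P.qt i (k0 + 2))) < K.rk (D1.toF.f (P.qt i k0))
      have := D1.toF.rk_f (P.qt i (k0 + 2))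
      have := hk0.2
      omega
    have ek := tq_uniq hk0' hk
    subst ek
    have e' : h • D1.toF.F (P.qt i k0) = D1.toF.F s := e
    have e2 : h • D1.toF.f (P.qt i k0) = D1.toF.f s := congrArg Subtype.val e'
    rw [D1.f_not ns, D1.f_not nt] at e2
    have rs : K.rk s = K.rk (P.qt i k0) := by rw [← e2, K.rk_smul]
    have nl : ∀ p q m, p = P.qt i m → lg H D1.T s p q = 0 := by
      intro p q m hp
      refine lg_neg ?_
      rintro ⟨g, e3, -⟩
      have r1 := tq_max hk0 m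
      rw [← hp, e3, K.rk_smul] at r1
      omega
    rw [P.ccs4 hsq, Finset.sum_eq_zero, mul_zero]
    intro j _
    rw [nl _ _ j rfl, nl _ _ (j + 2) rfl, add_zero]
  · rw [if_neg ho]
    refine mul_le_mul_of_nonneg_left (K.ccs_mono i fun j => ?_) (wq_pos i).le
    have key : ∀ p q : V, lg H D1.T s p q ≤
        lg H (D1.toF.F s) (D1.toF.F D1.y) (D1.toF.F q) (D1.toF.F p) := by
      intro p q
      by_cases h : Tr H D1.T s p q
      · obtain ⟨g, rfl, rfl⟩ := h
        rw [lg_pos ⟨g, rfl, rfl⟩, lg_pos ⟨g, D1.toF.F_smul _ _, ?_⟩]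
        refine Subtype.ext ?_
        show D1.toF.f (g • D1.T) = g • D1.toF.f D1.y
        have ny : D1.toF.f D1.y = D1.y := D1.f_not (by
          intro k e
          have r := congrArg K.rk e
          have r' := D1.rk
          rw [K.rk_smul] at r
          omega)
        rw [D1.f_T, ny]
      · rw [lg_neg h]
        unfold lg
        split_ifs <;> norm_num
    exact add_le_add (key _ _) (key _ _)

end P45

namespace PmH

variable (X : PmH H)

include X

/-- PMC WITH ONE MARKED ORBIT: a top over the hub whose partner is the pole `D.a`; no translate in `R` has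
the other pole as partner -/
theorem mark1 {K : GX H V} {P : P45 K} (hC : P.Cl) (hm : K.Min) (D : CuD K) {T b' : V}
    (hT : T ∈ D.R) (ht : P.TopR T D.v b' D.a)
    (np : ∀ h : H, h • T ∈ D.R → h • b' = D.v → h • D.a = D.a) : P.XW T D.v - 2 ≤ P.Phi D := by
  have hr : K.rk D.v < K.rk T := K.ar_rk _ _ (D.R_ar _ hT)
  have hC' := X.fold hC hm (hC.s1 ht) _ _ ht
  have h2 : 0 ≤ ((hC.s1 ht).flat.P45 P).Phi (D.side (hC.s1 ht) hr) :=
    X.pmc' _ hC' ((hC.s1 ht).toF.min hm) rfl _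
  have hw := X.wcs_fold hC hm (hC.s1 ht) ht (D.side (hC.s1 ht) hr)
  have two2 : 2 ≤ P.XW (hC.s1 ht).T b' := X.two hC hm _ _ _ _ ht.symm'
  show P.XW T D.v - 2 ≤ K.wcs P.wq D.sv
  by_cases hs : ∀ h : H, h • T ∈ D.R → Tr H T D.v (h • T) D.v
  · have h3 := X.sideOne hC hm D (hC.s1 ht) hr b' ht.symm' hT rfl hs
    rw [hw] at h3
    have : P.XW (hC.s1 ht).T D.v = P.XW T D.v := rfl
    omega
  · push Not at hs
    obtain ⟨h, e1, e2⟩ := hs
    have e3 : h • b' = D.v := by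
      have k := K.ar_smul h⁻¹ _ _ (D.R_ar _ e1)
      rw [inv_smul_smul] at k
      rcases hC.sides ht k with e | e
      · exfalso
        apply e2
        refine ⟨h, rfl, ?_⟩
        rw [inv_smul_eq_iff] at e
        exact e
      · rw [← e, smul_inv_smul]
    have ea := np h e1 e3
    by_cases hTr : Tr H T D.v T b'
    · exfalso
      obtain ⟨g, g1, g2⟩ := hTr
      apply e2
      refine ⟨h * g, ?_, ?_⟩
      · rw [mul_smul, ← g1]
      · rw [mul_smul, ← g2, e3]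
    · have h3 := X.sideTwo hC hm D (hC.s1 ht) hr b' ht.symm' hT rfl h e3 e1 ea hTr
      rw [hw] at h3
      have : P.XW (hC.s1 ht).T D.v = P.XW T D.v := rfl
      omega

end PmH

end Pool.Agent.DI
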