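import Pool.Agent.DI.TallA

/-!
# DI/TallB: the fold of a top whose walk does not separate at the hub

`D.FarG D1`: no translate of the partner is the hub; if a translate of the top is an in-arrow of the hub then
the same translate of the partner is, and both or none are in `R`. `FarG.step`: the weighted sums of `D` and
`D.side` are equal.
-/

namespace Pool.Agent.DI

open MulAction
open Pool.Agent.SAF (InC orbs FinOrb oc)

variable {H V : Type} [Group H] [MulAction H V]

namespace CuD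

variable {K : GX H V}

/-- the walk of the top does not separate at the hub -/
structure FarG (D : CuD K) (D1 : Sq1 K) : Prop where
  hr : K.rk D.v < K.rk D1.T
  v2 : ∀ h : H, D.v ≠ h • D1.y
  v3 : ∀ h : H, K.ar (h • D1.T) D.v → K.ar (h • D1.y) D.v ∧ (h • D1.T ∈ D.R ↔ h • D1.y ∈ D.R)

/-- equal labels give equal values -/
theorem sv_congr (D : CuD K) {x x' y z z' : V} (mx : D.mv x' y ↔ D.mv x y)
    (mz : D.mv z' y ↔ D.mv z y) (tx : D.mv x y → D.τ x' y = D.τ x y)
    (tz : D.mv z y → D.τ z' y = D.τ z y) (ex : ∀ k : H, x' = k • D.a ↔ x = k • D.a)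
    (ez : ∀ k : H, z' = k • D.a ↔ z = k • D.a) : D.sv x' y z' = D.sv x y z := by
  by_cases h1 : D.mv x y
  · by_cases h2 : D.mv z y
    · by_cases h3 : D.τ x y = D.τ z y
      · rw [D.sv_mm h1 h2 h3, D.sv_mm (mx.2 h1) (mz.2 h2) (by rw [tx h1, tz h2, h3])]
      · rw [D.sv_two h1 h2 h3, D.sv_two (mx.2 h1) (mz.2 h2) (by rw [tx h1, tz h2]; exact h3)]
    · obtain ⟨k, k1, k2⟩ := id h1
      have t := D.τ_eq k1 k2
      by_cases h3 : z = D.τ x y
      · rw [D.sv_τ h1 h3, D.sv_τ (mx.2 h1)]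
        rw [tx h1, t]
        rw [t] at h3
        exact (ez k).2 h3
      · rw [D.sv_one h1 h2 h3, D.sv_one (mx.2 h1) (fun e => h2 (mz.1 e))]
        rw [tx h1, t]
        rw [t] at h3
        exact fun e => h3 ((ez k).1 e)
  · by_cases h2 : D.mv z y
    · obtain ⟨k, k1, k2⟩ := id h2
      have t := D.τ_eq k1 k2
      rw [D.sv_symm x', D.sv_symm x]
      by_cases h3 : x = D.τ z y
      · rw [D.sv_τ h2 h3, D.sv_τ (mz.2 h2)]
        rw [tz h2, t]
        rw [t] at h3
        exact (ex k).2 h3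
      · rw [D.sv_one h2 h1 h3, D.sv_one (mz.2 h2) (fun e => h1 (mx.1 e))]
        rw [tz h2, t]
        rw [t] at h3
        exact fun e => h3 ((ex k).1 e)
    · rw [D.sv_not h1 h2, D.sv_not (fun e => h1 (mx.1 e)) (fun e => h2 (mz.1 e))]

namespace FarG

variable {D : CuD K} {D1 : Sq1 K} (hF : D.FarG D1)

include hF

/-- the top and the partner have the same label -/
theorem mv_iff (g h : H) (e : K.ar (h • D1.T) (g • D.v)) :
    D.mv (h • D1.y) (g • D.v) ↔ D.mv (h • D1.T) (g • D.v) := by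
  have key : ∀ k : H, g • D.v = k • D.v →
      (k⁻¹ • h • D1.T ∈ D.R ↔ k⁻¹ • h • D1.y ∈ D.R) := by
    intro k hk
    have h1 := K.ar_smul k⁻¹ _ _ e
    rw [hk, inv_smul_smul, ← mul_smul] at h1
    have h2 := (hF.v3 _ h1).2
    rwa [mul_smul, mul_smul] at h2
  constructor
  · rintro ⟨k, k1, k2⟩
    exact ⟨k, (key k k2).2 k1, k2⟩
  · rintro ⟨k, k1, k2⟩
    exact ⟨k, (key k k2).1 k1, k2⟩

theorem τ_eq (g h : H) (e : K.ar (h • D1.T) (g • D.v)) (hm : D.mv (h • D1.T) (g • D.v)) :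
    D.τ (h • D1.y) (g • D.v) = D.τ (h • D1.T) (g • D.v) := by
  obtain ⟨k, k1, k2⟩ := id hm
  have h1 := K.ar_smul k⁻¹ _ _ e
  rw [k2, inv_smul_smul, ← mul_smul] at h1
  have h2 := (hF.v3 _ h1).2
  rw [mul_smul, mul_smul] at h2
  rw [D.τ_eq k1 k2, D.τ_eq (h2.1 k1) k2]

theorem ary (g h : H) (e : K.ar (h • D1.T) (g • D.v)) : K.ar (h • D1.y) (g • D.v) := by
  have h1 := K.ar_smul g⁻¹ _ _ e
  rw [inv_smul_smul, ← mul_smul] at h1
  have h2 := K.ar_smul g _ _ (hF.v3 _ h1).1
  rwa [mul_smul, smul_inv_smul] at h2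

/-- THE CORNER VALUES -/
theorem sv {x y z : V} (hx : K.E x y) (hz : K.E z y) :
    D.sv (D1.toF.f x) (D1.toF.f y) (D1.toF.f z) = D.sv x y z := by
  have hr := hF.hr
  by_cases hv : ∃ g : H, y = g • D.v
  · obtain ⟨g, rfl⟩ := hv
    rw [f_hub D1 hr]
    -- the labels of a leg
    have leg : ∀ p : V, K.E p (g • D.v) → (D.mv (D1.toF.f p) (g • D.v) ↔ D.mv p (g • D.v)) ∧
        (D.mv p (g • D.v) → D.τ (D1.toF.f p) (g • D.v) = D.τ p (g • D.v)) ∧
        ∀ k : H, D1.toF.f p = k • D.a ↔ p = k • D.a := by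
      intro p hp
      by_cases hO : ∃ h : H, p = h • D1.T
      · obtain ⟨h, rfl⟩ := hO
        have e : K.ar (h • D1.T) (g • D.v) := by
          rcases hp with hp | hp
          · exact hp
          · have := K.ar_rk _ _ hp
            rw [K.rk_smul, K.rk_smul] at this
            omega
        rw [D1.f_T]
        refine ⟨hF.mv_iff g h e, fun hm => hF.τ_eq g h e hm, fun k => ⟨fun e1 => ?_, fun e1 => ?_⟩⟩
        · have r1 := K.ar_rk _ _ (hF.ary g h e)
          rw [e1, K.rk_smul, K.rk_smul] at r1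
          have := D.ra
          omega
        · have r1 := K.ar_rk _ _ e
          rw [e1, K.rk_smul, K.rk_smul] at r1
          have := D.ra
          omega
      · push Not at hO
        rw [D1.f_not hO]
        exact ⟨Iff.rfl, fun _ => rfl, fun _ => Iff.rfl⟩
    obtain ⟨a1, a2, a3⟩ := leg x hx
    obtain ⟨b1, b2, b3⟩ := leg z hz
    exact D.sv_congr a1 b1 a2 b2 a3 b3
  · have nm : ∀ p, ¬ D.mv p y := by
      rintro p ⟨g, -, e⟩
      exact hv ⟨g, e⟩
    rw [D.sv_not (nm x) (nm z)]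
    have nf : ∀ p, ¬ D.mv p (D1.toF.f y) := by
      rintro p ⟨g, -, e⟩
      by_cases hO : ∃ h : H, y = h • D1.T
      · obtain ⟨h, rfl⟩ := hO
        rw [D1.f_T] at e
        exact hF.v2 (g⁻¹ * h) (by rw [mul_smul, e, inv_smul_smul])
      · push Not at hO
        rw [D1.f_not hO] at e
        exact hv ⟨g, e⟩
    exact D.sv_not (nf _) (nf _)

/-- the square of the top has no value -/
theorem own_zero {P : P45 K} (hy : ∀ a b y, P.TopR D1.T a b y → y = D1.y) {i : K.I}
    (ho : P.own D1.T i) : K.ccs i D.sv = 0 := by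
  obtain ⟨hs, h, j, hj, e⟩ := ho
  have ht := (P45.tq_TopR hs hj).smul h
  rw [e] at ht
  have ey := hy _ _ _ ht
  have sm : ∀ x y z : V, D.sv x y z = D.sv (h • x) (h • y) (h • z) := fun x y z =>
    (D.sv_smul h x y z).symm
  rw [P.ccs_at hs j D.sv, sm (P.qt i (j + 3)), sm (P.qt i j), sm (P.qt i (j + 1)) (P.qt i (j + 2)),
    sm (P.qt i (j + 2)), e, ey]
  have tp : K.ar D1.T (h • P.qt i (j + 1)) := ht.1.2.1
  have tq : K.ar D1.T (h • P.qt i (j + 3)) := ht.1.2.2
  have n1 : ∀ x, ¬ D.mv x D1.T := by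
    rintro x ⟨g, -, e'⟩
    have := congrArg K.rk e'
    have hr := hF.hr
    rw [K.rk_smul] at this
    omega
  have n2 : ∀ x, ¬ D.mv x D1.y := by
    rintro x ⟨g, -, e'⟩
    exact hF.v2 g⁻¹ (by rw [e', inv_smul_smul])
  have side : ∀ p, K.ar D1.T p → D.sv D1.T p D1.y = 0 := by
    intro p hp
    by_cases hv : ∃ g : H, p = g • D.v
    · obtain ⟨g, rfl⟩ := hv
      have h0 : K.ar ((1 : H) • D1.T) (g • D.v) := by rw [one_smul]; exact hp
      have m := hF.mv_iff g 1 h0
      have t := hF.τ_eq g 1 h0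
      rw [one_smul, one_smul] at m t
      by_cases hm : D.mv D1.T (g • D.v)
      · exact D.sv_mm hm (m.2 hm) (t hm).symm
      · exact D.sv_not hm (fun k => hm (m.1 k))
    · have nm : ∀ q, ¬ D.mv q p := by
        rintro q ⟨g, -, e'⟩
        exact hv ⟨g, e'⟩
      exact D.sv_not (nm _) (nm _)
  rw [D.sv_not (n1 _) (n1 _), side _ tp, D.sv_not (n2 _) (n2 _), D.sv_symm D1.y, side _ tq]
  norm_num

/-- THE STEP -/
theorem step {P : P45 K} (hB : ∀ i, D1.toF.Bt i → P.own D1.T i)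
    (hy : ∀ a b y, P.TopR D1.T a b y → y = D1.y) (w : K.I → ℤ) :
    D1.toF.gx.wcs (fun j => w j.1) (D.side D1 hF.hr).sv = K.wcs w D.sv := by
  classical
  rw [D1.flat.wcs_if P w]
  unfold GX.wcs
  refine Finset.sum_congr rfl fun i _ => ?_
  by_cases hi : D1.toF.Bt i
  · rw [if_pos hi, hF.own_zero hy (hB i hi), mul_zero]
  · rw [if_neg hi]
    congr 1
    refine K.ccs_congr i fun j => ?_
    have hl : 0 < K.len i := P45.pm_len P i
    rw [D.side_sv_F D1 hF.hr]
    exact hF.sv (K.vx_E hl _) (K.vx_E hl (j + 1)).symm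

end FarG

end CuD

end Pool.Agent.DI
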