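import Pool.Agent.DI.TowX
import Pool.Agent.DI.PmK2
import Pool.Agent.DI.NP

/-!
# DI/TowK: the tower lemma in the step complex of a state

`St.cor1`, `St.nft`: Corollary 1 and the tower lemma in a state. `OpW.nft_up`: the tower lemma goes up to the
opened complex. `St.K1.nft`, `St.K1.cor1`: the step complex. `kf_cor2`: a top over a gamma top of the folded
slice is thin.
-/

namespace Pool.Agent.DI

open MulAction
open Pool.Agent.SAF (InC orbs FinOrb oc)

namespace OpW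

variable {H V W : Type} [Group H] [MulAction H V] [MulAction H W] {K : GX H V} (O : OpW K W)
  (P : P45 K)

/-- a top over a top goes down -/
theorem Ov_π {T T' : W} (h : (O.p45 P).Ov T T') : P.Ov (O.π T) (O.π T') := by
  obtain ⟨m, z, h, e⟩ := h
  rcases O.Top_π P h with k | k
  · exact ⟨_, _, k, O.ar_π e⟩
  · exact absurd e (GX.not_both' (NSq.ar O k).2.2.1)

/-- a chain of tops goes down -/
theorem TG_π {T T' : W} (h : Relation.TransGen (O.p45 P).Ov T T') :
    Relation.TransGen P.Ov (O.π T) (O.π T') := by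
  induction h with
  | single h => exact Relation.TransGen.single (O.Ov_π P h)
  | tail _ h ih => exact ih.tail (O.Ov_π P h)

/-- thin tops go up -/
theorem Tn_up (hv : O.NT P) {T : W} (hT : ∀ a b y, ¬ O.NSq a T b y) (h : P.Tn (O.π T)) :
    (O.p45 P).Tn T := by
  intro a b y ht
  rcases O.Top_π P ht with k | k
  · exact (O.X_le P hv T a).trans (h _ _ _ k)
  · exact absurd k (hT _ _ _)

/-- THE TOWER LEMMA GOES UP -/
theorem nft_up (hv : O.NT P) (hj : ∀ j, O.js j ≠ O.jt j)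
    (hn : ∀ {k s T : V}, (k, s) ∈ P.U → Relation.TransGen P.Ov k T → P.Tn T) {k s T : W}
    (hk : (k, s) ∈ (O.p45 P).U) (hT : Relation.TransGen (O.p45 P).Ov k T) : (O.p45 P).Tn T := by
  rw [O.U_upA P hv] at hk
  have hk2 : (O.π k, O.π s) ∈ P.U := hk.2
  have h1 := O.TG_π P hT
  refine O.Tn_up P hv ?_ (hn hk2 h1)
  intro a b y hq
  obtain ⟨T0, -, h2⟩ := Relation.TransGen.tail'_iff.1 h1
  obtain ⟨m, z, h3, -⟩ := h2
  exact absurd (NSq.dbl hj hq).1 (hv.top h3)

/-- COROLLARY 1 GOES UP -/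
theorem cor1_up (hv : O.NT P) (hj : ∀ j, O.js j ≠ O.jt j)
    (hn : ∀ {T a b y : V}, P.Top T a b y → P.X T a = P.X T b) {T a b y : W}
    (h : (O.p45 P).Top T a b y) (hd : ¬ O.Dbl T) : (O.p45 P).X T a = (O.p45 P).X T b := by
  rcases O.Top_π P h with k | k
  · rw [O.X_eq P hv (fun x e => O.not_dbl hd e) h.2.1, O.X_eq P hv (fun x e => O.not_dbl hd e) h.2.2]
    exact hn k
  · exact absurd (NSq.dbl hj k).1 hd

end OpW

namespace St

variable (C : St)

/-- every arrow of a top has a strand -/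
theorem x1T {T a b y : C.V} (h : C.P.Top T a b y) : 1 ≤ C.P.X T a := C.cls.x1 (T, a) ⟨_, _, h⟩

/-- COROLLARY 1 IN A STATE -/
theorem cor1 {T a b y : C.V} (h : C.P.Top T a b y) : C.P.X T a = C.P.X T b :=
  P45.SqT.cor1X C.cls.toSqE (fun _ _ _ _ k => C.x1T k) C.Min h

/-- THE TOWER LEMMA IN A STATE -/
theorem nft {k s T : C.V} (hk : (k, s) ∈ C.P.U) (hT : Relation.TransGen C.P.Ov k T) : C.P.Tn T :=
  P45.SqT.nft C.cls.toSqE (fun _ _ _ _ k => C.x1T k) C.Min hk hT

end St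

namespace St.K1

variable {C : St} (k : C.K1)

/-- THE TOWER LEMMA IN THE STEP COMPLEX -/
theorem nft (n s T : k.W) (hk : (n, s) ∈ k.P.U) (hT : Relation.TransGen k.P.Ov n T) : k.P.Tn T :=
  k.O.nft_up C.P k.ok.nt k.ok.ne C.nft hk hT

/-- COROLLARY 1 IN THE STEP COMPLEX -/
theorem cor1 (T a b y : k.W) (h : k.P.Top T a b y) (hE : ¬ k.E T) : k.P.X T a = k.P.X T b :=
  k.O.cor1_up C.P k.ok.nt k.ok.ne C.cor1 h hE

end St.K1

namespace SyQ

variable {H V : Type} [Group H] [MulAction H V] {S : SyQ H V}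
variable {hc : S.Conn} {w : S.X} {O : S.OR w} {hm : (S.k0 hc w).Min} {hn : S.SqN w O}

/-- COROLLARY 2 (i) IN THE FOLDED SLICE, in the form of `CrH.cor2` -/
theorem kf_cor2 (hO : O.Nf) (hK : S.KIn w)
    (x1 : ∀ p ∈ (S.kfP hc w O hm hn).TA, 1 ≤ (S.kfP hc w O hm hn).X p.1 p.2) (T a b y z : S.Q w O)
    (h : (S.kfP hc w O hm hn).Top T a b y) (e : (S.kf hc w O).ar a y)
    (hz : (a, z) ∈ (S.kfP hc w O hm hn).U) : (S.kfP hc w O hm hn).X T a ≤ 1 :=
  kf_nft hO hK x1 a z T hz (Relation.TransGen.single ⟨b, y, h, e⟩) _ _ _ h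

end SyQ

end Pool.Agent.DI
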