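import Pool.Agent.DI.PmTz
import Pool.Agent.DI.PmX
import Pool.Agent.DI.RedT
import Pool.Agent.DI.ClsT
import Pool.Agent.DI.Thin2

/-!
# DI/TowX: the tower lemma for the plain strands

`SqT.towerX`: in a state all tops in a tower over a vertex whose poles have different ranks are thin.
`SqT.nft`: the towers over a gamma top. `SqT.cor1X`: Corollary 1. `kf_nft`: the tower lemma in the folded
slice.
-/

namespace Pool.Agent.DI

open MulAction
open Pool.Agent.SAF (InC orbs FinOrb oc)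

variable {H V : Type} [Group H] [MulAction H V]

namespace P45

variable {K : GX H V} {P : P45 K}

/-- a chain of tops over tops is a tower -/
theorem SqT.tow (hs : P.SqT) {k T : V} (h : Relation.TransGen P.Ov k T) :
    ∃ n, P.Tow k (n + 1) T := by
  have hR : ∀ {T T' : V}, P.Ov T T' → ∃ m z, P.TopR T' T m z ∧ K.ar T z := by
    rintro T T' ⟨m, z, h1, e⟩
    exact ⟨m, z, SqE.TopR hs h1 (fun k => k), e⟩
  induction h with
  | single h =>
    obtain ⟨m, z, h1, e⟩ := hR h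
    exact ⟨0, _, _, _, rfl, h1, e⟩
  | tail _ h ih =>
    obtain ⟨n, hn⟩ := ih
    obtain ⟨m, z, h1, e⟩ := hR h
    exact ⟨n + 1, _, _, _, hn, h1, e⟩

/-- COROLLARY 1 for the plain strands -/
theorem SqT.cor1X (hs : P.SqT) (h1 : ∀ T a b y, P.Top T a b y → 1 ≤ P.X T a) (hm : K.Min)
    {T a b y : V} (h : P.Top T a b y) : P.X T a = P.X T b := by
  have hC := SqT.cl hs h1
  have e := Cl.cor1Z hC hm h.2.1 h.2.2
  rw [SqT.XW_eq hs h, SqT.XW_eq hs h.symm'] at e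
  omega

/-- THE TOWER LEMMA for the plain strands -/
theorem SqT.towerX (hs : P.SqT) (h1 : ∀ T a b y, P.Top T a b y → 1 ≤ P.X T a) (hm : K.Min)
    {k a b : V} (ka : K.ar k a) (kb : K.ar k b) (hr : K.rk a ≠ K.rk b) {T : V}
    (hT : Relation.TransGen P.Ov k T) : P.Tn T := by
  obtain ⟨n, hn⟩ := SqT.tow hs hT
  intro c d y h
  have hC := SqT.cl hs h1
  have e := Cl.tower0 hC hm ka kb hr hn h.2.1
  rw [SqT.XW_eq hs h] at e
  omega

/-- THE TOWER LEMMA over a gamma top -/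
theorem SqT.nft (hs : P.SqT) (h1 : ∀ T a b y, P.Top T a b y → 1 ≤ P.X T a) (hm : K.Min)
    {k s T : V} (hk : (k, s) ∈ P.U) (hT : Relation.TransGen P.Ov k T) : P.Tn T := by
  obtain ⟨b, y, h, e1, e2⟩ := hk
  have r1 := K.ar_rk _ _ e1
  have r2 := K.ar_rk _ _ e2
  exact SqT.towerX hs h1 hm h.2.1 h.2.2 (by omega) hT

/-! ### the thinned complex -/

theorem thin_Ov {T T' : V} : P.thinP.Ov T T' ↔ P.Ov T T' := by
  unfold Ov
  simp only [P.thin_Top]
  rfl

theorem thin_Tn {T : V} : P.thinP.Tn T ↔ P.Tn T := by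
  unfold Tn
  simp only [P.thin_Top, P.thin_X]

theorem thin_Ov_eq : P.thinP.Ov = P.Ov := by
  funext T T'
  exact propext P45.thin_Ov

/-- the tower lemma in a complex whose thinned complex is in the static class -/
theorem nft_thin (hs : P.thinP.SqT) (h1 : ∀ T a b y, P.Top T a b y → 1 ≤ P.X T a) (hm : K.Min)
    {k s T : V} (hk : (k, s) ∈ P.U) (hT : Relation.TransGen P.Ov k T) : P.Tn T := by
  rw [← thin_Tn]
  refine SqT.nft hs ?_ (P.thin_Min.2 hm) (k := k) (s := s) ?_ ?_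
  · intro T a b y h
    rw [P.thin_X]
    exact h1 _ _ _ _ (P.thin_Top.1 h)
  · rw [P.thin_U]
    exact hk
  · rw [thin_Ov_eq]
    exact hT

theorem tower_thin (hs : P.thinP.SqT) (h1 : ∀ T a b y, P.Top T a b y → 1 ≤ P.X T a) (hm : K.Min)
    {k a b : V} (ka : K.ar k a) (kb : K.ar k b) (hr : K.rk a ≠ K.rk b) {T : V}
    (hT : Relation.TransGen P.Ov k T) : P.Tn T := by
  rw [← thin_Tn]
  refine SqT.towerX (K := P.thin) hs ?_ (P.thin_Min.2 hm) (k := k) (a := a) (b := b) ka kb hr ?_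
  · intro T a b y h
    rw [P.thin_X]
    exact h1 _ _ _ _ (P.thin_Top.1 h)
  · rw [thin_Ov_eq]
    exact hT

theorem cor1_thin (hs : P.thinP.SqT) (h1 : ∀ T a b y, P.Top T a b y → 1 ≤ P.X T a) (hm : K.Min)
    {T a b y : V} (h : P.Top T a b y) : P.X T a = P.X T b := by
  rw [← P.thin_X, ← P.thin_X]
  refine SqT.cor1X hs ?_ (P.thin_Min.2 hm) (P.thin_Top.2 h)
  intro T a b y h
  rw [P.thin_X]
  exact h1 _ _ _ _ (P.thin_Top.1 h)

end P45

namespace SyQ

variable {S : SyQ H V}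
variable {hc : S.Conn} {w : S.X} {O : S.OR w} {hm : (S.k0 hc w).Min} {hn : S.SqN w O}

/-- THE TOWER LEMMA IN THE FOLDED SLICE -/
theorem kf_nft (hO : O.Nf) (hK : S.KIn w)
    (x1 : ∀ p ∈ (S.kfP hc w O hm hn).TA, 1 ≤ (S.kfP hc w O hm hn).X p.1 p.2) (k s T : S.Q w O)
    (hk : (k, s) ∈ (S.kfP hc w O hm hn).U)
    (hT : Relation.TransGen (S.kfP hc w O hm hn).Ov k T) : (S.kfP hc w O hm hn).Tn T :=
  P45.nft_thin (kf_thin_SqT hO hK) (fun _ _ _ _ h => x1 (_, _) ⟨_, _, h⟩) (S.kf_min hc w O hm)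
    hk hT

/-- COROLLARY 1 IN THE FOLDED SLICE -/
theorem kf_cor1 (hO : O.Nf) (hK : S.KIn w)
    (x1 : ∀ p ∈ (S.kfP hc w O hm hn).TA, 1 ≤ (S.kfP hc w O hm hn).X p.1 p.2) {T a b y : S.Q w O}
    (h : (S.kfP hc w O hm hn).Top T a b y) :
    (S.kfP hc w O hm hn).X T a = (S.kfP hc w O hm hn).X T b :=
  P45.cor1_thin (kf_thin_SqT hO hK) (fun _ _ _ _ h => x1 (_, _) ⟨_, _, h⟩) (S.kf_min hc w O hm) h

end SyQ

end Pool.Agent.DI
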