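import Pool.Agent.DI.K0b

/-!
# Theorem A for tracks, part 1: local vertices, potentials
-/

namespace Pool.Agent.DI

open MulAction
open Pool.Agent.SAF (InC orbs FinOrb oc Decomp SAn SA Conv hull dist_edge FinOrb_iff exists_next)
open Pool.Agent.BT (PX PQ JS bey exits)
open Pool.Agent.BT.TA

namespace Sys

variable {H V : Type} [Group H] [MulAction H V] (S : Sys H V)

/-! ### local vertices -/

/-- local vertices -/
def V1 : Type := {q : V × S.X // q.2 ∈ S.J q.1}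

instance actV1 : MulAction H S.V1 where
  smul h q := ⟨(h • q.1.1, h • q.1.2), S.js.smul h _ _ q.2⟩
  one_smul q := Subtype.ext (one_smul H q.1)
  mul_smul a b q := Subtype.ext (mul_smul a b q.1)

/-- the generating relation -/
def lr (q r : S.V1) : Prop := q.1.2 = r.1.2 ∧ S.SR q.1.2 q.1.1 r.1.1

/-- same component -/
def ls : Setoid S.V1 := Relation.EqvGen.setoid S.lr

theorem lr_smul (h : H) (q r : S.V1) (e : S.lr q r) : S.lr (h • q) (h • r) := by
  refine ⟨?_, ?_⟩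
  · change h • q.1.2 = h • r.1.2
    rw [e.1]
  · exact SR.smul S h e.2

theorem ls_smul (h : H) (q r : S.V1) (e : S.ls q r) : S.ls (h • q) (h • r) := by
  induction e with
  | rel x y hxy => exact Relation.EqvGen.rel _ _ (S.lr_smul h x y hxy)
  | refl x => exact Relation.EqvGen.refl _
  | symm x y _ ih => exact Relation.EqvGen.symm _ _ ih
  | trans x y z _ _ ih1 ih2 => exact Relation.EqvGen.trans _ _ _ ih1 ih2

/-- vertices of the new tree -/
def LV : Type := Quotient S.ls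

/-- the component of a local vertex -/
def cm (q : S.V1) : S.LV := Quotient.mk S.ls q

instance actLV : MulAction H S.LV where
  smul h := Quotient.map (fun p => h • p) (fun p q e => S.ls_smul h p q e)
  one_smul l := by
    induction l using Quotient.inductionOn with
    | h p => exact congrArg (Quotient.mk S.ls) (one_smul H p)
  mul_smul a b l := by
    induction l using Quotient.inductionOn with
    | h p => exact congrArg (Quotient.mk S.ls) (mul_smul a b p)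

theorem ls_snd (q r : S.V1) (e : S.ls q r) : q.1.2 = r.1.2 := by
  induction e with
  | rel x y hxy => exact hxy.1
  | refl x => rfl
  | symm x y _ ih => exact ih.symm
  | trans x y z _ _ ih1 ih2 => exact ih1.trans ih2

/-- the point of the old tree under a vertex of the new tree -/
def pr : S.LV → S.X := Quotient.lift (fun q => q.1.2) (fun q r e => S.ls_snd q r e)

theorem cm_smul (h : H) (q : S.V1) : S.cm (h • q) = h • S.cm q := rfl

theorem pr_cm (q : S.V1) : S.pr (S.cm q) = q.1.2 := rfl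

theorem pr_smul (h : H) (l : S.LV) : S.pr (h • l) = h • S.pr l := by
  induction l using Quotient.inductionOn with
  | h p => rfl

/-- the new subtree of `x` -/
def J' (x : V) : Set S.LV := {l | ∃ h : S.pr l ∈ S.J x, S.cm ⟨(x, S.pr l), h⟩ = l}

theorem J'_iff (x : V) (l : S.LV) : l ∈ S.J' x ↔ ∃ q : S.V1, q.1.1 = x ∧ S.cm q = l := by
  constructor
  · rintro ⟨h, e⟩
    exact ⟨_, rfl, e⟩
  · rintro ⟨q, rfl, rfl⟩
    exact ⟨q.2, rfl⟩

theorem J'_cm (q : S.V1) : S.cm q ∈ S.J' q.1.1 := (S.J'_iff _ _).2 ⟨q, rfl, rfl⟩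

theorem J'_pr {x : V} {l : S.LV} (h : l ∈ S.J' x) : S.pr l ∈ S.J x := h.choose

theorem J'_smul (h : H) (x : V) (l : S.LV) (e : l ∈ S.J' x) : h • l ∈ S.J' (h • x) := by
  obtain ⟨q, rfl, rfl⟩ := (S.J'_iff _ _).1 e
  exact (S.J'_iff _ _).2 ⟨h • q, rfl, rfl⟩

theorem J'_inj {l l' : S.LV} {x : V} (h : l ∈ S.J' x) (h' : l' ∈ S.J' x) (e : S.pr l = S.pr l') :
    l = l' := by
  obtain ⟨a, ha⟩ := h
  obtain ⟨b, hb⟩ := h'
  rw [← ha, ← hb]
  exact congrArg S.cm (Subtype.ext (Prod.ext rfl e))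

/-- transport along a generating pair -/
theorem J'_SR {x z : V} {l : S.LV} (h : l ∈ S.J' x) (k : S.SR (S.pr l) x z) : l ∈ S.J' z := by
  obtain ⟨a, ha⟩ := h
  have hm := (SR.mem S k).2
  refine ⟨hm, ?_⟩
  have h1 : S.cm ⟨(x, S.pr l), a⟩ = S.cm ⟨(z, S.pr l), hm⟩ :=
    Quotient.sound (Relation.EqvGen.rel _ _ ⟨rfl, k⟩)
  exact h1.symm.trans ha

theorem J'_E {x y : V} {l : S.LV} (e : S.K.E x y) (h : l ∈ S.J' x) (h' : S.pr l ∈ S.J y) :
    l ∈ S.J' y := S.J'_SR h (Or.inl ⟨e, S.J'_pr h, h'⟩)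

/-- adjacency of the new tree -/
def LAdj (l l' : S.LV) : Prop := S.D.G.Adj (S.pr l) (S.pr l') ∧ ∃ x, l ∈ S.J' x ∧ l' ∈ S.J' x

/-- the new tree -/
def LG : SimpleGraph S.LV where
  Adj := S.LAdj
  symm := ⟨fun _ _ h => ⟨h.1.symm, h.2.imp (fun _ e => ⟨e.2, e.1⟩)⟩⟩
  loopless := ⟨fun _ h => S.D.G.loopless.irrefl _ h.1⟩

theorem LAdj_smul (h : H) (l l' : S.LV) (e : S.LAdj l l') : S.LAdj (h • l) (h • l') := by
  refine ⟨?_, ?_⟩
  · rw [S.pr_smul, S.pr_smul]
    exact S.D.adj_smul h _ _ e.1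
  · obtain ⟨x, hx, hx'⟩ := e.2
    exact ⟨h • x, S.J'_smul h x l hx, S.J'_smul h x l' hx'⟩

/-! ### potentials -/

/-- a union of classes of the wall -/
structure Cl (w w' : S.X) (C : V → Prop) : Prop where
  adj : S.D.G.Adj w w'
  mem : ∀ x, C x → S.Cs w w' x
  cl : ∀ x z, S.PW w w' x z → (C x ↔ C z)

open Classical in
/-- indicator -/
noncomputable def ci (C : V → Prop) (x : V) : ZMod 2 := if C x then 1 else 0

open Classical in
/-- side of a point -/
noncomputable def sd (w w' u : S.X) : ZMod 2 := if u ∈ bey S.D.G w w' then 1 else 0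

open Classical in
/-- side of the common point of two vertices -/
noncomputable def sp (w w' : S.X) (x y : V) : ZMod 2 :=
  if S.J x ∩ S.J y ⊆ bey S.D.G w w' then 1 else 0

/-- the cochain -/
noncomputable def ph (w w' : S.X) (C : V → Prop) (x y : V) : ZMod 2 :=
  (ci C x + ci C y) * S.sp w w' x y

theorem sp_symm (w w' : S.X) (x y : V) : S.sp w w' x y = S.sp w w' y x := by
  unfold sp
  rw [Set.inter_comm]

theorem ph_symm (w w' : S.X) (C : V → Prop) (x y : V) : S.ph w w' C x y = S.ph w w' C y x := by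
  unfold ph
  rw [S.sp_symm, add_comm]

/-- side of the common point -/
theorem sp_eq (w w' : S.X) {x y : V} (e : S.K.E x y) {p : S.X} (h1 : p ∈ S.J x) (h2 : p ∈ S.J y) :
    S.sp w w' x y = S.sd w w' p := by
  unfold sp sd
  have h : (S.J x ∩ S.J y ⊆ bey S.D.G w w') ↔ p ∈ bey S.D.G w w' := by
    constructor
    · intro h
      exact h ⟨h1, h2⟩
    · rintro h q ⟨q1, q2⟩
      rwa [S.one_eq e q1 q2 h1 h2]
  by_cases hp : p ∈ bey S.D.G w w'
  · rw [if_pos (h.2 hp), if_pos hp]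
  · rw [if_neg (fun k => hp (h.1 k)), if_neg hp]

theorem sd_mem {w w' u : S.X} (h : u ∈ bey S.D.G w w') : S.sd w w' u = 1 := if_pos h

theorem sd_not {w w' u : S.X} (h : u ∈ bey S.D.G w' w) : S.sd w w' u = 0 :=
  if_neg (fun k => bey_not k h)

theorem sd_or {w w' : S.X} (h : S.D.G.Adj w w') (u : S.X) :
    (S.sd w w' u = 1 ∧ u ∈ bey S.D.G w w') ∨ (S.sd w w' u = 0 ∧ u ∈ bey S.D.G w' w) := by
  rcases bey_or S.D.tree h u with hu | hu
  · exact Or.inl ⟨S.sd_mem hu, hu⟩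
  · exact Or.inr ⟨S.sd_not hu, hu⟩

theorem sd_ne {w w' : S.X} (h : S.D.G.Adj w w') {x : V} {a b : S.X} (ha : a ∈ S.J x)
    (hb : b ∈ S.J x) (hne : S.sd w w' a ≠ S.sd w w' b) : S.Cs w w' x := by
  rcases S.sd_or h a with ⟨e1, h1⟩ | ⟨e1, h1⟩ <;> rcases S.sd_or h b with ⟨e2, h2⟩ | ⟨e2, h2⟩
  · exact absurd (e1.trans e2.symm) hne
  · exact conv_cr S.D.tree (S.js.conv x) h hb ha h2 h1
  · exact conv_cr S.D.tree (S.js.conv x) h ha hb h1 h2
  · exact absurd (e1.trans e2.symm) hne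

variable {S}

theorem ci_mem {C : V → Prop} {x : V} (h : C x) : ci C x = 1 := if_pos h

theorem ci_not {C : V → Prop} {x : V} (h : ¬ C x) : ci C x = 0 := if_neg h

theorem ci_congr {C : V → Prop} {x z : V} (h : C x ↔ C z) : ci C x = ci C z := by
  by_cases hx : C x
  · rw [ci_mem hx, ci_mem (h.1 hx)]
  · rw [ci_not hx, ci_not (fun k => hx (h.2 k))]

theorem Cl.nc {w w' : S.X} {C : V → Prop} (hC : S.Cl w w' C) {x : V} (h : ¬ S.Cs w w' x) :
    ci C x = 0 := ci_not (fun k => h (hC.mem x k))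

/-- a pentagon crosses the edge at `a` and at `b` -/
theorem pw_of_sides {w w' : S.X} (h : S.D.G.Adj w w') {a q b y z : V} (hp : Pn S.P a q b y z)
    (h1 : S.sp w w' z a ≠ S.sp w w' a q) (h2 : S.sp w w' q b ≠ S.sp w w' b y) :
    S.PW w w' a b := by
  obtain ⟨p1, p1a, p1q⟩ := S.one_ex hp.E1
  obtain ⟨p2, p2q, p2b⟩ := S.one_ex hp.E2
  obtain ⟨p3, p3b, p3y⟩ := S.one_ex hp.E3
  obtain ⟨p4, p4y, p4z⟩ := S.one_ex hp.E4
  obtain ⟨p5, p5z, p5a⟩ := S.one_ex hp.E5
  rw [S.sp_eq w w' hp.E5 p5z p5a, S.sp_eq w w' hp.E1 p1a p1q] at h1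
  rw [S.sp_eq w w' hp.E2 p2q p2b, S.sp_eq w w' hp.E3 p3b p3y] at h2
  have ca : S.Cs w w' a := S.sd_ne h p5a p1a h1
  have cb : S.Cs w w' b := S.sd_ne h p2b p3b h2
  have nq : ¬ S.Cs w w' q := S.adj_nc h hp.E1 ca
  have ny : ¬ S.Cs w w' y := S.adj_nc h hp.E3 cb
  have nz : ¬ S.Cs w w' z := S.adj_nc h (Or.symm hp.E5) ca
  refine ⟨h, ca, cb, q, y, z, hp, ?_⟩
  rcases S.side_or h nq with sq | sq
  · left
    have e1 := S.sd_mem (sq p1q)
    have e2 := S.sd_mem (sq p2q)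
    rw [e1] at h1
    rw [e2] at h2
    have e5 : p5 ∈ bey S.D.G w' w := by
      rcases S.sd_or h p5 with ⟨k, _⟩ | ⟨_, k⟩
      · exact absurd k h1
      · exact k
    have e3 : p3 ∈ bey S.D.G w' w := by
      rcases S.sd_or h p3 with ⟨k, _⟩ | ⟨_, k⟩
      · exact absurd k.symm h2
      · exact k
    exact ⟨sq, S.side_of h.symm (fun k => ny k.swap) p3y e3,
      S.side_of h.symm (fun k => nz k.swap) p5z e5⟩
  · right
    have e1 := S.sd_not (sq p1q)
    have e2 := S.sd_not (sq p2q)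
    rw [e1] at h1
    rw [e2] at h2
    have e5 : p5 ∈ bey S.D.G w w' := by
      rcases S.sd_or h p5 with ⟨_, k⟩ | ⟨k, _⟩
      · exact k
      · exact absurd k h1
    have e3 : p3 ∈ bey S.D.G w w' := by
      rcases S.sd_or h p3 with ⟨_, k⟩ | ⟨k, _⟩
      · exact k
      · exact absurd k.symm h2
    exact ⟨sq, S.side_of h ny p3y e3, S.side_of h nz p5z e5⟩

/-- a finite check: `t` = crossing indicator, `c` = class indicator -/
theorem five_check : ∀ s0 s1 s2 s3 s4 c0 c1 c2 c3 c4 : ZMod 2,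
    (s4 = s0 ∨ s0 = s1) → (s0 = s1 ∨ s1 = s2) → (s1 = s2 ∨ s2 = s3) → (s2 = s3 ∨ s3 = s4) →
    (s3 = s4 ∨ s4 = s0) →
    (s4 ≠ s0 → s1 ≠ s2 → c0 = c2) → (s0 ≠ s1 → s2 ≠ s3 → c1 = c3) →
    (s1 ≠ s2 → s3 ≠ s4 → c2 = c4) → (s2 ≠ s3 → s4 ≠ s0 → c3 = c0) →
    (s3 ≠ s4 → s0 ≠ s1 → c4 = c1) →
    (c0 + c1) * s0 + (c1 + c2) * s1 + (c2 + c3) * s2 + (c3 + c4) * s3 + (c4 + c0) * s4 = 0 := by
  have two : ∀ a : ZMod 2, a = 0 ∨ a = 1 := by decide
  have z1 : (0 : ZMod 2) ≠ 1 := by decide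
  have z2 : (1 : ZMod 2) ≠ 0 := by decide
  have hz : ∀ a : ZMod 2, a + a = 0 := fun a => CharTwo.add_self_eq_zero a
  intro s0 s1 s2 s3 s4 c0 c1 c2 c3 c4 a0 a1 a2 a3 a4 b0 b1 b2 b3 b4
  have k0 := hz c0
  have k1 := hz c1
  have k2 := hz c2
  have k3 := hz c3
  have k4 := hz c4
  rcases two s0 with rfl | rfl <;> rcases two s1 with rfl | rfl <;>
    rcases two s2 with rfl | rfl <;> rcases two s3 with rfl | rfl <;>
    rcases two s4 with rfl | rfl <;>
    simp only [z1, z2, or_self, ne_eq, not_true_eq_false, not_false_eq_true, or_false, or_true,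
      true_or, false_or, forall_const, false_imp_iff, true_imp_iff, imp_true_iff, mul_zero,
      mul_one, add_zero, zero_add] at *
  all_goals
    clear k0 k1 k2 k3 k4 hz two
    revert c0 c1 c2 c3 c4
    decide

/-- the cochain vanishes on pentagons -/
theorem ph5 {w w' : S.X} {C : V → Prop} (hC : S.Cl w w' C) {v0 v1 v2 v3 v4 : V}
    (hp : Pn S.P v0 v1 v2 v3 v4) : S.ph w w' C v0 v1 + S.ph w w' C v1 v2 + S.ph w w' C v2 v3 +
      S.ph w w' C v3 v4 + S.ph w w' C v4 v0 = 0 := by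
  have hp1 := hp.rot
  have hp2 := hp1.rot
  have hp3 := hp2.rot
  have hp4 := hp3.rot
  have adj : ∀ {a q b y z : V}, Pn S.P a q b y z →
      (S.sp w w' z a = S.sp w w' a q ∨ S.sp w w' a q = S.sp w w' q b) := by
    intro a q b y z h
    by_contra hcon
    push Not at hcon
    obtain ⟨p1, p1a, p1q⟩ := S.one_ex h.E1
    obtain ⟨p2, p2q, p2b⟩ := S.one_ex h.E2
    obtain ⟨p5, p5z, p5a⟩ := S.one_ex h.E5
    rw [S.sp_eq w w' h.E5 p5z p5a, S.sp_eq w w' h.E1 p1a p1q, S.sp_eq w w' h.E2 p2q p2b] at hcon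
    exact S.not_both hC.adj h.E1 (S.sd_ne hC.adj p5a p1a hcon.1) (S.sd_ne hC.adj p1q p2q hcon.2)
  have cc : ∀ {a q b y z : V}, Pn S.P a q b y z → S.sp w w' z a ≠ S.sp w w' a q →
      S.sp w w' q b ≠ S.sp w w' b y → ci C a = ci C b := by
    intro a q b y z h h1 h2
    exact ci_congr (hC.cl _ _ (pw_of_sides hC.adj h h1 h2))
  unfold ph
  exact five_check _ _ _ _ _ _ _ _ _ _ (adj hp) (adj hp1) (adj hp2) (adj hp3) (adj hp4)
    (cc hp) (cc hp1) (cc hp2) (cc hp3) (cc hp4)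

/-- the potential -/
theorem exists_pot {w w' : S.X} {C : V → Prop} (hC : S.Cl w w' C) :
    ∃ g : V → ZMod 2, ∀ x y, S.K.E x y → S.ph w w' C x y = g x + g y := by
  apply S.K.H1 (S.ph w w' C) (S.ph_symm w w' C)
  intro i h
  rw [S.P.ps_cell, Fin.sum_univ_five]
  have hp := Pn_pt (P := S.P) h i 0
  exact ph5 hC hp

end Sys

end Pool.Agent.DI
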