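import Pool.Agent.DI.UqL

/-!
# One crossing corner at a vertex whose local pieces have one strand in each direction (helper78)

`SyQ.SU z`: at every vertex `r` of `J z` the corners which leave one local piece (pages of `z` over `r`,
joined over `r`) through one exit (an edge of `J z` at `r`, or a pole of `z` over `r`) are one orbit.
`SyQ.Th1 z`: the corners at one pole are one orbit. THEOREM `uqC_of`: link connected, `SU z`, `Th1 z`
give `UqC w u z` for every edge `w u` of `J z`.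
-/

attribute [local instance 2000] SubMulAction.mulAction

namespace Pool.Agent.DI

open MulAction
open Pool.Agent.SAF (InC orbs FinOrb oc Decomp SAn SA Conv hull dist_edge FinOrb_iff exists_next TAct)
open Pool.Agent.BT (PX PQ JS bey exits)
open Pool.Agent.BT.TA

namespace SyQ

variable {H V : Type} [Group H] [MulAction H V] (S : SyQ H V)

/-- joined at `z` over `r`: two pages over `r` -/
def LR (z : V) (r : S.X) (n m : V) : Prop :=
  S.K.Cor n z m ∧ S.K.ar n z ∧ S.K.ar m z ∧ r ∈ S.J n ∧ r ∈ S.J m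

/-- the nodes `m`, `m'` are reached from `r` through one exit -/
def ExS (z : V) (r : S.X) (m m' : V) : Prop :=
  (∃ t, S.D.G.Adj r t ∧ t ∈ S.J z ∧ S.J m ⊆ bey S.D.G r t ∧ S.J m' ⊆ bey S.D.G r t) ∨
  (m = m' ∧ S.K.ar z m ∧ r ∈ S.J m)

/-- the ends of a corner -/
def En (e : S.K.LE) (n m : V) : Prop :=
  (S.K.c0 e = n ∧ S.K.c2 e = m) ∨ (S.K.c0 e = m ∧ S.K.c2 e = n)

/-- ONE STRAND FOR EVERY LOCAL PIECE AND EVERY EXIT -/
def SU (z : V) : Prop := ∀ r ∈ S.J z, ∀ (e e' : S.K.LE) (n m n' m' : V), S.K.c1 e = z →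
  S.K.c1 e' = z → S.En e n m → S.En e' n' m' → S.K.ar n z → S.K.ar n' z → r ∈ S.J n →
  r ∈ S.J n' → Relation.EqvGen (S.LR z r) n n' → S.ExS z r m m' →
  ∃ g : H, g • z = z ∧ g • r = r ∧ e' = g • e

/-- the corners at a pole are one orbit -/
def Th1 (z : V) : Prop := ∀ (a : V), S.K.ar z a → ∀ (e e' : S.K.LE) (m m' : V), S.K.c1 e = z →
  S.K.c1 e' = z → S.En e a m → S.En e' a m' → ∃ g : H, g • z = z ∧ g • a = a ∧ e' = g • e

variable {S}

theorem En.smul (g : H) {e : S.K.LE} {n m : V} (h : S.En e n m) : S.En (g • e) (g • n) (g • m) := by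
  rcases h with ⟨rfl, rfl⟩ | ⟨rfl, rfl⟩
  · exact Or.inl ⟨S.K.c0_smul g e, S.K.c2_smul g e⟩
  · exact Or.inr ⟨S.K.c0_smul g e, S.K.c2_smul g e⟩

theorem En.two {e : S.K.LE} {n m n' m' : V} (h : S.En e n m) (h' : S.En e n' m') :
    (n' = n ∧ m' = m) ∨ (n' = m ∧ m' = n) := by
  rcases h with ⟨rfl, rfl⟩ | ⟨rfl, rfl⟩ <;> rcases h' with ⟨rfl, rfl⟩ | ⟨rfl, rfl⟩
  · exact Or.inl ⟨rfl, rfl⟩
  · exact Or.inr ⟨rfl, rfl⟩
  · exact Or.inr ⟨rfl, rfl⟩
  · exact Or.inl ⟨rfl, rfl⟩

theorem ar_not {x y : V} (h : S.K.ar x y) (h' : S.K.ar y x) : False :=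
  absurd (S.K.ar_rk _ _ h) (not_lt.2 (S.K.ar_rk _ _ h').le)

/-- a neighbour of `z` does not cross an edge of `J z` -/
theorem nb_not_Cs {z n : V} (h : S.K.E z n) {r t : S.X} (hr : r ∈ S.J z) (ht : t ∈ S.J z)
    (hrt : S.D.G.Adj r t) : ¬ S.Cs r t n := by
  rintro ⟨h1, h2⟩
  obtain ⟨p, hp⟩ := S.js.one z n h
  have e1 : r ∈ S.J z ∩ S.J n := ⟨hr, h1⟩
  have e2 : t ∈ S.J z ∩ S.J n := ⟨ht, h2⟩
  rw [hp] at e1 e2
  rw [Set.mem_singleton_iff] at e1 e2
  exact hrt.ne (e1.trans e2.symm)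

/-- the point where the neighbour `n` is attached to `J z` -/
theorem pt_unique {z n : V} (h : S.K.E z n) {r t : S.X} (hr : r ∈ S.J z) (hr' : r ∈ S.J n)
    (ht : t ∈ S.J z) (ht' : t ∈ S.J n) : r = t := by
  obtain ⟨p, hp⟩ := S.js.one z n h
  have e1 : r ∈ S.J z ∩ S.J n := ⟨hr, hr'⟩
  have e2 : t ∈ S.J z ∩ S.J n := ⟨ht, ht'⟩
  rw [hp] at e1 e2
  rw [Set.mem_singleton_iff] at e1 e2
  exact e1.trans e2.symm

section

variable {w u : S.X} {z : V}

/-- the neighbour `n` is attached at `s`: it is beyond the neighbour of `r` towards `s` -/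
theorem nb_bey {n : V} (h : S.K.E z n) {r t s : S.X} (hr : r ∈ S.J z) (ht : t ∈ S.J z)
    (hrt : S.D.G.Adj r t) (hs : s ∈ S.J n) (hb : s ∈ bey S.D.G r t) : S.J n ⊆ bey S.D.G r t :=
  S.side_of hrt (nb_not_Cs h hr ht hrt) hs hb

/-- the neighbour in the direction of `s` -/
theorem toward {r s : S.X} (hr : r ∈ S.J z) (hs : s ∈ S.J z) (hne : r ≠ s) :
    ∃ t, S.D.G.Adj r t ∧ t ∈ S.J z ∧ s ∈ bey S.D.G r t ∧
      S.D.G.dist r s = S.D.G.dist t s + 1 := by
  obtain ⟨t, ht, e⟩ := exists_next S.D.tree hne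
  have d1 : S.D.G.dist r t = 1 := SimpleGraph.dist_eq_one_iff_adj.2 ht
  have e1 : S.D.G.dist s r = S.D.G.dist r s := SimpleGraph.dist_comm
  have e2 : S.D.G.dist s t = S.D.G.dist t s := SimpleGraph.dist_comm
  refine ⟨t, ht, S.js.conv z r hr s hs t (by omega), ?_, e⟩
  show S.D.G.dist s r = S.D.G.dist s t + 1
  omega

/-- two vertices of `J z` on one side of `r` are in one direction -/
theorem same_dir (hu : S.D.G.Adj w u) (hz : S.Cs w u z) {r s t : S.X} (hr : r ∈ S.J z)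
    (hs : s ∈ S.J z) (ht : t ∈ S.J z) (hrt : S.D.G.Adj r t)
    (h : (S.px w u r < S.px w u t ∧ S.px w u r < S.px w u s) ∨
      (S.px w u t < S.px w u r ∧ S.px w u s < S.px w u r)) : s ∈ bey S.D.G r t := by
  have i1 := px_iso hu hz hr ht
  have i2 := px_iso hu hz hs hr
  have i3 := px_iso hu hz hs ht
  rw [SimpleGraph.dist_eq_one_iff_adj.2 hrt] at i1
  show S.D.G.dist s r = S.D.G.dist s t + 1
  rcases abs_cases (S.px w u r - S.px w u t) with ⟨a1, a2⟩ | ⟨a1, a2⟩ <;>
    rcases abs_cases (S.px w u s - S.px w u r) with ⟨b1, b2⟩ | ⟨b1, b2⟩ <;>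
    rcases abs_cases (S.px w u s - S.px w u t) with ⟨c1, c2⟩ | ⟨c1, c2⟩ <;> omega

/-- at a vertex with a pole every vertex of `J z` is in one direction -/
theorem pole_dir {a : V} {r t s : S.X} (hr : r ∈ S.J z) (ha : S.K.ar z a) (hra : r ∈ S.J a)
    (hrt : S.D.G.Adj r t) (ht : t ∈ S.J z) (hs : s ∈ S.J z) (hne : r ≠ s) :
    s ∈ bey S.D.G r t := by
  obtain ⟨t', h1, h2, h3, -⟩ := toward hr hs hne
  rw [one_pole hr ha hra hrt h1 ht h2]
  exact h3

variable (S w u z)

/-- the elements which fix `z`, `w`, `u` -/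
def N3 : Subgroup H := stabilizer H z ⊓ (stabilizer H w ⊓ stabilizer H u)

/-- the nodes at `z` -/
def Nd3 : SubMulAction (S.N3 w u z) V where
  carrier := {n | S.K.E z n}
  smul_mem' g n e := by
    have h1 : (g : H) • z = z := g.2.1
    have := S.K.E_smul (g : H) e
    rw [h1] at this
    exact this

/-- the corners at `z` -/
def Cn3' : SubMulAction (S.N3 w u z) S.K.LE where
  carrier := {e | S.K.c1 e = z}
  smul_mem' g e h := by
    have h1 : (g : H) • z = z := g.2.1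
    have h2 : S.K.c1 e = z := h
    show S.K.c1 ((g : H) • e) = z
    rw [S.K.c1_smul, h2, h1]

/-- the first end -/
noncomputable def s3 (e : S.Cn3' w u z) : S.Nd3 w u z :=
  ⟨S.K.c0 e.1, by
    have h : S.K.c1 e.1 = z := e.2
    have := S.K.c_E0 e.1
    rw [h] at this
    exact this⟩

/-- the second end -/
noncomputable def t3 (e : S.Cn3' w u z) : S.Nd3 w u z :=
  ⟨S.K.c2 e.1, by
    have h : S.K.c1 e.1 = z := e.2
    have := S.K.c_E2 e.1
    rw [h] at this
    exact this⟩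

/-- where a neighbour is attached -/
noncomputable def pt3 (n : S.Nd3 w u z) : S.X := (S.js.one z n.1 n.2).choose

open Classical in
/-- the position of a neighbour -/
noncomputable def pos3 (n : S.Nd3 w u z) : ℤ :=
  if S.K.ar z n.1 then
    (if S.pt3 w u z n ∈ bey S.D.G w u then S.px w u (S.pt3 w u z n) + 1
      else S.px w u (S.pt3 w u z n) - 1)
  else S.px w u (S.pt3 w u z n)

variable {S w u z}

theorem pt3_spec (n : S.Nd3 w u z) : S.pt3 w u z n ∈ S.J z ∧ S.pt3 w u z n ∈ S.J n.1 := by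
  have h := (S.js.one z n.1 n.2).choose_spec
  have key : ∀ (A : Set S.X) (p : S.X), A = {p} → p ∈ A := fun A p h => by
    rw [h]
    exact Set.mem_singleton _
  exact key _ _ h

theorem pt3_eq (n : S.Nd3 w u z) {r : S.X} (h1 : r ∈ S.J z) (h2 : r ∈ S.J n.1) :
    S.pt3 w u z n = r :=
  pt_unique n.2 (pt3_spec n).1 (pt3_spec n).2 h1 h2

theorem N3_fix (hu : S.D.G.Adj w u) (hz : S.Cs w u z) (g : S.N3 w u z) {s : S.X}
    (hs : s ∈ S.J z) : (g : H) • s = s :=
  fix_all hu hz g.2.1 hz.1 hz.2 hu g.2.2.1 g.2.2.2 hs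

theorem N3_of (hu : S.D.G.Adj w u) (hz : S.Cs w u z) {g : H} (gz : g • z = z) {r t : S.X}
    (hr : r ∈ S.J z) (ht : t ∈ S.J z) (hrt : S.D.G.Adj r t) (gr : g • r = r) (gt : g • t = t) :
    g ∈ S.N3 w u z :=
  ⟨gz, fix_all hu hz gz hr ht hrt gr gt hz.1, fix_all hu hz gz hr ht hrt gr gt hz.2⟩

theorem pt3_smul (hu : S.D.G.Adj w u) (hz : S.Cs w u z) (g : S.N3 w u z) (n : S.Nd3 w u z) :
    S.pt3 w u z (g • n) = S.pt3 w u z n := by
  apply pt3_eq _ (pt3_spec n).1
  have h := S.js.smul (g : H) n.1 _ (pt3_spec n).2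
  rw [N3_fix hu hz g (pt3_spec n).1] at h
  exact h

theorem pos3_smul (hu : S.D.G.Adj w u) (hz : S.Cs w u z) (g : S.N3 w u z) (n : S.Nd3 w u z) :
    S.pos3 w u z (g • n) = S.pos3 w u z n := by
  have h1 : S.K.ar z (g • n).1 ↔ S.K.ar z n.1 := by
    have gz : (g : H) • z = z := g.2.1
    have gz' : (g : H)⁻¹ • z = z := inv_smul_eq_iff.2 gz.symm
    constructor
    · intro h
      have h' : S.K.ar z ((g : H) • n.1) := h
      have := S.K.ar_smul (g : H)⁻¹ _ _ h'
      rwa [inv_smul_smul, gz'] at this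
    · intro h
      have := S.K.ar_smul (g : H) _ _ h
      rw [gz] at this
      exact this
  unfold pos3
  rw [pt3_smul hu hz]
  by_cases h : S.K.ar z n.1
  · rw [if_pos (h1.2 h), if_pos h]
  · rw [if_neg (fun h' => h (h1.1 h')), if_neg h]

theorem pos3_page {n : S.Nd3 w u z} (h : S.K.ar n.1 z) :
    S.pos3 w u z n = S.px w u (S.pt3 w u z n) :=
  if_neg (fun h' => ar_not h h')

theorem pos3_far {n : S.Nd3 w u z} (h : S.K.ar z n.1) (hb : S.pt3 w u z n ∈ bey S.D.G w u) :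
    S.pos3 w u z n = S.px w u (S.pt3 w u z n) + 1 := by
  unfold pos3
  rw [if_pos h, if_pos hb]

theorem pos3_near {n : S.Nd3 w u z} (h : S.K.ar z n.1) (hb : S.pt3 w u z n ∉ bey S.D.G w u) :
    S.pos3 w u z n = S.px w u (S.pt3 w u z n) - 1 := by
  unfold pos3
  rw [if_pos h, if_neg hb]

theorem px_w (hu : S.D.G.Adj w u) : S.px w u w = 0 := by
  rw [px_near (fun h => bey_not h (bey_self hu.symm)), SimpleGraph.dist_self]
  rfl

theorem px_u (hu : S.D.G.Adj w u) : S.px w u u = 1 := by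
  rw [px_far (bey_self hu), SimpleGraph.dist_eq_one_iff_adj.2 hu.symm]
  rfl

/-- the neighbour of `r` on the side of `s` -/
theorem nbr_up (hu : S.D.G.Adj w u) (hz : S.Cs w u z) {r s : S.X} (hr : r ∈ S.J z)
    (hs : s ∈ S.J z) (h : S.px w u r < S.px w u s) :
    ∃ t, S.D.G.Adj r t ∧ t ∈ S.J z ∧ S.px w u t = S.px w u r + 1 ∧ s ∈ bey S.D.G r t := by
  have hne : r ≠ s := by
    rintro rfl
    exact lt_irrefl _ h
  obtain ⟨t, h1, h2, h3, h4⟩ := toward hr hs hne
  exact ⟨t, h1, h2, (px_next hu hz hr hs h1 h4).2.1 h, h3⟩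

theorem nbr_dn (hu : S.D.G.Adj w u) (hz : S.Cs w u z) {r s : S.X} (hr : r ∈ S.J z)
    (hs : s ∈ S.J z) (h : S.px w u s < S.px w u r) :
    ∃ t, S.D.G.Adj r t ∧ t ∈ S.J z ∧ S.px w u t = S.px w u r - 1 ∧ s ∈ bey S.D.G r t := by
  have hne : r ≠ s := by
    rintro rfl
    exact lt_irrefl _ h
  obtain ⟨t, h1, h2, h3, h4⟩ := toward hr hs hne
  exact ⟨t, h1, h2, (px_next hu hz hr hs h1 h4).2.2 h, h3⟩

/-- a pole is attached at an end -/
theorem pole_top (hu : S.D.G.Adj w u) (hz : S.Cs w u z) {a : V} {r s : S.X} (hr : r ∈ S.J z)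
    (ha : S.K.ar z a) (hra : r ∈ S.J a) (hb : r ∈ bey S.D.G w u) (hs : s ∈ S.J z) :
    S.px w u s ≤ S.px w u r := by
  by_contra hlt
  rw [not_le] at hlt
  obtain ⟨t, h1, h2, h3, -⟩ := nbr_up hu hz hr hs hlt
  obtain ⟨t', h1', h2', h3', -⟩ := nbr_dn hu hz hr hz.1 (by
    rw [px_w hu]
    have := px_pos hb
    omega)
  have := one_pole hr ha hra h1 h1' h2 h2'
  subst this
  omega

theorem pole_bot (hu : S.D.G.Adj w u) (hz : S.Cs w u z) {a : V} {r s : S.X} (hr : r ∈ S.J z)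
    (ha : S.K.ar z a) (hra : r ∈ S.J a) (hb : r ∉ bey S.D.G w u) (hs : s ∈ S.J z) :
    S.px w u r ≤ S.px w u s := by
  by_contra hlt
  rw [not_le] at hlt
  obtain ⟨t, h1, h2, h3, -⟩ := nbr_dn hu hz hr hs hlt
  obtain ⟨t', h1', h2', h3', -⟩ := nbr_up hu hz hr hz.2 (by
    rw [px_u hu]
    have := px_nonpos hb
    omega)
  have := one_pole hr ha hra h1 h1' h2 h2'
  subst this
  omega

/-- every vertex of `J z` has a neighbour in `J z` -/
theorem ex_nbr (hz : S.Cs w u z) (hne : w ≠ u) {r : S.X} (hr : r ∈ S.J z) :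
    ∃ t, S.D.G.Adj r t ∧ t ∈ S.J z := by
  by_cases h : r = w
  · subst h
    obtain ⟨t, h1, h2, -, -⟩ := toward hr hz.2 hne
    exact ⟨t, h1, h2⟩
  · obtain ⟨t, h1, h2, -, -⟩ := toward hr hz.1 h
    exact ⟨t, h1, h2⟩

/-- a pole is alone on its level -/
theorem lvl_pole (hu : S.D.G.Adj w u) (hz : S.Cs w u z) {a x : S.Nd3 w u z}
    (ha : S.K.ar z a.1) (h : S.pos3 w u z a = S.pos3 w u z x) : x = a := by
  have ta := pt3_spec a
  have tx := pt3_spec x
  have same : S.K.ar z x.1 → S.pt3 w u z a = S.pt3 w u z x → x = a := by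
    intro hx e
    obtain ⟨t, h1, h2⟩ := ex_nbr hz hu.ne ta.1
    refine Subtype.ext (two_poles ta.1 hx ?_ ha ta.2 h1 h2)
    rw [e]
    exact tx.2
  by_cases hb : S.pt3 w u z a ∈ bey S.D.G w u
  · rw [pos3_far ha hb] at h
    by_cases hx : S.K.ar z x.1
    · by_cases hb' : S.pt3 w u z x ∈ bey S.D.G w u
      · rw [pos3_far hx hb'] at h
        exact same hx (px_inj hu hz ta.1 tx.1 (by omega))
      · rw [pos3_near hx hb'] at h
        have := px_pos hb
        have := px_nonpos hb'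
        omega
    · have hx' : S.K.ar x.1 z := by
        rcases x.2 with h | h
        · exact absurd h hx
        · exact h
      rw [pos3_page hx'] at h
      have := pole_top hu hz ta.1 ha ta.2 hb tx.1
      omega
  · rw [pos3_near ha hb] at h
    by_cases hx : S.K.ar z x.1
    · by_cases hb' : S.pt3 w u z x ∈ bey S.D.G w u
      · rw [pos3_far hx hb'] at h
        have := px_pos hb'
        have := px_nonpos hb
        omega
      · rw [pos3_near hx hb'] at h
        exact same hx (px_inj hu hz ta.1 tx.1 (by omega))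
    · have hx' : S.K.ar x.1 z := by
        rcases x.2 with h | h
        · exact absurd h hx
        · exact h
      rw [pos3_page hx'] at h
      have := pole_bot hu hz ta.1 ha ta.2 hb tx.1
      omega

theorem LEd_En {a b : S.Nd3 w u z} {c : S.Cn3' w u z}
    (h : LEd (S.s3 w u z) (S.t3 w u z) a b c) : S.En c.1 a.1 b.1 := by
  rcases h with ⟨rfl, rfl⟩ | ⟨rfl, rfl⟩
  · exact Or.inl ⟨rfl, rfl⟩
  · exact Or.inr ⟨rfl, rfl⟩

theorem En_LEd {a b : S.Nd3 w u z} {c : S.Cn3' w u z} (h : S.En c.1 a.1 b.1) :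
    LEd (S.s3 w u z) (S.t3 w u z) a b c := by
  rcases h with ⟨h1, h2⟩ | ⟨h1, h2⟩
  · exact Or.inl ⟨Subtype.ext h1, Subtype.ext h2⟩
  · exact Or.inr ⟨Subtype.ext h1, Subtype.ext h2⟩

/-- the local component of a pole -/
theorem loc_pole (hu : S.D.G.Adj w u) (hz : S.Cs w u z) {a a' : S.Nd3 w u z}
    (h : Relation.EqvGen (LLoc (S.s3 w u z) (S.t3 w u z) (S.pos3 w u z)) a a')
    (ha : S.K.ar z a.1) : a' = a :=
  lvl_pole hu hz ha (LLoc.eqv h)

/-- the local component of a page -/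
theorem loc_page (hu : S.D.G.Adj w u) (hz : S.Cs w u z) {a a' : S.Nd3 w u z}
    (h : Relation.EqvGen (LLoc (S.s3 w u z) (S.t3 w u z) (S.pos3 w u z)) a a')
    (ha : S.K.ar a.1 z) : S.K.ar a'.1 z ∧ S.pt3 w u z a' = S.pt3 w u z a ∧
      Relation.EqvGen (S.LR z (S.pt3 w u z a)) a.1 a'.1 := by
  have pg : ∀ {x y : S.Nd3 w u z}, S.pos3 w u z x = S.pos3 w u z y → S.K.ar x.1 z →
      S.K.ar y.1 z := by
    intro x y e hx
    rcases y.2 with hy | hy
    · have := lvl_pole hu hz hy e.symm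
      subst this
      exact hx
    · exact hy
  have key : ∀ x y, Relation.EqvGen (LLoc (S.s3 w u z) (S.t3 w u z) (S.pos3 w u z)) x y →
      S.K.ar x.1 z → S.pt3 w u z y = S.pt3 w u z x ∧
        Relation.EqvGen (S.LR z (S.pt3 w u z x)) x.1 y.1 := by
    intro x y h
    induction h with
    | rel x y h =>
      intro hx
      obtain ⟨c, h1, h2⟩ := h
      have hy := pg h2 hx
      have e : S.pt3 w u z y = S.pt3 w u z x := by
        rw [pos3_page hx, pos3_page hy] at h2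
        exact px_inj hu hz (pt3_spec y).1 (pt3_spec x).1 h2.symm
      refine ⟨e, Relation.EqvGen.rel _ _ ⟨?_, hx, hy, (pt3_spec x).2, ?_⟩⟩
      · rw [S.K.cor_LE]
        rcases LEd_En h1 with ⟨e1, e2⟩ | ⟨e1, e2⟩
        · exact ⟨c.1, Or.inl ⟨e1, c.2, e2⟩⟩
        · exact ⟨c.1, Or.inr ⟨e1, c.2, e2⟩⟩
      · rw [← e]
        exact (pt3_spec y).2
    | refl x => exact fun _ => ⟨rfl, Relation.EqvGen.refl _⟩
    | symm x y h ih =>
      intro hy
      have hx := pg (LLoc.eqv h).symm hy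
      obtain ⟨e1, e2⟩ := ih hx
      refine ⟨e1.symm, ?_⟩
      rw [e1]
      exact e2.symm
    | trans x y z' h1 h2 i1 i2 =>
      intro hx
      have hy := pg (LLoc.eqv h1) hx
      obtain ⟨e1, e2⟩ := i1 hx
      obtain ⟨e3, e4⟩ := i2 hy
      rw [e1] at e3 e4
      exact ⟨e3, e2.trans _ _ _ e4⟩
  obtain ⟨h1, h2⟩ := key a a' h ha
  exact ⟨pg (LLoc.eqv h) ha, h1, h2⟩

/-- the link as a graph of `Nd3`, `Cn3'` -/
theorem conn3 (hc : S.K.LC z) (n m : S.Nd3 w u z) :
    Relation.EqvGen (fun a b => ∃ c, S.s3 w u z c = a ∧ S.t3 w u z c = b) n m := by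
  have hE : ∀ a b, S.K.LJ z a b → (S.K.E z a ↔ S.K.E z b) := by
    intro a b k
    induction k with
    | rel a b k => exact ⟨fun _ => k.E2, fun _ => k.E1⟩
    | refl a => exact Iff.rfl
    | symm a b _ ih => exact ih.symm
    | trans a b c _ _ i1 i2 => exact i1.trans i2
  have key : ∀ a b, S.K.LJ z a b → ∀ (ha : S.K.E z a) (hb : S.K.E z b),
      Relation.EqvGen (fun a b => ∃ c, S.s3 w u z c = a ∧ S.t3 w u z c = b)
        (⟨a, ha⟩ : S.Nd3 w u z) (⟨b, hb⟩ : S.Nd3 w u z) := by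
    intro a b h
    induction h with
    | rel a b h =>
      intro ha hb
      obtain ⟨e, ⟨e0, e1, e2⟩ | ⟨e0, e1, e2⟩⟩ := S.K.cor_LE.1 h
      · exact Relation.EqvGen.rel _ _ ⟨⟨e, e1⟩, Subtype.ext e0, Subtype.ext e2⟩
      · exact Relation.EqvGen.symm _ _ (Relation.EqvGen.rel _ _
          ⟨⟨e, e1⟩, Subtype.ext e0, Subtype.ext e2⟩)
    | refl a => intro ha hb; exact Relation.EqvGen.refl _
    | symm a b _ ih => intro ha hb; exact (ih hb ha).symm
    | trans a b c k1 k2 ih1 ih2 =>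
      intro ha hc'
      exact (ih1 ha ((hE _ _ k1).1 ha)).trans _ _ _ (ih2 ((hE _ _ k1).1 ha) hc')
  exact key _ _ (hc _ _ n.2 m.2) n.2 m.2

/-- an element which moves one corner of an exit to another one fixes the exit -/
theorem exit_fix (hu : S.D.G.Adj w u) (hz : S.Cs w u z) {r : S.X} (hr : r ∈ S.J z) {g : H}
    (gz : g • z = z) (gr : g • r = r) {e : S.K.LE} {n m n' m' : V} (h : S.En e n m)
    (h' : S.En (g • e) n' m') (hn : S.K.ar n z) (hrn : r ∈ S.J n)
    (hx : S.ExS z r m m') : g ∈ S.N3 w u z ∧ m' = g • m := by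
  have h2 := (h.smul g).two h'
  rcases hx with ⟨t, ht, htz, b1, b2⟩ | ⟨rfl, hp, hrp⟩
  · have em : m' = g • m := by
      rcases h2 with ⟨-, e⟩ | ⟨-, e⟩
      · exact e
      · exfalso
        have h3 := S.js.smul g n r hrn
        rw [gr, ← e] at h3
        exact S.not_mem_of_bey ht b2 h3
    refine ⟨?_, em⟩
    obtain ⟨p, hp⟩ := S.js.ne m'
    have h4 := S.sub_bey_smul g b1
    rw [← em, gr] at h4
    have hgt : S.D.G.Adj r (g • t) := by
      have := S.D.adj_smul g r t ht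
      rwa [gr] at this
    have e := S.bey_unique ht hgt (b2 hp) (h4 hp)
    exact N3_of hu hz gz hr htz ht gr e.symm
  · have em : m = g • m := by
      rcases h2 with ⟨-, e⟩ | ⟨-, e⟩
      · exact e
      · exfalso
        have h3 := S.K.ar_smul g _ _ hn
        rw [gz, ← e] at h3
        exact ar_not hp h3
    refine ⟨?_, em⟩
    obtain ⟨t, ht, htz⟩ := ex_nbr hz hu.ne hr
    have hgt : S.D.G.Adj r (g • t) := by
      have := S.D.adj_smul g r t ht
      rwa [gr] at this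
    have hgtz : g • t ∈ S.J z := by
      have := S.js.smul g z t htz
      rwa [gz] at this
    exact N3_of hu hz gz hr htz ht gr (one_pole hr hp hrp hgt ht hgtz htz)

/-- the two ends of a page are reached through the same exit -/
theorem exit_of (hu : S.D.G.Adj w u) (hz : S.Cs w u z) {r : S.X} (hr : r ∈ S.J z)
    {b b' : S.Nd3 w u z}
    (h : (S.px w u r < S.pos3 w u z b ∧ S.px w u r < S.pos3 w u z b') ∨
      (S.pos3 w u z b < S.px w u r ∧ S.pos3 w u z b' < S.px w u r)) :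
    S.ExS z r b.1 b'.1 := by
  -- upwards
  have up : ∀ {b : S.Nd3 w u z}, S.px w u r < S.pos3 w u z b →
      S.px w u r < S.px w u (S.pt3 w u z b) ∨ (S.K.ar z b.1 ∧ r ∈ S.J b.1 ∧
        r ∈ bey S.D.G w u) := by
    intro b h
    by_cases hb : S.K.ar z b.1
    · by_cases hf : S.pt3 w u z b ∈ bey S.D.G w u
      · rw [pos3_far hb hf] at h
        rcases lt_or_eq_of_le (show S.px w u r ≤ S.px w u (S.pt3 w u z b) by omega) with h1 | h1
        · exact Or.inl h1
        · right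
          have := px_inj hu hz hr (pt3_spec b).1 h1
          rw [this]
          exact ⟨hb, (pt3_spec b).2, hf⟩
      · rw [pos3_near hb hf] at h
        left
        omega
    · left
      have hb' : S.K.ar b.1 z := b.2.resolve_left hb
      rwa [pos3_page hb'] at h
  have dn : ∀ {b : S.Nd3 w u z}, S.pos3 w u z b < S.px w u r →
      S.px w u (S.pt3 w u z b) < S.px w u r ∨ (S.K.ar z b.1 ∧ r ∈ S.J b.1 ∧
        r ∉ bey S.D.G w u) := by
    intro b h
    by_cases hb : S.K.ar z b.1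
    · by_cases hf : S.pt3 w u z b ∈ bey S.D.G w u
      · rw [pos3_far hb hf] at h
        left
        omega
      · rw [pos3_near hb hf] at h
        rcases lt_or_eq_of_le (show S.px w u (S.pt3 w u z b) ≤ S.px w u r by omega) with h1 | h1
        · exact Or.inl h1
        · right
          have := px_inj hu hz (pt3_spec b).1 hr h1
          rw [← this]
          exact ⟨hb, (pt3_spec b).2, hf⟩
    · left
      have hb' : S.K.ar b.1 z := b.2.resolve_left hb
      rwa [pos3_page hb'] at h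
  have fin : ∀ {b : S.Nd3 w u z} {t : S.X}, S.D.G.Adj r t → t ∈ S.J z →
      S.pt3 w u z b ∈ bey S.D.G r t → S.J b.1 ⊆ bey S.D.G r t := fun {b} {t} h1 h2 h3 =>
    nb_bey b.2 hr h2 h1 (pt3_spec b).2 h3
  rcases h with ⟨h1, h2⟩ | ⟨h1, h2⟩
  · rcases up h1 with g1 | ⟨p1, q1, s1⟩
    · rcases up h2 with g2 | ⟨p2, q2, s2⟩
      · obtain ⟨t, t1, t2, t3, t4⟩ := nbr_up hu hz hr (pt3_spec b).1 g1
        refine Or.inl ⟨t, t1, t2, fin t1 t2 t4, fin t1 t2 ?_⟩
        exact same_dir hu hz hr (pt3_spec b').1 t2 t1 (Or.inl ⟨by omega, g2⟩)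
      · exfalso
        have := pole_top hu hz hr p2 q2 s2 (pt3_spec b).1
        omega
    · rcases up h2 with g2 | ⟨p2, q2, s2⟩
      · exfalso
        have := pole_top hu hz hr p1 q1 s1 (pt3_spec b').1
        omega
      · obtain ⟨t, t1, t2⟩ := ex_nbr hz hu.ne hr
        exact Or.inr ⟨two_poles hr p1 q1 p2 q2 t1 t2, p1, q1⟩
  · rcases dn h1 with g1 | ⟨p1, q1, s1⟩
    · rcases dn h2 with g2 | ⟨p2, q2, s2⟩
      · obtain ⟨t, t1, t2, t3, t4⟩ := nbr_dn hu hz hr (pt3_spec b).1 g1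
        refine Or.inl ⟨t, t1, t2, fin t1 t2 t4, fin t1 t2 ?_⟩
        exact same_dir hu hz hr (pt3_spec b').1 t2 t1 (Or.inr ⟨by omega, g2⟩)
      · exfalso
        have := pole_bot hu hz hr p2 q2 s2 (pt3_spec b).1
        omega
    · rcases dn h2 with g2 | ⟨p2, q2, s2⟩
      · exfalso
        have := pole_bot hu hz hr p1 q1 s1 (pt3_spec b').1
        omega
      · obtain ⟨t, t1, t2⟩ := ex_nbr hz hu.ne hr
        exact Or.inr ⟨two_poles hr p1 q1 p2 q2 t1 t2, p1, q1⟩

/-- ONE CROSSING CORNER: if the link of `z` is connected, every local piece of `z` has one strand for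
every exit, and the corners at every pole are one orbit, then the corners of `z` which cross an edge
are one orbit -/
theorem uqC_of (hu : S.D.G.Adj w u) (hz : S.Cs w u z) (hc : S.K.LC z) (su : S.SU z)
    (th : S.Th1 z) : S.UqC w u z := by
  intro e e' h1 h1' hx hx'
  have hs : ∀ (g : S.N3 w u z) (c : S.Cn3' w u z), S.s3 w u z (g • c) = g • S.s3 w u z c :=
    fun g c => Subtype.ext (S.K.c0_smul (g : H) c.1)
  have ht : ∀ (g : S.N3 w u z) (c : S.Cn3' w u z), S.t3 w u z (g • c) = g • S.t3 w u z c :=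
    fun g c => Subtype.ext (S.K.c2_smul (g : H) c.1)
  have cr : ∀ (c : S.Cn3' w u z), S.Xe w u c.1 → LCr (S.s3 w u z) (S.t3 w u z) (S.pos3 w u z) 0 c := by
    intro c hc'
    have far : ∀ {n : S.Nd3 w u z}, S.J n.1 ⊆ bey S.D.G w u → 0 < S.pos3 w u z n := by
      intro n hn
      have hb := hn (pt3_spec n).2
      have := px_pos hb
      by_cases hp : S.K.ar z n.1
      · rw [pos3_far hp hb]
        omega
      · rw [pos3_page (n.2.resolve_left hp)]
        omega
    have near : ∀ {n : S.Nd3 w u z}, S.J n.1 ⊆ bey S.D.G u w → S.pos3 w u z n ≤ 0 := by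
      intro n hn
      have hb : S.pt3 w u z n ∉ bey S.D.G w u := fun h => bey_not h (hn (pt3_spec n).2)
      have := px_nonpos hb
      by_cases hp : S.K.ar z n.1
      · rw [pos3_near hp hb]
        omega
      · rw [pos3_page (n.2.resolve_left hp)]
        omega
    rcases hc' with ⟨a1, a2⟩ | ⟨a1, a2⟩
    · exact Or.inr ⟨near (n := S.t3 w u z c) a2, far (n := S.s3 w u z c) a1⟩
    · exact Or.inl ⟨near (n := S.s3 w u z c) a2, far (n := S.t3 w u z c) a1⟩
  obtain ⟨g, hg⟩ := lin_one (N := S.N3 w u z) (s := S.s3 w u z) (t := S.t3 w u z)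
    (pos := S.pos3 w u z) hs ht (pos3_smul hu hz) (conn3 hc) (by
      intro c c' a b a' b' l1 l2 hl hd
      by_cases ha : S.K.ar z a.1
      · -- a pole
        have ea := loc_pole hu hz hl ha
        subst ea
        obtain ⟨g, gz, ga, ge⟩ := th a'.1 ha c.1 c'.1 b.1 b'.1 c.2 c'.2 (LEd_En l1) (LEd_En l2)
        have hr := pt3_spec a'
        have gr : g • S.pt3 w u z a' = S.pt3 w u z a' := by
          have q1 := S.js.smul g z _ hr.1
          have q2 := S.js.smul g a'.1 _ hr.2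
          rw [gz] at q1
          rw [ga] at q2
          exact pt_unique a'.2 q1 q2 hr.1 hr.2
        obtain ⟨t, ht', htz⟩ := ex_nbr hz hu.ne hr.1
        have hgt : S.D.G.Adj (S.pt3 w u z a') (g • t) := by
          have := S.D.adj_smul g _ t ht'
          rwa [gr] at this
        have hgtz : g • t ∈ S.J z := by
          have := S.js.smul g z t htz
          rwa [gz] at this
        have hgN : g ∈ S.N3 w u z :=
          N3_of hu hz gz hr.1 htz ht' gr (one_pole hr.1 ha hr.2 hgt ht' hgtz htz)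
        refine ⟨⟨g, hgN⟩, Subtype.ext ge, ?_⟩
        have h3 := ((LEd_En l1).smul g).two (by rw [← ge]; exact LEd_En l2)
        rw [ga] at h3
        rcases h3 with ⟨-, e3⟩ | ⟨-, e3⟩
        · exact Subtype.ext e3
        · exfalso
          have : b' = a' := Subtype.ext e3
          subst this
          omega
      · -- a page
        have ha' : S.K.ar a.1 z := a.2.resolve_left ha
        obtain ⟨p1, p2, p3⟩ := loc_page hu hz hl ha'
        have hr := pt3_spec a
        have hpa := pos3_page (w := w) (u := u) ha'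
        have hpa' := pos3_page (w := w) (u := u) p1
        rw [p2] at hpa'
        have hr' : S.pt3 w u z a ∈ S.J a'.1 := by
          rw [← p2]
          exact (pt3_spec a').2
        have hx' : S.ExS z (S.pt3 w u z a) b.1 b'.1 := by
          apply exit_of hu hz hr.1
          rw [hpa, hpa'] at hd
          exact hd
        obtain ⟨g, gz, gr, ge⟩ := su _ hr.1 c.1 c'.1 a.1 b.1 a'.1 b'.1 c.2 c'.2 (LEd_En l1)
          (LEd_En l2) ha' p1 hr.2 hr' p3 hx'
        obtain ⟨hgN, hm⟩ := exit_fix hu hz hr.1 gz gr (LEd_En l1)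
          (by rw [← ge]; exact LEd_En l2) ha' hr.2 hx'
        exact ⟨⟨g, hgN⟩, Subtype.ext ge, Subtype.ext hm⟩)
    (k := 0) (cr ⟨e, h1⟩ hx) (cr ⟨e', h1'⟩ hx')
  exact ⟨g, g.2.1, g.2.2.1, g.2.2.2, congrArg Subtype.val hg⟩

end

end SyQ

end Pool.Agent.DI
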