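import Pool.Agent.DI.XSb
import Pool.Agent.DI.UqM

/-!
# One strand for every direction from the degrees of the local pieces (helper78)

`JM.HL x`: the ends of lines at the node `x` of the quotient; their number is the degree. `S.LPG`: local
pieces, private poles and the lines which are not local. `nls_eq`: two line ends at one local piece which
are equal in the quotient come from an element which fixes the vertex and the place.
`e_le_deg`: over a bad vertex the number of pole ends is at most the degree; `SU_bad`: equality gives one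
strand for every exit; `SU_one`: degree one.
-/

attribute [local instance 2000] SubMulAction.mulAction

namespace Pool.Agent.DI

open MulAction
open Pool.Agent.SAF (InC orbs FinOrb oc Decomp SAn SA Conv hull dist_edge FinOrb_iff exists_next TAct)
open Pool.Agent.BT (PX PQ JS bey exits)
open Pool.Agent.BT.TA

namespace JM

variable {J T Ed : Type} [Group J] [MulAction J T] [MulAction J Ed] (M : JM J T Ed)

/-- an end of an edge -/
def en (E : Ed) (b : Bool) : T := match b with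
  | true => M.s E
  | false => M.t E

/-- the ends of lines at a node of the quotient -/
def HL (x : M.fg.N) : Type := {l : M.fg.L // M.fg.a l = x} ⊕ {l : M.fg.L // M.fg.b l = x}

theorem card_HL (x : M.fg.N) : Nat.card (M.HL x) = M.fg.deg x := by
  have := M.fg.fL
  unfold HL FG.deg
  rw [Nat.card_sum]

theorem fin_HL (x : M.fg.N) : Finite (M.HL x) := by
  have := M.fg.fL
  unfold HL
  infer_instance

/-- the class of an end -/
def hl (E : Ed) (b : Bool) {x : M.fg.N} (h : (oq J (M.en E b) : orbitRel.Quotient J T) = x) :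
    M.HL x := match b, h with
  | true, h => Sum.inl ⟨(oq J E : orbitRel.Quotient J Ed), h⟩
  | false, h => Sum.inr ⟨(oq J E : orbitRel.Quotient J Ed), h⟩

variable {M}

theorem hl_eq {E E' : Ed} {b b' : Bool} {x : M.fg.N}
    {h : (oq J (M.en E b) : orbitRel.Quotient J T) = x}
    {h' : (oq J (M.en E' b') : orbitRel.Quotient J T) = x}
    (e : M.hl E b h = M.hl E' b' h') : b' = b ∧ ∃ g : J, E' = g • E := by
  cases b <;> cases b'
  · refine ⟨rfl, ?_⟩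
    have h1 := congrArg Subtype.val (Sum.inr.inj e)
    exact (oq_eq (T := Ed)).1 h1
  · cases e
  · cases e
  · refine ⟨rfl, ?_⟩
    have h1 := congrArg Subtype.val (Sum.inl.inj e)
    exact (oq_eq (T := Ed)).1 h1

end JM

namespace SyQ

variable {H V : Type} [Group H] [MulAction H V] {S : SyQ H V}

/-- a corner with a page end is a line end of the graph of the local pieces if it is not local -/
theorem ex_hl {e : S.K.LE} {y n m : V} (h1 : S.K.c1 e = y) (he : S.En e n m) (har : S.K.ar n y)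
    (hnl : ¬ (S.K.ar m y ∧ ∃ p, p ∈ S.J n ∧ p ∈ S.J y ∧ p ∈ S.J m)) :
    ∃ (ε : ↥(JM.cpl S.AJ)) (b : Bool), ε.1.1 = e ∧ S.LPG.en ε b = S.lp har ∧
      ((b = true ∧ S.K.c0 e = n ∧ S.K.c2 e = m) ∨ (b = false ∧ S.K.c2 e = n ∧ S.K.c0 e = m)) := by
  subst h1
  rcases he with ⟨rfl, rfl⟩ | ⟨rfl, rfl⟩
  · have hPE : e ∈ S.K.PE := Or.inl har
    refine ⟨⟨⟨e, hPE⟩, ?_⟩, true, rfl, ?_, Or.inl ⟨rfl, rfl, rfl⟩⟩
    · rintro ⟨⟨-, h2⟩, p, p0, p1, p2⟩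
      exact hnl ⟨h2, p, p0, p1, p2⟩
    · show S.K.pc.ct S.AJ (S.K.pc.s ⟨e, hPE⟩) = S.K.pc.ct S.AJ _
      congr 1
      exact Subtype.ext (S.K.nd_in har)
  · have hPE : e ∈ S.K.PE := Or.inr har
    refine ⟨⟨⟨e, hPE⟩, ?_⟩, false, rfl, ?_, Or.inr ⟨rfl, rfl, rfl⟩⟩
    · rintro ⟨⟨h2, -⟩, p, p0, p1, p2⟩
      exact hnl ⟨h2, p, p2, p1, p0⟩
    · show S.K.pc.ct S.AJ (S.K.pc.t ⟨e, hPE⟩) = S.K.pc.ct S.AJ _
      congr 1
      exact Subtype.ext (S.K.nd_in har)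

/-- a corner with a page end: the class of its line end -/
theorem ex_HL {e : S.K.LE} {y n m : V} (h1 : S.K.c1 e = y) (he : S.En e n m) (har : S.K.ar n y)
    (hnl : ¬ (S.K.ar m y ∧ ∃ p, p ∈ S.J n ∧ p ∈ S.J y ∧ p ∈ S.J m)) {x : S.LPG.fg.N}
    (hx : (oq H (S.lp har) : orbitRel.Quotient H (S.K.pc.CT S.AJ)) = x) :
    ∃ (ε : ↥(JM.cpl S.AJ)) (b : Bool) (h : (oq H (S.LPG.en ε b) :
      orbitRel.Quotient H (S.K.pc.CT S.AJ)) = x), ε.1.1 = e ∧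
      ((b = true ∧ S.K.c0 e = n ∧ S.K.c2 e = m) ∨ (b = false ∧ S.K.c2 e = n ∧ S.K.c0 e = m)) := by
  obtain ⟨ε, b, e1, e2, e3⟩ := ex_hl h1 he har hnl
  exact ⟨ε, b, by rw [e2]; exact hx, e1, e3⟩

/-- equal line ends -/
theorem hl_back {e e' : S.K.LE} {n m n' m' : V} {ε ε' : ↥(JM.cpl S.AJ)} {b b' : Bool}
    (e1 : ε.1.1 = e) (e1' : ε'.1.1 = e')
    (k : (b = true ∧ S.K.c0 e = n ∧ S.K.c2 e = m) ∨ (b = false ∧ S.K.c2 e = n ∧ S.K.c0 e = m))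
    (k' : (b' = true ∧ S.K.c0 e' = n' ∧ S.K.c2 e' = m') ∨
      (b' = false ∧ S.K.c2 e' = n' ∧ S.K.c0 e' = m'))
    (hb : b' = b ∧ ∃ g : H, ε' = g • ε) : ∃ g : H, e' = g • e ∧ n' = g • n ∧ m' = g • m ∧
      S.K.c1 e' = g • S.K.c1 e := by
  obtain ⟨rfl, g, hg⟩ := hb
  have h1 : e' = g • e := by
    rw [← e1, ← e1', hg]
    rfl
  refine ⟨g, h1, ?_, ?_, by rw [h1, S.K.c1_smul]⟩
  · rcases k with ⟨hb, k1, k2⟩ | ⟨hb, k1, k2⟩ <;> rcases k' with ⟨hb', k1', k2'⟩ | ⟨hb', k1', k2'⟩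
    · rw [← k1, ← k1', h1, S.K.c0_smul]
    · rw [hb] at hb'
      cases hb'
    · rw [hb] at hb'
      cases hb'
    · rw [← k1, ← k1', h1, S.K.c2_smul]
  · rcases k with ⟨hb, k1, k2⟩ | ⟨hb, k1, k2⟩ <;> rcases k' with ⟨hb', k1', k2'⟩ | ⟨hb', k1', k2'⟩
    · rw [← k2, ← k2', h1, S.K.c2_smul]
    · rw [hb] at hb'
      cases hb'
    · rw [hb] at hb'
      cases hb'
    · rw [← k2, ← k2', h1, S.K.c0_smul]

/-- a strand for every pole end of a local piece -/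
theorem dx_data (hc : S.Conn) (hnb : S.NB) {w : S.X} {y n : S.NV w} (har : S.K.ar n.1 y.1)
    (d : {d : ↥((nearJM hc w).imN (jcut hc hnb w).D) // (jcut hc hnb w).pbq d =
      (S.K.pc.conIso (jcut hc hnb w).A).n (oq H (S.K.pc.ct (S.cA w) ⟨PN.inn y.1 n.1, har⟩))}) :
    ∃ (e : S.K.LE) (n' m : V), S.K.c1 e = y.1 ∧ S.En e n' m ∧ S.K.ar n' y.1 ∧ w ∈ S.J n' ∧
      S.LIJ w y.1 n.1 n' ∧ ¬ (S.K.ar m y.1 ∧ w ∈ S.J m) ∧
      ∃ x : ↥(JM.cpl (farN hc w)), (oq ↥(stabilizer H w) x : orbitRel.Quotient _ _) = d.1.1 ∧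
        x.1.1 = PN.pol (Sum.inl y) (S.rho w m) ((S.k0 hc w).Pc (Sum.inl y) (Sum.inl n)) := by
  obtain ⟨hx, hx'⟩ := ((jcut hc hnb w).exists_D d.1).choose_spec
  have e1 := (S.K.pc.conIso (jcut hc hnb w).A).n.injective d.2
  obtain ⟨j, a, n', k1, k2, k3, k4, k5⟩ := pole_rep hc hnb har _ hx e1
  obtain ⟨α, β, c1, c2, c3, c4⟩ := (k0_cor_iff hc hnb).1 k2
  have c5 := rho_inl c3
  subst c5
  obtain ⟨e, he⟩ := S.K.cor_LE.1 c1
  refine ⟨e, n'.1, α, ?_, ?_, k3, n'.2, k4, ?_, j • ((jcut hc hnb w).exists_D d.1).choose, ?_, ?_⟩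
  · rcases he with ⟨-, h, -⟩ | ⟨-, h, -⟩ <;> exact h
  · rcases he with ⟨h1, -, h2⟩ | ⟨h1, -, h2⟩
    · exact Or.inr ⟨h1, h2⟩
    · exact Or.inl ⟨h1, h2⟩
  · rintro ⟨h1, h2⟩
    rw [S.rho_near h2] at c2
    rw [← c2] at k1
    exact ar_not ((ar_inl hc).1 k1) h1
  · rw [oq_smul]
    exact hx'
  · rw [k5, c2]

/-- the place of a page -/
theorem fix_place {y n n' : V} {g : H} {w : S.X} (gy : g • y = y) (gn : n' = g • n)
    (har : S.K.ar n y) (hy : w ∈ S.J y) (hn : w ∈ S.J n) (hn' : w ∈ S.J n') : g • w = w := by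
  have h1 := S.js.smul g _ _ hy
  have h2 := S.js.smul g _ _ hn
  rw [gy] at h1
  rw [← gn] at h2
  have h3 := S.K.ar_smul g _ _ har
  rw [gy, ← gn] at h3
  exact pt_unique (Or.inr h3 : S.K.E y n') h1 h2 hy hn'

/-- the pole ends of a local piece -/
abbrev DX (hc : S.Conn) (hnb : S.NB) {w : S.X} {y n : S.NV w} (har : S.K.ar n.1 y.1) : Type :=
  {d : ↥((nearJM hc w).imN (jcut hc hnb w).D) // (jcut hc hnb w).pbq d =
    (S.K.pc.conIso (jcut hc hnb w).A).n (oq H (S.K.pc.ct (S.cA w) ⟨PN.inn y.1 n.1, har⟩))}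

/-- the pole ends are ends of different strands -/
theorem dx_inj (hc : S.Conn) (hnb : S.NB) {w : S.X} {y n : S.NV w} (har : S.K.ar n.1 y.1) :
    ∃ Φ : DX hc hnb har → S.LPG.HL (oq H (S.lp har)), Function.Injective Φ ∧
      ∀ (d : DX hc hnb har) (n1 m : V) (ε : ↥(JM.cpl S.AJ)) (b : Bool)
        (h : (oq H (S.LPG.en ε b) : orbitRel.Quotient H (S.K.pc.CT S.AJ)) = oq H (S.lp har)),
        ((b = true ∧ S.K.c0 ε.1.1 = n1 ∧ S.K.c2 ε.1.1 = m) ∨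
          (b = false ∧ S.K.c2 ε.1.1 = n1 ∧ S.K.c0 ε.1.1 = m)) → S.K.c1 ε.1.1 = y.1 →
        w ∈ S.J n1 → S.LIJ w y.1 n.1 n1 → Φ d = S.LPG.hl ε b h →
        ∃ x : ↥(JM.cpl (farN hc w)), (oq ↥(stabilizer H w) x : orbitRel.Quotient _ _) = d.1.1 ∧
          x.1.1 = PN.pol (Sum.inl y) (S.rho w m) ((S.k0 hc w).Pc (Sum.inl y) (Sum.inl n)) := by
  classical
  have hcomm : ∀ {n' m : V}, S.K.ar n' y.1 → w ∈ S.J n' → ¬ (S.K.ar m y.1 ∧ w ∈ S.J m) →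
      ¬ (S.K.ar m y.1 ∧ ∃ p, p ∈ S.J n' ∧ p ∈ S.J y.1 ∧ p ∈ S.J m) := by
    rintro n' m h1 h2 h3 ⟨h4, p, p1, p2, p3⟩
    have := pt_unique (Or.inr h1 : S.K.E y.1 n') p2 p1 y.2 h2
    subst this
    exact h3 ⟨h4, p3⟩
  have hlp : ∀ {n' : V} (a : S.K.ar n' y.1), w ∈ S.J n' → S.LIJ w y.1 n.1 n' →
      (oq H (S.lp a) : orbitRel.Quotient H (S.K.pc.CT S.AJ)) = oq H (S.lp har) := by
    intro n' a h2 h3
    rw [(lp_iff har a y.2 n.2).2 h3]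
  -- the strands of the pole ends
  choose ed nd md d1 d2 d3 d4 d5 d6 xd d7 d8 using dx_data (S := S) hc hnb har
  have hex := fun d => ex_HL (S := S) (d1 d) (d2 d) (d3 d) (hcomm (d3 d) (d4 d) (d6 d))
    (hlp (d3 d) (d4 d) (d5 d))
  choose εd bd hd f1 f2 using hex
  -- the pole end of a strand
  have pole : ∀ {g : H} {n2 m2 n3 m3 : V}, g • y.1 = y.1 → n3 = g • n2 → m3 = g • m2 →
      S.K.ar n2 y.1 → w ∈ S.J n2 → w ∈ S.J n3 → S.LIJ w y.1 n.1 n2 → S.LIJ w y.1 n.1 n3 →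
      ∃ j : ↥(stabilizer H w), j.1 = g ∧
        PN.pol (Sum.inl y) (S.rho w m3) ((S.k0 hc w).Pc (Sum.inl y) (Sum.inl n)) =
        j • PN.pol (Sum.inl y) (S.rho w m2) ((S.k0 hc w).Pc (Sum.inl y) (Sum.inl n)) := by
    intro g n2 m2 n3 m3 gy gn gm a2 w2 w3 l2 l3
    have gw : g • w = w := fix_place gy gn a2 y.2 w2 w3
    let j : ↥(stabilizer H w) := ⟨g, gw⟩
    refine ⟨j, rfl, ?_⟩
    have ey : j • (Sum.inl y : S.SV w) = Sum.inl y := congrArg Sum.inl (Subtype.ext gy)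
    rw [PN.smul_pol, GX.Pc_smul, ey, gm, S.rho_smul j m2]
    congr 1
    apply GX.Pc_eq.2
    have q1 : (S.k0 hc w).IJ (Sum.inl y) (Sum.inl n) (Sum.inl ⟨n2, w2⟩) := (ij_inl hc hnb).2 l2
    have q2 : (S.k0 hc w).IJ (Sum.inl y) (Sum.inl n) (Sum.inl ⟨n3, w3⟩) := (ij_inl hc hnb).2 l3
    have q3 := q1.smul j
    rw [ey] at q3
    have e3 : j • (Sum.inl ⟨n2, w2⟩ : S.SV w) = Sum.inl ⟨n3, w3⟩ :=
      congrArg Sum.inl (Subtype.ext gn.symm)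
    rw [e3] at q3
    exact q2.trans' q3.symm'
  refine ⟨fun d => S.LPG.hl (εd d) (bd d) (hd d), ?_, ?_⟩
  · intro d d' h
    obtain ⟨g, g1, g2, g3, g4⟩ := hl_back (f1 d) (f1 d') (f2 d) (f2 d') (JM.hl_eq h)
    rw [d1 d, d1 d'] at g4
    obtain ⟨j, -, hj⟩ := pole g4.symm g2 g3 (d3 d) (d4 d) (d4 d') (d5 d) (d5 d')
    obtain ⟨k, hk⟩ := near_ext hc (w := w) (d := xd d) (d' := xd d') (j := j) (j' := 1) (by
      rw [one_smul, d8 d']
      show j • (xd d).1.1 = _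
      rw [d8 d, hj])
    apply Subtype.ext
    apply Subtype.ext
    rw [← d7 d, ← d7 d', hk, oq_smul]
  · intro d n1 m ε b h k1 k2 w1 l1 hd1
    obtain ⟨g, g1, g2, g3, g4⟩ := hl_back (f1 d) (rfl : ε.1.1 = ε.1.1) (f2 d) k1 (JM.hl_eq hd1)
    rw [d1 d, k2] at g4
    obtain ⟨j, -, hj⟩ := pole g4.symm g2 g3 (d3 d) (d4 d) w1 (d5 d) l1
    refine ⟨j • xd d, ?_, ?_⟩
    · rw [oq_smul]
      exact d7 d
    · show j • (xd d).1.1 = _
      rw [d8 d, hj]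

theorem card_DX (hc : S.Conn) (hnb : S.NB) {w : S.X} {y n : S.NV w} (har : S.K.ar n.1 y.1) :
    Nat.card (DX hc hnb har) =
      (jcut hc hnb w).e (oq H (S.K.pc.ct (S.cA w) ⟨PN.inn y.1 n.1, har⟩)) := rfl

/-- the number of the pole ends is at most the degree -/
theorem e_le_deg (hc : S.Conn) (hnb : S.NB) {w : S.X} {y n : S.NV w} (har : S.K.ar n.1 y.1) :
    (jcut hc hnb w).e (oq H (S.K.pc.ct (S.cA w) ⟨PN.inn y.1 n.1, har⟩)) ≤
      S.LPG.fg.deg (oq H (S.lp har)) := by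
  obtain ⟨Φ, inj, -⟩ := dx_inj hc hnb har
  have := S.LPG.fin_HL (oq H (S.lp har))
  rw [← card_DX, ← S.LPG.card_HL]
  exact Nat.card_le_card_of_injective Φ inj

/-- THE BAD VERTICES: if the degree of the local piece is at most the number of its pole ends, then
there is one strand for every direction -/
theorem SU_bad (hc : S.Conn) (hnb : S.NB) {w : S.X} {y n : S.NV w} (har : S.K.ar n.1 y.1)
    (hdeg : S.LPG.fg.deg (oq H (S.lp har)) ≤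
      (jcut hc hnb w).e (oq H (S.K.pc.ct (S.cA w) ⟨PN.inn y.1 n.1, har⟩)))
    {e e' : S.K.LE} {n1 m n1' m' : V} (h1 : S.K.c1 e = y.1) (h1' : S.K.c1 e' = y.1)
    (he : S.En e n1 m) (he' : S.En e' n1' m') (a1 : S.K.ar n1 y.1) (a1' : S.K.ar n1' y.1)
    (w1 : w ∈ S.J n1) (w1' : w ∈ S.J n1') (l1 : S.LIJ w y.1 n.1 n1) (l1' : S.LIJ w y.1 n.1 n1')
    (hnl : ¬ (S.K.ar m y.1 ∧ w ∈ S.J m)) (hnl' : ¬ (S.K.ar m' y.1 ∧ w ∈ S.J m'))
    (hm : S.rho w m = S.rho w m') : ∃ g : H, g • y.1 = y.1 ∧ g • w = w ∧ e' = g • e := by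
  have hcomm : ∀ {n' m : V}, S.K.ar n' y.1 → w ∈ S.J n' → ¬ (S.K.ar m y.1 ∧ w ∈ S.J m) →
      ¬ (S.K.ar m y.1 ∧ ∃ p, p ∈ S.J n' ∧ p ∈ S.J y.1 ∧ p ∈ S.J m) := by
    rintro n' m h1 h2 h3 ⟨h4, p, p1, p2, p3⟩
    have := pt_unique (Or.inr h1 : S.K.E y.1 n') p2 p1 y.2 h2
    subst this
    exact h3 ⟨h4, p3⟩
  have hlp : ∀ {n' : V} (a : S.K.ar n' y.1), w ∈ S.J n' → S.LIJ w y.1 n.1 n' →
      (oq H (S.lp a) : orbitRel.Quotient H (S.K.pc.CT S.AJ)) = oq H (S.lp har) := by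
    intro n' a h2 h3
    rw [(lp_iff har a y.2 n.2).2 h3]
  obtain ⟨Φ, inj, hΦ⟩ := dx_inj hc hnb har
  have := S.LPG.fin_HL (oq H (S.lp har))
  have sur : Function.Surjective Φ := by
    have hb := (Nat.bijective_iff_injective_and_card Φ).2 ⟨inj, ?_⟩
    · exact hb.2
    · apply le_antisymm (Nat.card_le_card_of_injective Φ inj)
      rw [S.LPG.card_HL]
      exact hdeg
  obtain ⟨ε, b, hh, rfl, k2⟩ := ex_HL (S := S) h1 he a1 (hcomm a1 w1 hnl) (hlp a1 w1 l1)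
  obtain ⟨ε', b', hh', rfl, k2'⟩ := ex_HL (S := S) h1' he' a1' (hcomm a1' w1' hnl')
    (hlp a1' w1' l1')
  obtain ⟨d, hd1⟩ := sur (S.LPG.hl ε b hh)
  obtain ⟨d', hd2⟩ := sur (S.LPG.hl ε' b' hh')
  have hdd : d = d' := by
    obtain ⟨x, x1, x2⟩ := hΦ d n1 m ε b hh k2 h1 w1 l1 hd1
    obtain ⟨x', x1', x2'⟩ := hΦ d' n1' m' ε' b' hh' k2' h1' w1' l1' hd2
    have hx : x = x' := Subtype.ext (Subtype.ext (by rw [x2, x2', hm]))
    apply Subtype.ext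
    apply Subtype.ext
    rw [← x1, ← x1', hx]
  subst hdd
  obtain ⟨g, g1, g2, g3, g4⟩ := hl_back rfl rfl k2 k2' (JM.hl_eq (hd1.symm.trans hd2))
  rw [h1, h1'] at g4
  exact ⟨g, g4.symm, fix_place g4.symm g2 a1 y.2 w1 w1', g1⟩

/-- THE OTHER VERTICES: if the degree of the local piece is at most one, then all its strands are one
orbit -/
theorem SU_one {y n : V} {r : S.X} (har : S.K.ar n y) (hr : r ∈ S.J y) (hn : r ∈ S.J n)
    (hdeg : S.LPG.fg.deg (oq H (S.lp har)) ≤ 1)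
    {e e' : S.K.LE} {n1 m n1' m' : V} (h1 : S.K.c1 e = y) (h1' : S.K.c1 e' = y)
    (he : S.En e n1 m) (he' : S.En e' n1' m') (a1 : S.K.ar n1 y) (a1' : S.K.ar n1' y)
    (w1 : r ∈ S.J n1) (w1' : r ∈ S.J n1') (l1 : S.LIJ r y n n1) (l1' : S.LIJ r y n n1')
    (hnl : ¬ (S.K.ar m y ∧ r ∈ S.J m)) (hnl' : ¬ (S.K.ar m' y ∧ r ∈ S.J m')) :
    ∃ g : H, g • y = y ∧ g • r = r ∧ e' = g • e := by
  have hcomm : ∀ {n' m : V}, S.K.ar n' y → r ∈ S.J n' → ¬ (S.K.ar m y ∧ r ∈ S.J m) →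
      ¬ (S.K.ar m y ∧ ∃ p, p ∈ S.J n' ∧ p ∈ S.J y ∧ p ∈ S.J m) := by
    rintro n' m h1 h2 h3 ⟨h4, p, p1, p2, p3⟩
    have := pt_unique (Or.inr h1 : S.K.E y n') p2 p1 hr h2
    subst this
    exact h3 ⟨h4, p3⟩
  have hlp : ∀ {n' : V} (a : S.K.ar n' y), r ∈ S.J n' → S.LIJ r y n n' →
      (oq H (S.lp a) : orbitRel.Quotient H (S.K.pc.CT S.AJ)) = oq H (S.lp har) := by
    intro n' a h2 h3
    rw [(lp_iff har a hr hn).2 h3]
  have := S.LPG.fin_HL (oq H (S.lp har))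
  obtain ⟨ε, b, hh, rfl, k2⟩ := ex_HL (S := S) h1 he a1 (hcomm a1 w1 hnl) (hlp a1 w1 l1)
  obtain ⟨ε', b', hh', rfl, k2'⟩ := ex_HL (S := S) h1' he' a1' (hcomm a1' w1' hnl')
    (hlp a1' w1' l1')
  have hs : Subsingleton (S.LPG.HL (oq H (S.lp har))) := by
    rw [← Finite.card_le_one_iff_subsingleton, S.LPG.card_HL]
    exact hdeg
  obtain ⟨g, g1, g2, g3, g4⟩ := hl_back rfl rfl k2 k2' (JM.hl_eq
    (Subsingleton.elim (S.LPG.hl ε b hh) (S.LPG.hl ε' b' hh')))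
  rw [h1, h1'] at g4
  exact ⟨g, g4.symm, fix_place g4.symm g2 a1 hr w1 w1', g1⟩

end SyQ

end Pool.Agent.DI
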