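import Pool.Agent.DI.XQ
import Pool.Agent.DI.XLd
import Pool.Agent.DI.UqE

/-!
# [Z1]: one orbit of crossing corners at a hyperbolic sink

In the equality case of the exc-law every local piece of a sink has as many strands as pole ends
(`deg_le_of_eq`). `SU_of`: then the corners which leave one local piece through one exit are one orbit
(`SU`), and with `uqC_of` the corners of the sink which cross an edge are one orbit (`uqC_sink`).
-/

namespace Pool.Agent.DI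

open MulAction
open Pool.Agent.SAF (InC orbs FinOrb oc Decomp SAn SA Conv hull dist_edge FinOrb_iff exists_next TAct)
open Pool.Agent.SAG (IO Zt)
open Pool.Agent.BT (PX PQ JS bey exits mst Hyp finite_of_hyp axis)
open Pool.Agent.BT.TA

namespace SyQ

variable {H V : Type} [Group H] [MulAction H V] {S : SyQ H V}

theorem LIJ_of_LR {z : V} {r : S.X} (hr : r ∈ S.J z) {n m : V}
    (h : Relation.EqvGen (S.LR z r) n m) : S.LIJ r z n m := by
  induction h with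
  | rel a b h => exact Relation.EqvGen.rel _ _ ⟨⟨h.1, h.2.1, h.2.2.1⟩, hr, h.2.2.2.1, h.2.2.2.2⟩
  | refl a => exact Relation.EqvGen.refl _
  | symm a b _ ih => exact Relation.EqvGen.symm _ _ ih
  | trans a b c _ _ i1 i2 => exact Relation.EqvGen.trans _ _ _ i1 i2

/-- a corner with a page end as an edge of the page graph -/
theorem En_ce {e : S.K.LE} {z n m : V} (h1 : S.K.c1 e = z) (h : S.En e n m) (k : S.K.ar n z) :
    ∃ b : Bool, e ∈ S.K.PE ∧ ce S.K b e = n ∧ ce S.K (!b) e = m := by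
  subst h1
  rcases h with ⟨rfl, rfl⟩ | ⟨rfl, rfl⟩
  · exact ⟨true, Or.inl k, rfl, rfl⟩
  · exact ⟨false, Or.inr k, rfl, rfl⟩

theorem ExS.rho {z : V} {r : S.X} {m m' : V} (h : S.ExS z r m m') : S.rho r m = S.rho r m' := by
  rcases h with ⟨t, h1, h2, h3, h4⟩ | ⟨rfl, -, -⟩
  · rw [S.rho_bey h1 h3, S.rho_bey h1 h4]
  · rfl

theorem ExS.far {z : V} {r : S.X} {m m' : V} (h : S.ExS z r m m') :
    ¬ (S.K.ar m z ∧ r ∈ S.J m) ∧ ¬ (S.K.ar m' z ∧ r ∈ S.J m') := by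
  rcases h with ⟨t, h1, h2, h3, h4⟩ | ⟨rfl, h1, h2⟩
  · exact ⟨fun k => S.not_mem_of_bey h1 h3 k.2, fun k => S.not_mem_of_bey h1 h4 k.2⟩
  · exact ⟨fun k => ar_not k.1 h1, fun k => ar_not k.1 h1⟩

section

variable (hc : S.Conn) (hnb : S.NB) {ι : Type} (w : ι → S.X)
  (hw : ∀ (i j : ι) (g : H), g • w i = w j → i = j)

/-- ONE STRAND FOR EVERY LOCAL PIECE AND EVERY EXIT: over the bad places from the degrees, over the
other places from `OneDir` -/
theorem SU_of {z : V}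
    (hD : ∀ n (h : S.K.ar n z) p, p ∈ S.J z → p ∈ S.J n → Bp H w p →
      S.LPG.fg.deg (oq H (S.lp h)) ≤ exE hc hnb w hw (oq H (S.lp h)))
    (hO : ∀ n, S.K.ar n z → ∀ p, p ∈ S.J z → p ∈ S.J n → ¬ Bp H w p → S.OneDir p z n) :
    S.SU z := by
  intro r hr e e' n m n' m' h1 h1' he he' k k' hn hn' hl hx
  have hl' := LIJ_of_LR hr hl
  have hrho := hx.rho
  obtain ⟨hf, hf'⟩ := hx.far
  by_cases hb : Bp H w r
  · obtain ⟨i, g, rfl⟩ := hb
    have inv : ∀ x : V, g • w i ∈ S.J x → w i ∈ S.J (g⁻¹ • x) := by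
      intro x hx
      have := S.js.smul g⁻¹ _ _ hx
      rwa [inv_smul_smul] at this
    have inv' : ∀ x : V, w i ∈ S.J (g⁻¹ • x) → g • w i ∈ S.J x := by
      intro x hx
      have := S.js.smul g _ _ hx
      rwa [smul_inv_smul] at this
    have arinv : ∀ {a b : V}, S.K.ar (g⁻¹ • a) (g⁻¹ • b) → S.K.ar a b := by
      intro a b hab
      have := S.K.ar_smul g _ _ hab
      rwa [smul_inv_smul, smul_inv_smul] at this
    have kk : S.K.ar (g⁻¹ • n) (g⁻¹ • z) := S.K.ar_smul g⁻¹ _ _ k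
    have kk' : S.K.ar (g⁻¹ • n') (g⁻¹ • z) := S.K.ar_smul g⁻¹ _ _ k'
    have d1 := hD n k _ hr hn ⟨i, g, rfl⟩
    rw [← oq_lp g⁻¹ k, exE_bad hc hnb w hw kk (inv _ hr) (inv _ hn)] at d1
    have far : ∀ x : V, ¬ (S.K.ar x z ∧ g • w i ∈ S.J x) →
        ¬ (S.K.ar (g⁻¹ • x) (g⁻¹ • z) ∧ w i ∈ S.J (g⁻¹ • x)) :=
      fun x h1 h2 => h1 ⟨arinv h2.1, inv' _ h2.2⟩
    have hrho' : S.rho (w i) (g⁻¹ • m) = S.rho (w i) (g⁻¹ • m') := by
      rcases hx with ⟨t, a1, a2, a3, a4⟩ | ⟨rfl, -, -⟩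
      · have b1 := S.D.adj_smul g⁻¹ _ _ a1
        have b3 := S.sub_bey_smul g⁻¹ a3
        have b4 := S.sub_bey_smul g⁻¹ a4
        rw [inv_smul_smul] at b1 b3 b4
        rw [S.rho_bey b1 b3, S.rho_bey b1 b4]
      · rfl
    have hl2 := LIJ.smul g⁻¹ hl'
    rw [inv_smul_smul] at hl2
    obtain ⟨j, j1, j2, j3⟩ := SU_bad hc hnb (w := w i) (y := ⟨g⁻¹ • z, inv _ hr⟩)
      (n := ⟨g⁻¹ • n, inv _ hn⟩) kk d1 (e := g⁻¹ • e) (e' := g⁻¹ • e')
      (by rw [S.K.c1_smul, h1]) (by rw [S.K.c1_smul, h1']) (he.smul g⁻¹) (he'.smul g⁻¹) kk kk'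
      (inv _ hn) (inv _ hn') (Relation.EqvGen.refl _) hl2 (far _ hf) (far _ hf') hrho'
    refine ⟨g * j * g⁻¹, ?_, ?_, ?_⟩
    · rw [mul_smul, mul_smul, j1, smul_inv_smul]
    · rw [mul_smul, mul_smul, inv_smul_smul, j2]
    · rw [mul_smul, mul_smul, ← j3, smul_inv_smul]
  · obtain ⟨b, p1, p2, p3⟩ := En_ce h1 he k
    obtain ⟨b', q1, q2, q3⟩ := En_ce h1' he' k'
    have nA : ∀ {x x' : V} {f : S.K.LE} (hf : f ∈ S.K.PE), S.K.c1 f = z → S.En f x x' →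
        S.K.ar x z → r ∈ S.J x → ¬ (S.K.ar x' z ∧ r ∈ S.J x') → (⟨f, hf⟩ : ↥S.K.PE) ∉ S.AJ := by
      rintro x x' f hf f1 hfe har hrx hnx ⟨⟨a1, a2⟩, s, s0, s1, s2⟩
      have a1 : S.K.ar (S.K.c0 f) (S.K.c1 f) := a1
      have a2 : S.K.ar (S.K.c2 f) (S.K.c1 f) := a2
      have s0 : s ∈ S.J (S.K.c0 f) := s0
      have s1 : s ∈ S.J (S.K.c1 f) := s1
      have s2 : s ∈ S.J (S.K.c2 f) := s2
      rw [f1] at a1 a2 s1
      rcases hfe with ⟨rfl, rfl⟩ | ⟨rfl, rfl⟩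
      · have := S.one_eq (Or.inr har) s1 s0 hr hrx
        subst this
        exact hnx ⟨a2, s2⟩
      · have := S.one_eq (Or.inr har) s1 s2 hr hrx
        subst this
        exact hnx ⟨a1, s0⟩
    obtain ⟨hbb, j, j3⟩ := hO n k r hr hn hb ⟨e, p1⟩ ⟨e', q1⟩ b b' (nA p1 h1 he k hn hf)
      (nA q1 h1' he' k' hn' hf') h1 h1' (by rw [p2]; exact k) (by rw [q2]; exact k')
      (by rw [p2]; exact Relation.EqvGen.refl _) (by rw [q2]; exact hl')
      (by rw [p3, q3]; exact hrho)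
    have j3 : e' = j • e := congrArg Subtype.val j3
    have jz : j • z = z := by
      rw [← h1, ← S.K.c1_smul, ← j3, h1', h1]
    refine ⟨j, jz, ?_, j3⟩
    have jn : n' = j • n := by
      rw [← q2, ← p2, ← hbb, j3]
      exact ce_smul S.K b j e
    exact fix_place jz jn k hr hn hn'

/-- the number of the pole ends is at most the degree -/
theorem exE_le_deg {z n : V} (h : S.K.ar n z) :
    exE hc hnb w hw (oq H (S.lp h)) ≤ S.LPG.fg.deg (oq H (S.lp h)) := by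
  obtain ⟨p, hp, hn⟩ := lp_ex h
  by_cases hb : Bp H w p
  · refine bad_red (S := S) w (F := fun _ y n h =>
      exE hc hnb w hw (oq H (S.lp h)) ≤ S.LPG.fg.deg (oq H (S.lp h))) ?_ ?_ hb h hp hn
    · intro g p y n h k
      rw [oq_lp] at k
      exact k
    · intro i y n h h1 h2
      rw [exE_bad hc hnb w hw h h1 h2]
      exact e_le_deg hc hnb (y := ⟨y, h1⟩) (n := ⟨n, h2⟩) h
  · rw [exE_lost hc hnb w hw h hp hn hb]

/-- IN THE EQUALITY CASE the degrees at the sinks are the numbers of the pole ends -/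
theorem sink_deg [Fintype ι] (hS : S.SinkH) (hL : S.Lost w) (hs : SoftLe hc hnb w hw)
    (h0 : ∑ i, (S.k0 hc (w i)).pexc ≤ S.K.pexc) {z : V} (hz : ∀ a, ¬ S.K.ar z a) {n : V}
    (h : S.K.ar n z) : S.LPG.fg.deg (oq H (S.lp h)) = exE hc hnb w hw (oq H (S.lp h)) := by
  have hf' : Fintype (S.LPG.comp (S.lp h)).fg.N := Fintype.ofFinite _
  have key := pexc_eq hc hnb w hw hS hL hs h0 h
  have E := exE_ex hc hnb w hw hL
  have h1 : (S.LPG.comp (S.lp h)).fg.exc (S.LPG.rs (S.lp h) S.PL) = 0 := by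
    rcases hS.ty z hz with ⟨q, hq⟩ | ⟨h1, h2, h3 | ⟨h3, h4⟩⟩
    · exact (sink_ell (P := S.PL) (fun _ _ k => lp_PL k) E hz h hq).1
    · exact (sink_D (P := S.PL) (fun _ _ k => lp_PL k) E hz (hS.lc z hz) h h1 h2 h3).1
    · exact (sink_Z (P := S.PL) (fun _ _ k => lp_PL k) E hz (hS.lc z hz) h h1 h3 h4).1
  rw [h1] at key
  have h2 := FG.aftE_zero _ (e := S.LPG.re (S.lp h) (exE hc hnb w hw))
    (D := S.LPG.rs (S.lp h) S.PL) ?_ key.symm.le
    (oq _ (⟨S.lp h, Relation.EqvGen.refl _⟩ : ↥(S.LPG.cT (S.lp h)))) ?_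
  · have h3 := S.LPG.deg_comp' (S.lp h)
      (oq _ (⟨S.lp h, Relation.EqvGen.refl _⟩ : ↥(S.LPG.cT (S.lp h))))
    exact h3.symm.trans h2
  · rintro x -
    obtain ⟨Q, rfl⟩ := oq_surj x
    obtain ⟨m, k, e1, -⟩ := sink_node hz h Q
    have h3 := S.LPG.deg_comp' (S.lp h) (oq _ Q)
    refine le_of_le_of_eq ?_ h3.symm
    show exE hc hnb w hw (oq H Q.1) ≤ S.LPG.fg.deg (oq H Q.1)
    rw [e1]
    exact exE_le_deg hc hnb w hw k
  · rw [sink_rs (P := S.PL) (fun _ _ k => lp_PL k) hz h]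
    exact fun k => k.elim

/-- [Z1]: IN THE EQUALITY CASE the corners of a sink which cross an edge are one orbit -/
theorem uqC_sink [Fintype ι] (hS : S.SinkH) (hL : S.Lost w) (hs : SoftLe hc hnb w hw)
    (h0 : ∑ i, (S.k0 hc (w i)).pexc ≤ S.K.pexc) {z : V} (hz : ∀ a, ¬ S.K.ar z a)
    (hO : ∀ n, S.K.ar n z → ∀ p, p ∈ S.J z → p ∈ S.J n → ¬ Bp H w p → S.OneDir p z n)
    {x u : S.X} (hu : S.D.G.Adj x u) (hxu : S.Cs x u z) : S.UqC x u z :=
  uqC_of hu hxu (hS.lc z hz)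
    (SU_of hc hnb w hw (fun n h p _ _ _ => (sink_deg hc hnb w hw hS hL hs h0 hz h).le) hO)
    (fun a ha => absurd ha (hz a))

end

end SyQ

end Pool.Agent.DI
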