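import Pool.Agent.DI.UqA
import Pool.Agent.DI.XSd

/-!
# One strand for every direction, without the duplicates

`S.pE F`: the corners without the corners `(T, b, v)` of the squares in `F`; `pE_par`: every corner has a
parallel one. `S.lnA A`: the lines of `S.LPG` which belong to `A`. `e_le_degN`: over a bad vertex the
number of pole ends is at most the degree in `S.LPG.sub (S.lnA A)`; `SU_badN`; `SUA_of`: `SUA A z` from
the degrees over the bad places and `OneDirR` over the others. `uqV_of`: one crossing corner as triples.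
-/

namespace Pool.Agent.DI

open MulAction
open Pool.Agent.SAF (InC orbs FinOrb oc Decomp SAn SA Conv hull dist_edge FinOrb_iff exists_next TAct)
open Pool.Agent.BT (PX PQ JS bey exits)
open Pool.Agent.BT.TA

namespace SyQ

variable {H V : Type} [Group H] [MulAction H V] {S : SyQ H V}

/-- the corners without the duplicates -/
def pE (S : SyQ H V) (F : S.K.I → Prop) : SubMulAction H S.K.LE where
  carrier := {e | ¬ (F e.1.1 ∧ e.1.2.1 = 1)}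
  smul_mem' _ _ h := h

/-- every corner is parallel to a corner which is no duplicate -/
theorem pE_par {F : S.K.I → Prop} (hF : ∀ i, F i → S.P.Ew i ∧ S.Flp i) : S.Par (S.pE F) := by
  intro e
  by_cases he : e ∈ S.pE F
  · exact ⟨e, he, rfl, Or.inl ⟨rfl, rfl⟩⟩
  · obtain ⟨⟨i, k⟩, g⟩ := e
    have he : ¬ ¬ (F i ∧ k.1 = 1) := he
    rw [not_not] at he
    obtain ⟨hFi, hk⟩ := he
    obtain ⟨hi, f, f1, f2, f3, f4⟩ := hF i hFi
    have hl : S.K.len i = 4 := S.P.len4 hi.sq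
    have l3 : 3 < S.K.len i := by
      rw [hl]
      omega
    have a0 : S.K.c0 ((⟨i, k⟩, g) : S.K.LE) = g • S.P.qt i 1 := by
      show g • S.K.vx i k.1 = _
      rw [hk, Phm.vx hi.sq 1 1 rfl]
    have a1 : S.K.c1 ((⟨i, k⟩, g) : S.K.LE) = g • S.P.qt i 2 := by
      show g • S.K.vx i (k.1 + 1) = _
      rw [hk, Phm.vx hi.sq 2 2 rfl]
    have a2 : S.K.c2 ((⟨i, k⟩, g) : S.K.LE) = g • S.P.qt i 3 := by
      show g • S.K.vx i (k.1 + 2) = _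
      rw [hk, Phm.vx hi.sq 3 3 rfl]
    let e0 : S.K.LE := (⟨i, ⟨3, l3⟩⟩, g * f)
    have k0 : S.K.c0 e0 = g • S.P.qt i 3 := by
      show (g * f) • S.K.vx i 3 = _
      rw [Phm.vx hi.sq 3 3 rfl, mul_smul, f1]
    have k1 : S.K.c1 e0 = g • S.P.qt i 2 := by
      show (g * f) • S.K.vx i 4 = _
      rw [Phm.vx hi.sq 4 0 rfl, mul_smul, f3]
    have k2 : S.K.c2 e0 = g • S.P.qt i 1 := by
      show (g * f) • S.K.vx i 5 = _
      rw [Phm.vx hi.sq 5 1 rfl, mul_smul, f2]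
    refine ⟨e0, ?_, k1.trans a1.symm, Or.inr ⟨k0.trans a2.symm, k2.trans a0.symm⟩⟩
    rintro ⟨-, q⟩
    have q : (3 : ℕ) = 1 := q
    omega

/-- the lines in `A` -/
def lnA (S : SyQ H V) (A : SubMulAction H S.K.LE) : SubMulAction H ↥(JM.cpl S.AJ) where
  carrier := {e | e.1.1 ∈ A}
  smul_mem' g _ h := A.smul_mem g h

theorem pR_eq (F : S.K.I → Prop) : S.pR F = S.lnA (S.pE F) := rfl

variable {A : SubMulAction H S.K.LE}

/-- a corner in `A` with a page end: the class of its line end -/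
theorem exN_HL {e : S.K.LE} (heA : e ∈ A) {y n m : V} (h1 : S.K.c1 e = y) (he : S.En e n m)
    (har : S.K.ar n y)
    (hnl : ¬ (S.K.ar m y ∧ ∃ p, p ∈ S.J n ∧ p ∈ S.J y ∧ p ∈ S.J m)) {x : S.LPG.fg.N}
    (hx : (oq H (S.lp har) : orbitRel.Quotient H (S.K.pc.CT S.AJ)) = x) :
    ∃ (ε : ↥(S.lnA A)) (b : Bool) (h : (oq H ((S.LPG.sub (S.lnA A)).en ε b) :
      orbitRel.Quotient H (S.K.pc.CT S.AJ)) = x), ε.1.1.1 = e ∧
      ((b = true ∧ S.K.c0 e = n ∧ S.K.c2 e = m) ∨ (b = false ∧ S.K.c2 e = n ∧ S.K.c0 e = m)) := by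
  obtain ⟨ε, b, e1, e2, e3⟩ := ex_hl h1 he har hnl
  refine ⟨⟨ε, by show ε.1.1 ∈ A; rw [e1]; exact heA⟩, b, ?_, e1, e3⟩
  rw [← hx, ← e2]
  cases b <;> rfl

/-- the pole ends are ends of different strands in `A` -/
theorem dxN_inj (hA : S.Par A) (hc : S.Conn) (hnb : S.NB) {w : S.X} {y n : S.NV w}
    (har : S.K.ar n.1 y.1) :
    ∃ Φ : DX hc hnb har → (S.LPG.sub (S.lnA A)).HL (oq H (S.lp har)), Function.Injective Φ ∧
      ∀ (d : DX hc hnb har) (n1 m : V) (ε : ↥(S.lnA A)) (b : Bool)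
        (h : (oq H ((S.LPG.sub (S.lnA A)).en ε b) : orbitRel.Quotient H (S.K.pc.CT S.AJ)) =
          oq H (S.lp har)),
        ((b = true ∧ S.K.c0 ε.1.1.1 = n1 ∧ S.K.c2 ε.1.1.1 = m) ∨
          (b = false ∧ S.K.c2 ε.1.1.1 = n1 ∧ S.K.c0 ε.1.1.1 = m)) → S.K.c1 ε.1.1.1 = y.1 →
        w ∈ S.J n1 → S.LIJ w y.1 n.1 n1 → Φ d = (S.LPG.sub (S.lnA A)).hl ε b h →
        ∃ x : ↥(JM.cpl (farN hc w)), (oq ↥(stabilizer H w) x : orbitRel.Quotient _ _) = d.1.1 ∧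
          x.1.1 = PN.pol (Sum.inl y) (S.rho w m) ((S.k0 hc w).Pc (Sum.inl y) (Sum.inl n)) := by
  classical
  have hcomm : ∀ {n' m : V}, S.K.ar n' y.1 → w ∈ S.J n' → ¬ (S.K.ar m y.1 ∧ w ∈ S.J m) →
      ¬ (S.K.ar m y.1 ∧ ∃ p, p ∈ S.J n' ∧ p ∈ S.J y.1 ∧ p ∈ S.J m) := by
    rintro n' m h1 h2 h3 ⟨h4, p, p1, p2, p3⟩
    have := pt_unique (Or.inr h1 : S.K.E y.1 n') p2 p1 y.2 h2
    subst this
    exact h3 ⟨h4, p3⟩
  have hlp : ∀ {n' : V} (a : S.K.ar n' y.1), w ∈ S.J n' → S.LIJ w y.1 n.1 n' →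
      (oq H (S.lp a) : orbitRel.Quotient H (S.K.pc.CT S.AJ)) = oq H (S.lp har) := by
    intro n' a h2 h3
    rw [(lp_iff har a y.2 n.2).2 h3]
  -- the strands of the pole ends
  have hdat : ∀ d : DX hc hnb har, ∃ (e : S.K.LE) (n' m : V), e ∈ A ∧ S.K.c1 e = y.1 ∧
      S.En e n' m ∧ S.K.ar n' y.1 ∧ w ∈ S.J n' ∧
      S.LIJ w y.1 n.1 n' ∧ ¬ (S.K.ar m y.1 ∧ w ∈ S.J m) ∧
      ∃ x : ↥(JM.cpl (farN hc w)), (oq ↥(stabilizer H w) x : orbitRel.Quotient _ _) = d.1.1 ∧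
        x.1.1 = PN.pol (Sum.inl y) (S.rho w m) ((S.k0 hc w).Pc (Sum.inl y) (Sum.inl n)) := by
    intro d
    obtain ⟨e, n', m, q1, q2, q3⟩ := dx_data (S := S) hc hnb har d
    obtain ⟨e', a1, a2, a3⟩ := hA e
    refine ⟨e', n', m, a1, a2.trans q1, ?_, q3⟩
    rcases q2 with ⟨b1, b2⟩ | ⟨b1, b2⟩
    · rw [b1, b2] at a3
      exact a3
    · rw [b1, b2] at a3
      exact a3.swap
  choose ed nd md dA d1 d2 d3 d4 d5 d6 xd d7 d8 using hdat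
  have hex := fun d => exN_HL (S := S) (dA d) (d1 d) (d2 d) (d3 d) (hcomm (d3 d) (d4 d) (d6 d))
    (hlp (d3 d) (d4 d) (d5 d))
  choose εd bd hd f1 f2 using hex
  -- the pole end of a strand
  have pole : ∀ {g : H} {n2 m2 n3 m3 : V}, g • y.1 = y.1 → n3 = g • n2 → m3 = g • m2 →
      S.K.ar n2 y.1 → w ∈ S.J n2 → w ∈ S.J n3 → S.LIJ w y.1 n.1 n2 → S.LIJ w y.1 n.1 n3 →
      ∃ j : ↥(stabilizer H w), j.1 = g ∧
        PN.pol (Sum.inl y) (S.rho w m3) ((S.k0 hc w).Pc (Sum.inl y) (Sum.inl n)) =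
        j • PN.pol (Sum.inl y) (S.rho w m2) ((S.k0 hc w).Pc (Sum.inl y) (Sum.inl n)) := by
    intro g n2 m2 n3 m3 gy gn gm a2 w2 w3 l2 l3
    have gw : g • w = w := fix_place gy gn a2 y.2 w2 w3
    let j : ↥(stabilizer H w) := ⟨g, gw⟩
    refine ⟨j, rfl, ?_⟩
    have ey : j • (Sum.inl y : S.SV w) = Sum.inl y := congrArg Sum.inl (Subtype.ext gy)
    rw [PN.smul_pol, GX.Pc_smul, ey, gm, S.rho_smul j m2]
    congr 1
    apply GX.Pc_eq.2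
    have q1 : (S.k0 hc w).IJ (Sum.inl y) (Sum.inl n) (Sum.inl ⟨n2, w2⟩) := (ij_inl hc hnb).2 l2
    have q2 : (S.k0 hc w).IJ (Sum.inl y) (Sum.inl n) (Sum.inl ⟨n3, w3⟩) := (ij_inl hc hnb).2 l3
    have q3 := q1.smul j
    rw [ey] at q3
    have e3 : j • (Sum.inl ⟨n2, w2⟩ : S.SV w) = Sum.inl ⟨n3, w3⟩ :=
      congrArg Sum.inl (Subtype.ext gn.symm)
    rw [e3] at q3
    exact q2.trans' q3.symm'
  have back : ∀ {e e' : S.K.LE} {n m n' m' : V} {ε ε' : ↥(S.lnA A)} {b b' : Bool},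
      ε.1.1.1 = e → ε'.1.1.1 = e' →
      ((b = true ∧ S.K.c0 e = n ∧ S.K.c2 e = m) ∨ (b = false ∧ S.K.c2 e = n ∧ S.K.c0 e = m)) →
      ((b' = true ∧ S.K.c0 e' = n' ∧ S.K.c2 e' = m') ∨
        (b' = false ∧ S.K.c2 e' = n' ∧ S.K.c0 e' = m')) →
      (b' = b ∧ ∃ g : H, ε' = g • ε) → ∃ g : H, e' = g • e ∧ n' = g • n ∧ m' = g • m ∧
        S.K.c1 e' = g • S.K.c1 e := by
    intro e e' n m n' m' ε ε' b b' e1 e1' k k' hb
    obtain ⟨hb1, g, hg⟩ := hb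
    exact hl_back (ε := ε.1) (ε' := ε'.1) e1 e1' k k' ⟨hb1, g, congrArg Subtype.val hg⟩
  refine ⟨fun d => (S.LPG.sub (S.lnA A)).hl (εd d) (bd d) (hd d), ?_, ?_⟩
  · intro d d' h
    obtain ⟨g, g1, g2, g3, g4⟩ := back (f1 d) (f1 d') (f2 d) (f2 d') (JM.hl_eq h)
    rw [d1 d, d1 d'] at g4
    obtain ⟨j, -, hj⟩ := pole g4.symm g2 g3 (d3 d) (d4 d) (d4 d') (d5 d) (d5 d')
    obtain ⟨k, hk⟩ := near_ext hc (w := w) (d := xd d) (d' := xd d') (j := j) (j' := 1) (by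
      rw [one_smul, d8 d']
      show j • (xd d).1.1 = _
      rw [d8 d, hj])
    apply Subtype.ext
    apply Subtype.ext
    rw [← d7 d, ← d7 d', hk, oq_smul]
  · intro d n1 m ε b h k1 k2 w1 l1 hd1
    obtain ⟨g, g1, g2, g3, g4⟩ := back (f1 d) (rfl : ε.1.1.1 = ε.1.1.1) (f2 d) k1 (JM.hl_eq hd1)
    rw [d1 d, k2] at g4
    obtain ⟨j, -, hj⟩ := pole g4.symm g2 g3 (d3 d) (d4 d) w1 (d5 d) l1
    refine ⟨j • xd d, ?_, ?_⟩
    · rw [oq_smul]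
      exact d7 d
    · show j • (xd d).1.1 = _
      rw [d8 d, hj]

/-- the number of the pole ends is at most the degree -/
theorem e_le_degN (hA : S.Par A) (hc : S.Conn) (hnb : S.NB) {w : S.X} {y n : S.NV w}
    (har : S.K.ar n.1 y.1) :
    (jcut hc hnb w).e (oq H (S.K.pc.ct (S.cA w) ⟨PN.inn y.1 n.1, har⟩)) ≤
      (S.LPG.sub (S.lnA A)).fg.deg (oq H (S.lp har)) := by
  obtain ⟨Φ, inj, -⟩ := dxN_inj hA hc hnb har
  have := (S.LPG.sub (S.lnA A)).fin_HL (oq H (S.lp har))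
  rw [← card_DX, ← (S.LPG.sub (S.lnA A)).card_HL]
  exact Nat.card_le_card_of_injective Φ inj

/-- THE BAD VERTICES: if the degree of the local piece is at most the number of its pole ends, then
there is one strand in `A` for every direction -/
theorem SU_badN (hA : S.Par A) (hc : S.Conn) (hnb : S.NB) {w : S.X} {y n : S.NV w}
    (har : S.K.ar n.1 y.1)
    (hdeg : (S.LPG.sub (S.lnA A)).fg.deg (oq H (S.lp har)) ≤
      (jcut hc hnb w).e (oq H (S.K.pc.ct (S.cA w) ⟨PN.inn y.1 n.1, har⟩)))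
    {e e' : S.K.LE} (heA : e ∈ A) (heA' : e' ∈ A)
    {n1 m n1' m' : V} (h1 : S.K.c1 e = y.1) (h1' : S.K.c1 e' = y.1)
    (he : S.En e n1 m) (he' : S.En e' n1' m') (a1 : S.K.ar n1 y.1) (a1' : S.K.ar n1' y.1)
    (w1 : w ∈ S.J n1) (w1' : w ∈ S.J n1') (l1 : S.LIJ w y.1 n.1 n1) (l1' : S.LIJ w y.1 n.1 n1')
    (hnl : ¬ (S.K.ar m y.1 ∧ w ∈ S.J m)) (hnl' : ¬ (S.K.ar m' y.1 ∧ w ∈ S.J m'))
    (hm : S.rho w m = S.rho w m') : ∃ g : H, g • y.1 = y.1 ∧ g • w = w ∧ e' = g • e := by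
  have hcomm : ∀ {n' m : V}, S.K.ar n' y.1 → w ∈ S.J n' → ¬ (S.K.ar m y.1 ∧ w ∈ S.J m) →
      ¬ (S.K.ar m y.1 ∧ ∃ p, p ∈ S.J n' ∧ p ∈ S.J y.1 ∧ p ∈ S.J m) := by
    rintro n' m h1 h2 h3 ⟨h4, p, p1, p2, p3⟩
    have := pt_unique (Or.inr h1 : S.K.E y.1 n') p2 p1 y.2 h2
    subst this
    exact h3 ⟨h4, p3⟩
  have hlp : ∀ {n' : V} (a : S.K.ar n' y.1), w ∈ S.J n' → S.LIJ w y.1 n.1 n' →
      (oq H (S.lp a) : orbitRel.Quotient H (S.K.pc.CT S.AJ)) = oq H (S.lp har) := by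
    intro n' a h2 h3
    rw [(lp_iff har a y.2 n.2).2 h3]
  obtain ⟨Φ, inj, hΦ⟩ := dxN_inj hA hc hnb har
  have := (S.LPG.sub (S.lnA A)).fin_HL (oq H (S.lp har))
  have sur : Function.Surjective Φ := by
    have hb := (Nat.bijective_iff_injective_and_card Φ).2 ⟨inj, ?_⟩
    · exact hb.2
    · apply le_antisymm (Nat.card_le_card_of_injective Φ inj)
      rw [(S.LPG.sub (S.lnA A)).card_HL]
      exact hdeg
  obtain ⟨ε, b, hh, rfl, k2⟩ := exN_HL (S := S) heA h1 he a1 (hcomm a1 w1 hnl) (hlp a1 w1 l1)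
  obtain ⟨ε', b', hh', rfl, k2'⟩ := exN_HL (S := S) heA' h1' he' a1' (hcomm a1' w1' hnl')
    (hlp a1' w1' l1')
  obtain ⟨d, hd1⟩ := sur ((S.LPG.sub (S.lnA A)).hl ε b hh)
  obtain ⟨d', hd2⟩ := sur ((S.LPG.sub (S.lnA A)).hl ε' b' hh')
  have hdd : d = d' := by
    obtain ⟨x, x1, x2⟩ := hΦ d n1 m ε b hh k2 h1 w1 l1 hd1
    obtain ⟨x', x1', x2'⟩ := hΦ d' n1' m' ε' b' hh' k2' h1' w1' l1' hd2
    have hx : x = x' := Subtype.ext (Subtype.ext (by rw [x2, x2', hm]))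
    apply Subtype.ext
    apply Subtype.ext
    rw [← x1, ← x1', hx]
  subst hdd
  obtain ⟨hb1, g0, hg0⟩ := JM.hl_eq (hd1.symm.trans hd2)
  obtain ⟨g, g1, g2, g3, g4⟩ := hl_back (ε := ε.1) (ε' := ε'.1) rfl rfl k2 k2'
    ⟨hb1, g0, congrArg Subtype.val hg0⟩
  rw [h1, h1'] at g4
  exact ⟨g, g4.symm, fix_place g4.symm g2 a1 y.2 w1 w1', g1⟩

section

variable (hA : S.Par A) (hc : S.Conn) (hnb : S.NB) {ι : Type} (w : ι → S.X)
  (hw : ∀ (i j : ι) (g : H), g • w i = w j → i = j)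

include hA in
/-- ONE STRAND IN `A` FOR EVERY LOCAL PIECE AND EVERY EXIT: over the bad places from the degrees, over
the other places from `OneDirR` -/
theorem SUA_of {z : V}
    (hD : ∀ n (h : S.K.ar n z) p, p ∈ S.J z → p ∈ S.J n → Bp H w p →
      (S.LPG.sub (S.lnA A)).fg.deg (oq H (S.lp h)) ≤ exE hc hnb w hw (oq H (S.lp h)))
    (hO : ∀ n, S.K.ar n z → ∀ p, p ∈ S.J z → p ∈ S.J n → ¬ Bp H w p →
      S.OneDirR (S.lnA A) p z n) : S.SUA A z := by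
  intro r hr e e' n m n' m' heA heA' h1 h1' he he' k k' hn hn' hl hx
  have hl' := LIJ_of_LR hr hl
  have hrho := hx.rho
  obtain ⟨hf, hf'⟩ := hx.far
  by_cases hb : Bp H w r
  · obtain ⟨i, g, rfl⟩ := hb
    have inv : ∀ x : V, g • w i ∈ S.J x → w i ∈ S.J (g⁻¹ • x) := by
      intro x hx
      have := S.js.smul g⁻¹ _ _ hx
      rwa [inv_smul_smul] at this
    have inv' : ∀ x : V, w i ∈ S.J (g⁻¹ • x) → g • w i ∈ S.J x := by
      intro x hx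
      have := S.js.smul g _ _ hx
      rwa [smul_inv_smul] at this
    have arinv : ∀ {a b : V}, S.K.ar (g⁻¹ • a) (g⁻¹ • b) → S.K.ar a b := by
      intro a b hab
      have := S.K.ar_smul g _ _ hab
      rwa [smul_inv_smul, smul_inv_smul] at this
    have kk : S.K.ar (g⁻¹ • n) (g⁻¹ • z) := S.K.ar_smul g⁻¹ _ _ k
    have kk' : S.K.ar (g⁻¹ • n') (g⁻¹ • z) := S.K.ar_smul g⁻¹ _ _ k'
    have d1 := hD n k _ hr hn ⟨i, g, rfl⟩
    rw [← oq_lp g⁻¹ k, exE_bad hc hnb w hw kk (inv _ hr) (inv _ hn)] at d1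
    have far : ∀ x : V, ¬ (S.K.ar x z ∧ g • w i ∈ S.J x) →
        ¬ (S.K.ar (g⁻¹ • x) (g⁻¹ • z) ∧ w i ∈ S.J (g⁻¹ • x)) :=
      fun x h1 h2 => h1 ⟨arinv h2.1, inv' _ h2.2⟩
    have hrho' : S.rho (w i) (g⁻¹ • m) = S.rho (w i) (g⁻¹ • m') := by
      rcases hx with ⟨t, a1, a2, a3, a4⟩ | ⟨rfl, -, -⟩
      · have b1 := S.D.adj_smul g⁻¹ _ _ a1
        have b3 := S.sub_bey_smul g⁻¹ a3
        have b4 := S.sub_bey_smul g⁻¹ a4
        rw [inv_smul_smul] at b1 b3 b4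
        rw [S.rho_bey b1 b3, S.rho_bey b1 b4]
      · rfl
    have hl2 := LIJ.smul g⁻¹ hl'
    rw [inv_smul_smul] at hl2
    obtain ⟨j, j1, j2, j3⟩ := SU_badN hA hc hnb (w := w i) (y := ⟨g⁻¹ • z, inv _ hr⟩)
      (n := ⟨g⁻¹ • n, inv _ hn⟩) kk d1 (e := g⁻¹ • e) (e' := g⁻¹ • e')
      (A.smul_mem g⁻¹ heA) (A.smul_mem g⁻¹ heA')
      (by rw [S.K.c1_smul, h1]) (by rw [S.K.c1_smul, h1']) (he.smul g⁻¹) (he'.smul g⁻¹) kk kk'
      (inv _ hn) (inv _ hn') (Relation.EqvGen.refl _) hl2 (far _ hf) (far _ hf') hrho'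
    refine ⟨g * j * g⁻¹, ?_, ?_, ?_⟩
    · rw [mul_smul, mul_smul, j1, smul_inv_smul]
    · rw [mul_smul, mul_smul, inv_smul_smul, j2]
    · rw [mul_smul, mul_smul, ← j3, smul_inv_smul]
  · obtain ⟨b, p1, p2, p3⟩ := En_ce h1 he k
    obtain ⟨b', q1, q2, q3⟩ := En_ce h1' he' k'
    have nA : ∀ {x x' : V} {f : S.K.LE} (hf : f ∈ S.K.PE), S.K.c1 f = z → S.En f x x' →
        S.K.ar x z → r ∈ S.J x → ¬ (S.K.ar x' z ∧ r ∈ S.J x') → (⟨f, hf⟩ : ↥S.K.PE) ∉ S.AJ := by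
      rintro x x' f hf f1 hfe har hrx hnx ⟨⟨a1, a2⟩, s, s0, s1, s2⟩
      have a1 : S.K.ar (S.K.c0 f) (S.K.c1 f) := a1
      have a2 : S.K.ar (S.K.c2 f) (S.K.c1 f) := a2
      have s0 : s ∈ S.J (S.K.c0 f) := s0
      have s1 : s ∈ S.J (S.K.c1 f) := s1
      have s2 : s ∈ S.J (S.K.c2 f) := s2
      rw [f1] at a1 a2 s1
      rcases hfe with ⟨rfl, rfl⟩ | ⟨rfl, rfl⟩
      · have := S.one_eq (Or.inr har) s1 s0 hr hrx
        subst this
        exact hnx ⟨a2, s2⟩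
      · have := S.one_eq (Or.inr har) s1 s2 hr hrx
        subst this
        exact hnx ⟨a1, s0⟩
    obtain ⟨hbb, j, j3⟩ := hO n k r hr hn hb ⟨⟨e, p1⟩, nA p1 h1 he k hn hf⟩
      ⟨⟨e', q1⟩, nA q1 h1' he' k' hn' hf'⟩ b b' heA heA' h1 h1' (by rw [p2]; exact k)
      (by rw [q2]; exact k') (by rw [p2]; exact Relation.EqvGen.refl _) (by rw [q2]; exact hl')
      (by rw [p3, q3]; exact hrho)
    have j3 : e' = j • e := congrArg Subtype.val (congrArg Subtype.val j3)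
    have jz : j • z = z := by
      rw [← h1, ← S.K.c1_smul, ← j3, h1', h1]
    refine ⟨j, jz, ?_, j3⟩
    have jn : n' = j • n := by
      rw [← q2, ← p2, ← hbb, j3]
      exact ce_smul S.K b j e
    exact fix_place jz jn k hr hn hn'

end

end SyQ

end Pool.Agent.DI
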