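import Pool.Agent.DI.DupQ
import Pool.Agent.DI.UqN
import Pool.Agent.DI.UqT

/-!
# [Z1] with duplicate lines

`F`: flipped squares. `dupL_pQ`: the lines `pQ F` are duplicates. In the equality case of the exc-law
with duplicates the degrees at the sinks and at the thin softs, without the duplicates, are the numbers
of the pole ends (`sink_degF`, `thin_degF`); then the corners in `S.pE F` which cross an edge are one
orbit (`uqA_sink`, `uqA_thin`), and all crossing corners are one orbit as triples (`uqV_sink`,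
`uqV_thin`).
-/

namespace Pool.Agent.DI

open MulAction
open Pool.Agent.SAF (InC orbs FinOrb oc Decomp SAn SA Conv hull dist_edge FinOrb_iff exists_next TAct)
open Pool.Agent.SAG (IO Zt)
open Pool.Agent.BT (PX PQ JS bey exits mst Hyp finite_of_hyp axis)
open Pool.Agent.BT.TA

namespace SyQ

variable {H V : Type} [Group H] [MulAction H V] {S : SyQ H V}

/-- the lines `(T, b, v)` of the flipped squares are duplicates -/
theorem dupL_pQ {F : S.K.I → Prop} (hF : ∀ i, F i → S.Ewk i ∧ S.Flp i) : S.DupL (S.pQ F) where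
  cor := by
    rintro ⟨⟨e0, he1⟩, he2⟩ he
    obtain ⟨⟨i, k⟩, g⟩ := e0
    obtain ⟨hFi, hk⟩ : F i ∧ k.1 = 1 := he
    obtain ⟨hi, f, f1, f2, f3, f4⟩ := hF i hFi
    obtain ⟨q0, q1, q2⟩ := hi.corQ hk g
    have hl : S.K.len i = 4 := S.P.len4 hi.sq
    have l3 : 3 < S.K.len i := by
      rw [hl]
      omega
    let e0 : S.K.LE := (⟨i, ⟨3, l3⟩⟩, g * f)
    have k0 : S.K.c0 e0 = g • S.P.qt i 3 := by
      show (g * f) • S.K.vx i 3 = _
      rw [Phm.vx hi.sq 3 3 rfl, mul_smul, f1]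
    have k1 : S.K.c1 e0 = g • S.P.qt i 2 := by
      show (g * f) • S.K.vx i 4 = _
      rw [Phm.vx hi.sq 4 0 rfl, mul_smul, f3]
    have k2 : S.K.c2 e0 = g • S.P.qt i 1 := by
      show (g * f) • S.K.vx i 5 = _
      rw [Phm.vx hi.sq 5 1 rfl, mul_smul, f2]
    have h1 : e0 ∈ S.K.PE := by
      left
      rw [k0, k1]
      exact S.K.ar_smul g _ _ hi.vb
    have h2 : (⟨e0, h1⟩ : ↥S.K.PE) ∈ JM.cpl S.AJ := by
      rintro ⟨-, p, p1, -, p3⟩
      have p1 : p ∈ S.J (S.K.c0 e0) := p1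
      have p3 : p ∈ S.J (S.K.c2 e0) := p3
      rw [k0] at p1
      rw [k2] at p3
      have r1 := S.js.smul g⁻¹ _ _ p1
      have r3 := S.js.smul g⁻¹ _ _ p3
      rw [inv_smul_smul] at r1 r3
      exact hi.sep0 _ r1 r3
    refine ⟨⟨⟨e0, h1⟩, h2⟩, ?_, k1.trans q1.symm, Or.inr ⟨k0.trans q2.symm, k2.trans q0.symm⟩⟩
    rintro ⟨-, k⟩
    have k : (3 : ℕ) = 1 := k
    omega
  inn := by
    rintro ⟨⟨e0, he1⟩, he2⟩ he
    obtain ⟨⟨i, k⟩, g⟩ := e0
    obtain ⟨hFi, hk⟩ : F i ∧ k.1 = 1 := he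
    obtain ⟨hi, -⟩ := hF i hFi
    obtain ⟨q0, q1, q2⟩ := hi.corQ hk g
    constructor
    · show S.K.ar (S.K.c0 ((⟨i, k⟩, g) : S.K.LE)) (S.K.c1 ((⟨i, k⟩, g) : S.K.LE))
      rw [q0, q1]
      exact S.K.ar_smul g _ _ hi.Tb
    · show S.K.ar (S.K.c2 ((⟨i, k⟩, g) : S.K.LE)) (S.K.c1 ((⟨i, k⟩, g) : S.K.LE))
      rw [q2, q1]
      exact S.K.ar_smul g _ _ hi.vb

theorem par_of_ewk {F : S.K.I → Prop} (hF : ∀ i, F i → S.Ewk i ∧ S.Flp i) : S.Par (S.pE F) :=
  pE_par fun i h => ⟨(hF i h).1.toEw, (hF i h).2⟩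

section

variable (hc : S.Conn) (hnb : S.NB) {ι : Type} (w : ι → S.X)
  (hw : ∀ (i j : ι) (g : H), g • w i = w j → i = j) {F : S.K.I → Prop}
  (hF : ∀ i, F i → S.Ewk i ∧ S.Flp i)

include hF

/-- the number of the pole ends is at most the degree without the duplicates -/
theorem exR_le_deg {z n : V} (h : S.K.ar n z) :
    exR hc hnb w hw (S.pQ F) (oq H (S.lp h)) ≤ (S.NG (S.pQ F)).fg.deg (oq H (S.lp h)) := by
  obtain ⟨p, hp, hn⟩ := lp_ex h
  by_cases hb : Bp H w p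
  · rw [exR_bad hc hnb w hw _ h hp hn hb]
    refine bad_red (S := S) w (F := fun _ y n h =>
      exE hc hnb w hw (oq H (S.lp h)) ≤ (S.NG (S.pQ F)).fg.deg (oq H (S.lp h))) ?_ ?_ hb h hp hn
    · intro g p y n h k
      rw [oq_lp] at k
      exact k
    · intro i y n h h1 h2
      rw [exE_bad hc hnb w hw h h1 h2]
      exact e_le_degN (par_of_ewk hF) hc hnb (y := ⟨y, h1⟩) (n := ⟨n, h2⟩) h
  · rw [exR_lost hc hnb w hw _ h hp hn hb]

/-- a component without contribution and without pole excess -/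
theorem deg_of_comp {z n : V} (h : S.K.ar n z) [Fintype (S.NC (S.pQ F) h).fg.N]
    (h0 : (S.NC (S.pQ F) h).fg.aftE (S.LPG.rs (S.lp h) S.PL)
      (S.LPG.re (S.lp h) (exR hc hnb w hw (S.pQ F))) ≤ 0) :
    (S.NG (S.pQ F)).fg.deg (oq H (S.lp h)) = exR hc hnb w hw (S.pQ F) (oq H (S.lp h)) := by
  have hdeg : ∀ q : (S.NC (S.pQ F) h).fg.N, (S.NC (S.pQ F) h).fg.deg q =
      (S.NG (S.pQ F)).fg.deg (S.LPG.compN (S.lp h) q).1 := by
    intro q
    exact S.LPG.deg_comp_sub (JM.cpl (S.pQ F)) (S.lp h) q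
  have h2 := FG.aftE_zero (S.NC (S.pQ F) h).fg (e := S.LPG.re (S.lp h) (exR hc hnb w hw (S.pQ F)))
    (D := S.LPG.rs (S.lp h) S.PL) ?_ h0
    (oq _ (⟨S.lp h, Relation.EqvGen.refl _⟩ : ↥(S.LPG.cT (S.lp h)))) ?_
  · have h3 := hdeg (oq _ (⟨S.lp h, Relation.EqvGen.refl _⟩ : ↥(S.LPG.cT (S.lp h))))
    exact h3.symm.trans h2
  · intro x hx
    obtain ⟨Q, rfl⟩ := oq_surj x
    have h3 := hdeg (oq _ Q)
    refine le_of_le_of_eq ?_ h3.symm
    show exR hc hnb w hw (S.pQ F) (oq H Q.1) ≤ (S.NG (S.pQ F)).fg.deg (oq H Q.1)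
    obtain ⟨t, ht⟩ := S.K.pc.ct_surj Q.1
    rcases S.K.pt_cases t with ⟨y, m, k, e1⟩ | ⟨y, a, m, k1, k2, k3, e1⟩
    · have e2 : Q.1 = S.lp k := by
        rw [← ht]
        exact congrArg _ (Subtype.ext e1)
      rw [e2]
      exact exR_le_deg hc hnb w hw hF k
    · exfalso
      apply hx
      show (oq H Q.1 : orbitRel.Quotient H (S.K.pc.CT S.AJ)) ∈ S.PL
      rw [← ht, mem_PL_ct]
      exact S.K.mem_PO e1
  · intro k
    exact lp_PL h k

variable (hL : S.LostR (S.pR F) w) (hS : S.SinkH) (hl : ∀ y, (∃ a, S.K.ar y a) → S.K.LC y)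
  [Fintype ι] (h0 : ∑ i, (S.k0 hc (w i)).pexc ≤ S.K.pexc + (dupB hc hnb w hw (S.pQ F) : ℤ))

include hL hS hl h0

/-- IN THE EQUALITY CASE the degrees at the sinks, without the duplicates, are the numbers of the pole
ends -/
theorem sink_degF {z : V} (hz : ∀ a, ¬ S.K.ar z a) {n : V} (h : S.K.ar n z) :
    (S.NG (S.pQ F)).fg.deg (oq H (S.lp h)) = exR hc hnb w hw (S.pQ F) (oq H (S.lp h)) := by
  have hf' : Fintype (S.NC (S.pQ F) h).fg.N := Fintype.ofFinite _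
  refine deg_of_comp hc hnb w hw hF h ?_
  have key := aft_sinkR hc hnb w hw (dupL_pQ hF) hL hS hl h0 hz h
  have e1 : S.LPG.rs (S.lp h) S.PL = (∅ : Set (S.NC (S.pQ F) h).fg.N) :=
    sink_rs (P := S.PL) (fun _ _ k => lp_PL k) hz h
  rw [e1]
  exact key.le

/-- IN THE EQUALITY CASE the degrees at the pages of a thin soft, without the duplicates, are the
numbers of the pole ends -/
theorem thin_degF {z : V} (th : S.Th1 z) {n : V} (h : S.K.ar n z) :
    (S.NG (S.pQ F)).fg.deg (oq H (S.lp h)) = exR hc hnb w hw (S.pQ F) (oq H (S.lp h)) := by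
  have hf' : Fintype (S.NC (S.pQ F) h).fg.N := Fintype.ofFinite _
  refine deg_of_comp hc hnb w hw hF h ?_
  rw [← pexc_eqR hc hnb w hw (dupL_pQ hF) hL hS hl h0 h]
  have h1 := exc_thin h th
  rw [S.LPG.exc_comp (S.pQ F) (S.lp h) (dupL_pQ hF).no_PL] at h1
  exact h1

omit hS hl h0 in
omit [Fintype ι] in
/-- one strand for every local piece and every exit, without the duplicates -/
theorem SUA_of_deg {z : V} (hd : ∀ n (h : S.K.ar n z), (S.NG (S.pQ F)).fg.deg (oq H (S.lp h)) =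
    exR hc hnb w hw (S.pQ F) (oq H (S.lp h))) : S.SUA (S.pE F) z := by
  refine SUA_of (par_of_ewk hF) hc hnb w hw ?_ ?_
  · intro n h p hp hn hb
    have := hd n h
    rw [exR_bad hc hnb w hw _ h hp hn hb] at this
    exact this.le
  · exact fun n h p hp hn hb => hL z n h p hp hn hb

/-- [Z1] IN THE EQUALITY CASE, sinks -/
theorem uqA_sink {z : V} (hz : ∀ a, ¬ S.K.ar z a) {x u : S.X} (hu : S.D.G.Adj x u)
    (hxu : S.Cs x u z) : S.UqA (S.pE F) x u z :=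
  uqA_of (par_of_ewk hF) hu hxu (hS.lc z hz)
    (SUA_of_deg hc hnb w hw hF hL (fun _ h => sink_degF hc hnb w hw hF hL hS hl h0 hz h))
    (fun a ha => absurd ha (hz a))

/-- [Z1] IN THE EQUALITY CASE, thin softs -/
theorem uqA_thin {z : V} (th : S.Th1 z) (hz : S.K.LC z) {x u : S.X} (hu : S.D.G.Adj x u)
    (hxu : S.Cs x u z) : S.UqA (S.pE F) x u z :=
  uqA_of (par_of_ewk hF) hu hxu hz
    (SUA_of_deg hc hnb w hw hF hL (fun _ h => thin_degF hc hnb w hw hF hL hS hl h0 th h))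
    (fun a ha e e' m m' _ _ h1 h1' he he' => th a ha e e' m m' h1 h1' he he')

theorem uqV_sink {z : V} (hz : ∀ a, ¬ S.K.ar z a) {x u : S.X} (hu : S.D.G.Adj x u)
    (hxu : S.Cs x u z) : S.UqV x u z :=
  UqA.uqV (par_of_ewk hF) (uqA_sink hc hnb w hw hF hL hS hl h0 hz hu hxu)

theorem uqV_thin {z : V} (th : S.Th1 z) (hz : S.K.LC z) {x u : S.X} (hu : S.D.G.Adj x u)
    (hxu : S.Cs x u z) : S.UqV x u z :=
  UqA.uqV (par_of_ewk hF) (uqA_thin hc hnb w hw hF hL hS hl h0 th hz hu hxu)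

end

end SyQ

end Pool.Agent.DI
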