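import Pool.Agent.DI.WallC
import Pool.Agent.DI.Lin
import Pool.Agent.BT.Proj

/-!
# One crossing corner at a vertex whose local pieces have one strand in each direction (helper78)

`S : SyQ`, `z` crosses the edge `w u`. `px w u r`: signed distance from the edge. On `J z` (a path, by
`js.two`) it is an isometry. `SyQ.SU z`: at every vertex `r` of `J z` the corners which leave one local
piece towards one exit (a neighbour of `r` in `J z`, or a pole over `r`) are one orbit. `SyQ.Th1 z`: the
corners at one pole are one orbit. THEOREM `uqC_of`: links connected, `SU z`, `Th1 z` give `UqC w u z`.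
-/

attribute [local instance 2000] SubMulAction.mulAction

namespace Pool.Agent.DI

open MulAction
open Pool.Agent.SAF (InC orbs FinOrb oc Decomp SAn SA Conv hull dist_edge FinOrb_iff exists_next TAct)
open Pool.Agent.BT (PX PQ JS bey exits)
open Pool.Agent.BT.TA

namespace SyQ

variable {H V : Type} [Group H] [MulAction H V] (S : SyQ H V)

/-! ### the signed distance -/

open Classical in
/-- signed distance from the edge `w u` -/
noncomputable def px (w u r : S.X) : ℤ :=
  if r ∈ bey S.D.G w u then (S.D.G.dist r w : ℤ) else -(S.D.G.dist r w : ℤ)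

variable {S}

theorem px_far {w u r : S.X} (h : r ∈ bey S.D.G w u) : S.px w u r = (S.D.G.dist r w : ℤ) :=
  if_pos h

theorem px_near {w u r : S.X} (h : r ∉ bey S.D.G w u) : S.px w u r = -(S.D.G.dist r w : ℤ) :=
  if_neg h

theorem px_pos {w u r : S.X} (h : r ∈ bey S.D.G w u) : 1 ≤ S.px w u r := by
  rw [px_far h]
  have : S.D.G.dist r w = S.D.G.dist r u + 1 := h
  omega

theorem px_nonpos {w u r : S.X} (h : r ∉ bey S.D.G w u) : S.px w u r ≤ 0 := by
  rw [px_near h]
  omega

/-- a vertex of the geodesic -/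
theorem exists_at {a b : S.X} : ∀ (k : ℕ), k ≤ S.D.G.dist a b →
    ∃ c, S.D.G.dist a c = k ∧ S.D.G.dist c b = S.D.G.dist a b - k := by
  intro k
  induction k with
  | zero => intro _; exact ⟨a, SimpleGraph.dist_self, rfl⟩
  | succ k ih =>
    intro hk
    obtain ⟨c, h1, h2⟩ := ih (by omega)
    have hne : c ≠ b := by
      rintro rfl
      rw [SimpleGraph.dist_self] at h2
      omega
    obtain ⟨d, hd, e⟩ := exists_next S.D.tree hne
    refine ⟨d, ?_, by omega⟩
    have t1 : S.D.G.dist c d = 1 := SimpleGraph.dist_eq_one_iff_adj.2 hd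
    have t2 := S.D.tree.connected.dist_triangle (u := a) (v := c) (w := d)
    have t3 := S.D.tree.connected.dist_triangle (u := a) (v := d) (w := b)
    omega

/-- on `J z` there are at most two neighbours -/
theorem two_nb {z : V} {r t1 t2 t3 : S.X} (hr : r ∈ S.J z) (h1 : S.D.G.Adj r t1)
    (h2 : S.D.G.Adj r t2) (h3 : S.D.G.Adj r t3) (e1 : t1 ∈ S.J z) (e2 : t2 ∈ S.J z)
    (e3 : t3 ∈ S.J z) : t1 = t2 ∨ t1 = t3 ∨ t2 = t3 := by
  rcases S.js.two z r hr (Sum.inr t1) (Or.inr ⟨t1, rfl, h1, e1⟩) (Sum.inr t2)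
    (Or.inr ⟨t2, rfl, h2, e2⟩) (Sum.inr t3) (Or.inr ⟨t3, rfl, h3, e3⟩) with e | e | e
  · exact Or.inl (Sum.inr.inj e)
  · exact Or.inr (Or.inl (Sum.inr.inj e))
  · exact Or.inr (Or.inr (Sum.inr.inj e))

theorem one_pole {z a : V} {r t1 t2 : S.X} (hr : r ∈ S.J z) (ha : S.K.ar z a) (hra : r ∈ S.J a)
    (h1 : S.D.G.Adj r t1) (h2 : S.D.G.Adj r t2) (e1 : t1 ∈ S.J z) (e2 : t2 ∈ S.J z) :
    t1 = t2 := by
  rcases S.js.two z r hr (Sum.inl a) (Or.inl ⟨a, rfl, ha, hra⟩) (Sum.inr t1)
    (Or.inr ⟨t1, rfl, h1, e1⟩) (Sum.inr t2) (Or.inr ⟨t2, rfl, h2, e2⟩) with e | e | e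
  · cases e
  · cases e
  · exact Sum.inr.inj e

theorem two_poles {z a b : V} {r t : S.X} (hr : r ∈ S.J z) (ha : S.K.ar z a) (hra : r ∈ S.J a)
    (hb : S.K.ar z b) (hrb : r ∈ S.J b) (h1 : S.D.G.Adj r t) (e1 : t ∈ S.J z) : a = b := by
  rcases S.js.two z r hr (Sum.inl a) (Or.inl ⟨a, rfl, ha, hra⟩) (Sum.inl b)
    (Or.inl ⟨b, rfl, hb, hrb⟩) (Sum.inr t) (Or.inr ⟨t, rfl, h1, e1⟩) with e | e | e
  · exact Sum.inl.inj e
  · cases e
  · cases e

section

variable {w u : S.X} {z : V}

/-- two vertices of `J z` beyond the edge at the same distance are equal -/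
theorem inj_far (hu : S.D.G.Adj w u) (hz : S.Cs w u z) : ∀ (d : ℕ) {r s : S.X}, r ∈ S.J z →
    s ∈ S.J z → r ∈ bey S.D.G w u → s ∈ bey S.D.G w u → S.D.G.dist r w = d →
    S.D.G.dist s w = d → r = s := by
  intro d
  induction d with
  | zero =>
    intro r s _ _ hr _ e _
    have : S.D.G.dist r w = S.D.G.dist r u + 1 := hr
    omega
  | succ d ih =>
    intro r s hr hs hrb hsb er es
    have key : ∀ {r : S.X}, r ∈ S.J z → r ∈ bey S.D.G w u → S.D.G.dist r w = d + 1 →
        r = u ∨ ∃ q, S.D.G.Adj r q ∧ q ∈ S.J z ∧ q ∈ bey S.D.G w u ∧ S.D.G.dist q w = d := by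
      intro r hr hrb er
      by_cases hru : r = u
      · exact Or.inl hru
      · right
        obtain ⟨q, hq, e⟩ := exists_next S.D.tree hru
        have d1 : S.D.G.dist r q = 1 := SimpleGraph.dist_eq_one_iff_adj.2 hq
        have d2 : S.D.G.dist r w = S.D.G.dist r u + 1 := hrb
        have d3 := S.D.tree.connected.dist_triangle (u := r) (v := q) (w := w)
        have d4 := S.D.tree.connected.dist_triangle (u := q) (v := u) (w := w)
        have d5 : S.D.G.dist u w = 1 := SimpleGraph.dist_eq_one_iff_adj.2 hu.symm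
        refine ⟨q, hq, ?_, ?_, by omega⟩
        · exact S.js.conv z r hr u hz.2 q (by omega)
        · show S.D.G.dist q w = S.D.G.dist q u + 1
          omega
    rcases key hr hrb er with h1 | ⟨q, q1, q2, q3, q4⟩
    · rcases key hs hsb es with h2 | ⟨q', p1, p2, p3, p4⟩
      · rw [h1, h2]
      · exfalso
        subst h1
        have d5 : S.D.G.dist r w = 1 := SimpleGraph.dist_eq_one_iff_adj.2 hu.symm
        have : S.D.G.dist q' w = S.D.G.dist q' r + 1 := p3
        omega
    · rcases key hs hsb es with h2 | ⟨q', p1, p2, p3, p4⟩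
      · exfalso
        subst h2
        have d5 : S.D.G.dist s w = 1 := SimpleGraph.dist_eq_one_iff_adj.2 hu.symm
        have : S.D.G.dist q w = S.D.G.dist q s + 1 := q3
        omega
      · have e := ih q2 p2 q3 p3 q4 p4
        subst e
        -- the neighbour of `q` towards `w`
        have hqw : q ≠ w := by
          rintro rfl
          exact bey_not q3 (bey_self hu.symm)
        obtain ⟨m, hm, em⟩ := exists_next S.D.tree hqw
        have d1 : S.D.G.dist q m = 1 := SimpleGraph.dist_eq_one_iff_adj.2 hm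
        have hmz : m ∈ S.J z := S.js.conv z q q2 w hz.1 m (by omega)
        rcases two_nb q2 q1.symm p1.symm hm hr hs hmz with e | e | e
        · exact e
        · exfalso
          rw [e] at er
          omega
        · exfalso
          rw [e] at es
          omega

/-- two vertices of `J z` on the side of `w` at the same distance are equal -/
theorem inj_near (hu : S.D.G.Adj w u) (hz : S.Cs w u z) : ∀ (d : ℕ) {r s : S.X}, r ∈ S.J z →
    s ∈ S.J z → r ∉ bey S.D.G w u → s ∉ bey S.D.G w u → S.D.G.dist r w = d →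
    S.D.G.dist s w = d → r = s := by
  intro d
  induction d with
  | zero =>
    intro r s _ _ _ _ er es
    rw [S.D.tree.connected.dist_eq_zero_iff.1 er, S.D.tree.connected.dist_eq_zero_iff.1 es]
  | succ d ih =>
    intro r s hr hs hrb hsb er es
    have key : ∀ {r : S.X}, r ∈ S.J z → r ∉ bey S.D.G w u → S.D.G.dist r w = d + 1 →
        ∃ q, S.D.G.Adj r q ∧ q ∈ S.J z ∧ q ∉ bey S.D.G w u ∧ S.D.G.dist q w = d := by
      intro r hr hrb er
      have hrw : r ≠ w := by
        rintro rfl
        rw [SimpleGraph.dist_self] at er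
        omega
      obtain ⟨q, hq, e⟩ := exists_next S.D.tree hrw
      have d1 : S.D.G.dist r q = 1 := SimpleGraph.dist_eq_one_iff_adj.2 hq
      have d2 : S.D.G.dist r u = S.D.G.dist r w + 1 := by
        rcases bey_or S.D.tree hu r with h | h
        · exact absurd h hrb
        · exact h
      refine ⟨q, hq, S.js.conv z r hr w hz.1 q (by omega), ?_, by omega⟩
      intro hqb
      have d3 : S.D.G.dist q w = S.D.G.dist q u + 1 := hqb
      have d4 := S.D.tree.connected.dist_triangle (u := r) (v := q) (w := u)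
      omega
    obtain ⟨q, q1, q2, q3, q4⟩ := key hr hrb er
    obtain ⟨q', p1, p2, p3, p4⟩ := key hs hsb es
    have e := ih q2 p2 q3 p3 q4 p4
    subst e
    -- the neighbour of `q` towards `u`
    have hqu : q ≠ u := by
      rintro rfl
      exact q3 (bey_self hu)
    obtain ⟨m, hm, em⟩ := exists_next S.D.tree hqu
    have d1 : S.D.G.dist q m = 1 := SimpleGraph.dist_eq_one_iff_adj.2 hm
    have hmz : m ∈ S.J z := S.js.conv z q q2 u hz.2 m (by omega)
    have f1 : S.D.G.dist r u = S.D.G.dist r w + 1 := (bey_or S.D.tree hu r).resolve_left hrb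
    have f2 : S.D.G.dist s u = S.D.G.dist s w + 1 := (bey_or S.D.tree hu s).resolve_left hsb
    have f3 : S.D.G.dist q u = S.D.G.dist q w + 1 := (bey_or S.D.tree hu q).resolve_left q3
    rcases two_nb q2 q1.symm p1.symm hm hr hs hmz with e | e | e
    · exact e
    · exfalso
      rw [e] at f1 er
      omega
    · exfalso
      rw [e] at f2 es
      omega

theorem px_inj (hu : S.D.G.Adj w u) (hz : S.Cs w u z) {r s : S.X} (hr : r ∈ S.J z)
    (hs : s ∈ S.J z) (e : S.px w u r = S.px w u s) : r = s := by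
  by_cases h1 : r ∈ bey S.D.G w u
  · by_cases h2 : s ∈ bey S.D.G w u
    · rw [px_far h1, px_far h2] at e
      exact inj_far hu hz _ hr hs h1 h2 rfl (by omega)
    · have := px_pos h1
      have := px_nonpos h2
      omega
  · by_cases h2 : s ∈ bey S.D.G w u
    · have := px_nonpos h1
      have := px_pos h2
      omega
    · rw [px_near h1, px_near h2] at e
      exact inj_near hu hz _ hr hs h1 h2 rfl (by omega)

/-- `px` is an isometry on `J z` -/
theorem px_iso (hu : S.D.G.Adj w u) (hz : S.Cs w u z) {r s : S.X} (hr : r ∈ S.J z)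
    (hs : s ∈ S.J z) : |S.px w u r - S.px w u s| = (S.D.G.dist r s : ℤ) := by
  -- the case of two sides
  have opp : ∀ {r s : S.X}, r ∈ bey S.D.G w u → s ∉ bey S.D.G w u →
      S.px w u r - S.px w u s = (S.D.G.dist r s : ℤ) := by
    intro r s h1 h2
    rw [px_far h1, px_near h2]
    have f1 : S.D.G.dist r w = S.D.G.dist r u + 1 := h1
    have f2 : S.D.G.dist s u = S.D.G.dist s w + 1 := (bey_or S.D.tree hu s).resolve_left h2
    have := Pool.Agent.BT.dist_cross S.D.tree hu f2 f1
    have e1 : S.D.G.dist r s = S.D.G.dist s r := SimpleGraph.dist_comm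
    have e2 : S.D.G.dist u r = S.D.G.dist r u := SimpleGraph.dist_comm
    omega
  -- the same side
  have same : ∀ {r s : S.X}, r ∈ S.J z → s ∈ S.J z →
      (r ∈ bey S.D.G w u ↔ s ∈ bey S.D.G w u) → S.D.G.dist s w ≤ S.D.G.dist r w →
      S.D.G.dist r s = S.D.G.dist r w - S.D.G.dist s w := by
    intro r s hr hs hside hle
    have e1 : S.D.G.dist w r = S.D.G.dist r w := SimpleGraph.dist_comm
    obtain ⟨c, c1, c2⟩ := exists_at (S := S) (a := w) (b := r) (S.D.G.dist s w) (by omega)
    have e2 : S.D.G.dist c r = S.D.G.dist r c := SimpleGraph.dist_comm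
    have e3 : S.D.G.dist w c = S.D.G.dist c w := SimpleGraph.dist_comm
    have hcz : c ∈ S.J z := S.js.conv z w hz.1 r hr c (by omega)
    have hcs : c = s := by
      by_cases h1 : s ∈ bey S.D.G w u
      · have h2 := hside.2 h1
        have hcb : c ∈ bey S.D.G w u := by
          have f1 : S.D.G.dist r w = S.D.G.dist r u + 1 := h2
          have f2 : S.D.G.dist s w = S.D.G.dist s u + 1 := h1
          rcases bey_or S.D.tree hu c with h | h
          · exact h
          · exfalso
            have f3 : S.D.G.dist c u = S.D.G.dist c w + 1 := h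
            have := Pool.Agent.BT.dist_cross S.D.tree hu f3 f1
            have e2 : S.D.G.dist u r = S.D.G.dist r u := SimpleGraph.dist_comm
            omega
        exact inj_far hu hz _ hcz hs hcb h1 rfl (by omega)
      · have h2 : r ∉ bey S.D.G w u := fun h => h1 (hside.1 h)
        have hcb : c ∉ bey S.D.G w u := by
          intro h
          have f1 : S.D.G.dist c w = S.D.G.dist c u + 1 := h
          have f2 : S.D.G.dist r u = S.D.G.dist r w + 1 :=
            (bey_or S.D.tree hu r).resolve_left h2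
          have := Pool.Agent.BT.dist_cross S.D.tree hu f2 f1
          have e2 : S.D.G.dist u c = S.D.G.dist c u := SimpleGraph.dist_comm
          omega
        exact inj_near hu hz _ hcz hs hcb h1 rfl (by omega)
    rw [← hcs]
    omega
  by_cases h1 : r ∈ bey S.D.G w u
  · by_cases h2 : s ∈ bey S.D.G w u
    · rw [px_far h1, px_far h2]
      rcases le_total (S.D.G.dist s w) (S.D.G.dist r w) with hle | hle
      · have := same hr hs ⟨fun _ => h2, fun _ => h1⟩ hle
        rw [abs_of_nonneg (by omega)]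
        omega
      · have := same hs hr ⟨fun _ => h1, fun _ => h2⟩ hle
        have e1 : S.D.G.dist r s = S.D.G.dist s r := SimpleGraph.dist_comm
        rw [abs_of_nonpos (by omega)]
        omega
    · rw [opp h1 h2, abs_of_nonneg (by omega)]
  · by_cases h2 : s ∈ bey S.D.G w u
    · rw [abs_sub_comm, opp h2 h1, abs_of_nonneg (by omega), SimpleGraph.dist_comm]
    · rw [px_near h1, px_near h2]
      rcases le_total (S.D.G.dist s w) (S.D.G.dist r w) with hle | hle
      · have := same hr hs ⟨fun h => absurd h h1, fun h => absurd h h2⟩ hle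
        rw [abs_of_nonpos (by omega)]
        omega
      · have := same hs hr ⟨fun h => absurd h h2, fun h => absurd h h1⟩ hle
        have e1 : S.D.G.dist r s = S.D.G.dist s r := SimpleGraph.dist_comm
        rw [abs_of_nonneg (by omega)]
        omega

/-- the neighbour of `r` towards a higher vertex is the upper neighbour -/
theorem px_next (hu : S.D.G.Adj w u) (hz : S.Cs w u z) {r s t : S.X} (hr : r ∈ S.J z)
    (hs : s ∈ S.J z) (ht : S.D.G.Adj r t) (e : S.D.G.dist r s = S.D.G.dist t s + 1) :
    t ∈ S.J z ∧ (S.px w u r < S.px w u s → S.px w u t = S.px w u r + 1) ∧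
      (S.px w u s < S.px w u r → S.px w u t = S.px w u r - 1) := by
  have d1 : S.D.G.dist r t = 1 := SimpleGraph.dist_eq_one_iff_adj.2 ht
  have htz : t ∈ S.J z := S.js.conv z r hr s hs t (by omega)
  have i1 := px_iso hu hz hr hs
  have i2 := px_iso hu hz htz hs
  have i3 := px_iso hu hz hr htz
  rw [e] at i1
  rw [d1] at i3
  refine ⟨htz, ?_, ?_⟩ <;> intro h <;>
    rcases abs_cases (S.px w u r - S.px w u s) with ⟨a1, a2⟩ | ⟨a1, a2⟩ <;>
    rcases abs_cases (S.px w u t - S.px w u s) with ⟨b1, b2⟩ | ⟨b1, b2⟩ <;>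
    rcases abs_cases (S.px w u r - S.px w u t) with ⟨c1, c2⟩ | ⟨c1, c2⟩ <;> omega

/-- an element of `H_z` which fixes an edge of `J z` fixes `J z` -/
theorem fix_all (hu : S.D.G.Adj w u) (hz : S.Cs w u z) {g : H} (gz : g • z = z) {r t s : S.X}
    (hr : r ∈ S.J z) (ht : t ∈ S.J z) (hrt : S.D.G.Adj r t) (gr : g • r = r) (gt : g • t = t)
    (hs : s ∈ S.J z) : g • s = s := by
  have hgs : g • s ∈ S.J z := by
    have := S.js.smul g z s hs
    rwa [gz] at this
  have ta : TAct H S.D.G := ⟨S.D.tree, S.D.adj_smul, S.D.noinv⟩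
  have d1 : S.D.G.dist (g • s) r = S.D.G.dist s r := by
    have := ta.dist_smul g s r
    rwa [gr] at this
  have d2 : S.D.G.dist (g • s) t = S.D.G.dist s t := by
    have := ta.dist_smul g s t
    rwa [gt] at this
  have i1 := px_iso hu hz hgs hr
  have i2 := px_iso hu hz hs hr
  have i3 := px_iso hu hz hgs ht
  have i4 := px_iso hu hz hs ht
  have i5 := px_iso hu hz hr ht
  rw [SimpleGraph.dist_eq_one_iff_adj.2 hrt] at i5
  rw [d1] at i1
  rw [d2] at i3
  apply px_inj hu hz hgs hs
  rw [← i2] at i1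
  rw [← i4] at i3
  generalize S.px w u (g • s) = x at i1 i3 ⊢
  generalize S.px w u s = y at i1 i3 ⊢
  generalize S.px w u r = a at i1 i5
  generalize S.px w u t = b at i3 i5
  rcases abs_cases (x - a) with ⟨a1, a2⟩ | ⟨a1, a2⟩ <;>
    rcases abs_cases (y - a) with ⟨b1, b2⟩ | ⟨b1, b2⟩ <;>
    rcases abs_cases (x - b) with ⟨c1, c2⟩ | ⟨c1, c2⟩ <;>
    rcases abs_cases (y - b) with ⟨e1, e2⟩ | ⟨e1, e2⟩ <;>
    rcases abs_cases (a - b) with ⟨f1, f2⟩ | ⟨f1, f2⟩ <;> omega

end

end SyQ

end Pool.Agent.DI
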