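import Pool.Agent.DI.WallI
import Pool.Agent.DI.DLT

/-!
# The wall from one crossing corner (owner: helper78)

`OvQ w u w'`: the structure over the vertex `u` with two neighbours. `OvQ.exists_lost`: if `z` crosses
both edges, `b` fixes `z` and `u` and swaps `w`, `w'`, the link of `z` is connected, the corners of `z`
which cross the edge `w u` are one orbit (as triples) and no corner of `z` crosses both edges
(`OvQ.nw`: this follows if they are one orbit as corners of an invariant set `A` which covers all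
corners), then some `v` with `J v = {u}`, `v -> z`, is fixed by an `r` which fixes `z` and swaps `w`,
`w'`. `OvQ.wc`: then `WC w u w' v`.
-/

namespace Pool.Agent.DI

open MulAction
open Pool.Agent.SAF (InC orbs FinOrb oc Decomp SAn SA Conv hull dist_edge FinOrb_iff exists_next TAct)
open Pool.Agent.BT (PX PQ JS bey exits mst Hyp mst_conv finite_of_hyp)
open Pool.Agent.BT.TA

section

variable {H X : Type} [Group H] [MulAction H X] {G : SimpleGraph X}

theorem bey_cv (hG : G.IsTree) {w u : X} (h : G.Adj w u) : Conv G (bey G w u) := by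
  intro a ha b hb x hx
  rcases bey_or hG h x with k | k
  · exact k
  · exfalso
    have e1 : G.dist a w = G.dist a u + 1 := ha
    have e2 : G.dist x u = G.dist x w + 1 := k
    have e3 : G.dist b w = G.dist b u + 1 := hb
    have h1 := Pool.Agent.BT.dist_cross hG h.symm e1 e2
    have h2 := Pool.Agent.BT.dist_cross hG h.symm e3 e2
    have h3 : G.dist a b ≤ G.dist a u + G.dist u b := hG.connected.dist_triangle
    have h4 : G.dist x b = G.dist b x := SimpleGraph.dist_comm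
    have h5 : G.dist u b = G.dist b u := SimpleGraph.dist_comm
    omega

/-- the orbit of every point meets both sides of an edge of the line -/
theorem mst_side (hG : TAct H G) {A : Subgroup H} {w u : X} (h : G.Adj w u) (hw : w ∈ mst G A)
    (p : X) : ∃ a ∈ A, a • p ∈ bey G u w := by
  by_contra hcon
  have h1 : ∀ a ∈ A, a • p ∈ bey G w u := by
    intro a ha
    rcases bey_or hG.tree h (a • p) with k | k
    · exact k
    · exact absurd ⟨a, ha, k⟩ hcon
  have h2 : mst G A ⊆ {x | ∀ a ∈ A, a • x ∈ bey G w u} := by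
    apply mst_sub
    · intro x hx y hy t ht a ha
      refine bey_cv hG.tree h _ (hx a ha) _ (hy a ha) _ ?_
      rw [hG.dist_smul, hG.dist_smul, hG.dist_smul]
      exact ht
    · exact ⟨p, h1⟩
    · intro a ha x hx b hb
      rw [← mul_smul]
      exact hx _ (A.mul_mem hb ha)
  have h3 := h2 hw 1 A.one_mem
  rw [one_smul] at h3
  exact bey_not h3 (bey_self h.symm)

end

/-- a path in a link leaves a set -/
theorem lj_cross {H V : Type} [Group H] [MulAction H V] {K : GX H V} {z n m : V} (A : V → Prop)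
    (h : K.LJ z n m) (hn : A n) (hm : ¬ A m) : ∃ n' m', K.Cor n' z m' ∧ A n' ∧ ¬ A m' := by
  by_contra hcon
  have key : ∀ a b, K.LJ z a b → (A a ↔ A b) := by
    intro a b k
    induction k with
    | rel a b k =>
      constructor
      · intro ha
        by_contra hb
        exact hcon ⟨a, b, k, ha, hb⟩
      · intro hb
        by_contra ha
        exact hcon ⟨b, a, k.symm, hb, ha⟩
    | refl a => exact Iff.rfl
    | symm a b _ ih => exact ih.symm
    | trans a b c _ _ i1 i2 => exact i1.trans i2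
  exact hm ((key _ _ h).1 hn)

namespace SyQ

variable {H V : Type} [Group H] [MulAction H V] (S : SyQ H V)

variable {S}

theorem disj {w u : S.X} {x : V} (h1 : S.J x ⊆ bey S.D.G w u) (h2 : S.J x ⊆ bey S.D.G u w) :
    False := by
  obtain ⟨p, hp⟩ := S.js.ne x
  exact bey_not (h1 hp) (h2 hp)

/-- the corners of `A` at `z` which cross the edge are one orbit -/
def UqS (S : SyQ H V) (A : Set S.K.LE) (w u : S.X) (z : V) : Prop := ∀ e ∈ A, ∀ e' ∈ A, S.K.c1 e = z →
  S.K.c1 e' = z → S.Xe w u e → S.Xe w u e' →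
    ∃ g : H, g • z = z ∧ g • w = w ∧ g • u = u ∧ e' = g • e

/-- every corner of `z` has a parallel one in `A` -/
def Cov (S : SyQ H V) (A : Set S.K.LE) (z : V) : Prop := ∀ n m, S.K.Cor n z m → ∃ e ∈ A,
  (S.K.c0 e = n ∧ S.K.c1 e = z ∧ S.K.c2 e = m) ∨ (S.K.c0 e = m ∧ S.K.c1 e = z ∧ S.K.c2 e = n)

theorem cov_univ (z : V) : S.Cov Set.univ z := fun n m h => by
  obtain ⟨e, he⟩ := S.K.cor_LE.1 h
  exact ⟨e, Set.mem_univ _, he⟩

theorem UqC.uqS {w u : S.X} {z : V} (h : S.UqC w u z) : S.UqS Set.univ w u z :=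
  fun e _ e' _ => h e e'

theorem xe_of {w u : S.X} {n m z : V} {e : S.K.LE} (hn : S.J n ⊆ bey S.D.G w u)
    (hm : S.J m ⊆ bey S.D.G u w)
    (he : (S.K.c0 e = n ∧ S.K.c1 e = z ∧ S.K.c2 e = m) ∨
      (S.K.c0 e = m ∧ S.K.c1 e = z ∧ S.K.c2 e = n)) : S.Xe w u e := by
  rcases he with ⟨e0, -, e2⟩ | ⟨e0, -, e2⟩
  · left
    rw [e0, e2]
    exact ⟨hn, hm⟩
  · right
    rw [e0, e2]
    exact ⟨hn, hm⟩

theorem UqS.uqK {A : Set S.K.LE} {w u : S.X} {z : V} (h : S.UqS A w u z) (hc : S.Cov A z) :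
    S.UqK w u z := by
  intro x v n m h1 hx hv h2 hn hm
  obtain ⟨e, eA, he⟩ := hc _ _ h1
  obtain ⟨e', eA', he'⟩ := hc _ _ h2
  have c1 : S.K.c1 e = z := by
    rcases he with ⟨-, k, -⟩ | ⟨-, k, -⟩ <;> exact k
  have c1' : S.K.c1 e' = z := by
    rcases he' with ⟨-, k, -⟩ | ⟨-, k, -⟩ <;> exact k
  obtain ⟨g, gz, gw, gu, e1⟩ := h e eA e' eA' c1 c1' (xe_of hx hv he) (xe_of hn hm he')
  refine ⟨g, gz, gw, gu, ?_⟩
  subst e1
  rw [S.K.c0_smul, S.K.c2_smul] at he'
  rcases he with ⟨i1, -, i2⟩ | ⟨i1, -, i2⟩ <;> rcases he' with ⟨j1, -, j2⟩ | ⟨j1, -, j2⟩ <;>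
    rw [i1] at j1 <;> rw [i2] at j2
  · exact ⟨j1.symm, j2.symm⟩
  · exfalso
    refine disj (x := g • x) ((sub_bey_fix gw gu).2 hx) ?_
    rw [j1]
    exact hm
  · exfalso
    refine disj (x := g • x) ((sub_bey_fix gw gu).2 hx) ?_
    rw [j2]
    exact hm
  · exact ⟨j2.symm, j1.symm⟩

/-- no corner between two vertices over `u` only -/
theorem no_uu {u : S.X}
    (noc : ∀ a q b y z, Qn S.P a q b y z → (u ∈ S.J a ∨ u ∈ S.J q) → (u ∈ S.J q ∨ u ∈ S.J b) →
      (u ∈ S.J b ∨ u ∈ S.J y) → (u ∈ S.J y ∨ u ∈ S.J z) → (u ∈ S.J z ∨ u ∈ S.J a) → False)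
    (nl : ∀ a q b y, Q4 S.P a q b y → S.J q = {u} → S.J y = {u} → False)
    {n z m : V} (hn : S.J n = {u}) (hm : S.J m = {u}) : ¬ S.K.Cor n z m := by
  intro h
  have hn' : u ∈ S.J n := by rw [hn]; rfl
  have hm' : u ∈ S.J m := by rw [hm]; rfl
  rcases S.cor_cases h with ⟨y, y', hq⟩ | ⟨y, hq⟩
  · have hy : u ∈ S.J y := by
      obtain ⟨p, p0, p1⟩ := S.one_ex hq.E3
      rwa [ne_mem hm p0] at p1
    exact noc _ _ _ _ _ hq (Or.inl hn') (Or.inr hm') (Or.inl hm') (Or.inl hy) (Or.inr hn')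
  · exact nl _ _ _ _ hq.rot hm hn

/-- the vertices over one side contain a node of `z` -/
theorem node_side {w u : S.X} (huw : S.D.G.Adj w u) {z : V} (hw : w ∈ S.J z) (hu : u ∈ S.J z)
    (h : (∃ a, S.K.ar z a) ∨ (S.J z = mst S.D.G (stabilizer H z) ∧ ∃ n, S.K.E z n)) :
    ∃ n, S.K.E z n ∧ S.J n ⊆ bey S.D.G u w := by
  rcases h with ⟨a, ha⟩ | ⟨hJ, n, hn⟩
  · obtain ⟨b, b1, b2⟩ := S.js.cross z ⟨a, ha⟩ u w huw.symm hu hw
    exact ⟨b, Or.inl b1, b2⟩
  · obtain ⟨p, -, p1⟩ := S.one_ex hn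
    have hw' : w ∈ mst S.D.G (stabilizer H z) := by rw [← hJ]; exact hw
    obtain ⟨g, hg, hp⟩ := mst_side S.tact huw hw' p
    have e : S.K.E z (g • n) := by
      have := S.K.E_smul g hn
      rwa [show g • z = z from hg] at this
    refine ⟨g • n, e, S.side_of huw.symm (fun t => S.adj_nc huw e ⟨hw, hu⟩ t.swap)
      (S.js.smul g _ _ p1) hp⟩

namespace OvQ

variable {w u w' : S.X}

/-- beyond the second edge is beyond the first one -/
theorem bey_sub (o : S.OvQ w u w') : bey S.D.G u w' ⊆ bey S.D.G w u := by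
  intro p hp
  rcases bey_or S.D.tree o.hw p with k | k
  · exact absurd (S.bey_unique o.hw o.hw' k hp) o.ne
  · exact k

theorem swap_w' (o : S.OvQ w u w') {b : H} (bu : b • u = u) (bw : b • w = w') : b • w' = w := by
  have h := S.D.adj_smul b _ _ o.hw'
  rw [bu] at h
  rcases o.val _ h with k | k
  · exact k
  · exact absurd (smul_left_cancel b (k.trans bw.symm)) o.ne.symm

theorem fix_w' (o : S.OvQ w u w') {g : H} (gu : g • u = u) (gw : g • w = w) : g • w' = w' := by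
  have h := S.D.adj_smul g _ _ o.hw'
  rw [gu] at h
  rcases o.val _ h with k | k
  · exact absurd (smul_left_cancel g (k.trans gw.symm)) o.ne.symm
  · exact k

/-- the three kinds of nodes of a vertex which crosses both edges -/
theorem cls (o : S.OvQ w u w') {z n : V} (hw : w ∈ S.J z) (hu : u ∈ S.J z) (hw' : w' ∈ S.J z)
    (e : S.K.E z n) :
    S.J n = {u} ∨ S.J n ⊆ bey S.D.G u w ∨ S.J n ⊆ bey S.D.G u w' := by
  have n1 := S.adj_nc o.hw.symm e ⟨hw, hu⟩
  have n2 := S.adj_nc o.hw'.symm e ⟨hw', hu⟩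
  rcases S.side_or o.hw.symm n1 with h1 | h1
  · rcases S.side_or o.hw'.symm n2 with h2 | h2
    · left
      refine Set.eq_singleton_iff_nonempty_unique_mem.2 ⟨S.js.ne n, fun p hp => ?_⟩
      by_contra hne
      obtain ⟨t, ht, k⟩ := exists_next S.D.tree (fun k : u = p => hne k.symm)
      have hpt : p ∈ bey S.D.G u t := by
        show S.D.G.dist p u = S.D.G.dist p t + 1
        rw [SimpleGraph.dist_comm, k, SimpleGraph.dist_comm]
      rcases o.val t ht with rfl | rfl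
      · exact bey_not (h1 hp) hpt
      · exact bey_not (h2 hp) hpt
    · exact Or.inr (Or.inr h2)
  · exact Or.inr (Or.inl h1)

theorem u_side (o : S.OvQ w u w') {v : V} (hv : S.J v = {u}) : S.J v ⊆ bey S.D.G w u := by
  intro p hp
  rw [ne_mem hv hp]
  exact bey_self o.hw.symm

theorem arr (o : S.OvQ w u w') {v z : V} (hv : S.J v = {u}) (hw : w ∈ S.J z) (hu : u ∈ S.J z)
    (hw' : w' ∈ S.J z) (e : S.K.E z v) : S.K.ar v z := by
  rcases e with e | e
  · exact absurd ⟨hw, hw'⟩ (o.page hu hv e)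
  · exact e

/-- the cell of a crossing corner which ends over `u` only -/
theorem cut_cor (o : S.OvQ w u w')
    (noc : ∀ a q b y z, Qn S.P a q b y z → (u ∈ S.J a ∨ u ∈ S.J q) → (u ∈ S.J q ∨ u ∈ S.J b) →
      (u ∈ S.J b ∨ u ∈ S.J y) → (u ∈ S.J y ∨ u ∈ S.J z) → (u ∈ S.J z ∨ u ∈ S.J a) → False)
    {n z v : V} (hu : u ∈ S.J z) (hn : S.J n ⊆ bey S.D.G u w)
    (hv : S.J v = {u}) (hc : S.K.Cor n z v) : ∃ x, S.CC w u z v x ∧ S.Cs w u x := by
  have huw := o.hw
  have hv' : u ∈ S.J v := by rw [hv]; rfl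
  have hvb := o.u_side hv
  rcases S.cor_cases hc with ⟨y, y', hq⟩ | ⟨y, hq⟩
  · have hyu : u ∈ S.J y := by
      obtain ⟨p, p0, p1⟩ := S.one_ex hq.E3
      rwa [ne_mem hv p0] at p1
    by_cases hwy : w ∈ S.J y
    · have h1 := S.adj_nc huw.symm hq.E4 ⟨hwy, hyu⟩
      exact ⟨y, ⟨hvb, Or.inl ⟨y', n, hq.rot,
        S.side_adj huw hq.E5.symm (fun t => h1 t.swap) hn, hn⟩⟩, hwy, hyu⟩
    · exfalso
      have hyb : S.J y ⊆ bey S.D.G w u :=
        S.side_of huw.symm (fun t => hwy t.1) hyu (bey_self huw.symm)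
      have h1 : S.Cs w u y' := by
        by_contra hcon
        exact disj (S.side_adj huw.symm hq.E4 hcon hyb)
          (S.side_adj huw hq.E5.symm (fun t => hcon t.swap) hn)
      exact noc _ _ _ _ _ hq (Or.inr hu) (Or.inl hu) (Or.inl hv') (Or.inl hyu) (Or.inl h1.2)
  · have hyu : u ∈ S.J y := by
      obtain ⟨p, p0, p1⟩ := S.one_ex hq.E3
      rwa [ne_mem hv p0] at p1
    have hwy : w ∈ S.J y := by
      by_contra hwy
      have k1 := S.side_adj huw hq.E4.symm (fun t => hwy t.2) hn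
      exact bey_not (k1 hyu) (bey_self huw.symm)
    exact ⟨y, ⟨hvb, Or.inr ⟨n, hq.rot, hn⟩⟩, hwy, hyu⟩

/-- no corner crosses both edges at a reversed vertex -/
theorem nw (o : S.OvQ w u w') {A : Set S.K.LE} {z : V} {b : H} (bz : b • z = z) (bu : b • u = u)
    (bw : b • w = w') (hA : ∀ e ∈ A, b • e ∈ A) (hc : S.Cov A z) (uq : S.UqS A w u z) :
    ∀ n m, S.K.Cor n z m → S.J n ⊆ bey S.D.G u w → S.J m ⊆ bey S.D.G u w' → False := by
  intro n m hnm hn hm
  have bw' := o.swap_w' bu bw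
  obtain ⟨e, eA, he⟩ := hc _ _ hnm
  have c1 : S.K.c1 e = z := by
    rcases he with ⟨-, k, -⟩ | ⟨-, k, -⟩ <;> exact k
  have X1 : S.Xe w u e := xe_of (hm.trans o.bey_sub) hn he.symm
  have k1 : S.J (b • n) ⊆ bey S.D.G w u := by
    have := S.sub_bey_smul b hn
    rw [bu, bw] at this
    exact this.trans o.bey_sub
  have k2 : S.J (b • m) ⊆ bey S.D.G u w := by
    have := S.sub_bey_smul b hm
    rwa [bu, bw'] at this
  have X2 : S.Xe w u (b • e) := by
    refine xe_of (n := b • n) (m := b • m) (z := z) k1 k2 ?_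
    rw [S.K.c0_smul, S.K.c1_smul, S.K.c2_smul]
    rcases he with ⟨e0, e1, e2⟩ | ⟨e0, e1, e2⟩
    · left
      rw [e0, e1, e2]
      exact ⟨rfl, bz, rfl⟩
    · right
      rw [e0, e1, e2]
      exact ⟨rfl, bz, rfl⟩
  obtain ⟨g, -, gw, -, eg⟩ := uq e eA (b • e) (hA e eA) c1 (by rw [S.K.c1_smul, c1, bz]) X1 X2
  have e1 : b * e.2 = g * e.2 := congrArg Prod.snd eg
  have e2 : b = g := mul_right_cancel e1
  rw [e2, gw] at bw
  exact o.ne bw

/-- a vertex which crosses both edges and is reversed has a lost node -/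
theorem exists_lost (o : S.OvQ w u w')
    (noc : ∀ a q b y z, Qn S.P a q b y z → (u ∈ S.J a ∨ u ∈ S.J q) → (u ∈ S.J q ∨ u ∈ S.J b) →
      (u ∈ S.J b ∨ u ∈ S.J y) → (u ∈ S.J y ∨ u ∈ S.J z) → (u ∈ S.J z ∨ u ∈ S.J a) → False)
    (nl : ∀ a q b y, Q4 S.P a q b y → S.J q = {u} → S.J y = {u} → False)
    {z : V} {b : H} (hw : w ∈ S.J z) (hu : u ∈ S.J z) (bz : b • z = z) (bu : b • u = u)
    (bw : b • w = w') (lc : S.K.LC z) (uq : S.UqK w u z)
    (noww : ∀ n m, S.K.Cor n z m → S.J n ⊆ bey S.D.G u w → S.J m ⊆ bey S.D.G u w' → False)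
    (hs : (∃ a, S.K.ar z a) ∨ (S.J z = mst S.D.G (stabilizer H z) ∧ ∃ n, S.K.E z n)) :
    ∃ (v : V) (r : H), S.J v = {u} ∧ S.K.ar v z ∧ r • v = v ∧ r • z = z ∧ r • w = w' := by
  have huw := o.hw
  have bw' := o.swap_w' bu bw
  have hw' : w' ∈ S.J z := by
    have := S.js.smul b _ _ hw
    rwa [bw, bz] at this
  obtain ⟨n0, hn0, hn0'⟩ := node_side huw.symm hw hu hs
  have hbn : S.K.E z (b • n0) := by
    have := S.K.E_smul b hn0
    rwa [bz] at this
  have hbn' : S.J (b • n0) ⊆ bey S.D.G u w' := by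
    have := S.sub_bey_smul b hn0'
    rwa [bu, bw] at this
  -- the first crossing corner
  have c0 := lj_cross (fun n => S.J n ⊆ bey S.D.G u w) (lc _ _ hn0 hbn) hn0'
    (fun t => disj t (hbn'.trans o.bey_sub))
  obtain ⟨n1, v, h1, h2, h3⟩ := c0
  have hv : S.J v = {u} := by
    rcases o.cls hw hu hw' h1.E2 with k | k | k
    · exact k
    · exact absurd k h3
    · exact (noww _ _ h1 h2 k).elim
  -- the second one
  let A : V → Prop := fun n => S.J n ⊆ bey S.D.G u w ∨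
    ∃ g : H, g • z = z ∧ g • w = w ∧ g • u = u ∧ n = g • v
  have Jg : ∀ g : H, g • u = u → S.J (g • v) = {u} := by
    intro g gu
    have := Js_smul (g := g) hv
    rwa [gu] at this
  have c1 := lj_cross A (lc _ _ hn0 hbn) (Or.inl hn0') (by
    rintro (t | ⟨g, -, -, gu, e⟩)
    · exact disj t (hbn'.trans o.bey_sub)
    · have h4 := Jg g gu
      rw [← e] at h4
      have h5 : u ∈ S.J (b • n0) := by rw [h4]; rfl
      exact bey_not (hbn' h5) (bey_self o.hw'.symm))
  obtain ⟨n2, m2, h4, h5, h6⟩ := c1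
  have hm2 : ¬ S.J m2 ⊆ bey S.D.G u w := fun t => h6 (Or.inl t)
  have h7 := o.cls hw hu hw' h4.E2
  rcases h5 with h5 | ⟨g, gz, gw, gu, rfl⟩
  · -- a crossing corner
    exfalso
    have hm3 : S.J m2 = {u} := by
      rcases h7 with k | k | k
      · exact k
      · exact absurd k hm2
      · exact (noww _ _ h4 h5 k).elim
    obtain ⟨g, gz, gw, gu, e, -⟩ := uq _ _ _ _ h1.symm (o.u_side hv) h2 h4.symm (o.u_side hm3) h5
    exact h6 (Or.inr ⟨g, gz, gw, gu, e⟩)
  · have hm3 : S.J m2 ⊆ bey S.D.G u w' := by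
      rcases h7 with k | k | k
      · exact absurd h4 (no_uu noc nl (Jg g gu) k)
      · exact absurd k hm2
      · exact k
    have h8 : S.K.Cor (b • m2) z (b • g • v) := by
      have := (h4.smul b).symm
      rwa [bz] at this
    have k2 : S.J (b • m2) ⊆ bey S.D.G u w := by
      have := S.sub_bey_smul b hm3
      rwa [bu, bw'] at this
    have k3 : S.J (b • g • v) ⊆ bey S.D.G w u := by
      rw [← mul_smul]
      exact o.u_side (Jg (b * g) (by rw [mul_smul, gu, bu]))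
    obtain ⟨k, kz, kw, ku, e, -⟩ := uq _ _ _ _ h1.symm (o.u_side hv) h2 h8.symm k3 k2
    refine ⟨v, k⁻¹ * (b * g), hv, o.arr hv hw hu hw' h1.E2, ?_, ?_, ?_⟩
    · rw [mul_smul, mul_smul, e, inv_smul_smul]
    · rw [mul_smul, mul_smul, gz, bz, inv_smul_eq_iff, kz]
    · rw [mul_smul, mul_smul, gw, bw, inv_smul_eq_iff, o.fix_w' ku kw]

/-- a crossing cell at a reversed pole of a lost vertex -/
theorem exists_cell (o : S.OvQ w u w')
    (noc : ∀ a q b y z, Qn S.P a q b y z → (u ∈ S.J a ∨ u ∈ S.J q) → (u ∈ S.J q ∨ u ∈ S.J b) →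
      (u ∈ S.J b ∨ u ∈ S.J y) → (u ∈ S.J y ∨ u ∈ S.J z) → (u ∈ S.J z ∨ u ∈ S.J a) → False)
    (nl : ∀ a q b y, Q4 S.P a q b y → S.J q = {u} → S.J y = {u} → False)
    {z v : V} {r : H} (hv : S.J v = {u}) (hz : S.K.ar v z) (rv : r • v = v) (rz : r • z = z)
    (rw' : r • w = w') (lc : S.K.LC z)
    (hs : (∃ a, S.K.ar z a) ∨ S.J z = mst S.D.G (stabilizer H z)) :
    ∃ x, S.CC w u z v x ∧ S.Cs w u x := by
  have huw := o.hw
  have ru : r • u = u := by
    have h1 := Js_smul (g := r) hv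
    rw [rv, hv] at h1
    exact (Set.singleton_injective h1).symm
  obtain ⟨hw, hw'⟩ := o.crs v z hv hz
  have hu : u ∈ S.J z := by
    obtain ⟨p, p0, p1⟩ := S.one_ex (Or.inl hz : S.K.E v z)
    rwa [ne_mem hv p0] at p1
  obtain ⟨n0, hn0, hn0'⟩ := node_side huw.symm hw hu
    (hs.imp id (fun t => ⟨t, v, Or.inr hz⟩))
  have c0 := lj_cross (fun n => n = v) (lc v n0 (Or.inr hz) hn0) rfl (by
    intro e
    rw [e] at hn0'
    exact disj (o.u_side hv) hn0')
  obtain ⟨v', m, h1, rfl, h3⟩ := c0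
  rcases o.cls hw hu hw' h1.E2 with k | k | k
  · exact absurd h1 (no_uu noc nl hv k)
  · exact o.cut_cor noc hu k hv h1.symm
  · have h4 : S.K.Cor (r • m) z v' := by
      have := (h1.smul r).symm
      rwa [rz, rv] at this
    have k2 : S.J (r • m) ⊆ bey S.D.G u w := by
      have := S.sub_bey_smul r k
      rwa [ru, o.swap_w' ru rw'] at this
    exact o.cut_cor noc hu k2 hv h4

/-- a vertex with two arrows -/
theorem pole_eq (o : S.OvQ w u w') {v z z' : V} {r : H} (hz : S.K.ar v z)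
    (hz' : S.K.ar v z') (rv : r • v = v) (rz : r • z = z) : r • z' = z' := by
  by_cases h : z' = z
  · rw [h, rz]
  · have h1 : S.K.ar v (r • z') := by
      have := S.K.ar_smul r _ _ hz'
      rwa [rv] at this
    rcases S.K.two v z z' (r • z') hz hz' h1 with e | e | e
    · exact absurd e.symm h
    · exact e.symm
    · exact absurd (smul_left_cancel r (e.symm.trans rz.symm)) h

/-- THE WALL FROM A REVERSED LOST VERTEX -/
theorem wc (o : S.OvQ w u w')
    (noc : ∀ a q b y z, Qn S.P a q b y z → (u ∈ S.J a ∨ u ∈ S.J q) → (u ∈ S.J q ∨ u ∈ S.J b) →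
      (u ∈ S.J b ∨ u ∈ S.J y) → (u ∈ S.J y ∨ u ∈ S.J z) → (u ∈ S.J z ∨ u ∈ S.J a) → False)
    (nl : ∀ a q b y, Q4 S.P a q b y → S.J q = {u} → S.J y = {u} → False)
    {z v : V} {r : H} (hv : S.J v = {u}) (hz : S.K.ar v z) (rv : r • v = v) (rz : r • z = z)
    (rw' : r • w = w') (lc : ∀ z, S.K.ar v z → S.K.LC z)
    (hs : ∀ z, S.K.ar v z → (∃ a, S.K.ar z a) ∨ S.J z = mst S.D.G (stabilizer H z))
    (uq : ∀ z, S.K.ar v z → r • z = z → S.UqK w u z) : S.WC w u w' v where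
  ov := o
  Jv := hv
  cz z' hz' := o.exists_cell noc nl hv hz' rv (o.pole_eq hz hz' rv rz) rw' (lc z' hz') (hs z' hz')
  uq z' hz' := uq z' hz' (o.pole_eq hz hz' rv rz)

end OvQ

end SyQ

end Pool.Agent.DI
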