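import Pool.Agent.DI.WallE

/-!
# The edge group at the wall of a thin step is generated by finite groups (owner: helper78)

`WC.gen`: the elements which fix `w` and `u` are generated by those which fix `v` or a pole of `v`.
`WC.not_zt`: if these are of finite order and the edge group is infinite, it is not of type `Z`.
`WC.exists_two`: `v` has two poles. `WC.snk`: sinks which cross an edge are of type `D`.
-/

namespace Pool.Agent.DI

open MulAction
open Pool.Agent.SAF (InC orbs FinOrb oc Decomp SAn SA Conv hull dist_edge FinOrb_iff exists_next TAct)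
open Pool.Agent.SAG (IO Zt)
open Pool.Agent.BT (PX PQ JS bey exits mst Hyp mst_conv finite_of_hyp)
open Pool.Agent.BT.TA

namespace SyQ

variable {H V : Type} [Group H] [MulAction H V] (S : SyQ H V)

/-- the generators of the edge group -/
def Gn (w u : S.X) (v : V) : Set H :=
  {g | g • w = w ∧ g • u = u ∧ (g • v = v ∨ ∃ z, S.K.ar v z ∧ g • z = z)}

variable {S} {w u w' : S.X} {v : V}

theorem WC.Jg (h : S.WC w u w' v) {g : H} (gu : g • u = u) : S.J (g • v) = {u} := by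
  have := Js_smul (g := g) h.Jv
  rwa [gu] at this

theorem WC.pole_cs (h : S.WC w u w' v) {z : V} (hz : S.K.ar v z) :
    w ∈ S.J z ∧ u ∈ S.J z ∧ w' ∈ S.J z := by
  obtain ⟨z1, z2⟩ := h.ov.crs v z h.Jv hz
  obtain ⟨p, p0, p1⟩ := S.one_ex (Or.inl hz : S.K.E v z)
  rw [ne_mem h.Jv p0] at p1
  exact ⟨z1, p1, z2⟩

theorem WC.gen_aux (h : S.WC w u w' v) {x : V} (hx : S.Cs w u x) {g g' : H} (gw : g • w = w)
    (gu : g • u = u) (gw' : g' • w = w) (gu' : g' • u = u) (e : S.K.E (g • v) x)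
    (e' : S.K.E (g' • v) x) (hg : g ∈ Subgroup.closure (S.Gn w u v)) :
    g' ∈ Subgroup.closure (S.Gn w u v) := by
  have fw : (g⁻¹ * g') • w = w := by rw [mul_smul, gw', inv_smul_eq_iff, gw]
  have fu : (g⁻¹ * g') • u = u := by rw [mul_smul, gu', inv_smul_eq_iff, gu]
  by_cases hw' : w' ∈ S.J x
  · have a1 := h.ov.arr (h.Jg gu) hx.1 hx.2 hw' e.symm
    have a2 := h.ov.arr (h.Jg gu') hx.1 hx.2 hw' e'.symm
    have a3 : S.K.ar v (g⁻¹ • x) := by
      have := S.K.ar_smul g⁻¹ _ _ a1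
      rwa [inv_smul_smul] at this
    have a4 : S.K.ar v (g'⁻¹ • x) := by
      have := S.K.ar_smul g'⁻¹ _ _ a2
      rwa [inv_smul_smul] at this
    obtain ⟨b, hc, -⟩ := h.cz _ a4
    have hc' := CC.smul S (g⁻¹ * g') hc
    rw [fw, fu, ← mul_smul, mul_assoc, mul_inv_cancel, mul_one] at hc'
    obtain ⟨hq, n, hn, hn'⟩ := hc'.cor
    obtain ⟨j, jz, jw, ju, ej⟩ := h.one_pole a3 hn hq hn'
    have k1 : j ∈ Subgroup.closure (S.Gn w u v) :=
      Subgroup.subset_closure ⟨jw, ju, Or.inr ⟨_, a3, jz⟩⟩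
    have k2 : j⁻¹ * (g⁻¹ * g') ∈ Subgroup.closure (S.Gn w u v) := by
      refine Subgroup.subset_closure ⟨?_, ?_, Or.inl ?_⟩
      · rw [mul_smul, fw, inv_smul_eq_iff, jw]
      · rw [mul_smul, fu, inv_smul_eq_iff, ju]
      · rw [mul_smul, ej, inv_smul_smul]
    have e2 : g' = g * (j * (j⁻¹ * (g⁻¹ * g'))) := by group
    rw [e2]
    exact mul_mem hg (mul_mem k1 k2)
  · have a1 : S.K.ar x (g • v) := by
      rcases e with e | e
      · exact absurd (h.ov.crs _ x (h.Jg gu) e).2 hw'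
      · exact e
    have a2 : S.K.ar x (g' • v) := by
      rcases e' with e' | e'
      · exact absurd (h.ov.crs _ x (h.Jg gu') e').2 hw'
      · exact e'
    have e3 := h.ov.uniq hx (h.Jg gu) (h.Jg gu') a1 a2
    have k2 : g⁻¹ * g' ∈ Subgroup.closure (S.Gn w u v) := by
      refine Subgroup.subset_closure ⟨fw, fu, Or.inl ?_⟩
      rw [mul_smul, ← e3, inv_smul_smul]
    have e2 : g' = g * (g⁻¹ * g') := by group
    rw [e2]
    exact mul_mem hg k2

/-- the vertices of the wall next to a translate of `v` by the generated group -/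
def Mg (S : SyQ H V) (w u : S.X) (v x : V) : Prop := ∃ j : H, j ∈ Subgroup.closure (S.Gn w u v) ∧
  j • w = w ∧ j • u = u ∧ S.K.E (j • v) x

theorem WC.gen_step (h : S.WC w u w' v) (hc : S.Conn) {a b : V} (hp : S.PW w u a b)
    (hM : S.Mg w u v a) : S.Mg w u v b := by
  obtain ⟨-, ha, hb, q, hq⟩ := hp
  obtain ⟨g, g1, gw, gu, e⟩ := hM
  have key : ∀ q, S.CC w u a q b → S.Mg w u v b := by
    intro q hq
    obtain ⟨j, jw, ju, rfl⟩ := h.far hc ha hb hq
    exact ⟨j, h.gen_aux ha gw gu jw ju e hq.E1.symm g1, jw, ju, hq.E2⟩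
  rcases hq with hq | hq
  · exact key q hq
  · obtain ⟨y, -, hy⟩ := h.far' hc ha hb hq
    exact key y hy

/-- THE EDGE GROUP IS GENERATED BY THE STABILISERS OF `v` AND OF ITS POLES -/
theorem WC.gen (h : S.WC w u w' v) (hc : S.Conn) {j : H} (jw : j • w = w) (ju : j • u = u) :
    j ∈ Subgroup.closure (S.Gn w u v) := by
  obtain ⟨z, hz⟩ := h.ov.pol v h.Jv
  obtain ⟨z1, z2, -⟩ := h.pole_cs hz
  have hzu : S.Cs w u z := ⟨z1, z2⟩
  have hjz : S.Cs w u (j • z) := (Cs_fix jw ju).2 hzu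
  have h0 : S.Mg w u v z :=
    ⟨1, Subgroup.one_mem _, one_smul _ _, one_smul _ _, by rw [one_smul]; exact Or.inl hz⟩
  have key : ∀ a b, Relation.EqvGen (S.PW w u) a b → (S.Mg w u v a ↔ S.Mg w u v b) := by
    intro a b k
    induction k with
    | rel a b k => exact ⟨h.gen_step hc k, h.gen_step hc k.symm'⟩
    | refl a => exact Iff.rfl
    | symm a b _ ih => exact ih.symm
    | trans a b c _ _ i1 i2 => exact i1.trans i2
  obtain ⟨g, g1, gw, gu, e⟩ := (key _ _ (hc.wall w u h.ov.hw.symm z (j • z) hzu hjz)).1 h0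
  exact h.gen_aux hjz gw gu jw ju e (S.K.E_smul j (Or.inl hz)) g1

/-- if the generators have finite order, the edge group is not of type `Z` -/
theorem WC.not_zt (h : S.WC w u w' v) (hc : S.Conn)
    (fin : ∀ g ∈ S.Gn w u v, ¬ IO g)
    (inf : Infinite ↥(stabilizer H w ⊓ stabilizer H u)) :
    ¬ Zt ↥(stabilizer H w ⊓ stabilizer H u) := by
  rintro ⟨f, hf⟩
  have h1 : Subgroup.closure (S.Gn w u v) ≤
      f.ker.map (stabilizer H w ⊓ stabilizer H u).subtype := by
    rw [Subgroup.closure_le]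
    rintro g hg
    have hgJ : g ∈ stabilizer H w ⊓ stabilizer H u := ⟨hg.1, hg.2.1⟩
    refine ⟨⟨g, hgJ⟩, ?_, rfl⟩
    show f ⟨g, hgJ⟩ = 1
    have h2 := fin g hg
    unfold SAG.IO at h2
    push Not at h2
    obtain ⟨n, hn, e⟩ := h2
    have e2 : f ⟨g, hgJ⟩ ^ n = 1 := by
      rw [← map_pow, show (⟨g, hgJ⟩ : ↥(stabilizer H w ⊓ stabilizer H u)) ^ n = 1 from
        Subtype.ext e, map_one]
    have e3 : n • Multiplicative.toAdd (f ⟨g, hgJ⟩) = 0 := by
      rw [← toAdd_pow, e2]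
      rfl
    rw [nsmul_eq_mul] at e3
    rcases mul_eq_zero.1 e3 with k | k
    · omega
    · exact k
  have h2 : ∀ x : ↥(stabilizer H w ⊓ stabilizer H u), x ∈ f.ker := by
    intro x
    obtain ⟨y, hy, e⟩ := h1 (h.gen hc x.2.1 x.2.2)
    rwa [← show y = x from Subtype.ext e]
  have h3 : Finite ↥(stabilizer H w ⊓ stabilizer H u) :=
    Finite.of_injective (fun x => (⟨x, h2 x⟩ : ↥f.ker)) fun a b e => congrArg Subtype.val e
  exact not_finite_iff_infinite.2 inf h3

/-- `v` has two poles -/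
theorem WC.exists_two (h : S.WC w u w' v) (hc : S.Conn)
    (fin : ∀ z, S.K.ar v z → Finite ↥(stabilizer H z ⊓ stabilizer H w))
    (inf : Infinite ↥(stabilizer H w ⊓ stabilizer H u)) {z : V} (hz : S.K.ar v z) :
    ∃ z', S.K.ar v z' ∧ z ≠ z' := by
  by_contra hcon
  have hone : ∀ z', S.K.ar v z' → z = z' := by
    intro z' hz'
    by_contra hne
    exact hcon ⟨z', hz', hne⟩
  have h1 : Subgroup.closure (S.Gn w u v) ≤ stabilizer H z ⊓ stabilizer H w := by
    rw [Subgroup.closure_le]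
    rintro g ⟨gw, gu, hg⟩
    refine ⟨?_, gw⟩
    show g • z = z
    rcases hg with hg | ⟨z', hz', hg⟩
    · have := S.K.ar_smul g _ _ hz
      rw [hg] at this
      exact (hone _ this).symm
    · rw [hone z' hz']
      exact hg
  have h2 : stabilizer H w ⊓ stabilizer H u ≤ stabilizer H z ⊓ stabilizer H w :=
    fun j hj => h1 (h.gen hc hj.1 hj.2)
  have := fin z hz
  have h3 : Finite ↥(stabilizer H w ⊓ stabilizer H u) :=
    Finite.of_injective (Subgroup.inclusion h2) (Subgroup.inclusion_injective h2)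
  exact not_finite_iff_infinite.2 inf h3

/-- a two-ended group whose line has an edge which is reversed is of type `D` -/
theorem dt_of_flip {X : Type} [MulAction H X] {G : SimpleGraph X} (hG : TAct H G) {A : Subgroup H}
    (hA : InC ↥A) (hn : Hyp X A) {r : H} (hr : r ∈ A) {u w : X} (ru : r • u = u)
    (hw : w ∈ mst G A) (rw' : r • w ≠ w) : DT A := by
  refine ⟨hA, ?_, ?_⟩
  · rw [← not_finite_iff_infinite]
    intro hf
    obtain ⟨c, -, hc⟩ := fix_in hG (mst_conv A) ⟨w, hw⟩ hf (fun b hb c hc => mst_inv hb hc)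
    obtain ⟨a, ha, hac⟩ := hn c
    exact hac (hc a ha)
  · rintro ⟨f, hf⟩
    have h1 : ¬ IO r := fun k => hyp_io hG hA hn hr k u ru
    unfold SAG.IO at h1
    push Not at h1
    obtain ⟨n, hn', e⟩ := h1
    have e2 : f ⟨r, hr⟩ ^ n = 1 := by
      rw [← map_pow, show (⟨r, hr⟩ : ↥A) ^ n = 1 from Subtype.ext e, map_one]
    have e3 : n • Multiplicative.toAdd (f ⟨r, hr⟩) = 0 := by
      rw [← toAdd_pow, e2]
      rfl
    rw [nsmul_eq_mul] at e3
    have e4 : f ⟨r, hr⟩ = 1 := by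
      rcases mul_eq_zero.1 e3 with k | k
      · omega
      · exact k
    have hB : Finite ↥(f.ker.map A.subtype) := by
      have := hf
      exact Finite.of_surjective (fun x : ↥f.ker => (⟨x.1.1, ⟨x.1, x.2, rfl⟩⟩ :
        ↥(f.ker.map A.subtype))) (by
          rintro ⟨y, x, hx, rfl⟩
          exact ⟨⟨x, hx⟩, rfl⟩)
    refine rw' (fix_mst hG hA hn hB ?_ ?_ (b := r) ⟨⟨r, hr⟩, e4, rfl⟩ hw)
    · rintro _ ⟨x, -, rfl⟩
      exact x.2
    · rintro a ha _ ⟨x, hx, rfl⟩
      have hx1 : f x = 1 := hx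
      refine ⟨⟨a, ha⟩⁻¹ * x * ⟨a, ha⟩, ?_, rfl⟩
      show f (⟨a, ha⟩⁻¹ * x * ⟨a, ha⟩) = 1
      rw [map_mul, map_mul, hx1, mul_one, ← map_mul, inv_mul_cancel, map_one]

end SyQ

end Pool.Agent.DI
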