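import Pool.Agent.DI.WallC
import Pool.Agent.DI.C5D

/-!
# The thin step as an instance of `T5` (owner: helper78)

`WI w u w' v b`: `WC` (wall with one crossing corner), one orbit of edges, no centre over `u`, no square
with two opposite vertices over `u` only, light world. `WI.t5 : T5 H V S.X`, where
`S.Cw w u v c n s m`: `n, s, m` is a corner of a cell, `c` a translate of `w`, and every vertex of the
cell lies over `c` or is a translate `g v` with `c` adjacent to `g u`.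
-/

namespace Pool.Agent.DI

open MulAction
open Pool.Agent.SAF (InC orbs FinOrb oc Decomp SAn SA Conv hull dist_edge FinOrb_iff exists_next TAct)
open Pool.Agent.BT (PX PQ JS bey exits mst Hyp)
open Pool.Agent.BT.TA

namespace SyQ

variable {H V : Type} [Group H] [MulAction H V] (S : SyQ H V)

/-- over `c`, or lost and next to `c` -/
def Ok (u : S.X) (v : V) (c : S.X) (x : V) : Prop :=
  c ∈ S.J x ∨ ∃ g : H, x = g • v ∧ S.D.G.Adj c (g • u)

/-- corners of pentagons with centre `c` -/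
def Cp (u : S.X) (v : V) (c : S.X) (n s m : V) : Prop := ∃ y z, Qn S.P n s m y z ∧
  S.Ok u v c n ∧ S.Ok u v c s ∧ S.Ok u v c m ∧ S.Ok u v c y ∧ S.Ok u v c z

/-- corners of squares with centre `c` -/
def Cq (u : S.X) (v : V) (c : S.X) (n s m : V) : Prop := ∃ y, Q4 S.P n s m y ∧
  S.Ok u v c n ∧ S.Ok u v c s ∧ S.Ok u v c m ∧ S.Ok u v c y

/-- corners of cells with centre `c` -/
def Cw (w u : S.X) (v : V) (c : S.X) (n s m : V) : Prop :=
  (∃ h : H, h • w = c) ∧ (S.Cp u v c n s m ∨ S.Cq u v c n s m)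

/-- the hypotheses -/
structure WI (w u w' : S.X) (v b : V) (r : H) : Prop where
  wc : S.WC w u w' v
  con : S.Conn
  bip : ∀ x y, S.D.G.Adj x y → (∃ h : H, h • w = x ∧ h • u = y) ∨ (∃ h : H, h • u = x ∧ h • w = y)
  wu : ∀ h : H, h • w ≠ u
  noc : ∀ a q b y z, Qn S.P a q b y z → (u ∈ S.J a ∨ u ∈ S.J q) → (u ∈ S.J q ∨ u ∈ S.J b) →
    (u ∈ S.J b ∨ u ∈ S.J y) → (u ∈ S.J y ∨ u ∈ S.J z) → (u ∈ S.J z ∨ u ∈ S.J a) → False
  nl : ∀ a q b y, Q4 S.P a q b y → S.J q = {u} → S.J y = {u} → False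
  az : S.K.ar v b
  rv : r • v = v
  rb : r • b = b
  rw : r • w = w'

variable {S}

theorem Ok.smul {u : S.X} {v : V} {c : S.X} {x : V} (g : H) (h : S.Ok u v c x) :
    S.Ok u v (g • c) (g • x) := by
  rcases h with h | ⟨k, rfl, h⟩
  · exact Or.inl (S.js.smul g _ _ h)
  · exact Or.inr ⟨g * k, (mul_smul _ _ _).symm, by
      rw [mul_smul]
      exact S.D.adj_smul g _ _ h⟩

theorem Cw.symm {w u : S.X} {v : V} {c : S.X} {n s m : V} (h : S.Cw w u v c n s m) :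
    S.Cw w u v c m s n := by
  obtain ⟨hc, ⟨y, z, hq, a1, a2, a3, a4, a5⟩ | ⟨y, hq, a1, a2, a3, a4⟩⟩ := h
  · exact ⟨hc, Or.inl ⟨z, y, hq.symm, a3, a2, a1, a5, a4⟩⟩
  · exact ⟨hc, Or.inr ⟨y, hq.symm, a3, a2, a1, a4⟩⟩

theorem Cw.smul {w u : S.X} {v : V} {c : S.X} {n s m : V} (g : H) (h : S.Cw w u v c n s m) :
    S.Cw w u v (g • c) (g • n) (g • s) (g • m) := by
  obtain ⟨⟨k, rfl⟩, ⟨y, z, hq, a1, a2, a3, a4, a5⟩ | ⟨y, hq, a1, a2, a3, a4⟩⟩ := h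
  · exact ⟨⟨g * k, mul_smul _ _ _⟩, Or.inl ⟨g • y, g • z, hq.smul g, a1.smul g, a2.smul g,
      a3.smul g, a4.smul g, a5.smul g⟩⟩
  · exact ⟨⟨g * k, mul_smul _ _ _⟩, Or.inr ⟨g • y, hq.smul g, a1.smul g, a2.smul g,
      a3.smul g, a4.smul g⟩⟩

theorem Cw.E {w u : S.X} {v : V} {c : S.X} {n s m : V} (h : S.Cw w u v c n s m) :
    S.K.E n s := by
  obtain ⟨-, ⟨y, z, hq, -⟩ | ⟨y, hq, -⟩⟩ := h
  · exact hq.E1
  · exact hq.E1

section

variable {w u w' : S.X} {v b : V} {r : H}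

/-- a cell which crosses an edge `c c'` with `q` cut off, `c` a translate of `w` -/
theorem WI.cut (h : S.WI w u w' v b r) {c c' : S.X} (hc : ∃ g : H, g • w = c)
    (e : S.D.G.Adj c c') {a q m : V} (ha : S.Cs c c' a) (hm : S.Cs c c' m)
    (hq : S.CC c c' a q m) : ∃ g : H, q = g • v ∧ S.D.G.Adj c (g • u) := by
  have key : ∃ g : H, g • w = c ∧ g • u = c' := by
    rcases h.bip c c' e with k | ⟨g, k1, -⟩
    · exact k
    · exfalso
      obtain ⟨g', e'⟩ := hc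
      apply h.wu (g⁻¹ * g')
      rw [mul_smul, e', ← k1, inv_smul_smul]
  obtain ⟨g, rfl, rfl⟩ := key
  have h1 := CC.smul S g⁻¹ hq
  rw [inv_smul_smul, inv_smul_smul] at h1
  have h2 := ha.smul g⁻¹
  have h3 := hm.smul g⁻¹
  rw [inv_smul_smul, inv_smul_smul] at h2 h3
  obtain ⟨j, -, ju, e1⟩ := h.wc.far h.con h2 h3 h1
  refine ⟨g * j, ?_, ?_⟩
  · rw [mul_smul, ← e1, smul_inv_smul]
  · rw [mul_smul, ju]
    exact e

/-- a vertex of a pentagon with centre `c` -/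
theorem WI.ok5 (h : S.WI w u w' v b r) {c : S.X} (hc : ∃ g : H, g • w = c) {a q m y z : V}
    (hq : Qn S.P a q m y z) (h1 : c ∈ S.J a ∨ c ∈ S.J q) (h2 : c ∈ S.J q ∨ c ∈ S.J m)
    (h4 : c ∈ S.J y ∨ c ∈ S.J z) : S.Ok u v c q := by
  by_cases hcq : c ∈ S.J q
  · exact Or.inl hcq
  · right
    have ha := h1.resolve_right hcq
    have hm := h2.resolve_left hcq
    have e := S.dir_adj hcq
    have hqb := S.dir_bey hcq
    have ha' := S.dir_cross hq.E1 ha hcq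
    have hm' := S.dir_cross hq.E2.symm hm hcq
    have ny : ¬ S.Cs c (S.dir c q) y := S.adj_nc e hq.E3 ⟨hm, hm'⟩
    have nz : ¬ S.Cs c (S.dir c q) z := S.adj_nc e hq.E5.symm ⟨ha, ha'⟩
    have key : S.J y ⊆ bey S.D.G (S.dir c q) c ∧ S.J z ⊆ bey S.D.G (S.dir c q) c := by
      rcases h4 with h4 | h4
      · have k1 := S.side_of e.symm (fun t => ny t.swap) h4 (bey_self e.symm)
        exact ⟨k1, S.side_adj e.symm hq.E4 (fun t => nz t.swap) k1⟩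
      · have k1 := S.side_of e.symm (fun t => nz t.swap) h4 (bey_self e.symm)
        exact ⟨S.side_adj e.symm hq.E4.symm (fun t => ny t.swap) k1, k1⟩
    exact h.cut hc e ⟨ha, ha'⟩ ⟨hm, hm'⟩ ⟨hqb, Or.inl ⟨y, z, hq, key.1, key.2⟩⟩

/-- every corner of a pentagon has a centre -/
theorem WI.pent (h : S.WI w u w' v b r) {a q m y z : V} (hq : Qn S.P a q m y z) :
    ∃ c, (∃ g : H, g • w = c) ∧ (S.Ok u v c a ∧ S.Ok u v c q ∧ S.Ok u v c m ∧ S.Ok u v c y ∧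
      S.Ok u v c z) ∧ (c ∈ S.J y ∨ c ∈ S.J z) := by
  obtain ⟨c, hc⟩ := S.cen (v := ![a, q, m, y, z]) (by
    intro k
    fin_cases k
    · exact hq.E1
    · exact hq.E2
    · exact hq.E3
    · exact hq.E4
    · exact hq.E5)
  have c0 : c ∈ S.J a ∨ c ∈ S.J q := hc 0
  have c1 : c ∈ S.J q ∨ c ∈ S.J m := hc 1
  have c2 : c ∈ S.J m ∨ c ∈ S.J y := hc 2
  have c3 : c ∈ S.J y ∨ c ∈ S.J z := hc 3
  have c4 : c ∈ S.J z ∨ c ∈ S.J a := hc 4
  have hb : ∃ g : H, g • w = c := by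
    -- `c` is a translate of `w` or of `u`
    by_contra hn
    have hcu : ∃ g : H, g • u = c := by
      obtain ⟨t, ht⟩ : ∃ t, S.D.G.Adj c t := by
        have huw := h.wc.ov.hw
        by_cases e : c = u
        · exact ⟨w, by rw [e]; exact huw⟩
        · obtain ⟨t, ht, -⟩ := exists_next S.D.tree e
          exact ⟨t, ht⟩
      rcases h.bip c t ht with ⟨g, k1, -⟩ | ⟨g, k1, -⟩
      · exact absurd ⟨g, k1⟩ hn
      · exact ⟨g, k1⟩
    obtain ⟨g, rfl⟩ := hcu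
    have tr : ∀ x, g • u ∈ S.J x ↔ u ∈ S.J (g⁻¹ • x) := by
      intro x
      have := S.mem_smul_iff g (g⁻¹ • x) u
      rw [smul_inv_smul] at this
      exact this
    rw [tr, tr] at c0 c1 c2 c3 c4
    exact h.noc _ _ _ _ _ (hq.smul g⁻¹) c0 c1 c2 c3 c4
  refine ⟨c, hb, ⟨?_, ?_, ?_, ?_, ?_⟩, c3⟩
  · exact h.ok5 hb hq.rot.rot.rot.rot c4 c0 c2
  · exact h.ok5 hb hq c0 c1 c3
  · exact h.ok5 hb hq.rot c1 c2 c4
  · exact h.ok5 hb hq.rot.rot c2 c3 c0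
  · exact h.ok5 hb hq.rot.rot.rot c3 c4 c1

/-- `w'` is a translate of `w` -/
theorem WI.bad' (h : S.WI w u w' v b r) : ∃ g : H, g • w = w' := ⟨r, h.rw⟩

theorem WI.ru (h : S.WI w u w' v b r) : r • u = u := by
  have h1 := Js_smul (g := r) h.wc.Jv
  rw [h.rv, h.wc.Jv] at h1
  exact (Set.singleton_injective h1).symm

theorem WI.bad_nb (h : S.WI w u w' v b r) {t : S.X} (e : S.D.G.Adj u t) :
    ∃ g : H, g • w = t := by
  rcases h.wc.ov.val t e with rfl | rfl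
  · exact ⟨1, one_smul _ _⟩
  · exact h.bad'

/-- a square over `u` -/
theorem WI.sq_u (h : S.WI w u w' v b r) {a q m y : V} (hq : Q4 S.P a q m y) (ha : u ∈ S.J a)
    (hqu : u ∈ S.J q) (hm : u ∈ S.J m) : ∃ c, (∃ g : H, g • w = c) ∧
      S.Ok u v c a ∧ S.Ok u v c q ∧ S.Ok u v c m ∧ S.Ok u v c y := by
  by_cases hJq : S.J q = {u}
  · have hy : u ∉ S.J y := by
      intro hy
      rcases h.wc.ov.u1 a y hq.E4.symm ha hy with k | k
      · exact h.wc.ov.no_self k hJq hq.E1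
      · exact h.nl _ _ _ _ hq hJq k
    have e := S.dir_adj hy
    have hyb := S.dir_bey hy
    have hat := S.dir_cross hq.E4.symm ha hy
    have hmt := S.dir_cross hq.E3 hm hy
    have hbad := h.bad_nb e
    refine ⟨S.dir u y, hbad, Or.inl hat, ?_, Or.inl hmt, ?_⟩
    · right
      refine h.cut hbad e.symm ⟨hat, ha⟩ ⟨hmt, hm⟩ ⟨?_, Or.inr ⟨y, hq, hyb⟩⟩
      rw [hJq]
      intro x hx
      rw [Set.mem_singleton_iff.1 hx]
      exact bey_self e.symm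
    · by_cases hty : S.dir u y ∈ S.J y
      · exact Or.inl hty
      · right
        have e2 := S.dir_adj hty
        have hyb2 := S.dir_bey hty
        have hat2 := S.dir_cross hq.E4.symm hat hty
        have hmt2 := S.dir_cross hq.E3 hmt hty
        have hne : S.dir (S.dir u y) y ≠ u := by
          intro k
          rw [k] at hyb2
          obtain ⟨p, hp⟩ := S.js.ne y
          exact bey_not (hyb2 hp) (hyb hp)
        refine h.cut hbad e2 ⟨hat, hat2⟩ ⟨hmt, hmt2⟩ ⟨hyb2, Or.inr ⟨q, ?_, ?_⟩⟩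
        · exact hq.rot.rot.symm
        · rw [hJq]
          intro x hx
          rw [Set.mem_singleton_iff.1 hx]
          rcases bey_or S.D.tree e2 u with k | k
          · exact absurd (S.bey_unique e2 e.symm k (bey_self e.symm)) hne
          · exact k
  · exfalso
    have h1 : S.J a = {u} := (h.wc.ov.u1 a q hq.E1 ha hqu).resolve_right hJq
    have h2 : S.J m = {u} := (h.wc.ov.u1 q m hq.E2 hqu hm).resolve_left hJq
    exact h.nl _ _ _ _ hq.rot h2 h1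

theorem WI.sq_aux (h : S.WI w u w' v b r) {a q m y : V} (hq : Q4 S.P a q m y) {c0 : S.X}
    (h0 : c0 ∈ S.J a) (h0' : c0 ∈ S.J m) : ∃ c, (∃ g : H, g • w = c) ∧
      S.Ok u v c a ∧ S.Ok u v c q ∧ S.Ok u v c m ∧ S.Ok u v c y := by
  obtain ⟨p1, p1a, p1q⟩ := S.one_ex hq.E1
  obtain ⟨p2, p2q, p2m⟩ := S.one_ex hq.E2
  obtain ⟨c, ca, cq, cm⟩ : ∃ c, c ∈ S.J a ∧ c ∈ S.J q ∧ c ∈ S.J m := by
    obtain ⟨c, ⟨k1, k2⟩, k3⟩ := helly3 S.D.tree (S.js.conv a) (S.js.conv q) (S.js.conv m)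
      ⟨p1, p1a, p1q⟩ ⟨c0, h0, h0'⟩ ⟨p2, p2q, p2m⟩
    exact ⟨c, k1, k2, k3⟩
  by_cases hb : ∃ g : H, g • w = c
  · refine ⟨c, hb, Or.inl ca, Or.inl cq, Or.inl cm, ?_⟩
    by_cases hcy : c ∈ S.J y
    · exact Or.inl hcy
    · right
      have e := S.dir_adj hcy
      have hyb := S.dir_bey hcy
      have ha' := S.dir_cross hq.E4.symm ca hcy
      have hm' := S.dir_cross hq.E3 cm hcy
      refine h.cut hb e ⟨ca, ha'⟩ ⟨cm, hm'⟩ ⟨hyb, Or.inr ⟨q, ?_, ?_⟩⟩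
      · exact hq.rot.rot.symm
      · exact S.side_of e.symm (fun t => S.adj_nc e hq.E1 ⟨ca, ha'⟩ t.swap) cq (bey_self e.symm)
  · have hcu : ∃ g : H, g • u = c := by
      obtain ⟨t, ht⟩ : ∃ t, S.D.G.Adj c t := by
        have huw := h.wc.ov.hw
        by_cases e : c = u
        · exact ⟨w, by rw [e]; exact huw⟩
        · obtain ⟨t, ht, -⟩ := exists_next S.D.tree e
          exact ⟨t, ht⟩
      rcases h.bip c t ht with ⟨g, k1, -⟩ | ⟨g, k1, -⟩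
      · exact absurd ⟨g, k1⟩ hb
      · exact ⟨g, k1⟩
    obtain ⟨g, rfl⟩ := hcu
    have tr : ∀ x, g • u ∈ S.J x → u ∈ S.J (g⁻¹ • x) := by
      intro x hx
      have := S.mem_smul_iff g (g⁻¹ • x) u
      rw [smul_inv_smul] at this
      exact this.1 hx
    obtain ⟨c, ⟨k, hk⟩, a1, a2, a3, a4⟩ := h.sq_u (hq.smul g⁻¹) (tr _ ca) (tr _ cq) (tr _ cm)
    have b1 := a1.smul g
    have b2 := a2.smul g
    have b3 := a3.smul g
    have b4 := a4.smul g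
    rw [smul_inv_smul] at b1 b2 b3 b4
    exact ⟨g • c, ⟨g * k, by rw [mul_smul, hk]⟩, b1, b2, b3, b4⟩

/-- every square has a centre -/
theorem WI.sqc (h : S.WI w u w' v b r) {a q m y : V} (hq : Q4 S.P a q m y) :
    ∃ c, (∃ g : H, g • w = c) ∧
      S.Ok u v c a ∧ S.Ok u v c q ∧ S.Ok u v c m ∧ S.Ok u v c y := by
  obtain ⟨p1, p1a, p1q⟩ := S.one_ex hq.E1
  obtain ⟨p2, p2q, p2m⟩ := S.one_ex hq.E2
  obtain ⟨p3, p3m, p3y⟩ := S.one_ex hq.E3
  obtain ⟨p4, p4y, p4a⟩ := S.one_ex hq.E4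
  have cu : ∀ {x y : V} {p : S.X}, p ∈ S.J x → p ∈ S.J y → Conv S.D.G (S.J x ∪ S.J y) :=
    fun h1 h2 => conv_union S.D.tree (S.js.conv _) (S.js.conv _) h1 h2
  obtain ⟨c, ⟨⟨k1, k2⟩, k3⟩, k4⟩ := helly4 S.D.tree (cu p1a p1q) (cu p2q p2m) (cu p3m p3y)
    (cu p4y p4a) ⟨p1, Or.inr p1q, Or.inl p1q⟩ ⟨p2, Or.inr p2q, Or.inl p2m⟩
    ⟨p2, Or.inr p2m, Or.inl p2m⟩ ⟨p1, Or.inl p1a, Or.inr p1a⟩ ⟨p3, Or.inr p3m, Or.inl p3y⟩
    ⟨p3, Or.inr p3y, Or.inl p3y⟩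
  have hor : (c ∈ S.J a ∧ c ∈ S.J m) ∨ (c ∈ S.J q ∧ c ∈ S.J y) := by
    rcases k1 with k1 | k1
    · rcases k3 with k3 | k3
      · exact Or.inl ⟨k1, k3⟩
      · rcases k2 with k2 | k2
        · exact Or.inr ⟨k2, k3⟩
        · exact Or.inl ⟨k1, k2⟩
    · rcases k4 with k4 | k4
      · exact Or.inr ⟨k1, k4⟩
      · rcases k3 with k3 | k3
        · exact Or.inl ⟨k4, k3⟩
        · exact Or.inr ⟨k1, k3⟩
  rcases hor with ⟨e1, e2⟩ | ⟨e1, e2⟩
  · exact h.sq_aux hq e1 e2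
  · obtain ⟨c', hc', a1, a2, a3, a4⟩ := h.sq_aux hq.rot e1 e2
    exact ⟨c', hc', a4, a1, a2, a3⟩

/-! ### corners over the edge -/

theorem Xe_fix {g : H} {w u : S.X} (hw : g • w = w) (hu : g • u = u) {e : S.K.LE} :
    S.Xe w u (g • e) ↔ S.Xe w u e := by
  unfold Xe
  rw [S.K.c0_smul, S.K.c2_smul, sub_bey_fix hw hu, sub_bey_fix hw hu, sub_bey_fix hu hw,
    sub_bey_fix hu hw]

theorem UqK.tr {w u : S.X} {z : V} (h : S.UqK w u z) {j : H} (jw : j • w = w) (ju : j • u = u) :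
    S.UqK w u (j • z) := by
  intro x v n m h1 h2 h3 h4 h5 h6
  have jw' : j⁻¹ • w = w := inv_smul_eq_iff.2 jw.symm
  have ju' : j⁻¹ • u = u := inv_smul_eq_iff.2 ju.symm
  have h1' := h1.smul j⁻¹
  have h4' := h4.smul j⁻¹
  rw [inv_smul_smul] at h1' h4'
  obtain ⟨g, gz, gw, gu, e1, e2⟩ := h _ _ _ _ h1' ((sub_bey_fix jw' ju').2 h2)
    ((sub_bey_fix ju' jw').2 h3) h4' ((sub_bey_fix jw' ju').2 h5) ((sub_bey_fix ju' jw').2 h6)
  refine ⟨j * g * j⁻¹, ?_, ?_, ?_, ?_, ?_⟩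
  · rw [mul_smul, mul_smul, inv_smul_smul, gz]
  · rw [mul_smul, mul_smul, jw', gw, jw]
  · rw [mul_smul, mul_smul, ju', gu, ju]
  · rw [mul_smul, mul_smul, ← e1, smul_inv_smul]
  · rw [mul_smul, mul_smul, ← e2, smul_inv_smul]

theorem Cw.cor {w u : S.X} {v : V} {c : S.X} {n s m : V} (h : S.Cw w u v c n s m) :
    S.K.Cor n s m := by
  obtain ⟨-, ⟨y, z, hq, -⟩ | ⟨y, hq, -⟩⟩ := h
  · exact cor5 hq.rot
  · exact cor4 hq.rot

theorem WI.u_mem (h : S.WI w u w' v b r) {g : H} (hg : g • u = u) {x : V}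
    (e : S.K.E (g • v) x) : u ∈ S.J x := by
  obtain ⟨p, p0, p1⟩ := S.one_ex e
  have hJ := Js_smul (g := g) h.wc.Jv
  rw [hg] at hJ
  rwa [ne_mem hJ p0] at p1

theorem WI.Jg (h : S.WI w u w' v b r) (g : H) : S.J (g • v) = {g • u} := Js_smul h.wc.Jv

/-- a vertex next to a lost one lies over the centre -/
theorem WI.ok_w (h : S.WI w u w' v b r) {k x : V} {c : S.X} (hk : S.J k = {u})
    (e : S.K.E k x) (ho : S.Ok u v c x) : c ∈ S.J x := by
  rcases ho with ho | ⟨g, rfl, -⟩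
  · exact ho
  · exfalso
    obtain ⟨p, p0, p1⟩ := S.one_ex e
    rw [ne_mem hk p0, h.Jg] at p1
    have hu := Set.mem_singleton_iff.1 p1
    have hJ := h.Jg g
    rw [← hu] at hJ
    exact h.wc.ov.no_self hk hJ e

theorem WI.near (h : S.WI w u w' v b r) {x k : V} {g : H} (hw : w ∈ S.J x) (hu : u ∈ S.J x)
    (hg : g • u = u) (hc : S.Cw w u v w (g • v) x k) : S.J k ⊆ bey S.D.G u w := by
  have huw := h.wc.ov.hw
  have hJv := h.Jg g
  rw [hg] at hJv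
  have hxk : S.K.E x k := by
    have := hc.symm.E
    exact this.symm
  obtain ⟨-, hcc⟩ := hc
  -- `k` is on the side of `w`
  have nk : ¬ S.J k = {u} := by
    intro hk
    rcases hcc with ⟨y, z, hq, -, -, -, a4, a5⟩ | ⟨y, hq, -⟩
    · have y1 : u ∈ S.J y := by
        obtain ⟨p, p0, p1⟩ := S.one_ex hq.E3
        rwa [ne_mem hk p0] at p1
      have y2 := h.ok_w hk hq.E3 a4
      have z1 : u ∈ S.J z := h.u_mem hg hq.E5.symm
      have z2 := h.ok_w hJv hq.E5.symm a5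
      exact S.not_both huw.symm hq.E4 ⟨y2, y1⟩ ⟨z2, z1⟩
    · exact h.nl _ _ _ _ hq.rot hk hJv
  have ok : S.Ok u v w k := by
    rcases hcc with ⟨y, z, hq, -, -, a3, -⟩ | ⟨y, hq, -, -, a3, -⟩ <;> exact a3
  rcases ok with hk | ⟨g', rfl, hk⟩
  · exact S.side_of huw (fun t => S.adj_nc huw.symm hxk ⟨hw, hu⟩ t.swap) hk (bey_self huw)
  · have hJk := h.Jg g'
    rw [hJk]
    intro p hp
    rw [Set.mem_singleton_iff.1 hp]
    rcases bey_or S.D.tree huw (g' • u) with k1 | k1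
    · exact k1
    · exfalso
      apply nk
      rw [hJk, ← S.bey_unique huw.symm hk k1 (bey_self hk)]

theorem WI.u_not (h : S.WI w u w' v b r) {g : H} (hg : g • u = u) :
    S.J (g • v) ⊆ bey S.D.G w u := by
  rw [h.Jg, hg]
  intro p hp
  rw [Set.mem_singleton_iff.1 hp]
  exact bey_self h.wc.ov.hw.symm

theorem WI.no2 (h : S.WI w u w' v b r) {x : V} {g1 g2 : H} (hw : w ∈ S.J x) (hu : u ∈ S.J x)
    (h1 : g1 • u = u) (h2 : g2 • u = u) : ¬ S.Cw w u v w (g1 • v) x (g2 • v) := by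
  intro hc
  have k1 := h.near hw hu h1 hc
  have k2 := h.u_not h2
  obtain ⟨p, hp⟩ := S.js.ne (g2 • v)
  exact bey_not (k1 hp) (k2 hp)

theorem WI.t3 (h : S.WI w u w' v b r) {x k1 k2 : V} {g1 g2 : H} (hw : w ∈ S.J x)
    (hu : u ∈ S.J x) (hw' : w' ∈ S.J x) (h1 : g1 • u = u) (h2 : g2 • u = u)
    (c1 : S.Cw w u v w (g1 • v) x k1) (c2 : S.Cw w u v w (g2 • v) x k2) :
    ∃ g : H, g • x = x ∧ g • w = w ∧ g • u = u ∧ g • g1 • v = g2 • v ∧ g • k1 = k2 := by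
  obtain ⟨j, jw, ju, hj⟩ := h.wc.both h.con ⟨hw, hu⟩ hw'
  have hz : S.K.ar v (j⁻¹ • x) := by
    have := S.K.ar_smul j⁻¹ _ _ hj
    rwa [inv_smul_smul] at this
  have uq := UqK.tr (h.wc.uq _ hz) jw ju
  rw [smul_inv_smul] at uq
  obtain ⟨g, gx, gw, gu, e1, e2⟩ := uq _ _ _ _ c1.cor (h.u_not h1) (h.near hw hu h1 c1) c2.cor
    (h.u_not h2) (h.near hw hu h2 c2)
  exact ⟨g, gx, gw, gu, e1.symm, e2.symm⟩

/-- a crossing cell with its centre -/
theorem WI.wl (h : S.WI w u w' v b r) {a q m : V} (ha : S.Cs w u a) (hm : S.Cs w u m)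
    (hq : S.CC w u a q m) : ∃ c, S.Cw w u v c a q m ∧ c ∈ bey S.D.G u w := by
  have huw := h.wc.ov.hw
  have hb : ∃ g : H, g • w = w := ⟨1, one_smul _ _⟩
  have hq0 := hq
  obtain ⟨hf, ⟨y, z, hp, hy, hz⟩ | ⟨y, hp, hy⟩⟩ := hq
  · obtain ⟨c, hc, hok, h3⟩ := h.pent hp
    refine ⟨c, ⟨hc, Or.inl ⟨y, z, hp, hok⟩⟩, ?_⟩
    rcases h3 with h3 | h3
    · exact hy h3
    · exact hz h3
  · refine ⟨w, ⟨hb, Or.inr ⟨y, hp, Or.inl ha.1, Or.inr (h.cut hb huw.symm ha hm hq0),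
      Or.inl hm.1, ?_⟩⟩, bey_self huw⟩
    by_cases hwy : w ∈ S.J y
    · exact Or.inl hwy
    · right
      have e2 := S.dir_adj hwy
      have hyb2 := S.dir_bey hwy
      have ha2 := S.dir_cross hp.E4.symm ha.1 hwy
      have hm2 := S.dir_cross hp.E3 hm.1 hwy
      have hne : S.dir w y ≠ u := by
        intro k
        rw [k] at hyb2
        obtain ⟨p, hp⟩ := S.js.ne y
        exact bey_not (hyb2 hp) (hy hp)
      refine h.cut hb e2 ⟨ha.1, ha2⟩ ⟨hm.1, hm2⟩ ⟨hyb2, Or.inr ⟨q, hp.rot.rot.symm, ?_⟩⟩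
      obtain ⟨j, jw, ju, rfl⟩ := h.wc.far h.con ha hm hq0
      rw [h.Jg, ju]
      intro x hx
      rw [Set.mem_singleton_iff.1 hx]
      rcases bey_or S.D.tree e2 u with k | k
      · exact absurd (S.bey_unique e2 huw.symm k (bey_self huw.symm)) hne
      · exact k

theorem WI.walls (h : S.WI w u w' v b r) {x y : V} (hx : S.Cs w u x) (hy : S.Cs w u y) :
    Relation.EqvGen (fun a b => (w ∈ S.J a ∧ u ∈ S.J a) ∧ (w ∈ S.J b ∧ u ∈ S.J b) ∧
      ∃ q c, S.Cw w u v c a q b ∧ ((S.J q ⊆ bey S.D.G w u ∧ c ∈ bey S.D.G u w) ∨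
        (S.J q ⊆ bey S.D.G u w ∧ c ∈ bey S.D.G w u))) x y := by
  have hc := h.con.wall w u h.wc.ov.hw.symm x y hx hy
  induction hc with
  | rel a m k =>
    apply Relation.EqvGen.rel
    obtain ⟨-, ha, hm, q, hq | hq⟩ := k
    · obtain ⟨c, c1, c2⟩ := h.wl ha hm hq
      exact ⟨ha, hm, q, c, c1, Or.inl ⟨hq.1, c2⟩⟩
    · obtain ⟨y, -, hq'⟩ := h.wc.far' h.con ha hm hq
      obtain ⟨c, c1, c2⟩ := h.wl ha hm hq'
      exact ⟨ha, hm, y, c, c1, Or.inl ⟨hq'.1, c2⟩⟩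
  | refl a => exact Relation.EqvGen.refl _
  | symm a m k ih => exact (ih hy hx).symm
  | trans a m c k1 k2 ih1 ih2 =>
    have key : ∀ a m, Relation.EqvGen (S.PW w u) a m → (S.Cs w u a ↔ S.Cs w u m) := by
      intro a m k
      induction k with
      | rel a m k => exact ⟨fun _ => k.r, fun _ => k.l⟩
      | refl a => exact Iff.rfl
      | symm a m _ ih => exact ih.symm
      | trans a m c _ _ i1 i2 => exact i1.trans i2
    have hm := (key _ _ k1).1 hx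
    exact (ih1 hx hm).trans _ _ _ (ih2 hm hy)

end

/-! ### corners of the complex -/

theorem le_cases (e : S.K.LE) :
    (∃ y z, Qn S.P (S.K.c0 e) (S.K.c1 e) (S.K.c2 e) y z) ∨
      ∃ y, Q4 S.P (S.K.c0 e) (S.K.c1 e) (S.K.c2 e) y := by
  by_cases hi : S.P.sq e.1.1
  · right
    have hl := S.P.ln4 hi
    have hj : e.1.2.1 % 4 < 4 := Nat.mod_lt _ (by norm_num)
    let j : Fin 4 := ⟨e.1.2.1 % 4, hj⟩
    refine ⟨S.K.vk e 3, e.2, e.1.1, j, hi, Or.inl ⟨?_, ?_, ?_, ?_⟩⟩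
    · exact P45.vk4 hi 0 j rfl
    · refine P45.vk4 hi 1 (j + 1) ?_
      show (e.1.2.1 + 1) % 4 = (e.1.2.1 % 4 + 1) % 4
      omega
    · refine P45.vk4 hi 2 (j + 2) ?_
      show (e.1.2.1 + 2) % 4 = (e.1.2.1 % 4 + 2) % 4
      omega
    · refine P45.vk4 hi 3 (j + 3) ?_
      show (e.1.2.1 + 3) % 4 = (e.1.2.1 % 4 + 3) % 4
      omega
  · left
    have hj : e.1.2.1 % 5 < 5 := Nat.mod_lt _ (by norm_num)
    let j : Fin 5 := ⟨e.1.2.1 % 5, hj⟩
    refine ⟨S.K.vk e 3, S.K.vk e 4, e.2, e.1.1, j, hi, Or.inl ⟨?_, ?_, ?_, ?_, ?_⟩⟩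
    · exact P45.vk5 hi 0 j rfl
    · refine P45.vk5 hi 1 (j + 1) ?_
      show (e.1.2.1 + 1) % 5 = (e.1.2.1 % 5 + 1) % 5
      omega
    · refine P45.vk5 hi 2 (j + 2) ?_
      show (e.1.2.1 + 2) % 5 = (e.1.2.1 % 5 + 2) % 5
      omega
    · refine P45.vk5 hi 3 (j + 3) ?_
      show (e.1.2.1 + 3) % 5 = (e.1.2.1 % 5 + 3) % 5
      omega
    · refine P45.vk5 hi 4 (j + 4) ?_
      show (e.1.2.1 + 4) % 5 = (e.1.2.1 % 5 + 4) % 5
      omega

/-- corners of pentagons and squares -/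
theorem cor_cases {n s m : V} (h : S.K.Cor n s m) :
    (∃ y z, Qn S.P n s m y z) ∨ ∃ y, Q4 S.P n s m y := by
  obtain ⟨e, ⟨rfl, rfl, rfl⟩ | ⟨rfl, rfl, rfl⟩⟩ := S.K.cor_LE.1 h
  · exact S.le_cases e
  · rcases S.le_cases e with ⟨y, z, hq⟩ | ⟨y, hq⟩
    · exact Or.inl ⟨z, y, hq.symm⟩
    · exact Or.inr ⟨y, hq.symm⟩

/-- every corner has a centre -/
theorem WI.cor_cw {w u w' : S.X} {v b : V} {r : H} (h : S.WI w u w' v b r) {n s m : V}
    (hc : S.K.Cor n s m) : ∃ c, S.Cw w u v c n s m := by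
  rcases S.cor_cases hc with ⟨y, z, hq⟩ | ⟨y, hq⟩
  · obtain ⟨c, hc, hok, -⟩ := h.pent hq
    exact ⟨c, hc, Or.inl ⟨y, z, hq, hok⟩⟩
  · obtain ⟨c, hc, hok⟩ := h.sqc hq
    exact ⟨c, hc, Or.inr ⟨y, hq, hok⟩⟩

/-- the thin step: all hypotheses -/
structure WT (w u w' : S.X) (v z1 z2 : V) (r : H) : Prop where
  wi : S.WI w u w' v z1 r
  zne : z1 ≠ z2
  az2 : S.K.ar v z2
  vfin : Finite ↥(stabilizer H v)
  snk : ∀ x, (∀ a, ¬ S.K.ar x a) → (∃ p, S.J x = {p}) ∨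
    (DT (stabilizer H x) ∧ Hyp S.X (stabilizer H x) ∧ S.J x = mst S.D.G (stabilizer H x))
  light : ∀ x a y z, S.K.ar x a → S.D.G.Adj y z → y ∈ S.J x → z ∈ S.J x →
    Finite ↥(stabilizer H x)
  dt : DT (stabilizer H w ⊓ stabilizer H u)
  vis : ∀ n s, S.K.ar n s → ((Finite ↥(stabilizer H n)) ∨ (Finite ↥(stabilizer H s)) ∨
    ∃ y z, S.D.G.Adj y z ∧ y ∈ S.J s ∧ z ∈ S.J s) → ∃ m, S.K.Cor n s m
  lk : ∀ x, (∀ a, ¬ S.K.ar x a) → (∃ y z, S.D.G.Adj y z ∧ y ∈ S.J x ∧ z ∈ S.J x) →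
    ∀ n m, S.K.ar n x → S.K.ar m x → S.K.LJ x n m

theorem tact : TAct H S.D.G := ⟨S.D.tree, S.D.adj_smul, S.D.noinv⟩

/-- THE INSTANCE -/
noncomputable def WT.t5 {w u w' : S.X} {v z1 z2 : V} {r : H} (h : S.WT w u w' v z1 z2 r) :
    T5 H V S.X where
  ar := S.K.ar
  rk := S.K.rk
  ar_rk := S.K.ar_rk
  ar_smul := S.K.ar_smul
  rk_smul := S.K.rk_smul
  two := S.K.two
  T := S.D.G
  act := S.tact
  J := S.J
  J_smul g x y hy := S.js.smul g x y hy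
  J_conv := S.js.conv
  J_ne := S.js.ne
  one x y e := S.js.one x y (Or.inl e)
  exits1 := by
    intro x y a b z hy ha hb ya yb hne hz hzx
    rcases S.js.two x y hy (Sum.inl a) (Or.inl ⟨a, rfl, ha, ya⟩) (Sum.inl b)
      (Or.inl ⟨b, rfl, hb, yb⟩) (Sum.inr z) (Or.inr ⟨z, rfl, hz, hzx⟩) with e | e | e
    · exact hne (Sum.inl.inj e)
    · cases e
    · cases e
  exits2 := by
    intro x y a z t hy ha ya hz ht hzx htx
    rcases S.js.two x y hy (Sum.inl a) (Or.inl ⟨a, rfl, ha, ya⟩) (Sum.inr z)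
      (Or.inr ⟨z, rfl, hz, hzx⟩) (Sum.inr t) (Or.inr ⟨t, rfl, ht, htx⟩) with e | e | e
    · cases e
    · cases e
    · exact Sum.inr.inj e
  exits3 := by
    intro x y z t k hy hz ht hk hzx htx hkx
    rcases S.js.two x y hy (Sum.inr z) (Or.inr ⟨z, rfl, hz, hzx⟩) (Sum.inr t)
      (Or.inr ⟨t, rfl, ht, htx⟩) (Sum.inr k) (Or.inr ⟨k, rfl, hk, hkx⟩) with e | e | e
    · exact Or.inl (Sum.inr.inj e)
    · exact Or.inr (Or.inr (Sum.inr.inj e))
    · exact Or.inr (Or.inl (Sum.inr.inj e))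
  cross := S.js.cross
  snk := h.snk
  light := h.light
  Cc := S.Cw w u v
  Cc_symm _ _ _ _ hc := hc.symm
  Cc_smul g _ _ _ _ hc := hc.smul g
  Cc_E _ _ _ _ hc := hc.E
  vis n s e hf := by
    obtain ⟨m, hm⟩ := h.vis n s e hf
    obtain ⟨c, hc⟩ := h.wi.cor_cw hm
    exact ⟨c, m, hc⟩
  w := w
  u := u
  w' := w'
  adj := h.wi.wc.ov.hw.symm
  ne := h.wi.wc.ov.ne
  only x := by
    constructor
    · exact h.wi.wc.ov.val x
    · rintro (rfl | rfl)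
      · exact h.wi.wc.ov.hw
      · exact h.wi.wc.ov.hw'
  bip := h.wi.bip
  wu := h.wi.wu
  J_dt := h.dt
  v := v
  Jv := h.wi.wc.Jv
  vfin := h.vfin
  z1 := z1
  z2 := z2
  zne := h.zne
  az1 := h.wi.az
  az2 := h.az2
  wz1 := (h.wi.wc.ov.crs v z1 h.wi.wc.Jv h.wi.az).1
  wz2 := (h.wi.wc.ov.crs v z2 h.wi.wc.Jv h.az2).1
  b := r
  bv := h.wi.rv
  bz1 := h.wi.rb
  bw := h.wi.rw
  rev x hw hu hw' := by
    obtain ⟨j, -, ju, hj⟩ := h.wi.wc.both h.wi.con ⟨hw, hu⟩ hw'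
    exact ⟨j, ju, hj⟩
  H1 := by
    intro c n s m hc
    refine ⟨hc.1, ?_⟩
    obtain ⟨-, ⟨y, z, -, a1, a2, -⟩ | ⟨y, -, a1, a2, -⟩⟩ := hc
    · exact ⟨a1, a2⟩
    · exact ⟨a1, a2⟩
  T3 x g1 g2 k1 k2 hw hu hw' h1 h2 c1 c2 := h.wi.t3 hw hu hw' h1 h2 c1 c2
  no2 x g1 g2 hw hu _ h1 h2 := h.wi.no2 hw hu h1 h2
  walls x y hw hu hw2 hu2 := h.wi.walls ⟨hw, hu⟩ ⟨hw2, hu2⟩
  lk := by
    intro x hx hcr n m hn hm
    have hL := h.lk x hx hcr n m hn hm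
    have key : ∀ a b, S.K.LJ x a b → (S.K.ar a x ↔ S.K.ar b x) := by
      intro a b k
      induction k with
      | rel a b k =>
        constructor
        · intro _
          rcases k.E2 with e | e
          · exact absurd e (hx _)
          · exact e
        · intro _
          rcases k.E1 with e | e
          · exact absurd e (hx _)
          · exact e
      | refl a => exact Iff.rfl
      | symm a b _ ih => exact ih.symm
      | trans a b c _ _ i1 i2 => exact i1.trans i2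
    have main : ∀ a b, S.K.LJ x a b → S.K.ar a x → S.K.ar b x →
        LkC S.K.ar (fun n s m => ∃ c, S.Cw w u v c n s m) x a b := by
      intro a b k
      induction k with
      | rel a b k =>
        intro ha hb
        exact Relation.EqvGen.rel _ _ ⟨ha, hb, h.wi.cor_cw k⟩
      | refl a => intro _ _; exact Relation.EqvGen.refl _
      | symm a b _ ih => intro ha hb; exact (ih hb ha).symm
      | trans a b c k1 k2 i1 i2 =>
        intro ha hc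
        have hb := (key _ _ k1).1 ha
        exact (i1 ha hb).trans _ _ _ (i2 hb hc)
    exact main _ _ hL hn hm

end SyQ

end Pool.Agent.DI
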