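import Pool.Agent.DI.WallP
import Pool.Agent.DI.Nr

/-!
# A self piece which is reversed over a midpoint belongs to a thin soft (owner: helper78)

`Plc.not_fat`: if the number of the self pieces of the fat softs is the same for the raw slice, then a
soft with a piece which is fixed by an element which reverses the midpoint `u` is not fat.
-/

namespace Pool.Agent.DI

open MulAction
open Pool.Agent.SAF (InC SA orbs FinOrb oc Decomp SAn Conv exists_next TAct)
open Pool.Agent.SAG (IO Zt)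
open Pool.Agent.BT (PX PQ JS bey exits Ell mst Hyp mst_conv finite_of_hyp)
open Pool.Agent.BT.TA

namespace SyQ

variable {H V : Type} [Group H] [MulAction H V] {S : SyQ H V} {w u w' : S.X}

/-- a reversing element moves every pole -/
theorem Plc.rv_mid (p : S.Plc w u w') {z : V} {b : H} (bu : b • u = u) (bw : b • w = w')
    (bz : b • z = z) (hw : w ∈ S.J z) (hu : u ∈ S.J z) : S.Rv u z b := by
  refine ⟨bu, bz, fun a ha hba => ?_⟩
  have o := p.ovq
  have hb : ∀ t, S.D.G.Adj u t → b • t ≠ t := by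
    intro t ht
    rcases o.val t ht with rfl | rfl
    · rw [bw]
      exact o.ne.symm
    · rw [o.swap_w' bu bw]
      exact o.ne
  have hw' : w' ∈ S.J z := by
    have := S.js.smul b _ _ hw
    rwa [bw, bz] at this
  obtain ⟨q, q0, q1⟩ := S.one_ex (Or.inl ha : S.K.E z a)
  have hq : b • q = q := by
    refine S.one_eq (Or.inl ha : S.K.E z a) ?_ ?_ q0 q1
    · have := S.js.smul b _ _ q0
      rwa [bz] at this
    · have := S.js.smul b _ _ q1
      rwa [hba] at this
  have hqu := fix_only bu hb hq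
  rw [hqu] at q1
  exact exl ha hu q1 o.hw o.hw' o.ne hw hw'

/-- A SELF PIECE WHICH IS REVERSED OVER THE MIDPOINT BELONGS TO A THIN SOFT -/
theorem Plc.not_fat (p : S.Plc w u w') (hc : S.Conn) {hnb : S.NB} (hN : S.NRaw hnb w)
    (hle : (S.kfc hnb).nN ≤ (S.k0fc hc hnb w).nNP (S.FatK hnb w)) {z n : V} {b : H}
    (bu : b • u = u) (bw : b • w = w') (hw : w ∈ S.J z) (hu : u ∈ S.J z)
    (hpg : S.K.PG z n b) : ¬ (S.kfc hnb).Fat z := by
  intro hf
  obtain ⟨⟨a, ha⟩, hn, -, bz, hij⟩ := hpg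
  have hr := p.rv_mid bu bw bz hw hu
  obtain ⟨e, he, ey, ex⟩ := hN.lc z n a hn ha
  have hsf : (S.kfc hnb).Sf e := by
    refine ⟨he, b, by rw [ey, bz], ?_, ?_⟩
    · rw [ey]
      apply (kfc_IJ hnb).2
      have k1 : S.K.IJ z (b • n) (b • (S.kfc hnb).x e) := by
        have := ex.smul b
        rwa [bz] at this
      exact (ex.symm').trans' (hij.trans' k1)
    · have := he.2
      rw [ey] at this
      exact hr.2.2 _ this
  obtain ⟨k, -, -, e1, -, -⟩ := nN_raw_D1 hc hN hle hsf (by rw [ey]; exact hf)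
    (u := u) (g := b) (by rw [ey]; exact hu) (by rw [ey]; exact hr)
  exact p.ne k e1

/-- THE LAW `UqR` from its two cases -/
theorem Plc.uqR (p : S.Plc w u w') (hc : S.Conn) {hnb : S.NB} (hN : S.NRaw hnb w)
    (hle : (S.kfc hnb).nN ≤ (S.k0fc hc hnb w).nNP (S.FatK hnb w))
    (us : ∀ z, S.K.Snk z → S.K.VC z → w ∈ S.J z → u ∈ S.J z →
      ∃ A : SubMulAction H S.K.LE, S.Par A ∧ S.UqA A w u z)
    (ut : ∀ z n b, S.K.PG z n b → S.Rv u z b → w ∈ S.J z → u ∈ S.J z →
      ¬ (S.kfc hnb).Fat z → ∃ A : SubMulAction H S.K.LE, S.Par A ∧ S.UqA A w u z) :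
    S.UqR w u w' := by
  rintro z b bu bw bz hw hu (⟨h1, h2⟩ | ⟨n, hn⟩)
  · exact us z h1 h2 hw hu
  · exact ut z n b hn (p.rv_mid bu bw bz hw hu) hw hu (p.not_fat hc hN hle bu bw hw hu hn)

end SyQ

end Pool.Agent.DI
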