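import Pool.Agent.DI.P4V
import Pool.Agent.DI.WallG
import Pool.Agent.DI.C5PC
import Pool.Agent.DI.LineQ
import Pool.Agent.DI.UqA

/-!
# The wall theorem in case F (owner: helper78)

`S.Sy1 w` (good one-edge system), `S.Plc w u w'` (placed over the midpoint `u`), `S.CF u` (case F),
`S.UqR w u w'`: the corners of a reversed vertex `z` (a sink in a cell, or a self piece) which cross the
edge `w u` are one orbit (in an invariant set `A` which covers all corners). Then `S.WT w u w' v z1 z2 r`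
holds for some `v, z1, z2, r` (`Sy1.wt`), in particular the edge group is of type `D` (`Sy1.not_zt`).
-/

namespace Pool.Agent.DI

open MulAction
open Pool.Agent.SAF (InC SA orbs FinOrb oc Decomp SAn Conv exists_next TAct)
open Pool.Agent.SAG (IO Zt)
open Pool.Agent.BT (PX PQ JS bey exits Ell mst Hyp mst_conv finite_of_hyp)
open Pool.Agent.BT.TA

/-- an element with a fixed point has one in every invariant subtree -/
theorem fix_cv {H X : Type} [Group H] [MulAction H X] {G : SimpleGraph X} (hG : TAct H G)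
    {C : Set X} (hC : Conv G C) (ne : C.Nonempty) {b : H} (hb : ∀ c ∈ C, b • c ∈ C)
    (hb' : ∀ c ∈ C, b⁻¹ • c ∈ C) {u : X} (bu : b • u = u) : ∃ c ∈ C, b • c = c := by
  obtain ⟨p, ⟨hp, h⟩, huniq⟩ := Pool.Agent.BT.exists_proj hG.tree hC ne u
  refine ⟨p, hp, huniq _ ⟨hb p hp, fun c hc => ?_⟩⟩
  have h1 := h (b⁻¹ • c) (hb' c hc)
  have e1 := hG.dist_smul b u (b⁻¹ • c)
  have e2 := hG.dist_smul b p (b⁻¹ • c)
  have e3 := hG.dist_smul b u p
  rw [bu, smul_inv_smul] at e1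
  rw [smul_inv_smul] at e2
  rw [bu] at e3
  rw [e1, e2, e3]
  exact h1

namespace SyQ

variable {H V : Type} [Group H] [MulAction H V] {S : SyQ H V} {w u w' : S.X}

/-- the structure over a placed midpoint -/
theorem Plc.ovq (p : S.Plc w u w') : S.OvQ w u w' where
  hw := p.mp.mid.hw
  hw' := p.mp.mid.hw'
  ne := p.mp.mid.ne
  val := p.mp.mid.val
  u1 _ _ e hx hy := p.mp.u1 e hx hy
  pol _ hv := p.mp.ov_pole hv
  crs v a hv ha := by
    obtain ⟨g, hg, hgw⟩ := p.rev v hv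
    exact p.mp.rev_pole hv hg hgw ha

theorem Plc.noc (p : S.Plc w u w') : ∀ a q b y z, Qn S.P a q b y z →
    (u ∈ S.J a ∨ u ∈ S.J q) → (u ∈ S.J q ∨ u ∈ S.J b) →
      (u ∈ S.J b ∨ u ∈ S.J y) → (u ∈ S.J y ∨ u ∈ S.J z) → (u ∈ S.J z ∨ u ∈ S.J a) → False := by
  intro a q b y z hq h0 h1 h2 h3 h4
  refine p.mp.nc hq fun k => ?_
  fin_cases k
  · exact h0
  · exact h1
  · exact h2
  · exact h3
  · exact h4

theorem Plc.nl (p : S.Plc w u w') : ∀ a q b y, Q4 S.P a q b y → S.J q = {u} → S.J y = {u} →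
    False := by
  intro a q b y hq h1 h2
  have hqu : u ∈ S.J q := by rw [h1]; rfl
  have hyu : u ∈ S.J y := by rw [h2]; rfl
  have ha : u ∈ S.J a := by
    obtain ⟨p, p0, p1⟩ := S.one_ex hq.E1
    rwa [ne_mem h1 p1] at p0
  have hb : u ∈ S.J b := by
    obtain ⟨p, p0, p1⟩ := S.one_ex hq.E2
    rwa [ne_mem h1 p0] at p1
  exact p.mp.nsq hq ha hqu hb hyu

theorem Plc.bip (p : S.Plc w u w') : ∀ x y, S.D.G.Adj x y →
    (∃ h : H, h • w = x ∧ h • u = y) ∨ (∃ h : H, h • u = x ∧ h • w = y) := by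
  intro x y hxy
  obtain ⟨h, h1 | h1⟩ := p.one x y hxy
  · exact Or.inl ⟨h, h1⟩
  · exact Or.inr ⟨h, h1.2, h1.1⟩

/-- an element which fixes `u` and moves its neighbours fixes `u` only -/
theorem fix_only {b : H} (bu : b • u = u) (hb : ∀ t, S.D.G.Adj u t → b • t ≠ t) {c : S.X}
    (hc : b • c = c) : c = u := by
  by_contra hne
  obtain ⟨t, h1, h2⟩ := bey_of_ne (S := S) (fun e : u = c => hne e.symm)
  have h3 := S.bey_smul b h2
  rw [bu, hc] at h3
  have h4 := S.D.adj_smul b _ _ h1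
  rw [bu] at h4
  exact hb t h1 (S.bey_unique h4 h1 h3 h2)

variable (S) in
/-- THE LAW: a reversed vertex has one orbit of crossing corners -/
def UqR (w u w' : S.X) : Prop := ∀ (z : V) (b : H), b • u = u → b • w = w' → b • z = z →
  w ∈ S.J z → u ∈ S.J z → ((S.K.Snk z ∧ S.K.VC z) ∨ ∃ n, S.K.PG z n b) →
    ∃ A : SubMulAction H S.K.LE, S.Par A ∧ S.UqA A w u z

theorem Par.cov {A : SubMulAction H S.K.LE} (h : S.Par A) (z : V) :
    S.Cov (A : Set S.K.LE) z := by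
  intro n m hc
  obtain ⟨e, he⟩ := S.K.cor_LE.1 hc
  obtain ⟨e', h1, h2, h3⟩ := h e
  refine ⟨e', h1, ?_⟩
  rcases he with ⟨e0, e1, e2⟩ | ⟨e0, e1, e2⟩ <;> rw [e1] at h2 <;> rw [e0, e2] at h3 <;>
    rcases h3 with ⟨k0, k2⟩ | ⟨k0, k2⟩
  · exact Or.inl ⟨k0, h2, k2⟩
  · exact Or.inr ⟨k0, h2, k2⟩
  · exact Or.inr ⟨k0, h2, k2⟩
  · exact Or.inl ⟨k0, h2, k2⟩

theorem UqA.uqS {A : SubMulAction H S.K.LE} {w u : S.X} {z : V} (h : S.UqA A w u z) :
    S.UqS (A : Set S.K.LE) w u z := fun e he e' he' => h e e' he he'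

/-- the reversed vertex of case F -/
theorem Sy1.cf_pt (h : S.Sy1 w) (p : S.Plc w u w') (cf : S.CF u) : ∃ (b : H) (z : V),
    b • u = u ∧ b • w = w' ∧ b • z = z ∧ w ∈ S.J z ∧ u ∈ S.J z ∧
      ((S.K.Snk z ∧ S.K.VC z) ∨ ∃ n, S.K.PG z n b) := by
  obtain ⟨b, bu, hb, hF⟩ := cf
  have bw : b • w = w' := by
    have h1 := S.D.adj_smul b _ _ p.mp.mid.hw
    rw [bu] at h1
    rcases p.mp.mid.val _ h1 with k | k
    · exact absurd k (hb w p.mp.mid.hw)
    · exact k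
  have inv : ∀ z : V, b • z = z → (∀ c ∈ S.J z, b • c ∈ S.J z) ∧ ∀ c ∈ S.J z, b⁻¹ • c ∈ S.J z := by
    intro z hz
    constructor
    · intro c hc
      have := S.js.smul b z c hc
      rwa [hz] at this
    · intro c hc
      have := S.js.smul b⁻¹ z c hc
      rwa [inv_smul_eq_iff.2 hz.symm] at this
  have mem : ∀ z : V, b • z = z → u ∈ S.J z := by
    intro z hz
    obtain ⟨c, hc, hbc⟩ := fix_cv S.tact (S.js.conv z) (S.js.ne z) (inv z hz).1 (inv z hz).2 bu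
    rwa [fix_only bu hb hbc] at hc
  rcases hF with ⟨z, hs, hv, -, hz⟩ | ⟨y, n, hpg⟩
  · exact ⟨b, z, bu, bw, hz, (p.mp.snk z hs (mem z hz)).1, mem z hz, Or.inl ⟨hs, hv⟩⟩
  · have hy : b • y = y := hpg.2.2.2.1
    have hu := mem y hy
    have hne : S.J y ≠ {u} := by
      intro e
      obtain ⟨t, h1, -, h3, -⟩ := pz_mid p.mp e hpg
      exact hb t h1 h3
    have hw : w ∈ S.J y := by
      rcases p.mp.ex_w hu hne with k | k
      · exact k
      · have := S.js.smul b _ _ k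
        rwa [hy, p.ovq.swap_w' bu bw] at this
    exact ⟨b, y, bu, bw, hy, hw, hu, Or.inr ⟨n, hpg⟩⟩

theorem Sy1.side (h : S.Sy1 w) {z : V} {x y : S.X} (hxy : S.D.G.Adj x y) (hx : x ∈ S.J z)
    (hy : y ∈ S.J z) : (∃ a, S.K.ar z a) ∨
      (Hyp S.X (stabilizer H z) ∧ S.J z = mst S.D.G (stabilizer H z)) := by
  by_cases hs : ∃ a, S.K.ar z a
  · exact Or.inl hs
  · right
    push Not at hs
    have he : ¬ Ell H S.X z := by
      intro he
      obtain ⟨p, hp⟩ := h.gd.one z hs he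
      rw [hp] at hx hy
      exact hxy.ne ((Set.mem_singleton_iff.1 hx).trans (Set.mem_singleton_iff.1 hy).symm)
    exact ⟨hyp_of_not_ell he, h.gd.ax z hs he⟩

theorem Sy1.fin_soft (h : S.Sy1 w) {z a : V} {x y : S.X} (ha : S.K.ar z a)
    (hxy : S.D.G.Adj x y) (hx : x ∈ S.J z) (hy : y ∈ S.J z) : Finite ↥(stabilizer H z) := by
  refine pz_finite h.tog ha ?_
  rintro ⟨p, h1, -⟩
  rw [h1] at hx hy
  exact hxy.ne ((Set.mem_singleton_iff.1 hx).trans (Set.mem_singleton_iff.1 hy).symm)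

theorem Sy1.fin_edge (h : S.Sy1 w) {z : V} {x y : S.X} (hxy : S.D.G.Adj x y) (hx : x ∈ S.J z)
    (hy : y ∈ S.J z) : Finite ↥(stabilizer H z ⊓ stabilizer H x) := by
  rcases h.side hxy hx hy with ⟨a, ha⟩ | ⟨hn, -⟩
  · have := h.fin_soft ha hxy hx hy
    exact Finite.of_injective (Subgroup.inclusion (inf_le_left :
      stabilizer H z ⊓ stabilizer H x ≤ stabilizer H z)) (Subgroup.inclusion_injective _)
  · exact finite_of_hyp S.tact (S.K.stab z) hn inf_le_left (w := x) (fun b hb => hb.2)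

/-- the wall over the midpoint in case F -/
theorem Sy1.wc (h : S.Sy1 w) (p : S.Plc w u w') (uq : S.UqR w u w') (cf : S.CF u) :
    ∃ (v z : V) (r : H), S.WC w u w' v ∧ S.K.ar v z ∧ r • v = v ∧ r • z = z ∧ r • w = w' := by
  have o := p.ovq
  obtain ⟨b, z, bu, bw, bz, hw, hu, hz⟩ := h.cf_pt p cf
  obtain ⟨A, A2', A3'⟩ := uq z b bu bw bz hw hu hz
  have A2 := A2'.cov z
  have A3 := A3'.uqS
  have hs : (∃ a, S.K.ar z a) ∨ (S.J z = mst S.D.G (stabilizer H z) ∧ ∃ n, S.K.E z n) := by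
    rcases h.side o.hw hu hw with k | ⟨-, k⟩
    · exact Or.inl k
    · rcases hz with ⟨-, y, hy⟩ | ⟨n, hn⟩
      · obtain ⟨m, hm⟩ := GX.EC_iff.1 hy
        exact Or.inr ⟨k, y, hm.E1.symm⟩
      · exact Or.inr ⟨k, n, Or.inr hn.2.1⟩
  obtain ⟨v, r, hv, hvz, rv, rz, rw'⟩ := o.exists_lost p.noc p.nl hw hu bz bu bw (h.lc z)
    (A3.uqK A2) (o.nw bz bu bw (fun e he => A.smul_mem b he) A2 A3) hs
  refine ⟨v, z, r, o.wc p.noc p.nl hv hvz rv rz rw' (fun z _ => h.lc z) ?_ ?_, hvz, rv, rz, rw'⟩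
  · intro z' hz'
    obtain ⟨k1, k2⟩ := o.crs v z' hv hz'
    have k3 : u ∈ S.J z' := by
      obtain ⟨p, p0, p1⟩ := S.one_ex (Or.inl hz' : S.K.E v z')
      rwa [ne_mem hv p0] at p1
    exact (h.side o.hw k3 k1).imp id (fun t => t.2)
  · intro z' hz' rz'
    obtain ⟨k1, k2⟩ := o.crs v z' hv hz'
    have k3 : u ∈ S.J z' := by
      obtain ⟨p, p0, p1⟩ := S.one_ex (Or.inl hz' : S.K.E v z')
      rwa [ne_mem hv p0] at p1
    have ru : r • u = u := by
      have h1 := Js_smul (g := r) hv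
      rw [rv, hv] at h1
      exact (Set.singleton_injective h1).symm
    have hec : S.K.EC v z' := p.mp.ec (Or.inl hz')
    obtain ⟨A, B2, B3⟩ := uq z' r ru rw' rz' k1 k3 (by
      by_cases hs : ∃ a, S.K.ar z' a
      · exact Or.inr ⟨v, hs, hz', hec, rz', by rw [rv]; exact Relation.EqvGen.refl _⟩
      · push Not at hs
        exact Or.inl ⟨hs, v, p.mp.ec (Or.inr hz')⟩)
    exact B3.uqS.uqK (B2.cov z')

/-- the generators of the edge group have finite order -/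
theorem Sy1.gn_fin (h : S.Sy1 w) {v : V} (k : S.WC w u w' v) :
    ∀ g ∈ S.Gn w u v, ¬ IO g := by
  rintro g ⟨gw, gu, hg⟩ hio
  obtain ⟨z0, hz0⟩ := k.ov.pol v k.Jv
  have hvf : Finite ↥(stabilizer H v) := by
    refine pz_finite h.tog hz0 ?_
    rintro ⟨p, h1, h2⟩
    obtain ⟨a1, a2, a3⟩ := k.pole_cs hz0
    rw [h2] at a1 a2
    exact k.ov.hw.ne ((Set.mem_singleton_iff.1 a2).trans (Set.mem_singleton_iff.1 a1).symm)
  rcases hg with hg | ⟨z, hz, hg⟩
  · exact pz_nio hvf hg hio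
  · obtain ⟨a1, a2, a3⟩ := k.pole_cs hz
    have := h.fin_edge k.ov.hw.symm a1 a2
    exact Pool.Agent.SAG.not_IO_finite (⟨g, hg, gw⟩ : ↥(stabilizer H z ⊓ stabilizer H w))
      (io_coe.1 hio)

/-- THE WALL THEOREM: IN CASE F THE STEP IS THIN -/
theorem Sy1.wt (h : S.Sy1 w) (p : S.Plc w u w') (uq : S.UqR w u w') (cf : S.CF u) :
    ∃ (v z1 z2 : V) (r : H), S.WT w u w' v z1 z2 r := by
  obtain ⟨v, z1, r, wc, az1, rv, rz, rw'⟩ := h.wc p uq cf
  have o := wc.ov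
  have con := h.gd.conn
  have inf := h.inf w u o.hw.symm
  obtain ⟨z2, az2, hne⟩ := wc.exists_two con (fun z hz => by
    obtain ⟨a1, a2, -⟩ := wc.pole_cs hz
    exact h.fin_edge o.hw.symm a1 a2) inf az1
  have ru : r • u = u := by
    have h1 := Js_smul (g := r) wc.Jv
    rw [rv, wc.Jv] at h1
    exact (Set.singleton_injective h1).symm
  refine ⟨v, z1, z2, r, ?_⟩
  refine { wi := ⟨wc, con, p.bip, p.ne, p.noc, p.nl, az1, rv, rz, rw'⟩, zne := hne, az2 := az2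
           vfin := ?_, snk := ?_, light := ?_, dt := ?_, vis := ?_, lk := ?_ }
  · refine pz_finite h.tog az1 ?_
    rintro ⟨p, h1, h2⟩
    obtain ⟨a1, a2, a3⟩ := wc.pole_cs az1
    rw [h2] at a1 a2
    exact o.hw.ne ((Set.mem_singleton_iff.1 a2).trans (Set.mem_singleton_iff.1 a1).symm)
  · intro x hx
    by_cases he : Ell H S.X x
    · exact Or.inl (h.gd.one x hx he)
    right
    have hn := hyp_of_not_ell he
    have hJ := h.gd.ax x hx he
    refine ⟨?_, hn, hJ⟩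
    obtain ⟨q, hq⟩ := S.js.ne x
    obtain ⟨a, -, ha, -, hqa, -, -⟩ := mst_line S.tact hn (by rw [← hJ]; exact hq)
    rw [← hJ] at ha
    -- a translate crosses `w u`
    obtain ⟨g, hg⟩ : ∃ g : H, S.Cs w u (g • x) := by
      obtain ⟨k, ⟨k1, k2⟩ | ⟨k1, k2⟩⟩ := p.one q a hqa
      · refine ⟨k⁻¹, ?_, ?_⟩
        · have := S.js.smul k⁻¹ _ _ hq
          rwa [← k1, inv_smul_smul] at this
        · have := S.js.smul k⁻¹ _ _ ha
          rwa [← k2, inv_smul_smul] at this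
      · refine ⟨k⁻¹, ?_, ?_⟩
        · have := S.js.smul k⁻¹ _ _ ha
          rwa [← k1, inv_smul_smul] at this
        · have := S.js.smul k⁻¹ _ _ hq
          rwa [← k2, inv_smul_smul] at this
    obtain ⟨j, jw, ju, e⟩ := wc.adj con hg
    have hsx : ∀ a, ¬ S.K.ar (g • x) a := by
      intro a ha
      have := S.K.ar_smul g⁻¹ _ _ ha
      rw [inv_smul_smul] at this
      exact hx _ this
    have e1 : S.K.ar v (j⁻¹ • g • x) := by
      rcases e with e | e
      · have := S.K.ar_smul j⁻¹ _ _ e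
        rwa [inv_smul_smul] at this
      · exact absurd e (hsx _)
    have e2 := o.pole_eq az1 e1 rv rz
    obtain ⟨a1, a2, -⟩ := wc.pole_cs e1
    have e3 : DT (stabilizer H (j⁻¹ • g • x)) := by
      rcases h.side o.hw.symm a1 a2 with ⟨t, ht⟩ | ⟨k1, k2⟩
      · exfalso
        have := S.K.ar_smul j _ _ ht
        rw [smul_inv_smul] at this
        exact hsx _ this
      · exact dt_of_flip S.tact (S.K.stab _) k1 (r := r) e2 ru (w := w) (by rw [← k2]; exact a1)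
          (by rw [rw']; exact o.ne.symm)
    have e4 := (e3.smul j).smul g⁻¹
    rwa [smul_inv_smul, inv_smul_smul] at e4
  · intro x a y z ha hyz hy hz
    exact h.fin_soft ha hyz hy hz
  · exact ⟨S.D.edgeC _ _ o.hw.symm, inf, wc.not_zt con (h.gn_fin wc) inf⟩
  · intro n s hns _
    exact GX.EC_iff.1 (p.mp.ec (Or.inl hns))
  · intro x _ _ n m hn hm
    exact h.lc x n m (Or.inr hn) (Or.inr hm)

/-- in case F the edge group is not of type `Z` -/
theorem Sy1.not_zt (h : S.Sy1 w) (p : S.Plc w u w') (uq : S.UqR w u w') (cf : S.CF u) :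
    ¬ Zt ↥(stabilizer H w ⊓ stabilizer H u) := by
  obtain ⟨v, z1, r, wc, -⟩ := h.wc p uq cf
  exact wc.not_zt h.gd.conn (h.gn_fin wc) (h.inf w u wc.ov.hw.symm)

/-- the input `hN` of the law of `p_4` -/
theorem Psv.hN {O : S.OR w} {E : V → Prop} (h : S.Psv w O E)
    (uq : ∀ u w', S.Inv1 w u → S.Plc w u w' → S.UqR w u w') :
    ∀ u, S.Inv1 w u → S.CF u → ¬ Zt ↥(stabilizer H w ⊓ stabilizer H u) := by
  intro u i cf
  obtain ⟨w', p⟩ := h.mid u i
  exact h.not_zt p (uq u w' i p) cf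

/-- CASE F: the data of the thin step -/
theorem Psv.cf_wt {O : S.OR w} {E : V → Prop} (h : S.Psv w O E)
    (uq : ∀ u w', S.Inv1 w u → S.Plc w u w' → S.UqR w u w') {u : S.X} (i : S.Inv1 w u)
    (cf : S.CF u) : ∃ (w' : S.X) (v z1 z2 : V) (r : H), S.WT w u w' v z1 z2 r := by
  obtain ⟨w', p⟩ := h.mid u i
  obtain ⟨v, z1, z2, r, k⟩ := h.wt p (uq u w' i p) cf
  exact ⟨w', v, z1, z2, r, k⟩

end SyQ

end Pool.Agent.DI
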