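import Pool.Agent.DI.XtB
import Pool.Agent.DI.Thin2

/-!
# Walks of squares against positions

`P.W4 t`: `t = ((T, a), (q, n))`, `n, T, a, q` is a translate of a listed square. `P.ws i`: the number of the
symmetries of the walk of the listed square `i` (`1` or `2` in a state). For an invariant property `F` of
walks: `walks_count`: `N * oc H {t | P.W4 t ∧ F t}` is the sum over the listed squares of `w i` times the
number of the positions and directions with `F`, if `w i * P.ws i = N`.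
`cn_FL`, `cn_FL5`: orbits of flags against positions.
-/

namespace Pool.Agent.DI

open MulAction
open Pool.Agent.SAF (InC orbs FinOrb oc mk_eq_iff FinOrb_iff)

/-! ### counting orbits by representatives -/

section

variable {H Y X : Type} [Group H] [MulAction H Y] [Fintype X]

open Classical in
/-- orbits counted by representatives with weights -/
theorem oc_rep (wk : X → Y) (w : X → ℕ) (N : ℕ)
    (hc : ∀ x0 x : X, (∃ g : H, g • wk x0 = wk x) → w x0 = w x)
    (hw : ∀ x0, w x0 * (Finset.univ.filter (fun x => ∃ g : H, g • wk x0 = wk x)).card = N)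
    (F : Y → Prop) (hF : ∀ (g : H) (y : Y), F y → F (g • y)) :
    N * oc H {y | (∃ (g : H) (x : X), y = g • wk x) ∧ F y} =
      ∑ x ∈ Finset.univ.filter (fun x => F (wk x)), w x := by
  let q : X → orbitRel.Quotient H Y := fun x => omk H (wk x)
  let S : Finset X := Finset.univ.filter (fun x => F (wk x))
  have hq : ∀ x x' : X, q x = q x' ↔ ∃ g : H, g • wk x = wk x' := fun x x' =>
    eq_comm.trans mk_eq_iff
  have e1 : orbs H {y | (∃ (g : H) (x : X), y = g • wk x) ∧ F y} = ↑(S.image q) := by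
    ext c
    constructor
    · rintro ⟨y, ⟨⟨g, x, rfl⟩, hy⟩, rfl⟩
      refine Finset.mem_coe.2 (Finset.mem_image.2 ⟨x, ?_, ?_⟩)
      · have := hF g⁻¹ _ hy
        rw [inv_smul_smul] at this
        exact Finset.mem_filter.2 ⟨Finset.mem_univ _, this⟩
      · exact mk_eq_iff.2 ⟨g⁻¹, inv_smul_smul _ _⟩
    · intro h
      obtain ⟨x, hx, rfl⟩ := Finset.mem_image.1 (Finset.mem_coe.1 h)
      exact ⟨wk x, ⟨⟨1, x, (one_smul _ _).symm⟩, (Finset.mem_filter.1 hx).2⟩, rfl⟩
  have e2 : oc H {y | (∃ (g : H) (x : X), y = g • wk x) ∧ F y} = (S.image q).card := by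
    unfold oc
    rw [e1, Set.ncard_coe_finset]
  rw [e2]
  have e3 : ∑ x ∈ S, w x = ∑ c ∈ S.image q, ∑ x ∈ S.filter (fun x => q x = c), w x :=
    (Finset.sum_fiberwise_of_maps_to (fun x hx => Finset.mem_image_of_mem q hx) _).symm
  show N * (S.image q).card = ∑ x ∈ S, w x
  rw [e3]
  have e4 : ∀ c ∈ S.image q, ∑ x ∈ S.filter (fun x => q x = c), w x = N := by
    intro c hc'
    obtain ⟨x0, hx0, rfl⟩ := Finset.mem_image.1 hc'
    have e5 : S.filter (fun x => q x = q x0) =
        Finset.univ.filter (fun x => ∃ g : H, g • wk x0 = wk x) := by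
      ext x
      constructor
      · intro h
        obtain ⟨-, h⟩ := Finset.mem_filter.1 h
        exact Finset.mem_filter.2 ⟨Finset.mem_univ _, (hq _ _).1 h.symm⟩
      · intro h
        obtain ⟨-, g, hg⟩ := Finset.mem_filter.1 h
        refine Finset.mem_filter.2 ⟨Finset.mem_filter.2 ⟨Finset.mem_univ _, ?_⟩, ?_⟩
        · have := hF g _ (Finset.mem_filter.1 hx0).2
          rwa [hg] at this
        · exact ((hq _ _).2 ⟨g, hg⟩).symm
    rw [e5, ← hw x0]
    rw [Finset.sum_congr rfl (g := fun _ => w x0)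
      (fun x hx => (hc x0 x (Finset.mem_filter.1 hx).2).symm)]
    rw [Finset.sum_const, smul_eq_mul, mul_comm]
  rw [Finset.sum_congr rfl e4, Finset.sum_const, smul_eq_mul, mul_comm]

end

namespace P45

variable {H V : Type} [Group H] [MulAction H V] {K : GX H V} (P : P45 K)

/-! ### pointed oriented walks of squares -/

/-- `((T, a), (q, n))` for the translates `n, T, a, q` of listed squares -/
def W4 (t : (V × V) × (V × V)) : Prop := Q4 P t.2.2 t.1.1 t.1.2 t.2.1

/-- the next point -/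
def wrot (t : (V × V) × (V × V)) : (V × V) × (V × V) := ((t.1.2, t.2.1), (t.2.2, t.1.1))

/-- the other direction -/
def wref (t : (V × V) × (V × V)) : (V × V) × (V × V) := ((t.1.2, t.1.1), (t.2.2, t.2.1))

theorem wrot_smul (h : H) (t : (V × V) × (V × V)) : wrot (h • t) = h • wrot t := rfl

theorem wref_smul (h : H) (t : (V × V) × (V × V)) : wref (h • t) = h • wref t := rfl

theorem wrot_inj {s t : (V × V) × (V × V)} (h : wrot s = wrot t) : s = t := by
  obtain ⟨⟨a, b⟩, ⟨c, d⟩⟩ := s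
  obtain ⟨⟨a', b'⟩, ⟨c', d'⟩⟩ := t
  simp only [wrot, Prod.mk.injEq] at h
  obtain ⟨⟨h1, h2⟩, ⟨h3, h4⟩⟩ := h
  subst h1 h2 h3 h4
  rfl

theorem wref_inj {s t : (V × V) × (V × V)} (h : wref s = wref t) : s = t := by
  obtain ⟨⟨a, b⟩, ⟨c, d⟩⟩ := s
  obtain ⟨⟨a', b'⟩, ⟨c', d'⟩⟩ := t
  simp only [wref, Prod.mk.injEq] at h
  obtain ⟨⟨h1, h2⟩, ⟨h3, h4⟩⟩ := h
  subst h1 h2 h3 h4
  rfl

/-- the walk of the listed square `i` with a point and a direction -/
def wk (i : K.I) (x : Fin 4 × Bool) : (V × V) × (V × V) :=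
  if x.2 = true then ((P.qt i (x.1 + 1), P.qt i (x.1 + 2)), (P.qt i (x.1 + 3), P.qt i x.1))
  else ((P.qt i (x.1 + 2), P.qt i (x.1 + 1)), (P.qt i x.1, P.qt i (x.1 + 3)))

def xrot (x : Fin 4 × Bool) : Fin 4 × Bool := if x.2 = true then (x.1 + 1, true) else (x.1 + 3, false)

def xref (x : Fin 4 × Bool) : Fin 4 × Bool := (x.1, !x.2)

theorem xrot_inj : Function.Injective xrot := by
  unfold xrot
  decide

theorem xrot_surj : Function.Surjective xrot := by
  unfold xrot
  decide

theorem xref_inj : Function.Injective xref := by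
  unfold xref
  decide

theorem xref_surj : Function.Surjective xref := by
  unfold xref
  decide

theorem wk_rot (i : K.I) (x : Fin 4 × Bool) : P.wk i (xrot x) = wrot (P.wk i x) := by
  obtain ⟨j, b⟩ := x
  cases b <;> fin_cases j <;> rfl

theorem wk_ref (i : K.I) (x : Fin 4 × Bool) : P.wk i (xref x) = wref (P.wk i x) := by
  obtain ⟨j, b⟩ := x
  cases b <;> fin_cases j <;> rfl

open Classical in
/-- the number of the points and directions which are translates of the first one -/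
noncomputable def wcl (i : K.I) (x0 : Fin 4 × Bool) : ℕ :=
  (Finset.univ.filter (fun x => ∃ g : H, g • P.wk i x0 = P.wk i x)).card

/-- THE NUMBER OF THE SYMMETRIES of the walk of `i` -/
noncomputable def ws (i : K.I) : ℕ := P.wcl i (0, true)

theorem wcl_rot (i : K.I) (x0 : Fin 4 × Bool) : P.wcl i (xrot x0) = P.wcl i x0 := by
  classical
  unfold wcl
  symm
  refine Finset.card_bij (fun x _ => xrot x) ?_ ?_ ?_
  · intro x hx
    obtain ⟨-, g, hg⟩ := Finset.mem_filter.1 hx
    refine Finset.mem_filter.2 ⟨Finset.mem_univ _, g, ?_⟩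
    rw [wk_rot, wk_rot, ← wrot_smul, hg]
  · intro x _ y _ h
    exact xrot_inj h
  · intro y hy
    obtain ⟨-, g, hg⟩ := Finset.mem_filter.1 hy
    obtain ⟨x, rfl⟩ := xrot_surj y
    refine ⟨x, Finset.mem_filter.2 ⟨Finset.mem_univ _, g, wrot_inj ?_⟩, rfl⟩
    rw [wrot_smul, ← wk_rot, hg, wk_rot]

theorem wcl_ref (i : K.I) (x0 : Fin 4 × Bool) : P.wcl i (xref x0) = P.wcl i x0 := by
  classical
  unfold wcl
  symm
  refine Finset.card_bij (fun x _ => xref x) ?_ ?_ ?_
  · intro x hx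
    obtain ⟨-, g, hg⟩ := Finset.mem_filter.1 hx
    refine Finset.mem_filter.2 ⟨Finset.mem_univ _, g, ?_⟩
    rw [wk_ref, wk_ref, ← wref_smul, hg]
  · intro x _ y _ h
    exact xref_inj h
  · intro y hy
    obtain ⟨-, g, hg⟩ := Finset.mem_filter.1 hy
    obtain ⟨x, rfl⟩ := xref_surj y
    refine ⟨x, Finset.mem_filter.2 ⟨Finset.mem_univ _, g, wref_inj ?_⟩, rfl⟩
    rw [wref_smul, ← wk_ref, hg, wk_ref]

/-- all points and directions have the same number of translates -/
theorem wcl_eq (i : K.I) (x0 : Fin 4 × Bool) : P.wcl i x0 = P.ws i := by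
  have h1 : P.wcl i (1, true) = P.ws i := P.wcl_rot i (0, true)
  have h2 : P.wcl i (2, true) = P.ws i := (P.wcl_rot i (1, true)).trans h1
  have h3 : P.wcl i (3, true) = P.ws i := (P.wcl_rot i (2, true)).trans h2
  obtain ⟨j, b⟩ := x0
  have ht : ∀ j : Fin 4, P.wcl i (j, true) = P.ws i := by
    intro j
    fin_cases j
    · rfl
    · exact h1
    · exact h2
    · exact h3
  cases b
  · exact (P.wcl_ref i (j, true)).trans (ht j)
  · exact ht j

theorem ws_pos (i : K.I) : 0 < P.ws i := by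
  classical
  unfold ws wcl
  exact Finset.card_pos.2 ⟨(0, true), Finset.mem_filter.2 ⟨Finset.mem_univ _, 1, one_smul _ _⟩⟩

variable {P}

theorem wk_W4 {i : K.I} (hi : P.sq i) (x : Fin 4 × Bool) : P.W4 (P.wk i x) := by
  obtain ⟨j, b⟩ := x
  have h := Q4_qt (P := P) (1 : H) hi j
  simp only [one_smul] at h
  cases b
  · exact h.rot.symm
  · exact h

theorem W4.smul (g : H) {t : (V × V) × (V × V)} (h : P.W4 t) : P.W4 (g • t) := Q4.smul g h

/-- every walk is a translate of the walk of a listed square -/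
theorem W4.rep {t : (V × V) × (V × V)} (h : P.W4 t) :
    ∃ (g : H) (i : K.I) (x : Fin 4 × Bool), P.sq i ∧ t = g • P.wk i x := by
  obtain ⟨g, i, j, hi, ⟨h1, h2, h3, h4⟩ | ⟨h1, h2, h3, h4⟩⟩ := h
  · exact ⟨g, i, (j, true), hi, Prod.ext (Prod.ext h2 h3) (Prod.ext h4 h1)⟩
  · have a1 : ∀ j : Fin 4, j + 3 + 2 = j + 1 := by decide
    have a2 : ∀ j : Fin 4, j + 3 + 1 = j := by decide
    have a3 : ∀ j : Fin 4, j + 3 + 3 = j + 2 := by decide
    refine ⟨g, i, (j + 3, false), hi, ?_⟩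
    show t = g • ((P.qt i (j + 3 + 2), P.qt i (j + 3 + 1)), (P.qt i (j + 3), P.qt i (j + 3 + 3)))
    rw [a1, a2, a3]
    exact Prod.ext (Prod.ext h2 h1) (Prod.ext h4 h3)

/-- translates of walks of listed squares: the squares are parallel -/
theorem wk_pl {i i' : K.I} (hi : P.sq i) (hi' : P.sq i') {x x' : Fin 4 × Bool} {g : H}
    (h : g • P.wk i x = P.wk i' x') : P.Pl i i' := by
  have rt : ∀ {x x' : Fin 4 × Bool}, g • P.wk i x = P.wk i' x' →
      g • P.wk i (xrot x) = P.wk i' (xrot x') := by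
    intro x x' h
    rw [wk_rot, wk_rot, ← wrot_smul, h]
  have rf : ∀ {x x' : Fin 4 × Bool}, g • P.wk i x = P.wk i' x' →
      g • P.wk i (xref x) = P.wk i' (xref x') := by
    intro x x' h
    rw [wk_ref, wk_ref, ← wref_smul, h]
  have k1 : ∀ {j : Fin 4} {x' : Fin 4 × Bool}, g • P.wk i (j, true) = P.wk i' x' →
      ∃ x', g • P.wk i (0, true) = P.wk i' x' := by
    intro j x' h
    fin_cases j
    · exact ⟨x', h⟩
    · exact ⟨_, rt (rt (rt h))⟩
    · exact ⟨_, rt (rt h)⟩
    · exact ⟨_, rt h⟩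
  have k2 : ∃ x', g • P.wk i (0, true) = P.wk i' x' := by
    obtain ⟨j, b⟩ := x
    cases b
    · exact k1 (rf h)
    · exact k1 h
  obtain ⟨⟨j, b⟩, h⟩ := k2
  refine ⟨hi, hi', g, ?_⟩
  have e1 := congrArg (fun t : (V × V) × (V × V) => t.1.1) h
  have e2 := congrArg (fun t : (V × V) × (V × V) => t.1.2) h
  have e3 := congrArg (fun t : (V × V) × (V × V) => t.2.1) h
  have e0 := congrArg (fun t : (V × V) × (V × V) => t.2.2) h
  cases b
  · refine ⟨j + 3, Or.inr fun m => ?_⟩
    have e0 : g • P.qt i 0 = P.qt i' (j + 3) := e0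
    have e1 : g • P.qt i 1 = P.qt i' (j + 2) := e1
    have e2 : g • P.qt i 2 = P.qt i' (j + 1) := e2
    have e3 : g • P.qt i 3 = P.qt i' j := e3
    have a1 : j + 3 - 1 = j + 2 := by
      have : ∀ j : Fin 4, j + 3 - 1 = j + 2 := by decide
      exact this j
    have a2 : j + 3 - 2 = j + 1 := by
      have : ∀ j : Fin 4, j + 3 - 2 = j + 1 := by decide
      exact this j
    have a3 : j + 3 - 3 = j := by
      have : ∀ j : Fin 4, j + 3 - 3 = j := by decide
      exact this j
    fin_cases m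
    · show g • P.qt i 0 = P.qt i' (j + 3 - 0)
      rw [sub_zero, e0]
    · show g • P.qt i 1 = P.qt i' (j + 3 - 1)
      rw [a1, e1]
    · show g • P.qt i 2 = P.qt i' (j + 3 - 2)
      rw [a2, e2]
    · show g • P.qt i 3 = P.qt i' (j + 3 - 3)
      rw [a3, e3]
  · refine ⟨j, Or.inl fun m => ?_⟩
    have e0 : g • P.qt i 0 = P.qt i' j := e0
    have e1 : g • P.qt i 1 = P.qt i' (j + 1) := e1
    have e2 : g • P.qt i 2 = P.qt i' (j + 2) := e2
    have e3 : g • P.qt i 3 = P.qt i' (j + 3) := e3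
    fin_cases m
    · show g • P.qt i 0 = P.qt i' (0 + j)
      rw [zero_add, e0]
    · show g • P.qt i 1 = P.qt i' (1 + j)
      rw [add_comm, e1]
    · show g • P.qt i 2 = P.qt i' (2 + j)
      rw [add_comm, e2]
    · show g • P.qt i 3 = P.qt i' (3 + j)
      rw [add_comm, e3]

section

variable (hp : P.NoPl)

include hp

open Classical in
/-- WALKS AGAINST POSITIONS: `w i * ws i = N` -/
theorem walks_count (w : K.I → ℕ) (N : ℕ) (hw : ∀ i, P.sq i → w i * P.ws i = N)
    (F : (V × V) × (V × V) → Prop) (hF : ∀ (g : H) t, F t → F (g • t)) :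
    N * oc H {t | P.W4 t ∧ F t} =
      ∑ i ∈ Finset.univ.filter (fun i => P.sq i),
        w i * (Finset.univ.filter (fun x : Fin 4 × Bool => F (P.wk i x))).card := by
  let X : Type := {i : K.I // P.sq i} × (Fin 4 × Bool)
  let k : X → (V × V) × (V × V) := fun x => P.wk x.1.1 x.2
  have e1 : {t | P.W4 t ∧ F t} = {t | (∃ (g : H) (x : X), t = g • k x) ∧ F t} := by
    ext t
    constructor
    · rintro ⟨h1, h2⟩
      obtain ⟨g, i, x, hi, rfl⟩ := h1.rep
      exact ⟨⟨g, (⟨i, hi⟩, x), rfl⟩, h2⟩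
    · rintro ⟨⟨g, x, rfl⟩, h2⟩
      exact ⟨(wk_W4 x.1.2 x.2).smul g, h2⟩
  rw [e1]
  have e2 := oc_rep (H := H) k (fun x => w x.1.1) N ?_ ?_ F hF
  · rw [e2]
    rw [Finset.sum_filter, Fintype.sum_prod_type]
    have e3 : ∀ i : {i : K.I // P.sq i}, (∑ x : Fin 4 × Bool, if F (k (i, x)) then w i.1 else 0) =
        w i.1 * (Finset.univ.filter (fun x : Fin 4 × Bool => F (P.wk i.1 x))).card := by
      intro i
      rw [← Finset.sum_filter, Finset.sum_const, smul_eq_mul, mul_comm]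
    rw [Finset.sum_congr rfl (fun i _ => e3 i)]
    exact (Finset.sum_subtype (Finset.univ.filter (fun i => P.sq i)) (fun i => by simp)
      (fun i => w i * (Finset.univ.filter (fun x : Fin 4 × Bool => F (P.wk i x))).card)).symm
  · rintro ⟨i, x⟩ ⟨i', x'⟩ ⟨g, hg⟩
    exact congrArg w (hp _ _ (wk_pl i.2 i'.2 hg))
  · rintro ⟨i, x⟩
    rw [← hw i.1 i.2, ← P.wcl_eq i.1 x]
    congr 1
    unfold wcl
    refine Finset.card_bij (fun y _ => y.2) ?_ ?_ ?_
    · rintro ⟨i', x'⟩ hx
      obtain ⟨-, g, hg⟩ := Finset.mem_filter.1 hx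
      have e := hp _ _ (wk_pl i.2 i'.2 hg)
      refine Finset.mem_filter.2 ⟨Finset.mem_univ _, g, ?_⟩
      rw [e]
      have hg : g • P.wk i.1 x = P.wk i'.1 x' := hg
      rw [e] at hg
      exact hg
    · rintro ⟨i1, x1⟩ h1 ⟨i2, x2⟩ h2 e
      obtain ⟨-, g1, hg1⟩ := Finset.mem_filter.1 h1
      obtain ⟨-, g2, hg2⟩ := Finset.mem_filter.1 h2
      have e1 := hp _ _ (wk_pl i.2 i1.2 hg1)
      have e2 := hp _ _ (wk_pl i.2 i2.2 hg2)
      exact Prod.ext (Subtype.ext (e1.symm.trans e2)) e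
    · intro y hy
      obtain ⟨-, g, hg⟩ := Finset.mem_filter.1 hy
      exact ⟨(i, y), Finset.mem_filter.2 ⟨Finset.mem_univ _, g, hg⟩, rfl⟩

end

end P45

end Pool.Agent.DI
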