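import Pool.Agent.DI.XSc

/-!
# The exc-law of the raw slices

`SyQ.SinkH S`: the types of the sinks. `pexc_le`: the pole excess of `K` is at most the sum of the pole
excesses of the raw slices; `pexc_eq`: in the equality case nothing is gained at any component;
`TS_of_eq`: [TS]. The statements about the components of the vertices with poles are hypotheses here.
-/

namespace Pool.Agent.DI

open MulAction
open Pool.Agent.SAF (InC orbs FinOrb oc Decomp SAn SA Conv hull dist_edge FinOrb_iff exists_next TAct)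
open Pool.Agent.SAG (IO Zt)
open Pool.Agent.BT (PX PQ JS bey exits mst Hyp finite_of_hyp)
open Pool.Agent.BT.TA

namespace JM

variable {J T Ed : Type} [Group J] [MulAction J T] [MulAction J Ed] (M : JM J T Ed)

/-- components of representatives in `R` suffice -/
theorem exists_rep_on {R : T → Prop} (hR : ∀ x, ∃ y, R y ∧ Relation.EqvGen M.st x y) (x : T)
    (hx : R x) : ∃ r : M.fg.C → T, (∀ c, M.fg.c (oq J (r c)) = c) ∧ (∀ c, R (r c)) ∧
      r (M.fg.c (oq J x)) = x := by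
  classical
  have h1 : ∀ c : M.fg.C, ∃ y : T, M.fg.c (oq J y) = c ∧ R y := by
    intro c
    obtain ⟨q, rfl⟩ := FG.c_surj c
    obtain ⟨z, rfl⟩ := oq_surj q
    obtain ⟨y, hy, h⟩ := hR z
    exact ⟨y, (M.c_of_eqv h).symm, hy⟩
  choose r hr hr' using h1
  refine ⟨fun c => if c = M.fg.c (oq J x) then x else r c, fun c => ?_, fun c => ?_, if_pos rfl⟩
  · show M.fg.c (oq J (if c = M.fg.c (oq J x) then x else r c)) = c
    split_ifs with h
    · exact h.symm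
    · exact hr c
  · show R (if c = M.fg.c (oq J x) then x else r c)
    split_ifs with h
    · exact hx
    · exact hr' c

theorem exc_le_on [Fintype M.fg.N] [∀ x : T, Fintype (M.comp x).fg.N] {D P : Set M.fg.N}
    {e : M.fg.N → ℕ} {R : T → Prop} (hR : ∀ x, ∃ y, R y ∧ Relation.EqvGen M.st x y)
    (h : ∀ x : T, R x →
      (M.comp x).fg.exc (M.rs x P) ≤ (M.comp x).fg.aftE (M.rs x D) (M.re x e)) :
    M.fg.exc P ≤ M.fg.aftE D e := by
  classical
  have := Fintype.ofFinite M.fg.C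
  have h1 : ∀ c : M.fg.C, ∃ y : T, M.fg.c (oq J y) = c ∧ R y := by
    intro c
    obtain ⟨q, rfl⟩ := FG.c_surj c
    obtain ⟨z, rfl⟩ := oq_surj q
    obtain ⟨y, hy, h⟩ := hR z
    exact ⟨y, (M.c_of_eqv h).symm, hy⟩
  choose r hr hr' using h1
  rw [M.aft_sum r hr, M.exc_sum r hr]
  exact Finset.sum_le_sum (fun c _ => h (r c) (hr' c))

theorem exc_eq_on [Fintype M.fg.N] [∀ x : T, Fintype (M.comp x).fg.N] {D P : Set M.fg.N}
    {e : M.fg.N → ℕ} {R : T → Prop} (hR : ∀ x, ∃ y, R y ∧ Relation.EqvGen M.st x y)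
    (h : ∀ x : T, R x →
      (M.comp x).fg.exc (M.rs x P) ≤ (M.comp x).fg.aftE (M.rs x D) (M.re x e))
    (h0 : M.fg.aftE D e ≤ M.fg.exc P) (x : T) (hx : R x) :
    (M.comp x).fg.exc (M.rs x P) = (M.comp x).fg.aftE (M.rs x D) (M.re x e) := by
  classical
  have := Fintype.ofFinite M.fg.C
  obtain ⟨r, hr, hr', hx'⟩ := M.exists_rep_on hR x hx
  have h1 := le_antisymm (M.exc_le_on hR h) h0
  rw [M.aft_sum r hr, M.exc_sum r hr] at h1
  have h2 := (Finset.sum_eq_sum_iff_of_le (fun c _ => h (r c) (hr' c))).1 h1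
    (M.fg.c (oq J x)) (Finset.mem_univ _)
  rw [hx'] at h2
  exact h2

end JM

namespace SyQ

variable {H V : Type} [Group H] [MulAction H V]

/-- the private poles in the contracted graph -/
def PL (S : SyQ H V) : Set S.LPG.fg.N := S.LPG.imN (S.K.pc.cim S.AJ S.K.PO)

/-- the types of the sinks -/
structure SinkH (S : SyQ H V) : Prop where
  lc : ∀ y, (∀ a, ¬ S.K.ar y a) → S.K.LC y
  ty : ∀ y, (∀ a, ¬ S.K.ar y a) → (∃ p, S.J y = {p}) ∨
    (Hyp S.X (stabilizer H y) ∧ S.J y = mst S.D.G (stabilizer H y) ∧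
      (DT (stabilizer H y) ∨ (Infinite ↥(stabilizer H y) ∧ Zt ↥(stabilizer H y))))

variable {S : SyQ H V}

/-- in-nodes are not private poles -/
theorem lp_PL {y n : V} (h : S.K.ar n y) : (oq H (S.lp h) : S.LPG.fg.N) ∉ S.PL := by
  intro k
  have k1 := S.LPG.mem_imN.1 k
  obtain ⟨t, ht, k2⟩ := k1
  obtain ⟨p, h1, h2⟩ := lp_ex h
  have e : S.K.pc.ct S.AJ t = S.K.pc.ct S.AJ ⟨PN.inn y n, h⟩ := k2
  obtain ⟨y', n', k3, -, -⟩ := (Pl_ct e p).2 (Pl_inn.2 ⟨h1, h2⟩)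
  exact S.K.not_PO k3 ht

/-- every node is connected with an in-node -/
theorem ex_lp (x : S.K.pc.CT S.AJ) : ∃ z, (∃ y n, ∃ h : S.K.ar n y, z = S.lp h) ∧
    Relation.EqvGen S.LPG.st x z := by
  obtain ⟨t, rfl⟩ := S.K.pc.ct_surj x
  obtain ⟨y, n, h, k, -⟩ := S.K.exists_inn t
  exact ⟨_, ⟨y, n, h, rfl⟩, (JM.con_eqv _ S.AJ).2 k⟩

section law

variable (hc : S.Conn) (hnb : S.NB) {ι : Type} (w : ι → S.X)
  (hw : ∀ (i j : ι) (g : H), g • w i = w j → i = j)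

theorem PL_sub : S.PL ⊆ (cutF hc hnb w hw).D := by
  intro q hq
  obtain ⟨x, rfl⟩ := oq_surj q
  obtain ⟨t, ht, rfl⟩ := S.LPG.mem_imN.1 hq
  refine (mem_D hc hnb w hw).2 ?_
  rintro i ⟨y, n, h, -⟩
  exact S.K.not_PO h ht

/-- what is used about the components of the vertices with poles -/
def SoftLe : Prop := ∀ y n (h : S.K.ar n y), (∃ a, S.K.ar y a) →
  ∀ [Fintype (S.LPG.comp (S.lp h)).fg.N],
    (S.LPG.comp (S.lp h)).fg.exc (S.LPG.rs (S.lp h) S.PL) ≤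
      (S.LPG.comp (S.lp h)).fg.aftE (S.LPG.rs (S.lp h) S.PL) (S.LPG.re (S.lp h) (exE hc hnb w hw))

/-- the sum as a contribution -/
theorem sum_aftE [Fintype ι] [Fintype S.LPG.fg.N] : ∑ i, (S.k0 hc (w i)).pexc =
    S.LPG.fg.aftE S.PL (exE hc hnb w hw) := by
  rw [pexc_sum hc hnb w hw]
  exact S.LPG.fg.aftE_lost (PL_sub hc hnb w hw) _

theorem comp_le (hS : S.SinkH) (hL : S.Lost w) (hs : SoftLe hc hnb w hw) {y n : V}
    (h : S.K.ar n y) [Fintype (S.LPG.comp (S.lp h)).fg.N] :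
    (S.LPG.comp (S.lp h)).fg.exc (S.LPG.rs (S.lp h) S.PL) ≤
      (S.LPG.comp (S.lp h)).fg.aftE (S.LPG.rs (S.lp h) S.PL)
        (S.LPG.re (S.lp h) (exE hc hnb w hw)) := by
  by_cases hy : ∃ a, S.K.ar y a
  · exact hs y n h hy
  push Not at hy
  have E := exE_ex hc hnb w hw hL
  rcases hS.ty y hy with ⟨p, hp⟩ | ⟨h1, h2, h3 | ⟨h3, h4⟩⟩
  · obtain ⟨k1, k2⟩ := sink_ell (P := S.PL) (fun _ _ k => lp_PL k) E hy h hp
    rw [k1, k2]
  · obtain ⟨k1, k2, -⟩ := sink_D (P := S.PL) (fun _ _ k => lp_PL k) E hy (hS.lc y hy) h h1 h2 h3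
    rw [k1]
    exact k2
  · obtain ⟨k1, k2, -⟩ := sink_Z (P := S.PL) (fun _ _ k => lp_PL k) E hy (hS.lc y hy) h h1 h3 h4
    rw [k1]
    exact k2

/-- THE LAW -/
theorem pexc_le [Fintype ι] (hS : S.SinkH) (hL : S.Lost w) (hs : SoftLe hc hnb w hw) :
    S.K.pexc ≤ ∑ i, (S.k0 hc (w i)).pexc := by
  have hf : Fintype S.LPG.fg.N := Fintype.ofFinite _
  have hf' : ∀ x, Fintype (S.LPG.comp x).fg.N := fun x => Fintype.ofFinite _
  rw [sum_aftE, pexc_K]
  refine S.LPG.exc_le_on (R := fun z => ∃ y n, ∃ h : S.K.ar n y, z = S.lp h) ex_lp ?_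
  rintro _ ⟨y, n, h, rfl⟩
  exact comp_le hc hnb w hw hS hL hs h

/-- THE EQUALITY CASE: nothing is gained at any component -/
theorem pexc_eq [Fintype ι] (hS : S.SinkH) (hL : S.Lost w) (hs : SoftLe hc hnb w hw)
    (h0 : ∑ i, (S.k0 hc (w i)).pexc ≤ S.K.pexc) {y n : V} (h : S.K.ar n y)
    [hF : Fintype (S.LPG.comp (S.lp h)).fg.N] :
    (S.LPG.comp (S.lp h)).fg.exc (S.LPG.rs (S.lp h) S.PL) =
      (S.LPG.comp (S.lp h)).fg.aftE (S.LPG.rs (S.lp h) S.PL)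
        (S.LPG.re (S.lp h) (exE hc hnb w hw)) := by
  have hf : Fintype S.LPG.fg.N := Fintype.ofFinite _
  have hf' : ∀ x, Fintype (S.LPG.comp x).fg.N := fun x => Fintype.ofFinite _
  rw [sum_aftE hc hnb w hw, pexc_K] at h0
  have key := S.LPG.exc_eq_on (R := fun z => ∃ y n, ∃ h : S.K.ar n y, z = S.lp h) ex_lp
    (P := S.PL) (D := S.PL) (e := exE hc hnb w hw) (by
      rintro _ ⟨y, n, h, rfl⟩
      exact comp_le hc hnb w hw hS hL hs h) h0 (S.lp h) ⟨y, n, h, rfl⟩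
  rw [Subsingleton.elim (hf' (S.lp h)) hF] at key
  exact key

/-- sinks in the equality case -/
theorem full_sink [Fintype ι] (hS : S.SinkH) (hL : S.Lost w) (hs : SoftLe hc hnb w hw)
    (h0 : ∑ i, (S.k0 hc (w i)).pexc ≤ S.K.pexc) {y n : V} (hy : ∀ a, ¬ S.K.ar y a)
    (h : S.K.ar n y) {p u : S.X} (hp : p ∈ S.J y) (hn : p ∈ S.J n) (hu : S.D.G.Adj p u)
    (hu' : u ∈ S.J y) : Full (exE hc hnb w hw) p h := by
  have hf' : Fintype (S.LPG.comp (S.lp h)).fg.N := Fintype.ofFinite _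
  have key := pexc_eq hc hnb w hw hS hL hs h0 h
  have E := exE_ex hc hnb w hw hL
  rcases hS.ty y hy with ⟨q, hq⟩ | ⟨h1, h2, h3 | ⟨h3, h4⟩⟩
  · rw [hq] at hp hu'
    rw [Set.mem_singleton_iff.1 hp, Set.mem_singleton_iff.1 hu'] at hu
    exact absurd rfl hu.ne
  · obtain ⟨k1, k2, k3⟩ := sink_D (P := S.PL) (fun _ _ k => lp_PL k) E hy (hS.lc y hy) h h1 h2 h3
    exact (k3 (key.symm.trans k1)).2 n h p hp hn
  · obtain ⟨k1, k2, k3⟩ := sink_Z (P := S.PL) (fun _ _ k => lp_PL k) E hy (hS.lc y hy) h h1 h3 h4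
    exact Or.inl ((k3 (key.symm.trans k1)).2 n h)

/-- what is used about the equality case at the vertices with poles which cross an edge -/
def SoftEq : Prop := ∀ y n (h : S.K.ar n y), (∃ a, S.K.ar y a) →
  ∀ p u, p ∈ S.J y → p ∈ S.J n → S.D.G.Adj p u → u ∈ S.J y →
  ∀ [Fintype (S.LPG.comp (S.lp h)).fg.N],
    (S.LPG.comp (S.lp h)).fg.exc (S.LPG.rs (S.lp h) S.PL) =
      (S.LPG.comp (S.lp h)).fg.aftE (S.LPG.rs (S.lp h) S.PL)
        (S.LPG.re (S.lp h) (exE hc hnb w hw)) → Full (exE hc hnb w hw) p h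

theorem full_of_eq [Fintype ι] (hS : S.SinkH) (hL : S.Lost w) (hs : SoftLe hc hnb w hw)
    (hq : SoftEq hc hnb w hw) (h0 : ∑ i, (S.k0 hc (w i)).pexc ≤ S.K.pexc) {y n : V}
    (h : S.K.ar n y) {p u : S.X} (hp : p ∈ S.J y) (hn : p ∈ S.J n) (hu : S.D.G.Adj p u)
    (hu' : u ∈ S.J y) : Full (exE hc hnb w hw) p h := by
  by_cases hy : ∃ a, S.K.ar y a
  · have hf' : Fintype (S.LPG.comp (S.lp h)).fg.N := Fintype.ofFinite _
    exact hq y n h hy p u hp hn hu hu' (pexc_eq hc hnb w hw hS hL hs h0 h)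
  · push Not at hy
    exact full_sink hc hnb w hw hS hL hs h0 hy h hp hn hu hu'

/-- [TS] IN THE EQUALITY CASE -/
theorem TS_of_eq [Fintype ι] (hS : S.SinkH) (hL : S.Lost w) (hs : SoftLe hc hnb w hw)
    (hq : SoftEq hc hnb w hw) (h0 : ∑ i, (S.k0 hc (w i)).pexc ≤ S.K.pexc) {p : S.X}
    (hb : Bp H w p) : S.TSp p := by
  refine TS_of_full hc hnb w hw ?_ hb
  rintro i y n h h1 h2 ⟨u, h3, h4⟩
  exact full_of_eq hc hnb w hw hS hL hs hq h0 h h1 h2 h3 h4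

end law

end SyQ

end Pool.Agent.DI
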