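import Pool.Agent.DI.XLc

/-!
# The equality case at a piece with strands at all poles

`SyQ.SP y n`: the piece of `n` has a strand at every pole of `y`. `SyQ.piece_eq`: if `y` has two poles and
nothing is gained at the component of such a piece then there are no cycles and every local piece is full.
`SyQ.piece_one`: the reversed local pieces of the piece are one orbit.
-/

namespace Pool.Agent.DI

open MulAction
open Pool.Agent.SAF (Conv hull)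
open Pool.Agent.BT (PX PQ JS bey exits x_next_unique)
open Pool.Agent.BT.TA

/-- the nodes whose stabilisers move a pole are one orbit -/
theorem JM.SoftC.mv_one {J T Ed : Type} [Group J] [MulAction J T] [MulAction J Ed] {M : JM J T Ed}
    [Fintype M.fg.N] {Pl : SubMulAction J T} {e : M.fg.N → ℕ} (h : M.SoftC Pl e)
    (h0 : M.fg.aftE (M.imN Pl) e ≤ M.fg.exc (M.imN Pl)) {x x' : T} (hx : x ∉ Pl) (hx' : x' ∉ Pl)
    (m : JM.Mv Pl x) (m' : JM.Mv Pl x') : ∃ j : J, x' = j • x := by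
  obtain ⟨i, hi, p, hp, hne⟩ := id m
  have hp' : i • p ∈ Pl := Pl.smul_mem i hp
  obtain ⟨-, k2⟩ := h.self hp hp' hne.symm rfl
  obtain ⟨-, k, -⟩ := k2 h0
  have h2 : ∀ x ∈ Pl, x = p ∨ x = i • p := fun x hx => by
    rcases h.two x p (i • p) hx hp hp' with k | k | k
    · exact Or.inl k
    · exact absurd k.symm hne
    · exact Or.inr k
  have key : ∀ z : T, z ∉ Pl → JM.Mv Pl z →
      (oq J z : M.fg.N) ∈ M.mNf (Sw (JM.sgn hp hp' h2 hne.symm)) \ M.imN Pl := by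
    intro z hz mz
    exact ⟨⟨z, (JM.Sw_sgn hp hp' h2 hne.symm z).2 mz, rfl⟩, fun k => hz (M.mem_imN.1 k)⟩
  rw [Nat.card_eq_one_iff_unique] at k
  obtain ⟨k, -⟩ := k
  have e1 : (⟨oq J x, key x hx m⟩ : ↥(M.mNf (Sw (JM.sgn hp hp' h2 hne.symm)) \ M.imN Pl)) =
      ⟨oq J x', key x' hx' m'⟩ := Subsingleton.elim _ _
  exact oq_eq.1 (congrArg Subtype.val e1)

namespace SyQ

variable {H V : Type} [Group H] [MulAction H V] {S : SyQ H V}

/-- an element which moves a direction at `p` moves a pole -/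
theorem pole_mv {y : V} {p : S.X} (hy : ∃ a, S.K.ar y a) (hp : p ∈ S.J y) {g : H}
    (hgp : g • p = p) (h : (∃ u, S.D.G.Adj p u ∧ u ∈ S.J y ∧ g • u ≠ u) ∨
      ∃ a, S.K.ar y a ∧ p ∈ S.J a ∧ g • a ≠ a) : ∃ a, S.K.ar y a ∧ g • a ≠ a := by
  rcases h with ⟨u, h1, h2, h3⟩ | ⟨a, h1, -, h3⟩
  · obtain ⟨a, k1, k2⟩ := S.js.cross y hy _ _ h1 hp h2
    refine ⟨a, k1, fun e => h3 ?_⟩
    obtain ⟨z, hz⟩ := S.js.ne a
    have l1 : z ∈ bey S.D.G p u := k2 hz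
    have l2 : z ∈ bey S.D.G p (g • u) := by
      have l3 := S.sub_bey_smul g k2
      rw [hgp, e] at l3
      exact l3 hz
    have h1' : S.D.G.Adj p (g • u) := by
      have := S.D.adj_smul g _ _ h1
      rwa [hgp] at this
    exact (x_next_unique S.D.tree h1 h1' l1 l2).symm
  · exact ⟨a, h1, h3⟩

theorem lp_fixed {y n : V} (h : S.K.ar n y) {p : S.X} (hp : p ∈ S.J y) (hn : p ∈ S.J n) {g : H}
    (hg : g • y = y) (hl : S.LIJ p y n (g • n)) : g • S.lp h = S.lp h := by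
  have har : S.K.ar (g • n) y := by
    have := S.K.ar_smul g _ _ h
    rwa [hg] at this
  have e : g • S.lp h = S.lp har := by
    rw [lp_smul]
    unfold lp
    congr 1
    apply Subtype.ext
    show PN.inn (g • y) (g • n) = PN.inn y (g • n)
    rw [hg]
  rw [e]
  exact ((lp_iff h har hp hn).2 hl).symm

/-- the piece of `n` has a strand at every pole of `y` -/
def SP (S : SyQ H V) (y n : V) : Prop := ∀ a, S.K.ar y a → ∃ n', S.K.IJ y n n' ∧ S.K.Cor a y n'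

theorem OS.sp (hos : S.OS) {y n : V} (h : S.K.ar n y)
    (hcr : ∃ p u, p ∈ S.J y ∧ u ∈ S.J y ∧ S.D.G.Adj p u) : S.SP y n :=
  fun a ha => hos y n a h ha hcr

/-- a vertex with poles which crosses an edge has two poles -/
theorem two_pole_cr {y : V} (hy : ∃ a, S.K.ar y a)
    (hcr : ∃ p u, p ∈ S.J y ∧ u ∈ S.J y ∧ S.D.G.Adj p u) :
    ∃ a b, S.K.ar y a ∧ S.K.ar y b ∧ a ≠ b := by
  obtain ⟨p, u, hp, hu', hu⟩ := hcr
  obtain ⟨a, a1, a2⟩ := S.js.cross y hy _ _ hu hp hu'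
  obtain ⟨b, b1, b2⟩ := S.js.cross y hy _ _ hu.symm hu' hp
  refine ⟨a, b, a1, b1, ?_⟩
  rintro rfl
  obtain ⟨z, hz⟩ := S.js.ne a
  exact bey_not (a2 hz) (b2 hz)

/-- THE EQUALITY CASE at a piece with a strand at every pole -/
theorem piece_eq (hc : S.Conn) {e : S.LPG.fg.N → ℕ} (E : S.EX e) (E' : S.EM e)
    {y n : V} (h : S.K.ar n y) (hl : S.K.LC y) (hs : S.SP y n)
    (h2 : ∃ a b, S.K.ar y a ∧ S.K.ar y b ∧ a ≠ b) [Fintype (S.LPG.comp (S.lp h)).fg.N]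
    (h0 : (S.LPG.comp (S.lp h)).fg.exc (S.LPG.rs (S.lp h) S.PL) =
      (S.LPG.comp (S.lp h)).fg.aftE (S.LPG.rs (S.lp h) S.PL) (S.LPG.re (S.lp h) e)) :
    ((S.LPG.comp (S.lp h)).dn (S.LPG.rQ (S.lp h) S.PLq)).fg.b1 = 0 ∧
    ∀ m (k : S.K.ar m y), S.K.IJ y n m → ∀ q, q ∈ S.J y → q ∈ S.J m → Full e q k := by
  rw [rs_PL] at h0
  obtain ⟨a, b, a1, b1, hab⟩ := h2
  have hC := softC hc E E' h ⟨a, a1⟩ hl
  obtain ⟨na, la, ca⟩ := hs a a1
  obtain ⟨nb, lb, cb⟩ := hs b b1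
  obtain ⟨ka, ka1, ka2⟩ := pol_cT h a1 la ((GX.IJ.ar la).1 h) ca
  obtain ⟨kb, kb1, kb2⟩ := pol_cT h b1 lb ((GX.IJ.ar lb).1 h) cb
  obtain ⟨c1, c2⟩ := hC.eq h0.ge ⟨⟨_, ka1⟩, ka2, ⟨_, kb1⟩, kb2, fun e => by
    have h1 := congrArg Subtype.val e
    have h2 := ct_pole (S := S) (S.K.mem_PO rfl) h1
    exact hab (PN.pol.inj (congrArg Subtype.val h2)).2.1⟩
  refine ⟨c1, fun m k hj q hq hq' => ?_⟩
  rcases c2 ⟨S.lp k, lp_cT h k hj⟩ (lp_rQ h k hj) with e | ⟨e, hm⟩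
  · exact Or.inl e
  · refine Or.inr ⟨e, ?_⟩
    obtain ⟨j, hj1, t, ht, hne⟩ := hm
    obtain ⟨c, kc, hc', ec⟩ := pole_node h t ht
    have hj2 : j.1 • S.lp k = S.lp k := congrArg Subtype.val hj1
    obtain ⟨l1, l2, l3⟩ := lp_fix k hj2 hq hq'
    have hja : j.1 • c ≠ c := by
      refine smul_pole h (k := kc) ?_ ?_
      · rw [← ec]
        exact (j • t).2
      · intro hh
        apply hne
        apply Subtype.ext
        show j.1 • t.1 = t.1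
        rw [ec]
        exact hh
    exact Swp_of_pole hq l1 l2 l3 hc' hja

/-- a reversed local piece moves a private pole -/
theorem mv_of_swp {y n : V} (h : S.K.ar n y) (hs : S.SP y n) (hy : ∃ a, S.K.ar y a) {m : V}
    (k : S.K.ar m y) (hj : S.K.IJ y n m) {q : S.X} (hq : q ∈ S.J y) (hq' : q ∈ S.J m)
    (s : S.Swp q y m) :
    JM.Mv (S.LPG.rQ (S.lp h) S.PLq) (⟨S.lp k, lp_cT h k hj⟩ : ↥(S.LPG.cT (S.lp h))) := by
  obtain ⟨g, g1, g2, g3, g4⟩ := s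
  obtain ⟨a, ha, hne⟩ := pole_mv hy hq g2 g4
  obtain ⟨n', l1, l2⟩ := hs a ha
  obtain ⟨kp, kp1, kp2⟩ := pol_cT h ha l1 ((GX.IJ.ar l1).1 h) l2
  have hfix := lp_fixed k hq hq' g1 g3
  have hg : g ∈ S.LPG.grp (S.lp h) := S.LPG.grp_of (lp_cT h k hj) (by rw [hfix]; exact lp_cT h k hj)
  refine ⟨⟨g, hg⟩, Subtype.ext hfix, ⟨_, kp1⟩, kp2, fun e => hne ?_⟩
  have h1 : S.K.pc.ct S.AJ (g • ⟨PN.pol y a (S.K.Pc y n), kp⟩) =
      S.K.pc.ct S.AJ ⟨PN.pol y a (S.K.Pc y n), kp⟩ := by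
    rw [S.K.pc.ct_smul]
    exact congrArg Subtype.val e
  have h2 := ct_pole (S := S) (S.K.mem_PO rfl) h1.symm
  have h3 : PN.pol y a (S.K.Pc y n) = g • PN.pol y a (S.K.Pc y n) := congrArg Subtype.val h2
  rw [PN.smul_pol] at h3
  exact (PN.pol.inj h3).2.1.symm

/-- THE REVERSED LOCAL PIECES of one piece are one orbit, if nothing is gained -/
theorem piece_one (hc : S.Conn) {e : S.LPG.fg.N → ℕ} (E : S.EX e) (E' : S.EM e)
    {y n : V} (h : S.K.ar n y) (hl : S.K.LC y) (hs : S.SP y n) (hy : ∃ a, S.K.ar y a)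
    [Fintype (S.LPG.comp (S.lp h)).fg.N]
    (h0 : (S.LPG.comp (S.lp h)).fg.exc (S.LPG.rs (S.lp h) S.PL) =
      (S.LPG.comp (S.lp h)).fg.aftE (S.LPG.rs (S.lp h) S.PL) (S.LPG.re (S.lp h) e))
    {m m' : V} (k : S.K.ar m y) (k' : S.K.ar m' y) (hj : S.K.IJ y n m) (hj' : S.K.IJ y n m')
    {q q' : S.X} (hq : q ∈ S.J y) (hqm : q ∈ S.J m) (hq' : q' ∈ S.J y) (hqm' : q' ∈ S.J m')
    (s : S.Swp q y m) (s' : S.Swp q' y m') :
    ∃ g : H, g • y = y ∧ g • q = q' ∧ S.LIJ q' y m' (g • m) := by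
  rw [rs_PL] at h0
  have hC := softC hc E E' h hy hl
  have h1 := mv_of_swp h hs hy k hj hq hqm s
  have h2 := mv_of_swp h hs hy k' hj' hq' hqm' s'
  obtain ⟨⟨j, hj0⟩, hjx⟩ := hC.mv_one h0.ge (lp_rQ h k hj) (lp_rQ h k' hj') h1 h2
  have e1 : S.lp k' = S.lp (S.K.ar_smul j _ _ k) := by
    rw [← lp_smul]
    exact congrArg Subtype.val hjx
  obtain ⟨e2, e3⟩ := lp_place k' (S.K.ar_smul j _ _ k) e1 hq' hqm'
  have e4 : j • q ∈ S.J (j • y) := S.js.smul j _ _ hq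
  have e5 : j • q ∈ S.J (j • m) := S.js.smul j _ _ hqm
  have e6 : j • q = q' := S.one_eq (Or.inr (S.K.ar_smul j _ _ k)) e4 e5 (by rw [← e2]; exact hq') e3
  refine ⟨j, e2.symm, e6, ?_⟩
  have har : S.K.ar (j • m) y := by
    have := S.K.ar_smul j _ _ k
    rwa [← e2] at this
  refine (lp_iff k' har hq' hqm').1 ?_
  rw [e1]
  unfold lp
  congr 1
  apply Subtype.ext
  show PN.inn (j • y) (j • m) = PN.inn y (j • m)
  rw [← e2]

end SyQ

end Pool.Agent.DI
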