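import Pool.Agent.DI.TSd
import Pool.Agent.DI.QExc
import Pool.Agent.DI.LineL
import Pool.Agent.DI.DLS

/-!
# Sinks in the exc-law: preparations

`JM.con_eqv`, `JM.con_grp`: components of contracted graphs. `AJ S`: the local corners (of all places).
`SyQ.Pl t p`: the place of an in-node, constant on the local pieces. `refl_move`: a reflection of the
axis moves the neighbours of its fixed point.
-/

namespace Pool.Agent.DI

open MulAction
open Pool.Agent.SAF (InC orbs FinOrb oc Decomp SAn SA Conv hull dist_edge FinOrb_iff exists_next TAct)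
open Pool.Agent.SAG (IO Zt)
open Pool.Agent.BT (PX PQ JS bey exits mst Hyp finite_of_hyp)
open Pool.Agent.BT.TA

namespace JM

variable {J T Ed : Type} [Group J] [MulAction J T] [MulAction J Ed] (M : JM J T Ed)

/-- components of a contracted graph -/
theorem con_eqv (A : SubMulAction J Ed) {x y : T} :
    Relation.EqvGen (M.con A).st (M.ct A x) (M.ct A y) ↔ Relation.EqvGen M.st x y := by
  constructor
  · intro h
    have sub : ∀ a b : T, M.ct A a = M.ct A b → Relation.EqvGen M.st a b := by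
      intro a b e
      have h1 := M.ct_eq.1 e
      clear e
      induction h1 with
      | rel a b h =>
        obtain ⟨e, rfl, rfl⟩ := h
        exact Relation.EqvGen.rel _ _ ⟨e.1, rfl, rfl⟩
      | refl a => exact Relation.EqvGen.refl _
      | symm a b _ ih => exact Relation.EqvGen.symm _ _ ih
      | trans a b c _ _ i1 i2 => exact Relation.EqvGen.trans _ _ _ i1 i2
    have key : ∀ p q, Relation.EqvGen (M.con A).st p q → ∀ x y, M.ct A x = p → M.ct A y = q →
        Relation.EqvGen M.st x y := by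
      intro p q h
      induction h with
      | rel p q h =>
        intro x y hx hy
        obtain ⟨e, h1, h2⟩ := h
        have h3 := sub x (M.s e.1) (hx.trans h1.symm)
        have h4 := sub (M.t e.1) y (h2.trans hy.symm)
        exact (h3.trans _ _ _ (Relation.EqvGen.rel _ _ ⟨e.1, rfl, rfl⟩)).trans _ _ _ h4
      | refl p => intro x y hx hy; exact sub x y (hx.trans hy.symm)
      | symm p q _ ih => intro x y hx hy; exact Relation.EqvGen.symm _ _ (ih y x hy hx)
      | trans p q r _ _ i1 i2 =>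
        intro x y hx hy
        obtain ⟨z, hz⟩ := M.ct_surj q
        exact Relation.EqvGen.trans _ _ _ (i1 x z hx hz) (i2 z y hz hy)
    exact key _ _ h x y rfl rfl
  · intro h
    induction h with
    | rel x y h =>
      obtain ⟨e, rfl, rfl⟩ := h
      by_cases he : e ∈ A
      · have h1 : M.ct A (M.s e) = M.ct A (M.t e) :=
          M.ct_eq.2 (Relation.EqvGen.rel _ _ ⟨⟨e, he⟩, rfl, rfl⟩)
        rw [h1]
        exact Relation.EqvGen.refl _
      · exact Relation.EqvGen.rel _ _ ⟨⟨e, he⟩, rfl, rfl⟩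
    | refl x => exact Relation.EqvGen.refl _
    | symm x y _ ih => exact Relation.EqvGen.symm _ _ ih
    | trans x y z _ _ i1 i2 => exact Relation.EqvGen.trans _ _ _ i1 i2

/-- the group of a component of a contracted graph -/
theorem con_grp (A : SubMulAction J Ed) (x : T) : (M.con A).grp (M.ct A x) = M.grp x := by
  ext j
  rw [mem_grp, mem_grp, ← M.ct_smul, con_eqv]

end JM

/-- a reflection moves the neighbours of its fixed point on the axis -/
theorem refl_move {H X : Type} [Group H] [MulAction H X] {G : SimpleGraph X} {A : Subgroup H}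
    (L : DL ↥A) (hG : TAct H G) (hA : InC ↥A) (hn : Hyp X A) {r : ↥A} (hr : L.ε r = -1)
    {u v : X} (hu : u ∈ mst G A) (hv : v ∈ mst G A) (hne : u ≠ v) (hru : (r : H) • u = u) :
    (r : H) • v ≠ v := fun hrv =>
  hne (refl_aux L hG hA hn (p := L.τ r) ⟨hr, rfl⟩ hu hv hru hrv)

namespace SyQ

variable {H V : Type} [Group H] [MulAction H V] {S : SyQ H V}

variable (S) in
/-- `p` is the place of the in-node -/
def Pl (t : PN V) (p : S.X) : Prop := ∃ y n, t = PN.inn y n ∧ p ∈ S.J y ∧ p ∈ S.J n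

theorem Pl.smul (g : H) {t : PN V} {p : S.X} (h : S.Pl t p) : S.Pl (g • t) (g • p) := by
  obtain ⟨y, n, rfl, h1, h2⟩ := h
  exact ⟨g • y, g • n, rfl, S.js.smul g _ _ h1, S.js.smul g _ _ h2⟩

theorem Pl_inn {y n : V} {p : S.X} : S.Pl (PN.inn y n) p ↔ p ∈ S.J y ∧ p ∈ S.J n := by
  constructor
  · rintro ⟨y', n', h, h1, h2⟩
    obtain ⟨rfl, rfl⟩ := PN.inn.inj h
    exact ⟨h1, h2⟩
  · rintro ⟨h1, h2⟩
    exact ⟨y, n, rfl, h1, h2⟩

/-- the ends of a corner in `PE` which is not at a pole -/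
theorem AJ_ends {e : ↥S.K.PE} (he : e ∈ S.AJ) :
    (S.K.pc.s e).1 = PN.inn (S.K.c1 e.1) (S.K.c0 e.1) ∧
      (S.K.pc.t e).1 = PN.inn (S.K.c1 e.1) (S.K.c2 e.1) := by
  obtain ⟨⟨h1, h2⟩, -⟩ := he
  exact ⟨by rw [GX.pc_s, S.K.nd_in h1], by rw [GX.pc_t, S.K.nd_in h2]⟩

/-- the place is constant on the local pieces -/
theorem Pl_ct {t t' : ↥S.K.PT} (h : S.K.pc.ct S.AJ t = S.K.pc.ct S.AJ t') (p : S.X) :
    S.Pl t.1 p ↔ S.Pl t'.1 p := by
  have h1 := S.K.pc.ct_eq.1 h
  clear h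
  induction h1 with
  | rel a b h =>
    obtain ⟨⟨e, he⟩, rfl, rfl⟩ := h
    obtain ⟨k1, k2⟩ := AJ_ends he
    show S.Pl (S.K.pc.s e).1 p ↔ S.Pl (S.K.pc.t e).1 p
    rw [k1, k2, Pl_inn, Pl_inn]
    obtain ⟨⟨h1, h2⟩, q, q0, q1, q2⟩ := he
    constructor
    · rintro ⟨p1, p0⟩
      rw [S.one_eq (S.K.c_E0 e.1) p1 p0 q1 q0]
      exact ⟨q1, q2⟩
    · rintro ⟨p1, p2⟩
      rw [S.one_eq (S.K.c_E2 e.1) p1 p2 q1 q2]
      exact ⟨q1, q0⟩
  | refl a => exact Iff.rfl
  | symm a b _ ih => exact ih.symm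
  | trans a b c _ _ i1 i2 => exact i1.trans i2

/-- the place of an in-node is unique -/
theorem Pl_unique {t : ↥S.K.PT} {p q : S.X} (h : S.Pl t.1 p) (h' : S.Pl t.1 q) : p = q := by
  obtain ⟨t, ht⟩ := t
  obtain ⟨y, n, rfl, h1, h2⟩ := h
  obtain ⟨h3, h4⟩ := Pl_inn.1 h'
  exact S.one_eq (Or.inr ht) h1 h2 h3 h4

/-- the nodes of a local piece: the vertex and the local piece -/
theorem ct_inn_iff {y n n' : V} (h : S.K.ar n y) (h' : S.K.ar n' y) {p : S.X} (hp : p ∈ S.J y)
    (hn : p ∈ S.J n) :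
    S.K.pc.ct S.AJ ⟨PN.inn y n, h⟩ = S.K.pc.ct S.AJ ⟨PN.inn y n', h'⟩ ↔ S.LIJ p y n n' := by
  constructor
  · intro e
    have key : ∀ t t' : ↥S.K.PT, Relation.EqvGen (S.K.pc.sub S.AJ).st t t' →
        ∀ y n, t.1 = PN.inn y n → p ∈ S.J y → p ∈ S.J n →
          ∃ n', t'.1 = PN.inn y n' ∧ S.LIJ p y n n' := by
      intro t t' h1
      have key2 : (∀ y n, t.1 = PN.inn y n → p ∈ S.J y → p ∈ S.J n →
          ∃ n', t'.1 = PN.inn y n' ∧ S.LIJ p y n n') ∧
          (∀ y n, t'.1 = PN.inn y n → p ∈ S.J y → p ∈ S.J n →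
          ∃ n', t.1 = PN.inn y n' ∧ S.LIJ p y n n') := by
        induction h1 with
        | rel a b h =>
          obtain ⟨⟨e, he⟩, rfl, rfl⟩ := h
          obtain ⟨k1, k2⟩ := AJ_ends he
          obtain ⟨⟨h1, h2⟩, q, q0, q1, q2⟩ := he
          constructor
          · intro y n hh hy hn
            have hh : (S.K.pc.s e).1 = PN.inn y n := hh
            rw [k1] at hh
            obtain ⟨rfl, rfl⟩ := PN.inn.inj hh
            refine ⟨S.K.c2 e.1, k2, Relation.EqvGen.rel _ _ ⟨⟨?_, h1, h2⟩, hy, hn, ?_⟩⟩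
            · exact S.K.cor_LE.2 ⟨e.1, Or.inl ⟨rfl, rfl, rfl⟩⟩
            · rw [S.one_eq (S.K.c_E0 e.1) hy hn q1 q0]
              exact q2
          · intro y n hh hy hn
            have hh : (S.K.pc.t e).1 = PN.inn y n := hh
            rw [k2] at hh
            obtain ⟨rfl, rfl⟩ := PN.inn.inj hh
            refine ⟨S.K.c0 e.1, k1, Relation.EqvGen.rel _ _ ⟨⟨?_, h2, h1⟩, hy, hn, ?_⟩⟩
            · exact S.K.cor_LE.2 ⟨e.1, Or.inr ⟨rfl, rfl, rfl⟩⟩
            · rw [S.one_eq (S.K.c_E2 e.1) hy hn q1 q2]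
              exact q0
        | refl a => exact ⟨fun y n hh _ _ => ⟨n, hh, Relation.EqvGen.refl _⟩,
            fun y n hh _ _ => ⟨n, hh, Relation.EqvGen.refl _⟩⟩
        | symm a b _ ih => exact ⟨ih.2, ih.1⟩
        | trans a b c _ _ i1 i2 =>
          constructor
          · intro y n hh hy hn
            obtain ⟨n1, h1, h2⟩ := i1.1 y n hh hy hn
            obtain ⟨n2, h3, h4⟩ := i2.1 y n1 h1 hy ((lij_mem h2).1 hn)
            exact ⟨n2, h3, Relation.EqvGen.trans _ _ _ h2 h4⟩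
          · intro y n hh hy hn
            obtain ⟨n1, h1, h2⟩ := i2.2 y n hh hy hn
            obtain ⟨n2, h3, h4⟩ := i1.2 y n1 h1 hy ((lij_mem h2).1 hn)
            exact ⟨n2, h3, Relation.EqvGen.trans _ _ _ h2 h4⟩
      exact key2.1
    obtain ⟨m, h1, h2⟩ := key _ _ (S.K.pc.ct_eq.1 e) y n rfl hp hn
    obtain ⟨-, rfl⟩ := PN.inn.inj h1
    exact h2
  · intro hl
    rw [JM.ct_eq]
    induction hl with
    | rel a b k =>
      obtain ⟨⟨hcor, -, -⟩, -, ha', hb'⟩ := k
      obtain ⟨e, ⟨e0, e1, e2⟩ | ⟨e0, e1, e2⟩⟩ := S.K.cor_LE.1 hcor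
      · have he : e ∈ S.K.PE := Or.inl (by rw [e0, e1]; exact h)
        have hA : (⟨e, he⟩ : ↥S.K.PE) ∈ S.AJ := by
          refine ⟨⟨?_, ?_⟩, p, ?_, ?_, ?_⟩
          · show S.K.ar (S.K.c0 e) (S.K.c1 e)
            rw [e0, e1]; exact h
          · show S.K.ar (S.K.c2 e) (S.K.c1 e)
            rw [e2, e1]; exact h'
          · show p ∈ S.J (S.K.c0 e)
            rw [e0]; exact ha'
          · show p ∈ S.J (S.K.c1 e)
            rw [e1]; exact hp
          · show p ∈ S.J (S.K.c2 e)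
            rw [e2]; exact hb'
        apply Relation.EqvGen.rel
        refine ⟨⟨⟨e, he⟩, hA⟩, Subtype.ext ?_, Subtype.ext ?_⟩
        · show S.K.nd (S.K.c1 e) (S.K.c0 e) (S.K.c2 e) = _
          rw [e0, e1, e2, S.K.nd_in h]
        · show S.K.nd (S.K.c1 e) (S.K.c2 e) (S.K.c0 e) = _
          rw [e0, e1, e2, S.K.nd_in h']
      · have he : e ∈ S.K.PE := Or.inl (by rw [e0, e1]; exact h')
        have hA : (⟨e, he⟩ : ↥S.K.PE) ∈ S.AJ := by
          refine ⟨⟨?_, ?_⟩, p, ?_, ?_, ?_⟩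
          · show S.K.ar (S.K.c0 e) (S.K.c1 e)
            rw [e0, e1]; exact h'
          · show S.K.ar (S.K.c2 e) (S.K.c1 e)
            rw [e2, e1]; exact h
          · show p ∈ S.J (S.K.c0 e)
            rw [e0]; exact hb'
          · show p ∈ S.J (S.K.c1 e)
            rw [e1]; exact hp
          · show p ∈ S.J (S.K.c2 e)
            rw [e2]; exact ha'
        apply Relation.EqvGen.symm
        apply Relation.EqvGen.rel
        refine ⟨⟨⟨e, he⟩, hA⟩, Subtype.ext ?_, Subtype.ext ?_⟩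
        · show S.K.nd (S.K.c1 e) (S.K.c0 e) (S.K.c2 e) = _
          rw [e0, e1, e2, S.K.nd_in h']
        · show S.K.nd (S.K.c1 e) (S.K.c2 e) (S.K.c0 e) = _
          rw [e0, e1, e2, S.K.nd_in h]
    | refl a => exact Relation.EqvGen.refl _
    | symm a b k ih => exact Relation.EqvGen.symm _ _ (ih h' h ((lij_mem k).2 hn))
    | trans a b c k1 k2 ih1 ih2 =>
      have hb' := (lij_ar k1).1 h
      exact Relation.EqvGen.trans _ _ _ (ih1 h hb' hn) (ih2 hb' h' ((lij_mem k1).1 hn))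

end SyQ

end Pool.Agent.DI
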