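import Pool.Agent.DI.XSa

/-!
# The sinks in the exc-law

`L = S.K.pc.con S.AJ`: the contracted graph of the pieces (all places). `SyQ.EX S e`: `e` is a number of
pole ends: at most two, at most one if the local piece is reversed, none if there is no direction.
`sink_ell`, `sink_D`, `sink_Z`: the component of a sink gives a nonnegative contribution; in the equality
case every local piece has all its pole ends.
-/

namespace Pool.Agent.DI

open MulAction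
open Pool.Agent.SAF (InC orbs FinOrb oc Decomp SAn SA Conv hull dist_edge FinOrb_iff exists_next TAct)
open Pool.Agent.SAG (IO Zt)
open Pool.Agent.BT (PX PQ JS bey exits mst Hyp finite_of_hyp)
open Pool.Agent.BT.TA

namespace SyQ

variable {H V : Type} [Group H] [MulAction H V] (S : SyQ H V)

/-- the contracted graph of the pieces -/
noncomputable abbrev LPG : JM H (S.K.pc.CT S.AJ) ↥(JM.cpl S.AJ) := S.K.pc.con S.AJ

/-- the local piece of an in-node -/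
noncomputable def lp {y n : V} (h : S.K.ar n y) : S.K.pc.CT S.AJ :=
  S.K.pc.ct S.AJ ⟨PN.inn y n, h⟩

/-- the local piece of `n` at `y` over `p` is reversed -/
def Swp (p : S.X) (y n : V) : Prop := ∃ g : H, g • y = y ∧ g • p = p ∧ S.LIJ p y n (g • n) ∧
  ((∃ u, S.D.G.Adj p u ∧ u ∈ S.J y ∧ g • u ≠ u) ∨ ∃ a, S.K.ar y a ∧ p ∈ S.J a ∧ g • a ≠ a)

/-- `y` has a direction at `p` -/
def Dir (p : S.X) (y : V) : Prop := (∃ u, S.D.G.Adj p u ∧ u ∈ S.J y) ∨ ∃ a, S.K.ar y a ∧ p ∈ S.J a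

/-- the numbers of the pole ends -/
structure EX (e : S.LPG.fg.N → ℕ) : Prop where
  two : ∀ y n (h : S.K.ar n y), e (oq H (S.lp h)) ≤ 2
  one : ∀ y n (h : S.K.ar n y) p, p ∈ S.J y → p ∈ S.J n → S.Swp p y n → e (oq H (S.lp h)) ≤ 1
  zero : ∀ y n (h : S.K.ar n y) p, p ∈ S.J y → p ∈ S.J n → ¬ S.Dir p y → e (oq H (S.lp h)) = 0

variable {S}

theorem lp_smul (g : H) {y n : V} (h : S.K.ar n y) :
    g • S.lp h = S.lp (S.K.ar_smul g _ _ h) := rfl

theorem lp_iff {y n n' : V} (h : S.K.ar n y) (h' : S.K.ar n' y) {p : S.X} (hp : p ∈ S.J y)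
    (hn : p ∈ S.J n) : S.lp h = S.lp h' ↔ S.LIJ p y n n' := ct_inn_iff h h' hp hn

/-- the place of a local piece -/
theorem lp_place {y n y' n' : V} (h : S.K.ar n y) (h' : S.K.ar n' y') (e : S.lp h = S.lp h')
    {p : S.X} (hp : p ∈ S.J y) (hn : p ∈ S.J n) : y = y' ∧ p ∈ S.J n' := by
  have h1 := (Pl_ct e p).1 (Pl_inn.2 ⟨hp, hn⟩)
  have h2 := Pl_inn.1 h1
  refine ⟨?_, h2.2⟩
  have h3 : S.K.pk (PN.inn y n) = S.K.pk (PN.inn y' n') := by
    rw [← GX.pc_eqv (K := S.K) (x := ⟨PN.inn y n, h⟩) (y := ⟨PN.inn y' n', h'⟩),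
      ← JM.con_eqv _ S.AJ]
    have e' : S.K.pc.ct S.AJ ⟨PN.inn y n, h⟩ = S.K.pc.ct S.AJ ⟨PN.inn y' n', h'⟩ := e
    rw [e']
    exact Relation.EqvGen.refl _
  exact congrArg Prod.fst h3

/-- an element which fixes a local piece fixes the vertex and the place -/
theorem lp_fix {g : H} {y n : V} (h : S.K.ar n y) (e : g • S.lp h = S.lp h) {p : S.X}
    (hp : p ∈ S.J y) (hn : p ∈ S.J n) : g • y = y ∧ g • p = p ∧ S.LIJ p y n (g • n) := by
  rw [lp_smul] at e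
  obtain ⟨h1, h2⟩ := lp_place h (S.K.ar_smul g _ _ h) e.symm hp hn
  have h3 : p ∈ S.J (g • y) := by rw [← h1]; exact hp
  have h4 : g • p ∈ S.J (g • y) := S.js.smul g _ _ hp
  have h5 : g • p ∈ S.J (g • n) := S.js.smul g _ _ hn
  have h6 : g • p = p := S.one_eq (Or.inr (S.K.ar_smul g _ _ h)) h4 h5 h3 h2
  refine ⟨h1.symm, h6, ?_⟩
  have har : S.K.ar (g • n) y := by
    have := S.K.ar_smul g _ _ h
    rwa [← h1] at this
  rw [← lp_iff h har hp hn]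
  have key : ∀ z (k : S.K.ar (g • n) z), z = y → S.lp k = S.lp har := by
    rintro z k rfl
    rfl
  rw [← e]
  exact key _ _ h1.symm

/-! ### the component of a sink -/

/-- the nodes of the component of a sink -/
theorem sink_node {y n : V} (hs : ∀ a, ¬ S.K.ar y a) (h : S.K.ar n y)
    (Q : ↥(S.LPG.cT (S.lp h))) : ∃ m, ∃ k : S.K.ar m y, Q.1 = S.lp k ∧ S.K.IJ y n m := by
  obtain ⟨Q, hQ⟩ := Q
  obtain ⟨t, rfl⟩ := S.K.pc.ct_surj Q
  have h1 : Relation.EqvGen S.K.pc.st ⟨PN.inn y n, h⟩ t := (JM.con_eqv _ S.AJ).1 hQ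
  rw [GX.pc_eqv] at h1
  obtain ⟨t, ht⟩ := t
  cases t with
  | inn y' m =>
    have h2 : y = y' := congrArg Prod.fst h1
    subst h2
    have h3 : S.K.Pc y n = S.K.Pc y m := congrArg Prod.snd h1
    exact ⟨m, ht, rfl, GX.Pc_eq.1 h3⟩
  | pol y' a C =>
    have h2 : y = y' := congrArg Prod.fst h1
    subst h2
    exact absurd ht.1 (hs a)

theorem sink_IJ {y n m : V} (hs : ∀ a, ¬ S.K.ar y a) (hl : S.K.LC y) (h : S.K.ar n y)
    (k : S.K.ar m y) : S.K.IJ y n m :=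
  GX.IJ_of_sink hs (Or.inr h) (hl n m (Or.inr h) (Or.inr k))

/-- all in-nodes of a sink are in one component -/
theorem sink_mem {y n m : V} (hs : ∀ a, ¬ S.K.ar y a) (hl : S.K.LC y) (h : S.K.ar n y)
    (k : S.K.ar m y) : S.lp k ∈ S.LPG.cT (S.lp h) := by
  show Relation.EqvGen S.LPG.st (S.lp h) (S.lp k)
  refine (JM.con_eqv _ S.AJ).2 ?_
  exact S.K.pc_inn (sink_IJ hs hl h k) h k

/-- the group of the component of a sink -/
theorem sink_grp {y n : V} (hs : ∀ a, ¬ S.K.ar y a) (hl : S.K.LC y) (h : S.K.ar n y) :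
    S.LPG.grp (S.lp h) = stabilizer H y := by
  show (S.K.pc.con S.AJ).grp (S.K.pc.ct S.AJ ⟨PN.inn y n, h⟩) = _
  rw [JM.con_grp]
  ext j
  rw [GX.mem_pc_grp]
  constructor
  · exact fun k => k.1
  · intro k
    have k : j • y = y := k
    refine ⟨k, sink_IJ hs hl h ?_⟩
    have := S.K.ar_smul j _ _ h
    rwa [k] at this

/-- no pole in the component of a sink -/
theorem sink_rs {P : Set S.LPG.fg.N} (hP : ∀ y n (h : S.K.ar n y), (oq H (S.lp h) : S.LPG.fg.N) ∉ P)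
    {y n : V} (hs : ∀ a, ¬ S.K.ar y a) (h : S.K.ar n y) : S.LPG.rs (S.lp h) P = ∅ := by
  ext q
  refine ⟨fun hq => ?_, fun hq => hq.elim⟩
  obtain ⟨Q, rfl⟩ := oq_surj q
  obtain ⟨m, k, e, -⟩ := sink_node hs h Q
  have h1 : (oq H Q.1 : S.LPG.fg.N) ∈ P := hq
  rw [e] at h1
  exact hP _ _ k h1

theorem sink_e (e : S.LPG.fg.N → ℕ) {x : S.K.pc.CT S.AJ} (Q : ↥(S.LPG.cT x)) :
    S.LPG.re x e (oq _ Q) = e (oq H Q.1) := rfl

/-- every local piece of a sink has a place -/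
theorem lp_ex {y n : V} (h : S.K.ar n y) : ∃ p, p ∈ S.J y ∧ p ∈ S.J n := by
  obtain ⟨p, h1, h2⟩ := S.one_ex (Or.inr h : S.K.E y n)
  exact ⟨p, h1, h2⟩

/-! ### elliptic sinks -/

theorem sink_ell {P : Set S.LPG.fg.N} (hP : ∀ y n (h : S.K.ar n y), (oq H (S.lp h) : S.LPG.fg.N) ∉ P)
    {e : S.LPG.fg.N → ℕ} (E : S.EX e) {y n : V} (hs : ∀ a, ¬ S.K.ar y a) (h : S.K.ar n y)
    {p : S.X} (hp : S.J y = {p}) [Fintype (S.LPG.comp (S.lp h)).fg.N] :
    (S.LPG.comp (S.lp h)).fg.exc (S.LPG.rs (S.lp h) P) = 0 ∧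
      (S.LPG.comp (S.lp h)).fg.aftE (S.LPG.rs (S.lp h) P) (S.LPG.re (S.lp h) e) = 0 := by
  rw [sink_rs hP hs h]
  refine ⟨FG.exc_empty _, ?_⟩
  have hpy : p ∈ S.J y := by rw [hp]; rfl
  have hpl : ∀ m, S.K.ar m y → p ∈ S.J m := by
    intro m k
    obtain ⟨q, h1, h2⟩ := lp_ex k
    rw [hp] at h1
    rw [← Set.mem_singleton_iff.1 h1]
    exact h2
  have hnd : ¬ S.Dir p y := by
    rintro (⟨u, h1, h2⟩ | ⟨a, h1, -⟩)
    · rw [hp] at h2
      rw [Set.mem_singleton_iff.1 h2] at h1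
      exact h1.ne rfl
    · exact hs a h1
  -- no line at the component
  have hno : IsEmpty (S.LPG.comp (S.lp h)).fg.L := by
    refine ⟨fun q => ?_⟩
    obtain ⟨l, rfl⟩ := oq_surj q
    obtain ⟨m, k, e1, -⟩ := sink_node hs h ((S.LPG.comp (S.lp h)).s l)
    have e2 : S.K.pc.ct S.AJ (S.K.pc.s l.1.1) = S.lp k := e1
    apply l.1.2
    -- the source
    have h1 := (Pl_ct e2 p).2 (Pl_inn.2 ⟨hpy, hpl m k⟩)
    obtain ⟨y1, n1, h2, h3, h4⟩ := h1
    rw [GX.pc_s] at h2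
    obtain ⟨k1, k2, k3⟩ := S.K.nd_eq_inn h2
    have h5 : y = S.K.c1 l.1.1.1 := by
      have h6 : S.K.pk (S.K.pc.s l.1.1).1 = S.K.pk (PN.inn y m) := by
        rw [← GX.pc_eqv (K := S.K) (x := S.K.pc.s l.1.1) (y := ⟨PN.inn y m, k⟩),
          ← JM.con_eqv _ S.AJ, e2]
        exact Relation.EqvGen.refl _
      rw [GX.pc_s, S.K.nd_in k1] at h6
      exact (congrArg Prod.fst h6).symm
    have hE : S.K.ar (S.K.c2 l.1.1.1) (S.K.c1 l.1.1.1) := by
      rcases S.K.c_E2 l.1.1.1 with k | k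
      · rw [← h5] at k
        exact absurd k (hs _)
      · exact k
    refine ⟨⟨k1, hE⟩, p, ?_, ?_, ?_⟩
    · rw [k3]; exact h4
    · rw [← h5]; exact hpy
    · apply hpl
      rw [← h5] at hE
      exact hE
  unfold FG.aftE
  apply Finset.sum_eq_zero
  intro q _
  rw [if_neg (Set.notMem_empty q)]
  obtain ⟨Q, rfl⟩ := oq_surj q
  obtain ⟨m, k, e1, -⟩ := sink_node hs h Q
  have h1 : S.LPG.re (S.lp h) e (oq _ Q) = 0 := by
    rw [sink_e, e1]
    exact E.zero _ _ k p hpy (hpl m k) hnd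
  have h2 : (S.LPG.comp (S.lp h)).fg.deg (oq _ Q) = 0 := by
    unfold FG.deg
    have i1 : IsEmpty {e // (S.LPG.comp (S.lp h)).fg.a e = oq _ Q} := ⟨fun x => hno.false x.1⟩
    have i2 : IsEmpty {e // (S.LPG.comp (S.lp h)).fg.b e = oq _ Q} := ⟨fun x => hno.false x.1⟩
    rw [Nat.card_of_isEmpty, Nat.card_of_isEmpty]
  rw [h1, h2]
  norm_num

/-! ### hyperbolic sinks -/

section hyp

variable {y n : V} (hs : ∀ a, ¬ S.K.ar y a) (hl : S.K.LC y) (h : S.K.ar n y)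
  (hn : Hyp S.X (stabilizer H y)) (hJ : S.J y = mst S.D.G (stabilizer H y))

include hn hJ in
/-- a point of the axis has a neighbour on the axis -/
theorem ex_nbr_ax {p : S.X} (hp : p ∈ S.J y) : ∃ u, S.D.G.Adj p u ∧ u ∈ S.J y := by
  obtain ⟨g, hg, hne⟩ := hn p
  rw [hJ] at hp ⊢
  have h1 := mst_inv hg hp
  obtain ⟨u, hu, ha, -⟩ := Conv.nbr S.D.tree (Pool.Agent.BT.mst_conv _) hp h1 (Ne.symm hne)
  exact ⟨u, ha, hu⟩

include hs hn in
/-- the groups of the local pieces of a hyperbolic sink are finite -/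
theorem sink_fin (Q : ↥(S.LPG.cT (S.lp h))) :
    Finite ↥(stabilizer ↥(S.LPG.grp (S.lp h)) Q) := by
  obtain ⟨m, k, e, -⟩ := sink_node hs h Q
  obtain ⟨p, hp, hm⟩ := lp_ex k
  have hB : Finite ↥(stabilizer H Q.1) := by
    refine finite_of_hyp S.D.tact (S.K.stab y) hn ?_ (w := p) ?_
    · intro b hb
      have hb : b • Q.1 = Q.1 := hb
      rw [e] at hb
      exact (lp_fix k hb hp hm).1
    · intro b hb
      have hb : b • Q.1 = Q.1 := hb
      rw [e] at hb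
      exact (lp_fix k hb hp hm).2.1
  rw [← S.LPG.stab_comp] at hB
  exact Finite.of_equiv _ (Subgroup.equivMapOfInjective _ _
    (Subgroup.subtype_injective (S.LPG.grp (S.lp h)))).symm.toEquiv

/-- sinks of type `D_inf` -/
theorem sink_D {P : Set S.LPG.fg.N} (hP : ∀ y n (h : S.K.ar n y), (oq H (S.lp h) : S.LPG.fg.N) ∉ P)
    {e : S.LPG.fg.N → ℕ} (E : S.EX e) (hs : ∀ a, ¬ S.K.ar y a) (hl : S.K.LC y) (h : S.K.ar n y)
    (hn : Hyp S.X (stabilizer H y)) (hJ : S.J y = mst S.D.G (stabilizer H y))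
    (hD : DT (stabilizer H y)) [Fintype (S.LPG.comp (S.lp h)).fg.N] :
    (S.LPG.comp (S.lp h)).fg.exc (S.LPG.rs (S.lp h) P) = 0 ∧
      0 ≤ (S.LPG.comp (S.lp h)).fg.aftE (S.LPG.rs (S.lp h) P) (S.LPG.re (S.lp h) e) ∧
      ((S.LPG.comp (S.lp h)).fg.aftE (S.LPG.rs (S.lp h) P) (S.LPG.re (S.lp h) e) = 0 →
        (S.LPG.comp (S.lp h)).fg.b1 = 0 ∧
        ∀ m (k : S.K.ar m y) p, p ∈ S.J y → p ∈ S.J m →
          e (oq H (S.lp k)) = 2 ∨ (e (oq H (S.lp k)) = 1 ∧ S.Swp p y m)) := by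
  rw [sink_rs hP hs h]
  have hA := sink_grp hs hl h
  have hDA : DT (S.LPG.grp (S.lp h)) := by rw [hA]; exact hD
  have hnA : Hyp S.X (S.LPG.grp (S.lp h)) := by rw [hA]; exact hn
  have hmA : S.J y = mst S.D.G (S.LPG.grp (S.lp h)) := by rw [hA]; exact hJ
  obtain ⟨D0⟩ := hDA.nonempty
  have hne : Nonempty ↥(S.LPG.cT (S.lp h)) := ⟨⟨S.lp h, Relation.EqvGen.refl _⟩⟩
  -- a mirrored node is reversed
  have hmir : ∀ Q : ↥(S.LPG.cT (S.lp h)), D0.Mir (stabilizer ↥(S.LPG.grp (S.lp h)) Q) →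
      ∀ m (k : S.K.ar m y), Q.1 = S.lp k → ∀ p, p ∈ S.J y → p ∈ S.J m → S.Swp p y m := by
    rintro Q ⟨a, ha, hε⟩ m k e1 p hp hm
    have ha' : a.1 • S.lp k = S.lp k := by
      rw [← e1]
      exact congrArg Subtype.val ha
    obtain ⟨h1, h2, h3⟩ := lp_fix k ha' hp hm
    refine ⟨a.1, h1, h2, h3, Or.inl ?_⟩
    obtain ⟨u, hu, hu'⟩ := ex_nbr_ax hn hJ hp
    refine ⟨u, hu, hu', ?_⟩
    exact refl_move D0 S.D.tact hDA.1 hnA hε (by rw [← hmA]; exact hp)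
      (by rw [← hmA]; exact hu') hu.ne h2
  have h1 : ∀ x ∈ (S.LPG.comp (S.lp h)).mNf D0.Mir, x ∉ (∅ : Set _) →
      S.LPG.re (S.lp h) e x ≤ 1 := by
    rintro x ⟨Q, hQ, rfl⟩ -
    obtain ⟨m, k, e1, -⟩ := sink_node hs h Q
    obtain ⟨p, hp, hm⟩ := lp_ex k
    have h2 := E.one y m k p hp hm (hmir Q hQ m k e1 p hp hm)
    have h3 : S.LPG.re (S.lp h) e (oq _ Q) = e (oq H (S.lp k)) := by rw [sink_e, e1]
    exact h3.le.trans h2
  have h2 : ∀ x, x ∉ (∅ : Set (S.LPG.comp (S.lp h)).fg.N) → S.LPG.re (S.lp h) e x ≤ 2 := by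
    intro x _
    obtain ⟨Q, rfl⟩ := oq_surj x
    obtain ⟨m, k, e1, -⟩ := sink_node hs h Q
    rw [sink_e, e1]
    exact E.two y m k
  have key := (S.LPG.comp (S.lp h)).exc_D D0 hne (S.LPG.comp_conn _)
    (sink_fin hs h hn) (H := ∅) (Set.empty_subset _) (fun x hx => hx.elim)
    (JM.nDD_empty _) ⟨oq _ ⟨S.lp h, Relation.EqvGen.refl _⟩, fun hx => hx.elim⟩ h1 h2
  obtain ⟨k1, k2, k3⟩ := key
  have hb := (S.LPG.comp (S.lp h)).fg.b1_nonneg
  refine ⟨FG.exc_empty _, by omega, fun h0 => ?_⟩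
  have k4 := k3.1 (by omega)
  refine ⟨by omega, ?_⟩
  intro m k p hp hm
  have hQ := sink_mem hs hl h k
  have k5 := k4 (oq _ ⟨S.lp k, hQ⟩) (fun hx => hx.elim)
  by_cases hM : (oq _ (⟨S.lp k, hQ⟩ : ↥(S.LPG.cT (S.lp h))) : (S.LPG.comp (S.lp h)).fg.N) ∈
      (S.LPG.comp (S.lp h)).mNf D0.Mir
  · right
    refine ⟨k5.1 hM, ?_⟩
    obtain ⟨Q, hQ1, hQ2⟩ := hM
    obtain ⟨j, hj⟩ := oq_eq.1 hQ2
    -- move the reflection
    have hQ3 : D0.Mir (stabilizer ↥(S.LPG.grp (S.lp h)) (⟨S.lp k, hQ⟩ : ↥(S.LPG.cT (S.lp h)))) := by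
      obtain ⟨a, ha, hε⟩ := hQ1
      refine ⟨j * a * j⁻¹, ?_, ?_⟩
      · rw [hj]
        show (j * a * j⁻¹) • j • Q = j • Q
        rw [mul_smul, inv_smul_smul, mul_smul]
        have ha : a • Q = Q := ha
        rw [ha]
      · rw [DL.ε_conj]
        exact hε
    exact hmir _ hQ3 m k rfl p hp hm
  · exact Or.inl (k5.2 hM)

/-- sinks of type `ℤ` -/
theorem sink_Z {P : Set S.LPG.fg.N} (hP : ∀ y n (h : S.K.ar n y), (oq H (S.lp h) : S.LPG.fg.N) ∉ P)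
    {e : S.LPG.fg.N → ℕ} (E : S.EX e) (hs : ∀ a, ¬ S.K.ar y a) (hl : S.K.LC y) (h : S.K.ar n y)
    (hn : Hyp S.X (stabilizer H y))
    (hi : Infinite ↥(stabilizer H y)) (hZ : Zt ↥(stabilizer H y))
    [Fintype (S.LPG.comp (S.lp h)).fg.N] :
    (S.LPG.comp (S.lp h)).fg.exc (S.LPG.rs (S.lp h) P) = 0 ∧
      0 ≤ (S.LPG.comp (S.lp h)).fg.aftE (S.LPG.rs (S.lp h) P) (S.LPG.re (S.lp h) e) ∧
      ((S.LPG.comp (S.lp h)).fg.aftE (S.LPG.rs (S.lp h) P) (S.LPG.re (S.lp h) e) = 0 →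
        (S.LPG.comp (S.lp h)).fg.b1 = 1 ∧ ∀ m (k : S.K.ar m y), e (oq H (S.lp k)) = 2) := by
  rw [sink_rs hP hs h]
  have hA := sink_grp hs hl h
  have hiA : Infinite ↥(S.LPG.grp (S.lp h)) := by rw [hA]; exact hi
  have hZA : Zt ↥(S.LPG.grp (S.lp h)) := by rw [hA]; exact hZ
  have hne : Nonempty ↥(S.LPG.cT (S.lp h)) := ⟨⟨S.lp h, Relation.EqvGen.refl _⟩⟩
  obtain ⟨F, hF⟩ := hZA
  obtain ⟨a, ha⟩ : ∃ a, F a ≠ 1 := by
    by_contra hcon
    push Not at hcon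
    have : Finite ↥(S.LPG.grp (S.lp h)) := by
      refine Finite.of_injective (fun g : ↥(S.LPG.grp (S.lp h)) => (⟨g, hcon g⟩ : ↥F.ker)) ?_
      intro a b hab
      exact congrArg (fun z : ↥F.ker => z.1) hab
    exact not_finite ↥(S.LPG.grp (S.lp h))
  obtain ⟨f, hf, -⟩ := surj_of_ne F ha
  have h2 : ∀ x, S.LPG.re (S.lp h) e x ≤ 2 := by
    intro x
    obtain ⟨Q, rfl⟩ := oq_surj x
    obtain ⟨m, k, e1, -⟩ := sink_node hs h Q
    rw [sink_e, e1]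
    exact E.two y m k
  have key := (S.LPG.comp (S.lp h)).exc_Z hne (S.LPG.comp_conn _)
    (fun g => Multiplicative.toAdd (f g)) (fun g k => by rw [map_mul, toAdd_mul])
    (by
      obtain ⟨g, hg⟩ := hf (Multiplicative.ofAdd 1)
      exact ⟨g, by rw [hg]; rfl⟩)
    (by
      intro Q g hg
      have := sink_fin hs h hn Q
      have h3 : IsOfFinOrder (⟨g, hg⟩ : ↥(stabilizer ↥(S.LPG.grp (S.lp h)) Q)) :=
        isOfFinOrder_of_finite _
      obtain ⟨r, hr, h4⟩ := h3.exists_pow_eq_one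
      have h5 : g ^ r = 1 := congrArg Subtype.val h4
      have h6 : Multiplicative.toAdd (f g) * r = 0 := by
        have h7 : (f g) ^ r = 1 := by rw [← map_pow, h5, map_one]
        have h8 := congrArg Multiplicative.toAdd h7
        rw [toAdd_pow, toAdd_one, nsmul_eq_mul] at h8
        rw [mul_comm]
        exact h8
      rcases mul_eq_zero.1 h6 with h7 | h7
      · exact h7
      · exact absurd h7 (by exact_mod_cast hr.ne'))
    h2
  obtain ⟨k1, k2, k3⟩ := key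
  refine ⟨FG.exc_empty _, by omega, fun h0 => ?_⟩
  have k4 := k3.1 (by omega)
  refine ⟨by omega, ?_⟩
  intro m k
  have hQ := sink_mem hs hl h k
  exact k4 (oq _ ⟨S.lp k, hQ⟩)

end hyp

end SyQ

end Pool.Agent.DI
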