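import Pool.Agent.DI.XSb
import Pool.Agent.DI.XLa

/-!
# From the equality case to [TS]

`exE`: the number of the pole ends of the raw slices at the local pieces, at the lost nodes the degree.
`exE_ex : S.EX (exE ..)` (hypothesis `Lost`). `Full e p h`: two pole ends, or one and the local piece is
reversed. `TSat_of_full`, `TS_of_full`: [TS]. `Swp_of_pole`: an element of the group of the local piece
which moves a pole of `y` reverses the local piece.
-/

attribute [local instance 2000] SubMulAction.mulAction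

namespace Pool.Agent.DI

open MulAction
open Pool.Agent.SAF (InC orbs FinOrb oc Decomp SAn SA Conv hull dist_edge FinOrb_iff exists_next TAct)
open Pool.Agent.SAG (IO Zt)
open Pool.Agent.BT (PX PQ JS bey exits mst Hyp finite_of_hyp)
open Pool.Agent.BT.TA

namespace SyQ

variable {H V : Type} [Group H] [MulAction H V] {S : SyQ H V}

/-! ### no lines at an elliptic sink -/

theorem no_line {y : V} (hs : ∀ a, ¬ S.K.ar y a) {p : S.X} (hp : S.J y = {p}) {m : V}
    (k : S.K.ar m y) (l : ↥(JM.cpl S.AJ)) :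
    S.LPG.s l ≠ S.lp k ∧ S.LPG.t l ≠ S.lp k := by
  have hpy : p ∈ S.J y := by rw [hp]; rfl
  have hpl : ∀ m, S.K.ar m y → p ∈ S.J m := by
    intro m k
    obtain ⟨q, h1, h2⟩ := lp_ex k
    rw [hp] at h1
    rw [← Set.mem_singleton_iff.1 h1]
    exact h2
  have hE : ∀ m, S.K.E y m → S.K.ar m y := fun m e => e.resolve_left (hs m)
  have key : S.K.c1 l.1.1 ≠ y := by
    intro h
    have h0 : S.K.ar (S.K.c0 l.1.1) y := hE _ (by
      have := S.K.c_E0 l.1.1
      rwa [h] at this)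
    have h2 : S.K.ar (S.K.c2 l.1.1) y := hE _ (by
      have := S.K.c_E2 l.1.1
      rwa [h] at this)
    apply l.2
    refine ⟨⟨by rw [h]; exact h0, by rw [h]; exact h2⟩, p, hpl _ h0, ?_, hpl _ h2⟩
    rw [h]
    exact hpy
  have hpk : ∀ t : ↥S.K.PT, S.K.pc.ct S.AJ t = S.lp k → t.1.pv = y := by
    intro t e
    have h6 : S.K.pk t.1 = S.K.pk (PN.inn y m) := by
      rw [← GX.pc_eqv (K := S.K) (x := t) (y := ⟨PN.inn y m, k⟩), ← JM.con_eqv _ S.AJ]
      have e' : S.K.pc.ct S.AJ t = S.K.pc.ct S.AJ ⟨PN.inn y m, k⟩ := e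
      rw [e']
      exact Relation.EqvGen.refl _
    have h7 : (S.K.pk t.1).1 = y := congrArg Prod.fst h6
    obtain ⟨t, ht⟩ := t
    cases t <;> exact h7
  constructor
  · intro e
    have := hpk _ e
    rw [GX.pc_s, GX.nd_pv] at this
    exact key this
  · intro e
    have := hpk _ e
    rw [GX.pc_t, GX.nd_pv] at this
    exact key this

/-- the degree at an elliptic sink -/
theorem deg_single {y : V} (hs : ∀ a, ¬ S.K.ar y a) {p : S.X} (hp : S.J y = {p}) {m : V}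
    (k : S.K.ar m y) : S.LPG.fg.deg (oq H (S.lp k)) = 0 := by
  unfold FG.deg
  have i1 : IsEmpty {e // S.LPG.fg.a e = oq H (S.lp k)} := by
    refine ⟨fun x => ?_⟩
    obtain ⟨x, hx⟩ := x
    obtain ⟨l, rfl⟩ := oq_surj x
    obtain ⟨j, hj⟩ := oq_eq.1 hx
    apply (no_line hs hp k (j • l)).1
    rw [S.LPG.hs]
    exact hj.symm
  have i2 : IsEmpty {e // S.LPG.fg.b e = oq H (S.lp k)} := by
    refine ⟨fun x => ?_⟩
    obtain ⟨x, hx⟩ := x
    obtain ⟨l, rfl⟩ := oq_surj x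
    obtain ⟨j, hj⟩ := oq_eq.1 hx
    apply (no_line hs hp k (j • l)).2
    rw [S.LPG.ht]
    exact hj.symm
  rw [Nat.card_of_isEmpty, Nat.card_of_isEmpty]

/-- no direction at `p`: an elliptic sink -/
theorem no_dir {y : V} {p : S.X} (hp : p ∈ S.J y) (h : ¬ S.Dir p y) :
    (∀ a, ¬ S.K.ar y a) ∧ S.J y = {p} := by
  have h1 : S.J y = {p} := by
    ext q
    rw [Set.mem_singleton_iff]
    refine ⟨fun hq => ?_, fun e => by rw [e]; exact hp⟩
    by_contra hne
    obtain ⟨u, hu, ha, -⟩ := Conv.nbr S.D.tree (S.js.conv y) hp hq (Ne.symm hne)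
    exact h (Or.inl ⟨u, ha, hu⟩)
  refine ⟨fun a ha => ?_, h1⟩
  obtain ⟨q, h2, h3⟩ := S.one_ex (Or.inl ha : S.K.E y a)
  rw [h1] at h2
  rw [Set.mem_singleton_iff.1 h2] at h3
  exact h (Or.inr ⟨a, ha, h3⟩)

/-! ### an element which moves a pole -/

theorem Swp_of_pole {y n : V} {p : S.X} (hp : p ∈ S.J y) {g : H} (hy : g • y = y) (hgp : g • p = p)
    (hl : S.LIJ p y n (g • n)) {a : V} (ha : S.K.ar y a) (hne : g • a ≠ a) : S.Swp p y n := by
  refine ⟨g, hy, hgp, hl, ?_⟩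
  by_cases hpa : p ∈ S.J a
  · exact Or.inr ⟨a, ha, hpa, hne⟩
  left
  have hu := S.dir_adj hpa
  have h1 : S.dir p a ∈ S.J y := S.dir_cross (Or.inl ha) hp hpa
  refine ⟨S.dir p a, hu, h1, fun h2 => ?_⟩
  have h3 : S.J (g • a) ⊆ bey S.D.G p (S.dir p a) := by
    have := S.sub_bey_smul g (S.dir_bey hpa)
    rwa [hgp, h2] at this
  obtain ⟨b, hb, hbs⟩ := S.js.cross y ⟨a, ha⟩ _ _ hu.symm h1 hp
  have hga : S.K.ar y (g • a) := by
    have := S.K.ar_smul g _ _ ha
    rwa [hy] at this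
  have hdis : ∀ c, S.J c ⊆ bey S.D.G p (S.dir p a) → S.J c ⊆ bey S.D.G (S.dir p a) p → False := by
    intro c k1 k2
    obtain ⟨q, hq⟩ := S.js.ne c
    exact bey_not (k1 hq) (k2 hq)
  rcases S.K.two y a (g • a) b ha hga hb with k | k | k
  · exact hne k.symm
  · rw [k] at h3
    exact hdis b h3 hbs
  · rw [← k] at hbs
    exact hdis a (S.dir_bey hpa) hbs

/-! ### the numbers of the pole ends -/

section ends

variable (hc : S.Conn) (hnb : S.NB) {ι : Type} (w : ι → S.X)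
  (hw : ∀ (i j : ι) (g : H), g • w i = w j → i = j)

/-- the pole ends at bad nodes, the degree at lost nodes -/
noncomputable def exE : S.LPG.fg.N → ℕ :=
  S.LPG.fg.elost (cutF hc hnb w hw).D (cutF hc hnb w hw).e

/-- the place `p` is bad -/
def Bp {X : Type} {ι : Type} (H : Type) [Group H] [MulAction H X] (w : ι → X) (p : X) : Prop :=
  ∃ i, ∃ g : H, g • w i = p

/-- the lost nodes -/
structure Lost (S : SyQ H V) {ι : Type} (w : ι → S.X) : Prop where
  two : ∀ y n (h : S.K.ar n y) p, p ∈ S.J y → p ∈ S.J n → ¬ Bp H w p →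
    S.LPG.fg.deg (oq H (S.lp h)) ≤ 2
  one : ∀ y n (h : S.K.ar n y) p, p ∈ S.J y → p ∈ S.J n → ¬ Bp H w p → S.Swp p y n →
    S.LPG.fg.deg (oq H (S.lp h)) ≤ 1

theorem lost_mem {y n : V} (h : S.K.ar n y) {p : S.X} (hp : p ∈ S.J y) (hn : p ∈ S.J n) :
    (oq H (S.lp h) : S.LPG.fg.N) ∈ (cutF hc hnb w hw).D ↔ ¬ Bp H w p := by
  refine (mem_D hc hnb w hw (x := ⟨PN.inn y n, h⟩)).trans ?_
  constructor
  · rintro h1 ⟨i, g, hg⟩
    apply h1 i
    exact ⟨y, n, rfl, g, by rw [hg]; exact hp, by rw [hg]; exact hn⟩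
  · rintro h1 i ⟨y', n', e, g, h2, h3⟩
    obtain ⟨rfl, rfl⟩ := PN.inn.inj e
    exact h1 ⟨i, g, S.one_eq (Or.inr h) h2 h3 hp hn⟩

theorem exE_lost {y n : V} (h : S.K.ar n y) {p : S.X} (hp : p ∈ S.J y) (hn : p ∈ S.J n)
    (hb : ¬ Bp H w p) : exE hc hnb w hw (oq H (S.lp h)) = S.LPG.fg.deg (oq H (S.lp h)) :=
  FG.elost_in _ ((lost_mem hc hnb w hw h hp hn).2 hb)

/-- the value at a node over `w i` -/
theorem exE_bad {y n : V} (h : S.K.ar n y) {i : ι} (hp : w i ∈ S.J y) (hn : w i ∈ S.J n) :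
    exE hc hnb w hw (oq H (S.lp h)) =
      (jcut hc hnb (w i)).e (oq H (S.K.pc.ct (S.cA (w i)) ⟨PN.inn y n, h⟩)) := by
  have h1 : (oq H (S.lp h) : S.LPG.fg.N) ∉ (cutF hc hnb w hw).D := by
    rw [lost_mem hc hnb w hw h hp hn, not_not]
    exact ⟨i, 1, one_smul _ _⟩
  refine (FG.elost_out _ h1).trans ?_
  exact (cutF hc hnb w hw).e_oq (i := i) (x := ⟨PN.inn y n, h⟩)
    ⟨y, n, rfl, 1, by rw [one_smul]; exact hp, by rw [one_smul]; exact hn⟩

/-- translation of the nodes -/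
theorem oq_lp (g : H) {y n : V} (h : S.K.ar n y) :
    (oq H (S.lp (S.K.ar_smul g _ _ h)) : S.LPG.fg.N) = oq H (S.lp h) := by
  rw [← lp_smul]
  exact oq_smul g _

theorem LIJ.smul (g : H) {p : S.X} {y a b : V} (h : S.LIJ p y a b) :
    S.LIJ (g • p) (g • y) (g • a) (g • b) := by
  induction h with
  | rel a b h =>
    exact Relation.EqvGen.rel _ _ ⟨h.1.smul g, S.js.smul g _ _ h.2.1, S.js.smul g _ _ h.2.2.1,
      S.js.smul g _ _ h.2.2.2⟩
  | refl a => exact Relation.EqvGen.refl _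
  | symm a b _ ih => exact Relation.EqvGen.symm _ _ ih
  | trans a b c _ _ i1 i2 => exact Relation.EqvGen.trans _ _ _ i1 i2

theorem Swp.smul (g : H) {p : S.X} {y n : V} (h : S.Swp p y n) : S.Swp (g • p) (g • y) (g • n) := by
  obtain ⟨k, h1, h2, h3, h4⟩ := h
  have e : ∀ {X : Type} [MulAction H X] (x : X), (g * k * g⁻¹) • g • x = g • k • x := by
    intro X _ x
    rw [mul_smul, inv_smul_smul, mul_smul]
  refine ⟨g * k * g⁻¹, ?_, ?_, ?_, ?_⟩
  · rw [e, h1]
  · rw [e, h2]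
  · rw [e]
    exact LIJ.smul g h3
  · rcases h4 with ⟨u, k1, k2, k3⟩ | ⟨a, k1, k2, k3⟩
    · refine Or.inl ⟨g • u, S.D.adj_smul g _ _ k1, S.js.smul g _ _ k2, ?_⟩
      rw [e]
      exact fun k4 => k3 (smul_left_cancel g k4)
    · refine Or.inr ⟨g • a, S.K.ar_smul g _ _ k1, S.js.smul g _ _ k2, ?_⟩
      rw [e]
      exact fun k4 => k3 (smul_left_cancel g k4)

theorem Dir.smul (g : H) {p : S.X} {y : V} (h : S.Dir p y) : S.Dir (g • p) (g • y) := by
  rcases h with ⟨u, k1, k2⟩ | ⟨a, k1, k2⟩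
  · exact Or.inl ⟨g • u, S.D.adj_smul g _ _ k1, S.js.smul g _ _ k2⟩
  · exact Or.inr ⟨g • a, S.K.ar_smul g _ _ k1, S.js.smul g _ _ k2⟩

/-- a statement about the nodes over bad places follows from the nodes over the `w i` -/
theorem bad_red {F : ∀ (p : S.X) (y n : V), S.K.ar n y → Prop}
    (hF : ∀ (g : H) p y n (h : S.K.ar n y), F (g • p) (g • y) (g • n) (S.K.ar_smul g _ _ h) →
      F p y n h)
    (h0 : ∀ i y n (h : S.K.ar n y), w i ∈ S.J y → w i ∈ S.J n → F (w i) y n h)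
    {p : S.X} (hb : Bp H w p) {y n : V} (h : S.K.ar n y) (hp : p ∈ S.J y) (hn : p ∈ S.J n) :
    F p y n h := by
  obtain ⟨i, g, rfl⟩ := hb
  apply hF g⁻¹
  have e : g⁻¹ • g • w i = w i := inv_smul_smul g _
  have h1 : w i ∈ S.J (g⁻¹ • y) := by
    have := S.js.smul g⁻¹ _ _ hp
    rwa [e] at this
  have h2 : w i ∈ S.J (g⁻¹ • n) := by
    have := S.js.smul g⁻¹ _ _ hn
    rwa [e] at this
  rw [e]
  exact h0 i _ _ _ h1 h2

/-- THE NUMBERS OF THE POLE ENDS -/
theorem exE_ex (hL : S.Lost w) : S.EX (exE hc hnb w hw) where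
  two y n h := by
    obtain ⟨p, hp, hn⟩ := lp_ex h
    by_cases hb : Bp H w p
    · refine bad_red (S := S) w (F := fun _ y n h => exE hc hnb w hw (oq H (S.lp h)) ≤ 2) ?_ ?_ hb h hp hn
      · intro g p y n h k
        rw [oq_lp] at k
        exact k
      · intro i y n h h1 h2
        rw [exE_bad hc hnb w hw h h1 h2]
        exact e_le_two' hc hnb (y := ⟨y, h1⟩) (n := ⟨n, h2⟩) h
    · rw [exE_lost hc hnb w hw h hp hn hb]
      exact hL.two y n h p hp hn hb
  one y n h p hp hn hs := by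
    by_cases hb : Bp H w p
    · have key := bad_red (S := S) w
        (F := fun p y n h => S.Swp p y n → exE hc hnb w hw (oq H (S.lp h)) ≤ 1) ?_ ?_ hb h hp hn
      · exact key hs
      · intro g p y n h k hs
        have := k (hs.smul g)
        rw [oq_lp] at this
        exact this
      · intro i y n h h1 h2 hs
        rw [exE_bad hc hnb w hw h h1 h2]
        obtain ⟨g, k1, k2, k3, k4⟩ := hs
        rcases k4 with ⟨u, l1, l2, l3⟩ | ⟨a, l1, l2, l3⟩
        · exact e_le_one' hc hnb (y := ⟨y, h1⟩) (n := ⟨n, h2⟩) h (h := ⟨g, k2⟩) k1 k3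
            (a := Sum.inr ⟨u, l1⟩) (SAr.up _ _ l2)
            (fun k => l3 (congrArg Subtype.val (Sum.inr.inj k)))
        · exact e_le_one' hc hnb (y := ⟨y, h1⟩) (n := ⟨n, h2⟩) h (h := ⟨g, k2⟩) k1 k3
            (a := Sum.inl ⟨a, l2⟩) (SAr.hor _ _ l1)
            (fun k => l3 (congrArg Subtype.val (Sum.inl.inj k)))
    · rw [exE_lost hc hnb w hw h hp hn hb]
      exact hL.one y n h p hp hn hb hs
  zero y n h p hp hn hd := by
    by_cases hb : Bp H w p
    · have key := bad_red (S := S) w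
        (F := fun p y n h => ¬ S.Dir p y → exE hc hnb w hw (oq H (S.lp h)) = 0) ?_ ?_ hb h hp hn
      · exact key hd
      · intro g p y n h k hs
        have := k (fun k => hs (by
          have := k.smul g⁻¹
          rwa [inv_smul_smul, inv_smul_smul] at this))
        rw [oq_lp] at this
        exact this
      · intro i y n h h1 h2 hs
        rw [exE_bad hc hnb w hw h h1 h2]
        by_contra hne
        obtain ⟨a, n', k1, -⟩ := cor_of_one hc hnb (y := ⟨y, h1⟩) (n := ⟨n, h2⟩) h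
          (Nat.one_le_iff_ne_zero.2 hne)
        have k1 : S.SAr (w i) (Sum.inl ⟨y, h1⟩) a := k1
        apply hs
        cases k1 with
        | hor _ a k => exact Or.inr ⟨a.1, k, a.2⟩
        | up _ u k => exact Or.inl ⟨u.1, u.2, k⟩
    · rw [exE_lost hc hnb w hw h hp hn hb]
      obtain ⟨h1, h2⟩ := no_dir hp hd
      exact deg_single h1 h2 h

/-! ### [TS] -/

/-- two pole ends, or one and the local piece is reversed -/
def Full (e : S.LPG.fg.N → ℕ) (p : S.X) {y n : V} (h : S.K.ar n y) : Prop :=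
  e (oq H (S.lp h)) = 2 ∨ (e (oq H (S.lp h)) = 1 ∧ S.Swp p y n)

theorem TSat_of_full {i : ι} {y n : V} (h : S.K.ar n y) (h1 : w i ∈ S.J y) (h2 : w i ∈ S.J n)
    (hf : Full (exE hc hnb w hw) (w i) h) : S.TSat (w i) y n := by
  have key := TSat_iff hc hnb (w := w i) (y := ⟨y, h1⟩) (n := ⟨n, h2⟩) h
  refine key.2 fun d hd => ?_
  refine (PV_pol_iff hc hnb (y := (⟨y, h1⟩ : S.NV (w i))) (n := (⟨n, h2⟩ : S.NV (w i)))).2
    ⟨hd, ?_⟩
  unfold Full at hf
  rw [exE_bad hc hnb w hw h h1 h2] at hf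
  rcases hf with hf | ⟨hf, g, k1, k2, k3, k4⟩
  · obtain ⟨n', l1, l2, l3⟩ := cor_of_two hc hnb (y := ⟨y, h1⟩) (n := ⟨n, h2⟩) h hf.ge hd
    exact ⟨n', l2, l3, l1⟩
  · obtain ⟨b, hb, hbne⟩ : ∃ b, (S.k0 hc (w i)).ar (Sum.inl ⟨y, h1⟩) b ∧
        (⟨g, k2⟩ : ↥(stabilizer H (w i))) • b ≠ b := by
      rcases k4 with ⟨u, l1, l2, l3⟩ | ⟨a, l1, l2, l3⟩
      · exact ⟨Sum.inr ⟨u, l1⟩, SAr.up _ _ l2,
          fun k => l3 (congrArg Subtype.val (Sum.inr.inj k))⟩
      · exact ⟨Sum.inl ⟨a, l2⟩, SAr.hor _ _ l1,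
          fun k => l3 (congrArg Subtype.val (Sum.inl.inj k))⟩
    obtain ⟨n', l1, l2, l3⟩ := cor_of_mir hc hnb (y := ⟨y, h1⟩) (n := ⟨n, h2⟩) h hf.ge
      (h := ⟨g, k2⟩) k1 k3 hb hbne hd
    exact ⟨n', l2, l3, l1⟩

end ends

theorem TSat.smul (g : H) {p : S.X} {y n : V} (h : S.TSat p y n) :
    S.TSat (g • p) (g • y) (g • n) := by
  constructor
  · intro u hu hy
    have h1 : S.D.G.Adj p (g⁻¹ • u) := by
      have := S.D.adj_smul g⁻¹ _ _ hu
      rwa [inv_smul_smul] at this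
    have h2 : g⁻¹ • u ∈ S.J y := by
      have := S.js.smul g⁻¹ _ _ hy
      rwa [inv_smul_smul] at this
    obtain ⟨n', m, k1, k2, k3⟩ := h.1 _ h1 h2
    refine ⟨g • n', g • m, LIJ.smul g k1, k2.smul g, ?_⟩
    have := S.sub_bey_smul g k3
    rwa [smul_inv_smul] at this
  · intro a ha hp
    have h1 : S.K.ar y (g⁻¹ • a) := by
      have := S.K.ar_smul g⁻¹ _ _ ha
      rwa [inv_smul_smul] at this
    have h2 : p ∈ S.J (g⁻¹ • a) := by
      have := S.js.smul g⁻¹ _ _ hp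
      rwa [inv_smul_smul] at this
    obtain ⟨n', k1, k2⟩ := h.2 _ h1 h2
    refine ⟨g • n', LIJ.smul g k1, ?_⟩
    have := k2.smul g
    rwa [smul_inv_smul] at this

/-- [TS] FROM THE EQUALITY CASE -/
theorem TS_of_full (hc : S.Conn) (hnb : S.NB) {ι : Type} (w : ι → S.X)
    (hw : ∀ (i j : ι) (g : H), g • w i = w j → i = j)
    (hf : ∀ i y n (h : S.K.ar n y), w i ∈ S.J y → w i ∈ S.J n →
      (∃ u, S.D.G.Adj (w i) u ∧ u ∈ S.J y) → Full (exE hc hnb w hw) (w i) h)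
    {p : S.X} (hb : Bp H w p) : S.TSp p := by
  intro y n h hp hn hu
  have key := bad_red (S := S) w
    (F := fun p y n _ => (∃ u, S.D.G.Adj p u ∧ u ∈ S.J y) → S.TSat p y n) ?_ ?_ hb h hp hn
  · exact key hu
  · rintro g p y n h k ⟨u, k1, k2⟩
    have := (k ⟨g • u, S.D.adj_smul g _ _ k1, S.js.smul g _ _ k2⟩).smul g⁻¹
    rwa [inv_smul_smul, inv_smul_smul, inv_smul_smul] at this
  · intro i y n h h1 h2 hu
    exact TSat_of_full hc hnb w hw h h1 h2 (hf i y n h h1 h2 hu)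

end SyQ

end Pool.Agent.DI
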