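import Pool.Agent.DI.XtB

/-!
# sigma as a sum over orbits, special tops

`sigma_eq`; the number of the special tops `nSp` is at most the number of the orbits of diamond arrows.
-/

namespace Pool.Agent.DI

open MulAction
open Pool.Agent.SAF (InC orbs FinOrb oc mk_eq_iff FinOrb_iff oc_mono oc_le_of_inj oc_le_of_rel
  oc_le_of_surj)

namespace P45

variable {H V : Type} [Group H] [MulAction H V] {K : GX H V} {P : P45 K}

theorem fin_U : (orbs H P.U).Finite := fin_of U_sub

theorem fin_Dm : (orbs H P.Dm).Finite := fin_of Dm_sub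

/-- sigma as a sum over orbits of arrows of tops -/
theorem sigma_eq (h1 : ∀ p ∈ P.TA, 1 ≤ P.X p.1 p.2)
    (fU : (orbs H P.U).Finite) (fD : (orbs H P.Dm).Finite) :
    P.sigma = 4 * ∑ c ∈ fU.toFinset, (P.Xo c - 1) + 3 * ∑ c ∈ fD.toFinset, (P.Xo c - 1) := by
  have a1 : P.sm P.U = ∑ c ∈ fU.toFinset, (P.Xo c - 1) :=
    sub_eq U_smul fU (fun p hp => h1 p (U_sub hp))
  have a2 : P.sm P.Dm = ∑ c ∈ fD.toFinset, (P.Xo c - 1) :=
    sub_eq Dm_smul fD (fun p hp => h1 p (Dm_sub hp))
  unfold sigma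
  rw [a1, a2]

/-- a gamma top is ordinary -/
theorem U_ord {T a b y : V} (k : P.Top T a b y) (h1 : K.ar a y) (h2 : K.ar y b)
    {h : H} (hT : h • T = T) (hn : a ≠ b) : h • a = a ∧ h • b = b := by
  have r1 := K.ar_rk _ _ h1
  have r2 := K.ar_rk _ _ h2
  have ha := K.ar_smul h _ _ k.2.1
  have hb := K.ar_smul h _ _ k.2.2
  rw [hT] at ha hb
  have e1 : h • a = a := by
    rcases K.two _ _ _ _ k.2.1 k.2.2 ha with e | e | e
    · exact absurd e hn
    · have := K.rk_smul h a
      rw [← e] at this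
      omega
    · exact e.symm
  have e2 : h • b = b := by
    rcases K.two _ _ _ _ k.2.1 k.2.2 hb with e | e | e
    · exact absurd e hn
    · exact e.symm
    · have := K.rk_smul h b
      rw [← e] at this
      omega
  exact ⟨e1, e2⟩

end P45

end Pool.Agent.DI
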