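import Pool.Agent.DI.Inv

/-!
# The cycles of a finite multigraph over `ℚ`

`Z1`, `finrank_Z1 : dim Z1 = b1`. `Mor`: morphisms (lines keep their direction), `push`: push forward
of cycles. If the morphism is injective on the lines: `b1_le`, and `onto`, `supp` if the Betti numbers
agree. `bridge_iff`: a line is a bridge iff all cycles vanish there. `Zm`, `Zp`: eigenspaces of an
involution.
-/

namespace Pool.Agent.DI

namespace FG

variable (G : FG)

section

open Classical in
/-- the pairing -/
noncomputable def pr (z g : G.L → ℚ) : ℚ :=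
  letI := Fintype.ofFinite G.L
  ∑ e, z e * g e

variable {G}

theorem pr_eq [i : Fintype G.L] (z g : G.L → ℚ) : G.pr z g = ∑ e, z e * g e := by
  have h : Fintype.ofFinite G.L = i := Subsingleton.elim _ _
  subst h
  rfl

theorem pr_add (z z' g : G.L → ℚ) : G.pr (z + z') g = G.pr z g + G.pr z' g := by
  have := Fintype.ofFinite G.L
  rw [pr_eq, pr_eq, pr_eq, ← Finset.sum_add_distrib]
  exact Finset.sum_congr rfl fun e _ => by rw [Pi.add_apply, add_mul]

theorem pr_smul (r : ℚ) (z g : G.L → ℚ) : G.pr (r • z) g = r * G.pr z g := by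
  have := Fintype.ofFinite G.L
  rw [pr_eq, pr_eq, Finset.mul_sum]
  exact Finset.sum_congr rfl fun e _ => by rw [Pi.smul_apply, smul_eq_mul, mul_assoc]

theorem pr_zero (g : G.L → ℚ) : G.pr 0 g = 0 := by
  have := Fintype.ofFinite G.L
  rw [pr_eq]
  exact Finset.sum_eq_zero fun e _ => by rw [Pi.zero_apply, zero_mul]

variable (G)

/-- the coboundary -/
def dq (f : G.N → ℚ) : G.L → ℚ := fun e => f (G.b e) - f (G.a e)

/-- the cycles -/
noncomputable def Z1 : Submodule ℚ (G.L → ℚ) where
  carrier := {z | ∀ f : G.N → ℚ, G.pr z (G.dq f) = 0}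
  add_mem' := by
    intro z z' h h' f
    rw [pr_add, h, h', add_zero]
  zero_mem' := fun f => pr_zero _
  smul_mem' := by
    intro r z h f
    rw [pr_smul, h, mul_zero]

variable {G}

theorem mem_Z1 {z : G.L → ℚ} : z ∈ G.Z1 ↔ ∀ f : G.N → ℚ, G.pr z (G.dq f) = 0 := Iff.rfl

end

section

/-- the functions which are constant on the components -/
def kerQ : Submodule ℚ (G.N → ℚ) where
  carrier := {f | ∀ e, f (G.b e) - f (G.a e) = 0}
  add_mem' := by
    intro f g hf hg e
    have h1 := hf e
    have h2 := hg e
    show f (G.b e) + g (G.b e) - (f (G.a e) + g (G.a e)) = 0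
    linarith
  zero_mem' := fun e => sub_self _
  smul_mem' := by
    intro r f hf e
    show r * f (G.b e) - r * f (G.a e) = 0
    rw [← mul_sub, hf e, mul_zero]

/-- they are the functions on the set of components -/
def kerQEquiv : G.kerQ ≃ₗ[ℚ] (G.C → ℚ) where
  toFun f := lift f.1 (fun e => (sub_eq_zero.1 (f.2 e)).symm)
  invFun g := ⟨fun x => g (G.c x), fun e => sub_eq_zero.2 (congrArg g (c_line e)).symm⟩
  left_inv f := rfl
  right_inv g := by
    funext x
    obtain ⟨y, rfl⟩ := c_surj x
    rfl
  map_add' f g := by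
    funext x
    obtain ⟨y, rfl⟩ := c_surj x
    rfl
  map_smul' r f := by
    funext x
    obtain ⟨y, rfl⟩ := c_surj x
    rfl

theorem finrank_funQ (T : Type) [Finite T] : Module.finrank ℚ (T → ℚ) = Nat.card T := by
  have := Fintype.ofFinite T
  rw [Module.finrank_fintype_fun_eq_card, Nat.card_eq_fintype_card]

theorem finrank_kerQ : Module.finrank ℚ G.kerQ = G.nC := by
  rw [LinearEquiv.finrank_eq G.kerQEquiv, finrank_funQ, nC]

open Classical in
/-- the dimension of the space of cycles -/
theorem finrank_Z1 : (Module.finrank ℚ G.Z1 : ℤ) = G.b1 := by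
  have := Fintype.ofFinite G.L
  have := Fintype.ofFinite G.N
  let M : Matrix G.L G.N ℚ := Matrix.of fun e x =>
    (if G.b e = x then (1 : ℚ) else 0) - (if G.a e = x then (1 : ℚ) else 0)
  have hM : ∀ f : G.N → ℚ, M.mulVec f = G.dq f := by
    intro f
    funext e
    show ∑ x, ((if G.b e = x then (1 : ℚ) else 0) - (if G.a e = x then (1 : ℚ) else 0)) * f x = _
    simp only [sub_mul, Finset.sum_sub_distrib, ite_mul, one_mul, zero_mul, Finset.sum_ite_eq,
      Finset.mem_univ, if_true]
    rfl
  have hker : LinearMap.ker M.mulVecLin = G.kerQ := by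
    ext f
    rw [LinearMap.mem_ker, Matrix.mulVecLin_apply, hM]
    constructor
    · intro h e
      exact congrFun h e
    · intro h
      funext e
      exact h e
  have hZ : LinearMap.ker M.transpose.mulVecLin = G.Z1 := by
    ext z
    rw [LinearMap.mem_ker, Matrix.mulVecLin_apply]
    have key : ∀ f : G.N → ℚ, G.pr z (G.dq f) = dotProduct (M.transpose.mulVec z) f := by
      intro f
      rw [pr_eq, Matrix.mulVec_transpose, ← Matrix.dotProduct_mulVec, hM]
      rfl
    constructor
    · intro h f
      rw [key, h, zero_dotProduct]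
    · intro h
      funext x
      have h1 := h (Pi.single x 1)
      rw [key, dotProduct_single, mul_one] at h1
      exact h1
  have h1 := LinearMap.finrank_range_add_finrank_ker M.mulVecLin
  have h2 := LinearMap.finrank_range_add_finrank_ker M.transpose.mulVecLin
  have h3 : M.transpose.rank = M.rank := M.rank_transpose
  rw [hker, G.finrank_kerQ, finrank_funQ] at h1
  rw [hZ, finrank_funQ] at h2
  unfold Matrix.rank at h3
  unfold b1 nL nN
  omega

theorem Z1_eq_bot_iff : G.Z1 = ⊥ ↔ G.b1 = 0 := by
  rw [← G.finrank_Z1]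
  rw [Int.natCast_eq_zero, Submodule.finrank_eq_zero]

end

/-- a morphism of finite multigraphs -/
structure Mor (G' G : FG) where
  n : G'.N → G.N
  l : G'.L → G.L
  ha : ∀ e, G.a (l e) = n (G'.a e)
  hb : ∀ e, G.b (l e) = n (G'.b e)

namespace Mor

variable {G' G : FG} (φ : Mor G' G)

open Classical in
/-- push forward of chains -/
noncomputable def push : (G'.L → ℚ) →ₗ[ℚ] (G.L → ℚ) :=
  letI := Fintype.ofFinite G'.L
  { toFun := fun z e => ∑ e', if φ.l e' = e then z e' else 0
    map_add' := by
      intro z z'
      funext e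
      show ∑ e', (if φ.l e' = e then z e' + z' e' else 0) = _
      rw [Pi.add_apply, ← Finset.sum_add_distrib]
      refine Finset.sum_congr rfl fun e' _ => ?_
      split_ifs
      · rfl
      · rw [add_zero]
    map_smul' := by
      intro r z
      funext e
      show ∑ e', (if φ.l e' = e then r * z e' else 0) = r * ∑ e', (if φ.l e' = e then z e' else 0)
      rw [Finset.mul_sum]
      refine Finset.sum_congr rfl fun e' _ => ?_
      split_ifs
      · rfl
      · rw [mul_zero] }

open Classical in
theorem push_eq [i : Fintype G'.L] (z : G'.L → ℚ) (e : G.L) :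
    φ.push z e = ∑ e', if φ.l e' = e then z e' else 0 := by
  have h : Fintype.ofFinite G'.L = i := Subsingleton.elim _ _
  subst h
  rfl

theorem pr_push (z : G'.L → ℚ) (g : G.L → ℚ) :
    G.pr (φ.push z) g = G'.pr z (fun e => g (φ.l e)) := by
  classical
  have := Fintype.ofFinite G'.L
  have := Fintype.ofFinite G.L
  rw [pr_eq, pr_eq]
  simp only [push_eq, Finset.sum_mul, ite_mul, zero_mul]
  rw [Finset.sum_comm]
  refine Finset.sum_congr rfl fun e' _ => ?_
  rw [Finset.sum_ite_eq, if_pos (Finset.mem_univ _)]

theorem push_mem {z : G'.L → ℚ} (hz : z ∈ G'.Z1) : φ.push z ∈ G.Z1 := by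
  intro f
  rw [pr_push]
  have h := hz (fun x => f (φ.n x))
  have e : (fun e => G.dq f (φ.l e)) = G'.dq (fun x => f (φ.n x)) := by
    funext e
    show f (G.b (φ.l e)) - f (G.a (φ.l e)) = f (φ.n (G'.b e)) - f (φ.n (G'.a e))
    rw [φ.ha, φ.hb]
  rw [e]
  exact h

theorem push_apply (hl : Function.Injective φ.l) (z : G'.L → ℚ) (e : G'.L) :
    φ.push z (φ.l e) = z e := by
  classical
  have := Fintype.ofFinite G'.L
  rw [push_eq]
  have : ∀ e', (if φ.l e' = φ.l e then z e' else 0) = if e' = e then z e' else 0 := by
    intro e'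
    simp only [hl.eq_iff]
  rw [Finset.sum_congr rfl fun e' _ => this e', Finset.sum_ite_eq', if_pos (Finset.mem_univ _)]

theorem push_zero (z : G'.L → ℚ) (e : G.L) (h : ∀ e', φ.l e' ≠ e) : φ.push z e = 0 := by
  classical
  have := Fintype.ofFinite G'.L
  rw [push_eq]
  exact Finset.sum_eq_zero fun e' _ => if_neg (h e')

/-- push forward of cycles -/
noncomputable def pushZ : G'.Z1 →ₗ[ℚ] G.Z1 := φ.push.restrict (fun _ hz => φ.push_mem hz)

theorem pushZ_inj (hl : Function.Injective φ.l) : Function.Injective φ.pushZ := by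
  intro z z' h
  have h1 : φ.push z.1 = φ.push z'.1 := congrArg Subtype.val h
  apply Subtype.ext
  funext e
  rw [← φ.push_apply hl z.1 e, h1, φ.push_apply hl]

/-- a morphism which is injective on the lines does not lower the Betti number -/
theorem b1_le (hl : Function.Injective φ.l) : G'.b1 ≤ G.b1 := by
  rw [← finrank_Z1, ← finrank_Z1]
  exact_mod_cast LinearMap.finrank_le_finrank_of_injective (φ.pushZ_inj hl)

/-- if the Betti numbers agree all cycles come from `G'` -/
theorem onto (hl : Function.Injective φ.l) (h : G.b1 ≤ G'.b1) {z : G.L → ℚ} (hz : z ∈ G.Z1) :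
    ∃ z' ∈ G'.Z1, φ.push z' = z := by
  rw [← finrank_Z1, ← finrank_Z1] at h
  have h' : Module.finrank ℚ G.Z1 ≤ Module.finrank ℚ G'.Z1 := by exact_mod_cast h
  have h2 : Module.finrank ℚ G'.Z1 = Module.finrank ℚ G.Z1 :=
    le_antisymm (LinearMap.finrank_le_finrank_of_injective (φ.pushZ_inj hl)) h'
  have hs : Function.Surjective φ.pushZ :=
    (LinearMap.injective_iff_surjective_of_finrank_eq_finrank h2).1 (φ.pushZ_inj hl)
  obtain ⟨z', hz'⟩ := hs ⟨z, hz⟩
  exact ⟨z'.1, z'.2, congrArg Subtype.val hz'⟩

theorem supp (hl : Function.Injective φ.l) (h : G.b1 ≤ G'.b1) {z : G.L → ℚ} (hz : z ∈ G.Z1)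
    {e : G.L} (he : z e ≠ 0) : ∃ e', φ.l e' = e := by
  by_contra hno
  push Not at hno
  obtain ⟨z', -, rfl⟩ := φ.onto hl h hz
  exact he (φ.push_zero z' e hno)

end Mor

section

variable (G : FG)

/-- the inclusion of a set of lines -/
def subMor (A : Set G.L) : Mor (G.sub A) G where
  n := fun x => x
  l := fun e => e.1
  ha _ := rfl
  hb _ := rfl

variable {G}

/-- a line is a bridge iff all cycles vanish there -/
theorem bridge_iff (e : G.L) : (∀ z ∈ G.Z1, z e = 0) ↔ ∃ f : G.N → ZMod 2,
    f (G.a e) ≠ f (G.b e) ∧ ∀ e', e' ≠ e → f (G.a e') = f (G.b e') := by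
  classical
  constructor
  · intro h
    -- the graph without `e`
    let A : Set G.L := {e}ᶜ
    by_contra hno
    push Not at hno
    have hconn : (G.sub A).c (G.a e) = (G.sub A).c (G.b e) := by
      by_contra hne
      let f : G.N → ZMod 2 := fun x => if (G.sub A).c x = (G.sub A).c (G.a e) then 0 else 1
      obtain ⟨e', h1, h2⟩ := hno f (by
        show (if (G.sub A).c (G.a e) = (G.sub A).c (G.a e) then (0 : ZMod 2) else 1) ≠
          if (G.sub A).c (G.b e) = (G.sub A).c (G.a e) then 0 else 1
        rw [if_pos rfl, if_neg (Ne.symm hne)]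
        exact zero_ne_one)
      apply h2
      have := c_line (G := G.sub A) ⟨e', h1⟩
      show (if (G.sub A).c (G.a e') = (G.sub A).c (G.a e) then (0 : ZMod 2) else 1) =
        if (G.sub A).c (G.b e') = (G.sub A).c (G.a e) then 0 else 1
      have this' : (G.sub A).c (G.a e') = (G.sub A).c (G.b e') := this
      rw [this']
    -- the components are the same
    have hC : (G.sub A).nC = G.nC := by
      have e1 : (G.sub A).C ≃ G.C :=
        { toFun := lift (G := G.sub A) G.c (fun e' => c_line e'.1)
          invFun := lift (G := G) (G.sub A).c (fun e' => by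
            by_cases he : e' = e
            · rw [he]; exact hconn
            · exact c_line (G := G.sub A) ⟨e', he⟩)
          left_inv := by
            intro x
            obtain ⟨y, rfl⟩ := c_surj x
            rfl
          right_inv := by
            intro x
            obtain ⟨y, rfl⟩ := c_surj x
            rfl }
      exact Nat.card_congr e1
    have hL : (G.sub A).nL + 1 = G.nL := by
      have h1 := Nat.card_congr (Equiv.sumCompl (fun e' : G.L => e' ∈ A))
      rw [Nat.card_sum] at h1
      have h2 : Nat.card {a // ¬ a ∈ A} = 1 := by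
        rw [Nat.card_eq_one_iff_unique]
        refine ⟨⟨?_⟩, ⟨⟨e, fun h => h rfl⟩⟩⟩
        rintro ⟨x, hx⟩ ⟨y, hy⟩
        have hx' : x = e := not_not.1 hx
        have hy' : y = e := not_not.1 hy
        exact Subtype.ext (hx'.trans hy'.symm)
      rw [h2] at h1
      exact h1
    have hb : (G.sub A).b1 + 1 = G.b1 := by
      have hN := G.nN_sub A
      unfold b1
      rw [hC]
      omega
    -- all cycles come from the smaller graph
    let ψ : G.Z1 →ₗ[ℚ] (G.sub A).Z1 :=
      LinearMap.restrict (p := G.Z1) (q := (G.sub A).Z1)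
        { toFun := fun z e' => z e'.1
          map_add' := fun _ _ => rfl
          map_smul' := fun _ _ => rfl } (by
        intro z hz (f : G.N → ℚ)
        have := Fintype.ofFinite G.L
        have := Fintype.ofFinite (G.sub A).L
        rw [pr_eq]
        have h1 := hz f
        rw [pr_eq] at h1
        rw [← h1]
        have h2 : ∑ e', z e' * G.dq f e' = ∑ e' ∈ Finset.univ.filter (fun e' => e' ∈ A),
            z e' * G.dq f e' := by
          rw [Finset.sum_filter]
          refine Finset.sum_congr rfl fun e' _ => ?_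
          by_cases he : e' = e
          · rw [if_neg (by rw [he]; exact fun h => h rfl), he, h z hz, zero_mul]
          · rw [if_pos (show e' ∈ A from he)]
        rw [h2]
        refine Finset.sum_bij (fun (e' : (G.sub A).L) _ => e'.1) ?_ ?_ ?_ ?_
        · intro e' _
          exact Finset.mem_filter.2 ⟨Finset.mem_univ _, e'.2⟩
        · intro a _ b _ hab
          exact Subtype.ext hab
        · intro b hb
          exact ⟨⟨b, (Finset.mem_filter.1 hb).2⟩, Finset.mem_univ _, rfl⟩
        · intro a _
          rfl)
    have hψ : Function.Injective ψ := by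
      intro z z' hz
      apply Subtype.ext
      funext e'
      by_cases he : e' = e
      · rw [he, h z.1 z.2, h z'.1 z'.2]
      · exact congrFun (congrArg Subtype.val hz) ⟨e', he⟩
    have := LinearMap.finrank_le_finrank_of_injective hψ
    have h3 := G.finrank_Z1
    have h4 := (G.sub A).finrank_Z1
    omega
  · rintro ⟨f, h1, h2⟩ z hz
    have h3 := hz (fun x => if f x = f (G.a e) then 0 else 1)
    have := Fintype.ofFinite G.L
    rw [pr_eq, Finset.sum_eq_single e] at h3
    · have h4 : G.dq (fun x => if f x = f (G.a e) then (0 : ℚ) else 1) e = 1 := by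
        show (if f (G.b e) = f (G.a e) then (0 : ℚ) else 1) -
          (if f (G.a e) = f (G.a e) then (0 : ℚ) else 1) = 1
        rw [if_pos rfl, if_neg (Ne.symm h1), sub_zero]
      rw [h4, mul_one] at h3
      exact h3
    · intro e' _ he
      have h4 : G.dq (fun x => if f x = f (G.a e) then (0 : ℚ) else 1) e' = 0 := by
        show (if f (G.b e') = f (G.a e) then (0 : ℚ) else 1) -
          (if f (G.a e') = f (G.a e) then (0 : ℚ) else 1) = 0
        rw [h2 e' he, sub_self]
      rw [h4, mul_zero]
    · intro h5
      exact absurd (Finset.mem_univ _) h5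

end

end FG

end Pool.Agent.DI
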