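import Pool.Agent.DI.PG4
import Pool.Agent.DI.Quot

/-!
# DI/Zc: at most one real corner next to a zero square

`ZD P`: the only cell which is no pentagon is the square `s, n, b, t` with `n → s → t`, `n → b → t`,
the stabiliser of `n` fixes `t`, and `D` is a union of pieces of `s` which contains `n`. `Z.qt`: the
quotient `h n ~ h t`, in which the square disappears.
-/

namespace Pool.Agent.DI

open MulAction
open Pool.Agent.SAF (InC orbs FinOrb oc)
open Pool.Agent.BT (lz lz_self lz_ne lz_symm)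

variable {H V : Type} [Group H] [MulAction H V]

/-- a zero square and a union of pieces -/
structure ZD {K : GX H V} (P : PG K) where
  i0 : K.I
  s : V
  n : V
  b : V
  t : V
  five : ∀ i, i ≠ i0 → P.five i
  nfive : ¬ P.five i0
  cb0 : K.cb i0 = s
  cw0 : K.cw i0 = [n, b, t, s]
  hns : K.ar n s
  hnb : K.ar n b
  hst : K.ar s t
  hbt : K.ar b t
  sb : s ≠ b
  hnt : ∀ g : H, g • n = n → g • t = t
  D : PcG P
  Dv : D.v = s
  Db : D.b = t
  nR : n ∈ D.R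

namespace ZD

variable {K : GX H V} {P : PG K} (Z : ZD P)

theorem rk1 : K.rk Z.t < K.rk Z.s := K.ar_rk _ _ Z.hst

theorem rk2 : K.rk Z.s < K.rk Z.n := K.ar_rk _ _ Z.hns

theorem rkb1 : K.rk Z.t < K.rk Z.b := K.ar_rk _ _ Z.hbt

theorem rkb2 : K.rk Z.b < K.rk Z.n := K.ar_rk _ _ Z.hnb

/-- the out-neighbours of the translates of `n` -/
theorem n_out {g : H} {x : V} (h : K.ar (g • Z.n) x) : x = g • Z.s ∨ x = g • Z.b := by
  rcases K.two _ _ _ _ h (K.ar_smul g _ _ Z.hns) (K.ar_smul g _ _ Z.hnb) with e | e | e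
  · exact Or.inl e
  · exact absurd (smul_left_cancel g e) Z.sb
  · exact Or.inr e

/-- the vertices which are no translates of `n` -/
def W : SubMulAction H V where
  carrier := {x | ∀ g : H, g • Z.n ≠ x}
  smul_mem' := by
    intro c x hx g e
    exact hx (c⁻¹ * g) (by rw [mul_smul, e, inv_smul_smul])

theorem mem_W {x : V} : x ∈ Z.W ↔ ∀ g : H, g • Z.n ≠ x := Iff.rfl

theorem W_of_rk {x : V} (h : K.rk x < K.rk Z.n) : x ∈ Z.W := by
  intro g e
  rw [← e, K.rk_smul] at h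
  exact lt_irrefl _ h

open Classical in
/-- the translates of `n` go to the translates of `t` -/
noncomputable def f0 (x : V) : V :=
  if h : ∃ g : H, g • Z.n = x then Classical.choose h • Z.t else x

theorem f0_n (g : H) : Z.f0 (g • Z.n) = g • Z.t := by
  have h : ∃ k : H, k • Z.n = g • Z.n := ⟨g, rfl⟩
  unfold f0
  rw [dif_pos h]
  have e := Classical.choose_spec h
  set k := Classical.choose h
  have e1 : (g⁻¹ * k) • Z.n = Z.n := by rw [mul_smul, e, inv_smul_smul]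
  have e2 := Z.hnt _ e1
  rw [mul_smul, inv_smul_eq_iff] at e2
  exact e2

theorem f0_W {x : V} (h : x ∈ Z.W) : Z.f0 x = x := by
  have h' : ¬ ∃ g : H, g • Z.n = x := fun ⟨g, e⟩ => h g e
  unfold f0
  rw [dif_neg h']

theorem cases (x : V) : x ∈ Z.W ∨ ∃ g : H, x = g • Z.n := by
  by_cases h : ∃ g : H, g • Z.n = x
  · obtain ⟨g, e⟩ := h
    exact Or.inr ⟨g, e.symm⟩
  · exact Or.inl fun g e => h ⟨g, e⟩

theorem rk_f0 (x : V) : K.rk (Z.f0 x) ≤ K.rk x := by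
  rcases Z.cases x with h | ⟨g, rfl⟩
  · rw [Z.f0_W h]
  · rw [Z.f0_n, K.rk_smul, K.rk_smul]
    have := Z.rk1
    have := Z.rk2
    omega

theorem f0_mem (x : V) : Z.f0 x ∈ Z.W := by
  rcases Z.cases x with h | ⟨g, rfl⟩
  · rw [Z.f0_W h]
    exact h
  · apply Z.W_of_rk
    rw [Z.f0_n, K.rk_smul]
    have := Z.rk1
    have := Z.rk2
    omega

theorem f0_smul (h : H) (x : V) : Z.f0 (h • x) = h • Z.f0 x := by
  rcases Z.cases x with hx | ⟨g, rfl⟩
  · rw [Z.f0_W hx, Z.f0_W (Z.W.smul_mem h hx)]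
  · rw [← mul_smul, Z.f0_n, Z.f0_n, mul_smul]

/-- the quotient map -/
noncomputable def f (x : V) : Z.W := ⟨Z.f0 x, Z.f0_mem x⟩

theorem f_coe (x : V) : (Z.f x : V) = Z.f0 x := rfl

theorem f_W (x : Z.W) : Z.f x = x := Subtype.ext (Z.f0_W x.2)

theorem f_eq_iff {x y : V} : Z.f x = Z.f y ↔ Z.f0 x = Z.f0 y :=
  ⟨fun e => congrArg Subtype.val e, fun e => Subtype.ext e⟩

theorem f_smul (h : H) (x : V) : Z.f (h • x) = h • Z.f x := Subtype.ext (Z.f0_smul h x)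

/-- the new arrows -/
def ar' (c d : Z.W) : Prop := ∃ z, K.ar (c : V) z ∧ Z.f z = d

/-- old arrows -/
theorem ar_f {x y : V} (h : K.ar x y) : Z.ar' (Z.f x) (Z.f y) ∨ Z.ar' (Z.f y) (Z.f x) := by
  rcases Z.cases x with hx | ⟨g, rfl⟩
  · left
    refine ⟨y, ?_, rfl⟩
    rw [f_coe, Z.f0_W hx]
    exact h
  · right
    refine ⟨g • Z.t, ?_, ?_⟩
    · have r1 := K.ar_rk _ _ h
      rw [K.rk_smul] at r1
      rw [f_coe, Z.f0_W (Z.W_of_rk r1)]
      rcases Z.n_out h with rfl | rfl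
      · exact K.ar_smul g _ _ Z.hst
      · exact K.ar_smul g _ _ Z.hbt
    · rw [f_eq_iff, Z.f0_n]
      apply Z.f0_W
      apply Z.W_of_rk
      rw [K.rk_smul]
      have := Z.rk1
      have := Z.rk2
      omega

/-- the quotient -/
noncomputable def qt : Qt K Z.f where
  ar := Z.ar'
  rk c := K.rk c
  equi := Z.f_smul
  surj c := ⟨c, Z.f_W c⟩
  ar_rk := by
    rintro c d ⟨z, hz, rfl⟩
    exact lt_of_le_of_lt (Z.rk_f0 z) (K.ar_rk _ _ hz)
  ar_smul := by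
    rintro h c d ⟨z, hz, rfl⟩
    exact ⟨h • z, K.ar_smul h _ _ hz, Z.f_smul h z⟩
  rk_smul h c := K.rk_smul h c
  two := by
    rintro v a b c ⟨z, hz, rfl⟩ ⟨z', hz', rfl⟩ ⟨z'', hz'', rfl⟩
    rcases K.two _ _ _ _ hz hz' hz'' with e | e | e
    · exact Or.inl (by rw [e])
    · exact Or.inr (Or.inl (by rw [e]))
    · exact Or.inr (Or.inr (by rw [e]))
  e1 := by
    rintro x y (h | h)
    · exact Or.inr (Z.ar_f h)
    · exact Or.inr (Z.ar_f h).symm
  e2 := by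
    rintro c d ⟨z, hz, rfl⟩
    exact ⟨c, z, Or.inl hz, Z.f_W c, rfl⟩
  mg := by
    have key : ∀ x, BT.Mg K.hg Z.f x (Z.f0 x) := by
      intro x
      rcases Z.cases x with hx | ⟨g, rfl⟩
      · rw [Z.f0_W hx]
        exact BT.Mg.refl x
      · rw [Z.f0_n]
        refine BT.Mg.nb _ _ (g • Z.s) (g • Z.s) ?_ (BT.Mg.refl _)
          (Or.inr (K.ar_smul g _ _ Z.hns)) (Or.inl (K.ar_smul g _ _ Z.hst))
        rw [f_eq_iff, Z.f0_n]
        have := Z.f0_W (Z.f0_mem (g • Z.n))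
        rw [Z.f0_n] at this
        exact this.symm
    intro x y e
    have e' := Z.f_eq_iff.1 e
    refine BT.Mg.trans _ _ _ (key x) ?_
    rw [e']
    exact BT.Mg.symm _ _ (key y)
  stab v := by
    have e : stabilizer H v = stabilizer H (v : V) := by
      ext g
      rw [mem_stabilizer_iff, mem_stabilizer_iff]
      exact ⟨fun k => congrArg Subtype.val k, fun k => Subtype.ext k⟩
    rw [e]
    exact K.stab v
  J := {i : K.I // i ≠ Z.i0}
  finJ := by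
    have := K.finI
    infer_instance
  ι := Subtype.val
  drop := by
    intro i hi φ hs
    have e : i = Z.i0 := by
      by_contra k
      exact hi ⟨i, k⟩ rfl
    rw [e, Z.cb0, Z.cw0]
    simp only [List.map_cons, List.map_nil, ps_cons, ps_nil, add_zero]
    have e1 : Z.f Z.n = Z.f Z.t := by
      have k := Z.f0_n 1
      rw [one_smul, one_smul] at k
      rw [f_eq_iff, k]
      apply (Z.f0_W _).symm
      apply Z.W_of_rk
      have := Z.rk1
      have := Z.rk2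
      omega
    rw [e1, lz_symm φ hs (Z.f Z.t) (Z.f Z.b), lz_symm φ hs (Z.f Z.t) (Z.f Z.s)]
    have k1 := add_self_two (lz φ (Z.f Z.s) (Z.f Z.t))
    have k2 := add_self_two (lz φ (Z.f Z.b) (Z.f Z.t))
    linear_combination k1 + k2

/-- the kept cells are pentagons -/
def q5 : Q5 Z.qt where
  p j := P.pt j.1
  inj := Subtype.val_injective
  cb_eq j := P.cb_eq _ (Z.five _ j.2)
  cw_eq j := P.cw_eq _ (Z.five _ j.2)
  short := by
    intro i hi
    have e : i = Z.i0 := by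
      by_contra k
      exact hi ⟨i, k⟩ rfl
    rw [e, Z.cw0]
    exact le_rfl

end ZD

/-! ### corners in a complex with pentagons only -/

namespace PcD

variable {K : GX H V} {P : Pt K} (D : PcD P)

theorem ca_symm {x y z : V} : D.ca x y z ↔ D.ca z y x := by
  constructor
  · rintro ⟨h, h1, h2⟩
    exact ⟨h, h1, h2.symm⟩
  · rintro ⟨h, h1, h2⟩
    exact ⟨h, h1, h2.symm⟩

theorem ca_iff {h : H} {x y z : V} (h1 : h⁻¹ • x ∈ D.R) (h2 : y = h • D.v) :
    D.ca x y z ↔ z = h • D.a := by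
  constructor
  · rintro ⟨k, k2, ⟨k1, e⟩ | ⟨k1, e⟩⟩
    · rw [e]
      have e1 := D.τ_eq h1 h2
      rw [D.τ_eq k1 k2] at e1
      exact e1
    · exfalso
      have r1 := K.ar_rk _ _ (D.mv_ar ⟨h, h1, h2⟩)
      have r2 := K.ar_rk _ _ (K.ar_smul k _ _ D.va)
      rw [← k2, ← e] at r2
      omega
  · intro e
    exact ⟨h, h2, Or.inl ⟨h1, e⟩⟩

theorem ca_mv {x y z : V} (h : D.ca x y z) : D.mv x y ∨ D.mv z y := by
  obtain ⟨k, k2, ⟨k1, -⟩ | ⟨k1, -⟩⟩ := h
  · exact Or.inl ⟨k, k1, k2⟩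
  · exact Or.inr ⟨k, k1, k2⟩

end PcD

/-- the closedness at the pentagons -/
theorem PcG.cl' {K : GX H V} {P : PG K} (D : PcG P) {c : Fin 5 → V} {i : K.I} (a : P.At c i)
    {k : H} (h2 : c 1 = k • D.v) (h1 : k⁻¹ • c 0 ∈ D.R) :
    k⁻¹ • c 2 ∈ D.R ∨ K.ar D.v (k⁻¹ • c 2) := by
  obtain ⟨g, hg | hg⟩ := PG.cons3 a
  · refine (D.cl i (g * k) (k⁻¹ • c 0) (k⁻¹ • c 2) ?_).1 h1
    rw [mul_smul, mul_smul, mul_smul, smul_inv_smul, smul_inv_smul, ← h2]
    exact hg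
  · refine (D.cl i (g * k) (k⁻¹ • c 2) (k⁻¹ • c 0) ?_).2 h1
    rw [mul_smul, mul_smul, mul_smul, smul_inv_smul, smul_inv_smul, ← h2]
    exact hg

open Classical in
/-- the number of corners of a pentagon -/
theorem PG.wcn_eq {K : GX H V} (P : PG K) {i : K.I} (hi : P.five i) (F : V → V → V → Prop) :
    wcn F (K.cb i) (K.cw i) =
      ∑ j : Fin 5, if F (P.pt i j) (P.pt i (j + 1)) (P.pt i (j + 2)) then 1 else 0 := by
  rw [P.cb_eq i hi, P.cw_eq i hi]
  show ((if F (P.pt i 0) (P.pt i 1) (P.pt i 2) then (1 : ℤ) else 0) +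
    ((if F (P.pt i 1) (P.pt i 2) (P.pt i 3) then (1 : ℤ) else 0) +
    ((if F (P.pt i 2) (P.pt i 3) (P.pt i 4) then (1 : ℤ) else 0) +
    ((if F (P.pt i 3) (P.pt i 4) (P.pt i 0) then (1 : ℤ) else 0) +
    ((if F (P.pt i 4) (P.pt i 0) (P.pt i 1) then (1 : ℤ) else 0) + 0))))) = _
  rw [Fin.sum_univ_five]
  have f0 : (0 : Fin 5) + 1 = 1 := rfl
  have f1 : (1 : Fin 5) + 1 = 2 := rfl
  have f2 : (2 : Fin 5) + 1 = 3 := rfl
  have f3 : (3 : Fin 5) + 1 = 4 := rfl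
  have f4 : (4 : Fin 5) + 1 = 0 := rfl
  have g0 : (0 : Fin 5) + 2 = 2 := rfl
  have g1 : (1 : Fin 5) + 2 = 3 := rfl
  have g2 : (2 : Fin 5) + 2 = 4 := rfl
  have g3 : (3 : Fin 5) + 2 = 0 := rfl
  have g4 : (4 : Fin 5) + 2 = 1 := rfl
  rw [f0, f1, f2, f3, f4, g0, g1, g2, g3, g4]
  ring

namespace ZD

variable {K : GX H V} {P : PG K} (Z : ZD P)

theorem sy : K.ar Z.s Z.D.a := by
  have := Z.D.va
  rwa [Z.Dv] at this

theorem yt : Z.D.a ≠ Z.t := by
  have := Z.D.ab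
  rwa [Z.Db] at this

theorem s_W : Z.s ∈ Z.W := Z.W_of_rk Z.rk2

theorem t_W : Z.t ∈ Z.W := Z.W_of_rk (Z.rk1.trans Z.rk2)

theorem y_W : Z.D.a ∈ Z.W := Z.W_of_rk ((K.ar_rk _ _ Z.sy).trans Z.rk2)

/-- translates of pentagons lift -/
theorem lift (hm : K.Min) {c : Fin 5 → Z.W} {i : Z.qt.gx.I} (a : (Z.q5.pt hm).At c i) :
    ∃ d : Fin 5 → V, P.At d i.1 ∧ ∀ j, c j = Z.f (d j) := by
  obtain ⟨h, k, a | a⟩ := a
  · refine ⟨fun j => h • P.pt i.1 (k + j), ⟨Z.five _ i.2, h, k, Or.inl fun _ => rfl⟩, fun j => ?_⟩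
    rw [a, Z.f_smul]
    rfl
  · refine ⟨fun j => h • P.pt i.1 (k - j), ⟨Z.five _ i.2, h, k, Or.inr fun _ => rfl⟩, fun j => ?_⟩
    rw [a, Z.f_smul]
    rfl

/-- and conversely -/
theorem desc (hm : K.Min) {d : Fin 5 → V} {i : K.I} (a : P.At d i) :
    ∃ i' : Z.qt.gx.I, (Z.q5.pt hm).At (fun j => Z.f (d j)) i' := by
  obtain ⟨hi, h, k, a⟩ := a
  have hne : i ≠ Z.i0 := by
    rintro rfl
    exact Z.nfive hi
  refine ⟨⟨i, hne⟩, h, k, ?_⟩
  rcases a with a | a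
  · left
    intro j
    show Z.f (d j) = _
    rw [a, Z.f_smul]
    rfl
  · right
    intro j
    show Z.f (d j) = _
    rw [a, Z.f_smul]
    rfl

/-- no backtracks in the quotient -/
theorem ne2 (hm : K.Min) {d : Fin 5 → V} {i : K.I} (a : P.At d i) (j : Fin 5) :
    Z.f (d j) ≠ Z.f (d (j + 2)) := by
  obtain ⟨i', a'⟩ := Z.desc hm a
  exact a'.ne2 (Z.q5.min hm) j

/-- a vertex over `s` -/
theorem eq_of_f {x : V} {c : Z.W} (h : Z.f x = c) (hr : K.rk Z.t < K.rk (c : V)) : x = c := by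
  rcases Z.cases x with hx | ⟨g, rfl⟩
  · rw [← h, f_coe, Z.f0_W hx]
  · exfalso
    rw [← h, f_coe, Z.f0_n, K.rk_smul] at hr
    exact lt_irrefl _ hr

/-- the union of pieces in the quotient -/
noncomputable def D1 (hm : K.Min) : PcD (Z.q5.pt hm) where
  v := ⟨Z.s, Z.s_W⟩
  a := ⟨Z.D.a, Z.y_W⟩
  b := ⟨Z.t, Z.t_W⟩
  R := {m | (m : V) ∈ Z.D.R}
  va := ⟨Z.D.a, Z.sy, Z.f_W ⟨_, Z.y_W⟩⟩
  vb := ⟨Z.t, Z.hst, Z.f_W ⟨_, Z.t_W⟩⟩
  ab e := Z.yt (congrArg Subtype.val e)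
  R_ar := by
    intro m hm'
    refine ⟨Z.s, ?_, Z.f_W ⟨_, Z.s_W⟩⟩
    have := Z.D.R_ar _ hm'
    rwa [Z.Dv] at this
  stab := by
    intro g hv m h1 h2
    apply Subtype.ext
    refine Z.D.stab g ?_ m h1 h2
    rw [Z.Dv]
    exact congrArg Subtype.val hv
  inv := by
    intro g hv ha m h1
    refine Z.D.inv g ?_ (congrArg Subtype.val ha) m h1
    rw [Z.Dv]
    exact congrArg Subtype.val hv
  cl := by
    intro c i a h1 h0
    obtain ⟨d, a', e⟩ := Z.lift hm a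
    have h0 : (c 0 : V) ∈ Z.D.R := h0
    have e1 : d 1 = Z.s := Z.eq_of_f ((e 1).symm.trans h1) Z.rk1
    have r0 : K.rk Z.s < K.rk (c 0 : V) := by
      have := K.ar_rk _ _ (Z.D.R_ar _ h0)
      rwa [Z.Dv] at this
    have e0 : d 0 = c 0 := Z.eq_of_f (e 0).symm (Z.rk1.trans r0)
    have h := Z.D.cl' a' (k := 1) (by rw [one_smul, Z.Dv]; exact e1)
      (by rw [inv_one, one_smul, e0]; exact h0)
    rw [inv_one, one_smul, Z.Dv] at h
    rcases h with h | h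
    · rcases Z.cases (d 2) with h2 | ⟨g, h2⟩
      · left
        show (c 2 : V) ∈ Z.D.R
        rw [e, f_coe, Z.f0_W h2]
        exact h
      · right
        refine ⟨g • Z.t, ?_, ?_⟩
        · show K.ar Z.s (g • Z.t)
          have k := Z.D.R_ar _ h
          rw [Z.Dv, h2] at k
          rcases Z.n_out k with k | k
          · rw [k]
            exact K.ar_smul g _ _ Z.hst
          · rw [k]
            exact K.ar_smul g _ _ Z.hbt
        · rw [e, h2, f_eq_iff, Z.f0_n]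
          exact Z.f0_W (Z.W.smul_mem g Z.t_W)
    · right
      exact ⟨d 2, h, (e 2).symm⟩

/-- all translates of `n` in the pieces look like `n` -/
def Good : Prop := ∀ g : H, g • Z.n ∈ Z.D.R → g • Z.t = Z.t ∧ Tr H Z.n Z.s (g • Z.n) Z.s

open Classical in
/-- the corners of a pentagon, one leg moved -/
theorem corner' (hm : K.Min) (hg : Z.Good) {c : Fin 5 → V} {i : K.I} (a : P.At c i)
    (mv : Z.D.mv (c 0) (c 1)) :
    (if (Z.D1 hm).swap.ca (Z.f (c 0)) (Z.f (c 1)) (Z.f (c 2)) then (1 : ℤ) else 0) +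
      (if Z.D.ca (c 0) (c 1) (c 2) then 1 else 0) =
    (if (Z.D1 hm).ca (Z.f (c 0)) (Z.f (c 1)) (Z.f (c 2)) then 1 else 0) +
      (if Z.D.swap.ca (c 0) (c 1) (c 2) then 1 else 0) +
      ((if Tr H Z.n Z.s (c 0) (c 1) then 1 else 0) +
      (if Tr H Z.n Z.s (c 2) (c 1) then 1 else 0)) := by
  obtain ⟨h, h0, h1⟩ := mv
  have h1' : c 1 = h • Z.s := by rw [h1, Z.Dv]
  have hcl := Z.D.cl' a h1 h0
  have iA : Z.D.ca (c 0) (c 1) (c 2) ↔ c 2 = h • Z.D.a := Z.D.ca_iff h0 h1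
  have iB : Z.D.swap.ca (c 0) (c 1) (c 2) ↔ c 2 = h • Z.t := by
    have := Z.D.swap.ca_iff (z := c 2) h0 h1
    rw [this, ← Z.Db]
    rfl
  have hf1 : Z.f (c 1) = h • (Z.D1 hm).v := by
    apply Subtype.ext
    rw [f_coe, h1', Z.f0_W (Z.W.smul_mem h Z.s_W)]
    rfl
  -- ranks
  have rR : ∀ x, h⁻¹ • x ∈ Z.D.R → K.rk Z.s < K.rk x := by
    intro x hx
    have := K.ar_rk _ _ (Z.D.R_ar _ hx)
    rwa [Z.Dv, K.rk_smul] at this
  have ra := K.ar_rk _ _ Z.sy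
  have rt := Z.rk1
  have rn := Z.rk2
  -- translates of `n`
  have hn : ∀ (x : V) (g : H), x = g • Z.n → h⁻¹ • x ∈ Z.D.R → g • Z.t = h • Z.t ∧ Tr H Z.n Z.s x (c 1) := by
    rintro x g rfl hx
    rw [← mul_smul] at hx
    obtain ⟨k1, k2⟩ := hg _ hx
    rw [mul_smul, inv_smul_eq_iff] at k1
    refine ⟨k1, ?_⟩
    have := k2.smul h
    rw [← mul_smul, mul_inv_cancel_left] at this
    rw [h1']
    exact this
  have hfn : ∀ (x : V) (g : H), x = g • Z.n → h⁻¹ • x ∈ Z.D.R → Z.f x = h • (⟨Z.t, Z.t_W⟩ : Z.W) := by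
    rintro x g rfl hx
    apply Subtype.ext
    rw [f_coe, Z.f0_n, (hn _ g rfl hx).1]
    rfl
  have hTr : ∀ x, x ∈ Z.W → ¬ Tr H Z.n Z.s x (c 1) := by
    rintro x hx ⟨g, rfl, -⟩
    exact hx g rfl
  have hlow : ∀ x y : Z.W, K.rk (x : V) < K.rk Z.s → K.rk (y : V) < K.rk Z.s →
      ¬ (Z.D1 hm).ca x (Z.f (c 1)) y ∧ ¬ (Z.D1 hm).swap.ca x (Z.f (c 1)) y := by
    intro x y hx hy
    have r1 : K.rk ((Z.f (c 1) : Z.W) : V) = K.rk Z.s := by
      rw [hf1]
      exact K.rk_smul _ _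
    constructor
    · intro k
      rcases (Z.D1 hm).ca_mv k with k | k
      · have : K.rk ((Z.f (c 1) : Z.W) : V) < K.rk (x : V) :=
          Z.qt.gx.ar_rk _ _ ((Z.D1 hm).mv_ar k)
        omega
      · have : K.rk ((Z.f (c 1) : Z.W) : V) < K.rk (y : V) :=
          Z.qt.gx.ar_rk _ _ ((Z.D1 hm).mv_ar k)
        omega
    · intro k
      rcases (Z.D1 hm).swap.ca_mv k with k | k
      · have : K.rk ((Z.f (c 1) : Z.W) : V) < K.rk (x : V) :=
          Z.qt.gx.ar_rk _ _ ((Z.D1 hm).swap.mv_ar k)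
        omega
      · have : K.rk ((Z.f (c 1) : Z.W) : V) < K.rk (y : V) :=
          Z.qt.gx.ar_rk _ _ ((Z.D1 hm).swap.mv_ar k)
        omega
  have hR1 : ∀ x, x ∈ Z.W → h⁻¹ • x ∈ Z.D.R → h⁻¹ • Z.f x ∈ (Z.D1 hm).R := by
    intro x hx hx'
    show h⁻¹ • ((Z.f x : Z.W) : V) ∈ Z.D.R
    rw [f_coe, Z.f0_W hx]
    exact hx'
  have i1 : ∀ x, x ∈ Z.W → h⁻¹ • x ∈ Z.D.R → ∀ z : Z.W, ((Z.D1 hm).ca (Z.f x) (Z.f (c 1)) z ↔
      z = h • (⟨Z.D.a, Z.y_W⟩ : Z.W)) ∧ ((Z.D1 hm).swap.ca (Z.f x) (Z.f (c 1)) z ↔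
      z = h • (⟨Z.t, Z.t_W⟩ : Z.W)) := fun x hx hx' z =>
    ⟨(Z.D1 hm).ca_iff (hR1 x hx hx') hf1, (Z.D1 hm).swap.ca_iff (hR1 x hx hx') hf1⟩
  have hyt : h • (⟨Z.t, Z.t_W⟩ : Z.W) ≠ h • (⟨Z.D.a, Z.y_W⟩ : Z.W) := fun k =>
    Z.yt (congrArg Subtype.val (smul_left_cancel h k)).symm
  rcases Z.cases (c 0) with k0 | ⟨g, k0⟩
  · -- `c 0` is no translate of `n`
    obtain ⟨iA1, iB1⟩ := i1 _ k0 h0 (Z.f (c 2))
    rcases Z.cases (c 2) with k2 | ⟨g', k2⟩
    · have e1 : Z.f (c 2) = h • (⟨Z.D.a, Z.y_W⟩ : Z.W) ↔ c 2 = h • Z.D.a := by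
        rw [Subtype.ext_iff, f_coe, Z.f0_W k2]
        rfl
      have e2 : Z.f (c 2) = h • (⟨Z.t, Z.t_W⟩ : Z.W) ↔ c 2 = h • Z.t := by
        rw [Subtype.ext_iff, f_coe, Z.f0_W k2]
        rfl
      rw [if_neg (hTr _ k0), if_neg (hTr _ k2)]
      simp only [iA1, iB1, iA, iB, e1, e2]
      ring
    · have hc2 : h⁻¹ • c 2 ∈ Z.D.R := by
        refine hcl.resolve_right fun k => ?_
        have := K.ar_rk _ _ k
        rw [K.rk_smul, k2, K.rk_smul, Z.Dv] at this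
        omega
      have e2 := hfn _ g' k2 hc2
      have nA : ¬ c 2 = h • Z.D.a := fun k => by
        have := rR _ hc2
        rw [k, K.rk_smul] at this
        omega
      have nB : ¬ c 2 = h • Z.t := fun k => by
        have := rR _ hc2
        rw [k, K.rk_smul] at this
        omega
      rw [if_neg (hTr _ k0), if_pos (hn _ g' k2 hc2).2, if_pos (iB1.2 e2), if_neg (fun k => nA (iA.1 k)),
        if_neg (fun k => nB (iB.1 k)), if_neg (fun k => hyt (e2.symm.trans (iA1.1 k)))]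
      norm_num
  · -- `c 0` is a translate of `n`
    have e0 := hfn _ g k0 h0
    have hne := Z.ne2 hm a 0
    have hne : Z.f (c 0) ≠ Z.f (c 2) := hne
    rcases Z.cases (c 2) with k2 | ⟨g', k2⟩
    · rcases hcl with hc2 | hc2
      · obtain ⟨iA1, iB1⟩ := i1 _ k2 hc2 (Z.f (c 0))
        have nA : ¬ c 2 = h • Z.D.a := fun k => by
          have := rR _ hc2
          rw [k, K.rk_smul] at this
          omega
        have nB : ¬ c 2 = h • Z.t := fun k => by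
          have := rR _ hc2
          rw [k, K.rk_smul] at this
          omega
        rw [if_pos (hn _ g k0 h0).2, if_neg (hTr _ k2),
          if_pos ((Z.D1 hm).swap.ca_symm.2 (iB1.2 e0)), if_neg (fun k => nA (iA.1 k)),
          if_neg (fun k => nB (iB.1 k)),
          if_neg (fun k => hyt (e0.symm.trans (iA1.1 ((Z.D1 hm).ca_symm.1 k))))]
        norm_num
      · have hr2 : K.rk (c 2) < K.rk Z.s := by
          have := K.ar_rk _ _ hc2
          rwa [K.rk_smul, Z.Dv] at this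
        have r0 : K.rk ((Z.f (c 0) : Z.W) : V) < K.rk Z.s := by
          rw [e0]
          show K.rk (h • Z.t) < _
          rw [K.rk_smul]
          exact rt
        have r2 : K.rk ((Z.f (c 2) : Z.W) : V) < K.rk Z.s := by
          rw [f_coe, Z.f0_W k2]
          exact hr2
        obtain ⟨n1, n2⟩ := hlow _ _ r0 r2
        have nt : ¬ c 2 = h • Z.t := fun k => hne (by
          rw [e0]
          apply Subtype.ext
          rw [f_coe, Z.f0_W k2, k]
          rfl)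
        have ya : c 2 = h • Z.D.a := by
          rw [Z.Dv] at hc2
          rcases K.two _ _ _ _ Z.sy Z.hst hc2 with k | k | k
          · exact absurd k Z.yt
          · exact absurd (by rw [k, smul_inv_smul]) nt
          · rw [k, smul_inv_smul]
        rw [if_pos (hn _ g k0 h0).2, if_neg (hTr _ k2), if_neg n1, if_neg n2, if_pos (iA.2 ya),
          if_neg (fun k => nt (iB.1 k))]
        norm_num
    · exfalso
      have hc2 : h⁻¹ • c 2 ∈ Z.D.R := by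
        refine hcl.resolve_right fun k => ?_
        have := K.ar_rk _ _ k
        rw [K.rk_smul, k2, K.rk_smul, Z.Dv] at this
        omega
      exact hne (e0.trans (hfn _ g' k2 hc2).symm)

theorem mv_of_f (hm : K.Min) {x v : V} (h : (Z.D1 hm).mv (Z.f x) (Z.f v)) : Z.D.mv x v := by
  obtain ⟨k, h1, h2⟩ := h
  have h1 : k⁻¹ • ((Z.f x : Z.W) : V) ∈ Z.D.R := h1
  have e2 : v = ((k • (Z.D1 hm).v : Z.W) : V) := by
    refine Z.eq_of_f h2 ?_
    show _ < K.rk (k • Z.s)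
    rw [K.rk_smul]
    exact Z.rk1
  have e1 : x = ((Z.f x : Z.W) : V) := by
    refine Z.eq_of_f rfl ?_
    have := K.ar_rk _ _ (Z.D.R_ar _ h1)
    rw [K.rk_smul, Z.Dv] at this
    exact Z.rk1.trans this
  refine ⟨k, ?_, ?_⟩
  · rw [e1]
    exact h1
  · rw [e2, Z.Dv]
    rfl

theorem mv_of_Tr {x v : V} (h : Tr H Z.n Z.s x v) : Z.D.mv x v := by
  obtain ⟨k, rfl, rfl⟩ := h
  refine ⟨k, ?_, ?_⟩
  · rw [inv_smul_smul]
    exact Z.nR
  · rw [Z.Dv]

open Classical in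
/-- the corners of a pentagon -/
theorem corner (hm : K.Min) (hg : Z.Good) {c : Fin 5 → V} {i : K.I} (a : P.At c i) :
    (if (Z.D1 hm).swap.ca (Z.f (c 0)) (Z.f (c 1)) (Z.f (c 2)) then (1 : ℤ) else 0) +
      (if Z.D.ca (c 0) (c 1) (c 2) then 1 else 0) =
    (if (Z.D1 hm).ca (Z.f (c 0)) (Z.f (c 1)) (Z.f (c 2)) then 1 else 0) +
      (if Z.D.swap.ca (c 0) (c 1) (c 2) then 1 else 0) +
      ((if Tr H Z.n Z.s (c 0) (c 1) then 1 else 0) +
      (if Tr H Z.n Z.s (c 2) (c 1) then 1 else 0)) := by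
  by_cases m0 : Z.D.mv (c 0) (c 1)
  · exact Z.corner' hm hg a m0
  by_cases m2 : Z.D.mv (c 2) (c 1)
  · have k := Z.corner' hm hg (a.refl 2) m2
    have k : (if (Z.D1 hm).swap.ca (Z.f (c 2)) (Z.f (c 1)) (Z.f (c 0)) then (1 : ℤ) else 0) +
      (if Z.D.ca (c 2) (c 1) (c 0) then 1 else 0) =
      (if (Z.D1 hm).ca (Z.f (c 2)) (Z.f (c 1)) (Z.f (c 0)) then 1 else 0) +
      (if Z.D.swap.ca (c 2) (c 1) (c 0) then 1 else 0) +
      ((if Tr H Z.n Z.s (c 2) (c 1) then 1 else 0) +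
      (if Tr H Z.n Z.s (c 0) (c 1) then 1 else 0)) := k
    simp only [(Z.D1 hm).swap.ca_symm (x := Z.f (c 2)), (Z.D1 hm).ca_symm (x := Z.f (c 2)),
      Z.D.ca_symm (x := c 2), Z.D.swap.ca_symm (x := c 2)] at k
    rw [k]
    ring
  · have n1 : ¬ Z.D.ca (c 0) (c 1) (c 2) := fun k => (Z.D.ca_mv k).elim m0 m2
    have n2 : ¬ Z.D.swap.ca (c 0) (c 1) (c 2) := fun k => (Z.D.swap.ca_mv k).elim m0 m2
    have n3 : ¬ (Z.D1 hm).ca (Z.f (c 0)) (Z.f (c 1)) (Z.f (c 2)) := fun k =>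
      ((Z.D1 hm).ca_mv k).elim (fun k => m0 (Z.mv_of_f hm k)) (fun k => m2 (Z.mv_of_f hm k))
    have n4 : ¬ (Z.D1 hm).swap.ca (Z.f (c 0)) (Z.f (c 1)) (Z.f (c 2)) := fun k =>
      ((Z.D1 hm).swap.ca_mv k).elim (fun k => m0 (Z.mv_of_f hm k)) (fun k => m2 (Z.mv_of_f hm k))
    rw [if_neg n1, if_neg n2, if_neg n3, if_neg n4, if_neg (fun k => m0 (Z.mv_of_Tr k)),
      if_neg (fun k => m2 (Z.mv_of_Tr k))]
    norm_num

/-- the number of real corners of `n` at `s` -/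
noncomputable def L : ℤ := open Classical in ∑ i : K.I, if P.five i then
  wcn (fun x v _ => Tr H Z.n Z.s x v) (K.cb i) (K.cw i) +
    wcn (fun _ v z => Tr H Z.n Z.s z v) (K.cb i) (K.cw i) else 0

open Classical in
/-- sums over the pentagons -/
theorem sum_five (g : K.I → ℤ) :
    ∑ i : Z.qt.gx.I, g i.1 = ∑ i : K.I, if P.five i then g i else 0 := by
  rw [← Finset.sum_filter]
  symm
  refine Finset.sum_bij' (fun i hi => (⟨i, ?_⟩ : Z.qt.gx.I)) (fun i _ => i.1) ?_ ?_ ?_ ?_ ?_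
  · rintro rfl
    exact Z.nfive (Finset.mem_filter.1 hi).2
  · intro i _
    exact Finset.mem_univ _
  · intro i _
    exact Finset.mem_filter.2 ⟨Finset.mem_univ _, Z.five _ i.2⟩
  · intro i _
    rfl
  · intro i _
    rfl
  · intro i _
    rfl

open Classical in
/-- THE COUNT IN THE QUOTIENT: `c_t + L = c_y` -/
theorem count (hm : K.Min) (hg : Z.Good) :
    (∑ i : K.I, if P.five i then wcn Z.D.ca (K.cb i) (K.cw i) else 0) =
      (∑ i : K.I, if P.five i then wcn Z.D.swap.ca (K.cb i) (K.cw i) else 0) + Z.L := by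
  have h := (Z.D1 hm).pq (Z.q5.min hm)
  have h' : (Z.qt.gx.cr.cn (Z.D1 hm).ca : ℤ) = Z.qt.gx.cr.cn (Z.D1 hm).swap.ca := by
    exact_mod_cast h
  rw [Cr.cn_eq, Cr.cn_eq, (Z.q5.pt hm).cs_eq, (Z.q5.pt hm).cs_eq] at h'
  have key : ∀ i : Z.qt.gx.I,
      (∑ j : Fin 5, (if (Z.D1 hm).swap.ca ((Z.q5.pt hm).pt i j) ((Z.q5.pt hm).pt i (j + 1))
        ((Z.q5.pt hm).pt i (j + 2)) then (1 : ℤ) else 0)) + wcn Z.D.ca (K.cb i.1) (K.cw i.1) =
      (∑ j : Fin 5, (if (Z.D1 hm).ca ((Z.q5.pt hm).pt i j) ((Z.q5.pt hm).pt i (j + 1))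
        ((Z.q5.pt hm).pt i (j + 2)) then (1 : ℤ) else 0)) +
        wcn Z.D.swap.ca (K.cb i.1) (K.cw i.1) +
      (wcn (fun x v _ => Tr H Z.n Z.s x v) (K.cb i.1) (K.cw i.1) +
        wcn (fun _ v z => Tr H Z.n Z.s z v) (K.cb i.1) (K.cw i.1)) := by
    intro i
    have hi := Z.five _ i.2
    rw [P.wcn_eq hi, P.wcn_eq hi, P.wcn_eq hi, P.wcn_eq hi]
    rw [← Finset.sum_add_distrib, ← Finset.sum_add_distrib, ← Finset.sum_add_distrib,
      ← Finset.sum_add_distrib]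
    refine Finset.sum_congr rfl fun j _ => ?_
    have k := Z.corner hm hg ((PG.at_pt P hi).rot j)
    have e0 : j + 0 = j := add_zero j
    simp only [e0] at k
    exact k
  have h3 := Finset.sum_congr rfl fun i (_ : i ∈ (Finset.univ : Finset Z.qt.gx.I)) => key i
  rw [Finset.sum_add_distrib, Finset.sum_add_distrib, Finset.sum_add_distrib, ← h'] at h3
  have s1 := Z.sum_five (fun i => wcn Z.D.ca (K.cb i) (K.cw i))
  have s2 := Z.sum_five (fun i => wcn Z.D.swap.ca (K.cb i) (K.cw i))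
  have s3 := Z.sum_five (fun i => wcn (fun x v _ => Tr H Z.n Z.s x v) (K.cb i) (K.cw i) +
        wcn (fun _ v z => Tr H Z.n Z.s z v) (K.cb i) (K.cw i))
  rw [s1, s2, s3] at h3
  unfold L
  linarith

/-- a square -/
theorem isSq : IsSq K Z.i0 ![Z.s, Z.n, Z.b, Z.t] where
  cb_eq := Z.cb0
  cw_eq := Z.cw0
  ne0 := Z.sb
  ne1 := by
    intro e
    have h1 := Z.rk1
    have h2 := Z.rk2
    have e : Z.n = Z.t := e
    rw [e] at h2
    omega

/-- `n` is moved at `s` only -/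
theorem good_of_not (h : ¬ Z.D.mv Z.n Z.b) : Z.Good := by
  intro g hg
  have k := Z.D.R_ar _ hg
  rw [Z.Dv] at k
  rcases Z.n_out k with k | k
  · refine ⟨?_, g, rfl, k⟩
    have h1 : g • Z.D.v = Z.D.v := by rw [Z.Dv, ← k]
    have h2 := Z.D.fix_b h1 (Z.D.stab g h1 _ Z.nR hg)
    rwa [Z.Db] at h2
  · exfalso
    refine h ⟨g⁻¹, ?_, ?_⟩
    · rw [inv_inv]
      exact hg
    · rw [Z.Dv, k, inv_smul_smul]

open Classical in
/-- AT MOST ONE REAL CORNER, `n` moved at `s` only (for example `b` no translate of `s`) -/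
theorem L_le (hm : K.Min) (h : ¬ Z.D.mv Z.n Z.b) : Z.L ≤ 1 := by
  have h1 := Z.count hm (Z.good_of_not h)
  have hts : ¬ Z.D.mv Z.t Z.s := fun k => by
    have := K.ar_rk _ _ (Z.D.mv_ar k)
    have := Z.rk1
    omega
  have htb : ¬ Z.D.mv Z.t Z.b := fun k => by
    have := K.ar_rk _ _ (Z.D.mv_ar k)
    have := Z.rkb1
    omega
  have hn : ∀ x, ¬ Z.D.mv x Z.n := by
    rintro x ⟨g, -, k⟩
    have := congrArg K.rk k
    rw [K.rk_smul, Z.Dv] at this
    have := Z.rk2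
    omega
  have ht : ∀ x, ¬ Z.D.mv x Z.t := by
    rintro x ⟨g, -, k⟩
    have := congrArg K.rk k
    rw [K.rk_smul, Z.Dv] at this
    have := Z.rk1
    omega
  have h2 := Z.D.le_sq hm (fun _ => ![Z.s, Z.n, Z.b, Z.t]) (by
      intro i hi
      have e : i = Z.i0 := by
        by_contra k
        exact hi (Z.five _ k)
      rw [e]
      exact Z.isSq) (by
      intro i hi j m1 m2
      exfalso
      fin_cases j
      · exact hn _ m1
      · exact h m1
      · exact ht _ m1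
      · exact hts m1)
  have h3 : (∑ i, if P.five i then 0 else
      max 0 (wcn Z.D.swap.ca (K.cb i) (K.cw i) - wcn Z.D.ca (K.cb i) (K.cw i))) ≤ (1 : ℤ) := by
    rw [Finset.sum_eq_single Z.i0]
    · rw [if_neg Z.nfive, Z.cb0, Z.cw0]
      have w1 : ∀ (X : V → V → V → Prop), wcn X Z.s [Z.n, Z.b, Z.t, Z.s] =
          (if X Z.s Z.n Z.b then (1 : ℤ) else 0) + ((if X Z.n Z.b Z.t then (1 : ℤ) else 0) +
          ((if X Z.b Z.t Z.s then (1 : ℤ) else 0) + ((if X Z.t Z.s Z.n then (1 : ℤ) else 0) + 0))) :=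
        fun _ => rfl
      have c1 : ∀ x z, ¬ Z.D.ca x Z.n z := fun x z k => (Z.D.ca_mv k).elim (hn _) (hn _)
      have c2 : ∀ x z, ¬ Z.D.swap.ca x Z.n z := fun x z k => (Z.D.swap.ca_mv k).elim (hn _) (hn _)
      have c3 : ∀ x z, ¬ Z.D.ca x Z.t z := fun x z k => (Z.D.ca_mv k).elim (ht _) (ht _)
      have c4 : ∀ x z, ¬ Z.D.swap.ca x Z.t z := fun x z k => (Z.D.swap.ca_mv k).elim (ht _) (ht _)
      have c5 : ¬ Z.D.ca Z.n Z.b Z.t := fun k => (Z.D.ca_mv k).elim h htb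
      have c6 : ¬ Z.D.swap.ca Z.n Z.b Z.t := fun k => (Z.D.swap.ca_mv k).elim h htb
      rw [w1, w1, if_neg (c1 _ _), if_neg (c2 _ _), if_neg (c3 _ _), if_neg (c4 _ _), if_neg c5,
        if_neg c6]
      split_ifs <;> norm_num
    · intro i _ hi
      rw [if_pos (Z.five _ hi)]
    · intro k
      exact absurd (Finset.mem_univ _) k
  linarith

end ZD

end Pool.Agent.DI
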