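import Pool.Agent.DI.Zc
import Pool.Agent.DI.GXAdd

/-!
# DI/Zc2: at most one real corner next to a symmetric zero square

The square `s, n, b, t` with `b = g s`, `g n = n`. After the slide and the fold the square is the hexagon
`n, g y, b, t, s, y`; the new soft `{n, t}` cuts it into one orbit of pentagons.
-/

namespace Pool.Agent.DI

open MulAction
open Pool.Agent.SAF (InC orbs FinOrb oc)
open Pool.Agent.BT (lz lz_self lz_ne lz_symm)

variable {H V : Type} [Group H] [MulAction H V]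

namespace PQg

variable {K : GX H V} {P : PG K} (Q : PQg P)

open Classical in
/-- THE INEQUALITY WITH THE REAL GAIN and a gain `d` in the folded complex -/
theorem sum_nonneg_add (hm : K.Min) [Fintype K.I] (d : ℕ) (hd : K.area + d ≤ Q.fo.gx.area)
    (w : K.I → ℤ) (hw : ∀ i, ¬ P.five i →
    max 0 (((K.cw i).length : ℤ) + Q.t i - stn Q.ff (Q.S.gx.cb i) (Q.S.gx.cw i) - 4) +
      max 0 (((K.cw i).length : ℤ) + Q.tN i - 4) ≤ 2 * max 0 (((K.cw i).length : ℤ) - 4) + w i) :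
    (d : ℤ) ≤ ∑ i, if P.five i then Q.t i else w i := by
  have hA : (∑ i, max 0 (((K.cw i).length : ℤ) - 4)) + d ≤
      ∑ i : K.I, max 0 (((Q.fo.gx.cw i).length : ℤ) - 4) := by
    have key : ∀ n : ℕ, ((n - 4 : ℕ) : ℤ) = max 0 ((n : ℤ) - 4) := by
      intro n
      omega
    have e1 : (K.area : ℤ) = ∑ i, max 0 (((K.cw i).length : ℤ) - 4) := by
      rw [K.area_eq, Nat.cast_sum]
      exact Finset.sum_congr rfl fun i _ => key _
    have e2 : (Q.fo.gx.area : ℤ) = ∑ i : K.I, max 0 (((Q.fo.gx.cw i).length : ℤ) - 4) := by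
      have : Q.fo.gx.area = ∑ i : K.I, ((Q.fo.gx.cw i).length - 4) :=
        finsum_eq_sum_of_fintype (fun i : K.I => (Q.fo.gx.cw i).length - 4)
      rw [this, Nat.cast_sum]
      exact Finset.sum_congr rfl fun i _ => key _
    rw [← e1, ← e2]
    exact_mod_cast hd
  have hB := hm.le_max Q.SN.gx rfl (fun i => (Q.SN.gx.cw i).length) (fun i => rfl)
  have key : ∀ i : K.I, max 0 (((Q.fo.gx.cw i).length : ℤ) - 4) +
      max 0 (((Q.SN.gx.cw i).length : ℤ) - 4) ≤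
      2 * max 0 (((K.cw i).length : ℤ) - 4) + if P.five i then Q.t i else w i := by
    intro i
    have l1 : ((Q.fo.gx.cw i).length : ℤ) + stn Q.ff (Q.S.gx.cb i) (Q.S.gx.cw i) =
        (K.cw i).length + Q.t i := by
      have e1 : ((Q.fo.gx.cw i).length : ℤ) + stn Q.ff (Q.S.gx.cb i) (Q.S.gx.cw i) =
          (Q.S.gx.cw i).length := by exact_mod_cast Q.fo.gx_length i
      rw [e1]
      exact Q.S.gx_length i
    have l1' : ((Q.SN.gx.cw i).length : ℤ) = (K.cw i).length + Q.tN i := Q.SN.gx_length i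
    have l2 : (0 : ℤ) ≤ stn Q.ff (Q.S.gx.cb i) (Q.S.gx.cw i) := by positivity
    by_cases hi : P.five i
    · rw [if_pos hi]
      have h5 : ((K.cw i).length : ℤ) = 5 := by
        rw [P.cw_eq i hi]
        rfl
      rw [h5] at l1 l1' ⊢
      have m0 : max (0 : ℤ) (5 - 4) = 1 := by norm_num
      rw [m0]
      have l3 := Q.tN_le hm hi
      rcases le_or_gt (Q.t i) (-2) with h | h
      · obtain ⟨h3, h4⟩ := Q.two_le hi h
        rw [max_eq_left (by omega), max_eq_left (by omega)]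
        omega
      · rcases le_or_gt (Q.tN i) 0 with h' | h'
        · have m1 : max 0 (((Q.fo.gx.cw i).length : ℤ) - 4) ≤ 1 + Q.t i :=
            max_le (by omega) (by omega)
          have m2 : max 0 (((Q.SN.gx.cw i).length : ℤ) - 4) ≤ 1 := max_le (by omega) (by omega)
          omega
        · obtain ⟨h3, c, a, h4, h5, h6⟩ := Q.tN_pos hm hi (by omega)
          have := Q.stn_one a h4 h5 h6
          have l4 : (1 : ℤ) ≤ stn Q.ff (Q.S.gx.cb i) (Q.S.gx.cw i) := by exact_mod_cast this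
          have m1 : max 0 (((Q.fo.gx.cw i).length : ℤ) - 4) ≤ Q.t i :=
            max_le (by omega) (by omega)
          have m2 : max 0 (((Q.SN.gx.cw i).length : ℤ) - 4) ≤ 2 := max_le (by omega) (by omega)
          omega
    · rw [if_neg hi]
      have e1 : ((Q.fo.gx.cw i).length : ℤ) - 4 =
          ((K.cw i).length : ℤ) + Q.t i - stn Q.ff (Q.S.gx.cb i) (Q.S.gx.cw i) - 4 := by omega
      rw [e1, l1']
      exact hw i hi
  have h1 := Finset.sum_le_sum fun i (_ : i ∈ (Finset.univ : Finset K.I)) => key i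
  rw [Finset.sum_add_distrib, Finset.sum_add_distrib, ← Finset.mul_sum] at h1
  linarith

end PQg

namespace ZD

variable {K : GX H V} {P : PG K} (Z : ZD P)

theorem mv_n' : Z.D.mv Z.n Z.s := ⟨1, by rw [inv_one, one_smul]; exact Z.nR, by rw [one_smul, Z.Dv]⟩

/-- `b = g s` and `g n = n` -/
structure Sym (g : H) : Prop where
  gs : Z.b = g • Z.s
  gn : g • Z.n = Z.n

variable {Z} {g : H} (hS : Z.Sym g)

namespace Sym

include hS

theorem gt : g • Z.t = Z.t := Z.hnt g hS.gn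

/-- all translates of `n` in the pieces look like `n` -/
theorem good : Z.Good := by
  intro k hk
  have k1 := Z.D.R_ar _ hk
  rw [Z.Dv] at k1
  have key : ∀ k : H, k • Z.n ∈ Z.D.R → Z.s = k • Z.s → k • Z.t = Z.t := by
    intro k hk e
    have h1 : k • Z.D.v = Z.D.v := by rw [Z.Dv, ← e]
    have h2 := Z.D.fix_b h1 (Z.D.stab k h1 _ Z.nR hk)
    rwa [Z.Db] at h2
  rcases Z.n_out k1 with e | e
  · exact ⟨key k hk e, k, rfl, e⟩
  · rw [hS.gs, ← mul_smul] at e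
    have en : (k * g) • Z.n = k • Z.n := by rw [mul_smul, hS.gn]
    refine ⟨?_, k * g, en.symm, e⟩
    have := key (k * g) (by rw [en]; exact hk) e
    rwa [mul_smul, hS.gt] at this

theorem rkb : K.rk Z.b = K.rk Z.s := by rw [hS.gs, K.rk_smul]

/-- `n` is no top -/
theorem not_N : ¬ Z.D.pqg.N Z.n := fun h =>
  Z.sb (Z.D.pqg.N_uniq h Z.hns Z.hnb (by
    show K.rk Z.s = K.rk Z.D.v
    rw [Z.Dv]) (by
    show K.rk Z.b = K.rk Z.D.v
    rw [hS.rkb, Z.Dv]))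

theorem mv_nb : Z.D.mv Z.n Z.b := by
  refine ⟨g, ?_, by rw [hS.gs, Z.Dv]⟩
  have : g⁻¹ • Z.n = Z.n := by rw [inv_smul_eq_iff, hS.gn]
  rw [this]
  exact Z.nR

omit hS in
theorem τ_n : Z.D.τ Z.n Z.s = Z.D.a := by
  have := Z.D.τ_eq (h := 1) (n := Z.n) (y := Z.s) (by rw [inv_one, one_smul]; exact Z.nR)
    (by rw [one_smul, Z.Dv])
  rwa [one_smul] at this

theorem τ_nb : Z.D.τ Z.n Z.b = g • Z.D.a := by
  refine Z.D.τ_eq (h := g) ?_ (by rw [hS.gs, Z.Dv])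
  have : g⁻¹ • Z.n = Z.n := by rw [inv_smul_eq_iff, hS.gn]
  rw [this]
  exact Z.nR

/-! ### the new square -/

omit hS in
theorem M_s : Z.D.sl.M Z.s := ⟨_, Z.mv_n'⟩

omit hS in
theorem not_mv_t (v : V) (hv : K.rk Z.t < K.rk v) : ¬ Z.D.mv Z.t v := fun k => by
  have := K.ar_rk _ _ (Z.D.mv_ar k)
  omega

omit hS in
theorem rb0 : Z.D.sl.rb Z.i0 = Z.n := by
  unfold Sl.rb
  rw [Z.cw0, Z.cb0]
  exact if_pos M_s

omit hS in
theorem rl0 : Z.D.sl.rl Z.i0 = [Z.b, Z.t, Z.s, Z.n] := by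
  unfold Sl.rl
  rw [Z.cw0, Z.cb0]
  exact if_pos M_s

omit hS in
theorem rky : K.rk Z.D.a < K.rk Z.s := K.ar_rk _ _ Z.sy

theorem slw0 : slw Z.D.sl.mv Z.D.sl.τ Z.n [Z.b, Z.t, Z.s, Z.n] =
    [g • Z.D.a, Z.b, Z.t, Z.s, Z.D.a, Z.n] := by
  have r1 := Z.rk1
  have rb1 := Z.rkb1
  have m1 : ∃ x, Z.D.sl.mv x Z.b := ⟨_, hS.mv_nb⟩
  have m2 : ∃ x, Z.D.sl.mv x Z.s := M_s
  have s1 : seg Z.D.sl.mv Z.D.sl.τ Z.n Z.b Z.t = [g • Z.D.a, Z.b] := by
    unfold seg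
    have h1 : Z.D.sl.mv Z.n Z.b := hS.mv_nb
    have h2 : ¬ Z.D.sl.mv Z.t Z.b := not_mv_t _ rb1
    have h3 : Z.D.sl.τ Z.n Z.b = g • Z.D.a := hS.τ_nb
    have h4 : ¬ Z.t = Z.D.sl.τ Z.n Z.b := by
      rw [h3]
      intro e
      have e2 : g • Z.t = g • Z.D.a := by rw [hS.gt]; exact e
      exact Z.yt (smul_left_cancel g e2).symm
    rw [if_pos h1, if_neg h2, if_neg h4, h3]
  have s2 : seg Z.D.sl.mv Z.D.sl.τ Z.t Z.s Z.n = [Z.s, Z.D.a] := by
    unfold seg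
    have h1 : Z.D.sl.mv Z.n Z.s := Z.mv_n'
    have h2 : ¬ Z.D.sl.mv Z.t Z.s := not_mv_t _ r1
    have h3 : Z.D.sl.τ Z.n Z.s = Z.D.a := τ_n
    have h4 : ¬ Z.t = Z.D.sl.τ Z.n Z.s := by
      rw [h3]
      exact fun e => Z.yt e.symm
    rw [if_neg h2, if_pos h1, if_neg h4, h3]
  simp only [slw]
  rw [if_pos m1, if_pos m2, s1, s2]
  rfl

omit hS in
theorem N_low {x : V} (h : K.rk x ≤ K.rk Z.s) : ¬ Z.D.pqg.N x := fun k => by
  obtain ⟨v, hv⟩ := Z.D.pqg.N_mv k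
  have h1 : K.rk Z.D.v < K.rk x := Z.D.pqg.lt1 hv
  rw [Z.Dv] at h1
  omega

/-- the hexagon -/
theorem G_cb : Z.D.pqg.fo.gx.cb Z.i0 = Z.n := by
  have : Z.D.pqg.fo.gx.cb Z.i0 = Z.D.pqg.ff (Z.D.sl.rb Z.i0) := rfl
  rw [this, rb0, Z.D.pqg.ff_not hS.not_N]

theorem G_cw : Z.D.pqg.fo.gx.cw Z.i0 = [g • Z.D.a, Z.b, Z.t, Z.s, Z.D.a, Z.n] := by
  have h0 : Z.D.pqg.fo.gx.cw Z.i0 = dst (Z.D.pqg.ff (Z.D.sl.rb Z.i0))
    ((slw Z.D.sl.mv Z.D.sl.τ (Z.D.sl.rb Z.i0) (Z.D.sl.rl Z.i0)).map Z.D.pqg.ff) := rfl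
  have r1 := Z.rk1
  have r2 := Z.rk2
  have rb := hS.rkb
  have ry := rky (Z := Z)
  have rgy : K.rk (g • Z.D.a) = K.rk Z.D.a := K.rk_smul _ _
  have f1 := Z.D.pqg.ff_not (N_low (Z := Z) (x := g • Z.D.a) (by omega))
  have f2 := Z.D.pqg.ff_not (N_low (Z := Z) (x := Z.b) (by omega))
  have f3 := Z.D.pqg.ff_not (N_low (Z := Z) (x := Z.t) (by omega))
  have f4 := Z.D.pqg.ff_not (N_low (Z := Z) (x := Z.s) le_rfl)
  have f5 := Z.D.pqg.ff_not (N_low (Z := Z) (x := Z.D.a) (by omega))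
  have f6 := Z.D.pqg.ff_not hS.not_N
  have ne : ∀ {x y : V}, K.rk x ≠ K.rk y → x ≠ y := fun h e => h (congrArg K.rk e)
  rw [h0, rb0, rl0, hS.slw0]
  simp only [List.map_cons, List.map_nil, f1, f2, f3, f4, f5, f6]
  rw [dst_cons_ne (ne (by omega)), dst_cons_ne (ne (by omega)), dst_cons_ne (ne (by omega)),
    dst_cons_ne (ne (by omega)), dst_cons_ne (ne (by omega)), dst_cons_ne (ne (by omega)), dst_nil]

/-- the new soft `{n, t}` -/
def sd : SD Z.D.pqg.fo.gx where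
  D := stabilizer H Z.n
  a := Z.n
  b := Z.t
  l := [Z.s, Z.D.a, Z.n]
  inC := K.stab Z.n
  fix d hd := Or.inl ⟨hd, Z.hnt d hd⟩
  wk := by
    have h : Wk Z.D.pqg.fo.gx.E (Z.D.pqg.fo.gx.cb Z.i0) (Z.D.pqg.fo.gx.cw Z.i0) :=
      Z.D.pqg.fo.gx.c_E Z.i0
    rw [hS.G_cb, hS.G_cw] at h
    exact h.2.2.2
  tgl := rfl

/-- the symmetric hexagon is filled by pentagons -/
theorem fill (φ : V ⊕ H ⧸ hS.sd.D → V ⊕ H ⧸ hS.sd.D → ZMod 2) (hs : ∀ x y, φ x y = φ y x)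
    (hc : ∀ h : H, ps φ (h • hS.sd.ns.add.cb (Sum.inr ()))
      ((hS.sd.ns.add.cw (Sum.inr ())).map (fun z => h • z)) = 0) :
    ps φ (hS.sd.ns.add.cb (Sum.inl Z.i0)) (hS.sd.ns.add.cw (Sum.inl Z.i0)) = 0 := by
  have e1 : hS.sd.ns.add.cb (Sum.inl Z.i0) = Sum.inl (Z.D.pqg.fo.gx.cb Z.i0) := rfl
  have e2 : hS.sd.ns.add.cw (Sum.inl Z.i0) = (Z.D.pqg.fo.gx.cw Z.i0).map Sum.inl := rfl
  rw [e1, e2, hS.G_cb, hS.G_cw]
  have k1 : φ (Sum.inl Z.n) (Sum.inr ((1 : H) : H ⧸ hS.sd.D)) +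
      (φ (Sum.inr ((1 : H) : H ⧸ hS.sd.D)) (Sum.inl Z.t) + (φ (Sum.inl Z.t) (Sum.inl Z.s) +
      (φ (Sum.inl Z.s) (Sum.inl Z.D.a) + (φ (Sum.inl Z.D.a) (Sum.inl Z.n) + 0)))) = 0 := by
    have h := hc 1
    simp only [one_smul, List.map_id'] at h
    exact h
  have k2 : φ (Sum.inl (g • Z.n)) (Sum.inr (g • ((1 : H) : H ⧸ hS.sd.D))) +
      (φ (Sum.inr (g • ((1 : H) : H ⧸ hS.sd.D))) (Sum.inl (g • Z.t)) +
      (φ (Sum.inl (g • Z.t)) (Sum.inl (g • Z.s)) +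
      (φ (Sum.inl (g • Z.s)) (Sum.inl (g • Z.D.a)) +
      (φ (Sum.inl (g • Z.D.a)) (Sum.inl (g • Z.n)) + 0)))) = 0 := hc g
  have e3 : g • ((1 : H) : H ⧸ hS.sd.D) = ((1 : H) : H ⧸ hS.sd.D) := by
    change ((g * 1 : H) : H ⧸ hS.sd.D) = _
    rw [mul_one, QuotientGroup.eq, mul_one]
    exact hS.sd.D.inv_mem hS.gn
  rw [e3, hS.gn, hS.gt, ← hS.gs] at k2
  simp only [List.map_cons, List.map_nil, ps_cons, ps_nil]
  rw [hs (Sum.inl Z.n) (Sum.inl (g • Z.D.a)), hs (Sum.inl (g • Z.D.a)) (Sum.inl Z.b),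
    hs (Sum.inl Z.b) (Sum.inl Z.t)]
  have z1 := add_self_two (φ (Sum.inl Z.n) (Sum.inr ((1 : H) : H ⧸ hS.sd.D)))
  have z2 := add_self_two (φ (Sum.inr ((1 : H) : H ⧸ hS.sd.D)) (Sum.inl Z.t))
  linear_combination k1 + k2 - z1 - z2

/-- the area of the folded complex is not minimal -/
theorem area (hm : K.Min) : K.area + 1 ≤ Z.D.pqg.fo.gx.area := by
  classical
  have h1 := hS.sd.ns.add.repl_area (Sum.inl Z.i0) (Sum.inl Z.n) [] trivial rfl (by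
    intro φ c
    refine hS.fill φ c.1 fun h => ?_
    have := c.2 (Sum.inr ()) h
    rw [Function.update_of_ne (by simp), Function.update_of_ne (by simp)] at this
    exact this)
  have h2 := hm _ (hS.sd.ns.add.repl (Sum.inl Z.i0) (Sum.inl Z.n) [] trivial rfl (by
    intro φ c
    refine hS.fill φ c.1 fun h => ?_
    have := c.2 (Sum.inr ()) h
    rw [Function.update_of_ne (by simp), Function.update_of_ne (by simp)] at this
    exact this))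
  have h3 := hS.sd.add_area
  have h4 : (hS.sd.ns.add.cw (Sum.inl Z.i0)).length = 6 := by
    have e2 : hS.sd.ns.add.cw (Sum.inl Z.i0) = (Z.D.pqg.fo.gx.cw Z.i0).map Sum.inl := rfl
    rw [e2, hS.G_cw]
    rfl
  have h5 : hS.sd.l.length = 3 := rfl
  rw [h4, List.length_nil] at h1
  rw [h5] at h3
  omega

open Classical in
/-- AT MOST ONE REAL CORNER, the symmetric square -/
theorem L_le (hm : K.Min) : Z.L ≤ 1 := by
  have h1 := Z.count hm hS.good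
  have hn : ∀ x, ¬ Z.D.mv x Z.n := by
    rintro x ⟨g, -, k⟩
    have := congrArg K.rk k
    rw [K.rk_smul, Z.Dv] at this
    have := Z.rk2
    omega
  have ht : ∀ x, ¬ Z.D.mv x Z.t := by
    rintro x ⟨g, -, k⟩
    have := congrArg K.rk k
    rw [K.rk_smul, Z.Dv] at this
    have := Z.rk1
    omega
  have hts : ¬ Z.D.mv Z.t Z.s := not_mv_t _ Z.rk1
  have htb : ¬ Z.D.mv Z.t Z.b := not_mv_t _ Z.rkb1
  have hl : (K.cw Z.i0).length = 4 := by
    rw [Z.cw0]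
    rfl
  -- the square in the slide and in the slide of the tops
  have t1 : Z.D.pqg.t Z.i0 = 2 := by
    have e1 : ((Z.D.pqg.fo.gx.cw Z.i0).length : ℤ) +
        stn Z.D.pqg.ff (Z.D.pqg.S.gx.cb Z.i0) (Z.D.pqg.S.gx.cw Z.i0) =
          (Z.D.pqg.S.gx.cw Z.i0).length := by exact_mod_cast Z.D.pqg.fo.gx_length Z.i0
    have e2 : ((Z.D.pqg.S.gx.cw Z.i0).length : ℤ) = (K.cw Z.i0).length + Z.D.pqg.t Z.i0 :=
      Z.D.pqg.S.gx_length Z.i0
    have e3 : Z.D.pqg.S.gx.cw Z.i0 = slw Z.D.sl.mv Z.D.sl.τ (Z.D.sl.rb Z.i0) (Z.D.sl.rl Z.i0) := rfl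
    have e4 : (Z.D.pqg.S.gx.cw Z.i0).length = 6 := by
      rw [e3, rb0, rl0, hS.slw0]
      rfl
    rw [e4, hl] at e2
    push_cast at e2
    omega
  have tN1 : Z.D.pqg.tN Z.i0 = 0 := by
    have hSn : ¬ ∃ v, Z.D.pqg.SN.mv Z.n v := fun ⟨v, hv⟩ => hS.not_N hv.2
    have hx : ∀ x v, K.rk x ≤ K.rk Z.s → ¬ Z.D.pqg.SN.mv x v := fun x v hx hv => N_low hx hv.2
    have r1 := Z.rk1
    have rb := hS.rkb
    have c1 : Z.D.pqg.sN Z.s Z.n Z.b = 0 := sg_not_not (hx _ _ le_rfl) (hx _ _ (by omega))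
    have c2 : Z.D.pqg.sN Z.n Z.b Z.t = 0 := sg_not_not (fun k => hSn ⟨_, k⟩) (hx _ _ (by omega))
    have c3 : Z.D.pqg.sN Z.b Z.t Z.s = 0 := sg_not_not (hx _ _ (by omega)) (hx _ _ le_rfl)
    have c4 : Z.D.pqg.sN Z.t Z.s Z.n = 0 := sg_not_not (hx _ _ (by omega)) (fun k => hSn ⟨_, k⟩)
    have e : Z.D.pqg.tN Z.i0 = Z.D.pqg.sN Z.s Z.n Z.b + (Z.D.pqg.sN Z.n Z.b Z.t +
        (Z.D.pqg.sN Z.b Z.t Z.s + (Z.D.pqg.sN Z.t Z.s Z.n + 0))) := by
      unfold PQg.tN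
      rw [Z.cb0, Z.cw0]
      rfl
    rw [e, c1, c2, c3, c4]
    norm_num
  have h2 := Z.D.pqg.sum_nonneg_add hm 1 (hS.area hm) (fun _ => 2) (by
    intro i hi
    have e : i = Z.i0 := by
      by_contra k
      exact hi (Z.five _ k)
    rw [e, t1, tN1, hl]
    have l2 : (0 : ℤ) ≤ stn Z.D.pqg.ff (Z.D.pqg.S.gx.cb Z.i0) (Z.D.pqg.S.gx.cw Z.i0) := by
      positivity
    have m1 : max 0 (((4 : ℕ) : ℤ) + 2 - stn Z.D.pqg.ff (Z.D.pqg.S.gx.cb Z.i0)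
      (Z.D.pqg.S.gx.cw Z.i0) - 4) ≤ 2 := max_le (by norm_num) (by push_cast; linarith)
    have m2 : max (0 : ℤ) (((4 : ℕ) : ℤ) + 0 - 4) = 0 := by norm_num
    rw [m2]
    have m3 : max (0 : ℤ) (((4 : ℕ) : ℤ) - 4) = 0 := by norm_num
    rw [m3]
    linarith)
  have h3 : (∑ i, if P.five i then Z.D.pqg.t i else (2 : ℤ)) =
      (∑ i, if P.five i then wcn Z.D.swap.ca (K.cb i) (K.cw i) else 0) -
        (∑ i, if P.five i then wcn Z.D.ca (K.cb i) (K.cw i) else 0) + 2 := by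
    have e1 : (2 : ℤ) = ∑ i : K.I, if P.five i then 0 else 2 := by
      rw [Finset.sum_eq_single Z.i0]
      · rw [if_neg Z.nfive]
      · intro i _ hi
        rw [if_pos (Z.five _ hi)]
      · intro k
        exact absurd (Finset.mem_univ _) k
    conv_rhs => rw [e1]
    rw [← Finset.sum_sub_distrib, ← Finset.sum_add_distrib]
    refine Finset.sum_congr rfl fun i _ => ?_
    by_cases hi : P.five i
    · rw [if_pos hi, if_pos hi, if_pos hi, if_pos hi]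
      show csg Z.D.sl.mv Z.D.sl.τ (K.cb i) (K.cw i) = _
      rw [Z.D.csg_eq i]
      ring
    · rw [if_neg hi, if_neg hi, if_neg hi, if_neg hi]
      ring
  rw [h3] at h2
  push_cast at h2
  linarith

end Sym

/-- AT MOST ONE REAL CORNER -/
theorem L_le_one (hm : K.Min) (h : ¬ Z.D.mv Z.n Z.b ∨ ∃ g : H, Z.b = g • Z.s ∧ g • Z.n = Z.n) :
    Z.L ≤ 1 := by
  rcases h with h | ⟨g, h1, h2⟩
  · exact Z.L_le hm h
  · exact Sym.L_le (g := g) ⟨h1, h2⟩ hm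

end ZD

end Pool.Agent.DI
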