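import Pool.Agent.DI.Zs

/-!
# DI/Zg: real corners next to open squares, all `n i` in one union of pieces of `s`

`Z : ZS P`, `D : PcG P` with `D.v = s`, `D.b = u` and `n i ∈ D.R`. `count`: `c_u + L = c_a`, where `L` is the
number of real corners at translates of `s` with a moved leg which is a translate of some `n i`.
-/

namespace Pool.Agent.DI

open MulAction
open Pool.Agent.SAF (InC orbs FinOrb oc)
open Pool.Agent.BT (lz lz_self lz_ne lz_symm)

variable {H V : Type} [Group H] [MulAction H V]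

/-- all `n i` are in the pieces `D` of `s` -/
structure HB {K : GX H V} {P : PG K} (Z : ZS P) (D : PcG P) : Prop where
  Dv : D.v = Z.s
  Db : D.b = Z.u
  nR : ∀ i, ¬ P.five i → Z.n i ∈ D.R
  good : ∀ i (g : H), ¬ P.five i → g • Z.n i ∈ D.R → g • Z.u = Z.u

namespace HB

variable {K : GX H V} {P : PG K} {Z : ZS P} {D : PcG P} (B : HB Z D)

include B

theorem sy : K.ar Z.s D.a := by
  have := D.va
  rwa [B.Dv] at this

theorem yt : D.a ≠ Z.u := by
  have := D.ab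
  rwa [B.Db] at this

theorem y_W : D.a ∈ Z.W := Z.W_of_rk (K.ar_rk _ _ B.sy).le

/-- the union of pieces in the quotient -/
noncomputable def D1 (hm : K.Min) : PcD (Z.q5.pt hm) where
  v := ⟨Z.s, Z.s_W⟩
  a := ⟨D.a, B.y_W⟩
  b := ⟨Z.u, Z.u_W⟩
  R := {m | (m : V) ∈ D.R}
  va := ⟨D.a, B.sy, Z.f_W ⟨_, B.y_W⟩⟩
  vb := ⟨Z.u, Z.hsu, Z.f_W ⟨_, Z.u_W⟩⟩
  ab e := B.yt (congrArg Subtype.val e)
  R_ar := by
    intro m hm'
    refine ⟨Z.s, ?_, Z.f_W ⟨_, Z.s_W⟩⟩
    have := D.R_ar _ hm'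
    rwa [B.Dv] at this
  stab := by
    intro g hv m h1 h2
    apply Subtype.ext
    refine D.stab g ?_ m h1 h2
    rw [B.Dv]
    exact congrArg Subtype.val hv
  inv := by
    intro g hv ha m h1
    refine D.inv g ?_ (congrArg Subtype.val ha) m h1
    rw [B.Dv]
    exact congrArg Subtype.val hv
  cl := by
    intro c i a h1 h0
    obtain ⟨d, a', e⟩ := Z.lift hm a
    have h0 : (c 0 : V) ∈ D.R := h0
    have r1 := Z.rk1
    have e1 : d 1 = Z.s := Z.eq_of_f ((e 1).symm.trans h1) (by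
      show K.rk Z.u ≠ K.rk Z.s
      omega)
    have r0 : K.rk Z.s < K.rk (c 0 : V) := by
      have := K.ar_rk _ _ (D.R_ar _ h0)
      rwa [B.Dv] at this
    have e0 : d 0 = c 0 := Z.eq_of_f (e 0).symm (by omega)
    have h := D.cl' a' (k := 1) (by rw [one_smul, B.Dv]; exact e1)
      (by rw [inv_one, one_smul, e0]; exact h0)
    rw [inv_one, one_smul, B.Dv] at h
    rcases h with h | h
    · rcases Z.cases (d 2) with h2 | ⟨j, g, hj, h2⟩
      · left
        show (c 2 : V) ∈ D.R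
        rw [e, Z.f_coe, Z.f0_W h2]
        exact h
      · right
        refine ⟨g • Z.u, ?_, ?_⟩
        · show K.ar Z.s (g • Z.u)
          have k := D.R_ar _ h
          rw [B.Dv, h2] at k
          rcases Z.n_out hj k with k | k
          · rw [k]
            exact K.ar_smul g _ _ Z.hsu
          · rcases Z.hbu with e' | e'
            · rw [k]
              exact K.ar_smul g _ _ e'
            · exfalso
              have e2 := congrArg K.rk k
              rw [K.rk_smul] at e2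
              have := K.ar_rk _ _ e'
              omega
        · rw [e, h2, Z.f_n hj]
    · right
      exact ⟨d 2, h, (e 2).symm⟩

omit B in
/-- the moved legs which are translates of some `n i` -/
def _root_.Pool.Agent.DI.ZS.X (Z : ZS P) (D : PcG P) (x v : V) : Prop := D.mv x v ∧ x ∉ Z.W

open Classical in
/-- the corners of a pentagon, one leg moved -/
theorem corner' (hm : K.Min) {c : Fin 5 → V} {i : K.I} (a : P.At c i)
    (mv : D.mv (c 0) (c 1)) :
    (if (B.D1 hm).swap.ca (Z.f (c 0)) (Z.f (c 1)) (Z.f (c 2)) then (1 : ℤ) else 0) +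
      (if D.ca (c 0) (c 1) (c 2) then 1 else 0) =
    (if (B.D1 hm).ca (Z.f (c 0)) (Z.f (c 1)) (Z.f (c 2)) then 1 else 0) +
      (if D.swap.ca (c 0) (c 1) (c 2) then 1 else 0) +
      ((if Z.X D (c 0) (c 1) then 1 else 0) + (if Z.X D (c 2) (c 1) then 1 else 0)) := by
  obtain ⟨h, h0, h1⟩ := mv
  have h1' : c 1 = h • Z.s := by rw [h1, B.Dv]
  have hcl := D.cl' a h1 h0
  have iA : D.ca (c 0) (c 1) (c 2) ↔ c 2 = h • D.a := D.ca_iff h0 h1
  have iB : D.swap.ca (c 0) (c 1) (c 2) ↔ c 2 = h • Z.u := by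
    have := D.swap.ca_iff (z := c 2) h0 h1
    rw [this, ← B.Db]
    rfl
  have hf1 : Z.f (c 1) = h • (B.D1 hm).v := by
    apply Subtype.ext
    rw [Z.f_coe, h1', Z.f0_W (Z.W.smul_mem h Z.s_W)]
    rfl
  -- ranks
  have rR : ∀ x, h⁻¹ • x ∈ D.R → K.rk Z.s < K.rk x := by
    intro x hx
    have := K.ar_rk _ _ (D.R_ar _ hx)
    rwa [B.Dv, K.rk_smul] at this
  have ra := K.ar_rk _ _ B.sy
  have rt := Z.rk1
  -- translates of `n i`
  have hX : ∀ x, h⁻¹ • x ∈ D.R → x ∉ Z.W → Z.X D x (c 1) := fun x hx hx' => ⟨⟨h, hx, h1⟩, hx'⟩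
  have hX' : ∀ x, x ∈ Z.W → ¬ Z.X D x (c 1) := fun x hx k => k.2 hx
  have hfn : ∀ (x : V) (j : K.I) (g : H), ¬ P.five j → x = g • Z.n j → h⁻¹ • x ∈ D.R →
      Z.f x = h • (⟨Z.u, Z.u_W⟩ : Z.W) := by
    rintro x j g hj rfl hx
    rw [← mul_smul] at hx
    have k1 := B.good _ _ hj hx
    rw [mul_smul, inv_smul_eq_iff] at k1
    apply Subtype.ext
    rw [Z.f_coe, Z.f0_n hj, k1]
    rfl
  have hlow : ∀ x y : Z.W, K.rk (x : V) < K.rk Z.s → K.rk (y : V) < K.rk Z.s →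
      ¬ (B.D1 hm).ca x (Z.f (c 1)) y ∧ ¬ (B.D1 hm).swap.ca x (Z.f (c 1)) y := by
    intro x y hx hy
    have r1 : K.rk ((Z.f (c 1) : Z.W) : V) = K.rk Z.s := by
      rw [hf1]
      exact K.rk_smul _ _
    constructor
    · intro k
      rcases (B.D1 hm).ca_mv k with k | k
      · have : K.rk ((Z.f (c 1) : Z.W) : V) < K.rk (x : V) :=
          Z.qt.gx.ar_rk _ _ ((B.D1 hm).mv_ar k)
        omega
      · have : K.rk ((Z.f (c 1) : Z.W) : V) < K.rk (y : V) :=
          Z.qt.gx.ar_rk _ _ ((B.D1 hm).mv_ar k)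
        omega
    · intro k
      rcases (B.D1 hm).swap.ca_mv k with k | k
      · have : K.rk ((Z.f (c 1) : Z.W) : V) < K.rk (x : V) :=
          Z.qt.gx.ar_rk _ _ ((B.D1 hm).swap.mv_ar k)
        omega
      · have : K.rk ((Z.f (c 1) : Z.W) : V) < K.rk (y : V) :=
          Z.qt.gx.ar_rk _ _ ((B.D1 hm).swap.mv_ar k)
        omega
  have hR1 : ∀ x, x ∈ Z.W → h⁻¹ • x ∈ D.R → h⁻¹ • Z.f x ∈ (B.D1 hm).R := by
    intro x hx hx'
    show h⁻¹ • ((Z.f x : Z.W) : V) ∈ D.R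
    rw [Z.f_coe, Z.f0_W hx]
    exact hx'
  have i1 : ∀ x, x ∈ Z.W → h⁻¹ • x ∈ D.R → ∀ z : Z.W, ((B.D1 hm).ca (Z.f x) (Z.f (c 1)) z ↔
      z = h • (⟨D.a, B.y_W⟩ : Z.W)) ∧ ((B.D1 hm).swap.ca (Z.f x) (Z.f (c 1)) z ↔
      z = h • (⟨Z.u, Z.u_W⟩ : Z.W)) := fun x hx hx' z =>
    ⟨(B.D1 hm).ca_iff (hR1 x hx hx') hf1, (B.D1 hm).swap.ca_iff (hR1 x hx hx') hf1⟩
  have hyt : h • (⟨Z.u, Z.u_W⟩ : Z.W) ≠ h • (⟨D.a, B.y_W⟩ : Z.W) := fun k =>
    B.yt (congrArg Subtype.val (smul_left_cancel h k)).symm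
  have hRn : ∀ (x : V) (j : K.I) (g : H), ¬ P.five j → x = g • Z.n j →
      (h⁻¹ • x ∈ D.R ∨ K.ar D.v (h⁻¹ • x)) → h⁻¹ • x ∈ D.R := by
    intro x j g hj hx k
    refine k.resolve_right fun k => ?_
    have r2 := Z.rk2 hj
    have := K.ar_rk _ _ k
    rw [K.rk_smul, hx, K.rk_smul, B.Dv] at this
    omega
  have nW : ∀ (x : V) (j : K.I) (g : H), ¬ P.five j → x = g • Z.n j → x ∉ Z.W := by
    rintro x j g hj rfl
    exact Z.not_W hj
  rcases Z.cases (c 0) with k0 | ⟨j, g, hj, k0⟩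
  · -- `c 0` is no translate of `n i`
    obtain ⟨iA1, iB1⟩ := i1 _ k0 h0 (Z.f (c 2))
    rcases Z.cases (c 2) with k2 | ⟨j', g', hj', k2⟩
    · have e1 : Z.f (c 2) = h • (⟨D.a, B.y_W⟩ : Z.W) ↔ c 2 = h • D.a := by
        rw [Subtype.ext_iff, Z.f_coe, Z.f0_W k2]
        rfl
      have e2 : Z.f (c 2) = h • (⟨Z.u, Z.u_W⟩ : Z.W) ↔ c 2 = h • Z.u := by
        rw [Subtype.ext_iff, Z.f_coe, Z.f0_W k2]
        rfl
      rw [if_neg (hX' _ k0), if_neg (hX' _ k2)]
      simp only [iA1, iB1, iA, iB, e1, e2]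
      ring
    · have hc2 : h⁻¹ • c 2 ∈ D.R := hRn _ _ _ hj' k2 hcl
      have e2 := hfn _ _ g' hj' k2 hc2
      have nA : ¬ c 2 = h • D.a := fun k => by
        have := rR _ hc2
        rw [k, K.rk_smul] at this
        omega
      have nB : ¬ c 2 = h • Z.u := fun k => by
        have := rR _ hc2
        rw [k, K.rk_smul] at this
        omega
      rw [if_neg (hX' _ k0), if_pos (hX _ hc2 (nW _ _ _ hj' k2)), if_pos (iB1.2 e2),
        if_neg (fun k => nA (iA.1 k)), if_neg (fun k => nB (iB.1 k)),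
        if_neg (fun k => hyt (e2.symm.trans (iA1.1 k)))]
      norm_num
  · -- `c 0` is a translate of `n i`
    have e0 := hfn _ _ g hj k0 h0
    have hne : Z.f (c 0) ≠ Z.f (c 2) := Z.ne2 hm a 0
    rcases Z.cases (c 2) with k2 | ⟨j', g', hj', k2⟩
    · rcases hcl with hc2 | hc2
      · obtain ⟨iA1, iB1⟩ := i1 _ k2 hc2 (Z.f (c 0))
        have nA : ¬ c 2 = h • D.a := fun k => by
          have := rR _ hc2
          rw [k, K.rk_smul] at this
          omega
        have nB : ¬ c 2 = h • Z.u := fun k => by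
          have := rR _ hc2
          rw [k, K.rk_smul] at this
          omega
        rw [if_pos (hX _ h0 (nW _ _ _ hj k0)), if_neg (hX' _ k2),
          if_pos ((B.D1 hm).swap.ca_symm.2 (iB1.2 e0)), if_neg (fun k => nA (iA.1 k)),
          if_neg (fun k => nB (iB.1 k)),
          if_neg (fun k => hyt (e0.symm.trans (iA1.1 ((B.D1 hm).ca_symm.1 k))))]
        norm_num
      · have hr2 : K.rk (c 2) < K.rk Z.s := by
          have := K.ar_rk _ _ hc2
          rwa [K.rk_smul, B.Dv] at this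
        have r0 : K.rk ((Z.f (c 0) : Z.W) : V) < K.rk Z.s := by
          rw [e0]
          show K.rk (h • Z.u) < _
          rw [K.rk_smul]
          exact rt
        have r2 : K.rk ((Z.f (c 2) : Z.W) : V) < K.rk Z.s := by
          rw [Z.f_coe, Z.f0_W k2]
          exact hr2
        obtain ⟨n1, n2⟩ := hlow _ _ r0 r2
        have nt : ¬ c 2 = h • Z.u := fun k => hne (by
          rw [e0]
          apply Subtype.ext
          rw [Z.f_coe, Z.f0_W k2, k]
          rfl)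
        have ya : c 2 = h • D.a := by
          rw [B.Dv] at hc2
          rcases K.two _ _ _ _ B.sy Z.hsu hc2 with k | k | k
          · exact absurd k B.yt
          · exact absurd (by rw [k, smul_inv_smul]) nt
          · rw [k, smul_inv_smul]
        rw [if_pos (hX _ h0 (nW _ _ _ hj k0)), if_neg (hX' _ k2), if_neg n1, if_neg n2,
          if_pos (iA.2 ya), if_neg (fun k => nt (iB.1 k))]
        norm_num
    · exfalso
      have hc2 : h⁻¹ • c 2 ∈ D.R := hRn _ _ _ hj' k2 hcl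
      exact hne (e0.trans (hfn _ _ g' hj' k2 hc2).symm)

theorem mv_of_f (hm : K.Min) {x v : V} (h : (B.D1 hm).mv (Z.f x) (Z.f v)) : D.mv x v := by
  obtain ⟨k, h1, h2⟩ := h
  have h1 : k⁻¹ • ((Z.f x : Z.W) : V) ∈ D.R := h1
  have r1 := Z.rk1
  have e2 : v = ((k • (B.D1 hm).v : Z.W) : V) := by
    refine Z.eq_of_f h2 ?_
    show _ ≠ K.rk (k • Z.s)
    rw [K.rk_smul]
    omega
  have e1 : x = ((Z.f x : Z.W) : V) := by
    refine Z.eq_of_f rfl ?_
    have := K.ar_rk _ _ (D.R_ar _ h1)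
    rw [K.rk_smul, B.Dv] at this
    omega
  refine ⟨k, ?_, ?_⟩
  · rw [e1]
    exact h1
  · rw [e2, B.Dv]
    rfl

open Classical in
/-- the corners of a pentagon -/
theorem corner (hm : K.Min) {c : Fin 5 → V} {i : K.I} (a : P.At c i) :
    (if (B.D1 hm).swap.ca (Z.f (c 0)) (Z.f (c 1)) (Z.f (c 2)) then (1 : ℤ) else 0) +
      (if D.ca (c 0) (c 1) (c 2) then 1 else 0) =
    (if (B.D1 hm).ca (Z.f (c 0)) (Z.f (c 1)) (Z.f (c 2)) then 1 else 0) +
      (if D.swap.ca (c 0) (c 1) (c 2) then 1 else 0) +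
      ((if Z.X D (c 0) (c 1) then 1 else 0) + (if Z.X D (c 2) (c 1) then 1 else 0)) := by
  by_cases m0 : D.mv (c 0) (c 1)
  · exact B.corner' hm a m0
  by_cases m2 : D.mv (c 2) (c 1)
  · have k := B.corner' hm (a.refl 2) m2
    have k : (if (B.D1 hm).swap.ca (Z.f (c 2)) (Z.f (c 1)) (Z.f (c 0)) then (1 : ℤ) else 0) +
      (if D.ca (c 2) (c 1) (c 0) then 1 else 0) =
      (if (B.D1 hm).ca (Z.f (c 2)) (Z.f (c 1)) (Z.f (c 0)) then 1 else 0) +
      (if D.swap.ca (c 2) (c 1) (c 0) then 1 else 0) +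
      ((if Z.X D (c 2) (c 1) then 1 else 0) + (if Z.X D (c 0) (c 1) then 1 else 0)) := k
    simp only [(B.D1 hm).swap.ca_symm (x := Z.f (c 2)), (B.D1 hm).ca_symm (x := Z.f (c 2)),
      D.ca_symm (x := c 2), D.swap.ca_symm (x := c 2)] at k
    rw [k]
    ring
  · have n1 : ¬ D.ca (c 0) (c 1) (c 2) := fun k => (D.ca_mv k).elim m0 m2
    have n2 : ¬ D.swap.ca (c 0) (c 1) (c 2) := fun k => (D.swap.ca_mv k).elim m0 m2
    have n3 : ¬ (B.D1 hm).ca (Z.f (c 0)) (Z.f (c 1)) (Z.f (c 2)) := fun k =>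
      ((B.D1 hm).ca_mv k).elim (fun k => m0 (B.mv_of_f hm k)) (fun k => m2 (B.mv_of_f hm k))
    have n4 : ¬ (B.D1 hm).swap.ca (Z.f (c 0)) (Z.f (c 1)) (Z.f (c 2)) := fun k =>
      ((B.D1 hm).swap.ca_mv k).elim (fun k => m0 (B.mv_of_f hm k)) (fun k => m2 (B.mv_of_f hm k))
    rw [if_neg n1, if_neg n2, if_neg n3, if_neg n4, if_neg (fun k => m0 k.1),
      if_neg (fun k => m2 k.1)]
    norm_num

omit B in
/-- the number of real corners with a moved leg which is a translate of some `n i` -/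
noncomputable def _root_.Pool.Agent.DI.ZS.LX (Z : ZS P) (D : PcG P) : ℤ :=
  open Classical in ∑ i : K.I, if P.five i then
    wcn (fun x v _ => Z.X D x v) (K.cb i) (K.cw i) +
      wcn (fun _ v z => Z.X D z v) (K.cb i) (K.cw i) else 0

open Classical in
/-- THE COUNT IN THE QUOTIENT: `c_u + L = c_a` -/
theorem count (hm : K.Min) :
    (∑ i : K.I, if P.five i then wcn D.ca (K.cb i) (K.cw i) else 0) =
      (∑ i : K.I, if P.five i then wcn D.swap.ca (K.cb i) (K.cw i) else 0) + Z.LX D := by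
  have h := (B.D1 hm).pq (Z.q5.min hm)
  have h' : (Z.qt.gx.cr.cn (B.D1 hm).ca : ℤ) = Z.qt.gx.cr.cn (B.D1 hm).swap.ca := by
    exact_mod_cast h
  rw [Cr.cn_eq, Cr.cn_eq, (Z.q5.pt hm).cs_eq, (Z.q5.pt hm).cs_eq] at h'
  have key : ∀ i : Z.qt.gx.I,
      (∑ j : Fin 5, (if (B.D1 hm).swap.ca ((Z.q5.pt hm).pt i j) ((Z.q5.pt hm).pt i (j + 1))
        ((Z.q5.pt hm).pt i (j + 2)) then (1 : ℤ) else 0)) + wcn D.ca (K.cb i.1) (K.cw i.1) =
      (∑ j : Fin 5, (if (B.D1 hm).ca ((Z.q5.pt hm).pt i j) ((Z.q5.pt hm).pt i (j + 1))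
        ((Z.q5.pt hm).pt i (j + 2)) then (1 : ℤ) else 0)) +
        wcn D.swap.ca (K.cb i.1) (K.cw i.1) +
      (wcn (fun x v _ => Z.X D x v) (K.cb i.1) (K.cw i.1) +
        wcn (fun _ v z => Z.X D z v) (K.cb i.1) (K.cw i.1)) := by
    intro i
    have hi := i.2
    rw [P.wcn_eq hi, P.wcn_eq hi, P.wcn_eq hi, P.wcn_eq hi]
    rw [← Finset.sum_add_distrib, ← Finset.sum_add_distrib, ← Finset.sum_add_distrib,
      ← Finset.sum_add_distrib]
    refine Finset.sum_congr rfl fun j _ => ?_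
    have k := B.corner hm ((PG.at_pt P hi).rot j)
    have e0 : j + 0 = j := add_zero j
    simp only [e0] at k
    exact k
  have h3 := Finset.sum_congr rfl fun i (_ : i ∈ (Finset.univ : Finset Z.qt.gx.I)) => key i
  rw [Finset.sum_add_distrib, Finset.sum_add_distrib, Finset.sum_add_distrib, ← h'] at h3
  have s1 := Z.sum_five (fun i => wcn D.ca (K.cb i) (K.cw i))
  have s2 := Z.sum_five (fun i => wcn D.swap.ca (K.cb i) (K.cw i))
  have s3 := Z.sum_five (fun i => wcn (fun x v _ => Z.X D x v) (K.cb i) (K.cw i) +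
        wcn (fun _ v z => Z.X D z v) (K.cb i) (K.cw i))
  rw [s1, s2, s3] at h3
  unfold ZS.LX
  linarith

end HB

end Pool.Agent.DI
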