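import Pool.Agent.DI.Zs

/-!
# DI/Zp: passes of an edge in the pentagons

`P.pas v a`: the number of the positions of the pentagons at edges in the orbit of `(v, a)`.
`PG.pas_eq`: the two out-edges of a vertex `k` without swap have the same number of passes (all squares
at translates of `k` have both legs among the out-neighbours).
-/

namespace Pool.Agent.DI

open MulAction
open Pool.Agent.SAF (InC orbs FinOrb oc)

variable {H V : Type} [Group H] [MulAction H V]

section Lists

variable {K : GX H V}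

theorem wgo_zero {F : V → V → V → Prop} : ∀ (x : V) (l : List V),
    (∀ a v b l1 l2, x :: l = l1 ++ a :: v :: b :: l2 → ¬ F a v b) → wcn.wgo F x l = 0 := by
  intro x l
  induction l generalizing x with
  | nil => intro _; rfl
  | cons y l ih =>
    intro h
    cases l with
    | nil => rfl
    | cons z r =>
      have h1 := h x y z [] r rfl
      have h2 := ih y (fun a v b l1 l2 e => h a v b (x :: l1) l2 (by rw [e]; rfl))
      rw [wgo_cons, if_neg h1, h2]
      rfl

theorem wcn_zero {F : V → V → V → Prop} (b : V) (l : List V)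
    (h : ∀ x v z, Cons3 b l x v z → ¬ F x v z) : wcn F b l = 0 := by
  cases l with
  | nil => rfl
  | cons y l => exact wgo_zero b (y :: l ++ [y]) (fun a v c l1 l2 e => h a v c ⟨l1, l2, e⟩)

open Classical in
/-- the corners of a square -/
theorem IsSq.wcn_eq {i : K.I} {q : Fin 4 → V} (hq : IsSq K i q) (F : V → V → V → Prop) :
    wcn F (K.cb i) (K.cw i) = ∑ j : Fin 4, if F (q j) (q (j + 1)) (q (j + 2)) then 1 else 0 := by
  rw [hq.cb_eq, hq.cw_eq]
  show ((if F (q 0) (q 1) (q 2) then (1 : ℤ) else 0) +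
    ((if F (q 1) (q 2) (q 3) then (1 : ℤ) else 0) +
    ((if F (q 2) (q 3) (q 0) then (1 : ℤ) else 0) +
    ((if F (q 3) (q 0) (q 1) then (1 : ℤ) else 0) + 0)))) = _
  rw [Fin.sum_univ_four]
  have f0 : (0 : Fin 4) + 1 = 1 := rfl
  have f1 : (1 : Fin 4) + 1 = 2 := rfl
  have f2 : (2 : Fin 4) + 1 = 3 := rfl
  have f3 : (3 : Fin 4) + 1 = 0 := rfl
  have g0 : (0 : Fin 4) + 2 = 2 := rfl
  have g1 : (1 : Fin 4) + 2 = 3 := rfl
  have g2 : (2 : Fin 4) + 2 = 0 := rfl
  have g3 : (3 : Fin 4) + 2 = 1 := rfl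
  rw [f0, f1, f2, f3, g0, g1, g2, g3]
  ring

/-- consecutive vertices of a cell are adjacent -/
theorem Cons3.E {i : K.I} {x v z : V} (h : Cons3 (K.cb i) (K.cw i) x v z) : K.E x v ∧ K.E v z := by
  obtain ⟨l1, l2, e⟩ := h
  have w : Wk K.E (K.cb i) (K.cw i ++ (K.cw i).head?.toList) := by
    rw [Wk_append]
    refine ⟨K.c_E i, ?_⟩
    rw [K.c_tg]
    have := K.c_E i
    cases hc : K.cw i with
    | nil => trivial
    | cons y l =>
      rw [hc] at this
      exact ⟨this.1, trivial⟩
  have key : ∀ (l1 : List V) (b : V) (l : List V), Wk K.E b l →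
      b :: l = l1 ++ x :: v :: z :: l2 → K.E x v ∧ K.E v z := by
    intro l1
    induction l1 with
    | nil =>
      intro b l w e
      obtain ⟨rfl, rfl⟩ := List.cons.inj e
      exact ⟨w.1, w.2.1⟩
    | cons u l1 ih =>
      intro b l w e
      obtain ⟨rfl, rfl⟩ := List.cons.inj e
      cases l1 with
      | nil => exact ih x _ w.2 rfl
      | cons u' l1 => exact ih u' _ w.2 rfl
  exact key l1 _ _ w e

end Lists

namespace PG

variable {K : GX H V} (P : PG K)

/-- the corners of a pentagon are shifted -/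
theorem wcn_shift {i : K.I} (hi : P.five i) (F : V → V → Prop) :
    wcn (fun _ y z => F y z) (K.cb i) (K.cw i) = wcn (fun x y _ => F x y) (K.cb i) (K.cw i) := by
  classical
  rw [P.wcn_eq hi, P.wcn_eq hi]
  refine Fintype.sum_equiv (Equiv.addRight 1) _ _ (fun j => ?_)
  show (if F (P.pt i (j + 1)) (P.pt i (j + 2)) then (1 : ℤ) else 0) =
    (if F (P.pt i (j + 1)) (P.pt i (j + 1 + 1)) then (1 : ℤ) else 0)
  have : j + 1 + 1 = j + 2 := by rw [add_assoc]; rfl
  rw [this]

/-- the number of the passes of an edge in the pentagons -/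
noncomputable def pas (v a : V) : ℤ := open Classical in ∑ i : K.I, if P.five i then
  wcn (fun x y _ => Tr H v a x y) (K.cb i) (K.cw i) +
    wcn (fun x y _ => Tr H a v x y) (K.cb i) (K.cw i) else 0

open Classical in
/-- the passes counted at the end `v` -/
theorem pas_eq_v (v a : V) : P.pas v a = ∑ i : K.I, if P.five i then
    wcn (fun x y _ => Tr H a v x y) (K.cb i) (K.cw i) +
      wcn (fun _ y z => Tr H a v z y) (K.cb i) (K.cw i) else 0 := by
  refine Finset.sum_congr rfl fun i _ => ?_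
  by_cases hi : P.five i
  · rw [if_pos hi, if_pos hi, P.wcn_shift hi (fun y z => Tr H a v z y), add_comm]
    congr 2
    funext x y _
    exact propext ⟨fun h => h.swap, fun h => h.swap⟩
  · rw [if_neg hi, if_neg hi]

theorem pas_comm (v a : V) : P.pas v a = P.pas a v := by
  refine Finset.sum_congr rfl fun i _ => ?_
  rw [add_comm]

theorem pas_nonneg (v a : V) : 0 ≤ P.pas v a := by
  classical
  refine Finset.sum_nonneg fun i _ => ?_
  by_cases hi : P.five i
  · rw [if_pos hi, P.wcn_eq hi, P.wcn_eq hi]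
    refine add_nonneg (Finset.sum_nonneg fun j _ => ?_) (Finset.sum_nonneg fun j _ => ?_) <;>
      split_ifs <;> norm_num
  · rw [if_neg hi]

variable {P}

/-- all in-arrows of a vertex without swap -/
def allD {k a b : V} (ka : K.ar k a) (kb : K.ar k b) (ab : a ≠ b)
    (ns : ∀ g : H, g • k = k → g • a = a) : PcG P where
  v := k
  a := a
  b := b
  R := {m | K.ar m k}
  va := ka
  vb := kb
  ab := ab
  R_ar _ h := h
  stab g hv _ _ _ := ns g hv
  inv g hv _ m hm := by
    have := K.ar_smul g _ _ hm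
    rwa [hv] at this
  cl := by
    intro i h x z hc
    obtain ⟨e1, e2⟩ := hc.E
    have e1 : K.E x k := by
      have := K.E_smul h⁻¹ e1
      rwa [inv_smul_smul, inv_smul_smul] at this
    have e2 : K.E k z := by
      have := K.E_smul h⁻¹ e2
      rwa [inv_smul_smul, inv_smul_smul] at this
    exact ⟨fun _ => e2.symm, fun _ => e1⟩

open Classical in
theorem all_corner (hm : K.Min) {k a b : V} (ka : K.ar k a) (kb : K.ar k b) (ab : a ≠ b)
    (ns : ∀ g : H, g • k = k → g • a = a) {c : Fin 5 → V} {i : K.I} (at' : P.At c i) :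
    ((if Tr H a k (c 0) (c 1) then (1 : ℤ) else 0) + (if Tr H a k (c 2) (c 1) then 1 else 0)) +
      (if (allD (P := P) ka kb ab ns).swap.ca (c 0) (c 1) (c 2) then 1 else 0) =
    ((if Tr H b k (c 0) (c 1) then (1 : ℤ) else 0) + (if Tr H b k (c 2) (c 1) then 1 else 0)) +
      (if (allD (P := P) ka kb ab ns).ca (c 0) (c 1) (c 2) then 1 else 0) := by
  set D := allD (P := P) ka kb ab ns with hD
  have nb : ∀ g : H, g • k = k → g • b = b := fun g hg => D.fix_b hg (ns g hg)
  by_cases h1 : ∃ h : H, c 1 = h • k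
  · obtain ⟨h, h1⟩ := h1
    have ta : ∀ x, Tr H a k x (c 1) ↔ x = h • a := by
      intro x
      constructor
      · rintro ⟨g, rfl, e⟩
        rw [h1] at e
        have e2 : (h⁻¹ * g) • k = k := by rw [mul_smul, ← e, inv_smul_smul]
        have := ns _ e2
        rw [mul_smul, inv_smul_eq_iff] at this
        exact this
      · rintro rfl
        exact ⟨h, rfl, h1⟩
    have tb : ∀ x, Tr H b k x (c 1) ↔ x = h • b := by
      intro x
      constructor
      · rintro ⟨g, rfl, e⟩
        rw [h1] at e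
        have e2 : (h⁻¹ * g) • k = k := by rw [mul_smul, ← e, inv_smul_smul]
        have := nb _ e2
        rw [mul_smul, inv_smul_eq_iff] at this
        exact this
      · rintro rfl
        exact ⟨h, rfl, h1⟩
    have hab : h • a ≠ h • b := fun e => ab (smul_left_cancel h e)
    have hne : c 0 ≠ c 2 := at'.ne2 hm 0
    have cs : ∀ x, K.E (h • k) x → x = h • a ∨ x = h • b ∨ (h⁻¹ • x ∈ D.R ∧ x ≠ h • a ∧ x ≠ h • b) := by
      rintro x (e | e)
      · rcases K.two _ _ _ _ e (K.ar_smul h _ _ ka) (K.ar_smul h _ _ kb) with k | k | k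
        · exact Or.inl k
        · exact absurd k hab
        · exact Or.inr (Or.inl k)
      · refine Or.inr (Or.inr ⟨?_, ?_, ?_⟩)
        · have := K.ar_smul h⁻¹ _ _ e
          rwa [inv_smul_smul] at this
        · rintro rfl
          have r1 := K.ar_rk _ _ e
          have r2 := K.ar_rk _ _ (K.ar_smul h _ _ ka)
          omega
        · rintro rfl
          have r1 := K.ar_rk _ _ e
          have r2 := K.ar_rk _ _ (K.ar_smul h _ _ kb)
          omega
    have e0 : K.E (c 0) (c 1) := at'.E 0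
    have e1 : K.E (c 1) (c 2) := at'.E 1
    rw [h1] at e0 e1
    have iA : ∀ x z, h⁻¹ • x ∈ D.R → (D.ca x (c 1) z ↔ z = h • a) := fun x z hx => D.ca_iff hx h1
    have iB : ∀ x z, h⁻¹ • x ∈ D.R → (D.swap.ca x (c 1) z ↔ z = h • b) :=
      fun x z hx => D.swap.ca_iff hx h1
    have nAB : ∀ x z, (x = h • a ∨ x = h • b) → (z = h • a ∨ z = h • b) →
        ¬ D.ca x (c 1) z ∧ ¬ D.swap.ca x (c 1) z := by
      have up : ∀ x, (x = h • a ∨ x = h • b) → ¬ D.mv x (c 1) := by
        rintro x hx k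
        have r1 := K.ar_rk _ _ (D.mv_ar k)
        rw [h1] at r1
        rcases hx with rfl | rfl
        · have r2 := K.ar_rk _ _ (K.ar_smul h _ _ ka)
          omega
        · have r2 := K.ar_rk _ _ (K.ar_smul h _ _ kb)
          omega
      intro x z hx hz
      exact ⟨fun k => (D.ca_mv k).elim (up _ hx) (up _ hz),
        fun k => (D.swap.ca_mv k).elim (up _ hx) (up _ hz)⟩
    simp only [ta, tb]
    rcases cs _ e0.symm with k0 | k0 | ⟨k0, k0a, k0b⟩
    · rcases cs _ e1 with k2 | k2 | ⟨k2, k2a, k2b⟩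
      · exact absurd (k0.trans k2.symm) hne
      · obtain ⟨n1, n2⟩ := nAB _ _ (Or.inl k0) (Or.inr k2)
        rw [if_neg n1, if_neg n2, k0, k2, if_pos rfl, if_neg hab.symm, if_neg hab, if_pos rfl]
        norm_num
      · rw [D.ca_symm, D.swap.ca_symm, if_neg (fun k => hab (k0.symm.trans ((iB _ _ k2).1 k))),
          if_pos ((iA _ _ k2).2 k0), if_pos k0, if_neg k2a, if_neg k2b,
          if_neg (fun k => hab (k0.symm.trans k))]
        norm_num
    · rcases cs _ e1 with k2 | k2 | ⟨k2, k2a, k2b⟩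
      · obtain ⟨n1, n2⟩ := nAB _ _ (Or.inr k0) (Or.inl k2)
        rw [if_neg n1, if_neg n2, k0, k2, if_neg hab.symm, if_pos rfl, if_pos rfl, if_neg hab]
        norm_num
      · exact absurd (k0.trans k2.symm) hne
      · rw [D.ca_symm, D.swap.ca_symm, if_pos ((iB _ _ k2).2 k0),
          if_neg (fun k => hab (((iA _ _ k2).1 k).symm.trans k0)), if_neg (fun k => hab (k.symm.trans k0)),
          if_neg k2a, if_neg k2b, if_pos k0]
        norm_num
    · rcases cs _ e1 with k2 | k2 | ⟨k2, k2a, k2b⟩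
      · rw [if_neg (fun k => hab (k2.symm.trans ((iB _ _ k0).1 k))), if_pos ((iA _ _ k0).2 k2),
          if_neg k0a, if_neg k0b, if_pos k2, if_neg (fun k => hab (k2.symm.trans k))]
        norm_num
      · rw [if_pos ((iB _ _ k0).2 k2), if_neg (fun k => hab (((iA _ _ k0).1 k).symm.trans k2)),
          if_neg k0a, if_neg k0b, if_pos k2, if_neg (fun k => hab (k.symm.trans k2))]
        norm_num
      · rw [if_neg k0a, if_neg k0b, if_neg k2a, if_neg k2b, if_neg (fun k => k2b ((iB _ _ k0).1 k)),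
          if_neg (fun k => k2a ((iA _ _ k0).1 k))]
  · have n1 : ∀ x y, ¬ Tr H y k x (c 1) := fun x y ⟨g, _, e⟩ => h1 ⟨g, e⟩
    have n2 : ¬ D.ca (c 0) (c 1) (c 2) := fun ⟨g, e, _⟩ => h1 ⟨g, e⟩
    have n3 : ¬ D.swap.ca (c 0) (c 1) (c 2) := fun ⟨g, e, _⟩ => h1 ⟨g, e⟩
    rw [if_neg (n1 _ _), if_neg (n1 _ _), if_neg (n1 _ _), if_neg (n1 _ _), if_neg n2, if_neg n3]

open Classical in
theorem all_le (hm : K.Min) {k a b : V} (ka : K.ar k a) (kb : K.ar k b) (ab : a ≠ b)
    (ns : ∀ g : H, g • k = k → g • a = a) (q : K.I → Fin 4 → V)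
    (hq : ∀ i, ¬ P.five i → IsSq K i (q i))
    (hz : ∀ i, ¬ P.five i → ∀ (j : Fin 4) (g : H), q i (j + 1) = g • k →
      K.ar (g • k) (q i j) ∧ K.ar (g • k) (q i (j + 2))) :
    (∑ i, if P.five i then wcn (allD (P := P) ka kb ab ns).ca (K.cb i) (K.cw i) else 0) ≤
      ∑ i, if P.five i then wcn (allD (P := P) ka kb ab ns).swap.ca (K.cb i) (K.cw i) else 0 := by
  set D := allD (P := P) ka kb ab ns with hD
  have nmv : ∀ i, ¬ P.five i → ∀ j : Fin 4, ¬ D.mv (q i j) (q i (j + 1)) ∧
      ¬ D.mv (q i (j + 2)) (q i (j + 1)) := by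
    intro i hi j
    constructor
    · rintro ⟨g, h1, h2⟩
      have r1 := K.ar_rk _ _ (hz i hi j g h2).1
      have r2 := K.ar_rk _ _ (D.R_ar _ h1)
      rw [K.rk_smul] at r2
      rw [K.rk_smul] at r1
      have r3 : K.rk D.v = K.rk k := rfl
      omega
    · rintro ⟨g, h1, h2⟩
      have r1 := K.ar_rk _ _ (hz i hi j g h2).2
      have r2 := K.ar_rk _ _ (D.R_ar _ h1)
      rw [K.rk_smul] at r2
      rw [K.rk_smul] at r1
      have r3 : K.rk D.v = K.rk k := rfl
      omega
  have h := D.le_sq hm q hq (fun i hi j m1 _ => absurd m1 (nmv i hi j).1)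
  have h3 : (∑ i, if P.five i then 0 else
      max 0 (wcn D.swap.ca (K.cb i) (K.cw i) - wcn D.ca (K.cb i) (K.cw i))) = (0 : ℤ) := by
    refine Finset.sum_eq_zero fun i _ => ?_
    by_cases hi : P.five i
    · rw [if_pos hi]
    · rw [if_neg hi, (hq i hi).wcn_eq, (hq i hi).wcn_eq]
      have z1 : ∀ j, ¬ D.ca (q i j) (q i (j + 1)) (q i (j + 2)) := fun j k =>
        (D.ca_mv k).elim (nmv i hi j).1 (nmv i hi j).2
      have z2 : ∀ j, ¬ D.swap.ca (q i j) (q i (j + 1)) (q i (j + 2)) := fun j k =>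
        (D.swap.ca_mv k).elim (nmv i hi j).1 (nmv i hi j).2
      rw [Finset.sum_congr rfl (fun j _ => if_neg (z1 j)),
        Finset.sum_congr rfl (fun j _ => if_neg (z2 j))]
      simp
  rw [h3, add_zero] at h
  exact h

/-- THE TWO OUT-EDGES OF A VERTEX WITHOUT SWAP -/
theorem pas_eq (hm : K.Min) {k a b : V} (ka : K.ar k a) (kb : K.ar k b) (ab : a ≠ b)
    (ns : ∀ g : H, g • k = k → g • a = a) (q : K.I → Fin 4 → V)
    (hq : ∀ i, ¬ P.five i → IsSq K i (q i))
    (hz : ∀ i, ¬ P.five i → ∀ (j : Fin 4) (g : H), q i (j + 1) = g • k →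
      K.ar (g • k) (q i j) ∧ K.ar (g • k) (q i (j + 2))) : P.pas k a = P.pas k b := by
  classical
  have nb : ∀ g : H, g • k = k → g • b = b := fun g hg =>
    (allD (P := P) ka kb ab ns).fix_b hg (ns g hg)
  have h1 := all_le (P := P) hm ka kb ab ns q hq hz
  have h2 := all_le (P := P) hm kb ka ab.symm nb q hq hz
  have e1 : (allD (P := P) kb ka ab.symm nb).ca = (allD (P := P) ka kb ab ns).swap.ca := rfl
  have e2 : (allD (P := P) kb ka ab.symm nb).swap.ca = (allD (P := P) ka kb ab ns).ca := rfl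
  rw [e1, e2] at h2
  have h3 := le_antisymm h1 h2
  rw [P.pas_eq_v, P.pas_eq_v]
  have key : (∑ i : K.I, if P.five i then
      wcn (fun x y _ => Tr H a k x y) (K.cb i) (K.cw i) +
        wcn (fun _ y z => Tr H a k z y) (K.cb i) (K.cw i) else 0) +
      (∑ i, if P.five i then wcn (allD (P := P) ka kb ab ns).swap.ca (K.cb i) (K.cw i) else 0) =
    (∑ i : K.I, if P.five i then
      wcn (fun x y _ => Tr H b k x y) (K.cb i) (K.cw i) +
        wcn (fun _ y z => Tr H b k z y) (K.cb i) (K.cw i) else 0) +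
      (∑ i, if P.five i then wcn (allD (P := P) ka kb ab ns).ca (K.cb i) (K.cw i) else 0) := by
    rw [← Finset.sum_add_distrib, ← Finset.sum_add_distrib]
    refine Finset.sum_congr rfl fun i _ => ?_
    by_cases hi : P.five i
    · rw [if_pos hi, if_pos hi, if_pos hi, if_pos hi, P.wcn_eq hi, P.wcn_eq hi, P.wcn_eq hi,
        P.wcn_eq hi, P.wcn_eq hi, P.wcn_eq hi, ← Finset.sum_add_distrib, ← Finset.sum_add_distrib,
        ← Finset.sum_add_distrib, ← Finset.sum_add_distrib]
      refine Finset.sum_congr rfl fun j _ => ?_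
      have k := all_corner (P := P) hm ka kb ab ns ((P.at_pt hi).rot j)
      have e0 : j + 0 = j := add_zero j
      simp only [e0] at k
      exact k
    · rw [if_neg hi, if_neg hi, if_neg hi, if_neg hi]
  linarith

end PG

end Pool.Agent.DI
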