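import Pool.Agent.DI.Zg
import Pool.Agent.DI.Zp
import Pool.Agent.DI.Zc2

/-!
# DI/Zg2: gamma squares (B) and the diamond

`HB.le`: all `n i` in one union of pieces of `s`, the arrows `n i → b` not moved: the number of real
corners of the `n i` at `s` is at most the number of squares. `HB.pas_le`: the same as a sum of passes.
`HB.diamond`: one square, also `b = h s` with `h u = u`.
-/

namespace Pool.Agent.DI

open MulAction
open Pool.Agent.SAF (InC orbs FinOrb oc)

variable {H V : Type} [Group H] [MulAction H V]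

namespace HB

variable {K : GX H V} {P : PG K} {Z : ZS P} {D : PcG P}

/-- `good` holds, if the arrows `n i → b` are not moved -/
theorem of_not_mv (Dv : D.v = Z.s) (Db : D.b = Z.u) (nR : ∀ i, ¬ P.five i → Z.n i ∈ D.R)
    (nb : ∀ i, ¬ P.five i → ¬ D.mv (Z.n i) Z.b) : HB Z D where
  Dv := Dv
  Db := Db
  nR := nR
  good := by
    intro i g hi hg
    have k := D.R_ar _ hg
    rw [Dv] at k
    rcases Z.n_out hi k with k | k
    · have h1 : g • D.v = D.v := by rw [Dv, ← k]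
      have h2 := D.fix_b h1 (D.stab g h1 _ (nR i hi) hg)
      rwa [Db] at h2
    · exfalso
      refine nb i hi ⟨g⁻¹, ?_, ?_⟩
      · rw [inv_inv]
        exact hg
      · rw [Dv, k, inv_smul_smul]

/-- the position of a moved translate of `n i` -/
theorem X_iff (B : HB Z D) (nb : ∀ i, ¬ P.five i → ¬ D.mv (Z.n i) Z.b) {x v : V} :
    Z.X D x v ↔ ∃ i, ¬ P.five i ∧ Tr H (Z.n i) Z.s x v := by
  constructor
  · rintro ⟨m, hx⟩
    rcases Z.cases x with h | ⟨i, g, hi, rfl⟩
    · exact absurd h hx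
    · refine ⟨i, hi, g, rfl, ?_⟩
      rcases Z.n_out hi (D.mv_ar m) with e | e
      · exact e
      · exfalso
        obtain ⟨h, h1, h2⟩ := m
        refine nb i hi ⟨g⁻¹ * h, ?_, ?_⟩
        · rw [mul_inv_rev, inv_inv, mul_smul]
          exact h1
        · rw [mul_smul, ← h2, e, inv_smul_smul]
  · rintro ⟨i, hi, g, rfl, rfl⟩
    refine ⟨⟨g, ?_, by rw [B.Dv]⟩, Z.not_W hi⟩
    rw [inv_smul_smul]
    exact B.nR i hi

/-- the legs of the squares which are not moved -/
theorem not_mv_n (B : HB Z D) {i : K.I} (hi : ¬ P.five i) (x : V) : ¬ D.mv x (Z.n i) := by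
  rintro ⟨g, -, k⟩
  have := congrArg K.rk k
  rw [K.rk_smul, B.Dv] at this
  have := Z.rk2 hi
  omega

theorem not_mv_u (B : HB Z D) (x : V) : ¬ D.mv x Z.u := by
  rintro ⟨g, -, k⟩
  have := congrArg K.rk k
  rw [K.rk_smul, B.Dv] at this
  have := Z.rk1
  omega

theorem not_mv_us : ¬ D.mv Z.u Z.s := fun k => by
  have := K.ar_rk _ _ (D.mv_ar k)
  have := Z.rk1
  omega

theorem not_mv_ub (B : HB Z D) : ¬ D.mv Z.u Z.b := fun k => by
  have := K.ar_rk _ _ (D.mv_ar k)
  have r1 := Z.rk1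
  obtain ⟨g, -, e⟩ := k
  have := congrArg K.rk e
  rw [K.rk_smul, B.Dv] at this
  omega

open Classical in
/-- the inequality before the fold -/
theorem slide (B : HB Z D) (hm : K.Min) (w : K.I → ℤ) (hw : ∀ i, ¬ P.five i →
    1 + (if D.mv (Z.n i) Z.b then 1 else 0) ≤ w i) :
    (∑ i, if P.five i then wcn D.ca (K.cb i) (K.cw i) else 0) ≤
      (∑ i, if P.five i then wcn D.swap.ca (K.cb i) (K.cw i) else 0) +
        ∑ i, if P.five i then 0 else w i := by
  have h2 := D.le_sq hm (fun i => ![Z.s, Z.n i, Z.b, Z.u]) (fun i hi => Z.isSq hi) (by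
      intro i hi j m1 m2
      exfalso
      fin_cases j
      · exact B.not_mv_n hi _ m1
      · exact B.not_mv_ub m2
      · exact B.not_mv_u _ m1
      · exact not_mv_us m1)
  have h3 : (∑ i, if P.five i then 0 else
      max 0 (wcn D.swap.ca (K.cb i) (K.cw i) - wcn D.ca (K.cb i) (K.cw i))) ≤
      ∑ i, if P.five i then 0 else w i := by
    refine Finset.sum_le_sum fun i _ => ?_
    by_cases hi : P.five i
    · rw [if_pos hi, if_pos hi]
    · rw [if_neg hi, if_neg hi, (Z.isSq hi).wcn_eq, (Z.isSq hi).wcn_eq, Fin.sum_univ_four,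
        Fin.sum_univ_four]
      have c1 : ∀ x z, ¬ D.ca x (Z.n i) z := fun x z k =>
        (D.ca_mv k).elim (B.not_mv_n hi _) (B.not_mv_n hi _)
      have c2 : ∀ x z, ¬ D.swap.ca x (Z.n i) z := fun x z k =>
        (D.swap.ca_mv k).elim (B.not_mv_n hi _) (B.not_mv_n hi _)
      have c3 : ∀ x z, ¬ D.ca x Z.u z := fun x z k =>
        (D.ca_mv k).elim (B.not_mv_u _) (B.not_mv_u _)
      have c4 : ∀ x z, ¬ D.swap.ca x Z.u z := fun x z k =>
        (D.swap.ca_mv k).elim (B.not_mv_u _) (B.not_mv_u _)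
      have d1 : ¬ D.ca (![Z.s, Z.n i, Z.b, Z.u] 0) (![Z.s, Z.n i, Z.b, Z.u] (0 + 1))
        (![Z.s, Z.n i, Z.b, Z.u] (0 + 2)) := c1 _ _
      have d2 : ¬ D.swap.ca (![Z.s, Z.n i, Z.b, Z.u] 0) (![Z.s, Z.n i, Z.b, Z.u] (0 + 1))
        (![Z.s, Z.n i, Z.b, Z.u] (0 + 2)) := c2 _ _
      have d3 : ¬ D.ca (![Z.s, Z.n i, Z.b, Z.u] 2) (![Z.s, Z.n i, Z.b, Z.u] (2 + 1))
        (![Z.s, Z.n i, Z.b, Z.u] (2 + 2)) := c3 _ _
      have d4 : ¬ D.swap.ca (![Z.s, Z.n i, Z.b, Z.u] 2) (![Z.s, Z.n i, Z.b, Z.u] (2 + 1))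
        (![Z.s, Z.n i, Z.b, Z.u] (2 + 2)) := c4 _ _
      rw [if_neg d1, if_neg d2, if_neg d3, if_neg d4]
      have w1 := hw i hi
      by_cases m : D.mv (Z.n i) Z.b
      · rw [if_pos m] at w1
        refine le_trans ?_ w1
        split_ifs <;> norm_num
      · rw [if_neg m] at w1
        have d5 : ¬ D.swap.ca (![Z.s, Z.n i, Z.b, Z.u] 1) (![Z.s, Z.n i, Z.b, Z.u] (1 + 1))
          (![Z.s, Z.n i, Z.b, Z.u] (1 + 2)) := fun k => (D.swap.ca_mv k).elim m B.not_mv_ub
        rw [if_neg d5]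
        refine le_trans ?_ w1
        split_ifs <;> norm_num
  linarith

open Classical in
theorem LX_le (B : HB Z D) (hm : K.Min) (w : K.I → ℤ) (hw : ∀ i, ¬ P.five i →
    1 + (if D.mv (Z.n i) Z.b then 1 else 0) ≤ w i) :
    Z.LX D ≤ ∑ i, if P.five i then 0 else w i := by
  have h1 := B.slide hm w hw
  have h2 := B.count hm
  linarith

/-- GAMMA (B): at most one real corner for each square -/
theorem le (B : HB Z D) (hm : K.Min) (nb : ∀ i, ¬ P.five i → ¬ D.mv (Z.n i) Z.b) :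
    Z.LX D ≤ Nat.card {i : K.I // ¬ P.five i} := by
  classical
  have h := B.LX_le hm (fun _ => 1) (fun i hi => by rw [if_neg (nb i hi)]; norm_num)
  refine h.trans (le_of_eq ?_)
  rw [Nat.card_eq_fintype_card, Fintype.card_subtype, Finset.card_eq_sum_ones, Finset.sum_filter]
  push_cast
  refine Finset.sum_congr rfl fun i _ => ?_
  by_cases hi : P.five i
  · rw [if_pos hi, if_neg (not_not.2 hi)]
  · rw [if_neg hi, if_pos hi]

open Classical in
/-- the real corners as passes, in general -/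
theorem LX_pas (S : Finset (K.I × V)) (hS : ∀ x v, (Z.X D x v ↔ ∃ p ∈ S, Tr H (Z.n p.1) p.2 x v))
    (hd : ∀ p ∈ S, ∀ p' ∈ S, ∀ x v, Tr H (Z.n p.1) p.2 x v → Tr H (Z.n p'.1) p'.2 x v → p = p') :
    Z.LX D = ∑ p ∈ S, P.pas p.2 (Z.n p.1) := by
  have e : ∀ x v, (if Z.X D x v then (1 : ℤ) else 0) =
      ∑ p ∈ S, if Tr H (Z.n p.1) p.2 x v then (1 : ℤ) else 0 := by
    intro x v
    by_cases h : Z.X D x v
    · obtain ⟨p, hp, ht⟩ := (hS x v).1 h
      rw [if_pos h, Finset.sum_eq_single p]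
      · rw [if_pos ht]
      · intro p' hp' hne
        rw [if_neg (fun k => hne (hd _ hp' _ hp _ _ k ht))]
      · intro k
        exact absurd hp k
    · rw [if_neg h, Finset.sum_eq_zero]
      intro p hp
      rw [if_neg (fun k => h ((hS x v).2 ⟨p, hp, k⟩))]
  have e2 : ∀ p : K.I × V, P.pas p.2 (Z.n p.1) = ∑ i : K.I, if P.five i then
      wcn (fun x y _ => Tr H (Z.n p.1) p.2 x y) (K.cb i) (K.cw i) +
        wcn (fun _ y z => Tr H (Z.n p.1) p.2 z y) (K.cb i) (K.cw i) else 0 :=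
    fun p => P.pas_eq_v _ _
  rw [Finset.sum_congr rfl (fun p _ => e2 p), Finset.sum_comm]
  unfold ZS.LX
  refine Finset.sum_congr rfl fun i _ => ?_
  by_cases hi : P.five i
  · rw [if_pos hi, Finset.sum_congr rfl (fun p _ => if_pos hi), Finset.sum_add_distrib]
    congr 1
    · rw [P.wcn_eq hi, Finset.sum_congr rfl (fun p _ => P.wcn_eq hi _), Finset.sum_comm]
      exact Finset.sum_congr rfl fun j _ => e _ _
    · rw [P.wcn_eq hi, Finset.sum_congr rfl (fun p _ => P.wcn_eq hi _), Finset.sum_comm]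
      exact Finset.sum_congr rfl fun j _ => e _ _
  · rw [if_neg hi, Finset.sum_congr rfl (fun p _ => if_neg hi)]
    simp

open Classical in
/-- GAMMA (B) as a sum of passes; different squares have `n i` in different orbits -/
theorem pas_le (B : HB Z D) (hm : K.Min) (nb : ∀ i, ¬ P.five i → ¬ D.mv (Z.n i) Z.b)
    (inj : ∀ i j (g : H), ¬ P.five i → ¬ P.five j → g • Z.n i = Z.n j → i = j) :
    (∑ i : K.I, if P.five i then 0 else P.pas (Z.n i) Z.s) ≤ Nat.card {i : K.I // ¬ P.five i} := by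
  have h := B.le hm nb
  rw [LX_pas (Z := Z) (D := D) ((Finset.univ.filter (fun i => ¬ P.five i)).image (fun i => (i, Z.s)))]
    at h
  · rw [Finset.sum_image (fun i _ j _ e => congrArg Prod.fst e), Finset.sum_filter] at h
    refine le_trans (le_of_eq ?_) h
    refine Finset.sum_congr rfl fun i _ => ?_
    by_cases hi : P.five i
    · rw [if_pos hi, if_neg (not_not.2 hi)]
    · rw [if_neg hi, if_pos hi, P.pas_comm]
  · intro x v
    rw [B.X_iff nb]
    constructor
    · rintro ⟨i, hi, ht⟩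
      exact ⟨(i, Z.s), Finset.mem_image.2 ⟨i, Finset.mem_filter.2 ⟨Finset.mem_univ _, hi⟩, rfl⟩, ht⟩
    · rintro ⟨p, hp, ht⟩
      obtain ⟨i, hi, rfl⟩ := Finset.mem_image.1 hp
      exact ⟨i, (Finset.mem_filter.1 hi).2, ht⟩
  · intro p hp p' hp' x v ht ht'
    obtain ⟨i, hi, rfl⟩ := Finset.mem_image.1 hp
    obtain ⟨j, hj, rfl⟩ := Finset.mem_image.1 hp'
    obtain ⟨g, rfl, -⟩ := ht
    obtain ⟨g', e, -⟩ := ht'
    have : i = j := inj i j (g'⁻¹ * g) (Finset.mem_filter.1 hi).2 (Finset.mem_filter.1 hj).2 (by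
      rw [mul_smul, inv_smul_eq_iff]
      exact e)
    rw [this]

end HB

end Pool.Agent.DI
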