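import Pool.Agent.DI.Zg2

/-!
# DI/Zg3: the diamond, all cases but `(*t)`

`ZD.L_le_of`: `L ≤ 1`, if `h⁻¹ t = t` whenever `b = h s` and `h⁻¹ n` is in the pieces of `s`.
-/

namespace Pool.Agent.DI

open MulAction
open Pool.Agent.SAF (InC orbs FinOrb oc)

variable {H V : Type} [Group H] [MulAction H V]

namespace ZD

variable {K : GX H V} {P : PG K} (Z : ZD P)

theorem eq_i0 {i : K.I} (h : ¬ P.five i) : i = Z.i0 := by
  by_contra k
  exact h (Z.five _ k)

/-- the square as a family -/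
def zs : ZS P where
  s := Z.s
  u := Z.t
  b := Z.b
  n _ := Z.n
  cb0 i hi := by rw [Z.eq_i0 hi, Z.cb0]
  cw0 i hi := by rw [Z.eq_i0 hi, Z.cw0]
  hns _ _ := Z.hns
  hnb _ _ := Z.hnb
  hsu := Z.hst
  hbu := Or.inl Z.hbt
  sb := Z.sb
  fix _ _ g _ _ e := Z.hnt g e

/-- `L` is the number of passes of the edge `(n, s)` in the pentagons -/
theorem L_eq : Z.L = P.pas Z.n Z.s := by
  rw [P.pas_comm, P.pas_eq_v]
  rfl

/-- the hypothesis of `HB` -/
theorem hb (hs : ∀ h : H, Z.b = h • Z.s → h⁻¹ • Z.n ∈ Z.D.R → h⁻¹ • Z.t = Z.t) : HB Z.zs Z.D where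
  Dv := Z.Dv
  Db := Z.Db
  nR _ _ := Z.nR
  good := by
    intro i g _ hg
    have hg : g • Z.n ∈ Z.D.R := hg
    show g • Z.t = Z.t
    have k := Z.D.R_ar _ hg
    rw [Z.Dv] at k
    rcases Z.n_out k with k | k
    · have h1 : g • Z.D.v = Z.D.v := by rw [Z.Dv, ← k]
      have h2 := Z.D.fix_b h1 (Z.D.stab g h1 _ Z.nR hg)
      rwa [Z.Db] at h2
    · have := hs g⁻¹ (by rw [k, inv_smul_smul]) (by rw [inv_inv]; exact hg)
      rwa [inv_inv] at this

/-- the two edges of `n` -/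
theorem pas_ns_nb (hm : K.Min) (ns : ¬ ∃ g : H, Z.b = g • Z.s ∧ g • Z.n = Z.n) :
    P.pas Z.n Z.s = P.pas Z.n Z.b := by
  refine PG.pas_eq hm Z.hns Z.hnb Z.sb ?_ (fun _ => ![Z.s, Z.n, Z.b, Z.t]) ?_ ?_
  · intro g hg
    have h := K.ar_smul g _ _ Z.hns
    rw [hg] at h
    rcases K.two _ _ _ _ Z.hns Z.hnb h with e | e | e
    · exact absurd e Z.sb
    · exact absurd ⟨g, e, hg⟩ ns
    · exact e.symm
  · intro i hi
    rw [Z.eq_i0 hi]
    exact Z.isSq
  · intro i hi j g e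
    have r1 := Z.rk1
    have r2 := Z.rk2
    have rb := Z.rkb2
    fin_cases j
    · have e : Z.n = g • Z.n := e
      rw [← e]
      exact ⟨Z.hns, Z.hnb⟩
    · exfalso
      have e : Z.b = g • Z.n := e
      have := congrArg K.rk e
      rw [K.rk_smul] at this
      omega
    · exfalso
      have e : Z.t = g • Z.n := e
      have := congrArg K.rk e
      rw [K.rk_smul] at this
      omega
    · exfalso
      have e : Z.s = g • Z.n := e
      have := congrArg K.rk e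
      rw [K.rk_smul] at this
      omega

/-- the third case: `b = h s`, `h⁻¹ n` is in the pieces, no swap at `n` -/
theorem L_le3 (hm : K.Min) (hs : ∀ h : H, Z.b = h • Z.s → h⁻¹ • Z.n ∈ Z.D.R → h⁻¹ • Z.t = Z.t)
    (hmv : Z.D.mv Z.n Z.b) (ns : ¬ ∃ g : H, Z.b = g • Z.s ∧ g • Z.n = Z.n) : Z.L ≤ 1 := by
  classical
  have h1 := (Z.hb hs).LX_le hm (fun _ => 2) (by
    intro i _
    show 1 + (if Z.D.mv Z.n Z.b then (1 : ℤ) else 0) ≤ 2
    rw [if_pos hmv]
    norm_num)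
  have h2 : (∑ i, if P.five i then 0 else (2 : ℤ)) = 2 := by
    rw [Finset.sum_eq_single Z.i0]
    · rw [if_neg Z.nfive]
    · intro i _ hi
      rw [if_pos (Z.five _ hi)]
    · intro k
      exact absurd (Finset.mem_univ _) k
  rw [h2] at h1
  have h3 : Z.zs.LX Z.D = ∑ p ∈ ({(Z.i0, Z.s), (Z.i0, Z.b)} : Finset (K.I × V)), P.pas p.2
      (Z.zs.n p.1) := by
    refine HB.LX_pas _ ?_ ?_
    · intro x v
      constructor
      · rintro ⟨m, hx⟩
        rcases Z.zs.cases x with h | ⟨i, g, hi, rfl⟩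
        · exact absurd h hx
        · have m' := Z.D.mv_ar m
          rcases Z.n_out (g := g) m' with e | e
          · exact ⟨(Z.i0, Z.s), by simp, g, rfl, e⟩
          · exact ⟨(Z.i0, Z.b), by simp, g, rfl, e⟩
      · rintro ⟨p, hp, g, rfl, rfl⟩
        have hp : p = (Z.i0, Z.s) ∨ p = (Z.i0, Z.b) := by simpa using hp
        rcases hp with rfl | rfl
        · refine ⟨⟨g, ?_, by rw [Z.Dv]⟩, Z.zs.not_W Z.nfive⟩
          show g⁻¹ • g • Z.n ∈ Z.D.R
          rw [inv_smul_smul]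
          exact Z.nR
        · obtain ⟨h, k1, k2⟩ := hmv
          refine ⟨⟨g * h, ?_, ?_⟩, Z.zs.not_W Z.nfive⟩
          · show (g * h)⁻¹ • g • Z.n ∈ Z.D.R
            rw [mul_inv_rev, mul_smul, inv_smul_smul]
            exact k1
          · show g • Z.b = (g * h) • Z.D.v
            rw [mul_smul, ← k2]
    · have key : ∀ x v, Tr H Z.n Z.s x v → Tr H Z.n Z.b x v → False := by
        rintro x v ⟨g, rfl, rfl⟩ ⟨g', e1, e2⟩
        refine ns ⟨g'⁻¹ * g, ?_, ?_⟩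
        · rw [mul_smul, e2, inv_smul_smul]
        · rw [mul_smul, e1, inv_smul_smul]
      intro p hp p' hp' x v t t'
      have hp : p = (Z.i0, Z.s) ∨ p = (Z.i0, Z.b) := by simpa using hp
      have hp' : p' = (Z.i0, Z.s) ∨ p' = (Z.i0, Z.b) := by simpa using hp'
      rcases hp with rfl | rfl <;> rcases hp' with rfl | rfl
      · rfl
      · exact (key _ _ t t').elim
      · exact (key _ _ t' t).elim
      · rfl
  have hne : (Z.i0, Z.s) ≠ (Z.i0, Z.b) := fun e => Z.sb (congrArg Prod.snd e)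
  rw [Finset.sum_pair hne] at h3
  have h3 : Z.zs.LX Z.D = P.pas Z.s Z.n + P.pas Z.b Z.n := h3
  rw [P.pas_comm Z.s, P.pas_comm Z.b, ← Z.pas_ns_nb hm ns, ← L_eq] at h3
  linarith

/-- AT MOST ONE REAL CORNER, all cases but `(*t)` -/
theorem L_le_of (hm : K.Min) (hs : ∀ h : H, Z.b = h • Z.s → h⁻¹ • Z.n ∈ Z.D.R → h⁻¹ • Z.t = Z.t) :
    Z.L ≤ 1 := by
  by_cases hmv : Z.D.mv Z.n Z.b
  · by_cases ns : ∃ g : H, Z.b = g • Z.s ∧ g • Z.n = Z.n
    · exact Z.L_le_one hm (Or.inr ns)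
    · exact Z.L_le3 hm hs hmv ns
  · exact Z.L_le hm hmv

end ZD

end Pool.Agent.DI
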