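import Pool.Agent.DI.Zg2

/-!
# DI/Zh: gamma squares (A)

`Z : ZS P` with `u → b`, `D : PcG P` with `D.v = u`, `D.b = b` and `s ∈ D.R`. In the quotient
`g • n i ~ g • u` the in-arrows of the `n i` join the pieces. `HA.count`: `c_b + Λ = c_a` with `Λ` = the
number of real corners at the `n i` with the leg `b`. `HA.le`: `Λ` is at most the number of squares.
-/

namespace Pool.Agent.DI

open MulAction
open Pool.Agent.SAF (InC orbs FinOrb oc)
open Pool.Agent.BT (lz lz_self lz_ne lz_symm)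

variable {H V : Type} [Group H] [MulAction H V]

/-- `s` is in the pieces `D` of `u` -/
structure HA {K : GX H V} {P : PG K} (Z : ZS P) (D : PcG P) : Prop where
  Dv : D.v = Z.u
  Db : D.b = Z.b
  sR : Z.s ∈ D.R

namespace HA

variable {K : GX H V} {P : PG K} {Z : ZS P} {D : PcG P} (A : HA Z D)

include A

theorem ub : K.ar Z.u Z.b := by
  have := D.vb
  rwa [A.Dv, A.Db] at this

theorem uy : K.ar Z.u D.a := by
  have := D.va
  rwa [A.Dv] at this

theorem yb : D.a ≠ Z.b := by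
  have := D.ab
  rwa [A.Db] at this

theorem rkb : K.rk Z.b < K.rk Z.u := K.ar_rk _ _ A.ub

theorem rky : K.rk D.a < K.rk Z.u := K.ar_rk _ _ A.uy

theorem b_W : Z.b ∈ Z.W := Z.W_of_rk (A.rkb.trans Z.rk1).le

theorem y_W : D.a ∈ Z.W := Z.W_of_rk (A.rky.trans Z.rk1).le

/-- the out-neighbours `g s` of the translates of `n i` -/
theorem s_eq {i j : K.I} (hi : ¬ P.five i) (hj : ¬ P.five j) {g g' : H}
    (e : g • Z.n i = g' • Z.n j) : g • Z.s = g' • Z.s := by
  have h := K.ar_smul g _ _ (Z.hns i hi)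
  rw [e] at h
  rcases Z.n_out hj h with k | k
  · exact k
  · exfalso
    have := congrArg K.rk k
    rw [K.rk_smul, K.rk_smul] at this
    have := A.rkb
    have := Z.rk1
    omega

omit A in
theorem u_eq {i j : K.I} (hi : ¬ P.five i) (hj : ¬ P.five j) {g g' : H}
    (e : g • Z.n i = g' • Z.n j) : g • Z.u = g' • Z.u := by
  have := Z.fix i j (g'⁻¹ * g) hi hj (by rw [mul_smul, e, inv_smul_smul])
  rwa [mul_smul, inv_smul_eq_iff] at this

omit A in
/-- vertices over `u` -/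
theorem over_u {x : V} (h : Z.f x = Z.f Z.u) : x = Z.u ∨ ∃ (i : K.I) (g : H), ¬ P.five i ∧
    x = g • Z.n i ∧ g • Z.u = Z.u := by
  rw [Z.f_eq_iff, Z.f0_W Z.u_W] at h
  rcases Z.cases x with hx | ⟨i, g, hi, rfl⟩
  · left
    rwa [Z.f0_W hx] at h
  · right
    rw [Z.f0_n hi] at h
    exact ⟨i, g, hi, rfl, h⟩

/-- the new in-arrows of `u` which join the pieces -/
def New (D : PcG P) (Z : ZS P) (m : V) : Prop := ∃ (i : K.I) (g : H), ¬ P.five i ∧
  K.ar m (g • Z.n i) ∧ g • Z.u = Z.u ∧ g • Z.s ∈ D.R ∧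
    ∀ z, K.ar m z → z ≠ g • Z.n i → Z.f z ≠ Z.f Z.u

omit A in
theorem New_not_u {m : V} (h : HA.New D Z m) : ¬ K.ar m Z.u := by
  rintro k
  obtain ⟨i, g, hi, -, -, -, h5⟩ := h
  refine h5 _ k ?_ rfl
  intro e
  have := congrArg K.rk e
  rw [K.rk_smul] at this
  have := Z.rk1
  have := Z.rk2 hi
  omega

theorem R_u {m : V} (h : m ∈ D.R) : K.ar m Z.u := by
  have := D.R_ar _ h
  rwa [A.Dv] at this

/-- elements of `R` are no translates of `n i` -/
theorem R_W {m : V} (h : m ∈ D.R) : m ∈ Z.W := by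
  rintro i g hi rfl
  have r1 := Z.rk1
  have r3 := A.rkb
  rcases Z.n_out hi (A.R_u h) with e | e
  · have := congrArg K.rk e
    rw [K.rk_smul] at this
    omega
  · have := congrArg K.rk e
    rw [K.rk_smul] at this
    omega

omit A in
theorem New_W {m : V} (h : HA.New D Z m) : m ∈ Z.W := by
  rintro j k hj rfl
  obtain ⟨i, g, hi, h1, -⟩ := h
  have r2 := Z.rk2 hi
  have r3 := Z.rkb hi
  rcases Z.n_out hj h1 with e | e
  · have := congrArg K.rk e
    rw [K.rk_smul, K.rk_smul] at this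
    omega
  · have := congrArg K.rk e
    rw [K.rk_smul, K.rk_smul] at this
    omega

omit A in
/-- the vertex over `u` next to a new in-arrow is unique -/
theorem New_uniq {m : V} {i : K.I} {g : H} (hi : ¬ P.five i) (h : HA.New D Z m)
    (h1 : K.ar m (g • Z.n i)) (h2 : g • Z.u = Z.u) : ∃ (j : K.I) (g' : H), ¬ P.five j ∧
    g • Z.n i = g' • Z.n j ∧ g' • Z.s ∈ D.R := by
  obtain ⟨j, g', hj, k1, k2, k3, k4⟩ := h
  refine ⟨j, g', hj, ?_, k3⟩
  by_contra hne
  refine k4 _ h1 hne ?_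
  rw [Z.f_n hi, h2]

/-- old and new in-arrows -/
def Rn (D : PcG P) (Z : ZS P) (m : V) : Prop := m ∈ D.R ∨ HA.New D Z m

theorem Rn_rk {m : V} (h : HA.Rn D Z m) : K.rk Z.u < K.rk m := by
  rcases h with h | ⟨i, g, hi, h, -⟩
  · exact K.ar_rk _ _ (A.R_u h)
  · have := K.ar_rk _ _ h
    rw [K.rk_smul] at this
    have := Z.rk1
    have := Z.rk2 hi
    omega

theorem Rn_W {m : V} (h : HA.Rn D Z m) : m ∈ Z.W := h.elim A.R_W New_W

omit A in
/-- HAIRS: two vertices over one vertex -/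
theorem hair_at (hm : K.Min) {d : Fin 5 → V} {i : K.I} (a : P.At d i) {j : K.I} {g : H}
    (hj : ¬ P.five j) (e1 : d 1 = g • Z.n j) (h : K.ar (d 2) (g • Z.n j)) :
    ∀ z, K.ar (d 2) z → z ≠ g • Z.n j → Z.f z ≠ Z.f (g • Z.n j) := by
  intro z hz hne e
  obtain ⟨i', a'⟩ := Z.desc hm a
  have hW : d 2 ∈ Z.W := by
    rintro j' k hj' e'
    rw [← e'] at h
    have r2 := Z.rk2 hj
    have r3 := Z.rkb hj
    rcases Z.n_out hj' h with e | e
    · have := congrArg K.rk e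
      rw [K.rk_smul, K.rk_smul] at this
      omega
    · have := congrArg K.rk e
      rw [K.rk_smul, K.rk_smul] at this
      omega
  have c1 : Z.qt.gx.ar (Z.f (d 2)) (Z.f (g • Z.n j)) := Z.ar'_of hW h
  refine a'.hair' (Z.q5.min hm) c1 ?_ 1 (congrArg Z.f e1) rfl
  rintro w ⟨z', hz', rfl⟩
  rw [Z.f_coe, Z.f0_W hW] at hz'
  rcases K.two _ _ _ _ hz' hz h with k | k | k
  · rw [k, e]
  · exact absurd k hne
  · rw [k]

/-- the pieces at a translate of `n i` -/
theorem s_mem (hm : K.Min) {d : Fin 5 → V} {i : K.I} (a : P.At d i) {j : K.I} {g : H}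
    (hj : ¬ P.five j) (e1 : d 1 = g • Z.n j) (hu : g • Z.u = Z.u) (h0 : HA.Rn D Z (d 0)) :
    g • Z.s ∈ D.R := by
  have e : K.E (d 0) (d 1) := a.E 0
  rw [e1] at e
  have r1 := Z.rk1
  have r2 := Z.rk2 hj
  have r3 := A.rkb
  rcases e with e | e
  · have hu' := hair_at (Z := Z) hm (a.refl 2) hj e1 e
    rcases h0 with h0 | h0
    · exfalso
      refine hu' Z.u (A.R_u h0) ?_ ?_
      · intro k
        have := congrArg K.rk k
        rw [K.rk_smul] at this
        omega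
      · rw [Z.f_n hj, hu]
    · obtain ⟨j', g', hj', k1, k2⟩ := New_uniq hj h0 e hu
      rw [A.s_eq hj hj' k1]
      exact k2
  · rcases Z.n_out hj e with k | k
    · rw [k] at h0
      rcases h0 with h0 | ⟨j', g', hj', k1, -⟩
      · exact h0
      · exfalso
        have := K.ar_rk _ _ k1
        rw [K.rk_smul, K.rk_smul] at this
        have := Z.rk2 hj'
        omega
    · exfalso
      have := A.Rn_rk h0
      rw [k, K.rk_smul] at this
      omega

omit A in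
/-- the other neighbour -/
theorem mem1 (hm : K.Min) {d : Fin 5 → V} {i : K.I} (a : P.At d i) {j : K.I} {g : H}
    (hj : ¬ P.five j) (e1 : d 1 = g • Z.n j) (hu : g • Z.u = Z.u) (hs : g • Z.s ∈ D.R) :
    HA.Rn D Z (d 2) ∨ d 2 = g • Z.b := by
  have e : K.E (d 1) (d 2) := a.E 1
  rw [e1] at e
  rcases e with e | e
  · rcases Z.n_out hj e with k | k
    · left
      left
      rw [k]
      exact hs
    · exact Or.inr k
  · left
    right
    refine ⟨j, g, hj, e, hu, hs, fun z hz hne => ?_⟩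
    have := hair_at (Z := Z) hm a hj e1 e z hz hne
    rwa [Z.f_n hj, hu] at this

/-- at `u` only the old in-arrows occur -/
theorem at_u {x : V} (e : K.E x Z.u) (h : HA.Rn D Z x) : x ∈ D.R := by
  refine h.resolve_right fun k => ?_
  rcases e with e | e
  · exact New_not_u k e
  · have r1 := K.ar_rk _ _ e
    have r2 := A.Rn_rk (Or.inr k)
    omega

/-- `g` fixes the poles, if it fixes `u` and `s`, `g s` are in the pieces -/
theorem fix_a {g : H} (hu : g • Z.u = Z.u) (hs : g • Z.s ∈ D.R) : g • D.a = D.a :=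
  D.stab g (by rw [A.Dv]; exact hu) _ A.sR hs

/-- the union of pieces in the quotient -/
noncomputable def D1 (hm : K.Min) : PcD (Z.q5.pt hm) where
  v := ⟨Z.u, Z.u_W⟩
  a := ⟨D.a, A.y_W⟩
  b := ⟨Z.b, A.b_W⟩
  R := {m | HA.Rn D Z (m : V)}
  va := ⟨D.a, A.uy, Z.f_W ⟨_, A.y_W⟩⟩
  vb := ⟨Z.b, A.ub, Z.f_W ⟨_, A.b_W⟩⟩
  ab e := A.yb (congrArg Subtype.val e)
  R_ar := by
    rintro m (h | ⟨i, g, hi, h1, h2, -⟩)
    · exact ⟨Z.u, A.R_u h, Z.f_W ⟨_, Z.u_W⟩⟩
    · refine ⟨g • Z.n i, h1, ?_⟩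
      rw [Z.f_n hi, h2]
      exact Z.f_W ⟨_, Z.u_W⟩
  stab := by
    intro g hv m h1 h2
    have hv : g • Z.u = Z.u := congrArg Subtype.val hv
    apply Subtype.ext
    show g • D.a = D.a
    have h2 : HA.Rn D Z (g • (m : V)) := h2
    rcases h1 with h1 | h1
    · rcases h2 with h2 | h2
      · exact D.stab g (by rw [A.Dv]; exact hv) m h1 h2
      · exfalso
        have := K.ar_smul g _ _ (A.R_u h1)
        rw [hv] at this
        exact New_not_u h2 this
    · rcases h2 with h2 | h2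
      · exfalso
        have := K.ar_smul g⁻¹ _ _ (A.R_u h2)
        rw [inv_smul_smul] at this
        have hv' : g⁻¹ • Z.u = Z.u := by rw [inv_smul_eq_iff]; exact hv.symm
        rw [hv'] at this
        exact New_not_u h1 this
      · obtain ⟨i, k, hi, k1, k2, k3, -⟩ := h1
        have k4 := K.ar_smul g _ _ k1
        rw [← mul_smul] at k4
        have k5 : (g * k) • Z.u = Z.u := by rw [mul_smul, k2, hv]
        obtain ⟨j, k', hj, k6, k7⟩ := New_uniq hi h2 k4 k5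
        have k8 := A.s_eq hi hj k6
        rw [← k8, mul_smul] at k7
        exact D.stab g (by rw [A.Dv]; exact hv) _ k3 k7
  inv := by
    intro g hv ha m h1
    have hv : g • Z.u = Z.u := congrArg Subtype.val hv
    have ha : g • D.a = D.a := congrArg Subtype.val ha
    show HA.Rn D Z (g • (m : V))
    rcases h1 with h1 | ⟨i, k, hi, k1, k2, k3, k4⟩
    · exact Or.inl (D.inv g (by rw [A.Dv]; exact hv) ha m h1)
    · right
      refine ⟨i, g * k, hi, ?_, ?_, ?_, ?_⟩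
      · rw [mul_smul]
        exact K.ar_smul g _ _ k1
      · rw [mul_smul, k2, hv]
      · rw [mul_smul]
        exact D.inv g (by rw [A.Dv]; exact hv) ha _ k3
      · intro z hz hne e
        have h3 := K.ar_smul g⁻¹ _ _ hz
        rw [inv_smul_smul] at h3
        refine k4 _ h3 ?_ ?_
        · intro e'
          refine hne ?_
          rw [mul_smul, ← e', smul_inv_smul]
        · have hv' : g⁻¹ • Z.u = Z.u := by rw [inv_smul_eq_iff]; exact hv.symm
          rw [Z.f_smul, e, ← Z.f_smul, hv']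
  cl := by
    intro c i a h1 h0
    obtain ⟨d, a', e⟩ := Z.lift hm a
    have h0 : HA.Rn D Z (c 0 : V) := h0
    have r0 := A.Rn_rk h0
    have e0 : d 0 = c 0 := Z.eq_of_f (e 0).symm (by omega)
    rw [← e0] at h0
    have h1' : Z.f (d 1) = Z.f Z.u := by
      rw [← e 1, h1]
      exact (Z.f_W ⟨_, Z.u_W⟩).symm
    rcases over_u h1' with k | ⟨j, g, hj, k1, k2⟩
    · have e3 : K.E (d 0) (d 1) := a'.E 0
      rw [k] at e3
      have h3 := A.at_u e3 h0
      have h := D.cl' a' (k := 1) (by rw [one_smul, A.Dv]; exact k)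
        (by rw [inv_one, one_smul]; exact h3)
      rw [inv_one, one_smul, A.Dv] at h
      rcases h with h | h
      · left
        show HA.Rn D Z (c 2 : V)
        rw [e, Z.f_coe, Z.f0_W (A.R_W h)]
        exact Or.inl h
      · right
        exact ⟨d 2, h, (e 2).symm⟩
    · have h3 := A.s_mem hm a' hj k1 k2 h0
      rcases HA.mem1 hm a' hj k1 k2 h3 with h | h
      · left
        show HA.Rn D Z (c 2 : V)
        rw [e, Z.f_coe, Z.f0_W (A.Rn_W h)]
        exact h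
      · right
        refine ⟨d 2, ?_, (e 2).symm⟩
        rw [h]
        have := K.ar_smul g _ _ A.ub
        rwa [k2] at this

/-! ### corners -/

omit A in
/-- a leg `g b` at `g • n i` -/
def _root_.Pool.Agent.DI.ZS.Gl (Z : ZS P) (x v : V) : Prop :=
  ∃ i, ¬ P.five i ∧ Tr H Z.b (Z.n i) x v

/-- a leg in the new pieces -/
theorem leg (hm : K.Min) {c : Fin 5 → V} {i : K.I} (a : P.At c i) {h : H}
    (h1 : Z.f (c 1) = h • (A.D1 hm).v) (h0 : h⁻¹ • Z.f (c 0) ∈ (A.D1 hm).R) :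
    (c 1 = h • D.v ∧ h⁻¹ • c 0 ∈ D.R) ∨
      ∃ (j : K.I) (g : H), ¬ P.five j ∧ c 1 = (h * g) • Z.n j ∧ g • Z.u = Z.u ∧ g • Z.s ∈ D.R := by
  have a' := a.smul h⁻¹
  have h0 : HA.Rn D Z (h⁻¹ • ((Z.f (c 0) : Z.W) : V)) := h0
  have h0' : HA.Rn D Z ((Z.f (h⁻¹ • c 0) : Z.W) : V) := by
    rw [Z.f_smul]
    exact h0
  have r0 := A.Rn_rk h0'
  have e0 : h⁻¹ • c 0 = ((Z.f (h⁻¹ • c 0) : Z.W) : V) := Z.eq_of_f rfl (by omega)
  rw [← e0] at h0'
  have h1' : Z.f (h⁻¹ • c 1) = Z.f Z.u := by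
    rw [Z.f_smul, h1, inv_smul_smul]
    exact (Z.f_W ⟨_, Z.u_W⟩).symm
  rcases over_u h1' with k | ⟨j, g, hj, k1, k2⟩
  · left
    have e3 : K.E (h⁻¹ • c 0) (h⁻¹ • c 1) := K.E_smul h⁻¹ (a.E 0)
    rw [k] at e3
    refine ⟨?_, A.at_u e3 h0'⟩
    rw [A.Dv, ← k, smul_inv_smul]
  · right
    refine ⟨j, g, hj, ?_, k2, A.s_mem hm a' hj k1 k2 h0'⟩
    rw [mul_smul, ← k1, smul_inv_smul]

/-- old corners stay -/
theorem ca_of (hm : K.Min) {x y z : V} (h : D.ca x y z) : (A.D1 hm).ca (Z.f x) (Z.f y) (Z.f z) := by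
  have fR : ∀ (h : H) (x : V), h⁻¹ • x ∈ D.R → h⁻¹ • Z.f x ∈ (A.D1 hm).R := by
    intro h x hx
    show HA.Rn D Z (h⁻¹ • ((Z.f x : Z.W) : V))
    have hW : x ∈ Z.W := by
      have := Z.W.smul_mem h (A.R_W hx)
      rwa [smul_inv_smul] at this
    rw [Z.f_coe, Z.f0_W hW]
    exact Or.inl hx
  have fy : ∀ h : H, Z.f (h • D.a) = h • (A.D1 hm).a := by
    intro h
    rw [Z.f_smul]
    congr 1
    exact Z.f_W ⟨_, A.y_W⟩
  have fv : ∀ h : H, Z.f (h • D.v) = h • (A.D1 hm).v := by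
    intro h
    rw [Z.f_smul]
    congr 1
    rw [A.Dv]
    exact Z.f_W ⟨_, Z.u_W⟩
  obtain ⟨h, rfl, ⟨k1, rfl⟩ | ⟨k1, rfl⟩⟩ := h
  · exact ⟨h, fv h, Or.inl ⟨fR h _ k1, fy h⟩⟩
  · exact ⟨h, fv h, Or.inr ⟨fR h _ k1, fy h⟩⟩

theorem swap_of (hm : K.Min) {x y z : V} (h : D.swap.ca x y z) :
    (A.D1 hm).swap.ca (Z.f x) (Z.f y) (Z.f z) := by
  have fR : ∀ (h : H) (x : V), h⁻¹ • x ∈ D.R → h⁻¹ • Z.f x ∈ (A.D1 hm).R := by
    intro h x hx
    show HA.Rn D Z (h⁻¹ • ((Z.f x : Z.W) : V))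
    have hW : x ∈ Z.W := by
      have := Z.W.smul_mem h (A.R_W hx)
      rwa [smul_inv_smul] at this
    rw [Z.f_coe, Z.f0_W hW]
    exact Or.inl hx
  have fy : ∀ h : H, Z.f (h • D.b) = h • (A.D1 hm).b := by
    intro h
    rw [Z.f_smul]
    congr 1
    rw [A.Db]
    exact Z.f_W ⟨_, A.b_W⟩
  have fv : ∀ h : H, Z.f (h • D.v) = h • (A.D1 hm).v := by
    intro h
    rw [Z.f_smul]
    congr 1
    rw [A.Dv]
    exact Z.f_W ⟨_, Z.u_W⟩
  obtain ⟨h, rfl, ⟨k1, rfl⟩ | ⟨k1, rfl⟩⟩ := h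
  · exact ⟨h, fv h, Or.inl ⟨fR h _ k1, fy h⟩⟩
  · exact ⟨h, fv h, Or.inr ⟨fR h _ k1, fy h⟩⟩

/-- the corners at the pole `a` -/
theorem ca_iff' (hm : K.Min) {c : Fin 5 → V} {i : K.I} (a : P.At c i) :
    (A.D1 hm).ca (Z.f (c 0)) (Z.f (c 1)) (Z.f (c 2)) ↔ D.ca (c 0) (c 1) (c 2) := by
  refine ⟨?_, A.ca_of hm⟩
  have r1 := Z.rk1
  have rb := A.rkb
  have ry := A.rky
  have key : ∀ {c : Fin 5 → V} {i : K.I}, P.At c i → ∀ h : H, Z.f (c 1) = h • (A.D1 hm).v →
      h⁻¹ • Z.f (c 0) ∈ (A.D1 hm).R → Z.f (c 2) = h • (A.D1 hm).a → c 1 = h • D.v ∧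
        h⁻¹ • c 0 ∈ D.R ∧ c 2 = h • D.a := by
    intro c i a h h1 h0 h2
    have e2 : c 2 = h • D.a := Z.eq_of_f h2 (by
      show K.rk Z.u ≠ K.rk (h • D.a)
      rw [K.rk_smul]
      omega)
    rcases A.leg hm a h1 h0 with ⟨k1, k2⟩ | ⟨j, g, hj, k1, k2, k3⟩
    · exact ⟨k1, k2, e2⟩
    · exfalso
      have r2 := Z.rk2 hj
      have e : K.E (c 1) (c 2) := a.E 1
      rw [k1, e2] at e
      rcases e with e | e
      · rcases Z.n_out hj e with k | k
        · have := congrArg K.rk k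
          rw [K.rk_smul, K.rk_smul] at this
          omega
        · rw [mul_smul] at k
          have k := smul_left_cancel h k
          have fa := A.fix_a k2 k3
          have fb := D.fix_b (by rw [A.Dv]; exact k2) fa
          rw [A.Db] at fb
          rw [fb] at k
          exact A.yb k
      · have := K.ar_rk _ _ e
        rw [K.rk_smul, K.rk_smul] at this
        omega
  rintro ⟨h, h1, ⟨h0, h2⟩ | ⟨h0, h2⟩⟩
  · obtain ⟨k1, k2, k3⟩ := key a h h1 h0 h2
    exact ⟨h, k1, Or.inl ⟨k2, k3⟩⟩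
  · obtain ⟨k1, k2, k3⟩ := key (a.refl 2) h h1 h0 h2
    exact ⟨h, k1, Or.inr ⟨k2, k3⟩⟩

/-- the corners at the pole `b` -/
theorem swap_iff' (hm : K.Min) {c : Fin 5 → V} {i : K.I} (a : P.At c i) :
    (A.D1 hm).swap.ca (Z.f (c 0)) (Z.f (c 1)) (Z.f (c 2)) ↔ D.swap.ca (c 0) (c 1) (c 2) ∨
      Z.Gl (c 0) (c 1) ∨ Z.Gl (c 2) (c 1) := by
  have r1 := Z.rk1
  have rb := A.rkb
  have ry := A.rky
  constructor
  · have key : ∀ {c : Fin 5 → V} {i : K.I}, P.At c i → ∀ h : H, Z.f (c 1) = h • (A.D1 hm).v →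
        h⁻¹ • Z.f (c 0) ∈ (A.D1 hm).R → Z.f (c 2) = h • (A.D1 hm).b → (c 1 = h • D.v ∧
        h⁻¹ • c 0 ∈ D.R ∧ c 2 = h • D.b) ∨ Z.Gl (c 2) (c 1) := by
      intro c i a h h1 h0 h2
      have e2 : c 2 = h • Z.b := Z.eq_of_f h2 (by
        show K.rk Z.u ≠ K.rk (h • Z.b)
        rw [K.rk_smul]
        omega)
      rcases A.leg hm a h1 h0 with ⟨k1, k2⟩ | ⟨j, g, hj, k1, k2, k3⟩
      · exact Or.inl ⟨k1, k2, by rw [A.Db]; exact e2⟩
      · right
        have r2 := Z.rk2 hj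
        have e : K.E (c 1) (c 2) := a.E 1
        rw [k1, e2] at e
        rcases e with e | e
        · rcases Z.n_out hj e with k | k
          · exfalso
            have := congrArg K.rk k
            rw [K.rk_smul, K.rk_smul] at this
            omega
          · exact ⟨j, hj, h * g, by rw [e2, k], k1⟩
        · exfalso
          have := K.ar_rk _ _ e
          rw [K.rk_smul, K.rk_smul] at this
          omega
    rintro ⟨h, h1, ⟨h0, h2⟩ | ⟨h0, h2⟩⟩
    · rcases key a h h1 h0 h2 with ⟨k1, k2, k3⟩ | k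
      · exact Or.inl ⟨h, k1, Or.inl ⟨k2, k3⟩⟩
      · exact Or.inr (Or.inr k)
    · rcases key (a.refl 2) h h1 h0 h2 with ⟨k1, k2, k3⟩ | k
      · exact Or.inl ⟨h, k1, Or.inr ⟨k2, k3⟩⟩
      · exact Or.inr (Or.inl k)
  · have key : ∀ {c : Fin 5 → V} {i : K.I}, P.At c i → Z.Gl (c 0) (c 1) → ∃ h : H,
        Z.f (c 1) = h • (A.D1 hm).v ∧ h⁻¹ • Z.f (c 2) ∈ (A.D1 hm).R ∧
          Z.f (c 0) = h • (A.D1 hm).b := by
      rintro c i a ⟨j, hj, g, e0, e1⟩
      refine ⟨g, ?_, ?_, ?_⟩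
      · rw [e1, Z.f_n hj, Z.f_smul]
        congr 1
        exact Z.f_W ⟨_, Z.u_W⟩
      · have a' := a.smul g⁻¹
        have e1' : g⁻¹ • c 1 = (1 : H) • Z.n j := by rw [e1, inv_smul_smul, one_smul]
        have k := HA.mem1 (D := D) hm a' hj e1' (one_smul _ _) (by rw [one_smul]; exact A.sR)
        have k : HA.Rn D Z (g⁻¹ • c 2) := by
          refine k.resolve_right fun k => ?_
          have k : g⁻¹ • c 2 = (1 : H) • Z.b := k
          rw [one_smul, inv_smul_eq_iff, ← e0] at k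
          exact a.ne2 hm 0 k.symm
        show HA.Rn D Z (g⁻¹ • ((Z.f (c 2) : Z.W) : V))
        have hW : c 2 ∈ Z.W := by
          have := Z.W.smul_mem g (A.Rn_W k)
          rwa [smul_inv_smul] at this
        rw [Z.f_coe, Z.f0_W hW]
        exact k
      · rw [e0, Z.f_smul]
        congr 1
        exact Z.f_W ⟨_, A.b_W⟩
    rintro (h | h | h)
    · exact A.swap_of hm h
    · obtain ⟨h, h1, h2, h3⟩ := key a h
      exact ⟨h, h1, Or.inr ⟨h2, h3⟩⟩
    · obtain ⟨h, h1, h2, h3⟩ := key (a.refl 2) h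
      exact ⟨h, h1, Or.inl ⟨h2, h3⟩⟩

open Classical in
/-- the corners of a pentagon -/
theorem corner (hm : K.Min) {c : Fin 5 → V} {i : K.I} (a : P.At c i) :
    (if (A.D1 hm).swap.ca (Z.f (c 0)) (Z.f (c 1)) (Z.f (c 2)) then (1 : ℤ) else 0) =
      (if D.swap.ca (c 0) (c 1) (c 2) then 1 else 0) +
      ((if Z.Gl (c 0) (c 1) then 1 else 0) + (if Z.Gl (c 2) (c 1) then 1 else 0)) := by
  have n1 : ∀ x, D.swap.ca (c 0) (c 1) (c 2) → ¬ Z.Gl x (c 1) := by
    rintro x ⟨h, h1, -⟩ ⟨j, hj, g, -, e⟩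
    have h1 : c 1 = h • D.v := h1
    rw [A.Dv] at h1
    have := Z.W.smul_mem h Z.u_W
    rw [← h1, e] at this
    exact Z.not_W hj this
  have n2 : Z.Gl (c 0) (c 1) → ¬ Z.Gl (c 2) (c 1) := by
    rintro ⟨j, hj, g, e0, e1⟩ ⟨j', hj', g', e2, e1'⟩
    refine a.ne2 hm 0 (?_ : c 0 = c 2)
    have h := K.ar_smul g _ _ (Z.hnb j hj)
    rw [← e1, e1'] at h
    rcases Z.n_out hj' h with k | k
    · exfalso
      have := congrArg K.rk k
      rw [K.rk_smul, K.rk_smul] at this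
      have := Z.rk1
      have := A.rkb
      omega
    · rw [e0, e2, k]
  rw [if_congr (A.swap_iff' hm a) rfl rfl]
  by_cases h1 : D.swap.ca (c 0) (c 1) (c 2)
  · rw [if_pos (Or.inl h1), if_pos h1, if_neg (n1 _ h1), if_neg (n1 _ h1)]
    norm_num
  · by_cases h2 : Z.Gl (c 0) (c 1)
    · rw [if_pos (Or.inr (Or.inl h2)), if_neg h1, if_pos h2, if_neg (n2 h2)]
      norm_num
    · by_cases h3 : Z.Gl (c 2) (c 1)
      · rw [if_pos (Or.inr (Or.inr h3)), if_neg h1, if_neg h2, if_pos h3]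
        norm_num
      · rw [if_neg (by rintro (k | k | k); exacts [h1 k, h2 k, h3 k]), if_neg h1, if_neg h2,
          if_neg h3]
        norm_num

omit A in
/-- the number of real corners at the `n i` with the leg `b` -/
noncomputable def _root_.Pool.Agent.DI.ZS.Lam (Z : ZS P) : ℤ :=
  open Classical in ∑ i : K.I, if P.five i then
    wcn (fun x v _ => Z.Gl x v) (K.cb i) (K.cw i) +
      wcn (fun _ v z => Z.Gl z v) (K.cb i) (K.cw i) else 0

open Classical in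
/-- THE COUNT IN THE QUOTIENT: `c_b + Λ = c_a` -/
theorem count (hm : K.Min) :
    (∑ i : K.I, if P.five i then wcn D.ca (K.cb i) (K.cw i) else 0) =
      (∑ i : K.I, if P.five i then wcn D.swap.ca (K.cb i) (K.cw i) else 0) + Z.Lam := by
  have h := (A.D1 hm).pq (Z.q5.min hm)
  have h' : (Z.qt.gx.cr.cn (A.D1 hm).ca : ℤ) = Z.qt.gx.cr.cn (A.D1 hm).swap.ca := by
    exact_mod_cast h
  rw [Cr.cn_eq, Cr.cn_eq, (Z.q5.pt hm).cs_eq, (Z.q5.pt hm).cs_eq] at h'
  have key1 : ∀ i : Z.qt.gx.I,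
      (∑ j : Fin 5, (if (A.D1 hm).ca ((Z.q5.pt hm).pt i j) ((Z.q5.pt hm).pt i (j + 1))
        ((Z.q5.pt hm).pt i (j + 2)) then (1 : ℤ) else 0)) = wcn D.ca (K.cb i.1) (K.cw i.1) := by
    intro i
    have hi := i.2
    rw [P.wcn_eq hi]
    refine Finset.sum_congr rfl fun j _ => ?_
    have k := A.ca_iff' hm ((PG.at_pt P hi).rot j)
    have e0 : j + 0 = j := add_zero j
    simp only [e0] at k
    exact if_congr k rfl rfl
  have key2 : ∀ i : Z.qt.gx.I,
      (∑ j : Fin 5, (if (A.D1 hm).swap.ca ((Z.q5.pt hm).pt i j) ((Z.q5.pt hm).pt i (j + 1))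
        ((Z.q5.pt hm).pt i (j + 2)) then (1 : ℤ) else 0)) =
        wcn D.swap.ca (K.cb i.1) (K.cw i.1) +
      (wcn (fun x v _ => Z.Gl x v) (K.cb i.1) (K.cw i.1) +
        wcn (fun _ v z => Z.Gl z v) (K.cb i.1) (K.cw i.1)) := by
    intro i
    have hi := i.2
    rw [P.wcn_eq hi, P.wcn_eq hi, P.wcn_eq hi]
    rw [← Finset.sum_add_distrib, ← Finset.sum_add_distrib]
    refine Finset.sum_congr rfl fun j _ => ?_
    have k := A.corner hm ((PG.at_pt P hi).rot j)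
    have e0 : j + 0 = j := add_zero j
    simp only [e0] at k
    exact k
  rw [Finset.sum_congr rfl (fun i _ => key1 i), Finset.sum_congr rfl (fun i _ => key2 i)] at h'
  have s1 := Z.sum_five (fun i => wcn D.ca (K.cb i) (K.cw i))
  have s2 := Z.sum_five (fun i => wcn D.swap.ca (K.cb i) (K.cw i) +
    (wcn (fun x v _ => Z.Gl x v) (K.cb i) (K.cw i) +
        wcn (fun _ v z => Z.Gl z v) (K.cb i) (K.cw i)))
  rw [s1, s2] at h'
  rw [h']
  unfold ZS.Lam
  rw [← Finset.sum_add_distrib]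
  refine Finset.sum_congr rfl fun i _ => ?_
  by_cases hi : P.five i
  · rw [if_pos hi, if_pos hi, if_pos hi]
  · rw [if_neg hi, if_neg hi, if_neg hi]
    norm_num

end HA

end Pool.Agent.DI
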