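import Pool.Agent.DI.Zh

/-!
# DI/Zh2: gamma squares (A), the inequality

`HA.le`: `Λ` is at most the number of squares. `HA.pas_le`: the sum of the passes of the edges `n i → s` in
the pentagons is at most the number of squares.
-/

namespace Pool.Agent.DI

open MulAction
open Pool.Agent.SAF (InC orbs FinOrb oc)

variable {H V : Type} [Group H] [MulAction H V]

namespace HA

variable {K : GX H V} {P : PG K} {Z : ZS P} {D : PcG P} (A : HA Z D)

include A

theorem not_mv_of {v : V} (h : K.rk v ≠ K.rk Z.u) (x : V) : ¬ D.mv x v := by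
  rintro ⟨g, -, k⟩
  have := congrArg K.rk k
  rw [K.rk_smul, A.Dv] at this
  omega

open Classical in
/-- the inequality before the fold -/
theorem slide (hm : K.Min) :
    (∑ i, if P.five i then wcn D.ca (K.cb i) (K.cw i) else 0) ≤
      (∑ i, if P.five i then wcn D.swap.ca (K.cb i) (K.cw i) else 0) +
        ∑ i, if P.five i then 0 else (1 : ℤ) := by
  have r1 := Z.rk1
  have rb := A.rkb
  have mbu : ¬ D.mv Z.b Z.u := fun k => by
    have := K.ar_rk _ _ (D.mv_ar k)
    omega
  have h2 := D.le_sq hm (fun i => ![Z.s, Z.n i, Z.b, Z.u]) (fun i hi => Z.isSq hi) (by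
      intro i hi j m1 m2
      exfalso
      have r2 := Z.rk2 hi
      fin_cases j
      · exact A.not_mv_of (v := Z.n i) (by omega) _ m1
      · exact A.not_mv_of (v := Z.b) (by omega) _ m1
      · exact mbu m1
      · exact A.not_mv_of (v := Z.s) (by omega) _ m1)
  have h3 : (∑ i, if P.five i then 0 else
      max 0 (wcn D.swap.ca (K.cb i) (K.cw i) - wcn D.ca (K.cb i) (K.cw i))) ≤
      ∑ i, if P.five i then 0 else (1 : ℤ) := by
    refine Finset.sum_le_sum fun i _ => ?_
    by_cases hi : P.five i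
    · rw [if_pos hi, if_pos hi]
    · have r2 := Z.rk2 hi
      rw [if_neg hi, if_neg hi, (Z.isSq hi).wcn_eq, (Z.isSq hi).wcn_eq, Fin.sum_univ_four,
        Fin.sum_univ_four]
      have cz : ∀ {v : V}, K.rk v ≠ K.rk Z.u → ∀ x z, ¬ D.ca x v z := fun hv x z k =>
        (D.ca_mv k).elim (A.not_mv_of hv _) (A.not_mv_of hv _)
      have cz' : ∀ {v : V}, K.rk v ≠ K.rk Z.u → ∀ x z, ¬ D.swap.ca x v z := fun hv x z k =>
        (D.swap.ca_mv k).elim (A.not_mv_of hv _) (A.not_mv_of hv _)
      have d1 : ¬ D.ca (![Z.s, Z.n i, Z.b, Z.u] 0) (![Z.s, Z.n i, Z.b, Z.u] (0 + 1))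
        (![Z.s, Z.n i, Z.b, Z.u] (0 + 2)) := cz (v := Z.n i) (by omega) _ _
      have d2 : ¬ D.swap.ca (![Z.s, Z.n i, Z.b, Z.u] 0) (![Z.s, Z.n i, Z.b, Z.u] (0 + 1))
        (![Z.s, Z.n i, Z.b, Z.u] (0 + 2)) := cz' (v := Z.n i) (by omega) _ _
      have d3 : ¬ D.ca (![Z.s, Z.n i, Z.b, Z.u] 1) (![Z.s, Z.n i, Z.b, Z.u] (1 + 1))
        (![Z.s, Z.n i, Z.b, Z.u] (1 + 2)) := cz (v := Z.b) (by omega) _ _
      have d4 : ¬ D.swap.ca (![Z.s, Z.n i, Z.b, Z.u] 1) (![Z.s, Z.n i, Z.b, Z.u] (1 + 1))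
        (![Z.s, Z.n i, Z.b, Z.u] (1 + 2)) := cz' (v := Z.b) (by omega) _ _
      have d5 : ¬ D.ca (![Z.s, Z.n i, Z.b, Z.u] 3) (![Z.s, Z.n i, Z.b, Z.u] (3 + 1))
        (![Z.s, Z.n i, Z.b, Z.u] (3 + 2)) := cz (v := Z.s) (by omega) _ _
      have d6 : ¬ D.swap.ca (![Z.s, Z.n i, Z.b, Z.u] 3) (![Z.s, Z.n i, Z.b, Z.u] (3 + 1))
        (![Z.s, Z.n i, Z.b, Z.u] (3 + 2)) := cz' (v := Z.s) (by omega) _ _
      rw [if_neg d1, if_neg d2, if_neg d3, if_neg d4, if_neg d5, if_neg d6]
      split_ifs <;> norm_num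
  linarith

/-- GAMMA (A) -/
theorem le (hm : K.Min) : Z.Lam ≤ Nat.card {i : K.I // ¬ P.five i} := by
  classical
  have h1 := A.slide hm
  have h2 := A.count hm
  have h3 : (∑ i, if P.five i then 0 else (1 : ℤ)) = Nat.card {i : K.I // ¬ P.five i} := by
    rw [Nat.card_eq_fintype_card, Fintype.card_subtype, Finset.card_eq_sum_ones, Finset.sum_filter]
    push_cast
    refine Finset.sum_congr rfl fun i _ => ?_
    by_cases hi : P.five i
    · rw [if_pos hi, if_neg (not_not.2 hi)]
    · rw [if_neg hi, if_pos hi]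
  linarith

omit A in
open Classical in
/-- `Λ` as a sum of passes -/
theorem Lam_pas (inj : ∀ i j (g : H), ¬ P.five i → ¬ P.five j → g • Z.n i = Z.n j → i = j) :
    Z.Lam = ∑ i : K.I, if P.five i then 0 else P.pas (Z.n i) Z.b := by
  have hd : ∀ i j x v, ¬ P.five i → ¬ P.five j → Tr H Z.b (Z.n i) x v → Tr H Z.b (Z.n j) x v →
      i = j := by
    rintro i j x v hi hj ⟨g, -, rfl⟩ ⟨g', -, e⟩
    exact inj i j (g'⁻¹ * g) hi hj (by rw [mul_smul, e, inv_smul_smul])
  have e : ∀ x v, (if Z.Gl x v then (1 : ℤ) else 0) =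
      ∑ j : K.I, if P.five j then 0 else if Tr H Z.b (Z.n j) x v then (1 : ℤ) else 0 := by
    intro x v
    by_cases h : Z.Gl x v
    · obtain ⟨j, hj, ht⟩ := id h
      rw [if_pos h, Finset.sum_eq_single j]
      · rw [if_neg hj, if_pos ht]
      · intro j' _ hne
        by_cases hj' : P.five j'
        · rw [if_pos hj']
        · rw [if_neg hj', if_neg (fun k => hne (hd _ _ _ _ hj' hj k ht))]
      · intro k
        exact absurd (Finset.mem_univ _) k
    · rw [if_neg h, Finset.sum_eq_zero]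
      intro j _
      by_cases hj : P.five j
      · rw [if_pos hj]
      · rw [if_neg hj, if_neg (fun k => h ⟨j, hj, k⟩)]
  have e2 : ∀ j, (if P.five j then 0 else P.pas (Z.n j) Z.b) = ∑ i : K.I, if P.five i then
      (if P.five j then 0 else wcn (fun x y _ => Tr H Z.b (Z.n j) x y) (K.cb i) (K.cw i) +
        wcn (fun _ y z => Tr H Z.b (Z.n j) z y) (K.cb i) (K.cw i)) else 0 := by
    intro j
    by_cases hj : P.five j
    · rw [if_pos hj]
      symm
      refine Finset.sum_eq_zero fun i _ => ?_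
      rw [if_pos hj]
      split_ifs <;> rfl
    · rw [if_neg hj, P.pas_eq_v]
      refine Finset.sum_congr rfl fun i _ => ?_
      rw [if_neg hj]
  rw [Finset.sum_congr rfl (fun j _ => e2 j), Finset.sum_comm]
  unfold ZS.Lam
  refine Finset.sum_congr rfl fun i _ => ?_
  by_cases hi : P.five i
  · rw [if_pos hi, Finset.sum_congr rfl (fun j _ => if_pos hi)]
    rw [P.wcn_eq hi, P.wcn_eq hi, ← Finset.sum_add_distrib]
    have e3 : ∀ j : K.I, (if P.five j then (0 : ℤ) else
        wcn (fun x y _ => Tr H Z.b (Z.n j) x y) (K.cb i) (K.cw i) +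
          wcn (fun _ y z => Tr H Z.b (Z.n j) z y) (K.cb i) (K.cw i)) =
        ∑ k : Fin 5, ((if P.five j then 0 else
          if Tr H Z.b (Z.n j) (P.pt i k) (P.pt i (k + 1)) then (1 : ℤ) else 0) +
          (if P.five j then 0 else
          if Tr H Z.b (Z.n j) (P.pt i (k + 2)) (P.pt i (k + 1)) then (1 : ℤ) else 0)) := by
      intro j
      by_cases hj : P.five j
      · simp [hj]
      · rw [if_neg hj, P.wcn_eq hi, P.wcn_eq hi, ← Finset.sum_add_distrib]
        refine Finset.sum_congr rfl fun k _ => ?_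
        rw [if_neg hj, if_neg hj]
    rw [Finset.sum_congr rfl (fun j _ => e3 j), Finset.sum_comm]
    refine Finset.sum_congr rfl fun k _ => ?_
    rw [Finset.sum_add_distrib, e, e]
  · rw [if_neg hi, Finset.sum_congr rfl (fun j _ => if_neg hi)]
    simp

/-- the two edges of `n i` have the same number of passes -/
theorem pas_eq_i (hm : K.Min) {i : K.I} (hi : ¬ P.five i) :
    P.pas (Z.n i) Z.s = P.pas (Z.n i) Z.b := by
  have r1 := Z.rk1
  have rb := A.rkb
  refine PG.pas_eq hm (Z.hns i hi) (Z.hnb i hi) Z.sb ?_ (fun i => ![Z.s, Z.n i, Z.b, Z.u])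
    (fun i hi => Z.isSq hi) ?_
  · intro g hg
    have h := K.ar_smul g _ _ (Z.hns i hi)
    rw [hg] at h
    rcases K.two _ _ _ _ (Z.hns i hi) (Z.hnb i hi) h with e | e | e
    · exact absurd e Z.sb
    · have := congrArg K.rk e
      rw [K.rk_smul] at this
      omega
    · exact e.symm
  · intro k hk j g e
    have r2 := Z.rk2 hi
    have r3 := Z.rkb hi
    fin_cases j
    · have e : Z.n k = g • Z.n i := e
      rw [← e]
      exact ⟨Z.hns k hk, Z.hnb k hk⟩
    · exfalso
      have e : Z.b = g • Z.n i := e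
      have := congrArg K.rk e
      rw [K.rk_smul] at this
      omega
    · exfalso
      have e : Z.u = g • Z.n i := e
      have := congrArg K.rk e
      rw [K.rk_smul] at this
      omega
    · exfalso
      have e : Z.s = g • Z.n i := e
      have := congrArg K.rk e
      rw [K.rk_smul] at this
      omega

open Classical in
/-- GAMMA (A) as a sum of passes; different squares have `n i` in different orbits -/
theorem pas_le (hm : K.Min)
    (inj : ∀ i j (g : H), ¬ P.five i → ¬ P.five j → g • Z.n i = Z.n j → i = j) :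
    (∑ i : K.I, if P.five i then 0 else P.pas (Z.n i) Z.s) ≤ Nat.card {i : K.I // ¬ P.five i} := by
  have h := A.le hm
  rw [HA.Lam_pas inj] at h
  refine le_trans (le_of_eq ?_) h
  refine Finset.sum_congr rfl fun i _ => ?_
  by_cases hi : P.five i
  · rw [if_pos hi, if_pos hi]
  · rw [if_neg hi, if_neg hi, A.pas_eq_i hm hi]

end HA

end Pool.Agent.DI
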